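import Pool.Agent.MP_2339ce_nt.Q2.NRH

/-! Block NR: the region for `1 ≤ N ≤ 15`. -/

set_option autoImplicit false
set_option maxRecDepth 100000

noncomputable section

namespace Pool.Agent.MP_2339ce_nt.NR

def L1 : Lt :=
 (.nd 32 (.nd 7 (.nd 4 (.nd 2 (.st 311745 1 27 (.st 4872 27 10323 (.st 78 10323 26009 (.st 40 26009 52017 .nil))))
 (.nd 3 (.st 3446 1 163 (.st 1219 163 10323 (.st 154 10323 26009 (.st 40 26009 52017 .nil))))
 (.st 4872 1 27 (.st 1724 27 10323 (.st 217 10323 82572 (.st 40 82572 165142 .nil))))))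
 (.nd 5 (.st 2437 1 1627 (.st 109 1627 10323 (.st 40 10323 20644 .nil)))
 (.nd 6 (.st 2898 1 6 (.st 23172 6 1627 (.st 129 1627 10323 (.st 40 10323 20644 .nil))))
 (.st 3446 1 1627 (.st 154 1627 10323 (.st 40 10323 20644 .nil))))))
 (.nd 10 (.nd 8 (.st 4097 1 163 (.st 1450 163 1627 (.st 183 1627 10323 (.st 40 10323 20644 .nil))))
 (.nd 9 (.st 3446 1 10323 (.st 65 10323 20644 .nil))
 (.st 3446 1 10323 (.st 65 10323 20644 .nil))))
 (.nd 16 (.st 3446 1 10323 (.st 65 10323 20644 .nil))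
 (.nd 23 (.st 6890 1 27 (.st 3446 27 10323 (.st 65 10323 20644 .nil)))
 (.st 6890 1 27 (.st 2049 27 163 (.st 257 163 10323 (.st 65 10323 20644 .nil))))))))
 (.nd 256 (.nd 65 (.nd 33 (.st 6890 1 27 (.st 2049 27 163 (.st 513 163 10323 (.st 65 10323 20644 .nil))))
 (.nd 64 (.st 4097 1 27 (.st 1724 27 163 (.st 513 163 10323 .nil)))
 (.st 4097 1 27 (.st 2049 27 82 (.st 1724 82 163 (.st 513 163 10323 (.st 257 10323 20644 .nil)))))))
 (.nd 128 (.st 2049 1 82 (.st 1025 82 163 (.st 513 163 1627 (.st 257 1627 20644 .nil))))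
 (.nd 129 (.st 2049 1 163 (.st 513 163 10323 (.st 257 10323 20644 .nil)))
 (.st 2049 1 163 (.st 513 163 10323 .nil)))))
 (.nd 1024 (.nd 257 (.st 4097 1 82 (.st 2049 82 163 (.st 513 163 10323 .nil)))
 (.nd 512 (.st 4097 1 82 (.st 2049 82 163 .nil))
 (.st 4097 1 82 (.st 2049 82 163 .nil))))
 (.nd 4096 (.nd 2048 (.st 8193 1 82 .nil)
 (.st 8193 1 82 .nil))
 (.nd 8193 (.st 16385 1 82 .nil)
 .nil)))))

end Pool.Agent.MP_2339ce_nt.NR
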