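import Pool.Agent.MP_2339ce_nt.Q2.NRH

/-! Block NR: the region for `16 ≤ N ≤ 16`. -/

set_option autoImplicit false
set_option maxRecDepth 100000

noncomputable section

namespace Pool.Agent.MP_2339ce_nt.NR

def L2 : Lt :=
 (.nd 32 (.nd 7 (.nd 4 (.nd 2 (.st 311745 1 52 (.st 38969 52 324 (.st 4872 324 20644 (.st 78 20644 165142 (.st 55 165142 330282 .nil)))))
 (.nd 3 (.st 623489 1 52 (.st 65537 52 324 (.st 9743 324 8193 (.st 3446 8193 20644 (.st 154 20644 165142 (.st 55 165142 330282 .nil))))))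
 (.st 13779 1 20644 (.st 217 20644 165142 (.st 55 165142 330282 .nil)))))
 (.nd 5 (.st 1246976 1 52 (.st 19485 52 3252 (.st 2437 3252 20644 (.st 109 20644 165142 (.st 55 165142 330282 .nil)))))
 (.nd 6 (.st 23172 1 3252 (.st 2898 3252 20644 (.st 129 20644 165142 (.st 55 165142 330282 .nil))))
 (.st 27556 1 3252 (.st 154 3252 165142 (.st 55 165142 330282 .nil))))))
 (.nd 10 (.nd 8 (.st 32769 1 3252 (.st 183 3252 165142 (.st 55 165142 330282 .nil)))
 (.nd 9 (.st 77937 1 1292 (.st 38969 1292 20644 (.st 217 20644 165142 (.st 92 165142 330282 .nil))))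
 (.st 77937 1 1292 (.st 38969 1292 20644 (.st 217 20644 165142 (.st 92 165142 330282 .nil))))))
 (.nd 16 (.st 77937 1 1292 (.st 27556 1292 20644 (.st 154 20644 165142 (.st 92 165142 330282 .nil))))
 (.nd 23 (.st 131073 1 324 (.st 77937 324 1292 (.st 32769 1292 3252 (.st 27556 3252 20644 (.st 154 20644 165142 (.st 92 165142 330282 .nil))))))
 (.st 131073 1 324 (.st 32769 324 3252 (.st 257 3252 20644 (.st 92 20644 41287 .nil))))))))
 (.nd 256 (.nd 65 (.nd 33 (.st 262145 1 324 (.st 32769 324 3252 (.st 4097 3252 20644 (.st 109 20644 41287 .nil))))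
 (.nd 64 (.st 262145 1 324 (.st 4097 324 20644 (.st 109 20644 41287 .nil)))
 (.st 524289 1 324 (.st 65537 324 3252 (.st 4097 3252 20644 (.st 109 20644 41287 .nil))))))
 (.nd 128 (.st 524289 1 324 (.st 65537 324 3252 (.st 257 3252 20644 .nil)))
 (.nd 129 (.st 524289 1 324 (.st 65537 324 3252 (.st 1025 3252 20644 .nil)))
 (.st 16385 1 324 (.st 1025 324 20644 .nil)))))
 (.nd 1024 (.nd 257 (.st 16385 1 324 (.st 2049 324 20644 .nil))
 (.nd 512 (.st 4097 1 324 (.st 2049 324 20644 .nil))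
 (.st 8193 1 52 (.st 4097 52 324 (.st 2049 324 20644 .nil)))))
 (.nd 4096 (.nd 2048 (.st 8193 1 82 (.st 4097 82 103 .nil))
 (.st 8193 1 82 .nil))
 (.nd 8193 (.st 16385 1 82 .nil)
 .nil)))))

end Pool.Agent.MP_2339ce_nt.NR
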