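import Pool.Agent.MP_2339ce_nt.Q2.NRH

/-! Block NR: the region for `33 ≤ N ≤ 64`. -/

set_option autoImplicit false
set_option maxRecDepth 100000

noncomputable section

namespace Pool.Agent.MP_2339ce_nt.NR

def L5 : Lt :=
 (.nd 65 (.nd 8 (.nd 4 (.nd 2 (.st 1482912 1 103 (.st 110219 103 205 (.st 38969 205 647 (.st 23172 647 1292 (.st 16385 1292 4097 (.st 13779 4097 41287 (.st 2898 41287 104033 (.st 78 104033 660563 .nil))))))))
 (.nd 3 (.st 623489 1 103 (.st 131073 103 647 (.st 27556 647 16385 (.st 9743 16385 104033 (.st 154 104033 330282 (.st 78 330282 660563 .nil))))))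
 (.st 881745 1 103 (.st 311745 103 647 (.st 38969 647 41287 (.st 13779 41287 330282 (.st 78 330282 660563 .nil)))))))
 (.nd 6 (.nd 5 (.st 1246976 1 103 (.st 440873 103 647 (.st 55110 647 6503 (.st 19485 6503 330282 (.st 78 330282 660563 .nil)))))
 (.st 1482912 1 103 (.st 185365 103 647 (.st 65537 647 6503 (.st 23172 6503 330282 (.st 78 330282 660563 .nil))))))
 (.nd 7 (.st 220437 1 647 (.st 77937 647 6503 (.st 27556 6503 330282 (.st 78 330282 660563 .nil))))
 (.st 262145 1 647 (.st 92683 647 6503 (.st 32769 6503 330282 (.st 78 330282 660563 .nil)))))))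
 (.nd 23 (.nd 10 (.nd 9 (.st 623489 1 103 (.st 77937 103 203 (.st 110219 203 406 (.st 131073 406 2582 (.st 110219 2582 41287 (.st 38969 41287 330282 (.st 129 330282 660563 .nil)))))))
 (.st 623489 1 103 (.st 77937 103 203 (.st 110219 203 406 (.st 131073 406 2582 (.st 110219 2582 41287 (.st 217 41287 660563 .nil)))))))
 (.nd 16 (.st 623489 1 103 (.st 77937 103 406 (.st 131073 406 2582 (.st 77937 2582 6503 (.st 46342 6503 41287 (.st 154 41287 660563 .nil))))))
 (.st 623489 1 103 (.st 131073 103 2582 (.st 77937 2582 6503 (.st 46342 6503 41287 (.st 257 41287 330282 (.st 129 330282 660563 .nil))))))))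
 (.nd 33 (.nd 32 (.st 131073 1 2582 (.st 55110 2582 6503 (.st 32769 6503 41287 (.st 257 41287 330282 (.st 129 330282 660563 .nil)))))
 (.st 262145 1 2582 (.st 55110 2582 6503 (.st 32769 6503 41287 (.st 257 41287 330282 (.st 129 330282 660563 .nil))))))
 (.nd 64 (.st 262145 1 2582 (.st 32769 2582 41287 (.st 154 41287 82572 .nil)))
 (.st 524289 1 647 (.st 262145 647 6503 (.st 65537 6503 41287 (.st 257 41287 82572 .nil))))))))
 (.nd 1449 (.nd 257 (.nd 129 (.nd 128 (.st 524289 1 647 (.st 262145 647 6503 (.st 65537 6503 41287 (.st 257 41287 82572 .nil))))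
 (.st 1048577 1 647 (.st 262145 647 6503 (.st 131073 6503 41287 (.st 257 41287 82572 .nil)))))
 (.nd 256 (.st 1048577 1 647 (.st 131073 647 41287 .nil))
 (.st 1048577 1 647 (.st 262145 647 41287 .nil))))
 (.nd 725 (.nd 512 (.st 262145 1 41287 .nil)
 (.st 262145 1 41287 .nil))
 (.nd 1024 (.st 65537 1 103 (.st 16385 103 129 (.st 8193 129 257 .nil)))
 (.st 65537 1 103 (.st 16385 103 129 (.st 8193 129 257 .nil))))))
 (.nd 5793 (.nd 2897 (.nd 2048 (.st 16385 1 257 .nil)
 (.st 32769 1 103 (.st 16385 103 257 .nil)))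
 (.nd 4096 (.st 32769 1 103 (.st 16385 103 257 .nil))
 (.st 32769 1 103 (.st 16385 103 257 .nil))))
 (.nd 16384 (.nd 8192 (.st 32769 1 103 .nil)
 (.st 32769 1 103 .nil))
 (.nd 32769 (.st 65537 1 103 .nil)
 .nil)))))

end Pool.Agent.MP_2339ce_nt.NR
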