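import Pool.Agent.MP_2339ce_nt.Q2.NC.L1
import Pool.Agent.MP_2339ce_nt.Q2.NC.L5
import Pool.Agent.MP_2339ce_nt.Q2.NC.L10
import Pool.Agent.MP_2339ce_nt.Q2.CkI

/-! Block NR: runs. -/

set_option autoImplicit false
set_option maxRecDepth 100000

noncomputable section

namespace Pool.Agent.MP_2339ce_nt.NR

open Q2.Top

def T25_0 : Ph :=
  (.na 951 139 (.na 718 57 (.na 544 21 (.na 429 8 (.na 283 4 (.na 133 2 (.nx 132 660563 (.nr 131
  1482912 (.nx 3 42 (.nx 2 41 (.nr 1 7 (.lg 0 true 1 29 29 5 0 2952) (.l1 .sk)) (.l1 .sk)) (.nx 114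
  104033 (.nx 80 4097 (.nr 33 38969 (.nr 19 16385 (.lg 0 true 16 89 89 9 0 206640) (.nx 32 1292
  (.lg 0 false 13 89 97 9 0 1343160) .out)) (.nx 79 205 (.nr 46 110219 (.lg 0 false 13 83 83 9 0
  38376) (.nx 78 103 (.lg 0 false 32 89 89 13 0 206640) .out)) .out)) (.nr 113 13779 (.nr 96 331
  (.lg 0 true 16 83 83 9 0 5904) (.nr 100 682 (.lg 2 false 4 83 83 7 6444 206640) (.lg 2 false 13
  97 101 9 3128 14774760))) .out)) (.nr 130 78 (.lg 0 true 16 83 83 9 0 5904) .out))) .out) .out)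
  (.na 219 3 (.nx 218 660563 (.nr 217 623489 (.nx 136 42 (.nx 135 41 (.nr 134 13 (.lg 0 true 1 29
  29 5 0 206640) (.l1 .sk)) (.l1 .sk)) (.nr 203 131073 (.nx 189 104033 (.nr 175 27556 (.nx 149 5380
  (.lg 0 false 13 89 89 9 0 76752) (.nr 162 613 (.lg 0 true 13 83 83 9 0 76752) (.lg 2 false 13 97
  101 9 4312 2686320))) (.nx 188 647 (.lg 0 false 13 89 89 9 0 76752) .out)) (.nr 202 154 (.lg 0
  true 13 83 83 9 0 76752) .out)) (.nx 216 103 (.lg 0 false 13 79 79 9 0 76752) .out))) .out) .out)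
  (.nx 282 660563 (.nr 281 881745 (.nx 221 41 (.nr 220 18 (.lg 0 true 1 23 23 5 0 162360) (.l1
  .sk)) (.nx 222 42 (.l1 .sk) (.nr 265 38969 (.nx 235 5892 (.lg 0 false 13 89 89 16 0 38376) (.nx
  257 330282 (.nr 250 1500 (.nr 248 716 (.lg 0 true 13 83 83 16 0 38376) (.lg 2 false 2 83 83 7
  9457 5904)) (.lg 2 false 7 101 103 13 5566 2273040)) (.nr 264 78 (.lg 0 true 7 79 79 13 0 20664)
  .out))) (.nx 280 647 (.nr 272 311745 (.lg 0 false 7 89 97 13 0 20664) (.nx 279 103 (.lg 0 false 7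
  79 79 13 0 20664) .out)) .out)))) .out) .out))) (.na 340 6 (.na 284 5 .ne (.nx 339 660563 (.nr
  338 1482912 (.nx 287 42 (.nx 286 41 (.nr 285 27 (.lg 0 false 1 19 19 9 0 14760) (.l1 .sk)) (.l1
  .sk)) (.nx 330 330282 (.nr 313 65537 (.nx 291 3288 (.lg 0 true 4 89 89 13 0 29520) (.nr 302 659
  (.lg 0 true 11 83 83 16 0 162360) (.nr 304 2739 (.lg 2 false 2 83 83 11 10275 29520) (.nx 308
  6503 (.lg 1 false 4 89 89 13 16767 29520) (.nr 312 23172 (.lg 2 false 4 89 89 13 3001 29520)
  .out))))) (.nx 329 647 (.nr 317 185365 (.lg 0 false 4 89 89 13 0 29520) (.nx 328 103 (.lg 0 false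
  11 79 79 16 0 162360) .out)) .out)) (.nr 337 78 (.lg 0 true 7 73 73 16 0 103320) .out))) .out)
  .out)) (.na 384 7 (.nx 383 660563 (.nr 382 220437 (.nx 343 42 (.nx 342 41 (.nr 341 32 (.lg 0 true
  1 23 23 7 0 206640) (.l1 .sk)) (.l1 .sk)) (.nr 376 77937 (.nx 356 6503 (.lg 0 false 13 89 97 19 0
  2686320) (.nr 375 27556 (.nr 369 704 (.lg 0 true 13 89 89 19 0 76752) (.nx 374 330282 (.nr 371
  3052 (.lg 2 false 2 83 83 7 9618 206640) (.lg 2 false 3 89 89 13 3568 206640)) .out)) .out)) (.nx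
  381 647 (.lg 0 false 5 83 89 13 0 206640) .out))) .out) .out) (.nx 428 660563 (.nr 427 262145
  (.nr 385 3 .s1 (.nx 387 41 (.nr 386 36 (.lg 0 true 1 17 17 9 0 103320) (.l1 .sk)) (.nx 388 42
  (.l1 .sk) (.nx 404 6503 (.nr 399 92683 (.lg 0 false 11 83 89 16 0 1136520) (.nx 403 647 (.lg 0
  false 4 83 83 13 0 41328) .out)) (.nr 426 32769 (.nx 420 330282 (.nr 415 584 (.lg 0 true 11 73 79
  16 0 227304) (.nr 416 2236 (.lg 2 false 1 83 83 9 11594 103320) (.lg 2 false 4 89 89 13 4241
  206640))) (.nr 425 78 (.lg 0 true 5 71 71 16 0 103320) .out)) .out))))) .out) .out)))) (.na 485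
  14 (.na 430 10 .ne (.na 457 11 (.nx 456 660563 (.nr 455 623489 (.nr 431 8 .s1 (.nx 443 6503 (.nx
  435 103 (.nx 433 41 (.nr 432 50 (.lg 0 false 1 17 17 11 0 29520) (.l1 .sk)) (.nx 434 42 (.l1 .sk)
  (.l1 (.ls 89 37 887)))) (.nr 442 131073 (.lg 0 false 7 89 89 13 0 206640) .out)) (.nr 454 46342
  (.nr 450 154 (.lg 0 true 7 73 73 13 0 206640) (.nx 453 41287 (.lg 1 true 3 89 89 13 5996 29520)
  .out)) .out))) .out) .out) (.nx 484 660563 (.nr 483 623489 (.nr 458 9 .s1 (.nx 461 42 (.nx 460 41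
  (.nr 459 64 (.l1 (.ls 19 17 155)) (.l1 .sk)) (.l1 .sk)) (.nx 470 6503 (.nx 462 103 (.l1 (.ls 83
  29 807)) (.nr 469 131073 (.lg 0 false 7 89 89 16 0 1136520) .out)) (.nr 482 46342 (.nr 477 154
  (.lg 0 true 7 71 71 16 0 227304) (.nx 481 41287 (.lg 1 true 4 89 89 16 5996 324720) .out))
  .out)))) .out) .out))) (.na 508 18 (.na 507 16 (.nx 506 660563 (.nr 505 623489 (.nr 486 13 .s1
  (.nx 490 103 (.nx 488 41 (.nr 487 73 (.l1 (.ls 23 23 123)) (.l1 .sk)) (.nx 489 42 (.l1 .sk) (.l1
  (.ls 89 31 634)))) (.nr 504 131073 (.nx 495 6503 (.lg 0 false 5 89 97 13 0 206640) (.nr 503 46342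
  (.nr 500 154 (.lg 0 true 5 73 73 13 0 206640) (.nx 502 41287 (.lg 1 false 2 89 89 13 5996 41328)
  .out)) .out)) .out))) .out) .out) .ne) (.na 527 19 (.nx 526 660563 (.nr 525 623489 (.nr 509 17
  .s1 (.nx 516 6503 (.nx 510 103 (.l1 (.ls 83 37 592)) (.nr 515 131073 (.lg 0 false 5 83 83 19 0
  29520) .out)) (.nr 524 46342 (.nr 521 257 (.lg 0 true 5 71 71 19 0 29520) (.nx 523 41287 (.lg 1
  true 2 79 79 13 5996 5904) .out)) .out))) .out) .out) (.nx 543 660563 (.nr 542 623489 (.nr 528 18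
  .s1 (.nx 534 6503 (.nx 529 103 (.l1 (.ls 83 23 561)) (.nr 533 131073 (.lg 0 false 4 89 89 16 0
  5904) .out)) (.nr 541 46342 (.nr 538 257 (.lg 0 true 4 73 73 16 0 5904) (.nx 540 41287 (.lg 1
  false 2 83 83 11 5996 5904) .out)) .out))) .out) .out))))) (.na 630 33 (.na 583 25 (.na 566 22
  (.nx 565 660563 (.nr 564 623489 (.nr 545 21 .s1 (.nx 548 42 (.nx 547 41 (.nr 546 101 (.l1 (.ls 23
  19 83)) (.l1 .sk)) (.l1 .sk)) (.nx 554 6503 (.nx 549 103 (.l1 (.ls 89 29 424)) (.nr 553 131073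
  (.lg 0 false 4 83 83 17 0 41328) .out)) (.nr 563 46342 (.nr 558 257 (.lg 0 true 4 73 73 17 0
  41328) (.nx 562 41287 (.lg 1 false 4 71 71 17 5996 41328) .out)) .out)))) .out) .out) (.na 582 23
  (.nx 581 660563 (.nr 580 623489 (.nr 567 22 .s1 (.nx 572 6503 (.nx 568 103 (.l1 (.ls 83 31 485))
  (.nr 571 131073 (.lg 0 false 3 89 89 13 0 64944) .out)) (.nr 579 46342 (.nr 577 257 (.lg 0 true 5
  73 73 19 0 324720) (.nx 578 41287 (.lg 1 false 1 89 89 9 5996 64944) .out)) .out))) .out) .out)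
  .ne)) (.na 615 30 (.na 598 27 (.nx 597 660563 (.nr 596 131073 (.nr 584 25 .s1 (.nx 586 41 (.nr
  585 123 (.l1 (.ls 16 16 70)) (.l1 .sk)) (.nx 587 42 (.l1 .sk) (.nx 590 6503 (.lg 0 false 3 79 79
  16 0 14760) (.nr 595 32769 (.nr 593 257 (.lg 0 true 3 67 67 16 0 14760) (.nx 594 41287 (.lg 1
  false 1 79 79 16 4241 162360) .out)) .out))))) .out) .out) (.nx 614 660563 (.nr 613 131073 (.nr
  599 27 .s1 (.nx 606 6503 (.nx 601 41 (.nr 600 137 (.l1 (.ls 17 16 65)) (.l1 .sk)) (.nx 602 42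
  (.l1 .sk) (.lg 0 false 4 79 79 16 0 5904))) (.nr 612 32769 (.nr 610 257 (.lg 0 true 4 67 67 16 0
  5904) (.nx 611 41287 (.lg 1 false 1 79 79 16 4241 103320) .out)) .out))) .out) .out)) (.na 629 32
  (.nx 628 660563 (.nr 627 131073 (.nr 616 30 .s1 (.nx 619 42 (.nx 618 41 (.nr 617 146 (.l1 (.ls 23
  23 59)) (.l1 .sk)) (.l1 .sk)) (.nx 621 6503 (.lg 0 false 2 89 89 23 0 29520) (.nr 626 32769 (.nr
  624 257 (.lg 0 true 3 73 73 29 0 29520) (.nx 625 41287 (.lg 1 false 1 83 83 19 4241 29520) .out))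
  .out)))) .out) .out) .ne))) (.na 676 42 (.na 652 37 (.na 641 35 (.nx 640 82572 (.nr 639 262145
  (.nr 631 33 .s1 (.nx 634 42 (.nx 633 41 (.nr 632 160 (.l1 (.ls 19 17 53)) (.l1 .sk)) (.l1 .sk))
  (.nx 635 2582 (.lg 0 true 1 83 83 16 0 32472) (.nr 638 32769 (.nr 636 154 (.lg 0 true 1 59 59 16
  0 32472) (.nx 637 41287 (.lg 1 false 1 83 83 16 10683 32472) .out)) .out)))) .out) .out) (.nx 651
  82572 (.nr 650 262145 (.nr 642 35 .s1 (.nx 645 42 (.nx 644 41 (.nr 643 169 (.l1 (.ls 23 17 51))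
  (.l1 .sk)) (.l1 .sk)) (.nx 646 2582 (.lg 0 true 1 89 89 16 0 103320) (.nr 649 32769 (.nr 647 154
  (.lg 0 false 1 61 61 16 0 103320) (.nx 648 41287 (.lg 1 false 1 89 89 16 10683 103320) .out))
  .out)))) .out) .out)) (.na 665 38 (.nx 664 82572 (.nr 663 262145 (.nr 653 37 .s1 (.nx 655 41 (.nr
  654 173 (.l1 (.ls 16 16 48)) (.l1 .sk)) (.nx 656 42 (.l1 .sk) (.nx 659 2582 (.lg 0 false 3 79 79
  16 0 2952) (.nr 662 32769 (.nr 660 154 (.lg 0 true 1 59 59 16 0 2952) (.nx 661 41287 (.lg 1 false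
  1 83 83 16 10683 2952) .out)) .out))))) .out) .out) (.nx 675 82572 (.nr 674 262145 (.nr 666 38
  .s1 (.nx 670 2582 (.nx 668 41 (.nr 667 192 (.l1 (.ls 17 13 47)) (.l1 .sk)) (.nx 669 42 (.l1 .sk)
  (.lg 0 true 1 89 89 13 0 29520))) (.nr 673 32769 (.nr 671 154 (.lg 0 false 1 61 61 13 0 29520)
  (.nx 672 41287 (.lg 1 false 1 83 83 13 10683 5904) .out)) .out))) .out) .out))) (.na 698 50 (.na
  687 45 (.nx 686 82572 (.nr 685 262145 (.nr 677 42 .s1 (.nx 681 2582 (.nx 679 41 (.nr 678 205 (.l1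
  (.ls 23 23 43)) (.l1 .sk)) (.nx 680 42 (.l1 .sk) (.lg 0 true 1 89 89 23 0 206640))) (.nr 684
  32769 (.nr 682 154 (.lg 0 true 1 59 59 23 0 41328) (.nx 683 41287 (.lg 1 false 1 83 83 23 10683
  41328) .out)) .out))) .out) .out) (.nx 697 82572 (.nr 696 262145 (.nr 688 45 .s1 (.nx 691 42 (.nx
  690 41 (.nr 689 228 (.l1 (.ls 19 17 40)) (.l1 .sk)) (.l1 .sk)) (.nx 692 2582 (.lg 0 true 1 83 83
  17 0 14760) (.nr 695 32769 (.nr 693 154 (.lg 0 true 1 53 53 17 0 14760) (.nx 694 41287 (.lg 1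
  false 1 79 79 17 10683 14760) .out)) .out)))) .out) .out)) (.na 708 54 (.nx 707 82572 (.nr 706
  262145 (.nr 699 50 .s1 (.nx 702 42 (.nx 701 41 (.nr 700 246 (.l1 (.ls 17 19 36)) (.l1 .sk)) (.l1
  .sk)) (.nr 704 32769 (.lg 0 false 2 89 89 19 0 206640) (.nx 705 2582 (.lg 0 true 1 83 83 13 0
  206640) .out)))) .out) .out) (.nx 717 82572 (.nr 716 262145 (.nr 709 54 .s1 (.nx 712 42 (.nx 711
  41 (.nr 710 260 (.l1 (.ls 17 19 34)) (.l1 .sk)) (.l1 .sk)) (.nr 714 32769 (.lg 0 false 2 83 83 19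
  0 5904) (.nx 715 2582 (.lg 0 true 1 79 79 19 0 5904) .out)))) .out) .out)))))) (.na 847 95 (.na
  784 71 (.na 750 64 (.na 729 61 (.nx 728 82572 (.nr 727 262145 (.nr 719 57 .s1 (.nx 722 42 (.nx
  721 41 (.nr 720 278 (.l1 (.ls 17 16 32)) (.l1 .sk)) (.l1 .sk)) (.nr 725 32769 (.nx 723 41287 (.lg
  0 false 1 89 89 16 0 103320) (.nr 724 154 (.lg 0 true 1 53 53 16 0 2952) .out)) (.nx 726 2582
  (.lg 0 false 1 79 79 16 0 2952) .out)))) .out) .out) (.na 739 63 (.nx 738 82572 (.nr 737 262145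
  (.nr 730 61 .s1 (.nx 732 41 (.nr 731 287 (.l1 (.ls 16 16 30)) (.l1 .sk)) (.nx 733 42 (.l1 .sk)
  (.nr 735 32769 (.lg 0 false 2 89 89 16 0 5904) (.nx 736 2582 (.lg 0 true 1 79 79 16 0 2952)
  .out))))) .out) .out) (.nx 749 82572 (.nr 748 262145 (.nr 740 63 .s1 (.nx 742 41 (.nr 741 292
  (.l1 (.ls 19 17 29)) (.l1 .sk)) (.nx 743 42 (.l1 .sk) (.nr 746 32769 (.nx 744 41287 (.lg 0 false
  1 83 83 17 0 20664) (.nr 745 154 (.lg 0 true 1 47 47 17 0 20664) .out)) (.nx 747 2582 (.lg 0
  false 1 79 79 17 0 20664) .out))))) .out) .out))) (.na 761 67 (.na 751 66 .ne (.nx 760 82572 (.nr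
  759 524289 (.nr 752 66 .s1 (.nx 755 6503 (.nx 753 647 (.l1 (.ls 79 53 6345)) (.nr 754 262145 (.lg
  0 true 1 89 89 29 0 324720) .out)) (.nr 758 65537 (.nr 756 257 (.lg 0 true 1 59 59 29 0 64944)
  (.nx 757 41287 (.lg 1 false 1 79 79 29 8477 64944) .out)) .out))) .out) .out)) (.na 774 70 (.nx
  773 82572 (.nr 772 524289 (.nr 762 67 .s1 (.nx 765 42 (.nx 764 41 (.nr 763 319 (.l1 (.ls 16 16
  28)) (.l1 .sk)) (.l1 .sk)) (.nx 768 6503 (.lg 0 false 3 79 79 16 0 2952) (.nr 771 65537 (.nr 769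
  257 (.lg 0 false 1 47 47 16 0 2952) (.nx 770 41287 (.lg 1 false 1 73 73 16 8477 14760) .out))
  .out)))) .out) .out) (.nx 783 82572 (.nr 782 524289 (.nr 775 70 .s1 (.nx 778 6503 (.nx 776 647
  (.l1 (.ls 83 53 5983)) (.nr 777 262145 (.lg 0 true 1 89 89 23 0 206640) .out)) (.nr 781 65537
  (.nr 779 257 (.lg 0 true 1 59 59 23 0 206640) (.nx 780 41287 (.lg 1 false 1 79 79 23 8477 206640)
  .out)) .out))) .out) .out)))) (.na 813 77 (.na 795 74 (.nx 794 82572 (.nr 793 524289 (.nr 785 71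
  .s1 (.nx 788 42 (.nx 787 41 (.nr 786 338 (.l1 (.ls 16 16 26)) (.l1 .sk)) (.l1 .sk)) (.nx 791 6503
  (.lg 0 false 3 79 79 16 0 2952) (.nr 792 65537 (.lg 1 false 1 83 83 16 23842 2952) .out)))) .out)
  .out) (.na 803 75 (.nx 802 82572 (.nr 801 524289 (.nr 796 74 .s1 (.nx 799 6503 (.nx 797 647 (.l1
  (.ls 79 47 5659)) (.nr 798 262145 (.lg 0 true 1 89 89 13 0 324720) .out)) (.nr 800 65537 (.lg 1
  false 1 89 89 13 22875 5904) .out))) .out) .out) (.nx 812 82572 (.nr 811 524289 (.nr 804 75 .s1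
  (.nx 805 647 (.l1 (.ls 73 43 5584)) (.nr 810 262145 (.nx 806 6503 (.lg 0 true 1 83 83 17 0 14760)
  (.nr 809 65537 (.nr 807 257 (.lg 0 true 1 53 53 17 0 14760) (.nx 808 41287 (.lg 1 true 1 73 73 17
  8477 14760) .out)) .out)) .out))) .out) .out))) (.na 831 90 (.na 823 82 (.nx 822 82572 (.nr 821
  524289 (.nr 814 77 .s1 (.nx 817 6503 (.nx 815 647 (.l1 (.ls 79 43 5439)) (.nr 816 262145 (.lg 0
  true 1 89 89 17 0 1136520) .out)) (.nr 820 65537 (.nx 818 41287 (.lg 1 false 1 79 79 17 10992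
  227304) (.nr 819 257 (.lg 0 true 1 53 53 17 0 227304) .out)) .out))) .out) .out) (.nx 830 82572
  (.nr 829 524289 (.nr 824 82 .s1 (.nx 825 647 (.l1 (.ls 67 47 5107)) (.nr 828 262145 (.lg 0 true 3
  83 83 17 0 5904) .out))) .out) .out)) (.na 839 94 (.nx 838 82572 (.nr 837 524289 (.nr 832 90 .s1
  (.nx 835 6503 (.nx 833 647 (.l1 (.ls 79 53 4654)) (.nr 834 262145 (.lg 0 true 1 83 83 29 0
  206640) .out)) (.nr 836 65537 (.lg 1 false 1 83 83 29 18809 206640) .out))) .out) .out) (.nx 846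
  82572 (.nr 845 524289 (.nr 840 94 .s1 (.nx 841 647 (.l1 (.ls 73 43 4456)) (.nr 844 262145 (.nx
  842 6503 (.lg 0 true 1 83 83 17 0 29520) (.nr 843 65537 (.lg 1 false 1 79 79 17 18008 5904)
  .out)) .out))) .out) .out))))) (.na 905 123 (.na 871 110 (.na 855 98 (.nx 854 82572 (.nr 853
  524289 (.nr 848 95 .s1 (.nx 849 647 (.l1 (.ls 73 41 4409)) (.nr 852 262145 (.nx 850 6503 (.lg 0
  true 1 83 83 17 0 14760) (.nr 851 65537 (.lg 1 false 1 83 83 17 17819 14760) .out)) .out))) .out)
  .out) (.na 863 99 (.nx 862 82572 (.nr 861 524289 (.nr 856 98 .s1 (.nx 859 6503 (.nx 857 647 (.l1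
  (.ls 73 43 4274)) (.nr 858 262145 (.lg 0 true 1 79 79 19 0 41328) .out)) (.nr 860 65537 (.lg 1
  false 1 79 79 19 17273 41328) .out))) .out) .out) (.nx 870 82572 (.nr 869 524289 (.nr 864 99 .s1
  (.nx 867 6503 (.nx 865 647 (.l1 (.ls 79 43 4231)) (.nr 866 262145 (.lg 0 true 1 83 83 19 0
  1136520) .out)) (.nr 868 65537 (.lg 1 false 1 83 83 19 17099 1136520) .out))) .out) .out))) (.na
  887 121 (.na 879 114 (.nx 878 82572 (.nr 877 524289 (.nr 872 110 .s1 (.nx 873 647 (.l1 (.ls 79 47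
  3808)) (.nr 876 262145 (.nx 874 6503 (.lg 0 true 1 83 83 29 0 324720) (.nr 875 65537 (.lg 1 false
  1 83 83 29 15389 324720) .out)) .out))) .out) .out) (.nx 886 82572 (.nr 885 524289 (.nr 880 114
  .s1 (.nx 883 6503 (.nx 881 647 (.l1 (.ls 79 47 3675)) (.nr 882 262145 (.lg 0 true 1 83 83 31 0
  5904) .out)) (.nr 884 65537 (.lg 1 true 1 79 79 31 14849 5904) .out))) .out) .out)) (.na 896 122
  (.nx 895 82572 (.nr 894 524289 (.nr 888 121 .s1 (.nx 892 6503 (.nx 890 41 (.nr 889 556 (.l1 (.ls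
  16 16 31)) (.l1 .sk)) (.nx 891 42 (.l1 .sk) (.lg 0 true 1 79 79 17 0 32472))) (.nr 893 65537 (.lg
  1 false 1 73 73 17 13990 1136520) .out))) .out) .out) (.nx 904 82572 (.nr 903 524289 (.nr 897 122
  .s1 (.nx 901 6503 (.nx 899 41 (.nr 898 561 (.l1 (.ls 16 13 31)) (.l1 .sk)) (.nx 900 42 (.l1 .sk)
  (.lg 0 true 1 83 83 19 0 5904))) (.nr 902 65537 (.lg 1 false 1 79 79 19 13875 29520) .out)))
  .out) .out)))) (.na 932 131 (.na 923 126 (.na 914 125 (.nx 913 82572 (.nr 912 524289 (.nr 906 123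
  .s1 (.nx 910 6503 (.nx 908 41 (.nr 907 570 (.l1 (.ls 16 16 32)) (.l1 .sk)) (.nx 909 42 (.l1 .sk)
  (.lg 0 true 1 73 73 17 0 2952))) (.nr 911 65537 (.lg 1 false 1 71 71 17 13762 14760) .out)))
  .out) .out) (.nx 922 82572 (.nr 921 524289 (.nr 915 125 .s1 (.nx 917 41 (.nr 916 574 (.l1 (.ls 16
  16 32)) (.l1 .sk)) (.nx 918 42 (.l1 .sk) (.nx 919 6503 (.lg 0 true 1 79 79 16 0 14760) (.nr 920
  65537 (.lg 1 false 1 71 71 16 13542 14760) .out))))) .out) .out)) (.na 931 128 (.nx 930 82572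
  (.nr 929 524289 (.nr 924 126 .s1 (.nx 927 6503 (.nx 925 647 (.l1 (.ls 73 47 3325)) (.nr 926
  262145 (.lg 0 false 1 79 79 31 0 41328) .out)) (.nr 928 65537 (.lg 1 false 1 79 79 31 13435
  206640) .out))) .out) .out) .ne)) (.na 939 134 (.na 933 133 (.lg 0 false 1 0 0 16 0 24) (.nx 938
  41287 (.nr 937 1048577 (.nr 934 133 .s1 (.nx 935 647 (.l1 (.ls 79 41 3150)) (.nr 936 131073 (.lg
  0 true 1 89 89 17 0 20664) .out))) .out) .out)) (.na 945 135 (.nx 944 41287 (.nr 943 1048577 (.nr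
  940 134 .s1 (.nx 941 647 (.l1 (.ls 61 41 3126)) (.nr 942 131073 (.lg 0 true 1 89 89 19 0 5904)
  .out))) .out) .out) (.nx 950 41287 (.nr 949 1048577 (.nr 946 135 .s1 (.nx 947 647 (.l1 (.ls 73 41
  3103)) (.nr 948 131073 (.lg 0 false 1 83 83 19 0 14760) .out))) .out) .out))))))) (.na 1095 213
  (.na 1015 171 (.na 983 154 (.na 964 146 (.na 952 141 (.lg 0 false 1 0 0 16 0 24) (.na 958 142
  (.nx 957 41287 (.nr 956 1048577 (.nr 953 141 .s1 (.nx 954 647 (.l1 (.ls 79 37 2971)) (.nr 955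
  131073 (.lg 0 true 1 89 89 19 0 103320) .out))) .out) .out) (.nx 963 41287 (.nr 962 1048577 (.nr
  959 142 .s1 (.nx 960 647 (.l1 (.ls 67 41 2950)) (.nr 961 131073 (.lg 0 true 1 89 89 19 0 5904)
  .out))) .out) .out))) (.na 976 149 (.na 970 147 (.nx 969 41287 (.nr 968 1048577 (.nr 965 146 .s1
  (.nx 966 647 (.l1 (.ls 71 41 2870)) (.nr 967 131073 (.lg 0 true 1 89 89 19 0 5904) .out))) .out)
  .out) (.nx 975 41287 (.nr 974 1048577 (.nr 971 147 .s1 (.nx 972 647 (.l1 (.ls 73 41 2850)) (.nr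
  973 131073 (.lg 0 false 1 83 83 23 0 20664) .out))) .out) .out)) (.na 977 150 (.lg 0 false 1 0 0
  16 0 24) (.nx 982 41287 (.nr 981 1048577 (.nr 978 150 .s1 (.nx 979 647 (.l1 (.ls 73 47 2793))
  (.nr 980 131073 (.lg 0 true 1 83 83 31 0 29520) .out))) .out) .out)))) (.na 996 162 (.na 989 157
  (.nx 988 41287 (.nr 987 1048577 (.nr 984 154 .s1 (.nx 985 647 (.l1 (.ls 83 47 2721)) (.nr 986
  131073 (.lg 0 true 1 89 89 31 0 2273040) .out))) .out) .out) (.na 990 158 (.lg 0 false 1 0 0 16 0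
  24) (.nx 995 41287 (.nr 994 1048577 (.nr 991 158 .s1 (.nx 992 647 (.l1 (.ls 71 41 2652)) (.nr 993
  131073 (.lg 0 true 1 83 83 19 0 29520) .out))) .out) .out))) (.na 1003 165 (.na 1002 163 (.nx
  1001 41287 (.nr 1000 1048577 (.nr 997 162 .s1 (.nx 998 647 (.l1 (.ls 71 43 2587)) (.nr 999 131073
  (.lg 0 true 1 79 79 23 0 5904) .out))) .out) .out) (.lg 0 false 1 0 0 16 0 24)) (.na 1009 167
  (.nx 1008 41287 (.nr 1007 1048577 (.nr 1004 165 .s1 (.nx 1005 647 (.l1 (.ls 83 43 2540)) (.nr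
  1006 131073 (.lg 0 false 1 89 89 29 0 162360) .out))) .out) .out) (.nx 1014 41287 (.nr 1013
  1048577 (.nr 1010 167 .s1 (.nx 1011 647 (.l1 (.ls 67 31 2509)) (.nr 1012 131073 (.lg 0 true 1 73
  73 16 0 2952) .out))) .out) .out))))) (.na 1052 191 (.na 1033 181 (.na 1021 173 (.nx 1020 41287
  (.nr 1019 1048577 (.nr 1016 171 .s1 (.nx 1017 647 (.l1 (.ls 73 41 2451)) (.nr 1018 131073 (.lg 0
  true 1 83 83 17 0 14760) .out))) .out) .out) (.na 1027 179 (.nx 1026 41287 (.nr 1025 1048577 (.nr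
  1022 173 .s1 (.nx 1023 647 (.l1 (.ls 71 31 2422)) (.nr 1024 131073 (.lg 0 true 1 79 79 16 0 2952)
  .out))) .out) .out) (.nx 1032 41287 (.nr 1031 1048577 (.nr 1028 179 .s1 (.nx 1029 647 (.l1 (.ls
  67 31 2341)) (.nr 1030 131073 (.lg 0 true 1 73 73 16 0 2952) .out))) .out) .out))) (.na 1040 189
  (.na 1034 185 (.lg 0 false 1 0 0 16 0 24) (.nx 1039 41287 (.nr 1038 1048577 (.nr 1035 185 .s1
  (.nx 1036 647 (.l1 (.ls 73 31 2265)) (.nr 1037 131073 (.lg 0 true 1 83 83 19 0 14760) .out)))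
  .out) .out)) (.na 1046 190 (.nx 1045 41287 (.nr 1044 1048577 (.nr 1041 189 .s1 (.nx 1042 647 (.l1
  (.ls 73 41 2217)) (.nr 1043 131073 (.lg 0 false 1 79 79 23 0 20664) .out))) .out) .out) (.nx 1051
  41287 (.nr 1050 1048577 (.nr 1047 190 .s1 (.nx 1048 647 (.l1 (.ls 83 43 2206)) (.nr 1049 131073
  (.lg 0 true 1 89 89 31 0 29520) .out))) .out) .out)))) (.na 1071 199 (.na 1059 197 (.na 1058 193
  (.nx 1057 41287 (.nr 1056 1048577 (.nr 1053 191 .s1 (.nx 1054 647 (.l1 (.ls 67 29 2194)) (.nr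
  1055 131073 (.lg 0 true 1 73 73 16 0 2952) .out))) .out) .out) (.lg 0 false 1 0 0 16 0 24)) (.na
  1065 198 (.nx 1064 41287 (.nr 1063 1048577 (.nr 1060 197 .s1 (.nx 1061 647 (.l1 (.ls 71 29 2127))
  (.nr 1062 131073 (.lg 0 true 1 73 73 16 0 2952) .out))) .out) .out) (.nx 1070 41287 (.nr 1069
  1048577 (.nr 1066 198 .s1 (.nx 1067 647 (.l1 (.ls 79 47 2117)) (.nr 1068 131073 (.lg 0 true 1 83
  83 31 0 64944) .out))) .out) .out))) (.na 1083 210 (.na 1077 205 (.nx 1076 41287 (.nr 1075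
  1048577 (.nr 1072 199 .s1 (.nx 1073 647 (.l1 (.ls 67 29 2106)) (.nr 1074 131073 (.lg 0 true 1 73
  73 16 0 14760) .out))) .out) .out) (.nx 1082 41287 (.nr 1081 1048577 (.nr 1078 205 .s1 (.nx 1079
  647 (.l1 (.ls 67 31 2044)) (.nr 1080 131073 (.lg 0 true 1 73 73 17 0 14760) .out))) .out) .out))
  (.na 1089 211 (.nx 1088 41287 (.nr 1087 1048577 (.nr 1084 210 .s1 (.nx 1085 647 (.l1 (.ls 83 47
  1996)) (.nr 1086 131073 (.lg 0 false 1 89 89 41 0 206640) .out))) .out) .out) (.nx 1094 41287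
  (.nr 1093 1048577 (.nr 1090 211 .s1 (.nx 1091 647 (.l1 (.ls 67 29 1986)) (.nr 1092 131073 (.lg 0
  true 1 73 73 16 0 103320) .out))) .out) .out)))))) (.na 1175 250 (.na 1132 229 (.na 1113 223 (.na
  1101 219 (.nx 1100 41287 (.nr 1099 1048577 (.nr 1096 213 .s1 (.nx 1097 647 (.l1 (.ls 67 37 1968))
  (.nr 1098 131073 (.lg 0 false 1 79 79 19 0 2952) .out))) .out) .out) (.na 1107 222 (.nx 1106
  41287 (.nr 1105 1048577 (.nr 1102 219 .s1 (.nx 1103 647 (.l1 (.ls 71 37 1914)) (.nr 1104 131073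
  (.lg 0 false 1 83 83 19 0 2952) .out))) .out) .out) (.nx 1112 41287 (.nr 1111 1048577 (.nr 1108
  222 .s1 (.nx 1109 647 (.l1 (.ls 79 47 1888)) (.nr 1110 131073 (.lg 0 false 1 83 83 31 0 5904)
  .out))) .out) .out))) (.na 1120 226 (.na 1114 225 (.lg 0 false 1 0 0 16 0 24) (.nx 1119 41287
  (.nr 1118 1048577 (.nr 1115 225 .s1 (.nx 1116 647 (.l1 (.ls 73 37 1863)) (.nr 1117 131073 (.lg 0
  false 1 79 79 23 0 103320) .out))) .out) .out)) (.na 1126 227 (.nx 1125 41287 (.nr 1124 1048577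
  (.nr 1121 226 .s1 (.nx 1122 647 (.l1 (.ls 71 37 1855)) (.nr 1123 131073 (.lg 0 true 1 73 73 23 0
  5904) .out))) .out) .out) (.nx 1131 41287 (.nr 1130 1048577 (.nr 1127 227 .s1 (.nx 1128 647 (.l1
  (.ls 67 29 1847)) (.nr 1129 131073 (.lg 0 true 1 71 71 17 0 2952) .out))) .out) .out)))) (.na
  1151 242 (.na 1139 235 (.na 1133 231 (.lg 0 false 1 0 0 16 0 24) (.nx 1138 41287 (.nr 1137
  1048577 (.nr 1134 231 .s1 (.nx 1135 647 (.l1 (.ls 79 41 1815)) (.nr 1136 131073 (.lg 0 false 1 83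
  89 31 0 1136520) .out))) .out) .out)) (.na 1145 237 (.nx 1144 41287 (.nr 1143 1048577 (.nr 1140
  235 .s1 (.nx 1141 647 (.l1 (.ls 73 31 1784)) (.nr 1142 131073 (.lg 0 false 1 79 79 19 0 14760)
  .out))) .out) .out) (.nx 1150 41287 (.nr 1149 1048577 (.nr 1146 237 .s1 (.nx 1147 647 (.l1 (.ls
  71 31 1769)) (.nr 1148 131073 (.lg 0 false 1 73 73 19 0 2952) .out))) .out) .out))) (.na 1163 245
  (.na 1157 243 (.nx 1156 41287 (.nr 1155 1048577 (.nr 1152 242 .s1 (.nx 1153 647 (.l1 (.ls 71 41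
  1732)) (.nr 1154 131073 (.lg 0 true 1 73 73 29 0 64944) .out))) .out) .out) (.nx 1162 41287 (.nr
  1161 1048577 (.nr 1158 243 .s1 (.nx 1159 647 (.l1 (.ls 67 31 1725)) (.nr 1160 131073 (.lg 0 true
  1 73 73 19 0 2952) .out))) .out) .out)) (.na 1169 246 (.nx 1168 41287 (.nr 1167 1048577 (.nr 1164
  245 .s1 (.nx 1165 647 (.l1 (.ls 73 37 1711)) (.nr 1166 131073 (.lg 0 false 1 79 79 23 0 103320)
  .out))) .out) .out) (.nx 1174 41287 (.nr 1173 1048577 (.nr 1170 246 .s1 (.nx 1171 647 (.l1 (.ls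
  71 43 1704)) (.nr 1172 131073 (.lg 0 true 1 73 73 29 0 5904) .out))) .out) .out))))) (.na 2261
  1449 (.na 1183 257 (.na 1181 251 (.nx 1180 41287 (.nr 1179 1048577 (.nr 1176 250 .s1 (.nx 1177
  647 (.l1 (.ls 71 41 1677)) (.nr 1178 131073 (.lg 0 true 1 73 73 29 0 29520) .out))) .out) .out)
  (.na 1182 256 (.lg 0 false 1 0 0 16 0 24) .ne)) (.na 1741 725 (.na 1483 512 (.nx 1482 41287 (.nr
  1481 262145 (.nr 1184 257 .s1 (.nx 1226 42 (.nx 1225 41 (.nr 1224 2333 (.lx (.lp 43 17 129)) (.l1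
  .sk)) (.l1 .sk)) (.la (.lg 0 false 1 73 73 23 0)))) .out) .out) (.nx 1740 41287 (.nr 1739 262145
  (.nr 1484 512 .s1 (.nx 1525 41 (.nr 1524 3303 (.lx (.lp 37 19 182)) (.l1 .sk)) (.nx 1526 42 (.l1
  .sk) (.la (.lg 0 false 1 71 71 29 0))))) .out) .out)) (.na 2001 1024 (.nx 2000 257 (.nr 1999
  65537 (.nr 1742 725 .s1 (.nx 1870 129 (.lx (.lp 59 23 257)) (.nr 1998 8193 (.lx (.lp 43 23 257))
  .out))) .out) .out) (.nx 2260 257 (.nr 2259 65537 (.nr 2002 1024 .s1 (.nx 2130 129 (.lx (.lp 59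
  23 363)) (.nr 2258 8193 (.lx (.lp 37 29 363)) .out))) .out) .out)))) (.na 3299 5793 (.na 2780
  2897 (.na 2520 2048 (.nx 2519 257 (.nr 2518 16385 (.nr 2262 1449 .s1 (.lx (.lp 43 29 513))) .out)
  .out) (.nx 2779 257 (.nr 2778 32769 (.nr 2521 2048 .s1 (.nx 2623 103 (.lx (.lp 16 0 725)) (.nr
  2777 16385 (.lx (.lp 43 31 725)) .out))) .out) .out)) (.na 3040 4096 (.nx 3039 257 (.nr 3038
  32769 (.nr 2781 2897 .s1 (.nx 2883 103 (.lx (.lp 16 0 1025)) (.nr 3037 16385 (.lx (.lp 37 31
  1025)) .out))) .out) .out) (.nx 3298 257 (.nr 3297 32769 (.nr 3041 4096 .s1 (.lx (.lp 43 31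
  1449))) .out) .out))) (.na 3509 16384 (.na 3404 8192 (.nx 3403 103 (.nr 3402 32769 (.nr 3300 5793
  .s1 (.lx (.lp 16 29 2049))) .out) .out) (.nx 3508 103 (.nr 3507 32769 (.nr 3405 8192 .s1 (.lx
  (.lp 16 0 4097))) .out) .out)) (.na 3511 32769 (.nx 3510 103 (.l1 .sk) .out) .out)))))))

def T25_1 : Ph :=
  (.na 693 2 (.nx 692 3329023 (.nr 691 881745 (.nx 3 232 (.nx 2 231 (.nr 1 16 (.lg 0 false 1 53 53
  5 0 1848) (.l1 .sk)) (.l1 .sk)) (.nx 654 1664512 (.nx 152 26009 (.nr 55 110219 (.lg 0 false 52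
  103 109 16 0 720720) (.nx 99 4096 (.nx 90 3250 (.nx 89 408 (.nr 68 311745 (.lg 0 false 13 89 89 9
  0 24024) (.nx 88 324 (.lg 0 false 20 89 89 11 0 18480) .out)) .out) (.nr 98 131073 (.lg 0 false 8
  97 97 9 0 55440) .out)) (.nr 151 220437 (.lg 0 false 52 101 107 16 0 720720) .out))) (.nr 653
  185365 (.nr 204 515 (.lg 0 true 52 101 103 16 0 720720) (.nr 296 8193 (.nx 208 26681 (.lg 0 true
  4 89 89 7 0 55440) (.nr 228 942 (.lg 2 true 20 97 97 11 373304 18480) (.nr 248 1724 (.lg 2 true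
  20 97 101 11 204089 55440) (.nx 295 1321124 (.nr 268 2898 (.lg 2 true 20 97 103 11 88510 720720)
  (.nx 294 1048577 (.nr 281 4872 (.lg 2 true 13 101 103 9 41792 720720) (.lg 2 true 13 101 103 9
  24859 720720)) .out)) .out)))) (.nx 652 832257 (.nx 348 33190 (.lg 0 false 52 101 107 16 0
  720720) (.nx 400 41287 (.lg 1 false 52 101 107 16 149198 720720) (.nr 651 155873 (.nx 452 52017
  (.lg 1 false 52 101 107 16 100879 720720) (.nx 504 65537 (.lg 1 false 52 101 107 16 80070 720720)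
  (.nr 650 110219 (.nr 597 77937 (.nr 544 46342 (.nr 524 26009 (.lg 2 false 20 101 107 11 11733
  720720) (.lg 2 false 20 101 107 11 18961 720720)) (.nx 596 524289 (.lg 2 true 52 101 107 16 31823
  720720) .out)) (.nx 649 262145 (.lg 2 true 52 101 107 16 44966 720720) .out)) .out))) .out)))
  .out))) .out)) (.nr 690 154 (.lg 0 true 36 89 89 16 0 11088) .out))) .out) .out) (.nx 1121
  3329023 (.nr 1120 1763489 (.nx 1109 2642247 (.nx 802 37254 (.nx 695 231 (.nr 694 29 (.lg 0 false
  1 47 47 5 0 55440) (.l1 .sk)) (.nx 696 232 (.l1 .sk) (.nr 761 262145 (.lg 0 false 65 101 109 13 0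
  720720) (.nx 788 26007 (.nx 787 408 (.lg 0 false 26 89 89 11 0 48048) .out) (.nr 801 311745 (.lg
  0 false 13 101 103 9 0 720720) .out))))) (.nr 1108 311745 (.nr 868 3446 (.nx 841 1048577 (.nr 828
  941 (.lg 0 true 26 101 101 11 0 720720) (.lg 2 true 13 101 103 9 128705 720720)) (.nr 867 257
  (.lg 0 true 26 89 89 11 0 48048) .out)) (.nx 1107 832257 (.nr 881 12637 (.lg 2 true 13 101 103 9
  27895 720720) (.nx 999 82572 (.nx 946 52017 (.lg 1 false 65 97 107 13 223434 720720) (.nr 998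
  262145 (.nx 972 65537 (.lg 1 false 26 101 107 11 134579 720720) (.lg 1 false 26 101 107 11 106816
  720720)) .out)) (.nr 1106 220437 (.nx 1025 116773 (.lg 1 false 26 101 107 11 71303 720720) (.nx
  1051 165142 (.lg 1 false 26 101 107 11 50419 720720) (.nr 1105 155873 (.nr 1078 92683 (.nr 1064
  55110 (.lg 2 false 13 101 103 9 8941 720720) (.nx 1077 330282 (.lg 2 false 13 101 103 9 15012
  720720) .out)) (.nx 1104 262145 (.lg 2 false 26 101 107 11 25221 720720) .out)) .out))) .out)))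
  .out)) .out)) (.nr 1119 9 (.lg 0 true 10 71 71 9 0 18480) .out)) .out) .out))

def T25_2 : Ph :=
  (.na 123 118 (.na 61 32 (.na 30 10 (.na 17 3 (.na 1 2 .ne (.nx 16 52017 (.nr 15 3446 (.nx 3 11
  (.nr 2 7 (.lg 0 false 1 0 16 5 0 7920) (.l1 .sk)) (.nx 4 12 (.l1 .sk) (.nx 11 10323 (.lg 0 false
  7 79 79 9 0 11088) (.nr 14 154 (.lg 0 false 3 73 73 7 0 1584) .out)))) .out) .out)) (.na 18 6 .ne
  (.na 29 7 (.nx 28 20644 (.nr 27 3446 (.nr 19 6 .s1 (.nx 24 1627 (.nx 21 544 (.nx 20 262 (.l1 (.ls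
  59 53 11443)) (.l1 (.ls 59 61 37885))) (.nx 22 784 (.l1 (.ls 59 61 53123)) (.nx 23 1129 (.l1 (.ls
  61 67 110000)) (.l1 (.ls 61 71 228751))))) (.nr 26 154 (.lg 0 false 2 61 61 7 0 1584) .out)))
  .out) .out) .ne))) (.na 47 22 (.na 39 16 (.nx 38 20644 (.nr 37 3446 (.nr 31 10 .s1 (.nx 33 11
  (.nr 32 39 (.l1 (.ls 16 13 15)) (.l1 .sk)) (.nx 34 12 (.l1 .sk) (.lg 0 false 3 71 71 13 0
  7920)))) .out) .out) (.na 40 18 .ne (.nx 46 20644 (.nr 45 6890 (.nr 41 18 .s1 (.nx 42 27 (.l1
  (.ls 47 19 43)) (.nr 44 3446 (.lg 0 false 2 71 71 13 0 1584) .out))) .out) .out))) (.na 54 23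
  (.nx 53 20644 (.nr 52 6890 (.nr 48 22 .s1 (.nx 49 27 (.l1 (.ls 41 17 36)) (.nr 51 3446 (.lg 0
  false 2 67 67 9 0 1584) .out))) .out) .out) (.na 55 30 .ne (.nx 60 20644 (.nr 59 6890 (.nr 56 30
  .s1 (.nx 57 163 (.l1 (.ls 53 41 888)) (.nr 58 257 (.lg 0 false 1 53 53 19 0 7920) .out))) .out)
  .out))))) (.na 87 66 (.na 74 54 (.na 62 46 .ne (.na 68 50 (.nx 67 10323 (.nr 66 4097 (.nr 63 46
  .s1 (.nx 64 163 (.l1 (.ls 43 37 580)) (.nr 65 513 (.lg 0 false 1 53 53 13 0 7920) .out))) .out)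
  .out) (.nx 73 10323 (.nr 72 4097 (.nr 69 50 .s1 (.nx 70 27 (.l1 (.ls 37 13 17)) (.nr 71 1724 (.lg
  0 false 1 59 59 13 0 7920) .out))) .out) .out))) (.na 80 62 (.nx 79 10323 (.nr 78 4097 (.nr 75 54
  .s1 (.nx 76 27 (.l1 (.ls 37 17 16)) (.nr 77 1724 (.lg 0 false 1 53 53 19 0 7920) .out))) .out)
  .out) (.na 86 64 (.nx 85 10323 (.nr 84 4097 (.nr 81 62 .s1 (.nx 82 163 (.l1 (.ls 29 29 431)) (.nr
  83 513 (.lg 2 true 1 31 31 13 916 1584) .out))) .out) .out) .ne))) (.na 105 94 (.na 93 74 (.nx 92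
  20644 (.nr 91 2049 (.nr 88 66 .s1 (.nx 89 163 (.l1 (.ls 31 37 405)) (.nr 90 513 (.lg 0 false 1 47
  47 23 0 7920) .out))) .out) .out) (.na 99 90 (.nx 98 20644 (.nr 97 2049 (.nr 94 74 .s1 (.nx 95
  163 (.l1 (.ls 29 29 362)) (.nr 96 513 (.lg 2 false 1 29 29 13 1535 7920) .out))) .out) .out) (.nx
  104 20644 (.nr 103 2049 (.nr 100 90 .s1 (.nx 101 163 (.l1 (.ls 37 37 298)) (.nr 102 513 (.lg 0
  true 1 47 47 29 0 7920) .out))) .out) .out))) (.na 111 106 (.nx 110 20644 (.nr 109 2049 (.nr 106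
  94 .s1 (.nx 107 163 (.l1 (.ls 29 29 285)) (.nr 108 513 (.lg 2 true 1 23 23 17 1208 7920) .out)))
  .out) .out) (.na 117 110 (.nx 116 20644 (.nr 115 2049 (.nr 112 106 .s1 (.nx 113 163 (.l1 (.ls 29
  23 253)) (.nr 114 513 (.lg 2 false 1 23 23 19 1072 55440) .out))) .out) .out) (.nx 122 20644 (.nr
  121 2049 (.nr 118 110 .s1 (.nx 119 163 (.l1 (.ls 29 31 244)) (.nr 120 513 (.lg 2 true 1 23 23 23
  1033 7920) .out))) .out) .out)))))) (.na 190 222 (.na 154 162 (.na 136 138 (.na 129 128 (.nx 128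
  20644 (.nr 127 2049 (.nr 124 118 .s1 (.nx 125 163 (.l1 (.ls 29 23 228)) (.nr 126 513 (.lg 2 true
  1 23 23 19 963 55440) .out))) .out) .out) (.na 130 134 .ne (.nx 135 10323 (.nr 134 2049 (.nr 131
  134 .s1 (.nx 132 163 (.l1 (.ls 29 23 201)) (.nr 133 513 (.lg 2 false 1 17 17 19 424 55440)
  .out))) .out) .out))) (.na 142 142 (.nx 141 10323 (.nr 140 2049 (.nr 137 138 .s1 (.nx 138 163
  (.l1 (.ls 19 31 195)) (.nr 139 513 (.lg 2 true 1 19 19 31 412 7920) .out))) .out) .out) (.na 148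
  150 (.nx 147 10323 (.nr 146 2049 (.nr 143 142 .s1 (.nx 144 163 (.l1 (.ls 23 23 190)) (.nr 145 513
  (.lg 2 true 1 16 16 19 400 7920) .out))) .out) .out) (.nx 153 10323 (.nr 152 2049 (.nr 149 150
  .s1 (.nx 150 163 (.l1 (.ls 31 31 180)) (.nr 151 513 (.lg 2 true 1 17 19 31 379 7920) .out)))
  .out) .out)))) (.na 172 194 (.na 160 178 (.nx 159 10323 (.nr 158 2049 (.nr 155 162 .s1 (.nx 156
  163 (.l1 (.ls 23 29 167)) (.nr 157 513 (.lg 2 false 1 17 17 23 351 55440) .out))) .out) .out)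
  (.na 166 186 (.nx 165 10323 (.nr 164 2049 (.nr 161 178 .s1 (.nx 162 163 (.l1 (.ls 19 23 152))
  (.nr 163 513 (.lg 2 false 1 16 16 19 319 7920) .out))) .out) .out) (.nx 171 10323 (.nr 170 2049
  (.nr 167 186 .s1 (.nx 168 163 (.l1 (.ls 29 29 145)) (.nr 169 513 (.lg 2 false 1 16 16 29 306
  7920) .out))) .out) .out))) (.na 178 198 (.nx 177 10323 (.nr 176 2049 (.nr 173 194 .s1 (.nx 174
  163 (.l1 (.ls 23 23 139)) (.nr 175 513 (.lg 2 false 1 0 16 19 293 720720) .out))) .out) .out)
  (.na 184 206 (.nx 183 10323 (.nr 182 2049 (.nr 179 198 .s1 (.nx 180 163 (.l1 (.ls 19 31 137))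
  (.nr 181 513 (.lg 2 false 1 16 16 31 287 55440) .out))) .out) .out) (.nx 189 10323 (.nr 188 2049
  (.nr 185 206 .s1 (.nx 186 163 (.l1 (.ls 19 23 131)) (.nr 187 513 (.lg 2 false 1 16 16 23 276
  720720) .out))) .out) .out))))) (.na 216 257 (.na 208 242 (.na 196 226 (.nx 195 10323 (.nr 194
  2049 (.nr 191 222 .s1 (.nx 192 163 (.l1 (.ls 29 29 122)) (.nr 193 513 (.lg 2 false 1 16 16 31 256
  7920) .out))) .out) .out) (.na 202 230 (.nx 201 10323 (.nr 200 2049 (.nr 197 226 .s1 (.nx 198 163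
  (.l1 (.ls 19 23 120)) (.nr 199 513 (.lg 2 false 1 16 16 23 252 720720) .out))) .out) .out) (.nx
  207 10323 (.nr 206 2049 (.nr 203 230 .s1 (.nx 204 163 (.l1 (.ls 19 31 118)) (.nr 205 513 (.lg 2
  false 1 17 17 31 247 55440) .out))) .out) .out))) (.na 209 250 (.lg 0 false 1 0 0 16 0 24) (.na
  215 256 (.nx 214 10323 (.nr 213 2049 (.nr 210 250 .s1 (.nx 211 163 (.l1 (.ls 19 29 109)) (.nr 212
  513 (.lg 2 true 1 16 16 29 228 720720) .out))) .out) .out) .ne))) (.na 753 2048 (.na 504 512 (.nx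
  503 163 (.nr 502 4097 (.nr 217 257 .s1 (.nx 247 31 (.lx (.lp 16 0 129)) (.la (.ls 37 19 129))))
  .out) .out) (.na 669 1024 (.nx 668 163 (.nr 667 4097 (.nr 505 512 .s1 (.lx (.lp 31 19 257)))
  .out) .out) (.nx 752 82 (.nr 751 8193 (.nr 670 1024 .s1 (.lx (.lp 16 0 513))) .out) .out))) (.na
  837 4096 (.nx 836 82 (.nr 835 8193 (.nr 754 2048 .s1 (.lx (.lp 16 0 1025))) .out) .out) (.na 921
  8193 (.nx 920 82 (.nr 919 16385 (.nr 838 4096 .s1 (.lx (.lp 16 0 2049))) .out) .out) .out))))))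

theorem c25 :
    OkQ ckI L5 41 1 1099511627776 0 34359738368 1 1099511627776 ∧
    OkQ ckI L10 231 1 3 0 34359738368 1 1099511627776 ∧
    OkQ ckI L1 11 1 1099511627776 0 34359738368 1 1099511627776 := by
  refine ⟨?_, ?_, ?_⟩
  · refine fin 2952 3512 T25_0 ?_
    refine jn 3 (by decide +kernel) ?_
    refine jn 4 (by decide +kernel) ?_
    refine jn 5 (by decide +kernel) ?_
    refine jn 6 (by decide +kernel) ?_
    refine jn 7 (by decide +kernel) ?_
    refine jn 8 (by decide +kernel) ?_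
    refine jn 9 (by decide +kernel) ?_
    refine jn 10 (by decide +kernel) ?_
    refine jn 11 (by decide +kernel) ?_
    refine jn 12 (by decide +kernel) ?_
    refine jn 13 (by decide +kernel) ?_
    refine jn 14 (by decide +kernel) ?_
    refine jn 15 (by decide +kernel) ?_
    refine jn 16 (by decide +kernel) ?_
    refine jn 17 (by decide +kernel) ?_
    refine jn 18 (by decide +kernel) ?_
    refine jn 19 (by decide +kernel) ?_
    refine jn 78 (by decide +kernel) ?_
    refine jn 82 (by decide +kernel) ?_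
    refine jn 84 (by decide +kernel) ?_
    refine jn 86 (by decide +kernel) ?_
    refine jn 88 (by decide +kernel) ?_
    refine jn 90 (by decide +kernel) ?_
    refine jn 92 (by decide +kernel) ?_
    refine jn 94 (by decide +kernel) ?_
    refine jn 96 (by decide +kernel) ?_
    refine jn 100 (by decide +kernel) ?_
    refine jn 113 (by decide +kernel) ?_
    refine jn 122 (by decide +kernel) ?_
    refine jn 130 (by decide +kernel) ?_
    refine jn 139 (by decide +kernel) ?_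
    refine jn 141 (by decide +kernel) ?_
    refine jn 142 (by decide +kernel) ?_
    refine jn 143 (by decide +kernel) ?_
    refine jn 144 (by decide +kernel) ?_
    refine jn 146 (by decide +kernel) ?_
    refine jn 149 (by decide +kernel) ?_
    refine jn 153 (by decide +kernel) ?_
    refine jn 156 (by decide +kernel) ?_
    refine jn 160 (by decide +kernel) ?_
    refine jn 162 (by decide +kernel) ?_
    refine jn 175 (by decide +kernel) ?_
    refine jn 195 (by decide +kernel) ?_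
    refine jn 202 (by decide +kernel) ?_
    refine jn 222 (by decide +kernel) ?_
    refine jn 223 (by decide +kernel) ?_
    refine jn 224 (by decide +kernel) ?_
    refine jn 225 (by decide +kernel) ?_
    refine jn 226 (by decide +kernel) ?_
    refine jn 227 (by decide +kernel) ?_
    refine jn 228 (by decide +kernel) ?_
    refine jn 229 (by decide +kernel) ?_
    refine jn 230 (by decide +kernel) ?_
    refine jn 231 (by decide +kernel) ?_
    refine jn 232 (by decide +kernel) ?_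
    refine jn 233 (by decide +kernel) ?_
    refine jn 234 (by decide +kernel) ?_
    refine jn 235 (by decide +kernel) ?_
    refine jn 236 (by decide +kernel) ?_
    refine jn 237 (by decide +kernel) ?_
    refine jn 238 (by decide +kernel) ?_
    refine jn 239 (by decide +kernel) ?_
    refine jn 240 (by decide +kernel) ?_
    refine jn 241 (by decide +kernel) ?_
    refine jn 242 (by decide +kernel) ?_
    refine jn 243 (by decide +kernel) ?_
    refine jn 244 (by decide +kernel) ?_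
    refine jn 245 (by decide +kernel) ?_
    refine jn 246 (by decide +kernel) ?_
    refine jn 247 (by decide +kernel) ?_
    refine jn 248 (by decide +kernel) ?_
    refine jn 250 (by decide +kernel) ?_
    refine jn 256 (by decide +kernel) ?_
    refine jn 260 (by decide +kernel) ?_
    refine jn 264 (by decide +kernel) ?_
    refine jn 279 (by decide +kernel) ?_
    refine jn 287 (by decide +kernel) ?_
    refine jn 288 (by decide +kernel) ?_
    refine jn 289 (by decide +kernel) ?_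
    refine jn 290 (by decide +kernel) ?_
    refine jn 291 (by decide +kernel) ?_
    refine jn 293 (by decide +kernel) ?_
    refine jn 294 (by decide +kernel) ?_
    refine jn 295 (by decide +kernel) ?_
    refine jn 296 (by decide +kernel) ?_
    refine jn 297 (by decide +kernel) ?_
    refine jn 298 (by decide +kernel) ?_
    refine jn 299 (by decide +kernel) ?_
    refine jn 301 (by decide +kernel) ?_
    refine jn 302 (by decide +kernel) ?_
    refine jn 308 (by decide +kernel) ?_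
    refine jn 312 (by decide +kernel) ?_
    refine jn 328 (by decide +kernel) ?_
    refine jn 337 (by decide +kernel) ?_
    refine jn 345 (by decide +kernel) ?_
    refine jn 347 (by decide +kernel) ?_
    refine jn 349 (by decide +kernel) ?_
    refine jn 350 (by decide +kernel) ?_
    refine jn 352 (by decide +kernel) ?_
    refine jn 354 (by decide +kernel) ?_
    refine jn 356 (by decide +kernel) ?_
    refine jn 358 (by decide +kernel) ?_
    refine jn 361 (by decide +kernel) ?_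
    refine jn 363 (by decide +kernel) ?_
    refine jn 366 (by decide +kernel) ?_
    refine jn 369 (by decide +kernel) ?_
    refine jn 371 (by decide +kernel) ?_
    refine jn 381 (by decide +kernel) ?_
    refine jn 389 (by decide +kernel) ?_
    refine jn 390 (by decide +kernel) ?_
    refine jn 392 (by decide +kernel) ?_
    refine jn 393 (by decide +kernel) ?_
    refine jn 394 (by decide +kernel) ?_
    refine jn 396 (by decide +kernel) ?_
    refine jn 397 (by decide +kernel) ?_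
    refine jn 399 (by decide +kernel) ?_
    refine jn 404 (by decide +kernel) ?_
    refine jn 406 (by decide +kernel) ?_
    refine jn 408 (by decide +kernel) ?_
    refine jn 411 (by decide +kernel) ?_
    refine jn 414 (by decide +kernel) ?_
    refine jn 416 (by decide +kernel) ?_
    refine jn 420 (by decide +kernel) ?_
    refine jn 425 (by decide +kernel) ?_
    refine jn 435 (by decide +kernel) ?_
    refine jn 437 (by decide +kernel) ?_
    refine jn 439 (by decide +kernel) ?_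
    refine jn 441 (by decide +kernel) ?_
    refine jn 443 (by decide +kernel) ?_
    refine jn 445 (by decide +kernel) ?_
    refine jn 448 (by decide +kernel) ?_
    refine jn 450 (by decide +kernel) ?_
    refine jn 461 (by decide +kernel) ?_
    refine jn 462 (by decide +kernel) ?_
    refine jn 465 (by decide +kernel) ?_
    refine jn 467 (by decide +kernel) ?_
    refine jn 469 (by decide +kernel) ?_
    refine jn 473 (by decide +kernel) ?_
    refine jn 476 (by decide +kernel) ?_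
    refine jn 477 (by decide +kernel) ?_
    refine jn 489 (by decide +kernel) ?_
    refine jn 490 (by decide +kernel) ?_
    refine jn 493 (by decide +kernel) ?_
    refine jn 495 (by decide +kernel) ?_
    refine jn 498 (by decide +kernel) ?_
    refine jn 500 (by decide +kernel) ?_
    refine jn 509 (by decide +kernel) ?_
    refine jn 512 (by decide +kernel) ?_
    refine jn 515 (by decide +kernel) ?_
    refine jn 520 (by decide +kernel) ?_
    refine jn 523 (by decide +kernel) ?_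
    refine jn 529 (by decide +kernel) ?_
    refine jn 532 (by decide +kernel) ?_
    refine jn 534 (by decide +kernel) ?_
    refine jn 538 (by decide +kernel) ?_
    refine jn 548 (by decide +kernel) ?_
    refine jn 549 (by decide +kernel) ?_
    refine jn 550 (by decide +kernel) ?_
    refine jn 551 (by decide +kernel) ?_
    refine jn 552 (by decide +kernel) ?_
    refine jn 553 (by decide +kernel) ?_
    refine jn 555 (by decide +kernel) ?_
    refine jn 556 (by decide +kernel) ?_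
    refine jn 557 (by decide +kernel) ?_
    refine jn 558 (by decide +kernel) ?_
    refine jn 559 (by decide +kernel) ?_
    refine jn 560 (by decide +kernel) ?_
    refine jn 561 (by decide +kernel) ?_
    refine jn 562 (by decide +kernel) ?_
    refine jn 568 (by decide +kernel) ?_
    refine jn 571 (by decide +kernel) ?_
    refine jn 577 (by decide +kernel) ?_
    refine jn 587 (by decide +kernel) ?_
    refine jn 590 (by decide +kernel) ?_
    refine jn 593 (by decide +kernel) ?_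
    refine jn 602 (by decide +kernel) ?_
    refine jn 606 (by decide +kernel) ?_
    refine jn 610 (by decide +kernel) ?_
    refine jn 619 (by decide +kernel) ?_
    refine jn 620 (by decide +kernel) ?_
    refine jn 621 (by decide +kernel) ?_
    refine jn 622 (by decide +kernel) ?_
    refine jn 623 (by decide +kernel) ?_
    refine jn 624 (by decide +kernel) ?_
    refine jn 632 (by decide +kernel) ?_
    refine jn 634 (by decide +kernel) ?_
    refine jn 635 (by decide +kernel) ?_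
    refine jn 636 (by decide +kernel) ?_
    refine jn 637 (by decide +kernel) ?_
    refine jn 645 (by decide +kernel) ?_
    refine jn 646 (by decide +kernel) ?_
    refine jn 647 (by decide +kernel) ?_
    refine jn 648 (by decide +kernel) ?_
    refine jn 659 (by decide +kernel) ?_
    refine jn 666 (by decide +kernel) ?_
    refine jn 670 (by decide +kernel) ?_
    refine jn 677 (by decide +kernel) ?_
    refine jn 680 (by decide +kernel) ?_
    refine jn 681 (by decide +kernel) ?_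
    refine jn 682 (by decide +kernel) ?_
    refine jn 683 (by decide +kernel) ?_
    refine jn 691 (by decide +kernel) ?_
    refine jn 692 (by decide +kernel) ?_
    refine jn 693 (by decide +kernel) ?_
    refine jn 700 (by decide +kernel) ?_
    refine jn 705 (by decide +kernel) ?_
    refine jn 715 (by decide +kernel) ?_
    refine jn 722 (by decide +kernel) ?_
    refine jn 723 (by decide +kernel) ?_
    refine jn 735 (by decide +kernel) ?_
    refine jn 743 (by decide +kernel) ?_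
    refine jn 744 (by decide +kernel) ?_
    refine jn 752 (by decide +kernel) ?_
    refine jn 753 (by decide +kernel) ?_
    refine jn 755 (by decide +kernel) ?_
    refine jn 757 (by decide +kernel) ?_
    refine jn 770 (by decide +kernel) ?_
    refine jn 777 (by decide +kernel) ?_
    refine jn 780 (by decide +kernel) ?_
    refine jn 792 (by decide +kernel) ?_
    refine jn 800 (by decide +kernel) ?_
    refine jn 806 (by decide +kernel) ?_
    refine jn 808 (by decide +kernel) ?_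
    refine jn 816 (by decide +kernel) ?_
    refine jn 819 (by decide +kernel) ?_
    refine jn 832 (by decide +kernel) ?_
    refine jn 834 (by decide +kernel) ?_
    refine jn 842 (by decide +kernel) ?_
    refine jn 850 (by decide +kernel) ?_
    refine jn 858 (by decide +kernel) ?_
    refine jn 866 (by decide +kernel) ?_
    refine jn 872 (by decide +kernel) ?_
    refine jn 874 (by decide +kernel) ?_
    refine jn 880 (by decide +kernel) ?_
    refine jn 883 (by decide +kernel) ?_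
    refine jn 893 (by decide +kernel) ?_
    refine jn 910 (by decide +kernel) ?_
    refine jn 920 (by decide +kernel) ?_
    refine jn 928 (by decide +kernel) ?_
    refine jn 940 (by decide +kernel) ?_
    refine jn 948 (by decide +kernel) ?_
    refine jn 959 (by decide +kernel) ?_
    refine jn 967 (by decide +kernel) ?_
    refine jn 978 (by decide +kernel) ?_
    refine jn 984 (by decide +kernel) ?_
    refine jn 991 (by decide +kernel) ?_
    refine jn 1003 (by decide +kernel) ?_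
    refine jn 1005 (by decide +kernel) ?_
    refine jn 1006 (by decide +kernel) ?_
    refine jn 1018 (by decide +kernel) ?_
    refine jn 1035 (by decide +kernel) ?_
    refine jn 1043 (by decide +kernel) ?_
    refine jn 1055 (by decide +kernel) ?_
    refine jn 1068 (by decide +kernel) ?_
    refine jn 1084 (by decide +kernel) ?_
    refine jn 1086 (by decide +kernel) ?_
    refine jn 1098 (by decide +kernel) ?_
    refine jn 1110 (by decide +kernel) ?_
    refine jn 1123 (by decide +kernel) ?_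
    refine jn 1135 (by decide +kernel) ?_
    refine jn 1140 (by decide +kernel) ?_
    refine jn 1148 (by decide +kernel) ?_
    refine jn 1164 (by decide +kernel) ?_
    refine jn 1172 (by decide +kernel) ?_
    refine jn 1228 (by decide +kernel) ?_
    refine jn 1235 (by decide +kernel) ?_
    refine jn 1239 (by decide +kernel) ?_
    refine jn 1244 (by decide +kernel) ?_
    refine jn 1251 (by decide +kernel) ?_
    refine jn 1254 (by decide +kernel) ?_
    refine jn 1255 (by decide +kernel) ?_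
    refine jn 1271 (by decide +kernel) ?_
    refine jn 1284 (by decide +kernel) ?_
    refine jn 1285 (by decide +kernel) ?_
    refine jn 1299 (by decide +kernel) ?_
    refine jn 1300 (by decide +kernel) ?_
    refine jn 1303 (by decide +kernel) ?_
    refine jn 1311 (by decide +kernel) ?_
    refine jn 1316 (by decide +kernel) ?_
    refine jn 1319 (by decide +kernel) ?_
    refine jn 1324 (by decide +kernel) ?_
    refine jn 1332 (by decide +kernel) ?_
    refine jn 1335 (by decide +kernel) ?_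
    refine jn 1342 (by decide +kernel) ?_
    refine jn 1352 (by decide +kernel) ?_
    refine jn 1354 (by decide +kernel) ?_
    refine jn 1355 (by decide +kernel) ?_
    refine jn 1367 (by decide +kernel) ?_
    refine jn 1374 (by decide +kernel) ?_
    refine jn 1387 (by decide +kernel) ?_
    refine jn 1392 (by decide +kernel) ?_
    refine jn 1396 (by decide +kernel) ?_
    refine jn 1410 (by decide +kernel) ?_
    refine jn 1419 (by decide +kernel) ?_
    refine jn 1422 (by decide +kernel) ?_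
    refine jn 1431 (by decide +kernel) ?_
    refine jn 1438 (by decide +kernel) ?_
    refine jn 1443 (by decide +kernel) ?_
    refine jn 1447 (by decide +kernel) ?_
    refine jn 1455 (by decide +kernel) ?_
    refine jn 1470 (by decide +kernel) ?_
    refine jn 1527 (by decide +kernel) ?_
    refine jn 1532 (by decide +kernel) ?_
    refine jn 1539 (by decide +kernel) ?_
    refine jn 1540 (by decide +kernel) ?_
    refine jn 1553 (by decide +kernel) ?_
    refine jn 1563 (by decide +kernel) ?_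
    refine jn 1569 (by decide +kernel) ?_
    refine jn 1577 (by decide +kernel) ?_
    refine jn 1584 (by decide +kernel) ?_
    refine jn 1585 (by decide +kernel) ?_
    refine jn 1601 (by decide +kernel) ?_
    refine jn 1617 (by decide +kernel) ?_
    refine jn 1624 (by decide +kernel) ?_
    refine jn 1636 (by decide +kernel) ?_
    refine jn 1644 (by decide +kernel) ?_
    refine jn 1647 (by decide +kernel) ?_
    refine jn 1672 (by decide +kernel) ?_
    refine jn 1676 (by decide +kernel) ?_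
    refine jn 1680 (by decide +kernel) ?_
    refine jn 1685 (by decide +kernel) ?_
    refine jn 1691 (by decide +kernel) ?_
    refine jn 1700 (by decide +kernel) ?_
    refine jn 1707 (by decide +kernel) ?_
    refine jn 1712 (by decide +kernel) ?_
    refine jn 1719 (by decide +kernel) ?_
    refine jn 1724 (by decide +kernel) ?_
    refine jn 1736 (by decide +kernel) ?_
    refine jn 1862 (by decide +kernel) ?_
    refine jn 1980 (by decide +kernel) ?_
    refine jn 2196 (by decide +kernel) ?_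
    refine jn 2416 (by decide +kernel) ?_
    refine jn 2707 (by decide +kernel) ?_
    refine jn 2968 (by decide +kernel) ?_
    refine jn 3274 (by decide +kernel) ?_
    exact je (by decide +kernel)
  · refine fin 1848 1122 T25_1 ?_
    refine jn 6 (by decide +kernel) ?_
    refine jn 9 (by decide +kernel) ?_
    refine jn 14 (by decide +kernel) ?_
    refine jn 18 (by decide +kernel) ?_
    refine jn 22 (by decide +kernel) ?_
    refine jn 26 (by decide +kernel) ?_
    refine jn 30 (by decide +kernel) ?_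
    refine jn 34 (by decide +kernel) ?_
    refine jn 38 (by decide +kernel) ?_
    refine jn 42 (by decide +kernel) ?_
    refine jn 46 (by decide +kernel) ?_
    refine jn 50 (by decide +kernel) ?_
    refine jn 53 (by decide +kernel) ?_
    refine jn 88 (by decide +kernel) ?_
    refine jn 106 (by decide +kernel) ?_
    refine jn 115 (by decide +kernel) ?_
    refine jn 122 (by decide +kernel) ?_
    refine jn 130 (by decide +kernel) ?_
    refine jn 138 (by decide +kernel) ?_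
    refine jn 146 (by decide +kernel) ?_
    refine jn 151 (by decide +kernel) ?_
    refine jn 152 (by decide +kernel) ?_
    refine jn 164 (by decide +kernel) ?_
    refine jn 176 (by decide +kernel) ?_
    refine jn 189 (by decide +kernel) ?_
    refine jn 201 (by decide +kernel) ?_
    refine jn 204 (by decide +kernel) ?_
    refine jn 214 (by decide +kernel) ?_
    refine jn 221 (by decide +kernel) ?_
    refine jn 228 (by decide +kernel) ?_
    refine jn 248 (by decide +kernel) ?_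
    refine jn 268 (by decide +kernel) ?_
    refine jn 281 (by decide +kernel) ?_
    refine jn 294 (by decide +kernel) ?_
    refine jn 313 (by decide +kernel) ?_
    refine jn 329 (by decide +kernel) ?_
    refine jn 345 (by decide +kernel) ?_
    refine jn 359 (by decide +kernel) ?_
    refine jn 377 (by decide +kernel) ?_
    refine jn 394 (by decide +kernel) ?_
    refine jn 400 (by decide +kernel) ?_
    refine jn 419 (by decide +kernel) ?_
    refine jn 437 (by decide +kernel) ?_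
    refine jn 452 (by decide +kernel) ?_
    refine jn 471 (by decide +kernel) ?_
    refine jn 489 (by decide +kernel) ?_
    refine jn 504 (by decide +kernel) ?_
    refine jn 524 (by decide +kernel) ?_
    refine jn 539 (by decide +kernel) ?_
    refine jn 544 (by decide +kernel) ?_
    refine jn 561 (by decide +kernel) ?_
    refine jn 579 (by decide +kernel) ?_
    refine jn 595 (by decide +kernel) ?_
    refine jn 608 (by decide +kernel) ?_
    refine jn 621 (by decide +kernel) ?_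
    refine jn 634 (by decide +kernel) ?_
    refine jn 647 (by decide +kernel) ?_
    refine jn 654 (by decide +kernel) ?_
    refine jn 680 (by decide +kernel) ?_
    refine jn 690 (by decide +kernel) ?_
    refine jn 703 (by decide +kernel) ?_
    refine jn 710 (by decide +kernel) ?_
    refine jn 718 (by decide +kernel) ?_
    refine jn 726 (by decide +kernel) ?_
    refine jn 735 (by decide +kernel) ?_
    refine jn 742 (by decide +kernel) ?_
    refine jn 749 (by decide +kernel) ?_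
    refine jn 757 (by decide +kernel) ?_
    refine jn 787 (by decide +kernel) ?_
    refine jn 802 (by decide +kernel) ?_
    refine jn 813 (by decide +kernel) ?_
    refine jn 824 (by decide +kernel) ?_
    refine jn 828 (by decide +kernel) ?_
    refine jn 841 (by decide +kernel) ?_
    refine jn 867 (by decide +kernel) ?_
    refine jn 881 (by decide +kernel) ?_
    refine jn 898 (by decide +kernel) ?_
    refine jn 916 (by decide +kernel) ?_
    refine jn 933 (by decide +kernel) ?_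
    refine jn 946 (by decide +kernel) ?_
    refine jn 964 (by decide +kernel) ?_
    refine jn 972 (by decide +kernel) ?_
    refine jn 990 (by decide +kernel) ?_
    refine jn 999 (by decide +kernel) ?_
    refine jn 1012 (by decide +kernel) ?_
    refine jn 1025 (by decide +kernel) ?_
    refine jn 1038 (by decide +kernel) ?_
    refine jn 1051 (by decide +kernel) ?_
    refine jn 1077 (by decide +kernel) ?_
    refine jn 1099 (by decide +kernel) ?_
    refine jn 1119 (by decide +kernel) ?_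
    exact je (by decide +kernel)
  · refine fin 792 922 T25_2 ?_
    refine jn 4 (by decide +kernel) ?_
    refine jn 5 (by decide +kernel) ?_
    refine jn 6 (by decide +kernel) ?_
    refine jn 7 (by decide +kernel) ?_
    refine jn 8 (by decide +kernel) ?_
    refine jn 9 (by decide +kernel) ?_
    refine jn 10 (by decide +kernel) ?_
    refine jn 11 (by decide +kernel) ?_
    refine jn 12 (by decide +kernel) ?_
    refine jn 13 (by decide +kernel) ?_
    refine jn 14 (by decide +kernel) ?_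
    refine jn 19 (by decide +kernel) ?_
    refine jn 20 (by decide +kernel) ?_
    refine jn 21 (by decide +kernel) ?_
    refine jn 22 (by decide +kernel) ?_
    refine jn 23 (by decide +kernel) ?_
    refine jn 24 (by decide +kernel) ?_
    refine jn 25 (by decide +kernel) ?_
    refine jn 26 (by decide +kernel) ?_
    refine jn 34 (by decide +kernel) ?_
    refine jn 35 (by decide +kernel) ?_
    refine jn 36 (by decide +kernel) ?_
    refine jn 37 (by decide +kernel) ?_
    refine jn 42 (by decide +kernel) ?_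
    refine jn 43 (by decide +kernel) ?_
    refine jn 44 (by decide +kernel) ?_
    refine jn 56 (by decide +kernel) ?_
    refine jn 57 (by decide +kernel) ?_
    refine jn 58 (by decide +kernel) ?_
    refine jn 70 (by decide +kernel) ?_
    refine jn 77 (by decide +kernel) ?_
    refine jn 90 (by decide +kernel) ?_
    refine jn 101 (by decide +kernel) ?_
    refine jn 113 (by decide +kernel) ?_
    refine jn 137 (by decide +kernel) ?_
    refine jn 156 (by decide +kernel) ?_
    refine jn 191 (by decide +kernel) ?_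
    refine jn 292 (by decide +kernel) ?_
    refine jn 505 (by decide +kernel) ?_
    refine jn 838 (by decide +kernel) ?_
    exact je (by decide +kernel)

end Pool.Agent.MP_2339ce_nt.NR
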