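import Pool.Agent.MP_2339ce_nt.Q2.NC.L1
import Pool.Agent.MP_2339ce_nt.Q2.NC.L8
import Pool.Agent.MP_2339ce_nt.Q2.NC.L9
import Pool.Agent.MP_2339ce_nt.Q2.CkI

/-! Block NR: runs. -/

set_option autoImplicit false
set_option maxRecDepth 100000

noncomputable section

namespace Pool.Agent.MP_2339ce_nt.NR

open Q2.Top

def T26_0 : Ph :=
  (.na 1155 137 (.na 882 55 (.na 692 22 (.na 534 9 (.na 403 4 (.na 1 2 .ne (.na 191 3 (.nx 190
  3329023 (.nr 189 623489 (.nx 4 166 (.nx 3 165 (.nr 2 25 (.lg 0 true 1 41 41 5 0 2640) (.l1 .sk))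
  (.l1 .sk)) (.nr 175 131073 (.nx 156 1664512 (.nx 30 26009 (.lg 0 false 26 103 107 11 0 720720)
  (.nr 155 110219 (.nx 140 832257 (.nr 56 450 (.lg 0 true 26 89 89 11 0 34320) (.nx 139 416129 (.nx
  69 32769 (.lg 1 false 13 101 103 9 57774 720720) (.nr 138 92683 (.nr 110 55110 (.nr 96 27556 (.nr
  82 2437 (.lg 2 true 13 89 97 9 76291 102960) (.nx 95 330282 (.lg 2 false 13 101 103 9 11516
  720720) .out)) (.nx 109 165142 (.lg 2 false 13 101 103 9 22963 720720) .out)) (.nx 137 131073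
  (.nr 123 77937 (.lg 2 true 13 103 107 9 32445 720720) (.nx 136 82572 (.lg 2 true 13 101 103 9
  38571 720720) .out)) .out)) .out)) .out)) (.nr 154 129 (.lg 0 true 14 83 83 9 0 18480) .out))
  .out)) (.nr 174 9 (.lg 0 true 18 71 71 9 0 7920) .out)) (.nx 188 257 (.lg 0 false 13 79 79 9 0
  34320) .out))) .out) .out) (.nx 402 6658044 (.nr 401 1482912 (.nx 193 165 (.nr 192 35 (.lg 0 true
  1 37 37 5 0 3960) (.l1 .sk)) (.nx 194 166 (.l1 .sk) (.nr 372 131073 (.nx 329 1048577 (.nx 222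
  27996 (.lg 0 false 28 101 103 16 0 720720) (.nr 250 364 (.lg 0 true 28 83 83 16 0 55440) (.nx 328
  262145 (.nr 257 2904 (.lg 2 true 7 89 89 7 59415 27720) (.nx 313 104033 (.nx 285 57578 (.lg 1
  false 28 97 103 16 63814 720720) (.lg 1 true 28 97 103 16 31028 720720)) (.nr 327 65537 (.lg 2
  false 14 97 101 13 8598 55440) .out))) .out))) (.nr 371 33 (.lg 0 true 42 79 79 7 0 55440) .out))
  (.nx 400 257 (.lg 0 false 28 73 79 16 0 55440) .out)))) .out) .out))) (.na 404 6 .ne (.na 533 7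
  (.nx 532 13316087 (.nr 531 623489 (.nx 408 205 (.nx 406 165 (.nr 405 63 (.lg 0 true 1 37 37 7 0
  7920) (.l1 .sk)) (.nx 407 166 (.l1 .sk) (.l1 (.ls 83 43 2414)))) (.nr 530 370729 (.nx 429 28089
  (.nr 421 131073 (.lg 0 false 13 101 103 13 0 720720) (.nx 428 1627 (.lg 0 false 7 89 89 13 0
  55440) .out)) (.nr 529 155873 (.nx 479 832257 (.nr 442 1026 (.lg 0 true 13 89 89 13 0 102960)
  (.nx 478 660563 (.nx 450 52015 (.nr 449 131073 (.lg 1 false 7 101 103 13 63602 720720) .out) (.nx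
  463 131073 (.lg 1 true 13 101 103 13 40837 720720) (.nr 477 65537 (.nr 470 8201 (.lg 2 true 7 89
  89 13 53116 55440) (.lg 2 false 7 89 89 13 6824 55440)) .out))) .out)) (.nr 528 129 (.nr 514 42
  (.lg 0 true 35 79 79 13 0 55440) (.nx 527 1664512 (.lg 0 true 13 73 73 13 0 102960) .out)) .out))
  .out)) .out)) .out) .out) .ne))) (.na 587 13 (.na 535 10 (.lg 0 false 1 0 0 7 0 24) (.na 586 12
  (.nx 585 1664512 (.nr 584 623489 (.nx 538 166 (.nx 537 165 (.nr 536 109 (.lg 0 false 1 31 31 9 0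
  7920) (.l1 .sk)) (.l1 .sk)) (.nr 576 131073 (.nx 568 524289 (.nx 552 65537 (.lg 0 false 14 97 101
  13 0 55440) (.nr 567 110219 (.nr 559 1621 (.lg 0 true 7 79 79 13 0 18480) (.nx 566 416129 (.lg 2
  false 7 97 97 13 22928 55440) .out)) .out)) (.nr 575 65 (.lg 0 true 7 67 67 13 0 18480) .out))
  (.nx 583 1292 (.lg 0 false 7 79 79 13 0 18480) .out))) .out) .out) .ne)) (.na 645 18 (.na 644 16
  (.nx 643 1664512 (.nr 642 623489 (.nr 588 3 .s1 (.nx 603 13613 (.nx 590 165 (.nr 589 145 (.lg 0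
  false 1 31 31 9 0 51480) (.l1 .sk)) (.nx 591 166 (.l1 .sk) (.nr 598 155873 (.lg 0 false 7 97 97
  16 0 360360) (.nx 602 1292 (.lg 0 false 4 83 83 16 0 34320) .out)))) (.nr 641 110219 (.nr 623
  46342 (.nx 618 524289 (.nr 610 829 (.lg 0 true 7 79 79 16 0 120120) (.nx 617 416129 (.lg 2 false
  7 83 83 16 46507 120120) .out)) (.nr 622 65 (.lg 0 true 4 71 71 16 0 34320) .out)) (.nx 640
  208065 (.nx 635 131073 (.nx 630 82572 (.lg 0 true 7 101 103 16 0 720720) (.nr 634 77937 (.lg 0
  true 4 101 103 16 0 720720) .out)) (.nr 639 55110 (.lg 0 true 4 97 97 16 0 102960) .out)) .out))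
  .out))) .out) .out) .ne) (.na 646 19 (.lg 0 false 1 0 0 7 0 24) (.nx 691 1664512 (.nr 690 1048577
  (.nr 647 15 .s1 (.nx 651 257 (.nx 649 165 (.nr 648 200 (.lg 0 false 1 29 29 11 0 1320) (.l1 .sk))
  (.nx 650 166 (.l1 .sk) (.l1 (.ls 83 31 2028)))) (.nr 689 623489 (.nr 684 220437 (.nx 658 13613
  (.lg 0 false 7 89 89 16 0 9240) (.nr 683 92683 (.nr 673 46342 (.nr 665 634 (.lg 0 true 7 79 79 16
  0 9240) (.nx 672 262145 (.lg 2 false 7 79 79 16 46507 9240) .out)) (.nx 682 165142 (.nx 677 82572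
  (.lg 0 true 4 101 101 16 0 7920) (.nr 681 55110 (.lg 0 true 4 89 89 16 0 7920) .out)) .out))
  .out)) (.nx 688 1627 (.lg 0 false 4 83 83 16 0 2640) .out)) .out))) .out) .out))))) (.na 812 38
  (.na 727 26 (.na 725 23 (.nx 724 1664512 (.nr 723 1048577 (.nr 693 18 .s1 (.nx 707 23707 (.nx 695
  165 (.nr 694 209 (.l1 (.ls 19 41 1240)) (.l1 .sk)) (.nx 696 166 (.l1 .sk) (.nx 699 647 (.nx 697
  257 (.l1 (.ls 79 41 1752)) (.nr 698 623489 (.l1 (.ls 73 53 16028)) .out)) (.nr 706 370729 (.lg 0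
  false 7 89 89 17 0 18480) .out)))) (.nr 722 92683 (.nr 714 634 (.lg 0 true 7 73 73 17 0 18480)
  (.nx 721 262145 (.lg 2 false 7 89 89 17 53315 55440) .out)) .out))) .out) .out) (.na 726 25 .ne
  (.lg 0 false 1 0 0 7 0 24))) (.na 783 30 (.na 758 29 (.nx 757 1664512 (.nr 756 1048577 (.nr 728
  23 .s1 (.nx 740 20644 (.nx 732 257 (.nx 730 165 (.nr 729 264 (.lg 0 false 1 29 29 11 0 102960)
  (.l1 .sk)) (.nx 731 166 (.l1 .sk) (.l1 (.ls 83 41 1483)))) (.nr 739 311745 (.lg 0 false 7 97 101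
  19 0 720720) .out)) (.nr 755 77937 (.nr 747 513 (.lg 0 true 7 79 79 19 0 240240) (.nx 754 165142
  (.lg 2 false 7 89 101 19 51502 720720) .out)) .out))) .out) .out) (.nx 782 1664512 (.nr 781
  1048577 (.nr 759 27 .s1 (.nx 762 166 (.nx 761 165 (.nr 760 273 (.l1 (.ls 23 23 941)) (.l1 .sk))
  (.l1 .sk)) (.nx 776 165142 (.nx 763 257 (.l1 (.ls 83 23 1330)) (.nr 775 311745 (.nr 770 77937
  (.lg 0 false 7 89 89 16 0 9240) (.nx 774 20644 (.lg 0 false 4 97 101 16 0 7920) .out)) .out))
  (.nr 780 513 (.lg 0 true 4 79 79 16 0 2640) .out)))) .out) .out)) (.na 811 32 (.nx 810 1664512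
  (.nr 809 1048577 (.nr 784 28 .s1 (.nx 793 20644 (.nx 785 257 (.l1 (.ls 79 47 2204)) (.nr 792
  311745 (.lg 0 false 7 89 89 23 0 55440) .out)) (.nr 808 77937 (.nr 800 513 (.lg 0 true 7 71 71 23
  0 55440) (.nx 807 165142 (.lg 2 false 7 83 83 23 51502 55440) .out)) .out))) .out) .out) .ne)))
  (.na 878 45 (.na 835 39 (.nx 834 1664512 (.nr 833 881745 (.nr 813 36 .s1 (.nx 815 165 (.nr 814
  355 (.lg 0 false 1 23 23 13 0 7920) (.l1 .sk)) (.nx 816 166 (.l1 .sk) (.nx 817 257 (.l1 (.ls 79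
  37 1015)) (.nr 832 440873 (.nx 824 20644 (.lg 0 false 7 97 97 17 0 55440) (.nr 831 46342 (.nr 828
  257 (.lg 0 true 4 71 71 17 0 2640) (.nx 830 104033 (.lg 2 true 2 89 89 13 33396 7920) .out))
  .out)) .out))))) .out) .out) (.na 858 41 (.nx 857 1664512 (.nr 856 881745 (.nr 836 37 .s1 (.nx
  839 166 (.nx 838 165 (.nr 837 373 (.l1 (.ls 23 31 701)) (.l1 .sk)) (.l1 .sk)) (.nx 848 20644 (.nx
  840 257 (.l1 (.ls 73 31 990)) (.nr 847 440873 (.lg 0 false 7 89 89 19 0 360360) .out)) (.nr 855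
  46342 (.nr 852 257 (.lg 0 true 4 71 71 17 0 102960) (.nx 854 104033 (.lg 2 true 2 89 89 17 33396
  102960) .out)) .out)))) .out) .out) (.nx 877 1664512 (.nr 876 881745 (.nr 859 39 .s1 (.nx 863 257
  (.nx 861 165 (.nr 860 410 (.l1 (.ls 23 23 667)) (.l1 .sk)) (.nx 862 166 (.l1 .sk) (.l1 (.ls 73 23
  941)))) (.nr 875 440873 (.nx 867 20644 (.lg 0 false 4 97 97 16 0 7920) (.nr 874 46342 (.nr 871
  257 (.lg 0 true 4 71 71 16 0 2640) (.nx 873 104033 (.lg 2 true 2 89 89 16 33396 2640) .out))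
  .out)) .out))) .out) .out))) (.na 880 50 (.na 879 46 (.lg 0 false 1 0 0 16 0 24) .ne) (.na 881 54
  (.lg 0 false 1 0 0 16 0 24) (.lg 0 false 1 0 0 16 0 24)))))) (.na 1060 91 (.na 968 71 (.na 932 64
  (.na 898 57 (.nx 897 1664512 (.nr 896 881745 (.nr 883 54 .s1 (.nx 884 257 (.l1 (.ls 67 31 1203))
  (.nr 895 623489 (.nx 888 20644 (.lg 0 true 4 83 83 17 0 7920) (.nr 894 46342 (.nr 890 257 (.lg 0
  false 2 67 67 16 0 7920) (.nx 893 104033 (.lg 2 true 3 71 71 16 33396 3960) .out)) .out)) .out)))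
  .out) .out) (.na 914 58 (.nx 913 1664512 (.nr 912 881745 (.nr 899 56 .s1 (.nx 900 257 (.l1 (.ls
  79 37 1161)) (.nr 911 623489 (.nx 904 20644 (.lg 0 false 4 97 97 17 0 7920) (.nr 910 46342 (.nr
  908 528 (.lg 0 true 4 73 73 17 0 7920) (.nx 909 104033 (.lg 2 true 1 89 89 16 30668 27720) .out))
  .out)) .out))) .out) .out) (.nx 931 1664512 (.nr 930 881745 (.nr 915 57 .s1 (.nx 916 257 (.l1
  (.ls 79 41 1141)) (.nr 929 623489 (.nx 923 20644 (.lg 0 false 7 89 97 23 0 55440) (.nr 928 46342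
  (.nr 925 257 (.lg 0 true 2 71 71 13 0 2640) (.nx 927 104033 (.lg 2 true 2 83 83 13 33396 2640)
  .out)) .out)) .out))) .out) .out))) (.na 933 66 .ne (.na 952 67 (.nx 951 1664512 (.nr 950 524289
  (.nr 934 65 .s1 (.nx 936 165 (.nr 935 610 (.l1 (.ls 19 37 415)) (.l1 .sk)) (.nx 937 166 (.l1 .sk)
  (.nx 944 20644 (.lg 0 false 7 79 79 29 0 55440) (.nr 949 32769 (.nr 946 513 (.lg 0 false 2 71 71
  23 0 7920) (.nx 948 104033 (.lg 2 true 2 67 67 23 21717 7920) .out)) .out))))) .out) .out) (.nx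
  967 1664512 (.nr 966 524289 (.nr 953 66 .s1 (.nx 960 20644 (.nx 955 165 (.nr 954 646 (.l1 (.ls 19
  19 409)) (.l1 .sk)) (.nx 956 166 (.l1 .sk) (.lg 0 false 4 89 89 16 0 7920))) (.nr 965 32769 (.nr
  963 513 (.lg 0 true 3 67 67 16 0 3960) (.nx 964 104033 (.lg 2 true 1 79 79 16 21717 3960) .out))
  .out))) .out) .out)))) (.na 1015 82 (.na 984 73 (.nx 983 1664512 (.nr 982 524289 (.nr 969 70 .s1
  (.nx 976 20644 (.nx 971 165 (.nr 970 664 (.l1 (.ls 19 19 386)) (.l1 .sk)) (.nx 972 166 (.l1 .sk)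
  (.lg 0 false 4 89 89 16 0 2640))) (.nr 981 32769 (.nr 979 513 (.lg 0 true 3 67 67 16 0 3960) (.nx
  980 104033 (.lg 2 true 1 79 79 16 21717 1320) .out)) .out))) .out) .out) (.na 1000 78 (.nx 999
  1664512 (.nr 998 524289 (.nr 985 72 .s1 (.nx 992 20644 (.nx 987 165 (.nr 986 710 (.l1 (.ls 19 19
  375)) (.l1 .sk)) (.nx 988 166 (.l1 .sk) (.lg 0 false 4 89 89 16 0 7920))) (.nr 997 32769 (.nr 995
  513 (.lg 0 true 3 61 61 16 0 3960) (.nx 996 104033 (.lg 2 true 1 73 73 16 21717 1320) .out))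
  .out))) .out) .out) (.nx 1014 1664512 (.nr 1013 524289 (.nr 1001 77 .s1 (.nx 1004 166 (.nx 1003
  165 (.nr 1002 746 (.l1 (.ls 29 37 352)) (.l1 .sk)) (.l1 .sk)) (.nx 1007 20644 (.lg 0 false 3 89
  89 29 0 102960) (.nr 1012 32769 (.nr 1010 513 (.lg 0 true 3 71 71 29 0 102960) (.nx 1011 104033
  (.lg 2 true 1 79 79 23 21717 102960) .out)) .out)))) .out) .out))) (.na 1045 87 (.na 1030 83 (.nx
  1029 1664512 (.nr 1028 524289 (.nr 1016 81 .s1 (.nx 1022 20644 (.nx 1018 165 (.nr 1017 755 (.l1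
  (.ls 23 29 335)) (.l1 .sk)) (.nx 1019 166 (.l1 .sk) (.lg 0 false 3 89 89 19 0 7920))) (.nr 1027
  32769 (.nr 1025 513 (.lg 0 true 3 71 71 19 0 7920) (.nx 1026 104033 (.lg 2 true 1 79 79 13 21717
  7920) .out)) .out))) .out) .out) (.nx 1044 1664512 (.nr 1043 524289 (.nr 1031 83 .s1 (.nx 1033
  165 (.nr 1032 792 (.l1 (.ls 23 19 331)) (.l1 .sk)) (.nx 1034 166 (.l1 .sk) (.nx 1038 20644 (.lg 0
  false 4 79 79 16 0 2640) (.nr 1042 32769 (.nx 1040 104033 (.lg 0 false 2 73 73 16 0 2640) (.nr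
  1041 513 (.lg 0 false 1 73 73 16 0 3960) .out)) .out))))) .out) .out)) (.na 1059 90 (.nx 1058
  1664512 (.nr 1057 524289 (.nr 1046 87 .s1 (.nx 1048 165 (.nr 1047 819 (.l1 (.ls 19 23 315)) (.l1
  .sk)) (.nx 1049 166 (.l1 .sk) (.nx 1053 20644 (.lg 0 false 4 83 83 19 0 7920) (.nr 1056 32769
  (.nr 1054 513 (.lg 0 false 1 73 73 16 0 3960) (.nx 1055 104033 (.lg 2 true 1 73 73 16 21717 3960)
  .out)) .out))))) .out) .out) (.lg 0 false 1 0 0 16 0 24))))) (.na 1130 121 (.na 1076 106 (.na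
  1061 99 .ne (.na 1062 103 (.lg 0 false 1 0 0 16 0 24) (.nx 1075 1664512 (.nr 1074 1048577 (.nr
  1063 103 .s1 (.nx 1070 20644 (.nx 1065 165 (.nr 1064 965 (.l1 (.ls 19 17 267)) (.l1 .sk)) (.nx
  1066 166 (.l1 .sk) (.lg 0 false 4 83 83 17 0 2640))) (.nr 1073 32769 (.nr 1071 513 (.lg 0 false 1
  67 67 16 0 3960) (.nx 1072 104033 (.lg 2 true 1 67 67 16 21717 1320) .out)) .out))) .out) .out)))
  (.na 1104 114 (.na 1090 110 (.nx 1089 1664512 (.nr 1088 1048577 (.nr 1077 106 .s1 (.nx 1086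
  104033 (.nx 1079 165 (.nr 1078 1001 (.l1 (.ls 23 23 259)) (.l1 .sk)) (.nx 1080 166 (.l1 .sk) (.nr
  1082 65537 (.lg 0 true 2 83 83 19 0 2640) (.nx 1085 13005 (.lg 0 false 3 89 89 23 0 7920)
  .out)))) (.nr 1087 513 (.lg 0 false 1 73 73 19 0 7920) .out))) .out) .out) (.nx 1103 1664512 (.nr
  1102 1048577 (.nr 1091 110 .s1 (.nx 1096 20644 (.nx 1093 165 (.nr 1092 1037 (.l1 (.ls 17 31 250))
  (.l1 .sk)) (.nx 1094 166 (.l1 .sk) (.lg 0 true 2 83 83 23 0 7920))) (.nr 1101 32769 (.nr 1098 513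
  (.lg 0 false 2 61 61 23 0 7920) (.nx 1100 104033 (.lg 2 true 2 61 61 23 21717 2640) .out))
  .out))) .out) .out)) (.na 1117 118 (.nx 1116 1664512 (.nr 1115 1048577 (.nr 1105 114 .s1 (.nx
  1111 20644 (.nx 1107 165 (.nr 1106 1074 (.l1 (.ls 17 37 241)) (.l1 .sk)) (.nx 1108 166 (.l1 .sk)
  (.lg 0 false 3 89 89 31 0 7920))) (.nr 1114 32769 (.nr 1112 513 (.lg 0 false 1 73 73 29 0 7920)
  (.nx 1113 104033 (.lg 2 true 1 73 73 29 21717 7920) .out)) .out))) .out) .out) (.nx 1129 1664512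
  (.nr 1128 1048577 (.nr 1118 118 .s1 (.nx 1120 165 (.nr 1119 1101 (.l1 (.ls 23 23 233)) (.l1 .sk))
  (.nx 1121 166 (.l1 .sk) (.nx 1126 104033 (.nr 1123 65537 (.lg 0 true 2 83 83 19 0 2640) (.nx 1125
  13005 (.lg 0 false 2 83 83 19 0 2640) .out)) (.nr 1127 513 (.lg 0 false 1 73 73 19 0 7920)
  .out))))) .out) .out)))) (.na 1133 130 (.na 1131 125 (.lg 0 false 1 0 0 16 0 24) (.na 1132 128
  (.lg 0 false 1 0 0 16 0 24) .ne)) (.na 1144 134 (.na 1143 131 (.nx 1142 832257 (.nr 1141 1048577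
  (.nr 1134 130 .s1 (.nx 1135 257 (.l1 (.ls 71 37 511)) (.nr 1140 741457 (.nx 1136 13613 (.lg 0
  true 1 89 89 29 0 102960) (.nr 1139 16385 (.nr 1137 1025 (.lg 0 false 1 71 71 29 0 102960) (.nx
  1138 104033 (.lg 2 false 1 61 61 29 16550 34320) .out)) .out)) .out))) .out) .out) (.lg 0 false 1
  0 0 16 0 24)) (.na 1154 135 (.nx 1153 832257 (.nr 1152 1048577 (.nr 1145 134 .s1 (.nx 1146 257
  (.l1 (.ls 61 29 495)) (.nr 1151 741457 (.nx 1147 13613 (.lg 0 true 1 89 89 19 0 2640) (.nr 1150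
  16385 (.nr 1148 1025 (.lg 0 false 1 71 71 19 0 2640) (.nx 1149 104033 (.lg 2 false 1 67 67 19
  16550 2640) .out)) .out)) .out))) .out) .out) (.lg 0 false 1 0 0 16 0 24))))))) (.na 1334 227
  (.na 1243 174 (.na 1197 158 (.na 1185 150 (.na 1165 142 (.nx 1164 832257 (.nr 1163 1048577 (.nr
  1156 137 .s1 (.nx 1159 13613 (.nx 1157 257 (.l1 (.ls 67 19 485)) (.nr 1158 741457 (.lg 0 true 1
  79 79 16 0 1320) .out)) (.nr 1162 16385 (.nr 1160 1025 (.lg 0 false 1 61 61 16 0 1320) (.nx 1161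
  104033 (.lg 2 true 1 59 59 16 16550 3960) .out)) .out))) .out) .out) (.na 1175 146 (.nx 1174
  832257 (.nr 1173 1048577 (.nr 1166 142 .s1 (.nx 1169 13613 (.nx 1167 257 (.l1 (.ls 67 29 468))
  (.nr 1168 741457 (.lg 0 true 1 89 89 19 0 7920) .out)) (.nr 1172 16385 (.nr 1170 1025 (.lg 0
  false 1 71 71 19 0 2640) (.nx 1171 104033 (.lg 2 false 1 61 61 19 16550 7920) .out)) .out)))
  .out) .out) (.nx 1184 832257 (.nr 1183 1048577 (.nr 1176 146 .s1 (.nx 1177 257 (.l1 (.ls 71 29
  455)) (.nr 1182 741457 (.nx 1178 13613 (.lg 0 true 1 89 89 19 0 2640) (.nr 1181 16385 (.nr 1179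
  1025 (.lg 0 false 1 67 67 19 0 2640) (.nx 1180 104033 (.lg 2 false 1 61 61 19 16550 2640) .out))
  .out)) .out))) .out) .out))) (.na 1186 151 (.lg 0 false 1 0 0 16 0 24) (.na 1196 157 (.nx 1195
  832257 (.nr 1194 1048577 (.nr 1187 151 .s1 (.nx 1190 13613 (.nx 1188 257 (.l1 (.ls 67 19 440))
  (.nr 1189 741457 (.lg 0 true 1 79 79 16 0 3960) .out)) (.nr 1193 16385 (.nr 1191 1025 (.lg 0
  false 1 61 61 16 0 3960) (.nx 1192 104033 (.lg 2 false 1 53 53 16 16550 1320) .out)) .out)))
  .out) .out) (.lg 0 false 1 0 0 16 0 24)))) (.na 1218 166 (.na 1207 162 (.nx 1206 832257 (.nr 1205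
  1048577 (.nr 1198 158 .s1 (.nx 1201 13613 (.nx 1199 257 (.l1 (.ls 67 29 421)) (.nr 1200 741457
  (.lg 0 true 1 83 83 19 0 2640) .out)) (.nr 1204 16385 (.nr 1202 1025 (.lg 0 false 1 67 67 19 0
  7920) (.nx 1203 104033 (.lg 2 true 1 59 59 19 16550 2640) .out)) .out))) .out) .out) (.na 1208
  163 (.lg 0 false 1 0 0 16 0 24) (.nx 1217 832257 (.nr 1216 1048577 (.nr 1209 163 .s1 (.nx 1212
  13613 (.nx 1210 257 (.l1 (.ls 67 19 408)) (.nr 1211 741457 (.lg 0 true 1 79 79 16 0 1320) .out))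
  (.nr 1215 16385 (.nr 1213 1025 (.lg 0 false 1 61 61 16 0 1320) (.nx 1214 104033 (.lg 2 true 1 59
  59 16 16550 3960) .out)) .out))) .out) .out))) (.na 1234 169 (.na 1226 167 (.nx 1225 832257 (.nr
  1224 1048577 (.nr 1219 166 .s1 (.nx 1220 257 (.l1 (.ls 67 29 400)) (.nr 1223 741457 (.nr 1221
  16385 (.lg 0 false 1 89 89 19 0 7920) (.nx 1222 13005 (.lg 0 true 1 89 89 19 0 7920) .out))
  .out))) .out) .out) (.nx 1233 832257 (.nr 1232 1048577 (.nr 1227 167 .s1 (.nx 1228 257 (.l1 (.ls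
  67 19 398)) (.nr 1231 741457 (.nx 1229 13005 (.lg 0 true 1 79 79 16 0 3960) (.nr 1230 16385 (.lg
  0 false 1 79 79 16 0 1320) .out)) .out))) .out) .out)) (.na 1242 173 (.nx 1241 832257 (.nr 1240
  1048577 (.nr 1235 169 .s1 (.nx 1236 257 (.l1 (.ls 67 23 393)) (.nr 1239 741457 (.nx 1237 13005
  (.lg 0 true 1 79 79 17 0 17160) (.nr 1238 16385 (.lg 0 false 1 83 83 17 0 51480) .out)) .out)))
  .out) .out) (.lg 0 false 1 0 0 16 0 24))))) (.na 1278 201 (.na 1260 190 (.na 1251 179 (.nx 1250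
  832257 (.nr 1249 1048577 (.nr 1244 174 .s1 (.nx 1245 257 (.l1 (.ls 73 37 382)) (.nr 1248 741457
  (.nr 1246 16385 (.lg 0 false 1 97 97 23 0 7920) (.nx 1247 13005 (.lg 0 true 1 89 89 23 0 7920)
  .out)) .out))) .out) .out) (.na 1259 182 (.nx 1258 832257 (.nr 1257 1048577 (.nr 1252 179 .s1
  (.nx 1253 257 (.l1 (.ls 67 19 371)) (.nr 1256 741457 (.nr 1254 16385 (.lg 0 false 1 79 79 16 0
  1320) (.nx 1255 13005 (.lg 0 true 1 79 79 16 0 3960) .out)) .out))) .out) .out) .ne)) (.na 1276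
  198 (.na 1268 195 (.nx 1267 832257 (.nr 1266 1048577 (.nr 1261 190 .s1 (.nx 1264 13005 (.nx 1262
  257 (.l1 (.ls 71 37 350)) (.nr 1263 741457 (.lg 0 true 1 83 83 29 0 2640) .out)) (.nr 1265 16385
  (.lg 0 false 1 89 89 29 0 7920) .out))) .out) .out) (.nx 1275 832257 (.nr 1274 1048577 (.nr 1269
  195 .s1 (.nx 1270 257 (.l1 (.ls 71 31 341)) (.nr 1273 741457 (.nr 1271 16385 (.lg 0 false 1 83 83
  23 0 51480) (.nx 1272 13005 (.lg 0 true 1 83 83 23 0 51480) .out)) .out))) .out) .out)) (.na 1277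
  199 (.lg 0 false 1 0 0 16 0 24) (.lg 0 false 1 0 0 16 0 24)))) (.na 1302 206 (.na 1286 202 (.nx
  1285 832257 (.nr 1284 1048577 (.nr 1279 201 .s1 (.nx 1280 257 (.l1 (.ls 61 23 331)) (.nr 1283
  741457 (.nr 1281 16385 (.lg 0 false 1 83 83 19 0 3960) (.nx 1282 13005 (.lg 0 true 1 83 83 19 0
  3960) .out)) .out))) .out) .out) (.na 1294 205 (.nx 1293 832257 (.nr 1292 1048577 (.nr 1287 202
  .s1 (.nx 1288 257 (.l1 (.ls 67 29 329)) (.nr 1291 741457 (.nx 1289 13005 (.lg 0 true 1 79 79 23 0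
  2640) (.nr 1290 16385 (.lg 0 false 1 83 83 23 0 7920) .out)) .out))) .out) .out) (.nx 1301 832257
  (.nr 1300 1048577 (.nr 1295 205 .s1 (.nx 1296 257 (.l1 (.ls 67 23 325)) (.nr 1299 741457 (.nr
  1297 16385 (.lg 0 false 1 83 83 17 0 3960) (.nx 1298 13005 (.lg 0 true 1 79 79 17 0 1320) .out))
  .out))) .out) .out))) (.na 1318 214 (.na 1310 211 (.nx 1309 832257 (.nr 1308 1048577 (.nr 1303
  206 .s1 (.nx 1306 13005 (.nx 1304 257 (.l1 (.ls 67 29 323)) (.nr 1305 741457 (.lg 0 true 1 79 79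
  23 0 7920) .out)) (.nr 1307 16385 (.lg 0 false 1 79 79 23 0 7920) .out))) .out) .out) (.nx 1317
  832257 (.nr 1316 1048577 (.nr 1311 211 .s1 (.nx 1314 13005 (.nx 1312 257 (.l1 (.ls 67 19 316))
  (.nr 1313 741457 (.lg 0 true 1 73 73 16 0 1320) .out)) (.nr 1315 16385 (.lg 0 false 1 79 79 16 0
  3960) .out))) .out) .out)) (.na 1326 226 (.nx 1325 832257 (.nr 1324 1048577 (.nr 1319 214 .s1
  (.nx 1320 257 (.l1 (.ls 67 29 311)) (.nr 1323 741457 (.nx 1321 13005 (.lg 0 true 1 79 79 23 0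
  7920) (.nr 1322 16385 (.lg 0 false 1 79 79 23 0 2640) .out)) .out))) .out) .out) (.nx 1333 832257
  (.nr 1332 1048577 (.nr 1327 226 .s1 (.nx 1330 13005 (.nx 1328 257 (.l1 (.ls 67 29 295)) (.nr 1329
  741457 (.lg 0 true 1 79 79 23 0 7920) .out)) (.nr 1331 16385 (.lg 0 false 1 79 79 23 0 2640)
  .out))) .out) .out)))))) (.na 2735 725 (.na 1354 246 (.na 1344 237 (.na 1342 233 (.nx 1341 832257
  (.nr 1340 1048577 (.nr 1335 227 .s1 (.nx 1336 257 (.l1 (.ls 61 19 293)) (.nr 1339 741457 (.nr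
  1337 16385 (.lg 0 false 1 79 79 17 0 3960) (.nx 1338 13005 (.lg 0 true 1 73 73 17 0 3960) .out))
  .out))) .out) .out) (.na 1343 234 (.lg 0 false 1 0 0 16 0 24) (.lg 0 false 1 0 0 16 0 24))) (.na
  1352 242 (.nx 1351 832257 (.nr 1350 1048577 (.nr 1345 237 .s1 (.nx 1346 257 (.l1 (.ls 67 23 281))
  (.nr 1349 741457 (.nr 1347 16385 (.lg 0 false 1 83 83 19 0 3960) (.nx 1348 13005 (.lg 0 true 1 79
  79 19 0 3960) .out)) .out))) .out) .out) (.na 1353 243 (.lg 0 false 1 0 0 16 0 24) (.lg 0 false 1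
  0 0 16 0 24)))) (.na 1378 250 (.na 1362 247 (.nx 1361 832257 (.nr 1360 1048577 (.nr 1355 246 .s1
  (.nx 1356 257 (.l1 (.ls 71 31 271)) (.nr 1359 741457 (.nx 1357 13005 (.lg 0 true 1 83 83 29 0
  7920) (.nr 1358 16385 (.lg 0 false 1 83 83 29 0 7920) .out)) .out))) .out) .out) (.na 1370 249
  (.nx 1369 832257 (.nr 1368 1048577 (.nr 1363 247 .s1 (.nx 1364 257 (.l1 (.ls 73 29 270)) (.nr
  1367 741457 (.nr 1365 16385 (.lg 0 false 1 83 83 17 0 17160) (.nx 1366 13005 (.lg 0 false 1 79 79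
  17 0 17160) .out)) .out))) .out) .out) (.nx 1377 832257 (.nr 1376 1048577 (.nr 1371 249 .s1 (.nx
  1372 257 (.l1 (.ls 61 23 268)) (.nr 1375 741457 (.nr 1373 16385 (.lg 0 false 1 73 73 19 0 3960)
  (.nx 1374 13005 (.lg 0 true 1 73 73 19 0 3960) .out)) .out))) .out) .out))) (.na 1380 257 (.na
  1379 256 (.lg 0 false 1 0 0 16 0 24) .ne) (.na 2100 512 (.nx 2099 832257 (.nr 2098 1482912 (.nr
  1381 257 .s1 (.nx 1546 165 (.nr 1545 4658 (.lx (.lp 31 17 129)) (.l1 .sk)) (.nx 1547 166 (.l1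
  .sk) (.nx 1586 205 (.lx (.lp 73 17 129)) (.nr 2097 1048577 (.nr 1841 32769 (.la (.lg 0 false 1 79
  79 23 0)) (.nx 2096 10323 (.la (.lg 0 true 1 71 71 23 0)) .out)) .out))))) .out) .out) (.nx 2734
  832257 (.nr 2733 1482912 (.nr 2101 512 .s1 (.nx 2305 205 (.lx (.lp 41 19 182)) (.nr 2732 1048577
  (.nx 2518 22297 (.la (.lg 0 true 1 71 71 23 0)) (.nr 2731 32769 (.la (.lg 2 false 1 59 59 23
  134104)) .out)) .out))) .out) .out))))) (.na 10173 8192 (.na 4793 2048 (.na 3337 1024 (.nx 3336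
  10323 (.nr 3335 1048577 (.nr 2736 725 .s1 (.nx 3035 2049 (.la (.ls 59 37 5793)) (.nr 3334 16385
  (.la (.lg 0 true 1 31 31 29 0)) .out))) .out) .out) (.na 4191 1449 (.nx 4190 10323 (.nr 4189
  1048577 (.nr 3338 1024 .s1 (.nx 3763 2582 (.la (.ls 59 41 6513)) (.nr 4188 16385 (.la (.lg 0
  false 1 29 29 29 0)) .out))) .out) .out) (.nx 4792 2582 (.nr 4791 524289 (.nr 4192 1449 .s1 (.la
  (.ls 53 37 4603))) .out) .out))) (.na 7013 4096 (.na 5645 2897 (.nx 5644 3252 (.nr 5643 524289
  (.nr 4794 2048 .s1 (.la (.ls 53 37 5166))) .out) .out) (.nx 7012 2582 (.nr 7011 262145 (.nr 5646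
  2897 .s1 (.nx 5811 165 (.nr 5810 37261 (.lx (.lp 37 31 1025)) (.l1 .sk)) (.nx 5812 166 (.l1 .sk)
  (.la (.ls 43 37 2294))))) .out) .out)) (.na 8879 5793 (.nx 8878 2582 (.nr 8877 262145 (.nr 7014
  4096 .s1 (.nx 7179 165 (.nr 7178 52698 (.lx (.lp 37 29 1449)) (.l1 .sk)) (.nx 7180 166 (.l1 .sk)
  (.la (.ls 43 37 1623))))) .out) .out) (.nx 10172 1292 (.nr 10171 65537 (.nr 8880 5793 .s1 (.lx
  (.lp 31 37 2049))) .out) .out)))) (.na 13791 65536 (.na 11468 16384 (.nx 11467 1292 (.nr 11466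
  131073 (.nr 10174 8192 .s1 (.nx 10378 205 (.lx (.lp 16 37 4097)) (.nr 11465 65537 (.lx (.lp 31 41
  4097)) .out))) .out) .out) (.na 12763 32768 (.nx 12762 1292 (.nr 12761 262145 (.nr 11469 16384
  .s1 (.nx 11673 205 (.lx (.lp 37 41 8193)) (.nr 12760 131073 (.lx (.lp 31 43 8193)) .out))) .out)
  .out) (.nx 13790 1025 (.nr 13789 262145 (.nr 12764 32768 .s1 (.nx 12968 205 (.lx (.lp 16 0
  16385)) (.nr 13788 131073 (.lx (.lp 29 47 16385)) .out))) .out) .out))) (.na 14820 262144 (.na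
  14818 131072 (.nx 14817 1025 (.nr 14816 262145 (.nr 13792 65536 .s1 (.lx (.lp 29 53 32769)))
  .out) .out) (.nx 14819 324 (.l1 .sk) .out)) (.na 14822 524289 (.nx 14821 205 (.l1 .sk) .out)
  .out)))))))

def T26_1 : Ph :=
  (.na 786 8 (.na 377 4 (.na 376 2 (.nx 375 2097153 (.nr 374 881745 (.nx 3 185 (.nx 2 184 (.nr 1 14
  (.lg 0 false 1 43 43 5 0 552) (.l1 .sk)) (.l1 .sk)) (.nr 329 131073 (.nx 94 32769 (.lg 0 false 91
  103 109 16 0 16576560) (.nr 328 110219 (.nx 292 1048577 (.nr 157 901 (.lg 0 true 63 97 103 16 0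
  1275120) (.nx 178 41286 (.lg 1 false 21 103 107 11 57034 1275120) (.nr 192 1724 (.lg 2 true 14 97
  97 9 107069 38640) (.nx 291 832257 (.nx 213 52017 (.lg 1 false 21 103 107 11 45268 1275120) (.nr
  290 77937 (.nr 227 3160 (.lg 2 true 14 89 97 9 44413 38640) (.lg 2 false 63 103 109 16 25424
  16576560)) .out)) .out)))) (.nr 327 129 (.lg 0 true 35 83 89 13 0 19320) .out)) .out)) (.nx 373
  8193 (.nx 351 4096 (.nx 350 324 (.lg 0 false 21 83 83 11 0 11592) .out) (.nr 372 155873 (.lg 0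
  false 21 97 103 11 0 1275120) .out)) .out))) .out) .out) .ne) (.na 596 5 (.nx 595 16777217 (.nr
  594 1246976 (.nx 380 185 (.nx 379 184 (.nr 378 47 (.lg 0 true 1 37 37 9 0 1104) (.l1 .sk)) (.l1
  .sk)) (.nx 421 23746 (.nr 401 155873 (.lg 0 false 21 97 103 13 0 115920) (.nx 412 324 (.lg 0
  false 11 83 83 13 0 12144) (.nx 413 16384 .out (.nr 420 185365 (.lg 0 false 7 89 97 11 0 38640)
  .out)))) (.nr 593 220437 (.nx 524 524289 (.nr 446 11603 (.nr 432 729 (.lg 0 true 11 83 89 13 0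
  12144) (.nr 439 2909 (.lg 2 true 7 83 89 11 66166 38640) (.lg 2 true 7 83 97 11 16582 38640)))
  (.nx 516 208065 (.nx 508 165142 (.nx 500 131073 (.nx 479 65536 (.nr 478 185365 (.nx 467 46721
  (.lg 1 false 21 103 109 13 132277 16576560) (.lg 1 false 11 103 107 13 67230 16576560)) .out)
  (.lg 1 true 21 103 109 13 56988 16576560)) (.nr 507 155873 (.lg 1 true 7 103 107 11 20155
  16576560) .out)) (.nr 515 131073 (.lg 1 true 7 103 107 11 13455 16576560) .out)) (.nr 523 55110
  (.lg 2 false 7 89 97 11 4499 38640) .out))) (.nr 592 183 (.nx 535 2097153 (.lg 0 true 11 83 83 13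
  0 12144) (.nr 591 21 (.nx 561 8388609 (.lg 0 true 26 79 79 11 0 14352) (.lg 0 true 30 79 79 11 0
  16560)) .out)) .out)) .out))) .out) .out) (.na 785 6 (.nx 784 16777217 (.nr 783 1482912 (.nx 599
  185 (.nx 598 184 (.nr 597 57 (.lg 0 true 1 37 37 9 0 5520) (.l1 .sk)) (.l1 .sk)) (.nx 731 660563
  (.nx 635 30671 (.nr 620 155873 (.lg 0 false 21 103 109 16 0 16576560) (.nx 634 2049 (.nx 629 324
  (.lg 0 false 9 83 83 16 0 8280) (.nx 630 645 .out (.nr 633 185365 (.lg 0 false 3 83 83 11 0 8280)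
  .out))) .out)) (.nr 730 220437 (.nr 657 8843 (.nr 655 4213 (.nr 646 956 (.lg 0 true 11 89 89 16 0
  30360) (.lg 2 true 9 89 97 16 63569 115920)) (.lg 2 false 2 89 89 11 14425 5520)) (.nx 720 208065
  (.nx 712 165142 (.nx 701 112360 (.nx 690 76448 (.nx 679 52015 (.nr 678 185365 (.nx 669 41285 (.nr
  668 155873 (.lg 1 false 11 101 107 16 86133 16576560) .out) (.lg 1 false 9 103 107 16 76082
  16576560)) .out) (.lg 1 false 11 103 107 16 71801 16576560)) (.lg 1 false 11 103 107 16 48853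
  16576560)) (.lg 1 true 11 103 107 16 33239 16576560)) (.nr 719 131073 (.lg 1 true 7 103 107 16
  13455 16576560) .out)) (.nr 729 77937 (.lg 2 false 9 97 101 16 6873 115920) .out))) .out)) (.nr
  782 217 (.nr 770 36 (.lg 0 true 39 83 83 16 0 107640) (.nx 781 2097153 (.lg 0 true 11 83 83 16 0
  30360) .out)) .out))) .out) .out) .ne))) (.na 997 12 (.na 924 9 (.nx 923 16777217 (.nr 922
  1048577 (.nx 893 2097153 (.nx 826 52015 (.nx 788 184 (.nr 787 86 (.lg 0 true 1 31 31 9 0 1104)
  (.l1 .sk)) (.nx 789 185 (.l1 .sk) (.nr 810 185365 (.lg 0 false 21 101 107 19 0 16576560) (.nx 825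
  2049 (.nr 817 370729 (.lg 0 false 7 89 89 13 0 425040) (.nx 824 814 (.lg 0 false 7 83 83 13 0
  7728) .out)) .out)))) (.nr 892 220437 (.nx 884 1048577 (.nr 847 14343 (.nr 840 3732 (.nr 833 971
  (.lg 0 true 7 89 89 13 0 7728) (.lg 2 true 7 83 89 13 99351 425040)) (.lg 2 true 7 83 89 13 25850
  425040)) (.nx 876 208065 (.nx 868 165142 (.nx 854 76448 (.lg 1 false 7 103 107 13 71801 16576560)
  (.nx 861 112360 (.lg 1 false 7 103 107 13 48853 16576560) (.lg 1 true 7 103 107 13 33239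
  16576560))) (.nr 875 185365 (.lg 1 true 7 97 101 13 19020 425040) .out)) (.nr 883 110219 (.lg 2
  false 7 97 101 13 8983 425040) .out))) (.nr 891 129 (.lg 0 true 7 73 73 13 0 7728) .out)) .out))
  (.nr 921 55 (.lg 0 true 28 83 83 13 0 7728) .out)) .out) .out) (.na 925 11 .ne (.nx 996 2097153
  (.nr 995 1048577 (.nx 929 257 (.nx 927 184 (.nr 926 115 (.lg 0 true 1 37 37 9 0 182160) (.l1
  .sk)) (.nx 928 185 (.l1 .sk) (.l1 (.ls 83 37 2896)))) (.nr 994 623489 (.nx 944 26007 (.nr 936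
  155873 (.lg 0 false 7 101 103 16 0 1275120) (.nx 943 1292 (.lg 0 false 7 83 83 16 0 42504) .out))
  (.nr 993 220437 (.nx 985 660563 (.nr 951 899 (.lg 0 true 7 83 83 16 0 42504) (.nr 956 7042 (.lg 2
  true 5 83 89 16 67600 60720) (.nx 964 52015 (.nr 963 185365 (.lg 1 false 7 101 103 16 120777
  1275120) .out) (.nx 979 208065 (.nx 971 104033 (.lg 1 false 7 101 103 16 71801 1275120) (.nr 978
  185365 (.lg 1 true 7 101 103 16 30193 1275120) .out)) (.nr 984 65537 (.lg 2 false 5 83 89 16 8630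
  60720) .out))))) (.nr 992 65 (.lg 0 true 7 71 71 16 0 42504) .out)) .out)) .out)) .out) .out)))
  (.na 998 19 .ne (.na 1041 20 (.nx 1040 2097153 (.nr 1039 1048577 (.nr 999 14 .s1 (.nx 1001 184
  (.nr 1000 192 (.lg 0 true 1 31 31 11 0 60720) (.l1 .sk)) (.nx 1002 185 (.l1 .sk) (.nx 1003 324
  (.l1 (.ls 83 37 3726)) (.nr 1038 623489 (.nr 1034 262145 (.nx 1016 41286 (.lg 0 false 13 101 107
  16 0 16576560) (.nr 1033 155873 (.nr 1023 751 (.lg 0 true 7 83 83 16 0 3864) (.nx 1032 416129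
  (.lg 2 false 9 101 107 16 63987 1275120) .out)) .out)) (.nx 1037 2049 (.lg 0 false 3 83 83 16 0
  1656) .out)) .out))))) .out) .out) (.nx 1084 2097153 (.nr 1083 1048577 (.nr 1042 15 .s1 (.nx 1046
  324 (.nx 1044 184 (.nr 1043 221 (.lg 0 false 1 37 37 13 0 16560) (.l1 .sk)) (.nx 1045 185 (.l1
  .sk) (.l1 (.ls 89 43 3540)))) (.nr 1082 623489 (.nr 1078 262145 (.nx 1074 660563 (.nr 1070 185365
  (.nx 1053 41286 (.lg 0 false 7 97 101 23 0 115920) (.nr 1069 155873 (.nr 1056 751 (.lg 0 true 3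
  79 79 19 0 16560) (.nx 1068 416129 (.nr 1057 2200 (.lg 2 false 1 79 79 13 50978 5520) (.nx 1060
  82572 (.lg 1 false 3 97 103 19 63987 182160) (.nr 1067 131073 (.lg 2 false 7 97 103 23 26910
  1275120) .out))) .out)) .out)) (.nx 1073 10323 (.lg 0 false 3 83 97 19 0 16560) .out)) (.nr 1077
  129 (.lg 0 true 3 73 73 19 0 16560) .out)) (.nx 1081 2049 (.lg 0 false 3 83 89 19 0 16560) .out))
  .out))) .out) .out)))))

def T26_2 : Ph :=
  (.na 169 134 (.na 82 58 (.na 48 16 (.na 19 7 (.na 1 2 .ne (.na 18 3 (.nx 17 52017 (.nr 16 3446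
  (.nx 4 14 (.nx 3 13 (.nr 2 7 (.lg 0 false 1 0 17 5 0 65520) (.l1 .sk)) (.l1 .sk)) (.nr 10 154
  (.lg 0 false 6 71 71 9 0 1872) (.nx 15 10323 (.nx 12 237 (.lg 0 true 2 67 67 5 0 624) (.nr 14
  1219 (.lg 2 true 2 61 61 5 441 624) .out)) .out))) .out) .out) .ne)) (.na 31 11 (.na 30 8 (.nx 29
  20644 (.nr 28 4097 (.nr 20 7 .s1 (.nx 21 163 (.l1 (.ls 59 37 3798)) (.nr 27 1450 (.nx 22 755 (.l1
  (.ls 53 53 77639)) (.nx 23 1108 (.l1 (.ls 47 59 93951)) (.nr 25 183 (.lg 0 false 2 67 67 11 0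
  4368) (.nx 26 1627 (.lg 0 true 1 61 61 9 0 2184) .out)))) .out))) .out) .out) .ne) (.na 40 14
  (.nx 39 20644 (.nr 38 3446 (.nr 32 11 .s1 (.nx 34 13 (.nr 33 37 (.l1 (.ls 16 16 18)) (.l1 .sk))
  (.nx 35 14 (.l1 .sk) (.lg 0 false 3 67 67 9 0 10296)))) .out) .out) (.nx 47 20644 (.nr 46 3446
  (.nr 41 14 .s1 (.nx 43 13 (.nr 42 42 (.l1 (.ls 16 13 15)) (.l1 .sk)) (.nx 44 14 (.l1 .sk) (.lg 0
  false 2 71 71 13 0 4368)))) .out) .out)))) (.na 63 32 (.na 56 23 (.na 49 22 .ne (.nx 55 20644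
  (.nr 54 6890 (.nr 50 22 .s1 (.nx 51 27 (.l1 (.ls 53 17 36)) (.nr 53 3446 (.lg 0 false 2 71 71 13
  0 6864) .out))) .out) .out)) (.na 57 26 .ne (.nx 62 20644 (.nr 61 6890 (.nr 58 26 .s1 (.nx 59 163
  (.l1 (.ls 41 37 1024)) (.nr 60 257 (.lg 0 false 1 53 53 11 0 624) .out))) .out) .out))) (.na 70
  38 (.na 64 34 .ne (.nx 69 10323 (.nr 68 4097 (.nr 65 34 .s1 (.nx 66 27 (.l1 (.ls 41 13 24)) (.nr
  67 1724 (.lg 0 false 1 61 61 13 0 624) .out))) .out) .out)) (.na 76 53 (.nx 75 10323 (.nr 74 4097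
  (.nr 71 38 .s1 (.nx 72 27 (.l1 (.ls 47 13 22)) (.nr 73 1724 (.lg 0 false 1 61 61 13 0 624)
  .out))) .out) .out) (.nx 81 10323 (.nr 80 4097 (.nr 77 53 .s1 (.nx 78 27 (.l1 (.ls 29 16 16))
  (.nr 79 1724 (.lg 0 false 1 53 53 16 0 1560) .out))) .out) .out))))) (.na 125 101 (.na 101 71
  (.na 94 62 (.na 88 59 (.nx 87 10323 (.nr 86 4097 (.nr 83 58 .s1 (.nx 84 27 (.l1 (.ls 23 13 15))
  (.nr 85 1724 (.lg 0 false 1 59 59 13 0 624) .out))) .out) .out) (.nx 93 10323 (.nr 92 4097 (.nr
  89 59 .s1 (.nx 90 27 (.l1 (.ls 29 16 16)) (.nr 91 1724 (.lg 0 true 1 43 43 16 0 312) .out)))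
  .out) .out)) (.na 100 64 (.nx 99 10323 (.nr 98 4097 (.nr 95 62 .s1 (.nx 96 163 (.l1 (.ls 29 29
  431)) (.nr 97 513 (.lg 2 true 1 31 31 13 1083 624) .out))) .out) .out) .ne)) (.na 113 94 (.na 107
  91 (.nx 106 20644 (.nr 105 2049 (.nr 102 71 .s1 (.nx 103 163 (.l1 (.ls 29 19 377)) (.nr 104 513
  (.lg 0 true 1 41 41 16 0 312) .out))) .out) .out) (.nx 112 20644 (.nr 111 2049 (.nr 108 91 .s1
  (.nx 109 163 (.l1 (.ls 23 23 294)) (.nr 110 513 (.lg 2 true 1 19 19 17 1475 2184) .out))) .out)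
  .out)) (.na 119 98 (.nx 118 20644 (.nr 117 2049 (.nr 114 94 .s1 (.nx 115 163 (.l1 (.ls 23 29
  285)) (.nr 116 513 (.lg 2 true 1 23 23 17 1428 624) .out))) .out) .out) (.nx 124 20644 (.nr 123
  2049 (.nr 120 98 .s1 (.nx 121 163 (.l1 (.ls 29 29 274)) (.nr 122 513 (.lg 2 true 1 23 23 19 1370
  21840) .out))) .out) .out)))) (.na 150 121 (.na 137 118 (.na 131 106 (.nx 130 20644 (.nr 129 2049
  (.nr 126 101 .s1 (.nx 127 163 (.l1 (.ls 19 17 266)) (.nr 128 513 (.lg 2 true 1 17 17 16 1329 312)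
  .out))) .out) .out) (.nx 136 20644 (.nr 135 2049 (.nr 132 106 .s1 (.nx 133 163 (.l1 (.ls 29 23
  253)) (.nr 134 513 (.lg 2 true 1 23 23 19 1266 48048) .out))) .out) .out)) (.na 143 119 (.nx 142
  20644 (.nr 141 2049 (.nr 138 118 .s1 (.nx 139 163 (.l1 (.ls 29 23 228)) (.nr 140 513 (.lg 2 true
  1 19 19 19 1138 21840) .out))) .out) .out) (.nx 149 20644 (.nr 148 2049 (.nr 144 119 .s1 (.nx 146
  13 (.nr 145 315 (.l1 (.ls 16 16 31)) (.l1 .sk)) (.nx 147 14 (.l1 .sk) (.lg 0 true 1 53 53 16 0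
  2184)))) .out) .out))) (.na 162 128 (.na 156 122 (.nx 155 20644 (.nr 154 2049 (.nr 151 121 .s1
  (.nx 152 163 (.l1 (.ls 23 19 222)) (.nr 153 513 (.lg 2 true 1 19 19 17 1109 24024) .out))) .out)
  .out) (.nx 161 20644 (.nr 160 2049 (.nr 157 122 .s1 (.nx 158 163 (.l1 (.ls 23 23 220)) (.nr 159
  513 (.lg 2 true 1 19 19 19 1100 3120) .out))) .out) .out)) (.na 163 133 .ne (.nx 168 10323 (.nr
  167 2049 (.nr 164 133 .s1 (.nx 165 163 (.l1 (.ls 17 17 202)) (.nr 166 513 (.lg 2 false 1 17 23 17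
  505 10920) .out))) .out) .out)))))) (.na 235 203 (.na 202 167 (.na 183 149 (.na 176 139 (.na 175
  137 (.nx 174 10323 (.nr 173 2049 (.nr 170 134 .s1 (.nx 171 163 (.l1 (.ls 19 23 201)) (.nr 172 513
  (.lg 2 false 1 16 16 19 501 4368) .out))) .out) .out) (.lg 0 false 1 0 0 16 0 24)) (.na 177 142
  (.lg 0 false 1 0 0 16 0 24) (.nx 182 10323 (.nr 181 2049 (.nr 178 142 .s1 (.nx 179 163 (.l1 (.ls
  29 23 190)) (.nr 180 513 (.lg 2 false 1 17 17 19 473 21840) .out))) .out) .out))) (.na 190 154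
  (.na 184 151 (.lg 0 false 1 0 0 16 0 24) (.nx 189 10323 (.nr 188 2049 (.nr 185 151 .s1 (.nx 186
  163 (.l1 (.ls 17 17 178)) (.nr 187 513 (.lg 2 true 1 19 19 16 445 720720) .out))) .out) .out))
  (.na 196 166 (.nx 195 10323 (.nr 194 2049 (.nr 191 154 .s1 (.nx 192 163 (.l1 (.ls 31 31 175))
  (.nr 193 513 (.lg 2 true 1 19 19 31 436 48048) .out))) .out) .out) (.nx 201 10323 (.nr 200 2049
  (.nr 197 166 .s1 (.nx 198 163 (.l1 (.ls 17 23 163)) (.nr 199 513 (.lg 2 true 1 16 16 19 405 4368)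
  .out))) .out) .out)))) (.na 221 187 (.na 209 181 (.na 208 169 (.nx 207 10323 (.nr 206 2049 (.nr
  203 167 .s1 (.nx 204 163 (.l1 (.ls 19 17 162)) (.nr 205 513 (.lg 2 true 1 17 17 16 402 240240)
  .out))) .out) .out) (.lg 0 false 1 0 0 16 0 24)) (.na 215 182 (.nx 214 10323 (.nr 213 2049 (.nr
  210 181 .s1 (.nx 211 163 (.l1 (.ls 17 17 149)) (.nr 212 513 (.lg 2 false 1 17 17 16 371 720720)
  .out))) .out) .out) (.nx 220 10323 (.nr 219 2049 (.nr 216 182 .s1 (.nx 217 163 (.l1 (.ls 29 31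
  148)) (.nr 218 513 (.lg 2 false 1 17 17 29 369 720720) .out))) .out) .out))) (.na 228 199 (.na
  227 197 (.nx 226 10323 (.nr 225 2049 (.nr 222 187 .s1 (.nx 223 163 (.l1 (.ls 16 23 145)) (.nr 224
  513 (.lg 2 true 1 16 19 23 359 360360) .out))) .out) .out) (.lg 0 false 1 0 0 16 0 24)) (.na 229
  202 (.lg 0 false 1 0 0 16 0 24) (.nx 234 10323 (.nr 233 2049 (.nr 230 202 .s1 (.nx 231 163 (.l1
  (.ls 37 23 134)) (.nr 232 513 (.lg 2 true 1 16 16 23 333 240240) .out))) .out) .out))))) (.na 278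
  251 (.na 254 233 (.na 247 226 (.na 241 217 (.nx 240 10323 (.nr 239 2049 (.nr 236 203 .s1 (.nx 237
  163 (.l1 (.ls 23 19 133)) (.nr 238 513 (.lg 2 true 1 16 16 19 331 120120) .out))) .out) .out)
  (.nx 246 10323 (.nr 245 2049 (.nr 242 217 .s1 (.nx 243 163 (.l1 (.ls 29 19 125)) (.nr 244 513
  (.lg 2 true 1 17 17 19 310 240240) .out))) .out) .out)) (.na 253 229 (.nx 252 10323 (.nr 251 2049
  (.nr 248 226 .s1 (.nx 249 163 (.l1 (.ls 17 23 120)) (.nr 250 513 (.lg 2 true 1 16 16 23 297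
  720720) .out))) .out) .out) (.lg 0 false 1 0 0 16 0 24))) (.na 266 242 (.na 260 238 (.nx 259
  10323 (.nr 258 2049 (.nr 255 233 .s1 (.nx 256 163 (.l1 (.ls 17 17 117)) (.nr 257 513 (.lg 2 true
  1 16 16 17 288 720720) .out))) .out) .out) (.nx 265 10323 (.nr 264 2049 (.nr 261 238 .s1 (.nx 262
  163 (.l1 (.ls 16 31 114)) (.nr 263 513 (.lg 2 true 1 16 19 31 282 240240) .out))) .out) .out))
  (.na 272 247 (.nx 271 10323 (.nr 270 2049 (.nr 267 242 .s1 (.nx 268 163 (.l1 (.ls 19 29 112))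
  (.nr 269 513 (.lg 2 true 1 16 16 29 278 720720) .out))) .out) .out) (.nx 277 10323 (.nr 276 2049
  (.nr 273 247 .s1 (.nx 274 163 (.l1 (.ls 17 17 110)) (.nr 275 513 (.lg 2 true 1 16 16 17 274
  720720) .out))) .out) .out)))) (.na 610 1024 (.na 280 257 (.na 279 256 (.lg 0 false 1 0 0 16 0
  24) .ne) (.na 445 512 (.nx 444 163 (.nr 443 4097 (.nr 281 257 .s1 (.lx (.lp 43 17 129))) .out)
  .out) (.nx 609 163 (.nr 608 4097 (.nr 446 512 .s1 (.lx (.lp 41 19 257))) .out) .out))) (.na 778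
  4096 (.na 694 2048 (.nx 693 82 (.nr 692 8193 (.nr 611 1024 .s1 (.lx (.lp 41 19 513))) .out) .out)
  (.nx 777 82 (.nr 776 8193 (.nr 695 2048 .s1 (.lx (.lp 16 0 1025))) .out) .out)) (.na 862 8193
  (.nx 861 82 (.nr 860 16385 (.nr 779 4096 .s1 (.lx (.lp 16 0 2049))) .out) .out) .out))))))

theorem c26 :
    OkQ ckI L8 165 1 1099511627776 0 34359738368 1 1099511627776 ∧
    OkQ ckI L9 184 1 23 0 34359738368 1 1099511627776 ∧
    OkQ ckI L1 13 1 1099511627776 0 34359738368 1 1099511627776 := by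
  refine ⟨?_, ?_, ?_⟩
  · refine fin 1320 14823 T26_0 ?_
    refine jn 8 (by decide +kernel) ?_
    refine jn 12 (by decide +kernel) ?_
    refine jn 16 (by decide +kernel) ?_
    refine jn 21 (by decide +kernel) ?_
    refine jn 25 (by decide +kernel) ?_
    refine jn 29 (by decide +kernel) ?_
    refine jn 35 (by decide +kernel) ?_
    refine jn 43 (by decide +kernel) ?_
    refine jn 52 (by decide +kernel) ?_
    refine jn 69 (by decide +kernel) ?_
    refine jn 82 (by decide +kernel) ?_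
    refine jn 95 (by decide +kernel) ?_
    refine jn 109 (by decide +kernel) ?_
    refine jn 123 (by decide +kernel) ?_
    refine jn 154 (by decide +kernel) ?_
    refine jn 188 (by decide +kernel) ?_
    refine jn 201 (by decide +kernel) ?_
    refine jn 208 (by decide +kernel) ?_
    refine jn 215 (by decide +kernel) ?_
    refine jn 222 (by decide +kernel) ?_
    refine jn 233 (by decide +kernel) ?_
    refine jn 246 (by decide +kernel) ?_
    refine jn 257 (by decide +kernel) ?_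
    refine jn 285 (by decide +kernel) ?_
    refine jn 313 (by decide +kernel) ?_
    refine jn 327 (by decide +kernel) ?_
    refine jn 371 (by decide +kernel) ?_
    refine jn 400 (by decide +kernel) ?_
    refine jn 415 (by decide +kernel) ?_
    refine jn 421 (by decide +kernel) ?_
    refine jn 429 (by decide +kernel) ?_
    refine jn 442 (by decide +kernel) ?_
    refine jn 463 (by decide +kernel) ?_
    refine jn 477 (by decide +kernel) ?_
    refine jn 514 (by decide +kernel) ?_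
    refine jn 538 (by decide +kernel) ?_
    refine jn 549 (by decide +kernel) ?_
    refine jn 559 (by decide +kernel) ?_
    refine jn 575 (by decide +kernel) ?_
    refine jn 591 (by decide +kernel) ?_
    refine jn 592 (by decide +kernel) ?_
    refine jn 594 (by decide +kernel) ?_
    refine jn 596 (by decide +kernel) ?_
    refine jn 597 (by decide +kernel) ?_
    refine jn 602 (by decide +kernel) ?_
    refine jn 607 (by decide +kernel) ?_
    refine jn 610 (by decide +kernel) ?_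
    refine jn 611 (by decide +kernel) ?_
    refine jn 612 (by decide +kernel) ?_
    refine jn 613 (by decide +kernel) ?_
    refine jn 614 (by decide +kernel) ?_
    refine jn 615 (by decide +kernel) ?_
    refine jn 616 (by decide +kernel) ?_
    refine jn 617 (by decide +kernel) ?_
    refine jn 630 (by decide +kernel) ?_
    refine jn 639 (by decide +kernel) ?_
    refine jn 651 (by decide +kernel) ?_
    refine jn 652 (by decide +kernel) ?_
    refine jn 655 (by decide +kernel) ?_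
    refine jn 657 (by decide +kernel) ?_
    refine jn 660 (by decide +kernel) ?_
    refine jn 665 (by decide +kernel) ?_
    refine jn 666 (by decide +kernel) ?_
    refine jn 667 (by decide +kernel) ?_
    refine jn 668 (by decide +kernel) ?_
    refine jn 669 (by decide +kernel) ?_
    refine jn 670 (by decide +kernel) ?_
    refine jn 671 (by decide +kernel) ?_
    refine jn 672 (by decide +kernel) ?_
    refine jn 681 (by decide +kernel) ?_
    refine jn 698 (by decide +kernel) ?_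
    refine jn 714 (by decide +kernel) ?_
    refine jn 732 (by decide +kernel) ?_
    refine jn 739 (by decide +kernel) ?_
    refine jn 747 (by decide +kernel) ?_
    refine jn 754 (by decide +kernel) ?_
    refine jn 763 (by decide +kernel) ?_
    refine jn 764 (by decide +kernel) ?_
    refine jn 765 (by decide +kernel) ?_
    refine jn 766 (by decide +kernel) ?_
    refine jn 767 (by decide +kernel) ?_
    refine jn 768 (by decide +kernel) ?_
    refine jn 769 (by decide +kernel) ?_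
    refine jn 770 (by decide +kernel) ?_
    refine jn 780 (by decide +kernel) ?_
    refine jn 800 (by decide +kernel) ?_
    refine jn 817 (by decide +kernel) ?_
    refine jn 824 (by decide +kernel) ?_
    refine jn 830 (by decide +kernel) ?_
    refine jn 847 (by decide +kernel) ?_
    refine jn 854 (by decide +kernel) ?_
    refine jn 867 (by decide +kernel) ?_
    refine jn 873 (by decide +kernel) ?_
    refine jn 893 (by decide +kernel) ?_
    refine jn 908 (by decide +kernel) ?_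
    refine jn 923 (by decide +kernel) ?_
    refine jn 927 (by decide +kernel) ?_
    refine jn 948 (by decide +kernel) ?_
    refine jn 963 (by decide +kernel) ?_
    refine jn 976 (by decide +kernel) ?_
    refine jn 992 (by decide +kernel) ?_
    refine jn 1007 (by decide +kernel) ?_
    refine jn 1022 (by decide +kernel) ?_
    refine jn 1034 (by decide +kernel) ?_
    refine jn 1035 (by decide +kernel) ?_
    refine jn 1036 (by decide +kernel) ?_
    refine jn 1037 (by decide +kernel) ?_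
    refine jn 1038 (by decide +kernel) ?_
    refine jn 1039 (by decide +kernel) ?_
    refine jn 1040 (by decide +kernel) ?_
    refine jn 1054 (by decide +kernel) ?_
    refine jn 1071 (by decide +kernel) ?_
    refine jn 1085 (by decide +kernel) ?_
    refine jn 1100 (by decide +kernel) ?_
    refine jn 1113 (by decide +kernel) ?_
    refine jn 1127 (by decide +kernel) ?_
    refine jn 1138 (by decide +kernel) ?_
    refine jn 1149 (by decide +kernel) ?_
    refine jn 1166 (by decide +kernel) ?_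
    refine jn 1176 (by decide +kernel) ?_
    refine jn 1186 (by decide +kernel) ?_
    refine jn 1200 (by decide +kernel) ?_
    refine jn 1213 (by decide +kernel) ?_
    refine jn 1222 (by decide +kernel) ?_
    refine jn 1238 (by decide +kernel) ?_
    refine jn 1254 (by decide +kernel) ?_
    refine jn 1265 (by decide +kernel) ?_
    refine jn 1282 (by decide +kernel) ?_
    refine jn 1298 (by decide +kernel) ?_
    refine jn 1313 (by decide +kernel) ?_
    refine jn 1322 (by decide +kernel) ?_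
    refine jn 1338 (by decide +kernel) ?_
    refine jn 1358 (by decide +kernel) ?_
    refine jn 1366 (by decide +kernel) ?_
    refine jn 1406 (by decide +kernel) ?_
    refine jn 1509 (by decide +kernel) ?_
    refine jn 1594 (by decide +kernel) ?_
    refine jn 1610 (by decide +kernel) ?_
    refine jn 1619 (by decide +kernel) ?_
    refine jn 1631 (by decide +kernel) ?_
    refine jn 1647 (by decide +kernel) ?_
    refine jn 1663 (by decide +kernel) ?_
    refine jn 1683 (by decide +kernel) ?_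
    refine jn 1690 (by decide +kernel) ?_
    refine jn 1706 (by decide +kernel) ?_
    refine jn 1715 (by decide +kernel) ?_
    refine jn 1739 (by decide +kernel) ?_
    refine jn 1751 (by decide +kernel) ?_
    refine jn 1764 (by decide +kernel) ?_
    refine jn 1775 (by decide +kernel) ?_
    refine jn 1786 (by decide +kernel) ?_
    refine jn 1803 (by decide +kernel) ?_
    refine jn 1823 (by decide +kernel) ?_
    refine jn 1831 (by decide +kernel) ?_
    refine jn 1847 (by decide +kernel) ?_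
    refine jn 1862 (by decide +kernel) ?_
    refine jn 1870 (by decide +kernel) ?_
    refine jn 1882 (by decide +kernel) ?_
    refine jn 1901 (by decide +kernel) ?_
    refine jn 1914 (by decide +kernel) ?_
    refine jn 1930 (by decide +kernel) ?_
    refine jn 1945 (by decide +kernel) ?_
    refine jn 1961 (by decide +kernel) ?_
    refine jn 1974 (by decide +kernel) ?_
    refine jn 2002 (by decide +kernel) ?_
    refine jn 2013 (by decide +kernel) ?_
    refine jn 2030 (by decide +kernel) ?_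
    refine jn 2042 (by decide +kernel) ?_
    refine jn 2071 (by decide +kernel) ?_
    refine jn 2082 (by decide +kernel) ?_
    refine jn 2096 (by decide +kernel) ?_
    refine jn 2308 (by decide +kernel) ?_
    refine jn 2328 (by decide +kernel) ?_
    refine jn 2344 (by decide +kernel) ?_
    refine jn 2356 (by decide +kernel) ?_
    refine jn 2366 (by decide +kernel) ?_
    refine jn 2383 (by decide +kernel) ?_
    refine jn 2408 (by decide +kernel) ?_
    refine jn 2419 (by decide +kernel) ?_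
    refine jn 2431 (by decide +kernel) ?_
    refine jn 2442 (by decide +kernel) ?_
    refine jn 2467 (by decide +kernel) ?_
    refine jn 2485 (by decide +kernel) ?_
    refine jn 2499 (by decide +kernel) ?_
    refine jn 2520 (by decide +kernel) ?_
    refine jn 2541 (by decide +kernel) ?_
    refine jn 2557 (by decide +kernel) ?_
    refine jn 2569 (by decide +kernel) ?_
    refine jn 2585 (by decide +kernel) ?_
    refine jn 2612 (by decide +kernel) ?_
    refine jn 2628 (by decide +kernel) ?_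
    refine jn 2644 (by decide +kernel) ?_
    refine jn 2659 (by decide +kernel) ?_
    refine jn 2684 (by decide +kernel) ?_
    refine jn 2701 (by decide +kernel) ?_
    refine jn 2728 (by decide +kernel) ?_
    refine jn 2765 (by decide +kernel) ?_
    refine jn 2833 (by decide +kernel) ?_
    refine jn 2881 (by decide +kernel) ?_
    refine jn 2932 (by decide +kernel) ?_
    refine jn 3022 (by decide +kernel) ?_
    refine jn 3055 (by decide +kernel) ?_
    refine jn 3100 (by decide +kernel) ?_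
    refine jn 3144 (by decide +kernel) ?_
    refine jn 3181 (by decide +kernel) ?_
    refine jn 3224 (by decide +kernel) ?_
    refine jn 3288 (by decide +kernel) ?_
    refine jn 3341 (by decide +kernel) ?_
    refine jn 3408 (by decide +kernel) ?_
    refine jn 3460 (by decide +kernel) ?_
    refine jn 3549 (by decide +kernel) ?_
    refine jn 3617 (by decide +kernel) ?_
    refine jn 3692 (by decide +kernel) ?_
    refine jn 3763 (by decide +kernel) ?_
    refine jn 3813 (by decide +kernel) ?_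
    refine jn 3856 (by decide +kernel) ?_
    refine jn 3905 (by decide +kernel) ?_
    refine jn 3973 (by decide +kernel) ?_
    refine jn 4016 (by decide +kernel) ?_
    refine jn 4077 (by decide +kernel) ?_
    refine jn 4124 (by decide +kernel) ?_
    refine jn 4177 (by decide +kernel) ?_
    refine jn 4244 (by decide +kernel) ?_
    refine jn 4301 (by decide +kernel) ?_
    refine jn 4373 (by decide +kernel) ?_
    refine jn 4436 (by decide +kernel) ?_
    refine jn 4548 (by decide +kernel) ?_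
    refine jn 4631 (by decide +kernel) ?_
    refine jn 4736 (by decide +kernel) ?_
    refine jn 4813 (by decide +kernel) ?_
    refine jn 4884 (by decide +kernel) ?_
    refine jn 4967 (by decide +kernel) ?_
    refine jn 5031 (by decide +kernel) ?_
    refine jn 5124 (by decide +kernel) ?_
    refine jn 5216 (by decide +kernel) ?_
    refine jn 5281 (by decide +kernel) ?_
    refine jn 5379 (by decide +kernel) ?_
    refine jn 5463 (by decide +kernel) ?_
    refine jn 5528 (by decide +kernel) ?_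
    refine jn 5633 (by decide +kernel) ?_
    refine jn 5861 (by decide +kernel) ?_
    refine jn 5973 (by decide +kernel) ?_
    refine jn 6073 (by decide +kernel) ?_
    refine jn 6189 (by decide +kernel) ?_
    refine jn 6305 (by decide +kernel) ?_
    refine jn 6426 (by decide +kernel) ?_
    refine jn 6538 (by decide +kernel) ?_
    refine jn 6668 (by decide +kernel) ?_
    refine jn 6806 (by decide +kernel) ?_
    refine jn 6921 (by decide +kernel) ?_
    refine jn 7189 (by decide +kernel) ?_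
    refine jn 7282 (by decide +kernel) ?_
    refine jn 7378 (by decide +kernel) ?_
    refine jn 7490 (by decide +kernel) ?_
    refine jn 7614 (by decide +kernel) ?_
    refine jn 7722 (by decide +kernel) ?_
    refine jn 7833 (by decide +kernel) ?_
    refine jn 7967 (by decide +kernel) ?_
    refine jn 8107 (by decide +kernel) ?_
    refine jn 8255 (by decide +kernel) ?_
    refine jn 8403 (by decide +kernel) ?_
    refine jn 8522 (by decide +kernel) ?_
    refine jn 8638 (by decide +kernel) ?_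
    refine jn 8751 (by decide +kernel) ?_
    refine jn 8926 (by decide +kernel) ?_
    refine jn 9348 (by decide +kernel) ?_
    refine jn 9548 (by decide +kernel) ?_
    refine jn 9696 (by decide +kernel) ?_
    refine jn 9809 (by decide +kernel) ?_
    refine jn 9915 (by decide +kernel) ?_
    refine jn 10008 (by decide +kernel) ?_
    refine jn 10082 (by decide +kernel) ?_
    refine jn 10156 (by decide +kernel) ?_
    refine jn 10481 (by decide +kernel) ?_
    refine jn 10675 (by decide +kernel) ?_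
    refine jn 10811 (by decide +kernel) ?_
    refine jn 10933 (by decide +kernel) ?_
    refine jn 11035 (by decide +kernel) ?_
    refine jn 11126 (by decide +kernel) ?_
    refine jn 11204 (by decide +kernel) ?_
    refine jn 11277 (by decide +kernel) ?_
    refine jn 11335 (by decide +kernel) ?_
    refine jn 11394 (by decide +kernel) ?_
    refine jn 11441 (by decide +kernel) ?_
    refine jn 11708 (by decide +kernel) ?_
    refine jn 11992 (by decide +kernel) ?_
    refine jn 12198 (by decide +kernel) ?_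
    refine jn 12343 (by decide +kernel) ?_
    refine jn 12488 (by decide +kernel) ?_
    refine jn 12598 (by decide +kernel) ?_
    refine jn 12697 (by decide +kernel) ?_
    refine jn 13037 (by decide +kernel) ?_
    refine jn 13354 (by decide +kernel) ?_
    refine jn 13599 (by decide +kernel) ?_
    refine jn 13787 (by decide +kernel) ?_
    refine jn 14407 (by decide +kernel) ?_
    refine jn 14698 (by decide +kernel) ?_
    exact je (by decide +kernel)
  · refine fin 552 1085 T26_1 ?_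
    refine jn 8 (by decide +kernel) ?_
    refine jn 12 (by decide +kernel) ?_
    refine jn 18 (by decide +kernel) ?_
    refine jn 23 (by decide +kernel) ?_
    refine jn 29 (by decide +kernel) ?_
    refine jn 33 (by decide +kernel) ?_
    refine jn 39 (by decide +kernel) ?_
    refine jn 44 (by decide +kernel) ?_
    refine jn 50 (by decide +kernel) ?_
    refine jn 54 (by decide +kernel) ?_
    refine jn 59 (by decide +kernel) ?_
    refine jn 65 (by decide +kernel) ?_
    refine jn 71 (by decide +kernel) ?_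
    refine jn 76 (by decide +kernel) ?_
    refine jn 82 (by decide +kernel) ?_
    refine jn 88 (by decide +kernel) ?_
    refine jn 92 (by decide +kernel) ?_
    refine jn 99 (by decide +kernel) ?_
    refine jn 109 (by decide +kernel) ?_
    refine jn 120 (by decide +kernel) ?_
    refine jn 131 (by decide +kernel) ?_
    refine jn 142 (by decide +kernel) ?_
    refine jn 153 (by decide +kernel) ?_
    refine jn 157 (by decide +kernel) ?_
    refine jn 176 (by decide +kernel) ?_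
    refine jn 192 (by decide +kernel) ?_
    refine jn 211 (by decide +kernel) ?_
    refine jn 227 (by decide +kernel) ?_
    refine jn 245 (by decide +kernel) ?_
    refine jn 263 (by decide +kernel) ?_
    refine jn 281 (by decide +kernel) ?_
    refine jn 290 (by decide +kernel) ?_
    refine jn 316 (by decide +kernel) ?_
    refine jn 327 (by decide +kernel) ?_
    refine jn 350 (by decide +kernel) ?_
    refine jn 372 (by decide +kernel) ?_
    refine jn 380 (by decide +kernel) ?_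
    refine jn 382 (by decide +kernel) ?_
    refine jn 384 (by decide +kernel) ?_
    refine jn 386 (by decide +kernel) ?_
    refine jn 388 (by decide +kernel) ?_
    refine jn 390 (by decide +kernel) ?_
    refine jn 391 (by decide +kernel) ?_
    refine jn 392 (by decide +kernel) ?_
    refine jn 394 (by decide +kernel) ?_
    refine jn 396 (by decide +kernel) ?_
    refine jn 398 (by decide +kernel) ?_
    refine jn 400 (by decide +kernel) ?_
    refine jn 401 (by decide +kernel) ?_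
    refine jn 412 (by decide +kernel) ?_
    refine jn 421 (by decide +kernel) ?_
    refine jn 423 (by decide +kernel) ?_
    refine jn 425 (by decide +kernel) ?_
    refine jn 427 (by decide +kernel) ?_
    refine jn 429 (by decide +kernel) ?_
    refine jn 431 (by decide +kernel) ?_
    refine jn 432 (by decide +kernel) ?_
    refine jn 439 (by decide +kernel) ?_
    refine jn 446 (by decide +kernel) ?_
    refine jn 457 (by decide +kernel) ?_
    refine jn 467 (by decide +kernel) ?_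
    refine jn 478 (by decide +kernel) ?_
    refine jn 487 (by decide +kernel) ?_
    refine jn 496 (by decide +kernel) ?_
    refine jn 500 (by decide +kernel) ?_
    refine jn 507 (by decide +kernel) ?_
    refine jn 515 (by decide +kernel) ?_
    refine jn 523 (by decide +kernel) ?_
    refine jn 531 (by decide +kernel) ?_
    refine jn 535 (by decide +kernel) ?_
    refine jn 561 (by decide +kernel) ?_
    refine jn 591 (by decide +kernel) ?_
    refine jn 601 (by decide +kernel) ?_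
    refine jn 602 (by decide +kernel) ?_
    refine jn 604 (by decide +kernel) ?_
    refine jn 606 (by decide +kernel) ?_
    refine jn 608 (by decide +kernel) ?_
    refine jn 610 (by decide +kernel) ?_
    refine jn 612 (by decide +kernel) ?_
    refine jn 614 (by decide +kernel) ?_
    refine jn 616 (by decide +kernel) ?_
    refine jn 617 (by decide +kernel) ?_
    refine jn 620 (by decide +kernel) ?_
    refine jn 629 (by decide +kernel) ?_
    refine jn 637 (by decide +kernel) ?_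
    refine jn 640 (by decide +kernel) ?_
    refine jn 643 (by decide +kernel) ?_
    refine jn 646 (by decide +kernel) ?_
    refine jn 655 (by decide +kernel) ?_
    refine jn 657 (by decide +kernel) ?_
    refine jn 668 (by decide +kernel) ?_
    refine jn 678 (by decide +kernel) ?_
    refine jn 690 (by decide +kernel) ?_
    refine jn 701 (by decide +kernel) ?_
    refine jn 712 (by decide +kernel) ?_
    refine jn 719 (by decide +kernel) ?_
    refine jn 729 (by decide +kernel) ?_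
    refine jn 770 (by decide +kernel) ?_
    refine jn 781 (by decide +kernel) ?_
    refine jn 792 (by decide +kernel) ?_
    refine jn 796 (by decide +kernel) ?_
    refine jn 800 (by decide +kernel) ?_
    refine jn 804 (by decide +kernel) ?_
    refine jn 807 (by decide +kernel) ?_
    refine jn 810 (by decide +kernel) ?_
    refine jn 824 (by decide +kernel) ?_
    refine jn 830 (by decide +kernel) ?_
    refine jn 833 (by decide +kernel) ?_
    refine jn 840 (by decide +kernel) ?_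
    refine jn 854 (by decide +kernel) ?_
    refine jn 868 (by decide +kernel) ?_
    refine jn 876 (by decide +kernel) ?_
    refine jn 883 (by decide +kernel) ?_
    refine jn 891 (by decide +kernel) ?_
    refine jn 921 (by decide +kernel) ?_
    refine jn 929 (by decide +kernel) ?_
    refine jn 931 (by decide +kernel) ?_
    refine jn 933 (by decide +kernel) ?_
    refine jn 935 (by decide +kernel) ?_
    refine jn 943 (by decide +kernel) ?_
    refine jn 948 (by decide +kernel) ?_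
    refine jn 951 (by decide +kernel) ?_
    refine jn 963 (by decide +kernel) ?_
    refine jn 971 (by decide +kernel) ?_
    refine jn 978 (by decide +kernel) ?_
    refine jn 992 (by decide +kernel) ?_
    refine jn 1008 (by decide +kernel) ?_
    refine jn 1014 (by decide +kernel) ?_
    refine jn 1016 (by decide +kernel) ?_
    refine jn 1023 (by decide +kernel) ?_
    refine jn 1032 (by decide +kernel) ?_
    refine jn 1045 (by decide +kernel) ?_
    refine jn 1046 (by decide +kernel) ?_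
    refine jn 1047 (by decide +kernel) ?_
    refine jn 1048 (by decide +kernel) ?_
    refine jn 1049 (by decide +kernel) ?_
    refine jn 1050 (by decide +kernel) ?_
    refine jn 1051 (by decide +kernel) ?_
    refine jn 1052 (by decide +kernel) ?_
    refine jn 1053 (by decide +kernel) ?_
    refine jn 1054 (by decide +kernel) ?_
    refine jn 1055 (by decide +kernel) ?_
    refine jn 1056 (by decide +kernel) ?_
    refine jn 1060 (by decide +kernel) ?_
    refine jn 1064 (by decide +kernel) ?_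
    refine jn 1067 (by decide +kernel) ?_
    refine jn 1074 (by decide +kernel) ?_
    refine jn 1077 (by decide +kernel) ?_
    exact je (by decide +kernel)
  · refine fin 312 863 T26_2 ?_
    refine jn 4 (by decide +kernel) ?_
    refine jn 5 (by decide +kernel) ?_
    refine jn 6 (by decide +kernel) ?_
    refine jn 7 (by decide +kernel) ?_
    refine jn 8 (by decide +kernel) ?_
    refine jn 9 (by decide +kernel) ?_
    refine jn 10 (by decide +kernel) ?_
    refine jn 12 (by decide +kernel) ?_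
    refine jn 20 (by decide +kernel) ?_
    refine jn 21 (by decide +kernel) ?_
    refine jn 22 (by decide +kernel) ?_
    refine jn 23 (by decide +kernel) ?_
    refine jn 24 (by decide +kernel) ?_
    refine jn 25 (by decide +kernel) ?_
    refine jn 35 (by decide +kernel) ?_
    refine jn 36 (by decide +kernel) ?_
    refine jn 37 (by decide +kernel) ?_
    refine jn 38 (by decide +kernel) ?_
    refine jn 44 (by decide +kernel) ?_
    refine jn 45 (by decide +kernel) ?_
    refine jn 46 (by decide +kernel) ?_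
    refine jn 51 (by decide +kernel) ?_
    refine jn 52 (by decide +kernel) ?_
    refine jn 53 (by decide +kernel) ?_
    refine jn 66 (by decide +kernel) ?_
    refine jn 71 (by decide +kernel) ?_
    refine jn 73 (by decide +kernel) ?_
    refine jn 85 (by decide +kernel) ?_
    refine jn 97 (by decide +kernel) ?_
    refine jn 116 (by decide +kernel) ?_
    refine jn 139 (by decide +kernel) ?_
    refine jn 153 (by decide +kernel) ?_
    refine jn 180 (by decide +kernel) ?_
    refine jn 212 (by decide +kernel) ?_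
    refine jn 243 (by decide +kernel) ?_
    refine jn 281 (by decide +kernel) ?_
    refine jn 446 (by decide +kernel) ?_
    refine jn 779 (by decide +kernel) ?_
    exact je (by decide +kernel)

end Pool.Agent.MP_2339ce_nt.NR
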