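import Pool.Agent.MP_2339ce_nt.Q2.NC.L1
import Pool.Agent.MP_2339ce_nt.Q2.NC.L6
import Pool.Agent.MP_2339ce_nt.Q2.NC.L10
import Pool.Agent.MP_2339ce_nt.Q2.CkI

/-! Block NR: runs. -/

set_option autoImplicit false
set_option maxRecDepth 100000

noncomputable section

namespace Pool.Agent.MP_2339ce_nt.NR

open Q2.Top

def T28_0 : Ph :=
  (.na 790 148 (.na 459 84 (.na 252 51 (.na 138 36 (.na 62 30 (.na 21 28 (.na 20 27 (.nx 19 1321124
  (.nr 18 1048577 (.nr 1 23 .s1 (.nx 4 112 (.nx 3 111 (.nr 2 202 (.lg 0 false 1 19 19 16 0 26640)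
  (.l1 .sk)) (.l1 .sk)) (.nx 10 16385 (.nx 5 205 (.l1 (.ls 79 29 1182)) (.nr 9 185365 (.lg 0 false
  4 89 89 16 0 26640) .out)) (.nr 17 38969 (.nr 14 513 (.lg 0 true 4 71 71 16 0 8880) (.nx 16 82572
  (.lg 2 true 2 83 83 16 14694 26640) .out)) .out)))) .out) .out) (.lg 0 false 1 0 0 7 0 24)) (.na
  42 29 (.nx 41 1321124 (.nr 40 1048577 (.nr 22 26 .s1 (.nx 26 205 (.nx 24 111 (.nr 23 217 (.l1
  (.ls 29 31 443)) (.l1 .sk)) (.nx 25 112 (.l1 .sk) (.l1 (.ls 89 37 1055)))) (.nr 39 185365 (.nx 29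
  10323 (.lg 0 false 3 97 97 19 0 186480) (.nr 38 55110 (.nr 34 513 (.nx 31 330282 (.lg 0 true 2 73
  73 19 0 12432) (.nr 33 129 (.lg 0 true 2 71 71 19 0 12432) .out)) (.nx 37 82572 (.nx 35 26009
  (.lg 1 true 1 97 97 13 32957 186480) (.nr 36 32769 (.lg 1 false 1 97 97 13 8934 186480) .out))
  .out)) .out)) .out))) .out) .out) (.nx 61 1321124 (.nr 60 1048577 (.nr 43 28 .s1 (.nx 47 205 (.nx
  45 111 (.nr 44 224 (.lg 0 false 1 19 19 13 0 186480) (.l1 .sk)) (.nx 46 112 (.l1 .sk) (.l1 (.ls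
  83 23 1019)))) (.nr 59 185365 (.nx 51 16385 (.lg 0 false 4 97 97 16 0 186480) (.nr 58 38969 (.nr
  55 513 (.lg 0 true 4 73 73 16 0 1776) (.nx 57 82572 (.lg 2 true 2 89 89 16 14694 186480) .out))
  .out)) .out))) .out) .out))) (.na 100 33 (.na 81 32 (.nx 80 1321124 (.nr 79 1048577 (.nr 63 29
  .s1 (.nx 66 112 (.nx 65 111 (.nr 64 239 (.l1 (.ls 19 37 413)) (.l1 .sk)) (.l1 .sk)) (.nx 71 16385
  (.nx 67 205 (.l1 (.ls 83 41 985)) (.nr 70 185365 (.lg 0 false 3 89 89 23 0 26640) .out)) (.nr 78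
  38969 (.nr 75 513 (.lg 0 true 4 73 73 23 0 26640) (.nx 77 82572 (.lg 2 true 2 83 83 19 14694
  26640) .out)) .out)))) .out) .out) (.nx 99 1321124 (.nr 98 1048577 (.nr 82 31 .s1 (.nx 85 112
  (.nx 84 111 (.nr 83 247 (.l1 (.ls 23 29 388)) (.l1 .sk)) (.l1 .sk)) (.nx 86 205 (.l1 (.ls 83 31
  924)) (.nr 97 370729 (.nx 91 16385 (.nr 88 92683 (.lg 0 false 2 89 89 13 0 26640) (.nx 90 6503
  (.lg 0 false 2 89 97 13 0 26640) .out)) (.nr 96 38969 (.nr 94 513 (.lg 0 true 3 79 79 19 0 5328)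
  (.nx 95 82572 (.lg 2 true 1 89 89 13 14694 26640) .out)) .out)) .out)))) .out) .out)) (.na 101 34
  .ne (.na 119 35 (.nx 118 1321124 (.nr 117 370729 (.nr 102 33 .s1 (.nx 104 111 (.nr 103 262 (.lg 0
  false 1 19 19 13 0 186480) (.l1 .sk)) (.nx 105 112 (.l1 .sk) (.nx 110 13005 (.lg 0 false 5 97 97
  13 0 186480) (.nr 116 23172 (.nr 114 262 (.lg 0 true 4 71 71 13 0 1776) (.nx 115 82572 (.lg 2
  true 1 83 83 13 17492 1776) .out)) .out))))) .out) .out) (.nx 137 1321124 (.nr 136 370729 (.nr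
  120 34 .s1 (.nx 123 112 (.nx 122 111 (.nr 121 269 (.l1 (.ls 29 23 355)) (.l1 .sk)) (.l1 .sk))
  (.nx 127 8193 (.lg 0 false 4 89 97 19 0 186480) (.nr 135 55110 (.nr 131 269 (.lg 0 true 4 73 73
  19 0 62160) (.nx 134 82572 (.nr 132 23172 (.lg 2 true 1 83 83 16 17509 31080) (.nx 133 13005 (.lg
  0 false 1 79 79 16 0 31080) .out)) .out)) .out)))) .out) .out))))) (.na 191 45 (.na 157 40 (.na
  139 37 (.lg 0 false 1 0 0 7 0 24) (.nx 156 1321124 (.nr 155 370729 (.nr 140 36 .s1 (.nx 142 111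
  (.nr 141 299 (.lg 0 true 1 0 16 13 0 186480) (.l1 .sk)) (.nx 143 112 (.l1 .sk) (.nx 147 13005
  (.lg 0 true 4 79 79 16 0 1776) (.nr 154 23172 (.nr 151 299 (.lg 0 true 4 61 61 16 0 1776) (.nx
  153 82572 (.lg 2 true 2 71 71 16 15327 1776) .out)) .out))))) .out) .out)) (.na 173 42 (.nx 172
  1321124 (.nr 171 370729 (.nr 158 39 .s1 (.nx 168 82572 (.nx 160 111 (.nr 159 314 (.l1 (.ls 31 29
  311)) (.l1 .sk)) (.nx 161 112 (.l1 .sk) (.nr 165 77937 (.nx 162 13005 (.lg 0 true 1 89 89 19 0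
  8880) (.nr 164 23172 (.nr 163 5353 (.lg 0 true 1 83 83 19 0 8880) (.lg 2 false 1 89 89 19 11030
  186480)) .out)) (.nx 167 6503 (.lg 0 false 2 97 101 23 0 186480) .out)))) (.nr 170 217 (.lg 0
  true 2 73 73 23 0 8880) .out))) .out) .out) (.nx 190 1321124 (.nr 189 370729 (.nr 174 41 .s1 (.nx
  177 112 (.nx 176 111 (.nr 175 336 (.l1 (.ls 23 37 296)) (.l1 .sk)) (.l1 .sk)) (.nx 182 13005 (.lg
  0 false 5 89 89 29 0 186480) (.nr 188 23172 (.nr 186 336 (.lg 0 true 4 71 71 29 0 37296) (.nx 187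
  82572 (.lg 2 true 1 79 79 19 13640 37296) .out)) .out)))) .out) .out))) (.na 208 48 (.na 192 46
  (.lg 0 false 1 0 0 16 0 24) (.nx 207 1321124 (.nr 206 311745 (.nr 193 45 .s1 (.nx 199 10323 (.nx
  195 111 (.nr 194 359 (.l1 (.ls 19 29 270)) (.l1 .sk)) (.nx 196 112 (.l1 .sk) (.lg 0 false 3 89 89
  13 0 26640))) (.nr 205 23172 (.nr 203 359 (.lg 0 true 4 71 71 19 0 1776) (.nx 204 82572 (.lg 2
  true 1 79 79 13 13896 1776) .out)) .out))) .out) .out)) (.na 221 49 (.nx 220 1321124 (.nr 219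
  311745 (.nr 209 47 .s1 (.nx 212 112 (.nx 211 111 (.nr 210 366 (.l1 (.ls 29 31 259)) (.l1 .sk))
  (.l1 .sk)) (.nx 214 10323 (.lg 0 false 2 97 97 23 0 186480) (.nr 218 23172 (.nr 216 366 (.lg 0
  true 2 73 73 23 0 5328) (.nx 217 82572 (.lg 2 true 1 83 83 19 13896 186480) .out)) .out)))) .out)
  .out) (.na 238 50 (.nx 237 1321124 (.nr 236 311745 (.nr 222 48 .s1 (.nx 229 10323 (.nx 224 111
  (.nr 223 374 (.l1 (.ls 17 19 254)) (.l1 .sk)) (.nx 225 112 (.l1 .sk) (.lg 0 false 4 83 83 16 0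
  186480))) (.nr 235 23172 (.nr 233 374 (.lg 0 true 4 67 67 16 0 12432) (.nx 234 82572 (.lg 2 true
  1 73 73 16 13896 6216) .out)) .out))) .out) .out) (.nx 251 1321124 (.nr 250 311745 (.nr 239 49
  .s1 (.nx 244 10323 (.nx 241 111 (.nr 240 381 (.l1 (.ls 19 29 249)) (.l1 .sk)) (.nx 242 112 (.l1
  .sk) (.lg 0 true 2 89 89 19 0 186480))) (.nr 249 23172 (.nr 247 381 (.lg 0 true 3 71 71 19 0
  26640) (.nx 248 82572 (.lg 2 true 1 73 73 13 13896 8880) .out)) .out))) .out) .out)))))) (.na 341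
  67 (.na 297 59 (.na 270 56 (.na 269 54 (.nx 268 1321124 (.nr 267 311745 (.nr 253 50 .s1 (.nx 260
  10323 (.nx 255 111 (.nr 254 404 (.l1 (.ls 16 23 244)) (.l1 .sk)) (.nx 256 112 (.l1 .sk) (.lg 0
  false 4 83 83 16 0 5328))) (.nr 266 23172 (.nr 264 404 (.lg 0 true 4 71 71 16 0 5328) (.nx 265
  82572 (.lg 2 true 1 79 79 16 13896 2664) .out)) .out))) .out) .out) (.lg 0 false 1 0 0 16 0 24))
  (.na 283 58 (.nx 282 1321124 (.nr 281 311745 (.nr 271 56 .s1 (.nx 273 111 (.nr 272 433 (.l1 (.ls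
  31 29 223)) (.l1 .sk)) (.nx 274 112 (.l1 .sk) (.nx 279 82572 (.nx 277 20644 (.nr 275 46342 (.lg 0
  true 1 83 83 23 0 12432) (.nx 276 8193 (.lg 0 false 1 101 101 23 0 186480) .out)) (.nr 278 13779
  (.lg 0 true 1 97 97 23 0 186480) .out)) (.nr 280 217 (.lg 0 true 1 73 73 23 0 12432) .out)))))
  .out) .out) (.nx 296 1321124 (.nr 295 311745 (.nr 284 58 .s1 (.nx 289 10323 (.nx 286 111 (.nr 285
  441 (.l1 (.ls 17 23 215)) (.l1 .sk)) (.nx 287 112 (.l1 .sk) (.lg 0 false 2 83 83 13 0 1776)))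
  (.nr 294 23172 (.nr 292 441 (.lg 0 true 3 71 71 19 0 5328) (.nx 293 82572 (.lg 2 true 1 73 73 13
  13896 1776) .out)) .out))) .out) .out))) (.na 326 63 (.na 313 60 (.nx 312 1321124 (.nr 311 311745
  (.nr 298 59 .s1 (.nx 305 10323 (.nx 300 111 (.nr 299 448 (.l1 (.ls 17 17 211)) (.l1 .sk)) (.nx
  301 112 (.l1 .sk) (.lg 0 false 4 83 83 16 0 26640))) (.nr 310 23172 (.nr 308 448 (.lg 0 true 3 71
  71 16 0 2664) (.nx 309 82572 (.lg 2 true 1 73 73 16 13896 888) .out)) .out))) .out) .out) (.nx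
  325 1321124 (.nr 324 311745 (.nr 314 60 .s1 (.nx 316 111 (.nr 315 471 (.l1 (.ls 23 31 208)) (.l1
  .sk)) (.nx 317 112 (.l1 .sk) (.nx 319 10323 (.lg 0 false 2 89 89 29 0 26640) (.nr 323 23172 (.nx
  320 82572 (.lg 0 false 1 89 89 23 0 26640) (.nr 322 217 (.lg 0 true 2 67 67 29 0 26640) .out))
  .out))))) .out) .out)) (.na 327 64 (.lg 0 false 1 0 0 16 0 24) (.na 340 65 (.nx 339 1321124 (.nr
  338 524289 (.nr 328 64 .s1 (.nx 331 112 (.nx 330 111 (.nr 329 486 (.l1 (.ls 23 23 195)) (.l1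
  .sk)) (.l1 .sk)) (.nx 333 10323 (.lg 0 false 2 97 97 19 0 186480) (.nr 337 23172 (.nr 335 513
  (.lg 0 true 2 73 73 19 0 1776) (.nx 336 82572 (.lg 2 false 1 73 73 17 13896 1776) .out)) .out))))
  .out) .out) .ne)))) (.na 400 73 (.na 370 69 (.na 357 68 (.nx 356 1321124 (.nr 355 524289 (.nr 342
  67 .s1 (.nx 344 111 (.nr 343 508 (.l1 (.ls 16 17 186)) (.l1 .sk)) (.nx 345 112 (.l1 .sk) (.nx 349
  8193 (.lg 0 false 4 79 79 16 0 1776) (.nr 354 8193 (.nr 352 513 (.lg 0 true 3 61 61 16 0 2664)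
  (.nx 353 82572 (.lg 2 false 1 59 59 16 8934 888) .out)) .out))))) .out) .out) (.nx 369 1321124
  (.nr 368 524289 (.nr 358 68 .s1 (.nx 361 112 (.nx 360 111 (.nr 359 516 (.l1 (.ls 16 29 184)) (.l1
  .sk)) (.l1 .sk)) (.nx 363 8193 (.lg 0 false 2 89 89 23 0 1776) (.nr 367 8193 (.nr 365 513 (.lg 0
  true 2 73 73 23 0 1776) (.nx 366 82572 (.lg 2 false 1 67 67 13 8934 1776) .out)) .out)))) .out)
  .out)) (.na 386 70 (.nx 385 1321124 (.nr 384 524289 (.nr 371 69 .s1 (.nx 378 8193 (.nx 373 111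
  (.nr 372 523 (.l1 (.ls 17 19 181)) (.l1 .sk)) (.nx 374 112 (.l1 .sk) (.lg 0 false 4 83 83 17 0
  5328))) (.nr 383 8193 (.nr 381 513 (.lg 0 true 3 71 71 17 0 2664) (.nx 382 82572 (.lg 2 false 1
  67 67 16 8934 2664) .out)) .out))) .out) .out) (.na 399 72 (.nx 398 1321124 (.nr 397 524289 (.nr
  387 70 .s1 (.nx 390 112 (.nx 389 111 (.nr 388 538 (.l1 (.ls 29 31 179)) (.l1 .sk)) (.l1 .sk))
  (.nx 392 8193 (.lg 0 false 2 89 89 29 0 62160) (.nr 396 8193 (.nr 394 513 (.lg 0 true 2 73 73 29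
  0 62160) (.nx 395 82572 (.lg 2 true 1 67 67 23 8934 62160) .out)) .out)))) .out) .out) (.lg 0
  false 1 0 0 16 0 24)))) (.na 431 75 (.na 415 74 (.nx 414 1321124 (.nr 413 524289 (.nr 401 73 .s1
  (.nx 403 111 (.nr 402 553 (.l1 (.ls 16 17 171)) (.l1 .sk)) (.nx 404 112 (.l1 .sk) (.nx 408 8193
  (.lg 0 false 4 71 79 16 0 1776) (.nr 412 8193 (.nr 410 513 (.lg 0 true 2 61 61 16 0 1776) (.nx
  411 82572 (.lg 2 false 1 59 59 16 8934 888) .out)) .out))))) .out) .out) (.nx 430 1321124 (.nr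
  429 524289 (.nr 416 74 .s1 (.nx 419 112 (.nx 418 111 (.nr 417 560 (.lg 0 false 1 0 16 13 0
  2424240) (.l1 .sk)) (.l1 .sk)) (.nr 426 8193 (.lg 0 true 7 73 73 19 0 12432) (.nx 428 8193 (.lg 0
  true 2 73 73 13 0 1776) .out)))) .out) .out)) (.na 447 80 (.nx 446 1321124 (.nr 445 524289 (.nr
  432 75 .s1 (.nx 439 8193 (.nx 434 111 (.nr 433 598 (.l1 (.ls 17 23 167)) (.l1 .sk)) (.nx 435 112
  (.l1 .sk) (.lg 0 false 4 79 79 19 0 26640))) (.nr 444 8193 (.nr 442 598 (.lg 0 true 3 67 67 19 0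
  13320) (.nx 443 82572 (.lg 2 false 1 59 59 17 7664 13320) .out)) .out))) .out) .out) (.na 458 81
  (.nx 457 1321124 (.nr 456 524289 (.nr 448 80 .s1 (.nx 454 82572 (.nx 450 111 (.nr 449 605 (.l1
  (.ls 29 29 157)) (.l1 .sk)) (.nx 451 112 (.l1 .sk) (.nx 452 8193 (.lg 0 false 1 89 89 23 0 8880)
  (.nr 453 8193 (.lg 0 true 1 83 83 23 0 26640) .out)))) (.nr 455 513 (.lg 0 true 1 73 73 23 0
  8880) .out))) .out) .out) (.lg 0 false 1 0 0 16 0 24))))))) (.na 654 119 (.na 549 100 (.na 509 90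
  (.na 485 87 (.na 472 85 (.nx 471 1321124 (.nr 470 524289 (.nr 460 84 .s1 (.nx 465 8193 (.nx 462
  111 (.nr 461 635 (.l1 (.ls 29 31 149)) (.l1 .sk)) (.nx 463 112 (.l1 .sk) (.lg 0 false 2 89 89 31
  0 186480))) (.nr 469 8193 (.nr 467 513 (.lg 0 true 2 73 73 31 0 37296) (.nx 468 82572 (.lg 2 true
  1 67 67 29 8934 37296) .out)) .out))) .out) .out) (.nx 484 1321124 (.nr 483 524289 (.nr 473 85
  .s1 (.nx 476 112 (.nx 475 111 (.nr 474 650 (.l1 (.ls 16 19 147)) (.l1 .sk)) (.l1 .sk)) (.nx 478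
  8193 (.lg 0 false 2 89 89 16 0 8880) (.nr 482 8193 (.nr 480 513 (.lg 0 true 2 73 73 16 0 8880)
  (.nx 481 82572 (.lg 2 true 1 67 67 16 8934 4440) .out)) .out)))) .out) .out)) (.na 496 89 (.nx
  495 1321124 (.nr 494 524289 (.nr 486 87 .s1 (.nx 488 111 (.nr 487 665 (.l1 (.ls 17 19 144)) (.l1
  .sk)) (.nx 489 112 (.l1 .sk) (.nx 490 8193 (.lg 0 true 1 89 89 16 0 2664) (.nr 493 8193 (.nr 491
  513 (.lg 0 false 1 73 73 16 0 2664) (.nx 492 82572 (.lg 2 true 1 61 61 16 8934 26640) .out))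
  .out))))) .out) .out) (.nx 508 1321124 (.nr 507 524289 (.nr 497 89 .s1 (.nx 499 111 (.nr 498 672
  (.l1 (.ls 17 16 141)) (.l1 .sk)) (.nx 500 112 (.l1 .sk) (.nx 502 8193 (.lg 0 false 2 79 79 16 0
  1776) (.nr 506 8193 (.nr 504 513 (.lg 0 true 2 61 61 16 0 1776) (.nx 505 82572 (.lg 2 false 1 59
  59 16 8934 888) .out)) .out))))) .out) .out))) (.na 511 92 (.na 510 91 (.lg 0 false 1 0 0 16 0
  24) .ne) (.na 524 96 (.nx 523 1321124 (.nr 522 524289 (.nr 512 92 .s1 (.nx 514 111 (.nr 513 717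
  (.l1 (.ls 19 19 136)) (.l1 .sk)) (.nx 515 112 (.l1 .sk) (.nx 517 8193 (.lg 0 false 2 89 89 19 0
  1776) (.nr 521 8193 (.nr 519 513 (.lg 0 true 2 71 71 19 0 1776) (.nx 520 82572 (.lg 2 false 1 67
  67 19 8934 1776) .out)) .out))))) .out) .out) (.na 537 98 (.nx 536 1321124 (.nr 535 524289 (.nr
  525 96 .s1 (.nx 530 8193 (.nx 527 111 (.nr 526 732 (.l1 (.ls 23 29 131)) (.l1 .sk)) (.nx 528 112
  (.l1 .sk) (.lg 0 false 2 83 83 29 0 5328))) (.nr 534 8193 (.nr 532 513 (.lg 0 true 2 67 67 29 0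
  5328) (.nx 533 82572 (.lg 2 true 1 61 61 23 8934 5328) .out)) .out))) .out) .out) (.nx 548
  1321124 (.nr 547 524289 (.nr 538 98 .s1 (.nx 541 112 (.nx 540 111 (.nr 539 747 (.l1 (.ls 19 23
  128)) (.l1 .sk)) (.l1 .sk)) (.nx 542 8193 (.lg 0 true 1 83 83 19 0 12432) (.nr 546 8193 (.nr 544
  513 (.lg 0 true 2 61 61 23 0 12432) (.nx 545 82572 (.lg 2 false 1 59 59 19 8934 12432) .out))
  .out)))) .out) .out))))) (.na 599 112 (.na 573 105 (.na 562 102 (.nx 561 1321124 (.nr 560 524289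
  (.nr 550 100 .s1 (.nx 553 112 (.nx 552 111 (.nr 551 762 (.l1 (.ls 23 23 126)) (.l1 .sk)) (.l1
  .sk)) (.nx 555 8193 (.lg 0 false 2 83 83 29 0 8880) (.nr 559 8193 (.nr 557 513 (.lg 0 true 2 71
  71 29 0 8880) (.nx 558 82572 (.lg 2 false 1 61 61 23 8934 8880) .out)) .out)))) .out) .out) (.nx
  572 1321124 (.nr 571 524289 (.nr 563 102 .s1 (.nx 566 112 (.nx 565 111 (.nr 564 784 (.l1 (.ls 16
  31 123)) (.l1 .sk)) (.l1 .sk)) (.nx 567 8193 (.lg 0 true 1 89 89 29 0 26640) (.nr 570 8193 (.nr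
  568 513 (.lg 0 false 1 73 73 29 0 26640) (.nx 569 82572 (.lg 2 true 1 59 59 29 8934 5328) .out))
  .out)))) .out) .out)) (.na 585 108 (.nx 584 1321124 (.nr 583 524289 (.nr 574 105 .s1 (.nx 578
  8193 (.nx 576 111 (.nr 575 807 (.l1 (.ls 23 23 120)) (.l1 .sk)) (.nx 577 112 (.l1 .sk) (.lg 0
  true 1 89 89 23 0 186480))) (.nr 582 8193 (.nr 580 513 (.lg 0 true 2 71 71 29 0 186480) (.nx 581
  82572 (.lg 2 true 1 61 61 23 8934 93240) .out)) .out))) .out) .out) (.na 586 111 (.lg 0 false 1 0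
  0 16 0 24) (.nx 598 1321124 (.nr 597 524289 (.nr 587 111 .s1 (.nx 589 111 (.nr 588 837 (.l1 (.ls
  16 19 113)) (.l1 .sk)) (.nx 590 112 (.l1 .sk) (.nr 594 8193 (.lg 0 false 4 73 73 17 0 186480)
  (.nx 596 8193 (.lg 0 true 2 73 73 17 0 5328) .out))))) .out) .out)))) (.na 621 115 (.na 610 113
  (.nx 609 1321124 (.nr 608 524289 (.nr 600 112 .s1 (.nx 606 82572 (.nx 602 111 (.nr 601 844 (.l1
  (.ls 31 23 113)) (.l1 .sk)) (.nx 603 112 (.l1 .sk) (.nx 604 8193 (.lg 0 false 1 89 89 29 0 12432)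
  (.nr 605 8193 (.lg 0 true 1 79 79 29 0 12432) .out)))) (.nr 607 513 (.lg 0 true 1 73 73 29 0
  12432) .out))) .out) .out) (.nx 620 1321124 (.nr 619 524289 (.nr 611 113 .s1 (.nx 614 112 (.nx
  613 111 (.nr 612 859 (.l1 (.ls 17 16 112)) (.l1 .sk)) (.l1 .sk)) (.nx 615 8193 (.lg 0 true 1 83
  83 16 0 186480) (.nr 618 8193 (.nr 616 513 (.lg 2 false 1 61 61 16 648871 888) (.nx 617 82572
  (.lg 2 false 1 53 53 16 8934 888) .out)) .out)))) .out) .out)) (.na 632 116 (.nx 631 1321124 (.nr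
  630 524289 (.nr 622 115 .s1 (.nx 626 8193 (.nx 624 111 (.nr 623 867 (.l1 (.ls 19 17 110)) (.l1
  .sk)) (.nx 625 112 (.l1 .sk) (.lg 0 false 1 83 83 17 0 4440))) (.nr 629 8193 (.nr 627 513 (.lg 2
  true 1 67 67 17 637586 4440) (.nx 628 82572 (.lg 2 true 1 61 61 17 8934 4440) .out)) .out)))
  .out) .out) (.na 643 118 (.nx 642 1321124 (.nr 641 524289 (.nr 633 116 .s1 (.nx 635 111 (.nr 634
  882 (.l1 (.ls 19 19 109)) (.l1 .sk)) (.nx 636 112 (.l1 .sk) (.nx 637 8193 (.lg 0 true 1 89 89 19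
  0 26640) (.nr 640 8193 (.nr 638 513 (.lg 2 true 1 61 61 19 632090 1776) (.nx 639 82572 (.lg 2
  true 1 61 61 19 8934 1776) .out)) .out))))) .out) .out) (.nx 653 1321124 (.nr 652 524289 (.nr 644
  118 .s1 (.nx 648 8193 (.nx 646 111 (.nr 645 889 (.l1 (.ls 17 19 107)) (.l1 .sk)) (.nx 647 112
  (.l1 .sk) (.lg 0 true 1 83 83 19 0 1776))) (.nr 651 8193 (.nr 649 513 (.lg 2 false 1 67 67 19
  621377 1776) (.nx 650 82572 (.lg 2 true 1 59 59 19 8934 1776) .out)) .out))) .out) .out))))))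
  (.na 727 135 (.na 688 127 (.na 676 125 (.na 665 120 (.nx 664 1321124 (.nr 663 524289 (.nr 655 119
  .s1 (.nx 659 8193 (.nx 657 111 (.nr 656 896 (.l1 (.ls 16 16 106)) (.l1 .sk)) (.nx 658 112 (.l1
  .sk) (.lg 0 true 1 97 97 16 0 186480))) (.nr 662 8193 (.nr 660 513 (.lg 2 true 1 67 67 16 616155
  6216) (.nx 661 82572 (.lg 2 false 1 61 61 16 8934 6216) .out)) .out))) .out) .out) (.nx 675
  1321124 (.nr 674 524289 (.nr 666 120 .s1 (.nx 672 82572 (.nx 670 8193 (.nx 668 111 (.nr 667 934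
  (.l1 (.ls 31 29 105)) (.l1 .sk)) (.nx 669 112 (.l1 .sk) (.lg 0 false 1 89 89 31 0 26640))) (.nr
  671 8193 (.lg 0 true 1 79 83 31 0 186480) .out)) (.nr 673 513 (.lg 0 true 1 73 73 31 0 26640)
  .out))) .out) .out)) (.na 687 126 (.nx 686 1321124 (.nr 685 524289 (.nr 677 125 .s1 (.nx 679 111
  (.nr 678 941 (.l1 (.ls 17 17 101)) (.l1 .sk)) (.nx 680 112 (.l1 .sk) (.nx 681 8193 (.lg 0 true 1
  79 79 16 0 4440) (.nr 684 8193 (.nr 682 513 (.lg 2 false 1 61 61 16 586580 4440) (.nx 683 82572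
  (.lg 2 false 1 53 53 16 8934 4440) .out)) .out))))) .out) .out) (.lg 0 false 1 0 0 16 0 24)))
  (.na 710 129 (.na 699 128 (.nx 698 1321124 (.nr 697 524289 (.nr 689 127 .s1 (.nx 692 112 (.nx 691
  111 (.nr 690 956 (.l1 (.ls 16 16 100)) (.l1 .sk)) (.l1 .sk)) (.nx 693 8193 (.lg 0 true 1 83 83 16
  0 186480) (.nr 696 8193 (.nr 694 513 (.lg 2 false 1 59 59 16 577342 888) (.nx 695 82572 (.lg 2
  false 1 47 47 16 8934 888) .out)) .out)))) .out) .out) (.nx 709 1321124 (.nr 708 1048577 (.nr 700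
  128 .s1 (.nx 703 8193 (.nx 701 205 (.l1 (.ls 73 29 331)) (.nr 702 524289 (.lg 0 false 1 79 79 19
  0 1776) .out)) (.nr 707 8193 (.nr 705 1025 (.lg 0 true 2 71 71 23 0 1776) (.nx 706 82572 (.lg 2
  true 1 59 59 19 6245 1776) .out)) .out))) .out) .out)) (.na 711 131 .ne (.na 719 134 (.nx 718
  660563 (.nr 717 1048577 (.nr 712 131 .s1 (.nx 713 205 (.l1 (.ls 89 19 323)) (.nr 716 524289 (.nr
  714 8193 (.lg 0 false 1 79 79 16 0 888) (.nx 715 6503 (.lg 0 true 1 73 73 16 0 888) .out))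
  .out))) .out) .out) (.nx 726 660563 (.nr 725 1048577 (.nr 720 134 .s1 (.nx 721 205 (.l1 (.ls 61
  29 316)) (.nr 724 524289 (.nr 722 8193 (.lg 0 false 1 89 89 19 0 1776) (.nx 723 6503 (.lg 0 true
  1 83 83 19 0 1776) .out)) .out))) .out) .out))))) (.na 755 140 (.na 738 137 (.na 728 136 (.lg 0
  false 1 0 0 16 0 24) (.nx 737 660563 (.nr 736 1048577 (.nr 729 136 .s1 (.nx 730 205 (.l1 (.ls 83
  31 312)) (.nr 735 524289 (.nx 731 6503 (.lg 0 false 1 89 89 29 0 1776) (.nr 734 8193 (.nx 732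
  82572 (.lg 0 true 1 79 83 29 0 26640) (.nr 733 1025 (.lg 0 true 1 73 73 29 0 1776) .out)) .out))
  .out))) .out) .out)) (.na 739 138 (.lg 0 false 1 0 0 16 0 24) (.na 747 139 (.nx 746 660563 (.nr
  745 1048577 (.nr 740 138 .s1 (.nx 741 205 (.l1 (.ls 73 37 307)) (.nr 744 524289 (.nr 742 8193
  (.lg 0 false 1 83 83 19 0 5328) (.nx 743 6503 (.lg 0 true 1 79 79 19 0 5328) .out)) .out))) .out)
  .out) (.nx 754 660563 (.nr 753 1048577 (.nr 748 139 .s1 (.nx 749 205 (.l1 (.ls 97 19 305)) (.nr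
  752 524289 (.nr 750 8193 (.lg 0 false 1 83 83 16 0 186480) (.nx 751 6503 (.lg 0 true 1 73 73 16 0
  888) .out)) .out))) .out) .out)))) (.na 766 145 (.na 765 144 (.nx 764 660563 (.nr 763 1048577
  (.nr 756 140 .s1 (.nx 759 6503 (.nx 757 205 (.l1 (.ls 79 31 303)) (.nr 758 524289 (.lg 0 false 1
  83 83 31 0 62160) .out)) (.nr 762 8193 (.nx 760 82572 (.lg 0 true 1 79 79 31 0 186480) (.nr 761
  1025 (.lg 0 true 1 73 73 31 0 62160) .out)) .out))) .out) .out) (.lg 0 false 1 0 0 16 0 24)) (.na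
  774 146 (.nx 773 660563 (.nr 772 1048577 (.nr 767 145 .s1 (.nx 768 205 (.l1 (.ls 79 19 292)) (.nr
  771 524289 (.nr 769 8193 (.lg 0 true 1 83 83 17 0 4440) (.nx 770 6503 (.lg 0 false 1 83 83 17 0
  4440) .out)) .out))) .out) .out) (.na 782 147 (.nx 781 660563 (.nr 780 1048577 (.nr 775 146 .s1
  (.nx 776 205 (.l1 (.ls 71 29 290)) (.nr 779 524289 (.nr 777 8193 (.lg 0 false 1 83 83 19 0 1776)
  (.nx 778 6503 (.lg 0 true 1 79 79 19 0 1776) .out)) .out))) .out) .out) (.nx 789 660563 (.nr 788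
  1048577 (.nr 783 147 .s1 (.nx 784 205 (.l1 (.ls 71 29 288)) (.nr 787 524289 (.nr 785 8193 (.lg 0
  false 1 79 79 19 0 18648) (.nx 786 6503 (.lg 0 true 1 79 79 19 0 18648) .out)) .out))) .out)
  .out)))))))) (.na 1009 216 (.na 899 179 (.na 841 163 (.na 815 153 (.na 799 150 (.na 798 149 (.nx
  797 660563 (.nr 796 1048577 (.nr 791 148 .s1 (.nx 792 205 (.l1 (.ls 79 29 286)) (.nr 795 524289
  (.nr 793 8193 (.lg 0 false 1 79 79 19 0 1776) (.nx 794 6503 (.lg 0 true 1 73 73 19 0 1776) .out))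
  .out))) .out) .out) (.lg 0 false 1 0 0 16 0 24)) (.na 807 151 (.nx 806 660563 (.nr 805 1048577
  (.nr 800 150 .s1 (.nx 801 205 (.l1 (.ls 71 37 283)) (.nr 804 524289 (.nr 802 8193 (.lg 0 false 1
  83 83 29 0 26640) (.nx 803 6503 (.lg 0 true 1 79 79 29 0 26640) .out)) .out))) .out) .out) (.nx
  814 660563 (.nr 813 1048577 (.nr 808 151 .s1 (.nx 809 205 (.l1 (.ls 79 17 281)) (.nr 812 524289
  (.nr 810 8193 (.lg 0 false 1 73 73 16 0 888) (.nx 811 6503 (.lg 0 true 1 71 71 16 0 888) .out))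
  .out))) .out) .out))) (.na 824 160 (.na 816 157 (.lg 0 false 1 0 0 16 0 24) (.nx 823 660563 (.nr
  822 1048577 (.nr 817 157 .s1 (.nx 818 205 (.l1 (.ls 79 17 270)) (.nr 821 524289 (.nr 819 8193
  (.lg 0 false 1 73 73 16 0 888) (.nx 820 6503 (.lg 0 true 1 71 71 16 0 888) .out)) .out))) .out)
  .out)) (.na 832 161 (.nx 831 660563 (.nr 830 1048577 (.nr 825 160 .s1 (.nx 826 205 (.l1 (.ls 79
  29 265)) (.nr 829 524289 (.nx 827 6503 (.lg 0 false 1 83 83 29 0 8880) (.nr 828 8193 (.lg 0 true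
  1 89 89 29 0 8880) .out)) .out))) .out) .out) (.na 840 162 (.nx 839 660563 (.nr 838 1048577 (.nr
  833 161 .s1 (.nx 834 205 (.l1 (.ls 79 19 264)) (.nr 837 524289 (.nr 835 8193 (.lg 0 false 1 89 89
  17 0 186480) (.nx 836 6503 (.lg 0 false 1 79 79 17 0 6216) .out)) .out))) .out) .out) (.lg 0
  false 1 0 0 16 0 24))))) (.na 866 173 (.na 850 168 (.na 842 167 (.lg 0 false 1 0 0 16 0 24) (.nx
  849 660563 (.nr 848 1048577 (.nr 843 167 .s1 (.nx 844 205 (.l1 (.ls 89 17 254)) (.nr 847 524289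
  (.nr 845 8193 (.lg 0 false 1 83 83 16 0 186480) (.nx 846 6503 (.lg 0 true 1 73 73 16 0 888)
  .out)) .out))) .out) .out)) (.na 858 170 (.nx 857 660563 (.nr 856 1048577 (.nr 851 168 .s1 (.nx
  852 205 (.l1 (.ls 79 37 253)) (.nr 855 524289 (.nr 853 8193 (.lg 0 true 1 89 89 37 0 186480) (.nx
  854 6503 (.lg 0 false 1 83 83 37 0 37296) .out)) .out))) .out) .out) (.nx 865 660563 (.nr 864
  1048577 (.nr 859 170 .s1 (.nx 860 205 (.l1 (.ls 73 31 250)) (.nr 863 524289 (.nr 861 8193 (.lg 0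
  false 1 83 83 31 0 8880) (.nx 862 6503 (.lg 0 false 1 79 79 31 0 8880) .out)) .out))) .out)
  .out))) (.na 875 175 (.na 867 174 (.lg 0 false 1 0 0 16 0 24) (.nx 874 660563 (.nr 873 1048577
  (.nr 868 174 .s1 (.nx 869 205 (.l1 (.ls 79 37 244)) (.nr 872 524289 (.nr 870 8193 (.lg 0 false 1
  83 83 23 0 5328) (.nx 871 6503 (.lg 0 true 1 79 79 23 0 5328) .out)) .out))) .out) .out)) (.na
  883 177 (.nx 882 660563 (.nr 881 1048577 (.nr 876 175 .s1 (.nx 877 205 (.l1 (.ls 73 23 243)) (.nr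
  880 524289 (.nr 878 8193 (.lg 0 true 1 79 79 19 0 31080) (.nx 879 6503 (.lg 0 false 1 73 73 19 0
  31080) .out)) .out))) .out) .out) (.na 891 178 (.nx 890 660563 (.nr 889 1048577 (.nr 884 177 .s1
  (.nx 885 205 (.l1 (.ls 53 23 240)) (.nr 888 524289 (.nr 886 8193 (.lg 0 false 1 79 79 17 0 2664)
  (.nx 887 6503 (.lg 0 true 1 73 73 17 0 2664) .out)) .out))) .out) .out) (.nx 898 660563 (.nr 897
  1048577 (.nr 892 178 .s1 (.nx 893 205 (.l1 (.ls 79 29 239)) (.nr 896 524289 (.nr 894 8193 (.lg 0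
  false 1 73 73 19 0 1776) (.nx 895 6503 (.lg 0 true 1 73 73 19 0 26640) .out)) .out))) .out)
  .out)))))) (.na 950 196 (.na 924 185 (.na 908 181 (.na 907 180 (.nx 906 660563 (.nr 905 1048577
  (.nr 900 179 .s1 (.nx 901 205 (.l1 (.ls 73 17 237)) (.nr 904 524289 (.nr 902 8193 (.lg 0 false 1
  71 71 16 0 888) (.nx 903 6503 (.lg 0 true 1 71 71 16 0 888) .out)) .out))) .out) .out) (.lg 0
  false 1 0 0 16 0 24)) (.na 916 184 (.nx 915 660563 (.nr 914 1048577 (.nr 909 181 .s1 (.nx 910 205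
  (.l1 (.ls 83 17 235)) (.nr 913 524289 (.nr 911 8193 (.lg 0 false 1 73 73 16 0 888) (.nx 912 6503
  (.lg 0 true 1 71 71 16 0 888) .out)) .out))) .out) .out) (.nx 923 660563 (.nr 922 1048577 (.nr
  917 184 .s1 (.nx 918 205 (.l1 (.ls 83 29 231)) (.nr 921 524289 (.nr 919 8193 (.lg 0 true 1 89 89
  31 0 1776) (.nx 920 6503 (.lg 0 false 1 83 83 31 0 1776) .out)) .out))) .out) .out))) (.na 933
  191 (.na 932 189 (.nx 931 660563 (.nr 930 1048577 (.nr 925 185 .s1 (.nx 926 205 (.l1 (.ls 67 19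
  230)) (.nr 929 524289 (.nr 927 8193 (.lg 0 false 1 73 73 17 0 4440) (.nx 928 6503 (.lg 0 true 1
  71 71 17 0 4440) .out)) .out))) .out) .out) (.lg 0 false 1 0 0 16 0 24)) (.na 941 192 (.nx 940
  660563 (.nr 939 1048577 (.nr 934 191 .s1 (.nx 935 205 (.l1 (.ls 83 17 223)) (.nr 938 524289 (.nr
  936 8193 (.lg 0 false 1 73 73 16 0 888) (.nx 937 6503 (.lg 0 true 1 71 71 16 0 888) .out))
  .out))) .out) .out) (.na 949 193 (.nx 948 660563 (.nr 947 1048577 (.nr 942 192 .s1 (.nx 943 205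
  (.l1 (.ls 71 31 221)) (.nr 946 524289 (.nr 944 8193 (.lg 0 true 1 73 73 29 0 5328) (.nx 945 6503
  (.lg 0 false 1 73 73 29 0 5328) .out)) .out))) .out) .out) (.lg 0 false 1 0 0 16 0 24))))) (.na
  976 203 (.na 959 199 (.na 958 197 (.nx 957 660563 (.nr 956 1048577 (.nr 951 196 .s1 (.nx 952 205
  (.l1 (.ls 73 29 217)) (.nr 955 524289 (.nx 953 6503 (.lg 0 false 1 73 73 29 0 12432) (.nr 954
  8193 (.lg 0 true 1 79 79 29 0 12432) .out)) .out))) .out) .out) (.lg 0 false 1 0 0 16 0 24)) (.na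
  960 200 (.lg 0 false 1 0 0 16 0 24) (.na 968 201 (.nx 967 660563 (.nr 966 1048577 (.nr 961 200
  .s1 (.nx 962 205 (.l1 (.ls 79 29 213)) (.nr 965 524289 (.nr 963 8193 (.lg 0 true 1 83 83 31 0
  8880) (.nx 964 6503 (.lg 0 false 1 83 83 31 0 26640) .out)) .out))) .out) .out) (.nx 975 660563
  (.nr 974 1048577 (.nr 969 201 .s1 (.nx 970 205 (.l1 (.ls 61 23 212)) (.nr 973 524289 (.nr 971
  8193 (.lg 0 false 1 79 79 19 0 2664) (.nx 972 6503 (.lg 0 true 1 73 73 19 0 2664) .out)) .out)))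
  .out) .out)))) (.na 992 207 (.na 984 204 (.nx 983 660563 (.nr 982 1048577 (.nr 977 203 .s1 (.nx
  978 205 (.l1 (.ls 73 19 210)) (.nr 981 524289 (.nr 979 8193 (.lg 0 true 1 79 79 19 0 6216) (.nx
  980 6503 (.lg 0 false 1 73 73 19 0 6216) .out)) .out))) .out) .out) (.nx 991 660563 (.nr 990
  1048577 (.nr 985 204 .s1 (.nx 986 205 (.l1 (.ls 79 37 209)) (.nr 989 524289 (.nr 987 8193 (.lg 0
  false 1 89 89 31 0 186480) (.nx 988 6503 (.lg 0 false 1 79 79 31 0 5328) .out)) .out))) .out)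
  .out)) (.na 993 210 (.lg 0 false 1 0 0 16 0 24) (.na 1001 211 (.nx 1000 660563 (.nr 999 1048577
  (.nr 994 210 .s1 (.nx 995 205 (.l1 (.ls 73 37 203)) (.nr 998 524289 (.nr 996 8193 (.lg 0 false 1
  83 83 37 0 186480) (.nx 997 6503 (.lg 0 false 1 79 79 37 0 186480) .out)) .out))) .out) .out)
  (.nx 1008 660563 (.nr 1007 1048577 (.nr 1002 211 .s1 (.nx 1003 205 (.l1 (.ls 79 17 202)) (.nr
  1006 524289 (.nr 1004 8193 (.lg 0 false 1 73 73 16 0 888) (.nx 1005 6503 (.lg 0 true 1 71 71 16 0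
  888) .out)) .out))) .out) .out))))))) (.na 1125 250 (.na 1066 230 (.na 1033 224 (.na 1018 222
  (.na 1010 219 (.lg 0 false 1 0 0 16 0 24) (.nx 1017 660563 (.nr 1016 1048577 (.nr 1011 219 .s1
  (.nx 1012 205 (.l1 (.ls 71 19 194)) (.nr 1015 524289 (.nr 1013 8193 (.lg 0 false 1 79 79 19 0
  2664) (.nx 1014 6503 (.lg 0 true 1 73 73 19 0 2664) .out)) .out))) .out) .out)) (.na 1025 223
  (.nx 1024 660563 (.nr 1023 1048577 (.nr 1019 222 .s1 (.nx 1020 6503 (.l1 (.ls 67 73 190494)) (.nr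
  1022 8193 (.lg 0 false 2 67 67 29 0 5328) .out))) .out) .out) (.nx 1032 660563 (.nr 1031 1048577
  (.nr 1026 223 .s1 (.nx 1027 205 (.l1 (.ls 79 17 191)) (.nr 1030 524289 (.nr 1028 8193 (.lg 0
  false 1 71 71 16 0 888) (.nx 1029 6503 (.lg 0 true 1 71 71 16 0 888) .out)) .out))) .out) .out)))
  (.na 1042 226 (.na 1041 225 (.nx 1040 660563 (.nr 1039 1048577 (.nr 1034 224 .s1 (.nx 1035 205
  (.l1 (.ls 79 29 190)) (.nr 1038 524289 (.nr 1036 8193 (.lg 0 true 1 83 83 31 0 12432) (.nx 1037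
  6503 (.lg 0 false 1 83 83 31 0 186480) .out)) .out))) .out) .out) (.lg 0 false 1 0 0 16 0 24))
  (.na 1050 227 (.nx 1049 660563 (.nr 1048 1048577 (.nr 1043 226 .s1 (.nx 1044 205 (.l1 (.ls 71 23
  188)) (.nr 1047 524289 (.nr 1045 8193 (.lg 0 false 1 71 71 23 0 1776) (.nx 1046 6503 (.lg 0 true
  1 71 71 23 0 1776) .out)) .out))) .out) .out) (.na 1058 229 (.nx 1057 660563 (.nr 1056 1048577
  (.nr 1051 227 .s1 (.nx 1052 205 (.l1 (.ls 79 17 188)) (.nr 1055 524289 (.nr 1053 8193 (.lg 0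
  false 1 71 71 17 0 888) (.nx 1054 6503 (.lg 0 true 1 67 67 17 0 888) .out)) .out))) .out) .out)
  (.nx 1065 660563 (.nr 1064 1048577 (.nr 1059 229 .s1 (.nx 1060 205 (.l1 (.ls 79 17 186)) (.nr
  1063 524289 (.nr 1061 8193 (.lg 0 false 1 71 71 17 0 888) (.nx 1062 6503 (.lg 0 true 1 67 67 17 0
  888) .out)) .out))) .out) .out))))) (.na 1099 239 (.na 1082 233 (.na 1074 232 (.nx 1073 660563
  (.nr 1072 1048577 (.nr 1067 230 .s1 (.nx 1068 205 (.l1 (.ls 79 31 185)) (.nr 1071 524289 (.nr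
  1069 8193 (.lg 0 false 1 83 83 31 0 186480) (.nx 1070 6503 (.lg 0 false 1 79 79 31 0 8880) .out))
  .out))) .out) .out) (.nx 1081 660563 (.nr 1080 1048577 (.nr 1075 232 .s1 (.nx 1076 205 (.l1 (.ls
  83 23 184)) (.nr 1079 524289 (.nr 1077 8193 (.lg 0 true 1 83 83 23 0 1776) (.nx 1078 6503 (.lg 0
  false 1 83 83 23 0 1776) .out)) .out))) .out) .out)) (.na 1083 236 (.lg 0 false 1 0 0 16 0 24)
  (.na 1091 238 (.nx 1090 660563 (.nr 1089 1048577 (.nr 1084 236 .s1 (.nx 1085 205 (.l1 (.ls 53 23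
  181)) (.nr 1088 524289 (.nr 1086 8193 (.lg 0 true 1 79 79 23 0 1776) (.nx 1087 6503 (.lg 0 false
  1 73 73 23 0 1776) .out)) .out))) .out) .out) (.nx 1098 660563 (.nr 1097 1048577 (.nr 1092 238
  .s1 (.nx 1093 205 (.l1 (.ls 79 31 179)) (.nr 1096 524289 (.nr 1094 8193 (.lg 0 true 1 79 79 31 0
  12432) (.nx 1095 6503 (.lg 0 false 1 79 79 31 0 12432) .out)) .out))) .out) .out)))) (.na 1115
  241 (.na 1107 240 (.nx 1106 660563 (.nr 1105 1048577 (.nr 1100 239 .s1 (.nx 1101 205 (.l1 (.ls 73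
  17 178)) (.nr 1104 524289 (.nr 1102 8193 (.lg 0 false 1 71 71 17 0 888) (.nx 1103 6503 (.lg 0
  true 1 67 67 17 0 888) .out)) .out))) .out) .out) (.nx 1114 660563 (.nr 1113 1048577 (.nr 1108
  240 .s1 (.nx 1109 205 (.l1 (.ls 79 31 178)) (.nr 1112 524289 (.nr 1110 8193 (.lg 0 true 1 83 83
  37 0 26640) (.nx 1111 6503 (.lg 0 false 1 83 83 37 0 26640) .out)) .out))) .out) .out)) (.na 1116
  243 (.lg 0 false 1 0 0 16 0 24) (.na 1117 245 (.lg 0 false 1 0 0 16 0 24) (.nx 1124 660563 (.nr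
  1123 1048577 (.nr 1118 245 .s1 (.nx 1119 205 (.l1 (.ls 71 23 174)) (.nr 1122 524289 (.nr 1120
  8193 (.lg 0 true 1 73 73 23 0 31080) (.nx 1121 6503 (.lg 0 false 1 73 73 23 0 31080) .out))
  .out))) .out) .out)))))) (.na 2412 1024 (.na 1150 255 (.na 1141 252 (.na 1133 251 (.nx 1132
  660563 (.nr 1131 1048577 (.nr 1126 250 .s1 (.nx 1127 205 (.l1 (.ls 61 29 171)) (.nr 1130 524289
  (.nr 1128 8193 (.lg 0 false 1 71 71 29 0 8880) (.nx 1129 6503 (.lg 0 true 1 71 71 29 0 8880)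
  .out)) .out))) .out) .out) (.nx 1140 660563 (.nr 1139 1048577 (.nr 1134 251 .s1 (.nx 1135 205
  (.l1 (.ls 79 17 170)) (.nr 1138 524289 (.nr 1136 8193 (.lg 0 false 1 71 71 17 0 888) (.nx 1137
  6503 (.lg 0 true 1 71 71 17 0 888) .out)) .out))) .out) .out)) (.na 1142 254 (.lg 0 false 1 0 0
  16 0 24) (.nx 1149 660563 (.nr 1148 1048577 (.nr 1143 254 .s1 (.nx 1144 205 (.l1 (.ls 73 23 168))
  (.nr 1147 524289 (.nr 1145 8193 (.lg 0 false 1 71 71 23 0 1776) (.nx 1146 6503 (.lg 0 true 1 71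
  71 23 0 1776) .out)) .out))) .out) .out))) (.na 1166 257 (.na 1158 256 (.nx 1157 660563 (.nr 1156
  1048577 (.nr 1151 255 .s1 (.nx 1152 205 (.l1 (.ls 73 29 167)) (.nr 1155 524289 (.nr 1153 8193
  (.lg 0 true 1 79 79 29 0 13320) (.nx 1154 6503 (.lg 0 false 1 73 73 29 0 13320) .out)) .out)))
  .out) .out) (.nx 1165 660563 (.nr 1164 1048577 (.nr 1159 256 .s1 (.nx 1160 647 (.l1 (.ls 71 37
  1638)) (.nr 1163 524289 (.nr 1161 16385 (.lg 0 true 1 79 79 29 0 1776) (.nx 1162 6503 (.lg 0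
  false 1 71 71 29 0 1776) .out)) .out))) .out) .out)) (.na 1680 512 (.nx 1679 82572 (.nr 1678
  1048577 (.nr 1167 257 .s1 (.nx 1422 647 (.la (.ls 103 31 1631)) (.nr 1677 262145 (.la (.lg 0
  false 1 79 79 23 0)) .out))) .out) .out) (.na 2110 725 (.nx 2109 82572 (.nr 2108 1048577 (.nr
  1681 512 .s1 (.nx 1894 647 (.la (.ls 89 29 820)) (.nr 2107 262145 (.la (.lg 0 false 1 73 73 29
  0)) .out))) .out) .out) (.nx 2411 3252 (.nr 2410 262145 (.nr 2111 725 .s1 (.la (.ls 61 43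
  14589))) .out) .out))))) (.na 5818 8192 (.na 3554 2048 (.na 2840 1449 (.nx 2839 3252 (.nr 2838
  262145 (.nr 2413 1024 .s1 (.la (.ls 61 41 10330))) .out) .out) (.nx 3553 1627 (.nr 3552 131073
  (.nr 2841 1449 .s1 (.nx 2952 111 (.nr 2951 15292 (.lx (.lp 47 23 513)) (.l1 .sk)) (.nx 2953 112
  (.l1 .sk) (.la (.ls 67 31 1821))))) .out) .out)) (.na 4518 2897 (.nx 4517 1627 (.nr 4516 131073
  (.nr 3555 2048 .s1 (.nx 3666 111 (.nr 3665 21631 (.lx (.lp 47 29 725)) (.l1 .sk)) (.nx 3667 112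
  (.l1 .sk) (.la (.ls 59 31 1289))))) .out) .out) (.na 5168 4096 (.nx 5167 647 (.nr 5166 65537 (.nr
  4519 2897 .s1 (.nx 4681 163 (.lx (.lp 53 31 1025)) (.nr 5165 32769 (.lx (.lp 47 31 1025)) .out)))
  .out) .out) (.nx 5817 647 (.nr 5816 65537 (.nr 5169 4096 .s1 (.nx 5331 163 (.lx (.lp 53 37 2049))
  (.nr 5815 32769 (.lx (.lp 47 37 2049)) .out))) .out) .out)))) (.na 7117 32768 (.na 6467 16384
  (.nx 6466 647 (.nr 6465 65537 (.nr 5819 8192 .s1 (.lx (.lp 47 41 4097))) .out) .out) (.nx 7116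
  647 (.nr 7115 131073 (.nr 6468 16384 .s1 (.nx 6630 163 (.lx (.lp 16 0 8193)) (.nr 7114 65537 (.lx
  (.lp 43 43 8193)) .out))) .out) .out)) (.na 7443 65536 (.nx 7442 324 (.nr 7441 131073 (.nr 7118
  32768 .s1 (.lx (.lp 43 47 16385))) .out) .out) (.na 7770 131073 (.nx 7769 324 (.nr 7768 262145
  (.nr 7444 65536 .s1 (.nx 7606 163 (.lx (.lp 16 0 32769)) (.nr 7767 131073 (.lx (.lp 43 53 32769))
  .out))) .out) .out) .out))))))))

def T28_1 : Ph :=
  (.na 646 175 (.na 348 133 (.na 178 113 (.na 84 100 (.na 52 95 (.na 18 91 (.nx 17 2642247 (.nr 16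
  2097153 (.nr 1 89 .s1 (.nx 11 32769 (.nx 3 224 (.nr 2 965 (.l1 (.ls 31 41 560)) (.l1 .sk)) (.nx 4
  225 (.l1 .sk) (.nx 5 408 (.l1 (.ls 83 43 1290)) (.nr 10 1048577 (.nr 7 262145 (.lg 0 false 2 89
  89 31 0 5040) (.nx 9 20644 (.lg 0 false 2 89 97 31 0 5040) .out)) .out)))) (.nr 15 65537 (.nr 13
  965 (.lg 0 true 2 73 73 31 0 5040) (.nx 14 416129 (.lg 2 true 1 89 89 29 50348 5040) .out))
  .out))) .out) .out) (.na 35 92 (.nx 34 2642247 (.nr 33 2097153 (.nr 19 90 .s1 (.nx 26 26009 (.nx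
  20 408 (.l1 (.ls 79 37 1832)) (.nr 25 1482912 (.lg 0 false 5 89 97 23 0 65520) .out)) (.nr 32
  65537 (.nr 29 513 (.lg 0 true 3 67 67 19 0 13104) (.nx 31 416129 (.lg 2 false 2 83 83 19 90851
  13104) .out)) .out))) .out) .out) (.nx 51 2642247 (.nr 50 2097153 (.nr 36 91 .s1 (.nx 44 26009
  (.nx 40 408 (.nx 38 224 (.nr 37 1007 (.l1 (.ls 19 31 548)) (.l1 .sk)) (.nx 39 225 (.l1 .sk) (.l1
  (.ls 89 41 1262)))) (.nr 43 1482912 (.lg 0 false 3 97 101 19 0 5040) .out)) (.nr 49 65537 (.nr 47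
  1007 (.lg 0 true 3 79 79 19 0 1008) (.nx 48 416129 (.lg 2 true 1 97 97 19 63434 5040) .out))
  .out))) .out) .out))) (.na 66 96 (.nx 65 2642247 (.nr 64 2097153 (.nr 53 94 .s1 (.nx 54 408 (.l1
  (.ls 89 37 1755)) (.nr 63 1482912 (.nx 57 26009 (.lg 0 false 3 97 101 17 0 5040) (.nr 62 65537
  (.nr 60 1017 (.lg 0 true 3 79 79 17 0 5040) (.nx 61 416129 (.lg 2 true 1 97 97 17 63434 5040)
  .out)) .out)) .out))) .out) .out) (.na 83 98 (.nx 82 2642247 (.nr 81 2097153 (.nr 67 95 .s1 (.nx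
  70 225 (.nx 69 224 (.nr 68 1039 (.l1 (.ls 37 37 525)) (.l1 .sk)) (.l1 .sk)) (.nx 71 408 (.l1 (.ls
  89 41 1209)) (.nr 80 1482912 (.nx 75 26009 (.nr 73 1048577 (.lg 0 false 2 101 107 31 0 720720)
  (.nx 74 10321 .out (.lg 0 false 1 97 97 29 0 5040))) (.nr 79 65537 (.nr 77 1039 (.lg 0 true 2 79
  83 31 0 1008) (.nx 78 416129 (.lg 2 false 1 97 97 29 63434 5040) .out)) .out)) .out)))) .out)
  .out) (.lg 0 false 1 0 0 16 0 24)))) (.na 133 105 (.na 100 101 (.nx 99 2642247 (.nr 98 2097153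
  (.nr 85 99 .s1 (.nx 89 408 (.nx 87 224 (.nr 86 1070 (.l1 (.ls 31 31 504)) (.l1 .sk)) (.nx 88 225
  (.l1 .sk) (.l1 (.ls 83 37 1161)))) (.nr 97 1482912 (.nx 92 26009 (.lg 0 false 3 89 97 29 0 5040)
  (.nr 96 65537 (.nr 94 513 (.lg 0 true 2 71 71 29 0 5040) (.nx 95 416129 (.lg 2 false 1 89 89 23
  90851 5040) .out)) .out)) .out))) .out) .out) (.na 117 104 (.nx 116 2642247 (.nr 115 2097153 (.nr
  101 100 .s1 (.nx 102 408 (.l1 (.ls 73 29 1651)) (.nr 114 1482912 (.nx 107 26009 (.lg 0 false 5 83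
  89 17 0 5040) (.nr 113 65537 (.nr 110 513 (.lg 0 true 3 61 61 16 0 1008) (.nx 112 416129 (.lg 2
  true 2 79 79 16 90851 1008) .out)) .out)) .out))) .out) .out) (.nx 132 2642247 (.nr 131 2097153
  (.nr 118 103 .s1 (.nx 120 224 (.nr 119 1113 (.l1 (.ls 31 31 485)) (.l1 .sk)) (.nx 121 225 (.l1
  .sk) (.nx 126 26009 (.nx 122 408 (.l1 (.ls 83 37 1116)) (.nr 125 1482912 (.lg 0 false 3 97 101 29
  0 65520) .out)) (.nr 130 65537 (.nr 128 513 (.lg 0 true 2 71 71 29 0 13104) (.nx 129 416129 (.lg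
  2 false 1 97 97 23 90851 65520) .out)) .out))))) .out) .out))) (.na 149 108 (.nx 148 2642247 (.nr
  147 2097153 (.nr 134 104 .s1 (.nx 142 26009 (.nx 136 224 (.nr 135 1145 (.l1 (.ls 31 31 480)) (.l1
  .sk)) (.nx 137 225 (.l1 .sk) (.nx 138 408 (.l1 (.ls 79 37 1106)) (.nr 141 1482912 (.lg 0 false 3
  89 97 29 0 5040) .out)))) (.nr 146 65537 (.nr 144 513 (.lg 0 true 2 71 71 29 0 5040) (.nx 145
  416129 (.lg 2 false 1 89 89 23 90851 5040) .out)) .out))) .out) .out) (.na 165 112 (.nx 164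
  2642247 (.nr 163 2097153 (.nr 150 107 .s1 (.nx 152 224 (.nr 151 1187 (.l1 (.ls 31 37 467)) (.l1
  .sk)) (.nx 153 225 (.l1 .sk) (.nx 158 26009 (.nx 154 408 (.l1 (.ls 79 41 1075)) (.nr 157 1482912
  (.lg 0 false 3 89 97 31 0 5040) .out)) (.nr 162 65537 (.nr 160 513 (.lg 0 true 2 71 71 29 0 1008)
  (.nx 161 416129 (.lg 2 false 1 89 89 23 90851 5040) .out)) .out))))) .out) .out) (.nx 177 2642247
  (.nr 176 2097153 (.nr 166 111 .s1 (.nx 167 408 (.l1 (.ls 83 41 1489)) (.nr 175 1482912 (.nx 170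
  26009 (.lg 0 false 3 89 97 29 0 5040) (.nr 174 65537 (.nr 172 513 (.lg 0 true 2 71 71 29 0 1008)
  (.nx 173 416129 (.lg 2 false 1 89 89 23 90851 5040) .out)) .out)) .out))) .out) .out))))) (.na
  260 122 (.na 218 117 (.na 192 114 (.nx 191 2642247 (.nr 190 2097153 (.nr 179 113 .s1 (.nx 180 408
  (.l1 (.ls 73 29 1476)) (.nr 189 1482912 (.nx 183 26009 (.lg 0 false 3 89 89 16 0 5040) (.nr 188
  65537 (.nr 186 1208 (.lg 0 true 3 67 67 16 0 1008) (.nx 187 416129 (.lg 2 true 1 83 83 16 63434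
  5040) .out)) .out)) .out))) .out) .out) (.na 205 115 (.nx 204 2642247 (.nr 203 2097153 (.nr 193
  114 .s1 (.nx 194 408 (.l1 (.ls 83 43 1463)) (.nr 202 1482912 (.nx 197 26009 (.lg 0 false 3 97 101
  37 0 5040) (.nr 201 65537 (.nr 199 513 (.lg 0 true 2 71 71 31 0 1008) (.nx 200 416129 (.lg 2
  false 1 97 97 31 90851 5040) .out)) .out)) .out))) .out) .out) (.nx 217 2642247 (.nr 216 2097153
  (.nr 206 115 .s1 (.nx 207 408 (.l1 (.ls 83 37 1450)) (.nr 215 1482912 (.nx 210 26009 (.lg 0 false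
  3 97 101 19 0 5040) (.nr 214 65537 (.nr 212 513 (.lg 0 true 2 73 73 19 0 5040) (.nx 213 416129
  (.lg 2 false 1 97 97 17 90851 5040) .out)) .out)) .out))) .out) .out))) (.na 230 118 (.nx 229
  2642247 (.nr 228 2097153 (.nr 219 117 .s1 (.nx 220 408 (.l1 (.ls 83 37 1425)) (.nr 227 1482912
  (.nx 222 26009 (.lg 0 false 2 101 101 23 0 65520) (.nr 226 65537 (.nr 224 513 (.lg 0 true 2 71 71
  23 0 13104) (.nx 225 416129 (.lg 2 false 1 89 89 19 90851 65520) .out)) .out)) .out))) .out)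
  .out) (.na 244 120 (.nx 243 2642247 (.nr 242 2097153 (.nr 231 118 .s1 (.nx 236 26009 (.nx 232 408
  (.l1 (.ls 79 37 1413)) (.nr 235 1482912 (.lg 0 false 3 89 89 23 0 1008) .out)) (.nr 241 65537
  (.nr 238 513 (.lg 0 true 2 67 67 19 0 1008) (.nx 240 416129 (.lg 2 true 2 83 83 19 90851 5040)
  .out)) .out))) .out) .out) (.nx 259 2642247 (.nr 258 2097153 (.nr 245 120 .s1 (.nx 248 225 (.nx
  247 224 (.nr 246 1293 (.l1 (.ls 37 37 421)) (.l1 .sk)) (.l1 .sk)) (.nx 254 26009 (.nx 249 408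
  (.l1 (.ls 83 41 968)) (.nr 253 1482912 (.nr 251 1048577 (.lg 0 false 2 89 101 37 0 5040) (.nx 252
  10321 .out (.lg 0 false 1 89 97 31 0 5040))) .out)) (.nr 257 65537 (.nr 255 513 (.lg 0 true 1 73
  73 31 0 5040) (.nx 256 416129 (.lg 2 true 1 89 97 31 90851 5040) .out)) .out)))) .out) .out))))
  (.na 304 127 (.na 274 125 (.nx 273 2642247 (.nr 272 2097153 (.nr 261 122 .s1 (.nx 266 26009 (.nx
  262 408 (.l1 (.ls 79 37 1367)) (.nr 265 1482912 (.lg 0 false 3 89 89 23 0 1008) .out)) (.nr 271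
  65537 (.nr 268 513 (.lg 0 true 2 67 67 19 0 1008) (.nx 270 416129 (.lg 2 false 2 83 83 19 90851
  5040) .out)) .out))) .out) .out) (.na 288 126 (.nx 287 2642247 (.nr 286 2097153 (.nr 275 125 .s1
  (.nx 276 408 (.l1 (.ls 79 29 1334)) (.nr 285 1482912 (.nx 279 26009 (.lg 0 false 3 89 89 17 0
  5040) (.nr 284 65537 (.nr 281 513 (.lg 0 true 2 61 61 17 0 5040) (.nx 283 416129 (.lg 2 true 2 79
  79 17 90851 5040) .out)) .out)) .out))) .out) .out) (.nx 303 2642247 (.nr 302 2097153 (.nr 289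
  126 .s1 (.nx 296 26009 (.nx 290 408 (.l1 (.ls 73 43 1324)) (.nr 295 1482912 (.lg 0 false 5 83 83
  37 0 5040) .out)) (.nr 301 65537 (.nr 298 513 (.lg 0 true 2 61 61 31 0 1008) (.nx 300 416129 (.lg
  2 true 2 73 73 31 90851 1008) .out)) .out))) .out) .out))) (.na 319 130 (.na 318 128 (.nx 317
  2642247 (.nr 316 2097153 (.nr 305 127 .s1 (.nx 310 26009 (.nx 306 408 (.l1 (.ls 73 29 1313)) (.nr
  309 1482912 (.lg 0 false 3 83 83 17 0 5040) .out)) (.nr 315 65537 (.nr 312 513 (.lg 0 true 2 61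
  61 16 0 1008) (.nx 314 416129 (.lg 2 true 2 79 79 16 90851 5040) .out)) .out))) .out) .out) .ne)
  (.na 333 131 (.nx 332 1321124 (.nr 331 2097153 (.nr 320 130 .s1 (.nx 326 26009 (.nx 322 224 (.nr
  321 1388 (.l1 (.ls 37 37 388)) (.l1 .sk)) (.nx 323 225 (.l1 .sk) (.lg 0 false 3 97 101 31 0
  65520))) (.nr 330 65537 (.nr 328 1025 (.lg 0 true 2 73 73 31 0 65520) (.nx 329 165142 (.lg 2 true
  1 89 89 29 63434 65520) .out)) .out))) .out) .out) (.nx 347 1321124 (.nr 346 2097153 (.nr 334 131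
  .s1 (.nx 342 26009 (.nx 336 224 (.nr 335 1410 (.l1 (.ls 23 19 386)) (.l1 .sk)) (.nx 337 225 (.l1
  .sk) (.lg 0 false 5 83 83 17 0 5040))) (.nr 345 65537 (.nr 343 1025 (.lg 0 false 1 71 71 16 0
  5040) (.nx 344 165142 (.lg 2 true 1 79 79 16 63434 5040) .out)) .out))) .out) .out)))))) (.na 501
  156 (.na 434 142 (.na 391 138 (.na 363 135 (.nx 362 1321124 (.nr 361 2097153 (.nr 349 133 .s1
  (.nx 351 224 (.nr 350 1431 (.l1 (.ls 17 29 380)) (.l1 .sk)) (.nx 352 225 (.l1 .sk) (.nx 357 26009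
  (.lg 0 false 5 89 89 17 0 5040) (.nr 360 65537 (.nr 358 1025 (.lg 0 false 1 73 73 17 0 5040) (.nx
  359 165142 (.lg 2 true 1 83 83 17 63434 5040) .out)) .out))))) .out) .out) (.na 378 137 (.nx 377
  1321124 (.nr 376 2097153 (.nr 364 135 .s1 (.nx 367 225 (.nx 366 224 (.nr 365 1452 (.l1 (.ls 31 29
  374)) (.l1 .sk)) (.l1 .sk)) (.nx 369 20644 (.lg 0 false 2 97 97 23 0 5040) (.nr 375 262145 (.nx
  370 41287 (.lg 0 true 1 89 89 19 0 5040) (.nr 374 16385 (.nr 372 1025 (.lg 0 true 2 71 71 23 0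
  5040) (.nx 373 165142 (.lg 2 true 1 67 67 19 18045 5040) .out)) .out)) .out)))) .out) .out) (.nx
  390 1321124 (.nr 389 2097153 (.nr 379 137 .s1 (.nx 385 26009 (.nx 381 224 (.nr 380 1463 (.l1 (.ls
  23 19 369)) (.l1 .sk)) (.nx 382 225 (.l1 .sk) (.lg 0 false 3 83 83 17 0 1008))) (.nr 388 65537
  (.nr 386 1025 (.lg 0 false 1 71 71 16 0 5040) (.nx 387 165142 (.lg 2 true 1 79 79 16 63434 5040)
  .out)) .out))) .out) .out))) (.na 405 139 (.nx 404 1321124 (.nr 403 2097153 (.nr 392 138 .s1 (.nx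
  395 225 (.nx 394 224 (.nr 393 1473 (.l1 (.ls 19 37 366)) (.l1 .sk)) (.l1 .sk)) (.nx 398 26009
  (.lg 0 false 3 97 101 37 0 5040) (.nr 402 65537 (.nr 400 1025 (.lg 0 true 2 73 73 37 0 5040) (.nx
  401 165142 (.lg 2 true 1 89 89 31 63434 5040) .out)) .out)))) .out) .out) (.na 420 140 (.nx 419
  1321124 (.nr 418 2097153 (.nr 406 139 .s1 (.nx 414 26009 (.nx 408 224 (.nr 407 1484 (.l1 (.ls 23
  19 363)) (.l1 .sk)) (.nx 409 225 (.l1 .sk) (.lg 0 false 5 83 83 17 0 5040))) (.nr 417 65537 (.nr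
  415 1025 (.lg 0 false 1 71 71 16 0 5040) (.nx 416 165142 (.lg 2 true 1 79 79 16 63434 5040)
  .out)) .out))) .out) .out) (.nx 433 1321124 (.nr 432 2097153 (.nr 421 140 .s1 (.nx 424 225 (.nx
  423 224 (.nr 422 1505 (.l1 (.ls 31 37 361)) (.l1 .sk)) (.l1 .sk)) (.nx 427 26009 (.lg 0 false 3
  89 97 31 0 5040) (.nr 431 65537 (.nr 429 1025 (.lg 0 true 2 71 71 31 0 5040) (.nx 430 165142 (.lg
  2 false 1 83 83 29 63434 5040) .out)) .out)))) .out) .out)))) (.na 462 149 (.na 447 144 (.nx 446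
  1321124 (.nr 445 2097153 (.nr 435 142 .s1 (.nx 441 26009 (.nx 437 224 (.nr 436 1526 (.l1 (.ls 23
  29 356)) (.l1 .sk)) (.nx 438 225 (.l1 .sk) (.lg 0 false 3 89 89 23 0 1008))) (.nr 444 65537 (.nr
  442 1025 (.lg 0 false 1 73 73 19 0 5040) (.nx 443 165142 (.lg 2 true 1 83 83 19 63434 5040)
  .out)) .out))) .out) .out) (.na 461 147 (.nx 460 1321124 (.nr 459 2097153 (.nr 448 144 .s1 (.nx
  457 165142 (.nx 450 224 (.nr 449 1558 (.l1 (.ls 37 31 351)) (.l1 .sk)) (.nx 451 225 (.l1 .sk)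
  (.nr 454 262145 (.nx 452 41287 (.lg 0 false 1 89 97 31 0 5040) (.nr 453 16385 (.lg 0 true 1 83 83
  31 0 5040) .out)) (.nx 456 20644 (.lg 0 false 2 89 97 37 0 5040) .out)))) (.nr 458 1025 (.lg 0
  true 1 73 73 31 0 1008) .out))) .out) .out) (.lg 0 false 1 0 0 16 0 24))) (.na 475 151 (.na 463
  150 (.lg 0 false 1 0 0 16 0 24) (.nx 474 1321124 (.nr 473 2097153 (.nr 464 150 .s1 (.nx 466 224
  (.nr 465 1600 (.l1 (.ls 31 37 337)) (.l1 .sk)) (.nx 467 225 (.l1 .sk) (.nx 469 26009 (.lg 0 false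
  2 97 97 31 0 5040) (.nr 472 65537 (.nr 470 1025 (.lg 0 true 1 71 71 31 0 5040) (.nx 471 165142
  (.lg 2 true 1 83 83 31 63434 5040) .out)) .out))))) .out) .out)) (.na 488 152 (.nx 487 1321124
  (.nr 486 2097153 (.nr 476 151 .s1 (.nx 479 225 (.nx 478 224 (.nr 477 1611 (.l1 (.ls 23 19 335))
  (.l1 .sk)) (.l1 .sk)) (.nx 482 26009 (.lg 0 false 3 83 83 17 0 1008) (.nr 485 65537 (.nr 483 1025
  (.lg 0 false 1 71 71 16 0 5040) (.nx 484 165142 (.lg 2 true 1 79 79 16 63434 5040) .out))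
  .out)))) .out) .out) (.nx 500 1321124 (.nr 499 2097153 (.nr 489 152 .s1 (.nx 492 225 (.nx 491 224
  (.nr 490 1653 (.l1 (.ls 17 31 333)) (.l1 .sk)) (.l1 .sk)) (.nx 495 26009 (.lg 0 false 3 97 97 31
  0 5040) (.nr 498 65537 (.nr 496 1025 (.lg 0 true 1 71 71 29 0 1008) (.nx 497 165142 (.lg 2 false
  1 83 83 29 63434 1008) .out)) .out)))) .out) .out))))) (.na 581 163 (.na 541 160 (.na 515 157
  (.nx 514 1321124 (.nr 513 2097153 (.nr 502 156 .s1 (.nx 504 224 (.nr 503 1664 (.l1 (.ls 41 37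
  324)) (.l1 .sk)) (.nx 505 225 (.l1 .sk) (.nx 509 41287 (.nr 506 262145 (.lg 0 false 1 97 101 37 0
  65520) (.nx 508 20644 (.lg 0 false 2 97 101 41 0 65520) .out)) (.nr 512 16385 (.nx 510 165142
  (.lg 0 true 1 83 89 37 0 65520) (.nr 511 1025 (.lg 0 true 1 73 73 37 0 13104) .out)) .out)))))
  .out) .out) (.na 528 158 (.nx 527 1321124 (.nr 526 2097153 (.nr 516 157 .s1 (.nx 522 26009 (.nx
  518 224 (.nr 517 1674 (.l1 (.ls 23 19 322)) (.l1 .sk)) (.nx 519 225 (.l1 .sk) (.lg 0 false 3 83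
  83 17 0 1008))) (.nr 525 65537 (.nr 523 1025 (.lg 0 false 1 71 71 16 0 5040) (.nx 524 165142 (.lg
  2 true 1 79 79 16 63434 5040) .out)) .out))) .out) .out) (.nx 540 1321124 (.nr 539 2097153 (.nr
  529 158 .s1 (.nx 531 224 (.nr 530 1696 (.l1 (.ls 23 29 320)) (.l1 .sk)) (.nx 532 225 (.l1 .sk)
  (.nx 535 26009 (.lg 0 false 3 89 89 23 0 1008) (.nr 538 65537 (.nr 536 1025 (.lg 0 false 1 71 71
  19 0 5040) (.nx 537 165142 (.lg 2 true 1 83 83 19 63434 5040) .out)) .out))))) .out) .out))) (.na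
  555 161 (.nx 554 1321124 (.nr 553 2097153 (.nr 542 160 .s1 (.nx 545 225 (.nx 544 224 (.nr 543
  1706 (.l1 (.ls 37 31 316)) (.l1 .sk)) (.l1 .sk)) (.nx 551 165142 (.nx 549 41287 (.nx 547 20644
  (.lg 0 false 2 89 97 31 0 5040) (.nr 548 262145 (.lg 0 false 1 83 89 29 0 5040) .out)) (.nr 550
  16385 (.lg 0 true 1 79 83 29 0 5040) .out)) (.nr 552 1025 (.lg 0 true 1 73 73 29 0 5040) .out))))
  .out) .out) (.na 568 162 (.nx 567 1321124 (.nr 566 2097153 (.nr 556 161 .s1 (.nx 558 224 (.nr 557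
  1717 (.l1 (.ls 19 19 314)) (.l1 .sk)) (.nx 559 225 (.l1 .sk) (.nx 562 26009 (.lg 0 false 3 89 89
  19 0 1008) (.nr 565 65537 (.nr 563 1025 (.lg 0 false 1 73 73 17 0 5040) (.nx 564 165142 (.lg 2
  true 1 79 79 17 63434 1008) .out)) .out))))) .out) .out) (.nx 580 1321124 (.nr 579 2097153 (.nr
  569 162 .s1 (.nx 571 224 (.nr 570 1727 (.l1 (.ls 23 31 312)) (.l1 .sk)) (.nx 572 225 (.l1 .sk)
  (.nx 575 26009 (.lg 0 false 3 83 83 29 0 1008) (.nr 578 65537 (.nr 576 1025 (.lg 0 false 1 67 67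
  23 0 1008) (.nx 577 165142 (.lg 2 true 1 73 73 23 63434 1008) .out)) .out))))) .out) .out))))
  (.na 596 168 (.na 582 166 (.lg 0 false 1 0 0 16 0 24) (.na 595 167 (.nx 594 1321124 (.nr 593
  2097153 (.nr 583 166 .s1 (.nx 585 224 (.nr 584 1770 (.l1 (.ls 23 29 305)) (.l1 .sk)) (.nx 586 225
  (.l1 .sk) (.nx 589 26009 (.lg 0 false 3 89 89 23 0 1008) (.nr 592 65537 (.nr 590 1025 (.lg 0
  false 1 67 67 19 0 1008) (.nx 591 165142 (.lg 2 true 1 73 73 19 63434 1008) .out)) .out)))))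
  .out) .out) (.lg 0 false 1 0 0 16 0 24))) (.na 621 171 (.na 608 169 (.nx 607 1321124 (.nr 606
  2097153 (.nr 597 168 .s1 (.nx 602 26009 (.nx 599 224 (.nr 598 1791 (.l1 (.ls 31 37 301)) (.l1
  .sk)) (.nx 600 225 (.l1 .sk) (.lg 0 false 2 89 97 37 0 5040))) (.nr 605 65537 (.nr 603 1025 (.lg
  0 true 1 67 67 31 0 1008) (.nx 604 165142 (.lg 2 true 1 79 79 31 63434 1008) .out)) .out))) .out)
  .out) (.nx 620 1321124 (.nr 619 2097153 (.nr 609 169 .s1 (.nx 615 26009 (.nx 611 224 (.nr 610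
  1812 (.l1 (.ls 29 23 299)) (.l1 .sk)) (.nx 612 225 (.l1 .sk) (.lg 0 false 3 89 89 19 0 13104)))
  (.nr 618 65537 (.nr 616 1025 (.lg 0 false 1 71 71 17 0 13104) (.nx 617 165142 (.lg 2 true 1 79 79
  17 63434 65520) .out)) .out))) .out) .out)) (.na 633 173 (.nx 632 1321124 (.nr 631 2097153 (.nr
  622 171 .s1 (.nx 625 225 (.nx 624 224 (.nr 623 1833 (.l1 (.ls 17 29 296)) (.l1 .sk)) (.l1 .sk))
  (.nx 627 26009 (.lg 0 false 2 97 97 29 0 5040) (.nr 630 65537 (.nr 628 1025 (.lg 0 true 1 71 71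
  17 0 1008) (.nx 629 165142 (.lg 2 true 1 83 83 17 63434 1008) .out)) .out)))) .out) .out) (.nx
  645 1321124 (.nr 644 2097153 (.nr 634 173 .s1 (.nx 640 26009 (.nx 636 224 (.nr 635 1855 (.l1 (.ls
  23 19 293)) (.l1 .sk)) (.nx 637 225 (.l1 .sk) (.lg 0 false 3 83 83 17 0 5040))) (.nr 643 65537
  (.nr 641 1025 (.lg 0 false 1 67 67 16 0 1008) (.nx 642 165142 (.lg 2 true 1 73 73 16 63434 1008)
  .out)) .out))) .out) .out))))))) (.na 887 224 (.na 787 195 (.na 712 183 (.na 672 180 (.na 659 177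
  (.nx 658 1321124 (.nr 657 2097153 (.nr 647 175 .s1 (.nx 649 224 (.nr 648 1876 (.l1 (.ls 23 23
  289)) (.l1 .sk)) (.nx 650 225 (.l1 .sk) (.nx 653 26009 (.lg 0 false 3 83 83 23 0 5040) (.nr 656
  65537 (.nr 654 1025 (.lg 0 false 1 67 67 19 0 5040) (.nx 655 165142 (.lg 2 true 1 73 73 19 63434
  5040) .out)) .out))))) .out) .out) (.na 671 179 (.nx 670 1321124 (.nr 669 2097153 (.nr 660 177
  .s1 (.nx 662 224 (.nr 661 1897 (.l1 (.ls 31 23 286)) (.l1 .sk)) (.nx 663 225 (.l1 .sk) (.nx 665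
  26009 (.lg 0 false 2 97 101 23 0 5040) (.nr 668 65537 (.nr 666 1025 (.lg 0 true 1 71 71 19 0
  1008) (.nx 667 165142 (.lg 2 false 1 83 83 19 63434 5040) .out)) .out))))) .out) .out) (.lg 0
  false 1 0 0 16 0 24))) (.na 686 181 (.nx 685 1321124 (.nr 684 2097153 (.nr 673 180 .s1 (.nx 676
  225 (.nx 675 224 (.nr 674 1918 (.l1 (.ls 37 37 281)) (.l1 .sk)) (.l1 .sk)) (.nx 682 165142 (.nx
  680 41287 (.nr 677 262145 (.lg 0 false 1 89 97 37 0 5040) (.nx 679 20644 (.lg 0 false 2 97 103 41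
  0 720720) .out)) (.nr 681 16385 (.lg 0 true 1 79 83 37 0 5040) .out)) (.nr 683 1025 (.lg 0 true 1
  73 73 37 0 5040) .out)))) .out) .out) (.na 699 182 (.nx 698 1321124 (.nr 697 2097153 (.nr 687 181
  .s1 (.nx 689 224 (.nr 688 1929 (.l1 (.ls 19 19 280)) (.l1 .sk)) (.nx 690 225 (.l1 .sk) (.nx 693
  26009 (.lg 0 false 3 79 79 17 0 1008) (.nr 696 65537 (.nr 694 1025 (.lg 0 false 1 67 67 16 0
  5040) (.nx 695 165142 (.lg 2 true 1 73 73 16 63434 5040) .out)) .out))))) .out) .out) (.nx 711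
  1321124 (.nr 710 1482912 (.nr 700 182 .s1 (.nx 702 224 (.nr 701 1939 (.l1 (.ls 29 37 278)) (.l1
  .sk)) (.nx 703 225 (.l1 .sk) (.nx 706 41287 (.lg 0 false 3 89 89 31 0 65520) (.nr 709 16385 (.nr
  707 1025 (.lg 0 false 1 71 71 29 0 65520) (.nx 708 165142 (.lg 2 false 1 61 61 29 18045 65520)
  .out)) .out))))) .out) .out)))) (.na 749 190 (.na 724 184 (.nx 723 1321124 (.nr 722 1482912 (.nr
  713 183 .s1 (.nx 716 225 (.nx 715 224 (.nr 714 1950 (.l1 (.ls 31 23 277)) (.l1 .sk)) (.l1 .sk))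
  (.nx 718 26009 (.lg 0 false 2 97 97 23 0 5040) (.nr 721 65537 (.nr 719 1025 (.lg 0 true 1 71 71
  19 0 1008) (.nx 720 165142 (.lg 2 true 1 83 83 19 63434 5040) .out)) .out)))) .out) .out) (.na
  736 189 (.nx 735 1321124 (.nr 734 1482912 (.nr 725 184 .s1 (.nx 727 224 (.nr 726 2003 (.l1 (.ls
  19 31 275)) (.l1 .sk)) (.nx 728 225 (.l1 .sk) (.nx 730 26009 (.lg 0 false 2 97 97 31 0 5040) (.nr
  733 65537 (.nr 731 1025 (.lg 0 true 1 71 71 19 0 1008) (.nx 732 165142 (.lg 2 true 1 83 83 19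
  63434 1008) .out)) .out))))) .out) .out) (.nx 748 1321124 (.nr 747 1482912 (.nr 737 189 .s1 (.nx
  740 225 (.nx 739 224 (.nr 738 2013 (.l1 (.ls 23 29 268)) (.l1 .sk)) (.l1 .sk)) (.nx 743 41287
  (.lg 0 false 3 83 83 23 0 1008) (.nr 746 16385 (.nr 744 1025 (.lg 0 false 1 67 67 19 0 5040) (.nx
  745 165142 (.lg 2 false 1 59 59 19 18045 5040) .out)) .out)))) .out) .out))) (.na 761 191 (.nx
  760 1321124 (.nr 759 1482912 (.nr 750 190 .s1 (.nx 752 224 (.nr 751 2024 (.l1 (.ls 17 31 267))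
  (.l1 .sk)) (.nx 753 225 (.l1 .sk) (.nx 755 26009 (.lg 0 false 2 97 97 37 0 5040) (.nr 758 65537
  (.nr 756 1025 (.lg 0 true 1 71 71 31 0 5040) (.nx 757 165142 (.lg 2 true 1 83 83 31 63434 5040)
  .out)) .out))))) .out) .out) (.na 774 193 (.nx 773 1321124 (.nr 772 1482912 (.nr 762 191 .s1 (.nx
  764 224 (.nr 763 2045 (.l1 (.ls 23 17 265)) (.l1 .sk)) (.nx 765 225 (.l1 .sk) (.nx 768 41287 (.lg
  0 false 3 83 83 17 0 1008) (.nr 771 16385 (.nr 769 1025 (.lg 0 false 1 67 67 16 0 5040) (.nx 770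
  165142 (.lg 2 false 1 59 59 16 18045 1008) .out)) .out))))) .out) .out) (.nx 786 1321124 (.nr 785
  1482912 (.nr 775 193 .s1 (.nx 781 41287 (.nx 777 224 (.nr 776 2066 (.l1 (.ls 23 17 262)) (.l1
  .sk)) (.nx 778 225 (.l1 .sk) (.lg 0 false 3 83 83 17 0 5040))) (.nr 784 16385 (.nr 782 1025 (.lg
  0 false 1 67 67 16 0 5040) (.nx 783 165142 (.lg 2 false 1 59 59 16 18045 5040) .out)) .out)))
  .out) .out))))) (.na 826 207 (.na 800 199 (.na 798 196 (.nx 797 1321124 (.nr 796 1482912 (.nr 788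
  195 .s1 (.nx 790 224 (.nr 789 2077 (.l1 (.ls 41 29 260)) (.l1 .sk)) (.nx 791 225 (.l1 .sk) (.nr
  794 65537 (.nx 792 165142 (.lg 0 true 1 97 97 31 0 65520) (.nr 793 1025 (.lg 0 true 1 73 73 31 0
  65520) .out)) (.nx 795 26009 (.lg 0 false 1 101 101 31 0 65520) .out))))) .out) .out) (.na 799
  197 (.lg 0 false 1 0 0 16 0 24) (.lg 0 false 1 0 0 16 0 24))) (.na 801 200 (.lg 0 false 1 0 0 16
  0 24) (.na 813 202 (.nx 812 1321124 (.nr 811 1482912 (.nr 802 200 .s1 (.nx 805 225 (.nx 804 224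
  (.nr 803 2141 (.l1 (.ls 31 29 253)) (.l1 .sk)) (.l1 .sk)) (.nx 807 26009 (.lg 0 false 2 89 89 31
  0 5040) (.nr 810 65537 (.nr 808 1025 (.lg 0 true 1 67 67 29 0 5040) (.nx 809 165142 (.lg 2 false
  1 79 79 29 63434 5040) .out)) .out)))) .out) .out) (.nx 825 1321124 (.nr 824 1482912 (.nr 814 202
  .s1 (.nx 816 224 (.nr 815 2194 (.l1 (.ls 23 29 251)) (.l1 .sk)) (.nx 817 225 (.l1 .sk) (.nx 820
  41287 (.lg 0 false 3 83 83 29 0 5040) (.nr 823 16385 (.nr 821 1025 (.lg 0 false 1 67 67 23 0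
  5040) (.nx 822 165142 (.lg 2 false 1 59 59 23 18045 5040) .out)) .out))))) .out) .out)))) (.na
  861 211 (.na 838 208 (.nx 837 1321124 (.nr 836 1482912 (.nr 827 207 .s1 (.nx 830 225 (.nx 829 224
  (.nr 828 2204 (.l1 (.ls 19 19 245)) (.l1 .sk)) (.l1 .sk)) (.nx 832 26009 (.lg 0 false 2 89 97 19
  0 5040) (.nr 835 65537 (.nr 833 1025 (.lg 0 true 1 67 67 19 0 1008) (.nx 834 165142 (.lg 2 false
  1 79 79 19 63434 1008) .out)) .out)))) .out) .out) (.na 849 210 (.nx 848 1321124 (.nr 847 1482912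
  (.nr 839 208 .s1 (.nx 845 165142 (.nx 841 224 (.nr 840 2225 (.l1 (.ls 41 31 244)) (.l1 .sk)) (.nx
  842 225 (.l1 .sk) (.nr 843 65537 (.lg 0 true 1 89 97 31 0 65520) (.nx 844 26009 (.lg 0 false 1 97
  101 31 0 65520) .out)))) (.nr 846 1025 (.lg 0 true 1 73 73 31 0 13104) .out))) .out) .out) (.nx
  860 1321124 (.nr 859 1482912 (.nr 850 210 .s1 (.nx 852 224 (.nr 851 2236 (.l1 (.ls 31 37 241))
  (.l1 .sk)) (.nx 853 225 (.l1 .sk) (.nx 855 26009 (.lg 0 false 2 89 89 41 0 5040) (.nr 858 65537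
  (.nr 856 1025 (.lg 0 true 1 67 67 37 0 5040) (.nx 857 165142 (.lg 2 false 1 79 79 37 63434 5040)
  .out)) .out))))) .out) .out))) (.na 874 216 (.na 862 213 (.lg 0 false 1 0 0 16 0 24) (.nx 873
  1321124 (.nr 872 1482912 (.nr 863 213 .s1 (.nx 868 26009 (.nx 865 224 (.nr 864 2289 (.l1 (.ls 31
  23 238)) (.l1 .sk)) (.nx 866 225 (.l1 .sk) (.lg 0 false 2 97 97 23 0 5040))) (.nr 871 65537 (.nr
  869 1025 (.lg 0 true 1 71 71 19 0 1008) (.nx 870 165142 (.lg 2 false 1 83 83 19 63434 5040)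
  .out)) .out))) .out) .out)) (.na 886 223 (.nx 885 1321124 (.nr 884 1482912 (.nr 875 216 .s1 (.nx
  880 26009 (.nx 877 224 (.nr 876 2363 (.l1 (.ls 31 31 235)) (.l1 .sk)) (.nx 878 225 (.l1 .sk) (.lg
  0 false 2 89 89 31 0 5040))) (.nr 883 65537 (.nr 881 1025 (.lg 0 true 1 67 67 29 0 1008) (.nx 882
  165142 (.lg 2 false 1 79 79 29 63434 1008) .out)) .out))) .out) .out) (.lg 0 false 1 0 0 16 0
  24)))))) (.na 1044 241 (.na 961 230 (.na 924 227 (.na 899 225 (.nx 898 1321124 (.nr 897 1482912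
  (.nr 888 224 .s1 (.nx 891 225 (.nx 890 224 (.nr 889 2384 (.l1 (.ls 29 29 226)) (.l1 .sk)) (.l1
  .sk)) (.nx 893 26009 (.lg 0 false 2 89 89 31 0 5040) (.nr 896 65537 (.nr 894 1025 (.lg 0 true 1
  61 61 29 0 1008) (.nx 895 165142 (.lg 2 true 1 73 73 29 63434 1008) .out)) .out)))) .out) .out)
  (.na 911 226 (.nx 910 1321124 (.nr 909 1482912 (.nr 900 225 .s1 (.nx 902 224 (.nr 901 2395 (.l1
  (.ls 29 23 226)) (.l1 .sk)) (.nx 903 225 (.l1 .sk) (.nx 905 26009 (.lg 0 false 2 83 89 29 0 5040)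
  (.nr 908 65537 (.nr 906 1025 (.lg 0 true 1 67 67 23 0 5040) (.nx 907 165142 (.lg 2 true 1 79 79
  23 63434 5040) .out)) .out))))) .out) .out) (.nx 923 1321124 (.nr 922 1482912 (.nr 912 226 .s1
  (.nx 914 224 (.nr 913 2405 (.l1 (.ls 23 29 225)) (.l1 .sk)) (.nx 915 225 (.l1 .sk) (.nx 918 41287
  (.lg 0 false 3 79 79 29 0 1008) (.nr 921 16385 (.nr 919 1025 (.lg 0 false 1 61 61 23 0 1008) (.nx
  920 165142 (.lg 2 false 1 53 53 23 18045 1008) .out)) .out))))) .out) .out))) (.na 937 228 (.nx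
  936 1321124 (.nr 935 1482912 (.nr 925 227 .s1 (.nx 927 224 (.nr 926 2416 (.l1 (.ls 23 17 224))
  (.l1 .sk)) (.nx 928 225 (.l1 .sk) (.nx 931 41287 (.lg 0 false 3 83 83 19 0 5040) (.nr 934 16385
  (.nr 932 1025 (.lg 0 false 1 61 61 17 0 1008) (.nx 933 165142 (.lg 2 false 1 53 53 17 18045 1008)
  .out)) .out))))) .out) .out) (.na 948 229 (.nx 947 1321124 (.nr 946 1482912 (.nr 938 228 .s1 (.nx
  944 165142 (.nr 940 65537 (.nx 939 408 (.l1 (.ls 61 41 733)) (.lg 0 true 1 89 97 37 0 5040)) (.nx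
  942 225 (.nx 941 224 (.l1 .sk) (.l1 .sk)) (.nx 943 26009 (.lg 0 false 1 97 101 37 0 5040) .out)))
  (.nr 945 1025 (.lg 0 true 1 73 73 37 0 1008) .out))) .out) .out) (.nx 960 1321124 (.nr 959
  1482912 (.nr 949 229 .s1 (.nx 952 225 (.nx 951 224 (.nr 950 2437 (.l1 (.ls 23 17 222)) (.l1 .sk))
  (.l1 .sk)) (.nx 955 41287 (.lg 0 false 3 83 83 19 0 5040) (.nr 958 16385 (.nr 956 1025 (.lg 0
  false 1 61 61 17 0 1008) (.nx 957 165142 (.lg 2 true 1 53 53 17 18045 1008) .out)) .out)))) .out)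
  .out)))) (.na 998 236 (.na 973 233 (.nx 972 1321124 (.nr 971 1482912 (.nr 962 230 .s1 (.nx 967
  26009 (.nx 964 224 (.nr 963 2469 (.l1 (.ls 19 31 221)) (.l1 .sk)) (.nx 965 225 (.l1 .sk) (.lg 0
  false 2 89 89 37 0 5040))) (.nr 970 65537 (.nr 968 1025 (.lg 0 true 1 67 67 31 0 5040) (.nx 969
  165142 (.lg 2 true 1 79 79 31 63434 5040) .out)) .out))) .out) .out) (.na 986 234 (.nx 985
  1321124 (.nr 984 1482912 (.nr 974 233 .s1 (.nx 977 225 (.nx 976 224 (.nr 975 2480 (.l1 (.ls 23 17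
  218)) (.l1 .sk)) (.l1 .sk)) (.nx 980 41287 (.lg 0 false 3 79 79 19 0 1008) (.nr 983 16385 (.nr
  981 1025 (.lg 0 false 1 61 61 17 0 1008) (.nx 982 165142 (.lg 2 false 1 53 53 17 18045 5040)
  .out)) .out)))) .out) .out) (.nx 997 1321124 (.nr 996 1482912 (.nr 987 234 .s1 (.nx 990 225 (.nx
  989 224 (.nr 988 2501 (.l1 (.ls 31 37 217)) (.l1 .sk)) (.l1 .sk)) (.nx 994 165142 (.nx 992 26009
  (.lg 0 false 2 89 89 37 0 13104) (.nr 993 65537 (.lg 0 false 1 83 83 37 0 13104) .out)) (.nr 995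
  1025 (.lg 0 true 1 67 67 37 0 13104) .out)))) .out) .out))) (.na 1022 239 (.na 1010 237 (.nx 1009
  1321124 (.nr 1008 1482912 (.nr 999 236 .s1 (.nx 1002 225 (.nx 1001 224 (.nr 1000 2511 (.l1 (.ls
  29 29 215)) (.l1 .sk)) (.l1 .sk)) (.nx 1004 26009 (.lg 0 false 2 89 89 29 0 1008) (.nr 1007 65537
  (.nr 1005 1025 (.lg 0 true 1 67 67 23 0 1008) (.nx 1006 165142 (.lg 2 true 1 79 79 23 63434 1008)
  .out)) .out)))) .out) .out) (.nx 1021 1321124 (.nr 1020 1482912 (.nr 1011 237 .s1 (.nx 1016 26009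
  (.nx 1013 224 (.nr 1012 2533 (.l1 (.ls 29 23 214)) (.l1 .sk)) (.nx 1014 225 (.l1 .sk) (.lg 0
  false 2 89 89 23 0 5040))) (.nr 1019 65537 (.nr 1017 1025 (.lg 0 true 1 61 61 19 0 1008) (.nx
  1018 165142 (.lg 2 true 1 73 73 19 63434 1008) .out)) .out))) .out) .out)) (.na 1033 240 (.nx
  1032 1321124 (.nr 1031 1482912 (.nr 1023 239 .s1 (.nx 1029 41287 (.nx 1025 224 (.nr 1024 2543
  (.l1 (.ls 23 17 212)) (.l1 .sk)) (.nx 1026 225 (.l1 .sk) (.lg 0 false 3 79 79 19 0 1008))) (.nr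
  1030 16385 (.lg 0 false 1 83 83 17 0 5040) .out))) .out) .out) (.nx 1043 1321124 (.nr 1042
  1482912 (.nr 1034 240 .s1 (.nx 1037 225 (.nx 1036 224 (.nr 1035 2554 (.l1 (.ls 41 37 212)) (.l1
  .sk)) (.l1 .sk)) (.nr 1040 65537 (.nx 1038 165142 (.lg 0 true 1 83 97 41 0 5040) (.nr 1039 1025
  (.lg 0 true 1 71 73 41 0 5040) .out)) (.nx 1041 26009 (.lg 0 false 1 89 101 41 0 5040) .out))))
  .out) .out))))) (.na 1094 250 (.na 1069 245 (.na 1045 243 (.lg 0 false 1 0 0 16 0 24) (.na 1057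
  244 (.nx 1056 1321124 (.nr 1055 1482912 (.nr 1046 243 .s1 (.nx 1049 225 (.nx 1048 224 (.nr 1047
  2586 (.l1 (.ls 23 23 209)) (.l1 .sk)) (.l1 .sk)) (.nx 1051 41287 (.lg 0 true 2 83 83 23 0 5040)
  (.nr 1054 16385 (.nr 1052 1025 (.lg 0 false 1 61 61 19 0 5040) (.nx 1053 165142 (.lg 2 false 1 53
  53 19 18045 5040) .out)) .out)))) .out) .out) (.nx 1068 1321124 (.nr 1067 1482912 (.nr 1058 244
  .s1 (.nx 1063 26009 (.nx 1060 224 (.nr 1059 2596 (.l1 (.ls 29 23 208)) (.l1 .sk)) (.nx 1061 225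
  (.l1 .sk) (.lg 0 false 2 89 89 29 0 1008))) (.nr 1066 65537 (.nr 1064 1025 (.lg 0 true 1 67 67 23
  0 1008) (.nx 1065 165142 (.lg 2 true 1 79 79 23 63434 1008) .out)) .out))) .out) .out))) (.na
  1070 247 (.lg 0 false 1 0 0 16 0 24) (.na 1082 249 (.nx 1081 1321124 (.nr 1080 1482912 (.nr 1071
  247 .s1 (.nx 1078 165142 (.nx 1073 224 (.nr 1072 2639 (.l1 (.ls 17 23 206)) (.l1 .sk)) (.nx 1074
  225 (.l1 .sk) (.nx 1076 26009 (.lg 0 false 2 97 97 29 0 65520) (.nr 1077 65537 (.lg 0 false 1 89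
  89 17 0 65520) .out)))) (.nr 1079 1025 (.lg 0 true 1 67 67 17 0 13104) .out))) .out) .out) (.nx
  1093 1321124 (.nr 1092 1482912 (.nr 1083 249 .s1 (.nx 1088 26009 (.nx 1085 224 (.nr 1084 2649
  (.l1 (.ls 31 23 204)) (.l1 .sk)) (.nx 1086 225 (.l1 .sk) (.lg 0 false 2 89 89 23 0 1008))) (.nr
  1091 65537 (.nr 1089 1025 (.lg 0 true 1 61 61 23 0 1008) (.nx 1090 165142 (.lg 2 true 1 73 73 23
  63434 1008) .out)) .out))) .out) .out)))) (.na 1128 254 (.na 1105 251 (.nx 1104 1321124 (.nr 1103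
  1482912 (.nr 1095 250 .s1 (.nx 1097 224 (.nr 1096 2660 (.l1 (.ls 23 29 203)) (.l1 .sk)) (.nx 1098
  225 (.l1 .sk) (.nx 1101 41287 (.lg 0 false 3 79 79 31 0 5040) (.nr 1102 16385 (.lg 0 false 1 83
  83 29 0 5040) .out))))) .out) .out) (.na 1116 252 (.nx 1115 1321124 (.nr 1114 1482912 (.nr 1106
  251 .s1 (.nx 1109 225 (.nx 1108 224 (.nr 1107 2670 (.l1 (.ls 23 17 202)) (.l1 .sk)) (.l1 .sk))
  (.nx 1112 41287 (.lg 0 false 3 79 79 19 0 1008) (.nr 1113 16385 (.lg 0 false 1 79 79 17 0 1008)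
  .out)))) .out) .out) (.nx 1127 1321124 (.nr 1126 1482912 (.nr 1117 252 .s1 (.nx 1120 225 (.nx
  1119 224 (.nr 1118 2692 (.l1 (.ls 29 37 202)) (.l1 .sk)) (.l1 .sk)) (.nx 1122 26009 (.lg 0 false
  2 83 89 37 0 5040) (.nr 1125 65537 (.nr 1123 1025 (.lg 0 true 1 61 61 37 0 1008) (.nx 1124 165142
  (.lg 2 true 1 73 73 37 63434 1008) .out)) .out)))) .out) .out))) (.na 1140 257 (.na 1139 256 (.nx
  1138 1321124 (.nr 1137 1482912 (.nr 1129 254 .s1 (.nx 1135 41287 (.nx 1131 224 (.nr 1130 2713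
  (.l1 (.ls 19 23 200)) (.l1 .sk)) (.nx 1132 225 (.l1 .sk) (.lg 0 false 3 79 79 29 0 1008))) (.nr
  1136 16385 (.lg 0 false 1 79 79 23 0 1008) .out))) .out) .out) .ne) (.na 1571 363 (.nx 1570
  1321124 (.nr 1569 1482912 (.nr 1141 257 .s1 (.nx 1249 225 (.nx 1248 224 (.nr 1247 3846 (.la (.ls
  37 19 198)) (.l1 .sk)) (.l1 .sk)) (.nx 1355 26009 (.la (.lg 0 false 1 83 83 23 0)) (.nr 1568
  32769 (.nr 1461 2049 (.la (.lg 0 true 1 67 67 23 0)) (.nx 1567 165142 (.la (.lg 2 false 1 67 67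
  23 31826)) .out)) .out)))) .out) .out) (.nx 2173 1321124 (.nr 2172 1482912 (.nr 1572 363 .s1 (.nx
  1872 26009 (.nx 1722 224 (.nr 1721 5425 (.la (.ls 37 19 141)) (.l1 .sk)) (.nx 1723 225 (.l1 .sk)
  (.la (.lg 0 false 1 79 79 23 0)))) (.nr 2171 32769 (.nr 2021 2049 (.la (.lg 0 true 1 67 67 23 0))
  (.nx 2170 165142 (.la (.lg 2 true 1 61 61 23 31826)) .out)) .out))) .out) .out))))))))

def T28_2 : Ph :=
  (.na 114 122 (.na 55 34 (.na 31 10 (.na 16 3 (.na 1 2 .ne (.nx 15 52017 (.nr 14 3446 (.nr 2 1 .s1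
  (.nx 3 163 (.l1 (.ls 61 47 13287)) (.nr 13 1219 (.nr 11 154 (.nx 4 237 (.l1 (.ls 37 47 14803))
  (.lg 0 false 7 67 67 9 0 336)) (.nx 12 10323 (.lg 2 true 1 61 61 5 135 240) .out)) .out))) .out)
  .out)) (.na 17 4 .ne (.na 30 5 (.nx 29 20644 (.nr 28 2437 (.nr 18 4 .s1 (.nx 21 5 (.nx 20 4 (.nr
  19 8 (.l1 (.ls 16 9 6)) (.l1 .sk)) (.l1 .sk)) (.nx 24 1627 (.lg 0 true 3 61 61 9 0 720) (.nr 27
  109 (.lg 0 false 3 59 59 9 0 144) .out)))) .out) .out) .ne))) (.na 47 23 (.na 40 16 (.nx 39 20644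
  (.nr 38 3446 (.nr 32 10 .s1 (.nx 35 5 (.nx 34 4 (.nr 33 25 (.l1 (.ls 16 9 5)) (.l1 .sk)) (.l1
  .sk)) (.lg 0 false 3 71 71 13 0 720))) .out) .out) (.na 41 20 .ne (.nx 46 20644 (.nr 45 6890 (.nr
  42 20 .s1 (.nx 43 27 (.l1 (.ls 47 17 39)) (.nr 44 3446 (.lg 0 false 1 73 73 13 0 720) .out)))
  .out) .out))) (.na 48 26 .ne (.na 54 32 (.nx 53 20644 (.nr 52 6890 (.nr 49 26 .s1 (.nx 50 163
  (.l1 (.ls 43 37 1024)) (.nr 51 257 (.lg 0 false 1 53 53 11 0 3120) .out))) .out) .out) .ne))))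
  (.na 80 68 (.na 67 52 (.na 61 50 (.nx 60 10323 (.nr 59 4097 (.nr 56 34 .s1 (.nx 57 27 (.l1 (.ls
  41 13 24)) (.nr 58 1724 (.lg 0 false 1 59 59 13 0 48) .out))) .out) .out) (.nx 66 10323 (.nr 65
  4097 (.nr 62 50 .s1 (.nx 63 27 (.l1 (.ls 31 13 17)) (.nr 64 1724 (.lg 0 false 1 53 53 13 0 240)
  .out))) .out) .out)) (.na 73 58 (.nx 72 10323 (.nr 71 4097 (.nr 68 52 .s1 (.nx 69 27 (.l1 (.ls 41
  11 17)) (.nr 70 1724 (.lg 0 true 1 53 53 19 0 624) .out))) .out) .out) (.na 79 64 (.nx 78 10323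
  (.nr 77 4097 (.nr 74 58 .s1 (.nx 75 163 (.l1 (.ls 23 23 461)) (.nr 76 513 (.lg 2 false 1 19 19 13
  356 240) .out))) .out) .out) .ne))) (.na 97 100 (.na 85 74 (.nx 84 20644 (.nr 83 2049 (.nr 81 68
  .s1 (.nx 82 9 (.l1 (.ls 16 13 19)) (.lg 0 true 1 59 59 13 0 48))) .out) .out) (.na 91 82 (.nx 90
  20644 (.nr 89 2049 (.nr 86 74 .s1 (.nx 87 163 (.l1 (.ls 29 29 362)) (.nr 88 513 (.lg 2 false 1 19
  19 13 558 240) .out))) .out) .out) (.nx 96 20644 (.nr 95 2049 (.nr 92 82 .s1 (.nx 93 163 (.l1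
  (.ls 23 29 327)) (.nr 94 513 (.lg 2 true 1 17 17 13 504 240) .out))) .out) .out))) (.na 102 106
  (.nx 101 20644 (.nr 100 2049 (.nr 98 100 .s1 (.nx 99 9 (.l1 (.ls 29 13 27)) (.lg 0 true 1 53 53
  23 0 240))) .out) .out) (.na 108 116 (.nx 107 20644 (.nr 106 2049 (.nr 103 106 .s1 (.nx 104 163
  (.l1 (.ls 23 23 253)) (.nr 105 513 (.lg 2 false 1 17 17 19 390 1680) .out))) .out) .out) (.nx 113
  20644 (.nr 112 2049 (.nr 109 116 .s1 (.nx 110 163 (.l1 (.ls 23 23 232)) (.nr 111 513 (.lg 2 false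
  1 17 19 19 356 3120) .out))) .out) .out)))))) (.na 175 218 (.na 139 164 (.na 121 130 (.na 120 128
  (.nx 119 20644 (.nr 118 2049 (.nr 115 122 .s1 (.nx 116 163 (.l1 (.ls 17 23 220)) (.nr 117 513
  (.lg 2 true 1 16 16 19 339 3120) .out))) .out) .out) .ne) (.na 127 146 (.nx 126 10323 (.nr 125
  2049 (.nr 122 130 .s1 (.nx 123 163 (.l1 (.ls 29 31 207)) (.nr 124 513 (.lg 2 false 1 16 16 29 159
  3120) .out))) .out) .out) (.na 133 148 (.nx 132 10323 (.nr 131 2049 (.nr 128 146 .s1 (.nx 129 163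
  (.l1 (.ls 19 23 184)) (.nr 130 513 (.lg 2 true 1 16 16 19 142 720720) .out))) .out) .out) (.nx
  138 10323 (.nr 137 2049 (.nr 134 148 .s1 (.nx 135 163 (.l1 (.ls 23 23 182)) (.nr 136 513 (.lg 2
  true 1 16 16 23 140 21840) .out))) .out) .out)))) (.na 157 194 (.na 145 170 (.nx 144 10323 (.nr
  143 2049 (.nr 140 164 .s1 (.nx 141 163 (.l1 (.ls 23 23 165)) (.nr 142 513 (.lg 2 false 1 16 16 23
  126 9360) .out))) .out) .out) (.na 151 178 (.nx 150 10323 (.nr 149 2049 (.nr 146 170 .s1 (.nx 147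
  163 (.l1 (.ls 16 31 159)) (.nr 148 513 (.lg 2 false 1 16 16 29 122 21840) .out))) .out) .out)
  (.nx 156 10323 (.nr 155 2049 (.nr 152 178 .s1 (.nx 153 163 (.l1 (.ls 17 23 152)) (.nr 154 513
  (.lg 2 false 1 16 16 19 116 720720) .out))) .out) .out))) (.na 163 202 (.nx 162 10323 (.nr 161
  2049 (.nr 158 194 .s1 (.nx 159 163 (.l1 (.ls 17 23 139)) (.nr 160 513 (.lg 2 false 1 16 16 19 107
  720720) .out))) .out) .out) (.na 169 212 (.nx 168 10323 (.nr 167 2049 (.nr 164 202 .s1 (.nx 165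
  163 (.l1 (.ls 17 23 134)) (.nr 166 513 (.lg 2 false 1 16 16 19 103 720720) .out))) .out) .out)
  (.nx 174 10323 (.nr 173 2049 (.nr 170 212 .s1 (.nx 171 163 (.l1 (.ls 23 23 128)) (.nr 172 513
  (.lg 2 false 1 16 16 23 98 240240) .out))) .out) .out))))) (.na 200 257 (.na 187 244 (.na 181 226
  (.nx 180 10323 (.nr 179 2049 (.nr 176 218 .s1 (.nx 177 163 (.l1 (.ls 17 23 124)) (.nr 178 513
  (.lg 2 false 1 16 16 19 95 720720) .out))) .out) .out) (.nx 186 10323 (.nr 185 2049 (.nr 182 226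
  .s1 (.nx 183 163 (.l1 (.ls 16 23 120)) (.nr 184 513 (.lg 2 false 1 16 16 19 92 720720) .out)))
  .out) .out)) (.na 193 250 (.nx 192 10323 (.nr 191 2049 (.nr 188 244 .s1 (.nx 189 163 (.l1 (.ls 19
  23 111)) (.nr 190 513 (.lg 2 false 1 16 16 23 85 720720) .out))) .out) .out) (.na 199 256 (.nx
  198 10323 (.nr 197 2049 (.nr 194 250 .s1 (.nx 195 163 (.l1 (.ls 17 29 109)) (.nr 196 513 (.lg 2
  false 1 16 16 23 83 720720) .out))) .out) .out) .ne))) (.na 738 2048 (.na 489 512 (.nx 488 163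
  (.nr 487 4097 (.nr 201 257 .s1 (.nx 232 32 (.lx (.lp 16 0 129)) (.la (.ls 41 19 129)))) .out)
  .out) (.na 654 1024 (.nx 653 163 (.nr 652 4097 (.nr 490 512 .s1 (.lx (.lp 41 19 257))) .out)
  .out) (.nx 737 82 (.nr 736 8193 (.nr 655 1024 .s1 (.lx (.lp 16 0 513))) .out) .out))) (.na 822
  4096 (.nx 821 82 (.nr 820 8193 (.nr 739 2048 .s1 (.lx (.lp 37 23 1025))) .out) .out) (.na 906
  8193 (.nx 905 82 (.nr 904 16385 (.nr 823 4096 .s1 (.lx (.lp 16 0 2049))) .out) .out) .out))))))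

theorem c28 :
    OkQ ckI L6 111 25 1099511627776 0 34359738368 1 1099511627776 ∧
    OkQ ckI L10 224 90 512 0 34359738368 1 1099511627776 ∧
    OkQ ckI L1 4 1 1099511627776 0 34359738368 1 1099511627776 := by
  refine ⟨?_, ?_, ?_⟩
  · refine fin 888 7771 T28_0 ?_
    refine jn 5 (by decide +kernel) ?_
    refine jn 9 (by decide +kernel) ?_
    refine jn 14 (by decide +kernel) ?_
    refine jn 25 (by decide +kernel) ?_
    refine jn 26 (by decide +kernel) ?_
    refine jn 27 (by decide +kernel) ?_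
    refine jn 28 (by decide +kernel) ?_
    refine jn 29 (by decide +kernel) ?_
    refine jn 30 (by decide +kernel) ?_
    refine jn 31 (by decide +kernel) ?_
    refine jn 33 (by decide +kernel) ?_
    refine jn 36 (by decide +kernel) ?_
    refine jn 51 (by decide +kernel) ?_
    refine jn 55 (by decide +kernel) ?_
    refine jn 67 (by decide +kernel) ?_
    refine jn 70 (by decide +kernel) ?_
    refine jn 75 (by decide +kernel) ?_
    refine jn 85 (by decide +kernel) ?_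
    refine jn 86 (by decide +kernel) ?_
    refine jn 87 (by decide +kernel) ?_
    refine jn 88 (by decide +kernel) ?_
    refine jn 91 (by decide +kernel) ?_
    refine jn 92 (by decide +kernel) ?_
    refine jn 93 (by decide +kernel) ?_
    refine jn 94 (by decide +kernel) ?_
    refine jn 95 (by decide +kernel) ?_
    refine jn 110 (by decide +kernel) ?_
    refine jn 115 (by decide +kernel) ?_
    refine jn 123 (by decide +kernel) ?_
    refine jn 125 (by decide +kernel) ?_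
    refine jn 127 (by decide +kernel) ?_
    refine jn 129 (by decide +kernel) ?_
    refine jn 131 (by decide +kernel) ?_
    refine jn 133 (by decide +kernel) ?_
    refine jn 153 (by decide +kernel) ?_
    refine jn 161 (by decide +kernel) ?_
    refine jn 162 (by decide +kernel) ?_
    refine jn 163 (by decide +kernel) ?_
    refine jn 164 (by decide +kernel) ?_
    refine jn 167 (by decide +kernel) ?_
    refine jn 168 (by decide +kernel) ?_
    refine jn 169 (by decide +kernel) ?_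
    refine jn 170 (by decide +kernel) ?_
    refine jn 182 (by decide +kernel) ?_
    refine jn 187 (by decide +kernel) ?_
    refine jn 199 (by decide +kernel) ?_
    refine jn 204 (by decide +kernel) ?_
    refine jn 212 (by decide +kernel) ?_
    refine jn 213 (by decide +kernel) ?_
    refine jn 214 (by decide +kernel) ?_
    refine jn 216 (by decide +kernel) ?_
    refine jn 225 (by decide +kernel) ?_
    refine jn 233 (by decide +kernel) ?_
    refine jn 244 (by decide +kernel) ?_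
    refine jn 248 (by decide +kernel) ?_
    refine jn 260 (by decide +kernel) ?_
    refine jn 265 (by decide +kernel) ?_
    refine jn 274 (by decide +kernel) ?_
    refine jn 275 (by decide +kernel) ?_
    refine jn 277 (by decide +kernel) ?_
    refine jn 278 (by decide +kernel) ?_
    refine jn 279 (by decide +kernel) ?_
    refine jn 280 (by decide +kernel) ?_
    refine jn 292 (by decide +kernel) ?_
    refine jn 305 (by decide +kernel) ?_
    refine jn 314 (by decide +kernel) ?_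
    refine jn 319 (by decide +kernel) ?_
    refine jn 320 (by decide +kernel) ?_
    refine jn 328 (by decide +kernel) ?_
    refine jn 333 (by decide +kernel) ?_
    refine jn 335 (by decide +kernel) ?_
    refine jn 349 (by decide +kernel) ?_
    refine jn 359 (by decide +kernel) ?_
    refine jn 363 (by decide +kernel) ?_
    refine jn 365 (by decide +kernel) ?_
    refine jn 378 (by decide +kernel) ?_
    refine jn 390 (by decide +kernel) ?_
    refine jn 392 (by decide +kernel) ?_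
    refine jn 394 (by decide +kernel) ?_
    refine jn 408 (by decide +kernel) ?_
    refine jn 426 (by decide +kernel) ?_
    refine jn 442 (by decide +kernel) ?_
    refine jn 451 (by decide +kernel) ?_
    refine jn 452 (by decide +kernel) ?_
    refine jn 453 (by decide +kernel) ?_
    refine jn 455 (by decide +kernel) ?_
    refine jn 465 (by decide +kernel) ?_
    refine jn 468 (by decide +kernel) ?_
    refine jn 478 (by decide +kernel) ?_
    refine jn 481 (by decide +kernel) ?_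
    refine jn 492 (by decide +kernel) ?_
    refine jn 505 (by decide +kernel) ?_
    refine jn 517 (by decide +kernel) ?_
    refine jn 520 (by decide +kernel) ?_
    refine jn 530 (by decide +kernel) ?_
    refine jn 533 (by decide +kernel) ?_
    refine jn 545 (by decide +kernel) ?_
    refine jn 555 (by decide +kernel) ?_
    refine jn 558 (by decide +kernel) ?_
    refine jn 569 (by decide +kernel) ?_
    refine jn 580 (by decide +kernel) ?_
    refine jn 596 (by decide +kernel) ?_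
    refine jn 603 (by decide +kernel) ?_
    refine jn 604 (by decide +kernel) ?_
    refine jn 605 (by decide +kernel) ?_
    refine jn 611 (by decide +kernel) ?_
    refine jn 617 (by decide +kernel) ?_
    refine jn 626 (by decide +kernel) ?_
    refine jn 628 (by decide +kernel) ?_
    refine jn 637 (by decide +kernel) ?_
    refine jn 639 (by decide +kernel) ?_
    refine jn 650 (by decide +kernel) ?_
    refine jn 659 (by decide +kernel) ?_
    refine jn 661 (by decide +kernel) ?_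
    refine jn 669 (by decide +kernel) ?_
    refine jn 670 (by decide +kernel) ?_
    refine jn 673 (by decide +kernel) ?_
    refine jn 685 (by decide +kernel) ?_
    refine jn 698 (by decide +kernel) ?_
    refine jn 705 (by decide +kernel) ?_
    refine jn 715 (by decide +kernel) ?_
    refine jn 729 (by decide +kernel) ?_
    refine jn 731 (by decide +kernel) ?_
    refine jn 732 (by decide +kernel) ?_
    refine jn 742 (by decide +kernel) ?_
    refine jn 751 (by decide +kernel) ?_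
    refine jn 758 (by decide +kernel) ?_
    refine jn 761 (by decide +kernel) ?_
    refine jn 770 (by decide +kernel) ?_
    refine jn 786 (by decide +kernel) ?_
    refine jn 803 (by decide +kernel) ?_
    refine jn 820 (by decide +kernel) ?_
    refine jn 827 (by decide +kernel) ?_
    refine jn 828 (by decide +kernel) ?_
    refine jn 836 (by decide +kernel) ?_
    refine jn 852 (by decide +kernel) ?_
    refine jn 853 (by decide +kernel) ?_
    refine jn 861 (by decide +kernel) ?_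
    refine jn 871 (by decide +kernel) ?_
    refine jn 879 (by decide +kernel) ?_
    refine jn 895 (by decide +kernel) ?_
    refine jn 912 (by decide +kernel) ?_
    refine jn 919 (by decide +kernel) ?_
    refine jn 928 (by decide +kernel) ?_
    refine jn 944 (by decide +kernel) ?_
    refine jn 954 (by decide +kernel) ?_
    refine jn 963 (by decide +kernel) ?_
    refine jn 972 (by decide +kernel) ?_
    refine jn 980 (by decide +kernel) ?_
    refine jn 988 (by decide +kernel) ?_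
    refine jn 997 (by decide +kernel) ?_
    refine jn 1014 (by decide +kernel) ?_
    refine jn 1029 (by decide +kernel) ?_
    refine jn 1036 (by decide +kernel) ?_
    refine jn 1046 (by decide +kernel) ?_
    refine jn 1062 (by decide +kernel) ?_
    refine jn 1070 (by decide +kernel) ?_
    refine jn 1077 (by decide +kernel) ?_
    refine jn 1086 (by decide +kernel) ?_
    refine jn 1095 (by decide +kernel) ?_
    refine jn 1109 (by decide +kernel) ?_
    refine jn 1111 (by decide +kernel) ?_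
    refine jn 1123 (by decide +kernel) ?_
    refine jn 1137 (by decide +kernel) ?_
    refine jn 1153 (by decide +kernel) ?_
    refine jn 1162 (by decide +kernel) ?_
    refine jn 1186 (by decide +kernel) ?_
    refine jn 1190 (by decide +kernel) ?_
    refine jn 1199 (by decide +kernel) ?_
    refine jn 1217 (by decide +kernel) ?_
    refine jn 1246 (by decide +kernel) ?_
    refine jn 1258 (by decide +kernel) ?_
    refine jn 1275 (by decide +kernel) ?_
    refine jn 1294 (by decide +kernel) ?_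
    refine jn 1311 (by decide +kernel) ?_
    refine jn 1332 (by decide +kernel) ?_
    refine jn 1359 (by decide +kernel) ?_
    refine jn 1379 (by decide +kernel) ?_
    refine jn 1393 (by decide +kernel) ?_
    refine jn 1422 (by decide +kernel) ?_
    refine jn 1432 (by decide +kernel) ?_
    refine jn 1436 (by decide +kernel) ?_
    refine jn 1437 (by decide +kernel) ?_
    refine jn 1438 (by decide +kernel) ?_
    refine jn 1445 (by decide +kernel) ?_
    refine jn 1446 (by decide +kernel) ?_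
    refine jn 1455 (by decide +kernel) ?_
    refine jn 1457 (by decide +kernel) ?_
    refine jn 1460 (by decide +kernel) ?_
    refine jn 1465 (by decide +kernel) ?_
    refine jn 1472 (by decide +kernel) ?_
    refine jn 1485 (by decide +kernel) ?_
    refine jn 1487 (by decide +kernel) ?_
    refine jn 1500 (by decide +kernel) ?_
    refine jn 1501 (by decide +kernel) ?_
    refine jn 1502 (by decide +kernel) ?_
    refine jn 1505 (by decide +kernel) ?_
    refine jn 1506 (by decide +kernel) ?_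
    refine jn 1512 (by decide +kernel) ?_
    refine jn 1514 (by decide +kernel) ?_
    refine jn 1518 (by decide +kernel) ?_
    refine jn 1522 (by decide +kernel) ?_
    refine jn 1527 (by decide +kernel) ?_
    refine jn 1532 (by decide +kernel) ?_
    refine jn 1533 (by decide +kernel) ?_
    refine jn 1535 (by decide +kernel) ?_
    refine jn 1544 (by decide +kernel) ?_
    refine jn 1548 (by decide +kernel) ?_
    refine jn 1554 (by decide +kernel) ?_
    refine jn 1557 (by decide +kernel) ?_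
    refine jn 1558 (by decide +kernel) ?_
    refine jn 1565 (by decide +kernel) ?_
    refine jn 1566 (by decide +kernel) ?_
    refine jn 1573 (by decide +kernel) ?_
    refine jn 1578 (by decide +kernel) ?_
    refine jn 1585 (by decide +kernel) ?_
    refine jn 1587 (by decide +kernel) ?_
    refine jn 1598 (by decide +kernel) ?_
    refine jn 1609 (by decide +kernel) ?_
    refine jn 1613 (by decide +kernel) ?_
    refine jn 1614 (by decide +kernel) ?_
    refine jn 1619 (by decide +kernel) ?_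
    refine jn 1625 (by decide +kernel) ?_
    refine jn 1626 (by decide +kernel) ?_
    refine jn 1629 (by decide +kernel) ?_
    refine jn 1632 (by decide +kernel) ?_
    refine jn 1637 (by decide +kernel) ?_
    refine jn 1641 (by decide +kernel) ?_
    refine jn 1643 (by decide +kernel) ?_
    refine jn 1645 (by decide +kernel) ?_
    refine jn 1648 (by decide +kernel) ?_
    refine jn 1658 (by decide +kernel) ?_
    refine jn 1666 (by decide +kernel) ?_
    refine jn 1673 (by decide +kernel) ?_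
    refine jn 1676 (by decide +kernel) ?_
    refine jn 1705 (by decide +kernel) ?_
    refine jn 1729 (by decide +kernel) ?_
    refine jn 1749 (by decide +kernel) ?_
    refine jn 1769 (by decide +kernel) ?_
    refine jn 1802 (by decide +kernel) ?_
    refine jn 1839 (by decide +kernel) ?_
    refine jn 1859 (by decide +kernel) ?_
    refine jn 1881 (by decide +kernel) ?_
    refine jn 1896 (by decide +kernel) ?_
    refine jn 1907 (by decide +kernel) ?_
    refine jn 1918 (by decide +kernel) ?_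
    refine jn 1919 (by decide +kernel) ?_
    refine jn 1926 (by decide +kernel) ?_
    refine jn 1934 (by decide +kernel) ?_
    refine jn 1937 (by decide +kernel) ?_
    refine jn 1942 (by decide +kernel) ?_
    refine jn 1943 (by decide +kernel) ?_
    refine jn 1951 (by decide +kernel) ?_
    refine jn 1957 (by decide +kernel) ?_
    refine jn 1962 (by decide +kernel) ?_
    refine jn 1966 (by decide +kernel) ?_
    refine jn 1970 (by decide +kernel) ?_
    refine jn 1974 (by decide +kernel) ?_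
    refine jn 1977 (by decide +kernel) ?_
    refine jn 1982 (by decide +kernel) ?_
    refine jn 1986 (by decide +kernel) ?_
    refine jn 1996 (by decide +kernel) ?_
    refine jn 2005 (by decide +kernel) ?_
    refine jn 2011 (by decide +kernel) ?_
    refine jn 2022 (by decide +kernel) ?_
    refine jn 2026 (by decide +kernel) ?_
    refine jn 2029 (by decide +kernel) ?_
    refine jn 2049 (by decide +kernel) ?_
    refine jn 2052 (by decide +kernel) ?_
    refine jn 2054 (by decide +kernel) ?_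
    refine jn 2056 (by decide +kernel) ?_
    refine jn 2062 (by decide +kernel) ?_
    refine jn 2063 (by decide +kernel) ?_
    refine jn 2069 (by decide +kernel) ?_
    refine jn 2076 (by decide +kernel) ?_
    refine jn 2078 (by decide +kernel) ?_
    refine jn 2082 (by decide +kernel) ?_
    refine jn 2088 (by decide +kernel) ?_
    refine jn 2094 (by decide +kernel) ?_
    refine jn 2098 (by decide +kernel) ?_
    refine jn 2111 (by decide +kernel) ?_
    refine jn 2122 (by decide +kernel) ?_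
    refine jn 2139 (by decide +kernel) ?_
    refine jn 2157 (by decide +kernel) ?_
    refine jn 2172 (by decide +kernel) ?_
    refine jn 2190 (by decide +kernel) ?_
    refine jn 2199 (by decide +kernel) ?_
    refine jn 2220 (by decide +kernel) ?_
    refine jn 2227 (by decide +kernel) ?_
    refine jn 2256 (by decide +kernel) ?_
    refine jn 2275 (by decide +kernel) ?_
    refine jn 2290 (by decide +kernel) ?_
    refine jn 2303 (by decide +kernel) ?_
    refine jn 2311 (by decide +kernel) ?_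
    refine jn 2330 (by decide +kernel) ?_
    refine jn 2341 (by decide +kernel) ?_
    refine jn 2363 (by decide +kernel) ?_
    refine jn 2389 (by decide +kernel) ?_
    refine jn 2402 (by decide +kernel) ?_
    refine jn 2417 (by decide +kernel) ?_
    refine jn 2437 (by decide +kernel) ?_
    refine jn 2455 (by decide +kernel) ?_
    refine jn 2477 (by decide +kernel) ?_
    refine jn 2498 (by decide +kernel) ?_
    refine jn 2509 (by decide +kernel) ?_
    refine jn 2524 (by decide +kernel) ?_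
    refine jn 2545 (by decide +kernel) ?_
    refine jn 2558 (by decide +kernel) ?_
    refine jn 2579 (by decide +kernel) ?_
    refine jn 2597 (by decide +kernel) ?_
    refine jn 2626 (by decide +kernel) ?_
    refine jn 2645 (by decide +kernel) ?_
    refine jn 2669 (by decide +kernel) ?_
    refine jn 2683 (by decide +kernel) ?_
    refine jn 2725 (by decide +kernel) ?_
    refine jn 2737 (by decide +kernel) ?_
    refine jn 2751 (by decide +kernel) ?_
    refine jn 2779 (by decide +kernel) ?_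
    refine jn 2791 (by decide +kernel) ?_
    refine jn 2817 (by decide +kernel) ?_
    refine jn 2838 (by decide +kernel) ?_
    refine jn 2976 (by decide +kernel) ?_
    refine jn 3013 (by decide +kernel) ?_
    refine jn 3047 (by decide +kernel) ?_
    refine jn 3086 (by decide +kernel) ?_
    refine jn 3124 (by decide +kernel) ?_
    refine jn 3172 (by decide +kernel) ?_
    refine jn 3197 (by decide +kernel) ?_
    refine jn 3238 (by decide +kernel) ?_
    refine jn 3282 (by decide +kernel) ?_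
    refine jn 3314 (by decide +kernel) ?_
    refine jn 3346 (by decide +kernel) ?_
    refine jn 3392 (by decide +kernel) ?_
    refine jn 3424 (by decide +kernel) ?_
    refine jn 3464 (by decide +kernel) ?_
    refine jn 3509 (by decide +kernel) ?_
    refine jn 3544 (by decide +kernel) ?_
    refine jn 3681 (by decide +kernel) ?_
    refine jn 3729 (by decide +kernel) ?_
    refine jn 3768 (by decide +kernel) ?_
    refine jn 3818 (by decide +kernel) ?_
    refine jn 3859 (by decide +kernel) ?_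
    refine jn 3900 (by decide +kernel) ?_
    refine jn 3954 (by decide +kernel) ?_
    refine jn 3980 (by decide +kernel) ?_
    refine jn 4023 (by decide +kernel) ?_
    refine jn 4075 (by decide +kernel) ?_
    refine jn 4118 (by decide +kernel) ?_
    refine jn 4170 (by decide +kernel) ?_
    refine jn 4209 (by decide +kernel) ?_
    refine jn 4273 (by decide +kernel) ?_
    refine jn 4308 (by decide +kernel) ?_
    refine jn 4350 (by decide +kernel) ?_
    refine jn 4395 (by decide +kernel) ?_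
    refine jn 4429 (by decide +kernel) ?_
    refine jn 4475 (by decide +kernel) ?_
    refine jn 4519 (by decide +kernel) ?_
    refine jn 4729 (by decide +kernel) ?_
    refine jn 4839 (by decide +kernel) ?_
    refine jn 4929 (by decide +kernel) ?_
    refine jn 5031 (by decide +kernel) ?_
    refine jn 5089 (by decide +kernel) ?_
    refine jn 5169 (by decide +kernel) ?_
    refine jn 5364 (by decide +kernel) ?_
    refine jn 5439 (by decide +kernel) ?_
    refine jn 5511 (by decide +kernel) ?_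
    refine jn 5569 (by decide +kernel) ?_
    refine jn 5618 (by decide +kernel) ?_
    refine jn 5679 (by decide +kernel) ?_
    refine jn 5727 (by decide +kernel) ?_
    refine jn 5753 (by decide +kernel) ?_
    refine jn 5805 (by decide +kernel) ?_
    refine jn 5999 (by decide +kernel) ?_
    refine jn 6099 (by decide +kernel) ?_
    refine jn 6172 (by decide +kernel) ?_
    refine jn 6248 (by decide +kernel) ?_
    refine jn 6308 (by decide +kernel) ?_
    refine jn 6377 (by decide +kernel) ?_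
    refine jn 6420 (by decide +kernel) ?_
    refine jn 6646 (by decide +kernel) ?_
    refine jn 6724 (by decide +kernel) ?_
    refine jn 6832 (by decide +kernel) ?_
    refine jn 6916 (by decide +kernel) ?_
    refine jn 7028 (by decide +kernel) ?_
    refine jn 7318 (by decide +kernel) ?_
    refine jn 7406 (by decide +kernel) ?_
    refine jn 7765 (by decide +kernel) ?_
    exact je (by decide +kernel)
  · refine fin 1008 2174 T28_1 ?_
    refine jn 7 (by decide +kernel) ?_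
    refine jn 13 (by decide +kernel) ?_
    refine jn 25 (by decide +kernel) ?_
    refine jn 36 (by decide +kernel) ?_
    refine jn 43 (by decide +kernel) ?_
    refine jn 47 (by decide +kernel) ?_
    refine jn 54 (by decide +kernel) ?_
    refine jn 57 (by decide +kernel) ?_
    refine jn 60 (by decide +kernel) ?_
    refine jn 67 (by decide +kernel) ?_
    refine jn 71 (by decide +kernel) ?_
    refine jn 72 (by decide +kernel) ?_
    refine jn 73 (by decide +kernel) ?_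
    refine jn 75 (by decide +kernel) ?_
    refine jn 76 (by decide +kernel) ?_
    refine jn 77 (by decide +kernel) ?_
    refine jn 78 (by decide +kernel) ?_
    refine jn 92 (by decide +kernel) ?_
    refine jn 95 (by decide +kernel) ?_
    refine jn 110 (by decide +kernel) ?_
    refine jn 125 (by decide +kernel) ?_
    refine jn 129 (by decide +kernel) ?_
    refine jn 141 (by decide +kernel) ?_
    refine jn 145 (by decide +kernel) ?_
    refine jn 157 (by decide +kernel) ?_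
    refine jn 161 (by decide +kernel) ?_
    refine jn 170 (by decide +kernel) ?_
    refine jn 173 (by decide +kernel) ?_
    refine jn 187 (by decide +kernel) ?_
    refine jn 197 (by decide +kernel) ?_
    refine jn 200 (by decide +kernel) ?_
    refine jn 210 (by decide +kernel) ?_
    refine jn 213 (by decide +kernel) ?_
    refine jn 222 (by decide +kernel) ?_
    refine jn 225 (by decide +kernel) ?_
    refine jn 240 (by decide +kernel) ?_
    refine jn 249 (by decide +kernel) ?_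
    refine jn 250 (by decide +kernel) ?_
    refine jn 251 (by decide +kernel) ?_
    refine jn 255 (by decide +kernel) ?_
    refine jn 256 (by decide +kernel) ?_
    refine jn 270 (by decide +kernel) ?_
    refine jn 283 (by decide +kernel) ?_
    refine jn 298 (by decide +kernel) ?_
    refine jn 309 (by decide +kernel) ?_
    refine jn 326 (by decide +kernel) ?_
    refine jn 329 (by decide +kernel) ?_
    refine jn 344 (by decide +kernel) ?_
    refine jn 359 (by decide +kernel) ?_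
    refine jn 370 (by decide +kernel) ?_
    refine jn 377 (by decide +kernel) ?_
    refine jn 387 (by decide +kernel) ?_
    refine jn 398 (by decide +kernel) ?_
    refine jn 401 (by decide +kernel) ?_
    refine jn 416 (by decide +kernel) ?_
    refine jn 427 (by decide +kernel) ?_
    refine jn 430 (by decide +kernel) ?_
    refine jn 443 (by decide +kernel) ?_
    refine jn 452 (by decide +kernel) ?_
    refine jn 454 (by decide +kernel) ?_
    refine jn 456 (by decide +kernel) ?_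
    refine jn 469 (by decide +kernel) ?_
    refine jn 476 (by decide +kernel) ?_
    refine jn 484 (by decide +kernel) ?_
    refine jn 495 (by decide +kernel) ?_
    refine jn 497 (by decide +kernel) ?_
    refine jn 506 (by decide +kernel) ?_
    refine jn 508 (by decide +kernel) ?_
    refine jn 511 (by decide +kernel) ?_
    refine jn 524 (by decide +kernel) ?_
    refine jn 537 (by decide +kernel) ?_
    refine jn 545 (by decide +kernel) ?_
    refine jn 547 (by decide +kernel) ?_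
    refine jn 550 (by decide +kernel) ?_
    refine jn 562 (by decide +kernel) ?_
    refine jn 575 (by decide +kernel) ?_
    refine jn 589 (by decide +kernel) ?_
    refine jn 602 (by decide +kernel) ?_
    refine jn 610 (by decide +kernel) ?_
    refine jn 617 (by decide +kernel) ?_
    refine jn 628 (by decide +kernel) ?_
    refine jn 641 (by decide +kernel) ?_
    refine jn 655 (by decide +kernel) ?_
    refine jn 666 (by decide +kernel) ?_
    refine jn 676 (by decide +kernel) ?_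
    refine jn 677 (by decide +kernel) ?_
    refine jn 679 (by decide +kernel) ?_
    refine jn 683 (by decide +kernel) ?_
    refine jn 695 (by decide +kernel) ?_
    refine jn 708 (by decide +kernel) ?_
    refine jn 719 (by decide +kernel) ?_
    refine jn 730 (by decide +kernel) ?_
    refine jn 738 (by decide +kernel) ?_
    refine jn 750 (by decide +kernel) ?_
    refine jn 756 (by decide +kernel) ?_
    refine jn 769 (by decide +kernel) ?_
    refine jn 783 (by decide +kernel) ?_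
    refine jn 792 (by decide +kernel) ?_
    refine jn 795 (by decide +kernel) ?_
    refine jn 808 (by decide +kernel) ?_
    refine jn 821 (by decide +kernel) ?_
    refine jn 833 (by decide +kernel) ?_
    refine jn 842 (by decide +kernel) ?_
    refine jn 844 (by decide +kernel) ?_
    refine jn 855 (by decide +kernel) ?_
    refine jn 864 (by decide +kernel) ?_
    refine jn 869 (by decide +kernel) ?_
    refine jn 880 (by decide +kernel) ?_
    refine jn 889 (by decide +kernel) ?_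
    refine jn 894 (by decide +kernel) ?_
    refine jn 905 (by decide +kernel) ?_
    refine jn 918 (by decide +kernel) ?_
    refine jn 932 (by decide +kernel) ?_
    refine jn 940 (by decide +kernel) ?_
    refine jn 945 (by decide +kernel) ?_
    refine jn 958 (by decide +kernel) ?_
    refine jn 968 (by decide +kernel) ?_
    refine jn 981 (by decide +kernel) ?_
    refine jn 993 (by decide +kernel) ?_
    refine jn 1004 (by decide +kernel) ?_
    refine jn 1016 (by decide +kernel) ?_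
    refine jn 1029 (by decide +kernel) ?_
    refine jn 1034 (by decide +kernel) ?_
    refine jn 1035 (by decide +kernel) ?_
    refine jn 1037 (by decide +kernel) ?_
    refine jn 1038 (by decide +kernel) ?_
    refine jn 1039 (by decide +kernel) ?_
    refine jn 1041 (by decide +kernel) ?_
    refine jn 1058 (by decide +kernel) ?_
    refine jn 1064 (by decide +kernel) ?_
    refine jn 1076 (by decide +kernel) ?_
    refine jn 1088 (by decide +kernel) ?_
    refine jn 1101 (by decide +kernel) ?_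
    refine jn 1113 (by decide +kernel) ?_
    refine jn 1123 (by decide +kernel) ?_
    refine jn 1136 (by decide +kernel) ?_
    refine jn 1160 (by decide +kernel) ?_
    refine jn 1169 (by decide +kernel) ?_
    refine jn 1184 (by decide +kernel) ?_
    refine jn 1191 (by decide +kernel) ?_
    refine jn 1216 (by decide +kernel) ?_
    refine jn 1229 (by decide +kernel) ?_
    refine jn 1244 (by decide +kernel) ?_
    refine jn 1252 (by decide +kernel) ?_
    refine jn 1253 (by decide +kernel) ?_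
    refine jn 1258 (by decide +kernel) ?_
    refine jn 1262 (by decide +kernel) ?_
    refine jn 1265 (by decide +kernel) ?_
    refine jn 1268 (by decide +kernel) ?_
    refine jn 1269 (by decide +kernel) ?_
    refine jn 1273 (by decide +kernel) ?_
    refine jn 1276 (by decide +kernel) ?_
    refine jn 1277 (by decide +kernel) ?_
    refine jn 1278 (by decide +kernel) ?_
    refine jn 1280 (by decide +kernel) ?_
    refine jn 1281 (by decide +kernel) ?_
    refine jn 1291 (by decide +kernel) ?_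
    refine jn 1292 (by decide +kernel) ?_
    refine jn 1293 (by decide +kernel) ?_
    refine jn 1296 (by decide +kernel) ?_
    refine jn 1297 (by decide +kernel) ?_
    refine jn 1304 (by decide +kernel) ?_
    refine jn 1305 (by decide +kernel) ?_
    refine jn 1308 (by decide +kernel) ?_
    refine jn 1316 (by decide +kernel) ?_
    refine jn 1324 (by decide +kernel) ?_
    refine jn 1328 (by decide +kernel) ?_
    refine jn 1329 (by decide +kernel) ?_
    refine jn 1331 (by decide +kernel) ?_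
    refine jn 1337 (by decide +kernel) ?_
    refine jn 1338 (by decide +kernel) ?_
    refine jn 1343 (by decide +kernel) ?_
    refine jn 1347 (by decide +kernel) ?_
    refine jn 1352 (by decide +kernel) ?_
    refine jn 1353 (by decide +kernel) ?_
    refine jn 1358 (by decide +kernel) ?_
    refine jn 1359 (by decide +kernel) ?_
    refine jn 1368 (by decide +kernel) ?_
    refine jn 1374 (by decide +kernel) ?_
    refine jn 1376 (by decide +kernel) ?_
    refine jn 1381 (by decide +kernel) ?_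
    refine jn 1383 (by decide +kernel) ?_
    refine jn 1386 (by decide +kernel) ?_
    refine jn 1391 (by decide +kernel) ?_
    refine jn 1397 (by decide +kernel) ?_
    refine jn 1398 (by decide +kernel) ?_
    refine jn 1400 (by decide +kernel) ?_
    refine jn 1402 (by decide +kernel) ?_
    refine jn 1403 (by decide +kernel) ?_
    refine jn 1410 (by decide +kernel) ?_
    refine jn 1412 (by decide +kernel) ?_
    refine jn 1420 (by decide +kernel) ?_
    refine jn 1430 (by decide +kernel) ?_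
    refine jn 1435 (by decide +kernel) ?_
    refine jn 1440 (by decide +kernel) ?_
    refine jn 1443 (by decide +kernel) ?_
    refine jn 1444 (by decide +kernel) ?_
    refine jn 1452 (by decide +kernel) ?_
    refine jn 1458 (by decide +kernel) ?_
    refine jn 1460 (by decide +kernel) ?_
    refine jn 1466 (by decide +kernel) ?_
    refine jn 1473 (by decide +kernel) ?_
    refine jn 1478 (by decide +kernel) ?_
    refine jn 1482 (by decide +kernel) ?_
    refine jn 1487 (by decide +kernel) ?_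
    refine jn 1489 (by decide +kernel) ?_
    refine jn 1492 (by decide +kernel) ?_
    refine jn 1499 (by decide +kernel) ?_
    refine jn 1504 (by decide +kernel) ?_
    refine jn 1507 (by decide +kernel) ?_
    refine jn 1509 (by decide +kernel) ?_
    refine jn 1516 (by decide +kernel) ?_
    refine jn 1519 (by decide +kernel) ?_
    refine jn 1528 (by decide +kernel) ?_
    refine jn 1540 (by decide +kernel) ?_
    refine jn 1542 (by decide +kernel) ?_
    refine jn 1549 (by decide +kernel) ?_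
    refine jn 1553 (by decide +kernel) ?_
    refine jn 1558 (by decide +kernel) ?_
    refine jn 1564 (by decide +kernel) ?_
    refine jn 1566 (by decide +kernel) ?_
    refine jn 1587 (by decide +kernel) ?_
    refine jn 1602 (by decide +kernel) ?_
    refine jn 1620 (by decide +kernel) ?_
    refine jn 1629 (by decide +kernel) ?_
    refine jn 1646 (by decide +kernel) ?_
    refine jn 1665 (by decide +kernel) ?_
    refine jn 1677 (by decide +kernel) ?_
    refine jn 1689 (by decide +kernel) ?_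
    refine jn 1690 (by decide +kernel) ?_
    refine jn 1714 (by decide +kernel) ?_
    refine jn 1726 (by decide +kernel) ?_
    refine jn 1728 (by decide +kernel) ?_
    refine jn 1729 (by decide +kernel) ?_
    refine jn 1740 (by decide +kernel) ?_
    refine jn 1741 (by decide +kernel) ?_
    refine jn 1746 (by decide +kernel) ?_
    refine jn 1750 (by decide +kernel) ?_
    refine jn 1751 (by decide +kernel) ?_
    refine jn 1757 (by decide +kernel) ?_
    refine jn 1760 (by decide +kernel) ?_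
    refine jn 1761 (by decide +kernel) ?_
    refine jn 1765 (by decide +kernel) ?_
    refine jn 1773 (by decide +kernel) ?_
    refine jn 1775 (by decide +kernel) ?_
    refine jn 1776 (by decide +kernel) ?_
    refine jn 1777 (by decide +kernel) ?_
    refine jn 1780 (by decide +kernel) ?_
    refine jn 1786 (by decide +kernel) ?_
    refine jn 1791 (by decide +kernel) ?_
    refine jn 1792 (by decide +kernel) ?_
    refine jn 1797 (by decide +kernel) ?_
    refine jn 1810 (by decide +kernel) ?_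
    refine jn 1813 (by decide +kernel) ?_
    refine jn 1815 (by decide +kernel) ?_
    refine jn 1816 (by decide +kernel) ?_
    refine jn 1817 (by decide +kernel) ?_
    refine jn 1820 (by decide +kernel) ?_
    refine jn 1821 (by decide +kernel) ?_
    refine jn 1827 (by decide +kernel) ?_
    refine jn 1828 (by decide +kernel) ?_
    refine jn 1831 (by decide +kernel) ?_
    refine jn 1834 (by decide +kernel) ?_
    refine jn 1838 (by decide +kernel) ?_
    refine jn 1840 (by decide +kernel) ?_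
    refine jn 1841 (by decide +kernel) ?_
    refine jn 1847 (by decide +kernel) ?_
    refine jn 1854 (by decide +kernel) ?_
    refine jn 1858 (by decide +kernel) ?_
    refine jn 1862 (by decide +kernel) ?_
    refine jn 1865 (by decide +kernel) ?_
    refine jn 1868 (by decide +kernel) ?_
    refine jn 1873 (by decide +kernel) ?_
    refine jn 1877 (by decide +kernel) ?_
    refine jn 1884 (by decide +kernel) ?_
    refine jn 1889 (by decide +kernel) ?_
    refine jn 1891 (by decide +kernel) ?_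
    refine jn 1899 (by decide +kernel) ?_
    refine jn 1904 (by decide +kernel) ?_
    refine jn 1909 (by decide +kernel) ?_
    refine jn 1913 (by decide +kernel) ?_
    refine jn 1922 (by decide +kernel) ?_
    refine jn 1925 (by decide +kernel) ?_
    refine jn 1928 (by decide +kernel) ?_
    refine jn 1935 (by decide +kernel) ?_
    refine jn 1941 (by decide +kernel) ?_
    refine jn 1958 (by decide +kernel) ?_
    refine jn 1962 (by decide +kernel) ?_
    refine jn 1965 (by decide +kernel) ?_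
    refine jn 1967 (by decide +kernel) ?_
    refine jn 1970 (by decide +kernel) ?_
    refine jn 1977 (by decide +kernel) ?_
    refine jn 1981 (by decide +kernel) ?_
    refine jn 1987 (by decide +kernel) ?_
    refine jn 1989 (by decide +kernel) ?_
    refine jn 1990 (by decide +kernel) ?_
    refine jn 1997 (by decide +kernel) ?_
    refine jn 2007 (by decide +kernel) ?_
    refine jn 2013 (by decide +kernel) ?_
    refine jn 2017 (by decide +kernel) ?_
    refine jn 2024 (by decide +kernel) ?_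
    refine jn 2033 (by decide +kernel) ?_
    refine jn 2038 (by decide +kernel) ?_
    refine jn 2040 (by decide +kernel) ?_
    refine jn 2048 (by decide +kernel) ?_
    refine jn 2053 (by decide +kernel) ?_
    refine jn 2058 (by decide +kernel) ?_
    refine jn 2062 (by decide +kernel) ?_
    refine jn 2071 (by decide +kernel) ?_
    refine jn 2074 (by decide +kernel) ?_
    refine jn 2077 (by decide +kernel) ?_
    refine jn 2084 (by decide +kernel) ?_
    refine jn 2090 (by decide +kernel) ?_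
    refine jn 2107 (by decide +kernel) ?_
    refine jn 2111 (by decide +kernel) ?_
    refine jn 2114 (by decide +kernel) ?_
    refine jn 2118 (by decide +kernel) ?_
    refine jn 2121 (by decide +kernel) ?_
    refine jn 2126 (by decide +kernel) ?_
    refine jn 2130 (by decide +kernel) ?_
    refine jn 2136 (by decide +kernel) ?_
    refine jn 2138 (by decide +kernel) ?_
    refine jn 2139 (by decide +kernel) ?_
    refine jn 2146 (by decide +kernel) ?_
    refine jn 2156 (by decide +kernel) ?_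
    refine jn 2162 (by decide +kernel) ?_
    refine jn 2166 (by decide +kernel) ?_
    exact je (by decide +kernel)
  · refine fin 24 907 T28_2 ?_
    refine jn 2 (by decide +kernel) ?_
    refine jn 3 (by decide +kernel) ?_
    refine jn 4 (by decide +kernel) ?_
    refine jn 6 (by decide +kernel) ?_
    refine jn 7 (by decide +kernel) ?_
    refine jn 8 (by decide +kernel) ?_
    refine jn 9 (by decide +kernel) ?_
    refine jn 10 (by decide +kernel) ?_
    refine jn 11 (by decide +kernel) ?_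
    refine jn 12 (by decide +kernel) ?_
    refine jn 21 (by decide +kernel) ?_
    refine jn 22 (by decide +kernel) ?_
    refine jn 23 (by decide +kernel) ?_
    refine jn 24 (by decide +kernel) ?_
    refine jn 25 (by decide +kernel) ?_
    refine jn 26 (by decide +kernel) ?_
    refine jn 27 (by decide +kernel) ?_
    refine jn 35 (by decide +kernel) ?_
    refine jn 36 (by decide +kernel) ?_
    refine jn 37 (by decide +kernel) ?_
    refine jn 38 (by decide +kernel) ?_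
    refine jn 42 (by decide +kernel) ?_
    refine jn 43 (by decide +kernel) ?_
    refine jn 44 (by decide +kernel) ?_
    refine jn 50 (by decide +kernel) ?_
    refine jn 53 (by decide +kernel) ?_
    refine jn 58 (by decide +kernel) ?_
    refine jn 68 (by decide +kernel) ?_
    refine jn 69 (by decide +kernel) ?_
    refine jn 70 (by decide +kernel) ?_
    refine jn 82 (by decide +kernel) ?_
    refine jn 83 (by decide +kernel) ?_
    refine jn 99 (by decide +kernel) ?_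
    refine jn 105 (by decide +kernel) ?_
    refine jn 123 (by decide +kernel) ?_
    refine jn 141 (by decide +kernel) ?_
    refine jn 170 (by decide +kernel) ?_
    refine jn 235 (by decide +kernel) ?_
    refine jn 427 (by decide +kernel) ?_
    refine jn 739 (by decide +kernel) ?_
    exact je (by decide +kernel)

end Pool.Agent.MP_2339ce_nt.NR
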