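import Pool.Agent.MP_2339ce_nt.Q2.NC.L1
import Pool.Agent.MP_2339ce_nt.Q2.NC.L8
import Pool.Agent.MP_2339ce_nt.Q2.NC.L9
import Pool.Agent.MP_2339ce_nt.Q2.CkI

/-! Block NR: runs. -/

set_option autoImplicit false
set_option maxRecDepth 100000

noncomputable section

namespace Pool.Agent.MP_2339ce_nt.NR

open Q2.Top

def T41_0 : Ph :=
  (.na 671 4 (.na 280 2 (.nx 279 1321124 (.nr 278 881745 (.nx 255 660563 (.nx 70 18539 (.nx 3 168
  (.nx 2 167 (.nr 1 13 (.lg 0 false 1 43 43 5 0 72) (.l1 .sk)) (.l1 .sk)) (.nr 47 92683 (.lg 0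
  false 44 103 107 16 0 720720) (.nx 69 257 (.lg 0 false 22 89 89 11 0 55440) .out))) (.nr 254
  77937 (.nr 114 695 (.lg 0 true 44 89 101 16 0 55440) (.nr 139 2437 (.nr 127 1219 (.lg 2 true 13
  97 97 9 79363 65520) (.nx 138 524289 (.lg 2 true 11 97 97 9 35914 55440) .out)) (.nx 253 416129
  (.nx 183 32769 (.lg 1 false 44 101 107 16 58750 720720) (.nr 252 55110 (.nr 207 23172 (.nr 194
  4097 (.lg 2 true 11 89 97 9 14259 55440) (.lg 2 false 13 101 103 9 9932 65520)) (.nx 251 262145
  (.lg 2 false 44 101 107 16 23523 720720) .out)) .out)) .out))) .out)) (.nr 277 129 (.lg 0 true 22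
  89 89 11 0 1584) .out)) .out) .out) (.na 500 3 (.nx 499 3329023 (.nr 498 623489 (.nx 283 168 (.nx
  282 167 (.nr 281 25 (.lg 0 false 1 37 37 5 0 144) (.l1 .sk)) (.l1 .sk)) (.nr 482 131073 (.nx 348
  32769 (.lg 0 false 65 97 103 13 0 720720) (.nr 481 92683 (.nx 462 1664512 (.nr 397 2437 (.nr 383
  450 (.lg 0 true 35 83 89 13 0 5040) (.nx 396 416129 (.lg 2 true 13 83 89 9 77216 1872) .out))
  (.nx 461 330282 (.nx 447 82572 (.nx 412 44591 (.lg 1 false 15 97 101 9 39512 55440) (.lg 1 true
  35 89 103 13 29037 55440)) (.nr 460 77937 (.lg 2 false 13 103 107 9 13191 720720) .out)) .out))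
  (.nr 480 9 (.lg 0 true 18 67 67 9 0 144) .out)) .out)) (.nx 497 257 (.lg 0 false 15 73 73 9 0
  720) .out))) .out) .out) (.nx 670 6658044 (.nr 669 1482912 (.nx 503 168 (.nx 502 167 (.nr 501 35
  (.lg 0 true 1 31 31 5 0 144) (.l1 .sk)) (.l1 .sk)) (.nr 658 131073 (.nx 538 28404 (.lg 0 false 35
  89 101 16 0 5040) (.nr 594 364 (.nx 558 1048577 (.lg 0 true 20 79 79 16 0 720) (.nr 593 33 (.lg 0
  true 35 73 79 16 0 2520) .out)) (.nx 657 262145 (.nr 603 2904 (.nr 599 1453 (.lg 2 true 5 83 83 7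
  60135 720) (.lg 2 true 4 79 79 7 15065 144)) (.nx 623 57856 (.lg 1 false 20 97 103 16 64432
  55440) (.nx 643 104033 (.lg 1 true 20 97 103 16 31632 55440) (.nr 656 65537 (.lg 2 false 13 101
  103 16 8807 720720) .out)))) .out))) (.nx 668 257 (.lg 0 false 10 79 79 16 0 720) .out))) .out)
  .out))) (.na 836 6 (.na 835 5 (.nx 834 13316087 (.nr 833 1246976 (.nx 674 168 (.nx 673 167 (.nr
  672 44 (.lg 0 true 1 37 37 9 0 7920) (.l1 .sk)) (.l1 .sk)) (.nx 705 26007 (.nr 691 155873 (.nr
  687 110219 (.lg 0 false 13 103 107 13 0 720720) (.nx 690 1627 (.lg 0 false 3 89 89 9 0 7920)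
  .out)) (.nx 704 257 (.lg 0 false 13 73 79 13 0 1872) .out)) (.nr 832 131073 (.nx 770 416129 (.nr
  718 729 (.lg 0 true 13 83 83 13 0 1872) (.nx 731 52015 (.lg 1 false 13 101 107 13 70370 720720)
  (.nr 738 2909 (.lg 2 true 7 89 97 11 47664 55440) (.nx 751 104033 (.lg 1 true 13 101 107 13 35184
  720720) (.nr 769 92683 (.nr 754 5810 (.lg 2 true 3 83 83 9 11945 144) (.nx 761 131073 (.lg 1 true
  7 97 101 11 12446 55440) (.nr 768 55110 (.lg 2 false 7 97 101 11 5981 55440) .out))) .out)))))
  (.nr 831 183 (.nx 783 1664512 (.lg 0 true 13 83 83 13 0 1872) (.nr 830 21 (.nx 804 6658044 (.lg 0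
  true 21 73 73 11 0 1008) (.lg 0 true 26 79 79 11 0 1872)) .out)) .out)) .out))) .out) .out) .ne)
  (.na 953 7 (.nx 952 13316087 (.nr 951 623489 (.nx 839 168 (.nx 838 167 (.nr 837 63 (.lg 0 true 1
  37 37 7 0 5040) (.l1 .sk)) (.l1 .sk)) (.nx 840 205 (.l1 (.ls 89 43 2303)) (.nr 950 370729 (.nx
  923 1664512 (.nx 859 28089 (.nr 853 131073 (.lg 0 false 13 101 103 19 0 720720) (.nx 858 1627
  (.lg 0 false 5 89 97 13 0 5040) .out)) (.nr 922 155873 (.nr 872 513 (.lg 0 true 13 89 89 19 0
  1872) (.nx 921 660563 (.nr 877 2052 (.lg 2 true 5 89 89 13 107519 5040) (.nx 910 131073 (.nx 904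
  104033 (.nx 891 52015 (.nr 890 131073 (.lg 1 false 13 97 103 19 65154 720720) .out) (.lg 1 true
  13 101 107 19 41833 720720)) (.nr 909 131073 (.lg 1 true 5 101 103 13 17592 720720) .out)) (.nr
  920 65537 (.nr 915 8201 (.lg 2 true 5 89 89 13 26880 5040) (.lg 2 false 5 97 97 13 6991 5040))
  .out))) .out)) .out)) (.nr 949 28 (.lg 0 true 26 79 79 13 0 1872) .out)) .out))) .out) .out) (.nx
  1057 13316087 (.nr 1056 262145 (.nx 956 168 (.nx 955 167 (.nr 954 73 (.lg 0 true 1 31 31 9 0
  11088) (.l1 .sk)) (.l1 .sk)) (.nx 982 26007 (.nr 976 110219 (.lg 0 false 20 89 101 16 0 55440)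
  (.nx 981 1627 (.lg 0 false 5 83 83 16 0 2520) .out)) (.nr 1055 131073 (.nr 1028 626 (.nx 997
  1664512 (.lg 0 true 15 83 83 16 0 2520) (.nr 1027 47 (.lg 0 true 30 79 79 16 0 5040) .out)) (.nx
  1054 524289 (.nr 1033 5389 (.lg 2 true 5 97 97 16 69934 55440) (.nx 1048 131073 (.nx 1043 73561
  (.nx 1038 52015 (.lg 1 false 5 101 103 16 70370 55440) (.lg 1 false 5 97 101 16 35184 55440))
  (.lg 1 true 5 101 103 16 24879 55440)) (.nr 1053 77937 (.lg 2 false 5 97 101 16 8310 55440)
  .out))) .out)) .out))) .out) .out))))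

def T41_1 : Ph :=
  (.na 357 2 (.nx 356 2097153 (.nr 355 881745 (.nx 3 216 (.nx 2 215 (.nr 1 15 (.lg 0 false 1 53 53
  5 0 15480) (.l1 .sk)) (.l1 .sk)) (.nr 311 131073 (.nx 282 1048577 (.nx 55 32769 (.lg 0 false 52
  107 113 16 0 30990960) (.nr 281 110219 (.nr 107 901 (.lg 0 true 52 101 103 16 0 2817360) (.nr 120
  1724 (.lg 2 true 13 101 101 9 125108 201240) (.nx 280 832257 (.nr 133 3160 (.lg 2 true 13 101 103
  9 51896 2817360) (.nx 185 52017 (.lg 1 false 52 103 109 16 77893 30990960) (.nr 279 77937 (.nr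
  212 27556 (.nr 198 5794 (.lg 2 true 13 101 103 9 28313 2817360) (.nx 211 660563 (.lg 2 false 13
  107 109 9 12340 30990960) .out)) (.nx 278 524289 (.nr 225 38969 (.lg 2 true 13 103 107 9 17411
  2817360) (.nx 277 330282 (.lg 2 false 52 103 109 16 34726 30990960) .out)) .out)) .out))) .out)))
  .out)) (.nr 310 129 (.lg 0 true 28 89 97 11 0 216720) .out)) (.nx 354 8193 (.nx 340 4096 (.nx 339
  324 (.lg 0 false 28 89 89 11 0 216720) .out) (.nr 353 155873 (.lg 0 false 13 101 103 9 0 2817360)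
  .out)) .out))) .out) .out) (.na 661 3 (.nx 660 3329023 (.nr 659 623489 (.nx 644 2097153 (.nx 622
  1048577 (.nx 360 216 (.nx 359 215 (.nr 358 28 (.lg 0 false 1 47 47 5 0 30960) (.l1 .sk)) (.l1
  .sk)) (.nx 608 832257 (.nx 465 41287 (.nr 451 220437 (.lg 0 false 91 101 109 13 0 30990960) (.nx
  464 324 (.lg 0 false 13 83 83 9 0 402480) .out)) (.nr 607 155873 (.nr 486 1025 (.lg 0 true 21 101
  101 11 0 216720) (.nx 507 58387 (.lg 1 false 21 103 109 11 87380 30990960) (.nx 528 82572 (.lg 1
  false 21 103 109 11 61788 30990960) (.nr 606 131073 (.nr 562 38969 (.nr 541 3446 (.lg 2 true 13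
  97 101 9 87286 402480) (.nx 561 524289 (.nr 548 6051 (.lg 2 true 7 97 97 9 16356 216720) (.lg 2
  false 13 103 107 9 10968 30990960)) .out)) (.nx 605 262145 (.nr 583 77937 (.lg 2 false 21 103 109
  11 21876 30990960) (.nx 604 208065 (.lg 2 false 21 107 109 11 36749 30990960) .out)) .out))
  .out)))) .out)) (.nr 621 257 (.lg 0 true 13 89 89 9 0 402480) .out))) (.nr 643 129 (.lg 0 true 21
  89 89 11 0 216720) .out)) (.nr 658 9 (.lg 0 true 14 73 73 9 0 216720) .out)) .out) .out) (.nx 898
  6658044 (.nr 897 1482912 (.nx 664 216 (.nx 663 215 (.nr 662 39 (.lg 0 true 1 47 47 5 0 216720)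
  (.l1 .sk)) (.l1 .sk)) (.nx 860 660563 (.nx 730 32768 (.nr 716 185365 (.lg 0 false 52 101 109 16 0
  30990960) (.nx 729 324 (.lg 0 false 13 89 89 16 0 201240) .out)) (.nr 859 220437 (.nr 743 748
  (.lg 0 true 13 97 97 16 0 201240) (.nx 858 524289 (.nr 747 1539 (.lg 2 true 4 97 97 7 75350
  216720) (.nx 760 41285 (.lg 1 false 13 103 109 16 155637 30990960) (.nx 773 52017 (.lg 1 false 13
  103 109 16 123529 30990960) (.nr 857 185365 (.nr 777 3167 (.lg 2 true 4 97 97 7 36622 216720)
  (.nx 790 70783 (.lg 1 false 13 103 109 16 82459 30990960) (.nr 798 13397 (.nr 794 6513 (.lg 2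
  true 4 101 101 7 17797 2383920) (.lg 2 true 4 101 101 7 8654 2383920)) (.nx 852 208065 (.nx 838
  165142 (.nx 824 131073 (.nx 811 96321 (.lg 1 false 13 103 109 16 60598 30990960) (.lg 1 false 13
  103 109 16 44531 30990960)) (.nr 837 155873 (.lg 1 true 13 103 109 16 27524 30990960) .out)) (.nr
  851 92683 (.lg 1 true 13 103 109 16 13002 30990960) .out)) (.nr 856 38969 (.lg 2 false 4 101 103
  7 4353 2383920) .out))))) .out)))) .out)) .out)) (.nr 896 129 (.nx 873 2097153 (.lg 0 true 13 89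
  89 16 0 201240) (.nr 895 13 (.lg 0 true 22 83 83 7 0 340560) .out)) .out))) .out) .out)))

def T41_2 : Ph :=
  (.na 264 133 (.na 154 52 (.na 100 19 (.na 80 8 (.na 55 4 (.na 39 2 (.nx 38 52017 (.nr 37 311745
  (.nx 3 13 (.nx 2 12 (.nr 1 4 (.lg 0 true 1 19 19 5 0 2520) (.l1 .sk)) (.l1 .sk)) (.nr 23 4872
  (.nx 10 1050 (.lg 0 true 7 67 67 9 0 168) (.nr 17 155 (.lg 0 false 7 71 71 9 0 168) (.nx 22 10323
  (.lg 1 false 5 79 79 9 400 720) .out))) (.nx 36 27 (.lg 0 false 13 67 67 9 0 312) .out))) .out)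
  .out) (.na 40 3 .ne (.nx 54 165142 (.nr 53 4872 (.nx 47 10323 (.nx 41 27 (.l1 (.ls 47 19 245))
  (.nr 46 1724 (.lg 0 false 5 71 71 7 0 2520) .out)) (.nr 52 217 (.lg 0 false 5 73 73 7 0 2520)
  .out)) .out) .out))) (.na 69 5 (.nx 68 20644 (.nr 67 2437 (.nr 56 3 .s1 (.nr 62 377 (.nx 57 107
  (.l1 (.ls 41 41 2865)) (.nr 60 109 (.lg 0 false 3 61 61 9 0 5040) (.nx 61 1627 (.lg 2 true 1 47
  47 9 263 48) .out))) (.nx 64 13 (.nx 63 12 (.l1 .sk) (.l1 .sk)) (.nx 66 1627 (.lg 0 true 2 67 67
  9 0 48) .out)))) .out) .out) (.na 70 7 .ne (.nx 79 20644 (.nr 78 4097 (.nr 71 7 .s1 (.nx 74 13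
  (.nx 73 12 (.nr 72 20 (.lg 0 false 1 16 16 9 0 144144) (.l1 .sk)) (.l1 .sk)) (.nx 76 1627 (.lg 0
  true 2 61 61 11 0 1008) (.nr 77 183 (.lg 0 false 1 61 61 9 0 168) .out)))) .out) .out)))) (.na 83
  12 (.na 81 9 .ne (.na 82 10 (.lg 0 false 1 0 0 7 0 24) .ne)) (.na 91 13 (.nx 90 20644 (.nr 89
  3446 (.nr 84 12 .s1 (.nx 87 13 (.nx 86 12 (.nr 85 33 (.l1 (.ls 16 13 14)) (.l1 .sk)) (.l1 .sk))
  (.lg 0 false 2 71 71 13 0 144))) .out) .out) (.na 99 16 (.nx 98 20644 (.nr 97 3446 (.nr 92 13 .s1
  (.nx 94 12 (.nr 93 40 (.lg 0 false 1 16 16 9 0 144144) (.l1 .sk)) (.nx 95 13 (.l1 .sk) (.lg 0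
  false 2 71 71 11 0 624)))) .out) .out) .ne)))) (.na 128 32 (.na 115 27 (.na 107 21 (.nx 106 20644
  (.nr 105 6890 (.nr 101 19 .s1 (.nx 102 27 (.l1 (.ls 43 16 41)) (.nr 104 3446 (.lg 0 false 2 67 67
  11 0 48) .out))) .out) .out) (.na 114 23 (.nx 113 20644 (.nr 112 6890 (.nr 108 21 .s1 (.nx 109 27
  (.l1 (.ls 43 16 37)) (.nr 111 3446 (.lg 0 false 2 67 67 16 0 1008) .out))) .out) .out) .ne)) (.na
  116 28 (.lg 0 false 1 0 0 7 0 24) (.na 122 31 (.nx 121 20644 (.nr 120 6890 (.nr 117 28 .s1 (.nx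
  118 163 (.l1 (.ls 47 37 951)) (.nr 119 257 (.lg 0 true 1 47 47 13 0 336) .out))) .out) .out) (.nx
  127 20644 (.nr 126 6890 (.nr 123 31 .s1 (.nx 124 163 (.l1 (.ls 43 23 860)) (.nr 125 257 (.lg 0
  false 1 53 53 13 0 24) .out))) .out) .out)))) (.na 136 39 (.na 129 36 .ne (.na 130 37 (.lg 0
  false 1 0 0 7 0 24) (.nx 135 10323 (.nr 134 4097 (.nr 131 37 .s1 (.nx 132 27 (.l1 (.ls 29 16 22))
  (.nr 133 1724 (.lg 0 false 1 53 53 16 0 72) .out))) .out) .out))) (.na 142 43 (.nx 141 10323 (.nr
  140 4097 (.nr 137 39 .s1 (.nx 138 27 (.l1 (.ls 41 16 21)) (.nr 139 1724 (.lg 0 true 1 59 59 16 0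
  32760) .out))) .out) .out) (.na 148 49 (.nx 147 10323 (.nr 146 4097 (.nr 143 43 .s1 (.nx 144 27
  (.l1 (.ls 29 16 19)) (.nr 145 1724 (.lg 0 false 1 53 53 16 0 24) .out))) .out) .out) (.nx 153
  10323 (.nr 152 4097 (.nr 149 49 .s1 (.nx 150 27 (.l1 (.ls 37 16 17)) (.nr 151 1724 (.lg 0 false 1
  53 53 16 0 2520) .out))) .out) .out)))))) (.na 212 93 (.na 180 73 (.na 172 63 (.na 160 57 (.nx
  159 10323 (.nr 158 4097 (.nr 155 52 .s1 (.nx 156 27 (.l1 (.ls 41 11 17)) (.nr 157 1724 (.lg 0
  true 1 53 53 19 0 624) .out))) .out) .out) (.na 166 61 (.nx 165 10323 (.nr 164 4097 (.nr 161 57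
  .s1 (.nx 162 163 (.l1 (.ls 37 29 469)) (.nr 163 513 (.lg 0 true 1 41 41 16 0 72) .out))) .out)
  .out) (.nx 171 10323 (.nr 170 4097 (.nr 167 61 .s1 (.nx 168 27 (.l1 (.ls 29 16 16)) (.nr 169 1724
  (.lg 0 true 1 43 43 16 0 24) .out))) .out) .out))) (.na 173 64 (.lg 0 false 1 0 0 16 0 24) (.na
  174 67 .ne (.nx 179 20644 (.nr 178 2049 (.nr 175 67 .s1 (.nx 176 163 (.l1 (.ls 23 19 399)) (.nr
  177 513 (.lg 0 true 1 41 41 16 0 504) .out))) .out) .out)))) (.na 199 81 (.na 186 76 (.nx 185
  20644 (.nr 184 2049 (.nr 181 73 .s1 (.nx 182 163 (.l1 (.ls 23 19 366)) (.nr 183 513 (.lg 2 true 1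
  29 29 16 1697 504) .out))) .out) .out) (.na 193 79 (.nx 192 20644 (.nr 191 2049 (.nr 187 76 .s1
  (.nx 190 13 (.nx 189 12 (.nr 188 198 (.l1 (.ls 16 13 20)) (.l1 .sk)) (.l1 .sk)) (.lg 0 true 1 59
  59 17 0 48))) .out) .out) (.nx 198 20644 (.nr 197 2049 (.nr 194 79 .s1 (.nx 195 163 (.l1 (.ls 23
  19 339)) (.nr 196 513 (.lg 2 true 1 23 23 16 1568 360) .out))) .out) .out))) (.na 200 84 (.lg 0
  false 1 0 0 16 0 24) (.na 206 91 (.nx 205 20644 (.nr 204 2049 (.nr 201 84 .s1 (.nx 202 163 (.l1
  (.ls 37 37 319)) (.nr 203 513 (.lg 0 true 1 47 47 29 0 1008) .out))) .out) .out) (.nx 211 20644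
  (.nr 210 2049 (.nr 207 91 .s1 (.nx 208 163 (.l1 (.ls 31 23 294)) (.nr 209 513 (.lg 0 true 1 47 47
  19 0 32760) .out))) .out) .out))))) (.na 243 117 (.na 230 108 (.na 218 97 (.nx 217 20644 (.nr 216
  2049 (.nr 213 93 .s1 (.nx 214 163 (.l1 (.ls 19 23 288)) (.nr 215 513 (.lg 2 true 1 17 17 16 1332
  72) .out))) .out) .out) (.na 224 103 (.nx 223 20644 (.nr 222 2049 (.nr 219 97 .s1 (.nx 220 163
  (.l1 (.ls 19 17 276)) (.nr 221 513 (.lg 2 true 1 19 19 16 1277 504) .out))) .out) .out) (.nx 229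
  20644 (.nr 228 2049 (.nr 225 103 .s1 (.nx 226 163 (.l1 (.ls 17 17 260)) (.nr 227 513 (.lg 2 false
  1 17 17 16 1203 72) .out))) .out) .out))) (.na 231 109 (.lg 0 false 1 0 0 16 0 24) (.na 237 111
  (.nx 236 20644 (.nr 235 2049 (.nr 232 109 .s1 (.nx 233 163 (.l1 (.ls 19 17 246)) (.nr 234 513
  (.lg 2 true 1 19 19 16 1137 2520) .out))) .out) .out) (.nx 242 20644 (.nr 241 2049 (.nr 238 111
  .s1 (.nx 239 163 (.l1 (.ls 19 23 242)) (.nr 240 513 (.lg 2 true 1 19 19 17 1116 2520) .out)))
  .out) .out)))) (.na 256 128 (.na 244 124 (.lg 0 false 1 0 0 16 0 24) (.na 250 127 (.nx 249 20644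
  (.nr 248 2049 (.nr 245 124 .s1 (.nx 246 163 (.l1 (.ls 29 23 217)) (.nr 247 513 (.lg 2 true 1 23
  23 19 999 720) .out))) .out) .out) (.nx 255 20644 (.nr 254 2049 (.nr 251 127 .s1 (.nx 252 163
  (.l1 (.ls 17 17 212)) (.nr 253 513 (.lg 2 true 1 17 17 16 976 504) .out))) .out) .out))) (.na 257
  129 .ne (.na 263 131 (.nx 262 10323 (.nr 261 2049 (.nr 258 129 .s1 (.nx 259 163 (.l1 (.ls 19 19
  208)) (.nr 260 513 (.lg 2 false 1 17 17 17 481 5040) .out))) .out) .out) (.lg 0 false 1 0 0 16 0
  24))))))) (.na 363 201 (.na 321 171 (.na 290 151 (.na 277 147 (.na 270 137 (.nx 269 10323 (.nr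
  268 2049 (.nr 265 133 .s1 (.nx 266 163 (.l1 (.ls 17 17 202)) (.nr 267 513 (.lg 2 false 1 17 17 17
  466 504) .out))) .out) .out) (.na 271 139 (.lg 0 false 1 0 0 16 0 24) (.nx 276 10323 (.nr 275
  2049 (.nr 272 139 .s1 (.nx 273 163 (.l1 (.ls 19 17 194)) (.nr 274 513 (.lg 2 false 1 19 19 16 446
  720720) .out))) .out) .out))) (.na 283 148 (.nx 282 10323 (.nr 281 2049 (.nr 278 147 .s1 (.nx 279
  163 (.l1 (.ls 19 23 183)) (.nr 280 513 (.lg 2 true 1 19 19 19 422 720720) .out))) .out) .out)
  (.na 289 149 (.nx 288 10323 (.nr 287 2049 (.nr 284 148 .s1 (.nx 285 163 (.l1 (.ls 23 23 182))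
  (.nr 286 513 (.lg 2 true 1 17 17 23 419 1008) .out))) .out) .out) (.lg 0 false 1 0 0 16 0 24))))
  (.na 308 163 (.na 296 156 (.nx 295 10323 (.nr 294 2049 (.nr 291 151 .s1 (.nx 292 163 (.l1 (.ls 17
  17 178)) (.nr 293 513 (.lg 2 true 1 17 17 16 411 65520) .out))) .out) .out) (.na 302 157 (.nx 301
  10323 (.nr 300 2049 (.nr 297 156 .s1 (.nx 298 163 (.l1 (.ls 31 31 173)) (.nr 299 513 (.lg 2 true
  1 19 19 31 398 9360) .out))) .out) .out) (.nx 307 10323 (.nr 306 2049 (.nr 303 157 .s1 (.nx 304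
  163 (.l1 (.ls 16 17 172)) (.nr 305 513 (.lg 2 true 1 16 16 16 395 5040) .out))) .out) .out)))
  (.na 314 167 (.nx 313 10323 (.nr 312 2049 (.nr 309 163 .s1 (.nx 310 163 (.l1 (.ls 16 17 165))
  (.nr 311 513 (.lg 2 true 1 19 19 16 380 720720) .out))) .out) .out) (.na 315 169 (.lg 0 false 1 0
  0 16 0 24) (.nx 320 10323 (.nr 319 2049 (.nr 316 169 .s1 (.nx 317 163 (.l1 (.ls 19 19 160)) (.nr
  318 513 (.lg 2 true 1 17 17 17 367 720720) .out))) .out) .out))))) (.na 342 189 (.na 329 179 (.na
  322 172 (.lg 0 false 1 0 0 16 0 24) (.na 328 173 (.nx 327 10323 (.nr 326 2049 (.nr 323 172 .s1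
  (.nx 324 163 (.l1 (.ls 23 23 157)) (.nr 325 513 (.lg 2 false 1 17 17 23 361 1008) .out))) .out)
  .out) (.lg 0 false 1 0 0 16 0 24))) (.na 330 181 (.lg 0 false 1 0 0 16 0 24) (.na 336 183 (.nx
  335 10323 (.nr 334 2049 (.nr 331 181 .s1 (.nx 332 163 (.l1 (.ls 17 17 149)) (.nr 333 513 (.lg 2
  true 1 16 16 16 343 5040) .out))) .out) .out) (.nx 341 10323 (.nr 340 2049 (.nr 337 183 .s1 (.nx
  338 163 (.l1 (.ls 16 19 148)) (.nr 339 513 (.lg 2 true 1 16 16 17 339 55440) .out))) .out)
  .out)))) (.na 350 196 (.na 343 191 (.lg 0 false 1 0 0 16 0 24) (.na 344 193 (.lg 0 false 1 0 0 16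
  0 24) (.nx 349 10323 (.nr 348 2049 (.nr 345 193 .s1 (.nx 346 163 (.l1 (.ls 16 17 140)) (.nr 347
  513 (.lg 2 true 1 16 16 16 321 65520) .out))) .out) .out))) (.na 356 197 (.nx 355 10323 (.nr 354
  2049 (.nr 351 196 .s1 (.nx 352 163 (.l1 (.ls 29 29 138)) (.nr 353 513 (.lg 2 false 1 17 17 29 317
  5040) .out))) .out) .out) (.na 357 199 (.lg 0 false 1 0 0 16 0 24) (.nx 362 10323 (.nr 361 2049
  (.nr 358 199 .s1 (.nx 359 163 (.l1 (.ls 17 17 136)) (.nr 360 513 (.lg 2 false 1 0 16 16 312
  720720) .out))) .out) .out)))))) (.na 420 243 (.na 394 228 (.na 381 219 (.na 369 211 (.nx 368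
  10323 (.nr 367 2049 (.nr 364 201 .s1 (.nx 365 163 (.l1 (.ls 16 19 135)) (.nr 366 513 (.lg 2 false
  1 16 16 19 309 65520) .out))) .out) .out) (.na 375 217 (.nx 374 10323 (.nr 373 2049 (.nr 370 211
  .s1 (.nx 371 163 (.l1 (.ls 17 17 128)) (.nr 372 513 (.lg 2 false 1 0 16 16 294 720720) .out)))
  .out) .out) (.nx 380 10323 (.nr 379 2049 (.nr 376 217 .s1 (.nx 377 163 (.l1 (.ls 19 19 125)) (.nr
  378 513 (.lg 2 false 1 17 17 19 286 65520) .out))) .out) .out))) (.na 387 223 (.nx 386 10323 (.nr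
  385 2049 (.nr 382 219 .s1 (.nx 383 163 (.l1 (.ls 16 19 124)) (.nr 384 513 (.lg 2 false 1 16 16 19
  283 720720) .out))) .out) .out) (.na 393 227 (.nx 392 10323 (.nr 391 2049 (.nr 388 223 .s1 (.nx
  389 163 (.l1 (.ls 16 17 122)) (.nr 390 513 (.lg 2 false 1 16 16 16 278 720720) .out))) .out)
  .out) (.lg 0 false 1 0 0 16 0 24)))) (.na 407 237 (.na 400 229 (.nx 399 10323 (.nr 398 2049 (.nr
  395 228 .s1 (.nx 396 163 (.l1 (.ls 17 31 119)) (.nr 397 513 (.lg 2 false 1 17 17 37 272 65520)
  .out))) .out) .out) (.na 406 233 (.nx 405 10323 (.nr 404 2049 (.nr 401 229 .s1 (.nx 402 163 (.l1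
  (.ls 16 17 119)) (.nr 403 513 (.lg 2 false 1 16 16 17 271 720720) .out))) .out) .out) (.lg 0
  false 1 0 0 16 0 24))) (.na 413 239 (.nx 412 10323 (.nr 411 2049 (.nr 408 237 .s1 (.nx 409 163
  (.l1 (.ls 16 19 115)) (.nr 410 513 (.lg 2 false 1 16 16 19 262 720720) .out))) .out) .out) (.na
  414 241 (.lg 0 false 1 0 0 16 0 24) (.nx 419 10323 (.nr 418 2049 (.nr 415 241 .s1 (.nx 416 163
  (.l1 (.ls 16 17 113)) (.nr 417 513 (.lg 2 false 1 16 16 17 258 720720) .out))) .out) .out)))))
  (.na 436 257 (.na 433 251 (.na 421 244 (.lg 0 false 1 0 0 16 0 24) (.na 427 247 (.nx 426 10323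
  (.nr 425 2049 (.nr 422 244 .s1 (.nx 423 163 (.l1 (.ls 41 23 111)) (.nr 424 513 (.lg 2 false 1 17
  19 23 254 720720) .out))) .out) .out) (.nx 432 10323 (.nr 431 2049 (.nr 428 247 .s1 (.nx 429 163
  (.l1 (.ls 17 17 110)) (.nr 430 513 (.lg 2 false 1 16 16 17 251 65520) .out))) .out) .out))) (.na
  434 252 (.lg 0 false 1 0 0 16 0 24) (.na 435 256 (.lg 0 false 1 0 0 16 0 24) .ne))) (.na 850 2048
  (.na 601 512 (.nx 600 163 (.nr 599 4097 (.nr 437 257 .s1 (.lx (.lp 41 17 129))) .out) .out) (.na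
  766 1024 (.nx 765 163 (.nr 764 4097 (.nr 602 512 .s1 (.lx (.lp 37 19 257))) .out) .out) (.nx 849
  82 (.nr 848 8193 (.nr 767 1024 .s1 (.lx (.lp 37 19 513))) .out) .out))) (.na 934 4096 (.nx 933 82
  (.nr 932 8193 (.nr 851 2048 .s1 (.lx (.lp 37 23 1025))) .out) .out) (.na 1018 8193 (.nx 1017 82
  (.nr 1016 16385 (.nr 935 4096 .s1 (.lx (.lp 16 0 2049))) .out) .out) .out)))))))

theorem c41 :
    OkQ ckI L8 167 1 8 0 34359738368 1 1099511627776 ∧
    OkQ ckI L9 215 1 4 0 34359738368 1 1099511627776 ∧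
    OkQ ckI L1 12 1 1099511627776 0 34359738368 1 1099511627776 := by
  refine ⟨?_, ?_, ?_⟩
  · refine fin 72 1058 T41_0 ?_
    refine jn 6 (by decide +kernel) ?_
    refine jn 10 (by decide +kernel) ?_
    refine jn 13 (by decide +kernel) ?_
    refine jn 16 (by decide +kernel) ?_
    refine jn 19 (by decide +kernel) ?_
    refine jn 23 (by decide +kernel) ?_
    refine jn 26 (by decide +kernel) ?_
    refine jn 30 (by decide +kernel) ?_
    refine jn 34 (by decide +kernel) ?_
    refine jn 37 (by decide +kernel) ?_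
    refine jn 40 (by decide +kernel) ?_
    refine jn 44 (by decide +kernel) ?_
    refine jn 69 (by decide +kernel) ?_
    refine jn 77 (by decide +kernel) ?_
    refine jn 84 (by decide +kernel) ?_
    refine jn 91 (by decide +kernel) ?_
    refine jn 99 (by decide +kernel) ?_
    refine jn 106 (by decide +kernel) ?_
    refine jn 113 (by decide +kernel) ?_
    refine jn 127 (by decide +kernel) ?_
    refine jn 139 (by decide +kernel) ?_
    refine jn 161 (by decide +kernel) ?_
    refine jn 183 (by decide +kernel) ?_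
    refine jn 194 (by decide +kernel) ?_
    refine jn 207 (by decide +kernel) ?_
    refine jn 228 (by decide +kernel) ?_
    refine jn 248 (by decide +kernel) ?_
    refine jn 270 (by decide +kernel) ?_
    refine jn 277 (by decide +kernel) ?_
    refine jn 290 (by decide +kernel) ?_
    refine jn 299 (by decide +kernel) ?_
    refine jn 305 (by decide +kernel) ?_
    refine jn 314 (by decide +kernel) ?_
    refine jn 320 (by decide +kernel) ?_
    refine jn 329 (by decide +kernel) ?_
    refine jn 335 (by decide +kernel) ?_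
    refine jn 343 (by decide +kernel) ?_
    refine jn 355 (by decide +kernel) ?_
    refine jn 368 (by decide +kernel) ?_
    refine jn 382 (by decide +kernel) ?_
    refine jn 396 (by decide +kernel) ?_
    refine jn 412 (by decide +kernel) ?_
    refine jn 441 (by decide +kernel) ?_
    refine jn 460 (by decide +kernel) ?_
    refine jn 497 (by decide +kernel) ?_
    refine jn 503 (by decide +kernel) ?_
    refine jn 505 (by decide +kernel) ?_
    refine jn 506 (by decide +kernel) ?_
    refine jn 508 (by decide +kernel) ?_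
    refine jn 510 (by decide +kernel) ?_
    refine jn 511 (by decide +kernel) ?_
    refine jn 514 (by decide +kernel) ?_
    refine jn 516 (by decide +kernel) ?_
    refine jn 518 (by decide +kernel) ?_
    refine jn 520 (by decide +kernel) ?_
    refine jn 522 (by decide +kernel) ?_
    refine jn 523 (by decide +kernel) ?_
    refine jn 525 (by decide +kernel) ?_
    refine jn 527 (by decide +kernel) ?_
    refine jn 530 (by decide +kernel) ?_
    refine jn 531 (by decide +kernel) ?_
    refine jn 533 (by decide +kernel) ?_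
    refine jn 535 (by decide +kernel) ?_
    refine jn 536 (by decide +kernel) ?_
    refine jn 538 (by decide +kernel) ?_
    refine jn 540 (by decide +kernel) ?_
    refine jn 543 (by decide +kernel) ?_
    refine jn 546 (by decide +kernel) ?_
    refine jn 548 (by decide +kernel) ?_
    refine jn 550 (by decide +kernel) ?_
    refine jn 553 (by decide +kernel) ?_
    refine jn 556 (by decide +kernel) ?_
    refine jn 558 (by decide +kernel) ?_
    refine jn 564 (by decide +kernel) ?_
    refine jn 593 (by decide +kernel) ?_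
    refine jn 599 (by decide +kernel) ?_
    refine jn 603 (by decide +kernel) ?_
    refine jn 614 (by decide +kernel) ?_
    refine jn 623 (by decide +kernel) ?_
    refine jn 634 (by decide +kernel) ?_
    refine jn 643 (by decide +kernel) ?_
    refine jn 652 (by decide +kernel) ?_
    refine jn 656 (by decide +kernel) ?_
    refine jn 668 (by decide +kernel) ?_
    refine jn 674 (by decide +kernel) ?_
    refine jn 676 (by decide +kernel) ?_
    refine jn 677 (by decide +kernel) ?_
    refine jn 678 (by decide +kernel) ?_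
    refine jn 679 (by decide +kernel) ?_
    refine jn 680 (by decide +kernel) ?_
    refine jn 681 (by decide +kernel) ?_
    refine jn 682 (by decide +kernel) ?_
    refine jn 683 (by decide +kernel) ?_
    refine jn 684 (by decide +kernel) ?_
    refine jn 685 (by decide +kernel) ?_
    refine jn 687 (by decide +kernel) ?_
    refine jn 704 (by decide +kernel) ?_
    refine jn 707 (by decide +kernel) ?_
    refine jn 709 (by decide +kernel) ?_
    refine jn 711 (by decide +kernel) ?_
    refine jn 713 (by decide +kernel) ?_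
    refine jn 715 (by decide +kernel) ?_
    refine jn 717 (by decide +kernel) ?_
    refine jn 718 (by decide +kernel) ?_
    refine jn 728 (by decide +kernel) ?_
    refine jn 731 (by decide +kernel) ?_
    refine jn 738 (by decide +kernel) ?_
    refine jn 748 (by decide +kernel) ?_
    refine jn 754 (by decide +kernel) ?_
    refine jn 761 (by decide +kernel) ?_
    refine jn 768 (by decide +kernel) ?_
    refine jn 776 (by decide +kernel) ?_
    refine jn 783 (by decide +kernel) ?_
    refine jn 804 (by decide +kernel) ?_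
    refine jn 830 (by decide +kernel) ?_
    refine jn 840 (by decide +kernel) ?_
    refine jn 842 (by decide +kernel) ?_
    refine jn 844 (by decide +kernel) ?_
    refine jn 846 (by decide +kernel) ?_
    refine jn 847 (by decide +kernel) ?_
    refine jn 849 (by decide +kernel) ?_
    refine jn 851 (by decide +kernel) ?_
    refine jn 853 (by decide +kernel) ?_
    refine jn 862 (by decide +kernel) ?_
    refine jn 866 (by decide +kernel) ?_
    refine jn 871 (by decide +kernel) ?_
    refine jn 872 (by decide +kernel) ?_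
    refine jn 877 (by decide +kernel) ?_
    refine jn 889 (by decide +kernel) ?_
    refine jn 891 (by decide +kernel) ?_
    refine jn 904 (by decide +kernel) ?_
    refine jn 910 (by decide +kernel) ?_
    refine jn 915 (by decide +kernel) ?_
    refine jn 920 (by decide +kernel) ?_
    refine jn 949 (by decide +kernel) ?_
    refine jn 959 (by decide +kernel) ?_
    refine jn 962 (by decide +kernel) ?_
    refine jn 964 (by decide +kernel) ?_
    refine jn 967 (by decide +kernel) ?_
    refine jn 969 (by decide +kernel) ?_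
    refine jn 972 (by decide +kernel) ?_
    refine jn 974 (by decide +kernel) ?_
    refine jn 976 (by decide +kernel) ?_
    refine jn 985 (by decide +kernel) ?_
    refine jn 989 (by decide +kernel) ?_
    refine jn 993 (by decide +kernel) ?_
    refine jn 997 (by decide +kernel) ?_
    refine jn 1027 (by decide +kernel) ?_
    refine jn 1038 (by decide +kernel) ?_
    refine jn 1048 (by decide +kernel) ?_
    refine jn 1053 (by decide +kernel) ?_
    exact je (by decide +kernel)
  · refine fin 15480 899 T41_1 ?_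
    refine jn 8 (by decide +kernel) ?_
    refine jn 10 (by decide +kernel) ?_
    refine jn 14 (by decide +kernel) ?_
    refine jn 18 (by decide +kernel) ?_
    refine jn 22 (by decide +kernel) ?_
    refine jn 24 (by decide +kernel) ?_
    refine jn 28 (by decide +kernel) ?_
    refine jn 32 (by decide +kernel) ?_
    refine jn 36 (by decide +kernel) ?_
    refine jn 40 (by decide +kernel) ?_
    refine jn 44 (by decide +kernel) ?_
    refine jn 48 (by decide +kernel) ?_
    refine jn 50 (by decide +kernel) ?_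
    refine jn 54 (by decide +kernel) ?_
    refine jn 55 (by decide +kernel) ?_
    refine jn 65 (by decide +kernel) ?_
    refine jn 76 (by decide +kernel) ?_
    refine jn 86 (by decide +kernel) ?_
    refine jn 96 (by decide +kernel) ?_
    refine jn 106 (by decide +kernel) ?_
    refine jn 120 (by decide +kernel) ?_
    refine jn 133 (by decide +kernel) ?_
    refine jn 151 (by decide +kernel) ?_
    refine jn 166 (by decide +kernel) ?_
    refine jn 182 (by decide +kernel) ?_
    refine jn 198 (by decide +kernel) ?_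
    refine jn 211 (by decide +kernel) ?_
    refine jn 225 (by decide +kernel) ?_
    refine jn 244 (by decide +kernel) ?_
    refine jn 262 (by decide +kernel) ?_
    refine jn 277 (by decide +kernel) ?_
    refine jn 310 (by decide +kernel) ?_
    refine jn 339 (by decide +kernel) ?_
    refine jn 360 (by decide +kernel) ?_
    refine jn 369 (by decide +kernel) ?_
    refine jn 376 (by decide +kernel) ?_
    refine jn 383 (by decide +kernel) ?_
    refine jn 391 (by decide +kernel) ?_
    refine jn 399 (by decide +kernel) ?_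
    refine jn 407 (by decide +kernel) ?_
    refine jn 416 (by decide +kernel) ?_
    refine jn 425 (by decide +kernel) ?_
    refine jn 433 (by decide +kernel) ?_
    refine jn 441 (by decide +kernel) ?_
    refine jn 448 (by decide +kernel) ?_
    refine jn 464 (by decide +kernel) ?_
    refine jn 476 (by decide +kernel) ?_
    refine jn 486 (by decide +kernel) ?_
    refine jn 504 (by decide +kernel) ?_
    refine jn 522 (by decide +kernel) ?_
    refine jn 541 (by decide +kernel) ?_
    refine jn 561 (by decide +kernel) ?_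
    refine jn 583 (by decide +kernel) ?_
    refine jn 597 (by decide +kernel) ?_
    refine jn 621 (by decide +kernel) ?_
    refine jn 643 (by decide +kernel) ?_
    refine jn 664 (by decide +kernel) ?_
    refine jn 667 (by decide +kernel) ?_
    refine jn 669 (by decide +kernel) ?_
    refine jn 670 (by decide +kernel) ?_
    refine jn 672 (by decide +kernel) ?_
    refine jn 675 (by decide +kernel) ?_
    refine jn 677 (by decide +kernel) ?_
    refine jn 680 (by decide +kernel) ?_
    refine jn 682 (by decide +kernel) ?_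
    refine jn 684 (by decide +kernel) ?_
    refine jn 686 (by decide +kernel) ?_
    refine jn 689 (by decide +kernel) ?_
    refine jn 692 (by decide +kernel) ?_
    refine jn 694 (by decide +kernel) ?_
    refine jn 696 (by decide +kernel) ?_
    refine jn 698 (by decide +kernel) ?_
    refine jn 701 (by decide +kernel) ?_
    refine jn 703 (by decide +kernel) ?_
    refine jn 706 (by decide +kernel) ?_
    refine jn 708 (by decide +kernel) ?_
    refine jn 710 (by decide +kernel) ?_
    refine jn 712 (by decide +kernel) ?_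
    refine jn 715 (by decide +kernel) ?_
    refine jn 729 (by decide +kernel) ?_
    refine jn 732 (by decide +kernel) ?_
    refine jn 734 (by decide +kernel) ?_
    refine jn 736 (by decide +kernel) ?_
    refine jn 738 (by decide +kernel) ?_
    refine jn 740 (by decide +kernel) ?_
    refine jn 742 (by decide +kernel) ?_
    refine jn 743 (by decide +kernel) ?_
    refine jn 747 (by decide +kernel) ?_
    refine jn 754 (by decide +kernel) ?_
    refine jn 760 (by decide +kernel) ?_
    refine jn 767 (by decide +kernel) ?_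
    refine jn 773 (by decide +kernel) ?_
    refine jn 777 (by decide +kernel) ?_
    refine jn 783 (by decide +kernel) ?_
    refine jn 789 (by decide +kernel) ?_
    refine jn 794 (by decide +kernel) ?_
    refine jn 798 (by decide +kernel) ?_
    refine jn 804 (by decide +kernel) ?_
    refine jn 810 (by decide +kernel) ?_
    refine jn 816 (by decide +kernel) ?_
    refine jn 822 (by decide +kernel) ?_
    refine jn 832 (by decide +kernel) ?_
    refine jn 838 (by decide +kernel) ?_
    refine jn 851 (by decide +kernel) ?_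
    refine jn 860 (by decide +kernel) ?_
    refine jn 868 (by decide +kernel) ?_
    refine jn 895 (by decide +kernel) ?_
    exact je (by decide +kernel)
  · refine fin 24 1019 T41_2 ?_
    refine jn 3 (by decide +kernel) ?_
    refine jn 4 (by decide +kernel) ?_
    refine jn 5 (by decide +kernel) ?_
    refine jn 6 (by decide +kernel) ?_
    refine jn 7 (by decide +kernel) ?_
    refine jn 8 (by decide +kernel) ?_
    refine jn 9 (by decide +kernel) ?_
    refine jn 10 (by decide +kernel) ?_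
    refine jn 11 (by decide +kernel) ?_
    refine jn 12 (by decide +kernel) ?_
    refine jn 13 (by decide +kernel) ?_
    refine jn 14 (by decide +kernel) ?_
    refine jn 15 (by decide +kernel) ?_
    refine jn 16 (by decide +kernel) ?_
    refine jn 17 (by decide +kernel) ?_
    refine jn 22 (by decide +kernel) ?_
    refine jn 40 (by decide +kernel) ?_
    refine jn 41 (by decide +kernel) ?_
    refine jn 42 (by decide +kernel) ?_
    refine jn 43 (by decide +kernel) ?_
    refine jn 45 (by decide +kernel) ?_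
    refine jn 46 (by decide +kernel) ?_
    refine jn 49 (by decide +kernel) ?_
    refine jn 52 (by decide +kernel) ?_
    refine jn 56 (by decide +kernel) ?_
    refine jn 57 (by decide +kernel) ?_
    refine jn 58 (by decide +kernel) ?_
    refine jn 59 (by decide +kernel) ?_
    refine jn 60 (by decide +kernel) ?_
    refine jn 61 (by decide +kernel) ?_
    refine jn 64 (by decide +kernel) ?_
    refine jn 65 (by decide +kernel) ?_
    refine jn 66 (by decide +kernel) ?_
    refine jn 74 (by decide +kernel) ?_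
    refine jn 75 (by decide +kernel) ?_
    refine jn 76 (by decide +kernel) ?_
    refine jn 77 (by decide +kernel) ?_
    refine jn 87 (by decide +kernel) ?_
    refine jn 88 (by decide +kernel) ?_
    refine jn 89 (by decide +kernel) ?_
    refine jn 95 (by decide +kernel) ?_
    refine jn 96 (by decide +kernel) ?_
    refine jn 97 (by decide +kernel) ?_
    refine jn 102 (by decide +kernel) ?_
    refine jn 103 (by decide +kernel) ?_
    refine jn 104 (by decide +kernel) ?_
    refine jn 109 (by decide +kernel) ?_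
    refine jn 110 (by decide +kernel) ?_
    refine jn 111 (by decide +kernel) ?_
    refine jn 117 (by decide +kernel) ?_
    refine jn 118 (by decide +kernel) ?_
    refine jn 119 (by decide +kernel) ?_
    refine jn 125 (by decide +kernel) ?_
    refine jn 133 (by decide +kernel) ?_
    refine jn 143 (by decide +kernel) ?_
    refine jn 150 (by decide +kernel) ?_
    refine jn 156 (by decide +kernel) ?_
    refine jn 157 (by decide +kernel) ?_
    refine jn 169 (by decide +kernel) ?_
    refine jn 187 (by decide +kernel) ?_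
    refine jn 191 (by decide +kernel) ?_
    refine jn 202 (by decide +kernel) ?_
    refine jn 208 (by decide +kernel) ?_
    refine jn 220 (by decide +kernel) ?_
    refine jn 240 (by decide +kernel) ?_
    refine jn 265 (by decide +kernel) ?_
    refine jn 285 (by decide +kernel) ?_
    refine jn 311 (by decide +kernel) ?_
    refine jn 347 (by decide +kernel) ?_
    refine jn 383 (by decide +kernel) ?_
    refine jn 423 (by decide +kernel) ?_
    refine jn 558 (by decide +kernel) ?_
    refine jn 742 (by decide +kernel) ?_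
    exact je (by decide +kernel)

end Pool.Agent.MP_2339ce_nt.NR
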