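import Pool.Agent.MP_2339ce_nt.Q2.NC.L1
import Pool.Agent.MP_2339ce_nt.Q2.NC.L5
import Pool.Agent.MP_2339ce_nt.Q2.NC.L9
import Pool.Agent.MP_2339ce_nt.Q2.CkI

/-! Block NR: runs. -/

set_option autoImplicit false
set_option maxRecDepth 100000

noncomputable section

namespace Pool.Agent.MP_2339ce_nt.NR

open Q2.Top

def T47_0 : Ph :=
  (.na 537 15 (.na 288 9 (.na 1 7 .ne (.na 141 8 (.nx 140 16777217 (.nr 139 1246976 (.nx 4 217 (.nx
  3 216 (.nr 2 82 (.lg 0 true 1 37 37 9 0 5040) (.l1 .sk)) (.l1 .sk)) (.nx 112 2097153 (.nx 10 257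
  (.nr 5 741456 (.l1 (.ls 83 37 2711)) (.lg 0 false 5 67 67 16 0 2520)) (.nr 111 440873 (.nr 105
  262145 (.nx 29 32768 (.nr 23 155873 (.lg 0 false 13 101 103 16 0 720720) (.nx 28 2049 (.lg 0
  false 5 83 89 16 0 5040) .out)) (.nr 104 220437 (.nr 42 642 (.lg 0 true 13 89 89 16 0 6552) (.nx
  103 832257 (.nr 47 2833 (.lg 2 true 5 89 89 16 140006 5040) (.nx 61 65536 (.nr 60 185365 (.lg 1
  false 13 101 107 16 132120 720720) .out) (.nx 87 208065 (.nx 74 121357 (.lg 1 false 13 101 107 16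
  78544 720720) (.lg 1 true 13 101 107 16 42416 720720)) (.nr 102 110219 (.nr 89 5950 (.lg 2 false
  2 89 89 11 31728 5040) (.lg 2 false 13 97 103 16 15107 720720)) .out)))) .out)) .out)) (.nx 110
  814 (.lg 0 false 5 79 79 16 0 2520) .out)) .out)) (.nr 138 47 (.lg 0 true 26 83 83 16 0 13104)
  .out))) .out) .out) (.nx 287 16777217 (.nr 286 1048577 (.nx 252 2097153 (.nx 143 216 (.nr 142 93
  (.lg 0 true 1 37 37 9 0 5040) (.l1 .sk)) (.nx 144 217 (.l1 .sk) (.nx 244 1048577 (.nx 171 26007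
  (.nx 147 324 (.nx 145 257 (.l1 (.ls 89 41 2373)) (.nr 146 881745 (.l1 (.ls 89 43 4868)) .out))
  (.nr 170 623489 (.nr 164 370729 (.nr 158 155873 (.lg 0 false 11 97 103 13 0 55440) (.nx 163 2049
  (.lg 0 false 5 89 89 13 0 5040) .out)) (.nx 169 814 (.lg 0 false 5 79 79 13 0 720) .out)) .out))
  (.nr 243 220437 (.nr 182 971 (.lg 0 true 11 89 89 13 0 55440) (.nx 194 52015 (.nr 193 185365 (.lg
  1 false 11 101 107 13 166468 720720) .out) (.nx 205 76448 (.lg 1 false 11 97 103 13 98961 720720)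
  (.nx 216 112360 (.lg 1 false 11 97 103 13 67333 720720) (.nr 221 3732 (.lg 2 true 5 89 89 13
  116629 5040) (.nx 232 208065 (.lg 1 true 11 101 103 13 45812 720720) (.nr 242 110219 (.nr 237
  14343 (.lg 2 true 5 83 89 13 30345 5040) (.lg 2 false 5 97 101 13 12382 5040)) .out))))))) .out))
  (.nr 251 129 (.lg 0 true 7 73 73 13 0 1008) .out)))) (.nr 285 55 (.lg 0 true 33 79 83 13 0 1584)
  .out)) .out) .out))) (.na 402 11 (.na 401 10 (.nx 400 16777217 (.nr 399 1048577 (.nx 316 41285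
  (.nx 291 217 (.nx 290 216 (.nr 289 104 (.lg 0 true 1 41 41 13 0 5040) (.l1 .sk)) (.l1 .sk)) (.nx
  292 257 (.l1 (.ls 83 37 2109)) (.nr 315 623489 (.nr 309 311745 (.nr 305 185365 (.lg 0 false 13
  101 107 17 0 720720) (.nx 308 2049 (.lg 0 false 3 89 89 16 0 5040) .out)) (.nx 314 1025 (.lg 0
  false 5 79 83 16 0 360) .out)) .out))) (.nr 398 220437 (.nr 356 764 (.nx 329 2097153 (.nx 323
  1048577 (.lg 0 true 7 83 83 16 0 504) (.nr 328 154 (.lg 0 true 5 73 73 16 0 360) .out)) (.nr 355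
  65 (.lg 0 true 26 79 83 16 0 1872) .out)) (.nx 397 832257 (.nr 363 7077 (.nr 361 3370 (.lg 2 true
  5 83 89 16 117649 5040) (.lg 2 true 2 89 89 16 26672 5040)) (.nx 376 92682 (.lg 1 false 13 101
  107 17 124682 720720) (.nx 389 208065 (.lg 1 true 13 101 107 17 55539 720720) (.nr 396 110219
  (.lg 2 false 7 97 103 16 12701 55440) .out)))) .out)) .out)) .out) .out) .ne) (.na 469 12 (.nx
  468 2097153 (.nr 467 1048577 (.nx 405 217 (.nx 404 216 (.nr 403 124 (.lg 0 true 1 31 31 9 0 7920)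
  (.l1 .sk)) (.l1 .sk)) (.nx 406 257 (.l1 (.ls 83 31 1726)) (.nr 466 623489 (.nx 458 660563 (.nx
  427 52015 (.nr 419 185365 (.lg 0 false 13 101 103 16 0 720720) (.nx 426 1292 (.lg 0 false 7 79 83
  16 0 5544) .out)) (.nr 457 220437 (.nr 434 1863 (.lg 0 true 7 83 89 16 0 5544) (.nr 436 7221 (.lg
  2 false 2 89 89 9 38294 7920) (.nx 443 104033 (.lg 1 false 7 101 103 16 98961 55440) (.nr 456
  185365 (.nx 450 208065 (.lg 1 true 7 101 103 16 41615 720720) (.nr 455 65537 (.lg 2 false 5 89 89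
  16 9880 7920) .out)) .out)))) .out)) (.nr 465 65 (.lg 0 true 7 71 71 16 0 5544) .out)) .out)))
  .out) .out) (.nx 536 2097153 (.nr 535 1048577 (.nx 472 217 (.nx 471 216 (.nr 470 156 (.lg 0 true
  1 31 31 13 0 144) (.l1 .sk)) (.l1 .sk)) (.nx 473 257 (.l1 (.ls 83 41 1583)) (.nr 534 623489 (.nr
  528 185365 (.nx 520 660563 (.nx 486 48160 (.lg 0 false 13 101 103 23 0 720720) (.nr 493 2285 (.lg
  0 true 7 83 89 19 0 1008) (.nx 506 104033 (.lg 1 false 13 97 103 23 89894 720720) (.nr 519 155873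
  (.lg 2 false 13 97 103 23 35002 720720) .out)))) (.nr 527 65 (.lg 0 true 7 71 71 19 0 1008)
  .out)) (.nx 533 1292 (.lg 0 false 5 83 83 17 0 720) .out)) .out))) .out) .out)))) (.na 693 23
  (.na 596 20 (.na 595 16 (.nx 594 2097153 (.nr 593 1048577 (.nr 538 4 .s1 (.nx 542 257 (.nx 540
  216 (.nr 539 166 (.lg 0 false 1 31 31 16 0 5040) (.l1 .sk)) (.nx 541 217 (.l1 .sk) (.l1 (.ls 83
  37 1267)))) (.nr 592 623489 (.nr 587 185365 (.nx 581 660563 (.nr 567 65537 (.nx 549 32768 (.lg 0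
  false 7 89 89 17 0 5040) (.nr 556 2366 (.lg 0 true 7 83 83 17 0 2520) (.lg 2 true 11 79 79 17
  46812 3960))) (.nx 580 208065 (.lg 0 true 13 101 107 17 0 720720) .out)) (.nr 586 65 (.lg 0 true
  5 67 67 16 0 360) .out)) (.nx 591 1292 (.lg 0 false 4 83 83 16 0 5040) .out)) .out))) .out) .out)
  .ne) (.na 638 21 (.nx 637 2097153 (.nr 636 1048577 (.nr 597 14 .s1 (.nx 601 324 (.nx 599 216 (.nr
  598 218 (.lg 0 true 1 37 37 13 0 5040) (.l1 .sk)) (.nx 600 217 (.l1 .sk) (.l1 (.ls 89 43 2897))))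
  (.nr 635 623489 (.nr 629 185365 (.nx 625 660563 (.nx 614 82572 (.lg 0 false 13 97 103 29 0
  720720) (.nr 624 131073 (.nr 621 77937 (.nr 617 751 (.lg 0 true 3 83 83 19 0 5040) (.nx 620
  416129 (.nr 618 2200 (.lg 2 false 1 83 83 13 59843 5040) (.lg 2 false 2 97 101 17 22080 5040))
  .out)) (.nx 623 208065 (.lg 2 false 2 97 101 17 37092 5040) .out)) .out)) (.nr 628 129 (.lg 0
  true 3 73 73 19 0 720) .out)) (.nx 634 10323 (.nr 631 262145 (.lg 0 false 2 89 97 17 0 5040) (.nx
  633 2049 (.lg 0 false 2 89 89 17 0 5040) .out)) .out)) .out))) .out) .out) (.nx 692 2097153 (.nr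
  691 1048577 (.nr 639 16 .s1 (.nx 642 217 (.nx 641 216 (.nr 640 239 (.lg 0 false 1 31 31 16 0
  55440) (.l1 .sk)) (.l1 .sk)) (.nx 653 23329 (.nx 643 324 (.l1 (.ls 83 41 2759)) (.nr 652 623489
  (.nr 648 262145 (.lg 0 false 5 97 97 17 0 55440) (.nx 651 2049 (.lg 0 false 3 79 79 16 0 504)
  .out)) .out)) (.nr 690 155873 (.nx 684 660563 (.nr 658 751 (.lg 0 true 5 73 73 17 0 2520) (.nx
  683 416129 (.nr 663 55110 (.lg 2 false 5 79 79 17 59843 2520) (.nx 682 330282 (.nx 676 208065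
  (.lg 0 true 13 97 103 19 0 720720) (.nr 681 77937 (.lg 0 true 5 89 97 17 0 55440) .out)) .out))
  .out)) (.nr 689 129 (.lg 0 true 5 67 67 17 0 2520) .out)) .out)))) .out) .out))) (.na 733 25 (.na
  694 24 .ne (.nx 732 2097153 (.nr 731 1048577 (.nr 695 19 .s1 (.nx 697 216 (.nr 696 260 (.lg 0
  true 1 23 23 13 0 720) (.l1 .sk)) (.nx 698 217 (.l1 .sk) (.nx 699 324 (.l1 (.ls 79 43 2414)) (.nr
  730 524289 (.nr 722 185365 (.nx 706 41287 (.lg 0 false 7 89 97 23 0 5040) (.nr 721 110219 (.nr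
  713 653 (.lg 0 true 7 73 73 23 0 1008) (.nx 720 330282 (.lg 2 false 7 89 97 23 62399 5040) .out))
  .out)) (.nx 729 13005 (.lg 0 false 7 83 89 23 0 5040) .out)) .out))))) .out) .out)) (.na 772 27
  (.nx 771 2097153 (.nr 770 1048577 (.nr 734 21 .s1 (.nx 737 217 (.nx 736 216 (.nr 735 281 (.lg 0
  true 1 23 23 16 0 720) (.l1 .sk)) (.l1 .sk)) (.nx 738 324 (.l1 (.ls 73 31 2318)) (.nr 769 524289
  (.nr 761 185365 (.nx 745 52017 (.lg 0 false 7 89 97 16 0 5040) (.nr 760 92683 (.nr 752 836 (.lg 0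
  true 7 73 73 16 0 2520) (.nx 759 330282 (.lg 2 false 7 83 89 16 42669 5040) .out)) .out)) (.nx
  768 13005 (.lg 0 false 7 83 89 16 0 5040) .out)) .out)))) .out) .out) (.nx 806 2097153 (.nr 805
  1048577 (.nr 773 23 .s1 (.nx 777 324 (.nx 775 216 (.nr 774 291 (.lg 0 true 1 31 31 16 0 5040)
  (.l1 .sk)) (.nx 776 217 (.l1 .sk) (.l1 (.ls 79 37 2146)))) (.nr 804 524289 (.nr 796 131073 (.nx
  782 52017 (.lg 0 false 5 89 97 17 0 5040) (.nr 795 92683 (.nr 789 859 (.nx 785 524289 (.lg 0 true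
  3 73 73 16 0 72) (.nr 788 129 (.lg 0 true 3 67 67 16 0 72) .out)) (.nx 794 330282 (.lg 2 false 5
  83 97 17 41663 5040) .out)) .out)) (.nx 803 20644 (.nr 801 370729 (.lg 0 false 5 89 97 17 0 5040)
  (.nx 802 1292 (.lg 0 true 1 79 79 16 0 5040) .out)) .out)) .out))) .out) .out)))))

def T47_1 : Ph :=
  (.na 795 139 (.na 596 59 (.na 443 23 (.na 318 9 (.na 191 4 (.na 132 2 (.nx 131 660563 (.nr 130
  1482912 (.nx 2 44 (.nr 1 7 (.lg 0 true 1 31 31 5 0 3960) (.l1 .sk)) (.nx 3 45 (.l1 .sk) (.nr 94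
  110219 (.nr 86 38969 (.nr 78 16385 (.nx 24 4097 (.lg 0 false 21 83 83 11 0 27720) (.nr 77 13779
  (.nx 55 104033 (.nr 45 331 (.lg 0 true 21 79 79 11 0 5544) (.nr 48 682 (.lg 2 false 3 73 73 7
  6915 792) (.lg 2 false 7 97 97 9 3356 27720))) (.nr 76 78 (.lg 0 true 21 79 79 11 0 5544) .out))
  .out)) (.nx 85 1292 (.lg 0 false 7 89 89 9 0 5544) .out)) (.nx 93 205 (.lg 0 false 7 79 79 9 0
  5544) .out)) (.nx 129 103 (.lg 0 false 35 79 83 13 0 27720) .out)))) .out) .out) (.na 133 3 .ne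
  (.nx 190 660563 (.nr 189 881745 (.nx 136 45 (.nx 135 44 (.nr 134 18 (.lg 0 true 1 23 23 5 0 3960)
  (.l1 .sk)) (.l1 .sk)) (.nr 173 38969 (.nx 143 6325 (.lg 0 true 7 89 89 13 0 27720) (.nx 165
  330282 (.nr 156 716 (.lg 0 true 13 83 83 16 0 10296) (.nr 158 1500 (.lg 2 false 2 83 83 7 10149
  7920) (.lg 2 false 7 97 101 13 5972 27720))) (.nr 172 78 (.lg 0 true 7 73 73 13 0 5544) .out)))
  (.nx 188 647 (.nr 180 311745 (.lg 0 false 7 89 89 13 0 27720) (.nx 187 103 (.lg 0 false 7 79 79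
  13 0 5544) .out)) .out))) .out) .out))) (.na 253 5 (.nx 252 660563 (.nr 251 1246976 (.nx 193 44
  (.nr 192 23 (.lg 0 true 1 23 23 9 0 7920) (.l1 .sk)) (.nx 194 45 (.l1 .sk) (.nx 223 6503 (.nr 207
  55110 (.lg 0 false 13 89 89 13 0 102960) (.nx 222 647 (.nr 214 440873 (.lg 0 false 7 89 89 11 0
  11088) (.nx 221 103 (.lg 0 false 7 79 79 11 0 11088) .out)) .out)) (.nr 250 19485 (.nx 242 330282
  (.nr 239 2458 (.nr 236 618 (.lg 0 true 13 83 83 13 0 20592) (.lg 2 true 3 83 83 9 11758 7920))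
  (.lg 2 false 3 89 89 9 2957 7920)) (.nr 249 78 (.lg 0 true 7 73 73 11 0 11088) .out)) .out))))
  .out) .out) (.na 317 6 (.nx 316 660563 (.nr 315 1482912 (.nx 256 45 (.nx 255 44 (.nr 254 28 (.lg
  0 true 1 19 19 9 0 3960) (.l1 .sk)) (.l1 .sk)) (.nx 287 6503 (.nr 269 65537 (.lg 0 false 13 83 89
  16 0 51480) (.nx 286 647 (.nr 272 185365 (.lg 0 false 3 83 83 11 0 3960) (.nx 285 103 (.lg 0
  false 13 73 73 16 0 51480) .out)) .out)) (.nr 314 23172 (.nx 306 330282 (.nr 303 2739 (.nr 300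
  659 (.lg 0 true 13 79 79 16 0 51480) (.lg 2 true 3 79 79 11 11027 3960)) (.lg 2 false 3 83 83 11
  3457 3960)) (.nr 313 78 (.lg 0 true 7 71 71 16 0 27720) .out)) .out))) .out) .out) .ne))) (.na
  373 12 (.na 348 10 (.nx 347 660563 (.nr 346 623489 (.nr 319 7 .s1 (.nx 322 45 (.nx 321 44 (.nr
  320 47 (.lg 0 true 1 17 17 7 0 3960) (.l1 .sk)) (.l1 .sk)) (.nx 323 103 (.l1 (.ls 79 29 956))
  (.nr 345 131073 (.nx 330 3836 (.lg 0 false 7 83 83 16 0 27720) (.nr 344 110219 (.nr 337 217 (.lg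
  0 true 7 71 71 16 0 5544) (.nx 343 41287 (.nx 340 12585 (.lg 1 false 3 89 89 16 27829 7920) (.lg
  1 true 3 89 89 16 8482 7920)) .out)) .out)) .out)))) .out) .out) (.na 349 11 .ne (.nx 372 660563
  (.nr 371 623489 (.nr 350 9 .s1 (.nx 351 103 (.l1 (.ls 73 29 967)) (.nr 370 131073 (.nx 358 6503
  (.lg 0 false 7 79 79 16 0 5544) (.nr 369 46342 (.nr 365 154 (.lg 0 true 7 61 61 16 0 5544) (.nx
  368 41287 (.lg 1 false 3 79 79 9 6906 1584) .out)) .out)) .out))) .out) .out))) (.na 425 16 (.na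
  405 15 (.nx 404 660563 (.nr 403 623489 (.nr 374 11 .s1 (.nx 378 103 (.nx 376 44 (.nr 375 71 (.l1
  (.ls 29 29 164)) (.l1 .sk)) (.nx 377 45 (.l1 .sk) (.l1 (.ls 89 37 718)))) (.nr 402 131073 (.nr
  385 154 (.lg 0 true 7 71 71 23 0 11088) (.nx 401 41287 (.nr 387 2671 (.nx 386 969 (.lg 0 true 1
  61 61 13 0 1584) (.lg 2 false 1 73 73 13 5899 1584)) (.nr 394 46342 (.lg 0 false 7 89 97 23 0
  55440) (.nx 400 6503 (.nr 396 77937 (.lg 0 false 2 89 97 13 0 7920) (.nx 397 406 .out (.nx 399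
  2582 (.lg 0 false 2 89 89 13 0 7920) .out))) .out))) .out)) .out))) .out) .out) (.nx 424 660563
  (.nr 423 623489 (.nr 406 14 .s1 (.nx 409 45 (.nx 408 44 (.nr 407 76 (.l1 (.ls 23 19 132)) (.l1
  .sk)) (.l1 .sk)) (.nx 416 6503 (.nx 410 103 (.l1 (.ls 83 29 575)) (.nr 415 131073 (.nx 413 2582
  (.lg 0 false 3 79 79 16 0 3960) (.nr 414 77937 (.lg 1 true 1 83 83 16 29241 7920) .out)) .out))
  (.nr 422 46342 (.nr 419 154 (.lg 0 true 3 71 71 16 0 3960) (.nx 421 41287 (.lg 1 true 2 89 89 16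
  6906 7920) .out)) .out)))) .out) .out)) (.na 426 20 .ne (.nx 442 660563 (.nr 441 623489 (.nr 427
  19 .s1 (.nx 430 45 (.nx 429 44 (.nr 428 109 (.l1 (.ls 29 23 99)) (.l1 .sk)) (.l1 .sk)) (.nx 435
  6503 (.nx 431 103 (.l1 (.ls 83 31 432)) (.nr 434 131073 (.lg 0 false 3 83 83 19 0 7920) .out))
  (.nr 440 46342 (.nr 438 257 (.lg 0 true 3 73 73 19 0 7920) (.nx 439 41287 (.lg 1 false 1 89 89 13
  6906 7920) .out)) .out)))) .out) .out))))) (.na 517 36 (.na 489 31 (.na 460 25 (.nx 459 660563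
  (.nr 458 131073 (.nr 444 23 .s1 (.nx 450 6503 (.nx 446 44 (.nr 445 118 (.l1 (.ls 17 16 87)) (.l1
  .sk)) (.nx 447 45 (.l1 .sk) (.lg 0 false 3 83 83 16 0 3960))) (.nr 457 32769 (.nr 455 257 (.lg 0
  true 5 71 71 16 0 3960) (.nx 456 41287 (.lg 1 false 1 83 83 11 4885 1584) .out)) .out))) .out)
  .out) (.na 475 27 (.nx 474 660563 (.nr 473 131073 (.nr 461 25 .s1 (.nx 464 45 (.nx 463 44 (.nr
  462 128 (.l1 (.ls 17 16 80)) (.l1 .sk)) (.l1 .sk)) (.nx 467 6503 (.lg 0 false 3 79 79 16 0 3960)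
  (.nr 472 32769 (.nr 470 257 (.lg 0 true 3 67 67 16 0 3960) (.nx 471 41287 (.lg 1 false 1 83 83 16
  4885 7920) .out)) .out)))) .out) .out) (.nx 488 660563 (.nr 487 131073 (.nr 476 27 .s1 (.nx 479
  45 (.nx 478 44 (.nr 477 147 (.l1 (.ls 17 17 74)) (.l1 .sk)) (.l1 .sk)) (.nx 481 6503 (.lg 0 true
  2 83 83 16 0 7920) (.nr 486 32769 (.nr 484 257 (.lg 0 true 3 61 61 16 0 792) (.nx 485 41287 (.lg
  1 false 1 79 79 16 4885 7920) .out)) .out)))) .out) .out))) (.na 504 32 (.nx 503 660563 (.nr 502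
  131073 (.nr 490 31 .s1 (.nx 492 44 (.nr 491 151 (.l1 (.ls 16 16 65)) (.l1 .sk)) (.nx 493 45 (.l1
  .sk) (.nx 496 6503 (.lg 0 false 3 79 79 16 0 792) (.nr 501 32769 (.nr 499 257 (.lg 0 true 3 67 67
  16 0 792) (.nx 500 41287 (.lg 1 false 1 79 79 13 4885 1584) .out)) .out))))) .out) .out) (.na 505
  33 .ne (.nx 516 82572 (.nr 515 262145 (.nr 506 33 .s1 (.nx 510 2582 (.nx 508 44 (.nr 507 170 (.l1
  (.ls 17 17 61)) (.l1 .sk)) (.nx 509 45 (.l1 .sk) (.lg 0 true 1 83 83 16 0 3960))) (.nr 514 32769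
  (.nr 511 154 (.lg 0 false 1 53 53 16 0 792) (.nx 513 41287 (.lg 1 false 2 79 79 16 12305 7920)
  .out)) .out))) .out) .out)))) (.na 553 45 (.na 529 37 (.nx 528 82572 (.nr 527 262145 (.nr 518 36
  .s1 (.nx 523 2582 (.nx 520 44 (.nr 519 175 (.l1 (.ls 23 19 56)) (.l1 .sk)) (.nx 521 45 (.l1 .sk)
  (.lg 0 false 2 79 79 23 0 1584))) (.nr 526 32769 (.nr 524 154 (.lg 0 true 1 53 53 19 0 1584) (.nx
  525 41287 (.lg 1 false 1 83 83 19 12305 1584) .out)) .out))) .out) .out) (.na 542 44 (.nx 541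
  82572 (.nr 540 262145 (.nr 530 37 .s1 (.nx 533 45 (.nx 532 44 (.nr 531 208 (.l1 (.ls 17 16 55))
  (.l1 .sk)) (.l1 .sk)) (.nx 536 2582 (.lg 0 false 3 73 73 16 0 792) (.nr 539 32769 (.nr 537 154
  (.lg 0 false 1 59 59 16 0 792) (.nx 538 41287 (.lg 1 false 1 89 89 16 12305 7920) .out)) .out))))
  .out) .out) (.nx 552 82572 (.nr 551 262145 (.nr 543 44 .s1 (.nx 546 45 (.nx 545 44 (.nr 544 213
  (.l1 (.ls 17 19 46)) (.l1 .sk)) (.l1 .sk)) (.nr 549 32769 (.lg 0 true 3 83 83 19 0 7920) (.nx 550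
  2582 (.lg 0 true 1 79 79 13 0 1584) .out)))) .out) .out))) (.na 575 53 (.na 564 47 (.nx 563 82572
  (.nr 562 262145 (.nr 554 45 .s1 (.nx 560 41287 (.nx 556 44 (.nr 555 222 (.l1 (.ls 19 17 46)) (.l1
  .sk)) (.nx 557 45 (.l1 .sk) (.nr 558 32769 (.lg 0 false 1 83 83 17 0 3960) (.nx 559 2582 (.lg 0
  false 1 79 79 17 0 3960) .out)))) (.nr 561 154 (.lg 0 true 1 47 47 17 0 3960) .out))) .out) .out)
  (.nx 574 82572 (.nr 573 262145 (.nr 565 47 .s1 (.nx 567 44 (.nr 566 250 (.l1 (.ls 17 16 44)) (.l1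
  .sk)) (.nx 568 45 (.l1 .sk) (.nr 571 32769 (.lg 0 true 3 83 83 16 0 3960) (.nx 572 2582 (.lg 0
  true 1 79 79 16 0 792) .out))))) .out) .out)) (.na 586 55 (.nx 585 82572 (.nr 584 262145 (.nr 576
  53 .s1 (.nx 579 45 (.nx 578 44 (.nr 577 260 (.l1 (.ls 16 16 39)) (.l1 .sk)) (.l1 .sk)) (.nr 582
  32769 (.lg 0 true 3 83 83 16 0 3960) (.nx 583 2582 (.lg 0 true 1 79 79 16 0 3960) .out)))) .out)
  .out) (.nx 595 82572 (.nr 594 262145 (.nr 587 55 .s1 (.nx 589 44 (.nr 588 279 (.l1 (.ls 16 16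
  38)) (.l1 .sk)) (.nx 590 45 (.l1 .sk) (.nr 592 32769 (.lg 0 false 2 83 83 17 0 7920) (.nx 593
  2582 (.lg 0 true 1 73 73 16 0 3960) .out))))) .out) .out)))))) (.na 709 100 (.na 651 75 (.na 618
  67 (.na 606 60 (.nx 605 82572 (.nr 604 262145 (.nr 597 59 .s1 (.nx 600 45 (.nx 599 44 (.nr 598
  283 (.l1 (.ls 16 16 35)) (.l1 .sk)) (.l1 .sk)) (.nr 602 32769 (.lg 0 false 2 83 83 16 0 1584)
  (.nx 603 2582 (.lg 0 true 1 79 79 16 0 3960) .out)))) .out) .out) (.na 617 64 (.nx 616 82572 (.nr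
  615 262145 (.nr 607 60 .s1 (.nx 609 44 (.nr 608 302 (.l1 (.ls 31 23 35)) (.l1 .sk)) (.nx 610 45
  (.l1 .sk) (.nr 613 32769 (.nx 611 41287 (.lg 0 false 1 89 89 29 0 7920) (.nr 612 154 (.lg 0 true
  1 53 59 29 0 7920) .out)) (.nx 614 2582 (.lg 0 false 1 83 83 29 0 7920) .out))))) .out) .out)
  .ne)) (.na 630 69 (.nx 629 82572 (.nr 628 524289 (.nr 619 67 .s1 (.nx 621 44 (.nr 620 326 (.l1
  (.ls 16 16 31)) (.l1 .sk)) (.nx 622 45 (.l1 .sk) (.nx 625 6503 (.lg 0 false 3 79 79 16 0 792)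
  (.nr 627 65537 (.lg 1 false 2 83 83 16 27114 7920) .out))))) .out) .out) (.na 640 71 (.nx 639
  82572 (.nr 638 524289 (.nr 631 69 .s1 (.nx 634 6503 (.nx 632 647 (.l1 (.ls 73 43 6069)) (.nr 633
  262145 (.lg 0 true 1 83 83 17 0 3960) .out)) (.nr 637 65537 (.nr 635 257 (.lg 0 true 1 53 53 17 0
  792) (.nx 636 41287 (.lg 1 false 1 73 73 17 9763 1584) .out)) .out))) .out) .out) (.nx 650 82572
  (.nr 649 524289 (.nr 641 71 .s1 (.nx 647 6503 (.nx 643 44 (.nr 642 354 (.l1 (.ls 16 16 30)) (.l1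
  .sk)) (.nx 644 45 (.l1 .sk) (.lg 0 false 3 73 73 16 0 792))) (.nr 648 65537 (.lg 1 false 1 83 83
  16 25586 1584) .out))) .out) .out)))) (.na 677 92 (.na 661 81 (.nx 660 82572 (.nr 659 524289 (.nr
  652 75 .s1 (.nx 657 41287 (.nx 653 647 (.l1 (.ls 73 43 5584)) (.nr 656 262145 (.nx 654 6503 (.lg
  0 true 1 83 83 17 0 3960) (.nr 655 65537 (.lg 1 false 1 73 73 17 12111 7920) .out)) .out)) (.nr
  658 257 (.lg 0 true 1 47 47 17 0 3960) .out))) .out) .out) (.na 669 89 (.nx 668 82572 (.nr 667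
  524289 (.nr 662 81 .s1 (.nx 663 647 (.l1 (.ls 67 41 5171)) (.nr 666 262145 (.nx 664 6503 (.lg 0
  true 1 73 73 16 0 792) (.nr 665 65537 (.lg 1 false 1 79 79 16 22427 7920) .out)) .out))) .out)
  .out) (.nx 676 82572 (.nr 675 524289 (.nr 670 89 .s1 (.nx 673 6503 (.nx 671 647 (.l1 (.ls 67 37
  4706)) (.nr 672 262145 (.lg 0 true 1 73 73 16 0 3960) .out)) (.nr 674 65537 (.lg 1 false 1 79 79
  16 20412 7920) .out))) .out) .out))) (.na 693 97 (.na 685 93 (.nx 684 82572 (.nr 683 524289 (.nr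
  678 92 .s1 (.nx 681 6503 (.nx 679 647 (.l1 (.ls 79 47 4553)) (.nr 680 262145 (.lg 0 true 1 83 83
  19 0 7920) .out)) (.nr 682 65537 (.lg 1 false 1 83 83 19 19746 7920) .out))) .out) .out) (.nx 692
  82572 (.nr 691 524289 (.nr 686 93 .s1 (.nx 689 6503 (.nx 687 647 (.l1 (.ls 73 43 4504)) (.nr 688
  262145 (.lg 0 true 1 83 83 17 0 3960) .out)) (.nr 690 65537 (.lg 1 false 1 83 83 17 19534 1584)
  .out))) .out) .out)) (.na 701 99 (.nx 700 82572 (.nr 699 524289 (.nr 694 97 .s1 (.nx 697 6503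
  (.nx 695 647 (.l1 (.ls 67 31 4318)) (.nr 696 262145 (.lg 0 true 1 71 71 16 0 792) .out)) (.nr 698
  65537 (.lg 1 false 1 73 73 16 18728 7920) .out))) .out) .out) (.nx 708 82572 (.nr 707 524289 (.nr
  702 99 .s1 (.nx 705 6503 (.nx 703 647 (.l1 (.ls 61 43 4231)) (.nr 704 262145 (.lg 0 true 1 71 71
  17 0 792) .out)) (.nr 706 65537 (.lg 1 false 1 73 73 17 18350 7920) .out))) .out) .out))))) (.na
  758 124 (.na 733 111 (.na 717 103 (.nx 716 82572 (.nr 715 524289 (.nr 710 100 .s1 (.nx 713 6503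
  (.nx 711 647 (.l1 (.ls 73 43 4189)) (.nr 712 262145 (.lg 0 true 1 79 79 23 0 7920) .out)) (.nr
  714 65537 (.lg 1 false 1 79 79 23 18166 7920) .out))) .out) .out) (.na 725 108 (.nx 724 82572
  (.nr 723 524289 (.nr 718 103 .s1 (.nx 721 6503 (.nx 719 647 (.l1 (.ls 67 31 4067)) (.nr 720
  262145 (.lg 0 true 1 73 73 16 0 3960) .out)) (.nr 722 65537 (.lg 1 false 1 73 73 16 17637 1584)
  .out))) .out) .out) (.nx 732 82572 (.nr 731 524289 (.nr 726 108 .s1 (.nx 729 6503 (.nx 727 647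
  (.l1 (.ls 71 47 3879)) (.nr 728 262145 (.lg 0 false 1 73 73 23 0 1584) .out)) (.nr 730 65537 (.lg
  1 false 1 79 79 23 16821 7920) .out))) .out) .out))) (.na 749 115 (.na 741 113 (.nx 740 82572
  (.nr 739 524289 (.nr 734 111 .s1 (.nx 737 6503 (.nx 735 647 (.l1 (.ls 71 41 3774)) (.nr 736
  262145 (.lg 0 false 1 73 73 17 0 792) .out)) (.nr 738 65537 (.lg 1 false 1 79 79 17 16366 1584)
  .out))) .out) .out) (.nx 748 82572 (.nr 747 524289 (.nr 742 113 .s1 (.nx 743 647 (.l1 (.ls 61 31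
  3707)) (.nr 746 262145 (.nx 744 6503 (.lg 0 true 1 71 71 16 0 3960) (.nr 745 65537 (.lg 1 false 1
  71 71 16 16076 1584) .out)) .out))) .out) .out)) (.na 757 121 (.nx 756 82572 (.nr 755 524289 (.nr
  750 115 .s1 (.nx 753 6503 (.nx 751 647 (.l1 (.ls 73 41 3643)) (.nr 752 262145 (.lg 0 true 1 79 79
  17 0 3960) .out)) (.nr 754 65537 (.lg 1 false 1 83 83 17 15797 7920) .out))) .out) .out) (.lg 0
  false 1 0 0 16 0 24)))) (.na 776 131 (.na 766 125 (.nx 765 82572 (.nr 764 524289 (.nr 759 124 .s1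
  (.nx 762 6503 (.nx 760 647 (.l1 (.ls 73 43 3378)) (.nr 761 262145 (.lg 0 false 1 79 79 19 0 1584)
  .out)) (.nr 763 65537 (.lg 1 false 1 79 79 19 14650 1584) .out))) .out) .out) (.na 775 128 (.nx
  774 82572 (.nr 773 524289 (.nr 767 125 .s1 (.nx 769 44 (.nr 768 604 (.l1 (.ls 16 16 33)) (.l1
  .sk)) (.nx 770 45 (.l1 .sk) (.nx 771 6503 (.lg 0 true 1 73 73 16 0 3960) (.nr 772 65537 (.lg 1
  false 1 71 71 16 14533 7920) .out))))) .out) .out) .ne)) (.na 783 135 (.na 777 132 (.lg 0 false 1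
  0 0 16 0 24) (.nx 782 41287 (.nr 781 1048577 (.nr 778 132 .s1 (.nx 779 647 (.l1 (.ls 73 47 3174))
  (.nr 780 131073 (.lg 0 true 1 83 83 31 0 7920) .out))) .out) .out)) (.na 789 137 (.nx 788 41287
  (.nr 787 1048577 (.nr 784 135 .s1 (.nx 785 647 (.l1 (.ls 73 41 3103)) (.nr 786 131073 (.lg 0 true
  1 83 83 19 0 3960) .out))) .out) .out) (.nx 794 41287 (.nr 793 1048577 (.nr 790 137 .s1 (.nx 791
  647 (.l1 (.ls 67 31 3058)) (.nr 792 131073 (.lg 0 true 1 73 73 16 0 792) .out))) .out)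
  .out))))))) (.na 911 213 (.na 848 179 (.na 816 157 (.na 808 149 (.na 796 141 (.lg 0 false 1 0 0
  16 0 24) (.na 802 148 (.nx 801 41287 (.nr 800 1048577 (.nr 797 141 .s1 (.nx 798 647 (.l1 (.ls 73
  37 2971)) (.nr 799 131073 (.lg 0 false 1 83 83 19 0 792) .out))) .out) .out) (.nx 807 41287 (.nr
  806 1048577 (.nr 803 148 .s1 (.nx 804 647 (.l1 (.ls 79 43 2831)) (.nr 805 131073 (.lg 0 true 1 89
  89 23 0 7920) .out))) .out) .out))) (.na 809 151 (.lg 0 false 1 0 0 16 0 24) (.na 810 155 (.lg 0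
  false 1 0 0 16 0 24) (.nx 815 41287 (.nr 814 1048577 (.nr 811 155 .s1 (.nx 812 647 (.l1 (.ls 73
  41 2703)) (.nr 813 131073 (.lg 0 true 1 83 83 17 0 3960) .out))) .out) .out)))) (.na 834 165 (.na
  822 159 (.nx 821 41287 (.nr 820 1048577 (.nr 817 157 .s1 (.nx 818 647 (.l1 (.ls 67 31 2669)) (.nr
  819 131073 (.lg 0 true 1 73 73 16 0 3960) .out))) .out) .out) (.na 828 163 (.nx 827 41287 (.nr
  826 1048577 (.nr 823 159 .s1 (.nx 824 647 (.l1 (.ls 73 37 2635)) (.nr 825 131073 (.lg 0 false 1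
  83 83 19 0 792) .out))) .out) .out) (.nx 833 41287 (.nr 832 1048577 (.nr 829 163 .s1 (.nx 830 647
  (.l1 (.ls 67 31 2571)) (.nr 831 131073 (.lg 0 true 1 73 73 16 0 3960) .out))) .out) .out))) (.na
  841 173 (.na 840 167 (.nx 839 41287 (.nr 838 1048577 (.nr 835 165 .s1 (.nx 836 647 (.l1 (.ls 71
  43 2540)) (.nr 837 131073 (.lg 0 false 1 79 79 29 0 3960) .out))) .out) .out) (.lg 0 false 1 0 0
  16 0 24)) (.na 842 177 (.lg 0 false 1 0 0 16 0 24) (.nx 847 41287 (.nr 846 1048577 (.nr 843 177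
  .s1 (.nx 844 647 (.l1 (.ls 73 37 2368)) (.nr 845 131073 (.lg 0 true 1 83 83 19 0 3960) .out)))
  .out) .out))))) (.na 884 193 (.na 866 185 (.na 854 180 (.nx 853 41287 (.nr 852 1048577 (.nr 849
  179 .s1 (.nx 850 647 (.l1 (.ls 67 31 2341)) (.nr 851 131073 (.lg 0 true 1 73 73 16 0 3960)
  .out))) .out) .out) (.na 860 181 (.nx 859 41287 (.nr 858 1048577 (.nr 855 180 .s1 (.nx 856 647
  (.l1 (.ls 79 47 2328)) (.nr 857 131073 (.lg 0 false 1 83 89 37 0 7920) .out))) .out) .out) (.nx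
  865 41287 (.nr 864 1048577 (.nr 861 181 .s1 (.nx 862 647 (.l1 (.ls 67 31 2315)) (.nr 863 131073
  (.lg 0 true 1 73 73 16 0 3960) .out))) .out) .out))) (.na 872 188 (.nx 871 41287 (.nr 870 1048577
  (.nr 867 185 .s1 (.nx 868 647 (.l1 (.ls 73 31 2265)) (.nr 869 131073 (.lg 0 true 1 83 83 19 0
  3960) .out))) .out) .out) (.na 878 191 (.nx 877 41287 (.nr 876 1048577 (.nr 873 188 .s1 (.nx 874
  647 (.l1 (.ls 73 41 2229)) (.nr 875 131073 (.lg 0 true 1 83 83 23 0 7920) .out))) .out) .out)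
  (.nx 883 41287 (.nr 882 1048577 (.nr 879 191 .s1 (.nx 880 647 (.l1 (.ls 67 29 2194)) (.nr 881
  131073 (.lg 0 true 1 71 71 16 0 792) .out))) .out) .out)))) (.na 892 201 (.na 885 197 (.lg 0
  false 1 0 0 16 0 24) (.na 886 199 (.lg 0 false 1 0 0 16 0 24) (.nx 891 41287 (.nr 890 1048577
  (.nr 887 199 .s1 (.nx 888 647 (.l1 (.ls 61 29 2106)) (.nr 889 131073 (.lg 0 true 1 71 71 16 0
  792) .out))) .out) .out))) (.na 904 211 (.na 898 207 (.nx 897 41287 (.nr 896 1048577 (.nr 893 201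
  .s1 (.nx 894 647 (.l1 (.ls 61 37 2085)) (.nr 895 131073 (.lg 0 false 1 79 79 19 0 792) .out)))
  .out) .out) (.nx 903 41287 (.nr 902 1048577 (.nr 899 207 .s1 (.nx 900 647 (.l1 (.ls 73 41 2025))
  (.nr 901 131073 (.lg 0 false 1 79 79 19 0 792) .out))) .out) .out)) (.na 905 212 (.lg 0 false 1 0
  0 16 0 24) (.nx 910 41287 (.nr 909 1048577 (.nr 906 212 .s1 (.nx 907 647 (.l1 (.ls 73 37 1977))
  (.nr 908 131073 (.lg 0 true 1 83 83 23 0 7920) .out))) .out) .out)))))) (.na 969 253 (.na 942 233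
  (.na 929 225 (.na 917 220 (.nx 916 41287 (.nr 915 1048577 (.nr 912 213 .s1 (.nx 913 647 (.l1 (.ls
  67 37 1968)) (.nr 914 131073 (.lg 0 false 1 79 79 19 0 3960) .out))) .out) .out) (.na 923 223
  (.nx 922 41287 (.nr 921 1048577 (.nr 918 220 .s1 (.nx 919 647 (.l1 (.ls 73 43 1905)) (.nr 920
  131073 (.lg 0 true 1 79 79 31 0 7920) .out))) .out) .out) (.nx 928 41287 (.nr 927 1048577 (.nr
  924 223 .s1 (.nx 925 647 (.l1 (.ls 61 29 1880)) (.nr 926 131073 (.lg 0 true 1 71 71 16 0 3960)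
  .out))) .out) .out))) (.na 935 227 (.nx 934 41287 (.nr 933 1048577 (.nr 930 225 .s1 (.nx 931 647
  (.l1 (.ls 71 37 1863)) (.nr 932 131073 (.lg 0 false 1 73 73 23 0 3960) .out))) .out) .out) (.na
  936 229 (.lg 0 false 1 0 0 16 0 24) (.nx 941 41287 (.nr 940 1048577 (.nr 937 229 .s1 (.nx 938 647
  (.l1 (.ls 61 29 1830)) (.nr 939 131073 (.lg 0 true 1 71 71 17 0 792) .out))) .out) .out)))) (.na
  955 239 (.na 943 235 (.lg 0 false 1 0 0 16 0 24) (.na 949 236 (.nx 948 41287 (.nr 947 1048577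
  (.nr 944 235 .s1 (.nx 945 647 (.l1 (.ls 73 31 1784)) (.nr 946 131073 (.lg 0 false 1 79 79 19 0
  3960) .out))) .out) .out) (.nx 954 41287 (.nr 953 1048577 (.nr 950 236 .s1 (.nx 951 647 (.l1 (.ls
  73 37 1776)) (.nr 952 131073 (.lg 0 false 1 83 83 23 0 1584) .out))) .out) .out))) (.na 957 243
  (.na 956 241 (.lg 0 false 1 0 0 16 0 24) (.lg 0 false 1 0 0 16 0 24)) (.na 963 251 (.nx 962 41287
  (.nr 961 1048577 (.nr 958 243 .s1 (.nx 959 647 (.l1 (.ls 61 31 1725)) (.nr 960 131073 (.lg 0 true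
  1 71 71 19 0 3960) .out))) .out) .out) (.nx 968 41287 (.nr 967 1048577 (.nr 964 251 .s1 (.nx 965
  647 (.l1 (.ls 61 29 1670)) (.nr 966 131073 (.lg 0 true 1 67 67 17 0 792) .out))) .out) .out)))))
  (.na 2319 2048 (.na 1279 512 (.na 975 256 (.nx 974 41287 (.nr 973 1048577 (.nr 970 253 .s1 (.nx
  971 647 (.l1 (.ls 67 37 1657)) (.nr 972 131073 (.lg 0 true 1 71 71 19 0 792) .out))) .out) .out)
  (.na 976 257 .ne (.nx 1278 41287 (.nr 1277 262145 (.nr 977 257 .s1 (.nx 1021 44 (.nr 1020 2416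
  (.lx (.lp 31 17 129)) (.l1 .sk)) (.nx 1022 45 (.l1 .sk) (.la (.lg 0 false 1 73 73 23 0))))) .out)
  .out))) (.na 1800 1024 (.na 1540 725 (.nx 1539 41287 (.nr 1538 262145 (.nr 1280 512 .s1 (.nx 1324
  44 (.nr 1323 3421 (.lx (.lp 16 0 182)) (.l1 .sk)) (.nx 1325 45 (.l1 .sk) (.la (.lg 0 false 1 67
  67 29 0))))) .out) .out) (.nx 1799 257 (.nr 1798 65537 (.nr 1541 725 .s1 (.nx 1669 129 (.lx (.lp
  43 19 257)) (.nr 1797 8193 (.lx (.lp 31 23 257)) .out))) .out) .out)) (.na 2060 1449 (.nx 2059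
  257 (.nr 2058 65537 (.nr 1801 1024 .s1 (.nx 1929 129 (.lx (.lp 43 23 363)) (.nr 2057 8193 (.lx
  (.lp 29 23 363)) .out))) .out) .out) (.nx 2318 257 (.nr 2317 16385 (.nr 2061 1449 .s1 (.lx (.lp
  31 29 513))) .out) .out)))) (.na 3096 5793 (.na 2578 2897 (.nx 2577 257 (.nr 2576 32769 (.nr 2320
  2048 .s1 (.lx (.lp 37 31 725))) .out) .out) (.na 2837 4096 (.nx 2836 257 (.nr 2835 32769 (.nr
  2579 2897 .s1 (.lx (.lp 31 31 1025))) .out) .out) (.nx 3095 257 (.nr 3094 32769 (.nr 2838 4096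
  .s1 (.lx (.lp 31 31 1449))) .out) .out))) (.na 3306 16384 (.na 3201 8192 (.nx 3200 103 (.nr 3199
  32769 (.nr 3097 5793 .s1 (.lx (.lp 29 37 2049))) .out) .out) (.nx 3305 103 (.nr 3304 32769 (.nr
  3202 8192 .s1 (.lx (.lp 16 0 4097))) .out) .out)) (.na 3308 32769 (.nx 3307 103 (.l1 .sk) .out)
  .out)))))))

def T47_2 : Ph :=
  (.na 300 125 (.na 163 50 (.na 105 17 (.na 67 7 (.na 41 4 (.na 1 2 .ne (.na 19 3 (.nx 18 52017
  (.nr 17 3446 (.nx 4 10 (.nx 3 9 (.nr 2 6 (.lg 0 true 1 0 16 5 0 5040) (.l1 .sk)) (.l1 .sk)) (.nr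
  11 154 (.lg 0 false 7 67 67 9 0 5040) (.nx 16 10323 (.nx 13 163 (.lg 0 true 2 61 61 5 0 720) (.nr
  15 1219 (.lg 2 true 2 61 61 5 307 5040) .out)) .out))) .out) .out) (.nx 40 165142 (.nr 39 4872
  (.nr 20 1 .s1 (.nx 21 90 (.l1 (.ls 59 37 2702)) (.nr 38 1724 (.nr 34 217 (.nx 23 650 (.nr 22 40
  (.lg 0 false 1 43 43 5 0 360) (.lg 2 true 1 43 43 5 103 360)) (.lg 0 true 11 67 67 7 0 792)) (.nx
  37 10323 (.lg 2 true 3 59 59 7 785 360) .out)) .out))) .out) .out))) (.na 42 5 .ne (.na 56 6 (.nx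
  55 20644 (.nr 54 23172 (.nr 43 5 .s1 (.nr 47 129 (.nx 44 123 (.l1 (.ls 31 37 3028)) (.lg 0 false
  3 59 59 11 0 360)) (.nx 49 10 (.nx 48 9 (.l1 .sk) (.l1 .sk)) (.nx 53 1627 (.lg 0 true 4 73 73 13
  0 720) .out)))) .out) .out) (.nx 66 20644 (.nr 65 3446 (.nr 57 6 .s1 (.nx 59 9 (.nr 58 15 (.lg 0
  false 1 16 16 7 0 720720) (.l1 .sk)) (.nx 60 10 (.l1 .sk) (.lg 0 false 5 71 71 11 0 720)))) .out)
  .out)))) (.na 87 13 (.na 68 9 .ne (.na 79 10 (.nx 78 20644 (.nr 77 3446 (.nr 69 9 .s1 (.nx 72 10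
  (.nx 71 9 (.nr 70 22 (.l1 (.ls 16 16 11)) (.l1 .sk)) (.l1 .sk)) (.nx 75 10323 (.lg 0 false 3 61
  61 16 0 72) (.nr 76 65 (.lg 0 true 1 47 47 13 0 72) .out)))) .out) .out) (.nx 86 20644 (.nr 85
  3446 (.nr 80 10 .s1 (.nx 83 10 (.nx 82 9 (.nr 81 29 (.l1 (.ls 16 11 11)) (.l1 .sk)) (.l1 .sk))
  (.lg 0 false 2 73 73 11 0 720))) .out) .out))) (.na 95 15 (.nx 94 20644 (.nr 93 3446 (.nr 88 13
  .s1 (.nx 90 9 (.nr 89 33 (.l1 (.ls 16 9 9)) (.l1 .sk)) (.nx 91 10 (.l1 .sk) (.lg 0 false 2 71 71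
  11 0 1872)))) .out) .out) (.na 104 16 (.nx 103 20644 (.nr 102 3446 (.nr 96 15 .s1 (.nx 98 9 (.nr
  97 35 (.l1 (.ls 16 16 8)) (.l1 .sk)) (.nx 99 10 (.l1 .sk) (.lg 0 true 3 61 61 16 0 360)))) .out)
  .out) .ne)))) (.na 132 30 (.na 119 26 (.na 112 18 (.nx 111 20644 (.nr 110 6890 (.nr 106 17 .s1
  (.nx 107 27 (.l1 (.ls 43 16 45)) (.nr 109 3446 (.lg 0 false 2 71 71 11 0 144) .out))) .out) .out)
  (.na 118 23 (.nx 117 20644 (.nr 116 6890 (.nr 113 18 .s1 (.nx 114 27 (.l1 (.ls 47 19 43)) (.nr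
  115 3446 (.lg 0 false 1 73 73 13 0 720) .out))) .out) .out) .ne)) (.na 125 27 (.nx 124 20644 (.nr
  123 6890 (.nr 120 26 .s1 (.nx 121 163 (.l1 (.ls 47 37 1024)) (.nr 122 257 (.lg 0 false 1 59 59 11
  0 9360) .out))) .out) .out) (.na 126 29 (.lg 0 false 1 0 0 7 0 24) (.nx 131 20644 (.nr 130 6890
  (.nr 127 29 .s1 (.nx 128 163 (.l1 (.ls 43 23 919)) (.nr 129 257 (.lg 0 false 1 53 53 13 0 360)
  .out))) .out) .out)))) (.na 145 37 (.na 138 32 (.nx 137 20644 (.nr 136 6890 (.nr 133 30 .s1 (.nx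
  134 163 (.l1 (.ls 43 41 888)) (.nr 135 257 (.lg 0 false 1 53 53 19 0 720) .out))) .out) .out)
  (.na 139 34 .ne (.nx 144 10323 (.nr 143 4097 (.nr 140 34 .s1 (.nx 141 27 (.l1 (.ls 41 13 24))
  (.nr 142 1724 (.lg 0 false 1 61 61 13 0 720) .out))) .out) .out))) (.na 151 41 (.nx 150 10323
  (.nr 149 4097 (.nr 146 37 .s1 (.nx 147 27 (.l1 (.ls 31 16 22)) (.nr 148 1724 (.lg 0 false 1 59 59
  16 0 360) .out))) .out) .out) (.na 157 45 (.nx 156 10323 (.nr 155 4097 (.nr 152 41 .s1 (.nx 153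
  27 (.l1 (.ls 29 16 20)) (.nr 154 1724 (.lg 0 false 1 53 53 16 0 72) .out))) .out) .out) (.nx 162
  10323 (.nr 161 4097 (.nr 158 45 .s1 (.nx 159 27 (.l1 (.ls 43 16 19)) (.nr 160 1724 (.lg 0 true 1
  59 59 17 0 360) .out))) .out) .out)))))) (.na 220 82 (.na 194 64 (.na 181 54 (.na 169 51 (.nx 168
  10323 (.nr 167 4097 (.nr 164 50 .s1 (.nx 165 27 (.l1 (.ls 31 13 17)) (.nr 166 1724 (.lg 0 false 1
  53 53 13 0 720) .out))) .out) .out) (.na 175 53 (.nx 174 10323 (.nr 173 4097 (.nr 170 51 .s1 (.nx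
  171 27 (.l1 (.ls 37 16 17)) (.nr 172 1724 (.lg 0 false 1 53 53 16 0 72) .out))) .out) .out) (.nx
  180 10323 (.nr 179 4097 (.nr 176 53 .s1 (.nx 177 163 (.l1 (.ls 31 19 504)) (.nr 178 513 (.lg 0
  true 1 41 41 16 0 360) .out))) .out) .out))) (.na 182 58 (.lg 0 false 1 0 0 16 0 24) (.na 188 61
  (.nx 187 10323 (.nr 186 4097 (.nr 183 58 .s1 (.nx 184 27 (.l1 (.ls 23 13 16)) (.nr 185 1724 (.lg
  0 false 1 59 59 13 0 720) .out))) .out) .out) (.nx 193 10323 (.nr 192 4097 (.nr 189 61 .s1 (.nx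
  190 163 (.l1 (.ls 31 19 438)) (.nr 191 513 (.lg 2 true 1 23 23 16 762 72) .out))) .out) .out))))
  (.na 207 75 (.na 195 73 .ne (.na 201 74 (.nx 200 20644 (.nr 199 2049 (.nr 196 73 .s1 (.nx 197 163
  (.l1 (.ls 23 19 366)) (.nr 198 513 (.lg 2 true 1 23 23 16 1273 360) .out))) .out) .out) (.nx 206
  20644 (.nr 205 2049 (.nr 202 74 .s1 (.nx 203 163 (.l1 (.ls 29 29 362)) (.nr 204 513 (.lg 2 true 1
  23 23 13 1256 144) .out))) .out) .out))) (.na 213 78 (.nx 212 20644 (.nr 211 2049 (.nr 208 75 .s1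
  (.nx 209 163 (.l1 (.ls 29 29 357)) (.nr 210 513 (.lg 2 false 1 23 23 17 1239 360) .out))) .out)
  .out) (.na 219 81 (.nx 218 20644 (.nr 217 2049 (.nr 214 78 .s1 (.nx 215 163 (.l1 (.ls 31 37 343))
  (.nr 216 513 (.lg 2 true 1 29 29 23 1191 9360) .out))) .out) .out) (.lg 0 false 1 0 0 16 0
  24))))) (.na 258 106 (.na 239 90 (.na 226 85 (.nx 225 20644 (.nr 224 2049 (.nr 221 82 .s1 (.nx
  222 163 (.l1 (.ls 29 29 327)) (.nr 223 513 (.lg 2 true 1 23 23 13 1133 144) .out))) .out) .out)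
  (.na 233 87 (.nx 232 20644 (.nr 231 2049 (.nr 227 85 .s1 (.nx 230 10 (.nx 229 9 (.nr 228 190 (.l1
  (.ls 16 16 22)) (.l1 .sk)) (.l1 .sk)) (.lg 0 true 1 59 59 16 0 360))) .out) .out) (.nx 238 20644
  (.nr 237 2049 (.nr 234 87 .s1 (.nx 235 163 (.l1 (.ls 23 23 308)) (.nr 236 513 (.lg 2 false 1 19
  19 16 1068 360) .out))) .out) .out))) (.na 246 101 (.nx 245 20644 (.nr 244 2049 (.nr 240 90 .s1
  (.nx 242 9 (.nr 241 221 (.l1 (.ls 17 19 26)) (.l1 .sk)) (.nx 243 10 (.l1 .sk) (.lg 0 true 1 59 59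
  29 0 720)))) .out) .out) (.na 252 102 (.nx 251 20644 (.nr 250 2049 (.nr 247 101 .s1 (.nx 248 163
  (.l1 (.ls 19 17 266)) (.nr 249 513 (.lg 2 true 1 19 19 16 920 360) .out))) .out) .out) (.nx 257
  20644 (.nr 256 2049 (.nr 253 102 .s1 (.nx 254 163 (.l1 (.ls 16 37 263)) (.nr 255 513 (.lg 2 true
  1 23 23 29 911 720) .out))) .out) .out)))) (.na 276 113 (.na 264 109 (.nx 263 20644 (.nr 262 2049
  (.nr 259 106 .s1 (.nx 260 163 (.l1 (.ls 23 23 253)) (.nr 261 513 (.lg 2 false 1 17 17 19 877 720)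
  .out))) .out) .out) (.na 270 111 (.nx 269 20644 (.nr 268 2049 (.nr 265 109 .s1 (.nx 266 163 (.l1
  (.ls 23 17 246)) (.nr 267 513 (.lg 2 true 1 17 17 16 853 360) .out))) .out) .out) (.nx 275 20644
  (.nr 274 2049 (.nr 271 111 .s1 (.nx 272 163 (.l1 (.ls 19 23 242)) (.nr 273 513 (.lg 2 true 1 19
  19 17 837 51480) .out))) .out) .out))) (.na 288 122 (.na 282 117 (.nx 281 20644 (.nr 280 2049
  (.nr 277 113 .s1 (.nx 278 163 (.l1 (.ls 19 17 238)) (.nr 279 513 (.lg 2 true 1 16 16 16 823 360)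
  .out))) .out) .out) (.nx 287 20644 (.nr 286 2049 (.nr 283 117 .s1 (.nx 284 163 (.l1 (.ls 37 23
  230)) (.nr 285 513 (.lg 0 true 1 43 47 23 0 4680) .out))) .out) .out)) (.na 294 123 (.nx 293
  20644 (.nr 292 2049 (.nr 289 122 .s1 (.nx 290 163 (.l1 (.ls 23 23 220)) (.nr 291 513 (.lg 2 true
  1 19 19 19 762 720) .out))) .out) .out) (.nx 299 20644 (.nr 298 2049 (.nr 295 123 .s1 (.nx 296
  163 (.l1 (.ls 19 19 219)) (.nr 297 513 (.lg 2 true 1 23 23 17 756 65520) .out))) .out)
  .out))))))) (.na 415 202 (.na 352 162 (.na 321 145 (.na 313 131 (.na 306 128 (.nx 305 20644 (.nr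
  304 2049 (.nr 301 125 .s1 (.nx 302 163 (.l1 (.ls 19 19 215)) (.nr 303 513 (.lg 2 true 1 17 17 16
  744 9360) .out))) .out) .out) (.na 307 130 .ne (.nx 312 10323 (.nr 311 2049 (.nr 308 130 .s1 (.nx
  309 163 (.l1 (.ls 31 31 207)) (.nr 310 513 (.lg 2 false 1 19 19 29 358 9360) .out))) .out)
  .out))) (.na 314 137 (.lg 0 false 1 0 0 16 0 24) (.na 320 139 (.nx 319 10323 (.nr 318 2049 (.nr
  315 137 .s1 (.nx 316 163 (.l1 (.ls 19 17 196)) (.nr 317 513 (.lg 2 false 1 17 17 16 340 360360)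
  .out))) .out) .out) (.lg 0 false 1 0 0 16 0 24)))) (.na 339 150 (.na 327 146 (.nx 326 10323 (.nr
  325 2049 (.nr 322 145 .s1 (.nx 323 163 (.l1 (.ls 23 19 186)) (.nr 324 513 (.lg 2 false 1 17 17 17
  321 2520) .out))) .out) .out) (.na 333 149 (.nx 332 10323 (.nr 331 2049 (.nr 328 146 .s1 (.nx 329
  163 (.l1 (.ls 19 23 184)) (.nr 330 513 (.lg 2 false 1 17 17 19 319 102960) .out))) .out) .out)
  (.nx 338 10323 (.nr 337 2049 (.nr 334 149 .s1 (.nx 335 163 (.l1 (.ls 19 17 181)) (.nr 336 513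
  (.lg 2 false 1 17 17 16 312 720720) .out))) .out) .out))) (.na 345 151 (.nx 344 10323 (.nr 343
  2049 (.nr 340 150 .s1 (.nx 341 163 (.l1 (.ls 23 31 180)) (.nr 342 513 (.lg 2 false 1 16 16 29 310
  65520) .out))) .out) .out) (.na 346 157 (.lg 0 false 1 0 0 16 0 24) (.nx 351 10323 (.nr 350 2049
  (.nr 347 157 .s1 (.nx 348 163 (.l1 (.ls 19 17 172)) (.nr 349 513 (.lg 2 true 1 17 17 16 296
  720720) .out))) .out) .out))))) (.na 378 178 (.na 360 170 (.na 353 163 (.lg 0 false 1 0 0 16 0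
  24) (.na 354 169 (.lg 0 false 1 0 0 16 0 24) (.nx 359 10323 (.nr 358 2049 (.nr 355 169 .s1 (.nx
  356 163 (.l1 (.ls 17 19 160)) (.nr 357 513 (.lg 2 true 1 17 17 17 275 720720) .out))) .out)
  .out))) (.na 366 173 (.nx 365 10323 (.nr 364 2049 (.nr 361 170 .s1 (.nx 362 163 (.l1 (.ls 16 31
  159)) (.nr 363 513 (.lg 2 true 1 16 19 31 274 5040) .out))) .out) .out) (.na 372 174 (.nx 371
  10323 (.nr 370 2049 (.nr 367 173 .s1 (.nx 368 163 (.l1 (.ls 17 17 156)) (.nr 369 513 (.lg 2 false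
  1 0 16 16 269 720720) .out))) .out) .out) (.nx 377 10323 (.nr 376 2049 (.nr 373 174 .s1 (.nx 374
  163 (.l1 (.ls 17 31 155)) (.nr 375 513 (.lg 2 false 1 0 16 23 267 720720) .out))) .out) .out))))
  (.na 391 183 (.na 384 179 (.nx 383 10323 (.nr 382 2049 (.nr 379 178 .s1 (.nx 380 163 (.l1 (.ls 19
  23 152)) (.nr 381 513 (.lg 2 false 1 16 16 19 261 65520) .out))) .out) .out) (.na 385 181 (.lg 0
  false 1 0 0 16 0 24) (.nx 390 10323 (.nr 389 2049 (.nr 386 181 .s1 (.nx 387 163 (.l1 (.ls 17 17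
  149)) (.nr 388 513 (.lg 2 false 1 16 16 16 257 102960) .out))) .out) .out))) (.na 403 195 (.na
  397 194 (.nx 396 10323 (.nr 395 2049 (.nr 392 183 .s1 (.nx 393 163 (.l1 (.ls 16 19 148)) (.nr 394
  513 (.lg 2 false 1 0 16 17 254 720720) .out))) .out) .out) (.nx 402 10323 (.nr 401 2049 (.nr 398
  194 .s1 (.nx 399 163 (.l1 (.ls 19 23 139)) (.nr 400 513 (.lg 2 false 1 16 16 19 240 720720)
  .out))) .out) .out)) (.na 409 197 (.nx 408 10323 (.nr 407 2049 (.nr 404 195 .s1 (.nx 405 163 (.l1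
  (.ls 29 29 139)) (.nr 406 513 (.lg 2 false 1 17 17 29 239 102960) .out))) .out) .out) (.nx 414
  10323 (.nr 413 2049 (.nr 410 197 .s1 (.nx 411 163 (.l1 (.ls 17 17 137)) (.nr 412 513 (.lg 2 false
  1 16 16 16 236 720720) .out))) .out) .out)))))) (.na 477 239 (.na 446 222 (.na 428 218 (.na 421
  205 (.nx 420 10323 (.nr 419 2049 (.nr 416 202 .s1 (.nx 417 163 (.l1 (.ls 17 23 134)) (.nr 418 513
  (.lg 2 false 1 16 16 23 230 720720) .out))) .out) .out) (.na 427 211 (.nx 426 10323 (.nr 425 2049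
  (.nr 422 205 .s1 (.nx 423 163 (.l1 (.ls 23 19 132)) (.nr 424 513 (.lg 2 false 1 17 17 19 227
  65520) .out))) .out) .out) (.lg 0 false 1 0 0 16 0 24))) (.na 434 219 (.nx 433 10323 (.nr 432
  2049 (.nr 429 218 .s1 (.nx 430 163 (.l1 (.ls 17 23 124)) (.nr 431 513 (.lg 2 true 1 16 16 23 214
  720720) .out))) .out) .out) (.na 440 221 (.nx 439 10323 (.nr 438 2049 (.nr 435 219 .s1 (.nx 436
  163 (.l1 (.ls 17 19 124)) (.nr 437 513 (.lg 2 true 1 16 16 19 213 720720) .out))) .out) .out)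
  (.nx 445 10323 (.nr 444 2049 (.nr 441 221 .s1 (.nx 442 163 (.l1 (.ls 16 23 123)) (.nr 443 513
  (.lg 2 true 1 16 19 23 211 720720) .out))) .out) .out)))) (.na 459 229 (.na 452 226 (.nx 451
  10323 (.nr 450 2049 (.nr 447 222 .s1 (.nx 448 163 (.l1 (.ls 17 29 122)) (.nr 449 513 (.lg 2 true
  1 16 16 29 210 720720) .out))) .out) .out) (.na 458 227 (.nx 457 10323 (.nr 456 2049 (.nr 453 226
  .s1 (.nx 454 163 (.l1 (.ls 19 23 120)) (.nr 455 513 (.lg 2 true 1 16 16 23 206 720720) .out)))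
  .out) .out) (.lg 0 false 1 0 0 16 0 24))) (.na 465 233 (.nx 464 10323 (.nr 463 2049 (.nr 460 229
  .s1 (.nx 461 163 (.l1 (.ls 17 17 119)) (.nr 462 513 (.lg 2 true 1 16 16 17 203 720720) .out)))
  .out) .out) (.na 471 234 (.nx 470 10323 (.nr 469 2049 (.nr 466 233 .s1 (.nx 467 163 (.l1 (.ls 16
  17 117)) (.nr 468 513 (.lg 2 true 1 16 16 17 200 720720) .out))) .out) .out) (.nx 476 10323 (.nr
  475 2049 (.nr 472 234 .s1 (.nx 473 163 (.l1 (.ls 31 31 116)) (.nr 474 513 (.lg 2 false 1 16 17 37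
  199 9360) .out))) .out) .out))))) (.na 498 256 (.na 485 246 (.na 478 241 (.lg 0 false 1 0 0 16 0
  24) (.na 484 243 (.nx 483 10323 (.nr 482 2049 (.nr 479 241 .s1 (.nx 480 163 (.l1 (.ls 16 17 113))
  (.nr 481 513 (.lg 2 true 1 16 16 17 193 720720) .out))) .out) .out) (.lg 0 false 1 0 0 16 0 24)))
  (.na 491 250 (.nx 490 10323 (.nr 489 2049 (.nr 486 246 .s1 (.nx 487 163 (.l1 (.ls 17 29 111))
  (.nr 488 513 (.lg 2 true 1 16 16 29 189 720720) .out))) .out) .out) (.na 497 251 (.nx 496 10323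
  (.nr 495 2049 (.nr 492 250 .s1 (.nx 493 163 (.l1 (.ls 19 29 109)) (.nr 494 513 (.lg 2 true 1 16
  16 29 186 720720) .out))) .out) .out) (.lg 0 false 1 0 0 16 0 24)))) (.na 829 1024 (.na 499 257
  .ne (.na 664 512 (.nx 663 163 (.nr 662 4097 (.nr 500 257 .s1 (.lx (.lp 37 19 129))) .out) .out)
  (.nx 828 163 (.nr 827 4097 (.nr 665 512 .s1 (.lx (.lp 37 19 257))) .out) .out))) (.na 997 4096
  (.na 913 2048 (.nx 912 82 (.nr 911 8193 (.nr 830 1024 .s1 (.lx (.lp 16 0 513))) .out) .out) (.nx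
  996 82 (.nr 995 8193 (.nr 914 2048 .s1 (.lx (.lp 16 0 1025))) .out) .out)) (.na 1081 8193 (.nx
  1080 82 (.nr 1079 16385 (.nr 998 4096 .s1 (.lx (.lp 16 0 2049))) .out) .out) .out)))))))

theorem c47 :
    OkQ ckI L9 216 6 28 0 34359738368 1 1099511627776 ∧
    OkQ ckI L5 44 1 1099511627776 0 34359738368 1 1099511627776 ∧
    OkQ ckI L1 9 1 1099511627776 0 34359738368 1 1099511627776 := by
  refine ⟨?_, ?_, ?_⟩
  · refine fin 72 807 T47_0 ?_
    refine jn 10 (by decide +kernel) ?_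
    refine jn 13 (by decide +kernel) ?_
    refine jn 15 (by decide +kernel) ?_
    refine jn 17 (by decide +kernel) ?_
    refine jn 19 (by decide +kernel) ?_
    refine jn 21 (by decide +kernel) ?_
    refine jn 23 (by decide +kernel) ?_
    refine jn 33 (by decide +kernel) ?_
    refine jn 39 (by decide +kernel) ?_
    refine jn 42 (by decide +kernel) ?_
    refine jn 47 (by decide +kernel) ?_
    refine jn 60 (by decide +kernel) ?_
    refine jn 74 (by decide +kernel) ?_
    refine jn 87 (by decide +kernel) ?_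
    refine jn 97 (by decide +kernel) ?_
    refine jn 102 (by decide +kernel) ?_
    refine jn 138 (by decide +kernel) ?_
    refine jn 145 (by decide +kernel) ?_
    refine jn 147 (by decide +kernel) ?_
    refine jn 150 (by decide +kernel) ?_
    refine jn 153 (by decide +kernel) ?_
    refine jn 156 (by decide +kernel) ?_
    refine jn 158 (by decide +kernel) ?_
    refine jn 169 (by decide +kernel) ?_
    refine jn 175 (by decide +kernel) ?_
    refine jn 179 (by decide +kernel) ?_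
    refine jn 182 (by decide +kernel) ?_
    refine jn 193 (by decide +kernel) ?_
    refine jn 205 (by decide +kernel) ?_
    refine jn 216 (by decide +kernel) ?_
    refine jn 221 (by decide +kernel) ?_
    refine jn 232 (by decide +kernel) ?_
    refine jn 242 (by decide +kernel) ?_
    refine jn 251 (by decide +kernel) ?_
    refine jn 285 (by decide +kernel) ?_
    refine jn 292 (by decide +kernel) ?_
    refine jn 293 (by decide +kernel) ?_
    refine jn 294 (by decide +kernel) ?_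
    refine jn 295 (by decide +kernel) ?_
    refine jn 296 (by decide +kernel) ?_
    refine jn 297 (by decide +kernel) ?_
    refine jn 298 (by decide +kernel) ?_
    refine jn 299 (by decide +kernel) ?_
    refine jn 300 (by decide +kernel) ?_
    refine jn 301 (by decide +kernel) ?_
    refine jn 302 (by decide +kernel) ?_
    refine jn 303 (by decide +kernel) ?_
    refine jn 304 (by decide +kernel) ?_
    refine jn 305 (by decide +kernel) ?_
    refine jn 314 (by decide +kernel) ?_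
    refine jn 317 (by decide +kernel) ?_
    refine jn 319 (by decide +kernel) ?_
    refine jn 321 (by decide +kernel) ?_
    refine jn 323 (by decide +kernel) ?_
    refine jn 328 (by decide +kernel) ?_
    refine jn 329 (by decide +kernel) ?_
    refine jn 334 (by decide +kernel) ?_
    refine jn 355 (by decide +kernel) ?_
    refine jn 361 (by decide +kernel) ?_
    refine jn 363 (by decide +kernel) ?_
    refine jn 369 (by decide +kernel) ?_
    refine jn 375 (by decide +kernel) ?_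
    refine jn 376 (by decide +kernel) ?_
    refine jn 382 (by decide +kernel) ?_
    refine jn 388 (by decide +kernel) ?_
    refine jn 389 (by decide +kernel) ?_
    refine jn 395 (by decide +kernel) ?_
    refine jn 405 (by decide +kernel) ?_
    refine jn 409 (by decide +kernel) ?_
    refine jn 412 (by decide +kernel) ?_
    refine jn 415 (by decide +kernel) ?_
    refine jn 419 (by decide +kernel) ?_
    refine jn 430 (by decide +kernel) ?_
    refine jn 434 (by decide +kernel) ?_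
    refine jn 443 (by decide +kernel) ?_
    refine jn 450 (by decide +kernel) ?_
    refine jn 465 (by decide +kernel) ?_
    refine jn 476 (by decide +kernel) ?_
    refine jn 480 (by decide +kernel) ?_
    refine jn 484 (by decide +kernel) ?_
    refine jn 486 (by decide +kernel) ?_
    refine jn 492 (by decide +kernel) ?_
    refine jn 493 (by decide +kernel) ?_
    refine jn 506 (by decide +kernel) ?_
    refine jn 518 (by decide +kernel) ?_
    refine jn 527 (by decide +kernel) ?_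
    refine jn 542 (by decide +kernel) ?_
    refine jn 543 (by decide +kernel) ?_
    refine jn 544 (by decide +kernel) ?_
    refine jn 545 (by decide +kernel) ?_
    refine jn 546 (by decide +kernel) ?_
    refine jn 547 (by decide +kernel) ?_
    refine jn 548 (by decide +kernel) ?_
    refine jn 549 (by decide +kernel) ?_
    refine jn 553 (by decide +kernel) ?_
    refine jn 556 (by decide +kernel) ?_
    refine jn 557 (by decide +kernel) ?_
    refine jn 558 (by decide +kernel) ?_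
    refine jn 559 (by decide +kernel) ?_
    refine jn 560 (by decide +kernel) ?_
    refine jn 561 (by decide +kernel) ?_
    refine jn 562 (by decide +kernel) ?_
    refine jn 563 (by decide +kernel) ?_
    refine jn 564 (by decide +kernel) ?_
    refine jn 565 (by decide +kernel) ?_
    refine jn 566 (by decide +kernel) ?_
    refine jn 567 (by decide +kernel) ?_
    refine jn 577 (by decide +kernel) ?_
    refine jn 586 (by decide +kernel) ?_
    refine jn 600 (by decide +kernel) ?_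
    refine jn 601 (by decide +kernel) ?_
    refine jn 602 (by decide +kernel) ?_
    refine jn 603 (by decide +kernel) ?_
    refine jn 604 (by decide +kernel) ?_
    refine jn 605 (by decide +kernel) ?_
    refine jn 606 (by decide +kernel) ?_
    refine jn 608 (by decide +kernel) ?_
    refine jn 609 (by decide +kernel) ?_
    refine jn 610 (by decide +kernel) ?_
    refine jn 611 (by decide +kernel) ?_
    refine jn 612 (by decide +kernel) ?_
    refine jn 613 (by decide +kernel) ?_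
    refine jn 614 (by decide +kernel) ?_
    refine jn 615 (by decide +kernel) ?_
    refine jn 616 (by decide +kernel) ?_
    refine jn 617 (by decide +kernel) ?_
    refine jn 618 (by decide +kernel) ?_
    refine jn 620 (by decide +kernel) ?_
    refine jn 625 (by decide +kernel) ?_
    refine jn 628 (by decide +kernel) ?_
    refine jn 633 (by decide +kernel) ?_
    refine jn 643 (by decide +kernel) ?_
    refine jn 644 (by decide +kernel) ?_
    refine jn 646 (by decide +kernel) ?_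
    refine jn 647 (by decide +kernel) ?_
    refine jn 648 (by decide +kernel) ?_
    refine jn 653 (by decide +kernel) ?_
    refine jn 658 (by decide +kernel) ?_
    refine jn 659 (by decide +kernel) ?_
    refine jn 660 (by decide +kernel) ?_
    refine jn 661 (by decide +kernel) ?_
    refine jn 662 (by decide +kernel) ?_
    refine jn 663 (by decide +kernel) ?_
    refine jn 676 (by decide +kernel) ?_
    refine jn 689 (by decide +kernel) ?_
    refine jn 703 (by decide +kernel) ?_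
    refine jn 706 (by decide +kernel) ?_
    refine jn 713 (by decide +kernel) ?_
    refine jn 720 (by decide +kernel) ?_
    refine jn 737 (by decide +kernel) ?_
    refine jn 743 (by decide +kernel) ?_
    refine jn 745 (by decide +kernel) ?_
    refine jn 752 (by decide +kernel) ?_
    refine jn 759 (by decide +kernel) ?_
    refine jn 775 (by decide +kernel) ?_
    refine jn 777 (by decide +kernel) ?_
    refine jn 779 (by decide +kernel) ?_
    refine jn 781 (by decide +kernel) ?_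
    refine jn 782 (by decide +kernel) ?_
    refine jn 785 (by decide +kernel) ?_
    refine jn 788 (by decide +kernel) ?_
    refine jn 794 (by decide +kernel) ?_
    refine jn 802 (by decide +kernel) ?_
    exact je (by decide +kernel)
  · refine fin 792 3309 T47_1 ?_
    refine jn 4 (by decide +kernel) ?_
    refine jn 5 (by decide +kernel) ?_
    refine jn 6 (by decide +kernel) ?_
    refine jn 8 (by decide +kernel) ?_
    refine jn 9 (by decide +kernel) ?_
    refine jn 10 (by decide +kernel) ?_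
    refine jn 11 (by decide +kernel) ?_
    refine jn 12 (by decide +kernel) ?_
    refine jn 14 (by decide +kernel) ?_
    refine jn 16 (by decide +kernel) ?_
    refine jn 17 (by decide +kernel) ?_
    refine jn 18 (by decide +kernel) ?_
    refine jn 19 (by decide +kernel) ?_
    refine jn 20 (by decide +kernel) ?_
    refine jn 22 (by decide +kernel) ?_
    refine jn 23 (by decide +kernel) ?_
    refine jn 24 (by decide +kernel) ?_
    refine jn 26 (by decide +kernel) ?_
    refine jn 28 (by decide +kernel) ?_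
    refine jn 30 (by decide +kernel) ?_
    refine jn 32 (by decide +kernel) ?_
    refine jn 34 (by decide +kernel) ?_
    refine jn 37 (by decide +kernel) ?_
    refine jn 39 (by decide +kernel) ?_
    refine jn 41 (by decide +kernel) ?_
    refine jn 44 (by decide +kernel) ?_
    refine jn 45 (by decide +kernel) ?_
    refine jn 48 (by decide +kernel) ?_
    refine jn 57 (by decide +kernel) ?_
    refine jn 64 (by decide +kernel) ?_
    refine jn 72 (by decide +kernel) ?_
    refine jn 76 (by decide +kernel) ?_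
    refine jn 93 (by decide +kernel) ?_
    refine jn 129 (by decide +kernel) ?_
    refine jn 136 (by decide +kernel) ?_
    refine jn 137 (by decide +kernel) ?_
    refine jn 138 (by decide +kernel) ?_
    refine jn 139 (by decide +kernel) ?_
    refine jn 140 (by decide +kernel) ?_
    refine jn 141 (by decide +kernel) ?_
    refine jn 142 (by decide +kernel) ?_
    refine jn 143 (by decide +kernel) ?_
    refine jn 144 (by decide +kernel) ?_
    refine jn 145 (by decide +kernel) ?_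
    refine jn 146 (by decide +kernel) ?_
    refine jn 147 (by decide +kernel) ?_
    refine jn 148 (by decide +kernel) ?_
    refine jn 149 (by decide +kernel) ?_
    refine jn 150 (by decide +kernel) ?_
    refine jn 151 (by decide +kernel) ?_
    refine jn 152 (by decide +kernel) ?_
    refine jn 153 (by decide +kernel) ?_
    refine jn 154 (by decide +kernel) ?_
    refine jn 155 (by decide +kernel) ?_
    refine jn 156 (by decide +kernel) ?_
    refine jn 158 (by decide +kernel) ?_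
    refine jn 163 (by decide +kernel) ?_
    refine jn 167 (by decide +kernel) ?_
    refine jn 171 (by decide +kernel) ?_
    refine jn 187 (by decide +kernel) ?_
    refine jn 194 (by decide +kernel) ?_
    refine jn 195 (by decide +kernel) ?_
    refine jn 196 (by decide +kernel) ?_
    refine jn 197 (by decide +kernel) ?_
    refine jn 198 (by decide +kernel) ?_
    refine jn 199 (by decide +kernel) ?_
    refine jn 200 (by decide +kernel) ?_
    refine jn 201 (by decide +kernel) ?_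
    refine jn 202 (by decide +kernel) ?_
    refine jn 203 (by decide +kernel) ?_
    refine jn 204 (by decide +kernel) ?_
    refine jn 205 (by decide +kernel) ?_
    refine jn 206 (by decide +kernel) ?_
    refine jn 214 (by decide +kernel) ?_
    refine jn 223 (by decide +kernel) ?_
    refine jn 224 (by decide +kernel) ?_
    refine jn 225 (by decide +kernel) ?_
    refine jn 227 (by decide +kernel) ?_
    refine jn 228 (by decide +kernel) ?_
    refine jn 229 (by decide +kernel) ?_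
    refine jn 230 (by decide +kernel) ?_
    refine jn 231 (by decide +kernel) ?_
    refine jn 233 (by decide +kernel) ?_
    refine jn 235 (by decide +kernel) ?_
    refine jn 236 (by decide +kernel) ?_
    refine jn 239 (by decide +kernel) ?_
    refine jn 242 (by decide +kernel) ?_
    refine jn 247 (by decide +kernel) ?_
    refine jn 256 (by decide +kernel) ?_
    refine jn 257 (by decide +kernel) ?_
    refine jn 259 (by decide +kernel) ?_
    refine jn 260 (by decide +kernel) ?_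
    refine jn 261 (by decide +kernel) ?_
    refine jn 262 (by decide +kernel) ?_
    refine jn 263 (by decide +kernel) ?_
    refine jn 264 (by decide +kernel) ?_
    refine jn 265 (by decide +kernel) ?_
    refine jn 267 (by decide +kernel) ?_
    refine jn 268 (by decide +kernel) ?_
    refine jn 272 (by decide +kernel) ?_
    refine jn 285 (by decide +kernel) ?_
    refine jn 289 (by decide +kernel) ?_
    refine jn 291 (by decide +kernel) ?_
    refine jn 293 (by decide +kernel) ?_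
    refine jn 295 (by decide +kernel) ?_
    refine jn 297 (by decide +kernel) ?_
    refine jn 299 (by decide +kernel) ?_
    refine jn 300 (by decide +kernel) ?_
    refine jn 303 (by decide +kernel) ?_
    refine jn 306 (by decide +kernel) ?_
    refine jn 312 (by decide +kernel) ?_
    refine jn 322 (by decide +kernel) ?_
    refine jn 323 (by decide +kernel) ?_
    refine jn 325 (by decide +kernel) ?_
    refine jn 327 (by decide +kernel) ?_
    refine jn 329 (by decide +kernel) ?_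
    refine jn 330 (by decide +kernel) ?_
    refine jn 331 (by decide +kernel) ?_
    refine jn 332 (by decide +kernel) ?_
    refine jn 335 (by decide +kernel) ?_
    refine jn 337 (by decide +kernel) ?_
    refine jn 343 (by decide +kernel) ?_
    refine jn 358 (by decide +kernel) ?_
    refine jn 368 (by decide +kernel) ?_
    refine jn 377 (by decide +kernel) ?_
    refine jn 378 (by decide +kernel) ?_
    refine jn 379 (by decide +kernel) ?_
    refine jn 380 (by decide +kernel) ?_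
    refine jn 381 (by decide +kernel) ?_
    refine jn 382 (by decide +kernel) ?_
    refine jn 383 (by decide +kernel) ?_
    refine jn 384 (by decide +kernel) ?_
    refine jn 385 (by decide +kernel) ?_
    refine jn 386 (by decide +kernel) ?_
    refine jn 387 (by decide +kernel) ?_
    refine jn 388 (by decide +kernel) ?_
    refine jn 389 (by decide +kernel) ?_
    refine jn 390 (by decide +kernel) ?_
    refine jn 391 (by decide +kernel) ?_
    refine jn 392 (by decide +kernel) ?_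
    refine jn 393 (by decide +kernel) ?_
    refine jn 394 (by decide +kernel) ?_
    refine jn 399 (by decide +kernel) ?_
    refine jn 409 (by decide +kernel) ?_
    refine jn 410 (by decide +kernel) ?_
    refine jn 411 (by decide +kernel) ?_
    refine jn 412 (by decide +kernel) ?_
    refine jn 413 (by decide +kernel) ?_
    refine jn 414 (by decide +kernel) ?_
    refine jn 416 (by decide +kernel) ?_
    refine jn 417 (by decide +kernel) ?_
    refine jn 418 (by decide +kernel) ?_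
    refine jn 419 (by decide +kernel) ?_
    refine jn 421 (by decide +kernel) ?_
    refine jn 430 (by decide +kernel) ?_
    refine jn 431 (by decide +kernel) ?_
    refine jn 432 (by decide +kernel) ?_
    refine jn 433 (by decide +kernel) ?_
    refine jn 434 (by decide +kernel) ?_
    refine jn 435 (by decide +kernel) ?_
    refine jn 436 (by decide +kernel) ?_
    refine jn 437 (by decide +kernel) ?_
    refine jn 438 (by decide +kernel) ?_
    refine jn 439 (by decide +kernel) ?_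
    refine jn 447 (by decide +kernel) ?_
    refine jn 450 (by decide +kernel) ?_
    refine jn 455 (by decide +kernel) ?_
    refine jn 464 (by decide +kernel) ?_
    refine jn 467 (by decide +kernel) ?_
    refine jn 470 (by decide +kernel) ?_
    refine jn 479 (by decide +kernel) ?_
    refine jn 481 (by decide +kernel) ?_
    refine jn 485 (by decide +kernel) ?_
    refine jn 496 (by decide +kernel) ?_
    refine jn 500 (by decide +kernel) ?_
    refine jn 510 (by decide +kernel) ?_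
    refine jn 513 (by decide +kernel) ?_
    refine jn 521 (by decide +kernel) ?_
    refine jn 522 (by decide +kernel) ?_
    refine jn 523 (by decide +kernel) ?_
    refine jn 524 (by decide +kernel) ?_
    refine jn 525 (by decide +kernel) ?_
    refine jn 536 (by decide +kernel) ?_
    refine jn 538 (by decide +kernel) ?_
    refine jn 550 (by decide +kernel) ?_
    refine jn 557 (by decide +kernel) ?_
    refine jn 558 (by decide +kernel) ?_
    refine jn 568 (by decide +kernel) ?_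
    refine jn 572 (by decide +kernel) ?_
    refine jn 583 (by decide +kernel) ?_
    refine jn 593 (by decide +kernel) ?_
    refine jn 603 (by decide +kernel) ?_
    refine jn 610 (by decide +kernel) ?_
    refine jn 611 (by decide +kernel) ?_
    refine jn 614 (by decide +kernel) ?_
    refine jn 627 (by decide +kernel) ?_
    refine jn 633 (by decide +kernel) ?_
    refine jn 636 (by decide +kernel) ?_
    refine jn 648 (by decide +kernel) ?_
    refine jn 654 (by decide +kernel) ?_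
    refine jn 658 (by decide +kernel) ?_
    refine jn 665 (by decide +kernel) ?_
    refine jn 674 (by decide +kernel) ?_
    refine jn 680 (by decide +kernel) ?_
    refine jn 686 (by decide +kernel) ?_
    refine jn 688 (by decide +kernel) ?_
    refine jn 696 (by decide +kernel) ?_
    refine jn 706 (by decide +kernel) ?_
    refine jn 712 (by decide +kernel) ?_
    refine jn 720 (by decide +kernel) ?_
    refine jn 728 (by decide +kernel) ?_
    refine jn 734 (by decide +kernel) ?_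
    refine jn 737 (by decide +kernel) ?_
    refine jn 745 (by decide +kernel) ?_
    refine jn 754 (by decide +kernel) ?_
    refine jn 763 (by decide +kernel) ?_
    refine jn 778 (by decide +kernel) ?_
    refine jn 784 (by decide +kernel) ?_
    refine jn 790 (by decide +kernel) ?_
    refine jn 799 (by decide +kernel) ?_
    refine jn 811 (by decide +kernel) ?_
    refine jn 819 (by decide +kernel) ?_
    refine jn 831 (by decide +kernel) ?_
    refine jn 843 (by decide +kernel) ?_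
    refine jn 851 (by decide +kernel) ?_
    refine jn 857 (by decide +kernel) ?_
    refine jn 869 (by decide +kernel) ?_
    refine jn 881 (by decide +kernel) ?_
    refine jn 895 (by decide +kernel) ?_
    refine jn 908 (by decide +kernel) ?_
    refine jn 920 (by decide +kernel) ?_
    refine jn 932 (by decide +kernel) ?_
    refine jn 946 (by decide +kernel) ?_
    refine jn 960 (by decide +kernel) ?_
    refine jn 1022 (by decide +kernel) ?_
    refine jn 1032 (by decide +kernel) ?_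
    refine jn 1034 (by decide +kernel) ?_
    refine jn 1041 (by decide +kernel) ?_
    refine jn 1042 (by decide +kernel) ?_
    refine jn 1056 (by decide +kernel) ?_
    refine jn 1062 (by decide +kernel) ?_
    refine jn 1065 (by decide +kernel) ?_
    refine jn 1066 (by decide +kernel) ?_
    refine jn 1082 (by decide +kernel) ?_
    refine jn 1098 (by decide +kernel) ?_
    refine jn 1104 (by decide +kernel) ?_
    refine jn 1110 (by decide +kernel) ?_
    refine jn 1111 (by decide +kernel) ?_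
    refine jn 1121 (by decide +kernel) ?_
    refine jn 1137 (by decide +kernel) ?_
    refine jn 1140 (by decide +kernel) ?_
    refine jn 1153 (by decide +kernel) ?_
    refine jn 1161 (by decide +kernel) ?_
    refine jn 1170 (by decide +kernel) ?_
    refine jn 1176 (by decide +kernel) ?_
    refine jn 1184 (by decide +kernel) ?_
    refine jn 1198 (by decide +kernel) ?_
    refine jn 1209 (by decide +kernel) ?_
    refine jn 1210 (by decide +kernel) ?_
    refine jn 1217 (by decide +kernel) ?_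
    refine jn 1225 (by decide +kernel) ?_
    refine jn 1228 (by decide +kernel) ?_
    refine jn 1230 (by decide +kernel) ?_
    refine jn 1232 (by decide +kernel) ?_
    refine jn 1250 (by decide +kernel) ?_
    refine jn 1260 (by decide +kernel) ?_
    refine jn 1274 (by decide +kernel) ?_
    refine jn 1334 (by decide +kernel) ?_
    refine jn 1350 (by decide +kernel) ?_
    refine jn 1353 (by decide +kernel) ?_
    refine jn 1356 (by decide +kernel) ?_
    refine jn 1368 (by decide +kernel) ?_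
    refine jn 1377 (by decide +kernel) ?_
    refine jn 1378 (by decide +kernel) ?_
    refine jn 1388 (by decide +kernel) ?_
    refine jn 1400 (by decide +kernel) ?_
    refine jn 1416 (by decide +kernel) ?_
    refine jn 1433 (by decide +kernel) ?_
    refine jn 1434 (by decide +kernel) ?_
    refine jn 1444 (by decide +kernel) ?_
    refine jn 1449 (by decide +kernel) ?_
    refine jn 1452 (by decide +kernel) ?_
    refine jn 1462 (by decide +kernel) ?_
    refine jn 1473 (by decide +kernel) ?_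
    refine jn 1474 (by decide +kernel) ?_
    refine jn 1496 (by decide +kernel) ?_
    refine jn 1504 (by decide +kernel) ?_
    refine jn 1518 (by decide +kernel) ?_
    refine jn 1521 (by decide +kernel) ?_
    refine jn 1526 (by decide +kernel) ?_
    refine jn 1537 (by decide +kernel) ?_
    refine jn 1746 (by decide +kernel) ?_
    refine jn 1929 (by decide +kernel) ?_
    refine jn 2061 (by decide +kernel) ?_
    refine jn 2317 (by decide +kernel) ?_
    refine jn 2571 (by decide +kernel) ?_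
    refine jn 2838 (by decide +kernel) ?_
    refine jn 3199 (by decide +kernel) ?_
    exact je (by decide +kernel)
  · refine fin 72 1082 T47_2 ?_
    refine jn 4 (by decide +kernel) ?_
    refine jn 5 (by decide +kernel) ?_
    refine jn 6 (by decide +kernel) ?_
    refine jn 7 (by decide +kernel) ?_
    refine jn 8 (by decide +kernel) ?_
    refine jn 9 (by decide +kernel) ?_
    refine jn 10 (by decide +kernel) ?_
    refine jn 11 (by decide +kernel) ?_
    refine jn 13 (by decide +kernel) ?_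
    refine jn 20 (by decide +kernel) ?_
    refine jn 21 (by decide +kernel) ?_
    refine jn 22 (by decide +kernel) ?_
    refine jn 23 (by decide +kernel) ?_
    refine jn 25 (by decide +kernel) ?_
    refine jn 28 (by decide +kernel) ?_
    refine jn 31 (by decide +kernel) ?_
    refine jn 34 (by decide +kernel) ?_
    refine jn 35 (by decide +kernel) ?_
    refine jn 36 (by decide +kernel) ?_
    refine jn 37 (by decide +kernel) ?_
    refine jn 43 (by decide +kernel) ?_
    refine jn 44 (by decide +kernel) ?_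
    refine jn 45 (by decide +kernel) ?_
    refine jn 46 (by decide +kernel) ?_
    refine jn 47 (by decide +kernel) ?_
    refine jn 49 (by decide +kernel) ?_
    refine jn 50 (by decide +kernel) ?_
    refine jn 51 (by decide +kernel) ?_
    refine jn 52 (by decide +kernel) ?_
    refine jn 53 (by decide +kernel) ?_
    refine jn 61 (by decide +kernel) ?_
    refine jn 63 (by decide +kernel) ?_
    refine jn 64 (by decide +kernel) ?_
    refine jn 72 (by decide +kernel) ?_
    refine jn 73 (by decide +kernel) ?_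
    refine jn 74 (by decide +kernel) ?_
    refine jn 75 (by decide +kernel) ?_
    refine jn 76 (by decide +kernel) ?_
    refine jn 83 (by decide +kernel) ?_
    refine jn 84 (by decide +kernel) ?_
    refine jn 85 (by decide +kernel) ?_
    refine jn 91 (by decide +kernel) ?_
    refine jn 92 (by decide +kernel) ?_
    refine jn 93 (by decide +kernel) ?_
    refine jn 99 (by decide +kernel) ?_
    refine jn 100 (by decide +kernel) ?_
    refine jn 101 (by decide +kernel) ?_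
    refine jn 102 (by decide +kernel) ?_
    refine jn 107 (by decide +kernel) ?_
    refine jn 108 (by decide +kernel) ?_
    refine jn 109 (by decide +kernel) ?_
    refine jn 114 (by decide +kernel) ?_
    refine jn 115 (by decide +kernel) ?_
    refine jn 121 (by decide +kernel) ?_
    refine jn 122 (by decide +kernel) ?_
    refine jn 128 (by decide +kernel) ?_
    refine jn 133 (by decide +kernel) ?_
    refine jn 134 (by decide +kernel) ?_
    refine jn 140 (by decide +kernel) ?_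
    refine jn 142 (by decide +kernel) ?_
    refine jn 148 (by decide +kernel) ?_
    refine jn 158 (by decide +kernel) ?_
    refine jn 159 (by decide +kernel) ?_
    refine jn 160 (by decide +kernel) ?_
    refine jn 171 (by decide +kernel) ?_
    refine jn 178 (by decide +kernel) ?_
    refine jn 190 (by decide +kernel) ?_
    refine jn 203 (by decide +kernel) ?_
    refine jn 215 (by decide +kernel) ?_
    refine jn 230 (by decide +kernel) ?_
    refine jn 231 (by decide +kernel) ?_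
    refine jn 243 (by decide +kernel) ?_
    refine jn 244 (by decide +kernel) ?_
    refine jn 266 (by decide +kernel) ?_
    refine jn 283 (by decide +kernel) ?_
    refine jn 285 (by decide +kernel) ?_
    refine jn 310 (by decide +kernel) ?_
    refine jn 341 (by decide +kernel) ?_
    refine jn 374 (by decide +kernel) ?_
    refine jn 411 (by decide +kernel) ?_
    refine jn 446 (by decide +kernel) ?_
    refine jn 481 (by decide +kernel) ?_
    refine jn 619 (by decide +kernel) ?_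
    refine jn 795 (by decide +kernel) ?_
    exact je (by decide +kernel)

end Pool.Agent.MP_2339ce_nt.NR
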