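import Pool.Agent.MP_2339ce_nt.Q2.NC.L1
import Pool.Agent.MP_2339ce_nt.Q2.NC.L10
import Pool.Agent.MP_2339ce_nt.Q2.CkI

/-! Block NR: runs. -/

set_option autoImplicit false
set_option maxRecDepth 100000

noncomputable section

namespace Pool.Agent.MP_2339ce_nt.NR

open Q2.Top

def T49_0 : Ph :=
  (.na 736 2 (.nx 735 3329023 (.nr 734 881745 (.nx 3 246 (.nx 2 245 (.nr 1 16 (.lg 0 false 1 47 47
  5 0 2520) (.l1 .sk)) (.l1 .sk)) (.nx 689 1664512 (.nx 273 41287 (.nr 256 311745 (.nr 179 185365
  (.lg 0 false 176 97 109 16 0 720720) (.nx 255 26009 (.nx 192 408 (.lg 0 false 13 83 83 9 0 32760)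
  (.nx 193 6501 .out (.nr 254 220437 (.nx 209 10323 (.lg 0 false 16 101 103 9 0 720720) (.nx 210
  13003 .out (.lg 0 false 44 97 107 16 0 720720))) .out))) .out)) (.nx 272 324 (.lg 0 false 16 83
  83 9 0 5040) .out)) (.nr 688 155873 (.nr 325 515 (.lg 0 true 52 97 101 16 0 65520) (.nx 377 52017
  (.lg 1 false 52 101 107 16 113488 720720) (.nr 410 942 (.lg 2 true 33 83 89 13 395928 27720) (.nr
  426 1724 (.lg 2 true 16 97 97 9 216458 5040) (.nx 687 1321124 (.nr 442 2898 (.lg 2 true 16 89 97
  9 93874 5040) (.nx 686 1048577 (.nx 494 65537 (.lg 1 false 52 101 107 16 90078 720720) (.nr 685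
  110219 (.nr 510 4872 (.lg 2 true 16 89 97 9 44324 5040) (.nr 526 8193 (.lg 2 true 16 89 97 9
  26366 5040) (.nx 684 832257 (.nr 542 26009 (.lg 2 false 16 101 103 9 12444 720720) (.nr 631 77937
  (.nr 586 55110 (.lg 2 false 44 101 107 16 25350 720720) (.nx 630 416129 (.lg 2 true 44 101 107 16
  35804 720720) .out)) (.nx 683 262145 (.lg 2 true 52 101 107 16 50588 720720) .out))) .out)))
  .out)) .out)) .out))))) .out)) (.nr 733 154 (.lg 0 true 44 89 97 16 0 55440) .out))) .out) .out)
  (.nx 1229 3329023 (.nr 1228 1763489 (.nx 738 245 (.nr 737 30 (.lg 0 false 1 47 47 5 0 55440) (.l1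
  .sk)) (.nx 739 246 (.l1 .sk) (.nr 1173 262145 (.nx 1161 2642247 (.nx 1134 1048577 (.nx 882 65537
  (.lg 0 false 143 97 107 19 0 720720) (.nr 934 3446 (.nr 921 941 (.lg 0 true 39 89 97 13 0 65520)
  (.lg 2 true 13 97 101 9 136505 65520)) (.nx 1133 832257 (.nr 947 12637 (.lg 2 true 13 97 101 9
  29586 65520) (.nx 986 82572 (.lg 1 false 39 97 107 13 120162 720720) (.nr 1132 220437 (.nx 1064
  165142 (.nx 1025 116773 (.lg 1 false 39 101 107 13 80212 720720) (.lg 1 false 39 101 107 13 56719
  720720)) (.nr 1131 155873 (.nr 1077 55110 (.lg 2 false 13 101 103 9 10061 720720) (.nx 1130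
  330282 (.nr 1090 92683 (.lg 2 false 13 101 103 9 16889 720720) (.nx 1129 262145 (.lg 2 false 39
  97 107 13 28373 720720) .out)) .out)) .out)) .out))) .out))) (.nr 1160 257 (.lg 0 true 26 89 89
  11 0 65520) .out)) (.nr 1172 9 (.lg 0 true 11 71 71 9 0 55440) .out)) (.nx 1227 52017 (.nx 1199
  408 (.lg 0 false 26 83 89 11 0 65520) (.nx 1200 26007 .out (.nr 1226 311745 (.lg 0 false 26 101
  107 11 0 720720) .out))) .out)))) .out) .out))

def T49_1 : Ph :=
  (.na 10463 8192 (.na 2560 1449 (.na 1104 725 (.na 453 512 (.nx 452 1321124 (.nr 451 1482912 (.nr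
  1 363 .s1 (.nx 152 221 (.nx 151 220 (.nr 150 5376 (.la (.ls 41 19 136)) (.l1 .sk)) (.l1 .sk))
  (.nx 301 26009 (.la (.lg 0 false 1 79 79 23 0)) (.nr 450 32769 (.la (.lg 2 true 1 73 73 23
  400341)) .out)))) .out) .out) (.nx 1103 1321124 (.nr 1102 1482912 (.nr 454 512 .s1 (.nx 674 220
  (.nr 673 7613 (.lx (.lp 43 19 182)) (.l1 .sk)) (.nx 675 221 (.l1 .sk) (.nx 888 26009 (.la (.lg 0
  false 1 73 73 29 0)) (.nr 1101 32769 (.la (.lg 2 true 1 67 67 29 283836)) .out))))) .out) .out))
  (.na 1706 1024 (.nx 1705 20644 (.nr 1704 2097153 (.nr 1105 725 .s1 (.nx 1404 2049 (.la (.ls 73 41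
  5793)) (.nr 1703 262145 (.la (.lg 0 false 1 61 61 29 0)) .out))) .out) .out) (.nx 2559 20644 (.nr
  2558 2097153 (.nr 1707 1024 .s1 (.nx 2132 3252 (.la (.ls 71 41 10330)) (.nr 2557 131073 (.la (.lg
  0 false 1 53 53 31 0)) .out))) .out) .out))) (.na 4614 2897 (.na 3762 2048 (.nx 3761 13005 (.nr
  3760 2097153 (.nr 2561 1449 .s1 (.nx 3160 3252 (.la (.ls 71 41 7301)) (.nr 3759 16385 (.la (.ls
  37 53 109426)) .out))) .out) .out) (.nx 4613 13005 (.nr 4612 2097153 (.nr 3763 2048 .s1 (.la (.ls
  67 53 82586))) .out) .out)) (.na 5816 4096 (.nx 5815 4097 (.nr 5814 1048577 (.nr 4615 2897 .s1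
  (.la (.ls 61 41 5797))) .out) .out) (.na 7737 5793 (.nx 7736 5162 (.nr 7735 1048577 (.nr 5817
  4096 .s1 (.nx 6038 221 (.nx 6037 220 (.nr 6036 60827 (.lx (.lp 43 31 1449)) (.l1 .sk)) (.l1 .sk))
  (.la (.ls 61 41 6496)))) .out) .out) (.nx 10462 2049 (.nr 10461 524289 (.nr 7738 5793 .s1 (.nx
  7959 221 (.nx 7958 220 (.nr 7957 86017 (.lx (.lp 47 37 2049)) (.l1 .sk)) (.l1 .sk)) (.nx 8062 324
  (.lx (.lp 59 37 2049)) (.la (.ls 53 37 2049))))) .out) .out))))) (.na 18672 65536 (.na 14568
  16384 (.na 12517 11586 (.nx 12516 2049 (.nr 12515 524289 (.nr 10464 8192 .s1 (.nx 10685 221 (.nx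
  10684 220 (.nr 10683 121654 (.lx (.lp 47 37 2897)) (.l1 .sk)) (.l1 .sk)) (.nx 11757 1292 (.nx
  11489 1025 (.lx (.lp 59 41 2897)) (.nr 11756 262145 (.lx (.lp 53 41 2897)) .out)) (.nr 12514
  131073 (.lx (.lp 47 41 2897)) .out)))) .out) .out) (.nx 14567 2049 (.nr 14566 131073 (.nr 12518
  11586 .s1 (.lx (.lp 43 41 4097))) .out) .out)) (.na 16620 32768 (.nx 16619 2049 (.nr 16618 262145
  (.nr 14569 16384 .s1 (.nx 14892 324 (.lx (.lp 47 43 8193)) (.nr 16617 131073 (.lx (.lp 43 43
  8193)) .out))) .out) .out) (.nx 18671 2049 (.nr 18670 524289 (.nr 16621 32768 .s1 (.nx 16944 324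
  (.lx (.lp 43 47 16385)) (.nr 18669 262145 (.lx (.lp 43 47 16385)) .out))) .out) .out))) (.na
  21932 262144 (.na 20302 131072 (.nx 20301 1627 (.nr 20300 524289 (.nr 18673 65536 .s1 (.nx 18996
  324 (.lx (.lp 16 0 32769)) (.nr 20299 262145 (.lx (.lp 41 53 32769)) .out))) .out) .out) (.nx
  21931 1627 (.nr 21930 524289 (.nr 20303 131072 .s1 (.nx 20815 513 (.lx (.lp 41 59 65537)) (.nr
  21929 262145 (.lx (.lp 37 59 65537)) .out))) .out) .out)) (.na 22447 524288 (.nx 22446 513 (.nr
  22445 1048577 (.nr 21933 262144 .s1 (.lx (.lp 16 0 131073))) .out) .out) (.na 22449 1048577 (.nx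
  22448 324 (.l1 .sk) .out) .out)))))

def T49_2 : Ph :=
  (.na 256 131 (.na 139 50 (.na 82 18 (.na 43 7 (.na 18 3 (.na 1 2 .ne (.nx 17 52017 (.nr 16 3446
  (.nx 3 5 (.nr 2 5 (.lg 0 false 1 0 16 5 0 720720) (.l1 .sk)) (.nx 4 6 (.l1 .sk) (.nr 10 154 (.lg
  0 false 6 67 67 9 0 720) (.nx 15 10323 (.nx 12 163 (.lg 0 true 2 61 61 5 0 720) (.nr 14 1219 (.lg
  2 true 2 59 59 5 168 720) .out)) .out)))) .out) .out)) (.na 30 4 (.nx 29 165142 (.nr 28 4872 (.nr
  19 3 .s1 (.nx 20 59 (.l1 (.ls 61 31 1163)) (.nr 27 1724 (.nx 21 195 (.l1 (.ls 59 43 11517)) (.nr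
  25 217 (.lg 0 false 4 79 79 7 0 5040) (.nx 26 10323 (.lg 2 true 1 61 61 5 119 2520) .out)))
  .out))) .out) .out) (.na 31 6 .ne (.nx 42 20644 (.nr 41 3446 (.nr 32 6 .s1 (.nx 35 6 (.nx 34 5
  (.nr 33 12 (.l1 (.ls 16 7 7)) (.l1 .sk)) (.l1 .sk)) (.nx 38 1627 (.lg 0 true 3 61 61 13 0 720)
  (.nr 40 154 (.lg 0 false 2 61 61 7 0 720) .out)))) .out) .out)))) (.na 64 10 (.na 54 8 (.nx 53
  20644 (.nr 52 4097 (.nr 44 7 .s1 (.nx 50 1627 (.nx 46 5 (.nr 45 14 (.l1 (.ls 16 9 6)) (.l1 .sk))
  (.nx 47 6 (.l1 .sk) (.lg 0 true 3 59 59 11 0 2520))) (.nr 51 183 (.lg 0 false 1 67 67 9 0 2520)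
  .out))) .out) .out) (.na 55 9 .ne (.nx 63 20644 (.nr 62 3446 (.nr 56 9 .s1 (.nx 58 5 (.nr 57 17
  (.l1 (.ls 16 7 5)) (.l1 .sk)) (.nx 59 6 (.l1 .sk) (.lg 0 false 3 67 67 16 0 360)))) .out) .out)))
  (.na 73 14 (.nx 72 20644 (.nr 71 3446 (.nr 65 10 .s1 (.nx 68 6 (.nx 67 5 (.nr 66 24 (.l1 (.ls 16
  9 5)) (.l1 .sk)) (.l1 .sk)) (.lg 0 false 3 71 71 11 0 5040))) .out) .out) (.na 81 16 (.nx 80
  20644 (.nr 79 3446 (.nr 74 14 .s1 (.nx 77 6 (.nx 76 5 (.nr 75 27 (.l1 (.ls 16 11 5)) (.l1 .sk))
  (.l1 .sk)) (.lg 0 false 2 73 73 13 0 5040))) .out) .out) .ne)))) (.na 108 32 (.na 95 25 (.na 89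
  23 (.nx 88 20644 (.nr 87 6890 (.nr 83 18 .s1 (.nx 84 27 (.l1 (.ls 47 19 43)) (.nr 86 3446 (.lg 0
  false 2 71 71 13 0 5040) .out))) .out) .out) (.nx 94 20644 (.nr 93 6890 (.nr 90 23 .s1 (.nx 91
  163 (.l1 (.ls 47 29 1158)) (.nr 92 257 (.lg 0 false 1 53 53 11 0 360) .out))) .out) .out)) (.na
  96 29 (.lg 0 false 1 0 0 7 0 24) (.na 102 30 (.nx 101 20644 (.nr 100 6890 (.nr 97 29 .s1 (.nx 98
  163 (.l1 (.ls 47 23 919)) (.nr 99 257 (.lg 0 false 1 53 53 13 0 360) .out))) .out) .out) (.nx 107
  20644 (.nr 106 6890 (.nr 103 30 .s1 (.nx 104 163 (.l1 (.ls 43 41 888)) (.nr 105 257 (.lg 0 false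
  1 53 53 19 0 720) .out))) .out) .out)))) (.na 121 42 (.na 109 35 .ne (.na 115 41 (.nx 114 10323
  (.nr 113 4097 (.nr 110 35 .s1 (.nx 111 27 (.l1 (.ls 37 16 23)) (.nr 112 1724 (.lg 0 false 1 59 59
  16 0 2520) .out))) .out) .out) (.nx 120 10323 (.nr 119 4097 (.nr 116 41 .s1 (.nx 117 163 (.l1
  (.ls 37 23 651)) (.nr 118 513 (.lg 0 false 1 47 47 16 0 360) .out))) .out) .out))) (.na 127 45
  (.nx 126 10323 (.nr 125 4097 (.nr 122 42 .s1 (.nx 123 27 (.l1 (.ls 43 19 20)) (.nr 124 1724 (.lg
  0 false 1 59 59 23 0 5040) .out))) .out) .out) (.na 133 46 (.nx 132 10323 (.nr 131 4097 (.nr 128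
  45 .s1 (.nx 129 27 (.l1 (.ls 31 16 19)) (.nr 130 1724 (.lg 0 false 1 53 53 16 0 2520) .out)))
  .out) .out) (.nx 138 10323 (.nr 137 4097 (.nr 134 46 .s1 (.nx 135 163 (.l1 (.ls 43 37 580)) (.nr
  136 513 (.lg 0 true 1 47 47 13 0 720) .out))) .out) .out)))))) (.na 194 89 (.na 159 67 (.na 146
  58 (.na 140 54 (.lg 0 false 1 0 0 16 0 24) (.nx 145 10323 (.nr 144 4097 (.nr 141 54 .s1 (.nx 142
  163 (.l1 (.ls 37 37 495)) (.nr 143 513 (.lg 2 true 1 23 23 19 478 720) .out))) .out) .out)) (.na
  152 61 (.nx 151 10323 (.nr 150 4097 (.nr 147 58 .s1 (.nx 148 163 (.l1 (.ls 23 23 461)) (.nr 149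
  513 (.lg 2 false 1 19 19 13 445 720) .out))) .out) .out) (.na 158 64 (.nx 157 10323 (.nr 156 4097
  (.nr 153 61 .s1 (.nx 154 163 (.l1 (.ls 31 19 438)) (.nr 155 513 (.lg 2 true 1 19 19 16 424 360)
  .out))) .out) .out) .ne))) (.na 177 83 (.na 165 70 (.nx 164 20644 (.nr 163 2049 (.nr 160 67 .s1
  (.nx 161 163 (.l1 (.ls 29 19 399)) (.nr 162 513 (.lg 2 true 1 23 23 16 771 2520) .out))) .out)
  .out) (.na 171 82 (.nx 170 20644 (.nr 169 2049 (.nr 166 70 .s1 (.nx 167 163 (.l1 (.ls 31 37 382))
  (.nr 168 513 (.lg 2 true 1 23 23 23 738 5040) .out))) .out) .out) (.nx 176 20644 (.nr 175 2049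
  (.nr 172 82 .s1 (.nx 173 163 (.l1 (.ls 29 29 327)) (.nr 174 513 (.lg 2 true 1 19 19 13 630 720)
  .out))) .out) .out))) (.na 183 86 (.nx 182 20644 (.nr 181 2049 (.nr 178 83 .s1 (.nx 179 163 (.l1
  (.ls 29 19 323)) (.nr 180 513 (.lg 2 true 1 23 23 16 622 55440) .out))) .out) .out) (.na 189 87
  (.nx 188 20644 (.nr 187 2049 (.nr 184 86 .s1 (.nx 185 163 (.l1 (.ls 29 29 311)) (.nr 186 513 (.lg
  2 true 1 17 17 13 601 720) .out))) .out) .out) (.nx 193 20644 (.nr 192 2049 (.nr 190 87 .s1 (.nx
  191 13 (.l1 (.ls 23 16 23)) (.lg 0 true 1 59 59 17 0 2520))) .out) .out))))) (.na 230 109 (.na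
  212 98 (.na 200 90 (.nx 199 20644 (.nr 198 2049 (.nr 195 89 .s1 (.nx 196 163 (.l1 (.ls 23 17
  301)) (.nr 197 513 (.lg 2 false 1 17 17 16 580 360) .out))) .out) .out) (.na 206 94 (.nx 205
  20644 (.nr 204 2049 (.nr 201 90 .s1 (.nx 202 163 (.l1 (.ls 29 37 298)) (.nr 203 513 (.lg 2 false
  1 19 19 23 574 5040) .out))) .out) .out) (.nx 211 20644 (.nr 210 2049 (.nr 207 94 .s1 (.nx 208
  163 (.l1 (.ls 29 29 285)) (.nr 209 513 (.lg 2 true 1 19 19 17 550 5040) .out))) .out) .out)))
  (.na 218 103 (.nx 217 20644 (.nr 216 2049 (.nr 213 98 .s1 (.nx 214 163 (.l1 (.ls 29 29 274)) (.nr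
  215 513 (.lg 2 true 1 19 19 19 527 5040) .out))) .out) .out) (.na 224 105 (.nx 223 20644 (.nr 222
  2049 (.nr 219 103 .s1 (.nx 220 163 (.l1 (.ls 19 17 260)) (.nr 221 513 (.lg 2 false 1 16 16 16 502
  360) .out))) .out) .out) (.nx 229 20644 (.nr 228 2049 (.nr 225 105 .s1 (.nx 226 163 (.l1 (.ls 31
  29 256)) (.nr 227 513 (.lg 2 false 1 19 19 23 492 2520) .out))) .out) .out)))) (.na 248 125 (.na
  236 115 (.nx 235 20644 (.nr 234 2049 (.nr 231 109 .s1 (.nx 232 163 (.l1 (.ls 23 17 246)) (.nr 233
  513 (.lg 2 false 1 17 17 16 474 5040) .out))) .out) .out) (.na 242 122 (.nx 241 20644 (.nr 240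
  2049 (.nr 237 115 .s1 (.nx 238 163 (.l1 (.ls 19 19 234)) (.nr 239 513 (.lg 2 true 1 17 17 16 449
  2520) .out))) .out) .out) (.nx 247 20644 (.nr 246 2049 (.nr 243 122 .s1 (.nx 244 163 (.l1 (.ls 23
  23 220)) (.nr 245 513 (.lg 2 true 1 17 17 19 424 5040) .out))) .out) .out))) (.na 249 126 (.lg 0
  false 1 0 0 16 0 24) (.na 255 128 (.nx 254 20644 (.nr 253 2049 (.nr 250 126 .s1 (.nx 251 163 (.l1
  (.ls 31 31 213)) (.nr 252 513 (.lg 2 true 1 19 23 31 410 5040) .out))) .out) .out) .ne)))))) (.na
  348 202 (.na 297 163 (.na 276 141 (.na 263 135 (.na 257 134 (.lg 0 false 1 0 0 16 0 24) (.nx 262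
  10323 (.nr 261 2049 (.nr 258 134 .s1 (.nx 259 163 (.l1 (.ls 23 23 201)) (.nr 260 513 (.lg 2 false
  1 16 16 19 193 5040) .out))) .out) .out)) (.na 269 137 (.nx 268 10323 (.nr 267 2049 (.nr 264 135
  .s1 (.nx 265 163 (.l1 (.ls 19 23 199)) (.nr 266 513 (.lg 2 false 1 17 17 19 192 720720) .out)))
  .out) .out) (.na 270 138 (.lg 0 false 1 0 0 16 0 24) (.nx 275 10323 (.nr 274 2049 (.nr 271 138
  .s1 (.nx 272 163 (.l1 (.ls 19 31 195)) (.nr 273 513 (.lg 2 false 1 16 16 31 188 720) .out)))
  .out) .out)))) (.na 289 151 (.na 282 147 (.nx 281 10323 (.nr 280 2049 (.nr 277 141 .s1 (.nx 278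
  163 (.l1 (.ls 29 19 191)) (.nr 279 513 (.lg 2 false 1 17 19 19 184 65520) .out))) .out) .out)
  (.na 288 150 (.nx 287 10323 (.nr 286 2049 (.nr 283 147 .s1 (.nx 284 163 (.l1 (.ls 29 23 183))
  (.nr 285 513 (.lg 2 false 1 17 17 23 176 55440) .out))) .out) .out) (.lg 0 false 1 0 0 16 0 24)))
  (.na 290 157 (.lg 0 false 1 0 0 16 0 24) (.na 291 162 (.lg 0 false 1 0 0 16 0 24) (.nx 296 10323
  (.nr 295 2049 (.nr 292 162 .s1 (.nx 293 163 (.l1 (.ls 23 29 167)) (.nr 294 513 (.lg 2 true 1 16
  16 23 160 720720) .out))) .out) .out))))) (.na 322 178 (.na 309 167 (.na 303 166 (.nx 302 10323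
  (.nr 301 2049 (.nr 298 163 .s1 (.nx 299 163 (.l1 (.ls 17 17 165)) (.nr 300 513 (.lg 2 true 1 16
  16 16 159 720720) .out))) .out) .out) (.nx 308 10323 (.nr 307 2049 (.nr 304 166 .s1 (.nx 305 163
  (.l1 (.ls 19 23 163)) (.nr 306 513 (.lg 2 true 1 16 16 19 156 720720) .out))) .out) .out)) (.na
  315 173 (.nx 314 10323 (.nr 313 2049 (.nr 310 167 .s1 (.nx 311 163 (.l1 (.ls 17 17 162)) (.nr 312
  513 (.lg 2 true 1 16 16 16 155 720720) .out))) .out) .out) (.na 316 174 (.lg 0 false 1 0 0 16 0
  24) (.nx 321 10323 (.nr 320 2049 (.nr 317 174 .s1 (.nx 318 163 (.l1 (.ls 23 31 155)) (.nr 319 513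
  (.lg 2 false 1 16 16 23 149 5040) .out))) .out) .out)))) (.na 335 189 (.na 328 179 (.nx 327 10323
  (.nr 326 2049 (.nr 323 178 .s1 (.nx 324 163 (.l1 (.ls 19 23 152)) (.nr 325 513 (.lg 2 false 1 16
  16 19 145 720720) .out))) .out) .out) (.na 329 183 (.lg 0 false 1 0 0 16 0 24) (.nx 334 10323
  (.nr 333 2049 (.nr 330 183 .s1 (.nx 331 163 (.l1 (.ls 23 19 148)) (.nr 332 513 (.lg 2 false 1 16
  16 19 142 360360) .out))) .out) .out))) (.na 341 199 (.nx 340 10323 (.nr 339 2049 (.nr 336 189
  .s1 (.nx 337 163 (.l1 (.ls 29 23 143)) (.nr 338 513 (.lg 2 false 1 16 16 23 137 5040) .out)))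
  .out) .out) (.na 342 201 (.lg 0 false 1 0 0 16 0 24) (.nx 347 10323 (.nr 346 2049 (.nr 343 201
  .s1 (.nx 344 163 (.l1 (.ls 23 19 135)) (.nr 345 513 (.lg 2 false 1 16 16 19 129 27720) .out)))
  .out) .out)))))) (.na 404 243 (.na 373 214 (.na 360 206 (.na 354 205 (.nx 353 10323 (.nr 352 2049
  (.nr 349 202 .s1 (.nx 350 163 (.l1 (.ls 19 23 134)) (.nr 351 513 (.lg 2 false 1 16 16 19 128
  720720) .out))) .out) .out) (.nx 359 10323 (.nr 358 2049 (.nr 355 205 .s1 (.nx 356 163 (.l1 (.ls
  17 19 132)) (.nr 357 513 (.lg 2 false 1 16 16 17 126 720720) .out))) .out) .out)) (.na 366 210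
  (.nx 365 10323 (.nr 364 2049 (.nr 361 206 .s1 (.nx 362 163 (.l1 (.ls 23 23 131)) (.nr 363 513
  (.lg 2 false 1 16 16 19 126 720720) .out))) .out) .out) (.na 372 211 (.nx 371 10323 (.nr 370 2049
  (.nr 367 210 .s1 (.nx 368 163 (.l1 (.ls 29 37 129)) (.nr 369 513 (.lg 2 false 1 16 16 37 123
  65520) .out))) .out) .out) (.lg 0 false 1 0 0 16 0 24)))) (.na 391 227 (.na 379 215 (.nx 378
  10323 (.nr 377 2049 (.nr 374 214 .s1 (.nx 375 163 (.l1 (.ls 19 23 127)) (.nr 376 513 (.lg 2 false
  1 16 16 19 121 720720) .out))) .out) .out) (.na 385 218 (.nx 384 10323 (.nr 383 2049 (.nr 380 215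
  .s1 (.nx 381 163 (.l1 (.ls 16 19 126)) (.nr 382 513 (.lg 2 false 1 16 16 17 121 720720) .out)))
  .out) .out) (.nx 390 10323 (.nr 389 2049 (.nr 386 218 .s1 (.nx 387 163 (.l1 (.ls 19 23 124)) (.nr
  388 513 (.lg 2 false 1 16 16 19 119 720720) .out))) .out) .out))) (.na 397 230 (.nx 396 10323
  (.nr 395 2049 (.nr 392 227 .s1 (.nx 393 163 (.l1 (.ls 17 17 120)) (.nr 394 513 (.lg 2 false 1 16
  16 16 114 720720) .out))) .out) .out) (.na 403 233 (.nx 402 10323 (.nr 401 2049 (.nr 398 230 .s1
  (.nx 399 163 (.l1 (.ls 17 31 118)) (.nr 400 513 (.lg 2 false 1 16 16 19 113 720720) .out))) .out)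
  .out) (.lg 0 false 1 0 0 16 0 24))))) (.na 430 257 (.na 422 250 (.na 410 246 (.nx 409 10323 (.nr
  408 2049 (.nr 405 243 .s1 (.nx 406 163 (.l1 (.ls 16 19 112)) (.nr 407 513 (.lg 2 false 1 16 16 17
  107 720720) .out))) .out) .out) (.na 416 249 (.nx 415 10323 (.nr 414 2049 (.nr 411 246 .s1 (.nx
  412 163 (.l1 (.ls 23 29 111)) (.nr 413 513 (.lg 2 false 1 16 16 29 105 720720) .out))) .out)
  .out) (.nx 421 10323 (.nr 420 2049 (.nr 417 249 .s1 (.nx 418 163 (.l1 (.ls 23 19 109)) (.nr 419
  513 (.lg 2 false 1 16 16 19 104 720720) .out))) .out) .out))) (.na 423 254 (.lg 0 false 1 0 0 16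
  0 24) (.na 429 256 (.nx 428 10323 (.nr 427 2049 (.nr 424 254 .s1 (.nx 425 163 (.l1 (.ls 17 23
  107)) (.nr 426 513 (.lg 2 false 1 16 16 19 102 720720) .out))) .out) .out) .ne))) (.na 845 2048
  (.na 596 512 (.nx 595 163 (.nr 594 4097 (.nr 431 257 .s1 (.nx 512 82 (.lx (.lp 29 17 129)) (.nr
  593 2049 (.lx (.lp 23 19 129)) .out))) .out) .out) (.na 761 1024 (.nx 760 163 (.nr 759 4097 (.nr
  597 512 .s1 (.lx (.lp 23 19 257))) .out) .out) (.nx 844 82 (.nr 843 8193 (.nr 762 1024 .s1 (.lx
  (.lp 16 0 513))) .out) .out))) (.na 929 4096 (.nx 928 82 (.nr 927 8193 (.nr 846 2048 .s1 (.lx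
  (.lp 16 0 1025))) .out) .out) (.na 1013 8193 (.nx 1012 82 (.nr 1011 16385 (.nr 930 4096 .s1 (.lx
  (.lp 16 0 2049))) .out) .out) .out)))))))

theorem c49 :
    OkQ ckI L10 245 1 3 0 34359738368 1 1099511627776 ∧
    OkQ ckI L10 220 363 1099511627776 0 34359738368 1 1099511627776 ∧
    OkQ ckI L1 5 1 1099511627776 0 34359738368 1 1099511627776 := by
  refine ⟨?_, ?_, ?_⟩
  · refine fin 2520 1230 T49_0 ?_
    refine jn 8 (by decide +kernel) ?_
    refine jn 14 (by decide +kernel) ?_
    refine jn 20 (by decide +kernel) ?_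
    refine jn 25 (by decide +kernel) ?_
    refine jn 30 (by decide +kernel) ?_
    refine jn 36 (by decide +kernel) ?_
    refine jn 42 (by decide +kernel) ?_
    refine jn 46 (by decide +kernel) ?_
    refine jn 50 (by decide +kernel) ?_
    refine jn 55 (by decide +kernel) ?_
    refine jn 61 (by decide +kernel) ?_
    refine jn 66 (by decide +kernel) ?_
    refine jn 70 (by decide +kernel) ?_
    refine jn 74 (by decide +kernel) ?_
    refine jn 80 (by decide +kernel) ?_
    refine jn 86 (by decide +kernel) ?_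
    refine jn 90 (by decide +kernel) ?_
    refine jn 94 (by decide +kernel) ?_
    refine jn 98 (by decide +kernel) ?_
    refine jn 104 (by decide +kernel) ?_
    refine jn 110 (by decide +kernel) ?_
    refine jn 114 (by decide +kernel) ?_
    refine jn 119 (by decide +kernel) ?_
    refine jn 125 (by decide +kernel) ?_
    refine jn 132 (by decide +kernel) ?_
    refine jn 136 (by decide +kernel) ?_
    refine jn 140 (by decide +kernel) ?_
    refine jn 146 (by decide +kernel) ?_
    refine jn 152 (by decide +kernel) ?_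
    refine jn 157 (by decide +kernel) ?_
    refine jn 162 (by decide +kernel) ?_
    refine jn 168 (by decide +kernel) ?_
    refine jn 174 (by decide +kernel) ?_
    refine jn 178 (by decide +kernel) ?_
    refine jn 192 (by decide +kernel) ?_
    refine jn 209 (by decide +kernel) ?_
    refine jn 233 (by decide +kernel) ?_
    refine jn 254 (by decide +kernel) ?_
    refine jn 272 (by decide +kernel) ?_
    refine jn 273 (by decide +kernel) ?_
    refine jn 285 (by decide +kernel) ?_
    refine jn 297 (by decide +kernel) ?_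
    refine jn 309 (by decide +kernel) ?_
    refine jn 321 (by decide +kernel) ?_
    refine jn 325 (by decide +kernel) ?_
    refine jn 344 (by decide +kernel) ?_
    refine jn 362 (by decide +kernel) ?_
    refine jn 377 (by decide +kernel) ?_
    refine jn 385 (by decide +kernel) ?_
    refine jn 393 (by decide +kernel) ?_
    refine jn 402 (by decide +kernel) ?_
    refine jn 410 (by decide +kernel) ?_
    refine jn 426 (by decide +kernel) ?_
    refine jn 442 (by decide +kernel) ?_
    refine jn 461 (by decide +kernel) ?_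
    refine jn 479 (by decide +kernel) ?_
    refine jn 494 (by decide +kernel) ?_
    refine jn 510 (by decide +kernel) ?_
    refine jn 526 (by decide +kernel) ?_
    refine jn 542 (by decide +kernel) ?_
    refine jn 563 (by decide +kernel) ?_
    refine jn 584 (by decide +kernel) ?_
    refine jn 600 (by decide +kernel) ?_
    refine jn 622 (by decide +kernel) ?_
    refine jn 630 (by decide +kernel) ?_
    refine jn 644 (by decide +kernel) ?_
    refine jn 657 (by decide +kernel) ?_
    refine jn 670 (by decide +kernel) ?_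
    refine jn 683 (by decide +kernel) ?_
    refine jn 689 (by decide +kernel) ?_
    refine jn 720 (by decide +kernel) ?_
    refine jn 733 (by decide +kernel) ?_
    refine jn 746 (by decide +kernel) ?_
    refine jn 753 (by decide +kernel) ?_
    refine jn 760 (by decide +kernel) ?_
    refine jn 770 (by decide +kernel) ?_
    refine jn 776 (by decide +kernel) ?_
    refine jn 784 (by decide +kernel) ?_
    refine jn 792 (by decide +kernel) ?_
    refine jn 799 (by decide +kernel) ?_
    refine jn 809 (by decide +kernel) ?_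
    refine jn 817 (by decide +kernel) ?_
    refine jn 824 (by decide +kernel) ?_
    refine jn 831 (by decide +kernel) ?_
    refine jn 839 (by decide +kernel) ?_
    refine jn 848 (by decide +kernel) ?_
    refine jn 855 (by decide +kernel) ?_
    refine jn 863 (by decide +kernel) ?_
    refine jn 872 (by decide +kernel) ?_
    refine jn 879 (by decide +kernel) ?_
    refine jn 889 (by decide +kernel) ?_
    refine jn 902 (by decide +kernel) ?_
    refine jn 915 (by decide +kernel) ?_
    refine jn 921 (by decide +kernel) ?_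
    refine jn 934 (by decide +kernel) ?_
    refine jn 947 (by decide +kernel) ?_
    refine jn 973 (by decide +kernel) ?_
    refine jn 986 (by decide +kernel) ?_
    refine jn 1010 (by decide +kernel) ?_
    refine jn 1025 (by decide +kernel) ?_
    refine jn 1047 (by decide +kernel) ?_
    refine jn 1064 (by decide +kernel) ?_
    refine jn 1090 (by decide +kernel) ?_
    refine jn 1115 (by decide +kernel) ?_
    refine jn 1129 (by decide +kernel) ?_
    refine jn 1160 (by decide +kernel) ?_
    refine jn 1199 (by decide +kernel) ?_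
    refine jn 1226 (by decide +kernel) ?_
    exact je (by decide +kernel)
  · refine fin 1320 22450 T49_1 ?_
    refine jn 41 (by decide +kernel) ?_
    refine jn 66 (by decide +kernel) ?_
    refine jn 86 (by decide +kernel) ?_
    refine jn 87 (by decide +kernel) ?_
    refine jn 134 (by decide +kernel) ?_
    refine jn 153 (by decide +kernel) ?_
    refine jn 154 (by decide +kernel) ?_
    refine jn 168 (by decide +kernel) ?_
    refine jn 175 (by decide +kernel) ?_
    refine jn 181 (by decide +kernel) ?_
    refine jn 187 (by decide +kernel) ?_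
    refine jn 192 (by decide +kernel) ?_
    refine jn 204 (by decide +kernel) ?_
    refine jn 205 (by decide +kernel) ?_
    refine jn 206 (by decide +kernel) ?_
    refine jn 217 (by decide +kernel) ?_
    refine jn 223 (by decide +kernel) ?_
    refine jn 231 (by decide +kernel) ?_
    refine jn 237 (by decide +kernel) ?_
    refine jn 238 (by decide +kernel) ?_
    refine jn 244 (by decide +kernel) ?_
    refine jn 247 (by decide +kernel) ?_
    refine jn 261 (by decide +kernel) ?_
    refine jn 265 (by decide +kernel) ?_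
    refine jn 266 (by decide +kernel) ?_
    refine jn 285 (by decide +kernel) ?_
    refine jn 286 (by decide +kernel) ?_
    refine jn 291 (by decide +kernel) ?_
    refine jn 298 (by decide +kernel) ?_
    refine jn 302 (by decide +kernel) ?_
    refine jn 303 (by decide +kernel) ?_
    refine jn 312 (by decide +kernel) ?_
    refine jn 320 (by decide +kernel) ?_
    refine jn 324 (by decide +kernel) ?_
    refine jn 330 (by decide +kernel) ?_
    refine jn 332 (by decide +kernel) ?_
    refine jn 339 (by decide +kernel) ?_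
    refine jn 341 (by decide +kernel) ?_
    refine jn 351 (by decide +kernel) ?_
    refine jn 353 (by decide +kernel) ?_
    refine jn 354 (by decide +kernel) ?_
    refine jn 355 (by decide +kernel) ?_
    refine jn 366 (by decide +kernel) ?_
    refine jn 368 (by decide +kernel) ?_
    refine jn 372 (by decide +kernel) ?_
    refine jn 378 (by decide +kernel) ?_
    refine jn 380 (by decide +kernel) ?_
    refine jn 383 (by decide +kernel) ?_
    refine jn 386 (by decide +kernel) ?_
    refine jn 387 (by decide +kernel) ?_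
    refine jn 393 (by decide +kernel) ?_
    refine jn 395 (by decide +kernel) ?_
    refine jn 404 (by decide +kernel) ?_
    refine jn 410 (by decide +kernel) ?_
    refine jn 411 (by decide +kernel) ?_
    refine jn 414 (by decide +kernel) ?_
    refine jn 415 (by decide +kernel) ?_
    refine jn 434 (by decide +kernel) ?_
    refine jn 435 (by decide +kernel) ?_
    refine jn 437 (by decide +kernel) ?_
    refine jn 441 (by decide +kernel) ?_
    refine jn 446 (by decide +kernel) ?_
    refine jn 447 (by decide +kernel) ?_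
    refine jn 449 (by decide +kernel) ?_
    refine jn 497 (by decide +kernel) ?_
    refine jn 603 (by decide +kernel) ?_
    refine jn 675 (by decide +kernel) ?_
    refine jn 676 (by decide +kernel) ?_
    refine jn 686 (by decide +kernel) ?_
    refine jn 690 (by decide +kernel) ?_
    refine jn 701 (by decide +kernel) ?_
    refine jn 707 (by decide +kernel) ?_
    refine jn 708 (by decide +kernel) ?_
    refine jn 722 (by decide +kernel) ?_
    refine jn 723 (by decide +kernel) ?_
    refine jn 726 (by decide +kernel) ?_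
    refine jn 735 (by decide +kernel) ?_
    refine jn 744 (by decide +kernel) ?_
    refine jn 749 (by decide +kernel) ?_
    refine jn 758 (by decide +kernel) ?_
    refine jn 765 (by decide +kernel) ?_
    refine jn 776 (by decide +kernel) ?_
    refine jn 782 (by decide +kernel) ?_
    refine jn 786 (by decide +kernel) ?_
    refine jn 800 (by decide +kernel) ?_
    refine jn 803 (by decide +kernel) ?_
    refine jn 804 (by decide +kernel) ?_
    refine jn 825 (by decide +kernel) ?_
    refine jn 836 (by decide +kernel) ?_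
    refine jn 840 (by decide +kernel) ?_
    refine jn 849 (by decide +kernel) ?_
    refine jn 851 (by decide +kernel) ?_
    refine jn 854 (by decide +kernel) ?_
    refine jn 867 (by decide +kernel) ?_
    refine jn 873 (by decide +kernel) ?_
    refine jn 879 (by decide +kernel) ?_
    refine jn 888 (by decide +kernel) ?_
    refine jn 889 (by decide +kernel) ?_
    refine jn 899 (by decide +kernel) ?_
    refine jn 903 (by decide +kernel) ?_
    refine jn 914 (by decide +kernel) ?_
    refine jn 920 (by decide +kernel) ?_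
    refine jn 921 (by decide +kernel) ?_
    refine jn 935 (by decide +kernel) ?_
    refine jn 936 (by decide +kernel) ?_
    refine jn 939 (by decide +kernel) ?_
    refine jn 944 (by decide +kernel) ?_
    refine jn 954 (by decide +kernel) ?_
    refine jn 960 (by decide +kernel) ?_
    refine jn 966 (by decide +kernel) ?_
    refine jn 971 (by decide +kernel) ?_
    refine jn 978 (by decide +kernel) ?_
    refine jn 989 (by decide +kernel) ?_
    refine jn 992 (by decide +kernel) ?_
    refine jn 996 (by decide +kernel) ?_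
    refine jn 999 (by decide +kernel) ?_
    refine jn 1011 (by decide +kernel) ?_
    refine jn 1016 (by decide +kernel) ?_
    refine jn 1017 (by decide +kernel) ?_
    refine jn 1038 (by decide +kernel) ?_
    refine jn 1044 (by decide +kernel) ?_
    refine jn 1050 (by decide +kernel) ?_
    refine jn 1053 (by decide +kernel) ?_
    refine jn 1058 (by decide +kernel) ?_
    refine jn 1064 (by decide +kernel) ?_
    refine jn 1067 (by decide +kernel) ?_
    refine jn 1070 (by decide +kernel) ?_
    refine jn 1080 (by decide +kernel) ?_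
    refine jn 1086 (by decide +kernel) ?_
    refine jn 1091 (by decide +kernel) ?_
    refine jn 1095 (by decide +kernel) ?_
    refine jn 1110 (by decide +kernel) ?_
    refine jn 1144 (by decide +kernel) ?_
    refine jn 1168 (by decide +kernel) ?_
    refine jn 1212 (by decide +kernel) ?_
    refine jn 1233 (by decide +kernel) ?_
    refine jn 1261 (by decide +kernel) ?_
    refine jn 1276 (by decide +kernel) ?_
    refine jn 1288 (by decide +kernel) ?_
    refine jn 1317 (by decide +kernel) ?_
    refine jn 1347 (by decide +kernel) ?_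
    refine jn 1378 (by decide +kernel) ?_
    refine jn 1407 (by decide +kernel) ?_
    refine jn 1410 (by decide +kernel) ?_
    refine jn 1427 (by decide +kernel) ?_
    refine jn 1443 (by decide +kernel) ?_
    refine jn 1451 (by decide +kernel) ?_
    refine jn 1463 (by decide +kernel) ?_
    refine jn 1467 (by decide +kernel) ?_
    refine jn 1485 (by decide +kernel) ?_
    refine jn 1508 (by decide +kernel) ?_
    refine jn 1511 (by decide +kernel) ?_
    refine jn 1512 (by decide +kernel) ?_
    refine jn 1521 (by decide +kernel) ?_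
    refine jn 1536 (by decide +kernel) ?_
    refine jn 1547 (by decide +kernel) ?_
    refine jn 1559 (by decide +kernel) ?_
    refine jn 1563 (by decide +kernel) ?_
    refine jn 1568 (by decide +kernel) ?_
    refine jn 1575 (by decide +kernel) ?_
    refine jn 1576 (by decide +kernel) ?_
    refine jn 1590 (by decide +kernel) ?_
    refine jn 1602 (by decide +kernel) ?_
    refine jn 1616 (by decide +kernel) ?_
    refine jn 1628 (by decide +kernel) ?_
    refine jn 1632 (by decide +kernel) ?_
    refine jn 1647 (by decide +kernel) ?_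
    refine jn 1670 (by decide +kernel) ?_
    refine jn 1671 (by decide +kernel) ?_
    refine jn 1673 (by decide +kernel) ?_
    refine jn 1680 (by decide +kernel) ?_
    refine jn 1695 (by decide +kernel) ?_
    refine jn 1707 (by decide +kernel) ?_
    refine jn 1729 (by decide +kernel) ?_
    refine jn 1762 (by decide +kernel) ?_
    refine jn 1780 (by decide +kernel) ?_
    refine jn 1803 (by decide +kernel) ?_
    refine jn 1827 (by decide +kernel) ?_
    refine jn 1852 (by decide +kernel) ?_
    refine jn 1873 (by decide +kernel) ?_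
    refine jn 1908 (by decide +kernel) ?_
    refine jn 1929 (by decide +kernel) ?_
    refine jn 1963 (by decide +kernel) ?_
    refine jn 1998 (by decide +kernel) ?_
    refine jn 2028 (by decide +kernel) ?_
    refine jn 2055 (by decide +kernel) ?_
    refine jn 2074 (by decide +kernel) ?_
    refine jn 2103 (by decide +kernel) ?_
    refine jn 2131 (by decide +kernel) ?_
    refine jn 2132 (by decide +kernel) ?_
    refine jn 2141 (by decide +kernel) ?_
    refine jn 2154 (by decide +kernel) ?_
    refine jn 2171 (by decide +kernel) ?_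
    refine jn 2193 (by decide +kernel) ?_
    refine jn 2196 (by decide +kernel) ?_
    refine jn 2197 (by decide +kernel) ?_
    refine jn 2222 (by decide +kernel) ?_
    refine jn 2228 (by decide +kernel) ?_
    refine jn 2240 (by decide +kernel) ?_
    refine jn 2252 (by decide +kernel) ?_
    refine jn 2270 (by decide +kernel) ?_
    refine jn 2277 (by decide +kernel) ?_
    refine jn 2289 (by decide +kernel) ?_
    refine jn 2306 (by decide +kernel) ?_
    refine jn 2319 (by decide +kernel) ?_
    refine jn 2336 (by decide +kernel) ?_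
    refine jn 2348 (by decide +kernel) ?_
    refine jn 2361 (by decide +kernel) ?_
    refine jn 2378 (by decide +kernel) ?_
    refine jn 2388 (by decide +kernel) ?_
    refine jn 2393 (by decide +kernel) ?_
    refine jn 2423 (by decide +kernel) ?_
    refine jn 2436 (by decide +kernel) ?_
    refine jn 2445 (by decide +kernel) ?_
    refine jn 2460 (by decide +kernel) ?_
    refine jn 2472 (by decide +kernel) ?_
    refine jn 2484 (by decide +kernel) ?_
    refine jn 2490 (by decide +kernel) ?_
    refine jn 2501 (by decide +kernel) ?_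
    refine jn 2516 (by decide +kernel) ?_
    refine jn 2519 (by decide +kernel) ?_
    refine jn 2532 (by decide +kernel) ?_
    refine jn 2546 (by decide +kernel) ?_
    refine jn 2568 (by decide +kernel) ?_
    refine jn 2601 (by decide +kernel) ?_
    refine jn 2631 (by decide +kernel) ?_
    refine jn 2667 (by decide +kernel) ?_
    refine jn 2704 (by decide +kernel) ?_
    refine jn 2743 (by decide +kernel) ?_
    refine jn 2776 (by decide +kernel) ?_
    refine jn 2788 (by decide +kernel) ?_
    refine jn 2827 (by decide +kernel) ?_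
    refine jn 2869 (by decide +kernel) ?_
    refine jn 2904 (by decide +kernel) ?_
    refine jn 2932 (by decide +kernel) ?_
    refine jn 2959 (by decide +kernel) ?_
    refine jn 3000 (by decide +kernel) ?_
    refine jn 3018 (by decide +kernel) ?_
    refine jn 3081 (by decide +kernel) ?_
    refine jn 3105 (by decide +kernel) ?_
    refine jn 3141 (by decide +kernel) ?_
    refine jn 3167 (by decide +kernel) ?_
    refine jn 3173 (by decide +kernel) ?_
    refine jn 3207 (by decide +kernel) ?_
    refine jn 3227 (by decide +kernel) ?_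
    refine jn 3255 (by decide +kernel) ?_
    refine jn 3279 (by decide +kernel) ?_
    refine jn 3303 (by decide +kernel) ?_
    refine jn 3323 (by decide +kernel) ?_
    refine jn 3363 (by decide +kernel) ?_
    refine jn 3375 (by decide +kernel) ?_
    refine jn 3376 (by decide +kernel) ?_
    refine jn 3410 (by decide +kernel) ?_
    refine jn 3432 (by decide +kernel) ?_
    refine jn 3468 (by decide +kernel) ?_
    refine jn 3491 (by decide +kernel) ?_
    refine jn 3503 (by decide +kernel) ?_
    refine jn 3507 (by decide +kernel) ?_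
    refine jn 3537 (by decide +kernel) ?_
    refine jn 3560 (by decide +kernel) ?_
    refine jn 3594 (by decide +kernel) ?_
    refine jn 3615 (by decide +kernel) ?_
    refine jn 3641 (by decide +kernel) ?_
    refine jn 3681 (by decide +kernel) ?_
    refine jn 3699 (by decide +kernel) ?_
    refine jn 3717 (by decide +kernel) ?_
    refine jn 3747 (by decide +kernel) ?_
    refine jn 3763 (by decide +kernel) ?_
    refine jn 3768 (by decide +kernel) ?_
    refine jn 3795 (by decide +kernel) ?_
    refine jn 3807 (by decide +kernel) ?_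
    refine jn 3822 (by decide +kernel) ?_
    refine jn 3841 (by decide +kernel) ?_
    refine jn 3871 (by decide +kernel) ?_
    refine jn 3885 (by decide +kernel) ?_
    refine jn 3891 (by decide +kernel) ?_
    refine jn 3892 (by decide +kernel) ?_
    refine jn 3916 (by decide +kernel) ?_
    refine jn 3940 (by decide +kernel) ?_
    refine jn 3955 (by decide +kernel) ?_
    refine jn 3960 (by decide +kernel) ?_
    refine jn 3984 (by decide +kernel) ?_
    refine jn 4000 (by decide +kernel) ?_
    refine jn 4027 (by decide +kernel) ?_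
    refine jn 4041 (by decide +kernel) ?_
    refine jn 4053 (by decide +kernel) ?_
    refine jn 4074 (by decide +kernel) ?_
    refine jn 4089 (by decide +kernel) ?_
    refine jn 4108 (by decide +kernel) ?_
    refine jn 4129 (by decide +kernel) ?_
    refine jn 4146 (by decide +kernel) ?_
    refine jn 4179 (by decide +kernel) ?_
    refine jn 4195 (by decide +kernel) ?_
    refine jn 4203 (by decide +kernel) ?_
    refine jn 4221 (by decide +kernel) ?_
    refine jn 4246 (by decide +kernel) ?_
    refine jn 4263 (by decide +kernel) ?_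
    refine jn 4275 (by decide +kernel) ?_
    refine jn 4279 (by decide +kernel) ?_
    refine jn 4309 (by decide +kernel) ?_
    refine jn 4333 (by decide +kernel) ?_
    refine jn 4363 (by decide +kernel) ?_
    refine jn 4381 (by decide +kernel) ?_
    refine jn 4404 (by decide +kernel) ?_
    refine jn 4419 (by decide +kernel) ?_
    refine jn 4435 (by decide +kernel) ?_
    refine jn 4450 (by decide +kernel) ?_
    refine jn 4467 (by decide +kernel) ?_
    refine jn 4474 (by decide +kernel) ?_
    refine jn 4491 (by decide +kernel) ?_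
    refine jn 4522 (by decide +kernel) ?_
    refine jn 4535 (by decide +kernel) ?_
    refine jn 4554 (by decide +kernel) ?_
    refine jn 4575 (by decide +kernel) ?_
    refine jn 4593 (by decide +kernel) ?_
    refine jn 4623 (by decide +kernel) ?_
    refine jn 4651 (by decide +kernel) ?_
    refine jn 4710 (by decide +kernel) ?_
    refine jn 4753 (by decide +kernel) ?_
    refine jn 4798 (by decide +kernel) ?_
    refine jn 4842 (by decide +kernel) ?_
    refine jn 4885 (by decide +kernel) ?_
    refine jn 4930 (by decide +kernel) ?_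
    refine jn 4983 (by decide +kernel) ?_
    refine jn 5037 (by decide +kernel) ?_
    refine jn 5067 (by decide +kernel) ?_
    refine jn 5116 (by decide +kernel) ?_
    refine jn 5160 (by decide +kernel) ?_
    refine jn 5211 (by decide +kernel) ?_
    refine jn 5254 (by decide +kernel) ?_
    refine jn 5299 (by decide +kernel) ?_
    refine jn 5350 (by decide +kernel) ?_
    refine jn 5379 (by decide +kernel) ?_
    refine jn 5425 (by decide +kernel) ?_
    refine jn 5476 (by decide +kernel) ?_
    refine jn 5526 (by decide +kernel) ?_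
    refine jn 5562 (by decide +kernel) ?_
    refine jn 5620 (by decide +kernel) ?_
    refine jn 5679 (by decide +kernel) ?_
    refine jn 5706 (by decide +kernel) ?_
    refine jn 5748 (by decide +kernel) ?_
    refine jn 5806 (by decide +kernel) ?_
    refine jn 6038 (by decide +kernel) ?_
    refine jn 6093 (by decide +kernel) ?_
    refine jn 6132 (by decide +kernel) ?_
    refine jn 6186 (by decide +kernel) ?_
    refine jn 6240 (by decide +kernel) ?_
    refine jn 6282 (by decide +kernel) ?_
    refine jn 6318 (by decide +kernel) ?_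
    refine jn 6368 (by decide +kernel) ?_
    refine jn 6420 (by decide +kernel) ?_
    refine jn 6461 (by decide +kernel) ?_
    refine jn 6511 (by decide +kernel) ?_
    refine jn 6566 (by decide +kernel) ?_
    refine jn 6614 (by decide +kernel) ?_
    refine jn 6653 (by decide +kernel) ?_
    refine jn 6704 (by decide +kernel) ?_
    refine jn 6758 (by decide +kernel) ?_
    refine jn 6804 (by decide +kernel) ?_
    refine jn 6870 (by decide +kernel) ?_
    refine jn 6909 (by decide +kernel) ?_
    refine jn 6957 (by decide +kernel) ?_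
    refine jn 7010 (by decide +kernel) ?_
    refine jn 7062 (by decide +kernel) ?_
    refine jn 7119 (by decide +kernel) ?_
    refine jn 7175 (by decide +kernel) ?_
    refine jn 7229 (by decide +kernel) ?_
    refine jn 7274 (by decide +kernel) ?_
    refine jn 7332 (by decide +kernel) ?_
    refine jn 7382 (by decide +kernel) ?_
    refine jn 7424 (by decide +kernel) ?_
    refine jn 7470 (by decide +kernel) ?_
    refine jn 7514 (by decide +kernel) ?_
    refine jn 7574 (by decide +kernel) ?_
    refine jn 7620 (by decide +kernel) ?_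
    refine jn 7671 (by decide +kernel) ?_
    refine jn 7734 (by decide +kernel) ?_
    refine jn 7889 (by decide +kernel) ?_
    refine jn 8093 (by decide +kernel) ?_
    refine jn 8163 (by decide +kernel) ?_
    refine jn 8253 (by decide +kernel) ?_
    refine jn 8333 (by decide +kernel) ?_
    refine jn 8421 (by decide +kernel) ?_
    refine jn 8495 (by decide +kernel) ?_
    refine jn 8592 (by decide +kernel) ?_
    refine jn 8681 (by decide +kernel) ?_
    refine jn 8766 (by decide +kernel) ?_
    refine jn 8877 (by decide +kernel) ?_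
    refine jn 8934 (by decide +kernel) ?_
    refine jn 9038 (by decide +kernel) ?_
    refine jn 9120 (by decide +kernel) ?_
    refine jn 9213 (by decide +kernel) ?_
    refine jn 9302 (by decide +kernel) ?_
    refine jn 9387 (by decide +kernel) ?_
    refine jn 9473 (by decide +kernel) ?_
    refine jn 9566 (by decide +kernel) ?_
    refine jn 9653 (by decide +kernel) ?_
    refine jn 9749 (by decide +kernel) ?_
    refine jn 9834 (by decide +kernel) ?_
    refine jn 9909 (by decide +kernel) ?_
    refine jn 10014 (by decide +kernel) ?_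
    refine jn 10108 (by decide +kernel) ?_
    refine jn 10205 (by decide +kernel) ?_
    refine jn 10284 (by decide +kernel) ?_
    refine jn 10370 (by decide +kernel) ?_
    refine jn 10464 (by decide +kernel) ?_
    refine jn 10820 (by decide +kernel) ?_
    refine jn 11027 (by decide +kernel) ?_
    refine jn 11225 (by decide +kernel) ?_
    refine jn 11315 (by decide +kernel) ?_
    refine jn 11410 (by decide +kernel) ?_
    refine jn 11500 (by decide +kernel) ?_
    refine jn 11570 (by decide +kernel) ?_
    refine jn 11646 (by decide +kernel) ?_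
    refine jn 11716 (by decide +kernel) ?_
    refine jn 11790 (by decide +kernel) ?_
    refine jn 11851 (by decide +kernel) ?_
    refine jn 11909 (by decide +kernel) ?_
    refine jn 11965 (by decide +kernel) ?_
    refine jn 12021 (by decide +kernel) ?_
    refine jn 12070 (by decide +kernel) ?_
    refine jn 12118 (by decide +kernel) ?_
    refine jn 12176 (by decide +kernel) ?_
    refine jn 12225 (by decide +kernel) ?_
    refine jn 12268 (by decide +kernel) ?_
    refine jn 12309 (by decide +kernel) ?_
    refine jn 12348 (by decide +kernel) ?_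
    refine jn 12385 (by decide +kernel) ?_
    refine jn 12417 (by decide +kernel) ?_
    refine jn 12453 (by decide +kernel) ?_
    refine jn 12484 (by decide +kernel) ?_
    refine jn 12553 (by decide +kernel) ?_
    refine jn 12890 (by decide +kernel) ?_
    refine jn 13129 (by decide +kernel) ?_
    refine jn 13292 (by decide +kernel) ?_
    refine jn 13426 (by decide +kernel) ?_
    refine jn 13538 (by decide +kernel) ?_
    refine jn 13649 (by decide +kernel) ?_
    refine jn 13747 (by decide +kernel) ?_
    refine jn 13825 (by decide +kernel) ?_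
    refine jn 13889 (by decide +kernel) ?_
    refine jn 13961 (by decide +kernel) ?_
    refine jn 14025 (by decide +kernel) ?_
    refine jn 14089 (by decide +kernel) ?_
    refine jn 14153 (by decide +kernel) ?_
    refine jn 14204 (by decide +kernel) ?_
    refine jn 14260 (by decide +kernel) ?_
    refine jn 14313 (by decide +kernel) ?_
    refine jn 14369 (by decide +kernel) ?_
    refine jn 14422 (by decide +kernel) ?_
    refine jn 14464 (by decide +kernel) ?_
    refine jn 14509 (by decide +kernel) ?_
    refine jn 14559 (by decide +kernel) ?_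
    refine jn 14935 (by decide +kernel) ?_
    refine jn 15120 (by decide +kernel) ?_
    refine jn 15278 (by decide +kernel) ?_
    refine jn 15356 (by decide +kernel) ?_
    refine jn 15468 (by decide +kernel) ?_
    refine jn 15558 (by decide +kernel) ?_
    refine jn 15660 (by decide +kernel) ?_
    refine jn 15743 (by decide +kernel) ?_
    refine jn 15804 (by decide +kernel) ?_
    refine jn 15865 (by decide +kernel) ?_
    refine jn 15908 (by decide +kernel) ?_
    refine jn 15944 (by decide +kernel) ?_
    refine jn 16006 (by decide +kernel) ?_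
    refine jn 16048 (by decide +kernel) ?_
    refine jn 16100 (by decide +kernel) ?_
    refine jn 16140 (by decide +kernel) ?_
    refine jn 16184 (by decide +kernel) ?_
    refine jn 16232 (by decide +kernel) ?_
    refine jn 16281 (by decide +kernel) ?_
    refine jn 16324 (by decide +kernel) ?_
    refine jn 16369 (by decide +kernel) ?_
    refine jn 16406 (by decide +kernel) ?_
    refine jn 16446 (by decide +kernel) ?_
    refine jn 16484 (by decide +kernel) ?_
    refine jn 16511 (by decide +kernel) ?_
    refine jn 16552 (by decide +kernel) ?_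
    refine jn 16580 (by decide +kernel) ?_
    refine jn 16610 (by decide +kernel) ?_
    refine jn 16944 (by decide +kernel) ?_
    refine jn 17227 (by decide +kernel) ?_
    refine jn 17342 (by decide +kernel) ?_
    refine jn 17434 (by decide +kernel) ?_
    refine jn 17580 (by decide +kernel) ?_
    refine jn 17720 (by decide +kernel) ?_
    refine jn 17827 (by decide +kernel) ?_
    refine jn 17908 (by decide +kernel) ?_
    refine jn 18006 (by decide +kernel) ?_
    refine jn 18097 (by decide +kernel) ?_
    refine jn 18189 (by decide +kernel) ?_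
    refine jn 18260 (by decide +kernel) ?_
    refine jn 18322 (by decide +kernel) ?_
    refine jn 18387 (by decide +kernel) ?_
    refine jn 18436 (by decide +kernel) ?_
    refine jn 18490 (by decide +kernel) ?_
    refine jn 18542 (by decide +kernel) ?_
    refine jn 18592 (by decide +kernel) ?_
    refine jn 18636 (by decide +kernel) ?_
    refine jn 18996 (by decide +kernel) ?_
    refine jn 19317 (by decide +kernel) ?_
    refine jn 19552 (by decide +kernel) ?_
    refine jn 19711 (by decide +kernel) ?_
    refine jn 19886 (by decide +kernel) ?_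
    refine jn 19999 (by decide +kernel) ?_
    refine jn 20141 (by decide +kernel) ?_
    refine jn 20245 (by decide +kernel) ?_
    refine jn 20773 (by decide +kernel) ?_
    refine jn 21064 (by decide +kernel) ?_
    refine jn 21382 (by decide +kernel) ?_
    refine jn 21538 (by decide +kernel) ?_
    refine jn 21658 (by decide +kernel) ?_
    refine jn 21801 (by decide +kernel) ?_
    refine jn 21929 (by decide +kernel) ?_
    exact je (by decide +kernel)
  · refine fin 360 1014 T49_2 ?_
    refine jn 4 (by decide +kernel) ?_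
    refine jn 5 (by decide +kernel) ?_
    refine jn 6 (by decide +kernel) ?_
    refine jn 7 (by decide +kernel) ?_
    refine jn 8 (by decide +kernel) ?_
    refine jn 9 (by decide +kernel) ?_
    refine jn 10 (by decide +kernel) ?_
    refine jn 12 (by decide +kernel) ?_
    refine jn 19 (by decide +kernel) ?_
    refine jn 20 (by decide +kernel) ?_
    refine jn 21 (by decide +kernel) ?_
    refine jn 22 (by decide +kernel) ?_
    refine jn 23 (by decide +kernel) ?_
    refine jn 24 (by decide +kernel) ?_
    refine jn 25 (by decide +kernel) ?_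
    refine jn 26 (by decide +kernel) ?_
    refine jn 35 (by decide +kernel) ?_
    refine jn 36 (by decide +kernel) ?_
    refine jn 37 (by decide +kernel) ?_
    refine jn 38 (by decide +kernel) ?_
    refine jn 39 (by decide +kernel) ?_
    refine jn 40 (by decide +kernel) ?_
    refine jn 47 (by decide +kernel) ?_
    refine jn 48 (by decide +kernel) ?_
    refine jn 49 (by decide +kernel) ?_
    refine jn 50 (by decide +kernel) ?_
    refine jn 51 (by decide +kernel) ?_
    refine jn 59 (by decide +kernel) ?_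
    refine jn 60 (by decide +kernel) ?_
    refine jn 61 (by decide +kernel) ?_
    refine jn 62 (by decide +kernel) ?_
    refine jn 70 (by decide +kernel) ?_
    refine jn 77 (by decide +kernel) ?_
    refine jn 78 (by decide +kernel) ?_
    refine jn 79 (by decide +kernel) ?_
    refine jn 84 (by decide +kernel) ?_
    refine jn 85 (by decide +kernel) ?_
    refine jn 86 (by decide +kernel) ?_
    refine jn 91 (by decide +kernel) ?_
    refine jn 92 (by decide +kernel) ?_
    refine jn 98 (by decide +kernel) ?_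
    refine jn 103 (by decide +kernel) ?_
    refine jn 104 (by decide +kernel) ?_
    refine jn 110 (by decide +kernel) ?_
    refine jn 112 (by decide +kernel) ?_
    refine jn 122 (by decide +kernel) ?_
    refine jn 123 (by decide +kernel) ?_
    refine jn 124 (by decide +kernel) ?_
    refine jn 134 (by decide +kernel) ?_
    refine jn 141 (by decide +kernel) ?_
    refine jn 148 (by decide +kernel) ?_
    refine jn 160 (by decide +kernel) ?_
    refine jn 168 (by decide +kernel) ?_
    refine jn 185 (by decide +kernel) ?_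
    refine jn 192 (by decide +kernel) ?_
    refine jn 209 (by decide +kernel) ?_
    refine jn 226 (by decide +kernel) ?_
    refine jn 244 (by decide +kernel) ?_
    refine jn 266 (by decide +kernel) ?_
    refine jn 284 (by decide +kernel) ?_
    refine jn 317 (by decide +kernel) ?_
    refine jn 338 (by decide +kernel) ?_
    refine jn 375 (by decide +kernel) ?_
    refine jn 418 (by decide +kernel) ?_
    refine jn 552 (by decide +kernel) ?_
    refine jn 722 (by decide +kernel) ?_
    exact je (by decide +kernel)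

end Pool.Agent.MP_2339ce_nt.NR
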