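import Pool.Agent.MP_2339ce_nt.Q2.NC.L1
import Pool.Agent.MP_2339ce_nt.Q2.NC.L8
import Pool.Agent.MP_2339ce_nt.Q2.NC.L10
import Pool.Agent.MP_2339ce_nt.Q2.CkI

/-! Block NR: runs. -/

set_option autoImplicit false
set_option maxRecDepth 100000

noncomputable section

namespace Pool.Agent.MP_2339ce_nt.NR

open Q2.Top

def T51_0 : Ph :=
  (.na 553 183 (.na 331 128 (.na 168 95 (.na 88 74 (.na 24 66 (.na 23 64 (.nx 22 2642247 (.nr 21
  881745 (.nr 1 59 .s1 (.nx 4 250 (.nx 3 249 (.nr 2 715 (.l1 (.ls 19 23 1019)) (.l1 .sk)) (.l1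
  .sk)) (.nx 11 32769 (.lg 0 false 7 97 101 17 0 209160) (.nr 20 92683 (.nr 15 715 (.lg 0 true 4 71
  71 16 0 3984) (.nx 19 262145 (.lg 2 false 4 89 97 16 87918 59760) .out)) .out)))) .out) .out)
  .ne) (.na 48 67 (.nx 47 2642247 (.nr 46 2097153 (.nr 25 65 .s1 (.nx 28 250 (.nx 27 249 (.nr 26
  749 (.l1 (.ls 23 41 942)) (.l1 .sk)) (.l1 .sk)) (.nx 37 32769 (.nx 29 408 (.l1 (.ls 79 43 1578))
  (.nr 36 1048577 (.lg 0 false 7 97 101 31 0 4601520) .out)) (.nr 45 65537 (.nr 42 749 (.lg 0 true
  5 71 71 31 0 657360) (.nx 44 416129 (.lg 2 false 2 89 89 29 69170 657360) .out)) .out)))) .out)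
  .out) (.na 71 69 (.nx 70 2642247 (.nr 69 2097153 (.nr 49 66 .s1 (.nx 53 408 (.nx 51 249 (.nr 50
  771 (.l1 (.ls 19 23 928)) (.l1 .sk)) (.nx 52 250 (.l1 .sk) (.l1 (.ls 73 29 1554)))) (.nr 68
  1048577 (.nx 60 32769 (.lg 0 false 7 97 101 17 0 2300760) (.nr 67 65537 (.nr 64 771 (.lg 0 true 4
  61 71 16 0 3984) (.nx 66 416129 (.lg 2 true 2 89 89 16 67196 3984) .out)) .out)) .out))) .out)
  .out) (.nx 87 2642247 (.nr 86 2097153 (.nr 72 68 .s1 (.nx 73 408 (.l1 (.ls 79 41 2415)) (.nr 85
  1048577 (.nx 77 32769 (.lg 0 false 4 101 101 17 0 59760) (.nr 84 65537 (.nr 81 827 (.lg 0 true 4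
  71 71 17 0 11952) (.nx 83 416129 (.lg 2 false 2 89 89 17 62646 11952) .out)) .out)) .out))) .out)
  .out)))) (.na 147 86 (.na 109 75 (.nx 108 2642247 (.nr 107 2097153 (.nr 89 73 .s1 (.nx 98 32769
  (.nx 90 408 (.l1 (.ls 79 43 2252)) (.nr 97 1048577 (.lg 0 false 7 97 101 23 0 418320) .out)) (.nr
  106 65537 (.nr 103 838 (.lg 0 true 5 71 71 23 0 19920) (.nx 105 416129 (.lg 2 true 2 79 79 19
  62237 3984) .out)) .out))) .out) .out) (.na 126 83 (.nx 125 2642247 (.nr 124 2097153 (.nr 110 74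
  .s1 (.nx 111 408 (.l1 (.ls 73 37 2222)) (.nr 123 1048577 (.nx 115 32769 (.lg 0 false 4 89 89 19 0
  59760) (.nr 122 65537 (.nr 119 927 (.lg 0 true 4 67 67 19 0 59760) (.nx 121 416129 (.lg 2 true 2
  79 79 17 62237 59760) .out)) .out)) .out))) .out) .out) (.nx 146 2642247 (.nr 145 2097153 (.nr
  127 82 .s1 (.nx 136 32769 (.nx 128 408 (.l1 (.ls 67 29 2008)) (.nr 135 1048577 (.lg 0 false 7 79
  79 16 0 209160) .out)) (.nr 144 65537 (.nr 141 961 (.lg 0 true 5 59 59 16 0 9960) (.nx 143 416129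
  (.lg 2 true 2 71 71 16 62237 3984) .out)) .out))) .out) .out))) (.na 166 90 (.nx 165 2642247 (.nr
  164 2097153 (.nr 148 85 .s1 (.nx 155 32769 (.nx 149 408 (.l1 (.ls 79 37 1938)) (.nr 154 1048577
  (.lg 0 false 5 97 97 23 0 59760) .out)) (.nr 163 65537 (.nr 160 1006 (.lg 0 true 5 71 71 23 0
  19920) (.nx 162 416129 (.lg 2 true 2 79 79 19 62237 3984) .out)) .out))) .out) .out) (.na 167 91
  (.lg 0 false 1 0 0 16 0 24) .ne)))) (.na 234 110 (.na 186 101 (.na 185 99 (.nx 184 2642247 (.nr
  183 2097153 (.nr 169 94 .s1 (.nx 178 31001 (.nx 171 249 (.nr 170 1106 (.l1 (.ls 17 29 655)) (.l1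
  .sk)) (.nx 172 250 (.l1 .sk) (.nx 173 408 (.l1 (.ls 79 31 1097)) (.nr 177 1482912 (.lg 0 false 4
  97 101 17 0 59760) .out)))) (.nr 182 65537 (.nr 180 1106 (.lg 0 true 2 73 73 17 0 19920) (.nx 181
  416129 (.lg 2 true 1 89 89 17 65786 29880) .out)) .out))) .out) .out) (.lg 0 false 1 0 0 16 0
  24)) (.na 202 106 (.nx 201 2642247 (.nr 200 2097153 (.nr 187 100 .s1 (.nx 193 31001 (.nx 188 408
  (.l1 (.ls 67 29 1651)) (.nr 192 1482912 (.lg 0 false 4 79 79 17 0 3984) .out)) (.nr 199 65537
  (.nr 196 513 (.lg 0 true 3 59 59 16 0 5976) (.nx 198 416129 (.lg 2 true 2 73 73 16 100991 3984)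
  .out)) .out))) .out) .out) (.na 218 109 (.nx 217 2642247 (.nr 216 2097153 (.nr 203 105 .s1 (.nx
  204 408 (.l1 (.ls 73 37 1573)) (.nr 215 1482912 (.nx 209 31001 (.lg 0 false 5 97 97 23 0 59760)
  (.nr 214 65537 (.nr 211 513 (.lg 0 true 2 67 67 19 0 3984) (.nx 213 416129 (.lg 2 true 2 79 79 19
  100991 3984) .out)) .out)) .out))) .out) .out) (.nx 233 2642247 (.nr 232 2097153 (.nr 219 108 .s1
  (.nx 225 31001 (.nx 220 408 (.l1 (.ls 71 29 1530)) (.nr 224 1482912 (.lg 0 false 4 79 79 17 0
  3984) .out)) (.nr 231 65537 (.nr 229 1229 (.lg 0 true 4 61 61 17 0 3984) (.nx 230 416129 (.lg 2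
  false 1 73 73 16 65786 1992) .out)) .out))) .out) .out)))) (.na 280 118 (.na 250 114 (.nx 249
  2642247 (.nr 248 2097153 (.nr 235 109 .s1 (.nx 238 250 (.nx 237 249 (.nr 236 1274 (.l1 (.ls 31 37
  566)) (.l1 .sk)) (.l1 .sk)) (.nx 239 408 (.l1 (.ls 79 41 948)) (.nr 247 1482912 (.nx 242 31001
  (.lg 0 false 3 97 101 31 0 657360) (.nr 246 65537 (.nr 244 513 (.lg 0 true 2 67 67 31 0 219120)
  (.nx 245 416129 (.lg 2 false 1 97 97 29 100991 657360) .out)) .out)) .out)))) .out) .out) (.na
  266 115 (.nx 265 2642247 (.nr 264 2097153 (.nr 251 113 .s1 (.nx 252 408 (.l1 (.ls 73 43 1463))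
  (.nr 263 1482912 (.nx 257 31001 (.lg 0 false 5 89 97 37 0 59760) (.nr 262 65537 (.nr 259 513 (.lg
  0 true 2 61 61 31 0 11952) (.nx 261 416129 (.lg 2 true 2 79 79 31 100991 11952) .out)) .out))
  .out))) .out) .out) (.nx 279 2642247 (.nr 278 2097153 (.nr 267 114 .s1 (.nx 273 31001 (.nx 268
  408 (.l1 (.ls 79 37 1450)) (.nr 272 1482912 (.lg 0 false 4 89 101 19 0 59760) .out)) (.nr 277
  65537 (.nr 275 513 (.lg 0 true 2 67 67 19 0 19920) (.nx 276 416129 (.lg 2 false 1 89 89 17 100991
  29880) .out)) .out))) .out) .out))) (.na 296 122 (.nx 295 2642247 (.nr 294 2097153 (.nr 281 117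
  .s1 (.nx 288 31001 (.nx 282 408 (.l1 (.ls 73 37 1413)) (.nr 287 1482912 (.lg 0 false 5 89 97 23 0
  59760) .out)) (.nr 293 65537 (.nr 290 513 (.lg 0 true 2 61 61 19 0 3984) (.nx 292 416129 (.lg 2
  true 2 79 79 19 100991 3984) .out)) .out))) .out) .out) (.na 314 125 (.nx 313 2642247 (.nr 312
  2097153 (.nr 297 121 .s1 (.nx 306 31001 (.nx 298 408 (.l1 (.ls 73 37 1367)) (.nr 305 1482912 (.lg
  0 false 7 97 101 29 0 4601520) .out)) (.nr 311 65537 (.nr 308 513 (.lg 0 true 2 61 61 19 0 3984)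
  (.nx 310 416129 (.lg 2 true 2 79 79 19 100991 3984) .out)) .out))) .out) .out) (.nx 330 2642247
  (.nr 329 2097153 (.nr 315 125 .s1 (.nx 316 408 (.l1 (.ls 71 29 1334)) (.nr 328 1482912 (.nr 323
  65537 (.nx 320 416129 (.lg 0 false 4 73 73 19 0 19920) (.nr 322 513 (.lg 0 true 2 59 59 17 0
  19920) .out)) (.nx 327 26009 (.lg 0 false 4 79 79 19 0 19920) .out)) .out))) .out) .out))))))
  (.na 459 158 (.na 395 138 (.na 349 131 (.na 332 129 .ne (.nx 348 1321124 (.nr 347 2097153 (.nr
  333 129 .s1 (.nx 343 41287 (.nx 335 249 (.nr 334 1464 (.l1 (.ls 17 23 483)) (.l1 .sk)) (.nx 336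
  250 (.l1 .sk) (.lg 0 false 7 79 97 23 0 209160))) (.nr 346 16385 (.nr 344 1025 (.lg 0 false 1 67
  67 17 0 5976) (.nx 345 165142 (.lg 2 false 1 59 59 17 20059 5976) .out)) .out))) .out) .out))
  (.na 364 134 (.nx 363 1321124 (.nr 362 2097153 (.nr 350 131 .s1 (.nx 353 250 (.nx 352 249 (.nr
  351 1497 (.l1 (.ls 19 19 476)) (.l1 .sk)) (.l1 .sk)) (.nx 357 26009 (.lg 0 false 4 79 79 17 0
  3984) (.nr 361 65537 (.nx 359 165142 (.lg 0 true 2 73 73 16 0 3984) (.nr 360 1025 (.lg 0 false 1
  61 61 16 0 1992) .out)) .out)))) .out) .out) (.na 381 137 (.nx 380 1321124 (.nr 379 2097153 (.nr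
  365 134 .s1 (.nx 367 249 (.nr 366 1531 (.l1 (.ls 19 29 465)) (.l1 .sk)) (.nx 368 250 (.l1 .sk)
  (.nx 373 26009 (.lg 0 false 5 79 89 29 0 19920) (.nr 378 65537 (.nx 375 165142 (.lg 0 true 2 79
  79 23 0 3984) (.nr 377 1025 (.lg 0 true 2 59 59 23 0 3984) .out)) .out))))) .out) .out) (.nx 394
  1321124 (.nr 393 2097153 (.nr 382 137 .s1 (.nx 391 165142 (.nx 389 26009 (.nx 384 249 (.nr 383
  1542 (.l1 (.ls 16 19 455)) (.l1 .sk)) (.nx 385 250 (.l1 .sk) (.lg 0 false 4 79 79 17 0 59760)))
  (.nr 390 65537 (.lg 0 false 1 73 73 16 0 29880) .out)) (.nr 392 1025 (.lg 0 false 1 61 61 16 0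
  29880) .out))) .out) .out)))) (.na 440 150 (.na 411 139 (.nx 410 1321124 (.nr 409 2097153 (.nr
  396 138 .s1 (.nx 404 26009 (.nx 398 249 (.nr 397 1553 (.l1 (.ls 19 37 452)) (.l1 .sk)) (.nx 399
  250 (.l1 .sk) (.lg 0 false 5 79 89 37 0 59760))) (.nr 408 65537 (.nx 406 165142 (.lg 0 true 2 79
  79 31 0 11952) (.nr 407 1025 (.lg 0 false 1 71 71 19 0 59760) .out)) .out))) .out) .out) (.na 426
  149 (.nx 425 1321124 (.nr 424 2097153 (.nr 412 139 .s1 (.nx 422 165142 (.nx 414 249 (.nr 413 1665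
  (.l1 (.ls 19 19 449)) (.l1 .sk)) (.nx 415 250 (.l1 .sk) (.nx 419 26009 (.lg 0 false 4 79 79 17 0
  3984) (.nr 421 65537 (.lg 0 true 2 73 73 16 0 3984) .out)))) (.nr 423 1025 (.lg 0 false 1 67 67
  16 0 29880) .out))) .out) .out) (.nx 439 1321124 (.nr 438 2097153 (.nr 427 149 .s1 (.nx 436
  165142 (.nx 434 26009 (.nx 429 249 (.nr 428 1676 (.l1 (.ls 17 19 419)) (.l1 .sk)) (.nx 430 250
  (.l1 .sk) (.lg 0 false 4 79 79 17 0 3984))) (.nr 435 65537 (.lg 0 false 1 73 73 16 0 1992) .out))
  (.nr 437 1025 (.lg 0 false 1 61 61 16 0 29880) .out))) .out) .out))) (.na 457 151 (.nx 456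
  1321124 (.nr 455 2097153 (.nr 441 150 .s1 (.nx 444 250 (.nx 443 249 (.nr 442 1687 (.l1 (.ls 19 37
  416)) (.l1 .sk)) (.l1 .sk)) (.nx 451 41287 (.lg 0 false 7 79 89 37 0 418320) (.nr 454 16385 (.nr
  452 1025 (.lg 0 false 1 67 67 29 0 59760) (.nx 453 165142 (.lg 2 false 1 59 59 29 20059 59760)
  .out)) .out)))) .out) .out) (.na 458 157 (.lg 0 false 1 0 0 16 0 24) (.lg 0 false 1 0 0 16 0
  24))))) (.na 535 171 (.na 491 163 (.na 476 159 (.nx 475 1321124 (.nr 474 2097153 (.nr 460 158 .s1
  (.nx 463 250 (.nx 462 249 (.nr 461 1776 (.l1 (.ls 19 29 395)) (.l1 .sk)) (.l1 .sk)) (.nx 470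
  41287 (.lg 0 false 7 73 97 29 0 418320) (.nr 473 16385 (.nr 471 1025 (.lg 0 false 1 61 61 19 0
  3984) (.nx 472 165142 (.lg 2 true 1 53 53 19 20059 3984) .out)) .out)))) .out) .out) (.na 490 162
  (.nx 489 1321124 (.nr 488 2097153 (.nr 477 159 .s1 (.nx 479 249 (.nr 478 1810 (.l1 (.ls 17 23
  392)) (.l1 .sk)) (.nx 480 250 (.l1 .sk) (.nx 484 41287 (.lg 0 false 4 89 89 23 0 11952) (.nr 487
  16385 (.nr 485 1025 (.lg 0 false 1 67 67 17 0 29880) (.nx 486 165142 (.lg 2 false 1 59 59 17
  20059 29880) .out)) .out))))) .out) .out) (.lg 0 false 1 0 0 16 0 24))) (.na 505 165 (.nx 504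
  1321124 (.nr 503 2097153 (.nr 492 163 .s1 (.nx 499 41287 (.nx 494 249 (.nr 493 1843 (.l1 (.ls 17
  19 383)) (.l1 .sk)) (.nx 495 250 (.l1 .sk) (.lg 0 false 4 79 79 17 0 3984))) (.nr 502 16385 (.nr
  500 1025 (.lg 0 false 1 61 61 16 0 29880) (.nx 501 165142 (.lg 2 false 1 53 53 16 20059 29880)
  .out)) .out))) .out) .out) (.na 519 166 (.nx 518 1321124 (.nr 517 2097153 (.nr 506 165 .s1 (.nx
  508 249 (.nr 507 1855 (.l1 (.ls 29 31 378)) (.l1 .sk)) (.nx 509 250 (.l1 .sk) (.nx 513 26009 (.lg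
  0 false 4 79 97 31 0 657360) (.nr 516 65537 (.nx 514 165142 (.lg 0 true 1 89 89 29 0 328680) (.nr
  515 1025 (.lg 0 true 1 67 67 29 0 328680) .out)) .out))))) .out) .out) (.nx 534 1321124 (.nr 533
  2097153 (.nr 520 166 .s1 (.nx 522 249 (.nr 521 1910 (.l1 (.ls 16 29 376)) (.l1 .sk)) (.nx 523 250
  (.l1 .sk) (.nx 530 41287 (.lg 0 false 7 73 73 23 0 27888) (.nr 532 16385 (.lg 0 false 2 73 73 19
  0 3984) .out))))) .out) .out)))) (.na 550 179 (.na 536 173 (.lg 0 false 1 0 0 16 0 24) (.na 537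
  178 (.lg 0 false 1 0 0 16 0 24) (.nx 549 1321124 (.nr 548 2097153 (.nr 538 178 .s1 (.nx 546
  165142 (.nx 540 249 (.nr 539 2000 (.l1 (.ls 19 29 351)) (.l1 .sk)) (.nx 541 250 (.l1 .sk) (.nx
  544 26009 (.lg 0 false 3 79 79 23 0 11952) (.nr 545 65537 (.lg 0 false 1 73 73 19 0 3984)
  .out)))) (.nr 547 1025 (.lg 0 false 1 61 61 19 0 59760) .out))) .out) .out))) (.na 551 181 (.lg 0
  false 1 0 0 16 0 24) (.na 552 182 (.lg 0 false 1 0 0 16 0 24) .ne)))))) (.na 795 250 (.na 675 218
  (.na 608 198 (.na 579 191 (.na 567 190 (.nx 566 1321124 (.nr 565 1482912 (.nr 554 183 .s1 (.nx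
  556 249 (.nr 555 2123 (.l1 (.ls 19 23 341)) (.l1 .sk)) (.nx 557 250 (.l1 .sk) (.nx 561 41287 (.lg
  0 false 4 89 89 23 0 59760) (.nr 564 16385 (.nr 562 1025 (.lg 0 false 1 67 67 17 0 29880) (.nx
  563 165142 (.lg 2 false 1 53 53 17 20059 5976) .out)) .out))))) .out) .out) (.nx 578 1321124 (.nr
  577 1482912 (.nr 568 190 .s1 (.nx 571 250 (.nx 570 249 (.nr 569 2134 (.l1 (.ls 17 37 329)) (.l1
  .sk)) (.l1 .sk)) (.nx 575 165142 (.nx 573 26009 (.lg 0 false 2 97 97 37 0 19920) (.nr 574 65537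
  (.lg 0 true 1 89 89 31 0 19920) .out)) (.nr 576 1025 (.lg 0 true 1 67 67 31 0 19920) .out))))
  .out) .out)) (.na 593 193 (.nx 592 1321124 (.nr 591 1482912 (.nr 580 191 .s1 (.nx 587 41287 (.nx
  582 249 (.nr 581 2156 (.l1 (.ls 17 19 327)) (.l1 .sk)) (.nx 583 250 (.l1 .sk) (.lg 0 false 4 79
  79 19 0 3984))) (.nr 590 16385 (.nr 588 1025 (.lg 0 false 1 59 59 16 0 1992) (.nx 589 165142 (.lg
  2 false 1 47 47 16 20059 1992) .out)) .out))) .out) .out) (.na 607 197 (.nx 606 1321124 (.nr 605
  1482912 (.nr 594 193 .s1 (.nx 601 41287 (.nx 596 249 (.nr 595 2201 (.l1 (.ls 16 19 324)) (.l1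
  .sk)) (.nx 597 250 (.l1 .sk) (.lg 0 false 4 79 79 19 0 59760))) (.nr 604 16385 (.nr 602 1025 (.lg
  0 false 1 59 59 16 0 29880) (.nx 603 165142 (.lg 2 true 1 47 47 16 20059 29880) .out)) .out)))
  .out) .out) (.lg 0 false 1 0 0 16 0 24)))) (.na 636 206 (.na 609 201 (.lg 0 false 1 0 0 16 0 24)
  (.na 623 202 (.nx 622 1321124 (.nr 621 1482912 (.nr 610 201 .s1 (.nx 617 41287 (.nx 612 249 (.nr
  611 2257 (.l1 (.ls 17 23 311)) (.l1 .sk)) (.nx 613 250 (.l1 .sk) (.lg 0 false 4 79 79 23 0
  11952))) (.nr 620 16385 (.nr 618 1025 (.lg 0 false 1 59 59 19 0 29880) (.nx 619 165142 (.lg 2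
  true 1 47 47 19 20059 5976) .out)) .out))) .out) .out) (.nx 635 1321124 (.nr 634 1482912 (.nr 624
  202 .s1 (.nx 626 249 (.nr 625 2301 (.l1 (.ls 19 29 309)) (.l1 .sk)) (.nx 627 250 (.l1 .sk) (.nx
  630 41287 (.lg 0 false 3 79 79 29 0 11952) (.nr 633 16385 (.nr 631 1025 (.lg 0 false 1 61 61 23 0
  3984) (.nx 632 165142 (.lg 2 true 1 53 53 23 20059 3984) .out)) .out))))) .out) .out))) (.na 649
  211 (.nx 648 1321124 (.nr 647 1482912 (.nr 637 206 .s1 (.nx 640 250 (.nx 639 249 (.nr 638 2357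
  (.l1 (.ls 17 29 303)) (.l1 .sk)) (.l1 .sk)) (.nx 643 41287 (.lg 0 false 3 79 79 29 0 11952) (.nr
  646 16385 (.nr 644 1025 (.lg 0 false 1 59 59 23 0 3984) (.nx 645 165142 (.lg 2 false 1 47 47 23
  20059 3984) .out)) .out)))) .out) .out) (.na 663 215 (.nx 662 1321124 (.nr 661 1482912 (.nr 650
  211 .s1 (.nx 657 41287 (.nx 652 249 (.nr 651 2402 (.l1 (.ls 17 19 296)) (.l1 .sk)) (.nx 653 250
  (.l1 .sk) (.lg 0 false 4 73 73 19 0 3984))) (.nr 660 16385 (.nr 658 1025 (.lg 0 false 1 59 59 16
  0 29880) (.nx 659 165142 (.lg 2 false 1 47 47 16 20059 1992) .out)) .out))) .out) .out) (.nx 674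
  1321124 (.nr 673 1482912 (.nr 664 215 .s1 (.nx 669 26009 (.nx 666 249 (.nr 665 2435 (.l1 (.ls 19
  19 291)) (.l1 .sk)) (.nx 667 250 (.l1 .sk) (.lg 0 false 2 89 89 23 0 19920))) (.nr 672 65537 (.nx
  670 165142 (.lg 0 true 1 79 79 19 0 29880) (.nr 671 1025 (.lg 0 true 1 61 61 19 0 9960) .out))
  .out))) .out) .out))))) (.na 729 229 (.na 700 223 (.na 687 222 (.nx 686 1321124 (.nr 685 1482912
  (.nr 676 218 .s1 (.nx 681 41287 (.nx 678 249 (.nr 677 2480 (.l1 (.ls 19 29 287)) (.l1 .sk)) (.nx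
  679 250 (.l1 .sk) (.lg 0 false 2 79 79 23 0 3984))) (.nr 684 16385 (.nr 682 1025 (.lg 0 false 1
  59 59 23 0 3984) (.nx 683 165142 (.lg 2 false 1 47 47 23 20059 3984) .out)) .out))) .out) .out)
  (.nx 699 1321124 (.nr 698 1482912 (.nr 688 222 .s1 (.nx 691 250 (.nx 690 249 (.nr 689 2491 (.l1
  (.ls 19 31 282)) (.l1 .sk)) (.l1 .sk)) (.nx 694 41287 (.lg 0 false 3 89 89 31 0 59760) (.nr 697
  16385 (.nr 695 1025 (.lg 0 false 1 67 67 29 0 59760) (.nx 696 165142 (.lg 2 false 1 59 59 29
  20059 59760) .out)) .out)))) .out) .out)) (.na 714 225 (.nx 713 1321124 (.nr 712 1482912 (.nr 701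
  223 .s1 (.nx 708 41287 (.nx 703 249 (.nr 702 2514 (.l1 (.ls 17 19 281)) (.l1 .sk)) (.nx 704 250
  (.l1 .sk) (.lg 0 false 4 79 79 19 0 59760))) (.nr 711 16385 (.nr 709 1025 (.lg 0 false 1 53 53 16
  0 1992) (.nx 710 165142 (.lg 2 false 1 43 43 16 20059 1992) .out)) .out))) .out) .out) (.na 715
  227 (.lg 0 false 1 0 0 16 0 24) (.nx 728 1321124 (.nr 727 1482912 (.nr 716 227 .s1 (.nx 719 250
  (.nx 718 249 (.nr 717 2558 (.l1 (.ls 17 19 276)) (.l1 .sk)) (.l1 .sk)) (.nx 723 41287 (.lg 0
  false 4 73 73 19 0 3984) (.nr 726 16385 (.nr 724 1025 (.lg 0 false 1 59 59 17 0 29880) (.nx 725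
  165142 (.lg 2 false 1 47 47 17 20059 29880) .out)) .out)))) .out) .out)))) (.na 769 237 (.na 743
  230 (.nx 742 1321124 (.nr 741 1482912 (.nr 730 229 .s1 (.nx 732 249 (.nr 731 2569 (.l1 (.ls 17 19
  273)) (.l1 .sk)) (.nx 733 250 (.l1 .sk) (.nx 737 41287 (.lg 0 false 4 73 73 19 0 3984) (.nr 740
  16385 (.nr 738 1025 (.lg 0 false 1 59 59 17 0 29880) (.nx 739 165142 (.lg 2 true 1 47 47 17 20059
  1992) .out)) .out))))) .out) .out) (.na 755 233 (.nx 754 1321124 (.nr 753 1482912 (.nr 744 230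
  .s1 (.nx 747 250 (.nx 746 249 (.nr 745 2603 (.l1 (.ls 19 37 272)) (.l1 .sk)) (.l1 .sk)) (.nx 751
  165142 (.nx 749 26009 (.lg 0 false 2 97 97 37 0 19920) (.nr 750 65537 (.lg 0 true 1 89 89 31 0
  19920) .out)) (.nr 752 1025 (.lg 0 true 1 67 67 31 0 19920) .out)))) .out) .out) (.nx 768 1321124
  (.nr 767 1482912 (.nr 756 233 .s1 (.nx 763 41287 (.nx 758 249 (.nr 757 2648 (.l1 (.ls 16 19 269))
  (.l1 .sk)) (.nx 759 250 (.l1 .sk) (.lg 0 false 4 79 79 19 0 59760))) (.nr 766 16385 (.nr 764 1025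
  (.lg 0 false 1 53 53 17 0 1992) (.nx 765 165142 (.lg 2 false 1 43 43 17 20059 1992) .out))
  .out))) .out) .out))) (.na 782 242 (.nx 781 1321124 (.nr 780 1482912 (.nr 770 237 .s1 (.nx 773
  250 (.nx 772 249 (.nr 771 2703 (.l1 (.ls 17 23 264)) (.l1 .sk)) (.l1 .sk)) (.nx 777 41287 (.lg 0
  false 4 73 73 23 0 11952) (.nr 779 16385 (.lg 0 true 2 71 71 19 0 11952) .out)))) .out) .out)
  (.na 794 243 (.nx 793 1321124 (.nr 792 1482912 (.nr 783 242 .s1 (.nx 785 249 (.nr 784 2715 (.l1
  (.ls 23 31 259)) (.l1 .sk)) (.nx 786 250 (.l1 .sk) (.nx 788 41287 (.lg 0 false 2 89 89 29 0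
  657360) (.nr 791 16385 (.nr 789 1025 (.lg 0 false 1 61 61 29 0 657360) (.nx 790 165142 (.lg 2
  true 1 53 53 29 20059 657360) .out)) .out))))) .out) .out) (.lg 0 false 1 0 0 16 0 24)))))) (.na
  5788 2897 (.na 1145 363 (.na 808 253 (.na 807 251 (.nx 806 1321124 (.nr 805 1482912 (.nr 796 250
  .s1 (.nx 798 249 (.nr 797 2804 (.l1 (.ls 19 29 251)) (.l1 .sk)) (.nx 799 250 (.l1 .sk) (.nx 801
  41287 (.lg 0 false 2 79 79 29 0 19920) (.nr 804 16385 (.nr 802 1025 (.lg 0 false 1 59 59 29 0
  19920) (.nx 803 165142 (.lg 2 false 1 47 47 29 20059 19920) .out)) .out))))) .out) .out) (.lg 0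
  false 1 0 0 16 0 24)) (.na 820 256 (.nx 819 1321124 (.nr 818 1482912 (.nr 809 253 .s1 (.nx 814
  26009 (.nx 811 249 (.nr 810 2860 (.l1 (.ls 19 19 248)) (.l1 .sk)) (.nx 812 250 (.l1 .sk) (.lg 0
  false 2 97 97 19 0 657360))) (.nr 817 65537 (.nx 815 165142 (.lg 0 true 1 79 79 19 0 21912) (.nr
  816 1025 (.lg 0 true 1 61 61 19 0 21912) .out)) .out))) .out) .out) (.na 821 257 .ne (.nx 1144
  1321124 (.nr 1143 1482912 (.nr 822 257 .s1 (.nx 930 250 (.nx 929 249 (.nr 928 4055 (.la (.ls 37
  19 244)) (.l1 .sk)) (.l1 .sk)) (.nr 1036 32769 (.la (.lg 0 true 2 73 73 23 0)) (.nx 1142 26009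
  (.la (.lg 0 false 2 73 73 23 0)) .out)))) .out) .out)))) (.na 2880 1024 (.na 1598 512 (.nx 1597
  1321124 (.nr 1596 1482912 (.nr 1146 363 .s1 (.nx 1296 249 (.nr 1295 5719 (.la (.ls 37 23 173))
  (.l1 .sk)) (.nx 1297 250 (.l1 .sk) (.nx 1446 26009 (.la (.lg 0 true 1 73 73 23 0)) (.nr 1595
  32769 (.la (.lg 0 false 1 73 73 23 0)) .out))))) .out) .out) (.na 2278 725 (.nx 2277 1321124 (.nr
  2276 1482912 (.nr 1599 512 .s1 (.nx 1848 249 (.nr 1847 8098 (.lx (.lp 41 19 182)) (.l1 .sk)) (.nx
  1849 250 (.l1 .sk) (.nx 2062 26009 (.la (.lg 0 true 1 71 71 23 0)) (.nr 2275 32769 (.la (.lg 0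
  false 1 71 71 23 0)) .out))))) .out) .out) (.nx 2879 20644 (.nr 2878 2097153 (.nr 2279 725 .s1
  (.nx 2578 2049 (.la (.ls 67 37 5793)) (.nr 2877 262145 (.la (.lg 0 false 1 53 53 29 0)) .out)))
  .out) .out))) (.na 3734 1449 (.nx 3733 20644 (.nr 3732 2097153 (.nr 2881 1024 .s1 (.nx 3306 3252
  (.la (.ls 61 41 10330)) (.nr 3731 131073 (.la (.lg 0 false 1 43 43 31 0)) .out))) .out) .out)
  (.na 4936 2048 (.nx 4935 13005 (.nr 4934 2097153 (.nr 3735 1449 .s1 (.nx 4334 3252 (.la (.ls 61
  41 7301)) (.nr 4933 16385 (.la (.lg 0 false 1 23 23 31 0)) .out))) .out) .out) (.nx 5787 13005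
  (.nr 5786 2097153 (.nr 4937 2048 .s1 (.la (.ls 59 53 82586))) .out) .out))))) (.na 17652 32768
  (.na 11497 8192 (.na 6990 4096 (.nx 6989 4097 (.nr 6988 1048577 (.nr 5789 2897 .s1 (.la (.ls 67
  41 5797))) .out) .out) (.na 8690 5793 (.nx 8689 5162 (.nr 8688 1048577 (.nr 6991 4096 .s1 (.la
  (.ls 67 41 6508))) .out) .out) (.nx 11496 2049 (.nr 11495 524289 (.nr 8691 5793 .s1 (.nx 9096 406
  (.lx (.lp 53 37 2049)) (.la (.ls 47 37 2049)))) .out) .out))) (.na 13549 11586 (.nx 13548 2049
  (.nr 13547 524289 (.nr 11498 8192 .s1 (.nx 12789 1292 (.lx (.lp 53 41 2897)) (.nr 13546 131073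
  (.lx (.lp 41 41 2897)) .out))) .out) .out) (.na 15600 16384 (.nx 15599 2049 (.nr 15598 131073
  (.nr 13550 11586 .s1 (.lx (.lp 41 41 4097))) .out) .out) (.nx 17651 2049 (.nr 17650 262145 (.nr
  15601 16384 .s1 (.nx 15924 324 (.lx (.lp 41 41 8193)) (.nr 17649 131073 (.lx (.lp 37 43 8193))
  .out))) .out) .out)))) (.na 22964 262144 (.na 19704 65536 (.nx 19703 2049 (.nr 19702 524289 (.nr
  17653 32768 .s1 (.nx 17976 324 (.lx (.lp 41 47 16385)) (.nr 19701 262145 (.lx (.lp 37 47 16385))
  .out))) .out) .out) (.na 21334 131072 (.nx 21333 1627 (.nr 21332 524289 (.nr 19705 65536 .s1 (.nx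
  20028 324 (.lx (.lp 16 0 32769)) (.nr 21331 262145 (.lx (.lp 37 53 32769)) .out))) .out) .out)
  (.nx 22963 1627 (.nr 22962 524289 (.nr 21335 131072 .s1 (.nx 21847 513 (.lx (.lp 16 53 65537))
  (.nr 22961 262145 (.lx (.lp 31 59 65537)) .out))) .out) .out))) (.na 23479 524288 (.nx 23478 513
  (.nr 23477 1048577 (.nr 22965 262144 .s1 (.lx (.lp 16 0 131073))) .out) .out) (.na 23481 1048577
  (.nx 23480 324 (.l1 .sk) .out) .out)))))))

def T51_1 : Ph :=
  (.na 651 4 (.na 281 2 (.nx 280 1321124 (.nr 279 881745 (.nx 3 144 (.nx 2 143 (.nr 1 13 (.lg 0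
  false 1 43 43 5 0 10296) (.l1 .sk)) (.l1 .sk)) (.nr 243 92683 (.nx 207 660563 (.nx 38 13005 (.lg
  0 false 35 103 107 13 0 720720) (.nr 206 77937 (.nr 73 695 (.lg 0 true 35 97 101 13 0 360360)
  (.nx 108 24081 (.lg 1 false 35 101 107 13 61389 720720) (.nx 128 32769 (.lg 1 false 20 101 103 11
  33153 720720) (.nr 205 55110 (.nr 184 38969 (.nr 148 2437 (.lg 2 true 20 97 101 11 67958 102960)
  (.nx 183 416129 (.lg 2 false 35 101 107 13 12209 720720) .out)) (.nx 204 104033 (.lg 2 true 20
  101 103 11 17241 720720) .out)) .out)))) .out)) (.nr 242 129 (.lg 0 true 35 83 89 13 0 360360)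
  .out)) (.nx 278 257 (.lg 0 false 35 83 89 13 0 360360) .out))) .out) .out) (.na 484 3 (.nx 483
  3329023 (.nr 482 623489 (.nx 284 144 (.nx 283 143 (.nr 282 23 (.lg 0 true 1 43 43 5 0 20592) (.l1
  .sk)) (.l1 .sk)) (.nx 447 832257 (.nr 431 131073 (.nx 319 19053 (.lg 0 false 35 101 107 13 0
  720720) (.nr 351 2437 (.nr 340 450 (.lg 0 true 21 97 97 11 0 144144) (.nx 350 416129 (.lg 2 true
  10 97 101 9 66119 720720) .out)) (.nx 430 330282 (.nx 366 26009 (.lg 1 false 15 101 103 9 70417
  720720) (.nr 429 110219 (.nx 381 32769 (.lg 1 false 15 97 103 9 43386 720720) (.nr 428 92683 (.nr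
  396 27556 (.lg 2 false 15 97 103 9 9691 720720) (.nx 427 165142 (.nr 411 65537 (.lg 2 false 15
  101 107 9 20494 720720) (.nx 426 104033 (.lg 2 true 15 101 107 9 28964 720720) .out)) .out))
  .out)) .out)) .out))) (.nx 446 257 (.lg 0 false 15 83 83 9 0 102960) .out)) (.nr 481 129 (.nx 462
  1664512 (.lg 0 true 15 89 89 9 0 102960) (.nr 480 9 (.lg 0 true 18 73 73 9 0 20592) .out))
  .out))) .out) .out) (.nx 650 6658044 (.nr 649 1482912 (.nx 533 18819 (.nx 487 144 (.nx 486 143
  (.nr 485 32 (.lg 0 true 1 41 41 5 0 10296) (.l1 .sk)) (.l1 .sk)) (.nr 515 110219 (.lg 0 false 28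
  97 103 16 0 720720) (.nx 528 13003 (.nx 527 257 (.lg 0 false 12 89 89 16 0 20592) .out) (.nr 532
  131073 (.lg 0 false 4 101 103 7 0 720720) .out)))) (.nr 648 131073 (.nx 612 1048577 (.nx 603
  524289 (.nr 545 364 (.lg 0 true 12 89 89 16 0 20592) (.nx 602 262145 (.nx 552 27236 (.lg 1 false
  7 103 107 13 71293 720720) (.nx 559 39420 (.lg 1 false 7 103 107 13 49260 720720) (.nr 563 1453
  (.lg 2 true 4 97 97 7 51493 20592) (.nr 567 5803 (.lg 2 true 4 101 101 7 12900 720720) (.nx 574
  57052 (.lg 1 false 7 103 107 13 34035 720720) (.nx 589 104033 (.nx 581 82572 (.lg 1 true 7 103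
  107 13 23516 720720) (.nr 588 110219 (.lg 1 true 7 101 103 13 13666 720720) .out)) (.nr 601 65537
  (.nr 593 38969 (.lg 2 false 4 103 103 7 3844 720720) (.nx 600 165142 (.lg 2 false 7 101 103 13
  6456 720720) .out)) .out))))))) .out)) (.nr 611 129 (.lg 0 true 8 83 83 16 0 20592) .out)) (.nr
  647 33 (.nr 636 13 (.lg 0 true 24 83 83 7 0 20592) (.nx 646 1664512 (.lg 0 true 10 79 79 13 0
  102960) .out)) .out)) .out)) .out) .out))) (.na 828 6 (.na 827 5 (.nx 826 13316087 (.nr 825
  1246976 (.nx 686 19052 (.nx 653 143 (.nr 652 41 (.lg 0 true 1 37 37 9 0 20592) (.l1 .sk)) (.nx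
  654 144 (.l1 .sk) (.nr 669 110219 (.lg 0 false 15 101 103 13 0 720720) (.nx 685 1627 (.nr 674
  155873 (.lg 0 false 5 89 89 11 0 102960) (.nx 684 257 (.lg 0 false 10 83 83 13 0 102960) .out))
  .out)))) (.nr 824 131073 (.nx 773 1664512 (.nx 757 416129 (.nr 701 729 (.lg 0 true 15 89 89 13 0
  102960) (.nx 707 26007 (.nr 706 110219 (.lg 1 false 5 103 103 11 59229 720720) .out) (.nr 715
  5810 (.nr 712 2909 (.lg 2 true 5 97 97 11 40814 102960) (.lg 2 true 3 89 89 9 10228 20592)) (.nx
  751 131073 (.nx 730 52015 (.lg 1 false 15 101 107 13 51588 720720) (.nx 745 104033 (.lg 1 true 15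
  101 107 13 25794 720720) (.nr 750 92683 (.lg 1 true 5 101 103 11 9124 720720) .out))) (.nr 756
  55110 (.lg 2 false 5 101 103 11 5122 720720) .out))))) (.nr 772 183 (.lg 0 true 15 83 89 13 0
  102960) .out)) (.nr 823 21 (.nx 803 9415896 (.lg 0 true 30 83 83 11 0 102960) (.lg 0 true 20 79
  79 11 0 102960)) .out)) .out)) .out) .out) .ne) (.na 948 7 (.nx 947 13316087 (.nr 946 623489 (.nx
  830 143 (.nr 829 59 (.lg 0 true 1 31 31 7 0 20592) (.l1 .sk)) (.nx 831 144 (.l1 .sk) (.nr 940
  370729 (.nx 914 1664512 (.nx 903 832257 (.nx 853 16384 (.nr 841 92683 (.lg 0 false 10 97 101 13 0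
  102960) (.nx 852 3252 (.nr 846 220437 (.lg 0 false 5 97 97 13 0 102960) (.nx 851 647 (.lg 0 false
  5 83 83 13 0 102960) .out)) .out)) (.nr 902 155873 (.nr 863 1026 (.lg 0 true 10 89 89 13 0
  102960) (.nx 901 660563 (.nr 868 8201 (.lg 2 true 5 97 101 13 46034 102960) (.nx 884 73561 (.nx
  879 52015 (.nr 878 131073 (.nx 873 28089 (.lg 1 false 5 103 103 13 81889 720720) (.lg 1 false 5
  103 103 13 47764 720720)) .out) (.lg 1 false 5 101 103 13 30669 720720)) (.nx 889 104033 (.lg 1
  true 5 101 103 13 21686 720720) (.nr 900 131073 (.nx 894 131073 (.lg 1 true 5 97 101 13 12897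
  102960) (.nr 899 65537 (.lg 2 false 5 97 101 13 5760 102960) .out)) .out)))) .out)) .out)) (.nr
  913 129 (.lg 0 true 10 79 79 13 0 102960) .out)) (.nr 939 28 (.lg 0 true 25 83 83 13 0 102960)
  .out)) (.nx 945 205 (.lg 0 false 5 73 73 13 0 102960) .out)))) .out) .out) (.nx 1044 13316087
  (.nr 1043 262145 (.nx 951 144 (.nx 950 143 (.nr 949 67 (.lg 0 true 1 41 41 9 0 720720) (.l1 .sk))
  (.l1 .sk)) (.nx 968 16384 (.nr 963 92683 (.lg 0 false 12 97 101 16 0 720720) (.nx 967 1627 (.lg 0
  false 4 97 97 13 0 720720) .out)) (.nr 1042 131073 (.nx 1011 1664512 (.nr 980 626 (.lg 0 true 12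
  97 97 16 0 720720) (.nx 1010 524289 (.nr 984 2630 (.lg 2 true 4 89 89 13 59883 144144) (.nx 993
  36779 (.nx 989 26007 (.nr 988 110219 (.lg 1 false 4 101 103 13 68874 720720) .out) (.lg 1 false 4
  101 103 13 51588 720720)) (.nr 997 55110 (.lg 2 false 4 103 103 13 15361 720720) (.nx 1009 165142
  (.lg 2 false 12 101 107 16 36479 720720) .out)))) .out)) (.nr 1041 47 (.lg 0 true 30 89 89 16 0
  720720) .out)) .out))) .out) .out))))

def T51_2 : Ph :=
  (.na 214 137 (.na 121 58 (.na 78 23 (.na 60 6 (.na 48 3 (.na 32 2 (.nx 31 52017 (.nr 30 311745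
  (.nx 1 2 (.l1 .sk) (.nr 2 1 .s1 (.nx 3 4 (.l1 (.ls 73 11 15)) (.nx 4 8 (.l1 (.ls 79 16 51)) (.nx
  5 12 (.l1 (.ls 79 16 83)) (.nx 9 27 (.lg 1 true 4 59 59 7 13555 720) (.nr 29 4872 (.nx 10 40 (.l1
  (.ls 59 23 874)) (.nr 23 78 (.nx 11 88 (.l1 (.ls 37 37 6147)) (.lg 0 false 12 61 61 9 0 144))
  (.nx 28 10323 (.lg 2 true 5 53 53 9 67 120) .out))) .out))))))) .out) .out) (.nx 47 52017 (.nr 46
  3446 (.nx 33 2 (.l1 .sk) (.nr 34 2 .s1 (.nr 41 306 (.lg 0 false 7 71 71 9 0 1680) (.nx 45 10323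
  (.nx 43 163 (.lg 0 true 2 61 61 5 0 240) (.nr 44 1219 (.lg 2 true 1 43 43 5 17 48) .out))
  .out)))) .out) .out)) (.na 49 5 .ne (.nx 59 20644 (.nr 58 23172 (.nx 50 2 (.l1 .sk) (.nr 51 5 .s1
  (.nx 55 1627 (.lg 0 true 4 67 67 13 0 240) (.nr 57 129 (.lg 0 false 2 59 59 11 0 240) .out))))
  .out) .out))) (.na 68 16 (.na 61 10 .ne (.nx 67 20644 (.nr 66 3446 (.nx 62 2 (.l1 .sk) (.nr 63 10
  .s1 (.lg 0 false 3 71 71 13 0 720))) .out) .out)) (.na 69 17 .ne (.nx 77 20644 (.nr 76 6890 (.nx
  70 2 (.l1 .sk) (.nr 71 17 .s1 (.nx 72 27 (.l1 (.ls 61 16 45)) (.nr 75 3446 (.lg 0 false 3 67 67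
  16 0 72) .out)))) .out) .out)))) (.na 100 32 (.na 86 26 (.na 79 25 .ne (.nx 85 20644 (.nr 84 6890
  (.nx 80 2 (.l1 .sk) (.nr 81 25 .s1 (.nx 82 163 (.l1 (.ls 41 29 1065)) (.nr 83 257 (.lg 0 false 1
  47 47 16 0 120) .out)))) .out) .out)) (.na 93 29 (.nx 92 20644 (.nr 91 6890 (.nx 87 2 (.l1 .sk)
  (.nr 88 26 .s1 (.nx 89 163 (.l1 (.ls 43 37 1024)) (.nr 90 257 (.lg 0 false 1 53 53 11 0 624)
  .out)))) .out) .out) (.nx 99 20644 (.nr 98 6890 (.nx 94 2 (.l1 .sk) (.nr 95 29 .s1 (.nx 96 163
  (.l1 (.ls 41 23 919)) (.nr 97 257 (.lg 0 false 1 47 47 13 0 120) .out)))) .out) .out))) (.na 106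
  37 (.na 101 34 .ne (.nx 105 10323 (.nr 104 4097 (.nx 102 2 (.l1 .sk) (.nr 103 34 .s1 (.lg 0 false
  1 61 61 13 0 48))) .out) .out)) (.na 111 41 (.nx 110 10323 (.nr 109 4097 (.nx 107 2 (.l1 .sk)
  (.nr 108 37 .s1 (.lg 0 false 1 61 61 16 0 24))) .out) .out) (.na 116 50 (.nx 115 10323 (.nr 114
  4097 (.nx 112 2 (.l1 .sk) (.nr 113 41 .s1 (.lg 0 false 1 61 61 16 0 120))) .out) .out) (.nx 120
  10323 (.nr 119 4097 (.nx 117 2 (.l1 .sk) (.nr 118 50 .s1 (.lg 0 false 1 59 59 13 0 240))) .out)
  .out)))))) (.na 168 97 (.na 141 73 (.na 135 64 (.na 128 61 (.nx 127 10323 (.nr 126 4097 (.nx 122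
  2 (.l1 .sk) (.nr 123 58 .s1 (.nx 124 27 (.l1 (.ls 23 13 16)) (.nr 125 1724 (.lg 2 false 1 19 19
  13 89 3120) .out)))) .out) .out) (.nx 134 10323 (.nr 133 4097 (.nx 129 2 (.l1 .sk) (.nr 130 61
  .s1 (.nx 131 27 (.l1 (.ls 23 16 17)) (.nr 132 1724 (.lg 2 false 1 16 16 16 85 120) .out)))) .out)
  .out)) (.na 136 65 .ne (.nx 140 20644 (.nr 139 2049 (.nx 137 2 (.l1 .sk) (.nr 138 65 .s1 (.lg 0
  true 1 53 53 17 0 1560))) .out) .out))) (.na 155 82 (.na 148 74 (.nx 147 20644 (.nr 146 2049 (.nx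
  142 2 (.l1 .sk) (.nr 143 73 .s1 (.nx 144 163 (.l1 (.ls 23 19 366)) (.nr 145 513 (.lg 2 true 1 17
  17 16 142 55440) .out)))) .out) .out) (.nx 154 20644 (.nr 153 2049 (.nx 149 2 (.l1 .sk) (.nr 150
  74 .s1 (.nx 151 163 (.l1 (.ls 23 29 361)) (.nr 152 513 (.lg 2 false 1 16 16 13 140 1680) .out))))
  .out) .out)) (.na 161 89 (.nx 160 20644 (.nr 159 2049 (.nx 156 2 (.l1 .sk) (.nr 157 82 .s1 (.nx
  158 23 (.l1 (.ls 19 13 23)) (.lg 2 false 1 17 17 13 126 240)))) .out) .out) (.nx 167 20644 (.nr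
  166 2049 (.nx 162 2 (.l1 .sk) (.nr 163 89 .s1 (.nx 164 163 (.l1 (.ls 23 17 301)) (.nr 165 513
  (.lg 2 false 1 16 16 16 116 102960) .out)))) .out) .out)))) (.na 193 122 (.na 181 106 (.na 175
  101 (.nx 174 20644 (.nr 173 2049 (.nx 169 2 (.l1 .sk) (.nr 170 97 .s1 (.nx 171 163 (.l1 (.ls 19
  17 276)) (.nr 172 513 (.lg 2 false 1 16 16 16 107 240240) .out)))) .out) .out) (.nx 180 20644
  (.nr 179 2049 (.nx 176 2 (.l1 .sk) (.nr 177 101 .s1 (.nx 178 23 (.l1 (.ls 17 16 27)) (.lg 2 false
  1 16 16 16 103 840)))) .out) .out)) (.na 187 113 (.nx 186 20644 (.nr 185 2049 (.nx 182 2 (.l1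
  .sk) (.nr 183 106 .s1 (.nx 184 23 (.l1 (.ls 19 13 29)) (.lg 2 false 1 16 16 17 98 240)))) .out)
  .out) (.nx 192 20644 (.nr 191 2049 (.nx 188 2 (.l1 .sk) (.nr 189 113 .s1 (.nx 190 23 (.l1 (.ls 17
  16 31)) (.lg 2 false 1 17 17 16 92 21840)))) .out) .out))) (.na 205 128 (.na 199 125 (.nx 198
  20644 (.nr 197 2049 (.nx 194 2 (.l1 .sk) (.nr 195 122 .s1 (.nx 196 23 (.l1 (.ls 19 13 32)) (.lg 2
  false 1 16 16 19 85 1680)))) .out) .out) (.nx 204 20644 (.nr 203 2049 (.nx 200 2 (.l1 .sk) (.nr
  201 125 .s1 (.nx 202 23 (.l1 (.ls 17 16 33)) (.lg 2 false 1 17 17 16 83 27720)))) .out) .out))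
  (.na 206 130 .ne (.na 213 131 (.nx 212 10323 (.nr 211 2049 (.nx 207 2 (.l1 .sk) (.nr 208 130 .s1
  (.nx 209 163 (.l1 (.ls 31 31 207)) (.nr 210 513 (.lg 2 false 1 16 16 23 40 240240) .out)))) .out)
  .out) (.lg 0 false 1 0 0 16 0 24))))))) (.na 294 218 (.na 248 170 (.na 234 157 (.na 227 146 (.na
  220 145 (.nx 219 10323 (.nr 218 2049 (.nx 215 2 (.l1 .sk) (.nr 216 137 .s1 (.nx 217 54 (.l1 (.ls
  17 16 37)) (.lg 2 false 1 16 16 16 38 21840)))) .out) .out) (.nx 226 10323 (.nr 225 2049 (.nx 221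
  2 (.l1 .sk) (.nr 222 145 .s1 (.nx 223 163 (.l1 (.ls 23 19 186)) (.nr 224 513 (.lg 2 false 1 16 16
  16 36 102960) .out)))) .out) .out)) (.na 233 151 (.nx 232 10323 (.nr 231 2049 (.nx 228 2 (.l1
  .sk) (.nr 229 146 .s1 (.nx 230 54 (.l1 (.ls 17 17 38)) (.lg 2 false 1 0 16 17 36 21840)))) .out)
  .out) (.lg 0 false 1 0 0 16 0 24))) (.na 241 167 (.na 240 163 (.nx 239 10323 (.nr 238 2049 (.nx
  235 2 (.l1 .sk) (.nr 236 157 .s1 (.nx 237 54 (.l1 (.ls 16 16 41)) (.lg 2 false 1 0 16 16 33
  720720)))) .out) .out) (.lg 0 false 1 0 0 16 0 24)) (.na 242 169 (.lg 0 false 1 0 0 16 0 24) (.nx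
  247 10323 (.nr 246 2049 (.nx 243 2 (.l1 .sk) (.nr 244 169 .s1 (.nx 245 54 (.l1 (.ls 17 16 43))
  (.lg 2 false 1 0 16 16 31 720720)))) .out) .out)))) (.na 269 193 (.na 261 185 (.na 255 178 (.nx
  254 10323 (.nr 253 2049 (.nx 249 2 (.l1 .sk) (.nr 250 170 .s1 (.nx 251 163 (.l1 (.ls 16 31 159))
  (.nr 252 513 (.lg 2 false 1 0 16 29 31 720720) .out)))) .out) .out) (.nx 260 10323 (.nr 259 2049
  (.nx 256 2 (.l1 .sk) (.nr 257 178 .s1 (.nx 258 54 (.l1 (.ls 17 19 47)) (.lg 2 false 1 0 16 19 29
  720720)))) .out) .out)) (.na 268 191 (.nx 267 10323 (.nr 266 2049 (.nx 262 2 (.l1 .sk) (.nr 263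
  185 .s1 (.nx 264 163 (.l1 (.ls 23 19 146)) (.nr 265 513 (.lg 2 false 1 16 16 16 28 720720)
  .out)))) .out) .out) (.lg 0 false 1 0 0 16 0 24))) (.na 281 197 (.na 275 194 (.nx 274 10323 (.nr
  273 2049 (.nx 270 2 (.l1 .sk) (.nr 271 193 .s1 (.nx 272 54 (.l1 (.ls 16 16 49)) (.lg 2 false 1 0
  16 16 27 720720)))) .out) .out) (.nx 280 10323 (.nr 279 2049 (.nx 276 2 (.l1 .sk) (.nr 277 194
  .s1 (.nx 278 54 (.l1 (.ls 17 19 50)) (.lg 2 false 1 0 16 19 27 720720)))) .out) .out)) (.na 287
  199 (.nx 286 10323 (.nr 285 2049 (.nx 282 2 (.l1 .sk) (.nr 283 197 .s1 (.nx 284 54 (.l1 (.ls 16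
  16 50)) (.lg 2 false 1 0 16 16 27 720720)))) .out) .out) (.na 288 202 (.lg 0 false 1 0 0 16 0 24)
  (.nx 293 10323 (.nr 292 2049 (.nx 289 2 (.l1 .sk) (.nr 290 202 .s1 (.nx 291 54 (.l1 (.ls 17 19
  55)) (.lg 2 false 1 0 16 19 26 720720)))) .out) .out)))))) (.na 333 250 (.na 313 227 (.na 306 223
  (.na 300 221 (.nx 299 10323 (.nr 298 2049 (.nx 295 2 (.l1 .sk) (.nr 296 218 .s1 (.nx 297 54 (.l1
  (.ls 17 19 56)) (.lg 2 false 1 0 16 19 24 720720)))) .out) .out) (.nx 305 10323 (.nr 304 2049
  (.nx 301 2 (.l1 .sk) (.nr 302 221 .s1 (.nx 303 54 (.l1 (.ls 16 16 56)) (.lg 2 false 1 0 16 16 24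
  120120)))) .out) .out)) (.na 307 226 (.lg 0 false 1 0 0 16 0 24) (.nx 312 10323 (.nr 311 2049
  (.nx 308 2 (.l1 .sk) (.nr 309 226 .s1 (.nx 310 54 (.l1 (.ls 17 19 57)) (.lg 2 false 1 0 16 19 23
  720720)))) .out) .out))) (.na 320 233 (.na 314 229 (.lg 0 false 1 0 0 16 0 24) (.nx 319 10323
  (.nr 318 2049 (.nx 315 2 (.l1 .sk) (.nr 316 229 .s1 (.nx 317 54 (.l1 (.ls 16 16 59)) (.lg 2 false
  1 0 16 16 23 720720)))) .out) .out)) (.na 326 239 (.nx 325 10323 (.nr 324 2049 (.nx 321 2 (.l1
  .sk) (.nr 322 233 .s1 (.nx 323 54 (.l1 (.ls 16 16 60)) (.lg 2 false 1 0 16 16 23 720720)))) .out)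
  .out) (.na 327 241 (.lg 0 false 1 0 0 16 0 24) (.nx 332 10323 (.nr 331 2049 (.nx 328 2 (.l1 .sk)
  (.nr 329 241 .s1 (.nx 330 54 (.l1 (.ls 16 16 63)) (.lg 2 false 1 0 16 16 22 720720)))) .out)
  .out))))) (.na 506 512 (.na 340 256 (.na 339 251 (.nx 338 10323 (.nr 337 2049 (.nx 334 2 (.l1
  .sk) (.nr 335 250 .s1 (.nx 336 54 (.l1 (.ls 16 23 63)) (.lg 2 false 1 0 16 23 21 720720)))) .out)
  .out) (.lg 0 false 1 0 0 16 0 24)) (.na 341 257 .ne (.nx 505 163 (.nr 504 4097 (.nx 342 2 (.l1
  .sk) (.nr 343 257 .s1 (.lx (.lp 41 17 129)))) .out) .out))) (.na 755 2048 (.na 671 1024 (.nx 670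
  163 (.nr 669 4097 (.nx 507 2 (.l1 .sk) (.nr 508 512 .s1 (.lx (.lp 31 19 257)))) .out) .out) (.nx
  754 82 (.nr 753 8193 (.nx 672 2 (.l1 .sk) (.nr 673 1024 .s1 (.lx (.lp 37 19 513)))) .out) .out))
  (.na 839 4096 (.nx 838 82 (.nr 837 8193 (.nx 756 2 (.l1 .sk) (.nr 757 2048 .s1 (.lx (.lp 16 0
  1025)))) .out) .out) (.na 923 8193 (.nx 922 82 (.nr 921 16385 (.nx 840 2 (.l1 .sk) (.nr 841 4096
  .s1 (.lx (.lp 16 0 2049)))) .out) .out) .out)))))))

theorem c51 :
    OkQ ckI L10 249 61 1099511627776 0 34359738368 1 1099511627776 ∧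
    OkQ ckI L8 143 1 8 0 34359738368 1 1099511627776 ∧
    OkQ ckI L1 1 1 1099511627776 0 34359738368 1 1099511627776 := by
  refine ⟨?_, ?_, ?_⟩
  · refine fin 1992 23482 T51_0 ?_
    refine jn 11 (by decide +kernel) ?_
    refine jn 19 (by decide +kernel) ?_
    refine jn 36 (by decide +kernel) ?_
    refine jn 44 (by decide +kernel) ?_
    refine jn 60 (by decide +kernel) ?_
    refine jn 66 (by decide +kernel) ?_
    refine jn 81 (by decide +kernel) ?_
    refine jn 97 (by decide +kernel) ?_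
    refine jn 105 (by decide +kernel) ?_
    refine jn 119 (by decide +kernel) ?_
    refine jn 135 (by decide +kernel) ?_
    refine jn 154 (by decide +kernel) ?_
    refine jn 162 (by decide +kernel) ?_
    refine jn 177 (by decide +kernel) ?_
    refine jn 181 (by decide +kernel) ?_
    refine jn 196 (by decide +kernel) ?_
    refine jn 211 (by decide +kernel) ?_
    refine jn 224 (by decide +kernel) ?_
    refine jn 236 (by decide +kernel) ?_
    refine jn 242 (by decide +kernel) ?_
    refine jn 245 (by decide +kernel) ?_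
    refine jn 259 (by decide +kernel) ?_
    refine jn 268 (by decide +kernel) ?_
    refine jn 272 (by decide +kernel) ?_
    refine jn 276 (by decide +kernel) ?_
    refine jn 290 (by decide +kernel) ?_
    refine jn 305 (by decide +kernel) ?_
    refine jn 316 (by decide +kernel) ?_
    refine jn 317 (by decide +kernel) ?_
    refine jn 318 (by decide +kernel) ?_
    refine jn 319 (by decide +kernel) ?_
    refine jn 320 (by decide +kernel) ?_
    refine jn 343 (by decide +kernel) ?_
    refine jn 357 (by decide +kernel) ?_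
    refine jn 373 (by decide +kernel) ?_
    refine jn 389 (by decide +kernel) ?_
    refine jn 404 (by decide +kernel) ?_
    refine jn 419 (by decide +kernel) ?_
    refine jn 434 (by decide +kernel) ?_
    refine jn 451 (by decide +kernel) ?_
    refine jn 470 (by decide +kernel) ?_
    refine jn 485 (by decide +kernel) ?_
    refine jn 500 (by decide +kernel) ?_
    refine jn 513 (by decide +kernel) ?_
    refine jn 530 (by decide +kernel) ?_
    refine jn 545 (by decide +kernel) ?_
    refine jn 562 (by decide +kernel) ?_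
    refine jn 574 (by decide +kernel) ?_
    refine jn 588 (by decide +kernel) ?_
    refine jn 603 (by decide +kernel) ?_
    refine jn 619 (by decide +kernel) ?_
    refine jn 632 (by decide +kernel) ?_
    refine jn 645 (by decide +kernel) ?_
    refine jn 659 (by decide +kernel) ?_
    refine jn 670 (by decide +kernel) ?_
    refine jn 683 (by decide +kernel) ?_
    refine jn 696 (by decide +kernel) ?_
    refine jn 710 (by decide +kernel) ?_
    refine jn 725 (by decide +kernel) ?_
    refine jn 739 (by decide +kernel) ?_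
    refine jn 750 (by decide +kernel) ?_
    refine jn 764 (by decide +kernel) ?_
    refine jn 779 (by decide +kernel) ?_
    refine jn 796 (by decide +kernel) ?_
    refine jn 809 (by decide +kernel) ?_
    refine jn 815 (by decide +kernel) ?_
    refine jn 843 (by decide +kernel) ?_
    refine jn 928 (by decide +kernel) ?_
    refine jn 935 (by decide +kernel) ?_
    refine jn 938 (by decide +kernel) ?_
    refine jn 939 (by decide +kernel) ?_
    refine jn 947 (by decide +kernel) ?_
    refine jn 948 (by decide +kernel) ?_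
    refine jn 950 (by decide +kernel) ?_
    refine jn 956 (by decide +kernel) ?_
    refine jn 958 (by decide +kernel) ?_
    refine jn 971 (by decide +kernel) ?_
    refine jn 982 (by decide +kernel) ?_
    refine jn 999 (by decide +kernel) ?_
    refine jn 1003 (by decide +kernel) ?_
    refine jn 1004 (by decide +kernel) ?_
    refine jn 1022 (by decide +kernel) ?_
    refine jn 1034 (by decide +kernel) ?_
    refine jn 1037 (by decide +kernel) ?_
    refine jn 1044 (by decide +kernel) ?_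
    refine jn 1046 (by decide +kernel) ?_
    refine jn 1053 (by decide +kernel) ?_
    refine jn 1054 (by decide +kernel) ?_
    refine jn 1056 (by decide +kernel) ?_
    refine jn 1064 (by decide +kernel) ?_
    refine jn 1077 (by decide +kernel) ?_
    refine jn 1088 (by decide +kernel) ?_
    refine jn 1105 (by decide +kernel) ?_
    refine jn 1109 (by decide +kernel) ?_
    refine jn 1110 (by decide +kernel) ?_
    refine jn 1132 (by decide +kernel) ?_
    refine jn 1162 (by decide +kernel) ?_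
    refine jn 1213 (by decide +kernel) ?_
    refine jn 1265 (by decide +kernel) ?_
    refine jn 1304 (by decide +kernel) ?_
    refine jn 1309 (by decide +kernel) ?_
    refine jn 1317 (by decide +kernel) ?_
    refine jn 1327 (by decide +kernel) ?_
    refine jn 1336 (by decide +kernel) ?_
    refine jn 1345 (by decide +kernel) ?_
    refine jn 1352 (by decide +kernel) ?_
    refine jn 1356 (by decide +kernel) ?_
    refine jn 1371 (by decide +kernel) ?_
    refine jn 1379 (by decide +kernel) ?_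
    refine jn 1383 (by decide +kernel) ?_
    refine jn 1395 (by decide +kernel) ?_
    refine jn 1409 (by decide +kernel) ?_
    refine jn 1423 (by decide +kernel) ?_
    refine jn 1440 (by decide +kernel) ?_
    refine jn 1449 (by decide +kernel) ?_
    refine jn 1456 (by decide +kernel) ?_
    refine jn 1465 (by decide +kernel) ?_
    refine jn 1472 (by decide +kernel) ?_
    refine jn 1480 (by decide +kernel) ?_
    refine jn 1490 (by decide +kernel) ?_
    refine jn 1498 (by decide +kernel) ?_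
    refine jn 1501 (by decide +kernel) ?_
    refine jn 1505 (by decide +kernel) ?_
    refine jn 1520 (by decide +kernel) ?_
    refine jn 1528 (by decide +kernel) ?_
    refine jn 1532 (by decide +kernel) ?_
    refine jn 1544 (by decide +kernel) ?_
    refine jn 1558 (by decide +kernel) ?_
    refine jn 1572 (by decide +kernel) ?_
    refine jn 1589 (by decide +kernel) ?_
    refine jn 1649 (by decide +kernel) ?_
    refine jn 1781 (by decide +kernel) ?_
    refine jn 1867 (by decide +kernel) ?_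
    refine jn 1879 (by decide +kernel) ?_
    refine jn 1887 (by decide +kernel) ?_
    refine jn 1892 (by decide +kernel) ?_
    refine jn 1903 (by decide +kernel) ?_
    refine jn 1910 (by decide +kernel) ?_
    refine jn 1927 (by decide +kernel) ?_
    refine jn 1943 (by decide +kernel) ?_
    refine jn 1955 (by decide +kernel) ?_
    refine jn 1968 (by decide +kernel) ?_
    refine jn 1982 (by decide +kernel) ?_
    refine jn 1990 (by decide +kernel) ?_
    refine jn 1999 (by decide +kernel) ?_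
    refine jn 2008 (by decide +kernel) ?_
    refine jn 2018 (by decide +kernel) ?_
    refine jn 2027 (by decide +kernel) ?_
    refine jn 2035 (by decide +kernel) ?_
    refine jn 2055 (by decide +kernel) ?_
    refine jn 2064 (by decide +kernel) ?_
    refine jn 2080 (by decide +kernel) ?_
    refine jn 2092 (by decide +kernel) ?_
    refine jn 2100 (by decide +kernel) ?_
    refine jn 2105 (by decide +kernel) ?_
    refine jn 2116 (by decide +kernel) ?_
    refine jn 2123 (by decide +kernel) ?_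
    refine jn 2140 (by decide +kernel) ?_
    refine jn 2156 (by decide +kernel) ?_
    refine jn 2168 (by decide +kernel) ?_
    refine jn 2181 (by decide +kernel) ?_
    refine jn 2195 (by decide +kernel) ?_
    refine jn 2203 (by decide +kernel) ?_
    refine jn 2212 (by decide +kernel) ?_
    refine jn 2221 (by decide +kernel) ?_
    refine jn 2231 (by decide +kernel) ?_
    refine jn 2240 (by decide +kernel) ?_
    refine jn 2248 (by decide +kernel) ?_
    refine jn 2268 (by decide +kernel) ?_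
    refine jn 2288 (by decide +kernel) ?_
    refine jn 2325 (by decide +kernel) ?_
    refine jn 2368 (by decide +kernel) ?_
    refine jn 2397 (by decide +kernel) ?_
    refine jn 2439 (by decide +kernel) ?_
    refine jn 2493 (by decide +kernel) ?_
    refine jn 2537 (by decide +kernel) ?_
    refine jn 2579 (by decide +kernel) ?_
    refine jn 2598 (by decide +kernel) ?_
    refine jn 2612 (by decide +kernel) ?_
    refine jn 2639 (by decide +kernel) ?_
    refine jn 2650 (by decide +kernel) ?_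
    refine jn 2671 (by decide +kernel) ?_
    refine jn 2684 (by decide +kernel) ?_
    refine jn 2704 (by decide +kernel) ?_
    refine jn 2722 (by decide +kernel) ?_
    refine jn 2738 (by decide +kernel) ?_
    refine jn 2751 (by decide +kernel) ?_
    refine jn 2778 (by decide +kernel) ?_
    refine jn 2803 (by decide +kernel) ?_
    refine jn 2827 (by decide +kernel) ?_
    refine jn 2842 (by decide +kernel) ?_
    refine jn 2858 (by decide +kernel) ?_
    refine jn 2887 (by decide +kernel) ?_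
    refine jn 2923 (by decide +kernel) ?_
    refine jn 2967 (by decide +kernel) ?_
    refine jn 2990 (by decide +kernel) ?_
    refine jn 3023 (by decide +kernel) ?_
    refine jn 3076 (by decide +kernel) ?_
    refine jn 3114 (by decide +kernel) ?_
    refine jn 3150 (by decide +kernel) ?_
    refine jn 3182 (by decide +kernel) ?_
    refine jn 3212 (by decide +kernel) ?_
    refine jn 3247 (by decide +kernel) ?_
    refine jn 3296 (by decide +kernel) ?_
    refine jn 3327 (by decide +kernel) ?_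
    refine jn 3333 (by decide +kernel) ?_
    refine jn 3365 (by decide +kernel) ?_
    refine jn 3392 (by decide +kernel) ?_
    refine jn 3402 (by decide +kernel) ?_
    refine jn 3428 (by decide +kernel) ?_
    refine jn 3447 (by decide +kernel) ?_
    refine jn 3484 (by decide +kernel) ?_
    refine jn 3503 (by decide +kernel) ?_
    refine jn 3532 (by decide +kernel) ?_
    refine jn 3559 (by decide +kernel) ?_
    refine jn 3572 (by decide +kernel) ?_
    refine jn 3585 (by decide +kernel) ?_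
    refine jn 3600 (by decide +kernel) ?_
    refine jn 3624 (by decide +kernel) ?_
    refine jn 3637 (by decide +kernel) ?_
    refine jn 3656 (by decide +kernel) ?_
    refine jn 3681 (by decide +kernel) ?_
    refine jn 3701 (by decide +kernel) ?_
    refine jn 3728 (by decide +kernel) ?_
    refine jn 3779 (by decide +kernel) ?_
    refine jn 3821 (by decide +kernel) ?_
    refine jn 3876 (by decide +kernel) ?_
    refine jn 3920 (by decide +kernel) ?_
    refine jn 3956 (by decide +kernel) ?_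
    refine jn 4011 (by decide +kernel) ?_
    refine jn 4079 (by decide +kernel) ?_
    refine jn 4124 (by decide +kernel) ?_
    refine jn 4196 (by decide +kernel) ?_
    refine jn 4247 (by decide +kernel) ?_
    refine jn 4296 (by decide +kernel) ?_
    refine jn 4333 (by decide +kernel) ?_
    refine jn 4375 (by decide +kernel) ?_
    refine jn 4403 (by decide +kernel) ?_
    refine jn 4430 (by decide +kernel) ?_
    refine jn 4476 (by decide +kernel) ?_
    refine jn 4519 (by decide +kernel) ?_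
    refine jn 4552 (by decide +kernel) ?_
    refine jn 4587 (by decide +kernel) ?_
    refine jn 4634 (by decide +kernel) ?_
    refine jn 4695 (by decide +kernel) ?_
    refine jn 4732 (by decide +kernel) ?_
    refine jn 4795 (by decide +kernel) ?_
    refine jn 4838 (by decide +kernel) ?_
    refine jn 4870 (by decide +kernel) ?_
    refine jn 4899 (by decide +kernel) ?_
    refine jn 4930 (by decide +kernel) ?_
    refine jn 4967 (by decide +kernel) ?_
    refine jn 4979 (by decide +kernel) ?_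
    refine jn 4990 (by decide +kernel) ?_
    refine jn 5002 (by decide +kernel) ?_
    refine jn 5039 (by decide +kernel) ?_
    refine jn 5071 (by decide +kernel) ?_
    refine jn 5088 (by decide +kernel) ?_
    refine jn 5111 (by decide +kernel) ?_
    refine jn 5127 (by decide +kernel) ?_
    refine jn 5158 (by decide +kernel) ?_
    refine jn 5179 (by decide +kernel) ?_
    refine jn 5207 (by decide +kernel) ?_
    refine jn 5230 (by decide +kernel) ?_
    refine jn 5259 (by decide +kernel) ?_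
    refine jn 5284 (by decide +kernel) ?_
    refine jn 5315 (by decide +kernel) ?_
    refine jn 5330 (by decide +kernel) ?_
    refine jn 5342 (by decide +kernel) ?_
    refine jn 5379 (by decide +kernel) ?_
    refine jn 5406 (by decide +kernel) ?_
    refine jn 5420 (by decide +kernel) ?_
    refine jn 5452 (by decide +kernel) ?_
    refine jn 5491 (by decide +kernel) ?_
    refine jn 5523 (by decide +kernel) ?_
    refine jn 5547 (by decide +kernel) ?_
    refine jn 5583 (by decide +kernel) ?_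
    refine jn 5627 (by decide +kernel) ?_
    refine jn 5655 (by decide +kernel) ?_
    refine jn 5695 (by decide +kernel) ?_
    refine jn 5726 (by decide +kernel) ?_
    refine jn 5750 (by decide +kernel) ?_
    refine jn 5786 (by decide +kernel) ?_
    refine jn 5859 (by decide +kernel) ?_
    refine jn 5922 (by decide +kernel) ?_
    refine jn 5982 (by decide +kernel) ?_
    refine jn 6033 (by decide +kernel) ?_
    refine jn 6095 (by decide +kernel) ?_
    refine jn 6162 (by decide +kernel) ?_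
    refine jn 6226 (by decide +kernel) ?_
    refine jn 6289 (by decide +kernel) ?_
    refine jn 6358 (by decide +kernel) ?_
    refine jn 6435 (by decide +kernel) ?_
    refine jn 6507 (by decide +kernel) ?_
    refine jn 6563 (by decide +kernel) ?_
    refine jn 6645 (by decide +kernel) ?_
    refine jn 6719 (by decide +kernel) ?_
    refine jn 6786 (by decide +kernel) ?_
    refine jn 6862 (by decide +kernel) ?_
    refine jn 6927 (by decide +kernel) ?_
    refine jn 6982 (by decide +kernel) ?_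
    refine jn 7045 (by decide +kernel) ?_
    refine jn 7106 (by decide +kernel) ?_
    refine jn 7154 (by decide +kernel) ?_
    refine jn 7236 (by decide +kernel) ?_
    refine jn 7309 (by decide +kernel) ?_
    refine jn 7362 (by decide +kernel) ?_
    refine jn 7418 (by decide +kernel) ?_
    refine jn 7474 (by decide +kernel) ?_
    refine jn 7541 (by decide +kernel) ?_
    refine jn 7632 (by decide +kernel) ?_
    refine jn 7714 (by decide +kernel) ?_
    refine jn 7785 (by decide +kernel) ?_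
    refine jn 7836 (by decide +kernel) ?_
    refine jn 7920 (by decide +kernel) ?_
    refine jn 7996 (by decide +kernel) ?_
    refine jn 8073 (by decide +kernel) ?_
    refine jn 8141 (by decide +kernel) ?_
    refine jn 8204 (by decide +kernel) ?_
    refine jn 8280 (by decide +kernel) ?_
    refine jn 8372 (by decide +kernel) ?_
    refine jn 8450 (by decide +kernel) ?_
    refine jn 8528 (by decide +kernel) ?_
    refine jn 8596 (by decide +kernel) ?_
    refine jn 8688 (by decide +kernel) ?_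
    refine jn 9039 (by decide +kernel) ?_
    refine jn 9186 (by decide +kernel) ?_
    refine jn 9322 (by decide +kernel) ?_
    refine jn 9445 (by decide +kernel) ?_
    refine jn 9562 (by decide +kernel) ?_
    refine jn 9668 (by decide +kernel) ?_
    refine jn 9769 (by decide +kernel) ?_
    refine jn 9893 (by decide +kernel) ?_
    refine jn 10028 (by decide +kernel) ?_
    refine jn 10148 (by decide +kernel) ?_
    refine jn 10269 (by decide +kernel) ?_
    refine jn 10398 (by decide +kernel) ?_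
    refine jn 10508 (by decide +kernel) ?_
    refine jn 10633 (by decide +kernel) ?_
    refine jn 10750 (by decide +kernel) ?_
    refine jn 10878 (by decide +kernel) ?_
    refine jn 10981 (by decide +kernel) ?_
    refine jn 11138 (by decide +kernel) ?_
    refine jn 11273 (by decide +kernel) ?_
    refine jn 11401 (by decide +kernel) ?_
    refine jn 11621 (by decide +kernel) ?_
    refine jn 11979 (by decide +kernel) ?_
    refine jn 12188 (by decide +kernel) ?_
    refine jn 12353 (by decide +kernel) ?_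
    refine jn 12482 (by decide +kernel) ?_
    refine jn 12604 (by decide +kernel) ?_
    refine jn 12702 (by decide +kernel) ?_
    refine jn 12780 (by decide +kernel) ?_
    refine jn 12856 (by decide +kernel) ?_
    refine jn 12938 (by decide +kernel) ?_
    refine jn 12996 (by decide +kernel) ?_
    refine jn 13054 (by decide +kernel) ?_
    refine jn 13108 (by decide +kernel) ?_
    refine jn 13166 (by decide +kernel) ?_
    refine jn 13222 (by decide +kernel) ?_
    refine jn 13272 (by decide +kernel) ?_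
    refine jn 13322 (by decide +kernel) ?_
    refine jn 13367 (by decide +kernel) ?_
    refine jn 13408 (by decide +kernel) ?_
    refine jn 13448 (by decide +kernel) ?_
    refine jn 13487 (by decide +kernel) ?_
    refine jn 13529 (by decide +kernel) ?_
    refine jn 13761 (by decide +kernel) ?_
    refine jn 14180 (by decide +kernel) ?_
    refine jn 14378 (by decide +kernel) ?_
    refine jn 14536 (by decide +kernel) ?_
    refine jn 14675 (by decide +kernel) ?_
    refine jn 14788 (by decide +kernel) ?_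
    refine jn 14900 (by decide +kernel) ?_
    refine jn 14990 (by decide +kernel) ?_
    refine jn 15074 (by decide +kernel) ?_
    refine jn 15155 (by decide +kernel) ?_
    refine jn 15227 (by decide +kernel) ?_
    refine jn 15297 (by decide +kernel) ?_
    refine jn 15367 (by decide +kernel) ?_
    refine jn 15428 (by decide +kernel) ?_
    refine jn 15487 (by decide +kernel) ?_
    refine jn 15542 (by decide +kernel) ?_
    refine jn 15594 (by decide +kernel) ?_
    refine jn 16048 (by decide +kernel) ?_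
    refine jn 16220 (by decide +kernel) ?_
    refine jn 16378 (by decide +kernel) ?_
    refine jn 16490 (by decide +kernel) ?_
    refine jn 16585 (by decide +kernel) ?_
    refine jn 16683 (by decide +kernel) ?_
    refine jn 16781 (by decide +kernel) ?_
    refine jn 16851 (by decide +kernel) ?_
    refine jn 16936 (by decide +kernel) ?_
    refine jn 17016 (by decide +kernel) ?_
    refine jn 17073 (by decide +kernel) ?_
    refine jn 17124 (by decide +kernel) ?_
    refine jn 17181 (by decide +kernel) ?_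
    refine jn 17235 (by decide +kernel) ?_
    refine jn 17293 (by decide +kernel) ?_
    refine jn 17343 (by decide +kernel) ?_
    refine jn 17392 (by decide +kernel) ?_
    refine jn 17433 (by decide +kernel) ?_
    refine jn 17478 (by decide +kernel) ?_
    refine jn 17527 (by decide +kernel) ?_
    refine jn 17566 (by decide +kernel) ?_
    refine jn 17611 (by decide +kernel) ?_
    refine jn 17649 (by decide +kernel) ?_
    refine jn 18072 (by decide +kernel) ?_
    refine jn 18320 (by decide +kernel) ?_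
    refine jn 18501 (by decide +kernel) ?_
    refine jn 18675 (by decide +kernel) ?_
    refine jn 18811 (by decide +kernel) ?_
    refine jn 18908 (by decide +kernel) ?_
    refine jn 19017 (by decide +kernel) ?_
    refine jn 19128 (by decide +kernel) ?_
    refine jn 19218 (by decide +kernel) ?_
    refine jn 19299 (by decide +kernel) ?_
    refine jn 19364 (by decide +kernel) ?_
    refine jn 19445 (by decide +kernel) ?_
    refine jn 19518 (by decide +kernel) ?_
    refine jn 19579 (by decide +kernel) ?_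
    refine jn 19641 (by decide +kernel) ?_
    refine jn 19705 (by decide +kernel) ?_
    refine jn 20357 (by decide +kernel) ?_
    refine jn 20574 (by decide +kernel) ?_
    refine jn 20727 (by decide +kernel) ?_
    refine jn 20899 (by decide +kernel) ?_
    refine jn 21060 (by decide +kernel) ?_
    refine jn 21188 (by decide +kernel) ?_
    refine jn 21309 (by decide +kernel) ?_
    refine jn 22009 (by decide +kernel) ?_
    refine jn 22321 (by decide +kernel) ?_
    refine jn 22498 (by decide +kernel) ?_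
    refine jn 22673 (by decide +kernel) ?_
    refine jn 22840 (by decide +kernel) ?_
    refine jn 23302 (by decide +kernel) ?_
    exact je (by decide +kernel)
  · refine fin 10296 1045 T51_1 ?_
    refine jn 6 (by decide +kernel) ?_
    refine jn 9 (by decide +kernel) ?_
    refine jn 13 (by decide +kernel) ?_
    refine jn 16 (by decide +kernel) ?_
    refine jn 20 (by decide +kernel) ?_
    refine jn 21 (by decide +kernel) ?_
    refine jn 24 (by decide +kernel) ?_
    refine jn 28 (by decide +kernel) ?_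
    refine jn 31 (by decide +kernel) ?_
    refine jn 35 (by decide +kernel) ?_
    refine jn 36 (by decide +kernel) ?_
    refine jn 41 (by decide +kernel) ?_
    refine jn 48 (by decide +kernel) ?_
    refine jn 55 (by decide +kernel) ?_
    refine jn 62 (by decide +kernel) ?_
    refine jn 68 (by decide +kernel) ?_
    refine jn 73 (by decide +kernel) ?_
    refine jn 101 (by decide +kernel) ?_
    refine jn 108 (by decide +kernel) ?_
    refine jn 128 (by decide +kernel) ?_
    refine jn 148 (by decide +kernel) ?_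
    refine jn 169 (by decide +kernel) ?_
    refine jn 183 (by decide +kernel) ?_
    refine jn 204 (by decide +kernel) ?_
    refine jn 227 (by decide +kernel) ?_
    refine jn 242 (by decide +kernel) ?_
    refine jn 278 (by decide +kernel) ?_
    refine jn 289 (by decide +kernel) ?_
    refine jn 295 (by decide +kernel) ?_
    refine jn 300 (by decide +kernel) ?_
    refine jn 305 (by decide +kernel) ?_
    refine jn 310 (by decide +kernel) ?_
    refine jn 315 (by decide +kernel) ?_
    refine jn 322 (by decide +kernel) ?_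
    refine jn 330 (by decide +kernel) ?_
    refine jn 339 (by decide +kernel) ?_
    refine jn 350 (by decide +kernel) ?_
    refine jn 366 (by decide +kernel) ?_
    refine jn 381 (by decide +kernel) ?_
    refine jn 396 (by decide +kernel) ?_
    refine jn 411 (by decide +kernel) ?_
    refine jn 426 (by decide +kernel) ?_
    refine jn 446 (by decide +kernel) ?_
    refine jn 480 (by decide +kernel) ?_
    refine jn 487 (by decide +kernel) ?_
    refine jn 489 (by decide +kernel) ?_
    refine jn 490 (by decide +kernel) ?_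
    refine jn 491 (by decide +kernel) ?_
    refine jn 492 (by decide +kernel) ?_
    refine jn 493 (by decide +kernel) ?_
    refine jn 495 (by decide +kernel) ?_
    refine jn 496 (by decide +kernel) ?_
    refine jn 497 (by decide +kernel) ?_
    refine jn 498 (by decide +kernel) ?_
    refine jn 500 (by decide +kernel) ?_
    refine jn 502 (by decide +kernel) ?_
    refine jn 504 (by decide +kernel) ?_
    refine jn 505 (by decide +kernel) ?_
    refine jn 506 (by decide +kernel) ?_
    refine jn 507 (by decide +kernel) ?_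
    refine jn 509 (by decide +kernel) ?_
    refine jn 510 (by decide +kernel) ?_
    refine jn 511 (by decide +kernel) ?_
    refine jn 512 (by decide +kernel) ?_
    refine jn 514 (by decide +kernel) ?_
    refine jn 527 (by decide +kernel) ?_
    refine jn 533 (by decide +kernel) ?_
    refine jn 534 (by decide +kernel) ?_
    refine jn 536 (by decide +kernel) ?_
    refine jn 538 (by decide +kernel) ?_
    refine jn 540 (by decide +kernel) ?_
    refine jn 542 (by decide +kernel) ?_
    refine jn 544 (by decide +kernel) ?_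
    refine jn 545 (by decide +kernel) ?_
    refine jn 551 (by decide +kernel) ?_
    refine jn 557 (by decide +kernel) ?_
    refine jn 559 (by decide +kernel) ?_
    refine jn 563 (by decide +kernel) ?_
    refine jn 567 (by decide +kernel) ?_
    refine jn 573 (by decide +kernel) ?_
    refine jn 579 (by decide +kernel) ?_
    refine jn 588 (by decide +kernel) ?_
    refine jn 593 (by decide +kernel) ?_
    refine jn 600 (by decide +kernel) ?_
    refine jn 608 (by decide +kernel) ?_
    refine jn 611 (by decide +kernel) ?_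
    refine jn 636 (by decide +kernel) ?_
    refine jn 646 (by decide +kernel) ?_
    refine jn 654 (by decide +kernel) ?_
    refine jn 655 (by decide +kernel) ?_
    refine jn 656 (by decide +kernel) ?_
    refine jn 658 (by decide +kernel) ?_
    refine jn 659 (by decide +kernel) ?_
    refine jn 660 (by decide +kernel) ?_
    refine jn 662 (by decide +kernel) ?_
    refine jn 663 (by decide +kernel) ?_
    refine jn 664 (by decide +kernel) ?_
    refine jn 665 (by decide +kernel) ?_
    refine jn 667 (by decide +kernel) ?_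
    refine jn 668 (by decide +kernel) ?_
    refine jn 669 (by decide +kernel) ?_
    refine jn 684 (by decide +kernel) ?_
    refine jn 688 (by decide +kernel) ?_
    refine jn 691 (by decide +kernel) ?_
    refine jn 694 (by decide +kernel) ?_
    refine jn 696 (by decide +kernel) ?_
    refine jn 699 (by decide +kernel) ?_
    refine jn 701 (by decide +kernel) ?_
    refine jn 707 (by decide +kernel) ?_
    refine jn 712 (by decide +kernel) ?_
    refine jn 723 (by decide +kernel) ?_
    refine jn 730 (by decide +kernel) ?_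
    refine jn 743 (by decide +kernel) ?_
    refine jn 750 (by decide +kernel) ?_
    refine jn 756 (by decide +kernel) ?_
    refine jn 765 (by decide +kernel) ?_
    refine jn 772 (by decide +kernel) ?_
    refine jn 803 (by decide +kernel) ?_
    refine jn 823 (by decide +kernel) ?_
    refine jn 833 (by decide +kernel) ?_
    refine jn 834 (by decide +kernel) ?_
    refine jn 836 (by decide +kernel) ?_
    refine jn 838 (by decide +kernel) ?_
    refine jn 839 (by decide +kernel) ?_
    refine jn 841 (by decide +kernel) ?_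
    refine jn 851 (by decide +kernel) ?_
    refine jn 856 (by decide +kernel) ?_
    refine jn 859 (by decide +kernel) ?_
    refine jn 862 (by decide +kernel) ?_
    refine jn 863 (by decide +kernel) ?_
    refine jn 873 (by decide +kernel) ?_
    refine jn 884 (by decide +kernel) ?_
    refine jn 894 (by decide +kernel) ?_
    refine jn 903 (by decide +kernel) ?_
    refine jn 913 (by decide +kernel) ?_
    refine jn 939 (by decide +kernel) ?_
    refine jn 951 (by decide +kernel) ?_
    refine jn 953 (by decide +kernel) ?_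
    refine jn 955 (by decide +kernel) ?_
    refine jn 957 (by decide +kernel) ?_
    refine jn 959 (by decide +kernel) ?_
    refine jn 961 (by decide +kernel) ?_
    refine jn 963 (by decide +kernel) ?_
    refine jn 971 (by decide +kernel) ?_
    refine jn 975 (by decide +kernel) ?_
    refine jn 980 (by decide +kernel) ?_
    refine jn 988 (by decide +kernel) ?_
    refine jn 997 (by decide +kernel) ?_
    refine jn 1009 (by decide +kernel) ?_
    refine jn 1041 (by decide +kernel) ?_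
    exact je (by decide +kernel)
  · refine fin 24 924 T51_2 ?_
    refine jn 2 (by decide +kernel) ?_
    refine jn 3 (by decide +kernel) ?_
    refine jn 4 (by decide +kernel) ?_
    refine jn 5 (by decide +kernel) ?_
    refine jn 6 (by decide +kernel) ?_
    refine jn 7 (by decide +kernel) ?_
    refine jn 8 (by decide +kernel) ?_
    refine jn 9 (by decide +kernel) ?_
    refine jn 10 (by decide +kernel) ?_
    refine jn 11 (by decide +kernel) ?_
    refine jn 12 (by decide +kernel) ?_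
    refine jn 13 (by decide +kernel) ?_
    refine jn 14 (by decide +kernel) ?_
    refine jn 15 (by decide +kernel) ?_
    refine jn 16 (by decide +kernel) ?_
    refine jn 17 (by decide +kernel) ?_
    refine jn 18 (by decide +kernel) ?_
    refine jn 19 (by decide +kernel) ?_
    refine jn 20 (by decide +kernel) ?_
    refine jn 21 (by decide +kernel) ?_
    refine jn 22 (by decide +kernel) ?_
    refine jn 23 (by decide +kernel) ?_
    refine jn 24 (by decide +kernel) ?_
    refine jn 25 (by decide +kernel) ?_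
    refine jn 26 (by decide +kernel) ?_
    refine jn 27 (by decide +kernel) ?_
    refine jn 28 (by decide +kernel) ?_
    refine jn 34 (by decide +kernel) ?_
    refine jn 35 (by decide +kernel) ?_
    refine jn 36 (by decide +kernel) ?_
    refine jn 37 (by decide +kernel) ?_
    refine jn 38 (by decide +kernel) ?_
    refine jn 39 (by decide +kernel) ?_
    refine jn 40 (by decide +kernel) ?_
    refine jn 41 (by decide +kernel) ?_
    refine jn 44 (by decide +kernel) ?_
    refine jn 51 (by decide +kernel) ?_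
    refine jn 52 (by decide +kernel) ?_
    refine jn 53 (by decide +kernel) ?_
    refine jn 54 (by decide +kernel) ?_
    refine jn 55 (by decide +kernel) ?_
    refine jn 56 (by decide +kernel) ?_
    refine jn 57 (by decide +kernel) ?_
    refine jn 63 (by decide +kernel) ?_
    refine jn 64 (by decide +kernel) ?_
    refine jn 65 (by decide +kernel) ?_
    refine jn 66 (by decide +kernel) ?_
    refine jn 72 (by decide +kernel) ?_
    refine jn 73 (by decide +kernel) ?_
    refine jn 74 (by decide +kernel) ?_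
    refine jn 75 (by decide +kernel) ?_
    refine jn 81 (by decide +kernel) ?_
    refine jn 82 (by decide +kernel) ?_
    refine jn 83 (by decide +kernel) ?_
    refine jn 89 (by decide +kernel) ?_
    refine jn 93 (by decide +kernel) ?_
    refine jn 96 (by decide +kernel) ?_
    refine jn 103 (by decide +kernel) ?_
    refine jn 104 (by decide +kernel) ?_
    refine jn 109 (by decide +kernel) ?_
    refine jn 114 (by decide +kernel) ?_
    refine jn 124 (by decide +kernel) ?_
    refine jn 132 (by decide +kernel) ?_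
    refine jn 138 (by decide +kernel) ?_
    refine jn 139 (by decide +kernel) ?_
    refine jn 157 (by decide +kernel) ?_
    refine jn 171 (by decide +kernel) ?_
    refine jn 191 (by decide +kernel) ?_
    refine jn 218 (by decide +kernel) ?_
    refine jn 250 (by decide +kernel) ?_
    refine jn 279 (by decide +kernel) ?_
    refine jn 324 (by decide +kernel) ?_
    refine jn 480 (by decide +kernel) ?_
    refine jn 673 (by decide +kernel) ?_
    exact je (by decide +kernel)

end Pool.Agent.MP_2339ce_nt.NR
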