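import Pool.Agent.MP_2339ce_nt.Q2.NC.L1
import Pool.Agent.MP_2339ce_nt.Q2.NC.L9
import Pool.Agent.MP_2339ce_nt.Q2.CkI

/-! Block NR: runs. -/

set_option autoImplicit false
set_option maxRecDepth 100000

noncomputable section

namespace Pool.Agent.MP_2339ce_nt.NR

open Q2.Top

def T69_0 : Ph :=
  (.na 469 10 (.na 189 7 (.na 188 6 (.nx 187 16777217 (.nr 186 1482912 (.nx 3 200 (.nx 2 199 (.nr 1
  59 (.lg 0 true 1 37 37 9 0 1680) (.l1 .sk)) (.l1 .sk)) (.nx 53 41285 (.nr 36 155873 (.lg 0 false
  33 97 103 16 0 720720) (.nx 52 2049 (.nx 47 324 (.lg 0 false 11 73 79 16 0 1320) (.nx 48 645 .out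
  (.nr 51 185365 (.lg 0 false 3 83 83 11 0 5040) .out))) .out)) (.nr 185 220437 (.nx 151 2097153
  (.nx 139 660563 (.nr 64 956 (.lg 0 true 11 83 83 16 0 1320) (.nx 87 76448 (.nx 76 52015 (.nr 75
  185365 (.lg 1 false 11 97 103 16 88999 720720) .out) (.lg 1 false 11 101 103 16 83991 720720))
  (.nr 95 8843 (.nr 91 4213 (.lg 2 true 4 89 89 13 68752 1680) (.lg 2 true 4 79 83 13 15601 1680))
  (.nx 129 208065 (.nx 106 112360 (.lg 1 false 11 101 103 16 57147 720720) (.nx 117 165142 (.lg 1
  true 11 101 103 16 38882 720720) (.nr 128 131073 (.lg 1 true 11 97 103 16 15740 720720) .out)))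
  (.nr 138 77937 (.lg 2 false 9 89 97 16 7436 5040) .out))))) (.nr 150 217 (.lg 0 true 11 79 79 16
  0 1320) .out)) (.nr 184 24 (.lg 0 true 33 79 79 16 0 3960) .out)) .out))) .out) .out) .ne) (.na
  325 8 (.nx 324 16777217 (.nr 323 1246976 (.nx 197 257 (.nx 191 199 (.nr 190 79 (.lg 0 true 1 31
  31 9 0 1680) (.l1 .sk)) (.nx 192 200 (.l1 .sk) (.nr 193 741456 (.l1 (.ls 83 37 3724)) (.lg 0
  false 4 67 67 13 0 336)))) (.nr 322 440873 (.nx 219 32768 (.nr 209 155873 (.lg 0 false 12 97 101
  16 0 5040) (.nx 218 2049 (.nr 213 262145 (.lg 0 false 4 83 83 13 0 1680) (.nx 217 814 (.lg 0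
  false 4 79 79 13 0 336) .out)) .out)) (.nr 321 220437 (.nx 287 2097153 (.nr 231 642 (.lg 0 true
  12 89 89 16 0 5040) (.nx 286 832257 (.nr 235 2833 (.lg 2 true 4 83 83 13 128987 1680) (.nx 248
  65536 (.nr 247 185365 (.lg 1 false 12 101 107 16 112132 720720) .out) (.nr 252 12496 (.lg 2 true
  4 83 89 13 29231 1680) (.nx 276 208065 (.nx 264 121357 (.lg 1 false 12 101 107 16 66662 720720)
  (.lg 1 true 12 101 107 16 35999 720720)) (.nr 285 110219 (.lg 2 false 9 89 97 16 10508 5040)
  .out))))) .out)) (.nr 320 47 (.lg 0 true 33 79 79 16 0 5544) .out)) .out)) .out)) .out) .out)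
  (.na 468 9 (.nx 467 16777217 (.nr 466 1048577 (.nx 328 200 (.nx 327 199 (.nr 326 89 (.lg 0 true 1
  41 41 11 0 720) (.l1 .sk)) (.l1 .sk)) (.nx 432 2097153 (.nx 424 1048577 (.nr 420 623489 (.nx 347
  26007 (.nr 343 311745 (.nr 339 155873 (.lg 0 false 11 97 101 19 0 7920) (.nx 342 2049 (.lg 0
  false 3 89 89 13 0 720) .out)) (.nx 346 1025 (.lg 0 false 3 83 89 13 0 720) .out)) (.nr 419
  220437 (.nr 360 1904 (.nr 358 971 (.lg 0 true 11 83 89 19 0 7920) (.lg 2 true 2 83 83 11 107450
  240)) (.nx 372 52015 (.nr 371 185365 (.lg 1 false 11 101 107 19 141283 720720) .out) (.nr 376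
  7317 (.nr 374 3732 (.lg 2 true 2 83 83 11 54797 240) (.lg 2 true 2 83 89 11 27957 240)) (.nx 409
  208065 (.nx 398 112360 (.nx 387 76448 (.lg 1 false 11 97 107 19 83991 720720) (.lg 1 false 11 97
  107 19 57147 720720)) (.lg 1 true 11 101 107 19 38882 720720)) (.nr 418 110219 (.nr 411 14343
  (.lg 2 true 2 83 89 11 14260 240) (.lg 2 false 7 97 103 13 10508 65520)) .out))))) .out)) (.nx
  423 324 (.lg 0 false 3 73 73 13 0 144) .out)) (.nr 431 129 (.lg 0 true 7 73 79 13 0 336) .out))
  (.nr 465 55 (.lg 0 true 33 79 83 13 0 7920) .out))) .out) .out) .ne))) (.na 557 13 (.na 556 12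
  (.nx 555 2097153 (.nr 554 1048577 (.nx 471 199 (.nr 470 120 (.lg 0 true 1 31 31 11 0 240) (.l1
  .sk)) (.nx 472 200 (.l1 .sk) (.nx 544 660563 (.nx 473 257 (.l1 (.ls 83 43 2607)) (.nr 543 623489
  (.nx 491 26007 (.nr 484 155873 (.lg 0 false 11 97 101 19 0 55440) (.nx 490 1292 (.lg 0 false 6 79
  83 13 0 720) .out)) (.nr 542 220437 (.nr 501 3614 (.nr 498 925 (.lg 0 true 7 79 79 13 0 1680)
  (.lg 2 true 3 83 83 13 71056 720)) (.nr 503 14114 (.lg 2 true 2 83 83 11 18187 240) (.nx 526
  104033 (.nx 515 52015 (.nr 514 185365 (.lg 1 false 11 97 103 19 141283 55440) .out) (.lg 1 false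
  11 97 103 19 83991 55440)) (.nr 541 185365 (.nx 537 208065 (.lg 1 true 11 97 103 19 35319 55440)
  (.nr 540 65537 (.lg 2 false 3 89 89 13 6256 720) .out)) .out)))) .out)) .out)) (.nr 553 65 (.lg 0
  true 9 71 71 13 0 720) .out)))) .out) .out) .ne) (.na 613 14 (.nx 612 2097153 (.nr 611 1048577
  (.nx 603 660563 (.nx 559 199 (.nr 558 140 (.lg 0 false 1 31 31 9 0 3120) (.l1 .sk)) (.nx 560 200
  (.l1 .sk) (.nx 561 257 (.l1 (.ls 79 31 2006)) (.nr 602 623489 (.nr 597 185365 (.nx 573 48160 (.lg
  0 false 12 101 103 16 0 720720) (.nr 580 2152 (.lg 0 true 7 83 83 16 0 2184) (.nx 587 104033 (.lg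
  1 false 7 101 103 16 76294 720720) (.nr 596 155873 (.lg 2 false 9 97 103 16 30542 720720)
  .out)))) (.nx 601 1292 (.lg 0 false 4 79 79 16 0 624) .out)) .out)))) (.nr 610 65 (.lg 0 true 7
  67 67 16 0 2184) .out)) .out) .out) (.na 676 16 (.nx 675 2097153 (.nr 674 1048577 (.nx 667 660563
  (.nx 615 199 (.nr 614 160 (.lg 0 false 1 29 29 11 0 336) (.l1 .sk)) (.nx 616 200 (.l1 .sk) (.nx
  617 257 (.l1 (.ls 79 41 1863)) (.nr 666 623489 (.nr 660 185365 (.nx 628 48160 (.lg 0 false 11 101
  103 19 0 720720) (.nr 639 2318 (.lg 0 true 11 79 83 19 0 3696) (.nx 650 104033 (.lg 1 false 11 97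
  103 19 76294 720720) (.nr 659 155873 (.lg 2 false 9 89 101 19 29706 65520) .out)))) (.nx 665 1292
  (.lg 0 false 5 79 79 13 0 1680) .out)) .out)))) (.nr 673 65 (.lg 0 true 6 67 67 13 0 1008) .out))
  .out) .out) (.nx 728 2097153 (.nr 727 1048577 (.nr 677 8 .s1 (.nx 680 200 (.nx 679 199 (.nr 678
  170 (.lg 0 true 1 37 37 11 0 1680) (.l1 .sk)) (.l1 .sk)) (.nr 724 623489 (.nr 720 262145 (.nx 716
  660563 (.nr 712 185365 (.nx 691 48160 (.lg 0 false 11 97 103 23 0 55440) (.nr 694 638 (.lg 0 true
  3 79 79 13 0 144) (.nx 697 70783 (.lg 1 false 3 97 101 13 76294 5040) (.nr 699 2397 (.lg 2 true 2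
  79 83 13 103019 1680) (.nx 702 104033 (.lg 1 false 3 97 101 13 51910 5040) (.nr 711 155873 (.lg 2
  false 9 83 101 19 29706 5040) .out)))))) (.nx 715 10323 (.lg 0 false 3 89 97 13 0 5040) .out))
  (.nr 719 129 (.lg 0 true 3 73 73 13 0 144) .out)) (.nx 723 2049 (.lg 0 false 3 89 89 13 0 5040)
  .out)) (.nx 726 324 (.lg 0 false 2 71 71 13 0 48) .out)))) .out) .out)))))

def T69_1 : Ph :=
  (.na 200 251 (.na 114 223 (.na 57 211 (.na 22 204 (.na 11 201 (.nx 10 1048577 (.nr 9 1048577 (.nr
  1 200 .s1 (.nx 7 131073 (.nx 3 200 (.nr 2 2013 (.l1 (.ls 31 29 202)) (.l1 .sk)) (.nx 4 201 (.l1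
  .sk) (.nr 5 65537 (.lg 0 true 1 79 83 31 0 720) (.nx 6 16385 (.lg 0 false 1 83 89 31 0 720)
  .out)))) (.nr 8 1025 (.lg 0 true 1 67 71 31 0 720) .out))) .out) .out) (.nx 21 1048577 (.nr 20
  1048577 (.nr 12 201 .s1 (.nx 18 131073 (.nx 14 200 (.nr 13 2043 (.l1 (.ls 23 19 202)) (.l1 .sk))
  (.nx 15 201 (.l1 .sk) (.nr 16 65537 (.lg 0 true 1 83 83 19 0 720) (.nx 17 16385 (.lg 0 false 1 83
  83 19 0 360) .out)))) (.nr 19 1025 (.lg 0 true 1 61 61 19 0 360) .out))) .out) .out)) (.na 33 205
  (.nx 32 1048577 (.nr 31 1048577 (.nr 23 204 .s1 (.nx 25 200 (.nr 24 2053 (.l1 (.ls 37 37 199))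
  (.l1 .sk)) (.nx 26 201 (.l1 .sk) (.nx 29 131073 (.nr 27 65537 (.lg 0 true 1 89 89 37 0 720) (.nx
  28 16385 (.lg 0 false 1 89 97 37 0 720) .out)) (.nr 30 1025 (.lg 0 true 1 73 73 37 0 720)
  .out))))) .out) .out) (.na 46 209 (.nx 45 1048577 (.nr 44 1048577 (.nr 34 205 .s1 (.nx 37 201
  (.nx 36 200 (.nr 35 2093 (.l1 (.ls 19 19 198)) (.l1 .sk)) (.l1 .sk)) (.nx 40 32769 (.lg 0 false 3
  79 79 19 0 360) (.nr 43 16385 (.nr 41 1025 (.lg 0 false 1 67 67 17 0 360) (.nx 42 131073 (.lg 2
  false 1 53 53 17 12788 360) .out)) .out)))) .out) .out) (.nx 56 1048577 (.nr 55 1048577 (.nr 47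
  209 .s1 (.nx 53 131073 (.nx 49 200 (.nr 48 2113 (.l1 (.ls 17 17 194)) (.l1 .sk)) (.nx 50 201 (.l1
  .sk) (.nr 51 65537 (.lg 0 false 1 83 83 17 0 3960) (.nx 52 16385 (.lg 0 true 1 89 89 17 0 3960)
  .out)))) (.nr 54 1025 (.lg 0 true 1 67 67 17 0 3960) .out))) .out) .out)))) (.na 81 216 (.na 68
  215 (.nx 67 1048577 (.nr 66 1048577 (.nr 58 211 .s1 (.nx 61 201 (.nx 60 200 (.nr 59 2153 (.l1
  (.ls 19 17 192)) (.l1 .sk)) (.l1 .sk)) (.nx 64 32769 (.lg 0 false 3 73 73 17 0 360) (.nr 65 16385
  (.lg 0 false 1 79 79 16 0 720) .out)))) .out) .out) (.nx 80 1048577 (.nr 79 1048577 (.nr 69 215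
  .s1 (.nx 75 32769 (.nx 71 200 (.nr 70 2163 (.l1 (.ls 19 19 189)) (.l1 .sk)) (.nx 72 201 (.l1 .sk)
  (.lg 0 false 3 79 79 19 0 360))) (.nr 78 16385 (.nr 76 1025 (.lg 0 false 1 61 61 17 0 360) (.nx
  77 131073 (.lg 2 true 1 53 53 17 12788 720) .out)) .out))) .out) .out)) (.na 92 219 (.nx 91
  1048577 (.nr 90 1048577 (.nr 82 216 .s1 (.nx 88 131073 (.nx 84 200 (.nr 83 2193 (.l1 (.ls 29 31
  188)) (.l1 .sk)) (.nx 85 201 (.l1 .sk) (.nr 86 65537 (.lg 0 true 1 79 79 29 0 720) (.nx 87 16385
  (.lg 0 false 1 83 83 29 0 720) .out)))) (.nr 89 1025 (.lg 0 true 1 61 61 29 0 720) .out))) .out)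
  .out) (.na 103 220 (.nx 102 1048577 (.nr 101 1048577 (.nr 93 219 .s1 (.nx 96 201 (.nx 95 200 (.nr
  94 2203 (.l1 (.ls 23 19 185)) (.l1 .sk)) (.l1 .sk)) (.nx 99 131073 (.nr 97 65537 (.lg 0 true 1 83
  83 19 0 720) (.nx 98 16385 (.lg 0 false 1 83 83 19 0 360) .out)) (.nr 100 1025 (.lg 0 true 1 61
  61 19 0 360) .out)))) .out) .out) (.nx 113 1048577 (.nr 112 1048577 (.nr 104 220 .s1 (.nx 107 201
  (.nx 106 200 (.nr 105 2233 (.l1 (.ls 29 31 184)) (.l1 .sk)) (.l1 .sk)) (.nr 110 65537 (.nx 108
  131073 (.lg 0 false 1 83 83 31 0 7920) (.nr 109 1025 (.lg 0 true 1 61 61 31 0 7920) .out)) (.nx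
  111 16385 (.lg 0 false 1 83 83 31 0 7920) .out)))) .out) .out))))) (.na 149 233 (.na 126 227 (.na
  115 225 (.lg 0 false 1 0 0 16 0 24) (.nx 125 1048577 (.nr 124 1048577 (.nr 116 225 .s1 (.nx 119
  201 (.nx 118 200 (.nr 117 2273 (.l1 (.ls 37 23 180)) (.l1 .sk)) (.l1 .sk)) (.nx 122 131073 (.nr
  120 65537 (.lg 0 true 1 83 89 29 0 720) (.nx 121 16385 (.lg 0 false 1 83 89 29 0 720) .out)) (.nr
  123 1025 (.lg 0 true 1 67 71 29 0 360) .out)))) .out) .out)) (.na 137 228 (.nx 136 1048577 (.nr
  135 1048577 (.nr 127 227 .s1 (.nx 129 200 (.nr 128 2283 (.l1 (.ls 17 17 179)) (.l1 .sk)) (.nx 130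
  201 (.l1 .sk) (.nx 133 32769 (.lg 0 false 3 73 73 19 0 360) (.nr 134 16385 (.lg 0 false 1 79 79
  17 0 7920) .out))))) .out) .out) (.na 148 229 (.nx 147 1048577 (.nr 146 1048577 (.nr 138 228 .s1
  (.nx 144 131073 (.nx 140 200 (.nr 139 2293 (.l1 (.ls 17 37 178)) (.l1 .sk)) (.nx 141 201 (.l1
  .sk) (.nr 142 65537 (.lg 0 true 1 83 89 37 0 720) (.nx 143 16385 (.lg 0 false 1 89 89 37 0 720)
  .out)))) (.nr 145 1025 (.lg 0 true 1 71 71 37 0 720) .out))) .out) .out) (.lg 0 false 1 0 0 16 0
  24)))) (.na 170 241 (.na 158 236 (.nx 157 1048577 (.nr 156 1048577 (.nr 150 233 .s1 (.nx 152 200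
  (.nr 151 2363 (.l1 (.ls 17 17 174)) (.l1 .sk)) (.nx 153 201 (.l1 .sk) (.nx 154 32769 (.lg 0 true
  1 83 83 17 0 720) (.nr 155 16385 (.lg 0 false 1 79 79 17 0 720) .out))))) .out) .out) (.na 169
  239 (.nx 168 1048577 (.nr 167 1048577 (.nr 159 236 .s1 (.nx 165 131073 (.nx 161 200 (.nr 160 2393
  (.l1 (.ls 29 23 172)) (.l1 .sk)) (.nx 162 201 (.l1 .sk) (.nr 163 65537 (.lg 0 false 1 83 83 23 0
  720) (.nx 164 16385 (.lg 0 false 1 83 83 23 0 720) .out)))) (.nr 166 1025 (.lg 0 true 1 67 67 23
  0 720) .out))) .out) .out) (.lg 0 false 1 0 0 16 0 24))) (.na 180 243 (.nx 179 1048577 (.nr 178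
  1048577 (.nr 171 241 .s1 (.nx 174 201 (.nx 173 200 (.nr 172 2434 (.l1 (.ls 17 17 168)) (.l1 .sk))
  (.l1 .sk)) (.nx 176 32769 (.lg 0 false 2 73 73 17 0 720) (.nr 177 16385 (.lg 0 false 1 73 73 17 0
  360) .out)))) .out) .out) (.na 189 249 (.nx 188 1048577 (.nr 187 1048577 (.nr 181 243 .s1 (.nx
  185 32769 (.nx 183 200 (.nr 182 2494 (.l1 (.ls 17 19 167)) (.l1 .sk)) (.nx 184 201 (.l1 .sk) (.lg
  0 true 1 79 79 19 0 360))) (.nr 186 16385 (.lg 0 false 1 73 73 19 0 360) .out))) .out) .out) (.nx
  199 1048577 (.nr 198 1048577 (.nr 190 249 .s1 (.nx 192 200 (.nr 191 2514 (.l1 (.ls 23 19 163))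
  (.l1 .sk)) (.nx 193 201 (.l1 .sk) (.nr 196 65537 (.nx 194 131073 (.lg 0 true 1 73 73 23 0 360)
  (.nr 195 1025 (.lg 0 true 1 59 59 23 0 360) .out)) (.nx 197 16385 (.lg 0 false 1 79 79 23 0 360)
  .out))))) .out) .out)))))) (.na 6019 4096 (.na 1219 512 (.na 220 256 (.na 209 255 (.nx 208
  1048577 (.nr 207 1048577 (.nr 201 251 .s1 (.nx 204 201 (.nx 203 200 (.nr 202 2554 (.l1 (.ls 17 17
  162)) (.l1 .sk)) (.l1 .sk)) (.nx 205 32769 (.lg 0 true 1 79 79 17 0 360) (.nr 206 16385 (.lg 0
  false 1 73 73 17 0 360) .out)))) .out) .out) (.nx 219 1048577 (.nr 218 1048577 (.nr 210 255 .s1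
  (.nx 216 131073 (.nx 212 200 (.nr 211 2564 (.l1 (.ls 16 29 159)) (.l1 .sk)) (.nx 213 201 (.l1
  .sk) (.nr 214 65537 (.lg 0 true 1 79 79 29 0 720) (.nx 215 16385 (.lg 0 false 1 79 79 29 0 360)
  .out)))) (.nr 217 1025 (.lg 0 true 1 61 61 29 0 360) .out))) .out) .out)) (.na 221 257 .ne (.na
  709 363 (.nx 708 1048577 (.nr 707 1482912 (.nr 222 257 .s1 (.nx 330 201 (.nx 329 200 (.nr 328
  3635 (.la (.ls 37 19 158)) (.l1 .sk)) (.l1 .sk)) (.nx 493 20644 (.nx 386 257 (.lx (.lp 79 17 91))
  (.nr 492 1048577 (.la (.lg 0 false 1 79 79 23 0)) .out)) (.nr 706 32769 (.nr 599 2049 (.la (.lg 0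
  true 1 67 67 23 0)) (.nx 705 131073 (.la (.lg 2 true 1 67 67 23 31942)) .out)) .out)))) .out)
  .out) (.nx 1218 1048577 (.nr 1217 1482912 (.nr 710 363 .s1 (.nx 1067 20644 (.nx 917 257 (.nx 860
  200 (.nr 859 5127 (.la (.ls 31 19 129)) (.l1 .sk)) (.nx 861 201 (.l1 .sk) (.lx (.lp 71 19 129))))
  (.nr 1066 1048577 (.la (.lg 0 false 1 73 73 23 0)) .out)) (.nr 1216 32769 (.la (.lg 2 true 1 71
  71 23 288865)) .out))) .out) .out)))) (.na 3363 1449 (.na 1907 725 (.nx 1906 1048577 (.nr 1905
  1482912 (.nr 1220 512 .s1 (.nx 1421 201 (.nx 1420 200 (.nr 1419 7260 (.lx (.lp 31 19 182)) (.l1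
  .sk)) (.l1 .sk)) (.nx 1477 257 (.lx (.lp 71 19 182)) (.nr 1904 1048577 (.nx 1690 20644 (.la (.lg
  0 false 1 71 71 29 0)) (.nr 1903 32769 (.la (.lg 2 true 1 67 67 29 204801)) .out)) .out)))) .out)
  .out) (.na 2509 1024 (.nx 2508 13005 (.nr 2507 1048577 (.nr 1908 725 .s1 (.nx 2207 2049 (.la (.ls
  67 41 5793)) (.nr 2506 65537 (.la (.lg 0 false 1 47 47 29 0)) .out))) .out) .out) (.nx 3362 13005
  (.nr 3361 1048577 (.nr 2510 1024 .s1 (.nx 2935 3252 (.la (.ls 67 41 10330)) (.nr 3360 32769 (.la
  (.lg 0 false 1 37 41 31 0)) .out))) .out) .out))) (.na 3965 2048 (.nx 3964 8193 (.nr 3963 1048577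
  (.nr 3364 1449 .s1 (.la (.ls 61 47 46328))) .out) .out) (.na 4817 2897 (.nx 4816 8193 (.nr 4815
  1048577 (.nr 3966 2048 .s1 (.la (.ls 59 47 32779))) .out) .out) (.nx 6018 3252 (.nr 6017 524289
  (.nr 4818 2897 .s1 (.la (.ls 53 37 3653))) .out) .out))))) (.na 13099 32768 (.na 9215 8192 (.na
  7920 5793 (.nx 7919 3252 (.nr 7918 524289 (.nr 6020 4096 .s1 (.nx 6221 201 (.nx 6220 200 (.nr
  6219 58003 (.lx (.lp 37 37 1449)) (.l1 .sk)) (.l1 .sk)) (.la (.ls 53 37 2575)))) .out) .out) (.nx
  9214 1292 (.nr 9213 262145 (.nr 7921 5793 .s1 (.nx 8734 814 (.lx (.lp 43 37 2049)) (.nr 9212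
  65537 (.lx (.lp 37 37 2049)) .out))) .out) .out)) (.na 10510 11586 (.nx 10509 1292 (.nr 10508
  262145 (.nr 9216 8192 .s1 (.nx 10029 814 (.lx (.lp 43 41 2897)) (.nr 10507 131073 (.lx (.lp 41 41
  2897)) .out))) .out) .out) (.na 11804 16384 (.nx 11803 1292 (.nr 11802 131073 (.nr 10511 11586
  .s1 (.lx (.lp 37 41 4097))) .out) .out) (.nx 13098 1292 (.nr 13097 262145 (.nr 11805 16384 .s1
  (.nx 12061 257 (.lx (.lp 37 43 8193)) (.nr 13096 131073 (.lx (.lp 31 43 8193)) .out))) .out)
  .out)))) (.na 16204 262144 (.na 14394 65536 (.nx 14393 1292 (.nr 14392 262145 (.nr 13100 32768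
  .s1 (.nx 13745 645 (.nx 13356 257 (.lx (.lp 16 43 16385)) (.nr 13744 131073 (.lx (.lp 29 47
  16385)) .out)) (.lx (.lp 31 47 16385)))) .out) .out) (.na 15689 131072 (.nx 15688 1292 (.nr 15687
  524289 (.nr 14395 65536 .s1 (.nx 14651 257 (.lx (.lp 16 0 32769)) (.nr 15686 262145 (.lx (.lp 29
  53 32769)) .out))) .out) .out) (.nx 16203 513 (.nr 16202 524289 (.nr 15690 131072 .s1 (.lx (.lp
  31 59 65537))) .out) .out))) (.na 16719 524288 (.nx 16718 513 (.nr 16717 1048577 (.nr 16205
  262144 .s1 (.lx (.lp 16 0 131073))) .out) .out) (.na 16721 1048577 (.nx 16720 257 (.l1 .sk) .out)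
  .out))))))

def T69_2 : Ph :=
  (.na 320 137 (.na 194 58 (.na 132 23 (.na 88 8 (.na 64 4 (.na 42 2 (.nx 41 52017 (.nr 40 311745
  (.nx 17 27 (.nx 2 7 (.nr 1 3 (.lg 0 true 1 0 16 5 0 18480) (.l1 .sk)) (.nx 3 8 (.l1 .sk) (.nr 4
  77941 (.l1 (.ls 79 23 668)) (.lg 0 false 13 71 71 9 0 2184)))) (.nr 39 4872 (.nr 30 155 (.lg 0
  false 13 67 67 9 0 2184) (.nx 38 10323 (.nx 34 433 (.lg 0 true 4 73 73 7 0 336) (.lg 2 true 4 71
  71 7 277 336)) .out)) .out)) .out) .out) (.na 63 3 (.nx 62 52017 (.nr 61 3446 (.nx 55 10323 (.nx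
  44 7 (.nr 43 6 (.lg 0 false 1 0 16 5 0 144144) (.l1 .sk)) (.nx 45 8 (.l1 .sk) (.lg 0 false 10 71
  71 9 0 1680))) (.nr 60 154 (.lg 0 false 5 71 71 9 0 1680) .out)) .out) .out) .ne)) (.na 76 5 (.nx
  75 20644 (.nr 74 2437 (.nr 65 4 .s1 (.nx 70 1627 (.nx 66 243 (.l1 (.ls 59 47 14765)) (.nx 69 1113
  (.nx 67 520 (.l1 (.ls 61 59 52840)) (.nx 68 761 (.l1 (.ls 59 61 77183)) (.l1 (.ls 61 67
  164915)))) (.l1 (.ls 67 71 352093)))) (.nr 73 109 (.lg 0 false 3 61 61 9 0 1008) .out))) .out)
  .out) (.na 77 7 .ne (.nx 87 20644 (.nr 86 4097 (.nr 78 7 .s1 (.nx 80 7 (.nr 79 16 (.l1 (.ls 16 11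
  9)) (.l1 .sk)) (.nx 81 8 (.l1 .sk) (.lg 0 false 5 67 67 11 0 840)))) .out) .out)))) (.na 109 14
  (.na 99 9 (.nx 98 20644 (.nr 97 3446 (.nr 89 8 .s1 (.nx 95 10323 (.nx 91 7 (.nr 90 18 (.l1 (.ls
  16 9 9)) (.l1 .sk)) (.nx 92 8 (.l1 .sk) (.lg 0 false 3 67 67 13 0 1008))) (.nr 96 65 (.lg 0 true
  1 53 53 11 0 336) .out))) .out) .out) (.na 100 11 .ne (.nx 108 20644 (.nr 107 3446 (.nr 101 11
  .s1 (.nx 104 8 (.nx 103 7 (.nr 102 28 (.l1 (.ls 16 9 7)) (.l1 .sk)) (.l1 .sk)) (.lg 0 false 3 71
  71 9 0 5544))) .out) .out))) (.na 118 16 (.nx 117 20644 (.nr 116 3446 (.nr 110 14 .s1 (.nx 113 8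
  (.nx 112 7 (.nr 111 31 (.l1 (.ls 16 11 6)) (.l1 .sk)) (.l1 .sk)) (.lg 0 false 3 67 67 13 0
  1008))) .out) .out) (.na 125 22 (.nx 124 20644 (.nr 123 6890 (.nr 119 16 .s1 (.nx 120 27 (.l1
  (.ls 53 13 48)) (.nr 122 3446 (.lg 0 false 2 71 71 13 0 1680) .out))) .out) .out) (.nx 131 20644
  (.nr 130 6890 (.nr 126 22 .s1 (.nx 127 27 (.l1 (.ls 43 17 36)) (.nr 129 3446 (.lg 0 false 2 67 67
  13 0 3696) .out))) .out) .out))))) (.na 163 43 (.na 150 32 (.na 138 28 (.nx 137 20644 (.nr 136
  6890 (.nr 133 23 .s1 (.nx 134 163 (.l1 (.ls 47 29 1158)) (.nr 135 257 (.lg 0 true 1 53 53 11 0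
  168) .out))) .out) .out) (.na 144 29 (.nx 143 20644 (.nr 142 6890 (.nr 139 28 .s1 (.nx 140 163
  (.l1 (.ls 41 37 951)) (.nr 141 257 (.lg 0 false 1 47 47 13 0 336) .out))) .out) .out) (.nx 149
  20644 (.nr 148 6890 (.nr 145 29 .s1 (.nx 146 163 (.l1 (.ls 43 23 919)) (.nr 147 257 (.lg 0 false
  1 53 53 13 0 168) .out))) .out) .out))) (.na 156 33 (.nx 155 20644 (.nr 154 6890 (.nr 151 32 .s1
  (.nx 152 27 (.l1 (.ls 43 13 25)) (.nr 153 2049 (.lg 0 false 1 67 67 13 0 336) .out))) .out) .out)
  (.na 157 37 .ne (.nx 162 10323 (.nr 161 4097 (.nr 158 37 .s1 (.nx 159 27 (.l1 (.ls 31 16 22))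
  (.nr 160 1724 (.lg 0 false 1 59 59 16 0 336) .out))) .out) .out)))) (.na 181 49 (.na 169 44 (.nx
  168 10323 (.nr 167 4097 (.nr 164 43 .s1 (.nx 165 27 (.l1 (.ls 31 16 19)) (.nr 166 1724 (.lg 0
  false 1 59 59 16 0 168) .out))) .out) .out) (.na 175 46 (.nx 174 10323 (.nr 173 4097 (.nr 170 44
  .s1 (.nx 171 27 (.l1 (.ls 41 13 19)) (.nr 172 1724 (.lg 0 false 1 59 59 19 0 3696) .out))) .out)
  .out) (.nx 180 10323 (.nr 179 4097 (.nr 176 46 .s1 (.nx 177 163 (.l1 (.ls 41 37 580)) (.nr 178
  513 (.lg 0 true 1 47 47 13 0 1680) .out))) .out) .out))) (.na 182 53 (.lg 0 false 1 0 0 16 0 24)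
  (.na 188 56 (.nx 187 10323 (.nr 186 4097 (.nr 183 53 .s1 (.nx 184 27 (.l1 (.ls 29 16 16)) (.nr
  185 1724 (.lg 0 false 1 53 53 16 0 336) .out))) .out) .out) (.nx 193 10323 (.nr 192 4097 (.nr 189
  56 .s1 (.nx 190 27 (.l1 (.ls 43 13 16)) (.nr 191 1724 (.lg 0 true 1 53 53 19 0 336) .out))) .out)
  .out)))))) (.na 258 106 (.na 225 77 (.na 207 67 (.na 200 64 (.nx 199 10323 (.nr 198 4097 (.nr 195
  58 .s1 (.nx 196 163 (.l1 (.ls 23 23 461)) (.nr 197 513 (.lg 2 false 1 29 29 13 623 336) .out)))
  .out) .out) (.na 206 65 (.nx 205 20644 (.nr 204 4097 (.nr 201 64 .s1 (.nx 202 163 (.l1 (.ls 41 29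
  418)) (.nr 203 513 (.lg 0 true 1 47 47 17 0 336) .out))) .out) .out) .ne)) (.na 213 71 (.nx 212
  20644 (.nr 211 2049 (.nr 208 67 .s1 (.nx 209 163 (.l1 (.ls 29 19 399)) (.nr 210 513 (.lg 2 false
  1 29 29 16 1079 3696) .out))) .out) .out) (.na 219 74 (.nx 218 20644 (.nr 217 2049 (.nr 214 71
  .s1 (.nx 215 163 (.l1 (.ls 29 19 377)) (.nr 216 513 (.lg 2 true 1 23 23 16 1018 1680) .out)))
  .out) .out) (.nx 224 20644 (.nr 223 2049 (.nr 220 74 .s1 (.nx 221 163 (.l1 (.ls 29 29 362)) (.nr
  222 513 (.lg 2 false 1 23 23 13 977 1680) .out))) .out) .out)))) (.na 243 88 (.na 231 79 (.nx 230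
  20644 (.nr 229 2049 (.nr 226 77 .s1 (.nx 227 163 (.l1 (.ls 29 29 348)) (.nr 228 513 (.lg 2 false
  1 23 23 17 939 3696) .out))) .out) .out) (.na 237 86 (.nx 236 20644 (.nr 235 2049 (.nr 232 79 .s1
  (.nx 233 163 (.l1 (.ls 23 19 339)) (.nr 234 513 (.lg 2 true 1 19 19 16 915 1680) .out))) .out)
  .out) (.nx 242 20644 (.nr 241 2049 (.nr 238 86 .s1 (.nx 239 163 (.l1 (.ls 29 29 311)) (.nr 240
  513 (.lg 2 false 1 19 19 13 841 1680) .out))) .out) .out))) (.na 250 92 (.nx 249 20644 (.nr 248
  2049 (.nr 244 88 .s1 (.nx 246 7 (.nr 245 179 (.l1 (.ls 17 13 24)) (.l1 .sk)) (.nx 247 8 (.l1 .sk)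
  (.lg 0 true 1 59 59 29 0 3696)))) .out) .out) (.na 257 98 (.nx 256 20644 (.nr 255 2049 (.nr 251
  92 .s1 (.nx 253 7 (.nr 252 191 (.l1 (.ls 16 13 25)) (.l1 .sk)) (.nx 254 8 (.l1 .sk) (.lg 0 true 1
  59 59 19 0 336)))) .out) .out) (.lg 0 false 1 0 0 16 0 24))))) (.na 294 121 (.na 276 112 (.na 264
  107 (.nx 263 20644 (.nr 262 2049 (.nr 259 106 .s1 (.nx 260 163 (.l1 (.ls 29 23 253)) (.nr 261 513
  (.lg 2 false 1 17 17 19 682 1680) .out))) .out) .out) (.na 270 109 (.nx 269 20644 (.nr 268 2049
  (.nr 265 107 .s1 (.nx 266 163 (.l1 (.ls 17 17 251)) (.nr 267 513 (.lg 2 false 1 16 16 16 676 336)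
  .out))) .out) .out) (.nx 275 20644 (.nr 274 2049 (.nr 271 109 .s1 (.nx 272 163 (.l1 (.ls 23 17
  246)) (.nr 273 513 (.lg 2 false 1 19 19 16 663 18480) .out))) .out) .out))) (.na 282 113 (.nx 281
  20644 (.nr 280 2049 (.nr 277 112 .s1 (.nx 278 163 (.l1 (.ls 29 29 240)) (.nr 279 513 (.lg 2 true
  1 19 19 23 646 336) .out))) .out) .out) (.na 288 116 (.nx 287 20644 (.nr 286 2049 (.nr 283 113
  .s1 (.nx 284 163 (.l1 (.ls 19 17 238)) (.nr 285 513 (.lg 2 true 1 17 17 16 640 336) .out))) .out)
  .out) (.nx 293 20644 (.nr 292 2049 (.nr 289 116 .s1 (.nx 290 163 (.l1 (.ls 23 23 232)) (.nr 291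
  513 (.lg 2 true 1 19 19 19 623 1680) .out))) .out) .out)))) (.na 312 129 (.na 300 127 (.nx 299
  20644 (.nr 298 2049 (.nr 295 121 .s1 (.nx 296 163 (.l1 (.ls 29 19 222)) (.nr 297 513 (.lg 2 true
  1 19 19 17 598 18480) .out))) .out) .out) (.na 306 128 (.nx 305 20644 (.nr 304 2049 (.nr 301 127
  .s1 (.nx 302 163 (.l1 (.ls 17 17 212)) (.nr 303 513 (.lg 2 true 1 16 16 16 569 336) .out))) .out)
  .out) (.nx 311 20644 (.nr 310 2049 (.nr 307 128 .s1 (.nx 308 163 (.l1 (.ls 29 23 210)) (.nr 309
  513 (.lg 2 true 1 17 19 19 565 336) .out))) .out) .out))) (.na 313 131 .ne (.na 314 134 (.lg 0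
  false 1 0 0 16 0 24) (.nx 319 10323 (.nr 318 2049 (.nr 315 134 .s1 (.nx 316 163 (.l1 (.ls 23 23
  201)) (.nr 317 513 (.lg 2 false 1 16 16 19 270 240240) .out))) .out) .out))))))) (.na 429 211
  (.na 377 172 (.na 351 154 (.na 333 148 (.na 326 139 (.nx 325 10323 (.nr 324 2049 (.nr 321 137 .s1
  (.nx 322 163 (.l1 (.ls 17 17 196)) (.nr 323 513 (.lg 2 true 1 16 16 16 264 240240) .out))) .out)
  .out) (.na 327 142 (.lg 0 false 1 0 0 16 0 24) (.nx 332 10323 (.nr 331 2049 (.nr 328 142 .s1 (.nx
  329 163 (.l1 (.ls 19 23 190)) (.nr 330 513 (.lg 2 true 1 16 16 19 255 18480) .out))) .out)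
  .out))) (.na 339 149 (.nx 338 10323 (.nr 337 2049 (.nr 334 148 .s1 (.nx 335 163 (.l1 (.ls 23 23
  182)) (.nr 336 513 (.lg 2 true 1 16 16 23 245 336) .out))) .out) .out) (.na 345 151 (.nx 344
  10323 (.nr 343 2049 (.nr 340 149 .s1 (.nx 341 163 (.l1 (.ls 29 17 181)) (.nr 342 513 (.lg 2 true
  1 17 17 16 243 720720) .out))) .out) .out) (.nx 350 10323 (.nr 349 2049 (.nr 346 151 .s1 (.nx 347
  163 (.l1 (.ls 17 17 178)) (.nr 348 513 (.lg 2 false 1 16 16 16 240 18480) .out))) .out) .out))))
  (.na 364 161 (.na 357 157 (.nx 356 10323 (.nr 355 2049 (.nr 352 154 .s1 (.nx 353 163 (.l1 (.ls 23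
  31 175)) (.nr 354 513 (.lg 2 false 1 16 16 29 235 240240) .out))) .out) .out) (.na 358 158 (.lg 0
  false 1 0 0 16 0 24) (.nx 363 10323 (.nr 362 2049 (.nr 359 158 .s1 (.nx 360 163 (.l1 (.ls 19 23
  171)) (.nr 361 513 (.lg 2 false 1 17 17 19 229 720720) .out))) .out) .out))) (.na 370 163 (.nx
  369 10323 (.nr 368 2049 (.nr 365 161 .s1 (.nx 366 163 (.l1 (.ls 19 19 168)) (.nr 367 513 (.lg 2
  false 1 16 16 17 225 18480) .out))) .out) .out) (.na 376 167 (.nx 375 10323 (.nr 374 2049 (.nr
  371 163 .s1 (.nx 372 163 (.l1 (.ls 16 17 165)) (.nr 373 513 (.lg 2 false 1 16 16 16 222 240240)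
  .out))) .out) .out) (.lg 0 false 1 0 0 16 0 24))))) (.na 403 191 (.na 390 179 (.na 383 173 (.nx
  382 10323 (.nr 381 2049 (.nr 378 172 .s1 (.nx 379 163 (.l1 (.ls 23 23 157)) (.nr 380 513 (.lg 2
  false 1 16 16 23 211 18480) .out))) .out) .out) (.na 384 176 (.lg 0 false 1 0 0 16 0 24) (.nx 389
  10323 (.nr 388 2049 (.nr 385 176 .s1 (.nx 386 163 (.l1 (.ls 37 29 153)) (.nr 387 513 (.lg 2 false
  1 17 23 31 206 720720) .out))) .out) .out))) (.na 396 181 (.nx 395 10323 (.nr 394 2049 (.nr 391
  179 .s1 (.nx 392 163 (.l1 (.ls 17 17 151)) (.nr 393 513 (.lg 2 false 1 16 16 16 202 720720)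
  .out))) .out) .out) (.na 397 184 (.lg 0 false 1 0 0 16 0 24) (.nx 402 10323 (.nr 401 2049 (.nr
  398 184 .s1 (.nx 399 163 (.l1 (.ls 19 19 147)) (.nr 400 513 (.lg 2 false 1 16 17 31 197 1680)
  .out))) .out) .out)))) (.na 416 197 (.na 409 193 (.nx 408 10323 (.nr 407 2049 (.nr 404 191 .s1
  (.nx 405 163 (.l1 (.ls 19 17 142)) (.nr 406 513 (.lg 2 true 1 16 16 16 190 720720) .out))) .out)
  .out) (.na 415 196 (.nx 414 10323 (.nr 413 2049 (.nr 410 193 .s1 (.nx 411 163 (.l1 (.ls 17 17
  140)) (.nr 412 513 (.lg 2 true 1 16 16 16 188 720720) .out))) .out) .out) (.lg 0 false 1 0 0 16 0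
  24))) (.na 422 199 (.nx 421 10323 (.nr 420 2049 (.nr 417 197 .s1 (.nx 418 163 (.l1 (.ls 16 17
  137)) (.nr 419 513 (.lg 2 true 1 16 16 16 184 720720) .out))) .out) .out) (.na 423 203 (.lg 0
  false 1 0 0 16 0 24) (.nx 428 10323 (.nr 427 2049 (.nr 424 203 .s1 (.nx 425 163 (.l1 (.ls 16 19
  133)) (.nr 426 513 (.lg 2 true 1 16 16 17 178 720720) .out))) .out) .out)))))) (.na 486 241 (.na
  460 226 (.na 447 218 (.na 435 212 (.nx 434 10323 (.nr 433 2049 (.nr 430 211 .s1 (.nx 431 163 (.l1
  (.ls 17 17 128)) (.nr 432 513 (.lg 2 false 1 16 16 16 172 720720) .out))) .out) .out) (.na 441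
  214 (.nx 440 10323 (.nr 439 2049 (.nr 436 212 .s1 (.nx 437 163 (.l1 (.ls 23 23 128)) (.nr 438 513
  (.lg 2 false 1 17 17 23 171 720720) .out))) .out) .out) (.nx 446 10323 (.nr 445 2049 (.nr 442 214
  .s1 (.nx 443 163 (.l1 (.ls 17 23 127)) (.nr 444 513 (.lg 2 true 1 16 16 23 169 720720) .out)))
  .out) .out))) (.na 453 223 (.nx 452 10323 (.nr 451 2049 (.nr 448 218 .s1 (.nx 449 163 (.l1 (.ls
  16 23 124)) (.nr 450 513 (.lg 2 false 1 16 16 19 166 720720) .out))) .out) .out) (.na 454 224
  (.lg 0 false 1 0 0 16 0 24) (.nx 459 10323 (.nr 458 2049 (.nr 455 224 .s1 (.nx 456 163 (.l1 (.ls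
  23 29 121)) (.nr 457 513 (.lg 2 false 1 16 16 29 162 18480) .out))) .out) .out)))) (.na 468 232
  (.na 466 227 (.nx 465 10323 (.nr 464 2049 (.nr 461 226 .s1 (.nx 462 163 (.l1 (.ls 17 23 120))
  (.nr 463 513 (.lg 2 false 1 16 16 19 160 720720) .out))) .out) .out) (.na 467 229 (.lg 0 false 1
  0 0 16 0 24) (.lg 0 false 1 0 0 16 0 24))) (.na 474 233 (.nx 473 10323 (.nr 472 2049 (.nr 469 232
  .s1 (.nx 470 163 (.l1 (.ls 23 23 117)) (.nr 471 513 (.lg 2 false 1 17 19 23 156 240240) .out)))
  .out) .out) (.na 480 239 (.nx 479 10323 (.nr 478 2049 (.nr 475 233 .s1 (.nx 476 163 (.l1 (.ls 16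
  17 117)) (.nr 477 513 (.lg 2 false 1 16 16 16 156 720720) .out))) .out) .out) (.nx 485 10323 (.nr
  484 2049 (.nr 481 239 .s1 (.nx 482 163 (.l1 (.ls 17 17 114)) (.nr 483 513 (.lg 2 false 1 16 16 16
  152 720720) .out))) .out) .out))))) (.na 512 257 (.na 494 253 (.na 487 242 (.lg 0 false 1 0 0 16
  0 24) (.na 493 251 (.nx 492 10323 (.nr 491 2049 (.nr 488 242 .s1 (.nx 489 163 (.l1 (.ls 17 29
  112)) (.nr 490 513 (.lg 2 false 1 16 16 23 150 720720) .out))) .out) .out) (.lg 0 false 1 0 0 16
  0 24))) (.na 500 254 (.nx 499 10323 (.nr 498 2049 (.nr 495 253 .s1 (.nx 496 163 (.l1 (.ls 19 19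
  108)) (.nr 497 513 (.lg 2 false 1 16 16 19 143 240240) .out))) .out) .out) (.na 506 256 (.nx 505
  10323 (.nr 504 2049 (.nr 501 254 .s1 (.nx 502 163 (.l1 (.ls 19 23 107)) (.nr 503 513 (.lg 2 false
  1 16 16 23 143 720720) .out))) .out) .out) (.nx 511 10323 (.nr 510 4097 (.nr 507 256 .s1 (.nx 508
  163 (.l1 (.ls 31 23 106)) (.nr 509 513 (.lg 2 false 1 17 17 23 142 720720) .out))) .out) .out))))
  (.na 926 2048 (.na 677 512 (.nx 676 163 (.nr 675 4097 (.nr 513 257 .s1 (.lx (.lp 41 19 129)))
  .out) .out) (.na 842 1024 (.nx 841 163 (.nr 840 4097 (.nr 678 512 .s1 (.lx (.lp 37 23 257)))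
  .out) .out) (.nx 925 82 (.nr 924 8193 (.nr 843 1024 .s1 (.lx (.lp 16 0 513))) .out) .out))) (.na
  1010 4096 (.nx 1009 82 (.nr 1008 8193 (.nr 927 2048 .s1 (.lx (.lp 17 23 1025))) .out) .out) (.na
  1094 8193 (.nx 1093 82 (.nr 1092 16385 (.nr 1011 4096 .s1 (.lx (.lp 16 0 2049))) .out) .out)
  .out)))))))

theorem c69 :
    OkQ ckI L9 199 5 17 0 34359738368 1 1099511627776 ∧
    OkQ ckI L9 200 200 1099511627776 0 34359738368 1 1099511627776 ∧
    OkQ ckI L1 7 1 1099511627776 0 34359738368 1 1099511627776 := by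
  refine ⟨?_, ?_, ?_⟩
  · refine fin 24 729 T69_0 ?_
    refine jn 3 (by decide +kernel) ?_
    refine jn 6 (by decide +kernel) ?_
    refine jn 9 (by decide +kernel) ?_
    refine jn 12 (by decide +kernel) ?_
    refine jn 14 (by decide +kernel) ?_
    refine jn 16 (by decide +kernel) ?_
    refine jn 19 (by decide +kernel) ?_
    refine jn 22 (by decide +kernel) ?_
    refine jn 24 (by decide +kernel) ?_
    refine jn 26 (by decide +kernel) ?_
    refine jn 29 (by decide +kernel) ?_
    refine jn 31 (by decide +kernel) ?_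
    refine jn 35 (by decide +kernel) ?_
    refine jn 47 (by decide +kernel) ?_
    refine jn 55 (by decide +kernel) ?_
    refine jn 58 (by decide +kernel) ?_
    refine jn 61 (by decide +kernel) ?_
    refine jn 64 (by decide +kernel) ?_
    refine jn 75 (by decide +kernel) ?_
    refine jn 87 (by decide +kernel) ?_
    refine jn 95 (by decide +kernel) ?_
    refine jn 106 (by decide +kernel) ?_
    refine jn 117 (by decide +kernel) ?_
    refine jn 128 (by decide +kernel) ?_
    refine jn 138 (by decide +kernel) ?_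
    refine jn 147 (by decide +kernel) ?_
    refine jn 150 (by decide +kernel) ?_
    refine jn 184 (by decide +kernel) ?_
    refine jn 197 (by decide +kernel) ?_
    refine jn 199 (by decide +kernel) ?_
    refine jn 201 (by decide +kernel) ?_
    refine jn 203 (by decide +kernel) ?_
    refine jn 205 (by decide +kernel) ?_
    refine jn 207 (by decide +kernel) ?_
    refine jn 209 (by decide +kernel) ?_
    refine jn 217 (by decide +kernel) ?_
    refine jn 224 (by decide +kernel) ?_
    refine jn 229 (by decide +kernel) ?_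
    refine jn 231 (by decide +kernel) ?_
    refine jn 235 (by decide +kernel) ?_
    refine jn 247 (by decide +kernel) ?_
    refine jn 252 (by decide +kernel) ?_
    refine jn 264 (by decide +kernel) ?_
    refine jn 276 (by decide +kernel) ?_
    refine jn 285 (by decide +kernel) ?_
    refine jn 320 (by decide +kernel) ?_
    refine jn 328 (by decide +kernel) ?_
    refine jn 329 (by decide +kernel) ?_
    refine jn 330 (by decide +kernel) ?_
    refine jn 331 (by decide +kernel) ?_
    refine jn 332 (by decide +kernel) ?_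
    refine jn 333 (by decide +kernel) ?_
    refine jn 334 (by decide +kernel) ?_
    refine jn 335 (by decide +kernel) ?_
    refine jn 336 (by decide +kernel) ?_
    refine jn 337 (by decide +kernel) ?_
    refine jn 338 (by decide +kernel) ?_
    refine jn 339 (by decide +kernel) ?_
    refine jn 346 (by decide +kernel) ?_
    refine jn 347 (by decide +kernel) ?_
    refine jn 348 (by decide +kernel) ?_
    refine jn 349 (by decide +kernel) ?_
    refine jn 350 (by decide +kernel) ?_
    refine jn 351 (by decide +kernel) ?_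
    refine jn 352 (by decide +kernel) ?_
    refine jn 353 (by decide +kernel) ?_
    refine jn 354 (by decide +kernel) ?_
    refine jn 355 (by decide +kernel) ?_
    refine jn 356 (by decide +kernel) ?_
    refine jn 357 (by decide +kernel) ?_
    refine jn 358 (by decide +kernel) ?_
    refine jn 360 (by decide +kernel) ?_
    refine jn 364 (by decide +kernel) ?_
    refine jn 368 (by decide +kernel) ?_
    refine jn 371 (by decide +kernel) ?_
    refine jn 374 (by decide +kernel) ?_
    refine jn 376 (by decide +kernel) ?_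
    refine jn 381 (by decide +kernel) ?_
    refine jn 385 (by decide +kernel) ?_
    refine jn 387 (by decide +kernel) ?_
    refine jn 392 (by decide +kernel) ?_
    refine jn 396 (by decide +kernel) ?_
    refine jn 398 (by decide +kernel) ?_
    refine jn 402 (by decide +kernel) ?_
    refine jn 406 (by decide +kernel) ?_
    refine jn 409 (by decide +kernel) ?_
    refine jn 411 (by decide +kernel) ?_
    refine jn 415 (by decide +kernel) ?_
    refine jn 418 (by decide +kernel) ?_
    refine jn 425 (by decide +kernel) ?_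
    refine jn 428 (by decide +kernel) ?_
    refine jn 431 (by decide +kernel) ?_
    refine jn 432 (by decide +kernel) ?_
    refine jn 434 (by decide +kernel) ?_
    refine jn 437 (by decide +kernel) ?_
    refine jn 465 (by decide +kernel) ?_
    refine jn 473 (by decide +kernel) ?_
    refine jn 476 (by decide +kernel) ?_
    refine jn 479 (by decide +kernel) ?_
    refine jn 482 (by decide +kernel) ?_
    refine jn 490 (by decide +kernel) ?_
    refine jn 494 (by decide +kernel) ?_
    refine jn 497 (by decide +kernel) ?_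
    refine jn 501 (by decide +kernel) ?_
    refine jn 503 (by decide +kernel) ?_
    refine jn 514 (by decide +kernel) ?_
    refine jn 526 (by decide +kernel) ?_
    refine jn 537 (by decide +kernel) ?_
    refine jn 544 (by decide +kernel) ?_
    refine jn 553 (by decide +kernel) ?_
    refine jn 564 (by decide +kernel) ?_
    refine jn 568 (by decide +kernel) ?_
    refine jn 572 (by decide +kernel) ?_
    refine jn 576 (by decide +kernel) ?_
    refine jn 580 (by decide +kernel) ?_
    refine jn 587 (by decide +kernel) ?_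
    refine jn 596 (by decide +kernel) ?_
    refine jn 610 (by decide +kernel) ?_
    refine jn 621 (by decide +kernel) ?_
    refine jn 624 (by decide +kernel) ?_
    refine jn 628 (by decide +kernel) ?_
    refine jn 635 (by decide +kernel) ?_
    refine jn 639 (by decide +kernel) ?_
    refine jn 650 (by decide +kernel) ?_
    refine jn 659 (by decide +kernel) ?_
    refine jn 673 (by decide +kernel) ?_
    refine jn 680 (by decide +kernel) ?_
    refine jn 681 (by decide +kernel) ?_
    refine jn 682 (by decide +kernel) ?_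
    refine jn 683 (by decide +kernel) ?_
    refine jn 684 (by decide +kernel) ?_
    refine jn 685 (by decide +kernel) ?_
    refine jn 686 (by decide +kernel) ?_
    refine jn 687 (by decide +kernel) ?_
    refine jn 688 (by decide +kernel) ?_
    refine jn 689 (by decide +kernel) ?_
    refine jn 690 (by decide +kernel) ?_
    refine jn 691 (by decide +kernel) ?_
    refine jn 692 (by decide +kernel) ?_
    refine jn 693 (by decide +kernel) ?_
    refine jn 694 (by decide +kernel) ?_
    refine jn 697 (by decide +kernel) ?_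
    refine jn 699 (by decide +kernel) ?_
    refine jn 702 (by decide +kernel) ?_
    refine jn 705 (by decide +kernel) ?_
    refine jn 708 (by decide +kernel) ?_
    refine jn 711 (by decide +kernel) ?_
    refine jn 716 (by decide +kernel) ?_
    refine jn 719 (by decide +kernel) ?_
    refine jn 726 (by decide +kernel) ?_
    exact je (by decide +kernel)
  · refine fin 360 16722 T69_1 ?_
    refine jn 4 (by decide +kernel) ?_
    refine jn 5 (by decide +kernel) ?_
    refine jn 7 (by decide +kernel) ?_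
    refine jn 16 (by decide +kernel) ?_
    refine jn 23 (by decide +kernel) ?_
    refine jn 27 (by decide +kernel) ?_
    refine jn 30 (by decide +kernel) ?_
    refine jn 42 (by decide +kernel) ?_
    refine jn 52 (by decide +kernel) ?_
    refine jn 65 (by decide +kernel) ?_
    refine jn 82 (by decide +kernel) ?_
    refine jn 87 (by decide +kernel) ?_
    refine jn 98 (by decide +kernel) ?_
    refine jn 109 (by decide +kernel) ?_
    refine jn 119 (by decide +kernel) ?_
    refine jn 120 (by decide +kernel) ?_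
    refine jn 122 (by decide +kernel) ?_
    refine jn 133 (by decide +kernel) ?_
    refine jn 141 (by decide +kernel) ?_
    refine jn 143 (by decide +kernel) ?_
    refine jn 155 (by decide +kernel) ?_
    refine jn 164 (by decide +kernel) ?_
    refine jn 177 (by decide +kernel) ?_
    refine jn 194 (by decide +kernel) ?_
    refine jn 206 (by decide +kernel) ?_
    refine jn 215 (by decide +kernel) ?_
    refine jn 240 (by decide +kernel) ?_
    refine jn 260 (by decide +kernel) ?_
    refine jn 265 (by decide +kernel) ?_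
    refine jn 266 (by decide +kernel) ?_
    refine jn 305 (by decide +kernel) ?_
    refine jn 367 (by decide +kernel) ?_
    refine jn 393 (by decide +kernel) ?_
    refine jn 394 (by decide +kernel) ?_
    refine jn 404 (by decide +kernel) ?_
    refine jn 405 (by decide +kernel) ?_
    refine jn 414 (by decide +kernel) ?_
    refine jn 420 (by decide +kernel) ?_
    refine jn 424 (by decide +kernel) ?_
    refine jn 429 (by decide +kernel) ?_
    refine jn 430 (by decide +kernel) ?_
    refine jn 450 (by decide +kernel) ?_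
    refine jn 453 (by decide +kernel) ?_
    refine jn 460 (by decide +kernel) ?_
    refine jn 466 (by decide +kernel) ?_
    refine jn 469 (by decide +kernel) ?_
    refine jn 476 (by decide +kernel) ?_
    refine jn 485 (by decide +kernel) ?_
    refine jn 490 (by decide +kernel) ?_
    refine jn 500 (by decide +kernel) ?_
    refine jn 503 (by decide +kernel) ?_
    refine jn 511 (by decide +kernel) ?_
    refine jn 512 (by decide +kernel) ?_
    refine jn 525 (by decide +kernel) ?_
    refine jn 531 (by decide +kernel) ?_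
    refine jn 536 (by decide +kernel) ?_
    refine jn 537 (by decide +kernel) ?_
    refine jn 559 (by decide +kernel) ?_
    refine jn 567 (by decide +kernel) ?_
    refine jn 575 (by decide +kernel) ?_
    refine jn 583 (by decide +kernel) ?_
    refine jn 596 (by decide +kernel) ?_
    refine jn 606 (by decide +kernel) ?_
    refine jn 610 (by decide +kernel) ?_
    refine jn 617 (by decide +kernel) ?_
    refine jn 623 (by decide +kernel) ?_
    refine jn 631 (by decide +kernel) ?_
    refine jn 637 (by decide +kernel) ?_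
    refine jn 642 (by decide +kernel) ?_
    refine jn 643 (by decide +kernel) ?_
    refine jn 665 (by decide +kernel) ?_
    refine jn 670 (by decide +kernel) ?_
    refine jn 677 (by decide +kernel) ?_
    refine jn 682 (by decide +kernel) ?_
    refine jn 695 (by decide +kernel) ?_
    refine jn 703 (by decide +kernel) ?_
    refine jn 740 (by decide +kernel) ?_
    refine jn 758 (by decide +kernel) ?_
    refine jn 787 (by decide +kernel) ?_
    refine jn 819 (by decide +kernel) ?_
    refine jn 839 (by decide +kernel) ?_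
    refine jn 893 (by decide +kernel) ?_
    refine jn 919 (by decide +kernel) ?_
    refine jn 934 (by decide +kernel) ?_
    refine jn 942 (by decide +kernel) ?_
    refine jn 950 (by decide +kernel) ?_
    refine jn 955 (by decide +kernel) ?_
    refine jn 962 (by decide +kernel) ?_
    refine jn 963 (by decide +kernel) ?_
    refine jn 971 (by decide +kernel) ?_
    refine jn 979 (by decide +kernel) ?_
    refine jn 980 (by decide +kernel) ?_
    refine jn 994 (by decide +kernel) ?_
    refine jn 1003 (by decide +kernel) ?_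
    refine jn 1006 (by decide +kernel) ?_
    refine jn 1010 (by decide +kernel) ?_
    refine jn 1011 (by decide +kernel) ?_
    refine jn 1026 (by decide +kernel) ?_
    refine jn 1029 (by decide +kernel) ?_
    refine jn 1030 (by decide +kernel) ?_
    refine jn 1043 (by decide +kernel) ?_
    refine jn 1046 (by decide +kernel) ?_
    refine jn 1049 (by decide +kernel) ?_
    refine jn 1067 (by decide +kernel) ?_
    refine jn 1069 (by decide +kernel) ?_
    refine jn 1073 (by decide +kernel) ?_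
    refine jn 1083 (by decide +kernel) ?_
    refine jn 1084 (by decide +kernel) ?_
    refine jn 1091 (by decide +kernel) ?_
    refine jn 1092 (by decide +kernel) ?_
    refine jn 1097 (by decide +kernel) ?_
    refine jn 1100 (by decide +kernel) ?_
    refine jn 1103 (by decide +kernel) ?_
    refine jn 1112 (by decide +kernel) ?_
    refine jn 1113 (by decide +kernel) ?_
    refine jn 1119 (by decide +kernel) ?_
    refine jn 1123 (by decide +kernel) ?_
    refine jn 1129 (by decide +kernel) ?_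
    refine jn 1130 (by decide +kernel) ?_
    refine jn 1143 (by decide +kernel) ?_
    refine jn 1147 (by decide +kernel) ?_
    refine jn 1153 (by decide +kernel) ?_
    refine jn 1156 (by decide +kernel) ?_
    refine jn 1160 (by decide +kernel) ?_
    refine jn 1161 (by decide +kernel) ?_
    refine jn 1171 (by decide +kernel) ?_
    refine jn 1177 (by decide +kernel) ?_
    refine jn 1179 (by decide +kernel) ?_
    refine jn 1180 (by decide +kernel) ?_
    refine jn 1191 (by decide +kernel) ?_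
    refine jn 1196 (by decide +kernel) ?_
    refine jn 1199 (by decide +kernel) ?_
    refine jn 1213 (by decide +kernel) ?_
    refine jn 1301 (by decide +kernel) ?_
    refine jn 1379 (by decide +kernel) ?_
    refine jn 1478 (by decide +kernel) ?_
    refine jn 1481 (by decide +kernel) ?_
    refine jn 1486 (by decide +kernel) ?_
    refine jn 1496 (by decide +kernel) ?_
    refine jn 1501 (by decide +kernel) ?_
    refine jn 1505 (by decide +kernel) ?_
    refine jn 1521 (by decide +kernel) ?_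
    refine jn 1526 (by decide +kernel) ?_
    refine jn 1527 (by decide +kernel) ?_
    refine jn 1542 (by decide +kernel) ?_
    refine jn 1552 (by decide +kernel) ?_
    refine jn 1565 (by decide +kernel) ?_
    refine jn 1566 (by decide +kernel) ?_
    refine jn 1577 (by decide +kernel) ?_
    refine jn 1580 (by decide +kernel) ?_
    refine jn 1592 (by decide +kernel) ?_
    refine jn 1598 (by decide +kernel) ?_
    refine jn 1610 (by decide +kernel) ?_
    refine jn 1614 (by decide +kernel) ?_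
    refine jn 1622 (by decide +kernel) ?_
    refine jn 1625 (by decide +kernel) ?_
    refine jn 1629 (by decide +kernel) ?_
    refine jn 1640 (by decide +kernel) ?_
    refine jn 1645 (by decide +kernel) ?_
    refine jn 1649 (by decide +kernel) ?_
    refine jn 1656 (by decide +kernel) ?_
    refine jn 1664 (by decide +kernel) ?_
    refine jn 1673 (by decide +kernel) ?_
    refine jn 1677 (by decide +kernel) ?_
    refine jn 1690 (by decide +kernel) ?_
    refine jn 1694 (by decide +kernel) ?_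
    refine jn 1699 (by decide +kernel) ?_
    refine jn 1702 (by decide +kernel) ?_
    refine jn 1713 (by decide +kernel) ?_
    refine jn 1715 (by decide +kernel) ?_
    refine jn 1725 (by decide +kernel) ?_
    refine jn 1734 (by decide +kernel) ?_
    refine jn 1739 (by decide +kernel) ?_
    refine jn 1741 (by decide +kernel) ?_
    refine jn 1749 (by decide +kernel) ?_
    refine jn 1757 (by decide +kernel) ?_
    refine jn 1765 (by decide +kernel) ?_
    refine jn 1778 (by decide +kernel) ?_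
    refine jn 1779 (by decide +kernel) ?_
    refine jn 1783 (by decide +kernel) ?_
    refine jn 1790 (by decide +kernel) ?_
    refine jn 1793 (by decide +kernel) ?_
    refine jn 1797 (by decide +kernel) ?_
    refine jn 1805 (by decide +kernel) ?_
    refine jn 1811 (by decide +kernel) ?_
    refine jn 1821 (by decide +kernel) ?_
    refine jn 1826 (by decide +kernel) ?_
    refine jn 1830 (by decide +kernel) ?_
    refine jn 1835 (by decide +kernel) ?_
    refine jn 1838 (by decide +kernel) ?_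
    refine jn 1842 (by decide +kernel) ?_
    refine jn 1853 (by decide +kernel) ?_
    refine jn 1858 (by decide +kernel) ?_
    refine jn 1861 (by decide +kernel) ?_
    refine jn 1862 (by decide +kernel) ?_
    refine jn 1863 (by decide +kernel) ?_
    refine jn 1875 (by decide +kernel) ?_
    refine jn 1886 (by decide +kernel) ?_
    refine jn 1890 (by decide +kernel) ?_
    refine jn 1901 (by decide +kernel) ?_
    refine jn 1931 (by decide +kernel) ?_
    refine jn 1955 (by decide +kernel) ?_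
    refine jn 1987 (by decide +kernel) ?_
    refine jn 2008 (by decide +kernel) ?_
    refine jn 2019 (by decide +kernel) ?_
    refine jn 2043 (by decide +kernel) ?_
    refine jn 2078 (by decide +kernel) ?_
    refine jn 2096 (by decide +kernel) ?_
    refine jn 2147 (by decide +kernel) ?_
    refine jn 2167 (by decide +kernel) ?_
    refine jn 2194 (by decide +kernel) ?_
    refine jn 2219 (by decide +kernel) ?_
    refine jn 2230 (by decide +kernel) ?_
    refine jn 2242 (by decide +kernel) ?_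
    refine jn 2254 (by decide +kernel) ?_
    refine jn 2274 (by decide +kernel) ?_
    refine jn 2286 (by decide +kernel) ?_
    refine jn 2299 (by decide +kernel) ?_
    refine jn 2307 (by decide +kernel) ?_
    refine jn 2308 (by decide +kernel) ?_
    refine jn 2326 (by decide +kernel) ?_
    refine jn 2341 (by decide +kernel) ?_
    refine jn 2358 (by decide +kernel) ?_
    refine jn 2373 (by decide +kernel) ?_
    refine jn 2382 (by decide +kernel) ?_
    refine jn 2383 (by decide +kernel) ?_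
    refine jn 2411 (by decide +kernel) ?_
    refine jn 2429 (by decide +kernel) ?_
    refine jn 2450 (by decide +kernel) ?_
    refine jn 2459 (by decide +kernel) ?_
    refine jn 2478 (by decide +kernel) ?_
    refine jn 2491 (by decide +kernel) ?_
    refine jn 2502 (by decide +kernel) ?_
    refine jn 2518 (by decide +kernel) ?_
    refine jn 2541 (by decide +kernel) ?_
    refine jn 2566 (by decide +kernel) ?_
    refine jn 2586 (by decide +kernel) ?_
    refine jn 2601 (by decide +kernel) ?_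
    refine jn 2626 (by decide +kernel) ?_
    refine jn 2651 (by decide +kernel) ?_
    refine jn 2687 (by decide +kernel) ?_
    refine jn 2719 (by decide +kernel) ?_
    refine jn 2743 (by decide +kernel) ?_
    refine jn 2769 (by decide +kernel) ?_
    refine jn 2790 (by decide +kernel) ?_
    refine jn 2826 (by decide +kernel) ?_
    refine jn 2854 (by decide +kernel) ?_
    refine jn 2897 (by decide +kernel) ?_
    refine jn 2911 (by decide +kernel) ?_
    refine jn 2930 (by decide +kernel) ?_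
    refine jn 2943 (by decide +kernel) ?_
    refine jn 2960 (by decide +kernel) ?_
    refine jn 2979 (by decide +kernel) ?_
    refine jn 2994 (by decide +kernel) ?_
    refine jn 3011 (by decide +kernel) ?_
    refine jn 3012 (by decide +kernel) ?_
    refine jn 3043 (by decide +kernel) ?_
    refine jn 3051 (by decide +kernel) ?_
    refine jn 3074 (by decide +kernel) ?_
    refine jn 3090 (by decide +kernel) ?_
    refine jn 3112 (by decide +kernel) ?_
    refine jn 3135 (by decide +kernel) ?_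
    refine jn 3152 (by decide +kernel) ?_
    refine jn 3166 (by decide +kernel) ?_
    refine jn 3186 (by decide +kernel) ?_
    refine jn 3187 (by decide +kernel) ?_
    refine jn 3203 (by decide +kernel) ?_
    refine jn 3231 (by decide +kernel) ?_
    refine jn 3246 (by decide +kernel) ?_
    refine jn 3264 (by decide +kernel) ?_
    refine jn 3279 (by decide +kernel) ?_
    refine jn 3299 (by decide +kernel) ?_
    refine jn 3327 (by decide +kernel) ?_
    refine jn 3336 (by decide +kernel) ?_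
    refine jn 3337 (by decide +kernel) ?_
    refine jn 3367 (by decide +kernel) ?_
    refine jn 3382 (by decide +kernel) ?_
    refine jn 3391 (by decide +kernel) ?_
    refine jn 3411 (by decide +kernel) ?_
    refine jn 3428 (by decide +kernel) ?_
    refine jn 3454 (by decide +kernel) ?_
    refine jn 3478 (by decide +kernel) ?_
    refine jn 3492 (by decide +kernel) ?_
    refine jn 3523 (by decide +kernel) ?_
    refine jn 3535 (by decide +kernel) ?_
    refine jn 3559 (by decide +kernel) ?_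
    refine jn 3582 (by decide +kernel) ?_
    refine jn 3590 (by decide +kernel) ?_
    refine jn 3598 (by decide +kernel) ?_
    refine jn 3610 (by decide +kernel) ?_
    refine jn 3615 (by decide +kernel) ?_
    refine jn 3616 (by decide +kernel) ?_
    refine jn 3647 (by decide +kernel) ?_
    refine jn 3674 (by decide +kernel) ?_
    refine jn 3695 (by decide +kernel) ?_
    refine jn 3715 (by decide +kernel) ?_
    refine jn 3716 (by decide +kernel) ?_
    refine jn 3730 (by decide +kernel) ?_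
    refine jn 3743 (by decide +kernel) ?_
    refine jn 3766 (by decide +kernel) ?_
    refine jn 3796 (by decide +kernel) ?_
    refine jn 3814 (by decide +kernel) ?_
    refine jn 3815 (by decide +kernel) ?_
    refine jn 3822 (by decide +kernel) ?_
    refine jn 3850 (by decide +kernel) ?_
    refine jn 3871 (by decide +kernel) ?_
    refine jn 3892 (by decide +kernel) ?_
    refine jn 3908 (by decide +kernel) ?_
    refine jn 3940 (by decide +kernel) ?_
    refine jn 3958 (by decide +kernel) ?_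
    refine jn 3974 (by decide +kernel) ?_
    refine jn 4002 (by decide +kernel) ?_
    refine jn 4015 (by decide +kernel) ?_
    refine jn 4054 (by decide +kernel) ?_
    refine jn 4071 (by decide +kernel) ?_
    refine jn 4111 (by decide +kernel) ?_
    refine jn 4118 (by decide +kernel) ?_
    refine jn 4129 (by decide +kernel) ?_
    refine jn 4147 (by decide +kernel) ?_
    refine jn 4163 (by decide +kernel) ?_
    refine jn 4182 (by decide +kernel) ?_
    refine jn 4202 (by decide +kernel) ?_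
    refine jn 4230 (by decide +kernel) ?_
    refine jn 4247 (by decide +kernel) ?_
    refine jn 4279 (by decide +kernel) ?_
    refine jn 4306 (by decide +kernel) ?_
    refine jn 4335 (by decide +kernel) ?_
    refine jn 4359 (by decide +kernel) ?_
    refine jn 4378 (by decide +kernel) ?_
    refine jn 4393 (by decide +kernel) ?_
    refine jn 4407 (by decide +kernel) ?_
    refine jn 4426 (by decide +kernel) ?_
    refine jn 4450 (by decide +kernel) ?_
    refine jn 4483 (by decide +kernel) ?_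
    refine jn 4498 (by decide +kernel) ?_
    refine jn 4519 (by decide +kernel) ?_
    refine jn 4546 (by decide +kernel) ?_
    refine jn 4569 (by decide +kernel) ?_
    refine jn 4601 (by decide +kernel) ?_
    refine jn 4618 (by decide +kernel) ?_
    refine jn 4631 (by decide +kernel) ?_
    refine jn 4657 (by decide +kernel) ?_
    refine jn 4689 (by decide +kernel) ?_
    refine jn 4714 (by decide +kernel) ?_
    refine jn 4737 (by decide +kernel) ?_
    refine jn 4769 (by decide +kernel) ?_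
    refine jn 4810 (by decide +kernel) ?_
    refine jn 4845 (by decide +kernel) ?_
    refine jn 4892 (by decide +kernel) ?_
    refine jn 4946 (by decide +kernel) ?_
    refine jn 4996 (by decide +kernel) ?_
    refine jn 5020 (by decide +kernel) ?_
    refine jn 5077 (by decide +kernel) ?_
    refine jn 5136 (by decide +kernel) ?_
    refine jn 5181 (by decide +kernel) ?_
    refine jn 5221 (by decide +kernel) ?_
    refine jn 5242 (by decide +kernel) ?_
    refine jn 5298 (by decide +kernel) ?_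
    refine jn 5341 (by decide +kernel) ?_
    refine jn 5389 (by decide +kernel) ?_
    refine jn 5450 (by decide +kernel) ?_
    refine jn 5490 (by decide +kernel) ?_
    refine jn 5562 (by decide +kernel) ?_
    refine jn 5605 (by decide +kernel) ?_
    refine jn 5661 (by decide +kernel) ?_
    refine jn 5714 (by decide +kernel) ?_
    refine jn 5754 (by decide +kernel) ?_
    refine jn 5801 (by decide +kernel) ?_
    refine jn 5849 (by decide +kernel) ?_
    refine jn 5913 (by decide +kernel) ?_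
    refine jn 5966 (by decide +kernel) ?_
    refine jn 6020 (by decide +kernel) ?_
    refine jn 6219 (by decide +kernel) ?_
    refine jn 6289 (by decide +kernel) ?_
    refine jn 6352 (by decide +kernel) ?_
    refine jn 6400 (by decide +kernel) ?_
    refine jn 6438 (by decide +kernel) ?_
    refine jn 6505 (by decide +kernel) ?_
    refine jn 6568 (by decide +kernel) ?_
    refine jn 6617 (by decide +kernel) ?_
    refine jn 6677 (by decide +kernel) ?_
    refine jn 6742 (by decide +kernel) ?_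
    refine jn 6809 (by decide +kernel) ?_
    refine jn 6872 (by decide +kernel) ?_
    refine jn 6945 (by decide +kernel) ?_
    refine jn 7006 (by decide +kernel) ?_
    refine jn 7068 (by decide +kernel) ?_
    refine jn 7129 (by decide +kernel) ?_
    refine jn 7174 (by decide +kernel) ?_
    refine jn 7225 (by decide +kernel) ?_
    refine jn 7272 (by decide +kernel) ?_
    refine jn 7334 (by decide +kernel) ?_
    refine jn 7398 (by decide +kernel) ?_
    refine jn 7464 (by decide +kernel) ?_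
    refine jn 7526 (by decide +kernel) ?_
    refine jn 7582 (by decide +kernel) ?_
    refine jn 7653 (by decide +kernel) ?_
    refine jn 7726 (by decide +kernel) ?_
    refine jn 7785 (by decide +kernel) ?_
    refine jn 7825 (by decide +kernel) ?_
    refine jn 7878 (by decide +kernel) ?_
    refine jn 8102 (by decide +kernel) ?_
    refine jn 8320 (by decide +kernel) ?_
    refine jn 8453 (by decide +kernel) ?_
    refine jn 8560 (by decide +kernel) ?_
    refine jn 8640 (by decide +kernel) ?_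
    refine jn 8734 (by decide +kernel) ?_
    refine jn 8809 (by decide +kernel) ?_
    refine jn 8885 (by decide +kernel) ?_
    refine jn 8930 (by decide +kernel) ?_
    refine jn 8973 (by decide +kernel) ?_
    refine jn 9038 (by decide +kernel) ?_
    refine jn 9086 (by decide +kernel) ?_
    refine jn 9135 (by decide +kernel) ?_
    refine jn 9190 (by decide +kernel) ?_
    refine jn 9325 (by decide +kernel) ?_
    refine jn 9630 (by decide +kernel) ?_
    refine jn 9775 (by decide +kernel) ?_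
    refine jn 9909 (by decide +kernel) ?_
    refine jn 10005 (by decide +kernel) ?_
    refine jn 10064 (by decide +kernel) ?_
    refine jn 10145 (by decide +kernel) ?_
    refine jn 10225 (by decide +kernel) ?_
    refine jn 10287 (by decide +kernel) ?_
    refine jn 10371 (by decide +kernel) ?_
    refine jn 10449 (by decide +kernel) ?_
    refine jn 10504 (by decide +kernel) ?_
    refine jn 10889 (by decide +kernel) ?_
    refine jn 11051 (by decide +kernel) ?_
    refine jn 11207 (by decide +kernel) ?_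
    refine jn 11358 (by decide +kernel) ?_
    refine jn 11488 (by decide +kernel) ?_
    refine jn 11571 (by decide +kernel) ?_
    refine jn 11660 (by decide +kernel) ?_
    refine jn 11740 (by decide +kernel) ?_
    refine jn 11805 (by decide +kernel) ?_
    refine jn 12114 (by decide +kernel) ?_
    refine jn 12189 (by decide +kernel) ?_
    refine jn 12364 (by decide +kernel) ?_
    refine jn 12446 (by decide +kernel) ?_
    refine jn 12542 (by decide +kernel) ?_
    refine jn 12642 (by decide +kernel) ?_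
    refine jn 12729 (by decide +kernel) ?_
    refine jn 12793 (by decide +kernel) ?_
    refine jn 12834 (by decide +kernel) ?_
    refine jn 12889 (by decide +kernel) ?_
    refine jn 12939 (by decide +kernel) ?_
    refine jn 12994 (by decide +kernel) ?_
    refine jn 13049 (by decide +kernel) ?_
    refine jn 13100 (by decide +kernel) ?_
    refine jn 13440 (by decide +kernel) ?_
    refine jn 13569 (by decide +kernel) ?_
    refine jn 13659 (by decide +kernel) ?_
    refine jn 13813 (by decide +kernel) ?_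
    refine jn 13919 (by decide +kernel) ?_
    refine jn 14017 (by decide +kernel) ?_
    refine jn 14110 (by decide +kernel) ?_
    refine jn 14190 (by decide +kernel) ?_
    refine jn 14272 (by decide +kernel) ?_
    refine jn 14355 (by decide +kernel) ?_
    refine jn 14759 (by decide +kernel) ?_
    refine jn 14926 (by decide +kernel) ?_
    refine jn 15024 (by decide +kernel) ?_
    refine jn 15170 (by decide +kernel) ?_
    refine jn 15320 (by decide +kernel) ?_
    refine jn 15447 (by decide +kernel) ?_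
    refine jn 15547 (by decide +kernel) ?_
    refine jn 15683 (by decide +kernel) ?_
    refine jn 16174 (by decide +kernel) ?_
    exact je (by decide +kernel)
  · refine fin 168 1095 T69_2 ?_
    refine jn 3 (by decide +kernel) ?_
    refine jn 4 (by decide +kernel) ?_
    refine jn 17 (by decide +kernel) ?_
    refine jn 18 (by decide +kernel) ?_
    refine jn 19 (by decide +kernel) ?_
    refine jn 20 (by decide +kernel) ?_
    refine jn 21 (by decide +kernel) ?_
    refine jn 22 (by decide +kernel) ?_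
    refine jn 23 (by decide +kernel) ?_
    refine jn 24 (by decide +kernel) ?_
    refine jn 25 (by decide +kernel) ?_
    refine jn 26 (by decide +kernel) ?_
    refine jn 27 (by decide +kernel) ?_
    refine jn 28 (by decide +kernel) ?_
    refine jn 29 (by decide +kernel) ?_
    refine jn 30 (by decide +kernel) ?_
    refine jn 34 (by decide +kernel) ?_
    refine jn 37 (by decide +kernel) ?_
    refine jn 45 (by decide +kernel) ?_
    refine jn 46 (by decide +kernel) ?_
    refine jn 47 (by decide +kernel) ?_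
    refine jn 48 (by decide +kernel) ?_
    refine jn 49 (by decide +kernel) ?_
    refine jn 51 (by decide +kernel) ?_
    refine jn 52 (by decide +kernel) ?_
    refine jn 53 (by decide +kernel) ?_
    refine jn 54 (by decide +kernel) ?_
    refine jn 56 (by decide +kernel) ?_
    refine jn 58 (by decide +kernel) ?_
    refine jn 60 (by decide +kernel) ?_
    refine jn 65 (by decide +kernel) ?_
    refine jn 66 (by decide +kernel) ?_
    refine jn 67 (by decide +kernel) ?_
    refine jn 68 (by decide +kernel) ?_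
    refine jn 69 (by decide +kernel) ?_
    refine jn 70 (by decide +kernel) ?_
    refine jn 71 (by decide +kernel) ?_
    refine jn 72 (by decide +kernel) ?_
    refine jn 73 (by decide +kernel) ?_
    refine jn 82 (by decide +kernel) ?_
    refine jn 84 (by decide +kernel) ?_
    refine jn 86 (by decide +kernel) ?_
    refine jn 92 (by decide +kernel) ?_
    refine jn 93 (by decide +kernel) ?_
    refine jn 94 (by decide +kernel) ?_
    refine jn 95 (by decide +kernel) ?_
    refine jn 96 (by decide +kernel) ?_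
    refine jn 104 (by decide +kernel) ?_
    refine jn 105 (by decide +kernel) ?_
    refine jn 106 (by decide +kernel) ?_
    refine jn 107 (by decide +kernel) ?_
    refine jn 116 (by decide +kernel) ?_
    refine jn 119 (by decide +kernel) ?_
    refine jn 120 (by decide +kernel) ?_
    refine jn 121 (by decide +kernel) ?_
    refine jn 122 (by decide +kernel) ?_
    refine jn 127 (by decide +kernel) ?_
    refine jn 128 (by decide +kernel) ?_
    refine jn 129 (by decide +kernel) ?_
    refine jn 134 (by decide +kernel) ?_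
    refine jn 135 (by decide +kernel) ?_
    refine jn 140 (by decide +kernel) ?_
    refine jn 145 (by decide +kernel) ?_
    refine jn 146 (by decide +kernel) ?_
    refine jn 151 (by decide +kernel) ?_
    refine jn 152 (by decide +kernel) ?_
    refine jn 153 (by decide +kernel) ?_
    refine jn 160 (by decide +kernel) ?_
    refine jn 170 (by decide +kernel) ?_
    refine jn 171 (by decide +kernel) ?_
    refine jn 172 (by decide +kernel) ?_
    refine jn 184 (by decide +kernel) ?_
    refine jn 190 (by decide +kernel) ?_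
    refine jn 191 (by decide +kernel) ?_
    refine jn 201 (by decide +kernel) ?_
    refine jn 202 (by decide +kernel) ?_
    refine jn 208 (by decide +kernel) ?_
    refine jn 216 (by decide +kernel) ?_
    refine jn 232 (by decide +kernel) ?_
    refine jn 244 (by decide +kernel) ?_
    refine jn 247 (by decide +kernel) ?_
    refine jn 248 (by decide +kernel) ?_
    refine jn 255 (by decide +kernel) ?_
    refine jn 277 (by decide +kernel) ?_
    refine jn 289 (by decide +kernel) ?_
    refine jn 303 (by decide +kernel) ?_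
    refine jn 330 (by decide +kernel) ?_
    refine jn 361 (by decide +kernel) ?_
    refine jn 386 (by decide +kernel) ?_
    refine jn 399 (by decide +kernel) ?_
    refine jn 426 (by decide +kernel) ?_
    refine jn 463 (by decide +kernel) ?_
    refine jn 494 (by decide +kernel) ?_
    refine jn 615 (by decide +kernel) ?_
    refine jn 678 (by decide +kernel) ?_
    refine jn 843 (by decide +kernel) ?_
    exact je (by decide +kernel)

end Pool.Agent.MP_2339ce_nt.NR
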