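import Pool.Agent.MP_2339ce_nt.Q2.NC.L1
import Pool.Agent.MP_2339ce_nt.Q2.NC.L9
import Pool.Agent.MP_2339ce_nt.Q2.NC.L10
import Pool.Agent.MP_2339ce_nt.Q2.CkI

/-! Block NR: runs. -/

set_option autoImplicit false
set_option maxRecDepth 100000

noncomputable section

namespace Pool.Agent.MP_2339ce_nt.NR

open Q2.Top

def T74_0 : Ph :=
  (.na 915 162 (.na 732 62 (.na 531 18 (.na 320 6 (.na 1 2 .ne (.na 319 3 (.nx 318 3329023 (.nr 317
  623489 (.nx 4 204 (.nx 3 203 (.nr 2 27 (.lg 0 false 1 47 47 5 0 146160) (.l1 .sk)) (.l1 .sk))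
  (.nx 63 29167 (.nr 37 185365 (.lg 0 false 33 107 109 13 0 20900880) (.nx 50 324 (.lg 0 false 13
  83 83 9 0 380016) (.nx 51 16384 .out (.nr 62 220437 (.lg 0 false 11 103 103 9 0 1607760) .out))))
  (.nr 316 220437 (.nx 300 2097153 (.nx 277 1048577 (.nr 108 3446 (.nr 96 1025 (.lg 0 true 33 97
  101 13 0 1607760) (.nx 107 832257 (.lg 2 true 11 101 101 9 82414 1607760) .out)) (.nx 276 524289
  (.nx 208 82572 (.nx 141 41287 (.lg 1 false 33 101 107 13 155870 1607760) (.nr 207 155873 (.nx 174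
  58387 (.lg 1 false 33 101 109 13 77892 20900880) (.lg 1 false 33 101 109 13 55079 20900880))
  .out)) (.nr 275 131073 (.nr 241 77937 (.lg 2 false 33 101 109 13 19499 20900880) (.nx 274 208065
  (.lg 2 false 33 103 109 13 32758 20900880) .out)) .out)) .out)) (.nr 299 129 (.lg 0 true 22 89 89
  11 0 321552) .out)) (.nr 315 9 (.lg 0 true 15 71 71 9 0 146160) .out)) .out))) .out) .out) .ne))
  (.na 473 14 (.na 472 7 (.nx 471 16777217 (.nr 470 1048577 (.nx 322 203 (.nr 321 70 (.lg 0 true 1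
  37 37 7 0 29232) (.l1 .sk)) (.nx 323 204 (.l1 .sk) (.nx 419 660563 (.nr 413 370729 (.nr 407
  220437 (.nx 342 41285 (.nr 336 155873 (.lg 0 false 13 103 107 19 0 4180176) (.nx 341 2049 (.lg 0
  false 5 89 89 13 0 146160) .out)) (.nr 359 8201 (.nr 352 1026 (.lg 0 true 10 89 89 13 0 146160)
  (.nr 357 4102 (.lg 2 true 5 89 97 13 65349 146160) (.lg 2 false 2 89 89 7 16345 29232))) (.nx 365
  52015 (.nr 364 185365 (.lg 1 false 5 101 101 13 92615 146160) .out) (.nx 375 76448 (.lg 1 false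
  10 101 103 13 87403 1607760) (.nx 385 112360 (.lg 1 false 10 101 103 13 59468 1607760) (.nx 395
  165142 (.lg 1 true 10 101 103 13 40461 1607760) (.nr 406 185365 (.nx 400 208065 (.lg 1 true 5 103
  103 13 23154 1607760) (.nr 405 77937 (.lg 2 false 5 101 101 13 8176 146160) .out)) .out)))))))
  (.nx 412 814 (.lg 0 false 5 83 83 13 0 146160) .out)) (.nx 418 324 (.lg 0 false 5 79 79 13 0
  146160) .out)) (.nr 469 257 (.nr 458 44 (.lg 0 true 39 83 83 13 0 380016) (.nx 468 2097153 (.lg 0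
  true 10 83 83 13 0 146160) .out)) .out)))) .out) .out) .ne) (.na 530 16 (.nx 529 2097153 (.nr 528
  1048577 (.nx 477 257 (.nx 475 203 (.nr 474 161 (.lg 0 true 1 31 31 11 0 29232) (.l1 .sk)) (.nx
  476 204 (.l1 .sk) (.l1 (.ls 79 41 1748)))) (.nr 527 623489 (.nr 521 185365 (.nx 492 70783 (.lg 0
  false 15 97 101 19 0 146160) (.nr 507 1193 (.lg 0 true 15 83 83 19 0 146160) (.nx 520 660563 (.lg
  2 false 13 97 101 17 56201 380016) .out))) (.nx 526 1292 (.lg 0 true 5 79 79 13 0 146160) .out))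
  .out)) .out) .out) .ne))) (.na 651 42 (.na 599 34 (.na 598 23 (.nx 597 2097153 (.nr 596 1048577
  (.nr 532 12 .s1 (.nx 536 324 (.nx 534 203 (.nr 533 232 (.lg 0 false 1 31 31 13 0 29232) (.l1
  .sk)) (.nx 535 204 (.l1 .sk) (.l1 (.ls 89 43 3523)))) (.nr 595 623489 (.nr 589 262145 (.nx 547
  20644 (.lg 0 false 11 97 101 23 0 1607760) (.nr 588 155873 (.nr 558 751 (.lg 0 true 11 83 89 23 0
  1607760) (.nx 587 416129 (.nr 569 55110 (.lg 2 false 11 83 83 23 56242 321552) (.nx 586 330282
  (.nx 580 208065 (.lg 0 true 11 103 107 23 0 20900880) (.nr 585 77937 (.lg 0 true 5 97 101 19 0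
  146160) .out)) .out)) .out)) .out)) (.nx 594 2049 (.lg 0 false 5 83 89 19 0 146160) .out))
  .out))) .out) .out) .ne) (.na 624 38 (.nx 623 2097153 (.nr 622 881745 (.nr 600 31 .s1 (.nx 603
  204 (.nx 602 203 (.nr 601 384 (.lg 0 true 1 31 31 13 0 29232) (.l1 .sk)) (.l1 .sk)) (.nx 610
  26009 (.nx 604 324 (.l1 (.ls 83 41 1866)) (.nr 609 623489 (.lg 0 false 5 101 101 13 0 146160)
  .out)) (.nr 621 77937 (.nr 615 384 (.lg 0 true 5 73 73 13 0 146160) (.nx 620 208065 (.lg 2 false
  5 97 97 13 61905 146160) .out)) .out)))) .out) .out) (.nx 650 2097153 (.nr 649 881745 (.nr 625 36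
  .s1 (.nx 628 204 (.nx 627 203 (.nr 626 424 (.lg 0 false 1 31 31 13 0 146160) (.l1 .sk)) (.l1
  .sk)) (.nx 629 324 (.l1 (.ls 83 41 1670)) (.nr 648 623489 (.nx 638 32769 (.nr 632 155873 (.lg 0
  false 3 101 101 13 0 146160) (.nx 637 13005 (.lg 0 false 5 97 97 17 0 146160) .out)) (.nr 647
  65537 (.nr 643 424 (.lg 0 true 5 79 79 17 0 146160) (.nx 646 208065 (.lg 2 false 3 97 97 13 49809
  146160) .out)) .out)) .out)))) .out) .out))) (.na 693 54 (.na 673 46 (.nx 672 2097153 (.nr 671
  881745 (.nr 652 40 .s1 (.nx 654 203 (.nr 653 464 (.l1 (.ls 31 41 984)) (.l1 .sk)) (.nx 655 204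
  (.l1 .sk) (.nx 656 324 (.l1 (.ls 79 43 1511)) (.nr 670 623489 (.nx 661 26009 (.lg 0 false 5 97
  101 29 0 146160) (.nr 669 77937 (.nr 666 464 (.lg 0 true 5 73 73 29 0 146160) (.nx 668 208065
  (.lg 2 true 2 97 97 23 61905 146160) .out)) .out)) .out))))) .out) .out) (.nx 692 2097153 (.nr
  691 881745 (.nr 674 44 .s1 (.nx 675 324 (.l1 (.ls 79 43 2285)) (.nr 690 741457 (.nx 680 26009
  (.lg 0 false 5 101 101 19 0 146160) (.nr 689 65537 (.nr 685 545 (.lg 0 true 5 73 73 19 0 146160)
  (.nx 688 208065 (.lg 2 false 3 89 89 13 52081 29232) .out)) .out)) .out))) .out) .out)) (.na 712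
  58 (.nx 711 2097153 (.nr 710 881745 (.nr 694 53 .s1 (.nx 701 32769 (.nx 695 324 (.l1 (.ls 73 43
  1946)) (.nr 700 741457 (.lg 0 false 5 97 97 23 0 146160) .out)) (.nr 709 46342 (.nr 706 585 (.lg
  0 true 5 71 71 23 0 146160) (.nx 708 208065 (.lg 2 true 2 83 83 19 36101 29232) .out)) .out)))
  .out) .out) (.nx 731 2097153 (.nr 730 881745 (.nr 713 57 .s1 (.nx 720 32769 (.nx 714 324 (.l1
  (.ls 73 41 1812)) (.nr 719 741457 (.lg 0 false 5 89 89 17 0 146160) .out)) (.nr 729 46342 (.nr
  725 626 (.lg 0 true 5 67 67 17 0 146160) (.nx 728 208065 (.lg 2 true 3 73 73 13 33736 29232)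
  .out)) .out))) .out) .out))))) (.na 814 114 (.na 770 94 (.na 752 82 (.na 751 64 (.nx 750 2097153
  (.nr 749 881745 (.nr 733 61 .s1 (.nx 734 324 (.l1 (.ls 83 41 1696)) (.nr 748 741457 (.nx 739
  26009 (.lg 0 false 5 97 101 19 0 146160) (.nr 747 65537 (.nr 744 646 (.lg 0 true 5 79 79 19 0
  146160) (.nx 746 208065 (.lg 2 true 2 89 89 17 52081 29232) .out)) .out)) .out))) .out) .out)
  .ne) (.na 769 91 (.nx 768 2097153 (.nr 767 2097153 (.nr 753 81 .s1 (.nx 760 20644 (.nx 754 324
  (.l1 (.ls 83 37 1283)) (.nr 759 1048577 (.lg 0 false 5 97 97 23 0 146160) .out)) (.nr 766 65537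
  (.nr 763 513 (.lg 0 true 3 71 71 19 0 29232) (.nx 765 131073 (.lg 2 false 2 89 89 19 65616 29232)
  .out)) .out))) .out) .out) .ne)) (.na 785 102 (.na 784 98 (.nx 783 2097153 (.nr 782 2097153 (.nr
  771 93 .s1 (.nx 778 32769 (.nx 772 324 (.l1 (.ls 83 37 1119)) (.nr 777 1048577 (.lg 0 false 5 97
  97 23 0 146160) .out)) (.nr 781 32769 (.nr 779 513 (.lg 0 false 1 79 79 17 0 29232) (.nx 780
  131073 (.lg 2 true 1 79 79 17 25934 29232) .out)) .out))) .out) .out) (.lg 0 false 1 0 0 16 0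
  24)) (.na 800 106 (.nx 799 2097153 (.nr 798 2097153 (.nr 786 102 .s1 (.nx 787 324 (.l1 (.ls 89 43
  1032)) (.nr 797 1048577 (.nx 790 20644 (.lg 0 false 3 97 97 37 0 29232) (.nr 796 65537 (.nr 794
  32769 (.nx 791 131073 (.lg 0 false 1 89 89 29 0 29232) (.nr 793 513 (.lg 0 true 2 73 73 31 0
  29232) .out)) (.nx 795 32769 (.lg 0 true 1 79 79 29 0 29232) .out)) .out)) .out))) .out) .out)
  (.nx 813 2097153 (.nr 812 2097153 (.nr 801 106 .s1 (.nx 808 32769 (.nx 802 324 (.l1 (.ls 79 31
  993)) (.nr 807 1048577 (.lg 0 false 5 97 97 23 0 146160) .out)) (.nr 811 32769 (.nr 809 513 (.lg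
  0 false 1 73 73 19 0 29232) (.nx 810 131073 (.lg 2 true 1 79 79 19 25934 29232) .out)) .out)))
  .out) .out)))) (.na 859 134 (.na 843 126 (.na 829 122 (.nx 828 2097153 (.nr 827 2097153 (.nr 815
  114 .s1 (.nx 822 20644 (.nx 816 324 (.l1 (.ls 83 41 923)) (.nr 821 1048577 (.lg 0 false 5 89 97
  37 0 146160) .out)) (.nr 826 65537 (.nx 823 131073 (.lg 0 false 1 97 97 31 0 29232) (.nr 825 513
  (.lg 0 true 2 71 71 31 0 29232) .out)) .out))) .out) .out) (.nx 842 2097153 (.nr 841 2097153 (.nr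
  830 122 .s1 (.nx 831 324 (.l1 (.ls 83 31 863)) (.nr 840 1048577 (.nr 836 65537 (.nx 833 131073
  (.lg 0 false 2 89 89 19 0 146160) (.nr 835 513 (.lg 0 true 2 67 67 19 0 29232) .out)) (.nx 839
  20644 (.lg 0 false 3 89 89 23 0 29232) .out)) .out))) .out) .out)) (.na 858 128 (.nx 857 2097153
  (.nr 856 2097153 (.nr 844 126 .s1 (.nx 851 32769 (.nx 845 324 (.l1 (.ls 73 41 836)) (.nr 850
  1048577 (.lg 0 false 5 83 83 37 0 146160) .out)) (.nr 855 32769 (.nr 853 513 (.lg 0 true 2 61 61
  31 0 29232) (.nx 854 131073 (.lg 2 true 1 71 71 29 25934 29232) .out)) .out))) .out) .out) .ne))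
  (.na 886 142 (.na 874 138 (.nx 873 1048577 (.nr 872 1482912 (.nr 860 134 .s1 (.nx 862 203 (.nr
  861 1392 (.l1 (.ls 19 29 310)) (.l1 .sk)) (.nx 863 204 (.l1 .sk) (.nx 868 32769 (.lg 0 false 5 89
  89 29 0 146160) (.nr 871 16385 (.nr 869 1392 (.lg 0 false 1 73 73 19 0 29232) (.nx 870 131073
  (.lg 2 true 1 59 59 19 10431 29232) .out)) .out))))) .out) .out) (.nx 885 1048577 (.nr 884
  1482912 (.nr 875 138 .s1 (.nx 882 131073 (.nx 877 203 (.nr 876 1433 (.l1 (.ls 19 37 301)) (.l1
  .sk)) (.nx 878 204 (.l1 .sk) (.nr 879 65537 (.lg 0 false 1 101 101 31 0 146160) (.nx 881 16385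
  (.lg 0 false 2 101 101 37 0 146160) .out)))) (.nr 883 1025 (.lg 0 true 1 73 73 31 0 29232)
  .out))) .out) .out)) (.na 900 146 (.nx 899 1048577 (.nr 898 1482912 (.nr 887 142 .s1 (.nx 896
  131073 (.nx 889 203 (.nr 888 1473 (.l1 (.ls 19 29 293)) (.l1 .sk)) (.nx 890 204 (.l1 .sk) (.nr
  892 65537 (.lg 0 true 2 83 83 23 0 29232) (.nx 895 16385 (.lg 0 false 3 89 89 23 0 146160)
  .out)))) (.nr 897 1025 (.lg 0 false 1 73 73 19 0 146160) .out))) .out) .out) (.nx 914 1048577
  (.nr 913 1482912 (.nr 901 146 .s1 (.nx 903 203 (.nr 902 1635 (.l1 (.ls 19 29 285)) (.l1 .sk))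
  (.nx 904 204 (.l1 .sk) (.nx 909 32769 (.lg 0 false 5 97 97 29 0 146160) (.nr 912 16385 (.nr 910
  1025 (.lg 0 false 1 73 73 19 0 29232) (.nx 911 131073 (.lg 2 true 1 61 61 19 12980 29232) .out))
  .out))))) .out) .out)))))) (.na 2514 725 (.na 995 214 (.na 956 182 (.na 928 174 (.nx 927 1048577
  (.nr 926 1482912 (.nr 916 162 .s1 (.nx 919 204 (.nx 918 203 (.nr 917 1756 (.l1 (.ls 23 31 257))
  (.l1 .sk)) (.l1 .sk)) (.nx 924 131073 (.nr 920 65537 (.lg 0 false 1 83 83 23 0 29232) (.nx 923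
  16385 (.lg 0 false 3 83 83 29 0 146160) .out)) (.nr 925 1025 (.lg 0 false 1 71 71 23 0 146160)
  .out)))) .out) .out) (.na 943 178 (.nx 942 1048577 (.nr 941 1482912 (.nr 929 174 .s1 (.nx 932 204
  (.nx 931 203 (.nr 930 1796 (.l1 (.ls 19 37 239)) (.l1 .sk)) (.l1 .sk)) (.nx 937 32769 (.lg 0
  false 5 83 83 37 0 146160) (.nr 940 16385 (.nr 938 1025 (.lg 0 false 1 67 67 23 0 29232) (.nx 939
  131073 (.lg 2 true 1 59 59 23 12980 29232) .out)) .out)))) .out) .out) (.nx 955 1048577 (.nr 954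
  1482912 (.nr 944 178 .s1 (.nx 947 204 (.nx 946 203 (.nr 945 1836 (.l1 (.ls 19 23 234)) (.l1 .sk))
  (.l1 .sk)) (.nx 950 32769 (.lg 0 false 3 83 83 23 0 29232) (.nr 953 16385 (.nr 951 1025 (.lg 0
  false 1 67 67 19 0 29232) (.nx 952 131073 (.lg 2 true 1 59 59 19 12980 29232) .out)) .out))))
  .out) .out))) (.na 969 194 (.na 957 186 .ne (.nx 968 1048577 (.nr 967 1048577 (.nr 958 186 .s1
  (.nx 965 131073 (.nx 960 203 (.nr 959 1957 (.l1 (.ls 23 29 224)) (.l1 .sk)) (.nx 961 204 (.l1
  .sk) (.nr 962 65537 (.lg 0 false 1 89 89 29 0 29232) (.nx 964 16385 (.lg 0 false 2 83 89 29 0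
  29232) .out)))) (.nr 966 1025 (.lg 0 true 1 67 67 29 0 29232) .out))) .out) .out)) (.na 982 202
  (.nx 981 1048577 (.nr 980 1048577 (.nr 970 194 .s1 (.nx 976 32769 (.nx 972 203 (.nr 971 2038 (.l1
  (.ls 17 23 215)) (.l1 .sk)) (.nx 973 204 (.l1 .sk) (.lg 0 false 3 79 79 29 0 29232))) (.nr 979
  16385 (.nr 977 1025 (.lg 0 false 1 67 67 19 0 29232) (.nx 978 131073 (.lg 2 true 1 59 59 19 12980
  29232) .out)) .out))) .out) .out) (.nx 994 1048577 (.nr 993 1048577 (.nr 983 202 .s1 (.nx 989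
  32769 (.nx 985 203 (.nr 984 2159 (.l1 (.ls 19 23 207)) (.l1 .sk)) (.nx 986 204 (.l1 .sk) (.lg 0
  false 3 83 83 29 0 146160))) (.nr 992 16385 (.nr 990 1025 (.lg 0 false 1 67 67 23 0 146160) (.nx
  991 131073 (.lg 2 true 1 59 59 23 12980 146160) .out)) .out))) .out) .out)))) (.na 1039 256 (.na
  1019 238 (.na 1008 218 (.nx 1007 1048577 (.nr 1006 1048577 (.nr 996 214 .s1 (.nx 1002 32769 (.nx
  998 203 (.nr 997 2199 (.l1 (.ls 17 23 195)) (.l1 .sk)) (.nx 999 204 (.l1 .sk) (.lg 0 false 3 79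
  79 29 0 29232))) (.nr 1005 16385 (.nr 1003 1025 (.lg 0 false 1 61 61 23 0 29232) (.nx 1004 131073
  (.lg 2 false 1 53 53 23 12980 29232) .out)) .out))) .out) .out) (.nx 1018 1048577 (.nr 1017
  1048577 (.nr 1009 218 .s1 (.nx 1015 32769 (.nx 1011 203 (.nr 1010 2401 (.l1 (.ls 23 23 192)) (.l1
  .sk)) (.nx 1012 204 (.l1 .sk) (.lg 0 false 3 83 83 29 0 146160))) (.nr 1016 16385 (.lg 0 false 1
  83 83 23 0 29232) .out))) .out) .out)) (.na 1028 246 (.nx 1027 1048577 (.nr 1026 1048577 (.nr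
  1020 238 .s1 (.nx 1024 32769 (.nx 1022 203 (.nr 1021 2482 (.l1 (.ls 16 31 176)) (.l1 .sk)) (.nx
  1023 204 (.l1 .sk) (.lg 0 true 1 97 97 31 0 146160))) (.nr 1025 16385 (.lg 0 false 1 89 89 31 0
  146160) .out))) .out) .out) (.nx 1038 1048577 (.nr 1037 1048577 (.nr 1029 246 .s1 (.nx 1035
  131073 (.nx 1031 203 (.nr 1030 2583 (.l1 (.ls 23 31 170)) (.l1 .sk)) (.nx 1032 204 (.l1 .sk) (.nr
  1033 65537 (.lg 0 false 1 83 83 31 0 29232) (.nx 1034 16385 (.lg 0 false 1 83 83 31 0 29232)
  .out)))) (.nr 1036 1025 (.lg 0 true 1 67 67 31 0 29232) .out))) .out) .out))) (.na 1363 363 (.na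
  1040 257 .ne (.nx 1362 1048577 (.nr 1361 1482912 (.nr 1041 257 .s1 (.nx 1147 257 (.la (.ls 73 19
  259)) (.nr 1360 1048577 (.nr 1253 32769 (.la (.lg 0 true 2 79 79 23 0)) (.nx 1359 20644 (.la (.lg
  0 true 1 79 79 19 0)) .out)) .out))) .out) .out)) (.na 1815 512 (.nx 1814 1048577 (.nr 1813
  1482912 (.nr 1364 363 .s1 (.nx 1513 257 (.la (.ls 73 19 184)) (.nr 1812 1048577 (.nx 1662 20644
  (.la (.lg 0 true 1 73 73 23 0)) (.nr 1811 32769 (.la (.lg 2 false 1 71 71 23 293198)) .out))
  .out))) .out) .out) (.nx 2513 1048577 (.nr 2512 1482912 (.nr 1816 512 .s1 (.nx 2031 204 (.nx 2030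
  203 (.nr 2029 7314 (.la (.ls 31 23 182)) (.l1 .sk)) (.l1 .sk)) (.nx 2084 257 (.lx (.lp 41 0 182))
  (.nr 2511 1048577 (.nx 2297 20644 (.la (.lg 0 true 1 73 73 29 0)) (.nr 2510 32769 (.la (.lg 2
  false 1 67 67 29 207873)) .out)) .out)))) .out) .out))))) (.na 12278 11586 (.na 5424 2897 (.na
  3970 1449 (.na 3116 1024 (.nx 3115 13005 (.nr 3114 1048577 (.nr 2515 725 .s1 (.nx 2814 2049 (.la
  (.ls 67 41 5793)) (.nr 3113 65537 (.la (.lg 0 false 1 47 47 29 0)) .out))) .out) .out) (.nx 3969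
  13005 (.nr 3968 1048577 (.nr 3117 1024 .s1 (.nx 3542 3252 (.la (.ls 61 41 10330)) (.nr 3967 32769
  (.la (.lg 0 false 1 41 41 31 0)) .out))) .out) .out)) (.na 4572 2048 (.nx 4571 8193 (.nr 4570
  1048577 (.nr 3971 1449 .s1 (.la (.ls 61 47 46328))) .out) .out) (.nx 5423 8193 (.nr 5422 1048577
  (.nr 4573 2048 .s1 (.la (.ls 61 47 32779))) .out) .out))) (.na 8326 5793 (.na 6626 4096 (.nx 6625
  3252 (.nr 6624 524289 (.nr 5425 2897 .s1 (.la (.ls 53 37 3653))) .out) .out) (.nx 8325 3252 (.nr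
  8324 524289 (.nr 6627 4096 .s1 (.la (.ls 53 37 2584))) .out) .out)) (.na 10984 8192 (.nx 10983
  1292 (.nr 10982 262145 (.nr 8327 5793 .s1 (.nx 8583 256 (.nr 8582 131073 (.lx (.lp 41 31 2049))
  .out) (.la (.ls 43 37 2049)))) .out) .out) (.nx 12277 1292 (.nr 12276 262145 (.nr 10985 8192 .s1
  (.lx (.lp 43 41 2897))) .out) .out)))) (.na 17455 131072 (.na 14867 32768 (.na 13572 16384 (.nx
  13571 1292 (.nr 13570 131073 (.nr 12279 11586 .s1 (.lx (.lp 37 41 4097))) .out) .out) (.nx 14866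
  1292 (.nr 14865 262145 (.nr 13573 16384 .s1 (.nx 13829 257 (.lx (.lp 16 0 8193)) (.nr 14864
  131073 (.lx (.lp 37 43 8193)) .out))) .out) .out)) (.na 16161 65536 (.nx 16160 1292 (.nr 16159
  262145 (.nr 14868 32768 .s1 (.lx (.lp 37 47 16385))) .out) .out) (.nx 17454 1292 (.nr 17453
  524289 (.nr 16162 65536 .s1 (.lx (.lp 37 53 32769))) .out) .out))) (.na 18485 524288 (.na 17970
  262144 (.nx 17969 513 (.nr 17968 524289 (.nr 17456 131072 .s1 (.lx (.lp 16 0 65537))) .out) .out)
  (.nx 18484 513 (.nr 18483 1048577 (.nr 17971 262144 .s1 (.lx (.lp 16 0 131073))) .out) .out))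
  (.na 18487 1048577 (.nx 18486 257 (.l1 .sk) .out) .out))))))

def T74_1 : Ph :=
  (.na 670 2 (.nx 669 3329023 (.nr 668 881745 (.nx 3 240 (.nx 2 239 (.nr 1 16 (.lg 0 true 1 47 47 5
  0 720) (.l1 .sk)) (.l1 .sk)) (.nx 60 3250 (.nr 31 110219 (.lg 0 false 28 89 97 11 0 5040) (.nx 59
  408 (.lg 0 false 28 83 89 11 0 1008) .out)) (.nr 667 220437 (.nr 608 185365 (.nx 151 41287 (.lg 0
  false 91 101 107 16 0 720720) (.nr 607 155873 (.nr 320 2898 (.nx 284 1664512 (.nr 242 942 (.lg 0
  true 91 97 103 16 0 720720) (.nr 270 1724 (.lg 2 true 28 89 97 11 211157 5040) (.nx 283 1321124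
  (.lg 2 true 13 97 101 9 91575 9360) .out))) (.nr 319 154 (.lg 0 true 35 89 89 13 0 5040) .out))
  (.nx 606 1048577 (.nr 333 4872 (.lg 2 true 13 101 103 9 43239 720720) (.nx 424 65537 (.lg 1 false
  91 97 109 16 107993 720720) (.nr 605 110219 (.nr 437 8193 (.lg 2 true 13 101 103 9 25720 720720)
  (.nx 604 832257 (.nr 465 26009 (.lg 2 false 28 97 103 11 12139 720720) (.nr 522 65537 (.nr 493
  46342 (.lg 2 false 28 101 107 11 20300 720720) (.nx 521 524289 (.lg 2 true 28 101 107 11 28665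
  720720) .out)) (.nx 603 330282 (.nr 550 77937 (.lg 2 true 28 101 107 11 34069 720720) (.nx 602
  262145 (.lg 2 true 52 101 107 16 48138 720720) .out)) .out))) .out)) .out))) .out)) .out)) (.nx
  609 6501 .out (.nx 666 26009 (.nx 637 10323 (.lg 0 false 28 97 103 11 0 720720) (.nx 638 13003
  .out (.lg 0 false 28 101 103 11 0 720720))) .out))) .out))) .out) .out) (.nx 1079 3329023 (.nr
  1078 1763489 (.nx 1066 2642247 (.nx 673 240 (.nx 672 239 (.nr 671 29 (.lg 0 false 1 43 43 5 0
  720) (.l1 .sk)) (.l1 .sk)) (.nr 1021 262145 (.nx 750 52017 (.lg 0 false 77 101 109 13 0 720720)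
  (.nx 999 1048577 (.nr 785 941 (.lg 0 true 35 89 97 13 0 5040) (.nx 862 82572 (.lg 1 false 77 97
  107 13 144067 720720) (.nr 998 220437 (.nx 897 116773 (.lg 1 false 35 101 107 13 76330 720720)
  (.nr 911 3446 (.lg 2 true 14 89 97 9 133162 5040) (.nx 997 832257 (.nr 918 6599 (.lg 2 true 7 89
  89 9 28861 5040) (.nx 953 165142 (.lg 1 false 35 101 107 13 53974 720720) (.nr 996 155873 (.nr
  974 92683 (.lg 2 false 21 101 103 11 16071 720720) (.nx 995 262145 (.lg 2 false 21 101 107 11
  26999 720720) .out)) .out))) .out))) .out))) (.nr 1020 257 (.lg 0 true 21 83 83 11 0 1008)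
  .out))) (.nx 1065 52017 (.nx 1042 408 (.lg 0 false 21 83 83 11 0 1008) (.nx 1043 26007 .out (.nr
  1064 311745 (.lg 0 false 21 101 103 11 0 720720) .out))) .out))) (.nr 1077 9 (.lg 0 true 11 67 67
  9 0 1584) .out)) .out) .out))

def T74_2 : Ph :=
  (.na 317 136 (.na 186 57 (.na 122 17 (.na 83 8 (.na 45 3 (.na 44 2 (.nx 43 52017 (.nr 42 311745
  (.nx 3 9 (.nx 2 8 (.nr 1 4 (.lg 0 true 1 16 16 5 0 144) (.l1 .sk)) (.l1 .sk)) (.nr 26 4872 (.nx
  13 1036 (.lg 0 true 10 67 67 9 0 720) (.nr 20 155 (.lg 0 false 7 71 71 9 0 504) (.nx 25 10323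
  (.lg 1 false 5 73 73 9 267 720) .out))) (.nx 41 27 (.lg 0 false 15 67 67 9 0 360) .out))) .out)
  .out) .ne) (.na 69 4 (.nx 68 165142 (.nr 67 4872 (.nr 46 2 .s1 (.nx 47 27 (.l1 (.ls 59 19 245))
  (.nr 66 1724 (.nx 48 152 (.l1 (.ls 59 41 7461)) (.nr 63 217 (.nx 50 1036 (.nr 49 70 (.lg 0 false
  1 53 53 5 0 72) (.lg 2 false 1 41 41 5 60 72)) (.lg 0 true 13 71 71 16 0 936)) (.nx 65 10323 (.lg
  2 true 2 61 61 7 366 144) .out))) .out))) .out) .out) (.na 82 5 (.nx 81 20644 (.nr 80 2437 (.nr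
  70 3 .s1 (.nx 76 1627 (.nx 72 8 (.nr 71 10 (.l1 (.ls 16 11 18)) (.l1 .sk)) (.nx 73 9 (.l1 .sk)
  (.lg 0 true 3 59 59 9 0 144))) (.nr 79 109 (.lg 0 false 3 59 59 9 0 144) .out))) .out) .out)
  .ne))) (.na 104 11 (.na 92 9 (.nx 91 20644 (.nr 90 3446 (.nr 84 8 .s1 (.nx 87 9 (.nx 86 8 (.nr 85
  19 (.l1 (.ls 16 9 10)) (.l1 .sk)) (.l1 .sk)) (.lg 0 false 3 73 73 11 0 144))) .out) .out) (.na
  103 10 (.nx 102 20644 (.nr 101 3446 (.nr 93 9 .s1 (.nx 95 8 (.nr 94 21 (.l1 (.ls 16 13 10)) (.l1
  .sk)) (.nx 96 9 (.l1 .sk) (.lg 0 false 5 67 67 16 0 360)))) .out) .out) .ne)) (.na 113 12 (.nx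
  112 20644 (.nr 111 3446 (.nr 105 11 .s1 (.nx 107 8 (.nr 106 25 (.l1 (.ls 16 9 8)) (.l1 .sk)) (.nx
  108 9 (.l1 .sk) (.lg 0 false 3 67 67 9 0 792)))) .out) .out) (.na 121 16 (.nx 120 20644 (.nr 119
  3446 (.nr 114 12 .s1 (.nx 117 9 (.nx 116 8 (.nr 115 33 (.l1 (.ls 16 13 8)) (.l1 .sk)) (.l1 .sk))
  (.lg 0 false 2 71 71 13 0 144))) .out) .out) .ne)))) (.na 150 33 (.na 137 24 (.na 129 19 (.nx 128
  20644 (.nr 127 6890 (.nr 123 17 .s1 (.nx 124 27 (.l1 (.ls 59 16 45)) (.nr 126 3446 (.lg 0 false 2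
  71 71 11 0 144) .out))) .out) .out) (.na 136 23 (.nx 135 20644 (.nr 134 6890 (.nr 130 19 .s1 (.nx
  131 27 (.l1 (.ls 41 16 41)) (.nr 133 3446 (.lg 0 false 2 67 67 11 0 144) .out))) .out) .out)
  .ne)) (.na 143 27 (.nx 142 20644 (.nr 141 6890 (.nr 138 24 .s1 (.nx 139 163 (.l1 (.ls 47 41
  1110)) (.nr 140 257 (.lg 0 false 1 53 53 13 0 144) .out))) .out) .out) (.na 149 32 (.nx 148 20644
  (.nr 147 6890 (.nr 144 27 .s1 (.nx 145 163 (.l1 (.ls 41 29 987)) (.nr 146 257 (.lg 0 false 1 47
  47 16 0 72) .out))) .out) .out) .ne))) (.na 168 43 (.na 156 36 (.nx 155 10323 (.nr 154 4097 (.nr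
  151 33 .s1 (.nx 152 27 (.l1 (.ls 43 16 25)) (.nr 153 1724 (.lg 0 false 1 59 59 16 0 792) .out)))
  .out) .out) (.na 162 41 (.nx 161 10323 (.nr 160 4097 (.nr 157 36 .s1 (.nx 158 27 (.l1 (.ls 41 17
  23)) (.nr 159 1724 (.lg 0 false 1 59 59 19 0 144) .out))) .out) .out) (.nx 167 10323 (.nr 166
  4097 (.nr 163 41 .s1 (.nx 164 27 (.l1 (.ls 29 16 20)) (.nr 165 1724 (.lg 0 false 1 59 59 16 0 72)
  .out))) .out) .out))) (.na 174 44 (.nx 173 10323 (.nr 172 4097 (.nr 169 43 .s1 (.nx 170 163 (.l1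
  (.ls 37 23 620)) (.nr 171 513 (.lg 0 false 1 47 47 16 0 72) .out))) .out) .out) (.na 180 51 (.nx
  179 10323 (.nr 178 4097 (.nr 175 44 .s1 (.nx 176 27 (.l1 (.ls 41 13 19)) (.nr 177 1724 (.lg 0
  true 1 53 53 19 0 1584) .out))) .out) .out) (.nx 185 10323 (.nr 184 4097 (.nr 181 51 .s1 (.nx 182
  27 (.l1 (.ls 37 16 17)) (.nr 183 1724 (.lg 0 false 1 53 53 16 0 144) .out))) .out) .out))))))
  (.na 250 89 (.na 212 72 (.na 198 64 (.na 192 59 (.nx 191 10323 (.nr 190 4097 (.nr 187 57 .s1 (.nx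
  188 163 (.l1 (.ls 43 29 469)) (.nr 189 513 (.lg 0 true 1 47 47 16 0 72) .out))) .out) .out) (.nx
  197 10323 (.nr 196 4097 (.nr 193 59 .s1 (.nx 194 163 (.l1 (.ls 29 19 453)) (.nr 195 513 (.lg 0
  true 1 37 37 16 0 72) .out))) .out) .out)) (.na 199 67 .ne (.na 205 68 (.nx 204 20644 (.nr 203
  2049 (.nr 200 67 .s1 (.nx 201 163 (.l1 (.ls 29 19 399)) (.nr 202 513 (.lg 0 false 1 43 43 16 0
  72) .out))) .out) .out) (.nx 211 20644 (.nr 210 2049 (.nr 206 68 .s1 (.nx 208 8 (.nr 207 149 (.l1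
  (.ls 16 13 19)) (.l1 .sk)) (.nx 209 9 (.l1 .sk) (.lg 0 false 1 61 61 13 0 720)))) .out) .out))))
  (.na 232 81 (.na 219 73 (.nx 218 20644 (.nr 217 2049 (.nr 213 72 .s1 (.nx 215 8 (.nr 214 151 (.l1
  (.ls 16 13 19)) (.l1 .sk)) (.nx 216 9 (.l1 .sk) (.lg 0 true 1 53 53 23 0 144)))) .out) .out) (.na
  225 76 (.nx 224 20644 (.nr 223 2049 (.nr 220 73 .s1 (.nx 221 163 (.l1 (.ls 29 19 366)) (.nr 222
  513 (.lg 2 true 1 29 29 16 1132 5040) .out))) .out) .out) (.nx 231 20644 (.nr 230 2049 (.nr 226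
  76 .s1 (.nx 228 8 (.nr 227 168 (.l1 (.ls 16 13 21)) (.l1 .sk)) (.nx 229 9 (.l1 .sk) (.lg 0 false
  1 59 59 17 0 144)))) .out) .out))) (.na 238 83 (.nx 237 20644 (.nr 236 2049 (.nr 233 81 .s1 (.nx
  234 163 (.l1 (.ls 23 23 331)) (.nr 235 513 (.lg 2 true 1 23 23 16 1020 1008) .out))) .out) .out)
  (.na 244 88 (.nx 243 20644 (.nr 242 2049 (.nr 239 83 .s1 (.nx 240 163 (.l1 (.ls 23 19 323)) (.nr
  241 513 (.lg 2 true 1 23 23 16 995 720) .out))) .out) .out) (.nx 249 20644 (.nr 248 2049 (.nr 245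
  88 .s1 (.nx 246 163 (.l1 (.ls 37 31 304)) (.nr 247 513 (.lg 0 true 1 47 47 23 0 1584) .out)))
  .out) .out))))) (.na 286 121 (.na 268 107 (.na 256 97 (.nx 255 20644 (.nr 254 2049 (.nr 251 89
  .s1 (.nx 252 163 (.l1 (.ls 19 17 301)) (.nr 253 513 (.lg 2 false 1 19 19 16 928 144) .out)))
  .out) .out) (.na 262 99 (.nx 261 20644 (.nr 260 2049 (.nr 257 97 .s1 (.nx 258 163 (.l1 (.ls 23 17
  276)) (.nr 259 513 (.lg 2 true 1 19 19 16 852 720) .out))) .out) .out) (.nx 267 20644 (.nr 266
  2049 (.nr 263 99 .s1 (.nx 264 163 (.l1 (.ls 29 29 271)) (.nr 265 513 (.lg 0 true 1 43 43 19 0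
  1584) .out))) .out) .out))) (.na 274 108 (.nx 273 20644 (.nr 272 2049 (.nr 269 107 .s1 (.nx 270
  163 (.l1 (.ls 23 17 251)) (.nr 271 513 (.lg 2 false 1 19 19 16 772 7920) .out))) .out) .out) (.na
  280 113 (.nx 279 20644 (.nr 278 2049 (.nr 275 108 .s1 (.nx 276 163 (.l1 (.ls 31 31 249)) (.nr 277
  513 (.lg 2 false 1 29 29 23 765 5040) .out))) .out) .out) (.nx 285 20644 (.nr 284 2049 (.nr 281
  113 .s1 (.nx 282 163 (.l1 (.ls 23 17 238)) (.nr 283 513 (.lg 2 true 1 19 19 16 731 7920) .out)))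
  .out) .out)))) (.na 299 129 (.na 292 123 (.nx 291 20644 (.nr 290 2049 (.nr 287 121 .s1 (.nx 288
  163 (.l1 (.ls 19 19 222)) (.nr 289 513 (.lg 2 true 1 17 17 17 683 1584) .out))) .out) .out) (.na
  298 128 (.nx 297 20644 (.nr 296 2049 (.nr 293 123 .s1 (.nx 294 163 (.l1 (.ls 29 19 219)) (.nr 295
  513 (.lg 2 true 1 23 23 17 672 5040) .out))) .out) .out) .ne)) (.na 305 131 (.nx 304 10323 (.nr
  303 2049 (.nr 300 129 .s1 (.nx 301 163 (.l1 (.ls 23 19 208)) (.nr 302 513 (.lg 2 false 1 19 19 19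
  321 11088) .out))) .out) .out) (.na 311 132 (.nx 310 10323 (.nr 309 2049 (.nr 306 131 .s1 (.nx
  307 163 (.l1 (.ls 17 17 205)) (.nr 308 513 (.lg 2 false 1 16 16 16 316 7920) .out))) .out) .out)
  (.nx 316 10323 (.nr 315 2049 (.nr 312 132 .s1 (.nx 313 163 (.l1 (.ls 37 31 204)) (.nr 314 513
  (.lg 0 true 1 41 47 31 0 7920) .out))) .out) .out))))))) (.na 410 204 (.na 363 171 (.na 337 152
  (.na 329 139 (.na 323 137 (.nx 322 10323 (.nr 321 2049 (.nr 318 136 .s1 (.nx 319 163 (.l1 (.ls 16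
  29 198)) (.nr 320 513 (.lg 2 false 1 16 19 29 304 1008) .out))) .out) .out) (.nx 328 10323 (.nr
  327 2049 (.nr 324 137 .s1 (.nx 325 163 (.l1 (.ls 19 17 196)) (.nr 326 513 (.lg 2 false 1 16 16 16
  302 5040) .out))) .out) .out)) (.na 335 149 (.nx 334 10323 (.nr 333 2049 (.nr 330 139 .s1 (.nx
  331 163 (.l1 (.ls 17 17 194)) (.nr 332 513 (.lg 2 false 1 16 16 16 298 55440) .out))) .out) .out)
  (.na 336 151 (.lg 0 false 1 0 0 16 0 24) (.lg 0 false 1 0 0 16 0 24)))) (.na 350 163 (.na 343 153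
  (.nx 342 10323 (.nr 341 2049 (.nr 338 152 .s1 (.nx 339 163 (.l1 (.ls 17 29 177)) (.nr 340 513
  (.lg 2 true 1 16 16 29 272 720) .out))) .out) .out) (.na 349 157 (.nx 348 10323 (.nr 347 2049
  (.nr 344 153 .s1 (.nx 345 163 (.l1 (.ls 16 23 176)) (.nr 346 513 (.lg 2 true 1 16 19 23 270 720)
  .out))) .out) .out) (.lg 0 false 1 0 0 16 0 24))) (.na 356 164 (.nx 355 10323 (.nr 354 2049 (.nr
  351 163 .s1 (.nx 352 163 (.l1 (.ls 17 17 165)) (.nr 353 513 (.lg 2 true 1 16 16 16 254 7920)
  .out))) .out) .out) (.na 362 167 (.nx 361 10323 (.nr 360 2049 (.nr 357 164 .s1 (.nx 358 163 (.l1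
  (.ls 23 23 165)) (.nr 359 513 (.lg 2 true 1 17 17 23 252 1008) .out))) .out) .out) (.lg 0 false 1
  0 0 16 0 24))))) (.na 389 187 (.na 376 177 (.na 369 172 (.nx 368 10323 (.nr 367 2049 (.nr 364 171
  .s1 (.nx 365 163 (.l1 (.ls 17 17 158)) (.nr 366 513 (.lg 2 true 1 16 16 17 242 1008) .out)))
  .out) .out) (.na 375 173 (.nx 374 10323 (.nr 373 2049 (.nr 370 172 .s1 (.nx 371 163 (.l1 (.ls 29
  23 157)) (.nr 372 513 (.lg 2 false 1 16 16 23 241 5040) .out))) .out) .out) (.lg 0 false 1 0 0 16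
  0 24))) (.na 382 179 (.nx 381 10323 (.nr 380 2049 (.nr 377 177 .s1 (.nx 378 163 (.l1 (.ls 23 19
  153)) (.nr 379 513 (.lg 2 false 1 17 17 19 234 102960) .out))) .out) .out) (.na 388 181 (.nx 387
  10323 (.nr 386 2049 (.nr 383 179 .s1 (.nx 384 163 (.l1 (.ls 17 17 151)) (.nr 385 513 (.lg 2 false
  1 16 16 16 231 720720) .out))) .out) .out) (.lg 0 false 1 0 0 16 0 24)))) (.na 402 197 (.na 395
  191 (.nx 394 10323 (.nr 393 2049 (.nr 390 187 .s1 (.nx 391 163 (.l1 (.ls 16 23 145)) (.nr 392 513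
  (.lg 2 false 1 16 16 23 221 7920) .out))) .out) .out) (.na 396 193 (.lg 0 false 1 0 0 16 0 24)
  (.nx 401 10323 (.nr 400 2049 (.nr 397 193 .s1 (.nx 398 163 (.l1 (.ls 19 17 140)) (.nr 399 513
  (.lg 2 false 1 16 16 16 214 720720) .out))) .out) .out))) (.na 403 199 (.lg 0 false 1 0 0 16 0
  24) (.na 404 201 (.lg 0 false 1 0 0 16 0 24) (.nx 409 10323 (.nr 408 2049 (.nr 405 201 .s1 (.nx
  406 163 (.l1 (.ls 19 19 135)) (.nr 407 513 (.lg 2 false 1 16 16 19 206 7920) .out))) .out)
  .out)))))) (.na 466 239 (.na 440 223 (.na 422 211 (.na 416 209 (.nx 415 10323 (.nr 414 2049 (.nr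
  411 204 .s1 (.nx 412 163 (.l1 (.ls 16 31 133)) (.nr 413 513 (.lg 2 true 1 0 16 37 203 144)
  .out))) .out) .out) (.nx 421 10323 (.nr 420 2049 (.nr 417 209 .s1 (.nx 418 163 (.l1 (.ls 17 17
  130)) (.nr 419 513 (.lg 2 true 1 16 16 17 198 55440) .out))) .out) .out)) (.na 428 216 (.nx 427
  10323 (.nr 426 2049 (.nr 423 211 .s1 (.nx 424 163 (.l1 (.ls 16 17 128)) (.nr 425 513 (.lg 2 true
  1 16 16 16 196 720720) .out))) .out) .out) (.na 434 219 (.nx 433 10323 (.nr 432 2049 (.nr 429 216
  .s1 (.nx 430 163 (.l1 (.ls 19 29 126)) (.nr 431 513 (.lg 2 true 1 17 17 29 192 720720) .out)))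
  .out) .out) (.nx 439 10323 (.nr 438 2049 (.nr 435 219 .s1 (.nx 436 163 (.l1 (.ls 19 19 124)) (.nr
  437 513 (.lg 2 true 1 16 16 19 189 102960) .out))) .out) .out)))) (.na 453 229 (.na 441 227 (.lg
  0 false 1 0 0 16 0 24) (.na 447 228 (.nx 446 10323 (.nr 445 2049 (.nr 442 227 .s1 (.nx 443 163
  (.l1 (.ls 17 17 120)) (.nr 444 513 (.lg 2 true 1 16 16 17 182 720720) .out))) .out) .out) (.nx
  452 10323 (.nr 451 2049 (.nr 448 228 .s1 (.nx 449 163 (.l1 (.ls 17 31 119)) (.nr 450 513 (.lg 2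
  false 1 17 23 37 182 55440) .out))) .out) .out))) (.na 454 233 (.lg 0 false 1 0 0 16 0 24) (.na
  460 236 (.nx 459 10323 (.nr 458 2049 (.nr 455 233 .s1 (.nx 456 163 (.l1 (.ls 16 17 117)) (.nr 457
  513 (.lg 2 true 1 16 16 17 178 720720) .out))) .out) .out) (.nx 465 10323 (.nr 464 2049 (.nr 461
  236 .s1 (.nx 462 163 (.l1 (.ls 19 23 115)) (.nr 463 513 (.lg 2 false 1 16 16 23 175 102960)
  .out))) .out) .out))))) (.na 492 257 (.na 479 249 (.na 467 241 (.lg 0 false 1 0 0 16 0 24) (.na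
  473 243 (.nx 472 10323 (.nr 471 2049 (.nr 468 241 .s1 (.nx 469 163 (.l1 (.ls 16 17 113)) (.nr 470
  513 (.lg 2 true 1 16 16 17 172 720720) .out))) .out) .out) (.nx 478 10323 (.nr 477 2049 (.nr 474
  243 .s1 (.nx 475 163 (.l1 (.ls 17 19 112)) (.nr 476 513 (.lg 2 false 1 16 16 19 170 720720)
  .out))) .out) .out))) (.na 485 251 (.nx 484 10323 (.nr 483 2049 (.nr 480 249 .s1 (.nx 481 163
  (.l1 (.ls 19 19 109)) (.nr 482 513 (.lg 2 false 1 17 17 19 166 720720) .out))) .out) .out) (.na
  491 256 (.nx 490 10323 (.nr 489 2049 (.nr 486 251 .s1 (.nx 487 163 (.l1 (.ls 16 17 108)) (.nr 488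
  513 (.lg 2 false 1 16 16 16 165 720720) .out))) .out) .out) .ne))) (.na 907 2048 (.na 658 512
  (.nx 657 163 (.nr 656 4097 (.nr 493 257 .s1 (.nx 574 82 (.lx (.lp 37 17 129)) (.nr 655 2049 (.lx
  (.lp 23 19 129)) .out))) .out) .out) (.na 823 1024 (.nx 822 163 (.nr 821 4097 (.nr 659 512 .s1
  (.lx (.lp 29 23 257))) .out) .out) (.nx 906 82 (.nr 905 8193 (.nr 824 1024 .s1 (.lx (.lp 29 23
  513))) .out) .out))) (.na 991 4096 (.nx 990 82 (.nr 989 8193 (.nr 908 2048 .s1 (.lx (.lp 19 29
  1025))) .out) .out) (.na 1075 8193 (.nx 1074 82 (.nr 1073 16385 (.nr 992 4096 .s1 (.lx (.lp 19 31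
  2049))) .out) .out) .out)))))))

theorem c74 :
    OkQ ckI L9 203 1 1099511627776 0 34359738368 1 1099511627776 ∧
    OkQ ckI L10 239 1 3 0 34359738368 1 1099511627776 ∧
    OkQ ckI L1 8 1 1099511627776 0 34359738368 1 1099511627776 := by
  refine ⟨?_, ?_, ?_⟩
  · refine fin 14616 18488 T74_0 ?_
    refine jn 10 (by decide +kernel) ?_
    refine jn 16 (by decide +kernel) ?_
    refine jn 23 (by decide +kernel) ?_
    refine jn 28 (by decide +kernel) ?_
    refine jn 34 (by decide +kernel) ?_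
    refine jn 50 (by decide +kernel) ?_
    refine jn 71 (by decide +kernel) ?_
    refine jn 82 (by decide +kernel) ?_
    refine jn 95 (by decide +kernel) ?_
    refine jn 107 (by decide +kernel) ?_
    refine jn 136 (by decide +kernel) ?_
    refine jn 158 (by decide +kernel) ?_
    refine jn 174 (by decide +kernel) ?_
    refine jn 202 (by decide +kernel) ?_
    refine jn 222 (by decide +kernel) ?_
    refine jn 241 (by decide +kernel) ?_
    refine jn 270 (by decide +kernel) ?_
    refine jn 299 (by decide +kernel) ?_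
    refine jn 321 (by decide +kernel) ?_
    refine jn 323 (by decide +kernel) ?_
    refine jn 325 (by decide +kernel) ?_
    refine jn 327 (by decide +kernel) ?_
    refine jn 328 (by decide +kernel) ?_
    refine jn 329 (by decide +kernel) ?_
    refine jn 330 (by decide +kernel) ?_
    refine jn 331 (by decide +kernel) ?_
    refine jn 333 (by decide +kernel) ?_
    refine jn 335 (by decide +kernel) ?_
    refine jn 336 (by decide +kernel) ?_
    refine jn 344 (by decide +kernel) ?_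
    refine jn 347 (by decide +kernel) ?_
    refine jn 350 (by decide +kernel) ?_
    refine jn 352 (by decide +kernel) ?_
    refine jn 359 (by decide +kernel) ?_
    refine jn 365 (by decide +kernel) ?_
    refine jn 375 (by decide +kernel) ?_
    refine jn 385 (by decide +kernel) ?_
    refine jn 395 (by decide +kernel) ?_
    refine jn 405 (by decide +kernel) ?_
    refine jn 418 (by decide +kernel) ?_
    refine jn 419 (by decide +kernel) ?_
    refine jn 426 (by decide +kernel) ?_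
    refine jn 468 (by decide +kernel) ?_
    refine jn 492 (by decide +kernel) ?_
    refine jn 507 (by decide +kernel) ?_
    refine jn 526 (by decide +kernel) ?_
    refine jn 536 (by decide +kernel) ?_
    refine jn 538 (by decide +kernel) ?_
    refine jn 541 (by decide +kernel) ?_
    refine jn 544 (by decide +kernel) ?_
    refine jn 546 (by decide +kernel) ?_
    refine jn 551 (by decide +kernel) ?_
    refine jn 558 (by decide +kernel) ?_
    refine jn 559 (by decide +kernel) ?_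
    refine jn 560 (by decide +kernel) ?_
    refine jn 561 (by decide +kernel) ?_
    refine jn 562 (by decide +kernel) ?_
    refine jn 563 (by decide +kernel) ?_
    refine jn 564 (by decide +kernel) ?_
    refine jn 565 (by decide +kernel) ?_
    refine jn 566 (by decide +kernel) ?_
    refine jn 567 (by decide +kernel) ?_
    refine jn 568 (by decide +kernel) ?_
    refine jn 569 (by decide +kernel) ?_
    refine jn 580 (by decide +kernel) ?_
    refine jn 594 (by decide +kernel) ?_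
    refine jn 609 (by decide +kernel) ?_
    refine jn 615 (by decide +kernel) ?_
    refine jn 626 (by decide +kernel) ?_
    refine jn 632 (by decide +kernel) ?_
    refine jn 643 (by decide +kernel) ?_
    refine jn 656 (by decide +kernel) ?_
    refine jn 661 (by decide +kernel) ?_
    refine jn 668 (by decide +kernel) ?_
    refine jn 680 (by decide +kernel) ?_
    refine jn 688 (by decide +kernel) ?_
    refine jn 700 (by decide +kernel) ?_
    refine jn 708 (by decide +kernel) ?_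
    refine jn 728 (by decide +kernel) ?_
    refine jn 739 (by decide +kernel) ?_
    refine jn 746 (by decide +kernel) ?_
    refine jn 763 (by decide +kernel) ?_
    refine jn 777 (by decide +kernel) ?_
    refine jn 787 (by decide +kernel) ?_
    refine jn 788 (by decide +kernel) ?_
    refine jn 789 (by decide +kernel) ?_
    refine jn 790 (by decide +kernel) ?_
    refine jn 791 (by decide +kernel) ?_
    refine jn 795 (by decide +kernel) ?_
    refine jn 810 (by decide +kernel) ?_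
    refine jn 821 (by decide +kernel) ?_
    refine jn 825 (by decide +kernel) ?_
    refine jn 839 (by decide +kernel) ?_
    refine jn 854 (by decide +kernel) ?_
    refine jn 870 (by decide +kernel) ?_
    refine jn 881 (by decide +kernel) ?_
    refine jn 895 (by decide +kernel) ?_
    refine jn 910 (by decide +kernel) ?_
    refine jn 923 (by decide +kernel) ?_
    refine jn 938 (by decide +kernel) ?_
    refine jn 952 (by decide +kernel) ?_
    refine jn 964 (by decide +kernel) ?_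
    refine jn 977 (by decide +kernel) ?_
    refine jn 991 (by decide +kernel) ?_
    refine jn 1009 (by decide +kernel) ?_
    refine jn 1024 (by decide +kernel) ?_
    refine jn 1034 (by decide +kernel) ?_
    refine jn 1126 (by decide +kernel) ?_
    refine jn 1172 (by decide +kernel) ?_
    refine jn 1188 (by decide +kernel) ?_
    refine jn 1196 (by decide +kernel) ?_
    refine jn 1204 (by decide +kernel) ?_
    refine jn 1208 (by decide +kernel) ?_
    refine jn 1212 (by decide +kernel) ?_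
    refine jn 1232 (by decide +kernel) ?_
    refine jn 1248 (by decide +kernel) ?_
    refine jn 1278 (by decide +kernel) ?_
    refine jn 1298 (by decide +kernel) ?_
    refine jn 1310 (by decide +kernel) ?_
    refine jn 1318 (by decide +kernel) ?_
    refine jn 1354 (by decide +kernel) ?_
    refine jn 1467 (by decide +kernel) ?_
    refine jn 1528 (by decide +kernel) ?_
    refine jn 1552 (by decide +kernel) ?_
    refine jn 1564 (by decide +kernel) ?_
    refine jn 1584 (by decide +kernel) ?_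
    refine jn 1608 (by decide +kernel) ?_
    refine jn 1636 (by decide +kernel) ?_
    refine jn 1665 (by decide +kernel) ?_
    refine jn 1685 (by decide +kernel) ?_
    refine jn 1705 (by decide +kernel) ?_
    refine jn 1725 (by decide +kernel) ?_
    refine jn 1737 (by decide +kernel) ?_
    refine jn 1765 (by decide +kernel) ?_
    refine jn 1785 (by decide +kernel) ?_
    refine jn 1858 (by decide +kernel) ?_
    refine jn 1998 (by decide +kernel) ?_
    refine jn 2106 (by decide +kernel) ?_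
    refine jn 2126 (by decide +kernel) ?_
    refine jn 2146 (by decide +kernel) ?_
    refine jn 2158 (by decide +kernel) ?_
    refine jn 2194 (by decide +kernel) ?_
    refine jn 2218 (by decide +kernel) ?_
    refine jn 2249 (by decide +kernel) ?_
    refine jn 2307 (by decide +kernel) ?_
    refine jn 2327 (by decide +kernel) ?_
    refine jn 2347 (by decide +kernel) ?_
    refine jn 2367 (by decide +kernel) ?_
    refine jn 2399 (by decide +kernel) ?_
    refine jn 2431 (by decide +kernel) ?_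
    refine jn 2443 (by decide +kernel) ?_
    refine jn 2507 (by decide +kernel) ?_
    refine jn 2588 (by decide +kernel) ?_
    refine jn 2696 (by decide +kernel) ?_
    refine jn 2764 (by decide +kernel) ?_
    refine jn 2831 (by decide +kernel) ?_
    refine jn 2887 (by decide +kernel) ?_
    refine jn 2951 (by decide +kernel) ?_
    refine jn 3003 (by decide +kernel) ?_
    refine jn 3031 (by decide +kernel) ?_
    refine jn 3075 (by decide +kernel) ?_
    refine jn 3147 (by decide +kernel) ?_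
    refine jn 3235 (by decide +kernel) ?_
    refine jn 3331 (by decide +kernel) ?_
    refine jn 3439 (by decide +kernel) ?_
    refine jn 3519 (by decide +kernel) ?_
    refine jn 3604 (by decide +kernel) ?_
    refine jn 3696 (by decide +kernel) ?_
    refine jn 3744 (by decide +kernel) ?_
    refine jn 3820 (by decide +kernel) ?_
    refine jn 3892 (by decide +kernel) ?_
    refine jn 3952 (by decide +kernel) ?_
    refine jn 4048 (by decide +kernel) ?_
    refine jn 4120 (by decide +kernel) ?_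
    refine jn 4180 (by decide +kernel) ?_
    refine jn 4240 (by decide +kernel) ?_
    refine jn 4280 (by decide +kernel) ?_
    refine jn 4340 (by decide +kernel) ?_
    refine jn 4428 (by decide +kernel) ?_
    refine jn 4484 (by decide +kernel) ?_
    refine jn 4560 (by decide +kernel) ?_
    refine jn 4667 (by decide +kernel) ?_
    refine jn 4731 (by decide +kernel) ?_
    refine jn 4843 (by decide +kernel) ?_
    refine jn 4920 (by decide +kernel) ?_
    refine jn 5027 (by decide +kernel) ?_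
    refine jn 5103 (by decide +kernel) ?_
    refine jn 5179 (by decide +kernel) ?_
    refine jn 5279 (by decide +kernel) ?_
    refine jn 5351 (by decide +kernel) ?_
    refine jn 5486 (by decide +kernel) ?_
    refine jn 5610 (by decide +kernel) ?_
    refine jn 5794 (by decide +kernel) ?_
    refine jn 5922 (by decide +kernel) ?_
    refine jn 6082 (by decide +kernel) ?_
    refine jn 6254 (by decide +kernel) ?_
    refine jn 6414 (by decide +kernel) ?_
    refine jn 6594 (by decide +kernel) ?_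
    refine jn 6713 (by decide +kernel) ?_
    refine jn 6853 (by decide +kernel) ?_
    refine jn 7049 (by decide +kernel) ?_
    refine jn 7209 (by decide +kernel) ?_
    refine jn 7421 (by decide +kernel) ?_
    refine jn 7589 (by decide +kernel) ?_
    refine jn 7769 (by decide +kernel) ?_
    refine jn 7937 (by decide +kernel) ?_
    refine jn 8129 (by decide +kernel) ?_
    refine jn 8309 (by decide +kernel) ?_
    refine jn 8703 (by decide +kernel) ?_
    refine jn 9012 (by decide +kernel) ?_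
    refine jn 9328 (by decide +kernel) ?_
    refine jn 9624 (by decide +kernel) ?_
    refine jn 9932 (by decide +kernel) ?_
    refine jn 10244 (by decide +kernel) ?_
    refine jn 10556 (by decide +kernel) ?_
    refine jn 10912 (by decide +kernel) ?_
    refine jn 11277 (by decide +kernel) ?_
    refine jn 11596 (by decide +kernel) ?_
    refine jn 11807 (by decide +kernel) ?_
    refine jn 11955 (by decide +kernel) ?_
    refine jn 12094 (by decide +kernel) ?_
    refine jn 12201 (by decide +kernel) ?_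
    refine jn 12405 (by decide +kernel) ?_
    refine jn 12885 (by decide +kernel) ?_
    refine jn 13119 (by decide +kernel) ?_
    refine jn 13299 (by decide +kernel) ?_
    refine jn 13454 (by decide +kernel) ?_
    refine jn 13573 (by decide +kernel) ?_
    refine jn 14108 (by decide +kernel) ?_
    refine jn 14311 (by decide +kernel) ?_
    refine jn 14449 (by decide +kernel) ?_
    refine jn 14586 (by decide +kernel) ?_
    refine jn 14703 (by decide +kernel) ?_
    refine jn 14797 (by decide +kernel) ?_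
    refine jn 15141 (by decide +kernel) ?_
    refine jn 15545 (by decide +kernel) ?_
    refine jn 15792 (by decide +kernel) ?_
    refine jn 15966 (by decide +kernel) ?_
    refine jn 16126 (by decide +kernel) ?_
    refine jn 16724 (by decide +kernel) ?_
    refine jn 17050 (by decide +kernel) ?_
    refine jn 17310 (by decide +kernel) ?_
    refine jn 17456 (by decide +kernel) ?_
    exact je (by decide +kernel)
  · refine fin 72 1080 T74_1 ?_
    refine jn 7 (by decide +kernel) ?_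
    refine jn 12 (by decide +kernel) ?_
    refine jn 16 (by decide +kernel) ?_
    refine jn 19 (by decide +kernel) ?_
    refine jn 23 (by decide +kernel) ?_
    refine jn 28 (by decide +kernel) ?_
    refine jn 31 (by decide +kernel) ?_
    refine jn 59 (by decide +kernel) ?_
    refine jn 66 (by decide +kernel) ?_
    refine jn 72 (by decide +kernel) ?_
    refine jn 79 (by decide +kernel) ?_
    refine jn 86 (by decide +kernel) ?_
    refine jn 93 (by decide +kernel) ?_
    refine jn 98 (by decide +kernel) ?_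
    refine jn 104 (by decide +kernel) ?_
    refine jn 110 (by decide +kernel) ?_
    refine jn 117 (by decide +kernel) ?_
    refine jn 122 (by decide +kernel) ?_
    refine jn 129 (by decide +kernel) ?_
    refine jn 135 (by decide +kernel) ?_
    refine jn 142 (by decide +kernel) ?_
    refine jn 146 (by decide +kernel) ?_
    refine jn 151 (by decide +kernel) ?_
    refine jn 163 (by decide +kernel) ?_
    refine jn 174 (by decide +kernel) ?_
    refine jn 186 (by decide +kernel) ?_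
    refine jn 198 (by decide +kernel) ?_
    refine jn 210 (by decide +kernel) ?_
    refine jn 223 (by decide +kernel) ?_
    refine jn 236 (by decide +kernel) ?_
    refine jn 242 (by decide +kernel) ?_
    refine jn 270 (by decide +kernel) ?_
    refine jn 283 (by decide +kernel) ?_
    refine jn 284 (by decide +kernel) ?_
    refine jn 314 (by decide +kernel) ?_
    refine jn 333 (by decide +kernel) ?_
    refine jn 348 (by decide +kernel) ?_
    refine jn 364 (by decide +kernel) ?_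
    refine jn 379 (by decide +kernel) ?_
    refine jn 394 (by decide +kernel) ?_
    refine jn 411 (by decide +kernel) ?_
    refine jn 424 (by decide +kernel) ?_
    refine jn 437 (by decide +kernel) ?_
    refine jn 461 (by decide +kernel) ?_
    refine jn 482 (by decide +kernel) ?_
    refine jn 493 (by decide +kernel) ?_
    refine jn 512 (by decide +kernel) ?_
    refine jn 522 (by decide +kernel) ?_
    refine jn 547 (by decide +kernel) ?_
    refine jn 562 (by decide +kernel) ?_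
    refine jn 576 (by decide +kernel) ?_
    refine jn 590 (by decide +kernel) ?_
    refine jn 602 (by decide +kernel) ?_
    refine jn 637 (by decide +kernel) ?_
    refine jn 664 (by decide +kernel) ?_
    refine jn 673 (by decide +kernel) ?_
    refine jn 681 (by decide +kernel) ?_
    refine jn 691 (by decide +kernel) ?_
    refine jn 700 (by decide +kernel) ?_
    refine jn 707 (by decide +kernel) ?_
    refine jn 715 (by decide +kernel) ?_
    refine jn 722 (by decide +kernel) ?_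
    refine jn 730 (by decide +kernel) ?_
    refine jn 740 (by decide +kernel) ?_
    refine jn 749 (by decide +kernel) ?_
    refine jn 759 (by decide +kernel) ?_
    refine jn 772 (by decide +kernel) ?_
    refine jn 785 (by decide +kernel) ?_
    refine jn 805 (by decide +kernel) ?_
    refine jn 823 (by decide +kernel) ?_
    refine jn 841 (by decide +kernel) ?_
    refine jn 860 (by decide +kernel) ?_
    refine jn 877 (by decide +kernel) ?_
    refine jn 897 (by decide +kernel) ?_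
    refine jn 918 (by decide +kernel) ?_
    refine jn 939 (by decide +kernel) ?_
    refine jn 953 (by decide +kernel) ?_
    refine jn 974 (by decide +kernel) ?_
    refine jn 992 (by decide +kernel) ?_
    refine jn 1020 (by decide +kernel) ?_
    refine jn 1042 (by decide +kernel) ?_
    refine jn 1064 (by decide +kernel) ?_
    exact je (by decide +kernel)
  · refine fin 72 1076 T74_2 ?_
    refine jn 3 (by decide +kernel) ?_
    refine jn 4 (by decide +kernel) ?_
    refine jn 5 (by decide +kernel) ?_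
    refine jn 6 (by decide +kernel) ?_
    refine jn 7 (by decide +kernel) ?_
    refine jn 8 (by decide +kernel) ?_
    refine jn 9 (by decide +kernel) ?_
    refine jn 10 (by decide +kernel) ?_
    refine jn 11 (by decide +kernel) ?_
    refine jn 12 (by decide +kernel) ?_
    refine jn 13 (by decide +kernel) ?_
    refine jn 14 (by decide +kernel) ?_
    refine jn 15 (by decide +kernel) ?_
    refine jn 16 (by decide +kernel) ?_
    refine jn 17 (by decide +kernel) ?_
    refine jn 18 (by decide +kernel) ?_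
    refine jn 19 (by decide +kernel) ?_
    refine jn 20 (by decide +kernel) ?_
    refine jn 25 (by decide +kernel) ?_
    refine jn 46 (by decide +kernel) ?_
    refine jn 47 (by decide +kernel) ?_
    refine jn 48 (by decide +kernel) ?_
    refine jn 49 (by decide +kernel) ?_
    refine jn 50 (by decide +kernel) ?_
    refine jn 51 (by decide +kernel) ?_
    refine jn 52 (by decide +kernel) ?_
    refine jn 53 (by decide +kernel) ?_
    refine jn 54 (by decide +kernel) ?_
    refine jn 55 (by decide +kernel) ?_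
    refine jn 56 (by decide +kernel) ?_
    refine jn 57 (by decide +kernel) ?_
    refine jn 58 (by decide +kernel) ?_
    refine jn 59 (by decide +kernel) ?_
    refine jn 60 (by decide +kernel) ?_
    refine jn 61 (by decide +kernel) ?_
    refine jn 62 (by decide +kernel) ?_
    refine jn 63 (by decide +kernel) ?_
    refine jn 64 (by decide +kernel) ?_
    refine jn 65 (by decide +kernel) ?_
    refine jn 73 (by decide +kernel) ?_
    refine jn 74 (by decide +kernel) ?_
    refine jn 75 (by decide +kernel) ?_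
    refine jn 76 (by decide +kernel) ?_
    refine jn 77 (by decide +kernel) ?_
    refine jn 78 (by decide +kernel) ?_
    refine jn 79 (by decide +kernel) ?_
    refine jn 87 (by decide +kernel) ?_
    refine jn 88 (by decide +kernel) ?_
    refine jn 89 (by decide +kernel) ?_
    refine jn 90 (by decide +kernel) ?_
    refine jn 96 (by decide +kernel) ?_
    refine jn 97 (by decide +kernel) ?_
    refine jn 98 (by decide +kernel) ?_
    refine jn 99 (by decide +kernel) ?_
    refine jn 100 (by decide +kernel) ?_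
    refine jn 101 (by decide +kernel) ?_
    refine jn 108 (by decide +kernel) ?_
    refine jn 109 (by decide +kernel) ?_
    refine jn 110 (by decide +kernel) ?_
    refine jn 111 (by decide +kernel) ?_
    refine jn 117 (by decide +kernel) ?_
    refine jn 118 (by decide +kernel) ?_
    refine jn 119 (by decide +kernel) ?_
    refine jn 124 (by decide +kernel) ?_
    refine jn 125 (by decide +kernel) ?_
    refine jn 126 (by decide +kernel) ?_
    refine jn 131 (by decide +kernel) ?_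
    refine jn 132 (by decide +kernel) ?_
    refine jn 133 (by decide +kernel) ?_
    refine jn 138 (by decide +kernel) ?_
    refine jn 139 (by decide +kernel) ?_
    refine jn 140 (by decide +kernel) ?_
    refine jn 145 (by decide +kernel) ?_
    refine jn 151 (by decide +kernel) ?_
    refine jn 152 (by decide +kernel) ?_
    refine jn 153 (by decide +kernel) ?_
    refine jn 158 (by decide +kernel) ?_
    refine jn 159 (by decide +kernel) ?_
    refine jn 169 (by decide +kernel) ?_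
    refine jn 175 (by decide +kernel) ?_
    refine jn 176 (by decide +kernel) ?_
    refine jn 177 (by decide +kernel) ?_
    refine jn 182 (by decide +kernel) ?_
    refine jn 183 (by decide +kernel) ?_
    refine jn 188 (by decide +kernel) ?_
    refine jn 189 (by decide +kernel) ?_
    refine jn 202 (by decide +kernel) ?_
    refine jn 209 (by decide +kernel) ?_
    refine jn 210 (by decide +kernel) ?_
    refine jn 216 (by decide +kernel) ?_
    refine jn 217 (by decide +kernel) ?_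
    refine jn 229 (by decide +kernel) ?_
    refine jn 230 (by decide +kernel) ?_
    refine jn 245 (by decide +kernel) ?_
    refine jn 251 (by decide +kernel) ?_
    refine jn 264 (by decide +kernel) ?_
    refine jn 276 (by decide +kernel) ?_
    refine jn 293 (by decide +kernel) ?_
    refine jn 307 (by decide +kernel) ?_
    refine jn 314 (by decide +kernel) ?_
    refine jn 339 (by decide +kernel) ?_
    refine jn 359 (by decide +kernel) ?_
    refine jn 383 (by decide +kernel) ?_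
    refine jn 411 (by decide +kernel) ?_
    refine jn 424 (by decide +kernel) ?_
    refine jn 449 (by decide +kernel) ?_
    refine jn 480 (by decide +kernel) ?_
    refine jn 574 (by decide +kernel) ?_
    refine jn 655 (by decide +kernel) ?_
    refine jn 824 (by decide +kernel) ?_
    exact je (by decide +kernel)

end Pool.Agent.MP_2339ce_nt.NR
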