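import Pool.Agent.MP_2339ce_nt.Q2.NC.L1
import Pool.Agent.MP_2339ce_nt.Q2.NC.L8
import Pool.Agent.MP_2339ce_nt.Q2.CkI

/-! Block NR: runs. -/

set_option autoImplicit false
set_option maxRecDepth 100000

noncomputable section

namespace Pool.Agent.MP_2339ce_nt.NR

open Q2.Top

def T80_0 : Ph :=
  (.na 969 150 (.na 710 58 (.na 533 25 (.na 473 7 (.na 213 3 (.na 1 2 .ne (.nx 212 3329023 (.nr 211
  623489 (.nx 192 1664512 (.nx 95 32769 (.nx 3 141 (.nr 2 23 (.lg 0 true 1 31 31 5 0 2256) (.l1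
  .sk)) (.nx 4 142 (.l1 .sk) (.nr 81 131073 (.lg 0 false 77 97 103 13 0 2605680) (.nx 94 257 (.lg 0
  false 13 79 79 9 0 29328) .out)))) (.nr 191 92683 (.nx 168 832257 (.nr 117 450 (.lg 0 true 22 83
  83 11 0 24816) (.nx 167 416129 (.nx 128 44591 (.lg 1 false 11 97 101 9 28159 372240) (.nr 139
  2437 (.lg 2 true 11 97 97 9 65194 372240) (.nx 166 330282 (.nr 152 55110 (.lg 2 false 13 101 103
  9 12318 439920) (.nx 165 131073 (.lg 2 false 13 101 103 9 20694 439920) .out)) .out))) .out))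
  (.nr 190 129 (.lg 0 true 22 79 79 11 0 24816) .out)) .out)) (.nr 210 9 (.lg 0 true 18 67 67 9 0
  6768) .out)) .out) .out)) (.na 214 5 .ne (.na 342 6 (.nx 341 13316087 (.nr 340 1482912 (.nx 217
  142 (.nx 216 141 (.nr 215 50 (.lg 0 true 1 29 29 9 0 16920) (.l1 .sk)) (.l1 .sk)) (.nx 232 14324
  (.nr 224 110219 (.lg 0 false 7 101 101 16 0 118440) (.nx 231 257 (.lg 0 false 7 79 79 16 0 39480)
  .out)) (.nr 339 155873 (.nx 310 1664512 (.nx 302 660563 (.nr 245 956 (.lg 0 true 13 83 83 16 0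
  73320) (.nr 252 4213 (.lg 2 true 7 83 89 16 48714 118440) (.nr 256 8843 (.lg 2 true 4 83 83 13
  11054 11280) (.nx 294 131073 (.nx 264 26007 (.nr 263 110219 (.lg 1 false 7 97 101 16 76590
  118440) .out) (.nx 272 41285 (.nr 271 131073 (.lg 1 false 7 97 103 16 50155 1302840) .out) (.nx
  286 82572 (.nx 279 58386 (.lg 1 false 7 97 103 16 37566 1302840) (.lg 1 false 7 97 103 16 26563
  1302840)) (.nr 293 131073 (.lg 1 true 7 97 103 16 15797 1302840) .out)))) (.nr 301 46342 (.lg 2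
  false 7 83 89 16 5267 118440) .out))))) (.nr 309 217 (.lg 0 true 7 79 79 16 0 39480) .out)) (.nr
  338 24 (.lg 0 true 28 79 79 16 0 78960) .out)) .out))) .out) .out) (.nx 472 13316087 (.nr 471
  623489 (.nx 368 28089 (.nx 344 141 (.nr 343 58 (.lg 0 false 1 31 31 7 0 33840) (.l1 .sk)) (.nx
  345 142 (.l1 .sk) (.nx 346 205 (.l1 (.ls 83 43 3646)) (.nr 367 370729 (.nr 359 131073 (.lg 0
  false 13 101 103 13 0 439920) (.nx 366 1627 (.lg 0 false 7 83 83 13 0 47376) .out)) .out)))) (.nr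
  470 155873 (.nx 418 832257 (.nr 381 1026 (.lg 0 true 13 89 89 13 0 439920) (.nx 417 660563 (.nx
  389 52015 (.nr 388 131073 (.lg 1 false 7 101 101 13 46437 236880) .out) (.nx 402 131073 (.lg 1
  true 13 97 101 13 29816 439920) (.nr 416 65537 (.nr 409 8201 (.lg 2 true 7 89 89 13 45390 236880)
  (.lg 2 false 7 89 89 13 5679 236880)) .out))) .out)) (.nr 469 129 (.nr 457 58 (.lg 0 true 39 79
  79 13 0 87984) (.nx 468 1664512 (.lg 0 true 11 71 71 13 0 74448) .out)) .out)) .out)) .out)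
  .out)))) (.na 530 12 (.na 474 9 .ne (.na 475 10 (.lg 0 false 1 0 0 7 0 24) (.nx 529 1664512 (.nr
  528 623489 (.nx 477 141 (.nr 476 101 (.lg 0 true 1 29 29 11 0 33840) (.l1 .sk)) (.nx 478 142 (.l1
  .sk) (.nr 520 131073 (.nx 512 524289 (.nx 491 35390 (.lg 0 false 13 101 107 19 0 33873840) (.nr
  498 829 (.lg 0 true 7 83 83 13 0 78960) (.nx 511 416129 (.lg 2 false 13 101 107 19 36857
  33873840) .out))) (.nr 519 65 (.lg 0 true 7 71 71 13 0 78960) .out)) (.nx 527 1292 (.lg 0 false 7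
  83 89 13 0 78960) .out)))) .out) .out))) (.na 531 18 .ne (.na 532 23 (.lg 0 false 1 0 0 7 0 24)
  .ne)))) (.na 639 41 (.na 595 32 (.na 567 27 (.nx 566 1664512 (.nr 565 1048577 (.nr 534 23 .s1
  (.nx 537 142 (.nx 536 141 (.nr 535 227 (.l1 (.ls 19 29 798)) (.l1 .sk)) (.l1 .sk)) (.nx 538 257
  (.l1 (.ls 79 31 1838)) (.nr 564 311745 (.nx 545 20644 (.lg 0 false 7 89 89 16 0 118440) (.nr 563
  77937 (.nr 558 55110 (.nx 553 165142 (.nr 549 8487 (.lg 0 true 4 79 79 16 0 11280) (.lg 2 true 4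
  73 73 16 26606 11280)) (.nr 557 513 (.lg 0 true 4 73 73 16 0 11280) .out)) (.nx 562 65537 (.lg 0
  true 4 83 83 16 0 11280) .out)) .out)) .out)))) .out) .out) (.na 568 30 (.lg 0 false 1 0 0 7 0
  24) (.nx 594 1664512 (.nr 593 1048577 (.nr 569 28 .s1 (.nx 571 141 (.nr 570 269 (.lg 0 true 1 19
  19 19 0 33840) (.l1 .sk)) (.nx 572 142 (.l1 .sk) (.nx 573 257 (.l1 (.ls 79 43 1532)) (.nr 592
  311745 (.nx 580 20644 (.lg 0 false 7 89 97 29 0 236880) (.nr 591 77937 (.nr 587 513 (.lg 0 true 7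
  73 73 29 0 236880) (.nx 590 165142 (.lg 2 false 3 89 89 23 37598 33840) .out)) .out)) .out)))))
  .out) .out))) (.na 596 37 .ne (.na 620 38 (.nx 619 1664512 (.nr 618 881745 (.nr 597 36 .s1 (.nx
  601 257 (.nx 599 141 (.nr 598 320 (.lg 0 false 1 16 16 16 0 16920) (.l1 .sk)) (.nx 600 142 (.l1
  .sk) (.l1 (.ls 73 29 1243)))) (.nr 617 440873 (.nx 608 20644 (.lg 0 false 7 89 89 16 0 118440)
  (.nr 616 46342 (.nr 613 320 (.lg 0 true 5 67 67 16 0 5640) (.nx 615 104033 (.lg 2 false 2 83 83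
  16 22920 2256) .out)) .out)) .out))) .out) .out) (.nx 638 1664512 (.nr 637 881745 (.nr 621 37 .s1
  (.nx 622 257 (.l1 (.ls 83 41 1741)) (.nr 636 440873 (.nx 627 20644 (.lg 0 false 5 97 101 17 0
  33840) (.nr 635 46342 (.nr 632 345 (.lg 0 true 5 73 73 17 0 11280) (.nx 634 104033 (.lg 2 false 2
  83 83 13 22384 2256) .out)) .out)) .out))) .out) .out)))) (.na 674 50 (.na 656 43 (.nx 655
  1664512 (.nr 654 881745 (.nr 640 40 .s1 (.nx 646 20644 (.nx 641 257 (.l1 (.ls 79 29 1613)) (.nr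
  645 440873 (.lg 0 false 4 97 97 16 0 33840) .out)) (.nr 653 46342 (.nr 650 362 (.lg 0 true 4 71
  71 16 0 2256) (.nx 652 104033 (.lg 2 false 2 83 83 16 22384 2256) .out)) .out))) .out) .out) (.na
  673 46 (.nx 672 1664512 (.nr 671 881745 (.nr 657 42 .s1 (.nx 658 257 (.l1 (.ls 73 29 1539)) (.nr
  670 440873 (.nx 662 20644 (.lg 0 false 4 97 97 16 0 33840) (.nr 669 46342 (.nr 666 257 (.lg 0
  true 4 67 67 16 0 2256) (.nx 668 104033 (.lg 2 false 2 83 83 16 28539 2256) .out)) .out)) .out)))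
  .out) .out) .ne)) (.na 693 54 (.nx 692 1664512 (.nr 691 881745 (.nr 675 49 .s1 (.nx 676 257 (.l1
  (.ls 73 41 1323)) (.nr 690 623489 (.nx 683 20644 (.lg 0 false 7 89 89 23 0 236880) (.nr 689 46342
  (.nr 686 257 (.lg 0 true 3 67 67 19 0 33840) (.nx 688 104033 (.lg 2 false 2 79 79 19 28539 11280)
  .out)) .out)) .out))) .out) .out) (.na 694 57 (.lg 0 false 1 0 0 16 0 24) (.nx 709 1664512 (.nr
  708 881745 (.nr 695 56 .s1 (.nx 701 20644 (.nx 696 257 (.l1 (.ls 73 37 1161)) (.nr 700 623489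
  (.lg 0 false 4 89 89 17 0 6768) .out)) (.nr 707 46342 (.nr 705 488 (.lg 0 true 4 71 71 17 0 6768)
  (.nx 706 104033 (.lg 2 true 1 83 83 16 22384 16920) .out)) .out))) .out) .out)))))) (.na 853 94
  (.na 793 75 (.na 760 64 (.na 727 59 (.nx 726 1664512 (.nr 725 881745 (.nr 711 57 .s1 (.nx 712 257
  (.l1 (.ls 79 41 1141)) (.nr 724 623489 (.nx 719 20644 (.lg 0 false 7 89 97 23 0 236880) (.nr 723
  46342 (.nr 721 257 (.lg 0 true 2 67 67 13 0 2256) (.nx 722 104033 (.lg 2 true 1 83 83 13 28539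
  2256) .out)) .out)) .out))) .out) .out) (.na 743 62 (.nx 742 1664512 (.nr 741 881745 (.nr 728 58
  .s1 (.nx 734 20644 (.nx 729 257 (.l1 (.ls 73 23 1122)) (.nr 733 623489 (.lg 0 false 4 97 97 16 0
  33840) .out)) (.nr 740 46342 (.nr 738 522 (.lg 0 true 4 71 71 16 0 2256) (.nx 739 104033 (.lg 2
  true 1 79 79 16 22384 1128) .out)) .out))) .out) .out) (.nx 759 1664512 (.nr 758 881745 (.nr 744
  61 .s1 (.nx 751 20644 (.nx 745 257 (.l1 (.ls 73 37 1068)) (.nr 750 623489 (.lg 0 false 5 89 89 19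
  0 11280) .out)) (.nr 757 46342 (.nr 755 539 (.lg 0 true 4 71 71 19 0 2256) (.nx 756 104033 (.lg 2
  true 1 83 83 13 22384 33840) .out)) .out))) .out) .out))) (.na 761 71 .ne (.na 778 74 (.nx 777
  1664512 (.nr 776 524289 (.nr 762 71 .s1 (.nx 765 142 (.nx 764 141 (.nr 763 623 (.l1 (.ls 17 17
  283)) (.l1 .sk)) (.l1 .sk)) (.nx 769 20644 (.lg 0 false 4 83 83 16 0 2256) (.nr 775 32769 (.nx
  771 104033 (.lg 0 false 2 79 79 16 0 2256) (.nr 774 513 (.lg 0 true 3 67 67 16 0 3384) .out))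
  .out)))) .out) .out) (.nx 792 1664512 (.nr 791 524289 (.nr 779 74 .s1 (.nx 782 142 (.nx 781 141
  (.nr 780 631 (.l1 (.ls 17 23 271)) (.l1 .sk)) (.l1 .sk)) (.nx 785 20644 (.lg 0 false 3 89 89 19 0
  6768) (.nr 790 32769 (.nr 788 513 (.lg 0 true 3 71 71 19 0 6768) (.nx 789 104033 (.lg 2 true 1 73
  73 13 15848 2256) .out)) .out)))) .out) .out)))) (.na 837 87 (.na 809 82 (.nx 808 1664512 (.nr
  807 524289 (.nr 794 75 .s1 (.nx 796 141 (.nr 795 690 (.l1 (.ls 16 23 268)) (.l1 .sk)) (.nx 797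
  142 (.l1 .sk) (.nx 801 20644 (.lg 0 false 4 83 83 19 0 33840) (.nr 806 32769 (.nr 804 513 (.lg 0
  true 3 61 61 19 0 16920) (.nx 805 104033 (.lg 2 true 1 71 71 17 15848 16920) .out)) .out)))))
  .out) .out) (.na 823 86 (.nx 822 1664512 (.nr 821 524289 (.nr 810 82 .s1 (.nx 816 20644 (.nx 812
  141 (.nr 811 724 (.l1 (.ls 17 23 245)) (.l1 .sk)) (.nx 813 142 (.l1 .sk) (.lg 0 false 3 89 89 19
  0 6768))) (.nr 820 32769 (.nr 818 513 (.lg 0 true 2 67 67 19 0 2256) (.nx 819 104033 (.lg 2 true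
  1 73 73 13 15848 2256) .out)) .out))) .out) .out) (.nx 836 1664512 (.nr 835 524289 (.nr 824 86
  .s1 (.nx 826 141 (.nr 825 732 (.l1 (.ls 17 23 234)) (.l1 .sk)) (.nx 827 142 (.l1 .sk) (.nx 830
  20644 (.lg 0 false 3 89 89 19 0 33840) (.nr 834 32769 (.nr 832 513 (.lg 0 true 2 67 67 19 0 2256)
  (.nx 833 104033 (.lg 2 true 1 73 73 13 15848 33840) .out)) .out))))) .out) .out))) (.na 851 90
  (.nx 850 1664512 (.nr 849 524289 (.nr 838 87 .s1 (.nx 841 142 (.nx 840 141 (.nr 839 757 (.l1 (.ls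
  17 19 231)) (.l1 .sk)) (.l1 .sk)) (.nx 845 20644 (.lg 0 false 4 83 83 19 0 6768) (.nr 848 32769
  (.nr 846 513 (.lg 0 false 1 73 73 16 0 16920) (.nx 847 104033 (.lg 2 true 1 73 73 16 15848 3384)
  .out)) .out)))) .out) .out) (.na 852 91 (.lg 0 false 1 0 0 16 0 24) .ne)))) (.na 925 134 (.na 897
  122 (.na 870 114 (.nx 869 1664512 (.nr 868 1048577 (.nr 854 94 .s1 (.nx 857 142 (.nx 856 141 (.nr
  855 959 (.l1 (.ls 16 23 214)) (.l1 .sk)) (.l1 .sk)) (.nx 862 20644 (.lg 0 false 5 79 79 19 0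
  11280) (.nr 867 32769 (.nr 864 513 (.lg 0 false 2 67 67 17 0 33840) (.nx 866 104033 (.lg 2 true 2
  61 61 17 15848 2256) .out)) .out)))) .out) .out) (.na 883 118 (.nx 882 1664512 (.nr 881 1048577
  (.nr 871 114 .s1 (.nx 877 20644 (.nx 873 141 (.nr 872 993 (.l1 (.ls 17 31 177)) (.l1 .sk)) (.nx
  874 142 (.l1 .sk) (.lg 0 false 3 89 89 31 0 33840))) (.nr 880 32769 (.nr 878 513 (.lg 2 false 1
  71 71 29 1029370 33840) (.nx 879 104033 (.lg 2 true 1 71 71 29 15848 33840) .out)) .out))) .out)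
  .out) (.nx 896 1664512 (.nr 895 1048577 (.nr 884 118 .s1 (.nx 887 142 (.nx 886 141 (.nr 885 1027
  (.l1 (.ls 17 23 171)) (.l1 .sk)) (.l1 .sk)) (.nx 890 20644 (.lg 0 false 3 89 89 23 0 6768) (.nr
  894 32769 (.nr 892 513 (.lg 0 true 2 61 61 19 0 2256) (.nx 893 104033 (.lg 2 true 1 71 71 19
  15848 2256) .out)) .out)))) .out) .out))) (.na 910 123 (.nx 909 1664512 (.nr 908 1048577 (.nr 898
  122 .s1 (.nx 901 142 (.nx 900 141 (.nr 899 1035 (.l1 (.ls 17 23 165)) (.l1 .sk)) (.l1 .sk)) (.nx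
  904 20644 (.lg 0 false 3 89 89 23 0 6768) (.nr 907 32769 (.nr 905 513 (.lg 0 false 1 73 73 19 0
  33840) (.nx 906 104033 (.lg 2 true 1 71 71 19 15848 2256) .out)) .out)))) .out) .out) (.na 924
  128 (.nx 923 1664512 (.nr 922 1048577 (.nr 911 123 .s1 (.nx 914 142 (.nx 913 141 (.nr 912 1077
  (.l1 (.ls 16 19 164)) (.l1 .sk)) (.l1 .sk)) (.nx 918 20644 (.lg 0 false 4 83 83 19 0 6768) (.nr
  921 32769 (.nr 919 513 (.lg 0 false 1 71 71 17 0 16920) (.nx 920 104033 (.lg 2 true 1 67 67 17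
  15848 3384) .out)) .out)))) .out) .out) .ne))) (.na 947 139 (.na 936 135 (.nx 935 832257 (.nr 934
  1048577 (.nr 926 134 .s1 (.nx 930 13005 (.nx 927 257 (.l1 (.ls 61 29 495)) (.nr 929 741457 (.lg 0
  false 2 79 79 23 0 2256) .out)) (.nr 933 16385 (.nr 931 1025 (.lg 0 false 1 71 71 19 0 33840)
  (.nx 932 104033 (.lg 2 true 1 59 59 19 12633 2256) .out)) .out))) .out) .out) (.na 937 137 (.lg 0
  false 1 0 0 16 0 24) (.nx 946 832257 (.nr 945 1048577 (.nr 938 137 .s1 (.nx 939 257 (.l1 (.ls 67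
  19 485)) (.nr 944 741457 (.nx 940 13005 (.lg 0 true 1 83 83 16 0 16920) (.nr 943 16385 (.nr 941
  1025 (.lg 0 false 1 67 67 16 0 1128) (.nx 942 104033 (.lg 2 true 1 59 59 16 12633 1128) .out))
  .out)) .out))) .out) .out))) (.na 957 142 (.nx 956 832257 (.nr 955 1048577 (.nr 948 139 .s1 (.nx
  949 257 (.l1 (.ls 61 19 478)) (.nr 954 741457 (.nx 950 13005 (.lg 0 true 1 79 79 16 0 16920) (.nr
  953 16385 (.nr 951 1025 (.lg 0 false 1 61 61 16 0 1128) (.nx 952 104033 (.lg 2 true 1 53 53 16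
  12633 1128) .out)) .out)) .out))) .out) .out) (.na 968 149 (.nx 967 832257 (.nr 966 1048577 (.nr
  958 142 .s1 (.nx 959 257 (.l1 (.ls 67 29 468)) (.nr 965 741457 (.nx 961 13005 (.lg 0 false 2 79
  79 23 0 2256) (.nr 964 16385 (.nr 962 1025 (.lg 0 false 1 71 71 19 0 2256) (.nx 963 104033 (.lg 2
  true 1 59 59 19 12633 2256) .out)) .out)) .out))) .out) .out) (.lg 0 false 1 0 0 16 0 24)))))))
  (.na 1124 233 (.na 1034 185 (.na 1010 167 (.na 989 155 (.na 979 151 (.nx 978 832257 (.nr 977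
  1048577 (.nr 970 150 .s1 (.nx 971 257 (.l1 (.ls 71 37 443)) (.nr 976 741457 (.nx 972 13005 (.lg 0
  true 1 83 83 29 0 33840) (.nr 975 16385 (.nr 973 1025 (.lg 0 false 1 71 71 29 0 33840) (.nx 974
  104033 (.lg 2 true 1 59 59 29 12633 33840) .out)) .out)) .out))) .out) .out) (.nx 988 832257 (.nr
  987 1048577 (.nr 980 151 .s1 (.nx 981 257 (.l1 (.ls 67 19 440)) (.nr 986 741457 (.nx 982 13005
  (.lg 0 true 1 79 79 16 0 1128) (.nr 985 16385 (.nr 983 1025 (.lg 0 false 1 61 61 16 0 1128) (.nx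
  984 104033 (.lg 2 true 1 53 53 16 12633 1128) .out)) .out)) .out))) .out) .out)) (.na 999 162
  (.nx 998 832257 (.nr 997 1048577 (.nr 990 155 .s1 (.nx 991 257 (.l1 (.ls 73 23 429)) (.nr 996
  741457 (.nx 992 13005 (.lg 0 false 1 83 83 17 0 5640) (.nr 995 16385 (.nr 993 1025 (.lg 0 true 1
  67 67 17 0 5640) (.nx 994 104033 (.lg 2 true 1 61 61 17 12633 5640) .out)) .out)) .out))) .out)
  .out) (.na 1000 166 (.lg 0 false 1 0 0 16 0 24) (.nx 1009 832257 (.nr 1008 1048577 (.nr 1001 166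
  .s1 (.nx 1004 13005 (.nx 1002 257 (.l1 (.ls 67 29 400)) (.nr 1003 741457 (.lg 0 true 1 83 83 19 0
  2256) .out)) (.nr 1007 16385 (.nr 1005 1025 (.lg 0 false 1 61 61 19 0 2256) (.nx 1006 104033 (.lg
  2 false 1 53 53 19 12633 2256) .out)) .out))) .out) .out)))) (.na 1022 181 (.na 1011 171 (.lg 0
  false 1 0 0 16 0 24) (.na 1012 174 (.lg 0 false 1 0 0 16 0 24) (.nx 1021 832257 (.nr 1020 1048577
  (.nr 1013 174 .s1 (.nx 1016 13005 (.nx 1014 257 (.l1 (.ls 71 37 382)) (.nr 1015 741457 (.lg 0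
  true 1 83 83 23 0 6768) .out)) (.nr 1019 16385 (.nr 1017 1025 (.lg 0 false 1 67 67 23 0 6768)
  (.nx 1018 104033 (.lg 2 true 1 61 61 23 12633 33840) .out)) .out))) .out) .out))) (.na 1023 182
  (.lg 0 false 1 0 0 16 0 24) (.na 1024 183 .ne (.nx 1033 832257 (.nr 1032 1048577 (.nr 1025 183
  .s1 (.nx 1028 13005 (.nx 1026 257 (.l1 (.ls 59 23 363)) (.nr 1027 741457 (.lg 0 true 1 83 83 17 0
  16920) .out)) (.nr 1031 16385 (.nr 1029 1025 (.lg 0 false 1 67 67 17 0 16920) (.nx 1030 104033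
  (.lg 2 false 1 53 53 17 12633 3384) .out)) .out))) .out) .out))))) (.na 1079 201 (.na 1062 194
  (.na 1044 186 (.nx 1043 832257 (.nr 1042 1048577 (.nr 1035 185 .s1 (.nx 1036 257 (.l1 (.ls 73 23
  360)) (.nr 1041 741457 (.nx 1037 13005 (.lg 0 false 1 83 83 19 0 5640) (.nr 1040 16385 (.nr 1038
  1025 (.lg 0 true 1 67 67 19 0 5640) (.nx 1039 104033 (.lg 2 false 1 61 61 19 12633 5640) .out))
  .out)) .out))) .out) .out) (.na 1052 190 (.nx 1051 832257 (.nr 1050 1048577 (.nr 1045 186 .s1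
  (.nx 1046 257 (.l1 (.ls 73 37 358)) (.nr 1049 741457 (.nr 1047 16385 (.lg 0 false 1 89 89 29 0
  33840) (.nx 1048 13005 (.lg 0 true 1 83 83 29 0 6768) .out)) .out))) .out) .out) (.nx 1061 832257
  (.nr 1060 1048577 (.nr 1053 190 .s1 (.nx 1056 13005 (.nx 1054 257 (.l1 (.ls 73 37 350)) (.nr 1055
  741457 (.lg 0 false 1 83 83 31 0 11280) .out)) (.nr 1059 16385 (.nr 1057 1025 (.lg 0 true 1 67 67
  31 0 11280) (.nx 1058 104033 (.lg 2 false 1 67 67 31 12633 11280) .out)) .out))) .out) .out)))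
  (.na 1070 197 (.nx 1069 832257 (.nr 1068 1048577 (.nr 1063 194 .s1 (.nx 1064 257 (.l1 (.ls 67 29
  343)) (.nr 1067 741457 (.nr 1065 16385 (.lg 0 false 1 79 79 19 0 2256) (.nx 1066 13005 (.lg 0
  true 1 79 79 19 0 33840) .out)) .out))) .out) .out) (.na 1071 199 (.lg 0 false 1 0 0 16 0 24)
  (.nx 1078 832257 (.nr 1077 1048577 (.nr 1072 199 .s1 (.nx 1073 257 (.l1 (.ls 79 19 334)) (.nr
  1076 741457 (.nr 1074 16385 (.lg 0 false 1 79 79 16 0 16920) (.nx 1075 13005 (.lg 0 true 1 73 73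
  16 0 1128) .out)) .out))) .out) .out)))) (.na 1107 222 (.na 1089 213 (.nx 1088 832257 (.nr 1087
  1048577 (.nr 1080 201 .s1 (.nx 1083 13005 (.nx 1081 257 (.l1 (.ls 61 23 331)) (.nr 1082 741457
  (.lg 0 true 1 79 79 19 0 3384) .out)) (.nr 1086 16385 (.nr 1084 1025 (.lg 0 false 1 67 67 19 0
  16920) (.nx 1085 104033 (.lg 2 true 1 53 53 19 12633 16920) .out)) .out))) .out) .out) (.na 1097
  215 (.nx 1096 832257 (.nr 1095 1048577 (.nr 1090 213 .s1 (.nx 1091 257 (.l1 (.ls 61 23 313)) (.nr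
  1094 741457 (.nr 1092 16385 (.lg 0 false 1 83 83 19 0 16920) (.nx 1093 13005 (.lg 0 true 1 79 79
  19 0 16920) .out)) .out))) .out) .out) (.nx 1106 832257 (.nr 1105 1048577 (.nr 1098 215 .s1 (.nx
  1101 13005 (.nx 1099 257 (.l1 (.ls 73 23 310)) (.nr 1100 741457 (.lg 0 false 1 83 83 19 0 5640)
  .out)) (.nr 1104 16385 (.nr 1102 1025 (.lg 0 true 1 67 67 19 0 5640) (.nx 1103 104033 (.lg 2
  false 1 61 61 19 12633 5640) .out)) .out))) .out) .out))) (.na 1115 226 (.nx 1114 832257 (.nr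
  1113 1048577 (.nr 1108 222 .s1 (.nx 1109 257 (.l1 (.ls 71 31 300)) (.nr 1112 741457 (.nr 1110
  16385 (.lg 0 false 1 83 83 29 0 33840) (.nx 1111 13005 (.lg 0 true 1 79 79 29 0 6768) .out))
  .out))) .out) .out) (.na 1123 229 (.nx 1122 832257 (.nr 1121 1048577 (.nr 1116 226 .s1 (.nx 1117
  257 (.l1 (.ls 67 29 295)) (.nr 1120 741457 (.nx 1118 13005 (.lg 0 true 1 73 73 23 0 2256) (.nr
  1119 16385 (.lg 0 false 1 79 79 23 0 2256) .out)) .out))) .out) .out) (.lg 0 false 1 0 0 16 0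
  24)))))) (.na 3993 1449 (.na 1172 254 (.na 1148 249 (.na 1132 235 (.nx 1131 832257 (.nr 1130
  1048577 (.nr 1125 233 .s1 (.nx 1126 257 (.l1 (.ls 61 19 286)) (.nr 1129 741457 (.nr 1127 16385
  (.lg 0 false 1 73 73 17 0 1128) (.nx 1128 13005 (.lg 0 true 1 71 71 17 0 1128) .out)) .out)))
  .out) .out) (.na 1140 246 (.nx 1139 832257 (.nr 1138 1048577 (.nr 1133 235 .s1 (.nx 1134 257 (.l1
  (.ls 61 19 284)) (.nr 1137 741457 (.nr 1135 16385 (.lg 0 false 1 73 73 17 0 5640) (.nx 1136 13005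
  (.lg 0 true 1 73 73 17 0 16920) .out)) .out))) .out) .out) (.nx 1147 832257 (.nr 1146 1048577
  (.nr 1141 246 .s1 (.nx 1144 13005 (.nx 1142 257 (.l1 (.ls 71 31 271)) (.nr 1143 741457 (.lg 0
  true 1 79 79 29 0 6768) .out)) (.nr 1145 16385 (.lg 0 false 1 83 83 29 0 33840) .out))) .out)
  .out))) (.na 1156 250 (.nx 1155 832257 (.nr 1154 1048577 (.nr 1149 249 .s1 (.nx 1150 257 (.l1
  (.ls 67 23 268)) (.nr 1153 741457 (.nx 1151 13005 (.lg 0 true 1 73 73 19 0 16920) (.nr 1152 16385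
  (.lg 0 false 1 73 73 19 0 3384) .out)) .out))) .out) .out) (.na 1164 251 (.nx 1163 832257 (.nr
  1162 1048577 (.nr 1157 250 .s1 (.nx 1158 257 (.l1 (.ls 61 31 267)) (.nr 1161 741457 (.nr 1159
  16385 (.lg 0 false 1 79 79 29 0 33840) (.nx 1160 13005 (.lg 0 true 1 73 73 29 0 33840) .out))
  .out))) .out) .out) (.nx 1171 832257 (.nr 1170 1048577 (.nr 1165 251 .s1 (.nx 1166 257 (.l1 (.ls
  61 19 266)) (.nr 1169 741457 (.nr 1167 16385 (.lg 0 false 1 71 71 17 0 1128) (.nx 1168 13005 (.lg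
  0 true 1 71 71 17 0 16920) .out)) .out))) .out) .out)))) (.na 1901 512 (.na 1180 256 (.nx 1179
  832257 (.nr 1178 1048577 (.nr 1173 254 .s1 (.nx 1174 257 (.l1 (.ls 67 29 263)) (.nr 1177 741457
  (.nr 1175 16385 (.lg 0 false 1 79 79 23 0 33840) (.nx 1176 13005 (.lg 0 true 1 73 73 23 0 2256)
  .out)) .out))) .out) .out) (.na 1181 257 .ne (.nx 1900 832257 (.nr 1899 1482912 (.nr 1182 257 .s1
  (.nx 1387 205 (.nx 1323 141 (.nr 1322 4307 (.lx (.lp 37 17 129)) (.l1 .sk)) (.nx 1324 142 (.l1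
  .sk) (.lx (.lp 79 17 129)))) (.nr 1898 1048577 (.nr 1642 32769 (.la (.lg 0 false 1 73 73 23 0))
  (.nx 1897 10323 (.la (.lg 0 true 1 71 71 23 0)) .out)) .out))) .out) .out))) (.na 2537 725 (.nx
  2536 832257 (.nr 2535 1482912 (.nr 1902 512 .s1 (.nx 2044 142 (.nx 2043 141 (.nr 2042 6099 (.lx
  (.lp 31 19 182)) (.l1 .sk)) (.l1 .sk)) (.nx 2321 10323 (.nx 2107 205 (.lx (.lp 79 17 182)) (.nr
  2320 1048577 (.la (.lg 0 false 1 61 61 23 0)) .out)) (.nr 2534 32769 (.la (.lg 2 true 1 59 59 23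
  114598)) .out)))) .out) .out) (.na 3139 1024 (.nx 3138 10323 (.nr 3137 1048577 (.nr 2538 725 .s1
  (.nx 2837 2049 (.la (.ls 83 37 5793)) (.nr 3136 16385 (.la (.lg 0 true 1 29 29 29 0)) .out)))
  .out) .out) (.nx 3992 10323 (.nr 3991 1048577 (.nr 3140 1024 .s1 (.nx 3565 2582 (.la (.ls 61 41
  6513)) (.nr 3990 16385 (.la (.lg 0 false 1 23 23 29 0)) .out))) .out) .out))))) (.na 11222 16384
  (.na 6791 4096 (.na 4595 2048 (.nx 4594 2582 (.nr 4593 524289 (.nr 3994 1449 .s1 (.la (.ls 67 37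
  4603))) .out) .out) (.na 5447 2897 (.nx 5446 3252 (.nr 5445 524289 (.nr 4596 2048 .s1 (.la (.ls
  67 37 5166))) .out) .out) (.nx 6790 2582 (.nr 6789 262145 (.nr 5448 2897 .s1 (.nx 5589 141 (.nr
  5588 34453 (.lx (.lp 16 23 1025)) (.l1 .sk)) (.nx 5590 142 (.l1 .sk) (.la (.ls 53 37 2297)))))
  .out) .out))) (.na 8633 5793 (.nx 8632 2582 (.nr 8631 262145 (.nr 6792 4096 .s1 (.nx 6933 141
  (.nr 6932 48727 (.lx (.lp 16 29 1449)) (.l1 .sk)) (.nx 6934 142 (.l1 .sk) (.la (.ls 43 37
  1625))))) .out) .out) (.na 9927 8192 (.nx 9926 1292 (.nr 9925 65537 (.nr 8634 5793 .s1 (.lx (.lp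
  37 37 2049))) .out) .out) (.nx 11221 1292 (.nr 11220 131073 (.nr 9928 8192 .s1 (.nx 10132 205
  (.lx (.lp 41 37 4097)) (.nr 11219 65537 (.lx (.lp 31 41 4097)) .out))) .out) .out)))) (.na 14572
  131072 (.na 12517 32768 (.nx 12516 1292 (.nr 12515 262145 (.nr 11223 16384 .s1 (.nx 11544 322
  (.lx (.lp 41 43 8193)) (.nr 12514 131073 (.lx (.lp 31 43 8193)) .out))) .out) .out) (.na 13545
  65536 (.nx 13544 1025 (.nr 13543 262145 (.nr 12518 32768 .s1 (.nx 12722 205 (.lx (.lp 16 0
  16385)) (.nr 13542 131073 (.lx (.lp 31 47 16385)) .out))) .out) .out) (.nx 14571 1025 (.nr 14570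
  262145 (.nr 13546 65536 .s1 (.lx (.lp 31 53 32769))) .out) .out))) (.na 14574 262144 (.nx 14573
  324 (.l1 .sk) .out) (.na 14576 524289 (.nx 14575 205 (.l1 .sk) .out) .out)))))))

def T80_1 : Ph :=
  (.na 803 9 (.na 466 5 (.na 296 2 (.nx 295 1321124 (.nr 294 881745 (.nx 3 137 (.nx 2 136 (.nr 1 12
  (.lg 0 true 1 43 43 5 0 12240) (.l1 .sk)) (.l1 .sk)) (.nr 260 92683 (.nx 42 13005 (.lg 0 false 39
  101 107 16 0 1113840) (.nr 259 77937 (.nr 138 2437 (.nx 104 660563 (.nr 92 1219 (.nr 81 695 (.lg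
  0 true 39 97 97 16 0 159120) (.lg 2 true 11 89 89 9 64631 44880)) (.nx 103 524289 (.lg 2 true 11
  89 89 9 29247 44880) .out)) (.nr 137 129 (.lg 0 true 33 83 83 13 0 13464) .out)) (.nx 258 416129
  (.nr 149 4097 (.lg 2 true 11 83 89 9 11612 44880) (.nx 209 32769 (.nx 188 24081 (.lg 1 false 39
  101 107 16 55521 1113840) (.lg 1 false 21 97 103 11 29984 85680)) (.nr 257 55110 (.nr 234 38969
  (.nr 220 23172 (.lg 2 false 11 103 103 9 6907 942480) (.nx 233 262145 (.lg 2 false 13 101 103 9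
  11037 1113840) .out)) (.nx 256 104033 (.lg 2 false 22 101 103 11 15592 942480) .out)) .out)))
  .out)) .out)) (.nx 293 257 (.lg 0 false 33 83 89 13 0 134640) .out))) .out) .out) (.na 297 4 .ne
  (.nx 465 13316087 (.nr 464 1246976 (.nx 327 18425 (.nx 299 136 (.nr 298 40 (.lg 0 true 1 37 37 9
  0 816) (.l1 .sk)) (.nx 300 137 (.l1 .sk) (.nr 317 155873 (.nr 313 110219 (.lg 0 false 13 103 107
  13 0 12252240) (.nx 316 1627 (.lg 0 false 3 89 89 9 0 2448) .out)) (.nx 326 257 (.lg 0 false 9 83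
  83 13 0 2448) .out)))) (.nr 463 131073 (.nx 401 416129 (.nr 340 729 (.lg 0 true 13 83 89 13 0
  10608) (.nx 350 26007 (.nr 349 110219 (.lg 1 false 9 97 103 13 55392 942480) .out) (.nx 363 52015
  (.lg 1 false 13 103 109 13 46659 12252240) (.nx 376 104033 (.lg 1 true 13 103 109 13 23329
  12252240) (.nr 400 92683 (.nr 383 5810 (.nr 381 2909 (.lg 2 true 5 83 89 11 38816 4080) (.lg 2
  false 2 89 89 9 9728 28560)) (.nx 390 131073 (.lg 1 true 7 97 103 11 8252 942480) (.nr 399 55110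
  (.lg 2 false 9 89 101 13 4871 85680) .out))) .out))))) (.nr 462 183 (.nx 414 1664512 (.lg 0 true
  13 83 83 13 0 10608) (.nr 461 21 (.nx 435 6658044 (.lg 0 true 21 79 79 11 0 17136) (.lg 0 true 26
  79 79 11 0 10608)) .out)) .out)) .out)) .out) .out))) (.na 606 7 (.na 605 6 (.nx 604 13316087
  (.nr 603 1482912 (.nx 469 137 (.nx 468 136 (.nr 467 49 (.lg 0 false 1 37 37 9 0 28560) (.l1 .sk))
  (.l1 .sk)) (.nx 496 20642 (.nr 480 92683 (.lg 0 false 11 97 101 16 0 314160) (.nx 495 6503 (.nr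
  483 110219 (.lg 0 false 3 97 97 11 0 85680) (.nx 494 257 (.lg 0 false 11 79 79 16 0 22440) .out))
  .out)) (.nr 602 155873 (.nx 563 660563 (.nr 507 956 (.lg 0 true 11 89 89 16 0 22440) (.nx 519
  41285 (.nr 518 131073 (.lg 1 false 11 101 103 16 58786 942480) .out) (.nx 530 82572 (.lg 1 true
  11 101 107 16 34948 942480) (.nr 562 131073 (.nr 541 8843 (.nr 539 4213 (.lg 2 true 9 83 89 16
  46986 85680) (.lg 2 false 2 89 89 11 10662 28560)) (.nx 552 131073 (.lg 1 true 11 97 103 16 14696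
  942480) (.nr 561 46342 (.lg 2 false 9 83 97 16 5080 85680) .out))) .out)))) (.nr 601 217 (.nx 574
  1664512 (.lg 0 true 11 83 83 16 0 22440) (.nr 600 24 (.lg 0 true 26 79 79 16 0 53040) .out))
  .out)) .out))) .out) .out) .ne) (.na 705 8 (.nx 704 13316087 (.nr 703 262145 (.nx 672 1664512
  (.nx 609 137 (.nx 608 136 (.nr 607 66 (.lg 0 true 1 31 31 9 0 28560) (.l1 .sk)) (.l1 .sk)) (.nx
  624 16384 (.nr 618 92683 (.lg 0 false 9 97 101 16 0 85680) (.nx 623 1627 (.lg 0 false 5 83 89 16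
  0 14280) .out)) (.nr 671 131073 (.nr 637 626 (.lg 0 true 13 83 89 16 0 37128) (.nx 670 524289
  (.nx 646 36779 (.lg 1 false 9 101 107 16 74064 12252240) (.nr 651 2630 (.lg 2 true 5 83 83 16
  56952 28560) (.nr 660 55110 (.lg 2 false 9 89 101 16 13892 85680) (.nx 669 165142 (.lg 2 false 9
  103 107 16 32993 12252240) .out)))) .out)) .out))) (.nr 702 47 (.lg 0 true 30 83 83 16 0 85680)
  .out)) .out) .out) (.nx 802 13316087 (.nr 801 623489 (.nx 770 1664512 (.nx 708 137 (.nx 707 136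
  (.nr 706 74 (.lg 0 true 1 31 31 9 0 12240) (.l1 .sk)) (.l1 .sk)) (.nx 731 26007 (.nr 721 110219
  (.lg 0 false 13 97 101 13 0 159120) (.nx 730 2582 (.nx 728 1627 (.lg 0 false 7 89 97 13 0 85680)
  (.nr 729 131073 (.lg 0 true 1 79 79 9 0 816) .out)) .out)) (.nr 769 131073 (.nr 746 727 (.nx 738
  832257 (.lg 0 true 7 83 83 13 0 5712) (.nr 745 129 (.lg 0 true 7 73 73 13 0 5712) .out)) (.nx 768
  660563 (.nx 753 38224 (.lg 1 false 7 89 97 13 46659 85680) (.nr 755 1453 (.lg 2 true 2 73 73 11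
  61786 816) (.lg 2 false 13 101 107 13 31746 12252240))) .out)) .out))) (.nr 800 55 (.lg 0 true 30
  79 79 13 0 12240) .out)) .out) .out)))) (.na 886 20 (.na 804 17 .ne (.na 847 19 (.nx 846 1664512
  (.nr 845 1048577 (.nr 805 13 .s1 (.nx 809 257 (.nx 807 136 (.nr 806 157 (.l1 (.ls 16 29 1090))
  (.l1 .sk)) (.nx 808 137 (.l1 .sk) (.l1 (.ls 73 37 2784)))) (.nr 844 623489 (.nr 840 220437 (.nx
  820 23171 (.lg 0 false 11 97 97 16 0 942480) (.nr 839 92683 (.nr 831 634 (.lg 0 true 11 71 71 16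
  0 4488) (.nx 838 262145 (.lg 2 false 7 89 89 16 37047 28560) .out)) .out)) (.nx 843 1627 (.lg 0
  true 3 73 73 11 0 1224) .out)) .out))) .out) .out) (.nx 885 1664512 (.nr 884 1048577 (.nr 848 16
  .s1 (.nx 851 137 (.nx 850 136 (.nr 849 165 (.l1 (.ls 29 29 976)) (.l1 .sk)) (.l1 .sk)) (.nx 863
  13005 (.nx 852 257 (.l1 (.ls 83 37 2491)) (.nr 862 623489 (.nr 858 220437 (.lg 0 false 6 97 97 16
  0 85680) (.nx 861 1627 (.lg 0 false 3 83 83 16 0 1224) .out)) .out)) (.nr 883 92683 (.nr 869 634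
  (.lg 0 true 6 83 83 16 0 2448) (.nx 882 262145 (.nr 874 46342 (.lg 2 true 5 79 79 16 33053 2040)
  (.nx 881 165142 (.nx 877 82572 (.lg 0 true 3 103 103 16 0 85680) (.nr 880 55110 (.lg 0 true 3 97
  97 16 0 85680) .out)) .out)) .out)) .out)))) .out) .out))) (.na 942 25 (.na 915 23 (.nx 914
  1664512 (.nr 913 1048577 (.nr 887 17 .s1 (.nx 890 137 (.nx 889 136 (.nr 888 190 (.lg 0 true 1 31
  31 13 0 4080) (.l1 .sk)) (.l1 .sk)) (.nx 909 262145 (.nx 891 257 (.l1 (.ls 89 41 2367)) (.nr 908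
  623489 (.nx 898 13005 (.nr 894 220437 (.lg 0 false 3 97 97 19 0 12240) (.nx 897 1627 (.lg 0 false
  3 83 89 19 0 12240) .out)) (.nr 907 92683 (.nr 901 1854 (.lg 0 true 3 83 83 19 0 12240) (.nx 904
  41287 (.lg 1 false 3 101 103 19 66008 1113840) (.nr 906 77937 (.lg 2 false 2 89 97 17 17489 4080)
  .out))) .out)) .out)) (.nr 912 217 (.lg 0 true 3 79 79 19 0 12240) .out)))) .out) .out) (.nx 941
  1664512 (.nr 940 1048577 (.nr 916 20 .s1 (.nx 920 257 (.nx 918 136 (.nr 917 207 (.lg 0 true 1 29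
  29 11 0 28560) (.l1 .sk)) (.nx 919 137 (.l1 .sk) (.l1 (.ls 83 31 2058)))) (.nr 939 311745 (.nr
  935 110219 (.nx 923 20644 (.lg 0 true 3 101 101 16 0 85680) (.nr 934 77937 (.nr 928 513 (.lg 0
  true 5 79 79 16 0 2040) (.nx 933 165142 (.lg 2 false 5 89 97 16 34976 28560) .out)) .out)) (.nx
  938 8193 (.lg 0 false 3 89 89 16 0 1224) .out)) .out))) .out) .out)) (.na 969 28 (.nx 968 1664512
  (.nr 967 1048577 (.nr 943 23 .s1 (.nx 947 257 (.nx 945 136 (.nr 944 232 (.l1 (.ls 23 29 742))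
  (.l1 .sk)) (.nx 946 137 (.l1 .sk) (.l1 (.ls 79 31 1894)))) (.nr 966 311745 (.nx 954 20644 (.nr
  950 110219 (.lg 0 false 3 89 89 16 0 6120) (.nx 953 8193 (.lg 0 false 3 83 83 16 0 6120) .out))
  (.nr 965 77937 (.nr 961 513 (.lg 0 true 7 71 73 16 0 14280) (.nx 964 165142 (.lg 2 false 3 97 97
  16 34976 85680) .out)) .out)) .out))) .out) .out) (.nx 994 1664512 (.nr 993 1048577 (.nr 970 26
  .s1 (.nx 974 257 (.nx 972 136 (.nr 971 240 (.l1 (.ls 31 37 663)) (.l1 .sk)) (.nx 973 137 (.l1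
  .sk) (.l1 (.ls 83 41 1691)))) (.nr 992 311745 (.nr 988 110219 (.nx 977 20644 (.lg 0 false 3 89 97
  19 0 85680) (.nr 987 77937 (.nr 982 1307 (.nx 978 208065 (.lg 0 false 1 83 83 13 0 85680) (.nr
  981 217 (.lg 0 true 3 73 73 19 0 17136) .out)) (.nx 986 165142 (.nx 983 41287 (.lg 1 true 1 97 97
  13 34976 85680) (.nr 985 65537 (.lg 2 false 2 89 89 19 14711 28560) .out)) .out)) .out)) (.nx 991
  8193 (.lg 0 false 3 89 97 19 0 85680) .out)) .out))) .out) .out)))))

def T80_2 : Ph :=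
  (.na 462 129 (.na 281 54 (.na 203 24 (.na 141 10 (.na 100 5 (.na 61 3 (.na 41 2 (.nx 40 52017
  (.nr 39 311745 (.nx 3 16 (.nx 2 15 (.nr 1 5 (.lg 0 true 1 23 23 5 0 5040) (.l1 .sk)) (.l1 .sk))
  (.nx 15 27 (.nr 4 155877 (.l1 (.ls 83 19 476)) (.lg 0 false 11 67 67 9 0 1320)) (.nr 38 4872 (.nx
  26 1573 (.lg 0 true 11 67 67 9 0 1320) (.nr 33 155 (.lg 0 false 7 73 73 9 0 840) (.nx 37 10323
  (.lg 1 false 4 79 79 7 500 720) .out))) .out))) .out) .out) (.nx 60 52017 (.nr 59 3446 (.nx 51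
  10323 (.nx 43 15 (.nr 42 8 (.lg 0 true 1 16 16 5 0 240) (.l1 .sk)) (.nx 44 16 (.l1 .sk) (.lg 0
  false 7 73 73 9 0 1680))) (.nr 58 154 (.lg 0 true 7 67 67 9 0 1680) .out)) .out) .out)) (.na 86 4
  (.nx 85 165142 (.nr 84 4872 (.nx 70 10323 (.nx 62 27 (.l1 (.ls 53 19 245)) (.nr 69 1724 (.lg 0
  false 7 67 67 7 0 2520) .out)) (.nr 83 217 (.lg 0 true 13 71 71 13 0 4680) .out)) .out) .out)
  (.nx 99 20644 (.nr 98 2437 (.nr 87 2 .s1 (.nr 93 377 (.nx 88 113 (.l1 (.ls 41 41 3195)) (.nr 91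
  109 (.lg 0 false 3 61 61 9 0 720) (.nx 92 1627 (.lg 2 false 1 53 53 9 392 240) .out))) (.nx 95 16
  (.nx 94 15 (.l1 .sk) (.l1 .sk)) (.nx 97 1627 (.lg 0 true 2 71 71 9 0 240) .out)))) .out) .out)))
  (.na 126 7 (.na 113 6 (.nx 112 20644 (.nr 111 23172 (.nr 101 4 .s1 (.nx 108 1627 (.nx 103 15 (.nr
  102 17 (.lg 0 true 1 0 16 9 0 720720) (.l1 .sk)) (.nx 104 16 (.l1 .sk) (.lg 0 true 4 67 67 11 0
  240))) (.nr 110 129 (.lg 0 false 2 59 59 9 0 240) .out))) .out) .out) (.nx 125 20644 (.nr 124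
  3446 (.nr 114 5 .s1 (.nx 117 16 (.nx 116 15 (.nr 115 20 (.lg 0 false 1 0 16 7 0 720720) (.l1
  .sk)) (.l1 .sk)) (.lg 0 false 7 71 71 13 0 5040))) .out) .out)) (.na 127 8 .ne (.na 140 9 (.nx
  139 20644 (.nr 138 3446 (.nr 128 8 .s1 (.nr 133 917 (.nx 129 239 (.l1 (.ls 47 43 7143)) (.nr 131
  244 (.lg 0 false 2 59 59 11 0 240) (.nx 132 10323 (.lg 2 false 1 47 47 11 440 240) .out))) (.nx
  135 16 (.nx 134 15 (.l1 .sk) (.l1 .sk)) (.nx 137 10323 (.lg 0 false 2 73 73 11 0 240) .out))))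
  .out) .out) (.lg 0 false 1 0 0 7 0 24))))) (.na 175 17 (.na 158 15 (.na 150 12 (.nx 149 20644
  (.nr 148 3446 (.nr 142 10 .s1 (.nx 145 16 (.nx 144 15 (.nr 143 34 (.l1 (.ls 16 13 25)) (.l1 .sk))
  (.l1 .sk)) (.lg 0 false 3 71 71 11 0 720))) .out) .out) (.nx 157 20644 (.nr 156 3446 (.nr 151 12
  .s1 (.nx 154 16 (.nx 153 15 (.nr 152 42 (.l1 (.ls 16 13 21)) (.l1 .sk)) (.l1 .sk)) (.lg 0 false 2
  71 71 13 0 720))) .out) .out)) (.na 168 16 (.nx 167 20644 (.nr 166 3446 (.nr 159 15 .s1 (.nx 161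
  15 (.nr 160 45 (.l1 (.ls 16 16 17)) (.l1 .sk)) (.nx 162 16 (.l1 .sk) (.lg 0 false 4 61 61 16 0
  720)))) .out) .out) (.nx 174 20644 (.nr 173 6890 (.nr 169 16 .s1 (.nx 170 27 (.l1 (.ls 47 13 48))
  (.nr 172 3446 (.lg 0 false 2 67 67 13 0 240) .out))) .out) .out))) (.na 183 19 (.na 182 18 (.nx
  181 20644 (.nr 180 6890 (.nr 176 17 .s1 (.nx 177 27 (.l1 (.ls 47 16 45)) (.nr 179 3446 (.lg 0
  false 2 71 71 11 0 240) .out))) .out) .out) (.lg 0 false 1 0 0 7 0 24)) (.na 190 20 (.nx 189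
  20644 (.nr 188 6890 (.nr 184 19 .s1 (.nx 185 27 (.l1 (.ls 43 16 41)) (.nr 187 3446 (.lg 0 false 2
  67 67 11 0 240) .out))) .out) .out) (.na 197 23 (.nx 196 20644 (.nr 195 6890 (.nr 191 20 .s1 (.nx
  192 27 (.l1 (.ls 43 17 39)) (.nr 194 3446 (.lg 0 false 2 61 61 13 0 240) .out))) .out) .out) (.nx
  202 20644 (.nr 201 6890 (.nr 198 23 .s1 (.nx 199 163 (.l1 (.ls 43 29 1158)) (.nr 200 257 (.lg 0
  false 1 53 53 11 0 120) .out))) .out) .out)))))) (.na 237 38 (.na 217 31 (.na 210 27 (.na 209 25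
  (.nx 208 20644 (.nr 207 6890 (.nr 204 24 .s1 (.nx 205 27 (.l1 (.ls 47 19 33)) (.nr 206 2049 (.lg
  0 false 1 71 71 13 0 720) .out))) .out) .out) (.lg 0 false 1 0 0 7 0 24)) (.na 211 30 (.lg 0
  false 1 0 0 7 0 24) (.nx 216 20644 (.nr 215 6890 (.nr 212 30 .s1 (.nx 213 163 (.l1 (.ls 41 41
  888)) (.nr 214 257 (.lg 0 false 1 53 53 13 0 720) .out))) .out) .out))) (.na 229 33 (.na 223 32
  (.nx 222 20644 (.nr 221 6890 (.nr 218 31 .s1 (.nx 219 163 (.l1 (.ls 43 23 860)) (.nr 220 257 (.lg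
  0 false 1 53 53 13 0 120) .out))) .out) .out) (.nx 228 20644 (.nr 227 6890 (.nr 224 32 .s1 (.nx
  225 27 (.l1 (.ls 43 13 25)) (.nr 226 2049 (.lg 0 false 1 61 61 13 0 240) .out))) .out) .out))
  (.na 230 34 .ne (.na 236 36 (.nx 235 10323 (.nr 234 4097 (.nr 231 34 .s1 (.nx 232 27 (.l1 (.ls 41
  13 24)) (.nr 233 1724 (.lg 0 false 1 61 61 13 0 720) .out))) .out) .out) (.lg 0 false 1 0 0 7 0
  24))))) (.na 256 47 (.na 249 45 (.na 243 40 (.nx 242 10323 (.nr 241 4097 (.nr 238 38 .s1 (.nx 239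
  27 (.l1 (.ls 41 13 22)) (.nr 240 1724 (.lg 0 false 1 59 59 13 0 240) .out))) .out) .out) (.nx 248
  10323 (.nr 247 4097 (.nr 244 40 .s1 (.nx 245 27 (.l1 (.ls 41 13 21)) (.nr 246 1724 (.lg 0 true 1
  53 53 19 0 240) .out))) .out) .out)) (.na 250 46 (.lg 0 false 1 0 0 16 0 24) (.nx 255 10323 (.nr
  254 4097 (.nr 251 46 .s1 (.nx 252 27 (.l1 (.ls 19 13 18)) (.nr 253 1724 (.lg 0 false 1 59 59 13 0
  720) .out))) .out) .out))) (.na 268 50 (.na 262 48 (.nx 261 10323 (.nr 260 4097 (.nr 257 47 .s1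
  (.nx 258 27 (.l1 (.ls 31 16 18)) (.nr 259 1724 (.lg 0 false 1 53 53 16 0 120) .out))) .out) .out)
  (.nx 267 10323 (.nr 266 4097 (.nr 263 48 .s1 (.nx 264 27 (.l1 (.ls 41 17 18)) (.nr 265 1724 (.lg
  0 false 1 59 59 19 0 720) .out))) .out) .out)) (.na 269 51 (.lg 0 false 1 0 0 16 0 24) (.na 275
  53 (.nx 274 10323 (.nr 273 4097 (.nr 270 51 .s1 (.nx 271 27 (.l1 (.ls 37 16 17)) (.nr 272 1724
  (.lg 0 false 1 53 53 16 0 360) .out))) .out) .out) (.nx 280 10323 (.nr 279 4097 (.nr 276 53 .s1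
  (.nx 277 163 (.l1 (.ls 31 19 504)) (.nr 278 513 (.lg 0 true 1 41 41 16 0 120) .out))) .out)
  .out))))))) (.na 362 92 (.na 326 72 (.na 300 62 (.na 288 60 (.na 282 57 (.lg 0 false 1 0 0 16 0
  24) (.nx 287 10323 (.nr 286 4097 (.nr 283 57 .s1 (.nx 284 163 (.l1 (.ls 37 29 469)) (.nr 285 513
  (.lg 0 true 1 43 43 16 0 720) .out))) .out) .out)) (.na 294 61 (.nx 293 10323 (.nr 292 4097 (.nr
  289 60 .s1 (.nx 290 27 (.l1 (.ls 31 19 16)) (.nr 291 1724 (.lg 0 false 1 53 53 23 0 720) .out)))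
  .out) .out) (.nx 299 10323 (.nr 298 4097 (.nr 295 61 .s1 (.nx 296 163 (.l1 (.ls 31 19 438)) (.nr
  297 513 (.lg 0 true 1 37 37 16 0 120) .out))) .out) .out))) (.na 312 65 (.na 306 64 (.nx 305
  10323 (.nr 304 4097 (.nr 301 62 .s1 (.nx 302 163 (.l1 (.ls 29 29 431)) (.nr 303 513 (.lg 2 true 1
  31 31 13 1249 720) .out))) .out) .out) (.nx 311 20644 (.nr 310 4097 (.nr 307 64 .s1 (.nx 308 163
  (.l1 (.ls 41 29 418)) (.nr 309 513 (.lg 0 true 1 47 47 17 0 240) .out))) .out) .out)) (.na 313 68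
  .ne (.na 320 69 (.nx 319 20644 (.nr 318 2049 (.nr 314 68 .s1 (.nx 316 15 (.nr 315 193 (.l1 (.ls
  16 13 18)) (.l1 .sk)) (.nx 317 16 (.l1 .sk) (.lg 0 true 1 59 59 13 0 240)))) .out) .out) (.nx 325
  20644 (.nr 324 2049 (.nr 321 69 .s1 (.nx 322 163 (.l1 (.ls 19 19 388)) (.nr 323 513 (.lg 0 true 1
  47 47 16 0 720) .out))) .out) .out))))) (.na 341 80 (.na 328 76 (.na 327 75 (.lg 0 false 1 0 0 16
  0 24) (.lg 0 false 1 0 0 16 0 24)) (.na 335 79 (.nx 334 20644 (.nr 333 2049 (.nr 329 76 .s1 (.nx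
  332 16 (.nx 331 15 (.nr 330 221 (.l1 (.ls 16 13 20)) (.l1 .sk)) (.l1 .sk)) (.lg 0 false 1 59 59
  17 0 240))) .out) .out) (.nx 340 20644 (.nr 339 2049 (.nr 336 79 .s1 (.nx 337 163 (.l1 (.ls 23 19
  339)) (.nr 338 513 (.lg 2 true 1 29 29 16 1960 720) .out))) .out) .out))) (.na 349 83 (.na 348 81
  (.nx 347 20644 (.nr 346 2049 (.nr 342 80 .s1 (.nx 345 16 (.nx 344 15 (.nr 343 226 (.l1 (.ls 16 13
  21)) (.l1 .sk)) (.l1 .sk)) (.lg 0 true 1 53 53 23 0 240))) .out) .out) (.lg 0 false 1 0 0 16 0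
  24)) (.na 355 85 (.nx 354 20644 (.nr 353 2049 (.nr 350 83 .s1 (.nx 351 163 (.l1 (.ls 23 19 323))
  (.nr 352 513 (.lg 2 true 1 29 29 16 1866 720) .out))) .out) .out) (.na 361 90 (.nx 360 20644 (.nr
  359 2049 (.nr 356 85 .s1 (.nx 357 163 (.l1 (.ls 29 23 315)) (.nr 358 513 (.lg 2 true 1 29 29 16
  1822 720) .out))) .out) .out) (.lg 0 false 1 0 0 16 0 24)))))) (.na 412 108 (.na 387 96 (.na 375
  94 (.na 369 93 (.nx 368 20644 (.nr 367 2049 (.nr 363 92 .s1 (.nx 365 15 (.nr 364 260 (.l1 (.ls 16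
  13 24)) (.l1 .sk)) (.nx 366 16 (.l1 .sk) (.lg 0 true 1 59 59 19 0 240)))) .out) .out) (.nx 374
  20644 (.nr 373 2049 (.nr 370 93 .s1 (.nx 371 163 (.l1 (.ls 23 23 288)) (.nr 372 513 (.lg 2 true 1
  23 23 16 1665 720) .out))) .out) .out)) (.na 381 95 (.nx 380 20644 (.nr 379 2049 (.nr 376 94 .s1
  (.nx 377 163 (.l1 (.ls 23 29 285)) (.nr 378 513 (.lg 2 true 1 23 23 17 1648 5040) .out))) .out)
  .out) (.nx 386 20644 (.nr 385 2049 (.nr 382 95 .s1 (.nx 383 163 (.l1 (.ls 17 17 282)) (.nr 384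
  513 (.lg 2 true 1 31 31 16 1630 5040) .out))) .out) .out))) (.na 394 102 (.na 393 100 (.nx 392
  20644 (.nr 391 2049 (.nr 388 96 .s1 (.nx 389 163 (.l1 (.ls 31 31 279)) (.nr 390 513 (.lg 0 true 1
  43 43 23 0 720) .out))) .out) .out) (.lg 0 false 1 0 0 16 0 24)) (.na 400 106 (.nx 399 20644 (.nr
  398 2049 (.nr 395 102 .s1 (.nx 396 163 (.l1 (.ls 16 37 263)) (.nr 397 513 (.lg 2 true 1 29 29 29
  1518 720) .out))) .out) .out) (.na 406 107 (.nx 405 20644 (.nr 404 2049 (.nr 401 106 .s1 (.nx 402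
  163 (.l1 (.ls 23 23 253)) (.nr 403 513 (.lg 2 true 1 19 19 19 1461 720) .out))) .out) .out) (.nx
  411 20644 (.nr 410 2049 (.nr 407 107 .s1 (.nx 408 163 (.l1 (.ls 19 17 251)) (.nr 409 513 (.lg 2
  true 1 19 19 16 1448 720) .out))) .out) .out))))) (.na 437 120 (.na 419 113 (.na 413 109 (.lg 0
  false 1 0 0 16 0 24) (.nx 418 20644 (.nr 417 2049 (.nr 414 109 .s1 (.nx 415 163 (.l1 (.ls 23 17
  246)) (.nr 416 513 (.lg 2 true 1 23 23 16 1421 5040) .out))) .out) .out)) (.na 425 114 (.nx 424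
  20644 (.nr 423 2049 (.nr 420 113 .s1 (.nx 421 163 (.l1 (.ls 23 17 238)) (.nr 422 513 (.lg 2 true
  1 23 23 16 1371 720) .out))) .out) .out) (.na 431 115 (.nx 430 20644 (.nr 429 2049 (.nr 426 114
  .s1 (.nx 427 163 (.l1 (.ls 17 37 236)) (.nr 428 513 (.lg 2 true 1 23 23 29 1359 720) .out)))
  .out) .out) (.nx 436 20644 (.nr 435 2049 (.nr 432 115 .s1 (.nx 433 163 (.l1 (.ls 19 19 234)) (.nr
  434 513 (.lg 2 true 1 23 23 16 1347 5040) .out))) .out) .out)))) (.na 449 124 (.na 443 122 (.nx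
  442 20644 (.nr 441 2049 (.nr 438 120 .s1 (.nx 439 163 (.l1 (.ls 29 31 224)) (.nr 440 513 (.lg 2
  true 1 23 23 29 1291 720) .out))) .out) .out) (.nx 448 20644 (.nr 447 2049 (.nr 444 122 .s1 (.nx
  445 163 (.l1 (.ls 23 23 220)) (.nr 446 513 (.lg 2 true 1 19 19 19 1270 5040) .out))) .out) .out))
  (.na 455 125 (.nx 454 20644 (.nr 453 2049 (.nr 450 124 .s1 (.nx 451 163 (.l1 (.ls 29 23 217))
  (.nr 452 513 (.lg 2 true 1 23 23 19 1249 720) .out))) .out) .out) (.na 456 128 (.lg 0 false 1 0 0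
  16 0 24) (.nx 461 20644 (.nr 460 2049 (.nr 457 128 .s1 (.nx 458 163 (.l1 (.ls 29 23 210)) (.nr
  459 513 (.lg 2 true 1 23 23 19 1210 720) .out))) .out) .out)))))))) (.na 610 197 (.na 531 160
  (.na 496 149 (.na 471 137 (.na 464 135 (.na 463 131 .ne (.lg 0 false 1 0 0 16 0 24)) (.na 465 136
  (.lg 0 false 1 0 0 16 0 24) (.nx 470 10323 (.nr 469 2049 (.nr 466 136 .s1 (.nx 467 163 (.l1 (.ls
  41 29 198)) (.nr 468 513 (.lg 0 true 1 41 47 29 0 720) .out))) .out) .out))) (.na 483 139 (.na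
  477 138 (.nx 476 10323 (.nr 475 2049 (.nr 472 137 .s1 (.nx 473 163 (.l1 (.ls 19 17 196)) (.nr 474
  513 (.lg 2 false 1 17 17 16 566 5040) .out))) .out) .out) (.nx 482 10323 (.nr 481 2049 (.nr 478
  138 .s1 (.nx 479 163 (.l1 (.ls 19 31 195)) (.nr 480 513 (.lg 2 false 1 16 16 19 562 720) .out)))
  .out) .out)) (.na 489 141 (.nx 488 10323 (.nr 487 2049 (.nr 484 139 .s1 (.nx 485 163 (.l1 (.ls 19
  17 194)) (.nr 486 513 (.lg 2 false 1 16 16 16 557 720) .out))) .out) .out) (.na 495 144 (.nx 494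
  10323 (.nr 493 2049 (.nr 490 141 .s1 (.nx 491 163 (.l1 (.ls 19 19 191)) (.nr 492 513 (.lg 2 true
  1 16 16 17 550 720) .out))) .out) .out) (.lg 0 false 1 0 0 16 0 24))))) (.na 511 153 (.na 498 151
  (.na 497 150 (.lg 0 false 1 0 0 16 0 24) (.lg 0 false 1 0 0 16 0 24)) (.na 504 152 (.nx 503 10323
  (.nr 502 2049 (.nr 499 151 .s1 (.nx 500 163 (.l1 (.ls 19 17 178)) (.nr 501 513 (.lg 2 true 1 17
  17 16 513 5040) .out))) .out) .out) (.nx 510 10323 (.nr 509 2049 (.nr 505 152 .s1 (.nx 508 16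
  (.nx 507 15 (.nr 506 427 (.l1 (.ls 17 13 39)) (.l1 .sk)) (.l1 .sk)) (.lg 0 true 1 47 53 29 0
  720))) .out) .out))) (.na 518 157 (.na 512 155 (.lg 0 false 1 0 0 16 0 24) (.nx 517 10323 (.nr
  516 2049 (.nr 513 155 .s1 (.nx 514 163 (.l1 (.ls 17 19 174)) (.nr 515 513 (.lg 2 true 1 16 16 17
  500 720) .out))) .out) .out)) (.na 519 158 (.lg 0 false 1 0 0 16 0 24) (.na 525 159 (.nx 524
  10323 (.nr 523 2049 (.nr 520 158 .s1 (.nx 521 163 (.l1 (.ls 19 23 171)) (.nr 522 513 (.lg 2 true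
  1 16 16 19 491 5040) .out))) .out) .out) (.nx 530 10323 (.nr 529 2049 (.nr 526 159 .s1 (.nx 527
  163 (.l1 (.ls 17 19 170)) (.nr 528 513 (.lg 2 true 1 16 16 17 487 720) .out))) .out) .out))))))
  (.na 565 180 (.na 545 167 (.na 538 163 (.na 537 162 (.nx 536 10323 (.nr 535 2049 (.nr 532 160 .s1
  (.nx 533 163 (.l1 (.ls 23 29 169)) (.nr 534 513 (.lg 2 true 1 17 19 29 484 720) .out))) .out)
  .out) (.lg 0 false 1 0 0 16 0 24)) (.na 539 166 (.lg 0 false 1 0 0 16 0 24) (.nx 544 10323 (.nr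
  543 2049 (.nr 540 166 .s1 (.nx 541 163 (.l1 (.ls 17 23 163)) (.nr 542 513 (.lg 2 true 1 16 16 19
  467 720) .out))) .out) .out))) (.na 557 171 (.na 551 170 (.nx 550 10323 (.nr 549 2049 (.nr 546
  167 .s1 (.nx 547 163 (.l1 (.ls 17 17 162)) (.nr 548 513 (.lg 2 true 1 16 16 16 464 55440) .out)))
  .out) .out) (.nx 556 10323 (.nr 555 2049 (.nr 552 170 .s1 (.nx 553 163 (.l1 (.ls 16 31 159)) (.nr
  554 513 (.lg 2 true 1 16 16 29 456 9360) .out))) .out) .out)) (.na 558 173 (.lg 0 false 1 0 0 16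
  0 24) (.na 564 179 (.nx 563 10323 (.nr 562 2049 (.nr 559 173 .s1 (.nx 560 163 (.l1 (.ls 17 17
  156)) (.nr 561 513 (.lg 2 false 1 16 16 16 448 102960) .out))) .out) .out) (.lg 0 false 1 0 0 16
  0 24))))) (.na 590 188 (.na 572 183 (.na 566 181 (.lg 0 false 1 0 0 16 0 24) (.nx 571 10323 (.nr
  570 2049 (.nr 567 181 .s1 (.nx 568 163 (.l1 (.ls 17 17 149)) (.nr 569 513 (.lg 2 false 1 16 16 16
  428 65520) .out))) .out) .out)) (.na 578 184 (.nx 577 10323 (.nr 576 2049 (.nr 573 183 .s1 (.nx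
  574 163 (.l1 (.ls 19 19 148)) (.nr 575 513 (.lg 2 false 1 17 17 17 424 720720) .out))) .out)
  .out) (.na 584 186 (.nx 583 10323 (.nr 582 2049 (.nr 579 184 .s1 (.nx 580 163 (.l1 (.ls 19 19
  147)) (.nr 581 513 (.lg 2 false 1 16 19 31 421 720) .out))) .out) .out) (.nx 589 10323 (.nr 588
  2049 (.nr 585 186 .s1 (.nx 586 163 (.l1 (.ls 19 29 145)) (.nr 587 513 (.lg 2 false 1 16 16 29 417
  65520) .out))) .out) .out)))) (.na 602 191 (.na 596 190 (.nx 595 10323 (.nr 594 2049 (.nr 591 188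
  .s1 (.nx 592 163 (.l1 (.ls 23 23 144)) (.nr 593 513 (.lg 2 false 1 16 16 23 412 720) .out)))
  .out) .out) (.nx 601 10323 (.nr 600 2049 (.nr 597 190 .s1 (.nx 598 163 (.l1 (.ls 17 31 142)) (.nr
  599 513 (.lg 2 false 1 17 17 29 408 720720) .out))) .out) .out)) (.na 603 192 (.lg 0 false 1 0 0
  16 0 24) (.na 609 193 (.nx 608 10323 (.nr 607 2049 (.nr 604 192 .s1 (.nx 605 163 (.l1 (.ls 23 29
  141)) (.nr 606 513 (.lg 2 false 1 17 17 29 404 5040) .out))) .out) .out) (.lg 0 false 1 0 0 16 0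
  24))))))) (.na 693 235 (.na 649 218 (.na 629 207 (.na 622 200 (.na 616 199 (.nx 615 10323 (.nr
  614 2049 (.nr 611 197 .s1 (.nx 612 163 (.l1 (.ls 17 17 137)) (.nr 613 513 (.lg 2 false 1 16 16 16
  394 5040) .out))) .out) .out) (.nx 621 10323 (.nr 620 2049 (.nr 617 199 .s1 (.nx 618 163 (.l1
  (.ls 17 17 136)) (.nr 619 513 (.lg 2 true 1 16 16 16 390 65520) .out))) .out) .out)) (.na 623 204
  (.lg 0 false 1 0 0 16 0 24) (.nx 628 10323 (.nr 627 2049 (.nr 624 204 .s1 (.nx 625 163 (.l1 (.ls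
  16 31 133)) (.nr 626 513 (.lg 2 true 1 16 16 31 380 720) .out))) .out) .out))) (.na 636 212 (.na
  630 211 (.lg 0 false 1 0 0 16 0 24) (.nx 635 10323 (.nr 634 2049 (.nr 631 211 .s1 (.nx 632 163
  (.l1 (.ls 16 17 128)) (.nr 633 513 (.lg 2 true 1 16 16 16 367 55440) .out))) .out) .out)) (.na
  642 214 (.nx 641 10323 (.nr 640 2049 (.nr 637 212 .s1 (.nx 638 163 (.l1 (.ls 23 23 128)) (.nr 639
  513 (.lg 2 true 1 17 17 23 366 102960) .out))) .out) .out) (.na 648 216 (.nx 647 10323 (.nr 646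
  2049 (.nr 643 214 .s1 (.nx 644 163 (.l1 (.ls 17 23 127)) (.nr 645 513 (.lg 2 true 1 0 16 23 366
  720720) .out))) .out) .out) (.lg 0 false 1 0 0 16 0 24))))) (.na 663 227 (.na 656 225 (.na 655
  223 (.nx 654 10323 (.nr 653 2049 (.nr 650 218 .s1 (.nx 651 163 (.l1 (.ls 17 23 124)) (.nr 652 513
  (.lg 2 true 1 16 16 23 366 720720) .out))) .out) .out) (.lg 0 false 1 0 0 16 0 24)) (.na 657 226
  (.lg 0 false 1 0 0 16 0 24) (.nx 662 10323 (.nr 661 2049 (.nr 658 226 .s1 (.nx 659 163 (.l1 (.ls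
  17 23 120)) (.nr 660 513 (.lg 2 true 1 16 16 23 366 720720) .out))) .out) .out))) (.na 675 229
  (.na 669 228 (.nx 668 10323 (.nr 667 2049 (.nr 664 227 .s1 (.nx 665 163 (.l1 (.ls 17 17 120))
  (.nr 666 513 (.lg 2 true 1 16 16 17 366 720720) .out))) .out) .out) (.nx 674 10323 (.nr 673 2049
  (.nr 670 228 .s1 (.nx 671 163 (.l1 (.ls 17 31 119)) (.nr 672 513 (.lg 2 true 1 17 17 37 366
  55440) .out))) .out) .out)) (.na 681 230 (.nx 680 10323 (.nr 679 2049 (.nr 676 229 .s1 (.nx 677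
  163 (.l1 (.ls 16 17 119)) (.nr 678 513 (.lg 2 true 1 16 16 17 366 102960) .out))) .out) .out)
  (.na 687 233 (.nx 686 10323 (.nr 685 2049 (.nr 682 230 .s1 (.nx 683 163 (.l1 (.ls 17 31 118))
  (.nr 684 513 (.lg 2 true 1 16 16 31 366 720720) .out))) .out) .out) (.nx 692 10323 (.nr 691 2049
  (.nr 688 233 .s1 (.nx 689 163 (.l1 (.ls 16 17 117)) (.nr 690 513 (.lg 2 true 1 16 16 17 366
  102960) .out))) .out) .out)))))) (.na 737 250 (.na 712 241 (.na 705 239 (.na 699 237 (.nx 698
  10323 (.nr 697 2049 (.nr 694 235 .s1 (.nx 695 163 (.l1 (.ls 17 19 116)) (.nr 696 513 (.lg 2 true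
  1 16 16 17 366 720720) .out))) .out) .out) (.nx 704 10323 (.nr 703 2049 (.nr 700 237 .s1 (.nx 701
  163 (.l1 (.ls 16 19 115)) (.nr 702 513 (.lg 2 true 1 16 16 19 366 720720) .out))) .out) .out))
  (.na 706 240 (.lg 0 false 1 0 0 16 0 24) (.nx 711 10323 (.nr 710 2049 (.nr 707 240 .s1 (.nx 708
  163 (.l1 (.ls 19 31 113)) (.nr 709 513 (.lg 2 true 1 16 16 31 366 7920) .out))) .out) .out)))
  (.na 719 244 (.na 718 243 (.nx 717 10323 (.nr 716 2049 (.nr 713 241 .s1 (.nx 714 163 (.l1 (.ls 16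
  17 113)) (.nr 715 513 (.lg 2 true 1 16 16 17 366 720720) .out))) .out) .out) (.lg 0 false 1 0 0
  16 0 24)) (.na 725 248 (.nx 724 10323 (.nr 723 2049 (.nr 720 244 .s1 (.nx 721 163 (.l1 (.ls 19 23
  111)) (.nr 722 513 (.lg 2 true 1 17 17 23 366 55440) .out))) .out) .out) (.na 731 249 (.nx 730
  10323 (.nr 729 2049 (.nr 726 248 .s1 (.nx 727 163 (.l1 (.ls 29 23 110)) (.nr 728 513 (.lg 2 true
  1 17 19 29 366 65520) .out))) .out) .out) (.nx 736 10323 (.nr 735 2049 (.nr 732 249 .s1 (.nx 733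
  163 (.l1 (.ls 17 19 109)) (.nr 734 513 (.lg 2 true 1 16 16 19 366 720720) .out))) .out) .out)))))
  (.na 917 512 (.na 739 255 (.na 738 251 (.lg 0 false 1 0 0 16 0 24) (.lg 0 false 1 0 0 16 0 24))
  (.na 745 256 (.nx 744 10323 (.nr 743 2049 (.nr 740 255 .s1 (.nx 741 163 (.l1 (.ls 16 29 107))
  (.nr 742 513 (.lg 2 true 1 16 16 29 366 720720) .out))) .out) .out) (.na 751 257 (.nx 750 10323
  (.nr 749 4097 (.nr 746 256 .s1 (.nx 747 163 (.l1 (.ls 29 23 106)) (.nr 748 513 (.lg 2 true 1 16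
  16 29 366 5040) .out))) .out) .out) (.nx 916 163 (.nr 915 4097 (.nr 752 257 .s1 (.nx 833 82 (.lx
  (.lp 37 17 129)) (.nr 914 2049 (.lx (.lp 29 17 129)) .out))) .out) .out)))) (.na 1166 2048 (.na
  1082 1024 (.nx 1081 163 (.nr 1080 4097 (.nr 918 512 .s1 (.lx (.lp 31 19 257))) .out) .out) (.nx
  1165 82 (.nr 1164 8193 (.nr 1083 1024 .s1 (.lx (.lp 31 23 513))) .out) .out)) (.na 1250 4096 (.nx
  1249 82 (.nr 1248 8193 (.nr 1167 2048 .s1 (.lx (.lp 31 29 1025))) .out) .out) (.na 1334 8193 (.nx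
  1333 82 (.nr 1332 16385 (.nr 1251 4096 .s1 (.lx (.lp 17 31 2049))) .out) .out) .out))))))))

theorem c80 :
    OkQ ckI L8 141 1 1099511627776 0 34359738368 1 1099511627776 ∧
    OkQ ckI L8 136 1 29 0 34359738368 1 1099511627776 ∧
    OkQ ckI L1 15 1 1099511627776 0 34359738368 1 1099511627776 := by
  refine ⟨?_, ?_, ?_⟩
  · refine fin 1128 14577 T80_0 ?_
    refine jn 11 (by decide +kernel) ?_
    refine jn 19 (by decide +kernel) ?_
    refine jn 28 (by decide +kernel) ?_
    refine jn 33 (by decide +kernel) ?_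
    refine jn 43 (by decide +kernel) ?_
    refine jn 52 (by decide +kernel) ?_
    refine jn 59 (by decide +kernel) ?_
    refine jn 66 (by decide +kernel) ?_
    refine jn 74 (by decide +kernel) ?_
    refine jn 81 (by decide +kernel) ?_
    refine jn 100 (by decide +kernel) ?_
    refine jn 108 (by decide +kernel) ?_
    refine jn 116 (by decide +kernel) ?_
    refine jn 128 (by decide +kernel) ?_
    refine jn 139 (by decide +kernel) ?_
    refine jn 152 (by decide +kernel) ?_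
    refine jn 168 (by decide +kernel) ?_
    refine jn 190 (by decide +kernel) ?_
    refine jn 212 (by decide +kernel) ?_
    refine jn 217 (by decide +kernel) ?_
    refine jn 218 (by decide +kernel) ?_
    refine jn 219 (by decide +kernel) ?_
    refine jn 221 (by decide +kernel) ?_
    refine jn 222 (by decide +kernel) ?_
    refine jn 223 (by decide +kernel) ?_
    refine jn 231 (by decide +kernel) ?_
    refine jn 234 (by decide +kernel) ?_
    refine jn 236 (by decide +kernel) ?_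
    refine jn 238 (by decide +kernel) ?_
    refine jn 240 (by decide +kernel) ?_
    refine jn 242 (by decide +kernel) ?_
    refine jn 244 (by decide +kernel) ?_
    refine jn 245 (by decide +kernel) ?_
    refine jn 252 (by decide +kernel) ?_
    refine jn 263 (by decide +kernel) ?_
    refine jn 272 (by decide +kernel) ?_
    refine jn 286 (by decide +kernel) ?_
    refine jn 294 (by decide +kernel) ?_
    refine jn 301 (by decide +kernel) ?_
    refine jn 309 (by decide +kernel) ?_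
    refine jn 338 (by decide +kernel) ?_
    refine jn 352 (by decide +kernel) ?_
    refine jn 359 (by decide +kernel) ?_
    refine jn 368 (by decide +kernel) ?_
    refine jn 381 (by decide +kernel) ?_
    refine jn 402 (by decide +kernel) ?_
    refine jn 416 (by decide +kernel) ?_
    refine jn 457 (by decide +kernel) ?_
    refine jn 478 (by decide +kernel) ?_
    refine jn 481 (by decide +kernel) ?_
    refine jn 484 (by decide +kernel) ?_
    refine jn 487 (by decide +kernel) ?_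
    refine jn 490 (by decide +kernel) ?_
    refine jn 493 (by decide +kernel) ?_
    refine jn 496 (by decide +kernel) ?_
    refine jn 498 (by decide +kernel) ?_
    refine jn 508 (by decide +kernel) ?_
    refine jn 512 (by decide +kernel) ?_
    refine jn 519 (by decide +kernel) ?_
    refine jn 535 (by decide +kernel) ?_
    refine jn 538 (by decide +kernel) ?_
    refine jn 539 (by decide +kernel) ?_
    refine jn 540 (by decide +kernel) ?_
    refine jn 542 (by decide +kernel) ?_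
    refine jn 543 (by decide +kernel) ?_
    refine jn 544 (by decide +kernel) ?_
    refine jn 545 (by decide +kernel) ?_
    refine jn 546 (by decide +kernel) ?_
    refine jn 547 (by decide +kernel) ?_
    refine jn 548 (by decide +kernel) ?_
    refine jn 549 (by decide +kernel) ?_
    refine jn 550 (by decide +kernel) ?_
    refine jn 551 (by decide +kernel) ?_
    refine jn 552 (by decide +kernel) ?_
    refine jn 553 (by decide +kernel) ?_
    refine jn 562 (by decide +kernel) ?_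
    refine jn 573 (by decide +kernel) ?_
    refine jn 580 (by decide +kernel) ?_
    refine jn 587 (by decide +kernel) ?_
    refine jn 601 (by decide +kernel) ?_
    refine jn 608 (by decide +kernel) ?_
    refine jn 615 (by decide +kernel) ?_
    refine jn 627 (by decide +kernel) ?_
    refine jn 634 (by decide +kernel) ?_
    refine jn 645 (by decide +kernel) ?_
    refine jn 652 (by decide +kernel) ?_
    refine jn 662 (by decide +kernel) ?_
    refine jn 668 (by decide +kernel) ?_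
    refine jn 683 (by decide +kernel) ?_
    refine jn 688 (by decide +kernel) ?_
    refine jn 700 (by decide +kernel) ?_
    refine jn 706 (by decide +kernel) ?_
    refine jn 721 (by decide +kernel) ?_
    refine jn 733 (by decide +kernel) ?_
    refine jn 739 (by decide +kernel) ?_
    refine jn 750 (by decide +kernel) ?_
    refine jn 756 (by decide +kernel) ?_
    refine jn 765 (by decide +kernel) ?_
    refine jn 766 (by decide +kernel) ?_
    refine jn 767 (by decide +kernel) ?_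
    refine jn 768 (by decide +kernel) ?_
    refine jn 769 (by decide +kernel) ?_
    refine jn 770 (by decide +kernel) ?_
    refine jn 771 (by decide +kernel) ?_
    refine jn 785 (by decide +kernel) ?_
    refine jn 801 (by decide +kernel) ?_
    refine jn 816 (by decide +kernel) ?_
    refine jn 830 (by decide +kernel) ?_
    refine jn 845 (by decide +kernel) ?_
    refine jn 862 (by decide +kernel) ?_
    refine jn 877 (by decide +kernel) ?_
    refine jn 890 (by decide +kernel) ?_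
    refine jn 904 (by decide +kernel) ?_
    refine jn 918 (by decide +kernel) ?_
    refine jn 929 (by decide +kernel) ?_
    refine jn 941 (by decide +kernel) ?_
    refine jn 952 (by decide +kernel) ?_
    refine jn 965 (by decide +kernel) ?_
    refine jn 980 (by decide +kernel) ?_
    refine jn 990 (by decide +kernel) ?_
    refine jn 993 (by decide +kernel) ?_
    refine jn 1006 (by decide +kernel) ?_
    refine jn 1025 (by decide +kernel) ?_
    refine jn 1037 (by decide +kernel) ?_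
    refine jn 1048 (by decide +kernel) ?_
    refine jn 1058 (by decide +kernel) ?_
    refine jn 1075 (by decide +kernel) ?_
    refine jn 1092 (by decide +kernel) ?_
    refine jn 1102 (by decide +kernel) ?_
    refine jn 1111 (by decide +kernel) ?_
    refine jn 1128 (by decide +kernel) ?_
    refine jn 1143 (by decide +kernel) ?_
    refine jn 1152 (by decide +kernel) ?_
    refine jn 1168 (by decide +kernel) ?_
    refine jn 1212 (by decide +kernel) ?_
    refine jn 1324 (by decide +kernel) ?_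
    refine jn 1392 (by decide +kernel) ?_
    refine jn 1407 (by decide +kernel) ?_
    refine jn 1412 (by decide +kernel) ?_
    refine jn 1423 (by decide +kernel) ?_
    refine jn 1432 (by decide +kernel) ?_
    refine jn 1444 (by decide +kernel) ?_
    refine jn 1484 (by decide +kernel) ?_
    refine jn 1500 (by decide +kernel) ?_
    refine jn 1512 (by decide +kernel) ?_
    refine jn 1528 (by decide +kernel) ?_
    refine jn 1540 (by decide +kernel) ?_
    refine jn 1552 (by decide +kernel) ?_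
    refine jn 1560 (by decide +kernel) ?_
    refine jn 1583 (by decide +kernel) ?_
    refine jn 1600 (by decide +kernel) ?_
    refine jn 1608 (by decide +kernel) ?_
    refine jn 1619 (by decide +kernel) ?_
    refine jn 1632 (by decide +kernel) ?_
    refine jn 1648 (by decide +kernel) ?_
    refine jn 1663 (by decide +kernel) ?_
    refine jn 1675 (by decide +kernel) ?_
    refine jn 1680 (by decide +kernel) ?_
    refine jn 1695 (by decide +kernel) ?_
    refine jn 1732 (by decide +kernel) ?_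
    refine jn 1755 (by decide +kernel) ?_
    refine jn 1774 (by decide +kernel) ?_
    refine jn 1795 (by decide +kernel) ?_
    refine jn 1811 (by decide +kernel) ?_
    refine jn 1838 (by decide +kernel) ?_
    refine jn 1856 (by decide +kernel) ?_
    refine jn 1867 (by decide +kernel) ?_
    refine jn 1876 (by decide +kernel) ?_
    refine jn 1902 (by decide +kernel) ?_
    refine jn 2121 (by decide +kernel) ?_
    refine jn 2150 (by decide +kernel) ?_
    refine jn 2164 (by decide +kernel) ?_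
    refine jn 2181 (by decide +kernel) ?_
    refine jn 2196 (by decide +kernel) ?_
    refine jn 2210 (by decide +kernel) ?_
    refine jn 2229 (by decide +kernel) ?_
    refine jn 2242 (by decide +kernel) ?_
    refine jn 2272 (by decide +kernel) ?_
    refine jn 2290 (by decide +kernel) ?_
    refine jn 2305 (by decide +kernel) ?_
    refine jn 2335 (by decide +kernel) ?_
    refine jn 2364 (by decide +kernel) ?_
    refine jn 2378 (by decide +kernel) ?_
    refine jn 2395 (by decide +kernel) ?_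
    refine jn 2410 (by decide +kernel) ?_
    refine jn 2424 (by decide +kernel) ?_
    refine jn 2443 (by decide +kernel) ?_
    refine jn 2456 (by decide +kernel) ?_
    refine jn 2483 (by decide +kernel) ?_
    refine jn 2503 (by decide +kernel) ?_
    refine jn 2519 (by decide +kernel) ?_
    refine jn 2563 (by decide +kernel) ?_
    refine jn 2624 (by decide +kernel) ?_
    refine jn 2683 (by decide +kernel) ?_
    refine jn 2755 (by decide +kernel) ?_
    refine jn 2826 (by decide +kernel) ?_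
    refine jn 2878 (by decide +kernel) ?_
    refine jn 2933 (by decide +kernel) ?_
    refine jn 2971 (by decide +kernel) ?_
    refine jn 3031 (by decide +kernel) ?_
    refine jn 3067 (by decide +kernel) ?_
    refine jn 3131 (by decide +kernel) ?_
    refine jn 3226 (by decide +kernel) ?_
    refine jn 3291 (by decide +kernel) ?_
    refine jn 3342 (by decide +kernel) ?_
    refine jn 3398 (by decide +kernel) ?_
    refine jn 3462 (by decide +kernel) ?_
    refine jn 3514 (by decide +kernel) ?_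
    refine jn 3606 (by decide +kernel) ?_
    refine jn 3655 (by decide +kernel) ?_
    refine jn 3702 (by decide +kernel) ?_
    refine jn 3746 (by decide +kernel) ?_
    refine jn 3807 (by decide +kernel) ?_
    refine jn 3831 (by decide +kernel) ?_
    refine jn 3887 (by decide +kernel) ?_
    refine jn 3926 (by decide +kernel) ?_
    refine jn 3979 (by decide +kernel) ?_
    refine jn 4055 (by decide +kernel) ?_
    refine jn 4122 (by decide +kernel) ?_
    refine jn 4198 (by decide +kernel) ?_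
    refine jn 4266 (by decide +kernel) ?_
    refine jn 4332 (by decide +kernel) ?_
    refine jn 4422 (by decide +kernel) ?_
    refine jn 4506 (by decide +kernel) ?_
    refine jn 4603 (by decide +kernel) ?_
    refine jn 4678 (by decide +kernel) ?_
    refine jn 4750 (by decide +kernel) ?_
    refine jn 4846 (by decide +kernel) ?_
    refine jn 4925 (by decide +kernel) ?_
    refine jn 4994 (by decide +kernel) ?_
    refine jn 5090 (by decide +kernel) ?_
    refine jn 5178 (by decide +kernel) ?_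
    refine jn 5279 (by decide +kernel) ?_
    refine jn 5366 (by decide +kernel) ?_
    refine jn 5448 (by decide +kernel) ?_
    refine jn 5678 (by decide +kernel) ?_
    refine jn 5811 (by decide +kernel) ?_
    refine jn 5947 (by decide +kernel) ?_
    refine jn 6079 (by decide +kernel) ?_
    refine jn 6176 (by decide +kernel) ?_
    refine jn 6259 (by decide +kernel) ?_
    refine jn 6379 (by decide +kernel) ?_
    refine jn 6503 (by decide +kernel) ?_
    refine jn 6590 (by decide +kernel) ?_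
    refine jn 6743 (by decide +kernel) ?_
    refine jn 6956 (by decide +kernel) ?_
    refine jn 7056 (by decide +kernel) ?_
    refine jn 7188 (by decide +kernel) ?_
    refine jn 7327 (by decide +kernel) ?_
    refine jn 7464 (by decide +kernel) ?_
    refine jn 7588 (by decide +kernel) ?_
    refine jn 7692 (by decide +kernel) ?_
    refine jn 7828 (by decide +kernel) ?_
    refine jn 7980 (by decide +kernel) ?_
    refine jn 8113 (by decide +kernel) ?_
    refine jn 8249 (by decide +kernel) ?_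
    refine jn 8384 (by decide +kernel) ?_
    refine jn 8527 (by decide +kernel) ?_
    refine jn 8631 (by decide +kernel) ?_
    refine jn 9132 (by decide +kernel) ?_
    refine jn 9337 (by decide +kernel) ?_
    refine jn 9482 (by decide +kernel) ?_
    refine jn 9598 (by decide +kernel) ?_
    refine jn 9699 (by decide +kernel) ?_
    refine jn 9779 (by decide +kernel) ?_
    refine jn 9852 (by decide +kernel) ?_
    refine jn 9920 (by decide +kernel) ?_
    refine jn 10268 (by decide +kernel) ?_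
    refine jn 10450 (by decide +kernel) ?_
    refine jn 10598 (by decide +kernel) ?_
    refine jn 10711 (by decide +kernel) ?_
    refine jn 10797 (by decide +kernel) ?_
    refine jn 10876 (by decide +kernel) ?_
    refine jn 10946 (by decide +kernel) ?_
    refine jn 11020 (by decide +kernel) ?_
    refine jn 11083 (by decide +kernel) ?_
    refine jn 11141 (by decide +kernel) ?_
    refine jn 11193 (by decide +kernel) ?_
    refine jn 11434 (by decide +kernel) ?_
    refine jn 11767 (by decide +kernel) ?_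
    refine jn 11936 (by decide +kernel) ?_
    refine jn 12078 (by decide +kernel) ?_
    refine jn 12204 (by decide +kernel) ?_
    refine jn 12307 (by decide +kernel) ?_
    refine jn 12403 (by decide +kernel) ?_
    refine jn 12488 (by decide +kernel) ?_
    refine jn 12976 (by decide +kernel) ?_
    refine jn 13244 (by decide +kernel) ?_
    refine jn 13442 (by decide +kernel) ?_
    refine jn 13935 (by decide +kernel) ?_
    refine jn 14319 (by decide +kernel) ?_
    refine jn 14570 (by decide +kernel) ?_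
    exact je (by decide +kernel)
  · refine fin 408 995 T80_1 ?_
    refine jn 7 (by decide +kernel) ?_
    refine jn 10 (by decide +kernel) ?_
    refine jn 12 (by decide +kernel) ?_
    refine jn 17 (by decide +kernel) ?_
    refine jn 20 (by decide +kernel) ?_
    refine jn 22 (by decide +kernel) ?_
    refine jn 23 (by decide +kernel) ?_
    refine jn 25 (by decide +kernel) ?_
    refine jn 28 (by decide +kernel) ?_
    refine jn 32 (by decide +kernel) ?_
    refine jn 35 (by decide +kernel) ?_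
    refine jn 37 (by decide +kernel) ?_
    refine jn 41 (by decide +kernel) ?_
    refine jn 45 (by decide +kernel) ?_
    refine jn 51 (by decide +kernel) ?_
    refine jn 57 (by decide +kernel) ?_
    refine jn 63 (by decide +kernel) ?_
    refine jn 69 (by decide +kernel) ?_
    refine jn 75 (by decide +kernel) ?_
    refine jn 81 (by decide +kernel) ?_
    refine jn 92 (by decide +kernel) ?_
    refine jn 115 (by decide +kernel) ?_
    refine jn 134 (by decide +kernel) ?_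
    refine jn 149 (by decide +kernel) ?_
    refine jn 175 (by decide +kernel) ?_
    refine jn 188 (by decide +kernel) ?_
    refine jn 209 (by decide +kernel) ?_
    refine jn 220 (by decide +kernel) ?_
    refine jn 233 (by decide +kernel) ?_
    refine jn 256 (by decide +kernel) ?_
    refine jn 293 (by decide +kernel) ?_
    refine jn 300 (by decide +kernel) ?_
    refine jn 301 (by decide +kernel) ?_
    refine jn 302 (by decide +kernel) ?_
    refine jn 303 (by decide +kernel) ?_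
    refine jn 304 (by decide +kernel) ?_
    refine jn 305 (by decide +kernel) ?_
    refine jn 306 (by decide +kernel) ?_
    refine jn 307 (by decide +kernel) ?_
    refine jn 308 (by decide +kernel) ?_
    refine jn 309 (by decide +kernel) ?_
    refine jn 311 (by decide +kernel) ?_
    refine jn 312 (by decide +kernel) ?_
    refine jn 313 (by decide +kernel) ?_
    refine jn 326 (by decide +kernel) ?_
    refine jn 329 (by decide +kernel) ?_
    refine jn 331 (by decide +kernel) ?_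
    refine jn 333 (by decide +kernel) ?_
    refine jn 335 (by decide +kernel) ?_
    refine jn 337 (by decide +kernel) ?_
    refine jn 339 (by decide +kernel) ?_
    refine jn 340 (by decide +kernel) ?_
    refine jn 349 (by decide +kernel) ?_
    refine jn 362 (by decide +kernel) ?_
    refine jn 363 (by decide +kernel) ?_
    refine jn 376 (by decide +kernel) ?_
    refine jn 381 (by decide +kernel) ?_
    refine jn 390 (by decide +kernel) ?_
    refine jn 399 (by decide +kernel) ?_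
    refine jn 407 (by decide +kernel) ?_
    refine jn 414 (by decide +kernel) ?_
    refine jn 435 (by decide +kernel) ?_
    refine jn 461 (by decide +kernel) ?_
    refine jn 469 (by decide +kernel) ?_
    refine jn 470 (by decide +kernel) ?_
    refine jn 472 (by decide +kernel) ?_
    refine jn 474 (by decide +kernel) ?_
    refine jn 475 (by decide +kernel) ?_
    refine jn 477 (by decide +kernel) ?_
    refine jn 479 (by decide +kernel) ?_
    refine jn 480 (by decide +kernel) ?_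
    refine jn 494 (by decide +kernel) ?_
    refine jn 498 (by decide +kernel) ?_
    refine jn 501 (by decide +kernel) ?_
    refine jn 504 (by decide +kernel) ?_
    refine jn 507 (by decide +kernel) ?_
    refine jn 518 (by decide +kernel) ?_
    refine jn 530 (by decide +kernel) ?_
    refine jn 539 (by decide +kernel) ?_
    refine jn 541 (by decide +kernel) ?_
    refine jn 552 (by decide +kernel) ?_
    refine jn 561 (by decide +kernel) ?_
    refine jn 572 (by decide +kernel) ?_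
    refine jn 600 (by decide +kernel) ?_
    refine jn 610 (by decide +kernel) ?_
    refine jn 611 (by decide +kernel) ?_
    refine jn 613 (by decide +kernel) ?_
    refine jn 614 (by decide +kernel) ?_
    refine jn 616 (by decide +kernel) ?_
    refine jn 617 (by decide +kernel) ?_
    refine jn 623 (by decide +kernel) ?_
    refine jn 628 (by decide +kernel) ?_
    refine jn 632 (by decide +kernel) ?_
    refine jn 637 (by decide +kernel) ?_
    refine jn 646 (by decide +kernel) ?_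
    refine jn 651 (by decide +kernel) ?_
    refine jn 660 (by decide +kernel) ?_
    refine jn 669 (by decide +kernel) ?_
    refine jn 702 (by decide +kernel) ?_
    refine jn 710 (by decide +kernel) ?_
    refine jn 712 (by decide +kernel) ?_
    refine jn 714 (by decide +kernel) ?_
    refine jn 717 (by decide +kernel) ?_
    refine jn 718 (by decide +kernel) ?_
    refine jn 720 (by decide +kernel) ?_
    refine jn 728 (by decide +kernel) ?_
    refine jn 734 (by decide +kernel) ?_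
    refine jn 737 (by decide +kernel) ?_
    refine jn 738 (by decide +kernel) ?_
    refine jn 745 (by decide +kernel) ?_
    refine jn 755 (by decide +kernel) ?_
    refine jn 765 (by decide +kernel) ?_
    refine jn 770 (by decide +kernel) ?_
    refine jn 800 (by decide +kernel) ?_
    refine jn 820 (by decide +kernel) ?_
    refine jn 838 (by decide +kernel) ?_
    refine jn 852 (by decide +kernel) ?_
    refine jn 854 (by decide +kernel) ?_
    refine jn 856 (by decide +kernel) ?_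
    refine jn 858 (by decide +kernel) ?_
    refine jn 867 (by decide +kernel) ?_
    refine jn 869 (by decide +kernel) ?_
    refine jn 870 (by decide +kernel) ?_
    refine jn 871 (by decide +kernel) ?_
    refine jn 872 (by decide +kernel) ?_
    refine jn 873 (by decide +kernel) ?_
    refine jn 874 (by decide +kernel) ?_
    refine jn 880 (by decide +kernel) ?_
    refine jn 890 (by decide +kernel) ?_
    refine jn 891 (by decide +kernel) ?_
    refine jn 892 (by decide +kernel) ?_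
    refine jn 893 (by decide +kernel) ?_
    refine jn 894 (by decide +kernel) ?_
    refine jn 898 (by decide +kernel) ?_
    refine jn 899 (by decide +kernel) ?_
    refine jn 900 (by decide +kernel) ?_
    refine jn 901 (by decide +kernel) ?_
    refine jn 904 (by decide +kernel) ?_
    refine jn 906 (by decide +kernel) ?_
    refine jn 911 (by decide +kernel) ?_
    refine jn 912 (by decide +kernel) ?_
    refine jn 920 (by decide +kernel) ?_
    refine jn 923 (by decide +kernel) ?_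
    refine jn 928 (by decide +kernel) ?_
    refine jn 938 (by decide +kernel) ?_
    refine jn 947 (by decide +kernel) ?_
    refine jn 950 (by decide +kernel) ?_
    refine jn 954 (by decide +kernel) ?_
    refine jn 961 (by decide +kernel) ?_
    refine jn 971 (by decide +kernel) ?_
    refine jn 974 (by decide +kernel) ?_
    refine jn 975 (by decide +kernel) ?_
    refine jn 976 (by decide +kernel) ?_
    refine jn 977 (by decide +kernel) ?_
    refine jn 978 (by decide +kernel) ?_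
    refine jn 981 (by decide +kernel) ?_
    refine jn 983 (by decide +kernel) ?_
    refine jn 985 (by decide +kernel) ?_
    exact je (by decide +kernel)
  · refine fin 120 1335 T80_2 ?_
    refine jn 3 (by decide +kernel) ?_
    refine jn 4 (by decide +kernel) ?_
    refine jn 15 (by decide +kernel) ?_
    refine jn 16 (by decide +kernel) ?_
    refine jn 17 (by decide +kernel) ?_
    refine jn 18 (by decide +kernel) ?_
    refine jn 19 (by decide +kernel) ?_
    refine jn 20 (by decide +kernel) ?_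
    refine jn 21 (by decide +kernel) ?_
    refine jn 22 (by decide +kernel) ?_
    refine jn 23 (by decide +kernel) ?_
    refine jn 24 (by decide +kernel) ?_
    refine jn 25 (by decide +kernel) ?_
    refine jn 26 (by decide +kernel) ?_
    refine jn 27 (by decide +kernel) ?_
    refine jn 28 (by decide +kernel) ?_
    refine jn 29 (by decide +kernel) ?_
    refine jn 30 (by decide +kernel) ?_
    refine jn 31 (by decide +kernel) ?_
    refine jn 32 (by decide +kernel) ?_
    refine jn 33 (by decide +kernel) ?_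
    refine jn 37 (by decide +kernel) ?_
    refine jn 44 (by decide +kernel) ?_
    refine jn 45 (by decide +kernel) ?_
    refine jn 46 (by decide +kernel) ?_
    refine jn 47 (by decide +kernel) ?_
    refine jn 48 (by decide +kernel) ?_
    refine jn 49 (by decide +kernel) ?_
    refine jn 50 (by decide +kernel) ?_
    refine jn 51 (by decide +kernel) ?_
    refine jn 54 (by decide +kernel) ?_
    refine jn 57 (by decide +kernel) ?_
    refine jn 61 (by decide +kernel) ?_
    refine jn 62 (by decide +kernel) ?_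
    refine jn 63 (by decide +kernel) ?_
    refine jn 64 (by decide +kernel) ?_
    refine jn 65 (by decide +kernel) ?_
    refine jn 66 (by decide +kernel) ?_
    refine jn 67 (by decide +kernel) ?_
    refine jn 68 (by decide +kernel) ?_
    refine jn 70 (by decide +kernel) ?_
    refine jn 76 (by decide +kernel) ?_
    refine jn 83 (by decide +kernel) ?_
    refine jn 87 (by decide +kernel) ?_
    refine jn 88 (by decide +kernel) ?_
    refine jn 89 (by decide +kernel) ?_
    refine jn 90 (by decide +kernel) ?_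
    refine jn 91 (by decide +kernel) ?_
    refine jn 92 (by decide +kernel) ?_
    refine jn 97 (by decide +kernel) ?_
    refine jn 106 (by decide +kernel) ?_
    refine jn 108 (by decide +kernel) ?_
    refine jn 110 (by decide +kernel) ?_
    refine jn 119 (by decide +kernel) ?_
    refine jn 121 (by decide +kernel) ?_
    refine jn 123 (by decide +kernel) ?_
    refine jn 128 (by decide +kernel) ?_
    refine jn 129 (by decide +kernel) ?_
    refine jn 130 (by decide +kernel) ?_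
    refine jn 131 (by decide +kernel) ?_
    refine jn 132 (by decide +kernel) ?_
    refine jn 135 (by decide +kernel) ?_
    refine jn 136 (by decide +kernel) ?_
    refine jn 137 (by decide +kernel) ?_
    refine jn 147 (by decide +kernel) ?_
    refine jn 154 (by decide +kernel) ?_
    refine jn 155 (by decide +kernel) ?_
    refine jn 156 (by decide +kernel) ?_
    refine jn 166 (by decide +kernel) ?_
    refine jn 169 (by decide +kernel) ?_
    refine jn 170 (by decide +kernel) ?_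
    refine jn 171 (by decide +kernel) ?_
    refine jn 172 (by decide +kernel) ?_
    refine jn 177 (by decide +kernel) ?_
    refine jn 178 (by decide +kernel) ?_
    refine jn 179 (by decide +kernel) ?_
    refine jn 185 (by decide +kernel) ?_
    refine jn 186 (by decide +kernel) ?_
    refine jn 187 (by decide +kernel) ?_
    refine jn 192 (by decide +kernel) ?_
    refine jn 193 (by decide +kernel) ?_
    refine jn 194 (by decide +kernel) ?_
    refine jn 199 (by decide +kernel) ?_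
    refine jn 200 (by decide +kernel) ?_
    refine jn 205 (by decide +kernel) ?_
    refine jn 206 (by decide +kernel) ?_
    refine jn 219 (by decide +kernel) ?_
    refine jn 224 (by decide +kernel) ?_
    refine jn 225 (by decide +kernel) ?_
    refine jn 226 (by decide +kernel) ?_
    refine jn 233 (by decide +kernel) ?_
    refine jn 243 (by decide +kernel) ?_
    refine jn 245 (by decide +kernel) ?_
    refine jn 246 (by decide +kernel) ?_
    refine jn 258 (by decide +kernel) ?_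
    refine jn 264 (by decide +kernel) ?_
    refine jn 265 (by decide +kernel) ?_
    refine jn 277 (by decide +kernel) ?_
    refine jn 289 (by decide +kernel) ?_
    refine jn 297 (by decide +kernel) ?_
    refine jn 307 (by decide +kernel) ?_
    refine jn 308 (by decide +kernel) ?_
    refine jn 314 (by decide +kernel) ?_
    refine jn 317 (by decide +kernel) ?_
    refine jn 318 (by decide +kernel) ?_
    refine jn 332 (by decide +kernel) ?_
    refine jn 333 (by decide +kernel) ?_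
    refine jn 345 (by decide +kernel) ?_
    refine jn 346 (by decide +kernel) ?_
    refine jn 366 (by decide +kernel) ?_
    refine jn 371 (by decide +kernel) ?_
    refine jn 388 (by decide +kernel) ?_
    refine jn 397 (by decide +kernel) ?_
    refine jn 422 (by decide +kernel) ?_
    refine jn 440 (by decide +kernel) ?_
    refine jn 458 (by decide +kernel) ?_
    refine jn 467 (by decide +kernel) ?_
    refine jn 480 (by decide +kernel) ?_
    refine jn 508 (by decide +kernel) ?_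
    refine jn 509 (by decide +kernel) ?_
    refine jn 542 (by decide +kernel) ?_
    refine jn 579 (by decide +kernel) ?_
    refine jn 592 (by decide +kernel) ?_
    refine jn 625 (by decide +kernel) ?_
    refine jn 660 (by decide +kernel) ?_
    refine jn 706 (by decide +kernel) ?_
    refine jn 727 (by decide +kernel) ?_
    refine jn 752 (by decide +kernel) ?_
    refine jn 874 (by decide +kernel) ?_
    refine jn 996 (by decide +kernel) ?_
    refine jn 1083 (by decide +kernel) ?_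
    exact je (by decide +kernel)

end Pool.Agent.MP_2339ce_nt.NR
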