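import Pool.Agent.MP_2339ce_nt.Q2.NC.C23
import Pool.Agent.MP_2339ce_nt.Q2.NC.C25
import Pool.Agent.MP_2339ce_nt.Q2.NC.C26
import Pool.Agent.MP_2339ce_nt.Q2.NC.C28
import Pool.Agent.MP_2339ce_nt.Q2.NC.C41
import Pool.Agent.MP_2339ce_nt.Q2.NC.C47
import Pool.Agent.MP_2339ce_nt.Q2.NC.C49
import Pool.Agent.MP_2339ce_nt.Q2.NC.C51
import Pool.Agent.MP_2339ce_nt.Q2.NC.C69
import Pool.Agent.MP_2339ce_nt.Q2.NC.C74
import Pool.Agent.MP_2339ce_nt.Q2.NC.C80

/-! Block NR: the runs for `1 ≤ N ≤ 15`. -/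

set_option autoImplicit false
set_option maxRecDepth 100000

noncomputable section

namespace Pool.Agent.MP_2339ce_nt.NR

open Q2.Top

theorem q1 : OkQ ckI L1 1 1 1099511627776 0 34359738368 1 1099511627776 :=
  c51.2.2

theorem q3 : OkQ ckI L1 3 1 1099511627776 0 34359738368 1 1099511627776 :=
  c23.2.2

theorem q4 : OkQ ckI L1 4 1 1099511627776 0 34359738368 1 1099511627776 :=
  c28.2.2

theorem q5 : OkQ ckI L1 5 1 1099511627776 0 34359738368 1 1099511627776 :=
  c49.2.2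

theorem q7 : OkQ ckI L1 7 1 1099511627776 0 34359738368 1 1099511627776 :=
  c69.2.2

theorem q8 : OkQ ckI L1 8 1 1099511627776 0 34359738368 1 1099511627776 :=
  c74.2.2

theorem q9 : OkQ ckI L1 9 1 1099511627776 0 34359738368 1 1099511627776 :=
  c47.2.2

theorem q11 : OkQ ckI L1 11 1 1099511627776 0 34359738368 1 1099511627776 :=
  c25.2.2

theorem q12 : OkQ ckI L1 12 1 1099511627776 0 34359738368 1 1099511627776 :=
  c41.2.2

theorem q13 : OkQ ckI L1 13 1 1099511627776 0 34359738368 1 1099511627776 :=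
  c26.2.2

theorem q15 : OkQ ckI L1 15 1 1099511627776 0 34359738368 1 1099511627776 :=
  c80.2.2

end Pool.Agent.MP_2339ce_nt.NR
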