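import Pool.Agent.MP_2339ce_nt.Q2.NC.L10
import Pool.Agent.MP_2339ce_nt.Q2.CkI

/-! Block NR: runs. -/

set_option autoImplicit false
set_option maxRecDepth 100000

noncomputable section

namespace Pool.Agent.MP_2339ce_nt.NR

open Q2.Top

def T10_0 : Ph :=
  (.na 11596 11586 (.na 3758 2897 (.na 854 1449 (.nx 853 20644 (.nr 852 2097153 (.nr 1 1024 .s1
  (.nx 426 3252 (.la (.ls 71 41 10330)) (.nr 851 131073 (.la (.lg 0 false 1 47 53 31 0)) .out)))
  .out) .out) (.na 2056 2048 (.nx 2055 13005 (.nr 2054 2097153 (.nr 855 1449 .s1 (.nx 1454 3252
  (.la (.ls 71 41 7301)) (.nr 2053 16385 (.la (.ls 37 59 109426)) .out))) .out) .out) (.nx 3757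
  13005 (.nr 3756 2097153 (.nr 2057 2048 .s1 (.nx 2906 3252 (.la (.ls 67 41 5166)) (.nr 3755 16385
  (.la (.ls 31 53 77422)) .out))) .out) .out))) (.na 6900 5793 (.na 4960 4096 (.nx 4959 4097 (.nr
  4958 1048577 (.nr 3759 2897 .s1 (.la (.ls 61 41 5797))) .out) .out) (.nx 6899 5162 (.nr 6898
  1048577 (.nr 4961 4096 .s1 (.nx 5200 239 (.nr 5199 63394 (.lx (.lp 43 31 1449)) (.l1 .sk)) (.nx
  5201 240 (.l1 .sk) (.la (.ls 59 41 6494))))) .out) .out)) (.na 9542 8192 (.nx 9541 2049 (.nr 9540
  524289 (.nr 6901 5793 .s1 (.nx 7140 239 (.nr 7139 89646 (.lx (.lp 47 37 2049)) (.l1 .sk)) (.nx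
  7141 240 (.l1 .sk) (.la (.ls 53 37 2049))))) .out) .out) (.nx 11595 2049 (.nr 11594 524289 (.nr
  9543 8192 .s1 (.nx 10568 1025 (.nx 9866 324 (.lx (.lp 59 37 2897)) (.nx 9949 406 (.nr 9948 262145
  (.lx (.lp 47 41 2897)) .out) (.lx (.lp 59 41 2897)))) (.nr 11593 262145 (.nx 10835 1292 (.lx (.lp
  47 41 2897)) (.nr 11592 131073 (.lx (.lp 43 41 2897)) .out)) .out))) .out) .out)))) (.na 19382
  131072 (.na 15699 32768 (.na 13647 16384 (.nx 13646 2049 (.nr 13645 131073 (.nr 11597 11586 .s1
  (.lx (.lp 43 41 4097))) .out) .out) (.nx 15698 2049 (.nr 15697 262145 (.nr 13648 16384 .s1 (.nx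
  13971 324 (.lx (.lp 53 43 8193)) (.nr 15696 131073 (.lx (.lp 41 43 8193)) .out))) .out) .out))
  (.na 17752 65536 (.nx 17751 2049 (.nr 17750 524289 (.nr 15700 32768 .s1 (.nx 16023 324 (.lx (.lp
  53 47 16385)) (.nr 17749 262145 (.nx 16212 512 (.nr 16211 131073 (.lx (.lp 41 47 16385)) .out)
  (.lx (.lp 41 47 16385))) .out))) .out) .out) (.nx 19381 1627 (.nr 19380 524289 (.nr 17753 65536
  .s1 (.nx 18076 324 (.lx (.lp 16 0 32769)) (.nr 19379 262145 (.lx (.lp 41 53 32769)) .out))) .out)
  .out))) (.na 21527 524288 (.na 21012 262144 (.nx 21011 1627 (.nr 21010 524289 (.nr 19383 131072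
  .s1 (.nx 19895 513 (.lx (.lp 41 59 65537)) (.nr 21009 262145 (.lx (.lp 37 59 65537)) .out)))
  .out) .out) (.nx 21526 513 (.nr 21525 1048577 (.nr 21013 262144 .s1 (.lx (.lp 16 0 131073)))
  .out) .out)) (.na 21529 1048577 (.nx 21528 324 (.l1 .sk) .out) .out))))

def T10_1 : Ph :=
  (.na 306 4 (.nx 305 6658044 (.nr 304 1482912 (.nx 2 224 (.nr 1 40 (.lg 0 true 1 43 43 5 0 5040)
  (.l1 .sk)) (.nx 3 225 (.l1 .sk) (.nx 55 32768 (.nr 29 220437 (.lg 0 false 26 103 109 16 0 720720)
  (.nx 42 408 (.lg 0 false 13 89 89 16 0 13104) (.nx 43 20642 .out (.nr 54 262145 (.lg 0 false 11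
  97 103 16 0 55440) .out)))) (.nr 303 311745 (.nx 263 1664512 (.nx 251 832257 (.nr 79 2898 (.nr 68
  668 (.lg 0 true 13 97 97 16 0 65520) (.lg 2 true 11 97 101 16 139541 55440)) (.nx 250 660563 (.nr
  84 5549 (.lg 2 true 5 89 97 7 25530 5040) (.nx 205 208065 (.nx 191 165142 (.nx 106 44590 (.lg 1
  false 22 101 107 16 238855 720720) (.nx 150 82572 (.nx 128 60679 (.lg 1 false 22 101 107 16
  175528 720720) (.lg 1 false 22 101 107 16 128987 720720)) (.nr 190 262145 (.nx 177 131072 (.nx
  164 104031 (.nr 163 220437 (.lg 1 false 13 101 107 16 67045 720720) .out) (.lg 1 false 13 103 107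
  16 63273 720720)) (.lg 1 false 13 103 107 16 50220 720720)) .out))) (.nr 204 220437 (.lg 1 true
  13 101 107 16 33523 720720) .out)) (.nr 249 185365 (.nr 210 10626 (.lg 2 true 5 89 97 7 13333
  5040) (.nx 223 262145 (.lg 1 true 13 101 107 16 22378 720720) (.nr 248 110219 (.nr 236 77937 (.lg
  2 false 13 97 107 16 7481 720720) (.nx 247 330282 (.lg 2 false 11 97 103 16 10570 720720) .out))
  .out))) .out))) .out)) (.nr 262 154 (.lg 0 true 11 89 89 16 0 55440) .out)) (.nr 302 33 (.lg 0
  true 39 79 89 16 0 65520) .out)) .out)))) .out) .out) (.nx 566 21137969 (.nr 565 1246976 (.nx 308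
  224 (.nr 307 51 (.lg 0 true 1 41 41 9 0 1008) (.l1 .sk)) (.nx 309 225 (.l1 .sk) (.nx 501 2642247
  (.nx 487 660563 (.nx 369 37318 (.nr 342 220437 (.lg 0 false 33 101 107 19 0 720720) (.nr 357
  262145 (.nx 345 1292 (.lg 0 false 3 89 89 9 0 5040) (.nx 346 20642 .out (.lg 0 false 11 101 107
  13 0 720720))) (.nx 368 408 (.lg 0 false 11 83 89 13 0 11088) .out))) (.nr 486 311745 (.nr 380
  730 (.lg 0 true 11 89 89 13 0 11088) (.nx 407 82570 (.nr 406 262145 (.nx 393 55510 (.lg 1 false
  13 103 107 13 176387 720720) (.lg 1 false 13 103 107 13 118580 720720)) .out) (.nr 412 2912 (.lg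
  2 true 5 97 97 11 101347 5040) (.nx 463 262145 (.nx 451 208065 (.nx 438 152899 (.nx 425 112360
  (.lg 1 false 13 103 107 13 94789 720720) (.lg 1 false 13 103 107 13 69658 720720)) (.lg 1 true 13
  103 107 13 51189 720720)) (.nr 462 185365 (.lg 1 true 11 101 107 13 22378 720720) .out)) (.nr 485
  131073 (.nr 468 11616 (.lg 2 true 5 97 101 11 25407 5040) (.nr 473 46342 (.lg 2 false 5 97 101 11
  6370 5040) (.nx 484 330282 (.lg 1 true 11 101 107 13 12566 720720) .out))) .out))))) .out)) (.nr
  500 183 (.lg 0 true 13 89 89 13 0 13104) .out)) (.nr 564 21 (.nx 531 10568985 (.lg 0 true 30 79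
  79 11 0 5040) (.lg 0 true 33 83 83 11 0 11088)) .out)))) .out) .out))

theorem c10 :
    OkQ ckI L10 239 1024 1099511627776 0 34359738368 1 1099511627776 ∧
    OkQ ckI L10 224 3 5 0 34359738368 1 1099511627776 := by
  refine ⟨?_, ?_⟩
  · refine fin 72 21530 T10_0 ?_
    refine jn 21 (by decide +kernel) ?_
    refine jn 32 (by decide +kernel) ?_
    refine jn 46 (by decide +kernel) ?_
    refine jn 57 (by decide +kernel) ?_
    refine jn 66 (by decide +kernel) ?_
    refine jn 82 (by decide +kernel) ?_
    refine jn 99 (by decide +kernel) ?_
    refine jn 113 (by decide +kernel) ?_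
    refine jn 129 (by decide +kernel) ?_
    refine jn 137 (by decide +kernel) ?_
    refine jn 159 (by decide +kernel) ?_
    refine jn 177 (by decide +kernel) ?_
    refine jn 184 (by decide +kernel) ?_
    refine jn 197 (by decide +kernel) ?_
    refine jn 205 (by decide +kernel) ?_
    refine jn 221 (by decide +kernel) ?_
    refine jn 236 (by decide +kernel) ?_
    refine jn 253 (by decide +kernel) ?_
    refine jn 268 (by decide +kernel) ?_
    refine jn 282 (by decide +kernel) ?_
    refine jn 297 (by decide +kernel) ?_
    refine jn 298 (by decide +kernel) ?_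
    refine jn 322 (by decide +kernel) ?_
    refine jn 337 (by decide +kernel) ?_
    refine jn 352 (by decide +kernel) ?_
    refine jn 371 (by decide +kernel) ?_
    refine jn 392 (by decide +kernel) ?_
    refine jn 417 (by decide +kernel) ?_
    refine jn 430 (by decide +kernel) ?_
    refine jn 444 (by decide +kernel) ?_
    refine jn 451 (by decide +kernel) ?_
    refine jn 458 (by decide +kernel) ?_
    refine jn 459 (by decide +kernel) ?_
    refine jn 476 (by decide +kernel) ?_
    refine jn 482 (by decide +kernel) ?_
    refine jn 483 (by decide +kernel) ?_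
    refine jn 492 (by decide +kernel) ?_
    refine jn 502 (by decide +kernel) ?_
    refine jn 513 (by decide +kernel) ?_
    refine jn 521 (by decide +kernel) ?_
    refine jn 528 (by decide +kernel) ?_
    refine jn 539 (by decide +kernel) ?_
    refine jn 554 (by decide +kernel) ?_
    refine jn 560 (by decide +kernel) ?_
    refine jn 562 (by decide +kernel) ?_
    refine jn 563 (by decide +kernel) ?_
    refine jn 588 (by decide +kernel) ?_
    refine jn 602 (by decide +kernel) ?_
    refine jn 603 (by decide +kernel) ?_
    refine jn 609 (by decide +kernel) ?_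
    refine jn 615 (by decide +kernel) ?_
    refine jn 626 (by decide +kernel) ?_
    refine jn 627 (by decide +kernel) ?_
    refine jn 642 (by decide +kernel) ?_
    refine jn 643 (by decide +kernel) ?_
    refine jn 652 (by decide +kernel) ?_
    refine jn 661 (by decide +kernel) ?_
    refine jn 677 (by decide +kernel) ?_
    refine jn 680 (by decide +kernel) ?_
    refine jn 687 (by decide +kernel) ?_
    refine jn 698 (by decide +kernel) ?_
    refine jn 706 (by decide +kernel) ?_
    refine jn 710 (by decide +kernel) ?_
    refine jn 722 (by decide +kernel) ?_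
    refine jn 723 (by decide +kernel) ?_
    refine jn 733 (by decide +kernel) ?_
    refine jn 748 (by decide +kernel) ?_
    refine jn 758 (by decide +kernel) ?_
    refine jn 762 (by decide +kernel) ?_
    refine jn 763 (by decide +kernel) ?_
    refine jn 777 (by decide +kernel) ?_
    refine jn 794 (by decide +kernel) ?_
    refine jn 795 (by decide +kernel) ?_
    refine jn 810 (by decide +kernel) ?_
    refine jn 817 (by decide +kernel) ?_
    refine jn 838 (by decide +kernel) ?_
    refine jn 842 (by decide +kernel) ?_
    refine jn 843 (by decide +kernel) ?_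
    refine jn 864 (by decide +kernel) ?_
    refine jn 874 (by decide +kernel) ?_
    refine jn 894 (by decide +kernel) ?_
    refine jn 902 (by decide +kernel) ?_
    refine jn 920 (by decide +kernel) ?_
    refine jn 937 (by decide +kernel) ?_
    refine jn 961 (by decide +kernel) ?_
    refine jn 982 (by decide +kernel) ?_
    refine jn 1000 (by decide +kernel) ?_
    refine jn 1014 (by decide +kernel) ?_
    refine jn 1030 (by decide +kernel) ?_
    refine jn 1048 (by decide +kernel) ?_
    refine jn 1084 (by decide +kernel) ?_
    refine jn 1101 (by decide +kernel) ?_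
    refine jn 1111 (by decide +kernel) ?_
    refine jn 1133 (by decide +kernel) ?_
    refine jn 1146 (by decide +kernel) ?_
    refine jn 1164 (by decide +kernel) ?_
    refine jn 1180 (by decide +kernel) ?_
    refine jn 1206 (by decide +kernel) ?_
    refine jn 1224 (by decide +kernel) ?_
    refine jn 1245 (by decide +kernel) ?_
    refine jn 1271 (by decide +kernel) ?_
    refine jn 1297 (by decide +kernel) ?_
    refine jn 1322 (by decide +kernel) ?_
    refine jn 1335 (by decide +kernel) ?_
    refine jn 1354 (by decide +kernel) ?_
    refine jn 1385 (by decide +kernel) ?_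
    refine jn 1398 (by decide +kernel) ?_
    refine jn 1414 (by decide +kernel) ?_
    refine jn 1431 (by decide +kernel) ?_
    refine jn 1446 (by decide +kernel) ?_
    refine jn 1452 (by decide +kernel) ?_
    refine jn 1464 (by decide +kernel) ?_
    refine jn 1470 (by decide +kernel) ?_
    refine jn 1484 (by decide +kernel) ?_
    refine jn 1493 (by decide +kernel) ?_
    refine jn 1499 (by decide +kernel) ?_
    refine jn 1505 (by decide +kernel) ?_
    refine jn 1520 (by decide +kernel) ?_
    refine jn 1534 (by decide +kernel) ?_
    refine jn 1547 (by decide +kernel) ?_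
    refine jn 1562 (by decide +kernel) ?_
    refine jn 1581 (by decide +kernel) ?_
    refine jn 1589 (by decide +kernel) ?_
    refine jn 1602 (by decide +kernel) ?_
    refine jn 1613 (by decide +kernel) ?_
    refine jn 1622 (by decide +kernel) ?_
    refine jn 1637 (by decide +kernel) ?_
    refine jn 1642 (by decide +kernel) ?_
    refine jn 1679 (by decide +kernel) ?_
    refine jn 1689 (by decide +kernel) ?_
    refine jn 1700 (by decide +kernel) ?_
    refine jn 1709 (by decide +kernel) ?_
    refine jn 1712 (by decide +kernel) ?_
    refine jn 1732 (by decide +kernel) ?_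
    refine jn 1742 (by decide +kernel) ?_
    refine jn 1749 (by decide +kernel) ?_
    refine jn 1765 (by decide +kernel) ?_
    refine jn 1777 (by decide +kernel) ?_
    refine jn 1800 (by decide +kernel) ?_
    refine jn 1808 (by decide +kernel) ?_
    refine jn 1831 (by decide +kernel) ?_
    refine jn 1844 (by decide +kernel) ?_
    refine jn 1865 (by decide +kernel) ?_
    refine jn 1875 (by decide +kernel) ?_
    refine jn 1894 (by decide +kernel) ?_
    refine jn 1919 (by decide +kernel) ?_
    refine jn 1925 (by decide +kernel) ?_
    refine jn 1933 (by decide +kernel) ?_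
    refine jn 1947 (by decide +kernel) ?_
    refine jn 1961 (by decide +kernel) ?_
    refine jn 1984 (by decide +kernel) ?_
    refine jn 1992 (by decide +kernel) ?_
    refine jn 2005 (by decide +kernel) ?_
    refine jn 2017 (by decide +kernel) ?_
    refine jn 2037 (by decide +kernel) ?_
    refine jn 2045 (by decide +kernel) ?_
    refine jn 2046 (by decide +kernel) ?_
    refine jn 2078 (by decide +kernel) ?_
    refine jn 2101 (by decide +kernel) ?_
    refine jn 2121 (by decide +kernel) ?_
    refine jn 2153 (by decide +kernel) ?_
    refine jn 2169 (by decide +kernel) ?_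
    refine jn 2185 (by decide +kernel) ?_
    refine jn 2209 (by decide +kernel) ?_
    refine jn 2231 (by decide +kernel) ?_
    refine jn 2253 (by decide +kernel) ?_
    refine jn 2273 (by decide +kernel) ?_
    refine jn 2295 (by decide +kernel) ?_
    refine jn 2322 (by decide +kernel) ?_
    refine jn 2352 (by decide +kernel) ?_
    refine jn 2376 (by decide +kernel) ?_
    refine jn 2407 (by decide +kernel) ?_
    refine jn 2426 (by decide +kernel) ?_
    refine jn 2448 (by decide +kernel) ?_
    refine jn 2463 (by decide +kernel) ?_
    refine jn 2489 (by decide +kernel) ?_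
    refine jn 2519 (by decide +kernel) ?_
    refine jn 2541 (by decide +kernel) ?_
    refine jn 2561 (by decide +kernel) ?_
    refine jn 2582 (by decide +kernel) ?_
    refine jn 2619 (by decide +kernel) ?_
    refine jn 2644 (by decide +kernel) ?_
    refine jn 2653 (by decide +kernel) ?_
    refine jn 2686 (by decide +kernel) ?_
    refine jn 2706 (by decide +kernel) ?_
    refine jn 2729 (by decide +kernel) ?_
    refine jn 2748 (by decide +kernel) ?_
    refine jn 2773 (by decide +kernel) ?_
    refine jn 2801 (by decide +kernel) ?_
    refine jn 2828 (by decide +kernel) ?_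
    refine jn 2870 (by decide +kernel) ?_
    refine jn 2892 (by decide +kernel) ?_
    refine jn 2915 (by decide +kernel) ?_
    refine jn 2939 (by decide +kernel) ?_
    refine jn 2953 (by decide +kernel) ?_
    refine jn 2968 (by decide +kernel) ?_
    refine jn 2988 (by decide +kernel) ?_
    refine jn 3012 (by decide +kernel) ?_
    refine jn 3020 (by decide +kernel) ?_
    refine jn 3036 (by decide +kernel) ?_
    refine jn 3057 (by decide +kernel) ?_
    refine jn 3069 (by decide +kernel) ?_
    refine jn 3090 (by decide +kernel) ?_
    refine jn 3102 (by decide +kernel) ?_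
    refine jn 3116 (by decide +kernel) ?_
    refine jn 3131 (by decide +kernel) ?_
    refine jn 3153 (by decide +kernel) ?_
    refine jn 3170 (by decide +kernel) ?_
    refine jn 3178 (by decide +kernel) ?_
    refine jn 3192 (by decide +kernel) ?_
    refine jn 3213 (by decide +kernel) ?_
    refine jn 3234 (by decide +kernel) ?_
    refine jn 3254 (by decide +kernel) ?_
    refine jn 3268 (by decide +kernel) ?_
    refine jn 3282 (by decide +kernel) ?_
    refine jn 3298 (by decide +kernel) ?_
    refine jn 3306 (by decide +kernel) ?_
    refine jn 3323 (by decide +kernel) ?_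
    refine jn 3338 (by decide +kernel) ?_
    refine jn 3348 (by decide +kernel) ?_
    refine jn 3373 (by decide +kernel) ?_
    refine jn 3398 (by decide +kernel) ?_
    refine jn 3410 (by decide +kernel) ?_
    refine jn 3421 (by decide +kernel) ?_
    refine jn 3450 (by decide +kernel) ?_
    refine jn 3474 (by decide +kernel) ?_
    refine jn 3493 (by decide +kernel) ?_
    refine jn 3498 (by decide +kernel) ?_
    refine jn 3499 (by decide +kernel) ?_
    refine jn 3521 (by decide +kernel) ?_
    refine jn 3545 (by decide +kernel) ?_
    refine jn 3570 (by decide +kernel) ?_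
    refine jn 3583 (by decide +kernel) ?_
    refine jn 3600 (by decide +kernel) ?_
    refine jn 3622 (by decide +kernel) ?_
    refine jn 3648 (by decide +kernel) ?_
    refine jn 3663 (by decide +kernel) ?_
    refine jn 3683 (by decide +kernel) ?_
    refine jn 3712 (by decide +kernel) ?_
    refine jn 3737 (by decide +kernel) ?_
    refine jn 3753 (by decide +kernel) ?_
    refine jn 3778 (by decide +kernel) ?_
    refine jn 3798 (by decide +kernel) ?_
    refine jn 3821 (by decide +kernel) ?_
    refine jn 3850 (by decide +kernel) ?_
    refine jn 3874 (by decide +kernel) ?_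
    refine jn 3908 (by decide +kernel) ?_
    refine jn 3926 (by decide +kernel) ?_
    refine jn 3954 (by decide +kernel) ?_
    refine jn 3986 (by decide +kernel) ?_
    refine jn 4014 (by decide +kernel) ?_
    refine jn 4030 (by decide +kernel) ?_
    refine jn 4062 (by decide +kernel) ?_
    refine jn 4088 (by decide +kernel) ?_
    refine jn 4115 (by decide +kernel) ?_
    refine jn 4139 (by decide +kernel) ?_
    refine jn 4181 (by decide +kernel) ?_
    refine jn 4213 (by decide +kernel) ?_
    refine jn 4233 (by decide +kernel) ?_
    refine jn 4262 (by decide +kernel) ?_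
    refine jn 4279 (by decide +kernel) ?_
    refine jn 4316 (by decide +kernel) ?_
    refine jn 4342 (by decide +kernel) ?_
    refine jn 4365 (by decide +kernel) ?_
    refine jn 4394 (by decide +kernel) ?_
    refine jn 4428 (by decide +kernel) ?_
    refine jn 4462 (by decide +kernel) ?_
    refine jn 4485 (by decide +kernel) ?_
    refine jn 4518 (by decide +kernel) ?_
    refine jn 4543 (by decide +kernel) ?_
    refine jn 4574 (by decide +kernel) ?_
    refine jn 4592 (by decide +kernel) ?_
    refine jn 4616 (by decide +kernel) ?_
    refine jn 4648 (by decide +kernel) ?_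
    refine jn 4690 (by decide +kernel) ?_
    refine jn 4706 (by decide +kernel) ?_
    refine jn 4735 (by decide +kernel) ?_
    refine jn 4767 (by decide +kernel) ?_
    refine jn 4794 (by decide +kernel) ?_
    refine jn 4822 (by decide +kernel) ?_
    refine jn 4846 (by decide +kernel) ?_
    refine jn 4878 (by decide +kernel) ?_
    refine jn 4902 (by decide +kernel) ?_
    refine jn 4934 (by decide +kernel) ?_
    refine jn 4952 (by decide +kernel) ?_
    refine jn 5094 (by decide +kernel) ?_
    refine jn 5217 (by decide +kernel) ?_
    refine jn 5251 (by decide +kernel) ?_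
    refine jn 5281 (by decide +kernel) ?_
    refine jn 5302 (by decide +kernel) ?_
    refine jn 5329 (by decide +kernel) ?_
    refine jn 5365 (by decide +kernel) ?_
    refine jn 5400 (by decide +kernel) ?_
    refine jn 5425 (by decide +kernel) ?_
    refine jn 5455 (by decide +kernel) ?_
    refine jn 5474 (by decide +kernel) ?_
    refine jn 5505 (by decide +kernel) ?_
    refine jn 5535 (by decide +kernel) ?_
    refine jn 5569 (by decide +kernel) ?_
    refine jn 5593 (by decide +kernel) ?_
    refine jn 5607 (by decide +kernel) ?_
    refine jn 5649 (by decide +kernel) ?_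
    refine jn 5673 (by decide +kernel) ?_
    refine jn 5701 (by decide +kernel) ?_
    refine jn 5731 (by decide +kernel) ?_
    refine jn 5755 (by decide +kernel) ?_
    refine jn 5791 (by decide +kernel) ?_
    refine jn 5828 (by decide +kernel) ?_
    refine jn 5857 (by decide +kernel) ?_
    refine jn 5894 (by decide +kernel) ?_
    refine jn 5917 (by decide +kernel) ?_
    refine jn 5940 (by decide +kernel) ?_
    refine jn 5968 (by decide +kernel) ?_
    refine jn 5999 (by decide +kernel) ?_
    refine jn 6030 (by decide +kernel) ?_
    refine jn 6067 (by decide +kernel) ?_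
    refine jn 6106 (by decide +kernel) ?_
    refine jn 6141 (by decide +kernel) ?_
    refine jn 6168 (by decide +kernel) ?_
    refine jn 6196 (by decide +kernel) ?_
    refine jn 6220 (by decide +kernel) ?_
    refine jn 6249 (by decide +kernel) ?_
    refine jn 6284 (by decide +kernel) ?_
    refine jn 6316 (by decide +kernel) ?_
    refine jn 6340 (by decide +kernel) ?_
    refine jn 6379 (by decide +kernel) ?_
    refine jn 6403 (by decide +kernel) ?_
    refine jn 6430 (by decide +kernel) ?_
    refine jn 6472 (by decide +kernel) ?_
    refine jn 6499 (by decide +kernel) ?_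
    refine jn 6532 (by decide +kernel) ?_
    refine jn 6561 (by decide +kernel) ?_
    refine jn 6605 (by decide +kernel) ?_
    refine jn 6632 (by decide +kernel) ?_
    refine jn 6673 (by decide +kernel) ?_
    refine jn 6700 (by decide +kernel) ?_
    refine jn 6735 (by decide +kernel) ?_
    refine jn 6771 (by decide +kernel) ?_
    refine jn 6813 (by decide +kernel) ?_
    refine jn 6849 (by decide +kernel) ?_
    refine jn 6870 (by decide +kernel) ?_
    refine jn 6913 (by decide +kernel) ?_
    refine jn 7059 (by decide +kernel) ?_
    refine jn 7180 (by decide +kernel) ?_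
    refine jn 7232 (by decide +kernel) ?_
    refine jn 7286 (by decide +kernel) ?_
    refine jn 7332 (by decide +kernel) ?_
    refine jn 7378 (by decide +kernel) ?_
    refine jn 7436 (by decide +kernel) ?_
    refine jn 7476 (by decide +kernel) ?_
    refine jn 7525 (by decide +kernel) ?_
    refine jn 7579 (by decide +kernel) ?_
    refine jn 7628 (by decide +kernel) ?_
    refine jn 7672 (by decide +kernel) ?_
    refine jn 7726 (by decide +kernel) ?_
    refine jn 7791 (by decide +kernel) ?_
    refine jn 7839 (by decide +kernel) ?_
    refine jn 7889 (by decide +kernel) ?_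
    refine jn 7948 (by decide +kernel) ?_
    refine jn 7993 (by decide +kernel) ?_
    refine jn 8058 (by decide +kernel) ?_
    refine jn 8102 (by decide +kernel) ?_
    refine jn 8155 (by decide +kernel) ?_
    refine jn 8205 (by decide +kernel) ?_
    refine jn 8263 (by decide +kernel) ?_
    refine jn 8308 (by decide +kernel) ?_
    refine jn 8354 (by decide +kernel) ?_
    refine jn 8403 (by decide +kernel) ?_
    refine jn 8466 (by decide +kernel) ?_
    refine jn 8533 (by decide +kernel) ?_
    refine jn 8578 (by decide +kernel) ?_
    refine jn 8626 (by decide +kernel) ?_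
    refine jn 8675 (by decide +kernel) ?_
    refine jn 8734 (by decide +kernel) ?_
    refine jn 8788 (by decide +kernel) ?_
    refine jn 8828 (by decide +kernel) ?_
    refine jn 8881 (by decide +kernel) ?_
    refine jn 8941 (by decide +kernel) ?_
    refine jn 9004 (by decide +kernel) ?_
    refine jn 9042 (by decide +kernel) ?_
    refine jn 9098 (by decide +kernel) ?_
    refine jn 9156 (by decide +kernel) ?_
    refine jn 9212 (by decide +kernel) ?_
    refine jn 9263 (by decide +kernel) ?_
    refine jn 9318 (by decide +kernel) ?_
    refine jn 9380 (by decide +kernel) ?_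
    refine jn 9428 (by decide +kernel) ?_
    refine jn 9484 (by decide +kernel) ?_
    refine jn 9532 (by decide +kernel) ?_
    refine jn 9803 (by decide +kernel) ?_
    refine jn 9889 (by decide +kernel) ?_
    refine jn 9963 (by decide +kernel) ?_
    refine jn 10046 (by decide +kernel) ?_
    refine jn 10106 (by decide +kernel) ?_
    refine jn 10168 (by decide +kernel) ?_
    refine jn 10232 (by decide +kernel) ?_
    refine jn 10294 (by decide +kernel) ?_
    refine jn 10332 (by decide +kernel) ?_
    refine jn 10394 (by decide +kernel) ?_
    refine jn 10456 (by decide +kernel) ?_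
    refine jn 10502 (by decide +kernel) ?_
    refine jn 10552 (by decide +kernel) ?_
    refine jn 10598 (by decide +kernel) ?_
    refine jn 10646 (by decide +kernel) ?_
    refine jn 10712 (by decide +kernel) ?_
    refine jn 10748 (by decide +kernel) ?_
    refine jn 10787 (by decide +kernel) ?_
    refine jn 10835 (by decide +kernel) ?_
    refine jn 10892 (by decide +kernel) ?_
    refine jn 10914 (by decide +kernel) ?_
    refine jn 10957 (by decide +kernel) ?_
    refine jn 11003 (by decide +kernel) ?_
    refine jn 11046 (by decide +kernel) ?_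
    refine jn 11097 (by decide +kernel) ?_
    refine jn 11133 (by decide +kernel) ?_
    refine jn 11174 (by decide +kernel) ?_
    refine jn 11217 (by decide +kernel) ?_
    refine jn 11247 (by decide +kernel) ?_
    refine jn 11282 (by decide +kernel) ?_
    refine jn 11315 (by decide +kernel) ?_
    refine jn 11344 (by decide +kernel) ?_
    refine jn 11374 (by decide +kernel) ?_
    refine jn 11402 (by decide +kernel) ?_
    refine jn 11429 (by decide +kernel) ?_
    refine jn 11457 (by decide +kernel) ?_
    refine jn 11480 (by decide +kernel) ?_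
    refine jn 11505 (by decide +kernel) ?_
    refine jn 11537 (by decide +kernel) ?_
    refine jn 11556 (by decide +kernel) ?_
    refine jn 11582 (by decide +kernel) ?_
    refine jn 11860 (by decide +kernel) ?_
    refine jn 11965 (by decide +kernel) ?_
    refine jn 12035 (by decide +kernel) ?_
    refine jn 12091 (by decide +kernel) ?_
    refine jn 12167 (by decide +kernel) ?_
    refine jn 12221 (by decide +kernel) ?_
    refine jn 12307 (by decide +kernel) ?_
    refine jn 12375 (by decide +kernel) ?_
    refine jn 12447 (by decide +kernel) ?_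
    refine jn 12520 (by decide +kernel) ?_
    refine jn 12583 (by decide +kernel) ?_
    refine jn 12646 (by decide +kernel) ?_
    refine jn 12699 (by decide +kernel) ?_
    refine jn 12734 (by decide +kernel) ?_
    refine jn 12770 (by decide +kernel) ?_
    refine jn 12821 (by decide +kernel) ?_
    refine jn 12851 (by decide +kernel) ?_
    refine jn 12919 (by decide +kernel) ?_
    refine jn 12957 (by decide +kernel) ?_
    refine jn 12977 (by decide +kernel) ?_
    refine jn 13024 (by decide +kernel) ?_
    refine jn 13067 (by decide +kernel) ?_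
    refine jn 13115 (by decide +kernel) ?_
    refine jn 13155 (by decide +kernel) ?_
    refine jn 13198 (by decide +kernel) ?_
    refine jn 13242 (by decide +kernel) ?_
    refine jn 13293 (by decide +kernel) ?_
    refine jn 13329 (by decide +kernel) ?_
    refine jn 13366 (by decide +kernel) ?_
    refine jn 13397 (by decide +kernel) ?_
    refine jn 13426 (by decide +kernel) ?_
    refine jn 13461 (by decide +kernel) ?_
    refine jn 13496 (by decide +kernel) ?_
    refine jn 13530 (by decide +kernel) ?_
    refine jn 13552 (by decide +kernel) ?_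
    refine jn 13595 (by decide +kernel) ?_
    refine jn 13625 (by decide +kernel) ?_
    refine jn 13704 (by decide +kernel) ?_
    refine jn 13971 (by decide +kernel) ?_
    refine jn 14014 (by decide +kernel) ?_
    refine jn 14046 (by decide +kernel) ?_
    refine jn 14090 (by decide +kernel) ?_
    refine jn 14134 (by decide +kernel) ?_
    refine jn 14176 (by decide +kernel) ?_
    refine jn 14216 (by decide +kernel) ?_
    refine jn 14252 (by decide +kernel) ?_
    refine jn 14288 (by decide +kernel) ?_
    refine jn 14326 (by decide +kernel) ?_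
    refine jn 14338 (by decide +kernel) ?_
    refine jn 14386 (by decide +kernel) ?_
    refine jn 14414 (by decide +kernel) ?_
    refine jn 14462 (by decide +kernel) ?_
    refine jn 14498 (by decide +kernel) ?_
    refine jn 14524 (by decide +kernel) ?_
    refine jn 14564 (by decide +kernel) ?_
    refine jn 14596 (by decide +kernel) ?_
    refine jn 14623 (by decide +kernel) ?_
    refine jn 14678 (by decide +kernel) ?_
    refine jn 14728 (by decide +kernel) ?_
    refine jn 14768 (by decide +kernel) ?_
    refine jn 14816 (by decide +kernel) ?_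
    refine jn 14851 (by decide +kernel) ?_
    refine jn 14876 (by decide +kernel) ?_
    refine jn 14927 (by decide +kernel) ?_
    refine jn 14968 (by decide +kernel) ?_
    refine jn 14999 (by decide +kernel) ?_
    refine jn 15008 (by decide +kernel) ?_
    refine jn 15009 (by decide +kernel) ?_
    refine jn 15040 (by decide +kernel) ?_
    refine jn 15076 (by decide +kernel) ?_
    refine jn 15106 (by decide +kernel) ?_
    refine jn 15142 (by decide +kernel) ?_
    refine jn 15170 (by decide +kernel) ?_
    refine jn 15206 (by decide +kernel) ?_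
    refine jn 15226 (by decide +kernel) ?_
    refine jn 15250 (by decide +kernel) ?_
    refine jn 15278 (by decide +kernel) ?_
    refine jn 15286 (by decide +kernel) ?_
    refine jn 15326 (by decide +kernel) ?_
    refine jn 15352 (by decide +kernel) ?_
    refine jn 15385 (by decide +kernel) ?_
    refine jn 15410 (by decide +kernel) ?_
    refine jn 15434 (by decide +kernel) ?_
    refine jn 15460 (by decide +kernel) ?_
    refine jn 15487 (by decide +kernel) ?_
    refine jn 15517 (by decide +kernel) ?_
    refine jn 15550 (by decide +kernel) ?_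
    refine jn 15569 (by decide +kernel) ?_
    refine jn 15586 (by decide +kernel) ?_
    refine jn 15601 (by decide +kernel) ?_
    refine jn 15636 (by decide +kernel) ?_
    refine jn 15658 (by decide +kernel) ?_
    refine jn 15679 (by decide +kernel) ?_
    refine jn 15700 (by decide +kernel) ?_
    refine jn 16023 (by decide +kernel) ?_
    refine jn 16108 (by decide +kernel) ?_
    refine jn 16177 (by decide +kernel) ?_
    refine jn 16210 (by decide +kernel) ?_
    refine jn 16263 (by decide +kernel) ?_
    refine jn 16313 (by decide +kernel) ?_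
    refine jn 16361 (by decide +kernel) ?_
    refine jn 16419 (by decide +kernel) ?_
    refine jn 16461 (by decide +kernel) ?_
    refine jn 16505 (by decide +kernel) ?_
    refine jn 16549 (by decide +kernel) ?_
    refine jn 16590 (by decide +kernel) ?_
    refine jn 16621 (by decide +kernel) ?_
    refine jn 16659 (by decide +kernel) ?_
    refine jn 16689 (by decide +kernel) ?_
    refine jn 16731 (by decide +kernel) ?_
    refine jn 16743 (by decide +kernel) ?_
    refine jn 16781 (by decide +kernel) ?_
    refine jn 16809 (by decide +kernel) ?_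
    refine jn 16841 (by decide +kernel) ?_
    refine jn 16869 (by decide +kernel) ?_
    refine jn 16907 (by decide +kernel) ?_
    refine jn 16942 (by decide +kernel) ?_
    refine jn 17004 (by decide +kernel) ?_
    refine jn 17061 (by decide +kernel) ?_
    refine jn 17073 (by decide +kernel) ?_
    refine jn 17111 (by decide +kernel) ?_
    refine jn 17149 (by decide +kernel) ?_
    refine jn 17195 (by decide +kernel) ?_
    refine jn 17243 (by decide +kernel) ?_
    refine jn 17261 (by decide +kernel) ?_
    refine jn 17289 (by decide +kernel) ?_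
    refine jn 17322 (by decide +kernel) ?_
    refine jn 17351 (by decide +kernel) ?_
    refine jn 17391 (by decide +kernel) ?_
    refine jn 17409 (by decide +kernel) ?_
    refine jn 17445 (by decide +kernel) ?_
    refine jn 17477 (by decide +kernel) ?_
    refine jn 17520 (by decide +kernel) ?_
    refine jn 17559 (by decide +kernel) ?_
    refine jn 17589 (by decide +kernel) ?_
    refine jn 17621 (by decide +kernel) ?_
    refine jn 17639 (by decide +kernel) ?_
    refine jn 17667 (by decide +kernel) ?_
    refine jn 17699 (by decide +kernel) ?_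
    refine jn 17720 (by decide +kernel) ?_
    refine jn 17739 (by decide +kernel) ?_
    refine jn 18107 (by decide +kernel) ?_
    refine jn 18184 (by decide +kernel) ?_
    refine jn 18281 (by decide +kernel) ?_
    refine jn 18321 (by decide +kernel) ?_
    refine jn 18372 (by decide +kernel) ?_
    refine jn 18422 (by decide +kernel) ?_
    refine jn 18473 (by decide +kernel) ?_
    refine jn 18506 (by decide +kernel) ?_
    refine jn 18567 (by decide +kernel) ?_
    refine jn 18611 (by decide +kernel) ?_
    refine jn 18665 (by decide +kernel) ?_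
    refine jn 18701 (by decide +kernel) ?_
    refine jn 18737 (by decide +kernel) ?_
    refine jn 18783 (by decide +kernel) ?_
    refine jn 18806 (by decide +kernel) ?_
    refine jn 18847 (by decide +kernel) ?_
    refine jn 18909 (by decide +kernel) ?_
    refine jn 18951 (by decide +kernel) ?_
    refine jn 18987 (by decide +kernel) ?_
    refine jn 19043 (by decide +kernel) ?_
    refine jn 19089 (by decide +kernel) ?_
    refine jn 19113 (by decide +kernel) ?_
    refine jn 19127 (by decide +kernel) ?_
    refine jn 19163 (by decide +kernel) ?_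
    refine jn 19197 (by decide +kernel) ?_
    refine jn 19257 (by decide +kernel) ?_
    refine jn 19295 (by decide +kernel) ?_
    refine jn 19331 (by decide +kernel) ?_
    refine jn 19373 (by decide +kernel) ?_
    refine jn 19853 (by decide +kernel) ?_
    refine jn 19931 (by decide +kernel) ?_
    refine jn 20050 (by decide +kernel) ?_
    refine jn 20103 (by decide +kernel) ?_
    refine jn 20161 (by decide +kernel) ?_
    refine jn 20215 (by decide +kernel) ?_
    refine jn 20254 (by decide +kernel) ?_
    refine jn 20299 (by decide +kernel) ?_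
    refine jn 20353 (by decide +kernel) ?_
    refine jn 20409 (by decide +kernel) ?_
    refine jn 20451 (by decide +kernel) ?_
    refine jn 20491 (by decide +kernel) ?_
    refine jn 20557 (by decide +kernel) ?_
    refine jn 20615 (by decide +kernel) ?_
    refine jn 20673 (by decide +kernel) ?_
    refine jn 20721 (by decide +kernel) ?_
    refine jn 20759 (by decide +kernel) ?_
    refine jn 20821 (by decide +kernel) ?_
    refine jn 20864 (by decide +kernel) ?_
    refine jn 20925 (by decide +kernel) ?_
    refine jn 20951 (by decide +kernel) ?_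
    refine jn 21007 (by decide +kernel) ?_
    exact je (by decide +kernel)
  · refine fin 1008 567 T10_1 ?_
    refine jn 5 (by decide +kernel) ?_
    refine jn 7 (by decide +kernel) ?_
    refine jn 8 (by decide +kernel) ?_
    refine jn 10 (by decide +kernel) ?_
    refine jn 11 (by decide +kernel) ?_
    refine jn 12 (by decide +kernel) ?_
    refine jn 14 (by decide +kernel) ?_
    refine jn 16 (by decide +kernel) ?_
    refine jn 18 (by decide +kernel) ?_
    refine jn 20 (by decide +kernel) ?_
    refine jn 21 (by decide +kernel) ?_
    refine jn 23 (by decide +kernel) ?_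
    refine jn 24 (by decide +kernel) ?_
    refine jn 25 (by decide +kernel) ?_
    refine jn 27 (by decide +kernel) ?_
    refine jn 29 (by decide +kernel) ?_
    refine jn 42 (by decide +kernel) ?_
    refine jn 54 (by decide +kernel) ?_
    refine jn 57 (by decide +kernel) ?_
    refine jn 59 (by decide +kernel) ?_
    refine jn 61 (by decide +kernel) ?_
    refine jn 63 (by decide +kernel) ?_
    refine jn 65 (by decide +kernel) ?_
    refine jn 67 (by decide +kernel) ?_
    refine jn 68 (by decide +kernel) ?_
    refine jn 77 (by decide +kernel) ?_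
    refine jn 84 (by decide +kernel) ?_
    refine jn 90 (by decide +kernel) ?_
    refine jn 95 (by decide +kernel) ?_
    refine jn 101 (by decide +kernel) ?_
    refine jn 106 (by decide +kernel) ?_
    refine jn 112 (by decide +kernel) ?_
    refine jn 117 (by decide +kernel) ?_
    refine jn 123 (by decide +kernel) ?_
    refine jn 128 (by decide +kernel) ?_
    refine jn 134 (by decide +kernel) ?_
    refine jn 139 (by decide +kernel) ?_
    refine jn 145 (by decide +kernel) ?_
    refine jn 150 (by decide +kernel) ?_
    refine jn 156 (by decide +kernel) ?_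
    refine jn 162 (by decide +kernel) ?_
    refine jn 168 (by decide +kernel) ?_
    refine jn 173 (by decide +kernel) ?_
    refine jn 177 (by decide +kernel) ?_
    refine jn 182 (by decide +kernel) ?_
    refine jn 186 (by decide +kernel) ?_
    refine jn 191 (by decide +kernel) ?_
    refine jn 197 (by decide +kernel) ?_
    refine jn 203 (by decide +kernel) ?_
    refine jn 210 (by decide +kernel) ?_
    refine jn 217 (by decide +kernel) ?_
    refine jn 223 (by decide +kernel) ?_
    refine jn 234 (by decide +kernel) ?_
    refine jn 236 (by decide +kernel) ?_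
    refine jn 247 (by decide +kernel) ?_
    refine jn 259 (by decide +kernel) ?_
    refine jn 262 (by decide +kernel) ?_
    refine jn 263 (by decide +kernel) ?_
    refine jn 270 (by decide +kernel) ?_
    refine jn 302 (by decide +kernel) ?_
    refine jn 311 (by decide +kernel) ?_
    refine jn 313 (by decide +kernel) ?_
    refine jn 315 (by decide +kernel) ?_
    refine jn 317 (by decide +kernel) ?_
    refine jn 319 (by decide +kernel) ?_
    refine jn 321 (by decide +kernel) ?_
    refine jn 323 (by decide +kernel) ?_
    refine jn 325 (by decide +kernel) ?_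
    refine jn 327 (by decide +kernel) ?_
    refine jn 330 (by decide +kernel) ?_
    refine jn 332 (by decide +kernel) ?_
    refine jn 334 (by decide +kernel) ?_
    refine jn 336 (by decide +kernel) ?_
    refine jn 338 (by decide +kernel) ?_
    refine jn 341 (by decide +kernel) ?_
    refine jn 345 (by decide +kernel) ?_
    refine jn 368 (by decide +kernel) ?_
    refine jn 371 (by decide +kernel) ?_
    refine jn 373 (by decide +kernel) ?_
    refine jn 376 (by decide +kernel) ?_
    refine jn 378 (by decide +kernel) ?_
    refine jn 380 (by decide +kernel) ?_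
    refine jn 384 (by decide +kernel) ?_
    refine jn 389 (by decide +kernel) ?_
    refine jn 393 (by decide +kernel) ?_
    refine jn 397 (by decide +kernel) ?_
    refine jn 402 (by decide +kernel) ?_
    refine jn 406 (by decide +kernel) ?_
    refine jn 412 (by decide +kernel) ?_
    refine jn 417 (by decide +kernel) ?_
    refine jn 422 (by decide +kernel) ?_
    refine jn 425 (by decide +kernel) ?_
    refine jn 430 (by decide +kernel) ?_
    refine jn 435 (by decide +kernel) ?_
    refine jn 438 (by decide +kernel) ?_
    refine jn 443 (by decide +kernel) ?_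
    refine jn 448 (by decide +kernel) ?_
    refine jn 451 (by decide +kernel) ?_
    refine jn 462 (by decide +kernel) ?_
    refine jn 468 (by decide +kernel) ?_
    refine jn 473 (by decide +kernel) ?_
    refine jn 484 (by decide +kernel) ?_
    refine jn 496 (by decide +kernel) ?_
    refine jn 500 (by decide +kernel) ?_
    refine jn 531 (by decide +kernel) ?_
    refine jn 564 (by decide +kernel) ?_
    exact je (by decide +kernel)

end Pool.Agent.MP_2339ce_nt.NR
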