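import Pool.Agent.MP_2339ce_nt.Q2.NC.L8
import Pool.Agent.MP_2339ce_nt.Q2.NC.L9
import Pool.Agent.MP_2339ce_nt.Q2.NC.L10
import Pool.Agent.MP_2339ce_nt.Q2.CkI

/-! Block NR: runs. -/

set_option autoImplicit false
set_option maxRecDepth 100000

noncomputable section

namespace Pool.Agent.MP_2339ce_nt.NR

open Q2.Top

def T100_0 : Ph :=
  (.na 702 3 (.na 392 2 (.nx 391 2097153 (.nr 390 881745 (.nx 356 1048577 (.nx 123 32769 (.nx 2 199
  (.nr 1 15 (.lg 0 false 1 43 43 5 0 24) (.l1 .sk)) (.nx 3 200 (.l1 .sk) (.nr 87 131073 (.lg 0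
  false 84 101 107 16 0 720720) (.nx 122 8193 (.nx 109 4096 (.nx 108 324 (.lg 0 false 21 83 83 11 0
  504) .out) (.nr 121 155873 (.lg 0 false 12 97 101 9 0 65520) .out)) .out)))) (.nr 355 110219 (.nr
  167 901 (.lg 0 true 44 97 101 16 0 7920) (.nr 178 1724 (.lg 2 true 11 97 97 9 115798 2640) (.nx
  354 832257 (.nx 211 41286 (.lg 1 false 33 101 107 13 66721 720720) (.nx 244 52017 (.lg 1 false 33
  101 107 13 52957 720720) (.nr 353 77937 (.nr 324 55110 (.nr 255 3160 (.lg 2 true 11 89 97 9 48034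
  2640) (.nr 266 5794 (.lg 2 true 11 101 103 9 26206 720720) (.nx 323 660563 (.nr 294 27556 (.lg 2
  false 28 97 103 11 11344 720720) (.nx 322 524289 (.lg 2 false 28 101 107 11 21054 720720) .out))
  .out))) (.nx 352 208065 (.lg 2 true 28 101 107 11 29744 720720) .out)) .out))) .out))) .out))
  (.nr 389 129 (.lg 0 true 33 83 83 13 0 792) .out)) .out) .out) (.nx 701 3329023 (.nr 700 623489
  (.nx 684 2097153 (.nx 665 1048577 (.nx 395 200 (.nx 394 199 (.nr 393 27 (.lg 0 false 1 41 41 5 0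
  48) (.l1 .sk)) (.l1 .sk)) (.nx 462 28592 (.nr 434 185365 (.lg 0 false 39 103 107 13 0 720720)
  (.nx 447 324 (.lg 0 false 13 79 79 9 0 624) (.nx 448 16384 .out (.nr 461 220437 (.lg 0 false 13
  101 103 9 0 720720) .out)))) (.nr 664 220437 (.nr 505 2049 (.nr 495 1025 (.lg 0 true 33 97 101 13
  0 55440) (.nx 504 832257 (.lg 2 true 9 89 89 9 80790 5040) .out)) (.nx 663 660563 (.nx 538 41287
  (.lg 1 false 33 101 107 13 152798 720720) (.nr 662 155873 (.nx 571 58387 (.lg 1 false 33 97 107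
  13 74851 720720) (.nx 604 82572 (.lg 1 false 33 97 107 13 52929 720720) (.nr 661 131073 (.nr 613
  6051 (.lg 2 true 9 89 97 9 32078 5040) (.nx 660 524289 (.nr 641 77937 (.nr 622 38969 (.lg 2 false
  9 97 101 9 9393 5040) (.nx 640 262145 (.lg 2 false 18 101 103 11 18737 720720) .out)) (.nx 659
  208065 (.lg 2 false 18 103 107 11 31479 720720) .out)) .out)) .out))) .out)) .out)) .out))) (.nr
  683 129 (.lg 0 true 18 79 79 11 0 144) .out)) (.nr 699 9 (.lg 0 true 15 67 67 9 0 720) .out))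
  .out) .out)) (.na 703 4 .ne (.nx 904 16777217 (.nr 903 1246976 (.nx 706 200 (.nx 705 199 (.nr 704
  48 (.lg 0 true 1 37 37 9 0 48) (.l1 .sk)) (.l1 .sk)) (.nx 845 524289 (.nx 751 43975 (.nr 739
  185365 (.lg 0 false 33 101 107 19 0 720720) (.nx 750 324 (.lg 0 false 11 79 79 13 0 528) .out))
  (.nr 844 220437 (.nr 771 2909 (.nr 762 729 (.lg 0 true 11 83 83 13 0 528) (.lg 2 true 9 83 89 13
  71560 5040)) (.nr 776 11603 (.lg 2 true 5 97 101 11 17933 240240) (.nx 822 165142 (.nx 799 92682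
  (.nx 788 65536 (.nr 787 185365 (.lg 1 false 11 101 107 13 83555 720720) .out) (.lg 1 false 11 101
  107 13 66662 720720)) (.nx 810 131073 (.lg 1 false 11 101 107 13 47137 720720) (.nr 821 155873
  (.lg 1 true 11 101 107 13 23578 720720) .out))) (.nr 843 131073 (.nx 833 208065 (.lg 1 true 11
  101 107 13 15740 720720) (.nr 842 55110 (.lg 2 false 9 97 101 13 5264 720720) .out)) .out))))
  .out)) (.nr 902 183 (.nr 890 31 (.lg 0 true 45 79 79 13 0 720) (.nx 901 2097153 (.lg 0 true 11 83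
  83 13 0 528) .out)) .out))) .out) .out)))

def T100_1 : Ph :=
  (.na 963 70 (.na 683 32 (.na 390 14 (.na 191 10 (.na 1 7 .ne (.na 190 8 (.nx 189 21137969 (.nr
  188 1246976 (.nx 4 242 (.nx 3 241 (.nr 2 87 (.lg 0 true 1 31 31 9 0 168) (.l1 .sk)) (.l1 .sk))
  (.nx 148 2642247 (.nx 39 41285 (.nr 16 185365 (.lg 0 false 12 101 103 16 0 55440) (.nx 38 32769
  (.nx 32 2582 (.nr 20 262145 (.lg 0 false 4 83 83 13 0 1680) (.nx 31 814 (.nr 25 741457 (.lg 0
  false 5 79 79 16 0 840) (.nx 30 324 (.lg 0 false 5 71 71 16 0 840) .out)) .out)) (.nx 33 20642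
  .out (.nr 37 220437 (.lg 0 false 4 89 89 13 0 1680) .out))) .out)) (.nr 147 311745 (.nr 61 642
  (.nx 51 1321124 (.lg 0 true 12 83 83 16 0 1008) (.nr 60 154 (.lg 0 true 9 73 73 16 0 504) .out))
  (.nx 146 832257 (.nr 65 2833 (.lg 2 true 4 83 83 13 156211 336) (.nx 78 52015 (.nr 77 220437 (.lg
  1 false 12 89 101 16 155231 5040) .out) (.nx 137 330282 (.nx 127 262145 (.nx 115 178361 (.nx 91
  82570 (.nr 90 262145 (.lg 1 false 12 97 103 16 146495 55440) .out) (.nx 103 121356 (.lg 1 false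
  12 97 103 16 109729 55440) (.lg 1 false 12 97 103 16 74659 55440))) (.lg 1 true 12 97 103 16
  50798 55440)) (.nr 136 155873 (.lg 1 true 9 97 101 16 17295 55440) .out)) (.nr 145 65537 (.nr 141
  12496 (.lg 2 true 4 89 89 13 35400 1680) (.lg 2 false 4 89 89 13 8026 1680)) .out)))) .out))
  .out)) (.nr 187 47 (.lg 0 true 39 79 79 16 0 6552) .out))) .out) .out) .ne)) (.na 302 11 (.nx 301
  2642247 (.nr 300 1246976 (.nx 193 241 (.nr 192 120 (.lg 0 true 1 31 31 11 0 240) (.l1 .sk)) (.nx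
  194 242 (.l1 .sk) (.nr 292 370729 (.nx 284 1321124 (.nx 211 32768 (.nr 207 220437 (.lg 0 false 13
  101 103 19 0 720720) (.nx 210 1627 (.lg 0 false 3 79 79 13 0 720) .out)) (.nr 283 311745 (.nr 233
  8999 (.nr 224 1039 (.lg 0 true 13 79 83 19 0 3120) (.lg 2 true 9 83 89 17 153220 5040)) (.nx 247
  65536 (.nr 246 262145 (.lg 1 false 13 101 107 19 232543 720720) .out) (.nx 273 262145 (.nx 260
  131072 (.lg 1 false 13 101 107 19 138250 720720) (.lg 1 true 13 101 107 19 69125 720720)) (.nr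
  282 185365 (.lg 2 false 9 89 101 17 20562 5040) .out)))) .out)) (.nr 291 65 (.lg 0 true 7 67 67
  13 0 1680) .out)) (.nx 299 814 (.lg 0 false 7 79 79 13 0 1680) .out)))) .out) .out) (.na 389 12
  (.nx 388 2642247 (.nr 387 1246976 (.nx 306 324 (.nx 304 241 (.nr 303 131 (.lg 0 false 1 29 29 9 0
  264) (.l1 .sk)) (.nx 305 242 (.l1 .sk) (.l1 (.ls 83 37 4222)))) (.nr 386 1048577 (.nx 378 1321124
  (.nx 326 65536 (.nx 307 408 (.l1 (.ls 83 41 5592)) (.nr 325 741457 (.nr 319 262145 (.lg 0 false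
  12 103 107 16 0 720720) (.nx 324 1292 (.lg 0 false 5 79 79 16 0 1320) .out)) .out)) (.nr 377
  311745 (.nr 335 1101 (.lg 0 true 9 79 83 16 0 792) (.nx 347 131072 (.lg 1 false 12 101 107 16
  138250 720720) (.nr 351 4556 (.lg 2 true 4 83 83 16 144592 528) (.nx 363 262145 (.lg 1 true 12
  101 107 16 69125 720720) (.nr 376 185365 (.nr 367 9266 (.lg 2 true 4 79 79 16 34942 528) (.lg 2
  false 9 89 101 16 20562 27720)) .out))))) .out)) (.nr 385 65 (.lg 0 true 7 67 67 16 0 1848)
  .out)) .out)) .out) .out) .ne))) (.na 525 23 (.na 474 16 (.nx 473 2642247 (.nr 472 1246976 (.nx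
  393 242 (.nx 392 241 (.nr 391 176 (.lg 0 false 1 31 31 11 0 5040) (.l1 .sk)) (.l1 .sk)) (.nx 396
  408 (.nx 394 324 (.l1 (.ls 83 43 3318)) (.nr 395 1048577 (.l1 (.ls 83 43 4395)) .out)) (.nr 471
  741457 (.nx 464 660563 (.nx 416 41285 (.nr 409 220437 (.lg 0 false 13 97 103 19 0 720720) (.nx
  415 1627 (.lg 0 false 6 83 83 13 0 5040) .out)) (.nr 463 311745 (.nr 422 1620 (.lg 0 true 6 83 83
  13 0 5040) (.nx 436 82570 (.nr 435 262145 (.lg 1 false 13 97 103 19 184569 720720) .out) (.nx 449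
  165142 (.lg 1 false 13 97 103 19 109729 720720) (.nr 462 262145 (.lg 2 false 13 101 107 19 49135
  720720) .out)))) .out)) (.nr 470 65 (.lg 0 true 6 67 67 13 0 1008) .out)) .out))) .out) .out)
  (.na 475 22 .ne (.nx 524 2642247 (.nr 523 1246976 (.nr 476 16 .s1 (.nx 516 660563 (.nx 478 241
  (.nr 477 253 (.lg 0 true 1 31 31 9 0 7920) (.l1 .sk)) (.nx 479 242 (.l1 .sk) (.nx 480 408 (.l1
  (.ls 83 47 4907)) (.nr 515 741457 (.nr 507 220437 (.nx 487 55985 (.lg 0 false 7 97 101 19 0
  55440) (.nr 492 1726 (.lg 0 true 5 79 79 19 0 2640) (.nx 506 524289 (.nx 499 107928 (.lg 1 false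
  7 89 101 19 114471 55440) (.lg 2 false 7 101 103 19 59379 720720)) .out))) (.nx 514 13005 (.nr
  510 311745 (.lg 0 false 3 89 89 13 0 7920) (.nx 513 1627 (.lg 0 false 3 79 79 13 0 1584) .out))
  .out)) .out)))) (.nr 522 129 (.lg 0 true 6 67 67 19 0 1584) .out))) .out) .out))) (.na 613 29
  (.na 572 25 (.nx 571 2642247 (.nr 570 1048577 (.nr 526 17 .s1 (.nx 563 660563 (.nx 553 82572 (.nx
  530 408 (.nx 528 241 (.nr 527 275 (.lg 0 true 1 31 31 11 0 2520) (.l1 .sk)) (.nx 529 242 (.l1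
  .sk) (.l1 (.ls 79 41 4694)))) (.nr 552 741457 (.nr 543 185365 (.lg 0 false 13 101 107 16 0
  720720) (.nx 551 16385 (.nr 547 524289 (.lg 0 false 4 97 101 16 0 5040) (.nx 550 2582 (.lg 0
  false 3 79 79 16 0 72) .out)) .out)) .out)) (.nr 562 131073 (.nr 557 1806 (.lg 0 true 4 79 79 16
  0 48) (.nx 561 524289 (.lg 2 false 4 97 101 16 46184 1680) .out)) .out)) (.nr 569 129 (.lg 0 true
  6 71 71 16 0 144) .out))) .out) .out) (.nx 612 2642247 (.nr 611 1048577 (.nr 573 20 .s1 (.nx 606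
  660563 (.nx 575 241 (.nr 574 319 (.lg 0 false 1 23 23 16 0 120) (.l1 .sk)) (.nx 576 242 (.l1 .sk)
  (.nx 577 408 (.l1 (.ls 73 37 4319)) (.nr 605 741457 (.nr 601 524289 (.nx 591 82572 (.nr 586
  185365 (.lg 0 false 9 89 101 16 0 55440) (.nx 590 16385 (.lg 0 false 4 89 89 16 0 1680) .out))
  (.nr 600 131073 (.nr 595 1994 (.lg 0 true 4 73 73 16 0 240) (.nx 599 524289 (.lg 2 false 4 89 89
  16 46184 1680) .out)) .out)) (.nx 604 2582 (.lg 0 false 3 73 73 16 0 360) .out)) .out)))) (.nr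
  610 129 (.lg 0 true 4 61 61 16 0 240) .out))) .out) .out)) (.na 651 31 (.nx 650 2642247 (.nr 649
  1048577 (.nr 614 25 .s1 (.nx 644 660563 (.nx 616 241 (.nr 615 341 (.lg 0 false 1 19 19 13 0 120)
  (.l1 .sk)) (.nx 617 242 (.l1 .sk) (.nx 618 408 (.l1 (.ls 73 37 3723)) (.nr 643 741457 (.nx 633
  82572 (.nr 625 185365 (.lg 0 false 7 83 89 16 0 840) (.nx 632 16385 (.lg 0 false 7 83 89 16 0
  840) .out)) (.nr 642 131073 (.nr 637 2994 (.lg 0 true 4 79 79 16 0 48) (.nx 641 524289 (.lg 2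
  false 4 89 89 16 46184 240) .out)) .out)) .out)))) (.nr 648 129 (.lg 0 true 4 61 61 16 0 48)
  .out))) .out) .out) (.nx 682 2642247 (.nr 681 1048577 (.nr 652 27 .s1 (.nx 656 408 (.nx 654 241
  (.nr 653 352 (.lg 0 true 1 23 23 13 0 2520) (.l1 .sk)) (.nx 655 242 (.l1 .sk) (.l1 (.ls 79 29
  3483)))) (.nr 680 741457 (.nr 675 185365 (.nx 660 82572 (.lg 0 false 4 103 103 16 0 55440) (.nr
  674 131073 (.nx 669 660563 (.nr 664 3052 (.lg 0 true 4 79 79 16 0 48) (.nx 668 524289 (.lg 2
  false 4 97 97 16 46184 1680) .out)) (.nr 673 129 (.lg 0 true 4 61 61 16 0 48) .out)) .out)) (.nx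
  679 16385 (.lg 0 false 4 101 101 16 0 5040) .out)) .out))) .out) .out))))) (.na 836 50 (.na 735
  41 (.na 684 35 .ne (.na 710 38 (.nx 709 2642247 (.nr 708 881745 (.nr 685 32 .s1 (.nx 687 241 (.nr
  686 418 (.lg 0 true 1 29 29 16 0 840) (.l1 .sk)) (.nx 688 242 (.l1 .sk) (.nx 689 408 (.l1 (.ls 79
  41 3085)) (.nr 707 623489 (.nx 697 52017 (.nr 693 185365 (.lg 0 false 4 101 103 19 0 720720) (.nx
  696 16385 (.lg 0 false 3 89 97 17 0 2520) .out)) (.nr 706 92683 (.nr 704 65537 (.nx 700 262145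
  (.nr 698 1148 (.lg 0 false 1 73 73 16 0 840) (.lg 2 false 2 89 89 17 36724 1680)) (.nr 703 257
  (.lg 0 true 3 71 71 17 0 2520) .out)) (.nx 705 82572 (.lg 0 true 1 83 83 16 0 840) .out)) .out))
  .out))))) .out) .out) (.nx 734 2642247 (.nr 733 881745 (.nr 711 35 .s1 (.nx 727 262145 (.nx 723
  65537 (.nx 713 241 (.nr 712 451 (.lg 0 false 1 23 23 13 0 48) (.l1 .sk)) (.nx 714 242 (.l1 .sk)
  (.nx 715 408 (.l1 (.ls 73 43 2842)) (.nr 722 623489 (.nr 718 185365 (.lg 0 false 3 103 103 13 0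
  55440) (.nx 721 16385 (.lg 0 false 3 89 89 13 0 144) .out)) .out)))) (.nr 726 77937 (.nr 724 1220
  (.lg 0 false 1 73 73 13 0 48) (.lg 2 false 2 83 83 13 34643 48)) .out)) (.nr 732 257 (.lg 0 true
  5 67 67 17 0 240) .out))) .out) .out))) (.na 790 46 (.na 762 43 (.nx 761 2642247 (.nr 760 881745
  (.nr 736 38 .s1 (.nx 739 242 (.nx 738 241 (.nr 737 473 (.lg 0 true 1 19 19 16 0 360) (.l1 .sk))
  (.l1 .sk)) (.nx 750 52017 (.nx 740 408 (.l1 (.ls 73 31 2634)) (.nr 749 623489 (.nr 744 185365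
  (.lg 0 false 4 89 97 16 0 720) (.nx 748 16385 (.lg 0 false 4 89 89 16 0 720) .out)) .out)) (.nr
  759 92683 (.nr 754 473 (.lg 0 true 4 71 71 16 0 48) (.nx 758 262145 (.lg 2 false 4 83 89 16 66784
  240) .out)) .out)))) .out) .out) (.nx 789 2642247 (.nr 788 881745 (.nr 763 41 .s1 (.nx 765 241
  (.nr 764 506 (.lg 0 false 1 17 17 16 0 120) (.l1 .sk)) (.nx 766 242 (.l1 .sk) (.nx 767 408 (.l1
  (.ls 71 31 2512)) (.nr 787 623489 (.nr 782 185365 (.nx 771 52017 (.lg 0 false 4 89 89 16 0 240)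
  (.nr 781 92683 (.nr 776 506 (.lg 0 true 5 67 67 16 0 120) (.nx 780 262145 (.lg 2 false 4 83 83 16
  62428 240) .out)) .out)) (.nx 786 16385 (.lg 0 false 4 83 89 16 0 240) .out)) .out))))) .out)
  .out)) (.na 812 49 (.nx 811 2642247 (.nr 810 881745 (.nr 791 44 .s1 (.nx 793 241 (.nr 792 539
  (.l1 (.ls 19 41 1265)) (.l1 .sk)) (.nx 794 242 (.l1 .sk) (.nx 801 41287 (.nr 797 220437 (.lg 0
  false 3 97 97 13 0 5040) (.nx 800 20644 (.lg 0 false 3 97 97 13 0 144) .out)) (.nr 809 77937 (.nr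
  806 539 (.lg 0 true 5 71 71 19 0 240) (.nx 808 262145 (.lg 2 true 2 89 89 13 58606 1680) .out))
  .out))))) .out) .out) (.nx 835 2642247 (.nr 834 881745 (.nr 813 47 .s1 (.nx 815 241 (.nr 814 550
  (.l1 (.ls 23 29 1188)) (.l1 .sk)) (.nx 816 242 (.l1 .sk) (.nr 829 220437 (.nx 819 41287 (.lg 0
  false 3 89 89 16 0 27720) (.nr 828 77937 (.nr 823 550 (.lg 0 true 4 71 71 16 0 336) (.nx 827
  262145 (.lg 2 false 4 83 83 16 57434 18480) .out)) .out)) (.nx 833 20644 (.lg 0 false 4 97 97 16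
  0 55440) .out))))) .out) .out)))) (.na 900 58 (.na 859 53 (.nx 858 2642247 (.nr 857 881745 (.nr
  837 48 .s1 (.nx 840 242 (.nx 839 241 (.nr 838 583 (.l1 (.ls 23 37 1164)) (.l1 .sk)) (.l1 .sk))
  (.nx 847 32769 (.lg 0 false 7 89 97 23 0 55440) (.nr 856 92683 (.nr 853 583 (.lg 0 true 6 71 71
  23 0 720) (.nx 855 262145 (.lg 2 true 2 89 89 19 82353 2640) .out)) .out)))) .out) .out) (.na 880
  55 (.nx 879 2642247 (.nr 878 881745 (.nr 860 51 .s1 (.nx 863 242 (.nx 862 241 (.nr 861 605 (.l1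
  (.ls 17 23 1098)) (.l1 .sk)) (.l1 .sk)) (.nx 867 32769 (.lg 0 false 4 97 97 16 0 1680) (.nr 877
  92683 (.nr 872 605 (.lg 0 true 5 67 67 16 0 120) (.nx 876 262145 (.lg 2 false 4 83 89 16 82353
  1680) .out)) .out)))) .out) .out) (.nx 899 2642247 (.nr 898 881745 (.nr 881 53 .s1 (.nx 894
  262145 (.nx 891 52017 (.nx 883 241 (.nr 882 638 (.l1 (.ls 29 31 1059)) (.l1 .sk)) (.nx 884 242
  (.l1 .sk) (.nr 887 220437 (.lg 0 false 3 89 89 19 0 3960) (.nx 890 20644 (.lg 0 false 3 89 97 19
  0 3960) .out)))) (.nr 893 65537 (.nr 892 1707 (.lg 0 true 1 71 71 17 0 1320) (.lg 2 true 1 83 83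
  17 36724 1320)) .out)) (.nr 897 257 (.lg 0 true 3 67 67 19 0 3960) .out))) .out) .out))) (.na 940
  62 (.na 920 61 (.nx 919 2642247 (.nr 918 881745 (.nr 901 56 .s1 (.nx 909 32769 (.nx 903 241 (.nr
  902 671 (.l1 (.ls 23 37 1004)) (.l1 .sk)) (.nx 904 242 (.l1 .sk) (.lg 0 false 5 97 101 19 0
  5040))) (.nr 917 92683 (.nr 914 671 (.lg 0 true 5 71 71 19 0 240) (.nx 916 262145 (.lg 2 true 2
  97 97 13 82353 1680) .out)) .out))) .out) .out) (.nx 939 2642247 (.nr 938 881745 (.nr 921 59 .s1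
  (.nx 924 242 (.nx 923 241 (.nr 922 682 (.l1 (.ls 19 23 955)) (.l1 .sk)) (.l1 .sk)) (.nx 928 32769
  (.lg 0 false 4 101 101 16 0 18480) (.nr 937 92683 (.nr 932 682 (.lg 0 true 4 71 71 16 0 48) (.nx
  936 262145 (.lg 2 false 4 89 89 16 82353 18480) .out)) .out)))) .out) .out)) (.na 962 64 (.nx 961
  2642247 (.nr 960 881745 (.nr 941 61 .s1 (.nx 951 32769 (.nx 943 241 (.nr 942 704 (.l1 (.ls 19 37
  939)) (.l1 .sk)) (.nx 944 242 (.l1 .sk) (.lg 0 false 7 83 89 23 0 1680))) (.nr 959 92683 (.nr 956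
  704 (.lg 0 true 5 71 71 19 0 240) (.nx 958 262145 (.lg 2 false 2 83 83 17 82353 240) .out))
  .out))) .out) .out) .ne))))) (.na 1170 125 (.na 1066 98 (.na 1017 86 (.na 983 71 (.nx 982 2642247
  (.nr 981 2097153 (.nr 964 69 .s1 (.nx 967 242 (.nx 966 241 (.nr 965 781 (.l1 (.ls 29 41 832))
  (.l1 .sk)) (.l1 .sk)) (.nx 972 20644 (.nx 968 408 (.l1 (.ls 79 43 1544)) (.nr 971 1048577 (.lg 0
  false 3 89 97 29 0 5040) .out)) (.nr 980 262145 (.nx 974 32769 (.lg 0 false 2 79 83 29 0 1680)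
  (.nr 979 65537 (.nr 977 781 (.lg 0 true 3 73 73 29 0 5040) (.nx 978 416129 (.lg 2 true 1 89 89 23
  64205 1680) .out)) .out)) .out)))) .out) .out) (.na 1000 82 (.nx 999 2642247 (.nr 998 2097153
  (.nr 984 70 .s1 (.nx 990 32769 (.nx 985 408 (.l1 (.ls 73 31 2347)) (.nr 989 1048577 (.lg 0 false
  4 97 97 16 0 2640) .out)) (.nr 997 65537 (.nr 994 901 (.lg 0 true 4 67 67 16 0 48) (.nx 996
  416129 (.lg 2 false 2 79 79 16 58295 48) .out)) .out))) .out) .out) (.nx 1016 2642247 (.nr 1015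
  2097153 (.nr 1001 81 .s1 (.nx 1002 408 (.l1 (.ls 79 37 2033)) (.nr 1014 1048577 (.nx 1007 32769
  (.lg 0 false 5 97 97 23 0 18480) (.nr 1013 65537 (.nr 1010 945 (.lg 0 true 3 71 71 19 0 144) (.nx
  1012 416129 (.lg 2 false 2 79 79 19 58295 48) .out)) .out)) .out))) .out) .out))) (.na 1033 95
  (.na 1032 91 (.nx 1031 2642247 (.nr 1030 2097153 (.nr 1018 85 .s1 (.nx 1023 32769 (.nx 1019 408
  (.l1 (.ls 79 37 1938)) (.nr 1022 1048577 (.lg 0 false 3 97 97 19 0 5040) .out)) (.nr 1029 65537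
  (.nr 1026 513 (.lg 0 true 3 67 67 19 0 144) (.nx 1028 416129 (.lg 2 true 2 83 83 19 97746 1680)
  .out)) .out))) .out) .out) .ne) (.na 1050 97 (.nx 1049 2642247 (.nr 1048 2097153 (.nr 1034 94 .s1
  (.nx 1037 242 (.nx 1036 241 (.nr 1035 1066 (.l1 (.ls 17 29 614)) (.l1 .sk)) (.l1 .sk)) (.nx 1038
  408 (.l1 (.ls 79 31 1138)) (.nr 1047 1482912 (.nx 1041 29041 (.lg 0 false 3 97 101 17 0 2520)
  (.nr 1046 65537 (.nr 1044 1066 (.lg 0 true 3 73 73 17 0 360) (.nx 1045 416129 (.lg 2 false 1 83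
  83 17 65778 120) .out)) .out)) .out)))) .out) .out) (.nx 1065 2642247 (.nr 1064 2097153 (.nr 1051
  96 .s1 (.nx 1057 29041 (.nx 1052 408 (.l1 (.ls 71 29 1719)) (.nr 1056 1482912 (.lg 0 false 4 83
  83 17 0 240) .out)) (.nr 1063 65537 (.nr 1060 513 (.lg 0 true 3 59 59 16 0 72) (.nx 1062 416129
  (.lg 2 true 2 73 73 16 97746 48) .out)) .out))) .out) .out)))) (.na 1113 110 (.na 1083 103 (.nx
  1082 2642247 (.nr 1081 2097153 (.nr 1067 97 .s1 (.nx 1074 29041 (.nx 1068 408 (.l1 (.ls 73 41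
  1701)) (.nr 1073 1482912 (.lg 0 false 5 83 83 29 0 1680) .out)) (.nr 1080 65537 (.nr 1077 513
  (.lg 0 true 3 61 61 23 0 1008) (.nx 1079 416129 (.lg 2 true 2 79 79 23 97746 1680) .out)) .out)))
  .out) .out) (.na 1099 106 (.nx 1098 2642247 (.nr 1097 2097153 (.nr 1084 102 .s1 (.nx 1090 29041
  (.nx 1085 408 (.l1 (.ls 71 29 1619)) (.nr 1089 1482912 (.lg 0 false 4 89 89 17 0 5040) .out))
  (.nr 1096 65537 (.nr 1093 513 (.lg 0 true 3 59 59 16 0 72) (.nx 1095 416129 (.lg 2 true 2 73 73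
  16 97746 48) .out)) .out))) .out) .out) (.nx 1112 2642247 (.nr 1111 2097153 (.nr 1100 105 .s1
  (.nx 1101 408 (.l1 (.ls 73 37 1573)) (.nr 1110 1482912 (.nx 1104 29041 (.lg 0 false 3 89 89 23 0
  720) (.nr 1109 65537 (.nr 1106 513 (.lg 0 true 2 61 61 19 0 48) (.nx 1108 416129 (.lg 2 true 2 79
  79 19 97746 240) .out)) .out)) .out))) .out) .out))) (.na 1141 121 (.na 1126 113 (.nx 1125
  2642247 (.nr 1124 2097153 (.nr 1114 109 .s1 (.nx 1115 408 (.l1 (.ls 83 43 1516)) (.nr 1123
  1482912 (.nx 1118 29041 (.lg 0 false 3 97 101 31 0 55440) (.nr 1122 65537 (.nr 1120 513 (.lg 0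
  true 2 71 71 31 0 2640) (.nx 1121 416129 (.lg 2 false 1 89 89 29 97746 18480) .out)) .out))
  .out))) .out) .out) (.nx 1140 2642247 (.nr 1139 2097153 (.nr 1127 112 .s1 (.nx 1133 29041 (.nx
  1128 408 (.l1 (.ls 71 29 1476)) (.nr 1132 1482912 (.lg 0 false 4 83 83 17 0 720) .out)) (.nr 1138
  65537 (.nr 1136 1330 (.lg 0 true 3 61 61 16 0 72) (.nx 1137 416129 (.lg 2 false 1 73 73 16 65778
  120) .out)) .out))) .out) .out)) (.na 1156 122 (.nx 1155 2642247 (.nr 1154 2097153 (.nr 1142 121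
  .s1 (.nx 1143 408 (.l1 (.ls 73 31 1378)) (.nr 1153 1482912 (.nx 1150 416129 (.nr 1146 65537 (.lg
  0 false 3 79 79 19 0 27720) (.nx 1149 26009 (.lg 0 false 3 83 83 19 0 792) .out)) (.nr 1152 513
  (.lg 0 true 2 61 61 17 0 528) .out)) .out))) .out) .out) (.nx 1169 2642247 (.nr 1168 2097153 (.nr
  1157 122 .s1 (.nx 1162 29041 (.nx 1158 408 (.l1 (.ls 73 37 1367)) (.nr 1161 1482912 (.lg 0 false
  3 83 83 23 0 144) .out)) (.nr 1167 65537 (.nr 1165 1374 (.lg 0 true 3 67 67 23 0 144) (.nx 1166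
  416129 (.lg 2 false 1 79 79 19 65778 48) .out)) .out))) .out) .out))))) (.na 1243 145 (.na 1199
  131 (.na 1184 127 (.nx 1183 2642247 (.nr 1182 2097153 (.nr 1171 125 .s1 (.nx 1176 29041 (.nx 1172
  408 (.l1 (.ls 67 29 1334)) (.nr 1175 1482912 (.lg 0 false 3 79 79 17 0 360) .out)) (.nr 1181
  65537 (.nr 1179 1396 (.lg 0 true 3 61 61 17 0 360) (.nx 1180 416129 (.lg 2 false 1 71 71 16 65778
  120) .out)) .out))) .out) .out) (.na 1198 128 (.nx 1197 2642247 (.nr 1196 2097153 (.nr 1185 127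
  .s1 (.nx 1186 408 (.l1 (.ls 67 29 1313)) (.nr 1195 1482912 (.nx 1190 29041 (.lg 0 false 4 79 79
  17 0 48) (.nr 1194 65537 (.nr 1192 513 (.lg 0 true 2 59 59 16 0 48) (.nx 1193 416129 (.lg 2 false
  1 73 73 16 97746 24) .out)) .out)) .out))) .out) .out) .ne)) (.na 1215 139 (.na 1214 137 (.nx
  1213 1321124 (.nr 1212 2097153 (.nr 1200 131 .s1 (.nx 1210 165142 (.nx 1202 241 (.nr 1201 1506
  (.l1 (.ls 17 19 446)) (.l1 .sk)) (.nx 1203 242 (.l1 .sk) (.nr 1206 65537 (.lg 0 true 3 73 73 17 0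
  2520) (.nx 1209 26009 (.lg 0 false 3 83 83 17 0 2520) .out)))) (.nr 1211 1025 (.lg 0 false 1 61
  61 16 0 24) .out))) .out) .out) (.lg 0 false 1 0 0 16 0 24)) (.na 1228 142 (.nx 1227 1321124 (.nr
  1226 2097153 (.nr 1216 139 .s1 (.nx 1219 242 (.nx 1218 241 (.nr 1217 1561 (.l1 (.ls 17 19 420))
  (.l1 .sk)) (.l1 .sk)) (.nx 1224 165142 (.nx 1222 26009 (.lg 0 false 3 79 79 17 0 360) (.nr 1223
  65537 (.lg 0 false 1 73 73 16 0 24) .out)) (.nr 1225 1025 (.lg 0 false 1 61 61 16 0 24) .out))))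
  .out) .out) (.nx 1242 1321124 (.nr 1241 2097153 (.nr 1229 142 .s1 (.nx 1235 26009 (.nx 1231 241
  (.nr 1230 1594 (.l1 (.ls 19 29 412)) (.l1 .sk)) (.nx 1232 242 (.l1 .sk) (.lg 0 false 3 89 89 23 0
  144))) (.nr 1240 65537 (.nx 1237 165142 (.lg 0 true 2 79 79 23 0 48) (.nr 1239 1025 (.lg 0 true 2
  59 59 23 0 48) .out)) .out))) .out) .out)))) (.na 1258 154 (.na 1256 149 (.nx 1255 1321124 (.nr
  1254 2097153 (.nr 1244 145 .s1 (.nx 1252 165142 (.nx 1246 241 (.nr 1245 1638 (.l1 (.ls 23 23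
  403)) (.l1 .sk)) (.nx 1247 242 (.l1 .sk) (.nx 1250 26009 (.lg 0 false 3 89 97 23 0 2520) (.nr
  1251 65537 (.lg 0 false 1 89 89 17 0 840) .out)))) (.nr 1253 1025 (.lg 0 true 1 67 67 17 0 120)
  .out))) .out) .out) (.na 1257 151 (.lg 0 false 1 0 0 16 0 24) (.lg 0 false 1 0 0 16 0 24))) (.na
  1272 161 (.na 1271 157 (.nx 1270 1321124 (.nr 1269 2097153 (.nr 1259 154 .s1 (.nx 1262 242 (.nx
  1261 241 (.nr 1260 1726 (.l1 (.ls 31 37 380)) (.l1 .sk)) (.l1 .sk)) (.nx 1267 165142 (.nx 1265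
  26009 (.lg 0 false 3 97 97 37 0 55440) (.nr 1266 65537 (.lg 0 false 1 89 89 31 0 18480) .out))
  (.nr 1268 1025 (.lg 0 true 1 67 67 31 0 3696) .out)))) .out) .out) (.lg 0 false 1 0 0 16 0 24))
  (.na 1285 163 (.nx 1284 1321124 (.nr 1283 2097153 (.nr 1273 161 .s1 (.nx 1279 26009 (.nx 1275 241
  (.nr 1274 1792 (.l1 (.ls 19 19 363)) (.l1 .sk)) (.nx 1276 242 (.l1 .sk) (.lg 0 false 3 89 89 19 0
  2520))) (.nr 1282 65537 (.nx 1280 165142 (.lg 0 true 1 83 83 17 0 840) (.nr 1281 1025 (.lg 0 true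
  1 67 67 17 0 168) .out)) .out))) .out) .out) (.nx 1297 1321124 (.nr 1296 2097153 (.nr 1286 163
  .s1 (.nx 1289 242 (.nx 1288 241 (.nr 1287 1836 (.l1 (.ls 17 19 359)) (.l1 .sk)) (.l1 .sk)) (.nx
  1292 26009 (.lg 0 false 3 79 79 17 0 72) (.nr 1295 65537 (.nx 1293 165142 (.lg 0 false 1 73 73 16
  0 840) (.nr 1294 1025 (.lg 0 false 1 61 61 16 0 840) .out)) .out)))) .out) .out)))))))

def T100_2 : Ph :=
  (.na 543 154 (.na 403 62 (.na 313 16 (.na 215 10 (.na 1 2 .ne (.na 214 3 (.nx 213 3329023 (.nr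
  212 623489 (.nx 193 1664512 (.nx 3 139 (.nr 2 23 (.lg 0 true 1 37 37 5 0 48) (.l1 .sk)) (.nx 4
  140 (.l1 .sk) (.nx 171 832257 (.nr 157 131073 (.nx 43 18696 (.lg 0 false 39 97 103 13 0 65520)
  (.nr 88 2437 (.nr 76 450 (.lg 0 true 33 83 83 13 0 1584) (.nx 87 416129 (.lg 2 true 11 89 89 9
  64269 18480) .out)) (.nx 156 330282 (.nx 101 26009 (.lg 1 false 13 97 101 9 67801 65520) (.nr 155
  110219 (.nx 114 32769 (.lg 1 false 13 97 101 9 40991 65520) (.nr 154 92683 (.nx 127 44591 (.lg 1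
  false 13 101 103 9 27365 720720) (.nr 140 55110 (.lg 2 false 13 101 107 9 11970 720720) (.nx 153
  131073 (.lg 2 false 13 103 107 9 20110 720720) .out))) .out)) .out)) .out))) (.nx 170 257 (.lg 0
  false 13 79 79 9 0 624) .out)) (.nr 192 129 (.lg 0 true 21 79 79 11 0 1008) .out)))) (.nr 211 9
  (.lg 0 true 18 67 67 9 0 144) .out)) .out) .out) .ne)) (.na 269 12 (.nx 268 1664512 (.nr 267
  623489 (.nx 259 524289 (.nx 217 139 (.nr 216 100 (.lg 0 true 1 29 29 11 0 2640) (.l1 .sk)) (.nx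
  218 140 (.l1 .sk) (.nx 235 26007 (.nr 225 110219 (.lg 0 false 7 97 97 13 0 18480) (.nx 234 2582
  (.nx 232 1292 (.lg 0 false 7 83 83 13 0 1680) (.nr 233 131073 (.lg 0 true 1 79 79 11 0 2640)
  .out)) .out)) (.nr 258 131073 (.nr 242 1621 (.lg 0 true 7 83 83 13 0 1680) (.nx 257 416129 (.nx
  249 65537 (.lg 1 false 7 101 103 13 48741 720720) (.nr 256 110219 (.lg 2 false 7 97 101 13 17842
  240240) .out)) .out)) .out)))) (.nr 266 65 (.lg 0 true 7 71 71 13 0 1680) .out)) .out) .out) (.na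
  270 14 .ne (.nx 312 1664512 (.nr 311 623489 (.nr 271 8 .s1 (.nx 274 140 (.nx 273 139 (.nr 272 134
  (.lg 0 true 1 23 23 11 0 336) (.l1 .sk)) (.l1 .sk)) (.nx 305 524289 (.nx 289 29192 (.nr 283
  155873 (.lg 0 false 9 89 97 19 0 5040) (.nx 288 1292 (.lg 0 false 5 79 79 13 0 1680) .out)) (.nr
  304 110219 (.nr 294 829 (.lg 0 true 5 73 73 13 0 1680) (.nx 303 416129 (.lg 2 false 9 89 97 19
  36522 5040) .out)) .out)) (.nr 310 65 (.lg 0 true 5 67 67 13 0 1680) .out)))) .out) .out)))) (.na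
  346 26 (.na 314 22 .ne (.na 345 23 (.nx 344 1664512 (.nr 343 1048577 (.nr 315 19 .s1 (.nx 330
  23171 (.nx 317 139 (.nr 316 192 (.lg 0 false 1 23 23 9 0 18480) (.l1 .sk)) (.nx 318 140 (.l1 .sk)
  (.nx 319 257 (.l1 (.ls 79 41 2114)) (.nr 329 623489 (.nr 325 220437 (.lg 0 false 6 97 97 19 0
  55440) (.nx 328 1627 (.lg 0 false 3 79 79 13 0 1584) .out)) .out)))) (.nr 342 92683 (.nr 336 634
  (.lg 0 true 6 79 79 19 0 1584) (.nx 341 262145 (.lg 2 false 5 89 97 19 38701 18480) .out))
  .out))) .out) .out) .ne)) (.na 374 50 (.na 373 32 (.nx 372 1664512 (.nr 371 1048577 (.nr 347 24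
  .s1 (.nx 351 257 (.nx 349 139 (.nr 348 267 (.lg 0 false 1 23 23 11 0 624) (.l1 .sk)) (.nx 350 140
  (.l1 .sk) (.l1 (.ls 79 41 1789)))) (.nr 370 311745 (.nx 358 20644 (.nr 354 110219 (.lg 0 false 3
  89 89 11 0 1872) (.nx 357 8193 (.lg 0 false 3 89 89 11 0 1872) .out)) (.nr 369 77937 (.nr 363 513
  (.lg 0 true 5 73 73 19 0 3120) (.nx 368 165142 (.lg 2 false 5 83 89 19 36538 21840) .out)) .out))
  .out))) .out) .out) .ne) (.na 389 58 (.nx 388 1664512 (.nr 387 881745 (.nr 375 49 .s1 (.nx 380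
  20644 (.nx 376 257 (.l1 (.ls 73 41 1323)) (.nr 379 623489 (.lg 0 false 3 89 89 19 0 5040) .out))
  (.nr 386 46342 (.nr 383 257 (.lg 0 true 3 61 61 19 0 720) (.nx 385 104033 (.lg 2 false 2 73 73 19
  28134 240) .out)) .out))) .out) .out) (.nx 402 1664512 (.nr 401 881745 (.nr 390 57 .s1 (.nx 391
  257 (.l1 (.ls 73 41 1141)) (.nr 400 623489 (.nx 394 20644 (.lg 0 false 3 89 89 19 0 144) (.nr 399
  46342 (.nr 396 257 (.lg 0 true 2 67 67 13 0 48) (.nx 398 104033 (.lg 2 false 2 73 73 13 28134 48)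
  .out)) .out)) .out))) .out) .out))))) (.na 465 94 (.na 434 74 (.na 417 64 (.nx 416 1664512 (.nr
  415 881745 (.nr 404 61 .s1 (.nx 405 257 (.l1 (.ls 73 37 1068)) (.nr 414 623489 (.nx 408 20644
  (.lg 0 false 3 97 97 19 0 5040) (.nr 413 46342 (.nr 411 535 (.lg 0 true 3 71 71 19 0 144) (.nx
  412 104033 (.lg 2 true 1 79 79 13 21752 48) .out)) .out)) .out))) .out) .out) (.na 418 70 .ne
  (.nx 433 1664512 (.nr 432 524289 (.nr 419 70 .s1 (.nx 422 140 (.nx 421 139 (.nr 420 618 (.l1 (.ls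
  31 31 279)) (.l1 .sk)) (.l1 .sk)) (.nx 425 20644 (.lg 0 false 3 89 89 29 0 5040) (.nr 431 32769
  (.nx 427 104033 (.lg 0 false 2 83 83 29 0 5040) (.nr 430 513 (.lg 0 true 3 71 73 29 0 5040)
  .out)) .out)))) .out) .out))) (.na 449 82 (.nx 448 1664512 (.nr 447 524289 (.nr 435 74 .s1 (.nx
  438 140 (.nx 437 139 (.nr 436 685 (.l1 (.ls 19 23 264)) (.l1 .sk)) (.l1 .sk)) (.nx 441 20644 (.lg
  0 false 3 83 83 19 0 144) (.nr 446 32769 (.nr 444 513 (.lg 0 true 3 67 67 19 0 144) (.nx 445
  104033 (.lg 2 true 1 71 71 13 15400 48) .out)) .out)))) .out) .out) (.na 464 91 (.nx 463 1664512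
  (.nr 462 524289 (.nr 450 82 .s1 (.nx 453 140 (.nx 452 139 (.nr 451 760 (.l1 (.ls 19 23 238)) (.l1
  .sk)) (.l1 .sk)) (.nx 456 20644 (.lg 0 false 3 83 83 19 0 144) (.nr 461 32769 (.nr 459 513 (.lg 0
  true 3 67 67 19 0 144) (.nx 460 104033 (.lg 2 true 1 71 71 13 15400 48) .out)) .out)))) .out)
  .out) .ne))) (.na 507 128 (.na 479 98 (.nx 478 1664512 (.nr 477 1048577 (.nr 466 94 .s1 (.nx 469
  140 (.nx 468 139 (.nr 467 819 (.l1 (.ls 17 23 208)) (.l1 .sk)) (.l1 .sk)) (.nx 472 20644 (.lg 0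
  false 3 83 83 19 0 144) (.nr 476 32769 (.nr 474 513 (.lg 0 true 2 61 61 19 0 48) (.nx 475 104033
  (.lg 2 true 1 67 67 17 15400 48) .out)) .out)))) .out) .out) (.na 493 110 (.nx 492 1664512 (.nr
  491 1048577 (.nr 480 98 .s1 (.nx 486 20644 (.nx 482 139 (.nr 481 919 (.l1 (.ls 23 29 200)) (.l1
  .sk)) (.nx 483 140 (.l1 .sk) (.lg 0 false 3 83 83 23 0 1008))) (.nr 490 32769 (.nr 488 513 (.lg 0
  true 2 61 61 23 0 336) (.nx 489 104033 (.lg 2 true 1 67 67 19 15400 336) .out)) .out))) .out)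
  .out) (.nx 506 1664512 (.nr 505 1048577 (.nr 494 110 .s1 (.nx 497 140 (.nx 496 139 (.nr 495 1069
  (.l1 (.ls 31 31 178)) (.l1 .sk)) (.l1 .sk)) (.nx 500 13005 (.lg 0 false 3 83 89 31 0 7920) (.nr
  504 65537 (.nr 502 513 (.lg 0 true 2 71 71 31 0 2640) (.nx 503 104033 (.lg 1 false 1 89 89 29
  48788 2640) .out)) .out)))) .out) .out))) (.na 519 134 (.na 508 130 .ne (.nx 518 832257 (.nr 517
  1048577 (.nr 509 130 .s1 (.nx 513 13005 (.nx 510 257 (.l1 (.ls 73 37 511)) (.nr 512 741457 (.lg 0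
  false 2 83 83 31 0 3120) .out)) (.nr 516 16385 (.nr 514 1025 (.lg 0 true 1 67 67 29 0 3120) (.nx
  515 104033 (.lg 2 false 1 61 61 29 12275 3120) .out)) .out))) .out) .out)) (.na 531 142 (.nx 530
  832257 (.nr 529 1048577 (.nr 520 134 .s1 (.nx 521 257 (.l1 (.ls 61 29 495)) (.nr 528 741457 (.nx
  524 13005 (.lg 0 false 3 79 79 23 0 144) (.nr 527 16385 (.nr 525 1025 (.lg 0 false 1 67 67 19 0
  48) (.nx 526 104033 (.lg 2 true 1 53 53 19 12275 48) .out)) .out)) .out))) .out) .out) (.nx 542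
  832257 (.nr 541 1048577 (.nr 532 142 .s1 (.nx 533 257 (.l1 (.ls 67 29 468)) (.nr 540 741457 (.nr
  536 16385 (.lg 0 true 3 79 79 23 0 144) (.nx 539 13005 (.lg 0 false 3 79 79 23 0 144) .out))
  .out))) .out) .out)))))) (.na 2041 725 (.na 602 226 (.na 574 178 (.na 553 158 (.nx 552 832257
  (.nr 551 1048577 (.nr 544 154 .s1 (.nx 547 13005 (.nx 545 257 (.l1 (.ls 73 37 431)) (.nr 546
  741457 (.lg 0 false 1 83 83 31 0 3696) .out)) (.nr 550 16385 (.nr 548 1025 (.lg 0 true 1 67 67 31
  0 3696) (.nx 549 104033 (.lg 2 false 1 61 61 31 12275 3696) .out)) .out))) .out) .out) (.na 564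
  166 (.nx 563 832257 (.nr 562 1048577 (.nr 554 158 .s1 (.nx 555 257 (.l1 (.ls 61 29 421)) (.nr 561
  741457 (.nx 557 13005 (.lg 0 false 2 71 71 23 0 48) (.nr 560 16385 (.nr 558 1025 (.lg 0 false 1
  61 61 19 0 240) (.nx 559 104033 (.lg 2 true 1 47 47 19 12275 48) .out)) .out)) .out))) .out)
  .out) (.nx 573 832257 (.nr 572 1048577 (.nr 565 166 .s1 (.nx 568 13005 (.nx 566 257 (.l1 (.ls 67
  29 400)) (.nr 567 741457 (.lg 0 true 1 83 83 19 0 48) .out)) (.nr 571 16385 (.nr 569 1025 (.lg 0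
  false 1 61 61 19 0 48) (.nx 570 104033 (.lg 2 true 1 53 53 19 12275 48) .out)) .out))) .out)
  .out))) (.na 584 182 (.nx 583 832257 (.nr 582 1048577 (.nr 575 178 .s1 (.nx 576 257 (.l1 (.ls 79
  29 374)) (.nr 581 741457 (.nr 579 16385 (.lg 0 true 3 73 73 23 0 720) (.nx 580 13005 (.lg 0 true
  1 73 73 19 0 48) .out)) .out))) .out) .out) (.na 594 214 (.nx 593 832257 (.nr 592 1048577 (.nr
  585 182 .s1 (.nx 588 13005 (.nx 586 257 (.l1 (.ls 73 37 365)) (.nr 587 741457 (.lg 0 true 1 89 89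
  31 0 65520) .out)) (.nr 591 16385 (.nr 589 1025 (.lg 0 true 1 67 67 31 0 4368) (.nx 590 104033
  (.lg 2 false 1 61 61 31 12275 21840) .out)) .out))) .out) .out) (.nx 601 832257 (.nr 600 1048577
  (.nr 595 214 .s1 (.nx 596 257 (.l1 (.ls 73 29 311)) (.nr 599 741457 (.nr 597 16385 (.lg 0 false 1
  73 73 23 0 48) (.nx 598 13005 (.lg 0 true 1 73 73 23 0 48) .out)) .out))) .out) .out)))) (.na 626
  254 (.na 610 242 (.nx 609 832257 (.nr 608 1048577 (.nr 603 226 .s1 (.nx 604 257 (.l1 (.ls 61 29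
  295)) (.nr 607 741457 (.nr 605 16385 (.lg 0 false 1 73 73 23 0 48) (.nx 606 13005 (.lg 0 true 1
  73 73 23 0 1680) .out)) .out))) .out) .out) (.na 618 250 (.nx 617 832257 (.nr 616 1048577 (.nr
  611 242 .s1 (.nx 612 257 (.l1 (.ls 67 31 275)) (.nr 615 741457 (.nr 613 16385 (.lg 0 false 1 79
  79 29 0 2640) (.nx 614 13005 (.lg 0 true 1 73 73 29 0 2640) .out)) .out))) .out) .out) (.nx 625
  832257 (.nr 624 1048577 (.nr 619 250 .s1 (.nx 620 257 (.l1 (.ls 61 31 267)) (.nr 623 741457 (.nr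
  621 16385 (.lg 0 false 1 73 73 29 0 240) (.nx 622 13005 (.lg 0 true 1 73 73 29 0 240) .out))
  .out))) .out) .out))) (.na 635 257 (.na 634 256 (.nx 633 832257 (.nr 632 1048577 (.nr 627 254 .s1
  (.nx 628 257 (.l1 (.ls 79 29 263)) (.nr 631 741457 (.nr 629 16385 (.lg 0 false 1 73 73 23 0 48)
  (.nx 630 13005 (.lg 0 true 1 73 73 23 0 48) .out)) .out))) .out) .out) .ne) (.na 1405 512 (.nx
  1404 832257 (.nr 1403 1482912 (.nr 636 257 .s1 (.nx 891 205 (.la (.ls 89 19 166)) (.nr 1402
  1048577 (.nr 1146 32769 (.la (.lg 0 false 1 73 73 23 0)) (.nx 1401 10323 (.la (.lg 0 true 1 71 71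
  23 0)) .out)) .out))) .out) .out) (.nx 2040 832257 (.nr 2039 1482912 (.nr 1406 512 .s1 (.nx 1546
  140 (.nx 1545 139 (.nr 1544 6055 (.lx (.lp 43 19 182)) (.l1 .sk)) (.l1 .sk)) (.nx 1825 10323 (.nx
  1611 205 (.lx (.lp 83 17 182)) (.nr 1824 1048577 (.la (.lg 0 false 1 61 61 29 0)) .out)) (.nr
  2038 32769 (.la (.lg 2 true 1 59 59 29 112973)) .out)))) .out) .out))))) (.na 10534 8192 (.na
  4099 2048 (.na 2643 1024 (.nx 2642 10323 (.nr 2641 1048577 (.nr 2042 725 .s1 (.nx 2341 2049 (.la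
  (.ls 67 37 5793)) (.nr 2640 16385 (.la (.lg 0 true 1 37 37 29 0)) .out))) .out) .out) (.na 3497
  1449 (.nx 3496 10323 (.nr 3495 1048577 (.nr 2644 1024 .s1 (.nx 3069 2582 (.la (.ls 89 41 6513))
  (.nr 3494 16385 (.la (.lg 0 false 1 29 29 31 0)) .out))) .out) .out) (.nx 4098 2582 (.nr 4097
  524289 (.nr 3498 1449 .s1 (.la (.ls 79 37 4603))) .out) .out))) (.na 6153 4096 (.na 4951 2897
  (.nx 4950 3252 (.nr 4949 524289 (.nr 4100 2048 .s1 (.la (.ls 73 41 5166))) .out) .out) (.nx 6152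
  2582 (.nr 6151 262145 (.nr 4952 2897 .s1 (.la (.ls 61 37 2304))) .out) .out)) (.na 7993 5793 (.nx
  7992 2582 (.nr 7991 262145 (.nr 6154 4096 .s1 (.nx 6293 139 (.nr 6292 48382 (.lx (.lp 16 0 1449))
  (.l1 .sk)) (.nx 6294 140 (.l1 .sk) (.la (.ls 59 37 1625))))) .out) .out) (.nx 10533 1292 (.nr
  10532 65537 (.nr 7994 5793 .s1 (.nx 8132 139 (.lx (.lp 16 0 2049)) (.nx 8133 140 (.l1 .sk) (.la
  (.ls 43 37 2049))))) .out) .out)))) (.na 14152 65536 (.na 11829 16384 (.nx 11828 1292 (.nr 11827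
  131073 (.nr 10535 8192 .s1 (.nx 10739 205 (.lx (.lp 16 0 4097)) (.nr 11826 65537 (.lx (.lp 43 41
  4097)) .out))) .out) .out) (.na 13124 32768 (.nx 13123 1292 (.nr 13122 262145 (.nr 11830 16384
  .s1 (.nx 12151 322 (.lx (.lp 16 0 8193)) (.nr 13121 131073 (.lx (.lp 43 43 8193)) .out))) .out)
  .out) (.nx 14151 1025 (.nr 14150 262145 (.nr 13125 32768 .s1 (.nx 13329 205 (.lx (.lp 16 0
  16385)) (.nr 14149 131073 (.lx (.lp 41 47 16385)) .out))) .out) .out))) (.na 15182 262144 (.na
  15180 131072 (.nx 15179 1025 (.nr 15178 262145 (.nr 14153 65536 .s1 (.nx 14476 324 (.lx (.lp 16 0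
  32769)) (.nr 15177 131073 (.lx (.lp 41 53 32769)) .out))) .out) .out) (.nx 15181 324 (.l1 .sk)
  .out)) (.na 15184 524289 (.nx 15183 205 (.l1 .sk) .out) .out))))))

theorem c100 :
    OkQ ckI L9 199 1 5 0 34359738368 1 1099511627776 ∧
    OkQ ckI L10 241 3 167 0 34359738368 1 1099511627776 ∧
    OkQ ckI L8 139 1 1099511627776 0 34359738368 1 1099511627776 := by
  refine ⟨?_, ?_, ?_⟩
  · refine fin 24 905 T100_0 ?_
    refine jn 8 (by decide +kernel) ?_
    refine jn 13 (by decide +kernel) ?_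
    refine jn 16 (by decide +kernel) ?_
    refine jn 20 (by decide +kernel) ?_
    refine jn 24 (by decide +kernel) ?_
    refine jn 28 (by decide +kernel) ?_
    refine jn 32 (by decide +kernel) ?_
    refine jn 35 (by decide +kernel) ?_
    refine jn 40 (by decide +kernel) ?_
    refine jn 44 (by decide +kernel) ?_
    refine jn 49 (by decide +kernel) ?_
    refine jn 54 (by decide +kernel) ?_
    refine jn 58 (by decide +kernel) ?_
    refine jn 62 (by decide +kernel) ?_
    refine jn 66 (by decide +kernel) ?_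
    refine jn 70 (by decide +kernel) ?_
    refine jn 74 (by decide +kernel) ?_
    refine jn 77 (by decide +kernel) ?_
    refine jn 82 (by decide +kernel) ?_
    refine jn 86 (by decide +kernel) ?_
    refine jn 108 (by decide +kernel) ?_
    refine jn 123 (by decide +kernel) ?_
    refine jn 132 (by decide +kernel) ?_
    refine jn 141 (by decide +kernel) ?_
    refine jn 151 (by decide +kernel) ?_
    refine jn 160 (by decide +kernel) ?_
    refine jn 167 (by decide +kernel) ?_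
    refine jn 178 (by decide +kernel) ?_
    refine jn 204 (by decide +kernel) ?_
    refine jn 225 (by decide +kernel) ?_
    refine jn 244 (by decide +kernel) ?_
    refine jn 266 (by decide +kernel) ?_
    refine jn 289 (by decide +kernel) ?_
    refine jn 309 (by decide +kernel) ?_
    refine jn 322 (by decide +kernel) ?_
    refine jn 340 (by decide +kernel) ?_
    refine jn 352 (by decide +kernel) ?_
    refine jn 378 (by decide +kernel) ?_
    refine jn 389 (by decide +kernel) ?_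
    refine jn 401 (by decide +kernel) ?_
    refine jn 406 (by decide +kernel) ?_
    refine jn 412 (by decide +kernel) ?_
    refine jn 417 (by decide +kernel) ?_
    refine jn 425 (by decide +kernel) ?_
    refine jn 430 (by decide +kernel) ?_
    refine jn 447 (by decide +kernel) ?_
    refine jn 470 (by decide +kernel) ?_
    refine jn 481 (by decide +kernel) ?_
    refine jn 493 (by decide +kernel) ?_
    refine jn 504 (by decide +kernel) ?_
    refine jn 532 (by decide +kernel) ?_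
    refine jn 538 (by decide +kernel) ?_
    refine jn 566 (by decide +kernel) ?_
    refine jn 571 (by decide +kernel) ?_
    refine jn 598 (by decide +kernel) ?_
    refine jn 613 (by decide +kernel) ?_
    refine jn 622 (by decide +kernel) ?_
    refine jn 640 (by decide +kernel) ?_
    refine jn 654 (by decide +kernel) ?_
    refine jn 665 (by decide +kernel) ?_
    refine jn 683 (by decide +kernel) ?_
    refine jn 706 (by decide +kernel) ?_
    refine jn 708 (by decide +kernel) ?_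
    refine jn 710 (by decide +kernel) ?_
    refine jn 712 (by decide +kernel) ?_
    refine jn 715 (by decide +kernel) ?_
    refine jn 717 (by decide +kernel) ?_
    refine jn 719 (by decide +kernel) ?_
    refine jn 722 (by decide +kernel) ?_
    refine jn 723 (by decide +kernel) ?_
    refine jn 726 (by decide +kernel) ?_
    refine jn 728 (by decide +kernel) ?_
    refine jn 730 (by decide +kernel) ?_
    refine jn 733 (by decide +kernel) ?_
    refine jn 735 (by decide +kernel) ?_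
    refine jn 738 (by decide +kernel) ?_
    refine jn 750 (by decide +kernel) ?_
    refine jn 753 (by decide +kernel) ?_
    refine jn 755 (by decide +kernel) ?_
    refine jn 758 (by decide +kernel) ?_
    refine jn 760 (by decide +kernel) ?_
    refine jn 762 (by decide +kernel) ?_
    refine jn 771 (by decide +kernel) ?_
    refine jn 776 (by decide +kernel) ?_
    refine jn 783 (by decide +kernel) ?_
    refine jn 788 (by decide +kernel) ?_
    refine jn 795 (by decide +kernel) ?_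
    refine jn 799 (by decide +kernel) ?_
    refine jn 806 (by decide +kernel) ?_
    refine jn 810 (by decide +kernel) ?_
    refine jn 821 (by decide +kernel) ?_
    refine jn 833 (by decide +kernel) ?_
    refine jn 842 (by decide +kernel) ?_
    refine jn 845 (by decide +kernel) ?_
    refine jn 850 (by decide +kernel) ?_
    refine jn 890 (by decide +kernel) ?_
    refine jn 901 (by decide +kernel) ?_
    exact je (by decide +kernel)
  · refine fin 24 1298 T100_1 ?_
    refine jn 6 (by decide +kernel) ?_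
    refine jn 8 (by decide +kernel) ?_
    refine jn 10 (by decide +kernel) ?_
    refine jn 12 (by decide +kernel) ?_
    refine jn 14 (by decide +kernel) ?_
    refine jn 16 (by decide +kernel) ?_
    refine jn 30 (by decide +kernel) ?_
    refine jn 42 (by decide +kernel) ?_
    refine jn 46 (by decide +kernel) ?_
    refine jn 51 (by decide +kernel) ?_
    refine jn 60 (by decide +kernel) ?_
    refine jn 65 (by decide +kernel) ?_
    refine jn 77 (by decide +kernel) ?_
    refine jn 88 (by decide +kernel) ?_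
    refine jn 99 (by decide +kernel) ?_
    refine jn 103 (by decide +kernel) ?_
    refine jn 114 (by decide +kernel) ?_
    refine jn 124 (by decide +kernel) ?_
    refine jn 127 (by decide +kernel) ?_
    refine jn 136 (by decide +kernel) ?_
    refine jn 145 (by decide +kernel) ?_
    refine jn 187 (by decide +kernel) ?_
    refine jn 198 (by decide +kernel) ?_
    refine jn 201 (by decide +kernel) ?_
    refine jn 205 (by decide +kernel) ?_
    refine jn 207 (by decide +kernel) ?_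
    refine jn 215 (by decide +kernel) ?_
    refine jn 220 (by decide +kernel) ?_
    refine jn 224 (by decide +kernel) ?_
    refine jn 233 (by decide +kernel) ?_
    refine jn 246 (by decide +kernel) ?_
    refine jn 260 (by decide +kernel) ?_
    refine jn 273 (by decide +kernel) ?_
    refine jn 282 (by decide +kernel) ?_
    refine jn 291 (by decide +kernel) ?_
    refine jn 303 (by decide +kernel) ?_
    refine jn 307 (by decide +kernel) ?_
    refine jn 310 (by decide +kernel) ?_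
    refine jn 313 (by decide +kernel) ?_
    refine jn 317 (by decide +kernel) ?_
    refine jn 324 (by decide +kernel) ?_
    refine jn 332 (by decide +kernel) ?_
    refine jn 335 (by decide +kernel) ?_
    refine jn 347 (by decide +kernel) ?_
    refine jn 351 (by decide +kernel) ?_
    refine jn 363 (by decide +kernel) ?_
    refine jn 376 (by decide +kernel) ?_
    refine jn 385 (by decide +kernel) ?_
    refine jn 396 (by decide +kernel) ?_
    refine jn 401 (by decide +kernel) ?_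
    refine jn 406 (by decide +kernel) ?_
    refine jn 415 (by decide +kernel) ?_
    refine jn 421 (by decide +kernel) ?_
    refine jn 422 (by decide +kernel) ?_
    refine jn 435 (by decide +kernel) ?_
    refine jn 449 (by decide +kernel) ?_
    refine jn 461 (by decide +kernel) ?_
    refine jn 470 (by decide +kernel) ?_
    refine jn 483 (by decide +kernel) ?_
    refine jn 487 (by decide +kernel) ?_
    refine jn 492 (by decide +kernel) ?_
    refine jn 499 (by decide +kernel) ?_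
    refine jn 506 (by decide +kernel) ?_
    refine jn 516 (by decide +kernel) ?_
    refine jn 527 (by decide +kernel) ?_
    refine jn 536 (by decide +kernel) ?_
    refine jn 543 (by decide +kernel) ?_
    refine jn 550 (by decide +kernel) ?_
    refine jn 561 (by decide +kernel) ?_
    refine jn 576 (by decide +kernel) ?_
    refine jn 582 (by decide +kernel) ?_
    refine jn 590 (by decide +kernel) ?_
    refine jn 599 (by decide +kernel) ?_
    refine jn 610 (by decide +kernel) ?_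
    refine jn 622 (by decide +kernel) ?_
    refine jn 632 (by decide +kernel) ?_
    refine jn 641 (by decide +kernel) ?_
    refine jn 656 (by decide +kernel) ?_
    refine jn 660 (by decide +kernel) ?_
    refine jn 668 (by decide +kernel) ?_
    refine jn 679 (by decide +kernel) ?_
    refine jn 689 (by decide +kernel) ?_
    refine jn 690 (by decide +kernel) ?_
    refine jn 691 (by decide +kernel) ?_
    refine jn 692 (by decide +kernel) ?_
    refine jn 693 (by decide +kernel) ?_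
    refine jn 697 (by decide +kernel) ?_
    refine jn 698 (by decide +kernel) ?_
    refine jn 700 (by decide +kernel) ?_
    refine jn 703 (by decide +kernel) ?_
    refine jn 718 (by decide +kernel) ?_
    refine jn 726 (by decide +kernel) ?_
    refine jn 739 (by decide +kernel) ?_
    refine jn 744 (by decide +kernel) ?_
    refine jn 754 (by decide +kernel) ?_
    refine jn 767 (by decide +kernel) ?_
    refine jn 771 (by decide +kernel) ?_
    refine jn 780 (by decide +kernel) ?_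
    refine jn 797 (by decide +kernel) ?_
    refine jn 806 (by decide +kernel) ?_
    refine jn 819 (by decide +kernel) ?_
    refine jn 827 (by decide +kernel) ?_
    refine jn 840 (by decide +kernel) ?_
    refine jn 847 (by decide +kernel) ?_
    refine jn 855 (by decide +kernel) ?_
    refine jn 867 (by decide +kernel) ?_
    refine jn 876 (by decide +kernel) ?_
    refine jn 885 (by decide +kernel) ?_
    refine jn 887 (by decide +kernel) ?_
    refine jn 892 (by decide +kernel) ?_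
    refine jn 894 (by decide +kernel) ?_
    refine jn 897 (by decide +kernel) ?_
    refine jn 909 (by decide +kernel) ?_
    refine jn 916 (by decide +kernel) ?_
    refine jn 932 (by decide +kernel) ?_
    refine jn 944 (by decide +kernel) ?_
    refine jn 951 (by decide +kernel) ?_
    refine jn 958 (by decide +kernel) ?_
    refine jn 971 (by decide +kernel) ?_
    refine jn 974 (by decide +kernel) ?_
    refine jn 977 (by decide +kernel) ?_
    refine jn 989 (by decide +kernel) ?_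
    refine jn 996 (by decide +kernel) ?_
    refine jn 1010 (by decide +kernel) ?_
    refine jn 1022 (by decide +kernel) ?_
    refine jn 1034 (by decide +kernel) ?_
    refine jn 1041 (by decide +kernel) ?_
    refine jn 1044 (by decide +kernel) ?_
    refine jn 1056 (by decide +kernel) ?_
    refine jn 1073 (by decide +kernel) ?_
    refine jn 1089 (by decide +kernel) ?_
    refine jn 1104 (by decide +kernel) ?_
    refine jn 1115 (by decide +kernel) ?_
    refine jn 1120 (by decide +kernel) ?_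
    refine jn 1132 (by decide +kernel) ?_
    refine jn 1143 (by decide +kernel) ?_
    refine jn 1144 (by decide +kernel) ?_
    refine jn 1145 (by decide +kernel) ?_
    refine jn 1146 (by decide +kernel) ?_
    refine jn 1161 (by decide +kernel) ?_
    refine jn 1175 (by decide +kernel) ?_
    refine jn 1190 (by decide +kernel) ?_
    refine jn 1209 (by decide +kernel) ?_
    refine jn 1223 (by decide +kernel) ?_
    refine jn 1237 (by decide +kernel) ?_
    refine jn 1250 (by decide +kernel) ?_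
    refine jn 1259 (by decide +kernel) ?_
    refine jn 1266 (by decide +kernel) ?_
    refine jn 1279 (by decide +kernel) ?_
    refine jn 1292 (by decide +kernel) ?_
    exact je (by decide +kernel)
  · refine fin 24 15185 T100_2 ?_
    refine jn 10 (by decide +kernel) ?_
    refine jn 16 (by decide +kernel) ?_
    refine jn 22 (by decide +kernel) ?_
    refine jn 28 (by decide +kernel) ?_
    refine jn 34 (by decide +kernel) ?_
    refine jn 40 (by decide +kernel) ?_
    refine jn 47 (by decide +kernel) ?_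
    refine jn 55 (by decide +kernel) ?_
    refine jn 63 (by decide +kernel) ?_
    refine jn 71 (by decide +kernel) ?_
    refine jn 76 (by decide +kernel) ?_
    refine jn 87 (by decide +kernel) ?_
    refine jn 114 (by decide +kernel) ?_
    refine jn 140 (by decide +kernel) ?_
    refine jn 170 (by decide +kernel) ?_
    refine jn 192 (by decide +kernel) ?_
    refine jn 213 (by decide +kernel) ?_
    refine jn 218 (by decide +kernel) ?_
    refine jn 220 (by decide +kernel) ?_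
    refine jn 222 (by decide +kernel) ?_
    refine jn 224 (by decide +kernel) ?_
    refine jn 232 (by decide +kernel) ?_
    refine jn 238 (by decide +kernel) ?_
    refine jn 242 (by decide +kernel) ?_
    refine jn 249 (by decide +kernel) ?_
    refine jn 256 (by decide +kernel) ?_
    refine jn 266 (by decide +kernel) ?_
    refine jn 277 (by decide +kernel) ?_
    refine jn 280 (by decide +kernel) ?_
    refine jn 283 (by decide +kernel) ?_
    refine jn 291 (by decide +kernel) ?_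
    refine jn 294 (by decide +kernel) ?_
    refine jn 303 (by decide +kernel) ?_
    refine jn 318 (by decide +kernel) ?_
    refine jn 323 (by decide +kernel) ?_
    refine jn 328 (by decide +kernel) ?_
    refine jn 336 (by decide +kernel) ?_
    refine jn 341 (by decide +kernel) ?_
    refine jn 351 (by decide +kernel) ?_
    refine jn 354 (by decide +kernel) ?_
    refine jn 363 (by decide +kernel) ?_
    refine jn 375 (by decide +kernel) ?_
    refine jn 379 (by decide +kernel) ?_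
    refine jn 385 (by decide +kernel) ?_
    refine jn 396 (by decide +kernel) ?_
    refine jn 408 (by decide +kernel) ?_
    refine jn 419 (by decide +kernel) ?_
    refine jn 422 (by decide +kernel) ?_
    refine jn 423 (by decide +kernel) ?_
    refine jn 424 (by decide +kernel) ?_
    refine jn 425 (by decide +kernel) ?_
    refine jn 426 (by decide +kernel) ?_
    refine jn 427 (by decide +kernel) ?_
    refine jn 430 (by decide +kernel) ?_
    refine jn 444 (by decide +kernel) ?_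
    refine jn 459 (by decide +kernel) ?_
    refine jn 474 (by decide +kernel) ?_
    refine jn 488 (by decide +kernel) ?_
    refine jn 500 (by decide +kernel) ?_
    refine jn 503 (by decide +kernel) ?_
    refine jn 514 (by decide +kernel) ?_
    refine jn 525 (by decide +kernel) ?_
    refine jn 539 (by decide +kernel) ?_
    refine jn 548 (by decide +kernel) ?_
    refine jn 559 (by decide +kernel) ?_
    refine jn 579 (by decide +kernel) ?_
    refine jn 587 (by decide +kernel) ?_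
    refine jn 598 (by decide +kernel) ?_
    refine jn 614 (by decide +kernel) ?_
    refine jn 630 (by decide +kernel) ?_
    refine jn 789 (by decide +kernel) ?_
    refine jn 908 (by decide +kernel) ?_
    refine jn 920 (by decide +kernel) ?_
    refine jn 924 (by decide +kernel) ?_
    refine jn 944 (by decide +kernel) ?_
    refine jn 968 (by decide +kernel) ?_
    refine jn 984 (by decide +kernel) ?_
    refine jn 1004 (by decide +kernel) ?_
    refine jn 1020 (by decide +kernel) ?_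
    refine jn 1044 (by decide +kernel) ?_
    refine jn 1104 (by decide +kernel) ?_
    refine jn 1124 (by decide +kernel) ?_
    refine jn 1163 (by decide +kernel) ?_
    refine jn 1175 (by decide +kernel) ?_
    refine jn 1199 (by decide +kernel) ?_
    refine jn 1227 (by decide +kernel) ?_
    refine jn 1251 (by decide +kernel) ?_
    refine jn 1275 (by decide +kernel) ?_
    refine jn 1311 (by decide +kernel) ?_
    refine jn 1367 (by decide +kernel) ?_
    refine jn 1406 (by decide +kernel) ?_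
    refine jn 1617 (by decide +kernel) ?_
    refine jn 1649 (by decide +kernel) ?_
    refine jn 1673 (by decide +kernel) ?_
    refine jn 1737 (by decide +kernel) ?_
    refine jn 1757 (by decide +kernel) ?_
    refine jn 1781 (by decide +kernel) ?_
    refine jn 1797 (by decide +kernel) ?_
    refine jn 1831 (by decide +kernel) ?_
    refine jn 1863 (by decide +kernel) ?_
    refine jn 1921 (by decide +kernel) ?_
    refine jn 1963 (by decide +kernel) ?_
    refine jn 1983 (by decide +kernel) ?_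
    refine jn 2007 (by decide +kernel) ?_
    refine jn 2031 (by decide +kernel) ?_
    refine jn 2123 (by decide +kernel) ?_
    refine jn 2227 (by decide +kernel) ?_
    refine jn 2350 (by decide +kernel) ?_
    refine jn 2406 (by decide +kernel) ?_
    refine jn 2482 (by decide +kernel) ?_
    refine jn 2538 (by decide +kernel) ?_
    refine jn 2654 (by decide +kernel) ?_
    refine jn 2750 (by decide +kernel) ?_
    refine jn 2866 (by decide +kernel) ?_
    refine jn 3010 (by decide +kernel) ?_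
    refine jn 3115 (by decide +kernel) ?_
    refine jn 3183 (by decide +kernel) ?_
    refine jn 3271 (by decide +kernel) ?_
    refine jn 3355 (by decide +kernel) ?_
    refine jn 3475 (by decide +kernel) ?_
    refine jn 3547 (by decide +kernel) ?_
    refine jn 3731 (by decide +kernel) ?_
    refine jn 3839 (by decide +kernel) ?_
    refine jn 3971 (by decide +kernel) ?_
    refine jn 4097 (by decide +kernel) ?_
    refine jn 4270 (by decide +kernel) ?_
    refine jn 4426 (by decide +kernel) ?_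
    refine jn 4594 (by decide +kernel) ?_
    refine jn 4778 (by decide +kernel) ?_
    refine jn 4930 (by decide +kernel) ?_
    refine jn 5125 (by decide +kernel) ?_
    refine jn 5345 (by decide +kernel) ?_
    refine jn 5525 (by decide +kernel) ?_
    refine jn 5717 (by decide +kernel) ?_
    refine jn 5921 (by decide +kernel) ?_
    refine jn 6125 (by decide +kernel) ?_
    refine jn 6436 (by decide +kernel) ?_
    refine jn 6672 (by decide +kernel) ?_
    refine jn 6904 (by decide +kernel) ?_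
    refine jn 7164 (by decide +kernel) ?_
    refine jn 7416 (by decide +kernel) ?_
    refine jn 7636 (by decide +kernel) ?_
    refine jn 7888 (by decide +kernel) ?_
    refine jn 8254 (by decide +kernel) ?_
    refine jn 8626 (by decide +kernel) ?_
    refine jn 9022 (by decide +kernel) ?_
    refine jn 9382 (by decide +kernel) ?_
    refine jn 9766 (by decide +kernel) ?_
    refine jn 10169 (by decide +kernel) ?_
    refine jn 10535 (by decide +kernel) ?_
    refine jn 10938 (by decide +kernel) ?_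
    refine jn 11133 (by decide +kernel) ?_
    refine jn 11267 (by decide +kernel) ?_
    refine jn 11373 (by decide +kernel) ?_
    refine jn 11457 (by decide +kernel) ?_
    refine jn 11535 (by decide +kernel) ?_
    refine jn 11603 (by decide +kernel) ?_
    refine jn 11670 (by decide +kernel) ?_
    refine jn 11735 (by decide +kernel) ?_
    refine jn 11793 (by decide +kernel) ?_
    refine jn 12107 (by decide +kernel) ?_
    refine jn 12367 (by decide +kernel) ?_
    refine jn 12567 (by decide +kernel) ?_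
    refine jn 12734 (by decide +kernel) ?_
    refine jn 12870 (by decide +kernel) ?_
    refine jn 12984 (by decide +kernel) ?_
    refine jn 13086 (by decide +kernel) ?_
    refine jn 13568 (by decide +kernel) ?_
    refine jn 13837 (by decide +kernel) ?_
    refine jn 13999 (by decide +kernel) ?_
    refine jn 14476 (by decide +kernel) ?_
    refine jn 14963 (by decide +kernel) ?_
    refine jn 15161 (by decide +kernel) ?_
    exact je (by decide +kernel)

end Pool.Agent.MP_2339ce_nt.NR
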