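import Pool.Agent.MP_2339ce_nt.Q2.NC.L6
import Pool.Agent.MP_2339ce_nt.Q2.NC.L10
import Pool.Agent.MP_2339ce_nt.Q2.CkI

/-! Block NR: runs. -/

set_option autoImplicit false
set_option maxRecDepth 100000

noncomputable section

namespace Pool.Agent.MP_2339ce_nt.NR

open Q2.Top

def T101_0 : Ph :=
  (.na 805 126 (.na 586 46 (.na 421 18 (.na 243 6 (.na 117 3 (.na 1 2 .ne (.nx 116 3329023 (.nr 115
  623489 (.nx 96 1321124 (.nx 3 84 (.nr 2 18 (.lg 0 true 1 31 31 5 0 336) (.l1 .sk)) (.nx 4 85 (.l1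
  .sk) (.nr 82 77937 (.nr 76 65537 (.nx 17 9555 (.lg 0 false 13 101 101 9 0 65520) (.nr 43 257 (.lg
  0 true 26 83 83 11 0 4368) (.nx 75 165142 (.nr 48 1100 (.lg 2 true 5 79 79 9 26989 1680) (.nx 61
  20644 (.lg 1 false 13 97 101 9 24231 65520) (.nr 74 46342 (.lg 2 false 13 97 101 9 7935 65520)
  .out))) .out))) (.nx 81 1292 (.lg 0 false 5 79 79 9 0 1680) .out)) (.nx 95 205 (.lg 0 false 13 79
  79 9 0 4368) .out)))) (.nr 114 9 (.lg 0 true 18 71 71 9 0 1008) .out)) .out) .out)) (.na 118 4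
  .ne (.na 242 5 (.nx 241 10568985 (.nr 240 1246976 (.nx 121 85 (.nx 120 84 (.nr 119 32 (.lg 0 true
  1 31 31 9 0 5040) (.l1 .sk)) (.l1 .sk)) (.nx 202 1321124 (.nx 188 330282 (.nx 154 10321 (.nr 134
  55110 (.lg 0 false 13 89 97 13 0 65520) (.nx 153 1292 (.nr 139 155873 (.lg 0 false 5 89 89 11 0
  1680) (.nx 152 205 (.lg 0 false 13 79 83 13 0 4368) .out)) .out)) (.nr 187 65537 (.nr 169 1352
  (.nr 167 694 (.lg 0 true 13 83 83 13 0 4368) (.lg 2 false 2 83 83 9 19989 5040)) (.nx 174 20642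
  (.lg 1 false 5 97 101 11 22433 55440) (.lg 2 false 13 97 103 13 11216 720720))) .out)) (.nr 201
  183 (.lg 0 true 13 83 83 13 0 4368) .out)) (.nr 239 21 (.nx 213 2642247 (.lg 0 true 11 73 73 11 0
  3696) (.lg 0 true 26 79 79 11 0 4368)) .out))) .out) .out) .ne))) (.na 343 12 (.na 292 7 (.nx 291
  1321124 (.nr 290 220437 (.nx 246 85 (.nx 245 84 (.nr 244 45 (.lg 0 true 1 29 29 7 0 5040) (.l1
  .sk)) (.l1 .sk)) (.nr 284 55110 (.nx 257 11394 (.lg 0 false 11 89 89 13 0 55440) (.nr 270 501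
  (.lg 0 true 13 83 83 13 0 13104) (.nx 283 416129 (.nr 272 977 (.lg 2 false 2 73 73 7 34886 5040)
  (.lg 2 false 11 89 97 13 17889 55440)) .out))) (.nx 289 1292 (.lg 0 false 5 83 83 11 0 5040)
  .out))) .out) .out) (.na 293 10 .ne (.nx 342 1321124 (.nr 341 623489 (.nr 294 5 .s1 (.nx 296 84
  (.nr 295 78 (.lg 0 true 1 29 29 11 0 55440) (.l1 .sk)) (.nx 297 85 (.l1 .sk) (.nx 333 330282 (.nr
  327 77937 (.nr 299 374 (.lg 0 false 2 83 83 11 0 55440) (.nx 326 165142 (.nr 303 6576 (.nx 300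
  3529 (.lg 0 true 1 79 79 11 0 1680) (.lg 2 false 3 79 79 13 18546 5040)) (.nx 312 26009 (.lg 0
  false 9 97 103 17 0 720720) (.nr 325 46342 (.nr 317 27556 (.lg 2 true 5 67 67 13 3750 1680) (.nx
  324 104033 (.nx 321 65537 (.lg 0 true 4 97 101 13 0 55440) (.nr 323 32769 (.lg 0 true 2 89 89 11
  0 1680) .out)) .out)) .out))) .out)) (.nx 332 814 (.lg 0 false 5 83 83 13 0 1680) .out)) (.nr 340
  65 (.lg 0 true 7 71 71 13 0 1680) .out))))) .out) .out))) (.na 381 14 (.nx 380 1321124 (.nr 379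
  623489 (.nr 344 8 .s1 (.nx 373 330282 (.nx 346 84 (.nr 345 91 (.lg 0 false 1 29 29 13 0 55440)
  (.l1 .sk)) (.nx 347 85 (.l1 .sk) (.nr 367 92683 (.nx 352 9557 (.lg 0 false 5 89 89 17 0 5040)
  (.nr 366 65537 (.nr 357 766 (.lg 0 true 5 79 79 17 0 5040) (.nx 365 165142 (.nx 359 20644 (.lg 1
  true 2 89 89 13 24226 55440) (.nr 364 55110 (.lg 2 false 5 83 89 17 9433 5040) .out)) .out))
  .out)) (.nx 372 814 (.lg 0 false 5 83 83 17 0 5040) .out)))) (.nr 378 65 (.lg 0 true 5 67 67 17 0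
  5040) .out))) .out) .out) (.na 420 16 (.nx 419 1321124 (.nr 418 623489 (.nr 382 11 .s1 (.nx 384
  84 (.nr 383 104 (.l1 (.ls 17 31 506)) (.l1 .sk)) (.nx 385 85 (.l1 .sk) (.nx 386 324 (.l1 (.ls 79
  47 6985)) (.nr 417 220437 (.nx 397 9557 (.lg 0 false 11 79 83 13 0 3696) (.nr 416 65537 (.nr 410
  374 (.lg 0 true 13 71 71 17 0 4368) (.nx 415 165142 (.lg 2 false 5 83 83 13 24226 1680) .out))
  .out)) .out))))) .out) .out) .ne)))) (.na 517 32 (.na 477 23 (.na 422 20 (.lg 0 false 1 0 0 7 0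
  24) (.na 447 22 (.nx 446 1321124 (.nr 445 1048577 (.nr 423 18 .s1 (.nx 440 165142 (.nx 427 205
  (.nx 425 84 (.nr 424 143 (.l1 (.ls 29 31 355)) (.l1 .sk)) (.nx 426 85 (.l1 .sk) (.l1 (.ls 89 41
  1743)))) (.nr 439 623489 (.nx 428 324 (.l1 (.ls 83 43 3150)) (.nr 438 220437 (.nr 436 131073 (.nx
  431 8193 (.lg 0 false 3 89 89 19 0 5040) (.nr 435 65537 (.nr 432 1360 (.lg 0 false 1 83 83 13 0
  1680) (.nx 433 20644 (.lg 1 true 1 97 97 13 28259 5040) (.nr 434 38969 (.lg 2 true 1 89 89 13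
  6675 5040) .out))) .out)) (.nx 437 814 (.lg 0 false 1 73 73 13 0 1680) .out)) .out)) .out)) (.nr
  444 183 (.lg 0 true 4 73 73 19 0 1680) .out))) .out) .out) (.nx 476 1321124 (.nr 475 1048577 (.nr
  448 21 .s1 (.nx 452 205 (.nx 450 84 (.nr 449 150 (.l1 (.ls 23 31 323)) (.l1 .sk)) (.nx 451 85
  (.l1 .sk) (.l1 (.ls 83 41 1584)))) (.nr 474 623489 (.nx 453 324 (.l1 (.ls 79 43 2864)) (.nr 473
  220437 (.nx 458 5162 (.lg 0 false 5 83 83 19 0 18480) (.nr 472 92683 (.nr 469 32769 (.nr 463 498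
  (.lg 0 true 5 73 73 19 0 18480) (.nx 468 165142 (.lg 2 true 5 73 73 19 22456 18480) .out)) (.nx
  471 26009 (.lg 0 true 2 97 97 13 0 55440) .out)) .out)) .out)) .out))) .out) .out))) (.na 478 28
  .ne (.na 499 30 (.nx 498 1321124 (.nr 497 1048577 (.nr 479 27 .s1 (.nx 482 85 (.nx 481 84 (.nr
  480 195 (.l1 (.ls 19 29 254)) (.l1 .sk)) (.l1 .sk)) (.nx 483 205 (.l1 (.ls 79 41 1245)) (.nr 496
  185365 (.nx 488 16385 (.lg 0 false 5 83 89 19 0 5040) (.nr 495 38969 (.nr 493 513 (.lg 0 true 5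
  71 71 19 0 1680) (.nx 494 82572 (.lg 2 true 1 79 79 13 8410 336) .out)) .out)) .out)))) .out)
  .out) (.nx 516 1321124 (.nr 515 1048577 (.nr 500 29 .s1 (.nx 504 205 (.nx 502 84 (.nr 501 208
  (.l1 (.ls 23 31 238)) (.l1 .sk)) (.nx 503 85 (.l1 .sk) (.l1 (.ls 79 43 1163)))) (.nr 514 185365
  (.nx 507 16385 (.lg 0 false 3 89 89 23 0 5040) (.nr 513 38969 (.nr 511 513 (.lg 0 true 4 73 73 23
  0 5040) (.nx 512 82572 (.lg 2 true 1 83 83 19 8410 5040) .out)) .out)) .out))) .out) .out))))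
  (.na 537 38 (.na 518 34 .ne (.na 536 36 (.nx 535 1321124 (.nr 534 370729 (.nr 519 33 .s1 (.nx 527
  13005 (.nx 521 84 (.nr 520 234 (.l1 (.ls 16 29 210)) (.l1 .sk)) (.nx 522 85 (.l1 .sk) (.lg 0
  false 5 89 89 13 0 1680))) (.nr 533 23172 (.nr 531 234 (.lg 0 true 4 71 71 13 0 336) (.nx 532
  82572 (.lg 2 true 1 83 83 13 14821 336) .out)) .out))) .out) .out) (.lg 0 false 1 0 0 7 0 24)))
  (.na 554 42 (.nx 553 1321124 (.nr 552 370729 (.nr 538 37 .s1 (.nx 546 13005 (.nx 540 84 (.nr 539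
  273 (.l1 (.ls 17 29 188)) (.l1 .sk)) (.nx 541 85 (.l1 .sk) (.lg 0 false 5 89 89 17 0 5040))) (.nr
  551 23172 (.nr 549 217 (.lg 0 true 3 67 67 13 0 1008) (.nx 550 82572 (.lg 2 true 1 79 79 13 15982
  336) .out)) .out))) .out) .out) (.na 571 44 (.nx 570 1321124 (.nr 569 370729 (.nr 555 41 .s1 (.nx
  563 13005 (.nx 557 84 (.nr 556 286 (.lg 0 true 1 0 16 19 0 720720) (.l1 .sk)) (.nx 558 85 (.l1
  .sk) (.lg 0 false 5 79 79 23 0 5040))) (.nr 568 23172 (.nr 565 286 (.lg 0 false 2 71 71 19 0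
  5040) (.nx 567 82572 (.lg 2 true 2 67 67 19 12126 1008) .out)) .out))) .out) .out) (.nx 585
  1321124 (.nr 584 370729 (.nr 572 44 .s1 (.nx 577 6503 (.nx 574 84 (.nr 573 299 (.l1 (.ls 29 29
  163)) (.l1 .sk)) (.nx 575 85 (.l1 .sk) (.lg 0 false 2 89 89 23 0 3696))) (.nr 583 77937 (.nr 579
  217 (.lg 0 true 2 71 71 23 0 3696) (.nx 582 82572 (.nr 580 23172 (.lg 2 true 1 79 79 19 15982
  3696) (.nx 581 13005 (.lg 0 false 1 79 79 19 0 3696) .out)) .out)) .out))) .out) .out)))))) (.na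
  706 82 (.na 640 64 (.na 614 54 (.na 600 50 (.nx 599 1321124 (.nr 598 311745 (.nr 587 46 .s1 (.nx
  592 10323 (.nx 589 84 (.nr 588 325 (.l1 (.ls 19 19 156)) (.l1 .sk)) (.nx 590 85 (.l1 .sk) (.lg 0
  true 2 89 89 13 0 5040))) (.nr 597 23172 (.nr 595 325 (.lg 0 true 3 71 71 13 0 1008) (.nx 596
  82572 (.lg 2 true 1 73 73 13 10671 336) .out)) .out))) .out) .out) (.nx 613 1321124 (.nr 612
  311745 (.nr 601 50 .s1 (.nx 606 10323 (.nx 603 84 (.nr 602 351 (.l1 (.ls 19 23 144)) (.l1 .sk))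
  (.nx 604 85 (.l1 .sk) (.lg 0 true 2 83 83 19 0 5040))) (.nr 611 23172 (.nr 609 351 (.lg 0 true 3
  67 67 19 0 5040) (.nx 610 82572 (.lg 2 true 1 71 71 13 9881 1680) .out)) .out))) .out) .out))
  (.na 615 60 (.lg 0 false 1 0 0 16 0 24) (.na 628 62 (.nx 627 1321124 (.nr 626 311745 (.nr 616 60
  .s1 (.nx 621 10323 (.nx 618 84 (.nr 617 403 (.l1 (.ls 29 29 120)) (.l1 .sk)) (.nx 619 85 (.l1
  .sk) (.lg 0 false 2 83 89 29 0 5040))) (.nr 625 23172 (.nr 623 403 (.lg 0 true 2 71 71 29 0 5040)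
  (.nx 624 82572 (.lg 2 true 1 73 73 23 8606 5040) .out)) .out))) .out) .out) (.nx 639 1321124 (.nr
  638 311745 (.nr 629 62 .s1 (.nx 632 85 (.nx 631 84 (.nr 630 416 (.l1 (.ls 19 19 116)) (.l1 .sk))
  (.l1 .sk)) (.nx 634 10323 (.lg 0 true 2 89 89 17 0 5040) (.nr 637 23172 (.nr 635 217 (.lg 2 false
  1 73 73 13 894955 5040) (.nx 636 82572 (.lg 2 true 1 73 73 13 15982 336) .out)) .out)))) .out)
  .out)))) (.na 669 70 (.na 641 66 .ne (.na 656 68 (.nx 655 1321124 (.nr 654 524289 (.nr 642 66 .s1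
  (.nx 648 8193 (.nx 644 84 (.nr 643 442 (.l1 (.ls 23 29 109)) (.l1 .sk)) (.nx 645 85 (.l1 .sk)
  (.lg 0 false 3 83 83 29 0 11088))) (.nr 653 8193 (.nr 651 513 (.lg 0 true 3 67 67 29 0 11088)
  (.nx 652 82572 (.lg 2 true 1 61 61 23 6761 11088) .out)) .out))) .out) .out) (.nx 668 1321124
  (.nr 667 524289 (.nr 657 68 .s1 (.nx 662 8193 (.nx 659 84 (.nr 658 455 (.l1 (.ls 16 23 106)) (.l1
  .sk)) (.nx 660 85 (.l1 .sk) (.lg 0 false 2 89 89 23 0 336))) (.nr 666 8193 (.nr 664 513 (.lg 0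
  true 2 73 73 23 0 336) (.nx 665 82572 (.lg 2 false 1 67 67 13 6761 336) .out)) .out))) .out)
  .out))) (.na 681 74 (.nx 680 1321124 (.nr 679 524289 (.nr 670 70 .s1 (.nx 672 84 (.nr 671 481
  (.l1 (.ls 19 29 103)) (.l1 .sk)) (.nx 673 85 (.l1 .sk) (.nx 675 8193 (.lg 0 false 2 79 79 23 0
  1680) (.nr 678 8193 (.nr 676 513 (.lg 0 false 1 73 73 23 0 5040) (.nx 677 82572 (.lg 2 true 1 59
  59 23 6761 1680) .out)) .out))))) .out) .out) (.na 693 76 (.nx 692 1321124 (.nr 691 524289 (.nr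
  682 74 .s1 (.nx 687 8193 (.nx 684 84 (.nr 683 494 (.l1 (.ls 19 19 98)) (.l1 .sk)) (.nx 685 85
  (.l1 .sk) (.lg 0 false 2 79 79 19 0 336))) (.nr 690 8193 (.nr 688 513 (.lg 0 false 1 73 73 13 0
  336) (.nx 689 82572 (.lg 2 true 1 61 61 13 6761 336) .out)) .out))) .out) .out) (.nx 705 1321124
  (.nr 704 524289 (.nr 694 76 .s1 (.nx 696 84 (.nr 695 533 (.l1 (.ls 17 17 95)) (.l1 .sk)) (.nx 697
  85 (.l1 .sk) (.nx 699 8193 (.lg 0 false 2 89 89 23 0 336) (.nr 703 8193 (.nr 701 513 (.lg 0 true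
  2 71 71 23 0 336) (.nx 702 82572 (.lg 2 true 1 67 67 17 6761 336) .out)) .out))))) .out)
  .out))))) (.na 747 100 (.na 732 91 (.na 719 84 (.nx 718 1321124 (.nr 717 524289 (.nr 707 82 .s1
  (.nx 709 84 (.nr 708 546 (.l1 (.ls 19 19 89)) (.l1 .sk)) (.nx 710 85 (.l1 .sk) (.nx 712 8193 (.lg
  0 false 2 79 79 19 0 336) (.nr 716 8193 (.nr 714 513 (.lg 0 true 2 67 67 19 0 336) (.nx 715 82572
  (.lg 2 false 1 59 59 13 6761 336) .out)) .out))))) .out) .out) (.na 731 90 (.nx 730 1321124 (.nr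
  729 524289 (.nr 720 84 .s1 (.nx 722 84 (.nr 721 585 (.l1 (.ls 19 29 86)) (.l1 .sk)) (.nx 723 85
  (.l1 .sk) (.nx 725 8193 (.lg 0 false 2 79 79 29 0 1008) (.nr 728 8193 (.nr 726 585 (.lg 0 false 1
  73 73 23 0 5040) (.nx 727 82572 (.lg 2 true 1 59 59 23 5929 5040) .out)) .out))))) .out) .out)
  (.lg 0 false 1 0 0 16 0 24))) (.na 733 92 .ne (.na 746 98 (.nx 745 1321124 (.nr 744 524289 (.nr
  734 92 .s1 (.nx 736 84 (.nr 735 637 (.l1 (.ls 19 19 79)) (.l1 .sk)) (.nx 737 85 (.l1 .sk) (.nx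
  739 8193 (.lg 0 false 2 89 89 19 0 5040) (.nr 743 8193 (.nr 741 513 (.lg 0 true 2 71 71 19 0 336)
  (.nx 742 82572 (.lg 2 false 1 61 61 19 6761 336) .out)) .out))))) .out) .out) (.lg 0 false 1 0 0
  16 0 24)))) (.na 772 110 (.na 760 102 (.nx 759 1321124 (.nr 758 524289 (.nr 748 100 .s1 (.nx 750
  84 (.nr 749 663 (.l1 (.ls 29 23 73)) (.l1 .sk)) (.nx 751 85 (.l1 .sk) (.nx 753 8193 (.lg 0 false
  2 83 83 29 0 1680) (.nr 757 8193 (.nr 755 513 (.lg 0 true 2 67 67 29 0 1680) (.nx 756 82572 (.lg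
  2 false 1 61 61 23 6761 1680) .out)) .out))))) .out) .out) (.na 771 108 (.nx 770 1321124 (.nr 769
  524289 (.nr 761 102 .s1 (.nx 764 85 (.nx 763 84 (.nr 762 702 (.l1 (.ls 16 29 72)) (.l1 .sk)) (.l1
  .sk)) (.nx 765 8193 (.lg 0 true 1 83 83 29 0 1008) (.nr 768 8193 (.nr 766 513 (.lg 2 false 1 67
  67 29 543993 1008) (.nx 767 82572 (.lg 2 true 1 59 59 29 6761 5040) .out)) .out)))) .out) .out)
  (.lg 0 false 1 0 0 16 0 24))) (.na 783 114 (.nx 782 1321124 (.nr 781 524289 (.nr 773 110 .s1 (.nx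
  775 84 (.nr 774 741 (.l1 (.ls 29 29 67)) (.l1 .sk)) (.nx 776 85 (.l1 .sk) (.nx 777 8193 (.lg 0
  true 1 89 89 29 0 55440) (.nr 780 8193 (.nr 778 513 (.lg 2 true 1 67 67 29 504430 18480) (.nx 779
  82572 (.lg 2 false 1 61 61 29 6761 18480) .out)) .out))))) .out) .out) (.na 794 124 (.nx 793
  1321124 (.nr 792 524289 (.nr 784 114 .s1 (.nx 788 8193 (.nx 786 84 (.nr 785 806 (.l1 (.ls 17 29
  64)) (.l1 .sk)) (.nx 787 85 (.l1 .sk) (.lg 0 true 1 83 83 29 0 1008))) (.nr 791 8193 (.nr 789 513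
  (.lg 2 false 1 67 67 29 486730 5040) (.nx 790 82572 (.lg 2 true 1 59 59 29 6761 1008) .out))
  .out))) .out) .out) (.nx 804 1321124 (.nr 803 524289 (.nr 795 124 .s1 (.nx 798 85 (.nx 797 84
  (.nr 796 819 (.l1 (.ls 23 19 59)) (.l1 .sk)) (.l1 .sk)) (.nx 799 8193 (.lg 0 true 1 89 89 19 0
  5040) (.nr 802 8193 (.nr 800 513 (.lg 2 true 1 61 61 19 447478 336) (.nx 801 82572 (.lg 2 false 1
  59 59 19 6761 336) .out)) .out)))) .out) .out))))))) (.na 953 218 (.na 878 170 (.na 835 142 (.na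
  807 132 (.na 806 128 (.lg 0 false 1 0 0 16 0 24) .ne) (.na 817 138 (.nx 816 660563 (.nr 815
  1048577 (.nr 808 132 .s1 (.nx 811 6503 (.nx 809 205 (.l1 (.ls 79 37 321)) (.nr 810 524289 (.lg 0
  true 1 83 83 31 0 55440) .out)) (.nr 814 8193 (.nr 812 1025 (.lg 0 true 1 71 71 31 0 11088) (.nx
  813 82572 (.lg 2 false 1 59 59 31 4491 55440) .out)) .out))) .out) .out) (.na 825 140 (.nx 824
  660563 (.nr 823 1048577 (.nr 818 138 .s1 (.nx 819 205 (.l1 (.ls 73 37 307)) (.nr 822 524289 (.nr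
  820 8193 (.lg 0 false 1 83 83 19 0 5040) (.nx 821 6503 (.lg 0 true 1 79 79 19 0 1008) .out))
  .out))) .out) .out) (.nx 834 660563 (.nr 833 1048577 (.nr 826 140 .s1 (.nx 827 205 (.l1 (.ls 73
  31 303)) (.nr 832 524289 (.nx 828 6503 (.lg 0 false 1 79 79 29 0 1680) (.nr 831 8193 (.nr 829
  1025 (.lg 0 true 1 67 67 29 0 1680) (.nx 830 82572 (.lg 2 false 1 53 53 29 4491 1680) .out))
  .out)) .out))) .out) .out)))) (.na 861 154 (.na 843 148 (.nx 842 660563 (.nr 841 1048577 (.nr 836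
  142 .s1 (.nx 837 205 (.l1 (.ls 67 29 298)) (.nr 840 524289 (.nr 838 8193 (.lg 0 false 1 83 83 19
  0 336) (.nx 839 6503 (.lg 0 true 1 79 79 19 0 336) .out)) .out))) .out) .out) (.na 853 150 (.nx
  852 660563 (.nr 851 1048577 (.nr 844 148 .s1 (.nx 845 205 (.l1 (.ls 73 29 286)) (.nr 850 524289
  (.nx 846 6503 (.lg 0 false 1 79 79 23 0 336) (.nr 849 8193 (.nr 847 1025 (.lg 0 true 1 67 67 23 0
  336) (.nx 848 82572 (.lg 2 false 1 53 53 23 4491 336) .out)) .out)) .out))) .out) .out) (.nx 860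
  660563 (.nr 859 1048577 (.nr 854 150 .s1 (.nx 855 205 (.l1 (.ls 71 37 283)) (.nr 858 524289 (.nr
  856 8193 (.lg 0 false 1 79 79 29 0 5040) (.nx 857 6503 (.lg 0 true 1 79 79 29 0 5040) .out))
  .out))) .out) .out))) (.na 869 162 (.nx 868 660563 (.nr 867 1048577 (.nr 862 154 .s1 (.nx 863 205
  (.l1 (.ls 71 31 275)) (.nr 866 524289 (.nr 864 8193 (.lg 0 false 1 79 79 29 0 3696) (.nx 865 6503
  (.lg 0 true 1 73 73 29 0 3696) .out)) .out))) .out) .out) (.na 870 164 (.lg 0 false 1 0 0 16 0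
  24) (.nx 877 660563 (.nr 876 1048577 (.nr 871 164 .s1 (.nx 872 205 (.l1 (.ls 73 29 259)) (.nr 875
  524289 (.nr 873 8193 (.lg 0 true 1 79 79 23 0 336) (.nx 874 6503 (.lg 0 false 1 79 79 23 0 336)
  .out)) .out))) .out) .out))))) (.na 912 198 (.na 895 186 (.na 886 178 (.nx 885 660563 (.nr 884
  1048577 (.nr 879 170 .s1 (.nx 880 205 (.l1 (.ls 73 31 250)) (.nr 883 524289 (.nr 881 8193 (.lg 0
  false 1 83 83 31 0 5040) (.nx 882 6503 (.lg 0 false 1 79 79 31 0 1680) .out)) .out))) .out) .out)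
  (.na 894 180 (.nx 893 660563 (.nr 892 1048577 (.nr 887 178 .s1 (.nx 888 205 (.l1 (.ls 67 29 239))
  (.nr 891 524289 (.nr 889 8193 (.lg 0 false 1 73 73 19 0 336) (.nx 890 6503 (.lg 0 true 1 71 71 19
  0 336) .out)) .out))) .out) .out) (.lg 0 false 1 0 0 16 0 24))) (.na 903 190 (.nx 902 660563 (.nr
  901 1048577 (.nr 896 186 .s1 (.nx 897 205 (.l1 (.ls 71 29 228)) (.nr 900 524289 (.nr 898 8193
  (.lg 0 false 1 79 79 29 0 1008) (.nx 899 6503 (.lg 0 true 1 79 79 29 0 55440) .out)) .out)))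
  .out) .out) (.na 911 196 (.nx 910 660563 (.nr 909 1048577 (.nr 904 190 .s1 (.nx 905 205 (.l1 (.ls
  73 31 224)) (.nr 908 524289 (.nr 906 8193 (.lg 0 false 1 83 83 31 0 5040) (.nx 907 6503 (.lg 0
  false 1 79 79 31 0 1680) .out)) .out))) .out) .out) (.lg 0 false 1 0 0 16 0 24)))) (.na 929 206
  (.na 913 202 (.lg 0 false 1 0 0 16 0 24) (.na 921 204 (.nx 920 660563 (.nr 919 1048577 (.nr 914
  202 .s1 (.nx 915 205 (.l1 (.ls 73 23 211)) (.nr 918 524289 (.nr 916 8193 (.lg 0 false 1 73 73 23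
  0 336) (.nx 917 6503 (.lg 0 true 1 71 71 23 0 336) .out)) .out))) .out) .out) (.nx 928 660563
  (.nr 927 1048577 (.nr 922 204 .s1 (.nx 923 205 (.l1 (.ls 73 37 209)) (.nr 926 524289 (.nr 924
  8193 (.lg 0 false 1 83 83 31 0 5040) (.nx 925 6503 (.lg 0 false 1 79 79 31 0 1008) .out)) .out)))
  .out) .out))) (.na 937 210 (.nx 936 660563 (.nr 935 1048577 (.nr 930 206 .s1 (.nx 931 205 (.l1
  (.ls 67 23 207)) (.nr 934 524289 (.nr 932 8193 (.lg 0 false 1 71 71 23 0 336) (.nx 933 6503 (.lg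
  0 true 1 71 71 23 0 5040) .out)) .out))) .out) .out) (.na 945 214 (.nx 944 660563 (.nr 943
  1048577 (.nr 938 210 .s1 (.nx 939 205 (.l1 (.ls 67 37 203)) (.nr 942 524289 (.nr 940 8193 (.lg 0
  false 1 73 73 31 0 5040) (.nx 941 6503 (.lg 0 true 1 73 73 31 0 55440) .out)) .out))) .out) .out)
  (.nx 952 660563 (.nr 951 1048577 (.nr 946 214 .s1 (.nx 947 205 (.l1 (.ls 67 23 199)) (.nr 950
  524289 (.nr 948 8193 (.lg 0 false 1 71 71 23 0 336) (.nx 949 6503 (.lg 0 true 1 71 71 23 0 5040)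
  .out)) .out))) .out) .out)))))) (.na 1541 512 (.na 1001 242 (.na 977 228 (.na 961 220 (.nx 960
  660563 (.nr 959 1048577 (.nr 954 218 .s1 (.nx 955 205 (.l1 (.ls 67 23 195)) (.nr 958 524289 (.nr
  956 8193 (.lg 0 false 1 73 73 23 0 5040) (.nx 957 6503 (.lg 0 true 1 71 71 23 0 5040) .out))
  .out))) .out) .out) (.na 969 222 (.nx 968 660563 (.nr 967 1048577 (.nr 962 220 .s1 (.nx 963 205
  (.l1 (.ls 79 31 194)) (.nr 966 524289 (.nr 964 8193 (.lg 0 true 1 83 83 37 0 18480) (.nx 965 6503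
  (.lg 0 false 1 83 83 37 0 55440) .out)) .out))) .out) .out) (.nx 976 660563 (.nr 975 1048577 (.nr
  970 222 .s1 (.nx 971 205 (.l1 (.ls 71 31 192)) (.nr 974 524289 (.nr 972 8193 (.lg 0 false 1 79 79
  29 0 5040) (.nx 973 6503 (.lg 0 true 1 73 73 29 0 5040) .out)) .out))) .out) .out))) (.na 985 230
  (.nx 984 660563 (.nr 983 1048577 (.nr 978 228 .s1 (.nx 979 205 (.l1 (.ls 73 37 187)) (.nr 982
  524289 (.nr 980 8193 (.lg 0 false 1 83 83 37 0 5040) (.nx 981 6503 (.lg 0 false 1 73 73 37 0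
  1008) .out)) .out))) .out) .out) (.na 993 238 (.nx 992 660563 (.nr 991 1048577 (.nr 986 230 .s1
  (.nx 987 205 (.l1 (.ls 73 31 185)) (.nr 990 524289 (.nr 988 8193 (.lg 0 true 1 79 79 31 0 1680)
  (.nx 989 6503 (.lg 0 false 1 73 73 31 0 1680) .out)) .out))) .out) .out) (.nx 1000 660563 (.nr
  999 1048577 (.nr 994 238 .s1 (.nx 995 205 (.l1 (.ls 73 31 179)) (.nr 998 524289 (.nr 996 8193
  (.lg 0 false 1 73 73 31 0 336) (.nx 997 6503 (.lg 0 true 1 71 71 31 0 336) .out)) .out))) .out)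
  .out)))) (.na 1025 252 (.na 1009 246 (.nx 1008 660563 (.nr 1007 1048577 (.nr 1002 242 .s1 (.nx
  1003 205 (.l1 (.ls 67 29 176)) (.nr 1006 524289 (.nr 1004 8193 (.lg 0 false 1 73 73 29 0 55440)
  (.nx 1005 6503 (.lg 0 true 1 71 71 29 0 3696) .out)) .out))) .out) .out) (.na 1017 250 (.nx 1016
  660563 (.nr 1015 1048577 (.nr 1010 246 .s1 (.nx 1011 205 (.l1 (.ls 71 31 173)) (.nr 1014 524289
  (.nr 1012 8193 (.lg 0 false 1 73 73 29 0 1008) (.nx 1013 6503 (.lg 0 true 1 73 73 29 0 5040)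
  .out)) .out))) .out) .out) (.nx 1024 660563 (.nr 1023 1048577 (.nr 1018 250 .s1 (.nx 1019 205
  (.l1 (.ls 61 29 171)) (.nr 1022 524289 (.nr 1020 8193 (.lg 0 false 1 71 71 29 0 1680) (.nx 1021
  6503 (.lg 0 true 1 71 71 29 0 5040) .out)) .out))) .out) .out))) (.na 1026 256 (.lg 0 false 1 0 0
  16 0 24) (.na 1027 257 .ne (.nx 1540 82572 (.nr 1539 1048577 (.nr 1028 257 .s1 (.nx 1283 647 (.la
  (.ls 73 29 1631)) (.nr 1538 262145 (.la (.lg 0 false 1 79 79 23 0)) .out))) .out) .out))))) (.na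
  4975 4096 (.na 2701 1449 (.na 1971 725 (.nx 1970 82572 (.nr 1969 1048577 (.nr 1542 512 .s1 (.nx
  1755 647 (.la (.ls 83 29 820)) (.nr 1968 262145 (.la (.lg 0 false 1 71 71 29 0)) .out))) .out)
  .out) (.na 2273 1024 (.nx 2272 3252 (.nr 2271 262145 (.nr 1972 725 .s1 (.la (.ls 59 43 14589)))
  .out) .out) (.nx 2700 3252 (.nr 2699 262145 (.nr 2274 1024 .s1 (.la (.ls 53 41 10330))) .out)
  .out))) (.na 3388 2048 (.nx 3387 1627 (.nr 3386 131073 (.nr 2702 1449 .s1 (.nx 2786 84 (.nr 2785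
  13313 (.lx (.lp 16 23 513)) (.l1 .sk)) (.nx 2787 85 (.l1 .sk) (.la (.ls 61 31 1824))))) .out)
  .out) (.na 4325 2897 (.nx 4324 1627 (.nr 4323 131073 (.nr 3389 2048 .s1 (.nx 3473 84 (.nr 3472
  18831 (.lx (.lp 16 29 725)) (.l1 .sk)) (.nx 3474 85 (.l1 .sk) (.la (.ls 59 31 1292))))) .out)
  .out) (.nx 4974 647 (.nr 4973 65537 (.nr 4326 2897 .s1 (.nx 4488 163 (.lx (.lp 43 29 1025)) (.nr
  4972 32769 (.lx (.lp 43 31 1025)) .out))) .out) .out)))) (.na 6924 32768 (.na 5625 8192 (.nx 5624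
  647 (.nr 5623 65537 (.nr 4976 4096 .s1 (.nx 5138 163 (.lx (.lp 47 37 2049)) (.nr 5622 32769 (.lx
  (.lp 41 37 2049)) .out))) .out) .out) (.na 6274 16384 (.nx 6273 647 (.nr 6272 65537 (.nr 5626
  8192 .s1 (.lx (.lp 43 41 4097))) .out) .out) (.nx 6923 647 (.nr 6922 131073 (.nr 6275 16384 .s1
  (.nx 6437 163 (.lx (.lp 43 41 8193)) (.nr 6921 65537 (.lx (.lp 41 43 8193)) .out))) .out) .out)))
  (.na 7250 65536 (.nx 7249 324 (.nr 7248 131073 (.nr 6925 32768 .s1 (.lx (.lp 41 47 16385))) .out)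
  .out) (.na 7576 131073 (.nx 7575 324 (.nr 7574 262145 (.nr 7251 65536 .s1 (.lx (.lp 43 53
  32769))) .out) .out) .out)))))))

def T101_1 : Ph :=
  (.na 972 134 (.na 704 51 (.na 466 19 (.na 349 9 (.na 233 4 (.na 1 2 .ne (.na 114 3 (.nx 113
  3329023 (.nr 112 623489 (.nx 93 1321124 (.nx 39 6501 (.nx 3 69 (.nr 2 16 (.lg 0 true 1 37 37 5 0
  1104) (.l1 .sk)) (.nx 4 70 (.l1 .sk) (.nr 17 55110 (.lg 0 false 13 101 101 9 0 1506960) (.nx 38
  1292 (.nr 24 77937 (.lg 0 false 7 89 89 9 0 115920) (.nx 37 205 (.lg 0 false 13 83 83 9 0 14352)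
  .out)) .out)))) (.nr 92 65537 (.nr 61 257 (.lg 0 true 22 89 89 11 0 12144) (.nx 91 165142 (.nx 72
  20644 (.lg 1 false 11 103 107 9 24026 16576560) (.nr 90 46342 (.nr 79 1100 (.lg 2 true 7 83 83 9
  22169 7728) (.lg 2 false 11 101 103 9 5352 1275120)) .out)) .out)) .out)) (.nr 111 9 (.lg 0 true
  18 71 71 9 0 3312) .out)) .out) .out) (.nx 232 6658044 (.nr 231 881745 (.nx 117 70 (.nx 116 69
  (.nr 115 23 (.lg 0 true 1 29 29 5 0 8280) (.l1 .sk)) (.l1 .sk)) (.nx 195 832257 (.nx 150 13003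
  (.nr 136 110219 (.nr 128 55110 (.lg 0 false 11 97 97 7 0 91080) (.nx 135 1292 (.lg 0 false 7 83
  83 7 0 57960) .out)) (.nx 149 205 (.lg 0 false 13 79 79 13 0 21528) .out)) (.nr 194 65537 (.nr
  178 364 (.lg 0 true 28 79 83 16 0 115920) (.nx 193 208065 (.nr 182 752 (.lg 2 false 4 73 73 7
  19721 16560) (.lg 2 false 11 101 103 7 12012 1275120)) .out)) .out)) (.nr 230 33 (.lg 0 true 35
  73 73 7 0 57960) .out))) .out) .out))) (.na 276 7 (.na 234 6 .ne (.nx 275 1321124 (.nr 274 220437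
  (.nx 236 69 (.nr 235 41 (.lg 0 false 1 31 31 7 0 1506960) (.l1 .sk)) (.nx 237 70 (.l1 .sk) (.nx
  248 5160 (.lg 0 false 11 97 97 13 0 1275120) (.nr 273 55110 (.nr 261 501 (.lg 0 true 13 83 83 13
  0 43056) (.nx 272 416129 (.lg 2 false 11 101 103 13 28656 1275120) .out)) .out)))) .out) .out))
  (.na 348 8 (.nx 347 10568985 (.nr 346 262145 (.nx 319 1321124 (.nx 295 10321 (.nx 278 69 (.nr 277
  47 (.lg 0 true 1 29 29 9 0 57960) (.l1 .sk)) (.nx 279 70 (.l1 .sk) (.nr 290 55110 (.lg 0 false 11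
  83 89 16 0 637560) (.nx 294 408 (.lg 0 false 4 79 79 13 0 7728) .out)))) (.nr 318 65537 (.nr 306
  596 (.lg 0 true 11 83 83 16 0 42504) (.nx 317 262145 (.lg 2 false 11 89 101 16 15175 637560)
  .out)) .out)) (.nr 345 47 (.lg 0 true 26 83 83 16 0 100464) .out)) .out) .out) .ne))) (.na 388 13
  (.na 350 10 (.lg 0 false 1 0 0 7 0 24) (.na 387 12 (.nx 386 1321124 (.nr 385 623489 (.nr 351 6
  .s1 (.nx 353 69 (.nr 352 71 (.lg 0 true 1 29 29 11 0 16560) (.l1 .sk)) (.nx 354 70 (.l1 .sk) (.nx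
  369 9557 (.nr 361 77937 (.lg 0 false 7 89 89 13 0 38640) (.nx 368 814 (.lg 0 false 7 83 83 13 0
  38640) .out)) (.nr 384 65537 (.nr 376 374 (.lg 0 true 7 79 79 13 0 38640) (.nx 383 165142 (.lg 2
  false 7 89 97 13 16343 115920) .out)) .out))))) .out) .out) .ne)) (.na 464 16 (.na 429 14 (.nx
  428 1321124 (.nr 427 623489 (.nr 389 11 .s1 (.nx 421 330282 (.nx 392 70 (.nx 391 69 (.nr 390 83
  (.lg 0 false 1 29 29 9 0 753480) (.l1 .sk)) (.l1 .sk)) (.nr 397 374 (.lg 0 true 5 71 71 16 0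
  35880) (.nx 420 165142 (.nr 400 3212 (.nx 398 2381 (.lg 0 true 1 71 71 9 0 7176) (.lg 2 false 2
  73 73 11 15234 14352)) (.nr 415 92683 (.nx 404 6503 (.lg 0 false 4 97 97 16 0 1506960) (.nr 414
  65537 (.nr 409 32769 (.lg 2 true 5 73 73 16 12022 35880) (.nx 413 65537 (.lg 0 true 4 101 103 16
  0 1506960) .out)) .out)) (.nx 419 814 (.lg 0 false 4 83 83 16 0 14352) .out))) .out))) (.nr 426
  65 (.lg 0 true 5 71 71 16 0 35880) .out))) .out) .out) (.nx 463 1321124 (.nr 462 623489 (.nr 430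
  12 .s1 (.nx 444 9557 (.nx 432 69 (.nr 431 94 (.lg 0 false 1 29 29 11 0 1506960) (.l1 .sk)) (.nx
  433 70 (.l1 .sk) (.nr 438 92683 (.lg 0 false 5 89 89 13 0 38640) (.nx 443 814 (.lg 0 false 5 83
  83 13 0 38640) .out)))) (.nr 461 65537 (.nr 455 374 (.lg 0 true 11 79 79 19 0 85008) (.nx 460
  165142 (.lg 2 false 5 89 97 13 16343 115920) .out)) .out))) .out) .out)) (.na 465 18 .ne (.lg 0
  false 1 0 0 7 0 24))))) (.na 603 35 (.na 539 26 (.na 493 23 (.nx 492 1321124 (.nr 491 1048577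
  (.nr 467 18 .s1 (.nx 473 324 (.nx 469 69 (.nr 468 136 (.lg 0 true 1 0 17 11 0 57960) (.l1 .sk))
  (.nx 470 70 (.l1 .sk) (.nx 471 205 (.l1 (.ls 83 31 1956)) (.nr 472 623489 (.l1 (.ls 79 37 3316))
  .out)))) (.nr 490 220437 (.nx 477 10323 (.lg 0 false 4 89 89 16 0 1104) (.nr 489 55110 (.nr 484
  498 (.lg 0 true 7 79 79 16 0 3864) (.nx 488 165142 (.lg 2 false 4 83 83 16 12725 1104) .out))
  .out)) .out))) .out) .out) (.na 514 25 (.nx 513 1321124 (.nr 512 1048577 (.nr 494 22 .s1 (.nx 495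
  205 (.l1 (.ls 73 31 1830)) (.nr 511 185365 (.nx 499 16385 (.lg 0 true 4 83 83 13 0 1104) (.nr 510
  38969 (.nr 506 513 (.lg 0 true 7 67 67 16 0 3864) (.nx 509 82572 (.lg 2 true 3 67 67 11 5672
  1656) .out)) .out)) .out))) .out) .out) (.nx 538 1321124 (.nr 537 1048577 (.nr 515 24 .s1 (.nx
  518 70 (.nx 517 69 (.nr 516 154 (.l1 (.ls 17 17 193)) (.l1 .sk)) (.l1 .sk)) (.nx 519 205 (.l1
  (.ls 79 31 1488)) (.nr 536 185365 (.nx 523 10323 (.lg 0 false 4 83 83 16 0 5520) (.nr 535 55110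
  (.nr 530 513 (.lg 0 true 7 71 71 16 0 19320) (.nx 534 82572 (.lg 1 true 4 83 83 16 12725 16560)
  .out)) .out)) .out)))) .out) .out))) (.na 583 32 (.na 561 30 (.nx 560 1321124 (.nr 559 1048577
  (.nr 540 25 .s1 (.nx 543 70 (.nx 542 69 (.nr 541 177 (.lg 0 false 1 0 19 11 0 1506960) (.l1 .sk))
  (.l1 .sk)) (.nx 550 16385 (.nx 544 205 (.l1 (.ls 83 41 1430)) (.nr 549 185365 (.lg 0 false 5 89
  89 19 0 71760) .out)) (.nr 558 38969 (.nr 555 513 (.lg 0 true 5 73 73 19 0 71760) (.nx 557 82572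
  (.lg 1 false 2 83 83 11 5672 43056) .out)) .out)))) .out) .out) (.nx 582 1321124 (.nr 581 1048577
  (.nr 562 29 .s1 (.nx 570 10323 (.nx 564 69 (.nr 563 189 (.l1 (.ls 19 31 161)) (.l1 .sk)) (.nx 565
  70 (.l1 .sk) (.nx 566 205 (.l1 (.ls 83 43 1240)) (.nr 569 185365 (.lg 0 false 3 89 89 23 0 16560)
  .out)))) (.nr 580 55110 (.nr 577 513 (.lg 0 true 7 73 73 29 0 115920) (.nx 579 82572 (.lg 1 false
  2 89 89 19 12725 16560) .out)) .out))) .out) .out)) (.na 584 34 .ne (.nx 602 1321124 (.nr 601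
  370729 (.nr 585 33 .s1 (.nx 593 8193 (.nx 587 69 (.nr 586 207 (.l1 (.ls 16 23 143)) (.l1 .sk))
  (.nx 588 70 (.l1 .sk) (.lg 0 false 5 89 89 13 0 5520))) (.nr 600 55110 (.nr 597 217 (.lg 0 true 4
  71 71 13 0 1104) (.nx 599 82572 (.lg 1 false 2 97 97 13 16034 115920) .out)) .out))) .out)
  .out)))) (.na 659 42 (.na 624 38 (.nx 623 1321124 (.nr 622 370729 (.nr 604 35 .s1 (.nx 617 82572
  (.nx 614 20644 (.nx 606 69 (.nr 605 224 (.l1 (.ls 29 19 139)) (.l1 .sk)) (.nx 607 70 (.l1 .sk)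
  (.nx 611 8193 (.lg 0 false 4 89 89 19 0 38640) (.nr 613 55110 (.lg 0 true 2 83 83 17 0 38640)
  .out)))) (.nr 616 13779 (.nr 615 1756 (.lg 0 false 1 73 73 16 0 19320) (.lg 2 false 1 67 67 16
  1623 19320)) .out)) (.nr 621 217 (.lg 0 true 4 71 73 19 0 38640) .out))) .out) .out) (.na 642 39
  (.nx 641 1321124 (.nr 640 370729 (.nr 625 38 .s1 (.nx 628 70 (.nx 627 69 (.nr 626 230 (.l1 (.ls
  17 23 128)) (.l1 .sk)) (.l1 .sk)) (.nx 633 8193 (.lg 0 false 5 89 89 17 0 16560) (.nr 639 55110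
  (.nr 636 217 (.lg 0 true 3 71 71 13 0 3312) (.nx 638 82572 (.lg 1 false 2 89 89 13 16034 16560)
  .out)) .out)))) .out) .out) (.nx 658 1321124 (.nr 657 370729 (.nr 643 39 .s1 (.nx 650 8193 (.nx
  645 69 (.nr 644 248 (.l1 (.ls 17 19 125)) (.l1 .sk)) (.nx 646 70 (.l1 .sk) (.lg 0 false 4 83 83
  17 0 43056))) (.nr 656 55110 (.nr 653 217 (.lg 0 true 3 61 61 17 0 21528) (.nx 655 82572 (.lg 1
  false 2 83 83 17 16034 43056) .out)) .out))) .out) .out))) (.na 676 46 (.na 675 45 (.nx 674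
  1321124 (.nr 673 370729 (.nr 660 42 .s1 (.nx 662 69 (.nr 661 266 (.l1 (.ls 19 29 116)) (.l1 .sk))
  (.nx 663 70 (.l1 .sk) (.nx 666 8193 (.lg 0 false 3 89 89 23 0 115920) (.nr 672 55110 (.nr 669 217
  (.lg 0 true 3 67 67 23 0 23184) (.nx 671 82572 (.lg 1 false 2 83 83 23 16034 115920) .out))
  .out))))) .out) .out) (.lg 0 false 1 0 0 16 0 24)) (.na 690 50 (.nx 689 1321124 (.nr 688 311745
  (.nr 677 46 .s1 (.nx 682 10323 (.nx 679 69 (.nr 678 295 (.lg 0 false 1 0 16 13 0 16576560) (.l1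
  .sk)) (.nx 680 70 (.l1 .sk) (.lg 0 true 2 79 79 13 0 1104))) (.nr 687 23172 (.nr 684 217 (.lg 0
  false 2 67 67 13 0 16560) (.nx 686 82572 (.lg 2 true 2 67 67 13 13128 1104) .out)) .out))) .out)
  .out) (.nx 703 1321124 (.nr 702 311745 (.nr 691 50 .s1 (.nx 696 10323 (.nx 693 69 (.nr 692 301
  (.l1 (.ls 19 23 98)) (.l1 .sk)) (.nx 694 70 (.l1 .sk) (.lg 0 true 2 89 89 19 0 115920))) (.nr 701
  23172 (.nr 699 301 (.lg 0 true 3 67 67 19 0 16560) (.nx 700 82572 (.lg 2 true 1 73 73 13 9465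
  5520) .out)) .out))) .out) .out)))))) (.na 842 98 (.na 780 73 (.na 734 64 (.na 720 54 (.nx 719
  1321124 (.nr 718 311745 (.nr 705 51 .s1 (.nx 712 10323 (.nx 707 69 (.nr 706 319 (.l1 (.ls 16 16
  96)) (.l1 .sk)) (.nx 708 70 (.l1 .sk) (.lg 0 false 4 83 83 16 0 3312))) (.nr 717 23172 (.nr 715
  319 (.lg 0 true 3 67 67 16 0 1656) (.nx 716 82572 (.lg 2 true 1 73 73 16 8931 1656) .out))
  .out))) .out) .out) (.na 721 57 (.lg 0 false 1 0 0 16 0 24) (.nx 733 1321124 (.nr 732 311745 (.nr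
  722 57 .s1 (.nx 724 69 (.nr 723 378 (.l1 (.ls 17 17 86)) (.l1 .sk)) (.nx 725 70 (.l1 .sk) (.nx
  728 10323 (.lg 0 false 3 83 83 17 0 57960) (.nr 731 23172 (.nr 729 217 (.lg 2 false 1 73 73 16
  799628 57960) (.nx 730 82572 (.lg 2 true 1 73 73 16 13128 1656) .out)) .out))))) .out) .out)))
  (.na 751 70 (.na 735 67 .ne (.nx 750 1321124 (.nr 749 524289 (.nr 736 67 .s1 (.nx 739 70 (.nx 738
  69 (.nr 737 413 (.l1 (.ls 16 16 74)) (.l1 .sk)) (.l1 .sk)) (.nx 743 8193 (.lg 0 false 4 83 83 16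
  0 1104) (.nr 748 8193 (.nr 746 513 (.lg 0 true 3 71 71 16 0 1656) (.nx 747 82572 (.lg 2 true 1 53
  53 16 5554 552) .out)) .out)))) .out) .out)) (.na 764 71 (.nx 763 1321124 (.nr 762 524289 (.nr
  752 70 .s1 (.nx 755 70 (.nx 754 69 (.nr 753 419 (.l1 (.ls 29 23 71)) (.l1 .sk)) (.l1 .sk)) (.nx
  757 8193 (.lg 0 false 2 89 89 29 0 38640) (.nr 761 8193 (.nr 759 513 (.lg 0 true 2 73 73 29 0
  38640) (.nx 760 82572 (.lg 2 false 1 67 67 23 5554 38640) .out)) .out)))) .out) .out) (.nx 779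
  1321124 (.nr 778 524289 (.nr 765 71 .s1 (.nx 772 8193 (.nx 767 69 (.nr 766 431 (.l1 (.ls 16 16
  70)) (.l1 .sk)) (.nx 768 70 (.l1 .sk) (.lg 0 false 4 83 83 16 0 1104))) (.nr 777 8193 (.nr 775
  513 (.lg 0 true 3 61 61 16 0 1656) (.nx 776 82572 (.lg 2 true 1 53 53 16 5554 552) .out)) .out)))
  .out) .out)))) (.na 818 89 (.na 795 78 (.nx 794 1321124 (.nr 793 524289 (.nr 781 73 .s1 (.nx 787
  8193 (.nx 783 69 (.nr 782 460 (.l1 (.ls 16 16 68)) (.l1 .sk)) (.nx 784 70 (.l1 .sk) (.lg 0 false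
  3 79 79 16 0 1656))) (.nr 792 8193 (.nr 790 513 (.lg 0 true 3 61 61 16 0 1656) (.nx 791 82572
  (.lg 2 true 1 53 53 16 5554 8280) .out)) .out))) .out) .out) (.na 807 86 (.nx 806 1321124 (.nr
  805 524289 (.nr 796 78 .s1 (.nx 801 8193 (.nx 798 69 (.nr 797 507 (.l1 (.ls 29 29 64)) (.l1 .sk))
  (.nx 799 70 (.l1 .sk) (.lg 0 true 2 89 89 29 0 1506960))) (.nr 804 8193 (.nr 802 513 (.lg 2 false
  1 73 73 23 584344 1506960) (.nx 803 82572 (.lg 2 true 1 61 61 23 5554 43056) .out)) .out))) .out)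
  .out) (.nx 817 1321124 (.nr 816 524289 (.nr 808 86 .s1 (.nx 810 69 (.nr 809 525 (.l1 (.ls 17 19
  58)) (.l1 .sk)) (.nx 811 70 (.l1 .sk) (.nx 812 8193 (.lg 0 true 1 89 89 13 0 1104) (.nr 815 8193
  (.nr 813 513 (.lg 2 false 1 71 71 13 529986 1104) (.nx 814 82572 (.lg 2 true 1 59 59 13 5554
  1104) .out)) .out))))) .out) .out))) (.na 830 91 (.na 829 90 (.nx 828 1321124 (.nr 827 524289
  (.nr 819 89 .s1 (.nx 822 70 (.nx 821 69 (.nr 820 531 (.l1 (.ls 16 16 56)) (.l1 .sk)) (.l1 .sk))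
  (.nx 823 8193 (.lg 0 true 1 79 79 16 0 552) (.nr 826 8193 (.nr 824 513 (.lg 2 false 1 61 61 16
  512122 552) (.nx 825 82572 (.lg 2 true 1 47 47 16 5554 552) .out)) .out)))) .out) .out) (.lg 0
  false 1 0 0 16 0 24)) (.na 831 94 .ne (.nx 841 1321124 (.nr 840 524289 (.nr 832 94 .s1 (.nx 836
  8193 (.nx 834 69 (.nr 833 578 (.l1 (.ls 16 19 53)) (.l1 .sk)) (.nx 835 70 (.l1 .sk) (.lg 0 true 1
  89 89 17 0 16560))) (.nr 839 8193 (.nr 837 513 (.lg 2 false 1 67 67 17 484881 1104) (.nx 838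
  82572 (.lg 2 false 1 59 59 17 5554 1104) .out)) .out))) .out) .out))))) (.na 919 118 (.na 875 105
  (.na 853 102 (.nx 852 1321124 (.nr 851 524289 (.nr 843 98 .s1 (.nx 846 70 (.nx 845 69 (.nr 844
  602 (.l1 (.ls 19 19 51)) (.l1 .sk)) (.l1 .sk)) (.nx 847 8193 (.lg 0 true 1 89 89 19 0 115920)
  (.nr 850 8193 (.nr 848 513 (.lg 2 false 1 67 67 19 465090 7728) (.nx 849 82572 (.lg 2 true 1 53
  53 19 5554 7728) .out)) .out)))) .out) .out) (.na 864 103 (.nx 863 1321124 (.nr 862 524289 (.nr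
  854 102 .s1 (.nx 858 8193 (.nx 856 69 (.nr 855 608 (.l1 (.ls 16 29 49)) (.l1 .sk)) (.nx 857 70
  (.l1 .sk) (.lg 0 true 1 89 89 29 0 16560))) (.nr 861 8193 (.nr 859 513 (.lg 2 false 1 67 67 29
  446851 3312) (.nx 860 82572 (.lg 2 true 1 59 59 29 5554 16560) .out)) .out))) .out) .out) (.nx
  874 1321124 (.nr 873 524289 (.nr 865 103 .s1 (.nx 867 69 (.nr 866 619 (.l1 (.ls 16 16 49)) (.l1
  .sk)) (.nx 868 70 (.l1 .sk) (.nx 869 8193 (.lg 0 true 1 79 79 16 0 552) (.nr 872 8193 (.nr 870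
  513 (.lg 2 false 1 59 59 16 442513 552) (.nx 871 82572 (.lg 2 true 1 47 47 16 5554 552) .out))
  .out))))) .out) .out))) (.na 897 114 (.na 886 106 (.nx 885 1321124 (.nr 884 524289 (.nr 876 105
  .s1 (.nx 880 8193 (.nx 878 69 (.nr 877 625 (.l1 (.ls 19 19 48)) (.l1 .sk)) (.nx 879 70 (.l1 .sk)
  (.lg 0 true 1 89 89 23 0 57960))) (.nr 883 8193 (.nr 881 513 (.lg 2 true 1 61 61 23 434084 57960)
  (.nx 882 82572 (.lg 2 true 1 59 59 23 5554 57960) .out)) .out))) .out) .out) (.nx 896 1321124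
  (.nr 895 524289 (.nr 887 106 .s1 (.nx 891 8193 (.nx 889 69 (.nr 888 672 (.l1 (.ls 17 19 47)) (.l1
  .sk)) (.nx 890 70 (.l1 .sk) (.lg 0 true 1 89 89 19 0 1104))) (.nr 894 8193 (.nr 892 513 (.lg 2
  false 1 67 67 19 429989 1104) (.nx 893 82572 (.lg 2 true 1 59 59 19 5554 1104) .out)) .out)))
  .out) .out)) (.na 908 115 (.nx 907 1321124 (.nr 906 524289 (.nr 898 114 .s1 (.nx 901 70 (.nx 900
  69 (.nr 899 678 (.l1 (.ls 16 29 44)) (.l1 .sk)) (.l1 .sk)) (.nx 902 8193 (.lg 0 true 1 83 83 29 0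
  3312) (.nr 905 8193 (.nr 903 513 (.lg 2 false 1 67 67 29 399814 115920) (.nx 904 82572 (.lg 2
  true 1 53 53 29 5554 3312) .out)) .out)))) .out) .out) (.nx 918 1321124 (.nr 917 524289 (.nr 909
  115 .s1 (.nx 911 69 (.nr 910 696 (.l1 (.ls 16 16 44)) (.l1 .sk)) (.nx 912 70 (.l1 .sk) (.nx 913
  8193 (.lg 0 true 1 79 79 16 0 8280) (.nr 916 8193 (.nr 914 513 (.lg 2 false 1 59 59 16 396338
  2760) (.nx 915 82572 (.lg 2 false 1 47 47 16 5554 2760) .out)) .out))))) .out) .out)))) (.na 952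
  126 (.na 930 119 (.nx 929 1321124 (.nr 928 524289 (.nr 920 118 .s1 (.nx 922 69 (.nr 921 702 (.l1
  (.ls 17 19 43)) (.l1 .sk)) (.nx 923 70 (.l1 .sk) (.nx 924 8193 (.lg 0 true 1 89 89 19 0 1104)
  (.nr 927 8193 (.nr 925 513 (.lg 2 false 1 67 67 19 386261 1104) (.nx 926 82572 (.lg 2 false 1 59
  59 19 5554 115920) .out)) .out))))) .out) .out) (.na 941 125 (.nx 940 1321124 (.nr 939 524289
  (.nr 931 119 .s1 (.nx 933 69 (.nr 932 737 (.l1 (.ls 16 16 43)) (.l1 .sk)) (.nx 934 70 (.l1 .sk)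
  (.nx 935 8193 (.lg 0 true 1 89 89 16 0 57960) (.nr 938 8193 (.nr 936 513 (.lg 2 true 1 61 61 16
  383015 3864) (.nx 937 82572 (.lg 2 false 1 59 59 16 5554 3864) .out)) .out))))) .out) .out) (.nx
  951 1321124 (.nr 950 524289 (.nr 942 125 .s1 (.nx 944 69 (.nr 943 743 (.l1 (.ls 16 16 41)) (.l1
  .sk)) (.nx 945 70 (.l1 .sk) (.nx 946 8193 (.lg 0 true 1 79 79 16 0 2760) (.nr 949 8193 (.nr 947
  513 (.lg 2 false 1 59 59 16 364631 2760) (.nx 948 82572 (.lg 2 false 1 47 47 16 5554 2760) .out))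
  .out))))) .out) .out))) (.na 954 130 (.na 953 128 (.lg 0 false 1 0 0 16 0 24) .ne) (.na 964 131
  (.nx 963 660563 (.nr 962 1048577 (.nr 955 130 .s1 (.nx 958 6503 (.nx 956 205 (.l1 (.ls 79 37
  326)) (.nr 957 524289 (.lg 0 true 1 83 83 29 0 71760) .out)) (.nr 961 8193 (.nr 959 1025 (.lg 0
  true 1 71 71 29 0 71760) (.nx 960 82572 (.lg 2 false 1 53 53 29 3025 71760) .out)) .out))) .out)
  .out) (.nx 971 660563 (.nr 970 1048577 (.nr 965 131 .s1 (.nx 966 205 (.l1 (.ls 71 19 323)) (.nr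
  969 524289 (.nr 967 8193 (.lg 0 false 1 79 79 16 0 552) (.nx 968 6503 (.lg 0 true 1 73 73 16 0
  552) .out)) .out))) .out) .out))))))) (.na 1142 210 (.na 1051 163 (.na 1023 147 (.na 989 138 (.na
  980 135 (.nx 979 660563 (.nr 978 1048577 (.nr 973 134 .s1 (.nx 974 205 (.l1 (.ls 61 29 316)) (.nr
  977 524289 (.nr 975 8193 (.lg 0 false 1 89 89 19 0 1104) (.nx 976 6503 (.lg 0 true 1 83 83 19 0
  1104) .out)) .out))) .out) .out) (.na 981 137 (.lg 0 false 1 0 0 16 0 24) (.nx 988 660563 (.nr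
  987 1048577 (.nr 982 137 .s1 (.nx 983 205 (.l1 (.ls 67 19 309)) (.nr 986 524289 (.nr 984 8193
  (.lg 0 false 1 73 73 16 0 552) (.nx 985 6503 (.lg 0 true 1 71 71 16 0 552) .out)) .out))) .out)
  .out))) (.na 1007 142 (.na 999 141 (.nx 998 660563 (.nr 997 1048577 (.nr 990 138 .s1 (.nx 991 205
  (.l1 (.ls 67 37 307)) (.nr 996 524289 (.nr 993 8193 (.lg 0 false 2 71 71 19 0 3312) (.nx 995 6503
  (.lg 0 true 2 71 71 19 0 3312) .out)) .out))) .out) .out) (.nx 1006 660563 (.nr 1005 1048577 (.nr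
  1000 141 .s1 (.nx 1001 205 (.l1 (.ls 73 23 301)) (.nr 1004 524289 (.nr 1002 8193 (.lg 0 false 1
  83 83 17 0 1656) (.nx 1003 6503 (.lg 0 true 1 79 79 17 0 1656) .out)) .out))) .out) .out)) (.na
  1015 146 (.nx 1014 660563 (.nr 1013 1048577 (.nr 1008 142 .s1 (.nx 1009 205 (.l1 (.ls 67 29 298))
  (.nr 1012 524289 (.nr 1010 8193 (.lg 0 false 1 83 83 19 0 1104) (.nx 1011 6503 (.lg 0 true 1 83
  83 19 0 1104) .out)) .out))) .out) .out) (.nx 1022 660563 (.nr 1021 1048577 (.nr 1016 146 .s1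
  (.nx 1017 205 (.l1 (.ls 71 29 290)) (.nr 1020 524289 (.nr 1018 8193 (.lg 0 false 1 83 83 19 0
  1104) (.nx 1019 6503 (.lg 0 true 1 79 79 19 0 1104) .out)) .out))) .out) .out)))) (.na 1040 153
  (.na 1031 150 (.nx 1030 660563 (.nr 1029 1048577 (.nr 1024 147 .s1 (.nx 1025 205 (.l1 (.ls 71 29
  288)) (.nr 1028 524289 (.nr 1026 8193 (.lg 0 false 1 79 79 19 0 11592) (.nx 1027 6503 (.lg 0 true
  1 79 79 19 0 57960) .out)) .out))) .out) .out) (.na 1039 151 (.nx 1038 660563 (.nr 1037 1048577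
  (.nr 1032 150 .s1 (.nx 1033 205 (.l1 (.ls 71 37 283)) (.nr 1036 524289 (.nr 1034 8193 (.lg 0
  false 1 79 79 29 0 16560) (.nx 1035 6503 (.lg 0 true 1 73 73 29 0 16560) .out)) .out))) .out)
  .out) (.lg 0 false 1 0 0 16 0 24))) (.na 1042 158 (.na 1041 157 (.lg 0 false 1 0 0 16 0 24) (.lg
  0 false 1 0 0 16 0 24)) (.na 1050 162 (.nx 1049 660563 (.nr 1048 1048577 (.nr 1043 158 .s1 (.nx
  1044 205 (.l1 (.ls 67 29 268)) (.nr 1047 524289 (.nr 1045 8193 (.lg 0 false 1 79 79 19 0 1104)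
  (.nx 1046 6503 (.lg 0 true 1 79 79 19 0 16560) .out)) .out))) .out) .out) (.lg 0 false 1 0 0 16 0
  24))))) (.na 1093 182 (.na 1068 170 (.na 1052 167 (.lg 0 false 1 0 0 16 0 24) (.na 1060 169 (.nx
  1059 660563 (.nr 1058 1048577 (.nr 1053 167 .s1 (.nx 1054 205 (.l1 (.ls 67 17 254)) (.nr 1057
  524289 (.nr 1055 8193 (.lg 0 false 1 73 73 16 0 552) (.nx 1056 6503 (.lg 0 true 1 71 71 16 0 552)
  .out)) .out))) .out) .out) (.nx 1067 660563 (.nr 1066 1048577 (.nr 1061 169 .s1 (.nx 1062 205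
  (.l1 (.ls 67 19 251)) (.nr 1065 524289 (.nr 1063 8193 (.lg 0 false 1 73 73 17 0 7176) (.nx 1064
  6503 (.lg 0 true 1 73 73 17 0 7176) .out)) .out))) .out) .out))) (.na 1077 178 (.na 1076 173 (.nx
  1075 660563 (.nr 1074 1048577 (.nr 1069 170 .s1 (.nx 1070 205 (.l1 (.ls 79 31 250)) (.nr 1073
  524289 (.nr 1071 8193 (.lg 0 false 1 83 83 31 0 5520) (.nx 1072 6503 (.lg 0 false 1 79 79 31 0
  5520) .out)) .out))) .out) .out) (.lg 0 false 1 0 0 16 0 24)) (.na 1085 179 (.nx 1084 660563 (.nr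
  1083 1048577 (.nr 1078 178 .s1 (.nx 1079 205 (.l1 (.ls 83 29 239)) (.nr 1082 524289 (.nr 1080
  8193 (.lg 0 false 1 79 79 19 0 16560) (.nx 1081 6503 (.lg 0 true 1 73 73 19 0 16560) .out))
  .out))) .out) .out) (.nx 1092 660563 (.nr 1091 1048577 (.nr 1086 179 .s1 (.nx 1087 205 (.l1 (.ls
  79 17 237)) (.nr 1090 524289 (.nr 1088 8193 (.lg 0 false 1 71 71 16 0 552) (.nx 1089 6503 (.lg 0
  true 1 71 71 16 0 8280) .out)) .out))) .out) .out)))) (.na 1110 195 (.na 1101 189 (.nx 1100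
  660563 (.nr 1099 1048577 (.nr 1094 182 .s1 (.nx 1095 205 (.l1 (.ls 79 31 233)) (.nr 1098 524289
  (.nr 1096 8193 (.lg 0 false 1 89 89 31 0 1506960) (.nx 1097 6503 (.lg 0 false 1 79 79 31 0
  100464) .out)) .out))) .out) .out) (.na 1102 190 (.lg 0 false 1 0 0 16 0 24) (.nx 1109 660563
  (.nr 1108 1048577 (.nr 1103 190 .s1 (.nx 1104 205 (.l1 (.ls 79 31 224)) (.nr 1107 524289 (.nr
  1105 8193 (.lg 0 false 1 89 89 31 0 115920) (.nx 1106 6503 (.lg 0 false 1 79 79 31 0 5520) .out))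
  .out))) .out) .out))) (.na 1126 201 (.na 1118 199 (.nx 1117 660563 (.nr 1116 1048577 (.nr 1111
  195 .s1 (.nx 1112 205 (.l1 (.ls 73 29 218)) (.nr 1115 524289 (.nr 1113 8193 (.lg 0 false 1 83 83
  29 0 753480) (.nx 1114 6503 (.lg 0 false 1 79 79 29 0 107640) .out)) .out))) .out) .out) (.nx
  1125 660563 (.nr 1124 1048577 (.nr 1119 199 .s1 (.nx 1120 205 (.l1 (.ls 61 17 214)) (.nr 1123
  524289 (.nr 1121 8193 (.lg 0 false 1 71 71 16 0 552) (.nx 1122 6503 (.lg 0 true 1 71 71 16 0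
  8280) .out)) .out))) .out) .out)) (.na 1134 206 (.nx 1133 660563 (.nr 1132 1048577 (.nr 1127 201
  .s1 (.nx 1128 205 (.l1 (.ls 61 23 212)) (.nr 1131 524289 (.nr 1129 8193 (.lg 0 false 1 73 73 19 0
  1656) (.nx 1130 6503 (.lg 0 true 1 73 73 19 0 1656) .out)) .out))) .out) .out) (.nx 1141 660563
  (.nr 1140 1048577 (.nr 1135 206 .s1 (.nx 1136 205 (.l1 (.ls 67 23 207)) (.nr 1139 524289 (.nr
  1137 8193 (.lg 0 false 1 73 73 23 0 16560) (.nx 1138 6503 (.lg 0 true 1 71 71 23 0 1104) .out))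
  .out))) .out) .out)))))) (.na 1219 256 (.na 1184 233 (.na 1159 221 (.na 1150 211 (.nx 1149 660563
  (.nr 1148 1048577 (.nr 1143 210 .s1 (.nx 1144 205 (.l1 (.ls 73 37 203)) (.nr 1147 524289 (.nr
  1145 8193 (.lg 0 false 1 83 83 37 0 115920) (.nx 1146 6503 (.lg 0 true 1 79 79 37 0 115920)
  .out)) .out))) .out) .out) (.na 1151 215 (.lg 0 false 1 0 0 16 0 24) (.nx 1158 660563 (.nr 1157
  1048577 (.nr 1152 215 .s1 (.nx 1153 205 (.l1 (.ls 71 19 198)) (.nr 1156 524289 (.nr 1154 8193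
  (.lg 0 true 1 79 79 19 0 2760) (.nx 1155 6503 (.lg 0 false 1 73 73 19 0 2760) .out)) .out)))
  .out) .out))) (.na 1175 227 (.na 1167 226 (.nx 1166 660563 (.nr 1165 1048577 (.nr 1160 221 .s1
  (.nx 1161 205 (.l1 (.ls 73 23 193)) (.nr 1164 524289 (.nr 1162 8193 (.lg 0 true 1 79 79 23 0
  7176) (.nx 1163 6503 (.lg 0 false 1 73 73 23 0 7176) .out)) .out))) .out) .out) (.nx 1174 660563
  (.nr 1173 1048577 (.nr 1168 226 .s1 (.nx 1169 205 (.l1 (.ls 79 23 188)) (.nr 1172 524289 (.nr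
  1170 8193 (.lg 0 false 1 73 73 23 0 1104) (.nx 1171 6503 (.lg 0 true 1 71 71 23 0 1104) .out))
  .out))) .out) .out)) (.na 1176 230 (.lg 0 false 1 0 0 16 0 24) (.nx 1183 660563 (.nr 1182 1048577
  (.nr 1177 230 .s1 (.nx 1178 205 (.l1 (.ls 79 31 185)) (.nr 1181 524289 (.nr 1179 8193 (.lg 0
  false 1 73 73 31 0 5520) (.nx 1180 6503 (.lg 0 true 1 73 73 31 0 115920) .out)) .out))) .out)
  .out)))) (.na 1194 238 (.na 1185 234 (.lg 0 false 1 0 0 16 0 24) (.na 1186 237 (.lg 0 false 1 0 0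
  16 0 24) (.nx 1193 660563 (.nr 1192 1048577 (.nr 1187 237 .s1 (.nx 1188 205 (.l1 (.ls 73 19 180))
  (.nr 1191 524289 (.nr 1189 8193 (.lg 0 false 1 71 71 19 0 1656) (.nx 1190 6503 (.lg 0 true 1 71
  71 19 0 57960) .out)) .out))) .out) .out))) (.na 1203 247 (.na 1202 243 (.nx 1201 660563 (.nr
  1200 1048577 (.nr 1195 238 .s1 (.nx 1196 205 (.l1 (.ls 73 31 179)) (.nr 1199 524289 (.nr 1197
  8193 (.lg 0 false 1 83 83 31 0 115920) (.nx 1198 6503 (.lg 0 false 1 79 79 31 0 7728) .out))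
  .out))) .out) .out) (.lg 0 false 1 0 0 16 0 24)) (.na 1211 250 (.nx 1210 660563 (.nr 1209 1048577
  (.nr 1204 247 .s1 (.nx 1205 205 (.l1 (.ls 73 17 173)) (.nr 1208 524289 (.nr 1206 8193 (.lg 0 true
  1 79 79 17 0 7176) (.nx 1207 6503 (.lg 0 false 1 73 73 17 0 7176) .out)) .out))) .out) .out) (.nx
  1218 660563 (.nr 1217 1048577 (.nr 1212 250 .s1 (.nx 1215 6503 (.nx 1213 205 (.l1 (.ls 67 29
  171)) (.nr 1214 524289 (.lg 0 true 1 71 71 29 0 5520) .out)) (.nr 1216 8193 (.lg 2 false 1 59 59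
  29 91158 5520) .out))) .out) .out))))) (.na 4671 2897 (.na 2164 725 (.na 1220 257 .ne (.na 1734
  512 (.nx 1733 82572 (.nr 1732 1048577 (.nr 1221 257 .s1 (.nx 1476 647 (.la (.ls 103 29 1631))
  (.nr 1731 262145 (.la (.lg 0 true 1 79 79 23 0)) .out))) .out) .out) (.nx 2163 82572 (.nr 2162
  1048577 (.nr 1735 512 .s1 (.nx 1948 647 (.la (.ls 89 29 820)) (.nr 2161 262145 (.la (.lg 0 false
  1 71 71 29 0)) .out))) .out) .out))) (.na 2964 1449 (.na 2466 1024 (.nx 2465 3252 (.nr 2464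
  262145 (.nr 2165 725 .s1 (.la (.ls 59 43 14589))) .out) .out) (.nx 2963 3252 (.nr 2962 262145
  (.nr 2467 1024 .s1 (.nx 2536 69 (.nr 2535 8542 (.lx (.lp 41 23 363)) (.l1 .sk)) (.nx 2537 70 (.l1
  .sk) (.la (.ls 53 41 10325))))) .out) .out)) (.na 3636 2048 (.nx 3635 1627 (.nr 3634 131073 (.nr
  2965 1449 .s1 (.nx 3034 69 (.nr 3033 12074 (.lx (.lp 43 23 513)) (.l1 .sk)) (.nx 3035 70 (.l1
  .sk) (.la (.ls 67 31 1826))))) .out) .out) (.nx 4670 1627 (.nr 4669 131073 (.nr 3637 2048 .s1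
  (.nx 3820 184 (.lx (.lp 59 29 725)) (.la (.ls 59 31 1279)))) .out) .out)))) (.na 6620 16384 (.na
  5321 4096 (.nx 5320 647 (.nr 5319 65537 (.nr 4672 2897 .s1 (.nx 4834 163 (.lx (.lp 53 29 1025))
  (.nr 5318 32769 (.lx (.lp 43 31 1025)) .out))) .out) .out) (.na 5971 8192 (.nx 5970 647 (.nr 5969
  65537 (.nr 5322 4096 .s1 (.nx 5484 163 (.lx (.lp 47 31 2049)) (.nr 5968 32769 (.lx (.lp 43 37
  2049)) .out))) .out) .out) (.nx 6619 647 (.nr 6618 65537 (.nr 5972 8192 .s1 (.lx (.lp 43 41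
  4097))) .out) .out))) (.na 7596 65536 (.na 7270 32768 (.nx 7269 647 (.nr 7268 131073 (.nr 6621
  16384 .s1 (.nx 6783 163 (.lx (.lp 16 0 8193)) (.nr 7267 65537 (.lx (.lp 41 43 8193)) .out)))
  .out) .out) (.nx 7595 324 (.nr 7594 131073 (.nr 7271 32768 .s1 (.lx (.lp 16 43 16385))) .out)
  .out)) (.na 7922 131073 (.nx 7921 324 (.nr 7920 262145 (.nr 7597 65536 .s1 (.lx (.lp 16 47
  32769))) .out) .out) .out)))))))

def T101_2 : Ph :=
  (.na 351 223 (.na 260 128 (.na 173 61 (.na 111 23 (.na 1 17 .ne (.na 70 22 (.nx 69 2642247 (.nr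
  68 1246976 (.nr 2 7 .s1 (.nx 6 408 (.nx 4 253 (.nr 3 248 (.lg 0 true 1 37 37 11 0 6072) (.l1
  .sk)) (.nx 5 254 (.l1 .sk) (.l1 (.ls 89 41 5999)))) (.nr 67 741457 (.nx 59 660563 (.nr 36 92683
  (.nr 23 30068 (.nx 10 32005 (.lg 0 false 4 89 89 16 0 12144) (.nr 17 1726 (.lg 0 true 7 89 89 16
  0 42504) (.nx 22 524289 (.lg 2 false 5 79 79 16 38426 30360) .out))) (.nx 35 524289 (.lg 0 true
  12 103 107 16 0 1275120) .out)) (.nx 58 262145 (.nr 53 311745 (.nr 48 220437 (.lg 0 true 12 107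
  109 16 0 16576560) (.nx 52 13005 (.lg 0 false 4 101 101 16 0 182160) .out)) (.nx 57 1627 (.lg 0
  false 4 89 89 16 0 12144) .out)) .out)) (.nr 66 129 (.lg 0 true 7 73 73 16 0 42504) .out))
  .out))) .out) .out) (.nx 110 2642247 (.nr 109 1246976 (.nr 71 16 .s1 (.nx 85 59732 (.nx 73 253
  (.nr 72 259 (.l1 (.ls 19 43 2912)) (.l1 .sk)) (.nx 74 254 (.l1 .sk) (.nx 77 1627 (.nx 75 647 (.l1
  (.ls 79 53 16098)) (.nr 76 623489 (.l1 (.ls 79 67 101299)) .out)) (.nr 84 311745 (.lg 0 false 7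
  101 101 17 0 425040) .out)))) (.nr 108 220437 (.nr 98 670 (.lg 0 true 13 73 73 19 0 157872) (.nx
  107 524289 (.lg 2 false 9 101 101 19 118248 182160) .out)) .out))) .out) .out))) (.na 112 34 .ne
  (.na 143 46 (.nx 142 2642247 (.nr 141 881745 (.nr 113 31 .s1 (.nx 117 408 (.nx 115 253 (.nr 114
  518 (.l1 (.ls 31 41 1885)) (.l1 .sk)) (.nx 116 254 (.l1 .sk) (.l1 (.ls 79 43 3001)))) (.nr 140
  623489 (.nr 134 185365 (.nx 122 52017 (.lg 0 false 5 97 97 13 0 60720) (.nr 133 92683 (.nr 127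
  518 (.lg 0 true 5 73 73 13 0 60720) (.nx 132 262145 (.lg 2 false 5 89 97 13 64019 60720) .out))
  .out)) (.nx 139 16385 (.lg 0 false 5 97 97 13 0 60720) .out)) .out))) .out) .out) (.nx 172
  2642247 (.nr 171 881745 (.nr 144 44 .s1 (.nx 146 253 (.nr 145 687 (.l1 (.ls 17 41 1394)) (.l1
  .sk)) (.nx 147 254 (.l1 .sk) (.nx 157 32769 (.lg 0 false 10 89 89 19 0 60720) (.nr 170 92683 (.nr
  164 687 (.lg 0 true 7 67 67 17 0 85008) (.nx 169 262145 (.lg 2 false 5 83 83 13 90770 60720)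
  .out)) .out))))) .out) .out)))) (.na 213 91 (.na 195 64 (.nx 194 2642247 (.nr 193 881745 (.nr 174
  59 .s1 (.nx 177 254 (.nx 176 253 (.nr 175 721 (.l1 (.ls 17 23 1052)) (.l1 .sk)) (.l1 .sk)) (.nx
  182 32769 (.lg 0 false 5 89 89 16 0 30360) (.nr 192 92683 (.nr 187 721 (.lg 0 true 5 71 71 16 0
  30360) (.nx 191 262145 (.lg 2 false 4 83 89 16 90770 12144) .out)) .out)))) .out) .out) (.na 196
  67 .ne (.nx 212 2642247 (.nr 211 2097153 (.nr 197 66 .s1 (.nx 198 408 (.l1 (.ls 79 31 2487)) (.nr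
  210 1048577 (.nx 202 32769 (.lg 0 false 4 101 101 16 0 60720) (.nr 209 65537 (.nr 206 1025 (.lg 0
  true 4 73 73 16 0 12144) (.nx 208 416129 (.lg 2 true 2 89 89 16 64257 12144) .out)) .out))
  .out))) .out) .out))) (.na 230 122 (.na 214 109 .ne (.nx 229 2642247 (.nr 228 2097153 (.nr 215
  108 .s1 (.nx 222 32005 (.nx 216 408 (.l1 (.ls 71 29 1530)) (.nr 221 1482912 (.lg 0 false 5 83 83
  17 0 30360) .out)) (.nr 227 65537 (.nr 225 1374 (.lg 0 true 3 67 67 16 0 18216) (.nx 226 416129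
  (.lg 2 false 1 79 79 16 65790 6072) .out)) .out))) .out) .out)) (.na 244 127 (.nx 243 2642247
  (.nr 242 2097153 (.nr 231 121 .s1 (.nx 232 408 (.l1 (.ls 79 37 1367)) (.nr 241 1482912 (.nx 235
  32005 (.lg 0 false 3 97 97 23 0 36432) (.nr 240 65537 (.nr 237 513 (.lg 0 true 2 67 67 19 0
  12144) (.nx 239 416129 (.lg 2 true 2 83 83 19 102613 12144) .out)) .out)) .out))) .out) .out)
  (.nx 259 2642247 (.nr 258 2097153 (.nr 245 127 .s1 (.nx 255 416129 (.nx 246 408 (.l1 (.ls 73 29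
  1313)) (.nr 254 1482912 (.nr 250 65537 (.nx 247 4095 (.l1 (.ls 53 53 130731)) (.lg 0 false 3 79
  79 17 0 18216)) (.nx 253 26009 (.lg 0 false 3 83 83 17 0 18216) .out)) .out)) (.nr 257 513 (.lg 0
  true 2 61 61 16 0 12144) .out))) .out) .out))))) (.na 294 179 (.na 291 157 (.na 261 131 .ne (.na
  276 134 (.nx 275 1321124 (.nr 274 2097153 (.nr 262 131 .s1 (.nx 270 41287 (.nx 264 253 (.nr 263
  1509 (.l1 (.ls 16 19 491)) (.l1 .sk)) (.nx 265 254 (.l1 .sk) (.lg 0 false 5 83 83 17 0 30360)))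
  (.nr 273 16385 (.nr 271 1025 (.lg 0 false 1 67 67 16 0 6072) (.nx 272 165142 (.lg 2 false 1 59 59
  16 20381 6072) .out)) .out))) .out) .out) (.nx 290 1321124 (.nr 289 2097153 (.nr 277 134 .s1 (.nx
  280 254 (.nx 279 253 (.nr 278 1768 (.l1 (.ls 19 29 480)) (.l1 .sk)) (.l1 .sk)) (.nx 285 41287
  (.lg 0 false 5 97 97 29 0 60720) (.nr 288 16385 (.nr 286 1025 (.lg 0 false 1 73 73 19 0 36432)
  (.nx 287 165142 (.lg 2 false 1 67 67 19 20381 12144) .out)) .out)))) .out) .out))) (.na 292 163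
  (.lg 0 false 1 0 0 16 0 24) (.na 293 173 (.lg 0 false 1 0 0 16 0 24) (.lg 0 false 1 0 0 16 0
  24)))) (.na 311 193 (.na 295 182 (.lg 0 false 1 0 0 16 0 24) (.na 296 191 .ne (.nx 310 1321124
  (.nr 309 1482912 (.nr 297 191 .s1 (.nx 300 254 (.nx 299 253 (.nr 298 2173 (.l1 (.ls 16 19 338))
  (.l1 .sk)) (.l1 .sk)) (.nx 305 41287 (.lg 0 false 5 79 79 19 0 30360) (.nr 308 16385 (.nr 306
  1025 (.lg 0 false 1 61 61 16 0 6072) (.nx 307 165142 (.lg 2 false 1 53 53 16 20381 6072) .out))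
  .out)))) .out) .out))) (.na 325 211 (.na 312 206 (.lg 0 false 1 0 0 16 0 24) (.nx 324 1321124
  (.nr 323 1482912 (.nr 313 206 .s1 (.nx 315 253 (.nr 314 2376 (.l1 (.ls 17 29 313)) (.l1 .sk))
  (.nx 316 254 (.l1 .sk) (.nx 319 41287 (.lg 0 false 3 83 83 29 0 36432) (.nr 322 16385 (.lg 0 true
  3 73 73 29 0 36432) .out))))) .out) .out)) (.na 338 218 (.nx 337 1321124 (.nr 336 1482912 (.nr
  326 211 .s1 (.nx 332 41287 (.nx 328 253 (.nr 327 2455 (.l1 (.ls 16 19 306)) (.l1 .sk)) (.nx 329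
  254 (.l1 .sk) (.lg 0 false 3 79 79 17 0 18216))) (.nr 335 16385 (.nr 333 1025 (.lg 0 false 1 59
  59 16 0 6072) (.nx 334 165142 (.lg 2 false 1 53 53 16 20381 6072) .out)) .out))) .out) .out) (.nx
  350 1321124 (.nr 349 1482912 (.nr 339 218 .s1 (.nx 341 253 (.nr 340 2511 (.l1 (.ls 19 29 296))
  (.l1 .sk)) (.nx 342 254 (.l1 .sk) (.nx 345 41287 (.lg 0 false 3 83 83 29 0 36432) (.nr 348 16385
  (.nr 346 1025 (.lg 0 false 1 67 67 23 0 60720) (.nx 347 165142 (.lg 2 false 1 59 59 23 20381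
  60720) .out)) .out))))) .out) .out)))))) (.na 3279 1449 (.na 389 254 (.na 364 241 (.na 352 227
  (.lg 0 false 1 0 0 16 0 24) (.na 353 239 (.lg 0 false 1 0 0 16 0 24) (.nx 363 1321124 (.nr 362
  1482912 (.nr 354 239 .s1 (.nx 356 253 (.nr 355 2714 (.l1 (.ls 16 19 270)) (.l1 .sk)) (.nx 357 254
  (.l1 .sk) (.nx 360 41287 (.lg 0 false 3 79 79 19 0 18216) (.nr 361 16385 (.lg 0 false 1 79 79 17
  0 6072) .out))))) .out) .out))) (.na 375 242 (.nx 374 1321124 (.nr 373 1482912 (.nr 365 241 .s1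
  (.nx 371 41287 (.nx 367 253 (.nr 366 2725 (.l1 (.ls 16 19 268)) (.l1 .sk)) (.nx 368 254 (.l1 .sk)
  (.lg 0 false 3 79 79 19 0 18216))) (.nr 372 16385 (.lg 0 false 1 79 79 17 0 6072) .out))) .out)
  .out) (.na 376 253 (.lg 0 false 1 0 0 16 0 24) (.nx 388 1321124 (.nr 387 1482912 (.nr 377 253 .s1
  (.nx 379 253 (.nr 378 2860 (.l1 (.ls 16 19 255)) (.l1 .sk)) (.nx 380 254 (.l1 .sk) (.nx 383 41287
  (.lg 0 true 3 73 73 19 0 91080) (.nr 386 16385 (.lg 0 false 3 67 67 19 0 18216) .out))))) .out)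
  .out)))) (.na 725 363 (.na 400 256 (.nx 399 1321124 (.nr 398 1482912 (.nr 390 254 .s1 (.nx 392
  253 (.nr 391 2883 (.l1 (.ls 17 29 255)) (.l1 .sk)) (.nx 393 254 (.l1 .sk) (.nx 396 41287 (.lg 0
  false 3 79 79 29 0 36432) (.nr 397 16385 (.lg 0 false 1 79 79 23 0 12144) .out))))) .out) .out)
  (.na 401 257 .ne (.nx 724 1321124 (.nr 723 1482912 (.nr 402 257 .s1 (.nx 509 253 (.nr 508 4087
  (.la (.ls 19 19 252)) (.l1 .sk)) (.nx 510 254 (.l1 .sk) (.nr 616 32769 (.la (.lg 0 true 3 73 73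
  23 0)) (.nx 722 26009 (.la (.lg 0 false 3 73 73 23 0)) .out))))) .out) .out))) (.na 1823 725 (.na
  1178 512 (.nx 1177 1321124 (.nr 1176 1482912 (.nr 726 363 .s1 (.nx 876 253 (.nr 875 5765 (.la
  (.ls 19 19 179)) (.l1 .sk)) (.nx 877 254 (.l1 .sk) (.nr 1026 32769 (.la (.lg 0 false 1 79 79 23
  0)) (.nx 1175 26009 (.la (.lg 0 true 1 79 79 23 0)) .out))))) .out) .out) (.nx 1822 1321124 (.nr
  1821 1482912 (.nr 1179 512 .s1 (.nx 1394 254 (.nx 1393 253 (.nr 1392 8163 (.la (.ls 19 23 182))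
  (.l1 .sk)) (.l1 .sk)) (.nx 1607 26009 (.la (.lg 0 true 1 73 73 23 0)) (.nr 1820 32769 (.la (.lg 0
  false 1 73 73 23 0)) .out)))) .out) .out)) (.na 2425 1024 (.nx 2424 20644 (.nr 2423 2097153 (.nr
  1824 725 .s1 (.nx 2123 3252 (.la (.ls 61 43 14589)) (.nr 2422 131073 (.la (.lg 0 false 1 47 47 29
  0)) .out))) .out) .out) (.nx 3278 20644 (.nr 3277 2097153 (.nr 2426 1024 .s1 (.nx 2851 5162 (.la
  (.ls 61 43 26024)) (.nr 3276 65537 (.la (.lg 0 false 1 37 37 29 0)) .out))) .out) .out))))) (.na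
  18742 16384 (.na 5935 4096 (.na 3881 2048 (.nx 3880 13005 (.nr 3879 2097153 (.nr 3280 1449 .s1
  (.la (.ls 59 53 116724))) .out) .out) (.na 4733 2897 (.nx 4732 13005 (.nr 4731 2097153 (.nr 3882
  2048 .s1 (.la (.ls 59 53 82586))) .out) .out) (.nx 5934 4097 (.nr 5933 1048577 (.nr 4734 2897 .s1
  (.la (.ls 59 41 5797))) .out) .out))) (.na 10037 8192 (.na 7635 5793 (.nx 7634 5162 (.nr 7633
  1048577 (.nr 5936 4096 .s1 (.la (.ls 53 41 6508))) .out) .out) (.nx 10036 2049 (.nr 10035 524289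
  (.nr 7636 5793 .s1 (.la (.ls 41 37 2049))) .out) .out)) (.na 13688 11586 (.nx 13687 2049 (.nr
  13686 524289 (.nr 10038 8192 .s1 (.nx 10291 253 (.nr 10290 130440 (.lx (.lp 16 0 2897)) (.l1
  .sk)) (.nx 10292 254 (.l1 .sk) (.la (.ls 37 41 2897))))) .out) .out) (.nx 18741 2049 (.nr 18740
  131073 (.nr 13689 11586 .s1 (.nx 13941 253 (.lx (.lp 16 0 4097)) (.nx 13942 254 (.l1 .sk) (.la
  (.ls 19 41 4097))))) .out) .out)))) (.na 24473 131072 (.na 20793 32768 (.nx 20792 2049 (.nr 20791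
  262145 (.nr 18743 16384 .s1 (.lx (.lp 31 43 8193))) .out) .out) (.na 22844 65536 (.nx 22843 2049
  (.nr 22842 524289 (.nr 20794 32768 .s1 (.lx (.lp 31 47 16385))) .out) .out) (.nx 24472 1627 (.nr
  24471 524289 (.nr 22845 65536 .s1 (.lx (.lp 29 53 32769))) .out) .out))) (.na 26617 524288 (.na
  26102 262144 (.nx 26101 1627 (.nr 26100 524289 (.nr 24474 131072 .s1 (.lx (.lp 17 53 65537)))
  .out) .out) (.nx 26616 513 (.nr 26615 1048577 (.nr 26103 262144 .s1 (.lx (.lp 16 0 131073)))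
  .out) .out)) (.na 26619 1048577 (.nx 26618 324 (.l1 .sk) .out) .out))))))

theorem c101 :
    OkQ ckI L6 84 1 1099511627776 0 34359738368 1 1099511627776 ∧
    OkQ ckI L6 69 1 1099511627776 0 34359738368 1 1099511627776 ∧
    OkQ ckI L10 253 3 1099511627776 0 34359738368 1 1099511627776 := by
  refine ⟨?_, ?_, ?_⟩
  · refine fin 168 7577 T101_0 ?_
    refine jn 6 (by decide +kernel) ?_
    refine jn 7 (by decide +kernel) ?_
    refine jn 10 (by decide +kernel) ?_
    refine jn 13 (by decide +kernel) ?_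
    refine jn 15 (by decide +kernel) ?_
    refine jn 20 (by decide +kernel) ?_
    refine jn 28 (by decide +kernel) ?_
    refine jn 36 (by decide +kernel) ?_
    refine jn 43 (by decide +kernel) ?_
    refine jn 48 (by decide +kernel) ?_
    refine jn 61 (by decide +kernel) ?_
    refine jn 74 (by decide +kernel) ?_
    refine jn 95 (by decide +kernel) ?_
    refine jn 114 (by decide +kernel) ?_
    refine jn 121 (by decide +kernel) ?_
    refine jn 122 (by decide +kernel) ?_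
    refine jn 123 (by decide +kernel) ?_
    refine jn 124 (by decide +kernel) ?_
    refine jn 125 (by decide +kernel) ?_
    refine jn 126 (by decide +kernel) ?_
    refine jn 127 (by decide +kernel) ?_
    refine jn 128 (by decide +kernel) ?_
    refine jn 129 (by decide +kernel) ?_
    refine jn 130 (by decide +kernel) ?_
    refine jn 131 (by decide +kernel) ?_
    refine jn 132 (by decide +kernel) ?_
    refine jn 133 (by decide +kernel) ?_
    refine jn 134 (by decide +kernel) ?_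
    refine jn 152 (by decide +kernel) ?_
    refine jn 156 (by decide +kernel) ?_
    refine jn 158 (by decide +kernel) ?_
    refine jn 160 (by decide +kernel) ?_
    refine jn 162 (by decide +kernel) ?_
    refine jn 163 (by decide +kernel) ?_
    refine jn 165 (by decide +kernel) ?_
    refine jn 167 (by decide +kernel) ?_
    refine jn 174 (by decide +kernel) ?_
    refine jn 181 (by decide +kernel) ?_
    refine jn 187 (by decide +kernel) ?_
    refine jn 193 (by decide +kernel) ?_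
    refine jn 199 (by decide +kernel) ?_
    refine jn 213 (by decide +kernel) ?_
    refine jn 239 (by decide +kernel) ?_
    refine jn 252 (by decide +kernel) ?_
    refine jn 257 (by decide +kernel) ?_
    refine jn 270 (by decide +kernel) ?_
    refine jn 283 (by decide +kernel) ?_
    refine jn 297 (by decide +kernel) ?_
    refine jn 298 (by decide +kernel) ?_
    refine jn 299 (by decide +kernel) ?_
    refine jn 300 (by decide +kernel) ?_
    refine jn 301 (by decide +kernel) ?_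
    refine jn 302 (by decide +kernel) ?_
    refine jn 303 (by decide +kernel) ?_
    refine jn 312 (by decide +kernel) ?_
    refine jn 313 (by decide +kernel) ?_
    refine jn 314 (by decide +kernel) ?_
    refine jn 315 (by decide +kernel) ?_
    refine jn 316 (by decide +kernel) ?_
    refine jn 317 (by decide +kernel) ?_
    refine jn 323 (by decide +kernel) ?_
    refine jn 333 (by decide +kernel) ?_
    refine jn 340 (by decide +kernel) ?_
    refine jn 347 (by decide +kernel) ?_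
    refine jn 349 (by decide +kernel) ?_
    refine jn 351 (by decide +kernel) ?_
    refine jn 352 (by decide +kernel) ?_
    refine jn 355 (by decide +kernel) ?_
    refine jn 359 (by decide +kernel) ?_
    refine jn 364 (by decide +kernel) ?_
    refine jn 378 (by decide +kernel) ?_
    refine jn 397 (by decide +kernel) ?_
    refine jn 410 (by decide +kernel) ?_
    refine jn 426 (by decide +kernel) ?_
    refine jn 427 (by decide +kernel) ?_
    refine jn 428 (by decide +kernel) ?_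
    refine jn 429 (by decide +kernel) ?_
    refine jn 430 (by decide +kernel) ?_
    refine jn 431 (by decide +kernel) ?_
    refine jn 432 (by decide +kernel) ?_
    refine jn 433 (by decide +kernel) ?_
    refine jn 434 (by decide +kernel) ?_
    refine jn 441 (by decide +kernel) ?_
    refine jn 443 (by decide +kernel) ?_
    refine jn 448 (by decide +kernel) ?_
    refine jn 453 (by decide +kernel) ?_
    refine jn 455 (by decide +kernel) ?_
    refine jn 457 (by decide +kernel) ?_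
    refine jn 460 (by decide +kernel) ?_
    refine jn 463 (by decide +kernel) ?_
    refine jn 464 (by decide +kernel) ?_
    refine jn 465 (by decide +kernel) ?_
    refine jn 466 (by decide +kernel) ?_
    refine jn 467 (by decide +kernel) ?_
    refine jn 468 (by decide +kernel) ?_
    refine jn 483 (by decide +kernel) ?_
    refine jn 488 (by decide +kernel) ?_
    refine jn 493 (by decide +kernel) ?_
    refine jn 504 (by decide +kernel) ?_
    refine jn 507 (by decide +kernel) ?_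
    refine jn 511 (by decide +kernel) ?_
    refine jn 522 (by decide +kernel) ?_
    refine jn 527 (by decide +kernel) ?_
    refine jn 532 (by decide +kernel) ?_
    refine jn 546 (by decide +kernel) ?_
    refine jn 550 (by decide +kernel) ?_
    refine jn 567 (by decide +kernel) ?_
    refine jn 575 (by decide +kernel) ?_
    refine jn 576 (by decide +kernel) ?_
    refine jn 577 (by decide +kernel) ?_
    refine jn 579 (by decide +kernel) ?_
    refine jn 581 (by decide +kernel) ?_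
    refine jn 595 (by decide +kernel) ?_
    refine jn 606 (by decide +kernel) ?_
    refine jn 610 (by decide +kernel) ?_
    refine jn 619 (by decide +kernel) ?_
    refine jn 621 (by decide +kernel) ?_
    refine jn 623 (by decide +kernel) ?_
    refine jn 634 (by decide +kernel) ?_
    refine jn 643 (by decide +kernel) ?_
    refine jn 651 (by decide +kernel) ?_
    refine jn 662 (by decide +kernel) ?_
    refine jn 664 (by decide +kernel) ?_
    refine jn 675 (by decide +kernel) ?_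
    refine jn 687 (by decide +kernel) ?_
    refine jn 697 (by decide +kernel) ?_
    refine jn 699 (by decide +kernel) ?_
    refine jn 701 (by decide +kernel) ?_
    refine jn 714 (by decide +kernel) ?_
    refine jn 726 (by decide +kernel) ?_
    refine jn 739 (by decide +kernel) ?_
    refine jn 742 (by decide +kernel) ?_
    refine jn 753 (by decide +kernel) ?_
    refine jn 756 (by decide +kernel) ?_
    refine jn 767 (by decide +kernel) ?_
    refine jn 777 (by decide +kernel) ?_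
    refine jn 779 (by decide +kernel) ?_
    refine jn 790 (by decide +kernel) ?_
    refine jn 800 (by decide +kernel) ?_
    refine jn 810 (by decide +kernel) ?_
    refine jn 820 (by decide +kernel) ?_
    refine jn 829 (by decide +kernel) ?_
    refine jn 839 (by decide +kernel) ?_
    refine jn 847 (by decide +kernel) ?_
    refine jn 857 (by decide +kernel) ?_
    refine jn 873 (by decide +kernel) ?_
    refine jn 882 (by decide +kernel) ?_
    refine jn 899 (by decide +kernel) ?_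
    refine jn 907 (by decide +kernel) ?_
    refine jn 924 (by decide +kernel) ?_
    refine jn 933 (by decide +kernel) ?_
    refine jn 949 (by decide +kernel) ?_
    refine jn 963 (by decide +kernel) ?_
    refine jn 964 (by decide +kernel) ?_
    refine jn 973 (by decide +kernel) ?_
    refine jn 981 (by decide +kernel) ?_
    refine jn 989 (by decide +kernel) ?_
    refine jn 1005 (by decide +kernel) ?_
    refine jn 1021 (by decide +kernel) ?_
    refine jn 1081 (by decide +kernel) ?_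
    refine jn 1127 (by decide +kernel) ?_
    refine jn 1153 (by decide +kernel) ?_
    refine jn 1199 (by decide +kernel) ?_
    refine jn 1249 (by decide +kernel) ?_
    refine jn 1292 (by decide +kernel) ?_
    refine jn 1304 (by decide +kernel) ?_
    refine jn 1326 (by decide +kernel) ?_
    refine jn 1336 (by decide +kernel) ?_
    refine jn 1356 (by decide +kernel) ?_
    refine jn 1366 (by decide +kernel) ?_
    refine jn 1367 (by decide +kernel) ?_
    refine jn 1382 (by decide +kernel) ?_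
    refine jn 1396 (by decide +kernel) ?_
    refine jn 1400 (by decide +kernel) ?_
    refine jn 1406 (by decide +kernel) ?_
    refine jn 1408 (by decide +kernel) ?_
    refine jn 1430 (by decide +kernel) ?_
    refine jn 1438 (by decide +kernel) ?_
    refine jn 1446 (by decide +kernel) ?_
    refine jn 1454 (by decide +kernel) ?_
    refine jn 1462 (by decide +kernel) ?_
    refine jn 1472 (by decide +kernel) ?_
    refine jn 1486 (by decide +kernel) ?_
    refine jn 1488 (by decide +kernel) ?_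
    refine jn 1510 (by decide +kernel) ?_
    refine jn 1526 (by decide +kernel) ?_
    refine jn 1536 (by decide +kernel) ?_
    refine jn 1580 (by decide +kernel) ?_
    refine jn 1650 (by decide +kernel) ?_
    refine jn 1720 (by decide +kernel) ?_
    refine jn 1757 (by decide +kernel) ?_
    refine jn 1775 (by decide +kernel) ?_
    refine jn 1785 (by decide +kernel) ?_
    refine jn 1799 (by decide +kernel) ?_
    refine jn 1813 (by decide +kernel) ?_
    refine jn 1829 (by decide +kernel) ?_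
    refine jn 1861 (by decide +kernel) ?_
    refine jn 1863 (by decide +kernel) ?_
    refine jn 1885 (by decide +kernel) ?_
    refine jn 1889 (by decide +kernel) ?_
    refine jn 1903 (by decide +kernel) ?_
    refine jn 1917 (by decide +kernel) ?_
    refine jn 1933 (by decide +kernel) ?_
    refine jn 1943 (by decide +kernel) ?_
    refine jn 1957 (by decide +kernel) ?_
    refine jn 1965 (by decide +kernel) ?_
    refine jn 1995 (by decide +kernel) ?_
    refine jn 2019 (by decide +kernel) ?_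
    refine jn 2067 (by decide +kernel) ?_
    refine jn 2097 (by decide +kernel) ?_
    refine jn 2137 (by decide +kernel) ?_
    refine jn 2177 (by decide +kernel) ?_
    refine jn 2257 (by decide +kernel) ?_
    refine jn 2280 (by decide +kernel) ?_
    refine jn 2308 (by decide +kernel) ?_
    refine jn 2350 (by decide +kernel) ?_
    refine jn 2390 (by decide +kernel) ?_
    refine jn 2422 (by decide +kernel) ?_
    refine jn 2464 (by decide +kernel) ?_
    refine jn 2508 (by decide +kernel) ?_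
    refine jn 2574 (by decide +kernel) ?_
    refine jn 2630 (by decide +kernel) ?_
    refine jn 2664 (by decide +kernel) ?_
    refine jn 2694 (by decide +kernel) ?_
    refine jn 2856 (by decide +kernel) ?_
    refine jn 2916 (by decide +kernel) ?_
    refine jn 3022 (by decide +kernel) ?_
    refine jn 3092 (by decide +kernel) ?_
    refine jn 3190 (by decide +kernel) ?_
    refine jn 3271 (by decide +kernel) ?_
    refine jn 3384 (by decide +kernel) ?_
    refine jn 3524 (by decide +kernel) ?_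
    refine jn 3606 (by decide +kernel) ?_
    refine jn 3694 (by decide +kernel) ?_
    refine jn 3800 (by decide +kernel) ?_
    refine jn 3878 (by decide +kernel) ?_
    refine jn 3976 (by decide +kernel) ?_
    refine jn 4062 (by decide +kernel) ?_
    refine jn 4158 (by decide +kernel) ?_
    refine jn 4254 (by decide +kernel) ?_
    refine jn 4326 (by decide +kernel) ?_
    refine jn 4679 (by decide +kernel) ?_
    refine jn 4834 (by decide +kernel) ?_
    refine jn 4954 (by decide +kernel) ?_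
    refine jn 5195 (by decide +kernel) ?_
    refine jn 5334 (by decide +kernel) ?_
    refine jn 5446 (by decide +kernel) ?_
    refine jn 5535 (by decide +kernel) ?_
    refine jn 5609 (by decide +kernel) ?_
    refine jn 5911 (by decide +kernel) ?_
    refine jn 6051 (by decide +kernel) ?_
    refine jn 6171 (by decide +kernel) ?_
    refine jn 6259 (by decide +kernel) ?_
    refine jn 6604 (by decide +kernel) ?_
    refine jn 6808 (by decide +kernel) ?_
    refine jn 6925 (by decide +kernel) ?_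
    refine jn 7536 (by decide +kernel) ?_
    exact je (by decide +kernel)
  · refine fin 552 7923 T101_1 ?_
    refine jn 7 (by decide +kernel) ?_
    refine jn 9 (by decide +kernel) ?_
    refine jn 11 (by decide +kernel) ?_
    refine jn 13 (by decide +kernel) ?_
    refine jn 16 (by decide +kernel) ?_
    refine jn 37 (by decide +kernel) ?_
    refine jn 47 (by decide +kernel) ?_
    refine jn 54 (by decide +kernel) ?_
    refine jn 61 (by decide +kernel) ?_
    refine jn 72 (by decide +kernel) ?_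
    refine jn 79 (by decide +kernel) ?_
    refine jn 90 (by decide +kernel) ?_
    refine jn 111 (by decide +kernel) ?_
    refine jn 119 (by decide +kernel) ?_
    refine jn 123 (by decide +kernel) ?_
    refine jn 127 (by decide +kernel) ?_
    refine jn 135 (by decide +kernel) ?_
    refine jn 155 (by decide +kernel) ?_
    refine jn 166 (by decide +kernel) ?_
    refine jn 176 (by decide +kernel) ?_
    refine jn 182 (by decide +kernel) ?_
    refine jn 193 (by decide +kernel) ?_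
    refine jn 230 (by decide +kernel) ?_
    refine jn 246 (by decide +kernel) ?_
    refine jn 254 (by decide +kernel) ?_
    refine jn 261 (by decide +kernel) ?_
    refine jn 272 (by decide +kernel) ?_
    refine jn 280 (by decide +kernel) ?_
    refine jn 282 (by decide +kernel) ?_
    refine jn 284 (by decide +kernel) ?_
    refine jn 285 (by decide +kernel) ?_
    refine jn 287 (by decide +kernel) ?_
    refine jn 289 (by decide +kernel) ?_
    refine jn 294 (by decide +kernel) ?_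
    refine jn 298 (by decide +kernel) ?_
    refine jn 301 (by decide +kernel) ?_
    refine jn 304 (by decide +kernel) ?_
    refine jn 306 (by decide +kernel) ?_
    refine jn 314 (by decide +kernel) ?_
    refine jn 345 (by decide +kernel) ?_
    refine jn 354 (by decide +kernel) ?_
    refine jn 356 (by decide +kernel) ?_
    refine jn 358 (by decide +kernel) ?_
    refine jn 360 (by decide +kernel) ?_
    refine jn 368 (by decide +kernel) ?_
    refine jn 372 (by decide +kernel) ?_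
    refine jn 375 (by decide +kernel) ?_
    refine jn 376 (by decide +kernel) ?_
    refine jn 383 (by decide +kernel) ?_
    refine jn 392 (by decide +kernel) ?_
    refine jn 393 (by decide +kernel) ?_
    refine jn 394 (by decide +kernel) ?_
    refine jn 395 (by decide +kernel) ?_
    refine jn 396 (by decide +kernel) ?_
    refine jn 397 (by decide +kernel) ?_
    refine jn 398 (by decide +kernel) ?_
    refine jn 399 (by decide +kernel) ?_
    refine jn 400 (by decide +kernel) ?_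
    refine jn 404 (by decide +kernel) ?_
    refine jn 405 (by decide +kernel) ?_
    refine jn 406 (by decide +kernel) ?_
    refine jn 407 (by decide +kernel) ?_
    refine jn 408 (by decide +kernel) ?_
    refine jn 409 (by decide +kernel) ?_
    refine jn 419 (by decide +kernel) ?_
    refine jn 431 (by decide +kernel) ?_
    refine jn 435 (by decide +kernel) ?_
    refine jn 437 (by decide +kernel) ?_
    refine jn 443 (by decide +kernel) ?_
    refine jn 449 (by decide +kernel) ?_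
    refine jn 455 (by decide +kernel) ?_
    refine jn 460 (by decide +kernel) ?_
    refine jn 471 (by decide +kernel) ?_
    refine jn 473 (by decide +kernel) ?_
    refine jn 477 (by decide +kernel) ?_
    refine jn 483 (by decide +kernel) ?_
    refine jn 488 (by decide +kernel) ?_
    refine jn 506 (by decide +kernel) ?_
    refine jn 519 (by decide +kernel) ?_
    refine jn 523 (by decide +kernel) ?_
    refine jn 530 (by decide +kernel) ?_
    refine jn 543 (by decide +kernel) ?_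
    refine jn 544 (by decide +kernel) ?_
    refine jn 549 (by decide +kernel) ?_
    refine jn 555 (by decide +kernel) ?_
    refine jn 566 (by decide +kernel) ?_
    refine jn 569 (by decide +kernel) ?_
    refine jn 577 (by decide +kernel) ?_
    refine jn 588 (by decide +kernel) ?_
    refine jn 593 (by decide +kernel) ?_
    refine jn 599 (by decide +kernel) ?_
    refine jn 607 (by decide +kernel) ?_
    refine jn 608 (by decide +kernel) ?_
    refine jn 609 (by decide +kernel) ?_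
    refine jn 610 (by decide +kernel) ?_
    refine jn 611 (by decide +kernel) ?_
    refine jn 612 (by decide +kernel) ?_
    refine jn 613 (by decide +kernel) ?_
    refine jn 614 (by decide +kernel) ?_
    refine jn 615 (by decide +kernel) ?_
    refine jn 619 (by decide +kernel) ?_
    refine jn 621 (by decide +kernel) ?_
    refine jn 633 (by decide +kernel) ?_
    refine jn 638 (by decide +kernel) ?_
    refine jn 650 (by decide +kernel) ?_
    refine jn 655 (by decide +kernel) ?_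
    refine jn 666 (by decide +kernel) ?_
    refine jn 671 (by decide +kernel) ?_
    refine jn 686 (by decide +kernel) ?_
    refine jn 699 (by decide +kernel) ?_
    refine jn 712 (by decide +kernel) ?_
    refine jn 716 (by decide +kernel) ?_
    refine jn 729 (by decide +kernel) ?_
    refine jn 743 (by decide +kernel) ?_
    refine jn 755 (by decide +kernel) ?_
    refine jn 757 (by decide +kernel) ?_
    refine jn 759 (by decide +kernel) ?_
    refine jn 772 (by decide +kernel) ?_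
    refine jn 787 (by decide +kernel) ?_
    refine jn 801 (by decide +kernel) ?_
    refine jn 812 (by decide +kernel) ?_
    refine jn 823 (by decide +kernel) ?_
    refine jn 836 (by decide +kernel) ?_
    refine jn 847 (by decide +kernel) ?_
    refine jn 858 (by decide +kernel) ?_
    refine jn 869 (by decide +kernel) ?_
    refine jn 880 (by decide +kernel) ?_
    refine jn 882 (by decide +kernel) ?_
    refine jn 893 (by decide +kernel) ?_
    refine jn 904 (by decide +kernel) ?_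
    refine jn 915 (by decide +kernel) ?_
    refine jn 926 (by decide +kernel) ?_
    refine jn 935 (by decide +kernel) ?_
    refine jn 937 (by decide +kernel) ?_
    refine jn 953 (by decide +kernel) ?_
    refine jn 959 (by decide +kernel) ?_
    refine jn 968 (by decide +kernel) ?_
    refine jn 984 (by decide +kernel) ?_
    refine jn 1002 (by decide +kernel) ?_
    refine jn 1011 (by decide +kernel) ?_
    refine jn 1027 (by decide +kernel) ?_
    refine jn 1045 (by decide +kernel) ?_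
    refine jn 1056 (by decide +kernel) ?_
    refine jn 1071 (by decide +kernel) ?_
    refine jn 1081 (by decide +kernel) ?_
    refine jn 1096 (by decide +kernel) ?_
    refine jn 1106 (by decide +kernel) ?_
    refine jn 1114 (by decide +kernel) ?_
    refine jn 1130 (by decide +kernel) ?_
    refine jn 1145 (by decide +kernel) ?_
    refine jn 1155 (by decide +kernel) ?_
    refine jn 1163 (by decide +kernel) ?_
    refine jn 1180 (by decide +kernel) ?_
    refine jn 1197 (by decide +kernel) ?_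
    refine jn 1207 (by decide +kernel) ?_
    refine jn 1229 (by decide +kernel) ?_
    refine jn 1259 (by decide +kernel) ?_
    refine jn 1293 (by decide +kernel) ?_
    refine jn 1319 (by decide +kernel) ?_
    refine jn 1357 (by decide +kernel) ?_
    refine jn 1406 (by decide +kernel) ?_
    refine jn 1454 (by decide +kernel) ?_
    refine jn 1481 (by decide +kernel) ?_
    refine jn 1485 (by decide +kernel) ?_
    refine jn 1500 (by decide +kernel) ?_
    refine jn 1504 (by decide +kernel) ?_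
    refine jn 1514 (by decide +kernel) ?_
    refine jn 1520 (by decide +kernel) ?_
    refine jn 1537 (by decide +kernel) ?_
    refine jn 1542 (by decide +kernel) ?_
    refine jn 1553 (by decide +kernel) ?_
    refine jn 1562 (by decide +kernel) ?_
    refine jn 1569 (by decide +kernel) ?_
    refine jn 1574 (by decide +kernel) ?_
    refine jn 1580 (by decide +kernel) ?_
    refine jn 1590 (by decide +kernel) ?_
    refine jn 1605 (by decide +kernel) ?_
    refine jn 1610 (by decide +kernel) ?_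
    refine jn 1617 (by decide +kernel) ?_
    refine jn 1632 (by decide +kernel) ?_
    refine jn 1645 (by decide +kernel) ?_
    refine jn 1661 (by decide +kernel) ?_
    refine jn 1674 (by decide +kernel) ?_
    refine jn 1689 (by decide +kernel) ?_
    refine jn 1702 (by decide +kernel) ?_
    refine jn 1713 (by decide +kernel) ?_
    refine jn 1742 (by decide +kernel) ?_
    refine jn 1792 (by decide +kernel) ?_
    refine jn 1834 (by decide +kernel) ?_
    refine jn 1888 (by decide +kernel) ?_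
    refine jn 1940 (by decide +kernel) ?_
    refine jn 1961 (by decide +kernel) ?_
    refine jn 1970 (by decide +kernel) ?_
    refine jn 1982 (by decide +kernel) ?_
    refine jn 1990 (by decide +kernel) ?_
    refine jn 2002 (by decide +kernel) ?_
    refine jn 2014 (by decide +kernel) ?_
    refine jn 2026 (by decide +kernel) ?_
    refine jn 2031 (by decide +kernel) ?_
    refine jn 2032 (by decide +kernel) ?_
    refine jn 2038 (by decide +kernel) ?_
    refine jn 2053 (by decide +kernel) ?_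
    refine jn 2067 (by decide +kernel) ?_
    refine jn 2082 (by decide +kernel) ?_
    refine jn 2086 (by decide +kernel) ?_
    refine jn 2099 (by decide +kernel) ?_
    refine jn 2101 (by decide +kernel) ?_
    refine jn 2106 (by decide +kernel) ?_
    refine jn 2122 (by decide +kernel) ?_
    refine jn 2137 (by decide +kernel) ?_
    refine jn 2150 (by decide +kernel) ?_
    refine jn 2165 (by decide +kernel) ?_
    refine jn 2198 (by decide +kernel) ?_
    refine jn 2234 (by decide +kernel) ?_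
    refine jn 2269 (by decide +kernel) ?_
    refine jn 2314 (by decide +kernel) ?_
    refine jn 2350 (by decide +kernel) ?_
    refine jn 2390 (by decide +kernel) ?_
    refine jn 2435 (by decide +kernel) ?_
    refine jn 2540 (by decide +kernel) ?_
    refine jn 2576 (by decide +kernel) ?_
    refine jn 2626 (by decide +kernel) ?_
    refine jn 2654 (by decide +kernel) ?_
    refine jn 2704 (by decide +kernel) ?_
    refine jn 2739 (by decide +kernel) ?_
    refine jn 2775 (by decide +kernel) ?_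
    refine jn 2823 (by decide +kernel) ?_
    refine jn 2863 (by decide +kernel) ?_
    refine jn 2918 (by decide +kernel) ?_
    refine jn 3033 (by decide +kernel) ?_
    refine jn 3088 (by decide +kernel) ?_
    refine jn 3183 (by decide +kernel) ?_
    refine jn 3257 (by decide +kernel) ?_
    refine jn 3321 (by decide +kernel) ?_
    refine jn 3380 (by decide +kernel) ?_
    refine jn 3455 (by decide +kernel) ?_
    refine jn 3525 (by decide +kernel) ?_
    refine jn 3592 (by decide +kernel) ?_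
    refine jn 3826 (by decide +kernel) ?_
    refine jn 3919 (by decide +kernel) ?_
    refine jn 3998 (by decide +kernel) ?_
    refine jn 4078 (by decide +kernel) ?_
    refine jn 4147 (by decide +kernel) ?_
    refine jn 4230 (by decide +kernel) ?_
    refine jn 4318 (by decide +kernel) ?_
    refine jn 4410 (by decide +kernel) ?_
    refine jn 4502 (by decide +kernel) ?_
    refine jn 4591 (by decide +kernel) ?_
    refine jn 4672 (by decide +kernel) ?_
    refine jn 4998 (by decide +kernel) ?_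
    refine jn 5135 (by decide +kernel) ?_
    refine jn 5244 (by decide +kernel) ?_
    refine jn 5322 (by decide +kernel) ?_
    refine jn 5581 (by decide +kernel) ?_
    refine jn 5716 (by decide +kernel) ?_
    refine jn 5812 (by decide +kernel) ?_
    refine jn 5900 (by decide +kernel) ?_
    refine jn 5961 (by decide +kernel) ?_
    refine jn 6282 (by decide +kernel) ?_
    refine jn 6454 (by decide +kernel) ?_
    refine jn 6572 (by decide +kernel) ?_
    refine jn 6845 (by decide +kernel) ?_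
    refine jn 7075 (by decide +kernel) ?_
    refine jn 7219 (by decide +kernel) ?_
    refine jn 7597 (by decide +kernel) ?_
    exact je (by decide +kernel)
  · refine fin 6072 26620 T101_2 ?_
    refine jn 6 (by decide +kernel) ?_
    refine jn 7 (by decide +kernel) ?_
    refine jn 8 (by decide +kernel) ?_
    refine jn 9 (by decide +kernel) ?_
    refine jn 10 (by decide +kernel) ?_
    refine jn 16 (by decide +kernel) ?_
    refine jn 17 (by decide +kernel) ?_
    refine jn 18 (by decide +kernel) ?_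
    refine jn 19 (by decide +kernel) ?_
    refine jn 20 (by decide +kernel) ?_
    refine jn 21 (by decide +kernel) ?_
    refine jn 22 (by decide +kernel) ?_
    refine jn 23 (by decide +kernel) ?_
    refine jn 24 (by decide +kernel) ?_
    refine jn 25 (by decide +kernel) ?_
    refine jn 26 (by decide +kernel) ?_
    refine jn 27 (by decide +kernel) ?_
    refine jn 28 (by decide +kernel) ?_
    refine jn 29 (by decide +kernel) ?_
    refine jn 30 (by decide +kernel) ?_
    refine jn 31 (by decide +kernel) ?_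
    refine jn 32 (by decide +kernel) ?_
    refine jn 33 (by decide +kernel) ?_
    refine jn 34 (by decide +kernel) ?_
    refine jn 35 (by decide +kernel) ?_
    refine jn 44 (by decide +kernel) ?_
    refine jn 52 (by decide +kernel) ?_
    refine jn 66 (by decide +kernel) ?_
    refine jn 84 (by decide +kernel) ?_
    refine jn 107 (by decide +kernel) ?_
    refine jn 122 (by decide +kernel) ?_
    refine jn 127 (by decide +kernel) ?_
    refine jn 139 (by decide +kernel) ?_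
    refine jn 164 (by decide +kernel) ?_
    refine jn 182 (by decide +kernel) ?_
    refine jn 191 (by decide +kernel) ?_
    refine jn 206 (by decide +kernel) ?_
    refine jn 221 (by decide +kernel) ?_
    refine jn 235 (by decide +kernel) ?_
    refine jn 246 (by decide +kernel) ?_
    refine jn 247 (by decide +kernel) ?_
    refine jn 248 (by decide +kernel) ?_
    refine jn 249 (by decide +kernel) ?_
    refine jn 250 (by decide +kernel) ?_
    refine jn 270 (by decide +kernel) ?_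
    refine jn 285 (by decide +kernel) ?_
    refine jn 305 (by decide +kernel) ?_
    refine jn 322 (by decide +kernel) ?_
    refine jn 340 (by decide +kernel) ?_
    refine jn 353 (by decide +kernel) ?_
    refine jn 371 (by decide +kernel) ?_
    refine jn 390 (by decide +kernel) ?_
    refine jn 402 (by decide +kernel) ?_
    refine jn 510 (by decide +kernel) ?_
    refine jn 522 (by decide +kernel) ?_
    refine jn 531 (by decide +kernel) ?_
    refine jn 551 (by decide +kernel) ?_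
    refine jn 560 (by decide +kernel) ?_
    refine jn 587 (by decide +kernel) ?_
    refine jn 606 (by decide +kernel) ?_
    refine jn 621 (by decide +kernel) ?_
    refine jn 630 (by decide +kernel) ?_
    refine jn 648 (by decide +kernel) ?_
    refine jn 661 (by decide +kernel) ?_
    refine jn 676 (by decide +kernel) ?_
    refine jn 696 (by decide +kernel) ?_
    refine jn 726 (by decide +kernel) ?_
    refine jn 881 (by decide +kernel) ?_
    refine jn 897 (by decide +kernel) ?_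
    refine jn 933 (by decide +kernel) ?_
    refine jn 981 (by decide +kernel) ?_
    refine jn 1016 (by decide +kernel) ?_
    refine jn 1030 (by decide +kernel) ?_
    refine jn 1046 (by decide +kernel) ?_
    refine jn 1082 (by decide +kernel) ?_
    refine jn 1130 (by decide +kernel) ?_
    refine jn 1165 (by decide +kernel) ?_
    refine jn 1179 (by decide +kernel) ?_
    refine jn 1396 (by decide +kernel) ?_
    refine jn 1429 (by decide +kernel) ?_
    refine jn 1459 (by decide +kernel) ?_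
    refine jn 1489 (by decide +kernel) ?_
    refine jn 1525 (by decide +kernel) ?_
    refine jn 1556 (by decide +kernel) ?_
    refine jn 1588 (by decide +kernel) ?_
    refine jn 1637 (by decide +kernel) ?_
    refine jn 1657 (by decide +kernel) ?_
    refine jn 1681 (by decide +kernel) ?_
    refine jn 1729 (by decide +kernel) ?_
    refine jn 1766 (by decide +kernel) ?_
    refine jn 1796 (by decide +kernel) ?_
    refine jn 1850 (by decide +kernel) ?_
    refine jn 2010 (by decide +kernel) ?_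
    refine jn 2132 (by decide +kernel) ?_
    refine jn 2164 (by decide +kernel) ?_
    refine jn 2236 (by decide +kernel) ?_
    refine jn 2327 (by decide +kernel) ?_
    refine jn 2419 (by decide +kernel) ?_
    refine jn 2540 (by decide +kernel) ?_
    refine jn 2619 (by decide +kernel) ?_
    refine jn 2723 (by decide +kernel) ?_
    refine jn 2864 (by decide +kernel) ?_
    refine jn 2950 (by decide +kernel) ?_
    refine jn 2998 (by decide +kernel) ?_
    refine jn 3058 (by decide +kernel) ?_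
    refine jn 3133 (by decide +kernel) ?_
    refine jn 3250 (by decide +kernel) ?_
    refine jn 3309 (by decide +kernel) ?_
    refine jn 3432 (by decide +kernel) ?_
    refine jn 3530 (by decide +kernel) ?_
    refine jn 3669 (by decide +kernel) ?_
    refine jn 3773 (by decide +kernel) ?_
    refine jn 3873 (by decide +kernel) ?_
    refine jn 3972 (by decide +kernel) ?_
    refine jn 4073 (by decide +kernel) ?_
    refine jn 4160 (by decide +kernel) ?_
    refine jn 4268 (by decide +kernel) ?_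
    refine jn 4392 (by decide +kernel) ?_
    refine jn 4541 (by decide +kernel) ?_
    refine jn 4712 (by decide +kernel) ?_
    refine jn 4919 (by decide +kernel) ?_
    refine jn 5111 (by decide +kernel) ?_
    refine jn 5328 (by decide +kernel) ?_
    refine jn 5583 (by decide +kernel) ?_
    refine jn 5871 (by decide +kernel) ?_
    refine jn 6106 (by decide +kernel) ?_
    refine jn 6321 (by decide +kernel) ?_
    refine jn 6522 (by decide +kernel) ?_
    refine jn 6749 (by decide +kernel) ?_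
    refine jn 7026 (by decide +kernel) ?_
    refine jn 7283 (by decide +kernel) ?_
    refine jn 7569 (by decide +kernel) ?_
    refine jn 7917 (by decide +kernel) ?_
    refine jn 8294 (by decide +kernel) ?_
    refine jn 8657 (by decide +kernel) ?_
    refine jn 9026 (by decide +kernel) ?_
    refine jn 9476 (by decide +kernel) ?_
    refine jn 9840 (by decide +kernel) ?_
    refine jn 10290 (by decide +kernel) ?_
    refine jn 10702 (by decide +kernel) ?_
    refine jn 11153 (by decide +kernel) ?_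
    refine jn 11569 (by decide +kernel) ?_
    refine jn 12007 (by decide +kernel) ?_
    refine jn 12433 (by decide +kernel) ?_
    refine jn 12898 (by decide +kernel) ?_
    refine jn 13323 (by decide +kernel) ?_
    refine jn 13689 (by decide +kernel) ?_
    refine jn 14234 (by decide +kernel) ?_
    refine jn 14730 (by decide +kernel) ?_
    refine jn 15090 (by decide +kernel) ?_
    refine jn 15547 (by decide +kernel) ?_
    refine jn 16000 (by decide +kernel) ?_
    refine jn 16449 (by decide +kernel) ?_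
    refine jn 16898 (by decide +kernel) ?_
    refine jn 17334 (by decide +kernel) ?_
    refine jn 17762 (by decide +kernel) ?_
    refine jn 18215 (by decide +kernel) ?_
    refine jn 18650 (by decide +kernel) ?_
    refine jn 19173 (by decide +kernel) ?_
    refine jn 19467 (by decide +kernel) ?_
    refine jn 19664 (by decide +kernel) ?_
    refine jn 19817 (by decide +kernel) ?_
    refine jn 19931 (by decide +kernel) ?_
    refine jn 20041 (by decide +kernel) ?_
    refine jn 20138 (by decide +kernel) ?_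
    refine jn 20226 (by decide +kernel) ?_
    refine jn 20306 (by decide +kernel) ?_
    refine jn 20379 (by decide +kernel) ?_
    refine jn 20447 (by decide +kernel) ?_
    refine jn 20509 (by decide +kernel) ?_
    refine jn 20569 (by decide +kernel) ?_
    refine jn 20625 (by decide +kernel) ?_
    refine jn 20677 (by decide +kernel) ?_
    refine jn 20729 (by decide +kernel) ?_
    refine jn 20778 (by decide +kernel) ?_
    refine jn 21275 (by decide +kernel) ?_
    refine jn 21624 (by decide +kernel) ?_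
    refine jn 21858 (by decide +kernel) ?_
    refine jn 22050 (by decide +kernel) ?_
    refine jn 22209 (by decide +kernel) ?_
    refine jn 22349 (by decide +kernel) ?_
    refine jn 22469 (by decide +kernel) ?_
    refine jn 22579 (by decide +kernel) ?_
    refine jn 22678 (by decide +kernel) ?_
    refine jn 22766 (by decide +kernel) ?_
    refine jn 22997 (by decide +kernel) ?_
    refine jn 23627 (by decide +kernel) ?_
    refine jn 23935 (by decide +kernel) ?_
    refine jn 24192 (by decide +kernel) ?_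
    refine jn 24395 (by decide +kernel) ?_
    refine jn 24989 (by decide +kernel) ?_
    refine jn 25474 (by decide +kernel) ?_
    refine jn 25828 (by decide +kernel) ?_
    refine jn 26100 (by decide +kernel) ?_
    exact je (by decide +kernel)

end Pool.Agent.MP_2339ce_nt.NR
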