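import Pool.Agent.MP_2339ce_nt.Q2.NC.L8
import Pool.Agent.MP_2339ce_nt.Q2.NC.L10
import Pool.Agent.MP_2339ce_nt.Q2.CkI

/-! Block NR: runs. -/

set_option autoImplicit false
set_option maxRecDepth 100000

noncomputable section

namespace Pool.Agent.MP_2339ce_nt.NR

open Q2.Top

def T103_0 : Ph :=
  (.na 755 12 (.na 434 6 (.na 1 2 .ne (.na 433 3 (.nx 432 3329023 (.nr 431 1763489 (.nx 419 2642247
  (.nx 4 252 (.nx 3 251 (.nr 2 30 (.lg 0 false 1 43 43 5 0 144) (.l1 .sk)) (.l1 .sk)) (.nx 385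
  1048577 (.nx 138 52017 (.nr 81 262145 (.lg 0 false 77 101 109 13 0 720720) (.nx 103 408 (.lg 0
  false 22 83 83 11 0 1584) (.nx 104 26007 .out (.nr 137 311745 (.lg 0 false 33 97 107 13 0 720720)
  .out)))) (.nr 384 262145 (.nr 182 3446 (.nr 171 941 (.lg 0 true 33 89 97 13 0 55440) (.lg 2 true
  11 101 101 9 139848 55440)) (.nx 383 832257 (.nx 237 82572 (.lg 1 false 55 101 107 13 158904
  720720) (.nr 382 220437 (.nx 270 116773 (.lg 1 false 33 101 107 13 84192 720720) (.nr 281 6599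
  (.lg 2 true 11 89 97 9 30310 55440) (.nx 314 165142 (.lg 1 false 33 101 107 13 59533 720720) (.nr
  381 155873 (.nr 347 92683 (.lg 2 false 33 101 107 13 17728 720720) (.nx 380 262145 (.lg 2 false
  33 101 107 13 29781 720720) .out)) .out)))) .out)) .out)) .out)) (.nr 418 257 (.lg 0 true 33 83
  89 13 0 1584) .out))) (.nr 430 9 (.lg 0 true 11 67 67 9 0 1584) .out)) .out) .out) .ne)) (.na 638
  7 (.nx 637 21137969 (.nr 636 1048577 (.nx 436 251 (.nr 435 77 (.lg 0 true 1 41 41 7 0 5040) (.l1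
  .sk)) (.nx 437 252 (.l1 .sk) (.nr 630 623489 (.nx 583 2642247 (.nx 571 832257 (.nx 456 40478 (.nr
  450 220437 (.lg 0 false 13 103 109 19 0 720720) (.nx 455 814 (.lg 0 false 5 89 89 13 0 5040)
  .out)) (.nr 570 311745 (.nr 469 941 (.lg 0 true 13 89 89 19 0 65520) (.nx 483 52015 (.nr 482
  220437 (.lg 1 false 13 97 107 19 171745 720720) .out) (.nx 497 82570 (.nr 496 262145 (.lg 1 false
  13 101 107 19 158910 720720) .out) (.nr 505 6606 (.nr 502 3451 (.lg 2 true 5 89 97 13 110998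
  5040) (.lg 2 true 3 89 89 13 30267 5040)) (.nx 558 262145 (.nx 518 112360 (.lg 1 false 13 101 107
  19 119028 720720) (.nx 544 208065 (.nx 531 152899 (.lg 1 false 13 101 107 19 87470 720720) (.lg 1
  false 13 101 107 19 64279 720720)) (.nr 557 262145 (.lg 1 true 13 97 107 19 39727 720720) .out)))
  (.nr 569 131073 (.lg 2 false 11 101 107 17 15812 720720) .out)))))) .out)) (.nr 582 257 (.lg 0
  true 11 83 83 17 0 1584) .out)) (.nr 629 28 (.nx 596 5284493 (.lg 0 true 13 73 73 13 0 1872) (.lg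
  0 true 33 79 79 13 0 1584)) .out)) (.nx 635 324 (.lg 0 false 5 73 73 13 0 720) .out)))) .out)
  .out) (.na 639 10 .ne (.nx 754 2642247 (.nr 753 1246976 (.nx 642 252 (.nx 641 251 (.nr 640 134
  (.lg 0 true 1 31 31 11 0 720) (.l1 .sk)) (.l1 .sk)) (.nx 645 408 (.nx 643 324 (.l1 (.ls 89 43
  4150)) (.nr 644 1048577 (.l1 (.ls 83 47 6151)) .out)) (.nr 752 741457 (.nx 744 1321124 (.nx 670
  46340 (.nr 658 220437 (.lg 0 false 13 101 107 19 0 720720) (.nx 665 1627 (.lg 0 false 7 83 83 13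
  0 5040) (.nx 666 32768 .out (.nr 669 262145 (.lg 0 false 3 89 89 13 0 720) .out)))) (.nr 743
  311745 (.nr 681 1118 (.lg 0 true 11 83 89 19 0 7920) (.nx 689 65536 (.nr 688 262145 (.lg 1 false
  7 97 101 13 178371 5040) .out) (.nr 696 4602 (.lg 2 true 7 83 89 13 148302 5040) (.nr 699 18939
  (.lg 2 true 3 89 89 13 36029 720) (.nx 720 185364 (.nx 713 131072 (.nx 706 92681 (.lg 1 false 7
  97 101 13 149965 5040) (.lg 1 false 7 97 101 13 106043 5040)) (.lg 1 false 7 97 103 13 74983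
  55440)) (.nx 727 262145 (.lg 1 true 7 97 103 13 53021 55440) (.nr 742 185365 (.nx 734 330282 (.lg
  1 true 7 89 97 13 22305 5040) (.nr 741 110219 (.lg 2 false 7 83 97 13 10537 5040) .out))
  .out))))))) .out)) (.nr 751 65 (.lg 0 true 7 71 71 13 0 5040) .out)) .out))) .out) .out)))) (.na
  839 18 (.na 756 14 .ne (.na 838 16 (.nx 837 2642247 (.nr 836 1246976 (.nx 758 251 (.nr 757 179
  (.lg 0 true 1 31 31 11 0 1008) (.l1 .sk)) (.nx 759 252 (.l1 .sk) (.nx 828 660563 (.nx 760 324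
  (.l1 (.ls 89 43 2965)) (.nr 827 1048577 (.nx 761 408 (.l1 (.ls 83 43 4395)) (.nr 826 741457 (.nx
  778 41285 (.nr 772 220437 (.lg 0 false 11 101 103 19 0 720720) (.nx 777 1627 (.lg 0 false 5 83 83
  13 0 5040) .out)) (.nr 825 311745 (.nr 783 1637 (.lg 0 true 5 83 83 13 0 5040) (.nx 795 82570
  (.nr 794 262145 (.lg 1 false 11 101 103 19 200211 720720) .out) (.nr 798 7163 (.lg 2 true 3 83 83
  13 50642 5040) (.nx 821 330282 (.nx 809 165142 (.lg 1 false 11 101 107 19 119028 720720) (.nr 820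
  262145 (.lg 1 true 11 101 103 19 50052 720720) .out)) (.nr 824 77937 (.lg 2 false 3 89 97 13
  11574 5040) .out))))) .out)) .out)) .out)) (.nr 835 65 (.lg 0 true 7 71 71 13 0 1008) .out))))
  .out) .out) .ne)) (.na 906 26 (.na 905 23 (.nx 904 2642247 (.nr 903 1246976 (.nr 840 9 .s1 (.nx
  843 252 (.nx 842 251 (.nr 841 258 (.lg 0 true 1 29 29 13 0 144) (.l1 .sk)) (.l1 .sk)) (.nx 844
  408 (.l1 (.ls 83 47 5723)) (.nr 902 741457 (.nr 896 311745 (.nr 890 220437 (.nx 882 660563 (.nx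
  855 59103 (.lg 0 false 11 97 103 23 0 720720) (.nr 870 92683 (.nr 862 1731 (.lg 0 true 7 79 79 19
  0 1008) (.nx 869 524289 (.lg 2 false 7 89 97 19 49533 5040) .out)) (.nx 881 262145 (.lg 2 false
  11 101 103 23 117623 720720) .out))) (.nr 889 129 (.lg 0 true 7 67 67 19 0 1008) .out)) (.nx 895
  13005 (.lg 0 false 5 79 83 19 0 720) .out)) (.nx 901 1627 (.lg 0 false 5 73 79 19 0 720) .out))
  .out)))) .out) .out) .ne) (.na 951 30 (.nx 950 2642247 (.nr 949 1048577 (.nr 907 21 .s1 (.nx 910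
  252 (.nx 909 251 (.nr 908 337 (.lg 0 true 1 31 31 11 0 65520) (.l1 .sk)) (.l1 .sk)) (.nx 931
  82572 (.nx 911 408 (.l1 (.ls 83 43 3963)) (.nr 930 741457 (.nr 922 185365 (.lg 0 false 11 97 103
  23 0 720720) (.nx 929 16385 (.lg 0 false 7 89 101 19 0 65520) .out)) .out)) (.nr 948 131073 (.nr
  942 2973 (.nx 936 660563 (.lg 0 true 5 83 83 19 0 9360) (.nr 941 129 (.lg 0 true 5 67 67 19 0
  9360) .out)) (.nx 947 524289 (.lg 2 false 5 97 101 19 50100 65520) .out)) .out)))) .out) .out)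
  (.nx 987 2642247 (.nr 986 1048577 (.nr 952 26 .s1 (.nx 981 660563 (.nx 955 252 (.nx 954 251 (.nr
  953 359 (.lg 0 true 1 37 37 19 0 720) (.l1 .sk)) (.l1 .sk)) (.nx 956 408 (.l1 (.ls 83 47 3435))
  (.nr 980 741457 (.nr 977 524289 (.nx 967 82572 (.nr 963 185365 (.lg 0 false 7 97 103 31 0 65520)
  (.nx 966 16385 (.lg 0 false 3 97 101 29 0 65520) .out)) (.nr 976 131073 (.nr 969 1052 (.lg 0 true
  2 79 79 23 0 720) (.nx 975 524289 (.nr 972 77937 (.nr 970 3088 (.lg 2 true 1 79 79 19 62546 720)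
  (.lg 2 false 2 97 101 23 29829 5040)) (.nx 974 416129 (.lg 2 false 2 101 103 23 50100 720720)
  .out)) .out)) .out)) (.nx 979 2582 (.lg 0 false 2 83 83 23 0 720) .out)) .out))) (.nr 985 129
  (.lg 0 true 4 71 71 29 0 720) .out))) .out) .out)))))

def T103_1 : Ph :=
  (.na 926 139 (.na 571 81 (.na 333 53 (.na 178 37 (.na 87 31 (.na 31 27 (.nx 30 1664512 (.nr 29
  1048577 (.nr 1 22 .s1 (.nx 4 177 (.nx 3 176 (.nr 2 254 (.lg 0 false 1 29 29 16 0 7920) (.l1 .sk))
  (.l1 .sk)) (.nx 5 257 (.l1 (.ls 83 31 1391)) (.nr 28 311745 (.nr 24 110219 (.nx 12 41287 (.lg 0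
  false 7 89 97 16 0 55440) (.nr 23 65537 (.nr 19 513 (.lg 0 true 7 73 79 16 0 55440) (.nx 22
  165142 (.lg 2 false 3 89 89 16 28329 7920) .out)) .out)) (.nx 27 8193 (.lg 0 false 3 89 89 16 0
  7920) .out)) .out)))) .out) .out) (.na 60 30 (.nx 59 1664512 (.nr 58 1048577 (.nr 32 24 .s1 (.nx
  44 20644 (.nx 34 176 (.nr 33 282 (.lg 0 false 1 23 23 16 0 1584) (.l1 .sk)) (.nx 35 177 (.l1 .sk)
  (.nx 36 257 (.l1 (.ls 79 31 1288)) (.nr 43 311745 (.lg 0 false 7 89 97 17 0 55440) .out)))) (.nr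
  57 77937 (.nr 51 513 (.lg 0 true 7 73 73 17 0 11088) (.nx 56 165142 (.lg 2 false 5 89 89 16 58606
  7920) .out)) .out))) .out) .out) (.nx 86 1664512 (.nr 85 1048577 (.nr 61 27 .s1 (.nx 65 257 (.nx
  63 176 (.nr 62 291 (.lg 0 false 1 31 31 19 0 7920) (.l1 .sk)) (.nx 64 177 (.l1 .sk) (.l1 (.ls 83
  43 1160)))) (.nr 84 311745 (.nr 81 110219 (.nx 77 208065 (.nx 72 41287 (.lg 0 false 7 83 97 31 0
  55440) (.nr 76 65537 (.nr 73 1307 (.lg 0 false 1 79 79 19 0 7920) (.nx 75 165142 (.lg 2 false 2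
  89 97 23 24652 7920) .out)) .out)) (.nr 80 217 (.lg 0 true 3 73 73 29 0 7920) .out)) (.nx 83 8193
  (.lg 0 false 2 89 97 23 0 7920) .out)) .out))) .out) .out))) (.na 134 33 (.na 110 32 (.nx 109
  1664512 (.nr 108 1048577 (.nr 88 29 .s1 (.nx 91 177 (.nx 90 176 (.nr 89 301 (.lg 0 false 1 23 23
  13 0 7920) (.l1 .sk)) (.l1 .sk)) (.nx 98 20644 (.nx 92 257 (.l1 (.ls 83 23 1123)) (.nr 97 311745
  (.lg 0 false 5 97 97 16 0 7920) .out)) (.nr 107 77937 (.nr 103 301 (.lg 0 true 5 73 73 16 0 7920)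
  (.nx 106 208065 (.lg 2 false 3 101 101 16 60830 55440) .out)) .out)))) .out) .out) (.nx 133
  1664512 (.nr 132 1048577 (.nr 111 30 .s1 (.nx 115 257 (.nx 113 176 (.nr 112 310 (.lg 0 false 1 31
  31 13 0 7920) (.l1 .sk)) (.nx 114 177 (.l1 .sk) (.l1 (.ls 83 31 1088)))) (.nr 131 440873 (.nr 127
  110219 (.nx 118 41287 (.lg 0 false 3 97 101 19 0 55440) (.nr 126 65537 (.nr 123 1307 (.nx 119
  208065 (.lg 0 false 1 79 79 13 0 1584) (.nr 122 217 (.lg 0 true 3 73 73 19 0 1584) .out)) (.nx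
  125 165142 (.lg 2 false 2 97 101 13 24652 55440) .out)) .out)) (.nx 130 10323 (.lg 0 false 3 97
  101 19 0 55440) .out)) .out))) .out) .out)) (.na 158 36 (.nx 157 1664512 (.nr 156 881745 (.nr 135
  31 .s1 (.nx 139 257 (.nx 137 176 (.nr 136 338 (.lg 0 false 1 23 23 16 0 7920) (.l1 .sk)) (.nx 138
  177 (.l1 .sk) (.l1 (.ls 73 31 1055)))) (.nr 155 440873 (.nx 146 20644 (.lg 0 false 7 89 97 19 0
  55440) (.nr 154 46342 (.nr 151 257 (.lg 0 true 5 67 67 19 0 7920) (.nx 153 104033 (.lg 2 true 2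
  89 89 16 35623 7920) .out)) .out)) .out))) .out) .out) (.nx 177 1664512 (.nr 176 881745 (.nr 159
  34 .s1 (.nx 172 104033 (.nx 161 176 (.nr 160 348 (.l1 (.ls 31 37 863)) (.l1 .sk)) (.nx 162 177
  (.l1 .sk) (.nx 163 257 (.l1 (.ls 83 41 967)) (.nr 171 440873 (.nx 168 26009 (.nr 165 110219 (.lg
  0 false 2 89 97 23 0 7920) (.nx 167 10323 (.lg 0 false 2 97 97 23 0 7920) .out)) (.nr 170 32769
  (.nr 169 2143 (.lg 0 false 1 79 79 19 0 7920) (.lg 2 true 1 89 89 19 19619 7920)) .out)) .out))))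
  (.nr 175 257 (.lg 0 true 3 73 73 23 0 1584) .out))) .out) .out)))) (.na 260 46 (.na 221 44 (.na
  201 40 (.nx 200 1664512 (.nr 199 881745 (.nr 179 35 .s1 (.nx 182 177 (.nx 181 176 (.nr 180 376
  (.l1 (.ls 23 23 840)) (.l1 .sk)) (.l1 .sk)) (.nx 183 257 (.l1 (.ls 79 23 941)) (.nr 198 440873
  (.nx 190 20644 (.lg 0 false 7 97 97 16 0 55440) (.nr 197 46342 (.nr 194 257 (.lg 0 true 4 71 71
  16 0 1584) (.nx 196 104033 (.lg 2 true 2 89 89 16 35623 7920) .out)) .out)) .out)))) .out) .out)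
  (.nx 220 1664512 (.nr 219 881745 (.nr 202 38 .s1 (.nx 205 177 (.nx 204 176 (.nr 203 414 (.l1 (.ls
  31 37 777)) (.l1 .sk)) (.l1 .sk)) (.nx 213 26009 (.nx 210 10323 (.nx 206 257 (.l1 (.ls 79 37
  871)) (.nr 209 440873 (.lg 0 false 3 89 89 23 0 7920) .out)) (.nr 212 110219 (.lg 0 false 2 89 89
  19 0 7920) .out)) (.nr 218 32769 (.nr 216 414 (.lg 0 true 3 73 73 23 0 7920) (.nx 217 104033 (.lg
  2 true 1 83 83 19 22114 7920) .out)) .out)))) .out) .out)) (.na 240 45 (.nx 239 1664512 (.nr 238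
  881745 (.nr 222 42 .s1 (.nx 231 20644 (.nx 223 257 (.l1 (.ls 73 41 1504)) (.nr 230 440873 (.lg 0
  false 7 83 89 23 0 55440) .out)) (.nr 237 46342 (.nr 234 257 (.lg 0 true 3 61 61 19 0 1584) (.nx
  236 104033 (.lg 2 true 2 83 83 19 35623 7920) .out)) .out))) .out) .out) (.nx 259 1664512 (.nr
  258 881745 (.nr 241 44 .s1 (.nx 245 257 (.nx 243 176 (.nr 242 432 (.l1 (.ls 31 31 691)) (.l1
  .sk)) (.nx 244 177 (.l1 .sk) (.l1 (.ls 83 31 774)))) (.nr 257 440873 (.nx 253 104033 (.nr 248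
  32769 (.lg 0 false 3 83 83 19 0 7920) (.nx 252 26009 (.nr 249 110219 (.lg 0 true 1 97 97 17 0
  7920) (.nx 251 10323 (.lg 0 false 2 89 97 19 0 7920) .out)) .out)) (.nr 256 257 (.lg 0 true 3 73
  73 19 0 7920) .out)) .out))) .out) .out))) (.na 296 48 (.na 277 47 (.nx 276 1664512 (.nr 275
  881745 (.nr 261 45 .s1 (.nx 268 20644 (.nx 262 257 (.l1 (.ls 79 41 1438)) (.nr 267 623489 (.lg 0
  false 5 97 97 19 0 7920) .out)) (.nr 274 46342 (.nr 271 257 (.lg 0 true 3 67 67 13 0 1584) (.nx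
  273 104033 (.lg 2 true 2 89 89 13 35623 1584) .out)) .out))) .out) .out) (.nx 295 1664512 (.nr
  294 881745 (.nr 278 46 .s1 (.nx 279 257 (.l1 (.ls 79 29 1408)) (.nr 293 623489 (.nx 286 20644
  (.lg 0 false 7 89 97 16 0 55440) (.nr 292 46342 (.nr 289 257 (.lg 0 true 3 67 67 16 0 1584) (.nx
  291 104033 (.lg 2 true 2 83 83 16 35623 1584) .out)) .out)) .out))) .out) .out)) (.na 314 50 (.nx
  313 1664512 (.nr 312 881745 (.nr 297 47 .s1 (.nx 304 13005 (.nx 299 176 (.nr 298 470 (.l1 (.ls 37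
  37 648)) (.l1 .sk)) (.nx 300 177 (.l1 .sk) (.nx 301 257 (.l1 (.ls 83 37 726)) (.nr 303 623489
  (.lg 0 false 2 97 101 29 0 7920) .out)))) (.nr 311 110219 (.nx 305 26009 (.lg 0 false 1 97 97 23
  0 7920) (.nr 310 32769 (.nx 307 104033 (.nr 306 3924 (.lg 0 true 1 83 83 23 0 7920) (.lg 2 false
  1 89 89 23 19619 7920)) (.nr 309 257 (.lg 0 true 2 73 73 29 0 1584) .out)) .out)) .out))) .out)
  .out) (.nx 332 1664512 (.nr 331 881745 (.nr 315 49 .s1 (.nx 316 257 (.l1 (.ls 79 41 1323)) (.nr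
  330 623489 (.nx 323 20644 (.lg 0 false 7 89 89 23 0 55440) (.nr 329 46342 (.nr 326 257 (.lg 0
  true 3 67 67 19 0 7920) (.nx 328 104033 (.lg 2 true 2 83 83 19 35623 7920) .out)) .out)) .out)))
  .out) .out))))) (.na 455 66 (.na 402 60 (.na 369 55 (.na 350 54 (.nx 349 1664512 (.nr 348 881745
  (.nr 334 52 .s1 (.nx 341 20644 (.nx 335 257 (.l1 (.ls 79 29 1249)) (.nr 340 623489 (.lg 0 false 5
  89 97 16 0 7920) .out)) (.nr 347 46342 (.nr 344 257 (.lg 0 true 3 67 67 16 0 1584) (.nx 346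
  104033 (.lg 2 false 2 83 83 16 35623 1584) .out)) .out))) .out) .out) (.nx 368 1664512 (.nr 367
  881745 (.nr 351 53 .s1 (.nx 360 20644 (.nx 352 257 (.l1 (.ls 73 41 1226)) (.nr 359 623489 (.lg 0
  false 7 83 89 29 0 55440) .out)) (.nr 366 46342 (.nr 363 257 (.lg 0 true 3 61 61 23 0 1584) (.nx
  365 104033 (.lg 2 true 2 79 79 19 35623 7920) .out)) .out))) .out) .out)) (.na 388 59 (.nx 387
  1664512 (.nr 386 881745 (.nr 370 54 .s1 (.nx 371 257 (.l1 (.ls 73 31 1203)) (.nr 385 623489 (.nx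
  378 20644 (.lg 0 false 7 83 89 19 0 55440) (.nr 384 46342 (.nr 381 257 (.lg 0 true 3 61 61 17 0
  7920) (.nx 383 104033 (.lg 2 true 2 79 79 17 35623 7920) .out)) .out)) .out))) .out) .out) (.nx
  401 1664512 (.nr 400 881745 (.nr 389 58 .s1 (.nx 394 20644 (.nx 390 257 (.l1 (.ls 79 23 1122))
  (.nr 393 623489 (.lg 0 false 3 97 97 16 0 7920) .out)) (.nr 399 46342 (.nr 396 257 (.lg 0 true 2
  71 71 16 0 1584) (.nx 398 104033 (.lg 2 true 2 83 83 16 35623 1584) .out)) .out))) .out) .out)))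
  (.na 437 64 (.na 420 62 (.nx 419 1664512 (.nr 418 881745 (.nr 403 59 .s1 (.nx 406 177 (.nx 405
  176 (.nr 404 583 (.l1 (.ls 37 37 519)) (.l1 .sk)) (.l1 .sk)) (.nx 415 104033 (.nx 407 257 (.l1
  (.ls 83 41 581)) (.nr 414 623489 (.nr 411 110219 (.nx 408 26009 (.lg 0 false 1 97 97 29 0 7920)
  (.nr 410 32769 (.nr 409 4370 (.lg 0 true 1 83 83 29 0 7920) (.lg 2 false 1 83 89 29 19619 7920))
  .out)) (.nx 413 13005 (.lg 0 false 2 97 103 31 0 55440) .out)) .out)) (.nr 417 257 (.lg 0 true 2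
  73 73 31 0 7920) .out)))) .out) .out) (.nx 436 1664512 (.nr 435 881745 (.nr 421 61 .s1 (.nx 422
  257 (.l1 (.ls 79 37 1068)) (.nr 434 623489 (.nx 427 20644 (.lg 0 false 5 89 89 19 0 7920) (.nr
  433 46342 (.nr 430 602 (.lg 0 true 3 71 71 19 0 1584) (.nx 432 104033 (.lg 2 false 2 79 79 17
  34901 1584) .out)) .out)) .out))) .out) .out)) (.na 454 65 (.nx 453 1664512 (.nr 452 881745 (.nr
  438 63 .s1 (.nx 440 176 (.nr 439 611 (.l1 (.ls 37 29 486)) (.l1 .sk)) (.nx 441 177 (.l1 .sk) (.nx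
  442 257 (.l1 (.ls 83 29 545)) (.nr 451 623489 (.nx 444 13005 (.lg 0 false 2 89 97 23 0 7920) (.nr
  450 110219 (.nx 445 26009 (.lg 0 false 1 89 89 19 0 7920) (.nr 449 32769 (.nr 447 513 (.lg 0 true
  2 79 79 23 0 7920) (.nx 448 104033 (.lg 1 true 1 89 97 19 19619 7920) .out)) .out)) .out))
  .out))))) .out) .out) .ne))) (.na 515 72 (.na 485 69 (.na 470 67 (.nx 469 1664512 (.nr 468 524289
  (.nr 456 65 .s1 (.nx 458 176 (.nr 457 630 (.l1 (.ls 23 37 472)) (.l1 .sk)) (.nx 459 177 (.l1 .sk)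
  (.nx 462 20644 (.lg 0 false 3 89 89 29 0 7920) (.nr 467 32769 (.nr 465 513 (.lg 0 true 3 67 67 29
  0 1584) (.nx 466 104033 (.lg 2 true 1 79 79 23 24718 55440) .out)) .out))))) .out) .out) (.nx 484
  1664512 (.nr 483 524289 (.nr 471 66 .s1 (.nx 477 20644 (.nx 473 176 (.nr 472 649 (.l1 (.ls 23 19
  465)) (.l1 .sk)) (.nx 474 177 (.l1 .sk) (.lg 0 false 3 89 89 16 0 1584))) (.nr 482 32769 (.nr 480
  513 (.lg 0 true 3 71 71 16 0 1584) (.nx 481 104033 (.lg 2 true 1 83 83 16 24718 1584) .out))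
  .out))) .out) .out)) (.na 500 71 (.nx 499 1664512 (.nr 498 524289 (.nr 486 68 .s1 (.nx 493 20644
  (.nx 491 13005 (.nx 488 176 (.nr 487 667 (.l1 (.ls 19 29 451)) (.l1 .sk)) (.nx 489 177 (.l1 .sk)
  (.lg 0 false 2 97 97 17 0 7920))) (.nr 492 65537 (.lg 0 true 1 83 83 17 0 7920) .out)) (.nr 497
  32769 (.nr 495 513 (.lg 0 true 2 73 73 17 0 1584) (.nx 496 104033 (.lg 2 true 1 83 83 17 24718
  1584) .out)) .out))) .out) .out) (.nx 514 1664512 (.nr 513 524289 (.nr 501 70 .s1 (.nx 507 20644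
  (.nx 503 176 (.nr 502 677 (.l1 (.ls 23 19 439)) (.l1 .sk)) (.nx 504 177 (.l1 .sk) (.lg 0 false 3
  89 89 16 0 7920))) (.nr 512 32769 (.nr 510 513 (.lg 0 true 3 67 67 16 0 1584) (.nx 511 104033
  (.lg 2 true 1 83 83 16 24718 7920) .out)) .out))) .out) .out))) (.na 545 75 (.na 530 74 (.nx 529
  1664512 (.nr 528 524289 (.nr 516 71 .s1 (.nx 519 177 (.nx 518 176 (.nr 517 696 (.l1 (.ls 29 31
  433)) (.l1 .sk)) (.l1 .sk)) (.nx 521 13005 (.lg 0 false 2 89 89 29 0 7920) (.nr 527 65537 (.nx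
  522 20644 (.lg 0 false 1 73 73 23 0 1584) (.nr 526 32769 (.nr 524 513 (.lg 0 true 2 71 71 29 0
  1584) (.nx 525 104033 (.lg 2 true 1 79 79 23 24718 1584) .out)) .out)) .out)))) .out) .out) (.nx
  544 1664512 (.nr 543 524289 (.nr 531 73 .s1 (.nx 537 20644 (.nx 533 176 (.nr 532 705 (.l1 (.ls 23
  29 421)) (.l1 .sk)) (.nx 534 177 (.l1 .sk) (.lg 0 false 3 89 89 19 0 1584))) (.nr 542 32769 (.nr
  540 513 (.lg 0 true 3 71 71 19 0 1584) (.nx 541 104033 (.lg 2 true 1 79 79 13 24718 1584) .out))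
  .out))) .out) .out)) (.na 558 80 (.nx 557 1664512 (.nr 556 524289 (.nr 546 74 .s1 (.nx 551 20644
  (.nx 548 176 (.nr 547 752 (.l1 (.ls 31 29 416)) (.l1 .sk)) (.nx 549 177 (.l1 .sk) (.lg 0 false 2
  89 89 19 0 7920))) (.nr 555 32769 (.nr 553 513 (.lg 0 true 2 71 71 19 0 7920) (.nx 554 104033
  (.lg 2 true 1 79 79 17 24718 7920) .out)) .out))) .out) .out) (.nx 570 1664512 (.nr 569 524289
  (.nr 559 79 .s1 (.nx 562 177 (.nx 561 176 (.nr 560 761 (.l1 (.ls 37 31 390)) (.l1 .sk)) (.l1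
  .sk)) (.nx 567 104033 (.nr 563 32769 (.lg 0 true 1 97 97 23 0 7920) (.nx 566 20644 (.nx 564 13005
  (.lg 0 false 1 97 101 23 0 7920) (.nr 565 65537 (.lg 0 false 1 79 79 23 0 7920) .out)) .out))
  (.nr 568 513 (.lg 0 true 1 79 79 23 0 7920) .out)))) .out) .out)))))) (.na 779 111 (.na 668 96
  (.na 626 91 (.na 599 89 (.na 586 88 (.nx 585 1664512 (.nr 584 524289 (.nr 572 80 .s1 (.nx 574 176
  (.nr 573 827 (.l1 (.ls 23 23 385)) (.l1 .sk)) (.nx 575 177 (.l1 .sk) (.nx 578 20644 (.lg 0 false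
  3 83 83 17 0 7920) (.nr 583 32769 (.nr 581 513 (.lg 0 true 3 67 67 17 0 1584) (.nx 582 104033
  (.lg 2 true 1 73 73 16 24718 1584) .out)) .out))))) .out) .out) (.nx 598 1664512 (.nr 597 524289
  (.nr 587 87 .s1 (.nx 593 20644 (.nx 589 176 (.nr 588 836 (.l1 (.ls 23 31 354)) (.l1 .sk)) (.nx
  590 177 (.l1 .sk) (.lg 0 false 3 83 83 23 0 7920))) (.nr 596 32769 (.nr 594 513 (.lg 0 false 1 71
  71 19 0 1584) (.nx 595 104033 (.lg 2 true 1 73 73 19 24718 1584) .out)) .out))) .out) .out)) (.na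
  613 90 (.nx 612 1664512 (.nr 611 524289 (.nr 600 89 .s1 (.nx 606 20644 (.nx 602 176 (.nr 601 846
  (.l1 (.ls 23 19 351)) (.l1 .sk)) (.nx 603 177 (.l1 .sk) (.lg 0 false 3 83 83 16 0 7920))) (.nr
  610 32769 (.nr 608 513 (.lg 0 true 2 61 61 16 0 1584) (.nx 609 104033 (.lg 2 true 1 73 73 16
  24718 7920) .out)) .out))) .out) .out) (.nx 625 1664512 (.nr 624 524289 (.nr 614 90 .s1 (.nx 616
  176 (.nr 615 855 (.l1 (.ls 31 37 347)) (.l1 .sk)) (.nx 617 177 (.l1 .sk) (.nx 619 20644 (.lg 0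
  false 2 89 89 31 0 7920) (.nr 623 32769 (.nr 621 513 (.lg 0 true 2 71 71 31 0 7920) (.nx 622
  104033 (.lg 2 true 1 79 79 29 24718 7920) .out)) .out))))) .out) .out))) (.na 641 93 (.na 627 92
  .ne (.nx 640 1664512 (.nr 639 1048577 (.nr 628 92 .s1 (.nx 631 177 (.nx 630 176 (.nr 629 874 (.l1
  (.ls 19 31 339)) (.l1 .sk)) (.l1 .sk)) (.nx 634 13005 (.lg 0 false 3 89 97 19 0 7920) (.nr 638
  65537 (.nx 635 104033 (.lg 0 false 1 97 97 19 0 7920) (.nr 637 513 (.lg 0 true 2 71 71 19 0 1584)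
  .out)) .out)))) .out) .out)) (.na 654 94 (.nx 653 1664512 (.nr 652 1048577 (.nr 642 93 .s1 (.nx
  645 177 (.nx 644 176 (.nr 643 883 (.l1 (.ls 29 23 336)) (.l1 .sk)) (.l1 .sk)) (.nx 647 13005 (.lg
  0 false 2 97 97 19 0 7920) (.nr 651 65537 (.nx 648 104033 (.lg 0 false 1 97 97 17 0 7920) (.nr
  650 513 (.lg 0 true 2 71 71 19 0 1584) .out)) .out)))) .out) .out) (.nx 667 1664512 (.nr 666
  1048577 (.nr 655 94 .s1 (.nx 658 177 (.nx 657 176 (.nr 656 902 (.l1 (.ls 23 29 332)) (.l1 .sk))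
  (.l1 .sk)) (.nx 664 104033 (.nr 660 65537 (.lg 0 false 2 89 89 19 0 7920) (.nx 663 13005 (.lg 0
  false 3 83 83 19 0 1584) .out)) (.nr 665 513 (.lg 0 false 1 73 73 17 0 1584) .out)))) .out)
  .out)))) (.na 726 103 (.na 697 99 (.na 682 97 (.nx 681 1664512 (.nr 680 1048577 (.nr 669 96 .s1
  (.nx 671 176 (.nr 670 912 (.l1 (.ls 31 31 325)) (.l1 .sk)) (.nx 672 177 (.l1 .sk) (.nx 674 13005
  (.lg 0 false 2 89 97 31 0 7920) (.nr 679 65537 (.nr 677 32769 (.nx 675 104033 (.lg 0 true 1 89 89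
  29 0 7920) (.nr 676 513 (.lg 0 true 1 73 73 29 0 1584) .out)) (.nx 678 20644 (.lg 0 false 1 73 73
  29 0 7920) .out)) .out))))) .out) .out) (.nx 696 1664512 (.nr 695 1048577 (.nr 683 97 .s1 (.nx
  685 176 (.nr 684 930 (.l1 (.ls 23 19 322)) (.l1 .sk)) (.nx 686 177 (.l1 .sk) (.nx 692 104033 (.nr
  688 65537 (.lg 0 true 2 79 79 16 0 1584) (.nx 691 13005 (.lg 0 false 3 79 79 16 0 1584) .out))
  (.nr 694 513 (.lg 0 true 2 61 61 16 0 1584) .out))))) .out) .out)) (.na 712 100 (.nx 711 1664512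
  (.nr 710 1048577 (.nr 698 99 .s1 (.nx 707 104033 (.nx 700 176 (.nr 699 940 (.l1 (.ls 23 29 315))
  (.l1 .sk)) (.nx 701 177 (.l1 .sk) (.nr 703 65537 (.lg 0 true 2 79 79 19 0 1584) (.nx 706 13005
  (.lg 0 false 3 83 83 23 0 7920) .out)))) (.nr 709 513 (.lg 0 true 2 61 61 19 0 1584) .out)))
  .out) .out) (.nx 725 1664512 (.nr 724 1048577 (.nr 713 100 .s1 (.nx 716 177 (.nx 715 176 (.nr 714
  968 (.l1 (.ls 31 31 312)) (.l1 .sk)) (.l1 .sk)) (.nx 719 13005 (.lg 0 false 3 83 89 29 0 7920)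
  (.nr 723 65537 (.nx 720 104033 (.lg 0 false 1 89 89 23 0 7920) (.nr 722 513 (.lg 0 true 2 71 71
  29 0 7920) .out)) .out)))) .out) .out))) (.na 753 108 (.na 740 106 (.nx 739 1664512 (.nr 738
  1048577 (.nr 727 103 .s1 (.nx 736 104033 (.nx 729 176 (.nr 728 996 (.l1 (.ls 19 19 303)) (.l1
  .sk)) (.nx 730 177 (.l1 .sk) (.nr 732 65537 (.lg 0 true 2 79 79 16 0 1584) (.nx 735 13005 (.lg 0
  false 3 79 79 16 0 1584) .out)))) (.nr 737 513 (.lg 0 false 1 71 71 16 0 7920) .out))) .out)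
  .out) (.nx 752 1664512 (.nr 751 1048577 (.nr 741 106 .s1 (.nx 743 176 (.nr 742 1015 (.l1 (.ls 23
  29 295)) (.l1 .sk)) (.nx 744 177 (.l1 .sk) (.nx 747 20644 (.lg 0 false 3 89 89 23 0 7920) (.nr
  750 32769 (.nr 748 513 (.lg 0 false 1 73 73 19 0 7920) (.nx 749 104033 (.lg 2 true 1 73 73 19
  24718 1584) .out)) .out))))) .out) .out)) (.na 766 110 (.nx 765 1664512 (.nr 764 1048577 (.nr 754
  108 .s1 (.nx 756 176 (.nr 755 1034 (.l1 (.ls 31 31 289)) (.l1 .sk)) (.nx 757 177 (.l1 .sk) (.nx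
  761 104033 (.nx 759 13005 (.lg 0 false 2 89 89 29 0 1584) (.nr 760 65537 (.lg 0 false 1 89 89 23
  0 7920) .out)) (.nr 763 513 (.lg 0 true 2 71 71 29 0 1584) .out))))) .out) .out) (.nx 778 1664512
  (.nr 777 1048577 (.nr 767 110 .s1 (.nx 770 177 (.nx 769 176 (.nr 768 1043 (.l1 (.ls 23 31 284))
  (.l1 .sk)) (.l1 .sk)) (.nx 773 20644 (.lg 0 false 3 83 83 29 0 7920) (.nr 776 32769 (.nr 774 513
  (.lg 0 false 1 71 71 23 0 7920) (.nx 775 104033 (.lg 2 true 1 71 71 23 24718 7920) .out))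
  .out)))) .out) .out))))) (.na 870 128 (.na 833 120 (.na 806 115 (.na 792 113 (.nx 791 1664512
  (.nr 790 1048577 (.nr 780 111 .s1 (.nx 783 177 (.nx 782 176 (.nr 781 1062 (.l1 (.ls 29 23 282))
  (.l1 .sk)) (.l1 .sk)) (.nx 787 104033 (.nx 785 13005 (.lg 0 false 2 97 97 19 0 7920) (.nr 786
  65537 (.lg 0 false 1 97 97 17 0 7920) .out)) (.nr 789 513 (.lg 0 true 2 71 71 19 0 1584) .out))))
  .out) .out) (.nx 805 1664512 (.nr 804 1048577 (.nr 793 113 .s1 (.nx 795 176 (.nr 794 1081 (.l1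
  (.ls 23 17 277)) (.l1 .sk)) (.nx 796 177 (.l1 .sk) (.nx 799 20644 (.lg 0 false 3 83 83 16 0 1584)
  (.nr 803 32769 (.nr 801 513 (.lg 0 true 2 61 61 16 0 1584) (.nx 802 104033 (.lg 2 true 1 71 71 16
  24718 1584) .out)) .out))))) .out) .out)) (.na 819 118 (.nx 818 1664512 (.nr 817 1048577 (.nr 807
  115 .s1 (.nx 814 104033 (.nx 812 13005 (.nx 809 176 (.nr 808 1109 (.l1 (.ls 19 19 272)) (.l1
  .sk)) (.nx 810 177 (.l1 .sk) (.lg 0 false 2 97 97 19 0 7920))) (.nr 813 65537 (.lg 0 false 1 97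
  97 17 0 7920) .out)) (.nr 816 513 (.lg 0 true 2 73 73 19 0 7920) .out))) .out) .out) (.nx 832
  1664512 (.nr 831 1048577 (.nr 820 118 .s1 (.nx 826 20644 (.nx 822 176 (.nr 821 1128 (.l1 (.ls 23
  29 265)) (.l1 .sk)) (.nx 823 177 (.l1 .sk) (.lg 0 false 3 83 83 23 0 1584))) (.nr 830 32769 (.nr
  828 513 (.lg 0 true 2 61 61 19 0 1584) (.nx 829 104033 (.lg 2 true 1 73 73 19 24718 7920) .out))
  .out))) .out) .out))) (.na 845 124 (.na 844 121 (.nx 843 1664512 (.nr 842 1048577 (.nr 834 120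
  .s1 (.nx 837 177 (.nx 836 176 (.nr 835 1137 (.l1 (.ls 37 37 261)) (.l1 .sk)) (.l1 .sk)) (.nr 840
  65537 (.nx 838 104033 (.lg 0 true 1 89 97 31 0 7920) (.nr 839 513 (.lg 0 true 1 73 73 31 0 7920)
  .out)) (.nx 841 13005 (.lg 0 false 1 97 97 31 0 7920) .out)))) .out) .out) (.lg 0 false 1 0 0 16
  0 24)) (.na 857 125 (.nx 856 1664512 (.nr 855 1048577 (.nr 846 124 .s1 (.nx 853 104033 (.nx 848
  176 (.nr 847 1175 (.l1 (.ls 29 23 252)) (.l1 .sk)) (.nx 849 177 (.l1 .sk) (.nr 850 65537 (.lg 0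
  false 1 89 89 19 0 7920) (.nx 852 13005 (.lg 0 false 2 89 89 23 0 7920) .out)))) (.nr 854 513
  (.lg 0 true 1 71 71 19 0 1584) .out))) .out) .out) (.nx 869 1664512 (.nr 868 1048577 (.nr 858 125
  .s1 (.nx 860 176 (.nr 859 1203 (.l1 (.ls 23 19 250)) (.l1 .sk)) (.nx 861 177 (.l1 .sk) (.nx 864
  20644 (.lg 0 false 3 83 83 17 0 7920) (.nr 867 32769 (.nr 865 513 (.lg 0 false 1 71 71 16 0 7920)
  (.nx 866 104033 (.lg 2 true 1 71 71 16 24718 7920) .out)) .out))))) .out) .out)))) (.na 884 134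
  (.na 872 131 (.na 871 129 (.lg 0 false 1 0 0 16 0 24) .ne) (.na 873 132 (.lg 0 false 1 0 0 16 0
  24) (.nx 883 832257 (.nr 882 1048577 (.nr 874 132 .s1 (.nx 880 104033 (.nx 875 257 (.l1 (.ls 73
  41 503)) (.nr 879 741457 (.nx 877 13005 (.lg 0 false 2 83 83 31 0 1584) (.nr 878 16385 (.lg 0
  true 1 73 73 31 0 1584) .out)) .out)) (.nr 881 1025 (.lg 0 true 1 67 67 31 0 1584) .out))) .out)
  .out))) (.na 905 137 (.na 894 135 (.nx 893 832257 (.nr 892 1048577 (.nr 885 134 .s1 (.nx 886 257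
  (.l1 (.ls 61 29 495)) (.nr 891 741457 (.nr 889 16385 (.lg 0 true 3 83 83 23 0 7920) (.nx 890
  13005 (.lg 0 true 1 89 89 19 0 7920) .out)) .out))) .out) .out) (.nx 904 832257 (.nr 903 1048577
  (.nr 895 135 .s1 (.nx 899 13005 (.nx 896 257 (.l1 (.ls 73 29 492)) (.nr 898 741457 (.lg 0 false 2
  83 83 23 0 7920) .out)) (.nr 902 16385 (.nx 900 104033 (.lg 0 true 1 73 73 19 0 7920) (.nr 901
  1025 (.lg 0 true 1 67 67 19 0 7920) .out)) .out))) .out) .out)) (.na 915 138 (.nx 914 832257 (.nr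
  913 1048577 (.nr 906 137 .s1 (.nx 907 257 (.l1 (.ls 71 19 485)) (.nr 912 741457 (.nr 910 16385
  (.lg 0 true 3 79 79 17 0 1584) (.nx 911 13005 (.lg 0 true 1 83 83 16 0 1584) .out)) .out))) .out)
  .out) (.nx 925 832257 (.nr 924 1048577 (.nr 916 138 .s1 (.nx 917 257 (.l1 (.ls 73 41 481)) (.nr
  923 741457 (.nx 921 104033 (.nx 919 13005 (.lg 0 false 2 89 89 37 0 7920) (.nr 920 16385 (.lg 0
  false 1 79 79 31 0 1584) .out)) (.nr 922 1025 (.lg 0 true 1 71 71 31 0 1584) .out)) .out))) .out)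
  .out))))))) (.na 1170 197 (.na 1047 173 (.na 982 155 (.na 958 148 (.na 938 142 (.na 927 141 (.lg
  0 false 1 0 0 16 0 24) (.nx 937 832257 (.nr 936 1048577 (.nr 928 141 .s1 (.nx 929 257 (.l1 (.ls
  79 23 471)) (.nr 935 741457 (.nx 931 13005 (.lg 0 false 2 89 89 19 0 7920) (.nr 934 16385 (.nx
  932 104033 (.lg 0 true 1 79 79 19 0 1584) (.nr 933 1025 (.lg 0 true 1 71 71 19 0 1584) .out))
  .out)) .out))) .out) .out)) (.na 948 144 (.nx 947 832257 (.nr 946 1048577 (.nr 939 142 .s1 (.nx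
  940 257 (.l1 (.ls 67 29 468)) (.nr 945 741457 (.nr 943 16385 (.lg 0 true 3 79 79 23 0 1584) (.nx
  944 13005 (.lg 0 true 1 89 89 19 0 7920) .out)) .out))) .out) .out) (.nx 957 832257 (.nr 956
  1048577 (.nr 949 144 .s1 (.nx 954 104033 (.nx 950 257 (.l1 (.ls 79 37 461)) (.nr 953 741457 (.nx
  951 13005 (.lg 0 false 1 89 97 31 0 7920) (.nr 952 16385 (.lg 0 true 1 79 83 31 0 7920) .out))
  .out)) (.nr 955 1025 (.lg 0 true 1 73 73 31 0 1584) .out))) .out) .out))) (.na 970 150 (.na 969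
  149 (.nx 968 832257 (.nr 967 1048577 (.nr 959 148 .s1 (.nx 960 257 (.l1 (.ls 79 29 449)) (.nr 966
  741457 (.nx 962 13005 (.lg 0 false 2 89 89 23 0 7920) (.nr 965 16385 (.nx 963 104033 (.lg 0 true
  1 79 79 23 0 1584) (.nr 964 1025 (.lg 0 true 1 71 71 23 0 1584) .out)) .out)) .out))) .out) .out)
  (.lg 0 false 1 0 0 16 0 24)) (.na 981 151 (.nx 980 832257 (.nr 979 1048577 (.nr 971 150 .s1 (.nx
  977 104033 (.nx 975 13005 (.nx 972 257 (.l1 (.ls 73 37 443)) (.nr 974 741457 (.lg 0 false 2 83 83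
  31 0 7920) .out)) (.nr 976 16385 (.lg 0 true 1 73 73 31 0 7920) .out)) (.nr 978 1025 (.lg 0 true
  1 67 67 31 0 7920) .out))) .out) .out) (.lg 0 false 1 0 0 16 0 24)))) (.na 1020 162 (.na 1000 159
  (.na 992 157 (.nx 991 832257 (.nr 990 1048577 (.nr 983 155 .s1 (.nx 988 104033 (.nx 986 13005
  (.nx 984 257 (.l1 (.ls 79 23 429)) (.nr 985 741457 (.lg 0 true 1 89 89 17 0 7920) .out)) (.nr 987
  16385 (.lg 0 false 1 79 79 17 0 7920) .out)) (.nr 989 1025 (.lg 0 true 1 71 71 17 0 7920) .out)))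
  .out) .out) (.nx 999 832257 (.nr 998 1048577 (.nr 993 157 .s1 (.nx 994 257 (.l1 (.ls 71 19 423))
  (.nr 997 741457 (.nr 995 16385 (.lg 0 false 1 83 83 16 0 1584) (.nx 996 13005 (.lg 0 true 1 83 83
  16 0 7920) .out)) .out))) .out) .out)) (.na 1010 160 (.nx 1009 832257 (.nr 1008 1048577 (.nr 1001
  159 .s1 (.nx 1006 104033 (.nx 1002 257 (.l1 (.ls 73 23 418)) (.nr 1005 741457 (.nx 1003 13005
  (.lg 0 true 1 89 89 19 0 7920) (.nr 1004 16385 (.lg 0 true 1 73 73 19 0 1584) .out)) .out)) (.nr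
  1007 1025 (.lg 0 true 1 67 67 19 0 1584) .out))) .out) .out) (.nx 1019 832257 (.nr 1018 1048577
  (.nr 1011 160 .s1 (.nx 1016 104033 (.nx 1012 257 (.l1 (.ls 79 31 415)) (.nr 1015 741457 (.nx 1013
  13005 (.lg 0 false 1 89 89 29 0 7920) (.nr 1014 16385 (.lg 0 true 1 79 83 29 0 7920) .out))
  .out)) (.nr 1017 1025 (.lg 0 true 1 73 73 29 0 7920) .out))) .out) .out))) (.na 1036 165 (.na
  1028 163 (.nx 1027 832257 (.nr 1026 1048577 (.nr 1021 162 .s1 (.nx 1022 257 (.l1 (.ls 67 31 410))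
  (.nr 1025 741457 (.nr 1023 16385 (.lg 0 false 1 83 83 23 0 7920) (.nx 1024 13005 (.lg 0 true 1 83
  83 23 0 7920) .out)) .out))) .out) .out) (.nx 1035 832257 (.nr 1034 1048577 (.nr 1029 163 .s1
  (.nx 1030 257 (.l1 (.ls 67 19 408)) (.nr 1033 741457 (.nr 1031 16385 (.lg 0 false 1 83 83 16 0
  7920) (.nx 1032 13005 (.lg 0 true 1 79 79 16 0 1584) .out)) .out))) .out) .out)) (.na 1046 167
  (.nx 1045 832257 (.nr 1044 1048577 (.nr 1037 165 .s1 (.nx 1042 104033 (.nx 1040 13005 (.nx 1038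
  257 (.l1 (.ls 73 31 403)) (.nr 1039 741457 (.lg 0 true 1 89 89 29 0 7920) .out)) (.nr 1041 16385
  (.lg 0 true 1 73 73 29 0 7920) .out)) (.nr 1043 1025 (.lg 0 true 1 67 67 29 0 7920) .out))) .out)
  .out) (.lg 0 false 1 0 0 16 0 24))))) (.na 1103 184 (.na 1076 179 (.na 1058 177 (.na 1048 176
  (.lg 0 false 1 0 0 16 0 24) (.nx 1057 832257 (.nr 1056 1048577 (.nr 1049 176 .s1 (.nx 1054 104033
  (.nx 1050 257 (.l1 (.ls 73 31 378)) (.nr 1053 741457 (.nx 1051 13005 (.lg 0 true 1 83 83 29 0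
  7920) (.nr 1052 16385 (.lg 0 true 1 73 73 29 0 7920) .out)) .out)) (.nr 1055 1025 (.lg 0 true 1
  67 67 29 0 1584) .out))) .out) .out)) (.na 1068 178 (.nx 1067 832257 (.nr 1066 1048577 (.nr 1059
  177 .s1 (.nx 1060 257 (.l1 (.ls 73 23 376)) (.nr 1065 741457 (.nx 1063 104033 (.nx 1061 13005
  (.lg 0 false 1 83 83 19 0 1584) (.nr 1062 16385 (.lg 0 true 1 73 73 19 0 1584) .out)) (.nr 1064
  1025 (.lg 0 true 1 67 67 19 0 1584) .out)) .out))) .out) .out) (.nx 1075 832257 (.nr 1074 1048577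
  (.nr 1069 178 .s1 (.nx 1070 257 (.l1 (.ls 71 29 374)) (.nr 1073 741457 (.nr 1071 16385 (.lg 0
  false 1 89 89 19 0 7920) (.nx 1072 13005 (.lg 0 true 1 79 79 19 0 1584) .out)) .out))) .out)
  .out))) (.na 1094 181 (.na 1084 180 (.nx 1083 832257 (.nr 1082 1048577 (.nr 1077 179 .s1 (.nx
  1078 257 (.l1 (.ls 67 19 371)) (.nr 1081 741457 (.nr 1079 16385 (.lg 0 false 1 83 83 16 0 7920)
  (.nx 1080 13005 (.lg 0 true 1 79 79 16 0 1584) .out)) .out))) .out) .out) (.nx 1093 832257 (.nr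
  1092 1048577 (.nr 1085 180 .s1 (.nx 1090 104033 (.nx 1086 257 (.l1 (.ls 79 37 369)) (.nr 1089
  741457 (.nx 1087 13005 (.lg 0 false 1 89 89 37 0 7920) (.nr 1088 16385 (.lg 0 true 1 79 79 37 0
  7920) .out)) .out)) (.nr 1091 1025 (.lg 0 true 1 71 71 37 0 7920) .out))) .out) .out)) (.na 1102
  182 (.nx 1101 832257 (.nr 1100 1048577 (.nr 1095 181 .s1 (.nx 1096 257 (.l1 (.ls 67 19 367)) (.nr
  1099 741457 (.nr 1097 16385 (.lg 0 false 1 83 83 16 0 7920) (.nx 1098 13005 (.lg 0 true 1 79 79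
  16 0 7920) .out)) .out))) .out) .out) .ne))) (.na 1143 191 (.na 1123 186 (.na 1113 185 (.nx 1112
  832257 (.nr 1111 1048577 (.nr 1104 184 .s1 (.nx 1109 104033 (.nx 1107 13005 (.nx 1105 257 (.l1
  (.ls 73 31 361)) (.nr 1106 741457 (.lg 0 true 1 89 89 19 0 7920) .out)) (.nr 1108 16385 (.lg 0
  true 1 73 73 19 0 1584) .out)) (.nr 1110 1025 (.lg 0 true 1 67 67 19 0 1584) .out))) .out) .out)
  (.nx 1122 832257 (.nr 1121 1048577 (.nr 1114 185 .s1 (.nx 1115 257 (.l1 (.ls 79 23 360)) (.nr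
  1120 741457 (.nx 1116 13005 (.lg 0 true 1 89 89 19 0 7920) (.nr 1119 16385 (.nx 1117 104033 (.lg
  0 false 1 79 79 19 0 7920) (.nr 1118 1025 (.lg 0 true 1 71 71 19 0 7920) .out)) .out)) .out)))
  .out) .out)) (.na 1133 188 (.nx 1132 832257 (.nr 1131 1048577 (.nr 1124 186 .s1 (.nx 1129 104033
  (.nx 1125 257 (.l1 (.ls 79 37 358)) (.nr 1128 741457 (.nx 1126 13005 (.lg 0 true 1 89 89 29 0
  7920) (.nr 1127 16385 (.lg 0 false 1 79 79 29 0 7920) .out)) .out)) (.nr 1130 1025 (.lg 0 true 1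
  71 71 29 0 1584) .out))) .out) .out) (.nx 1142 832257 (.nr 1141 1048577 (.nr 1134 188 .s1 (.nx
  1137 13005 (.nx 1135 257 (.l1 (.ls 73 29 354)) (.nr 1136 741457 (.lg 0 true 1 89 89 23 0 7920)
  .out)) (.nr 1140 16385 (.nx 1138 104033 (.lg 0 true 1 73 73 23 0 1584) (.nr 1139 1025 (.lg 0 true
  1 67 67 23 0 1584) .out)) .out))) .out) .out))) (.na 1161 193 (.na 1151 192 (.nx 1150 832257 (.nr
  1149 1048577 (.nr 1144 191 .s1 (.nx 1145 257 (.l1 (.ls 67 19 348)) (.nr 1148 741457 (.nr 1146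
  16385 (.lg 0 false 1 83 83 16 0 7920) (.nx 1147 13005 (.lg 0 true 1 79 79 16 0 7920) .out))
  .out))) .out) .out) (.nx 1160 832257 (.nr 1159 1048577 (.nr 1152 192 .s1 (.nx 1157 104033 (.nx
  1155 13005 (.nx 1153 257 (.l1 (.ls 83 31 347)) (.nr 1154 741457 (.lg 0 false 1 89 97 37 0 7920)
  .out)) (.nr 1156 16385 (.lg 0 true 1 79 89 37 0 55440) .out)) (.nr 1158 1025 (.lg 0 true 1 71 79
  37 0 7920) .out))) .out) .out)) (.na 1162 194 (.lg 0 false 1 0 0 16 0 24) (.nx 1169 832257 (.nr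
  1168 1048577 (.nr 1163 194 .s1 (.nx 1164 257 (.l1 (.ls 67 29 343)) (.nr 1167 741457 (.nr 1165
  16385 (.lg 0 false 1 79 79 19 0 1584) (.nx 1166 13005 (.lg 0 true 1 79 79 19 0 7920) .out))
  .out))) .out) .out)))))) (.na 1302 227 (.na 1226 212 (.na 1197 201 (.na 1179 199 (.na 1171 198
  (.lg 0 false 1 0 0 16 0 24) (.nx 1178 832257 (.nr 1177 1048577 (.nr 1172 198 .s1 (.nx 1173 257
  (.l1 (.ls 67 37 336)) (.nr 1176 741457 (.nr 1174 16385 (.lg 0 false 1 79 79 31 0 7920) (.nx 1175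
  13005 (.lg 0 true 1 79 79 31 0 7920) .out)) .out))) .out) .out)) (.na 1187 200 (.nx 1186 832257
  (.nr 1185 1048577 (.nr 1180 199 .s1 (.nx 1181 257 (.l1 (.ls 71 19 334)) (.nr 1184 741457 (.nr
  1182 16385 (.lg 0 false 1 83 83 16 0 7920) (.nx 1183 13005 (.lg 0 true 1 79 79 16 0 7920) .out))
  .out))) .out) .out) (.nx 1196 832257 (.nr 1195 1048577 (.nr 1188 200 .s1 (.nx 1193 104033 (.nx
  1191 13005 (.nx 1189 257 (.l1 (.ls 71 31 333)) (.nr 1190 741457 (.lg 0 true 1 83 83 29 0 7920)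
  .out)) (.nr 1192 16385 (.lg 0 true 1 71 71 29 0 7920) .out)) (.nr 1194 1025 (.lg 0 true 1 67 67
  29 0 7920) .out))) .out) .out))) (.na 1215 207 (.na 1207 206 (.nx 1206 832257 (.nr 1205 1048577
  (.nr 1198 201 .s1 (.nx 1199 257 (.l1 (.ls 61 23 331)) (.nr 1204 741457 (.nx 1202 104033 (.nx 1200
  13005 (.lg 0 false 1 83 83 19 0 1584) (.nr 1201 16385 (.lg 0 true 1 73 73 19 0 1584) .out)) (.nr
  1203 1025 (.lg 0 true 1 67 67 19 0 1584) .out)) .out))) .out) .out) (.nx 1214 832257 (.nr 1213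
  1048577 (.nr 1208 206 .s1 (.nx 1209 257 (.l1 (.ls 67 29 323)) (.nr 1212 741457 (.nr 1210 16385
  (.lg 0 false 1 83 83 23 0 7920) (.nx 1211 13005 (.lg 0 true 1 79 79 23 0 7920) .out)) .out)))
  .out) .out)) (.na 1225 211 (.nx 1224 832257 (.nr 1223 1048577 (.nr 1216 207 .s1 (.nx 1221 104033
  (.nx 1219 13005 (.nx 1217 257 (.l1 (.ls 73 19 322)) (.nr 1218 741457 (.lg 0 true 1 89 89 19 0
  7920) .out)) (.nr 1220 16385 (.lg 0 true 1 73 73 19 0 1584) .out)) (.nr 1222 1025 (.lg 0 true 1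
  67 67 19 0 1584) .out))) .out) .out) (.lg 0 false 1 0 0 16 0 24)))) (.na 1266 222 (.na 1246 216
  (.na 1236 213 (.nx 1235 832257 (.nr 1234 1048577 (.nr 1227 212 .s1 (.nx 1230 13005 (.nx 1228 257
  (.l1 (.ls 73 29 314)) (.nr 1229 741457 (.lg 0 false 1 83 83 23 0 1584) .out)) (.nr 1233 16385
  (.nx 1231 104033 (.lg 0 true 1 73 73 23 0 1584) (.nr 1232 1025 (.lg 0 true 1 67 67 23 0 1584)
  .out)) .out))) .out) .out) (.nx 1245 832257 (.nr 1244 1048577 (.nr 1237 213 .s1 (.nx 1240 13005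
  (.nx 1238 257 (.l1 (.ls 67 23 313)) (.nr 1239 741457 (.lg 0 false 1 83 83 19 0 1584) .out)) (.nr
  1243 16385 (.nx 1241 104033 (.lg 0 true 1 73 73 19 0 1584) (.nr 1242 1025 (.lg 0 true 1 61 61 19
  0 1584) .out)) .out))) .out) .out)) (.na 1256 220 (.nx 1255 832257 (.nr 1254 1048577 (.nr 1247
  216 .s1 (.nx 1252 104033 (.nx 1250 13005 (.nx 1248 257 (.l1 (.ls 71 31 308)) (.nr 1249 741457
  (.lg 0 false 1 79 79 29 0 1584) .out)) (.nr 1251 16385 (.lg 0 true 1 71 71 29 0 1584) .out)) (.nr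
  1253 1025 (.lg 0 true 1 61 61 29 0 1584) .out))) .out) .out) (.nx 1265 832257 (.nr 1264 1048577
  (.nr 1257 220 .s1 (.nx 1258 257 (.l1 (.ls 71 37 303)) (.nr 1263 741457 (.nx 1259 13005 (.lg 0
  true 1 83 83 31 0 7920) (.nr 1262 16385 (.nx 1260 104033 (.lg 0 true 1 71 71 31 0 7920) (.nr 1261
  1025 (.lg 0 true 1 61 61 31 0 7920) .out)) .out)) .out))) .out) .out))) (.na 1284 225 (.na 1276
  223 (.nx 1275 832257 (.nr 1274 1048577 (.nr 1267 222 .s1 (.nx 1272 104033 (.nx 1270 13005 (.nx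
  1268 257 (.l1 (.ls 73 31 300)) (.nr 1269 741457 (.lg 0 true 1 83 83 31 0 7920) .out)) (.nr 1271
  16385 (.lg 0 true 1 73 73 31 0 1584) .out)) (.nr 1273 1025 (.lg 0 true 1 67 67 31 0 1584) .out)))
  .out) .out) (.nx 1283 832257 (.nr 1282 1048577 (.nr 1277 223 .s1 (.nx 1280 13005 (.nx 1278 257
  (.l1 (.ls 67 19 299)) (.nr 1279 741457 (.lg 0 true 1 79 79 16 0 7920) .out)) (.nr 1281 16385 (.lg
  0 false 1 79 79 16 0 7920) .out))) .out) .out)) (.na 1294 226 (.nx 1293 832257 (.nr 1292 1048577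
  (.nr 1285 225 .s1 (.nx 1288 13005 (.nx 1286 257 (.l1 (.ls 71 29 296)) (.nr 1287 741457 (.lg 0
  true 1 83 83 23 0 7920) .out)) (.nr 1291 16385 (.nx 1289 104033 (.lg 0 true 1 71 71 23 0 7920)
  (.nr 1290 1025 (.lg 0 true 1 61 61 23 0 7920) .out)) .out))) .out) .out) (.nx 1301 832257 (.nr
  1300 1048577 (.nr 1295 226 .s1 (.nx 1296 257 (.l1 (.ls 61 29 295)) (.nr 1299 741457 (.nr 1297
  16385 (.lg 0 false 1 79 79 23 0 7920) (.nx 1298 13005 (.lg 0 true 1 73 73 23 0 1584) .out))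
  .out))) .out) .out))))) (.na 1351 241 (.na 1320 235 (.na 1311 230 (.na 1303 229 (.lg 0 false 1 0
  0 16 0 24) (.nx 1310 832257 (.nr 1309 1048577 (.nr 1304 229 .s1 (.nx 1305 257 (.l1 (.ls 61 19
  291)) (.nr 1308 741457 (.nr 1306 16385 (.lg 0 false 1 79 79 17 0 7920) (.nx 1307 13005 (.lg 0
  true 1 73 73 17 0 7920) .out)) .out))) .out) .out)) (.na 1319 233 (.nx 1318 832257 (.nr 1317
  1048577 (.nr 1312 230 .s1 (.nx 1313 257 (.l1 (.ls 73 37 290)) (.nr 1316 741457 (.nx 1314 13005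
  (.lg 0 true 1 83 83 31 0 7920) (.nr 1315 16385 (.lg 0 false 1 89 89 31 0 7920) .out)) .out)))
  .out) .out) (.lg 0 false 1 0 0 16 0 24))) (.na 1340 239 (.na 1330 236 (.nx 1329 832257 (.nr 1328
  1048577 (.nr 1321 235 .s1 (.nx 1326 104033 (.nx 1324 13005 (.nx 1322 257 (.l1 (.ls 73 19 284))
  (.nr 1323 741457 (.lg 0 true 1 83 83 19 0 7920) .out)) (.nr 1325 16385 (.lg 0 true 1 73 73 19 0
  7920) .out)) (.nr 1327 1025 (.lg 0 true 1 67 67 19 0 7920) .out))) .out) .out) (.nx 1339 832257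
  (.nr 1338 1048577 (.nr 1331 236 .s1 (.nx 1336 104033 (.nx 1332 257 (.l1 (.ls 53 29 282)) (.nr
  1335 741457 (.nx 1333 13005 (.lg 0 false 1 83 83 23 0 1584) (.nr 1334 16385 (.lg 0 true 1 73 73
  23 0 7920) .out)) .out)) (.nr 1337 1025 (.lg 0 true 1 67 67 23 0 1584) .out))) .out) .out)) (.na
  1341 240 (.lg 0 false 1 0 0 16 0 24) (.nx 1350 832257 (.nr 1349 1048577 (.nr 1342 240 .s1 (.nx
  1347 104033 (.nx 1343 257 (.l1 (.ls 79 37 278)) (.nr 1346 741457 (.nx 1344 13005 (.lg 0 false 1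
  83 89 41 0 7920) (.nr 1345 16385 (.lg 0 true 1 73 83 41 0 7920) .out)) .out)) (.nr 1348 1025 (.lg
  0 true 1 67 73 41 0 7920) .out))) .out) .out)))) (.na 1369 250 (.na 1353 243 (.na 1352 242 (.lg 0
  false 1 0 0 16 0 24) (.lg 0 false 1 0 0 16 0 24)) (.na 1361 248 (.nx 1360 832257 (.nr 1359
  1048577 (.nr 1354 243 .s1 (.nx 1355 257 (.l1 (.ls 61 23 274)) (.nr 1358 741457 (.nr 1356 16385
  (.lg 0 false 1 79 79 19 0 7920) (.nx 1357 13005 (.lg 0 true 1 73 73 19 0 1584) .out)) .out)))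
  .out) .out) (.nx 1368 832257 (.nr 1367 1048577 (.nr 1362 248 .s1 (.nx 1363 257 (.l1 (.ls 73 29
  269)) (.nr 1366 741457 (.nr 1364 16385 (.lg 0 false 1 89 89 23 0 7920) (.nx 1365 13005 (.lg 0
  false 1 83 83 23 0 1584) .out)) .out))) .out) .out))) (.na 1385 253 (.na 1377 251 (.nx 1376
  832257 (.nr 1375 1048577 (.nr 1370 250 .s1 (.nx 1371 257 (.l1 (.ls 61 31 267)) (.nr 1374 741457
  (.nr 1372 16385 (.lg 0 false 1 79 79 29 0 7920) (.nx 1373 13005 (.lg 0 true 1 73 73 29 0 7920)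
  .out)) .out))) .out) .out) (.nx 1384 832257 (.nr 1383 1048577 (.nr 1378 251 .s1 (.nx 1379 257
  (.l1 (.ls 67 19 266)) (.nr 1382 741457 (.nx 1380 13005 (.lg 0 true 1 73 73 17 0 1584) (.nr 1381
  16385 (.lg 0 false 1 79 79 17 0 7920) .out)) .out))) .out) .out)) (.na 1393 256 (.nx 1392 832257
  (.nr 1391 1048577 (.nr 1386 253 .s1 (.nx 1387 257 (.l1 (.ls 67 19 264)) (.nr 1390 741457 (.nr
  1388 16385 (.lg 0 false 1 83 83 19 0 7920) (.nx 1389 13005 (.lg 0 true 1 79 79 19 0 7920) .out))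
  .out))) .out) .out) (.lg 0 false 1 0 0 16 0 24))))))))

def T103_2 : Ph :=
  (.na 592 172 (.na 463 82 (.na 379 38 (.na 223 3 (.na 1 2 .ne (.nx 222 3329023 (.nr 221 623489
  (.nx 202 1664512 (.nx 3 148 (.nr 2 23 (.lg 0 false 1 41 41 5 0 1776) (.l1 .sk)) (.nx 4 149 (.l1
  .sk) (.nr 180 131073 (.nx 158 832257 (.nx 37 19495 (.lg 0 false 33 97 103 13 0 293040) (.nr 70
  2437 (.nr 58 450 (.lg 0 true 21 89 89 11 0 37296) (.nx 69 416129 (.lg 2 true 11 89 89 9 68431
  97680) .out)) (.nx 157 330282 (.nx 91 32769 (.lg 1 false 21 97 103 11 73720 186480) (.nr 156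
  92683 (.nx 112 44591 (.lg 1 false 21 89 101 11 31027 186480) (.nx 133 82572 (.lg 1 true 21 101
  107 11 22801 2424240) (.nr 155 77937 (.lg 2 false 22 101 107 11 10357 3809520) .out))) .out))
  .out))) (.nr 179 129 (.lg 0 true 21 83 83 11 0 37296) .out)) (.nx 201 257 (.lg 0 false 21 79 79
  11 0 37296) .out)))) (.nr 220 9 (.lg 0 true 18 71 71 9 0 5328) .out)) .out) .out)) (.na 224 4 .ne
  (.na 378 5 (.nx 377 13316087 (.nr 376 1246976 (.nx 226 148 (.nr 225 42 (.lg 0 true 1 29 29 9 0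
  1776) (.l1 .sk)) (.nx 227 149 (.l1 .sk) (.nx 340 1664512 (.nx 324 416129 (.nr 313 155873 (.nx 248
  26007 (.nr 242 110219 (.lg 0 false 15 101 103 13 0 186480) (.nx 247 1627 (.lg 0 false 5 83 83 11
  0 8880) .out)) (.nr 312 131073 (.nr 270 5810 (.nr 268 2909 (.nr 263 729 (.lg 0 true 15 83 83 13 0
  26640) (.lg 2 true 5 89 89 11 42241 62160)) (.lg 2 true 2 83 83 9 10586 1776)) (.nx 306 131073
  (.nx 285 52015 (.lg 1 false 15 97 103 13 55261 186480) (.nx 300 104033 (.lg 1 true 15 97 103 13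
  27630 186480) (.nr 305 92683 (.lg 1 true 5 97 101 11 9773 186480) .out))) (.nr 311 55110 (.lg 2
  false 5 97 97 11 5301 62160) .out))) .out)) (.nx 323 257 (.lg 0 false 10 79 79 13 0 8880) .out))
  (.nr 339 183 (.lg 0 true 15 79 83 13 0 26640) .out)) (.nr 375 21 (.lg 0 true 35 79 79 11 0 62160)
  .out)))) .out) .out) .ne))) (.na 430 64 (.na 399 46 (.nx 398 1664512 (.nr 397 881745 (.nr 380 37
  .s1 (.nx 393 104033 (.nx 381 257 (.l1 (.ls 83 41 1741)) (.nr 392 440873 (.nr 384 32769 (.lg 0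
  false 3 83 83 13 0 5328) (.nx 391 26009 (.nr 387 110219 (.lg 0 false 3 89 89 13 0 26640) (.nx 390
  10323 (.lg 0 false 3 89 89 13 0 5328) .out)) .out)) .out)) (.nr 396 257 (.lg 0 true 3 71 71 13 0
  5328) .out))) .out) .out) (.na 416 62 (.nx 415 1664512 (.nr 414 881745 (.nr 400 45 .s1 (.nx 401
  257 (.l1 (.ls 73 41 1438)) (.nr 413 623489 (.nx 406 20644 (.lg 0 false 5 89 89 19 0 8880) (.nr
  412 46342 (.nr 409 257 (.lg 0 true 3 67 67 13 0 5328) (.nx 411 104033 (.lg 2 false 2 79 79 13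
  29956 1776) .out)) .out)) .out))) .out) .out) (.nx 429 1664512 (.nr 428 881745 (.nr 417 61 .s1
  (.nx 422 20644 (.nx 418 257 (.l1 (.ls 73 37 1068)) (.nr 421 623489 (.lg 0 false 3 97 97 19 0
  26640) .out)) (.nr 427 46342 (.nr 425 552 (.lg 0 true 3 71 71 19 0 5328) (.nx 426 104033 (.lg 2
  true 1 83 83 13 24665 8880) .out)) .out))) .out) .out))) (.na 431 74 .ne (.na 449 76 (.nx 448
  1664512 (.nr 447 524289 (.nr 432 73 .s1 (.nx 435 149 (.nx 434 148 (.nr 433 655 (.l1 (.ls 16 29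
  298)) (.l1 .sk)) (.l1 .sk)) (.nx 440 20644 (.lg 0 false 5 73 73 19 0 8880) (.nr 446 32769 (.nr
  443 513 (.lg 0 false 3 61 61 17 0 5328) (.nx 445 104033 (.lg 2 true 2 61 61 13 17464 1776) .out))
  .out)))) .out) .out) (.nx 462 1664512 (.nr 461 524289 (.nr 450 76 .s1 (.nx 453 149 (.nx 452 148
  (.nr 451 707 (.l1 (.ls 17 31 291)) (.l1 .sk)) (.l1 .sk)) (.nx 456 20644 (.lg 0 false 3 83 89 29 0
  5328) (.nr 460 32769 (.nr 458 513 (.lg 0 true 2 71 71 23 0 1776) (.nx 459 104033 (.lg 2 false 1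
  73 73 17 17464 1776) .out)) .out)))) .out) .out))))) (.na 536 124 (.na 493 92 (.na 478 86 (.nx
  477 1664512 (.nr 476 524289 (.nr 464 82 .s1 (.nx 466 148 (.nr 465 741 (.l1 (.ls 16 23 270)) (.l1
  .sk)) (.nx 467 149 (.l1 .sk) (.nx 470 20644 (.lg 0 false 3 89 89 19 0 26640) (.nr 475 32769 (.nr
  473 513 (.lg 0 true 3 67 67 19 0 5328) (.nx 474 104033 (.lg 2 true 1 73 73 13 17464 8880) .out))
  .out))))) .out) .out) (.na 492 91 (.nx 491 1664512 (.nr 490 524289 (.nr 479 86 .s1 (.nx 485 20644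
  (.nx 481 148 (.nr 480 785 (.l1 (.ls 16 23 257)) (.l1 .sk)) (.nx 482 149 (.l1 .sk) (.lg 0 false 3
  83 83 19 0 5328))) (.nr 489 32769 (.nr 487 513 (.lg 0 true 2 61 61 19 0 1776) (.nx 488 104033
  (.lg 2 true 1 71 71 13 17464 1776) .out)) .out))) .out) .out) .ne)) (.na 507 106 (.nx 506 1664512
  (.nr 505 1048577 (.nr 494 92 .s1 (.nx 497 149 (.nx 496 148 (.nr 495 914 (.l1 (.ls 19 29 241))
  (.l1 .sk)) (.l1 .sk)) (.nx 502 104033 (.nx 500 13005 (.lg 0 false 3 89 97 19 0 26640) (.nr 501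
  65537 (.lg 0 false 1 101 101 19 0 26640) .out)) (.nr 504 513 (.lg 0 true 2 71 71 19 0 1776)
  .out)))) .out) .out) (.na 523 118 (.nx 522 1664512 (.nr 521 1048577 (.nr 508 106 .s1 (.nx 511 149
  (.nx 510 148 (.nr 509 1017 (.l1 (.ls 16 23 209)) (.l1 .sk)) (.l1 .sk)) (.nx 516 20644 (.lg 0
  false 5 83 83 23 0 8880) (.nr 520 32769 (.nr 518 513 (.lg 0 true 2 61 61 19 0 1776) (.nx 519
  104033 (.lg 2 true 1 71 71 19 17464 1776) .out)) .out)))) .out) .out) (.nx 535 1664512 (.nr 534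
  1048577 (.nr 524 118 .s1 (.nx 530 20644 (.nx 526 148 (.nr 525 1069 (.l1 (.ls 17 23 188)) (.l1
  .sk)) (.nx 527 149 (.l1 .sk) (.lg 0 false 3 89 89 23 0 26640))) (.nr 533 32769 (.nr 531 513 (.lg
  2 false 1 71 71 19 1043847 8880) (.nx 532 104033 (.lg 2 true 1 71 71 19 17464 8880) .out))
  .out))) .out) .out)))) (.na 562 148 (.na 549 128 (.nx 548 1664512 (.nr 547 1048577 (.nr 537 124
  .s1 (.nx 540 149 (.nx 539 148 (.nr 538 1103 (.l1 (.ls 17 23 179)) (.l1 .sk)) (.l1 .sk)) (.nx 545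
  104033 (.nx 543 13005 (.lg 0 false 3 83 83 29 0 5328) (.nr 544 65537 (.lg 0 false 1 89 89 19 0
  5328) .out)) (.nr 546 513 (.lg 0 true 1 67 67 19 0 1776) .out)))) .out) .out) (.na 550 146 .ne
  (.nx 561 832257 (.nr 560 1048577 (.nr 551 146 .s1 (.nx 556 13005 (.nx 552 257 (.l1 (.ls 67 29
  455)) (.nr 555 741457 (.lg 0 false 3 71 79 23 0 5328) .out)) (.nr 559 16385 (.nr 557 1025 (.lg 0
  false 1 67 67 19 0 5328) (.nx 558 104033 (.lg 2 true 1 59 59 19 13924 1776) .out)) .out))) .out)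
  .out))) (.na 572 158 (.nx 571 832257 (.nr 570 1048577 (.nr 563 148 .s1 (.nx 566 13005 (.nx 564
  257 (.l1 (.ls 67 29 449)) (.nr 565 741457 (.lg 0 true 1 79 79 19 0 1776) .out)) (.nr 569 16385
  (.nr 567 1025 (.lg 0 false 1 61 61 19 0 1776) (.nx 568 104033 (.lg 2 false 1 53 53 19 13924 1776)
  .out)) .out))) .out) .out) (.na 582 164 (.nx 581 832257 (.nr 580 1048577 (.nr 573 158 .s1 (.nx
  576 13005 (.nx 574 257 (.l1 (.ls 67 29 421)) (.nr 575 741457 (.lg 0 true 1 83 83 19 0 1776)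
  .out)) (.nr 579 16385 (.nr 577 1025 (.lg 0 false 1 67 67 19 0 8880) (.nx 578 104033 (.lg 2 false
  1 53 53 19 13924 1776) .out)) .out))) .out) .out) (.nx 591 832257 (.nr 590 1048577 (.nr 583 164
  .s1 (.nx 584 257 (.l1 (.ls 71 29 405)) (.nr 589 741457 (.nx 585 13005 (.lg 0 false 1 83 83 23 0
  1776) (.nr 588 16385 (.nr 586 1025 (.lg 0 true 1 67 67 23 0 1776) (.nx 587 104033 (.lg 2 true 1
  61 61 23 13924 1776) .out)) .out)) .out))) .out) .out)))))) (.na 3084 1449 (.na 629 236 (.na 603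
  202 (.na 602 182 (.nx 601 832257 (.nr 600 1048577 (.nr 593 172 .s1 (.nx 596 13005 (.nx 594 257
  (.l1 (.ls 73 29 387)) (.nr 595 741457 (.lg 0 false 1 83 83 23 0 1776) .out)) (.nr 599 16385 (.nr
  597 1025 (.lg 0 true 1 67 67 23 0 1776) (.nx 598 104033 (.lg 2 true 1 61 61 23 13924 1776) .out))
  .out))) .out) .out) .ne) (.na 611 206 (.nx 610 832257 (.nr 609 1048577 (.nr 604 202 .s1 (.nx 605
  257 (.l1 (.ls 61 29 329)) (.nr 608 741457 (.nr 606 16385 (.lg 0 false 1 79 79 23 0 8880) (.nx 607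
  13005 (.lg 0 true 1 73 73 23 0 1776) .out)) .out))) .out) .out) (.na 619 212 (.nx 618 832257 (.nr
  617 1048577 (.nr 612 206 .s1 (.nx 615 13005 (.nx 613 257 (.l1 (.ls 61 29 323)) (.nr 614 741457
  (.lg 0 true 1 73 73 23 0 1776) .out)) (.nr 616 16385 (.lg 0 false 1 79 79 23 0 1776) .out)))
  .out) .out) (.nx 628 832257 (.nr 627 1048577 (.nr 620 212 .s1 (.nx 623 13005 (.nx 621 406 (.l1
  (.ls 73 31 780)) (.nr 622 741457 (.lg 0 false 1 79 79 23 0 1776) .out)) (.nr 626 16385 (.nr 624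
  1025 (.lg 0 true 1 61 61 23 0 1776) (.nx 625 104033 (.lg 2 true 1 59 59 23 13924 1776) .out))
  .out))) .out) .out)))) (.na 1410 512 (.na 639 256 (.nx 638 832257 (.nr 637 1048577 (.nr 630 236
  .s1 (.nx 633 13005 (.nx 631 257 (.l1 (.ls 53 29 282)) (.nr 632 741457 (.lg 0 false 1 79 79 23 0
  1776) .out)) (.nr 636 16385 (.nr 634 1025 (.lg 0 true 1 61 61 23 0 1776) (.nx 635 104033 (.lg 2
  false 1 53 53 23 13924 1776) .out)) .out))) .out) .out) (.na 640 257 .ne (.nx 1409 832257 (.nr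
  1408 1482912 (.nr 641 257 .s1 (.nx 896 1627 (.la (.ls 67 41 10303)) (.nr 1407 524289 (.nr 1151
  32769 (.la (.lg 0 false 1 73 73 23 0)) (.nx 1406 10323 (.la (.lg 0 true 1 61 61 23 0)) .out))
  .out))) .out) .out))) (.na 2054 725 (.nx 2053 832257 (.nr 2052 1482912 (.nr 1411 512 .s1 (.nx
  1838 22297 (.nx 1624 1627 (.la (.ls 67 37 5173)) (.nr 1837 524289 (.la (.lg 0 false 1 61 61 29
  0)) .out)) (.nr 2051 32769 (.la (.lg 2 true 1 59 59 29 120288)) .out))) .out) .out) (.na 2656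
  1024 (.nx 2655 10323 (.nr 2654 1048577 (.nr 2055 725 .s1 (.nx 2354 2049 (.la (.ls 61 37 5793))
  (.nr 2653 16385 (.la (.lg 0 true 1 29 29 29 0)) .out))) .out) .out) (.nx 3083 10323 (.nr 3082
  1048577 (.nr 2657 1024 .s1 (.la (.ls 59 53 104069))) .out) .out))))) (.na 11434 16384 (.na 5740
  4096 (.na 3686 2048 (.nx 3685 2582 (.nr 3684 524289 (.nr 3085 1449 .s1 (.la (.ls 67 37 4603)))
  .out) .out) (.na 4538 2897 (.nx 4537 3252 (.nr 4536 524289 (.nr 3687 2048 .s1 (.la (.ls 61 41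
  5166))) .out) .out) (.nx 5739 2582 (.nr 5738 262145 (.nr 4539 2897 .s1 (.la (.ls 53 37 2304)))
  .out) .out))) (.na 7589 5793 (.nx 7588 2582 (.nr 7587 262145 (.nr 5741 4096 .s1 (.nx 5889 148
  (.nr 5888 49918 (.lx (.lp 16 0 1449)) (.l1 .sk)) (.nx 5890 149 (.l1 .sk) (.la (.ls 47 37
  1625))))) .out) .out) (.na 10139 8192 (.nx 10138 1292 (.nr 10137 65537 (.nr 7590 5793 .s1 (.nx
  7737 148 (.lx (.lp 43 31 2049)) (.nx 7738 149 (.l1 .sk) (.la (.ls 31 37 2049))))) .out) .out)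
  (.nx 11433 1292 (.nr 11432 131073 (.nr 10140 8192 .s1 (.nx 10344 205 (.lx (.lp 16 0 4097)) (.nr
  11431 65537 (.lx (.lp 41 41 4097)) .out))) .out) .out)))) (.na 14783 131072 (.na 12729 32768 (.nx
  12728 1292 (.nr 12727 262145 (.nr 11435 16384 .s1 (.nx 11639 205 (.lx (.lp 16 0 8193)) (.nr 12726
  131073 (.lx (.lp 41 43 8193)) .out))) .out) .out) (.na 13756 65536 (.nx 13755 1025 (.nr 13754
  262145 (.nr 12730 32768 .s1 (.lx (.lp 41 47 16385))) .out) .out) (.nx 14782 1025 (.nr 14781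
  262145 (.nr 13757 65536 .s1 (.lx (.lp 31 47 32769))) .out) .out))) (.na 14785 262144 (.nx 14784
  324 (.l1 .sk) .out) (.na 14787 524289 (.nx 14786 205 (.l1 .sk) .out) .out))))))

theorem c103 :
    OkQ ckI L10 251 1 32 0 34359738368 1 1099511627776 ∧
    OkQ ckI L8 176 25 257 0 34359738368 1 1099511627776 ∧
    OkQ ckI L8 148 1 1099511627776 0 34359738368 1 1099511627776 := by
  refine ⟨?_, ?_, ?_⟩
  · refine fin 72 988 T103_0 ?_
    refine jn 11 (by decide +kernel) ?_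
    refine jn 20 (by decide +kernel) ?_
    refine jn 30 (by decide +kernel) ?_
    refine jn 38 (by decide +kernel) ?_
    refine jn 45 (by decide +kernel) ?_
    refine jn 53 (by decide +kernel) ?_
    refine jn 62 (by decide +kernel) ?_
    refine jn 71 (by decide +kernel) ?_
    refine jn 78 (by decide +kernel) ?_
    refine jn 103 (by decide +kernel) ?_
    refine jn 133 (by decide +kernel) ?_
    refine jn 147 (by decide +kernel) ?_
    refine jn 159 (by decide +kernel) ?_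
    refine jn 171 (by decide +kernel) ?_
    refine jn 182 (by decide +kernel) ?_
    refine jn 202 (by decide +kernel) ?_
    refine jn 222 (by decide +kernel) ?_
    refine jn 237 (by decide +kernel) ?_
    refine jn 255 (by decide +kernel) ?_
    refine jn 270 (by decide +kernel) ?_
    refine jn 296 (by decide +kernel) ?_
    refine jn 313 (by decide +kernel) ?_
    refine jn 332 (by decide +kernel) ?_
    refine jn 347 (by decide +kernel) ?_
    refine jn 373 (by decide +kernel) ?_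
    refine jn 405 (by decide +kernel) ?_
    refine jn 418 (by decide +kernel) ?_
    refine jn 437 (by decide +kernel) ?_
    refine jn 439 (by decide +kernel) ?_
    refine jn 441 (by decide +kernel) ?_
    refine jn 443 (by decide +kernel) ?_
    refine jn 445 (by decide +kernel) ?_
    refine jn 447 (by decide +kernel) ?_
    refine jn 449 (by decide +kernel) ?_
    refine jn 455 (by decide +kernel) ?_
    refine jn 460 (by decide +kernel) ?_
    refine jn 464 (by decide +kernel) ?_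
    refine jn 467 (by decide +kernel) ?_
    refine jn 469 (by decide +kernel) ?_
    refine jn 482 (by decide +kernel) ?_
    refine jn 490 (by decide +kernel) ?_
    refine jn 496 (by decide +kernel) ?_
    refine jn 505 (by decide +kernel) ?_
    refine jn 515 (by decide +kernel) ?_
    refine jn 518 (by decide +kernel) ?_
    refine jn 528 (by decide +kernel) ?_
    refine jn 531 (by decide +kernel) ?_
    refine jn 541 (by decide +kernel) ?_
    refine jn 544 (by decide +kernel) ?_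
    refine jn 557 (by decide +kernel) ?_
    refine jn 569 (by decide +kernel) ?_
    refine jn 581 (by decide +kernel) ?_
    refine jn 596 (by decide +kernel) ?_
    refine jn 629 (by decide +kernel) ?_
    refine jn 642 (by decide +kernel) ?_
    refine jn 645 (by decide +kernel) ?_
    refine jn 649 (by decide +kernel) ?_
    refine jn 652 (by decide +kernel) ?_
    refine jn 656 (by decide +kernel) ?_
    refine jn 658 (by decide +kernel) ?_
    refine jn 669 (by decide +kernel) ?_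
    refine jn 676 (by decide +kernel) ?_
    refine jn 681 (by decide +kernel) ?_
    refine jn 689 (by decide +kernel) ?_
    refine jn 699 (by decide +kernel) ?_
    refine jn 706 (by decide +kernel) ?_
    refine jn 713 (by decide +kernel) ?_
    refine jn 720 (by decide +kernel) ?_
    refine jn 727 (by decide +kernel) ?_
    refine jn 734 (by decide +kernel) ?_
    refine jn 751 (by decide +kernel) ?_
    refine jn 761 (by decide +kernel) ?_
    refine jn 766 (by decide +kernel) ?_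
    refine jn 771 (by decide +kernel) ?_
    refine jn 777 (by decide +kernel) ?_
    refine jn 783 (by decide +kernel) ?_
    refine jn 794 (by decide +kernel) ?_
    refine jn 798 (by decide +kernel) ?_
    refine jn 809 (by decide +kernel) ?_
    refine jn 820 (by decide +kernel) ?_
    refine jn 835 (by decide +kernel) ?_
    refine jn 848 (by decide +kernel) ?_
    refine jn 853 (by decide +kernel) ?_
    refine jn 855 (by decide +kernel) ?_
    refine jn 862 (by decide +kernel) ?_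
    refine jn 869 (by decide +kernel) ?_
    refine jn 881 (by decide +kernel) ?_
    refine jn 889 (by decide +kernel) ?_
    refine jn 901 (by decide +kernel) ?_
    refine jn 916 (by decide +kernel) ?_
    refine jn 922 (by decide +kernel) ?_
    refine jn 931 (by decide +kernel) ?_
    refine jn 936 (by decide +kernel) ?_
    refine jn 947 (by decide +kernel) ?_
    refine jn 956 (by decide +kernel) ?_
    refine jn 957 (by decide +kernel) ?_
    refine jn 958 (by decide +kernel) ?_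
    refine jn 960 (by decide +kernel) ?_
    refine jn 961 (by decide +kernel) ?_
    refine jn 962 (by decide +kernel) ?_
    refine jn 963 (by decide +kernel) ?_
    refine jn 966 (by decide +kernel) ?_
    refine jn 969 (by decide +kernel) ?_
    refine jn 972 (by decide +kernel) ?_
    refine jn 979 (by decide +kernel) ?_
    refine jn 985 (by decide +kernel) ?_
    exact je (by decide +kernel)
  · refine fin 1584 1394 T103_1 ?_
    refine jn 9 (by decide +kernel) ?_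
    refine jn 12 (by decide +kernel) ?_
    refine jn 19 (by decide +kernel) ?_
    refine jn 27 (by decide +kernel) ?_
    refine jn 36 (by decide +kernel) ?_
    refine jn 43 (by decide +kernel) ?_
    refine jn 51 (by decide +kernel) ?_
    refine jn 62 (by decide +kernel) ?_
    refine jn 65 (by decide +kernel) ?_
    refine jn 67 (by decide +kernel) ?_
    refine jn 68 (by decide +kernel) ?_
    refine jn 69 (by decide +kernel) ?_
    refine jn 70 (by decide +kernel) ?_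
    refine jn 72 (by decide +kernel) ?_
    refine jn 73 (by decide +kernel) ?_
    refine jn 75 (by decide +kernel) ?_
    refine jn 80 (by decide +kernel) ?_
    refine jn 92 (by decide +kernel) ?_
    refine jn 97 (by decide +kernel) ?_
    refine jn 103 (by decide +kernel) ?_
    refine jn 112 (by decide +kernel) ?_
    refine jn 115 (by decide +kernel) ?_
    refine jn 116 (by decide +kernel) ?_
    refine jn 117 (by decide +kernel) ?_
    refine jn 118 (by decide +kernel) ?_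
    refine jn 119 (by decide +kernel) ?_
    refine jn 122 (by decide +kernel) ?_
    refine jn 125 (by decide +kernel) ?_
    refine jn 136 (by decide +kernel) ?_
    refine jn 146 (by decide +kernel) ?_
    refine jn 153 (by decide +kernel) ?_
    refine jn 163 (by decide +kernel) ?_
    refine jn 164 (by decide +kernel) ?_
    refine jn 165 (by decide +kernel) ?_
    refine jn 168 (by decide +kernel) ?_
    refine jn 169 (by decide +kernel) ?_
    refine jn 172 (by decide +kernel) ?_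
    refine jn 175 (by decide +kernel) ?_
    refine jn 190 (by decide +kernel) ?_
    refine jn 196 (by decide +kernel) ?_
    refine jn 206 (by decide +kernel) ?_
    refine jn 208 (by decide +kernel) ?_
    refine jn 209 (by decide +kernel) ?_
    refine jn 212 (by decide +kernel) ?_
    refine jn 215 (by decide +kernel) ?_
    refine jn 216 (by decide +kernel) ?_
    refine jn 222 (by decide +kernel) ?_
    refine jn 230 (by decide +kernel) ?_
    refine jn 236 (by decide +kernel) ?_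
    refine jn 245 (by decide +kernel) ?_
    refine jn 246 (by decide +kernel) ?_
    refine jn 247 (by decide +kernel) ?_
    refine jn 248 (by decide +kernel) ?_
    refine jn 251 (by decide +kernel) ?_
    refine jn 256 (by decide +kernel) ?_
    refine jn 267 (by decide +kernel) ?_
    refine jn 273 (by decide +kernel) ?_
    refine jn 286 (by decide +kernel) ?_
    refine jn 291 (by decide +kernel) ?_
    refine jn 300 (by decide +kernel) ?_
    refine jn 301 (by decide +kernel) ?_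
    refine jn 302 (by decide +kernel) ?_
    refine jn 303 (by decide +kernel) ?_
    refine jn 305 (by decide +kernel) ?_
    refine jn 306 (by decide +kernel) ?_
    refine jn 307 (by decide +kernel) ?_
    refine jn 308 (by decide +kernel) ?_
    refine jn 309 (by decide +kernel) ?_
    refine jn 323 (by decide +kernel) ?_
    refine jn 328 (by decide +kernel) ?_
    refine jn 340 (by decide +kernel) ?_
    refine jn 346 (by decide +kernel) ?_
    refine jn 359 (by decide +kernel) ?_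
    refine jn 365 (by decide +kernel) ?_
    refine jn 378 (by decide +kernel) ?_
    refine jn 383 (by decide +kernel) ?_
    refine jn 396 (by decide +kernel) ?_
    refine jn 406 (by decide +kernel) ?_
    refine jn 407 (by decide +kernel) ?_
    refine jn 408 (by decide +kernel) ?_
    refine jn 409 (by decide +kernel) ?_
    refine jn 410 (by decide +kernel) ?_
    refine jn 413 (by decide +kernel) ?_
    refine jn 416 (by decide +kernel) ?_
    refine jn 417 (by decide +kernel) ?_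
    refine jn 430 (by decide +kernel) ?_
    refine jn 441 (by decide +kernel) ?_
    refine jn 442 (by decide +kernel) ?_
    refine jn 443 (by decide +kernel) ?_
    refine jn 444 (by decide +kernel) ?_
    refine jn 445 (by decide +kernel) ?_
    refine jn 446 (by decide +kernel) ?_
    refine jn 447 (by decide +kernel) ?_
    refine jn 448 (by decide +kernel) ?_
    refine jn 465 (by decide +kernel) ?_
    refine jn 477 (by decide +kernel) ?_
    refine jn 486 (by decide +kernel) ?_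
    refine jn 491 (by decide +kernel) ?_
    refine jn 495 (by decide +kernel) ?_
    refine jn 507 (by decide +kernel) ?_
    refine jn 516 (by decide +kernel) ?_
    refine jn 521 (by decide +kernel) ?_
    refine jn 524 (by decide +kernel) ?_
    refine jn 537 (by decide +kernel) ?_
    refine jn 547 (by decide +kernel) ?_
    refine jn 551 (by decide +kernel) ?_
    refine jn 553 (by decide +kernel) ?_
    refine jn 559 (by decide +kernel) ?_
    refine jn 562 (by decide +kernel) ?_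
    refine jn 563 (by decide +kernel) ?_
    refine jn 565 (by decide +kernel) ?_
    refine jn 568 (by decide +kernel) ?_
    refine jn 581 (by decide +kernel) ?_
    refine jn 594 (by decide +kernel) ?_
    refine jn 608 (by decide +kernel) ?_
    refine jn 619 (by decide +kernel) ?_
    refine jn 622 (by decide +kernel) ?_
    refine jn 634 (by decide +kernel) ?_
    refine jn 637 (by decide +kernel) ?_
    refine jn 647 (by decide +kernel) ?_
    refine jn 650 (by decide +kernel) ?_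
    refine jn 663 (by decide +kernel) ?_
    refine jn 672 (by decide +kernel) ?_
    refine jn 673 (by decide +kernel) ?_
    refine jn 674 (by decide +kernel) ?_
    refine jn 675 (by decide +kernel) ?_
    refine jn 676 (by decide +kernel) ?_
    refine jn 691 (by decide +kernel) ?_
    refine jn 706 (by decide +kernel) ?_
    refine jn 719 (by decide +kernel) ?_
    refine jn 722 (by decide +kernel) ?_
    refine jn 735 (by decide +kernel) ?_
    refine jn 748 (by decide +kernel) ?_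
    refine jn 759 (by decide +kernel) ?_
    refine jn 763 (by decide +kernel) ?_
    refine jn 775 (by decide +kernel) ?_
    refine jn 786 (by decide +kernel) ?_
    refine jn 799 (by decide +kernel) ?_
    refine jn 812 (by decide +kernel) ?_
    refine jn 816 (by decide +kernel) ?_
    refine jn 829 (by decide +kernel) ?_
    refine jn 837 (by decide +kernel) ?_
    refine jn 838 (by decide +kernel) ?_
    refine jn 841 (by decide +kernel) ?_
    refine jn 852 (by decide +kernel) ?_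
    refine jn 865 (by decide +kernel) ?_
    refine jn 877 (by decide +kernel) ?_
    refine jn 889 (by decide +kernel) ?_
    refine jn 898 (by decide +kernel) ?_
    refine jn 910 (by decide +kernel) ?_
    refine jn 919 (by decide +kernel) ?_
    refine jn 931 (by decide +kernel) ?_
    refine jn 943 (by decide +kernel) ?_
    refine jn 951 (by decide +kernel) ?_
    refine jn 955 (by decide +kernel) ?_
    refine jn 963 (by decide +kernel) ?_
    refine jn 974 (by decide +kernel) ?_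
    refine jn 985 (by decide +kernel) ?_
    refine jn 996 (by decide +kernel) ?_
    refine jn 1004 (by decide +kernel) ?_
    refine jn 1013 (by decide +kernel) ?_
    refine jn 1017 (by decide +kernel) ?_
    refine jn 1032 (by decide +kernel) ?_
    refine jn 1041 (by decide +kernel) ?_
    refine jn 1052 (by decide +kernel) ?_
    refine jn 1062 (by decide +kernel) ?_
    refine jn 1072 (by decide +kernel) ?_
    refine jn 1086 (by decide +kernel) ?_
    refine jn 1087 (by decide +kernel) ?_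
    refine jn 1091 (by decide +kernel) ?_
    refine jn 1106 (by decide +kernel) ?_
    refine jn 1116 (by decide +kernel) ?_
    refine jn 1126 (by decide +kernel) ?_
    refine jn 1136 (by decide +kernel) ?_
    refine jn 1147 (by decide +kernel) ?_
    refine jn 1153 (by decide +kernel) ?_
    refine jn 1154 (by decide +kernel) ?_
    refine jn 1155 (by decide +kernel) ?_
    refine jn 1156 (by decide +kernel) ?_
    refine jn 1158 (by decide +kernel) ?_
    refine jn 1175 (by decide +kernel) ?_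
    refine jn 1190 (by decide +kernel) ?_
    refine jn 1200 (by decide +kernel) ?_
    refine jn 1211 (by decide +kernel) ?_
    refine jn 1220 (by decide +kernel) ?_
    refine jn 1231 (by decide +kernel) ?_
    refine jn 1241 (by decide +kernel) ?_
    refine jn 1251 (by decide +kernel) ?_
    refine jn 1260 (by decide +kernel) ?_
    refine jn 1271 (by decide +kernel) ?_
    refine jn 1281 (by decide +kernel) ?_
    refine jn 1290 (by decide +kernel) ?_
    refine jn 1307 (by decide +kernel) ?_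
    refine jn 1315 (by decide +kernel) ?_
    refine jn 1327 (by decide +kernel) ?_
    refine jn 1337 (by decide +kernel) ?_
    refine jn 1343 (by decide +kernel) ?_
    refine jn 1344 (by decide +kernel) ?_
    refine jn 1345 (by decide +kernel) ?_
    refine jn 1348 (by decide +kernel) ?_
    refine jn 1364 (by decide +kernel) ?_
    refine jn 1373 (by decide +kernel) ?_
    refine jn 1389 (by decide +kernel) ?_
    exact je (by decide +kernel)
  · refine fin 888 14788 T103_2 ?_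
    refine jn 10 (by decide +kernel) ?_
    refine jn 15 (by decide +kernel) ?_
    refine jn 21 (by decide +kernel) ?_
    refine jn 27 (by decide +kernel) ?_
    refine jn 32 (by decide +kernel) ?_
    refine jn 37 (by decide +kernel) ?_
    refine jn 45 (by decide +kernel) ?_
    refine jn 53 (by decide +kernel) ?_
    refine jn 58 (by decide +kernel) ?_
    refine jn 69 (by decide +kernel) ?_
    refine jn 91 (by decide +kernel) ?_
    refine jn 112 (by decide +kernel) ?_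
    refine jn 133 (by decide +kernel) ?_
    refine jn 155 (by decide +kernel) ?_
    refine jn 179 (by decide +kernel) ?_
    refine jn 201 (by decide +kernel) ?_
    refine jn 225 (by decide +kernel) ?_
    refine jn 227 (by decide +kernel) ?_
    refine jn 229 (by decide +kernel) ?_
    refine jn 230 (by decide +kernel) ?_
    refine jn 232 (by decide +kernel) ?_
    refine jn 233 (by decide +kernel) ?_
    refine jn 235 (by decide +kernel) ?_
    refine jn 236 (by decide +kernel) ?_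
    refine jn 237 (by decide +kernel) ?_
    refine jn 239 (by decide +kernel) ?_
    refine jn 240 (by decide +kernel) ?_
    refine jn 241 (by decide +kernel) ?_
    refine jn 242 (by decide +kernel) ?_
    refine jn 248 (by decide +kernel) ?_
    refine jn 250 (by decide +kernel) ?_
    refine jn 252 (by decide +kernel) ?_
    refine jn 255 (by decide +kernel) ?_
    refine jn 258 (by decide +kernel) ?_
    refine jn 260 (by decide +kernel) ?_
    refine jn 263 (by decide +kernel) ?_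
    refine jn 268 (by decide +kernel) ?_
    refine jn 278 (by decide +kernel) ?_
    refine jn 285 (by decide +kernel) ?_
    refine jn 298 (by decide +kernel) ?_
    refine jn 305 (by decide +kernel) ?_
    refine jn 311 (by decide +kernel) ?_
    refine jn 323 (by decide +kernel) ?_
    refine jn 331 (by decide +kernel) ?_
    refine jn 339 (by decide +kernel) ?_
    refine jn 375 (by decide +kernel) ?_
    refine jn 381 (by decide +kernel) ?_
    refine jn 382 (by decide +kernel) ?_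
    refine jn 383 (by decide +kernel) ?_
    refine jn 384 (by decide +kernel) ?_
    refine jn 396 (by decide +kernel) ?_
    refine jn 406 (by decide +kernel) ?_
    refine jn 411 (by decide +kernel) ?_
    refine jn 425 (by decide +kernel) ?_
    refine jn 445 (by decide +kernel) ?_
    refine jn 456 (by decide +kernel) ?_
    refine jn 458 (by decide +kernel) ?_
    refine jn 470 (by decide +kernel) ?_
    refine jn 485 (by decide +kernel) ?_
    refine jn 497 (by decide +kernel) ?_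
    refine jn 500 (by decide +kernel) ?_
    refine jn 504 (by decide +kernel) ?_
    refine jn 519 (by decide +kernel) ?_
    refine jn 532 (by decide +kernel) ?_
    refine jn 544 (by decide +kernel) ?_
    refine jn 557 (by decide +kernel) ?_
    refine jn 568 (by decide +kernel) ?_
    refine jn 583 (by decide +kernel) ?_
    refine jn 586 (by decide +kernel) ?_
    refine jn 595 (by decide +kernel) ?_
    refine jn 607 (by decide +kernel) ?_
    refine jn 622 (by decide +kernel) ?_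
    refine jn 632 (by decide +kernel) ?_
    refine jn 676 (by decide +kernel) ?_
    refine jn 742 (by decide +kernel) ?_
    refine jn 850 (by decide +kernel) ?_
    refine jn 931 (by decide +kernel) ?_
    refine jn 953 (by decide +kernel) ?_
    refine jn 973 (by decide +kernel) ?_
    refine jn 1001 (by decide +kernel) ?_
    refine jn 1037 (by decide +kernel) ?_
    refine jn 1051 (by decide +kernel) ?_
    refine jn 1105 (by decide +kernel) ?_
    refine jn 1156 (by decide +kernel) ?_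
    refine jn 1192 (by decide +kernel) ?_
    refine jn 1228 (by decide +kernel) ?_
    refine jn 1276 (by decide +kernel) ?_
    refine jn 1306 (by decide +kernel) ?_
    refine jn 1372 (by decide +kernel) ?_
    refine jn 1495 (by decide +kernel) ?_
    refine jn 1597 (by decide +kernel) ?_
    refine jn 1660 (by decide +kernel) ?_
    refine jn 1708 (by decide +kernel) ?_
    refine jn 1746 (by decide +kernel) ?_
    refine jn 1780 (by decide +kernel) ?_
    refine jn 1806 (by decide +kernel) ?_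
    refine jn 1836 (by decide +kernel) ?_
    refine jn 1874 (by decide +kernel) ?_
    refine jn 1922 (by decide +kernel) ?_
    refine jn 1960 (by decide +kernel) ?_
    refine jn 1994 (by decide +kernel) ?_
    refine jn 2020 (by decide +kernel) ?_
    refine jn 2050 (by decide +kernel) ?_
    refine jn 2192 (by decide +kernel) ?_
    refine jn 2304 (by decide +kernel) ?_
    refine jn 2423 (by decide +kernel) ?_
    refine jn 2545 (by decide +kernel) ?_
    refine jn 2633 (by decide +kernel) ?_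
    refine jn 2709 (by decide +kernel) ?_
    refine jn 2805 (by decide +kernel) ?_
    refine jn 2859 (by decide +kernel) ?_
    refine jn 2919 (by decide +kernel) ?_
    refine jn 3015 (by decide +kernel) ?_
    refine jn 3082 (by decide +kernel) ?_
    refine jn 3338 (by decide +kernel) ?_
    refine jn 3494 (by decide +kernel) ?_
    refine jn 3650 (by decide +kernel) ?_
    refine jn 3827 (by decide +kernel) ?_
    refine jn 4043 (by decide +kernel) ?_
    refine jn 4227 (by decide +kernel) ?_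
    refine jn 4453 (by decide +kernel) ?_
    refine jn 4704 (by decide +kernel) ?_
    refine jn 4976 (by decide +kernel) ?_
    refine jn 5276 (by decide +kernel) ?_
    refine jn 5486 (by decide +kernel) ?_
    refine jn 5740 (by decide +kernel) ?_
    refine jn 6160 (by decide +kernel) ?_
    refine jn 6476 (by decide +kernel) ?_
    refine jn 6748 (by decide +kernel) ?_
    refine jn 7126 (by decide +kernel) ?_
    refine jn 7460 (by decide +kernel) ?_
    refine jn 7941 (by decide +kernel) ?_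
    refine jn 8363 (by decide +kernel) ?_
    refine jn 8843 (by decide +kernel) ?_
    refine jn 9339 (by decide +kernel) ?_
    refine jn 9792 (by decide +kernel) ?_
    refine jn 10391 (by decide +kernel) ?_
    refine jn 10657 (by decide +kernel) ?_
    refine jn 10817 (by decide +kernel) ?_
    refine jn 10940 (by decide +kernel) ?_
    refine jn 11054 (by decide +kernel) ?_
    refine jn 11143 (by decide +kernel) ?_
    refine jn 11226 (by decide +kernel) ?_
    refine jn 11301 (by decide +kernel) ?_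
    refine jn 11368 (by decide +kernel) ?_
    refine jn 11427 (by decide +kernel) ?_
    refine jn 11932 (by decide +kernel) ?_
    refine jn 12153 (by decide +kernel) ?_
    refine jn 12323 (by decide +kernel) ?_
    refine jn 12462 (by decide +kernel) ?_
    refine jn 12589 (by decide +kernel) ?_
    refine jn 12698 (by decide +kernel) ?_
    refine jn 13193 (by decide +kernel) ?_
    refine jn 13511 (by decide +kernel) ?_
    refine jn 13740 (by decide +kernel) ?_
    refine jn 14359 (by decide +kernel) ?_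
    refine jn 14721 (by decide +kernel) ?_
    exact je (by decide +kernel)

end Pool.Agent.MP_2339ce_nt.NR
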