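import Pool.Agent.MP_2339ce_nt.Q2.NC.L6
import Pool.Agent.MP_2339ce_nt.Q2.NC.L10
import Pool.Agent.MP_2339ce_nt.Q2.CkI

/-! Block NR: runs. -/

set_option autoImplicit false
set_option maxRecDepth 100000

noncomputable section

namespace Pool.Agent.MP_2339ce_nt.NR

open Q2.Top

def T105_0 : Ph :=
  (.na 524 7 (.na 334 4 (.nx 333 6658044 (.nr 332 1482912 (.nx 3 222 (.nx 2 221 (.nr 1 40 (.lg 0
  true 1 41 41 5 0 15912) (.l1 .sk)) (.l1 .sk)) (.nx 104 44590 (.nr 80 262145 (.lg 0 false 77 97
  107 17 0 6126120) (.nx 91 408 (.lg 0 false 11 89 89 16 0 875160) (.nx 92 32768 .out (.nr 103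
  311745 (.lg 0 false 11 97 103 16 0 875160) .out)))) (.nr 331 311745 (.nx 283 832257 (.nr 115 668
  (.lg 0 true 11 97 97 16 0 175032) (.nx 171 82572 (.nx 143 60679 (.lg 1 false 28 101 107 16 170856
  1113840) (.lg 1 false 28 97 107 16 125553 1113840)) (.nr 282 262145 (.nr 178 1391 (.lg 2 true 7
  89 89 13 137672 111384) (.nr 185 2898 (.lg 2 true 7 89 97 13 66114 556920) (.nx 281 660563 (.nx
  197 104031 (.nr 196 220437 (.lg 1 false 11 101 103 16 65260 875160) .out) (.nr 204 10626 (.lg 2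
  true 7 97 101 13 25188 556920) (.nx 232 165142 (.lg 1 false 28 101 107 16 61589 1113840) (.nr 280
  220437 (.nx 260 262145 (.lg 1 true 28 97 107 16 32631 1113840) (.nr 279 110219 (.nr 271 77937
  (.lg 2 false 11 97 103 16 7281 875160) (.nx 278 330282 (.lg 2 false 7 97 101 13 10289 556920)
  .out)) .out)) .out)))) .out))) .out))) (.nr 330 154 (.nx 294 1664512 (.lg 0 true 11 83 83 16 0
  175032) (.nr 329 33 (.lg 0 true 35 79 83 16 0 556920) .out)) .out)) .out))) .out) .out) (.na 335
  6 .ne (.nx 523 21137969 (.nr 522 1048577 (.nx 477 2642247 (.nx 338 222 (.nx 337 221 (.nr 336 73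
  (.lg 0 true 1 41 41 7 0 31824) (.l1 .sk)) (.l1 .sk)) (.nx 465 832257 (.nx 361 35640 (.nr 349
  220437 (.lg 0 false 11 107 109 17 0 12252240) (.nx 360 814 (.lg 0 false 11 97 97 17 0 1750320)
  .out)) (.nr 464 311745 (.nr 383 6606 (.nr 372 941 (.lg 0 true 11 97 97 17 0 350064) (.lg 2 true
  11 97 103 17 97731 12252240)) (.nx 395 52015 (.nr 394 220437 (.lg 1 false 11 103 107 17 151197
  12252240) .out) (.nx 418 112360 (.nx 407 82570 (.nr 406 262145 (.lg 1 false 11 103 107 17 123180
  12252240) .out) (.lg 1 false 11 103 107 17 92267 12252240)) (.nx 452 262145 (.nx 440 208065 (.nx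
  429 152899 (.lg 1 false 11 103 107 17 67804 12252240) (.lg 1 true 11 103 107 17 49827 12252240))
  (.nr 451 262145 (.lg 1 true 11 101 107 17 30794 12252240) .out)) (.nr 463 131073 (.lg 2 false 11
  101 107 17 13922 12252240) .out))))) .out)) (.nr 476 257 (.lg 0 true 11 89 89 17 0 350064)
  .out))) (.nr 521 28 (.nx 499 10568985 (.lg 0 true 22 83 83 13 0 350064) (.lg 0 true 22 83 83 13 0
  350064)) .out)) .out) .out))) (.na 627 12 (.na 525 10 .ne (.nx 626 2642247 (.nr 625 1246976 (.nx
  528 222 (.nx 527 221 (.nr 526 126 (.lg 0 false 1 37 37 11 0 159120) (.l1 .sk)) (.l1 .sk)) (.nr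
  617 370729 (.nx 539 32768 (.nr 535 220437 (.lg 0 false 7 103 107 13 0 1113840) (.nx 538 1627 (.lg
  0 false 3 89 89 13 0 159120) .out)) (.nr 616 311745 (.nx 608 1321124 (.nr 550 1073 (.lg 0 true 11
  89 97 19 0 1750320) (.nr 557 9147 (.lg 2 true 7 97 101 13 136053 1113840) (.nx 600 262145 (.nx
  586 131072 (.nx 579 92681 (.nx 572 65536 (.nr 571 262145 (.nx 564 46340 (.lg 1 false 7 101 103 13
  195533 1113840) (.lg 1 false 7 101 103 13 138265 1113840)) .out) (.lg 1 false 7 101 103 13 116248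
  1113840)) (.lg 1 false 7 101 103 13 82201 1113840)) (.nx 593 185364 (.lg 1 false 7 101 103 13
  58124 1113840) (.lg 1 true 7 101 103 13 41100 1113840))) (.nr 607 185365 (.lg 2 false 7 101 103
  13 17289 1113840) .out)))) (.nr 615 65 (.lg 0 true 7 73 73 13 0 1113840) .out)) .out)) (.nx 624
  814 (.lg 0 false 7 89 89 13 0 1113840) .out))) .out) .out)) (.na 628 13 .ne (.nx 700 2642247 (.nr
  699 1246976 (.nx 631 222 (.nx 630 221 (.nr 629 158 (.lg 0 true 1 31 31 9 0 15912) (.l1 .sk)) (.l1
  .sk)) (.nx 634 408 (.nx 632 324 (.l1 (.ls 83 37 4287)) (.nr 633 1048577 (.l1 (.ls 79 41 4732))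
  .out)) (.nr 698 741457 (.nx 689 660563 (.nx 658 82570 (.nr 650 262145 (.lg 0 false 16 103 107 16
  0 12252240) (.nx 657 1627 (.lg 0 false 7 79 79 16 0 111384) .out)) (.nr 688 311745 (.nr 665 2302
  (.lg 0 true 7 83 83 16 0 111384) (.nx 676 165142 (.lg 1 false 11 97 103 16 92267 6126120) (.nr
  687 262145 (.lg 2 false 11 101 103 16 38798 6126120) .out))) .out)) (.nr 697 65 (.lg 0 true 8 67
  67 11 0 31824) .out)) .out))) .out) .out))))

def T105_1 : Ph :=
  (.na 437 202 (.na 239 102 (.na 146 64 (.na 57 46 (.na 1 34 .ne (.na 31 42 (.nx 30 2642247 (.nr 29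
  881745 (.nr 2 31 .s1 (.nx 23 262145 (.nx 4 251 (.nr 3 471 (.lg 0 false 1 31 31 13 0 5040) (.l1
  .sk)) (.nx 5 252 (.l1 .sk) (.nx 6 408 (.l1 (.ls 79 43 3031)) (.nr 22 623489 (.nr 16 185365 (.nx
  11 65537 (.lg 0 false 5 97 101 13 0 5040) (.nr 15 77937 (.nr 12 1263 (.lg 0 false 1 79 79 13 0
  144) (.lg 2 false 3 97 97 13 37582 5040)) .out)) (.nx 21 16385 (.lg 0 false 5 97 97 13 0 5040)
  .out)) .out)))) (.nr 28 257 (.lg 0 true 5 71 71 13 0 720) .out))) .out) .out) (.nx 56 2642247
  (.nr 55 881745 (.nr 32 39 .s1 (.nx 36 408 (.nx 34 251 (.nr 33 516 (.lg 0 true 1 31 31 23 0 5040)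
  (.l1 .sk)) (.nx 35 252 (.l1 .sk) (.l1 (.ls 79 47 2454)))) (.nr 54 623489 (.nx 41 16385 (.lg 0
  false 5 83 97 31 0 5040) (.nr 53 185365 (.nx 43 52017 (.lg 0 false 2 97 101 29 0 5040) (.nr 52
  92683 (.nr 50 65537 (.nx 46 262145 (.nr 44 1359 (.lg 0 false 1 73 73 23 0 1008) (.lg 2 false 2 89
  97 29 39841 5040)) (.nr 49 257 (.lg 0 true 3 71 71 29 0 1008) .out)) (.nx 51 82572 (.lg 0 false 1
  89 89 23 0 5040) .out)) .out)) .out)) .out))) .out) .out))) (.na 102 54 (.na 80 50 (.nx 79
  2642247 (.nr 78 881745 (.nr 58 44 .s1 (.nx 60 251 (.nr 59 561 (.lg 0 false 1 23 23 13 0 720) (.l1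
  .sk)) (.nx 61 252 (.l1 .sk) (.nx 68 32769 (.lg 0 false 7 89 97 19 0 5040) (.nr 77 92683 (.nr 73
  561 (.lg 0 true 5 73 73 19 0 720) (.nx 76 262145 (.lg 2 false 3 89 97 13 89338 720) .out))
  .out))))) .out) .out) (.nx 101 2642247 (.nr 100 881745 (.nr 81 48 .s1 (.nx 83 251 (.nr 82 606
  (.l1 (.ls 29 37 1263)) (.l1 .sk)) (.nx 84 252 (.l1 .sk) (.nx 91 41287 (.nr 87 220437 (.lg 0 false
  3 89 89 19 0 5040) (.nx 90 20644 (.lg 0 false 3 97 97 19 0 5040) .out)) (.nr 99 77937 (.nr 95 606
  (.lg 0 true 4 73 73 23 0 720) (.nx 98 262145 (.lg 2 false 3 89 89 19 59656 5040) .out)) .out)))))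
  .out) .out)) (.na 125 62 (.nx 124 2642247 (.nr 123 881745 (.nr 103 52 .s1 (.nx 106 252 (.nx 105
  251 (.nr 104 696 (.l1 (.ls 29 41 1169)) (.l1 .sk)) (.l1 .sk)) (.nx 113 32769 (.lg 0 false 7 89 97
  29 0 5040) (.nr 122 92683 (.nr 118 696 (.lg 0 true 5 71 71 23 0 720) (.nx 121 262145 (.lg 2 false
  3 89 89 23 89338 5040) .out)) .out)))) .out) .out) (.nx 145 2642247 (.nr 144 881745 (.nr 126 60
  .s1 (.nx 128 251 (.nr 127 718 (.l1 (.ls 23 37 1019)) (.l1 .sk)) (.nx 129 252 (.l1 .sk) (.nx 134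
  32769 (.lg 0 false 5 97 97 19 0 5040) (.nr 143 92683 (.nr 139 718 (.lg 0 true 5 73 73 19 0 720)
  (.nx 142 262145 (.lg 2 false 3 89 89 19 89338 5040) .out)) .out))))) .out) .out)))) (.na 186 82
  (.na 147 70 .ne (.na 167 78 (.nx 166 2642247 (.nr 165 2097153 (.nr 148 69 .s1 (.nx 159 32769 (.nx
  150 251 (.nr 149 875 (.l1 (.ls 31 41 903)) (.l1 .sk)) (.nx 151 252 (.l1 .sk) (.nx 156 20644 (.nx
  152 408 (.l1 (.ls 83 43 1473)) (.nr 155 1048577 (.lg 0 false 3 89 97 29 0 5040) .out)) (.nr 158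
  262145 (.lg 0 false 2 83 89 29 0 5040) .out)))) (.nr 164 65537 (.nr 162 875 (.lg 0 true 3 79 79
  29 0 5040) (.nx 163 416129 (.lg 2 false 1 89 89 23 63243 5040) .out)) .out))) .out) .out) (.nx
  185 2642247 (.nr 184 2097153 (.nr 168 77 .s1 (.nx 171 252 (.nx 170 251 (.nr 169 920 (.l1 (.ls 37
  41 810)) (.l1 .sk)) (.l1 .sk)) (.nx 178 32769 (.nx 172 408 (.l1 (.ls 83 43 1323)) (.nr 177
  1048577 (.lg 0 false 5 89 101 37 0 65520) .out)) (.nr 183 65537 (.nr 181 920 (.lg 0 true 3 79 79
  31 0 1872) (.nx 182 416129 (.lg 2 true 1 97 97 29 63243 65520) .out)) .out)))) .out) .out))) (.na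
  221 91 (.na 203 90 (.nx 202 2642247 (.nr 201 2097153 (.nr 187 81 .s1 (.nx 194 32769 (.nx 188 408
  (.l1 (.ls 83 37 2033)) (.nr 193 1048577 (.lg 0 false 5 89 97 23 0 720) .out)) (.nr 200 65537 (.nr
  197 1010 (.lg 0 true 3 71 71 19 0 144) (.nx 199 416129 (.lg 2 true 2 83 83 19 63243 144) .out))
  .out))) .out) .out) (.nx 220 2642247 (.nr 219 2097153 (.nr 204 89 .s1 (.nx 207 252 (.nx 206 251
  (.nr 205 1021 (.l1 (.ls 31 41 703)) (.l1 .sk)) (.l1 .sk)) (.nx 214 32769 (.nx 208 408 (.l1 (.ls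
  83 43 1147)) (.nr 213 1048577 (.nr 210 262145 (.lg 0 false 2 89 89 31 0 5040) (.nx 212 20644 (.lg
  0 false 2 89 97 31 0 5040) .out)) .out)) (.nr 218 65537 (.nr 216 1021 (.lg 0 true 2 73 73 31 0
  720) (.nx 217 416129 (.lg 2 true 1 89 89 29 63243 5040) .out)) .out)))) .out) .out)) (.na 222 98
  .ne (.nx 238 2642247 (.nr 237 2097153 (.nr 223 97 .s1 (.nx 230 31501 (.nx 224 408 (.l1 (.ls 73 41
  1701)) (.nr 229 1482912 (.lg 0 false 5 83 89 29 0 5040) .out)) (.nr 236 65537 (.nr 233 513 (.lg 0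
  true 3 61 61 23 0 1008) (.nx 235 416129 (.lg 2 false 2 83 83 23 101802 5040) .out)) .out))) .out)
  .out))))) (.na 332 150 (.na 273 130 (.na 257 126 (.nx 256 2642247 (.nr 255 2097153 (.nr 240 101
  .s1 (.nx 250 31501 (.nx 242 251 (.nr 241 1413 (.l1 (.ls 31 41 620)) (.l1 .sk)) (.nx 243 252 (.l1
  .sk) (.nx 244 408 (.l1 (.ls 79 43 1012)) (.nr 249 1482912 (.lg 0 false 5 89 97 37 0 720) .out))))
  (.nr 254 65537 (.nr 252 513 (.lg 0 true 2 71 71 31 0 144) (.nx 253 416129 (.lg 2 false 1 89 89 29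
  101802 144) .out)) .out))) .out) .out) (.na 272 128 (.nx 271 2642247 (.nr 270 2097153 (.nr 258
  126 .s1 (.nx 259 408 (.l1 (.ls 83 43 1324)) (.nr 269 1482912 (.nx 262 26009 (.lg 0 false 3 89 89
  37 0 5040) (.nr 268 65537 (.nx 263 72125 (.lg 0 true 1 79 79 31 0 5040) (.nx 265 416129 (.nr 264
  4073 (.lg 0 true 1 73 73 31 0 1008) (.lg 2 false 1 79 79 31 28734 5040)) (.nr 267 513 (.lg 0 true
  2 71 71 31 0 1008) .out))) .out)) .out))) .out) .out) .ne)) (.na 305 138 (.na 289 134 (.nx 288
  1321124 (.nr 287 2097153 (.nr 274 130 .s1 (.nx 277 252 (.nx 276 251 (.nr 275 1503 (.l1 (.ls 31 37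
  487)) (.l1 .sk)) (.l1 .sk)) (.nx 280 20644 (.lg 0 false 3 89 97 31 0 9360) (.nr 286 262145 (.nx
  281 41287 (.lg 0 true 1 83 83 29 0 9360) (.nr 285 16385 (.nr 283 1025 (.lg 0 true 2 71 71 31 0
  9360) (.nx 284 165142 (.lg 2 true 1 67 67 29 20220 9360) .out)) .out)) .out)))) .out) .out) (.nx
  304 1321124 (.nr 303 2097153 (.nr 290 134 .s1 (.nx 293 252 (.nx 292 251 (.nr 291 1548 (.l1 (.ls
  23 29 473)) (.l1 .sk)) (.l1 .sk)) (.nx 298 26009 (.lg 0 false 5 89 89 29 0 5040) (.nr 302 65537
  (.nx 300 165142 (.lg 0 true 2 83 83 23 0 5040) (.nr 301 1025 (.lg 0 false 1 73 73 19 0 5040)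
  .out)) .out)))) .out) .out)) (.na 319 146 (.nx 318 1321124 (.nr 317 2097153 (.nr 306 138 .s1 (.nx
  309 252 (.nx 308 251 (.nr 307 1638 (.l1 (.ls 19 41 459)) (.l1 .sk)) (.l1 .sk)) (.nx 313 41287
  (.nr 310 262145 (.lg 0 true 1 97 97 31 0 5040) (.nx 312 20644 (.lg 0 false 2 97 97 37 0 144)
  .out)) (.nr 316 16385 (.nr 314 1025 (.lg 0 true 1 71 71 31 0 144) (.nx 315 165142 (.lg 2 true 1
  67 67 31 20220 144) .out)) .out)))) .out) .out) (.nx 331 1321124 (.nr 330 2097153 (.nr 320 146
  .s1 (.nx 328 165142 (.nx 326 26009 (.nx 322 251 (.nr 321 1683 (.l1 (.ls 23 29 434)) (.l1 .sk))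
  (.nx 323 252 (.l1 .sk) (.lg 0 false 3 89 89 23 0 5040))) (.nr 327 65537 (.lg 0 false 1 83 83 19 0
  144) .out)) (.nr 329 1025 (.lg 0 false 1 67 67 19 0 144) .out))) .out) .out)))) (.na 387 170 (.na
  359 162 (.na 346 158 (.nx 345 1321124 (.nr 344 2097153 (.nr 333 150 .s1 (.nx 336 252 (.nx 335 251
  (.nr 334 1772 (.l1 (.ls 29 37 423)) (.l1 .sk)) (.l1 .sk)) (.nx 340 41287 (.nx 338 20644 (.lg 0
  false 2 89 89 31 0 720) (.nr 339 262145 (.lg 0 false 1 79 79 31 0 720) .out)) (.nr 343 16385 (.nr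
  341 1025 (.lg 0 true 1 67 67 31 0 720) (.nx 342 165142 (.lg 2 true 1 61 61 31 20220 720) .out))
  .out)))) .out) .out) (.nx 358 1321124 (.nr 357 2097153 (.nr 347 158 .s1 (.nx 350 252 (.nx 349 251
  (.nr 348 1817 (.l1 (.ls 19 29 401)) (.l1 .sk)) (.l1 .sk)) (.nx 353 26009 (.lg 0 false 3 83 83 23
  0 144) (.nr 356 65537 (.nx 354 165142 (.lg 0 false 1 83 83 19 0 720) (.nr 355 1025 (.lg 0 false 1
  67 67 19 0 720) .out)) .out)))) .out) .out)) (.na 374 166 (.nx 373 1321124 (.nr 372 2097153 (.nr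
  360 162 .s1 (.nx 362 251 (.nr 361 1862 (.l1 (.ls 23 31 391)) (.l1 .sk)) (.nx 363 252 (.l1 .sk)
  (.nx 368 41287 (.lg 0 false 5 83 89 31 0 5040) (.nr 371 16385 (.nr 369 1025 (.lg 0 false 1 67 67
  23 0 144) (.nx 370 165142 (.lg 2 false 1 59 59 23 20220 144) .out)) .out))))) .out) .out) (.nx
  386 1321124 (.nr 385 2097153 (.nr 375 166 .s1 (.nx 383 165142 (.nx 377 251 (.nr 376 1907 (.l1
  (.ls 23 29 382)) (.l1 .sk)) (.nx 378 252 (.l1 .sk) (.nx 381 26009 (.lg 0 false 3 79 79 23 0 144)
  (.nr 382 65537 (.lg 0 false 1 83 83 19 0 144) .out)))) (.nr 384 1025 (.lg 0 false 1 67 67 19 0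
  144) .out))) .out) .out))) (.na 413 182 (.na 400 178 (.nx 399 1321124 (.nr 398 2097153 (.nr 388
  170 .s1 (.nx 391 252 (.nx 390 251 (.nr 389 1997 (.lg 0 false 1 29 29 31 0 720) (.l1 .sk)) (.l1
  .sk)) (.nx 396 165142 (.nx 394 26009 (.lg 0 false 3 89 97 37 0 720) (.nr 395 65537 (.lg 0 false 1
  89 89 31 0 720) .out)) (.nr 397 1025 (.lg 0 true 1 71 71 31 0 720) .out)))) .out) .out) (.nx 412
  1321124 (.nr 411 2097153 (.nr 401 178 .s1 (.nx 404 252 (.nx 403 251 (.nr 402 2041 (.l1 (.ls 19 29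
  356)) (.l1 .sk)) (.l1 .sk)) (.nx 407 26009 (.lg 0 false 3 79 79 23 0 144) (.nr 410 65537 (.nx 408
  165142 (.lg 0 false 1 73 73 19 0 144) (.nr 409 1025 (.lg 0 false 1 61 61 19 0 144) .out))
  .out)))) .out) .out)) (.na 425 186 (.nx 424 1321124 (.nr 423 1482912 (.nr 414 182 .s1 (.nx 421
  165142 (.nx 419 26009 (.nx 416 251 (.nr 415 2086 (.l1 (.ls 37 37 349)) (.l1 .sk)) (.nx 417 252
  (.l1 .sk) (.lg 0 false 2 97 97 37 0 65520))) (.nr 420 65537 (.lg 0 false 1 89 89 31 0 65520)
  .out)) (.nr 422 1025 (.lg 0 true 1 71 71 31 0 13104) .out))) .out) .out) (.nx 436 1321124 (.nr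
  435 1482912 (.nr 426 186 .s1 (.nx 429 252 (.nx 428 251 (.nr 427 2266 (.l1 (.ls 29 29 341)) (.l1
  .sk)) (.l1 .sk)) (.nx 431 26009 (.lg 0 false 2 89 97 29 0 720) (.nr 434 65537 (.nx 432 165142
  (.lg 0 false 1 89 89 29 0 720) (.nr 433 1025 (.lg 0 true 1 67 67 29 0 144) .out)) .out)))) .out)
  .out)))))) (.na 2678 1024 (.na 523 246 (.na 474 226 (.na 450 206 (.nx 449 1321124 (.nr 448
  1482912 (.nr 438 202 .s1 (.nx 441 252 (.nx 440 251 (.nr 439 2310 (.l1 (.ls 23 29 314)) (.l1 .sk))
  (.l1 .sk)) (.nx 444 41287 (.lg 0 false 3 83 83 29 0 5040) (.nr 447 16385 (.nr 445 1025 (.lg 0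
  false 1 61 61 23 0 144) (.nx 446 165142 (.lg 2 false 1 53 53 23 20220 144) .out)) .out)))) .out)
  .out) (.na 463 210 (.nx 462 1321124 (.nr 461 1482912 (.nr 451 206 .s1 (.nx 454 252 (.nx 453 251
  (.nr 452 2355 (.l1 (.ls 19 29 308)) (.l1 .sk)) (.l1 .sk)) (.nx 457 41287 (.lg 0 false 3 79 79 29
  0 720) (.nr 460 16385 (.nr 458 1025 (.lg 0 false 1 61 61 23 0 720) (.nx 459 165142 (.lg 2 false 1
  53 53 23 20220 720) .out)) .out)))) .out) .out) (.nx 473 1321124 (.nr 472 1482912 (.nr 464 210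
  .s1 (.nx 467 252 (.nx 466 251 (.nr 465 2535 (.l1 (.ls 41 41 303)) (.l1 .sk)) (.l1 .sk)) (.nx 470
  165142 (.nr 468 65537 (.lg 0 true 1 89 89 41 0 5040) (.nx 469 26009 (.lg 0 false 1 97 97 41 0
  5040) .out)) (.nr 471 1025 (.lg 0 true 1 73 73 41 0 5040) .out)))) .out) .out))) (.na 499 234
  (.na 487 230 (.nx 486 1321124 (.nr 485 1482912 (.nr 475 226 .s1 (.nx 478 252 (.nx 477 251 (.nr
  476 2580 (.l1 (.ls 23 29 281)) (.l1 .sk)) (.l1 .sk)) (.nx 481 41287 (.lg 0 false 3 79 79 29 0
  144) (.nr 484 16385 (.nr 482 1025 (.lg 0 false 1 61 61 23 0 144) (.nx 483 165142 (.lg 2 false 1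
  53 53 23 20220 144) .out)) .out)))) .out) .out) (.nx 498 1321124 (.nr 497 1482912 (.nr 488 230
  .s1 (.nx 491 252 (.nx 490 251 (.nr 489 2624 (.l1 (.ls 19 37 276)) (.l1 .sk)) (.l1 .sk)) (.nx 493
  26009 (.lg 0 false 2 89 97 37 0 5040) (.nr 496 65537 (.nx 494 165142 (.lg 0 false 1 89 89 31 0
  5040) (.nr 495 1025 (.lg 0 true 1 67 67 31 0 720) .out)) .out)))) .out) .out)) (.na 511 238 (.nx
  510 1321124 (.nr 509 1482912 (.nr 500 234 .s1 (.nx 503 252 (.nx 502 251 (.nr 501 2669 (.l1 (.ls
  31 37 272)) (.l1 .sk)) (.l1 .sk)) (.nx 505 26009 (.lg 0 false 2 83 89 37 0 9360) (.nr 508 65537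
  (.nx 506 165142 (.lg 0 false 1 83 83 37 0 9360) (.nr 507 1025 (.lg 0 true 1 61 61 37 0 1872)
  .out)) .out)))) .out) .out) (.nx 522 1321124 (.nr 521 1482912 (.nr 512 238 .s1 (.nr 516 65537
  (.nx 513 408 (.l1 (.ls 59 41 702)) (.nx 514 165142 (.lg 0 false 1 83 83 31 0 1008) (.nr 515 1025
  (.lg 0 true 1 67 67 31 0 1008) .out))) (.nx 518 252 (.nx 517 251 (.l1 .sk) (.l1 .sk)) (.nx 520
  26009 (.lg 0 false 2 89 89 37 0 1008) .out)))) .out) .out)))) (.na 547 257 (.na 535 250 (.nx 534
  1321124 (.nr 533 1482912 (.nr 524 246 .s1 (.nx 526 251 (.nr 525 2804 (.l1 (.ls 31 31 259)) (.l1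
  .sk)) (.nx 527 252 (.l1 .sk) (.nx 529 26009 (.lg 0 false 2 89 89 31 0 5040) (.nr 532 65537 (.nx
  530 165142 (.lg 0 false 1 83 83 31 0 5040) (.nr 531 1025 (.lg 0 true 1 67 67 31 0 144) .out))
  .out))))) .out) .out) (.na 546 256 (.nx 545 1321124 (.nr 544 1482912 (.nr 536 250 .s1 (.nx 542
  41287 (.nx 538 251 (.nr 537 2871 (.l1 (.ls 19 29 255)) (.l1 .sk)) (.nx 539 252 (.l1 .sk) (.lg 0
  false 3 79 79 31 0 720))) (.nr 543 16385 (.lg 0 false 1 79 79 29 0 720) .out))) .out) .out) .ne))
  (.na 1431 512 (.na 978 363 (.nx 977 1321124 (.nr 976 1482912 (.nr 548 257 .s1 (.nx 869 165142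
  (.nx 762 26009 (.nx 655 251 (.nr 654 4071 (.la (.ls 43 19 248)) (.l1 .sk)) (.nx 656 252 (.l1 .sk)
  (.la (.lg 0 false 2 79 79 23 0)))) (.nr 868 32769 (.la (.lg 0 false 1 71 71 19 0)) .out)) (.nr
  975 2049 (.la (.lg 0 true 1 61 61 19 0)) .out))) .out) .out) (.nx 1430 1321124 (.nr 1429 1482912
  (.nr 979 363 .s1 (.nx 1279 26009 (.nx 1129 251 (.nr 1128 5742 (.la (.ls 43 23 176)) (.l1 .sk))
  (.nx 1130 252 (.l1 .sk) (.la (.lg 0 false 1 79 79 23 0)))) (.nr 1428 32769 (.la (.lg 0 true 1 79
  79 23 0)) .out))) .out) .out)) (.na 2076 725 (.nx 2075 1321124 (.nr 2074 1482912 (.nr 1432 512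
  .s1 (.nx 1647 252 (.nx 1646 251 (.nr 1645 8131 (.la (.ls 43 23 182)) (.l1 .sk)) (.l1 .sk)) (.nx
  1860 26009 (.la (.lg 0 false 1 73 73 29 0)) (.nr 2073 32769 (.la (.lg 0 true 1 73 73 29 0))
  .out)))) .out) .out) (.nx 2677 20644 (.nr 2676 2097153 (.nr 2077 725 .s1 (.nx 2376 2049 (.la (.ls
  71 37 5793)) (.nr 2675 262145 (.la (.lg 0 false 1 61 61 29 0)) .out))) .out) .out))))) (.na 15865
  11586 (.na 6436 2897 (.na 3532 1449 (.nx 3531 20644 (.nr 3530 2097153 (.nr 2679 1024 .s1 (.nx
  3104 3252 (.la (.ls 67 41 10330)) (.nr 3529 131073 (.la (.lg 0 false 1 53 53 31 0)) .out))) .out)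
  .out) (.na 4734 2048 (.nx 4733 13005 (.nr 4732 2097153 (.nr 3533 1449 .s1 (.nx 4132 3252 (.la
  (.ls 67 41 7301)) (.nr 4731 16385 (.la (.lg 0 false 1 29 31 31 0)) .out))) .out) .out) (.nx 6435
  13005 (.nr 6434 2097153 (.nr 4735 2048 .s1 (.nx 5584 3252 (.la (.ls 83 41 5166)) (.nr 6433 16385
  (.la (.ls 31 53 77422)) .out))) .out) .out))) (.na 9338 5793 (.na 7638 4096 (.nx 7637 4097 (.nr
  7636 1048577 (.nr 6437 2897 .s1 (.la (.ls 79 41 5797))) .out) .out) (.nx 9337 5162 (.nr 9336
  1048577 (.nr 7639 4096 .s1 (.la (.ls 73 41 6508))) .out) .out)) (.na 12063 8192 (.nx 12062 2049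
  (.nr 12061 524289 (.nr 9339 5793 .s1 (.nx 9662 324 (.lx (.lp 61 37 2049)) (.la (.ls 59 37
  2049)))) .out) .out) (.nx 15864 2049 (.nr 15863 524289 (.nr 12064 8192 .s1 (.nx 12469 406 (.lx
  (.lp 59 41 2897)) (.la (.ls 53 41 2897)))) .out) .out)))) (.na 23650 131072 (.na 19968 32768 (.na
  17916 16384 (.nx 17915 2049 (.nr 17914 131073 (.nr 15866 11586 .s1 (.lx (.lp 43 41 4097))) .out)
  .out) (.nx 19967 2049 (.nr 19966 262145 (.nr 17917 16384 .s1 (.nx 18240 324 (.lx (.lp 16 0 8193))
  (.nr 19965 131073 (.lx (.lp 43 43 8193)) .out))) .out) .out)) (.na 22020 65536 (.nx 22019 2049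
  (.nr 22018 524289 (.nr 19969 32768 .s1 (.nx 20292 324 (.lx (.lp 16 0 16385)) (.nr 22017 262145
  (.lx (.lp 43 47 16385)) .out))) .out) .out) (.nx 23649 1627 (.nr 23648 524289 (.nr 22021 65536
  .s1 (.nx 22344 324 (.lx (.lp 16 0 32769)) (.nr 23647 262145 (.lx (.lp 41 53 32769)) .out))) .out)
  .out))) (.na 25795 524288 (.na 25280 262144 (.nx 25279 1627 (.nr 25278 524289 (.nr 23651 131072
  .s1 (.nx 24163 513 (.lx (.lp 16 0 65537)) (.nr 25277 262145 (.lx (.lp 37 59 65537)) .out))) .out)
  .out) (.nx 25794 513 (.nr 25793 1048577 (.nr 25281 262144 .s1 (.lx (.lp 16 0 131073))) .out)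
  .out)) (.na 25797 1048577 (.nx 25796 324 (.l1 .sk) .out) .out))))))

def T105_2 : Ph :=
  (.na 754 151 (.na 599 89 (.na 489 32 (.na 409 8 (.na 339 3 (.na 194 2 (.nx 193 1321124 (.nr 192
  311745 (.nx 3 98 (.nx 2 97 (.nr 1 10 (.lg 0 true 1 37 37 5 0 81480) (.l1 .sk)) (.l1 .sk)) (.nr
  178 46342 (.nx 42 8848 (.lg 0 false 39 89 101 16 0 3177720) (.nr 177 38969 (.nr 135 1724 (.nx 108
  660563 (.nx 94 330282 (.nr 81 432 (.lg 0 true 39 83 83 16 0 3177720) (.lg 2 true 13 83 89 9 37081
  1059240)) (.nr 107 109 (.lg 0 true 13 79 79 9 0 30264) .out)) (.nr 134 13 (.lg 0 true 26 71 71 9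
  0 60528) .out)) (.nx 176 165142 (.nx 148 16385 (.lg 1 false 13 103 107 9 20773 69909840) (.nr 175
  27556 (.nr 161 19485 (.lg 2 false 13 101 103 9 5623 23303280) (.nx 174 65537 (.lg 2 false 13 101
  103 9 7941 23303280) .out)) .out)) .out)) .out)) (.nx 191 205 (.lg 0 false 13 79 79 9 0 30264)
  .out))) .out) .out) (.nx 338 3329023 (.nr 337 623489 (.nx 196 97 (.nr 195 19 (.lg 0 true 1 29 29
  5 0 4656) (.l1 .sk)) (.nx 197 98 (.l1 .sk) (.nr 315 65537 (.nx 212 9555 (.lg 0 false 15 89 89 9 0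
  69840) (.nx 296 1321124 (.nr 245 257 (.lg 0 true 33 79 79 13 0 153648) (.nx 295 165142 (.nx 260
  20644 (.lg 1 false 15 89 101 9 32318 488880) (.nr 294 46342 (.nx 275 41287 (.lg 1 true 15 83 89 9
  10584 488880) (.nr 293 32769 (.nr 284 2276 (.lg 2 true 9 79 79 9 31165 13968) (.lg 2 false 9 83
  83 9 3746 13968)) .out)) .out)) .out)) (.nr 314 9 (.lg 0 true 18 61 61 9 0 13968) .out))) (.nx
  336 1292 (.nr 320 77937 (.lg 0 false 5 73 73 9 0 23280) (.nx 335 205 (.lg 0 false 15 73 73 9 0
  69840) .out)) .out)))) .out) .out)) (.na 340 7 .ne (.nx 408 10568985 (.nr 407 262145 (.nx 343 98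
  (.nx 342 97 (.nr 341 55 (.lg 0 false 1 19 19 9 0 16296) (.l1 .sk)) (.l1 .sk)) (.nx 354 10321 (.nr
  348 55110 (.lg 0 true 5 83 83 16 0 81480) (.nx 353 408 (.lg 0 false 5 71 71 16 0 81480) .out))
  (.nr 406 65537 (.nx 379 660563 (.nr 365 596 (.lg 0 true 11 73 73 16 0 179256) (.nx 378 262145
  (.nr 367 2267 (.lg 2 true 2 73 73 11 21333 32592) (.nx 372 32769 (.lg 1 false 5 83 89 16 29919
  81480) (.nr 377 55110 (.lg 2 false 5 79 83 16 7926 81480) .out))) .out)) (.nr 405 109 (.nx 384
  1321124 (.lg 0 true 5 67 67 16 0 81480) (.nr 404 47 (.lg 0 true 20 73 73 16 0 162960) .out))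
  .out)) .out))) .out) .out))) (.na 438 16 (.na 410 14 .ne (.nx 437 1321124 (.nr 436 623489 (.nr
  411 10 .s1 (.nx 415 324 (.nx 413 97 (.nr 412 112 (.lg 0 true 1 23 23 11 0 488880) (.l1 .sk)) (.nx
  414 98 (.l1 .sk) (.l1 (.ls 79 47 6815)))) (.nr 435 220437 (.nr 431 92683 (.nx 418 14046 (.lg 0
  true 3 89 89 13 0 97776) (.nr 430 65537 (.nr 424 374 (.lg 0 true 6 73 73 13 0 97776) (.nx 429
  165142 (.lg 2 false 5 83 89 13 21984 162960) .out)) .out)) (.nx 434 814 (.lg 0 false 3 71 71 13 0
  97776) .out)) .out))) .out) .out)) (.na 439 19 .ne (.na 466 23 (.nx 465 1321124 (.nr 464 1048577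
  (.nr 440 17 .s1 (.nx 442 97 (.nr 441 161 (.l1 (.ls 17 17 498)) (.l1 .sk)) (.nx 443 98 (.l1 .sk)
  (.nx 451 10323 (.nx 444 324 (.l1 (.ls 79 41 5022)) (.nr 450 220437 (.nr 448 131073 (.lg 0 false 4
  83 83 16 0 4656) (.nx 449 814 (.lg 0 true 1 71 71 11 0 2328) .out)) .out)) (.nr 463 55110 (.nr
  458 498 (.lg 0 true 7 71 71 16 0 16296) (.nx 462 165142 (.lg 2 false 4 89 89 16 25161 162960)
  .out)) .out))))) .out) .out) (.nx 488 1321124 (.nr 487 1048577 (.nr 467 21 .s1 (.nx 477 16385
  (.nx 469 97 (.nr 468 224 (.l1 (.ls 17 19 412)) (.l1 .sk)) (.nx 470 98 (.l1 .sk) (.nx 471 205 (.l1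
  (.ls 73 31 1412)) (.nr 476 185365 (.lg 0 false 5 83 83 16 0 11640) .out)))) (.nr 486 38969 (.nr
  482 513 (.lg 0 true 5 71 71 16 0 11640) (.nx 485 82572 (.lg 1 true 3 79 79 16 11218 6984) .out))
  .out))) .out) .out))))) (.na 538 53 (.na 507 46 (.na 490 38 .ne (.nx 506 1321124 (.nr 505 370729
  (.nr 491 37 .s1 (.nx 499 13005 (.nx 493 97 (.nr 492 322 (.l1 (.ls 16 29 250)) (.l1 .sk)) (.nx 494
  98 (.l1 .sk) (.lg 0 false 5 79 83 17 0 23280))) (.nr 504 23172 (.nr 502 322 (.lg 0 true 3 61 61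
  13 0 13968) (.nx 503 82572 (.lg 2 true 1 73 73 13 12438 4656) .out)) .out))) .out) .out)) (.na
  522 49 (.nx 521 1321124 (.nr 520 311745 (.nr 508 45 .s1 (.nx 514 10323 (.nx 510 97 (.nr 509 342
  (.l1 (.ls 16 19 207)) (.l1 .sk)) (.nx 511 98 (.l1 .sk) (.lg 0 false 3 83 83 13 0 69840))) (.nr
  519 23172 (.nr 517 342 (.lg 0 true 3 67 67 13 0 13968) (.nx 518 82572 (.lg 2 true 1 71 71 13
  11710 4656) .out)) .out))) .out) .out) (.nx 537 1321124 (.nr 536 311745 (.nr 523 49 .s1 (.nr 530
  13779 (.nx 524 2580 (.l1 (.ls 53 59 135847)) (.nx 527 82572 (.lg 0 false 3 71 71 16 0 244440)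
  (.nr 529 217 (.lg 0 true 2 61 61 16 0 32592) .out))) (.nx 532 98 (.nx 531 97 (.l1 .sk) (.l1 .sk))
  (.nx 535 20644 (.lg 0 true 3 83 83 16 0 244440) .out)))) .out) .out))) (.na 554 71 (.na 553 64
  (.nx 552 1321124 (.nr 551 311745 (.nr 539 53 .s1 (.nx 542 98 (.nx 541 97 (.nr 540 447 (.l1 (.ls
  16 17 180)) (.l1 .sk)) (.l1 .sk)) (.nx 545 10323 (.lg 0 false 3 73 73 16 0 6984) (.nr 550 23172
  (.nr 548 447 (.lg 0 true 3 59 59 16 0 6984) (.nx 549 82572 (.lg 2 true 1 61 61 16 10605 2328)
  .out)) .out)))) .out) .out) .ne) (.na 569 73 (.nx 568 1321124 (.nr 567 524289 (.nr 555 71 .s1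
  (.nx 561 8193 (.nx 557 97 (.nr 556 510 (.l1 (.ls 16 16 135)) (.l1 .sk)) (.nx 558 98 (.l1 .sk)
  (.lg 0 false 3 79 79 16 0 6984))) (.nr 566 8193 (.nr 564 513 (.lg 0 true 3 61 61 16 0 6984) (.nx
  565 82572 (.lg 2 true 1 53 53 16 7807 81480) .out)) .out))) .out) .out) (.na 584 83 (.nx 583
  1321124 (.nr 582 524289 (.nr 570 73 .s1 (.nx 576 8193 (.nx 572 97 (.nr 571 580 (.l1 (.ls 16 16
  131)) (.l1 .sk)) (.nx 573 98 (.l1 .sk) (.lg 0 false 3 71 71 16 0 6984))) (.nr 581 8193 (.nr 579
  513 (.lg 0 true 3 53 53 16 0 6984) (.nx 580 82572 (.lg 2 true 1 43 43 16 7807 2328) .out))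
  .out))) .out) .out) (.nx 598 1321124 (.nr 597 524289 (.nr 585 83 .s1 (.nx 587 97 (.nr 586 622
  (.l1 (.ls 16 16 116)) (.l1 .sk)) (.nx 588 98 (.l1 .sk) (.nx 591 8193 (.lg 0 false 3 71 71 16 0
  48888) (.nr 596 8193 (.nr 594 622 (.lg 0 true 3 59 59 16 0 6984) (.nx 595 82572 (.lg 2 true 1 43
  43 16 6439 16296) .out)) .out))))) .out) .out)))))) (.na 697 122 (.na 642 106 (.na 614 97 (.na
  613 91 (.nx 612 1321124 (.nr 611 524289 (.nr 600 89 .s1 (.nx 606 8193 (.nx 602 97 (.nr 601 636
  (.l1 (.ls 16 16 108)) (.l1 .sk)) (.nx 603 98 (.l1 .sk) (.lg 0 false 3 71 71 16 0 6984))) (.nr 610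
  8193 (.nr 608 513 (.lg 0 true 2 59 59 16 0 4656) (.nx 609 82572 (.lg 2 true 1 47 47 16 7807 2328)
  .out)) .out))) .out) .out) .ne) (.na 629 98 (.nx 628 1321124 (.nr 627 524289 (.nr 615 97 .s1 (.nx
  617 97 (.nr 616 685 (.l1 (.ls 16 16 99)) (.l1 .sk)) (.nx 618 98 (.l1 .sk) (.nx 621 8193 (.lg 0
  true 3 61 61 16 0 48888) (.nr 626 8193 (.lg 0 true 5 67 67 16 0 81480) .out))))) .out) .out) (.nx
  641 1321124 (.nr 640 524289 (.nr 630 98 .s1 (.nx 635 8193 (.nx 632 97 (.nr 631 741 (.l1 (.ls 16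
  23 99)) (.l1 .sk)) (.nx 633 98 (.l1 .sk) (.lg 0 false 2 71 71 23 0 32592))) (.nr 639 8193 (.nr
  637 513 (.lg 0 true 2 59 59 23 0 32592) (.nx 638 82572 (.lg 2 true 1 47 47 19 7807 32592) .out))
  .out))) .out) .out))) (.na 664 109 (.na 653 107 (.nx 652 1321124 (.nr 651 524289 (.nr 643 106 .s1
  (.nx 646 98 (.nx 645 97 (.nr 644 748 (.l1 (.ls 16 19 91)) (.l1 .sk)) (.l1 .sk)) (.nx 647 8193
  (.lg 0 true 1 79 79 19 0 4656) (.nr 650 8193 (.nr 648 513 (.lg 2 false 1 61 61 19 604477 162960)
  (.nx 649 82572 (.lg 2 true 1 53 53 19 7807 162960) .out)) .out)))) .out) .out) (.nx 663 1321124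
  (.nr 662 524289 (.nr 654 107 .s1 (.nx 657 98 (.nx 656 97 (.nr 655 761 (.l1 (.ls 16 16 90)) (.l1
  .sk)) (.l1 .sk)) (.nx 658 8193 (.lg 0 true 1 71 71 16 0 2328) (.nr 661 8193 (.nr 659 513 (.lg 0
  false 1 59 59 16 0 16296) (.nx 660 82572 (.lg 2 true 1 43 43 16 7807 2328) .out)) .out)))) .out)
  .out)) (.na 675 113 (.nx 674 1321124 (.nr 673 524289 (.nr 665 109 .s1 (.nx 668 98 (.nx 667 97
  (.nr 666 789 (.l1 (.ls 16 16 89)) (.l1 .sk)) (.l1 .sk)) (.nx 669 8193 (.lg 0 true 1 71 71 16 0
  2328) (.nr 672 8193 (.nr 670 513 (.lg 2 false 1 53 53 16 587840 11640) (.nx 671 82572 (.lg 2 true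
  1 41 41 16 7807 2328) .out)) .out)))) .out) .out) (.na 686 118 (.nx 685 1321124 (.nr 684 524289
  (.nr 676 113 .s1 (.nx 680 8193 (.nx 678 97 (.nr 677 824 (.l1 (.ls 16 16 86)) (.l1 .sk)) (.nx 679
  98 (.l1 .sk) (.lg 0 true 1 73 73 16 0 48888))) (.nr 683 8193 (.nr 681 513 (.lg 2 false 1 59 59 16
  567032 16296) (.nx 682 82572 (.lg 2 false 1 43 43 16 7807 2328) .out)) .out))) .out) .out) (.nx
  696 1321124 (.nr 695 524289 (.nr 687 118 .s1 (.nx 691 8193 (.nx 689 97 (.nr 688 852 (.l1 (.ls 16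
  19 82)) (.l1 .sk)) (.nx 690 98 (.l1 .sk) (.lg 0 true 1 79 79 19 0 32592))) (.nr 694 8193 (.nr 692
  513 (.lg 2 false 1 59 59 19 543005 4656) (.nx 693 82572 (.lg 2 true 1 43 43 19 7807 32592) .out))
  .out))) .out) .out))))) (.na 728 137 (.na 719 128 (.na 708 127 (.nx 707 1321124 (.nr 706 524289
  (.nr 698 122 .s1 (.nx 702 8193 (.nx 700 97 (.nr 699 887 (.l1 (.ls 16 19 80)) (.l1 .sk)) (.nx 701
  98 (.l1 .sk) (.lg 0 true 1 73 73 19 0 4656))) (.nr 705 8193 (.nr 703 513 (.lg 2 false 1 53 53 19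
  525201 4656) (.nx 704 82572 (.lg 2 true 1 43 43 19 7807 4656) .out)) .out))) .out) .out) (.nx 718
  1321124 (.nr 717 524289 (.nr 709 127 .s1 (.nx 711 97 (.nr 710 894 (.l1 (.ls 16 16 77)) (.l1 .sk))
  (.nx 712 98 (.l1 .sk) (.nx 713 8193 (.lg 0 true 1 71 71 16 0 16296) (.nr 716 8193 (.nr 714 513
  (.lg 2 false 1 53 53 16 504524 16296) (.nx 715 82572 (.lg 2 true 1 43 43 16 7807 16296) .out))
  .out))))) .out) .out)) (.na 720 134 .ne (.nx 727 660563 (.nr 726 1048577 (.nr 721 134 .s1 (.nx
  722 205 (.l1 (.ls 61 29 316)) (.nr 725 524289 (.nr 723 8193 (.lg 0 false 1 79 79 19 0 4656) (.nx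
  724 6503 (.lg 0 true 1 73 73 19 0 4656) .out)) .out))) .out) .out))) (.na 737 142 (.na 729 139
  (.lg 0 false 1 0 0 16 0 24) (.nx 736 660563 (.nr 735 1048577 (.nr 730 139 .s1 (.nx 731 205 (.l1
  (.ls 79 19 305)) (.nr 734 524289 (.nr 732 8193 (.lg 0 false 1 73 73 16 0 244440) (.nx 733 6503
  (.lg 0 true 1 73 73 16 0 244440) .out)) .out))) .out) .out)) (.na 745 146 (.nx 744 660563 (.nr
  743 1048577 (.nr 738 142 .s1 (.nx 739 205 (.l1 (.ls 59 29 298)) (.nr 742 524289 (.nr 740 8193
  (.lg 0 false 1 73 73 19 0 4656) (.nx 741 6503 (.lg 0 true 1 71 71 19 0 4656) .out)) .out))) .out)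
  .out) (.na 753 149 (.nx 752 660563 (.nr 751 1048577 (.nr 746 146 .s1 (.nx 747 205 (.l1 (.ls 71 29
  290)) (.nr 750 524289 (.nr 748 8193 (.lg 0 false 1 79 79 19 0 4656) (.nx 749 6503 (.lg 0 true 1
  73 73 19 0 4656) .out)) .out))) .out) .out) (.lg 0 false 1 0 0 16 0 24))))))) (.na 864 233 (.na
  793 193 (.na 774 173 (.na 765 166 (.na 755 161 (.lg 0 false 1 0 0 16 0 24) (.nx 764 660563 (.nr
  763 1048577 (.nr 756 161 .s1 (.nx 759 6503 (.nx 757 205 (.l1 (.ls 71 19 264)) (.nr 758 524289
  (.lg 0 false 1 73 73 17 0 16296) .out)) (.nr 762 8193 (.nr 760 1025 (.lg 0 true 1 61 61 17 0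
  16296) (.nx 761 82572 (.lg 2 false 1 47 47 17 5998 16296) .out)) .out))) .out) .out)) (.na 773
  167 (.nx 772 660563 (.nr 771 1048577 (.nr 766 166 .s1 (.nx 767 205 (.l1 (.ls 73 29 256)) (.nr 770
  524289 (.nr 768 8193 (.lg 0 false 1 73 73 19 0 4656) (.nx 769 6503 (.lg 0 true 1 71 71 19 0 4656)
  .out)) .out))) .out) .out) (.lg 0 false 1 0 0 16 0 24))) (.na 783 179 (.na 775 178 (.lg 0 false 1
  0 0 16 0 24) (.nx 782 660563 (.nr 781 1048577 (.nr 776 178 .s1 (.nx 777 205 (.l1 (.ls 53 29 239))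
  (.nr 780 524289 (.nr 778 8193 (.lg 0 false 1 67 67 19 0 4656) (.nx 779 6503 (.lg 0 true 1 67 67
  19 0 4656) .out)) .out))) .out) .out)) (.na 791 181 (.nx 790 660563 (.nr 789 1048577 (.nr 784 179
  .s1 (.nx 785 205 (.l1 (.ls 59 17 237)) (.nr 788 524289 (.nr 786 8193 (.lg 0 false 1 67 67 16 0
  11640) (.nx 787 6503 (.lg 0 true 1 67 67 16 0 11640) .out)) .out))) .out) .out) (.na 792 191 (.lg
  0 false 1 0 0 16 0 24) (.lg 0 false 1 0 0 16 0 24))))) (.na 824 211 (.na 808 199 (.na 801 194
  (.nx 800 660563 (.nr 799 1048577 (.nr 794 193 .s1 (.nx 795 205 (.l1 (.ls 53 17 220)) (.nr 798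
  524289 (.nr 796 8193 (.lg 0 false 1 67 67 16 0 6984) (.nx 797 6503 (.lg 0 true 1 61 61 16 0 2328)
  .out)) .out))) .out) .out) (.nx 807 660563 (.nr 806 1048577 (.nr 802 194 .s1 (.nx 803 6503 (.l1
  (.ls 67 67 217987)) (.nr 805 8193 (.lg 0 false 2 61 61 19 0 4656) .out))) .out) .out)) (.na 816
  202 (.nx 815 660563 (.nr 814 1048577 (.nr 809 199 .s1 (.nx 810 205 (.l1 (.ls 71 17 214)) (.nr 813
  524289 (.nr 811 8193 (.lg 0 false 1 67 67 16 0 2328) (.nx 812 6503 (.lg 0 true 1 67 67 16 0
  11640) .out)) .out))) .out) .out) (.nx 823 660563 (.nr 822 1048577 (.nr 817 202 .s1 (.nx 820 6503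
  (.nx 818 205 (.l1 (.ls 59 23 211)) (.nr 819 524289 (.lg 0 true 1 67 67 23 0 4656) .out)) (.nr 821
  8193 (.lg 0 false 1 71 71 23 0 97776) .out))) .out) .out))) (.na 840 218 (.na 832 214 (.nx 831
  660563 (.nr 830 1048577 (.nr 825 211 .s1 (.nx 826 205 (.l1 (.ls 71 17 202)) (.nr 829 524289 (.nr
  827 8193 (.lg 0 false 1 67 67 16 0 2328) (.nx 828 6503 (.lg 0 true 1 61 61 16 0 2328) .out))
  .out))) .out) .out) (.nx 839 660563 (.nr 838 1048577 (.nr 833 214 .s1 (.nx 834 205 (.l1 (.ls 71
  23 199)) (.nr 837 524289 (.nr 835 8193 (.lg 0 false 1 71 71 23 0 23280) (.nx 836 6503 (.lg 0 true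
  1 67 67 23 0 23280) .out)) .out))) .out) .out)) (.na 848 223 (.nx 847 660563 (.nr 846 1048577
  (.nr 841 218 .s1 (.nx 842 205 (.l1 (.ls 59 23 195)) (.nr 845 524289 (.nr 843 8193 (.lg 0 false 1
  67 67 23 0 32592) (.nx 844 6503 (.lg 0 true 1 61 61 23 0 4656) .out)) .out))) .out) .out) (.na
  856 226 (.nx 855 660563 (.nr 854 1048577 (.nr 849 223 .s1 (.nx 850 205 (.l1 (.ls 53 17 191)) (.nr
  853 524289 (.nr 851 8193 (.lg 0 false 1 61 61 16 0 2328) (.nx 852 6503 (.lg 0 true 1 61 61 16 0
  16296) .out)) .out))) .out) .out) (.nx 863 660563 (.nr 862 1048577 (.nr 857 226 .s1 (.nx 858 205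
  (.l1 (.ls 71 23 188)) (.nr 861 524289 (.nx 859 6503 (.lg 0 true 1 67 67 23 0 4656) (.nr 860 8193
  (.lg 0 false 1 71 71 23 0 162960) .out)) .out))) .out) .out)))))) (.na 2564 1449 (.na 889 256
  (.na 873 241 (.na 865 239 (.lg 0 false 1 0 0 16 0 24) (.nx 872 660563 (.nr 871 1048577 (.nr 866
  239 .s1 (.nx 867 205 (.l1 (.ls 71 17 178)) (.nr 870 524289 (.nr 868 8193 (.lg 0 false 1 67 67 17
  0 2328) (.nx 869 6503 (.lg 0 true 1 61 61 17 0 2328) .out)) .out))) .out) .out)) (.na 881 254
  (.nx 880 660563 (.nr 879 1048577 (.nr 874 241 .s1 (.nx 875 205 (.l1 (.ls 71 17 177)) (.nr 878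
  524289 (.nr 876 8193 (.lg 0 false 1 67 67 17 0 11640) (.nx 877 6503 (.lg 0 true 1 61 61 17 0
  11640) .out)) .out))) .out) .out) (.nx 888 660563 (.nr 887 1048577 (.nr 882 254 .s1 (.nx 883 205
  (.l1 (.ls 71 23 168)) (.nr 886 524289 (.nr 884 8193 (.lg 0 false 1 67 67 23 0 4656) (.nx 885 6503
  (.lg 0 true 1 67 67 23 0 162960) .out)) .out))) .out) .out))) (.na 1404 512 (.na 890 257 .ne (.nx
  1403 82572 (.nr 1402 1048577 (.nr 891 257 .s1 (.nx 1146 647 (.la (.ls 61 29 1631)) (.nr 1401
  262145 (.la (.lg 0 true 1 71 71 23 0)) .out))) .out) .out)) (.na 1834 725 (.nx 1833 82572 (.nr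
  1832 1048577 (.nr 1405 512 .s1 (.nx 1618 5162 (.la (.ls 53 53 52046)) (.nr 1831 16385 (.la (.lg 2
  true 1 31 31 23 15023)) .out))) .out) .out) (.na 2136 1024 (.nx 2135 3252 (.nr 2134 262145 (.nr
  1835 725 .s1 (.la (.ls 43 43 14589))) .out) .out) (.nx 2563 3252 (.nr 2562 262145 (.nr 2137 1024
  .s1 (.la (.ls 43 41 10330))) .out) .out))))) (.na 5513 8192 (.na 4214 2897 (.na 3264 2048 (.nx
  3263 1627 (.nr 3262 131073 (.nr 2565 1449 .s1 (.nx 2662 97 (.nr 2661 14300 (.lx (.lp 16 0 513))
  (.l1 .sk)) (.nx 2663 98 (.l1 .sk) (.la (.ls 47 31 1823))))) .out) .out) (.nx 4213 1627 (.nr 4212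
  131073 (.nr 3265 2048 .s1 (.nx 3362 97 (.nr 3361 20228 (.lx (.lp 16 0 725)) (.l1 .sk)) (.nx 3363
  98 (.l1 .sk) (.la (.ls 43 31 1290))))) .out) .out)) (.na 4864 4096 (.nx 4863 647 (.nr 4862 65537
  (.nr 4215 2897 .s1 (.nx 4377 163 (.lx (.lp 16 0 1025)) (.nr 4861 32769 (.lx (.lp 19 31 1025))
  .out))) .out) .out) (.nx 5512 647 (.nr 5511 65537 (.nr 4865 4096 .s1 (.lx (.lp 37 37 2049)))
  .out) .out))) (.na 6811 32768 (.na 6162 16384 (.nx 6161 647 (.nr 6160 65537 (.nr 5514 8192 .s1
  (.lx (.lp 19 41 4097))) .out) .out) (.nx 6810 647 (.nr 6809 131073 (.nr 6163 16384 .s1 (.lx (.lp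
  19 43 8193))) .out) .out)) (.na 7137 65536 (.nx 7136 324 (.nr 7135 131073 (.nr 6812 32768 .s1
  (.lx (.lp 16 0 16385))) .out) .out) (.na 7463 131073 (.nx 7462 324 (.nr 7461 262145 (.nr 7138
  65536 .s1 (.lx (.lp 16 43 32769))) .out) .out) .out)))))))

theorem c105 :
    OkQ ckI L10 221 3 15 0 34359738368 1 1099511627776 ∧
    OkQ ckI L10 251 32 1099511627776 0 34359738368 1 1099511627776 ∧
    OkQ ckI L6 97 1 1099511627776 0 34359738368 1 1099511627776 := by
  refine ⟨?_, ?_, ?_⟩
  · refine fin 15912 701 T105_0 ?_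
    refine jn 6 (by decide +kernel) ?_
    refine jn 8 (by decide +kernel) ?_
    refine jn 11 (by decide +kernel) ?_
    refine jn 13 (by decide +kernel) ?_
    refine jn 15 (by decide +kernel) ?_
    refine jn 18 (by decide +kernel) ?_
    refine jn 21 (by decide +kernel) ?_
    refine jn 24 (by decide +kernel) ?_
    refine jn 26 (by decide +kernel) ?_
    refine jn 29 (by decide +kernel) ?_
    refine jn 32 (by decide +kernel) ?_
    refine jn 34 (by decide +kernel) ?_
    refine jn 36 (by decide +kernel) ?_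
    refine jn 39 (by decide +kernel) ?_
    refine jn 42 (by decide +kernel) ?_
    refine jn 44 (by decide +kernel) ?_
    refine jn 47 (by decide +kernel) ?_
    refine jn 50 (by decide +kernel) ?_
    refine jn 53 (by decide +kernel) ?_
    refine jn 55 (by decide +kernel) ?_
    refine jn 57 (by decide +kernel) ?_
    refine jn 59 (by decide +kernel) ?_
    refine jn 62 (by decide +kernel) ?_
    refine jn 65 (by decide +kernel) ?_
    refine jn 69 (by decide +kernel) ?_
    refine jn 71 (by decide +kernel) ?_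
    refine jn 74 (by decide +kernel) ?_
    refine jn 76 (by decide +kernel) ?_
    refine jn 78 (by decide +kernel) ?_
    refine jn 91 (by decide +kernel) ?_
    refine jn 103 (by decide +kernel) ?_
    refine jn 106 (by decide +kernel) ?_
    refine jn 108 (by decide +kernel) ?_
    refine jn 111 (by decide +kernel) ?_
    refine jn 113 (by decide +kernel) ?_
    refine jn 115 (by decide +kernel) ?_
    refine jn 125 (by decide +kernel) ?_
    refine jn 135 (by decide +kernel) ?_
    refine jn 143 (by decide +kernel) ?_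
    refine jn 153 (by decide +kernel) ?_
    refine jn 162 (by decide +kernel) ?_
    refine jn 171 (by decide +kernel) ?_
    refine jn 178 (by decide +kernel) ?_
    refine jn 185 (by decide +kernel) ?_
    refine jn 191 (by decide +kernel) ?_
    refine jn 196 (by decide +kernel) ?_
    refine jn 204 (by decide +kernel) ?_
    refine jn 211 (by decide +kernel) ?_
    refine jn 219 (by decide +kernel) ?_
    refine jn 226 (by decide +kernel) ?_
    refine jn 232 (by decide +kernel) ?_
    refine jn 241 (by decide +kernel) ?_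
    refine jn 250 (by decide +kernel) ?_
    refine jn 259 (by decide +kernel) ?_
    refine jn 260 (by decide +kernel) ?_
    refine jn 271 (by decide +kernel) ?_
    refine jn 278 (by decide +kernel) ?_
    refine jn 291 (by decide +kernel) ?_
    refine jn 294 (by decide +kernel) ?_
    refine jn 302 (by decide +kernel) ?_
    refine jn 329 (by decide +kernel) ?_
    refine jn 338 (by decide +kernel) ?_
    refine jn 340 (by decide +kernel) ?_
    refine jn 342 (by decide +kernel) ?_
    refine jn 345 (by decide +kernel) ?_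
    refine jn 347 (by decide +kernel) ?_
    refine jn 349 (by decide +kernel) ?_
    refine jn 360 (by decide +kernel) ?_
    refine jn 365 (by decide +kernel) ?_
    refine jn 369 (by decide +kernel) ?_
    refine jn 372 (by decide +kernel) ?_
    refine jn 383 (by decide +kernel) ?_
    refine jn 394 (by decide +kernel) ?_
    refine jn 404 (by decide +kernel) ?_
    refine jn 407 (by decide +kernel) ?_
    refine jn 418 (by decide +kernel) ?_
    refine jn 429 (by decide +kernel) ?_
    refine jn 440 (by decide +kernel) ?_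
    refine jn 451 (by decide +kernel) ?_
    refine jn 463 (by decide +kernel) ?_
    refine jn 476 (by decide +kernel) ?_
    refine jn 499 (by decide +kernel) ?_
    refine jn 521 (by decide +kernel) ?_
    refine jn 531 (by decide +kernel) ?_
    refine jn 533 (by decide +kernel) ?_
    refine jn 535 (by decide +kernel) ?_
    refine jn 543 (by decide +kernel) ?_
    refine jn 549 (by decide +kernel) ?_
    refine jn 557 (by decide +kernel) ?_
    refine jn 571 (by decide +kernel) ?_
    refine jn 586 (by decide +kernel) ?_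
    refine jn 600 (by decide +kernel) ?_
    refine jn 607 (by decide +kernel) ?_
    refine jn 615 (by decide +kernel) ?_
    refine jn 631 (by decide +kernel) ?_
    refine jn 634 (by decide +kernel) ?_
    refine jn 650 (by decide +kernel) ?_
    refine jn 665 (by decide +kernel) ?_
    refine jn 687 (by decide +kernel) ?_
    exact je (by decide +kernel)
  · refine fin 72 25798 T105_1 ?_
    refine jn 11 (by decide +kernel) ?_
    refine jn 15 (by decide +kernel) ?_
    refine jn 28 (by decide +kernel) ?_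
    refine jn 36 (by decide +kernel) ?_
    refine jn 39 (by decide +kernel) ?_
    refine jn 41 (by decide +kernel) ?_
    refine jn 43 (by decide +kernel) ?_
    refine jn 44 (by decide +kernel) ?_
    refine jn 46 (by decide +kernel) ?_
    refine jn 49 (by decide +kernel) ?_
    refine jn 68 (by decide +kernel) ?_
    refine jn 76 (by decide +kernel) ?_
    refine jn 90 (by decide +kernel) ?_
    refine jn 98 (by decide +kernel) ?_
    refine jn 113 (by decide +kernel) ?_
    refine jn 121 (by decide +kernel) ?_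
    refine jn 134 (by decide +kernel) ?_
    refine jn 142 (by decide +kernel) ?_
    refine jn 155 (by decide +kernel) ?_
    refine jn 162 (by decide +kernel) ?_
    refine jn 171 (by decide +kernel) ?_
    refine jn 175 (by decide +kernel) ?_
    refine jn 177 (by decide +kernel) ?_
    refine jn 181 (by decide +kernel) ?_
    refine jn 193 (by decide +kernel) ?_
    refine jn 199 (by decide +kernel) ?_
    refine jn 210 (by decide +kernel) ?_
    refine jn 216 (by decide +kernel) ?_
    refine jn 229 (by decide +kernel) ?_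
    refine jn 240 (by decide +kernel) ?_
    refine jn 244 (by decide +kernel) ?_
    refine jn 249 (by decide +kernel) ?_
    refine jn 253 (by decide +kernel) ?_
    refine jn 259 (by decide +kernel) ?_
    refine jn 260 (by decide +kernel) ?_
    refine jn 261 (by decide +kernel) ?_
    refine jn 262 (by decide +kernel) ?_
    refine jn 263 (by decide +kernel) ?_
    refine jn 267 (by decide +kernel) ?_
    refine jn 280 (by decide +kernel) ?_
    refine jn 284 (by decide +kernel) ?_
    refine jn 301 (by decide +kernel) ?_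
    refine jn 312 (by decide +kernel) ?_
    refine jn 326 (by decide +kernel) ?_
    refine jn 338 (by decide +kernel) ?_
    refine jn 342 (by decide +kernel) ?_
    refine jn 355 (by decide +kernel) ?_
    refine jn 370 (by decide +kernel) ?_
    refine jn 384 (by decide +kernel) ?_
    refine jn 394 (by decide +kernel) ?_
    refine jn 407 (by decide +kernel) ?_
    refine jn 419 (by decide +kernel) ?_
    refine jn 427 (by decide +kernel) ?_
    refine jn 432 (by decide +kernel) ?_
    refine jn 445 (by decide +kernel) ?_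
    refine jn 459 (by decide +kernel) ?_
    refine jn 468 (by decide +kernel) ?_
    refine jn 471 (by decide +kernel) ?_
    refine jn 483 (by decide +kernel) ?_
    refine jn 494 (by decide +kernel) ?_
    refine jn 506 (by decide +kernel) ?_
    refine jn 515 (by decide +kernel) ?_
    refine jn 529 (by decide +kernel) ?_
    refine jn 542 (by decide +kernel) ?_
    refine jn 605 (by decide +kernel) ?_
    refine jn 669 (by decide +kernel) ?_
    refine jn 693 (by decide +kernel) ?_
    refine jn 697 (by decide +kernel) ?_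
    refine jn 705 (by decide +kernel) ?_
    refine jn 709 (by decide +kernel) ?_
    refine jn 721 (by decide +kernel) ?_
    refine jn 737 (by decide +kernel) ?_
    refine jn 749 (by decide +kernel) ?_
    refine jn 761 (by decide +kernel) ?_
    refine jn 799 (by decide +kernel) ?_
    refine jn 815 (by decide +kernel) ?_
    refine jn 851 (by decide +kernel) ?_
    refine jn 867 (by decide +kernel) ?_
    refine jn 906 (by decide +kernel) ?_
    refine jn 922 (by decide +kernel) ?_
    refine jn 958 (by decide +kernel) ?_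
    refine jn 979 (by decide +kernel) ?_
    refine jn 1050 (by decide +kernel) ?_
    refine jn 1114 (by decide +kernel) ?_
    refine jn 1157 (by decide +kernel) ?_
    refine jn 1158 (by decide +kernel) ?_
    refine jn 1177 (by decide +kernel) ?_
    refine jn 1189 (by decide +kernel) ?_
    refine jn 1205 (by decide +kernel) ?_
    refine jn 1217 (by decide +kernel) ?_
    refine jn 1233 (by decide +kernel) ?_
    refine jn 1249 (by decide +kernel) ?_
    refine jn 1257 (by decide +kernel) ?_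
    refine jn 1269 (by decide +kernel) ?_
    refine jn 1277 (by decide +kernel) ?_
    refine jn 1294 (by decide +kernel) ?_
    refine jn 1306 (by decide +kernel) ?_
    refine jn 1307 (by decide +kernel) ?_
    refine jn 1326 (by decide +kernel) ?_
    refine jn 1338 (by decide +kernel) ?_
    refine jn 1354 (by decide +kernel) ?_
    refine jn 1366 (by decide +kernel) ?_
    refine jn 1390 (by decide +kernel) ?_
    refine jn 1406 (by decide +kernel) ?_
    refine jn 1418 (by decide +kernel) ?_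
    refine jn 1426 (by decide +kernel) ?_
    refine jn 1454 (by decide +kernel) ?_
    refine jn 1526 (by decide +kernel) ?_
    refine jn 1598 (by decide +kernel) ?_
    refine jn 1638 (by decide +kernel) ?_
    refine jn 1677 (by decide +kernel) ?_
    refine jn 1681 (by decide +kernel) ?_
    refine jn 1682 (by decide +kernel) ?_
    refine jn 1713 (by decide +kernel) ?_
    refine jn 1741 (by decide +kernel) ?_
    refine jn 1761 (by decide +kernel) ?_
    refine jn 1769 (by decide +kernel) ?_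
    refine jn 1805 (by decide +kernel) ?_
    refine jn 1821 (by decide +kernel) ?_
    refine jn 1825 (by decide +kernel) ?_
    refine jn 1837 (by decide +kernel) ?_
    refine jn 1849 (by decide +kernel) ?_
    refine jn 1853 (by decide +kernel) ?_
    refine jn 1890 (by decide +kernel) ?_
    refine jn 1894 (by decide +kernel) ?_
    refine jn 1902 (by decide +kernel) ?_
    refine jn 1926 (by decide +kernel) ?_
    refine jn 1954 (by decide +kernel) ?_
    refine jn 1978 (by decide +kernel) ?_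
    refine jn 1982 (by decide +kernel) ?_
    refine jn 2018 (by decide +kernel) ?_
    refine jn 2034 (by decide +kernel) ?_
    refine jn 2038 (by decide +kernel) ?_
    refine jn 2050 (by decide +kernel) ?_
    refine jn 2062 (by decide +kernel) ?_
    refine jn 2066 (by decide +kernel) ?_
    refine jn 2134 (by decide +kernel) ?_
    refine jn 2202 (by decide +kernel) ?_
    refine jn 2262 (by decide +kernel) ?_
    refine jn 2318 (by decide +kernel) ?_
    refine jn 2381 (by decide +kernel) ?_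
    refine jn 2401 (by decide +kernel) ?_
    refine jn 2441 (by decide +kernel) ?_
    refine jn 2481 (by decide +kernel) ?_
    refine jn 2533 (by decide +kernel) ?_
    refine jn 2549 (by decide +kernel) ?_
    refine jn 2569 (by decide +kernel) ?_
    refine jn 2589 (by decide +kernel) ?_
    refine jn 2633 (by decide +kernel) ?_
    refine jn 2669 (by decide +kernel) ?_
    refine jn 2705 (by decide +kernel) ?_
    refine jn 2737 (by decide +kernel) ?_
    refine jn 2805 (by decide +kernel) ?_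
    refine jn 2841 (by decide +kernel) ?_
    refine jn 2889 (by decide +kernel) ?_
    refine jn 2957 (by decide +kernel) ?_
    refine jn 3005 (by decide +kernel) ?_
    refine jn 3073 (by decide +kernel) ?_
    refine jn 3118 (by decide +kernel) ?_
    refine jn 3134 (by decide +kernel) ?_
    refine jn 3162 (by decide +kernel) ?_
    refine jn 3210 (by decide +kernel) ?_
    refine jn 3234 (by decide +kernel) ?_
    refine jn 3254 (by decide +kernel) ?_
    refine jn 3270 (by decide +kernel) ?_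
    refine jn 3310 (by decide +kernel) ?_
    refine jn 3326 (by decide +kernel) ?_
    refine jn 3382 (by decide +kernel) ?_
    refine jn 3406 (by decide +kernel) ?_
    refine jn 3442 (by decide +kernel) ?_
    refine jn 3483 (by decide +kernel) ?_
    refine jn 3522 (by decide +kernel) ?_
    refine jn 3570 (by decide +kernel) ?_
    refine jn 3634 (by decide +kernel) ?_
    refine jn 3722 (by decide +kernel) ?_
    refine jn 3802 (by decide +kernel) ?_
    refine jn 3874 (by decide +kernel) ?_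
    refine jn 3962 (by decide +kernel) ?_
    refine jn 4034 (by decide +kernel) ?_
    refine jn 4122 (by decide +kernel) ?_
    refine jn 4173 (by decide +kernel) ?_
    refine jn 4221 (by decide +kernel) ?_
    refine jn 4293 (by decide +kernel) ?_
    refine jn 4321 (by decide +kernel) ?_
    refine jn 4369 (by decide +kernel) ?_
    refine jn 4417 (by decide +kernel) ?_
    refine jn 4477 (by decide +kernel) ?_
    refine jn 4537 (by decide +kernel) ?_
    refine jn 4581 (by decide +kernel) ?_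
    refine jn 4653 (by decide +kernel) ?_
    refine jn 4717 (by decide +kernel) ?_
    refine jn 4773 (by decide +kernel) ?_
    refine jn 4857 (by decide +kernel) ?_
    refine jn 4925 (by decide +kernel) ?_
    refine jn 5031 (by decide +kernel) ?_
    refine jn 5109 (by decide +kernel) ?_
    refine jn 5193 (by decide +kernel) ?_
    refine jn 5301 (by decide +kernel) ?_
    refine jn 5381 (by decide +kernel) ?_
    refine jn 5477 (by decide +kernel) ?_
    refine jn 5584 (by decide +kernel) ?_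
    refine jn 5622 (by decide +kernel) ?_
    refine jn 5690 (by decide +kernel) ?_
    refine jn 5730 (by decide +kernel) ?_
    refine jn 5786 (by decide +kernel) ?_
    refine jn 5866 (by decide +kernel) ?_
    refine jn 5922 (by decide +kernel) ?_
    refine jn 5986 (by decide +kernel) ?_
    refine jn 6054 (by decide +kernel) ?_
    refine jn 6142 (by decide +kernel) ?_
    refine jn 6214 (by decide +kernel) ?_
    refine jn 6266 (by decide +kernel) ?_
    refine jn 6326 (by decide +kernel) ?_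
    refine jn 6410 (by decide +kernel) ?_
    refine jn 6530 (by decide +kernel) ?_
    refine jn 6606 (by decide +kernel) ?_
    refine jn 6690 (by decide +kernel) ?_
    refine jn 6758 (by decide +kernel) ?_
    refine jn 6858 (by decide +kernel) ?_
    refine jn 6947 (by decide +kernel) ?_
    refine jn 7042 (by decide +kernel) ?_
    refine jn 7130 (by decide +kernel) ?_
    refine jn 7254 (by decide +kernel) ?_
    refine jn 7358 (by decide +kernel) ?_
    refine jn 7470 (by decide +kernel) ?_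
    refine jn 7580 (by decide +kernel) ?_
    refine jn 7697 (by decide +kernel) ?_
    refine jn 7785 (by decide +kernel) ?_
    refine jn 7865 (by decide +kernel) ?_
    refine jn 7973 (by decide +kernel) ?_
    refine jn 8049 (by decide +kernel) ?_
    refine jn 8165 (by decide +kernel) ?_
    refine jn 8249 (by decide +kernel) ?_
    refine jn 8365 (by decide +kernel) ?_
    refine jn 8469 (by decide +kernel) ?_
    refine jn 8605 (by decide +kernel) ?_
    refine jn 8697 (by decide +kernel) ?_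
    refine jn 8769 (by decide +kernel) ?_
    refine jn 8873 (by decide +kernel) ?_
    refine jn 8981 (by decide +kernel) ?_
    refine jn 9073 (by decide +kernel) ?_
    refine jn 9213 (by decide +kernel) ?_
    refine jn 9309 (by decide +kernel) ?_
    refine jn 9675 (by decide +kernel) ?_
    refine jn 9871 (by decide +kernel) ?_
    refine jn 10031 (by decide +kernel) ?_
    refine jn 10187 (by decide +kernel) ?_
    refine jn 10379 (by decide +kernel) ?_
    refine jn 10527 (by decide +kernel) ?_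
    refine jn 10707 (by decide +kernel) ?_
    refine jn 10911 (by decide +kernel) ?_
    refine jn 11059 (by decide +kernel) ?_
    refine jn 11219 (by decide +kernel) ?_
    refine jn 11379 (by decide +kernel) ?_
    refine jn 11563 (by decide +kernel) ?_
    refine jn 11771 (by decide +kernel) ?_
    refine jn 11947 (by decide +kernel) ?_
    refine jn 12064 (by decide +kernel) ?_
    refine jn 12469 (by decide +kernel) ?_
    refine jn 12683 (by decide +kernel) ?_
    refine jn 12907 (by decide +kernel) ?_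
    refine jn 13119 (by decide +kernel) ?_
    refine jn 13355 (by decide +kernel) ?_
    refine jn 13547 (by decide +kernel) ?_
    refine jn 13751 (by decide +kernel) ?_
    refine jn 13955 (by decide +kernel) ?_
    refine jn 14207 (by decide +kernel) ?_
    refine jn 14407 (by decide +kernel) ?_
    refine jn 14615 (by decide +kernel) ?_
    refine jn 14819 (by decide +kernel) ?_
    refine jn 15055 (by decide +kernel) ?_
    refine jn 15323 (by decide +kernel) ?_
    refine jn 15527 (by decide +kernel) ?_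
    refine jn 15751 (by decide +kernel) ?_
    refine jn 15936 (by decide +kernel) ?_
    refine jn 16290 (by decide +kernel) ?_
    refine jn 16579 (by decide +kernel) ?_
    refine jn 16760 (by decide +kernel) ?_
    refine jn 16914 (by decide +kernel) ?_
    refine jn 17054 (by decide +kernel) ?_
    refine jn 17158 (by decide +kernel) ?_
    refine jn 17252 (by decide +kernel) ?_
    refine jn 17340 (by decide +kernel) ?_
    refine jn 17419 (by decide +kernel) ?_
    refine jn 17504 (by decide +kernel) ?_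
    refine jn 17569 (by decide +kernel) ?_
    refine jn 17635 (by decide +kernel) ?_
    refine jn 17693 (by decide +kernel) ?_
    refine jn 17756 (by decide +kernel) ?_
    refine jn 17821 (by decide +kernel) ?_
    refine jn 17875 (by decide +kernel) ?_
    refine jn 17917 (by decide +kernel) ?_
    refine jn 18393 (by decide +kernel) ?_
    refine jn 18601 (by decide +kernel) ?_
    refine jn 18745 (by decide +kernel) ?_
    refine jn 18855 (by decide +kernel) ?_
    refine jn 18959 (by decide +kernel) ?_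
    refine jn 19065 (by decide +kernel) ?_
    refine jn 19139 (by decide +kernel) ?_
    refine jn 19225 (by decide +kernel) ?_
    refine jn 19305 (by decide +kernel) ?_
    refine jn 19384 (by decide +kernel) ?_
    refine jn 19448 (by decide +kernel) ?_
    refine jn 19508 (by decide +kernel) ?_
    refine jn 19567 (by decide +kernel) ?_
    refine jn 19616 (by decide +kernel) ?_
    refine jn 19666 (by decide +kernel) ?_
    refine jn 19715 (by decide +kernel) ?_
    refine jn 19760 (by decide +kernel) ?_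
    refine jn 19807 (by decide +kernel) ?_
    refine jn 19844 (by decide +kernel) ?_
    refine jn 19885 (by decide +kernel) ?_
    refine jn 19919 (by decide +kernel) ?_
    refine jn 19961 (by decide +kernel) ?_
    refine jn 20468 (by decide +kernel) ?_
    refine jn 20701 (by decide +kernel) ?_
    refine jn 20897 (by decide +kernel) ?_
    refine jn 21055 (by decide +kernel) ?_
    refine jn 21188 (by decide +kernel) ?_
    refine jn 21291 (by decide +kernel) ?_
    refine jn 21391 (by decide +kernel) ?_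
    refine jn 21493 (by decide +kernel) ?_
    refine jn 21587 (by decide +kernel) ?_
    refine jn 21662 (by decide +kernel) ?_
    refine jn 21764 (by decide +kernel) ?_
    refine jn 21845 (by decide +kernel) ?_
    refine jn 21917 (by decide +kernel) ?_
    refine jn 21985 (by decide +kernel) ?_
    refine jn 22535 (by decide +kernel) ?_
    refine jn 22855 (by decide +kernel) ?_
    refine jn 23067 (by decide +kernel) ?_
    refine jn 23301 (by decide +kernel) ?_
    refine jn 23459 (by decide +kernel) ?_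
    refine jn 23630 (by decide +kernel) ?_
    refine jn 24377 (by decide +kernel) ?_
    refine jn 24716 (by decide +kernel) ?_
    refine jn 24959 (by decide +kernel) ?_
    refine jn 25146 (by decide +kernel) ?_
    refine jn 25741 (by decide +kernel) ?_
    exact je (by decide +kernel)
  · refine fin 2328 7464 T105_2 ?_
    refine jn 7 (by decide +kernel) ?_
    refine jn 9 (by decide +kernel) ?_
    refine jn 11 (by decide +kernel) ?_
    refine jn 15 (by decide +kernel) ?_
    refine jn 19 (by decide +kernel) ?_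
    refine jn 22 (by decide +kernel) ?_
    refine jn 23 (by decide +kernel) ?_
    refine jn 25 (by decide +kernel) ?_
    refine jn 28 (by decide +kernel) ?_
    refine jn 32 (by decide +kernel) ?_
    refine jn 35 (by decide +kernel) ?_
    refine jn 37 (by decide +kernel) ?_
    refine jn 40 (by decide +kernel) ?_
    refine jn 42 (by decide +kernel) ?_
    refine jn 46 (by decide +kernel) ?_
    refine jn 51 (by decide +kernel) ?_
    refine jn 55 (by decide +kernel) ?_
    refine jn 60 (by decide +kernel) ?_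
    refine jn 65 (by decide +kernel) ?_
    refine jn 69 (by decide +kernel) ?_
    refine jn 73 (by decide +kernel) ?_
    refine jn 78 (by decide +kernel) ?_
    refine jn 81 (by decide +kernel) ?_
    refine jn 97 (by decide +kernel) ?_
    refine jn 107 (by decide +kernel) ?_
    refine jn 134 (by decide +kernel) ?_
    refine jn 148 (by decide +kernel) ?_
    refine jn 161 (by decide +kernel) ?_
    refine jn 191 (by decide +kernel) ?_
    refine jn 200 (by decide +kernel) ?_
    refine jn 203 (by decide +kernel) ?_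
    refine jn 205 (by decide +kernel) ?_
    refine jn 208 (by decide +kernel) ?_
    refine jn 209 (by decide +kernel) ?_
    refine jn 215 (by decide +kernel) ?_
    refine jn 223 (by decide +kernel) ?_
    refine jn 231 (by decide +kernel) ?_
    refine jn 239 (by decide +kernel) ?_
    refine jn 245 (by decide +kernel) ?_
    refine jn 260 (by decide +kernel) ?_
    refine jn 275 (by decide +kernel) ?_
    refine jn 284 (by decide +kernel) ?_
    refine jn 314 (by decide +kernel) ?_
    refine jn 335 (by decide +kernel) ?_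
    refine jn 343 (by decide +kernel) ?_
    refine jn 344 (by decide +kernel) ?_
    refine jn 345 (by decide +kernel) ?_
    refine jn 346 (by decide +kernel) ?_
    refine jn 347 (by decide +kernel) ?_
    refine jn 348 (by decide +kernel) ?_
    refine jn 355 (by decide +kernel) ?_
    refine jn 357 (by decide +kernel) ?_
    refine jn 359 (by decide +kernel) ?_
    refine jn 361 (by decide +kernel) ?_
    refine jn 364 (by decide +kernel) ?_
    refine jn 367 (by decide +kernel) ?_
    refine jn 372 (by decide +kernel) ?_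
    refine jn 377 (by decide +kernel) ?_
    refine jn 404 (by decide +kernel) ?_
    refine jn 415 (by decide +kernel) ?_
    refine jn 416 (by decide +kernel) ?_
    refine jn 417 (by decide +kernel) ?_
    refine jn 419 (by decide +kernel) ?_
    refine jn 423 (by decide +kernel) ?_
    refine jn 424 (by decide +kernel) ?_
    refine jn 429 (by decide +kernel) ?_
    refine jn 443 (by decide +kernel) ?_
    refine jn 444 (by decide +kernel) ?_
    refine jn 448 (by decide +kernel) ?_
    refine jn 455 (by decide +kernel) ?_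
    refine jn 458 (by decide +kernel) ?_
    refine jn 468 (by decide +kernel) ?_
    refine jn 471 (by decide +kernel) ?_
    refine jn 476 (by decide +kernel) ?_
    refine jn 482 (by decide +kernel) ?_
    refine jn 494 (by decide +kernel) ?_
    refine jn 499 (by decide +kernel) ?_
    refine jn 503 (by decide +kernel) ?_
    refine jn 517 (by decide +kernel) ?_
    refine jn 523 (by decide +kernel) ?_
    refine jn 524 (by decide +kernel) ?_
    refine jn 525 (by decide +kernel) ?_
    refine jn 526 (by decide +kernel) ?_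
    refine jn 527 (by decide +kernel) ?_
    refine jn 532 (by decide +kernel) ?_
    refine jn 534 (by decide +kernel) ?_
    refine jn 539 (by decide +kernel) ?_
    refine jn 548 (by decide +kernel) ?_
    refine jn 564 (by decide +kernel) ?_
    refine jn 579 (by decide +kernel) ?_
    refine jn 594 (by decide +kernel) ?_
    refine jn 608 (by decide +kernel) ?_
    refine jn 635 (by decide +kernel) ?_
    refine jn 647 (by decide +kernel) ?_
    refine jn 659 (by decide +kernel) ?_
    refine jn 671 (by decide +kernel) ?_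
    refine jn 682 (by decide +kernel) ?_
    refine jn 698 (by decide +kernel) ?_
    refine jn 710 (by decide +kernel) ?_
    refine jn 723 (by decide +kernel) ?_
    refine jn 733 (by decide +kernel) ?_
    refine jn 749 (by decide +kernel) ?_
    refine jn 760 (by decide +kernel) ?_
    refine jn 775 (by decide +kernel) ?_
    refine jn 787 (by decide +kernel) ?_
    refine jn 805 (by decide +kernel) ?_
    refine jn 821 (by decide +kernel) ?_
    refine jn 836 (by decide +kernel) ?_
    refine jn 852 (by decide +kernel) ?_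
    refine jn 869 (by decide +kernel) ?_
    refine jn 885 (by decide +kernel) ?_
    refine jn 977 (by decide +kernel) ?_
    refine jn 1061 (by decide +kernel) ?_
    refine jn 1145 (by decide +kernel) ?_
    refine jn 1155 (by decide +kernel) ?_
    refine jn 1158 (by decide +kernel) ?_
    refine jn 1200 (by decide +kernel) ?_
    refine jn 1211 (by decide +kernel) ?_
    refine jn 1232 (by decide +kernel) ?_
    refine jn 1248 (by decide +kernel) ?_
    refine jn 1260 (by decide +kernel) ?_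
    refine jn 1283 (by decide +kernel) ?_
    refine jn 1311 (by decide +kernel) ?_
    refine jn 1328 (by decide +kernel) ?_
    refine jn 1347 (by decide +kernel) ?_
    refine jn 1367 (by decide +kernel) ?_
    refine jn 1388 (by decide +kernel) ?_
    refine jn 1414 (by decide +kernel) ?_
    refine jn 1450 (by decide +kernel) ?_
    refine jn 1512 (by decide +kernel) ?_
    refine jn 1555 (by decide +kernel) ?_
    refine jn 1614 (by decide +kernel) ?_
    refine jn 1663 (by decide +kernel) ?_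
    refine jn 1725 (by decide +kernel) ?_
    refine jn 1779 (by decide +kernel) ?_
    refine jn 1828 (by decide +kernel) ?_
    refine jn 1919 (by decide +kernel) ?_
    refine jn 1988 (by decide +kernel) ?_
    refine jn 2047 (by decide +kernel) ?_
    refine jn 2128 (by decide +kernel) ?_
    refine jn 2239 (by decide +kernel) ?_
    refine jn 2336 (by decide +kernel) ?_
    refine jn 2431 (by decide +kernel) ?_
    refine jn 2527 (by decide +kernel) ?_
    refine jn 2760 (by decide +kernel) ?_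
    refine jn 2893 (by decide +kernel) ?_
    refine jn 3057 (by decide +kernel) ?_
    refine jn 3241 (by decide +kernel) ?_
    refine jn 3506 (by decide +kernel) ?_
    refine jn 3696 (by decide +kernel) ?_
    refine jn 3842 (by decide +kernel) ?_
    refine jn 4014 (by decide +kernel) ?_
    refine jn 4202 (by decide +kernel) ?_
    refine jn 4592 (by decide +kernel) ?_
    refine jn 4767 (by decide +kernel) ?_
    refine jn 5027 (by decide +kernel) ?_
    refine jn 5277 (by decide +kernel) ?_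
    refine jn 5410 (by decide +kernel) ?_
    refine jn 5511 (by decide +kernel) ?_
    refine jn 5922 (by decide +kernel) ?_
    refine jn 6118 (by decide +kernel) ?_
    refine jn 6543 (by decide +kernel) ?_
    refine jn 6805 (by decide +kernel) ?_
    exact je (by decide +kernel)

end Pool.Agent.MP_2339ce_nt.NR
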