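import Pool.Agent.MP_2339ce_nt.Q2.NC.L5
import Pool.Agent.MP_2339ce_nt.Q2.NC.L8
import Pool.Agent.MP_2339ce_nt.Q2.NC.L10
import Pool.Agent.MP_2339ce_nt.Q2.CkI

/-! Block NR: runs. -/

set_option autoImplicit false
set_option maxRecDepth 100000

noncomputable section

namespace Pool.Agent.MP_2339ce_nt.NR

open Q2.Top

def T111_0 : Ph :=
  (.na 737 148 (.na 557 55 (.na 422 23 (.na 300 8 (.na 200 5 (.na 137 2 (.nx 136 660563 (.nr 135
  1482912 (.nx 113 104033 (.nx 2 40 (.nr 1 7 (.lg 0 true 1 37 37 5 0 18480) (.l1 .sk)) (.nx 3 41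
  (.l1 .sk) (.nx 68 1292 (.nr 34 110219 (.nr 24 38969 (.lg 0 false 21 83 83 11 0 2520) (.nx 33 205
  (.lg 0 false 9 79 79 9 0 360) .out)) (.nx 67 103 (.lg 0 false 33 79 83 13 0 3960) .out)) (.nr 112
  16385 (.nr 89 331 (.lg 0 true 21 79 79 11 0 2520) (.nr 93 682 (.lg 2 false 4 73 73 7 6286 240)
  (.nx 102 4097 (.lg 1 false 9 97 97 9 10175 55440) (.nr 111 13779 (.lg 2 false 9 97 97 9 3051
  55440) .out)))) .out)))) (.nr 134 78 (.lg 0 true 21 79 79 11 0 2520) .out)) .out) .out) (.na 138
  4 .ne (.nx 199 660563 (.nr 198 1246976 (.nx 140 40 (.nr 139 22 (.lg 0 true 1 23 23 9 0 1680) (.l1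
  .sk)) (.nx 141 41 (.l1 .sk) (.nx 191 330282 (.nr 171 55110 (.nx 150 3235 (.lg 0 false 9 83 83 13
  0 5040) (.nr 163 618 (.lg 0 true 13 83 83 13 0 21840) (.nr 165 2458 (.lg 2 false 2 83 83 9 10689
  1680) (.nx 168 6503 (.lg 1 false 3 89 89 9 13641 5040) (.nr 170 19485 (.lg 2 true 2 89 89 9 2688
  1680) .out))))) (.nx 190 647 (.nr 180 440873 (.lg 0 false 9 89 89 13 0 5040) (.nx 189 103 (.lg 0
  false 9 79 79 13 0 5040) .out)) .out)) (.nr 197 78 (.lg 0 true 6 73 73 11 0 720) .out)))) .out)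
  .out))) (.na 255 6 (.nx 254 660563 (.nr 253 1482912 (.nx 203 41 (.nx 202 40 (.nr 201 27 (.lg 0
  true 1 17 17 9 0 240) (.l1 .sk)) (.l1 .sk)) (.nx 231 6503 (.nx 215 103 (.nr 204 741457 (.l1 (.ls
  83 31 1788)) (.lg 0 false 11 67 67 16 0 1320)) (.nr 230 185365 (.nr 222 65537 (.lg 0 false 7 79
  79 11 0 840) (.nx 229 647 (.lg 0 false 7 71 71 11 0 840) .out)) .out)) (.nr 252 23172 (.nr 244
  659 (.lg 0 true 13 73 73 16 0 1560) (.nx 251 330282 (.lg 2 false 7 79 79 11 10024 840) .out))
  .out))) .out) .out) (.na 256 7 .ne (.nx 299 660563 (.nr 298 262145 (.nr 257 4 .s1 (.nx 260 41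
  (.nx 259 40 (.nr 258 36 (.l1 (.ls 19 19 231)) (.l1 .sk)) (.l1 .sk)) (.nr 294 92683 (.nr 277 2236
  (.nx 261 801 (.lg 0 true 1 67 67 9 0 840) (.nr 274 584 (.nx 263 6503 (.nr 262 152 (.lg 0 false 1
  61 61 9 0 840) (.lg 2 false 1 53 53 9 856 840)) (.lg 0 true 11 79 83 16 0 9240)) (.nx 276 330282
  (.lg 2 false 2 73 73 11 11312 1680) .out))) (.nx 293 330282 (.nx 283 6503 (.lg 0 false 6 97 103
  16 0 720720) (.nr 292 32769 (.lg 2 true 9 67 67 16 4037 2520) .out)) .out)) (.nx 297 647 (.lg 0
  false 3 83 83 11 0 2520) .out)))) .out) .out)))) (.na 367 13 (.na 337 9 (.nx 336 660563 (.nr 335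
  623489 (.nr 301 5 .s1 (.nx 304 41 (.nx 303 40 (.nr 302 41 (.lg 0 true 1 17 17 9 0 1680) (.l1
  .sk)) (.l1 .sk)) (.nx 305 103 (.l1 (.ls 83 37 1119)) (.nr 334 131073 (.nx 312 3836 (.lg 0 false 7
  83 83 13 0 1680) (.nr 333 110219 (.nr 321 537 (.lg 0 true 9 79 79 13 0 720) (.nx 332 330282 (.nr
  323 4577 (.lg 2 false 2 73 73 11 12302 240) (.nx 329 41287 (.nx 326 12585 (.lg 1 false 3 89 89 11
  22998 5040) (.lg 1 true 3 89 89 11 7010 5040)) (.nr 331 38969 (.lg 2 false 2 73 73 11 1444 240)
  .out))) .out)) .out)) .out)))) .out) .out) (.na 338 11 .ne (.nx 366 660563 (.nr 365 623489 (.nr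
  339 10 .s1 (.nx 343 103 (.nx 341 40 (.nr 340 59 (.l1 (.ls 19 17 148)) (.l1 .sk)) (.nx 342 41 (.l1
  .sk) (.l1 (.ls 83 29 814)))) (.nr 364 131073 (.nr 350 154 (.lg 0 true 7 71 71 16 0 9240) (.nx 363
  41287 (.nr 353 2671 (.nx 351 801 (.lg 0 true 1 61 61 9 0 1320) (.lg 2 false 2 67 67 9 5362 2640))
  (.nr 359 46342 (.lg 0 true 6 89 89 16 0 55440) (.nx 362 6503 (.lg 0 false 3 97 97 9 0 55440)
  .out))) .out)) .out))) .out) .out))) (.na 391 19 (.na 390 16 (.nx 389 660563 (.nr 388 623489 (.nr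
  368 12 .s1 (.nx 372 103 (.nx 370 40 (.nr 369 72 (.l1 (.ls 19 17 126)) (.l1 .sk)) (.nx 371 41 (.l1
  .sk) (.l1 (.ls 79 29 689)))) (.nr 387 131073 (.nx 375 6503 (.lg 0 true 3 89 89 11 0 4680) (.nr
  386 46342 (.nr 382 154 (.lg 0 true 7 67 67 16 0 10920) (.nx 385 41287 (.lg 1 true 3 83 83 11 5707
  9360) .out)) .out)) .out))) .out) .out) .ne) (.na 407 20 (.nx 406 660563 (.nr 405 623489 (.nr 392
  18 .s1 (.nx 397 6503 (.nx 393 103 (.l1 (.ls 79 23 561)) (.nr 396 131073 (.lg 0 false 3 83 83 16 0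
  360) .out)) (.nr 404 46342 (.nr 401 257 (.lg 0 true 4 71 71 16 0 240) (.nx 403 41287 (.lg 1 true
  2 79 79 11 5707 240) .out)) .out))) .out) .out) (.nx 421 660563 (.nr 420 623489 (.nr 408 19 .s1
  (.nx 413 6503 (.nx 409 103 (.l1 (.ls 79 31 533)) (.nr 412 131073 (.lg 0 false 3 83 83 13 0 720)
  .out)) (.nr 419 46342 (.nr 416 257 (.lg 0 true 3 67 67 13 0 720) (.nx 418 41287 (.lg 1 true 2 73
  73 13 5707 240) .out)) .out))) .out) .out))))) (.na 480 40 (.na 453 32 (.na 437 25 (.nx 436
  660563 (.nr 435 131073 (.nr 423 23 .s1 (.nx 425 40 (.nr 424 113 (.l1 (.ls 16 16 72)) (.l1 .sk))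
  (.nx 426 41 (.l1 .sk) (.nx 429 6503 (.lg 0 false 3 83 83 16 0 360) (.nr 434 32769 (.nr 432 257
  (.lg 0 true 3 67 67 16 0 360) (.nx 433 41287 (.lg 1 false 1 79 79 11 4037 240) .out)) .out)))))
  .out) .out) (.na 438 28 (.lg 0 false 1 0 0 7 0 24) (.nx 452 660563 (.nr 451 131073 (.nr 439 28
  .s1 (.nx 445 6503 (.nx 441 40 (.nr 440 144 (.l1 (.ls 23 19 60)) (.l1 .sk)) (.nx 442 41 (.l1 .sk)
  (.lg 0 false 3 83 83 19 0 5040))) (.nr 450 32769 (.nr 448 257 (.lg 0 true 3 71 71 19 0 5040) (.nx
  449 41287 (.lg 1 false 1 79 79 13 4037 1680) .out)) .out))) .out) .out))) (.na 454 35 .ne (.na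
  467 37 (.nx 466 82572 (.nr 465 262145 (.nr 455 35 .s1 (.nx 457 40 (.nr 456 167 (.l1 (.ls 16 16
  48)) (.l1 .sk)) (.nx 458 41 (.l1 .sk) (.nx 461 2582 (.lg 0 false 3 73 73 16 0 2520) (.nr 464
  32769 (.nr 462 154 (.lg 0 false 1 53 53 16 0 840) (.nx 463 41287 (.lg 1 false 1 79 79 16 10168
  1680) .out)) .out))))) .out) .out) (.nx 479 82572 (.nr 478 262145 (.nr 468 37 .s1 (.nx 474 2582
  (.nx 470 40 (.nr 469 180 (.l1 (.ls 16 16 46)) (.l1 .sk)) (.nx 471 41 (.l1 .sk) (.lg 0 false 3 73
  73 16 0 360))) (.nr 477 32769 (.nr 475 154 (.lg 0 true 1 53 53 16 0 120) (.nx 476 41287 (.lg 1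
  false 1 83 83 16 10168 240) .out)) .out))) .out) .out)))) (.na 513 47 (.na 491 41 (.nx 490 82572
  (.nr 489 262145 (.nr 481 40 .s1 (.nx 483 40 (.nr 482 185 (.l1 (.ls 16 19 42)) (.l1 .sk)) (.nx 484
  41 (.l1 .sk) (.nx 485 2582 (.lg 0 true 1 79 79 13 0 240) (.nr 488 32769 (.nr 486 154 (.lg 0 false
  1 53 53 13 0 240) (.nx 487 41287 (.lg 1 false 1 73 73 13 10168 240) .out)) .out))))) .out) .out)
  (.na 502 44 (.nx 501 82572 (.nr 500 262145 (.nr 492 41 .s1 (.nx 494 40 (.nr 493 198 (.l1 (.ls 16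
  16 42)) (.l1 .sk)) (.nx 495 41 (.l1 .sk) (.nr 498 32769 (.lg 0 true 3 83 83 16 0 360) (.nx 499
  2582 (.lg 0 true 1 79 79 16 0 120) .out))))) .out) .out) (.nx 512 82572 (.nr 511 262145 (.nr 503
  44 .s1 (.nx 505 40 (.nr 504 212 (.l1 (.ls 19 19 39)) (.l1 .sk)) (.nx 506 41 (.l1 .sk) (.nx 507
  2582 (.lg 0 true 1 79 79 19 0 2640) (.nr 510 32769 (.nr 508 154 (.lg 0 true 1 53 53 19 0 2640)
  (.nx 509 41287 (.lg 1 false 1 79 79 19 10168 2640) .out)) .out))))) .out) .out))) (.na 535 52
  (.na 524 49 (.nx 523 82572 (.nr 522 262145 (.nr 514 47 .s1 (.nx 516 40 (.nr 515 221 (.l1 (.ls 16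
  16 37)) (.l1 .sk)) (.nx 517 41 (.l1 .sk) (.nr 520 32769 (.lg 0 true 3 83 83 16 0 720) (.nx 521
  2582 (.lg 0 true 1 79 79 16 0 120) .out))))) .out) .out) (.nx 534 82572 (.nr 533 262145 (.nr 525
  49 .s1 (.nx 528 41 (.nx 527 40 (.nr 526 234 (.l1 (.ls 16 16 35)) (.l1 .sk)) (.l1 .sk)) (.nr 531
  32769 (.lg 0 true 3 79 79 16 0 2520) (.nx 532 2582 (.lg 0 true 1 73 73 16 0 840) .out)))) .out)
  .out)) (.na 546 53 (.nx 545 82572 (.nr 544 262145 (.nr 536 52 .s1 (.nx 542 41287 (.nx 538 40 (.nr
  537 239 (.l1 (.ls 29 19 33)) (.l1 .sk)) (.nx 539 41 (.l1 .sk) (.nr 540 32769 (.lg 0 false 1 89 89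
  19 0 65520) (.nx 541 2582 (.lg 0 false 1 79 79 19 0 3120) .out)))) (.nr 543 154 (.lg 0 true 1 53
  53 19 0 3120) .out))) .out) .out) (.nx 556 82572 (.nr 555 262145 (.nr 547 53 .s1 (.nx 550 41 (.nx
  549 40 (.nr 548 248 (.l1 (.ls 16 16 33)) (.l1 .sk)) (.l1 .sk)) (.nr 553 32769 (.lg 0 true 3 83 83
  16 0 360) (.nx 554 2582 (.lg 0 true 1 79 79 16 0 1680) .out)))) .out) .out)))))) (.na 663 103
  (.na 612 77 (.na 589 64 (.na 568 56 (.nx 567 82572 (.nr 566 262145 (.nr 558 55 .s1 (.nx 560 40
  (.nr 559 252 (.l1 (.ls 16 16 32)) (.l1 .sk)) (.nx 561 41 (.l1 .sk) (.nr 564 32769 (.lg 0 true 3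
  79 79 17 0 3960) (.nx 565 2582 (.lg 0 true 1 73 73 16 0 1320) .out))))) .out) .out) (.na 579 59
  (.nx 578 82572 (.nr 577 262145 (.nr 569 56 .s1 (.nx 572 41 (.nx 571 40 (.nr 570 266 (.l1 (.ls 23
  19 31)) (.l1 .sk)) (.l1 .sk)) (.nr 575 32769 (.nx 573 41287 (.lg 0 false 1 83 83 19 0 1680) (.nr
  574 154 (.lg 0 true 1 47 47 19 0 1680) .out)) (.nx 576 2582 (.lg 0 false 1 79 79 19 0 1680)
  .out)))) .out) .out) (.nx 588 82572 (.nr 587 262145 (.nr 580 59 .s1 (.nx 582 40 (.nr 581 288 (.l1
  (.ls 16 16 30)) (.l1 .sk)) (.nx 583 41 (.l1 .sk) (.nr 585 32769 (.lg 0 false 2 83 83 16 0 1680)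
  (.nx 586 2582 (.lg 0 true 1 79 79 16 0 1680) .out))))) .out) .out))) (.na 590 65 .ne (.na 602 76
  (.nx 601 82572 (.nr 600 524289 (.nr 591 65 .s1 (.nx 597 6503 (.nx 593 40 (.nr 592 342 (.l1 (.ls
  17 16 27)) (.l1 .sk)) (.nx 594 41 (.l1 .sk) (.lg 0 false 3 79 79 17 0 4680))) (.nr 599 65537 (.lg
  1 true 2 79 79 17 25407 3120) .out))) .out) .out) (.nx 611 82572 (.nr 610 524289 (.nr 603 76 .s1
  (.nx 604 647 (.l1 (.ls 79 47 5511)) (.nr 609 262145 (.nx 605 6503 (.lg 0 true 1 83 83 17 0 240)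
  (.nr 608 65537 (.nr 606 257 (.lg 0 true 1 53 53 17 0 240) (.nx 607 41287 (.lg 1 true 1 73 73 17
  8068 240) .out)) .out)) .out))) .out) .out)))) (.na 638 91 (.na 622 88 (.nx 621 82572 (.nr 620
  524289 (.nr 613 77 .s1 (.nx 616 6503 (.nx 614 647 (.l1 (.ls 73 43 5439)) (.nr 615 262145 (.lg 0
  true 1 83 83 17 0 18480) .out)) (.nr 619 65537 (.nr 617 257 (.lg 0 true 1 53 53 17 0 9240) (.nx
  618 41287 (.lg 1 false 1 73 73 17 8068 18480) .out)) .out))) .out) .out) (.na 630 89 (.nx 629
  82572 (.nr 628 524289 (.nr 623 88 .s1 (.nx 626 6503 (.nx 624 647 (.l1 (.ls 73 47 4759)) (.nr 625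
  262145 (.lg 0 true 1 83 83 23 0 55440) .out)) (.nr 627 65537 (.lg 1 false 1 83 83 23 18767 55440)
  .out))) .out) .out) (.nx 637 82572 (.nr 636 524289 (.nr 631 89 .s1 (.nx 634 6503 (.nx 632 647
  (.l1 (.ls 67 37 4706)) (.nr 633 262145 (.lg 0 true 1 73 73 16 0 120) .out)) (.nr 635 65537 (.lg 1
  false 1 73 73 16 18556 240) .out))) .out) .out))) (.na 654 95 (.na 646 92 (.nx 645 82572 (.nr 644
  524289 (.nr 639 91 .s1 (.nx 642 6503 (.nx 640 647 (.l1 (.ls 73 41 4603)) (.nr 641 262145 (.lg 0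
  false 1 79 79 19 0 10920) .out)) (.nr 643 65537 (.lg 1 false 1 83 83 19 18148 21840) .out)))
  .out) .out) (.nx 653 82572 (.nr 652 524289 (.nr 647 92 .s1 (.nx 650 6503 (.nx 648 647 (.l1 (.ls
  73 47 4553)) (.nr 649 262145 (.lg 0 true 1 83 83 19 0 240) .out)) (.nr 651 65537 (.lg 1 false 1
  83 83 19 17951 240) .out))) .out) .out)) (.na 662 100 (.nx 661 82572 (.nr 660 524289 (.nr 655 95
  .s1 (.nx 658 6503 (.nx 656 647 (.l1 (.ls 71 41 4409)) (.nr 657 262145 (.lg 0 true 1 73 73 16 0
  120) .out)) (.nr 659 65537 (.lg 1 false 1 79 79 16 17384 1680) .out))) .out) .out) (.lg 0 false 1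
  0 0 16 0 24))))) (.na 705 128 (.na 688 121 (.na 672 104 (.nx 671 82572 (.nr 670 524289 (.nr 664
  103 .s1 (.nx 667 41 (.nx 666 40 (.nr 665 468 (.l1 (.ls 16 16 27)) (.l1 .sk)) (.l1 .sk)) (.nx 668
  6503 (.lg 0 true 1 73 73 16 0 120) (.nr 669 65537 (.lg 1 false 1 71 71 16 16034 240) .out))))
  .out) .out) (.na 680 115 (.nx 679 82572 (.nr 678 524289 (.nr 673 104 .s1 (.nx 674 647 (.l1 (.ls
  73 43 4028)) (.nr 677 262145 (.nx 675 6503 (.lg 0 false 1 79 79 23 0 3120) (.nr 676 65537 (.lg 1
  false 1 79 79 23 15880 3120) .out)) .out))) .out) .out) (.nx 687 82572 (.nr 686 524289 (.nr 681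
  115 .s1 (.nx 682 647 (.l1 (.ls 71 41 3643)) (.nr 685 262145 (.lg 0 false 3 89 89 17 0 5040)
  .out))) .out) .out))) (.na 696 125 (.nx 695 82572 (.nr 694 524289 (.nr 689 121 .s1 (.nx 692 6503
  (.nx 690 647 (.l1 (.ls 67 37 3462)) (.nr 691 262145 (.lg 0 true 1 71 71 17 0 2640) .out)) (.nr
  693 65537 (.lg 1 false 1 71 71 17 13649 2640) .out))) .out) .out) (.na 697 127 (.lg 0 false 1 0 0
  16 0 24) (.nx 704 82572 (.nr 703 524289 (.nr 698 127 .s1 (.nx 701 6503 (.nx 699 647 (.l1 (.ls 61
  31 3299)) (.nr 700 262145 (.lg 0 true 1 67 67 16 0 120) .out)) (.nr 702 65537 (.lg 1 false 1 67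
  67 16 13004 240) .out))) .out) .out)))) (.na 718 137 (.na 706 131 .ne (.na 712 133 (.nx 711 41287
  (.nr 710 1048577 (.nr 707 131 .s1 (.nx 708 647 (.l1 (.ls 67 31 3198)) (.nr 709 131073 (.lg 0 true
  1 73 73 16 0 120) .out))) .out) .out) (.nx 717 41287 (.nr 716 1048577 (.nr 713 133 .s1 (.nx 714
  647 (.l1 (.ls 79 41 3150)) (.nr 715 131073 (.lg 0 true 1 89 89 17 0 840) .out))) .out) .out)))
  (.na 725 140 (.na 719 139 (.lg 0 false 1 0 0 16 0 24) (.nx 724 41287 (.nr 723 1048577 (.nr 720
  139 .s1 (.nx 721 647 (.l1 (.ls 67 31 3014)) (.nr 722 131073 (.lg 0 true 1 73 73 16 0 120) .out)))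
  .out) .out)) (.na 731 143 (.nx 730 41287 (.nr 729 1048577 (.nr 726 140 .s1 (.nx 727 647 (.l1 (.ls
  73 47 2993)) (.nr 728 131073 (.lg 0 true 1 83 83 29 0 1680) .out))) .out) .out) (.nx 736 41287
  (.nr 735 1048577 (.nr 732 143 .s1 (.nx 733 647 (.l1 (.ls 79 41 2930)) (.nr 734 131073 (.lg 0 true
  1 89 89 19 0 240240) .out))) .out) .out))))))) (.na 848 212 (.na 795 181 (.na 763 163 (.na 745
  152 (.na 743 149 (.nx 742 41287 (.nr 741 1048577 (.nr 738 148 .s1 (.nx 739 647 (.l1 (.ls 73 43
  2831)) (.nr 740 131073 (.lg 0 true 1 83 83 23 0 240) .out))) .out) .out) (.na 744 151 (.lg 0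
  false 1 0 0 16 0 24) (.lg 0 false 1 0 0 16 0 24))) (.na 751 157 (.nx 750 41287 (.nr 749 1048577
  (.nr 746 152 .s1 (.nx 747 647 (.l1 (.ls 73 43 2757)) (.nr 748 131073 (.lg 0 true 1 83 83 29 0
  240) .out))) .out) .out) (.na 757 161 (.nx 756 41287 (.nr 755 1048577 (.nr 752 157 .s1 (.nx 753
  647 (.l1 (.ls 67 31 2669)) (.nr 754 131073 (.lg 0 true 1 73 73 16 0 120) .out))) .out) .out) (.nx
  762 41287 (.nr 761 1048577 (.nr 758 161 .s1 (.nx 759 647 (.l1 (.ls 73 41 2603)) (.nr 760 131073
  (.lg 0 true 1 83 83 17 0 840) .out))) .out) .out)))) (.na 776 169 (.na 764 164 (.lg 0 false 1 0 0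
  16 0 24) (.na 770 167 (.nx 769 41287 (.nr 768 1048577 (.nr 765 164 .s1 (.nx 766 647 (.l1 (.ls 79
  37 2555)) (.nr 767 131073 (.lg 0 false 1 83 83 23 0 240) .out))) .out) .out) (.nx 775 41287 (.nr
  774 1048577 (.nr 771 167 .s1 (.nx 772 647 (.l1 (.ls 67 31 2509)) (.nr 773 131073 (.lg 0 true 1 73
  73 16 0 120) .out))) .out) .out))) (.na 788 175 (.na 782 173 (.nx 781 41287 (.nr 780 1048577 (.nr
  777 169 .s1 (.nx 778 647 (.l1 (.ls 71 37 2479)) (.nr 779 131073 (.lg 0 true 1 79 79 17 0 1560)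
  .out))) .out) .out) (.nx 787 41287 (.nr 786 1048577 (.nr 783 173 .s1 (.nx 784 647 (.l1 (.ls 61 31
  2422)) (.nr 785 131073 (.lg 0 true 1 71 71 16 0 120) .out))) .out) .out)) (.na 789 179 (.lg 0
  false 1 0 0 16 0 24) (.nx 794 41287 (.nr 793 1048577 (.nr 790 179 .s1 (.nx 791 647 (.l1 (.ls 61
  31 2341)) (.nr 792 131073 (.lg 0 true 1 71 71 16 0 120) .out))) .out) .out))))) (.na 816 196 (.na
  808 188 (.na 796 184 (.lg 0 false 1 0 0 16 0 24) (.na 802 185 (.nx 801 41287 (.nr 800 1048577
  (.nr 797 184 .s1 (.nx 798 647 (.l1 (.ls 73 43 2278)) (.nr 799 131073 (.lg 0 false 1 79 79 19 0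
  240) .out))) .out) .out) (.nx 807 41287 (.nr 806 1048577 (.nr 803 185 .s1 (.nx 804 647 (.l1 (.ls
  67 31 2265)) (.nr 805 131073 (.lg 0 true 1 73 73 17 0 120) .out))) .out) .out))) (.na 814 191
  (.nx 813 41287 (.nr 812 1048577 (.nr 809 188 .s1 (.nx 810 647 (.l1 (.ls 73 41 2229)) (.nr 811
  131073 (.lg 0 false 1 83 83 23 0 240) .out))) .out) .out) (.na 815 193 (.lg 0 false 1 0 0 16 0
  24) (.lg 0 false 1 0 0 16 0 24)))) (.na 829 200 (.na 822 197 (.nx 821 41287 (.nr 820 1048577 (.nr
  817 196 .s1 (.nx 818 647 (.l1 (.ls 73 41 2138)) (.nr 819 131073 (.lg 0 false 1 79 79 29 0 1680)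
  .out))) .out) .out) (.na 828 199 (.nx 827 41287 (.nr 826 1048577 (.nr 823 197 .s1 (.nx 824 647
  (.l1 (.ls 67 29 2127)) (.nr 825 131073 (.lg 0 true 1 71 71 16 0 120) .out))) .out) .out) (.lg 0
  false 1 0 0 16 0 24))) (.na 836 209 (.na 830 205 (.lg 0 false 1 0 0 16 0 24) (.nx 835 41287 (.nr
  834 1048577 (.nr 831 205 .s1 (.nx 832 647 (.l1 (.ls 67 31 2044)) (.nr 833 131073 (.lg 0 true 1 73
  73 17 0 120) .out))) .out) .out)) (.na 842 211 (.nx 841 41287 (.nr 840 1048577 (.nr 837 209 .s1
  (.nx 838 647 (.l1 (.ls 73 37 2005)) (.nr 839 131073 (.lg 0 false 1 79 79 17 0 1320) .out))) .out)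
  .out) (.nx 847 41287 (.nr 846 1048577 (.nr 843 211 .s1 (.nx 844 647 (.l1 (.ls 61 29 1986)) (.nr
  845 131073 (.lg 0 true 1 71 71 16 0 120) .out))) .out) .out)))))) (.na 906 253 (.na 869 235 (.na
  866 227 (.na 854 220 (.nx 853 41287 (.nr 852 1048577 (.nr 849 212 .s1 (.nx 850 647 (.l1 (.ls 71
  37 1977)) (.nr 851 131073 (.lg 0 false 1 79 79 23 0 240) .out))) .out) .out) (.na 860 223 (.nx
  859 41287 (.nr 858 1048577 (.nr 855 220 .s1 (.nx 856 647 (.l1 (.ls 73 43 1905)) (.nr 857 131073
  (.lg 0 true 1 79 79 31 0 18480) .out))) .out) .out) (.nx 865 41287 (.nr 864 1048577 (.nr 861 223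
  .s1 (.nx 862 647 (.l1 (.ls 61 29 1880)) (.nr 863 131073 (.lg 0 true 1 71 71 16 0 120) .out)))
  .out) .out))) (.na 867 229 (.lg 0 false 1 0 0 16 0 24) (.na 868 233 (.lg 0 false 1 0 0 16 0 24)
  (.lg 0 false 1 0 0 16 0 24)))) (.na 882 241 (.na 875 236 (.nx 874 41287 (.nr 873 1048577 (.nr 870
  235 .s1 (.nx 871 647 (.l1 (.ls 67 31 1784)) (.nr 872 131073 (.lg 0 true 1 73 73 17 0 1680)
  .out))) .out) .out) (.na 881 239 (.nx 880 41287 (.nr 879 1048577 (.nr 876 236 .s1 (.nx 877 647
  (.l1 (.ls 73 37 1776)) (.nr 878 131073 (.lg 0 false 1 79 79 23 0 240) .out))) .out) .out) (.lg 0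
  false 1 0 0 16 0 24))) (.na 894 247 (.na 888 245 (.nx 887 41287 (.nr 886 1048577 (.nr 883 241 .s1
  (.nx 884 647 (.l1 (.ls 67 29 1739)) (.nr 885 131073 (.lg 0 true 1 71 71 17 0 120) .out))) .out)
  .out) (.nx 893 41287 (.nr 892 1048577 (.nr 889 245 .s1 (.nx 890 647 (.l1 (.ls 67 37 1711)) (.nr
  891 131073 (.lg 0 true 1 71 71 19 0 840) .out))) .out) .out)) (.na 900 251 (.nx 899 41287 (.nr
  898 1048577 (.nr 895 247 .s1 (.nx 896 647 (.l1 (.ls 71 37 1697)) (.nr 897 131073 (.lg 0 false 1
  79 79 17 0 1560) .out))) .out) .out) (.nx 905 41287 (.nr 904 1048577 (.nr 901 251 .s1 (.nx 902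
  647 (.l1 (.ls 61 29 1670)) (.nr 903 131073 (.lg 0 true 1 67 67 17 0 120) .out))) .out) .out)))))
  (.na 2246 2048 (.na 1212 512 (.na 912 256 (.nx 911 41287 (.nr 910 1048577 (.nr 907 253 .s1 (.nx
  908 647 (.l1 (.ls 73 37 1657)) (.nr 909 131073 (.lg 0 false 1 79 79 19 0 1320) .out))) .out)
  .out) (.na 913 257 .ne (.nx 1211 41287 (.nr 1210 262145 (.nr 914 257 .s1 (.nx 955 41 (.nx 954 40
  (.nr 953 2305 (.lx (.lp 37 17 129)) (.l1 .sk)) (.l1 .sk)) (.la (.lg 0 false 1 71 71 23 0))))
  .out) .out))) (.na 1728 1024 (.na 1469 725 (.nx 1468 41287 (.nr 1467 262145 (.nr 1213 512 .s1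
  (.nx 1254 41 (.nx 1253 40 (.nr 1252 3263 (.lx (.lp 41 19 182)) (.l1 .sk)) (.l1 .sk)) (.la (.lg 0
  false 1 67 67 29 0)))) .out) .out) (.nx 1727 257 (.nr 1726 65537 (.nr 1470 725 .s1 (.lx (.lp 59
  23 257))) .out) .out)) (.na 1987 1449 (.nx 1986 257 (.nr 1985 65537 (.nr 1729 1024 .s1 (.lx (.lp
  53 23 363))) .out) .out) (.nx 2245 257 (.nr 2244 16385 (.nr 1988 1449 .s1 (.lx (.lp 43 29 513)))
  .out) .out)))) (.na 3023 5793 (.na 2505 2897 (.nx 2504 257 (.nr 2503 32769 (.nr 2247 2048 .s1
  (.lx (.lp 43 29 725))) .out) .out) (.na 2764 4096 (.nx 2763 257 (.nr 2762 32769 (.nr 2506 2897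
  .s1 (.lx (.lp 43 31 1025))) .out) .out) (.nx 3022 257 (.nr 3021 32769 (.nr 2765 4096 .s1 (.lx
  (.lp 41 31 1449))) .out) .out))) (.na 3233 16384 (.na 3128 8192 (.nx 3127 103 (.nr 3126 32769
  (.nr 3024 5793 .s1 (.lx (.lp 37 31 2049))) .out) .out) (.nx 3232 103 (.nr 3231 32769 (.nr 3129
  8192 .s1 (.lx (.lp 31 37 4097))) .out) .out)) (.na 3235 32769 (.nx 3234 103 (.l1 .sk) .out)
  .out)))))))

def T111_1 : Ph :=
  (.na 322 200 (.na 179 161 (.na 91 139 (.na 54 128 (.na 27 121 (.na 14 118 (.nx 13 1664512 (.nr 12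
  1048577 (.nr 1 115 .s1 (.nx 3 160 (.nr 2 1058 (.l1 (.ls 17 19 225)) (.l1 .sk)) (.nx 4 161 (.l1
  .sk) (.nx 7 20644 (.lg 0 false 3 83 83 17 0 720) (.nr 11 32769 (.nr 9 513 (.lg 0 true 2 61 61 17
  0 240) (.nx 10 104033 (.lg 2 true 1 67 67 16 20418 240) .out)) .out))))) .out) .out) (.nx 26
  1664512 (.nr 25 1048577 (.nr 15 118 .s1 (.nx 21 20644 (.nx 17 160 (.nr 16 1084 (.l1 (.ls 19 23
  219)) (.l1 .sk)) (.nx 18 161 (.l1 .sk) (.lg 0 false 3 89 89 23 0 5040))) (.nr 24 32769 (.nr 22
  513 (.lg 2 false 1 71 71 19 1128483 1680) (.nx 23 104033 (.lg 2 true 1 71 71 19 20418 1680)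
  .out)) .out))) .out) .out)) (.na 40 125 (.nx 39 1664512 (.nr 38 1048577 (.nr 28 121 .s1 (.nx 31
  161 (.nx 30 160 (.nr 29 1120 (.l1 (.ls 23 19 214)) (.l1 .sk)) (.l1 .sk)) (.nx 34 20644 (.lg 0
  false 3 83 83 19 0 7920) (.nr 37 32769 (.nr 35 513 (.lg 0 false 1 71 71 17 0 2640) (.nx 36 104033
  (.lg 2 true 1 71 71 17 20418 2640) .out)) .out)))) .out) .out) (.na 41 127 (.lg 0 false 1 0 0 16
  0 24) (.nx 53 1664512 (.nr 52 1048577 (.nr 42 127 .s1 (.nx 48 20644 (.nx 44 160 (.nr 43 1147 (.l1
  (.ls 19 17 204)) (.l1 .sk)) (.nx 45 161 (.l1 .sk) (.lg 0 false 3 79 79 17 0 720))) (.nr 51 32769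
  (.nr 49 513 (.lg 0 false 1 67 67 16 0 1680) (.nx 50 104033 (.lg 2 true 1 61 61 16 20418 240)
  .out)) .out))) .out) .out)))) (.na 67 131 (.na 55 130 .ne (.nx 66 832257 (.nr 65 1048577 (.nr 56
  130 .s1 (.nx 61 13005 (.nx 57 257 (.l1 (.ls 71 37 511)) (.nr 60 741457 (.lg 0 false 3 79 79 31 0
  9360) .out)) (.nr 64 16385 (.nr 62 1025 (.lg 0 false 1 71 71 29 0 3120) (.nx 63 104033 (.lg 2
  false 1 61 61 29 16285 3120) .out)) .out))) .out) .out)) (.na 79 133 (.nx 78 832257 (.nr 77
  1048577 (.nr 68 131 .s1 (.nx 73 13005 (.nx 69 257 (.l1 (.ls 67 19 507)) (.nr 72 741457 (.lg 0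
  false 3 73 73 17 0 720) .out)) (.nr 76 16385 (.nr 74 1025 (.lg 0 false 1 67 67 16 0 240) (.nx 75
  104033 (.lg 2 false 1 59 59 16 16285 240) .out)) .out))) .out) .out) (.na 90 137 (.nx 89 832257
  (.nr 88 1048577 (.nr 80 133 .s1 (.nx 84 13005 (.nx 81 257 (.l1 (.ls 73 29 499)) (.nr 83 741457
  (.lg 0 false 2 83 83 17 0 1680) .out)) (.nr 87 16385 (.nr 85 1025 (.lg 0 true 1 71 71 17 0 1680)
  (.nx 86 104033 (.lg 2 true 1 67 67 17 16285 1680) .out)) .out))) .out) .out) (.lg 0 false 1 0 0
  16 0 24))))) (.na 137 151 (.na 114 143 (.na 103 140 (.nx 102 832257 (.nr 101 1048577 (.nr 92 139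
  .s1 (.nx 93 257 (.l1 (.ls 71 19 478)) (.nr 100 741457 (.nr 96 16385 (.lg 0 true 3 79 79 17 0
  5040) (.nx 99 13005 (.lg 0 false 3 73 73 17 0 720) .out)) .out))) .out) .out) (.nx 113 832257
  (.nr 112 1048577 (.nr 104 140 .s1 (.nx 105 257 (.l1 (.ls 73 37 474)) (.nr 111 741457 (.nx 107
  13005 (.lg 0 false 2 83 83 31 0 1680) (.nr 110 16385 (.nr 108 1025 (.lg 0 true 1 67 67 29 0 1680)
  (.nx 109 104033 (.lg 2 false 1 67 67 29 16285 1680) .out)) .out)) .out))) .out) .out)) (.na 125
  148 (.nx 124 832257 (.nr 123 1048577 (.nr 115 143 .s1 (.nx 119 13005 (.nx 116 257 (.l1 (.ls 73 29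
  464)) (.nr 118 741457 (.lg 0 false 2 83 83 23 0 34320) .out)) (.nr 122 16385 (.nr 120 1025 (.lg 0
  true 1 71 71 19 0 34320) (.nx 121 104033 (.lg 2 true 1 67 67 19 16285 34320) .out)) .out))) .out)
  .out) (.na 136 149 (.nx 135 832257 (.nr 134 1048577 (.nr 126 148 .s1 (.nx 130 13005 (.nx 127 257
  (.l1 (.ls 79 29 449)) (.nr 129 741457 (.lg 0 false 2 89 89 23 0 5040) .out)) (.nr 133 16385 (.nr
  131 1025 (.lg 0 true 1 71 71 23 0 240) (.nx 132 104033 (.lg 2 false 1 67 67 23 16285 240) .out))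
  .out))) .out) .out) (.lg 0 false 1 0 0 16 0 24)))) (.na 149 154 (.na 138 152 (.lg 0 false 1 0 0
  16 0 24) (.nx 148 832257 (.nr 147 1048577 (.nr 139 152 .s1 (.nx 140 257 (.l1 (.ls 73 31 437))
  (.nr 146 741457 (.nx 142 13005 (.lg 0 false 2 83 83 29 0 240) (.nr 145 16385 (.nr 143 1025 (.lg 0
  true 1 67 67 29 0 240) (.nx 144 104033 (.lg 2 true 1 67 67 29 16285 240) .out)) .out)) .out)))
  .out) .out)) (.na 159 157 (.nx 158 832257 (.nr 157 1048577 (.nr 150 154 .s1 (.nx 153 13005 (.nx
  151 257 (.l1 (.ls 73 37 431)) (.nr 152 741457 (.lg 0 true 1 89 89 31 0 18480) .out)) (.nr 156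
  16385 (.nr 154 1025 (.lg 0 true 1 67 67 31 0 18480) (.nx 155 104033 (.lg 2 true 1 67 67 31 16285
  18480) .out)) .out))) .out) .out) (.na 169 160 (.nx 168 832257 (.nr 167 1048577 (.nr 160 157 .s1
  (.nx 161 257 (.l1 (.ls 67 19 423)) (.nr 166 741457 (.nr 164 16385 (.lg 0 true 3 73 73 17 0 720)
  (.nx 165 13005 (.lg 0 true 1 79 79 16 0 240) .out)) .out))) .out) .out) (.nx 178 832257 (.nr 177
  1048577 (.nr 170 160 .s1 (.nx 171 257 (.l1 (.ls 71 31 415)) (.nr 176 741457 (.nx 172 13005 (.lg 0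
  false 1 79 79 29 0 240) (.nr 175 16385 (.nr 173 1025 (.lg 0 true 1 67 67 29 0 240) (.nx 174
  104033 (.lg 2 true 1 61 61 29 16285 1680) .out)) .out)) .out))) .out) .out)))))) (.na 254 181
  (.na 218 173 (.na 190 164 (.na 189 163 (.nx 188 832257 (.nr 187 1048577 (.nr 180 161 .s1 (.nx 183
  13005 (.nx 181 257 (.l1 (.ls 73 19 413)) (.nr 182 741457 (.lg 0 true 1 89 89 17 0 1680) .out))
  (.nr 186 16385 (.nr 184 1025 (.lg 0 true 1 67 67 17 0 1680) (.nx 185 104033 (.lg 2 false 1 67 67
  17 16285 1680) .out)) .out))) .out) .out) (.lg 0 false 1 0 0 16 0 24)) (.na 200 167 (.nx 199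
  832257 (.nr 198 1048577 (.nr 191 164 .s1 (.nx 194 13005 (.nx 192 257 (.l1 (.ls 73 29 405)) (.nr
  193 741457 (.lg 0 false 1 83 83 23 0 240) .out)) (.nr 197 16385 (.nr 195 1025 (.lg 0 true 1 67 67
  23 0 240) (.nx 196 104033 (.lg 2 false 1 61 61 23 16285 240) .out)) .out))) .out) .out) (.na 210
  169 (.nx 209 832257 (.nr 208 1048577 (.nr 201 167 .s1 (.nx 202 257 (.l1 (.ls 79 19 398)) (.nr 207
  741457 (.nr 205 16385 (.lg 0 true 3 73 73 17 0 720) (.nx 206 13005 (.lg 0 true 1 79 79 16 0 240)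
  .out)) .out))) .out) .out) (.nx 217 832257 (.nr 216 1048577 (.nr 211 169 .s1 (.nx 212 257 (.l1
  (.ls 67 23 393)) (.nr 215 741457 (.nr 213 16385 (.lg 0 false 1 83 83 17 0 21840) (.nx 214 13005
  (.lg 0 true 1 83 83 17 0 21840) .out)) .out))) .out) .out)))) (.na 228 176 (.na 227 175 (.nx 226
  832257 (.nr 225 1048577 (.nr 219 173 .s1 (.nx 220 257 (.l1 (.ls 67 19 384)) (.nr 224 741457 (.nr
  222 16385 (.lg 0 true 2 73 73 17 0 240) (.nx 223 13005 (.lg 0 true 1 79 79 16 0 240) .out))
  .out))) .out) .out) (.lg 0 false 1 0 0 16 0 24)) (.na 238 178 (.nx 237 832257 (.nr 236 1048577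
  (.nr 229 176 .s1 (.nx 234 104033 (.nx 232 13005 (.nx 230 257 (.l1 (.ls 79 31 378)) (.nr 231
  741457 (.lg 0 false 1 97 97 31 0 55440) .out)) (.nr 233 16385 (.lg 0 true 1 83 83 31 0 55440)
  .out)) (.nr 235 1025 (.lg 0 true 1 73 73 31 0 2640) .out))) .out) .out) (.na 246 179 (.nx 245
  832257 (.nr 244 1048577 (.nr 239 178 .s1 (.nx 240 257 (.l1 (.ls 67 29 374)) (.nr 243 741457 (.nr
  241 16385 (.lg 0 false 1 79 79 19 0 240) (.nx 242 13005 (.lg 0 true 1 79 79 19 0 2640) .out))
  .out))) .out) .out) (.nx 253 832257 (.nr 252 1048577 (.nr 247 179 .s1 (.nx 248 257 (.l1 (.ls 61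
  19 371)) (.nr 251 741457 (.nr 249 16385 (.lg 0 false 1 79 79 16 0 240) (.nx 250 13005 (.lg 0 true
  1 73 73 16 0 240) .out)) .out))) .out) .out))))) (.na 293 190 (.na 265 184 (.na 255 182 (.lg 0
  false 1 0 0 16 0 24) (.nx 264 832257 (.nr 263 1048577 (.nr 256 182 .s1 (.nx 259 13005 (.nx 257
  257 (.l1 (.ls 73 37 365)) (.nr 258 741457 (.lg 0 true 1 83 83 31 0 21840) .out)) (.nr 262 16385
  (.nr 260 1025 (.lg 0 true 1 67 67 31 0 21840) (.nx 261 104033 (.lg 2 true 1 61 61 31 16285 21840)
  .out)) .out))) .out) .out)) (.na 275 185 (.nx 274 832257 (.nr 273 1048577 (.nr 266 184 .s1 (.nx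
  269 13005 (.nx 267 257 (.l1 (.ls 73 31 361)) (.nr 268 741457 (.lg 0 false 1 83 83 19 0 240)
  .out)) (.nr 272 16385 (.nr 270 1025 (.lg 0 true 1 67 67 19 0 240) (.nx 271 104033 (.lg 2 true 1
  61 61 19 16285 240) .out)) .out))) .out) .out) (.na 283 188 (.nx 282 832257 (.nr 281 1048577 (.nr
  276 185 .s1 (.nx 277 257 (.l1 (.ls 71 23 360)) (.nr 280 741457 (.nr 278 16385 (.lg 0 false 1 83
  83 17 0 240) (.nx 279 13005 (.lg 0 true 1 83 83 17 0 7920) .out)) .out))) .out) .out) (.nx 292
  832257 (.nr 291 1048577 (.nr 284 188 .s1 (.nx 287 13005 (.nx 285 257 (.l1 (.ls 73 29 354)) (.nr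
  286 741457 (.lg 0 false 1 83 83 23 0 240) .out)) (.nr 290 16385 (.nr 288 1025 (.lg 0 true 1 67 67
  23 0 240) (.nx 289 104033 (.lg 2 true 1 61 61 23 16285 240) .out)) .out))) .out) .out)))) (.na
  303 196 (.na 301 191 (.nx 300 832257 (.nr 299 1048577 (.nr 294 190 .s1 (.nx 295 257 (.l1 (.ls 71
  37 350)) (.nr 298 741457 (.nr 296 16385 (.lg 0 false 1 83 83 29 0 1680) (.nx 297 13005 (.lg 0
  true 1 83 83 29 0 1680) .out)) .out))) .out) .out) (.na 302 193 (.lg 0 false 1 0 0 16 0 24) (.lg
  0 false 1 0 0 16 0 24))) (.na 313 197 (.nx 312 832257 (.nr 311 1048577 (.nr 304 196 .s1 (.nx 305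
  257 (.l1 (.ls 71 31 339)) (.nr 310 741457 (.nx 306 13005 (.lg 0 false 1 79 79 29 0 1680) (.nr 309
  16385 (.nr 307 1025 (.lg 0 true 1 67 67 29 0 1680) (.nx 308 104033 (.lg 2 false 1 61 61 29 16285
  1680) .out)) .out)) .out))) .out) .out) (.na 321 199 (.nx 320 832257 (.nr 319 1048577 (.nr 314
  197 .s1 (.nx 315 257 (.l1 (.ls 67 19 338)) (.nr 318 741457 (.nr 316 16385 (.lg 0 false 1 79 79 16
  0 1680) (.nx 317 13005 (.lg 0 true 1 73 73 16 0 240) .out)) .out))) .out) .out) (.lg 0 false 1 0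
  0 16 0 24))))))) (.na 469 250 (.na 405 227 (.na 359 211 (.na 331 206 (.na 323 205 (.lg 0 false 1
  0 0 16 0 24) (.nx 330 832257 (.nr 329 1048577 (.nr 324 205 .s1 (.nx 325 257 (.l1 (.ls 67 23 325))
  (.nr 328 741457 (.nr 326 16385 (.lg 0 false 1 83 83 17 0 1680) (.nx 327 13005 (.lg 0 true 1 79 79
  17 0 240) .out)) .out))) .out) .out)) (.na 339 208 (.nx 338 832257 (.nr 337 1048577 (.nr 332 206
  .s1 (.nx 335 13005 (.nx 333 257 (.l1 (.ls 61 29 323)) (.nr 334 741457 (.lg 0 true 1 73 73 23 0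
  240) .out)) (.nr 336 16385 (.lg 0 false 1 79 79 23 0 240) .out))) .out) .out) (.na 349 209 (.nx
  348 832257 (.nr 347 1048577 (.nr 340 208 .s1 (.nx 345 104033 (.nx 341 257 (.l1 (.ls 73 31 320))
  (.nr 344 741457 (.nx 342 13005 (.lg 0 false 1 83 83 31 0 3120) (.nr 343 16385 (.lg 0 true 1 73 79
  31 0 3120) .out)) .out)) (.nr 346 1025 (.lg 0 true 1 71 71 31 0 3120) .out))) .out) .out) (.nx
  358 832257 (.nr 357 1048577 (.nr 350 209 .s1 (.nx 351 257 (.l1 (.ls 73 29 319)) (.nr 356 741457
  (.nx 352 13005 (.lg 0 true 1 89 89 17 0 18480) (.nr 355 16385 (.nr 353 1025 (.lg 0 true 1 67 67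
  17 0 2640) (.nx 354 104033 (.lg 2 true 1 67 67 17 16285 18480) .out)) .out)) .out))) .out)
  .out)))) (.na 377 220 (.na 367 212 (.nx 366 832257 (.nr 365 1048577 (.nr 360 211 .s1 (.nx 361 257
  (.l1 (.ls 73 19 316)) (.nr 364 741457 (.nr 362 16385 (.lg 0 false 1 79 79 16 0 240) (.nx 363
  13005 (.lg 0 true 1 79 79 16 0 240) .out)) .out))) .out) .out) (.nx 376 832257 (.nr 375 1048577
  (.nr 368 212 .s1 (.nx 371 13005 (.nx 369 257 (.l1 (.ls 73 29 314)) (.nr 370 741457 (.lg 0 false 1
  83 83 23 0 240) .out)) (.nr 374 16385 (.nr 372 1025 (.lg 0 true 1 67 67 23 0 240) (.nx 373 104033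
  (.lg 2 true 1 61 61 23 16285 240) .out)) .out))) .out) .out)) (.na 387 223 (.nx 386 832257 (.nr
  385 1048577 (.nr 378 220 .s1 (.nx 381 13005 (.nx 379 257 (.l1 (.ls 71 37 303)) (.nr 380 741457
  (.lg 0 false 1 79 79 31 0 2640) .out)) (.nr 384 16385 (.nr 382 1025 (.lg 0 true 1 61 61 31 0
  2640) (.nx 383 104033 (.lg 2 false 1 59 59 31 16285 2640) .out)) .out))) .out) .out) (.na 395 224
  (.nx 394 832257 (.nr 393 1048577 (.nr 388 223 .s1 (.nx 389 257 (.l1 (.ls 67 19 299)) (.nr 392
  741457 (.nr 390 16385 (.lg 0 false 1 79 79 16 0 1680) (.nx 391 13005 (.lg 0 true 1 73 73 16 0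
  240) .out)) .out))) .out) .out) (.nx 404 832257 (.nr 403 1048577 (.nr 396 224 .s1 (.nx 401 104033
  (.nx 399 13005 (.nx 397 257 (.l1 (.ls 73 31 297)) (.nr 398 741457 (.lg 0 false 1 83 83 31 0 1680)
  .out)) (.nr 400 16385 (.lg 0 true 1 71 73 31 0 1680) .out)) (.nr 402 1025 (.lg 0 true 1 67 67 31
  0 1680) .out))) .out) .out))))) (.na 424 236 (.na 407 230 (.na 406 229 (.lg 0 false 1 0 0 16 0
  24) (.lg 0 false 1 0 0 16 0 24)) (.na 415 233 (.nx 414 832257 (.nr 413 1048577 (.nr 408 230 .s1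
  (.nx 409 257 (.l1 (.ls 79 37 290)) (.nr 412 741457 (.nr 410 16385 (.lg 0 false 1 83 83 31 0 5040)
  (.nx 411 13005 (.lg 0 true 1 79 79 31 0 240) .out)) .out))) .out) .out) (.na 416 235 (.lg 0 false
  1 0 0 16 0 24) (.nx 423 832257 (.nr 422 1048577 (.nr 417 235 .s1 (.nx 418 406 (.l1 (.ls 67 29
  704)) (.nr 421 741457 (.nr 419 16385 (.lg 0 false 1 79 79 17 0 240) (.nx 420 13005 (.lg 0 true 1
  79 79 17 0 240) .out)) .out))) .out) .out)))) (.na 443 242 (.na 434 239 (.nx 433 832257 (.nr 432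
  1048577 (.nr 425 236 .s1 (.nx 428 13005 (.nx 426 257 (.l1 (.ls 53 29 282)) (.nr 427 741457 (.lg 0
  false 1 79 79 23 0 240) .out)) (.nr 431 16385 (.nr 429 1025 (.lg 0 true 1 61 61 23 0 240) (.nx
  430 104033 (.lg 2 true 1 53 53 23 16285 240) .out)) .out))) .out) .out) (.na 435 241 (.lg 0 false
  1 0 0 16 0 24) (.nx 442 832257 (.nr 441 1048577 (.nr 436 241 .s1 (.nx 437 257 (.l1 (.ls 59 19
  277)) (.nr 440 741457 (.nr 438 16385 (.lg 0 false 1 73 73 17 0 240) (.nx 439 13005 (.lg 0 true 1
  71 71 17 0 240) .out)) .out))) .out) .out))) (.na 451 245 (.nx 450 832257 (.nr 449 1048577 (.nr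
  444 242 .s1 (.nx 445 257 (.l1 (.ls 61 31 275)) (.nr 448 741457 (.nr 446 16385 (.lg 0 false 1 79
  79 29 0 2640) (.nx 447 13005 (.lg 0 true 1 73 73 29 0 2640) .out)) .out))) .out) .out) (.na 459
  247 (.nx 458 832257 (.nr 457 1048577 (.nr 452 245 .s1 (.nx 453 257 (.l1 (.ls 61 23 272)) (.nr 456
  741457 (.nr 454 16385 (.lg 0 false 1 79 79 19 0 1680) (.nx 455 13005 (.lg 0 true 1 73 73 19 0
  1680) .out)) .out))) .out) .out) (.nx 468 832257 (.nr 467 1048577 (.nr 460 247 .s1 (.nx 463 13005
  (.nx 461 257 (.l1 (.ls 73 29 270)) (.nr 462 741457 (.lg 0 true 1 83 83 17 0 3120) .out)) (.nr 466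
  16385 (.nr 464 1025 (.lg 0 true 1 67 67 17 0 3120) (.nx 465 104033 (.lg 2 true 1 61 61 17 16285
  3120) .out)) .out))) .out) .out)))))) (.na 3909 2048 (.na 495 257 (.na 478 253 (.na 470 251 (.lg
  0 false 1 0 0 16 0 24) (.nx 477 832257 (.nr 476 1048577 (.nr 471 251 .s1 (.nx 474 13005 (.nx 472
  257 (.l1 (.ls 73 19 266)) (.nr 473 741457 (.lg 0 true 1 73 73 17 0 240) .out)) (.nr 475 16385
  (.lg 0 false 1 79 79 17 0 18480) .out))) .out) .out)) (.na 486 254 (.nx 485 832257 (.nr 484
  1048577 (.nr 479 253 .s1 (.nx 480 257 (.l1 (.ls 73 19 264)) (.nr 483 741457 (.nr 481 16385 (.lg 0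
  false 1 89 89 19 0 18480) (.nx 482 13005 (.lg 0 true 1 83 83 19 0 18480) .out)) .out))) .out)
  .out) (.na 494 256 (.nx 493 832257 (.nr 492 1048577 (.nr 487 254 .s1 (.nx 488 257 (.l1 (.ls 61 29
  263)) (.nr 491 741457 (.nr 489 16385 (.lg 0 false 1 73 73 23 0 240) (.nx 490 13005 (.lg 0 true 1
  71 71 23 0 240) .out)) .out))) .out) .out) .ne))) (.na 1851 725 (.na 1215 512 (.nx 1214 832257
  (.nr 1213 1482912 (.nr 496 257 .s1 (.nx 701 205 (.nx 656 160 (.nr 655 4587 (.lx (.lp 37 19 129))
  (.l1 .sk)) (.nx 657 161 (.l1 .sk) (.lx (.lp 79 17 129)))) (.nr 1212 1048577 (.nr 956 32769 (.la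
  (.lg 0 true 1 79 79 23 0)) (.nx 1211 10323 (.la (.lg 0 false 1 71 71 23 0)) .out)) .out))) .out)
  .out) (.nx 1850 832257 (.nr 1849 1482912 (.nr 1216 512 .s1 (.nx 1635 22297 (.nx 1377 161 (.nx
  1376 160 (.nr 1375 6495 (.lx (.lp 37 19 182)) (.l1 .sk)) (.l1 .sk)) (.nx 1421 205 (.lx (.lp 79 19
  182)) (.nr 1634 1048577 (.la (.lg 0 false 1 71 71 29 0)) .out))) (.nr 1848 32769 (.la (.lg 2 true
  1 61 61 29 130041)) .out))) .out) .out)) (.na 2453 1024 (.nx 2452 10323 (.nr 2451 1048577 (.nr
  1852 725 .s1 (.nx 2151 2049 (.la (.ls 67 41 5793)) (.nr 2450 16385 (.la (.lg 0 true 1 37 37 29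
  0)) .out))) .out) .out) (.na 3307 1449 (.nx 3306 10323 (.nr 3305 1048577 (.nr 2454 1024 .s1 (.nx
  2879 2582 (.la (.ls 61 41 6513)) (.nr 3304 16385 (.la (.lg 0 false 1 31 31 31 0)) .out))) .out)
  .out) (.nx 3908 2582 (.nr 3907 524289 (.nr 3308 1449 .s1 (.la (.ls 59 37 4603))) .out) .out)))))
  (.na 11061 16384 (.na 6124 4096 (.na 4761 2897 (.nx 4760 3252 (.nr 4759 524289 (.nr 3910 2048 .s1
  (.la (.ls 59 41 5166))) .out) .out) (.nx 6123 2582 (.nr 6122 262145 (.nr 4762 2897 .s1 (.nx 4922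
  160 (.nr 4921 36694 (.lx (.lp 41 31 1025)) (.l1 .sk)) (.nx 4923 161 (.l1 .sk) (.la (.ls 47 37
  2295))))) .out) .out)) (.na 8472 5793 (.nx 8471 2582 (.nr 8470 262145 (.nr 6125 4096 .s1 (.nx
  6286 161 (.nx 6285 160 (.nr 6284 51896 (.lx (.lp 37 37 1449)) (.l1 .sk)) (.l1 .sk)) (.nx 6772 647
  (.lx (.lp 53 37 1449)) (.nr 8469 65537 (.la (.ls 37 37 1528)) .out)))) .out) .out) (.na 9766 8192
  (.nx 9765 1292 (.nr 9764 65537 (.nr 8473 5793 .s1 (.lx (.lp 37 37 2049))) .out) .out) (.nx 11060
  1292 (.nr 11059 131073 (.nr 9767 8192 .s1 (.nx 9971 205 (.lx (.lp 43 41 4097)) (.nr 11058 65537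
  (.lx (.lp 37 41 4097)) .out))) .out) .out)))) (.na 14412 131072 (.na 12356 32768 (.nx 12355 1292
  (.nr 12354 262145 (.nr 11062 16384 .s1 (.nx 11266 205 (.lx (.lp 16 41 8193)) (.nr 12353 131073
  (.lx (.lp 37 43 8193)) .out))) .out) .out) (.na 13384 65536 (.nx 13383 1025 (.nr 13382 262145
  (.nr 12357 32768 .s1 (.nx 12561 205 (.lx (.lp 16 0 16385)) (.nr 13381 131073 (.lx (.lp 29 47
  16385)) .out))) .out) .out) (.nx 14411 1025 (.nr 14410 262145 (.nr 13385 65536 .s1 (.nx 13708 324
  (.lx (.lp 31 47 32769)) (.nr 14409 131073 (.lx (.lp 29 53 32769)) .out))) .out) .out))) (.na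
  14414 262144 (.nx 14413 324 (.l1 .sk) .out) (.na 14416 524289 (.nx 14415 205 (.l1 .sk) .out)
  .out)))))))

def T111_2 : Ph :=
  (.na 374 206 (.na 202 91 (.na 100 54 (.na 39 38 (.na 1 26 .ne (.na 38 32 (.nx 37 2642247 (.nr 36
  1048577 (.nr 2 21 .s1 (.nx 5 244 (.nx 4 243 (.nr 3 353 (.lg 0 false 1 29 29 11 0 1872) (.l1 .sk))
  (.l1 .sk)) (.nx 30 660563 (.nx 18 82572 (.nx 6 408 (.l1 (.ls 79 43 4115)) (.nr 17 741457 (.nr 11
  185365 (.lg 0 false 5 97 101 19 0 9360) (.nx 16 16385 (.lg 0 false 5 97 97 19 0 9360) .out))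
  .out)) (.nr 29 131073 (.nr 23 3057 (.lg 0 true 5 83 83 19 0 9360) (.nx 28 524289 (.lg 2 false 5
  89 97 19 46954 9360) .out)) .out)) (.nr 35 129 (.lg 0 true 5 67 67 19 0 9360) .out)))) .out)
  .out) .ne)) (.na 68 42 (.nx 67 2642247 (.nr 66 881745 (.nr 40 35 .s1 (.nx 44 408 (.nx 42 243 (.nr
  41 464 (.lg 0 false 1 29 29 13 0 5040) (.l1 .sk)) (.nx 43 244 (.l1 .sk) (.l1 (.ls 79 43 2816))))
  (.nr 65 623489 (.nx 59 262145 (.nr 53 185365 (.nx 49 65537 (.lg 0 false 5 97 101 17 0 5040) (.nr
  52 77937 (.nr 50 1248 (.lg 0 false 1 79 79 13 0 5040) (.lg 2 true 2 97 97 13 35221 5040)) .out))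
  (.nx 58 16385 (.lg 0 false 5 89 97 17 0 5040) .out)) (.nr 64 257 (.lg 0 true 5 71 71 17 0 720)
  .out)) .out))) .out) .out) (.na 99 46 (.nx 98 2642247 (.nr 97 881745 (.nr 69 40 .s1 (.nx 91
  262145 (.nx 72 244 (.nx 71 243 (.nr 70 508 (.l1 (.ls 29 43 1408)) (.l1 .sk)) (.l1 .sk)) (.nx 73
  408 (.l1 (.ls 79 47 2548)) (.nr 90 623489 (.nr 84 185365 (.nx 78 82572 (.lg 0 true 5 89 89 29 0
  5040) (.nr 83 65537 (.lg 0 false 5 83 83 29 0 5040) .out)) (.nx 89 16385 (.lg 0 false 5 83 89 29
  0 5040) .out)) .out))) (.nr 96 257 (.lg 0 true 5 71 71 29 0 5040) .out))) .out) .out) .ne))) (.na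
  145 74 (.na 122 62 (.nx 121 2642247 (.nr 120 881745 (.nr 101 52 .s1 (.nx 109 32769 (.nx 103 243
  (.nr 102 684 (.l1 (.ls 23 41 1096)) (.l1 .sk)) (.nx 104 244 (.l1 .sk) (.lg 0 false 5 83 89 29 0
  720))) (.nr 119 92683 (.nr 117 65537 (.nr 114 684 (.lg 0 true 5 71 71 29 0 720) (.nx 116 262145
  (.lg 2 false 2 83 83 23 59268 144) .out)) (.nx 118 52017 (.lg 0 true 1 73 73 19 0 144) .out))
  .out))) .out) .out) (.na 144 64 (.nx 143 2642247 (.nr 142 881745 (.nr 123 61 .s1 (.nx 125 243
  (.nr 124 707 (.l1 (.ls 23 37 955)) (.l1 .sk)) (.nx 126 244 (.l1 .sk) (.nx 133 32769 (.lg 0 false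
  7 89 97 23 0 5040) (.nr 141 92683 (.nr 138 707 (.lg 0 true 5 73 73 19 0 720) (.nx 140 262145 (.lg
  2 false 2 89 89 17 83727 144) .out)) .out))))) .out) .out) .ne)) (.na 164 78 (.nx 163 2642247
  (.nr 162 2097153 (.nr 146 73 .s1 (.nx 147 408 (.l1 (.ls 79 43 2252)) (.nr 161 1048577 (.nx 152
  32769 (.lg 0 false 5 89 97 23 0 5040) (.nr 160 65537 (.nr 157 861 (.lg 0 true 5 71 71 23 0 720)
  (.nx 159 416129 (.lg 2 true 2 83 83 19 59268 1008) .out)) .out)) .out))) .out) .out) (.na 183 86
  (.nx 182 2642247 (.nr 181 2097153 (.nr 165 77 .s1 (.nx 166 408 (.l1 (.ls 79 47 2137)) (.nr 180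
  1048577 (.nx 171 32769 (.lg 0 false 5 89 97 31 0 65520) (.nr 179 65537 (.nr 176 949 (.lg 0 true 5
  71 71 31 0 9360) (.nx 178 416129 (.lg 2 true 2 79 79 29 59268 1872) .out)) .out)) .out))) .out)
  .out) (.nx 201 2642247 (.nr 200 2097153 (.nr 184 85 .s1 (.nx 191 32769 (.nx 185 408 (.l1 (.ls 79
  37 1938)) (.nr 190 1048577 (.lg 0 false 5 89 89 23 0 720) .out)) (.nr 199 65537 (.nr 196 1004
  (.lg 0 true 5 71 71 23 0 720) (.nx 198 416129 (.lg 2 true 2 79 79 19 59268 144) .out)) .out)))
  .out) .out))))) (.na 271 134 (.na 236 122 (.na 203 98 .ne (.na 220 114 (.nx 219 2642247 (.nr 218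
  2097153 (.nr 204 97 .s1 (.nx 205 408 (.l1 (.ls 79 41 1701)) (.nr 217 1482912 (.nx 210 29525 (.lg
  0 false 5 83 89 29 0 5040) (.nr 216 65537 (.nr 213 513 (.lg 0 true 3 67 67 23 0 1008) (.nx 215
  416129 (.lg 2 true 2 79 79 23 98557 1008) .out)) .out)) .out))) .out) .out) (.nx 235 2642247 (.nr
  234 2097153 (.nr 221 113 .s1 (.nx 228 29525 (.nx 222 408 (.l1 (.ls 73 43 1463)) (.nr 227 1482912
  (.lg 0 false 5 83 83 37 0 720) .out)) (.nr 233 65537 (.nr 230 513 (.lg 0 true 2 61 61 31 0 144)
  (.nx 232 416129 (.lg 2 true 2 79 79 31 98557 144) .out)) .out))) .out) .out))) (.na 253 126 (.nx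
  252 2642247 (.nr 251 2097153 (.nr 237 122 .s1 (.nx 238 408 (.l1 (.ls 79 37 1367)) (.nr 250
  1482912 (.nx 247 416129 (.nx 243 26009 (.lg 0 false 5 83 83 23 0 720) (.nr 246 65537 (.lg 0 false
  3 83 83 23 0 144) .out)) (.nr 249 513 (.lg 0 true 2 67 67 19 0 144) .out)) .out))) .out) .out)
  (.na 270 128 (.nx 269 2642247 (.nr 268 2097153 (.nr 254 126 .s1 (.nx 264 29525 (.nx 256 243 (.nr
  255 1413 (.l1 (.ls 31 37 471)) (.l1 .sk)) (.nx 257 244 (.l1 .sk) (.nx 258 408 (.l1 (.ls 79 41
  851)) (.nr 263 1482912 (.lg 0 false 5 83 97 41 0 5040) .out)))) (.nr 267 65537 (.nr 265 513 (.lg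
  0 true 1 67 67 31 0 1008) (.nx 266 416129 (.lg 2 true 1 83 89 31 98557 1008) .out)) .out))) .out)
  .out) .ne))) (.na 318 162 (.na 287 146 (.nx 286 1321124 (.nr 285 2097153 (.nr 272 134 .s1 (.nx
  280 41287 (.nx 274 243 (.nr 273 1611 (.l1 (.ls 19 29 443)) (.l1 .sk)) (.nx 275 244 (.l1 .sk) (.lg
  0 false 5 89 89 29 0 720))) (.nr 284 16385 (.nr 282 1025 (.lg 0 true 2 59 59 23 0 144) (.nx 283
  165142 (.lg 2 false 1 59 59 19 19576 144) .out)) .out))) .out) .out) (.na 303 158 (.nx 302
  1321124 (.nr 301 2097153 (.nr 288 146 .s1 (.nx 296 41287 (.nx 290 243 (.nr 289 1744 (.l1 (.ls 17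
  29 407)) (.l1 .sk)) (.nx 291 244 (.l1 .sk) (.lg 0 false 5 89 89 29 0 720))) (.nr 300 16385 (.nr
  298 1025 (.lg 0 true 2 59 59 23 0 144) (.nx 299 165142 (.lg 2 false 1 59 59 19 19576 144) .out))
  .out))) .out) .out) (.nx 317 1321124 (.nr 316 2097153 (.nr 304 158 .s1 (.nx 314 165142 (.nx 312
  26009 (.nx 306 243 (.nr 305 1788 (.l1 (.ls 23 29 376)) (.l1 .sk)) (.nx 307 244 (.l1 .sk) (.lg 0
  false 5 89 89 29 0 5040))) (.nr 313 65537 (.lg 0 false 1 83 83 19 0 144) .out)) (.nr 315 1025
  (.lg 0 false 1 67 67 19 0 144) .out))) .out) .out))) (.na 344 186 (.na 332 182 (.nx 331 1321124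
  (.nr 330 2097153 (.nr 319 162 .s1 (.nx 328 165142 (.nx 321 243 (.nr 320 2009 (.l1 (.ls 37 31
  367)) (.l1 .sk)) (.nx 322 244 (.l1 .sk) (.nx 326 41287 (.nr 323 262145 (.lg 0 false 1 89 97 31 0
  5040) (.nx 325 20644 (.lg 0 false 2 97 101 37 0 65520) .out)) (.nr 327 16385 (.lg 0 true 1 79 83
  31 0 5040) .out)))) (.nr 329 1025 (.lg 0 true 1 73 73 31 0 144) .out))) .out) .out) (.nx 343
  1321124 (.nr 342 1482912 (.nr 333 182 .s1 (.nx 336 244 (.nx 335 243 (.nr 334 2053 (.l1 (.ls 31 37
  327)) (.l1 .sk)) (.l1 .sk)) (.nx 338 26009 (.lg 0 false 2 89 97 37 0 65520) (.nr 341 65537 (.nx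
  339 165142 (.lg 0 false 1 89 89 31 0 65520) (.nr 340 1025 (.lg 0 true 1 67 67 31 0 13104) .out))
  .out)))) .out) .out)) (.na 359 194 (.nx 358 1321124 (.nr 357 1482912 (.nr 345 186 .s1 (.nx 348
  244 (.nx 347 243 (.nr 346 2141 (.l1 (.ls 19 29 320)) (.l1 .sk)) (.l1 .sk)) (.nx 353 41287 (.lg 0
  false 5 83 83 37 0 5040) (.nr 356 16385 (.nr 354 1025 (.lg 0 false 1 67 67 29 0 1008) (.nx 355
  165142 (.lg 2 false 1 59 59 29 19576 144) .out)) .out)))) .out) .out) (.nx 373 1321124 (.nr 372
  1482912 (.nr 360 194 .s1 (.nx 368 41287 (.nx 362 243 (.nr 361 2273 (.l1 (.ls 17 29 307)) (.l1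
  .sk)) (.nx 363 244 (.l1 .sk) (.lg 0 false 5 79 79 29 0 720))) (.nr 371 16385 (.nr 369 1025 (.lg 0
  false 1 61 61 19 0 144) (.nx 370 165142 (.lg 2 true 1 53 53 19 19576 144) .out)) .out))) .out)
  .out)))))) (.na 4517 2048 (.na 437 257 (.na 415 234 (.na 389 218 (.nx 388 1321124 (.nr 387
  1482912 (.nr 375 206 .s1 (.nx 377 243 (.nr 376 2406 (.l1 (.ls 17 29 289)) (.l1 .sk)) (.nx 378 244
  (.l1 .sk) (.nx 383 41287 (.lg 0 false 5 79 79 29 0 5040) (.nr 386 16385 (.nr 384 1025 (.lg 0
  false 1 59 59 23 0 144) (.nx 385 165142 (.lg 2 false 1 53 53 23 19576 1008) .out)) .out)))))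
  .out) .out) (.na 402 222 (.nx 401 1321124 (.nr 400 1482912 (.nr 390 218 .s1 (.nx 396 41287 (.nx
  392 243 (.nr 391 2450 (.l1 (.ls 23 29 273)) (.l1 .sk)) (.nx 393 244 (.l1 .sk) (.lg 0 false 3 79
  79 29 0 144))) (.nr 399 16385 (.nr 397 1025 (.lg 0 false 1 61 61 23 0 144) (.nx 398 165142 (.lg 2
  true 1 53 53 23 19576 144) .out)) .out))) .out) .out) (.nx 414 1321124 (.nr 413 1482912 (.nr 403
  222 .s1 (.nx 406 244 (.nx 405 243 (.nr 404 2582 (.l1 (.ls 19 31 268)) (.l1 .sk)) (.l1 .sk)) (.nx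
  409 41287 (.lg 0 false 3 83 83 31 0 720) (.nr 412 16385 (.nr 410 1025 (.lg 0 false 1 67 67 29 0
  720) (.nx 411 165142 (.lg 2 false 1 59 59 29 19576 720) .out)) .out)))) .out) .out))) (.na 426
  254 (.nx 425 1321124 (.nr 424 1482912 (.nr 416 234 .s1 (.nx 418 243 (.nr 417 2803 (.l1 (.ls 31 37
  255)) (.l1 .sk)) (.nx 419 244 (.l1 .sk) (.nr 422 65537 (.nx 420 165142 (.lg 0 true 1 83 83 37 0
  13104) (.nr 421 1025 (.lg 0 true 1 67 67 37 0 1872) .out)) (.nx 423 26009 (.lg 0 false 1 89 89 37
  0 13104) .out))))) .out) .out) (.na 436 256 (.nx 435 1321124 (.nr 434 1482912 (.nr 427 254 .s1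
  (.nx 429 243 (.nr 428 2825 (.l1 (.ls 17 29 235)) (.l1 .sk)) (.nx 430 244 (.l1 .sk) (.nx 432 41287
  (.lg 0 false 2 73 73 23 0 144) (.nr 433 16385 (.lg 0 false 1 73 73 23 0 144) .out))))) .out)
  .out) .ne))) (.na 1859 725 (.na 761 363 (.nx 760 1321124 (.nr 759 1482912 (.nr 438 257 .s1 (.nx
  546 244 (.nx 545 243 (.nr 544 4006 (.la (.ls 37 19 232)) (.l1 .sk)) (.l1 .sk)) (.nr 652 32769
  (.la (.lg 0 true 2 79 79 23 0)) (.nx 758 26009 (.la (.lg 0 false 2 73 73 23 0)) .out)))) .out)
  .out) (.na 1214 512 (.nx 1213 1321124 (.nr 1212 1482912 (.nr 762 363 .s1 (.nx 912 243 (.nr 911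
  5650 (.la (.ls 37 19 165)) (.l1 .sk)) (.nx 913 244 (.l1 .sk) (.nx 1062 26009 (.la (.lg 0 false 1
  73 73 23 0)) (.nr 1211 32769 (.la (.lg 0 true 1 79 79 23 0)) .out))))) .out) .out) (.nx 1858
  1321124 (.nr 1857 1482912 (.nr 1215 512 .s1 (.nx 1429 243 (.nr 1428 8000 (.la (.ls 41 23 182))
  (.l1 .sk)) (.nx 1430 244 (.l1 .sk) (.nr 1643 32769 (.la (.lg 0 false 1 73 73 29 0)) (.nx 1856
  26009 (.la (.lg 0 false 1 71 71 29 0)) .out))))) .out) .out))) (.na 2461 1024 (.nx 2460 20644
  (.nr 2459 2097153 (.nr 1860 725 .s1 (.nx 2159 2049 (.la (.ls 71 37 5793)) (.nr 2458 262145 (.la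
  (.lg 0 false 1 53 53 29 0)) .out))) .out) .out) (.na 3315 1449 (.nx 3314 20644 (.nr 3313 2097153
  (.nr 2462 1024 .s1 (.nx 2887 3252 (.la (.ls 71 41 10330)) (.nr 3312 131073 (.la (.lg 0 false 1 47
  47 31 0)) .out))) .out) .out) (.nx 4516 13005 (.nr 4515 2097153 (.nr 3316 1449 .s1 (.nx 3915 3252
  (.la (.ls 67 41 7301)) (.nr 4514 16385 (.la (.lg 0 false 1 29 29 31 0)) .out))) .out) .out)))))
  (.na 19760 16384 (.na 8271 5793 (.na 5369 2897 (.nx 5368 13005 (.nr 5367 2097153 (.nr 4518 2048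
  .s1 (.la (.ls 61 53 82586))) .out) .out) (.na 6571 4096 (.nx 6570 4097 (.nr 6569 1048577 (.nr
  5370 2897 .s1 (.la (.ls 61 41 5797))) .out) .out) (.nx 8270 5162 (.nr 8269 1048577 (.nr 6572 4096
  .s1 (.la (.ls 61 41 6508))) .out) .out))) (.na 10996 8192 (.nx 10995 2049 (.nr 10994 524289 (.nr
  8272 5793 .s1 (.nx 8595 324 (.lx (.lp 53 31 2049)) (.la (.ls 53 37 2049)))) .out) .out) (.na
  14716 11586 (.nx 14715 2049 (.nr 14714 524289 (.nr 10997 8192 .s1 (.nx 11320 324 (.lx (.lp 53 37
  2897)) (.la (.ls 47 41 2897)))) .out) .out) (.nx 19759 2049 (.nr 19758 131073 (.nr 14717 11586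
  .s1 (.nx 14959 243 (.lx (.lp 43 41 4097)) (.nx 14960 244 (.l1 .sk) (.la (.ls 41 41 4097)))))
  .out) .out)))) (.na 25494 131072 (.na 21812 32768 (.nx 21811 2049 (.nr 21810 262145 (.nr 19761
  16384 .s1 (.nx 20084 324 (.lx (.lp 16 0 8193)) (.nr 21809 131073 (.lx (.lp 41 43 8193)) .out)))
  .out) .out) (.na 23864 65536 (.nx 23863 2049 (.nr 23862 524289 (.nr 21813 32768 .s1 (.nx 22136
  324 (.lx (.lp 16 0 16385)) (.nr 23861 262145 (.lx (.lp 41 47 16385)) .out))) .out) .out) (.nx
  25493 1627 (.nr 25492 524289 (.nr 23865 65536 .s1 (.nx 24188 324 (.lx (.lp 16 0 32769)) (.nr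
  25491 262145 (.lx (.lp 41 53 32769)) .out))) .out) .out))) (.na 27638 524288 (.na 27123 262144
  (.nx 27122 1627 (.nr 27121 524289 (.nr 25495 131072 .s1 (.lx (.lp 37 53 65537))) .out) .out) (.nx
  27637 513 (.nr 27636 1048577 (.nr 27124 262144 .s1 (.lx (.lp 16 0 131073))) .out) .out)) (.na
  27640 1048577 (.nx 27639 324 (.l1 .sk) .out) .out))))))

theorem c111 :
    OkQ ckI L5 40 1 1099511627776 0 34359738368 1 1099511627776 ∧
    OkQ ckI L8 160 115 1099511627776 0 34359738368 1 1099511627776 ∧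
    OkQ ckI L10 243 23 1099511627776 0 34359738368 1 1099511627776 := by
  refine ⟨?_, ?_, ?_⟩
  · refine fin 120 3236 T111_0 ?_
    refine jn 5 (by decide +kernel) ?_
    refine jn 7 (by decide +kernel) ?_
    refine jn 8 (by decide +kernel) ?_
    refine jn 10 (by decide +kernel) ?_
    refine jn 12 (by decide +kernel) ?_
    refine jn 14 (by decide +kernel) ?_
    refine jn 16 (by decide +kernel) ?_
    refine jn 19 (by decide +kernel) ?_
    refine jn 20 (by decide +kernel) ?_
    refine jn 22 (by decide +kernel) ?_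
    refine jn 23 (by decide +kernel) ?_
    refine jn 33 (by decide +kernel) ?_
    refine jn 67 (by decide +kernel) ?_
    refine jn 70 (by decide +kernel) ?_
    refine jn 71 (by decide +kernel) ?_
    refine jn 72 (by decide +kernel) ?_
    refine jn 74 (by decide +kernel) ?_
    refine jn 76 (by decide +kernel) ?_
    refine jn 78 (by decide +kernel) ?_
    refine jn 79 (by decide +kernel) ?_
    refine jn 80 (by decide +kernel) ?_
    refine jn 82 (by decide +kernel) ?_
    refine jn 84 (by decide +kernel) ?_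
    refine jn 86 (by decide +kernel) ?_
    refine jn 87 (by decide +kernel) ?_
    refine jn 89 (by decide +kernel) ?_
    refine jn 93 (by decide +kernel) ?_
    refine jn 102 (by decide +kernel) ?_
    refine jn 111 (by decide +kernel) ?_
    refine jn 120 (by decide +kernel) ?_
    refine jn 128 (by decide +kernel) ?_
    refine jn 134 (by decide +kernel) ?_
    refine jn 141 (by decide +kernel) ?_
    refine jn 142 (by decide +kernel) ?_
    refine jn 143 (by decide +kernel) ?_
    refine jn 144 (by decide +kernel) ?_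
    refine jn 145 (by decide +kernel) ?_
    refine jn 146 (by decide +kernel) ?_
    refine jn 147 (by decide +kernel) ?_
    refine jn 148 (by decide +kernel) ?_
    refine jn 149 (by decide +kernel) ?_
    refine jn 150 (by decide +kernel) ?_
    refine jn 151 (by decide +kernel) ?_
    refine jn 152 (by decide +kernel) ?_
    refine jn 153 (by decide +kernel) ?_
    refine jn 154 (by decide +kernel) ?_
    refine jn 155 (by decide +kernel) ?_
    refine jn 156 (by decide +kernel) ?_
    refine jn 157 (by decide +kernel) ?_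
    refine jn 158 (by decide +kernel) ?_
    refine jn 159 (by decide +kernel) ?_
    refine jn 161 (by decide +kernel) ?_
    refine jn 162 (by decide +kernel) ?_
    refine jn 163 (by decide +kernel) ?_
    refine jn 165 (by decide +kernel) ?_
    refine jn 170 (by decide +kernel) ?_
    refine jn 189 (by decide +kernel) ?_
    refine jn 196 (by decide +kernel) ?_
    refine jn 203 (by decide +kernel) ?_
    refine jn 215 (by decide +kernel) ?_
    refine jn 219 (by decide +kernel) ?_
    refine jn 222 (by decide +kernel) ?_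
    refine jn 236 (by decide +kernel) ?_
    refine jn 244 (by decide +kernel) ?_
    refine jn 260 (by decide +kernel) ?_
    refine jn 261 (by decide +kernel) ?_
    refine jn 262 (by decide +kernel) ?_
    refine jn 263 (by decide +kernel) ?_
    refine jn 266 (by decide +kernel) ?_
    refine jn 268 (by decide +kernel) ?_
    refine jn 270 (by decide +kernel) ?_
    refine jn 273 (by decide +kernel) ?_
    refine jn 274 (by decide +kernel) ?_
    refine jn 275 (by decide +kernel) ?_
    refine jn 276 (by decide +kernel) ?_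
    refine jn 283 (by decide +kernel) ?_
    refine jn 284 (by decide +kernel) ?_
    refine jn 285 (by decide +kernel) ?_
    refine jn 286 (by decide +kernel) ?_
    refine jn 287 (by decide +kernel) ?_
    refine jn 288 (by decide +kernel) ?_
    refine jn 289 (by decide +kernel) ?_
    refine jn 290 (by decide +kernel) ?_
    refine jn 291 (by decide +kernel) ?_
    refine jn 292 (by decide +kernel) ?_
    refine jn 304 (by decide +kernel) ?_
    refine jn 305 (by decide +kernel) ?_
    refine jn 307 (by decide +kernel) ?_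
    refine jn 309 (by decide +kernel) ?_
    refine jn 311 (by decide +kernel) ?_
    refine jn 312 (by decide +kernel) ?_
    refine jn 314 (by decide +kernel) ?_
    refine jn 316 (by decide +kernel) ?_
    refine jn 318 (by decide +kernel) ?_
    refine jn 320 (by decide +kernel) ?_
    refine jn 321 (by decide +kernel) ?_
    refine jn 326 (by decide +kernel) ?_
    refine jn 331 (by decide +kernel) ?_
    refine jn 343 (by decide +kernel) ?_
    refine jn 345 (by decide +kernel) ?_
    refine jn 346 (by decide +kernel) ?_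
    refine jn 347 (by decide +kernel) ?_
    refine jn 348 (by decide +kernel) ?_
    refine jn 349 (by decide +kernel) ?_
    refine jn 350 (by decide +kernel) ?_
    refine jn 351 (by decide +kernel) ?_
    refine jn 352 (by decide +kernel) ?_
    refine jn 353 (by decide +kernel) ?_
    refine jn 354 (by decide +kernel) ?_
    refine jn 355 (by decide +kernel) ?_
    refine jn 356 (by decide +kernel) ?_
    refine jn 357 (by decide +kernel) ?_
    refine jn 358 (by decide +kernel) ?_
    refine jn 359 (by decide +kernel) ?_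
    refine jn 371 (by decide +kernel) ?_
    refine jn 372 (by decide +kernel) ?_
    refine jn 373 (by decide +kernel) ?_
    refine jn 374 (by decide +kernel) ?_
    refine jn 375 (by decide +kernel) ?_
    refine jn 378 (by decide +kernel) ?_
    refine jn 382 (by decide +kernel) ?_
    refine jn 392 (by decide +kernel) ?_
    refine jn 393 (by decide +kernel) ?_
    refine jn 395 (by decide +kernel) ?_
    refine jn 397 (by decide +kernel) ?_
    refine jn 400 (by decide +kernel) ?_
    refine jn 403 (by decide +kernel) ?_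
    refine jn 409 (by decide +kernel) ?_
    refine jn 412 (by decide +kernel) ?_
    refine jn 416 (by decide +kernel) ?_
    refine jn 426 (by decide +kernel) ?_
    refine jn 429 (by decide +kernel) ?_
    refine jn 432 (by decide +kernel) ?_
    refine jn 442 (by decide +kernel) ?_
    refine jn 443 (by decide +kernel) ?_
    refine jn 444 (by decide +kernel) ?_
    refine jn 445 (by decide +kernel) ?_
    refine jn 446 (by decide +kernel) ?_
    refine jn 447 (by decide +kernel) ?_
    refine jn 448 (by decide +kernel) ?_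
    refine jn 458 (by decide +kernel) ?_
    refine jn 461 (by decide +kernel) ?_
    refine jn 463 (by decide +kernel) ?_
    refine jn 474 (by decide +kernel) ?_
    refine jn 481 (by decide +kernel) ?_
    refine jn 486 (by decide +kernel) ?_
    refine jn 495 (by decide +kernel) ?_
    refine jn 499 (by decide +kernel) ?_
    refine jn 506 (by decide +kernel) ?_
    refine jn 507 (by decide +kernel) ?_
    refine jn 508 (by decide +kernel) ?_
    refine jn 515 (by decide +kernel) ?_
    refine jn 521 (by decide +kernel) ?_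
    refine jn 532 (by decide +kernel) ?_
    refine jn 539 (by decide +kernel) ?_
    refine jn 540 (by decide +kernel) ?_
    refine jn 550 (by decide +kernel) ?_
    refine jn 554 (by decide +kernel) ?_
    refine jn 565 (by decide +kernel) ?_
    refine jn 572 (by decide +kernel) ?_
    refine jn 573 (by decide +kernel) ?_
    refine jn 583 (by decide +kernel) ?_
    refine jn 586 (by decide +kernel) ?_
    refine jn 599 (by decide +kernel) ?_
    refine jn 605 (by decide +kernel) ?_
    refine jn 607 (by decide +kernel) ?_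
    refine jn 615 (by decide +kernel) ?_
    refine jn 618 (by decide +kernel) ?_
    refine jn 625 (by decide +kernel) ?_
    refine jn 631 (by decide +kernel) ?_
    refine jn 639 (by decide +kernel) ?_
    refine jn 641 (by decide +kernel) ?_
    refine jn 647 (by decide +kernel) ?_
    refine jn 649 (by decide +kernel) ?_
    refine jn 657 (by decide +kernel) ?_
    refine jn 669 (by decide +kernel) ?_
    refine jn 675 (by decide +kernel) ?_
    refine jn 685 (by decide +kernel) ?_
    refine jn 700 (by decide +kernel) ?_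
    refine jn 713 (by decide +kernel) ?_
    refine jn 720 (by decide +kernel) ?_
    refine jn 728 (by decide +kernel) ?_
    refine jn 738 (by decide +kernel) ?_
    refine jn 746 (by decide +kernel) ?_
    refine jn 754 (by decide +kernel) ?_
    refine jn 765 (by decide +kernel) ?_
    refine jn 773 (by decide +kernel) ?_
    refine jn 790 (by decide +kernel) ?_
    refine jn 799 (by decide +kernel) ?_
    refine jn 811 (by decide +kernel) ?_
    refine jn 825 (by decide +kernel) ?_
    refine jn 839 (by decide +kernel) ?_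
    refine jn 851 (by decide +kernel) ?_
    refine jn 863 (by decide +kernel) ?_
    refine jn 878 (by decide +kernel) ?_
    refine jn 895 (by decide +kernel) ?_
    refine jn 903 (by decide +kernel) ?_
    refine jn 957 (by decide +kernel) ?_
    refine jn 958 (by decide +kernel) ?_
    refine jn 963 (by decide +kernel) ?_
    refine jn 978 (by decide +kernel) ?_
    refine jn 985 (by decide +kernel) ?_
    refine jn 993 (by decide +kernel) ?_
    refine jn 997 (by decide +kernel) ?_
    refine jn 1006 (by decide +kernel) ?_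
    refine jn 1007 (by decide +kernel) ?_
    refine jn 1027 (by decide +kernel) ?_
    refine jn 1041 (by decide +kernel) ?_
    refine jn 1062 (by decide +kernel) ?_
    refine jn 1063 (by decide +kernel) ?_
    refine jn 1074 (by decide +kernel) ?_
    refine jn 1078 (by decide +kernel) ?_
    refine jn 1083 (by decide +kernel) ?_
    refine jn 1095 (by decide +kernel) ?_
    refine jn 1107 (by decide +kernel) ?_
    refine jn 1111 (by decide +kernel) ?_
    refine jn 1122 (by decide +kernel) ?_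
    refine jn 1138 (by decide +kernel) ?_
    refine jn 1149 (by decide +kernel) ?_
    refine jn 1158 (by decide +kernel) ?_
    refine jn 1170 (by decide +kernel) ?_
    refine jn 1182 (by decide +kernel) ?_
    refine jn 1197 (by decide +kernel) ?_
    refine jn 1213 (by decide +kernel) ?_
    refine jn 1262 (by decide +kernel) ?_
    refine jn 1271 (by decide +kernel) ?_
    refine jn 1274 (by decide +kernel) ?_
    refine jn 1275 (by decide +kernel) ?_
    refine jn 1298 (by decide +kernel) ?_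
    refine jn 1313 (by decide +kernel) ?_
    refine jn 1314 (by decide +kernel) ?_
    refine jn 1325 (by decide +kernel) ?_
    refine jn 1349 (by decide +kernel) ?_
    refine jn 1358 (by decide +kernel) ?_
    refine jn 1361 (by decide +kernel) ?_
    refine jn 1377 (by decide +kernel) ?_
    refine jn 1386 (by decide +kernel) ?_
    refine jn 1389 (by decide +kernel) ?_
    refine jn 1397 (by decide +kernel) ?_
    refine jn 1410 (by decide +kernel) ?_
    refine jn 1431 (by decide +kernel) ?_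
    refine jn 1437 (by decide +kernel) ?_
    refine jn 1457 (by decide +kernel) ?_
    refine jn 1470 (by decide +kernel) ?_
    refine jn 1729 (by decide +kernel) ?_
    refine jn 1988 (by decide +kernel) ?_
    refine jn 2247 (by decide +kernel) ?_
    refine jn 2506 (by decide +kernel) ?_
    refine jn 2984 (by decide +kernel) ?_
    exact je (by decide +kernel)
  · refine fin 240 14417 T111_1 ?_
    refine jn 10 (by decide +kernel) ?_
    refine jn 23 (by decide +kernel) ?_
    refine jn 36 (by decide +kernel) ?_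
    refine jn 50 (by decide +kernel) ?_
    refine jn 63 (by decide +kernel) ?_
    refine jn 75 (by decide +kernel) ?_
    refine jn 85 (by decide +kernel) ?_
    refine jn 99 (by decide +kernel) ?_
    refine jn 108 (by decide +kernel) ?_
    refine jn 118 (by decide +kernel) ?_
    refine jn 129 (by decide +kernel) ?_
    refine jn 142 (by decide +kernel) ?_
    refine jn 152 (by decide +kernel) ?_
    refine jn 164 (by decide +kernel) ?_
    refine jn 173 (by decide +kernel) ?_
    refine jn 182 (by decide +kernel) ?_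
    refine jn 193 (by decide +kernel) ?_
    refine jn 205 (by decide +kernel) ?_
    refine jn 214 (by decide +kernel) ?_
    refine jn 229 (by decide +kernel) ?_
    refine jn 231 (by decide +kernel) ?_
    refine jn 235 (by decide +kernel) ?_
    refine jn 250 (by decide +kernel) ?_
    refine jn 260 (by decide +kernel) ?_
    refine jn 268 (by decide +kernel) ?_
    refine jn 279 (by decide +kernel) ?_
    refine jn 289 (by decide +kernel) ?_
    refine jn 306 (by decide +kernel) ?_
    refine jn 317 (by decide +kernel) ?_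
    refine jn 334 (by decide +kernel) ?_
    refine jn 342 (by decide +kernel) ?_
    refine jn 346 (by decide +kernel) ?_
    refine jn 354 (by decide +kernel) ?_
    refine jn 370 (by decide +kernel) ?_
    refine jn 380 (by decide +kernel) ?_
    refine jn 391 (by decide +kernel) ?_
    refine jn 398 (by decide +kernel) ?_
    refine jn 402 (by decide +kernel) ?_
    refine jn 420 (by decide +kernel) ?_
    refine jn 430 (by decide +kernel) ?_
    refine jn 447 (by decide +kernel) ?_
    refine jn 462 (by decide +kernel) ?_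
    refine jn 473 (by decide +kernel) ?_
    refine jn 482 (by decide +kernel) ?_
    refine jn 517 (by decide +kernel) ?_
    refine jn 565 (by decide +kernel) ?_
    refine jn 647 (by decide +kernel) ?_
    refine jn 703 (by decide +kernel) ?_
    refine jn 704 (by decide +kernel) ?_
    refine jn 707 (by decide +kernel) ?_
    refine jn 710 (by decide +kernel) ?_
    refine jn 722 (by decide +kernel) ?_
    refine jn 725 (by decide +kernel) ?_
    refine jn 731 (by decide +kernel) ?_
    refine jn 739 (by decide +kernel) ?_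
    refine jn 743 (by decide +kernel) ?_
    refine jn 748 (by decide +kernel) ?_
    refine jn 749 (by decide +kernel) ?_
    refine jn 752 (by decide +kernel) ?_
    refine jn 753 (by decide +kernel) ?_
    refine jn 766 (by decide +kernel) ?_
    refine jn 772 (by decide +kernel) ?_
    refine jn 773 (by decide +kernel) ?_
    refine jn 778 (by decide +kernel) ?_
    refine jn 790 (by decide +kernel) ?_
    refine jn 796 (by decide +kernel) ?_
    refine jn 797 (by decide +kernel) ?_
    refine jn 805 (by decide +kernel) ?_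
    refine jn 808 (by decide +kernel) ?_
    refine jn 809 (by decide +kernel) ?_
    refine jn 812 (by decide +kernel) ?_
    refine jn 814 (by decide +kernel) ?_
    refine jn 817 (by decide +kernel) ?_
    refine jn 823 (by decide +kernel) ?_
    refine jn 827 (by decide +kernel) ?_
    refine jn 836 (by decide +kernel) ?_
    refine jn 841 (by decide +kernel) ?_
    refine jn 851 (by decide +kernel) ?_
    refine jn 854 (by decide +kernel) ?_
    refine jn 857 (by decide +kernel) ?_
    refine jn 860 (by decide +kernel) ?_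
    refine jn 862 (by decide +kernel) ?_
    refine jn 866 (by decide +kernel) ?_
    refine jn 881 (by decide +kernel) ?_
    refine jn 889 (by decide +kernel) ?_
    refine jn 895 (by decide +kernel) ?_
    refine jn 904 (by decide +kernel) ?_
    refine jn 914 (by decide +kernel) ?_
    refine jn 925 (by decide +kernel) ?_
    refine jn 928 (by decide +kernel) ?_
    refine jn 935 (by decide +kernel) ?_
    refine jn 946 (by decide +kernel) ?_
    refine jn 952 (by decide +kernel) ?_
    refine jn 959 (by decide +kernel) ?_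
    refine jn 964 (by decide +kernel) ?_
    refine jn 976 (by decide +kernel) ?_
    refine jn 980 (by decide +kernel) ?_
    refine jn 986 (by decide +kernel) ?_
    refine jn 994 (by decide +kernel) ?_
    refine jn 998 (by decide +kernel) ?_
    refine jn 1003 (by decide +kernel) ?_
    refine jn 1007 (by decide +kernel) ?_
    refine jn 1008 (by decide +kernel) ?_
    refine jn 1027 (by decide +kernel) ?_
    refine jn 1030 (by decide +kernel) ?_
    refine jn 1042 (by decide +kernel) ?_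
    refine jn 1051 (by decide +kernel) ?_
    refine jn 1055 (by decide +kernel) ?_
    refine jn 1063 (by decide +kernel) ?_
    refine jn 1066 (by decide +kernel) ?_
    refine jn 1067 (by decide +kernel) ?_
    refine jn 1069 (by decide +kernel) ?_
    refine jn 1075 (by decide +kernel) ?_
    refine jn 1081 (by decide +kernel) ?_
    refine jn 1093 (by decide +kernel) ?_
    refine jn 1106 (by decide +kernel) ?_
    refine jn 1111 (by decide +kernel) ?_
    refine jn 1115 (by decide +kernel) ?_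
    refine jn 1117 (by decide +kernel) ?_
    refine jn 1123 (by decide +kernel) ?_
    refine jn 1139 (by decide +kernel) ?_
    refine jn 1148 (by decide +kernel) ?_
    refine jn 1159 (by decide +kernel) ?_
    refine jn 1171 (by decide +kernel) ?_
    refine jn 1183 (by decide +kernel) ?_
    refine jn 1190 (by decide +kernel) ?_
    refine jn 1201 (by decide +kernel) ?_
    refine jn 1207 (by decide +kernel) ?_
    refine jn 1286 (by decide +kernel) ?_
    refine jn 1420 (by decide +kernel) ?_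
    refine jn 1427 (by decide +kernel) ?_
    refine jn 1430 (by decide +kernel) ?_
    refine jn 1438 (by decide +kernel) ?_
    refine jn 1441 (by decide +kernel) ?_
    refine jn 1442 (by decide +kernel) ?_
    refine jn 1463 (by decide +kernel) ?_
    refine jn 1469 (by decide +kernel) ?_
    refine jn 1471 (by decide +kernel) ?_
    refine jn 1481 (by decide +kernel) ?_
    refine jn 1482 (by decide +kernel) ?_
    refine jn 1495 (by decide +kernel) ?_
    refine jn 1501 (by decide +kernel) ?_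
    refine jn 1507 (by decide +kernel) ?_
    refine jn 1516 (by decide +kernel) ?_
    refine jn 1517 (by decide +kernel) ?_
    refine jn 1520 (by decide +kernel) ?_
    refine jn 1525 (by decide +kernel) ?_
    refine jn 1528 (by decide +kernel) ?_
    refine jn 1543 (by decide +kernel) ?_
    refine jn 1550 (by decide +kernel) ?_
    refine jn 1553 (by decide +kernel) ?_
    refine jn 1556 (by decide +kernel) ?_
    refine jn 1564 (by decide +kernel) ?_
    refine jn 1567 (by decide +kernel) ?_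
    refine jn 1574 (by decide +kernel) ?_
    refine jn 1585 (by decide +kernel) ?_
    refine jn 1598 (by decide +kernel) ?_
    refine jn 1604 (by decide +kernel) ?_
    refine jn 1624 (by decide +kernel) ?_
    refine jn 1630 (by decide +kernel) ?_
    refine jn 1640 (by decide +kernel) ?_
    refine jn 1643 (by decide +kernel) ?_
    refine jn 1647 (by decide +kernel) ?_
    refine jn 1653 (by decide +kernel) ?_
    refine jn 1655 (by decide +kernel) ?_
    refine jn 1656 (by decide +kernel) ?_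
    refine jn 1677 (by decide +kernel) ?_
    refine jn 1683 (by decide +kernel) ?_
    refine jn 1692 (by decide +kernel) ?_
    refine jn 1695 (by decide +kernel) ?_
    refine jn 1697 (by decide +kernel) ?_
    refine jn 1709 (by decide +kernel) ?_
    refine jn 1715 (by decide +kernel) ?_
    refine jn 1721 (by decide +kernel) ?_
    refine jn 1730 (by decide +kernel) ?_
    refine jn 1734 (by decide +kernel) ?_
    refine jn 1739 (by decide +kernel) ?_
    refine jn 1745 (by decide +kernel) ?_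
    refine jn 1758 (by decide +kernel) ?_
    refine jn 1767 (by decide +kernel) ?_
    refine jn 1772 (by decide +kernel) ?_
    refine jn 1779 (by decide +kernel) ?_
    refine jn 1782 (by decide +kernel) ?_
    refine jn 1791 (by decide +kernel) ?_
    refine jn 1809 (by decide +kernel) ?_
    refine jn 1815 (by decide +kernel) ?_
    refine jn 1835 (by decide +kernel) ?_
    refine jn 1839 (by decide +kernel) ?_
    refine jn 1852 (by decide +kernel) ?_
    refine jn 1869 (by decide +kernel) ?_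
    refine jn 1894 (by decide +kernel) ?_
    refine jn 1921 (by decide +kernel) ?_
    refine jn 1951 (by decide +kernel) ?_
    refine jn 1975 (by decide +kernel) ?_
    refine jn 2007 (by decide +kernel) ?_
    refine jn 2029 (by decide +kernel) ?_
    refine jn 2070 (by decide +kernel) ?_
    refine jn 2102 (by decide +kernel) ?_
    refine jn 2131 (by decide +kernel) ?_
    refine jn 2154 (by decide +kernel) ?_
    refine jn 2162 (by decide +kernel) ?_
    refine jn 2169 (by decide +kernel) ?_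
    refine jn 2186 (by decide +kernel) ?_
    refine jn 2205 (by decide +kernel) ?_
    refine jn 2223 (by decide +kernel) ?_
    refine jn 2246 (by decide +kernel) ?_
    refine jn 2262 (by decide +kernel) ?_
    refine jn 2273 (by decide +kernel) ?_
    refine jn 2289 (by decide +kernel) ?_
    refine jn 2307 (by decide +kernel) ?_
    refine jn 2324 (by decide +kernel) ?_
    refine jn 2355 (by decide +kernel) ?_
    refine jn 2384 (by decide +kernel) ?_
    refine jn 2405 (by decide +kernel) ?_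
    refine jn 2414 (by decide +kernel) ?_
    refine jn 2427 (by decide +kernel) ?_
    refine jn 2438 (by decide +kernel) ?_
    refine jn 2464 (by decide +kernel) ?_
    refine jn 2481 (by decide +kernel) ?_
    refine jn 2508 (by decide +kernel) ?_
    refine jn 2545 (by decide +kernel) ?_
    refine jn 2572 (by decide +kernel) ?_
    refine jn 2602 (by decide +kernel) ?_
    refine jn 2635 (by decide +kernel) ?_
    refine jn 2662 (by decide +kernel) ?_
    refine jn 2685 (by decide +kernel) ?_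
    refine jn 2719 (by decide +kernel) ?_
    refine jn 2746 (by decide +kernel) ?_
    refine jn 2782 (by decide +kernel) ?_
    refine jn 2815 (by decide +kernel) ?_
    refine jn 2865 (by decide +kernel) ?_
    refine jn 2891 (by decide +kernel) ?_
    refine jn 2900 (by decide +kernel) ?_
    refine jn 2918 (by decide +kernel) ?_
    refine jn 2936 (by decide +kernel) ?_
    refine jn 2967 (by decide +kernel) ?_
    refine jn 2979 (by decide +kernel) ?_
    refine jn 2999 (by decide +kernel) ?_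
    refine jn 3021 (by decide +kernel) ?_
    refine jn 3039 (by decide +kernel) ?_
    refine jn 3057 (by decide +kernel) ?_
    refine jn 3078 (by decide +kernel) ?_
    refine jn 3087 (by decide +kernel) ?_
    refine jn 3088 (by decide +kernel) ?_
    refine jn 3114 (by decide +kernel) ?_
    refine jn 3143 (by decide +kernel) ?_
    refine jn 3158 (by decide +kernel) ?_
    refine jn 3173 (by decide +kernel) ?_
    refine jn 3207 (by decide +kernel) ?_
    refine jn 3233 (by decide +kernel) ?_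
    refine jn 3261 (by decide +kernel) ?_
    refine jn 3290 (by decide +kernel) ?_
    refine jn 3315 (by decide +kernel) ?_
    refine jn 3339 (by decide +kernel) ?_
    refine jn 3373 (by decide +kernel) ?_
    refine jn 3399 (by decide +kernel) ?_
    refine jn 3435 (by decide +kernel) ?_
    refine jn 3480 (by decide +kernel) ?_
    refine jn 3511 (by decide +kernel) ?_
    refine jn 3550 (by decide +kernel) ?_
    refine jn 3586 (by decide +kernel) ?_
    refine jn 3625 (by decide +kernel) ?_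
    refine jn 3663 (by decide +kernel) ?_
    refine jn 3699 (by decide +kernel) ?_
    refine jn 3745 (by decide +kernel) ?_
    refine jn 3793 (by decide +kernel) ?_
    refine jn 3826 (by decide +kernel) ?_
    refine jn 3867 (by decide +kernel) ?_
    refine jn 3904 (by decide +kernel) ?_
    refine jn 3943 (by decide +kernel) ?_
    refine jn 3972 (by decide +kernel) ?_
    refine jn 4018 (by decide +kernel) ?_
    refine jn 4059 (by decide +kernel) ?_
    refine jn 4104 (by decide +kernel) ?_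
    refine jn 4150 (by decide +kernel) ?_
    refine jn 4189 (by decide +kernel) ?_
    refine jn 4245 (by decide +kernel) ?_
    refine jn 4288 (by decide +kernel) ?_
    refine jn 4326 (by decide +kernel) ?_
    refine jn 4365 (by decide +kernel) ?_
    refine jn 4410 (by decide +kernel) ?_
    refine jn 4450 (by decide +kernel) ?_
    refine jn 4494 (by decide +kernel) ?_
    refine jn 4527 (by decide +kernel) ?_
    refine jn 4576 (by decide +kernel) ?_
    refine jn 4626 (by decide +kernel) ?_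
    refine jn 4672 (by decide +kernel) ?_
    refine jn 4725 (by decide +kernel) ?_
    refine jn 4762 (by decide +kernel) ?_
    refine jn 4938 (by decide +kernel) ?_
    refine jn 4983 (by decide +kernel) ?_
    refine jn 5039 (by decide +kernel) ?_
    refine jn 5088 (by decide +kernel) ?_
    refine jn 5148 (by decide +kernel) ?_
    refine jn 5210 (by decide +kernel) ?_
    refine jn 5270 (by decide +kernel) ?_
    refine jn 5319 (by decide +kernel) ?_
    refine jn 5385 (by decide +kernel) ?_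
    refine jn 5433 (by decide +kernel) ?_
    refine jn 5492 (by decide +kernel) ?_
    refine jn 5565 (by decide +kernel) ?_
    refine jn 5628 (by decide +kernel) ?_
    refine jn 5675 (by decide +kernel) ?_
    refine jn 5742 (by decide +kernel) ?_
    refine jn 5804 (by decide +kernel) ?_
    refine jn 5882 (by decide +kernel) ?_
    refine jn 5942 (by decide +kernel) ?_
    refine jn 5996 (by decide +kernel) ?_
    refine jn 6045 (by decide +kernel) ?_
    refine jn 6107 (by decide +kernel) ?_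
    refine jn 6349 (by decide +kernel) ?_
    refine jn 6561 (by decide +kernel) ?_
    refine jn 6701 (by decide +kernel) ?_
    refine jn 6785 (by decide +kernel) ?_
    refine jn 6860 (by decide +kernel) ?_
    refine jn 6925 (by decide +kernel) ?_
    refine jn 7000 (by decide +kernel) ?_
    refine jn 7073 (by decide +kernel) ?_
    refine jn 7153 (by decide +kernel) ?_
    refine jn 7226 (by decide +kernel) ?_
    refine jn 7304 (by decide +kernel) ?_
    refine jn 7390 (by decide +kernel) ?_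
    refine jn 7480 (by decide +kernel) ?_
    refine jn 7541 (by decide +kernel) ?_
    refine jn 7616 (by decide +kernel) ?_
    refine jn 7694 (by decide +kernel) ?_
    refine jn 7772 (by decide +kernel) ?_
    refine jn 7852 (by decide +kernel) ?_
    refine jn 7939 (by decide +kernel) ?_
    refine jn 8002 (by decide +kernel) ?_
    refine jn 8087 (by decide +kernel) ?_
    refine jn 8165 (by decide +kernel) ?_
    refine jn 8245 (by decide +kernel) ?_
    refine jn 8342 (by decide +kernel) ?_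
    refine jn 8434 (by decide +kernel) ?_
    refine jn 8556 (by decide +kernel) ?_
    refine jn 8891 (by decide +kernel) ?_
    refine jn 9042 (by decide +kernel) ?_
    refine jn 9184 (by decide +kernel) ?_
    refine jn 9280 (by decide +kernel) ?_
    refine jn 9368 (by decide +kernel) ?_
    refine jn 9452 (by decide +kernel) ?_
    refine jn 9534 (by decide +kernel) ?_
    refine jn 9600 (by decide +kernel) ?_
    refine jn 9662 (by decide +kernel) ?_
    refine jn 9718 (by decide +kernel) ?_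
    refine jn 9767 (by decide +kernel) ?_
    refine jn 10071 (by decide +kernel) ?_
    refine jn 10236 (by decide +kernel) ?_
    refine jn 10340 (by decide +kernel) ?_
    refine jn 10432 (by decide +kernel) ?_
    refine jn 10509 (by decide +kernel) ?_
    refine jn 10581 (by decide +kernel) ?_
    refine jn 10644 (by decide +kernel) ?_
    refine jn 10711 (by decide +kernel) ?_
    refine jn 10761 (by decide +kernel) ?_
    refine jn 10817 (by decide +kernel) ?_
    refine jn 10867 (by decide +kernel) ?_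
    refine jn 10906 (by decide +kernel) ?_
    refine jn 10953 (by decide +kernel) ?_
    refine jn 10998 (by decide +kernel) ?_
    refine jn 11043 (by decide +kernel) ?_
    refine jn 11367 (by decide +kernel) ?_
    refine jn 11585 (by decide +kernel) ?_
    refine jn 11715 (by decide +kernel) ?_
    refine jn 11834 (by decide +kernel) ?_
    refine jn 11937 (by decide +kernel) ?_
    refine jn 12024 (by decide +kernel) ?_
    refine jn 12111 (by decide +kernel) ?_
    refine jn 12187 (by decide +kernel) ?_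
    refine jn 12260 (by decide +kernel) ?_
    refine jn 12322 (by decide +kernel) ?_
    refine jn 12614 (by decide +kernel) ?_
    refine jn 12939 (by decide +kernel) ?_
    refine jn 13101 (by decide +kernel) ?_
    refine jn 13258 (by decide +kernel) ?_
    refine jn 13385 (by decide +kernel) ?_
    refine jn 13853 (by decide +kernel) ?_
    refine jn 14180 (by decide +kernel) ?_
    refine jn 14356 (by decide +kernel) ?_
    exact je (by decide +kernel)
  · refine fin 72 27641 T111_2 ?_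
    refine jn 6 (by decide +kernel) ?_
    refine jn 11 (by decide +kernel) ?_
    refine jn 23 (by decide +kernel) ?_
    refine jn 35 (by decide +kernel) ?_
    refine jn 49 (by decide +kernel) ?_
    refine jn 58 (by decide +kernel) ?_
    refine jn 72 (by decide +kernel) ?_
    refine jn 73 (by decide +kernel) ?_
    refine jn 74 (by decide +kernel) ?_
    refine jn 75 (by decide +kernel) ?_
    refine jn 76 (by decide +kernel) ?_
    refine jn 77 (by decide +kernel) ?_
    refine jn 78 (by decide +kernel) ?_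
    refine jn 79 (by decide +kernel) ?_
    refine jn 80 (by decide +kernel) ?_
    refine jn 81 (by decide +kernel) ?_
    refine jn 82 (by decide +kernel) ?_
    refine jn 83 (by decide +kernel) ?_
    refine jn 96 (by decide +kernel) ?_
    refine jn 109 (by decide +kernel) ?_
    refine jn 114 (by decide +kernel) ?_
    refine jn 118 (by decide +kernel) ?_
    refine jn 133 (by decide +kernel) ?_
    refine jn 140 (by decide +kernel) ?_
    refine jn 157 (by decide +kernel) ?_
    refine jn 171 (by decide +kernel) ?_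
    refine jn 178 (by decide +kernel) ?_
    refine jn 196 (by decide +kernel) ?_
    refine jn 210 (by decide +kernel) ?_
    refine jn 221 (by decide +kernel) ?_
    refine jn 232 (by decide +kernel) ?_
    refine jn 239 (by decide +kernel) ?_
    refine jn 241 (by decide +kernel) ?_
    refine jn 243 (by decide +kernel) ?_
    refine jn 244 (by decide +kernel) ?_
    refine jn 245 (by decide +kernel) ?_
    refine jn 246 (by decide +kernel) ?_
    refine jn 258 (by decide +kernel) ?_
    refine jn 261 (by decide +kernel) ?_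
    refine jn 263 (by decide +kernel) ?_
    refine jn 265 (by decide +kernel) ?_
    refine jn 266 (by decide +kernel) ?_
    refine jn 283 (by decide +kernel) ?_
    refine jn 299 (by decide +kernel) ?_
    refine jn 313 (by decide +kernel) ?_
    refine jn 322 (by decide +kernel) ?_
    refine jn 323 (by decide +kernel) ?_
    refine jn 325 (by decide +kernel) ?_
    refine jn 329 (by decide +kernel) ?_
    refine jn 339 (by decide +kernel) ?_
    refine jn 354 (by decide +kernel) ?_
    refine jn 370 (by decide +kernel) ?_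
    refine jn 385 (by decide +kernel) ?_
    refine jn 398 (by decide +kernel) ?_
    refine jn 411 (by decide +kernel) ?_
    refine jn 421 (by decide +kernel) ?_
    refine jn 433 (by decide +kernel) ?_
    refine jn 547 (by decide +kernel) ?_
    refine jn 555 (by decide +kernel) ?_
    refine jn 567 (by decide +kernel) ?_
    refine jn 591 (by decide +kernel) ?_
    refine jn 615 (by decide +kernel) ?_
    refine jn 631 (by decide +kernel) ?_
    refine jn 632 (by decide +kernel) ?_
    refine jn 661 (by decide +kernel) ?_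
    refine jn 673 (by decide +kernel) ?_
    refine jn 697 (by decide +kernel) ?_
    refine jn 733 (by decide +kernel) ?_
    refine jn 737 (by decide +kernel) ?_
    refine jn 738 (by decide +kernel) ?_
    refine jn 837 (by decide +kernel) ?_
    refine jn 916 (by decide +kernel) ?_
    refine jn 928 (by decide +kernel) ?_
    refine jn 936 (by decide +kernel) ?_
    refine jn 972 (by decide +kernel) ?_
    refine jn 988 (by decide +kernel) ?_
    refine jn 1024 (by decide +kernel) ?_
    refine jn 1036 (by decide +kernel) ?_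
    refine jn 1037 (by decide +kernel) ?_
    refine jn 1077 (by decide +kernel) ?_
    refine jn 1097 (by decide +kernel) ?_
    refine jn 1133 (by decide +kernel) ?_
    refine jn 1157 (by decide +kernel) ?_
    refine jn 1185 (by decide +kernel) ?_
    refine jn 1193 (by decide +kernel) ?_
    refine jn 1265 (by decide +kernel) ?_
    refine jn 1425 (by decide +kernel) ?_
    refine jn 1464 (by decide +kernel) ?_
    refine jn 1476 (by decide +kernel) ?_
    refine jn 1500 (by decide +kernel) ?_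
    refine jn 1536 (by decide +kernel) ?_
    refine jn 1580 (by decide +kernel) ?_
    refine jn 1592 (by decide +kernel) ?_
    refine jn 1620 (by decide +kernel) ?_
    refine jn 1649 (by decide +kernel) ?_
    refine jn 1677 (by decide +kernel) ?_
    refine jn 1689 (by decide +kernel) ?_
    refine jn 1713 (by decide +kernel) ?_
    refine jn 1749 (by decide +kernel) ?_
    refine jn 1793 (by decide +kernel) ?_
    refine jn 1805 (by decide +kernel) ?_
    refine jn 1833 (by decide +kernel) ?_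
    refine jn 1881 (by decide +kernel) ?_
    refine jn 1969 (by decide +kernel) ?_
    refine jn 2073 (by decide +kernel) ?_
    refine jn 2169 (by decide +kernel) ?_
    refine jn 2208 (by decide +kernel) ?_
    refine jn 2232 (by decide +kernel) ?_
    refine jn 2268 (by decide +kernel) ?_
    refine jn 2316 (by decide +kernel) ?_
    refine jn 2360 (by decide +kernel) ?_
    refine jn 2408 (by decide +kernel) ?_
    refine jn 2457 (by decide +kernel) ?_
    refine jn 2556 (by decide +kernel) ?_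
    refine jn 2607 (by decide +kernel) ?_
    refine jn 2712 (by decide +kernel) ?_
    refine jn 2812 (by decide +kernel) ?_
    refine jn 2889 (by decide +kernel) ?_
    refine jn 2961 (by decide +kernel) ?_
    refine jn 2997 (by decide +kernel) ?_
    refine jn 2998 (by decide +kernel) ?_
    refine jn 3065 (by decide +kernel) ?_
    refine jn 3125 (by decide +kernel) ?_
    refine jn 3177 (by decide +kernel) ?_
    refine jn 3237 (by decide +kernel) ?_
    refine jn 3305 (by decide +kernel) ?_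
    refine jn 3393 (by decide +kernel) ?_
    refine jn 3505 (by decide +kernel) ?_
    refine jn 3609 (by decide +kernel) ?_
    refine jn 3729 (by decide +kernel) ?_
    refine jn 3865 (by decide +kernel) ?_
    refine jn 3980 (by decide +kernel) ?_
    refine jn 4100 (by decide +kernel) ?_
    refine jn 4104 (by decide +kernel) ?_
    refine jn 4112 (by decide +kernel) ?_
    refine jn 4212 (by decide +kernel) ?_
    refine jn 4320 (by decide +kernel) ?_
    refine jn 4412 (by decide +kernel) ?_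
    refine jn 4498 (by decide +kernel) ?_
    refine jn 4576 (by decide +kernel) ?_
    refine jn 4577 (by decide +kernel) ?_
    refine jn 4668 (by decide +kernel) ?_
    refine jn 4752 (by decide +kernel) ?_
    refine jn 4788 (by decide +kernel) ?_
    refine jn 4856 (by decide +kernel) ?_
    refine jn 4896 (by decide +kernel) ?_
    refine jn 4992 (by decide +kernel) ?_
    refine jn 5052 (by decide +kernel) ?_
    refine jn 5124 (by decide +kernel) ?_
    refine jn 5208 (by decide +kernel) ?_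
    refine jn 5284 (by decide +kernel) ?_
    refine jn 5356 (by decide +kernel) ?_
    refine jn 5475 (by decide +kernel) ?_
    refine jn 5595 (by decide +kernel) ?_
    refine jn 5767 (by decide +kernel) ?_
    refine jn 5875 (by decide +kernel) ?_
    refine jn 6007 (by decide +kernel) ?_
    refine jn 6159 (by decide +kernel) ?_
    refine jn 6339 (by decide +kernel) ?_
    refine jn 6487 (by decide +kernel) ?_
    refine jn 6642 (by decide +kernel) ?_
    refine jn 6802 (by decide +kernel) ?_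
    refine jn 6954 (by decide +kernel) ?_
    refine jn 7138 (by decide +kernel) ?_
    refine jn 7302 (by decide +kernel) ?_
    refine jn 7434 (by decide +kernel) ?_
    refine jn 7578 (by decide +kernel) ?_
    refine jn 7758 (by decide +kernel) ?_
    refine jn 7902 (by decide +kernel) ?_
    refine jn 8082 (by decide +kernel) ?_
    refine jn 8250 (by decide +kernel) ?_
    refine jn 8696 (by decide +kernel) ?_
    refine jn 8948 (by decide +kernel) ?_
    refine jn 9188 (by decide +kernel) ?_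
    refine jn 9508 (by decide +kernel) ?_
    refine jn 9768 (by decide +kernel) ?_
    refine jn 10008 (by decide +kernel) ?_
    refine jn 10308 (by decide +kernel) ?_
    refine jn 10584 (by decide +kernel) ?_
    refine jn 10836 (by decide +kernel) ?_
    refine jn 11208 (by decide +kernel) ?_
    refine jn 11586 (by decide +kernel) ?_
    refine jn 11894 (by decide +kernel) ?_
    refine jn 12250 (by decide +kernel) ?_
    refine jn 12542 (by decide +kernel) ?_
    refine jn 12906 (by decide +kernel) ?_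
    refine jn 13190 (by decide +kernel) ?_
    refine jn 13514 (by decide +kernel) ?_
    refine jn 13872 (by decide +kernel) ?_
    refine jn 14182 (by decide +kernel) ?_
    refine jn 14522 (by decide +kernel) ?_
    refine jn 14826 (by decide +kernel) ?_
    refine jn 15212 (by decide +kernel) ?_
    refine jn 15576 (by decide +kernel) ?_
    refine jn 15940 (by decide +kernel) ?_
    refine jn 16268 (by decide +kernel) ?_
    refine jn 16632 (by decide +kernel) ?_
    refine jn 16968 (by decide +kernel) ?_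
    refine jn 17340 (by decide +kernel) ?_
    refine jn 17676 (by decide +kernel) ?_
    refine jn 18068 (by decide +kernel) ?_
    refine jn 18340 (by decide +kernel) ?_
    refine jn 18696 (by decide +kernel) ?_
    refine jn 19056 (by decide +kernel) ?_
    refine jn 19396 (by decide +kernel) ?_
    refine jn 19758 (by decide +kernel) ?_
    refine jn 20298 (by decide +kernel) ?_
    refine jn 20504 (by decide +kernel) ?_
    refine jn 20678 (by decide +kernel) ?_
    refine jn 20810 (by decide +kernel) ?_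
    refine jn 20912 (by decide +kernel) ?_
    refine jn 21016 (by decide +kernel) ?_
    refine jn 21102 (by decide +kernel) ?_
    refine jn 21190 (by decide +kernel) ?_
    refine jn 21267 (by decide +kernel) ?_
    refine jn 21340 (by decide +kernel) ?_
    refine jn 21403 (by decide +kernel) ?_
    refine jn 21469 (by decide +kernel) ?_
    refine jn 21521 (by decide +kernel) ?_
    refine jn 21576 (by decide +kernel) ?_
    refine jn 21631 (by decide +kernel) ?_
    refine jn 21683 (by decide +kernel) ?_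
    refine jn 21731 (by decide +kernel) ?_
    refine jn 21778 (by decide +kernel) ?_
    refine jn 22031 (by decide +kernel) ?_
    refine jn 22507 (by decide +kernel) ?_
    refine jn 22727 (by decide +kernel) ?_
    refine jn 22930 (by decide +kernel) ?_
    refine jn 23081 (by decide +kernel) ?_
    refine jn 23207 (by decide +kernel) ?_
    refine jn 23335 (by decide +kernel) ?_
    refine jn 23447 (by decide +kernel) ?_
    refine jn 23549 (by decide +kernel) ?_
    refine jn 23639 (by decide +kernel) ?_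
    refine jn 23730 (by decide +kernel) ?_
    refine jn 23809 (by decide +kernel) ?_
    refine jn 24245 (by decide +kernel) ?_
    refine jn 24713 (by decide +kernel) ?_
    refine jn 25008 (by decide +kernel) ?_
    refine jn 25217 (by decide +kernel) ?_
    refine jn 25373 (by decide +kernel) ?_
    refine jn 25781 (by decide +kernel) ?_
    refine jn 26410 (by decide +kernel) ?_
    refine jn 26770 (by decide +kernel) ?_
    refine jn 27063 (by decide +kernel) ?_
    exact je (by decide +kernel)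

end Pool.Agent.MP_2339ce_nt.NR
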