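import Pool.Agent.MP_2339ce_nt.Q2.NC.L6
import Pool.Agent.MP_2339ce_nt.Q2.NC.L10
import Pool.Agent.MP_2339ce_nt.Q2.CkI

/-! Block NR: runs. -/

set_option autoImplicit false
set_option maxRecDepth 100000

noncomputable section

namespace Pool.Agent.MP_2339ce_nt.NR

open Q2.Top

def T113_0 : Ph :=
  (.na 646 2 (.nx 645 3329023 (.nr 644 881745 (.nx 3 234 (.nx 2 233 (.nr 1 16 (.lg 0 false 1 41 41
  5 0 72) (.l1 .sk)) (.l1 .sk)) (.nr 571 185365 (.nx 535 1664512 (.nx 143 41287 (.lg 0 false 140
  101 107 16 0 720720) (.nr 534 155873 (.nr 213 942 (.lg 0 true 70 89 101 16 0 5040) (.nr 241 1724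
  (.lg 2 true 28 83 89 11 205856 1008) (.nx 533 1321124 (.nr 290 8193 (.nr 261 2898 (.lg 2 true 20
  83 89 11 89276 720) (.nx 289 1048577 (.lg 2 true 28 97 103 11 42153 55440) .out)) (.nx 532 832257
  (.nx 325 52017 (.lg 1 false 35 97 101 13 102635 27720) (.nx 360 65537 (.lg 1 false 35 97 101 13
  81463 27720) (.nr 531 110219 (.nr 388 26009 (.lg 2 false 28 97 103 11 11835 720720) (.nr 495
  92683 (.nr 459 77937 (.nr 423 55110 (.lg 2 false 35 89 101 13 22923 27720) (.nx 458 416129 (.lg 2
  true 35 89 101 13 32378 27720) .out)) (.nx 494 262145 (.lg 2 true 35 101 107 13 38485 720720)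
  .out)) (.nx 530 208065 (.lg 2 true 35 89 101 13 45749 27720) .out))) .out))) .out)) .out)))
  .out)) (.nr 570 154 (.lg 0 true 35 83 83 13 0 2520) .out)) (.nx 643 26009 (.nx 606 408 (.lg 0
  false 35 79 83 13 0 2520) (.nx 607 6501 .out (.nr 642 220437 (.lg 0 false 35 89 101 13 0 27720)
  .out))) .out))) .out) .out) (.nx 1107 3329023 (.nr 1106 1763489 (.nx 649 234 (.nx 648 233 (.nr
  647 29 (.lg 0 false 1 43 43 5 0 720) (.l1 .sk)) (.l1 .sk)) (.nx 1094 2642247 (.nx 1071 1321124
  (.nx 1057 1048577 (.nx 763 37576 (.nr 726 262145 (.lg 0 false 77 101 109 13 0 720720) (.nx 749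
  26007 (.nx 748 408 (.lg 0 false 22 83 83 11 0 1584) .out) (.nr 762 311745 (.lg 0 false 13 101 103
  9 0 720720) .out))) (.nr 1056 311745 (.nr 809 3446 (.nr 796 941 (.lg 0 true 33 89 97 13 0 7920)
  (.lg 2 true 13 97 101 9 129819 65520)) (.nx 1055 832257 (.nx 915 82572 (.nx 848 52017 (.lg 1
  false 39 101 107 13 225373 720720) (.nr 914 262145 (.nx 881 65537 (.lg 1 false 33 101 107 13
  136921 720720) (.lg 1 false 33 101 107 13 108675 720720)) .out)) (.nr 1054 220437 (.nr 926 12637
  (.lg 2 true 11 97 101 9 28137 55440) (.nx 992 165142 (.nx 959 116773 (.lg 1 false 33 101 107 13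
  72543 720720) (.lg 1 false 33 101 107 13 51297 720720)) (.nr 1053 155873 (.nr 1019 92683 (.nr
  1005 55110 (.lg 2 false 13 101 103 9 9097 720720) (.nx 1018 330282 (.lg 2 false 13 101 103 9
  15273 720720) .out)) (.nx 1052 262145 (.lg 2 false 33 101 107 13 25660 720720) .out)) .out)))
  .out)) .out)) .out)) (.nr 1070 257 (.lg 0 true 13 83 83 9 0 9360) .out)) (.nr 1093 154 (.lg 0
  true 22 83 83 11 0 1584) .out)) (.nr 1105 9 (.lg 0 true 11 67 67 9 0 1584) .out))) .out) .out))

def T113_1 : Ph :=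
  (.na 12428 11586 (.na 4360 2897 (.na 1456 1449 (.na 602 1024 (.nx 601 20644 (.nr 600 2097153 (.nr
  1 725 .s1 (.nx 300 2049 (.la (.ls 71 41 5793)) (.nr 599 262145 (.la (.lg 0 false 1 53 61 29 0))
  .out))) .out) .out) (.nx 1455 20644 (.nr 1454 2097153 (.nr 603 1024 .s1 (.nx 1028 3252 (.la (.ls
  71 41 10330)) (.nr 1453 131073 (.la (.lg 0 false 1 47 47 31 0)) .out))) .out) .out)) (.na 2658
  2048 (.nx 2657 13005 (.nr 2656 2097153 (.nr 1457 1449 .s1 (.nx 2056 3252 (.la (.ls 71 41 7301))
  (.nr 2655 16385 (.la (.lg 0 false 1 29 31 37 0)) .out))) .out) .out) (.nx 4359 13005 (.nr 4358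
  2097153 (.nr 2659 2048 .s1 (.nx 3508 3252 (.la (.ls 67 41 5166)) (.nr 4357 16385 (.la (.ls 29 53
  77422)) .out))) .out) .out))) (.na 7736 5793 (.na 5799 4096 (.nx 5798 4097 (.nr 5797 1048577 (.nr
  4361 2897 .s1 (.nx 4598 237 (.nx 4597 236 (.nr 4596 44542 (.lx (.lp 41 31 1025)) (.l1 .sk)) (.l1
  .sk)) (.la (.ls 61 41 5777)))) .out) .out) (.nx 7735 5162 (.nr 7734 1048577 (.nr 5800 4096 .s1
  (.nx 6037 237 (.nx 6036 236 (.nr 6035 62995 (.lx (.lp 41 37 1449)) (.l1 .sk)) (.l1 .sk)) (.la
  (.ls 53 41 6494)))) .out) .out)) (.na 10375 8192 (.nx 10374 2049 (.nr 10373 524289 (.nr 7737 5793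
  .s1 (.nx 7974 237 (.nx 7973 236 (.nr 7972 89083 (.lx (.lp 16 37 2049)) (.l1 .sk)) (.l1 .sk)) (.la
  (.ls 47 37 2049)))) .out) .out) (.nx 12427 2049 (.nr 12426 524289 (.nr 10376 8192 .s1 (.nx 11400
  1025 (.lx (.lp 47 41 2897)) (.nr 12425 262145 (.nx 11667 1292 (.lx (.lp 43 41 2897)) (.nr 12424
  131073 (.lx (.lp 41 41 2897)) .out)) .out))) .out) .out)))) (.na 20214 131072 (.na 16531 32768
  (.na 14479 16384 (.nx 14478 2049 (.nr 14477 131073 (.nr 12429 11586 .s1 (.lx (.lp 37 41 4097)))
  .out) .out) (.nx 16530 2049 (.nr 16529 262145 (.nr 14480 16384 .s1 (.nx 14803 324 (.lx (.lp 41 43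
  8193)) (.nr 16528 131073 (.lx (.lp 37 43 8193)) .out))) .out) .out)) (.na 18584 65536 (.nx 18583
  2049 (.nr 18582 524289 (.nr 16532 32768 .s1 (.nx 16855 324 (.lx (.lp 41 43 16385)) (.nr 18581
  262145 (.nx 17044 512 (.nr 17043 131073 (.lx (.lp 31 47 16385)) .out) (.lx (.lp 37 47 16385)))
  .out))) .out) .out) (.nx 20213 1627 (.nr 20212 524289 (.nr 18585 65536 .s1 (.nx 18908 324 (.lx
  (.lp 16 0 32769)) (.nr 20211 262145 (.lx (.lp 31 53 32769)) .out))) .out) .out))) (.na 22359
  524288 (.na 21844 262144 (.nx 21843 1627 (.nr 21842 524289 (.nr 20215 131072 .s1 (.nx 20727 513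
  (.lx (.lp 31 59 65537)) (.nr 21841 262145 (.lx (.lp 29 59 65537)) .out))) .out) .out) (.nx 22358
  513 (.nr 22357 1048577 (.nr 21845 262144 .s1 (.lx (.lp 16 0 131073))) .out) .out)) (.na 22361
  1048577 (.nx 22360 324 (.l1 .sk) .out) .out))))

def T113_2 : Ph :=
  (.na 704 146 (.na 427 78 (.na 247 50 (.na 142 31 (.na 53 26 (.na 28 23 (.nx 27 1321124 (.nr 26
  1048577 (.nr 1 21 .s1 (.nx 15 10323 (.nx 3 65 (.nr 2 132 (.l1 (.ls 29 29 195)) (.l1 .sk)) (.nx 4
  66 (.l1 .sk) (.nx 5 205 (.l1 (.ls 89 41 1715)) (.nr 14 623489 (.nx 6 324 (.l1 (.ls 83 43 2864))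
  (.nr 13 220437 (.lg 0 false 7 89 97 19 0 720720) .out)) .out)))) (.nr 25 55110 (.nr 22 498 (.lg 0
  true 7 79 79 19 0 720720) (.nx 24 165142 (.lg 2 true 2 89 89 13 11292 102960) .out)) .out)))
  .out) .out) (.na 52 25 (.nx 51 1321124 (.nr 50 1048577 (.nr 29 22 .s1 (.nx 32 66 (.nx 31 65 (.nr
  30 143 (.l1 (.ls 19 17 186)) (.l1 .sk)) (.l1 .sk)) (.nx 38 10323 (.nx 33 205 (.l1 (.ls 83 31
  1640)) (.nr 37 185365 (.lg 0 false 4 97 97 16 0 9360) .out)) (.nr 49 55110 (.nr 45 513 (.lg 0
  true 7 79 79 16 0 32760) (.nx 48 82572 (.lg 1 true 3 89 89 16 11292 4680) .out)) .out)))) .out)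
  .out) (.lg 0 false 1 0 0 7 0 24))) (.na 99 29 (.na 76 27 (.nx 75 1321124 (.nr 74 1048577 (.nr 54
  25 .s1 (.nx 63 16385 (.nx 55 205 (.l1 (.ls 79 41 1619)) (.nr 62 185365 (.lg 0 false 7 83 83 11 0
  65520) .out)) (.nr 73 38969 (.nr 70 513 (.lg 0 true 7 71 71 11 0 65520) (.nx 72 82572 (.lg 2 true
  2 73 73 11 5232 9360) .out)) .out))) .out) .out) (.nx 98 1321124 (.nr 97 1048577 (.nr 77 26 .s1
  (.nx 86 10323 (.nx 79 65 (.nr 78 166 (.l1 (.ls 19 19 159)) (.l1 .sk)) (.nx 80 66 (.l1 .sk) (.nx
  81 205 (.l1 (.ls 79 31 1398)) (.nr 85 185365 (.lg 0 false 4 83 83 16 0 9360) .out)))) (.nr 96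
  55110 (.nr 93 513 (.lg 0 true 7 71 73 17 0 32760) (.nx 95 82572 (.lg 1 false 2 83 83 16 11292
  9360) .out)) .out))) .out) .out)) (.na 123 30 (.nx 122 1321124 (.nr 121 1048577 (.nr 100 28 .s1
  (.nx 104 205 (.nx 102 65 (.nr 101 172 (.l1 (.ls 17 16 148)) (.l1 .sk)) (.nx 103 66 (.l1 .sk) (.l1
  (.ls 83 23 1301)))) (.nr 120 185365 (.nx 108 10323 (.lg 0 false 4 89 89 16 0 9360) (.nr 119 55110
  (.nr 115 513 (.lg 0 true 7 73 73 16 0 32760) (.nx 118 82572 (.lg 1 true 3 83 83 16 11292 4680)
  .out)) .out)) .out))) .out) .out) (.nx 141 1321124 (.nr 140 1048577 (.nr 124 29 .s1 (.nx 129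
  10323 (.nx 125 205 (.l1 (.ls 83 43 1403)) (.nr 128 185365 (.lg 0 false 3 89 89 23 0 9360) .out))
  (.nr 139 55110 (.nr 136 513 (.lg 0 true 7 73 73 29 0 65520) (.nx 138 82572 (.lg 1 false 2 83 83
  19 11292 9360) .out)) .out))) .out) .out)))) (.na 181 37 (.na 159 32 (.nx 158 1321124 (.nr 157
  1048577 (.nr 143 30 .s1 (.nx 149 10323 (.nx 144 205 (.l1 (.ls 83 29 1358)) (.nr 148 185365 (.lg 0
  false 4 89 89 16 0 9360) .out)) (.nr 156 55110 (.nr 153 513 (.lg 0 true 4 73 73 16 0 9360) (.nx
  155 82572 (.lg 1 false 2 89 89 16 11292 9360) .out)) .out))) .out) .out) (.na 160 33 .ne (.nx 180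
  1321124 (.nr 179 370729 (.nr 161 33 .s1 (.nx 174 82572 (.nx 164 66 (.nx 163 65 (.nr 162 212 (.l1
  (.ls 31 19 131)) (.l1 .sk)) (.l1 .sk)) (.nx 171 20644 (.nx 168 8193 (.lg 0 false 4 89 89 19 0
  102960) (.nr 170 55110 (.lg 0 true 2 83 83 17 0 102960) .out)) (.nr 173 13779 (.nr 172 1729 (.lg
  0 false 1 73 73 16 0 51480) (.lg 2 false 1 71 71 16 1553 51480)) .out))) (.nr 178 217 (.lg 0 true
  4 73 73 19 0 102960) .out))) .out) .out))) (.na 215 39 (.na 199 38 (.nx 198 1321124 (.nr 197
  370729 (.nr 182 37 .s1 (.nx 189 8193 (.nx 184 65 (.nr 183 218 (.l1 (.ls 19 16 117)) (.l1 .sk))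
  (.nx 185 66 (.l1 .sk) (.lg 0 false 4 89 89 16 0 9360))) (.nr 196 55110 (.nr 192 218 (.lg 0 true 3
  67 67 16 0 4680) (.nx 195 82572 (.lg 1 true 3 83 83 16 14228 4680) .out)) .out))) .out) .out)
  (.nx 214 1321124 (.nr 213 370729 (.nr 200 38 .s1 (.nx 203 66 (.nx 202 65 (.nr 201 224 (.l1 (.ls
  17 17 114)) (.l1 .sk)) (.l1 .sk)) (.nx 206 8193 (.lg 0 false 3 89 89 13 0 9360) (.nr 212 55110
  (.nr 209 217 (.lg 0 true 3 71 71 13 0 9360) (.nx 211 82572 (.lg 1 false 2 89 89 13 14228 9360)
  .out)) .out)))) .out) .out)) (.na 232 46 (.nx 231 1321124 (.nr 230 370729 (.nr 216 39 .s1 (.nx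
  223 8193 (.nx 218 65 (.nr 217 264 (.l1 (.ls 19 19 111)) (.l1 .sk)) (.nx 219 66 (.l1 .sk) (.lg 0
  false 4 83 83 17 0 9360))) (.nr 229 55110 (.nr 226 217 (.lg 0 true 3 67 67 17 0 4680) (.nx 228
  82572 (.lg 1 false 2 83 83 17 14228 9360) .out)) .out))) .out) .out) (.nx 246 1321124 (.nr 245
  311745 (.nr 233 46 .s1 (.nx 236 66 (.nx 235 65 (.nr 234 287 (.l1 (.ls 19 19 94)) (.l1 .sk)) (.l1
  .sk)) (.nx 239 10323 (.lg 0 false 3 89 89 13 0 9360) (.nr 244 23172 (.nr 242 287 (.lg 0 true 3 71
  71 13 0 9360) (.nx 243 82572 (.lg 2 true 1 79 79 13 9351 9360) .out)) .out)))) .out) .out)))))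
  (.na 329 62 (.na 275 57 (.na 248 54 (.lg 0 false 1 0 0 16 0 24) (.na 260 55 (.nx 259 1321124 (.nr
  258 311745 (.nr 249 54 .s1 (.nx 254 8193 (.nx 251 65 (.nr 250 315 (.l1 (.ls 19 23 81)) (.l1 .sk))
  (.nx 252 66 (.l1 .sk) (.lg 0 true 2 83 83 19 0 9360))) (.nr 257 46342 (.nr 255 217 (.lg 2 false 1
  71 71 19 795121 9360) (.nx 256 82572 (.lg 1 false 1 83 83 19 12367 9360) .out)) .out))) .out)
  .out) (.nx 274 1321124 (.nr 273 311745 (.nr 261 55 .s1 (.nx 263 65 (.nr 262 327 (.l1 (.ls 19 17
  79)) (.l1 .sk)) (.nx 264 66 (.l1 .sk) (.nx 267 10323 (.lg 0 false 3 83 83 17 0 51480) (.nr 272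
  23172 (.nr 270 327 (.lg 0 true 3 67 67 17 0 51480) (.nx 271 82572 (.lg 2 true 1 71 71 16 8207
  51480) .out)) .out))))) .out) .out))) (.na 301 59 (.na 288 58 (.nx 287 1321124 (.nr 286 311745
  (.nr 276 57 .s1 (.nx 278 65 (.nr 277 332 (.l1 (.ls 17 17 77)) (.l1 .sk)) (.nx 279 66 (.l1 .sk)
  (.nx 281 8193 (.lg 0 false 2 89 89 17 0 9360) (.nr 285 46342 (.nr 283 217 (.lg 0 true 2 71 71 17
  0 9360) (.nx 284 82572 (.lg 1 false 1 89 89 16 12367 4680) .out)) .out))))) .out) .out) (.nx 300
  1321124 (.nr 299 311745 (.nr 289 58 .s1 (.nx 295 10323 (.nx 291 65 (.nr 290 338 (.l1 (.ls 19 19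
  75)) (.l1 .sk)) (.nx 292 66 (.l1 .sk) (.lg 0 false 3 83 83 19 0 9360))) (.nr 298 23172 (.nr 296
  217 (.lg 2 false 1 73 73 13 740285 65520) (.nx 297 82572 (.lg 2 true 1 79 79 13 12367 9360)
  .out)) .out))) .out) .out)) (.na 316 61 (.nx 315 1321124 (.nr 314 311745 (.nr 302 59 .s1 (.nx 304
  65 (.nr 303 350 (.l1 (.ls 17 16 74)) (.l1 .sk)) (.nx 305 66 (.l1 .sk) (.nx 308 10323 (.lg 0 false
  3 79 79 16 0 4680) (.nr 313 23172 (.nr 311 350 (.lg 0 true 3 67 67 16 0 4680) (.nx 312 82572 (.lg
  2 true 1 71 71 16 7668 4680) .out)) .out))))) .out) .out) (.nx 328 1321124 (.nr 327 311745 (.nr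
  317 61 .s1 (.nx 319 65 (.nr 318 355 (.l1 (.ls 17 16 72)) (.l1 .sk)) (.nx 320 66 (.l1 .sk) (.nx
  323 10323 (.lg 0 false 3 83 83 16 0 4680) (.nr 326 23172 (.nr 324 217 (.lg 2 false 1 71 71 16
  703878 4680) (.nx 325 82572 (.lg 2 true 1 73 73 16 12367 4680) .out)) .out))))) .out) .out))))
  (.na 371 69 (.na 343 65 (.na 342 64 (.nx 341 1321124 (.nr 340 311745 (.nr 330 62 .s1 (.nx 333 66
  (.nx 332 65 (.nr 331 367 (.l1 (.ls 19 19 71)) (.l1 .sk)) (.l1 .sk)) (.nx 336 10323 (.lg 0 false 3
  83 83 19 0 9360) (.nr 339 23172 (.nr 337 217 (.lg 2 false 1 71 71 13 692525 9360) (.nx 338 82572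
  (.lg 2 true 1 73 73 13 12367 9360) .out)) .out)))) .out) .out) .ne) (.na 358 66 (.nx 357 1321124
  (.nr 356 524289 (.nr 344 65 .s1 (.nx 346 65 (.nr 345 378 (.lg 0 true 1 0 16 16 0 720720) (.l1
  .sk)) (.nx 347 66 (.l1 .sk) (.nx 350 8193 (.lg 0 true 3 73 73 17 0 4680) (.nr 355 8193 (.nr 353
  513 (.lg 0 false 3 61 61 17 0 4680) (.nx 354 82572 (.lg 2 true 1 59 59 16 5232 4680) .out))
  .out))))) .out) .out) (.nx 370 1321124 (.nr 369 524289 (.nr 359 66 .s1 (.nx 362 66 (.nx 361 65
  (.nr 360 395 (.l1 (.ls 29 29 67)) (.l1 .sk)) (.l1 .sk)) (.nx 364 8193 (.lg 0 false 2 89 89 29 0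
  102960) (.nr 368 8193 (.nr 366 513 (.lg 0 true 2 73 73 29 0 102960) (.nx 367 82572 (.lg 2 false 1
  67 67 29 5232 102960) .out)) .out)))) .out) .out))) (.na 399 73 (.na 384 71 (.nx 383 1321124 (.nr
  382 524289 (.nr 372 69 .s1 (.nx 374 65 (.nr 373 407 (.l1 (.ls 19 17 64)) (.l1 .sk)) (.nx 375 66
  (.l1 .sk) (.nx 377 8193 (.lg 0 false 2 89 89 17 0 9360) (.nr 381 8193 (.nr 379 513 (.lg 0 true 2
  73 73 17 0 9360) (.nx 380 82572 (.lg 2 true 1 61 61 17 5232 4680) .out)) .out))))) .out) .out)
  (.nx 398 1321124 (.nr 397 524289 (.nr 385 71 .s1 (.nx 391 8193 (.nx 387 65 (.nr 386 418 (.l1 (.ls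
  17 16 62)) (.l1 .sk)) (.nx 388 66 (.l1 .sk) (.lg 0 false 3 83 83 16 0 4680))) (.nr 396 8193 (.nr
  394 513 (.lg 0 true 3 61 61 16 0 4680) (.nx 395 82572 (.lg 2 true 1 59 59 16 5232 4680) .out))
  .out))) .out) .out)) (.na 414 74 (.nx 413 1321124 (.nr 412 524289 (.nr 400 73 .s1 (.nx 406 8193
  (.nx 402 65 (.nr 401 424 (.l1 (.ls 17 16 60)) (.l1 .sk)) (.nx 403 66 (.l1 .sk) (.lg 0 false 3 79
  79 16 0 4680))) (.nr 411 8193 (.nr 409 513 (.lg 0 true 3 61 61 16 0 4680) (.nx 410 82572 (.lg 2
  true 1 59 59 16 5232 4680) .out)) .out))) .out) .out) (.nx 426 1321124 (.nr 425 524289 (.nr 415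
  74 .s1 (.nx 421 8193 (.nx 417 65 (.nr 416 447 (.l1 (.ls 19 19 60)) (.l1 .sk)) (.nx 418 66 (.l1
  .sk) (.lg 0 false 3 83 83 19 0 9360))) (.nr 424 8193 (.nr 422 513 (.lg 2 false 1 73 73 13 580224
  9360) (.nx 423 82572 (.lg 2 true 1 61 61 13 5232 9360) .out)) .out))) .out) .out)))))) (.na 587
  118 (.na 499 95 (.na 463 87 (.na 439 81 (.nx 438 1321124 (.nr 437 524289 (.nr 428 78 .s1 (.nx 431
  66 (.nx 430 65 (.nr 429 464 (.l1 (.ls 17 29 57)) (.l1 .sk)) (.l1 .sk)) (.nx 433 8193 (.lg 0 false
  2 79 79 29 0 9360) (.nr 436 8193 (.nr 434 513 (.lg 2 false 1 71 71 23 550469 9360) (.nx 435 82572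
  (.lg 2 true 1 59 59 23 5232 9360) .out)) .out)))) .out) .out) (.na 450 86 (.nx 449 1321124 (.nr
  448 524289 (.nr 440 81 .s1 (.nx 444 8193 (.nx 442 65 (.nr 441 493 (.l1 (.ls 17 17 55)) (.l1 .sk))
  (.nx 443 66 (.l1 .sk) (.lg 0 true 1 83 83 16 0 4680))) (.nr 447 8193 (.nr 445 513 (.lg 2 false 1
  67 67 16 530081 4680) (.nx 446 82572 (.lg 2 true 1 53 53 16 5232 4680) .out)) .out))) .out) .out)
  (.nx 462 1321124 (.nr 461 524289 (.nr 451 86 .s1 (.nx 457 8193 (.nx 453 65 (.nr 452 498 (.l1 (.ls
  19 17 52)) (.l1 .sk)) (.nx 454 66 (.l1 .sk) (.lg 0 false 3 83 83 19 0 9360))) (.nr 460 8193 (.nr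
  458 513 (.lg 2 false 1 71 71 13 499262 9360) (.nx 459 82572 (.lg 2 true 1 61 61 13 5232 9360)
  .out)) .out))) .out) .out))) (.na 487 91 (.na 476 90 (.nx 475 1321124 (.nr 474 524289 (.nr 464 87
  .s1 (.nx 466 65 (.nr 465 516 (.l1 (.ls 23 17 51)) (.l1 .sk)) (.nx 467 66 (.l1 .sk) (.nx 469 8193
  (.lg 0 false 2 89 89 19 0 9360) (.nr 473 8193 (.nr 471 513 (.lg 0 true 2 73 73 19 0 9360) (.nx
  472 82572 (.lg 2 false 1 61 61 17 5232 4680) .out)) .out))))) .out) .out) (.nx 486 1321124 (.nr
  485 524289 (.nr 477 90 .s1 (.nx 480 66 (.nx 479 65 (.nr 478 521 (.l1 (.ls 19 29 49)) (.l1 .sk))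
  (.l1 .sk)) (.nx 481 8193 (.lg 0 true 1 89 89 23 0 102960) (.nr 484 8193 (.nr 482 513 (.lg 2 false
  1 67 67 23 477073 9360) (.nx 483 82572 (.lg 2 false 1 53 53 23 5232 9360) .out)) .out)))) .out)
  .out)) (.na 488 93 .ne (.nx 498 1321124 (.nr 497 524289 (.nr 489 93 .s1 (.nx 493 8193 (.nx 491 65
  (.nr 490 544 (.l1 (.ls 23 17 48)) (.l1 .sk)) (.nx 492 66 (.l1 .sk) (.lg 0 true 1 89 89 17 0
  4680))) (.nr 496 8193 (.nr 494 513 (.lg 2 true 1 67 67 17 461684 4680) (.nx 495 82572 (.lg 2
  false 1 61 61 17 5232 4680) .out)) .out))) .out) .out)))) (.na 543 103 (.na 521 99 (.na 510 97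
  (.nx 509 1321124 (.nr 508 524289 (.nr 500 95 .s1 (.nx 503 66 (.nx 502 65 (.nr 501 556 (.l1 (.ls
  17 16 47)) (.l1 .sk)) (.l1 .sk)) (.nx 504 8193 (.lg 0 true 1 89 89 16 0 4680) (.nr 507 8193 (.nr
  505 513 (.lg 2 false 1 67 67 16 451964 4680) (.nx 506 82572 (.lg 2 false 1 59 59 16 5232 4680)
  .out)) .out)))) .out) .out) (.nx 520 1321124 (.nr 519 524289 (.nr 511 97 .s1 (.nx 515 8193 (.nx
  513 65 (.nr 512 567 (.l1 (.ls 17 16 46)) (.l1 .sk)) (.nx 514 66 (.l1 .sk) (.lg 0 true 1 83 83 16
  0 4680))) (.nr 518 8193 (.nr 516 513 (.lg 2 false 1 61 61 16 442645 4680) (.nx 517 82572 (.lg 2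
  true 1 53 53 16 5232 4680) .out)) .out))) .out) .out)) (.na 532 101 (.nx 531 1321124 (.nr 530
  524289 (.nr 522 99 .s1 (.nx 526 8193 (.nx 524 65 (.nr 523 578 (.l1 (.ls 23 17 45)) (.l1 .sk))
  (.nx 525 66 (.l1 .sk) (.lg 0 true 1 83 83 19 0 51480))) (.nr 529 8193 (.nr 527 513 (.lg 2 true 1
  61 61 19 433703 51480) (.nx 528 82572 (.lg 2 false 1 59 59 19 5232 51480) .out)) .out))) .out)
  .out) (.nx 542 1321124 (.nr 541 524289 (.nr 533 101 .s1 (.nx 537 8193 (.nx 535 65 (.nr 534 590
  (.l1 (.ls 17 16 44)) (.l1 .sk)) (.nx 536 66 (.l1 .sk) (.lg 0 true 1 79 79 16 0 4680))) (.nr 540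
  8193 (.nr 538 513 (.lg 2 false 1 61 61 16 425115 4680) (.nx 539 82572 (.lg 2 true 1 47 47 16 5232
  4680) .out)) .out))) .out) .out))) (.na 565 111 (.na 554 110 (.nx 553 1321124 (.nr 552 524289
  (.nr 544 103 .s1 (.nx 547 66 (.nx 546 65 (.nr 545 630 (.l1 (.ls 17 16 44)) (.l1 .sk)) (.l1 .sk))
  (.nx 548 8193 (.lg 0 true 1 83 83 16 0 4680) (.nr 551 8193 (.nr 549 513 (.lg 2 false 1 61 61 16
  416860 4680) (.nx 550 82572 (.lg 2 true 1 53 53 16 5232 4680) .out)) .out)))) .out) .out) (.nx
  564 1321124 (.nr 563 524289 (.nr 555 110 .s1 (.nx 558 66 (.nx 557 65 (.nr 556 636 (.l1 (.ls 23 23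
  41)) (.l1 .sk)) (.l1 .sk)) (.nx 559 8193 (.lg 0 true 1 89 89 23 0 102960) (.nr 562 8193 (.nr 560
  513 (.lg 2 false 1 67 67 23 390333 102960) (.nx 561 82572 (.lg 2 true 1 59 59 23 5232 102960)
  .out)) .out)))) .out) .out)) (.na 576 114 (.nx 575 1321124 (.nr 574 524289 (.nr 566 111 .s1 (.nx
  569 66 (.nx 568 65 (.nr 567 653 (.l1 (.ls 19 17 41)) (.l1 .sk)) (.l1 .sk)) (.nx 570 8193 (.lg 0
  true 1 89 89 17 0 4680) (.nr 573 8193 (.nr 571 513 (.lg 2 true 1 61 61 17 386816 4680) (.nx 572
  82572 (.lg 2 false 1 59 59 17 5232 4680) .out)) .out)))) .out) .out) (.nx 586 1321124 (.nr 585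
  524289 (.nr 577 114 .s1 (.nx 581 8193 (.nx 579 65 (.nr 578 676 (.l1 (.ls 17 29 40)) (.l1 .sk))
  (.nx 580 66 (.l1 .sk) (.lg 0 true 1 89 89 31 0 9360))) (.nr 584 8193 (.nr 582 513 (.lg 2 true 1
  67 67 31 376637 9360) (.nx 583 82572 (.lg 2 true 1 61 61 31 5232 9360) .out)) .out))) .out)
  .out))))) (.na 643 130 (.na 620 125 (.na 598 121 (.nx 597 1321124 (.nr 596 524289 (.nr 588 118
  .s1 (.nx 590 65 (.nr 589 693 (.l1 (.ls 17 17 38)) (.l1 .sk)) (.nx 591 66 (.l1 .sk) (.nx 592 8193
  (.lg 0 true 1 89 89 19 0 9360) (.nr 595 8193 (.nr 593 513 (.lg 2 false 1 67 67 19 363869 9360)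
  (.nx 594 82572 (.lg 2 true 1 47 47 19 5232 9360) .out)) .out))))) .out) .out) (.na 609 122 (.nx
  608 1321124 (.nr 607 524289 (.nr 599 121 .s1 (.nx 603 8193 (.nx 601 65 (.nr 600 699 (.l1 (.ls 19
  16 37)) (.l1 .sk)) (.nx 602 66 (.l1 .sk) (.lg 0 true 1 83 83 17 0 51480))) (.nr 606 8193 (.nr 604
  513 (.lg 2 false 1 61 61 17 354848 51480) (.nx 605 82572 (.lg 2 false 1 53 53 17 5232 51480)
  .out)) .out))) .out) .out) (.nx 619 1321124 (.nr 618 524289 (.nr 610 122 .s1 (.nx 614 8193 (.nx
  612 65 (.nr 611 716 (.l1 (.ls 19 17 37)) (.l1 .sk)) (.nx 613 66 (.l1 .sk) (.lg 0 true 1 89 89 19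
  0 9360))) (.nr 617 8193 (.nr 615 513 (.lg 2 false 1 67 67 19 351939 9360) (.nx 616 82572 (.lg 2
  true 1 53 53 19 5232 9360) .out)) .out))) .out) .out))) (.na 632 128 (.na 621 127 (.lg 0 false 1
  0 0 16 0 24) (.nx 631 1321124 (.nr 630 524289 (.nr 622 127 .s1 (.nx 626 8193 (.nx 624 65 (.nr 623
  733 (.l1 (.ls 17 16 36)) (.l1 .sk)) (.nx 625 66 (.l1 .sk) (.lg 0 true 1 79 79 16 0 51480))) (.nr
  629 8193 (.nr 627 513 (.lg 2 false 1 59 59 16 338083 4680) (.nx 628 82572 (.lg 2 false 1 47 47 16
  5232 4680) .out)) .out))) .out) .out)) (.na 633 129 .ne (.nx 642 660563 (.nr 641 1048577 (.nr 634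
  129 .s1 (.nx 635 205 (.l1 (.ls 79 23 328)) (.nr 640 524289 (.nx 636 6503 (.lg 0 true 1 83 83 19 0
  4680) (.nr 639 8193 (.nr 637 1025 (.lg 0 true 1 71 71 19 0 4680) (.nx 638 82572 (.lg 2 false 1 53
  53 19 2683 4680) .out)) .out)) .out))) .out) .out)))) (.na 670 138 (.na 654 135 (.na 653 131 (.nx
  652 660563 (.nr 651 1048577 (.nr 644 130 .s1 (.nx 645 205 (.l1 (.ls 67 37 326)) (.nr 650 524289
  (.nr 647 8193 (.lg 0 false 2 73 73 29 0 9360) (.nx 649 6503 (.lg 0 true 2 71 71 29 0 9360) .out))
  .out))) .out) .out) (.lg 0 false 1 0 0 16 0 24)) (.na 662 137 (.nx 661 660563 (.nr 660 1048577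
  (.nr 655 135 .s1 (.nx 656 205 (.l1 (.ls 71 29 314)) (.nr 659 524289 (.nr 657 8193 (.lg 0 false 1
  79 79 19 0 4680) (.nx 658 6503 (.lg 0 true 1 79 79 19 0 4680) .out)) .out))) .out) .out) (.nx 669
  660563 (.nr 668 1048577 (.nr 663 137 .s1 (.nx 664 205 (.l1 (.ls 71 19 309)) (.nr 667 524289 (.nr
  665 8193 (.lg 0 false 1 79 79 16 0 4680) (.nx 666 6503 (.lg 0 true 1 79 79 16 0 51480) .out))
  .out))) .out) .out))) (.na 688 143 (.na 680 142 (.nx 679 660563 (.nr 678 1048577 (.nr 671 138 .s1
  (.nx 674 6503 (.nx 672 205 (.l1 (.ls 83 37 307)) (.nr 673 524289 (.lg 0 true 1 89 89 31 0 9360)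
  .out)) (.nr 677 8193 (.nr 675 1025 (.lg 0 true 1 73 73 31 0 9360) (.nx 676 82572 (.lg 2 false 1
  59 59 31 2683 9360) .out)) .out))) .out) .out) (.nx 687 660563 (.nr 686 1048577 (.nr 681 142 .s1
  (.nx 682 205 (.l1 (.ls 67 29 298)) (.nr 685 524289 (.nr 683 8193 (.lg 0 false 1 89 89 19 0 9360)
  (.nx 684 6503 (.lg 0 true 1 83 83 19 0 9360) .out)) .out))) .out) .out)) (.na 696 145 (.nx 695
  660563 (.nr 694 1048577 (.nr 689 143 .s1 (.nx 690 205 (.l1 (.ls 71 23 296)) (.nr 693 524289 (.nr
  691 8193 (.lg 0 false 1 83 83 19 0 51480) (.nx 692 6503 (.lg 0 true 1 79 79 19 0 51480) .out))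
  .out))) .out) .out) (.nx 703 660563 (.nr 702 1048577 (.nr 697 145 .s1 (.nx 698 205 (.l1 (.ls 73
  19 292)) (.nr 701 524289 (.nr 699 8193 (.lg 0 false 1 83 83 17 0 4680) (.nx 700 6503 (.lg 0 true
  1 79 79 17 0 4680) .out)) .out))) .out) .out))))))) (.na 901 222 (.na 795 190 (.na 739 165 (.na
  721 155 (.na 712 150 (.nx 711 660563 (.nr 710 1048577 (.nr 705 146 .s1 (.nx 706 205 (.l1 (.ls 71
  29 290)) (.nr 709 524289 (.nr 707 8193 (.lg 0 false 1 83 83 19 0 9360) (.nx 708 6503 (.lg 0 true
  1 83 83 19 0 9360) .out)) .out))) .out) .out) (.na 713 151 (.lg 0 false 1 0 0 16 0 24) (.nx 720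
  660563 (.nr 719 1048577 (.nr 714 151 .s1 (.nx 715 205 (.l1 (.ls 67 17 281)) (.nr 718 524289 (.nr
  716 8193 (.lg 0 false 1 79 79 16 0 4680) (.nx 717 6503 (.lg 0 true 1 73 73 16 0 4680) .out))
  .out))) .out) .out))) (.na 730 162 (.na 729 157 (.nx 728 660563 (.nr 727 1048577 (.nr 722 155 .s1
  (.nx 723 205 (.l1 (.ls 71 19 274)) (.nr 726 524289 (.nr 724 8193 (.lg 0 false 1 79 79 17 0 4680)
  (.nx 725 6503 (.lg 0 true 1 73 73 17 0 4680) .out)) .out))) .out) .out) (.lg 0 false 1 0 0 16 0
  24)) (.na 738 163 (.nx 737 660563 (.nr 736 1048577 (.nr 731 162 .s1 (.nx 732 205 (.l1 (.ls 67 31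
  262)) (.nr 735 524289 (.nr 733 8193 (.lg 0 false 1 79 79 23 0 9360) (.nx 734 6503 (.lg 0 true 1
  73 73 23 0 9360) .out)) .out))) .out) .out) (.lg 0 false 1 0 0 16 0 24)))) (.na 759 177 (.na 750
  169 (.na 749 167 (.nx 748 660563 (.nr 747 1048577 (.nr 740 165 .s1 (.nx 743 6503 (.nx 741 205
  (.l1 (.ls 73 29 257)) (.nr 742 524289 (.lg 0 false 1 73 73 29 0 51480) .out)) (.nr 746 8193 (.nr
  744 1025 (.lg 0 true 1 67 67 29 0 51480) (.nx 745 82572 (.lg 2 false 1 47 47 29 2683 51480)
  .out)) .out))) .out) .out) (.lg 0 false 1 0 0 16 0 24)) (.na 751 174 (.lg 0 false 1 0 0 16 0 24)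
  (.nx 758 660563 (.nr 757 1048577 (.nr 752 174 .s1 (.nx 753 205 (.l1 (.ls 79 37 244)) (.nr 756
  524289 (.nr 754 8193 (.lg 0 false 1 83 83 23 0 9360) (.nx 755 6503 (.lg 0 true 1 83 83 23 0 9360)
  .out)) .out))) .out) .out))) (.na 779 185 (.na 769 183 (.nx 768 660563 (.nr 767 1048577 (.nr 760
  177 .s1 (.nx 761 205 (.l1 (.ls 53 23 240)) (.nr 766 524289 (.nx 762 6503 (.lg 0 false 1 79 79 19
  0 4680) (.nr 765 8193 (.nr 763 1025 (.lg 0 true 1 67 67 19 0 4680) (.nx 764 82572 (.lg 2 false 1
  43 43 19 2683 4680) .out)) .out)) .out))) .out) .out) (.nx 778 660563 (.nr 777 1048577 (.nr 770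
  183 .s1 (.nx 771 205 (.l1 (.ls 59 23 232)) (.nr 776 524289 (.nx 772 6503 (.lg 0 false 1 79 79 19
  0 4680) (.nr 775 8193 (.nr 773 1025 (.lg 0 true 1 67 67 19 0 4680) (.nx 774 82572 (.lg 2 false 1
  43 43 19 2683 4680) .out)) .out)) .out))) .out) .out)) (.na 787 186 (.nx 786 660563 (.nr 785
  1048577 (.nr 780 185 .s1 (.nx 781 205 (.l1 (.ls 71 19 230)) (.nr 784 524289 (.nr 782 8193 (.lg 0
  false 1 79 79 17 0 4680) (.nx 783 6503 (.lg 0 true 1 79 79 17 0 4680) .out)) .out))) .out) .out)
  (.nx 794 660563 (.nr 793 1048577 (.nr 788 186 .s1 (.nx 789 205 (.l1 (.ls 79 29 228)) (.nr 792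
  524289 (.nr 790 8193 (.lg 0 false 1 83 83 29 0 9360) (.nx 791 6503 (.lg 0 true 1 83 83 29 0 9360)
  .out)) .out))) .out) .out))))) (.na 844 199 (.na 812 194 (.na 803 191 (.nx 802 660563 (.nr 801
  1048577 (.nr 796 190 .s1 (.nx 797 205 (.l1 (.ls 71 31 224)) (.nr 800 524289 (.nx 798 6503 (.lg 0
  true 1 79 79 29 0 9360) (.nr 799 8193 (.lg 0 false 1 79 79 29 0 9360) .out)) .out))) .out) .out)
  (.na 804 193 (.lg 0 false 1 0 0 16 0 24) (.nx 811 660563 (.nr 810 1048577 (.nr 805 193 .s1 (.nx
  806 205 (.l1 (.ls 67 17 220)) (.nr 809 524289 (.nr 807 8193 (.lg 0 false 1 73 73 16 0 4680) (.nx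
  808 6503 (.lg 0 true 1 71 71 16 0 4680) .out)) .out))) .out) .out))) (.na 828 197 (.na 820 195
  (.nx 819 660563 (.nr 818 1048577 (.nr 813 194 .s1 (.nx 814 205 (.l1 (.ls 67 23 219)) (.nr 817
  524289 (.nr 815 8193 (.lg 0 false 1 79 79 19 0 9360) (.nx 816 6503 (.lg 0 true 1 73 73 19 0 9360)
  .out)) .out))) .out) .out) (.nx 827 660563 (.nr 826 1048577 (.nr 821 195 .s1 (.nx 822 205 (.l1
  (.ls 61 29 218)) (.nr 825 524289 (.nr 823 8193 (.lg 0 false 1 73 73 23 0 4680) (.nx 824 6503 (.lg
  0 true 1 71 71 23 0 4680) .out)) .out))) .out) .out)) (.na 836 198 (.nx 835 660563 (.nr 834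
  1048577 (.nr 829 197 .s1 (.nx 830 205 (.l1 (.ls 61 17 216)) (.nr 833 524289 (.nr 831 8193 (.lg 0
  false 1 71 71 16 0 4680) (.nx 832 6503 (.lg 0 true 1 71 71 16 0 4680) .out)) .out))) .out) .out)
  (.nx 843 660563 (.nr 842 1048577 (.nr 837 198 .s1 (.nx 838 205 (.l1 (.ls 73 37 215)) (.nr 841
  524289 (.nr 839 8193 (.lg 0 false 1 83 83 31 0 102960) (.nx 840 6503 (.lg 0 false 1 79 79 31 0
  102960) .out)) .out))) .out) .out)))) (.na 869 209 (.na 853 206 (.na 845 202 (.lg 0 false 1 0 0
  16 0 24) (.nx 852 660563 (.nr 851 1048577 (.nr 846 202 .s1 (.nx 847 205 (.l1 (.ls 67 23 211))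
  (.nr 850 524289 (.nr 848 8193 (.lg 0 false 1 73 73 23 0 9360) (.nx 849 6503 (.lg 0 true 1 73 73
  23 0 9360) .out)) .out))) .out) .out)) (.na 861 207 (.nx 860 660563 (.nr 859 1048577 (.nr 854 206
  .s1 (.nx 855 205 (.l1 (.ls 67 23 207)) (.nr 858 524289 (.nr 856 8193 (.lg 0 false 1 73 73 23 0
  9360) (.nx 857 6503 (.lg 0 true 1 73 73 23 0 9360) .out)) .out))) .out) .out) (.nx 868 660563
  (.nr 867 1048577 (.nr 862 207 .s1 (.nx 863 205 (.l1 (.ls 73 19 206)) (.nr 866 524289 (.nr 864
  8193 (.lg 0 true 1 79 79 19 0 4680) (.nx 865 6503 (.lg 0 false 1 79 79 19 0 4680) .out)) .out)))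
  .out) .out))) (.na 885 215 (.na 877 214 (.nx 876 660563 (.nr 875 1048577 (.nr 870 209 .s1 (.nx
  871 205 (.l1 (.ls 73 17 204)) (.nr 874 524289 (.nr 872 8193 (.lg 0 false 1 83 83 17 0 51480) (.nx
  873 6503 (.lg 0 false 1 79 79 17 0 51480) .out)) .out))) .out) .out) (.nx 884 660563 (.nr 883
  1048577 (.nr 878 214 .s1 (.nx 879 205 (.l1 (.ls 67 23 199)) (.nr 882 524289 (.nr 880 8193 (.lg 0
  false 1 73 73 23 0 9360) (.nx 881 6503 (.lg 0 true 1 73 73 23 0 102960) .out)) .out))) .out)
  .out)) (.na 893 219 (.nx 892 660563 (.nr 891 1048577 (.nr 886 215 .s1 (.nx 887 205 (.l1 (.ls 71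
  19 198)) (.nr 890 524289 (.nr 888 8193 (.lg 0 false 1 79 79 17 0 4680) (.nx 889 6503 (.lg 0 true
  1 73 73 17 0 4680) .out)) .out))) .out) .out) (.nx 900 660563 (.nr 899 1048577 (.nr 894 219 .s1
  (.nx 895 205 (.l1 (.ls 71 19 194)) (.nr 898 524289 (.nr 896 8193 (.lg 0 true 1 79 79 19 0 4680)
  (.nx 897 6503 (.lg 0 false 1 73 73 19 0 4680) .out)) .out))) .out) .out)))))) (.na 965 254 (.na
  922 234 (.na 911 227 (.na 909 223 (.nx 908 660563 (.nr 907 1048577 (.nr 902 222 .s1 (.nx 903 205
  (.l1 (.ls 79 31 192)) (.nr 906 524289 (.nr 904 8193 (.lg 0 false 1 83 83 31 0 9360) (.nx 905 6503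
  (.lg 0 false 1 79 79 31 0 9360) .out)) .out))) .out) .out) (.na 910 225 (.lg 0 false 1 0 0 16 0
  24) (.lg 0 false 1 0 0 16 0 24))) (.na 913 230 (.na 912 229 (.lg 0 false 1 0 0 16 0 24) (.lg 0
  false 1 0 0 16 0 24)) (.na 921 233 (.nx 920 660563 (.nr 919 1048577 (.nr 914 230 .s1 (.nx 915 205
  (.l1 (.ls 67 31 185)) (.nr 918 524289 (.nr 916 8193 (.lg 0 false 1 79 79 31 0 9360) (.nx 917 6503
  (.lg 0 true 1 73 73 31 0 9360) .out)) .out))) .out) .out) (.lg 0 false 1 0 0 16 0 24)))) (.na 947
  247 (.na 938 241 (.na 930 239 (.nx 929 660563 (.nr 928 1048577 (.nr 923 234 .s1 (.nx 924 205 (.l1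
  (.ls 67 37 182)) (.nr 927 524289 (.nr 925 8193 (.lg 0 false 1 73 73 31 0 9360) (.nx 926 6503 (.lg
  0 true 1 71 71 31 0 9360) .out)) .out))) .out) .out) (.nx 937 660563 (.nr 936 1048577 (.nr 931
  239 .s1 (.nx 932 205 (.l1 (.ls 61 17 178)) (.nr 935 524289 (.nr 933 8193 (.lg 0 false 1 71 71 17
  0 4680) (.nx 934 6503 (.lg 0 true 1 67 67 17 0 4680) .out)) .out))) .out) .out)) (.na 939 242
  (.lg 0 false 1 0 0 16 0 24) (.nx 946 660563 (.nr 945 1048577 (.nr 940 242 .s1 (.nx 941 205 (.l1
  (.ls 67 29 176)) (.nr 944 524289 (.nr 942 8193 (.lg 0 false 1 79 79 29 0 102960) (.nx 943 6503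
  (.lg 0 true 1 73 73 29 0 102960) .out)) .out))) .out) .out))) (.na 956 251 (.na 955 250 (.nx 954
  660563 (.nr 953 1048577 (.nr 948 247 .s1 (.nx 949 205 (.l1 (.ls 71 17 173)) (.nr 952 524289 (.nr
  950 8193 (.lg 0 false 1 79 79 17 0 51480) (.nx 951 6503 (.lg 0 true 1 73 73 17 0 51480) .out))
  .out))) .out) .out) (.lg 0 false 1 0 0 16 0 24)) (.na 957 253 (.lg 0 false 1 0 0 16 0 24) (.nx
  964 660563 (.nr 963 1048577 (.nr 958 253 .s1 (.nx 959 205 (.l1 (.ls 73 19 169)) (.nr 962 524289
  (.nr 960 8193 (.lg 0 false 1 79 79 19 0 51480) (.nx 961 6503 (.lg 0 false 1 73 73 19 0 51480)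
  .out)) .out))) .out) .out))))) (.na 3448 2048 (.na 1554 512 (.na 973 256 (.nx 972 660563 (.nr 971
  1048577 (.nr 966 254 .s1 (.nx 967 205 (.l1 (.ls 67 23 168)) (.nr 970 524289 (.nr 968 8193 (.lg 0
  false 1 73 73 23 0 9360) (.nx 969 6503 (.lg 0 true 1 71 71 23 0 9360) .out)) .out))) .out) .out)
  (.na 974 257 .ne (.nx 1553 82572 (.nr 1552 1048577 (.nr 975 257 .s1 (.nx 1296 647 (.nx 1040 65
  (.nr 1039 2931 (.lx (.lp 29 17 129)) (.l1 .sk)) (.nx 1041 66 (.l1 .sk) (.la (.ls 71 29 1614))))
  (.nr 1551 262145 (.la (.lg 0 true 1 79 79 23 0)) .out))) .out) .out))) (.na 2352 1024 (.na 2050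
  725 (.nx 2049 82572 (.nr 2048 1048577 (.nr 1555 512 .s1 (.nx 1620 65 (.nr 1619 4150 (.lx (.lp 29
  19 182)) (.l1 .sk)) (.nx 1621 66 (.l1 .sk) (.nx 1834 647 (.la (.ls 67 29 812)) (.nr 2047 262145
  (.la (.lg 0 true 1 71 71 29 0)) .out))))) .out) .out) (.nx 2351 3252 (.nr 2350 262145 (.nr 2051
  725 .s1 (.la (.ls 59 43 14589))) .out) .out)) (.na 2780 1449 (.nx 2779 3252 (.nr 2778 262145 (.nr
  2353 1024 .s1 (.la (.ls 53 41 10330))) .out) .out) (.nx 3447 1627 (.nr 3446 131073 (.nr 2781 1449
  .s1 (.nx 2846 65 (.nr 2845 11721 (.lx (.lp 16 23 513)) (.l1 .sk)) (.nx 2847 66 (.l1 .sk) (.la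
  (.ls 43 31 1826))))) .out) .out)))) (.na 6315 16384 (.na 5016 4096 (.na 4366 2897 (.nx 4365 1627
  (.nr 4364 131073 (.nr 3449 2048 .s1 (.nx 3514 65 (.nr 3513 16580 (.lx (.lp 31 29 725)) (.l1 .sk))
  (.nx 3515 66 (.l1 .sk) (.la (.ls 43 31 1293))))) .out) .out) (.nx 5015 647 (.nr 5014 65537 (.nr
  4367 2897 .s1 (.nx 4529 163 (.lx (.lp 37 31 1025)) (.nr 5013 32769 (.lx (.lp 31 31 1025)) .out)))
  .out) .out)) (.na 5666 8192 (.nx 5665 647 (.nr 5664 65537 (.nr 5017 4096 .s1 (.nx 5179 163 (.lx
  (.lp 37 37 2049)) (.nr 5663 32769 (.lx (.lp 29 37 2049)) .out))) .out) .out) (.nx 6314 647 (.nr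
  6313 65537 (.nr 5667 8192 .s1 (.lx (.lp 31 41 4097))) .out) .out))) (.na 7291 65536 (.na 6965
  32768 (.nx 6964 647 (.nr 6963 131073 (.nr 6316 16384 .s1 (.nx 6478 163 (.lx (.lp 16 41 8193))
  (.nr 6962 65537 (.lx (.lp 29 43 8193)) .out))) .out) .out) (.nx 7290 324 (.nr 7289 131073 (.nr
  6966 32768 .s1 (.lx (.lp 16 43 16385))) .out) .out)) (.na 7617 131073 (.nx 7616 324 (.nr 7615
  262145 (.nr 7292 65536 .s1 (.lx (.lp 16 47 32769))) .out) .out) .out)))))))

theorem c113 :
    OkQ ckI L10 233 1 3 0 34359738368 1 1099511627776 ∧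
    OkQ ckI L10 236 725 1099511627776 0 34359738368 1 1099511627776 ∧
    OkQ ckI L6 65 22 1099511627776 0 34359738368 1 1099511627776 := by
  refine ⟨?_, ?_, ?_⟩
  · refine fin 72 1108 T113_0 ?_
    refine jn 10 (by decide +kernel) ?_
    refine jn 16 (by decide +kernel) ?_
    refine jn 25 (by decide +kernel) ?_
    refine jn 30 (by decide +kernel) ?_
    refine jn 36 (by decide +kernel) ?_
    refine jn 40 (by decide +kernel) ?_
    refine jn 46 (by decide +kernel) ?_
    refine jn 51 (by decide +kernel) ?_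
    refine jn 60 (by decide +kernel) ?_
    refine jn 66 (by decide +kernel) ?_
    refine jn 72 (by decide +kernel) ?_
    refine jn 80 (by decide +kernel) ?_
    refine jn 86 (by decide +kernel) ?_
    refine jn 95 (by decide +kernel) ?_
    refine jn 100 (by decide +kernel) ?_
    refine jn 106 (by decide +kernel) ?_
    refine jn 110 (by decide +kernel) ?_
    refine jn 116 (by decide +kernel) ?_
    refine jn 121 (by decide +kernel) ?_
    refine jn 130 (by decide +kernel) ?_
    refine jn 136 (by decide +kernel) ?_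
    refine jn 142 (by decide +kernel) ?_
    refine jn 153 (by decide +kernel) ?_
    refine jn 166 (by decide +kernel) ?_
    refine jn 178 (by decide +kernel) ?_
    refine jn 191 (by decide +kernel) ?_
    refine jn 205 (by decide +kernel) ?_
    refine jn 213 (by decide +kernel) ?_
    refine jn 241 (by decide +kernel) ?_
    refine jn 261 (by decide +kernel) ?_
    refine jn 289 (by decide +kernel) ?_
    refine jn 310 (by decide +kernel) ?_
    refine jn 325 (by decide +kernel) ?_
    refine jn 345 (by decide +kernel) ?_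
    refine jn 360 (by decide +kernel) ?_
    refine jn 386 (by decide +kernel) ?_
    refine jn 404 (by decide +kernel) ?_
    refine jn 423 (by decide +kernel) ?_
    refine jn 445 (by decide +kernel) ?_
    refine jn 458 (by decide +kernel) ?_
    refine jn 489 (by decide +kernel) ?_
    refine jn 510 (by decide +kernel) ?_
    refine jn 530 (by decide +kernel) ?_
    refine jn 568 (by decide +kernel) ?_
    refine jn 606 (by decide +kernel) ?_
    refine jn 637 (by decide +kernel) ?_
    refine jn 649 (by decide +kernel) ?_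
    refine jn 657 (by decide +kernel) ?_
    refine jn 666 (by decide +kernel) ?_
    refine jn 674 (by decide +kernel) ?_
    refine jn 682 (by decide +kernel) ?_
    refine jn 689 (by decide +kernel) ?_
    refine jn 698 (by decide +kernel) ?_
    refine jn 707 (by decide +kernel) ?_
    refine jn 715 (by decide +kernel) ?_
    refine jn 723 (by decide +kernel) ?_
    refine jn 748 (by decide +kernel) ?_
    refine jn 770 (by decide +kernel) ?_
    refine jn 781 (by decide +kernel) ?_
    refine jn 792 (by decide +kernel) ?_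
    refine jn 796 (by decide +kernel) ?_
    refine jn 809 (by decide +kernel) ?_
    refine jn 827 (by decide +kernel) ?_
    refine jn 845 (by decide +kernel) ?_
    refine jn 864 (by decide +kernel) ?_
    refine jn 881 (by decide +kernel) ?_
    refine jn 907 (by decide +kernel) ?_
    refine jn 926 (by decide +kernel) ?_
    refine jn 944 (by decide +kernel) ?_
    refine jn 959 (by decide +kernel) ?_
    refine jn 976 (by decide +kernel) ?_
    refine jn 992 (by decide +kernel) ?_
    refine jn 1018 (by decide +kernel) ?_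
    refine jn 1043 (by decide +kernel) ?_
    refine jn 1053 (by decide +kernel) ?_
    refine jn 1070 (by decide +kernel) ?_
    refine jn 1093 (by decide +kernel) ?_
    exact je (by decide +kernel)
  · refine fin 4248 22362 T113_1 ?_
    refine jn 29 (by decide +kernel) ?_
    refine jn 48 (by decide +kernel) ?_
    refine jn 71 (by decide +kernel) ?_
    refine jn 96 (by decide +kernel) ?_
    refine jn 119 (by decide +kernel) ?_
    refine jn 143 (by decide +kernel) ?_
    refine jn 176 (by decide +kernel) ?_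
    refine jn 209 (by decide +kernel) ?_
    refine jn 235 (by decide +kernel) ?_
    refine jn 256 (by decide +kernel) ?_
    refine jn 291 (by decide +kernel) ?_
    refine jn 300 (by decide +kernel) ?_
    refine jn 310 (by decide +kernel) ?_
    refine jn 326 (by decide +kernel) ?_
    refine jn 332 (by decide +kernel) ?_
    refine jn 346 (by decide +kernel) ?_
    refine jn 358 (by decide +kernel) ?_
    refine jn 370 (by decide +kernel) ?_
    refine jn 387 (by decide +kernel) ?_
    refine jn 390 (by decide +kernel) ?_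
    refine jn 402 (by decide +kernel) ?_
    refine jn 410 (by decide +kernel) ?_
    refine jn 427 (by decide +kernel) ?_
    refine jn 430 (by decide +kernel) ?_
    refine jn 436 (by decide +kernel) ?_
    refine jn 450 (by decide +kernel) ?_
    refine jn 460 (by decide +kernel) ?_
    refine jn 475 (by decide +kernel) ?_
    refine jn 480 (by decide +kernel) ?_
    refine jn 506 (by decide +kernel) ?_
    refine jn 520 (by decide +kernel) ?_
    refine jn 523 (by decide +kernel) ?_
    refine jn 531 (by decide +kernel) ?_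
    refine jn 540 (by decide +kernel) ?_
    refine jn 547 (by decide +kernel) ?_
    refine jn 555 (by decide +kernel) ?_
    refine jn 568 (by decide +kernel) ?_
    refine jn 579 (by decide +kernel) ?_
    refine jn 590 (by decide +kernel) ?_
    refine jn 595 (by decide +kernel) ?_
    refine jn 596 (by decide +kernel) ?_
    refine jn 628 (by decide +kernel) ?_
    refine jn 648 (by decide +kernel) ?_
    refine jn 676 (by decide +kernel) ?_
    refine jn 698 (by decide +kernel) ?_
    refine jn 719 (by decide +kernel) ?_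
    refine jn 727 (by decide +kernel) ?_
    refine jn 751 (by decide +kernel) ?_
    refine jn 776 (by decide +kernel) ?_
    refine jn 807 (by decide +kernel) ?_
    refine jn 834 (by decide +kernel) ?_
    refine jn 847 (by decide +kernel) ?_
    refine jn 871 (by decide +kernel) ?_
    refine jn 894 (by decide +kernel) ?_
    refine jn 926 (by decide +kernel) ?_
    refine jn 958 (by decide +kernel) ?_
    refine jn 1000 (by decide +kernel) ?_
    refine jn 1010 (by decide +kernel) ?_
    refine jn 1029 (by decide +kernel) ?_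
    refine jn 1048 (by decide +kernel) ?_
    refine jn 1056 (by decide +kernel) ?_
    refine jn 1069 (by decide +kernel) ?_
    refine jn 1075 (by decide +kernel) ?_
    refine jn 1088 (by decide +kernel) ?_
    refine jn 1111 (by decide +kernel) ?_
    refine jn 1119 (by decide +kernel) ?_
    refine jn 1139 (by decide +kernel) ?_
    refine jn 1144 (by decide +kernel) ?_
    refine jn 1145 (by decide +kernel) ?_
    refine jn 1152 (by decide +kernel) ?_
    refine jn 1160 (by decide +kernel) ?_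
    refine jn 1184 (by decide +kernel) ?_
    refine jn 1193 (by decide +kernel) ?_
    refine jn 1205 (by decide +kernel) ?_
    refine jn 1229 (by decide +kernel) ?_
    refine jn 1241 (by decide +kernel) ?_
    refine jn 1263 (by decide +kernel) ?_
    refine jn 1264 (by decide +kernel) ?_
    refine jn 1265 (by decide +kernel) ?_
    refine jn 1288 (by decide +kernel) ?_
    refine jn 1296 (by decide +kernel) ?_
    refine jn 1305 (by decide +kernel) ?_
    refine jn 1319 (by decide +kernel) ?_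
    refine jn 1329 (by decide +kernel) ?_
    refine jn 1355 (by decide +kernel) ?_
    refine jn 1381 (by decide +kernel) ?_
    refine jn 1397 (by decide +kernel) ?_
    refine jn 1425 (by decide +kernel) ?_
    refine jn 1432 (by decide +kernel) ?_
    refine jn 1433 (by decide +kernel) ?_
    refine jn 1440 (by decide +kernel) ?_
    refine jn 1469 (by decide +kernel) ?_
    refine jn 1492 (by decide +kernel) ?_
    refine jn 1509 (by decide +kernel) ?_
    refine jn 1545 (by decide +kernel) ?_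
    refine jn 1577 (by decide +kernel) ?_
    refine jn 1604 (by decide +kernel) ?_
    refine jn 1623 (by decide +kernel) ?_
    refine jn 1660 (by decide +kernel) ?_
    refine jn 1679 (by decide +kernel) ?_
    refine jn 1723 (by decide +kernel) ?_
    refine jn 1748 (by decide +kernel) ?_
    refine jn 1780 (by decide +kernel) ?_
    refine jn 1799 (by decide +kernel) ?_
    refine jn 1835 (by decide +kernel) ?_
    refine jn 1863 (by decide +kernel) ?_
    refine jn 1908 (by decide +kernel) ?_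
    refine jn 1931 (by decide +kernel) ?_
    refine jn 1972 (by decide +kernel) ?_
    refine jn 2003 (by decide +kernel) ?_
    refine jn 2031 (by decide +kernel) ?_
    refine jn 2074 (by decide +kernel) ?_
    refine jn 2088 (by decide +kernel) ?_
    refine jn 2107 (by decide +kernel) ?_
    refine jn 2131 (by decide +kernel) ?_
    refine jn 2156 (by decide +kernel) ?_
    refine jn 2182 (by decide +kernel) ?_
    refine jn 2203 (by decide +kernel) ?_
    refine jn 2204 (by decide +kernel) ?_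
    refine jn 2227 (by decide +kernel) ?_
    refine jn 2251 (by decide +kernel) ?_
    refine jn 2266 (by decide +kernel) ?_
    refine jn 2280 (by decide +kernel) ?_
    refine jn 2308 (by decide +kernel) ?_
    refine jn 2344 (by decide +kernel) ?_
    refine jn 2347 (by decide +kernel) ?_
    refine jn 2348 (by decide +kernel) ?_
    refine jn 2382 (by decide +kernel) ?_
    refine jn 2392 (by decide +kernel) ?_
    refine jn 2394 (by decide +kernel) ?_
    refine jn 2418 (by decide +kernel) ?_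
    refine jn 2443 (by decide +kernel) ?_
    refine jn 2462 (by decide +kernel) ?_
    refine jn 2500 (by decide +kernel) ?_
    refine jn 2514 (by decide +kernel) ?_
    refine jn 2536 (by decide +kernel) ?_
    refine jn 2563 (by decide +kernel) ?_
    refine jn 2580 (by decide +kernel) ?_
    refine jn 2602 (by decide +kernel) ?_
    refine jn 2611 (by decide +kernel) ?_
    refine jn 2638 (by decide +kernel) ?_
    refine jn 2676 (by decide +kernel) ?_
    refine jn 2711 (by decide +kernel) ?_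
    refine jn 2751 (by decide +kernel) ?_
    refine jn 2784 (by decide +kernel) ?_
    refine jn 2816 (by decide +kernel) ?_
    refine jn 2863 (by decide +kernel) ?_
    refine jn 2906 (by decide +kernel) ?_
    refine jn 2958 (by decide +kernel) ?_
    refine jn 2991 (by decide +kernel) ?_
    refine jn 3012 (by decide +kernel) ?_
    refine jn 3050 (by decide +kernel) ?_
    refine jn 3078 (by decide +kernel) ?_
    refine jn 3114 (by decide +kernel) ?_
    refine jn 3167 (by decide +kernel) ?_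
    refine jn 3212 (by decide +kernel) ?_
    refine jn 3252 (by decide +kernel) ?_
    refine jn 3278 (by decide +kernel) ?_
    refine jn 3319 (by decide +kernel) ?_
    refine jn 3366 (by decide +kernel) ?_
    refine jn 3404 (by decide +kernel) ?_
    refine jn 3455 (by decide +kernel) ?_
    refine jn 3503 (by decide +kernel) ?_
    refine jn 3519 (by decide +kernel) ?_
    refine jn 3551 (by decide +kernel) ?_
    refine jn 3571 (by decide +kernel) ?_
    refine jn 3600 (by decide +kernel) ?_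
    refine jn 3629 (by decide +kernel) ?_
    refine jn 3647 (by decide +kernel) ?_
    refine jn 3665 (by decide +kernel) ?_
    refine jn 3705 (by decide +kernel) ?_
    refine jn 3728 (by decide +kernel) ?_
    refine jn 3755 (by decide +kernel) ?_
    refine jn 3789 (by decide +kernel) ?_
    refine jn 3824 (by decide +kernel) ?_
    refine jn 3840 (by decide +kernel) ?_
    refine jn 3848 (by decide +kernel) ?_
    refine jn 3888 (by decide +kernel) ?_
    refine jn 3899 (by decide +kernel) ?_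
    refine jn 3920 (by decide +kernel) ?_
    refine jn 3936 (by decide +kernel) ?_
    refine jn 3960 (by decide +kernel) ?_
    refine jn 3993 (by decide +kernel) ?_
    refine jn 4025 (by decide +kernel) ?_
    refine jn 4063 (by decide +kernel) ?_
    refine jn 4097 (by decide +kernel) ?_
    refine jn 4120 (by decide +kernel) ?_
    refine jn 4135 (by decide +kernel) ?_
    refine jn 4168 (by decide +kernel) ?_
    refine jn 4200 (by decide +kernel) ?_
    refine jn 4231 (by decide +kernel) ?_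
    refine jn 4259 (by decide +kernel) ?_
    refine jn 4304 (by decide +kernel) ?_
    refine jn 4345 (by decide +kernel) ?_
    refine jn 4466 (by decide +kernel) ?_
    refine jn 4612 (by decide +kernel) ?_
    refine jn 4656 (by decide +kernel) ?_
    refine jn 4697 (by decide +kernel) ?_
    refine jn 4745 (by decide +kernel) ?_
    refine jn 4778 (by decide +kernel) ?_
    refine jn 4818 (by decide +kernel) ?_
    refine jn 4864 (by decide +kernel) ?_
    refine jn 4908 (by decide +kernel) ?_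
    refine jn 4961 (by decide +kernel) ?_
    refine jn 5017 (by decide +kernel) ?_
    refine jn 5046 (by decide +kernel) ?_
    refine jn 5090 (by decide +kernel) ?_
    refine jn 5138 (by decide +kernel) ?_
    refine jn 5175 (by decide +kernel) ?_
    refine jn 5228 (by decide +kernel) ?_
    refine jn 5268 (by decide +kernel) ?_
    refine jn 5322 (by decide +kernel) ?_
    refine jn 5376 (by decide +kernel) ?_
    refine jn 5425 (by decide +kernel) ?_
    refine jn 5480 (by decide +kernel) ?_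
    refine jn 5506 (by decide +kernel) ?_
    refine jn 5558 (by decide +kernel) ?_
    refine jn 5596 (by decide +kernel) ?_
    refine jn 5644 (by decide +kernel) ?_
    refine jn 5689 (by decide +kernel) ?_
    refine jn 5748 (by decide +kernel) ?_
    refine jn 5792 (by decide +kernel) ?_
    refine jn 5978 (by decide +kernel) ?_
    refine jn 6078 (by decide +kernel) ?_
    refine jn 6120 (by decide +kernel) ?_
    refine jn 6186 (by decide +kernel) ?_
    refine jn 6217 (by decide +kernel) ?_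
    refine jn 6249 (by decide +kernel) ?_
    refine jn 6310 (by decide +kernel) ?_
    refine jn 6360 (by decide +kernel) ?_
    refine jn 6393 (by decide +kernel) ?_
    refine jn 6432 (by decide +kernel) ?_
    refine jn 6476 (by decide +kernel) ?_
    refine jn 6537 (by decide +kernel) ?_
    refine jn 6593 (by decide +kernel) ?_
    refine jn 6648 (by decide +kernel) ?_
    refine jn 6689 (by decide +kernel) ?_
    refine jn 6729 (by decide +kernel) ?_
    refine jn 6768 (by decide +kernel) ?_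
    refine jn 6806 (by decide +kernel) ?_
    refine jn 6866 (by decide +kernel) ?_
    refine jn 6916 (by decide +kernel) ?_
    refine jn 6961 (by decide +kernel) ?_
    refine jn 7022 (by decide +kernel) ?_
    refine jn 7074 (by decide +kernel) ?_
    refine jn 7140 (by decide +kernel) ?_
    refine jn 7182 (by decide +kernel) ?_
    refine jn 7226 (by decide +kernel) ?_
    refine jn 7280 (by decide +kernel) ?_
    refine jn 7329 (by decide +kernel) ?_
    refine jn 7374 (by decide +kernel) ?_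
    refine jn 7426 (by decide +kernel) ?_
    refine jn 7476 (by decide +kernel) ?_
    refine jn 7532 (by decide +kernel) ?_
    refine jn 7608 (by decide +kernel) ?_
    refine jn 7641 (by decide +kernel) ?_
    refine jn 7681 (by decide +kernel) ?_
    refine jn 7728 (by decide +kernel) ?_
    refine jn 8004 (by decide +kernel) ?_
    refine jn 8082 (by decide +kernel) ?_
    refine jn 8157 (by decide +kernel) ?_
    refine jn 8232 (by decide +kernel) ?_
    refine jn 8334 (by decide +kernel) ?_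
    refine jn 8417 (by decide +kernel) ?_
    refine jn 8488 (by decide +kernel) ?_
    refine jn 8574 (by decide +kernel) ?_
    refine jn 8657 (by decide +kernel) ?_
    refine jn 8745 (by decide +kernel) ?_
    refine jn 8817 (by decide +kernel) ?_
    refine jn 8910 (by decide +kernel) ?_
    refine jn 8985 (by decide +kernel) ?_
    refine jn 9072 (by decide +kernel) ?_
    refine jn 9169 (by decide +kernel) ?_
    refine jn 9273 (by decide +kernel) ?_
    refine jn 9329 (by decide +kernel) ?_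
    refine jn 9401 (by decide +kernel) ?_
    refine jn 9489 (by decide +kernel) ?_
    refine jn 9572 (by decide +kernel) ?_
    refine jn 9642 (by decide +kernel) ?_
    refine jn 9742 (by decide +kernel) ?_
    refine jn 9828 (by decide +kernel) ?_
    refine jn 9922 (by decide +kernel) ?_
    refine jn 10010 (by decide +kernel) ?_
    refine jn 10096 (by decide +kernel) ?_
    refine jn 10174 (by decide +kernel) ?_
    refine jn 10264 (by decide +kernel) ?_
    refine jn 10350 (by decide +kernel) ?_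
    refine jn 10670 (by decide +kernel) ?_
    refine jn 10791 (by decide +kernel) ?_
    refine jn 10901 (by decide +kernel) ?_
    refine jn 11021 (by decide +kernel) ?_
    refine jn 11124 (by decide +kernel) ?_
    refine jn 11204 (by decide +kernel) ?_
    refine jn 11291 (by decide +kernel) ?_
    refine jn 11367 (by decide +kernel) ?_
    refine jn 11444 (by decide +kernel) ?_
    refine jn 11511 (by decide +kernel) ?_
    refine jn 11583 (by decide +kernel) ?_
    refine jn 11637 (by decide +kernel) ?_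
    refine jn 11703 (by decide +kernel) ?_
    refine jn 11769 (by decide +kernel) ?_
    refine jn 11817 (by decide +kernel) ?_
    refine jn 11879 (by decide +kernel) ?_
    refine jn 11912 (by decide +kernel) ?_
    refine jn 11958 (by decide +kernel) ?_
    refine jn 12001 (by decide +kernel) ?_
    refine jn 12039 (by decide +kernel) ?_
    refine jn 12069 (by decide +kernel) ?_
    refine jn 12111 (by decide +kernel) ?_
    refine jn 12148 (by decide +kernel) ?_
    refine jn 12187 (by decide +kernel) ?_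
    refine jn 12227 (by decide +kernel) ?_
    refine jn 12269 (by decide +kernel) ?_
    refine jn 12305 (by decide +kernel) ?_
    refine jn 12336 (by decide +kernel) ?_
    refine jn 12367 (by decide +kernel) ?_
    refine jn 12400 (by decide +kernel) ?_
    refine jn 12637 (by decide +kernel) ?_
    refine jn 12848 (by decide +kernel) ?_
    refine jn 12988 (by decide +kernel) ?_
    refine jn 13084 (by decide +kernel) ?_
    refine jn 13233 (by decide +kernel) ?_
    refine jn 13350 (by decide +kernel) ?_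
    refine jn 13452 (by decide +kernel) ?_
    refine jn 13533 (by decide +kernel) ?_
    refine jn 13627 (by decide +kernel) ?_
    refine jn 13707 (by decide +kernel) ?_
    refine jn 13789 (by decide +kernel) ?_
    refine jn 13861 (by decide +kernel) ?_
    refine jn 13915 (by decide +kernel) ?_
    refine jn 13980 (by decide +kernel) ?_
    refine jn 14042 (by decide +kernel) ?_
    refine jn 14091 (by decide +kernel) ?_
    refine jn 14147 (by decide +kernel) ?_
    refine jn 14204 (by decide +kernel) ?_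
    refine jn 14243 (by decide +kernel) ?_
    refine jn 14297 (by decide +kernel) ?_
    refine jn 14344 (by decide +kernel) ?_
    refine jn 14387 (by decide +kernel) ?_
    refine jn 14431 (by decide +kernel) ?_
    refine jn 14464 (by decide +kernel) ?_
    refine jn 14764 (by decide +kernel) ?_
    refine jn 14852 (by decide +kernel) ?_
    refine jn 14908 (by decide +kernel) ?_
    refine jn 14990 (by decide +kernel) ?_
    refine jn 15084 (by decide +kernel) ?_
    refine jn 15135 (by decide +kernel) ?_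
    refine jn 15207 (by decide +kernel) ?_
    refine jn 15267 (by decide +kernel) ?_
    refine jn 15335 (by decide +kernel) ?_
    refine jn 15401 (by decide +kernel) ?_
    refine jn 15473 (by decide +kernel) ?_
    refine jn 15527 (by decide +kernel) ?_
    refine jn 15585 (by decide +kernel) ?_
    refine jn 15639 (by decide +kernel) ?_
    refine jn 15687 (by decide +kernel) ?_
    refine jn 15723 (by decide +kernel) ?_
    refine jn 15766 (by decide +kernel) ?_
    refine jn 15823 (by decide +kernel) ?_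
    refine jn 15864 (by decide +kernel) ?_
    refine jn 15909 (by decide +kernel) ?_
    refine jn 15956 (by decide +kernel) ?_
    refine jn 15993 (by decide +kernel) ?_
    refine jn 16038 (by decide +kernel) ?_
    refine jn 16073 (by decide +kernel) ?_
    refine jn 16121 (by decide +kernel) ?_
    refine jn 16148 (by decide +kernel) ?_
    refine jn 16191 (by decide +kernel) ?_
    refine jn 16233 (by decide +kernel) ?_
    refine jn 16273 (by decide +kernel) ?_
    refine jn 16295 (by decide +kernel) ?_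
    refine jn 16331 (by decide +kernel) ?_
    refine jn 16368 (by decide +kernel) ?_
    refine jn 16396 (by decide +kernel) ?_
    refine jn 16430 (by decide +kernel) ?_
    refine jn 16469 (by decide +kernel) ?_
    refine jn 16494 (by decide +kernel) ?_
    refine jn 16532 (by decide +kernel) ?_
    refine jn 16925 (by decide +kernel) ?_
    refine jn 17005 (by decide +kernel) ?_
    refine jn 17043 (by decide +kernel) ?_
    refine jn 17139 (by decide +kernel) ?_
    refine jn 17260 (by decide +kernel) ?_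
    refine jn 17346 (by decide +kernel) ?_
    refine jn 17398 (by decide +kernel) ?_
    refine jn 17452 (by decide +kernel) ?_
    refine jn 17521 (by decide +kernel) ?_
    refine jn 17563 (by decide +kernel) ?_
    refine jn 17646 (by decide +kernel) ?_
    refine jn 17729 (by decide +kernel) ?_
    refine jn 17815 (by decide +kernel) ?_
    refine jn 17874 (by decide +kernel) ?_
    refine jn 17944 (by decide +kernel) ?_
    refine jn 18018 (by decide +kernel) ?_
    refine jn 18060 (by decide +kernel) ?_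
    refine jn 18117 (by decide +kernel) ?_
    refine jn 18170 (by decide +kernel) ?_
    refine jn 18218 (by decide +kernel) ?_
    refine jn 18255 (by decide +kernel) ?_
    refine jn 18305 (by decide +kernel) ?_
    refine jn 18348 (by decide +kernel) ?_
    refine jn 18414 (by decide +kernel) ?_
    refine jn 18455 (by decide +kernel) ?_
    refine jn 18500 (by decide +kernel) ?_
    refine jn 18543 (by decide +kernel) ?_
    refine jn 18578 (by decide +kernel) ?_
    refine jn 18991 (by decide +kernel) ?_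
    refine jn 19177 (by decide +kernel) ?_
    refine jn 19240 (by decide +kernel) ?_
    refine jn 19335 (by decide +kernel) ?_
    refine jn 19452 (by decide +kernel) ?_
    refine jn 19566 (by decide +kernel) ?_
    refine jn 19660 (by decide +kernel) ?_
    refine jn 19770 (by decide +kernel) ?_
    refine jn 19818 (by decide +kernel) ?_
    refine jn 19870 (by decide +kernel) ?_
    refine jn 19933 (by decide +kernel) ?_
    refine jn 20001 (by decide +kernel) ?_
    refine jn 20071 (by decide +kernel) ?_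
    refine jn 20150 (by decide +kernel) ?_
    refine jn 20210 (by decide +kernel) ?_
    refine jn 20711 (by decide +kernel) ?_
    refine jn 20897 (by decide +kernel) ?_
    refine jn 20982 (by decide +kernel) ?_
    refine jn 21049 (by decide +kernel) ?_
    refine jn 21103 (by decide +kernel) ?_
    refine jn 21183 (by decide +kernel) ?_
    refine jn 21262 (by decide +kernel) ?_
    refine jn 21367 (by decide +kernel) ?_
    refine jn 21500 (by decide +kernel) ?_
    refine jn 21593 (by decide +kernel) ?_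
    refine jn 21710 (by decide +kernel) ?_
    refine jn 21797 (by decide +kernel) ?_
    refine jn 22288 (by decide +kernel) ?_
    exact je (by decide +kernel)
  · refine fin 4680 7618 T113_2 ?_
    refine jn 6 (by decide +kernel) ?_
    refine jn 13 (by decide +kernel) ?_
    refine jn 22 (by decide +kernel) ?_
    refine jn 32 (by decide +kernel) ?_
    refine jn 33 (by decide +kernel) ?_
    refine jn 37 (by decide +kernel) ?_
    refine jn 45 (by decide +kernel) ?_
    refine jn 62 (by decide +kernel) ?_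
    refine jn 78 (by decide +kernel) ?_
    refine jn 81 (by decide +kernel) ?_
    refine jn 85 (by decide +kernel) ?_
    refine jn 93 (by decide +kernel) ?_
    refine jn 104 (by decide +kernel) ?_
    refine jn 108 (by decide +kernel) ?_
    refine jn 115 (by decide +kernel) ?_
    refine jn 125 (by decide +kernel) ?_
    refine jn 128 (by decide +kernel) ?_
    refine jn 136 (by decide +kernel) ?_
    refine jn 144 (by decide +kernel) ?_
    refine jn 148 (by decide +kernel) ?_
    refine jn 153 (by decide +kernel) ?_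
    refine jn 164 (by decide +kernel) ?_
    refine jn 165 (by decide +kernel) ?_
    refine jn 166 (by decide +kernel) ?_
    refine jn 167 (by decide +kernel) ?_
    refine jn 168 (by decide +kernel) ?_
    refine jn 169 (by decide +kernel) ?_
    refine jn 170 (by decide +kernel) ?_
    refine jn 171 (by decide +kernel) ?_
    refine jn 172 (by decide +kernel) ?_
    refine jn 176 (by decide +kernel) ?_
    refine jn 178 (by decide +kernel) ?_
    refine jn 189 (by decide +kernel) ?_
    refine jn 195 (by decide +kernel) ?_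
    refine jn 206 (by decide +kernel) ?_
    refine jn 211 (by decide +kernel) ?_
    refine jn 223 (by decide +kernel) ?_
    refine jn 228 (by decide +kernel) ?_
    refine jn 242 (by decide +kernel) ?_
    refine jn 254 (by decide +kernel) ?_
    refine jn 256 (by decide +kernel) ?_
    refine jn 270 (by decide +kernel) ?_
    refine jn 279 (by decide +kernel) ?_
    refine jn 281 (by decide +kernel) ?_
    refine jn 283 (by decide +kernel) ?_
    refine jn 295 (by decide +kernel) ?_
    refine jn 302 (by decide +kernel) ?_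
    refine jn 311 (by decide +kernel) ?_
    refine jn 323 (by decide +kernel) ?_
    refine jn 333 (by decide +kernel) ?_
    refine jn 337 (by decide +kernel) ?_
    refine jn 354 (by decide +kernel) ?_
    refine jn 364 (by decide +kernel) ?_
    refine jn 366 (by decide +kernel) ?_
    refine jn 375 (by decide +kernel) ?_
    refine jn 377 (by decide +kernel) ?_
    refine jn 379 (by decide +kernel) ?_
    refine jn 391 (by decide +kernel) ?_
    refine jn 406 (by decide +kernel) ?_
    refine jn 421 (by decide +kernel) ?_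
    refine jn 433 (by decide +kernel) ?_
    refine jn 444 (by decide +kernel) ?_
    refine jn 457 (by decide +kernel) ?_
    refine jn 467 (by decide +kernel) ?_
    refine jn 469 (by decide +kernel) ?_
    refine jn 472 (by decide +kernel) ?_
    refine jn 483 (by decide +kernel) ?_
    refine jn 493 (by decide +kernel) ?_
    refine jn 494 (by decide +kernel) ?_
    refine jn 505 (by decide +kernel) ?_
    refine jn 516 (by decide +kernel) ?_
    refine jn 526 (by decide +kernel) ?_
    refine jn 528 (by decide +kernel) ?_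
    refine jn 539 (by decide +kernel) ?_
    refine jn 550 (by decide +kernel) ?_
    refine jn 561 (by decide +kernel) ?_
    refine jn 570 (by decide +kernel) ?_
    refine jn 572 (by decide +kernel) ?_
    refine jn 581 (by decide +kernel) ?_
    refine jn 583 (by decide +kernel) ?_
    refine jn 594 (by decide +kernel) ?_
    refine jn 605 (by decide +kernel) ?_
    refine jn 616 (by decide +kernel) ?_
    refine jn 634 (by decide +kernel) ?_
    refine jn 637 (by decide +kernel) ?_
    refine jn 655 (by decide +kernel) ?_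
    refine jn 666 (by decide +kernel) ?_
    refine jn 675 (by decide +kernel) ?_
    refine jn 684 (by decide +kernel) ?_
    refine jn 699 (by decide +kernel) ?_
    refine jn 708 (by decide +kernel) ?_
    refine jn 725 (by decide +kernel) ?_
    refine jn 742 (by decide +kernel) ?_
    refine jn 754 (by decide +kernel) ?_
    refine jn 762 (by decide +kernel) ?_
    refine jn 772 (by decide +kernel) ?_
    refine jn 783 (by decide +kernel) ?_
    refine jn 791 (by decide +kernel) ?_
    refine jn 808 (by decide +kernel) ?_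
    refine jn 824 (by decide +kernel) ?_
    refine jn 839 (by decide +kernel) ?_
    refine jn 849 (by decide +kernel) ?_
    refine jn 864 (by decide +kernel) ?_
    refine jn 873 (by decide +kernel) ?_
    refine jn 889 (by decide +kernel) ?_
    refine jn 897 (by decide +kernel) ?_
    refine jn 905 (by decide +kernel) ?_
    refine jn 926 (by decide +kernel) ?_
    refine jn 943 (by decide +kernel) ?_
    refine jn 960 (by decide +kernel) ?_
    refine jn 969 (by decide +kernel) ?_
    refine jn 1058 (by decide +kernel) ?_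
    refine jn 1081 (by decide +kernel) ?_
    refine jn 1114 (by decide +kernel) ?_
    refine jn 1145 (by decide +kernel) ?_
    refine jn 1174 (by decide +kernel) ?_
    refine jn 1222 (by decide +kernel) ?_
    refine jn 1278 (by decide +kernel) ?_
    refine jn 1297 (by decide +kernel) ?_
    refine jn 1300 (by decide +kernel) ?_
    refine jn 1309 (by decide +kernel) ?_
    refine jn 1318 (by decide +kernel) ?_
    refine jn 1324 (by decide +kernel) ?_
    refine jn 1329 (by decide +kernel) ?_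
    refine jn 1332 (by decide +kernel) ?_
    refine jn 1336 (by decide +kernel) ?_
    refine jn 1342 (by decide +kernel) ?_
    refine jn 1349 (by decide +kernel) ?_
    refine jn 1358 (by decide +kernel) ?_
    refine jn 1369 (by decide +kernel) ?_
    refine jn 1384 (by decide +kernel) ?_
    refine jn 1390 (by decide +kernel) ?_
    refine jn 1393 (by decide +kernel) ?_
    refine jn 1398 (by decide +kernel) ?_
    refine jn 1405 (by decide +kernel) ?_
    refine jn 1409 (by decide +kernel) ?_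
    refine jn 1420 (by decide +kernel) ?_
    refine jn 1426 (by decide +kernel) ?_
    refine jn 1429 (by decide +kernel) ?_
    refine jn 1446 (by decide +kernel) ?_
    refine jn 1453 (by decide +kernel) ?_
    refine jn 1465 (by decide +kernel) ?_
    refine jn 1477 (by decide +kernel) ?_
    refine jn 1492 (by decide +kernel) ?_
    refine jn 1504 (by decide +kernel) ?_
    refine jn 1517 (by decide +kernel) ?_
    refine jn 1524 (by decide +kernel) ?_
    refine jn 1534 (by decide +kernel) ?_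
    refine jn 1545 (by decide +kernel) ?_
    refine jn 1635 (by decide +kernel) ?_
    refine jn 1679 (by decide +kernel) ?_
    refine jn 1715 (by decide +kernel) ?_
    refine jn 1756 (by decide +kernel) ?_
    refine jn 1812 (by decide +kernel) ?_
    refine jn 1837 (by decide +kernel) ?_
    refine jn 1844 (by decide +kernel) ?_
    refine jn 1851 (by decide +kernel) ?_
    refine jn 1864 (by decide +kernel) ?_
    refine jn 1871 (by decide +kernel) ?_
    refine jn 1880 (by decide +kernel) ?_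
    refine jn 1891 (by decide +kernel) ?_
    refine jn 1901 (by decide +kernel) ?_
    refine jn 1908 (by decide +kernel) ?_
    refine jn 1915 (by decide +kernel) ?_
    refine jn 1923 (by decide +kernel) ?_
    refine jn 1929 (by decide +kernel) ?_
    refine jn 1940 (by decide +kernel) ?_
    refine jn 1957 (by decide +kernel) ?_
    refine jn 1961 (by decide +kernel) ?_
    refine jn 1967 (by decide +kernel) ?_
    refine jn 1971 (by decide +kernel) ?_
    refine jn 1984 (by decide +kernel) ?_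
    refine jn 1989 (by decide +kernel) ?_
    refine jn 2004 (by decide +kernel) ?_
    refine jn 2016 (by decide +kernel) ?_
    refine jn 2025 (by decide +kernel) ?_
    refine jn 2035 (by decide +kernel) ?_
    refine jn 2052 (by decide +kernel) ?_
    refine jn 2080 (by decide +kernel) ?_
    refine jn 2100 (by decide +kernel) ?_
    refine jn 2133 (by decide +kernel) ?_
    refine jn 2155 (by decide +kernel) ?_
    refine jn 2188 (by decide +kernel) ?_
    refine jn 2213 (by decide +kernel) ?_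
    refine jn 2253 (by decide +kernel) ?_
    refine jn 2283 (by decide +kernel) ?_
    refine jn 2311 (by decide +kernel) ?_
    refine jn 2345 (by decide +kernel) ?_
    refine jn 2375 (by decide +kernel) ?_
    refine jn 2402 (by decide +kernel) ?_
    refine jn 2431 (by decide +kernel) ?_
    refine jn 2467 (by decide +kernel) ?_
    refine jn 2499 (by decide +kernel) ?_
    refine jn 2538 (by decide +kernel) ?_
    refine jn 2563 (by decide +kernel) ?_
    refine jn 2597 (by decide +kernel) ?_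
    refine jn 2634 (by decide +kernel) ?_
    refine jn 2663 (by decide +kernel) ?_
    refine jn 2702 (by decide +kernel) ?_
    refine jn 2755 (by decide +kernel) ?_
    refine jn 2863 (by decide +kernel) ?_
    refine jn 2936 (by decide +kernel) ?_
    refine jn 2991 (by decide +kernel) ?_
    refine jn 3045 (by decide +kernel) ?_
    refine jn 3100 (by decide +kernel) ?_
    refine jn 3164 (by decide +kernel) ?_
    refine jn 3219 (by decide +kernel) ?_
    refine jn 3283 (by decide +kernel) ?_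
    refine jn 3332 (by decide +kernel) ?_
    refine jn 3411 (by decide +kernel) ?_
    refine jn 3537 (by decide +kernel) ?_
    refine jn 3593 (by decide +kernel) ?_
    refine jn 3645 (by decide +kernel) ?_
    refine jn 3709 (by decide +kernel) ?_
    refine jn 3770 (by decide +kernel) ?_
    refine jn 3849 (by decide +kernel) ?_
    refine jn 3914 (by decide +kernel) ?_
    refine jn 3997 (by decide +kernel) ?_
    refine jn 4082 (by decide +kernel) ?_
    refine jn 4133 (by decide +kernel) ?_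
    refine jn 4194 (by decide +kernel) ?_
    refine jn 4265 (by decide +kernel) ?_
    refine jn 4346 (by decide +kernel) ?_
    refine jn 4577 (by decide +kernel) ?_
    refine jn 4757 (by decide +kernel) ?_
    refine jn 4898 (by decide +kernel) ?_
    refine jn 5012 (by decide +kernel) ?_
    refine jn 5256 (by decide +kernel) ?_
    refine jn 5388 (by decide +kernel) ?_
    refine jn 5470 (by decide +kernel) ?_
    refine jn 5553 (by decide +kernel) ?_
    refine jn 5621 (by decide +kernel) ?_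
    refine jn 5857 (by decide +kernel) ?_
    refine jn 6001 (by decide +kernel) ?_
    refine jn 6129 (by decide +kernel) ?_
    refine jn 6227 (by decide +kernel) ?_
    refine jn 6316 (by decide +kernel) ?_
    refine jn 6681 (by decide +kernel) ?_
    refine jn 6814 (by decide +kernel) ?_
    refine jn 6966 (by decide +kernel) ?_
    exact je (by decide +kernel)

end Pool.Agent.MP_2339ce_nt.NR
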