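import Pool.Agent.MP_2339ce_nt.Q2.NC.L8
import Pool.Agent.MP_2339ce_nt.Q2.NC.L9
import Pool.Agent.MP_2339ce_nt.Q2.NC.L10
import Pool.Agent.MP_2339ce_nt.Q2.CkI

/-! Block NR: runs. -/

set_option autoImplicit false
set_option maxRecDepth 100000

noncomputable section

namespace Pool.Agent.MP_2339ce_nt.NR

open Q2.Top

def T116_0 : Ph :=
  (.na 296 211 (.na 164 160 (.na 81 139 (.na 41 128 (.na 27 125 (.na 14 121 (.nx 13 1664512 (.nr 12
  1048577 (.nr 1 116 .s1 (.nx 9 104033 (.nx 7 13005 (.nx 3 175 (.nr 2 1134 (.l1 (.ls 23 23 267))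
  (.l1 .sk)) (.nx 4 176 (.l1 .sk) (.lg 0 false 3 89 89 23 0 5040))) (.nr 8 65537 (.lg 0 false 1 89
  89 19 0 1680) .out)) (.nr 11 513 (.lg 0 true 2 71 71 23 0 1680) .out))) .out) .out) (.nx 26
  1664512 (.nr 25 1048577 (.nr 15 121 .s1 (.nx 21 20644 (.nx 17 175 (.nr 16 1171 (.l1 (.ls 23 19
  256)) (.l1 .sk)) (.nx 18 176 (.l1 .sk) (.lg 0 false 3 83 83 19 0 27720))) (.nr 24 32769 (.nr 22
  513 (.lg 0 false 1 71 71 17 0 18480) (.nx 23 104033 (.lg 2 true 1 71 71 17 24437 18480) .out))
  .out))) .out) .out)) (.na 28 127 (.lg 0 false 1 0 0 16 0 24) (.nx 40 1664512 (.nr 39 1048577 (.nr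
  29 127 .s1 (.nx 35 20644 (.nx 31 175 (.nr 30 1199 (.l1 (.ls 19 17 244)) (.l1 .sk)) (.nx 32 176
  (.l1 .sk) (.lg 0 false 3 79 79 17 0 2520))) (.nr 38 32769 (.nr 36 513 (.lg 0 false 1 67 67 16 0
  840) (.nx 37 104033 (.lg 2 true 1 67 67 16 24437 840) .out)) .out))) .out) .out))) (.na 56 131
  (.na 55 129 (.nx 54 1664512 (.nr 53 1048577 (.nr 42 128 .s1 (.nx 48 13005 (.nx 44 175 (.nr 43
  1209 (.l1 (.ls 29 23 242)) (.l1 .sk)) (.nx 45 176 (.l1 .sk) (.lg 0 false 3 79 83 29 0 5040)))
  (.nr 52 65537 (.nx 49 104033 (.lg 0 true 1 83 83 19 0 1680) (.nr 51 1025 (.lg 0 true 2 71 71 23 0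
  1680) .out)) .out))) .out) .out) .ne) (.na 57 134 (.lg 0 false 1 0 0 16 0 24) (.na 69 137 (.nx 68
  832257 (.nr 67 1048577 (.nr 58 134 .s1 (.nx 63 15313 (.nx 59 257 (.l1 (.ls 61 29 495)) (.nr 62
  741457 (.lg 0 false 3 83 83 23 0 5040) .out)) (.nr 66 16385 (.nr 64 1025 (.lg 0 false 1 71 71 19
  0 1680) (.nx 65 104033 (.lg 2 false 1 59 59 19 16560 1680) .out)) .out))) .out) .out) (.nx 80
  832257 (.nr 79 1048577 (.nr 70 137 .s1 (.nx 71 257 (.l1 (.ls 71 19 485)) (.nr 78 741457 (.nr 74
  16385 (.lg 0 true 3 79 79 17 0 2520) (.nx 77 13005 (.lg 0 false 3 73 73 17 0 2520) .out)) .out)))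
  .out) .out))))) (.na 125 149 (.na 92 142 (.na 82 140 (.lg 0 false 1 0 0 16 0 24) (.nx 91 832257
  (.nr 90 1048577 (.nr 83 140 .s1 (.nx 84 257 (.l1 (.ls 67 37 474)) (.nr 89 741457 (.nr 87 16385
  (.lg 0 true 3 79 79 31 0 5040) (.nx 88 13005 (.lg 0 true 1 83 83 29 0 1680) .out)) .out))) .out)
  .out)) (.na 104 145 (.nx 103 832257 (.nr 102 1048577 (.nr 93 142 .s1 (.nx 94 257 (.l1 (.ls 67 29
  468)) (.nr 101 741457 (.nr 97 16385 (.lg 0 true 3 83 83 23 0 5040) (.nx 100 13005 (.lg 0 false 3
  79 79 23 0 5040) .out)) .out))) .out) .out) (.na 114 148 (.nx 113 832257 (.nr 112 1048577 (.nr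
  105 145 .s1 (.nx 106 257 (.l1 (.ls 71 23 458)) (.nr 111 741457 (.nr 109 16385 (.lg 0 true 3 79 79
  19 0 2520) (.nx 110 13005 (.lg 0 true 1 83 83 17 0 1680) .out)) .out))) .out) .out) (.nx 124
  832257 (.nr 123 1048577 (.nr 115 148 .s1 (.nx 119 13005 (.nx 116 257 (.l1 (.ls 73 29 449)) (.nr
  118 741457 (.lg 0 false 2 83 83 23 0 1680) .out)) (.nr 122 16385 (.nx 120 104033 (.lg 0 true 1 79
  79 23 0 1680) (.nr 121 1025 (.lg 0 true 1 71 71 23 0 1680) .out)) .out))) .out) .out)))) (.na 145
  154 (.na 135 151 (.nx 134 832257 (.nr 133 1048577 (.nr 126 149 .s1 (.nx 127 257 (.l1 (.ls 67 19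
  446)) (.nr 132 741457 (.nr 130 16385 (.lg 0 true 3 79 79 17 0 2520) (.nx 131 13005 (.lg 0 true 1
  79 79 16 0 840) .out)) .out))) .out) .out) (.nx 144 832257 (.nr 143 1048577 (.nr 136 151 .s1 (.nx
  137 257 (.l1 (.ls 67 19 440)) (.nr 142 741457 (.nr 140 16385 (.lg 0 true 3 73 73 17 0 2520) (.nx
  141 13005 (.lg 0 true 1 79 79 16 0 840) .out)) .out))) .out) .out)) (.na 153 157 (.nx 152 832257
  (.nr 151 1048577 (.nr 146 154 .s1 (.nx 147 257 (.l1 (.ls 67 37 431)) (.nr 150 741457 (.nr 148
  16385 (.lg 0 false 1 83 83 29 0 18480) (.nx 149 13005 (.lg 0 true 1 83 83 29 0 18480) .out))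
  .out))) .out) .out) (.na 154 158 (.lg 0 false 1 0 0 16 0 24) (.nx 163 832257 (.nr 162 1048577
  (.nr 155 158 .s1 (.nx 156 257 (.l1 (.ls 67 29 421)) (.nr 161 741457 (.nr 159 16385 (.lg 0 true 3
  73 73 23 0 5040) (.nx 160 13005 (.lg 0 true 1 83 83 19 0 1680) .out)) .out))) .out) .out))))))
  (.na 233 182 (.na 203 173 (.na 182 163 (.na 174 161 (.nx 173 832257 (.nr 172 1048577 (.nr 165 160
  .s1 (.nx 166 257 (.l1 (.ls 73 31 415)) (.nr 171 741457 (.nx 167 13005 (.lg 0 false 1 83 83 29 0
  1680) (.nr 170 16385 (.nx 168 104033 (.lg 0 true 1 73 73 29 0 1680) (.nr 169 1025 (.lg 0 true 1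
  67 67 29 0 1680) .out)) .out)) .out))) .out) .out) (.nx 181 832257 (.nr 180 1048577 (.nr 175 161
  .s1 (.nx 176 257 (.l1 (.ls 67 19 413)) (.nr 179 741457 (.nr 177 16385 (.lg 0 false 1 83 83 17 0
  840) (.nx 178 13005 (.lg 0 true 1 83 83 17 0 1680) .out)) .out))) .out) .out)) (.na 192 167 (.nx
  191 832257 (.nr 190 1048577 (.nr 183 163 .s1 (.nx 184 257 (.l1 (.ls 67 19 408)) (.nr 189 741457
  (.nr 187 16385 (.lg 0 true 3 73 73 17 0 2520) (.nx 188 13005 (.lg 0 true 1 79 79 16 0 1680)
  .out)) .out))) .out) .out) (.na 193 172 (.lg 0 false 1 0 0 16 0 24) (.nx 202 832257 (.nr 201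
  1048577 (.nr 194 172 .s1 (.nx 197 13005 (.nx 195 257 (.l1 (.ls 73 29 387)) (.nr 196 741457 (.lg 0
  false 1 83 83 23 0 1680) .out)) (.nr 200 16385 (.nx 198 104033 (.lg 0 true 1 73 73 23 0 1680)
  (.nr 199 1025 (.lg 0 true 1 67 67 23 0 1680) .out)) .out))) .out) .out)))) (.na 214 176 (.na 204
  175 (.lg 0 false 1 0 0 16 0 24) (.nx 213 832257 (.nr 212 1048577 (.nr 205 175 .s1 (.nx 210 104033
  (.nx 206 257 (.l1 (.ls 71 29 380)) (.nr 209 741457 (.nx 207 13005 (.lg 0 false 1 79 79 23 0 840)
  (.nr 208 16385 (.lg 0 true 1 73 73 23 0 1680) .out)) .out)) (.nr 211 1025 (.lg 0 true 1 67 67 23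
  0 840) .out))) .out) .out)) (.na 224 179 (.nx 223 832257 (.nr 222 1048577 (.nr 215 176 .s1 (.nx
  218 13005 (.nx 216 257 (.l1 (.ls 79 31 378)) (.nr 217 741457 (.lg 0 false 1 89 89 31 0 18480)
  .out)) (.nr 221 16385 (.nx 219 104033 (.lg 0 true 1 79 79 31 0 18480) (.nr 220 1025 (.lg 0 true 1
  73 73 31 0 18480) .out)) .out))) .out) .out) (.na 232 181 (.nx 231 832257 (.nr 230 1048577 (.nr
  225 179 .s1 (.nx 226 257 (.l1 (.ls 61 19 371)) (.nr 229 741457 (.nr 227 16385 (.lg 0 false 1 79
  79 16 0 840) (.nx 228 13005 (.lg 0 true 1 79 79 16 0 1680) .out)) .out))) .out) .out) (.lg 0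
  false 1 0 0 16 0 24))))) (.na 268 196 (.na 244 185 (.na 234 184 .ne (.nx 243 832257 (.nr 242
  1048577 (.nr 235 184 .s1 (.nx 240 104033 (.nx 236 257 (.l1 (.ls 79 31 361)) (.nr 239 741457 (.nx
  237 13005 (.lg 0 false 1 89 89 31 0 1680) (.nr 238 16385 (.lg 0 true 1 79 79 31 0 1680) .out))
  .out)) (.nr 241 1025 (.lg 0 true 1 71 71 31 0 1680) .out))) .out) .out)) (.na 252 191 (.nx 251
  832257 (.nr 250 1048577 (.nr 245 185 .s1 (.nx 246 257 (.l1 (.ls 67 23 360)) (.nr 249 741457 (.nr
  247 16385 (.lg 0 false 1 83 83 17 0 840) (.nx 248 13005 (.lg 0 true 1 83 83 17 0 1680) .out))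
  .out))) .out) .out) (.na 260 193 (.nx 259 832257 (.nr 258 1048577 (.nr 253 191 .s1 (.nx 254 257
  (.l1 (.ls 67 19 348)) (.nr 257 741457 (.nr 255 16385 (.lg 0 false 1 79 79 16 0 840) (.nx 256
  13005 (.lg 0 true 1 79 79 16 0 5040) .out)) .out))) .out) .out) (.nx 267 832257 (.nr 266 1048577
  (.nr 261 193 .s1 (.nx 262 257 (.l1 (.ls 61 19 345)) (.nr 265 741457 (.nr 263 16385 (.lg 0 false 1
  79 79 16 0 840) (.nx 264 13005 (.lg 0 true 1 73 73 16 0 840) .out)) .out))) .out) .out)))) (.na
  277 199 (.na 269 197 (.lg 0 false 1 0 0 16 0 24) (.nx 276 832257 (.nr 275 1048577 (.nr 270 197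
  .s1 (.nx 271 257 (.l1 (.ls 61 19 338)) (.nr 274 741457 (.nr 272 16385 (.lg 0 false 1 79 79 16 0
  1680) (.nx 273 13005 (.lg 0 true 1 73 73 16 0 1680) .out)) .out))) .out) .out)) (.na 278 200 (.lg
  0 false 1 0 0 16 0 24) (.na 288 203 (.nx 287 832257 (.nr 286 1048577 (.nr 279 200 .s1 (.nx 280
  257 (.l1 (.ls 83 31 333)) (.nr 285 741457 (.nx 281 13005 (.lg 0 false 1 89 101 37 0 55440) (.nr
  284 16385 (.nx 282 104033 (.lg 0 true 1 79 89 37 0 55440) (.nr 283 1025 (.lg 0 true 1 71 79 37 0
  5040) .out)) .out)) .out))) .out) .out) (.nx 295 832257 (.nr 294 1048577 (.nr 289 203 .s1 (.nx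
  290 257 (.l1 (.ls 67 23 328)) (.nr 293 741457 (.nr 291 16385 (.lg 0 false 1 83 83 17 0 840) (.nx
  292 13005 (.lg 0 true 1 79 79 17 0 840) .out)) .out))) .out) .out))))))) (.na 414 251 (.na 367
  227 (.na 330 218 (.na 314 214 (.na 304 212 (.nx 303 832257 (.nr 302 1048577 (.nr 297 211 .s1 (.nx
  298 257 (.l1 (.ls 61 19 316)) (.nr 301 741457 (.nr 299 16385 (.lg 0 false 1 79 79 16 0 1680) (.nx
  300 13005 (.lg 0 true 1 73 73 16 0 840) .out)) .out))) .out) .out) (.nx 313 832257 (.nr 312
  1048577 (.nr 305 212 .s1 (.nx 306 257 (.l1 (.ls 73 29 314)) (.nr 311 741457 (.nx 309 104033 (.nx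
  307 13005 (.lg 0 false 1 83 83 23 0 1680) (.nr 308 16385 (.lg 0 true 1 73 73 23 0 1680) .out))
  (.nr 310 1025 (.lg 0 true 1 67 67 23 0 1680) .out)) .out))) .out) .out)) (.na 322 215 (.nx 321
  832257 (.nr 320 1048577 (.nr 315 214 .s1 (.nx 316 257 (.l1 (.ls 67 29 311)) (.nr 319 741457 (.nr
  317 16385 (.lg 0 false 1 79 79 23 0 1680) (.nx 318 13005 (.lg 0 true 1 79 79 23 0 1680) .out))
  .out))) .out) .out) (.nx 329 832257 (.nr 328 1048577 (.nr 323 215 .s1 (.nx 324 257 (.l1 (.ls 67
  23 310)) (.nr 327 741457 (.nx 325 13005 (.lg 0 true 1 79 79 17 0 840) (.nr 326 16385 (.lg 0 false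
  1 83 83 17 0 840) .out)) .out))) .out) .out))) (.na 348 223 (.na 338 220 (.nx 337 832257 (.nr 336
  1048577 (.nr 331 218 .s1 (.nx 332 257 (.l1 (.ls 67 29 305)) (.nr 335 741457 (.nr 333 16385 (.lg 0
  false 1 79 79 23 0 1680) (.nx 334 13005 (.lg 0 true 1 79 79 23 0 5040) .out)) .out))) .out) .out)
  (.nx 347 832257 (.nr 346 1048577 (.nr 339 220 .s1 (.nx 340 257 (.l1 (.ls 71 37 303)) (.nr 345
  741457 (.nx 341 13005 (.lg 0 false 1 79 79 31 0 18480) (.nr 344 16385 (.nx 342 104033 (.lg 0 true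
  1 71 71 31 0 18480) (.nr 343 1025 (.lg 0 true 1 61 61 31 0 18480) .out)) .out)) .out))) .out)
  .out)) (.na 349 224 (.lg 0 false 1 0 0 16 0 24) (.na 359 226 (.nx 358 832257 (.nr 357 1048577
  (.nr 350 224 .s1 (.nx 355 104033 (.nx 351 257 (.l1 (.ls 71 31 297)) (.nr 354 741457 (.nx 352
  13005 (.lg 0 false 1 79 79 29 0 1680) (.nr 353 16385 (.lg 0 true 1 71 71 29 0 1680) .out)) .out))
  (.nr 356 1025 (.lg 0 true 1 61 61 29 0 1680) .out))) .out) .out) (.nx 366 832257 (.nr 365 1048577
  (.nr 360 226 .s1 (.nx 361 257 (.l1 (.ls 61 29 295)) (.nr 364 741457 (.nx 362 13005 (.lg 0 true 1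
  73 73 23 0 1680) (.nr 363 16385 (.lg 0 false 1 79 79 23 0 18480) .out)) .out))) .out) .out)))))
  (.na 395 239 (.na 369 230 (.na 368 229 (.lg 0 false 1 0 0 16 0 24) (.lg 0 false 1 0 0 16 0 24))
  (.na 377 232 (.nx 376 832257 (.nr 375 1048577 (.nr 370 230 .s1 (.nx 371 257 (.l1 (.ls 67 37 290))
  (.nr 374 741457 (.nx 372 13005 (.lg 0 true 1 79 79 31 0 1680) (.nr 373 16385 (.lg 0 false 1 83 83
  31 0 1680) .out)) .out))) .out) .out) (.na 387 233 (.nx 386 832257 (.nr 385 1048577 (.nr 378 232
  .s1 (.nx 383 104033 (.nx 379 257 (.l1 (.ls 79 23 287)) (.nr 382 741457 (.nx 380 13005 (.lg 0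
  false 1 89 89 23 0 1680) (.nr 381 16385 (.lg 0 true 1 73 79 23 0 1680) .out)) .out)) (.nr 384
  1025 (.lg 0 true 1 71 71 23 0 1680) .out))) .out) .out) (.nx 394 832257 (.nr 393 1048577 (.nr 388
  233 .s1 (.nx 389 257 (.l1 (.ls 61 19 286)) (.nr 392 741457 (.nr 390 16385 (.lg 0 false 1 73 73 17
  0 840) (.nx 391 13005 (.lg 0 true 1 73 73 17 0 1680) .out)) .out))) .out) .out)))) (.na 404 242
  (.na 403 241 (.nx 402 832257 (.nr 401 1048577 (.nr 396 239 .s1 (.nx 397 257 (.l1 (.ls 61 19 279))
  (.nr 400 741457 (.nr 398 16385 (.lg 0 false 1 73 73 17 0 840) (.nx 399 13005 (.lg 0 true 1 73 73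
  17 0 1680) .out)) .out))) .out) .out) (.lg 0 false 1 0 0 16 0 24)) (.na 412 245 (.nx 411 832257
  (.nr 410 1048577 (.nr 405 242 .s1 (.nx 406 257 (.l1 (.ls 67 31 275)) (.nr 409 741457 (.nx 407
  13005 (.lg 0 true 1 79 79 29 0 18480) (.nr 408 16385 (.lg 0 false 1 79 79 29 0 18480) .out))
  .out))) .out) .out) (.na 413 250 (.lg 0 false 1 0 0 16 0 24) (.lg 0 false 1 0 0 16 0 24))))))
  (.na 4788 2897 (.na 1242 512 (.na 423 254 (.na 415 253 (.lg 0 false 1 0 0 16 0 24) (.nx 422
  832257 (.nr 421 1048577 (.nr 416 253 .s1 (.nx 417 257 (.l1 (.ls 73 19 264)) (.nr 420 741457 (.nr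
  418 16385 (.lg 0 false 1 83 83 19 0 9240) (.nx 419 13005 (.lg 0 true 1 83 83 19 0 9240) .out))
  .out))) .out) .out)) (.na 431 256 (.nx 430 832257 (.nr 429 1048577 (.nr 424 254 .s1 (.nx 425 257
  (.l1 (.ls 61 29 263)) (.nr 428 741457 (.nr 426 16385 (.lg 0 false 1 79 79 23 0 5040) (.nx 427
  13005 (.lg 0 true 1 73 73 23 0 1680) .out)) .out))) .out) .out) (.na 441 257 (.nx 440 832257 (.nr
  439 1482912 (.nr 432 256 .s1 (.nx 437 104033 (.nx 433 205 (.l1 (.ls 71 23 167)) (.nr 436 1048577
  (.nx 434 13005 (.lg 0 false 1 79 79 29 0 1680) (.nr 435 32769 (.lg 0 true 1 71 71 29 0 1680)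
  .out)) .out)) (.nr 438 2049 (.lg 0 true 1 61 61 29 0 1680) .out))) .out) .out) (.nx 1241 832257
  (.nr 1240 1482912 (.nr 442 257 .s1 (.nx 728 205 (.nx 698 175 (.nr 697 4797 (.la (.ls 37 19 129))
  (.l1 .sk)) (.nx 699 176 (.l1 .sk) (.lx (.lp 83 17 129)))) (.nr 1239 1048577 (.nr 983 32769 (.la
  (.lg 0 true 1 79 79 23 0)) (.nx 1238 10323 (.la (.lg 0 false 1 73 73 23 0)) .out)) .out))) .out)
  .out)))) (.na 2480 1024 (.na 1878 725 (.nx 1877 832257 (.nr 1876 1482912 (.nr 1243 512 .s1 (.nx
  1419 176 (.nx 1418 175 (.nr 1417 6792 (.lx (.lp 37 19 182)) (.l1 .sk)) (.l1 .sk)) (.nx 1448 205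
  (.lx (.lp 73 19 182)) (.nr 1875 1048577 (.nx 1661 22297 (.la (.lg 0 false 1 71 71 29 0)) (.nr
  1874 32769 (.la (.lg 2 true 1 61 61 29 142232)) .out)) .out)))) .out) .out) (.nx 2479 10323 (.nr
  2478 1048577 (.nr 1879 725 .s1 (.nx 2178 2049 (.la (.ls 67 41 5793)) (.nr 2477 16385 (.la (.lg 0
  true 1 37 41 29 0)) .out))) .out) .out)) (.na 3334 1449 (.nx 3333 10323 (.nr 3332 1048577 (.nr
  2481 1024 .s1 (.nx 2906 2582 (.la (.ls 67 41 6513)) (.nr 3331 16385 (.la (.ls 37 53 97559))
  .out))) .out) .out) (.na 3936 2048 (.nx 3935 2582 (.nr 3934 524289 (.nr 3335 1449 .s1 (.la (.ls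
  59 37 4603))) .out) .out) (.nx 4787 3252 (.nr 4786 524289 (.nr 3937 2048 .s1 (.la (.ls 59 41
  5166))) .out) .out))))) (.na 11926 32768 (.na 8042 5793 (.na 6166 4096 (.nx 6165 2582 (.nr 6164
  262145 (.nr 4789 2897 .s1 (.nx 4964 175 (.nr 4963 38370 (.lx (.lp 37 31 1025)) (.l1 .sk)) (.nx
  4965 176 (.l1 .sk) (.la (.ls 47 37 2293))))) .out) .out) (.nx 8041 2582 (.nr 8040 262145 (.nr
  6167 4096 .s1 (.nx 6343 176 (.nx 6342 175 (.nr 6341 54267 (.lx (.lp 41 31 1449)) (.l1 .sk)) (.l1
  .sk)) (.la (.ls 47 37 1623)))) .out) .out)) (.na 9336 8192 (.nx 9335 1292 (.nr 9334 65537 (.nr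
  8043 5793 .s1 (.lx (.lp 41 37 2049))) .out) .out) (.na 10631 16384 (.nx 10630 1292 (.nr 10629
  131073 (.nr 9337 8192 .s1 (.nx 9541 205 (.lx (.lp 43 41 4097)) (.nr 10628 65537 (.lx (.lp 41 41
  4097)) .out))) .out) .out) (.nx 11925 1292 (.nr 11924 262145 (.nr 10632 16384 .s1 (.nx 10836 205
  (.lx (.lp 16 41 8193)) (.nr 11923 131073 (.lx (.lp 37 43 8193)) .out))) .out) .out)))) (.na 13982
  131072 (.na 12954 65536 (.nx 12953 1025 (.nr 12952 262145 (.nr 11927 32768 .s1 (.nx 12131 205
  (.lx (.lp 16 0 16385)) (.nr 12951 131073 (.lx (.lp 37 47 16385)) .out))) .out) .out) (.nx 13981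
  1025 (.nr 13980 262145 (.nr 12955 65536 .s1 (.nx 13278 324 (.lx (.lp 19 47 32769)) (.nr 13979
  131073 (.lx (.lp 29 53 32769)) .out))) .out) .out)) (.na 13984 262144 (.nx 13983 324 (.l1 .sk)
  .out) (.na 13986 524289 (.nx 13985 205 (.l1 .sk) .out) .out)))))))

def T116_1 : Ph :=
  (.na 488 178 (.na 285 106 (.na 170 62 (.na 91 44 (.na 62 36 (.na 61 23 (.nx 60 2642247 (.nr 59
  1246976 (.nr 1 17 .s1 (.nx 19 25993 (.nx 5 408 (.nx 3 228 (.nr 2 246 (.lg 0 false 1 31 31 9 0
  150480) (.l1 .sk)) (.nx 4 229 (.l1 .sk) (.l1 (.ls 89 47 5185)))) (.nr 18 741457 (.nr 12 311745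
  (.lg 0 false 7 101 101 19 0 1053360) (.nx 17 1627 (.lg 0 false 5 79 83 19 0 50160) .out)) .out))
  (.nr 58 220437 (.nr 38 77937 (.nx 32 660563 (.nr 24 1726 (.lg 0 true 5 83 83 19 0 50160) (.nx 31
  524289 (.lg 2 false 7 83 83 19 78164 70224) .out)) (.nr 37 129 (.lg 0 true 5 71 71 19 0 50160)
  .out)) (.nx 57 416129 (.nx 51 262145 (.lg 0 true 13 101 109 23 0 13693680) (.nr 56 92683 (.lg 0
  true 5 89 97 19 0 150480) .out)) .out)) .out))) .out) .out) .ne) (.na 63 38 (.lg 0 false 1 0 0 7
  0 24) (.nx 90 2642247 (.nr 89 881745 (.nr 64 35 .s1 (.nx 65 408 (.l1 (.ls 71 47 4383)) (.nr 88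
  623489 (.nx 72 41287 (.lg 0 false 7 89 89 13 0 6384) (.nr 87 110219 (.nr 79 471 (.lg 0 true 7 67
  67 13 0 6384) (.nx 86 262145 (.lg 2 false 7 83 83 13 69533 95760) .out)) .out)) .out))) .out)
  .out))) (.na 141 54 (.na 118 46 (.nx 117 2642247 (.nr 116 881745 (.nr 92 42 .s1 (.nx 94 228 (.nr
  93 492 (.l1 (.ls 31 41 1184)) (.l1 .sk)) (.nx 95 229 (.l1 .sk) (.nx 96 408 (.l1 (.ls 79 43 2594))
  (.nr 115 623489 (.nr 109 185365 (.nx 101 65537 (.lg 0 false 5 89 101 29 0 150480) (.nr 108 77937
  (.nx 104 262145 (.nr 102 1308 (.lg 0 false 1 73 73 19 0 10032) (.lg 2 false 2 89 97 23 31001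
  30096)) (.nr 107 257 (.lg 0 true 3 73 73 23 0 30096) .out)) .out)) (.nx 114 16385 (.lg 0 false 5
  89 97 29 0 150480) .out)) .out))))) .out) .out) (.nx 140 2642247 (.nr 139 881745 (.nr 119 44 .s1
  (.nx 127 32769 (.nx 121 228 (.nr 120 577 (.lg 0 true 1 23 23 13 0 2736) (.l1 .sk)) (.nx 122 229
  (.l1 .sk) (.lg 0 false 5 97 101 19 0 13680))) (.nr 138 92683 (.nr 132 577 (.lg 0 true 5 71 71 19
  0 4560) (.nx 137 262145 (.lg 2 false 5 89 97 19 73698 13680) .out)) .out))) .out) .out)) (.na 142
  58 (.lg 0 false 1 0 0 16 0 24) (.nx 169 2642247 (.nr 168 881745 (.nr 143 57 .s1 (.nx 146 229 (.nx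
  145 228 (.nr 144 663 (.l1 (.ls 23 37 899)) (.l1 .sk)) (.l1 .sk)) (.nx 153 32769 (.lg 0 false 7 97
  97 23 0 6384) (.nr 167 92683 (.nr 164 46342 (.nx 160 262145 (.lg 0 true 7 83 83 23 0 6384) (.nr
  163 257 (.lg 0 true 3 71 71 19 0 2736) .out)) (.nx 166 82572 (.lg 0 true 2 83 83 13 0 912) .out))
  .out)))) .out) .out)))) (.na 231 82 (.na 193 66 (.na 192 64 (.nx 191 2642247 (.nr 190 881745 (.nr
  171 61 .s1 (.nx 174 229 (.nx 173 228 (.nr 172 684 (.l1 (.ls 23 29 841)) (.l1 .sk)) (.l1 .sk))
  (.nx 181 32769 (.lg 0 false 7 97 101 23 0 95760) (.nr 189 92683 (.nr 186 684 (.lg 0 true 5 73 73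
  19 0 4560) (.nx 188 262145 (.lg 2 false 2 89 89 17 73698 912) .out)) .out)))) .out) .out) .ne)
  (.na 212 76 (.nx 211 2642247 (.nr 210 2097153 (.nr 194 65 .s1 (.nx 195 408 (.l1 (.ls 79 47 2525))
  (.nr 209 1048577 (.nx 200 32769 (.lg 0 false 5 97 97 31 0 150480) (.nr 208 65537 (.nr 205 813
  (.lg 0 true 5 71 71 31 0 150480) (.nx 207 416129 (.lg 2 false 2 83 83 29 58351 30096) .out))
  .out)) .out))) .out) .out) (.nx 230 2642247 (.nr 229 2097153 (.nr 213 75 .s1 (.nx 220 32769 (.nx
  214 408 (.l1 (.ls 73 41 2193)) (.nr 219 1048577 (.lg 0 false 5 89 89 29 0 4560) .out)) (.nr 228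
  65537 (.nr 225 877 (.lg 0 true 5 71 71 29 0 4560) (.nx 227 416129 (.lg 2 false 2 79 79 17 54093
  912) .out)) .out))) .out) .out))) (.na 253 92 (.na 252 91 (.nx 251 2642247 (.nr 250 2097153 (.nr
  232 81 .s1 (.nx 241 32769 (.nx 233 408 (.l1 (.ls 83 37 2033)) (.nr 240 1048577 (.lg 0 false 7 97
  97 23 0 95760) .out)) (.nr 249 65537 (.nr 246 973 (.lg 0 true 5 73 73 23 0 4560) (.nx 248 416129
  (.lg 2 false 2 83 83 19 52165 912) .out)) .out))) .out) .out) .ne) (.na 268 94 (.nx 267 2642247
  (.nr 266 2097153 (.nr 254 91 .s1 (.nx 255 408 (.l1 (.ls 83 41 1812)) (.nr 265 1482912 (.nx 260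
  26009 (.lg 0 false 5 89 101 31 0 13680) (.nr 264 65537 (.nr 262 513 (.lg 0 true 2 73 73 19 0 912)
  (.nx 263 416129 (.lg 2 false 1 101 101 19 92474 95760) .out)) .out)) .out))) .out) .out) (.nx 284
  2642247 (.nr 283 2097153 (.nr 269 93 .s1 (.nx 270 408 (.l1 (.ls 73 37 1773)) (.nr 282 1482912
  (.nx 275 26009 (.lg 0 false 5 89 89 23 0 4560) (.nr 281 65537 (.nr 278 513 (.lg 0 true 3 67 67 19
  0 2736) (.nx 280 416129 (.lg 2 false 2 83 83 19 92474 2736) .out)) .out)) .out))) .out) .out)))))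
  (.na 380 134 (.na 333 122 (.na 302 114 (.na 301 108 (.nx 300 2642247 (.nr 299 2097153 (.nr 286
  105 .s1 (.nx 293 26009 (.nx 287 408 (.l1 (.ls 79 37 1573)) (.nr 292 1482912 (.lg 0 false 5 89 89
  23 0 4560) .out)) (.nr 298 65537 (.nr 295 513 (.lg 0 true 2 67 67 19 0 912) (.nx 297 416129 (.lg
  2 true 2 83 83 19 92474 912) .out)) .out))) .out) .out) (.lg 0 false 1 0 0 16 0 24)) (.na 318 116
  (.nx 317 2642247 (.nr 316 2097153 (.nr 303 113 .s1 (.nx 304 408 (.l1 (.ls 67 43 1463)) (.nr 315
  1482912 (.nx 309 26009 (.lg 0 true 5 79 79 31 0 13680) (.nr 314 65537 (.nr 311 513 (.lg 0 false 2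
  61 61 29 0 2736) (.nx 313 416129 (.lg 2 false 2 73 73 29 92474 2736) .out)) .out)) .out))) .out)
  .out) (.nx 332 2642247 (.nr 331 2097153 (.nr 319 116 .s1 (.nx 320 408 (.l1 (.ls 79 41 1438)) (.nr
  330 1482912 (.nx 325 26009 (.lg 0 false 5 89 97 23 0 13680) (.nr 329 65537 (.nr 327 513 (.lg 0
  true 2 67 67 23 0 912) (.nx 328 416129 (.lg 2 false 1 89 89 19 92474 2736) .out)) .out)) .out)))
  .out) .out))) (.na 365 128 (.na 350 124 (.nx 349 2642247 (.nr 348 2097153 (.nr 334 122 .s1 (.nx
  335 408 (.l1 (.ls 79 37 1367)) (.nr 347 1482912 (.nx 342 26009 (.lg 0 false 7 89 89 29 0 95760)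
  (.nr 346 65537 (.nr 344 513 (.lg 0 true 2 67 67 19 0 912) (.nx 345 416129 (.lg 2 false 1 83 83 19
  92474 912) .out)) .out)) .out))) .out) .out) (.nx 364 2642247 (.nr 363 2097153 (.nr 351 124 .s1
  (.nx 358 26009 (.nx 352 408 (.l1 (.ls 83 41 1345)) (.nr 357 1482912 (.lg 0 false 5 89 101 29 0
  150480) .out)) (.nr 362 65537 (.nr 360 513 (.lg 0 true 2 71 71 23 0 912) (.nx 361 416129 (.lg 2
  false 1 89 89 19 92474 912) .out)) .out))) .out) .out)) (.na 366 132 .ne (.nx 379 1321124 (.nr
  378 2097153 (.nr 367 132 .s1 (.nx 373 26009 (.nx 369 228 (.nr 368 1433 (.l1 (.ls 37 37 396)) (.l1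
  .sk)) (.nx 370 229 (.l1 .sk) (.lg 0 false 3 97 101 37 0 150480))) (.nr 377 65537 (.nr 375 1025
  (.lg 0 true 2 73 73 31 0 30096) (.nx 376 165142 (.lg 2 true 1 89 89 31 65724 30096) .out))
  .out))) .out) .out)))) (.na 442 162 (.na 410 146 (.na 395 138 (.nx 394 1321124 (.nr 393 2097153
  (.nr 381 134 .s1 (.nx 384 229 (.nx 383 228 (.nr 382 1475 (.l1 (.ls 17 29 390)) (.l1 .sk)) (.l1
  .sk)) (.nx 389 26009 (.lg 0 false 5 89 89 29 0 4560) (.nr 392 65537 (.nr 390 1025 (.lg 0 false 1
  71 71 19 0 912) (.nx 391 165142 (.lg 2 false 1 83 83 19 65724 912) .out)) .out)))) .out) .out)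
  (.nx 409 1321124 (.nr 408 2097153 (.nr 396 138 .s1 (.nx 398 228 (.nr 397 1561 (.l1 (.ls 17 37
  379)) (.l1 .sk)) (.nx 399 229 (.l1 .sk) (.nx 404 26009 (.lg 0 false 5 89 89 37 0 13680) (.nr 407
  65537 (.nr 405 1025 (.lg 0 false 1 73 73 19 0 13680) (.nx 406 165142 (.lg 2 false 1 83 83 19
  65724 13680) .out)) .out))))) .out) .out)) (.na 425 158 (.nx 424 1321124 (.nr 423 2097153 (.nr
  411 146 .s1 (.nx 419 41287 (.nx 413 228 (.nr 412 1689 (.l1 (.ls 17 29 359)) (.l1 .sk)) (.nx 414
  229 (.l1 .sk) (.lg 0 false 5 89 89 29 0 4560))) (.nr 422 16385 (.nr 420 1025 (.lg 0 false 1 67 67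
  19 0 912) (.nx 421 165142 (.lg 2 true 1 59 59 19 18368 912) .out)) .out))) .out) .out) (.nx 441
  1321124 (.nr 440 2097153 (.nr 426 158 .s1 (.nx 428 228 (.nr 427 1732 (.l1 (.ls 23 29 332)) (.l1
  .sk)) (.nx 429 229 (.l1 .sk) (.nx 436 41287 (.lg 0 false 7 89 97 29 0 95760) (.nr 439 16385 (.nr
  437 1025 (.lg 0 false 1 67 67 19 0 912) (.nx 438 165142 (.lg 2 false 1 59 59 19 18368 912) .out))
  .out))))) .out) .out))) (.na 458 166 (.na 443 164 (.lg 0 false 1 0 0 16 0 24) (.nx 457 1321124
  (.nr 456 2097153 (.nr 444 164 .s1 (.nx 452 26009 (.nx 446 228 (.nr 445 1775 (.l1 (.ls 23 29 319))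
  (.l1 .sk)) (.nx 447 229 (.l1 .sk) (.lg 0 false 5 83 97 31 0 13680))) (.nr 455 65537 (.nr 453 1025
  (.lg 0 true 1 67 67 23 0 912) (.nx 454 165142 (.lg 2 true 1 83 83 23 65724 2736) .out)) .out)))
  .out) .out)) (.na 473 174 (.nx 472 1321124 (.nr 471 2097153 (.nr 459 166 .s1 (.nx 462 229 (.nx
  461 228 (.nr 460 1860 (.l1 (.ls 17 29 316)) (.l1 .sk)) (.l1 .sk)) (.nx 467 41287 (.lg 0 false 5
  79 89 29 0 4560) (.nr 470 16385 (.nr 468 1025 (.lg 0 false 1 67 67 19 0 2736) (.nx 469 165142
  (.lg 2 false 1 59 59 19 18368 2736) .out)) .out)))) .out) .out) (.nx 487 1321124 (.nr 486 2097153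
  (.nr 474 174 .s1 (.nx 477 229 (.nx 476 228 (.nr 475 1903 (.l1 (.ls 17 37 301)) (.l1 .sk)) (.l1
  .sk)) (.nx 482 41287 (.lg 0 false 5 89 89 37 0 13680) (.nr 485 16385 (.nr 483 1025 (.lg 0 false 1
  71 71 23 0 2736) (.nx 484 165142 (.lg 2 false 1 61 61 23 18368 2736) .out)) .out)))) .out)
  .out)))))) (.na 1515 512 (.na 572 228 (.na 529 198 (.na 502 186 (.na 501 182 (.nx 500 1321124
  (.nr 499 2097153 (.nr 489 178 .s1 (.nx 491 228 (.nr 490 1946 (.l1 (.ls 23 29 295)) (.l1 .sk))
  (.nx 492 229 (.l1 .sk) (.nx 495 26009 (.lg 0 false 3 83 83 23 0 13680) (.nr 498 65537 (.nr 496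
  1025 (.lg 0 false 1 67 67 19 0 13680) (.nx 497 165142 (.lg 2 false 1 73 73 19 65724 13680) .out))
  .out))))) .out) .out) .ne) (.na 517 188 (.nx 516 1321124 (.nr 515 1482912 (.nr 503 186 .s1 (.nx
  506 229 (.nx 505 228 (.nr 504 2010 (.l1 (.ls 17 29 282)) (.l1 .sk)) (.l1 .sk)) (.nx 511 41287
  (.lg 0 false 5 83 89 37 0 13680) (.nr 514 16385 (.nr 512 1025 (.lg 0 false 1 71 71 29 0 2736)
  (.nx 513 165142 (.lg 2 false 1 61 61 29 18368 2736) .out)) .out)))) .out) .out) (.nx 528 1321124
  (.nr 527 1482912 (.nr 518 188 .s1 (.nx 523 26009 (.nx 520 228 (.nr 519 2117 (.l1 (.ls 31 29 279))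
  (.l1 .sk)) (.nx 521 229 (.l1 .sk) (.lg 0 false 2 97 97 29 0 13680))) (.nr 526 65537 (.nr 524 1025
  (.lg 0 true 1 71 71 23 0 912) (.nx 525 165142 (.lg 2 true 1 83 83 23 65724 912) .out)) .out)))
  .out) .out))) (.na 545 212 (.na 530 206 (.lg 0 false 1 0 0 16 0 24) (.nx 544 1321124 (.nr 543
  1482912 (.nr 531 206 .s1 (.nx 539 41287 (.nx 533 228 (.nr 532 2266 (.l1 (.ls 17 29 255)) (.l1
  .sk)) (.nx 534 229 (.l1 .sk) (.lg 0 false 5 79 79 29 0 4560))) (.nr 542 16385 (.nr 540 1025 (.lg
  0 false 1 61 61 23 0 912) (.nx 541 165142 (.lg 2 false 1 53 53 23 18368 912) .out)) .out))) .out)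
  .out)) (.na 557 226 (.nx 556 1321124 (.nr 555 1482912 (.nr 546 212 .s1 (.nx 553 165142 (.nx 551
  26009 (.nx 548 228 (.nr 547 2416 (.l1 (.ls 31 29 248)) (.l1 .sk)) (.nx 549 229 (.l1 .sk) (.lg 0
  false 2 89 97 29 0 912))) (.nr 552 65537 (.lg 0 true 1 89 89 23 0 912) .out)) (.nr 554 1025 (.lg
  0 true 1 67 67 23 0 912) .out))) .out) .out) (.nx 571 1321124 (.nr 570 1482912 (.nr 558 226 .s1
  (.nx 561 229 (.nx 560 228 (.nr 559 2438 (.l1 (.ls 16 29 233)) (.l1 .sk)) (.l1 .sk)) (.nx 566
  41287 (.lg 0 false 5 79 79 29 0 13680) (.nr 569 16385 (.nr 567 1025 (.lg 0 false 1 59 59 23 0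
  912) (.nx 568 165142 (.lg 2 false 1 53 53 23 18368 2736) .out)) .out)))) .out) .out)))) (.na 620
  254 (.na 595 244 (.na 583 242 (.nx 582 1321124 (.nr 581 1482912 (.nr 573 228 .s1 (.nx 576 229
  (.nx 575 228 (.nr 574 2587 (.l1 (.ls 23 37 230)) (.l1 .sk)) (.l1 .sk)) (.nx 579 41287 (.lg 0
  false 3 83 83 37 0 2736) (.nr 580 16385 (.lg 0 false 1 83 83 31 0 2736) .out)))) .out) .out) (.nx
  594 1321124 (.nr 593 1482912 (.nr 584 242 .s1 (.nx 586 228 (.nr 585 2609 (.l1 (.ls 23 29 217))
  (.l1 .sk)) (.nx 587 229 (.l1 .sk) (.nx 589 41287 (.lg 0 false 2 83 83 29 0 10032) (.nr 592 16385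
  (.nr 590 1025 (.lg 0 false 1 61 61 29 0 10032) (.nx 591 165142 (.lg 2 true 1 53 53 29 18368
  10032) .out)) .out))))) .out) .out)) (.na 607 246 (.nx 606 1321124 (.nr 605 1482912 (.nr 596 244
  .s1 (.nx 601 26009 (.nx 598 228 (.nr 597 2630 (.l1 (.ls 23 29 216)) (.l1 .sk)) (.nx 599 229 (.l1
  .sk) (.lg 0 false 2 83 89 29 0 2736))) (.nr 604 65537 (.nx 602 165142 (.lg 0 true 1 79 79 23 0
  912) (.nr 603 1025 (.lg 0 true 1 61 61 23 0 912) .out)) .out))) .out) .out) (.nx 619 1321124 (.nr
  618 1482912 (.nr 608 246 .s1 (.nx 616 41287 (.nx 610 228 (.nr 609 2715 (.l1 (.ls 17 31 214)) (.l1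
  .sk)) (.nx 611 229 (.l1 .sk) (.lg 0 false 5 83 83 37 0 13680))) (.nr 617 16385 (.lg 0 false 1 83
  83 29 0 2736) .out))) .out) .out))) (.na 631 257 (.na 630 256 (.nx 629 1321124 (.nr 628 1482912
  (.nr 621 254 .s1 (.nx 626 41287 (.nx 623 228 (.nr 622 2737 (.l1 (.ls 16 29 207)) (.l1 .sk)) (.nx
  624 229 (.l1 .sk) (.lg 0 false 2 79 79 23 0 912))) (.nr 627 16385 (.lg 0 false 1 79 79 23 0 2736)
  .out))) .out) .out) .ne) (.na 1062 363 (.nx 1061 1321124 (.nr 1060 1482912 (.nr 632 257 .s1 (.nx
  740 229 (.nx 739 228 (.nr 738 3881 (.la (.ls 43 19 205)) (.l1 .sk)) (.l1 .sk)) (.nx 846 26009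
  (.la (.lg 0 false 2 79 79 23 0)) (.nr 1059 32769 (.nr 952 2049 (.la (.lg 0 true 1 61 61 19 0))
  (.nx 1058 165142 (.la (.lg 2 false 1 61 61 19 32977)) .out)) .out)))) .out) .out) (.nx 1514
  1321124 (.nr 1513 1482912 (.nr 1063 363 .s1 (.nx 1363 26009 (.nx 1213 228 (.nr 1212 5473 (.la
  (.ls 43 19 146)) (.l1 .sk)) (.nx 1214 229 (.l1 .sk) (.la (.lg 0 true 1 79 79 23 0)))) (.nr 1512
  32769 (.la (.lg 2 false 1 71 71 23 414899)) .out))) .out) .out))))) (.na 11298 8192 (.na 4818
  2048 (.na 2762 1024 (.na 2160 725 (.nx 2159 1321124 (.nr 2158 1482912 (.nr 1516 512 .s1 (.nx 1731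
  229 (.nx 1730 228 (.nr 1729 7750 (.la (.ls 41 23 182)) (.l1 .sk)) (.l1 .sk)) (.nx 1944 26009 (.la
  (.lg 0 true 1 73 73 23 0)) (.nr 2157 32769 (.la (.lg 2 false 1 67 67 23 294157)) .out)))) .out)
  .out) (.nx 2761 20644 (.nr 2760 2097153 (.nr 2161 725 .s1 (.nx 2460 2049 (.la (.ls 71 37 5793))
  (.nr 2759 262145 (.la (.lg 0 false 1 59 59 29 0)) .out))) .out) .out)) (.na 3616 1449 (.nx 3615
  20644 (.nr 3614 2097153 (.nr 2763 1024 .s1 (.nx 3188 3252 (.la (.ls 67 41 10330)) (.nr 3613
  131073 (.la (.lg 0 false 1 47 47 31 0)) .out))) .out) .out) (.nx 4817 13005 (.nr 4816 2097153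
  (.nr 3617 1449 .s1 (.nx 4216 3252 (.la (.ls 89 41 7301)) (.nr 4815 16385 (.la (.lg 0 false 1 29
  29 31 0)) .out))) .out) .out))) (.na 6872 4096 (.na 5670 2897 (.nx 5669 13005 (.nr 5668 2097153
  (.nr 4819 2048 .s1 (.la (.ls 61 53 82586))) .out) .out) (.nx 6871 4097 (.nr 6870 1048577 (.nr
  5671 2897 .s1 (.la (.ls 73 41 5797))) .out) .out)) (.na 8572 5793 (.nx 8571 5162 (.nr 8570
  1048577 (.nr 6873 4096 .s1 (.la (.ls 71 41 6508))) .out) .out) (.nx 11297 2049 (.nr 11296 524289
  (.nr 8573 5793 .s1 (.nx 8802 229 (.nx 8801 228 (.nr 8800 87563 (.lx (.lp 43 37 2049)) (.l1 .sk))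
  (.l1 .sk)) (.nx 8897 324 (.lx (.lp 17 0 2049)) (.la (.ls 59 37 2049))))) .out) .out)))) (.na
  21255 65536 (.na 17151 16384 (.na 15100 11586 (.nx 15099 2049 (.nr 15098 524289 (.nr 11299 8192
  .s1 (.nx 11704 406 (.lx (.lp 59 37 2897)) (.la (.ls 53 41 2897)))) .out) .out) (.nx 17150 2049
  (.nr 17149 131073 (.nr 15101 11586 .s1 (.lx (.lp 43 41 4097))) .out) .out)) (.na 19203 32768 (.nx
  19202 2049 (.nr 19201 262145 (.nr 17152 16384 .s1 (.nx 17475 324 (.lx (.lp 47 43 8193)) (.nr
  19200 131073 (.lx (.lp 43 43 8193)) .out))) .out) .out) (.nx 21254 2049 (.nr 21253 524289 (.nr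
  19204 32768 .s1 (.nx 19527 324 (.lx (.lp 47 43 16385)) (.nr 21252 262145 (.lx (.lp 43 47 16385))
  .out))) .out) .out))) (.na 24514 262144 (.na 22885 131072 (.nx 22884 1627 (.nr 22883 524289 (.nr
  21256 65536 .s1 (.nx 21579 324 (.lx (.lp 16 0 32769)) (.nr 22882 262145 (.lx (.lp 41 53 32769))
  .out))) .out) .out) (.nx 24513 1627 (.nr 24512 524289 (.nr 22886 131072 .s1 (.lx (.lp 41 53
  65537))) .out) .out)) (.na 25029 524288 (.nx 25028 513 (.nr 25027 1048577 (.nr 24515 262144 .s1
  (.lx (.lp 16 0 131073))) .out) .out) (.na 25031 1048577 (.nx 25030 324 (.l1 .sk) .out)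
  .out)))))))

def T116_2 : Ph :=
  (.na 564 166 (.na 339 81 (.na 207 37 (.na 142 23 (.na 46 17 (.na 45 16 (.nx 44 2097153 (.nr 43
  1048577 (.nx 3 214 (.nx 2 213 (.nr 1 165 (.lg 0 false 1 29 29 11 0 71568) (.l1 .sk)) (.l1 .sk))
  (.nx 37 660563 (.nx 4 257 (.l1 (.ls 83 41 1449)) (.nr 36 623489 (.nr 30 185365 (.nx 14 48160 (.lg
  0 false 10 97 103 19 0 357840) (.nr 19 2358 (.lg 0 true 5 89 89 13 0 119280) (.nx 24 104033 (.lg
  1 false 5 101 103 13 87413 357840) (.nr 29 155873 (.lg 2 false 5 101 103 13 34035 357840)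
  .out)))) (.nx 35 1292 (.lg 0 false 5 83 83 13 0 119280) .out)) .out)) (.nr 42 65 (.lg 0 true 5 67
  67 13 0 119280) .out))) .out) .out) .ne) (.na 92 18 (.nx 91 2097153 (.nr 90 1048577 (.nr 47 9 .s1
  (.nx 82 416129 (.nx 51 324 (.nx 49 213 (.nr 48 186 (.lg 0 true 1 29 29 11 0 178920) (.l1 .sk))
  (.nx 50 214 (.l1 .sk) (.l1 (.ls 83 37 3484)))) (.nr 81 623489 (.nr 76 262145 (.nx 67 82572 (.nr
  62 185365 (.lg 0 false 11 101 103 16 0 1968120) (.nx 66 10323 (.lg 0 false 4 97 97 16 0 357840)
  .out)) (.nr 75 131073 (.nr 71 2200 (.lg 0 true 4 83 83 16 0 3408) (.lg 2 false 4 103 103 16 36068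
  357840)) .out)) (.nx 80 2049 (.lg 0 false 4 83 83 16 0 3408) .out)) .out)) (.nr 89 257 (.lg 0
  true 7 67 73 16 0 11928) .out))) .out) .out) (.na 93 21 (.lg 0 false 1 0 0 7 0 24) (.nx 141
  2097153 (.nr 140 1048577 (.nr 94 16 .s1 (.nx 134 660563 (.nx 96 213 (.nr 95 238 (.lg 0 false 1 23
  23 16 0 71568) (.l1 .sk)) (.nx 97 214 (.l1 .sk) (.nx 98 324 (.l1 (.ls 79 41 2821)) (.nr 133
  623489 (.nx 115 43279 (.nr 103 185365 (.lg 0 false 5 97 97 17 0 178920) (.nx 114 10323 (.nr 108
  262145 (.lg 0 false 5 79 83 17 0 178920) (.nx 113 2049 (.lg 0 false 5 79 79 17 0 178920) .out))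
  .out)) (.nr 132 155873 (.nr 120 2200 (.lg 0 true 5 83 83 17 0 178920) (.nx 131 416129 (.nx 125
  82572 (.lg 1 false 5 89 97 17 81813 357840) (.nr 130 131073 (.lg 2 false 5 89 97 17 36068 178920)
  .out)) .out)) .out)) .out)))) (.nr 139 129 (.lg 0 true 5 61 61 17 0 178920) .out))) .out)
  .out)))) (.na 144 31 (.na 143 27 .ne (.lg 0 false 1 0 0 7 0 24)) (.na 175 32 (.nx 174 2097153
  (.nr 173 1048577 (.nr 145 28 .s1 (.nx 149 324 (.nx 147 213 (.nr 146 331 (.lg 0 false 1 19 19 13 0
  35784) (.l1 .sk)) (.nx 148 214 (.l1 .sk) (.l1 (.ls 73 29 1912)))) (.nr 172 524289 (.nr 166 185365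
  (.nx 154 52017 (.lg 0 false 5 97 97 16 0 178920) (.nr 165 92683 (.nr 159 953 (.lg 0 true 5 73 73
  16 0 8520) (.nx 164 330282 (.lg 2 false 5 89 97 16 40513 178920) .out)) .out)) (.nx 171 13005
  (.lg 0 false 5 83 89 16 0 8520) .out)) .out))) .out) .out) (.na 176 34 .ne (.nx 206 2097153 (.nr
  205 881745 (.nr 177 31 .s1 (.nx 181 324 (.nx 179 213 (.nr 178 383 (.lg 0 false 1 23 23 13 0
  10224) (.l1 .sk)) (.nx 180 214 (.l1 .sk) (.l1 (.ls 73 41 1743)))) (.nr 204 623489 (.nr 198 155873
  (.nx 186 32769 (.lg 0 false 5 89 89 13 0 51120) (.nr 197 65537 (.nr 191 383 (.lg 0 true 5 67 67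
  13 0 17040) (.nx 196 208065 (.lg 2 false 5 89 89 13 57857 51120) .out)) .out)) (.nx 203 13005
  (.lg 0 false 5 89 89 13 0 17040) .out)) .out))) .out) .out))))) (.na 299 54 (.na 262 46 (.na 239
  42 (.nx 238 2097153 (.nr 237 881745 (.nr 208 35 .s1 (.nx 211 214 (.nx 210 213 (.nr 209 434 (.l1
  (.ls 19 29 1229)) (.l1 .sk)) (.l1 .sk)) (.nx 212 324 (.l1 (.ls 79 29 1602)) (.nr 236 623489 (.nx
  231 208065 (.nx 226 131073 (.nr 221 155873 (.nr 216 65537 (.lg 0 false 4 89 89 16 0 3408) (.nx
  220 32769 (.lg 0 false 4 97 97 16 0 357840) .out)) (.nx 225 13005 (.lg 0 false 4 101 101 16 0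
  357840) .out)) (.nr 230 27556 (.lg 0 true 4 97 97 16 0 357840) .out)) (.nr 235 257 (.lg 0 true 4
  73 73 16 0 3408) .out)) .out)))) .out) .out) (.nx 261 2097153 (.nr 260 881745 (.nr 240 40 .s1
  (.nx 251 32769 (.nx 241 324 (.l1 (.ls 79 47 2502)) (.nr 250 623489 (.nx 246 13005 (.lg 0 false 5
  89 97 29 0 357840) (.nr 249 155873 (.lg 0 false 3 89 89 23 0 357840) .out)) .out)) (.nr 259 65537
  (.nr 256 476 (.lg 0 true 5 67 73 29 0 357840) (.nx 258 208065 (.lg 2 true 2 97 97 23 46553
  357840) .out)) .out))) .out) .out)) (.na 263 49 .ne (.na 282 53 (.nx 281 2097153 (.nr 280 881745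
  (.nr 264 47 .s1 (.nx 265 324 (.l1 (.ls 73 31 2145)) (.nr 279 741457 (.nx 270 32769 (.lg 0 false 5
  89 89 17 0 178920) (.nr 278 46342 (.nr 275 548 (.lg 0 true 5 61 61 17 0 59640) (.nx 277 208065
  (.lg 2 false 2 83 83 16 40436 23856) .out)) .out)) .out))) .out) .out) (.nx 298 2097153 (.nr 297
  881745 (.nr 283 51 .s1 (.nx 289 26009 (.nx 284 324 (.l1 (.ls 79 29 1983)) (.nr 288 741457 (.lg 0
  false 4 101 101 16 0 357840) .out)) (.nr 296 65537 (.nr 293 558 (.lg 0 true 4 73 73 16 0 3408)
  (.nx 295 208065 (.lg 2 false 2 89 89 16 57347 3408) .out)) .out))) .out) .out)))) (.na 321 63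
  (.na 300 62 (.lg 0 false 1 0 0 16 0 24) (.nx 320 2097153 (.nr 319 881745 (.nr 301 61 .s1 (.nx 310
  32769 (.nx 302 324 (.l1 (.ls 79 41 1696)) (.nr 309 741457 (.lg 0 false 7 97 101 23 0 357840)
  .out)) (.nr 318 46342 (.nr 315 651 (.lg 0 true 5 67 73 19 0 17040) (.nx 317 208065 (.lg 2 false 2
  79 79 17 34039 3408) .out)) .out))) .out) .out)) (.na 322 64 (.lg 0 false 1 0 0 16 0 24) (.na 323
  74 .ne (.nx 338 2097153 (.nr 337 2097153 (.nr 324 73 .s1 (.nx 331 32769 (.nx 325 324 (.l1 (.ls 79
  31 1421)) (.nr 330 1048577 (.lg 0 false 5 97 97 23 0 17040) .out)) (.nr 336 32769 (.nr 334 513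
  (.lg 0 true 3 67 67 19 0 10224) (.nx 335 131073 (.lg 2 true 1 79 79 13 27212 3408) .out)) .out)))
  .out) .out)))))) (.na 457 126 (.na 385 106 (.na 357 91 (.na 340 82 (.lg 0 false 1 0 0 16 0 24)
  (.nx 356 2097153 (.nr 355 2097153 (.nr 341 81 .s1 (.nx 351 131073 (.nx 342 324 (.l1 (.ls 83 37
  1283)) (.nr 350 1048577 (.nx 347 20644 (.lg 0 false 5 89 97 23 0 357840) (.nr 349 65537 (.lg 0
  false 2 97 97 19 0 357840) .out)) .out)) (.nr 354 513 (.lg 0 true 3 67 67 19 0 10224) .out)))
  .out) .out)) (.na 358 98 .ne (.na 372 102 (.nx 371 2097153 (.nr 370 2097153 (.nr 359 97 .s1 (.nx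
  364 20644 (.nx 360 324 (.l1 (.ls 79 37 1074)) (.nr 363 1048577 (.lg 0 false 3 89 89 23 0 357840)
  .out)) (.nr 369 65537 (.nx 366 131073 (.lg 0 true 2 83 83 23 0 23856) (.nr 368 513 (.lg 0 true 2
  61 61 23 0 23856) .out)) .out))) .out) .out) (.nx 384 2097153 (.nr 383 2097153 (.nr 373 101 .s1
  (.nx 374 324 (.l1 (.ls 83 43 1032)) (.nr 382 1048577 (.nx 380 131073 (.nr 376 65537 (.lg 0 true 2
  89 89 29 0 10224) (.nx 379 20644 (.lg 0 false 3 89 89 31 0 10224) .out)) (.nr 381 513 (.lg 0
  false 1 79 79 29 0 10224) .out)) .out))) .out) .out)))) (.na 414 111 (.na 400 107 (.nx 399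
  2097153 (.nr 398 2097153 (.nr 386 105 .s1 (.nx 393 32769 (.nx 387 324 (.l1 (.ls 79 31 993)) (.nr
  392 1048577 (.lg 0 false 5 89 89 23 0 17040) .out)) (.nr 397 32769 (.nr 395 513 (.lg 0 true 2 61
  61 19 0 3408) (.nx 396 131073 (.lg 2 true 1 73 73 19 27212 10224) .out)) .out))) .out) .out) (.nx
  413 2097153 (.nr 412 2097153 (.nr 401 107 .s1 (.nx 409 131073 (.nx 407 32769 (.nx 402 324 (.l1
  (.ls 73 23 984)) (.nr 406 1048577 (.lg 0 false 4 79 79 17 0 3408) .out)) (.nr 408 32769 (.lg 0
  false 1 79 79 16 0 1704) .out)) (.nr 411 513 (.lg 0 true 2 59 59 16 0 3408) .out))) .out) .out))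
  (.na 429 113 (.nx 428 2097153 (.nr 427 2097153 (.nr 415 111 .s1 (.nx 422 32769 (.nx 416 324 (.l1
  (.ls 73 29 948)) (.nr 421 1048577 (.lg 0 false 5 83 83 19 0 25560) .out)) (.nr 426 32769 (.nr 424
  513 (.lg 0 true 2 59 59 17 0 10224) (.nx 425 131073 (.lg 2 true 1 73 73 17 27212 5112) .out))
  .out))) .out) .out) (.na 443 123 (.nx 442 2097153 (.nr 441 2097153 (.nr 430 113 .s1 (.nx 431 324
  (.l1 (.ls 67 23 931)) (.nr 440 1048577 (.nx 435 32769 (.lg 0 false 4 83 83 17 0 3408) (.nr 439
  32769 (.nr 437 513 (.lg 0 true 2 59 59 16 0 3408) (.nx 438 131073 (.lg 2 true 1 61 61 16 27212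
  1704) .out)) .out)) .out))) .out) .out) (.nx 456 2097153 (.nr 455 2097153 (.nr 444 123 .s1 (.nx
  450 32769 (.nx 445 324 (.l1 (.ls 79 29 856)) (.nr 449 1048577 (.lg 0 false 4 89 89 19 0 10224)
  .out)) (.nr 454 32769 (.nr 452 513 (.lg 0 true 2 61 61 17 0 10224) (.nx 453 131073 (.lg 2 true 1
  73 73 17 27212 5112) .out)) .out))) .out) .out))))) (.na 504 142 (.na 472 128 (.na 458 127 (.lg 0
  false 1 0 0 16 0 24) (.nx 471 2097153 (.nr 470 2097153 (.nr 459 127 .s1 (.nx 465 32769 (.nx 460
  324 (.l1 (.ls 67 23 829)) (.nr 464 1048577 (.lg 0 false 4 83 83 17 0 51120) .out)) (.nr 469 32769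
  (.nr 467 513 (.lg 0 true 2 53 53 16 0 3408) (.nx 468 131073 (.lg 2 true 1 61 61 16 27212 1704)
  .out)) .out))) .out) .out)) (.na 473 134 .ne (.na 489 139 (.nx 488 1048577 (.nr 487 1482912 (.nr
  474 134 .s1 (.nx 476 213 (.nr 475 1437 (.l1 (.ls 16 29 341)) (.l1 .sk)) (.nx 477 214 (.l1 .sk)
  (.nx 482 32769 (.lg 0 false 5 89 89 29 0 51120) (.nr 486 16385 (.nr 484 1025 (.lg 0 true 2 53 53
  23 0 3408) (.nx 485 131073 (.lg 2 true 1 53 53 19 13619 10224) .out)) .out))))) .out) .out) (.nx
  503 1048577 (.nr 502 1482912 (.nr 490 139 .s1 (.nx 493 214 (.nx 492 213 (.nr 491 1468 (.l1 (.ls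
  16 19 329)) (.l1 .sk)) (.l1 .sk)) (.nx 498 32769 (.lg 0 false 5 79 79 17 0 8520) (.nr 501 16385
  (.nr 499 1025 (.lg 0 false 1 59 59 16 0 1704) (.nx 500 131073 (.lg 2 true 1 47 47 16 13619 1704)
  .out)) .out)))) .out) .out)))) (.na 533 149 (.na 518 146 (.nx 517 1048577 (.nr 516 1482912 (.nr
  505 142 .s1 (.nx 508 214 (.nx 507 213 (.nr 506 1509 (.l1 (.ls 16 29 322)) (.l1 .sk)) (.l1 .sk))
  (.nx 513 32769 (.lg 0 false 5 79 79 23 0 17040) (.nr 515 16385 (.lg 0 false 2 79 79 19 0 3408)
  .out)))) .out) .out) (.nx 532 1048577 (.nr 531 1482912 (.nr 519 146 .s1 (.nx 522 214 (.nx 521 213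
  (.nr 520 1540 (.l1 (.ls 17 29 313)) (.l1 .sk)) (.l1 .sk)) (.nx 527 32769 (.lg 0 false 5 89 89 29
  0 51120) (.nr 530 16385 (.nr 528 1025 (.lg 0 false 1 61 61 19 0 10224) (.nx 529 131073 (.lg 2
  true 1 53 53 19 13619 3408) .out)) .out)))) .out) .out)) (.na 548 159 (.nx 547 1048577 (.nr 546
  1482912 (.nr 534 149 .s1 (.nx 537 214 (.nx 536 213 (.nr 535 1643 (.l1 (.ls 16 19 307)) (.l1 .sk))
  (.l1 .sk)) (.nx 542 32769 (.lg 0 false 5 83 83 19 0 178920) (.nr 545 16385 (.nr 543 1025 (.lg 0
  false 1 59 59 16 0 1704) (.nx 544 131073 (.lg 2 true 1 47 47 16 13619 1704) .out)) .out)))) .out)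
  .out) (.na 563 162 (.nx 562 1048577 (.nr 561 1482912 (.nr 549 159 .s1 (.nx 557 32769 (.nx 551 213
  (.nr 550 1674 (.l1 (.ls 16 23 288)) (.l1 .sk)) (.nx 552 214 (.l1 .sk) (.lg 0 false 5 83 83 23 0
  178920))) (.nr 560 16385 (.nr 558 1025 (.lg 0 false 1 61 61 17 0 35784) (.nx 559 131073 (.lg 2
  true 1 53 53 17 13619 5112) .out)) .out))) .out) .out) (.lg 0 false 1 0 0 16 0 24))))))) (.na 738
  254 (.na 656 219 (.na 608 193 (.na 580 182 (.na 579 181 (.nx 578 1048577 (.nr 577 1482912 (.nr
  565 166 .s1 (.nx 568 214 (.nx 567 213 (.nr 566 1871 (.l1 (.ls 17 29 276)) (.l1 .sk)) (.l1 .sk))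
  (.nx 573 32769 (.lg 0 false 5 79 89 29 0 357840) (.nr 576 16385 (.nr 574 1025 (.lg 0 false 1 61
  61 19 0 71568) (.nx 575 131073 (.lg 2 false 1 53 53 19 13619 71568) .out)) .out)))) .out) .out)
  (.lg 0 false 1 0 0 16 0 24)) (.na 581 186 .ne (.na 593 191 (.nx 592 1048577 (.nr 591 1048577 (.nr
  582 186 .s1 (.nx 587 32769 (.nx 584 213 (.nr 583 1974 (.l1 (.ls 17 29 246)) (.l1 .sk)) (.nx 585
  214 (.l1 .sk) (.lg 0 false 2 83 83 29 0 10224))) (.nr 590 16385 (.nr 588 1025 (.lg 0 false 1 61
  61 29 0 10224) (.nx 589 131073 (.lg 2 false 1 53 53 29 13619 10224) .out)) .out))) .out) .out)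
  (.nx 607 1048577 (.nr 606 1048577 (.nr 594 191 .s1 (.nx 597 214 (.nx 596 213 (.nr 595 1995 (.l1
  (.ls 16 17 240)) (.l1 .sk)) (.l1 .sk)) (.nx 602 32769 (.lg 0 false 5 67 79 19 0 178920) (.nr 605
  16385 (.nr 603 1025 (.lg 0 false 1 53 53 16 0 1704) (.nx 604 131073 (.lg 2 false 1 43 43 16 13619
  1704) .out)) .out)))) .out) .out)))) (.na 621 213 (.na 609 197 (.lg 0 false 1 0 0 16 0 24) (.nx
  620 1048577 (.nr 619 1048577 (.nr 610 197 .s1 (.nx 612 213 (.nr 611 2201 (.l1 (.ls 17 17 233))
  (.l1 .sk)) (.nx 613 214 (.l1 .sk) (.nx 615 32769 (.lg 0 false 2 79 79 17 0 3408) (.nr 618 16385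
  (.nr 616 1025 (.lg 0 false 1 59 59 16 0 1704) (.nx 617 131073 (.lg 2 false 1 43 43 16 13619 1704)
  .out)) .out))))) .out) .out)) (.na 634 214 (.nx 633 1048577 (.nr 632 1048577 (.nr 622 213 .s1
  (.nx 624 213 (.nr 623 2212 (.l1 (.ls 16 23 215)) (.l1 .sk)) (.nx 625 214 (.l1 .sk) (.nx 629 32769
  (.lg 0 false 4 73 73 19 0 10224) (.nr 631 16385 (.lg 0 false 2 73 73 19 0 10224) .out))))) .out)
  .out) (.na 646 218 (.nx 645 1048577 (.nr 644 1048577 (.nr 635 214 .s1 (.nx 640 32769 (.nx 637 213
  (.nr 636 2253 (.l1 (.ls 16 23 215)) (.l1 .sk)) (.nx 638 214 (.l1 .sk) (.lg 0 false 2 73 73 23 0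
  3408))) (.nr 643 16385 (.nr 641 1025 (.lg 0 false 1 53 53 23 0 3408) (.nx 642 131073 (.lg 2 false
  1 43 43 23 13619 3408) .out)) .out))) .out) .out) (.nx 655 1048577 (.nr 654 1048577 (.nr 647 218
  .s1 (.nx 649 213 (.nr 648 2263 (.l1 (.ls 17 23 211)) (.l1 .sk)) (.nx 650 214 (.l1 .sk) (.nx 652
  32769 (.lg 0 false 2 79 79 23 0 3408) (.nr 653 16385 (.lg 0 false 1 79 79 23 0 3408) .out)))))
  .out) .out))))) (.na 701 238 (.na 680 223 (.na 668 222 (.nx 667 1048577 (.nr 666 1048577 (.nr 657
  219 .s1 (.nx 660 214 (.nx 659 213 (.nr 658 2294 (.l1 (.ls 16 23 210)) (.l1 .sk)) (.l1 .sk)) (.nx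
  662 32769 (.lg 0 false 2 83 83 19 0 10224) (.nr 665 16385 (.nr 663 1025 (.lg 0 false 1 53 53 19 0
  5112) (.nx 664 131073 (.lg 2 false 1 43 43 19 13619 5112) .out)) .out)))) .out) .out) (.nx 679
  1048577 (.nr 678 1048577 (.nr 669 222 .s1 (.nx 672 214 (.nx 671 213 (.nr 670 2304 (.l1 (.ls 23 31
  207)) (.l1 .sk)) (.l1 .sk)) (.nx 674 32769 (.lg 0 false 2 83 83 31 0 10224) (.nr 677 16385 (.nr
  675 1025 (.lg 0 false 1 73 73 29 0 357840) (.nx 676 131073 (.lg 2 true 1 53 53 29 13619 10224)
  .out)) .out)))) .out) .out)) (.na 681 226 (.lg 0 false 1 0 0 16 0 24) (.na 691 229 (.nx 690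
  1048577 (.nr 689 1048577 (.nr 682 226 .s1 (.nx 685 214 (.nx 684 213 (.nr 683 2366 (.l1 (.ls 16 23
  203)) (.l1 .sk)) (.l1 .sk)) (.nx 687 32769 (.lg 0 false 2 73 73 23 0 3408) (.nr 688 16385 (.lg 0
  false 1 79 79 23 0 71568) .out)))) .out) .out) (.nx 700 1048577 (.nr 699 1048577 (.nr 692 229 .s1
  (.nx 695 214 (.nx 694 213 (.nr 693 2459 (.l1 (.ls 16 17 201)) (.l1 .sk)) (.l1 .sk)) (.nx 697
  32769 (.lg 0 false 2 73 73 17 0 3408) (.nr 698 16385 (.lg 0 false 1 73 73 17 0 1704) .out))))
  .out) .out)))) (.na 713 241 (.na 712 239 (.nx 711 1048577 (.nr 710 1048577 (.nr 702 238 .s1 (.nx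
  708 131073 (.nx 704 213 (.nr 703 2470 (.l1 (.ls 16 31 193)) (.l1 .sk)) (.nx 705 214 (.l1 .sk)
  (.nr 706 65537 (.lg 0 true 1 83 83 31 0 23856) (.nx 707 16385 (.lg 0 false 1 89 89 31 0 23856)
  .out)))) (.nr 709 1025 (.lg 0 true 1 61 61 31 0 23856) .out))) .out) .out) (.lg 0 false 1 0 0 16
  0 24)) (.na 714 246 (.lg 0 false 1 0 0 16 0 24) (.na 726 251 (.nx 725 1048577 (.nr 724 1048577
  (.nr 715 246 .s1 (.nx 717 213 (.nr 716 2594 (.l1 (.ls 17 31 187)) (.l1 .sk)) (.nx 718 214 (.l1
  .sk) (.nx 720 32769 (.lg 0 false 2 79 79 31 0 10224) (.nr 723 16385 (.nr 721 1025 (.lg 0 false 1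
  61 61 29 0 10224) (.nx 722 131073 (.lg 2 false 1 53 53 29 13619 10224) .out)) .out))))) .out)
  .out) (.nx 737 1048577 (.nr 736 1048577 (.nr 727 251 .s1 (.nx 730 214 (.nx 729 213 (.nr 728 2625
  (.l1 (.ls 16 17 183)) (.l1 .sk)) (.l1 .sk)) (.nx 732 32769 (.lg 0 false 2 73 73 17 0 3408) (.nr
  735 16385 (.nr 733 1025 (.lg 0 false 1 47 47 17 0 1704) (.nx 734 131073 (.lg 2 false 1 41 41 17
  13619 1704) .out)) .out)))) .out) .out)))))) (.na 6370 4096 (.na 2258 725 (.na 749 257 (.na 748
  256 (.nx 747 1048577 (.nr 746 1048577 (.nr 739 254 .s1 (.nx 744 32769 (.nx 741 213 (.nr 740 2645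
  (.l1 (.ls 16 23 181)) (.l1 .sk)) (.nx 742 214 (.l1 .sk) (.lg 0 false 2 73 73 23 0 3408))) (.nr
  745 16385 (.lg 0 false 1 79 79 23 0 71568) .out))) .out) .out) .ne) (.na 1117 363 (.nx 1116
  1048577 (.nr 1115 1482912 (.nr 750 257 .s1 (.nx 857 213 (.nr 856 3751 (.la (.ls 31 19 179)) (.l1
  .sk)) (.nx 858 214 (.l1 .sk) (.nx 901 257 (.lx (.lp 43 0 91)) (.nr 1114 1048577 (.nr 1007 32769
  (.la (.lg 0 true 2 73 73 23 0)) (.nx 1113 20644 (.la (.lg 0 false 2 73 73 23 0)) .out)) .out)))))
  .out) .out) (.na 1569 512 (.nx 1568 1048577 (.nr 1567 1482912 (.nr 1118 363 .s1 (.nx 1267 257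
  (.la (.ls 79 19 184)) (.nr 1566 1048577 (.nr 1416 32769 (.la (.lg 0 false 1 73 73 23 0)) (.nx
  1565 20644 (.la (.lg 0 true 1 73 73 23 0)) .out)) .out))) .out) .out) (.nx 2257 1048577 (.nr 2256
  1482912 (.nr 1570 512 .s1 (.nx 1785 214 (.nx 1784 213 (.nr 1783 7491 (.la (.ls 37 23 182)) (.l1
  .sk)) (.l1 .sk)) (.nx 1828 257 (.lx (.lp 41 16 182)) (.nr 2255 1048577 (.nr 2041 32769 (.la (.lg
  0 false 1 73 73 23 0)) (.nx 2254 20644 (.la (.lg 0 true 1 61 61 23 0)) .out)) .out)))) .out)
  .out)))) (.na 3714 1449 (.na 2860 1024 (.nx 2859 13005 (.nr 2858 1048577 (.nr 2259 725 .s1 (.nx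
  2558 2049 (.la (.ls 83 37 5793)) (.nr 2857 65537 (.la (.lg 0 false 1 41 41 29 0)) .out))) .out)
  .out) (.nx 3713 13005 (.nr 3712 1048577 (.nr 2861 1024 .s1 (.nx 3286 3252 (.la (.ls 53 41 10330))
  (.nr 3711 32769 (.la (.lg 0 false 1 29 29 29 0)) .out))) .out) .out)) (.na 4316 2048 (.nx 4315
  8193 (.nr 4314 1048577 (.nr 3715 1449 .s1 (.la (.ls 53 47 46328))) .out) .out) (.na 5168 2897
  (.nx 5167 8193 (.nr 5166 1048577 (.nr 4317 2048 .s1 (.la (.ls 47 47 32779))) .out) .out) (.nx
  6369 3252 (.nr 6368 524289 (.nr 5169 2897 .s1 (.la (.ls 53 37 3653))) .out) .out))))) (.na 13462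
  32768 (.na 9579 8192 (.na 8284 5793 (.nx 8283 3252 (.nr 8282 524289 (.nr 6371 4096 .s1 (.nx 6584
  213 (.nr 6583 59854 (.lx (.lp 37 31 1449)) (.l1 .sk)) (.nx 6585 214 (.l1 .sk) (.la (.ls 53 37
  2573))))) .out) .out) (.nx 9578 1292 (.nr 9577 262145 (.nr 8285 5793 .s1 (.nx 9098 814 (.lx (.lp
  43 37 2049)) (.nr 9576 65537 (.lx (.lp 37 37 2049)) .out))) .out) .out)) (.na 10873 11586 (.nx
  10872 1292 (.nr 10871 262145 (.nr 9580 8192 .s1 (.lx (.lp 43 41 2897))) .out) .out) (.na 12167
  16384 (.nx 12166 1292 (.nr 12165 131073 (.nr 10874 11586 .s1 (.lx (.lp 37 41 4097))) .out) .out)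
  (.nx 13461 1292 (.nr 13460 262145 (.nr 12168 16384 .s1 (.nx 12424 257 (.lx (.lp 41 41 8193)) (.nr
  13459 131073 (.lx (.lp 37 43 8193)) .out))) .out) .out)))) (.na 16566 262144 (.na 14756 65536
  (.nx 14755 1292 (.nr 14754 262145 (.nr 13463 32768 .s1 (.lx (.lp 37 47 16385))) .out) .out) (.na
  16051 131072 (.nx 16050 1292 (.nr 16049 524289 (.nr 14757 65536 .s1 (.nx 15013 257 (.lx (.lp 16 0
  32769)) (.nr 16048 262145 (.lx (.lp 31 53 32769)) .out))) .out) .out) (.nx 16565 513 (.nr 16564
  524289 (.nr 16052 131072 .s1 (.lx (.lp 16 47 65537))) .out) .out))) (.na 17081 524288 (.nx 17080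
  513 (.nr 17079 1048577 (.nr 16567 262144 .s1 (.lx (.lp 16 0 131073))) .out) .out) (.na 17083
  1048577 (.nx 17082 257 (.l1 .sk) .out) .out)))))))

theorem c116 :
    OkQ ckI L8 175 116 1099511627776 0 34359738368 1 1099511627776 ∧
    OkQ ckI L10 228 22 1099511627776 0 34359738368 1 1099511627776 ∧
    OkQ ckI L9 213 14 1099511627776 0 34359738368 1 1099511627776 := by
  refine ⟨?_, ?_, ?_⟩
  · refine fin 840 13987 T116_0 ?_
    refine jn 7 (by decide +kernel) ?_
    refine jn 11 (by decide +kernel) ?_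
    refine jn 23 (by decide +kernel) ?_
    refine jn 37 (by decide +kernel) ?_
    refine jn 49 (by decide +kernel) ?_
    refine jn 62 (by decide +kernel) ?_
    refine jn 77 (by decide +kernel) ?_
    refine jn 97 (by decide +kernel) ?_
    refine jn 110 (by decide +kernel) ?_
    refine jn 120 (by decide +kernel) ?_
    refine jn 131 (by decide +kernel) ?_
    refine jn 148 (by decide +kernel) ?_
    refine jn 160 (by decide +kernel) ?_
    refine jn 169 (by decide +kernel) ?_
    refine jn 187 (by decide +kernel) ?_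
    refine jn 196 (by decide +kernel) ?_
    refine jn 207 (by decide +kernel) ?_
    refine jn 215 (by decide +kernel) ?_
    refine jn 217 (by decide +kernel) ?_
    refine jn 220 (by decide +kernel) ?_
    refine jn 236 (by decide +kernel) ?_
    refine jn 237 (by decide +kernel) ?_
    refine jn 241 (by decide +kernel) ?_
    refine jn 256 (by decide +kernel) ?_
    refine jn 273 (by decide +kernel) ?_
    refine jn 280 (by decide +kernel) ?_
    refine jn 281 (by decide +kernel) ?_
    refine jn 282 (by decide +kernel) ?_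
    refine jn 283 (by decide +kernel) ?_
    refine jn 300 (by decide +kernel) ?_
    refine jn 310 (by decide +kernel) ?_
    refine jn 326 (by decide +kernel) ?_
    refine jn 341 (by decide +kernel) ?_
    refine jn 352 (by decide +kernel) ?_
    refine jn 363 (by decide +kernel) ?_
    refine jn 379 (by decide +kernel) ?_
    refine jn 380 (by decide +kernel) ?_
    refine jn 384 (by decide +kernel) ?_
    refine jn 399 (by decide +kernel) ?_
    refine jn 418 (by decide +kernel) ?_
    refine jn 427 (by decide +kernel) ?_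
    refine jn 438 (by decide +kernel) ?_
    refine jn 466 (by decide +kernel) ?_
    refine jn 504 (by decide +kernel) ?_
    refine jn 537 (by decide +kernel) ?_
    refine jn 570 (by decide +kernel) ?_
    refine jn 585 (by decide +kernel) ?_
    refine jn 586 (by decide +kernel) ?_
    refine jn 625 (by decide +kernel) ?_
    refine jn 649 (by decide +kernel) ?_
    refine jn 693 (by decide +kernel) ?_
    refine jn 734 (by decide +kernel) ?_
    refine jn 739 (by decide +kernel) ?_
    refine jn 746 (by decide +kernel) ?_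
    refine jn 747 (by decide +kernel) ?_
    refine jn 752 (by decide +kernel) ?_
    refine jn 761 (by decide +kernel) ?_
    refine jn 767 (by decide +kernel) ?_
    refine jn 768 (by decide +kernel) ?_
    refine jn 779 (by decide +kernel) ?_
    refine jn 787 (by decide +kernel) ?_
    refine jn 790 (by decide +kernel) ?_
    refine jn 793 (by decide +kernel) ?_
    refine jn 806 (by decide +kernel) ?_
    refine jn 815 (by decide +kernel) ?_
    refine jn 816 (by decide +kernel) ?_
    refine jn 823 (by decide +kernel) ?_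
    refine jn 824 (by decide +kernel) ?_
    refine jn 839 (by decide +kernel) ?_
    refine jn 840 (by decide +kernel) ?_
    refine jn 850 (by decide +kernel) ?_
    refine jn 857 (by decide +kernel) ?_
    refine jn 866 (by decide +kernel) ?_
    refine jn 871 (by decide +kernel) ?_
    refine jn 872 (by decide +kernel) ?_
    refine jn 878 (by decide +kernel) ?_
    refine jn 893 (by decide +kernel) ?_
    refine jn 895 (by decide +kernel) ?_
    refine jn 899 (by decide +kernel) ?_
    refine jn 907 (by decide +kernel) ?_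
    refine jn 911 (by decide +kernel) ?_
    refine jn 914 (by decide +kernel) ?_
    refine jn 923 (by decide +kernel) ?_
    refine jn 931 (by decide +kernel) ?_
    refine jn 935 (by decide +kernel) ?_
    refine jn 937 (by decide +kernel) ?_
    refine jn 949 (by decide +kernel) ?_
    refine jn 959 (by decide +kernel) ?_
    refine jn 977 (by decide +kernel) ?_
    refine jn 985 (by decide +kernel) ?_
    refine jn 994 (by decide +kernel) ?_
    refine jn 1001 (by decide +kernel) ?_
    refine jn 1002 (by decide +kernel) ?_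
    refine jn 1010 (by decide +kernel) ?_
    refine jn 1022 (by decide +kernel) ?_
    refine jn 1024 (by decide +kernel) ?_
    refine jn 1034 (by decide +kernel) ?_
    refine jn 1043 (by decide +kernel) ?_
    refine jn 1046 (by decide +kernel) ?_
    refine jn 1057 (by decide +kernel) ?_
    refine jn 1070 (by decide +kernel) ?_
    refine jn 1073 (by decide +kernel) ?_
    refine jn 1078 (by decide +kernel) ?_
    refine jn 1084 (by decide +kernel) ?_
    refine jn 1094 (by decide +kernel) ?_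
    refine jn 1096 (by decide +kernel) ?_
    refine jn 1105 (by decide +kernel) ?_
    refine jn 1112 (by decide +kernel) ?_
    refine jn 1121 (by decide +kernel) ?_
    refine jn 1126 (by decide +kernel) ?_
    refine jn 1127 (by decide +kernel) ?_
    refine jn 1147 (by decide +kernel) ?_
    refine jn 1150 (by decide +kernel) ?_
    refine jn 1156 (by decide +kernel) ?_
    refine jn 1166 (by decide +kernel) ?_
    refine jn 1174 (by decide +kernel) ?_
    refine jn 1183 (by decide +kernel) ?_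
    refine jn 1190 (by decide +kernel) ?_
    refine jn 1195 (by decide +kernel) ?_
    refine jn 1210 (by decide +kernel) ?_
    refine jn 1223 (by decide +kernel) ?_
    refine jn 1234 (by decide +kernel) ?_
    refine jn 1347 (by decide +kernel) ?_
    refine jn 1448 (by decide +kernel) ?_
    refine jn 1465 (by decide +kernel) ?_
    refine jn 1472 (by decide +kernel) ?_
    refine jn 1473 (by decide +kernel) ?_
    refine jn 1484 (by decide +kernel) ?_
    refine jn 1486 (by decide +kernel) ?_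
    refine jn 1487 (by decide +kernel) ?_
    refine jn 1496 (by decide +kernel) ?_
    refine jn 1504 (by decide +kernel) ?_
    refine jn 1505 (by decide +kernel) ?_
    refine jn 1511 (by decide +kernel) ?_
    refine jn 1512 (by decide +kernel) ?_
    refine jn 1528 (by decide +kernel) ?_
    refine jn 1529 (by decide +kernel) ?_
    refine jn 1540 (by decide +kernel) ?_
    refine jn 1552 (by decide +kernel) ?_
    refine jn 1553 (by decide +kernel) ?_
    refine jn 1568 (by decide +kernel) ?_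
    refine jn 1571 (by decide +kernel) ?_
    refine jn 1577 (by decide +kernel) ?_
    refine jn 1589 (by decide +kernel) ?_
    refine jn 1603 (by decide +kernel) ?_
    refine jn 1610 (by decide +kernel) ?_
    refine jn 1624 (by decide +kernel) ?_
    refine jn 1630 (by decide +kernel) ?_
    refine jn 1636 (by decide +kernel) ?_
    refine jn 1637 (by decide +kernel) ?_
    refine jn 1645 (by decide +kernel) ?_
    refine jn 1654 (by decide +kernel) ?_
    refine jn 1675 (by decide +kernel) ?_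
    refine jn 1684 (by decide +kernel) ?_
    refine jn 1690 (by decide +kernel) ?_
    refine jn 1697 (by decide +kernel) ?_
    refine jn 1699 (by decide +kernel) ?_
    refine jn 1700 (by decide +kernel) ?_
    refine jn 1709 (by decide +kernel) ?_
    refine jn 1717 (by decide +kernel) ?_
    refine jn 1720 (by decide +kernel) ?_
    refine jn 1724 (by decide +kernel) ?_
    refine jn 1729 (by decide +kernel) ?_
    refine jn 1741 (by decide +kernel) ?_
    refine jn 1745 (by decide +kernel) ?_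
    refine jn 1753 (by decide +kernel) ?_
    refine jn 1765 (by decide +kernel) ?_
    refine jn 1780 (by decide +kernel) ?_
    refine jn 1783 (by decide +kernel) ?_
    refine jn 1789 (by decide +kernel) ?_
    refine jn 1793 (by decide +kernel) ?_
    refine jn 1802 (by decide +kernel) ?_
    refine jn 1816 (by decide +kernel) ?_
    refine jn 1823 (by decide +kernel) ?_
    refine jn 1837 (by decide +kernel) ?_
    refine jn 1849 (by decide +kernel) ?_
    refine jn 1850 (by decide +kernel) ?_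
    refine jn 1858 (by decide +kernel) ?_
    refine jn 1867 (by decide +kernel) ?_
    refine jn 1891 (by decide +kernel) ?_
    refine jn 1917 (by decide +kernel) ?_
    refine jn 1954 (by decide +kernel) ?_
    refine jn 1968 (by decide +kernel) ?_
    refine jn 2005 (by decide +kernel) ?_
    refine jn 2034 (by decide +kernel) ?_
    refine jn 2065 (by decide +kernel) ?_
    refine jn 2086 (by decide +kernel) ?_
    refine jn 2128 (by decide +kernel) ?_
    refine jn 2170 (by decide +kernel) ?_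
    refine jn 2189 (by decide +kernel) ?_
    refine jn 2196 (by decide +kernel) ?_
    refine jn 2216 (by decide +kernel) ?_
    refine jn 2241 (by decide +kernel) ?_
    refine jn 2253 (by decide +kernel) ?_
    refine jn 2254 (by decide +kernel) ?_
    refine jn 2276 (by decide +kernel) ?_
    refine jn 2301 (by decide +kernel) ?_
    refine jn 2313 (by decide +kernel) ?_
    refine jn 2331 (by decide +kernel) ?_
    refine jn 2349 (by decide +kernel) ?_
    refine jn 2372 (by decide +kernel) ?_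
    refine jn 2379 (by decide +kernel) ?_
    refine jn 2400 (by decide +kernel) ?_
    refine jn 2421 (by decide +kernel) ?_
    refine jn 2444 (by decide +kernel) ?_
    refine jn 2469 (by decide +kernel) ?_
    refine jn 2509 (by decide +kernel) ?_
    refine jn 2532 (by decide +kernel) ?_
    refine jn 2557 (by decide +kernel) ?_
    refine jn 2577 (by decide +kernel) ?_
    refine jn 2607 (by decide +kernel) ?_
    refine jn 2641 (by decide +kernel) ?_
    refine jn 2665 (by decide +kernel) ?_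
    refine jn 2704 (by decide +kernel) ?_
    refine jn 2737 (by decide +kernel) ?_
    refine jn 2775 (by decide +kernel) ?_
    refine jn 2811 (by decide +kernel) ?_
    refine jn 2857 (by decide +kernel) ?_
    refine jn 2880 (by decide +kernel) ?_
    refine jn 2918 (by decide +kernel) ?_
    refine jn 2942 (by decide +kernel) ?_
    refine jn 2957 (by decide +kernel) ?_
    refine jn 2978 (by decide +kernel) ?_
    refine jn 2982 (by decide +kernel) ?_
    refine jn 2985 (by decide +kernel) ?_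
    refine jn 3012 (by decide +kernel) ?_
    refine jn 3032 (by decide +kernel) ?_
    refine jn 3048 (by decide +kernel) ?_
    refine jn 3074 (by decide +kernel) ?_
    refine jn 3090 (by decide +kernel) ?_
    refine jn 3114 (by decide +kernel) ?_
    refine jn 3146 (by decide +kernel) ?_
    refine jn 3162 (by decide +kernel) ?_
    refine jn 3186 (by decide +kernel) ?_
    refine jn 3207 (by decide +kernel) ?_
    refine jn 3230 (by decide +kernel) ?_
    refine jn 3263 (by decide +kernel) ?_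
    refine jn 3282 (by decide +kernel) ?_
    refine jn 3290 (by decide +kernel) ?_
    refine jn 3318 (by decide +kernel) ?_
    refine jn 3364 (by decide +kernel) ?_
    refine jn 3396 (by decide +kernel) ?_
    refine jn 3435 (by decide +kernel) ?_
    refine jn 3486 (by decide +kernel) ?_
    refine jn 3514 (by decide +kernel) ?_
    refine jn 3561 (by decide +kernel) ?_
    refine jn 3598 (by decide +kernel) ?_
    refine jn 3645 (by decide +kernel) ?_
    refine jn 3681 (by decide +kernel) ?_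
    refine jn 3735 (by decide +kernel) ?_
    refine jn 3778 (by decide +kernel) ?_
    refine jn 3822 (by decide +kernel) ?_
    refine jn 3864 (by decide +kernel) ?_
    refine jn 3912 (by decide +kernel) ?_
    refine jn 3961 (by decide +kernel) ?_
    refine jn 4009 (by decide +kernel) ?_
    refine jn 4044 (by decide +kernel) ?_
    refine jn 4089 (by decide +kernel) ?_
    refine jn 4101 (by decide +kernel) ?_
    refine jn 4140 (by decide +kernel) ?_
    refine jn 4189 (by decide +kernel) ?_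
    refine jn 4222 (by decide +kernel) ?_
    refine jn 4279 (by decide +kernel) ?_
    refine jn 4327 (by decide +kernel) ?_
    refine jn 4383 (by decide +kernel) ?_
    refine jn 4432 (by decide +kernel) ?_
    refine jn 4480 (by decide +kernel) ?_
    refine jn 4537 (by decide +kernel) ?_
    refine jn 4572 (by decide +kernel) ?_
    refine jn 4627 (by decide +kernel) ?_
    refine jn 4683 (by decide +kernel) ?_
    refine jn 4719 (by decide +kernel) ?_
    refine jn 4768 (by decide +kernel) ?_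
    refine jn 4968 (by decide +kernel) ?_
    refine jn 5024 (by decide +kernel) ?_
    refine jn 5082 (by decide +kernel) ?_
    refine jn 5142 (by decide +kernel) ?_
    refine jn 5211 (by decide +kernel) ?_
    refine jn 5268 (by decide +kernel) ?_
    refine jn 5324 (by decide +kernel) ?_
    refine jn 5379 (by decide +kernel) ?_
    refine jn 5444 (by decide +kernel) ?_
    refine jn 5508 (by decide +kernel) ?_
    refine jn 5577 (by decide +kernel) ?_
    refine jn 5648 (by decide +kernel) ?_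
    refine jn 5724 (by decide +kernel) ?_
    refine jn 5775 (by decide +kernel) ?_
    refine jn 5835 (by decide +kernel) ?_
    refine jn 5901 (by decide +kernel) ?_
    refine jn 5976 (by decide +kernel) ?_
    refine jn 6044 (by decide +kernel) ?_
    refine jn 6116 (by decide +kernel) ?_
    refine jn 6167 (by decide +kernel) ?_
    refine jn 6382 (by decide +kernel) ?_
    refine jn 6461 (by decide +kernel) ?_
    refine jn 6535 (by decide +kernel) ?_
    refine jn 6605 (by decide +kernel) ?_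
    refine jn 6653 (by decide +kernel) ?_
    refine jn 6722 (by decide +kernel) ?_
    refine jn 6799 (by decide +kernel) ?_
    refine jn 6848 (by decide +kernel) ?_
    refine jn 6925 (by decide +kernel) ?_
    refine jn 7009 (by decide +kernel) ?_
    refine jn 7079 (by decide +kernel) ?_
    refine jn 7163 (by decide +kernel) ?_
    refine jn 7235 (by decide +kernel) ?_
    refine jn 7316 (by decide +kernel) ?_
    refine jn 7384 (by decide +kernel) ?_
    refine jn 7468 (by decide +kernel) ?_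
    refine jn 7546 (by decide +kernel) ?_
    refine jn 7612 (by decide +kernel) ?_
    refine jn 7709 (by decide +kernel) ?_
    refine jn 7774 (by decide +kernel) ?_
    refine jn 7849 (by decide +kernel) ?_
    refine jn 7933 (by decide +kernel) ?_
    refine jn 8026 (by decide +kernel) ?_
    refine jn 8237 (by decide +kernel) ?_
    refine jn 8502 (by decide +kernel) ?_
    refine jn 8657 (by decide +kernel) ?_
    refine jn 8791 (by decide +kernel) ?_
    refine jn 8861 (by decide +kernel) ?_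
    refine jn 8963 (by decide +kernel) ?_
    refine jn 9041 (by decide +kernel) ?_
    refine jn 9117 (by decide +kernel) ?_
    refine jn 9171 (by decide +kernel) ?_
    refine jn 9236 (by decide +kernel) ?_
    refine jn 9297 (by decide +kernel) ?_
    refine jn 9383 (by decide +kernel) ?_
    refine jn 9667 (by decide +kernel) ?_
    refine jn 9864 (by decide +kernel) ?_
    refine jn 9972 (by decide +kernel) ?_
    refine jn 10041 (by decide +kernel) ?_
    refine jn 10096 (by decide +kernel) ?_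
    refine jn 10166 (by decide +kernel) ?_
    refine jn 10234 (by decide +kernel) ?_
    refine jn 10291 (by decide +kernel) ?_
    refine jn 10330 (by decide +kernel) ?_
    refine jn 10403 (by decide +kernel) ?_
    refine jn 10445 (by decide +kernel) ?_
    refine jn 10491 (by decide +kernel) ?_
    refine jn 10547 (by decide +kernel) ?_
    refine jn 10591 (by decide +kernel) ?_
    refine jn 10627 (by decide +kernel) ?_
    refine jn 11019 (by decide +kernel) ?_
    refine jn 11148 (by decide +kernel) ?_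
    refine jn 11268 (by decide +kernel) ?_
    refine jn 11422 (by decide +kernel) ?_
    refine jn 11526 (by decide +kernel) ?_
    refine jn 11598 (by decide +kernel) ?_
    refine jn 11669 (by decide +kernel) ?_
    refine jn 11750 (by decide +kernel) ?_
    refine jn 11826 (by decide +kernel) ?_
    refine jn 11892 (by decide +kernel) ?_
    refine jn 12222 (by decide +kernel) ?_
    refine jn 12525 (by decide +kernel) ?_
    refine jn 12631 (by decide +kernel) ?_
    refine jn 12781 (by decide +kernel) ?_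
    refine jn 12920 (by decide +kernel) ?_
    refine jn 13420 (by decide +kernel) ?_
    refine jn 13760 (by decide +kernel) ?_
    refine jn 13903 (by decide +kernel) ?_
    exact je (by decide +kernel)
  · refine fin 456 25032 T116_1 ?_
    refine jn 5 (by decide +kernel) ?_
    refine jn 7 (by decide +kernel) ?_
    refine jn 8 (by decide +kernel) ?_
    refine jn 9 (by decide +kernel) ?_
    refine jn 11 (by decide +kernel) ?_
    refine jn 17 (by decide +kernel) ?_
    refine jn 23 (by decide +kernel) ?_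
    refine jn 24 (by decide +kernel) ?_
    refine jn 25 (by decide +kernel) ?_
    refine jn 26 (by decide +kernel) ?_
    refine jn 27 (by decide +kernel) ?_
    refine jn 28 (by decide +kernel) ?_
    refine jn 29 (by decide +kernel) ?_
    refine jn 30 (by decide +kernel) ?_
    refine jn 31 (by decide +kernel) ?_
    refine jn 38 (by decide +kernel) ?_
    refine jn 51 (by decide +kernel) ?_
    refine jn 72 (by decide +kernel) ?_
    refine jn 92 (by decide +kernel) ?_
    refine jn 96 (by decide +kernel) ?_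
    refine jn 98 (by decide +kernel) ?_
    refine jn 100 (by decide +kernel) ?_
    refine jn 101 (by decide +kernel) ?_
    refine jn 102 (by decide +kernel) ?_
    refine jn 104 (by decide +kernel) ?_
    refine jn 107 (by decide +kernel) ?_
    refine jn 114 (by decide +kernel) ?_
    refine jn 127 (by decide +kernel) ?_
    refine jn 137 (by decide +kernel) ?_
    refine jn 148 (by decide +kernel) ?_
    refine jn 149 (by decide +kernel) ?_
    refine jn 150 (by decide +kernel) ?_
    refine jn 152 (by decide +kernel) ?_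
    refine jn 153 (by decide +kernel) ?_
    refine jn 154 (by decide +kernel) ?_
    refine jn 155 (by decide +kernel) ?_
    refine jn 156 (by decide +kernel) ?_
    refine jn 157 (by decide +kernel) ?_
    refine jn 158 (by decide +kernel) ?_
    refine jn 159 (by decide +kernel) ?_
    refine jn 160 (by decide +kernel) ?_
    refine jn 172 (by decide +kernel) ?_
    refine jn 181 (by decide +kernel) ?_
    refine jn 188 (by decide +kernel) ?_
    refine jn 205 (by decide +kernel) ?_
    refine jn 219 (by decide +kernel) ?_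
    refine jn 227 (by decide +kernel) ?_
    refine jn 240 (by decide +kernel) ?_
    refine jn 248 (by decide +kernel) ?_
    refine jn 255 (by decide +kernel) ?_
    refine jn 260 (by decide +kernel) ?_
    refine jn 263 (by decide +kernel) ?_
    refine jn 278 (by decide +kernel) ?_
    refine jn 292 (by decide +kernel) ?_
    refine jn 309 (by decide +kernel) ?_
    refine jn 320 (by decide +kernel) ?_
    refine jn 325 (by decide +kernel) ?_
    refine jn 328 (by decide +kernel) ?_
    refine jn 344 (by decide +kernel) ?_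
    refine jn 352 (by decide +kernel) ?_
    refine jn 357 (by decide +kernel) ?_
    refine jn 361 (by decide +kernel) ?_
    refine jn 373 (by decide +kernel) ?_
    refine jn 376 (by decide +kernel) ?_
    refine jn 391 (by decide +kernel) ?_
    refine jn 406 (by decide +kernel) ?_
    refine jn 421 (by decide +kernel) ?_
    refine jn 437 (by decide +kernel) ?_
    refine jn 452 (by decide +kernel) ?_
    refine jn 460 (by decide +kernel) ?_
    refine jn 469 (by decide +kernel) ?_
    refine jn 484 (by decide +kernel) ?_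
    refine jn 497 (by decide +kernel) ?_
    refine jn 513 (by decide +kernel) ?_
    refine jn 524 (by decide +kernel) ?_
    refine jn 540 (by decide +kernel) ?_
    refine jn 552 (by decide +kernel) ?_
    refine jn 567 (by decide +kernel) ?_
    refine jn 580 (by decide +kernel) ?_
    refine jn 596 (by decide +kernel) ?_
    refine jn 602 (by decide +kernel) ?_
    refine jn 617 (by decide +kernel) ?_
    refine jn 651 (by decide +kernel) ?_
    refine jn 731 (by decide +kernel) ?_
    refine jn 751 (by decide +kernel) ?_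
    refine jn 759 (by decide +kernel) ?_
    refine jn 765 (by decide +kernel) ?_
    refine jn 775 (by decide +kernel) ?_
    refine jn 785 (by decide +kernel) ?_
    refine jn 799 (by decide +kernel) ?_
    refine jn 801 (by decide +kernel) ?_
    refine jn 825 (by decide +kernel) ?_
    refine jn 831 (by decide +kernel) ?_
    refine jn 839 (by decide +kernel) ?_
    refine jn 857 (by decide +kernel) ?_
    refine jn 871 (by decide +kernel) ?_
    refine jn 903 (by decide +kernel) ?_
    refine jn 921 (by decide +kernel) ?_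
    refine jn 945 (by decide +kernel) ?_
    refine jn 971 (by decide +kernel) ?_
    refine jn 997 (by decide +kernel) ?_
    refine jn 1027 (by decide +kernel) ?_
    refine jn 1051 (by decide +kernel) ?_
    refine jn 1152 (by decide +kernel) ?_
    refine jn 1217 (by decide +kernel) ?_
    refine jn 1233 (by decide +kernel) ?_
    refine jn 1263 (by decide +kernel) ?_
    refine jn 1273 (by decide +kernel) ?_
    refine jn 1303 (by decide +kernel) ?_
    refine jn 1329 (by decide +kernel) ?_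
    refine jn 1343 (by decide +kernel) ?_
    refine jn 1353 (by decide +kernel) ?_
    refine jn 1359 (by decide +kernel) ?_
    refine jn 1372 (by decide +kernel) ?_
    refine jn 1382 (by decide +kernel) ?_
    refine jn 1412 (by decide +kernel) ?_
    refine jn 1422 (by decide +kernel) ?_
    refine jn 1446 (by decide +kernel) ?_
    refine jn 1458 (by decide +kernel) ?_
    refine jn 1478 (by decide +kernel) ?_
    refine jn 1492 (by decide +kernel) ?_
    refine jn 1502 (by decide +kernel) ?_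
    refine jn 1508 (by decide +kernel) ?_
    refine jn 1570 (by decide +kernel) ?_
    refine jn 1696 (by decide +kernel) ?_
    refine jn 1745 (by decide +kernel) ?_
    refine jn 1773 (by decide +kernel) ?_
    refine jn 1805 (by decide +kernel) ?_
    refine jn 1837 (by decide +kernel) ?_
    refine jn 1847 (by decide +kernel) ?_
    refine jn 1855 (by decide +kernel) ?_
    refine jn 1881 (by decide +kernel) ?_
    refine jn 1911 (by decide +kernel) ?_
    refine jn 1937 (by decide +kernel) ?_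
    refine jn 1958 (by decide +kernel) ?_
    refine jn 1986 (by decide +kernel) ?_
    refine jn 1996 (by decide +kernel) ?_
    refine jn 2036 (by decide +kernel) ?_
    refine jn 2054 (by decide +kernel) ?_
    refine jn 2066 (by decide +kernel) ?_
    refine jn 2070 (by decide +kernel) ?_
    refine jn 2110 (by decide +kernel) ?_
    refine jn 2124 (by decide +kernel) ?_
    refine jn 2150 (by decide +kernel) ?_
    refine jn 2222 (by decide +kernel) ?_
    refine jn 2312 (by decide +kernel) ?_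
    refine jn 2378 (by decide +kernel) ?_
    refine jn 2448 (by decide +kernel) ?_
    refine jn 2493 (by decide +kernel) ?_
    refine jn 2529 (by decide +kernel) ?_
    refine jn 2573 (by decide +kernel) ?_
    refine jn 2613 (by decide +kernel) ?_
    refine jn 2637 (by decide +kernel) ?_
    refine jn 2669 (by decide +kernel) ?_
    refine jn 2693 (by decide +kernel) ?_
    refine jn 2739 (by decide +kernel) ?_
    refine jn 2747 (by decide +kernel) ?_
    refine jn 2767 (by decide +kernel) ?_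
    refine jn 2815 (by decide +kernel) ?_
    refine jn 2905 (by decide +kernel) ?_
    refine jn 2983 (by decide +kernel) ?_
    refine jn 3053 (by decide +kernel) ?_
    refine jn 3113 (by decide +kernel) ?_
    refine jn 3192 (by decide +kernel) ?_
    refine jn 3216 (by decide +kernel) ?_
    refine jn 3258 (by decide +kernel) ?_
    refine jn 3310 (by decide +kernel) ?_
    refine jn 3342 (by decide +kernel) ?_
    refine jn 3408 (by decide +kernel) ?_
    refine jn 3440 (by decide +kernel) ?_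
    refine jn 3488 (by decide +kernel) ?_
    refine jn 3520 (by decide +kernel) ?_
    refine jn 3552 (by decide +kernel) ?_
    refine jn 3600 (by decide +kernel) ?_
    refine jn 3684 (by decide +kernel) ?_
    refine jn 3756 (by decide +kernel) ?_
    refine jn 3874 (by decide +kernel) ?_
    refine jn 3972 (by decide +kernel) ?_
    refine jn 4050 (by decide +kernel) ?_
    refine jn 4126 (by decide +kernel) ?_
    refine jn 4219 (by decide +kernel) ?_
    refine jn 4285 (by decide +kernel) ?_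
    refine jn 4345 (by decide +kernel) ?_
    refine jn 4443 (by decide +kernel) ?_
    refine jn 4525 (by decide +kernel) ?_
    refine jn 4579 (by decide +kernel) ?_
    refine jn 4645 (by decide +kernel) ?_
    refine jn 4689 (by decide +kernel) ?_
    refine jn 4781 (by decide +kernel) ?_
    refine jn 4839 (by decide +kernel) ?_
    refine jn 4855 (by decide +kernel) ?_
    refine jn 4909 (by decide +kernel) ?_
    refine jn 4965 (by decide +kernel) ?_
    refine jn 5047 (by decide +kernel) ?_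
    refine jn 5103 (by decide +kernel) ?_
    refine jn 5133 (by decide +kernel) ?_
    refine jn 5197 (by decide +kernel) ?_
    refine jn 5233 (by decide +kernel) ?_
    refine jn 5310 (by decide +kernel) ?_
    refine jn 5393 (by decide +kernel) ?_
    refine jn 5447 (by decide +kernel) ?_
    refine jn 5479 (by decide +kernel) ?_
    refine jn 5565 (by decide +kernel) ?_
    refine jn 5623 (by decide +kernel) ?_
    refine jn 5647 (by decide +kernel) ?_
    refine jn 5720 (by decide +kernel) ?_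
    refine jn 5810 (by decide +kernel) ?_
    refine jn 5900 (by decide +kernel) ?_
    refine jn 6012 (by decide +kernel) ?_
    refine jn 6132 (by decide +kernel) ?_
    refine jn 6250 (by decide +kernel) ?_
    refine jn 6370 (by decide +kernel) ?_
    refine jn 6520 (by decide +kernel) ?_
    refine jn 6592 (by decide +kernel) ?_
    refine jn 6720 (by decide +kernel) ?_
    refine jn 6866 (by decide +kernel) ?_
    refine jn 6965 (by decide +kernel) ?_
    refine jn 7071 (by decide +kernel) ?_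
    refine jn 7203 (by decide +kernel) ?_
    refine jn 7359 (by decide +kernel) ?_
    refine jn 7471 (by decide +kernel) ?_
    refine jn 7581 (by decide +kernel) ?_
    refine jn 7683 (by decide +kernel) ?_
    refine jn 7823 (by decide +kernel) ?_
    refine jn 7959 (by decide +kernel) ?_
    refine jn 8101 (by decide +kernel) ?_
    refine jn 8235 (by decide +kernel) ?_
    refine jn 8365 (by decide +kernel) ?_
    refine jn 8451 (by decide +kernel) ?_
    refine jn 8572 (by decide +kernel) ?_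
    refine jn 8948 (by decide +kernel) ?_
    refine jn 9150 (by decide +kernel) ?_
    refine jn 9380 (by decide +kernel) ?_
    refine jn 9596 (by decide +kernel) ?_
    refine jn 9796 (by decide +kernel) ?_
    refine jn 10018 (by decide +kernel) ?_
    refine jn 10206 (by decide +kernel) ?_
    refine jn 10450 (by decide +kernel) ?_
    refine jn 10666 (by decide +kernel) ?_
    refine jn 10868 (by decide +kernel) ?_
    refine jn 11106 (by decide +kernel) ?_
    refine jn 11299 (by decide +kernel) ?_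
    refine jn 11770 (by decide +kernel) ?_
    refine jn 12004 (by decide +kernel) ?_
    refine jn 12254 (by decide +kernel) ?_
    refine jn 12518 (by decide +kernel) ?_
    refine jn 12758 (by decide +kernel) ?_
    refine jn 13010 (by decide +kernel) ?_
    refine jn 13250 (by decide +kernel) ?_
    refine jn 13510 (by decide +kernel) ?_
    refine jn 13748 (by decide +kernel) ?_
    refine jn 14028 (by decide +kernel) ?_
    refine jn 14284 (by decide +kernel) ?_
    refine jn 14548 (by decide +kernel) ?_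
    refine jn 14790 (by decide +kernel) ?_
    refine jn 15044 (by decide +kernel) ?_
    refine jn 15535 (by decide +kernel) ?_
    refine jn 15825 (by decide +kernel) ?_
    refine jn 16032 (by decide +kernel) ?_
    refine jn 16174 (by decide +kernel) ?_
    refine jn 16314 (by decide +kernel) ?_
    refine jn 16434 (by decide +kernel) ?_
    refine jn 16540 (by decide +kernel) ?_
    refine jn 16640 (by decide +kernel) ?_
    refine jn 16728 (by decide +kernel) ?_
    refine jn 16810 (by decide +kernel) ?_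
    refine jn 16885 (by decide +kernel) ?_
    refine jn 16951 (by decide +kernel) ?_
    refine jn 17019 (by decide +kernel) ?_
    refine jn 17082 (by decide +kernel) ?_
    refine jn 17140 (by decide +kernel) ?_
    refine jn 17561 (by decide +kernel) ?_
    refine jn 17839 (by decide +kernel) ?_
    refine jn 17997 (by decide +kernel) ?_
    refine jn 18113 (by decide +kernel) ?_
    refine jn 18225 (by decide +kernel) ?_
    refine jn 18333 (by decide +kernel) ?_
    refine jn 18420 (by decide +kernel) ?_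
    refine jn 18506 (by decide +kernel) ?_
    refine jn 18589 (by decide +kernel) ?_
    refine jn 18661 (by decide +kernel) ?_
    refine jn 18726 (by decide +kernel) ?_
    refine jn 18792 (by decide +kernel) ?_
    refine jn 18849 (by decide +kernel) ?_
    refine jn 18907 (by decide +kernel) ?_
    refine jn 18964 (by decide +kernel) ?_
    refine jn 19019 (by decide +kernel) ?_
    refine jn 19069 (by decide +kernel) ?_
    refine jn 19118 (by decide +kernel) ?_
    refine jn 19163 (by decide +kernel) ?_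
    refine jn 19204 (by decide +kernel) ?_
    refine jn 19733 (by decide +kernel) ?_
    refine jn 20012 (by decide +kernel) ?_
    refine jn 20226 (by decide +kernel) ?_
    refine jn 20397 (by decide +kernel) ?_
    refine jn 20523 (by decide +kernel) ?_
    refine jn 20643 (by decide +kernel) ?_
    refine jn 20748 (by decide +kernel) ?_
    refine jn 20836 (by decide +kernel) ?_
    refine jn 20927 (by decide +kernel) ?_
    refine jn 21019 (by decide +kernel) ?_
    refine jn 21095 (by decide +kernel) ?_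
    refine jn 21169 (by decide +kernel) ?_
    refine jn 21242 (by decide +kernel) ?_
    refine jn 21831 (by decide +kernel) ?_
    refine jn 22202 (by decide +kernel) ?_
    refine jn 22438 (by decide +kernel) ?_
    refine jn 22660 (by decide +kernel) ?_
    refine jn 22821 (by decide +kernel) ?_
    refine jn 23339 (by decide +kernel) ?_
    refine jn 23765 (by decide +kernel) ?_
    refine jn 24117 (by decide +kernel) ?_
    refine jn 24367 (by decide +kernel) ?_
    refine jn 24864 (by decide +kernel) ?_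
    exact je (by decide +kernel)
  · refine fin 1704 17084 T116_2 ?_
    refine jn 7 (by decide +kernel) ?_
    refine jn 10 (by decide +kernel) ?_
    refine jn 14 (by decide +kernel) ?_
    refine jn 19 (by decide +kernel) ?_
    refine jn 29 (by decide +kernel) ?_
    refine jn 42 (by decide +kernel) ?_
    refine jn 54 (by decide +kernel) ?_
    refine jn 58 (by decide +kernel) ?_
    refine jn 62 (by decide +kernel) ?_
    refine jn 71 (by decide +kernel) ?_
    refine jn 80 (by decide +kernel) ?_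
    refine jn 89 (by decide +kernel) ?_
    refine jn 98 (by decide +kernel) ?_
    refine jn 102 (by decide +kernel) ?_
    refine jn 108 (by decide +kernel) ?_
    refine jn 120 (by decide +kernel) ?_
    refine jn 130 (by decide +kernel) ?_
    refine jn 148 (by decide +kernel) ?_
    refine jn 154 (by decide +kernel) ?_
    refine jn 159 (by decide +kernel) ?_
    refine jn 171 (by decide +kernel) ?_
    refine jn 186 (by decide +kernel) ?_
    refine jn 191 (by decide +kernel) ?_
    refine jn 203 (by decide +kernel) ?_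
    refine jn 212 (by decide +kernel) ?_
    refine jn 213 (by decide +kernel) ?_
    refine jn 214 (by decide +kernel) ?_
    refine jn 215 (by decide +kernel) ?_
    refine jn 216 (by decide +kernel) ?_
    refine jn 225 (by decide +kernel) ?_
    refine jn 235 (by decide +kernel) ?_
    refine jn 246 (by decide +kernel) ?_
    refine jn 256 (by decide +kernel) ?_
    refine jn 270 (by decide +kernel) ?_
    refine jn 277 (by decide +kernel) ?_
    refine jn 288 (by decide +kernel) ?_
    refine jn 295 (by decide +kernel) ?_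
    refine jn 309 (by decide +kernel) ?_
    refine jn 317 (by decide +kernel) ?_
    refine jn 334 (by decide +kernel) ?_
    refine jn 347 (by decide +kernel) ?_
    refine jn 359 (by decide +kernel) ?_
    refine jn 368 (by decide +kernel) ?_
    refine jn 379 (by decide +kernel) ?_
    refine jn 392 (by decide +kernel) ?_
    refine jn 402 (by decide +kernel) ?_
    refine jn 403 (by decide +kernel) ?_
    refine jn 404 (by decide +kernel) ?_
    refine jn 405 (by decide +kernel) ?_
    refine jn 406 (by decide +kernel) ?_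
    refine jn 421 (by decide +kernel) ?_
    refine jn 435 (by decide +kernel) ?_
    refine jn 449 (by decide +kernel) ?_
    refine jn 464 (by decide +kernel) ?_
    refine jn 482 (by decide +kernel) ?_
    refine jn 498 (by decide +kernel) ?_
    refine jn 515 (by decide +kernel) ?_
    refine jn 529 (by decide +kernel) ?_
    refine jn 544 (by decide +kernel) ?_
    refine jn 559 (by decide +kernel) ?_
    refine jn 575 (by decide +kernel) ?_
    refine jn 594 (by decide +kernel) ?_
    refine jn 604 (by decide +kernel) ?_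
    refine jn 623 (by decide +kernel) ?_
    refine jn 641 (by decide +kernel) ?_
    refine jn 657 (by decide +kernel) ?_
    refine jn 674 (by decide +kernel) ?_
    refine jn 688 (by decide +kernel) ?_
    refine jn 707 (by decide +kernel) ?_
    refine jn 722 (by decide +kernel) ?_
    refine jn 744 (by decide +kernel) ?_
    refine jn 814 (by decide +kernel) ?_
    refine jn 901 (by decide +kernel) ?_
    refine jn 918 (by decide +kernel) ?_
    refine jn 922 (by decide +kernel) ?_
    refine jn 931 (by decide +kernel) ?_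
    refine jn 932 (by decide +kernel) ?_
    refine jn 942 (by decide +kernel) ?_
    refine jn 962 (by decide +kernel) ?_
    refine jn 970 (by decide +kernel) ?_
    refine jn 990 (by decide +kernel) ?_
    refine jn 1001 (by decide +kernel) ?_
    refine jn 1002 (by decide +kernel) ?_
    refine jn 1012 (by decide +kernel) ?_
    refine jn 1028 (by decide +kernel) ?_
    refine jn 1037 (by decide +kernel) ?_
    refine jn 1039 (by decide +kernel) ?_
    refine jn 1064 (by decide +kernel) ?_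
    refine jn 1076 (by decide +kernel) ?_
    refine jn 1096 (by decide +kernel) ?_
    refine jn 1107 (by decide +kernel) ?_
    refine jn 1118 (by decide +kernel) ?_
    refine jn 1256 (by decide +kernel) ?_
    refine jn 1293 (by decide +kernel) ?_
    refine jn 1306 (by decide +kernel) ?_
    refine jn 1326 (by decide +kernel) ?_
    refine jn 1338 (by decide +kernel) ?_
    refine jn 1351 (by decide +kernel) ?_
    refine jn 1373 (by decide +kernel) ?_
    refine jn 1402 (by decide +kernel) ?_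
    refine jn 1415 (by decide +kernel) ?_
    refine jn 1442 (by decide +kernel) ?_
    refine jn 1455 (by decide +kernel) ?_
    refine jn 1475 (by decide +kernel) ?_
    refine jn 1487 (by decide +kernel) ?_
    refine jn 1502 (by decide +kernel) ?_
    refine jn 1550 (by decide +kernel) ?_
    refine jn 1564 (by decide +kernel) ?_
    refine jn 1636 (by decide +kernel) ?_
    refine jn 1752 (by decide +kernel) ?_
    refine jn 1834 (by decide +kernel) ?_
    refine jn 1842 (by decide +kernel) ?_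
    refine jn 1870 (by decide +kernel) ?_
    refine jn 1890 (by decide +kernel) ?_
    refine jn 1897 (by decide +kernel) ?_
    refine jn 1923 (by decide +kernel) ?_
    refine jn 1935 (by decide +kernel) ?_
    refine jn 1945 (by decide +kernel) ?_
    refine jn 1967 (by decide +kernel) ?_
    refine jn 1994 (by decide +kernel) ?_
    refine jn 2022 (by decide +kernel) ?_
    refine jn 2035 (by decide +kernel) ?_
    refine jn 2047 (by decide +kernel) ?_
    refine jn 2055 (by decide +kernel) ?_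
    refine jn 2083 (by decide +kernel) ?_
    refine jn 2103 (by decide +kernel) ?_
    refine jn 2110 (by decide +kernel) ?_
    refine jn 2136 (by decide +kernel) ?_
    refine jn 2151 (by decide +kernel) ?_
    refine jn 2163 (by decide +kernel) ?_
    refine jn 2183 (by decide +kernel) ?_
    refine jn 2216 (by decide +kernel) ?_
    refine jn 2247 (by decide +kernel) ?_
    refine jn 2297 (by decide +kernel) ?_
    refine jn 2372 (by decide +kernel) ?_
    refine jn 2451 (by decide +kernel) ?_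
    refine jn 2525 (by decide +kernel) ?_
    refine jn 2579 (by decide +kernel) ?_
    refine jn 2611 (by decide +kernel) ?_
    refine jn 2666 (by decide +kernel) ?_
    refine jn 2692 (by decide +kernel) ?_
    refine jn 2740 (by decide +kernel) ?_
    refine jn 2775 (by decide +kernel) ?_
    refine jn 2826 (by decide +kernel) ?_
    refine jn 2855 (by decide +kernel) ?_
    refine jn 2924 (by decide +kernel) ?_
    refine jn 2999 (by decide +kernel) ?_
    refine jn 3074 (by decide +kernel) ?_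
    refine jn 3139 (by decide +kernel) ?_
    refine jn 3244 (by decide +kernel) ?_
    refine jn 3323 (by decide +kernel) ?_
    refine jn 3403 (by decide +kernel) ?_
    refine jn 3429 (by decide +kernel) ?_
    refine jn 3496 (by decide +kernel) ?_
    refine jn 3556 (by decide +kernel) ?_
    refine jn 3621 (by decide +kernel) ?_
    refine jn 3700 (by decide +kernel) ?_
    refine jn 3764 (by decide +kernel) ?_
    refine jn 3792 (by decide +kernel) ?_
    refine jn 3845 (by decide +kernel) ?_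
    refine jn 3912 (by decide +kernel) ?_
    refine jn 3964 (by decide +kernel) ?_
    refine jn 4025 (by decide +kernel) ?_
    refine jn 4079 (by decide +kernel) ?_
    refine jn 4108 (by decide +kernel) ?_
    refine jn 4149 (by decide +kernel) ?_
    refine jn 4188 (by decide +kernel) ?_
    refine jn 4248 (by decide +kernel) ?_
    refine jn 4327 (by decide +kernel) ?_
    refine jn 4391 (by decide +kernel) ?_
    refine jn 4446 (by decide +kernel) ?_
    refine jn 4495 (by decide +kernel) ?_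
    refine jn 4563 (by decide +kernel) ?_
    refine jn 4632 (by decide +kernel) ?_
    refine jn 4715 (by decide +kernel) ?_
    refine jn 4782 (by decide +kernel) ?_
    refine jn 4847 (by decide +kernel) ?_
    refine jn 4936 (by decide +kernel) ?_
    refine jn 4990 (by decide +kernel) ?_
    refine jn 5036 (by decide +kernel) ?_
    refine jn 5147 (by decide +kernel) ?_
    refine jn 5263 (by decide +kernel) ?_
    refine jn 5355 (by decide +kernel) ?_
    refine jn 5474 (by decide +kernel) ?_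
    refine jn 5595 (by decide +kernel) ?_
    refine jn 5729 (by decide +kernel) ?_
    refine jn 5846 (by decide +kernel) ?_
    refine jn 5954 (by decide +kernel) ?_
    refine jn 6046 (by decide +kernel) ?_
    refine jn 6170 (by decide +kernel) ?_
    refine jn 6270 (by decide +kernel) ?_
    refine jn 6501 (by decide +kernel) ?_
    refine jn 6715 (by decide +kernel) ?_
    refine jn 6858 (by decide +kernel) ?_
    refine jn 6995 (by decide +kernel) ?_
    refine jn 7123 (by decide +kernel) ?_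
    refine jn 7291 (by decide +kernel) ?_
    refine jn 7435 (by decide +kernel) ?_
    refine jn 7591 (by decide +kernel) ?_
    refine jn 7743 (by decide +kernel) ?_
    refine jn 7886 (by decide +kernel) ?_
    refine jn 8003 (by decide +kernel) ?_
    refine jn 8148 (by decide +kernel) ?_
    refine jn 8371 (by decide +kernel) ?_
    refine jn 8825 (by decide +kernel) ?_
    refine jn 9033 (by decide +kernel) ?_
    refine jn 9169 (by decide +kernel) ?_
    refine jn 9288 (by decide +kernel) ?_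
    refine jn 9383 (by decide +kernel) ?_
    refine jn 9471 (by decide +kernel) ?_
    refine jn 9547 (by decide +kernel) ?_
    refine jn 9930 (by decide +kernel) ?_
    refine jn 10222 (by decide +kernel) ?_
    refine jn 10413 (by decide +kernel) ?_
    refine jn 10567 (by decide +kernel) ?_
    refine jn 10691 (by decide +kernel) ?_
    refine jn 10801 (by decide +kernel) ?_
    refine jn 11104 (by decide +kernel) ?_
    refine jn 11557 (by decide +kernel) ?_
    refine jn 11790 (by decide +kernel) ?_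
    refine jn 11962 (by decide +kernel) ?_
    refine jn 12084 (by decide +kernel) ?_
    refine jn 12377 (by decide +kernel) ?_
    refine jn 12709 (by decide +kernel) ?_
    refine jn 12906 (by decide +kernel) ?_
    refine jn 13054 (by decide +kernel) ?_
    refine jn 13196 (by decide +kernel) ?_
    refine jn 13315 (by decide +kernel) ?_
    refine jn 13426 (by decide +kernel) ?_
    refine jn 13823 (by decide +kernel) ?_
    refine jn 14125 (by decide +kernel) ?_
    refine jn 14360 (by decide +kernel) ?_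
    refine jn 14575 (by decide +kernel) ?_
    refine jn 14737 (by decide +kernel) ?_
    refine jn 15399 (by decide +kernel) ?_
    refine jn 15662 (by decide +kernel) ?_
    refine jn 15887 (by decide +kernel) ?_
    refine jn 16052 (by decide +kernel) ?_
    exact je (by decide +kernel)

end Pool.Agent.MP_2339ce_nt.NR
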