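import Pool.Agent.MP_2339ce_nt.Q2.NC.L8
import Pool.Agent.MP_2339ce_nt.Q2.NC.L9
import Pool.Agent.MP_2339ce_nt.Q2.NC.L10
import Pool.Agent.MP_2339ce_nt.Q2.CkI

/-! Block NR: runs. -/

set_option autoImplicit false
set_option maxRecDepth 100000

noncomputable section

namespace Pool.Agent.MP_2339ce_nt.NR

open Q2.Top

def T117_0 : Ph :=
  (.na 12373 11586 (.na 4360 2897 (.na 1456 1449 (.na 602 1024 (.nx 601 20644 (.nr 600 2097153 (.nr
  1 725 .s1 (.nx 300 2049 (.la (.ls 73 41 5793)) (.nr 599 262145 (.la (.lg 0 false 1 67 67 31 0))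
  .out))) .out) .out) (.nx 1455 20644 (.nr 1454 2097153 (.nr 603 1024 .s1 (.nx 1028 3252 (.la (.ls
  71 41 10330)) (.nr 1453 131073 (.la (.lg 0 false 1 59 59 31 0)) .out))) .out) .out)) (.na 2658
  2048 (.nx 2657 13005 (.nr 2656 2097153 (.nr 1457 1449 .s1 (.nx 2056 3252 (.la (.ls 71 41 7301))
  (.nr 2655 16385 (.la (.lg 0 false 1 29 37 31 0)) .out))) .out) .out) (.nx 4359 13005 (.nr 4358
  2097153 (.nr 2659 2048 .s1 (.nx 3508 3252 (.la (.ls 71 41 5166)) (.nr 4357 16385 (.la (.ls 37 53
  77422)) .out))) .out) .out))) (.na 7511 5793 (.na 5562 4096 (.nx 5561 4097 (.nr 5560 1048577 (.nr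
  4361 2897 .s1 (.la (.ls 61 41 5797))) .out) .out) (.nx 7510 5162 (.nr 7509 1048577 (.nr 5563 4096
  .s1 (.nx 5812 249 (.nx 5811 248 (.nr 5810 64574 (.lx (.lp 53 31 1449)) (.l1 .sk)) (.l1 .sk)) (.la
  (.ls 61 41 6493)))) .out) .out)) (.na 10319 8192 (.nx 10318 2049 (.nr 10317 524289 (.nr 7512 5793
  .s1 (.nx 7918 406 (.nx 7760 248 (.nr 7759 91315 (.lx (.lp 53 37 2049)) (.l1 .sk)) (.nx 7761 249
  (.l1 .sk) (.lx (.lp 61 37 2049)))) (.la (.ls 61 37 2049)))) .out) .out) (.nx 12372 2049 (.nr
  12371 524289 (.nr 10320 8192 .s1 (.nx 11345 1025 (.nx 10568 248 (.nr 10567 129147 (.lx (.lp 53 41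
  2897)) (.l1 .sk)) (.nx 10569 249 (.l1 .sk) (.lx (.lp 61 41 2897)))) (.nr 12370 262145 (.nx 11612
  1292 (.lx (.lp 59 41 2897)) (.nr 12369 131073 (.lx (.lp 53 41 2897)) .out)) .out))) .out)
  .out)))) (.na 20159 131072 (.na 16476 32768 (.na 14424 16384 (.nx 14423 2049 (.nr 14422 131073
  (.nr 12374 11586 .s1 (.lx (.lp 47 41 4097))) .out) .out) (.nx 16475 2049 (.nr 16474 262145 (.nr
  14425 16384 .s1 (.nx 14748 324 (.lx (.lp 59 43 8193)) (.nr 16473 131073 (.lx (.lp 47 43 8193))
  .out))) .out) .out)) (.na 18529 65536 (.nx 18528 2049 (.nr 18527 524289 (.nr 16477 32768 .s1 (.nx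
  16989 512 (.nx 16800 324 (.lx (.lp 53 47 16385)) (.nr 16988 131073 (.lx (.lp 43 47 16385)) .out))
  (.nr 18526 262145 (.lx (.lp 47 47 16385)) .out))) .out) .out) (.nx 20158 1627 (.nr 20157 524289
  (.nr 18530 65536 .s1 (.nx 18853 324 (.lx (.lp 16 0 32769)) (.nr 20156 262145 (.lx (.lp 43 53
  32769)) .out))) .out) .out))) (.na 22304 524288 (.na 21789 262144 (.nx 21788 1627 (.nr 21787
  524289 (.nr 20160 131072 .s1 (.nx 20672 513 (.lx (.lp 43 59 65537)) (.nr 21786 262145 (.lx (.lp
  41 59 65537)) .out))) .out) .out) (.nx 22303 513 (.nr 22302 1048577 (.nr 21790 262144 .s1 (.lx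
  (.lp 16 0 131073))) .out) .out)) (.na 22306 1048577 (.nx 22305 324 (.l1 .sk) .out) .out))))

def T117_1 : Ph :=
  (.na 956 4 (.na 412 2 (.nx 411 2097153 (.nr 410 881745 (.nx 3 190 (.nx 2 189 (.nr 1 14 (.lg 0
  false 1 43 43 5 0 504) (.l1 .sk)) (.l1 .sk)) (.nx 383 1048577 (.nr 362 311745 (.nr 333 131073
  (.nx 55 24192 (.lg 0 false 52 103 109 16 0 720720) (.nr 120 1724 (.nr 107 901 (.lg 0 true 52 97
  101 16 0 65520) (.lg 2 true 13 97 97 9 109979 32760)) (.nx 332 832257 (.nx 172 32769 (.lg 1 false
  52 97 107 16 96911 720720) (.nr 331 110219 (.nr 185 3160 (.lg 2 true 13 89 97 9 45620 32760) (.nx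
  237 52017 (.lg 1 false 52 101 107 16 60178 720720) (.nr 330 77937 (.nr 277 38969 (.nr 250 5794
  (.lg 2 true 13 89 97 9 24889 32760) (.nx 276 660563 (.lg 2 false 26 101 107 11 13446 720720)
  .out)) (.nx 329 330282 (.lg 2 false 52 101 107 16 26826 720720) .out)) .out))) .out)) .out)))
  (.nx 361 8193 (.nx 346 324 (.lg 0 false 13 83 83 9 0 6552) (.nx 347 4096 .out (.nr 360 155873
  (.lg 0 false 13 101 103 9 0 720720) .out))) .out)) (.nx 382 257 (.lg 0 false 20 83 83 11 0 5040)
  .out)) (.nr 409 129 (.lg 0 true 26 89 89 11 0 13104) .out))) .out) .out) (.na 723 3 (.nx 722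
  3329023 (.nr 721 623489 (.nx 682 1048577 (.nx 670 832257 (.nx 415 190 (.nx 414 189 (.nr 413 26
  (.lg 0 false 1 43 43 5 0 5040) (.l1 .sk)) (.l1 .sk)) (.nx 498 31225 (.nr 470 185365 (.lg 0 false
  55 101 107 13 0 720720) (.nx 483 324 (.lg 0 false 13 83 83 9 0 13104) (.nx 484 16384 .out (.nr
  497 220437 (.lg 0 false 13 101 103 9 0 720720) .out)))) (.nr 669 220437 (.nr 547 6051 (.nr 535
  2049 (.nr 524 1025 (.lg 0 true 26 97 101 11 0 65520) (.lg 2 true 11 89 89 9 76731 55440)) (.nx
  546 660563 (.lg 2 true 11 89 97 9 30466 55440) .out)) (.nx 668 524289 (.nx 614 82572 (.nx 569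
  41287 (.lg 1 false 22 101 103 11 126199 720720) (.nr 613 155873 (.nx 591 58387 (.lg 1 false 22
  101 103 11 67513 720720) (.lg 1 false 22 101 103 11 47740 720720)) .out)) (.nr 667 131073 (.nr
  653 110219 (.nr 625 38969 (.lg 2 false 11 97 101 9 8471 55440) (.nx 652 262145 (.nr 638 77937
  (.lg 2 false 13 101 103 9 16899 65520) (.nx 651 208065 (.lg 2 false 13 103 107 9 23882 720720)
  .out)) .out)) (.nx 666 131073 (.lg 2 true 13 101 103 9 28393 720720) .out)) .out)) .out)) .out)))
  (.nr 681 257 (.lg 0 true 11 83 83 9 0 11088) .out)) (.nr 720 129 (.nx 704 2097153 (.lg 0 true 22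
  83 83 11 0 11088) (.nr 719 9 (.lg 0 true 15 71 71 9 0 5040) .out)) .out)) .out) .out) (.nx 955
  6658044 (.nr 954 1482912 (.nx 921 1321124 (.nx 907 660563 (.nx 725 189 (.nr 724 37 (.lg 0 true 1
  37 37 5 0 2520) (.l1 .sk)) (.nx 726 190 (.l1 .sk) (.nx 795 32768 (.nr 778 185365 (.lg 0 false 52
  97 103 16 0 720720) (.nx 794 324 (.lg 0 false 16 79 79 16 0 1008) .out)) (.nr 906 220437 (.nr 811
  748 (.lg 0 true 16 83 83 16 0 1008) (.nx 905 524289 (.nx 824 52017 (.lg 1 false 13 101 103 13
  120257 360360) (.nr 904 185365 (.nx 877 165142 (.nx 863 131073 (.nx 850 96321 (.nx 837 70783 (.lg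
  1 false 13 97 101 13 63713 360360) (.lg 1 false 13 97 101 13 46821 360360)) (.lg 1 true 13 97 101
  13 34407 360360)) (.nr 876 155873 (.lg 1 true 13 89 97 13 21266 32760) .out)) (.nr 903 92683 (.nr
  890 6513 (.lg 2 true 13 89 89 13 66238 32760) (.lg 2 false 13 89 97 13 10045 32760)) .out))
  .out)) .out)) .out)))) (.nr 920 129 (.lg 0 true 13 73 73 13 0 6552) .out)) (.nr 953 33 (.lg 0
  true 32 73 73 7 0 1008) .out)) .out) .out))) (.na 1112 7 (.na 957 6 .ne (.nx 1111 16777217 (.nr
  1110 1048577 (.nx 1079 2097153 (.nx 960 190 (.nx 959 189 (.nr 958 67 (.lg 0 true 1 37 37 7 0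
  5040) (.l1 .sk)) (.l1 .sk)) (.nr 1065 370729 (.nx 1051 660563 (.nx 987 41285 (.nr 973 155873 (.lg
  0 false 13 103 107 13 0 720720) (.nx 986 2049 (.lg 0 false 13 83 89 13 0 65520) .out)) (.nr 1050
  220437 (.nr 1000 1026 (.lg 0 true 13 83 83 13 0 13104) (.nx 1039 208065 (.nx 1013 76448 (.lg 1
  false 13 101 103 13 95448 720720) (.nx 1026 112360 (.lg 1 false 13 97 103 13 51546 720720) (.lg 1
  true 13 101 103 13 35071 720720))) (.nr 1049 77937 (.nr 1044 8201 (.lg 2 true 5 89 89 11 60842
  5040) (.lg 2 false 5 89 89 11 7612 5040)) .out))) .out)) (.nr 1064 257 (.lg 0 true 13 79 79 13 0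
  13104) .out)) (.nx 1078 324 (.lg 0 false 13 73 73 13 0 13104) .out))) (.nr 1109 28 (.lg 0 true 30
  73 73 11 0 5040) .out)) .out) .out)) (.na 1113 10 .ne (.nx 1195 2097153 (.nr 1194 1048577 (.nx
  1115 189 (.nr 1114 116 (.lg 0 true 1 31 31 11 0 5040) (.l1 .sk)) (.nx 1116 190 (.l1 .sk) (.nx
  1185 660563 (.nx 1137 52015 (.nx 1117 257 (.l1 (.ls 89 43 2997)) (.nr 1136 623489 (.nr 1130
  185365 (.lg 0 false 13 97 103 19 0 65520) (.nx 1135 1292 (.lg 0 false 5 83 83 13 0 5040) .out))
  .out)) (.nr 1184 220437 (.nr 1153 14008 (.nr 1151 3560 (.nr 1148 905 (.lg 0 true 11 79 83 19 0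
  55440) (.lg 2 true 3 83 83 13 68976 5040)) (.lg 2 false 2 89 89 11 17535 5040)) (.nx 1180 208065
  (.nx 1166 104033 (.lg 1 false 13 97 103 19 75758 720720) (.nr 1179 185365 (.lg 1 true 13 97 103
  19 31857 720720) .out)) (.nr 1183 65537 (.lg 2 false 3 89 89 13 5642 5040) .out))) .out)) (.nr
  1193 65 (.lg 0 true 8 71 71 13 0 5040) .out)))) .out) .out))))

def T117_2 : Ph :=
  (.na 580 173 (.na 334 97 (.na 182 55 (.na 87 34 (.na 63 25 (.na 35 23 (.nx 34 1664512 (.nr 33
  1048577 (.nr 1 19 .s1 (.nx 5 257 (.nx 3 145 (.nr 2 196 (.lg 0 true 1 31 31 9 0 535920) (.l1 .sk))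
  (.nx 4 146 (.l1 .sk) (.l1 (.ls 83 41 2036)))) (.nr 32 623489 (.nr 28 220437 (.nx 12 23171 (.lg 0
  false 7 97 101 19 0 535920) (.nr 27 92683 (.nr 19 634 (.lg 0 true 7 83 83 19 0 535920) (.nx 26
  262145 (.lg 2 false 7 89 97 19 42117 535920) .out)) .out)) (.nx 31 1627 (.lg 0 false 3 83 83 13 0
  229680) .out)) .out))) .out) .out) (.nx 62 1664512 (.nr 61 1048577 (.nr 36 20 .s1 (.nx 39 146
  (.nx 38 145 (.nr 37 213 (.lg 0 false 1 17 17 11 0 3480) (.l1 .sk)) (.l1 .sk)) (.nx 48 20644 (.nx
  40 257 (.l1 (.ls 83 31 1947)) (.nr 47 311745 (.lg 0 false 7 89 97 16 0 24360) .out)) (.nr 60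
  77937 (.nr 55 513 (.lg 0 true 7 73 73 16 0 24360) (.nx 59 165142 (.lg 2 false 4 89 97 16 39763
  6960) .out)) .out)))) .out) .out)) (.na 64 31 (.lg 0 false 1 0 0 7 0 24) (.na 86 32 (.nx 85
  1664512 (.nr 84 1048577 (.nr 65 29 .s1 (.nx 69 257 (.nx 67 145 (.nr 66 273 (.l1 (.ls 19 23 681))
  (.l1 .sk)) (.nx 68 146 (.l1 .sk) (.l1 (.ls 83 29 1446)))) (.nr 83 311745 (.nx 73 20644 (.lg 0
  false 4 97 101 16 0 48720) (.nr 82 77937 (.nr 77 513 (.lg 0 true 4 73 73 16 0 6960) (.nx 81
  165142 (.lg 2 false 4 89 97 16 39763 48720) .out)) .out)) .out))) .out) .out) .ne))) (.na 147 46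
  (.na 111 37 (.nx 110 1664512 (.nr 109 881745 (.nr 88 32 .s1 (.nx 91 146 (.nx 90 145 (.nr 89 316
  (.lg 0 false 1 23 23 13 0 6960) (.l1 .sk)) (.l1 .sk)) (.nx 99 20644 (.nx 92 257 (.l1 (.ls 83 41
  1318)) (.nr 98 440873 (.lg 0 false 6 97 101 13 0 146160) .out)) (.nr 108 46342 (.nr 105 316 (.lg
  0 true 6 73 73 13 0 20880) (.nx 107 104033 (.lg 2 true 2 83 83 13 23869 6960) .out)) .out))))
  .out) .out) (.na 131 38 (.nx 130 1664512 (.nr 129 881745 (.nr 112 35 .s1 (.nx 116 257 (.nx 114
  145 (.nr 113 324 (.l1 (.ls 17 19 571)) (.l1 .sk)) (.nx 115 146 (.l1 .sk) (.l1 (.ls 79 29 1212))))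
  (.nr 128 440873 (.nx 120 20644 (.lg 0 false 4 97 97 16 0 6960) (.nr 127 46342 (.nr 124 324 (.lg 0
  true 4 71 71 16 0 6960) (.nx 126 104033 (.lg 2 true 2 83 83 16 23674 6960) .out)) .out)) .out)))
  .out) .out) (.nx 146 1664512 (.nr 145 881745 (.nr 132 37 .s1 (.nx 137 20644 (.nx 133 257 (.l1
  (.ls 83 41 1741)) (.nr 136 440873 (.lg 0 false 3 101 101 13 0 146160) .out)) (.nr 144 46342 (.nr
  141 257 (.lg 0 true 4 71 71 17 0 6960) (.nx 143 104033 (.lg 2 true 2 89 89 13 29348 48720) .out))
  .out))) .out) .out))) (.na 165 49 (.nx 164 1664512 (.nr 163 881745 (.nr 148 45 .s1 (.nx 149 257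
  (.l1 (.ls 83 41 1438)) (.nr 162 623489 (.nx 155 20644 (.lg 0 false 6 97 101 19 0 146160) (.nr 161
  46342 (.nr 158 257 (.lg 0 true 3 71 71 13 0 20880) (.nx 160 104033 (.lg 2 false 2 83 83 13 29348
  6960) .out)) .out)) .out))) .out) .out) (.na 181 50 (.nx 180 1664512 (.nr 179 881745 (.nr 166 48
  .s1 (.nx 172 20644 (.nx 167 257 (.l1 (.ls 73 31 1350)) (.nr 171 623489 (.lg 0 false 4 89 89 16 0
  48720) .out)) (.nr 178 46342 (.nr 175 257 (.lg 0 true 3 67 67 16 0 73080) (.nx 177 104033 (.lg 2
  false 2 79 79 16 29348 48720) .out)) .out))) .out) .out) (.lg 0 false 1 0 0 16 0 24))))) (.na 259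
  74 (.na 226 64 (.na 198 58 (.nx 197 1664512 (.nr 196 881745 (.nr 183 54 .s1 (.nx 189 20644 (.nx
  184 257 (.l1 (.ls 73 31 1203)) (.nr 188 623489 (.lg 0 false 4 89 89 17 0 76560) .out)) (.nr 195
  46342 (.nr 193 495 (.lg 0 true 4 71 71 17 0 76560) (.nx 194 104033 (.lg 2 true 1 83 83 16 23674
  38280) .out)) .out))) .out) .out) (.na 212 62 (.nx 211 1664512 (.nr 210 881745 (.nr 199 57 .s1
  (.nx 204 20644 (.nx 200 257 (.l1 (.ls 67 41 1141)) (.nr 203 623489 (.lg 0 true 3 83 83 13 0
  20880) .out)) (.nr 209 46342 (.nr 206 257 (.lg 0 false 2 61 61 13 0 6960) (.nx 208 104033 (.lg 2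
  true 2 71 71 13 29348 6960) .out)) .out))) .out) .out) (.nx 225 1664512 (.nr 224 881745 (.nr 213
  61 .s1 (.nx 214 257 (.l1 (.ls 79 37 1068)) (.nr 223 623489 (.nx 217 20644 (.lg 0 false 3 97 97 19
  0 20880) (.nr 222 46342 (.nr 220 546 (.lg 0 true 3 73 73 19 0 20880) (.nx 221 104033 (.lg 2 true
  1 83 83 13 23674 6960) .out)) .out)) .out))) .out) .out))) (.na 227 70 .ne (.na 242 73 (.nx 241
  1664512 (.nr 240 524289 (.nr 228 69 .s1 (.nx 234 20644 (.nx 230 145 (.nr 229 623 (.l1 (.ls 23 31
  303)) (.l1 .sk)) (.nx 231 146 (.l1 .sk) (.lg 0 false 3 89 89 29 0 146160))) (.nr 239 32769 (.nr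
  237 513 (.lg 0 true 3 71 71 29 0 146160) (.nx 238 104033 (.lg 2 true 1 73 73 23 16762 48720)
  .out)) .out))) .out) .out) (.nx 258 1664512 (.nr 257 524289 (.nr 243 73 .s1 (.nx 253 104033 (.nx
  249 20644 (.nx 245 145 (.nr 244 632 (.l1 (.ls 19 17 291)) (.l1 .sk)) (.nx 246 146 (.l1 .sk) (.lg
  0 true 3 89 89 16 0 10440))) (.nr 252 32769 (.lg 0 false 3 79 79 16 0 10440) .out)) (.nr 256 513
  (.lg 0 true 3 67 67 16 0 10440) .out))) .out) .out)))) (.na 304 83 (.na 274 77 (.nx 273 1664512
  (.nr 272 524289 (.nr 260 74 .s1 (.nx 266 20644 (.nx 262 145 (.nr 261 657 (.l1 (.ls 19 29 287))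
  (.l1 .sk)) (.nx 263 146 (.l1 .sk) (.lg 0 false 3 97 97 19 0 146160))) (.nr 271 32769 (.nr 269 513
  (.lg 0 true 3 71 71 19 0 20880) (.nx 270 104033 (.lg 2 true 1 79 79 13 16762 48720) .out))
  .out))) .out) .out) (.na 289 79 (.nx 288 1664512 (.nr 287 524289 (.nr 275 77 .s1 (.nx 278 146
  (.nx 277 145 (.nr 276 674 (.l1 (.ls 31 23 276)) (.l1 .sk)) (.l1 .sk)) (.nx 281 20644 (.lg 0 false
  3 89 97 23 0 803880) (.nr 286 32769 (.nr 284 513 (.lg 0 true 3 73 73 23 0 803880) (.nx 285 104033
  (.lg 2 true 1 79 79 17 16762 267960) .out)) .out)))) .out) .out) (.nx 303 1664512 (.nr 302 524289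
  (.nr 290 79 .s1 (.nx 296 20644 (.nx 292 145 (.nr 291 708 (.l1 (.ls 17 17 269)) (.l1 .sk)) (.nx
  293 146 (.l1 .sk) (.lg 0 false 3 89 89 16 0 10440))) (.nr 301 32769 (.nr 299 513 (.lg 0 true 3 61
  61 16 0 10440) (.nx 300 104033 (.lg 2 true 1 71 71 16 16762 3480) .out)) .out))) .out) .out)))
  (.na 319 91 (.nx 318 1664512 (.nr 317 524289 (.nr 305 83 .s1 (.nx 311 20644 (.nx 307 145 (.nr 306
  777 (.l1 (.ls 17 17 256)) (.l1 .sk)) (.nx 308 146 (.l1 .sk) (.lg 0 false 3 89 89 16 0 10440)))
  (.nr 316 32769 (.nr 314 513 (.lg 0 true 3 61 61 16 0 10440) (.nx 315 104033 (.lg 2 true 1 71 71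
  16 16762 3480) .out)) .out))) .out) .out) (.na 320 95 .ne (.nx 333 1664512 (.nr 332 1048577 (.nr
  321 95 .s1 (.nx 323 145 (.nr 322 828 (.l1 (.ls 17 17 224)) (.l1 .sk)) (.nx 324 146 (.l1 .sk) (.nx
  328 20644 (.lg 0 false 4 89 89 17 0 6960) (.nr 331 32769 (.nr 329 513 (.lg 0 false 1 73 73 16 0
  3480) (.nx 330 104033 (.lg 2 true 1 73 73 16 16762 267960) .out)) .out))))) .out) .out)))))) (.na
  466 134 (.na 403 113 (.na 362 103 (.na 349 98 (.nx 348 1664512 (.nr 347 1048577 (.nr 335 97 .s1
  (.nx 342 20644 (.nx 337 145 (.nr 336 836 (.l1 (.ls 16 17 219)) (.l1 .sk)) (.nx 338 146 (.l1 .sk)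
  (.lg 0 false 4 83 83 17 0 6960))) (.nr 346 32769 (.nr 344 513 (.lg 0 true 2 61 61 16 0 6960) (.nx
  345 104033 (.lg 2 true 1 67 67 16 16762 3480) .out)) .out))) .out) .out) (.nx 361 1664512 (.nr
  360 1048577 (.nr 350 98 .s1 (.nx 356 20644 (.nx 352 145 (.nr 351 879 (.l1 (.ls 19 29 217)) (.l1
  .sk)) (.nx 353 146 (.l1 .sk) (.lg 0 false 3 89 89 23 0 146160))) (.nr 359 32769 (.nr 357 513 (.lg
  0 false 1 73 73 19 0 146160) (.nx 358 104033 (.lg 2 true 1 71 71 19 16762 48720) .out)) .out)))
  .out) .out)) (.na 377 109 (.nx 376 1664512 (.nr 375 1048577 (.nr 363 103 .s1 (.nx 370 20644 (.nx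
  365 145 (.nr 364 930 (.l1 (.ls 17 17 207)) (.l1 .sk)) (.nx 366 146 (.l1 .sk) (.lg 0 false 4 83 83
  17 0 6960))) (.nr 374 32769 (.nr 372 513 (.lg 0 true 2 61 61 16 0 6960) (.nx 373 104033 (.lg 2
  true 1 67 67 16 16762 3480) .out)) .out))) .out) .out) (.na 390 110 (.nx 389 1664512 (.nr 388
  1048577 (.nr 378 109 .s1 (.nx 381 146 (.nx 380 145 (.nr 379 939 (.l1 (.ls 17 17 195)) (.l1 .sk))
  (.l1 .sk)) (.nx 384 20644 (.lg 0 false 3 83 83 16 0 73080) (.nr 387 32769 (.nr 385 513 (.lg 0
  false 1 71 71 16 0 73080) (.nx 386 104033 (.lg 2 true 1 67 67 16 16762 24360) .out)) .out))))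
  .out) .out) (.nx 402 1664512 (.nr 401 1048577 (.nr 391 110 .s1 (.nx 397 20644 (.nx 393 145 (.nr
  392 964 (.l1 (.ls 19 31 194)) (.l1 .sk)) (.nx 394 146 (.l1 .sk) (.lg 0 false 3 89 89 29 0
  229680))) (.nr 400 32769 (.nr 398 513 (.lg 0 false 1 71 71 23 0 76560) (.nx 399 104033 (.lg 2
  true 1 71 71 23 16762 76560) .out)) .out))) .out) .out)))) (.na 442 121 (.na 416 115 (.nx 415
  1664512 (.nr 414 1048577 (.nr 404 113 .s1 (.nx 407 146 (.nx 406 145 (.nr 405 981 (.l1 (.ls 17 17
  189)) (.l1 .sk)) (.l1 .sk)) (.nx 410 20644 (.lg 0 false 3 83 83 16 0 10440) (.nr 413 32769 (.nr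
  411 513 (.lg 0 false 1 67 67 16 0 3480) (.nx 412 104033 (.lg 2 true 1 67 67 16 16762 3480) .out))
  .out)))) .out) .out) (.na 429 119 (.nx 428 1664512 (.nr 427 1048577 (.nr 417 115 .s1 (.nx 420 146
  (.nx 419 145 (.nr 418 1015 (.l1 (.ls 16 19 185)) (.l1 .sk)) (.l1 .sk)) (.nx 423 20644 (.lg 0
  false 3 89 89 17 0 73080) (.nr 426 32769 (.nr 424 513 (.lg 2 false 1 67 67 16 1049367 24360) (.nx
  425 104033 (.lg 2 true 1 67 67 16 16762 3480) .out)) .out)))) .out) .out) (.nx 441 1664512 (.nr
  440 1048577 (.nr 430 119 .s1 (.nx 433 146 (.nx 432 145 (.nr 431 1032 (.l1 (.ls 16 23 179)) (.l1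
  .sk)) (.l1 .sk)) (.nx 436 13005 (.lg 0 false 3 89 89 23 0 73080) (.nr 439 65537 (.nx 437 104033
  (.lg 0 false 1 89 89 16 0 24360) (.nr 438 513 (.lg 0 true 1 71 71 16 0 24360) .out)) .out))))
  .out) .out))) (.na 455 128 (.nx 454 1664512 (.nr 453 1048577 (.nr 443 121 .s1 (.nx 449 20644 (.nx
  445 145 (.nr 444 1092 (.l1 (.ls 17 19 176)) (.l1 .sk)) (.nx 446 146 (.l1 .sk) (.lg 0 false 3 83
  83 19 0 114840))) (.nr 452 32769 (.nr 450 513 (.lg 2 false 1 67 67 17 997332 38280) (.nx 451
  104033 (.lg 2 true 1 67 67 17 16762 38280) .out)) .out))) .out) .out) (.na 456 133 .ne (.nx 465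
  832257 (.nr 464 1048577 (.nr 457 133 .s1 (.nx 460 13005 (.nx 458 257 (.l1 (.ls 73 29 499)) (.nr
  459 741457 (.lg 0 true 1 89 89 17 0 24360) .out)) (.nr 463 16385 (.nr 461 1025 (.lg 0 true 1 71
  71 17 0 24360) (.nx 462 104033 (.lg 2 false 1 67 67 17 13363 24360) .out)) .out))) .out)
  .out))))) (.na 522 155 (.na 500 146 (.na 478 137 (.nx 477 832257 (.nr 476 1048577 (.nr 467 134
  .s1 (.nx 468 257 (.l1 (.ls 61 29 495)) (.nr 475 741457 (.nx 471 13005 (.lg 0 false 3 83 83 23 0
  20880) (.nr 474 16385 (.nr 472 1025 (.lg 0 false 1 73 73 19 0 6960) (.nx 473 104033 (.lg 2 true 1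
  67 67 19 13363 6960) .out)) .out)) .out))) .out) .out) (.na 488 145 (.nx 487 832257 (.nr 486
  1048577 (.nr 479 137 .s1 (.nx 480 257 (.l1 (.ls 67 19 485)) (.nr 485 741457 (.nx 481 13005 (.lg 0
  true 1 83 83 16 0 24360) (.nr 484 16385 (.nr 482 1025 (.lg 0 false 1 67 67 16 0 24360) (.nx 483
  104033 (.lg 2 true 1 59 59 16 13363 24360) .out)) .out)) .out))) .out) .out) (.nx 499 832257 (.nr
  498 1048577 (.nr 489 145 .s1 (.nx 490 257 (.l1 (.ls 61 23 458)) (.nr 497 741457 (.nr 493 16385
  (.lg 0 false 3 71 71 17 0 10440) (.nx 496 13005 (.lg 0 true 3 67 67 17 0 10440) .out)) .out)))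
  .out) .out))) (.na 511 151 (.nx 510 832257 (.nr 509 1048577 (.nr 501 146 .s1 (.nx 505 13005 (.nx
  502 257 (.l1 (.ls 67 29 455)) (.nr 504 741457 (.lg 0 false 2 79 79 23 0 6960) .out)) (.nr 508
  16385 (.nr 506 1025 (.lg 0 false 1 67 67 19 0 6960) (.nx 507 104033 (.lg 2 true 1 59 59 19 13363
  6960) .out)) .out))) .out) .out) (.na 512 154 (.lg 0 false 1 0 0 16 0 24) (.nx 521 832257 (.nr
  520 1048577 (.nr 513 154 .s1 (.nx 516 13005 (.nx 514 257 (.l1 (.ls 79 37 431)) (.nr 515 741457
  (.lg 0 true 1 97 97 31 0 1607760) .out)) (.nr 519 16385 (.nr 517 1025 (.lg 0 true 1 71 71 31 0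
  535920) (.nx 518 104033 (.lg 2 false 1 67 67 31 13363 535920) .out)) .out))) .out) .out)))) (.na
  552 166 (.na 532 158 (.nx 531 832257 (.nr 530 1048577 (.nr 523 155 .s1 (.nx 524 257 (.l1 (.ls 71
  23 429)) (.nr 529 741457 (.nx 525 13005 (.lg 0 true 1 83 83 17 0 24360) (.nr 528 16385 (.nr 526
  1025 (.lg 0 false 1 67 67 17 0 3480) (.nx 527 104033 (.lg 2 true 1 59 59 17 13363 3480) .out))
  .out)) .out))) .out) .out) (.na 542 161 (.nx 541 832257 (.nr 540 1048577 (.nr 533 158 .s1 (.nx
  534 257 (.l1 (.ls 71 29 421)) (.nr 539 741457 (.nx 535 13005 (.lg 0 true 1 89 89 19 0 6960) (.nr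
  538 16385 (.nr 536 1025 (.lg 0 false 1 67 67 19 0 6960) (.nx 537 104033 (.lg 2 true 1 59 59 19
  13363 6960) .out)) .out)) .out))) .out) .out) (.nx 551 832257 (.nr 550 1048577 (.nr 543 161 .s1
  (.nx 544 257 (.l1 (.ls 79 19 413)) (.nr 549 741457 (.nx 545 13005 (.lg 0 true 1 89 89 17 0 24360)
  (.nr 548 16385 (.nr 546 1025 (.lg 0 true 1 71 71 17 0 24360) (.nx 547 104033 (.lg 2 false 1 67 67
  17 13363 24360) .out)) .out)) .out))) .out) .out))) (.na 562 167 (.nx 561 832257 (.nr 560 1048577
  (.nr 553 166 .s1 (.nx 554 257 (.l1 (.ls 67 29 400)) (.nr 559 741457 (.nx 555 13005 (.lg 0 true 1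
  83 83 19 0 6960) (.nr 558 16385 (.nr 556 1025 (.lg 0 false 1 67 67 19 0 6960) (.nx 557 104033
  (.lg 2 true 1 53 53 19 13363 6960) .out)) .out)) .out))) .out) .out) (.na 572 170 (.nx 571 832257
  (.nr 570 1048577 (.nr 563 167 .s1 (.nx 566 13005 (.nx 564 257 (.l1 (.ls 67 19 398)) (.nr 565
  741457 (.lg 0 true 1 79 79 16 0 3480) .out)) (.nr 569 16385 (.nr 567 1025 (.lg 0 false 1 61 61 16
  0 3480) (.nx 568 104033 (.lg 2 false 1 53 53 16 13363 3480) .out)) .out))) .out) .out) (.nx 579
  832257 (.nr 578 1048577 (.nr 573 170 .s1 (.nx 574 257 (.l1 (.ls 73 37 391)) (.nr 577 741457 (.nr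
  575 16385 (.lg 0 false 1 89 89 29 0 20880) (.nx 576 13005 (.lg 0 true 1 89 89 29 0 20880) .out))
  .out))) .out) .out))))))) (.na 716 238 (.na 637 199 (.na 592 187 (.na 582 179 (.na 581 175 (.lg 0
  false 1 0 0 16 0 24) (.lg 0 false 1 0 0 16 0 24)) (.na 583 182 (.lg 0 false 1 0 0 16 0 24) (.na
  584 185 .ne (.nx 591 832257 (.nr 590 1048577 (.nr 585 185 .s1 (.nx 586 257 (.l1 (.ls 71 23 360))
  (.nr 589 741457 (.nr 587 16385 (.lg 0 false 1 83 83 17 0 24360) (.nx 588 13005 (.lg 0 true 1 83
  83 17 0 24360) .out)) .out))) .out) .out)))) (.na 620 193 (.na 602 190 (.nx 601 832257 (.nr 600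
  1048577 (.nr 593 187 .s1 (.nx 596 13005 (.nx 594 257 (.l1 (.ls 73 29 356)) (.nr 595 741457 (.lg 0
  false 1 83 83 23 0 38280) .out)) (.nr 599 16385 (.nr 597 1025 (.lg 0 true 1 67 67 23 0 38280)
  (.nx 598 104033 (.lg 2 true 1 61 61 23 13363 38280) .out)) .out))) .out) .out) (.na 610 191 (.nx
  609 832257 (.nr 608 1048577 (.nr 603 190 .s1 (.nx 604 257 (.l1 (.ls 73 37 350)) (.nr 607 741457
  (.nr 605 16385 (.lg 0 false 1 89 89 29 0 6960) (.nx 606 13005 (.lg 0 true 1 83 83 29 0 6960)
  .out)) .out))) .out) .out) (.nx 619 832257 (.nr 618 1048577 (.nr 611 191 .s1 (.nx 614 13005 (.nx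
  612 257 (.l1 (.ls 67 19 348)) (.nr 613 741457 (.lg 0 true 1 79 79 16 0 38280) .out)) (.nr 617
  16385 (.nr 615 1025 (.lg 0 false 1 61 61 16 0 3480) (.nx 616 104033 (.lg 2 true 1 53 53 16 13363
  3480) .out)) .out))) .out) .out))) (.na 628 194 (.nx 627 832257 (.nr 626 1048577 (.nr 621 193 .s1
  (.nx 622 257 (.l1 (.ls 67 19 345)) (.nr 625 741457 (.nr 623 16385 (.lg 0 false 1 79 79 16 0 3480)
  (.nx 624 13005 (.lg 0 true 1 79 79 16 0 24360) .out)) .out))) .out) .out) (.na 636 197 (.nx 635
  832257 (.nr 634 1048577 (.nr 629 194 .s1 (.nx 630 257 (.l1 (.ls 67 29 343)) (.nr 633 741457 (.nr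
  631 16385 (.lg 0 false 1 83 83 19 0 76560) (.nx 632 13005 (.lg 0 true 1 79 79 19 0 6960) .out))
  .out))) .out) .out) (.lg 0 false 1 0 0 16 0 24))))) (.na 682 218 (.na 656 211 (.na 638 206 (.lg 0
  false 1 0 0 16 0 24) (.na 646 209 (.nx 645 832257 (.nr 644 1048577 (.nr 639 206 .s1 (.nx 640 257
  (.l1 (.ls 71 29 323)) (.nr 643 741457 (.nr 641 16385 (.lg 0 false 1 83 83 23 0 146160) (.nx 642
  13005 (.lg 0 true 1 79 79 23 0 6960) .out)) .out))) .out) .out) (.nx 655 832257 (.nr 654 1048577
  (.nr 647 209 .s1 (.nx 650 13005 (.nx 648 257 (.l1 (.ls 73 29 319)) (.nr 649 741457 (.lg 0 false 1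
  83 83 17 0 38280) .out)) (.nr 653 16385 (.nr 651 1025 (.lg 0 true 1 67 67 17 0 38280) (.nx 652
  104033 (.lg 2 true 1 61 61 17 13363 38280) .out)) .out))) .out) .out))) (.na 664 214 (.nx 663
  832257 (.nr 662 1048577 (.nr 657 211 .s1 (.nx 658 257 (.l1 (.ls 61 19 316)) (.nr 661 741457 (.nr
  659 16385 (.lg 0 false 1 73 73 16 0 3480) (.nx 660 13005 (.lg 0 true 1 73 73 16 0 3480) .out))
  .out))) .out) .out) (.na 672 217 (.nx 671 832257 (.nr 670 1048577 (.nr 665 214 .s1 (.nx 666 257
  (.l1 (.ls 67 29 311)) (.nr 669 741457 (.nr 667 16385 (.lg 0 false 1 83 83 23 0 48720) (.nx 668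
  13005 (.lg 0 true 1 79 79 23 0 48720) .out)) .out))) .out) .out) (.nx 681 832257 (.nr 680 1048577
  (.nr 673 217 .s1 (.nx 674 257 (.l1 (.ls 73 23 307)) (.nr 679 741457 (.nx 675 13005 (.lg 0 true 1
  89 89 19 0 73080) (.nr 678 16385 (.nr 676 1025 (.lg 0 true 1 67 67 19 0 24360) (.nx 677 104033
  (.lg 2 false 1 61 61 19 13363 24360) .out)) .out)) .out))) .out) .out)))) (.na 706 229 (.na 690
  223 (.nx 689 832257 (.nr 688 1048577 (.nr 683 218 .s1 (.nx 686 13005 (.nx 684 257 (.l1 (.ls 67 29
  305)) (.nr 685 741457 (.lg 0 true 1 79 79 23 0 48720) .out)) (.nr 687 16385 (.lg 0 false 1 79 79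
  23 0 6960) .out))) .out) .out) (.na 698 226 (.nx 697 832257 (.nr 696 1048577 (.nr 691 223 .s1
  (.nx 692 257 (.l1 (.ls 61 19 299)) (.nr 695 741457 (.nr 693 16385 (.lg 0 false 1 79 79 16 0
  24360) (.nx 694 13005 (.lg 0 true 1 73 73 16 0 3480) .out)) .out))) .out) .out) (.nx 705 832257
  (.nr 704 1048577 (.nr 699 226 .s1 (.nx 700 257 (.l1 (.ls 67 29 295)) (.nr 703 741457 (.nr 701
  16385 (.lg 0 false 1 83 83 23 0 20880) (.nx 702 13005 (.lg 0 true 1 79 79 23 0 20880) .out))
  .out))) .out) .out))) (.na 707 230 (.lg 0 false 1 0 0 16 0 24) (.na 715 233 (.nx 714 832257 (.nr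
  713 1048577 (.nr 708 230 .s1 (.nx 711 13005 (.nx 709 257 (.l1 (.ls 71 37 290)) (.nr 710 741457
  (.lg 0 true 1 83 83 31 0 48720) .out)) (.nr 712 16385 (.lg 0 false 1 83 83 31 0 6960) .out)))
  .out) .out) (.lg 0 false 1 0 0 16 0 24)))))) (.na 3565 1449 (.na 744 251 (.na 727 241 (.na 726
  239 (.nx 725 832257 (.nr 724 1048577 (.nr 717 238 .s1 (.nx 720 13005 (.nx 718 257 (.l1 (.ls 79 37
  280)) (.nr 719 741457 (.lg 0 true 1 89 89 31 0 48720) .out)) (.nr 723 16385 (.nr 721 1025 (.lg 0
  true 1 67 67 31 0 48720) (.nx 722 104033 (.lg 2 false 1 61 61 31 13363 48720) .out)) .out)))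
  .out) .out) (.lg 0 false 1 0 0 16 0 24)) (.na 735 242 (.nx 734 832257 (.nr 733 1048577 (.nr 728
  241 .s1 (.nx 729 257 (.l1 (.ls 61 19 277)) (.nr 732 741457 (.nr 730 16385 (.lg 0 false 1 73 73 17
  0 3480) (.nx 731 13005 (.lg 0 true 1 73 73 17 0 24360) .out)) .out))) .out) .out) (.na 743 250
  (.nx 742 832257 (.nr 741 1048577 (.nr 736 242 .s1 (.nx 737 257 (.l1 (.ls 71 31 275)) (.nr 740
  741457 (.nr 738 16385 (.lg 0 false 1 83 83 29 0 76560) (.nx 739 13005 (.lg 0 true 1 83 83 29 0
  1607760) .out)) .out))) .out) .out) (.lg 0 false 1 0 0 16 0 24)))) (.na 1473 512 (.na 752 256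
  (.nx 751 832257 (.nr 750 1048577 (.nr 745 251 .s1 (.nx 746 257 (.l1 (.ls 61 19 266)) (.nr 749
  741457 (.nr 747 16385 (.lg 0 false 1 73 73 17 0 3480) (.nx 748 13005 (.lg 0 true 1 73 73 17 0
  3480) .out)) .out))) .out) .out) (.na 753 257 .ne (.nx 1472 832257 (.nr 1471 1482912 (.nr 754 257
  .s1 (.nx 899 145 (.nr 898 4368 (.lx (.lp 41 17 129)) (.l1 .sk)) (.nx 900 146 (.l1 .sk) (.nx 959
  205 (.lx (.lp 79 17 129)) (.nr 1470 1048577 (.nr 1214 32769 (.la (.lg 0 false 1 79 79 23 0)) (.nx
  1469 10323 (.la (.lg 0 true 1 71 71 23 0)) .out)) .out))))) .out) .out))) (.na 2109 725 (.nx 2108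
  832257 (.nr 2107 1482912 (.nr 1474 512 .s1 (.nx 1679 205 (.nx 1619 145 (.nr 1618 6184 (.lx (.lp
  41 19 182)) (.l1 .sk)) (.nx 1620 146 (.l1 .sk) (.lx (.lp 79 19 182)))) (.nr 2106 1048577 (.nx
  1892 22297 (.la (.lg 0 true 1 71 71 29 0)) (.nr 2105 32769 (.la (.lg 2 false 1 59 59 29 117849))
  .out)) .out))) .out) .out) (.na 2711 1024 (.nx 2710 10323 (.nr 2709 1048577 (.nr 2110 725 .s1
  (.nx 2409 2049 (.la (.ls 61 37 5793)) (.nr 2708 16385 (.la (.lg 0 true 1 37 37 29 0)) .out)))
  .out) .out) (.nx 3564 10323 (.nr 3563 1048577 (.nr 2712 1024 .s1 (.nx 3137 2582 (.la (.ls 61 41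
  6513)) (.nr 3562 16385 (.la (.lg 0 false 1 31 31 31 0)) .out))) .out) .out))))) (.na 10802 16384
  (.na 6367 4096 (.na 4167 2048 (.nx 4166 2582 (.nr 4165 524289 (.nr 3566 1449 .s1 (.la (.ls 59 37
  4603))) .out) .out) (.na 5019 2897 (.nx 5018 3252 (.nr 5017 524289 (.nr 4168 2048 .s1 (.la (.ls
  53 37 5166))) .out) .out) (.nx 6366 2582 (.nr 6365 262145 (.nr 5020 2897 .s1 (.nx 5165 145 (.nr
  5164 34937 (.lx (.lp 16 29 1025)) (.l1 .sk)) (.nx 5166 146 (.l1 .sk) (.la (.ls 53 37 2296)))))
  .out) .out))) (.na 8213 5793 (.nx 8212 2582 (.nr 8211 262145 (.nr 6368 4096 .s1 (.nx 6513 145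
  (.nr 6512 49411 (.lx (.lp 16 0 1449)) (.l1 .sk)) (.nx 6514 146 (.l1 .sk) (.la (.ls 47 37
  1625))))) .out) .out) (.na 9507 8192 (.nx 9506 1292 (.nr 9505 65537 (.nr 8214 5793 .s1 (.lx (.lp
  41 37 2049))) .out) .out) (.nx 10801 1292 (.nr 10800 131073 (.nr 9508 8192 .s1 (.nx 9712 205 (.lx
  (.lp 47 37 4097)) (.nr 10799 65537 (.lx (.lp 41 41 4097)) .out))) .out) .out)))) (.na 14153
  131072 (.na 12097 32768 (.nx 12096 1292 (.nr 12095 262145 (.nr 10803 16384 .s1 (.nx 11007 205
  (.lx (.lp 43 41 8193)) (.nr 12094 131073 (.lx (.lp 41 43 8193)) .out))) .out) .out) (.na 13125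
  65536 (.nx 13124 1025 (.nr 13123 262145 (.nr 12098 32768 .s1 (.nx 12302 205 (.lx (.lp 16 0
  16385)) (.nr 13122 131073 (.lx (.lp 37 47 16385)) .out))) .out) .out) (.nx 14152 1025 (.nr 14151
  262145 (.nr 13126 65536 .s1 (.nx 13449 324 (.lx (.lp 16 43 32769)) (.nr 14150 131073 (.lx (.lp 31
  53 32769)) .out))) .out) .out))) (.na 14155 262144 (.nx 14154 324 (.l1 .sk) .out) (.na 14157
  524289 (.nx 14156 205 (.l1 .sk) .out) .out)))))))

theorem c117 :
    OkQ ckI L10 248 725 1099511627776 0 34359738368 1 1099511627776 ∧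
    OkQ ckI L9 189 1 12 0 34359738368 1 1099511627776 ∧
    OkQ ckI L8 145 22 1099511627776 0 34359738368 1 1099511627776 := by
  refine ⟨?_, ?_, ?_⟩
  · refine fin 2232 22307 T117_0 ?_
    refine jn 23 (by decide +kernel) ?_
    refine jn 47 (by decide +kernel) ?_
    refine jn 59 (by decide +kernel) ?_
    refine jn 83 (by decide +kernel) ?_
    refine jn 105 (by decide +kernel) ?_
    refine jn 133 (by decide +kernel) ?_
    refine jn 164 (by decide +kernel) ?_
    refine jn 192 (by decide +kernel) ?_
    refine jn 208 (by decide +kernel) ?_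
    refine jn 244 (by decide +kernel) ?_
    refine jn 272 (by decide +kernel) ?_
    refine jn 299 (by decide +kernel) ?_
    refine jn 303 (by decide +kernel) ?_
    refine jn 307 (by decide +kernel) ?_
    refine jn 319 (by decide +kernel) ?_
    refine jn 328 (by decide +kernel) ?_
    refine jn 334 (by decide +kernel) ?_
    refine jn 347 (by decide +kernel) ?_
    refine jn 352 (by decide +kernel) ?_
    refine jn 358 (by decide +kernel) ?_
    refine jn 366 (by decide +kernel) ?_
    refine jn 368 (by decide +kernel) ?_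
    refine jn 387 (by decide +kernel) ?_
    refine jn 394 (by decide +kernel) ?_
    refine jn 402 (by decide +kernel) ?_
    refine jn 414 (by decide +kernel) ?_
    refine jn 427 (by decide +kernel) ?_
    refine jn 436 (by decide +kernel) ?_
    refine jn 448 (by decide +kernel) ?_
    refine jn 463 (by decide +kernel) ?_
    refine jn 478 (by decide +kernel) ?_
    refine jn 488 (by decide +kernel) ?_
    refine jn 498 (by decide +kernel) ?_
    refine jn 499 (by decide +kernel) ?_
    refine jn 500 (by decide +kernel) ?_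
    refine jn 511 (by decide +kernel) ?_
    refine jn 522 (by decide +kernel) ?_
    refine jn 543 (by decide +kernel) ?_
    refine jn 552 (by decide +kernel) ?_
    refine jn 562 (by decide +kernel) ?_
    refine jn 571 (by decide +kernel) ?_
    refine jn 576 (by decide +kernel) ?_
    refine jn 592 (by decide +kernel) ?_
    refine jn 603 (by decide +kernel) ?_
    refine jn 615 (by decide +kernel) ?_
    refine jn 632 (by decide +kernel) ?_
    refine jn 658 (by decide +kernel) ?_
    refine jn 671 (by decide +kernel) ?_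
    refine jn 687 (by decide +kernel) ?_
    refine jn 707 (by decide +kernel) ?_
    refine jn 726 (by decide +kernel) ?_
    refine jn 746 (by decide +kernel) ?_
    refine jn 768 (by decide +kernel) ?_
    refine jn 807 (by decide +kernel) ?_
    refine jn 832 (by decide +kernel) ?_
    refine jn 855 (by decide +kernel) ?_
    refine jn 868 (by decide +kernel) ?_
    refine jn 903 (by decide +kernel) ?_
    refine jn 930 (by decide +kernel) ?_
    refine jn 943 (by decide +kernel) ?_
    refine jn 983 (by decide +kernel) ?_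
    refine jn 1011 (by decide +kernel) ?_
    refine jn 1032 (by decide +kernel) ?_
    refine jn 1036 (by decide +kernel) ?_
    refine jn 1040 (by decide +kernel) ?_
    refine jn 1048 (by decide +kernel) ?_
    refine jn 1071 (by decide +kernel) ?_
    refine jn 1081 (by decide +kernel) ?_
    refine jn 1095 (by decide +kernel) ?_
    refine jn 1096 (by decide +kernel) ?_
    refine jn 1097 (by decide +kernel) ?_
    refine jn 1116 (by decide +kernel) ?_
    refine jn 1128 (by decide +kernel) ?_
    refine jn 1135 (by decide +kernel) ?_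
    refine jn 1148 (by decide +kernel) ?_
    refine jn 1152 (by decide +kernel) ?_
    refine jn 1168 (by decide +kernel) ?_
    refine jn 1180 (by decide +kernel) ?_
    refine jn 1192 (by decide +kernel) ?_
    refine jn 1208 (by decide +kernel) ?_
    refine jn 1225 (by decide +kernel) ?_
    refine jn 1240 (by decide +kernel) ?_
    refine jn 1251 (by decide +kernel) ?_
    refine jn 1265 (by decide +kernel) ?_
    refine jn 1276 (by decide +kernel) ?_
    refine jn 1281 (by decide +kernel) ?_
    refine jn 1291 (by decide +kernel) ?_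
    refine jn 1305 (by decide +kernel) ?_
    refine jn 1325 (by decide +kernel) ?_
    refine jn 1336 (by decide +kernel) ?_
    refine jn 1343 (by decide +kernel) ?_
    refine jn 1357 (by decide +kernel) ?_
    refine jn 1365 (by decide +kernel) ?_
    refine jn 1376 (by decide +kernel) ?_
    refine jn 1392 (by decide +kernel) ?_
    refine jn 1416 (by decide +kernel) ?_
    refine jn 1435 (by decide +kernel) ?_
    refine jn 1441 (by decide +kernel) ?_
    refine jn 1460 (by decide +kernel) ?_
    refine jn 1484 (by decide +kernel) ?_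
    refine jn 1513 (by decide +kernel) ?_
    refine jn 1536 (by decide +kernel) ?_
    refine jn 1559 (by decide +kernel) ?_
    refine jn 1591 (by decide +kernel) ?_
    refine jn 1625 (by decide +kernel) ?_
    refine jn 1651 (by decide +kernel) ?_
    refine jn 1689 (by decide +kernel) ?_
    refine jn 1724 (by decide +kernel) ?_
    refine jn 1745 (by decide +kernel) ?_
    refine jn 1771 (by decide +kernel) ?_
    refine jn 1807 (by decide +kernel) ?_
    refine jn 1839 (by decide +kernel) ?_
    refine jn 1856 (by decide +kernel) ?_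
    refine jn 1887 (by decide +kernel) ?_
    refine jn 1925 (by decide +kernel) ?_
    refine jn 1969 (by decide +kernel) ?_
    refine jn 2001 (by decide +kernel) ?_
    refine jn 2036 (by decide +kernel) ?_
    refine jn 2060 (by decide +kernel) ?_
    refine jn 2083 (by decide +kernel) ?_
    refine jn 2098 (by decide +kernel) ?_
    refine jn 2116 (by decide +kernel) ?_
    refine jn 2134 (by decide +kernel) ?_
    refine jn 2155 (by decide +kernel) ?_
    refine jn 2170 (by decide +kernel) ?_
    refine jn 2198 (by decide +kernel) ?_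
    refine jn 2219 (by decide +kernel) ?_
    refine jn 2235 (by decide +kernel) ?_
    refine jn 2264 (by decide +kernel) ?_
    refine jn 2284 (by decide +kernel) ?_
    refine jn 2311 (by decide +kernel) ?_
    refine jn 2323 (by decide +kernel) ?_
    refine jn 2326 (by decide +kernel) ?_
    refine jn 2350 (by decide +kernel) ?_
    refine jn 2368 (by decide +kernel) ?_
    refine jn 2386 (by decide +kernel) ?_
    refine jn 2414 (by decide +kernel) ?_
    refine jn 2438 (by decide +kernel) ?_
    refine jn 2455 (by decide +kernel) ?_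
    refine jn 2456 (by decide +kernel) ?_
    refine jn 2490 (by decide +kernel) ?_
    refine jn 2518 (by decide +kernel) ?_
    refine jn 2535 (by decide +kernel) ?_
    refine jn 2571 (by decide +kernel) ?_
    refine jn 2598 (by decide +kernel) ?_
    refine jn 2616 (by decide +kernel) ?_
    refine jn 2635 (by decide +kernel) ?_
    refine jn 2667 (by decide +kernel) ?_
    refine jn 2690 (by decide +kernel) ?_
    refine jn 2718 (by decide +kernel) ?_
    refine jn 2767 (by decide +kernel) ?_
    refine jn 2795 (by decide +kernel) ?_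
    refine jn 2830 (by decide +kernel) ?_
    refine jn 2868 (by decide +kernel) ?_
    refine jn 2904 (by decide +kernel) ?_
    refine jn 2935 (by decide +kernel) ?_
    refine jn 2959 (by decide +kernel) ?_
    refine jn 2990 (by decide +kernel) ?_
    refine jn 3039 (by decide +kernel) ?_
    refine jn 3074 (by decide +kernel) ?_
    refine jn 3112 (by decide +kernel) ?_
    refine jn 3159 (by decide +kernel) ?_
    refine jn 3188 (by decide +kernel) ?_
    refine jn 3238 (by decide +kernel) ?_
    refine jn 3282 (by decide +kernel) ?_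
    refine jn 3324 (by decide +kernel) ?_
    refine jn 3364 (by decide +kernel) ?_
    refine jn 3392 (by decide +kernel) ?_
    refine jn 3434 (by decide +kernel) ?_
    refine jn 3495 (by decide +kernel) ?_
    refine jn 3528 (by decide +kernel) ?_
    refine jn 3544 (by decide +kernel) ?_
    refine jn 3567 (by decide +kernel) ?_
    refine jn 3608 (by decide +kernel) ?_
    refine jn 3627 (by decide +kernel) ?_
    refine jn 3644 (by decide +kernel) ?_
    refine jn 3669 (by decide +kernel) ?_
    refine jn 3696 (by decide +kernel) ?_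
    refine jn 3726 (by decide +kernel) ?_
    refine jn 3752 (by decide +kernel) ?_
    refine jn 3773 (by decide +kernel) ?_
    refine jn 3788 (by decide +kernel) ?_
    refine jn 3808 (by decide +kernel) ?_
    refine jn 3833 (by decide +kernel) ?_
    refine jn 3856 (by decide +kernel) ?_
    refine jn 3889 (by decide +kernel) ?_
    refine jn 3917 (by decide +kernel) ?_
    refine jn 3943 (by decide +kernel) ?_
    refine jn 3977 (by decide +kernel) ?_
    refine jn 4008 (by decide +kernel) ?_
    refine jn 4029 (by decide +kernel) ?_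
    refine jn 4064 (by decide +kernel) ?_
    refine jn 4099 (by decide +kernel) ?_
    refine jn 4133 (by decide +kernel) ?_
    refine jn 4171 (by decide +kernel) ?_
    refine jn 4199 (by decide +kernel) ?_
    refine jn 4221 (by decide +kernel) ?_
    refine jn 4241 (by decide +kernel) ?_
    refine jn 4273 (by decide +kernel) ?_
    refine jn 4311 (by decide +kernel) ?_
    refine jn 4367 (by decide +kernel) ?_
    refine jn 4416 (by decide +kernel) ?_
    refine jn 4451 (by decide +kernel) ?_
    refine jn 4476 (by decide +kernel) ?_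
    refine jn 4517 (by decide +kernel) ?_
    refine jn 4553 (by decide +kernel) ?_
    refine jn 4581 (by decide +kernel) ?_
    refine jn 4628 (by decide +kernel) ?_
    refine jn 4683 (by decide +kernel) ?_
    refine jn 4720 (by decide +kernel) ?_
    refine jn 4748 (by decide +kernel) ?_
    refine jn 4791 (by decide +kernel) ?_
    refine jn 4831 (by decide +kernel) ?_
    refine jn 4871 (by decide +kernel) ?_
    refine jn 4908 (by decide +kernel) ?_
    refine jn 4957 (by decide +kernel) ?_
    refine jn 5001 (by decide +kernel) ?_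
    refine jn 5047 (by decide +kernel) ?_
    refine jn 5091 (by decide +kernel) ?_
    refine jn 5143 (by decide +kernel) ?_
    refine jn 5196 (by decide +kernel) ?_
    refine jn 5233 (by decide +kernel) ?_
    refine jn 5280 (by decide +kernel) ?_
    refine jn 5312 (by decide +kernel) ?_
    refine jn 5371 (by decide +kernel) ?_
    refine jn 5427 (by decide +kernel) ?_
    refine jn 5463 (by decide +kernel) ?_
    refine jn 5507 (by decide +kernel) ?_
    refine jn 5543 (by decide +kernel) ?_
    refine jn 5652 (by decide +kernel) ?_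
    refine jn 5832 (by decide +kernel) ?_
    refine jn 5872 (by decide +kernel) ?_
    refine jn 5928 (by decide +kernel) ?_
    refine jn 5979 (by decide +kernel) ?_
    refine jn 6008 (by decide +kernel) ?_
    refine jn 6032 (by decide +kernel) ?_
    refine jn 6073 (by decide +kernel) ?_
    refine jn 6129 (by decide +kernel) ?_
    refine jn 6172 (by decide +kernel) ?_
    refine jn 6227 (by decide +kernel) ?_
    refine jn 6267 (by decide +kernel) ?_
    refine jn 6309 (by decide +kernel) ?_
    refine jn 6364 (by decide +kernel) ?_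
    refine jn 6413 (by decide +kernel) ?_
    refine jn 6455 (by decide +kernel) ?_
    refine jn 6509 (by decide +kernel) ?_
    refine jn 6557 (by decide +kernel) ?_
    refine jn 6600 (by decide +kernel) ?_
    refine jn 6645 (by decide +kernel) ?_
    refine jn 6704 (by decide +kernel) ?_
    refine jn 6744 (by decide +kernel) ?_
    refine jn 6792 (by decide +kernel) ?_
    refine jn 6835 (by decide +kernel) ?_
    refine jn 6872 (by decide +kernel) ?_
    refine jn 6927 (by decide +kernel) ?_
    refine jn 6984 (by decide +kernel) ?_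
    refine jn 7023 (by decide +kernel) ?_
    refine jn 7072 (by decide +kernel) ?_
    refine jn 7128 (by decide +kernel) ?_
    refine jn 7168 (by decide +kernel) ?_
    refine jn 7215 (by decide +kernel) ?_
    refine jn 7255 (by decide +kernel) ?_
    refine jn 7299 (by decide +kernel) ?_
    refine jn 7375 (by decide +kernel) ?_
    refine jn 7429 (by decide +kernel) ?_
    refine jn 7475 (by decide +kernel) ?_
    refine jn 7512 (by decide +kernel) ?_
    refine jn 7761 (by decide +kernel) ?_
    refine jn 7953 (by decide +kernel) ?_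
    refine jn 8037 (by decide +kernel) ?_
    refine jn 8118 (by decide +kernel) ?_
    refine jn 8201 (by decide +kernel) ?_
    refine jn 8293 (by decide +kernel) ?_
    refine jn 8362 (by decide +kernel) ?_
    refine jn 8424 (by decide +kernel) ?_
    refine jn 8514 (by decide +kernel) ?_
    refine jn 8593 (by decide +kernel) ?_
    refine jn 8672 (by decide +kernel) ?_
    refine jn 8757 (by decide +kernel) ?_
    refine jn 8836 (by decide +kernel) ?_
    refine jn 8924 (by decide +kernel) ?_
    refine jn 9013 (by decide +kernel) ?_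
    refine jn 9097 (by decide +kernel) ?_
    refine jn 9168 (by decide +kernel) ?_
    refine jn 9249 (by decide +kernel) ?_
    refine jn 9346 (by decide +kernel) ?_
    refine jn 9422 (by decide +kernel) ?_
    refine jn 9509 (by decide +kernel) ?_
    refine jn 9589 (by decide +kernel) ?_
    refine jn 9664 (by decide +kernel) ?_
    refine jn 9769 (by decide +kernel) ?_
    refine jn 9842 (by decide +kernel) ?_
    refine jn 9937 (by decide +kernel) ?_
    refine jn 10023 (by decide +kernel) ?_
    refine jn 10117 (by decide +kernel) ?_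
    refine jn 10193 (by decide +kernel) ?_
    refine jn 10289 (by decide +kernel) ?_
    refine jn 10443 (by decide +kernel) ?_
    refine jn 10674 (by decide +kernel) ?_
    refine jn 10814 (by decide +kernel) ?_
    refine jn 10937 (by decide +kernel) ?_
    refine jn 11030 (by decide +kernel) ?_
    refine jn 11142 (by decide +kernel) ?_
    refine jn 11234 (by decide +kernel) ?_
    refine jn 11315 (by decide +kernel) ?_
    refine jn 11389 (by decide +kernel) ?_
    refine jn 11469 (by decide +kernel) ?_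
    refine jn 11533 (by decide +kernel) ?_
    refine jn 11611 (by decide +kernel) ?_
    refine jn 11673 (by decide +kernel) ?_
    refine jn 11735 (by decide +kernel) ?_
    refine jn 11791 (by decide +kernel) ?_
    refine jn 11838 (by decide +kernel) ?_
    refine jn 11892 (by decide +kernel) ?_
    refine jn 11939 (by decide +kernel) ?_
    refine jn 11986 (by decide +kernel) ?_
    refine jn 12019 (by decide +kernel) ?_
    refine jn 12052 (by decide +kernel) ?_
    refine jn 12097 (by decide +kernel) ?_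
    refine jn 12134 (by decide +kernel) ?_
    refine jn 12169 (by decide +kernel) ?_
    refine jn 12207 (by decide +kernel) ?_
    refine jn 12245 (by decide +kernel) ?_
    refine jn 12277 (by decide +kernel) ?_
    refine jn 12310 (by decide +kernel) ?_
    refine jn 12350 (by decide +kernel) ?_
    refine jn 12411 (by decide +kernel) ?_
    refine jn 12648 (by decide +kernel) ?_
    refine jn 12841 (by decide +kernel) ?_
    refine jn 13007 (by decide +kernel) ?_
    refine jn 13143 (by decide +kernel) ?_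
    refine jn 13243 (by decide +kernel) ?_
    refine jn 13367 (by decide +kernel) ?_
    refine jn 13446 (by decide +kernel) ?_
    refine jn 13528 (by decide +kernel) ?_
    refine jn 13599 (by decide +kernel) ?_
    refine jn 13694 (by decide +kernel) ?_
    refine jn 13764 (by decide +kernel) ?_
    refine jn 13846 (by decide +kernel) ?_
    refine jn 13925 (by decide +kernel) ?_
    refine jn 13986 (by decide +kernel) ?_
    refine jn 14052 (by decide +kernel) ?_
    refine jn 14105 (by decide +kernel) ?_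
    refine jn 14143 (by decide +kernel) ?_
    refine jn 14196 (by decide +kernel) ?_
    refine jn 14247 (by decide +kernel) ?_
    refine jn 14283 (by decide +kernel) ?_
    refine jn 14329 (by decide +kernel) ?_
    refine jn 14361 (by decide +kernel) ?_
    refine jn 14400 (by decide +kernel) ?_
    refine jn 14564 (by decide +kernel) ?_
    refine jn 14819 (by decide +kernel) ?_
    refine jn 14950 (by decide +kernel) ?_
    refine jn 15034 (by decide +kernel) ?_
    refine jn 15116 (by decide +kernel) ?_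
    refine jn 15212 (by decide +kernel) ?_
    refine jn 15262 (by decide +kernel) ?_
    refine jn 15336 (by decide +kernel) ?_
    refine jn 15402 (by decide +kernel) ?_
    refine jn 15478 (by decide +kernel) ?_
    refine jn 15534 (by decide +kernel) ?_
    refine jn 15596 (by decide +kernel) ?_
    refine jn 15640 (by decide +kernel) ?_
    refine jn 15684 (by decide +kernel) ?_
    refine jn 15724 (by decide +kernel) ?_
    refine jn 15784 (by decide +kernel) ?_
    refine jn 15826 (by decide +kernel) ?_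
    refine jn 15870 (by decide +kernel) ?_
    refine jn 15917 (by decide +kernel) ?_
    refine jn 15959 (by decide +kernel) ?_
    refine jn 15997 (by decide +kernel) ?_
    refine jn 16036 (by decide +kernel) ?_
    refine jn 16077 (by decide +kernel) ?_
    refine jn 16122 (by decide +kernel) ?_
    refine jn 16161 (by decide +kernel) ?_
    refine jn 16189 (by decide +kernel) ?_
    refine jn 16226 (by decide +kernel) ?_
    refine jn 16252 (by decide +kernel) ?_
    refine jn 16290 (by decide +kernel) ?_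
    refine jn 16332 (by decide +kernel) ?_
    refine jn 16362 (by decide +kernel) ?_
    refine jn 16398 (by decide +kernel) ?_
    refine jn 16436 (by decide +kernel) ?_
    refine jn 16473 (by decide +kernel) ?_
    refine jn 16807 (by decide +kernel) ?_
    refine jn 16970 (by decide +kernel) ?_
    refine jn 17131 (by decide +kernel) ?_
    refine jn 17211 (by decide +kernel) ?_
    refine jn 17307 (by decide +kernel) ?_
    refine jn 17390 (by decide +kernel) ?_
    refine jn 17489 (by decide +kernel) ?_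
    refine jn 17566 (by decide +kernel) ?_
    refine jn 17635 (by decide +kernel) ?_
    refine jn 17700 (by decide +kernel) ?_
    refine jn 17778 (by decide +kernel) ?_
    refine jn 17849 (by decide +kernel) ?_
    refine jn 17913 (by decide +kernel) ?_
    refine jn 17992 (by decide +kernel) ?_
    refine jn 18057 (by decide +kernel) ?_
    refine jn 18109 (by decide +kernel) ?_
    refine jn 18181 (by decide +kernel) ?_
    refine jn 18237 (by decide +kernel) ?_
    refine jn 18285 (by decide +kernel) ?_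
    refine jn 18320 (by decide +kernel) ?_
    refine jn 18373 (by decide +kernel) ?_
    refine jn 18413 (by decide +kernel) ?_
    refine jn 18460 (by decide +kernel) ?_
    refine jn 18500 (by decide +kernel) ?_
    refine jn 18853 (by decide +kernel) ?_
    refine jn 19070 (by decide +kernel) ?_
    refine jn 19184 (by decide +kernel) ?_
    refine jn 19329 (by decide +kernel) ?_
    refine jn 19421 (by decide +kernel) ?_
    refine jn 19543 (by decide +kernel) ?_
    refine jn 19631 (by decide +kernel) ?_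
    refine jn 19713 (by decide +kernel) ?_
    refine jn 19791 (by decide +kernel) ?_
    refine jn 19901 (by decide +kernel) ?_
    refine jn 19982 (by decide +kernel) ?_
    refine jn 20048 (by decide +kernel) ?_
    refine jn 20135 (by decide +kernel) ?_
    refine jn 20629 (by decide +kernel) ?_
    refine jn 20779 (by decide +kernel) ?_
    refine jn 21003 (by decide +kernel) ?_
    refine jn 21112 (by decide +kernel) ?_
    refine jn 21289 (by decide +kernel) ?_
    refine jn 21431 (by decide +kernel) ?_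
    refine jn 21549 (by decide +kernel) ?_
    refine jn 21651 (by decide +kernel) ?_
    refine jn 21739 (by decide +kernel) ?_
    refine jn 22298 (by decide +kernel) ?_
    exact je (by decide +kernel)
  · refine fin 504 1196 T117_1 ?_
    refine jn 8 (by decide +kernel) ?_
    refine jn 10 (by decide +kernel) ?_
    refine jn 14 (by decide +kernel) ?_
    refine jn 18 (by decide +kernel) ?_
    refine jn 22 (by decide +kernel) ?_
    refine jn 24 (by decide +kernel) ?_
    refine jn 28 (by decide +kernel) ?_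
    refine jn 32 (by decide +kernel) ?_
    refine jn 36 (by decide +kernel) ?_
    refine jn 40 (by decide +kernel) ?_
    refine jn 44 (by decide +kernel) ?_
    refine jn 48 (by decide +kernel) ?_
    refine jn 50 (by decide +kernel) ?_
    refine jn 54 (by decide +kernel) ?_
    refine jn 61 (by decide +kernel) ?_
    refine jn 69 (by decide +kernel) ?_
    refine jn 78 (by decide +kernel) ?_
    refine jn 87 (by decide +kernel) ?_
    refine jn 96 (by decide +kernel) ?_
    refine jn 106 (by decide +kernel) ?_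
    refine jn 120 (by decide +kernel) ?_
    refine jn 143 (by decide +kernel) ?_
    refine jn 166 (by decide +kernel) ?_
    refine jn 185 (by decide +kernel) ?_
    refine jn 206 (by decide +kernel) ?_
    refine jn 228 (by decide +kernel) ?_
    refine jn 237 (by decide +kernel) ?_
    refine jn 250 (by decide +kernel) ?_
    refine jn 271 (by decide +kernel) ?_
    refine jn 277 (by decide +kernel) ?_
    refine jn 299 (by decide +kernel) ?_
    refine jn 321 (by decide +kernel) ?_
    refine jn 346 (by decide +kernel) ?_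
    refine jn 382 (by decide +kernel) ?_
    refine jn 408 (by decide +kernel) ?_
    refine jn 419 (by decide +kernel) ?_
    refine jn 425 (by decide +kernel) ?_
    refine jn 432 (by decide +kernel) ?_
    refine jn 439 (by decide +kernel) ?_
    refine jn 445 (by decide +kernel) ?_
    refine jn 452 (by decide +kernel) ?_
    refine jn 458 (by decide +kernel) ?_
    refine jn 465 (by decide +kernel) ?_
    refine jn 483 (by decide +kernel) ?_
    refine jn 505 (by decide +kernel) ?_
    refine jn 515 (by decide +kernel) ?_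
    refine jn 524 (by decide +kernel) ?_
    refine jn 546 (by decide +kernel) ?_
    refine jn 569 (by decide +kernel) ?_
    refine jn 591 (by decide +kernel) ?_
    refine jn 613 (by decide +kernel) ?_
    refine jn 638 (by decide +kernel) ?_
    refine jn 653 (by decide +kernel) ?_
    refine jn 681 (by decide +kernel) ?_
    refine jn 704 (by decide +kernel) ?_
    refine jn 726 (by decide +kernel) ?_
    refine jn 737 (by decide +kernel) ?_
    refine jn 744 (by decide +kernel) ?_
    refine jn 754 (by decide +kernel) ?_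
    refine jn 763 (by decide +kernel) ?_
    refine jn 770 (by decide +kernel) ?_
    refine jn 794 (by decide +kernel) ?_
    refine jn 804 (by decide +kernel) ?_
    refine jn 811 (by decide +kernel) ?_
    refine jn 824 (by decide +kernel) ?_
    refine jn 850 (by decide +kernel) ?_
    refine jn 876 (by decide +kernel) ?_
    refine jn 890 (by decide +kernel) ?_
    refine jn 903 (by decide +kernel) ?_
    refine jn 920 (by decide +kernel) ?_
    refine jn 953 (by decide +kernel) ?_
    refine jn 967 (by decide +kernel) ?_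
    refine jn 973 (by decide +kernel) ?_
    refine jn 987 (by decide +kernel) ?_
    refine jn 1000 (by decide +kernel) ?_
    refine jn 1026 (by decide +kernel) ?_
    refine jn 1044 (by decide +kernel) ?_
    refine jn 1064 (by decide +kernel) ?_
    refine jn 1109 (by decide +kernel) ?_
    refine jn 1117 (by decide +kernel) ?_
    refine jn 1121 (by decide +kernel) ?_
    refine jn 1124 (by decide +kernel) ?_
    refine jn 1128 (by decide +kernel) ?_
    refine jn 1130 (by decide +kernel) ?_
    refine jn 1140 (by decide +kernel) ?_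
    refine jn 1146 (by decide +kernel) ?_
    refine jn 1151 (by decide +kernel) ?_
    refine jn 1153 (by decide +kernel) ?_
    refine jn 1166 (by decide +kernel) ?_
    refine jn 1179 (by decide +kernel) ?_
    refine jn 1185 (by decide +kernel) ?_
    refine jn 1193 (by decide +kernel) ?_
    exact je (by decide +kernel)
  · refine fin 3480 14158 T117_2 ?_
    refine jn 9 (by decide +kernel) ?_
    refine jn 12 (by decide +kernel) ?_
    refine jn 19 (by decide +kernel) ?_
    refine jn 26 (by decide +kernel) ?_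
    refine jn 40 (by decide +kernel) ?_
    refine jn 46 (by decide +kernel) ?_
    refine jn 48 (by decide +kernel) ?_
    refine jn 55 (by decide +kernel) ?_
    refine jn 66 (by decide +kernel) ?_
    refine jn 73 (by decide +kernel) ?_
    refine jn 77 (by decide +kernel) ?_
    refine jn 91 (by decide +kernel) ?_
    refine jn 98 (by decide +kernel) ?_
    refine jn 105 (by decide +kernel) ?_
    refine jn 116 (by decide +kernel) ?_
    refine jn 120 (by decide +kernel) ?_
    refine jn 126 (by decide +kernel) ?_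
    refine jn 136 (by decide +kernel) ?_
    refine jn 143 (by decide +kernel) ?_
    refine jn 155 (by decide +kernel) ?_
    refine jn 160 (by decide +kernel) ?_
    refine jn 171 (by decide +kernel) ?_
    refine jn 177 (by decide +kernel) ?_
    refine jn 188 (by decide +kernel) ?_
    refine jn 194 (by decide +kernel) ?_
    refine jn 208 (by decide +kernel) ?_
    refine jn 220 (by decide +kernel) ?_
    refine jn 234 (by decide +kernel) ?_
    refine jn 246 (by decide +kernel) ?_
    refine jn 247 (by decide +kernel) ?_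
    refine jn 248 (by decide +kernel) ?_
    refine jn 249 (by decide +kernel) ?_
    refine jn 250 (by decide +kernel) ?_
    refine jn 251 (by decide +kernel) ?_
    refine jn 256 (by decide +kernel) ?_
    refine jn 269 (by decide +kernel) ?_
    refine jn 278 (by decide +kernel) ?_
    refine jn 281 (by decide +kernel) ?_
    refine jn 284 (by decide +kernel) ?_
    refine jn 296 (by decide +kernel) ?_
    refine jn 311 (by decide +kernel) ?_
    refine jn 328 (by decide +kernel) ?_
    refine jn 342 (by decide +kernel) ?_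
    refine jn 356 (by decide +kernel) ?_
    refine jn 370 (by decide +kernel) ?_
    refine jn 384 (by decide +kernel) ?_
    refine jn 397 (by decide +kernel) ?_
    refine jn 410 (by decide +kernel) ?_
    refine jn 423 (by decide +kernel) ?_
    refine jn 433 (by decide +kernel) ?_
    refine jn 437 (by decide +kernel) ?_
    refine jn 450 (by decide +kernel) ?_
    refine jn 459 (by decide +kernel) ?_
    refine jn 471 (by decide +kernel) ?_
    refine jn 482 (by decide +kernel) ?_
    refine jn 504 (by decide +kernel) ?_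
    refine jn 515 (by decide +kernel) ?_
    refine jn 525 (by decide +kernel) ?_
    refine jn 536 (by decide +kernel) ?_
    refine jn 546 (by decide +kernel) ?_
    refine jn 557 (by decide +kernel) ?_
    refine jn 575 (by decide +kernel) ?_
    refine jn 588 (by decide +kernel) ?_
    refine jn 597 (by decide +kernel) ?_
    refine jn 606 (by decide +kernel) ?_
    refine jn 623 (by decide +kernel) ?_
    refine jn 632 (by decide +kernel) ?_
    refine jn 649 (by decide +kernel) ?_
    refine jn 660 (by decide +kernel) ?_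
    refine jn 675 (by decide +kernel) ?_
    refine jn 685 (by decide +kernel) ?_
    refine jn 694 (by decide +kernel) ?_
    refine jn 710 (by decide +kernel) ?_
    refine jn 721 (by decide +kernel) ?_
    refine jn 731 (by decide +kernel) ?_
    refine jn 748 (by decide +kernel) ?_
    refine jn 870 (by decide +kernel) ?_
    refine jn 959 (by decide +kernel) ?_
    refine jn 968 (by decide +kernel) ?_
    refine jn 976 (by decide +kernel) ?_
    refine jn 991 (by decide +kernel) ?_
    refine jn 1000 (by decide +kernel) ?_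
    refine jn 1016 (by decide +kernel) ?_
    refine jn 1024 (by decide +kernel) ?_
    refine jn 1037 (by decide +kernel) ?_
    refine jn 1049 (by decide +kernel) ?_
    refine jn 1064 (by decide +kernel) ?_
    refine jn 1076 (by decide +kernel) ?_
    refine jn 1084 (by decide +kernel) ?_
    refine jn 1087 (by decide +kernel) ?_
    refine jn 1093 (by decide +kernel) ?_
    refine jn 1108 (by decide +kernel) ?_
    refine jn 1117 (by decide +kernel) ?_
    refine jn 1124 (by decide +kernel) ?_
    refine jn 1136 (by decide +kernel) ?_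
    refine jn 1156 (by decide +kernel) ?_
    refine jn 1184 (by decide +kernel) ?_
    refine jn 1192 (by decide +kernel) ?_
    refine jn 1208 (by decide +kernel) ?_
    refine jn 1219 (by decide +kernel) ?_
    refine jn 1228 (by decide +kernel) ?_
    refine jn 1240 (by decide +kernel) ?_
    refine jn 1255 (by decide +kernel) ?_
    refine jn 1271 (by decide +kernel) ?_
    refine jn 1279 (by decide +kernel) ?_
    refine jn 1292 (by decide +kernel) ?_
    refine jn 1304 (by decide +kernel) ?_
    refine jn 1319 (by decide +kernel) ?_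
    refine jn 1331 (by decide +kernel) ?_
    refine jn 1340 (by decide +kernel) ?_
    refine jn 1348 (by decide +kernel) ?_
    refine jn 1364 (by decide +kernel) ?_
    refine jn 1375 (by decide +kernel) ?_
    refine jn 1391 (by decide +kernel) ?_
    refine jn 1420 (by decide +kernel) ?_
    refine jn 1444 (by decide +kernel) ?_
    refine jn 1463 (by decide +kernel) ?_
    refine jn 1474 (by decide +kernel) ?_
    refine jn 1685 (by decide +kernel) ?_
    refine jn 1694 (by decide +kernel) ?_
    refine jn 1706 (by decide +kernel) ?_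
    refine jn 1718 (by decide +kernel) ?_
    refine jn 1733 (by decide +kernel) ?_
    refine jn 1748 (by decide +kernel) ?_
    refine jn 1756 (by decide +kernel) ?_
    refine jn 1766 (by decide +kernel) ?_
    refine jn 1801 (by decide +kernel) ?_
    refine jn 1814 (by decide +kernel) ?_
    refine jn 1829 (by decide +kernel) ?_
    refine jn 1837 (by decide +kernel) ?_
    refine jn 1846 (by decide +kernel) ?_
    refine jn 1852 (by decide +kernel) ?_
    refine jn 1870 (by decide +kernel) ?_
    refine jn 1880 (by decide +kernel) ?_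
    refine jn 1889 (by decide +kernel) ?_
    refine jn 1907 (by decide +kernel) ?_
    refine jn 1919 (by decide +kernel) ?_
    refine jn 1931 (by decide +kernel) ?_
    refine jn 1946 (by decide +kernel) ?_
    refine jn 1961 (by decide +kernel) ?_
    refine jn 1975 (by decide +kernel) ?_
    refine jn 2002 (by decide +kernel) ?_
    refine jn 2026 (by decide +kernel) ?_
    refine jn 2035 (by decide +kernel) ?_
    refine jn 2045 (by decide +kernel) ?_
    refine jn 2054 (by decide +kernel) ?_
    refine jn 2062 (by decide +kernel) ?_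
    refine jn 2074 (by decide +kernel) ?_
    refine jn 2089 (by decide +kernel) ?_
    refine jn 2101 (by decide +kernel) ?_
    refine jn 2134 (by decide +kernel) ?_
    refine jn 2170 (by decide +kernel) ?_
    refine jn 2224 (by decide +kernel) ?_
    refine jn 2290 (by decide +kernel) ?_
    refine jn 2346 (by decide +kernel) ?_
    refine jn 2414 (by decide +kernel) ?_
    refine jn 2447 (by decide +kernel) ?_
    refine jn 2471 (by decide +kernel) ?_
    refine jn 2514 (by decide +kernel) ?_
    refine jn 2549 (by decide +kernel) ?_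
    refine jn 2597 (by decide +kernel) ?_
    refine jn 2642 (by decide +kernel) ?_
    refine jn 2690 (by decide +kernel) ?_
    refine jn 2742 (by decide +kernel) ?_
    refine jn 2794 (by decide +kernel) ?_
    refine jn 2850 (by decide +kernel) ?_
    refine jn 2902 (by decide +kernel) ?_
    refine jn 2967 (by decide +kernel) ?_
    refine jn 3018 (by decide +kernel) ?_
    refine jn 3070 (by decide +kernel) ?_
    refine jn 3137 (by decide +kernel) ?_
    refine jn 3171 (by decide +kernel) ?_
    refine jn 3219 (by decide +kernel) ?_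
    refine jn 3260 (by decide +kernel) ?_
    refine jn 3291 (by decide +kernel) ?_
    refine jn 3351 (by decide +kernel) ?_
    refine jn 3386 (by decide +kernel) ?_
    refine jn 3431 (by decide +kernel) ?_
    refine jn 3456 (by decide +kernel) ?_
    refine jn 3515 (by decide +kernel) ?_
    refine jn 3554 (by decide +kernel) ?_
    refine jn 3595 (by decide +kernel) ?_
    refine jn 3672 (by decide +kernel) ?_
    refine jn 3730 (by decide +kernel) ?_
    refine jn 3811 (by decide +kernel) ?_
    refine jn 3868 (by decide +kernel) ?_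
    refine jn 3954 (by decide +kernel) ?_
    refine jn 4024 (by decide +kernel) ?_
    refine jn 4110 (by decide +kernel) ?_
    refine jn 4186 (by decide +kernel) ?_
    refine jn 4258 (by decide +kernel) ?_
    refine jn 4351 (by decide +kernel) ?_
    refine jn 4414 (by decide +kernel) ?_
    refine jn 4489 (by decide +kernel) ?_
    refine jn 4569 (by decide +kernel) ?_
    refine jn 4638 (by decide +kernel) ?_
    refine jn 4699 (by decide +kernel) ?_
    refine jn 4767 (by decide +kernel) ?_
    refine jn 4831 (by decide +kernel) ?_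
    refine jn 4927 (by decide +kernel) ?_
    refine jn 5002 (by decide +kernel) ?_
    refine jn 5211 (by decide +kernel) ?_
    refine jn 5307 (by decide +kernel) ?_
    refine jn 5401 (by decide +kernel) ?_
    refine jn 5499 (by decide +kernel) ?_
    refine jn 5616 (by decide +kernel) ?_
    refine jn 5720 (by decide +kernel) ?_
    refine jn 5816 (by decide +kernel) ?_
    refine jn 5907 (by decide +kernel) ?_
    refine jn 5991 (by decide +kernel) ?_
    refine jn 6090 (by decide +kernel) ?_
    refine jn 6192 (by decide +kernel) ?_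
    refine jn 6294 (by decide +kernel) ?_
    refine jn 6527 (by decide +kernel) ?_
    refine jn 6635 (by decide +kernel) ?_
    refine jn 6735 (by decide +kernel) ?_
    refine jn 6856 (by decide +kernel) ?_
    refine jn 6979 (by decide +kernel) ?_
    refine jn 7096 (by decide +kernel) ?_
    refine jn 7204 (by decide +kernel) ?_
    refine jn 7316 (by decide +kernel) ?_
    refine jn 7421 (by decide +kernel) ?_
    refine jn 7564 (by decide +kernel) ?_
    refine jn 7688 (by decide +kernel) ?_
    refine jn 7785 (by decide +kernel) ?_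
    refine jn 7913 (by decide +kernel) ?_
    refine jn 8017 (by decide +kernel) ?_
    refine jn 8157 (by decide +kernel) ?_
    refine jn 8509 (by decide +kernel) ?_
    refine jn 8754 (by decide +kernel) ?_
    refine jn 8938 (by decide +kernel) ?_
    refine jn 9070 (by decide +kernel) ?_
    refine jn 9177 (by decide +kernel) ?_
    refine jn 9267 (by decide +kernel) ?_
    refine jn 9357 (by decide +kernel) ?_
    refine jn 9437 (by decide +kernel) ?_
    refine jn 9508 (by decide +kernel) ?_
    refine jn 9880 (by decide +kernel) ?_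
    refine jn 10060 (by decide +kernel) ?_
    refine jn 10176 (by decide +kernel) ?_
    refine jn 10281 (by decide +kernel) ?_
    refine jn 10367 (by decide +kernel) ?_
    refine jn 10457 (by decide +kernel) ?_
    refine jn 10528 (by decide +kernel) ?_
    refine jn 10592 (by decide +kernel) ?_
    refine jn 10653 (by decide +kernel) ?_
    refine jn 10702 (by decide +kernel) ?_
    refine jn 10753 (by decide +kernel) ?_
    refine jn 10803 (by decide +kernel) ?_
    refine jn 11223 (by decide +kernel) ?_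
    refine jn 11430 (by decide +kernel) ?_
    refine jn 11574 (by decide +kernel) ?_
    refine jn 11692 (by decide +kernel) ?_
    refine jn 11810 (by decide +kernel) ?_
    refine jn 11906 (by decide +kernel) ?_
    refine jn 11989 (by decide +kernel) ?_
    refine jn 12063 (by decide +kernel) ?_
    refine jn 12479 (by decide +kernel) ?_
    refine jn 12718 (by decide +kernel) ?_
    refine jn 12904 (by decide +kernel) ?_
    refine jn 13077 (by decide +kernel) ?_
    refine jn 13627 (by decide +kernel) ?_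
    refine jn 13914 (by decide +kernel) ?_
    refine jn 14130 (by decide +kernel) ?_
    exact je (by decide +kernel)

end Pool.Agent.MP_2339ce_nt.NR
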