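import Pool.Agent.MP_2339ce_nt.Q2.NC.L8
import Pool.Agent.MP_2339ce_nt.Q2.NC.L10
import Pool.Agent.MP_2339ce_nt.Q2.CkI

/-! Block NR: runs. -/

set_option autoImplicit false
set_option maxRecDepth 100000

noncomputable section

namespace Pool.Agent.MP_2339ce_nt.NR

open Q2.Top

def T119_0 : Ph :=
  (.na 513 2 (.nx 512 3329023 (.nr 511 881745 (.nx 3 224 (.nx 2 223 (.nr 1 15 (.lg 0 true 1 41 41 5
  0 24) (.l1 .sk)) (.l1 .sk)) (.nr 490 311745 (.nr 436 185365 (.nx 390 1664512 (.nx 68 41287 (.lg 0
  false 65 103 107 16 0 720720) (.nr 389 155873 (.nr 148 1724 (.nr 128 942 (.lg 0 true 60 89 101 16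
  0 5040) (.lg 2 true 20 89 89 11 197021 1680)) (.nx 388 1321124 (.nx 208 65537 (.lg 1 false 60 101
  107 16 94008 720720) (.nr 387 110219 (.nr 295 46342 (.nr 228 2898 (.lg 2 true 20 83 89 11 85444
  1680) (.nx 294 1048577 (.nr 248 8193 (.lg 2 true 20 97 103 11 40344 240240) (.nx 293 832257 (.lg
  2 false 45 97 107 16 17667 720720) .out)) .out)) (.nx 386 524289 (.nr 340 77937 (.lg 2 false 45
  101 107 16 29654 720720) (.nx 385 262145 (.lg 2 true 45 101 107 16 41902 720720) .out)) .out))
  .out)) .out)) .out)) (.nr 435 154 (.lg 0 true 45 83 89 16 0 5040) .out)) (.nx 489 26009 (.nx 451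
  408 (.lg 0 false 15 79 79 9 0 360) (.nx 452 6501 .out (.nr 488 220437 (.nx 467 10323 (.lg 0 false
  15 97 101 9 0 55440) (.nx 468 13003 .out (.lg 0 false 20 101 103 11 0 55440))) .out))) .out))
  (.nx 510 324 (.lg 0 false 20 79 79 11 0 240) .out))) .out) .out) (.na 947 3 (.nx 946 3329023 (.nr
  945 1763489 (.nx 516 224 (.nx 515 223 (.nr 514 28 (.lg 0 false 1 41 41 5 0 48) (.l1 .sk)) (.l1
  .sk)) (.nx 591 26007 (.nr 555 220437 (.lg 0 false 39 103 107 13 0 720720) (.nx 577 13003 (.nx 576
  408 (.lg 0 false 21 83 83 11 0 1008) .out) (.nr 590 262145 (.lg 0 false 13 101 103 9 0 720720)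
  .out))) (.nr 944 311745 (.nx 932 2642247 (.nx 910 1321124 (.nr 644 3446 (.nr 630 941 (.lg 0 true
  39 89 97 13 0 65520) (.nx 643 1048577 (.lg 2 true 13 89 97 9 124247 21840) .out)) (.nx 909 832257
  (.nr 657 12637 (.lg 2 true 13 89 97 9 26929 21840) (.nx 854 165142 (.nx 696 36780 (.lg 0 false 39
  101 103 13 0 720720) (.nx 735 52017 (.lg 1 false 39 101 107 13 210904 720720) (.nr 853 262145
  (.nx 774 82572 (.lg 1 false 39 101 107 13 125415 720720) (.nr 852 220437 (.nx 813 116773 (.lg 1
  false 39 101 107 13 66447 720720) (.lg 1 true 39 101 107 13 46986 720720)) .out)) .out))) (.nr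
  908 155873 (.nr 867 55110 (.lg 2 false 13 97 101 9 8332 240240) (.nx 907 330282 (.nr 880 92683
  (.lg 2 false 13 97 101 9 13989 240240) (.nx 906 262145 (.lg 2 false 26 97 103 11 23503 240240)
  .out)) .out)) .out))) .out)) (.nr 931 154 (.lg 0 true 21 83 83 11 0 5040) .out)) (.nr 943 9 (.lg
  0 true 11 61 61 9 0 528) .out)) .out))) .out) .out) .ne))

def T119_1 : Ph :=
  (.na 591 2 (.nx 590 3329023 (.nr 589 881745 (.nx 3 254 (.nx 2 253 (.nr 1 16 (.lg 0 false 1 47 47
  5 0 18216) (.l1 .sk)) (.l1 .sk)) (.nr 568 311745 (.nx 161 41287 (.nr 108 185365 (.lg 0 false 105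
  101 107 16 0 1275120) (.nx 160 26009 (.nx 123 408 (.lg 0 false 15 83 83 9 0 91080) (.nx 124 6501
  .out (.nr 159 220437 (.lg 0 false 35 101 103 13 0 1275120) .out))) .out)) (.nr 567 155873 (.nx
  531 1664512 (.nr 246 1724 (.nr 226 942 (.lg 0 true 65 97 103 16 0 1184040) (.lg 2 true 20 97 97
  11 223526 60720)) (.nx 530 1321124 (.nx 311 65537 (.lg 1 false 65 103 109 16 121026 16576560)
  (.nr 529 110219 (.nr 410 55110 (.nr 331 2898 (.lg 2 true 20 89 97 11 96939 60720) (.nx 409
  1048577 (.nr 344 4872 (.lg 2 true 13 103 107 9 45772 16576560) (.lg 2 false 65 101 109 16 27226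
  16576560)) .out)) (.nx 528 416129 (.nr 462 77937 (.lg 2 true 52 101 109 16 38184 16576560) (.nx
  527 262145 (.lg 2 true 65 101 109 16 53949 16576560) .out)) .out)) .out)) .out)) (.nr 566 154
  (.lg 0 true 35 89 89 13 0 212520) .out)) .out)) (.nx 588 324 (.lg 0 false 20 83 83 11 0 60720)
  .out))) .out) .out) (.nx 1000 3329023 (.nr 999 1763489 (.nx 594 254 (.nx 593 253 (.nr 592 30 (.lg
  0 true 1 43 43 5 0 12144) (.l1 .sk)) (.l1 .sk)) (.nr 954 262145 (.nx 685 65537 (.lg 0 false 91
  103 109 13 0 16576560) (.nr 757 941 (.nx 724 1321124 (.lg 0 true 39 97 101 13 0 2368080) (.nr 756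
  154 (.nx 745 2642247 (.lg 0 true 21 89 89 11 0 255024) (.nr 755 9 (.lg 0 true 10 67 67 9 0 60720)
  .out)) .out)) (.nx 953 1048577 (.nx 875 165142 (.nx 796 82572 (.lg 1 false 39 101 107 13 128142
  2368080) (.nr 874 220437 (.nx 835 116773 (.lg 1 false 39 101 107 13 85539 2368080) (.lg 1 false
  39 101 107 13 60486 2368080)) .out)) (.nr 952 155873 (.nr 888 3446 (.lg 2 true 13 97 101 9 140962
  789360) (.nx 951 832257 (.lg 2 false 63 97 107 13 30552 1275120) .out)) .out)) .out))) (.nx 998
  52017 (.nx 975 408 (.lg 0 false 21 89 89 11 0 255024) (.nx 976 26007 .out (.nr 997 311745 (.lg 0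
  false 21 101 103 11 0 1275120) .out))) .out))) .out) .out))

def T119_2 : Ph :=
  (.na 737 8 (.na 495 5 (.na 296 2 (.nx 295 1321124 (.nr 294 881745 (.nx 3 146 (.nx 2 145 (.nr 1 13
  (.lg 0 false 1 43 43 5 0 3480) (.l1 .sk)) (.l1 .sk)) (.nx 260 660563 (.nx 89 17696 (.nr 55 92683
  (.lg 0 false 52 103 109 16 0 20900880) (.nx 88 257 (.lg 0 false 33 83 89 13 0 114840) .out)) (.nr
  259 77937 (.nr 151 2437 (.nr 139 1219 (.nr 128 695 (.lg 0 true 39 97 101 16 0 950040) (.lg 2 true
  11 89 89 9 68908 38280)) (.nx 150 524289 (.lg 2 true 11 97 97 9 31183 267960) .out)) (.nx 258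
  416129 (.nx 190 32769 (.lg 1 false 39 103 109 16 46387 20900880) (.nr 257 55110 (.nr 212 23172
  (.nr 201 4097 (.lg 2 true 11 83 89 9 12380 38280) (.lg 2 false 11 107 107 9 7481 20900880)) (.nx
  256 262145 (.lg 2 false 44 101 109 16 17727 20900880) .out)) .out)) .out)) .out)) (.nr 293 129
  (.lg 0 true 33 83 89 13 0 114840) .out))) .out) .out) (.na 494 3 (.nx 493 3329023 (.nr 492 623489
  (.nx 473 1664512 (.nx 298 145 (.nr 297 23 (.lg 0 false 1 41 41 5 0 6960) (.l1 .sk)) (.nx 299 146
  (.l1 .sk) (.nr 459 131073 (.nx 338 19230 (.lg 0 false 39 103 107 13 0 20900880) (.nr 395 2437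
  (.nr 381 450 (.nx 359 832257 (.lg 0 true 21 89 89 11 0 146160) (.nr 380 129 (.lg 0 true 21 83 83
  11 0 146160) .out)) (.nx 394 416129 (.lg 2 true 13 89 89 9 67044 90480) .out)) (.nx 458 330282
  (.nx 416 32769 (.lg 1 false 21 97 103 11 71736 146160) (.nr 457 92683 (.nr 443 55110 (.nr 429
  27556 (.lg 2 false 13 89 97 9 9826 90480) (.nx 442 165142 (.lg 2 false 13 101 103 9 17727
  6966960) .out)) (.nx 456 131073 (.lg 2 false 13 103 107 9 29781 6966960) .out)) .out)) .out)))
  (.nx 472 257 (.lg 0 false 13 79 79 9 0 90480) .out)))) (.nr 491 9 (.lg 0 true 18 71 71 9 0 20880)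
  .out)) .out) .out) .ne)) (.na 635 6 (.nx 634 13316087 (.nr 633 1482912 (.nx 498 146 (.nx 497 145
  (.nr 496 50 (.lg 0 true 1 31 31 9 0 3480) (.l1 .sk)) (.l1 .sk)) (.nx 604 1664512 (.nx 536 26007
  (.nr 519 110219 (.lg 0 false 21 89 97 16 0 73080) (.nx 535 257 (.lg 0 false 16 73 73 16 0 6960)
  .out)) (.nr 603 155873 (.nr 557 956 (.lg 0 true 21 83 89 16 0 73080) (.nx 602 660563 (.nx 585
  131073 (.nx 577 82572 (.nx 565 41285 (.nr 564 131073 (.lg 1 false 7 89 97 11 53042 24360) .out)
  (.lg 1 true 12 103 107 16 39728 20900880)) (.nr 584 131073 (.lg 1 true 7 89 97 11 16706 24360)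
  .out)) (.nr 601 46342 (.nr 594 8843 (.lg 2 true 9 83 83 13 50095 10440) (.lg 2 false 7 83 83 11
  5416 24360)) .out)) .out)) .out)) (.nr 632 24 (.lg 0 true 28 73 73 11 0 48720) .out))) .out)
  .out) (.na 636 7 .ne (.nx 736 13316087 (.nr 735 262145 (.nx 639 146 (.nx 638 145 (.nr 637 68 (.lg
  0 true 1 31 31 9 0 24360) (.l1 .sk)) (.l1 .sk)) (.nx 708 1664512 (.nx 657 26007 (.nr 652 110219
  (.lg 0 false 13 101 107 16 0 20900880) (.nx 656 1627 (.lg 0 false 4 89 89 13 0 48720) .out)) (.nr
  707 131073 (.nr 670 626 (.lg 0 true 13 89 89 16 0 316680) (.nx 706 524289 (.nr 674 2630 (.lg 2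
  true 4 83 83 13 60721 48720) (.nx 687 52015 (.lg 1 false 13 101 107 16 53042 20900880) (.nr 696
  77937 (.lg 2 false 9 97 103 16 15781 1607760) (.nx 705 131073 (.lg 2 false 9 101 103 16 26521
  1607760) .out)))) .out)) .out)) (.nr 734 47 (.lg 0 true 26 83 83 16 0 633360) .out))) .out)
  .out)))) (.na 796 14 (.na 738 10 .ne (.na 795 12 (.nx 794 1664512 (.nr 793 623489 (.nx 740 145
  (.nr 739 102 (.lg 0 true 1 37 37 9 0 1607760) (.l1 .sk)) (.nx 741 146 (.l1 .sk) (.nr 781 131073
  (.nx 754 35390 (.lg 0 false 13 97 101 13 0 1900080) (.nr 767 829 (.lg 0 true 13 83 83 13 0 90480)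
  (.nx 780 416129 (.lg 2 false 13 97 101 13 38979 633360) .out))) (.nx 792 1292 (.lg 0 false 11 83
  83 13 0 76560) .out)))) .out) .out) .ne)) (.na 842 17 (.na 841 16 (.nx 840 1664512 (.nr 839
  623489 (.nr 797 8 .s1 (.nx 800 146 (.nx 799 145 (.nr 798 136 (.lg 0 true 1 31 31 11 0 48720) (.l1
  .sk)) (.l1 .sk)) (.nx 816 29192 (.nr 809 155873 (.lg 0 false 9 97 101 19 0 146160) (.nx 815 1292
  (.lg 0 false 6 83 89 13 0 146160) .out)) (.nr 838 110219 (.nx 832 524289 (.nr 822 829 (.lg 0 true
  6 83 83 13 0 146160) (.nx 831 416129 (.lg 2 false 9 97 101 19 39745 146160) .out)) (.nr 837 65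
  (.lg 0 true 5 71 71 13 0 48720) .out)) .out)))) .out) .out) .ne) (.na 889 19 (.nx 888 1664512
  (.nr 887 1048577 (.nr 843 13 .s1 (.nx 847 257 (.nx 845 145 (.nr 844 162 (.lg 0 false 1 31 31 11 0
  73080) (.l1 .sk)) (.nx 846 146 (.l1 .sk) (.l1 (.ls 89 37 2634)))) (.nr 886 623489 (.nx 858 13005
  (.nr 853 220437 (.lg 0 false 6 101 101 16 0 146160) (.nx 857 1627 (.lg 0 false 4 89 89 16 0 6960)
  .out)) (.nr 885 92683 (.nr 876 46342 (.nr 866 634 (.lg 0 true 8 83 83 16 0 6960) (.nx 875 262145
  (.lg 2 true 9 79 79 16 37579 10440) .out)) (.nx 884 165142 (.nx 880 82572 (.lg 0 true 4 103 103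
  16 0 146160) (.nr 883 55110 (.lg 0 true 3 97 97 16 0 73080) .out)) .out)) .out)) .out))) .out)
  .out) (.nx 923 1664512 (.nr 922 1048577 (.nr 890 15 .s1 (.nx 906 23171 (.nx 892 145 (.nr 891 188
  (.lg 0 true 1 23 23 11 0 3480) (.l1 .sk)) (.nx 893 146 (.l1 .sk) (.nx 894 257 (.l1 (.ls 83 31
  2357)) (.nr 905 623489 (.nr 901 220437 (.lg 0 false 7 97 97 16 0 73080) (.nx 904 1627 (.lg 0
  false 3 79 79 16 0 10440) .out)) .out)))) (.nr 921 92683 (.nr 913 634 (.lg 0 true 7 79 79 16 0
  24360) (.nx 920 262145 (.lg 2 false 7 89 97 16 42117 24360) .out)) .out))) .out) .out)))))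

theorem c119 :
    OkQ ckI L10 223 1 4 0 34359738368 1 1099511627776 ∧
    OkQ ckI L10 253 1 3 0 34359738368 1 1099511627776 ∧
    OkQ ckI L8 145 1 22 0 34359738368 1 1099511627776 := by
  refine ⟨?_, ?_, ?_⟩
  · refine fin 24 948 T119_0 ?_
    refine jn 6 (by decide +kernel) ?_
    refine jn 11 (by decide +kernel) ?_
    refine jn 16 (by decide +kernel) ?_
    refine jn 21 (by decide +kernel) ?_
    refine jn 26 (by decide +kernel) ?_
    refine jn 31 (by decide +kernel) ?_
    refine jn 35 (by decide +kernel) ?_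
    refine jn 40 (by decide +kernel) ?_
    refine jn 43 (by decide +kernel) ?_
    refine jn 48 (by decide +kernel) ?_
    refine jn 53 (by decide +kernel) ?_
    refine jn 57 (by decide +kernel) ?_
    refine jn 61 (by decide +kernel) ?_
    refine jn 66 (by decide +kernel) ?_
    refine jn 68 (by decide +kernel) ?_
    refine jn 81 (by decide +kernel) ?_
    refine jn 93 (by decide +kernel) ?_
    refine jn 105 (by decide +kernel) ?_
    refine jn 118 (by decide +kernel) ?_
    refine jn 128 (by decide +kernel) ?_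
    refine jn 148 (by decide +kernel) ?_
    refine jn 165 (by decide +kernel) ?_
    refine jn 180 (by decide +kernel) ?_
    refine jn 195 (by decide +kernel) ?_
    refine jn 208 (by decide +kernel) ?_
    refine jn 228 (by decide +kernel) ?_
    refine jn 248 (by decide +kernel) ?_
    refine jn 270 (by decide +kernel) ?_
    refine jn 292 (by decide +kernel) ?_
    refine jn 311 (by decide +kernel) ?_
    refine jn 334 (by decide +kernel) ?_
    refine jn 340 (by decide +kernel) ?_
    refine jn 356 (by decide +kernel) ?_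
    refine jn 372 (by decide +kernel) ?_
    refine jn 385 (by decide +kernel) ?_
    refine jn 420 (by decide +kernel) ?_
    refine jn 435 (by decide +kernel) ?_
    refine jn 467 (by decide +kernel) ?_
    refine jn 487 (by decide +kernel) ?_
    refine jn 510 (by decide +kernel) ?_
    refine jn 521 (by decide +kernel) ?_
    refine jn 527 (by decide +kernel) ?_
    refine jn 534 (by decide +kernel) ?_
    refine jn 539 (by decide +kernel) ?_
    refine jn 547 (by decide +kernel) ?_
    refine jn 553 (by decide +kernel) ?_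
    refine jn 576 (by decide +kernel) ?_
    refine jn 598 (by decide +kernel) ?_
    refine jn 610 (by decide +kernel) ?_
    refine jn 622 (by decide +kernel) ?_
    refine jn 630 (by decide +kernel) ?_
    refine jn 643 (by decide +kernel) ?_
    refine jn 669 (by decide +kernel) ?_
    refine jn 692 (by decide +kernel) ?_
    refine jn 714 (by decide +kernel) ?_
    refine jn 735 (by decide +kernel) ?_
    refine jn 753 (by decide +kernel) ?_
    refine jn 770 (by decide +kernel) ?_
    refine jn 790 (by decide +kernel) ?_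
    refine jn 813 (by decide +kernel) ?_
    refine jn 839 (by decide +kernel) ?_
    refine jn 852 (by decide +kernel) ?_
    refine jn 880 (by decide +kernel) ?_
    refine jn 906 (by decide +kernel) ?_
    refine jn 931 (by decide +kernel) ?_
    exact je (by decide +kernel)
  · refine fin 6072 1001 T119_1 ?_
    refine jn 10 (by decide +kernel) ?_
    refine jn 16 (by decide +kernel) ?_
    refine jn 21 (by decide +kernel) ?_
    refine jn 26 (by decide +kernel) ?_
    refine jn 33 (by decide +kernel) ?_
    refine jn 40 (by decide +kernel) ?_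
    refine jn 46 (by decide +kernel) ?_
    refine jn 50 (by decide +kernel) ?_
    refine jn 55 (by decide +kernel) ?_
    refine jn 61 (by decide +kernel) ?_
    refine jn 65 (by decide +kernel) ?_
    refine jn 70 (by decide +kernel) ?_
    refine jn 76 (by decide +kernel) ?_
    refine jn 85 (by decide +kernel) ?_
    refine jn 88 (by decide +kernel) ?_
    refine jn 95 (by decide +kernel) ?_
    refine jn 100 (by decide +kernel) ?_
    refine jn 106 (by decide +kernel) ?_
    refine jn 123 (by decide +kernel) ?_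
    refine jn 151 (by decide +kernel) ?_
    refine jn 161 (by decide +kernel) ?_
    refine jn 174 (by decide +kernel) ?_
    refine jn 188 (by decide +kernel) ?_
    refine jn 202 (by decide +kernel) ?_
    refine jn 217 (by decide +kernel) ?_
    refine jn 226 (by decide +kernel) ?_
    refine jn 246 (by decide +kernel) ?_
    refine jn 263 (by decide +kernel) ?_
    refine jn 278 (by decide +kernel) ?_
    refine jn 291 (by decide +kernel) ?_
    refine jn 304 (by decide +kernel) ?_
    refine jn 311 (by decide +kernel) ?_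
    refine jn 331 (by decide +kernel) ?_
    refine jn 344 (by decide +kernel) ?_
    refine jn 362 (by decide +kernel) ?_
    refine jn 380 (by decide +kernel) ?_
    refine jn 398 (by decide +kernel) ?_
    refine jn 409 (by decide +kernel) ?_
    refine jn 432 (by decide +kernel) ?_
    refine jn 454 (by decide +kernel) ?_
    refine jn 462 (by decide +kernel) ?_
    refine jn 482 (by decide +kernel) ?_
    refine jn 502 (by decide +kernel) ?_
    refine jn 522 (by decide +kernel) ?_
    refine jn 531 (by decide +kernel) ?_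
    refine jn 566 (by decide +kernel) ?_
    refine jn 588 (by decide +kernel) ?_
    refine jn 601 (by decide +kernel) ?_
    refine jn 611 (by decide +kernel) ?_
    refine jn 620 (by decide +kernel) ?_
    refine jn 629 (by decide +kernel) ?_
    refine jn 637 (by decide +kernel) ?_
    refine jn 647 (by decide +kernel) ?_
    refine jn 655 (by decide +kernel) ?_
    refine jn 663 (by decide +kernel) ?_
    refine jn 671 (by decide +kernel) ?_
    refine jn 681 (by decide +kernel) ?_
    refine jn 693 (by decide +kernel) ?_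
    refine jn 709 (by decide +kernel) ?_
    refine jn 724 (by decide +kernel) ?_
    refine jn 745 (by decide +kernel) ?_
    refine jn 775 (by decide +kernel) ?_
    refine jn 796 (by decide +kernel) ?_
    refine jn 822 (by decide +kernel) ?_
    refine jn 835 (by decide +kernel) ?_
    refine jn 860 (by decide +kernel) ?_
    refine jn 874 (by decide +kernel) ?_
    refine jn 888 (by decide +kernel) ?_
    refine jn 908 (by decide +kernel) ?_
    refine jn 928 (by decide +kernel) ?_
    refine jn 948 (by decide +kernel) ?_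
    refine jn 975 (by decide +kernel) ?_
    refine jn 997 (by decide +kernel) ?_
    exact je (by decide +kernel)
  · refine fin 3480 924 T119_2 ?_
    refine jn 7 (by decide +kernel) ?_
    refine jn 12 (by decide +kernel) ?_
    refine jn 16 (by decide +kernel) ?_
    refine jn 19 (by decide +kernel) ?_
    refine jn 24 (by decide +kernel) ?_
    refine jn 28 (by decide +kernel) ?_
    refine jn 32 (by decide +kernel) ?_
    refine jn 36 (by decide +kernel) ?_
    refine jn 40 (by decide +kernel) ?_
    refine jn 44 (by decide +kernel) ?_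
    refine jn 47 (by decide +kernel) ?_
    refine jn 52 (by decide +kernel) ?_
    refine jn 55 (by decide +kernel) ?_
    refine jn 88 (by decide +kernel) ?_
    refine jn 96 (by decide +kernel) ?_
    refine jn 104 (by decide +kernel) ?_
    refine jn 110 (by decide +kernel) ?_
    refine jn 116 (by decide +kernel) ?_
    refine jn 123 (by decide +kernel) ?_
    refine jn 128 (by decide +kernel) ?_
    refine jn 139 (by decide +kernel) ?_
    refine jn 151 (by decide +kernel) ?_
    refine jn 176 (by decide +kernel) ?_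
    refine jn 190 (by decide +kernel) ?_
    refine jn 212 (by decide +kernel) ?_
    refine jn 234 (by decide +kernel) ?_
    refine jn 256 (by decide +kernel) ?_
    refine jn 279 (by decide +kernel) ?_
    refine jn 293 (by decide +kernel) ?_
    refine jn 304 (by decide +kernel) ?_
    refine jn 308 (by decide +kernel) ?_
    refine jn 316 (by decide +kernel) ?_
    refine jn 320 (by decide +kernel) ?_
    refine jn 328 (by decide +kernel) ?_
    refine jn 333 (by decide +kernel) ?_
    refine jn 340 (by decide +kernel) ?_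
    refine jn 348 (by decide +kernel) ?_
    refine jn 357 (by decide +kernel) ?_
    refine jn 359 (by decide +kernel) ?_
    refine jn 380 (by decide +kernel) ?_
    refine jn 394 (by decide +kernel) ?_
    refine jn 416 (by decide +kernel) ?_
    refine jn 429 (by decide +kernel) ?_
    refine jn 443 (by decide +kernel) ?_
    refine jn 459 (by decide +kernel) ?_
    refine jn 491 (by decide +kernel) ?_
    refine jn 506 (by decide +kernel) ?_
    refine jn 514 (by decide +kernel) ?_
    refine jn 535 (by decide +kernel) ?_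
    refine jn 552 (by decide +kernel) ?_
    refine jn 564 (by decide +kernel) ?_
    refine jn 584 (by decide +kernel) ?_
    refine jn 601 (by decide +kernel) ?_
    refine jn 632 (by decide +kernel) ?_
    refine jn 639 (by decide +kernel) ?_
    refine jn 641 (by decide +kernel) ?_
    refine jn 644 (by decide +kernel) ?_
    refine jn 646 (by decide +kernel) ?_
    refine jn 648 (by decide +kernel) ?_
    refine jn 651 (by decide +kernel) ?_
    refine jn 656 (by decide +kernel) ?_
    refine jn 661 (by decide +kernel) ?_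
    refine jn 666 (by decide +kernel) ?_
    refine jn 670 (by decide +kernel) ?_
    refine jn 674 (by decide +kernel) ?_
    refine jn 687 (by decide +kernel) ?_
    refine jn 696 (by decide +kernel) ?_
    refine jn 705 (by decide +kernel) ?_
    refine jn 734 (by decide +kernel) ?_
    refine jn 741 (by decide +kernel) ?_
    refine jn 754 (by decide +kernel) ?_
    refine jn 767 (by decide +kernel) ?_
    refine jn 792 (by decide +kernel) ?_
    refine jn 803 (by decide +kernel) ?_
    refine jn 807 (by decide +kernel) ?_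
    refine jn 815 (by decide +kernel) ?_
    refine jn 821 (by decide +kernel) ?_
    refine jn 822 (by decide +kernel) ?_
    refine jn 831 (by decide +kernel) ?_
    refine jn 844 (by decide +kernel) ?_
    refine jn 847 (by decide +kernel) ?_
    refine jn 849 (by decide +kernel) ?_
    refine jn 851 (by decide +kernel) ?_
    refine jn 853 (by decide +kernel) ?_
    refine jn 861 (by decide +kernel) ?_
    refine jn 866 (by decide +kernel) ?_
    refine jn 867 (by decide +kernel) ?_
    refine jn 868 (by decide +kernel) ?_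
    refine jn 869 (by decide +kernel) ?_
    refine jn 870 (by decide +kernel) ?_
    refine jn 871 (by decide +kernel) ?_
    refine jn 872 (by decide +kernel) ?_
    refine jn 873 (by decide +kernel) ?_
    refine jn 874 (by decide +kernel) ?_
    refine jn 875 (by decide +kernel) ?_
    refine jn 883 (by decide +kernel) ?_
    refine jn 897 (by decide +kernel) ?_
    refine jn 901 (by decide +kernel) ?_
    refine jn 906 (by decide +kernel) ?_
    refine jn 913 (by decide +kernel) ?_
    refine jn 920 (by decide +kernel) ?_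
    exact je (by decide +kernel)

end Pool.Agent.MP_2339ce_nt.NR
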