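import Pool.Agent.MP_2339ce_nt.Q2.NC.L4
import Pool.Agent.MP_2339ce_nt.Q2.NC.L8
import Pool.Agent.MP_2339ce_nt.Q2.NC.L10
import Pool.Agent.MP_2339ce_nt.Q2.CkI

/-! Block NR: runs. -/

set_option autoImplicit false
set_option maxRecDepth 100000

noncomputable section

namespace Pool.Agent.MP_2339ce_nt.NR

open Q2.Top

def T122_0 : Ph :=
  (.na 744 134 (.na 562 50 (.na 409 18 (.na 233 6 (.na 1 2 .ne (.na 232 3 (.nx 231 3329023 (.nr 230
  623489 (.nx 3 179 (.nr 2 26 (.lg 0 true 1 41 41 5 0 720) (.l1 .sk)) (.nx 4 180 (.l1 .sk) (.nx 95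
  32769 (.nr 81 131073 (.lg 0 false 77 97 103 13 0 720720) (.nx 94 257 (.lg 0 false 13 73 73 9 0
  1872) .out)) (.nr 229 92683 (.nr 207 65537 (.nx 188 1664512 (.nx 166 832257 (.nr 116 450 (.lg 0
  true 21 89 89 11 0 5040) (.nx 165 416129 (.nr 129 2437 (.lg 2 true 13 89 97 9 82764 9360) (.nx
  164 330282 (.nr 142 27556 (.lg 2 false 13 101 103 9 13560 720720) (.nx 163 165142 (.lg 2 false 21
  101 103 11 32129 720720) .out)) .out)) .out)) (.nr 187 129 (.lg 0 true 21 79 79 11 0 1008) .out))
  (.nr 206 9 (.lg 0 true 18 67 67 9 0 144) .out)) (.nx 228 104033 (.lg 2 true 21 101 107 11 45401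
  720720) .out)) .out)))) .out) .out) .ne)) (.na 357 10 (.na 356 7 (.nx 355 13316087 (.nr 354
  623489 (.nx 237 205 (.nx 235 179 (.nr 234 65 (.lg 0 true 1 31 31 7 0 144) (.l1 .sk)) (.nx 236 180
  (.l1 .sk) (.l1 (.ls 83 41 1607)))) (.nr 353 370729 (.nx 256 28089 (.nr 248 131073 (.lg 0 false 11
  101 107 17 0 720720) (.nx 255 1627 (.lg 0 false 7 83 89 13 0 5040) .out)) (.nr 352 155873 (.nx
  317 832257 (.nr 267 1026 (.lg 0 true 11 83 89 17 0 1584) (.nx 316 660563 (.nx 279 52015 (.nr 278
  131073 (.lg 1 false 11 101 107 17 74861 720720) .out) (.nx 290 73561 (.lg 1 false 11 97 103 17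
  48065 720720) (.nx 301 131073 (.lg 1 true 11 101 107 17 33987 720720) (.nr 315 65537 (.nr 308
  8201 (.nr 306 4102 (.lg 2 true 5 83 89 13 57623 720) (.lg 2 true 2 83 83 7 14413 144)) (.lg 2
  false 7 89 97 13 8033 5040)) .out)))) .out)) (.nr 351 129 (.nx 324 1664512 (.lg 0 true 7 73 73 13
  0 1008) (.nr 350 28 (.lg 0 true 26 79 79 13 0 1872) .out)) .out)) .out)) .out)) .out) .out) .ne)
  (.na 408 12 (.nx 407 1664512 (.nr 406 623489 (.nx 359 179 (.nr 358 113 (.lg 0 true 1 31 31 11 0
  720) (.l1 .sk)) (.nx 360 180 (.l1 .sk) (.nr 398 131073 (.nx 390 524289 (.nx 367 35390 (.lg 0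
  false 7 103 103 13 0 720720) (.nr 374 1621 (.lg 0 true 7 83 83 13 0 5040) (.nx 389 416129 (.nx
  381 65537 (.lg 1 false 7 101 103 13 59417 720720) (.nr 388 110219 (.lg 2 false 7 101 103 13 26987
  720720) .out)) .out))) (.nr 397 65 (.lg 0 true 7 71 71 13 0 5040) .out)) (.nx 405 1292 (.lg 0
  false 7 83 83 13 0 5040) .out)))) .out) .out) .ne))) (.na 515 32 (.na 457 26 (.na 456 23 (.nx 455
  1664512 (.nr 454 1048577 (.nr 410 13 .s1 (.nx 413 180 (.nx 412 179 (.nr 411 218 (.lg 0 true 1 23
  23 13 0 720) (.l1 .sk)) (.l1 .sk)) (.nx 414 257 (.l1 (.ls 79 41 1872)) (.nr 453 623489 (.nr 445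
  220437 (.nr 437 92683 (.nx 421 41287 (.lg 0 false 7 83 89 19 0 5040) (.nr 436 77937 (.nr 428 636
  (.lg 0 true 7 73 73 19 0 1008) (.nx 435 262145 (.lg 2 false 7 83 89 19 36890 5040) .out)) .out))
  (.nx 444 13005 (.lg 0 false 7 83 89 19 0 5040) .out)) (.nx 452 1627 (.lg 0 false 7 73 79 19 0
  5040) .out)) .out)))) .out) .out) .ne) (.na 488 30 (.nx 487 1664512 (.nr 486 1048577 (.nr 458 23
  .s1 (.nx 461 180 (.nx 460 179 (.nr 459 284 (.lg 0 true 1 23 23 11 0 1872) (.l1 .sk)) (.l1 .sk))
  (.nx 474 41287 (.nx 462 257 (.l1 (.ls 79 41 1297)) (.nr 473 311745 (.nr 469 110219 (.lg 0 false 7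
  89 89 19 0 65520) (.nx 472 8193 (.lg 0 false 3 83 83 11 0 1872) .out)) .out)) (.nr 485 65537 (.nr
  481 513 (.lg 0 true 7 73 73 19 0 13104) (.nx 484 165142 (.lg 2 false 3 89 89 11 28812 9360)
  .out)) .out)))) .out) .out) (.nx 514 1664512 (.nr 513 1048577 (.nr 489 27 .s1 (.nx 493 257 (.nx
  491 179 (.nr 490 303 (.lg 0 true 1 29 29 19 0 720) (.l1 .sk)) (.nx 492 180 (.l1 .sk) (.l1 (.ls 83
  43 1124)))) (.nr 512 311745 (.nx 503 41287 (.nr 500 110219 (.lg 0 false 7 79 89 31 0 5040) (.nx
  502 8193 (.lg 0 false 2 83 89 23 0 720) .out)) (.nr 511 65537 (.nr 508 1307 (.nx 504 208065 (.lg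
  0 false 1 79 79 19 0 720) (.nr 507 217 (.lg 0 true 3 71 71 29 0 720) .out)) (.nx 510 165142 (.lg
  2 false 2 83 89 23 25500 720) .out)) .out)) .out))) .out) .out))) (.na 539 38 (.na 516 34 .ne
  (.nx 538 1664512 (.nr 537 881745 (.nr 517 32 .s1 (.nx 527 20644 (.nx 519 179 (.nr 518 360 (.lg 0
  false 1 23 23 13 0 144) (.l1 .sk)) (.nx 520 180 (.l1 .sk) (.nx 521 257 (.l1 (.ls 79 37 992)) (.nr
  526 440873 (.lg 0 false 5 89 97 13 0 720) .out)))) (.nr 536 46342 (.nr 532 257 (.lg 0 true 5 71
  71 13 0 720) (.nx 535 104033 (.lg 2 false 3 83 83 13 36230 144) .out)) .out))) .out) .out)) (.na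
  561 46 (.nx 560 1664512 (.nr 559 881745 (.nr 540 36 .s1 (.nx 543 180 (.nx 542 179 (.nr 541 436
  (.lg 0 false 1 23 23 13 0 720) (.l1 .sk)) (.l1 .sk)) (.nx 544 257 (.l1 (.ls 73 37 888)) (.nr 558
  440873 (.nx 551 20644 (.lg 0 false 7 89 97 17 0 5040) (.nr 557 46342 (.nr 554 257 (.lg 0 true 3
  67 67 13 0 144) (.nx 556 104033 (.lg 2 true 2 83 83 13 36230 720) .out)) .out)) .out)))) .out)
  .out) .ne)))) (.na 663 91 (.na 622 64 (.na 594 58 (.na 577 54 (.nx 576 1664512 (.nr 575 881745
  (.nr 563 49 .s1 (.nx 564 257 (.l1 (.ls 73 41 1323)) (.nr 574 623489 (.nx 567 20644 (.lg 0 false 3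
  89 89 19 0 720) (.nr 573 46342 (.nr 570 257 (.lg 0 true 3 61 61 19 0 720) (.nx 572 104033 (.lg 2
  false 2 79 79 19 36230 720) .out)) .out)) .out))) .out) .out) (.nx 593 1664512 (.nr 592 881745
  (.nr 578 53 .s1 (.nx 579 257 (.l1 (.ls 71 41 1226)) (.nr 591 623489 (.nx 584 20644 (.lg 0 false 5
  83 83 23 0 720) (.nr 590 46342 (.nr 587 257 (.lg 0 true 3 61 61 23 0 144) (.nx 589 104033 (.lg 2
  false 2 79 79 19 36230 720) .out)) .out)) .out))) .out) .out)) (.na 608 62 (.nx 607 1664512 (.nr
  606 881745 (.nr 595 57 .s1 (.nx 600 20644 (.nx 596 257 (.l1 (.ls 73 41 1141)) (.nr 599 623489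
  (.lg 0 false 3 89 89 19 0 720) .out)) (.nr 605 46342 (.nr 602 257 (.lg 0 true 2 67 67 13 0 144)
  (.nx 604 104033 (.lg 2 false 2 79 79 13 36230 144) .out)) .out))) .out) .out) (.nx 621 1664512
  (.nr 620 881745 (.nr 609 61 .s1 (.nx 610 257 (.l1 (.ls 73 37 1068)) (.nr 619 623489 (.nx 613
  20644 (.lg 0 false 3 89 89 19 0 720) (.nr 618 46342 (.nr 615 257 (.lg 0 true 2 67 67 17 0 144)
  (.nx 617 104033 (.lg 2 false 2 79 79 17 36230 144) .out)) .out)) .out))) .out) .out))) (.na 636
  86 (.na 623 78 .ne (.nx 635 1664512 (.nr 634 524289 (.nr 624 77 .s1 (.nx 627 180 (.nx 626 179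
  (.nr 625 815 (.l1 (.ls 31 37 413)) (.l1 .sk)) (.l1 .sk)) (.nx 629 20644 (.lg 0 false 2 97 97 31 0
  9360) (.nr 633 32769 (.nr 631 513 (.lg 0 true 2 71 71 31 0 1872) (.nx 632 104033 (.lg 2 true 1 79
  79 29 25570 1872) .out)) .out)))) .out) .out)) (.na 650 90 (.nx 649 1664512 (.nr 648 524289 (.nr
  637 85 .s1 (.nx 639 179 (.nr 638 853 (.l1 (.ls 19 29 375)) (.l1 .sk)) (.nx 640 180 (.l1 .sk) (.nx
  643 20644 (.lg 0 false 3 83 83 19 0 144) (.nr 647 32769 (.nr 645 513 (.lg 0 true 2 67 67 19 0
  144) (.nx 646 104033 (.lg 2 true 1 73 73 13 25570 144) .out)) .out))))) .out) .out) (.nx 662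
  1664512 (.nr 661 524289 (.nr 651 90 .s1 (.nx 656 20644 (.nx 653 179 (.nr 652 863 (.l1 (.ls 29 37
  359)) (.l1 .sk)) (.nx 654 180 (.l1 .sk) (.lg 0 true 2 83 83 31 0 720))) (.nr 660 32769 (.nx 657
  104033 (.lg 0 false 1 79 79 29 0 720) (.nr 659 513 (.lg 0 true 2 71 71 31 0 720) .out)) .out)))
  .out) .out)))) (.na 705 118 (.na 679 102 (.na 664 94 .ne (.nx 678 1664512 (.nr 677 1048577 (.nr
  665 94 .s1 (.nx 674 104033 (.nx 667 179 (.nr 666 967 (.l1 (.ls 19 29 343)) (.l1 .sk)) (.nx 668
  180 (.l1 .sk) (.nr 670 65537 (.lg 0 false 2 83 83 19 0 720) (.nx 673 13005 (.lg 0 false 3 83 83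
  19 0 144) .out)))) (.nr 676 513 (.lg 0 true 2 61 61 19 0 144) .out))) .out) .out)) (.na 692 114
  (.nx 691 1664512 (.nr 690 1048577 (.nr 680 102 .s1 (.nx 687 104033 (.nx 685 13005 (.nx 682 179
  (.nr 681 1080 (.l1 (.ls 16 37 317)) (.l1 .sk)) (.nx 683 180 (.l1 .sk) (.lg 0 false 2 89 89 31 0
  720))) (.nr 686 65537 (.lg 0 false 1 89 89 29 0 720) .out)) (.nr 689 513 (.lg 0 true 2 67 67 31 0
  144) .out))) .out) .out) (.nx 704 1664512 (.nr 703 1048577 (.nr 693 114 .s1 (.nx 700 104033 (.nx
  695 179 (.nr 694 1118 (.l1 (.ls 17 37 284)) (.l1 .sk)) (.nx 696 180 (.l1 .sk) (.nx 698 13005 (.lg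
  0 false 2 89 89 31 0 720) (.nr 699 65537 (.lg 0 false 1 89 89 31 0 720) .out)))) (.nr 702 513
  (.lg 0 true 2 67 67 31 0 144) .out))) .out) .out))) (.na 732 128 (.na 719 122 (.nx 718 1664512
  (.nr 717 1048577 (.nr 706 118 .s1 (.nx 712 20644 (.nx 708 179 (.nr 707 1156 (.l1 (.ls 19 29 274))
  (.l1 .sk)) (.nx 709 180 (.l1 .sk) (.lg 0 false 3 83 83 23 0 144))) (.nr 716 32769 (.nr 714 513
  (.lg 0 true 2 61 61 19 0 144) (.nx 715 104033 (.lg 2 true 1 71 71 19 25570 144) .out)) .out)))
  .out) .out) (.nx 731 1664512 (.nr 730 1048577 (.nr 720 122 .s1 (.nx 726 20644 (.nx 722 179 (.nr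
  721 1213 (.l1 (.ls 19 29 265)) (.l1 .sk)) (.nx 723 180 (.l1 .sk) (.lg 0 false 3 83 83 23 0 720)))
  (.nr 729 32769 (.nr 727 513 (.lg 0 false 1 71 71 19 0 720) (.nx 728 104033 (.lg 2 true 1 71 71 19
  25570 720) .out)) .out))) .out) .out)) (.na 733 130 .ne (.nx 743 832257 (.nr 742 1048577 (.nr 734
  130 .s1 (.nx 735 257 (.l1 (.ls 73 37 511)) (.nr 741 741457 (.nx 737 13005 (.lg 0 false 2 83 83 31
  0 9360) (.nr 740 16385 (.nx 738 104033 (.lg 0 true 1 73 73 29 0 9360) (.nr 739 1025 (.lg 0 true 1
  71 71 29 0 9360) .out)) .out)) .out))) .out) .out)))))) (.na 866 257 (.na 812 182 (.na 775 166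
  (.na 755 150 (.nx 754 832257 (.nr 753 1048577 (.nr 745 134 .s1 (.nx 746 257 (.l1 (.ls 61 29 495))
  (.nr 752 741457 (.nr 749 16385 (.lg 0 true 3 79 79 23 0 144) (.nx 751 13005 (.lg 0 false 2 79 79
  23 0 144) .out)) .out))) .out) .out) (.na 766 162 (.nx 765 832257 (.nr 764 1048577 (.nr 756 150
  .s1 (.nx 762 104033 (.nx 757 257 (.l1 (.ls 71 37 443)) (.nr 761 741457 (.nx 759 13005 (.lg 0
  false 2 79 79 31 0 720) (.nr 760 16385 (.lg 0 true 1 71 71 31 0 720) .out)) .out)) (.nr 763 1025
  (.lg 0 true 1 61 61 31 0 720) .out))) .out) .out) (.nx 774 832257 (.nr 773 1048577 (.nr 767 162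
  .s1 (.nx 768 257 (.l1 (.ls 67 31 410)) (.nr 772 741457 (.nr 770 16385 (.lg 0 true 2 73 73 29 0
  144) (.nx 771 13005 (.lg 0 true 1 79 79 23 0 720) .out)) .out))) .out) .out))) (.na 794 174 (.na
  784 170 (.nx 783 832257 (.nr 782 1048577 (.nr 776 166 .s1 (.nx 777 257 (.l1 (.ls 67 29 400)) (.nr
  781 741457 (.nr 779 16385 (.lg 0 true 2 73 73 23 0 144) (.nx 780 13005 (.lg 0 true 1 83 83 19 0
  720) .out)) .out))) .out) .out) (.nx 793 832257 (.nr 792 1048577 (.nr 785 170 .s1 (.nx 786 257
  (.l1 (.ls 73 37 391)) (.nr 791 741457 (.nx 787 13005 (.lg 0 true 1 83 83 31 0 720) (.nr 790 16385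
  (.nx 788 104033 (.lg 0 true 1 73 73 31 0 720) (.nr 789 1025 (.lg 0 true 1 67 67 31 0 720) .out))
  .out)) .out))) .out) .out)) (.na 804 178 (.nx 803 832257 (.nr 802 1048577 (.nr 795 174 .s1 (.nx
  796 257 (.l1 (.ls 73 37 382)) (.nr 801 741457 (.nx 797 13005 (.lg 0 false 1 83 83 23 0 144) (.nr
  800 16385 (.nx 798 104033 (.lg 0 true 1 73 73 23 0 144) (.nr 799 1025 (.lg 0 true 1 67 67 23 0
  144) .out)) .out)) .out))) .out) .out) (.nx 811 832257 (.nr 810 1048577 (.nr 805 178 .s1 (.nx 806
  257 (.l1 (.ls 61 29 374)) (.nr 809 741457 (.nr 807 16385 (.lg 0 false 1 79 79 19 0 720) (.nx 808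
  13005 (.lg 0 true 1 73 73 19 0 144) .out)) .out))) .out) .out)))) (.na 841 214 (.na 823 190 (.na
  813 186 .ne (.nx 822 832257 (.nr 821 1048577 (.nr 814 186 .s1 (.nx 817 13005 (.nx 815 257 (.l1
  (.ls 71 37 358)) (.nr 816 741457 (.lg 0 false 1 79 79 29 0 144) .out)) (.nr 820 16385 (.nx 818
  104033 (.lg 0 true 1 71 71 29 0 144) (.nr 819 1025 (.lg 0 true 1 67 67 29 0 144) .out)) .out)))
  .out) .out)) (.na 833 202 (.nx 832 832257 (.nr 831 1048577 (.nr 824 190 .s1 (.nx 825 257 (.l1
  (.ls 73 37 350)) (.nr 830 741457 (.nx 826 13005 (.lg 0 true 1 83 83 31 0 720) (.nr 829 16385 (.nx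
  827 104033 (.lg 0 true 1 73 73 31 0 720) (.nr 828 1025 (.lg 0 true 1 67 67 31 0 720) .out))
  .out)) .out))) .out) .out) (.nx 840 832257 (.nr 839 1048577 (.nr 834 202 .s1 (.nx 835 257 (.l1
  (.ls 67 29 329)) (.nr 838 741457 (.nr 836 16385 (.lg 0 false 1 79 79 23 0 720) (.nx 837 13005
  (.lg 0 true 1 73 73 23 0 144) .out)) .out))) .out) .out))) (.na 857 250 (.na 849 234 (.nx 848
  832257 (.nr 847 1048577 (.nr 842 214 .s1 (.nx 843 257 (.l1 (.ls 61 29 311)) (.nr 846 741457 (.nr
  844 16385 (.lg 0 false 1 73 73 23 0 144) (.nx 845 13005 (.lg 0 true 1 73 73 23 0 720) .out))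
  .out))) .out) .out) (.nx 856 832257 (.nr 855 1048577 (.nr 850 234 .s1 (.nx 851 257 (.l1 (.ls 71
  37 285)) (.nr 854 741457 (.nr 852 16385 (.lg 0 true 1 79 79 37 0 1872) (.nx 853 13005 (.lg 0
  false 1 79 79 37 0 1872) .out)) .out))) .out) .out)) (.na 865 256 (.nx 864 832257 (.nr 863
  1048577 (.nr 858 250 .s1 (.nx 859 257 (.l1 (.ls 61 31 267)) (.nr 862 741457 (.nr 860 16385 (.lg 0
  false 1 73 73 29 0 720) (.nx 861 13005 (.lg 0 true 1 73 73 29 0 720) .out)) .out))) .out) .out)
  .ne)))) (.na 8146 5793 (.na 3790 1449 (.na 2334 725 (.na 1663 512 (.nx 1662 832257 (.nr 1661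
  1482912 (.nr 867 257 .s1 (.nx 1123 179 (.nr 1122 4851 (.la (.ls 41 19 129)) (.l1 .sk)) (.nx 1124
  180 (.l1 .sk) (.nx 1149 205 (.lx (.lp 79 17 129)) (.nr 1660 1048577 (.nr 1404 32769 (.la (.lg 0
  true 1 79 79 23 0)) (.nx 1659 10323 (.la (.lg 0 false 1 71 71 23 0)) .out)) .out))))) .out) .out)
  (.nx 2333 832257 (.nr 2332 1482912 (.nr 1664 512 .s1 (.nx 1904 205 (.nx 1878 179 (.nr 1877 6869
  (.la (.ls 37 19 182)) (.l1 .sk)) (.nx 1879 180 (.l1 .sk) (.lx (.lp 41 0 182)))) (.nr 2331 1048577
  (.nx 2117 22297 (.la (.lg 0 false 1 71 71 29 0)) (.nr 2330 32769 (.la (.lg 2 true 1 61 61 29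
  145483)) .out)) .out))) .out) .out)) (.na 2936 1024 (.nx 2935 10323 (.nr 2934 1048577 (.nr 2335
  725 .s1 (.nx 2634 2049 (.la (.ls 61 41 5793)) (.nr 2933 16385 (.la (.lg 0 true 1 37 37 29 0))
  .out))) .out) .out) (.nx 3789 10323 (.nr 3788 1048577 (.nr 2937 1024 .s1 (.nx 3362 2582 (.la (.ls
  61 41 6513)) (.nr 3787 16385 (.la (.lg 0 false 1 31 31 31 0)) .out))) .out) .out))) (.na 5244
  2897 (.na 4392 2048 (.nx 4391 2582 (.nr 4390 524289 (.nr 3791 1449 .s1 (.la (.ls 59 37 4603)))
  .out) .out) (.nx 5243 3252 (.nr 5242 524289 (.nr 4393 2048 .s1 (.la (.ls 59 41 5166))) .out)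
  .out)) (.na 6446 4096 (.nx 6445 2582 (.nr 6444 262145 (.nr 5245 2897 .s1 (.la (.ls 53 37 2304)))
  .out) .out) (.nx 8145 2582 (.nr 8144 262145 (.nr 6447 4096 .s1 (.la (.ls 47 37 1630))) .out)
  .out)))) (.na 14345 65536 (.na 12022 16384 (.na 10727 8192 (.nx 10726 1292 (.nr 10725 65537 (.nr
  8147 5793 .s1 (.nx 8325 179 (.lx (.lp 41 37 2049)) (.nx 8326 180 (.l1 .sk) (.la (.ls 37 37
  2049))))) .out) .out) (.nx 12021 1292 (.nr 12020 131073 (.nr 10728 8192 .s1 (.nx 10932 205 (.lx
  (.lp 16 0 4097)) (.nr 12019 65537 (.lx (.lp 41 41 4097)) .out))) .out) .out)) (.na 13317 32768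
  (.nx 13316 1292 (.nr 13315 262145 (.nr 12023 16384 .s1 (.nx 12344 322 (.lx (.lp 16 0 8193)) (.nr
  13314 131073 (.lx (.lp 41 43 8193)) .out))) .out) .out) (.nx 14344 1025 (.nr 14343 262145 (.nr
  13318 32768 .s1 (.nx 13522 205 (.lx (.lp 16 0 16385)) (.nr 14342 131073 (.lx (.lp 37 47 16385))
  .out))) .out) .out))) (.na 15375 262144 (.na 15373 131072 (.nx 15372 1025 (.nr 15371 262145 (.nr
  14346 65536 .s1 (.nx 14669 324 (.lx (.lp 16 0 32769)) (.nr 15370 131073 (.lx (.lp 37 53 32769))
  .out))) .out) .out) (.nx 15374 324 (.l1 .sk) .out)) (.na 15377 524289 (.nx 15376 205 (.l1 .sk)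
  .out) .out))))))

def T122_1 : Ph :=
  (.na 554 2 (.nx 553 3329023 (.nr 552 881745 (.nx 3 248 (.nx 2 247 (.nr 1 16 (.lg 0 false 1 47 47
  5 0 5928) (.l1 .sk)) (.l1 .sk)) (.nx 166 41287 (.nr 80 185365 (.lg 0 false 77 107 113 16 0
  13693680) (.nx 165 26009 (.nx 108 408 (.lg 0 false 28 89 89 11 0 414960) (.nx 109 6501 .out (.nr
  164 220437 (.nx 130 10323 (.lg 0 false 21 97 103 11 0 1244880) (.nx 131 13003 .out (.lg 0 false
  33 101 107 13 0 1956240))) .out))) .out)) (.nr 551 155873 (.nr 316 1724 (.nx 271 1664512 (.nr 243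
  942 (.lg 0 true 77 101 107 16 0 13693680) (.lg 2 true 28 89 101 11 218225 414960)) (.nr 315 154
  (.lg 0 true 44 89 97 16 0 652080) .out)) (.nx 550 1321124 (.nx 393 65537 (.lg 1 false 77 103 109
  16 115350 13693680) (.nr 549 110219 (.nr 485 65537 (.nr 421 4872 (.lg 2 true 28 97 103 11 94640
  414960) (.nx 484 1048577 (.lg 2 false 63 103 109 16 30620 13693680) .out)) (.nx 548 330282 (.lg 2
  true 63 103 109 16 51418 13693680) .out)) .out)) .out)) .out))) .out) .out) (.na 984 3 (.nx 983
  3329023 (.nr 982 1763489 (.nx 659 39834 (.nx 556 247 (.nr 555 30 (.lg 0 true 1 43 43 5 0 11856)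
  (.l1 .sk)) (.nx 557 248 (.l1 .sk) (.nr 612 262145 (.lg 0 false 55 103 109 13 0 13693680) (.nx 642
  408 (.lg 0 false 30 83 89 11 0 177840) (.nx 643 26007 .out (.nr 658 311745 (.lg 0 false 15 101
  103 9 0 1244880) .out)))))) (.nr 981 311745 (.nr 757 3446 (.nx 726 1321124 (.nr 714 941 (.lg 0
  true 55 97 101 13 0 1956240) (.nx 725 1048577 (.lg 2 true 11 101 101 9 137619 130416) .out)) (.nr
  756 154 (.lg 0 true 30 89 89 11 0 177840) .out)) (.nx 980 832257 (.nx 812 52017 (.lg 1 false 55
  101 109 13 238924 13693680) (.nr 979 262145 (.nx 867 82572 (.lg 1 false 55 101 109 13 153877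
  13693680) (.nr 978 220437 (.nx 922 165142 (.lg 1 true 55 103 109 13 81528 13693680) (.nr 977
  155873 (.lg 2 false 55 101 109 13 29827 13693680) .out)) .out)) .out)) .out)) .out)) .out) .out)
  .ne))

def T122_2 : Ph :=
  (.na 330 6 (.na 211 3 (.na 126 2 (.nx 125 660563 (.nr 124 1482912 (.nx 2 32 (.nr 1 6 (.lg 0 true
  1 29 29 5 0 720) (.l1 .sk)) (.nx 3 33 (.l1 .sk) (.nx 97 104033 (.nx 57 1898 (.nr 16 38969 (.lg 0
  true 13 89 89 9 0 9360) (.nx 56 205 (.nr 29 110219 (.lg 0 false 13 83 83 9 0 9360) (.nx 55 103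
  (.lg 0 false 26 83 83 11 0 9360) .out)) .out)) (.nr 96 16385 (.nr 83 331 (.lg 0 true 26 79 79 11
  0 1872) (.lg 2 false 13 97 101 9 5029 65520)) .out)) (.nr 123 78 (.lg 0 true 26 79 79 11 0 1872)
  .out)))) .out) .out) (.nx 210 660563 (.nr 209 623489 (.nx 129 33 (.nx 128 32 (.nr 127 11 (.lg 0
  true 1 19 19 5 0 144) (.l1 .sk)) (.l1 .sk)) (.nr 193 131073 (.nx 177 104033 (.nr 166 27556 (.nx
  144 4876 (.lg 0 false 15 79 79 9 0 720) (.nr 159 613 (.lg 0 true 15 73 73 9 0 720) (.lg 2 false 7
  89 89 9 2898 1008))) (.nx 176 647 (.lg 0 false 10 79 79 9 0 720) .out)) (.nr 192 154 (.lg 0 true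
  15 73 73 9 0 720) .out)) (.nx 208 103 (.lg 0 false 15 73 73 9 0 720) .out))) .out) .out)) (.na
  271 4 (.nx 270 660563 (.nr 269 881745 (.nx 214 33 (.nx 213 32 (.nr 212 16 (.lg 0 true 1 19 19 5 0
  144) (.l1 .sk)) (.l1 .sk)) (.nx 261 330282 (.nr 245 38969 (.nx 221 4278 (.lg 0 true 7 83 83 13 0
  1008) (.nr 238 1500 (.nr 236 716 (.lg 0 true 15 79 79 16 0 720) (.lg 2 false 2 73 73 7 7381 144))
  (.lg 2 false 7 89 89 13 4669 1008))) (.nx 260 647 (.nr 252 311745 (.lg 0 false 7 83 89 13 0 1008)
  (.nx 259 103 (.lg 0 false 7 73 73 13 0 1008) .out)) .out)) (.nr 268 78 (.lg 0 true 7 73 73 13 0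
  1008) .out))) .out) .out) (.na 329 5 (.nx 328 660563 (.nr 327 1246976 (.nx 274 33 (.nx 273 32
  (.nr 272 20 (.lg 0 true 1 19 19 9 0 720) (.l1 .sk)) (.l1 .sk)) (.nx 319 330282 (.nr 303 55110
  (.nx 281 3013 (.lg 0 true 7 83 83 11 0 5040) (.nr 294 618 (.lg 0 true 13 79 79 13 0 1872) (.nx
  297 6503 (.lg 1 false 3 83 83 9 9372 720) (.nr 302 19485 (.nr 299 2458 (.lg 2 false 2 79 79 9
  8551 144) (.lg 2 false 3 83 83 9 2150 720)) .out)))) (.nx 318 647 (.nr 310 440873 (.lg 0 false 7
  89 89 11 0 5040) (.nx 317 103 (.lg 0 false 7 73 73 11 0 1008) .out)) .out)) (.nr 326 78 (.lg 0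
  true 7 73 73 11 0 1008) .out))) .out) .out) .ne))) (.na 378 8 (.na 377 7 (.nx 376 660563 (.nr 375
  220437 (.nr 331 3 .s1 (.nx 369 330282 (.nx 333 32 (.nr 332 28 (.l1 (.ls 19 29 173)) (.l1 .sk))
  (.nx 334 33 (.l1 .sk) (.nx 341 647 (.lg 0 false 7 79 79 13 0 1008) (.nr 368 77937 (.nr 353 3052
  (.nr 350 704 (.nx 343 6503 (.nr 342 162 (.lg 0 false 1 61 61 7 0 144) (.lg 2 false 1 59 59 7 643
  144)) (.lg 0 true 7 83 83 13 0 1008)) (.lg 2 false 3 71 71 13 7507 144)) (.nx 360 6503 (.lg 0
  false 7 89 101 13 0 55440) (.nr 367 27556 (.lg 2 true 7 67 67 13 2173 1008) .out))) .out)))) (.nr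
  374 78 (.lg 0 true 5 71 71 13 0 720) .out))) .out) .out) .ne) (.na 413 9 (.nx 412 660563 (.nr 411
  623489 (.nr 379 6 .s1 (.nx 382 33 (.nx 381 32 (.nr 380 36 (.lg 0 true 1 16 16 9 0 144) (.l1 .sk))
  (.l1 .sk)) (.nx 389 5700 (.nx 383 103 (.l1 (.ls 79 37 1193)) (.nr 388 131073 (.lg 0 false 5 83 83
  13 0 720) .out)) (.nr 410 110219 (.nr 399 537 (.lg 0 true 10 73 73 13 0 720) (.nx 409 330282 (.nr
  401 4577 (.lg 2 false 2 73 73 11 9841 144) (.nx 406 41287 (.lg 1 true 5 83 83 13 9905 720) (.nr
  408 38969 (.lg 2 false 2 73 73 11 1155 144) .out))) .out)) .out)))) .out) .out) (.na 449 10 (.nx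
  448 660563 (.nr 447 623489 (.nr 414 8 .s1 (.nx 418 103 (.nx 416 32 (.nr 415 40 (.l1 (.ls 17 17
  116)) (.l1 .sk)) (.nx 417 33 (.l1 .sk) (.l1 (.ls 83 31 1060)))) (.nr 446 131073 (.nr 425 217 (.lg
  0 true 7 71 71 16 0 1008) (.nx 445 41287 (.nr 428 4112 (.nx 426 513 (.lg 0 true 1 61 61 7 0 720)
  (.lg 2 false 2 67 67 16 4140 144)) (.nr 441 110219 (.lg 0 false 13 89 89 16 0 9360) (.nx 442 406
  .out (.nx 444 2582 (.lg 0 false 2 79 79 16 0 720) .out)))) .out)) .out))) .out) .out) .ne))))

theorem c122 :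
    OkQ ckI L8 179 1 1099511627776 0 34359738368 1 1099511627776 ∧
    OkQ ckI L10 247 1 4 0 34359738368 1 1099511627776 ∧
    OkQ ckI L4 32 1 11 0 34359738368 1 1099511627776 := by
  refine ⟨?_, ?_, ?_⟩
  · refine fin 72 15378 T122_0 ?_
    refine jn 11 (by decide +kernel) ?_
    refine jn 18 (by decide +kernel) ?_
    refine jn 26 (by decide +kernel) ?_
    refine jn 34 (by decide +kernel) ?_
    refine jn 43 (by decide +kernel) ?_
    refine jn 51 (by decide +kernel) ?_
    refine jn 59 (by decide +kernel) ?_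
    refine jn 67 (by decide +kernel) ?_
    refine jn 74 (by decide +kernel) ?_
    refine jn 81 (by decide +kernel) ?_
    refine jn 101 (by decide +kernel) ?_
    refine jn 110 (by decide +kernel) ?_
    refine jn 116 (by decide +kernel) ?_
    refine jn 129 (by decide +kernel) ?_
    refine jn 142 (by decide +kernel) ?_
    refine jn 163 (by decide +kernel) ?_
    refine jn 187 (by decide +kernel) ?_
    refine jn 206 (by decide +kernel) ?_
    refine jn 228 (by decide +kernel) ?_
    refine jn 237 (by decide +kernel) ?_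
    refine jn 239 (by decide +kernel) ?_
    refine jn 241 (by decide +kernel) ?_
    refine jn 242 (by decide +kernel) ?_
    refine jn 243 (by decide +kernel) ?_
    refine jn 244 (by decide +kernel) ?_
    refine jn 246 (by decide +kernel) ?_
    refine jn 248 (by decide +kernel) ?_
    refine jn 257 (by decide +kernel) ?_
    refine jn 260 (by decide +kernel) ?_
    refine jn 264 (by decide +kernel) ?_
    refine jn 267 (by decide +kernel) ?_
    refine jn 278 (by decide +kernel) ?_
    refine jn 290 (by decide +kernel) ?_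
    refine jn 301 (by decide +kernel) ?_
    refine jn 308 (by decide +kernel) ?_
    refine jn 315 (by decide +kernel) ?_
    refine jn 350 (by decide +kernel) ?_
    refine jn 362 (by decide +kernel) ?_
    refine jn 364 (by decide +kernel) ?_
    refine jn 366 (by decide +kernel) ?_
    refine jn 367 (by decide +kernel) ?_
    refine jn 371 (by decide +kernel) ?_
    refine jn 374 (by decide +kernel) ?_
    refine jn 381 (by decide +kernel) ?_
    refine jn 388 (by decide +kernel) ?_
    refine jn 397 (by decide +kernel) ?_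
    refine jn 413 (by decide +kernel) ?_
    refine jn 417 (by decide +kernel) ?_
    refine jn 421 (by decide +kernel) ?_
    refine jn 428 (by decide +kernel) ?_
    refine jn 435 (by decide +kernel) ?_
    refine jn 452 (by decide +kernel) ?_
    refine jn 466 (by decide +kernel) ?_
    refine jn 472 (by decide +kernel) ?_
    refine jn 481 (by decide +kernel) ?_
    refine jn 492 (by decide +kernel) ?_
    refine jn 493 (by decide +kernel) ?_
    refine jn 494 (by decide +kernel) ?_
    refine jn 496 (by decide +kernel) ?_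
    refine jn 498 (by decide +kernel) ?_
    refine jn 499 (by decide +kernel) ?_
    refine jn 502 (by decide +kernel) ?_
    refine jn 504 (by decide +kernel) ?_
    refine jn 507 (by decide +kernel) ?_
    refine jn 510 (by decide +kernel) ?_
    refine jn 526 (by decide +kernel) ?_
    refine jn 532 (by decide +kernel) ?_
    refine jn 544 (by decide +kernel) ?_
    refine jn 551 (by decide +kernel) ?_
    refine jn 556 (by decide +kernel) ?_
    refine jn 567 (by decide +kernel) ?_
    refine jn 572 (by decide +kernel) ?_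
    refine jn 584 (by decide +kernel) ?_
    refine jn 589 (by decide +kernel) ?_
    refine jn 602 (by decide +kernel) ?_
    refine jn 613 (by decide +kernel) ?_
    refine jn 624 (by decide +kernel) ?_
    refine jn 629 (by decide +kernel) ?_
    refine jn 631 (by decide +kernel) ?_
    refine jn 643 (by decide +kernel) ?_
    refine jn 654 (by decide +kernel) ?_
    refine jn 655 (by decide +kernel) ?_
    refine jn 656 (by decide +kernel) ?_
    refine jn 657 (by decide +kernel) ?_
    refine jn 673 (by decide +kernel) ?_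
    refine jn 685 (by decide +kernel) ?_
    refine jn 689 (by decide +kernel) ?_
    refine jn 699 (by decide +kernel) ?_
    refine jn 712 (by decide +kernel) ?_
    refine jn 726 (by decide +kernel) ?_
    refine jn 737 (by decide +kernel) ?_
    refine jn 749 (by decide +kernel) ?_
    refine jn 759 (by decide +kernel) ?_
    refine jn 770 (by decide +kernel) ?_
    refine jn 780 (by decide +kernel) ?_
    refine jn 789 (by decide +kernel) ?_
    refine jn 799 (by decide +kernel) ?_
    refine jn 816 (by decide +kernel) ?_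
    refine jn 826 (by decide +kernel) ?_
    refine jn 837 (by decide +kernel) ?_
    refine jn 852 (by decide +kernel) ?_
    refine jn 861 (by decide +kernel) ?_
    refine jn 952 (by decide +kernel) ?_
    refine jn 1012 (by decide +kernel) ?_
    refine jn 1120 (by decide +kernel) ?_
    refine jn 1150 (by decide +kernel) ?_
    refine jn 1162 (by decide +kernel) ?_
    refine jn 1174 (by decide +kernel) ?_
    refine jn 1182 (by decide +kernel) ?_
    refine jn 1194 (by decide +kernel) ?_
    refine jn 1202 (by decide +kernel) ?_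
    refine jn 1234 (by decide +kernel) ?_
    refine jn 1246 (by decide +kernel) ?_
    refine jn 1258 (by decide +kernel) ?_
    refine jn 1278 (by decide +kernel) ?_
    refine jn 1282 (by decide +kernel) ?_
    refine jn 1290 (by decide +kernel) ?_
    refine jn 1322 (by decide +kernel) ?_
    refine jn 1342 (by decide +kernel) ?_
    refine jn 1362 (by decide +kernel) ?_
    refine jn 1386 (by decide +kernel) ?_
    refine jn 1402 (by decide +kernel) ?_
    refine jn 1405 (by decide +kernel) ?_
    refine jn 1425 (by decide +kernel) ?_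
    refine jn 1437 (by decide +kernel) ?_
    refine jn 1453 (by decide +kernel) ?_
    refine jn 1485 (by decide +kernel) ?_
    refine jn 1501 (by decide +kernel) ?_
    refine jn 1529 (by decide +kernel) ?_
    refine jn 1537 (by decide +kernel) ?_
    refine jn 1545 (by decide +kernel) ?_
    refine jn 1589 (by decide +kernel) ?_
    refine jn 1616 (by decide +kernel) ?_
    refine jn 1641 (by decide +kernel) ?_
    refine jn 1657 (by decide +kernel) ?_
    refine jn 1690 (by decide +kernel) ?_
    refine jn 1794 (by decide +kernel) ?_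
    refine jn 1914 (by decide +kernel) ?_
    refine jn 1950 (by decide +kernel) ?_
    refine jn 1962 (by decide +kernel) ?_
    refine jn 1970 (by decide +kernel) ?_
    refine jn 2002 (by decide +kernel) ?_
    refine jn 2038 (by decide +kernel) ?_
    refine jn 2062 (by decide +kernel) ?_
    refine jn 2094 (by decide +kernel) ?_
    refine jn 2127 (by decide +kernel) ?_
    refine jn 2163 (by decide +kernel) ?_
    refine jn 2175 (by decide +kernel) ?_
    refine jn 2183 (by decide +kernel) ?_
    refine jn 2215 (by decide +kernel) ?_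
    refine jn 2247 (by decide +kernel) ?_
    refine jn 2255 (by decide +kernel) ?_
    refine jn 2299 (by decide +kernel) ?_
    refine jn 2327 (by decide +kernel) ?_
    refine jn 2388 (by decide +kernel) ?_
    refine jn 2456 (by decide +kernel) ?_
    refine jn 2508 (by decide +kernel) ?_
    refine jn 2608 (by decide +kernel) ?_
    refine jn 2663 (by decide +kernel) ?_
    refine jn 2719 (by decide +kernel) ?_
    refine jn 2759 (by decide +kernel) ?_
    refine jn 2799 (by decide +kernel) ?_
    refine jn 2839 (by decide +kernel) ?_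
    refine jn 2895 (by decide +kernel) ?_
    refine jn 2951 (by decide +kernel) ?_
    refine jn 3027 (by decide +kernel) ?_
    refine jn 3107 (by decide +kernel) ?_
    refine jn 3203 (by decide +kernel) ?_
    refine jn 3303 (by decide +kernel) ?_
    refine jn 3392 (by decide +kernel) ?_
    refine jn 3440 (by decide +kernel) ?_
    refine jn 3508 (by decide +kernel) ?_
    refine jn 3544 (by decide +kernel) ?_
    refine jn 3628 (by decide +kernel) ?_
    refine jn 3676 (by decide +kernel) ?_
    refine jn 3772 (by decide +kernel) ?_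
    refine jn 3836 (by decide +kernel) ?_
    refine jn 3928 (by decide +kernel) ?_
    refine jn 4048 (by decide +kernel) ?_
    refine jn 4128 (by decide +kernel) ?_
    refine jn 4252 (by decide +kernel) ?_
    refine jn 4348 (by decide +kernel) ?_
    refine jn 4471 (by decide +kernel) ?_
    refine jn 4583 (by decide +kernel) ?_
    refine jn 4667 (by decide +kernel) ?_
    refine jn 4791 (by decide +kernel) ?_
    refine jn 4895 (by decide +kernel) ?_
    refine jn 5011 (by decide +kernel) ?_
    refine jn 5163 (by decide +kernel) ?_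
    refine jn 5306 (by decide +kernel) ?_
    refine jn 5426 (by decide +kernel) ?_
    refine jn 5566 (by decide +kernel) ?_
    refine jn 5702 (by decide +kernel) ?_
    refine jn 5873 (by decide +kernel) ?_
    refine jn 6014 (by decide +kernel) ?_
    refine jn 6146 (by decide +kernel) ?_
    refine jn 6318 (by decide +kernel) ?_
    refine jn 6457 (by decide +kernel) ?_
    refine jn 6665 (by decide +kernel) ?_
    refine jn 6801 (by decide +kernel) ?_
    refine jn 6953 (by decide +kernel) ?_
    refine jn 7133 (by decide +kernel) ?_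
    refine jn 7297 (by decide +kernel) ?_
    refine jn 7465 (by decide +kernel) ?_
    refine jn 7613 (by decide +kernel) ?_
    refine jn 7749 (by decide +kernel) ?_
    refine jn 7938 (by decide +kernel) ?_
    refine jn 8117 (by decide +kernel) ?_
    refine jn 8351 (by decide +kernel) ?_
    refine jn 8607 (by decide +kernel) ?_
    refine jn 8895 (by decide +kernel) ?_
    refine jn 9163 (by decide +kernel) ?_
    refine jn 9403 (by decide +kernel) ?_
    refine jn 9699 (by decide +kernel) ?_
    refine jn 9943 (by decide +kernel) ?_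
    refine jn 10183 (by decide +kernel) ?_
    refine jn 10455 (by decide +kernel) ?_
    refine jn 10711 (by decide +kernel) ?_
    refine jn 11106 (by decide +kernel) ?_
    refine jn 11266 (by decide +kernel) ?_
    refine jn 11378 (by decide +kernel) ?_
    refine jn 11486 (by decide +kernel) ?_
    refine jn 11590 (by decide +kernel) ?_
    refine jn 11686 (by decide +kernel) ?_
    refine jn 11748 (by decide +kernel) ?_
    refine jn 11809 (by decide +kernel) ?_
    refine jn 11870 (by decide +kernel) ?_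
    refine jn 11926 (by decide +kernel) ?_
    refine jn 11981 (by decide +kernel) ?_
    refine jn 12023 (by decide +kernel) ?_
    refine jn 12507 (by decide +kernel) ?_
    refine jn 12699 (by decide +kernel) ?_
    refine jn 12843 (by decide +kernel) ?_
    refine jn 12960 (by decide +kernel) ?_
    refine jn 13072 (by decide +kernel) ?_
    refine jn 13186 (by decide +kernel) ?_
    refine jn 13276 (by decide +kernel) ?_
    refine jn 13766 (by decide +kernel) ?_
    refine jn 14032 (by decide +kernel) ?_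
    refine jn 14252 (by decide +kernel) ?_
    refine jn 14778 (by decide +kernel) ?_
    refine jn 15152 (by decide +kernel) ?_
    refine jn 15364 (by decide +kernel) ?_
    exact je (by decide +kernel)
  · refine fin 5928 985 T122_1 ?_
    refine jn 8 (by decide +kernel) ?_
    refine jn 12 (by decide +kernel) ?_
    refine jn 19 (by decide +kernel) ?_
    refine jn 25 (by decide +kernel) ?_
    refine jn 30 (by decide +kernel) ?_
    refine jn 36 (by decide +kernel) ?_
    refine jn 42 (by decide +kernel) ?_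
    refine jn 48 (by decide +kernel) ?_
    refine jn 54 (by decide +kernel) ?_
    refine jn 60 (by decide +kernel) ?_
    refine jn 65 (by decide +kernel) ?_
    refine jn 73 (by decide +kernel) ?_
    refine jn 76 (by decide +kernel) ?_
    refine jn 108 (by decide +kernel) ?_
    refine jn 130 (by decide +kernel) ?_
    refine jn 164 (by decide +kernel) ?_
    refine jn 181 (by decide +kernel) ?_
    refine jn 196 (by decide +kernel) ?_
    refine jn 212 (by decide +kernel) ?_
    refine jn 227 (by decide +kernel) ?_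
    refine jn 242 (by decide +kernel) ?_
    refine jn 243 (by decide +kernel) ?_
    refine jn 271 (by decide +kernel) ?_
    refine jn 306 (by decide +kernel) ?_
    refine jn 315 (by decide +kernel) ?_
    refine jn 332 (by decide +kernel) ?_
    refine jn 350 (by decide +kernel) ?_
    refine jn 370 (by decide +kernel) ?_
    refine jn 388 (by decide +kernel) ?_
    refine jn 393 (by decide +kernel) ?_
    refine jn 421 (by decide +kernel) ?_
    refine jn 440 (by decide +kernel) ?_
    refine jn 459 (by decide +kernel) ?_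
    refine jn 478 (by decide +kernel) ?_
    refine jn 485 (by decide +kernel) ?_
    refine jn 500 (by decide +kernel) ?_
    refine jn 515 (by decide +kernel) ?_
    refine jn 530 (by decide +kernel) ?_
    refine jn 545 (by decide +kernel) ?_
    refine jn 563 (by decide +kernel) ?_
    refine jn 570 (by decide +kernel) ?_
    refine jn 578 (by decide +kernel) ?_
    refine jn 585 (by decide +kernel) ?_
    refine jn 595 (by decide +kernel) ?_
    refine jn 603 (by decide +kernel) ?_
    refine jn 610 (by decide +kernel) ?_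
    refine jn 642 (by decide +kernel) ?_
    refine jn 668 (by decide +kernel) ?_
    refine jn 683 (by decide +kernel) ?_
    refine jn 699 (by decide +kernel) ?_
    refine jn 714 (by decide +kernel) ?_
    refine jn 726 (by decide +kernel) ?_
    refine jn 756 (by decide +kernel) ?_
    refine jn 788 (by decide +kernel) ?_
    refine jn 812 (by decide +kernel) ?_
    refine jn 840 (by decide +kernel) ?_
    refine jn 867 (by decide +kernel) ?_
    refine jn 887 (by decide +kernel) ?_
    refine jn 907 (by decide +kernel) ?_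
    refine jn 922 (by decide +kernel) ?_
    refine jn 944 (by decide +kernel) ?_
    refine jn 966 (by decide +kernel) ?_
    refine jn 977 (by decide +kernel) ?_
    exact je (by decide +kernel)
  · refine fin 144 450 T122_2 ?_
    refine jn 3 (by decide +kernel) ?_
    refine jn 4 (by decide +kernel) ?_
    refine jn 5 (by decide +kernel) ?_
    refine jn 6 (by decide +kernel) ?_
    refine jn 7 (by decide +kernel) ?_
    refine jn 8 (by decide +kernel) ?_
    refine jn 9 (by decide +kernel) ?_
    refine jn 10 (by decide +kernel) ?_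
    refine jn 11 (by decide +kernel) ?_
    refine jn 12 (by decide +kernel) ?_
    refine jn 13 (by decide +kernel) ?_
    refine jn 14 (by decide +kernel) ?_
    refine jn 15 (by decide +kernel) ?_
    refine jn 16 (by decide +kernel) ?_
    refine jn 55 (by decide +kernel) ?_
    refine jn 59 (by decide +kernel) ?_
    refine jn 61 (by decide +kernel) ?_
    refine jn 63 (by decide +kernel) ?_
    refine jn 65 (by decide +kernel) ?_
    refine jn 67 (by decide +kernel) ?_
    refine jn 69 (by decide +kernel) ?_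
    refine jn 71 (by decide +kernel) ?_
    refine jn 73 (by decide +kernel) ?_
    refine jn 75 (by decide +kernel) ?_
    refine jn 78 (by decide +kernel) ?_
    refine jn 81 (by decide +kernel) ?_
    refine jn 83 (by decide +kernel) ?_
    refine jn 92 (by decide +kernel) ?_
    refine jn 96 (by decide +kernel) ?_
    refine jn 105 (by decide +kernel) ?_
    refine jn 113 (by decide +kernel) ?_
    refine jn 122 (by decide +kernel) ?_
    refine jn 129 (by decide +kernel) ?_
    refine jn 131 (by decide +kernel) ?_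
    refine jn 133 (by decide +kernel) ?_
    refine jn 134 (by decide +kernel) ?_
    refine jn 136 (by decide +kernel) ?_
    refine jn 139 (by decide +kernel) ?_
    refine jn 140 (by decide +kernel) ?_
    refine jn 142 (by decide +kernel) ?_
    refine jn 144 (by decide +kernel) ?_
    refine jn 148 (by decide +kernel) ?_
    refine jn 152 (by decide +kernel) ?_
    refine jn 156 (by decide +kernel) ?_
    refine jn 159 (by decide +kernel) ?_
    refine jn 176 (by decide +kernel) ?_
    refine jn 186 (by decide +kernel) ?_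
    refine jn 192 (by decide +kernel) ?_
    refine jn 214 (by decide +kernel) ?_
    refine jn 215 (by decide +kernel) ?_
    refine jn 216 (by decide +kernel) ?_
    refine jn 217 (by decide +kernel) ?_
    refine jn 218 (by decide +kernel) ?_
    refine jn 219 (by decide +kernel) ?_
    refine jn 220 (by decide +kernel) ?_
    refine jn 221 (by decide +kernel) ?_
    refine jn 222 (by decide +kernel) ?_
    refine jn 223 (by decide +kernel) ?_
    refine jn 224 (by decide +kernel) ?_
    refine jn 225 (by decide +kernel) ?_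
    refine jn 226 (by decide +kernel) ?_
    refine jn 227 (by decide +kernel) ?_
    refine jn 228 (by decide +kernel) ?_
    refine jn 229 (by decide +kernel) ?_
    refine jn 230 (by decide +kernel) ?_
    refine jn 231 (by decide +kernel) ?_
    refine jn 232 (by decide +kernel) ?_
    refine jn 233 (by decide +kernel) ?_
    refine jn 234 (by decide +kernel) ?_
    refine jn 235 (by decide +kernel) ?_
    refine jn 236 (by decide +kernel) ?_
    refine jn 238 (by decide +kernel) ?_
    refine jn 243 (by decide +kernel) ?_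
    refine jn 252 (by decide +kernel) ?_
    refine jn 263 (by decide +kernel) ?_
    refine jn 268 (by decide +kernel) ?_
    refine jn 274 (by decide +kernel) ?_
    refine jn 275 (by decide +kernel) ?_
    refine jn 276 (by decide +kernel) ?_
    refine jn 277 (by decide +kernel) ?_
    refine jn 278 (by decide +kernel) ?_
    refine jn 279 (by decide +kernel) ?_
    refine jn 280 (by decide +kernel) ?_
    refine jn 281 (by decide +kernel) ?_
    refine jn 282 (by decide +kernel) ?_
    refine jn 283 (by decide +kernel) ?_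
    refine jn 284 (by decide +kernel) ?_
    refine jn 285 (by decide +kernel) ?_
    refine jn 286 (by decide +kernel) ?_
    refine jn 287 (by decide +kernel) ?_
    refine jn 288 (by decide +kernel) ?_
    refine jn 289 (by decide +kernel) ?_
    refine jn 290 (by decide +kernel) ?_
    refine jn 291 (by decide +kernel) ?_
    refine jn 292 (by decide +kernel) ?_
    refine jn 293 (by decide +kernel) ?_
    refine jn 294 (by decide +kernel) ?_
    refine jn 297 (by decide +kernel) ?_
    refine jn 299 (by decide +kernel) ?_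
    refine jn 302 (by decide +kernel) ?_
    refine jn 317 (by decide +kernel) ?_
    refine jn 325 (by decide +kernel) ?_
    refine jn 334 (by decide +kernel) ?_
    refine jn 335 (by decide +kernel) ?_
    refine jn 336 (by decide +kernel) ?_
    refine jn 338 (by decide +kernel) ?_
    refine jn 339 (by decide +kernel) ?_
    refine jn 340 (by decide +kernel) ?_
    refine jn 341 (by decide +kernel) ?_
    refine jn 342 (by decide +kernel) ?_
    refine jn 343 (by decide +kernel) ?_
    refine jn 344 (by decide +kernel) ?_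
    refine jn 346 (by decide +kernel) ?_
    refine jn 348 (by decide +kernel) ?_
    refine jn 349 (by decide +kernel) ?_
    refine jn 350 (by decide +kernel) ?_
    refine jn 351 (by decide +kernel) ?_
    refine jn 352 (by decide +kernel) ?_
    refine jn 353 (by decide +kernel) ?_
    refine jn 360 (by decide +kernel) ?_
    refine jn 361 (by decide +kernel) ?_
    refine jn 362 (by decide +kernel) ?_
    refine jn 363 (by decide +kernel) ?_
    refine jn 364 (by decide +kernel) ?_
    refine jn 365 (by decide +kernel) ?_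
    refine jn 366 (by decide +kernel) ?_
    refine jn 367 (by decide +kernel) ?_
    refine jn 374 (by decide +kernel) ?_
    refine jn 382 (by decide +kernel) ?_
    refine jn 383 (by decide +kernel) ?_
    refine jn 384 (by decide +kernel) ?_
    refine jn 385 (by decide +kernel) ?_
    refine jn 387 (by decide +kernel) ?_
    refine jn 388 (by decide +kernel) ?_
    refine jn 391 (by decide +kernel) ?_
    refine jn 393 (by decide +kernel) ?_
    refine jn 395 (by decide +kernel) ?_
    refine jn 398 (by decide +kernel) ?_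
    refine jn 399 (by decide +kernel) ?_
    refine jn 401 (by decide +kernel) ?_
    refine jn 408 (by decide +kernel) ?_
    refine jn 417 (by decide +kernel) ?_
    refine jn 418 (by decide +kernel) ?_
    refine jn 419 (by decide +kernel) ?_
    refine jn 420 (by decide +kernel) ?_
    refine jn 421 (by decide +kernel) ?_
    refine jn 422 (by decide +kernel) ?_
    refine jn 423 (by decide +kernel) ?_
    refine jn 424 (by decide +kernel) ?_
    refine jn 425 (by decide +kernel) ?_
    refine jn 426 (by decide +kernel) ?_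
    refine jn 427 (by decide +kernel) ?_
    refine jn 428 (by decide +kernel) ?_
    refine jn 429 (by decide +kernel) ?_
    refine jn 430 (by decide +kernel) ?_
    refine jn 431 (by decide +kernel) ?_
    refine jn 432 (by decide +kernel) ?_
    refine jn 433 (by decide +kernel) ?_
    refine jn 434 (by decide +kernel) ?_
    refine jn 435 (by decide +kernel) ?_
    refine jn 436 (by decide +kernel) ?_
    refine jn 437 (by decide +kernel) ?_
    refine jn 438 (by decide +kernel) ?_
    refine jn 439 (by decide +kernel) ?_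
    refine jn 440 (by decide +kernel) ?_
    refine jn 441 (by decide +kernel) ?_
    exact je (by decide +kernel)

end Pool.Agent.MP_2339ce_nt.NR
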