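import Pool.Agent.MP_2339ce_nt.Q2.NC.L6
import Pool.Agent.MP_2339ce_nt.Q2.NC.L10
import Pool.Agent.MP_2339ce_nt.Q2.CkI

/-! Block NR: runs. -/

set_option autoImplicit false
set_option maxRecDepth 100000

noncomputable section

namespace Pool.Agent.MP_2339ce_nt.NR

open Q2.Top

def T125_0 : Ph :=
  (.na 503 179 (.na 297 127 (.na 141 101 (.na 79 90 (.na 31 78 (.na 15 75 (.nx 14 1321124 (.nr 13
  524289 (.nr 1 74 .s1 (.nx 4 96 (.nx 3 95 (.nr 2 519 (.l1 (.ls 23 19 124)) (.l1 .sk)) (.l1 .sk))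
  (.nx 7 8193 (.lg 0 false 3 83 83 19 0 13680) (.nr 12 8193 (.nr 10 519 (.lg 0 true 3 71 71 19 0
  13680) (.nx 11 82572 (.lg 2 false 1 67 67 13 7558 13680) .out)) .out)))) .out) .out) (.na 16 76
  (.lg 0 false 1 0 0 16 0 24) (.nx 30 1321124 (.nr 29 524289 (.nr 17 76 .s1 (.nx 23 8193 (.nx 19 95
  (.nr 18 539 (.l1 (.ls 23 23 121)) (.l1 .sk)) (.nx 20 96 (.l1 .sk) (.lg 0 false 3 83 83 17 0
  13680))) (.nr 28 8193 (.nr 26 539 (.lg 0 true 3 67 67 17 0 13680) (.nx 27 82572 (.lg 2 true 1 61
  61 13 7277 13680) .out)) .out))) .out) .out))) (.na 57 81 (.na 44 80 (.nx 43 1321124 (.nr 42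
  524289 (.nr 32 78 .s1 (.nx 34 95 (.nr 33 553 (.l1 (.ls 37 31 118)) (.l1 .sk)) (.nx 35 96 (.l1
  .sk) (.nx 37 8193 (.lg 0 false 2 97 97 31 0 177840) (.nr 41 8193 (.nr 39 513 (.lg 0 true 2 73 73
  31 0 177840) (.nx 40 82572 (.lg 2 false 1 71 71 29 7646 177840) .out)) .out))))) .out) .out) (.nx
  56 1321124 (.nr 55 524289 (.nr 45 80 .s1 (.nx 47 95 (.nr 46 560 (.l1 (.ls 29 23 115)) (.l1 .sk))
  (.nx 48 96 (.l1 .sk) (.nx 50 8193 (.lg 0 false 2 83 83 23 0 13680) (.nr 54 8193 (.nr 52 513 (.lg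
  0 true 2 71 71 23 0 13680) (.nx 53 82572 (.lg 2 true 1 67 67 23 7646 13680) .out)) .out)))))
  .out) .out)) (.na 68 88 (.nx 67 1321124 (.nr 66 524289 (.nr 58 81 .s1 (.nx 62 8193 (.nx 60 95
  (.nr 59 609 (.l1 (.ls 17 17 114)) (.l1 .sk)) (.nx 61 96 (.l1 .sk) (.lg 0 true 1 83 83 16 0
  6840))) (.nr 65 8193 (.nr 63 609 (.lg 0 false 1 73 73 16 0 13680) (.nx 64 82572 (.lg 2 true 1 59
  59 16 6441 13680) .out)) .out))) .out) .out) (.nx 78 1321124 (.nr 77 524289 (.nr 69 88 .s1 (.nx
  72 96 (.nx 71 95 (.nr 70 622 (.l1 (.ls 37 23 105)) (.l1 .sk)) (.l1 .sk)) (.nx 75 82572 (.nx 73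
  8193 (.lg 0 false 1 97 97 29 0 150480) (.nr 74 8193 (.lg 0 true 1 83 83 29 0 150480) .out)) (.nr
  76 513 (.lg 0 true 1 79 79 29 0 150480) .out)))) .out) .out)))) (.na 105 96 (.na 90 91 (.nx 89
  1321124 (.nr 88 524289 (.nr 80 90 .s1 (.nx 83 96 (.nx 82 95 (.nr 81 629 (.l1 (.ls 23 29 103))
  (.l1 .sk)) (.l1 .sk)) (.nx 84 8193 (.lg 0 true 1 89 89 23 0 13680) (.nr 87 8193 (.nr 85 513 (.lg
  0 false 1 73 73 23 0 13680) (.nx 86 82572 (.lg 2 true 1 59 59 23 7646 13680) .out)) .out))))
  .out) .out) (.na 91 95 .ne (.nx 104 1321124 (.nr 103 524289 (.nr 92 95 .s1 (.nx 94 95 (.nr 93 664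
  (.l1 (.ls 16 17 97)) (.l1 .sk)) (.nx 95 96 (.l1 .sk) (.nx 98 8193 (.lg 0 true 3 71 71 16 0 6840)
  (.nr 102 8193 (.lg 0 false 4 73 73 17 0 13680) .out))))) .out) .out))) (.na 127 99 (.na 116 97
  (.nx 115 1321124 (.nr 114 524289 (.nr 106 96 .s1 (.nx 112 82572 (.nx 108 95 (.nr 107 671 (.l1
  (.ls 37 23 97)) (.l1 .sk)) (.nx 109 96 (.l1 .sk) (.nx 110 8193 (.lg 0 false 1 89 89 29 0 13680)
  (.nr 111 8193 (.lg 0 true 1 79 83 29 0 13680) .out)))) (.nr 113 513 (.lg 0 true 1 73 73 29 0
  13680) .out))) .out) .out) (.nx 126 1321124 (.nr 125 524289 (.nr 117 97 .s1 (.nx 119 95 (.nr 118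
  685 (.l1 (.ls 17 16 96)) (.l1 .sk)) (.nx 120 96 (.l1 .sk) (.nx 121 8193 (.lg 0 true 1 83 83 16 0
  6840) (.nr 124 8193 (.nr 122 513 (.lg 0 false 1 71 71 16 0 6840) (.nx 123 82572 (.lg 2 true 1 59
  59 16 7646 6840) .out)) .out))))) .out) .out)) (.na 140 100 (.nx 139 1321124 (.nr 138 524289 (.nr
  128 99 .s1 (.nx 131 96 (.nx 130 95 (.nr 129 691 (.l1 (.ls 31 19 94)) (.l1 .sk)) (.l1 .sk)) (.nx
  133 8193 (.lg 0 false 2 89 89 23 0 150480) (.nr 137 8193 (.nr 135 513 (.lg 0 true 2 73 73 23 0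
  150480) (.nx 136 82572 (.lg 2 false 1 61 61 19 7646 75240) .out)) .out)))) .out) .out) (.lg 0
  false 1 0 0 16 0 24))))) (.na 219 111 (.na 174 106 (.na 152 103 (.nx 151 1321124 (.nr 150 524289
  (.nr 142 101 .s1 (.nx 145 96 (.nx 144 95 (.nr 143 712 (.l1 (.ls 17 16 92)) (.l1 .sk)) (.l1 .sk))
  (.nx 146 8193 (.lg 0 true 1 83 83 16 0 13680) (.nr 149 8193 (.nr 147 513 (.lg 2 false 1 67 67 16
  621321 13680) (.nx 148 82572 (.lg 2 true 1 53 53 16 7646 6840) .out)) .out)))) .out) .out) (.na
  163 104 (.nx 162 1321124 (.nr 161 524289 (.nr 153 103 .s1 (.nx 156 96 (.nx 155 95 (.nr 154 719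
  (.l1 (.ls 17 16 90)) (.l1 .sk)) (.l1 .sk)) (.nx 157 8193 (.lg 0 true 1 83 83 16 0 6840) (.nr 160
  8193 (.nr 158 513 (.lg 2 false 1 67 67 16 609257 13680) (.nx 159 82572 (.lg 2 false 1 59 59 16
  7646 13680) .out)) .out)))) .out) .out) (.nx 173 1321124 (.nr 172 524289 (.nr 164 104 .s1 (.nx
  168 8193 (.nx 166 95 (.nr 165 733 (.l1 (.ls 41 23 89)) (.l1 .sk)) (.nx 167 96 (.l1 .sk) (.lg 0
  false 1 97 97 29 0 177840))) (.nr 171 8193 (.nx 169 82572 (.lg 0 true 1 83 83 29 0 177840) (.nr
  170 513 (.lg 0 true 1 79 79 29 0 177840) .out)) .out))) .out) .out))) (.na 196 108 (.na 185 107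
  (.nx 184 1321124 (.nr 183 524289 (.nr 175 106 .s1 (.nx 178 96 (.nx 177 95 (.nr 176 740 (.l1 (.ls
  23 19 88)) (.l1 .sk)) (.l1 .sk)) (.nx 179 8193 (.lg 0 true 1 97 97 19 0 13680) (.nr 182 8193 (.nr
  180 513 (.lg 2 false 1 71 71 19 592014 13680) (.nx 181 82572 (.lg 2 false 1 61 61 19 7646 13680)
  .out)) .out)))) .out) .out) (.nx 195 1321124 (.nr 194 524289 (.nr 186 107 .s1 (.nx 189 96 (.nx
  188 95 (.nr 187 747 (.l1 (.ls 16 16 87)) (.l1 .sk)) (.l1 .sk)) (.nx 190 8193 (.lg 0 true 1 83 83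
  16 0 13680) (.nr 193 8193 (.nr 191 513 (.lg 2 false 1 61 61 16 586481 6840) (.nx 192 82572 (.lg 2
  false 1 53 53 16 7646 6840) .out)) .out)))) .out) .out)) (.na 208 110 (.nx 207 1321124 (.nr 206
  524289 (.nr 197 108 .s1 (.nx 199 95 (.nr 198 761 (.l1 (.ls 29 23 86)) (.l1 .sk)) (.nx 200 96 (.l1
  .sk) (.nx 201 8193 (.lg 0 true 1 89 89 23 0 13680) (.nr 205 8193 (.nr 203 513 (.lg 0 true 2 71 71
  29 0 13680) (.nx 204 82572 (.lg 2 true 1 61 61 23 7646 13680) .out)) .out))))) .out) .out) (.nx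
  218 1321124 (.nr 217 524289 (.nr 209 110 .s1 (.nx 211 95 (.nr 210 767 (.l1 (.ls 23 29 85)) (.l1
  .sk)) (.nx 212 96 (.l1 .sk) (.nx 213 8193 (.lg 0 true 1 89 89 23 0 150480) (.nr 216 8193 (.nr 214
  513 (.lg 2 false 1 71 71 23 570486 150480) (.nx 215 82572 (.lg 2 false 1 59 59 23 7646 150480)
  .out)) .out))))) .out) .out)))) (.na 263 120 (.na 241 114 (.na 230 113 (.nx 229 1321124 (.nr 228
  524289 (.nr 220 111 .s1 (.nx 224 8193 (.nx 222 95 (.nr 221 781 (.l1 (.ls 29 17 84)) (.l1 .sk))
  (.nx 223 96 (.l1 .sk) (.lg 0 true 1 89 89 17 0 6840))) (.nr 227 8193 (.nr 225 513 (.lg 2 true 1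
  67 67 17 565346 6840) (.nx 226 82572 (.lg 2 true 1 67 67 17 7646 6840) .out)) .out))) .out) .out)
  (.nx 240 1321124 (.nr 239 524289 (.nr 231 113 .s1 (.nx 234 96 (.nx 233 95 (.nr 232 788 (.l1 (.ls
  17 16 82)) (.l1 .sk)) (.l1 .sk)) (.nx 235 8193 (.lg 0 true 1 83 83 16 0 13680) (.nr 238 8193 (.nr
  236 513 (.lg 2 false 1 67 67 16 555340 95760) (.nx 237 82572 (.lg 2 false 1 53 53 16 7646 6840)
  .out)) .out)))) .out) .out)) (.na 252 117 (.nx 251 1321124 (.nr 250 524289 (.nr 242 114 .s1 (.nx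
  246 8193 (.nx 244 95 (.nr 243 809 (.l1 (.ls 17 29 82)) (.l1 .sk)) (.nx 245 96 (.l1 .sk) (.lg 0
  true 1 83 83 29 0 13680))) (.nr 249 8193 (.nr 247 513 (.lg 2 false 1 67 67 29 550469 13680) (.nx
  248 82572 (.lg 2 false 1 59 59 29 7646 13680) .out)) .out))) .out) .out) (.nx 262 1321124 (.nr
  261 524289 (.nr 253 117 .s1 (.nx 257 8193 (.nx 255 95 (.nr 254 830 (.l1 (.ls 31 19 80)) (.l1
  .sk)) (.nx 256 96 (.l1 .sk) (.lg 0 true 1 89 89 19 0 177840))) (.nr 260 8193 (.nr 258 513 (.lg 2
  true 1 67 67 19 536354 88920) (.nx 259 82572 (.lg 2 false 1 61 61 19 7646 88920) .out)) .out)))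
  .out) .out))) (.na 285 122 (.na 274 121 (.nx 273 1321124 (.nr 272 524289 (.nr 264 120 .s1 (.nx
  268 8193 (.nx 266 95 (.nr 265 837 (.l1 (.ls 37 29 78)) (.l1 .sk)) (.nx 267 96 (.l1 .sk) (.lg 0
  false 1 89 89 31 0 13680))) (.nr 271 8193 (.nx 269 82572 (.lg 0 true 1 79 83 31 0 13680) (.nr 270
  513 (.lg 0 true 1 73 73 31 0 13680) .out)) .out))) .out) .out) (.nx 284 1321124 (.nr 283 524289
  (.nr 275 121 .s1 (.nx 277 95 (.nr 276 843 (.l1 (.ls 23 17 77)) (.l1 .sk)) (.nx 278 96 (.l1 .sk)
  (.nx 279 8193 (.lg 0 true 1 83 83 17 0 75240) (.nr 282 8193 (.nr 280 513 (.lg 2 false 1 67 67 17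
  518624 150480) (.nx 281 82572 (.lg 2 false 1 59 59 17 7646 150480) .out)) .out))))) .out) .out))
  (.na 296 125 (.nx 295 1321124 (.nr 294 524289 (.nr 286 122 .s1 (.nx 289 96 (.nx 288 95 (.nr 287
  864 (.l1 (.ls 17 19 76)) (.l1 .sk)) (.l1 .sk)) (.nx 290 8193 (.lg 0 true 1 89 89 19 0 150480)
  (.nr 293 8193 (.nr 291 513 (.lg 2 false 1 71 71 19 514373 150480) (.nx 292 82572 (.lg 2 false 1
  53 53 19 7646 13680) .out)) .out)))) .out) .out) (.lg 0 false 1 0 0 16 0 24)))))) (.na 409 150
  (.na 354 135 (.na 320 130 (.na 308 128 (.nx 307 1321124 (.nr 306 524289 (.nr 298 127 .s1 (.nx 302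
  8193 (.nx 300 95 (.nr 299 885 (.l1 (.ls 17 16 74)) (.l1 .sk)) (.nx 301 96 (.l1 .sk) (.lg 0 true 1
  79 79 16 0 6840))) (.nr 305 8193 (.nr 303 513 (.lg 2 false 1 61 61 16 494122 6840) (.nx 304 82572
  (.lg 2 false 1 53 53 16 7646 6840) .out)) .out))) .out) .out) (.na 319 129 (.nx 318 1321124 (.nr
  317 1048577 (.nr 309 128 .s1 (.nx 312 8193 (.nx 310 205 (.l1 (.ls 79 29 331)) (.nr 311 524289
  (.lg 0 true 1 83 83 19 0 13680) .out)) (.nr 316 8193 (.nr 314 1025 (.lg 0 true 2 73 73 23 0
  13680) (.nx 315 82572 (.lg 2 true 1 59 59 19 4566 13680) .out)) .out))) .out) .out) .ne)) (.na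
  336 132 (.na 328 131 (.nx 327 660563 (.nr 326 1048577 (.nr 321 130 .s1 (.nx 322 205 (.l1 (.ls 73
  37 326)) (.nr 325 524289 (.nr 323 8193 (.lg 0 false 1 83 83 29 0 177840) (.nx 324 6503 (.lg 0
  true 1 83 83 29 0 177840) .out)) .out))) .out) .out) (.nx 335 660563 (.nr 334 1048577 (.nr 329
  131 .s1 (.nx 330 205 (.l1 (.ls 71 19 323)) (.nr 333 524289 (.nr 331 8193 (.lg 0 false 1 83 83 16
  0 6840) (.nx 332 6503 (.lg 0 true 1 79 79 16 0 6840) .out)) .out))) .out) .out)) (.na 346 134
  (.nx 345 660563 (.nr 344 1048577 (.nr 337 132 .s1 (.nx 338 205 (.l1 (.ls 89 37 321)) (.nr 343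
  524289 (.nx 339 6503 (.lg 0 false 1 89 89 31 0 150480) (.nr 342 8193 (.nx 340 82572 (.lg 0 true 1
  79 83 31 0 150480) (.nr 341 1025 (.lg 0 true 1 79 79 31 0 150480) .out)) .out)) .out))) .out)
  .out) (.nx 353 660563 (.nr 352 1048577 (.nr 347 134 .s1 (.nx 348 205 (.l1 (.ls 61 29 316)) (.nr
  351 524289 (.nr 349 8193 (.lg 0 false 1 89 89 19 0 13680) (.nx 350 6503 (.lg 0 true 1 83 83 19 0
  13680) .out)) .out))) .out) .out)))) (.na 371 143 (.na 362 137 (.nx 361 660563 (.nr 360 1048577
  (.nr 355 135 .s1 (.nx 356 205 (.l1 (.ls 71 29 314)) (.nr 359 524289 (.nr 357 8193 (.lg 0 false 1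
  79 79 19 0 6840) (.nx 358 6503 (.lg 0 true 1 79 79 19 0 13680) .out)) .out))) .out) .out) (.na
  363 139 (.lg 0 false 1 0 0 16 0 24) (.nx 370 660563 (.nr 369 1048577 (.nr 364 139 .s1 (.nx 365
  205 (.l1 (.ls 71 19 305)) (.nr 368 524289 (.nr 366 8193 (.lg 0 false 1 83 83 16 0 13680) (.nx 367
  6503 (.lg 0 true 1 79 79 16 0 13680) .out)) .out))) .out) .out))) (.na 391 148 (.na 381 144 (.nx
  380 660563 (.nr 379 1048577 (.nr 372 143 .s1 (.nx 375 6503 (.nx 373 205 (.l1 (.ls 79 23 296))
  (.nr 374 524289 (.lg 0 true 1 83 83 19 0 978120) .out)) (.nr 378 8193 (.nr 376 1025 (.lg 0 true 1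
  71 71 19 0 978120) (.nx 377 82572 (.lg 2 false 1 61 61 19 5752 1956240) .out)) .out))) .out)
  .out) (.nx 390 660563 (.nr 389 1048577 (.nr 382 144 .s1 (.nx 385 6503 (.nx 383 205 (.l1 (.ls 83
  31 294)) (.nr 384 524289 (.lg 0 false 1 89 89 31 0 13680) .out)) (.nr 388 8193 (.nx 386 82572
  (.lg 0 true 1 79 79 31 0 13680) (.nr 387 1025 (.lg 0 true 1 73 73 31 0 13680) .out)) .out)))
  .out) .out)) (.na 401 149 (.nx 400 660563 (.nr 399 1048577 (.nr 392 148 .s1 (.nx 395 6503 (.nx
  393 205 (.l1 (.ls 79 29 286)) (.nr 394 524289 (.lg 0 true 1 83 83 23 0 13680) .out)) (.nr 398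
  8193 (.nr 396 1025 (.lg 0 true 1 71 71 23 0 13680) (.nx 397 82572 (.lg 2 true 1 61 61 23 5752
  13680) .out)) .out))) .out) .out) (.nx 408 660563 (.nr 407 1048577 (.nr 402 149 .s1 (.nx 403 205
  (.l1 (.ls 67 19 285)) (.nr 406 524289 (.nr 404 8193 (.lg 0 false 1 79 79 16 0 13680) (.nx 405
  6503 (.lg 0 true 1 73 73 16 0 6840) .out)) .out))) .out) .out))))) (.na 446 162 (.na 419 156 (.na
  410 151 (.lg 0 false 1 0 0 16 0 24) (.na 411 152 (.lg 0 false 1 0 0 16 0 24) (.nx 418 660563 (.nr
  417 1048577 (.nr 412 152 .s1 (.nx 413 205 (.l1 (.ls 73 31 279)) (.nr 416 524289 (.nr 414 8193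
  (.lg 0 false 1 83 83 29 0 13680) (.nx 415 6503 (.lg 0 false 1 79 79 29 0 13680) .out)) .out)))
  .out) .out))) (.na 430 159 (.na 429 157 (.nx 428 660563 (.nr 427 1048577 (.nr 420 156 .s1 (.nx
  421 205 (.l1 (.ls 83 37 272)) (.nr 426 524289 (.nx 422 6503 (.lg 0 false 1 89 89 37 0 177840)
  (.nr 425 8193 (.nx 423 82572 (.lg 0 true 1 79 79 37 0 177840) (.nr 424 1025 (.lg 0 true 1 73 73
  37 0 177840) .out)) .out)) .out))) .out) .out) (.lg 0 false 1 0 0 16 0 24)) (.na 438 160 (.nx 437
  660563 (.nr 436 1048577 (.nr 431 159 .s1 (.nx 432 205 (.l1 (.ls 79 23 267)) (.nr 435 524289 (.nr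
  433 8193 (.lg 0 false 1 83 83 19 0 6840) (.nx 434 6503 (.lg 0 false 1 79 79 19 0 6840) .out))
  .out))) .out) .out) (.nx 445 660563 (.nr 444 1048577 (.nr 439 160 .s1 (.nx 440 205 (.l1 (.ls 73
  29 265)) (.nr 443 524289 (.nr 441 8193 (.lg 0 false 1 83 83 29 0 13680) (.nx 442 6503 (.lg 0
  false 1 79 79 29 0 13680) .out)) .out))) .out) .out)))) (.na 471 169 (.na 455 165 (.na 454 163
  (.nx 453 660563 (.nr 452 1048577 (.nr 447 162 .s1 (.nx 448 205 (.l1 (.ls 71 31 262)) (.nr 451
  524289 (.nr 449 8193 (.lg 0 false 1 79 79 23 0 13680) (.nx 450 6503 (.lg 0 true 1 79 79 23 0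
  13680) .out)) .out))) .out) .out) (.lg 0 false 1 0 0 16 0 24)) (.na 463 167 (.nx 462 660563 (.nr
  461 1048577 (.nr 456 165 .s1 (.nx 457 205 (.l1 (.ls 73 29 257)) (.nr 460 524289 (.nr 458 8193
  (.lg 0 false 1 83 83 29 0 75240) (.nx 459 6503 (.lg 0 false 1 79 79 29 0 75240) .out)) .out)))
  .out) .out) (.nx 470 660563 (.nr 469 1048577 (.nr 464 167 .s1 (.nx 465 205 (.l1 (.ls 71 17 254))
  (.nr 468 524289 (.nr 466 8193 (.lg 0 false 1 79 79 16 0 13680) (.nx 467 6503 (.lg 0 true 1 73 73
  16 0 6840) .out)) .out))) .out) .out))) (.na 487 173 (.na 479 171 (.nx 478 660563 (.nr 477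
  1048577 (.nr 472 169 .s1 (.nx 473 205 (.l1 (.ls 71 19 251)) (.nr 476 524289 (.nr 474 8193 (.lg 0
  false 1 83 83 17 0 177840) (.nx 475 6503 (.lg 0 true 1 79 79 17 0 177840) .out)) .out))) .out)
  .out) (.nx 486 660563 (.nr 485 1048577 (.nr 480 171 .s1 (.nx 481 205 (.l1 (.ls 67 29 248)) (.nr
  484 524289 (.nr 482 8193 (.lg 0 false 1 73 73 17 0 6840) (.nx 483 6503 (.lg 0 true 1 73 73 17 0
  13680) .out)) .out))) .out) .out)) (.na 495 176 (.nx 494 660563 (.nr 493 1048577 (.nr 488 173 .s1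
  (.nx 489 205 (.l1 (.ls 67 17 245)) (.nr 492 524289 (.nr 490 8193 (.lg 0 false 1 79 79 16 0 13680)
  (.nx 491 6503 (.lg 0 true 1 73 73 16 0 13680) .out)) .out))) .out) .out) (.nx 502 660563 (.nr 501
  1048577 (.nr 496 176 .s1 (.nx 497 205 (.l1 (.ls 83 29 241)) (.nr 500 524289 (.nr 498 8193 (.lg 0
  true 1 89 89 31 0 150480) (.nx 499 6503 (.lg 0 false 1 89 89 31 0 150480) .out)) .out))) .out)
  .out))))))) (.na 695 227 (.na 596 200 (.na 547 192 (.na 513 183 (.na 504 180 (.lg 0 false 1 0 0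
  16 0 24) (.na 512 181 (.nx 511 660563 (.nr 510 1048577 (.nr 505 180 .s1 (.nx 506 205 (.l1 (.ls 73
  37 236)) (.nr 509 524289 (.nr 507 8193 (.lg 0 false 1 83 83 31 0 13680) (.nx 508 6503 (.lg 0
  false 1 79 79 31 0 13680) .out)) .out))) .out) .out) (.lg 0 false 1 0 0 16 0 24))) (.na 529 190
  (.na 521 185 (.nx 520 660563 (.nr 519 1048577 (.nr 514 183 .s1 (.nx 515 205 (.l1 (.ls 59 23 232))
  (.nr 518 524289 (.nx 516 6503 (.lg 0 false 1 79 79 19 0 6840) (.nr 517 8193 (.lg 0 true 1 83 83
  19 0 6840) .out)) .out))) .out) .out) (.nx 528 660563 (.nr 527 1048577 (.nr 522 185 .s1 (.nx 523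
  205 (.l1 (.ls 71 19 230)) (.nr 526 524289 (.nr 524 8193 (.lg 0 false 1 79 79 17 0 6840) (.nx 525
  6503 (.lg 0 true 1 73 73 17 0 6840) .out)) .out))) .out) .out)) (.na 539 191 (.nx 538 660563 (.nr
  537 1048577 (.nr 530 190 .s1 (.nx 531 205 (.l1 (.ls 61 31 224)) (.nr 536 524289 (.nr 533 8193
  (.lg 0 false 2 71 71 29 0 13680) (.nx 535 6503 (.lg 0 true 2 67 67 29 0 13680) .out)) .out)))
  .out) .out) (.nx 546 660563 (.nr 545 1048577 (.nr 540 191 .s1 (.nx 541 205 (.l1 (.ls 67 17 223))
  (.nr 544 524289 (.nr 542 8193 (.lg 0 false 1 79 79 16 0 13680) (.nx 543 6503 (.lg 0 true 1 73 73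
  16 0 13680) .out)) .out))) .out) .out)))) (.na 571 195 (.na 555 193 (.nx 554 660563 (.nr 553
  1048577 (.nr 548 192 .s1 (.nx 549 205 (.l1 (.ls 79 31 221)) (.nr 552 524289 (.nr 550 8193 (.lg 0
  true 1 83 83 31 0 13680) (.nx 551 6503 (.lg 0 false 1 83 83 31 0 13680) .out)) .out))) .out)
  .out) (.na 563 194 (.nx 562 660563 (.nr 561 1048577 (.nr 556 193 .s1 (.nx 557 205 (.l1 (.ls 67 17
  220)) (.nr 560 524289 (.nr 558 8193 (.lg 0 false 1 73 73 16 0 6840) (.nx 559 6503 (.lg 0 true 1
  71 71 16 0 6840) .out)) .out))) .out) .out) (.nx 570 660563 (.nr 569 1048577 (.nr 564 194 .s1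
  (.nx 565 205 (.l1 (.ls 71 23 219)) (.nr 568 524289 (.nr 566 8193 (.lg 0 false 1 79 79 19 0 13680)
  (.nx 567 6503 (.lg 0 true 1 73 73 19 0 13680) .out)) .out))) .out) .out))) (.na 580 198 (.na 579
  197 (.nx 578 660563 (.nr 577 1048577 (.nr 572 195 .s1 (.nx 573 205 (.l1 (.ls 73 29 218)) (.nr 576
  524289 (.nr 574 8193 (.lg 0 false 1 83 83 29 0 88920) (.nx 575 6503 (.lg 0 false 1 79 79 29 0
  88920) .out)) .out))) .out) .out) (.lg 0 false 1 0 0 16 0 24)) (.na 588 199 (.nx 587 660563 (.nr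
  586 1048577 (.nr 581 198 .s1 (.nx 582 205 (.l1 (.ls 73 37 215)) (.nr 585 524289 (.nr 583 8193
  (.lg 0 false 1 83 83 31 0 150480) (.nx 584 6503 (.lg 0 false 1 79 79 31 0 150480) .out)) .out)))
  .out) .out) (.nx 595 660563 (.nr 594 1048577 (.nr 589 199 .s1 (.nx 590 205 (.l1 (.ls 67 17 214))
  (.nr 593 524289 (.nx 591 6503 (.lg 0 true 1 73 73 16 0 6840) (.nr 592 8193 (.lg 0 false 1 73 73
  16 0 6840) .out)) .out))) .out) .out))))) (.na 638 212 (.na 613 206 (.na 597 201 (.lg 0 false 1 0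
  0 16 0 24) (.na 605 202 (.nx 604 660563 (.nr 603 1048577 (.nr 598 201 .s1 (.nx 599 205 (.l1 (.ls
  61 23 212)) (.nr 602 524289 (.nr 600 8193 (.lg 0 true 1 79 79 19 0 6840) (.nx 601 6503 (.lg 0
  false 1 79 79 19 0 6840) .out)) .out))) .out) .out) (.nx 612 660563 (.nr 611 1048577 (.nr 606 202
  .s1 (.nx 607 205 (.l1 (.ls 71 23 211)) (.nr 610 524289 (.nr 608 8193 (.lg 0 false 1 79 79 23 0
  13680) (.nx 609 6503 (.lg 0 true 1 73 73 23 0 13680) .out)) .out))) .out) .out))) (.na 629 209
  (.na 621 208 (.nx 620 660563 (.nr 619 1048577 (.nr 614 206 .s1 (.nx 615 205 (.l1 (.ls 67 23 207))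
  (.nr 618 524289 (.nr 616 8193 (.lg 0 false 1 73 73 23 0 13680) (.nx 617 6503 (.lg 0 true 1 73 73
  23 0 13680) .out)) .out))) .out) .out) (.nx 628 660563 (.nr 627 1048577 (.nr 622 208 .s1 (.nx 623
  205 (.l1 (.ls 83 29 205)) (.nr 626 524289 (.nr 624 8193 (.lg 0 true 1 89 89 31 0 177840) (.nx 625
  6503 (.lg 0 false 1 89 89 31 0 177840) .out)) .out))) .out) .out)) (.na 637 211 (.nx 636 660563
  (.nr 635 1048577 (.nr 630 209 .s1 (.nx 631 205 (.l1 (.ls 71 17 204)) (.nr 634 524289 (.nr 632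
  8193 (.lg 0 false 1 79 79 17 0 150480) (.nx 633 6503 (.lg 0 true 1 73 73 17 0 75240) .out))
  .out))) .out) .out) (.lg 0 false 1 0 0 16 0 24)))) (.na 670 222 (.na 654 216 (.na 646 214 (.nx
  645 660563 (.nr 644 1048577 (.nr 639 212 .s1 (.nx 640 205 (.l1 (.ls 79 23 201)) (.nr 643 524289
  (.nr 641 8193 (.lg 0 false 1 83 83 23 0 13680) (.nx 642 6503 (.lg 0 false 1 79 79 23 0 13680)
  .out)) .out))) .out) .out) (.nx 653 660563 (.nr 652 1048577 (.nr 647 214 .s1 (.nx 648 205 (.l1
  (.ls 67 23 199)) (.nr 651 524289 (.nr 649 8193 (.lg 0 false 1 73 73 23 0 13680) (.nx 650 6503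
  (.lg 0 true 1 71 71 23 0 13680) .out)) .out))) .out) .out)) (.na 662 220 (.nx 661 660563 (.nr 660
  1048577 (.nr 655 216 .s1 (.nx 656 205 (.l1 (.ls 79 31 197)) (.nr 659 524289 (.nr 657 8193 (.lg 0
  true 1 83 83 31 0 13680) (.nx 658 6503 (.lg 0 false 1 83 83 31 0 13680) .out)) .out))) .out)
  .out) (.nx 669 660563 (.nr 668 1048577 (.nr 663 220 .s1 (.nx 664 205 (.l1 (.ls 73 31 194)) (.nr
  667 524289 (.nr 665 8193 (.lg 0 false 1 83 83 31 0 150480) (.nx 666 6503 (.lg 0 true 1 79 79 31 0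
  150480) .out)) .out))) .out) .out))) (.na 686 225 (.na 678 223 (.nx 677 660563 (.nr 676 1048577
  (.nr 671 222 .s1 (.nx 674 6503 (.nx 672 205 (.l1 (.ls 79 31 192)) (.nr 673 524289 (.lg 0 false 1
  79 79 31 0 13680) .out)) (.nr 675 8193 (.lg 0 false 1 83 83 31 0 13680) .out))) .out) .out) (.nx
  685 660563 (.nr 684 1048577 (.nr 679 223 .s1 (.nx 680 205 (.l1 (.ls 67 17 191)) (.nr 683 524289
  (.nr 681 8193 (.lg 0 false 1 73 73 16 0 13680) (.nx 682 6503 (.lg 0 true 1 71 71 16 0 6840)
  .out)) .out))) .out) .out)) (.na 687 226 (.lg 0 false 1 0 0 16 0 24) (.nx 694 660563 (.nr 693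
  1048577 (.nr 688 226 .s1 (.nx 689 205 (.l1 (.ls 67 23 188)) (.nr 692 524289 (.nr 690 8193 (.lg 0
  false 1 73 73 23 0 13680) (.nx 691 6503 (.lg 0 true 1 71 71 23 0 13680) .out)) .out))) .out)
  .out)))))) (.na 786 254 (.na 744 241 (.na 719 233 (.na 703 228 (.nx 702 660563 (.nr 701 1048577
  (.nr 696 227 .s1 (.nx 697 205 (.l1 (.ls 67 17 188)) (.nr 700 524289 (.nr 698 8193 (.lg 0 false 1
  73 73 17 0 13680) (.nx 699 6503 (.lg 0 true 1 71 71 17 0 13680) .out)) .out))) .out) .out) (.na
  711 229 (.nx 710 660563 (.nr 709 1048577 (.nr 704 228 .s1 (.nx 705 205 (.l1 (.ls 71 37 187)) (.nr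
  708 524289 (.nr 706 8193 (.lg 0 true 1 73 73 37 0 13680) (.nx 707 6503 (.lg 0 false 1 73 73 37 0
  13680) .out)) .out))) .out) .out) (.nx 718 660563 (.nr 717 1048577 (.nr 712 229 .s1 (.nx 713 205
  (.l1 (.ls 67 17 186)) (.nr 716 524289 (.nr 714 8193 (.lg 0 false 1 73 73 17 0 13680) (.nx 715
  6503 (.lg 0 true 1 71 71 17 0 13680) .out)) .out))) .out) .out))) (.na 728 239 (.na 720 234 (.lg
  0 false 1 0 0 16 0 24) (.nx 727 660563 (.nr 726 1048577 (.nr 721 234 .s1 (.nx 722 205 (.l1 (.ls
  73 37 182)) (.nr 725 524289 (.nr 723 8193 (.lg 0 false 1 79 79 37 0 177840) (.nx 724 6503 (.lg 0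
  true 1 79 79 37 0 177840) .out)) .out))) .out) .out)) (.na 736 240 (.nx 735 660563 (.nr 734
  1048577 (.nr 729 239 .s1 (.nx 730 205 (.l1 (.ls 67 17 178)) (.nr 733 524289 (.nr 731 8193 (.lg 0
  false 1 73 73 17 0 13680) (.nx 732 6503 (.lg 0 true 1 71 71 17 0 13680) .out)) .out))) .out)
  .out) (.nx 743 660563 (.nr 742 1048577 (.nr 737 240 .s1 (.nx 738 205 (.l1 (.ls 79 31 178)) (.nr
  741 524289 (.nr 739 8193 (.lg 0 true 1 83 83 37 0 13680) (.nx 740 6503 (.lg 0 false 1 79 79 37 0
  13680) .out)) .out))) .out) .out)))) (.na 761 244 (.na 745 242 (.lg 0 false 1 0 0 16 0 24) (.na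
  753 243 (.nx 752 660563 (.nr 751 1048577 (.nr 746 242 .s1 (.nx 747 205 (.l1 (.ls 67 29 176)) (.nr
  750 524289 (.nr 748 8193 (.lg 0 false 1 73 73 29 0 150480) (.nx 749 6503 (.lg 0 true 1 73 73 29 0
  150480) .out)) .out))) .out) .out) (.nx 760 660563 (.nr 759 1048577 (.nr 754 243 .s1 (.nx 755 205
  (.l1 (.ls 67 19 175)) (.nr 758 524289 (.nr 756 8193 (.lg 0 false 1 73 73 19 0 6840) (.nx 757 6503
  (.lg 0 true 1 71 71 19 0 6840) .out)) .out))) .out) .out))) (.na 777 250 (.na 769 247 (.nx 768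
  660563 (.nr 767 1048577 (.nr 762 244 .s1 (.nx 763 205 (.l1 (.ls 59 23 175)) (.nr 766 524289 (.nr
  764 8193 (.lg 0 true 1 79 79 23 0 13680) (.nx 765 6503 (.lg 0 false 1 79 79 23 0 13680) .out))
  .out))) .out) .out) (.nx 776 660563 (.nr 775 1048577 (.nr 770 247 .s1 (.nx 771 205 (.l1 (.ls 67
  17 173)) (.nr 774 524289 (.nr 772 8193 (.lg 0 false 1 73 73 17 0 88920) (.nx 773 6503 (.lg 0 true
  1 71 71 17 0 88920) .out)) .out))) .out) .out)) (.na 778 251 (.lg 0 false 1 0 0 16 0 24) (.nx 785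
  660563 (.nr 784 1048577 (.nr 779 251 .s1 (.nx 780 205 (.l1 (.ls 67 17 170)) (.nr 783 524289 (.nr
  781 8193 (.lg 0 false 1 73 73 17 0 13680) (.nx 782 6503 (.lg 0 true 1 71 71 17 0 6840) .out))
  .out))) .out) .out))))) (.na 3270 2048 (.na 1316 512 (.na 794 256 (.nx 793 660563 (.nr 792
  1048577 (.nr 787 254 .s1 (.nx 788 205 (.l1 (.ls 67 23 168)) (.nr 791 524289 (.nr 789 8193 (.lg 0
  false 1 73 73 23 0 13680) (.nx 790 6503 (.lg 0 true 1 71 71 23 0 13680) .out)) .out))) .out)
  .out) (.na 802 257 (.nx 801 660563 (.nr 800 1048577 (.nr 795 256 .s1 (.nx 796 1292 (.l1 (.ls 73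
  43 6523)) (.nr 799 262145 (.nr 797 16385 (.lg 0 true 1 79 79 29 0 13680) (.nx 798 6503 (.lg 0
  false 1 71 71 29 0 13680) .out)) .out))) .out) .out) (.nx 1315 82572 (.nr 1314 1048577 (.nr 803
  257 .s1 (.nx 1058 647 (.la (.ls 79 31 1631)) (.nr 1313 262145 (.la (.lg 0 false 1 83 83 23 0))
  .out))) .out) .out))) (.na 2144 1024 (.na 1746 725 (.nx 1745 82572 (.nr 1744 1048577 (.nr 1317
  512 .s1 (.nx 1530 647 (.la (.ls 73 29 820)) (.nr 1743 262145 (.la (.lg 0 false 1 79 79 29 0))
  .out))) .out) .out) (.nx 2143 3252 (.nr 2142 262145 (.nr 1747 725 .s1 (.nx 1842 95 (.nr 1841 7077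
  (.lx (.lp 43 19 257)) (.l1 .sk)) (.nx 1843 96 (.l1 .sk) (.la (.ls 61 43 14577))))) .out) .out))
  (.na 2572 1449 (.nx 2571 3252 (.nr 2570 262145 (.nr 2145 1024 .s1 (.la (.ls 61 41 10330))) .out)
  .out) (.nx 3269 1627 (.nr 3268 131073 (.nr 2573 1449 .s1 (.nx 2668 95 (.nr 2667 14153 (.lx (.lp
  41 29 513)) (.l1 .sk)) (.nx 2669 96 (.l1 .sk) (.la (.ls 53 31 1823))))) .out) .out)))) (.na 6167
  16384 (.na 4868 4096 (.na 4218 2897 (.nx 4217 1627 (.nr 4216 131073 (.nr 3271 2048 .s1 (.nx 3366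
  95 (.nr 3365 20019 (.lx (.lp 16 29 725)) (.l1 .sk)) (.nx 3367 96 (.l1 .sk) (.la (.ls 53 31
  1291))))) .out) .out) (.nx 4867 647 (.nr 4866 65537 (.nr 4219 2897 .s1 (.nx 4381 163 (.lx (.lp 47
  31 1025)) (.nr 4865 32769 (.lx (.lp 43 31 1025)) .out))) .out) .out)) (.na 5518 8192 (.nx 5517
  647 (.nr 5516 65537 (.nr 4869 4096 .s1 (.nx 5031 163 (.lx (.lp 47 37 2049)) (.nr 5515 32769 (.lx
  (.lp 41 37 2049)) .out))) .out) .out) (.nx 6166 647 (.nr 6165 65537 (.nr 5519 8192 .s1 (.lx (.lp
  41 41 4097))) .out) .out))) (.na 7143 65536 (.na 6817 32768 (.nx 6816 647 (.nr 6815 131073 (.nr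
  6168 16384 .s1 (.nx 6330 163 (.lx (.lp 16 0 8193)) (.nr 6814 65537 (.lx (.lp 37 43 8193)) .out)))
  .out) .out) (.nx 7142 324 (.nr 7141 131073 (.nr 6818 32768 .s1 (.lx (.lp 41 47 16385))) .out)
  .out)) (.na 7470 131073 (.nx 7469 324 (.nr 7468 262145 (.nr 7144 65536 .s1 (.nx 7306 163 (.lx
  (.lp 16 0 32769)) (.nr 7467 131073 (.lx (.lp 41 53 32769)) .out))) .out) .out) .out)))))))

def T125_1 : Ph :=
  (.na 782 6 (.na 477 3 (.na 1 2 .ne (.nx 476 3329023 (.nr 475 1763489 (.nx 463 2642247 (.nx 427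
  1048577 (.nx 4 229 (.nx 3 228 (.nr 2 29 (.lg 0 false 1 43 43 5 0 912) (.l1 .sk)) (.l1 .sk)) (.nx
  118 36780 (.nr 81 262145 (.lg 0 false 77 103 109 13 0 13693680) (.nx 104 26007 (.nx 103 408 (.lg
  0 false 22 83 89 11 0 10032) .out) (.nr 117 311745 (.lg 0 false 13 103 107 9 0 13693680) .out)))
  (.nr 426 311745 (.nr 153 941 (.lg 0 true 35 89 101 13 0 95760) (.nx 188 52017 (.lg 1 false 35 103
  107 13 220471 13693680) (.nr 425 262145 (.nx 265 82572 (.lg 1 false 77 101 109 13 131105
  13693680) (.nr 424 220437 (.nr 278 3446 (.lg 2 true 13 97 101 9 127033 177840) (.nx 423 832257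
  (.nr 289 12637 (.lg 2 true 11 97 101 9 27533 150480) (.nx 359 165142 (.nx 324 116773 (.lg 1 false
  35 103 109 13 69462 13693680) (.lg 1 false 35 103 107 13 49118 13693680)) (.nr 422 155873 (.nr
  372 55110 (.lg 2 false 13 103 107 9 8710 13693680) (.nx 421 330282 (.nr 385 92683 (.lg 2 false 13
  103 107 9 14624 13693680) (.nx 420 262145 (.lg 2 false 35 101 109 13 24570 13693680) .out))
  .out)) .out))) .out)) .out)) .out))) .out))) (.nr 462 257 (.lg 0 true 35 83 89 13 0 31920) .out))
  (.nr 474 9 (.lg 0 true 11 67 67 9 0 10032) .out)) .out) .out)) (.na 478 4 .ne (.na 781 5 (.nx 780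
  21137969 (.nr 779 1246976 (.nx 481 229 (.nx 480 228 (.nr 479 52 (.lg 0 true 1 37 37 9 0 912) (.l1
  .sk)) (.l1 .sk)) (.nx 713 2642247 (.nx 527 38210 (.nr 516 262145 (.lg 0 false 35 103 109 19 0
  13693680) (.nx 526 408 (.lg 0 false 10 83 83 13 0 4560) .out)) (.nr 712 311745 (.nx 701 660563
  (.nr 551 11616 (.nr 544 2912 (.nr 537 730 (.lg 0 true 10 89 89 13 0 4560) (.lg 2 true 7 89 97 11
  103157 19152)) (.lg 2 true 7 89 97 11 25860 19152)) (.nx 587 82570 (.nr 586 262145 (.lg 1 false
  35 103 109 19 178480 13693680) .out) (.nx 693 330282 (.nx 657 208065 (.nx 622 112360 (.lg 1 false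
  35 97 109 19 98206 13693680) (.lg 1 true 35 101 109 19 72169 13693680)) (.nr 692 185365 (.lg 1
  true 35 97 109 19 23185 13693680) .out)) (.nr 700 46342 (.lg 2 false 7 89 97 11 6483 19152)
  .out)))) (.nr 711 183 (.lg 0 true 10 83 83 13 0 4560) .out)) .out)) (.nr 778 21 (.nx 743 10568985
  (.lg 0 true 30 79 79 11 0 13680) (.lg 0 true 35 79 79 11 0 31920)) .out))) .out) .out) .ne)))
  (.na 988 12 (.na 987 7 (.nx 986 21137969 (.nr 985 1048577 (.nx 785 229 (.nx 784 228 (.nr 783 74
  (.lg 0 true 1 37 37 7 0 2736) (.l1 .sk)) (.l1 .sk)) (.nx 831 52015 (.nr 820 220437 (.lg 0 false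
  35 97 103 19 0 1053360) (.nx 830 814 (.lg 0 false 10 83 83 13 0 13680) .out)) (.nr 984 311745
  (.nx 927 832257 (.nr 846 941 (.lg 0 true 15 83 83 13 0 13680) (.nx 862 82570 (.nr 861 262145 (.lg
  1 false 15 101 103 13 131110 1053360) .out) (.nr 869 6606 (.lg 2 true 7 89 89 13 100827 19152)
  (.nx 904 208065 (.lg 1 true 35 101 109 19 98206 13693680) (.nr 926 262145 (.nx 914 262145 (.lg 1
  true 10 101 103 13 32777 1053360) (.nr 925 131073 (.lg 2 false 11 97 101 13 14363 210672) .out))
  .out))))) (.nr 983 257 (.nr 967 45 (.lg 0 true 40 79 79 13 0 13680) (.nx 982 2642247 (.lg 0 true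
  15 79 79 13 0 13680) .out)) .out)) .out))) .out) .out) .ne) (.na 1081 16 (.nx 1080 2642247 (.nr
  1079 1246976 (.nx 991 229 (.nx 990 228 (.nr 989 171 (.lg 0 true 1 37 37 13 0 13680) (.l1 .sk))
  (.l1 .sk)) (.nx 994 408 (.nx 992 324 (.l1 (.ls 89 47 4380)) (.nr 993 1048577 (.l1 (.ls 89 47
  5127)) .out)) (.nr 1078 741457 (.nx 1015 41285 (.nr 1007 220437 (.lg 0 false 13 101 107 23 0
  13693680) (.nx 1014 1627 (.lg 0 false 7 89 89 19 0 95760) .out)) (.nr 1077 311745 (.nx 1069
  660563 (.nr 1027 9022 (.nr 1022 1242 (.lg 0 true 7 89 89 19 0 95760) (.lg 2 true 5 83 89 17 60632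
  13680)) (.nx 1041 82570 (.nr 1040 262145 (.lg 1 false 13 101 107 23 165186 13693680) .out) (.nx
  1063 330282 (.nx 1048 116772 (.lg 1 false 7 101 103 19 98206 1053360) (.nx 1055 208065 (.lg 1
  true 7 101 103 19 69442 1053360) (.nr 1062 220437 (.lg 1 true 7 101 103 19 27567 1053360) .out)))
  (.nr 1068 77937 (.lg 2 false 5 83 89 17 8347 13680) .out)))) (.nr 1076 65 (.lg 0 true 7 73 73 19
  0 19152) .out)) .out)) .out))) .out) .out) (.na 1082 18 .ne (.lg 0 false 1 0 0 7 0 24)))))

def T125_2 : Ph :=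
  (.na 604 9 (.na 320 4 (.na 174 2 (.nx 173 1321124 (.nr 172 311745 (.nx 2 120 (.nr 1 12 (.lg 0
  false 1 41 41 5 0 120) (.l1 .sk)) (.nx 3 121 (.l1 .sk) (.nr 149 38969 (.nx 122 660563 (.nx 29
  12457 (.lg 0 false 26 97 101 11 0 9360) (.nx 108 330282 (.nr 55 432 (.lg 0 true 26 83 89 11 0
  3120) (.nx 68 16385 (.lg 1 false 13 97 101 9 22594 9360) (.nr 107 27556 (.nr 93 13779 (.nr 81
  1724 (.lg 2 true 13 89 97 9 45873 9360) (.nx 92 165142 (.lg 2 false 11 97 101 9 6108 7920) .out))
  (.nx 106 82572 (.lg 2 false 13 101 103 9 12162 720720) .out)) .out))) (.nr 121 109 (.lg 0 true 13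
  79 79 9 0 1560) .out))) (.nr 148 13 (.lg 0 true 26 71 71 9 0 3120) .out)) (.nx 171 6503 (.nx 162
  205 (.lg 0 false 13 79 79 9 0 1560) (.nx 163 1290 .out (.nr 170 46342 (.lg 0 false 7 97 97 9 0
  5040) .out))) .out)))) .out) .out) (.na 175 3 .ne (.nx 319 6658044 (.nr 318 881745 (.nx 178 121
  (.nx 177 120 (.nr 176 30 (.lg 0 true 1 31 31 5 0 360) (.l1 .sk)) (.l1 .sk)) (.nr 304 110219 (.nx
  264 832257 (.nx 199 13003 (.nr 191 55110 (.lg 0 false 13 97 97 13 0 9360) (.nx 198 1292 (.lg 0
  false 7 83 83 7 0 5040) .out)) (.nr 263 65537 (.nr 221 364 (.lg 0 true 22 83 83 16 0 7920) (.nx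
  262 208065 (.nx 232 28090 (.lg 1 false 11 101 103 7 36357 720720) (.nx 243 52017 (.lg 1 true 11
  89 97 7 16830 7920) (.nr 261 38969 (.nr 250 3220 (.lg 2 true 7 83 83 7 34297 2520) (.lg 2 false
  11 89 97 7 5411 55440)) .out))) .out)) .out)) (.nr 303 33 (.lg 0 true 39 73 73 7 0 4680) .out))
  (.nx 317 205 (.lg 0 false 13 73 73 13 0 4680) .out))) .out) .out))) (.na 539 6 (.na 447 5 (.nx
  446 10568985 (.nr 445 1246976 (.nx 322 120 (.nr 321 38 (.lg 0 true 1 31 31 9 0 240) (.l1 .sk))
  (.nx 323 121 (.l1 .sk) (.nr 433 155873 (.nx 383 330282 (.nx 342 10321 (.nr 334 55110 (.lg 0 false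
  11 89 97 13 0 7920) (.nx 341 1292 (.lg 0 false 7 83 89 11 0 5040) .out)) (.nr 382 65537 (.nr 356
  2635 (.nr 353 694 (.lg 0 true 11 83 83 13 0 2640) (.lg 2 true 3 89 89 9 28555 720)) (.nx 370
  41287 (.nx 363 20642 (.lg 1 false 7 101 103 11 45805 720720) (.lg 1 false 7 101 103 11 22902
  720720)) (.nr 381 55110 (.lg 2 false 11 97 103 13 9632 720720) .out))) .out)) (.nr 432 183 (.nx
  394 1321124 (.lg 0 true 11 83 83 13 0 2640) (.nr 431 21 (.nx 405 2642247 (.lg 0 true 11 71 71 11
  0 2640) (.lg 0 true 26 79 79 11 0 3120)) .out)) .out)) (.nx 444 205 (.lg 0 false 11 79 79 13 0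
  2640) .out)))) .out) .out) (.nx 538 10568985 (.nr 537 1482912 (.nx 450 121 (.nx 449 120 (.nr 448
  46 (.lg 0 true 1 31 31 9 0 7920) (.l1 .sk)) (.l1 .sk)) (.nr 522 65537 (.nx 493 1321124 (.nx 464
  23170 (.lg 0 false 14 97 101 16 0 720720) (.nx 478 262145 (.nr 471 824 (.lg 0 true 7 73 73 11 0
  840) (.lg 2 false 7 103 103 11 20404 720720)) (.nr 492 217 (.lg 0 true 14 73 73 16 0 1680)
  .out))) (.nr 521 24 (.lg 0 true 28 71 71 11 0 1680) .out)) (.nx 536 205 (.lg 0 false 14 71 71 16
  0 1680) .out))) .out) .out)) (.na 540 8 .ne (.nx 603 10568985 (.nr 602 623489 (.nx 579 1321124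
  (.nx 542 120 (.nr 541 69 (.lg 0 true 1 29 29 9 0 720) (.l1 .sk)) (.nx 543 121 (.l1 .sk) (.nx 558
  20532 (.nr 550 77937 (.lg 0 false 7 97 97 13 0 5040) (.nx 557 814 (.lg 0 false 7 83 83 13 0 1680)
  .out)) (.nr 578 65537 (.nr 569 364 (.lg 0 true 11 79 79 13 0 2640) (.nx 577 208065 (.nr 570 692
  (.lg 2 false 1 73 73 9 34297 720) (.lg 2 false 7 101 103 13 23025 720720)) .out)) .out)))) (.nr
  601 55 (.lg 0 true 22 79 79 13 0 2640) .out)) .out) .out)))) (.na 698 13 (.na 606 11 (.na 605 10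
  (.lg 0 false 1 0 0 7 0 24) .ne) (.na 659 12 (.nx 658 1321124 (.nr 657 623489 (.nr 607 2 .s1 (.nx
  610 121 (.nx 609 120 (.nr 608 93 (.lg 0 true 1 29 29 9 0 7920) (.l1 .sk)) (.l1 .sk)) (.nr 649
  77937 (.nr 623 766 (.nx 617 330282 (.lg 0 true 7 73 73 16 0 9240) (.nr 622 65 (.lg 0 true 5 71 71
  16 0 1320) .out)) (.nx 648 165142 (.nr 629 13461 (.nx 625 7201 (.lg 0 true 2 83 83 9 0 2640) (.lg
  2 false 4 73 73 16 13581 2640)) (.nx 636 26009 (.lg 0 false 7 97 103 16 0 720720) (.nr 647 46342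
  (.nr 643 32769 (.lg 0 true 7 97 101 16 0 55440) (.nx 646 65537 (.lg 0 true 3 97 97 9 0 7920)
  .out)) .out))) .out)) (.nx 656 814 (.lg 0 false 7 79 83 16 0 9240) .out)))) .out) .out) (.nx 697
  1321124 (.nr 696 623489 (.nr 660 5 .s1 (.nx 663 121 (.nx 662 120 (.nr 661 101 (.lg 0 true 1 23 23
  13 0 720) (.l1 .sk)) (.l1 .sk)) (.nr 688 92683 (.nx 670 26009 (.lg 0 false 7 89 89 19 0 5040)
  (.nr 687 46342 (.nx 679 165142 (.nr 672 766 (.lg 0 false 2 73 73 13 0 720) (.lg 2 false 7 83 89
  19 12936 5040)) (.nr 686 183 (.lg 0 true 7 73 73 19 0 5040) .out)) .out)) (.nx 695 814 (.lg 0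
  false 7 79 79 19 0 5040) .out)))) .out) .out))) (.na 777 16 (.na 742 15 (.nx 741 1321124 (.nr 740
  623489 (.nr 699 8 .s1 (.nx 703 324 (.nx 701 120 (.nr 700 116 (.lg 0 false 1 29 29 9 0 9360) (.l1
  .sk)) (.nx 702 121 (.l1 .sk) (.l1 (.ls 83 41 6951)))) (.nr 739 220437 (.nx 712 7201 (.nr 710
  92683 (.lg 0 false 7 83 83 16 0 10920) (.nx 711 814 (.lg 0 true 1 79 79 9 0 1560) .out)) (.nr 738
  65537 (.nr 719 374 (.lg 0 true 7 79 79 16 0 10920) (.nx 737 165142 (.nr 726 27556 (.lg 2 false 7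
  73 73 16 27675 10920) (.nx 736 104033 (.nr 733 46342 (.lg 0 true 7 97 101 16 0 720720) (.nx 735
  26009 (.lg 0 true 2 89 89 11 0 3120) .out)) .out)) .out)) .out)) .out))) .out) .out) (.nx 776
  1321124 (.nr 775 623489 (.nr 743 11 .s1 (.nx 746 121 (.nx 745 120 (.nr 744 124 (.l1 (.ls 17 31
  962)) (.l1 .sk)) (.l1 .sk)) (.nx 747 324 (.l1 (.ls 73 43 6025)) (.nr 774 220437 (.nx 754 14532
  (.lg 0 false 7 83 83 16 0 2520) (.nr 773 65537 (.nr 765 374 (.lg 0 true 11 71 71 16 0 3960) (.nx
  772 165142 (.lg 2 false 7 83 83 16 32532 2520) .out)) .out)) .out)))) .out) .out)) (.na 778 17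
  .ne (.nx 816 1321124 (.nr 815 1048577 (.nr 779 14 .s1 (.nx 782 121 (.nx 781 120 (.nr 780 155 (.lg
  0 false 1 31 31 11 0 7920) (.l1 .sk)) (.l1 .sk)) (.nx 793 8193 (.nx 785 324 (.nx 783 205 (.l1
  (.ls 83 31 1613)) (.nr 784 623489 (.l1 (.ls 83 37 3706)) .out)) (.nr 792 220437 (.lg 0 false 7 83
  89 16 0 840) .out)) (.nr 814 65537 (.nr 808 27556 (.nr 800 498 (.lg 0 true 7 79 79 16 0 840) (.nx
  807 165142 (.lg 2 true 7 73 73 16 24324 840) .out)) (.nx 813 104033 (.nx 810 26009 (.lg 0 true 2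
  97 97 11 0 7920) (.nr 812 32769 (.lg 0 true 2 89 89 11 0 240) .out)) .out)) .out)))) .out)
  .out)))))

theorem c125 :
    OkQ ckI L6 95 74 1099511627776 0 34359738368 1 1099511627776 ∧
    OkQ ckI L10 228 1 22 0 34359738368 1 1099511627776 ∧
    OkQ ckI L6 120 1 20 0 34359738368 1 1099511627776 := by
  refine ⟨?_, ?_, ?_⟩
  · refine fin 6840 7471 T125_0 ?_
    refine jn 10 (by decide +kernel) ?_
    refine jn 26 (by decide +kernel) ?_
    refine jn 37 (by decide +kernel) ?_
    refine jn 39 (by decide +kernel) ?_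
    refine jn 48 (by decide +kernel) ?_
    refine jn 50 (by decide +kernel) ?_
    refine jn 52 (by decide +kernel) ?_
    refine jn 63 (by decide +kernel) ?_
    refine jn 72 (by decide +kernel) ?_
    refine jn 73 (by decide +kernel) ?_
    refine jn 74 (by decide +kernel) ?_
    refine jn 76 (by decide +kernel) ?_
    refine jn 86 (by decide +kernel) ?_
    refine jn 106 (by decide +kernel) ?_
    refine jn 109 (by decide +kernel) ?_
    refine jn 110 (by decide +kernel) ?_
    refine jn 111 (by decide +kernel) ?_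
    refine jn 113 (by decide +kernel) ?_
    refine jn 123 (by decide +kernel) ?_
    refine jn 133 (by decide +kernel) ?_
    refine jn 136 (by decide +kernel) ?_
    refine jn 148 (by decide +kernel) ?_
    refine jn 159 (by decide +kernel) ?_
    refine jn 167 (by decide +kernel) ?_
    refine jn 168 (by decide +kernel) ?_
    refine jn 169 (by decide +kernel) ?_
    refine jn 170 (by decide +kernel) ?_
    refine jn 181 (by decide +kernel) ?_
    refine jn 192 (by decide +kernel) ?_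
    refine jn 203 (by decide +kernel) ?_
    refine jn 214 (by decide +kernel) ?_
    refine jn 224 (by decide +kernel) ?_
    refine jn 226 (by decide +kernel) ?_
    refine jn 237 (by decide +kernel) ?_
    refine jn 248 (by decide +kernel) ?_
    refine jn 257 (by decide +kernel) ?_
    refine jn 259 (by decide +kernel) ?_
    refine jn 267 (by decide +kernel) ?_
    refine jn 268 (by decide +kernel) ?_
    refine jn 270 (by decide +kernel) ?_
    refine jn 281 (by decide +kernel) ?_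
    refine jn 292 (by decide +kernel) ?_
    refine jn 304 (by decide +kernel) ?_
    refine jn 314 (by decide +kernel) ?_
    refine jn 324 (by decide +kernel) ?_
    refine jn 337 (by decide +kernel) ?_
    refine jn 339 (by decide +kernel) ?_
    refine jn 341 (by decide +kernel) ?_
    refine jn 357 (by decide +kernel) ?_
    refine jn 367 (by decide +kernel) ?_
    refine jn 376 (by decide +kernel) ?_
    refine jn 384 (by decide +kernel) ?_
    refine jn 387 (by decide +kernel) ?_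
    refine jn 396 (by decide +kernel) ?_
    refine jn 405 (by decide +kernel) ?_
    refine jn 415 (by decide +kernel) ?_
    refine jn 422 (by decide +kernel) ?_
    refine jn 424 (by decide +kernel) ?_
    refine jn 434 (by decide +kernel) ?_
    refine jn 442 (by decide +kernel) ?_
    refine jn 458 (by decide +kernel) ?_
    refine jn 467 (by decide +kernel) ?_
    refine jn 483 (by decide +kernel) ?_
    refine jn 497 (by decide +kernel) ?_
    refine jn 498 (by decide +kernel) ?_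
    refine jn 507 (by decide +kernel) ?_
    refine jn 517 (by decide +kernel) ?_
    refine jn 535 (by decide +kernel) ?_
    refine jn 549 (by decide +kernel) ?_
    refine jn 550 (by decide +kernel) ?_
    refine jn 559 (by decide +kernel) ?_
    refine jn 574 (by decide +kernel) ?_
    refine jn 584 (by decide +kernel) ?_
    refine jn 600 (by decide +kernel) ?_
    refine jn 609 (by decide +kernel) ?_
    refine jn 623 (by decide +kernel) ?_
    refine jn 624 (by decide +kernel) ?_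
    refine jn 633 (by decide +kernel) ?_
    refine jn 642 (by decide +kernel) ?_
    refine jn 656 (by decide +kernel) ?_
    refine jn 657 (by decide +kernel) ?_
    refine jn 665 (by decide +kernel) ?_
    refine jn 675 (by decide +kernel) ?_
    refine jn 691 (by decide +kernel) ?_
    refine jn 706 (by decide +kernel) ?_
    refine jn 715 (by decide +kernel) ?_
    refine jn 724 (by decide +kernel) ?_
    refine jn 738 (by decide +kernel) ?_
    refine jn 739 (by decide +kernel) ?_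
    refine jn 749 (by decide +kernel) ?_
    refine jn 764 (by decide +kernel) ?_
    refine jn 773 (by decide +kernel) ?_
    refine jn 790 (by decide +kernel) ?_
    refine jn 798 (by decide +kernel) ?_
    refine jn 810 (by decide +kernel) ?_
    refine jn 811 (by decide +kernel) ?_
    refine jn 834 (by decide +kernel) ?_
    refine jn 844 (by decide +kernel) ?_
    refine jn 858 (by decide +kernel) ?_
    refine jn 864 (by decide +kernel) ?_
    refine jn 883 (by decide +kernel) ?_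
    refine jn 906 (by decide +kernel) ?_
    refine jn 930 (by decide +kernel) ?_
    refine jn 944 (by decide +kernel) ?_
    refine jn 964 (by decide +kernel) ?_
    refine jn 986 (by decide +kernel) ?_
    refine jn 1002 (by decide +kernel) ?_
    refine jn 1026 (by decide +kernel) ?_
    refine jn 1041 (by decide +kernel) ?_
    refine jn 1061 (by decide +kernel) ?_
    refine jn 1065 (by decide +kernel) ?_
    refine jn 1066 (by decide +kernel) ?_
    refine jn 1071 (by decide +kernel) ?_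
    refine jn 1086 (by decide +kernel) ?_
    refine jn 1089 (by decide +kernel) ?_
    refine jn 1090 (by decide +kernel) ?_
    refine jn 1097 (by decide +kernel) ?_
    refine jn 1098 (by decide +kernel) ?_
    refine jn 1104 (by decide +kernel) ?_
    refine jn 1106 (by decide +kernel) ?_
    refine jn 1110 (by decide +kernel) ?_
    refine jn 1113 (by decide +kernel) ?_
    refine jn 1114 (by decide +kernel) ?_
    refine jn 1121 (by decide +kernel) ?_
    refine jn 1125 (by decide +kernel) ?_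
    refine jn 1134 (by decide +kernel) ?_
    refine jn 1136 (by decide +kernel) ?_
    refine jn 1140 (by decide +kernel) ?_
    refine jn 1147 (by decide +kernel) ?_
    refine jn 1152 (by decide +kernel) ?_
    refine jn 1153 (by decide +kernel) ?_
    refine jn 1160 (by decide +kernel) ?_
    refine jn 1161 (by decide +kernel) ?_
    refine jn 1164 (by decide +kernel) ?_
    refine jn 1171 (by decide +kernel) ?_
    refine jn 1182 (by decide +kernel) ?_
    refine jn 1184 (by decide +kernel) ?_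
    refine jn 1185 (by decide +kernel) ?_
    refine jn 1187 (by decide +kernel) ?_
    refine jn 1190 (by decide +kernel) ?_
    refine jn 1194 (by decide +kernel) ?_
    refine jn 1197 (by decide +kernel) ?_
    refine jn 1199 (by decide +kernel) ?_
    refine jn 1205 (by decide +kernel) ?_
    refine jn 1208 (by decide +kernel) ?_
    refine jn 1217 (by decide +kernel) ?_
    refine jn 1218 (by decide +kernel) ?_
    refine jn 1220 (by decide +kernel) ?_
    refine jn 1225 (by decide +kernel) ?_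
    refine jn 1229 (by decide +kernel) ?_
    refine jn 1230 (by decide +kernel) ?_
    refine jn 1233 (by decide +kernel) ?_
    refine jn 1234 (by decide +kernel) ?_
    refine jn 1241 (by decide +kernel) ?_
    refine jn 1245 (by decide +kernel) ?_
    refine jn 1247 (by decide +kernel) ?_
    refine jn 1253 (by decide +kernel) ?_
    refine jn 1257 (by decide +kernel) ?_
    refine jn 1259 (by decide +kernel) ?_
    refine jn 1269 (by decide +kernel) ?_
    refine jn 1278 (by decide +kernel) ?_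
    refine jn 1281 (by decide +kernel) ?_
    refine jn 1282 (by decide +kernel) ?_
    refine jn 1286 (by decide +kernel) ?_
    refine jn 1289 (by decide +kernel) ?_
    refine jn 1292 (by decide +kernel) ?_
    refine jn 1300 (by decide +kernel) ?_
    refine jn 1306 (by decide +kernel) ?_
    refine jn 1309 (by decide +kernel) ?_
    refine jn 1328 (by decide +kernel) ?_
    refine jn 1345 (by decide +kernel) ?_
    refine jn 1377 (by decide +kernel) ?_
    refine jn 1397 (by decide +kernel) ?_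
    refine jn 1423 (by decide +kernel) ?_
    refine jn 1441 (by decide +kernel) ?_
    refine jn 1474 (by decide +kernel) ?_
    refine jn 1497 (by decide +kernel) ?_
    refine jn 1525 (by decide +kernel) ?_
    refine jn 1532 (by decide +kernel) ?_
    refine jn 1538 (by decide +kernel) ?_
    refine jn 1541 (by decide +kernel) ?_
    refine jn 1546 (by decide +kernel) ?_
    refine jn 1547 (by decide +kernel) ?_
    refine jn 1554 (by decide +kernel) ?_
    refine jn 1558 (by decide +kernel) ?_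
    refine jn 1565 (by decide +kernel) ?_
    refine jn 1573 (by decide +kernel) ?_
    refine jn 1581 (by decide +kernel) ?_
    refine jn 1589 (by decide +kernel) ?_
    refine jn 1590 (by decide +kernel) ?_
    refine jn 1591 (by decide +kernel) ?_
    refine jn 1594 (by decide +kernel) ?_
    refine jn 1597 (by decide +kernel) ?_
    refine jn 1601 (by decide +kernel) ?_
    refine jn 1605 (by decide +kernel) ?_
    refine jn 1612 (by decide +kernel) ?_
    refine jn 1615 (by decide +kernel) ?_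
    refine jn 1623 (by decide +kernel) ?_
    refine jn 1626 (by decide +kernel) ?_
    refine jn 1636 (by decide +kernel) ?_
    refine jn 1642 (by decide +kernel) ?_
    refine jn 1643 (by decide +kernel) ?_
    refine jn 1653 (by decide +kernel) ?_
    refine jn 1658 (by decide +kernel) ?_
    refine jn 1666 (by decide +kernel) ?_
    refine jn 1678 (by decide +kernel) ?_
    refine jn 1684 (by decide +kernel) ?_
    refine jn 1687 (by decide +kernel) ?_
    refine jn 1691 (by decide +kernel) ?_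
    refine jn 1695 (by decide +kernel) ?_
    refine jn 1701 (by decide +kernel) ?_
    refine jn 1707 (by decide +kernel) ?_
    refine jn 1713 (by decide +kernel) ?_
    refine jn 1720 (by decide +kernel) ?_
    refine jn 1722 (by decide +kernel) ?_
    refine jn 1733 (by decide +kernel) ?_
    refine jn 1737 (by decide +kernel) ?_
    refine jn 1747 (by decide +kernel) ?_
    refine jn 1855 (by decide +kernel) ?_
    refine jn 1873 (by decide +kernel) ?_
    refine jn 1887 (by decide +kernel) ?_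
    refine jn 1898 (by decide +kernel) ?_
    refine jn 1910 (by decide +kernel) ?_
    refine jn 1913 (by decide +kernel) ?_
    refine jn 1927 (by decide +kernel) ?_
    refine jn 1950 (by decide +kernel) ?_
    refine jn 1966 (by decide +kernel) ?_
    refine jn 1976 (by decide +kernel) ?_
    refine jn 1989 (by decide +kernel) ?_
    refine jn 2006 (by decide +kernel) ?_
    refine jn 2012 (by decide +kernel) ?_
    refine jn 2030 (by decide +kernel) ?_
    refine jn 2047 (by decide +kernel) ?_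
    refine jn 2069 (by decide +kernel) ?_
    refine jn 2081 (by decide +kernel) ?_
    refine jn 2094 (by decide +kernel) ?_
    refine jn 2117 (by decide +kernel) ?_
    refine jn 2134 (by decide +kernel) ?_
    refine jn 2159 (by decide +kernel) ?_
    refine jn 2172 (by decide +kernel) ?_
    refine jn 2184 (by decide +kernel) ?_
    refine jn 2203 (by decide +kernel) ?_
    refine jn 2232 (by decide +kernel) ?_
    refine jn 2256 (by decide +kernel) ?_
    refine jn 2267 (by decide +kernel) ?_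
    refine jn 2285 (by decide +kernel) ?_
    refine jn 2305 (by decide +kernel) ?_
    refine jn 2322 (by decide +kernel) ?_
    refine jn 2342 (by decide +kernel) ?_
    refine jn 2365 (by decide +kernel) ?_
    refine jn 2378 (by decide +kernel) ?_
    refine jn 2394 (by decide +kernel) ?_
    refine jn 2417 (by decide +kernel) ?_
    refine jn 2441 (by decide +kernel) ?_
    refine jn 2459 (by decide +kernel) ?_
    refine jn 2476 (by decide +kernel) ?_
    refine jn 2499 (by decide +kernel) ?_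
    refine jn 2525 (by decide +kernel) ?_
    refine jn 2555 (by decide +kernel) ?_
    refine jn 2570 (by decide +kernel) ?_
    refine jn 2689 (by decide +kernel) ?_
    refine jn 2726 (by decide +kernel) ?_
    refine jn 2758 (by decide +kernel) ?_
    refine jn 2781 (by decide +kernel) ?_
    refine jn 2825 (by decide +kernel) ?_
    refine jn 2859 (by decide +kernel) ?_
    refine jn 2892 (by decide +kernel) ?_
    refine jn 2936 (by decide +kernel) ?_
    refine jn 2967 (by decide +kernel) ?_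
    refine jn 3004 (by decide +kernel) ?_
    refine jn 3043 (by decide +kernel) ?_
    refine jn 3086 (by decide +kernel) ?_
    refine jn 3130 (by decide +kernel) ?_
    refine jn 3164 (by decide +kernel) ?_
    refine jn 3210 (by decide +kernel) ?_
    refine jn 3242 (by decide +kernel) ?_
    refine jn 3371 (by decide +kernel) ?_
    refine jn 3413 (by decide +kernel) ?_
    refine jn 3445 (by decide +kernel) ?_
    refine jn 3487 (by decide +kernel) ?_
    refine jn 3539 (by decide +kernel) ?_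
    refine jn 3579 (by decide +kernel) ?_
    refine jn 3618 (by decide +kernel) ?_
    refine jn 3659 (by decide +kernel) ?_
    refine jn 3703 (by decide +kernel) ?_
    refine jn 3743 (by decide +kernel) ?_
    refine jn 3782 (by decide +kernel) ?_
    refine jn 3816 (by decide +kernel) ?_
    refine jn 3863 (by decide +kernel) ?_
    refine jn 3906 (by decide +kernel) ?_
    refine jn 3956 (by decide +kernel) ?_
    refine jn 3997 (by decide +kernel) ?_
    refine jn 4036 (by decide +kernel) ?_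
    refine jn 4082 (by decide +kernel) ?_
    refine jn 4127 (by decide +kernel) ?_
    refine jn 4179 (by decide +kernel) ?_
    refine jn 4214 (by decide +kernel) ?_
    refine jn 4435 (by decide +kernel) ?_
    refine jn 4535 (by decide +kernel) ?_
    refine jn 4618 (by decide +kernel) ?_
    refine jn 4697 (by decide +kernel) ?_
    refine jn 4799 (by decide +kernel) ?_
    refine jn 4861 (by decide +kernel) ?_
    refine jn 5029 (by decide +kernel) ?_
    refine jn 5097 (by decide +kernel) ?_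
    refine jn 5139 (by decide +kernel) ?_
    refine jn 5197 (by decide +kernel) ?_
    refine jn 5251 (by decide +kernel) ?_
    refine jn 5301 (by decide +kernel) ?_
    refine jn 5355 (by decide +kernel) ?_
    refine jn 5395 (by decide +kernel) ?_
    refine jn 5443 (by decide +kernel) ?_
    refine jn 5475 (by decide +kernel) ?_
    refine jn 5500 (by decide +kernel) ?_
    refine jn 5709 (by decide +kernel) ?_
    refine jn 5761 (by decide +kernel) ?_
    refine jn 5825 (by decide +kernel) ?_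
    refine jn 5881 (by decide +kernel) ?_
    refine jn 5951 (by decide +kernel) ?_
    refine jn 6017 (by decide +kernel) ?_
    refine jn 6088 (by decide +kernel) ?_
    refine jn 6138 (by decide +kernel) ?_
    refine jn 6343 (by decide +kernel) ?_
    refine jn 6454 (by decide +kernel) ?_
    refine jn 6516 (by decide +kernel) ?_
    refine jn 6597 (by decide +kernel) ?_
    refine jn 6666 (by decide +kernel) ?_
    refine jn 6733 (by decide +kernel) ?_
    refine jn 6806 (by decide +kernel) ?_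
    refine jn 7118 (by decide +kernel) ?_
    refine jn 7460 (by decide +kernel) ?_
    exact je (by decide +kernel)
  · refine fin 456 1083 T125_1 ?_
    refine jn 13 (by decide +kernel) ?_
    refine jn 22 (by decide +kernel) ?_
    refine jn 30 (by decide +kernel) ?_
    refine jn 37 (by decide +kernel) ?_
    refine jn 44 (by decide +kernel) ?_
    refine jn 52 (by decide +kernel) ?_
    refine jn 61 (by decide +kernel) ?_
    refine jn 69 (by decide +kernel) ?_
    refine jn 77 (by decide +kernel) ?_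
    refine jn 103 (by decide +kernel) ?_
    refine jn 125 (by decide +kernel) ?_
    refine jn 137 (by decide +kernel) ?_
    refine jn 150 (by decide +kernel) ?_
    refine jn 164 (by decide +kernel) ?_
    refine jn 179 (by decide +kernel) ?_
    refine jn 188 (by decide +kernel) ?_
    refine jn 207 (by decide +kernel) ?_
    refine jn 225 (by decide +kernel) ?_
    refine jn 241 (by decide +kernel) ?_
    refine jn 260 (by decide +kernel) ?_
    refine jn 278 (by decide +kernel) ?_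
    refine jn 289 (by decide +kernel) ?_
    refine jn 312 (by decide +kernel) ?_
    refine jn 324 (by decide +kernel) ?_
    refine jn 346 (by decide +kernel) ?_
    refine jn 359 (by decide +kernel) ?_
    refine jn 385 (by decide +kernel) ?_
    refine jn 411 (by decide +kernel) ?_
    refine jn 423 (by decide +kernel) ?_
    refine jn 452 (by decide +kernel) ?_
    refine jn 462 (by decide +kernel) ?_
    refine jn 481 (by decide +kernel) ?_
    refine jn 484 (by decide +kernel) ?_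
    refine jn 487 (by decide +kernel) ?_
    refine jn 490 (by decide +kernel) ?_
    refine jn 493 (by decide +kernel) ?_
    refine jn 496 (by decide +kernel) ?_
    refine jn 499 (by decide +kernel) ?_
    refine jn 503 (by decide +kernel) ?_
    refine jn 506 (by decide +kernel) ?_
    refine jn 508 (by decide +kernel) ?_
    refine jn 510 (by decide +kernel) ?_
    refine jn 513 (by decide +kernel) ?_
    refine jn 516 (by decide +kernel) ?_
    refine jn 526 (by decide +kernel) ?_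
    refine jn 529 (by decide +kernel) ?_
    refine jn 531 (by decide +kernel) ?_
    refine jn 534 (by decide +kernel) ?_
    refine jn 536 (by decide +kernel) ?_
    refine jn 537 (by decide +kernel) ?_
    refine jn 544 (by decide +kernel) ?_
    refine jn 551 (by decide +kernel) ?_
    refine jn 561 (by decide +kernel) ?_
    refine jn 573 (by decide +kernel) ?_
    refine jn 583 (by decide +kernel) ?_
    refine jn 587 (by decide +kernel) ?_
    refine jn 598 (by decide +kernel) ?_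
    refine jn 611 (by decide +kernel) ?_
    refine jn 622 (by decide +kernel) ?_
    refine jn 632 (by decide +kernel) ?_
    refine jn 642 (by decide +kernel) ?_
    refine jn 652 (by decide +kernel) ?_
    refine jn 657 (by decide +kernel) ?_
    refine jn 668 (by decide +kernel) ?_
    refine jn 679 (by decide +kernel) ?_
    refine jn 691 (by decide +kernel) ?_
    refine jn 700 (by decide +kernel) ?_
    refine jn 701 (by decide +kernel) ?_
    refine jn 709 (by decide +kernel) ?_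
    refine jn 743 (by decide +kernel) ?_
    refine jn 778 (by decide +kernel) ?_
    refine jn 798 (by decide +kernel) ?_
    refine jn 812 (by decide +kernel) ?_
    refine jn 830 (by decide +kernel) ?_
    refine jn 846 (by decide +kernel) ?_
    refine jn 869 (by decide +kernel) ?_
    refine jn 902 (by decide +kernel) ?_
    refine jn 914 (by decide +kernel) ?_
    refine jn 967 (by decide +kernel) ?_
    refine jn 989 (by decide +kernel) ?_
    refine jn 994 (by decide +kernel) ?_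
    refine jn 999 (by decide +kernel) ?_
    refine jn 1003 (by decide +kernel) ?_
    refine jn 1007 (by decide +kernel) ?_
    refine jn 1015 (by decide +kernel) ?_
    refine jn 1020 (by decide +kernel) ?_
    refine jn 1027 (by decide +kernel) ?_
    refine jn 1040 (by decide +kernel) ?_
    refine jn 1048 (by decide +kernel) ?_
    refine jn 1055 (by decide +kernel) ?_
    refine jn 1063 (by decide +kernel) ?_
    refine jn 1076 (by decide +kernel) ?_
    exact je (by decide +kernel)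
  · refine fin 120 817 T125_2 ?_
    refine jn 5 (by decide +kernel) ?_
    refine jn 6 (by decide +kernel) ?_
    refine jn 7 (by decide +kernel) ?_
    refine jn 9 (by decide +kernel) ?_
    refine jn 11 (by decide +kernel) ?_
    refine jn 13 (by decide +kernel) ?_
    refine jn 14 (by decide +kernel) ?_
    refine jn 16 (by decide +kernel) ?_
    refine jn 18 (by decide +kernel) ?_
    refine jn 19 (by decide +kernel) ?_
    refine jn 20 (by decide +kernel) ?_
    refine jn 22 (by decide +kernel) ?_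
    refine jn 24 (by decide +kernel) ?_
    refine jn 26 (by decide +kernel) ?_
    refine jn 27 (by decide +kernel) ?_
    refine jn 29 (by decide +kernel) ?_
    refine jn 34 (by decide +kernel) ?_
    refine jn 37 (by decide +kernel) ?_
    refine jn 41 (by decide +kernel) ?_
    refine jn 46 (by decide +kernel) ?_
    refine jn 49 (by decide +kernel) ?_
    refine jn 53 (by decide +kernel) ?_
    refine jn 55 (by decide +kernel) ?_
    refine jn 68 (by decide +kernel) ?_
    refine jn 81 (by decide +kernel) ?_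
    refine jn 92 (by decide +kernel) ?_
    refine jn 106 (by decide +kernel) ?_
    refine jn 119 (by decide +kernel) ?_
    refine jn 122 (by decide +kernel) ?_
    refine jn 148 (by decide +kernel) ?_
    refine jn 170 (by decide +kernel) ?_
    refine jn 181 (by decide +kernel) ?_
    refine jn 185 (by decide +kernel) ?_
    refine jn 189 (by decide +kernel) ?_
    refine jn 198 (by decide +kernel) ?_
    refine jn 207 (by decide +kernel) ?_
    refine jn 217 (by decide +kernel) ?_
    refine jn 221 (by decide +kernel) ?_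
    refine jn 243 (by decide +kernel) ?_
    refine jn 261 (by decide +kernel) ?_
    refine jn 303 (by decide +kernel) ?_
    refine jn 323 (by decide +kernel) ?_
    refine jn 324 (by decide +kernel) ?_
    refine jn 325 (by decide +kernel) ?_
    refine jn 326 (by decide +kernel) ?_
    refine jn 327 (by decide +kernel) ?_
    refine jn 328 (by decide +kernel) ?_
    refine jn 329 (by decide +kernel) ?_
    refine jn 330 (by decide +kernel) ?_
    refine jn 331 (by decide +kernel) ?_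
    refine jn 332 (by decide +kernel) ?_
    refine jn 333 (by decide +kernel) ?_
    refine jn 334 (by decide +kernel) ?_
    refine jn 342 (by decide +kernel) ?_
    refine jn 344 (by decide +kernel) ?_
    refine jn 345 (by decide +kernel) ?_
    refine jn 346 (by decide +kernel) ?_
    refine jn 348 (by decide +kernel) ?_
    refine jn 350 (by decide +kernel) ?_
    refine jn 351 (by decide +kernel) ?_
    refine jn 353 (by decide +kernel) ?_
    refine jn 356 (by decide +kernel) ?_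
    refine jn 363 (by decide +kernel) ?_
    refine jn 370 (by decide +kernel) ?_
    refine jn 379 (by decide +kernel) ?_
    refine jn 387 (by decide +kernel) ?_
    refine jn 393 (by decide +kernel) ?_
    refine jn 405 (by decide +kernel) ?_
    refine jn 431 (by decide +kernel) ?_
    refine jn 444 (by decide +kernel) ?_
    refine jn 455 (by decide +kernel) ?_
    refine jn 462 (by decide +kernel) ?_
    refine jn 464 (by decide +kernel) ?_
    refine jn 471 (by decide +kernel) ?_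
    refine jn 478 (by decide +kernel) ?_
    refine jn 492 (by decide +kernel) ?_
    refine jn 521 (by decide +kernel) ?_
    refine jn 543 (by decide +kernel) ?_
    refine jn 544 (by decide +kernel) ?_
    refine jn 545 (by decide +kernel) ?_
    refine jn 546 (by decide +kernel) ?_
    refine jn 548 (by decide +kernel) ?_
    refine jn 549 (by decide +kernel) ?_
    refine jn 550 (by decide +kernel) ?_
    refine jn 560 (by decide +kernel) ?_
    refine jn 564 (by decide +kernel) ?_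
    refine jn 568 (by decide +kernel) ?_
    refine jn 570 (by decide +kernel) ?_
    refine jn 577 (by decide +kernel) ?_
    refine jn 601 (by decide +kernel) ?_
    refine jn 610 (by decide +kernel) ?_
    refine jn 611 (by decide +kernel) ?_
    refine jn 612 (by decide +kernel) ?_
    refine jn 613 (by decide +kernel) ?_
    refine jn 614 (by decide +kernel) ?_
    refine jn 615 (by decide +kernel) ?_
    refine jn 616 (by decide +kernel) ?_
    refine jn 617 (by decide +kernel) ?_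
    refine jn 622 (by decide +kernel) ?_
    refine jn 625 (by decide +kernel) ?_
    refine jn 626 (by decide +kernel) ?_
    refine jn 627 (by decide +kernel) ?_
    refine jn 628 (by decide +kernel) ?_
    refine jn 629 (by decide +kernel) ?_
    refine jn 636 (by decide +kernel) ?_
    refine jn 638 (by decide +kernel) ?_
    refine jn 640 (by decide +kernel) ?_
    refine jn 642 (by decide +kernel) ?_
    refine jn 646 (by decide +kernel) ?_
    refine jn 663 (by decide +kernel) ?_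
    refine jn 665 (by decide +kernel) ?_
    refine jn 667 (by decide +kernel) ?_
    refine jn 669 (by decide +kernel) ?_
    refine jn 670 (by decide +kernel) ?_
    refine jn 672 (by decide +kernel) ?_
    refine jn 679 (by decide +kernel) ?_
    refine jn 686 (by decide +kernel) ?_
    refine jn 702 (by decide +kernel) ?_
    refine jn 703 (by decide +kernel) ?_
    refine jn 705 (by decide +kernel) ?_
    refine jn 707 (by decide +kernel) ?_
    refine jn 708 (by decide +kernel) ?_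
    refine jn 711 (by decide +kernel) ?_
    refine jn 716 (by decide +kernel) ?_
    refine jn 719 (by decide +kernel) ?_
    refine jn 720 (by decide +kernel) ?_
    refine jn 721 (by decide +kernel) ?_
    refine jn 722 (by decide +kernel) ?_
    refine jn 723 (by decide +kernel) ?_
    refine jn 724 (by decide +kernel) ?_
    refine jn 725 (by decide +kernel) ?_
    refine jn 726 (by decide +kernel) ?_
    refine jn 735 (by decide +kernel) ?_
    refine jn 754 (by decide +kernel) ?_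
    refine jn 772 (by decide +kernel) ?_
    refine jn 785 (by decide +kernel) ?_
    refine jn 787 (by decide +kernel) ?_
    refine jn 789 (by decide +kernel) ?_
    refine jn 791 (by decide +kernel) ?_
    refine jn 795 (by decide +kernel) ?_
    refine jn 800 (by decide +kernel) ?_
    refine jn 801 (by decide +kernel) ?_
    refine jn 802 (by decide +kernel) ?_
    refine jn 803 (by decide +kernel) ?_
    refine jn 804 (by decide +kernel) ?_
    refine jn 805 (by decide +kernel) ?_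
    refine jn 806 (by decide +kernel) ?_
    refine jn 807 (by decide +kernel) ?_
    exact je (by decide +kernel)

end Pool.Agent.MP_2339ce_nt.NR
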