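import Pool.Agent.MP_2339ce_nt.Q2.NC.L3
import Pool.Agent.MP_2339ce_nt.Q2.NC.L8
import Pool.Agent.MP_2339ce_nt.Q2.NC.L10
import Pool.Agent.MP_2339ce_nt.Q2.CkI

/-! Block NR: runs. -/

set_option autoImplicit false
set_option maxRecDepth 100000

noncomputable section

namespace Pool.Agent.MP_2339ce_nt.NR

open Q2.Top

def T126_0 : Ph :=
  (.na 572 133 (.na 400 56 (.na 309 20 (.na 196 7 (.na 136 4 (.na 78 2 (.nx 77 330282 (.nr 76
  311745 (.nx 2 31 (.nr 1 6 (.lg 0 true 1 23 23 5 0 744) (.l1 .sk)) (.nx 3 32 (.l1 .sk) (.nr 63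
  38969 (.nx 34 20644 (.nr 26 4872 (.nx 15 2163 (.lg 0 true 12 73 73 9 0 4464) (.nr 22 309 (.lg 0
  false 7 73 73 9 0 5208) (.lg 2 true 4 79 79 7 1090 7440))) (.nx 33 324 (.lg 0 false 7 83 83 9 0
  5208) .out)) (.nr 62 78 (.lg 0 true 28 73 73 11 0 10416) .out)) (.nx 75 52 (.lg 0 false 12 73 73
  9 0 4464) .out)))) .out) .out) (.na 135 3 (.nx 134 330282 (.nr 133 623489 (.nx 80 31 (.nr 79 11
  (.lg 0 true 1 23 23 5 0 1488) (.l1 .sk)) (.nx 81 32 (.l1 .sk) (.nx 91 52 (.nr 82 355012 (.l1 (.ls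
  83 31 843)) (.lg 0 false 9 67 67 9 0 4464)) (.nr 132 65537 (.nr 125 9743 (.nx 97 2430 (.lg 0 true
  6 79 79 9 0 4464) (.nr 119 154 (.lg 0 true 22 73 73 11 0 16368) (.nx 124 20644 (.lg 2 true 5 83
  83 9 2078 52080) .out))) (.nx 131 324 (.lg 0 false 6 79 79 9 0 4464) .out)) .out)))) .out) .out)
  .ne)) (.na 171 5 (.nx 170 330282 (.nr 169 1246976 (.nx 139 32 (.nx 138 31 (.nr 137 20 (.lg 0 true
  1 19 19 9 0 52080) (.l1 .sk)) (.l1 .sk)) (.nx 157 20644 (.nx 153 3252 (.nx 147 52 (.nr 140 623493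
  (.l1 (.ls 89 29 423)) (.lg 0 false 7 71 71 11 0 10416)) (.nr 152 19485 (.lg 0 true 5 79 79 11 0
  7440) .out)) (.nr 156 2437 (.lg 0 false 3 83 83 9 0 4464) .out)) (.nr 168 109 (.lg 0 true 11 71
  71 13 0 16368) .out))) .out) .out) (.na 195 6 (.nx 194 330282 (.nr 193 23172 (.nx 183 20644 (.nx
  173 31 (.nr 172 24 (.lg 0 false 1 19 19 9 0 52080) (.l1 .sk)) (.nx 174 32 (.l1 .sk) (.nx 178 3252
  (.lg 0 true 4 79 79 13 0 7440) (.nr 182 2898 (.lg 0 true 4 79 79 13 0 7440) .out)))) (.nr 192 129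
  (.lg 0 true 9 73 73 16 0 11160) .out)) .out) .out) .ne))) (.na 235 10 (.na 214 8 (.nx 213 330282
  (.nr 212 32769 (.nr 197 5 .s1 (.nx 203 3252 (.nx 199 31 (.nr 198 32 (.lg 0 false 1 17 17 9 0
  156240) (.l1 .sk)) (.nx 200 32 (.l1 .sk) (.lg 0 true 3 79 79 11 0 15624))) (.nr 211 183 (.lg 0
  true 8 71 71 16 0 10416) .out))) .out) .out) (.na 234 9 (.nx 233 330282 (.nr 232 77937 (.nr 215 6
  .s1 (.nx 218 32 (.nx 217 31 (.nr 216 36 (.l1 (.ls 17 19 123)) (.l1 .sk)) (.l1 .sk)) (.nx 221 2851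
  (.lg 0 true 3 83 83 13 0 4464) (.nr 231 38969 (.nr 228 217 (.lg 0 true 7 71 71 13 0 10416) (.nx
  230 20644 (.nx 229 9352 (.lg 1 true 1 83 83 11 6575 1488) (.lg 1 false 1 83 83 11 2004 7440))
  .out)) .out)))) .out) .out) .ne)) (.na 272 16 (.na 255 14 (.nx 254 330282 (.nr 253 77937 (.nr 236
  9 .s1 (.nx 238 31 (.nr 237 56 (.l1 (.ls 17 23 99)) (.l1 .sk)) (.nx 239 32 (.l1 .sk) (.nx 242 2851
  (.lg 0 true 3 83 83 13 0 22320) (.nr 252 27556 (.nr 248 154 (.lg 0 true 6 71 71 13 0 22320) (.nx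
  251 20644 (.lg 1 true 3 83 83 13 4651 22320) .out)) .out))))) .out) .out) (.nx 271 330282 (.nr
  270 77937 (.nr 256 13 .s1 (.nx 259 32 (.nx 258 31 (.nr 257 64 (.l1 (.ls 17 19 71)) (.l1 .sk))
  (.l1 .sk)) (.nx 262 2851 (.lg 0 true 3 83 83 13 0 156240) (.nr 269 27556 (.nr 266 154 (.lg 0 true
  4 67 67 13 0 10416) (.nx 268 20644 (.lg 1 false 2 79 79 13 4651 52080) .out)) .out)))) .out)
  .out)) (.na 293 19 (.nx 292 330282 (.nr 291 131073 (.nr 273 16 .s1 (.nx 280 1292 (.nr 275 1422
  (.nx 274 668 (.l1 (.ls 47 53 27891)) (.l1 (.ls 47 61 76443))) (.nx 277 32 (.nx 276 31 (.l1 .sk)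
  (.l1 .sk)) (.lg 0 false 3 83 89 13 0 156240))) (.nr 290 32769 (.nx 282 4706 (.lg 0 true 2 79 79
  13 0 1488) (.nr 289 27556 (.nr 285 154 (.lg 0 true 3 71 71 13 0 4464) (.nx 288 20644 (.lg 1 false
  3 67 67 13 2818 4464) .out)) .out)) .out))) .out) .out) (.nx 308 330282 (.nr 307 131073 (.nr 294
  19 .s1 (.nx 301 3252 (.nx 296 31 (.nr 295 80 (.l1 (.ls 16 16 53)) (.l1 .sk)) (.nx 297 32 (.l1
  .sk) (.lg 0 false 4 79 79 16 0 1488))) (.nr 306 27556 (.nr 304 154 (.lg 0 true 3 67 67 16 0 2232)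
  (.nx 305 20644 (.lg 1 false 1 79 79 11 4077 744) .out)) .out))) .out) .out))))) (.na 358 35 (.na
  333 28 (.na 324 23 (.nx 323 330282 (.nr 322 131073 (.nr 310 20 .s1 (.nx 312 31 (.nr 311 92 (.l1
  (.ls 19 19 51)) (.l1 .sk)) (.nx 313 32 (.l1 .sk) (.nx 316 3252 (.lg 0 false 3 79 79 19 0 22320)
  (.nr 321 27556 (.nr 319 154 (.lg 0 true 3 67 67 19 0 22320) (.nx 320 20644 (.lg 1 false 1 79 79
  13 4077 7440) .out)) .out))))) .out) .out) (.na 325 25 .ne (.nx 332 41287 (.nr 331 131073 (.nr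
  326 25 .s1 (.nx 327 324 (.l1 (.ls 71 37 4202)) (.nr 330 32769 (.nx 328 3252 (.lg 0 true 1 73 73
  16 0 3720) (.nr 329 257 (.lg 0 false 1 61 61 16 0 3720) .out)) .out))) .out) .out))) (.na 349 32
  (.na 341 31 (.nx 340 41287 (.nr 339 131073 (.nr 334 28 .s1 (.nx 337 3252 (.nx 335 324 (.l1 (.ls
  73 43 3752)) (.nr 336 32769 (.lg 0 true 1 73 73 13 0 10416) .out)) (.nr 338 257 (.lg 0 false 1 61
  61 13 0 10416) .out))) .out) .out) (.nx 348 41287 (.nr 347 131073 (.nr 342 31 .s1 (.nx 343 324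
  (.l1 (.ls 59 29 3389)) (.nr 346 32769 (.lg 0 false 3 73 73 16 0 2232) .out))) .out) .out)) (.na
  357 33 (.nx 356 41287 (.nr 355 262145 (.nr 350 32 .s1 (.nx 351 324 (.l1 (.ls 73 41 3283)) (.nr
  354 32769 (.nr 352 4097 (.lg 0 false 1 73 73 13 0 1488) (.nx 353 3252 (.lg 0 false 1 73 73 13 0
  1488) .out)) .out))) .out) .out) .ne))) (.na 376 41 (.na 364 38 (.nx 363 41287 (.nr 362 262145
  (.nr 359 35 .s1 (.nx 360 324 (.l1 (.ls 73 41 3002)) (.nr 361 4097 (.lg 0 false 1 73 73 16 0
  26040) .out))) .out) .out) (.na 370 40 (.nx 369 41287 (.nr 368 262145 (.nr 365 38 .s1 (.nx 366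
  324 (.l1 (.ls 73 43 2765)) (.nr 367 4097 (.lg 0 false 1 79 79 13 0 1488) .out))) .out) .out) (.nx
  375 41287 (.nr 374 262145 (.nr 371 40 .s1 (.nx 372 324 (.l1 (.ls 79 43 2627)) (.nr 373 4097 (.lg
  0 false 1 79 79 19 0 52080) .out))) .out) .out))) (.na 388 49 (.na 382 47 (.nx 381 41287 (.nr 380
  262145 (.nr 377 41 .s1 (.nx 378 324 (.l1 (.ls 71 31 2563)) (.nr 379 4097 (.lg 0 false 1 73 73 16
  0 7440) .out))) .out) .out) (.nx 387 41287 (.nr 386 262145 (.nr 383 47 .s1 (.nx 384 324 (.l1 (.ls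
  71 29 2236)) (.nr 385 4097 (.lg 0 false 1 73 73 16 0 744) .out))) .out) .out)) (.na 394 50 (.nx
  393 41287 (.nr 392 262145 (.nr 389 49 .s1 (.nx 390 324 (.l1 (.ls 67 31 2145)) (.nr 391 4097 (.lg
  0 false 1 71 71 16 0 5208) .out))) .out) .out) (.nx 399 41287 (.nr 398 262145 (.nr 395 50 .s1
  (.nx 396 324 (.l1 (.ls 71 41 2102)) (.nr 397 4097 (.lg 0 false 1 71 71 13 0 7440) .out))) .out)
  .out)))))) (.na 487 98 (.na 441 71 (.na 418 64 (.na 406 59 (.nx 405 41287 (.nr 404 262145 (.nr
  401 56 .s1 (.nx 402 324 (.l1 (.ls 79 41 1877)) (.nr 403 4097 (.lg 0 true 1 73 73 23 0 10416)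
  .out))) .out) .out) (.na 412 62 (.nx 411 41287 (.nr 410 262145 (.nr 407 59 .s1 (.nx 408 324 (.l1
  (.ls 67 29 1782)) (.nr 409 4097 (.lg 0 false 1 71 71 16 0 744) .out))) .out) .out) (.nx 417 41287
  (.nr 416 262145 (.nr 413 62 .s1 (.nx 414 324 (.l1 (.ls 59 41 1696)) (.nr 415 4097 (.lg 0 false 1
  67 67 13 0 7440) .out))) .out) .out))) (.na 427 67 (.na 426 65 (.nx 425 41287 (.nr 424 524289
  (.nr 419 64 .s1 (.nx 422 3252 (.nx 420 324 (.l1 (.ls 73 37 1643)) (.nr 421 65537 (.lg 0 false 1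
  71 71 17 0 1488) .out)) (.nr 423 4097 (.lg 0 true 1 67 67 17 0 1488) .out))) .out) .out) .ne)
  (.na 433 70 (.nx 432 20644 (.nr 431 524289 (.nr 428 67 .s1 (.nx 429 324 (.l1 (.ls 61 29 1569))
  (.nr 430 65537 (.lg 0 true 1 83 83 16 0 744) .out))) .out) .out) (.nx 440 20644 (.nr 439 524289
  (.nr 434 70 .s1 (.nx 435 324 (.l1 (.ls 79 43 1502)) (.nr 438 65537 (.nx 436 3252 (.lg 0 true 1 73
  73 23 0 52080) (.nr 437 257 (.lg 0 true 1 47 47 23 0 52080) .out)) .out))) .out) .out)))) (.na
  463 82 (.na 447 76 (.nx 446 20644 (.nr 445 524289 (.nr 442 71 .s1 (.nx 443 324 (.l1 (.ls 67 29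
  1481)) (.nr 444 65537 (.lg 0 true 1 79 79 16 0 744) .out))) .out) .out) (.na 455 80 (.nx 454
  20644 (.nr 453 524289 (.nr 448 76 .s1 (.nx 449 324 (.l1 (.ls 79 41 1384)) (.nr 452 65537 (.nx 450
  3252 (.lg 0 false 1 71 71 17 0 1488) (.nr 451 257 (.lg 0 true 1 47 47 17 0 7440) .out)) .out)))
  .out) .out) (.nx 462 20644 (.nr 461 524289 (.nr 456 80 .s1 (.nx 459 3252 (.nx 457 324 (.l1 (.ls
  79 41 1315)) (.nr 458 65537 (.lg 0 false 1 73 73 23 0 7440) .out)) (.nr 460 257 (.lg 0 true 1 43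
  47 23 0 7440) .out))) .out) .out))) (.na 475 95 (.na 469 94 (.nx 468 20644 (.nr 467 524289 (.nr
  464 82 .s1 (.nx 465 324 (.l1 (.ls 71 37 1283)) (.nr 466 65537 (.lg 0 true 1 79 79 13 0 1488)
  .out))) .out) .out) (.nx 474 20644 (.nr 473 524289 (.nr 470 94 .s1 (.nx 471 324 (.l1 (.ls 71 37
  1119)) (.nr 472 65537 (.lg 0 true 1 79 79 17 0 1488) .out))) .out) .out)) (.na 481 97 (.nx 480
  20644 (.nr 479 524289 (.nr 476 95 .s1 (.nx 477 324 (.l1 (.ls 73 31 1108)) (.nr 478 65537 (.lg 0
  true 1 79 79 17 0 3720) .out))) .out) .out) (.nx 486 20644 (.nr 485 524289 (.nr 482 97 .s1 (.nx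
  483 324 (.l1 (.ls 61 23 1085)) (.nr 484 65537 (.lg 0 true 1 71 71 16 0 744) .out))) .out)
  .out))))) (.na 529 113 (.na 505 103 (.na 493 100 (.nx 492 20644 (.nr 491 524289 (.nr 488 98 .s1
  (.nx 489 324 (.l1 (.ls 67 37 1074)) (.nr 490 65537 (.lg 0 true 1 73 73 19 0 10416) .out))) .out)
  .out) (.na 499 101 (.nx 498 20644 (.nr 497 524289 (.nr 494 100 .s1 (.nx 495 324 (.l1 (.ls 73 37
  1052)) (.nr 496 65537 (.lg 0 true 1 79 79 23 0 52080) .out))) .out) .out) (.nx 504 20644 (.nr 503
  524289 (.nr 500 101 .s1 (.nx 501 324 (.l1 (.ls 67 23 1042)) (.nr 502 65537 (.lg 0 true 1 71 71 16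
  0 744) .out))) .out) .out))) (.na 517 109 (.na 511 107 (.nx 510 20644 (.nr 509 524289 (.nr 506
  103 .s1 (.nx 507 324 (.l1 (.ls 67 23 1022)) (.nr 508 65537 (.lg 0 true 1 71 71 16 0 744) .out)))
  .out) .out) (.nx 516 20644 (.nr 515 524289 (.nr 512 107 .s1 (.nx 513 324 (.l1 (.ls 67 23 984))
  (.nr 514 65537 (.lg 0 true 1 71 71 16 0 744) .out))) .out) .out)) (.na 523 112 (.nx 522 20644
  (.nr 521 524289 (.nr 518 109 .s1 (.nx 519 324 (.l1 (.ls 61 23 966)) (.nr 520 65537 (.lg 0 true 1
  71 71 16 0 744) .out))) .out) .out) (.nx 528 20644 (.nr 527 524289 (.nr 524 112 .s1 (.nx 525 324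
  (.l1 (.ls 73 37 940)) (.nr 526 65537 (.lg 0 false 1 83 83 29 0 52080) .out))) .out) .out)))) (.na
  553 125 (.na 537 118 (.nx 536 20644 (.nr 535 524289 (.nr 530 113 .s1 (.nx 533 3252 (.nx 531 324
  (.l1 (.ls 61 23 931)) (.nr 532 65537 (.lg 0 true 1 59 59 16 0 7440) .out)) (.nr 534 257 (.lg 2
  true 1 17 17 16 2832 7440) .out))) .out) .out) (.na 545 124 (.nx 544 20644 (.nr 543 524289 (.nr
  538 118 .s1 (.nx 541 3252 (.nx 539 324 (.l1 (.ls 53 31 892)) (.nr 540 65537 (.lg 0 true 1 61 61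
  19 0 1488) .out)) (.nr 542 257 (.lg 2 true 1 17 17 19 2712 7440) .out))) .out) .out) (.nx 552
  20644 (.nr 551 524289 (.nr 546 124 .s1 (.nx 549 3252 (.nx 547 324 (.l1 (.ls 67 29 849)) (.nr 548
  65537 (.lg 0 true 1 61 61 19 0 156240) .out)) (.nr 550 257 (.lg 2 true 1 17 17 19 2581 52080)
  .out))) .out) .out))) (.na 565 129 (.na 559 128 (.nx 558 20644 (.nr 557 524289 (.nr 554 125 .s1
  (.nx 555 324 (.l1 (.ls 61 29 842)) (.nr 556 65537 (.lg 0 true 1 71 71 16 0 7440) .out))) .out)
  .out) (.nx 564 20644 (.nr 563 524289 (.nr 560 128 .s1 (.nx 561 324 (.l1 (.ls 71 31 823)) (.nr 562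
  65537 (.lg 0 false 1 73 73 19 0 1488) .out))) .out) .out)) (.na 566 131 .ne (.nx 571 20644 (.nr
  570 16385 (.nr 567 131 .s1 (.nx 568 481 (.l1 (.ls 41 29 1769)) (.nr 569 1025 (.lg 2 true 1 23 23
  16 2443 744) .out))) .out) .out))))))) (.na 700 202 (.na 641 167 (.na 604 151 (.na 585 139 (.na
  578 134 (.nx 577 20644 (.nr 576 16385 (.nr 573 133 .s1 (.nx 574 324 (.l1 (.ls 53 31 792)) (.nr
  575 1025 (.lg 0 true 1 53 53 17 0 5208) .out))) .out) .out) (.na 584 137 (.nx 583 20644 (.nr 582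
  16385 (.nr 579 134 .s1 (.nx 580 481 (.l1 (.ls 41 37 1729)) (.nr 581 1025 (.lg 2 true 1 23 23 19
  2388 7440) .out))) .out) .out) (.lg 0 false 1 0 0 16 0 24))) (.na 592 142 (.na 586 140 (.lg 0
  false 1 0 0 16 0 24) (.nx 591 20644 (.nr 590 16385 (.nr 587 140 .s1 (.nx 588 324 (.l1 (.ls 53 41
  752)) (.nr 589 1025 (.lg 0 true 1 53 59 31 0 52080) .out))) .out) .out)) (.na 598 149 (.nx 597
  20644 (.nr 596 16385 (.nr 593 142 .s1 (.nx 594 481 (.l1 (.ls 43 37 1632)) (.nr 595 1025 (.lg 2
  true 1 23 23 19 2254 1488) .out))) .out) .out) (.nx 603 20644 (.nr 602 16385 (.nr 599 149 .s1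
  (.nx 600 481 (.l1 (.ls 41 29 1555)) (.nr 601 1025 (.lg 2 false 1 23 23 16 2148 52080) .out)))
  .out) .out)))) (.na 617 157 (.na 605 152 (.lg 0 false 1 0 0 16 0 24) (.na 611 155 (.nx 610 20644
  (.nr 609 16385 (.nr 606 152 .s1 (.nx 607 324 (.l1 (.ls 53 37 693)) (.nr 608 1025 (.lg 0 true 1 53
  59 29 0 52080) .out))) .out) .out) (.nx 616 20644 (.nr 615 16385 (.nr 612 155 .s1 (.nx 613 481
  (.l1 (.ls 41 29 1495)) (.nr 614 1025 (.lg 2 true 1 23 23 17 2065 7440) .out))) .out) .out))) (.na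
  629 163 (.na 623 160 (.nx 622 20644 (.nr 621 16385 (.nr 618 157 .s1 (.nx 619 481 (.l1 (.ls 37 29
  1476)) (.nr 620 1025 (.lg 2 true 1 23 23 16 2039 52080) .out))) .out) .out) (.nx 628 20644 (.nr
  627 16385 (.nr 624 160 .s1 (.nx 625 324 (.l1 (.ls 53 37 659)) (.nr 626 1025 (.lg 0 true 1 47 53
  29 0 22320) .out))) .out) .out)) (.na 635 164 (.nx 634 20644 (.nr 633 16385 (.nr 630 163 .s1 (.nx
  631 481 (.l1 (.ls 37 29 1422)) (.nr 632 1025 (.lg 2 true 1 19 19 16 1964 52080) .out))) .out)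
  .out) (.nx 640 20644 (.nr 639 16385 (.nr 636 164 .s1 (.nx 637 324 (.l1 (.ls 37 31 643)) (.nr 638
  1025 (.lg 0 true 1 47 47 23 0 1488) .out))) .out) .out))))) (.na 668 191 (.na 654 179 (.na 642
  173 (.lg 0 false 1 0 0 16 0 24) (.na 648 175 (.nx 647 20644 (.nr 646 16385 (.nr 643 173 .s1 (.nx
  644 481 (.l1 (.ls 37 29 1340)) (.nr 645 1025 (.lg 2 false 1 23 23 16 1850 52080) .out))) .out)
  .out) (.nx 653 20644 (.nr 652 16385 (.nr 649 175 .s1 (.nx 650 481 (.l1 (.ls 43 31 1325)) (.nr 651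
  1025 (.lg 2 false 1 29 29 19 1829 52080) .out))) .out) .out))) (.na 656 188 (.na 655 181 (.lg 0
  false 1 0 0 16 0 24) (.lg 0 false 1 0 0 16 0 24)) (.na 662 190 (.nx 661 20644 (.nr 660 16385 (.nr
  657 188 .s1 (.nx 658 481 (.l1 (.ls 43 37 1233)) (.nr 659 1025 (.lg 2 true 1 23 23 23 1703 7440)
  .out))) .out) .out) (.nx 667 20644 (.nr 666 16385 (.nr 663 190 .s1 (.nx 664 481 (.l1 (.ls 47 41
  1220)) (.nr 665 1025 (.lg 2 true 1 29 29 31 1685 7440) .out))) .out) .out)))) (.na 686 196 (.na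
  674 193 (.nx 673 20644 (.nr 672 16385 (.nr 669 191 .s1 (.nx 670 481 (.l1 (.ls 37 29 1214)) (.nr
  671 1025 (.lg 2 true 1 19 19 16 1676 52080) .out))) .out) .out) (.na 680 194 (.nx 679 20644 (.nr
  678 16385 (.nr 675 193 .s1 (.nx 676 481 (.l1 (.ls 37 29 1201)) (.nr 677 1025 (.lg 2 true 1 19 19
  16 1658 52080) .out))) .out) .out) (.nx 685 20644 (.nr 684 16385 (.nr 681 194 .s1 (.nx 682 481
  (.l1 (.ls 41 37 1195)) (.nr 683 1025 (.lg 2 true 1 19 19 19 1650 52080) .out))) .out) .out)))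
  (.na 693 199 (.na 692 197 (.nx 691 20644 (.nr 690 16385 (.nr 687 196 .s1 (.nx 688 481 (.l1 (.ls
  43 41 1183)) (.nr 689 1025 (.lg 2 true 1 29 29 29 1633 52080) .out))) .out) .out) (.lg 0 false 1
  0 0 16 0 24)) (.na 694 200 (.lg 0 false 1 0 0 16 0 24) (.nx 699 20644 (.nr 698 16385 (.nr 695 200
  .s1 (.nx 696 324 (.l1 (.ls 47 31 527)) (.nr 697 1025 (.lg 0 true 1 47 53 31 0 156240) .out)))
  .out) .out)))))) (.na 774 236 (.na 742 223 (.na 718 211 (.na 706 205 (.nx 705 20644 (.nr 704
  16385 (.nr 701 202 .s1 (.nx 702 481 (.l1 (.ls 37 37 1148)) (.nr 703 1025 (.lg 2 true 1 17 17 23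
  1585 7440) .out))) .out) .out) (.na 712 206 (.nx 711 20644 (.nr 710 16385 (.nr 707 205 .s1 (.nx
  708 481 (.l1 (.ls 37 29 1131)) (.nr 709 1025 (.lg 2 true 1 23 29 19 1561 52080) .out))) .out)
  .out) (.nx 717 20644 (.nr 716 16385 (.nr 713 206 .s1 (.nx 714 481 (.l1 (.ls 37 37 1126)) (.nr 715
  1025 (.lg 2 false 1 19 19 23 1554 52080) .out))) .out) .out))) (.na 730 217 (.na 724 214 (.nx 723
  20644 (.nr 722 16385 (.nr 719 211 .s1 (.nx 720 481 (.l1 (.ls 29 23 1099)) (.nr 721 1025 (.lg 2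
  false 1 17 17 16 1517 7440) .out))) .out) .out) (.nx 729 20644 (.nr 728 16385 (.nr 725 214 .s1
  (.nx 726 481 (.l1 (.ls 41 37 1084)) (.nr 727 1025 (.lg 2 true 1 17 17 23 1496 52080) .out)))
  .out) .out)) (.na 736 218 (.nx 735 20644 (.nr 734 16385 (.nr 731 217 .s1 (.nx 732 481 (.l1 (.ls
  37 29 1069)) (.nr 733 1025 (.lg 2 true 1 17 17 17 1475 52080) .out))) .out) .out) (.nx 741 20644
  (.nr 740 16385 (.nr 737 218 .s1 (.nx 738 481 (.l1 (.ls 37 37 1064)) (.nr 739 1025 (.lg 2 true 1
  17 17 23 1468 7440) .out))) .out) .out)))) (.na 755 227 (.na 743 224 (.lg 0 false 1 0 0 16 0 24)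
  (.na 749 226 (.nx 748 20644 (.nr 747 16385 (.nr 744 224 .s1 (.nx 745 324 (.l1 (.ls 47 31 471))
  (.nr 746 1025 (.lg 0 true 1 43 47 31 0 52080) .out))) .out) .out) (.nx 754 20644 (.nr 753 16385
  (.nr 750 226 .s1 (.nx 751 481 (.l1 (.ls 37 31 1026)) (.nr 752 1025 (.lg 2 true 1 17 17 23 1416
  52080) .out))) .out) .out))) (.na 762 233 (.na 761 229 (.nx 760 20644 (.nr 759 16385 (.nr 756 227
  .s1 (.nx 757 481 (.l1 (.ls 37 23 1022)) (.nr 758 1025 (.lg 2 true 1 17 17 17 1410 52080) .out)))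
  .out) .out) (.lg 0 false 1 0 0 16 0 24)) (.na 768 235 (.nx 767 20644 (.nr 766 16385 (.nr 763 233
  .s1 (.nx 764 481 (.l1 (.ls 37 23 995)) (.nr 765 1025 (.lg 2 true 1 17 17 17 1374 52080) .out)))
  .out) .out) (.nx 773 20644 (.nr 772 16385 (.nr 769 235 .s1 (.nx 770 481 (.l1 (.ls 41 29 987))
  (.nr 771 1025 (.lg 2 true 1 19 23 19 1362 52080) .out))) .out) .out))))) (.na 801 256 (.na 782
  245 (.na 780 239 (.nx 779 20644 (.nr 778 16385 (.nr 775 236 .s1 (.nx 776 481 (.l1 (.ls 43 31
  983)) (.nr 777 1025 (.lg 2 true 1 23 23 23 1356 52080) .out))) .out) .out) (.na 781 241 (.lg 0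
  false 1 0 0 16 0 24) (.lg 0 false 1 0 0 16 0 24))) (.na 794 250 (.na 788 248 (.nx 787 20644 (.nr
  786 16385 (.nr 783 245 .s1 (.nx 784 481 (.l1 (.ls 43 31 947)) (.nr 785 1025 (.lg 2 true 1 23 23
  23 1307 52080) .out))) .out) .out) (.nx 793 20644 (.nr 792 16385 (.nr 789 248 .s1 (.nx 790 481
  (.l1 (.ls 41 37 935)) (.nr 791 1025 (.lg 2 true 1 19 23 23 1291 52080) .out))) .out) .out)) (.na
  800 251 (.nx 799 20644 (.nr 798 16385 (.nr 795 250 .s1 (.nx 796 481 (.l1 (.ls 41 37 928)) (.nr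
  797 1025 (.lg 2 true 1 17 17 29 1280 52080) .out))) .out) .out) (.lg 0 false 1 0 0 16 0 24))))
  (.na 2177 1024 (.na 807 257 (.nx 806 20644 (.nr 805 16385 (.nr 802 256 .s1 (.nx 803 481 (.l1 (.ls
  41 31 906)) (.nr 804 2049 (.lg 2 true 1 29 29 29 2080 52080) .out))) .out) .out) (.na 1097 512
  (.nx 1096 20644 (.nr 1095 4097 (.nr 808 257 .s1 (.nx 840 32 (.nx 839 31 (.nr 838 2033 (.lx (.lp
  43 17 129)) (.l1 .sk)) (.l1 .sk)) (.la (.lg 0 true 1 43 43 23 0)))) .out) .out) (.nx 2176 20644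
  (.nr 2175 8193 (.nr 1098 512 .s1 (.nx 1149 52 (.lx (.lp 53 17 257)) (.nr 2174 4097 (.nx 1661 915
  (.la (.ls 41 31 1632)) (.nr 2173 2049 (.la (.lg 2 true 1 16 16 29 1093)) .out)) .out))) .out)
  .out))) (.na 2366 4096 (.na 2282 2048 (.nx 2281 103 (.nr 2280 8193 (.nr 2178 1024 .s1 (.lx (.lp
  47 23 513))) .out) .out) (.nx 2365 82 (.nr 2364 8193 (.nr 2283 2048 .s1 (.lx (.lp 43 29 1025)))
  .out) .out)) (.na 2450 8193 (.nx 2449 82 (.nr 2448 16385 (.nr 2367 4096 .s1 (.lx (.lp 41 31
  2049))) .out) .out) .out)))))))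

def T126_1 : Ph :=
  (.na 561 191 (.na 440 116 (.na 303 59 (.na 206 31 (.na 167 9 (.na 1 8 .ne (.nx 166 21137969 (.nr
  165 1482912 (.nx 129 2642247 (.nx 3 232 (.nr 2 96 (.lg 0 true 1 31 31 9 0 1392) (.l1 .sk)) (.nx 4
  233 (.l1 .sk) (.nr 117 370729 (.nx 109 1321124 (.nx 25 32768 (.nr 19 220437 (.lg 0 false 15 89
  101 13 0 20880) (.nx 24 2582 (.lg 0 false 5 83 83 13 0 6960) .out)) (.nr 108 311745 (.nr 50 19534
  (.nr 40 1227 (.lg 0 true 15 83 83 13 0 20880) (.nr 45 4896 (.lg 2 true 5 83 89 13 124899 6960)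
  (.lg 2 true 5 83 89 13 31302 6960))) (.nx 66 65536 (.nr 65 262145 (.lg 1 false 15 97 103 13
  215491 146160) .out) (.nx 102 330282 (.nx 81 131072 (.lg 1 false 15 97 103 13 128113 146160) (.nx
  96 262145 (.lg 1 true 15 97 103 13 64057 146160) (.nr 101 185365 (.lg 1 true 5 89 97 13 19054
  6960) .out))) (.nr 107 110219 (.lg 2 false 5 89 97 13 9000 6960) .out)))) .out)) (.nr 116 154
  (.lg 0 true 7 73 73 13 0 9744) .out)) (.nx 128 814 (.lg 0 false 11 79 83 13 0 15312) .out))))
  (.nr 164 55 (.lg 0 true 35 79 79 13 0 48720) .out)) .out) .out)) (.na 168 29 .ne (.nx 205 2642247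
  (.nr 204 1048577 (.nr 169 25 .s1 (.nx 186 65537 (.nx 170 408 (.l1 (.ls 71 41 5743)) (.nr 185
  741457 (.nr 177 185365 (.lg 0 false 7 89 89 16 0 48720) (.nx 184 16385 (.lg 0 false 7 83 83 16 0
  4872) .out)) .out)) (.nr 203 155873 (.nr 195 993 (.lg 0 true 9 71 71 16 0 2088) (.nx 202 524289
  (.lg 2 false 7 89 89 16 64104 48720) .out)) .out))) .out) .out))) (.na 251 37 (.na 250 32 (.nx
  249 2642247 (.nr 248 1048577 (.nr 207 28 .s1 (.nx 210 233 (.nx 209 232 (.nr 208 345 (.l1 (.ls 19
  29 1739)) (.l1 .sk)) (.l1 .sk)) (.nx 243 660563 (.nx 211 408 (.l1 (.ls 83 29 3621)) (.nr 242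
  741457 (.nr 238 524289 (.nx 218 26913 (.lg 0 false 7 101 101 16 0 146160) (.nr 237 185365 (.nr
  229 92683 (.nr 221 1020 (.lg 0 true 3 73 73 16 0 2088) (.nx 228 524289 (.lg 2 false 7 79 79 16
  92914 4872) .out)) (.nx 236 165142 (.nx 232 82572 (.lg 0 false 3 101 101 16 0 20880) (.nr 235
  131073 (.lg 0 true 3 97 97 16 0 20880) .out)) .out)) .out)) (.nx 241 2582 (.lg 0 false 3 79 79 16
  0 2088) .out)) .out)) (.nr 247 129 (.lg 0 true 4 71 71 16 0 1392) .out)))) .out) .out) .ne) (.na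
  279 46 (.nx 278 2642247 (.nr 277 881745 (.nr 252 34 .s1 (.nx 265 52017 (.nx 253 408 (.l1 (.ls 73
  31 4502)) (.nr 264 623489 (.nr 258 185365 (.lg 0 false 5 89 89 16 0 6960) (.nx 263 16385 (.lg 0
  false 5 89 89 16 0 6960) .out)) .out)) (.nr 276 92683 (.nr 270 496 (.lg 0 true 5 71 71 16 0 3480)
  (.nx 275 262145 (.lg 2 false 5 83 89 16 61309 6960) .out)) .out))) .out) .out) (.na 280 47 .ne
  (.nx 302 2642247 (.nr 301 881745 (.nr 281 45 .s1 (.nx 284 233 (.nx 283 232 (.nr 282 636 (.l1 (.ls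
  16 23 1148)) (.l1 .sk)) (.l1 .sk)) (.nx 289 32769 (.lg 0 false 5 97 97 16 0 6960) (.nr 300 92683
  (.nr 294 636 (.lg 0 true 5 71 71 16 0 3480) (.nx 299 262145 (.lg 2 false 5 83 89 16 76309 6960)
  .out)) .out)))) .out) .out))))) (.na 370 79 (.na 350 64 (.na 328 61 (.nx 327 2642247 (.nr 326
  881745 (.nr 304 58 .s1 (.nx 307 233 (.nx 306 232 (.nr 305 658 (.l1 (.ls 19 23 915)) (.l1 .sk))
  (.l1 .sk)) (.nr 322 220437 (.nx 318 262145 (.nx 314 82572 (.lg 0 false 7 83 83 17 0 4872) (.nr
  317 46342 (.lg 0 true 3 89 89 16 0 2088) .out)) (.nr 321 257 (.lg 0 true 3 67 67 16 0 2088)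
  .out)) (.nx 325 20644 (.lg 0 false 3 97 97 16 0 20880) .out)))) .out) .out) (.nx 349 2642247 (.nr
  348 881745 (.nr 329 60 .s1 (.nx 332 233 (.nx 331 232 (.nr 330 690 (.l1 (.ls 17 23 885)) (.l1
  .sk)) (.l1 .sk)) (.nx 339 41287 (.lg 0 false 7 89 97 17 0 48720) (.nr 347 77937 (.nr 344 690 (.lg
  0 true 5 71 71 16 0 3480) (.nx 346 262145 (.lg 2 false 2 83 83 16 50954 6960) .out)) .out))))
  .out) .out)) (.na 351 67 .ne (.nx 369 2642247 (.nr 368 2097153 (.nr 352 66 .s1 (.nx 359 32769
  (.nx 353 408 (.l1 (.ls 79 31 2487)) (.nr 358 1048577 (.lg 0 false 5 97 97 16 0 20880) .out)) (.nr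
  367 65537 (.nr 364 852 (.lg 0 true 5 71 71 16 0 3480) (.nx 366 416129 (.lg 2 false 2 83 83 16
  56657 1392) .out)) .out))) .out) .out))) (.na 408 91 (.na 389 83 (.nx 388 2642247 (.nr 387
  2097153 (.nr 371 78 .s1 (.nx 372 408 (.l1 (.ls 73 29 2110)) (.nr 386 1048577 (.nx 379 32769 (.lg
  0 false 7 89 97 17 0 48720) (.nr 385 65537 (.nr 382 895 (.lg 0 true 3 67 67 16 0 2088) (.nx 384
  416129 (.lg 2 false 2 73 73 16 54015 1392) .out)) .out)) .out))) .out) .out) (.nx 407 2642247
  (.nr 406 2097153 (.nr 390 82 .s1 (.nx 397 32769 (.nx 391 408 (.l1 (.ls 71 29 2008)) (.nr 396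
  1048577 (.lg 0 false 5 79 89 17 0 6960) .out)) (.nr 405 65537 (.nr 402 982 (.lg 0 true 5 67 67 17
  0 3480) (.nx 404 416129 (.lg 2 false 2 73 73 16 54015 1392) .out)) .out))) .out) .out)) (.na 409
  101 .ne (.na 424 107 (.nx 423 2642247 (.nr 422 2097153 (.nr 410 100 .s1 (.nx 415 26913 (.nx 411
  408 (.l1 (.ls 73 29 1651)) (.nr 414 1482912 (.lg 0 false 3 89 89 16 0 20880) .out)) (.nr 421
  65537 (.nr 418 513 (.lg 0 true 3 61 61 16 0 2088) (.nx 420 416129 (.lg 2 true 2 79 79 16 94096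
  1392) .out)) .out))) .out) .out) (.nx 439 2642247 (.nr 438 2097153 (.nr 425 106 .s1 (.nx 432
  26913 (.nx 426 408 (.l1 (.ls 67 29 1558)) (.nr 431 1482912 (.lg 0 false 5 79 79 17 0 3480) .out))
  (.nr 437 65537 (.nr 434 513 (.lg 0 true 2 59 59 16 0 1392) (.nx 436 416129 (.lg 2 true 2 73 73 16
  94096 1392) .out)) .out))) .out) .out)))))) (.na 514 151 (.na 483 131 (.na 467 127 (.na 454 124
  (.nx 453 2642247 (.nr 452 2097153 (.nr 441 115 .s1 (.nx 446 26913 (.nx 442 408 (.l1 (.ls 73 41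
  1438)) (.nr 445 1482912 (.lg 0 false 3 89 89 23 0 20880) .out)) (.nr 451 65537 (.nr 448 513 (.lg
  0 true 2 61 61 19 0 1392) (.nx 450 416129 (.lg 2 true 2 73 73 19 94096 1392) .out)) .out))) .out)
  .out) (.nx 466 2642247 (.nr 465 2097153 (.nr 455 124 .s1 (.nx 456 408 (.l1 (.ls 79 41 1345)) (.nr
  464 1482912 (.nx 459 26913 (.lg 0 false 3 97 97 29 0 20880) (.nr 463 65537 (.nr 461 513 (.lg 0
  true 2 71 71 23 0 1392) (.nx 462 416129 (.lg 2 false 1 89 89 19 94096 6960) .out)) .out)) .out)))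
  .out) .out)) (.na 482 128 (.nx 481 2642247 (.nr 480 2097153 (.nr 468 127 .s1 (.nx 469 408 (.l1
  (.ls 67 29 1313)) (.nr 479 1482912 (.nx 474 26913 (.lg 0 false 5 79 79 17 0 3480) (.nr 478 65537
  (.nr 476 513 (.lg 0 true 2 53 53 16 0 1392) (.nx 477 416129 (.lg 2 false 1 73 73 16 94096 1392)
  .out)) .out)) .out))) .out) .out) .ne)) (.na 485 139 (.na 484 137 (.lg 0 false 1 0 0 16 0 24)
  (.lg 0 false 1 0 0 16 0 24)) (.na 498 148 (.nx 497 1321124 (.nr 496 2097153 (.nr 486 139 .s1 (.nx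
  492 26009 (.nx 488 232 (.nr 487 1596 (.l1 (.ls 17 19 390)) (.l1 .sk)) (.nx 489 233 (.l1 .sk) (.lg
  0 false 3 83 83 17 0 2088))) (.nr 495 65537 (.nx 493 165142 (.lg 0 false 1 79 79 16 0 696) (.nr
  494 1025 (.lg 0 false 1 67 67 16 0 696) .out)) .out))) .out) .out) (.na 513 149 (.nx 512 1321124
  (.nr 511 2097153 (.nr 499 148 .s1 (.nx 502 233 (.nx 501 232 (.nr 500 1607 (.l1 (.ls 19 29 366))
  (.l1 .sk)) (.l1 .sk)) (.nx 507 26009 (.lg 0 false 5 89 97 31 0 20880) (.nr 510 65537 (.nx 508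
  165142 (.lg 0 false 1 89 89 23 0 4176) (.nr 509 1025 (.lg 0 true 1 67 67 23 0 1392) .out))
  .out)))) .out) .out) (.lg 0 false 1 0 0 16 0 24))))) (.na 532 173 (.na 530 163 (.na 515 157 (.lg
  0 false 1 0 0 16 0 24) (.nx 529 1321124 (.nr 528 2097153 (.nr 516 157 .s1 (.nx 524 41287 (.nx 518
  232 (.nr 517 1758 (.l1 (.ls 16 19 345)) (.l1 .sk)) (.nx 519 233 (.l1 .sk) (.lg 0 false 5 79 83 19
  0 3480))) (.nr 527 16385 (.nr 525 1025 (.lg 0 false 1 61 61 16 0 696) (.nx 526 165142 (.lg 2
  false 1 53 53 16 18690 696) .out)) .out))) .out) .out)) (.na 531 167 (.lg 0 false 1 0 0 16 0 24)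
  (.lg 0 false 1 0 0 16 0 24))) (.na 546 181 (.na 533 179 (.lg 0 false 1 0 0 16 0 24) (.nx 545
  1321124 (.nr 544 2097153 (.nr 534 179 .s1 (.nx 540 41287 (.nx 536 232 (.nr 535 1952 (.l1 (.ls 16
  19 303)) (.l1 .sk)) (.nx 537 233 (.l1 .sk) (.lg 0 false 3 83 83 17 0 2088))) (.nr 543 16385 (.nr
  541 1025 (.lg 0 false 1 61 61 16 0 696) (.nx 542 165142 (.lg 2 false 1 53 53 16 18690 696) .out))
  .out))) .out) .out)) (.na 547 182 (.lg 0 false 1 0 0 16 0 24) (.na 548 188 .ne (.nx 560 1321124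
  (.nr 559 1482912 (.nr 549 188 .s1 (.nx 552 233 (.nx 551 232 (.nr 550 2060 (.l1 (.ls 19 29 289))
  (.l1 .sk)) (.l1 .sk)) (.nx 555 26009 (.lg 0 false 3 83 89 29 0 4176) (.nr 558 65537 (.nx 556
  165142 (.lg 0 true 1 83 83 23 0 1392) (.nr 557 1025 (.lg 0 true 1 67 67 23 0 1392) .out))
  .out)))) .out) .out))))))) (.na 1001 363 (.na 614 233 (.na 577 211 (.na 575 197 (.na 574 193 (.nx
  573 1321124 (.nr 572 1482912 (.nr 562 191 .s1 (.nx 568 41287 (.nx 564 232 (.nr 563 2081 (.l1 (.ls
  16 19 284)) (.l1 .sk)) (.nx 565 233 (.l1 .sk) (.lg 0 false 3 79 79 17 0 2088))) (.nr 571 16385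
  (.nr 569 1025 (.lg 0 false 1 61 61 16 0 6960) (.nx 570 165142 (.lg 2 true 1 47 47 16 18690 696)
  .out)) .out))) .out) .out) (.lg 0 false 1 0 0 16 0 24)) (.na 576 199 (.lg 0 false 1 0 0 16 0 24)
  (.lg 0 false 1 0 0 16 0 24))) (.na 579 227 (.na 578 223 (.lg 0 false 1 0 0 16 0 24) (.lg 0 false
  1 0 0 16 0 24)) (.na 590 229 (.nx 589 1321124 (.nr 588 1482912 (.nr 580 227 .s1 (.nx 583 233 (.nx
  582 232 (.nr 581 2470 (.l1 (.ls 16 17 240)) (.l1 .sk)) (.l1 .sk)) (.nx 586 41287 (.lg 0 false 3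
  79 79 19 0 2088) (.nr 587 16385 (.lg 0 false 1 79 79 17 0 1392) .out)))) .out) .out) (.na 601 232
  (.nx 600 1321124 (.nr 599 1482912 (.nr 591 229 .s1 (.nx 593 232 (.nr 592 2502 (.l1 (.ls 17 17
  238)) (.l1 .sk)) (.nx 594 233 (.l1 .sk) (.nx 597 41287 (.lg 0 false 3 79 79 19 0 2088) (.nr 598
  16385 (.lg 0 false 1 83 83 17 0 20880) .out))))) .out) .out) (.nx 613 1321124 (.nr 612 1482912
  (.nr 602 232 .s1 (.nx 608 41287 (.nx 604 232 (.nr 603 2513 (.l1 (.ls 16 23 234)) (.l1 .sk)) (.nx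
  605 233 (.l1 .sk) (.lg 0 false 3 79 79 23 0 4176))) (.nr 611 16385 (.nr 609 1025 (.lg 0 false 1
  59 59 23 0 1392) (.nx 610 165142 (.lg 2 true 1 47 47 23 18690 1392) .out)) .out))) .out)
  .out))))) (.na 651 244 (.na 639 239 (.na 627 236 (.nx 626 1321124 (.nr 625 1482912 (.nr 615 233
  .s1 (.nx 617 232 (.nr 616 2545 (.l1 (.ls 16 17 234)) (.l1 .sk)) (.nx 618 233 (.l1 .sk) (.nx 621
  41287 (.lg 0 false 3 73 73 19 0 2088) (.nr 624 16385 (.nr 622 1025 (.lg 0 false 1 59 59 17 0
  1392) (.nx 623 165142 (.lg 2 false 1 47 47 17 18690 1392) .out)) .out))))) .out) .out) (.nx 638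
  1321124 (.nr 637 1482912 (.nr 628 236 .s1 (.nx 631 233 (.nx 630 232 (.nr 629 2577 (.l1 (.ls 19 29
  231)) (.l1 .sk)) (.l1 .sk)) (.nx 633 26009 (.lg 0 false 2 83 89 29 0 6960) (.nr 636 65537 (.nx
  634 165142 (.lg 0 true 1 83 83 23 0 6960) (.nr 635 1025 (.lg 0 true 1 61 61 23 0 1392) .out))
  .out)))) .out) .out)) (.na 640 241 (.lg 0 false 1 0 0 16 0 24) (.nx 650 1321124 (.nr 649 1482912
  (.nr 641 241 .s1 (.nx 644 233 (.nx 643 232 (.nr 642 2631 (.l1 (.ls 16 17 226)) (.l1 .sk)) (.l1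
  .sk)) (.nx 647 41287 (.lg 0 false 3 79 79 19 0 2088) (.nr 648 16385 (.lg 0 false 1 79 79 17 0
  696) .out)))) .out) .out))) (.na 675 251 (.na 663 248 (.nx 662 1321124 (.nr 661 1482912 (.nr 652
  244 .s1 (.nx 659 165142 (.nx 654 232 (.nr 653 2674 (.l1 (.ls 19 29 223)) (.l1 .sk)) (.nx 655 233
  (.l1 .sk) (.nx 657 26009 (.lg 0 false 2 89 89 29 0 6960) (.nr 658 65537 (.lg 0 true 1 83 83 23 0
  6960) .out)))) (.nr 660 1025 (.lg 0 true 1 67 67 23 0 1392) .out))) .out) .out) (.nx 674 1321124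
  (.nr 673 1482912 (.nr 664 248 .s1 (.nx 671 165142 (.nx 666 232 (.nr 665 2707 (.l1 (.ls 19 29
  220)) (.l1 .sk)) (.nx 667 233 (.l1 .sk) (.nx 669 26009 (.lg 0 false 2 89 89 29 0 4176) (.nr 670
  65537 (.lg 0 true 1 79 79 23 0 1392) .out)))) (.nr 672 1025 (.lg 0 true 1 61 61 23 0 1392)
  .out))) .out) .out)) (.na 676 256 (.lg 0 false 1 0 0 16 0 24) (.na 677 257 .ne (.nx 1000 1321124
  (.nr 999 1482912 (.nr 678 257 .s1 (.nx 786 233 (.nx 785 232 (.nr 784 3914 (.la (.ls 17 19 212))
  (.l1 .sk)) (.l1 .sk)) (.nx 892 26009 (.la (.lg 0 false 2 73 73 23 0)) (.nr 998 32769 (.la (.lg 0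
  true 2 73 73 23 0)) .out)))) .out) .out)))))) (.na 10546 8192 (.na 3555 1449 (.na 2099 725 (.na
  1454 512 (.nx 1453 1321124 (.nr 1452 1482912 (.nr 1002 363 .s1 (.nx 1152 232 (.nr 1151 5521 (.la
  (.ls 19 19 151)) (.l1 .sk)) (.nx 1153 233 (.l1 .sk) (.nr 1302 32769 (.la (.lg 0 false 1 73 73 23
  0)) (.nx 1451 26009 (.la (.lg 0 true 1 73 73 23 0)) .out))))) .out) .out) (.nx 2098 1321124 (.nr
  2097 1482912 (.nr 1455 512 .s1 (.nx 1883 26009 (.nx 1669 232 (.nr 1668 7817 (.la (.ls 19 23 182))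
  (.l1 .sk)) (.nx 1670 233 (.l1 .sk) (.la (.lg 0 true 1 71 71 23 0)))) (.nr 2096 32769 (.la (.lg 0
  false 1 71 71 23 0)) .out))) .out) .out)) (.na 2701 1024 (.nx 2700 20644 (.nr 2699 2097153 (.nr
  2100 725 .s1 (.nx 2399 3252 (.la (.ls 61 43 14589)) (.nr 2698 131073 (.la (.lg 0 false 1 43 43 29
  0)) .out))) .out) .out) (.nx 3554 20644 (.nr 3553 2097153 (.nr 2702 1024 .s1 (.nx 3127 3252 (.la
  (.ls 61 41 10330)) (.nr 3552 131073 (.la (.lg 0 false 1 43 43 29 0)) .out))) .out) .out))) (.na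
  5009 2897 (.na 4157 2048 (.nx 4156 13005 (.nr 4155 2097153 (.nr 3556 1449 .s1 (.la (.ls 59 53
  116724))) .out) .out) (.nx 5008 13005 (.nr 5007 2097153 (.nr 4158 2048 .s1 (.la (.ls 59 53
  82586))) .out) .out)) (.na 6211 4096 (.nx 6210 4097 (.nr 6209 1048577 (.nr 5010 2897 .s1 (.la
  (.ls 47 41 5797))) .out) .out) (.na 7911 5793 (.nx 7910 5162 (.nr 7909 1048577 (.nr 6212 4096 .s1
  (.la (.ls 53 41 6508))) .out) .out) (.nx 10545 2049 (.nr 10544 524289 (.nr 7912 5793 .s1 (.nx
  8144 232 (.nr 8143 88326 (.lx (.lp 23 31 2049)) (.l1 .sk)) (.nx 8145 233 (.l1 .sk) (.la (.ls 47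
  37 2049))))) .out) .out))))) (.na 20331 65536 (.na 16227 16384 (.na 14176 11586 (.nx 14175 2049
  (.nr 14174 524289 (.nr 10547 8192 .s1 (.nx 10779 232 (.nr 10778 124920 (.lx (.lp 16 0 2897)) (.l1
  .sk)) (.nx 10780 233 (.l1 .sk) (.la (.ls 43 41 2897))))) .out) .out) (.nx 16226 2049 (.nr 16225
  131073 (.nr 14177 11586 .s1 (.lx (.lp 19 41 4097))) .out) .out)) (.na 18279 32768 (.nx 18278 2049
  (.nr 18277 262145 (.nr 16228 16384 .s1 (.nx 16551 324 (.lx (.lp 41 41 8193)) (.nr 18276 131073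
  (.lx (.lp 19 43 8193)) .out))) .out) .out) (.nx 20330 2049 (.nr 20329 524289 (.nr 18280 32768 .s1
  (.nx 18603 324 (.lx (.lp 16 43 16385)) (.nr 20328 262145 (.lx (.lp 19 47 16385)) .out))) .out)
  .out))) (.na 23590 262144 (.na 21961 131072 (.nx 21960 1627 (.nr 21959 524289 (.nr 20332 65536
  .s1 (.nx 20655 324 (.lx (.lp 16 0 32769)) (.nr 21958 262145 (.lx (.lp 17 53 32769)) .out))) .out)
  .out) (.nx 23589 1627 (.nr 23588 524289 (.nr 21962 131072 .s1 (.lx (.lp 17 53 65537))) .out)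
  .out)) (.na 24105 524288 (.nx 24104 513 (.nr 24103 1048577 (.nr 23591 262144 .s1 (.lx (.lp 16 0
  131073))) .out) .out) (.na 24107 1048577 (.nx 24106 324 (.l1 .sk) .out) .out)))))))

def T126_2 : Ph :=
  (.na 395 174 (.na 230 92 (.na 127 58 (.na 72 42 (.na 52 32 (.na 25 30 (.nx 24 1664512 (.nr 23
  1048577 (.nr 1 25 .s1 (.nx 4 181 (.nx 3 180 (.nr 2 285 (.lg 0 false 1 31 31 13 0 5040) (.l1 .sk))
  (.l1 .sk)) (.nx 11 20644 (.nx 5 257 (.l1 (.ls 83 37 1191)) (.nr 10 311745 (.nr 7 110219 (.lg 0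
  false 2 89 97 19 0 5040) (.nx 9 8193 (.lg 0 false 2 89 97 19 0 5040) .out)) .out)) (.nr 22 77937
  (.nr 16 1307 (.nx 12 208065 (.lg 0 false 1 79 79 13 0 5040) (.nr 15 217 (.lg 0 true 3 73 73 19 0
  5040) .out)) (.nx 21 165142 (.nx 18 41287 (.lg 1 false 2 89 97 19 61303 5040) (.nr 20 65537 (.lg
  2 false 2 89 97 19 25787 5040) .out)) .out)) .out)))) .out) .out) (.nx 51 1664512 (.nr 50 1048577
  (.nr 26 27 .s1 (.nx 35 20644 (.nx 27 257 (.l1 (.ls 73 47 2204)) (.nr 34 311745 (.lg 0 false 7 83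
  83 23 0 5040) .out)) (.nr 49 77937 (.nr 41 304 (.lg 0 true 6 61 61 23 0 720) (.nx 48 208065 (.lg
  2 false 7 83 83 23 61599 5040) .out)) .out))) .out) .out)) (.na 53 36 .ne (.nx 71 1664512 (.nr 70
  881745 (.nr 54 34 .s1 (.nx 58 257 (.nx 56 180 (.nr 55 399 (.l1 (.ls 37 37 902)) (.l1 .sk)) (.nx
  57 181 (.l1 .sk) (.l1 (.ls 83 37 927)))) (.nr 69 440873 (.nx 63 26009 (.nr 60 110219 (.lg 0 false
  2 89 97 23 0 5040) (.nx 62 10323 (.lg 0 false 2 97 97 23 0 5040) .out)) (.nr 68 32769 (.nx 65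
  104033 (.nr 64 2326 (.lg 0 true 1 79 79 19 0 720) (.lg 2 false 1 89 89 19 20524 720)) (.nr 67 257
  (.lg 0 true 2 73 73 23 0 720) .out)) .out)) .out))) .out) .out))) (.na 108 50 (.na 89 46 (.nx 88
  1664512 (.nr 87 881745 (.nr 73 40 .s1 (.nx 74 257 (.l1 (.ls 79 43 1575)) (.nr 86 440873 (.nx 78
  20644 (.lg 0 false 4 89 89 29 0 5040) (.nr 85 46342 (.nr 82 257 (.lg 0 true 4 67 67 29 0 5040)
  (.nx 84 104033 (.lg 2 true 2 83 83 23 36509 5040) .out)) .out)) .out))) .out) .out) (.nx 107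
  1664512 (.nr 106 881745 (.nr 90 45 .s1 (.nx 102 104033 (.nx 96 13005 (.nx 91 257 (.l1 (.ls 79 41
  1438)) (.nr 95 623489 (.lg 0 false 4 89 89 19 0 5040) .out)) (.nr 101 110219 (.nr 99 32769 (.lg 0
  false 3 79 79 13 0 720) (.nx 100 26009 (.lg 0 true 1 89 89 13 0 5040) .out)) .out)) (.nr 105 257
  (.lg 0 true 3 67 67 13 0 720) .out))) .out) .out)) (.na 109 54 (.lg 0 false 1 0 0 16 0 24) (.nx
  126 1664512 (.nr 125 881745 (.nr 110 53 .s1 (.nx 119 20644 (.nx 114 257 (.nx 112 180 (.nr 111 551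
  (.l1 (.ls 31 37 602)) (.l1 .sk)) (.nx 113 181 (.l1 .sk) (.l1 (.ls 79 37 619)))) (.nr 118 623489
  (.nx 116 13005 (.lg 0 false 2 89 89 23 0 720) (.nr 117 110219 (.lg 0 false 1 79 79 19 0 720)
  .out)) .out)) (.nr 124 46342 (.nr 121 257 (.lg 0 true 2 67 67 29 0 720) (.nx 123 104033 (.lg 1
  true 2 83 83 23 36509 720) .out)) .out))) .out) .out)))) (.na 175 82 (.na 159 64 (.na 145 60 (.nx
  144 1664512 (.nr 143 881745 (.nr 128 57 .s1 (.nx 137 20644 (.nx 129 257 (.l1 (.ls 79 41 1141))
  (.nr 136 623489 (.lg 0 false 7 83 89 23 0 5040) .out)) (.nr 142 46342 (.nr 139 257 (.lg 0 true 2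
  67 67 13 0 720) (.nx 141 104033 (.lg 2 true 2 83 83 13 36509 720) .out)) .out))) .out) .out) (.nx
  158 1664512 (.nr 157 881745 (.nr 146 59 .s1 (.nx 151 20644 (.nx 147 257 (.l1 (.ls 73 41 1103))
  (.nr 150 623489 (.lg 0 false 3 89 89 29 0 5040) .out)) (.nr 156 46342 (.nr 153 257 (.lg 0 true 2
  61 61 23 0 720) (.nx 155 104033 (.lg 2 true 2 79 79 23 36509 5040) .out)) .out))) .out) .out))
  (.na 160 70 .ne (.nx 174 1664512 (.nr 173 524289 (.nr 161 69 .s1 (.nx 164 181 (.nx 163 180 (.nr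
  162 779 (.l1 (.ls 29 37 465)) (.l1 .sk)) (.l1 .sk)) (.nx 167 20644 (.lg 0 false 3 89 89 29 0
  5040) (.nr 172 32769 (.nr 170 513 (.lg 0 true 3 67 67 29 0 5040) (.nx 171 104033 (.lg 2 true 1 79
  79 23 25857 5040) .out)) .out)))) .out) .out))) (.na 203 86 (.na 190 84 (.nx 189 1664512 (.nr 188
  524289 (.nr 176 81 .s1 (.nx 182 20644 (.nx 178 180 (.nr 177 798 (.l1 (.ls 19 29 398)) (.l1 .sk))
  (.nx 179 181 (.l1 .sk) (.lg 0 false 3 83 83 19 0 720))) (.nr 187 32769 (.nr 185 513 (.lg 0 true 3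
  67 67 19 0 720) (.nx 186 104033 (.lg 2 true 1 73 73 13 25857 720) .out)) .out))) .out) .out) (.nx
  202 1664512 (.nr 201 524289 (.nr 191 83 .s1 (.nx 196 20644 (.nx 193 180 (.nr 192 817 (.l1 (.ls 31
  37 388)) (.l1 .sk)) (.nx 194 181 (.l1 .sk) (.lg 0 false 2 89 97 31 0 5040))) (.nr 200 32769 (.nr
  198 513 (.lg 0 true 2 71 71 31 0 5040) (.nx 199 104033 (.lg 2 true 1 79 79 29 25857 5040) .out))
  .out))) .out) .out)) (.na 216 90 (.nx 215 1664512 (.nr 214 524289 (.nr 204 85 .s1 (.nx 210 20644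
  (.nx 206 180 (.nr 205 855 (.l1 (.ls 19 29 379)) (.l1 .sk)) (.nx 207 181 (.l1 .sk) (.lg 0 false 3
  83 83 19 0 720))) (.nr 213 32769 (.nr 211 513 (.lg 0 false 1 73 73 13 0 720) (.nx 212 104033 (.lg
  2 true 1 73 73 13 25857 720) .out)) .out))) .out) .out) (.na 229 91 (.nx 228 1664512 (.nr 227
  524289 (.nr 217 89 .s1 (.nx 222 20644 (.nx 219 180 (.nr 218 865 (.l1 (.ls 29 37 362)) (.l1 .sk))
  (.nx 220 181 (.l1 .sk) (.lg 0 false 2 83 83 29 0 720))) (.nr 226 32769 (.nr 224 513 (.lg 0 true 2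
  67 67 29 0 720) (.nx 225 104033 (.lg 2 true 1 73 73 29 25857 720) .out)) .out))) .out) .out)
  .ne))))) (.na 324 128 (.na 272 108 (.na 257 98 (.na 243 94 (.nx 242 1664512 (.nr 241 1048577 (.nr
  231 92 .s1 (.nx 234 181 (.nx 233 180 (.nr 232 893 (.l1 (.ls 19 31 355)) (.l1 .sk)) (.l1 .sk))
  (.nx 238 104033 (.nx 236 13005 (.lg 0 false 2 97 97 19 0 720) (.nr 237 65537 (.lg 0 false 1 97 97
  19 0 720) .out)) (.nr 240 513 (.lg 0 true 2 73 73 19 0 720) .out)))) .out) .out) (.nx 256 1664512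
  (.nr 255 1048577 (.nr 244 94 .s1 (.nx 253 104033 (.nx 246 180 (.nr 245 931 (.l1 (.ls 23 29 347))
  (.l1 .sk)) (.nx 247 181 (.l1 .sk) (.nr 249 65537 (.lg 0 false 2 83 83 19 0 5040) (.nx 252 13005
  (.lg 0 false 3 83 83 19 0 720) .out)))) (.nr 254 513 (.lg 0 false 1 73 73 17 0 5040) .out)))
  .out) .out)) (.na 271 100 (.nx 270 1664512 (.nr 269 1048577 (.nr 258 98 .s1 (.nx 261 181 (.nx 260
  180 (.nr 259 950 (.l1 (.ls 23 31 333)) (.l1 .sk)) (.l1 .sk)) (.nx 267 104033 (.nr 263 65537 (.lg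
  0 false 2 83 83 23 0 5040) (.nx 266 13005 (.lg 0 false 3 83 83 23 0 5040) .out)) (.nr 268 513
  (.lg 0 false 1 71 71 19 0 5040) .out)))) .out) .out) (.lg 0 false 1 0 0 16 0 24))) (.na 298 122
  (.na 285 116 (.nx 284 1664512 (.nr 283 1048577 (.nr 273 108 .s1 (.nx 276 181 (.nx 275 180 (.nr
  274 1102 (.l1 (.ls 37 31 302)) (.l1 .sk)) (.l1 .sk)) (.nx 279 20644 (.nr 277 65537 (.lg 0 false 1
  83 83 29 0 5040) (.nx 278 13005 (.lg 0 false 1 97 97 29 0 5040) .out)) (.nr 282 32769 (.nr 280
  513 (.lg 0 true 1 73 73 31 0 720) (.nx 281 104033 (.lg 1 true 1 83 83 29 25857 5040) .out))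
  .out)))) .out) .out) (.nx 297 1664512 (.nr 296 1048577 (.nr 286 116 .s1 (.nx 289 181 (.nx 288 180
  (.nr 287 1159 (.l1 (.ls 23 23 282)) (.l1 .sk)) (.l1 .sk)) (.nr 293 65537 (.nx 290 104033 (.lg 0
  false 1 97 97 19 0 5040) (.nr 292 513 (.lg 0 true 2 71 71 23 0 720) .out)) (.nx 295 13005 (.lg 0
  false 2 89 97 23 0 5040) .out)))) .out) .out)) (.na 312 126 (.nx 311 1664512 (.nr 310 1048577
  (.nr 299 122 .s1 (.nx 302 181 (.nx 301 180 (.nr 300 1197 (.l1 (.ls 23 29 268)) (.l1 .sk)) (.l1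
  .sk)) (.nr 306 65537 (.nx 304 104033 (.lg 0 true 2 83 83 19 0 5040) (.nr 305 513 (.lg 0 false 1
  71 71 19 0 720) .out)) (.nx 309 13005 (.lg 0 false 3 83 83 23 0 5040) .out)))) .out) .out) (.nx
  323 1664512 (.nr 322 1048577 (.nr 313 126 .s1 (.nx 320 104033 (.nx 315 180 (.nr 314 1216 (.l1
  (.ls 31 37 260)) (.l1 .sk)) (.nx 316 181 (.l1 .sk) (.nr 317 65537 (.lg 0 true 1 89 89 31 0 5040)
  (.nx 319 13005 (.lg 0 false 2 83 89 37 0 5040) .out)))) (.nr 321 513 (.lg 0 true 1 71 71 31 0
  5040) .out))) .out) .out)))) (.na 356 150 (.na 336 138 (.na 325 134 .ne (.nx 335 832257 (.nr 334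
  1048577 (.nr 326 134 .s1 (.nx 327 257 (.l1 (.ls 61 29 495)) (.nr 333 741457 (.nx 329 16201 (.lg 0
  false 2 79 79 23 0 720) (.nr 332 16385 (.nr 330 1025 (.lg 0 false 1 71 71 19 0 720) (.nx 331
  104033 (.lg 2 false 1 59 59 19 16565 720) .out)) .out)) .out))) .out) .out)) (.na 345 140 (.nx
  344 832257 (.nr 343 1048577 (.nr 337 138 .s1 (.nx 338 257 (.l1 (.ls 71 41 481)) (.nr 342 741457
  (.nr 340 16385 (.lg 0 true 2 79 79 31 0 720) (.nx 341 13005 (.lg 0 true 1 83 83 19 0 720) .out))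
  .out))) .out) .out) (.nx 355 832257 (.nr 354 1048577 (.nr 346 140 .s1 (.nx 350 13005 (.nx 347 257
  (.l1 (.ls 73 37 474)) (.nr 349 741457 (.lg 0 false 2 83 83 31 0 5040) .out)) (.nr 353 16385 (.nx
  351 104033 (.lg 0 true 1 73 73 29 0 5040) (.nr 352 1025 (.lg 0 true 1 67 67 29 0 5040) .out))
  .out))) .out) .out))) (.na 367 164 (.na 357 162 (.lg 0 false 1 0 0 16 0 24) (.nx 366 832257 (.nr
  365 1048577 (.nr 358 162 .s1 (.nx 363 104033 (.nx 361 13005 (.nx 359 257 (.l1 (.ls 73 31 410))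
  (.nr 360 741457 (.lg 0 false 1 89 89 31 0 720) .out)) (.nr 362 16385 (.lg 0 true 1 79 79 29 0
  720) .out)) (.nr 364 1025 (.lg 0 true 1 71 71 29 0 720) .out))) .out) .out)) (.na 377 166 (.nx
  376 832257 (.nr 375 1048577 (.nr 368 164 .s1 (.nx 373 104033 (.nx 369 257 (.l1 (.ls 73 29 405))
  (.nr 372 741457 (.nx 370 13005 (.lg 0 true 1 89 89 23 0 5040) (.nr 371 16385 (.lg 0 false 1 79 79
  23 0 5040) .out)) .out)) (.nr 374 1025 (.lg 0 true 1 71 71 23 0 720) .out))) .out) .out) (.na 385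
  172 (.nx 384 832257 (.nr 383 1048577 (.nr 378 166 .s1 (.nx 379 257 (.l1 (.ls 67 29 400)) (.nr 382
  741457 (.nr 380 16385 (.lg 0 false 1 83 83 19 0 720) (.nx 381 13005 (.lg 0 true 1 83 83 19 0 720)
  .out)) .out))) .out) .out) (.nx 394 832257 (.nr 393 1048577 (.nr 386 172 .s1 (.nx 391 104033 (.nx
  389 13005 (.nx 387 257 (.l1 (.ls 79 29 387)) (.nr 388 741457 (.lg 0 true 1 89 89 23 0 5040)
  .out)) (.nr 390 16385 (.lg 0 true 1 79 79 23 0 5040) .out)) (.nr 392 1025 (.lg 0 true 1 67 67 23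
  0 720) .out))) .out) .out))))))) (.na 525 256 (.na 458 210 (.na 422 188 (.na 411 180 (.na 403 178
  (.nx 402 832257 (.nr 401 1048577 (.nr 396 174 .s1 (.nx 397 257 (.l1 (.ls 71 37 382)) (.nr 400
  741457 (.nr 398 16385 (.lg 0 false 1 89 89 23 0 5040) (.nx 399 13005 (.lg 0 true 1 83 83 23 0
  720) .out)) .out))) .out) .out) (.nx 410 832257 (.nr 409 1048577 (.nr 404 178 .s1 (.nx 405 257
  (.l1 (.ls 67 29 374)) (.nr 408 741457 (.nr 406 16385 (.lg 0 false 1 89 89 19 0 5040) (.nx 407
  13005 (.lg 0 true 1 79 79 19 0 5040) .out)) .out))) .out) .out)) (.na 421 182 (.nx 420 832257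
  (.nr 419 1048577 (.nr 412 180 .s1 (.nx 417 104033 (.nx 413 257 (.l1 (.ls 73 37 369)) (.nr 416
  741457 (.nx 414 13005 (.lg 0 false 1 83 83 31 0 720) (.nr 415 16385 (.lg 0 true 1 73 73 31 0 720)
  .out)) .out)) (.nr 418 1025 (.lg 0 true 1 67 67 31 0 720) .out))) .out) .out) .ne)) (.na 442 202
  (.na 432 196 (.nx 431 832257 (.nr 430 1048577 (.nr 423 188 .s1 (.nx 428 104033 (.nx 424 257 (.l1
  (.ls 73 29 354)) (.nr 427 741457 (.nx 425 13005 (.lg 0 false 1 83 83 23 0 720) (.nr 426 16385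
  (.lg 0 true 1 73 73 23 0 720) .out)) .out)) (.nr 429 1025 (.lg 0 true 1 67 67 23 0 720) .out)))
  .out) .out) (.nx 441 832257 (.nr 440 1048577 (.nr 433 196 .s1 (.nx 434 257 (.l1 (.ls 71 31 339))
  (.nr 439 741457 (.nx 437 104033 (.nx 435 13005 (.lg 0 true 1 83 83 29 0 5040) (.nr 436 16385 (.lg
  0 true 1 71 71 29 0 5040) .out)) (.nr 438 1025 (.lg 0 true 1 67 67 29 0 5040) .out)) .out)))
  .out) .out)) (.na 450 206 (.nx 449 832257 (.nr 448 1048577 (.nr 443 202 .s1 (.nx 444 257 (.l1
  (.ls 67 29 329)) (.nr 447 741457 (.nr 445 16385 (.lg 0 false 1 79 79 23 0 720) (.nx 446 13005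
  (.lg 0 true 1 79 79 23 0 720) .out)) .out))) .out) .out) (.nx 457 832257 (.nr 456 1048577 (.nr
  451 206 .s1 (.nx 454 13005 (.nx 452 257 (.l1 (.ls 67 29 323)) (.nr 453 741457 (.lg 0 true 1 79 79
  23 0 5040) .out)) (.nr 455 16385 (.lg 0 false 1 79 79 23 0 5040) .out))) .out) .out)))) (.na 490
  244 (.na 474 218 (.na 466 214 (.nx 465 832257 (.nr 464 1048577 (.nr 459 210 .s1 (.nx 460 257 (.l1
  (.ls 67 41 317)) (.nr 463 741457 (.nr 461 16385 (.lg 0 false 1 79 79 31 0 5040) (.nx 462 13005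
  (.lg 0 true 1 79 79 31 0 5040) .out)) .out))) .out) .out) (.nx 473 832257 (.nr 472 1048577 (.nr
  467 214 .s1 (.nx 468 257 (.l1 (.ls 67 29 311)) (.nr 471 741457 (.nx 469 13005 (.lg 0 true 1 79 79
  23 0 5040) (.nr 470 16385 (.lg 0 false 1 79 79 23 0 5040) .out)) .out))) .out) .out)) (.na 482
  230 (.nx 481 832257 (.nr 480 1048577 (.nr 475 218 .s1 (.nx 476 257 (.l1 (.ls 61 29 305)) (.nr 479
  741457 (.nr 477 16385 (.lg 0 false 1 79 79 23 0 5040) (.nx 478 13005 (.lg 0 true 1 73 73 23 0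
  720) .out)) .out))) .out) .out) (.nx 489 832257 (.nr 488 1048577 (.nr 483 230 .s1 (.nx 484 257
  (.l1 (.ls 67 37 290)) (.nr 487 741457 (.nr 485 16385 (.lg 0 false 1 79 79 31 0 720) (.nx 486
  13005 (.lg 0 true 1 79 79 31 0 720) .out)) .out))) .out) .out))) (.na 506 250 (.na 498 246 (.nx
  497 832257 (.nr 496 1048577 (.nr 491 244 .s1 (.nx 492 257 (.l1 (.ls 59 29 273)) (.nr 495 741457
  (.nr 493 16385 (.lg 0 true 1 83 83 23 0 720) (.nx 494 13005 (.lg 0 false 1 79 79 23 0 720) .out))
  .out))) .out) .out) (.nx 505 832257 (.nr 504 1048577 (.nr 499 246 .s1 (.nx 500 257 (.l1 (.ls 67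
  31 271)) (.nr 503 741457 (.nr 501 16385 (.lg 0 false 1 83 83 29 0 5040) (.nx 502 13005 (.lg 0
  true 1 79 79 29 0 720) .out)) .out))) .out) .out)) (.na 507 252 (.lg 0 false 1 0 0 16 0 24) (.na
  517 254 (.nx 516 832257 (.nr 515 1048577 (.nr 508 252 .s1 (.nx 513 104033 (.nx 509 257 (.l1 (.ls
  79 37 265)) (.nr 512 741457 (.nx 510 13005 (.lg 0 false 1 83 89 41 0 5040) (.nr 511 16385 (.lg 0
  true 1 73 79 41 0 5040) .out)) .out)) (.nr 514 1025 (.lg 0 true 1 67 71 41 0 5040) .out))) .out)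
  .out) (.nx 524 832257 (.nr 523 1048577 (.nr 518 254 .s1 (.nx 519 257 (.l1 (.ls 61 29 263)) (.nr
  522 741457 (.nr 520 16385 (.lg 0 false 1 73 73 23 0 720) (.nx 521 13005 (.lg 0 true 1 73 73 23 0
  720) .out)) .out))) .out) .out)))))) (.na 6070 4096 (.na 2560 1024 (.na 1322 512 (.na 526 257 .ne
  (.nx 1321 832257 (.nr 1320 1482912 (.nr 527 257 .s1 (.nx 784 181 (.nx 783 180 (.nr 782 4865 (.la
  (.ls 37 19 129)) (.l1 .sk)) (.l1 .sk)) (.nx 808 205 (.lx (.lp 83 17 129)) (.nr 1319 1048577 (.nr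
  1063 32769 (.la (.lg 0 true 1 79 79 23 0)) (.nx 1318 10323 (.la (.lg 0 false 1 73 73 23 0))
  .out)) .out)))) .out) .out)) (.na 1958 725 (.nx 1957 832257 (.nr 1956 1482912 (.nr 1323 512 .s1
  (.nx 1528 205 (.nx 1503 180 (.nr 1502 6888 (.lx (.lp 31 19 182)) (.l1 .sk)) (.nx 1504 181 (.l1
  .sk) (.lx (.lp 71 17 182)))) (.nr 1955 1048577 (.nx 1741 22297 (.la (.lg 0 false 1 71 71 29 0))
  (.nr 1954 32769 (.la (.lg 2 false 1 61 61 29 146296)) .out)) .out))) .out) .out) (.nx 2559 10323
  (.nr 2558 1048577 (.nr 1959 725 .s1 (.nx 2258 2049 (.la (.ls 71 41 5793)) (.nr 2557 16385 (.la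
  (.lg 0 true 1 37 41 29 0)) .out))) .out) .out))) (.na 4016 2048 (.na 3414 1449 (.nx 3413 10323
  (.nr 3412 1048577 (.nr 2561 1024 .s1 (.nx 2986 2582 (.la (.ls 67 41 6513)) (.nr 3411 16385 (.la
  (.lg 0 false 1 31 37 31 0)) .out))) .out) .out) (.nx 4015 2582 (.nr 4014 524289 (.nr 3415 1449
  .s1 (.la (.ls 59 37 4603))) .out) .out)) (.na 4868 2897 (.nx 4867 3252 (.nr 4866 524289 (.nr 4017
  2048 .s1 (.la (.ls 59 41 5166))) .out) .out) (.nx 6069 2582 (.nr 6068 262145 (.nr 4869 2897 .s1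
  (.la (.ls 47 37 2304))) .out) .out)))) (.na 11835 32768 (.na 9245 8192 (.na 7951 5793 (.nx 7950
  2582 (.nr 7949 262145 (.nr 6071 4096 .s1 (.nx 6251 180 (.nr 6250 55034 (.lx (.lp 41 31 1449))
  (.l1 .sk)) (.nx 6252 181 (.l1 .sk) (.la (.ls 47 37 1622))))) .out) .out) (.nx 9244 1292 (.nr 9243
  65537 (.nr 7952 5793 .s1 (.lx (.lp 41 37 2049))) .out) .out)) (.na 10540 16384 (.nx 10539 1292
  (.nr 10538 131073 (.nr 9246 8192 .s1 (.nx 9450 205 (.lx (.lp 16 37 4097)) (.nr 10537 65537 (.lx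
  (.lp 37 41 4097)) .out))) .out) .out) (.nx 11834 1292 (.nr 11833 262145 (.nr 10541 16384 .s1 (.nx
  10745 205 (.lx (.lp 16 41 8193)) (.nr 11832 131073 (.lx (.lp 41 43 8193)) .out))) .out) .out)))
  (.na 13891 131072 (.na 12863 65536 (.nx 12862 1025 (.nr 12861 262145 (.nr 11836 32768 .s1 (.nx
  12040 205 (.lx (.lp 16 0 16385)) (.nr 12860 131073 (.lx (.lp 31 47 16385)) .out))) .out) .out)
  (.nx 13890 1025 (.nr 13889 262145 (.nr 12864 65536 .s1 (.nx 13187 324 (.lx (.lp 16 0 32769)) (.nr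
  13888 131073 (.lx (.lp 29 53 32769)) .out))) .out) .out)) (.na 13893 262144 (.nx 13892 324 (.l1
  .sk) .out) (.na 13895 524289 (.nx 13894 205 (.l1 .sk) .out) .out)))))))

theorem c126 :
    OkQ ckI L3 31 1 1099511627776 0 34359738368 1 1099511627776 ∧
    OkQ ckI L10 232 5 1099511627776 0 34359738368 1 1099511627776 ∧
    OkQ ckI L8 180 28 1099511627776 0 34359738368 1 1099511627776 := by
  refine ⟨?_, ?_, ?_⟩
  · refine fin 744 2451 T126_0 ?_
    refine jn 3 (by decide +kernel) ?_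
    refine jn 4 (by decide +kernel) ?_
    refine jn 5 (by decide +kernel) ?_
    refine jn 6 (by decide +kernel) ?_
    refine jn 7 (by decide +kernel) ?_
    refine jn 8 (by decide +kernel) ?_
    refine jn 9 (by decide +kernel) ?_
    refine jn 10 (by decide +kernel) ?_
    refine jn 11 (by decide +kernel) ?_
    refine jn 12 (by decide +kernel) ?_
    refine jn 13 (by decide +kernel) ?_
    refine jn 14 (by decide +kernel) ?_
    refine jn 15 (by decide +kernel) ?_
    refine jn 16 (by decide +kernel) ?_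
    refine jn 17 (by decide +kernel) ?_
    refine jn 18 (by decide +kernel) ?_
    refine jn 19 (by decide +kernel) ?_
    refine jn 20 (by decide +kernel) ?_
    refine jn 21 (by decide +kernel) ?_
    refine jn 22 (by decide +kernel) ?_
    refine jn 33 (by decide +kernel) ?_
    refine jn 39 (by decide +kernel) ?_
    refine jn 43 (by decide +kernel) ?_
    refine jn 47 (by decide +kernel) ?_
    refine jn 52 (by decide +kernel) ?_
    refine jn 57 (by decide +kernel) ?_
    refine jn 62 (by decide +kernel) ?_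
    refine jn 81 (by decide +kernel) ?_
    refine jn 91 (by decide +kernel) ?_
    refine jn 92 (by decide +kernel) ?_
    refine jn 93 (by decide +kernel) ?_
    refine jn 94 (by decide +kernel) ?_
    refine jn 95 (by decide +kernel) ?_
    refine jn 96 (by decide +kernel) ?_
    refine jn 97 (by decide +kernel) ?_
    refine jn 101 (by decide +kernel) ?_
    refine jn 105 (by decide +kernel) ?_
    refine jn 108 (by decide +kernel) ?_
    refine jn 113 (by decide +kernel) ?_
    refine jn 118 (by decide +kernel) ?_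
    refine jn 119 (by decide +kernel) ?_
    refine jn 124 (by decide +kernel) ?_
    refine jn 139 (by decide +kernel) ?_
    refine jn 147 (by decide +kernel) ?_
    refine jn 148 (by decide +kernel) ?_
    refine jn 149 (by decide +kernel) ?_
    refine jn 150 (by decide +kernel) ?_
    refine jn 151 (by decide +kernel) ?_
    refine jn 152 (by decide +kernel) ?_
    refine jn 153 (by decide +kernel) ?_
    refine jn 154 (by decide +kernel) ?_
    refine jn 155 (by decide +kernel) ?_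
    refine jn 156 (by decide +kernel) ?_
    refine jn 159 (by decide +kernel) ?_
    refine jn 160 (by decide +kernel) ?_
    refine jn 161 (by decide +kernel) ?_
    refine jn 163 (by decide +kernel) ?_
    refine jn 165 (by decide +kernel) ?_
    refine jn 167 (by decide +kernel) ?_
    refine jn 174 (by decide +kernel) ?_
    refine jn 175 (by decide +kernel) ?_
    refine jn 176 (by decide +kernel) ?_
    refine jn 177 (by decide +kernel) ?_
    refine jn 178 (by decide +kernel) ?_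
    refine jn 179 (by decide +kernel) ?_
    refine jn 180 (by decide +kernel) ?_
    refine jn 181 (by decide +kernel) ?_
    refine jn 182 (by decide +kernel) ?_
    refine jn 185 (by decide +kernel) ?_
    refine jn 187 (by decide +kernel) ?_
    refine jn 189 (by decide +kernel) ?_
    refine jn 191 (by decide +kernel) ?_
    refine jn 200 (by decide +kernel) ?_
    refine jn 201 (by decide +kernel) ?_
    refine jn 202 (by decide +kernel) ?_
    refine jn 203 (by decide +kernel) ?_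
    refine jn 204 (by decide +kernel) ?_
    refine jn 205 (by decide +kernel) ?_
    refine jn 207 (by decide +kernel) ?_
    refine jn 209 (by decide +kernel) ?_
    refine jn 211 (by decide +kernel) ?_
    refine jn 218 (by decide +kernel) ?_
    refine jn 219 (by decide +kernel) ?_
    refine jn 220 (by decide +kernel) ?_
    refine jn 221 (by decide +kernel) ?_
    refine jn 222 (by decide +kernel) ?_
    refine jn 223 (by decide +kernel) ?_
    refine jn 224 (by decide +kernel) ?_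
    refine jn 225 (by decide +kernel) ?_
    refine jn 226 (by decide +kernel) ?_
    refine jn 227 (by decide +kernel) ?_
    refine jn 228 (by decide +kernel) ?_
    refine jn 229 (by decide +kernel) ?_
    refine jn 230 (by decide +kernel) ?_
    refine jn 239 (by decide +kernel) ?_
    refine jn 240 (by decide +kernel) ?_
    refine jn 241 (by decide +kernel) ?_
    refine jn 242 (by decide +kernel) ?_
    refine jn 244 (by decide +kernel) ?_
    refine jn 245 (by decide +kernel) ?_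
    refine jn 247 (by decide +kernel) ?_
    refine jn 251 (by decide +kernel) ?_
    refine jn 259 (by decide +kernel) ?_
    refine jn 260 (by decide +kernel) ?_
    refine jn 261 (by decide +kernel) ?_
    refine jn 262 (by decide +kernel) ?_
    refine jn 264 (by decide +kernel) ?_
    refine jn 266 (by decide +kernel) ?_
    refine jn 273 (by decide +kernel) ?_
    refine jn 274 (by decide +kernel) ?_
    refine jn 275 (by decide +kernel) ?_
    refine jn 280 (by decide +kernel) ?_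
    refine jn 281 (by decide +kernel) ?_
    refine jn 282 (by decide +kernel) ?_
    refine jn 283 (by decide +kernel) ?_
    refine jn 284 (by decide +kernel) ?_
    refine jn 285 (by decide +kernel) ?_
    refine jn 286 (by decide +kernel) ?_
    refine jn 287 (by decide +kernel) ?_
    refine jn 288 (by decide +kernel) ?_
    refine jn 299 (by decide +kernel) ?_
    refine jn 301 (by decide +kernel) ?_
    refine jn 304 (by decide +kernel) ?_
    refine jn 313 (by decide +kernel) ?_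
    refine jn 314 (by decide +kernel) ?_
    refine jn 315 (by decide +kernel) ?_
    refine jn 316 (by decide +kernel) ?_
    refine jn 317 (by decide +kernel) ?_
    refine jn 318 (by decide +kernel) ?_
    refine jn 319 (by decide +kernel) ?_
    refine jn 320 (by decide +kernel) ?_
    refine jn 328 (by decide +kernel) ?_
    refine jn 334 (by decide +kernel) ?_
    refine jn 335 (by decide +kernel) ?_
    refine jn 336 (by decide +kernel) ?_
    refine jn 337 (by decide +kernel) ?_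
    refine jn 338 (by decide +kernel) ?_
    refine jn 350 (by decide +kernel) ?_
    refine jn 351 (by decide +kernel) ?_
    refine jn 352 (by decide +kernel) ?_
    refine jn 359 (by decide +kernel) ?_
    refine jn 360 (by decide +kernel) ?_
    refine jn 361 (by decide +kernel) ?_
    refine jn 367 (by decide +kernel) ?_
    refine jn 371 (by decide +kernel) ?_
    refine jn 372 (by decide +kernel) ?_
    refine jn 373 (by decide +kernel) ?_
    refine jn 379 (by decide +kernel) ?_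
    refine jn 386 (by decide +kernel) ?_
    refine jn 395 (by decide +kernel) ?_
    refine jn 401 (by decide +kernel) ?_
    refine jn 402 (by decide +kernel) ?_
    refine jn 403 (by decide +kernel) ?_
    refine jn 415 (by decide +kernel) ?_
    refine jn 421 (by decide +kernel) ?_
    refine jn 430 (by decide +kernel) ?_
    refine jn 436 (by decide +kernel) ?_
    refine jn 444 (by decide +kernel) ?_
    refine jn 450 (by decide +kernel) ?_
    refine jn 456 (by decide +kernel) ?_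
    refine jn 457 (by decide +kernel) ?_
    refine jn 458 (by decide +kernel) ?_
    refine jn 464 (by decide +kernel) ?_
    refine jn 472 (by decide +kernel) ?_
    refine jn 478 (by decide +kernel) ?_
    refine jn 490 (by decide +kernel) ?_
    refine jn 496 (by decide +kernel) ?_
    refine jn 508 (by decide +kernel) ?_
    refine jn 524 (by decide +kernel) ?_
    refine jn 525 (by decide +kernel) ?_
    refine jn 526 (by decide +kernel) ?_
    refine jn 546 (by decide +kernel) ?_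
    refine jn 560 (by decide +kernel) ?_
    refine jn 569 (by decide +kernel) ?_
    refine jn 587 (by decide +kernel) ?_
    refine jn 589 (by decide +kernel) ?_
    refine jn 607 (by decide +kernel) ?_
    refine jn 614 (by decide +kernel) ?_
    refine jn 625 (by decide +kernel) ?_
    refine jn 636 (by decide +kernel) ?_
    refine jn 651 (by decide +kernel) ?_
    refine jn 671 (by decide +kernel) ?_
    refine jn 695 (by decide +kernel) ?_
    refine jn 702 (by decide +kernel) ?_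
    refine jn 727 (by decide +kernel) ?_
    refine jn 746 (by decide +kernel) ?_
    refine jn 775 (by decide +kernel) ?_
    refine jn 791 (by decide +kernel) ?_
    refine jn 845 (by decide +kernel) ?_
    refine jn 863 (by decide +kernel) ?_
    refine jn 864 (by decide +kernel) ?_
    refine jn 878 (by decide +kernel) ?_
    refine jn 887 (by decide +kernel) ?_
    refine jn 893 (by decide +kernel) ?_
    refine jn 903 (by decide +kernel) ?_
    refine jn 911 (by decide +kernel) ?_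
    refine jn 918 (by decide +kernel) ?_
    refine jn 938 (by decide +kernel) ?_
    refine jn 959 (by decide +kernel) ?_
    refine jn 963 (by decide +kernel) ?_
    refine jn 971 (by decide +kernel) ?_
    refine jn 983 (by decide +kernel) ?_
    refine jn 995 (by decide +kernel) ?_
    refine jn 1011 (by decide +kernel) ?_
    refine jn 1031 (by decide +kernel) ?_
    refine jn 1050 (by decide +kernel) ?_
    refine jn 1058 (by decide +kernel) ?_
    refine jn 1080 (by decide +kernel) ?_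
    refine jn 1149 (by decide +kernel) ?_
    refine jn 1197 (by decide +kernel) ?_
    refine jn 1233 (by decide +kernel) ?_
    refine jn 1293 (by decide +kernel) ?_
    refine jn 1347 (by decide +kernel) ?_
    refine jn 1406 (by decide +kernel) ?_
    refine jn 1461 (by decide +kernel) ?_
    refine jn 1530 (by decide +kernel) ?_
    refine jn 1596 (by decide +kernel) ?_
    refine jn 1670 (by decide +kernel) ?_
    refine jn 1694 (by decide +kernel) ?_
    refine jn 1709 (by decide +kernel) ?_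
    refine jn 1710 (by decide +kernel) ?_
    refine jn 1742 (by decide +kernel) ?_
    refine jn 1777 (by decide +kernel) ?_
    refine jn 1807 (by decide +kernel) ?_
    refine jn 1841 (by decide +kernel) ?_
    refine jn 1876 (by decide +kernel) ?_
    refine jn 1909 (by decide +kernel) ?_
    refine jn 1920 (by decide +kernel) ?_
    refine jn 1943 (by decide +kernel) ?_
    refine jn 1973 (by decide +kernel) ?_
    refine jn 2008 (by decide +kernel) ?_
    refine jn 2045 (by decide +kernel) ?_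
    refine jn 2081 (by decide +kernel) ?_
    refine jn 2107 (by decide +kernel) ?_
    refine jn 2149 (by decide +kernel) ?_
    refine jn 2367 (by decide +kernel) ?_
    exact je (by decide +kernel)
  · refine fin 696 24108 T126_1 ?_
    refine jn 7 (by decide +kernel) ?_
    refine jn 10 (by decide +kernel) ?_
    refine jn 13 (by decide +kernel) ?_
    refine jn 16 (by decide +kernel) ?_
    refine jn 19 (by decide +kernel) ?_
    refine jn 28 (by decide +kernel) ?_
    refine jn 33 (by decide +kernel) ?_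
    refine jn 38 (by decide +kernel) ?_
    refine jn 45 (by decide +kernel) ?_
    refine jn 50 (by decide +kernel) ?_
    refine jn 65 (by decide +kernel) ?_
    refine jn 78 (by decide +kernel) ?_
    refine jn 88 (by decide +kernel) ?_
    refine jn 96 (by decide +kernel) ?_
    refine jn 107 (by decide +kernel) ?_
    refine jn 116 (by decide +kernel) ?_
    refine jn 128 (by decide +kernel) ?_
    refine jn 164 (by decide +kernel) ?_
    refine jn 184 (by decide +kernel) ?_
    refine jn 202 (by decide +kernel) ?_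
    refine jn 211 (by decide +kernel) ?_
    refine jn 213 (by decide +kernel) ?_
    refine jn 215 (by decide +kernel) ?_
    refine jn 217 (by decide +kernel) ?_
    refine jn 218 (by decide +kernel) ?_
    refine jn 221 (by decide +kernel) ?_
    refine jn 222 (by decide +kernel) ?_
    refine jn 223 (by decide +kernel) ?_
    refine jn 224 (by decide +kernel) ?_
    refine jn 225 (by decide +kernel) ?_
    refine jn 226 (by decide +kernel) ?_
    refine jn 227 (by decide +kernel) ?_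
    refine jn 228 (by decide +kernel) ?_
    refine jn 235 (by decide +kernel) ?_
    refine jn 247 (by decide +kernel) ?_
    refine jn 258 (by decide +kernel) ?_
    refine jn 270 (by decide +kernel) ?_
    refine jn 289 (by decide +kernel) ?_
    refine jn 299 (by decide +kernel) ?_
    refine jn 307 (by decide +kernel) ?_
    refine jn 308 (by decide +kernel) ?_
    refine jn 309 (by decide +kernel) ?_
    refine jn 310 (by decide +kernel) ?_
    refine jn 311 (by decide +kernel) ?_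
    refine jn 312 (by decide +kernel) ?_
    refine jn 313 (by decide +kernel) ?_
    refine jn 314 (by decide +kernel) ?_
    refine jn 316 (by decide +kernel) ?_
    refine jn 321 (by decide +kernel) ?_
    refine jn 339 (by decide +kernel) ?_
    refine jn 346 (by decide +kernel) ?_
    refine jn 358 (by decide +kernel) ?_
    refine jn 366 (by decide +kernel) ?_
    refine jn 382 (by decide +kernel) ?_
    refine jn 396 (by decide +kernel) ?_
    refine jn 410 (by decide +kernel) ?_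
    refine jn 420 (by decide +kernel) ?_
    refine jn 436 (by decide +kernel) ?_
    refine jn 450 (by decide +kernel) ?_
    refine jn 459 (by decide +kernel) ?_
    refine jn 462 (by decide +kernel) ?_
    refine jn 477 (by decide +kernel) ?_
    refine jn 494 (by decide +kernel) ?_
    refine jn 507 (by decide +kernel) ?_
    refine jn 517 (by decide +kernel) ?_
    refine jn 526 (by decide +kernel) ?_
    refine jn 542 (by decide +kernel) ?_
    refine jn 556 (by decide +kernel) ?_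
    refine jn 569 (by decide +kernel) ?_
    refine jn 587 (by decide +kernel) ?_
    refine jn 608 (by decide +kernel) ?_
    refine jn 622 (by decide +kernel) ?_
    refine jn 634 (by decide +kernel) ?_
    refine jn 648 (by decide +kernel) ?_
    refine jn 658 (by decide +kernel) ?_
    refine jn 670 (by decide +kernel) ?_
    refine jn 737 (by decide +kernel) ?_
    refine jn 792 (by decide +kernel) ?_
    refine jn 797 (by decide +kernel) ?_
    refine jn 798 (by decide +kernel) ?_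
    refine jn 810 (by decide +kernel) ?_
    refine jn 822 (by decide +kernel) ?_
    refine jn 825 (by decide +kernel) ?_
    refine jn 840 (by decide +kernel) ?_
    refine jn 845 (by decide +kernel) ?_
    refine jn 861 (by decide +kernel) ?_
    refine jn 882 (by decide +kernel) ?_
    refine jn 892 (by decide +kernel) ?_
    refine jn 903 (by decide +kernel) ?_
    refine jn 904 (by decide +kernel) ?_
    refine jn 916 (by decide +kernel) ?_
    refine jn 928 (by decide +kernel) ?_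
    refine jn 931 (by decide +kernel) ?_
    refine jn 946 (by decide +kernel) ?_
    refine jn 951 (by decide +kernel) ?_
    refine jn 967 (by decide +kernel) ?_
    refine jn 988 (by decide +kernel) ?_
    refine jn 1043 (by decide +kernel) ?_
    refine jn 1157 (by decide +kernel) ?_
    refine jn 1179 (by decide +kernel) ?_
    refine jn 1194 (by decide +kernel) ?_
    refine jn 1211 (by decide +kernel) ?_
    refine jn 1247 (by decide +kernel) ?_
    refine jn 1266 (by decide +kernel) ?_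
    refine jn 1293 (by decide +kernel) ?_
    refine jn 1315 (by decide +kernel) ?_
    refine jn 1340 (by decide +kernel) ?_
    refine jn 1360 (by decide +kernel) ?_
    refine jn 1400 (by decide +kernel) ?_
    refine jn 1427 (by decide +kernel) ?_
    refine jn 1447 (by decide +kernel) ?_
    refine jn 1562 (by decide +kernel) ?_
    refine jn 1681 (by decide +kernel) ?_
    refine jn 1699 (by decide +kernel) ?_
    refine jn 1729 (by decide +kernel) ?_
    refine jn 1757 (by decide +kernel) ?_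
    refine jn 1790 (by decide +kernel) ?_
    refine jn 1822 (by decide +kernel) ?_
    refine jn 1841 (by decide +kernel) ?_
    refine jn 1892 (by decide +kernel) ?_
    refine jn 1907 (by decide +kernel) ?_
    refine jn 1918 (by decide +kernel) ?_
    refine jn 1958 (by decide +kernel) ?_
    refine jn 1978 (by decide +kernel) ?_
    refine jn 2014 (by decide +kernel) ?_
    refine jn 2044 (by decide +kernel) ?_
    refine jn 2087 (by decide +kernel) ?_
    refine jn 2139 (by decide +kernel) ?_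
    refine jn 2231 (by decide +kernel) ?_
    refine jn 2307 (by decide +kernel) ?_
    refine jn 2391 (by decide +kernel) ?_
    refine jn 2435 (by decide +kernel) ?_
    refine jn 2482 (by decide +kernel) ?_
    refine jn 2527 (by decide +kernel) ?_
    refine jn 2573 (by decide +kernel) ?_
    refine jn 2606 (by decide +kernel) ?_
    refine jn 2641 (by decide +kernel) ?_
    refine jn 2690 (by decide +kernel) ?_
    refine jn 2751 (by decide +kernel) ?_
    refine jn 2829 (by decide +kernel) ?_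
    refine jn 2946 (by decide +kernel) ?_
    refine jn 3090 (by decide +kernel) ?_
    refine jn 3152 (by decide +kernel) ?_
    refine jn 3179 (by decide +kernel) ?_
    refine jn 3215 (by decide +kernel) ?_
    refine jn 3250 (by decide +kernel) ?_
    refine jn 3320 (by decide +kernel) ?_
    refine jn 3359 (by decide +kernel) ?_
    refine jn 3406 (by decide +kernel) ?_
    refine jn 3484 (by decide +kernel) ?_
    refine jn 3535 (by decide +kernel) ?_
    refine jn 3564 (by decide +kernel) ?_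
    refine jn 3600 (by decide +kernel) ?_
    refine jn 3663 (by decide +kernel) ?_
    refine jn 3711 (by decide +kernel) ?_
    refine jn 3783 (by decide +kernel) ?_
    refine jn 3846 (by decide +kernel) ?_
    refine jn 3923 (by decide +kernel) ?_
    refine jn 3971 (by decide +kernel) ?_
    refine jn 4023 (by decide +kernel) ?_
    refine jn 4104 (by decide +kernel) ?_
    refine jn 4191 (by decide +kernel) ?_
    refine jn 4247 (by decide +kernel) ?_
    refine jn 4293 (by decide +kernel) ?_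
    refine jn 4367 (by decide +kernel) ?_
    refine jn 4451 (by decide +kernel) ?_
    refine jn 4499 (by decide +kernel) ?_
    refine jn 4559 (by decide +kernel) ?_
    refine jn 4649 (by decide +kernel) ?_
    refine jn 4743 (by decide +kernel) ?_
    refine jn 4841 (by decide +kernel) ?_
    refine jn 4929 (by decide +kernel) ?_
    refine jn 5010 (by decide +kernel) ?_
    refine jn 5141 (by decide +kernel) ?_
    refine jn 5299 (by decide +kernel) ?_
    refine jn 5465 (by decide +kernel) ?_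
    refine jn 5640 (by decide +kernel) ?_
    refine jn 5769 (by decide +kernel) ?_
    refine jn 5906 (by decide +kernel) ?_
    refine jn 6050 (by decide +kernel) ?_
    refine jn 6192 (by decide +kernel) ?_
    refine jn 6360 (by decide +kernel) ?_
    refine jn 6504 (by decide +kernel) ?_
    refine jn 6704 (by decide +kernel) ?_
    refine jn 6860 (by decide +kernel) ?_
    refine jn 7024 (by decide +kernel) ?_
    refine jn 7193 (by decide +kernel) ?_
    refine jn 7343 (by decide +kernel) ?_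
    refine jn 7535 (by decide +kernel) ?_
    refine jn 7685 (by decide +kernel) ?_
    refine jn 7907 (by decide +kernel) ?_
    refine jn 8245 (by decide +kernel) ?_
    refine jn 8531 (by decide +kernel) ?_
    refine jn 8824 (by decide +kernel) ?_
    refine jn 9115 (by decide +kernel) ?_
    refine jn 9389 (by decide +kernel) ?_
    refine jn 9679 (by decide +kernel) ?_
    refine jn 9991 (by decide +kernel) ?_
    refine jn 10319 (by decide +kernel) ?_
    refine jn 10717 (by decide +kernel) ?_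
    refine jn 11041 (by decide +kernel) ?_
    refine jn 11332 (by decide +kernel) ?_
    refine jn 11659 (by decide +kernel) ?_
    refine jn 11985 (by decide +kernel) ?_
    refine jn 12319 (by decide +kernel) ?_
    refine jn 12621 (by decide +kernel) ?_
    refine jn 12952 (by decide +kernel) ?_
    refine jn 13272 (by decide +kernel) ?_
    refine jn 13575 (by decide +kernel) ?_
    refine jn 13959 (by decide +kernel) ?_
    refine jn 14322 (by decide +kernel) ?_
    refine jn 14824 (by decide +kernel) ?_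
    refine jn 15068 (by decide +kernel) ?_
    refine jn 15253 (by decide +kernel) ?_
    refine jn 15412 (by decide +kernel) ?_
    refine jn 15543 (by decide +kernel) ?_
    refine jn 15655 (by decide +kernel) ?_
    refine jn 15754 (by decide +kernel) ?_
    refine jn 15845 (by decide +kernel) ?_
    refine jn 15925 (by decide +kernel) ?_
    refine jn 15999 (by decide +kernel) ?_
    refine jn 16068 (by decide +kernel) ?_
    refine jn 16133 (by decide +kernel) ?_
    refine jn 16196 (by decide +kernel) ?_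
    refine jn 16518 (by decide +kernel) ?_
    refine jn 16844 (by decide +kernel) ?_
    refine jn 17037 (by decide +kernel) ?_
    refine jn 17198 (by decide +kernel) ?_
    refine jn 17334 (by decide +kernel) ?_
    refine jn 17452 (by decide +kernel) ?_
    refine jn 17552 (by decide +kernel) ?_
    refine jn 17639 (by decide +kernel) ?_
    refine jn 17721 (by decide +kernel) ?_
    refine jn 17798 (by decide +kernel) ?_
    refine jn 17872 (by decide +kernel) ?_
    refine jn 17937 (by decide +kernel) ?_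
    refine jn 18000 (by decide +kernel) ?_
    refine jn 18061 (by decide +kernel) ?_
    refine jn 18118 (by decide +kernel) ?_
    refine jn 18172 (by decide +kernel) ?_
    refine jn 18220 (by decide +kernel) ?_
    refine jn 18270 (by decide +kernel) ?_
    refine jn 18789 (by decide +kernel) ?_
    refine jn 19098 (by decide +kernel) ?_
    refine jn 19310 (by decide +kernel) ?_
    refine jn 19496 (by decide +kernel) ?_
    refine jn 19645 (by decide +kernel) ?_
    refine jn 19778 (by decide +kernel) ?_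
    refine jn 19900 (by decide +kernel) ?_
    refine jn 20003 (by decide +kernel) ?_
    refine jn 20102 (by decide +kernel) ?_
    refine jn 20197 (by decide +kernel) ?_
    refine jn 20287 (by decide +kernel) ?_
    refine jn 20777 (by decide +kernel) ?_
    refine jn 21217 (by decide +kernel) ?_
    refine jn 21500 (by decide +kernel) ?_
    refine jn 21700 (by decide +kernel) ?_
    refine jn 21909 (by decide +kernel) ?_
    refine jn 22569 (by decide +kernel) ?_
    refine jn 23003 (by decide +kernel) ?_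
    refine jn 23340 (by decide +kernel) ?_
    refine jn 23588 (by decide +kernel) ?_
    exact je (by decide +kernel)
  · refine fin 360 13896 T126_2 ?_
    refine jn 5 (by decide +kernel) ?_
    refine jn 6 (by decide +kernel) ?_
    refine jn 7 (by decide +kernel) ?_
    refine jn 11 (by decide +kernel) ?_
    refine jn 12 (by decide +kernel) ?_
    refine jn 15 (by decide +kernel) ?_
    refine jn 18 (by decide +kernel) ?_
    refine jn 20 (by decide +kernel) ?_
    refine jn 41 (by decide +kernel) ?_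
    refine jn 57 (by decide +kernel) ?_
    refine jn 58 (by decide +kernel) ?_
    refine jn 59 (by decide +kernel) ?_
    refine jn 60 (by decide +kernel) ?_
    refine jn 62 (by decide +kernel) ?_
    refine jn 63 (by decide +kernel) ?_
    refine jn 64 (by decide +kernel) ?_
    refine jn 65 (by decide +kernel) ?_
    refine jn 66 (by decide +kernel) ?_
    refine jn 67 (by decide +kernel) ?_
    refine jn 78 (by decide +kernel) ?_
    refine jn 84 (by decide +kernel) ?_
    refine jn 93 (by decide +kernel) ?_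
    refine jn 95 (by decide +kernel) ?_
    refine jn 96 (by decide +kernel) ?_
    refine jn 97 (by decide +kernel) ?_
    refine jn 98 (by decide +kernel) ?_
    refine jn 99 (by decide +kernel) ?_
    refine jn 109 (by decide +kernel) ?_
    refine jn 114 (by decide +kernel) ?_
    refine jn 116 (by decide +kernel) ?_
    refine jn 119 (by decide +kernel) ?_
    refine jn 121 (by decide +kernel) ?_
    refine jn 129 (by decide +kernel) ?_
    refine jn 136 (by decide +kernel) ?_
    refine jn 143 (by decide +kernel) ?_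
    refine jn 153 (by decide +kernel) ?_
    refine jn 167 (by decide +kernel) ?_
    refine jn 177 (by decide +kernel) ?_
    refine jn 186 (by decide +kernel) ?_
    refine jn 196 (by decide +kernel) ?_
    refine jn 199 (by decide +kernel) ?_
    refine jn 212 (by decide +kernel) ?_
    refine jn 224 (by decide +kernel) ?_
    refine jn 236 (by decide +kernel) ?_
    refine jn 240 (by decide +kernel) ?_
    refine jn 252 (by decide +kernel) ?_
    refine jn 266 (by decide +kernel) ?_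
    refine jn 276 (by decide +kernel) ?_
    refine jn 277 (by decide +kernel) ?_
    refine jn 279 (by decide +kernel) ?_
    refine jn 280 (by decide +kernel) ?_
    refine jn 290 (by decide +kernel) ?_
    refine jn 295 (by decide +kernel) ?_
    refine jn 309 (by decide +kernel) ?_
    refine jn 317 (by decide +kernel) ?_
    refine jn 321 (by decide +kernel) ?_
    refine jn 331 (by decide +kernel) ?_
    refine jn 346 (by decide +kernel) ?_
    refine jn 351 (by decide +kernel) ?_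
    refine jn 360 (by decide +kernel) ?_
    refine jn 364 (by decide +kernel) ?_
    refine jn 371 (by decide +kernel) ?_
    refine jn 381 (by decide +kernel) ?_
    refine jn 390 (by decide +kernel) ?_
    refine jn 399 (by decide +kernel) ?_
    refine jn 414 (by decide +kernel) ?_
    refine jn 418 (by decide +kernel) ?_
    refine jn 426 (by decide +kernel) ?_
    refine jn 436 (by decide +kernel) ?_
    refine jn 446 (by decide +kernel) ?_
    refine jn 462 (by decide +kernel) ?_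
    refine jn 478 (by decide +kernel) ?_
    refine jn 493 (by decide +kernel) ?_
    refine jn 502 (by decide +kernel) ?_
    refine jn 510 (by decide +kernel) ?_
    refine jn 511 (by decide +kernel) ?_
    refine jn 520 (by decide +kernel) ?_
    refine jn 592 (by decide +kernel) ?_
    refine jn 594 (by decide +kernel) ?_
    refine jn 596 (by decide +kernel) ?_
    refine jn 674 (by decide +kernel) ?_
    refine jn 716 (by decide +kernel) ?_
    refine jn 762 (by decide +kernel) ?_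
    refine jn 819 (by decide +kernel) ?_
    refine jn 821 (by decide +kernel) ?_
    refine jn 827 (by decide +kernel) ?_
    refine jn 841 (by decide +kernel) ?_
    refine jn 873 (by decide +kernel) ?_
    refine jn 875 (by decide +kernel) ?_
    refine jn 876 (by decide +kernel) ?_
    refine jn 885 (by decide +kernel) ?_
    refine jn 907 (by decide +kernel) ?_
    refine jn 917 (by decide +kernel) ?_
    refine jn 929 (by decide +kernel) ?_
    refine jn 930 (by decide +kernel) ?_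
    refine jn 957 (by decide +kernel) ?_
    refine jn 963 (by decide +kernel) ?_
    refine jn 965 (by decide +kernel) ?_
    refine jn 971 (by decide +kernel) ?_
    refine jn 981 (by decide +kernel) ?_
    refine jn 1005 (by decide +kernel) ?_
    refine jn 1021 (by decide +kernel) ?_
    refine jn 1037 (by decide +kernel) ?_
    refine jn 1038 (by decide +kernel) ?_
    refine jn 1059 (by decide +kernel) ?_
    refine jn 1074 (by decide +kernel) ?_
    refine jn 1082 (by decide +kernel) ?_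
    refine jn 1100 (by decide +kernel) ?_
    refine jn 1130 (by decide +kernel) ?_
    refine jn 1131 (by decide +kernel) ?_
    refine jn 1154 (by decide +kernel) ?_
    refine jn 1172 (by decide +kernel) ?_
    refine jn 1192 (by decide +kernel) ?_
    refine jn 1216 (by decide +kernel) ?_
    refine jn 1220 (by decide +kernel) ?_
    refine jn 1234 (by decide +kernel) ?_
    refine jn 1252 (by decide +kernel) ?_
    refine jn 1266 (by decide +kernel) ?_
    refine jn 1292 (by decide +kernel) ?_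
    refine jn 1296 (by decide +kernel) ?_
    refine jn 1314 (by decide +kernel) ?_
    refine jn 1444 (by decide +kernel) ?_
    refine jn 1538 (by decide +kernel) ?_
    refine jn 1550 (by decide +kernel) ?_
    refine jn 1556 (by decide +kernel) ?_
    refine jn 1578 (by decide +kernel) ?_
    refine jn 1590 (by decide +kernel) ?_
    refine jn 1604 (by decide +kernel) ?_
    refine jn 1618 (by decide +kernel) ?_
    refine jn 1630 (by decide +kernel) ?_
    refine jn 1646 (by decide +kernel) ?_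
    refine jn 1660 (by decide +kernel) ?_
    refine jn 1668 (by decide +kernel) ?_
    refine jn 1684 (by decide +kernel) ?_
    refine jn 1706 (by decide +kernel) ?_
    refine jn 1740 (by decide +kernel) ?_
    refine jn 1751 (by decide +kernel) ?_
    refine jn 1763 (by decide +kernel) ?_
    refine jn 1769 (by decide +kernel) ?_
    refine jn 1791 (by decide +kernel) ?_
    refine jn 1803 (by decide +kernel) ?_
    refine jn 1817 (by decide +kernel) ?_
    refine jn 1831 (by decide +kernel) ?_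
    refine jn 1843 (by decide +kernel) ?_
    refine jn 1859 (by decide +kernel) ?_
    refine jn 1873 (by decide +kernel) ?_
    refine jn 1881 (by decide +kernel) ?_
    refine jn 1897 (by decide +kernel) ?_
    refine jn 1919 (by decide +kernel) ?_
    refine jn 1953 (by decide +kernel) ?_
    refine jn 1990 (by decide +kernel) ?_
    refine jn 2022 (by decide +kernel) ?_
    refine jn 2062 (by decide +kernel) ?_
    refine jn 2104 (by decide +kernel) ?_
    refine jn 2156 (by decide +kernel) ?_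
    refine jn 2206 (by decide +kernel) ?_
    refine jn 2214 (by decide +kernel) ?_
    refine jn 2271 (by decide +kernel) ?_
    refine jn 2289 (by decide +kernel) ?_
    refine jn 2290 (by decide +kernel) ?_
    refine jn 2343 (by decide +kernel) ?_
    refine jn 2353 (by decide +kernel) ?_
    refine jn 2375 (by decide +kernel) ?_
    refine jn 2415 (by decide +kernel) ?_
    refine jn 2441 (by decide +kernel) ?_
    refine jn 2489 (by decide +kernel) ?_
    refine jn 2505 (by decide +kernel) ?_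
    refine jn 2506 (by decide +kernel) ?_
    refine jn 2551 (by decide +kernel) ?_
    refine jn 2605 (by decide +kernel) ?_
    refine jn 2669 (by decide +kernel) ?_
    refine jn 2711 (by decide +kernel) ?_
    refine jn 2765 (by decide +kernel) ?_
    refine jn 2807 (by decide +kernel) ?_
    refine jn 2875 (by decide +kernel) ?_
    refine jn 2949 (by decide +kernel) ?_
    refine jn 3006 (by decide +kernel) ?_
    refine jn 3030 (by decide +kernel) ?_
    refine jn 3060 (by decide +kernel) ?_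
    refine jn 3096 (by decide +kernel) ?_
    refine jn 3110 (by decide +kernel) ?_
    refine jn 3166 (by decide +kernel) ?_
    refine jn 3182 (by decide +kernel) ?_
    refine jn 3208 (by decide +kernel) ?_
    refine jn 3246 (by decide +kernel) ?_
    refine jn 3284 (by decide +kernel) ?_
    refine jn 3342 (by decide +kernel) ?_
    refine jn 3404 (by decide +kernel) ?_
    refine jn 3442 (by decide +kernel) ?_
    refine jn 3498 (by decide +kernel) ?_
    refine jn 3570 (by decide +kernel) ?_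
    refine jn 3620 (by decide +kernel) ?_
    refine jn 3688 (by decide +kernel) ?_
    refine jn 3754 (by decide +kernel) ?_
    refine jn 3824 (by decide +kernel) ?_
    refine jn 3898 (by decide +kernel) ?_
    refine jn 3978 (by decide +kernel) ?_
    refine jn 4055 (by decide +kernel) ?_
    refine jn 4149 (by decide +kernel) ?_
    refine jn 4223 (by decide +kernel) ?_
    refine jn 4255 (by decide +kernel) ?_
    refine jn 4347 (by decide +kernel) ?_
    refine jn 4405 (by decide +kernel) ?_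
    refine jn 4463 (by decide +kernel) ?_
    refine jn 4555 (by decide +kernel) ?_
    refine jn 4639 (by decide +kernel) ?_
    refine jn 4747 (by decide +kernel) ?_
    refine jn 4827 (by decide +kernel) ?_
    refine jn 4888 (by decide +kernel) ?_
    refine jn 4960 (by decide +kernel) ?_
    refine jn 5054 (by decide +kernel) ?_
    refine jn 5150 (by decide +kernel) ?_
    refine jn 5232 (by decide +kernel) ?_
    refine jn 5344 (by decide +kernel) ?_
    refine jn 5435 (by decide +kernel) ?_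
    refine jn 5574 (by decide +kernel) ?_
    refine jn 5654 (by decide +kernel) ?_
    refine jn 5738 (by decide +kernel) ?_
    refine jn 5828 (by decide +kernel) ?_
    refine jn 5936 (by decide +kernel) ?_
    refine jn 6058 (by decide +kernel) ?_
    refine jn 6306 (by decide +kernel) ?_
    refine jn 6426 (by decide +kernel) ?_
    refine jn 6566 (by decide +kernel) ?_
    refine jn 6662 (by decide +kernel) ?_
    refine jn 6778 (by decide +kernel) ?_
    refine jn 6890 (by decide +kernel) ?_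
    refine jn 7002 (by decide +kernel) ?_
    refine jn 7130 (by decide +kernel) ?_
    refine jn 7242 (by decide +kernel) ?_
    refine jn 7376 (by decide +kernel) ?_
    refine jn 7490 (by decide +kernel) ?_
    refine jn 7608 (by decide +kernel) ?_
    refine jn 7734 (by decide +kernel) ?_
    refine jn 7842 (by decide +kernel) ?_
    refine jn 8023 (by decide +kernel) ?_
    refine jn 8401 (by decide +kernel) ?_
    refine jn 8545 (by decide +kernel) ?_
    refine jn 8674 (by decide +kernel) ?_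
    refine jn 8792 (by decide +kernel) ?_
    refine jn 8887 (by decide +kernel) ?_
    refine jn 8970 (by decide +kernel) ?_
    refine jn 9015 (by decide +kernel) ?_
    refine jn 9097 (by decide +kernel) ?_
    refine jn 9157 (by decide +kernel) ?_
    refine jn 9217 (by decide +kernel) ?_
    refine jn 9479 (by decide +kernel) ?_
    refine jn 9695 (by decide +kernel) ?_
    refine jn 9836 (by decide +kernel) ?_
    refine jn 9939 (by decide +kernel) ?_
    refine jn 10033 (by decide +kernel) ?_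
    refine jn 10108 (by decide +kernel) ?_
    refine jn 10171 (by decide +kernel) ?_
    refine jn 10239 (by decide +kernel) ?_
    refine jn 10295 (by decide +kernel) ?_
    refine jn 10335 (by decide +kernel) ?_
    refine jn 10397 (by decide +kernel) ?_
    refine jn 10443 (by decide +kernel) ?_
    refine jn 10486 (by decide +kernel) ?_
    refine jn 10532 (by decide +kernel) ?_
    refine jn 10842 (by decide +kernel) ?_
    refine jn 11088 (by decide +kernel) ?_
    refine jn 11253 (by decide +kernel) ?_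
    refine jn 11396 (by decide +kernel) ?_
    refine jn 11515 (by decide +kernel) ?_
    refine jn 11602 (by decide +kernel) ?_
    refine jn 11660 (by decide +kernel) ?_
    refine jn 11760 (by decide +kernel) ?_
    refine jn 11824 (by decide +kernel) ?_
    refine jn 12221 (by decide +kernel) ?_
    refine jn 12429 (by decide +kernel) ?_
    refine jn 12609 (by decide +kernel) ?_
    refine jn 12789 (by decide +kernel) ?_
    refine jn 13209 (by decide +kernel) ?_
    refine jn 13473 (by decide +kernel) ?_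
    refine jn 13712 (by decide +kernel) ?_
    exact je (by decide +kernel)

end Pool.Agent.MP_2339ce_nt.NR
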