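import Pool.Agent.MP_2339ce_nt.Q2.NC.L6
import Pool.Agent.MP_2339ce_nt.Q2.NC.L9
import Pool.Agent.MP_2339ce_nt.Q2.NC.L10
import Pool.Agent.MP_2339ce_nt.Q2.CkI

/-! Block NR: runs. -/

set_option autoImplicit false
set_option maxRecDepth 100000

noncomputable section

namespace Pool.Agent.MP_2339ce_nt.NR

open Q2.Top

def T128_0 : Ph :=
  (.na 636 63 (.na 383 33 (.na 233 19 (.na 115 16 (.na 1 14 .ne (.na 55 15 (.nx 54 2097153 (.nr 53
  1048577 (.nr 2 3 .s1 (.nx 5 190 (.nx 4 189 (.nr 3 146 (.lg 0 true 1 29 29 11 0 1008) (.l1 .sk))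
  (.l1 .sk)) (.nx 6 257 (.l1 (.ls 79 41 2142)) (.nr 52 623489 (.nr 46 185365 (.nx 19 48160 (.lg 0
  false 13 97 97 17 0 65520) (.nr 32 1117 (.lg 0 true 13 79 79 17 0 13104) (.nx 45 660563 (.lg 2
  false 13 97 101 17 68815 65520) .out))) (.nx 51 1292 (.lg 0 false 5 73 73 13 0 5040) .out))
  .out)))) .out) .out) (.nx 114 2097153 (.nr 113 1048577 (.nr 56 7 .s1 (.nx 59 190 (.nx 58 189 (.nr
  57 156 (.lg 0 false 1 29 29 16 0 2520) (.l1 .sk)) (.l1 .sk)) (.nx 60 257 (.l1 (.ls 83 37 1999))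
  (.nr 112 623489 (.nr 87 65537 (.nx 64 17861 (.lg 0 true 4 89 89 16 0 5040) (.nx 81 660563 (.nr 68
  1168 (.lg 0 true 4 83 83 16 0 5040) (.lg 2 false 13 79 79 17 65726 32760)) (.nr 86 65 (.lg 0 true
  5 67 67 16 0 2520) .out))) (.nx 111 208065 (.nr 100 155873 (.lg 0 true 13 101 107 17 0 720720)
  (.nx 110 104033 (.nx 104 1292 (.lg 0 false 4 83 83 16 0 5040) (.nx 105 5160 .out (.nr 109 185365
  (.lg 0 true 4 101 101 16 0 55440) .out))) .out)) .out)) .out)))) .out) .out))) (.na 116 17 .ne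
  (.na 182 18 (.nx 181 2097153 (.nr 180 1048577 (.nr 117 11 .s1 (.nx 121 324 (.nx 119 189 (.nr 118
  175 (.lg 0 false 1 31 31 11 0 2520) (.l1 .sk)) (.nx 120 190 (.l1 .sk) (.l1 (.ls 89 37 4054))))
  (.nr 179 623489 (.nr 174 262145 (.nx 129 20644 (.lg 0 false 8 97 101 16 0 5040) (.nr 173 155873
  (.nr 168 131073 (.nr 149 55110 (.nx 143 660563 (.nr 134 751 (.lg 0 true 5 79 79 16 0 2520) (.nx
  142 416129 (.lg 2 true 8 83 83 16 52363 5040) .out)) (.nr 148 129 (.lg 0 true 5 73 73 16 0 2520)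
  .out)) (.nx 167 330282 (.nx 162 208065 (.lg 0 true 13 101 109 16 0 720720) (.nr 166 77937 (.lg 0
  true 4 101 101 16 0 5040) .out)) .out)) (.nx 172 82572 (.lg 0 true 4 97 101 16 0 5040) .out))
  .out)) (.nx 178 2049 (.lg 0 false 4 89 89 16 0 5040) .out)) .out))) .out) .out) (.nx 232 2097153
  (.nr 231 1048577 (.nr 183 12 .s1 (.nx 187 324 (.nx 185 189 (.nr 184 185 (.lg 0 false 1 37 37 13 0
  55440) (.l1 .sk)) (.nx 186 190 (.l1 .sk) (.l1 (.ls 89 47 3829)))) (.nr 230 623489 (.nr 223 185365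
  (.nx 200 41286 (.lg 0 false 13 97 103 29 0 720720) (.nr 222 155873 (.nx 216 416129 (.nr 205 2200
  (.lg 0 true 5 83 83 19 0 5040) (.nx 210 82572 (.lg 1 false 5 97 101 19 67514 55440) (.nr 215
  131073 (.lg 2 false 5 97 103 19 28393 55440) .out))) (.nr 221 257 (.lg 0 true 5 79 79 19 0 5040)
  .out)) .out)) (.nx 229 10323 (.nr 225 262145 (.lg 0 false 2 97 97 13 0 55440) (.nx 228 2049 (.lg
  0 false 3 83 89 19 0 1008) .out)) .out)) .out))) .out) .out)))) (.na 323 30 (.na 277 22 (.nx 276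
  2097153 (.nr 275 1048577 (.nr 234 14 .s1 (.nx 238 324 (.nx 236 189 (.nr 235 214 (.lg 0 true 1 29
  29 11 0 504) (.l1 .sk)) (.nx 237 190 (.l1 .sk) (.l1 (.ls 83 37 3628)))) (.nr 274 623489 (.nr 269
  262145 (.nx 249 41286 (.lg 0 false 11 89 101 16 0 27720) (.nr 268 155873 (.nx 262 416129 (.nr 253
  2200 (.lg 0 true 4 83 83 16 0 1008) (.nx 257 82572 (.lg 1 false 4 97 101 16 67514 5040) (.nr 261
  131073 (.lg 2 false 4 101 101 16 28393 5040) .out))) (.nr 267 257 (.lg 0 true 5 73 73 16 0 2520)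
  .out)) .out)) (.nx 273 2049 (.lg 0 false 4 83 83 16 0 1008) .out)) .out))) .out) .out) (.na 322
  23 (.nx 321 2097153 (.nr 320 1048577 (.nr 278 18 .s1 (.nx 314 416129 (.nx 280 189 (.nr 279 224
  (.lg 0 true 1 31 31 9 0 55440) (.l1 .sk)) (.nx 281 190 (.l1 .sk) (.nx 282 324 (.l1 (.ls 89 43
  3133)) (.nr 313 623489 (.nr 307 262145 (.nx 290 41286 (.nr 287 185365 (.lg 0 false 5 97 101 19 0
  55440) (.nx 289 10323 (.lg 0 true 2 89 89 13 0 55440) .out)) (.nr 306 155873 (.nr 295 2200 (.lg 0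
  true 5 83 83 19 0 55440) (.nx 300 82572 (.lg 1 false 5 89 97 19 67514 55440) (.nr 305 131073 (.lg
  2 false 5 97 101 19 28393 55440) .out))) .out)) (.nx 312 2049 (.lg 0 false 5 83 83 19 0 55440)
  .out)) .out)))) (.nr 319 257 (.lg 0 true 5 73 73 19 0 55440) .out))) .out) .out) .ne)) (.na 354
  31 (.nx 353 2097153 (.nr 352 1048577 (.nr 324 27 .s1 (.nx 327 190 (.nx 326 189 (.nr 325 302 (.lg
  0 false 1 23 23 19 0 5040) (.l1 .sk)) (.l1 .sk)) (.nx 335 20644 (.nx 328 324 (.l1 (.ls 83 47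
  2298)) (.nr 334 524289 (.nr 332 370729 (.lg 0 false 4 97 97 23 0 5040) (.nx 333 1292 (.lg 0 true
  1 79 79 19 0 5040) .out)) .out)) (.nr 351 131073 (.nr 343 885 (.nx 338 524289 (.lg 0 true 3 73 73
  23 0 5040) (.nr 342 129 (.lg 0 true 4 67 67 23 0 5040) .out)) (.nx 350 330282 (.nx 346 52017 (.lg
  1 false 3 89 97 23 113567 5040) (.nr 349 92683 (.lg 2 false 3 89 89 23 35268 5040) .out)) .out))
  .out)))) .out) .out) (.na 382 32 (.nx 381 2097153 (.nr 380 1048577 (.nr 355 28 .s1 (.nx 359 324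
  (.nx 357 189 (.nr 356 312 (.lg 0 false 1 23 23 13 0 2520) (.l1 .sk)) (.nx 358 190 (.l1 .sk) (.l1
  (.ls 79 29 2224)))) (.nr 379 524289 (.nx 368 52017 (.nr 363 185365 (.lg 0 false 4 97 101 16 0
  5040) (.nx 367 13005 (.lg 0 false 4 97 97 16 0 5040) .out)) (.nr 378 92683 (.nr 373 909 (.lg 0
  true 5 79 79 16 0 2520) (.nx 377 330282 (.lg 2 false 4 89 97 16 34337 5040) .out)) .out)) .out)))
  .out) .out) .ne)))) (.na 537 46 (.na 471 38 (.na 416 34 (.nx 415 2097153 (.nr 414 881745 (.nr 384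
  31 .s1 (.nx 387 190 (.nx 386 189 (.nr 385 331 (.l1 (.ls 29 37 1085)) (.l1 .sk)) (.l1 .sk)) (.nx
  388 324 (.l1 (.ls 79 37 2090)) (.nr 413 623489 (.nr 408 155873 (.nx 403 208065 (.nr 398 65537
  (.nx 393 131073 (.lg 0 false 5 83 83 19 0 27720) (.nr 397 27556 (.lg 0 true 4 89 89 17 0 55440)
  .out)) (.nx 402 32769 (.lg 0 false 4 89 89 17 0 55440) .out)) (.nr 407 257 (.lg 0 true 4 71 71 17
  0 11088) .out)) (.nx 412 13005 (.lg 0 false 4 97 97 17 0 55440) .out)) .out)))) .out) .out) (.na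
  444 35 (.nx 443 2097153 (.nr 442 881745 (.nr 417 32 .s1 (.nx 430 26009 (.nx 419 189 (.nr 418 341
  (.lg 0 true 1 29 29 13 0 5040) (.l1 .sk)) (.nx 420 190 (.l1 .sk) (.nx 421 324 (.l1 (.ls 79 41
  2028)) (.nr 429 623489 (.nx 426 13005 (.lg 0 false 5 89 97 13 0 5040) (.nr 428 155873 (.lg 0 true
  2 89 89 13 0 5040) .out)) .out)))) (.nr 441 77937 (.nr 435 341 (.lg 0 true 5 73 73 13 0 5040)
  (.nx 440 208065 (.lg 2 false 5 89 97 13 57661 5040) .out)) .out))) .out) .out) (.nx 470 2097153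
  (.nr 469 881745 (.nr 445 33 .s1 (.nx 459 26009 (.nx 447 189 (.nr 446 370 (.lg 0 false 1 19 19 16
  0 2520) (.l1 .sk)) (.nx 448 190 (.l1 .sk) (.nx 449 324 (.l1 (.ls 73 37 1970)) (.nr 458 623489
  (.nr 453 155873 (.lg 0 false 4 89 89 17 0 5040) (.nx 457 13005 (.lg 0 false 4 89 89 17 0 5040)
  .out)) .out)))) (.nr 468 77937 (.nr 463 370 (.lg 0 true 4 71 71 17 0 5040) (.nx 467 208065 (.lg 2
  false 4 89 89 17 53651 5040) .out)) .out))) .out) .out))) (.na 494 42 (.nx 493 2097153 (.nr 492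
  881745 (.nr 472 36 .s1 (.nx 476 324 (.nx 474 189 (.nr 473 409 (.lg 0 true 1 29 29 13 0 5040) (.l1
  .sk)) (.nx 475 190 (.l1 .sk) (.l1 (.ls 83 41 1815)))) (.nr 491 623489 (.nx 481 26009 (.lg 0 false
  5 97 101 17 0 5040) (.nr 490 77937 (.nr 486 409 (.lg 0 true 5 73 73 17 0 5040) (.nx 489 208065
  (.lg 2 false 3 97 97 13 53651 5040) .out)) .out)) .out))) .out) .out) (.na 514 45 (.nx 513
  2097153 (.nr 512 881745 (.nr 495 40 .s1 (.nx 502 26009 (.nx 496 324 (.l1 (.ls 71 47 2502)) (.nr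
  501 623489 (.lg 0 false 5 83 83 23 0 5040) .out)) (.nr 511 77937 (.nr 507 438 (.lg 0 true 5 61 61
  23 0 5040) (.nx 510 208065 (.lg 2 true 3 79 79 23 53651 1008) .out)) .out))) .out) .out) (.nx 536
  2097153 (.nr 535 881745 (.nr 515 43 .s1 (.nx 519 324 (.nx 517 189 (.nr 516 448 (.l1 (.ls 31 31
  796)) (.l1 .sk)) (.nx 518 190 (.l1 .sk) (.l1 (.ls 79 37 1533)))) (.nr 534 623489 (.nx 523 13005
  (.lg 0 false 4 89 97 23 0 5040) (.nr 533 155873 (.nx 524 26009 (.lg 0 false 1 89 89 17 0 2520)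
  (.nr 532 77937 (.nr 528 1254 (.nx 525 262145 (.lg 0 true 1 73 73 17 0 2520) (.nr 527 217 (.lg 0
  true 2 73 73 19 0 5040) .out)) (.nx 531 208065 (.nx 529 52017 (.lg 1 false 1 89 89 17 53651 2520)
  (.nr 530 55110 (.lg 2 false 1 89 89 17 18988 2520) .out)) .out)) .out)) .out)) .out))) .out)
  .out)))) (.na 577 51 (.na 559 49 (.nx 558 2097153 (.nr 557 881745 (.nr 538 44 .s1 (.nx 540 189
  (.nr 539 477 (.lg 0 false 1 23 23 13 0 1008) (.l1 .sk)) (.nx 541 190 (.l1 .sk) (.nx 542 324 (.l1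
  (.ls 79 41 1500)) (.nr 556 741457 (.nx 547 26009 (.lg 0 false 5 97 101 19 0 5040) (.nr 555 65537
  (.nr 552 477 (.lg 0 true 5 73 73 19 0 5040) (.nx 554 208065 (.lg 2 true 2 89 89 13 45136 1008)
  .out)) .out)) .out))))) .out) .out) (.na 560 50 (.lg 0 false 1 0 0 16 0 24) (.nx 576 2097153 (.nr
  575 881745 (.nr 561 49 .s1 (.nx 562 324 (.l1 (.ls 79 41 2102)) (.nr 574 741457 (.nx 566 26009
  (.lg 0 false 4 97 97 23 0 5040) (.nr 573 65537 (.nr 570 497 (.lg 0 true 4 71 71 23 0 5040) (.nx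
  572 208065 (.lg 2 true 2 89 89 19 45136 5040) .out)) .out)) .out))) .out) .out))) (.na 595 54
  (.nx 594 2097153 (.nr 593 881745 (.nr 578 50 .s1 (.nx 579 324 (.l1 (.ls 73 41 2061)) (.nr 592
  741457 (.nx 583 26009 (.lg 0 false 4 97 97 16 0 1008) (.nr 591 65537 (.nr 588 526 (.lg 0 true 5
  71 71 16 0 2520) (.nx 590 208065 (.lg 2 true 2 89 89 16 45136 1008) .out)) .out)) .out))) .out)
  .out) (.na 617 62 (.nx 616 2097153 (.nr 615 881745 (.nr 596 53 .s1 (.nx 600 324 (.nx 598 189 (.nr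
  597 604 (.l1 (.ls 29 37 664)) (.l1 .sk)) (.nx 599 190 (.l1 .sk) (.l1 (.ls 79 41 1278)))) (.nr 614
  741457 (.nx 605 16385 (.lg 0 false 5 83 89 29 0 5040) (.nr 613 155873 (.nx 607 32769 (.lg 0 false
  2 89 89 23 0 5040) (.nr 612 46342 (.nr 610 604 (.lg 0 true 3 73 73 23 0 1008) (.nx 611 208065
  (.lg 2 true 1 83 83 19 32554 1008) .out)) .out)) .out)) .out))) .out) .out) (.nx 635 2097153 (.nr
  634 881745 (.nr 618 61 .s1 (.nx 619 324 (.l1 (.ls 79 41 1696)) (.nr 633 741457 (.nx 624 26009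
  (.lg 0 false 5 89 97 19 0 5040) (.nr 632 65537 (.nr 629 614 (.lg 0 true 5 73 73 19 0 5040) (.nx
  631 208065 (.lg 2 false 2 83 83 17 45136 1008) .out)) .out)) .out))) .out) .out)))))) (.na 790 98
  (.na 723 81 (.na 674 70 (.na 655 64 (.nx 654 2097153 (.nr 653 881745 (.nr 637 62 .s1 (.nx 639 189
  (.nr 638 623 (.l1 (.ls 29 31 569)) (.l1 .sk)) (.nx 640 190 (.l1 .sk) (.nx 641 324 (.l1 (.ls 73 31
  1096)) (.nr 652 741457 (.nx 645 26009 (.lg 0 false 4 89 97 23 0 5040) (.nr 651 65537 (.nr 649 623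
  (.lg 0 true 4 71 71 23 0 1008) (.nx 650 208065 (.lg 2 true 1 89 89 17 45136 2520) .out)) .out))
  .out))))) .out) .out) (.na 656 66 .ne (.nx 673 2097153 (.nr 672 2097153 (.nr 657 65 .s1 (.nx 664
  20644 (.nx 658 324 (.l1 (.ls 83 43 1593)) (.nr 663 1048577 (.lg 0 false 5 89 89 31 0 55440)
  .out)) (.nr 671 65537 (.nr 668 513 (.lg 0 true 4 71 71 29 0 11088) (.nx 670 131073 (.lg 2 true 2
  83 83 29 56866 11088) .out)) .out))) .out) .out))) (.na 690 74 (.nx 689 2097153 (.nr 688 2097153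
  (.nr 675 69 .s1 (.nx 676 324 (.l1 (.ls 79 43 1502)) (.nr 687 1048577 (.nx 680 20644 (.lg 0 false
  4 89 89 29 0 5040) (.nr 686 65537 (.nr 683 513 (.lg 0 true 3 67 67 29 0 5040) (.nx 685 131073
  (.lg 2 true 2 83 83 23 56866 5040) .out)) .out)) .out))) .out) .out) (.na 707 77 (.nx 706 2097153
  (.nr 705 2097153 (.nr 691 73 .s1 (.nx 692 324 (.l1 (.ls 83 31 1421)) (.nr 704 1048577 (.nx 697
  20644 (.lg 0 false 5 89 97 23 0 5040) (.nr 703 65537 (.nr 700 513 (.lg 0 true 3 71 71 19 0 1008)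
  (.nx 702 131073 (.lg 2 false 2 83 83 19 56866 1008) .out)) .out)) .out))) .out) .out) (.nx 722
  2097153 (.nr 721 2097153 (.nr 708 76 .s1 (.nx 714 20644 (.nx 709 324 (.l1 (.ls 79 31 1366)) (.nr
  713 1048577 (.lg 0 false 4 89 89 19 0 55440) .out)) (.nr 720 65537 (.nr 717 513 (.lg 0 true 3 67
  67 19 0 5544) (.nx 719 131073 (.lg 2 true 2 83 83 17 56866 55440) .out)) .out))) .out) .out))))
  (.na 758 91 (.na 724 82 (.lg 0 false 1 0 0 16 0 24) (.na 741 90 (.nx 740 2097153 (.nr 739 2097153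
  (.nr 725 81 .s1 (.nx 732 20644 (.nx 726 324 (.l1 (.ls 83 37 1283)) (.nr 731 1048577 (.lg 0 false
  5 89 97 23 0 5040) .out)) (.nr 738 65537 (.nr 735 513 (.lg 0 true 3 71 71 19 0 1008) (.nx 737
  131073 (.lg 2 true 2 83 83 19 56866 1008) .out)) .out))) .out) .out) (.nx 757 2097153 (.nr 756
  2097153 (.nr 742 89 .s1 (.nx 744 189 (.nr 743 886 (.l1 (.ls 37 37 399)) (.l1 .sk)) (.nx 745 190
  (.l1 .sk) (.nx 746 324 (.l1 (.ls 83 41 768)) (.nr 755 1048577 (.nx 748 20644 (.lg 0 false 2 97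
  101 31 0 5040) (.nr 754 65537 (.nr 752 32769 (.nr 750 513 (.lg 0 true 2 73 73 31 0 5040) (.nx 751
  131073 (.lg 2 false 1 83 83 29 28515 5040) .out)) (.nx 753 32769 (.lg 0 false 1 79 79 29 0 5040)
  .out)) .out)) .out))))) .out) .out))) (.na 759 93 .ne (.na 774 95 (.nx 773 2097153 (.nr 772
  2097153 (.nr 760 92 .s1 (.nx 766 20644 (.nx 761 324 (.l1 (.ls 79 29 1131)) (.nr 765 1048577 (.lg
  0 false 4 89 89 19 0 5040) .out)) (.nr 771 65537 (.nr 769 513 (.lg 0 true 3 67 67 17 0 504) (.nx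
  770 131073 (.lg 2 true 1 83 83 16 56866 2520) .out)) .out))) .out) .out) (.nx 789 2097153 (.nr
  788 2097153 (.nr 775 95 .s1 (.nx 781 20644 (.nx 776 324 (.l1 (.ls 83 31 1108)) (.nr 780 1048577
  (.lg 0 false 4 89 89 17 0 5040) .out)) (.nr 787 65537 (.nr 785 32769 (.nx 782 131073 (.lg 0 false
  1 89 89 17 0 2520) (.nr 784 513 (.lg 0 true 2 73 73 17 0 5040) .out)) (.nx 786 32769 (.lg 0 false
  1 73 73 17 0 2520) .out)) .out))) .out) .out))))) (.na 860 114 (.na 822 109 (.na 791 99 (.lg 0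
  false 1 0 0 16 0 24) (.na 809 102 (.nx 808 2097153 (.nr 807 2097153 (.nr 792 99 .s1 (.nx 795 190
  (.nx 794 189 (.nr 793 993 (.l1 (.ls 31 29 363)) (.l1 .sk)) (.l1 .sk)) (.nx 796 324 (.l1 (.ls 83
  31 698)) (.nr 806 1048577 (.nx 800 20644 (.lg 0 false 4 89 101 29 0 55440) (.nr 805 65537 (.nr
  803 32769 (.nr 801 513 (.lg 0 true 1 71 71 23 0 5544) (.nx 802 131073 (.lg 2 false 1 79 79 23
  28515 5544) .out)) (.nx 804 32769 (.lg 0 false 1 73 73 23 0 5544) .out)) .out)) .out)))) .out)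
  .out) (.nx 821 2097153 (.nr 820 2097153 (.nr 810 102 .s1 (.nx 815 20644 (.nx 811 324 (.l1 (.ls 79
  43 1032)) (.nr 814 1048577 (.lg 0 false 3 89 89 31 0 5040) .out)) (.nr 819 65537 (.nr 817 513
  (.lg 0 true 2 67 67 29 0 1008) (.nx 818 131073 (.lg 2 true 1 83 83 29 56866 1008) .out)) .out)))
  .out) .out))) (.na 835 110 (.nx 834 2097153 (.nr 833 2097153 (.nr 823 109 .s1 (.nx 829 20644 (.nx
  824 324 (.l1 (.ls 71 23 966)) (.nr 828 1048577 (.lg 0 false 4 79 79 17 0 1008) .out)) (.nr 832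
  65537 (.nr 830 513 (.lg 0 false 1 67 67 16 0 2520) (.nx 831 131073 (.lg 2 true 1 73 73 16 56866
  504) .out)) .out))) .out) .out) (.na 847 111 (.nx 846 2097153 (.nr 845 2097153 (.nr 836 110 .s1
  (.nx 840 20644 (.nx 837 324 (.l1 (.ls 83 41 957)) (.nr 839 1048577 (.lg 0 false 2 97 97 31 0
  55440) .out)) (.nr 844 65537 (.nr 842 513 (.lg 0 true 2 71 71 31 0 55440) (.nx 843 131073 (.lg 2
  true 1 89 89 29 56866 55440) .out)) .out))) .out) .out) (.nx 859 2097153 (.nr 858 2097153 (.nr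
  848 111 .s1 (.nx 849 324 (.l1 (.ls 79 29 948)) (.nr 857 1048577 (.nx 853 20644 (.lg 0 false 4 83
  83 19 0 1008) (.nr 856 65537 (.nr 854 513 (.lg 0 false 1 73 73 17 0 2520) (.nx 855 131073 (.lg 2
  true 1 83 83 17 56866 2520) .out)) .out)) .out))) .out) .out)))) (.na 899 126 (.na 872 115 (.nx
  871 2097153 (.nr 870 2097153 (.nr 861 114 .s1 (.nx 862 324 (.l1 (.ls 79 41 923)) (.nr 869 1048577
  (.nx 865 20644 (.lg 0 false 3 89 89 31 0 1008) (.nr 868 65537 (.nr 866 513 (.lg 0 false 1 73 73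
  29 0 1008) (.nx 867 131073 (.lg 2 true 1 83 83 29 56866 1008) .out)) .out)) .out))) .out) .out)
  (.na 886 125 (.nx 885 2097153 (.nr 884 2097153 (.nr 873 115 .s1 (.nx 879 20644 (.nx 874 324 (.l1
  (.ls 83 31 915)) (.nr 878 1048577 (.lg 0 false 4 89 97 19 0 5040) .out)) (.nr 883 65537 (.nr 881
  513 (.lg 0 true 2 73 73 19 0 5040) (.nx 882 131073 (.lg 2 true 1 83 83 17 56866 2520) .out))
  .out))) .out) .out) (.nx 898 2097153 (.nr 897 2097153 (.nr 887 125 .s1 (.nx 888 324 (.l1 (.ls 71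
  29 842)) (.nr 896 1048577 (.nx 892 32769 (.lg 0 false 4 83 83 19 0 5040) (.nr 895 32769 (.nr 893
  513 (.lg 0 false 1 67 67 16 0 2520) (.nx 894 131073 (.lg 2 true 1 67 67 16 24146 2520) .out))
  .out)) .out))) .out) .out))) (.na 912 131 (.na 911 128 (.nx 910 2097153 (.nr 909 2097153 (.nr 900
  126 .s1 (.nx 904 20644 (.nx 901 324 (.l1 (.ls 79 41 836)) (.nr 903 1048577 (.lg 0 false 2 89 89
  31 0 5040) .out)) (.nr 908 65537 (.nr 906 513 (.lg 0 true 2 67 67 31 0 1008) (.nx 907 131073 (.lg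
  2 true 1 79 79 29 56866 1008) .out)) .out))) .out) .out) .ne) (.na 913 138 (.lg 0 false 1 0 0 16
  0 24) (.nx 926 1048577 (.nr 925 1482912 (.nr 914 138 .s1 (.nx 923 131073 (.nx 916 189 (.nr 915
  1383 (.l1 (.ls 19 37 261)) (.l1 .sk)) (.nx 917 190 (.l1 .sk) (.nr 919 65537 (.lg 0 false 2 83 83
  31 0 5040) (.nx 922 16385 (.lg 0 false 3 83 83 31 0 1008) .out)))) (.nr 924 1025 (.lg 0 false 1
  71 71 19 0 1008) .out))) .out) .out)))))))

def T128_1 : Ph :=
  (.na 400 40 (.na 234 24 (.na 147 17 (.na 83 15 (.na 45 12 (.nx 44 1321124 (.nr 43 623489 (.nr 1 6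
  .s1 (.nx 35 330282 (.nx 3 71 (.nr 2 72 (.lg 0 false 1 19 19 11 0 51120) (.l1 .sk)) (.nx 4 72 (.l1
  .sk) (.nr 27 77937 (.nx 11 9557 (.lg 0 false 7 89 89 13 0 357840) (.nr 26 65537 (.nr 18 766 (.lg
  0 true 7 83 83 13 0 357840) (.nx 25 165142 (.nx 21 20644 (.lg 1 false 3 89 89 13 17304 51120)
  (.nr 24 55110 (.lg 2 false 3 97 97 13 7654 51120) .out)) .out)) .out)) (.nx 34 814 (.lg 0 false 7
  83 89 13 0 357840) .out)))) (.nr 42 65 (.lg 0 true 7 67 67 13 0 357840) .out))) .out) .out) (.nx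
  82 1321124 (.nr 81 623489 (.nr 46 9 .s1 (.nx 48 71 (.nr 47 90 (.lg 0 true 1 23 23 13 0 51120)
  (.l1 .sk)) (.nx 49 72 (.l1 .sk) (.nr 78 220437 (.nr 75 92683 (.nx 69 330282 (.nx 56 9557 (.lg 0
  false 7 83 89 23 0 357840) (.nr 68 65537 (.nr 61 374 (.lg 0 true 5 67 73 19 0 51120) (.nx 67
  165142 (.nr 62 1569 (.lg 2 false 1 73 73 13 15676 10224) (.nx 64 26009 (.lg 1 false 2 89 97 13
  17304 51120) (.nr 66 46342 (.lg 2 false 2 89 89 13 4498 51120) .out))) .out)) .out)) (.nr 74 65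
  (.lg 0 true 5 67 67 19 0 51120) .out)) (.nx 77 814 (.lg 0 false 2 83 83 13 0 10224) .out)) (.nx
  80 324 (.lg 0 false 2 79 79 13 0 10224) .out))))) .out) .out)) (.na 115 16 (.nx 114 1321124 (.nr
  113 623489 (.nr 84 13 .s1 (.nx 86 71 (.nr 85 96 (.l1 (.ls 23 29 339)) (.l1 .sk)) (.nx 87 72 (.l1
  .sk) (.nr 108 92683 (.nx 103 330282 (.nx 91 9557 (.lg 0 false 4 89 89 17 0 51120) (.nr 102 65537
  (.nr 95 374 (.lg 0 true 4 67 73 17 0 51120) (.nx 101 165142 (.nr 96 1569 (.lg 2 false 1 73 73 16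
  15676 25560) (.nx 98 26009 (.lg 1 false 2 89 97 16 17304 51120) (.nr 100 46342 (.lg 2 false 2 89
  89 16 4498 51120) .out))) .out)) .out)) (.nr 107 65 (.lg 0 true 4 67 67 17 0 51120) .out)) (.nx
  112 814 (.lg 0 false 4 83 89 17 0 51120) .out))))) .out) .out) (.nx 146 1321124 (.nr 145 1048577
  (.nr 116 14 .s1 (.nx 119 72 (.nx 118 71 (.nr 117 102 (.l1 (.ls 23 29 318)) (.l1 .sk)) (.l1 .sk))
  (.nr 141 220437 (.nx 128 8193 (.nr 126 131073 (.lg 0 false 7 89 89 19 0 357840) (.nx 127 814 (.lg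
  0 false 1 79 79 11 0 10224) .out)) (.nr 140 65537 (.nx 136 165142 (.nr 131 1569 (.lg 0 true 3 79
  79 13 0 10224) (.nx 133 26009 (.lg 1 false 2 89 97 13 20185 51120) (.nr 135 46342 (.lg 2 false 2
  89 89 13 4498 51120) .out))) (.nr 139 183 (.lg 0 true 3 73 73 13 0 10224) .out)) .out)) (.nx 144
  324 (.lg 0 false 3 79 79 13 0 10224) .out)))) .out) .out))) (.na 177 19 (.na 148 18 .ne (.nx 176
  1321124 (.nr 175 1048577 (.nr 149 16 .s1 (.nx 152 72 (.nx 151 71 (.nr 150 114 (.l1 (.ls 19 31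
  283)) (.l1 .sk)) (.l1 .sk)) (.nx 155 324 (.nx 153 205 (.l1 (.ls 83 43 2049)) (.nr 154 623489 (.l1
  (.ls 79 43 3500)) .out)) (.nr 174 220437 (.nr 172 131073 (.nx 160 10323 (.lg 0 false 5 83 89 19 0
  51120) (.nr 171 55110 (.nr 167 498 (.lg 0 true 7 79 79 19 0 71568) (.nx 170 165142 (.lg 2 false 3
  89 89 13 13474 10224) .out)) .out)) (.nx 173 814 (.lg 0 true 1 73 73 13 0 10224) .out)) .out))))
  .out) .out)) (.na 207 20 (.nx 206 1321124 (.nr 205 1048577 (.nr 178 18 .s1 (.nx 182 205 (.nx 180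
  71 (.nr 179 120 (.l1 (.ls 17 17 268)) (.l1 .sk)) (.nx 181 72 (.l1 .sk) (.l1 (.ls 89 31 1942))))
  (.nr 204 623489 (.nx 191 10323 (.nx 183 324 (.l1 (.ls 83 37 3316)) (.nr 190 220437 (.lg 0 false 7
  97 97 16 0 357840) .out)) (.nr 203 55110 (.nr 198 498 (.lg 0 true 7 79 79 16 0 35784) (.nx 202
  165142 (.lg 2 false 4 89 89 16 13474 51120) .out)) .out)) .out))) .out) .out) (.na 233 23 (.nx
  232 1321124 (.nr 231 1048577 (.nr 208 19 .s1 (.nx 214 324 (.nx 212 205 (.nx 210 71 (.nr 209 138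
  (.l1 (.ls 23 29 255)) (.l1 .sk)) (.nx 211 72 (.l1 .sk) (.l1 (.ls 89 41 1845)))) (.nr 213 623489
  (.l1 (.ls 89 43 3150)) .out)) (.nr 230 220437 (.nr 228 131073 (.nx 217 8193 (.lg 0 false 3 89 89
  19 0 51120) (.nr 227 65537 (.nx 223 165142 (.nr 220 1360 (.lg 0 true 3 79 79 19 0 51120) (.nx 221
  20644 (.lg 1 true 1 89 89 13 20185 51120) (.nr 222 38969 (.lg 2 true 1 89 89 13 4767 51120)
  .out))) (.nr 226 183 (.lg 0 true 3 73 73 19 0 51120) .out)) .out)) (.nx 229 814 (.lg 0 false 1 73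
  73 13 0 51120) .out)) .out))) .out) .out) .ne)))) (.na 330 32 (.na 277 27 (.na 256 25 (.nx 255
  1321124 (.nr 254 1048577 (.nr 235 23 .s1 (.nx 240 205 (.nx 237 71 (.nr 236 150 (.l1 (.ls 29 29
  213)) (.l1 .sk)) (.nx 238 72 (.l1 .sk) (.nr 239 440873 (.l1 (.ls 89 41 1538)) (.lg 0 false 1 79
  79 19 0 10224)))) (.nr 253 185365 (.nx 242 6503 (.lg 0 false 2 97 97 23 0 51120) (.nr 252 92683
  (.nx 243 10323 (.lg 1 false 1 89 89 19 35954 51120) (.nr 251 55110 (.nx 248 165142 (.nr 244 513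
  (.lg 0 false 1 79 79 19 0 51120) (.nx 247 82572 (.nx 245 16385 (.lg 1 false 1 83 89 19 13474
  51120) (.nr 246 38969 (.lg 1 true 1 97 97 19 6006 51120) .out)) .out)) (.nr 250 183 (.lg 0 true 2
  79 79 23 0 10224) .out)) .out)) .out)) .out))) .out) .out) (.nx 276 1321124 (.nr 275 1048577 (.nr
  257 24 .s1 (.nx 261 205 (.nx 259 71 (.nr 258 162 (.l1 (.ls 17 19 204)) (.l1 .sk)) (.nx 260 72
  (.l1 .sk) (.l1 (.ls 83 31 1476)))) (.nr 274 185365 (.nx 265 10323 (.lg 0 false 4 89 89 16 0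
  51120) (.nr 273 55110 (.nr 269 513 (.lg 0 true 4 73 73 16 0 51120) (.nx 272 82572 (.lg 1 true 3
  83 83 16 13474 25560) .out)) .out)) .out))) .out) .out)) (.na 294 29 (.nx 293 1321124 (.nr 292
  1048577 (.nr 278 26 .s1 (.nx 279 205 (.l1 (.ls 79 31 1559)) (.nr 291 185365 (.nx 283 16385 (.lg 0
  false 4 89 89 16 0 51120) (.nr 290 38969 (.nr 287 513 (.lg 0 true 4 73 73 16 0 10224) (.nx 289
  82572 (.lg 1 true 2 79 79 16 6006 10224) .out)) .out)) .out))) .out) .out) (.na 310 30 (.nx 309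
  1321124 (.nr 308 1048577 (.nr 295 28 .s1 (.nx 301 16385 (.nx 296 205 (.l1 (.ls 83 23 1452)) (.nr
  300 185365 (.lg 0 false 4 97 97 16 0 51120) .out)) (.nr 307 38969 (.nr 305 513 (.lg 0 true 4 73
  73 16 0 10224) (.nx 306 82572 (.lg 1 false 1 89 89 13 6006 51120) .out)) .out))) .out) .out) (.nx
  329 1321124 (.nr 328 1048577 (.nr 311 29 .s1 (.nx 315 205 (.nx 313 71 (.nr 312 192 (.l1 (.ls 23
  31 171)) (.l1 .sk)) (.nx 314 72 (.l1 .sk) (.l1 (.ls 89 43 1231)))) (.nr 327 185365 (.nx 317 6503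
  (.lg 0 false 2 89 89 23 0 51120) (.nr 326 92683 (.nx 322 165142 (.nx 318 16385 (.lg 1 true 1 89
  89 19 35954 51120) (.nr 321 38969 (.nr 319 513 (.lg 0 false 1 73 73 19 0 51120) (.nx 320 82572
  (.lg 1 false 1 89 89 19 6006 51120) .out)) .out)) (.nr 325 183 (.lg 0 true 3 67 73 29 0 51120)
  .out)) .out)) .out))) .out) .out)))) (.na 350 36 (.na 349 33 (.nx 348 1321124 (.nr 347 1048577
  (.nr 331 31 .s1 (.nx 334 72 (.nx 333 71 (.nr 332 198 (.l1 (.ls 23 23 160)) (.l1 .sk)) (.l1 .sk))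
  (.nx 335 205 (.l1 (.ls 83 37 1154)) (.nr 346 370729 (.nx 338 6503 (.lg 0 false 3 89 89 19 0
  51120) (.nr 345 92683 (.nx 339 16385 (.lg 1 true 1 83 83 13 35954 10224) (.nr 344 38969 (.nr 342
  513 (.lg 0 true 3 79 79 19 0 10224) (.nx 343 82572 (.lg 1 false 1 89 89 13 6006 51120) .out))
  .out)) .out)) .out)))) .out) .out) .ne) (.na 367 37 (.nx 366 1321124 (.nr 365 370729 (.nr 351 36
  .s1 (.nx 362 82572 (.nr 353 1748 (.nx 352 812 (.l1 (.ls 41 59 18318)) (.lg 0 false 1 73 73 19 0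
  10224)) (.nx 355 72 (.nx 354 71 (.l1 .sk) (.l1 .sk)) (.nr 359 77937 (.nx 357 20644 (.lg 0 true 2
  83 83 23 0 51120) (.nr 358 13779 (.lg 2 false 1 61 61 19 1692 10224) .out)) (.nx 361 6503 (.lg 0
  false 2 97 97 23 0 51120) .out)))) (.nr 364 217 (.lg 0 true 2 73 73 23 0 10224) .out))) .out)
  .out) (.na 384 38 (.nx 383 1321124 (.nr 382 370729 (.nr 368 37 .s1 (.nx 375 8193 (.nx 370 71 (.nr
  369 228 (.l1 (.ls 16 16 139)) (.l1 .sk)) (.nx 371 72 (.l1 .sk) (.lg 0 false 4 83 83 16 0 10224)))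
  (.nr 381 55110 (.nr 378 217 (.lg 0 true 3 61 61 16 0 5112) (.nx 380 82572 (.lg 1 true 2 83 83 16
  16977 10224) .out)) .out))) .out) .out) (.nx 399 1321124 (.nr 398 370729 (.nr 385 38 .s1 (.nx 391
  8193 (.nx 387 71 (.nr 386 240 (.l1 (.ls 17 23 135)) (.l1 .sk)) (.nx 388 72 (.l1 .sk) (.lg 0 false
  3 89 89 13 0 10224))) (.nr 397 55110 (.nr 394 217 (.lg 0 true 3 61 61 13 0 10224) (.nx 396 82572
  (.lg 1 false 2 89 89 13 16977 51120) .out)) .out))) .out) .out)))))) (.na 520 60 (.na 450 48 (.na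
  434 45 (.na 417 43 (.nx 416 1321124 (.nr 415 370729 (.nr 401 40 .s1 (.nx 412 82572 (.nx 407 6503
  (.nx 403 71 (.nr 402 257 (.l1 (.ls 29 23 129)) (.l1 .sk)) (.nx 404 72 (.l1 .sk) (.lg 0 false 3 83
  89 29 0 51120))) (.nr 411 77937 (.nx 408 13005 (.lg 1 false 1 83 83 19 30238 51120) (.nr 410
  23172 (.nr 409 1881 (.lg 0 true 1 79 79 19 0 51120) (.lg 2 false 1 79 79 19 4505 51120)) .out))
  .out)) (.nr 414 217 (.lg 0 true 2 67 73 23 0 51120) .out))) .out) .out) (.nx 433 1321124 (.nr 432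
  370729 (.nr 418 43 .s1 (.nx 425 8193 (.nx 420 71 (.nr 419 269 (.l1 (.ls 16 16 120)) (.l1 .sk))
  (.nx 421 72 (.l1 .sk) (.lg 0 false 4 83 83 16 0 10224))) (.nr 431 55110 (.nr 428 217 (.lg 0 true
  3 61 61 16 0 5112) (.nx 430 82572 (.lg 1 true 2 83 83 16 16977 10224) .out)) .out))) .out) .out))
  (.na 449 46 (.nx 448 1321124 (.nr 447 370729 (.nr 435 45 .s1 (.nx 442 8193 (.nx 437 71 (.nr 436
  275 (.l1 (.ls 23 19 115)) (.l1 .sk)) (.nx 438 72 (.l1 .sk) (.lg 0 false 4 83 89 19 0 51120)))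
  (.nr 446 55110 (.nr 444 217 (.lg 0 true 2 67 67 19 0 51120) (.nx 445 82572 (.lg 1 false 1 89 89
  17 16977 25560) .out)) .out))) .out) .out) .ne)) (.na 478 54 (.na 463 50 (.nx 462 1321124 (.nr
  461 311745 (.nr 451 48 .s1 (.nx 456 8193 (.nx 453 71 (.nr 452 299 (.l1 (.ls 29 23 108)) (.l1
  .sk)) (.nx 454 72 (.l1 .sk) (.lg 0 false 2 89 97 29 0 51120))) (.nr 460 46342 (.nr 458 217 (.lg 0
  true 2 67 67 29 0 10224) (.nx 459 82572 (.lg 1 true 1 97 97 23 14280 51120) .out)) .out))) .out)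
  .out) (.nx 477 1321124 (.nr 476 311745 (.nr 464 50 .s1 (.nx 470 10323 (.nx 466 71 (.nr 465 323
  (.l1 (.ls 17 23 103)) (.l1 .sk)) (.nx 467 72 (.l1 .sk) (.lg 0 false 3 83 83 19 0 51120))) (.nr
  475 23172 (.nr 473 323 (.lg 0 true 3 61 61 19 0 51120) (.nx 474 82572 (.lg 2 true 1 73 73 13 9076
  51120) .out)) .out))) .out) .out)) (.na 492 57 (.nx 491 1321124 (.nr 490 311745 (.nr 479 54 .s1
  (.nx 484 10323 (.nx 481 71 (.nr 480 341 (.l1 (.ls 16 23 96)) (.l1 .sk)) (.nx 482 72 (.l1 .sk)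
  (.lg 0 false 2 79 79 19 0 10224))) (.nr 489 23172 (.nr 487 341 (.lg 0 true 3 59 59 23 0 10224)
  (.nx 488 82572 (.lg 2 true 1 73 73 19 8597 51120) .out)) .out))) .out) .out) (.na 505 58 (.nx 504
  1321124 (.nr 503 311745 (.nr 493 57 .s1 (.nx 496 72 (.nx 495 71 (.nr 494 347 (.l1 (.ls 17 17 91))
  (.l1 .sk)) (.l1 .sk)) (.nx 498 8193 (.lg 0 false 2 89 89 17 0 10224) (.nr 502 46342 (.nr 500 217
  (.lg 0 true 2 67 67 17 0 10224) (.nx 501 82572 (.lg 1 false 1 89 89 16 14280 51120) .out))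
  .out)))) .out) .out) (.nx 519 1321124 (.nr 518 311745 (.nr 506 58 .s1 (.nx 509 72 (.nx 508 71
  (.nr 507 359 (.l1 (.ls 17 19 89)) (.l1 .sk)) (.l1 .sk)) (.nx 512 10323 (.lg 0 false 3 83 83 19 0
  10224) (.nr 517 23172 (.nr 515 359 (.lg 0 true 3 61 61 19 0 10224) (.nx 516 82572 (.lg 2 true 1
  73 73 13 8166 51120) .out)) .out)))) .out) .out))))) (.na 573 73 (.na 546 65 (.na 532 64 (.nx 531
  1321124 (.nr 530 311745 (.nr 521 60 .s1 (.nx 525 8193 (.nx 523 71 (.nr 522 383 (.l1 (.ls 31 29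
  87)) (.l1 .sk)) (.nx 524 72 (.l1 .sk) (.lg 0 false 1 97 97 29 0 51120))) (.nr 529 46342 (.nr 527
  217 (.lg 0 true 2 67 73 31 0 51120) (.nx 528 82572 (.lg 1 true 1 89 89 29 14280 51120) .out))
  .out))) .out) .out) (.nx 545 1321124 (.nr 544 524289 (.nr 533 64 .s1 (.nx 535 71 (.nr 534 389
  (.l1 (.ls 19 19 81)) (.l1 .sk)) (.nx 536 72 (.l1 .sk) (.nx 539 10323 (.lg 0 false 3 83 89 23 0
  51120) (.nr 543 23172 (.nr 541 513 (.lg 0 true 2 67 67 19 0 10224) (.nx 542 82572 (.lg 2 false 1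
  67 67 17 5715 10224) .out)) .out))))) .out) .out)) (.na 547 71 .ne (.na 562 72 (.nx 561 1321124
  (.nr 560 524289 (.nr 548 71 .s1 (.nx 551 72 (.nx 550 71 (.nr 549 431 (.l1 (.ls 16 16 73)) (.l1
  .sk)) (.l1 .sk)) (.nx 554 8193 (.lg 0 true 3 73 73 16 0 51120) (.nr 559 8193 (.nr 557 513 (.lg 0
  true 3 53 53 16 0 5112) (.nx 558 82572 (.lg 2 true 1 53 53 16 5715 5112) .out)) .out)))) .out)
  .out) (.nx 572 1321124 (.nr 571 524289 (.nr 563 72 .s1 (.nx 565 71 (.nr 564 437 (.l1 (.ls 29 23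
  73)) (.l1 .sk)) (.nx 566 72 (.l1 .sk) (.nr 569 8193 (.nx 567 82572 (.lg 0 true 1 79 79 29 0
  10224) (.nr 568 513 (.lg 0 true 1 73 73 29 0 10224) .out)) (.nx 570 8193 (.lg 0 false 1 97 97 29
  0 51120) .out))))) .out) .out)))) (.na 603 75 (.na 588 74 (.nx 587 1321124 (.nr 586 524289 (.nr
  574 73 .s1 (.nx 580 8193 (.nx 576 71 (.nr 575 443 (.l1 (.ls 16 16 72)) (.l1 .sk)) (.nx 577 72
  (.l1 .sk) (.lg 0 false 3 79 79 16 0 5112))) (.nr 585 8193 (.nr 583 513 (.lg 0 true 3 59 59 16 0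
  5112) (.nx 584 82572 (.lg 2 true 1 53 53 16 5715 5112) .out)) .out))) .out) .out) (.nx 602
  1321124 (.nr 601 524289 (.nr 589 74 .s1 (.nx 595 8193 (.nx 591 71 (.nr 590 449 (.l1 (.ls 17 19
  71)) (.l1 .sk)) (.nx 592 72 (.l1 .sk) (.lg 0 false 3 83 83 19 0 10224))) (.nr 600 8193 (.nr 598
  513 (.lg 0 true 3 67 67 19 0 10224) (.nx 599 82572 (.lg 2 false 1 59 59 13 5715 10224) .out))
  .out))) .out) .out)) (.na 616 76 (.nx 615 1321124 (.nr 614 524289 (.nr 604 75 .s1 (.nx 607 72
  (.nx 606 71 (.nr 605 455 (.l1 (.ls 19 19 70)) (.l1 .sk)) (.l1 .sk)) (.nx 609 8193 (.lg 0 false 2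
  83 83 19 0 51120) (.nr 613 8193 (.nr 611 513 (.lg 0 true 2 67 67 19 0 51120) (.nx 612 82572 (.lg
  2 false 1 59 59 17 5715 25560) .out)) .out)))) .out) .out) (.na 629 79 (.nx 628 1321124 (.nr 627
  524289 (.nr 617 76 .s1 (.nx 619 71 (.nr 618 473 (.l1 (.ls 17 17 69)) (.l1 .sk)) (.nx 620 72 (.l1
  .sk) (.nx 622 8193 (.lg 0 false 2 89 89 23 0 51120) (.nr 626 8193 (.nr 624 513 (.lg 0 true 2 67
  73 23 0 10224) (.nx 625 82572 (.lg 2 false 1 61 61 17 5715 10224) .out)) .out))))) .out) .out)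
  (.nx 642 1321124 (.nr 641 524289 (.nr 630 79 .s1 (.nx 633 72 (.nx 632 71 (.nr 631 479 (.l1 (.ls
  16 16 66)) (.l1 .sk)) (.l1 .sk)) (.nx 636 8193 (.lg 0 false 3 73 73 16 0 5112) (.nr 640 8193 (.nr
  638 513 (.lg 0 true 2 59 59 16 0 10224) (.nx 639 82572 (.lg 2 true 1 47 47 16 5715 5112) .out))
  .out)))) .out) .out)))))))

def T128_2 : Ph :=
  (.na 817 16 (.na 634 8 (.na 466 3 (.na 1 2 .ne (.nx 465 3329023 (.nr 464 1763489 (.nx 452 2642247
  (.nx 418 1048577 (.nx 4 230 (.nx 3 229 (.nr 2 29 (.lg 0 false 1 41 41 5 0 48) (.l1 .sk)) (.l1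
  .sk)) (.nx 137 36931 (.nr 81 262145 (.lg 0 false 77 101 107 13 0 720720) (.nx 114 408 (.lg 0
  false 33 79 83 13 0 7920) (.nx 115 26007 .out (.nr 136 311745 (.lg 0 false 21 89 97 11 0 5040)
  .out)))) (.nr 417 311745 (.nr 181 3446 (.nr 170 941 (.lg 0 true 33 89 89 13 0 7920) (.lg 2 true
  11 89 97 9 127590 2640)) (.nx 416 832257 (.nx 281 82572 (.nx 214 52017 (.lg 1 false 33 97 103 13
  221501 55440) (.nr 280 262145 (.nx 247 65537 (.lg 1 false 33 101 107 13 132258 720720) (.lg 1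
  false 33 101 107 13 104974 720720)) .out)) (.nr 415 220437 (.nr 292 12637 (.lg 2 true 11 89 97 9
  27654 2640) (.nx 325 116773 (.lg 1 false 33 101 107 13 70073 720720) (.nx 392 262145 (.nx 358
  165142 (.lg 1 false 33 101 103 13 49550 720720) (.nr 391 155873 (.lg 1 true 33 97 103 13 24786
  55440) .out)) (.nr 414 92683 (.lg 2 false 22 101 103 11 9294 720720) .out)))) .out)) .out))
  .out))) (.nr 451 257 (.lg 0 true 33 83 83 13 0 7920) .out)) (.nr 463 9 (.lg 0 true 11 67 67 9 0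
  528) .out)) .out) .out)) (.na 467 7 .ne (.nx 633 21137969 (.nr 632 1246976 (.nx 470 230 (.nx 469
  229 (.nr 468 85 (.lg 0 true 1 31 31 9 0 2520) (.l1 .sk)) (.l1 .sk)) (.nx 499 52015 (.nr 483
  220437 (.lg 0 false 13 97 103 16 0 32760) (.nx 498 2582 (.nx 494 814 (.lg 0 false 11 79 83 16 0
  27720) (.nr 497 262145 (.lg 0 false 3 79 79 11 0 2520) .out)) .out)) (.nr 631 311745 (.nx 579
  832257 (.nr 510 1349 (.lg 0 true 11 83 89 16 0 27720) (.nx 537 121356 (.nx 524 82570 (.nr 523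
  262145 (.lg 1 false 13 89 101 16 132263 32760) .out) (.lg 1 false 13 89 101 16 99070 32760)) (.nr
  541 5950 (.lg 2 true 4 83 89 13 70641 1680) (.nx 567 262145 (.nx 554 178361 (.lg 1 false 13 89
  101 16 67407 32760) (.lg 1 true 13 89 101 16 45863 32760)) (.nr 578 155873 (.lg 2 false 11 89 101
  16 16016 27720) .out))))) (.nr 630 306 (.nx 590 2642247 (.lg 0 true 11 79 79 16 0 1848) (.nr 629
  47 (.lg 0 true 39 79 79 16 0 6552) .out)) .out)) .out))) .out) .out))) (.na 735 12 (.na 635 10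
  .ne (.nx 734 2642247 (.nr 733 1246976 (.nx 637 229 (.nr 636 128 (.lg 0 true 1 31 31 11 0 1680)
  (.l1 .sk)) (.nx 638 230 (.l1 .sk) (.nr 726 370729 (.nx 718 1321124 (.nx 653 32768 (.nr 649 220437
  (.lg 0 false 11 101 103 19 0 720720) (.nx 652 1627 (.lg 0 false 3 83 83 13 0 5040) .out)) (.nr
  717 311745 (.nr 673 9195 (.nr 664 1084 (.lg 0 true 11 83 89 19 0 18480) (.lg 2 true 9 83 97 17
  139547 5040)) (.nx 696 131072 (.nx 685 65536 (.nr 684 262145 (.lg 1 false 11 101 103 19 209952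
  720720) .out) (.lg 1 false 11 101 107 19 124820 720720)) (.nx 707 262145 (.lg 1 true 11 101 107
  19 62410 720720) (.nr 716 185365 (.lg 2 false 9 101 103 17 18564 720720) .out)))) .out)) (.nr 725
  65 (.lg 0 true 7 71 71 13 0 1680) .out)) (.nx 732 814 (.lg 0 false 6 83 83 13 0 720) .out))))
  .out) .out)) (.na 736 14 .ne (.nx 816 2642247 (.nr 815 1246976 (.nx 739 230 (.nx 738 229 (.nr 737
  171 (.lg 0 true 1 29 29 11 0 336) (.l1 .sk)) (.l1 .sk)) (.nx 807 660563 (.nx 762 41285 (.nx 742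
  408 (.nx 740 324 (.l1 (.ls 83 43 3722)) (.nr 741 1048577 (.l1 (.ls 79 43 4395)) .out)) (.nr 761
  741457 (.nr 755 220437 (.lg 0 false 13 89 101 19 0 65520) (.nx 760 1627 (.lg 0 false 5 79 79 13 0
  1680) .out)) .out)) (.nr 806 311745 (.nr 767 1242 (.lg 0 true 5 79 79 13 0 1680) (.nx 781 82570
  (.nr 780 262145 (.lg 1 false 13 89 101 19 166639 65520) .out) (.nr 783 4658 (.lg 2 true 2 79 79
  13 60898 336) (.nx 796 208065 (.lg 1 true 13 97 103 19 99070 65520) (.nr 805 220437 (.lg 2 false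
  9 89 101 19 27809 5040) .out))))) .out)) (.nr 814 65 (.lg 0 true 7 67 67 13 0 336) .out))) .out)
  .out)))) (.na 909 34 (.na 864 25 (.na 818 23 .ne (.nx 863 2642247 (.nr 862 1048577 (.nr 819 18
  .s1 (.nx 823 408 (.nx 821 229 (.nr 820 268 (.lg 0 true 1 23 23 11 0 120) (.l1 .sk)) (.nx 822 230
  (.l1 .sk) (.l1 (.ls 73 41 4940)))) (.nr 861 741457 (.nr 857 524289 (.nx 838 82572 (.nr 830 185365
  (.lg 0 false 7 89 97 16 0 840) (.nx 837 16385 (.lg 0 false 7 83 89 16 0 840) .out)) (.nr 856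
  131073 (.nr 848 1775 (.nx 842 660563 (.lg 0 true 4 79 79 16 0 48) (.nr 847 129 (.lg 0 true 5 61
  61 16 0 120) .out)) (.nx 855 524289 (.lg 2 false 7 83 89 16 41695 840) .out)) .out)) (.nx 860
  2582 (.lg 0 false 3 73 73 16 0 72) .out)) .out))) .out) .out)) (.na 908 32 (.nx 907 2642247 (.nr
  906 1048577 (.nr 865 20 .s1 (.nx 869 408 (.nx 867 229 (.nr 866 343 (.lg 0 false 1 23 23 16 0
  2520) (.l1 .sk)) (.nx 868 230 (.l1 .sk) (.l1 (.ls 73 37 4545)))) (.nr 905 741457 (.nx 899 660563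
  (.nx 889 82572 (.nr 880 185365 (.lg 0 false 11 83 97 17 0 27720) (.nx 888 16385 (.nr 884 524289
  (.lg 0 false 4 89 97 16 0 5040) (.nx 887 2582 (.lg 0 false 3 73 73 16 0 2520) .out)) .out)) (.nr
  898 131073 (.nr 893 3005 (.lg 0 true 4 79 79 16 0 240) (.nx 897 524289 (.lg 2 false 4 89 89 16
  41695 1680) .out)) .out)) (.nr 904 129 (.lg 0 true 5 61 61 16 0 120) .out)) .out))) .out) .out)
  .ne)) (.na 966 46 (.na 937 35 (.nx 936 2642247 (.nr 935 881745 (.nr 910 31 .s1 (.nx 929 330282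
  (.nx 924 65537 (.nx 912 229 (.nr 911 375 (.lg 0 true 1 23 23 13 0 48) (.l1 .sk)) (.nx 913 230
  (.l1 .sk) (.nx 914 408 (.l1 (.ls 79 43 3343)) (.nr 923 623489 (.nr 919 185365 (.lg 0 false 5 97
  101 13 0 5040) (.nx 922 16385 (.lg 0 false 3 97 97 13 0 144) .out)) .out)))) (.nr 928 77937 (.nr
  925 1053 (.lg 0 false 1 79 79 13 0 48) (.nx 927 262145 (.lg 2 true 2 89 89 13 31274 48) .out))
  .out)) (.nr 934 217 (.lg 0 true 5 71 71 13 0 240) .out))) .out) .out) (.nx 965 2642247 (.nr 964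
  881745 (.nr 938 32 .s1 (.nx 941 230 (.nx 940 229 (.nr 939 493 (.lg 0 false 1 29 29 16 0 840) (.l1
  .sk)) (.l1 .sk)) (.nx 951 41287 (.nx 942 408 (.l1 (.ls 79 41 3247)) (.nr 950 623489 (.nr 946
  185365 (.lg 0 false 4 83 89 19 0 1680) (.nx 949 16385 (.lg 0 false 3 89 97 17 0 5040) .out))
  .out)) (.nr 963 110219 (.nr 955 257 (.lg 0 true 4 71 71 19 0 1680) (.nx 962 262145 (.nx 958 82572
  (.lg 1 false 3 83 89 17 70145 2520) (.nr 961 65537 (.nr 959 1310 (.lg 0 true 1 71 71 16 0 840)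
  (.lg 2 false 2 83 83 17 22913 1680)) .out)) .out)) .out)))) .out) .out)) (.na 995 50 (.nx 994
  2642247 (.nr 993 881745 (.nr 967 44 .s1 (.nx 981 32769 (.nx 969 229 (.nr 968 536 (.lg 0 true 1 23
  23 13 0 1680) (.l1 .sk)) (.nx 970 230 (.l1 .sk) (.lg 0 false 11 89 97 19 0 18480))) (.nr 992
  92683 (.nr 986 536 (.lg 0 true 5 71 71 19 0 240) (.nx 991 262145 (.lg 2 false 5 83 89 19 74346
  1680) .out)) .out))) .out) .out) (.nx 1015 2642247 (.nr 1014 881745 (.nr 996 48 .s1 (.nx 998 229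
  (.nr 997 654 (.l1 (.ls 23 37 1051)) (.l1 .sk)) (.nx 999 230 (.l1 .sk) (.nr 1010 220437 (.nx 1002
  41287 (.lg 0 false 3 89 89 19 0 720) (.nr 1009 77937 (.nr 1006 654 (.lg 0 true 4 71 71 23 0 240)
  (.nx 1008 262145 (.lg 2 false 2 83 83 19 49643 240) .out)) .out)) (.nx 1013 20644 (.lg 0 false 3
  89 89 19 0 720) .out))))) .out) .out)))))

theorem c128 :
    OkQ ckI L9 189 12 142 0 34359738368 1 1099511627776 ∧
    OkQ ckI L6 71 10 80 0 34359738368 1 1099511627776 ∧
    OkQ ckI L10 229 1 61 0 34359738368 1 1099511627776 := by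
  refine ⟨?_, ?_, ?_⟩
  · refine fin 504 927 T128_0 ?_
    refine jn 19 (by decide +kernel) ?_
    refine jn 32 (by decide +kernel) ?_
    refine jn 51 (by decide +kernel) ?_
    refine jn 60 (by decide +kernel) ?_
    refine jn 61 (by decide +kernel) ?_
    refine jn 62 (by decide +kernel) ?_
    refine jn 63 (by decide +kernel) ?_
    refine jn 64 (by decide +kernel) ?_
    refine jn 67 (by decide +kernel) ?_
    refine jn 68 (by decide +kernel) ?_
    refine jn 69 (by decide +kernel) ?_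
    refine jn 70 (by decide +kernel) ?_
    refine jn 71 (by decide +kernel) ?_
    refine jn 72 (by decide +kernel) ?_
    refine jn 73 (by decide +kernel) ?_
    refine jn 74 (by decide +kernel) ?_
    refine jn 75 (by decide +kernel) ?_
    refine jn 76 (by decide +kernel) ?_
    refine jn 77 (by decide +kernel) ?_
    refine jn 78 (by decide +kernel) ?_
    refine jn 79 (by decide +kernel) ?_
    refine jn 80 (by decide +kernel) ?_
    refine jn 81 (by decide +kernel) ?_
    refine jn 87 (by decide +kernel) ?_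
    refine jn 99 (by decide +kernel) ?_
    refine jn 104 (by decide +kernel) ?_
    refine jn 120 (by decide +kernel) ?_
    refine jn 121 (by decide +kernel) ?_
    refine jn 123 (by decide +kernel) ?_
    refine jn 125 (by decide +kernel) ?_
    refine jn 127 (by decide +kernel) ?_
    refine jn 129 (by decide +kernel) ?_
    refine jn 134 (by decide +kernel) ?_
    refine jn 135 (by decide +kernel) ?_
    refine jn 136 (by decide +kernel) ?_
    refine jn 137 (by decide +kernel) ?_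
    refine jn 138 (by decide +kernel) ?_
    refine jn 139 (by decide +kernel) ?_
    refine jn 140 (by decide +kernel) ?_
    refine jn 141 (by decide +kernel) ?_
    refine jn 142 (by decide +kernel) ?_
    refine jn 149 (by decide +kernel) ?_
    refine jn 162 (by decide +kernel) ?_
    refine jn 172 (by decide +kernel) ?_
    refine jn 186 (by decide +kernel) ?_
    refine jn 187 (by decide +kernel) ?_
    refine jn 189 (by decide +kernel) ?_
    refine jn 192 (by decide +kernel) ?_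
    refine jn 195 (by decide +kernel) ?_
    refine jn 198 (by decide +kernel) ?_
    refine jn 200 (by decide +kernel) ?_
    refine jn 202 (by decide +kernel) ?_
    refine jn 205 (by decide +kernel) ?_
    refine jn 210 (by decide +kernel) ?_
    refine jn 215 (by decide +kernel) ?_
    refine jn 221 (by decide +kernel) ?_
    refine jn 228 (by decide +kernel) ?_
    refine jn 242 (by decide +kernel) ?_
    refine jn 248 (by decide +kernel) ?_
    refine jn 253 (by decide +kernel) ?_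
    refine jn 261 (by decide +kernel) ?_
    refine jn 267 (by decide +kernel) ?_
    refine jn 282 (by decide +kernel) ?_
    refine jn 286 (by decide +kernel) ?_
    refine jn 289 (by decide +kernel) ?_
    refine jn 295 (by decide +kernel) ?_
    refine jn 305 (by decide +kernel) ?_
    refine jn 319 (by decide +kernel) ?_
    refine jn 332 (by decide +kernel) ?_
    refine jn 338 (by decide +kernel) ?_
    refine jn 346 (by decide +kernel) ?_
    refine jn 358 (by decide +kernel) ?_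
    refine jn 363 (by decide +kernel) ?_
    refine jn 373 (by decide +kernel) ?_
    refine jn 387 (by decide +kernel) ?_
    refine jn 388 (by decide +kernel) ?_
    refine jn 389 (by decide +kernel) ?_
    refine jn 390 (by decide +kernel) ?_
    refine jn 391 (by decide +kernel) ?_
    refine jn 392 (by decide +kernel) ?_
    refine jn 393 (by decide +kernel) ?_
    refine jn 397 (by decide +kernel) ?_
    refine jn 407 (by decide +kernel) ?_
    refine jn 421 (by decide +kernel) ?_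
    refine jn 426 (by decide +kernel) ?_
    refine jn 435 (by decide +kernel) ?_
    refine jn 446 (by decide +kernel) ?_
    refine jn 453 (by decide +kernel) ?_
    refine jn 463 (by decide +kernel) ?_
    refine jn 475 (by decide +kernel) ?_
    refine jn 481 (by decide +kernel) ?_
    refine jn 489 (by decide +kernel) ?_
    refine jn 510 (by decide +kernel) ?_
    refine jn 518 (by decide +kernel) ?_
    refine jn 519 (by decide +kernel) ?_
    refine jn 520 (by decide +kernel) ?_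
    refine jn 521 (by decide +kernel) ?_
    refine jn 522 (by decide +kernel) ?_
    refine jn 523 (by decide +kernel) ?_
    refine jn 524 (by decide +kernel) ?_
    refine jn 525 (by decide +kernel) ?_
    refine jn 527 (by decide +kernel) ?_
    refine jn 529 (by decide +kernel) ?_
    refine jn 530 (by decide +kernel) ?_
    refine jn 547 (by decide +kernel) ?_
    refine jn 554 (by decide +kernel) ?_
    refine jn 566 (by decide +kernel) ?_
    refine jn 572 (by decide +kernel) ?_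
    refine jn 583 (by decide +kernel) ?_
    refine jn 590 (by decide +kernel) ?_
    refine jn 600 (by decide +kernel) ?_
    refine jn 605 (by decide +kernel) ?_
    refine jn 610 (by decide +kernel) ?_
    refine jn 624 (by decide +kernel) ?_
    refine jn 631 (by decide +kernel) ?_
    refine jn 645 (by decide +kernel) ?_
    refine jn 650 (by decide +kernel) ?_
    refine jn 663 (by decide +kernel) ?_
    refine jn 670 (by decide +kernel) ?_
    refine jn 683 (by decide +kernel) ?_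
    refine jn 697 (by decide +kernel) ?_
    refine jn 702 (by decide +kernel) ?_
    refine jn 717 (by decide +kernel) ?_
    refine jn 731 (by decide +kernel) ?_
    refine jn 742 (by decide +kernel) ?_
    refine jn 746 (by decide +kernel) ?_
    refine jn 748 (by decide +kernel) ?_
    refine jn 750 (by decide +kernel) ?_
    refine jn 753 (by decide +kernel) ?_
    refine jn 769 (by decide +kernel) ?_
    refine jn 776 (by decide +kernel) ?_
    refine jn 777 (by decide +kernel) ?_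
    refine jn 778 (by decide +kernel) ?_
    refine jn 779 (by decide +kernel) ?_
    refine jn 780 (by decide +kernel) ?_
    refine jn 781 (by decide +kernel) ?_
    refine jn 782 (by decide +kernel) ?_
    refine jn 786 (by decide +kernel) ?_
    refine jn 796 (by decide +kernel) ?_
    refine jn 798 (by decide +kernel) ?_
    refine jn 800 (by decide +kernel) ?_
    refine jn 801 (by decide +kernel) ?_
    refine jn 804 (by decide +kernel) ?_
    refine jn 818 (by decide +kernel) ?_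
    refine jn 831 (by decide +kernel) ?_
    refine jn 839 (by decide +kernel) ?_
    refine jn 843 (by decide +kernel) ?_
    refine jn 855 (by decide +kernel) ?_
    refine jn 867 (by decide +kernel) ?_
    refine jn 878 (by decide +kernel) ?_
    refine jn 882 (by decide +kernel) ?_
    refine jn 894 (by decide +kernel) ?_
    refine jn 906 (by decide +kernel) ?_
    refine jn 922 (by decide +kernel) ?_
    exact je (by decide +kernel)
  · refine fin 5112 643 T128_1 ?_
    refine jn 6 (by decide +kernel) ?_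
    refine jn 8 (by decide +kernel) ?_
    refine jn 10 (by decide +kernel) ?_
    refine jn 11 (by decide +kernel) ?_
    refine jn 14 (by decide +kernel) ?_
    refine jn 17 (by decide +kernel) ?_
    refine jn 21 (by decide +kernel) ?_
    refine jn 34 (by decide +kernel) ?_
    refine jn 42 (by decide +kernel) ?_
    refine jn 49 (by decide +kernel) ?_
    refine jn 50 (by decide +kernel) ?_
    refine jn 51 (by decide +kernel) ?_
    refine jn 52 (by decide +kernel) ?_
    refine jn 53 (by decide +kernel) ?_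
    refine jn 54 (by decide +kernel) ?_
    refine jn 55 (by decide +kernel) ?_
    refine jn 56 (by decide +kernel) ?_
    refine jn 57 (by decide +kernel) ?_
    refine jn 58 (by decide +kernel) ?_
    refine jn 59 (by decide +kernel) ?_
    refine jn 60 (by decide +kernel) ?_
    refine jn 61 (by decide +kernel) ?_
    refine jn 62 (by decide +kernel) ?_
    refine jn 64 (by decide +kernel) ?_
    refine jn 66 (by decide +kernel) ?_
    refine jn 72 (by decide +kernel) ?_
    refine jn 74 (by decide +kernel) ?_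
    refine jn 80 (by decide +kernel) ?_
    refine jn 87 (by decide +kernel) ?_
    refine jn 88 (by decide +kernel) ?_
    refine jn 89 (by decide +kernel) ?_
    refine jn 90 (by decide +kernel) ?_
    refine jn 91 (by decide +kernel) ?_
    refine jn 92 (by decide +kernel) ?_
    refine jn 93 (by decide +kernel) ?_
    refine jn 94 (by decide +kernel) ?_
    refine jn 95 (by decide +kernel) ?_
    refine jn 96 (by decide +kernel) ?_
    refine jn 98 (by decide +kernel) ?_
    refine jn 100 (by decide +kernel) ?_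
    refine jn 106 (by decide +kernel) ?_
    refine jn 112 (by decide +kernel) ?_
    refine jn 119 (by decide +kernel) ?_
    refine jn 120 (by decide +kernel) ?_
    refine jn 121 (by decide +kernel) ?_
    refine jn 122 (by decide +kernel) ?_
    refine jn 123 (by decide +kernel) ?_
    refine jn 124 (by decide +kernel) ?_
    refine jn 125 (by decide +kernel) ?_
    refine jn 126 (by decide +kernel) ?_
    refine jn 128 (by decide +kernel) ?_
    refine jn 129 (by decide +kernel) ?_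
    refine jn 130 (by decide +kernel) ?_
    refine jn 131 (by decide +kernel) ?_
    refine jn 133 (by decide +kernel) ?_
    refine jn 135 (by decide +kernel) ?_
    refine jn 137 (by decide +kernel) ?_
    refine jn 138 (by decide +kernel) ?_
    refine jn 139 (by decide +kernel) ?_
    refine jn 150 (by decide +kernel) ?_
    refine jn 155 (by decide +kernel) ?_
    refine jn 159 (by decide +kernel) ?_
    refine jn 163 (by decide +kernel) ?_
    refine jn 167 (by decide +kernel) ?_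
    refine jn 173 (by decide +kernel) ?_
    refine jn 183 (by decide +kernel) ?_
    refine jn 188 (by decide +kernel) ?_
    refine jn 194 (by decide +kernel) ?_
    refine jn 198 (by decide +kernel) ?_
    refine jn 208 (by decide +kernel) ?_
    refine jn 211 (by decide +kernel) ?_
    refine jn 212 (by decide +kernel) ?_
    refine jn 214 (by decide +kernel) ?_
    refine jn 215 (by decide +kernel) ?_
    refine jn 216 (by decide +kernel) ?_
    refine jn 217 (by decide +kernel) ?_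
    refine jn 218 (by decide +kernel) ?_
    refine jn 219 (by decide +kernel) ?_
    refine jn 220 (by decide +kernel) ?_
    refine jn 221 (by decide +kernel) ?_
    refine jn 222 (by decide +kernel) ?_
    refine jn 225 (by decide +kernel) ?_
    refine jn 226 (by decide +kernel) ?_
    refine jn 238 (by decide +kernel) ?_
    refine jn 239 (by decide +kernel) ?_
    refine jn 240 (by decide +kernel) ?_
    refine jn 241 (by decide +kernel) ?_
    refine jn 242 (by decide +kernel) ?_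
    refine jn 243 (by decide +kernel) ?_
    refine jn 244 (by decide +kernel) ?_
    refine jn 245 (by decide +kernel) ?_
    refine jn 246 (by decide +kernel) ?_
    refine jn 248 (by decide +kernel) ?_
    refine jn 249 (by decide +kernel) ?_
    refine jn 250 (by decide +kernel) ?_
    refine jn 261 (by decide +kernel) ?_
    refine jn 265 (by decide +kernel) ?_
    refine jn 269 (by decide +kernel) ?_
    refine jn 279 (by decide +kernel) ?_
    refine jn 283 (by decide +kernel) ?_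
    refine jn 287 (by decide +kernel) ?_
    refine jn 296 (by decide +kernel) ?_
    refine jn 300 (by decide +kernel) ?_
    refine jn 306 (by decide +kernel) ?_
    refine jn 314 (by decide +kernel) ?_
    refine jn 315 (by decide +kernel) ?_
    refine jn 316 (by decide +kernel) ?_
    refine jn 317 (by decide +kernel) ?_
    refine jn 318 (by decide +kernel) ?_
    refine jn 319 (by decide +kernel) ?_
    refine jn 322 (by decide +kernel) ?_
    refine jn 325 (by decide +kernel) ?_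
    refine jn 334 (by decide +kernel) ?_
    refine jn 335 (by decide +kernel) ?_
    refine jn 336 (by decide +kernel) ?_
    refine jn 337 (by decide +kernel) ?_
    refine jn 338 (by decide +kernel) ?_
    refine jn 339 (by decide +kernel) ?_
    refine jn 340 (by decide +kernel) ?_
    refine jn 341 (by decide +kernel) ?_
    refine jn 342 (by decide +kernel) ?_
    refine jn 351 (by decide +kernel) ?_
    refine jn 352 (by decide +kernel) ?_
    refine jn 353 (by decide +kernel) ?_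
    refine jn 355 (by decide +kernel) ?_
    refine jn 356 (by decide +kernel) ?_
    refine jn 357 (by decide +kernel) ?_
    refine jn 361 (by decide +kernel) ?_
    refine jn 364 (by decide +kernel) ?_
    refine jn 375 (by decide +kernel) ?_
    refine jn 380 (by decide +kernel) ?_
    refine jn 391 (by decide +kernel) ?_
    refine jn 396 (by decide +kernel) ?_
    refine jn 404 (by decide +kernel) ?_
    refine jn 405 (by decide +kernel) ?_
    refine jn 406 (by decide +kernel) ?_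
    refine jn 407 (by decide +kernel) ?_
    refine jn 408 (by decide +kernel) ?_
    refine jn 409 (by decide +kernel) ?_
    refine jn 410 (by decide +kernel) ?_
    refine jn 412 (by decide +kernel) ?_
    refine jn 413 (by decide +kernel) ?_
    refine jn 414 (by decide +kernel) ?_
    refine jn 425 (by decide +kernel) ?_
    refine jn 430 (by decide +kernel) ?_
    refine jn 440 (by decide +kernel) ?_
    refine jn 442 (by decide +kernel) ?_
    refine jn 443 (by decide +kernel) ?_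
    refine jn 444 (by decide +kernel) ?_
    refine jn 451 (by decide +kernel) ?_
    refine jn 454 (by decide +kernel) ?_
    refine jn 455 (by decide +kernel) ?_
    refine jn 456 (by decide +kernel) ?_
    refine jn 457 (by decide +kernel) ?_
    refine jn 458 (by decide +kernel) ?_
    refine jn 459 (by decide +kernel) ?_
    refine jn 473 (by decide +kernel) ?_
    refine jn 484 (by decide +kernel) ?_
    refine jn 493 (by decide +kernel) ?_
    refine jn 496 (by decide +kernel) ?_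
    refine jn 498 (by decide +kernel) ?_
    refine jn 500 (by decide +kernel) ?_
    refine jn 512 (by decide +kernel) ?_
    refine jn 521 (by decide +kernel) ?_
    refine jn 524 (by decide +kernel) ?_
    refine jn 525 (by decide +kernel) ?_
    refine jn 526 (by decide +kernel) ?_
    refine jn 527 (by decide +kernel) ?_
    refine jn 528 (by decide +kernel) ?_
    refine jn 538 (by decide +kernel) ?_
    refine jn 539 (by decide +kernel) ?_
    refine jn 541 (by decide +kernel) ?_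
    refine jn 557 (by decide +kernel) ?_
    refine jn 566 (by decide +kernel) ?_
    refine jn 567 (by decide +kernel) ?_
    refine jn 568 (by decide +kernel) ?_
    refine jn 570 (by decide +kernel) ?_
    refine jn 583 (by decide +kernel) ?_
    refine jn 598 (by decide +kernel) ?_
    refine jn 609 (by decide +kernel) ?_
    refine jn 611 (by decide +kernel) ?_
    refine jn 620 (by decide +kernel) ?_
    refine jn 622 (by decide +kernel) ?_
    refine jn 624 (by decide +kernel) ?_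
    refine jn 636 (by decide +kernel) ?_
    exact je (by decide +kernel)
  · refine fin 24 1016 T128_2 ?_
    refine jn 11 (by decide +kernel) ?_
    refine jn 21 (by decide +kernel) ?_
    refine jn 30 (by decide +kernel) ?_
    refine jn 40 (by decide +kernel) ?_
    refine jn 46 (by decide +kernel) ?_
    refine jn 55 (by decide +kernel) ?_
    refine jn 64 (by decide +kernel) ?_
    refine jn 74 (by decide +kernel) ?_
    refine jn 81 (by decide +kernel) ?_
    refine jn 114 (by decide +kernel) ?_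
    refine jn 136 (by decide +kernel) ?_
    refine jn 147 (by decide +kernel) ?_
    refine jn 158 (by decide +kernel) ?_
    refine jn 169 (by decide +kernel) ?_
    refine jn 181 (by decide +kernel) ?_
    refine jn 199 (by decide +kernel) ?_
    refine jn 214 (by decide +kernel) ?_
    refine jn 247 (by decide +kernel) ?_
    refine jn 280 (by decide +kernel) ?_
    refine jn 292 (by decide +kernel) ?_
    refine jn 318 (by decide +kernel) ?_
    refine jn 325 (by decide +kernel) ?_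
    refine jn 351 (by decide +kernel) ?_
    refine jn 358 (by decide +kernel) ?_
    refine jn 384 (by decide +kernel) ?_
    refine jn 392 (by decide +kernel) ?_
    refine jn 414 (by decide +kernel) ?_
    refine jn 445 (by decide +kernel) ?_
    refine jn 463 (by decide +kernel) ?_
    refine jn 470 (by decide +kernel) ?_
    refine jn 472 (by decide +kernel) ?_
    refine jn 475 (by decide +kernel) ?_
    refine jn 476 (by decide +kernel) ?_
    refine jn 477 (by decide +kernel) ?_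
    refine jn 480 (by decide +kernel) ?_
    refine jn 482 (by decide +kernel) ?_
    refine jn 483 (by decide +kernel) ?_
    refine jn 494 (by decide +kernel) ?_
    refine jn 502 (by decide +kernel) ?_
    refine jn 506 (by decide +kernel) ?_
    refine jn 510 (by decide +kernel) ?_
    refine jn 523 (by decide +kernel) ?_
    refine jn 537 (by decide +kernel) ?_
    refine jn 541 (by decide +kernel) ?_
    refine jn 554 (by decide +kernel) ?_
    refine jn 567 (by decide +kernel) ?_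
    refine jn 578 (by decide +kernel) ?_
    refine jn 589 (by decide +kernel) ?_
    refine jn 629 (by decide +kernel) ?_
    refine jn 641 (by decide +kernel) ?_
    refine jn 644 (by decide +kernel) ?_
    refine jn 647 (by decide +kernel) ?_
    refine jn 652 (by decide +kernel) ?_
    refine jn 659 (by decide +kernel) ?_
    refine jn 664 (by decide +kernel) ?_
    refine jn 673 (by decide +kernel) ?_
    refine jn 684 (by decide +kernel) ?_
    refine jn 695 (by decide +kernel) ?_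
    refine jn 705 (by decide +kernel) ?_
    refine jn 707 (by decide +kernel) ?_
    refine jn 716 (by decide +kernel) ?_
    refine jn 725 (by decide +kernel) ?_
    refine jn 739 (by decide +kernel) ?_
    refine jn 742 (by decide +kernel) ?_
    refine jn 747 (by decide +kernel) ?_
    refine jn 753 (by decide +kernel) ?_
    refine jn 760 (by decide +kernel) ?_
    refine jn 766 (by decide +kernel) ?_
    refine jn 767 (by decide +kernel) ?_
    refine jn 780 (by decide +kernel) ?_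
    refine jn 783 (by decide +kernel) ?_
    refine jn 796 (by decide +kernel) ?_
    refine jn 805 (by decide +kernel) ?_
    refine jn 814 (by decide +kernel) ?_
    refine jn 826 (by decide +kernel) ?_
    refine jn 830 (by decide +kernel) ?_
    refine jn 838 (by decide +kernel) ?_
    refine jn 842 (by decide +kernel) ?_
    refine jn 848 (by decide +kernel) ?_
    refine jn 855 (by decide +kernel) ?_
    refine jn 869 (by decide +kernel) ?_
    refine jn 876 (by decide +kernel) ?_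
    refine jn 884 (by decide +kernel) ?_
    refine jn 893 (by decide +kernel) ?_
    refine jn 904 (by decide +kernel) ?_
    refine jn 919 (by decide +kernel) ?_
    refine jn 927 (by decide +kernel) ?_
    refine jn 939 (by decide +kernel) ?_
    refine jn 942 (by decide +kernel) ?_
    refine jn 943 (by decide +kernel) ?_
    refine jn 944 (by decide +kernel) ?_
    refine jn 945 (by decide +kernel) ?_
    refine jn 946 (by decide +kernel) ?_
    refine jn 952 (by decide +kernel) ?_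
    refine jn 954 (by decide +kernel) ?_
    refine jn 955 (by decide +kernel) ?_
    refine jn 959 (by decide +kernel) ?_
    refine jn 961 (by decide +kernel) ?_
    refine jn 981 (by decide +kernel) ?_
    refine jn 991 (by decide +kernel) ?_
    refine jn 1006 (by decide +kernel) ?_
    refine jn 1013 (by decide +kernel) ?_
    exact je (by decide +kernel)

end Pool.Agent.MP_2339ce_nt.NR
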