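import Pool.Agent.MP_2339ce_nt.Q2.NC.L5
import Pool.Agent.MP_2339ce_nt.Q2.NC.L9
import Pool.Agent.MP_2339ce_nt.Q2.NC.L10
import Pool.Agent.MP_2339ce_nt.Q2.CkI

/-! Block NR: runs. -/

set_option autoImplicit false
set_option maxRecDepth 100000

noncomputable section

namespace Pool.Agent.MP_2339ce_nt.NR

open Q2.Top

def T129_0 : Ph :=
  (.na 518 174 (.na 304 91 (.na 166 54 (.na 65 36 (.na 37 32 (.na 1 26 .ne (.nx 36 2097153 (.nr 35
  1048577 (.nr 2 22 .s1 (.nx 30 524289 (.nx 4 212 (.nr 3 330 (.lg 0 false 1 29 29 11 0 496080) (.l1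
  .sk)) (.nx 5 213 (.l1 .sk) (.nx 20 52017 (.nx 6 324 (.l1 (.ls 83 43 2295)) (.nr 19 524289 (.nr 17
  370729 (.lg 0 false 11 101 107 23 0 38198160) (.nx 18 1292 (.lg 0 true 1 83 83 11 0 496080)
  .out)) .out)) (.nr 29 92683 (.nr 23 950 (.lg 0 true 3 79 79 11 0 99216) (.nx 28 330282 (.lg 2
  false 5 97 101 19 40133 3472560) .out)) .out)))) (.nr 34 129 (.lg 0 true 4 71 71 19 0 99216)
  .out))) .out) .out)) (.na 38 34 .ne (.nx 64 2097153 (.nr 63 881745 (.nr 39 31 .s1 (.nx 42 213
  (.nx 41 212 (.nr 40 371 (.lg 0 false 1 29 29 13 0 38160) (.l1 .sk)) (.l1 .sk)) (.nx 43 324 (.l1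
  (.ls 83 41 1756)) (.nr 62 623489 (.nx 50 26009 (.lg 0 false 7 101 103 23 0 267120) (.nr 61 77937
  (.nr 57 371 (.lg 0 true 7 73 73 23 0 53424) (.nx 60 208065 (.lg 2 false 3 97 101 13 67523 38160)
  .out)) .out)) .out)))) .out) .out))) (.na 121 46 (.na 92 38 (.nx 91 2097153 (.nr 90 881745 (.nr
  66 33 .s1 (.nx 69 213 (.nx 68 212 (.nr 67 392 (.lg 0 false 1 29 29 19 0 38160) (.l1 .sk)) (.l1
  .sk)) (.nx 86 262145 (.nx 78 13005 (.nx 70 324 (.l1 (.ls 83 41 1658)) (.nr 77 623489 (.lg 0 false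
  7 89 97 29 0 267120) .out)) (.nr 85 155873 (.nx 80 32769 (.lg 0 false 2 97 97 23 0 38160) (.nr 84
  65537 (.nr 81 1135 (.lg 0 false 1 79 79 19 0 38160) (.nx 83 208065 (.lg 2 false 2 89 97 23 45090
  38160) .out)) .out)) .out)) (.nr 89 217 (.lg 0 true 3 73 73 23 0 7632) .out)))) .out) .out) (.nx
  120 2097153 (.nr 119 881745 (.nr 93 36 .s1 (.nx 109 32769 (.nx 95 212 (.nr 94 474 (.lg 0 false 1
  23 23 13 0 7632) (.l1 .sk)) (.nx 96 213 (.l1 .sk) (.nx 97 324 (.l1 (.ls 79 41 1571)) (.nr 108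
  623489 (.nr 102 155873 (.lg 0 false 5 89 89 17 0 38160) (.nx 107 13005 (.lg 0 false 5 89 97 17 0
  38160) .out)) .out)))) (.nr 118 65537 (.nr 114 474 (.lg 0 true 5 73 73 17 0 38160) (.nx 117
  208065 (.lg 2 false 3 89 89 13 46530 7632) .out)) .out))) .out) .out)) (.na 143 52 (.nx 142
  2097153 (.nr 141 881745 (.nr 122 44 .s1 (.nx 123 324 (.l1 (.ls 83 43 2285)) (.nr 140 741457 (.nx
  130 26009 (.lg 0 false 7 97 101 19 0 267120) (.nr 139 65537 (.nr 135 536 (.lg 0 true 5 73 73 19 0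
  38160) (.nx 138 208065 (.lg 2 false 3 97 97 13 56809 38160) .out)) .out)) .out))) .out) .out)
  (.nx 165 2097153 (.nr 164 881745 (.nr 144 50 .s1 (.nx 147 213 (.nx 146 212 (.nr 145 557 (.l1 (.ls
  29 37 867)) (.l1 .sk)) (.l1 .sk)) (.nx 154 16385 (.nx 148 324 (.l1 (.ls 79 37 1149)) (.nr 153
  741457 (.lg 0 false 5 89 97 29 0 496080) .out)) (.nr 163 155873 (.nx 159 208065 (.nx 156 32769
  (.lg 0 false 2 89 89 23 0 99216) (.nr 158 46342 (.nr 157 1477 (.lg 0 false 1 73 73 19 0 99216)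
  (.lg 2 true 1 89 89 19 31926 99216)) .out)) (.nr 162 257 (.lg 0 true 3 71 71 23 0 99216) .out))
  .out)))) .out) .out)))) (.na 227 68 (.na 207 62 (.na 188 58 (.nx 187 2097153 (.nr 186 881745 (.nr
  167 53 .s1 (.nx 182 208065 (.nx 176 32769 (.nx 168 324 (.l1 (.ls 79 43 1946)) (.nr 175 741457
  (.lg 0 false 7 89 97 29 0 267120) .out)) (.nr 181 46342 (.lg 0 false 5 83 83 23 0 38160) .out))
  (.nr 185 257 (.lg 0 true 3 67 67 23 0 7632) .out))) .out) .out) (.nx 206 2097153 (.nr 205 881745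
  (.nr 189 57 .s1 (.nx 190 324 (.l1 (.ls 79 41 1812)) (.nr 204 741457 (.nx 195 32769 (.lg 0 false 5
  97 97 19 0 38160) (.nr 203 46342 (.nr 200 639 (.lg 0 true 5 73 73 19 0 38160) (.nx 202 208065
  (.lg 2 false 2 83 83 13 34515 7632) .out)) .out)) .out))) .out) .out)) (.na 226 64 (.nx 225
  2097153 (.nr 224 881745 (.nr 208 61 .s1 (.nx 209 324 (.l1 (.ls 73 41 1696)) (.nr 223 741457 (.nx
  214 32769 (.lg 0 false 5 89 97 19 0 38160) (.nr 222 46342 (.nr 219 660 (.lg 0 true 5 71 71 19 0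
  38160) (.nx 221 208065 (.lg 2 false 2 79 79 17 33417 7632) .out)) .out)) .out))) .out) .out)
  .ne)) (.na 266 76 (.na 248 74 (.nx 247 2097153 (.nr 246 2097153 (.nr 228 67 .s1 (.nx 240 32769
  (.nx 230 212 (.nr 229 763 (.l1 (.ls 31 37 663)) (.l1 .sk)) (.nx 231 213 (.l1 .sk) (.nx 232 324
  (.l1 (.ls 83 37 879)) (.nr 239 1048577 (.nx 237 20644 (.lg 0 false 5 97 101 29 0 38160) (.nr 238
  65537 (.lg 0 false 1 83 83 13 0 7632) .out)) .out)))) (.nr 245 32769 (.nr 243 513 (.lg 0 true 3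
  73 73 29 0 7632) (.nx 244 131073 (.lg 2 true 1 83 83 13 27084 7632) .out)) .out))) .out) .out)
  (.nx 265 2097153 (.nr 264 2097153 (.nr 249 73 .s1 (.nx 258 32769 (.nx 250 324 (.l1 (.ls 83 31
  1421)) (.nr 257 1048577 (.lg 0 false 7 97 101 23 0 267120) .out)) (.nr 263 32769 (.nr 261 513
  (.lg 0 true 3 71 71 19 0 7632) (.nx 262 131073 (.lg 2 true 1 83 83 13 27084 38160) .out)) .out)))
  .out) .out)) (.na 284 78 (.nx 283 2097153 (.nr 282 2097153 (.nr 267 75 .s1 (.nx 271 324 (.nx 269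
  212 (.nr 268 804 (.l1 (.ls 17 37 594)) (.l1 .sk)) (.nx 270 213 (.l1 .sk) (.l1 (.ls 89 37 787))))
  (.nr 281 1048577 (.nx 276 32769 (.nx 274 20644 (.lg 0 false 3 97 101 29 0 38160) (.nr 275 65537
  (.lg 0 false 1 83 83 17 0 7632) .out)) (.nr 280 32769 (.nr 278 513 (.lg 0 true 2 73 73 23 0 7632)
  (.nx 279 131073 (.lg 2 true 1 83 83 17 27084 7632) .out)) .out)) .out))) .out) .out) (.nx 303
  2097153 (.nr 302 2097153 (.nr 285 77 .s1 (.nx 297 32769 (.nx 295 20644 (.nx 287 212 (.nr 286 938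
  (.l1 (.ls 29 41 579)) (.l1 .sk)) (.nx 288 213 (.l1 .sk) (.nx 289 324 (.l1 (.ls 83 41 767)) (.nr
  294 1048577 (.lg 0 false 5 89 97 37 0 496080) .out)))) (.nr 296 65537 (.lg 0 false 1 79 79 29 0
  99216) .out)) (.nr 301 32769 (.nr 299 513 (.lg 0 true 2 73 73 31 0 99216) (.nx 300 131073 (.lg 2
  true 1 83 83 29 27084 99216) .out)) .out))) .out) .out))))) (.na 408 128 (.na 355 108 (.na 322
  102 (.na 305 92 .ne (.nx 321 2097153 (.nr 320 2097153 (.nr 306 91 .s1 (.nx 307 324 (.l1 (.ls 83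
  41 1144)) (.nr 319 1048577 (.nx 314 32769 (.nx 312 20644 (.lg 0 false 5 89 97 31 0 38160) (.nr
  313 65537 (.lg 0 false 1 79 79 19 0 7632) .out)) (.nr 318 32769 (.nr 316 513 (.lg 0 true 2 71 71
  19 0 7632) (.nx 317 131073 (.lg 2 false 1 79 79 19 27084 7632) .out)) .out)) .out))) .out) .out))
  (.na 337 106 (.nx 336 2097153 (.nr 335 2097153 (.nr 323 101 .s1 (.nx 332 131073 (.nx 330 20644
  (.nx 324 324 (.l1 (.ls 83 43 1032)) (.nr 329 1048577 (.lg 0 false 5 89 97 37 0 38160) .out)) (.nr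
  331 65537 (.lg 0 false 1 97 97 29 0 7632) .out)) (.nr 334 513 (.lg 0 true 2 71 71 31 0 7632)
  .out))) .out) .out) (.nx 354 2097153 (.nr 353 2097153 (.nr 338 105 .s1 (.nx 339 324 (.l1 (.ls 71
  31 993)) (.nr 352 1048577 (.nx 346 32769 (.lg 0 false 7 79 79 23 0 53424) (.nr 351 32769 (.nr 348
  513 (.lg 0 false 2 61 61 19 0 38160) (.nx 350 131073 (.lg 2 true 2 61 61 19 27084 7632) .out))
  .out)) .out))) .out) .out))) (.na 382 116 (.na 370 114 (.nx 369 2097153 (.nr 368 2097153 (.nr 356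
  108 .s1 (.nx 365 131073 (.nx 357 324 (.l1 (.ls 79 41 974)) (.nr 364 1048577 (.nx 362 20644 (.lg 0
  false 5 83 89 31 0 38160) (.nr 363 65537 (.lg 0 false 1 89 89 23 0 7632) .out)) .out)) (.nr 367
  513 (.lg 0 true 2 67 67 29 0 7632) .out))) .out) .out) (.nx 381 2097153 (.nr 380 2097153 (.nr 371
  114 .s1 (.nx 372 324 (.l1 (.ls 83 41 923)) (.nr 379 1048577 (.nx 374 20644 (.lg 0 false 2 97 101
  31 0 38160) (.nr 378 65537 (.nx 375 131073 (.lg 0 false 1 97 97 31 0 38160) (.nr 377 513 (.lg 0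
  true 2 71 71 31 0 7632) .out)) .out)) .out))) .out) .out)) (.na 395 124 (.nx 394 2097153 (.nr 393
  2097153 (.nr 383 116 .s1 (.nx 388 20644 (.nx 384 324 (.l1 (.ls 89 37 907)) (.nr 387 1048577 (.lg
  0 false 3 97 101 23 0 38160) .out)) (.nr 392 65537 (.nx 389 131073 (.lg 0 false 1 97 97 19 0
  38160) (.nr 391 513 (.lg 0 true 2 73 73 23 0 7632) .out)) .out))) .out) .out) (.nx 407 2097153
  (.nr 406 2097153 (.nr 396 124 .s1 (.nx 401 20644 (.nx 397 324 (.l1 (.ls 83 29 849)) (.nr 400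
  1048577 (.lg 0 false 3 89 97 29 0 38160) .out)) (.nr 405 65537 (.nx 402 131073 (.lg 0 false 1 97
  97 19 0 38160) (.nr 404 513 (.lg 0 true 2 71 71 23 0 7632) .out)) .out))) .out) .out)))) (.na 451
  148 (.na 423 138 (.na 409 134 .ne (.nx 422 1048577 (.nr 421 1482912 (.nr 410 134 .s1 (.nx 413 213
  (.nx 412 212 (.nr 411 1423 (.l1 (.ls 19 29 338)) (.l1 .sk)) (.l1 .sk)) (.nx 416 16385 (.lg 0
  false 3 89 89 23 0 38160) (.nr 420 65537 (.nx 418 131073 (.lg 0 true 2 83 83 23 0 7632) (.nr 419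
  1025 (.lg 0 false 1 73 73 19 0 38160) .out)) .out)))) .out) .out)) (.na 435 142 (.nx 434 1048577
  (.nr 433 1482912 (.nr 424 138 .s1 (.nx 429 16385 (.nx 426 212 (.nr 425 1464 (.l1 (.ls 19 37 328))
  (.l1 .sk)) (.nx 427 213 (.l1 .sk) (.lg 0 false 2 89 89 37 0 7632))) (.nr 432 65537 (.nx 430
  131073 (.lg 0 false 1 89 89 31 0 7632) (.nr 431 1025 (.lg 0 true 1 71 71 31 0 7632) .out))
  .out))) .out) .out) (.nx 450 1048577 (.nr 449 1482912 (.nr 436 142 .s1 (.nx 444 32769 (.nx 438
  212 (.nr 437 1526 (.l1 (.ls 19 29 319)) (.l1 .sk)) (.nx 439 213 (.l1 .sk) (.lg 0 false 5 89 89 29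
  0 38160))) (.nr 448 16385 (.nr 446 1025 (.lg 0 true 2 61 61 23 0 7632) (.nx 447 131073 (.lg 2
  true 1 61 61 19 13555 7632) .out)) .out))) .out) .out))) (.na 475 158 (.na 463 156 (.nx 462
  1048577 (.nr 461 1482912 (.nr 452 148 .s1 (.nx 454 212 (.nr 453 1608 (.l1 (.ls 23 29 306)) (.l1
  .sk)) (.nx 455 213 (.l1 .sk) (.nx 459 131073 (.nr 456 65537 (.lg 0 false 1 89 89 23 0 7632) (.nx
  458 16385 (.lg 0 false 2 89 89 23 0 7632) .out)) (.nr 460 1025 (.lg 0 true 1 71 71 23 0 7632)
  .out))))) .out) .out) (.nx 474 1048577 (.nr 473 1482912 (.nr 464 156 .s1 (.nx 466 212 (.nr 465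
  1629 (.l1 (.ls 37 37 291)) (.l1 .sk)) (.nx 467 213 (.l1 .sk) (.nx 471 131073 (.nr 468 65537 (.lg
  0 true 1 97 101 37 0 496080) (.nx 470 16385 (.lg 0 false 2 97 101 41 0 496080) .out)) (.nr 472
  1025 (.lg 0 true 1 79 79 37 0 99216) .out))))) .out) .out)) (.na 490 162 (.nx 489 1048577 (.nr
  488 1482912 (.nr 476 158 .s1 (.nx 484 32769 (.nx 478 212 (.nr 477 1670 (.l1 (.ls 17 29 287)) (.l1
  .sk)) (.nx 479 213 (.l1 .sk) (.lg 0 false 5 89 89 29 0 38160))) (.nr 487 16385 (.nr 485 1025 (.lg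
  0 false 1 67 67 19 0 7632) (.nx 486 131073 (.lg 2 true 1 59 59 19 13555 7632) .out)) .out)))
  .out) .out) (.na 505 166 (.nx 504 1048577 (.nr 503 1482912 (.nr 491 162 .s1 (.nx 493 212 (.nr 492
  1712 (.l1 (.ls 17 31 280)) (.l1 .sk)) (.nx 494 213 (.l1 .sk) (.nx 499 32769 (.lg 0 false 5 79 83
  31 0 38160) (.nr 502 16385 (.nr 500 1025 (.lg 0 false 1 67 67 23 0 7632) (.nx 501 131073 (.lg 2
  true 1 59 59 23 13555 7632) .out)) .out))))) .out) .out) (.nx 517 1048577 (.nr 516 1482912 (.nr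
  506 166 .s1 (.nx 509 213 (.nx 508 212 (.nr 507 1794 (.l1 (.ls 19 29 273)) (.l1 .sk)) (.l1 .sk))
  (.nx 514 131073 (.nr 510 65537 (.lg 0 false 1 89 89 19 0 38160) (.nx 513 16385 (.lg 0 false 3 79
  79 23 0 7632) .out)) (.nr 515 1025 (.lg 0 false 1 67 67 19 0 7632) .out)))) .out) .out)))))))
  (.na 1587 512 (.na 606 222 (.na 558 194 (.na 545 182 (.na 530 178 (.nx 529 1048577 (.nr 528
  1482912 (.nr 519 174 .s1 (.nx 522 213 (.nx 521 212 (.nr 520 1835 (.l1 (.ls 23 37 261)) (.l1 .sk))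
  (.l1 .sk)) (.nx 524 16385 (.lg 0 false 2 97 97 37 0 38160) (.nr 527 65537 (.nx 525 131073 (.lg 0
  false 1 89 89 23 0 38160) (.nr 526 1025 (.lg 0 true 1 71 71 23 0 7632) .out)) .out)))) .out)
  .out) (.nx 544 1048577 (.nr 543 1482912 (.nr 531 178 .s1 (.nx 534 213 (.nx 533 212 (.nr 532 1876
  (.l1 (.ls 17 29 255)) (.l1 .sk)) (.l1 .sk)) (.nx 539 32769 (.lg 0 false 5 83 83 29 0 38160) (.nr
  542 16385 (.nr 540 1025 (.lg 0 false 1 67 67 19 0 7632) (.nx 541 131073 (.lg 2 false 1 59 59 19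
  13555 7632) .out)) .out)))) .out) .out)) (.na 546 186 .ne (.nx 557 1048577 (.nr 556 1048577 (.nr
  547 186 .s1 (.nx 549 212 (.nr 548 2000 (.l1 (.ls 29 29 244)) (.l1 .sk)) (.nx 550 213 (.l1 .sk)
  (.nx 554 131073 (.nr 551 65537 (.lg 0 false 1 89 89 29 0 7632) (.nx 553 16385 (.lg 0 false 2 89
  89 29 0 7632) .out)) (.nr 555 1025 (.lg 0 true 1 71 71 29 0 7632) .out))))) .out) .out))) (.na
  582 206 (.na 571 204 (.nx 570 1048577 (.nr 569 1048577 (.nr 559 194 .s1 (.nx 562 213 (.nx 561 212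
  (.nr 560 2103 (.l1 (.ls 19 29 234)) (.l1 .sk)) (.l1 .sk)) (.nx 565 32769 (.lg 0 false 3 83 83 29
  0 38160) (.nr 568 16385 (.nr 566 1025 (.lg 0 false 1 67 67 19 0 38160) (.nx 567 131073 (.lg 2
  true 1 59 59 19 13555 7632) .out)) .out)))) .out) .out) (.nx 581 1048577 (.nr 580 1048577 (.nr
  572 204 .s1 (.nx 575 213 (.nx 574 212 (.nr 573 2124 (.l1 (.ls 37 37 223)) (.l1 .sk)) (.l1 .sk))
  (.nr 578 65537 (.nx 576 131073 (.lg 0 true 1 89 97 37 0 38160) (.nr 577 1025 (.lg 0 true 1 73 73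
  37 0 7632) .out)) (.nx 579 16385 (.lg 0 false 1 97 97 37 0 38160) .out)))) .out) .out)) (.na 595
  212 (.nx 594 1048577 (.nr 593 1048577 (.nr 583 206 .s1 (.nx 585 212 (.nr 584 2186 (.l1 (.ls 19 23
  221)) (.l1 .sk)) (.nx 586 213 (.l1 .sk) (.nx 589 32769 (.lg 0 false 3 79 79 29 0 7632) (.nr 592
  16385 (.nr 590 1025 (.lg 0 false 1 61 61 23 0 7632) (.nx 591 131073 (.lg 2 true 1 59 59 23 13555
  38160) .out)) .out))))) .out) .out) (.nx 605 1048577 (.nr 604 1048577 (.nr 596 212 .s1 (.nx 599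
  213 (.nx 598 212 (.nr 597 2289 (.l1 (.ls 17 23 214)) (.l1 .sk)) (.l1 .sk)) (.nx 602 32769 (.lg 0
  false 3 79 79 29 0 7632) (.nr 603 16385 (.lg 0 false 1 83 83 23 0 7632) .out)))) .out) .out))))
  (.na 649 254 (.na 627 228 (.na 617 226 (.nx 616 1048577 (.nr 615 1048577 (.nr 607 222 .s1 (.nx
  613 131073 (.nx 609 212 (.nr 608 2330 (.l1 (.ls 23 31 205)) (.l1 .sk)) (.nx 610 213 (.l1 .sk)
  (.nr 611 65537 (.lg 0 true 1 83 83 31 0 7632) (.nx 612 16385 (.lg 0 false 1 89 89 31 0 7632)
  .out)))) (.nr 614 1025 (.lg 0 true 1 67 67 31 0 7632) .out))) .out) .out) (.nx 626 1048577 (.nr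
  625 1048577 (.nr 618 226 .s1 (.nx 621 213 (.nx 620 212 (.nr 619 2351 (.l1 (.ls 19 23 201)) (.l1
  .sk)) (.l1 .sk)) (.nx 623 32769 (.lg 0 false 2 79 79 23 0 7632) (.nr 624 16385 (.lg 0 false 1 83
  83 23 0 38160) .out)))) .out) .out)) (.na 638 234 (.nx 637 1048577 (.nr 636 1048577 (.nr 628 228
  .s1 (.nx 631 213 (.nx 630 212 (.nr 629 2412 (.l1 (.ls 17 37 200)) (.l1 .sk)) (.l1 .sk)) (.nx 634
  131073 (.nr 632 65537 (.lg 0 true 1 83 89 37 0 7632) (.nx 633 16385 (.lg 0 false 1 89 89 37 0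
  7632) .out)) (.nr 635 1025 (.lg 0 true 1 71 71 37 0 7632) .out)))) .out) .out) (.nx 648 1048577
  (.nr 647 1048577 (.nr 639 234 .s1 (.nx 645 131073 (.nx 641 212 (.nr 640 2619 (.l1 (.ls 29 37
  195)) (.l1 .sk)) (.nx 642 213 (.l1 .sk) (.nr 643 65537 (.lg 0 false 1 83 83 37 0 496080) (.nx 644
  16385 (.lg 0 false 1 83 83 37 0 99216) .out)))) (.nr 646 1025 (.lg 0 true 1 67 67 37 0 99216)
  .out))) .out) .out))) (.na 659 257 (.na 658 256 (.nx 657 1048577 (.nr 656 1048577 (.nr 650 254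
  .s1 (.nx 653 213 (.nx 652 212 (.nr 651 2639 (.l1 (.ls 19 23 179)) (.l1 .sk)) (.l1 .sk)) (.nx 654
  32769 (.lg 0 true 1 89 89 23 0 38160) (.nr 655 16385 (.lg 0 false 1 83 83 23 0 38160) .out))))
  .out) .out) .ne) (.na 1135 363 (.nx 1134 1048577 (.nr 1133 1482912 (.nr 660 257 .s1 (.nx 812 257
  (.nx 767 212 (.nr 766 3742 (.la (.ls 31 19 177)) (.l1 .sk)) (.nx 768 213 (.l1 .sk) (.lx (.lp 83
  17 91)))) (.nr 1132 1048577 (.nx 1025 131073 (.nx 918 20644 (.la (.lg 0 false 1 79 79 23 0)) (.nr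
  1024 32769 (.la (.lg 0 true 1 71 71 23 0)) .out)) (.nr 1131 2049 (.la (.lg 0 true 1 67 67 23 0))
  .out)) .out))) .out) .out) (.nx 1586 1048577 (.nr 1585 1482912 (.nr 1136 363 .s1 (.nx 1285 257
  (.la (.ls 79 23 184)) (.nr 1584 1048577 (.nr 1434 32769 (.la (.lg 0 true 1 79 79 23 0)) (.nx 1583
  20644 (.la (.lg 0 false 1 73 73 23 0)) .out)) .out))) .out) .out))))) (.na 9384 8192 (.na 4335
  2048 (.na 2879 1024 (.na 2277 725 (.nx 2276 1048577 (.nr 2275 1482912 (.nr 1588 512 .s1 (.nx 1803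
  213 (.nx 1802 212 (.nr 1801 7474 (.la (.ls 37 23 182)) (.l1 .sk)) (.l1 .sk)) (.nx 1847 257 (.lx
  (.lp 83 17 182)) (.nr 2274 1048577 (.nr 2060 32769 (.la (.lg 0 true 1 73 73 29 0)) (.nx 2273
  20644 (.la (.lg 0 false 1 71 71 29 0)) .out)) .out)))) .out) .out) (.nx 2878 13005 (.nr 2877
  1048577 (.nr 2278 725 .s1 (.nx 2577 2049 (.la (.ls 67 41 5793)) (.nr 2876 65537 (.la (.lg 0 false
  1 47 47 29 0)) .out))) .out) .out)) (.na 3733 1449 (.nx 3732 13005 (.nr 3731 1048577 (.nr 2880
  1024 .s1 (.nx 3305 3252 (.la (.ls 67 41 10330)) (.nr 3730 32769 (.la (.lg 0 false 1 37 37 31 0))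
  .out))) .out) .out) (.nx 4334 8193 (.nr 4333 1048577 (.nr 3734 1449 .s1 (.la (.ls 61 47 46328)))
  .out) .out))) (.na 6389 4096 (.na 5187 2897 (.nx 5186 8193 (.nr 5185 1048577 (.nr 4336 2048 .s1
  (.la (.ls 61 47 32779))) .out) .out) (.nx 6388 3252 (.nr 6387 524289 (.nr 5188 2897 .s1 (.la (.ls
  59 37 3653))) .out) .out)) (.na 8089 5793 (.nx 8088 3252 (.nr 8087 524289 (.nr 6390 4096 .s1 (.la
  (.ls 59 37 2584))) .out) .out) (.nx 9383 1292 (.nr 9382 262145 (.nr 8090 5793 .s1 (.nx 8903 814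
  (.lx (.lp 47 37 2049)) (.nr 9381 65537 (.lx (.lp 41 37 2049)) .out))) .out) .out)))) (.na 14562
  65536 (.na 11973 16384 (.na 10679 11586 (.nx 10678 1292 (.nr 10677 262145 (.nr 9385 8192 .s1 (.nx
  10198 814 (.lx (.lp 47 41 2897)) (.nr 10676 131073 (.lx (.lp 41 41 2897)) .out))) .out) .out)
  (.nx 11972 1292 (.nr 11971 131073 (.nr 10680 11586 .s1 (.lx (.lp 41 41 4097))) .out) .out)) (.na
  13268 32768 (.nx 13267 1292 (.nr 13266 262145 (.nr 11974 16384 .s1 (.nx 12230 257 (.lx (.lp 16 41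
  8193)) (.nr 13265 131073 (.lx (.lp 41 43 8193)) .out))) .out) .out) (.nx 14561 1292 (.nr 14560
  262145 (.nr 13269 32768 .s1 (.lx (.lp 41 47 16385))) .out) .out))) (.na 16372 262144 (.na 15857
  131072 (.nx 15856 1292 (.nr 15855 524289 (.nr 14563 65536 .s1 (.nx 14819 257 (.lx (.lp 16 0
  32769)) (.nr 15854 262145 (.lx (.lp 37 53 32769)) .out))) .out) .out) (.nx 16371 513 (.nr 16370
  524289 (.nr 15858 131072 .s1 (.lx (.lp 16 47 65537))) .out) .out)) (.na 16887 524288 (.nx 16886
  513 (.nr 16885 1048577 (.nr 16373 262144 .s1 (.lx (.lp 16 0 131073))) .out) .out) (.na 16889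
  1048577 (.nx 16888 257 (.l1 .sk) .out) .out)))))))

def T129_1 : Ph :=
  (.na 676 143 (.na 432 75 (.na 258 40 (.na 153 24 (.na 96 16 (.na 54 13 (.na 28 12 (.nx 27 660563
  (.nr 26 623489 (.nr 1 10 .s1 (.nx 13 6503 (.nx 5 103 (.nx 3 39 (.nr 2 53 (.lg 0 false 1 19 19 9 0
  102960) (.l1 .sk)) (.nx 4 40 (.l1 .sk) (.l1 (.ls 83 29 822)))) (.nr 12 131073 (.lg 0 false 7 83
  89 16 0 24024) .out)) (.nr 25 46342 (.nr 20 154 (.lg 0 true 7 71 71 16 0 24024) (.nx 24 41287
  (.lg 1 true 4 83 83 16 5425 20592) .out)) .out))) .out) .out) (.nx 53 660563 (.nr 52 623489 (.nr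
  29 11 .s1 (.nx 33 103 (.nx 31 39 (.nr 30 58 (.l1 (.ls 19 23 129)) (.l1 .sk)) (.nx 32 40 (.l1 .sk)
  (.l1 (.ls 83 37 753)))) (.nr 51 131073 (.nx 40 6503 (.lg 0 false 7 89 89 19 0 65520) (.nr 50
  46342 (.nr 47 154 (.lg 0 true 7 71 71 19 0 13104) (.nx 49 41287 (.lg 1 false 2 83 83 13 5425
  9360) .out)) .out)) .out))) .out) .out)) (.na 76 15 (.nx 75 660563 (.nr 74 623489 (.nr 55 12 .s1
  (.nx 61 6503 (.nx 56 103 (.l1 (.ls 73 29 819)) (.nr 60 131073 (.lg 0 true 4 83 83 11 0 624)
  .out)) (.nr 73 46342 (.nr 68 154 (.lg 0 true 7 61 61 16 0 2184) (.nx 72 41287 (.lg 1 false 4 73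
  73 11 5425 1872) .out)) .out))) .out) .out) (.nx 95 660563 (.nr 94 623489 (.nr 77 14 .s1 (.nx 80
  40 (.nx 79 39 (.nr 78 71 (.l1 (.ls 19 19 104)) (.l1 .sk)) (.l1 .sk)) (.nx 81 103 (.l1 (.ls 79 29
  603)) (.nr 93 131073 (.nx 85 6503 (.lg 0 false 4 89 89 16 0 9360) (.nr 92 46342 (.nr 89 154 (.lg
  0 true 4 71 71 16 0 9360) (.nx 91 41287 (.lg 1 false 2 83 83 16 5425 9360) .out)) .out)) .out))))
  .out) .out))) (.na 118 20 (.na 117 18 (.nx 116 660563 (.nr 115 623489 (.nr 97 15 .s1 (.nx 100 40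
  (.nx 99 39 (.nr 98 80 (.l1 (.ls 23 19 98)) (.l1 .sk)) (.l1 .sk)) (.nx 107 9411 (.nx 101 103 (.l1
  (.ls 83 29 566)) (.nr 106 131073 (.nx 104 3512 (.lg 0 false 3 83 83 13 0 1872) (.nr 105 77937
  (.lg 1 true 1 83 83 11 16888 1872) .out)) .out)) (.nr 114 46342 (.nr 112 257 (.lg 0 true 5 71 73
  17 0 3120) (.nx 113 41287 (.lg 1 false 1 89 89 11 3749 9360) .out)) .out)))) .out) .out) (.lg 0
  false 1 0 0 7 0 24)) (.na 137 22 (.nx 136 660563 (.nr 135 623489 (.nr 119 20 .s1 (.nx 126 6503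
  (.nx 121 39 (.nr 120 98 (.l1 (.ls 29 19 79)) (.l1 .sk)) (.nx 122 40 (.l1 .sk) (.nx 123 103 (.l1
  (.ls 83 31 453)) (.nr 125 131073 (.lg 0 true 2 89 89 17 0 3120) .out)))) (.nr 134 46342 (.nr 130
  257 (.lg 0 true 4 73 73 19 0 3120) (.nx 133 41287 (.lg 1 false 3 71 71 19 5425 9360) .out))
  .out))) .out) .out) (.na 152 23 (.nx 151 660563 (.nr 150 623489 (.nr 138 22 .s1 (.nx 139 103 (.l1
  (.ls 83 31 485)) (.nr 149 131073 (.nx 141 6503 (.lg 0 true 2 89 89 13 0 102960) (.nr 148 46342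
  (.nr 146 257 (.lg 0 true 5 71 71 19 0 34320) (.nx 147 41287 (.lg 1 false 1 89 89 9 5425 102960)
  .out)) .out)) .out))) .out) .out) .ne)))) (.na 201 30 (.na 184 26 (.na 167 25 (.nx 166 660563
  (.nr 165 131073 (.nr 154 24 .s1 (.nx 157 40 (.nx 156 39 (.nr 155 111 (.l1 (.ls 23 23 66)) (.l1
  .sk)) (.l1 .sk)) (.nx 159 6503 (.lg 0 false 2 83 83 19 0 1872) (.nr 164 32769 (.nr 162 257 (.lg 0
  true 3 71 71 23 0 1872) (.nx 163 41287 (.lg 1 false 1 83 83 13 3838 1872) .out)) .out)))) .out)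
  .out) (.nx 183 660563 (.nr 182 131073 (.nr 168 25 .s1 (.nx 171 40 (.nx 170 39 (.nr 169 116 (.l1
  (.ls 17 16 63)) (.l1 .sk)) (.l1 .sk)) (.nx 175 6503 (.lg 0 false 4 79 79 16 0 3120) (.nr 181
  32769 (.nr 179 257 (.lg 0 true 4 67 67 16 0 3120) (.nx 180 41287 (.lg 1 false 1 79 79 16 3838
  9360) .out)) .out)))) .out) .out)) (.na 200 27 (.nx 199 660563 (.nr 198 131073 (.nr 185 26 .s1
  (.nx 187 39 (.nr 186 120 (.lg 0 false 1 0 16 11 0 720720) (.l1 .sk)) (.nx 188 40 (.l1 .sk) (.nx
  195 41287 (.lg 0 false 7 83 83 11 0 4368) (.nr 197 257 (.lg 0 false 2 67 67 11 0 624) .out)))))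
  .out) .out) (.lg 0 false 1 0 0 7 0 24))) (.na 230 33 (.na 215 32 (.nx 214 660563 (.nr 213 131073
  (.nr 202 30 .s1 (.nx 205 40 (.nx 204 39 (.nr 203 143 (.l1 (.ls 19 23 53)) (.l1 .sk)) (.l1 .sk))
  (.nx 207 6503 (.lg 0 true 2 83 83 19 0 9360) (.nr 212 32769 (.nr 210 257 (.lg 0 true 3 67 67 23 0
  9360) (.nx 211 41287 (.lg 1 false 1 79 79 19 3838 9360) .out)) .out)))) .out) .out) (.nx 229
  660563 (.nr 228 262145 (.nr 216 32 .s1 (.nx 219 40 (.nx 218 39 (.nr 217 147 (.l1 (.ls 23 13 50))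
  (.l1 .sk)) (.l1 .sk)) (.nx 223 6503 (.nx 221 2582 (.lg 0 false 2 79 79 13 0 624) (.nr 222 55110
  (.lg 1 true 1 73 73 13 16247 9360) .out)) (.nr 227 32769 (.nr 225 257 (.lg 0 true 2 67 67 13 0
  624) (.nx 226 41287 (.lg 1 false 1 79 79 13 3838 9360) .out)) .out)))) .out) .out)) (.na 244 36
  (.nx 243 82572 (.nr 242 262145 (.nr 231 33 .s1 (.nx 238 2582 (.nx 233 39 (.nr 232 160 (.l1 (.ls
  19 17 49)) (.l1 .sk)) (.nx 234 40 (.l1 .sk) (.lg 0 false 4 79 79 17 0 102960))) (.nr 241 32769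
  (.nr 239 154 (.lg 0 false 1 59 59 16 0 10296) (.nx 240 41287 (.lg 1 false 1 83 83 16 9666 10296)
  .out)) .out))) .out) .out) (.na 245 39 (.lg 0 false 1 0 0 7 0 24) (.nx 257 82572 (.nr 256 262145
  (.nr 246 39 .s1 (.nx 248 39 (.nr 247 178 (.l1 (.ls 16 17 41)) (.l1 .sk)) (.nx 249 40 (.l1 .sk)
  (.nr 253 32769 (.lg 0 false 4 73 73 17 0 1872) (.nx 255 2582 (.lg 0 true 2 71 71 16 0 1872)
  .out))))) .out) .out)))))) (.na 345 54 (.na 303 45 (.na 281 43 (.na 270 41 (.nx 269 82572 (.nr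
  268 262145 (.nr 259 40 .s1 (.nx 261 39 (.nr 260 183 (.l1 (.ls 29 19 41)) (.l1 .sk)) (.nx 262 40
  (.l1 .sk) (.nr 266 32769 (.nx 263 10324 (.lg 0 true 1 79 79 19 0 3120) (.nr 264 516 (.lg 0 true 1
  71 71 19 0 3120) (.nx 265 41287 (.lg 1 true 1 79 79 19 2417 9360) .out))) (.nx 267 2582 (.lg 0
  false 1 89 89 19 0 3120) .out))))) .out) .out) (.nx 280 82572 (.nr 279 262145 (.nr 271 41 .s1
  (.nx 274 40 (.nx 273 39 (.nr 272 192 (.l1 (.ls 17 16 40)) (.l1 .sk)) (.l1 .sk)) (.nx 275 2582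
  (.lg 0 true 1 83 83 16 0 312) (.nr 278 32769 (.nr 276 154 (.lg 0 false 1 59 59 16 0 312) (.nx 277
  41287 (.lg 1 false 1 83 83 16 9666 936) .out)) .out)))) .out) .out)) (.na 292 44 (.nx 291 82572
  (.nr 290 262145 (.nr 282 43 .s1 (.nx 285 40 (.nx 284 39 (.nr 283 196 (.l1 (.ls 17 16 38)) (.l1
  .sk)) (.l1 .sk)) (.nx 286 2582 (.lg 0 true 1 83 83 16 0 312) (.nr 289 32769 (.nr 287 154 (.lg 0
  true 1 53 53 16 0 312) (.nx 288 41287 (.lg 1 false 1 83 83 16 9666 9360) .out)) .out)))) .out)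
  .out) (.nx 302 82572 (.nr 301 262145 (.nr 293 44 .s1 (.nx 295 39 (.nr 294 200 (.l1 (.ls 23 19
  37)) (.l1 .sk)) (.nx 296 40 (.l1 .sk) (.nx 297 2582 (.lg 0 true 1 83 83 19 0 6864) (.nr 300 32769
  (.nr 298 154 (.lg 0 true 1 59 59 19 0 6864) (.nx 299 41287 (.lg 1 false 1 83 83 19 9666 20592)
  .out)) .out))))) .out) .out))) (.na 314 48 (.na 304 47 (.lg 0 false 1 0 0 16 0 24) (.nx 313 82572
  (.nr 312 262145 (.nr 305 47 .s1 (.nx 308 40 (.nx 307 39 (.nr 306 214 (.l1 (.ls 17 16 35)) (.l1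
  .sk)) (.l1 .sk)) (.nr 310 32769 (.lg 0 false 2 89 89 16 0 9360) (.nx 311 2582 (.lg 0 true 1 83 83
  16 0 312) .out)))) .out) .out)) (.na 325 50 (.nx 324 82572 (.nr 323 262145 (.nr 315 48 .s1 (.nx
  319 2582 (.nx 317 39 (.nr 316 223 (.l1 (.ls 23 19 34)) (.l1 .sk)) (.nx 318 40 (.l1 .sk) (.lg 0
  true 1 83 83 19 0 9360))) (.nr 322 32769 (.nr 320 154 (.lg 0 true 1 53 53 19 0 1872) (.nx 321
  41287 (.lg 1 false 1 83 83 19 9666 9360) .out)) .out))) .out) .out) (.na 335 52 (.nx 334 82572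
  (.nr 333 262145 (.nr 326 50 .s1 (.nx 328 39 (.nr 327 232 (.l1 (.ls 17 19 33)) (.l1 .sk)) (.nx 329
  40 (.l1 .sk) (.nr 331 32769 (.lg 0 false 2 83 83 19 0 3120) (.nx 332 2582 (.lg 0 true 1 79 79 13
  0 9360) .out))))) .out) .out) (.nx 344 82572 (.nr 343 262145 (.nr 336 52 .s1 (.nx 338 39 (.nr 337
  240 (.l1 (.ls 17 19 32)) (.l1 .sk)) (.nx 339 40 (.l1 .sk) (.nr 341 32769 (.lg 0 false 2 83 83 19
  0 9360) (.nx 342 2582 (.lg 0 true 1 79 79 11 0 9360) .out))))) .out) .out))))) (.na 388 64 (.na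
  357 59 (.na 346 55 (.lg 0 false 1 0 0 16 0 24) (.nx 356 82572 (.nr 355 262145 (.nr 347 55 .s1
  (.nx 353 41287 (.nx 349 39 (.nr 348 263 (.l1 (.ls 23 16 30)) (.l1 .sk)) (.nx 350 40 (.l1 .sk)
  (.nr 351 32769 (.lg 0 false 1 83 83 17 0 17160) (.nx 352 2582 (.lg 0 false 1 79 79 17 0 17160)
  .out)))) (.nr 354 154 (.lg 0 true 1 53 53 17 0 17160) .out))) .out) .out)) (.na 367 60 (.nx 366
  82572 (.nr 365 262145 (.nr 358 59 .s1 (.nx 360 39 (.nr 359 267 (.l1 (.ls 16 16 28)) (.l1 .sk))
  (.nx 361 40 (.l1 .sk) (.nr 363 32769 (.lg 0 false 2 83 83 16 0 624) (.nx 364 2582 (.lg 0 true 1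
  73 73 16 0 312) .out))))) .out) .out) (.na 378 61 (.nx 377 82572 (.nr 376 262145 (.nr 368 60 .s1
  (.nx 371 40 (.nx 370 39 (.nr 369 272 (.l1 (.ls 23 23 28)) (.l1 .sk)) (.l1 .sk)) (.nr 374 32769
  (.nx 372 41287 (.lg 0 false 1 83 83 23 0 9360) (.nr 373 154 (.lg 0 true 1 47 47 23 0 9360) .out))
  (.nx 375 2582 (.lg 0 false 1 79 79 23 0 9360) .out)))) .out) .out) (.nx 387 82572 (.nr 386 262145
  (.nr 379 61 .s1 (.nx 381 39 (.nr 380 285 (.l1 (.ls 16 16 27)) (.l1 .sk)) (.nx 382 40 (.l1 .sk)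
  (.nr 384 32769 (.lg 0 false 2 83 83 16 0 624) (.nx 385 2582 (.lg 0 true 1 79 79 16 0 312)
  .out))))) .out) .out)))) (.na 411 66 (.na 398 65 (.nx 397 82572 (.nr 396 524289 (.nr 389 64 .s1
  (.nx 392 6503 (.nx 390 647 (.l1 (.ls 73 43 6543)) (.nr 391 262145 (.lg 0 true 1 83 83 17 0 624)
  .out)) (.nr 395 65537 (.nr 393 257 (.lg 0 true 1 53 53 17 0 624) (.nx 394 41287 (.lg 1 true 1 73
  73 17 7670 1872) .out)) .out))) .out) .out) (.nx 410 82572 (.nr 409 524289 (.nr 399 65 .s1 (.nx
  402 40 (.nx 401 39 (.nr 400 294 (.l1 (.ls 16 16 26)) (.l1 .sk)) (.l1 .sk)) (.nx 406 6503 (.lg 0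
  false 4 73 73 19 0 3120) (.nr 408 65537 (.lg 1 false 2 79 79 17 24772 9360) .out)))) .out) .out))
  (.na 419 71 (.nx 418 82572 (.nr 417 524289 (.nr 412 66 .s1 (.nx 415 6503 (.nx 413 647 (.l1 (.ls
  73 53 6345)) (.nr 414 262145 (.lg 0 true 1 83 83 23 0 102960) .out)) (.nr 416 65537 (.lg 1 false
  1 83 83 23 24397 20592) .out))) .out) .out) (.na 431 72 (.nx 430 82572 (.nr 429 524289 (.nr 420
  71 .s1 (.nx 427 6503 (.nx 422 39 (.nr 421 320 (.l1 (.ls 16 16 24)) (.l1 .sk)) (.nx 423 40 (.l1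
  .sk) (.lg 0 false 4 79 79 16 0 624))) (.nr 428 65537 (.lg 1 false 1 83 83 16 22679 936) .out)))
  .out) .out) (.lg 0 false 1 0 0 16 0 24))))))) (.na 555 110 (.na 503 89 (.na 468 81 (.na 450 79
  (.na 440 78 (.nx 439 82572 (.nr 438 524289 (.nr 433 75 .s1 (.nx 436 6503 (.nx 434 647 (.l1 (.ls
  71 43 5584)) (.nr 435 262145 (.lg 0 true 1 79 79 17 0 4680) .out)) (.nr 437 65537 (.lg 1 false 1
  79 79 17 21469 4680) .out))) .out) .out) (.nx 449 82572 (.nr 448 524289 (.nr 441 78 .s1 (.nx 442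
  647 (.l1 (.ls 67 53 5369)) (.nr 447 262145 (.lg 0 false 5 83 83 29 0 9360) .out))) .out) .out))
  (.na 458 80 (.nx 457 82572 (.nr 456 524289 (.nr 451 79 .s1 (.nx 454 6503 (.nx 452 647 (.l1 (.ls
  67 37 5301)) (.nr 453 262145 (.lg 0 true 1 79 79 16 0 312) .out)) (.nr 455 65537 (.lg 1 false 1
  83 83 16 20382 936) .out))) .out) .out) (.nx 467 82572 (.nr 466 524289 (.nr 459 80 .s1 (.nx 460
  647 (.l1 (.ls 79 47 5235)) (.nr 465 262145 (.nx 461 6503 (.lg 0 false 1 89 89 23 0 9360) (.nr 464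
  65537 (.nr 462 257 (.lg 0 true 1 59 59 23 0 3120) (.nx 463 41287 (.lg 1 true 1 79 79 23 7670
  9360) .out)) .out)) .out))) .out) .out))) (.na 477 83 (.na 469 82 (.lg 0 false 1 0 0 16 0 24)
  (.nx 476 82572 (.nr 475 524289 (.nr 470 82 .s1 (.nx 471 647 (.l1 (.ls 73 47 5107)) (.nr 474
  262145 (.nx 472 6503 (.lg 0 true 1 83 83 13 0 9360) (.nr 473 65537 (.lg 1 false 1 83 83 13 19637
  9360) .out)) .out))) .out) .out)) (.na 485 86 (.nx 484 82572 (.nr 483 524289 (.nr 478 83 .s1 (.nx
  481 6503 (.nx 479 647 (.l1 (.ls 67 37 5046)) (.nr 480 262145 (.lg 0 true 1 73 73 16 0 312) .out))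
  (.nr 482 65537 (.lg 1 false 1 83 83 16 19400 9360) .out))) .out) .out) (.na 493 88 (.nx 492 82572
  (.nr 491 524289 (.nr 486 86 .s1 (.nx 489 6503 (.nx 487 647 (.l1 (.ls 73 41 4870)) (.nr 488 262145
  (.lg 0 true 1 83 83 13 0 624) .out)) (.nr 490 65537 (.lg 1 false 1 83 83 13 18723 1872) .out)))
  .out) .out) (.nx 502 82572 (.nr 501 524289 (.nr 494 88 .s1 (.nx 499 41287 (.nx 495 647 (.l1 (.ls
  79 47 4759)) (.nr 498 262145 (.nx 496 6503 (.lg 0 false 1 89 89 29 0 102960) (.nr 497 65537 (.lg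
  1 true 1 79 79 29 9149 102960) .out)) .out)) (.nr 500 257 (.lg 0 true 1 53 59 29 0 102960)
  .out))) .out) .out))))) (.na 528 99 (.na 512 94 (.na 511 90 (.nx 510 82572 (.nr 509 524289 (.nr
  504 89 .s1 (.nx 505 647 (.l1 (.ls 67 37 4706)) (.nr 508 262145 (.nx 506 6503 (.lg 0 true 1 73 73
  16 0 312) (.nr 507 65537 (.lg 1 false 1 73 73 16 18092 936) .out)) .out))) .out) .out) (.lg 0
  false 1 0 0 16 0 24)) (.na 520 96 (.nx 519 82572 (.nr 518 524289 (.nr 513 94 .s1 (.nx 516 6503
  (.nx 514 647 (.l1 (.ls 71 43 4456)) (.nr 515 262145 (.lg 0 true 1 79 79 17 0 624) .out)) (.nr 517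
  65537 (.lg 1 false 1 79 79 17 17130 1872) .out))) .out) .out) (.nx 527 82572 (.nr 526 524289 (.nr
  521 96 .s1 (.nx 522 647 (.l1 (.ls 73 47 4363)) (.nr 525 262145 (.nx 523 6503 (.lg 0 false 1 79 79
  23 0 1872) (.nr 524 65537 (.lg 1 false 1 79 79 23 16773 1872) .out)) .out))) .out) .out))) (.na
  537 103 (.na 529 100 (.lg 0 false 1 0 0 16 0 24) (.nx 536 82572 (.nr 535 524289 (.nr 530 100 .s1
  (.nx 533 6503 (.nx 531 647 (.l1 (.ls 73 43 4189)) (.nr 532 262145 (.lg 0 false 1 79 79 23 0 3120)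
  .out)) (.nr 534 65537 (.lg 1 false 1 79 79 23 16102 9360) .out))) .out) .out)) (.na 546 104 (.nx
  545 82572 (.nr 544 524289 (.nr 538 103 .s1 (.nx 542 6503 (.nx 540 39 (.nr 539 463 (.l1 (.ls 16 16
  27)) (.l1 .sk)) (.nx 541 40 (.l1 .sk) (.lg 0 true 1 79 79 16 0 312))) (.nr 543 65537 (.lg 1 false
  1 71 71 16 15633 936) .out))) .out) .out) (.na 554 108 (.nx 553 82572 (.nr 552 524289 (.nr 547
  104 .s1 (.nx 550 6503 (.nx 548 647 (.l1 (.ls 71 43 4028)) (.nr 549 262145 (.lg 0 false 1 73 73 23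
  0 624) .out)) (.nr 551 65537 (.lg 1 false 1 79 79 23 15483 1872) .out))) .out) .out) (.lg 0 false
  1 0 0 16 0 24)))))) (.na 624 128 (.na 580 121 (.na 564 118 (.na 563 117 (.nx 562 82572 (.nr 561
  524289 (.nr 556 110 .s1 (.nx 559 6503 (.nx 557 647 (.l1 (.ls 73 47 3808)) (.nr 558 262145 (.lg 0
  true 1 83 83 29 0 102960) .out)) (.nr 560 65537 (.lg 1 false 1 79 79 29 14638 102960) .out)))
  .out) .out) (.lg 0 false 1 0 0 16 0 24)) (.na 572 120 (.nx 571 82572 (.nr 570 524289 (.nr 565 118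
  .s1 (.nx 568 6503 (.nx 566 647 (.l1 (.ls 71 41 3550)) (.nr 567 262145 (.lg 0 true 1 79 79 19 0
  9360) .out)) (.nr 569 65537 (.lg 1 false 1 79 79 19 13646 9360) .out))) .out) .out) (.nx 579
  82572 (.nr 578 524289 (.nr 573 120 .s1 (.nx 576 6503 (.nx 574 647 (.l1 (.ls 79 47 3491)) (.nr 575
  262145 (.lg 0 false 1 83 83 31 0 9360) .out)) (.nr 577 65537 (.lg 1 true 1 83 83 31 13418 9360)
  .out))) .out) .out))) (.na 598 123 (.na 589 122 (.nx 588 82572 (.nr 587 524289 (.nr 581 121 .s1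
  (.nx 585 6503 (.nx 583 39 (.nr 582 543 (.l1 (.ls 17 16 31)) (.l1 .sk)) (.nx 584 40 (.l1 .sk) (.lg
  0 true 1 79 79 17 0 3432))) (.nr 586 65537 (.lg 1 false 1 71 71 17 13308 10296) .out))) .out)
  .out) (.nx 597 82572 (.nr 596 524289 (.nr 590 122 .s1 (.nx 594 6503 (.nx 592 39 (.nr 591 547 (.l1
  (.ls 16 13 31)) (.l1 .sk)) (.nx 593 40 (.l1 .sk) (.lg 0 true 1 79 79 19 0 624))) (.nr 595 65537
  (.lg 1 false 1 73 73 19 13198 9360) .out))) .out) .out)) (.na 607 125 (.nx 606 82572 (.nr 605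
  524289 (.nr 599 123 .s1 (.nx 600 647 (.l1 (.ls 71 37 3406)) (.nr 604 262145 (.nx 602 41287 (.lg 0
  false 2 83 83 17 0 1872) (.nr 603 257 (.lg 0 true 1 41 41 17 0 936) .out)) .out))) .out) .out)
  (.na 615 127 (.nx 614 82572 (.nr 613 524289 (.nr 608 125 .s1 (.nx 611 6503 (.nx 609 647 (.l1 (.ls
  67 37 3351)) (.nr 610 262145 (.lg 0 true 1 71 71 16 0 1560) .out)) (.nr 612 65537 (.lg 1 false 1
  71 71 16 12882 9360) .out))) .out) .out) (.nx 623 82572 (.nr 622 524289 (.nr 616 127 .s1 (.nx 619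
  40 (.nx 618 39 (.nr 617 569 (.l1 (.ls 17 16 33)) (.l1 .sk)) (.l1 .sk)) (.nx 620 6503 (.lg 0 true
  1 73 73 16 0 312) (.nr 621 65537 (.lg 1 false 1 71 71 16 12679 9360) .out)))) .out) .out)))))
  (.na 651 135 (.na 638 130 (.na 632 129 (.nx 631 82572 (.nr 630 1048577 (.nr 625 128 .s1 (.nx 626
  647 (.l1 (.ls 73 41 3273)) (.nr 629 262145 (.nx 627 6503 (.lg 0 false 1 73 73 19 0 624) (.nr 628
  131073 (.lg 1 true 1 73 73 19 15335 1872) .out)) .out))) .out) .out) (.nx 637 41287 (.nr 636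
  1048577 (.nr 633 129 .s1 (.nx 634 647 (.l1 (.ls 73 37 3248)) (.nr 635 131073 (.lg 0 true 1 83 83
  17 0 936) .out))) .out) .out)) (.na 644 131 (.nx 643 41287 (.nr 642 1048577 (.nr 639 130 .s1 (.nx
  640 647 (.l1 (.ls 71 47 3223)) (.nr 641 131073 (.lg 0 true 1 79 79 29 0 3120) .out))) .out) .out)
  (.na 645 132 (.lg 0 false 1 0 0 16 0 24) (.nx 650 41287 (.nr 649 1048577 (.nr 646 132 .s1 (.nx
  647 647 (.l1 (.ls 79 47 3174)) (.nr 648 131073 (.lg 0 true 1 89 89 31 0 102960) .out))) .out)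
  .out)))) (.na 658 139 (.na 652 137 (.lg 0 false 1 0 0 16 0 24) (.nx 657 41287 (.nr 656 1048577
  (.nr 653 137 .s1 (.nx 654 647 (.l1 (.ls 67 31 3058)) (.nr 655 131073 (.lg 0 true 1 73 73 16 0
  312) .out))) .out) .out)) (.na 664 141 (.nx 663 41287 (.nr 662 1048577 (.nr 659 139 .s1 (.nx 660
  647 (.l1 (.ls 67 31 3014)) (.nr 661 131073 (.lg 0 true 1 79 79 16 0 312) .out))) .out) .out) (.na
  670 142 (.nx 669 41287 (.nr 668 1048577 (.nr 665 141 .s1 (.nx 666 647 (.l1 (.ls 73 37 2971)) (.nr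
  667 131073 (.lg 0 true 1 83 83 17 0 936) .out))) .out) .out) (.nx 675 41287 (.nr 674 1048577 (.nr
  671 142 .s1 (.nx 672 647 (.l1 (.ls 67 41 2950)) (.nr 673 131073 (.lg 0 true 1 83 83 19 0 9360)
  .out))) .out) .out)))))))) (.na 843 211 (.na 754 176 (.na 720 162 (.na 695 151 (.na 683 149 (.na
  682 144 (.nx 681 41287 (.nr 680 1048577 (.nr 677 143 .s1 (.nx 678 647 (.l1 (.ls 71 41 2930)) (.nr
  679 131073 (.lg 0 true 1 79 79 19 0 3432) .out))) .out) .out) (.lg 0 false 1 0 0 16 0 24)) (.na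
  689 150 (.nx 688 41287 (.nr 687 1048577 (.nr 684 149 .s1 (.nx 685 647 (.l1 (.ls 67 31 2812)) (.nr
  686 131073 (.lg 0 true 1 73 73 16 0 312) .out))) .out) .out) (.nx 694 41287 (.nr 693 1048577 (.nr
  690 150 .s1 (.nx 691 647 (.l1 (.ls 71 47 2793)) (.nr 692 131073 (.lg 0 true 1 79 79 29 0 9360)
  .out))) .out) .out))) (.na 702 157 (.na 696 156 (.lg 0 false 1 0 0 16 0 24) (.nx 701 41287 (.nr
  700 1048577 (.nr 697 156 .s1 (.nx 698 647 (.l1 (.ls 71 47 2686)) (.nr 699 131073 (.lg 0 true 1 79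
  79 29 0 1872) .out))) .out) .out)) (.na 708 158 (.nx 707 41287 (.nr 706 1048577 (.nr 703 157 .s1
  (.nx 704 647 (.l1 (.ls 67 31 2669)) (.nr 705 131073 (.lg 0 true 1 73 73 16 0 312) .out))) .out)
  .out) (.na 714 160 (.nx 713 41287 (.nr 712 1048577 (.nr 709 158 .s1 (.nx 710 647 (.l1 (.ls 67 41
  2652)) (.nr 711 131073 (.lg 0 true 1 79 79 19 0 624) .out))) .out) .out) (.nx 719 41287 (.nr 718
  1048577 (.nr 715 160 .s1 (.nx 716 647 (.l1 (.ls 79 43 2619)) (.nr 717 131073 (.lg 0 false 1 89 89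
  29 0 9360) .out))) .out) .out))))) (.na 734 166 (.na 722 164 (.na 721 163 (.lg 0 false 1 0 0 16 0
  24) (.lg 0 false 1 0 0 16 0 24)) (.na 728 165 (.nx 727 41287 (.nr 726 1048577 (.nr 723 164 .s1
  (.nx 724 647 (.l1 (.ls 73 37 2555)) (.nr 725 131073 (.lg 0 false 1 83 83 23 0 624) .out))) .out)
  .out) (.nx 733 41287 (.nr 732 1048577 (.nr 729 165 .s1 (.nx 730 647 (.l1 (.ls 73 43 2540)) (.nr
  731 131073 (.lg 0 true 1 83 83 29 0 51480) .out))) .out) .out))) (.na 746 169 (.na 740 167 (.nx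
  739 41287 (.nr 738 1048577 (.nr 735 166 .s1 (.nx 736 647 (.l1 (.ls 67 41 2524)) (.nr 737 131073
  (.lg 0 true 1 73 73 19 0 624) .out))) .out) .out) (.nx 745 41287 (.nr 744 1048577 (.nr 741 167
  .s1 (.nx 742 647 (.l1 (.ls 67 31 2509)) (.nr 743 131073 (.lg 0 true 1 73 73 16 0 312) .out)))
  .out) .out)) (.na 747 172 (.lg 0 false 1 0 0 16 0 24) (.na 753 173 (.nx 752 41287 (.nr 751
  1048577 (.nr 748 172 .s1 (.nx 749 647 (.l1 (.ls 73 41 2436)) (.nr 750 131073 (.lg 0 false 1 83 83
  23 0 624) .out))) .out) .out) (.lg 0 false 1 0 0 16 0 24)))))) (.na 793 192 (.na 773 180 (.na 766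
  178 (.na 760 177 (.nx 759 41287 (.nr 758 1048577 (.nr 755 176 .s1 (.nx 756 647 (.l1 (.ls 79 43
  2381)) (.nr 757 131073 (.lg 0 false 1 89 97 31 0 102960) .out))) .out) .out) (.nx 765 41287 (.nr
  764 1048577 (.nr 761 177 .s1 (.nx 762 647 (.l1 (.ls 71 37 2368)) (.nr 763 131073 (.lg 0 true 1 79
  79 17 0 936) .out))) .out) .out)) (.na 772 179 (.nx 771 41287 (.nr 770 1048577 (.nr 767 178 .s1
  (.nx 768 647 (.l1 (.ls 67 41 2354)) (.nr 769 131073 (.lg 0 true 1 73 73 19 0 624) .out))) .out)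
  .out) (.lg 0 false 1 0 0 16 0 24))) (.na 780 183 (.na 774 181 (.lg 0 false 1 0 0 16 0 24) (.nx
  779 41287 (.nr 778 1048577 (.nr 775 181 .s1 (.nx 776 647 (.l1 (.ls 67 31 2315)) (.nr 777 131073
  (.lg 0 true 1 73 73 16 0 312) .out))) .out) .out)) (.na 786 188 (.nx 785 41287 (.nr 784 1048577
  (.nr 781 183 .s1 (.nx 782 647 (.l1 (.ls 59 37 2290)) (.nr 783 131073 (.lg 0 true 1 79 79 17 0
  936) .out))) .out) .out) (.na 792 191 (.nx 791 41287 (.nr 790 1048577 (.nr 787 188 .s1 (.nx 788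
  647 (.l1 (.ls 79 41 2229)) (.nr 789 131073 (.lg 0 false 1 83 83 23 0 624) .out))) .out) .out)
  (.lg 0 false 1 0 0 16 0 24))))) (.na 813 199 (.na 800 195 (.na 799 193 (.nx 798 41287 (.nr 797
  1048577 (.nr 794 192 .s1 (.nx 795 647 (.l1 (.ls 73 43 2183)) (.nr 796 131073 (.lg 0 false 1 79 79
  29 0 9360) .out))) .out) .out) (.lg 0 false 1 0 0 16 0 24)) (.na 806 197 (.nx 805 41287 (.nr 804
  1048577 (.nr 801 195 .s1 (.nx 802 647 (.l1 (.ls 71 41 2149)) (.nr 803 131073 (.lg 0 true 1 73 73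
  23 0 4680) .out))) .out) .out) (.na 812 198 (.nx 811 41287 (.nr 810 1048577 (.nr 807 197 .s1 (.nx
  808 647 (.l1 (.ls 67 29 2127)) (.nr 809 131073 (.lg 0 true 1 73 73 16 0 312) .out))) .out) .out)
  (.lg 0 false 1 0 0 16 0 24)))) (.na 825 205 (.na 819 200 (.nx 818 41287 (.nr 817 1048577 (.nr 814
  199 .s1 (.nx 815 647 (.l1 (.ls 61 29 2106)) (.nr 816 131073 (.lg 0 true 1 71 71 16 0 312) .out)))
  .out) .out) (.nx 824 41287 (.nr 823 1048577 (.nr 820 200 .s1 (.nx 821 647 (.l1 (.ls 79 41 2096))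
  (.nr 822 131073 (.lg 0 false 1 89 89 31 0 102960) .out))) .out) .out)) (.na 831 206 (.nx 830
  41287 (.nr 829 1048577 (.nr 826 205 .s1 (.nx 827 647 (.l1 (.ls 73 31 2044)) (.nr 828 131073 (.lg
  0 false 1 79 79 19 0 1560) .out))) .out) .out) (.na 837 208 (.nx 836 41287 (.nr 835 1048577 (.nr
  832 206 .s1 (.nx 833 647 (.l1 (.ls 67 37 2035)) (.nr 834 131073 (.lg 0 true 1 73 73 23 0 9360)
  .out))) .out) .out) (.nx 842 41287 (.nr 841 1048577 (.nr 838 208 .s1 (.nx 839 647 (.l1 (.ls 71 41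
  2015)) (.nr 840 131073 (.lg 0 false 1 79 79 29 0 624) .out))) .out) .out))))))) (.na 917 244 (.na
  877 233 (.na 862 220 (.na 855 215 (.na 849 213 (.nx 848 41287 (.nr 847 1048577 (.nr 844 211 .s1
  (.nx 845 647 (.l1 (.ls 67 29 1986)) (.nr 846 131073 (.lg 0 true 1 73 73 16 0 312) .out))) .out)
  .out) (.nx 854 41287 (.nr 853 1048577 (.nr 850 213 .s1 (.nx 851 647 (.l1 (.ls 67 37 1968)) (.nr
  852 131073 (.lg 0 true 1 73 73 19 0 936) .out))) .out) .out)) (.na 861 216 (.nx 860 41287 (.nr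
  859 1048577 (.nr 856 215 .s1 (.nx 857 647 (.l1 (.ls 73 31 1950)) (.nr 858 131073 (.lg 0 false 1
  79 79 19 0 1560) .out))) .out) .out) (.lg 0 false 1 0 0 16 0 24))) (.na 869 225 (.na 868 223 (.nx
  867 41287 (.nr 866 1048577 (.nr 863 220 .s1 (.nx 864 647 (.l1 (.ls 79 43 1905)) (.nr 865 131073
  (.lg 0 false 1 83 89 37 0 102960) .out))) .out) .out) (.lg 0 false 1 0 0 16 0 24)) (.na 870 227
  (.lg 0 false 1 0 0 16 0 24) (.na 876 229 (.nx 875 41287 (.nr 874 1048577 (.nr 871 227 .s1 (.nx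
  872 647 (.l1 (.ls 61 29 1847)) (.nr 873 131073 (.lg 0 true 1 71 71 17 0 312) .out))) .out) .out)
  (.lg 0 false 1 0 0 16 0 24))))) (.na 897 239 (.na 879 235 (.na 878 234 (.lg 0 false 1 0 0 16 0
  24) (.lg 0 false 1 0 0 16 0 24)) (.na 885 236 (.nx 884 41287 (.nr 883 1048577 (.nr 880 235 .s1
  (.nx 881 647 (.l1 (.ls 73 31 1784)) (.nr 882 131073 (.lg 0 false 1 79 79 19 0 1560) .out))) .out)
  .out) (.na 891 237 (.nx 890 41287 (.nr 889 1048577 (.nr 886 236 .s1 (.nx 887 647 (.l1 (.ls 73 37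
  1776)) (.nr 888 131073 (.lg 0 false 1 79 79 23 0 624) .out))) .out) .out) (.nx 896 41287 (.nr 895
  1048577 (.nr 892 237 .s1 (.nx 893 647 (.l1 (.ls 67 31 1769)) (.nr 894 131073 (.lg 0 true 1 71 71
  19 0 936) .out))) .out) .out)))) (.na 909 241 (.na 903 240 (.nx 902 41287 (.nr 901 1048577 (.nr
  898 239 .s1 (.nx 899 647 (.l1 (.ls 67 29 1754)) (.nr 900 131073 (.lg 0 true 1 71 71 17 0 312)
  .out))) .out) .out) (.nx 908 41287 (.nr 907 1048577 (.nr 904 240 .s1 (.nx 905 647 (.l1 (.ls 79 43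
  1747)) (.nr 906 131073 (.lg 0 false 1 83 83 37 0 9360) .out))) .out) .out)) (.na 910 242 (.lg 0
  false 1 0 0 16 0 24) (.na 916 243 (.nx 915 41287 (.nr 914 1048577 (.nr 911 242 .s1 (.nx 912 647
  (.l1 (.ls 67 41 1732)) (.nr 913 131073 (.lg 0 true 1 73 73 29 0 102960) .out))) .out) .out) (.lg
  0 false 1 0 0 16 0 24)))))) (.na 1508 725 (.na 941 251 (.na 929 249 (.na 923 246 (.nx 922 41287
  (.nr 921 1048577 (.nr 918 244 .s1 (.nx 919 647 (.l1 (.ls 59 37 1718)) (.nr 920 131073 (.lg 0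
  false 1 79 79 23 0 624) .out))) .out) .out) (.nx 928 41287 (.nr 927 1048577 (.nr 924 246 .s1 (.nx
  925 647 (.l1 (.ls 71 43 1704)) (.nr 926 131073 (.lg 0 true 1 79 79 29 0 9360) .out))) .out)
  .out)) (.na 935 250 (.nx 934 41287 (.nr 933 1048577 (.nr 930 249 .s1 (.nx 931 647 (.l1 (.ls 61 31
  1684)) (.nr 932 131073 (.lg 0 true 1 71 71 19 0 936) .out))) .out) .out) (.nx 940 41287 (.nr 939
  1048577 (.nr 936 250 .s1 (.nx 937 647 (.l1 (.ls 67 41 1677)) (.nr 938 131073 (.lg 0 true 1 73 73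
  29 0 9360) .out))) .out) .out))) (.na 948 256 (.na 942 254 (.lg 0 false 1 0 0 16 0 24) (.nx 947
  41287 (.nr 946 1048577 (.nr 943 254 .s1 (.nx 944 647 (.l1 (.ls 67 37 1651)) (.nr 945 131073 (.lg
  0 true 1 71 71 23 0 624) .out))) .out) .out)) (.na 954 257 (.nx 953 41287 (.nr 952 1048577 (.nr
  949 256 .s1 (.nx 950 647 (.l1 (.ls 71 37 1638)) (.nr 951 262145 (.lg 0 false 1 79 79 29 0 624)
  .out))) .out) .out) (.na 1252 512 (.nx 1251 41287 (.nr 1250 262145 (.nr 955 257 .s1 (.nx 995 40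
  (.nx 994 39 (.nr 993 2276 (.lx (.lp 16 17 129)) (.l1 .sk)) (.l1 .sk)) (.la (.lg 0 false 1 73 73
  23 0)))) .out) .out) (.nx 1507 41287 (.nr 1506 262145 (.nr 1253 512 .s1 (.nx 1292 39 (.nr 1291
  3223 (.lx (.lp 16 17 182)) (.l1 .sk)) (.nx 1293 40 (.l1 .sk) (.la (.lg 0 false 1 71 71 29 0)))))
  .out) .out))))) (.na 2806 4096 (.na 2028 1449 (.na 1768 1024 (.nx 1767 257 (.nr 1766 65537 (.nr
  1509 725 .s1 (.nx 1637 129 (.lx (.lp 61 23 257)) (.nr 1765 8193 (.lx (.lp 43 23 257)) .out)))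
  .out) .out) (.nx 2027 257 (.nr 2026 65537 (.nr 1769 1024 .s1 (.nx 1897 129 (.lx (.lp 59 23 363))
  (.nr 2025 8193 (.lx (.lp 43 23 363)) .out))) .out) .out)) (.na 2287 2048 (.nx 2286 257 (.nr 2285
  16385 (.nr 2029 1449 .s1 (.lx (.lp 47 29 513))) .out) .out) (.na 2547 2897 (.nx 2546 257 (.nr
  2545 32769 (.nr 2288 2048 .s1 (.nx 2390 103 (.lx (.lp 53 29 725)) (.nr 2544 16385 (.lx (.lp 43 29
  725)) .out))) .out) .out) (.nx 2805 257 (.nr 2804 32769 (.nr 2548 2897 .s1 (.lx (.lp 47 31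
  1025))) .out) .out)))) (.na 3170 8192 (.na 3065 5793 (.nx 3064 257 (.nr 3063 32769 (.nr 2807 4096
  .s1 (.lx (.lp 43 37 1449))) .out) .out) (.nx 3169 103 (.nr 3168 32769 (.nr 3066 5793 .s1 (.lx
  (.lp 41 31 2049))) .out) .out)) (.na 3275 16384 (.nx 3274 103 (.nr 3273 32769 (.nr 3171 8192 .s1
  (.lx (.lp 37 37 4097))) .out) .out) (.na 3277 32769 (.nx 3276 103 (.l1 .sk) .out) .out))))))))

def T129_2 : Ph :=
  (.na 339 199 (.na 211 128 (.na 97 94 (.na 42 67 (.na 20 62 (.nx 19 2642247 (.nr 18 881745 (.nr 1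
  60 .s1 (.nx 4 230 (.nx 3 229 (.nr 2 664 (.l1 (.ls 17 23 862)) (.l1 .sk)) (.l1 .sk)) (.nx 8 32769
  (.lg 0 false 4 97 97 16 0 720) (.nr 17 92683 (.nr 12 664 (.lg 0 true 4 67 67 16 0 48) (.nx 16
  262145 (.lg 2 false 4 79 83 16 74346 240) .out)) .out)))) .out) .out) (.na 41 64 (.nx 40 2642247
  (.nr 39 881745 (.nr 21 61 .s1 (.nx 23 229 (.nr 22 686 (.l1 (.ls 19 29 848)) (.l1 .sk)) (.nx 24
  230 (.l1 .sk) (.nx 30 32769 (.lg 0 false 6 89 97 23 0 5040) (.nr 38 92683 (.nr 35 686 (.lg 0 true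
  5 71 71 19 0 240) (.nx 37 262145 (.lg 2 true 2 89 89 17 74346 1680) .out)) .out))))) .out) .out)
  .ne)) (.na 79 74 (.na 59 70 (.nx 58 2642247 (.nr 57 2097153 (.nr 43 66 .s1 (.nx 44 408 (.l1 (.ls
  79 31 2487)) (.nr 56 1048577 (.nx 48 32769 (.lg 0 false 4 97 97 16 0 1680) (.nr 55 65537 (.nr 52
  750 (.lg 0 true 4 71 71 16 0 48) (.nx 54 416129 (.lg 2 false 2 83 83 16 63530 1680) .out)) .out))
  .out))) .out) .out) (.nx 78 2642247 (.nr 77 2097153 (.nr 60 69 .s1 (.nx 64 408 (.nx 62 229 (.nr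
  61 793 (.l1 (.ls 31 41 752)) (.l1 .sk)) (.nx 63 230 (.l1 .sk) (.l1 (.ls 83 43 1625)))) (.nr 76
  1048577 (.nx 70 32769 (.nx 67 20644 (.lg 0 false 3 89 97 29 0 5040) (.nr 69 262145 (.lg 0 false 2
  83 89 29 0 5040) .out)) (.nr 75 65537 (.nr 73 793 (.lg 0 true 3 73 73 29 0 5040) (.nx 74 416129
  (.lg 2 true 1 89 89 23 60085 1680) .out)) .out)) .out))) .out) .out)) (.na 96 91 (.nx 95 2642247
  (.nr 94 2097153 (.nr 80 73 .s1 (.nx 81 408 (.l1 (.ls 79 43 2252)) (.nr 93 1048577 (.nx 86 32769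
  (.lg 0 false 5 89 97 23 0 5040) (.nr 92 65537 (.nr 89 975 (.lg 0 true 3 71 71 19 0 144) (.nx 91
  416129 (.lg 2 false 2 79 79 19 52625 48) .out)) .out)) .out))) .out) .out) .ne))) (.na 158 118
  (.na 129 106 (.na 114 98 (.nx 113 2642247 (.nr 112 2097153 (.nr 98 93 .s1 (.nx 99 408 (.l1 (.ls
  79 37 1773)) (.nr 111 1482912 (.nx 104 26221 (.lg 0 false 5 89 89 23 0 1680) (.nr 110 65537 (.nr
  107 513 (.lg 0 true 3 67 67 19 0 144) (.nx 109 416129 (.lg 2 false 2 83 83 19 92879 1680) .out))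
  .out)) .out))) .out) .out) (.nx 128 2642247 (.nr 127 2097153 (.nr 115 97 .s1 (.nx 120 26221 (.nx
  116 408 (.l1 (.ls 73 41 1701)) (.nr 119 1482912 (.lg 0 false 3 89 89 23 0 5040) .out)) (.nr 126
  65537 (.nr 123 513 (.lg 0 true 3 61 61 23 0 1008) (.nx 125 416129 (.lg 2 true 2 79 79 23 92879
  1680) .out)) .out))) .out) .out)) (.na 143 115 (.nx 142 2642247 (.nr 141 2097153 (.nr 130 105 .s1
  (.nx 135 26221 (.nx 131 408 (.l1 (.ls 73 37 1573)) (.nr 134 1482912 (.lg 0 false 3 89 89 23 0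
  144) .out)) (.nr 140 65537 (.nr 138 1232 (.lg 0 true 3 71 71 23 0 144) (.nx 139 416129 (.lg 2
  false 1 79 79 19 65766 48) .out)) .out))) .out) .out) (.nx 157 2642247 (.nr 156 2097153 (.nr 144
  115 .s1 (.nx 145 408 (.l1 (.ls 79 37 1450)) (.nr 155 1482912 (.nr 151 65537 (.nx 148 416129 (.lg
  0 false 3 83 83 19 0 2520) (.nr 150 513 (.lg 0 true 2 71 71 19 0 240) .out)) (.nx 154 26009 (.lg
  0 false 3 89 97 19 0 2520) .out)) .out))) .out) .out))) (.na 184 122 (.na 171 119 (.nx 170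
  2642247 (.nr 169 2097153 (.nr 159 118 .s1 (.nx 164 26221 (.nx 160 408 (.l1 (.ls 73 37 1413)) (.nr
  163 1482912 (.lg 0 false 3 83 83 23 0 144) .out)) (.nr 168 65537 (.nr 166 513 (.lg 0 true 2 61 61
  19 0 48) (.nx 167 416129 (.lg 2 false 1 79 79 19 92879 48) .out)) .out))) .out) .out) (.nx 183
  2642247 (.nr 182 2097153 (.nr 172 119 .s1 (.nx 177 26221 (.nx 173 408 (.l1 (.ls 79 37 1401)) (.nr
  176 1482912 (.lg 0 false 3 89 89 23 0 2520) .out)) (.nr 181 65537 (.nr 179 513 (.lg 0 true 2 71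
  71 23 0 336) (.nx 180 416129 (.lg 2 false 1 83 83 16 92879 840) .out)) .out))) .out) .out)) (.na
  197 125 (.nx 196 2642247 (.nr 195 2097153 (.nr 185 122 .s1 (.nx 190 26221 (.nx 186 408 (.l1 (.ls
  73 37 1367)) (.nr 189 1482912 (.lg 0 false 3 89 89 23 0 5040) .out)) (.nr 194 65537 (.nr 192 513
  (.lg 0 true 2 61 61 19 0 48) (.nx 193 416129 (.lg 2 false 1 83 83 19 92879 1680) .out)) .out)))
  .out) .out) (.nx 210 2642247 (.nr 209 2097153 (.nr 198 125 .s1 (.nx 204 26221 (.nx 199 408 (.l1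
  (.ls 67 29 1334)) (.nr 203 1482912 (.lg 0 false 4 79 79 19 0 240) .out)) (.nr 208 65537 (.nr 206
  513 (.lg 0 true 2 59 59 17 0 240) (.nx 207 416129 (.lg 2 false 1 73 73 16 92879 120) .out))
  .out))) .out) .out))))) (.na 257 163 (.na 241 137 (.na 212 131 .ne (.na 226 134 (.nx 225 1321124
  (.nr 224 2097153 (.nr 213 131 .s1 (.nx 215 229 (.nr 214 1436 (.l1 (.ls 16 19 403)) (.l1 .sk))
  (.nx 216 230 (.l1 .sk) (.nx 220 26009 (.lg 0 false 4 79 79 17 0 240) (.nr 223 65537 (.nx 221
  165142 (.lg 0 false 1 73 73 16 0 120) (.nr 222 1025 (.lg 0 false 1 61 61 16 0 120) .out))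
  .out))))) .out) .out) (.nx 240 1321124 (.nr 239 2097153 (.nr 227 134 .s1 (.nx 229 229 (.nr 228
  1468 (.l1 (.ls 17 29 394)) (.l1 .sk)) (.nx 230 230 (.l1 .sk) (.nx 236 165142 (.nx 233 26009 (.lg
  0 false 3 83 83 23 0 144) (.nr 235 65537 (.lg 0 true 2 73 73 23 0 48) .out)) (.nr 238 1025 (.lg 0
  true 2 59 59 23 0 48) .out))))) .out) .out))) (.na 243 157 (.na 242 151 (.lg 0 false 1 0 0 16 0
  24) (.lg 0 false 1 0 0 16 0 24)) (.na 244 158 (.lg 0 false 1 0 0 16 0 24) (.nx 256 1321124 (.nr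
  255 2097153 (.nr 245 158 .s1 (.nx 253 165142 (.nx 251 26009 (.nx 247 229 (.nr 246 1747 (.l1 (.ls
  19 29 334)) (.l1 .sk)) (.nx 248 230 (.l1 .sk) (.lg 0 false 3 83 83 23 0 144))) (.nr 252 65537
  (.lg 0 false 1 83 83 19 0 1680) .out)) (.nr 254 1025 (.lg 0 false 1 61 61 19 0 48) .out))) .out)
  .out)))) (.na 298 179 (.na 272 170 (.na 271 167 (.nx 270 1321124 (.nr 269 2097153 (.nr 258 163
  .s1 (.nx 265 41287 (.nx 260 229 (.nr 259 1789 (.l1 (.ls 16 19 324)) (.l1 .sk)) (.nx 261 230 (.l1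
  .sk) (.lg 0 false 4 79 79 17 0 240))) (.nr 268 16385 (.nr 266 1025 (.lg 0 false 1 59 59 16 0 120)
  (.nx 267 165142 (.lg 2 false 1 47 47 16 18448 120) .out)) .out))) .out) .out) (.lg 0 false 1 0 0
  16 0 24)) (.na 285 173 (.nx 284 1321124 (.nr 283 2097153 (.nr 273 170 .s1 (.nx 281 165142 (.nx
  275 229 (.nr 274 1854 (.l1 (.ls 16 37 311)) (.l1 .sk)) (.nx 276 230 (.l1 .sk) (.nx 279 26009 (.lg
  0 false 3 89 89 37 0 720) (.nr 280 65537 (.lg 0 true 1 83 83 31 0 240) .out)))) (.nr 282 1025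
  (.lg 0 true 1 67 67 31 0 240) .out))) .out) .out) (.nx 297 1321124 (.nr 296 2097153 (.nr 286 173
  .s1 (.nx 289 230 (.nx 288 229 (.nr 287 1918 (.l1 (.ls 17 19 306)) (.l1 .sk)) (.l1 .sk)) (.nx 292
  41287 (.lg 0 false 3 79 79 17 0 360) (.nr 295 16385 (.nr 293 1025 (.lg 0 false 1 59 59 16 0 24)
  (.nx 294 165142 (.lg 2 false 1 47 47 16 18448 120) .out)) .out)))) .out) .out))) (.na 313 185
  (.na 312 182 (.nx 311 1321124 (.nr 310 2097153 (.nr 299 179 .s1 (.nx 306 41287 (.nx 301 229 (.nr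
  300 1950 (.l1 (.ls 17 19 295)) (.l1 .sk)) (.nx 302 230 (.l1 .sk) (.lg 0 false 4 83 83 19 0
  1680))) (.nr 309 16385 (.nr 307 1025 (.lg 0 false 1 61 61 16 0 840) (.nx 308 165142 (.lg 2 false
  1 47 47 16 18448 24) .out)) .out))) .out) .out) .ne) (.na 326 194 (.nx 325 1321124 (.nr 324
  1482912 (.nr 314 185 .s1 (.nx 317 230 (.nx 316 229 (.nr 315 2079 (.l1 (.ls 19 19 286)) (.l1 .sk))
  (.l1 .sk)) (.nx 322 165142 (.nx 320 26009 (.lg 0 false 3 83 89 23 0 2520) (.nr 321 65537 (.lg 0
  true 1 79 79 19 0 840) .out)) (.nr 323 1025 (.lg 0 true 1 61 61 19 0 120) .out)))) .out) .out)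
  (.nx 338 1321124 (.nr 337 1482912 (.nr 327 194 .s1 (.nx 330 230 (.nx 329 229 (.nr 328 2132 (.l1
  (.ls 16 29 273)) (.l1 .sk)) (.l1 .sk)) (.nx 333 41287 (.lg 0 false 3 79 79 29 0 720) (.nr 336
  16385 (.nr 334 1025 (.lg 0 false 1 59 59 19 0 48) (.nx 335 165142 (.lg 2 false 1 47 47 19 18448
  48) .out)) .out)))) .out) .out)))))) (.na 2597 1024 (.na 429 238 (.na 378 217 (.na 352 211 (.nx
  351 1321124 (.nr 350 1482912 (.nr 340 199 .s1 (.nx 343 230 (.nx 342 229 (.nr 341 2261 (.l1 (.ls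
  16 19 266)) (.l1 .sk)) (.l1 .sk)) (.nx 346 41287 (.lg 0 false 3 79 79 17 0 2520) (.nr 349 16385
  (.nr 347 1025 (.lg 0 false 1 59 59 16 0 24) (.nx 348 165142 (.lg 2 true 1 43 43 16 18448 24)
  .out)) .out)))) .out) .out) (.na 365 214 (.nx 364 1321124 (.nr 363 1482912 (.nr 353 211 .s1 (.nx
  359 41287 (.nx 355 229 (.nr 354 2293 (.l1 (.ls 16 17 251)) (.l1 .sk)) (.nx 356 230 (.l1 .sk) (.lg
  0 false 3 73 73 17 0 72))) (.nr 362 16385 (.nr 360 1025 (.lg 0 false 1 59 59 16 0 840) (.nx 361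
  165142 (.lg 2 false 1 43 43 16 18448 24) .out)) .out))) .out) .out) (.nx 377 1321124 (.nr 376
  1482912 (.nr 366 214 .s1 (.nx 369 230 (.nx 368 229 (.nr 367 2325 (.l1 (.ls 19 29 248)) (.l1 .sk))
  (.l1 .sk)) (.nx 372 41287 (.lg 0 false 3 79 79 29 0 144) (.nr 375 16385 (.nr 373 1025 (.lg 0
  false 1 61 61 23 0 48) (.nx 374 165142 (.lg 2 false 1 47 47 23 18448 48) .out)) .out)))) .out)
  .out))) (.na 404 230 (.na 391 227 (.nx 390 1321124 (.nr 389 1482912 (.nr 379 217 .s1 (.nx 382 230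
  (.nx 381 229 (.nr 380 2432 (.l1 (.ls 19 19 244)) (.l1 .sk)) (.l1 .sk)) (.nx 387 165142 (.nx 385
  26009 (.lg 0 false 3 79 83 23 0 2520) (.nr 386 65537 (.lg 0 true 1 79 79 19 0 840) .out)) (.nr
  388 1025 (.lg 0 true 1 61 61 19 0 168) .out)))) .out) .out) (.nx 403 1321124 (.nr 402 1482912
  (.nr 392 227 .s1 (.nx 395 230 (.nx 394 229 (.nr 393 2464 (.l1 (.ls 17 17 234)) (.l1 .sk)) (.l1
  .sk)) (.nx 398 41287 (.lg 0 false 3 79 79 19 0 2520) (.nr 401 16385 (.nr 399 1025 (.lg 0 false 1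
  61 61 17 0 5040) (.nx 400 165142 (.lg 2 false 1 43 43 17 18448 24) .out)) .out)))) .out) .out))
  (.na 416 233 (.nx 415 1321124 (.nr 414 1482912 (.nr 405 230 .s1 (.nx 412 165142 (.nx 407 229 (.nr
  406 2496 (.l1 (.ls 19 31 231)) (.l1 .sk)) (.nx 408 230 (.l1 .sk) (.nx 410 26009 (.lg 0 false 2 83
  83 37 0 240) (.nr 411 65537 (.lg 0 true 1 79 79 31 0 240) .out)))) (.nr 413 1025 (.lg 0 true 1 61
  61 31 0 240) .out))) .out) .out) (.nx 428 1321124 (.nr 427 1482912 (.nr 417 233 .s1 (.nx 423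
  41287 (.nx 419 229 (.nr 418 2550 (.l1 (.ls 16 17 228)) (.l1 .sk)) (.nx 420 230 (.l1 .sk) (.lg 0
  false 3 73 73 19 0 360))) (.nr 426 16385 (.nr 424 1025 (.lg 0 false 1 53 53 17 0 120) (.nx 425
  165142 (.lg 2 false 1 41 41 17 18448 24) .out)) .out))) .out) .out)))) (.na 466 257 (.na 452 254
  (.na 441 250 (.nx 440 1321124 (.nr 439 1482912 (.nr 430 238 .s1 (.nx 437 165142 (.nx 432 229 (.nr
  431 2678 (.l1 (.ls 16 31 223)) (.l1 .sk)) (.nx 433 230 (.l1 .sk) (.nx 435 26009 (.lg 0 false 2 83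
  89 37 0 1680) (.nr 436 65537 (.lg 0 true 1 79 79 31 0 336) .out)))) (.nr 438 1025 (.lg 0 true 1
  61 61 31 0 336) .out))) .out) .out) (.nx 451 1321124 (.nr 450 1482912 (.nr 442 250 .s1 (.nx 445
  230 (.nx 444 229 (.nr 443 2721 (.l1 (.ls 17 29 212)) (.l1 .sk)) (.l1 .sk)) (.nx 448 41287 (.lg 0
  false 3 79 79 31 0 720) (.nr 449 16385 (.lg 0 false 1 79 79 29 0 720) .out)))) .out) .out)) (.na
  465 256 (.nx 464 1321124 (.nr 463 1482912 (.nr 453 254 .s1 (.nx 456 230 (.nx 455 229 (.nr 454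
  2743 (.l1 (.ls 17 29 209)) (.l1 .sk)) (.l1 .sk)) (.nx 459 41287 (.lg 0 false 3 73 73 29 0 144)
  (.nr 462 16385 (.nr 460 1025 (.lg 0 false 1 59 59 23 0 48) (.nx 461 165142 (.lg 2 true 1 47 47 23
  18448 240) .out)) .out)))) .out) .out) .ne)) (.na 1350 512 (.na 897 363 (.nx 896 1321124 (.nr 895
  1482912 (.nr 467 257 .s1 (.nx 574 229 (.nr 573 3889 (.la (.ls 41 19 207)) (.l1 .sk)) (.nx 575 230
  (.l1 .sk) (.nx 681 26009 (.la (.lg 0 false 2 73 73 23 0)) (.nr 894 32769 (.nx 787 165142 (.la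
  (.lg 0 true 1 67 67 19 0)) (.nr 893 2049 (.la (.lg 0 true 1 59 59 19 0)) .out)) .out))))) .out)
  .out) (.nx 1349 1321124 (.nr 1348 1482912 (.nr 898 363 .s1 (.nx 1048 229 (.nr 1047 5485 (.la (.ls
  37 23 147)) (.l1 .sk)) (.nx 1049 230 (.l1 .sk) (.nx 1198 26009 (.la (.lg 0 true 1 71 71 23 0))
  (.nr 1347 32769 (.la (.lg 0 false 1 73 73 23 0)) .out))))) .out) .out)) (.na 1995 725 (.nx 1994
  1321124 (.nr 1993 1482912 (.nr 1351 512 .s1 (.nx 1566 230 (.nx 1565 229 (.nr 1564 7767 (.la (.ls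
  37 23 182)) (.l1 .sk)) (.l1 .sk)) (.nx 1779 26009 (.la (.lg 0 false 1 67 67 29 0)) (.nr 1992
  32769 (.la (.lg 0 true 1 67 67 29 0)) .out)))) .out) .out) (.nx 2596 20644 (.nr 2595 2097153 (.nr
  1996 725 .s1 (.nx 2295 2049 (.la (.ls 61 41 5793)) (.nr 2594 262145 (.la (.lg 0 false 1 53 53 29
  0)) .out))) .out) .out))))) (.na 14934 11586 (.na 5505 2897 (.na 3451 1449 (.nx 3450 20644 (.nr
  3449 2097153 (.nr 2598 1024 .s1 (.nx 3023 3252 (.la (.ls 61 41 10330)) (.nr 3448 131073 (.la (.lg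
  0 false 1 43 43 31 0)) .out))) .out) .out) (.na 4653 2048 (.nx 4652 13005 (.nr 4651 2097153 (.nr
  3452 1449 .s1 (.nx 4051 3252 (.la (.ls 61 41 7301)) (.nr 4650 16385 (.la (.lg 0 false 1 23 23 31
  0)) .out))) .out) .out) (.nx 5504 13005 (.nr 5503 2097153 (.nr 4654 2048 .s1 (.la (.ls 59 53
  82586))) .out) .out))) (.na 8407 5793 (.na 6707 4096 (.nx 6706 4097 (.nr 6705 1048577 (.nr 5506
  2897 .s1 (.la (.ls 67 41 5797))) .out) .out) (.nx 8406 5162 (.nr 8405 1048577 (.nr 6708 4096 .s1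
  (.la (.ls 61 41 6508))) .out) .out)) (.na 11132 8192 (.nx 11131 2049 (.nr 11130 524289 (.nr 8408
  5793 .s1 (.nx 8731 324 (.lx (.lp 53 31 2049)) (.la (.ls 47 37 2049)))) .out) .out) (.nx 14933
  2049 (.nr 14932 524289 (.nr 11133 8192 .s1 (.nx 11538 406 (.lx (.lp 47 37 2897)) (.la (.ls 47 41
  2897)))) .out) .out)))) (.na 22719 131072 (.na 19037 32768 (.na 16985 16384 (.nx 16984 2049 (.nr
  16983 131073 (.nr 14935 11586 .s1 (.lx (.lp 41 41 4097))) .out) .out) (.nx 19036 2049 (.nr 19035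
  262145 (.nr 16986 16384 .s1 (.nx 17309 324 (.lx (.lp 41 41 8193)) (.nr 19034 131073 (.lx (.lp 37
  43 8193)) .out))) .out) .out)) (.na 21089 65536 (.nx 21088 2049 (.nr 21087 524289 (.nr 19038
  32768 .s1 (.nx 19361 324 (.lx (.lp 43 43 16385)) (.nr 21086 262145 (.lx (.lp 41 47 16385))
  .out))) .out) .out) (.nx 22718 1627 (.nr 22717 524289 (.nr 21090 65536 .s1 (.nx 21413 324 (.lx
  (.lp 16 0 32769)) (.nr 22716 262145 (.lx (.lp 37 53 32769)) .out))) .out) .out))) (.na 24864
  524288 (.na 24349 262144 (.nx 24348 1627 (.nr 24347 524289 (.nr 22720 131072 .s1 (.nx 23232 513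
  (.lx (.lp 16 47 65537)) (.nr 24346 262145 (.lx (.lp 31 59 65537)) .out))) .out) .out) (.nx 24863
  513 (.nr 24862 1048577 (.nr 24350 262144 .s1 (.lx (.lp 16 0 131073))) .out) .out)) (.na 24866
  1048577 (.nx 24865 324 (.l1 .sk) .out) .out))))))

theorem c129 :
    OkQ ckI L9 212 23 1099511627776 0 34359738368 1 1099511627776 ∧
    OkQ ckI L5 39 11 1099511627776 0 34359738368 1 1099511627776 ∧
    OkQ ckI L10 229 61 1099511627776 0 34359738368 1 1099511627776 := by
  refine ⟨?_, ?_, ?_⟩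
  · refine fin 3816 16890 T129_0 ?_
    refine jn 13 (by decide +kernel) ?_
    refine jn 18 (by decide +kernel) ?_
    refine jn 28 (by decide +kernel) ?_
    refine jn 43 (by decide +kernel) ?_
    refine jn 50 (by decide +kernel) ?_
    refine jn 57 (by decide +kernel) ?_
    refine jn 69 (by decide +kernel) ?_
    refine jn 72 (by decide +kernel) ?_
    refine jn 75 (by decide +kernel) ?_
    refine jn 77 (by decide +kernel) ?_
    refine jn 80 (by decide +kernel) ?_
    refine jn 81 (by decide +kernel) ?_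
    refine jn 83 (by decide +kernel) ?_
    refine jn 89 (by decide +kernel) ?_
    refine jn 102 (by decide +kernel) ?_
    refine jn 114 (by decide +kernel) ?_
    refine jn 123 (by decide +kernel) ?_
    refine jn 130 (by decide +kernel) ?_
    refine jn 138 (by decide +kernel) ?_
    refine jn 148 (by decide +kernel) ?_
    refine jn 151 (by decide +kernel) ?_
    refine jn 153 (by decide +kernel) ?_
    refine jn 156 (by decide +kernel) ?_
    refine jn 158 (by decide +kernel) ?_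
    refine jn 162 (by decide +kernel) ?_
    refine jn 170 (by decide +kernel) ?_
    refine jn 171 (by decide +kernel) ?_
    refine jn 172 (by decide +kernel) ?_
    refine jn 174 (by decide +kernel) ?_
    refine jn 176 (by decide +kernel) ?_
    refine jn 177 (by decide +kernel) ?_
    refine jn 178 (by decide +kernel) ?_
    refine jn 179 (by decide +kernel) ?_
    refine jn 180 (by decide +kernel) ?_
    refine jn 181 (by decide +kernel) ?_
    refine jn 195 (by decide +kernel) ?_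
    refine jn 202 (by decide +kernel) ?_
    refine jn 214 (by decide +kernel) ?_
    refine jn 221 (by decide +kernel) ?_
    refine jn 232 (by decide +kernel) ?_
    refine jn 237 (by decide +kernel) ?_
    refine jn 243 (by decide +kernel) ?_
    refine jn 257 (by decide +kernel) ?_
    refine jn 267 (by decide +kernel) ?_
    refine jn 274 (by decide +kernel) ?_
    refine jn 278 (by decide +kernel) ?_
    refine jn 289 (by decide +kernel) ?_
    refine jn 294 (by decide +kernel) ?_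
    refine jn 299 (by decide +kernel) ?_
    refine jn 307 (by decide +kernel) ?_
    refine jn 312 (by decide +kernel) ?_
    refine jn 316 (by decide +kernel) ?_
    refine jn 324 (by decide +kernel) ?_
    refine jn 329 (by decide +kernel) ?_
    refine jn 334 (by decide +kernel) ?_
    refine jn 356 (by decide +kernel) ?_
    refine jn 362 (by decide +kernel) ?_
    refine jn 367 (by decide +kernel) ?_
    refine jn 375 (by decide +kernel) ?_
    refine jn 387 (by decide +kernel) ?_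
    refine jn 391 (by decide +kernel) ?_
    refine jn 400 (by decide +kernel) ?_
    refine jn 404 (by decide +kernel) ?_
    refine jn 419 (by decide +kernel) ?_
    refine jn 430 (by decide +kernel) ?_
    refine jn 446 (by decide +kernel) ?_
    refine jn 458 (by decide +kernel) ?_
    refine jn 467 (by decide +kernel) ?_
    refine jn 468 (by decide +kernel) ?_
    refine jn 470 (by decide +kernel) ?_
    refine jn 484 (by decide +kernel) ?_
    refine jn 500 (by decide +kernel) ?_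
    refine jn 513 (by decide +kernel) ?_
    refine jn 525 (by decide +kernel) ?_
    refine jn 540 (by decide +kernel) ?_
    refine jn 553 (by decide +kernel) ?_
    refine jn 566 (by decide +kernel) ?_
    refine jn 575 (by decide +kernel) ?_
    refine jn 576 (by decide +kernel) ?_
    refine jn 579 (by decide +kernel) ?_
    refine jn 596 (by decide +kernel) ?_
    refine jn 608 (by decide +kernel) ?_
    refine jn 614 (by decide +kernel) ?_
    refine jn 628 (by decide +kernel) ?_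
    refine jn 632 (by decide +kernel) ?_
    refine jn 635 (by decide +kernel) ?_
    refine jn 644 (by decide +kernel) ?_
    refine jn 655 (by decide +kernel) ?_
    refine jn 721 (by decide +kernel) ?_
    refine jn 761 (by decide +kernel) ?_
    refine jn 831 (by decide +kernel) ?_
    refine jn 832 (by decide +kernel) ?_
    refine jn 853 (by decide +kernel) ?_
    refine jn 861 (by decide +kernel) ?_
    refine jn 871 (by decide +kernel) ?_
    refine jn 879 (by decide +kernel) ?_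
    refine jn 889 (by decide +kernel) ?_
    refine jn 897 (by decide +kernel) ?_
    refine jn 903 (by decide +kernel) ?_
    refine jn 911 (by decide +kernel) ?_
    refine jn 929 (by decide +kernel) ?_
    refine jn 937 (by decide +kernel) ?_
    refine jn 939 (by decide +kernel) ?_
    refine jn 963 (by decide +kernel) ?_
    refine jn 979 (by decide +kernel) ?_
    refine jn 995 (by decide +kernel) ?_
    refine jn 1009 (by decide +kernel) ?_
    refine jn 1019 (by decide +kernel) ?_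
    refine jn 1044 (by decide +kernel) ?_
    refine jn 1046 (by decide +kernel) ?_
    refine jn 1074 (by decide +kernel) ?_
    refine jn 1092 (by decide +kernel) ?_
    refine jn 1110 (by decide +kernel) ?_
    refine jn 1124 (by decide +kernel) ?_
    refine jn 1187 (by decide +kernel) ?_
    refine jn 1285 (by decide +kernel) ?_
    refine jn 1294 (by decide +kernel) ?_
    refine jn 1295 (by decide +kernel) ?_
    refine jn 1316 (by decide +kernel) ?_
    refine jn 1334 (by decide +kernel) ?_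
    refine jn 1348 (by decide +kernel) ?_
    refine jn 1366 (by decide +kernel) ?_
    refine jn 1367 (by decide +kernel) ?_
    refine jn 1390 (by decide +kernel) ?_
    refine jn 1396 (by decide +kernel) ?_
    refine jn 1404 (by decide +kernel) ?_
    refine jn 1416 (by decide +kernel) ?_
    refine jn 1424 (by decide +kernel) ?_
    refine jn 1443 (by decide +kernel) ?_
    refine jn 1453 (by decide +kernel) ?_
    refine jn 1473 (by decide +kernel) ?_
    refine jn 1485 (by decide +kernel) ?_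
    refine jn 1513 (by decide +kernel) ?_
    refine jn 1515 (by decide +kernel) ?_
    refine jn 1523 (by decide +kernel) ?_
    refine jn 1539 (by decide +kernel) ?_
    refine jn 1545 (by decide +kernel) ?_
    refine jn 1557 (by decide +kernel) ?_
    refine jn 1569 (by decide +kernel) ?_
    refine jn 1598 (by decide +kernel) ?_
    refine jn 1677 (by decide +kernel) ?_
    refine jn 1744 (by decide +kernel) ?_
    refine jn 1803 (by decide +kernel) ?_
    refine jn 1869 (by decide +kernel) ?_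
    refine jn 1891 (by decide +kernel) ?_
    refine jn 1897 (by decide +kernel) ?_
    refine jn 1917 (by decide +kernel) ?_
    refine jn 1933 (by decide +kernel) ?_
    refine jn 1947 (by decide +kernel) ?_
    refine jn 1953 (by decide +kernel) ?_
    refine jn 1977 (by decide +kernel) ?_
    refine jn 2003 (by decide +kernel) ?_
    refine jn 2013 (by decide +kernel) ?_
    refine jn 2019 (by decide +kernel) ?_
    refine jn 2037 (by decide +kernel) ?_
    refine jn 2057 (by decide +kernel) ?_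
    refine jn 2082 (by decide +kernel) ?_
    refine jn 2106 (by decide +kernel) ?_
    refine jn 2126 (by decide +kernel) ?_
    refine jn 2144 (by decide +kernel) ?_
    refine jn 2152 (by decide +kernel) ?_
    refine jn 2160 (by decide +kernel) ?_
    refine jn 2166 (by decide +kernel) ?_
    refine jn 2194 (by decide +kernel) ?_
    refine jn 2216 (by decide +kernel) ?_
    refine jn 2232 (by decide +kernel) ?_
    refine jn 2250 (by decide +kernel) ?_
    refine jn 2270 (by decide +kernel) ?_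
    refine jn 2341 (by decide +kernel) ?_
    refine jn 2391 (by decide +kernel) ?_
    refine jn 2451 (by decide +kernel) ?_
    refine jn 2511 (by decide +kernel) ?_
    refine jn 2551 (by decide +kernel) ?_
    refine jn 2614 (by decide +kernel) ?_
    refine jn 2648 (by decide +kernel) ?_
    refine jn 2680 (by decide +kernel) ?_
    refine jn 2704 (by decide +kernel) ?_
    refine jn 2736 (by decide +kernel) ?_
    refine jn 2758 (by decide +kernel) ?_
    refine jn 2800 (by decide +kernel) ?_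
    refine jn 2814 (by decide +kernel) ?_
    refine jn 2840 (by decide +kernel) ?_
    refine jn 2854 (by decide +kernel) ?_
    refine jn 2898 (by decide +kernel) ?_
    refine jn 2930 (by decide +kernel) ?_
    refine jn 2984 (by decide +kernel) ?_
    refine jn 3034 (by decide +kernel) ?_
    refine jn 3092 (by decide +kernel) ?_
    refine jn 3148 (by decide +kernel) ?_
    refine jn 3190 (by decide +kernel) ?_
    refine jn 3262 (by decide +kernel) ?_
    refine jn 3307 (by decide +kernel) ?_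
    refine jn 3335 (by decide +kernel) ?_
    refine jn 3357 (by decide +kernel) ?_
    refine jn 3405 (by decide +kernel) ?_
    refine jn 3439 (by decide +kernel) ?_
    refine jn 3475 (by decide +kernel) ?_
    refine jn 3517 (by decide +kernel) ?_
    refine jn 3559 (by decide +kernel) ?_
    refine jn 3607 (by decide +kernel) ?_
    refine jn 3615 (by decide +kernel) ?_
    refine jn 3663 (by decide +kernel) ?_
    refine jn 3707 (by decide +kernel) ?_
    refine jn 3743 (by decide +kernel) ?_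
    refine jn 3781 (by decide +kernel) ?_
    refine jn 3809 (by decide +kernel) ?_
    refine jn 3849 (by decide +kernel) ?_
    refine jn 3887 (by decide +kernel) ?_
    refine jn 3939 (by decide +kernel) ?_
    refine jn 3971 (by decide +kernel) ?_
    refine jn 4019 (by decide +kernel) ?_
    refine jn 4041 (by decide +kernel) ?_
    refine jn 4079 (by decide +kernel) ?_
    refine jn 4097 (by decide +kernel) ?_
    refine jn 4131 (by decide +kernel) ?_
    refine jn 4191 (by decide +kernel) ?_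
    refine jn 4223 (by decide +kernel) ?_
    refine jn 4281 (by decide +kernel) ?_
    refine jn 4313 (by decide +kernel) ?_
    refine jn 4342 (by decide +kernel) ?_
    refine jn 4404 (by decide +kernel) ?_
    refine jn 4446 (by decide +kernel) ?_
    refine jn 4492 (by decide +kernel) ?_
    refine jn 4562 (by decide +kernel) ?_
    refine jn 4586 (by decide +kernel) ?_
    refine jn 4644 (by decide +kernel) ?_
    refine jn 4700 (by decide +kernel) ?_
    refine jn 4746 (by decide +kernel) ?_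
    refine jn 4809 (by decide +kernel) ?_
    refine jn 4886 (by decide +kernel) ?_
    refine jn 4932 (by decide +kernel) ?_
    refine jn 4956 (by decide +kernel) ?_
    refine jn 5006 (by decide +kernel) ?_
    refine jn 5054 (by decide +kernel) ?_
    refine jn 5134 (by decide +kernel) ?_
    refine jn 5174 (by decide +kernel) ?_
    refine jn 5249 (by decide +kernel) ?_
    refine jn 5303 (by decide +kernel) ?_
    refine jn 5417 (by decide +kernel) ?_
    refine jn 5495 (by decide +kernel) ?_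
    refine jn 5599 (by decide +kernel) ?_
    refine jn 5703 (by decide +kernel) ?_
    refine jn 5796 (by decide +kernel) ?_
    refine jn 5879 (by decide +kernel) ?_
    refine jn 5983 (by decide +kernel) ?_
    refine jn 6093 (by decide +kernel) ?_
    refine jn 6177 (by decide +kernel) ?_
    refine jn 6289 (by decide +kernel) ?_
    refine jn 6416 (by decide +kernel) ?_
    refine jn 6546 (by decide +kernel) ?_
    refine jn 6612 (by decide +kernel) ?_
    refine jn 6730 (by decide +kernel) ?_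
    refine jn 6836 (by decide +kernel) ?_
    refine jn 6940 (by decide +kernel) ?_
    refine jn 7032 (by decide +kernel) ?_
    refine jn 7140 (by decide +kernel) ?_
    refine jn 7300 (by decide +kernel) ?_
    refine jn 7416 (by decide +kernel) ?_
    refine jn 7520 (by decide +kernel) ?_
    refine jn 7602 (by decide +kernel) ?_
    refine jn 7688 (by decide +kernel) ?_
    refine jn 7812 (by decide +kernel) ?_
    refine jn 7940 (by decide +kernel) ?_
    refine jn 8060 (by decide +kernel) ?_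
    refine jn 8319 (by decide +kernel) ?_
    refine jn 8591 (by decide +kernel) ?_
    refine jn 8751 (by decide +kernel) ?_
    refine jn 8878 (by decide +kernel) ?_
    refine jn 8995 (by decide +kernel) ?_
    refine jn 9100 (by decide +kernel) ?_
    refine jn 9183 (by decide +kernel) ?_
    refine jn 9267 (by decide +kernel) ?_
    refine jn 9327 (by decide +kernel) ?_
    refine jn 9447 (by decide +kernel) ?_
    refine jn 9894 (by decide +kernel) ?_
    refine jn 10102 (by decide +kernel) ?_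
    refine jn 10226 (by decide +kernel) ?_
    refine jn 10353 (by decide +kernel) ?_
    refine jn 10478 (by decide +kernel) ?_
    refine jn 10575 (by decide +kernel) ?_
    refine jn 10666 (by decide +kernel) ?_
    refine jn 11139 (by decide +kernel) ?_
    refine jn 11359 (by decide +kernel) ?_
    refine jn 11536 (by decide +kernel) ?_
    refine jn 11697 (by decide +kernel) ?_
    refine jn 11846 (by decide +kernel) ?_
    refine jn 11971 (by decide +kernel) ?_
    refine jn 12365 (by decide +kernel) ?_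
    refine jn 12599 (by decide +kernel) ?_
    refine jn 12726 (by decide +kernel) ?_
    refine jn 12818 (by decide +kernel) ?_
    refine jn 12912 (by decide +kernel) ?_
    refine jn 13033 (by decide +kernel) ?_
    refine jn 13135 (by decide +kernel) ?_
    refine jn 13199 (by decide +kernel) ?_
    refine jn 13265 (by decide +kernel) ?_
    refine jn 13701 (by decide +kernel) ?_
    refine jn 13973 (by decide +kernel) ?_
    refine jn 14182 (by decide +kernel) ?_
    refine jn 14314 (by decide +kernel) ?_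
    refine jn 14442 (by decide +kernel) ?_
    refine jn 14546 (by decide +kernel) ?_
    refine jn 15112 (by decide +kernel) ?_
    refine jn 15373 (by decide +kernel) ?_
    refine jn 15629 (by decide +kernel) ?_
    refine jn 15832 (by decide +kernel) ?_
    refine jn 16373 (by decide +kernel) ?_
    exact je (by decide +kernel)
  · refine fin 312 3278 T129_1 ?_
    refine jn 5 (by decide +kernel) ?_
    refine jn 8 (by decide +kernel) ?_
    refine jn 10 (by decide +kernel) ?_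
    refine jn 12 (by decide +kernel) ?_
    refine jn 16 (by decide +kernel) ?_
    refine jn 19 (by decide +kernel) ?_
    refine jn 24 (by decide +kernel) ?_
    refine jn 33 (by decide +kernel) ?_
    refine jn 36 (by decide +kernel) ?_
    refine jn 39 (by decide +kernel) ?_
    refine jn 41 (by decide +kernel) ?_
    refine jn 44 (by decide +kernel) ?_
    refine jn 47 (by decide +kernel) ?_
    refine jn 56 (by decide +kernel) ?_
    refine jn 61 (by decide +kernel) ?_
    refine jn 72 (by decide +kernel) ?_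
    refine jn 81 (by decide +kernel) ?_
    refine jn 83 (by decide +kernel) ?_
    refine jn 85 (by decide +kernel) ?_
    refine jn 88 (by decide +kernel) ?_
    refine jn 91 (by decide +kernel) ?_
    refine jn 100 (by decide +kernel) ?_
    refine jn 101 (by decide +kernel) ?_
    refine jn 102 (by decide +kernel) ?_
    refine jn 103 (by decide +kernel) ?_
    refine jn 104 (by decide +kernel) ?_
    refine jn 105 (by decide +kernel) ?_
    refine jn 107 (by decide +kernel) ?_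
    refine jn 108 (by decide +kernel) ?_
    refine jn 109 (by decide +kernel) ?_
    refine jn 110 (by decide +kernel) ?_
    refine jn 111 (by decide +kernel) ?_
    refine jn 112 (by decide +kernel) ?_
    refine jn 113 (by decide +kernel) ?_
    refine jn 122 (by decide +kernel) ?_
    refine jn 123 (by decide +kernel) ?_
    refine jn 124 (by decide +kernel) ?_
    refine jn 125 (by decide +kernel) ?_
    refine jn 126 (by decide +kernel) ?_
    refine jn 127 (by decide +kernel) ?_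
    refine jn 128 (by decide +kernel) ?_
    refine jn 129 (by decide +kernel) ?_
    refine jn 130 (by decide +kernel) ?_
    refine jn 131 (by decide +kernel) ?_
    refine jn 132 (by decide +kernel) ?_
    refine jn 133 (by decide +kernel) ?_
    refine jn 139 (by decide +kernel) ?_
    refine jn 141 (by decide +kernel) ?_
    refine jn 146 (by decide +kernel) ?_
    refine jn 157 (by decide +kernel) ?_
    refine jn 158 (by decide +kernel) ?_
    refine jn 159 (by decide +kernel) ?_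
    refine jn 160 (by decide +kernel) ?_
    refine jn 161 (by decide +kernel) ?_
    refine jn 162 (by decide +kernel) ?_
    refine jn 168 (by decide +kernel) ?_
    refine jn 171 (by decide +kernel) ?_
    refine jn 175 (by decide +kernel) ?_
    refine jn 179 (by decide +kernel) ?_
    refine jn 195 (by decide +kernel) ?_
    refine jn 205 (by decide +kernel) ?_
    refine jn 207 (by decide +kernel) ?_
    refine jn 211 (by decide +kernel) ?_
    refine jn 219 (by decide +kernel) ?_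
    refine jn 220 (by decide +kernel) ?_
    refine jn 221 (by decide +kernel) ?_
    refine jn 222 (by decide +kernel) ?_
    refine jn 223 (by decide +kernel) ?_
    refine jn 224 (by decide +kernel) ?_
    refine jn 225 (by decide +kernel) ?_
    refine jn 234 (by decide +kernel) ?_
    refine jn 238 (by decide +kernel) ?_
    refine jn 240 (by decide +kernel) ?_
    refine jn 259 (by decide +kernel) ?_
    refine jn 262 (by decide +kernel) ?_
    refine jn 263 (by decide +kernel) ?_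
    refine jn 264 (by decide +kernel) ?_
    refine jn 265 (by decide +kernel) ?_
    refine jn 272 (by decide +kernel) ?_
    refine jn 276 (by decide +kernel) ?_
    refine jn 286 (by decide +kernel) ?_
    refine jn 294 (by decide +kernel) ?_
    refine jn 296 (by decide +kernel) ?_
    refine jn 297 (by decide +kernel) ?_
    refine jn 298 (by decide +kernel) ?_
    refine jn 304 (by decide +kernel) ?_
    refine jn 311 (by decide +kernel) ?_
    refine jn 318 (by decide +kernel) ?_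
    refine jn 319 (by decide +kernel) ?_
    refine jn 320 (by decide +kernel) ?_
    refine jn 329 (by decide +kernel) ?_
    refine jn 332 (by decide +kernel) ?_
    refine jn 342 (by decide +kernel) ?_
    refine jn 350 (by decide +kernel) ?_
    refine jn 351 (by decide +kernel) ?_
    refine jn 361 (by decide +kernel) ?_
    refine jn 364 (by decide +kernel) ?_
    refine jn 371 (by decide +kernel) ?_
    refine jn 372 (by decide +kernel) ?_
    refine jn 384 (by decide +kernel) ?_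
    refine jn 389 (by decide +kernel) ?_
    refine jn 390 (by decide +kernel) ?_
    refine jn 392 (by decide +kernel) ?_
    refine jn 394 (by decide +kernel) ?_
    refine jn 408 (by decide +kernel) ?_
    refine jn 416 (by decide +kernel) ?_
    refine jn 428 (by decide +kernel) ?_
    refine jn 437 (by decide +kernel) ?_
    refine jn 453 (by decide +kernel) ?_
    refine jn 459 (by decide +kernel) ?_
    refine jn 460 (by decide +kernel) ?_
    refine jn 461 (by decide +kernel) ?_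
    refine jn 462 (by decide +kernel) ?_
    refine jn 463 (by decide +kernel) ?_
    refine jn 473 (by decide +kernel) ?_
    refine jn 482 (by decide +kernel) ?_
    refine jn 490 (by decide +kernel) ?_
    refine jn 494 (by decide +kernel) ?_
    refine jn 495 (by decide +kernel) ?_
    refine jn 496 (by decide +kernel) ?_
    refine jn 497 (by decide +kernel) ?_
    refine jn 506 (by decide +kernel) ?_
    refine jn 517 (by decide +kernel) ?_
    refine jn 523 (by decide +kernel) ?_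
    refine jn 530 (by decide +kernel) ?_
    refine jn 532 (by decide +kernel) ?_
    refine jn 542 (by decide +kernel) ?_
    refine jn 549 (by decide +kernel) ?_
    refine jn 556 (by decide +kernel) ?_
    refine jn 559 (by decide +kernel) ?_
    refine jn 567 (by decide +kernel) ?_
    refine jn 573 (by decide +kernel) ?_
    refine jn 574 (by decide +kernel) ?_
    refine jn 575 (by decide +kernel) ?_
    refine jn 577 (by decide +kernel) ?_
    refine jn 594 (by decide +kernel) ?_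
    refine jn 603 (by decide +kernel) ?_
    refine jn 620 (by decide +kernel) ?_
    refine jn 627 (by decide +kernel) ?_
    refine jn 635 (by decide +kernel) ?_
    refine jn 648 (by decide +kernel) ?_
    refine jn 661 (by decide +kernel) ?_
    refine jn 673 (by decide +kernel) ?_
    refine jn 686 (by decide +kernel) ?_
    refine jn 699 (by decide +kernel) ?_
    refine jn 715 (by decide +kernel) ?_
    refine jn 716 (by decide +kernel) ?_
    refine jn 717 (by decide +kernel) ?_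
    refine jn 729 (by decide +kernel) ?_
    refine jn 737 (by decide +kernel) ?_
    refine jn 750 (by decide +kernel) ?_
    refine jn 756 (by decide +kernel) ?_
    refine jn 757 (by decide +kernel) ?_
    refine jn 775 (by decide +kernel) ?_
    refine jn 787 (by decide +kernel) ?_
    refine jn 796 (by decide +kernel) ?_
    refine jn 814 (by decide +kernel) ?_
    refine jn 821 (by decide +kernel) ?_
    refine jn 822 (by decide +kernel) ?_
    refine jn 834 (by decide +kernel) ?_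
    refine jn 846 (by decide +kernel) ?_
    refine jn 858 (by decide +kernel) ?_
    refine jn 865 (by decide +kernel) ?_
    refine jn 882 (by decide +kernel) ?_
    refine jn 894 (by decide +kernel) ?_
    refine jn 905 (by decide +kernel) ?_
    refine jn 913 (by decide +kernel) ?_
    refine jn 926 (by decide +kernel) ?_
    refine jn 945 (by decide +kernel) ?_
    refine jn 996 (by decide +kernel) ?_
    refine jn 1002 (by decide +kernel) ?_
    refine jn 1003 (by decide +kernel) ?_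
    refine jn 1013 (by decide +kernel) ?_
    refine jn 1016 (by decide +kernel) ?_
    refine jn 1021 (by decide +kernel) ?_
    refine jn 1024 (by decide +kernel) ?_
    refine jn 1033 (by decide +kernel) ?_
    refine jn 1038 (by decide +kernel) ?_
    refine jn 1047 (by decide +kernel) ?_
    refine jn 1051 (by decide +kernel) ?_
    refine jn 1054 (by decide +kernel) ?_
    refine jn 1058 (by decide +kernel) ?_
    refine jn 1059 (by decide +kernel) ?_
    refine jn 1066 (by decide +kernel) ?_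
    refine jn 1067 (by decide +kernel) ?_
    refine jn 1072 (by decide +kernel) ?_
    refine jn 1082 (by decide +kernel) ?_
    refine jn 1083 (by decide +kernel) ?_
    refine jn 1090 (by decide +kernel) ?_
    refine jn 1091 (by decide +kernel) ?_
    refine jn 1094 (by decide +kernel) ?_
    refine jn 1101 (by decide +kernel) ?_
    refine jn 1111 (by decide +kernel) ?_
    refine jn 1114 (by decide +kernel) ?_
    refine jn 1119 (by decide +kernel) ?_
    refine jn 1128 (by decide +kernel) ?_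
    refine jn 1136 (by decide +kernel) ?_
    refine jn 1138 (by decide +kernel) ?_
    refine jn 1139 (by decide +kernel) ?_
    refine jn 1150 (by decide +kernel) ?_
    refine jn 1154 (by decide +kernel) ?_
    refine jn 1164 (by decide +kernel) ?_
    refine jn 1169 (by decide +kernel) ?_
    refine jn 1178 (by decide +kernel) ?_
    refine jn 1179 (by decide +kernel) ?_
    refine jn 1189 (by decide +kernel) ?_
    refine jn 1208 (by decide +kernel) ?_
    refine jn 1210 (by decide +kernel) ?_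
    refine jn 1211 (by decide +kernel) ?_
    refine jn 1217 (by decide +kernel) ?_
    refine jn 1218 (by decide +kernel) ?_
    refine jn 1222 (by decide +kernel) ?_
    refine jn 1226 (by decide +kernel) ?_
    refine jn 1230 (by decide +kernel) ?_
    refine jn 1238 (by decide +kernel) ?_
    refine jn 1246 (by decide +kernel) ?_
    refine jn 1293 (by decide +kernel) ?_
    refine jn 1297 (by decide +kernel) ?_
    refine jn 1301 (by decide +kernel) ?_
    refine jn 1304 (by decide +kernel) ?_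
    refine jn 1309 (by decide +kernel) ?_
    refine jn 1314 (by decide +kernel) ?_
    refine jn 1328 (by decide +kernel) ?_
    refine jn 1335 (by decide +kernel) ?_
    refine jn 1340 (by decide +kernel) ?_
    refine jn 1347 (by decide +kernel) ?_
    refine jn 1349 (by decide +kernel) ?_
    refine jn 1352 (by decide +kernel) ?_
    refine jn 1368 (by decide +kernel) ?_
    refine jn 1374 (by decide +kernel) ?_
    refine jn 1381 (by decide +kernel) ?_
    refine jn 1386 (by decide +kernel) ?_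
    refine jn 1392 (by decide +kernel) ?_
    refine jn 1399 (by decide +kernel) ?_
    refine jn 1407 (by decide +kernel) ?_
    refine jn 1413 (by decide +kernel) ?_
    refine jn 1415 (by decide +kernel) ?_
    refine jn 1421 (by decide +kernel) ?_
    refine jn 1428 (by decide +kernel) ?_
    refine jn 1437 (by decide +kernel) ?_
    refine jn 1441 (by decide +kernel) ?_
    refine jn 1445 (by decide +kernel) ?_
    refine jn 1452 (by decide +kernel) ?_
    refine jn 1462 (by decide +kernel) ?_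
    refine jn 1469 (by decide +kernel) ?_
    refine jn 1479 (by decide +kernel) ?_
    refine jn 1487 (by decide +kernel) ?_
    refine jn 1493 (by decide +kernel) ?_
    refine jn 1498 (by decide +kernel) ?_
    refine jn 1509 (by decide +kernel) ?_
    refine jn 1704 (by decide +kernel) ?_
    refine jn 1857 (by decide +kernel) ?_
    refine jn 1991 (by decide +kernel) ?_
    refine jn 2209 (by decide +kernel) ?_
    refine jn 2390 (by decide +kernel) ?_
    refine jn 2547 (by decide +kernel) ?_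
    refine jn 2865 (by decide +kernel) ?_
    refine jn 3063 (by decide +kernel) ?_
    exact je (by decide +kernel)
  · refine fin 24 24867 T129_2 ?_
    refine jn 12 (by decide +kernel) ?_
    refine jn 30 (by decide +kernel) ?_
    refine jn 37 (by decide +kernel) ?_
    refine jn 52 (by decide +kernel) ?_
    refine jn 64 (by decide +kernel) ?_
    refine jn 67 (by decide +kernel) ?_
    refine jn 70 (by decide +kernel) ?_
    refine jn 73 (by decide +kernel) ?_
    refine jn 86 (by decide +kernel) ?_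
    refine jn 91 (by decide +kernel) ?_
    refine jn 107 (by decide +kernel) ?_
    refine jn 119 (by decide +kernel) ?_
    refine jn 134 (by decide +kernel) ?_
    refine jn 145 (by decide +kernel) ?_
    refine jn 146 (by decide +kernel) ?_
    refine jn 147 (by decide +kernel) ?_
    refine jn 148 (by decide +kernel) ?_
    refine jn 154 (by decide +kernel) ?_
    refine jn 167 (by decide +kernel) ?_
    refine jn 176 (by decide +kernel) ?_
    refine jn 180 (by decide +kernel) ?_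
    refine jn 193 (by decide +kernel) ?_
    refine jn 207 (by decide +kernel) ?_
    refine jn 222 (by decide +kernel) ?_
    refine jn 238 (by decide +kernel) ?_
    refine jn 252 (by decide +kernel) ?_
    refine jn 266 (by decide +kernel) ?_
    refine jn 279 (by decide +kernel) ?_
    refine jn 292 (by decide +kernel) ?_
    refine jn 307 (by decide +kernel) ?_
    refine jn 320 (by decide +kernel) ?_
    refine jn 333 (by decide +kernel) ?_
    refine jn 347 (by decide +kernel) ?_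
    refine jn 361 (by decide +kernel) ?_
    refine jn 375 (by decide +kernel) ?_
    refine jn 386 (by decide +kernel) ?_
    refine jn 400 (by decide +kernel) ?_
    refine jn 411 (by decide +kernel) ?_
    refine jn 425 (by decide +kernel) ?_
    refine jn 436 (by decide +kernel) ?_
    refine jn 449 (by decide +kernel) ?_
    refine jn 469 (by decide +kernel) ?_
    refine jn 552 (by decide +kernel) ?_
    refine jn 577 (by decide +kernel) ?_
    refine jn 580 (by decide +kernel) ?_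
    refine jn 583 (by decide +kernel) ?_
    refine jn 596 (by decide +kernel) ?_
    refine jn 613 (by decide +kernel) ?_
    refine jn 616 (by decide +kernel) ?_
    refine jn 628 (by decide +kernel) ?_
    refine jn 640 (by decide +kernel) ?_
    refine jn 644 (by decide +kernel) ?_
    refine jn 647 (by decide +kernel) ?_
    refine jn 661 (by decide +kernel) ?_
    refine jn 668 (by decide +kernel) ?_
    refine jn 680 (by decide +kernel) ?_
    refine jn 687 (by decide +kernel) ?_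
    refine jn 719 (by decide +kernel) ?_
    refine jn 746 (by decide +kernel) ?_
    refine jn 767 (by decide +kernel) ?_
    refine jn 782 (by decide +kernel) ?_
    refine jn 792 (by decide +kernel) ?_
    refine jn 808 (by decide +kernel) ?_
    refine jn 840 (by decide +kernel) ?_
    refine jn 856 (by decide +kernel) ?_
    refine jn 880 (by decide +kernel) ?_
    refine jn 917 (by decide +kernel) ?_
    refine jn 1005 (by decide +kernel) ?_
    refine jn 1056 (by decide +kernel) ?_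
    refine jn 1057 (by decide +kernel) ?_
    refine jn 1072 (by decide +kernel) ?_
    refine jn 1083 (by decide +kernel) ?_
    refine jn 1099 (by decide +kernel) ?_
    refine jn 1108 (by decide +kernel) ?_
    refine jn 1120 (by decide +kernel) ?_
    refine jn 1140 (by decide +kernel) ?_
    refine jn 1147 (by decide +kernel) ?_
    refine jn 1156 (by decide +kernel) ?_
    refine jn 1168 (by decide +kernel) ?_
    refine jn 1185 (by decide +kernel) ?_
    refine jn 1205 (by decide +kernel) ?_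
    refine jn 1217 (by decide +kernel) ?_
    refine jn 1229 (by decide +kernel) ?_
    refine jn 1248 (by decide +kernel) ?_
    refine jn 1260 (by decide +kernel) ?_
    refine jn 1281 (by decide +kernel) ?_
    refine jn 1293 (by decide +kernel) ?_
    refine jn 1305 (by decide +kernel) ?_
    refine jn 1322 (by decide +kernel) ?_
    refine jn 1337 (by decide +kernel) ?_
    refine jn 1386 (by decide +kernel) ?_
    refine jn 1456 (by decide +kernel) ?_
    refine jn 1572 (by decide +kernel) ?_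
    refine jn 1584 (by decide +kernel) ?_
    refine jn 1595 (by decide +kernel) ?_
    refine jn 1608 (by decide +kernel) ?_
    refine jn 1623 (by decide +kernel) ?_
    refine jn 1644 (by decide +kernel) ?_
    refine jn 1649 (by decide +kernel) ?_
    refine jn 1650 (by decide +kernel) ?_
    refine jn 1671 (by decide +kernel) ?_
    refine jn 1713 (by decide +kernel) ?_
    refine jn 1728 (by decide +kernel) ?_
    refine jn 1749 (by decide +kernel) ?_
    refine jn 1779 (by decide +kernel) ?_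
    refine jn 1797 (by decide +kernel) ?_
    refine jn 1808 (by decide +kernel) ?_
    refine jn 1821 (by decide +kernel) ?_
    refine jn 1836 (by decide +kernel) ?_
    refine jn 1857 (by decide +kernel) ?_
    refine jn 1862 (by decide +kernel) ?_
    refine jn 1863 (by decide +kernel) ?_
    refine jn 1884 (by decide +kernel) ?_
    refine jn 1926 (by decide +kernel) ?_
    refine jn 1941 (by decide +kernel) ?_
    refine jn 1962 (by decide +kernel) ?_
    refine jn 1992 (by decide +kernel) ?_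
    refine jn 2053 (by decide +kernel) ?_
    refine jn 2121 (by decide +kernel) ?_
    refine jn 2196 (by decide +kernel) ?_
    refine jn 2269 (by decide +kernel) ?_
    refine jn 2312 (by decide +kernel) ?_
    refine jn 2319 (by decide +kernel) ?_
    refine jn 2352 (by decide +kernel) ?_
    refine jn 2385 (by decide +kernel) ?_
    refine jn 2412 (by decide +kernel) ?_
    refine jn 2424 (by decide +kernel) ?_
    refine jn 2468 (by decide +kernel) ?_
    refine jn 2495 (by decide +kernel) ?_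
    refine jn 2523 (by decide +kernel) ?_
    refine jn 2544 (by decide +kernel) ?_
    refine jn 2596 (by decide +kernel) ?_
    refine jn 2655 (by decide +kernel) ?_
    refine jn 2700 (by decide +kernel) ?_
    refine jn 2749 (by decide +kernel) ?_
    refine jn 2799 (by decide +kernel) ?_
    refine jn 2863 (by decide +kernel) ?_
    refine jn 2925 (by decide +kernel) ?_
    refine jn 2989 (by decide +kernel) ?_
    refine jn 3042 (by decide +kernel) ?_
    refine jn 3069 (by decide +kernel) ?_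
    refine jn 3084 (by decide +kernel) ?_
    refine jn 3096 (by decide +kernel) ?_
    refine jn 3126 (by decide +kernel) ?_
    refine jn 3144 (by decide +kernel) ?_
    refine jn 3185 (by decide +kernel) ?_
    refine jn 3197 (by decide +kernel) ?_
    refine jn 3249 (by decide +kernel) ?_
    refine jn 3269 (by decide +kernel) ?_
    refine jn 3309 (by decide +kernel) ?_
    refine jn 3324 (by decide +kernel) ?_
    refine jn 3357 (by decide +kernel) ?_
    refine jn 3389 (by decide +kernel) ?_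
    refine jn 3446 (by decide +kernel) ?_
    refine jn 3541 (by decide +kernel) ?_
    refine jn 3633 (by decide +kernel) ?_
    refine jn 3702 (by decide +kernel) ?_
    refine jn 3792 (by decide +kernel) ?_
    refine jn 3885 (by decide +kernel) ?_
    refine jn 3958 (by decide +kernel) ?_
    refine jn 4026 (by decide +kernel) ?_
    refine jn 4092 (by decide +kernel) ?_
    refine jn 4173 (by decide +kernel) ?_
    refine jn 4224 (by decide +kernel) ?_
    refine jn 4268 (by decide +kernel) ?_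
    refine jn 4332 (by decide +kernel) ?_
    refine jn 4401 (by decide +kernel) ?_
    refine jn 4481 (by decide +kernel) ?_
    refine jn 4532 (by decide +kernel) ?_
    refine jn 4563 (by decide +kernel) ?_
    refine jn 4608 (by decide +kernel) ?_
    refine jn 4680 (by decide +kernel) ?_
    refine jn 4711 (by decide +kernel) ?_
    refine jn 4743 (by decide +kernel) ?_
    refine jn 4776 (by decide +kernel) ?_
    refine jn 4824 (by decide +kernel) ?_
    refine jn 4852 (by decide +kernel) ?_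
    refine jn 4888 (by decide +kernel) ?_
    refine jn 4923 (by decide +kernel) ?_
    refine jn 4956 (by decide +kernel) ?_
    refine jn 5007 (by decide +kernel) ?_
    refine jn 5041 (by decide +kernel) ?_
    refine jn 5073 (by decide +kernel) ?_
    refine jn 5140 (by decide +kernel) ?_
    refine jn 5208 (by decide +kernel) ?_
    refine jn 5256 (by decide +kernel) ?_
    refine jn 5292 (by decide +kernel) ?_
    refine jn 5352 (by decide +kernel) ?_
    refine jn 5392 (by decide +kernel) ?_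
    refine jn 5451 (by decide +kernel) ?_
    refine jn 5500 (by decide +kernel) ?_
    refine jn 5575 (by decide +kernel) ?_
    refine jn 5691 (by decide +kernel) ?_
    refine jn 5796 (by decide +kernel) ?_
    refine jn 5908 (by decide +kernel) ?_
    refine jn 6004 (by decide +kernel) ?_
    refine jn 6126 (by decide +kernel) ?_
    refine jn 6243 (by decide +kernel) ?_
    refine jn 6331 (by decide +kernel) ?_
    refine jn 6474 (by decide +kernel) ?_
    refine jn 6579 (by decide +kernel) ?_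
    refine jn 6682 (by decide +kernel) ?_
    refine jn 6774 (by decide +kernel) ?_
    refine jn 6882 (by decide +kernel) ?_
    refine jn 7015 (by decide +kernel) ?_
    refine jn 7099 (by decide +kernel) ?_
    refine jn 7198 (by decide +kernel) ?_
    refine jn 7330 (by decide +kernel) ?_
    refine jn 7425 (by decide +kernel) ?_
    refine jn 7534 (by decide +kernel) ?_
    refine jn 7645 (by decide +kernel) ?_
    refine jn 7794 (by decide +kernel) ?_
    refine jn 7921 (by decide +kernel) ?_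
    refine jn 8050 (by decide +kernel) ?_
    refine jn 8155 (by decide +kernel) ?_
    refine jn 8247 (by decide +kernel) ?_
    refine jn 8346 (by decide +kernel) ?_
    refine jn 8408 (by decide +kernel) ?_
    refine jn 8813 (by decide +kernel) ?_
    refine jn 9000 (by decide +kernel) ?_
    refine jn 9224 (by decide +kernel) ?_
    refine jn 9392 (by decide +kernel) ?_
    refine jn 9592 (by decide +kernel) ?_
    refine jn 9783 (by decide +kernel) ?_
    refine jn 10017 (by decide +kernel) ?_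
    refine jn 10208 (by decide +kernel) ?_
    refine jn 10401 (by decide +kernel) ?_
    refine jn 10641 (by decide +kernel) ?_
    refine jn 10835 (by decide +kernel) ?_
    refine jn 11036 (by decide +kernel) ?_
    refine jn 11436 (by decide +kernel) ?_
    refine jn 11711 (by decide +kernel) ?_
    refine jn 11924 (by decide +kernel) ?_
    refine jn 12153 (by decide +kernel) ?_
    refine jn 12408 (by decide +kernel) ?_
    refine jn 12629 (by decide +kernel) ?_
    refine jn 12863 (by decide +kernel) ?_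
    refine jn 13097 (by decide +kernel) ?_
    refine jn 13349 (by decide +kernel) ?_
    refine jn 13597 (by decide +kernel) ?_
    refine jn 13836 (by decide +kernel) ?_
    refine jn 14120 (by decide +kernel) ?_
    refine jn 14360 (by decide +kernel) ?_
    refine jn 14600 (by decide +kernel) ?_
    refine jn 14816 (by decide +kernel) ?_
    refine jn 15218 (by decide +kernel) ?_
    refine jn 15545 (by decide +kernel) ?_
    refine jn 15772 (by decide +kernel) ?_
    refine jn 15936 (by decide +kernel) ?_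
    refine jn 16087 (by decide +kernel) ?_
    refine jn 16223 (by decide +kernel) ?_
    refine jn 16331 (by decide +kernel) ?_
    refine jn 16429 (by decide +kernel) ?_
    refine jn 16508 (by decide +kernel) ?_
    refine jn 16588 (by decide +kernel) ?_
    refine jn 16668 (by decide +kernel) ?_
    refine jn 16739 (by decide +kernel) ?_
    refine jn 16809 (by decide +kernel) ?_
    refine jn 16871 (by decide +kernel) ?_
    refine jn 16931 (by decide +kernel) ?_
    refine jn 16986 (by decide +kernel) ?_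
    refine jn 17395 (by decide +kernel) ?_
    refine jn 17655 (by decide +kernel) ?_
    refine jn 17826 (by decide +kernel) ?_
    refine jn 17962 (by decide +kernel) ?_
    refine jn 18081 (by decide +kernel) ?_
    refine jn 18180 (by decide +kernel) ?_
    refine jn 18274 (by decide +kernel) ?_
    refine jn 18358 (by decide +kernel) ?_
    refine jn 18434 (by decide +kernel) ?_
    refine jn 18504 (by decide +kernel) ?_
    refine jn 18577 (by decide +kernel) ?_
    refine jn 18644 (by decide +kernel) ?_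
    refine jn 18702 (by decide +kernel) ?_
    refine jn 18756 (by decide +kernel) ?_
    refine jn 18811 (by decide +kernel) ?_
    refine jn 18864 (by decide +kernel) ?_
    refine jn 18914 (by decide +kernel) ?_
    refine jn 18964 (by decide +kernel) ?_
    refine jn 19008 (by decide +kernel) ?_
    refine jn 19187 (by decide +kernel) ?_
    refine jn 19588 (by decide +kernel) ?_
    refine jn 19824 (by decide +kernel) ?_
    refine jn 19998 (by decide +kernel) ?_
    refine jn 20166 (by decide +kernel) ?_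
    refine jn 20280 (by decide +kernel) ?_
    refine jn 20418 (by decide +kernel) ?_
    refine jn 20531 (by decide +kernel) ?_
    refine jn 20639 (by decide +kernel) ?_
    refine jn 20736 (by decide +kernel) ?_
    refine jn 20829 (by decide +kernel) ?_
    refine jn 20914 (by decide +kernel) ?_
    refine jn 20996 (by decide +kernel) ?_
    refine jn 21076 (by decide +kernel) ?_
    refine jn 21675 (by decide +kernel) ?_
    refine jn 21947 (by decide +kernel) ?_
    refine jn 22162 (by decide +kernel) ?_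
    refine jn 22356 (by decide +kernel) ?_
    refine jn 22515 (by decide +kernel) ?_
    refine jn 22681 (by decide +kernel) ?_
    refine jn 23381 (by decide +kernel) ?_
    refine jn 23603 (by decide +kernel) ?_
    refine jn 23932 (by decide +kernel) ?_
    refine jn 24168 (by decide +kernel) ?_
    refine jn 24346 (by decide +kernel) ?_
    exact je (by decide +kernel)

end Pool.Agent.MP_2339ce_nt.NR
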