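import Pool.Agent.MP_2339ce_nt.Q2.NC.L10
import Pool.Agent.MP_2339ce_nt.Q2.CkI

/-! Block NR: runs. -/

set_option autoImplicit false
set_option maxRecDepth 100000

noncomputable section

namespace Pool.Agent.MP_2339ce_nt.NR

open Q2.Top

def T13_0 : Ph :=
  (.na 743 178 (.na 449 99 (.na 275 59 (.na 143 37 (.na 76 29 (.na 37 27 (.nx 36 2642247 (.nr 35
  1048577 (.nr 1 22 .s1 (.nx 4 234 (.nx 3 233 (.nr 2 292 (.lg 0 true 1 29 29 11 0 20592) (.l1 .sk))
  (.l1 .sk)) (.nx 17 82572 (.nx 5 408 (.l1 (.ls 79 43 4299)) (.nr 16 741457 (.nr 10 185365 (.lg 0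
  false 5 103 103 19 0 720720) (.nx 15 16385 (.lg 0 false 5 97 101 19 0 102960) .out)) .out)) (.nr
  34 131073 (.nx 28 660563 (.nr 22 1880 (.lg 0 true 5 79 79 19 0 9360) (.nx 27 524289 (.lg 2 false
  5 97 101 19 43166 720720) .out)) (.nr 33 129 (.lg 0 true 5 67 67 19 0 9360) .out)) .out)))) .out)
  .out) (.nx 75 2642247 (.nr 74 1048577 (.nr 38 23 .s1 (.nx 41 234 (.nx 40 233 (.nr 39 313 (.lg 0
  false 1 29 29 16 0 7920) (.l1 .sk)) (.l1 .sk)) (.nx 68 660563 (.nx 42 408 (.l1 (.ls 73 41 4140))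
  (.nr 67 741457 (.nr 59 185365 (.nx 49 82572 (.lg 0 false 7 97 101 17 0 55440) (.nr 58 131073 (.nr
  53 1969 (.lg 0 true 4 73 73 16 0 144) (.nx 57 524289 (.lg 2 false 4 89 89 16 43166 720) .out))
  .out)) (.nx 66 16385 (.lg 0 false 7 83 89 17 0 2520) .out)) .out)) (.nr 73 129 (.lg 0 true 5 61
  61 16 0 360) .out)))) .out) .out)) (.na 112 32 (.nx 111 2642247 (.nr 110 1048577 (.nr 77 25 .s1
  (.nx 105 660563 (.nx 79 233 (.nr 78 346 (.lg 0 false 1 31 31 13 0 20592) (.l1 .sk)) (.nx 80 234
  (.l1 .sk) (.nx 81 408 (.l1 (.ls 79 37 3855)) (.nr 104 741457 (.nx 92 82572 (.nr 86 185365 (.lg 0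
  false 5 101 103 16 0 102960) (.nx 91 16385 (.lg 0 false 5 97 97 16 0 3960) .out)) (.nr 103 131073
  (.nr 97 3020 (.lg 0 true 5 79 79 16 0 360) (.nx 102 524289 (.lg 2 false 5 89 97 16 43166 3960)
  .out)) .out)) .out)))) (.nr 109 129 (.lg 0 true 4 61 61 16 0 144) .out))) .out) .out) (.na 113 33
  .ne (.nx 142 2642247 (.nr 141 881745 (.nr 114 30 .s1 (.nx 117 234 (.nx 116 233 (.nr 115 400 (.lg
  0 false 1 31 31 16 0 3960) (.l1 .sk)) (.l1 .sk)) (.nx 118 408 (.l1 (.ls 79 41 3388)) (.nr 140
  623489 (.nx 127 52017 (.nr 122 185365 (.lg 0 false 4 101 103 19 0 720720) (.nx 126 16385 (.lg 0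
  false 4 101 103 19 0 720720) .out)) (.nr 139 92683 (.nr 137 77937 (.nx 132 262145 (.nr 128 1109
  (.lg 0 false 1 79 79 16 0 3960) (.lg 2 false 4 89 101 19 40793 55440)) (.nr 136 257 (.lg 0 true 4
  73 73 19 0 1584) .out)) (.nx 138 65537 (.lg 0 false 1 79 79 16 0 3960) .out)) .out)) .out))))
  .out) .out)))) (.na 228 46 (.na 171 39 (.nx 170 2642247 (.nr 169 881745 (.nr 144 34 .s1 (.nx 147
  234 (.nx 146 233 (.nr 145 422 (.lg 0 false 1 23 23 16 0 3960) (.l1 .sk)) (.l1 .sk)) (.nx 158
  41287 (.nx 148 408 (.l1 (.ls 79 31 3022)) (.nr 157 623489 (.nr 152 185365 (.lg 0 false 4 97 97 16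
  0 7920) (.nx 156 16385 (.lg 0 false 4 97 97 16 0 7920) .out)) .out)) (.nr 168 110219 (.nr 163 422
  (.lg 0 true 5 73 73 16 0 360) (.nx 167 262145 (.lg 2 false 4 101 101 16 72619 55440) .out))
  .out)))) .out) .out) (.na 200 43 (.nx 199 2642247 (.nr 198 881745 (.nr 172 36 .s1 (.nx 175 234
  (.nx 174 233 (.nr 173 465 (.lg 0 true 1 29 29 17 0 936) (.l1 .sk)) (.l1 .sk)) (.nx 192 262145
  (.nx 188 65537 (.nx 176 408 (.l1 (.ls 73 41 2867)) (.nr 187 623489 (.nr 181 185365 (.lg 0 false 5
  97 101 23 0 360360) (.nx 186 16385 (.lg 0 false 5 83 89 23 0 4680) .out)) .out)) (.nr 191 77937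
  (.nr 189 1251 (.lg 0 true 1 71 71 17 0 936) (.lg 2 false 2 89 97 17 32378 1872)) .out)) (.nr 197
  257 (.lg 0 true 5 67 71 23 0 4680) .out)))) .out) .out) (.nx 227 2642247 (.nr 226 881745 (.nr 201
  41 .s1 (.nx 205 408 (.nx 203 233 (.nr 202 497 (.l1 (.ls 19 29 1265)) (.l1 .sk)) (.nx 204 234 (.l1
  .sk) (.l1 (.ls 73 31 2600)))) (.nr 225 623489 (.nx 212 41287 (.lg 0 false 7 89 97 16 0 2520) (.nr
  224 110219 (.nr 219 497 (.lg 0 true 7 71 71 16 0 504) (.nx 223 262145 (.lg 2 false 4 89 97 16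
  72619 720) .out)) .out)) .out))) .out) .out))) (.na 229 54 .ne (.na 252 58 (.nx 251 2642247 (.nr
  250 881745 (.nr 230 52 .s1 (.nx 232 233 (.nr 231 627 (.l1 (.ls 19 41 1008)) (.l1 .sk)) (.nx 233
  234 (.l1 .sk) (.nx 238 32769 (.lg 0 false 5 89 89 23 0 720) (.nr 249 92683 (.nr 243 627 (.lg 0
  true 5 67 67 23 0 720) (.nx 248 262145 (.lg 2 false 5 79 83 23 76969 720) .out)) .out))))) .out)
  .out) (.nx 274 2642247 (.nr 273 881745 (.nr 253 56 .s1 (.nx 256 234 (.nx 255 233 (.nr 254 638
  (.l1 (.ls 23 37 939)) (.l1 .sk)) (.l1 .sk)) (.nx 263 32769 (.lg 0 false 7 89 97 23 0 5040) (.nr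
  272 92683 (.nr 268 638 (.lg 0 true 5 73 73 19 0 720) (.nx 271 262145 (.lg 2 false 3 89 89 19
  76969 144) .out)) .out)))) .out) .out))))) (.na 357 78 (.na 297 66 (.na 296 64 (.nx 295 2642247
  (.nr 294 881745 (.nr 276 57 .s1 (.nx 279 234 (.nx 278 233 (.nr 277 692 (.l1 (.ls 19 23 923)) (.l1
  .sk)) (.l1 .sk)) (.nx 284 32769 (.lg 0 false 5 89 89 16 0 360) (.nr 293 92683 (.nr 289 692 (.lg 0
  true 5 71 71 16 0 360) (.nx 292 262145 (.lg 2 false 3 83 83 16 76969 72) .out)) .out)))) .out)
  .out) .ne) (.na 318 67 (.nx 317 2642247 (.nr 316 2097153 (.nr 298 65 .s1 (.nx 302 408 (.nx 300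
  233 (.nr 299 724 (.l1 (.ls 29 41 825)) (.l1 .sk)) (.nx 301 234 (.l1 .sk) (.l1 (.ls 79 43 1695))))
  (.nr 315 1048577 (.nx 307 32769 (.lg 0 false 5 89 97 37 0 7920) (.nr 314 65537 (.nr 312 724 (.lg
  0 true 5 71 73 37 0 7920) (.nx 313 416129 (.lg 2 true 1 89 89 29 66960 1584) .out)) .out))
  .out))) .out) .out) (.na 338 74 (.nx 337 2642247 (.nr 336 2097153 (.nr 319 66 .s1 (.nx 320 408
  (.l1 (.ls 79 31 2487)) (.nr 335 1048577 (.nx 327 32769 (.lg 0 false 7 89 97 17 0 2520) (.nr 334
  65537 (.nr 331 800 (.lg 0 true 4 71 71 16 0 144) (.nx 333 416129 (.lg 2 false 2 83 83 16 60599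
  144) .out)) .out)) .out))) .out) .out) (.nx 356 2642247 (.nr 355 2097153 (.nr 339 73 .s1 (.nx 340
  408 (.l1 (.ls 79 43 2252)) (.nr 354 1048577 (.nx 345 32769 (.lg 0 false 5 89 89 23 0 720) (.nr
  353 65537 (.nr 350 843 (.lg 0 true 5 71 71 23 0 720) (.nx 352 416129 (.lg 2 true 2 83 83 19 57508
  144) .out)) .out)) .out))) .out) .out)))) (.na 413 89 (.na 377 83 (.nx 376 2642247 (.nr 375
  2097153 (.nr 358 77 .s1 (.nx 361 234 (.nx 360 233 (.nr 359 897 (.l1 (.ls 31 41 699)) (.l1 .sk))
  (.l1 .sk)) (.nx 370 32769 (.nx 362 408 (.l1 (.ls 83 43 1435)) (.nr 369 1048577 (.lg 0 false 7 89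
  101 37 0 65520) .out)) (.nr 374 65537 (.nr 372 897 (.lg 0 true 2 73 73 31 0 1872) (.nx 373 416129
  (.lg 2 true 1 89 89 29 54483 9360) .out)) .out)))) .out) .out) (.na 394 86 (.nx 393 2642247 (.nr
  392 2097153 (.nr 378 82 .s1 (.nx 384 32769 (.nx 379 408 (.l1 (.ls 73 29 2008)) (.nr 383 1048577
  (.lg 0 false 4 89 89 16 0 720) .out)) (.nr 391 65537 (.nr 388 930 (.lg 0 true 4 67 67 16 0 144)
  (.nx 390 416129 (.lg 2 false 2 73 73 16 54483 144) .out)) .out))) .out) .out) (.nx 412 2642247
  (.nr 411 2097153 (.nr 395 85 .s1 (.nx 396 408 (.l1 (.ls 79 37 1938)) (.nr 410 1048577 (.nx 401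
  32769 (.lg 0 false 5 89 89 23 0 720) (.nr 409 65537 (.nr 406 962 (.lg 0 true 5 71 71 23 0 720)
  (.nx 408 416129 (.lg 2 false 2 79 79 19 54483 144) .out)) .out)) .out))) .out) .out))) (.na 431
  91 (.nx 430 2642247 (.nr 429 2097153 (.nr 414 88 .s1 (.nx 421 32769 (.nx 415 408 (.l1 (.ls 71 29
  1873)) (.nr 420 1048577 (.lg 0 false 5 79 79 17 0 360) .out)) (.nr 428 65537 (.nr 426 984 (.lg 0
  true 5 61 61 17 0 360) (.nx 427 416129 (.lg 2 true 1 73 73 16 54483 72) .out)) .out))) .out)
  .out) (.na 432 94 .ne (.nx 448 2642247 (.nr 447 2097153 (.nr 433 93 .s1 (.nx 440 27145 (.nx 434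
  408 (.l1 (.ls 79 37 1773)) (.nr 439 1482912 (.lg 0 false 5 89 89 23 0 720) .out)) (.nr 446 65537
  (.nr 443 513 (.lg 0 true 3 61 61 19 0 144) (.nx 445 416129 (.lg 2 true 2 83 83 19 94502 144)
  .out)) .out))) .out) .out)))))) (.na 593 134 (.na 529 118 (.na 481 103 (.na 464 101 (.nx 463
  2642247 (.nr 462 2097153 (.nr 450 98 .s1 (.nx 457 27145 (.nx 451 408 (.l1 (.ls 73 37 1684)) (.nr
  456 1482912 (.lg 0 false 5 83 89 29 0 3960) .out)) (.nr 461 65537 (.nr 459 1092 (.lg 0 true 2 73
  73 23 0 1584) (.nx 460 416129 (.lg 2 false 1 83 83 19 65770 792) .out)) .out))) .out) .out) (.nx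
  480 2642247 (.nr 479 2097153 (.nr 465 100 .s1 (.nx 472 27145 (.nx 466 408 (.l1 (.ls 71 29 1651))
  (.nr 471 1482912 (.lg 0 false 5 79 79 17 0 360) .out)) (.nr 478 65537 (.nr 475 513 (.lg 0 true 3
  59 59 16 0 72) (.nx 477 416129 (.lg 2 true 2 73 73 16 94502 144) .out)) .out))) .out) .out)) (.na
  496 109 (.nx 495 2642247 (.nr 494 2097153 (.nr 482 102 .s1 (.nx 488 27145 (.nx 483 408 (.l1 (.ls
  71 29 1619)) (.nr 487 1482912 (.lg 0 false 4 83 83 17 0 144) .out)) (.nr 493 65537 (.nr 491 513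
  (.lg 0 true 3 59 59 16 0 72) (.nx 492 416129 (.lg 2 false 1 79 79 16 94502 72) .out)) .out)))
  .out) .out) (.na 512 117 (.nx 511 2642247 (.nr 510 2097153 (.nr 497 108 .s1 (.nx 504 27145 (.nx
  498 408 (.l1 (.ls 67 29 1530)) (.nr 503 1482912 (.lg 0 false 5 79 79 17 0 360) .out)) (.nr 509
  65537 (.nr 506 513 (.lg 0 true 2 59 59 16 0 144) (.nx 508 416129 (.lg 2 true 2 73 73 16 94502
  144) .out)) .out))) .out) .out) (.nx 528 2642247 (.nr 527 2097153 (.nr 513 117 .s1 (.nx 519 26009
  (.nx 514 408 (.l1 (.ls 79 37 1425)) (.nr 518 1482912 (.lg 0 false 4 89 89 29 0 1872) .out)) (.nr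
  526 65537 (.nx 523 416129 (.nx 521 66953 (.lg 0 true 2 73 73 23 0 1872) (.nr 522 3762 (.lg 0 true
  1 73 73 19 0 936) (.lg 2 false 1 79 79 19 26666 936))) (.nr 525 513 (.lg 0 true 2 71 71 23 0
  1872) .out)) .out))) .out) .out)))) (.na 574 128 (.na 543 121 (.nx 542 2642247 (.nr 541 2097153
  (.nr 530 118 .s1 (.nx 535 27145 (.nx 531 408 (.l1 (.ls 73 37 1413)) (.nr 534 1482912 (.lg 0 false
  3 89 89 23 0 720) .out)) (.nr 540 65537 (.nr 537 513 (.lg 0 true 2 61 61 19 0 144) (.nx 539
  416129 (.lg 2 true 2 79 79 19 94502 144) .out)) .out))) .out) .out) (.na 559 127 (.nx 558 2642247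
  (.nr 557 2097153 (.nr 544 121 .s1 (.nx 545 408 (.l1 (.ls 71 31 1378)) (.nr 556 1482912 (.nx 550
  27145 (.lg 0 false 5 79 83 19 0 3960) (.nr 555 65537 (.nr 553 1373 (.lg 0 true 3 61 61 19 0 792)
  (.nx 554 416129 (.lg 2 false 1 79 79 17 65770 5544) .out)) .out)) .out))) .out) .out) (.nx 573
  2642247 (.nr 572 2097153 (.nr 560 127 .s1 (.nx 566 27145 (.nx 561 408 (.l1 (.ls 71 29 1313)) (.nr
  565 1482912 (.lg 0 false 4 83 83 17 0 720) .out)) (.nr 571 65537 (.nr 569 1383 (.lg 0 true 3 61
  61 17 0 72) (.nx 570 416129 (.lg 2 false 1 73 73 16 65770 360) .out)) .out))) .out) .out))) (.na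
  575 129 .ne (.na 592 131 (.nx 591 1321124 (.nr 590 2097153 (.nr 576 129 .s1 (.nx 579 234 (.nx 578
  233 (.nr 577 1416 (.l1 (.ls 19 23 423)) (.l1 .sk)) (.l1 .sk)) (.nx 586 41287 (.nx 584 26009 (.lg
  0 false 5 79 89 29 0 360) (.nr 585 65537 (.lg 0 false 1 71 71 19 0 72) .out)) (.nr 589 16385 (.nr
  587 1025 (.lg 0 true 1 67 67 19 0 72) (.nx 588 165142 (.lg 2 true 1 61 61 19 18770 72) .out))
  .out)))) .out) .out) (.lg 0 false 1 0 0 16 0 24))))) (.na 667 162 (.na 639 149 (.na 609 139 (.nx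
  608 1321124 (.nr 607 2097153 (.nr 594 134 .s1 (.nx 602 41287 (.nx 596 233 (.nr 595 1502 (.l1 (.ls
  17 29 408)) (.l1 .sk)) (.nx 597 234 (.l1 .sk) (.lg 0 false 5 89 89 29 0 720))) (.nr 606 16385
  (.nr 604 1025 (.lg 0 true 2 59 59 23 0 144) (.nx 605 165142 (.lg 2 false 1 59 59 19 18770 144)
  .out)) .out))) .out) .out) (.na 624 141 (.nx 623 1321124 (.nr 622 2097153 (.nr 610 139 .s1 (.nx
  613 234 (.nx 612 233 (.nr 611 1524 (.l1 (.ls 17 19 393)) (.l1 .sk)) (.l1 .sk)) (.nx 618 41287
  (.lg 0 false 5 79 83 17 0 360) (.nr 621 16385 (.nr 619 1025 (.lg 0 false 1 61 61 16 0 72) (.nx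
  620 165142 (.lg 2 false 1 59 59 16 18770 792) .out)) .out)))) .out) .out) (.nx 638 1321124 (.nr
  637 2097153 (.nr 625 141 .s1 (.nx 635 165142 (.nx 627 233 (.nr 626 1610 (.l1 (.ls 19 23 388))
  (.l1 .sk)) (.nx 628 234 (.l1 .sk) (.nx 633 26009 (.lg 0 false 5 79 89 29 0 360) (.nr 634 65537
  (.lg 0 true 1 83 83 19 0 72) .out)))) (.nr 636 1025 (.lg 0 true 1 67 67 19 0 72) .out))) .out)
  .out))) (.na 640 157 (.lg 0 false 1 0 0 16 0 24) (.na 654 158 (.nx 653 1321124 (.nr 652 2097153
  (.nr 641 157 .s1 (.nx 643 233 (.nr 642 1708 (.l1 (.ls 17 19 348)) (.l1 .sk)) (.nx 644 234 (.l1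
  .sk) (.nx 648 41287 (.lg 0 false 4 83 83 17 0 720) (.nr 651 16385 (.nr 649 1025 (.lg 0 false 1 61
  61 16 0 72) (.nx 650 165142 (.lg 2 false 1 53 53 16 18770 72) .out)) .out))))) .out) .out) (.nx
  666 1321124 (.nr 665 2097153 (.nr 655 158 .s1 (.nx 663 165142 (.nx 657 233 (.nr 656 1751 (.l1
  (.ls 23 29 346)) (.l1 .sk)) (.nx 658 234 (.l1 .sk) (.nx 661 26009 (.lg 0 false 3 83 83 23 0 144)
  (.nr 662 65537 (.lg 0 false 1 83 83 19 0 144) .out)))) (.nr 664 1025 (.lg 0 false 1 67 67 19 0
  144) .out))) .out) .out)))) (.na 713 167 (.na 684 163 (.nx 683 1321124 (.nr 682 2097153 (.nr 668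
  162 .s1 (.nx 670 233 (.nr 669 1762 (.l1 (.ls 19 31 338)) (.l1 .sk)) (.nx 671 234 (.l1 .sk) (.nx
  678 41287 (.lg 0 false 7 79 83 31 0 5040) (.nr 681 16385 (.nr 679 1025 (.lg 0 false 1 67 67 23 0
  720) (.nx 680 165142 (.lg 2 false 1 53 53 23 18770 144) .out)) .out))))) .out) .out) (.na 698 166
  (.nx 697 1321124 (.nr 696 2097153 (.nr 685 163 .s1 (.nx 688 234 (.nx 687 233 (.nr 686 1794 (.l1
  (.ls 19 19 336)) (.l1 .sk)) (.l1 .sk)) (.nx 692 41287 (.lg 0 false 4 83 83 17 0 720) (.nr 695
  16385 (.nr 693 1025 (.lg 0 false 1 61 61 16 0 72) (.nx 694 165142 (.lg 2 false 1 53 53 16 18770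
  72) .out)) .out)))) .out) .out) (.nx 712 1321124 (.nr 711 2097153 (.nr 699 166 .s1 (.nx 701 233
  (.nr 700 1805 (.l1 (.ls 19 29 330)) (.l1 .sk)) (.nx 702 234 (.l1 .sk) (.nx 707 41287 (.lg 0 false
  5 79 89 29 0 720) (.nr 710 16385 (.nr 708 1025 (.lg 0 false 1 67 67 19 0 144) (.nx 709 165142
  (.lg 2 false 1 59 59 19 18770 144) .out)) .out))))) .out) .out))) (.na 714 173 (.lg 0 false 1 0 0
  16 0 24) (.na 728 174 (.nx 727 1321124 (.nr 726 2097153 (.nr 715 173 .s1 (.nx 717 233 (.nr 716
  1881 (.l1 (.ls 19 19 316)) (.l1 .sk)) (.nx 718 234 (.l1 .sk) (.nx 722 41287 (.lg 0 false 4 83 83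
  17 0 720) (.nr 725 16385 (.nr 723 1025 (.lg 0 false 1 61 61 16 0 72) (.nx 724 165142 (.lg 2 false
  1 53 53 16 18770 72) .out)) .out))))) .out) .out) (.nx 742 1321124 (.nr 741 2097153 (.nr 729 174
  .s1 (.nx 739 165142 (.nx 737 26009 (.nx 731 233 (.nr 730 1924 (.l1 (.ls 23 37 315)) (.l1 .sk))
  (.nx 732 234 (.l1 .sk) (.lg 0 false 5 83 89 41 0 720))) (.nr 738 65537 (.lg 0 true 1 83 83 23 0
  144) .out)) (.nr 740 1025 (.lg 0 true 1 67 67 23 0 144) .out))) .out) .out))))))) (.na 1013 249
  (.na 872 211 (.na 802 193 (.na 771 181 (.na 756 179 (.nx 755 1321124 (.nr 754 2097153 (.nr 744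
  178 .s1 (.nx 752 165142 (.nx 750 26009 (.nx 746 233 (.nr 745 1935 (.l1 (.ls 19 29 307)) (.l1
  .sk)) (.nx 747 234 (.l1 .sk) (.lg 0 false 3 79 79 23 0 144))) (.nr 751 65537 (.lg 0 false 1 79 79
  19 0 720) .out)) (.nr 753 1025 (.lg 0 false 1 61 61 19 0 144) .out))) .out) .out) (.nx 770
  1321124 (.nr 769 2097153 (.nr 757 179 .s1 (.nx 759 233 (.nr 758 1956 (.l1 (.ls 16 19 306)) (.l1
  .sk)) (.nx 760 234 (.l1 .sk) (.nx 765 41287 (.lg 0 false 5 79 79 19 0 360) (.nr 768 16385 (.nr
  766 1025 (.lg 0 false 1 59 59 16 0 72) (.nx 767 165142 (.lg 2 false 1 53 53 16 18770 72) .out))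
  .out))))) .out) .out)) (.na 786 182 (.nx 785 1321124 (.nr 784 2097153 (.nr 772 181 .s1 (.nx 775
  234 (.nx 774 233 (.nr 773 1967 (.l1 (.ls 16 19 302)) (.l1 .sk)) (.l1 .sk)) (.nx 780 41287 (.lg 0
  false 5 73 79 19 0 360) (.nr 783 16385 (.nr 781 1025 (.lg 0 false 1 59 59 16 0 72) (.nx 782
  165142 (.lg 2 false 1 47 47 16 18770 72) .out)) .out)))) .out) .out) (.na 787 191 .ne (.nx 801
  1321124 (.nr 800 1482912 (.nr 788 191 .s1 (.nx 796 41287 (.nx 790 233 (.nr 789 2086 (.l1 (.ls 17
  19 287)) (.l1 .sk)) (.nx 791 234 (.l1 .sk) (.lg 0 false 5 73 79 19 0 360))) (.nr 799 16385 (.nr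
  797 1025 (.lg 0 false 1 59 59 16 0 72) (.nx 798 165142 (.lg 2 false 1 53 53 16 18770 72) .out))
  .out))) .out) .out)))) (.na 829 199 (.na 803 197 (.lg 0 false 1 0 0 16 0 24) (.na 817 198 (.nx
  816 1321124 (.nr 815 1482912 (.nr 804 197 .s1 (.nx 807 234 (.nx 806 233 (.nr 805 2140 (.l1 (.ls
  17 19 278)) (.l1 .sk)) (.l1 .sk)) (.nx 811 41287 (.lg 0 false 4 79 79 19 0 720) (.nr 814 16385
  (.nr 812 1025 (.lg 0 false 1 61 61 16 0 360) (.nx 813 165142 (.lg 2 false 1 47 47 16 18770 72)
  .out)) .out)))) .out) .out) (.nx 828 1321124 (.nr 827 1482912 (.nr 818 198 .s1 (.nx 825 165142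
  (.nx 820 233 (.nr 819 2151 (.l1 (.ls 31 37 277)) (.l1 .sk)) (.nx 821 234 (.l1 .sk) (.nx 823 26009
  (.lg 0 false 2 89 89 37 0 7920) (.nr 824 65537 (.lg 0 false 1 83 83 31 0 7920) .out)))) (.nr 826
  1025 (.lg 0 true 1 67 67 31 0 1584) .out))) .out) .out))) (.na 844 202 (.nx 843 1321124 (.nr 842
  1482912 (.nr 830 199 .s1 (.nx 833 234 (.nx 832 233 (.nr 831 2183 (.l1 (.ls 16 19 275)) (.l1 .sk))
  (.l1 .sk)) (.nx 838 41287 (.lg 0 false 5 73 73 19 0 360) (.nr 841 16385 (.nr 839 1025 (.lg 0
  false 1 59 59 16 0 72) (.nx 840 165142 (.lg 2 true 1 47 47 16 18770 72) .out)) .out)))) .out)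
  .out) (.na 857 206 (.nx 856 1321124 (.nr 855 1482912 (.nr 845 202 .s1 (.nx 851 41287 (.nx 847 233
  (.nr 846 2226 (.l1 (.ls 19 29 271)) (.l1 .sk)) (.nx 848 234 (.l1 .sk) (.lg 0 false 3 79 79 29 0
  144))) (.nr 854 16385 (.nr 852 1025 (.lg 0 false 1 61 61 23 0 144) (.nx 853 165142 (.lg 2 true 1
  53 53 23 18770 144) .out)) .out))) .out) .out) (.nx 871 1321124 (.nr 870 1482912 (.nr 858 206 .s1
  (.nx 861 234 (.nx 860 233 (.nr 859 2280 (.l1 (.ls 17 29 266)) (.l1 .sk)) (.l1 .sk)) (.nx 866
  41287 (.lg 0 false 5 73 79 29 0 720) (.nr 869 16385 (.nr 867 1025 (.lg 0 false 1 59 59 23 0 144)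
  (.nx 868 165142 (.lg 2 false 1 53 53 23 18770 144) .out)) .out)))) .out) .out))))) (.na 936 227
  (.na 900 222 (.na 887 218 (.nx 886 1321124 (.nr 885 1482912 (.nr 873 211 .s1 (.nx 875 233 (.nr
  874 2356 (.l1 (.ls 16 19 260)) (.l1 .sk)) (.nx 876 234 (.l1 .sk) (.nx 881 41287 (.lg 0 false 5 73
  73 19 0 360) (.nr 884 16385 (.nr 882 1025 (.lg 0 false 1 59 59 16 0 72) (.nx 883 165142 (.lg 2
  false 1 47 47 16 18770 72) .out)) .out))))) .out) .out) (.nx 899 1321124 (.nr 898 1482912 (.nr
  888 218 .s1 (.nx 891 234 (.nx 890 233 (.nr 889 2399 (.l1 (.ls 19 29 252)) (.l1 .sk)) (.l1 .sk))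
  (.nx 894 41287 (.lg 0 false 3 79 79 29 0 720) (.nr 897 16385 (.nr 895 1025 (.lg 0 false 1 61 61
  23 0 720) (.nx 896 165142 (.lg 2 false 1 53 53 23 18770 720) .out)) .out)))) .out) .out)) (.na
  912 223 (.nx 911 1321124 (.nr 910 1482912 (.nr 901 222 .s1 (.nx 903 233 (.nr 902 2410 (.l1 (.ls
  29 31 247)) (.l1 .sk)) (.nx 904 234 (.l1 .sk) (.nx 908 165142 (.nx 906 26009 (.lg 0 false 2 89 89
  31 0 720) (.nr 907 65537 (.lg 0 true 1 83 83 31 0 720) .out)) (.nr 909 1025 (.lg 0 true 1 67 67
  31 0 144) .out))))) .out) .out) (.na 925 226 (.nx 924 1321124 (.nr 923 1482912 (.nr 913 223 .s1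
  (.nx 919 41287 (.nx 915 233 (.nr 914 2442 (.l1 (.ls 16 17 246)) (.l1 .sk)) (.nx 916 234 (.l1 .sk)
  (.lg 0 false 3 73 73 19 0 360))) (.nr 922 16385 (.nr 920 1025 (.lg 0 false 1 59 59 16 0 360) (.nx
  921 165142 (.lg 2 false 1 47 47 16 18770 360) .out)) .out))) .out) .out) (.nx 935 1321124 (.nr
  934 1482912 (.nr 926 226 .s1 (.nx 932 41287 (.nx 928 233 (.nr 927 2453 (.l1 (.ls 17 29 243)) (.l1
  .sk)) (.nx 929 234 (.l1 .sk) (.lg 0 false 3 79 79 29 0 144))) (.nr 933 16385 (.lg 0 false 1 79 79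
  23 0 144) .out))) .out) .out)))) (.na 974 237 (.na 949 229 (.nx 948 1321124 (.nr 947 1482912 (.nr
  937 227 .s1 (.nx 943 41287 (.nx 939 233 (.nr 938 2475 (.l1 (.ls 17 17 242)) (.l1 .sk)) (.nx 940
  234 (.l1 .sk) (.lg 0 false 3 79 79 19 0 72))) (.nr 946 16385 (.nr 944 1025 (.lg 0 false 1 59 59
  17 0 72) (.nx 945 165142 (.lg 2 false 1 47 47 17 18770 72) .out)) .out))) .out) .out) (.na 962
  234 (.nx 961 1321124 (.nr 960 1482912 (.nr 950 229 .s1 (.nx 956 41287 (.nx 952 233 (.nr 951 2529
  (.l1 (.ls 16 17 240)) (.l1 .sk)) (.nx 953 234 (.l1 .sk) (.lg 0 false 3 73 73 19 0 72))) (.nr 959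
  16385 (.nr 957 1025 (.lg 0 false 1 59 59 17 0 72) (.nx 958 165142 (.lg 2 true 1 47 47 17 18770
  72) .out)) .out))) .out) .out) (.nx 973 1321124 (.nr 972 1482912 (.nr 963 234 .s1 (.nx 968 26009
  (.nx 965 233 (.nr 964 2561 (.l1 (.ls 29 37 235)) (.l1 .sk)) (.nx 966 234 (.l1 .sk) (.lg 0 false 2
  83 83 37 0 1872))) (.nr 971 65537 (.nx 969 165142 (.lg 0 true 1 79 79 37 0 1872) (.nr 970 1025
  (.lg 0 true 1 61 61 37 0 1872) .out)) .out))) .out) .out))) (.na 986 242 (.nx 985 1321124 (.nr
  984 1482912 (.nr 975 237 .s1 (.nx 980 26009 (.nx 977 233 (.nr 976 2615 (.l1 (.ls 23 23 232)) (.l1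
  .sk)) (.nx 978 234 (.l1 .sk) (.lg 0 false 2 89 89 23 0 720))) (.nr 983 65537 (.nx 981 165142 (.lg
  0 true 1 73 73 19 0 72) (.nr 982 1025 (.lg 0 true 1 59 59 19 0 72) .out)) .out))) .out) .out)
  (.na 999 243 (.nx 998 1321124 (.nr 997 1482912 (.nr 987 242 .s1 (.nx 993 41287 (.nx 989 233 (.nr
  988 2626 (.l1 (.ls 23 31 227)) (.l1 .sk)) (.nx 990 234 (.l1 .sk) (.lg 0 false 3 83 83 31 0
  7920))) (.nr 996 16385 (.nr 994 1025 (.lg 0 false 1 61 61 29 0 1584) (.nx 995 165142 (.lg 2 false
  1 53 53 29 18770 1584) .out)) .out))) .out) .out) (.nx 1012 1321124 (.nr 1011 1482912 (.nr 1000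
  243 .s1 (.nx 1003 234 (.nx 1002 233 (.nr 1001 2691 (.l1 (.ls 19 23 226)) (.l1 .sk)) (.l1 .sk))
  (.nx 1007 41287 (.lg 0 false 4 79 79 23 0 720) (.nr 1010 16385 (.nr 1008 1025 (.lg 0 false 1 59
  59 19 0 72) (.nx 1009 165142 (.lg 2 true 1 47 47 19 18770 72) .out)) .out)))) .out) .out))))))
  (.na 6076 2897 (.na 1468 363 (.na 1025 254 (.na 1024 251 (.nx 1023 1321124 (.nr 1022 1482912 (.nr
  1014 249 .s1 (.nx 1020 165142 (.nx 1016 233 (.nr 1015 2713 (.l1 (.ls 19 23 221)) (.l1 .sk)) (.nx
  1017 234 (.l1 .sk) (.nr 1018 65537 (.lg 0 true 1 73 73 23 0 72) (.nx 1019 26009 (.lg 0 false 1 79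
  79 23 0 72) .out)))) (.nr 1021 1025 (.lg 0 true 1 53 53 23 0 72) .out))) .out) .out) (.lg 0 false
  1 0 0 16 0 24)) (.na 1036 256 (.nx 1035 1321124 (.nr 1034 1482912 (.nr 1026 254 .s1 (.nx 1029 234
  (.nx 1028 233 (.nr 1027 2767 (.l1 (.ls 17 29 216)) (.l1 .sk)) (.l1 .sk)) (.nx 1032 41287 (.lg 0
  false 3 73 73 29 0 144) (.nr 1033 16385 (.lg 0 false 1 73 73 23 0 144) .out)))) .out) .out) (.na
  1037 257 .ne (.nx 1467 1321124 (.nr 1466 1482912 (.nr 1038 257 .s1 (.nx 1146 234 (.nx 1145 233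
  (.nr 1144 3923 (.la (.ls 29 19 214)) (.l1 .sk)) (.l1 .sk)) (.nx 1359 165142 (.nx 1252 26009 (.la
  (.lg 0 false 2 79 79 23 0)) (.nr 1358 32769 (.la (.lg 0 true 1 67 67 19 0)) .out)) (.nr 1465 2049
  (.la (.lg 0 true 1 59 59 19 0)) .out)))) .out) .out)))) (.na 3168 1024 (.na 1921 512 (.nx 1920
  1321124 (.nr 1919 1482912 (.nr 1469 363 .s1 (.nx 1619 233 (.nr 1618 5533 (.la (.ls 37 19 152))
  (.l1 .sk)) (.nx 1620 234 (.l1 .sk) (.nr 1769 32769 (.la (.lg 0 true 1 73 73 23 0)) (.nx 1918
  26009 (.la (.lg 0 false 1 73 73 23 0)) .out))))) .out) .out) (.na 2566 725 (.nx 2565 1321124 (.nr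
  2564 1482912 (.nr 1922 512 .s1 (.nx 2350 26009 (.nx 2136 233 (.nr 2135 7834 (.la (.ls 29 23 182))
  (.l1 .sk)) (.nx 2137 234 (.l1 .sk) (.la (.lg 0 false 1 71 71 29 0)))) (.nr 2563 32769 (.la (.lg 0
  true 1 71 71 29 0)) .out))) .out) .out) (.nx 3167 20644 (.nr 3166 2097153 (.nr 2567 725 .s1 (.nx
  2866 2049 (.la (.ls 67 37 5793)) (.nr 3165 262145 (.la (.lg 0 false 1 53 53 29 0)) .out))) .out)
  .out))) (.na 4022 1449 (.nx 4021 20644 (.nr 4020 2097153 (.nr 3169 1024 .s1 (.nx 3594 3252 (.la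
  (.ls 61 41 10330)) (.nr 4019 131073 (.la (.lg 0 false 1 47 47 31 0)) .out))) .out) .out) (.na
  5224 2048 (.nx 5223 13005 (.nr 5222 2097153 (.nr 4023 1449 .s1 (.nx 4622 3252 (.la (.ls 61 41
  7301)) (.nr 5221 16385 (.la (.lg 0 false 1 23 23 31 0)) .out))) .out) .out) (.nx 6075 13005 (.nr
  6074 2097153 (.nr 5225 2048 .s1 (.la (.ls 59 53 82586))) .out) .out))))) (.na 19690 32768 (.na
  11785 8192 (.na 7278 4096 (.nx 7277 4097 (.nr 7276 1048577 (.nr 6077 2897 .s1 (.la (.ls 53 41
  5797))) .out) .out) (.na 8978 5793 (.nx 8977 5162 (.nr 8976 1048577 (.nr 7279 4096 .s1 (.la (.ls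
  47 41 6508))) .out) .out) (.nx 11784 2049 (.nr 11783 524289 (.nr 8979 5793 .s1 (.nx 9384 406 (.lx
  (.lp 53 37 2049)) (.la (.ls 47 37 2049)))) .out) .out))) (.na 15587 11586 (.nx 15586 2049 (.nr
  15585 524289 (.nr 11786 8192 .s1 (.nx 12191 406 (.lx (.lp 47 37 2897)) (.la (.ls 47 41 2897))))
  .out) .out) (.na 17638 16384 (.nx 17637 2049 (.nr 17636 131073 (.nr 15588 11586 .s1 (.lx (.lp 37
  41 4097))) .out) .out) (.nx 19689 2049 (.nr 19688 262145 (.nr 17639 16384 .s1 (.nx 17962 324 (.lx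
  (.lp 41 43 8193)) (.nr 19687 131073 (.lx (.lp 37 43 8193)) .out))) .out) .out)))) (.na 25002
  262144 (.na 21742 65536 (.nx 21741 2049 (.nr 21740 524289 (.nr 19691 32768 .s1 (.nx 20014 324
  (.lx (.lp 41 47 16385)) (.nr 21739 262145 (.lx (.lp 37 47 16385)) .out))) .out) .out) (.na 23372
  131072 (.nx 23371 1627 (.nr 23370 524289 (.nr 21743 65536 .s1 (.nx 22066 324 (.lx (.lp 16 0
  32769)) (.nr 23369 262145 (.lx (.lp 29 53 32769)) .out))) .out) .out) (.nx 25001 1627 (.nr 25000
  524289 (.nr 23373 131072 .s1 (.nx 23885 513 (.lx (.lp 16 53 65537)) (.nr 24999 262145 (.lx (.lp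
  19 59 65537)) .out))) .out) .out))) (.na 25517 524288 (.nx 25516 513 (.nr 25515 1048577 (.nr
  25003 262144 .s1 (.lx (.lp 16 0 131073))) .out) .out) (.na 25519 1048577 (.nx 25518 324 (.l1 .sk)
  .out) .out)))))))

def T13_1 : Ph :=
  (.na 517 27 (.na 244 18 (.na 155 16 (.na 86 14 (.nx 85 2642247 (.nr 84 1246976 (.nx 3 253 (.nx 2
  252 (.nr 1 157 (.lg 0 true 1 31 31 13 0 1008) (.l1 .sk)) (.l1 .sk)) (.nx 6 408 (.nx 4 324 (.l1
  (.ls 83 43 3416)) (.nr 5 1048577 (.l1 (.ls 83 47 5127)) .out)) (.nr 83 741457 (.nx 22 41285 (.nr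
  16 220437 (.lg 0 false 10 97 101 19 0 5040) (.nx 21 1627 (.lg 0 false 5 83 83 17 0 5040) .out))
  (.nr 82 311745 (.nr 32 65 (.lg 0 true 10 71 71 19 0 5040) (.nx 81 660563 (.nx 43 82570 (.nr 42
  262145 (.lg 1 false 10 101 107 19 201811 720720) .out) (.nr 53 8769 (.nr 48 1173 (.lg 0 true 5 83
  83 17 0 5040) (.lg 2 true 5 83 89 17 70956 5040)) (.nx 75 330282 (.nx 58 116772 (.lg 1 false 5 97
  101 17 119979 5040) (.nx 69 208065 (.nx 63 165142 (.lg 1 false 5 97 101 17 84837 5040) (.nr 68
  262145 (.lg 1 false 5 97 97 17 50452 5040) .out)) (.nr 74 220437 (.lg 1 true 5 97 101 17 33679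
  5040) .out))) (.nr 80 77937 (.lg 2 false 5 83 89 17 9492 5040) .out)))) .out)) .out)) .out)))
  .out) .out) (.nx 154 2642247 (.nr 153 1246976 (.nx 110 82570 (.nx 90 408 (.nx 88 252 (.nr 87 180
  (.lg 0 true 1 31 31 11 0 1008) (.l1 .sk)) (.nx 89 253 (.l1 .sk) (.l1 (.ls 83 47 7321)))) (.nr 109
  741457 (.nr 103 262145 (.lg 0 false 13 101 103 17 0 720720) (.nx 108 1627 (.lg 0 false 5 79 79 13
  0 5040) .out)) .out)) (.nr 152 311745 (.nx 144 660563 (.nr 121 1643 (.lg 0 true 11 79 79 13 0
  11088) (.nx 132 165142 (.lg 1 false 11 97 101 13 119979 55440) (.nr 143 262145 (.lg 2 false 11 97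
  101 13 50658 55440) .out))) (.nr 151 65 (.lg 0 true 7 61 61 13 0 1008) .out)) .out)) .out) .out))
  (.na 243 17 (.nx 242 2642247 (.nr 241 1246976 (.nr 156 3 .s1 (.nx 159 253 (.nx 158 252 (.nr 157
  191 (.lg 0 true 1 41 41 11 0 1008) (.l1 .sk)) (.l1 .sk)) (.nx 235 660563 (.nx 160 324 (.l1 (.ls
  97 41 2563)) (.nr 234 1048577 (.nx 161 408 (.l1 (.ls 89 41 3846)) (.nr 233 741457 (.nr 182 65537
  (.nx 166 41285 (.lg 0 false 5 89 97 17 0 5040) (.nr 171 1705 (.lg 0 true 5 89 89 17 0 5040) (.lg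
  2 false 11 83 83 23 50599 11088))) (.nx 232 524289 (.nr 228 311745 (.nr 205 185365 (.nx 195
  330282 (.lg 0 true 13 101 107 23 0 720720) (.nr 204 92683 (.nr 200 77937 (.lg 0 true 5 97 103 17
  0 55440) (.nx 203 416129 (.lg 0 true 3 101 103 13 0 720720) .out)) .out)) (.nx 227 262145 (.nr
  218 262145 (.lg 0 true 13 101 107 23 0 720720) (.nx 226 165142 (.nx 220 13005 (.lg 0 false 2 97
  101 13 0 55440) (.nx 221 82570 .out (.lg 0 true 5 97 103 17 0 55440))) .out)) .out)) (.nx 231
  1627 (.lg 0 false 3 89 97 13 0 55440) .out)) .out)) .out)) .out)) (.nr 240 129 (.lg 0 true 5 79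
  79 17 0 5040) .out)))) .out) .out) .ne)) (.na 359 22 (.na 304 21 (.nx 303 2642247 (.nr 302
  1246976 (.nr 245 9 .s1 (.nx 249 408 (.nx 247 252 (.nr 246 236 (.lg 0 true 1 31 31 13 0 1008) (.l1
  .sk)) (.nx 248 253 (.l1 .sk) (.l1 (.ls 83 47 5694)))) (.nr 301 741457 (.nr 295 311745 (.nr 289
  220437 (.nx 254 59418 (.lg 0 false 5 101 103 19 0 55440) (.nr 265 1726 (.nx 259 660563 (.lg 0
  true 5 83 83 19 0 5040) (.nr 264 129 (.lg 0 true 5 71 71 19 0 5040) .out)) (.nx 288 524289 (.nx
  270 111188 (.lg 1 false 5 97 101 19 117934 55440) (.nx 275 208065 (.lg 1 true 5 97 101 19 63023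
  55440) (.nr 287 155873 (.nr 276 4475 (.lg 2 false 1 79 79 13 38274 1008) (.nr 281 92683 (.lg 2
  false 5 83 89 19 14763 5040) (.nx 286 262145 (.lg 1 true 5 83 89 19 23826 5040) .out))) .out)))
  .out))) (.nx 294 13005 (.lg 0 false 5 83 89 19 0 5040) .out)) (.nx 300 1627 (.lg 0 false 5 79 83
  19 0 5040) .out)) .out))) .out) .out) (.nx 358 2642247 (.nr 357 1246976 (.nr 305 14 .s1 (.nx 329
  59418 (.nx 307 252 (.nr 306 247 (.lg 0 true 1 23 23 16 0 504) (.l1 .sk)) (.nx 308 253 (.l1 .sk)
  (.nx 309 408 (.l1 (.ls 73 43 4881)) (.nr 328 741457 (.nr 322 311745 (.lg 0 false 13 89 97 17 0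
  32760) (.nx 327 1627 (.lg 0 false 5 71 71 16 0 2520) .out)) .out)))) (.nr 356 220437 (.nr 342 666
  (.lg 0 true 13 71 71 17 0 6552) (.nx 355 524289 (.lg 2 false 13 89 97 17 117934 32760) .out))
  .out))) .out) .out)) (.na 412 23 (.nx 411 2642247 (.nr 410 1246976 (.nr 360 16 .s1 (.nx 363 253
  (.nx 362 252 (.nr 361 258 (.lg 0 true 1 29 29 9 0 11088) (.l1 .sk)) (.l1 .sk)) (.nx 364 408 (.l1
  (.ls 83 47 4660)) (.nr 409 741457 (.nr 397 220437 (.nx 369 59418 (.lg 0 false 5 101 101 19 0
  55440) (.nx 391 660563 (.nr 374 4484 (.lg 0 true 5 89 89 19 0 55440) (.nx 390 524289 (.nx 384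
  208065 (.nx 379 111188 (.lg 1 false 5 97 101 19 117934 55440) (.lg 1 true 5 97 101 19 63023
  55440)) (.nr 389 155873 (.lg 2 false 5 89 97 19 23826 55440) .out)) .out)) (.nr 396 129 (.lg 0
  true 5 71 71 19 0 55440) .out))) (.nx 408 13005 (.nr 402 311745 (.lg 0 false 5 83 89 19 0 55440)
  (.nx 407 1627 (.lg 0 false 5 79 79 19 0 55440) .out)) .out)) .out)))) .out) .out) (.na 455 24
  (.nx 454 2642247 (.nr 453 1048577 (.nr 413 17 .s1 (.nx 416 253 (.nx 415 252 (.nr 414 270 (.lg 0
  true 1 29 29 11 0 504) (.l1 .sk)) (.l1 .sk)) (.nx 447 660563 (.nx 417 408 (.l1 (.ls 79 37 4457))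
  (.nr 446 741457 (.nx 434 82572 (.nr 422 185365 (.lg 0 false 5 97 101 16 0 2520) (.nx 433 16385
  (.nr 427 524289 (.lg 0 false 5 89 97 16 0 2520) (.nx 432 2582 (.lg 0 false 5 79 79 16 0 2520)
  .out)) .out)) (.nr 445 131073 (.nr 439 1784 (.lg 0 true 5 79 79 16 0 2520) (.nx 444 524289 (.lg 2
  false 5 97 97 16 50500 2520) .out)) .out)) .out)) (.nr 452 129 (.lg 0 true 5 67 67 16 0 2520)
  .out)))) .out) .out) (.nx 516 2642247 (.nr 515 1048577 (.nr 456 19 .s1 (.nx 459 253 (.nx 458 252
  (.nr 457 303 (.lg 0 false 1 31 31 13 0 5040) (.l1 .sk)) (.l1 .sk)) (.nx 460 408 (.l1 (.ls 83 47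
  4271)) (.nr 514 741457 (.nr 510 524289 (.nx 504 660563 (.nr 498 185365 (.nx 471 65537 (.lg 0
  false 11 89 97 23 0 55440) (.nr 497 155873 (.nr 494 131073 (.nr 482 77937 (.nr 476 1926 (.lg 0
  true 5 83 83 19 0 5040) (.nx 481 524289 (.lg 2 true 5 79 79 19 37883 5040) .out)) (.nx 493 416129
  (.nx 487 165142 (.lg 0 true 5 101 103 19 0 720720) (.nr 492 92683 (.lg 0 true 5 89 97 19 0 5040)
  .out)) .out)) (.nx 496 82572 (.lg 0 true 2 83 83 13 0 5040) .out)) .out)) (.nx 503 16385 (.lg 0
  false 5 89 97 19 0 5040) .out)) (.nr 509 129 (.lg 0 true 5 71 71 19 0 5040) .out)) (.nx 513 2582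
  (.lg 0 false 3 79 79 19 0 1008) .out)) .out)))) .out) .out))))) (.na 662 36 (.na 554 29 (.na 518
  28 (.lg 0 false 1 0 0 7 0 24) (.nx 553 2642247 (.nr 552 1048577 (.nr 519 24 .s1 (.nx 522 253 (.nx
  521 252 (.nr 520 326 (.lg 0 true 1 29 29 13 0 11088) (.l1 .sk)) (.l1 .sk)) (.nx 547 660563 (.nx
  535 82572 (.nx 523 408 (.l1 (.ls 79 43 3662)) (.nr 534 741457 (.nr 528 185365 (.lg 0 false 5 101
  101 19 0 55440) (.nx 533 16385 (.lg 0 false 5 97 97 19 0 5040) .out)) .out)) (.nr 546 131073 (.nr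
  540 2914 (.lg 0 true 5 83 83 19 0 5040) (.nx 545 524289 (.lg 2 false 5 97 101 19 50500 55440)
  .out)) .out)) (.nr 551 129 (.lg 0 true 4 67 67 19 0 1008) .out)))) .out) .out)) (.na 590 32 (.nx
  589 2642247 (.nr 588 1048577 (.nr 555 25 .s1 (.nx 559 408 (.nx 557 252 (.nr 556 360 (.lg 0 false
  1 29 29 13 0 2520) (.l1 .sk)) (.nx 558 253 (.l1 .sk) (.l1 (.ls 79 37 3535)))) (.nr 587 741457
  (.nx 582 660563 (.nx 570 82572 (.nr 564 185365 (.lg 0 false 5 97 101 16 0 2520) (.nx 569 16385
  (.lg 0 false 5 89 97 16 0 2520) .out)) (.nr 581 131073 (.nr 575 3093 (.lg 0 true 5 83 83 16 0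
  2520) (.nx 580 524289 (.lg 2 false 5 89 97 16 50500 2520) .out)) .out)) (.nr 586 129 (.lg 0 true
  4 71 71 16 0 1008) .out)) .out))) .out) .out) (.na 630 33 (.nx 629 2642247 (.nr 628 1048577 (.nr
  591 28 .s1 (.nx 622 524289 (.nx 595 408 (.nx 593 252 (.nr 592 371 (.lg 0 false 1 31 37 13 0 1008)
  (.l1 .sk)) (.nx 594 253 (.l1 .sk) (.l1 (.ls 83 41 3204)))) (.nr 621 741457 (.nr 618 623489 (.nx
  606 65537 (.nr 600 185365 (.lg 0 false 5 89 101 19 0 5040) (.nx 605 16385 (.lg 0 false 5 89 103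
  19 0 55440) .out)) (.nr 617 155873 (.nr 608 1081 (.lg 0 true 2 79 79 19 0 1008) (.nx 613 165142
  (.lg 1 true 5 89 101 19 75642 55440) (.nr 616 92683 (.nr 614 3150 (.lg 2 true 1 79 79 13 61111
  1008) (.lg 2 false 2 89 97 13 20972 1008)) .out))) .out)) (.nx 619 1024 .out (.nx 620 2582 (.lg 0
  false 1 79 79 13 0 1008) .out))) .out)) (.nr 627 257 (.lg 0 true 5 71 73 23 0 5040) .out))) .out)
  .out) (.nx 661 2642247 (.nr 660 881745 (.nr 631 29 .s1 (.nx 633 252 (.nr 632 405 (.lg 0 true 1 23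
  23 16 0 5544) (.l1 .sk)) (.nx 634 253 (.l1 .sk) (.nx 654 262145 (.nx 635 408 (.l1 (.ls 73 41
  3107)) (.nr 653 623489 (.nr 647 185365 (.nx 640 65537 (.lg 0 false 5 89 97 19 0 27720) (.nr 646
  77937 (.nr 641 1120 (.lg 0 false 1 73 73 16 0 5544) (.lg 2 false 5 83 83 19 37883 27720)) .out))
  (.nx 652 16385 (.lg 0 false 5 89 89 19 0 27720) .out)) .out)) (.nr 659 257 (.lg 0 true 5 67 67 19
  0 27720) .out))))) .out) .out)))) (.na 722 42 (.na 691 37 (.nx 690 2642247 (.nr 689 881745 (.nr
  663 33 .s1 (.nx 666 253 (.nx 665 252 (.nr 664 416 (.lg 0 true 1 37 37 19 0 5040) (.l1 .sk)) (.l1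
  .sk)) (.nx 686 330282 (.nx 667 408 (.l1 (.ls 83 43 2848)) (.nr 685 623489 (.nx 672 16385 (.lg 0
  false 5 89 101 29 0 5040) (.nr 684 185365 (.nx 674 41287 (.lg 0 false 2 101 103 23 0 55440) (.nr
  683 110219 (.nr 676 1144 (.lg 0 true 2 79 79 23 0 1008) (.nx 682 262145 (.nx 677 52017 (.lg 1
  false 1 97 97 19 84960 5040) (.nr 681 92683 (.nr 679 65537 (.lg 2 false 2 101 103 23 40160
  720720) (.nx 680 82572 (.lg 0 true 1 97 97 19 0 5040) .out)) .out)) .out)) .out)) .out)) .out))
  (.nr 688 217 (.lg 0 true 2 73 73 23 0 1008) .out)))) .out) .out) (.nx 721 2642247 (.nr 720 881745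
  (.nr 692 34 .s1 (.nx 696 408 (.nx 694 252 (.nr 693 472 (.lg 0 false 1 19 19 16 0 504) (.l1 .sk))
  (.nx 695 253 (.l1 .sk) (.l1 (.ls 73 31 2772)))) (.nr 719 623489 (.nx 707 52017 (.nr 701 185365
  (.lg 0 false 5 89 89 16 0 2520) (.nx 706 16385 (.lg 0 false 5 89 89 16 0 2520) .out)) (.nr 718
  92683 (.nr 712 472 (.lg 0 true 5 71 71 16 0 2520) (.nx 717 262145 (.lg 2 false 5 89 89 16 69980
  2520) .out)) .out)) .out))) .out) .out)) (.na 744 43 (.nx 743 2642247 (.nr 742 881745 (.nr 723 39
  .s1 (.nx 730 41287 (.nx 724 408 (.l1 (.ls 71 47 3966)) (.nr 729 623489 (.lg 0 true 5 89 89 23 0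
  5040) .out)) (.nr 741 110219 (.nr 735 483 (.lg 0 true 5 67 67 23 0 5040) (.nx 740 262145 (.lg 2
  false 5 83 83 23 84960 5040) .out)) .out))) .out) .out) (.na 775 44 (.nx 774 2642247 (.nr 773
  881745 (.nr 745 40 .s1 (.nx 748 253 (.nx 747 252 (.nr 746 495 (.lg 0 true 1 19 19 16 0 504) (.l1
  .sk)) (.l1 .sk)) (.nx 749 408 (.l1 (.ls 73 31 2385)) (.nr 772 623489 (.nx 760 52017 (.nr 754
  185365 (.lg 0 false 5 89 89 16 0 2520) (.nx 759 16385 (.lg 0 false 5 83 89 16 0 2520) .out)) (.nr
  771 92683 (.nr 765 495 (.lg 0 true 5 71 71 16 0 2520) (.nx 770 262145 (.lg 2 false 5 83 89 16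
  66728 2520) .out)) .out)) .out)))) .out) .out) (.nx 800 2642247 (.nr 799 881745 (.nr 776 42 .s1
  (.nx 779 253 (.nx 778 252 (.nr 777 517 (.l1 (.ls 37 41 1446)) (.l1 .sk)) (.l1 .sk)) (.nx 786
  16385 (.nx 780 408 (.l1 (.ls 83 43 2331)) (.nr 785 623489 (.lg 0 false 5 89 101 29 0 55440)
  .out)) (.nr 798 185365 (.nx 794 262145 (.nx 788 52017 (.lg 0 false 2 101 101 23 0 55440) (.nr 793
  92683 (.nr 791 65537 (.nr 789 1361 (.lg 0 false 1 79 79 19 0 55440) (.lg 2 false 2 97 97 23 40160
  55440)) (.nx 792 82572 (.lg 0 false 1 89 89 19 0 55440) .out)) .out)) (.nr 797 257 (.lg 0 true 3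
  73 73 23 0 11088) .out)) .out)))) .out) .out))))))

theorem c13 :
    OkQ ckI L10 233 26 1099511627776 0 34359738368 1 1099511627776 ∧
    OkQ ckI L10 252 12 46 0 34359738368 1 1099511627776 := by
  refine ⟨?_, ?_⟩
  · refine fin 72 25520 T13_0 ?_
    refine jn 5 (by decide +kernel) ?_
    refine jn 10 (by decide +kernel) ?_
    refine jn 22 (by decide +kernel) ?_
    refine jn 33 (by decide +kernel) ?_
    refine jn 47 (by decide +kernel) ?_
    refine jn 53 (by decide +kernel) ?_
    refine jn 66 (by decide +kernel) ?_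
    refine jn 80 (by decide +kernel) ?_
    refine jn 86 (by decide +kernel) ?_
    refine jn 97 (by decide +kernel) ?_
    refine jn 109 (by decide +kernel) ?_
    refine jn 118 (by decide +kernel) ?_
    refine jn 119 (by decide +kernel) ?_
    refine jn 120 (by decide +kernel) ?_
    refine jn 121 (by decide +kernel) ?_
    refine jn 122 (by decide +kernel) ?_
    refine jn 126 (by decide +kernel) ?_
    refine jn 128 (by decide +kernel) ?_
    refine jn 132 (by decide +kernel) ?_
    refine jn 136 (by decide +kernel) ?_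
    refine jn 148 (by decide +kernel) ?_
    refine jn 156 (by decide +kernel) ?_
    refine jn 163 (by decide +kernel) ?_
    refine jn 173 (by decide +kernel) ?_
    refine jn 176 (by decide +kernel) ?_
    refine jn 178 (by decide +kernel) ?_
    refine jn 180 (by decide +kernel) ?_
    refine jn 181 (by decide +kernel) ?_
    refine jn 186 (by decide +kernel) ?_
    refine jn 189 (by decide +kernel) ?_
    refine jn 191 (by decide +kernel) ?_
    refine jn 197 (by decide +kernel) ?_
    refine jn 212 (by decide +kernel) ?_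
    refine jn 223 (by decide +kernel) ?_
    refine jn 238 (by decide +kernel) ?_
    refine jn 248 (by decide +kernel) ?_
    refine jn 263 (by decide +kernel) ?_
    refine jn 271 (by decide +kernel) ?_
    refine jn 284 (by decide +kernel) ?_
    refine jn 292 (by decide +kernel) ?_
    refine jn 305 (by decide +kernel) ?_
    refine jn 307 (by decide +kernel) ?_
    refine jn 312 (by decide +kernel) ?_
    refine jn 320 (by decide +kernel) ?_
    refine jn 331 (by decide +kernel) ?_
    refine jn 345 (by decide +kernel) ?_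
    refine jn 352 (by decide +kernel) ?_
    refine jn 366 (by decide +kernel) ?_
    refine jn 369 (by decide +kernel) ?_
    refine jn 372 (by decide +kernel) ?_
    refine jn 383 (by decide +kernel) ?_
    refine jn 394 (by decide +kernel) ?_
    refine jn 406 (by decide +kernel) ?_
    refine jn 420 (by decide +kernel) ?_
    refine jn 433 (by decide +kernel) ?_
    refine jn 443 (by decide +kernel) ?_
    refine jn 451 (by decide +kernel) ?_
    refine jn 456 (by decide +kernel) ?_
    refine jn 460 (by decide +kernel) ?_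
    refine jn 475 (by decide +kernel) ?_
    refine jn 487 (by decide +kernel) ?_
    refine jn 503 (by decide +kernel) ?_
    refine jn 514 (by decide +kernel) ?_
    refine jn 515 (by decide +kernel) ?_
    refine jn 516 (by decide +kernel) ?_
    refine jn 517 (by decide +kernel) ?_
    refine jn 518 (by decide +kernel) ?_
    refine jn 519 (by decide +kernel) ?_
    refine jn 520 (by decide +kernel) ?_
    refine jn 521 (by decide +kernel) ?_
    refine jn 523 (by decide +kernel) ?_
    refine jn 534 (by decide +kernel) ?_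
    refine jn 550 (by decide +kernel) ?_
    refine jn 565 (by decide +kernel) ?_
    refine jn 579 (by decide +kernel) ?_
    refine jn 584 (by decide +kernel) ?_
    refine jn 588 (by decide +kernel) ?_
    refine jn 605 (by decide +kernel) ?_
    refine jn 620 (by decide +kernel) ?_
    refine jn 633 (by decide +kernel) ?_
    refine jn 648 (by decide +kernel) ?_
    refine jn 662 (by decide +kernel) ?_
    refine jn 679 (by decide +kernel) ?_
    refine jn 693 (by decide +kernel) ?_
    refine jn 708 (by decide +kernel) ?_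
    refine jn 723 (by decide +kernel) ?_
    refine jn 737 (by decide +kernel) ?_
    refine jn 750 (by decide +kernel) ?_
    refine jn 765 (by decide +kernel) ?_
    refine jn 781 (by decide +kernel) ?_
    refine jn 798 (by decide +kernel) ?_
    refine jn 813 (by decide +kernel) ?_
    refine jn 824 (by decide +kernel) ?_
    refine jn 839 (by decide +kernel) ?_
    refine jn 853 (by decide +kernel) ?_
    refine jn 868 (by decide +kernel) ?_
    refine jn 883 (by decide +kernel) ?_
    refine jn 896 (by decide +kernel) ?_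
    refine jn 907 (by decide +kernel) ?_
    refine jn 921 (by decide +kernel) ?_
    refine jn 943 (by decide +kernel) ?_
    refine jn 957 (by decide +kernel) ?_
    refine jn 969 (by decide +kernel) ?_
    refine jn 981 (by decide +kernel) ?_
    refine jn 994 (by decide +kernel) ?_
    refine jn 1009 (by decide +kernel) ?_
    refine jn 1019 (by decide +kernel) ?_
    refine jn 1033 (by decide +kernel) ?_
    refine jn 1095 (by decide +kernel) ?_
    refine jn 1135 (by decide +kernel) ?_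
    refine jn 1150 (by decide +kernel) ?_
    refine jn 1156 (by decide +kernel) ?_
    refine jn 1166 (by decide +kernel) ?_
    refine jn 1171 (by decide +kernel) ?_
    refine jn 1175 (by decide +kernel) ?_
    refine jn 1182 (by decide +kernel) ?_
    refine jn 1198 (by decide +kernel) ?_
    refine jn 1208 (by decide +kernel) ?_
    refine jn 1216 (by decide +kernel) ?_
    refine jn 1222 (by decide +kernel) ?_
    refine jn 1228 (by decide +kernel) ?_
    refine jn 1236 (by decide +kernel) ?_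
    refine jn 1240 (by decide +kernel) ?_
    refine jn 1243 (by decide +kernel) ?_
    refine jn 1251 (by decide +kernel) ?_
    refine jn 1256 (by decide +kernel) ?_
    refine jn 1273 (by decide +kernel) ?_
    refine jn 1281 (by decide +kernel) ?_
    refine jn 1304 (by decide +kernel) ?_
    refine jn 1321 (by decide +kernel) ?_
    refine jn 1333 (by decide +kernel) ?_
    refine jn 1344 (by decide +kernel) ?_
    refine jn 1349 (by decide +kernel) ?_
    refine jn 1360 (by decide +kernel) ?_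
    refine jn 1369 (by decide +kernel) ?_
    refine jn 1384 (by decide +kernel) ?_
    refine jn 1388 (by decide +kernel) ?_
    refine jn 1411 (by decide +kernel) ?_
    refine jn 1428 (by decide +kernel) ?_
    refine jn 1440 (by decide +kernel) ?_
    refine jn 1451 (by decide +kernel) ?_
    refine jn 1460 (by decide +kernel) ?_
    refine jn 1493 (by decide +kernel) ?_
    refine jn 1552 (by decide +kernel) ?_
    refine jn 1613 (by decide +kernel) ?_
    refine jn 1634 (by decide +kernel) ?_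
    refine jn 1638 (by decide +kernel) ?_
    refine jn 1640 (by decide +kernel) ?_
    refine jn 1651 (by decide +kernel) ?_
    refine jn 1659 (by decide +kernel) ?_
    refine jn 1676 (by decide +kernel) ?_
    refine jn 1680 (by decide +kernel) ?_
    refine jn 1686 (by decide +kernel) ?_
    refine jn 1687 (by decide +kernel) ?_
    refine jn 1715 (by decide +kernel) ?_
    refine jn 1731 (by decide +kernel) ?_
    refine jn 1738 (by decide +kernel) ?_
    refine jn 1744 (by decide +kernel) ?_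
    refine jn 1764 (by decide +kernel) ?_
    refine jn 1783 (by decide +kernel) ?_
    refine jn 1787 (by decide +kernel) ?_
    refine jn 1793 (by decide +kernel) ?_
    refine jn 1804 (by decide +kernel) ?_
    refine jn 1823 (by decide +kernel) ?_
    refine jn 1829 (by decide +kernel) ?_
    refine jn 1835 (by decide +kernel) ?_
    refine jn 1852 (by decide +kernel) ?_
    refine jn 1864 (by decide +kernel) ?_
    refine jn 1880 (by decide +kernel) ?_
    refine jn 1887 (by decide +kernel) ?_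
    refine jn 1893 (by decide +kernel) ?_
    refine jn 1913 (by decide +kernel) ?_
    refine jn 1947 (by decide +kernel) ?_
    refine jn 2017 (by decide +kernel) ?_
    refine jn 2083 (by decide +kernel) ?_
    refine jn 2142 (by decide +kernel) ?_
    refine jn 2147 (by decide +kernel) ?_
    refine jn 2156 (by decide +kernel) ?_
    refine jn 2162 (by decide +kernel) ?_
    refine jn 2168 (by decide +kernel) ?_
    refine jn 2198 (by decide +kernel) ?_
    refine jn 2219 (by decide +kernel) ?_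
    refine jn 2228 (by decide +kernel) ?_
    refine jn 2236 (by decide +kernel) ?_
    refine jn 2244 (by decide +kernel) ?_
    refine jn 2263 (by decide +kernel) ?_
    refine jn 2279 (by decide +kernel) ?_
    refine jn 2291 (by decide +kernel) ?_
    refine jn 2299 (by decide +kernel) ?_
    refine jn 2323 (by decide +kernel) ?_
    refine jn 2327 (by decide +kernel) ?_
    refine jn 2342 (by decide +kernel) ?_
    refine jn 2355 (by decide +kernel) ?_
    refine jn 2360 (by decide +kernel) ?_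
    refine jn 2369 (by decide +kernel) ?_
    refine jn 2375 (by decide +kernel) ?_
    refine jn 2381 (by decide +kernel) ?_
    refine jn 2411 (by decide +kernel) ?_
    refine jn 2432 (by decide +kernel) ?_
    refine jn 2441 (by decide +kernel) ?_
    refine jn 2449 (by decide +kernel) ?_
    refine jn 2457 (by decide +kernel) ?_
    refine jn 2476 (by decide +kernel) ?_
    refine jn 2492 (by decide +kernel) ?_
    refine jn 2504 (by decide +kernel) ?_
    refine jn 2512 (by decide +kernel) ?_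
    refine jn 2536 (by decide +kernel) ?_
    refine jn 2540 (by decide +kernel) ?_
    refine jn 2555 (by decide +kernel) ?_
    refine jn 2576 (by decide +kernel) ?_
    refine jn 2604 (by decide +kernel) ?_
    refine jn 2655 (by decide +kernel) ?_
    refine jn 2704 (by decide +kernel) ?_
    refine jn 2756 (by decide +kernel) ?_
    refine jn 2804 (by decide +kernel) ?_
    refine jn 2855 (by decide +kernel) ?_
    refine jn 2875 (by decide +kernel) ?_
    refine jn 2888 (by decide +kernel) ?_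
    refine jn 2899 (by decide +kernel) ?_
    refine jn 2908 (by decide +kernel) ?_
    refine jn 2938 (by decide +kernel) ?_
    refine jn 2955 (by decide +kernel) ?_
    refine jn 2987 (by decide +kernel) ?_
    refine jn 2999 (by decide +kernel) ?_
    refine jn 3000 (by decide +kernel) ?_
    refine jn 3012 (by decide +kernel) ?_
    refine jn 3047 (by decide +kernel) ?_
    refine jn 3068 (by decide +kernel) ?_
    refine jn 3087 (by decide +kernel) ?_
    refine jn 3098 (by decide +kernel) ?_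
    refine jn 3103 (by decide +kernel) ?_
    refine jn 3119 (by decide +kernel) ?_
    refine jn 3140 (by decide +kernel) ?_
    refine jn 3158 (by decide +kernel) ?_
    refine jn 3183 (by decide +kernel) ?_
    refine jn 3219 (by decide +kernel) ?_
    refine jn 3263 (by decide +kernel) ?_
    refine jn 3302 (by decide +kernel) ?_
    refine jn 3366 (by decide +kernel) ?_
    refine jn 3404 (by decide +kernel) ?_
    refine jn 3438 (by decide +kernel) ?_
    refine jn 3483 (by decide +kernel) ?_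
    refine jn 3534 (by decide +kernel) ?_
    refine jn 3579 (by decide +kernel) ?_
    refine jn 3601 (by decide +kernel) ?_
    refine jn 3619 (by decide +kernel) ?_
    refine jn 3632 (by decide +kernel) ?_
    refine jn 3659 (by decide +kernel) ?_
    refine jn 3688 (by decide +kernel) ?_
    refine jn 3701 (by decide +kernel) ?_
    refine jn 3719 (by decide +kernel) ?_
    refine jn 3757 (by decide +kernel) ?_
    refine jn 3791 (by decide +kernel) ?_
    refine jn 3807 (by decide +kernel) ?_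
    refine jn 3829 (by decide +kernel) ?_
    refine jn 3852 (by decide +kernel) ?_
    refine jn 3868 (by decide +kernel) ?_
    refine jn 3888 (by decide +kernel) ?_
    refine jn 3916 (by decide +kernel) ?_
    refine jn 3943 (by decide +kernel) ?_
    refine jn 3972 (by decide +kernel) ?_
    refine jn 3999 (by decide +kernel) ?_
    refine jn 4013 (by decide +kernel) ?_
    refine jn 4035 (by decide +kernel) ?_
    refine jn 4097 (by decide +kernel) ?_
    refine jn 4148 (by decide +kernel) ?_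
    refine jn 4203 (by decide +kernel) ?_
    refine jn 4263 (by decide +kernel) ?_
    refine jn 4327 (by decide +kernel) ?_
    refine jn 4392 (by decide +kernel) ?_
    refine jn 4456 (by decide +kernel) ?_
    refine jn 4521 (by decide +kernel) ?_
    refine jn 4557 (by decide +kernel) ?_
    refine jn 4612 (by decide +kernel) ?_
    refine jn 4642 (by decide +kernel) ?_
    refine jn 4702 (by decide +kernel) ?_
    refine jn 4742 (by decide +kernel) ?_
    refine jn 4784 (by decide +kernel) ?_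
    refine jn 4834 (by decide +kernel) ?_
    refine jn 4862 (by decide +kernel) ?_
    refine jn 4912 (by decide +kernel) ?_
    refine jn 4955 (by decide +kernel) ?_
    refine jn 4996 (by decide +kernel) ?_
    refine jn 5050 (by decide +kernel) ?_
    refine jn 5087 (by decide +kernel) ?_
    refine jn 5120 (by decide +kernel) ?_
    refine jn 5136 (by decide +kernel) ?_
    refine jn 5176 (by decide +kernel) ?_
    refine jn 5214 (by decide +kernel) ?_
    refine jn 5246 (by decide +kernel) ?_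
    refine jn 5278 (by decide +kernel) ?_
    refine jn 5296 (by decide +kernel) ?_
    refine jn 5328 (by decide +kernel) ?_
    refine jn 5355 (by decide +kernel) ?_
    refine jn 5374 (by decide +kernel) ?_
    refine jn 5390 (by decide +kernel) ?_
    refine jn 5420 (by decide +kernel) ?_
    refine jn 5443 (by decide +kernel) ?_
    refine jn 5468 (by decide +kernel) ?_
    refine jn 5483 (by decide +kernel) ?_
    refine jn 5538 (by decide +kernel) ?_
    refine jn 5575 (by decide +kernel) ?_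
    refine jn 5604 (by decide +kernel) ?_
    refine jn 5630 (by decide +kernel) ?_
    refine jn 5671 (by decide +kernel) ?_
    refine jn 5695 (by decide +kernel) ?_
    refine jn 5738 (by decide +kernel) ?_
    refine jn 5758 (by decide +kernel) ?_
    refine jn 5775 (by decide +kernel) ?_
    refine jn 5806 (by decide +kernel) ?_
    refine jn 5828 (by decide +kernel) ?_
    refine jn 5890 (by decide +kernel) ?_
    refine jn 5915 (by decide +kernel) ?_
    refine jn 5950 (by decide +kernel) ?_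
    refine jn 5974 (by decide +kernel) ?_
    refine jn 6015 (by decide +kernel) ?_
    refine jn 6058 (by decide +kernel) ?_
    refine jn 6093 (by decide +kernel) ?_
    refine jn 6149 (by decide +kernel) ?_
    refine jn 6226 (by decide +kernel) ?_
    refine jn 6303 (by decide +kernel) ?_
    refine jn 6362 (by decide +kernel) ?_
    refine jn 6433 (by decide +kernel) ?_
    refine jn 6507 (by decide +kernel) ?_
    refine jn 6574 (by decide +kernel) ?_
    refine jn 6647 (by decide +kernel) ?_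
    refine jn 6759 (by decide +kernel) ?_
    refine jn 6831 (by decide +kernel) ?_
    refine jn 6894 (by decide +kernel) ?_
    refine jn 6982 (by decide +kernel) ?_
    refine jn 7042 (by decide +kernel) ?_
    refine jn 7103 (by decide +kernel) ?_
    refine jn 7174 (by decide +kernel) ?_
    refine jn 7257 (by decide +kernel) ?_
    refine jn 7330 (by decide +kernel) ?_
    refine jn 7396 (by decide +kernel) ?_
    refine jn 7485 (by decide +kernel) ?_
    refine jn 7560 (by decide +kernel) ?_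
    refine jn 7617 (by decide +kernel) ?_
    refine jn 7696 (by decide +kernel) ?_
    refine jn 7777 (by decide +kernel) ?_
    refine jn 7844 (by decide +kernel) ?_
    refine jn 7932 (by decide +kernel) ?_
    refine jn 7989 (by decide +kernel) ?_
    refine jn 8060 (by decide +kernel) ?_
    refine jn 8154 (by decide +kernel) ?_
    refine jn 8227 (by decide +kernel) ?_
    refine jn 8305 (by decide +kernel) ?_
    refine jn 8369 (by decide +kernel) ?_
    refine jn 8441 (by decide +kernel) ?_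
    refine jn 8505 (by decide +kernel) ?_
    refine jn 8604 (by decide +kernel) ?_
    refine jn 8669 (by decide +kernel) ?_
    refine jn 8761 (by decide +kernel) ?_
    refine jn 8850 (by decide +kernel) ?_
    refine jn 8936 (by decide +kernel) ?_
    refine jn 9288 (by decide +kernel) ?_
    refine jn 9460 (by decide +kernel) ?_
    refine jn 9568 (by decide +kernel) ?_
    refine jn 9714 (by decide +kernel) ?_
    refine jn 9844 (by decide +kernel) ?_
    refine jn 9960 (by decide +kernel) ?_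
    refine jn 10093 (by decide +kernel) ?_
    refine jn 10228 (by decide +kernel) ?_
    refine jn 10372 (by decide +kernel) ?_
    refine jn 10505 (by decide +kernel) ?_
    refine jn 10642 (by decide +kernel) ?_
    refine jn 10793 (by decide +kernel) ?_
    refine jn 10950 (by decide +kernel) ?_
    refine jn 11073 (by decide +kernel) ?_
    refine jn 11209 (by decide +kernel) ?_
    refine jn 11334 (by decide +kernel) ?_
    refine jn 11477 (by decide +kernel) ?_
    refine jn 11653 (by decide +kernel) ?_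
    refine jn 11786 (by decide +kernel) ?_
    refine jn 12216 (by decide +kernel) ?_
    refine jn 12376 (by decide +kernel) ?_
    refine jn 12541 (by decide +kernel) ?_
    refine jn 12714 (by decide +kernel) ?_
    refine jn 12860 (by decide +kernel) ?_
    refine jn 13028 (by decide +kernel) ?_
    refine jn 13212 (by decide +kernel) ?_
    refine jn 13373 (by decide +kernel) ?_
    refine jn 13525 (by decide +kernel) ?_
    refine jn 13676 (by decide +kernel) ?_
    refine jn 13853 (by decide +kernel) ?_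
    refine jn 14026 (by decide +kernel) ?_
    refine jn 14201 (by decide +kernel) ?_
    refine jn 14377 (by decide +kernel) ?_
    refine jn 14547 (by decide +kernel) ?_
    refine jn 14724 (by decide +kernel) ?_
    refine jn 14900 (by decide +kernel) ?_
    refine jn 15090 (by decide +kernel) ?_
    refine jn 15256 (by decide +kernel) ?_
    refine jn 15420 (by decide +kernel) ?_
    refine jn 15582 (by decide +kernel) ?_
    refine jn 16133 (by decide +kernel) ?_
    refine jn 16368 (by decide +kernel) ?_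
    refine jn 16524 (by decide +kernel) ?_
    refine jn 16663 (by decide +kernel) ?_
    refine jn 16786 (by decide +kernel) ?_
    refine jn 16894 (by decide +kernel) ?_
    refine jn 16996 (by decide +kernel) ?_
    refine jn 17086 (by decide +kernel) ?_
    refine jn 17163 (by decide +kernel) ?_
    refine jn 17239 (by decide +kernel) ?_
    refine jn 17298 (by decide +kernel) ?_
    refine jn 17365 (by decide +kernel) ?_
    refine jn 17431 (by decide +kernel) ?_
    refine jn 17493 (by decide +kernel) ?_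
    refine jn 17553 (by decide +kernel) ?_
    refine jn 17605 (by decide +kernel) ?_
    refine jn 17826 (by decide +kernel) ?_
    refine jn 18131 (by decide +kernel) ?_
    refine jn 18340 (by decide +kernel) ?_
    refine jn 18453 (by decide +kernel) ?_
    refine jn 18566 (by decide +kernel) ?_
    refine jn 18681 (by decide +kernel) ?_
    refine jn 18762 (by decide +kernel) ?_
    refine jn 18861 (by decide +kernel) ?_
    refine jn 18931 (by decide +kernel) ?_
    refine jn 19000 (by decide +kernel) ?_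
    refine jn 19071 (by decide +kernel) ?_
    refine jn 19143 (by decide +kernel) ?_
    refine jn 19205 (by decide +kernel) ?_
    refine jn 19265 (by decide +kernel) ?_
    refine jn 19329 (by decide +kernel) ?_
    refine jn 19377 (by decide +kernel) ?_
    refine jn 19431 (by decide +kernel) ?_
    refine jn 19473 (by decide +kernel) ?_
    refine jn 19523 (by decide +kernel) ?_
    refine jn 19565 (by decide +kernel) ?_
    refine jn 19612 (by decide +kernel) ?_
    refine jn 19660 (by decide +kernel) ?_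
    refine jn 19691 (by decide +kernel) ?_
    refine jn 20104 (by decide +kernel) ?_
    refine jn 20351 (by decide +kernel) ?_
    refine jn 20553 (by decide +kernel) ?_
    refine jn 20705 (by decide +kernel) ?_
    refine jn 20816 (by decide +kernel) ?_
    refine jn 20914 (by decide +kernel) ?_
    refine jn 21032 (by decide +kernel) ?_
    refine jn 21133 (by decide +kernel) ?_
    refine jn 21224 (by decide +kernel) ?_
    refine jn 21328 (by decide +kernel) ?_
    refine jn 21404 (by decide +kernel) ?_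
    refine jn 21480 (by decide +kernel) ?_
    refine jn 21558 (by decide +kernel) ?_
    refine jn 21637 (by decide +kernel) ?_
    refine jn 21707 (by decide +kernel) ?_
    refine jn 22162 (by decide +kernel) ?_
    refine jn 22494 (by decide +kernel) ?_
    refine jn 22743 (by decide +kernel) ?_
    refine jn 22934 (by decide +kernel) ?_
    refine jn 23078 (by decide +kernel) ?_
    refine jn 23177 (by decide +kernel) ?_
    refine jn 23307 (by decide +kernel) ?_
    refine jn 23875 (by decide +kernel) ?_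
    refine jn 24277 (by decide +kernel) ?_
    refine jn 24477 (by decide +kernel) ?_
    refine jn 24725 (by decide +kernel) ?_
    refine jn 24912 (by decide +kernel) ?_
    exact je (by decide +kernel)
  · refine fin 504 801 T13_1 ?_
    refine jn 6 (by decide +kernel) ?_
    refine jn 10 (by decide +kernel) ?_
    refine jn 14 (by decide +kernel) ?_
    refine jn 21 (by decide +kernel) ?_
    refine jn 27 (by decide +kernel) ?_
    refine jn 42 (by decide +kernel) ?_
    refine jn 48 (by decide +kernel) ?_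
    refine jn 58 (by decide +kernel) ?_
    refine jn 68 (by decide +kernel) ?_
    refine jn 80 (by decide +kernel) ?_
    refine jn 103 (by decide +kernel) ?_
    refine jn 121 (by decide +kernel) ?_
    refine jn 143 (by decide +kernel) ?_
    refine jn 159 (by decide +kernel) ?_
    refine jn 160 (by decide +kernel) ?_
    refine jn 161 (by decide +kernel) ?_
    refine jn 162 (by decide +kernel) ?_
    refine jn 163 (by decide +kernel) ?_
    refine jn 164 (by decide +kernel) ?_
    refine jn 165 (by decide +kernel) ?_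
    refine jn 166 (by decide +kernel) ?_
    refine jn 167 (by decide +kernel) ?_
    refine jn 168 (by decide +kernel) ?_
    refine jn 169 (by decide +kernel) ?_
    refine jn 170 (by decide +kernel) ?_
    refine jn 171 (by decide +kernel) ?_
    refine jn 172 (by decide +kernel) ?_
    refine jn 173 (by decide +kernel) ?_
    refine jn 174 (by decide +kernel) ?_
    refine jn 175 (by decide +kernel) ?_
    refine jn 176 (by decide +kernel) ?_
    refine jn 177 (by decide +kernel) ?_
    refine jn 178 (by decide +kernel) ?_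
    refine jn 179 (by decide +kernel) ?_
    refine jn 180 (by decide +kernel) ?_
    refine jn 181 (by decide +kernel) ?_
    refine jn 182 (by decide +kernel) ?_
    refine jn 183 (by decide +kernel) ?_
    refine jn 185 (by decide +kernel) ?_
    refine jn 186 (by decide +kernel) ?_
    refine jn 188 (by decide +kernel) ?_
    refine jn 189 (by decide +kernel) ?_
    refine jn 191 (by decide +kernel) ?_
    refine jn 192 (by decide +kernel) ?_
    refine jn 194 (by decide +kernel) ?_
    refine jn 195 (by decide +kernel) ?_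
    refine jn 200 (by decide +kernel) ?_
    refine jn 203 (by decide +kernel) ?_
    refine jn 208 (by decide +kernel) ?_
    refine jn 211 (by decide +kernel) ?_
    refine jn 214 (by decide +kernel) ?_
    refine jn 217 (by decide +kernel) ?_
    refine jn 220 (by decide +kernel) ?_
    refine jn 225 (by decide +kernel) ?_
    refine jn 231 (by decide +kernel) ?_
    refine jn 238 (by decide +kernel) ?_
    refine jn 240 (by decide +kernel) ?_
    refine jn 249 (by decide +kernel) ?_
    refine jn 251 (by decide +kernel) ?_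
    refine jn 253 (by decide +kernel) ?_
    refine jn 254 (by decide +kernel) ?_
    refine jn 257 (by decide +kernel) ?_
    refine jn 259 (by decide +kernel) ?_
    refine jn 264 (by decide +kernel) ?_
    refine jn 270 (by decide +kernel) ?_
    refine jn 275 (by decide +kernel) ?_
    refine jn 276 (by decide +kernel) ?_
    refine jn 281 (by decide +kernel) ?_
    refine jn 294 (by decide +kernel) ?_
    refine jn 309 (by decide +kernel) ?_
    refine jn 327 (by decide +kernel) ?_
    refine jn 355 (by decide +kernel) ?_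
    refine jn 367 (by decide +kernel) ?_
    refine jn 369 (by decide +kernel) ?_
    refine jn 374 (by decide +kernel) ?_
    refine jn 384 (by decide +kernel) ?_
    refine jn 396 (by decide +kernel) ?_
    refine jn 407 (by decide +kernel) ?_
    refine jn 420 (by decide +kernel) ?_
    refine jn 427 (by decide +kernel) ?_
    refine jn 439 (by decide +kernel) ?_
    refine jn 452 (by decide +kernel) ?_
    refine jn 460 (by decide +kernel) ?_
    refine jn 461 (by decide +kernel) ?_
    refine jn 462 (by decide +kernel) ?_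
    refine jn 463 (by decide +kernel) ?_
    refine jn 464 (by decide +kernel) ?_
    refine jn 465 (by decide +kernel) ?_
    refine jn 466 (by decide +kernel) ?_
    refine jn 467 (by decide +kernel) ?_
    refine jn 468 (by decide +kernel) ?_
    refine jn 469 (by decide +kernel) ?_
    refine jn 470 (by decide +kernel) ?_
    refine jn 471 (by decide +kernel) ?_
    refine jn 476 (by decide +kernel) ?_
    refine jn 477 (by decide +kernel) ?_
    refine jn 478 (by decide +kernel) ?_
    refine jn 479 (by decide +kernel) ?_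
    refine jn 480 (by decide +kernel) ?_
    refine jn 481 (by decide +kernel) ?_
    refine jn 492 (by decide +kernel) ?_
    refine jn 503 (by decide +kernel) ?_
    refine jn 513 (by decide +kernel) ?_
    refine jn 523 (by decide +kernel) ?_
    refine jn 528 (by decide +kernel) ?_
    refine jn 540 (by decide +kernel) ?_
    refine jn 551 (by decide +kernel) ?_
    refine jn 559 (by decide +kernel) ?_
    refine jn 564 (by decide +kernel) ?_
    refine jn 575 (by decide +kernel) ?_
    refine jn 586 (by decide +kernel) ?_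
    refine jn 594 (by decide +kernel) ?_
    refine jn 595 (by decide +kernel) ?_
    refine jn 596 (by decide +kernel) ?_
    refine jn 597 (by decide +kernel) ?_
    refine jn 598 (by decide +kernel) ?_
    refine jn 599 (by decide +kernel) ?_
    refine jn 600 (by decide +kernel) ?_
    refine jn 605 (by decide +kernel) ?_
    refine jn 606 (by decide +kernel) ?_
    refine jn 607 (by decide +kernel) ?_
    refine jn 608 (by decide +kernel) ?_
    refine jn 613 (by decide +kernel) ?_
    refine jn 614 (by decide +kernel) ?_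
    refine jn 616 (by decide +kernel) ?_
    refine jn 623 (by decide +kernel) ?_
    refine jn 625 (by decide +kernel) ?_
    refine jn 627 (by decide +kernel) ?_
    refine jn 640 (by decide +kernel) ?_
    refine jn 646 (by decide +kernel) ?_
    refine jn 659 (by decide +kernel) ?_
    refine jn 666 (by decide +kernel) ?_
    refine jn 667 (by decide +kernel) ?_
    refine jn 668 (by decide +kernel) ?_
    refine jn 669 (by decide +kernel) ?_
    refine jn 670 (by decide +kernel) ?_
    refine jn 671 (by decide +kernel) ?_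
    refine jn 672 (by decide +kernel) ?_
    refine jn 674 (by decide +kernel) ?_
    refine jn 675 (by decide +kernel) ?_
    refine jn 676 (by decide +kernel) ?_
    refine jn 677 (by decide +kernel) ?_
    refine jn 678 (by decide +kernel) ?_
    refine jn 680 (by decide +kernel) ?_
    refine jn 687 (by decide +kernel) ?_
    refine jn 688 (by decide +kernel) ?_
    refine jn 701 (by decide +kernel) ?_
    refine jn 712 (by decide +kernel) ?_
    refine jn 729 (by decide +kernel) ?_
    refine jn 748 (by decide +kernel) ?_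
    refine jn 754 (by decide +kernel) ?_
    refine jn 765 (by decide +kernel) ?_
    refine jn 779 (by decide +kernel) ?_
    refine jn 782 (by decide +kernel) ?_
    refine jn 785 (by decide +kernel) ?_
    refine jn 788 (by decide +kernel) ?_
    refine jn 789 (by decide +kernel) ?_
    refine jn 792 (by decide +kernel) ?_
    refine jn 797 (by decide +kernel) ?_
    exact je (by decide +kernel)

end Pool.Agent.MP_2339ce_nt.NR
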