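import Pool.Agent.MP_2339ce_nt.Q2.NC.L8
import Pool.Agent.MP_2339ce_nt.Q2.NC.L9
import Pool.Agent.MP_2339ce_nt.Q2.NC.L10
import Pool.Agent.MP_2339ce_nt.Q2.CkI

/-! Block NR: runs. -/

set_option autoImplicit false
set_option maxRecDepth 100000

noncomputable section

namespace Pool.Agent.MP_2339ce_nt.NR

open Q2.Top

def T134_0 : Ph :=
  (.na 630 4 (.na 1 2 .ne (.na 338 3 (.nx 337 3329023 (.nr 336 623489 (.nx 320 2097153 (.nx 3 197
  (.nr 2 27 (.lg 0 false 1 41 41 5 0 1584) (.l1 .sk)) (.nx 4 198 (.l1 .sk) (.nx 55 16384 (.nr 39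
  185365 (.lg 0 false 35 97 103 13 0 55440) (.nx 54 324 (.lg 0 false 15 73 73 9 0 720) .out)) (.nr
  319 220437 (.nx 90 28305 (.lg 0 false 35 97 103 13 0 55440) (.nr 161 1025 (.nx 125 1048577 (.lg 0
  true 35 89 89 13 0 5040) (.nr 160 129 (.lg 0 true 35 73 79 13 0 5040) .out)) (.nx 318 832257 (.nx
  196 41287 (.lg 1 false 35 97 103 13 151259 55440) (.nr 317 155873 (.nr 209 3446 (.lg 2 true 13 83
  89 9 79978 1872) (.nx 316 524289 (.nx 244 82572 (.lg 1 false 35 97 103 13 73353 55440) (.nr 315
  131073 (.nx 279 131073 (.lg 1 true 35 89 103 13 30849 55440) (.nr 314 110219 (.lg 2 false 35 97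
  103 13 16347 55440) .out)) .out)) .out)) .out)) .out))) .out)))) (.nr 335 9 (.lg 0 true 15 67 67
  9 0 720) .out)) .out) .out) (.nx 629 6658044 (.nr 628 1482912 (.nx 592 1321124 (.nx 341 198 (.nx
  340 197 (.nr 339 38 (.lg 0 true 1 31 31 5 0 72) (.l1 .sk)) (.l1 .sk)) (.nx 420 32768 (.nr 406
  185365 (.lg 0 false 65 97 103 17 0 720720) (.nx 419 324 (.lg 0 false 13 79 79 16 0 936) .out))
  (.nr 591 220437 (.nr 451 748 (.nx 440 660563 (.lg 0 true 20 79 83 16 0 720) (.nr 450 129 (.lg 0
  true 10 79 79 16 0 720) .out)) (.nx 590 524289 (.nx 471 52017 (.lg 1 false 20 97 103 16 130657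
  55440) (.nr 589 185365 (.nr 476 1539 (.lg 2 true 5 83 83 7 69041 360) (.nx 496 70783 (.lg 1 false
  20 97 103 16 69223 55440) (.nr 501 3167 (.lg 2 true 5 79 83 7 33556 360) (.nr 506 6513 (.lg 2
  true 5 83 89 7 16307 2520) (.nx 578 208065 (.nx 567 165142 (.nx 546 131073 (.nx 526 96321 (.lg 1
  false 20 97 103 16 50871 55440) (.lg 1 false 20 97 103 16 37383 55440)) (.nr 566 155873 (.lg 1
  true 20 89 103 16 23106 55440) .out)) (.nr 577 92683 (.lg 1 true 10 97 103 16 10914 55440) .out))
  (.nr 588 38969 (.nr 583 13397 (.lg 2 true 5 83 89 7 7930 2520) (.lg 2 false 5 89 89 7 3855 2520))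
  .out)))))) .out)) .out)) .out))) (.nr 627 33 (.lg 0 true 35 73 79 16 0 2520) .out)) .out) .out)))
  (.na 790 7 (.na 631 6 .ne (.nx 789 16777217 (.nr 788 1048577 (.nx 761 2097153 (.nx 747 660563
  (.nx 633 197 (.nr 632 69 (.lg 0 true 1 31 31 7 0 144) (.l1 .sk)) (.nx 634 198 (.l1 .sk) (.nx 663
  41285 (.nr 655 370729 (.nr 647 155873 (.lg 0 false 13 103 107 19 0 720720) (.nx 654 2049 (.lg 0
  false 7 89 97 13 0 55440) .out)) (.nx 662 324 (.lg 0 false 7 73 73 13 0 1008) .out)) (.nr 746
  220437 (.nr 681 4102 (.nr 676 1026 (.lg 0 true 13 89 89 19 0 102960) (.lg 2 true 5 89 89 13 63417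
  7920)) (.nx 689 52015 (.nr 688 185365 (.lg 1 false 7 97 101 13 87218 55440) .out) (.nx 702 76448
  (.lg 1 false 13 97 107 19 82310 720720) (.nx 715 112360 (.lg 1 false 13 97 107 19 56004 720720)
  (.nr 717 8201 (.lg 2 false 2 89 89 7 15862 7920) (.nx 738 208065 (.nx 730 165142 (.lg 1 true 13
  97 107 19 38104 720720) (.nr 737 185365 (.lg 1 true 7 97 101 13 21804 55440) .out)) (.nr 745
  77937 (.lg 2 false 7 97 101 13 7934 55440) .out))))))) .out)))) (.nr 760 257 (.lg 0 true 13 79 83
  19 0 1872) .out)) (.nr 787 28 (.lg 0 true 26 79 79 13 0 1872) .out)) .out) .out)) (.na 791 9 .ne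
  (.nx 901 16777217 (.nr 900 1048577 (.nx 794 198 (.nx 793 197 (.nr 792 99 (.lg 0 true 1 29 29 7 0
  360) (.l1 .sk)) (.l1 .sk)) (.nx 795 257 (.l1 (.ls 83 37 2985)) (.nr 899 623489 (.nx 870 2097153
  (.nx 810 41285 (.nr 802 185365 (.lg 0 false 7 103 103 16 0 360360) (.nx 809 2049 (.lg 0 false 7
  83 83 16 0 2520) .out)) (.nr 869 220437 (.nr 825 764 (.nx 817 1048577 (.lg 0 true 7 79 79 16 0
  504) (.nr 824 154 (.lg 0 true 7 71 71 16 0 504) .out)) (.nx 868 832257 (.nx 832 61857 (.lg 1
  false 7 97 101 16 103703 360360) (.nx 846 138866 (.nx 839 92682 (.lg 1 false 7 97 101 16 69214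
  360360) (.lg 1 false 7 97 101 16 46194 360360)) (.nx 853 208065 (.lg 1 true 7 97 101 16 30831
  360360) (.nr 867 110219 (.nr 860 7077 (.lg 2 true 7 83 89 16 107301 2520) (.lg 2 false 7 83 89 16
  11584 2520)) .out)))) .out)) .out)) (.nr 898 65 (.lg 0 true 28 79 79 16 0 1008) .out)) .out)))
  .out) .out))))

def T134_1 : Ph :=
  (.na 793 214 (.na 642 94 (.na 598 32 (.na 425 10 (.na 1 2 .ne (.na 424 3 (.nx 423 3329023 (.nr
  422 1763489 (.nx 410 2642247 (.nx 376 1048577 (.nx 125 52017 (.nx 3 235 (.nr 2 29 (.lg 0 false 1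
  41 41 5 0 11280) (.l1 .sk)) (.nx 4 236 (.l1 .sk) (.nr 81 262145 (.lg 0 false 77 103 109 13 0
  33873840) (.nx 102 408 (.lg 0 false 21 89 89 11 0 236880) (.nx 103 26007 .out (.nr 124 311745
  (.lg 0 false 21 101 107 11 0 3079440) .out)))))) (.nr 375 262145 (.nr 158 941 (.lg 0 true 33 97
  101 13 0 372240) (.nx 224 82572 (.nx 191 65537 (.lg 1 false 33 103 109 13 139283 33873840) (.lg 1
  false 33 103 109 13 110549 33873840)) (.nr 374 220437 (.nr 235 3446 (.lg 2 true 11 97 101 9
  130933 124080) (.nx 373 832257 (.nr 244 12637 (.lg 2 true 9 97 101 9 28378 33840) (.nx 332 208065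
  (.nx 310 165142 (.nx 277 116773 (.lg 1 false 33 103 109 13 73795 33873840) (.lg 1 false 33 103
  109 13 52181 33873840)) (.nr 331 155873 (.lg 1 true 21 101 103 11 26103 3079440) .out)) (.nr 372
  131073 (.nx 353 262145 (.lg 1 true 21 101 107 11 17427 3079440) (.nr 371 92683 (.lg 2 false 18
  103 107 11 9788 33873840) .out)) .out))) .out)) .out))) .out)) (.nr 409 257 (.lg 0 true 33 89 97
  13 0 372240) .out)) (.nr 421 9 (.lg 0 true 11 71 71 9 0 124080) .out)) .out) .out) .ne)) (.na 547
  12 (.nx 546 2642247 (.nr 545 1246976 (.nx 429 324 (.nx 427 235 (.nr 426 130 (.lg 0 true 1 31 31 9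
  0 33840) (.l1 .sk)) (.nx 428 236 (.l1 .sk) (.l1 (.ls 83 43 4931)))) (.nr 544 1048577 (.nx 430 408
  (.l1 (.ls 79 47 6151)) (.nr 543 741457 (.nx 459 65536 (.nr 451 262145 (.lg 0 false 21 97 101 19 0
  236880) (.nx 458 1292 (.lg 0 false 7 79 79 13 0 78960) .out)) (.nr 542 311745 (.nr 480 1096 (.lg
  0 true 21 83 83 19 0 236880) (.nx 541 1321124 (.nx 501 131072 (.lg 1 false 21 89 101 19 131449
  236880) (.nr 508 9242 (.lg 2 true 7 89 89 13 141636 78960) (.nx 529 262145 (.lg 1 true 21 89 101
  19 65725 236880) (.nr 540 185365 (.lg 2 false 11 89 97 13 19550 124080) .out)))) .out)) .out))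
  .out)) .out)) .out) .out) (.na 548 26 .ne (.nx 597 2642247 (.nr 596 1048577 (.nr 549 22 .s1 (.nx
  561 16385 (.nx 551 235 (.nr 550 347 (.l1 (.ls 29 41 2127)) (.l1 .sk)) (.nx 552 236 (.l1 .sk) (.nx
  553 408 (.l1 (.ls 83 43 4263)) (.nr 560 741457 (.lg 0 false 7 101 101 19 0 3079440) .out)))) (.nr
  595 185365 (.nr 579 77937 (.nx 564 27613 (.lg 0 true 3 83 83 11 0 439920) (.nr 571 1024 (.lg 0
  true 7 83 83 19 0 1026480) (.nx 578 524289 (.lg 2 false 7 83 83 19 78172 1026480) .out))) (.nx
  594 416129 (.nx 586 165142 (.lg 0 true 7 103 107 19 0 33873840) (.nr 593 92683 (.lg 0 true 7 97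
  97 19 0 3079440) .out)) .out)) .out))) .out) .out)))) (.na 625 64 (.na 599 46 .ne (.na 624 50
  (.nx 623 2642247 (.nr 622 881745 (.nr 600 44 .s1 (.nx 610 32769 (.nx 602 235 (.nr 601 543 (.l1
  (.ls 19 41 1203)) (.l1 .sk)) (.nx 603 236 (.l1 .sk) (.lg 0 false 7 101 103 19 0 236880))) (.nr
  621 92683 (.nr 617 543 (.lg 0 true 7 73 73 19 0 78960) (.nx 620 262145 (.lg 2 false 3 97 101 13
  78298 33840) .out)) .out))) .out) .out) (.lg 0 false 1 0 0 16 0 24))) (.na 626 86 .ne (.na 641 91
  (.nx 640 2642247 (.nr 639 2097153 (.nr 627 85 .s1 (.nx 628 408 (.l1 (.ls 79 37 1938)) (.nr 638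
  1048577 (.nx 631 32769 (.lg 0 false 3 97 97 19 0 33840) (.nr 637 65537 (.nr 634 513 (.lg 0 true 3
  71 71 19 0 33840) (.nx 636 416129 (.lg 2 true 2 83 83 19 95313 11280) .out)) .out)) .out))) .out)
  .out) .ne)))) (.na 722 142 (.na 690 128 (.na 661 118 (.nx 660 2642247 (.nr 659 2097153 (.nr 643
  93 .s1 (.nx 652 27613 (.nx 644 408 (.l1 (.ls 71 37 1773)) (.nr 651 1482912 (.lg 0 false 7 79 79
  23 0 78960) .out)) (.nr 658 65537 (.nr 655 513 (.lg 0 false 3 61 61 19 0 33840) (.nx 657 416129
  (.lg 2 false 2 73 73 17 95313 11280) .out)) .out))) .out) .out) (.na 676 122 (.nx 675 2642247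
  (.nr 674 2097153 (.nr 662 118 .s1 (.nx 671 416129 (.nx 663 408 (.l1 (.ls 83 37 1413)) (.nr 670
  1482912 (.nr 666 65537 (.lg 0 false 3 89 89 23 0 33840) (.nx 669 26009 (.lg 0 false 3 97 97 23 0
  33840) .out)) .out)) (.nr 673 513 (.lg 0 true 2 67 67 19 0 11280) .out))) .out) .out) (.nx 689
  2642247 (.nr 688 2097153 (.nr 677 122 .s1 (.nx 682 27613 (.nx 678 408 (.l1 (.ls 79 37 1367)) (.nr
  681 1482912 (.lg 0 false 3 89 89 23 0 33840) .out)) (.nr 687 65537 (.nr 684 513 (.lg 0 true 2 67
  67 19 0 11280) (.nx 686 416129 (.lg 2 true 2 79 79 19 95313 11280) .out)) .out))) .out) .out)))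
  (.na 691 130 .ne (.na 708 134 (.nx 707 1321124 (.nr 706 2097153 (.nr 692 130 .s1 (.nx 694 235
  (.nr 693 1454 (.l1 (.ls 19 37 427)) (.l1 .sk)) (.nx 695 236 (.l1 .sk) (.nx 702 41287 (.lg 0 false
  7 89 97 37 0 1026480) (.nr 705 16385 (.nr 703 1025 (.lg 0 false 1 73 73 29 0 146640) (.nx 704
  165142 (.lg 2 false 1 61 61 29 18931 146640) .out)) .out))))) .out) .out) (.nx 721 1321124 (.nr
  720 2097153 (.nr 709 134 .s1 (.nx 715 26009 (.nx 711 235 (.nr 710 1541 (.l1 (.ls 19 29 415)) (.l1
  .sk)) (.nx 712 236 (.l1 .sk) (.lg 0 false 3 97 97 23 0 33840))) (.nr 719 65537 (.nx 717 165142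
  (.lg 0 true 2 83 83 23 0 11280) (.nr 718 1025 (.lg 0 false 1 73 73 19 0 11280) .out)) .out)))
  .out) .out)))) (.na 766 178 (.na 737 146 (.nx 736 1321124 (.nr 735 2097153 (.nr 723 142 .s1 (.nx
  732 165142 (.nx 725 235 (.nr 724 1585 (.l1 (.ls 17 29 391)) (.l1 .sk)) (.nx 726 236 (.l1 .sk)
  (.nx 729 26009 (.lg 0 false 3 89 89 23 0 33840) (.nr 731 65537 (.lg 0 true 2 83 83 23 0 11280)
  .out)))) (.nr 734 1025 (.lg 0 true 2 61 61 23 0 11280) .out))) .out) .out) (.na 752 158 (.nx 751
  1321124 (.nr 750 2097153 (.nr 738 146 .s1 (.nx 747 165142 (.nx 744 26009 (.nx 740 235 (.nr 739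
  1715 (.l1 (.ls 19 29 381)) (.l1 .sk)) (.nx 741 236 (.l1 .sk) (.lg 0 false 3 97 97 23 0 33840)))
  (.nr 746 65537 (.lg 0 true 2 83 83 23 0 11280) .out)) (.nr 749 1025 (.lg 0 true 2 61 61 23 0
  11280) .out))) .out) .out) (.nx 765 1321124 (.nr 764 2097153 (.nr 753 158 .s1 (.nx 756 236 (.nx
  755 235 (.nr 754 1932 (.l1 (.ls 19 29 352)) (.l1 .sk)) (.l1 .sk)) (.nx 759 26009 (.lg 0 false 3
  89 89 23 0 33840) (.nr 763 65537 (.nx 761 165142 (.lg 0 true 2 79 79 23 0 11280) (.nr 762 1025
  (.lg 0 false 1 67 67 19 0 11280) .out)) .out)))) .out) .out))) (.na 779 182 (.nx 778 1321124 (.nr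
  777 2097153 (.nr 767 178 .s1 (.nx 773 41287 (.nx 769 235 (.nr 768 1975 (.l1 (.ls 17 29 313)) (.l1
  .sk)) (.nx 770 236 (.l1 .sk) (.lg 0 false 3 89 89 23 0 33840))) (.nr 776 16385 (.nr 774 1025 (.lg
  0 false 1 67 67 19 0 11280) (.nx 775 165142 (.lg 2 false 1 59 59 19 18931 11280) .out)) .out)))
  .out) .out) (.na 780 202 .ne (.nx 792 1321124 (.nr 791 1482912 (.nr 781 202 .s1 (.nx 787 41287
  (.nx 783 235 (.nr 782 2323 (.l1 (.ls 19 29 276)) (.l1 .sk)) (.nx 784 236 (.l1 .sk) (.lg 0 false 3
  83 83 29 0 33840))) (.nr 790 16385 (.nr 788 1025 (.lg 0 false 1 67 67 23 0 11280) (.nx 789 165142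
  (.lg 2 true 1 59 59 23 18931 11280) .out)) .out))) .out) .out)))))) (.na 4325 2048 (.na 845 257
  (.na 830 250 (.na 806 226 (.nx 805 1321124 (.nr 804 1482912 (.nr 794 214 .s1 (.nx 797 236 (.nx
  796 235 (.nr 795 2453 (.l1 (.ls 17 29 261)) (.l1 .sk)) (.l1 .sk)) (.nx 800 41287 (.lg 0 false 3
  83 83 29 0 33840) (.nr 803 16385 (.nr 801 1025 (.lg 0 false 1 61 61 23 0 11280) (.nx 802 165142
  (.lg 2 false 1 53 53 23 18931 11280) .out)) .out)))) .out) .out) (.na 819 230 (.nx 818 1321124
  (.nr 817 1482912 (.nr 807 226 .s1 (.nx 809 235 (.nr 808 2496 (.l1 (.ls 17 29 247)) (.l1 .sk))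
  (.nx 810 236 (.l1 .sk) (.nx 813 41287 (.lg 0 false 3 83 83 29 0 33840) (.nr 816 16385 (.lg 0 true
  3 73 73 29 0 33840) .out))))) .out) .out) (.nx 829 1321124 (.nr 828 1482912 (.nr 820 230 .s1 (.nx
  822 235 (.nr 821 2713 (.l1 (.ls 17 31 243)) (.l1 .sk)) (.nx 823 236 (.l1 .sk) (.nx 826 41287 (.lg
  0 false 3 89 89 37 0 33840) (.nr 827 16385 (.lg 0 false 1 89 89 31 0 11280) .out))))) .out)
  .out))) (.na 831 254 (.lg 0 false 1 0 0 16 0 24) (.na 844 256 (.nx 843 1321124 (.nr 842 1482912
  (.nr 832 254 .s1 (.nx 835 236 (.nx 834 235 (.nr 833 2778 (.l1 (.ls 17 29 220)) (.l1 .sk)) (.l1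
  .sk)) (.nx 838 41287 (.lg 0 false 3 83 83 29 0 33840) (.nr 841 16385 (.nr 839 1025 (.lg 0 false 1
  61 61 23 0 11280) (.nx 840 165142 (.lg 2 false 1 53 53 23 18931 11280) .out)) .out)))) .out)
  .out) .ne))) (.na 2267 725 (.na 1169 363 (.nx 1168 1321124 (.nr 1167 1482912 (.nr 846 257 .s1
  (.nx 954 236 (.nx 953 235 (.nr 952 3939 (.la (.ls 23 19 217)) (.l1 .sk)) (.l1 .sk)) (.nr 1060
  32769 (.la (.lg 0 true 2 73 73 19 0)) (.nx 1166 26009 (.la (.lg 0 false 2 73 73 19 0)) .out))))
  .out) .out) (.na 1622 512 (.nx 1621 1321124 (.nr 1620 1482912 (.nr 1170 363 .s1 (.nx 1321 236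
  (.nx 1320 235 (.nr 1319 5556 (.la (.ls 19 19 155)) (.l1 .sk)) (.l1 .sk)) (.nr 1470 32769 (.la
  (.lg 0 true 2 71 71 23 0)) (.nx 1619 26009 (.la (.lg 0 false 2 71 71 23 0)) .out)))) .out) .out)
  (.nx 2266 1321124 (.nr 2265 1482912 (.nr 1623 512 .s1 (.nx 1838 236 (.nx 1837 235 (.nr 1836 7868
  (.la (.ls 23 19 182)) (.l1 .sk)) (.l1 .sk)) (.nr 2051 32769 (.la (.lg 0 false 1 73 73 23 0)) (.nx
  2264 26009 (.la (.lg 0 true 1 73 73 23 0)) .out)))) .out) .out))) (.na 2869 1024 (.nx 2868 20644
  (.nr 2867 2097153 (.nr 2268 725 .s1 (.nx 2567 3252 (.la (.ls 61 43 14589)) (.nr 2866 131073 (.la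
  (.lg 0 false 1 53 53 29 0)) .out))) .out) .out) (.na 3723 1449 (.nx 3722 20644 (.nr 3721 2097153
  (.nr 2870 1024 .s1 (.nx 3295 3252 (.la (.ls 61 41 10330)) (.nr 3720 131073 (.la (.lg 0 false 1 41
  41 29 0)) .out))) .out) .out) (.nx 4324 13005 (.nr 4323 2097153 (.nr 3724 1449 .s1 (.la (.ls 61
  53 116724))) .out) .out))))) (.na 18914 16384 (.na 8079 5793 (.na 5177 2897 (.nx 5176 13005 (.nr
  5175 2097153 (.nr 4326 2048 .s1 (.la (.ls 61 53 82586))) .out) .out) (.na 6379 4096 (.nx 6378
  4097 (.nr 6377 1048577 (.nr 5178 2897 .s1 (.la (.ls 61 41 5797))) .out) .out) (.nx 8078 5162 (.nr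
  8077 1048577 (.nr 6380 4096 .s1 (.la (.ls 59 41 6508))) .out) .out))) (.na 10481 8192 (.nx 10480
  2049 (.nr 10479 524289 (.nr 8080 5793 .s1 (.la (.ls 43 37 2049))) .out) .out) (.na 13878 11586
  (.nx 13877 2049 (.nr 13876 524289 (.nr 10482 8192 .s1 (.la (.ls 43 41 2897))) .out) .out) (.nx
  18913 2049 (.nr 18912 131073 (.nr 13879 11586 .s1 (.nx 14113 235 (.lx (.lp 16 0 4097)) (.nx 14114
  236 (.l1 .sk) (.la (.ls 29 41 4097))))) .out) .out)))) (.na 24647 131072 (.na 20966 32768 (.nx
  20965 2049 (.nr 20964 262145 (.nr 18915 16384 .s1 (.nx 19238 324 (.lx (.lp 16 0 8193)) (.nr 20963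
  131073 (.lx (.lp 29 43 8193)) .out))) .out) .out) (.na 23018 65536 (.nx 23017 2049 (.nr 23016
  524289 (.nr 20967 32768 .s1 (.nx 21478 512 (.lx (.lp 16 0 16385)) (.nr 23015 262145 (.lx (.lp 31
  47 16385)) .out))) .out) .out) (.nx 24646 1627 (.nr 24645 524289 (.nr 23019 65536 .s1 (.lx (.lp
  29 53 32769))) .out) .out))) (.na 26791 524288 (.na 26276 262144 (.nx 26275 1627 (.nr 26274
  524289 (.nr 24648 131072 .s1 (.lx (.lp 19 59 65537))) .out) .out) (.nx 26790 513 (.nr 26789
  1048577 (.nr 26277 262144 .s1 (.lx (.lp 16 0 131073))) .out) .out)) (.na 26793 1048577 (.nx 26792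
  324 (.l1 .sk) .out) .out))))))

def T134_2 : Ph :=
  (.na 6768 5793 (.na 2092 1449 (.na 636 725 (.nx 635 832257 (.nr 634 1482912 (.nr 1 512 .s1 (.nx
  161 160 (.nx 160 159 (.nr 159 6475 (.lx (.lp 47 19 182)) (.l1 .sk)) (.l1 .sk)) (.nx 206 205 (.lx
  (.lp 89 19 182)) (.nr 633 1048577 (.nx 419 22297 (.la (.lg 0 false 1 73 73 29 0)) (.nr 632 32769
  (.la (.lg 2 true 1 67 67 29 129228)) .out)) .out)))) .out) .out) (.na 1238 1024 (.nx 1237 10323
  (.nr 1236 1048577 (.nr 637 725 .s1 (.nx 936 2049 (.la (.ls 73 41 5793)) (.nr 1235 16385 (.la (.lg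
  0 true 1 37 37 29 0)) .out))) .out) .out) (.nx 2091 10323 (.nr 2090 1048577 (.nr 1239 1024 .s1
  (.nx 1664 2582 (.la (.ls 71 41 6513)) (.nr 2089 16385 (.la (.lg 0 false 1 31 31 31 0)) .out)))
  .out) .out))) (.na 3546 2897 (.na 2694 2048 (.nx 2693 2582 (.nr 2692 524289 (.nr 2093 1449 .s1
  (.la (.ls 89 37 4603))) .out) .out) (.nx 3545 3252 (.nr 3544 524289 (.nr 2695 2048 .s1 (.la (.ls
  83 41 5166))) .out) .out)) (.na 4908 4096 (.nx 4907 2582 (.nr 4906 262145 (.nr 3547 2897 .s1 (.nx
  3707 160 (.nx 3706 159 (.nr 3705 36579 (.lx (.lp 59 31 1025)) (.l1 .sk)) (.l1 .sk)) (.la (.ls 67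
  37 2295)))) .out) .out) (.nx 6767 2582 (.nr 6766 262145 (.nr 4909 4096 .s1 (.nx 5069 160 (.nx
  5068 159 (.nr 5067 51734 (.lx (.lp 16 31 1449)) (.l1 .sk)) (.l1 .sk)) (.la (.ls 61 37 1624))))
  .out) .out)))) (.na 11681 65536 (.na 9357 16384 (.na 8062 8192 (.nx 8061 1292 (.nr 8060 65537
  (.nr 6769 5793 .s1 (.lx (.lp 47 37 2049))) .out) .out) (.nx 9356 1292 (.nr 9355 131073 (.nr 8063
  8192 .s1 (.nx 8267 205 (.lx (.lp 59 41 4097)) (.nr 9354 65537 (.lx (.lp 43 41 4097)) .out)))
  .out) .out)) (.na 10653 32768 (.nx 10652 1292 (.nr 10651 262145 (.nr 9358 16384 .s1 (.nx 9562 205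
  (.lx (.lp 16 41 8193)) (.nr 10650 131073 (.nx 9680 322 (.nr 9679 65537 (.lx (.lp 43 43 8193))
  .out) (.lx (.lp 47 43 8193))) .out))) .out) .out) (.nx 11680 1025 (.nr 11679 262145 (.nr 10654
  32768 .s1 (.nx 10858 205 (.lx (.lp 16 0 16385)) (.nr 11678 131073 (.lx (.lp 43 47 16385)) .out)))
  .out) .out))) (.na 12711 262144 (.na 12709 131072 (.nx 12708 1025 (.nr 12707 262145 (.nr 11682
  65536 .s1 (.nx 12005 324 (.lx (.lp 41 47 32769)) (.nr 12706 131073 (.lx (.lp 41 53 32769))
  .out))) .out) .out) (.nx 12710 324 (.l1 .sk) .out)) (.na 12713 524289 (.nx 12712 205 (.l1 .sk)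
  .out) .out))))

theorem c134 :
    OkQ ckI L9 197 1 10 0 34359738368 1 1099511627776 ∧
    OkQ ckI L10 235 1 1099511627776 0 34359738368 1 1099511627776 ∧
    OkQ ckI L8 159 512 1099511627776 0 34359738368 1 1099511627776 := by
  refine ⟨?_, ?_, ?_⟩
  · refine fin 72 902 T134_0 ?_
    refine jn 10 (by decide +kernel) ?_
    refine jn 16 (by decide +kernel) ?_
    refine jn 24 (by decide +kernel) ?_
    refine jn 31 (by decide +kernel) ?_
    refine jn 37 (by decide +kernel) ?_
    refine jn 54 (by decide +kernel) ?_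
    refine jn 81 (by decide +kernel) ?_
    refine jn 95 (by decide +kernel) ?_
    refine jn 106 (by decide +kernel) ?_
    refine jn 117 (by decide +kernel) ?_
    refine jn 125 (by decide +kernel) ?_
    refine jn 152 (by decide +kernel) ?_
    refine jn 161 (by decide +kernel) ?_
    refine jn 196 (by decide +kernel) ?_
    refine jn 209 (by decide +kernel) ?_
    refine jn 237 (by decide +kernel) ?_
    refine jn 244 (by decide +kernel) ?_
    refine jn 279 (by decide +kernel) ?_
    refine jn 305 (by decide +kernel) ?_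
    refine jn 335 (by decide +kernel) ?_
    refine jn 341 (by decide +kernel) ?_
    refine jn 343 (by decide +kernel) ?_
    refine jn 346 (by decide +kernel) ?_
    refine jn 348 (by decide +kernel) ?_
    refine jn 350 (by decide +kernel) ?_
    refine jn 352 (by decide +kernel) ?_
    refine jn 354 (by decide +kernel) ?_
    refine jn 358 (by decide +kernel) ?_
    refine jn 360 (by decide +kernel) ?_
    refine jn 363 (by decide +kernel) ?_
    refine jn 365 (by decide +kernel) ?_
    refine jn 368 (by decide +kernel) ?_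
    refine jn 371 (by decide +kernel) ?_
    refine jn 373 (by decide +kernel) ?_
    refine jn 375 (by decide +kernel) ?_
    refine jn 378 (by decide +kernel) ?_
    refine jn 381 (by decide +kernel) ?_
    refine jn 383 (by decide +kernel) ?_
    refine jn 384 (by decide +kernel) ?_
    refine jn 387 (by decide +kernel) ?_
    refine jn 389 (by decide +kernel) ?_
    refine jn 393 (by decide +kernel) ?_
    refine jn 395 (by decide +kernel) ?_
    refine jn 397 (by decide +kernel) ?_
    refine jn 400 (by decide +kernel) ?_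
    refine jn 403 (by decide +kernel) ?_
    refine jn 405 (by decide +kernel) ?_
    refine jn 419 (by decide +kernel) ?_
    refine jn 423 (by decide +kernel) ?_
    refine jn 425 (by decide +kernel) ?_
    refine jn 427 (by decide +kernel) ?_
    refine jn 430 (by decide +kernel) ?_
    refine jn 433 (by decide +kernel) ?_
    refine jn 435 (by decide +kernel) ?_
    refine jn 438 (by decide +kernel) ?_
    refine jn 440 (by decide +kernel) ?_
    refine jn 446 (by decide +kernel) ?_
    refine jn 450 (by decide +kernel) ?_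
    refine jn 459 (by decide +kernel) ?_
    refine jn 468 (by decide +kernel) ?_
    refine jn 471 (by decide +kernel) ?_
    refine jn 476 (by decide +kernel) ?_
    refine jn 488 (by decide +kernel) ?_
    refine jn 496 (by decide +kernel) ?_
    refine jn 501 (by decide +kernel) ?_
    refine jn 506 (by decide +kernel) ?_
    refine jn 518 (by decide +kernel) ?_
    refine jn 526 (by decide +kernel) ?_
    refine jn 538 (by decide +kernel) ?_
    refine jn 546 (by decide +kernel) ?_
    refine jn 559 (by decide +kernel) ?_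
    refine jn 566 (by decide +kernel) ?_
    refine jn 577 (by decide +kernel) ?_
    refine jn 588 (by decide +kernel) ?_
    refine jn 599 (by decide +kernel) ?_
    refine jn 627 (by decide +kernel) ?_
    refine jn 636 (by decide +kernel) ?_
    refine jn 638 (by decide +kernel) ?_
    refine jn 640 (by decide +kernel) ?_
    refine jn 641 (by decide +kernel) ?_
    refine jn 643 (by decide +kernel) ?_
    refine jn 645 (by decide +kernel) ?_
    refine jn 647 (by decide +kernel) ?_
    refine jn 662 (by decide +kernel) ?_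
    refine jn 667 (by decide +kernel) ?_
    refine jn 671 (by decide +kernel) ?_
    refine jn 675 (by decide +kernel) ?_
    refine jn 681 (by decide +kernel) ?_
    refine jn 689 (by decide +kernel) ?_
    refine jn 702 (by decide +kernel) ?_
    refine jn 715 (by decide +kernel) ?_
    refine jn 717 (by decide +kernel) ?_
    refine jn 730 (by decide +kernel) ?_
    refine jn 738 (by decide +kernel) ?_
    refine jn 745 (by decide +kernel) ?_
    refine jn 757 (by decide +kernel) ?_
    refine jn 787 (by decide +kernel) ?_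
    refine jn 795 (by decide +kernel) ?_
    refine jn 796 (by decide +kernel) ?_
    refine jn 799 (by decide +kernel) ?_
    refine jn 801 (by decide +kernel) ?_
    refine jn 802 (by decide +kernel) ?_
    refine jn 812 (by decide +kernel) ?_
    refine jn 816 (by decide +kernel) ?_
    refine jn 824 (by decide +kernel) ?_
    refine jn 832 (by decide +kernel) ?_
    refine jn 839 (by decide +kernel) ?_
    refine jn 846 (by decide +kernel) ?_
    refine jn 853 (by decide +kernel) ?_
    refine jn 860 (by decide +kernel) ?_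
    refine jn 867 (by decide +kernel) ?_
    refine jn 898 (by decide +kernel) ?_
    exact je (by decide +kernel)
  · refine fin 5640 26794 T134_1 ?_
    refine jn 12 (by decide +kernel) ?_
    refine jn 21 (by decide +kernel) ?_
    refine jn 30 (by decide +kernel) ?_
    refine jn 37 (by decide +kernel) ?_
    refine jn 44 (by decide +kernel) ?_
    refine jn 51 (by decide +kernel) ?_
    refine jn 58 (by decide +kernel) ?_
    refine jn 66 (by decide +kernel) ?_
    refine jn 73 (by decide +kernel) ?_
    refine jn 81 (by decide +kernel) ?_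
    refine jn 102 (by decide +kernel) ?_
    refine jn 124 (by decide +kernel) ?_
    refine jn 138 (by decide +kernel) ?_
    refine jn 152 (by decide +kernel) ?_
    refine jn 158 (by decide +kernel) ?_
    refine jn 189 (by decide +kernel) ?_
    refine jn 212 (by decide +kernel) ?_
    refine jn 235 (by decide +kernel) ?_
    refine jn 244 (by decide +kernel) ?_
    refine jn 265 (by decide +kernel) ?_
    refine jn 277 (by decide +kernel) ?_
    refine jn 298 (by decide +kernel) ?_
    refine jn 310 (by decide +kernel) ?_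
    refine jn 331 (by decide +kernel) ?_
    refine jn 353 (by decide +kernel) ?_
    refine jn 371 (by decide +kernel) ?_
    refine jn 376 (by decide +kernel) ?_
    refine jn 409 (by decide +kernel) ?_
    refine jn 430 (by decide +kernel) ?_
    refine jn 447 (by decide +kernel) ?_
    refine jn 458 (by decide +kernel) ?_
    refine jn 480 (by decide +kernel) ?_
    refine jn 508 (by decide +kernel) ?_
    refine jn 529 (by decide +kernel) ?_
    refine jn 552 (by decide +kernel) ?_
    refine jn 556 (by decide +kernel) ?_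
    refine jn 560 (by decide +kernel) ?_
    refine jn 563 (by decide +kernel) ?_
    refine jn 564 (by decide +kernel) ?_
    refine jn 571 (by decide +kernel) ?_
    refine jn 572 (by decide +kernel) ?_
    refine jn 573 (by decide +kernel) ?_
    refine jn 574 (by decide +kernel) ?_
    refine jn 575 (by decide +kernel) ?_
    refine jn 576 (by decide +kernel) ?_
    refine jn 577 (by decide +kernel) ?_
    refine jn 578 (by decide +kernel) ?_
    refine jn 586 (by decide +kernel) ?_
    refine jn 589 (by decide +kernel) ?_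
    refine jn 592 (by decide +kernel) ?_
    refine jn 603 (by decide +kernel) ?_
    refine jn 610 (by decide +kernel) ?_
    refine jn 620 (by decide +kernel) ?_
    refine jn 634 (by decide +kernel) ?_
    refine jn 651 (by decide +kernel) ?_
    refine jn 663 (by decide +kernel) ?_
    refine jn 664 (by decide +kernel) ?_
    refine jn 665 (by decide +kernel) ?_
    refine jn 666 (by decide +kernel) ?_
    refine jn 681 (by decide +kernel) ?_
    refine jn 702 (by decide +kernel) ?_
    refine jn 717 (by decide +kernel) ?_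
    refine jn 731 (by decide +kernel) ?_
    refine jn 746 (by decide +kernel) ?_
    refine jn 761 (by decide +kernel) ?_
    refine jn 775 (by decide +kernel) ?_
    refine jn 789 (by decide +kernel) ?_
    refine jn 807 (by decide +kernel) ?_
    refine jn 821 (by decide +kernel) ?_
    refine jn 838 (by decide +kernel) ?_
    refine jn 959 (by decide +kernel) ?_
    refine jn 995 (by decide +kernel) ?_
    refine jn 1031 (by decide +kernel) ?_
    refine jn 1065 (by decide +kernel) ?_
    refine jn 1101 (by decide +kernel) ?_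
    refine jn 1137 (by decide +kernel) ?_
    refine jn 1170 (by decide +kernel) ?_
    refine jn 1344 (by decide +kernel) ?_
    refine jn 1404 (by decide +kernel) ?_
    refine jn 1428 (by decide +kernel) ?_
    refine jn 1460 (by decide +kernel) ?_
    refine jn 1505 (by decide +kernel) ?_
    refine jn 1573 (by decide +kernel) ?_
    refine jn 1589 (by decide +kernel) ?_
    refine jn 1721 (by decide +kernel) ?_
    refine jn 1868 (by decide +kernel) ?_
    refine jn 1924 (by decide +kernel) ?_
    refine jn 1952 (by decide +kernel) ?_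
    refine jn 1996 (by decide +kernel) ?_
    refine jn 2077 (by decide +kernel) ?_
    refine jn 2129 (by decide +kernel) ?_
    refine jn 2165 (by decide +kernel) ?_
    refine jn 2209 (by decide +kernel) ?_
    refine jn 2333 (by decide +kernel) ?_
    refine jn 2525 (by decide +kernel) ?_
    refine jn 2632 (by decide +kernel) ?_
    refine jn 2732 (by decide +kernel) ?_
    refine jn 2852 (by decide +kernel) ?_
    refine jn 2988 (by decide +kernel) ?_
    refine jn 3192 (by decide +kernel) ?_
    refine jn 3353 (by decide +kernel) ?_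
    refine jn 3401 (by decide +kernel) ?_
    refine jn 3485 (by decide +kernel) ?_
    refine jn 3593 (by decide +kernel) ?_
    refine jn 3729 (by decide +kernel) ?_
    refine jn 3809 (by decide +kernel) ?_
    refine jn 3897 (by decide +kernel) ?_
    refine jn 4029 (by decide +kernel) ?_
    refine jn 4157 (by decide +kernel) ?_
    refine jn 4253 (by decide +kernel) ?_
    refine jn 4332 (by decide +kernel) ?_
    refine jn 4496 (by decide +kernel) ?_
    refine jn 4662 (by decide +kernel) ?_
    refine jn 4848 (by decide +kernel) ?_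
    refine jn 4992 (by decide +kernel) ?_
    refine jn 5144 (by decide +kernel) ?_
    refine jn 5343 (by decide +kernel) ?_
    refine jn 5591 (by decide +kernel) ?_
    refine jn 5871 (by decide +kernel) ?_
    refine jn 6227 (by decide +kernel) ?_
    refine jn 6482 (by decide +kernel) ?_
    refine jn 6758 (by decide +kernel) ?_
    refine jn 7050 (by decide +kernel) ?_
    refine jn 7358 (by decide +kernel) ?_
    refine jn 7694 (by decide +kernel) ?_
    refine jn 8018 (by decide +kernel) ?_
    refine jn 8361 (by decide +kernel) ?_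
    refine jn 8817 (by decide +kernel) ?_
    refine jn 9297 (by decide +kernel) ?_
    refine jn 9765 (by decide +kernel) ?_
    refine jn 10217 (by decide +kernel) ?_
    refine jn 10712 (by decide +kernel) ?_
    refine jn 11196 (by decide +kernel) ?_
    refine jn 11750 (by decide +kernel) ?_
    refine jn 12228 (by decide +kernel) ?_
    refine jn 12756 (by decide +kernel) ?_
    refine jn 13292 (by decide +kernel) ?_
    refine jn 13856 (by decide +kernel) ?_
    refine jn 14458 (by decide +kernel) ?_
    refine jn 15042 (by decide +kernel) ?_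
    refine jn 15606 (by decide +kernel) ?_
    refine jn 16254 (by decide +kernel) ?_
    refine jn 16830 (by decide +kernel) ?_
    refine jn 17385 (by decide +kernel) ?_
    refine jn 17938 (by decide +kernel) ?_
    refine jn 18498 (by decide +kernel) ?_
    refine jn 18915 (by decide +kernel) ?_
    refine jn 19441 (by decide +kernel) ?_
    refine jn 19673 (by decide +kernel) ?_
    refine jn 19847 (by decide +kernel) ?_
    refine jn 19997 (by decide +kernel) ?_
    refine jn 20121 (by decide +kernel) ?_
    refine jn 20229 (by decide +kernel) ?_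
    refine jn 20324 (by decide +kernel) ?_
    refine jn 20407 (by decide +kernel) ?_
    refine jn 20481 (by decide +kernel) ?_
    refine jn 20551 (by decide +kernel) ?_
    refine jn 20617 (by decide +kernel) ?_
    refine jn 20682 (by decide +kernel) ?_
    refine jn 20743 (by decide +kernel) ?_
    refine jn 20800 (by decide +kernel) ?_
    refine jn 20854 (by decide +kernel) ?_
    refine jn 20904 (by decide +kernel) ?_
    refine jn 20954 (by decide +kernel) ?_
    refine jn 21478 (by decide +kernel) ?_
    refine jn 21799 (by decide +kernel) ?_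
    refine jn 22030 (by decide +kernel) ?_
    refine jn 22208 (by decide +kernel) ?_
    refine jn 22354 (by decide +kernel) ?_
    refine jn 22493 (by decide +kernel) ?_
    refine jn 22616 (by decide +kernel) ?_
    refine jn 22730 (by decide +kernel) ?_
    refine jn 22834 (by decide +kernel) ?_
    refine jn 22929 (by decide +kernel) ?_
    refine jn 23015 (by decide +kernel) ?_
    refine jn 23751 (by decide +kernel) ?_
    refine jn 24097 (by decide +kernel) ?_
    refine jn 24334 (by decide +kernel) ?_
    refine jn 24547 (by decide +kernel) ?_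
    refine jn 25159 (by decide +kernel) ?_
    refine jn 25686 (by decide +kernel) ?_
    refine jn 26011 (by decide +kernel) ?_
    refine jn 26274 (by decide +kernel) ?_
    exact je (by decide +kernel)
  · refine fin 1272 12714 T134_2 ?_
    refine jn 81 (by decide +kernel) ?_
    refine jn 161 (by decide +kernel) ?_
    refine jn 206 (by decide +kernel) ?_
    refine jn 210 (by decide +kernel) ?_
    refine jn 213 (by decide +kernel) ?_
    refine jn 214 (by decide +kernel) ?_
    refine jn 215 (by decide +kernel) ?_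
    refine jn 223 (by decide +kernel) ?_
    refine jn 231 (by decide +kernel) ?_
    refine jn 240 (by decide +kernel) ?_
    refine jn 242 (by decide +kernel) ?_
    refine jn 246 (by decide +kernel) ?_
    refine jn 249 (by decide +kernel) ?_
    refine jn 253 (by decide +kernel) ?_
    refine jn 254 (by decide +kernel) ?_
    refine jn 255 (by decide +kernel) ?_
    refine jn 262 (by decide +kernel) ?_
    refine jn 263 (by decide +kernel) ?_
    refine jn 269 (by decide +kernel) ?_
    refine jn 276 (by decide +kernel) ?_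
    refine jn 286 (by decide +kernel) ?_
    refine jn 291 (by decide +kernel) ?_
    refine jn 294 (by decide +kernel) ?_
    refine jn 296 (by decide +kernel) ?_
    refine jn 308 (by decide +kernel) ?_
    refine jn 313 (by decide +kernel) ?_
    refine jn 318 (by decide +kernel) ?_
    refine jn 319 (by decide +kernel) ?_
    refine jn 331 (by decide +kernel) ?_
    refine jn 334 (by decide +kernel) ?_
    refine jn 337 (by decide +kernel) ?_
    refine jn 338 (by decide +kernel) ?_
    refine jn 339 (by decide +kernel) ?_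
    refine jn 346 (by decide +kernel) ?_
    refine jn 350 (by decide +kernel) ?_
    refine jn 355 (by decide +kernel) ?_
    refine jn 358 (by decide +kernel) ?_
    refine jn 363 (by decide +kernel) ?_
    refine jn 367 (by decide +kernel) ?_
    refine jn 373 (by decide +kernel) ?_
    refine jn 381 (by decide +kernel) ?_
    refine jn 383 (by decide +kernel) ?_
    refine jn 388 (by decide +kernel) ?_
    refine jn 395 (by decide +kernel) ?_
    refine jn 404 (by decide +kernel) ?_
    refine jn 412 (by decide +kernel) ?_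
    refine jn 419 (by decide +kernel) ?_
    refine jn 423 (by decide +kernel) ?_
    refine jn 426 (by decide +kernel) ?_
    refine jn 427 (by decide +kernel) ?_
    refine jn 428 (by decide +kernel) ?_
    refine jn 436 (by decide +kernel) ?_
    refine jn 444 (by decide +kernel) ?_
    refine jn 453 (by decide +kernel) ?_
    refine jn 455 (by decide +kernel) ?_
    refine jn 459 (by decide +kernel) ?_
    refine jn 462 (by decide +kernel) ?_
    refine jn 466 (by decide +kernel) ?_
    refine jn 467 (by decide +kernel) ?_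
    refine jn 468 (by decide +kernel) ?_
    refine jn 476 (by decide +kernel) ?_
    refine jn 482 (by decide +kernel) ?_
    refine jn 488 (by decide +kernel) ?_
    refine jn 495 (by decide +kernel) ?_
    refine jn 499 (by decide +kernel) ?_
    refine jn 504 (by decide +kernel) ?_
    refine jn 507 (by decide +kernel) ?_
    refine jn 509 (by decide +kernel) ?_
    refine jn 521 (by decide +kernel) ?_
    refine jn 526 (by decide +kernel) ?_
    refine jn 531 (by decide +kernel) ?_
    refine jn 533 (by decide +kernel) ?_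
    refine jn 547 (by decide +kernel) ?_
    refine jn 550 (by decide +kernel) ?_
    refine jn 551 (by decide +kernel) ?_
    refine jn 552 (by decide +kernel) ?_
    refine jn 559 (by decide +kernel) ?_
    refine jn 563 (by decide +kernel) ?_
    refine jn 568 (by decide +kernel) ?_
    refine jn 571 (by decide +kernel) ?_
    refine jn 576 (by decide +kernel) ?_
    refine jn 580 (by decide +kernel) ?_
    refine jn 586 (by decide +kernel) ?_
    refine jn 593 (by decide +kernel) ?_
    refine jn 595 (by decide +kernel) ?_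
    refine jn 597 (by decide +kernel) ?_
    refine jn 606 (by decide +kernel) ?_
    refine jn 608 (by decide +kernel) ?_
    refine jn 617 (by decide +kernel) ?_
    refine jn 624 (by decide +kernel) ?_
    refine jn 630 (by decide +kernel) ?_
    refine jn 640 (by decide +kernel) ?_
    refine jn 648 (by decide +kernel) ?_
    refine jn 669 (by decide +kernel) ?_
    refine jn 689 (by decide +kernel) ?_
    refine jn 708 (by decide +kernel) ?_
    refine jn 720 (by decide +kernel) ?_
    refine jn 733 (by decide +kernel) ?_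
    refine jn 752 (by decide +kernel) ?_
    refine jn 763 (by decide +kernel) ?_
    refine jn 787 (by decide +kernel) ?_
    refine jn 808 (by decide +kernel) ?_
    refine jn 832 (by decide +kernel) ?_
    refine jn 849 (by decide +kernel) ?_
    refine jn 875 (by decide +kernel) ?_
    refine jn 894 (by decide +kernel) ?_
    refine jn 912 (by decide +kernel) ?_
    refine jn 939 (by decide +kernel) ?_
    refine jn 940 (by decide +kernel) ?_
    refine jn 951 (by decide +kernel) ?_
    refine jn 968 (by decide +kernel) ?_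
    refine jn 987 (by decide +kernel) ?_
    refine jn 991 (by decide +kernel) ?_
    refine jn 1000 (by decide +kernel) ?_
    refine jn 1016 (by decide +kernel) ?_
    refine jn 1022 (by decide +kernel) ?_
    refine jn 1033 (by decide +kernel) ?_
    refine jn 1046 (by decide +kernel) ?_
    refine jn 1051 (by decide +kernel) ?_
    refine jn 1052 (by decide +kernel) ?_
    refine jn 1071 (by decide +kernel) ?_
    refine jn 1088 (by decide +kernel) ?_
    refine jn 1099 (by decide +kernel) ?_
    refine jn 1107 (by decide +kernel) ?_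
    refine jn 1121 (by decide +kernel) ?_
    refine jn 1131 (by decide +kernel) ?_
    refine jn 1132 (by decide +kernel) ?_
    refine jn 1166 (by decide +kernel) ?_
    refine jn 1173 (by decide +kernel) ?_
    refine jn 1186 (by decide +kernel) ?_
    refine jn 1195 (by decide +kernel) ?_
    refine jn 1206 (by decide +kernel) ?_
    refine jn 1215 (by decide +kernel) ?_
    refine jn 1240 (by decide +kernel) ?_
    refine jn 1255 (by decide +kernel) ?_
    refine jn 1270 (by decide +kernel) ?_
    refine jn 1292 (by decide +kernel) ?_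
    refine jn 1311 (by decide +kernel) ?_
    refine jn 1332 (by decide +kernel) ?_
    refine jn 1345 (by decide +kernel) ?_
    refine jn 1365 (by decide +kernel) ?_
    refine jn 1391 (by decide +kernel) ?_
    refine jn 1411 (by decide +kernel) ?_
    refine jn 1427 (by decide +kernel) ?_
    refine jn 1457 (by decide +kernel) ?_
    refine jn 1487 (by decide +kernel) ?_
    refine jn 1503 (by decide +kernel) ?_
    refine jn 1515 (by decide +kernel) ?_
    refine jn 1533 (by decide +kernel) ?_
    refine jn 1553 (by decide +kernel) ?_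
    refine jn 1580 (by decide +kernel) ?_
    refine jn 1595 (by decide +kernel) ?_
    refine jn 1615 (by decide +kernel) ?_
    refine jn 1647 (by decide +kernel) ?_
    refine jn 1662 (by decide +kernel) ?_
    refine jn 1672 (by decide +kernel) ?_
    refine jn 1680 (by decide +kernel) ?_
    refine jn 1681 (by decide +kernel) ?_
    refine jn 1700 (by decide +kernel) ?_
    refine jn 1719 (by decide +kernel) ?_
    refine jn 1732 (by decide +kernel) ?_
    refine jn 1741 (by decide +kernel) ?_
    refine jn 1757 (by decide +kernel) ?_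
    refine jn 1760 (by decide +kernel) ?_
    refine jn 1761 (by decide +kernel) ?_
    refine jn 1781 (by decide +kernel) ?_
    refine jn 1793 (by decide +kernel) ?_
    refine jn 1811 (by decide +kernel) ?_
    refine jn 1833 (by decide +kernel) ?_
    refine jn 1840 (by decide +kernel) ?_
    refine jn 1851 (by decide +kernel) ?_
    refine jn 1868 (by decide +kernel) ?_
    refine jn 1888 (by decide +kernel) ?_
    refine jn 1901 (by decide +kernel) ?_
    refine jn 1920 (by decide +kernel) ?_
    refine jn 1928 (by decide +kernel) ?_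
    refine jn 1929 (by decide +kernel) ?_
    refine jn 1940 (by decide +kernel) ?_
    refine jn 1952 (by decide +kernel) ?_
    refine jn 1964 (by decide +kernel) ?_
    refine jn 1977 (by decide +kernel) ?_
    refine jn 1992 (by decide +kernel) ?_
    refine jn 2005 (by decide +kernel) ?_
    refine jn 2016 (by decide +kernel) ?_
    refine jn 2024 (by decide +kernel) ?_
    refine jn 2040 (by decide +kernel) ?_
    refine jn 2042 (by decide +kernel) ?_
    refine jn 2072 (by decide +kernel) ?_
    refine jn 2077 (by decide +kernel) ?_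
    refine jn 2100 (by decide +kernel) ?_
    refine jn 2116 (by decide +kernel) ?_
    refine jn 2131 (by decide +kernel) ?_
    refine jn 2158 (by decide +kernel) ?_
    refine jn 2186 (by decide +kernel) ?_
    refine jn 2204 (by decide +kernel) ?_
    refine jn 2231 (by decide +kernel) ?_
    refine jn 2254 (by decide +kernel) ?_
    refine jn 2275 (by decide +kernel) ?_
    refine jn 2299 (by decide +kernel) ?_
    refine jn 2324 (by decide +kernel) ?_
    refine jn 2346 (by decide +kernel) ?_
    refine jn 2369 (by decide +kernel) ?_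
    refine jn 2406 (by decide +kernel) ?_
    refine jn 2433 (by decide +kernel) ?_
    refine jn 2464 (by decide +kernel) ?_
    refine jn 2484 (by decide +kernel) ?_
    refine jn 2505 (by decide +kernel) ?_
    refine jn 2555 (by decide +kernel) ?_
    refine jn 2572 (by decide +kernel) ?_
    refine jn 2594 (by decide +kernel) ?_
    refine jn 2621 (by decide +kernel) ?_
    refine jn 2644 (by decide +kernel) ?_
    refine jn 2673 (by decide +kernel) ?_
    refine jn 2710 (by decide +kernel) ?_
    refine jn 2727 (by decide +kernel) ?_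
    refine jn 2747 (by decide +kernel) ?_
    refine jn 2767 (by decide +kernel) ?_
    refine jn 2797 (by decide +kernel) ?_
    refine jn 2829 (by decide +kernel) ?_
    refine jn 2855 (by decide +kernel) ?_
    refine jn 2883 (by decide +kernel) ?_
    refine jn 2905 (by decide +kernel) ?_
    refine jn 2939 (by decide +kernel) ?_
    refine jn 2966 (by decide +kernel) ?_
    refine jn 2998 (by decide +kernel) ?_
    refine jn 3039 (by decide +kernel) ?_
    refine jn 3055 (by decide +kernel) ?_
    refine jn 3074 (by decide +kernel) ?_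
    refine jn 3106 (by decide +kernel) ?_
    refine jn 3137 (by decide +kernel) ?_
    refine jn 3172 (by decide +kernel) ?_
    refine jn 3207 (by decide +kernel) ?_
    refine jn 3229 (by decide +kernel) ?_
    refine jn 3256 (by decide +kernel) ?_
    refine jn 3291 (by decide +kernel) ?_
    refine jn 3321 (by decide +kernel) ?_
    refine jn 3357 (by decide +kernel) ?_
    refine jn 3387 (by decide +kernel) ?_
    refine jn 3407 (by decide +kernel) ?_
    refine jn 3442 (by decide +kernel) ?_
    refine jn 3471 (by decide +kernel) ?_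
    refine jn 3511 (by decide +kernel) ?_
    refine jn 3532 (by decide +kernel) ?_
    refine jn 3711 (by decide +kernel) ?_
    refine jn 3746 (by decide +kernel) ?_
    refine jn 3778 (by decide +kernel) ?_
    refine jn 3822 (by decide +kernel) ?_
    refine jn 3866 (by decide +kernel) ?_
    refine jn 3905 (by decide +kernel) ?_
    refine jn 3936 (by decide +kernel) ?_
    refine jn 3992 (by decide +kernel) ?_
    refine jn 4027 (by decide +kernel) ?_
    refine jn 4064 (by decide +kernel) ?_
    refine jn 4102 (by decide +kernel) ?_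
    refine jn 4153 (by decide +kernel) ?_
    refine jn 4182 (by decide +kernel) ?_
    refine jn 4218 (by decide +kernel) ?_
    refine jn 4255 (by decide +kernel) ?_
    refine jn 4310 (by decide +kernel) ?_
    refine jn 4345 (by decide +kernel) ?_
    refine jn 4384 (by decide +kernel) ?_
    refine jn 4424 (by decide +kernel) ?_
    refine jn 4469 (by decide +kernel) ?_
    refine jn 4504 (by decide +kernel) ?_
    refine jn 4558 (by decide +kernel) ?_
    refine jn 4607 (by decide +kernel) ?_
    refine jn 4650 (by decide +kernel) ?_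
    refine jn 4678 (by decide +kernel) ?_
    refine jn 4718 (by decide +kernel) ?_
    refine jn 4755 (by decide +kernel) ?_
    refine jn 4794 (by decide +kernel) ?_
    refine jn 4833 (by decide +kernel) ?_
    refine jn 4877 (by decide +kernel) ?_
    refine jn 5073 (by decide +kernel) ?_
    refine jn 5117 (by decide +kernel) ?_
    refine jn 5157 (by decide +kernel) ?_
    refine jn 5199 (by decide +kernel) ?_
    refine jn 5238 (by decide +kernel) ?_
    refine jn 5290 (by decide +kernel) ?_
    refine jn 5341 (by decide +kernel) ?_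
    refine jn 5386 (by decide +kernel) ?_
    refine jn 5432 (by decide +kernel) ?_
    refine jn 5470 (by decide +kernel) ?_
    refine jn 5522 (by decide +kernel) ?_
    refine jn 5566 (by decide +kernel) ?_
    refine jn 5611 (by decide +kernel) ?_
    refine jn 5652 (by decide +kernel) ?_
    refine jn 5712 (by decide +kernel) ?_
    refine jn 5763 (by decide +kernel) ?_
    refine jn 5803 (by decide +kernel) ?_
    refine jn 5847 (by decide +kernel) ?_
    refine jn 5893 (by decide +kernel) ?_
    refine jn 5939 (by decide +kernel) ?_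
    refine jn 5985 (by decide +kernel) ?_
    refine jn 6037 (by decide +kernel) ?_
    refine jn 6087 (by decide +kernel) ?_
    refine jn 6131 (by decide +kernel) ?_
    refine jn 6174 (by decide +kernel) ?_
    refine jn 6234 (by decide +kernel) ?_
    refine jn 6273 (by decide +kernel) ?_
    refine jn 6325 (by decide +kernel) ?_
    refine jn 6381 (by decide +kernel) ?_
    refine jn 6420 (by decide +kernel) ?_
    refine jn 6466 (by decide +kernel) ?_
    refine jn 6509 (by decide +kernel) ?_
    refine jn 6563 (by decide +kernel) ?_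
    refine jn 6609 (by decide +kernel) ?_
    refine jn 6659 (by decide +kernel) ?_
    refine jn 6713 (by decide +kernel) ?_
    refine jn 6746 (by decide +kernel) ?_
    refine jn 7007 (by decide +kernel) ?_
    refine jn 7088 (by decide +kernel) ?_
    refine jn 7207 (by decide +kernel) ?_
    refine jn 7309 (by decide +kernel) ?_
    refine jn 7407 (by decide +kernel) ?_
    refine jn 7493 (by decide +kernel) ?_
    refine jn 7566 (by decide +kernel) ?_
    refine jn 7619 (by decide +kernel) ?_
    refine jn 7683 (by decide +kernel) ?_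
    refine jn 7746 (by decide +kernel) ?_
    refine jn 7797 (by decide +kernel) ?_
    refine jn 7848 (by decide +kernel) ?_
    refine jn 7897 (by decide +kernel) ?_
    refine jn 7929 (by decide +kernel) ?_
    refine jn 7967 (by decide +kernel) ?_
    refine jn 8007 (by decide +kernel) ?_
    refine jn 8051 (by decide +kernel) ?_
    refine jn 8279 (by decide +kernel) ?_
    refine jn 8361 (by decide +kernel) ?_
    refine jn 8410 (by decide +kernel) ?_
    refine jn 8479 (by decide +kernel) ?_
    refine jn 8543 (by decide +kernel) ?_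
    refine jn 8591 (by decide +kernel) ?_
    refine jn 8641 (by decide +kernel) ?_
    refine jn 8703 (by decide +kernel) ?_
    refine jn 8750 (by decide +kernel) ?_
    refine jn 8811 (by decide +kernel) ?_
    refine jn 8860 (by decide +kernel) ?_
    refine jn 8898 (by decide +kernel) ?_
    refine jn 8934 (by decide +kernel) ?_
    refine jn 8977 (by decide +kernel) ?_
    refine jn 9021 (by decide +kernel) ?_
    refine jn 9051 (by decide +kernel) ?_
    refine jn 9073 (by decide +kernel) ?_
    refine jn 9103 (by decide +kernel) ?_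
    refine jn 9139 (by decide +kernel) ?_
    refine jn 9177 (by decide +kernel) ?_
    refine jn 9195 (by decide +kernel) ?_
    refine jn 9226 (by decide +kernel) ?_
    refine jn 9259 (by decide +kernel) ?_
    refine jn 9288 (by decide +kernel) ?_
    refine jn 9313 (by decide +kernel) ?_
    refine jn 9344 (by decide +kernel) ?_
    refine jn 9587 (by decide +kernel) ?_
    refine jn 9697 (by decide +kernel) ?_
    refine jn 9755 (by decide +kernel) ?_
    refine jn 9815 (by decide +kernel) ?_
    refine jn 9867 (by decide +kernel) ?_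
    refine jn 9927 (by decide +kernel) ?_
    refine jn 10007 (by decide +kernel) ?_
    refine jn 10074 (by decide +kernel) ?_
    refine jn 10119 (by decide +kernel) ?_
    refine jn 10169 (by decide +kernel) ?_
    refine jn 10213 (by decide +kernel) ?_
    refine jn 10257 (by decide +kernel) ?_
    refine jn 10321 (by decide +kernel) ?_
    refine jn 10349 (by decide +kernel) ?_
    refine jn 10382 (by decide +kernel) ?_
    refine jn 10429 (by decide +kernel) ?_
    refine jn 10479 (by decide +kernel) ?_
    refine jn 10511 (by decide +kernel) ?_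
    refine jn 10557 (by decide +kernel) ?_
    refine jn 10591 (by decide +kernel) ?_
    refine jn 10635 (by decide +kernel) ?_
    refine jn 10942 (by decide +kernel) ?_
    refine jn 11062 (by decide +kernel) ?_
    refine jn 11146 (by decide +kernel) ?_
    refine jn 11204 (by decide +kernel) ?_
    refine jn 11267 (by decide +kernel) ?_
    refine jn 11328 (by decide +kernel) ?_
    refine jn 11394 (by decide +kernel) ?_
    refine jn 11452 (by decide +kernel) ?_
    refine jn 11522 (by decide +kernel) ?_
    refine jn 11612 (by decide +kernel) ?_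
    refine jn 11652 (by decide +kernel) ?_
    refine jn 12005 (by decide +kernel) ?_
    refine jn 12124 (by decide +kernel) ?_
    refine jn 12239 (by decide +kernel) ?_
    refine jn 12342 (by decide +kernel) ?_
    refine jn 12432 (by decide +kernel) ?_
    refine jn 12488 (by decide +kernel) ?_
    refine jn 12560 (by decide +kernel) ?_
    refine jn 12640 (by decide +kernel) ?_
    refine jn 12683 (by decide +kernel) ?_
    exact je (by decide +kernel)

end Pool.Agent.MP_2339ce_nt.NR
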