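import Pool.Agent.MP_2339ce_nt.Q2.NC.L5
import Pool.Agent.MP_2339ce_nt.Q2.NC.L6
import Pool.Agent.MP_2339ce_nt.Q2.NC.L10
import Pool.Agent.MP_2339ce_nt.Q2.CkI

/-! Block NR: runs. -/

set_option autoImplicit false
set_option maxRecDepth 100000

noncomputable section

namespace Pool.Agent.MP_2339ce_nt.NR

open Q2.Top

def T136_0 : Ph :=
  (.na 637 7 (.na 423 3 (.na 1 2 .ne (.nx 422 3329023 (.nr 421 1763489 (.nx 409 2642247 (.nx 3 243
  (.nr 2 30 (.lg 0 false 1 43 43 5 0 720) (.l1 .sk)) (.nx 4 244 (.l1 .sk) (.nr 354 262145 (.nx 95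
  65537 (.lg 0 false 91 101 109 13 0 720720) (.nx 327 1048577 (.nr 130 941 (.lg 0 true 35 89 97 13
  0 5040) (.nx 165 82572 (.lg 1 false 35 101 107 13 118208 720720) (.nr 326 220437 (.nr 178 3446
  (.lg 2 true 13 97 97 9 135391 9360) (.nx 325 832257 (.nr 191 12637 (.lg 2 true 13 89 97 9 29344
  9360) (.nx 226 116773 (.lg 1 false 35 101 107 13 78907 720720) (.nx 261 165142 (.lg 1 false 35
  101 107 13 55797 720720) (.nr 324 155873 (.nr 288 92683 (.nr 274 55110 (.lg 2 false 13 101 103 9
  9897 720720) (.nx 287 330282 (.lg 2 false 13 101 103 9 16614 720720) .out)) (.nx 323 262145 (.lg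
  2 false 35 101 107 13 27911 720720) .out)) .out)))) .out)) .out))) (.nr 353 257 (.lg 0 true 26 83
  89 11 0 9360) .out))) (.nx 408 52017 (.nx 380 408 (.lg 0 false 26 83 83 11 0 1872) (.nx 381 26007
  .out (.nr 407 311745 (.lg 0 false 26 101 107 11 0 720720) .out))) .out)))) (.nr 420 9 (.lg 0 true
  11 67 67 9 0 1584) .out)) .out) .out)) (.na 424 6 .ne (.nx 636 21137969 (.nr 635 1048577 (.nx 426
  243 (.nr 425 76 (.lg 0 true 1 31 31 7 0 144) (.l1 .sk)) (.nx 427 244 (.l1 .sk) (.nx 578 832257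
  (.nx 493 82570 (.nr 482 262145 (.lg 0 false 55 97 103 23 0 720720) (.nx 492 814 (.lg 0 false 10
  79 79 13 0 720) .out)) (.nr 577 311745 (.nr 519 6606 (.nr 508 941 (.lg 0 true 15 79 79 13 0 720)
  (.lg 2 true 11 83 83 13 107460 1584)) (.nx 554 208065 (.lg 1 true 35 89 103 19 111559 65520) (.nr
  576 262145 (.nx 564 262145 (.lg 1 true 10 97 101 13 37234 65520) (.nr 575 131073 (.lg 2 false 11
  97 97 13 15308 11088) .out)) .out))) .out)) (.nr 634 257 (.nr 618 46 (.lg 0 true 40 73 73 13 0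
  720) (.nx 633 2642247 (.lg 0 true 15 73 73 13 0 720) .out)) .out)))) .out) .out))) (.na 720 16
  (.na 638 14 .ne (.nx 719 2642247 (.nr 718 1246976 (.nx 640 243 (.nr 639 176 (.lg 0 false 1 29 29
  11 0 1008) (.l1 .sk)) (.nx 641 244 (.l1 .sk) (.nx 710 660563 (.nx 642 324 (.l1 (.ls 83 43 3248))
  (.nr 709 1048577 (.nx 643 408 (.l1 (.ls 79 43 4395)) (.nr 708 741457 (.nx 660 41285 (.nr 654
  220437 (.lg 0 false 11 89 97 19 0 11088) (.nx 659 1627 (.lg 0 false 5 79 79 13 0 5040) .out))
  (.nr 707 311745 (.nr 665 1620 (.lg 0 true 5 83 83 13 0 5040) (.nx 677 82570 (.nr 676 262145 (.lg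
  1 false 11 89 101 19 187647 11088) .out) (.nr 679 7118 (.lg 2 false 2 83 83 13 49543 1008) (.nx
  689 165142 (.nx 684 116772 (.lg 1 false 5 97 97 13 111559 5040) (.lg 1 false 5 97 97 13 78884
  5040)) (.nr 706 262145 (.nx 694 208065 (.lg 1 false 5 89 97 13 46911 5040) (.nr 705 220437 (.nr
  699 77937 (.lg 2 false 5 83 89 13 11276 5040) (.nx 704 330282 (.lg 1 true 5 97 97 13 31315 5040)
  .out)) .out)) .out))))) .out)) .out)) .out)) (.nr 717 65 (.lg 0 true 7 67 67 13 0 1008) .out))))
  .out) .out)) (.na 721 18 .ne (.nx 794 2642247 (.nr 793 1246976 (.nr 722 10 .s1 (.nx 724 243 (.nr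
  723 254 (.lg 0 false 1 37 37 13 0 5040) (.l1 .sk)) (.nx 725 244 (.l1 .sk) (.nr 789 741457 (.nx
  783 660563 (.nr 779 311745 (.nr 739 30068 (.nx 728 29525 (.lg 0 false 3 89 89 19 0 5040) (.nr 733
  1726 (.lg 0 true 5 83 83 19 0 720) (.nx 738 524289 (.lg 2 false 5 79 79 19 36907 720) .out)))
  (.nx 778 524289 (.nr 774 220437 (.nr 750 92683 (.lg 0 true 11 101 103 23 0 720720) (.nx 773
  262145 (.nr 761 155873 (.lg 0 true 11 101 107 23 0 720720) (.nx 772 208065 (.lg 0 true 11 97 107
  23 0 720720) .out)) .out)) (.nx 777 13005 (.lg 0 false 3 89 97 19 0 5040) .out)) .out)) (.nx 782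
  1627 (.lg 0 false 3 89 89 19 0 5040) .out)) (.nr 788 129 (.lg 0 true 5 73 73 19 0 720) .out))
  (.nx 792 408 (.lg 0 false 3 73 73 19 0 144) .out))))) .out) .out))))

def T136_1 : Ph :=
  (.na 621 137 (.na 452 54 (.na 320 18 (.na 192 7 (.na 87 3 (.na 1 2 .ne (.nx 86 660563 (.nr 85
  623489 (.nx 4 46 (.nx 3 45 (.nr 2 13 (.lg 0 true 1 29 29 5 0 720) (.l1 .sk)) (.l1 .sk)) (.nr 71
  131073 (.nr 57 27556 (.nx 17 4970 (.lg 0 false 13 89 89 9 0 65520) (.nx 43 104033 (.nr 30 613
  (.lg 0 true 13 79 79 9 0 9360) (.lg 2 false 13 89 97 9 5624 65520)) (.nr 56 154 (.lg 0 true 13 79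
  79 9 0 9360) .out))) (.nx 70 647 (.lg 0 false 13 83 89 9 0 65520) .out)) (.nx 84 103 (.lg 0 false
  13 73 73 9 0 9360) .out))) .out) .out)) (.na 88 5 .ne (.na 148 6 (.nx 147 660563 (.nr 146 1482912
  (.nx 90 45 (.nr 89 28 (.lg 0 true 1 17 17 9 0 360) (.l1 .sk)) (.nx 91 46 (.l1 .sk) (.nr 129
  185365 (.nr 121 65537 (.nx 102 6503 (.lg 0 false 11 83 83 16 0 27720) (.nr 120 23172 (.nr 115 659
  (.lg 0 true 13 79 79 16 0 4680) (.nx 119 330282 (.lg 2 true 4 89 89 11 11277 5040) .out)) .out))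
  (.nx 128 647 (.lg 0 false 7 73 73 11 0 2520) .out)) (.nx 145 103 (.lg 0 false 16 67 67 16 0 720)
  .out)))) .out) .out) (.nx 191 660563 (.nr 190 220437 (.nx 151 46 (.nx 150 45 (.nr 149 33 (.lg 0
  false 1 19 19 7 0 720) (.l1 .sk)) (.l1 .sk)) (.nr 182 77937 (.nx 162 6503 (.lg 0 false 11 83 83
  13 0 7920) (.nr 181 27556 (.nr 173 704 (.lg 0 true 11 79 79 13 0 7920) (.nx 180 330282 (.lg 2
  false 7 83 83 13 10556 5040) .out)) .out)) (.nx 189 647 (.lg 0 false 7 73 73 13 0 5040) .out)))
  .out) .out)))) (.na 271 10 (.na 234 8 (.nx 233 660563 (.nr 232 262145 (.nr 193 3 .s1 (.nx 196 46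
  (.nx 195 45 (.nr 194 38 (.l1 (.ls 19 19 292)) (.l1 .sk)) (.l1 .sk)) (.nr 227 92683 (.nx 222
  330282 (.nr 209 2236 (.nx 197 1013 (.lg 0 true 1 67 67 9 0 2520) (.nr 207 584 (.nx 199 6503 (.nr
  198 152 (.lg 0 false 1 61 61 9 0 2520) (.lg 2 false 1 59 59 9 963 2520)) (.lg 0 true 8 79 79 16 0
  5040)) (.lg 2 false 2 73 73 11 12725 5040))) (.nx 213 6503 (.lg 0 false 4 97 97 13 0 5040) (.nr
  221 32769 (.lg 2 true 8 71 71 16 5110 5040) .out))) (.nr 226 78 (.lg 0 true 4 71 71 13 0 5040)
  .out)) (.nx 231 647 (.lg 0 false 4 83 83 13 0 5040) .out)))) .out) .out) (.na 235 9 .ne (.nx 270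
  660563 (.nr 269 623489 (.nr 236 7 .s1 (.nx 239 46 (.nx 238 45 (.nr 237 48 (.l1 (.ls 23 19 227))
  (.l1 .sk)) (.l1 .sk)) (.nx 240 103 (.l1 (.ls 83 29 946)) (.nr 268 131073 (.nr 265 110219 (.nr 248
  217 (.lg 0 true 8 71 71 16 0 720) (.nx 264 41287 (.nr 251 4112 (.nx 249 1013 (.lg 0 true 1 67 67
  13 0 360) (.lg 2 false 2 71 71 16 4281 5040)) (.lg 0 false 13 97 103 17 0 720720)) .out)) (.nx
  266 406 .out (.nx 267 2582 (.lg 0 true 1 83 83 13 0 2520) .out))) .out)))) .out) .out))) (.na 298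
  14 (.nx 297 660563 (.nr 296 623489 (.nr 272 8 .s1 (.nx 284 6503 (.nx 274 45 (.nr 273 67 (.l1 (.ls
  17 29 205)) (.l1 .sk)) (.nx 275 46 (.l1 .sk) (.nx 276 103 (.l1 (.ls 79 37 852)) (.nr 283 131073
  (.lg 0 false 7 83 83 13 0 5040) .out)))) (.nr 295 46342 (.nr 291 154 (.lg 0 true 7 67 67 13 0
  5040) (.nx 294 41287 (.lg 1 false 3 79 79 11 7223 720) .out)) .out))) .out) .out) (.na 319 16
  (.nx 318 660563 (.nr 317 623489 (.nr 299 13 .s1 (.nx 302 46 (.nx 301 45 (.nr 300 77 (.l1 (.ls 19
  23 147)) (.l1 .sk)) (.l1 .sk)) (.nx 303 103 (.l1 (.ls 79 31 609)) (.nr 316 131073 (.nx 307 6503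
  (.lg 0 false 4 83 83 13 0 5040) (.nr 315 46342 (.nr 312 154 (.lg 0 true 5 67 67 13 0 5040) (.nx
  314 41287 (.lg 1 false 2 83 83 13 7223 5040) .out)) .out)) .out)))) .out) .out) .ne)))) (.na 407
  32 (.na 375 25 (.na 339 21 (.nx 338 660563 (.nr 337 623489 (.nr 321 17 .s1 (.nx 324 46 (.nx 323
  45 (.nr 322 100 (.l1 (.ls 23 23 115)) (.l1 .sk)) (.l1 .sk)) (.nx 329 6503 (.nx 325 103 (.l1 (.ls
  79 31 474)) (.nr 328 131073 (.lg 0 false 3 83 83 19 0 720) .out)) (.nr 336 46342 (.nr 333 257
  (.lg 0 true 4 71 71 19 0 720) (.nx 335 41287 (.lg 1 true 2 83 83 13 7223 720) .out)) .out))))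
  .out) .out) (.na 355 23 (.nx 354 660563 (.nr 353 623489 (.nr 340 20 .s1 (.nx 346 6503 (.nx 341
  103 (.l1 (.ls 73 29 508)) (.nr 345 131073 (.lg 0 false 4 79 79 17 0 5040) .out)) (.nr 352 46342
  (.nr 350 257 (.lg 0 true 4 67 67 17 0 5040) (.nx 351 41287 (.lg 1 false 1 79 79 16 7223 2520)
  .out)) .out))) .out) .out) (.nx 374 660563 (.nr 373 131073 (.nr 356 23 .s1 (.nx 359 46 (.nx 358
  45 (.nr 357 120 (.l1 (.ls 17 16 91)) (.l1 .sk)) (.l1 .sk)) (.nr 368 32769 (.nx 363 41287 (.lg 0
  false 4 79 79 16 0 5040) (.nr 367 257 (.lg 0 true 4 71 71 16 0 720) .out)) (.nx 372 6503 (.lg 0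
  false 4 83 83 16 0 5040) .out)))) .out) .out))) (.na 376 27 (.lg 0 false 1 0 0 7 0 24) (.na 391
  30 (.nx 390 660563 (.nr 389 131073 (.nr 377 27 .s1 (.nx 381 2582 (.nx 379 45 (.nr 378 143 (.l1
  (.ls 19 17 77)) (.l1 .sk)) (.nx 380 46 (.l1 .sk) (.lg 0 true 1 73 73 16 0 360))) (.nr 388 55110
  (.nx 382 6503 (.lg 1 true 1 67 67 16 21633 360) (.nr 387 32769 (.nr 385 257 (.lg 0 true 3 67 67
  17 0 360) (.nx 386 41287 (.lg 1 false 1 73 73 16 5110 360) .out)) .out)) .out))) .out) .out) (.nx
  406 660563 (.nr 405 131073 (.nr 392 30 .s1 (.nx 402 41287 (.nx 394 45 (.nr 393 153 (.l1 (.ls 16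
  29 70)) (.l1 .sk)) (.nx 395 46 (.l1 .sk) (.lg 0 false 7 83 83 23 0 5040))) (.nr 404 257 (.lg 0
  false 2 67 67 19 0 5040) .out))) .out) .out)))) (.na 430 43 (.na 408 41 .ne (.na 420 42 (.nx 419
  82572 (.nr 418 262145 (.nr 409 41 .s1 (.nx 412 46 (.nx 411 45 (.nr 410 201 (.l1 (.ls 16 16 52))
  (.l1 .sk)) (.l1 .sk)) (.nr 416 32769 (.lg 0 true 4 83 83 16 0 720) (.nx 417 2582 (.lg 0 true 1 79
  79 16 0 360) .out)))) .out) .out) (.nx 429 82572 (.nr 428 262145 (.nr 421 42 .s1 (.nx 424 46 (.nx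
  423 45 (.nr 422 205 (.l1 (.ls 19 23 51)) (.l1 .sk)) (.l1 .sk)) (.nr 426 32769 (.lg 0 false 2 89
  89 23 0 5040) (.nx 427 2582 (.lg 0 true 1 83 83 19 0 5040) .out)))) .out) .out))) (.na 441 46
  (.nx 440 82572 (.nr 439 262145 (.nr 431 43 .s1 (.nx 434 46 (.nx 433 45 (.nr 432 220 (.l1 (.ls 16
  16 50)) (.l1 .sk)) (.l1 .sk)) (.nx 435 2582 (.lg 0 true 1 79 79 16 0 360) (.nr 438 32769 (.nr 436
  154 (.lg 0 false 1 53 53 16 0 360) (.nx 437 41287 (.lg 1 false 1 79 79 16 12871 360) .out))
  .out)))) .out) .out) (.na 451 50 (.nx 450 82572 (.nr 449 262145 (.nr 442 46 .s1 (.nx 445 46 (.nx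
  444 45 (.nr 443 239 (.l1 (.ls 17 13 47)) (.l1 .sk)) (.l1 .sk)) (.nr 447 32769 (.lg 0 false 2 89
  89 13 0 720) (.nx 448 2582 (.lg 0 true 1 83 83 13 0 720) .out)))) .out) .out) (.lg 0 false 1 0 0
  16 0 24)))))) (.na 535 94 (.na 494 75 (.na 474 64 (.na 464 58 (.nx 463 82572 (.nr 462 262145 (.nr
  453 54 .s1 (.nx 458 2582 (.nx 455 45 (.nr 454 277 (.l1 (.ls 23 19 40)) (.l1 .sk)) (.nx 456 46
  (.l1 .sk) (.lg 0 false 2 79 79 23 0 5040))) (.nr 461 32769 (.nr 459 154 (.lg 0 false 1 53 53 19 0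
  5040) (.nx 460 41287 (.lg 1 false 1 73 73 19 12871 720) .out)) .out))) .out) .out) (.nx 473 82572
  (.nr 472 262145 (.nr 465 58 .s1 (.nx 468 46 (.nx 467 45 (.nr 466 306 (.l1 (.ls 17 13 37)) (.l1
  .sk)) (.l1 .sk)) (.nr 470 32769 (.lg 0 false 2 83 83 13 0 5040) (.nx 471 2582 (.lg 0 true 1 79 79
  13 0 5040) .out)))) .out) .out)) (.na 475 69 .ne (.na 485 70 (.nx 484 82572 (.nr 483 524289 (.nr
  476 69 .s1 (.nx 477 647 (.l1 (.ls 71 43 6069)) (.nr 482 262145 (.nx 480 41287 (.nx 478 6503 (.lg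
  0 true 1 79 79 16 0 360) (.nr 479 65537 (.lg 1 false 1 71 71 16 13464 360) .out)) (.nr 481 257
  (.lg 0 false 1 43 43 16 0 360) .out)) .out))) .out) .out) (.nx 493 82572 (.nr 492 524289 (.nr 486
  70 .s1 (.nx 489 6503 (.nx 487 647 (.l1 (.ls 71 53 5983)) (.nr 488 262145 (.lg 0 true 1 83 83 23 0
  5040) .out)) (.nr 491 65537 (.lg 1 false 2 79 79 23 26541 5040) .out))) .out) .out)))) (.na 511
  87 (.na 495 82 (.lg 0 false 1 0 0 16 0 24) (.na 503 86 (.nx 502 82572 (.nr 501 524289 (.nr 496 82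
  .s1 (.nx 499 6503 (.nx 497 647 (.l1 (.ls 73 47 5107)) (.nr 498 262145 (.lg 0 true 1 83 83 13 0
  5040) .out)) (.nr 500 65537 (.lg 1 false 1 83 83 13 22657 5040) .out))) .out) .out) (.nx 510
  82572 (.nr 509 524289 (.nr 504 86 .s1 (.nx 507 6503 (.nx 505 647 (.l1 (.ls 73 41 4870)) (.nr 506
  262145 (.lg 0 true 1 83 83 13 0 5040) .out)) (.nr 508 65537 (.lg 1 false 1 83 83 13 21604 5040)
  .out))) .out) .out))) (.na 519 89 (.nx 518 82572 (.nr 517 524289 (.nr 512 87 .s1 (.nx 515 6503
  (.nx 513 647 (.l1 (.ls 71 43 4814)) (.nr 514 262145 (.lg 0 true 1 79 79 16 0 360) .out)) (.nr 516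
  65537 (.lg 1 false 1 79 79 16 21355 360) .out))) .out) .out) (.na 527 90 (.nx 526 82572 (.nr 525
  524289 (.nr 520 89 .s1 (.nx 523 6503 (.nx 521 647 (.l1 (.ls 67 37 4706)) (.nr 522 262145 (.lg 0
  true 1 73 73 16 0 2520) .out)) (.nr 524 65537 (.lg 1 false 1 73 73 16 20875 2520) .out))) .out)
  .out) (.nx 534 82572 (.nr 533 524289 (.nr 528 90 .s1 (.nx 531 6503 (.nx 529 647 (.l1 (.ls 71 53
  4654)) (.nr 530 262145 (.lg 0 true 1 73 73 29 0 720) .out)) (.nr 532 65537 (.lg 1 false 1 73 73
  29 20643 720) .out))) .out) .out))))) (.na 583 122 (.na 559 103 (.na 543 98 (.nx 542 82572 (.nr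
  541 524289 (.nr 536 94 .s1 (.nx 539 6503 (.nx 537 647 (.l1 (.ls 71 43 4456)) (.nr 538 262145 (.lg
  0 true 1 79 79 17 0 720) .out)) (.nr 540 65537 (.lg 1 false 1 79 79 17 19765 720) .out))) .out)
  .out) (.na 551 101 (.nx 550 82572 (.nr 549 524289 (.nr 544 98 .s1 (.nx 547 6503 (.nx 545 647 (.l1
  (.ls 71 43 4274)) (.nr 546 262145 (.lg 0 true 1 79 79 19 0 5040) .out)) (.nr 548 65537 (.lg 1
  false 1 73 73 19 18958 5040) .out))) .out) .out) (.nx 558 82572 (.nr 557 524289 (.nr 552 101 .s1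
  (.nx 555 6503 (.nx 553 647 (.l1 (.ls 67 31 4147)) (.nr 554 262145 (.lg 0 true 1 71 71 16 0 360)
  .out)) (.nr 556 65537 (.lg 1 false 1 71 71 16 18395 360) .out))) .out) .out))) (.na 567 105 (.nx
  566 82572 (.nr 565 524289 (.nr 560 103 .s1 (.nx 563 6503 (.nx 561 647 (.l1 (.ls 67 31 4067)) (.nr
  562 262145 (.lg 0 true 1 71 71 16 0 360) .out)) (.nr 564 65537 (.lg 1 false 1 71 71 16 18038 360)
  .out))) .out) .out) (.na 575 107 (.nx 574 82572 (.nr 573 524289 (.nr 568 105 .s1 (.nx 569 647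
  (.l1 (.ls 67 43 3989)) (.nr 572 262145 (.nx 570 6503 (.lg 0 true 1 73 73 19 0 5040) (.nr 571
  65537 (.lg 1 false 1 71 71 19 17694 2520) .out)) .out))) .out) .out) (.nx 582 82572 (.nr 581
  524289 (.nr 576 107 .s1 (.nx 579 6503 (.nx 577 647 (.l1 (.ls 61 31 3915)) (.nr 578 262145 (.lg 0
  true 1 71 71 16 0 2520) .out)) (.nr 580 65537 (.lg 1 false 1 71 71 16 17364 2520) .out))) .out)
  .out)))) (.na 608 128 (.na 592 123 (.nx 591 82572 (.nr 590 524289 (.nr 584 122 .s1 (.nx 588 6503
  (.nx 586 45 (.nr 585 587 (.l1 (.ls 16 13 31)) (.l1 .sk)) (.nx 587 46 (.l1 .sk) (.lg 0 true 1 79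
  79 19 0 720))) (.nr 589 65537 (.lg 1 false 1 73 73 19 15229 720) .out))) .out) .out) (.na 600 126
  (.nx 599 82572 (.nr 598 524289 (.nr 593 123 .s1 (.nx 596 6503 (.nx 594 647 (.l1 (.ls 67 37 3406))
  (.nr 595 262145 (.lg 0 true 1 73 73 17 0 360) .out)) (.nr 597 65537 (.lg 1 false 1 71 71 17 15105
  360) .out))) .out) .out) (.nx 607 82572 (.nr 606 524289 (.nr 601 126 .s1 (.nx 604 6503 (.nx 602
  647 (.l1 (.ls 73 47 3325)) (.nr 603 262145 (.lg 0 false 1 79 79 31 0 5040) .out)) (.nr 605 65537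
  (.lg 1 true 1 79 79 31 14745 5040) .out))) .out) .out))) (.na 609 134 .ne (.na 615 135 (.nx 614
  41287 (.nr 613 1048577 (.nr 610 134 .s1 (.nx 611 647 (.l1 (.ls 61 41 3126)) (.nr 612 131073 (.lg
  0 true 1 83 83 19 0 720) .out))) .out) .out) (.nx 620 41287 (.nr 619 1048577 (.nr 616 135 .s1
  (.nx 617 647 (.l1 (.ls 73 41 3103)) (.nr 618 131073 (.lg 0 false 1 79 79 19 0 2520) .out))) .out)
  .out))))))) (.na 729 229 (.na 667 181 (.na 636 151 (.na 628 139 (.na 622 138 (.lg 0 false 1 0 0
  16 0 24) (.nx 627 41287 (.nr 626 1048577 (.nr 623 138 .s1 (.nx 624 647 (.l1 (.ls 73 47 3036))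
  (.nr 625 131073 (.lg 0 true 1 83 83 19 0 5040) .out))) .out) .out)) (.na 629 149 (.lg 0 false 1 0
  0 16 0 24) (.na 635 150 (.nx 634 41287 (.nr 633 1048577 (.nr 630 149 .s1 (.nx 631 647 (.l1 (.ls
  67 31 2812)) (.nr 632 131073 (.lg 0 true 1 73 73 16 0 2520) .out))) .out) .out) (.lg 0 false 1 0
  0 16 0 24)))) (.na 649 167 (.na 637 162 (.lg 0 false 1 0 0 16 0 24) (.na 643 166 (.nx 642 41287
  (.nr 641 1048577 (.nr 638 162 .s1 (.nx 639 647 (.l1 (.ls 73 43 2587)) (.nr 640 131073 (.lg 0 true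
  1 79 83 29 0 720) .out))) .out) .out) (.nx 648 41287 (.nr 647 1048577 (.nr 644 166 .s1 (.nx 645
  647 (.l1 (.ls 71 41 2524)) (.nr 646 131073 (.lg 0 true 1 83 83 19 0 5040) .out))) .out) .out)))
  (.na 655 174 (.nx 654 41287 (.nr 653 1048577 (.nr 650 167 .s1 (.nx 651 647 (.l1 (.ls 67 31 2509))
  (.nr 652 131073 (.lg 0 true 1 73 73 16 0 360) .out))) .out) .out) (.na 661 178 (.nx 660 41287
  (.nr 659 1048577 (.nr 656 174 .s1 (.nx 657 647 (.l1 (.ls 71 47 2408)) (.nr 658 131073 (.lg 0 true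
  1 79 79 23 0 720) .out))) .out) .out) (.nx 666 41287 (.nr 665 1048577 (.nr 662 178 .s1 (.nx 663
  647 (.l1 (.ls 67 41 2354)) (.nr 664 131073 (.lg 0 true 1 73 73 19 0 720) .out))) .out) .out)))))
  (.na 693 203 (.na 680 199 (.na 673 183 (.nx 672 41287 (.nr 671 1048577 (.nr 668 181 .s1 (.nx 669
  647 (.l1 (.ls 61 31 2315)) (.nr 670 131073 (.lg 0 true 1 71 71 16 0 360) .out))) .out) .out) (.na
  679 197 (.nx 678 41287 (.nr 677 1048577 (.nr 674 183 .s1 (.nx 675 647 (.l1 (.ls 59 37 2290)) (.nr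
  676 131073 (.lg 0 true 1 73 73 17 0 360) .out))) .out) .out) (.lg 0 false 1 0 0 16 0 24))) (.na
  681 201 (.lg 0 false 1 0 0 16 0 24) (.na 687 202 (.nx 686 41287 (.nr 685 1048577 (.nr 682 201 .s1
  (.nx 683 647 (.l1 (.ls 61 37 2085)) (.nr 684 131073 (.lg 0 true 1 73 73 19 0 360) .out))) .out)
  .out) (.nx 692 41287 (.nr 691 1048577 (.nr 688 202 .s1 (.nx 689 647 (.l1 (.ls 67 37 2075)) (.nr
  690 131073 (.lg 0 true 1 73 73 23 0 720) .out))) .out) .out)))) (.na 711 214 (.na 699 206 (.nx
  698 41287 (.nr 697 1048577 (.nr 694 203 .s1 (.nx 695 647 (.l1 (.ls 73 37 2065)) (.nr 696 131073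
  (.lg 0 false 1 79 79 19 0 2520) .out))) .out) .out) (.na 705 210 (.nx 704 41287 (.nr 703 1048577
  (.nr 700 206 .s1 (.nx 701 647 (.l1 (.ls 67 37 2035)) (.nr 702 131073 (.lg 0 true 1 71 71 23 0
  720) .out))) .out) .out) (.nx 710 41287 (.nr 709 1048577 (.nr 706 210 .s1 (.nx 707 647 (.l1 (.ls
  67 47 1996)) (.nr 708 131073 (.lg 0 true 1 73 73 31 0 5040) .out))) .out) .out))) (.na 717 215
  (.nx 716 41287 (.nr 715 1048577 (.nr 712 214 .s1 (.nx 713 647 (.l1 (.ls 67 37 1959)) (.nr 714
  131073 (.lg 0 true 1 73 73 23 0 720) .out))) .out) .out) (.na 723 218 (.nx 722 41287 (.nr 721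
  1048577 (.nr 718 215 .s1 (.nx 719 647 (.l1 (.ls 67 31 1950)) (.nr 720 131073 (.lg 0 true 1 73 73
  17 0 2520) .out))) .out) .out) (.nx 728 41287 (.nr 727 1048577 (.nr 724 218 .s1 (.nx 725 647 (.l1
  (.ls 67 37 1923)) (.nr 726 131073 (.lg 0 true 1 73 73 23 0 720) .out))) .out) .out)))))) (.na 775
  257 (.na 754 246 (.na 741 233 (.na 735 230 (.nx 734 41287 (.nr 733 1048577 (.nr 730 229 .s1 (.nx
  731 647 (.l1 (.ls 61 29 1830)) (.nr 732 131073 (.lg 0 true 1 71 71 17 0 2520) .out))) .out) .out)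
  (.nx 740 41287 (.nr 739 1048577 (.nr 736 230 .s1 (.nx 737 647 (.l1 (.ls 67 43 1823)) (.nr 738
  131073 (.lg 0 true 1 73 73 31 0 720) .out))) .out) .out)) (.na 742 235 (.lg 0 false 1 0 0 16 0
  24) (.na 748 245 (.nx 747 41287 (.nr 746 1048577 (.nr 743 235 .s1 (.nx 744 647 (.l1 (.ls 67 31
  1784)) (.nr 745 131073 (.lg 0 true 1 71 71 17 0 360) .out))) .out) .out) (.nx 753 41287 (.nr 752
  1048577 (.nr 749 245 .s1 (.nx 750 647 (.l1 (.ls 61 37 1711)) (.nr 751 131073 (.lg 0 true 1 67 67
  19 0 2520) .out))) .out) .out)))) (.na 767 251 (.na 760 249 (.nx 759 41287 (.nr 758 1048577 (.nr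
  755 246 .s1 (.nx 756 647 (.l1 (.ls 67 43 1704)) (.nr 757 131073 (.lg 0 true 1 73 73 29 0 720)
  .out))) .out) .out) (.na 766 250 (.nx 765 41287 (.nr 764 1048577 (.nr 761 249 .s1 (.nx 762 647
  (.l1 (.ls 61 31 1684)) (.nr 763 131073 (.lg 0 true 1 67 67 19 0 360) .out))) .out) .out) (.lg 0
  false 1 0 0 16 0 24))) (.na 768 254 (.lg 0 false 1 0 0 16 0 24) (.na 774 256 (.nx 773 41287 (.nr
  772 1048577 (.nr 769 254 .s1 (.nx 770 647 (.l1 (.ls 67 37 1651)) (.nr 771 131073 (.lg 0 true 1 71
  71 23 0 720) .out))) .out) .out) .ne)))) (.na 2379 2897 (.na 1601 1024 (.na 1079 512 (.nx 1078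
  41287 (.nr 1077 262145 (.nr 776 257 .s1 (.nx 822 46 (.nx 821 45 (.nr 820 2443 (.lx (.lp 29 17
  129)) (.l1 .sk)) (.l1 .sk)) (.la (.lg 0 false 1 71 71 23 0)))) .out) .out) (.na 1341 725 (.nx
  1340 41287 (.nr 1339 262145 (.nr 1080 512 .s1 (.nx 1125 45 (.nr 1124 3459 (.lx (.lp 31 17 182))
  (.l1 .sk)) (.nx 1126 46 (.l1 .sk) (.la (.lg 0 false 1 67 67 29 0))))) .out) .out) (.nx 1600 257
  (.nr 1599 65537 (.nr 1342 725 .s1 (.nx 1470 129 (.lx (.lp 43 19 257)) (.nr 1598 8193 (.lx (.lp 29
  23 257)) .out))) .out) .out))) (.na 1861 1449 (.nx 1860 257 (.nr 1859 65537 (.nr 1602 1024 .s1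
  (.nx 1730 129 (.lx (.lp 17 17 363)) (.nr 1858 8193 (.lx (.lp 29 23 363)) .out))) .out) .out) (.na
  2120 2048 (.nx 2119 257 (.nr 2118 16385 (.nr 1862 1449 .s1 (.lx (.lp 31 29 513))) .out) .out)
  (.nx 2378 257 (.nr 2377 32769 (.nr 2121 2048 .s1 (.lx (.lp 37 29 725))) .out) .out)))) (.na 3002
  8192 (.na 2638 4096 (.nx 2637 257 (.nr 2636 32769 (.nr 2380 2897 .s1 (.lx (.lp 29 31 1025)))
  .out) .out) (.na 2897 5793 (.nx 2896 257 (.nr 2895 32769 (.nr 2639 4096 .s1 (.lx (.lp 29 31
  1449))) .out) .out) (.nx 3001 103 (.nr 3000 32769 (.nr 2898 5793 .s1 (.lx (.lp 16 31 2049)))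
  .out) .out))) (.na 3107 16384 (.nx 3106 103 (.nr 3105 32769 (.nr 3003 8192 .s1 (.lx (.lp 16 0
  4097))) .out) .out) (.na 3109 32769 (.nx 3108 103 (.l1 .sk) .out) .out)))))))

def T136_2 : Ph :=
  (.na 422 5 (.na 188 3 (.na 187 2 (.nx 186 1321124 (.nr 185 311745 (.nx 158 660563 (.nx 3 73 (.nx
  2 72 (.nr 1 9 (.lg 0 true 1 31 31 5 0 72) (.l1 .sk)) (.l1 .sk)) (.nx 136 330282 (.nr 122 46342
  (.nx 38 6503 (.lg 0 false 35 89 89 13 0 5040) (.nr 121 38969 (.nr 73 432 (.lg 0 true 35 79 83 13
  0 2520) (.nx 86 12041 (.lg 1 false 13 89 97 9 15563 9360) (.nx 93 16385 (.lg 1 false 7 97 97 9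
  8405 5040) (.nr 120 27556 (.nr 106 1724 (.lg 2 true 13 83 89 9 27524 9360) (.nx 119 165142 (.lg 2
  false 13 97 101 9 4371 9360) .out)) .out)))) .out)) (.nx 135 205 (.lg 0 false 13 79 79 9 0 936)
  .out)) (.nr 157 109 (.lg 0 true 21 79 79 11 0 504) .out))) (.nr 184 13 (.lg 0 true 26 71 71 9 0
  1872) .out)) .out) .out) .ne) (.na 314 4 (.nx 313 6658044 (.nr 312 881745 (.nx 190 72 (.nr 189 23
  (.lg 0 true 1 23 23 5 0 144) (.l1 .sk)) (.nx 191 73 (.l1 .sk) (.nx 224 13003 (.nr 204 55110 (.lg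
  0 false 13 89 89 13 0 1872) (.nx 223 1292 (.nr 209 110219 (.lg 0 false 5 79 79 7 0 360) (.nx 222
  205 (.lg 0 false 13 73 73 13 0 936) .out)) .out)) (.nr 311 65537 (.nr 295 364 (.nx 259 832257
  (.lg 0 true 35 71 73 16 0 2520) (.nr 294 33 (.lg 0 true 35 71 71 7 0 2520) .out)) (.nx 310 208065
  (.nr 297 752 (.lg 2 false 2 73 73 5 20578 144) (.lg 2 false 13 101 103 13 13079 720720)) .out))
  .out)))) .out) .out) (.nx 421 10568985 (.nr 420 1246976 (.nx 317 73 (.nx 316 72 (.nr 315 29 (.lg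
  0 true 1 29 29 9 0 720) (.l1 .sk)) (.l1 .sk)) (.nr 408 155873 (.nx 332 7307 (.nr 324 55110 (.lg 0
  false 7 89 89 11 0 5040) (.nx 331 1292 (.lg 0 false 7 83 89 11 0 5040) .out)) (.nr 407 65537 (.nx
  359 330282 (.nr 345 1352 (.nr 343 694 (.lg 0 true 11 83 83 13 0 7920) (.lg 2 true 2 73 73 9 17133
  144)) (.nx 352 20642 (.lg 1 false 7 89 97 11 23275 5040) (.lg 2 false 7 97 101 11 8795 5040)))
  (.nr 406 183 (.nr 394 29 (.lg 0 true 35 79 79 13 0 5040) (.nx 405 1321124 (.lg 0 true 11 83 83 13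
  0 7920) .out)) .out)) .out)) (.nx 419 205 (.lg 0 false 11 83 83 13 0 7920) .out))) .out) .out)))
  (.na 490 9 (.na 423 8 .ne (.nx 489 10568985 (.nr 488 623489 (.nx 425 72 (.nr 424 54 (.lg 0 true 1
  19 19 9 0 1584) (.l1 .sk)) (.nx 426 73 (.l1 .sk) (.nr 480 77937 (.nx 453 1321124 (.nx 433 13620
  (.lg 0 false 7 83 83 13 0 1008) (.nr 452 65537 (.nr 443 364 (.lg 0 true 10 73 73 13 0 720) (.nx
  451 208065 (.nr 444 692 (.lg 2 false 1 71 71 9 20578 144) (.lg 2 false 7 83 89 13 12487 1008))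
  .out)) .out)) (.nr 479 55 (.lg 0 true 26 73 73 13 0 1872) .out)) (.nx 487 814 (.lg 0 false 7 79
  79 13 0 1008) .out)))) .out) .out)) (.na 567 10 (.nx 566 10568985 (.nr 565 623489 (.nr 491 4 .s1
  (.nx 494 73 (.nx 493 72 (.nr 492 60 (.l1 (.ls 23 29 578)) (.l1 .sk)) (.l1 .sk)) (.nx 551 1321124
  (.nr 507 364 (.lg 0 true 13 73 73 17 0 936) (.nx 550 165142 (.nr 509 1383 (.nx 508 2593 (.lg 0
  false 1 61 61 13 0 72) (.lg 2 false 1 73 73 13 16333 72)) (.nx 520 6503 (.nr 514 77937 (.lg 0
  false 5 97 103 16 0 720720) (.nx 519 814 (.lg 0 false 5 83 89 16 0 360) .out)) (.nr 549 65537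
  (.nr 525 19988 (.lg 2 true 5 71 71 16 7997 360) (.nr 538 38969 (.lg 0 true 13 97 101 17 0 720720)
  (.nx 548 82572 (.nr 545 55110 (.lg 0 true 7 97 103 16 0 720720) (.nx 547 26009 (.lg 0 true 2 97
  97 16 0 7920) .out)) .out))) .out))) .out)) (.nr 564 65 (.lg 0 true 13 79 79 16 0 936) .out))))
  .out) .out) (.na 568 11 .ne (.nx 613 1321124 (.nr 612 623489 (.nr 569 8 .s1 (.nx 572 73 (.nx 571
  72 (.nr 570 72 (.l1 (.ls 19 23 474)) (.l1 .sk)) (.l1 .sk)) (.nx 573 153 (.l1 (.ls 83 31 1646))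
  (.nx 574 324 (.l1 (.ls 83 41 7418)) (.nr 611 220437 (.nr 607 77937 (.nr 581 374 (.lg 0 true 7 73
  73 16 0 5544) (.nx 606 165142 (.nr 585 6576 (.nx 582 2593 (.lg 0 true 1 73 73 9 0 7920) (.lg 2
  false 3 71 71 9 15897 792)) (.nx 592 26009 (.lg 0 false 7 97 101 16 0 55440) (.nr 605 46342 (.nr
  597 27556 (.lg 2 true 5 61 61 16 2754 3960) (.nx 604 104033 (.lg 0 true 7 89 101 16 0 55440)
  .out)) .out))) .out)) (.nx 610 814 (.lg 0 false 3 73 73 9 0 792) .out)) .out))))) .out) .out)))))

theorem c136 :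
    OkQ ckI L10 243 1 23 0 34359738368 1 1099511627776 ∧
    OkQ ckI L5 45 1 1099511627776 0 34359738368 1 1099511627776 ∧
    OkQ ckI L6 72 1 12 0 34359738368 1 1099511627776 := by
  refine ⟨?_, ?_, ?_⟩
  · refine fin 72 795 T136_0 ?_
    refine jn 12 (by decide +kernel) ?_
    refine jn 20 (by decide +kernel) ?_
    refine jn 28 (by decide +kernel) ?_
    refine jn 36 (by decide +kernel) ?_
    refine jn 44 (by decide +kernel) ?_
    refine jn 53 (by decide +kernel) ?_
    refine jn 62 (by decide +kernel) ?_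
    refine jn 69 (by decide +kernel) ?_
    refine jn 77 (by decide +kernel) ?_
    refine jn 85 (by decide +kernel) ?_
    refine jn 92 (by decide +kernel) ?_
    refine jn 102 (by decide +kernel) ?_
    refine jn 115 (by decide +kernel) ?_
    refine jn 129 (by decide +kernel) ?_
    refine jn 147 (by decide +kernel) ?_
    refine jn 165 (by decide +kernel) ?_
    refine jn 178 (by decide +kernel) ?_
    refine jn 191 (by decide +kernel) ?_
    refine jn 209 (by decide +kernel) ?_
    refine jn 226 (by decide +kernel) ?_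
    refine jn 244 (by decide +kernel) ?_
    refine jn 261 (by decide +kernel) ?_
    refine jn 287 (by decide +kernel) ?_
    refine jn 313 (by decide +kernel) ?_
    refine jn 323 (by decide +kernel) ?_
    refine jn 353 (by decide +kernel) ?_
    refine jn 380 (by decide +kernel) ?_
    refine jn 407 (by decide +kernel) ?_
    refine jn 436 (by decide +kernel) ?_
    refine jn 452 (by decide +kernel) ?_
    refine jn 466 (by decide +kernel) ?_
    refine jn 481 (by decide +kernel) ?_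
    refine jn 493 (by decide +kernel) ?_
    refine jn 508 (by decide +kernel) ?_
    refine jn 534 (by decide +kernel) ?_
    refine jn 554 (by decide +kernel) ?_
    refine jn 575 (by decide +kernel) ?_
    refine jn 618 (by decide +kernel) ?_
    refine jn 639 (by decide +kernel) ?_
    refine jn 645 (by decide +kernel) ?_
    refine jn 649 (by decide +kernel) ?_
    refine jn 653 (by decide +kernel) ?_
    refine jn 659 (by decide +kernel) ?_
    refine jn 665 (by decide +kernel) ?_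
    refine jn 676 (by decide +kernel) ?_
    refine jn 684 (by decide +kernel) ?_
    refine jn 694 (by decide +kernel) ?_
    refine jn 704 (by decide +kernel) ?_
    refine jn 717 (by decide +kernel) ?_
    refine jn 725 (by decide +kernel) ?_
    refine jn 726 (by decide +kernel) ?_
    refine jn 727 (by decide +kernel) ?_
    refine jn 728 (by decide +kernel) ?_
    refine jn 730 (by decide +kernel) ?_
    refine jn 732 (by decide +kernel) ?_
    refine jn 733 (by decide +kernel) ?_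
    refine jn 734 (by decide +kernel) ?_
    refine jn 735 (by decide +kernel) ?_
    refine jn 736 (by decide +kernel) ?_
    refine jn 737 (by decide +kernel) ?_
    refine jn 738 (by decide +kernel) ?_
    refine jn 739 (by decide +kernel) ?_
    refine jn 740 (by decide +kernel) ?_
    refine jn 741 (by decide +kernel) ?_
    refine jn 742 (by decide +kernel) ?_
    refine jn 743 (by decide +kernel) ?_
    refine jn 744 (by decide +kernel) ?_
    refine jn 745 (by decide +kernel) ?_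
    refine jn 746 (by decide +kernel) ?_
    refine jn 747 (by decide +kernel) ?_
    refine jn 748 (by decide +kernel) ?_
    refine jn 749 (by decide +kernel) ?_
    refine jn 750 (by decide +kernel) ?_
    refine jn 757 (by decide +kernel) ?_
    refine jn 761 (by decide +kernel) ?_
    refine jn 768 (by decide +kernel) ?_
    refine jn 772 (by decide +kernel) ?_
    refine jn 782 (by decide +kernel) ?_
    refine jn 788 (by decide +kernel) ?_
    exact je (by decide +kernel)
  · refine fin 360 3110 T136_1 ?_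
    refine jn 7 (by decide +kernel) ?_
    refine jn 8 (by decide +kernel) ?_
    refine jn 10 (by decide +kernel) ?_
    refine jn 12 (by decide +kernel) ?_
    refine jn 13 (by decide +kernel) ?_
    refine jn 15 (by decide +kernel) ?_
    refine jn 17 (by decide +kernel) ?_
    refine jn 20 (by decide +kernel) ?_
    refine jn 23 (by decide +kernel) ?_
    refine jn 27 (by decide +kernel) ?_
    refine jn 30 (by decide +kernel) ?_
    refine jn 46 (by decide +kernel) ?_
    refine jn 55 (by decide +kernel) ?_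
    refine jn 70 (by decide +kernel) ?_
    refine jn 91 (by decide +kernel) ?_
    refine jn 95 (by decide +kernel) ?_
    refine jn 101 (by decide +kernel) ?_
    refine jn 108 (by decide +kernel) ?_
    refine jn 115 (by decide +kernel) ?_
    refine jn 128 (by decide +kernel) ?_
    refine jn 154 (by decide +kernel) ?_
    refine jn 159 (by decide +kernel) ?_
    refine jn 167 (by decide +kernel) ?_
    refine jn 173 (by decide +kernel) ?_
    refine jn 189 (by decide +kernel) ?_
    refine jn 196 (by decide +kernel) ?_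
    refine jn 197 (by decide +kernel) ?_
    refine jn 198 (by decide +kernel) ?_
    refine jn 199 (by decide +kernel) ?_
    refine jn 201 (by decide +kernel) ?_
    refine jn 203 (by decide +kernel) ?_
    refine jn 205 (by decide +kernel) ?_
    refine jn 207 (by decide +kernel) ?_
    refine jn 208 (by decide +kernel) ?_
    refine jn 209 (by decide +kernel) ?_
    refine jn 213 (by decide +kernel) ?_
    refine jn 214 (by decide +kernel) ?_
    refine jn 215 (by decide +kernel) ?_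
    refine jn 216 (by decide +kernel) ?_
    refine jn 217 (by decide +kernel) ?_
    refine jn 218 (by decide +kernel) ?_
    refine jn 219 (by decide +kernel) ?_
    refine jn 220 (by decide +kernel) ?_
    refine jn 221 (by decide +kernel) ?_
    refine jn 226 (by decide +kernel) ?_
    refine jn 239 (by decide +kernel) ?_
    refine jn 240 (by decide +kernel) ?_
    refine jn 241 (by decide +kernel) ?_
    refine jn 242 (by decide +kernel) ?_
    refine jn 243 (by decide +kernel) ?_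
    refine jn 244 (by decide +kernel) ?_
    refine jn 245 (by decide +kernel) ?_
    refine jn 246 (by decide +kernel) ?_
    refine jn 247 (by decide +kernel) ?_
    refine jn 248 (by decide +kernel) ?_
    refine jn 249 (by decide +kernel) ?_
    refine jn 250 (by decide +kernel) ?_
    refine jn 251 (by decide +kernel) ?_
    refine jn 252 (by decide +kernel) ?_
    refine jn 253 (by decide +kernel) ?_
    refine jn 254 (by decide +kernel) ?_
    refine jn 255 (by decide +kernel) ?_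
    refine jn 256 (by decide +kernel) ?_
    refine jn 257 (by decide +kernel) ?_
    refine jn 258 (by decide +kernel) ?_
    refine jn 259 (by decide +kernel) ?_
    refine jn 260 (by decide +kernel) ?_
    refine jn 261 (by decide +kernel) ?_
    refine jn 262 (by decide +kernel) ?_
    refine jn 263 (by decide +kernel) ?_
    refine jn 264 (by decide +kernel) ?_
    refine jn 276 (by decide +kernel) ?_
    refine jn 283 (by decide +kernel) ?_
    refine jn 291 (by decide +kernel) ?_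
    refine jn 302 (by decide +kernel) ?_
    refine jn 303 (by decide +kernel) ?_
    refine jn 305 (by decide +kernel) ?_
    refine jn 307 (by decide +kernel) ?_
    refine jn 310 (by decide +kernel) ?_
    refine jn 312 (by decide +kernel) ?_
    refine jn 324 (by decide +kernel) ?_
    refine jn 325 (by decide +kernel) ?_
    refine jn 326 (by decide +kernel) ?_
    refine jn 327 (by decide +kernel) ?_
    refine jn 328 (by decide +kernel) ?_
    refine jn 330 (by decide +kernel) ?_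
    refine jn 331 (by decide +kernel) ?_
    refine jn 332 (by decide +kernel) ?_
    refine jn 333 (by decide +kernel) ?_
    refine jn 340 (by decide +kernel) ?_
    refine jn 343 (by decide +kernel) ?_
    refine jn 346 (by decide +kernel) ?_
    refine jn 350 (by decide +kernel) ?_
    refine jn 359 (by decide +kernel) ?_
    refine jn 360 (by decide +kernel) ?_
    refine jn 361 (by decide +kernel) ?_
    refine jn 362 (by decide +kernel) ?_
    refine jn 363 (by decide +kernel) ?_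
    refine jn 367 (by decide +kernel) ?_
    refine jn 380 (by decide +kernel) ?_
    refine jn 381 (by decide +kernel) ?_
    refine jn 382 (by decide +kernel) ?_
    refine jn 383 (by decide +kernel) ?_
    refine jn 384 (by decide +kernel) ?_
    refine jn 385 (by decide +kernel) ?_
    refine jn 402 (by decide +kernel) ?_
    refine jn 412 (by decide +kernel) ?_
    refine jn 417 (by decide +kernel) ?_
    refine jn 427 (by decide +kernel) ?_
    refine jn 436 (by decide +kernel) ?_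
    refine jn 447 (by decide +kernel) ?_
    refine jn 456 (by decide +kernel) ?_
    refine jn 457 (by decide +kernel) ?_
    refine jn 458 (by decide +kernel) ?_
    refine jn 459 (by decide +kernel) ?_
    refine jn 468 (by decide +kernel) ?_
    refine jn 471 (by decide +kernel) ?_
    refine jn 479 (by decide +kernel) ?_
    refine jn 491 (by decide +kernel) ?_
    refine jn 500 (by decide +kernel) ?_
    refine jn 508 (by decide +kernel) ?_
    refine jn 516 (by decide +kernel) ?_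
    refine jn 528 (by decide +kernel) ?_
    refine jn 532 (by decide +kernel) ?_
    refine jn 544 (by decide +kernel) ?_
    refine jn 552 (by decide +kernel) ?_
    refine jn 560 (by decide +kernel) ?_
    refine jn 568 (by decide +kernel) ?_
    refine jn 576 (by decide +kernel) ?_
    refine jn 588 (by decide +kernel) ?_
    refine jn 597 (by decide +kernel) ?_
    refine jn 603 (by decide +kernel) ?_
    refine jn 610 (by decide +kernel) ?_
    refine jn 618 (by decide +kernel) ?_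
    refine jn 632 (by decide +kernel) ?_
    refine jn 639 (by decide +kernel) ?_
    refine jn 640 (by decide +kernel) ?_
    refine jn 656 (by decide +kernel) ?_
    refine jn 668 (by decide +kernel) ?_
    refine jn 682 (by decide +kernel) ?_
    refine jn 694 (by decide +kernel) ?_
    refine jn 702 (by decide +kernel) ?_
    refine jn 720 (by decide +kernel) ?_
    refine jn 738 (by decide +kernel) ?_
    refine jn 757 (by decide +kernel) ?_
    refine jn 822 (by decide +kernel) ?_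
    refine jn 826 (by decide +kernel) ?_
    refine jn 828 (by decide +kernel) ?_
    refine jn 835 (by decide +kernel) ?_
    refine jn 847 (by decide +kernel) ?_
    refine jn 859 (by decide +kernel) ?_
    refine jn 880 (by decide +kernel) ?_
    refine jn 887 (by decide +kernel) ?_
    refine jn 892 (by decide +kernel) ?_
    refine jn 899 (by decide +kernel) ?_
    refine jn 912 (by decide +kernel) ?_
    refine jn 943 (by decide +kernel) ?_
    refine jn 944 (by decide +kernel) ?_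
    refine jn 970 (by decide +kernel) ?_
    refine jn 971 (by decide +kernel) ?_
    refine jn 979 (by decide +kernel) ?_
    refine jn 988 (by decide +kernel) ?_
    refine jn 995 (by decide +kernel) ?_
    refine jn 1008 (by decide +kernel) ?_
    refine jn 1023 (by decide +kernel) ?_
    refine jn 1047 (by decide +kernel) ?_
    refine jn 1051 (by decide +kernel) ?_
    refine jn 1052 (by decide +kernel) ?_
    refine jn 1063 (by decide +kernel) ?_
    refine jn 1077 (by decide +kernel) ?_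
    refine jn 1137 (by decide +kernel) ?_
    refine jn 1152 (by decide +kernel) ?_
    refine jn 1176 (by decide +kernel) ?_
    refine jn 1181 (by decide +kernel) ?_
    refine jn 1182 (by decide +kernel) ?_
    refine jn 1201 (by decide +kernel) ?_
    refine jn 1217 (by decide +kernel) ?_
    refine jn 1228 (by decide +kernel) ?_
    refine jn 1244 (by decide +kernel) ?_
    refine jn 1259 (by decide +kernel) ?_
    refine jn 1272 (by decide +kernel) ?_
    refine jn 1284 (by decide +kernel) ?_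
    refine jn 1304 (by decide +kernel) ?_
    refine jn 1342 (by decide +kernel) ?_
    refine jn 1577 (by decide +kernel) ?_
    refine jn 1851 (by decide +kernel) ?_
    refine jn 2095 (by decide +kernel) ?_
    refine jn 2380 (by decide +kernel) ?_
    refine jn 2875 (by decide +kernel) ?_
    exact je (by decide +kernel)
  · refine fin 72 614 T136_2 ?_
    refine jn 5 (by decide +kernel) ?_
    refine jn 8 (by decide +kernel) ?_
    refine jn 10 (by decide +kernel) ?_
    refine jn 12 (by decide +kernel) ?_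
    refine jn 15 (by decide +kernel) ?_
    refine jn 16 (by decide +kernel) ?_
    refine jn 19 (by decide +kernel) ?_
    refine jn 22 (by decide +kernel) ?_
    refine jn 24 (by decide +kernel) ?_
    refine jn 26 (by decide +kernel) ?_
    refine jn 29 (by decide +kernel) ?_
    refine jn 31 (by decide +kernel) ?_
    refine jn 33 (by decide +kernel) ?_
    refine jn 36 (by decide +kernel) ?_
    refine jn 37 (by decide +kernel) ?_
    refine jn 40 (by decide +kernel) ?_
    refine jn 44 (by decide +kernel) ?_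
    refine jn 47 (by decide +kernel) ?_
    refine jn 51 (by decide +kernel) ?_
    refine jn 55 (by decide +kernel) ?_
    refine jn 59 (by decide +kernel) ?_
    refine jn 63 (by decide +kernel) ?_
    refine jn 67 (by decide +kernel) ?_
    refine jn 71 (by decide +kernel) ?_
    refine jn 73 (by decide +kernel) ?_
    refine jn 93 (by decide +kernel) ?_
    refine jn 106 (by decide +kernel) ?_
    refine jn 119 (by decide +kernel) ?_
    refine jn 143 (by decide +kernel) ?_
    refine jn 156 (by decide +kernel) ?_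
    refine jn 158 (by decide +kernel) ?_
    refine jn 184 (by decide +kernel) ?_
    refine jn 193 (by decide +kernel) ?_
    refine jn 195 (by decide +kernel) ?_
    refine jn 200 (by decide +kernel) ?_
    refine jn 202 (by decide +kernel) ?_
    refine jn 204 (by decide +kernel) ?_
    refine jn 222 (by decide +kernel) ?_
    refine jn 232 (by decide +kernel) ?_
    refine jn 242 (by decide +kernel) ?_
    refine jn 254 (by decide +kernel) ?_
    refine jn 294 (by decide +kernel) ?_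
    refine jn 310 (by decide +kernel) ?_
    refine jn 317 (by decide +kernel) ?_
    refine jn 318 (by decide +kernel) ?_
    refine jn 319 (by decide +kernel) ?_
    refine jn 320 (by decide +kernel) ?_
    refine jn 321 (by decide +kernel) ?_
    refine jn 322 (by decide +kernel) ?_
    refine jn 323 (by decide +kernel) ?_
    refine jn 324 (by decide +kernel) ?_
    refine jn 332 (by decide +kernel) ?_
    refine jn 333 (by decide +kernel) ?_
    refine jn 334 (by decide +kernel) ?_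
    refine jn 336 (by decide +kernel) ?_
    refine jn 337 (by decide +kernel) ?_
    refine jn 338 (by decide +kernel) ?_
    refine jn 339 (by decide +kernel) ?_
    refine jn 341 (by decide +kernel) ?_
    refine jn 342 (by decide +kernel) ?_
    refine jn 343 (by decide +kernel) ?_
    refine jn 345 (by decide +kernel) ?_
    refine jn 352 (by decide +kernel) ?_
    refine jn 358 (by decide +kernel) ?_
    refine jn 359 (by decide +kernel) ?_
    refine jn 364 (by decide +kernel) ?_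
    refine jn 394 (by decide +kernel) ?_
    refine jn 405 (by decide +kernel) ?_
    refine jn 419 (by decide +kernel) ?_
    refine jn 427 (by decide +kernel) ?_
    refine jn 428 (by decide +kernel) ?_
    refine jn 429 (by decide +kernel) ?_
    refine jn 431 (by decide +kernel) ?_
    refine jn 432 (by decide +kernel) ?_
    refine jn 433 (by decide +kernel) ?_
    refine jn 436 (by decide +kernel) ?_
    refine jn 439 (by decide +kernel) ?_
    refine jn 443 (by decide +kernel) ?_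
    refine jn 444 (by decide +kernel) ?_
    refine jn 451 (by decide +kernel) ?_
    refine jn 479 (by decide +kernel) ?_
    refine jn 492 (by decide +kernel) ?_
    refine jn 494 (by decide +kernel) ?_
    refine jn 495 (by decide +kernel) ?_
    refine jn 496 (by decide +kernel) ?_
    refine jn 497 (by decide +kernel) ?_
    refine jn 498 (by decide +kernel) ?_
    refine jn 499 (by decide +kernel) ?_
    refine jn 500 (by decide +kernel) ?_
    refine jn 501 (by decide +kernel) ?_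
    refine jn 502 (by decide +kernel) ?_
    refine jn 503 (by decide +kernel) ?_
    refine jn 504 (by decide +kernel) ?_
    refine jn 505 (by decide +kernel) ?_
    refine jn 506 (by decide +kernel) ?_
    refine jn 507 (by decide +kernel) ?_
    refine jn 508 (by decide +kernel) ?_
    refine jn 509 (by decide +kernel) ?_
    refine jn 514 (by decide +kernel) ?_
    refine jn 519 (by decide +kernel) ?_
    refine jn 520 (by decide +kernel) ?_
    refine jn 521 (by decide +kernel) ?_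
    refine jn 522 (by decide +kernel) ?_
    refine jn 523 (by decide +kernel) ?_
    refine jn 524 (by decide +kernel) ?_
    refine jn 525 (by decide +kernel) ?_
    refine jn 526 (by decide +kernel) ?_
    refine jn 527 (by decide +kernel) ?_
    refine jn 528 (by decide +kernel) ?_
    refine jn 529 (by decide +kernel) ?_
    refine jn 530 (by decide +kernel) ?_
    refine jn 531 (by decide +kernel) ?_
    refine jn 532 (by decide +kernel) ?_
    refine jn 533 (by decide +kernel) ?_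
    refine jn 534 (by decide +kernel) ?_
    refine jn 535 (by decide +kernel) ?_
    refine jn 536 (by decide +kernel) ?_
    refine jn 537 (by decide +kernel) ?_
    refine jn 538 (by decide +kernel) ?_
    refine jn 545 (by decide +kernel) ?_
    refine jn 551 (by decide +kernel) ?_
    refine jn 564 (by decide +kernel) ?_
    refine jn 573 (by decide +kernel) ?_
    refine jn 574 (by decide +kernel) ?_
    refine jn 576 (by decide +kernel) ?_
    refine jn 578 (by decide +kernel) ?_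
    refine jn 580 (by decide +kernel) ?_
    refine jn 581 (by decide +kernel) ?_
    refine jn 582 (by decide +kernel) ?_
    refine jn 583 (by decide +kernel) ?_
    refine jn 584 (by decide +kernel) ?_
    refine jn 585 (by decide +kernel) ?_
    refine jn 592 (by decide +kernel) ?_
    refine jn 593 (by decide +kernel) ?_
    refine jn 594 (by decide +kernel) ?_
    refine jn 595 (by decide +kernel) ?_
    refine jn 596 (by decide +kernel) ?_
    refine jn 597 (by decide +kernel) ?_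
    refine jn 610 (by decide +kernel) ?_
    exact je (by decide +kernel)

end Pool.Agent.MP_2339ce_nt.NR
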