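import Pool.Agent.MP_2339ce_nt.Q2.NC.L8
import Pool.Agent.MP_2339ce_nt.Q2.NC.L10
import Pool.Agent.MP_2339ce_nt.Q2.CkI

/-! Block NR: runs. -/

set_option autoImplicit false
set_option maxRecDepth 100000

noncomputable section

namespace Pool.Agent.MP_2339ce_nt.NR

open Q2.Top

def T15_0 : Ph :=
  (.na 582 8 (.na 217 6 (.nx 216 21137969 (.nr 215 1482912 (.nx 3 225 (.nx 2 224 (.nr 1 62 (.lg 0
  true 1 41 41 9 0 5040) (.l1 .sk)) (.l1 .sk)) (.nx 48 47586 (.nr 36 220437 (.lg 0 false 33 101 107
  16 0 720720) (.nx 47 408 (.lg 0 false 11 83 89 16 0 55440) .out)) (.nr 214 311745 (.nx 161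
  2642247 (.nx 149 660563 (.nr 59 829 (.lg 0 true 11 89 89 16 0 55440) (.nx 83 82570 (.nr 82 262145
  (.nx 71 65536 (.nr 70 220437 (.lg 1 false 11 101 103 16 116337 720720) .out) (.lg 1 false 11 101
  103 16 100439 720720)) .out) (.nr 92 6200 (.nr 89 3171 (.lg 2 true 6 89 97 16 89244 5040) (.lg 2
  true 3 89 89 11 23332 5040)) (.nx 137 262145 (.nx 103 112360 (.lg 1 false 11 101 107 16 94789
  720720) (.nx 114 152899 (.lg 1 false 11 101 107 16 69658 720720) (.nx 125 208065 (.lg 1 true 11
  101 107 16 51189 720720) (.nr 136 262145 (.lg 1 true 11 101 103 16 31636 720720) .out)))) (.nr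
  148 131073 (.lg 2 false 11 101 107 16 12566 720720) .out))))) (.nr 160 217 (.lg 0 true 11 89 89
  16 0 55440) .out)) (.nr 213 24 (.nx 187 10568985 (.lg 0 true 26 79 79 16 0 65520) (.lg 0 true 26
  79 79 16 0 65520)) .out)) .out))) .out) .out) (.na 413 7 (.nx 412 21137969 (.nr 411 1048577 (.nx
  220 225 (.nx 219 224 (.nr 218 73 (.lg 0 true 1 37 37 7 0 1008) (.l1 .sk)) (.l1 .sk)) (.nx 364
  2642247 (.nx 243 36124 (.nr 231 220437 (.lg 0 false 11 103 107 17 0 55440) (.nx 242 814 (.lg 0
  false 11 83 89 17 0 11088) .out)) (.nr 363 311745 (.nx 351 832257 (.nr 259 3451 (.nr 254 941 (.lg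
  0 true 11 89 89 17 0 11088) (.lg 2 true 5 89 89 13 99058 5040)) (.nr 264 12646 (.lg 2 true 5 89
  89 13 27011 5040) (.nx 276 52015 (.nr 275 220437 (.lg 1 false 11 97 103 17 153251 55440) .out)
  (.nx 288 82570 (.nr 287 262145 (.lg 1 false 11 101 103 17 126548 55440) .out) (.nx 310 152899
  (.nx 299 112360 (.lg 1 false 11 97 103 17 94789 55440) (.lg 1 false 11 97 103 17 69658 55440))
  (.nx 333 262145 (.nx 321 208065 (.lg 1 true 11 97 103 17 51189 55440) (.nr 332 262145 (.lg 1 true
  11 97 103 17 31636 55440) .out)) (.nr 350 131073 (.nx 344 330282 (.lg 1 true 11 89 101 17 12566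
  55440) (.nr 349 46342 (.lg 2 false 5 89 89 13 7371 5040) .out)) .out))))))) (.nr 362 257 (.lg 0
  true 11 83 83 17 0 11088) .out)) .out)) (.nr 410 28 (.nx 377 5284493 (.lg 0 true 13 73 73 13 0
  13104) (.lg 0 true 33 79 79 13 0 11088)) .out))) .out) .out) (.nx 581 21137969 (.nr 580 1246976
  (.nx 540 2642247 (.nx 416 225 (.nx 415 224 (.nr 414 84 (.lg 0 true 1 37 37 9 0 5040) (.l1 .sk))
  (.l1 .sk)) (.nx 447 52015 (.nr 433 262145 (.nr 429 220437 (.lg 0 false 13 103 107 16 0 720720)
  (.nx 432 2582 (.lg 0 true 3 79 79 11 0 5040) .out)) (.nx 446 814 (.lg 0 false 13 83 83 16 0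
  13104) .out)) (.nr 539 311745 (.nr 460 642 (.lg 0 true 13 83 83 16 0 13104) (.nx 538 832257 (.nr
  471 5950 (.lg 2 true 11 89 89 16 145192 55440) (.nx 524 262145 (.nx 485 82570 (.nr 484 262145
  (.lg 1 false 13 101 103 16 126548 720720) .out) (.nx 511 178361 (.nx 498 121356 (.lg 1 false 13
  101 103 16 94789 720720) (.lg 1 false 13 101 103 16 64494 720720)) (.lg 1 true 13 101 103 16
  43882 720720))) (.nr 537 155873 (.lg 2 false 13 97 101 16 15667 65520) .out))) .out)) .out)))
  (.nr 579 47 (.lg 0 true 39 73 73 11 0 13104) .out)) .out) .out))) (.na 933 10 (.na 761 9 (.nx 760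
  21137969 (.nr 759 1482912 (.nx 725 2642247 (.nx 584 224 (.nr 583 95 (.lg 0 true 1 37 37 9 0 5040)
  (.l1 .sk)) (.nx 585 225 (.l1 .sk) (.nr 713 370729 (.nx 701 1321124 (.nx 602 32768 (.nr 596 220437
  (.lg 0 false 11 103 107 13 0 720720) (.nx 601 2582 (.lg 0 false 5 89 89 13 0 5040) .out)) (.nr
  700 311745 (.nr 621 9779 (.nr 618 4896 (.nr 613 1227 (.lg 0 true 11 89 97 13 0 55440) (.lg 2 true
  5 89 97 13 120592 5040)) (.lg 2 true 3 89 89 11 30222 5040)) (.nx 655 92681 (.nx 644 65536 (.nr
  643 262145 (.nx 632 46340 (.lg 1 false 11 101 103 13 200880 720720) (.lg 1 false 11 101 107 13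
  142046 720720)) .out) (.lg 1 false 11 101 107 13 119427 720720)) (.nx 666 131072 (.lg 1 false 11
  101 107 13 84448 720720) (.nx 688 262145 (.nx 677 185364 (.lg 1 false 11 101 107 13 59714 720720)
  (.lg 1 true 11 101 107 13 42224 720720)) (.nr 699 185365 (.lg 2 false 11 101 107 13 17762 720720)
  .out))))) .out)) (.nr 712 154 (.lg 0 true 11 79 79 13 0 11088) .out)) (.nx 724 814 (.lg 0 false
  11 89 89 13 0 55440) .out)))) (.nr 758 55 (.lg 0 true 33 83 83 13 0 11088) .out)) .out) .out)
  (.nx 932 21137969 (.nr 931 1482912 (.nx 763 224 (.nr 762 105 (.lg 0 true 1 31 31 7 0 1008) (.l1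
  .sk)) (.nx 764 225 (.l1 .sk) (.nr 919 370729 (.nx 786 32768 (.nr 775 220437 (.lg 0 false 11 101
  107 16 0 720720) (.nx 785 6503 (.nx 780 2582 (.lg 0 false 5 83 89 16 0 5040) (.nx 781 3250 .out
  (.nr 784 262145 (.lg 0 false 3 83 83 16 0 1008) .out))) .out)) (.nx 873 1321124 (.nr 804 9779
  (.nr 797 1227 (.lg 0 true 11 89 89 16 0 11088) (.nr 802 4896 (.lg 2 true 5 89 89 16 120592 5040)
  (.lg 2 false 2 89 89 16 30222 5040))) (.nx 816 52015 (.nr 815 262145 (.lg 1 false 11 101 107 16
  200880 720720) .out) (.nx 839 131072 (.nr 838 311745 (.nx 827 96319 (.lg 1 false 11 101 107 16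
  150472 720720) (.lg 1 false 11 97 103 16 81259 720720)) .out) (.nx 861 262145 (.nx 850 185364
  (.lg 1 false 11 101 107 16 71003 720720) (.lg 1 true 11 101 107 16 50207 720720)) (.nr 872 185365
  (.lg 2 false 11 97 103 16 17762 720720) .out))))) (.nr 918 154 (.nx 884 2642247 (.lg 0 true 11 73
  79 16 0 11088) (.nr 917 65 (.lg 0 true 33 83 83 16 0 11088) .out)) .out))) (.nx 930 814 (.lg 0
  false 11 83 89 16 0 55440) .out)))) .out) .out)) (.na 1032 12 (.nx 1031 2642247 (.nr 1030 1246976
  (.nx 1023 1321124 (.nx 935 224 (.nr 934 127 (.lg 0 false 1 37 37 11 0 5040) (.l1 .sk)) (.nx 936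
  225 (.l1 .sk) (.nx 959 32768 (.nr 947 220437 (.lg 0 false 11 97 103 19 0 55440) (.nx 958 1627
  (.lg 0 false 11 89 97 19 0 55440) .out)) (.nr 1022 311745 (.nr 973 4494 (.nr 970 1079 (.lg 0 true
  11 89 89 19 0 55440) (.lg 2 true 3 89 89 13 137133 5040)) (.nr 976 9171 (.lg 2 true 3 83 83 13
  32926 5040) (.nx 988 65536 (.nr 987 262145 (.lg 1 false 11 97 103 19 200880 55440) .out) (.nx
  1010 262145 (.nx 999 131072 (.lg 1 false 11 101 103 19 119427 720720) (.lg 1 true 11 101 103 19
  59714 720720)) (.nr 1021 185365 (.lg 2 false 11 89 101 19 17762 55440) .out))))) .out)))) (.nr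
  1029 65 (.lg 0 true 6 71 71 13 0 5040) .out)) .out) .out) (.nx 1117 2642247 (.nr 1116 1246976
  (.nx 1110 660563 (.nx 1035 225 (.nx 1034 224 (.nr 1033 137 (.lg 0 true 1 41 41 13 0 5040) (.l1
  .sk)) (.l1 .sk)) (.nx 1056 41285 (.nr 1052 741457 (.nr 1046 220437 (.lg 0 false 11 101 107 29 0
  720720) (.nx 1051 1627 (.lg 0 false 5 83 97 19 0 5040) .out)) (.nx 1055 408 (.lg 0 false 3 79 79
  19 0 1008) .out)) (.nr 1109 311745 (.nr 1061 1071 (.lg 0 true 5 83 89 19 0 5040) (.nr 1063 4221
  (.lg 2 true 2 89 89 13 69079 5040) (.nx 1075 82570 (.nr 1074 262145 (.lg 1 false 11 101 107 29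
  159438 720720) .out) (.nx 1098 262145 (.nx 1086 165142 (.lg 1 false 11 101 107 29 94789 720720)
  (.nr 1097 262145 (.lg 1 true 11 97 107 29 39859 720720) .out)) (.nr 1108 185365 (.nx 1103 330282
  (.lg 1 true 5 97 103 19 17762 65520) (.nr 1107 77937 (.nr 1105 16633 (.lg 2 true 2 89 97 13 17528
  5040) (.lg 2 false 2 89 97 13 5938 5040)) .out)) .out))))) .out))) (.nr 1115 65 (.lg 0 true 5 73
  73 19 0 5040) .out)) .out) .out))))

def T15_1 : Ph :=
  (.na 967 15 (.na 731 8 (.na 516 3 (.na 313 2 (.nx 312 1321124 (.nr 311 881745 (.nx 2 161 (.nr 1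
  13 (.lg 0 false 1 47 47 5 0 11592) (.l1 .sk)) (.nx 3 162 (.l1 .sk) (.nr 290 311745 (.nx 269
  660563 (.nx 69 17696 (.nr 55 92683 (.lg 0 false 52 103 109 16 0 16576560) (.nx 68 257 (.lg 0
  false 13 89 89 9 0 150696) .out)) (.nr 268 77937 (.nr 148 4097 (.nr 134 1219 (.nr 121 695 (.lg 0
  true 52 101 103 16 0 16576560) (.lg 2 true 13 97 97 9 76512 150696)) (.nx 147 524289 (.lg 2 true
  13 103 107 9 34623 16576560) .out)) (.nx 267 416129 (.nx 200 32769 (.lg 1 false 52 101 109 16
  57201 16576560) (.nr 266 55110 (.nr 213 23172 (.lg 2 false 13 107 107 9 9229 16576560) (.nx 265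
  262145 (.lg 2 false 52 101 109 16 21861 16576560) .out)) .out)) .out)) .out)) (.nr 289 129 (.lg 0
  true 20 97 97 11 0 115920) .out)) (.nx 310 205 (.lg 0 false 20 83 83 11 0 115920) .out)))) .out)
  .out) (.nx 515 3329023 (.nr 514 623489 (.nx 316 162 (.nx 315 161 (.nr 314 24 (.lg 0 true 1 43 43
  5 0 23184) (.l1 .sk)) (.l1 .sk)) (.nr 500 131073 (.nx 481 1664512 (.nx 458 832257 (.nx 349 26009
  (.lg 0 false 33 103 109 13 0 16576560) (.nr 457 110219 (.nr 383 2437 (.nr 371 450 (.lg 0 true 22
  97 97 11 0 255024) (.nx 382 416129 (.lg 2 true 11 101 101 9 74441 1275120) .out)) (.nx 456 330282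
  (.nx 396 32769 (.lg 1 false 13 101 103 9 55005 1506960) (.nr 455 92683 (.nr 407 27556 (.lg 2
  false 11 101 103 9 10963 1275120) (.nx 454 165142 (.nr 420 55110 (.lg 2 false 13 103 107 9 21861
  16576560) (.nx 453 131073 (.lg 2 false 33 101 109 13 36722 16576560) .out)) .out)) .out)) .out))
  .out)) (.nr 480 129 (.lg 0 true 22 83 89 11 0 255024) .out)) (.nr 499 9 (.lg 0 true 18 73 73 9 0
  23184) .out)) (.nx 513 257 (.lg 0 false 13 83 83 9 0 301392) .out))) .out) .out)) (.na 517 6 .ne
  (.na 628 7 (.nx 627 13316087 (.nr 626 623489 (.nx 520 162 (.nx 519 161 (.nr 518 62 (.lg 0 true 1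
  37 37 7 0 23184) (.l1 .sk)) (.l1 .sk)) (.nx 599 1664512 (.nx 521 205 (.l1 (.ls 97 43 2633)) (.nr
  598 370729 (.nx 540 28089 (.nr 534 131073 (.lg 0 false 13 103 107 19 0 16576560) (.nx 539 1627
  (.lg 0 false 5 97 97 13 0 115920) .out)) (.nr 597 155873 (.nr 553 513 (.lg 0 true 13 97 97 19 0
  1506960) (.nx 596 660563 (.nx 567 52015 (.nr 566 131073 (.lg 1 false 13 101 107 19 60554
  16576560) .out) (.nx 580 131073 (.lg 1 true 13 103 109 19 38880 16576560) (.nr 595 65537 (.nr 590
  8201 (.nr 585 2052 (.lg 2 true 5 89 89 13 103656 115920) (.lg 2 true 5 89 97 13 25914 115920))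
  (.lg 2 false 5 97 101 13 6497 115920)) .out))) .out)) .out)) .out)) (.nr 625 28 (.lg 0 true 26 83
  83 13 0 301392) .out))) .out) .out) (.nx 730 13316087 (.nr 729 262145 (.nx 631 162 (.nx 630 161
  (.nr 629 71 (.lg 0 true 1 37 37 9 0 57960) (.l1 .sk)) (.l1 .sk)) (.nr 724 131073 (.nx 671 832257
  (.nx 644 36779 (.lg 0 false 13 103 107 16 0 16576560) (.nr 657 1284 (.lg 0 true 13 89 89 16 0
  150696) (.nx 670 524289 (.lg 2 false 13 103 107 16 46246 16576560) .out))) (.nr 723 129 (.lg 0
  true 52 83 83 16 0 301392) .out)) (.nx 728 1627 (.lg 0 true 4 83 83 11 0 23184) .out))) .out)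
  .out)))) (.na 873 11 (.na 732 9 .ne (.na 814 10 (.nx 813 13316087 (.nr 812 623489 (.nx 735 162
  (.nx 734 161 (.nr 733 89 (.lg 0 false 1 31 31 7 0 57960) (.l1 .sk)) (.l1 .sk)) (.nr 803 131073
  (.nx 748 46340 (.lg 0 false 13 103 107 16 0 16576560) (.nr 788 745 (.nx 761 1664512 (.lg 0 true
  13 89 89 16 0 753480) (.nr 787 65 (.lg 0 true 26 83 83 16 0 301392) .out)) (.nx 802 524289 (.nr
  789 1527 (.lg 2 false 1 83 83 7 56652 11592) (.lg 2 false 13 101 109 16 36705 16576560)) .out)))
  (.nx 811 1627 (.lg 0 false 8 89 97 16 0 115920) .out))) .out) .out) (.nx 872 1664512 (.nr 871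
  623489 (.nx 817 162 (.nx 816 161 (.nr 815 99 (.lg 0 false 1 37 37 11 0 115920) (.l1 .sk)) (.l1
  .sk)) (.nx 864 524289 (.nr 857 131073 (.nx 830 35390 (.lg 0 false 13 101 107 19 0 16576560) (.nr
  836 1621 (.lg 0 true 6 97 97 13 0 115920) (.nx 856 416129 (.nx 842 65537 (.lg 1 false 6 101 103
  13 48062 1275120) (.nr 855 110219 (.lg 2 false 13 97 107 19 21829 16576560) .out)) .out))) (.nx
  863 1292 (.lg 0 false 6 89 97 13 0 115920) .out)) (.nr 870 65 (.lg 0 true 6 73 73 13 0 115920)
  .out))) .out) .out))) (.na 918 12 (.nx 917 1664512 (.nr 916 623489 (.nx 875 161 (.nr 874 108 (.lg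
  0 false 1 31 31 9 0 127512) (.l1 .sk)) (.nx 876 162 (.l1 .sk) (.nr 910 131073 (.nx 889 35390 (.lg
  0 false 13 97 103 16 0 8288280) (.nx 904 524289 (.nr 894 1621 (.lg 0 true 5 89 89 16 0 637560)
  (.nx 903 416129 (.nx 898 65537 (.lg 1 false 4 101 103 16 48062 1275120) (.nr 902 110219 (.lg 2
  false 4 103 107 16 21829 1275120) .out)) .out)) (.nr 909 65 (.lg 0 true 5 73 73 16 0 637560)
  .out))) (.nx 915 1292 (.lg 0 false 5 89 89 16 0 637560) .out)))) .out) .out) (.na 919 14 .ne (.nx
  966 1664512 (.nr 965 623489 (.nr 920 6 .s1 (.nx 922 161 (.nr 921 135 (.lg 0 true 1 31 31 11 0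
  115920) (.l1 .sk)) (.nx 923 162 (.l1 .sk) (.nr 958 155873 (.nx 934 29192 (.lg 0 false 11 97 101
  13 0 1275120) (.nr 957 110219 (.nr 945 829 (.lg 0 true 11 83 83 13 0 255024) (.nx 956 416129 (.lg
  2 false 11 97 101 13 49007 1275120) .out)) .out)) (.nx 964 1292 (.lg 0 false 6 79 79 13 0 23184)
  .out))))) .out) .out))))) (.na 1133 22 (.na 1017 17 (.na 1016 16 (.nx 1015 1664512 (.nr 1014
  623489 (.nr 968 9 .s1 (.nx 1009 524289 (.nx 971 162 (.nx 970 161 (.nr 969 144 (.lg 0 true 1 37 37
  16 0 57960) (.l1 .sk)) (.l1 .sk)) (.nx 980 13003 (.nr 975 155873 (.lg 0 false 4 101 101 17 0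
  115920) (.nx 979 1292 (.lg 0 false 4 89 97 17 0 115920) .out)) (.nr 1008 110219 (.nr 1003 77937
  (.nr 998 55110 (.nr 993 46342 (.nr 984 829 (.lg 0 true 4 89 89 17 0 115920) (.nx 992 416129 (.lg
  2 false 8 89 89 19 46353 115920) .out)) (.nx 997 208065 (.lg 0 true 4 103 107 17 0 16576560)
  .out)) (.nx 1002 131073 (.lg 0 true 4 103 107 17 0 16576560) .out)) (.nx 1007 82572 (.lg 0 true 4
  103 107 17 0 16576560) .out)) .out))) (.nr 1013 65 (.lg 0 true 4 73 73 17 0 115920) .out))) .out)
  .out) .ne) (.na 1054 18 (.nx 1053 1664512 (.nr 1052 1048577 (.nr 1018 12 .s1 (.nx 1046 262145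
  (.nx 1020 161 (.nr 1019 162 (.lg 0 false 1 31 31 11 0 57960) (.l1 .sk)) (.nx 1021 162 (.l1 .sk)
  (.nx 1022 257 (.l1 (.ls 89 31 2344)) (.nr 1045 623489 (.nr 1040 220437 (.nx 1031 41287 (.nr 1026
  92683 (.lg 0 false 4 101 103 16 0 115920) (.nx 1030 13005 (.lg 0 false 4 101 101 16 0 115920)
  .out)) (.nr 1039 77937 (.nr 1035 1854 (.lg 0 true 4 83 83 16 0 23184) (.lg 2 false 4 101 101 16
  24517 115920)) .out)) (.nx 1044 1627 (.lg 0 false 4 89 89 16 0 23184) .out)) .out)))) (.nr 1051
  217 (.lg 0 true 5 79 79 16 0 57960) .out))) .out) .out) (.na 1096 21 (.nx 1095 1664512 (.nr 1094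
  1048577 (.nr 1055 13 .s1 (.nx 1058 162 (.nx 1057 161 (.nr 1056 189 (.lg 0 true 1 31 31 13 0
  115920) (.l1 .sk)) (.l1 .sk)) (.nx 1088 262145 (.nx 1059 257 (.l1 (.ls 89 43 2214)) (.nr 1087
  623489 (.nr 1081 220437 (.nr 1075 92683 (.nx 1064 41287 (.lg 0 false 5 97 101 19 0 115920) (.nr
  1074 77937 (.nr 1069 1854 (.lg 0 true 5 83 83 19 0 115920) (.lg 2 false 5 97 101 19 24517
  1275120)) .out)) (.nx 1080 13005 (.lg 0 false 5 89 97 19 0 115920) .out)) (.nx 1086 1627 (.lg 0
  false 5 83 83 19 0 115920) .out)) .out)) (.nr 1093 217 (.lg 0 true 5 73 73 19 0 115920) .out))))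
  .out) .out) (.nx 1132 1664512 (.nr 1131 1048577 (.nr 1097 17 .s1 (.nx 1125 262145 (.nx 1099 161
  (.nr 1098 198 (.lg 0 false 1 29 29 16 0 637560) (.l1 .sk)) (.nx 1100 162 (.l1 .sk) (.nx 1101 257
  (.l1 (.ls 83 37 1898)) (.nr 1124 623489 (.nr 1114 92683 (.nx 1105 41287 (.lg 0 false 4 101 101 17
  0 1275120) (.nr 1113 77937 (.nr 1109 1854 (.lg 0 true 4 79 79 17 0 23184) (.lg 2 false 4 97 101
  17 24517 1275120)) .out)) (.nx 1123 13005 (.nr 1118 220437 (.lg 0 false 4 97 97 17 0 1275120)
  (.nx 1122 1627 (.lg 0 false 4 83 83 17 0 23184) .out)) .out)) .out)))) (.nr 1130 217 (.lg 0 true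
  5 71 71 17 0 57960) .out))) .out) .out)))) (.na 1219 30 (.na 1162 23 (.nx 1161 1664512 (.nr 1160
  1048577 (.nr 1134 18 .s1 (.nx 1138 257 (.nx 1136 161 (.nr 1135 207 (.lg 0 false 1 31 31 9 0
  1275120) (.l1 .sk)) (.nx 1137 162 (.l1 .sk) (.l1 (.ls 89 41 1812)))) (.nr 1159 623489 (.nx 1147
  23171 (.nr 1143 220437 (.lg 0 false 5 101 101 19 0 1275120) (.nx 1146 1627 (.lg 0 false 3 83 83
  13 0 255024) .out)) (.nr 1158 92683 (.nr 1152 634 (.lg 0 true 5 83 83 19 0 1275120) (.nx 1157
  262145 (.lg 2 false 5 101 103 19 51933 1275120) .out)) .out)) .out))) .out) .out) (.na 1192 25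
  (.nx 1191 1664512 (.nr 1190 1048577 (.nr 1163 20 .s1 (.nx 1166 162 (.nx 1165 161 (.nr 1164 225
  (.l1 (.ls 19 29 1129)) (.l1 .sk)) (.l1 .sk)) (.nx 1176 20644 (.nx 1167 257 (.l1 (.ls 79 31 1733))
  (.nr 1175 311745 (.lg 0 false 8 89 89 16 0 23184) .out)) (.nr 1189 77937 (.nr 1184 513 (.lg 0
  true 8 73 73 16 0 23184) (.nx 1188 165142 (.lg 2 true 4 89 89 13 49032 23184) .out)) .out))))
  .out) .out) (.nx 1218 1664512 (.nr 1217 1048577 (.nr 1193 22 .s1 (.nx 1197 257 (.nx 1195 161 (.nr
  1194 270 (.lg 0 false 1 29 29 16 0 57960) (.l1 .sk)) (.nx 1196 162 (.l1 .sk) (.l1 (.ls 83 31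
  1595)))) (.nr 1216 311745 (.nx 1206 41287 (.nr 1201 110219 (.lg 0 false 4 97 97 16 0 115920) (.nx
  1205 8193 (.lg 0 false 4 89 89 16 0 115920) .out)) (.nr 1215 65537 (.nr 1210 513 (.lg 0 true 4 79
  79 16 0 115920) (.nx 1214 165142 (.lg 2 false 4 89 89 16 25915 115920) .out)) .out)) .out)))
  .out) .out))) (.na 1244 31 (.nx 1243 1664512 (.nr 1242 1048577 (.nr 1220 28 .s1 (.nx 1224 257
  (.nx 1222 161 (.nr 1221 279 (.lg 0 false 1 37 37 19 0 115920) (.l1 .sk)) (.nx 1223 162 (.l1 .sk)
  (.l1 (.ls 89 43 1329)))) (.nr 1241 311745 (.nx 1237 208065 (.nx 1229 20644 (.nr 1226 110219 (.lg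
  0 false 2 97 101 23 0 115920) (.nx 1228 8193 (.lg 0 false 2 97 101 23 0 115920) .out)) (.nr 1236
  77937 (.nr 1230 1307 (.lg 0 false 1 83 83 19 0 115920) (.nx 1235 165142 (.nx 1232 41287 (.lg 1
  false 2 89 97 23 49032 115920) (.nr 1234 65537 (.lg 2 false 2 97 97 23 20624 115920) .out))
  .out)) .out)) (.nr 1240 217 (.lg 0 true 3 79 79 29 0 115920) .out)) .out))) .out) .out) (.na 1267
  32 (.nx 1266 1664512 (.nr 1265 1048577 (.nr 1245 29 .s1 (.nx 1248 162 (.nx 1247 161 (.nr 1246 288
  (.lg 0 false 1 29 29 13 0 57960) (.l1 .sk)) (.l1 .sk)) (.nx 1254 20644 (.nx 1249 257 (.l1 (.ls 83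
  29 1287)) (.nr 1253 311745 (.lg 0 false 4 101 101 16 0 115920) .out)) (.nr 1264 77937 (.nr 1259
  513 (.lg 0 true 5 79 79 16 0 57960) (.nx 1263 165142 (.lg 2 false 4 97 101 16 49032 115920)
  .out)) .out)))) .out) .out) .ne)))))

theorem c15 :
    OkQ ckI L10 224 5 13 0 34359738368 1 1099511627776 ∧
    OkQ ckI L8 161 1 33 0 34359738368 1 1099511627776 := by
  refine ⟨?_, ?_⟩
  · refine fin 1008 1118 T15_0 ?_
    refine jn 3 (by decide +kernel) ?_
    refine jn 6 (by decide +kernel) ?_
    refine jn 8 (by decide +kernel) ?_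
    refine jn 10 (by decide +kernel) ?_
    refine jn 13 (by decide +kernel) ?_
    refine jn 15 (by decide +kernel) ?_
    refine jn 19 (by decide +kernel) ?_
    refine jn 22 (by decide +kernel) ?_
    refine jn 25 (by decide +kernel) ?_
    refine jn 28 (by decide +kernel) ?_
    refine jn 30 (by decide +kernel) ?_
    refine jn 32 (by decide +kernel) ?_
    refine jn 35 (by decide +kernel) ?_
    refine jn 47 (by decide +kernel) ?_
    refine jn 51 (by decide +kernel) ?_
    refine jn 54 (by decide +kernel) ?_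
    refine jn 57 (by decide +kernel) ?_
    refine jn 59 (by decide +kernel) ?_
    refine jn 70 (by decide +kernel) ?_
    refine jn 82 (by decide +kernel) ?_
    refine jn 89 (by decide +kernel) ?_
    refine jn 100 (by decide +kernel) ?_
    refine jn 103 (by decide +kernel) ?_
    refine jn 111 (by decide +kernel) ?_
    refine jn 114 (by decide +kernel) ?_
    refine jn 122 (by decide +kernel) ?_
    refine jn 125 (by decide +kernel) ?_
    refine jn 136 (by decide +kernel) ?_
    refine jn 148 (by decide +kernel) ?_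
    refine jn 160 (by decide +kernel) ?_
    refine jn 187 (by decide +kernel) ?_
    refine jn 213 (by decide +kernel) ?_
    refine jn 222 (by decide +kernel) ?_
    refine jn 224 (by decide +kernel) ?_
    refine jn 225 (by decide +kernel) ?_
    refine jn 226 (by decide +kernel) ?_
    refine jn 228 (by decide +kernel) ?_
    refine jn 230 (by decide +kernel) ?_
    refine jn 231 (by decide +kernel) ?_
    refine jn 242 (by decide +kernel) ?_
    refine jn 246 (by decide +kernel) ?_
    refine jn 250 (by decide +kernel) ?_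
    refine jn 254 (by decide +kernel) ?_
    refine jn 259 (by decide +kernel) ?_
    refine jn 264 (by decide +kernel) ?_
    refine jn 275 (by decide +kernel) ?_
    refine jn 285 (by decide +kernel) ?_
    refine jn 288 (by decide +kernel) ?_
    refine jn 299 (by decide +kernel) ?_
    refine jn 310 (by decide +kernel) ?_
    refine jn 321 (by decide +kernel) ?_
    refine jn 332 (by decide +kernel) ?_
    refine jn 344 (by decide +kernel) ?_
    refine jn 351 (by decide +kernel) ?_
    refine jn 362 (by decide +kernel) ?_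
    refine jn 410 (by decide +kernel) ?_
    refine jn 425 (by decide +kernel) ?_
    refine jn 432 (by decide +kernel) ?_
    refine jn 460 (by decide +kernel) ?_
    refine jn 484 (by decide +kernel) ?_
    refine jn 511 (by decide +kernel) ?_
    refine jn 537 (by decide +kernel) ?_
    refine jn 579 (by decide +kernel) ?_
    refine jn 587 (by decide +kernel) ?_
    refine jn 590 (by decide +kernel) ?_
    refine jn 592 (by decide +kernel) ?_
    refine jn 595 (by decide +kernel) ?_
    refine jn 601 (by decide +kernel) ?_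
    refine jn 607 (by decide +kernel) ?_
    refine jn 612 (by decide +kernel) ?_
    refine jn 618 (by decide +kernel) ?_
    refine jn 621 (by decide +kernel) ?_
    refine jn 632 (by decide +kernel) ?_
    refine jn 643 (by decide +kernel) ?_
    refine jn 655 (by decide +kernel) ?_
    refine jn 666 (by decide +kernel) ?_
    refine jn 677 (by decide +kernel) ?_
    refine jn 688 (by decide +kernel) ?_
    refine jn 699 (by decide +kernel) ?_
    refine jn 712 (by decide +kernel) ?_
    refine jn 724 (by decide +kernel) ?_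
    refine jn 758 (by decide +kernel) ?_
    refine jn 767 (by decide +kernel) ?_
    refine jn 770 (by decide +kernel) ?_
    refine jn 773 (by decide +kernel) ?_
    refine jn 775 (by decide +kernel) ?_
    refine jn 784 (by decide +kernel) ?_
    refine jn 791 (by decide +kernel) ?_
    refine jn 796 (by decide +kernel) ?_
    refine jn 802 (by decide +kernel) ?_
    refine jn 815 (by decide +kernel) ?_
    refine jn 827 (by decide +kernel) ?_
    refine jn 838 (by decide +kernel) ?_
    refine jn 850 (by decide +kernel) ?_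
    refine jn 861 (by decide +kernel) ?_
    refine jn 872 (by decide +kernel) ?_
    refine jn 884 (by decide +kernel) ?_
    refine jn 917 (by decide +kernel) ?_
    refine jn 930 (by decide +kernel) ?_
    refine jn 938 (by decide +kernel) ?_
    refine jn 942 (by decide +kernel) ?_
    refine jn 945 (by decide +kernel) ?_
    refine jn 947 (by decide +kernel) ?_
    refine jn 958 (by decide +kernel) ?_
    refine jn 964 (by decide +kernel) ?_
    refine jn 970 (by decide +kernel) ?_
    refine jn 976 (by decide +kernel) ?_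
    refine jn 987 (by decide +kernel) ?_
    refine jn 999 (by decide +kernel) ?_
    refine jn 1010 (by decide +kernel) ?_
    refine jn 1021 (by decide +kernel) ?_
    refine jn 1029 (by decide +kernel) ?_
    refine jn 1035 (by decide +kernel) ?_
    refine jn 1036 (by decide +kernel) ?_
    refine jn 1037 (by decide +kernel) ?_
    refine jn 1038 (by decide +kernel) ?_
    refine jn 1039 (by decide +kernel) ?_
    refine jn 1040 (by decide +kernel) ?_
    refine jn 1041 (by decide +kernel) ?_
    refine jn 1042 (by decide +kernel) ?_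
    refine jn 1043 (by decide +kernel) ?_
    refine jn 1044 (by decide +kernel) ?_
    refine jn 1045 (by decide +kernel) ?_
    refine jn 1046 (by decide +kernel) ?_
    refine jn 1051 (by decide +kernel) ?_
    refine jn 1056 (by decide +kernel) ?_
    refine jn 1057 (by decide +kernel) ?_
    refine jn 1058 (by decide +kernel) ?_
    refine jn 1059 (by decide +kernel) ?_
    refine jn 1060 (by decide +kernel) ?_
    refine jn 1061 (by decide +kernel) ?_
    refine jn 1063 (by decide +kernel) ?_
    refine jn 1067 (by decide +kernel) ?_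
    refine jn 1071 (by decide +kernel) ?_
    refine jn 1074 (by decide +kernel) ?_
    refine jn 1079 (by decide +kernel) ?_
    refine jn 1083 (by decide +kernel) ?_
    refine jn 1086 (by decide +kernel) ?_
    refine jn 1090 (by decide +kernel) ?_
    refine jn 1094 (by decide +kernel) ?_
    refine jn 1097 (by decide +kernel) ?_
    refine jn 1103 (by decide +kernel) ?_
    refine jn 1105 (by decide +kernel) ?_
    refine jn 1107 (by decide +kernel) ?_
    refine jn 1113 (by decide +kernel) ?_
    refine jn 1115 (by decide +kernel) ?_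
    exact je (by decide +kernel)
  · refine fin 11592 1268 T15_1 ?_
    refine jn 8 (by decide +kernel) ?_
    refine jn 11 (by decide +kernel) ?_
    refine jn 15 (by decide +kernel) ?_
    refine jn 20 (by decide +kernel) ?_
    refine jn 24 (by decide +kernel) ?_
    refine jn 28 (by decide +kernel) ?_
    refine jn 32 (by decide +kernel) ?_
    refine jn 36 (by decide +kernel) ?_
    refine jn 40 (by decide +kernel) ?_
    refine jn 44 (by decide +kernel) ?_
    refine jn 48 (by decide +kernel) ?_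
    refine jn 51 (by decide +kernel) ?_
    refine jn 68 (by decide +kernel) ?_
    refine jn 77 (by decide +kernel) ?_
    refine jn 84 (by decide +kernel) ?_
    refine jn 92 (by decide +kernel) ?_
    refine jn 101 (by decide +kernel) ?_
    refine jn 109 (by decide +kernel) ?_
    refine jn 117 (by decide +kernel) ?_
    refine jn 121 (by decide +kernel) ?_
    refine jn 134 (by decide +kernel) ?_
    refine jn 147 (by decide +kernel) ?_
    refine jn 169 (by decide +kernel) ?_
    refine jn 189 (by decide +kernel) ?_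
    refine jn 200 (by decide +kernel) ?_
    refine jn 213 (by decide +kernel) ?_
    refine jn 233 (by decide +kernel) ?_
    refine jn 253 (by decide +kernel) ?_
    refine jn 265 (by decide +kernel) ?_
    refine jn 289 (by decide +kernel) ?_
    refine jn 310 (by decide +kernel) ?_
    refine jn 321 (by decide +kernel) ?_
    refine jn 327 (by decide +kernel) ?_
    refine jn 333 (by decide +kernel) ?_
    refine jn 338 (by decide +kernel) ?_
    refine jn 344 (by decide +kernel) ?_
    refine jn 349 (by decide +kernel) ?_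
    refine jn 358 (by decide +kernel) ?_
    refine jn 367 (by decide +kernel) ?_
    refine jn 371 (by decide +kernel) ?_
    refine jn 382 (by decide +kernel) ?_
    refine jn 396 (by decide +kernel) ?_
    refine jn 407 (by decide +kernel) ?_
    refine jn 420 (by decide +kernel) ?_
    refine jn 445 (by decide +kernel) ?_
    refine jn 458 (by decide +kernel) ?_
    refine jn 480 (by decide +kernel) ?_
    refine jn 513 (by decide +kernel) ?_
    refine jn 521 (by decide +kernel) ?_
    refine jn 523 (by decide +kernel) ?_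
    refine jn 525 (by decide +kernel) ?_
    refine jn 527 (by decide +kernel) ?_
    refine jn 528 (by decide +kernel) ?_
    refine jn 530 (by decide +kernel) ?_
    refine jn 532 (by decide +kernel) ?_
    refine jn 534 (by decide +kernel) ?_
    refine jn 543 (by decide +kernel) ?_
    refine jn 548 (by decide +kernel) ?_
    refine jn 553 (by decide +kernel) ?_
    refine jn 566 (by decide +kernel) ?_
    refine jn 580 (by decide +kernel) ?_
    refine jn 585 (by decide +kernel) ?_
    refine jn 590 (by decide +kernel) ?_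
    refine jn 595 (by decide +kernel) ?_
    refine jn 625 (by decide +kernel) ?_
    refine jn 640 (by decide +kernel) ?_
    refine jn 644 (by decide +kernel) ?_
    refine jn 657 (by decide +kernel) ?_
    refine jn 670 (by decide +kernel) ?_
    refine jn 723 (by decide +kernel) ?_
    refine jn 735 (by decide +kernel) ?_
    refine jn 738 (by decide +kernel) ?_
    refine jn 741 (by decide +kernel) ?_
    refine jn 744 (by decide +kernel) ?_
    refine jn 747 (by decide +kernel) ?_
    refine jn 750 (by decide +kernel) ?_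
    refine jn 756 (by decide +kernel) ?_
    refine jn 761 (by decide +kernel) ?_
    refine jn 787 (by decide +kernel) ?_
    refine jn 797 (by decide +kernel) ?_
    refine jn 802 (by decide +kernel) ?_
    refine jn 811 (by decide +kernel) ?_
    refine jn 820 (by decide +kernel) ?_
    refine jn 823 (by decide +kernel) ?_
    refine jn 826 (by decide +kernel) ?_
    refine jn 829 (by decide +kernel) ?_
    refine jn 832 (by decide +kernel) ?_
    refine jn 836 (by decide +kernel) ?_
    refine jn 842 (by decide +kernel) ?_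
    refine jn 853 (by decide +kernel) ?_
    refine jn 863 (by decide +kernel) ?_
    refine jn 870 (by decide +kernel) ?_
    refine jn 879 (by decide +kernel) ?_
    refine jn 882 (by decide +kernel) ?_
    refine jn 885 (by decide +kernel) ?_
    refine jn 888 (by decide +kernel) ?_
    refine jn 891 (by decide +kernel) ?_
    refine jn 894 (by decide +kernel) ?_
    refine jn 902 (by decide +kernel) ?_
    refine jn 909 (by decide +kernel) ?_
    refine jn 923 (by decide +kernel) ?_
    refine jn 934 (by decide +kernel) ?_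
    refine jn 945 (by decide +kernel) ?_
    refine jn 964 (by decide +kernel) ?_
    refine jn 971 (by decide +kernel) ?_
    refine jn 972 (by decide +kernel) ?_
    refine jn 973 (by decide +kernel) ?_
    refine jn 974 (by decide +kernel) ?_
    refine jn 975 (by decide +kernel) ?_
    refine jn 979 (by decide +kernel) ?_
    refine jn 980 (by decide +kernel) ?_
    refine jn 981 (by decide +kernel) ?_
    refine jn 982 (by decide +kernel) ?_
    refine jn 983 (by decide +kernel) ?_
    refine jn 984 (by decide +kernel) ?_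
    refine jn 985 (by decide +kernel) ?_
    refine jn 986 (by decide +kernel) ?_
    refine jn 987 (by decide +kernel) ?_
    refine jn 988 (by decide +kernel) ?_
    refine jn 989 (by decide +kernel) ?_
    refine jn 990 (by decide +kernel) ?_
    refine jn 991 (by decide +kernel) ?_
    refine jn 992 (by decide +kernel) ?_
    refine jn 997 (by decide +kernel) ?_
    refine jn 1002 (by decide +kernel) ?_
    refine jn 1007 (by decide +kernel) ?_
    refine jn 1013 (by decide +kernel) ?_
    refine jn 1022 (by decide +kernel) ?_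
    refine jn 1024 (by decide +kernel) ?_
    refine jn 1026 (by decide +kernel) ?_
    refine jn 1031 (by decide +kernel) ?_
    refine jn 1035 (by decide +kernel) ?_
    refine jn 1044 (by decide +kernel) ?_
    refine jn 1051 (by decide +kernel) ?_
    refine jn 1059 (by decide +kernel) ?_
    refine jn 1062 (by decide +kernel) ?_
    refine jn 1064 (by decide +kernel) ?_
    refine jn 1069 (by decide +kernel) ?_
    refine jn 1080 (by decide +kernel) ?_
    refine jn 1093 (by decide +kernel) ?_
    refine jn 1101 (by decide +kernel) ?_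
    refine jn 1104 (by decide +kernel) ?_
    refine jn 1105 (by decide +kernel) ?_
    refine jn 1113 (by decide +kernel) ?_
    refine jn 1122 (by decide +kernel) ?_
    refine jn 1130 (by decide +kernel) ?_
    refine jn 1138 (by decide +kernel) ?_
    refine jn 1143 (by decide +kernel) ?_
    refine jn 1152 (by decide +kernel) ?_
    refine jn 1157 (by decide +kernel) ?_
    refine jn 1175 (by decide +kernel) ?_
    refine jn 1188 (by decide +kernel) ?_
    refine jn 1197 (by decide +kernel) ?_
    refine jn 1201 (by decide +kernel) ?_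
    refine jn 1210 (by decide +kernel) ?_
    refine jn 1221 (by decide +kernel) ?_
    refine jn 1224 (by decide +kernel) ?_
    refine jn 1225 (by decide +kernel) ?_
    refine jn 1226 (by decide +kernel) ?_
    refine jn 1229 (by decide +kernel) ?_
    refine jn 1230 (by decide +kernel) ?_
    refine jn 1232 (by decide +kernel) ?_
    refine jn 1234 (by decide +kernel) ?_
    refine jn 1240 (by decide +kernel) ?_
    refine jn 1253 (by decide +kernel) ?_
    refine jn 1259 (by decide +kernel) ?_
    exact je (by decide +kernel)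

end Pool.Agent.MP_2339ce_nt.NR
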