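import Pool.Agent.MP_2339ce_nt.Q2.NC.L10
import Pool.Agent.MP_2339ce_nt.Q2.CkI

/-! Block NR: runs. -/

set_option autoImplicit false
set_option maxRecDepth 100000

noncomputable section

namespace Pool.Agent.MP_2339ce_nt.NR

open Q2.Top

def T17_0 : Ph :=
  (.na 1061 6 (.na 633 2 (.nx 632 3329023 (.nr 631 881745 (.nx 3 226 (.nx 2 225 (.nr 1 16 (.lg 0
  true 1 43 43 5 0 360) (.l1 .sk)) (.l1 .sk)) (.nx 76 3250 (.nr 47 110219 (.lg 0 false 44 89 97 16
  0 7920) (.nx 75 408 (.lg 0 false 28 83 89 11 0 5040) .out)) (.nr 630 220437 (.nx 585 1664512 (.nx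
  153 26009 (.lg 0 false 77 101 107 16 0 720720) (.nr 584 185365 (.nr 293 8193 (.nr 230 942 (.lg 0
  true 77 97 103 16 0 720720) (.nr 258 1724 (.lg 2 true 28 89 101 11 198788 65520) (.nx 292 1321124
  (.nr 269 2898 (.lg 2 true 11 97 97 9 86211 3960) (.nx 291 1048577 (.nr 280 4872 (.lg 2 true 11 97
  97 9 40706 3960) (.lg 2 true 11 101 103 9 24213 720720)) .out)) .out))) (.nx 583 832257 (.nx 448
  65537 (.nx 370 41287 (.lg 0 false 77 101 107 16 0 720720) (.nr 447 155873 (.lg 1 false 77 97 109
  16 95703 720720) .out)) (.nr 582 110219 (.nr 492 46342 (.lg 2 false 44 101 107 16 17986 720720)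
  (.nx 581 524289 (.nr 536 77937 (.lg 2 false 44 101 107 16 30189 720720) (.nx 580 262145 (.lg 2
  true 44 101 107 16 42658 720720) .out)) .out)) .out)) .out)) .out)) (.nr 629 154 (.lg 0 true 44
  83 89 16 0 7920) .out)) .out))) .out) .out) (.na 1060 3 (.nx 1059 3329023 (.nr 1058 1763489 (.nx
  636 226 (.nx 635 225 (.nr 634 29 (.lg 0 false 1 43 43 5 0 9360) (.l1 .sk)) (.l1 .sk)) (.nx 1023
  1321124 (.nx 1011 1048577 (.nx 736 52017 (.nr 713 311745 (.lg 0 false 77 101 109 13 0 720720)
  (.nx 735 408 (.lg 0 false 22 83 83 11 0 7920) .out)) (.nr 1010 262145 (.nr 758 941 (.lg 0 true 22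
  89 97 11 0 7920) (.nr 769 3446 (.lg 2 true 11 97 97 9 125362 7920) (.nx 1009 832257 (.nr 776 6599
  (.lg 2 true 7 89 89 9 27171 5040) (.nx 853 82572 (.lg 1 false 77 97 107 13 127676 720720) (.nr
  1008 220437 (.nx 930 165142 (.lg 1 true 77 97 107 13 67645 720720) (.nr 1007 155873 (.lg 2 false
  77 97 107 13 23927 720720) .out)) .out))) .out))) .out)) (.nr 1022 257 (.lg 0 true 11 83 83 9 0
  7920) .out)) (.nr 1057 154 (.nx 1045 2642247 (.lg 0 true 22 83 83 11 0 7920) (.nr 1056 9 (.lg 0
  true 11 67 67 9 0 7920) .out)) .out))) .out) .out) .ne)) (.na 1249 7 (.nx 1248 21137969 (.nr 1247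
  1048577 (.nx 1193 1321124 (.nx 1064 226 (.nx 1063 225 (.nr 1062 73 (.lg 0 true 1 37 37 7 0 720)
  (.l1 .sk)) (.l1 .sk)) (.nx 1098 52015 (.nr 1086 220437 (.lg 0 false 22 101 107 17 0 720720) (.nx
  1097 814 (.lg 0 false 11 79 79 13 0 7920) .out)) (.nr 1192 311745 (.nr 1111 941 (.lg 0 true 13 83
  83 13 0 9360) (.nx 1191 832257 (.nr 1118 6606 (.lg 2 true 7 89 89 13 99500 5040) (.nx 1177 262145
  (.nx 1165 208065 (.nx 1132 82570 (.nr 1131 262145 (.lg 1 false 13 101 103 13 127681 720720) .out)
  (.nx 1154 152899 (.nx 1143 112360 (.lg 1 false 11 97 101 13 95638 7920) (.lg 1 false 11 101 103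
  13 70282 720720)) (.lg 1 true 11 101 103 13 51647 720720))) (.nr 1176 262145 (.lg 1 true 11 89 97
  13 31920 7920) .out)) (.nr 1190 131073 (.lg 2 false 13 89 97 13 14174 9360) .out))) .out))
  .out))) (.nr 1246 154 (.nr 1232 45 (.lg 0 true 39 73 73 13 0 9360) (.nx 1245 2642247 (.lg 0 true
  13 71 71 13 0 9360) .out)) .out)) .out) .out) (.na 1250 9 .ne (.nx 1394 21137969 (.nr 1393
  1482912 (.nx 1253 226 (.nx 1252 225 (.nr 1251 106 (.lg 0 true 1 31 31 13 0 360) (.l1 .sk)) (.l1
  .sk)) (.nr 1385 370729 (.nx 1273 32768 (.nr 1264 220437 (.lg 0 false 11 97 103 16 0 102960) (.nx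
  1272 6503 (.nx 1268 2582 (.lg 0 false 4 83 89 16 0 720) (.nx 1269 3250 .out (.nr 1271 262145 (.lg
  0 false 2 83 89 16 0 720) .out))) .out)) (.nx 1348 1321124 (.nr 1280 1227 (.lg 0 true 7 89 89 16
  0 2520) (.nr 1288 19534 (.nr 1284 4896 (.lg 2 true 4 83 89 16 121130 720) (.lg 2 true 4 89 97 16
  30357 9360)) (.nx 1296 52015 (.nr 1295 262145 (.lg 1 false 7 101 103 16 202678 65520) .out) (.nx
  1340 330282 (.nx 1318 131072 (.nr 1317 311745 (.nx 1310 96319 (.nx 1303 70781 (.lg 1 false 7 97
  103 16 151819 65520) (.lg 1 false 7 97 103 16 111567 65520)) (.lg 1 false 7 97 103 16 81986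
  65520)) .out) (.nx 1332 262145 (.nx 1325 185364 (.lg 1 false 7 101 103 16 71639 65520) (.lg 1
  true 7 101 103 16 50656 65520)) (.nr 1339 185365 (.lg 1 true 7 89 101 16 17921 65520) .out)))
  (.nr 1347 110219 (.lg 2 false 7 89 101 16 8465 65520) .out))))) (.nr 1384 154 (.nx 1355 2642247
  (.lg 0 true 7 73 79 16 0 2520) (.nr 1383 65 (.lg 0 true 28 83 83 16 0 5040) .out)) .out))) (.nx
  1392 814 (.lg 0 false 7 83 83 16 0 2520) .out))) .out) .out))))

def T17_1 : Ph :=
  (.na 571 10 (.na 224 7 (.na 223 6 (.nx 222 21137969 (.nr 221 1482912 (.nx 3 221 (.nx 2 220 (.nr 1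
  62 (.lg 0 true 1 37 37 9 0 9240) (.l1 .sk)) (.l1 .sk)) (.nx 173 2642247 (.nx 56 65536 (.nr 42
  220437 (.lg 0 false 39 101 107 16 0 720720) (.nx 55 408 (.lg 0 false 13 73 73 16 0 17160) .out))
  (.nr 172 311745 (.nx 155 660563 (.nr 69 829 (.lg 0 true 13 83 83 16 0 120120) (.nr 78 6200 (.lg 2
  true 9 89 89 13 87651 27720) (.nx 145 262145 (.nx 131 208065 (.nx 105 112360 (.nx 92 82570 (.nr
  91 262145 (.lg 1 false 13 101 103 16 96883 720720) .out) (.lg 1 false 13 101 103 16 91433
  720720)) (.nx 118 152899 (.lg 1 false 13 101 103 16 67192 720720) (.lg 1 true 13 101 103 16 49377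
  720720))) (.nr 144 262145 (.lg 1 true 13 101 103 16 30516 720720) .out)) (.nr 154 131073 (.lg 2
  false 9 97 97 13 12121 27720) .out)))) (.nr 171 217 (.lg 0 true 16 79 79 16 0 2640) .out)) .out))
  (.nr 220 24 (.nx 188 5284493 (.lg 0 true 15 67 67 11 0 3960) (.lg 0 true 32 73 73 11 0 2640))
  .out))) .out) .out) .ne) (.na 416 8 (.nx 415 21137969 (.nr 414 1246976 (.nx 263 41285 (.nx 227
  221 (.nx 226 220 (.nr 225 83 (.lg 0 false 1 37 37 9 0 27720) (.l1 .sk)) (.l1 .sk)) (.nr 256
  741457 (.nr 249 262145 (.nr 240 185365 (.lg 0 false 13 103 107 16 0 720720) (.nx 248 32769 (.nx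
  243 2582 (.lg 0 false 3 89 89 11 0 27720) (.nx 244 20642 .out (.nr 247 220437 (.lg 0 false 3 97
  97 11 0 27720) .out))) .out)) (.nx 255 814 (.lg 0 false 6 89 89 16 0 55440) .out)) (.nx 262 324
  (.lg 0 false 6 79 79 16 0 55440) .out))) (.nr 413 311745 (.nr 325 642 (.nx 276 1321124 (.lg 0
  true 13 83 89 16 0 120120) (.nr 324 154 (.nr 315 47 (.lg 0 true 39 83 83 16 0 360360) (.nx 323
  2642247 (.lg 0 true 8 79 79 16 0 18480) .out)) .out)) (.nx 412 832257 (.nr 333 12496 (.nr 330
  2833 (.lg 2 true 5 83 89 16 142599 9240) (.lg 2 true 3 97 97 11 32315 27720)) (.nx 361 82570 (.nr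
  360 262145 (.nx 347 52015 (.nr 346 220437 (.lg 1 false 13 97 103 16 129344 720720) .out) (.lg 1
  false 13 101 107 16 122067 720720)) .out) (.nx 387 178361 (.nx 374 121356 (.lg 1 false 13 101 107
  16 91433 720720) (.lg 1 false 13 101 107 16 62211 720720)) (.nx 400 262145 (.lg 1 true 13 101 107
  16 42328 720720) (.nr 411 155873 (.nx 406 330282 (.lg 1 true 6 101 103 16 14410 720720) (.nr 410
  65537 (.lg 2 false 4 97 97 13 7327 18480) .out)) .out))))) .out)) .out)) .out) .out) (.na 570 9
  (.nx 569 21137969 (.nr 568 1482912 (.nx 419 221 (.nx 418 220 (.nr 417 94 (.lg 0 false 1 37 37 9 0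
  2640) (.l1 .sk)) (.l1 .sk)) (.nx 452 46340 (.nr 440 262145 (.lg 0 false 21 101 107 19 0 720720)
  (.nx 451 2582 (.nr 443 370729 (.lg 0 false 3 89 89 11 0 7920) (.nx 450 814 (.lg 0 false 7 89 89
  13 0 18480) .out)) .out)) (.nr 567 311745 (.nx 523 1321124 (.nr 461 1227 (.lg 0 true 9 89 89 13 0
  7920) (.nx 469 65536 (.nr 468 262145 (.lg 1 false 7 101 103 13 137016 720720) .out) (.nx 476
  92681 (.lg 1 false 7 101 107 13 115198 720720) (.nr 483 4896 (.lg 2 true 7 83 89 13 118439 18480)
  (.nx 490 131072 (.lg 1 false 7 101 107 13 81458 720720) (.nx 511 262145 (.lg 1 true 21 97 107 19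
  57599 720720) (.nr 522 185365 (.nr 513 9779 (.lg 2 false 2 89 89 11 29683 2640) (.lg 2 false 9
  101 107 13 17133 720720)) .out))))))) (.nr 566 154 (.nx 530 2642247 (.lg 0 true 7 79 79 13 0
  18480) (.nr 565 55 (.lg 0 true 35 79 83 13 0 18480) .out)) .out)) .out))) .out) .out) .ne))) (.na
  766 13 (.na 670 11 (.nx 669 2642247 (.nr 668 1246976 (.nx 660 1321124 (.nx 609 65536 (.nx 573 220
  (.nr 572 115 (.lg 0 true 1 31 31 9 0 2640) (.l1 .sk)) (.nx 574 221 (.l1 .sk) (.nx 575 324 (.l1
  (.ls 83 47 5616)) (.nr 608 1048577 (.nx 576 408 (.l1 (.ls 83 47 6151)) (.nr 607 741457 (.nr 597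
  262145 (.lg 0 false 21 101 103 19 0 720720) (.nx 606 1292 (.lg 0 false 9 79 79 13 0 7920) .out))
  .out)) .out)))) (.nr 659 311745 (.nr 622 1010 (.lg 0 true 13 83 83 13 0 34320) (.nr 631 8872 (.lg
  2 true 9 89 89 13 143885 7920) (.nx 640 131072 (.lg 1 false 9 101 103 13 115198 720720) (.nx 649
  262145 (.lg 1 true 9 101 103 13 57599 720720) (.nr 658 185365 (.lg 2 false 9 97 97 13 17133 7920)
  .out))))) .out)) (.nr 667 65 (.lg 0 true 7 67 67 13 0 18480) .out)) .out) .out) (.na 765 12 (.nx
  764 2642247 (.nr 763 1246976 (.nx 676 408 (.nx 672 220 (.nr 671 126 (.lg 0 true 1 31 31 9 0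
  27720) (.l1 .sk)) (.nx 673 221 (.l1 .sk) (.nx 674 324 (.l1 (.ls 79 41 5106)) (.nr 675 1048577
  (.l1 (.ls 79 41 5592)) .out)))) (.nr 762 741457 (.nx 754 1321124 (.nx 697 65536 (.nr 689 262145
  (.lg 0 false 13 101 103 16 0 360360) (.nx 696 1292 (.lg 0 false 7 73 73 16 0 9240) .out)) (.nr
  753 311745 (.nr 710 1073 (.lg 0 true 13 79 79 16 0 17160) (.nr 717 9147 (.lg 2 true 7 83 83 16
  135437 9240) (.nx 730 131072 (.lg 1 false 13 101 103 16 115198 720720) (.nx 743 262145 (.lg 1
  true 13 101 103 16 57599 720720) (.nr 752 185365 (.lg 2 false 9 83 89 16 17133 3960) .out)))))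
  .out)) (.nr 761 65 (.lg 0 true 7 61 61 9 0 9240) .out)) .out)) .out) .out) .ne)) (.na 840 14 (.nx
  839 2642247 (.nr 838 1246976 (.nx 830 660563 (.nx 770 324 (.nx 768 220 (.nr 767 147 (.lg 0 true 1
  31 31 9 0 17160) (.l1 .sk)) (.nx 769 221 (.l1 .sk) (.l1 (.ls 83 37 4321)))) (.nr 829 1048577 (.nx
  787 41285 (.nx 771 408 (.l1 (.ls 83 41 4732)) (.nr 786 741457 (.nr 778 220437 (.lg 0 false 7 103
  107 16 0 720720) (.nx 785 1627 (.lg 0 false 7 83 83 16 0 120120) .out)) .out)) (.nr 828 311745
  (.nr 794 1122 (.lg 0 true 7 83 83 16 0 120120) (.nx 802 82570 (.nr 801 262145 (.lg 1 false 7 101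
  103 16 153793 720720) .out) (.nr 804 4355 (.lg 2 false 2 83 83 11 64762 34320) (.nx 811 116772
  (.lg 1 false 7 101 103 16 91433 720720) (.nx 818 208065 (.lg 1 true 7 101 103 16 64653 720720)
  (.nr 827 220437 (.lg 2 false 9 101 103 16 25665 720720) .out)))))) .out)) .out)) (.nr 837 65 (.lg
  0 true 7 71 71 16 0 120120) .out)) .out) .out) (.na 919 16 (.nx 918 2642247 (.nr 917 1246976 (.nx
  846 408 (.nx 844 324 (.nx 842 220 (.nr 841 168 (.lg 0 true 1 31 31 11 0 18480) (.l1 .sk)) (.nx
  843 221 (.l1 .sk) (.l1 (.ls 89 43 4012)))) (.nr 845 1048577 (.l1 (.ls 89 43 4395)) .out)) (.nr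
  916 741457 (.nx 866 41285 (.nr 859 220437 (.lg 0 false 13 97 103 19 0 720720) (.nx 865 1627 (.lg
  0 false 6 83 89 13 0 55440) .out)) (.nr 915 311745 (.nx 907 660563 (.nr 872 1227 (.lg 0 true 6 83
  83 13 0 55440) (.nx 891 165142 (.nx 882 82570 (.nr 881 262145 (.lg 1 false 9 97 103 19 153793
  55440) .out) (.lg 1 false 9 97 103 19 91433 55440)) (.nr 906 262145 (.nr 893 4622 (.lg 2 false 2
  83 83 13 59220 18480) (.nx 896 208065 (.lg 1 true 3 101 101 13 38448 55440) (.nr 905 220437 (.lg
  2 false 9 97 101 19 25665 55440) .out))) .out))) (.nr 914 65 (.lg 0 true 7 71 71 13 0 18480)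
  .out)) .out)) .out)) .out) .out) (.nx 1004 2642247 (.nr 1003 1246976 (.nr 920 7 .s1 (.nx 923 221
  (.nx 922 220 (.nr 921 178 (.lg 0 true 1 41 41 11 0 55440) (.l1 .sk)) (.l1 .sk)) (.nr 971 185365
  (.nx 967 660563 (.nr 945 65537 (.nr 931 3415 (.nr 929 1631 (.lg 0 true 6 83 83 19 0 7920) (.nx
  930 24201 (.lg 0 false 1 79 79 11 0 2640) (.lg 2 false 1 83 83 11 44551 18480))) (.nx 934 31609
  (.lg 0 false 3 101 107 13 0 720720) (.nr 938 31313 (.lg 2 true 4 79 79 13 24143 2640) (.lg 2 true
  7 83 83 19 50345 18480)))) (.nx 966 524289 (.nx 962 416129 (.nx 958 330282 (.lg 0 true 13 101 107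
  23 0 720720) (.nr 961 92683 (.lg 0 true 3 103 103 13 0 720720) .out)) (.nr 965 77937 (.lg 0 true
  3 101 103 13 0 720720) .out)) .out)) (.nr 970 129 (.lg 0 true 3 79 79 13 0 7920) .out)) (.nx 1002
  262145 (.nr 998 741457 (.nr 994 311745 (.nx 975 20642 (.nx 974 13005 (.lg 0 false 3 101 103 13 0
  720720) .out) (.nr 989 262145 (.nr 981 220437 (.lg 0 true 6 101 107 19 0 720720) (.nx 982 41285
  .out (.nx 988 208065 (.lg 0 true 6 101 107 19 0 720720) .out))) (.nx 990 82570 .out (.nx 993
  165142 (.lg 0 true 3 103 107 13 0 720720) .out)))) (.nx 997 1627 (.lg 0 false 3 97 97 13 0 55440)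
  .out)) (.nx 1001 408 (.lg 0 false 3 79 79 13 0 7920) .out)) .out)))) .out) .out)))))

theorem c17 :
    OkQ ckI L10 225 1 10 0 34359738368 1 1099511627776 ∧
    OkQ ckI L10 220 5 17 0 34359738368 1 1099511627776 := by
  refine ⟨?_, ?_⟩
  · refine fin 360 1395 T17_0 ?_
    refine jn 8 (by decide +kernel) ?_
    refine jn 12 (by decide +kernel) ?_
    refine jn 18 (by decide +kernel) ?_
    refine jn 22 (by decide +kernel) ?_
    refine jn 30 (by decide +kernel) ?_
    refine jn 34 (by decide +kernel) ?_
    refine jn 40 (by decide +kernel) ?_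
    refine jn 44 (by decide +kernel) ?_
    refine jn 75 (by decide +kernel) ?_
    refine jn 85 (by decide +kernel) ?_
    refine jn 93 (by decide +kernel) ?_
    refine jn 103 (by decide +kernel) ?_
    refine jn 112 (by decide +kernel) ?_
    refine jn 122 (by decide +kernel) ?_
    refine jn 131 (by decide +kernel) ?_
    refine jn 139 (by decide +kernel) ?_
    refine jn 148 (by decide +kernel) ?_
    refine jn 153 (by decide +kernel) ?_
    refine jn 165 (by decide +kernel) ?_
    refine jn 177 (by decide +kernel) ?_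
    refine jn 190 (by decide +kernel) ?_
    refine jn 203 (by decide +kernel) ?_
    refine jn 216 (by decide +kernel) ?_
    refine jn 229 (by decide +kernel) ?_
    refine jn 230 (by decide +kernel) ?_
    refine jn 258 (by decide +kernel) ?_
    refine jn 280 (by decide +kernel) ?_
    refine jn 302 (by decide +kernel) ?_
    refine jn 320 (by decide +kernel) ?_
    refine jn 338 (by decide +kernel) ?_
    refine jn 355 (by decide +kernel) ?_
    refine jn 370 (by decide +kernel) ?_
    refine jn 390 (by decide +kernel) ?_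
    refine jn 410 (by decide +kernel) ?_
    refine jn 431 (by decide +kernel) ?_
    refine jn 447 (by decide +kernel) ?_
    refine jn 469 (by decide +kernel) ?_
    refine jn 491 (by decide +kernel) ?_
    refine jn 508 (by decide +kernel) ?_
    refine jn 528 (by decide +kernel) ?_
    refine jn 536 (by decide +kernel) ?_
    refine jn 550 (by decide +kernel) ?_
    refine jn 564 (by decide +kernel) ?_
    refine jn 578 (by decide +kernel) ?_
    refine jn 585 (by decide +kernel) ?_
    refine jn 614 (by decide +kernel) ?_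
    refine jn 629 (by decide +kernel) ?_
    refine jn 646 (by decide +kernel) ?_
    refine jn 655 (by decide +kernel) ?_
    refine jn 663 (by decide +kernel) ?_
    refine jn 671 (by decide +kernel) ?_
    refine jn 678 (by decide +kernel) ?_
    refine jn 688 (by decide +kernel) ?_
    refine jn 696 (by decide +kernel) ?_
    refine jn 706 (by decide +kernel) ?_
    refine jn 735 (by decide +kernel) ?_
    refine jn 747 (by decide +kernel) ?_
    refine jn 758 (by decide +kernel) ?_
    refine jn 776 (by decide +kernel) ?_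
    refine jn 797 (by decide +kernel) ?_
    refine jn 817 (by decide +kernel) ?_
    refine jn 835 (by decide +kernel) ?_
    refine jn 853 (by decide +kernel) ?_
    refine jn 872 (by decide +kernel) ?_
    refine jn 892 (by decide +kernel) ?_
    refine jn 912 (by decide +kernel) ?_
    refine jn 930 (by decide +kernel) ?_
    refine jn 950 (by decide +kernel) ?_
    refine jn 970 (by decide +kernel) ?_
    refine jn 991 (by decide +kernel) ?_
    refine jn 1007 (by decide +kernel) ?_
    refine jn 1022 (by decide +kernel) ?_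
    refine jn 1045 (by decide +kernel) ?_
    refine jn 1070 (by decide +kernel) ?_
    refine jn 1081 (by decide +kernel) ?_
    refine jn 1097 (by decide +kernel) ?_
    refine jn 1111 (by decide +kernel) ?_
    refine jn 1131 (by decide +kernel) ?_
    refine jn 1154 (by decide +kernel) ?_
    refine jn 1176 (by decide +kernel) ?_
    refine jn 1232 (by decide +kernel) ?_
    refine jn 1251 (by decide +kernel) ?_
    refine jn 1253 (by decide +kernel) ?_
    refine jn 1254 (by decide +kernel) ?_
    refine jn 1256 (by decide +kernel) ?_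
    refine jn 1257 (by decide +kernel) ?_
    refine jn 1258 (by decide +kernel) ?_
    refine jn 1259 (by decide +kernel) ?_
    refine jn 1260 (by decide +kernel) ?_
    refine jn 1261 (by decide +kernel) ?_
    refine jn 1262 (by decide +kernel) ?_
    refine jn 1263 (by decide +kernel) ?_
    refine jn 1264 (by decide +kernel) ?_
    refine jn 1271 (by decide +kernel) ?_
    refine jn 1275 (by decide +kernel) ?_
    refine jn 1277 (by decide +kernel) ?_
    refine jn 1279 (by decide +kernel) ?_
    refine jn 1280 (by decide +kernel) ?_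
    refine jn 1284 (by decide +kernel) ?_
    refine jn 1288 (by decide +kernel) ?_
    refine jn 1293 (by decide +kernel) ?_
    refine jn 1296 (by decide +kernel) ?_
    refine jn 1303 (by decide +kernel) ?_
    refine jn 1310 (by decide +kernel) ?_
    refine jn 1317 (by decide +kernel) ?_
    refine jn 1323 (by decide +kernel) ?_
    refine jn 1325 (by decide +kernel) ?_
    refine jn 1330 (by decide +kernel) ?_
    refine jn 1332 (by decide +kernel) ?_
    refine jn 1339 (by decide +kernel) ?_
    refine jn 1347 (by decide +kernel) ?_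
    refine jn 1355 (by decide +kernel) ?_
    refine jn 1373 (by decide +kernel) ?_
    refine jn 1392 (by decide +kernel) ?_
    exact je (by decide +kernel)
  · refine fin 1320 1005 T17_1 ?_
    refine jn 14 (by decide +kernel) ?_
    refine jn 26 (by decide +kernel) ?_
    refine jn 37 (by decide +kernel) ?_
    refine jn 55 (by decide +kernel) ?_
    refine jn 69 (by decide +kernel) ?_
    refine jn 91 (by decide +kernel) ?_
    refine jn 118 (by decide +kernel) ?_
    refine jn 144 (by decide +kernel) ?_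
    refine jn 171 (by decide +kernel) ?_
    refine jn 220 (by decide +kernel) ?_
    refine jn 229 (by decide +kernel) ?_
    refine jn 231 (by decide +kernel) ?_
    refine jn 233 (by decide +kernel) ?_
    refine jn 235 (by decide +kernel) ?_
    refine jn 237 (by decide +kernel) ?_
    refine jn 239 (by decide +kernel) ?_
    refine jn 243 (by decide +kernel) ?_
    refine jn 255 (by decide +kernel) ?_
    refine jn 266 (by decide +kernel) ?_
    refine jn 271 (by decide +kernel) ?_
    refine jn 276 (by decide +kernel) ?_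
    refine jn 315 (by decide +kernel) ?_
    refine jn 323 (by decide +kernel) ?_
    refine jn 330 (by decide +kernel) ?_
    refine jn 333 (by decide +kernel) ?_
    refine jn 346 (by decide +kernel) ?_
    refine jn 360 (by decide +kernel) ?_
    refine jn 374 (by decide +kernel) ?_
    refine jn 387 (by decide +kernel) ?_
    refine jn 400 (by decide +kernel) ?_
    refine jn 410 (by decide +kernel) ?_
    refine jn 422 (by decide +kernel) ?_
    refine jn 426 (by decide +kernel) ?_
    refine jn 430 (by decide +kernel) ?_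
    refine jn 433 (by decide +kernel) ?_
    refine jn 436 (by decide +kernel) ?_
    refine jn 439 (by decide +kernel) ?_
    refine jn 450 (by decide +kernel) ?_
    refine jn 456 (by decide +kernel) ?_
    refine jn 460 (by decide +kernel) ?_
    refine jn 468 (by decide +kernel) ?_
    refine jn 476 (by decide +kernel) ?_
    refine jn 483 (by decide +kernel) ?_
    refine jn 490 (by decide +kernel) ?_
    refine jn 501 (by decide +kernel) ?_
    refine jn 511 (by decide +kernel) ?_
    refine jn 522 (by decide +kernel) ?_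
    refine jn 530 (by decide +kernel) ?_
    refine jn 565 (by decide +kernel) ?_
    refine jn 587 (by decide +kernel) ?_
    refine jn 597 (by decide +kernel) ?_
    refine jn 622 (by decide +kernel) ?_
    refine jn 640 (by decide +kernel) ?_
    refine jn 658 (by decide +kernel) ?_
    refine jn 676 (by decide +kernel) ?_
    refine jn 689 (by decide +kernel) ?_
    refine jn 710 (by decide +kernel) ?_
    refine jn 730 (by decide +kernel) ?_
    refine jn 752 (by decide +kernel) ?_
    refine jn 769 (by decide +kernel) ?_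
    refine jn 771 (by decide +kernel) ?_
    refine jn 775 (by decide +kernel) ?_
    refine jn 778 (by decide +kernel) ?_
    refine jn 787 (by decide +kernel) ?_
    refine jn 793 (by decide +kernel) ?_
    refine jn 801 (by decide +kernel) ?_
    refine jn 811 (by decide +kernel) ?_
    refine jn 818 (by decide +kernel) ?_
    refine jn 827 (by decide +kernel) ?_
    refine jn 837 (by decide +kernel) ?_
    refine jn 846 (by decide +kernel) ?_
    refine jn 851 (by decide +kernel) ?_
    refine jn 856 (by decide +kernel) ?_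
    refine jn 865 (by decide +kernel) ?_
    refine jn 871 (by decide +kernel) ?_
    refine jn 881 (by decide +kernel) ?_
    refine jn 891 (by decide +kernel) ?_
    refine jn 896 (by decide +kernel) ?_
    refine jn 905 (by decide +kernel) ?_
    refine jn 914 (by decide +kernel) ?_
    refine jn 923 (by decide +kernel) ?_
    refine jn 924 (by decide +kernel) ?_
    refine jn 925 (by decide +kernel) ?_
    refine jn 926 (by decide +kernel) ?_
    refine jn 927 (by decide +kernel) ?_
    refine jn 928 (by decide +kernel) ?_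
    refine jn 929 (by decide +kernel) ?_
    refine jn 930 (by decide +kernel) ?_
    refine jn 931 (by decide +kernel) ?_
    refine jn 934 (by decide +kernel) ?_
    refine jn 935 (by decide +kernel) ?_
    refine jn 936 (by decide +kernel) ?_
    refine jn 937 (by decide +kernel) ?_
    refine jn 938 (by decide +kernel) ?_
    refine jn 939 (by decide +kernel) ?_
    refine jn 940 (by decide +kernel) ?_
    refine jn 941 (by decide +kernel) ?_
    refine jn 942 (by decide +kernel) ?_
    refine jn 943 (by decide +kernel) ?_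
    refine jn 944 (by decide +kernel) ?_
    refine jn 945 (by decide +kernel) ?_
    refine jn 946 (by decide +kernel) ?_
    refine jn 947 (by decide +kernel) ?_
    refine jn 948 (by decide +kernel) ?_
    refine jn 949 (by decide +kernel) ?_
    refine jn 950 (by decide +kernel) ?_
    refine jn 951 (by decide +kernel) ?_
    refine jn 952 (by decide +kernel) ?_
    refine jn 953 (by decide +kernel) ?_
    refine jn 954 (by decide +kernel) ?_
    refine jn 955 (by decide +kernel) ?_
    refine jn 956 (by decide +kernel) ?_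
    refine jn 957 (by decide +kernel) ?_
    refine jn 958 (by decide +kernel) ?_
    refine jn 961 (by decide +kernel) ?_
    refine jn 967 (by decide +kernel) ?_
    refine jn 970 (by decide +kernel) ?_
    refine jn 975 (by decide +kernel) ?_
    refine jn 977 (by decide +kernel) ?_
    refine jn 979 (by decide +kernel) ?_
    refine jn 981 (by decide +kernel) ?_
    refine jn 985 (by decide +kernel) ?_
    refine jn 988 (by decide +kernel) ?_
    refine jn 992 (by decide +kernel) ?_
    refine jn 997 (by decide +kernel) ?_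
    exact je (by decide +kernel)

end Pool.Agent.MP_2339ce_nt.NR
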