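import Pool.Agent.MP_2339ce_nt.Q2.NC.L9
import Pool.Agent.MP_2339ce_nt.Q2.NC.L10
import Pool.Agent.MP_2339ce_nt.Q2.CkI

/-! Block NR: runs. -/

set_option autoImplicit false
set_option maxRecDepth 100000

noncomputable section

namespace Pool.Agent.MP_2339ce_nt.NR

open Q2.Top

def T19_0 : Ph :=
  (.na 3313 2048 (.na 1257 1024 (.na 655 725 (.nx 654 1321124 (.nr 653 1482912 (.nr 1 512 .s1 (.nx
  226 225 (.nx 225 224 (.nr 224 7682 (.lx (.lp 37 23 182)) (.l1 .sk)) (.l1 .sk)) (.nx 439 26009
  (.la (.lg 0 false 1 79 79 29 0)) (.nr 652 32769 (.la (.lg 2 true 1 71 71 29 288996)) .out))))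
  .out) .out) (.nx 1256 20644 (.nr 1255 2097153 (.nr 656 725 .s1 (.nx 955 2049 (.la (.ls 73 41
  5793)) (.nr 1254 262145 (.la (.lg 0 false 1 61 61 29 0)) .out))) .out) .out)) (.na 2111 1449 (.nx
  2110 20644 (.nr 2109 2097153 (.nr 1258 1024 .s1 (.nx 1683 3252 (.la (.ls 71 41 10330)) (.nr 2108
  131073 (.la (.lg 0 false 1 53 59 31 0)) .out))) .out) .out) (.nx 3312 13005 (.nr 3311 2097153
  (.nr 2112 1449 .s1 (.nx 2711 3252 (.la (.ls 71 41 7301)) (.nr 3310 16385 (.la (.lg 0 false 1 31
  37 31 0)) .out))) .out) .out))) (.na 6667 4096 (.na 5240 2897 (.nx 5239 13005 (.nr 5238 2097153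
  (.nr 3314 2048 .s1 (.nx 3539 225 (.nx 3538 224 (.nr 3537 30694 (.lx (.lp 37 29 725)) (.l1 .sk))
  (.l1 .sk)) (.nx 4388 3252 (.la (.ls 67 41 5142)) (.nr 5237 16385 (.la (.ls 37 53 77422)) .out))))
  .out) .out) (.nx 6666 4097 (.nr 6665 1048577 (.nr 5241 2897 .s1 (.nx 5466 225 (.nx 5465 224 (.nr
  5464 43397 (.lx (.lp 37 31 1025)) (.l1 .sk)) (.l1 .sk)) (.la (.ls 61 41 5779)))) .out) .out))
  (.na 8592 5793 (.nx 8591 5162 (.nr 8590 1048577 (.nr 6668 4096 .s1 (.nx 6892 224 (.nr 6891 61376
  (.lx (.lp 41 31 1449)) (.l1 .sk)) (.nx 6893 225 (.l1 .sk) (.la (.ls 59 41 6496))))) .out) .out)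
  (.na 11219 8192 (.nx 11218 2049 (.nr 11217 524289 (.nr 8593 5793 .s1 (.nx 8817 224 (.nr 8816
  86793 (.lx (.lp 41 37 2049)) (.l1 .sk)) (.nx 8818 225 (.l1 .sk) (.la (.ls 47 37 2049))))) .out)
  .out) (.nx 13271 2049 (.nr 13270 524289 (.nr 11220 8192 .s1 (.nx 12512 1292 (.nx 12244 1025 (.lx
  (.lp 47 41 2897)) (.nr 12511 262145 (.lx (.lp 43 41 2897)) .out)) (.nr 13269 131073 (.lx (.lp 41
  41 2897)) .out))) .out) .out)))))

def T19_1 : Ph :=
  (.na 411 6 (.na 223 5 (.nx 222 16777217 (.nr 221 1246976 (.nx 3 216 (.nx 2 215 (.nr 1 50 (.lg 0
  true 1 47 47 9 0 216720) (.l1 .sk)) (.l1 .sk)) (.nx 168 2097153 (.nx 154 524289 (.nx 40 32713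
  (.nr 16 155873 (.lg 0 false 13 107 113 13 0 30990960) (.nx 27 324 (.lg 0 false 11 89 89 13 0
  340560) (.nx 28 16384 .out (.nr 39 185365 (.lg 0 false 11 101 107 13 0 30990960) .out)))) (.nr
  153 220437 (.nr 51 729 (.lg 0 true 11 97 97 13 0 340560) (.nx 78 65536 (.nr 77 185365 (.nx 64
  46302 (.lg 1 false 13 103 109 13 131119 30990960) (.lg 1 false 13 103 109 13 92637 30990960))
  .out) (.nr 85 2909 (.lg 2 true 7 97 101 11 77313 216720) (.nr 91 11603 (.nr 88 5810 (.lg 2 true 3
  97 97 9 19375 216720) (.lg 2 true 3 97 97 9 9701 216720)) (.nx 104 92682 (.lg 1 false 13 103 109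
  13 77818 30990960) (.nx 129 165142 (.nx 117 131073 (.lg 1 false 13 103 109 13 55026 30990960)
  (.nr 128 155873 (.lg 1 true 11 103 109 13 27524 30990960) .out)) (.nr 152 131073 (.nx 140 208065
  (.lg 1 true 11 103 109 13 18375 30990960) (.nr 151 55110 (.lg 2 false 11 97 103 13 6146 2383920)
  .out)) .out))))))) .out)) (.nr 167 183 (.lg 0 true 13 97 97 13 0 2817360) .out)) (.nr 220 21 (.nx
  194 8388609 (.lg 0 true 26 83 83 11 0 402480) (.lg 0 true 26 83 83 11 0 402480)) .out))) .out)
  .out) (.nx 410 16777217 (.nr 409 1482912 (.nx 225 215 (.nr 224 61 (.lg 0 true 1 31 31 9 0 15480)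
  (.l1 .sk)) (.nx 226 216 (.l1 .sk) (.nx 342 660563 (.nx 268 52015 (.nr 254 185365 (.lg 0 false 28
  101 107 16 0 2383920) (.nx 267 324 (.lg 0 false 13 73 73 16 0 201240) .out)) (.nr 341 220437 (.nr
  281 956 (.lg 0 true 13 83 83 16 0 201240) (.nx 294 76448 (.lg 1 false 13 101 103 16 98047 402480)
  (.nx 307 112360 (.lg 1 false 13 103 107 16 66711 30990960) (.nr 314 4213 (.lg 2 true 7 89 89 11
  74279 216720) (.nx 327 165142 (.lg 1 true 13 103 107 16 45389 30990960) (.nr 340 131073 (.lg 2
  false 13 101 103 16 18375 402480) .out)))))) .out)) (.nr 408 217 (.nr 394 61 (.lg 0 true 52 83 83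
  16 0 402480) (.nx 407 2097153 (.lg 0 true 13 79 79 16 0 201240) .out)) .out)))) .out) .out)) (.na
  589 7 (.nx 588 16777217 (.nr 587 1048577 (.nx 413 215 (.nr 412 72 (.lg 0 true 1 37 37 7 0 30960)
  (.l1 .sk)) (.nx 414 216 (.l1 .sk) (.nr 579 370729 (.nx 435 41285 (.nr 427 155873 (.lg 0 false 13
  107 109 19 0 30990960) (.nx 434 2049 (.lg 0 false 7 97 97 13 0 216720) .out)) (.nr 578 220437
  (.nx 530 1048577 (.nr 448 1026 (.lg 0 true 13 97 97 19 0 402480) (.nx 529 660563 (.nx 499 165142
  (.nx 460 52015 (.nr 459 185365 (.lg 1 false 11 97 103 17 103895 2383920) .out) (.nx 473 76448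
  (.lg 1 false 13 103 109 19 98047 30990960) (.nx 486 112360 (.lg 1 false 13 103 109 19 66711
  30990960) (.lg 1 true 13 103 109 19 45389 30990960)))) (.nr 528 185365 (.nx 510 208065 (.lg 1
  true 11 97 103 17 25973 2383920) (.nr 527 77937 (.nr 520 8201 (.nr 517 4102 (.lg 2 true 7 89 97
  13 69212 216720) (.lg 2 true 3 89 89 13 17312 30960)) (.lg 2 false 7 97 101 13 8682 216720))
  .out)) .out)) .out)) (.nr 577 129 (.nr 569 44 (.lg 0 true 39 89 89 13 0 402480) (.nx 576 2097153
  (.lg 0 true 7 79 79 13 0 216720) .out)) .out)) .out)) (.nx 586 324 (.lg 0 false 7 79 79 13 0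
  216720) .out)))) .out) .out) (.na 730 8 (.nx 729 16777217 (.nr 728 1246976 (.nx 592 216 (.nx 591
  215 (.nr 590 82 (.lg 0 true 1 37 37 9 0 216720) (.l1 .sk)) (.l1 .sk)) (.nx 694 2097153 (.nx 597
  257 (.nr 593 741456 (.l1 (.ls 97 37 2773)) (.lg 0 false 4 71 71 13 0 216720)) (.nr 693 440873
  (.nr 688 262145 (.nx 615 32768 (.nr 610 155873 (.lg 0 false 13 101 107 16 0 2817360) (.nx 614
  2049 (.lg 0 false 4 97 97 13 0 216720) .out)) (.nr 687 220437 (.nr 628 642 (.lg 0 true 13 97 97
  16 0 1408680) (.nx 686 832257 (.nx 642 65536 (.nr 641 185365 (.lg 1 false 13 103 109 16 130899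
  30990960) .out) (.nr 646 2833 (.lg 2 true 4 97 97 13 139358 216720) (.nx 672 208065 (.nx 659
  121357 (.lg 1 false 13 103 109 16 77818 30990960) (.lg 1 true 13 103 109 16 42024 30990960)) (.nr
  685 110219 (.nr 680 65537 (.nr 676 12496 (.lg 2 true 4 97 101 13 31581 216720) (.lg 2 false 4 97
  101 13 7304 216720)) (.nx 684 262145 (.lg 2 false 4 101 101 13 12268 216720) .out)) .out))))
  .out)) .out)) (.nx 692 814 (.lg 0 false 4 83 83 13 0 216720) .out)) .out)) (.nr 727 47 (.lg 0
  true 33 83 83 16 0 1191960) .out))) .out) .out) (.nx 880 16777217 (.nr 879 1048577 (.nx 732 215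
  (.nr 731 93 (.lg 0 true 1 41 41 11 0 30960) (.l1 .sk)) (.nx 733 216 (.l1 .sk) (.nx 852 2097153
  (.nr 848 623489 (.nx 840 1048577 (.nx 758 36779 (.nr 746 155873 (.lg 0 false 13 103 109 19 0
  30990960) (.nr 754 311745 (.nx 749 2049 (.lg 0 false 3 97 101 13 0 216720) (.nx 750 26007 .out
  (.nr 753 185365 (.lg 0 false 3 101 103 13 0 2383920) .out))) (.nx 757 1025 (.lg 0 false 3 97 97
  13 0 30960) .out))) (.nr 839 220437 (.nr 771 971 (.lg 0 true 13 89 97 19 0 402480) (.nr 774 3732
  (.lg 2 true 3 101 103 13 116089 2383920) (.nx 788 52015 (.nr 787 185365 (.lg 1 false 13 101 109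
  19 116623 30990960) .out) (.nx 827 208065 (.nx 814 112360 (.nx 801 76448 (.lg 1 false 13 101 109
  19 98047 30990960) (.lg 1 false 13 101 109 19 66711 30990960)) (.lg 1 true 13 103 109 19 45389
  30990960)) (.nr 838 110219 (.nr 831 14343 (.nr 829 7317 (.lg 2 true 2 97 101 11 30205 216720)
  (.lg 2 true 2 97 101 11 15406 216720)) (.lg 2 false 7 101 107 13 12268 2383920)) .out))))) .out))
  (.nr 847 129 (.lg 0 true 7 83 83 13 0 216720) .out)) (.nx 851 324 (.lg 0 false 3 83 83 13 0
  30960) .out)) (.nr 878 55 (.lg 0 true 26 89 89 13 0 402480) .out)))) .out) .out))))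

theorem c19 :
    OkQ ckI L10 224 512 11586 0 34359738368 1 1099511627776 ∧
    OkQ ckI L9 215 4 9 0 34359738368 1 1099511627776 := by
  refine ⟨?_, ?_⟩
  · refine fin 1008 13272 T19_0 ?_
    refine jn 56 (by decide +kernel) ?_
    refine jn 116 (by decide +kernel) ?_
    refine jn 226 (by decide +kernel) ?_
    refine jn 234 (by decide +kernel) ?_
    refine jn 237 (by decide +kernel) ?_
    refine jn 239 (by decide +kernel) ?_
    refine jn 245 (by decide +kernel) ?_
    refine jn 252 (by decide +kernel) ?_
    refine jn 254 (by decide +kernel) ?_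
    refine jn 257 (by decide +kernel) ?_
    refine jn 262 (by decide +kernel) ?_
    refine jn 266 (by decide +kernel) ?_
    refine jn 267 (by decide +kernel) ?_
    refine jn 274 (by decide +kernel) ?_
    refine jn 276 (by decide +kernel) ?_
    refine jn 280 (by decide +kernel) ?_
    refine jn 283 (by decide +kernel) ?_
    refine jn 284 (by decide +kernel) ?_
    refine jn 287 (by decide +kernel) ?_
    refine jn 293 (by decide +kernel) ?_
    refine jn 299 (by decide +kernel) ?_
    refine jn 300 (by decide +kernel) ?_
    refine jn 311 (by decide +kernel) ?_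
    refine jn 314 (by decide +kernel) ?_
    refine jn 318 (by decide +kernel) ?_
    refine jn 322 (by decide +kernel) ?_
    refine jn 324 (by decide +kernel) ?_
    refine jn 333 (by decide +kernel) ?_
    refine jn 338 (by decide +kernel) ?_
    refine jn 339 (by decide +kernel) ?_
    refine jn 344 (by decide +kernel) ?_
    refine jn 346 (by decide +kernel) ?_
    refine jn 353 (by decide +kernel) ?_
    refine jn 358 (by decide +kernel) ?_
    refine jn 364 (by decide +kernel) ?_
    refine jn 375 (by decide +kernel) ?_
    refine jn 379 (by decide +kernel) ?_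
    refine jn 386 (by decide +kernel) ?_
    refine jn 388 (by decide +kernel) ?_
    refine jn 390 (by decide +kernel) ?_
    refine jn 392 (by decide +kernel) ?_
    refine jn 398 (by decide +kernel) ?_
    refine jn 399 (by decide +kernel) ?_
    refine jn 404 (by decide +kernel) ?_
    refine jn 405 (by decide +kernel) ?_
    refine jn 412 (by decide +kernel) ?_
    refine jn 415 (by decide +kernel) ?_
    refine jn 422 (by decide +kernel) ?_
    refine jn 424 (by decide +kernel) ?_
    refine jn 431 (by decide +kernel) ?_
    refine jn 434 (by decide +kernel) ?_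
    refine jn 435 (by decide +kernel) ?_
    refine jn 440 (by decide +kernel) ?_
    refine jn 447 (by decide +kernel) ?_
    refine jn 450 (by decide +kernel) ?_
    refine jn 452 (by decide +kernel) ?_
    refine jn 456 (by decide +kernel) ?_
    refine jn 459 (by decide +kernel) ?_
    refine jn 467 (by decide +kernel) ?_
    refine jn 470 (by decide +kernel) ?_
    refine jn 475 (by decide +kernel) ?_
    refine jn 479 (by decide +kernel) ?_
    refine jn 480 (by decide +kernel) ?_
    refine jn 487 (by decide +kernel) ?_
    refine jn 489 (by decide +kernel) ?_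
    refine jn 492 (by decide +kernel) ?_
    refine jn 494 (by decide +kernel) ?_
    refine jn 496 (by decide +kernel) ?_
    refine jn 497 (by decide +kernel) ?_
    refine jn 500 (by decide +kernel) ?_
    refine jn 506 (by decide +kernel) ?_
    refine jn 512 (by decide +kernel) ?_
    refine jn 513 (by decide +kernel) ?_
    refine jn 517 (by decide +kernel) ?_
    refine jn 526 (by decide +kernel) ?_
    refine jn 527 (by decide +kernel) ?_
    refine jn 531 (by decide +kernel) ?_
    refine jn 535 (by decide +kernel) ?_
    refine jn 537 (by decide +kernel) ?_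
    refine jn 544 (by decide +kernel) ?_
    refine jn 548 (by decide +kernel) ?_
    refine jn 551 (by decide +kernel) ?_
    refine jn 552 (by decide +kernel) ?_
    refine jn 557 (by decide +kernel) ?_
    refine jn 559 (by decide +kernel) ?_
    refine jn 566 (by decide +kernel) ?_
    refine jn 570 (by decide +kernel) ?_
    refine jn 575 (by decide +kernel) ?_
    refine jn 582 (by decide +kernel) ?_
    refine jn 591 (by decide +kernel) ?_
    refine jn 599 (by decide +kernel) ?_
    refine jn 600 (by decide +kernel) ?_
    refine jn 602 (by decide +kernel) ?_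
    refine jn 604 (by decide +kernel) ?_
    refine jn 608 (by decide +kernel) ?_
    refine jn 611 (by decide +kernel) ?_
    refine jn 612 (by decide +kernel) ?_
    refine jn 617 (by decide +kernel) ?_
    refine jn 618 (by decide +kernel) ?_
    refine jn 622 (by decide +kernel) ?_
    refine jn 626 (by decide +kernel) ?_
    refine jn 629 (by decide +kernel) ?_
    refine jn 635 (by decide +kernel) ?_
    refine jn 637 (by decide +kernel) ?_
    refine jn 644 (by decide +kernel) ?_
    refine jn 647 (by decide +kernel) ?_
    refine jn 648 (by decide +kernel) ?_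
    refine jn 660 (by decide +kernel) ?_
    refine jn 672 (by decide +kernel) ?_
    refine jn 687 (by decide +kernel) ?_
    refine jn 704 (by decide +kernel) ?_
    refine jn 718 (by decide +kernel) ?_
    refine jn 731 (by decide +kernel) ?_
    refine jn 744 (by decide +kernel) ?_
    refine jn 765 (by decide +kernel) ?_
    refine jn 783 (by decide +kernel) ?_
    refine jn 795 (by decide +kernel) ?_
    refine jn 820 (by decide +kernel) ?_
    refine jn 839 (by decide +kernel) ?_
    refine jn 845 (by decide +kernel) ?_
    refine jn 854 (by decide +kernel) ?_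
    refine jn 875 (by decide +kernel) ?_
    refine jn 890 (by decide +kernel) ?_
    refine jn 907 (by decide +kernel) ?_
    refine jn 931 (by decide +kernel) ?_
    refine jn 947 (by decide +kernel) ?_
    refine jn 962 (by decide +kernel) ?_
    refine jn 966 (by decide +kernel) ?_
    refine jn 971 (by decide +kernel) ?_
    refine jn 977 (by decide +kernel) ?_
    refine jn 985 (by decide +kernel) ?_
    refine jn 990 (by decide +kernel) ?_
    refine jn 994 (by decide +kernel) ?_
    refine jn 1003 (by decide +kernel) ?_
    refine jn 1010 (by decide +kernel) ?_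
    refine jn 1011 (by decide +kernel) ?_
    refine jn 1019 (by decide +kernel) ?_
    refine jn 1023 (by decide +kernel) ?_
    refine jn 1030 (by decide +kernel) ?_
    refine jn 1037 (by decide +kernel) ?_
    refine jn 1041 (by decide +kernel) ?_
    refine jn 1056 (by decide +kernel) ?_
    refine jn 1060 (by decide +kernel) ?_
    refine jn 1070 (by decide +kernel) ?_
    refine jn 1075 (by decide +kernel) ?_
    refine jn 1082 (by decide +kernel) ?_
    refine jn 1085 (by decide +kernel) ?_
    refine jn 1093 (by decide +kernel) ?_
    refine jn 1104 (by decide +kernel) ?_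
    refine jn 1115 (by decide +kernel) ?_
    refine jn 1127 (by decide +kernel) ?_
    refine jn 1130 (by decide +kernel) ?_
    refine jn 1135 (by decide +kernel) ?_
    refine jn 1139 (by decide +kernel) ?_
    refine jn 1142 (by decide +kernel) ?_
    refine jn 1143 (by decide +kernel) ?_
    refine jn 1146 (by decide +kernel) ?_
    refine jn 1150 (by decide +kernel) ?_
    refine jn 1152 (by decide +kernel) ?_
    refine jn 1164 (by decide +kernel) ?_
    refine jn 1172 (by decide +kernel) ?_
    refine jn 1175 (by decide +kernel) ?_
    refine jn 1180 (by decide +kernel) ?_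
    refine jn 1189 (by decide +kernel) ?_
    refine jn 1201 (by decide +kernel) ?_
    refine jn 1205 (by decide +kernel) ?_
    refine jn 1206 (by decide +kernel) ?_
    refine jn 1218 (by decide +kernel) ?_
    refine jn 1226 (by decide +kernel) ?_
    refine jn 1234 (by decide +kernel) ?_
    refine jn 1240 (by decide +kernel) ?_
    refine jn 1246 (by decide +kernel) ?_
    refine jn 1260 (by decide +kernel) ?_
    refine jn 1274 (by decide +kernel) ?_
    refine jn 1282 (by decide +kernel) ?_
    refine jn 1298 (by decide +kernel) ?_
    refine jn 1314 (by decide +kernel) ?_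
    refine jn 1326 (by decide +kernel) ?_
    refine jn 1338 (by decide +kernel) ?_
    refine jn 1354 (by decide +kernel) ?_
    refine jn 1364 (by decide +kernel) ?_
    refine jn 1374 (by decide +kernel) ?_
    refine jn 1380 (by decide +kernel) ?_
    refine jn 1404 (by decide +kernel) ?_
    refine jn 1417 (by decide +kernel) ?_
    refine jn 1431 (by decide +kernel) ?_
    refine jn 1442 (by decide +kernel) ?_
    refine jn 1462 (by decide +kernel) ?_
    refine jn 1476 (by decide +kernel) ?_
    refine jn 1484 (by decide +kernel) ?_
    refine jn 1496 (by decide +kernel) ?_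
    refine jn 1520 (by decide +kernel) ?_
    refine jn 1534 (by decide +kernel) ?_
    refine jn 1549 (by decide +kernel) ?_
    refine jn 1581 (by decide +kernel) ?_
    refine jn 1590 (by decide +kernel) ?_
    refine jn 1602 (by decide +kernel) ?_
    refine jn 1614 (by decide +kernel) ?_
    refine jn 1624 (by decide +kernel) ?_
    refine jn 1639 (by decide +kernel) ?_
    refine jn 1656 (by decide +kernel) ?_
    refine jn 1674 (by decide +kernel) ?_
    refine jn 1686 (by decide +kernel) ?_
    refine jn 1694 (by decide +kernel) ?_
    refine jn 1699 (by decide +kernel) ?_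
    refine jn 1700 (by decide +kernel) ?_
    refine jn 1711 (by decide +kernel) ?_
    refine jn 1721 (by decide +kernel) ?_
    refine jn 1728 (by decide +kernel) ?_
    refine jn 1739 (by decide +kernel) ?_
    refine jn 1746 (by decide +kernel) ?_
    refine jn 1755 (by decide +kernel) ?_
    refine jn 1763 (by decide +kernel) ?_
    refine jn 1764 (by decide +kernel) ?_
    refine jn 1779 (by decide +kernel) ?_
    refine jn 1783 (by decide +kernel) ?_
    refine jn 1789 (by decide +kernel) ?_
    refine jn 1795 (by decide +kernel) ?_
    refine jn 1799 (by decide +kernel) ?_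
    refine jn 1800 (by decide +kernel) ?_
    refine jn 1817 (by decide +kernel) ?_
    refine jn 1829 (by decide +kernel) ?_
    refine jn 1838 (by decide +kernel) ?_
    refine jn 1844 (by decide +kernel) ?_
    refine jn 1855 (by decide +kernel) ?_
    refine jn 1859 (by decide +kernel) ?_
    refine jn 1860 (by decide +kernel) ?_
    refine jn 1871 (by decide +kernel) ?_
    refine jn 1879 (by decide +kernel) ?_
    refine jn 1893 (by decide +kernel) ?_
    refine jn 1898 (by decide +kernel) ?_
    refine jn 1907 (by decide +kernel) ?_
    refine jn 1908 (by decide +kernel) ?_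
    refine jn 1916 (by decide +kernel) ?_
    refine jn 1923 (by decide +kernel) ?_
    refine jn 1937 (by decide +kernel) ?_
    refine jn 1947 (by decide +kernel) ?_
    refine jn 1955 (by decide +kernel) ?_
    refine jn 1960 (by decide +kernel) ?_
    refine jn 1970 (by decide +kernel) ?_
    refine jn 1981 (by decide +kernel) ?_
    refine jn 1996 (by decide +kernel) ?_
    refine jn 2008 (by decide +kernel) ?_
    refine jn 2014 (by decide +kernel) ?_
    refine jn 2021 (by decide +kernel) ?_
    refine jn 2027 (by decide +kernel) ?_
    refine jn 2033 (by decide +kernel) ?_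
    refine jn 2039 (by decide +kernel) ?_
    refine jn 2040 (by decide +kernel) ?_
    refine jn 2049 (by decide +kernel) ?_
    refine jn 2060 (by decide +kernel) ?_
    refine jn 2064 (by decide +kernel) ?_
    refine jn 2075 (by decide +kernel) ?_
    refine jn 2081 (by decide +kernel) ?_
    refine jn 2093 (by decide +kernel) ?_
    refine jn 2099 (by decide +kernel) ?_
    refine jn 2103 (by decide +kernel) ?_
    refine jn 2124 (by decide +kernel) ?_
    refine jn 2145 (by decide +kernel) ?_
    refine jn 2163 (by decide +kernel) ?_
    refine jn 2183 (by decide +kernel) ?_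
    refine jn 2191 (by decide +kernel) ?_
    refine jn 2223 (by decide +kernel) ?_
    refine jn 2237 (by decide +kernel) ?_
    refine jn 2251 (by decide +kernel) ?_
    refine jn 2276 (by decide +kernel) ?_
    refine jn 2292 (by decide +kernel) ?_
    refine jn 2315 (by decide +kernel) ?_
    refine jn 2332 (by decide +kernel) ?_
    refine jn 2352 (by decide +kernel) ?_
    refine jn 2369 (by decide +kernel) ?_
    refine jn 2389 (by decide +kernel) ?_
    refine jn 2418 (by decide +kernel) ?_
    refine jn 2444 (by decide +kernel) ?_
    refine jn 2468 (by decide +kernel) ?_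
    refine jn 2481 (by decide +kernel) ?_
    refine jn 2493 (by decide +kernel) ?_
    refine jn 2505 (by decide +kernel) ?_
    refine jn 2531 (by decide +kernel) ?_
    refine jn 2547 (by decide +kernel) ?_
    refine jn 2568 (by decide +kernel) ?_
    refine jn 2586 (by decide +kernel) ?_
    refine jn 2612 (by decide +kernel) ?_
    refine jn 2638 (by decide +kernel) ?_
    refine jn 2657 (by decide +kernel) ?_
    refine jn 2682 (by decide +kernel) ?_
    refine jn 2695 (by decide +kernel) ?_
    refine jn 2718 (by decide +kernel) ?_
    refine jn 2727 (by decide +kernel) ?_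
    refine jn 2744 (by decide +kernel) ?_
    refine jn 2757 (by decide +kernel) ?_
    refine jn 2768 (by decide +kernel) ?_
    refine jn 2782 (by decide +kernel) ?_
    refine jn 2783 (by decide +kernel) ?_
    refine jn 2796 (by decide +kernel) ?_
    refine jn 2822 (by decide +kernel) ?_
    refine jn 2823 (by decide +kernel) ?_
    refine jn 2839 (by decide +kernel) ?_
    refine jn 2849 (by decide +kernel) ?_
    refine jn 2865 (by decide +kernel) ?_
    refine jn 2878 (by decide +kernel) ?_
    refine jn 2889 (by decide +kernel) ?_
    refine jn 2906 (by decide +kernel) ?_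
    refine jn 2918 (by decide +kernel) ?_
    refine jn 2930 (by decide +kernel) ?_
    refine jn 2942 (by decide +kernel) ?_
    refine jn 2947 (by decide +kernel) ?_
    refine jn 2960 (by decide +kernel) ?_
    refine jn 2970 (by decide +kernel) ?_
    refine jn 2987 (by decide +kernel) ?_
    refine jn 3005 (by decide +kernel) ?_
    refine jn 3017 (by decide +kernel) ?_
    refine jn 3032 (by decide +kernel) ?_
    refine jn 3056 (by decide +kernel) ?_
    refine jn 3062 (by decide +kernel) ?_
    refine jn 3072 (by decide +kernel) ?_
    refine jn 3082 (by decide +kernel) ?_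
    refine jn 3086 (by decide +kernel) ?_
    refine jn 3090 (by decide +kernel) ?_
    refine jn 3102 (by decide +kernel) ?_
    refine jn 3104 (by decide +kernel) ?_
    refine jn 3125 (by decide +kernel) ?_
    refine jn 3134 (by decide +kernel) ?_
    refine jn 3137 (by decide +kernel) ?_
    refine jn 3152 (by decide +kernel) ?_
    refine jn 3167 (by decide +kernel) ?_
    refine jn 3179 (by decide +kernel) ?_
    refine jn 3194 (by decide +kernel) ?_
    refine jn 3211 (by decide +kernel) ?_
    refine jn 3227 (by decide +kernel) ?_
    refine jn 3241 (by decide +kernel) ?_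
    refine jn 3254 (by decide +kernel) ?_
    refine jn 3262 (by decide +kernel) ?_
    refine jn 3280 (by decide +kernel) ?_
    refine jn 3290 (by decide +kernel) ?_
    refine jn 3298 (by decide +kernel) ?_
    refine jn 3353 (by decide +kernel) ?_
    refine jn 3537 (by decide +kernel) ?_
    refine jn 3564 (by decide +kernel) ?_
    refine jn 3583 (by decide +kernel) ?_
    refine jn 3597 (by decide +kernel) ?_
    refine jn 3622 (by decide +kernel) ?_
    refine jn 3649 (by decide +kernel) ?_
    refine jn 3675 (by decide +kernel) ?_
    refine jn 3697 (by decide +kernel) ?_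
    refine jn 3720 (by decide +kernel) ?_
    refine jn 3750 (by decide +kernel) ?_
    refine jn 3767 (by decide +kernel) ?_
    refine jn 3791 (by decide +kernel) ?_
    refine jn 3815 (by decide +kernel) ?_
    refine jn 3846 (by decide +kernel) ?_
    refine jn 3864 (by decide +kernel) ?_
    refine jn 3887 (by decide +kernel) ?_
    refine jn 3908 (by decide +kernel) ?_
    refine jn 3938 (by decide +kernel) ?_
    refine jn 3969 (by decide +kernel) ?_
    refine jn 4000 (by decide +kernel) ?_
    refine jn 4019 (by decide +kernel) ?_
    refine jn 4047 (by decide +kernel) ?_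
    refine jn 4073 (by decide +kernel) ?_
    refine jn 4097 (by decide +kernel) ?_
    refine jn 4132 (by decide +kernel) ?_
    refine jn 4162 (by decide +kernel) ?_
    refine jn 4193 (by decide +kernel) ?_
    refine jn 4215 (by decide +kernel) ?_
    refine jn 4233 (by decide +kernel) ?_
    refine jn 4255 (by decide +kernel) ?_
    refine jn 4287 (by decide +kernel) ?_
    refine jn 4314 (by decide +kernel) ?_
    refine jn 4335 (by decide +kernel) ?_
    refine jn 4363 (by decide +kernel) ?_
    refine jn 4392 (by decide +kernel) ?_
    refine jn 4406 (by decide +kernel) ?_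
    refine jn 4420 (by decide +kernel) ?_
    refine jn 4432 (by decide +kernel) ?_
    refine jn 4440 (by decide +kernel) ?_
    refine jn 4464 (by decide +kernel) ?_
    refine jn 4475 (by decide +kernel) ?_
    refine jn 4494 (by decide +kernel) ?_
    refine jn 4506 (by decide +kernel) ?_
    refine jn 4525 (by decide +kernel) ?_
    refine jn 4539 (by decide +kernel) ?_
    refine jn 4556 (by decide +kernel) ?_
    refine jn 4583 (by decide +kernel) ?_
    refine jn 4599 (by decide +kernel) ?_
    refine jn 4612 (by decide +kernel) ?_
    refine jn 4624 (by decide +kernel) ?_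
    refine jn 4641 (by decide +kernel) ?_
    refine jn 4659 (by decide +kernel) ?_
    refine jn 4680 (by decide +kernel) ?_
    refine jn 4695 (by decide +kernel) ?_
    refine jn 4707 (by decide +kernel) ?_
    refine jn 4722 (by decide +kernel) ?_
    refine jn 4740 (by decide +kernel) ?_
    refine jn 4755 (by decide +kernel) ?_
    refine jn 4767 (by decide +kernel) ?_
    refine jn 4797 (by decide +kernel) ?_
    refine jn 4816 (by decide +kernel) ?_
    refine jn 4830 (by decide +kernel) ?_
    refine jn 4853 (by decide +kernel) ?_
    refine jn 4868 (by decide +kernel) ?_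
    refine jn 4887 (by decide +kernel) ?_
    refine jn 4912 (by decide +kernel) ?_
    refine jn 4932 (by decide +kernel) ?_
    refine jn 4948 (by decide +kernel) ?_
    refine jn 4970 (by decide +kernel) ?_
    refine jn 4996 (by decide +kernel) ?_
    refine jn 5030 (by decide +kernel) ?_
    refine jn 5042 (by decide +kernel) ?_
    refine jn 5055 (by decide +kernel) ?_
    refine jn 5074 (by decide +kernel) ?_
    refine jn 5088 (by decide +kernel) ?_
    refine jn 5103 (by decide +kernel) ?_
    refine jn 5119 (by decide +kernel) ?_
    refine jn 5143 (by decide +kernel) ?_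
    refine jn 5166 (by decide +kernel) ?_
    refine jn 5184 (by decide +kernel) ?_
    refine jn 5205 (by decide +kernel) ?_
    refine jn 5231 (by decide +kernel) ?_
    refine jn 5350 (by decide +kernel) ?_
    refine jn 5485 (by decide +kernel) ?_
    refine jn 5500 (by decide +kernel) ?_
    refine jn 5533 (by decide +kernel) ?_
    refine jn 5557 (by decide +kernel) ?_
    refine jn 5582 (by decide +kernel) ?_
    refine jn 5609 (by decide +kernel) ?_
    refine jn 5628 (by decide +kernel) ?_
    refine jn 5658 (by decide +kernel) ?_
    refine jn 5689 (by decide +kernel) ?_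
    refine jn 5709 (by decide +kernel) ?_
    refine jn 5728 (by decide +kernel) ?_
    refine jn 5755 (by decide +kernel) ?_
    refine jn 5783 (by decide +kernel) ?_
    refine jn 5809 (by decide +kernel) ?_
    refine jn 5835 (by decide +kernel) ?_
    refine jn 5868 (by decide +kernel) ?_
    refine jn 5889 (by decide +kernel) ?_
    refine jn 5929 (by decide +kernel) ?_
    refine jn 5947 (by decide +kernel) ?_
    refine jn 5975 (by decide +kernel) ?_
    refine jn 5994 (by decide +kernel) ?_
    refine jn 6027 (by decide +kernel) ?_
    refine jn 6064 (by decide +kernel) ?_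
    refine jn 6091 (by decide +kernel) ?_
    refine jn 6124 (by decide +kernel) ?_
    refine jn 6160 (by decide +kernel) ?_
    refine jn 6183 (by decide +kernel) ?_
    refine jn 6205 (by decide +kernel) ?_
    refine jn 6231 (by decide +kernel) ?_
    refine jn 6257 (by decide +kernel) ?_
    refine jn 6283 (by decide +kernel) ?_
    refine jn 6313 (by decide +kernel) ?_
    refine jn 6337 (by decide +kernel) ?_
    refine jn 6369 (by decide +kernel) ?_
    refine jn 6400 (by decide +kernel) ?_
    refine jn 6433 (by decide +kernel) ?_
    refine jn 6461 (by decide +kernel) ?_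
    refine jn 6498 (by decide +kernel) ?_
    refine jn 6521 (by decide +kernel) ?_
    refine jn 6550 (by decide +kernel) ?_
    refine jn 6572 (by decide +kernel) ?_
    refine jn 6613 (by decide +kernel) ?_
    refine jn 6633 (by decide +kernel) ?_
    refine jn 6664 (by decide +kernel) ?_
    refine jn 6849 (by decide +kernel) ?_
    refine jn 6919 (by decide +kernel) ?_
    refine jn 6947 (by decide +kernel) ?_
    refine jn 6985 (by decide +kernel) ?_
    refine jn 7005 (by decide +kernel) ?_
    refine jn 7036 (by decide +kernel) ?_
    refine jn 7059 (by decide +kernel) ?_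
    refine jn 7092 (by decide +kernel) ?_
    refine jn 7116 (by decide +kernel) ?_
    refine jn 7144 (by decide +kernel) ?_
    refine jn 7174 (by decide +kernel) ?_
    refine jn 7203 (by decide +kernel) ?_
    refine jn 7240 (by decide +kernel) ?_
    refine jn 7280 (by decide +kernel) ?_
    refine jn 7297 (by decide +kernel) ?_
    refine jn 7325 (by decide +kernel) ?_
    refine jn 7349 (by decide +kernel) ?_
    refine jn 7369 (by decide +kernel) ?_
    refine jn 7397 (by decide +kernel) ?_
    refine jn 7429 (by decide +kernel) ?_
    refine jn 7464 (by decide +kernel) ?_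
    refine jn 7502 (by decide +kernel) ?_
    refine jn 7520 (by decide +kernel) ?_
    refine jn 7546 (by decide +kernel) ?_
    refine jn 7577 (by decide +kernel) ?_
    refine jn 7601 (by decide +kernel) ?_
    refine jn 7631 (by decide +kernel) ?_
    refine jn 7660 (by decide +kernel) ?_
    refine jn 7691 (by decide +kernel) ?_
    refine jn 7734 (by decide +kernel) ?_
    refine jn 7753 (by decide +kernel) ?_
    refine jn 7782 (by decide +kernel) ?_
    refine jn 7817 (by decide +kernel) ?_
    refine jn 7845 (by decide +kernel) ?_
    refine jn 7877 (by decide +kernel) ?_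
    refine jn 7909 (by decide +kernel) ?_
    refine jn 7949 (by decide +kernel) ?_
    refine jn 7972 (by decide +kernel) ?_
    refine jn 7998 (by decide +kernel) ?_
    refine jn 8032 (by decide +kernel) ?_
    refine jn 8062 (by decide +kernel) ?_
    refine jn 8096 (by decide +kernel) ?_
    refine jn 8140 (by decide +kernel) ?_
    refine jn 8181 (by decide +kernel) ?_
    refine jn 8201 (by decide +kernel) ?_
    refine jn 8225 (by decide +kernel) ?_
    refine jn 8252 (by decide +kernel) ?_
    refine jn 8281 (by decide +kernel) ?_
    refine jn 8312 (by decide +kernel) ?_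
    refine jn 8329 (by decide +kernel) ?_
    refine jn 8364 (by decide +kernel) ?_
    refine jn 8400 (by decide +kernel) ?_
    refine jn 8417 (by decide +kernel) ?_
    refine jn 8454 (by decide +kernel) ?_
    refine jn 8478 (by decide +kernel) ?_
    refine jn 8514 (by decide +kernel) ?_
    refine jn 8547 (by decide +kernel) ?_
    refine jn 8587 (by decide +kernel) ?_
    refine jn 8818 (by decide +kernel) ?_
    refine jn 8869 (by decide +kernel) ?_
    refine jn 8918 (by decide +kernel) ?_
    refine jn 8967 (by decide +kernel) ?_
    refine jn 9010 (by decide +kernel) ?_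
    refine jn 9065 (by decide +kernel) ?_
    refine jn 9112 (by decide +kernel) ?_
    refine jn 9161 (by decide +kernel) ?_
    refine jn 9211 (by decide +kernel) ?_
    refine jn 9265 (by decide +kernel) ?_
    refine jn 9309 (by decide +kernel) ?_
    refine jn 9345 (by decide +kernel) ?_
    refine jn 9395 (by decide +kernel) ?_
    refine jn 9439 (by decide +kernel) ?_
    refine jn 9487 (by decide +kernel) ?_
    refine jn 9541 (by decide +kernel) ?_
    refine jn 9590 (by decide +kernel) ?_
    refine jn 9643 (by decide +kernel) ?_
    refine jn 9694 (by decide +kernel) ?_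
    refine jn 9755 (by decide +kernel) ?_
    refine jn 9799 (by decide +kernel) ?_
    refine jn 9841 (by decide +kernel) ?_
    refine jn 9883 (by decide +kernel) ?_
    refine jn 9939 (by decide +kernel) ?_
    refine jn 9994 (by decide +kernel) ?_
    refine jn 10045 (by decide +kernel) ?_
    refine jn 10096 (by decide +kernel) ?_
    refine jn 10149 (by decide +kernel) ?_
    refine jn 10207 (by decide +kernel) ?_
    refine jn 10254 (by decide +kernel) ?_
    refine jn 10297 (by decide +kernel) ?_
    refine jn 10349 (by decide +kernel) ?_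
    refine jn 10409 (by decide +kernel) ?_
    refine jn 10455 (by decide +kernel) ?_
    refine jn 10503 (by decide +kernel) ?_
    refine jn 10561 (by decide +kernel) ?_
    refine jn 10611 (by decide +kernel) ?_
    refine jn 10662 (by decide +kernel) ?_
    refine jn 10716 (by decide +kernel) ?_
    refine jn 10771 (by decide +kernel) ?_
    refine jn 10825 (by decide +kernel) ?_
    refine jn 10885 (by decide +kernel) ?_
    refine jn 10929 (by decide +kernel) ?_
    refine jn 10977 (by decide +kernel) ?_
    refine jn 11026 (by decide +kernel) ?_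
    refine jn 11095 (by decide +kernel) ?_
    refine jn 11136 (by decide +kernel) ?_
    refine jn 11186 (by decide +kernel) ?_
    refine jn 11404 (by decide +kernel) ?_
    refine jn 11535 (by decide +kernel) ?_
    refine jn 11638 (by decide +kernel) ?_
    refine jn 11703 (by decide +kernel) ?_
    refine jn 11779 (by decide +kernel) ?_
    refine jn 11895 (by decide +kernel) ?_
    refine jn 11940 (by decide +kernel) ?_
    refine jn 11992 (by decide +kernel) ?_
    refine jn 12045 (by decide +kernel) ?_
    refine jn 12115 (by decide +kernel) ?_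
    refine jn 12175 (by decide +kernel) ?_
    refine jn 12255 (by decide +kernel) ?_
    refine jn 12324 (by decide +kernel) ?_
    refine jn 12363 (by decide +kernel) ?_
    refine jn 12399 (by decide +kernel) ?_
    refine jn 12443 (by decide +kernel) ?_
    refine jn 12505 (by decide +kernel) ?_
    refine jn 12556 (by decide +kernel) ?_
    refine jn 12614 (by decide +kernel) ?_
    refine jn 12664 (by decide +kernel) ?_
    refine jn 12700 (by decide +kernel) ?_
    refine jn 12744 (by decide +kernel) ?_
    refine jn 12783 (by decide +kernel) ?_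
    refine jn 12814 (by decide +kernel) ?_
    refine jn 12845 (by decide +kernel) ?_
    refine jn 12884 (by decide +kernel) ?_
    refine jn 12914 (by decide +kernel) ?_
    refine jn 12946 (by decide +kernel) ?_
    refine jn 12984 (by decide +kernel) ?_
    refine jn 13018 (by decide +kernel) ?_
    refine jn 13048 (by decide +kernel) ?_
    refine jn 13079 (by decide +kernel) ?_
    refine jn 13110 (by decide +kernel) ?_
    refine jn 13141 (by decide +kernel) ?_
    refine jn 13171 (by decide +kernel) ?_
    refine jn 13196 (by decide +kernel) ?_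
    refine jn 13220 (by decide +kernel) ?_
    refine jn 13249 (by decide +kernel) ?_
    refine jn 13268 (by decide +kernel) ?_
    exact je (by decide +kernel)
  · refine fin 15480 881 T19_1 ?_
    refine jn 4 (by decide +kernel) ?_
    refine jn 5 (by decide +kernel) ?_
    refine jn 7 (by decide +kernel) ?_
    refine jn 8 (by decide +kernel) ?_
    refine jn 10 (by decide +kernel) ?_
    refine jn 11 (by decide +kernel) ?_
    refine jn 12 (by decide +kernel) ?_
    refine jn 14 (by decide +kernel) ?_
    refine jn 15 (by decide +kernel) ?_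
    refine jn 27 (by decide +kernel) ?_
    refine jn 39 (by decide +kernel) ?_
    refine jn 42 (by decide +kernel) ?_
    refine jn 44 (by decide +kernel) ?_
    refine jn 47 (by decide +kernel) ?_
    refine jn 49 (by decide +kernel) ?_
    refine jn 51 (by decide +kernel) ?_
    refine jn 60 (by decide +kernel) ?_
    refine jn 64 (by decide +kernel) ?_
    refine jn 73 (by decide +kernel) ?_
    refine jn 78 (by decide +kernel) ?_
    refine jn 85 (by decide +kernel) ?_
    refine jn 91 (by decide +kernel) ?_
    refine jn 99 (by decide +kernel) ?_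
    refine jn 104 (by decide +kernel) ?_
    refine jn 111 (by decide +kernel) ?_
    refine jn 117 (by decide +kernel) ?_
    refine jn 128 (by decide +kernel) ?_
    refine jn 140 (by decide +kernel) ?_
    refine jn 151 (by decide +kernel) ?_
    refine jn 162 (by decide +kernel) ?_
    refine jn 167 (by decide +kernel) ?_
    refine jn 194 (by decide +kernel) ?_
    refine jn 220 (by decide +kernel) ?_
    refine jn 237 (by decide +kernel) ?_
    refine jn 248 (by decide +kernel) ?_
    refine jn 267 (by decide +kernel) ?_
    refine jn 281 (by decide +kernel) ?_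
    refine jn 307 (by decide +kernel) ?_
    refine jn 327 (by decide +kernel) ?_
    refine jn 394 (by decide +kernel) ?_
    refine jn 414 (by decide +kernel) ?_
    refine jn 416 (by decide +kernel) ?_
    refine jn 418 (by decide +kernel) ?_
    refine jn 420 (by decide +kernel) ?_
    refine jn 422 (by decide +kernel) ?_
    refine jn 424 (by decide +kernel) ?_
    refine jn 426 (by decide +kernel) ?_
    refine jn 434 (by decide +kernel) ?_
    refine jn 439 (by decide +kernel) ?_
    refine jn 443 (by decide +kernel) ?_
    refine jn 447 (by decide +kernel) ?_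
    refine jn 448 (by decide +kernel) ?_
    refine jn 459 (by decide +kernel) ?_
    refine jn 473 (by decide +kernel) ?_
    refine jn 486 (by decide +kernel) ?_
    refine jn 499 (by decide +kernel) ?_
    refine jn 510 (by decide +kernel) ?_
    refine jn 517 (by decide +kernel) ?_
    refine jn 527 (by decide +kernel) ?_
    refine jn 569 (by decide +kernel) ?_
    refine jn 576 (by decide +kernel) ?_
    refine jn 590 (by decide +kernel) ?_
    refine jn 597 (by decide +kernel) ?_
    refine jn 599 (by decide +kernel) ?_
    refine jn 601 (by decide +kernel) ?_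
    refine jn 603 (by decide +kernel) ?_
    refine jn 605 (by decide +kernel) ?_
    refine jn 607 (by decide +kernel) ?_
    refine jn 609 (by decide +kernel) ?_
    refine jn 614 (by decide +kernel) ?_
    refine jn 620 (by decide +kernel) ?_
    refine jn 626 (by decide +kernel) ?_
    refine jn 628 (by decide +kernel) ?_
    refine jn 640 (by decide +kernel) ?_
    refine jn 646 (by decide +kernel) ?_
    refine jn 657 (by decide +kernel) ?_
    refine jn 659 (by decide +kernel) ?_
    refine jn 672 (by decide +kernel) ?_
    refine jn 680 (by decide +kernel) ?_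
    refine jn 692 (by decide +kernel) ?_
    refine jn 727 (by decide +kernel) ?_
    refine jn 733 (by decide +kernel) ?_
    refine jn 734 (by decide +kernel) ?_
    refine jn 735 (by decide +kernel) ?_
    refine jn 736 (by decide +kernel) ?_
    refine jn 737 (by decide +kernel) ?_
    refine jn 738 (by decide +kernel) ?_
    refine jn 739 (by decide +kernel) ?_
    refine jn 740 (by decide +kernel) ?_
    refine jn 741 (by decide +kernel) ?_
    refine jn 742 (by decide +kernel) ?_
    refine jn 743 (by decide +kernel) ?_
    refine jn 744 (by decide +kernel) ?_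
    refine jn 745 (by decide +kernel) ?_
    refine jn 746 (by decide +kernel) ?_
    refine jn 749 (by decide +kernel) ?_
    refine jn 757 (by decide +kernel) ?_
    refine jn 758 (by decide +kernel) ?_
    refine jn 759 (by decide +kernel) ?_
    refine jn 760 (by decide +kernel) ?_
    refine jn 761 (by decide +kernel) ?_
    refine jn 762 (by decide +kernel) ?_
    refine jn 763 (by decide +kernel) ?_
    refine jn 764 (by decide +kernel) ?_
    refine jn 765 (by decide +kernel) ?_
    refine jn 766 (by decide +kernel) ?_
    refine jn 767 (by decide +kernel) ?_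
    refine jn 768 (by decide +kernel) ?_
    refine jn 769 (by decide +kernel) ?_
    refine jn 770 (by decide +kernel) ?_
    refine jn 771 (by decide +kernel) ?_
    refine jn 774 (by decide +kernel) ?_
    refine jn 778 (by decide +kernel) ?_
    refine jn 782 (by decide +kernel) ?_
    refine jn 786 (by decide +kernel) ?_
    refine jn 788 (by decide +kernel) ?_
    refine jn 792 (by decide +kernel) ?_
    refine jn 796 (by decide +kernel) ?_
    refine jn 800 (by decide +kernel) ?_
    refine jn 801 (by decide +kernel) ?_
    refine jn 805 (by decide +kernel) ?_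
    refine jn 809 (by decide +kernel) ?_
    refine jn 813 (by decide +kernel) ?_
    refine jn 814 (by decide +kernel) ?_
    refine jn 818 (by decide +kernel) ?_
    refine jn 822 (by decide +kernel) ?_
    refine jn 826 (by decide +kernel) ?_
    refine jn 829 (by decide +kernel) ?_
    refine jn 831 (by decide +kernel) ?_
    refine jn 835 (by decide +kernel) ?_
    refine jn 838 (by decide +kernel) ?_
    refine jn 843 (by decide +kernel) ?_
    refine jn 846 (by decide +kernel) ?_
    refine jn 851 (by decide +kernel) ?_
    refine jn 852 (by decide +kernel) ?_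
    refine jn 855 (by decide +kernel) ?_
    refine jn 858 (by decide +kernel) ?_
    refine jn 878 (by decide +kernel) ?_
    exact je (by decide +kernel)

end Pool.Agent.MP_2339ce_nt.NR
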