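import Pool.Agent.MP_2339ce_nt.Q2.NC.L9
import Pool.Agent.MP_2339ce_nt.Q2.NC.L10
import Pool.Agent.MP_2339ce_nt.Q2.CkI

/-! Block NR: runs. -/

set_option autoImplicit false
set_option maxRecDepth 100000

noncomputable section

namespace Pool.Agent.MP_2339ce_nt.NR

open Q2.Top

def T2_0 : Ph :=
  (.na 652 2 (.nx 651 3329023 (.nr 650 881745 (.nx 2 248 (.nr 1 16 (.lg 0 true 1 47 47 5 0 4464)
  (.l1 .sk)) (.nx 3 249 (.l1 .sk) (.nx 614 1664512 (.nx 181 41287 (.nr 108 185365 (.lg 0 false 105
  103 113 16 0 22342320) (.nx 180 26009 (.nx 143 408 (.lg 0 false 35 83 89 13 0 78120) (.nx 144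
  6501 .out (.nr 179 220437 (.lg 0 false 35 103 107 13 0 22342320) .out))) .out)) (.nr 613 155873
  (.nr 236 942 (.lg 0 true 55 97 101 16 0 122760) (.nx 291 52017 (.lg 1 false 55 101 109 16 116286
  22342320) (.nx 346 65537 (.lg 1 false 55 103 109 16 92299 22342320) (.nr 612 110219 (.nr 381 1724
  (.lg 2 true 35 89 101 13 219108 156240) (.nx 611 1321124 (.nr 575 92683 (.nr 396 2898 (.lg 2 true
  15 97 101 9 95023 22320) (.nx 574 1048577 (.nr 431 8193 (.lg 2 true 35 101 107 13 44867 22342320)
  (.nx 573 832257 (.nr 537 77937 (.nr 466 26009 (.lg 2 false 35 101 107 13 12597 22342320) (.nr 501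
  55110 (.lg 2 false 35 103 109 13 25976 22342320) (.nx 536 416129 (.lg 2 true 35 103 109 13 36688
  22342320) .out))) (.nx 572 262145 (.lg 2 true 35 103 109 13 43607 22342320) .out)) .out)) .out))
  (.nx 610 208065 (.lg 2 true 35 103 109 13 51835 22342320) .out)) .out)) .out)))) .out)) (.nr 649
  154 (.lg 0 true 35 89 89 13 0 78120) .out)))) .out) .out) (.na 653 3 .ne (.nx 963 6658044 (.nr
  962 1482912 (.nx 656 249 (.nx 655 248 (.nr 654 42 (.lg 0 true 1 43 43 5 0 2232) (.l1 .sk)) (.l1
  .sk)) (.nx 724 44590 (.nr 682 220437 (.lg 0 false 26 107 109 16 0 22342320) (.nx 695 408 (.lg 0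
  false 13 89 89 16 0 29016) (.nx 696 20642 .out (.nr 723 311745 (.nx 710 32768 (.nr 709 262145
  (.lg 0 false 13 101 109 16 0 22342320) .out) (.lg 0 false 13 103 109 16 0 22342320)) .out))))
  (.nr 961 311745 (.nx 911 832257 (.nr 744 1391 (.nr 737 668 (.lg 0 true 13 97 97 16 0 29016) (.lg
  2 true 7 97 97 13 154491 156240)) (.nr 751 2898 (.lg 2 true 7 97 101 13 74192 156240) (.nx 910
  660563 (.nr 756 5549 (.lg 2 true 5 97 101 7 28265 156240) (.nr 761 10626 (.lg 2 true 5 97 101 7
  14762 156240) (.nx 787 60679 (.lg 1 false 26 103 109 16 215172 22342320) (.nx 827 104031 (.nx 813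
  82572 (.lg 1 false 26 103 109 16 158119 22342320) (.nr 826 220437 (.lg 1 false 13 107 109 16
  82190 22342320) .out)) (.nr 909 262145 (.nx 881 262145 (.nx 867 208065 (.nx 853 165142 (.nx 840
  131072 (.lg 1 false 13 107 109 16 77565 22342320) (.lg 1 false 13 107 109 16 61563 22342320))
  (.nr 866 220437 (.lg 1 true 13 107 109 16 41096 22342320) .out)) (.nr 880 185365 (.lg 1 true 13
  103 109 16 27434 22342320) .out)) (.nr 908 110219 (.nr 894 77937 (.lg 2 false 13 103 109 16 9172
  22342320) (.nx 907 330282 (.lg 2 false 13 101 109 16 12959 22342320) .out)) .out)) .out)))))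
  .out))) (.nr 960 154 (.nx 924 1664512 (.lg 0 true 13 83 89 16 0 29016) (.nr 959 33 (.lg 0 true 35
  79 83 16 0 78120) .out)) .out)) .out))) .out) .out)))

def T2_1 : Ph :=
  (.na 287 215 (.na 157 181 (.na 91 168 (.na 52 163 (.na 27 160 (.na 14 158 (.nx 13 1048577 (.nr 12
  1482912 (.nr 1 157 .s1 (.nx 4 216 (.nx 3 215 (.nr 2 1641 (.l1 (.ls 23 19 297)) (.l1 .sk)) (.l1
  .sk)) (.nx 8 32769 (.lg 0 false 4 89 89 17 0 216720) (.nr 11 16385 (.nr 9 1025 (.lg 0 false 1 71
  71 16 0 216720) (.nx 10 131073 (.lg 2 false 1 59 59 16 13747 15480) .out)) .out)))) .out) .out)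
  (.nx 26 1048577 (.nr 25 1482912 (.nr 15 158 .s1 (.nx 18 216 (.nx 17 215 (.nr 16 1661 (.l1 (.ls 23
  29 295)) (.l1 .sk)) (.l1 .sk)) (.nx 21 16385 (.lg 0 false 3 89 89 23 0 30960) (.nr 24 65537 (.nx
  22 131073 (.lg 0 false 1 89 89 19 0 30960) (.nr 23 1025 (.lg 0 false 1 71 71 19 0 216720) .out))
  .out)))) .out) .out)) (.na 39 162 (.nx 38 1048577 (.nr 37 1482912 (.nr 28 160 .s1 (.nx 30 215
  (.nr 29 1682 (.l1 (.ls 29 31 291)) (.l1 .sk)) (.nx 31 216 (.l1 .sk) (.nx 33 16385 (.lg 0 false 2
  89 89 29 0 30960) (.nr 36 65537 (.nx 34 131073 (.lg 0 false 1 89 89 29 0 30960) (.nr 35 1025 (.lg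
  0 true 1 71 71 29 0 30960) .out)) .out))))) .out) .out) (.nx 51 1048577 (.nr 50 1482912 (.nr 40
  162 .s1 (.nx 48 131073 (.nx 42 215 (.nr 41 1692 (.l1 (.ls 23 31 288)) (.l1 .sk)) (.nx 43 216 (.l1
  .sk) (.nr 44 65537 (.lg 0 false 1 83 83 23 0 30960) (.nx 47 16385 (.lg 0 false 3 83 83 29 0
  30960) .out)))) (.nr 49 1025 (.lg 0 false 1 71 71 23 0 30960) .out))) .out) .out))) (.na 78 165
  (.na 66 164 (.nx 65 1048577 (.nr 64 1482912 (.nr 53 163 .s1 (.nx 60 32769 (.nx 55 215 (.nr 54
  1703 (.l1 (.ls 19 19 286)) (.l1 .sk)) (.nx 56 216 (.l1 .sk) (.lg 0 false 4 83 83 17 0 30960)))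
  (.nr 63 16385 (.nr 61 1025 (.lg 0 false 1 71 71 16 0 340560) (.nx 62 131073 (.lg 2 true 1 59 59
  16 13747 15480) .out)) .out))) .out) .out) (.nx 77 1048577 (.nr 76 1482912 (.nr 67 164 .s1 (.nx
  70 216 (.nx 69 215 (.nr 68 1713 (.l1 (.ls 29 29 284)) (.l1 .sk)) (.l1 .sk)) (.nx 74 131073 (.nr
  71 65537 (.lg 0 false 1 97 97 23 0 216720) (.nx 73 16385 (.lg 0 false 2 97 97 29 0 216720) .out))
  (.nr 75 1025 (.lg 0 true 1 73 73 23 0 30960) .out)))) .out) .out)) (.na 90 167 (.nx 89 1048577
  (.nr 88 1482912 (.nr 79 165 .s1 (.nx 81 215 (.nr 80 1734 (.l1 (.ls 31 31 283)) (.l1 .sk)) (.nx 82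
  216 (.l1 .sk) (.nr 85 65537 (.nx 83 131073 (.lg 0 false 1 97 97 29 0 2383920) (.nr 84 1025 (.lg 0
  true 1 71 71 29 0 170280) .out)) (.nx 87 16385 (.lg 0 false 2 97 97 29 0 2383920) .out))))) .out)
  .out) (.lg 0 false 1 0 0 16 0 24)))) (.na 121 176 (.na 119 173 (.na 106 172 (.nx 105 1048577 (.nr
  104 1482912 (.nr 92 168 .s1 (.nx 102 131073 (.nx 94 215 (.nr 93 1786 (.l1 (.ls 47 37 278)) (.l1
  .sk)) (.nx 95 216 (.l1 .sk) (.nr 96 16385 (.lg 0 true 1 83 89 41 0 216720) (.nx 101 32769 (.nx 99
  16385 (.nr 97 1048577 (.lg 0 false 1 101 103 41 0 2383920) (.nx 98 8192 .out (.lg 0 false 1 97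
  101 41 0 2383920))) (.nr 100 65537 (.lg 0 false 1 79 89 41 0 216720) .out)) .out)))) (.nr 103
  1025 (.lg 0 true 1 79 83 41 0 216720) .out))) .out) .out) (.nx 118 1048577 (.nr 117 1482912 (.nr
  107 172 .s1 (.nx 113 32769 (.nx 109 215 (.nr 108 1796 (.l1 (.ls 23 29 271)) (.l1 .sk)) (.nx 110
  216 (.l1 .sk) (.lg 0 false 3 89 89 23 0 216720))) (.nr 116 16385 (.nr 114 1025 (.lg 0 false 1 71
  71 19 0 216720) (.nx 115 131073 (.lg 2 true 1 59 59 19 13747 30960) .out)) .out))) .out) .out))
  (.na 120 175 (.lg 0 false 1 0 0 16 0 24) (.lg 0 false 1 0 0 16 0 24))) (.na 144 179 (.na 132 177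
  (.nx 131 1048577 (.nr 130 1482912 (.nr 122 176 .s1 (.nx 128 131073 (.nx 124 215 (.nr 123 1838
  (.l1 (.ls 37 31 265)) (.l1 .sk)) (.nx 125 216 (.l1 .sk) (.nr 126 65537 (.lg 0 true 1 97 101 31 0
  2383920) (.nx 127 16385 (.lg 0 false 1 101 101 31 0 340560) .out)))) (.nr 129 1025 (.lg 0 true 1
  79 79 31 0 340560) .out))) .out) .out) (.nx 143 1048577 (.nr 142 1482912 (.nr 133 177 .s1 (.nx
  135 215 (.nr 134 1859 (.l1 (.ls 23 23 264)) (.l1 .sk)) (.nx 136 216 (.l1 .sk) (.nx 140 131073
  (.nx 138 16385 (.lg 0 false 2 97 97 23 0 30960) (.nr 139 65537 (.lg 0 true 1 89 89 19 0 15480)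
  .out)) (.nr 141 1025 (.lg 0 true 1 71 71 19 0 15480) .out))))) .out) .out)) (.na 145 180 (.lg 0
  false 1 0 0 16 0 24) (.nx 156 1048577 (.nr 155 1482912 (.nr 146 180 .s1 (.nx 153 131073 (.nx 148
  215 (.nr 147 1879 (.l1 (.ls 29 37 259)) (.l1 .sk)) (.nx 149 216 (.l1 .sk) (.nx 151 16385 (.lg 0
  false 2 89 89 37 0 30960) (.nr 152 65537 (.lg 0 true 1 83 83 31 0 30960) .out)))) (.nr 154 1025
  (.lg 0 true 1 67 67 31 0 30960) .out))) .out) .out))))) (.na 222 196 (.na 197 189 (.na 172 185
  (.na 171 182 (.nx 170 1048577 (.nr 169 1482912 (.nr 158 181 .s1 (.nx 165 32769 (.nx 160 215 (.nr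
  159 1890 (.l1 (.ls 19 17 258)) (.l1 .sk)) (.nx 161 216 (.l1 .sk) (.lg 0 false 4 83 83 19 0
  30960))) (.nr 168 16385 (.nr 166 1025 (.lg 0 false 1 67 67 16 0 15480) (.nx 167 131073 (.lg 2
  true 1 59 59 16 13747 15480) .out)) .out))) .out) .out) .ne) (.na 185 186 (.nx 184 1048577 (.nr
  183 1048577 (.nr 173 185 .s1 (.nx 179 32769 (.nx 175 215 (.nr 174 1931 (.l1 (.ls 23 19 252)) (.l1
  .sk)) (.nx 176 216 (.l1 .sk) (.lg 0 false 3 89 89 19 0 15480))) (.nr 182 16385 (.nr 180 1025 (.lg
  0 false 1 71 71 17 0 15480) (.nx 181 131073 (.lg 2 true 1 61 61 17 13747 15480) .out)) .out)))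
  .out) .out) (.nx 196 1048577 (.nr 195 1048577 (.nr 186 186 .s1 (.nx 188 215 (.nr 187 1962 (.l1
  (.ls 29 29 251)) (.l1 .sk)) (.nx 189 216 (.l1 .sk) (.nr 192 65537 (.nx 190 131073 (.lg 0 false 1
  97 97 29 0 216720) (.nr 191 1025 (.lg 0 true 1 71 71 29 0 30960) .out)) (.nx 194 16385 (.lg 0
  false 2 97 97 29 0 216720) .out))))) .out) .out))) (.na 210 192 (.na 209 191 (.nx 208 1048577
  (.nr 207 1048577 (.nr 198 189 .s1 (.nx 205 131073 (.nx 200 215 (.nr 199 1983 (.l1 (.ls 31 29
  247)) (.l1 .sk)) (.nx 201 216 (.l1 .sk) (.nr 202 65537 (.lg 0 false 1 89 89 23 0 108360) (.nx 204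
  16385 (.lg 0 false 2 89 89 29 0 216720) .out)))) (.nr 206 1025 (.lg 0 true 1 71 71 23 0 108360)
  .out))) .out) .out) (.lg 0 false 1 0 0 16 0 24)) (.na 221 193 (.nx 220 1048577 (.nr 219 1048577
  (.nr 211 192 .s1 (.nx 217 131073 (.nx 213 215 (.nr 212 2004 (.l1 (.ls 37 31 243)) (.l1 .sk)) (.nx
  214 216 (.l1 .sk) (.nr 215 65537 (.lg 0 true 1 89 97 31 0 216720) (.nx 216 16385 (.lg 0 false 1
  97 97 31 0 216720) .out)))) (.nr 218 1025 (.lg 0 true 1 73 73 31 0 30960) .out))) .out) .out)
  (.lg 0 false 1 0 0 16 0 24)))) (.na 248 200 (.na 235 198 (.na 234 197 (.nx 233 1048577 (.nr 232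
  1048577 (.nr 223 196 .s1 (.nx 226 216 (.nx 225 215 (.nr 224 2045 (.l1 (.ls 31 29 238)) (.l1 .sk))
  (.l1 .sk)) (.nx 230 131073 (.nr 227 65537 (.lg 0 false 1 89 89 29 0 216720) (.nx 229 16385 (.lg 0
  false 2 89 89 31 0 216720) .out)) (.nr 231 1025 (.lg 0 true 1 71 71 29 0 216720) .out)))) .out)
  .out) (.lg 0 false 1 0 0 16 0 24)) (.na 247 199 (.nx 246 1048577 (.nr 245 1048577 (.nr 236 198
  .s1 (.nx 243 131073 (.nx 238 215 (.nr 237 2066 (.l1 (.ls 29 37 236)) (.l1 .sk)) (.nx 239 216 (.l1
  .sk) (.nr 240 65537 (.lg 0 false 1 89 89 31 0 340560) (.nx 242 16385 (.lg 0 false 2 89 89 37 0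
  340560) .out)))) (.nr 244 1025 (.lg 0 true 1 71 71 31 0 340560) .out))) .out) .out) (.lg 0 false
  1 0 0 16 0 24))) (.na 262 205 (.na 249 202 (.lg 0 false 1 0 0 16 0 24) (.nx 261 1048577 (.nr 260
  1048577 (.nr 250 202 .s1 (.nx 256 32769 (.nx 252 215 (.nr 251 2128 (.l1 (.ls 19 29 231)) (.l1
  .sk)) (.nx 253 216 (.l1 .sk) (.lg 0 false 3 83 83 29 0 30960))) (.nr 259 16385 (.nr 257 1025 (.lg
  0 false 1 67 67 23 0 30960) (.nx 258 131073 (.lg 2 true 1 59 59 23 13747 30960) .out)) .out)))
  .out) .out)) (.na 275 210 (.nx 274 1048577 (.nr 273 1048577 (.nr 263 205 .s1 (.nx 266 216 (.nx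
  265 215 (.nr 264 2180 (.l1 (.ls 17 19 228)) (.l1 .sk)) (.l1 .sk)) (.nx 269 32769 (.lg 0 false 3
  83 83 19 0 15480) (.nr 272 16385 (.nr 270 1025 (.lg 0 false 1 67 67 17 0 15480) (.nx 271 131073
  (.lg 2 false 1 59 59 17 13747 30960) .out)) .out)))) .out) .out) (.na 286 211 (.nx 285 1048577
  (.nr 284 1048577 (.nr 276 210 .s1 (.nx 279 216 (.nx 278 215 (.nr 277 2191 (.l1 (.ls 31 37 223))
  (.l1 .sk)) (.l1 .sk)) (.nr 282 65537 (.nx 280 131073 (.lg 0 false 1 89 89 37 0 216720) (.nr 281
  1025 (.lg 0 true 1 71 71 37 0 216720) .out)) (.nx 283 16385 (.lg 0 true 1 89 89 37 0 216720)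
  .out)))) .out) .out) (.lg 0 false 1 0 0 16 0 24))))))) (.na 456 237 (.na 376 224 (.na 332 219
  (.na 310 217 (.na 299 216 (.nx 298 1048577 (.nr 297 1048577 (.nr 288 215 .s1 (.nx 294 32769 (.nx
  290 215 (.nr 289 2243 (.l1 (.ls 16 19 217)) (.l1 .sk)) (.nx 291 216 (.l1 .sk) (.lg 0 true 3 73 73
  19 0 15480))) (.nr 296 16385 (.lg 0 false 2 73 73 17 0 30960) .out))) .out) .out) (.nx 309
  1048577 (.nr 308 1048577 (.nr 300 216 .s1 (.nx 303 216 (.nx 302 215 (.nr 301 2253 (.l1 (.ls 31 31
  217)) (.l1 .sk)) (.l1 .sk)) (.nr 306 65537 (.nx 304 131073 (.lg 0 true 1 89 89 31 0 30960) (.nr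
  305 1025 (.lg 0 true 1 71 71 31 0 30960) .out)) (.nx 307 16385 (.lg 0 false 1 89 97 31 0 30960)
  .out)))) .out) .out)) (.na 321 218 (.nx 320 1048577 (.nr 319 1048577 (.nr 311 217 .s1 (.nx 313
  215 (.nr 312 2263 (.l1 (.ls 29 19 216)) (.l1 .sk)) (.nx 314 216 (.l1 .sk) (.nr 317 65537 (.nx 315
  131073 (.lg 0 false 1 89 89 19 0 108360) (.nr 316 1025 (.lg 0 true 1 71 71 19 0 108360) .out))
  (.nx 318 16385 (.lg 0 true 1 97 97 19 0 108360) .out))))) .out) .out) (.nx 331 1048577 (.nr 330
  1048577 (.nr 322 218 .s1 (.nx 328 32769 (.nx 324 215 (.nr 323 2274 (.l1 (.ls 23 23 215)) (.l1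
  .sk)) (.nx 325 216 (.l1 .sk) (.lg 0 false 3 83 83 29 0 30960))) (.nr 329 16385 (.lg 0 false 1 83
  83 23 0 30960) .out))) .out) .out))) (.na 354 222 (.na 343 220 (.nx 342 1048577 (.nr 341 1048577
  (.nr 333 219 .s1 (.nx 336 216 (.nx 335 215 (.nr 334 2284 (.l1 (.ls 29 23 214)) (.l1 .sk)) (.l1
  .sk)) (.nr 339 65537 (.nx 337 131073 (.lg 0 true 1 83 83 19 0 15480) (.nr 338 1025 (.lg 0 true 1
  61 61 19 0 15480) .out)) (.nx 340 16385 (.lg 0 false 1 89 89 19 0 15480) .out)))) .out) .out)
  (.nx 353 1048577 (.nr 352 1048577 (.nr 344 220 .s1 (.nx 346 215 (.nr 345 2305 (.l1 (.ls 31 31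
  213)) (.l1 .sk)) (.nx 347 216 (.l1 .sk) (.nx 350 131073 (.nr 348 65537 (.lg 0 false 1 89 89 31 0
  2383920) (.nx 349 16385 (.lg 0 true 1 97 97 31 0 2383920) .out)) (.nr 351 1025 (.lg 0 true 1 71
  71 31 0 340560) .out))))) .out) .out)) (.na 365 223 (.nx 364 1048577 (.nr 363 1048577 (.nr 355
  222 .s1 (.nx 357 215 (.nr 356 2315 (.l1 (.ls 29 31 211)) (.l1 .sk)) (.nx 358 216 (.l1 .sk) (.nx
  361 131073 (.nr 359 65537 (.lg 0 false 1 89 89 31 0 30960) (.nx 360 16385 (.lg 0 false 1 89 89 31
  0 30960) .out)) (.nr 362 1025 (.lg 0 true 1 71 71 31 0 30960) .out))))) .out) .out) (.nx 375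
  1048577 (.nr 374 1048577 (.nr 366 223 .s1 (.nx 372 32769 (.nx 368 215 (.nr 367 2326 (.l1 (.ls 19
  17 210)) (.l1 .sk)) (.nx 369 216 (.l1 .sk) (.lg 0 false 3 79 79 19 0 15480))) (.nr 373 16385 (.lg
  0 false 1 83 83 16 0 15480) .out))) .out) .out)))) (.na 412 229 (.na 388 226 (.na 387 225 (.nx
  386 1048577 (.nr 385 1048577 (.nr 377 224 .s1 (.nx 383 131073 (.nx 379 215 (.nr 378 2336 (.l1
  (.ls 37 29 209)) (.l1 .sk)) (.nx 380 216 (.l1 .sk) (.nr 381 65537 (.lg 0 true 1 89 89 31 0
  216720) (.nx 382 16385 (.lg 0 false 1 97 97 31 0 216720) .out)))) (.nr 384 1025 (.lg 0 true 1 73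
  73 31 0 216720) .out))) .out) .out) (.lg 0 false 1 0 0 16 0 24)) (.na 399 227 (.nx 398 1048577
  (.nr 397 1048577 (.nr 389 226 .s1 (.nx 395 32769 (.nx 391 215 (.nr 390 2357 (.l1 (.ls 19 23 207))
  (.l1 .sk)) (.nx 392 216 (.l1 .sk) (.lg 0 false 3 79 79 29 0 30960))) (.nr 396 16385 (.lg 0 false
  1 83 83 23 0 30960) .out))) .out) .out) (.nx 411 1048577 (.nr 410 1048577 (.nr 400 227 .s1 (.nx
  406 32769 (.nx 402 215 (.nr 401 2378 (.l1 (.ls 19 17 206)) (.l1 .sk)) (.nx 403 216 (.l1 .sk) (.lg
  0 false 3 79 79 19 0 15480))) (.nr 409 16385 (.nr 407 1025 (.lg 0 false 1 67 67 17 0 216720) (.nx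
  408 131073 (.lg 2 false 1 53 53 17 13747 15480) .out)) .out))) .out) .out))) (.na 434 233 (.na
  423 231 (.nx 422 1048577 (.nr 421 1048577 (.nr 413 229 .s1 (.nx 419 32769 (.nx 415 215 (.nr 414
  2398 (.l1 (.ls 19 17 204)) (.l1 .sk)) (.nx 416 216 (.l1 .sk) (.lg 0 false 3 79 79 19 0 15480)))
  (.nr 420 16385 (.lg 0 false 1 83 83 17 0 340560) .out))) .out) .out) (.nx 433 1048577 (.nr 432
  1048577 (.nr 424 231 .s1 (.nx 427 216 (.nx 426 215 (.nr 425 2419 (.l1 (.ls 37 29 203)) (.l1 .sk))
  (.l1 .sk)) (.nx 430 131073 (.nr 428 65537 (.lg 0 true 1 97 97 31 0 2383920) (.nx 429 16385 (.lg 0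
  false 1 97 97 31 0 1191960) .out)) (.nr 431 1025 (.lg 0 true 1 73 73 31 0 1191960) .out)))) .out)
  .out)) (.na 445 236 (.nx 444 1048577 (.nr 443 1048577 (.nr 435 233 .s1 (.nx 438 216 (.nx 437 215
  (.nr 436 2450 (.l1 (.ls 19 17 201)) (.l1 .sk)) (.l1 .sk)) (.nx 441 32769 (.lg 0 false 3 79 79 19
  0 15480) (.nr 442 16385 (.lg 0 false 1 83 83 17 0 15480) .out)))) .out) .out) (.nx 455 1048577
  (.nr 454 1048577 (.nr 446 236 .s1 (.nx 448 215 (.nr 447 2461 (.l1 (.ls 29 23 198)) (.l1 .sk))
  (.nx 449 216 (.l1 .sk) (.nx 452 131073 (.nr 450 65537 (.lg 0 false 1 89 89 23 0 30960) (.nx 451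
  16385 (.lg 0 false 1 89 89 23 0 30960) .out)) (.nr 453 1025 (.lg 0 true 1 71 71 23 0 30960)
  .out))))) .out) .out))))) (.na 528 248 (.na 490 242 (.na 478 240 (.na 467 239 (.nx 466 1048577
  (.nr 465 1048577 (.nr 457 237 .s1 (.nx 459 215 (.nr 458 2481 (.l1 (.ls 23 23 198)) (.l1 .sk))
  (.nx 460 216 (.l1 .sk) (.nx 463 131073 (.nr 461 65537 (.lg 0 true 1 83 83 19 0 15480) (.nx 462
  16385 (.lg 0 false 1 83 83 19 0 15480) .out)) (.nr 464 1025 (.lg 0 true 1 61 61 19 0 15480)
  .out))))) .out) .out) (.nx 477 1048577 (.nr 476 1048577 (.nr 468 239 .s1 (.nx 474 32769 (.nx 470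
  215 (.nr 469 2492 (.l1 (.ls 19 17 196)) (.l1 .sk)) (.nx 471 216 (.l1 .sk) (.lg 0 false 3 79 79 19
  0 15480))) (.nr 475 16385 (.lg 0 false 1 83 83 17 0 216720) .out))) .out) .out)) (.na 489 241
  (.nx 488 1048577 (.nr 487 1048577 (.nr 479 240 .s1 (.nx 481 215 (.nr 480 2502 (.l1 (.ls 37 31
  195)) (.l1 .sk)) (.nx 482 216 (.l1 .sk) (.nr 485 65537 (.nx 483 131073 (.lg 0 true 1 89 89 37 0
  30960) (.nr 484 1025 (.lg 0 true 1 71 71 37 0 30960) .out)) (.nx 486 16385 (.lg 0 false 1 89 97
  37 0 30960) .out))))) .out) .out) (.lg 0 false 1 0 0 16 0 24))) (.na 508 245 (.na 499 243 (.nx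
  498 1048577 (.nr 497 1048577 (.nr 491 242 .s1 (.nx 494 216 (.nx 493 215 (.nr 492 2523 (.l1 (.ls
  23 29 194)) (.l1 .sk)) (.l1 .sk)) (.nx 495 32769 (.lg 0 true 1 97 97 29 0 2383920) (.nr 496 16385
  (.lg 0 false 1 89 89 29 0 2383920) .out)))) .out) .out) (.nx 507 1048577 (.nr 506 1048577 (.nr
  500 243 .s1 (.nx 504 32769 (.nx 502 215 (.nr 501 2544 (.l1 (.ls 19 23 193)) (.l1 .sk)) (.nx 503
  216 (.l1 .sk) (.lg 0 true 1 89 89 19 0 30960))) (.nr 505 16385 (.lg 0 false 1 79 79 19 0 15480)
  .out))) .out) .out)) (.na 517 246 (.nx 516 1048577 (.nr 515 1048577 (.nr 509 245 .s1 (.nx 511 215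
  (.nr 510 2554 (.l1 (.ls 23 23 191)) (.l1 .sk)) (.nx 512 216 (.l1 .sk) (.nx 513 32769 (.lg 0 true
  1 89 89 19 0 108360) (.nr 514 16385 (.lg 0 false 1 83 83 19 0 108360) .out))))) .out) .out) (.nx
  527 1048577 (.nr 526 1048577 (.nr 518 246 .s1 (.nx 521 216 (.nx 520 215 (.nr 519 2575 (.l1 (.ls
  29 31 190)) (.l1 .sk)) (.l1 .sk)) (.nr 524 65537 (.nx 522 131073 (.lg 0 false 1 89 89 31 0 30960)
  (.nr 523 1025 (.lg 0 true 1 67 67 31 0 30960) .out)) (.nx 525 16385 (.lg 0 true 1 89 89 31 0
  30960) .out)))) .out) .out)))) (.na 560 256 (.na 540 251 (.na 539 250 (.nx 538 1048577 (.nr 537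
  1048577 (.nr 529 248 .s1 (.nx 535 131073 (.nx 531 215 (.nr 530 2596 (.l1 (.ls 29 23 189)) (.l1
  .sk)) (.nx 532 216 (.l1 .sk) (.nr 533 65537 (.lg 0 true 1 97 97 29 0 216720) (.nx 534 16385 (.lg
  0 false 1 101 101 29 0 216720) .out)))) (.nr 536 1025 (.lg 0 true 1 73 73 29 0 30960) .out)))
  .out) .out) (.lg 0 false 1 0 0 16 0 24)) (.na 549 252 (.nx 548 1048577 (.nr 547 1048577 (.nr 541
  251 .s1 (.nx 545 32769 (.nx 543 215 (.nr 542 2616 (.l1 (.ls 19 17 187)) (.l1 .sk)) (.nx 544 216
  (.l1 .sk) (.lg 0 true 1 89 89 17 0 15480))) (.nr 546 16385 (.lg 0 false 1 83 83 17 0 15480)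
  .out))) .out) .out) (.nx 559 1048577 (.nr 558 1048577 (.nr 550 252 .s1 (.nx 556 131073 (.nx 552
  215 (.nr 551 2658 (.l1 (.ls 37 31 186)) (.l1 .sk)) (.nx 553 216 (.l1 .sk) (.nr 554 65537 (.lg 0
  true 1 89 89 37 0 216720) (.nx 555 16385 (.lg 0 false 1 89 97 37 0 216720) .out)))) (.nr 557 1025
  (.lg 0 true 1 71 73 37 0 216720) .out))) .out) .out))) (.na 1043 363 (.na 570 257 (.nx 569
  1048577 (.nr 568 1482912 (.nr 561 256 .s1 (.nx 562 257 (.l1 (.ls 79 29 261)) (.nr 567 1048577
  (.nx 565 131073 (.nr 563 65537 (.lg 0 false 1 83 83 29 0 30960) (.nx 564 20644 (.lg 0 true 1 89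
  89 29 0 216720) .out)) (.nr 566 2049 (.lg 0 true 1 71 71 29 0 30960) .out)) .out))) .out) .out)
  (.nx 1042 1048577 (.nr 1041 1482912 (.nr 571 257 .s1 (.nx 720 257 (.nx 678 215 (.nr 677 3769 (.la
  (.ls 41 19 182)) (.l1 .sk)) (.nx 679 216 (.l1 .sk) (.lx (.lp 89 17 91)))) (.nr 1040 1048577 (.nx
  933 131073 (.nx 826 20644 (.la (.lg 0 false 1 83 83 23 0)) (.nr 932 32769 (.la (.lg 0 true 1 79
  79 23 0)) .out)) (.nr 1039 2049 (.la (.lg 0 true 1 71 71 23 0)) .out)) .out))) .out) .out)) (.na
  1538 512 (.nx 1537 1048577 (.nr 1536 1482912 (.nr 1044 363 .s1 (.nx 1194 215 (.nr 1193 5315 (.la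
  (.ls 37 19 130)) (.l1 .sk)) (.nx 1195 216 (.l1 .sk) (.nx 1236 257 (.lx (.lp 79 19 129)) (.nr 1535
  1048577 (.nr 1385 32769 (.la (.lg 0 true 1 83 83 23 0)) (.nx 1534 20644 (.la (.lg 0 false 1 79 79
  23 0)) .out)) .out))))) .out) .out) (.na 2226 725 (.nx 2225 1048577 (.nr 2224 1482912 (.nr 1539
  512 .s1 (.nx 1796 257 (.nx 1754 215 (.nr 1753 7526 (.lx (.lp 41 19 182)) (.l1 .sk)) (.nx 1755 216
  (.l1 .sk) (.lx (.lp 83 19 182)))) (.nr 2223 1048577 (.nr 2009 32769 (.la (.lg 0 true 1 79 79 29
  0)) (.nx 2222 20644 (.la (.lg 0 false 1 79 79 29 0)) .out)) .out))) .out) .out) (.nx 2827 13005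
  (.nr 2826 1048577 (.nr 2227 725 .s1 (.nx 2526 2049 (.la (.ls 73 41 5793)) (.nr 2825 65537 (.la
  (.lg 0 false 1 53 59 29 0)) .out))) .out) .out))))))))

theorem c2 :
    OkQ ckI L10 248 1 4 0 34359738368 1 1099511627776 ∧
    OkQ ckI L9 215 157 1024 0 34359738368 1 1099511627776 := by
  refine ⟨?_, ?_⟩
  · refine fin 2232 964 T2_0 ?_
    refine jn 10 (by decide +kernel) ?_
    refine jn 16 (by decide +kernel) ?_
    refine jn 21 (by decide +kernel) ?_
    refine jn 27 (by decide +kernel) ?_
    refine jn 35 (by decide +kernel) ?_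
    refine jn 41 (by decide +kernel) ?_
    refine jn 46 (by decide +kernel) ?_
    refine jn 53 (by decide +kernel) ?_
    refine jn 56 (by decide +kernel) ?_
    refine jn 61 (by decide +kernel) ?_
    refine jn 68 (by decide +kernel) ?_
    refine jn 74 (by decide +kernel) ?_
    refine jn 80 (by decide +kernel) ?_
    refine jn 86 (by decide +kernel) ?_
    refine jn 91 (by decide +kernel) ?_
    refine jn 96 (by decide +kernel) ?_
    refine jn 102 (by decide +kernel) ?_
    refine jn 108 (by decide +kernel) ?_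
    refine jn 143 (by decide +kernel) ?_
    refine jn 171 (by decide +kernel) ?_
    refine jn 181 (by decide +kernel) ?_
    refine jn 193 (by decide +kernel) ?_
    refine jn 205 (by decide +kernel) ?_
    refine jn 218 (by decide +kernel) ?_
    refine jn 229 (by decide +kernel) ?_
    refine jn 236 (by decide +kernel) ?_
    refine jn 263 (by decide +kernel) ?_
    refine jn 286 (by decide +kernel) ?_
    refine jn 307 (by decide +kernel) ?_
    refine jn 329 (by decide +kernel) ?_
    refine jn 346 (by decide +kernel) ?_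
    refine jn 378 (by decide +kernel) ?_
    refine jn 396 (by decide +kernel) ?_
    refine jn 422 (by decide +kernel) ?_
    refine jn 431 (by decide +kernel) ?_
    refine jn 457 (by decide +kernel) ?_
    refine jn 466 (by decide +kernel) ?_
    refine jn 486 (by decide +kernel) ?_
    refine jn 501 (by decide +kernel) ?_
    refine jn 519 (by decide +kernel) ?_
    refine jn 536 (by decide +kernel) ?_
    refine jn 561 (by decide +kernel) ?_
    refine jn 572 (by decide +kernel) ?_
    refine jn 592 (by decide +kernel) ?_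
    refine jn 608 (by decide +kernel) ?_
    refine jn 614 (by decide +kernel) ?_
    refine jn 647 (by decide +kernel) ?_
    refine jn 656 (by decide +kernel) ?_
    refine jn 657 (by decide +kernel) ?_
    refine jn 659 (by decide +kernel) ?_
    refine jn 660 (by decide +kernel) ?_
    refine jn 661 (by decide +kernel) ?_
    refine jn 663 (by decide +kernel) ?_
    refine jn 664 (by decide +kernel) ?_
    refine jn 665 (by decide +kernel) ?_
    refine jn 667 (by decide +kernel) ?_
    refine jn 668 (by decide +kernel) ?_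
    refine jn 669 (by decide +kernel) ?_
    refine jn 670 (by decide +kernel) ?_
    refine jn 672 (by decide +kernel) ?_
    refine jn 673 (by decide +kernel) ?_
    refine jn 674 (by decide +kernel) ?_
    refine jn 676 (by decide +kernel) ?_
    refine jn 677 (by decide +kernel) ?_
    refine jn 678 (by decide +kernel) ?_
    refine jn 680 (by decide +kernel) ?_
    refine jn 681 (by decide +kernel) ?_
    refine jn 682 (by decide +kernel) ?_
    refine jn 695 (by decide +kernel) ?_
    refine jn 709 (by decide +kernel) ?_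
    refine jn 718 (by decide +kernel) ?_
    refine jn 723 (by decide +kernel) ?_
    refine jn 726 (by decide +kernel) ?_
    refine jn 729 (by decide +kernel) ?_
    refine jn 732 (by decide +kernel) ?_
    refine jn 735 (by decide +kernel) ?_
    refine jn 737 (by decide +kernel) ?_
    refine jn 744 (by decide +kernel) ?_
    refine jn 751 (by decide +kernel) ?_
    refine jn 756 (by decide +kernel) ?_
    refine jn 761 (by decide +kernel) ?_
    refine jn 766 (by decide +kernel) ?_
    refine jn 772 (by decide +kernel) ?_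
    refine jn 777 (by decide +kernel) ?_
    refine jn 782 (by decide +kernel) ?_
    refine jn 787 (by decide +kernel) ?_
    refine jn 792 (by decide +kernel) ?_
    refine jn 798 (by decide +kernel) ?_
    refine jn 803 (by decide +kernel) ?_
    refine jn 808 (by decide +kernel) ?_
    refine jn 813 (by decide +kernel) ?_
    refine jn 818 (by decide +kernel) ?_
    refine jn 823 (by decide +kernel) ?_
    refine jn 827 (by decide +kernel) ?_
    refine jn 831 (by decide +kernel) ?_
    refine jn 835 (by decide +kernel) ?_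
    refine jn 839 (by decide +kernel) ?_
    refine jn 842 (by decide +kernel) ?_
    refine jn 846 (by decide +kernel) ?_
    refine jn 850 (by decide +kernel) ?_
    refine jn 853 (by decide +kernel) ?_
    refine jn 858 (by decide +kernel) ?_
    refine jn 863 (by decide +kernel) ?_
    refine jn 867 (by decide +kernel) ?_
    refine jn 873 (by decide +kernel) ?_
    refine jn 879 (by decide +kernel) ?_
    refine jn 889 (by decide +kernel) ?_
    refine jn 894 (by decide +kernel) ?_
    refine jn 907 (by decide +kernel) ?_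
    refine jn 920 (by decide +kernel) ?_
    refine jn 924 (by decide +kernel) ?_
    refine jn 931 (by decide +kernel) ?_
    refine jn 959 (by decide +kernel) ?_
    exact je (by decide +kernel)
  · refine fin 15480 2828 T2_1 ?_
    refine jn 10 (by decide +kernel) ?_
    refine jn 23 (by decide +kernel) ?_
    refine jn 34 (by decide +kernel) ?_
    refine jn 47 (by decide +kernel) ?_
    refine jn 61 (by decide +kernel) ?_
    refine jn 73 (by decide +kernel) ?_
    refine jn 84 (by decide +kernel) ?_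
    refine jn 92 (by decide +kernel) ?_
    refine jn 93 (by decide +kernel) ?_
    refine jn 95 (by decide +kernel) ?_
    refine jn 96 (by decide +kernel) ?_
    refine jn 97 (by decide +kernel) ?_
    refine jn 99 (by decide +kernel) ?_
    refine jn 100 (by decide +kernel) ?_
    refine jn 102 (by decide +kernel) ?_
    refine jn 103 (by decide +kernel) ?_
    refine jn 115 (by decide +kernel) ?_
    refine jn 126 (by decide +kernel) ?_
    refine jn 129 (by decide +kernel) ?_
    refine jn 139 (by decide +kernel) ?_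
    refine jn 151 (by decide +kernel) ?_
    refine jn 165 (by decide +kernel) ?_
    refine jn 180 (by decide +kernel) ?_
    refine jn 191 (by decide +kernel) ?_
    refine jn 202 (by decide +kernel) ?_
    refine jn 210 (by decide +kernel) ?_
    refine jn 215 (by decide +kernel) ?_
    refine jn 218 (by decide +kernel) ?_
    refine jn 229 (by decide +kernel) ?_
    refine jn 242 (by decide +kernel) ?_
    refine jn 257 (by decide +kernel) ?_
    refine jn 271 (by decide +kernel) ?_
    refine jn 281 (by decide +kernel) ?_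
    refine jn 296 (by decide +kernel) ?_
    refine jn 304 (by decide +kernel) ?_
    refine jn 307 (by decide +kernel) ?_
    refine jn 316 (by decide +kernel) ?_
    refine jn 329 (by decide +kernel) ?_
    refine jn 338 (by decide +kernel) ?_
    refine jn 349 (by decide +kernel) ?_
    refine jn 360 (by decide +kernel) ?_
    refine jn 373 (by decide +kernel) ?_
    refine jn 381 (by decide +kernel) ?_
    refine jn 384 (by decide +kernel) ?_
    refine jn 406 (by decide +kernel) ?_
    refine jn 420 (by decide +kernel) ?_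
    refine jn 428 (by decide +kernel) ?_
    refine jn 431 (by decide +kernel) ?_
    refine jn 447 (by decide +kernel) ?_
    refine jn 453 (by decide +kernel) ?_
    refine jn 462 (by decide +kernel) ?_
    refine jn 475 (by decide +kernel) ?_
    refine jn 483 (by decide +kernel) ?_
    refine jn 486 (by decide +kernel) ?_
    refine jn 504 (by decide +kernel) ?_
    refine jn 514 (by decide +kernel) ?_
    refine jn 525 (by decide +kernel) ?_
    refine jn 533 (by decide +kernel) ?_
    refine jn 536 (by decide +kernel) ?_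
    refine jn 550 (by decide +kernel) ?_
    refine jn 554 (by decide +kernel) ?_
    refine jn 557 (by decide +kernel) ?_
    refine jn 564 (by decide +kernel) ?_
    refine jn 578 (by decide +kernel) ?_
    refine jn 579 (by decide +kernel) ?_
    refine jn 602 (by decide +kernel) ?_
    refine jn 611 (by decide +kernel) ?_
    refine jn 630 (by decide +kernel) ?_
    refine jn 647 (by decide +kernel) ?_
    refine jn 650 (by decide +kernel) ?_
    refine jn 651 (by decide +kernel) ?_
    refine jn 674 (by decide +kernel) ?_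
    refine jn 720 (by decide +kernel) ?_
    refine jn 722 (by decide +kernel) ?_
    refine jn 727 (by decide +kernel) ?_
    refine jn 728 (by decide +kernel) ?_
    refine jn 737 (by decide +kernel) ?_
    refine jn 742 (by decide +kernel) ?_
    refine jn 743 (by decide +kernel) ?_
    refine jn 744 (by decide +kernel) ?_
    refine jn 751 (by decide +kernel) ?_
    refine jn 752 (by decide +kernel) ?_
    refine jn 758 (by decide +kernel) ?_
    refine jn 759 (by decide +kernel) ?_
    refine jn 760 (by decide +kernel) ?_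
    refine jn 766 (by decide +kernel) ?_
    refine jn 771 (by decide +kernel) ?_
    refine jn 772 (by decide +kernel) ?_
    refine jn 777 (by decide +kernel) ?_
    refine jn 779 (by decide +kernel) ?_
    refine jn 787 (by decide +kernel) ?_
    refine jn 790 (by decide +kernel) ?_
    refine jn 791 (by decide +kernel) ?_
    refine jn 792 (by decide +kernel) ?_
    refine jn 799 (by decide +kernel) ?_
    refine jn 800 (by decide +kernel) ?_
    refine jn 806 (by decide +kernel) ?_
    refine jn 810 (by decide +kernel) ?_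
    refine jn 815 (by decide +kernel) ?_
    refine jn 817 (by decide +kernel) ?_
    refine jn 823 (by decide +kernel) ?_
    refine jn 825 (by decide +kernel) ?_
    refine jn 828 (by decide +kernel) ?_
    refine jn 833 (by decide +kernel) ?_
    refine jn 834 (by decide +kernel) ?_
    refine jn 843 (by decide +kernel) ?_
    refine jn 848 (by decide +kernel) ?_
    refine jn 849 (by decide +kernel) ?_
    refine jn 856 (by decide +kernel) ?_
    refine jn 861 (by decide +kernel) ?_
    refine jn 865 (by decide +kernel) ?_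
    refine jn 870 (by decide +kernel) ?_
    refine jn 877 (by decide +kernel) ?_
    refine jn 880 (by decide +kernel) ?_
    refine jn 884 (by decide +kernel) ?_
    refine jn 889 (by decide +kernel) ?_
    refine jn 896 (by decide +kernel) ?_
    refine jn 899 (by decide +kernel) ?_
    refine jn 905 (by decide +kernel) ?_
    refine jn 906 (by decide +kernel) ?_
    refine jn 913 (by decide +kernel) ?_
    refine jn 921 (by decide +kernel) ?_
    refine jn 928 (by decide +kernel) ?_
    refine jn 931 (by decide +kernel) ?_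
    refine jn 935 (by decide +kernel) ?_
    refine jn 940 (by decide +kernel) ?_
    refine jn 941 (by decide +kernel) ?_
    refine jn 953 (by decide +kernel) ?_
    refine jn 956 (by decide +kernel) ?_
    refine jn 963 (by decide +kernel) ?_
    refine jn 968 (by decide +kernel) ?_
    refine jn 972 (by decide +kernel) ?_
    refine jn 977 (by decide +kernel) ?_
    refine jn 984 (by decide +kernel) ?_
    refine jn 987 (by decide +kernel) ?_
    refine jn 992 (by decide +kernel) ?_
    refine jn 1002 (by decide +kernel) ?_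
    refine jn 1004 (by decide +kernel) ?_
    refine jn 1009 (by decide +kernel) ?_
    refine jn 1012 (by decide +kernel) ?_
    refine jn 1013 (by decide +kernel) ?_
    refine jn 1020 (by decide +kernel) ?_
    refine jn 1028 (by decide +kernel) ?_
    refine jn 1035 (by decide +kernel) ?_
    refine jn 1038 (by decide +kernel) ?_
    refine jn 1059 (by decide +kernel) ?_
    refine jn 1073 (by decide +kernel) ?_
    refine jn 1088 (by decide +kernel) ?_
    refine jn 1113 (by decide +kernel) ?_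
    refine jn 1121 (by decide +kernel) ?_
    refine jn 1129 (by decide +kernel) ?_
    refine jn 1143 (by decide +kernel) ?_
    refine jn 1153 (by decide +kernel) ?_
    refine jn 1165 (by decide +kernel) ?_
    refine jn 1177 (by decide +kernel) ?_
    refine jn 1185 (by decide +kernel) ?_
    refine jn 1186 (by decide +kernel) ?_
    refine jn 1227 (by decide +kernel) ?_
    refine jn 1238 (by decide +kernel) ?_
    refine jn 1243 (by decide +kernel) ?_
    refine jn 1245 (by decide +kernel) ?_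
    refine jn 1246 (by decide +kernel) ?_
    refine jn 1252 (by decide +kernel) ?_
    refine jn 1257 (by decide +kernel) ?_
    refine jn 1258 (by decide +kernel) ?_
    refine jn 1265 (by decide +kernel) ?_
    refine jn 1266 (by decide +kernel) ?_
    refine jn 1269 (by decide +kernel) ?_
    refine jn 1270 (by decide +kernel) ?_
    refine jn 1278 (by decide +kernel) ?_
    refine jn 1283 (by decide +kernel) ?_
    refine jn 1286 (by decide +kernel) ?_
    refine jn 1293 (by decide +kernel) ?_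
    refine jn 1294 (by decide +kernel) ?_
    refine jn 1305 (by decide +kernel) ?_
    refine jn 1306 (by decide +kernel) ?_
    refine jn 1309 (by decide +kernel) ?_
    refine jn 1312 (by decide +kernel) ?_
    refine jn 1313 (by decide +kernel) ?_
    refine jn 1314 (by decide +kernel) ?_
    refine jn 1317 (by decide +kernel) ?_
    refine jn 1318 (by decide +kernel) ?_
    refine jn 1321 (by decide +kernel) ?_
    refine jn 1324 (by decide +kernel) ?_
    refine jn 1327 (by decide +kernel) ?_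
    refine jn 1334 (by decide +kernel) ?_
    refine jn 1335 (by decide +kernel) ?_
    refine jn 1336 (by decide +kernel) ?_
    refine jn 1339 (by decide +kernel) ?_
    refine jn 1344 (by decide +kernel) ?_
    refine jn 1345 (by decide +kernel) ?_
    refine jn 1346 (by decide +kernel) ?_
    refine jn 1351 (by decide +kernel) ?_
    refine jn 1353 (by decide +kernel) ?_
    refine jn 1357 (by decide +kernel) ?_
    refine jn 1362 (by decide +kernel) ?_
    refine jn 1365 (by decide +kernel) ?_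
    refine jn 1368 (by decide +kernel) ?_
    refine jn 1369 (by decide +kernel) ?_
    refine jn 1375 (by decide +kernel) ?_
    refine jn 1377 (by decide +kernel) ?_
    refine jn 1378 (by decide +kernel) ?_
    refine jn 1384 (by decide +kernel) ?_
    refine jn 1387 (by decide +kernel) ?_
    refine jn 1394 (by decide +kernel) ?_
    refine jn 1395 (by decide +kernel) ?_
    refine jn 1405 (by decide +kernel) ?_
    refine jn 1406 (by decide +kernel) ?_
    refine jn 1407 (by decide +kernel) ?_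
    refine jn 1414 (by decide +kernel) ?_
    refine jn 1417 (by decide +kernel) ?_
    refine jn 1418 (by decide +kernel) ?_
    refine jn 1423 (by decide +kernel) ?_
    refine jn 1429 (by decide +kernel) ?_
    refine jn 1433 (by decide +kernel) ?_
    refine jn 1439 (by decide +kernel) ?_
    refine jn 1442 (by decide +kernel) ?_
    refine jn 1452 (by decide +kernel) ?_
    refine jn 1454 (by decide +kernel) ?_
    refine jn 1456 (by decide +kernel) ?_
    refine jn 1460 (by decide +kernel) ?_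
    refine jn 1462 (by decide +kernel) ?_
    refine jn 1463 (by decide +kernel) ?_
    refine jn 1466 (by decide +kernel) ?_
    refine jn 1468 (by decide +kernel) ?_
    refine jn 1470 (by decide +kernel) ?_
    refine jn 1473 (by decide +kernel) ?_
    refine jn 1476 (by decide +kernel) ?_
    refine jn 1483 (by decide +kernel) ?_
    refine jn 1484 (by decide +kernel) ?_
    refine jn 1485 (by decide +kernel) ?_
    refine jn 1489 (by decide +kernel) ?_
    refine jn 1494 (by decide +kernel) ?_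
    refine jn 1495 (by decide +kernel) ?_
    refine jn 1501 (by decide +kernel) ?_
    refine jn 1506 (by decide +kernel) ?_
    refine jn 1512 (by decide +kernel) ?_
    refine jn 1514 (by decide +kernel) ?_
    refine jn 1517 (by decide +kernel) ?_
    refine jn 1518 (by decide +kernel) ?_
    refine jn 1524 (by decide +kernel) ?_
    refine jn 1526 (by decide +kernel) ?_
    refine jn 1527 (by decide +kernel) ?_
    refine jn 1543 (by decide +kernel) ?_
    refine jn 1593 (by decide +kernel) ?_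
    refine jn 1647 (by decide +kernel) ?_
    refine jn 1718 (by decide +kernel) ?_
    refine jn 1796 (by decide +kernel) ?_
    refine jn 1800 (by decide +kernel) ?_
    refine jn 1807 (by decide +kernel) ?_
    refine jn 1812 (by decide +kernel) ?_
    refine jn 1813 (by decide +kernel) ?_
    refine jn 1823 (by decide +kernel) ?_
    refine jn 1825 (by decide +kernel) ?_
    refine jn 1829 (by decide +kernel) ?_
    refine jn 1837 (by decide +kernel) ?_
    refine jn 1839 (by decide +kernel) ?_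
    refine jn 1842 (by decide +kernel) ?_
    refine jn 1844 (by decide +kernel) ?_
    refine jn 1846 (by decide +kernel) ?_
    refine jn 1853 (by decide +kernel) ?_
    refine jn 1860 (by decide +kernel) ?_
    refine jn 1861 (by decide +kernel) ?_
    refine jn 1868 (by decide +kernel) ?_
    refine jn 1871 (by decide +kernel) ?_
    refine jn 1872 (by decide +kernel) ?_
    refine jn 1874 (by decide +kernel) ?_
    refine jn 1876 (by decide +kernel) ?_
    refine jn 1877 (by decide +kernel) ?_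
    refine jn 1886 (by decide +kernel) ?_
    refine jn 1891 (by decide +kernel) ?_
    refine jn 1900 (by decide +kernel) ?_
    refine jn 1901 (by decide +kernel) ?_
    refine jn 1910 (by decide +kernel) ?_
    refine jn 1914 (by decide +kernel) ?_
    refine jn 1916 (by decide +kernel) ?_
    refine jn 1924 (by decide +kernel) ?_
    refine jn 1932 (by decide +kernel) ?_
    refine jn 1933 (by decide +kernel) ?_
    refine jn 1935 (by decide +kernel) ?_
    refine jn 1936 (by decide +kernel) ?_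
    refine jn 1938 (by decide +kernel) ?_
    refine jn 1940 (by decide +kernel) ?_
    refine jn 1941 (by decide +kernel) ?_
    refine jn 1944 (by decide +kernel) ?_
    refine jn 1945 (by decide +kernel) ?_
    refine jn 1953 (by decide +kernel) ?_
    refine jn 1956 (by decide +kernel) ?_
    refine jn 1957 (by decide +kernel) ?_
    refine jn 1965 (by decide +kernel) ?_
    refine jn 1969 (by decide +kernel) ?_
    refine jn 1972 (by decide +kernel) ?_
    refine jn 1977 (by decide +kernel) ?_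
    refine jn 1978 (by decide +kernel) ?_
    refine jn 1985 (by decide +kernel) ?_
    refine jn 1988 (by decide +kernel) ?_
    refine jn 1991 (by decide +kernel) ?_
    refine jn 1992 (by decide +kernel) ?_
    refine jn 1993 (by decide +kernel) ?_
    refine jn 2002 (by decide +kernel) ?_
    refine jn 2004 (by decide +kernel) ?_
    refine jn 2008 (by decide +kernel) ?_
    refine jn 2013 (by decide +kernel) ?_
    refine jn 2020 (by decide +kernel) ?_
    refine jn 2025 (by decide +kernel) ?_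
    refine jn 2026 (by decide +kernel) ?_
    refine jn 2037 (by decide +kernel) ?_
    refine jn 2040 (by decide +kernel) ?_
    refine jn 2050 (by decide +kernel) ?_
    refine jn 2053 (by decide +kernel) ?_
    refine jn 2057 (by decide +kernel) ?_
    refine jn 2062 (by decide +kernel) ?_
    refine jn 2071 (by decide +kernel) ?_
    refine jn 2074 (by decide +kernel) ?_
    refine jn 2084 (by decide +kernel) ?_
    refine jn 2087 (by decide +kernel) ?_
    refine jn 2090 (by decide +kernel) ?_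
    refine jn 2099 (by decide +kernel) ?_
    refine jn 2104 (by decide +kernel) ?_
    refine jn 2113 (by decide +kernel) ?_
    refine jn 2114 (by decide +kernel) ?_
    refine jn 2123 (by decide +kernel) ?_
    refine jn 2129 (by decide +kernel) ?_
    refine jn 2142 (by decide +kernel) ?_
    refine jn 2145 (by decide +kernel) ?_
    refine jn 2148 (by decide +kernel) ?_
    refine jn 2150 (by decide +kernel) ?_
    refine jn 2153 (by decide +kernel) ?_
    refine jn 2156 (by decide +kernel) ?_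
    refine jn 2158 (by decide +kernel) ?_
    refine jn 2169 (by decide +kernel) ?_
    refine jn 2170 (by decide +kernel) ?_
    refine jn 2178 (by decide +kernel) ?_
    refine jn 2183 (by decide +kernel) ?_
    refine jn 2190 (by decide +kernel) ?_
    refine jn 2192 (by decide +kernel) ?_
    refine jn 2201 (by decide +kernel) ?_
    refine jn 2205 (by decide +kernel) ?_
    refine jn 2208 (by decide +kernel) ?_
    refine jn 2216 (by decide +kernel) ?_
    refine jn 2221 (by decide +kernel) ?_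
    refine jn 2240 (by decide +kernel) ?_
    refine jn 2248 (by decide +kernel) ?_
    refine jn 2270 (by decide +kernel) ?_
    refine jn 2279 (by decide +kernel) ?_
    refine jn 2294 (by decide +kernel) ?_
    refine jn 2310 (by decide +kernel) ?_
    refine jn 2324 (by decide +kernel) ?_
    refine jn 2342 (by decide +kernel) ?_
    refine jn 2363 (by decide +kernel) ?_
    refine jn 2371 (by decide +kernel) ?_
    refine jn 2384 (by decide +kernel) ?_
    refine jn 2394 (by decide +kernel) ?_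
    refine jn 2410 (by decide +kernel) ?_
    refine jn 2426 (by decide +kernel) ?_
    refine jn 2439 (by decide +kernel) ?_
    refine jn 2455 (by decide +kernel) ?_
    refine jn 2474 (by decide +kernel) ?_
    refine jn 2486 (by decide +kernel) ?_
    refine jn 2503 (by decide +kernel) ?_
    refine jn 2525 (by decide +kernel) ?_
    refine jn 2534 (by decide +kernel) ?_
    refine jn 2545 (by decide +kernel) ?_
    refine jn 2546 (by decide +kernel) ?_
    refine jn 2558 (by decide +kernel) ?_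
    refine jn 2569 (by decide +kernel) ?_
    refine jn 2572 (by decide +kernel) ?_
    refine jn 2585 (by decide +kernel) ?_
    refine jn 2592 (by decide +kernel) ?_
    refine jn 2593 (by decide +kernel) ?_
    refine jn 2594 (by decide +kernel) ?_
    refine jn 2609 (by decide +kernel) ?_
    refine jn 2615 (by decide +kernel) ?_
    refine jn 2627 (by decide +kernel) ?_
    refine jn 2641 (by decide +kernel) ?_
    refine jn 2642 (by decide +kernel) ?_
    refine jn 2662 (by decide +kernel) ?_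
    refine jn 2665 (by decide +kernel) ?_
    refine jn 2670 (by decide +kernel) ?_
    refine jn 2678 (by decide +kernel) ?_
    refine jn 2686 (by decide +kernel) ?_
    refine jn 2689 (by decide +kernel) ?_
    refine jn 2690 (by decide +kernel) ?_
    refine jn 2703 (by decide +kernel) ?_
    refine jn 2709 (by decide +kernel) ?_
    refine jn 2723 (by decide +kernel) ?_
    refine jn 2725 (by decide +kernel) ?_
    refine jn 2726 (by decide +kernel) ?_
    refine jn 2738 (by decide +kernel) ?_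
    refine jn 2745 (by decide +kernel) ?_
    refine jn 2749 (by decide +kernel) ?_
    refine jn 2760 (by decide +kernel) ?_
    refine jn 2769 (by decide +kernel) ?_
    refine jn 2779 (by decide +kernel) ?_
    refine jn 2785 (by decide +kernel) ?_
    refine jn 2786 (by decide +kernel) ?_
    refine jn 2800 (by decide +kernel) ?_
    refine jn 2809 (by decide +kernel) ?_
    refine jn 2810 (by decide +kernel) ?_
    refine jn 2824 (by decide +kernel) ?_
    exact je (by decide +kernel)

end Pool.Agent.MP_2339ce_nt.NR
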