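import Pool.Agent.MP_2339ce_nt.Q2.NC.L10
import Pool.Agent.MP_2339ce_nt.Q2.CkI

/-! Block NR: runs. -/

set_option autoImplicit false
set_option maxRecDepth 100000

noncomputable section

namespace Pool.Agent.MP_2339ce_nt.NR

open Q2.Top

def T21_0 : Ph :=
  (.na 638 54 (.na 383 36 (.na 228 28 (.na 94 25 (.na 50 24 (.nx 49 2642247 (.nr 48 1048577 (.nr 1
  18 .s1 (.nx 3 224 (.nr 2 254 (.lg 0 true 1 31 31 11 0 5040) (.l1 .sk)) (.nx 4 225 (.l1 .sk) (.nx
  41 660563 (.nx 29 82572 (.nx 5 408 (.l1 (.ls 83 41 5039)) (.nr 28 741457 (.nr 16 185365 (.lg 0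
  false 11 97 103 16 0 55440) (.nx 27 16385 (.lg 0 false 11 97 101 16 0 55440) .out)) .out)) (.nr
  40 131073 (.nr 34 1726 (.lg 0 true 5 83 83 16 0 5040) (.nx 39 524289 (.lg 2 false 5 97 101 16
  39893 5040) .out)) .out)) (.nr 47 129 (.lg 0 true 6 71 71 16 0 1008) .out))))) .out) .out) (.nx
  93 2642247 (.nr 92 1048577 (.nr 51 19 .s1 (.nx 54 225 (.nx 53 224 (.nr 52 265 (.lg 0 false 1 37
  37 13 0 5040) (.l1 .sk)) (.l1 .sk)) (.nx 55 408 (.l1 (.ls 89 47 4829)) (.nr 91 741457 (.nr 88
  524289 (.nr 82 185365 (.nx 76 660563 (.nx 66 82572 (.lg 0 false 11 97 103 29 0 720720) (.nr 75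
  131073 (.nr 69 1762 (.lg 0 true 3 89 89 23 0 5040) (.nx 74 524289 (.lg 2 false 5 101 103 23 39893
  720720) .out)) .out)) (.nr 81 129 (.lg 0 true 5 71 73 23 0 5040) .out)) (.nx 87 16385 (.lg 0
  false 5 97 103 23 0 65520) .out)) (.nx 90 2582 (.lg 0 false 2 89 89 19 0 5040) .out)) .out))))
  .out) .out)) (.na 138 26 (.nx 137 2642247 (.nr 136 1048577 (.nr 95 21 .s1 (.nx 130 660563 (.nx 97
  224 (.nr 96 276 (.lg 0 true 1 29 29 16 0 5040) (.l1 .sk)) (.nx 98 225 (.l1 .sk) (.nx 99 408 (.l1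
  (.ls 83 37 4636)) (.nr 129 741457 (.nr 125 524289 (.nx 117 82572 (.nr 110 185365 (.lg 0 false 11
  89 101 17 0 55440) (.nx 116 16385 (.lg 0 false 6 89 97 16 0 5040) .out)) (.nr 124 131073 (.nr 120
  1810 (.lg 0 true 3 79 79 16 0 5040) (.nx 123 524289 (.lg 2 false 3 97 101 16 39893 5040) .out))
  .out)) (.nx 128 2582 (.lg 0 false 3 79 79 16 0 5040) .out)) .out)))) (.nr 135 129 (.lg 0 true 5
  71 71 16 0 5040) .out))) .out) .out) (.na 179 27 (.nx 178 2642247 (.nr 177 1048577 (.nr 139 22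
  .s1 (.nx 143 408 (.nx 141 224 (.nr 140 286 (.lg 0 true 1 31 31 11 0 65520) (.l1 .sk)) (.nx 142
  225 (.l1 .sk) (.l1 (.ls 83 43 4458)))) (.nr 176 741457 (.nr 172 524289 (.nr 166 185365 (.nx 160
  660563 (.nx 148 82572 (.lg 0 false 5 101 103 19 0 65520) (.nr 159 131073 (.nr 153 1854 (.lg 0
  true 5 83 83 19 0 65520) (.nx 158 524289 (.lg 2 false 5 97 101 19 39893 65520) .out)) .out)) (.nr
  165 129 (.lg 0 true 5 71 71 19 0 65520) .out)) (.nx 171 16385 (.lg 0 false 5 97 101 19 0 65520)
  .out)) (.nx 175 2582 (.lg 0 false 3 79 79 11 0 13104) .out)) .out))) .out) .out) (.nx 227 2642247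
  (.nr 226 1048577 (.nr 180 23 .s1 (.nx 183 225 (.nx 182 224 (.nr 181 297 (.lg 0 false 1 29 29 16 0
  5040) (.l1 .sk)) (.l1 .sk)) (.nx 208 82572 (.nx 184 408 (.l1 (.ls 79 41 4293)) (.nr 207 741457
  (.nr 195 185365 (.lg 0 false 11 89 101 17 0 55440) (.nx 206 16385 (.lg 0 false 11 83 97 17 0
  55440) .out)) .out)) (.nr 225 131073 (.nx 219 660563 (.nr 213 1901 (.lg 0 true 5 79 79 16 0 5040)
  (.nx 218 524289 (.lg 2 false 5 89 97 16 39893 5040) .out)) (.nr 224 129 (.lg 0 true 5 67 67 16 0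
  5040) .out)) .out)))) .out) .out)))) (.na 321 32 (.na 272 30 (.nx 271 2642247 (.nr 270 1048577
  (.nr 229 24 .s1 (.nx 232 225 (.nx 231 224 (.nr 230 318 (.lg 0 true 1 29 29 13 0 5040) (.l1 .sk))
  (.l1 .sk)) (.nx 265 660563 (.nx 257 82572 (.nx 233 408 (.l1 (.ls 79 43 4140)) (.nr 256 741457
  (.nr 244 185365 (.lg 0 false 11 97 101 23 0 720720) (.nx 255 16385 (.lg 0 false 11 89 101 23 0
  720720) .out)) .out)) (.nr 264 131073 (.nr 260 1990 (.lg 0 true 3 79 79 19 0 1008) (.nx 263
  524289 (.lg 2 false 3 97 97 19 39893 5040) .out)) .out)) (.nr 269 129 (.lg 0 true 4 67 67 19 0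
  1008) .out)))) .out) .out) (.nx 320 2642247 (.nr 319 1048577 (.nr 273 27 .s1 (.nx 276 225 (.nx
  275 224 (.nr 274 339 (.lg 0 false 1 37 37 19 0 5040) (.l1 .sk)) (.l1 .sk)) (.nx 277 408 (.l1 (.ls
  89 47 3864)) (.nr 318 741457 (.nr 315 524289 (.nr 291 26268 (.nx 279 25089 (.lg 0 true 2 83 83 23
  0 5040) (.nr 287 1005 (.nx 282 660563 (.lg 0 true 3 79 79 29 0 5040) (.nr 286 129 (.lg 0 true 4
  71 73 29 0 5040) .out)) (.nx 290 524289 (.nr 288 2984 (.lg 2 false 1 79 79 19 58429 5040) (.lg 2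
  false 2 79 79 23 26492 5040)) .out))) (.nx 314 524289 (.nx 306 82572 (.nr 302 185365 (.lg 0 false
  11 89 103 31 0 720720) (.nx 305 16385 (.lg 0 false 3 97 101 29 0 5040) .out)) (.nr 313 131073
  (.nr 310 92683 (.lg 2 true 4 79 79 29 28229 5040) (.nx 312 165142 (.lg 0 true 2 97 101 23 0 5040)
  .out)) .out)) .out)) (.nx 317 2582 (.lg 0 false 2 83 83 23 0 5040) .out)) .out)))) .out) .out))
  (.na 355 33 (.nx 354 2642247 (.nr 353 1048577 (.nr 322 29 .s1 (.nx 326 408 (.nx 324 224 (.nr 323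
  350 (.lg 0 true 1 31 31 13 0 5040) (.l1 .sk)) (.nx 325 225 (.l1 .sk) (.l1 (.ls 83 41 3622))))
  (.nr 352 741457 (.nx 348 524289 (.nx 334 16385 (.nr 331 623489 (.lg 0 false 5 89 97 19 0 5040)
  (.nx 332 1024 .out (.nx 333 2582 (.lg 0 false 1 79 79 13 0 1008) .out))) (.nr 347 185365 (.nx 337
  40549 (.lg 0 false 3 89 97 19 0 5040) (.nr 340 3041 (.lg 0 true 3 83 83 19 0 5040) (.nx 343 82572
  (.lg 1 false 3 89 101 19 114827 5040) (.nr 346 131073 (.lg 2 false 3 89 101 19 39893 5040)
  .out)))) .out)) (.nr 351 257 (.lg 0 true 3 73 73 19 0 1008) .out)) .out))) .out) .out) (.na 356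
  35 .ne (.nx 382 2642247 (.nr 381 881745 (.nr 357 32 .s1 (.nx 359 224 (.nr 358 382 (.lg 0 true 1
  29 29 16 0 5040) (.l1 .sk)) (.nx 360 225 (.l1 .sk) (.nx 361 408 (.l1 (.ls 79 41 3312)) (.nr 380
  623489 (.nr 376 185365 (.nx 370 330282 (.nx 364 52017 (.lg 0 false 3 97 97 16 0 5040) (.nr 369
  92683 (.nr 365 1068 (.lg 0 false 1 79 79 16 0 5040) (.nx 368 262145 (.lg 2 false 3 89 89 16 44810
  5040) .out)) .out)) (.nr 375 217 (.lg 0 true 5 71 71 17 0 5040) .out)) (.nx 379 16385 (.lg 0
  false 3 97 97 16 0 5040) .out)) .out))))) .out) .out))))) (.na 523 45 (.na 441 39 (.na 412 38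
  (.nx 411 2642247 (.nr 410 881745 (.nr 384 33 .s1 (.nx 387 225 (.nx 386 224 (.nr 385 403 (.lg 0
  false 1 31 31 19 0 1008) (.l1 .sk)) (.l1 .sk)) (.nx 388 408 (.l1 (.ls 83 43 3220)) (.nr 409
  623489 (.nx 393 16385 (.lg 0 false 5 89 97 29 0 5040) (.nr 408 185365 (.nx 395 41287 (.lg 0 false
  2 97 101 23 0 5040) (.nr 407 110219 (.nr 401 1115 (.nx 397 330282 (.lg 0 true 2 73 73 23 0 1008)
  (.nr 400 217 (.lg 0 true 3 73 73 23 0 1008) .out)) (.nx 406 262145 (.nx 403 65537 (.lg 1 false 2
  89 97 23 67112 5040) (.nr 405 77937 (.lg 2 false 2 89 97 23 29921 5040) .out)) .out)) .out))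
  .out)) .out)))) .out) .out) (.nx 440 2642247 (.nr 439 881745 (.nr 413 35 .s1 (.nx 416 225 (.nx
  415 224 (.nr 414 413 (.lg 0 false 1 29 29 13 0 5040) (.l1 .sk)) (.l1 .sk)) (.nx 417 408 (.l1 (.ls
  79 43 3051)) (.nr 438 623489 (.nx 428 41287 (.lg 0 false 11 97 101 29 0 55440) (.nr 437 110219
  (.nr 433 413 (.lg 0 true 5 73 73 17 0 5040) (.nx 436 262145 (.lg 2 false 3 97 101 13 71091 5040)
  .out)) .out)) .out)))) .out) .out)) (.na 469 40 (.nx 468 2642247 (.nr 467 881745 (.nr 442 37 .s1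
  (.nx 463 330282 (.nx 444 224 (.nr 443 424 (.lg 0 false 1 31 31 17 0 13104) (.l1 .sk)) (.nx 445
  225 (.l1 .sk) (.nx 446 408 (.l1 (.ls 83 41 2973)) (.nr 462 623489 (.nx 451 16385 (.lg 0 false 5
  89 101 23 0 65520) (.nr 461 185365 (.nx 453 41287 (.lg 0 false 2 97 101 17 0 65520) (.nr 460
  110219 (.nr 454 1161 (.lg 0 false 1 83 83 17 0 65520) (.nx 459 262145 (.nx 456 65537 (.lg 1 false
  2 89 97 17 67112 65520) (.nr 458 77937 (.lg 2 false 2 97 97 17 29921 65520) .out)) .out)) .out))
  .out)) .out)))) (.nr 466 217 (.lg 0 true 3 73 73 19 0 13104) .out))) .out) .out) (.na 494 42 (.nx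
  493 2642247 (.nr 492 881745 (.nr 470 38 .s1 (.nx 473 225 (.nx 472 224 (.nr 471 445 (.lg 0 true 1
  31 31 19 0 5040) (.l1 .sk)) (.l1 .sk)) (.nx 488 262145 (.nx 482 41287 (.nx 474 408 (.l1 (.ls 83
  43 2898)) (.nr 481 623489 (.nr 477 185365 (.lg 0 false 3 97 101 23 0 5040) (.nx 480 16385 (.lg 0
  false 3 97 101 23 0 5040) .out)) .out)) (.nr 487 110219 (.nr 483 1207 (.lg 0 false 1 79 79 19 0
  5040) (.nx 484 65537 (.lg 1 true 1 97 97 19 67112 5040) (.nr 486 77937 (.lg 2 false 2 89 97 19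
  29921 5040) .out))) .out)) (.nr 491 257 (.lg 0 true 3 73 73 23 0 5040) .out)))) .out) .out) (.nx
  522 2642247 (.nr 521 881745 (.nr 495 40 .s1 (.nx 499 408 (.nx 497 224 (.nr 496 477 (.lg 0 false 1
  23 23 19 0 5040) (.l1 .sk)) (.nx 498 225 (.l1 .sk) (.l1 (.ls 73 47 2761)))) (.nr 520 623489 (.nx
  514 262145 (.nx 510 65537 (.nr 504 185365 (.lg 0 false 5 89 97 29 0 5040) (.nx 509 16385 (.lg 0
  false 5 83 89 29 0 5040) .out)) (.nr 513 77937 (.nr 511 1276 (.lg 0 false 1 73 73 19 0 5040) (.lg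
  2 true 2 83 83 23 29921 5040)) .out)) (.nr 519 257 (.lg 0 true 5 67 67 29 0 5040) .out)) .out)))
  .out) .out)))) (.na 591 49 (.na 547 46 (.nx 546 2642247 (.nr 545 881745 (.nr 524 43 .s1 (.nx 528
  408 (.nx 526 224 (.nr 525 488 (.l1 (.ls 31 31 1118)) (.l1 .sk)) (.nx 527 225 (.l1 .sk) (.l1 (.ls
  83 41 2577)))) (.nr 544 623489 (.nr 540 185365 (.nx 530 41287 (.lg 0 false 2 97 97 19 0 5040)
  (.nr 539 110219 (.nx 535 262145 (.nr 531 1300 (.lg 0 false 1 79 79 17 0 5040) (.nx 532 65537 (.lg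
  1 true 1 97 97 17 67112 5040) (.nr 534 77937 (.lg 2 false 2 89 89 19 29921 5040) .out))) (.nr 538
  257 (.lg 0 true 3 73 73 19 0 5040) .out)) .out)) (.nx 543 16385 (.lg 0 false 3 89 97 19 0 5040)
  .out)) .out))) .out) .out) (.na 568 48 (.nx 567 2642247 (.nr 566 881745 (.nr 548 44 .s1 (.nx 551
  225 (.nx 550 224 (.nr 549 509 (.lg 0 true 1 29 29 13 0 5040) (.l1 .sk)) (.l1 .sk)) (.nx 556 32769
  (.lg 0 false 5 97 101 19 0 5040) (.nr 565 92683 (.nr 561 509 (.lg 0 true 5 73 73 19 0 5040) (.nx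
  564 262145 (.lg 2 false 3 97 97 13 71131 5040) .out)) .out)))) .out) .out) (.nx 590 2642247 (.nr
  589 881745 (.nr 569 46 .s1 (.nx 586 262145 (.nx 577 20644 (.nx 571 224 (.nr 570 519 (.l1 (.ls 37
  41 1048)) (.l1 .sk)) (.nx 572 225 (.l1 .sk) (.lg 0 false 5 97 107 31 0 720720))) (.nr 585 220437
  (.nx 578 32769 (.lg 0 false 1 101 101 23 0 5040) (.nr 584 92683 (.nr 579 1462 (.lg 0 true 1 79 79
  23 0 1008) (.nr 582 65537 (.nr 580 32769 (.lg 2 false 1 89 97 23 25260 5040) (.nx 581 165142 (.lg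
  2 true 1 97 101 23 50348 5040) .out)) (.nx 583 52017 (.lg 0 false 1 89 89 23 0 5040) .out)))
  .out)) .out)) (.nr 588 257 (.lg 0 true 2 79 79 29 0 1008) .out))) .out) .out))) (.na 592 50 (.lg
  0 false 1 0 0 16 0 24) (.na 618 52 (.nx 617 2642247 (.nr 616 881745 (.nr 593 48 .s1 (.nx 596 225
  (.nx 595 224 (.nr 594 551 (.l1 (.ls 29 37 1006)) (.l1 .sk)) (.l1 .sk)) (.nx 607 32769 (.lg 0
  false 11 89 101 29 0 720720) (.nr 615 92683 (.nr 611 551 (.lg 0 true 4 71 71 23 0 5040) (.nx 614
  262145 (.lg 2 false 3 89 89 19 71131 5040) .out)) .out)))) .out) .out) (.nx 637 2642247 (.nr 636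
  881745 (.nr 619 50 .s1 (.nx 622 225 (.nx 621 224 (.nr 620 572 (.l1 (.ls 37 37 967)) (.l1 .sk))
  (.l1 .sk)) (.nr 632 220437 (.nx 625 41287 (.lg 0 false 3 97 101 23 0 65520) (.nr 631 77937 (.nr
  628 572 (.lg 0 true 3 79 79 23 0 13104) (.nx 630 262145 (.lg 2 false 2 97 101 23 51330 65520)
  .out)) .out)) (.nx 635 20644 (.lg 0 false 3 97 101 23 0 65520) .out)))) .out) .out)))))) (.na 829
  70 (.na 745 61 (.na 679 57 (.na 658 56 (.nx 657 2642247 (.nr 656 881745 (.nr 639 52 .s1 (.nx 642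
  225 (.nx 641 224 (.nr 640 594 (.l1 (.ls 29 37 932)) (.l1 .sk)) (.l1 .sk)) (.nx 647 32769 (.lg 0
  false 5 89 97 23 0 5040) (.nr 655 92683 (.nr 652 594 (.lg 0 true 5 71 71 23 0 5040) (.nx 654
  262145 (.lg 2 true 2 89 89 19 71131 5040) .out)) .out)))) .out) .out) (.nx 678 2642247 (.nr 677
  881745 (.nr 659 54 .s1 (.nx 667 32769 (.nx 661 224 (.nr 660 604 (.l1 (.ls 23 37 898)) (.l1 .sk))
  (.nx 662 225 (.l1 .sk) (.lg 0 false 5 89 97 23 0 5040))) (.nr 676 92683 (.nr 672 604 (.lg 0 true
  5 71 71 23 0 5040) (.nx 675 262145 (.lg 2 false 3 83 89 23 71131 5040) .out)) .out))) .out)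
  .out)) (.na 705 59 (.nx 704 2642247 (.nr 703 881745 (.nr 680 56 .s1 (.nx 683 225 (.nx 682 224
  (.nr 681 625 (.l1 (.ls 37 31 883)) (.l1 .sk)) (.l1 .sk)) (.nx 694 82572 (.nx 688 20644 (.lg 0
  false 5 97 97 23 0 5040) (.nr 693 220437 (.nr 691 92683 (.lg 0 true 3 89 89 17 0 5040) (.nx 692
  32769 (.lg 0 true 1 97 97 16 0 5040) .out)) .out)) (.nr 702 46342 (.nx 698 262145 (.nr 696 32769
  (.nr 695 4525 (.lg 0 false 1 89 89 16 0 5040) (.lg 2 true 1 83 83 16 10025 5040)) (.nx 697 165142
  (.lg 0 false 1 89 89 16 0 5040) .out)) (.nr 701 257 (.lg 0 true 3 73 73 17 0 1008) .out))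
  .out)))) .out) .out) (.na 726 60 (.nx 725 2642247 (.nr 724 881745 (.nr 706 58 .s1 (.nx 709 225
  (.nx 708 224 (.nr 707 636 (.l1 (.ls 29 23 853)) (.l1 .sk)) (.l1 .sk)) (.nx 714 32769 (.lg 0 false
  5 97 101 16 0 5040) (.nr 723 92683 (.nr 719 636 (.lg 0 true 5 73 73 16 0 5040) (.nx 722 262145
  (.lg 2 false 3 89 89 16 71131 1008) .out)) .out)))) .out) .out) (.nx 744 2642247 (.nr 743 881745
  (.nr 727 59 .s1 (.nx 730 225 (.nx 729 224 (.nr 728 647 (.l1 (.ls 37 41 839)) (.l1 .sk)) (.l1
  .sk)) (.nx 740 262145 (.nx 735 32769 (.nr 732 220437 (.lg 0 false 2 97 101 31 0 65520) (.nx 734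
  20644 (.lg 0 false 2 97 103 31 0 65520) .out)) (.nr 739 92683 (.nr 736 1726 (.lg 0 true 1 79 79
  29 0 5040) (.nx 737 52017 (.lg 1 false 1 89 97 29 71131 5040) (.nr 738 65537 (.lg 2 false 1 97
  101 29 31718 65520) .out))) .out)) (.nr 742 257 (.lg 0 true 2 73 73 31 0 5040) .out)))) .out)
  .out)))) (.na 786 64 (.na 766 63 (.nx 765 2642247 (.nr 764 881745 (.nr 746 60 .s1 (.nx 749 225
  (.nx 748 224 (.nr 747 668 (.l1 (.ls 23 23 825)) (.l1 .sk)) (.l1 .sk)) (.nx 754 32769 (.lg 0 false
  5 97 97 16 0 5040) (.nr 763 92683 (.nr 759 668 (.lg 0 true 5 73 73 16 0 5040) (.nx 762 262145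
  (.lg 2 false 3 89 89 16 71131 5040) .out)) .out)))) .out) .out) (.nx 785 2642247 (.nr 784 881745
  (.nr 767 62 .s1 (.nx 770 225 (.nx 769 224 (.nr 768 678 (.l1 (.ls 29 31 799)) (.l1 .sk)) (.l1
  .sk)) (.nx 775 32769 (.lg 0 false 5 89 97 19 0 5040) (.nr 783 92683 (.nr 780 678 (.lg 0 true 5 71
  71 19 0 5040) (.nx 782 262145 (.lg 2 true 2 89 89 17 71131 5040) .out)) .out)))) .out) .out))
  (.na 787 65 .ne (.na 807 69 (.nx 806 2642247 (.nr 805 2097153 (.nr 788 64 .s1 (.nx 799 32769 (.nx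
  796 20644 (.nx 790 224 (.nr 789 731 (.l1 (.ls 37 31 774)) (.l1 .sk)) (.nx 791 225 (.l1 .sk) (.nx
  792 408 (.l1 (.ls 89 37 1785)) (.nr 795 1048577 (.lg 0 false 3 97 101 19 0 65520) .out)))) (.nr
  798 262145 (.lg 0 false 2 89 89 19 0 65520) .out)) (.nr 804 65537 (.nr 802 731 (.lg 0 true 3 79
  79 19 0 65520) (.nx 803 416129 (.lg 2 true 1 97 97 17 63758 65520) .out)) .out))) .out) .out)
  (.nx 828 2642247 (.nr 827 2097153 (.nr 808 68 .s1 (.nx 811 225 (.nx 810 224 (.nr 809 742 (.l1
  (.ls 19 31 730)) (.l1 .sk)) (.l1 .sk)) (.nx 821 32769 (.nx 812 408 (.l1 (.ls 89 37 1681)) (.nr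
  820 1048577 (.nx 817 20644 (.lg 0 false 5 89 101 19 0 5040) (.nr 819 262145 (.lg 0 false 2 89 97
  17 0 5040) .out)) .out)) (.nr 826 65537 (.nr 824 742 (.lg 0 true 3 79 79 19 0 1008) (.nx 825
  416129 (.lg 2 true 1 101 101 17 62812 5040) .out)) .out)))) .out) .out))))) (.na 919 78 (.na 861
  72 (.na 844 71 (.nx 843 2642247 (.nr 842 2097153 (.nr 830 69 .s1 (.nx 835 32769 (.nx 831 408 (.l1
  (.ls 83 43 2381)) (.nr 834 1048577 (.lg 0 false 3 97 97 29 0 5040) .out)) (.nr 841 65537 (.nr 838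
  753 (.lg 0 true 3 71 71 29 0 5040) (.nx 840 416129 (.lg 2 false 2 83 83 23 61895 5040) .out))
  .out))) .out) .out) (.nx 860 2642247 (.nr 859 2097153 (.nr 845 70 .s1 (.nx 852 32769 (.nx 846 408
  (.l1 (.ls 83 31 2347)) (.nr 851 1048577 (.lg 0 false 5 89 97 16 0 5040) .out)) (.nr 858 65537
  (.nr 855 763 (.lg 0 true 3 71 71 16 0 1008) (.nx 857 416129 (.lg 2 false 2 83 83 16 61084 1008)
  .out)) .out))) .out) .out)) (.na 881 75 (.nx 880 2642247 (.nr 879 2097153 (.nr 862 71 .s1 (.nx
  864 224 (.nr 863 795 (.l1 (.ls 31 37 699)) (.l1 .sk)) (.nx 865 225 (.l1 .sk) (.nx 873 32769 (.nx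
  866 408 (.l1 (.ls 83 41 1611)) (.nr 872 1048577 (.nr 868 262145 (.lg 0 false 2 89 89 29 0 5040)
  (.nx 871 20644 (.lg 0 false 3 89 97 29 0 5040) .out)) .out)) (.nr 878 65537 (.nr 876 795 (.lg 0
  true 3 73 73 29 0 1008) (.nx 877 416129 (.lg 2 true 1 89 89 23 58625 5040) .out)) .out))))) .out)
  .out) (.na 900 76 (.nx 899 2642247 (.nr 898 2097153 (.nr 882 74 .s1 (.nx 892 32769 (.nx 884 224
  (.nr 883 806 (.l1 (.ls 31 31 672)) (.l1 .sk)) (.nx 885 225 (.l1 .sk) (.nx 886 408 (.l1 (.ls 83 37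
  1547)) (.nr 891 1048577 (.nr 888 262145 (.lg 0 false 2 89 97 19 0 5040) (.nx 890 20644 (.lg 0
  false 2 97 97 19 0 5040) .out)) .out)))) (.nr 897 65537 (.nr 895 806 (.lg 0 true 3 73 73 23 0
  5040) (.nx 896 416129 (.lg 2 true 1 89 89 17 57825 5040) .out)) .out))) .out) .out) (.nx 918
  2642247 (.nr 917 2097153 (.nr 901 75 .s1 (.nx 904 225 (.nx 903 224 (.nr 902 827 (.lg 0 false 1 31
  31 17 0 5040) (.l1 .sk)) (.l1 .sk)) (.nx 905 408 (.l1 (.ls 89 41 1527)) (.nr 916 1048577 (.nx 908
  20644 (.lg 0 false 3 97 101 29 0 5040) (.nr 915 262145 (.nx 909 32769 (.lg 0 true 1 97 97 17 0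
  5040) (.nr 914 65537 (.nr 912 827 (.lg 0 true 3 79 79 29 0 1008) (.nx 913 416129 (.lg 2 true 1 97
  97 17 56357 5040) .out)) .out)) .out)) .out)))) .out) .out)))) (.na 973 81 (.na 938 79 (.nx 937
  2642247 (.nr 936 2097153 (.nr 920 77 .s1 (.nx 924 408 (.nx 922 224 (.nr 921 837 (.l1 (.ls 37 41
  646)) (.l1 .sk)) (.nx 923 225 (.l1 .sk) (.l1 (.ls 83 43 1488)))) (.nr 935 1048577 (.nr 932 262145
  (.nx 926 32769 (.lg 0 false 2 97 97 31 0 65520) (.nr 931 65537 (.nr 929 837 (.lg 0 true 3 79 79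
  31 0 13104) (.nx 930 416129 (.lg 2 true 1 97 97 29 55683 65520) .out)) .out)) (.nx 934 20644 (.lg
  0 false 2 97 101 31 0 65520) .out)) .out))) .out) .out) (.na 955 80 (.nx 954 2642247 (.nr 953
  2097153 (.nr 939 78 .s1 (.nx 940 408 (.l1 (.ls 73 29 2110)) (.nr 952 1048577 (.nx 945 32769 (.lg
  0 false 5 89 97 17 0 5040) (.nr 951 65537 (.nr 948 848 (.lg 0 true 3 67 67 16 0 1008) (.nx 950
  416129 (.lg 2 false 2 83 83 16 54961 1008) .out)) .out)) .out))) .out) .out) (.nx 972 2642247
  (.nr 971 2097153 (.nr 956 79 .s1 (.nx 966 32769 (.nx 958 224 (.nr 957 859 (.l1 (.ls 41 31 630))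
  (.l1 .sk)) (.nx 959 225 (.l1 .sk) (.nx 960 408 (.l1 (.ls 89 41 1450)) (.nr 965 1048577 (.nx 963
  20644 (.lg 0 false 3 101 103 31 0 720720) (.nr 964 262145 (.lg 0 false 1 97 97 23 0 5040) .out))
  .out)))) (.nr 970 65537 (.nr 968 859 (.lg 0 true 2 83 83 29 0 5040) (.nx 969 416129 (.lg 2 false
  1 97 97 23 54257 5040) .out)) .out))) .out) .out))) (.na 992 83 (.nx 991 2642247 (.nr 990 2097153
  (.nr 974 80 .s1 (.nx 975 408 (.l1 (.ls 79 37 2058)) (.nr 989 1048577 (.nx 980 32769 (.lg 0 false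
  5 89 89 19 0 5040) (.nr 988 65537 (.nr 985 880 (.lg 0 true 5 71 71 19 0 5040) (.nx 987 416129
  (.lg 2 true 2 79 79 17 52962 1008) .out)) .out)) .out))) .out) .out) (.na 1009 84 (.nx 1008
  2642247 (.nr 1007 2097153 (.nr 993 82 .s1 (.nx 1000 32769 (.nx 994 408 (.l1 (.ls 79 29 2008))
  (.nr 999 1048577 (.lg 0 false 5 89 97 17 0 5040) .out)) (.nr 1006 65537 (.nr 1003 890 (.lg 0 true
  3 71 71 16 0 1008) (.nx 1005 416129 (.lg 2 false 2 79 79 16 52367 5040) .out)) .out))) .out)
  .out) (.nx 1026 2642247 (.nr 1025 2097153 (.nr 1010 83 .s1 (.nx 1013 225 (.nx 1012 224 (.nr 1011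
  954 (.l1 (.ls 31 41 600)) (.l1 .sk)) (.l1 .sk)) (.nx 1020 32769 (.nx 1014 408 (.l1 (.ls 83 43
  1382)) (.nr 1019 1048577 (.nr 1016 262145 (.lg 0 false 2 89 89 31 0 5040) (.nx 1018 20644 (.lg 0
  false 2 97 97 31 0 5040) .out)) .out)) (.nr 1024 65537 (.nr 1022 954 (.lg 0 true 2 73 73 31 0
  1008) (.nx 1023 416129 (.lg 2 true 1 89 89 29 50348 5040) .out)) .out)))) .out) .out)))))))

def T21_1 : Ph :=
  (.na 338 17 (.na 154 15 (.na 82 14 (.nx 81 2642247 (.nr 80 1246976 (.nx 2 224 (.nr 1 148 (.lg 0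
  true 1 37 37 9 0 65520) (.l1 .sk)) (.nx 3 225 (.l1 .sk) (.nx 72 660563 (.nx 24 41285 (.nx 6 408
  (.nx 4 324 (.l1 (.ls 89 37 4183)) (.nr 5 1048577 (.l1 (.ls 89 41 4732)) .out)) (.nr 23 741457
  (.nr 17 220437 (.lg 0 false 11 101 103 16 0 720720) (.nx 22 1627 (.lg 0 false 5 89 89 16 0 65520)
  .out)) .out)) (.nr 71 311745 (.nr 32 8598 (.nr 29 1128 (.lg 0 true 5 89 89 16 0 65520) (.lg 2
  true 3 97 97 11 65588 65520)) (.nx 44 82570 (.nr 43 262145 (.lg 1 false 11 97 103 16 159438
  720720) .out) (.nx 55 165142 (.lg 1 false 11 101 103 16 94789 720720) (.nr 70 262145 (.nx 66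
  330282 (.lg 1 true 11 97 103 16 39859 720720) (.nr 69 77937 (.lg 2 false 3 97 97 11 8605 65520)
  .out)) .out)))) .out)) (.nr 79 65 (.lg 0 true 7 73 73 16 0 13104) .out)))) .out) .out) (.nx 153
  2642247 (.nr 152 1246976 (.nx 85 225 (.nx 84 224 (.nr 83 159 (.lg 0 true 1 31 31 11 0 5040) (.l1
  .sk)) (.l1 .sk)) (.nx 144 660563 (.nx 86 408 (.l1 (.ls 83 47 8277)) (.nr 143 741457 (.nx 106
  82570 (.nr 99 262145 (.lg 0 false 13 97 103 17 0 65520) (.nx 105 1627 (.lg 0 false 6 73 73 13 0
  1008) .out)) (.nr 142 311745 (.nr 117 2310 (.lg 0 true 11 83 83 13 0 55440) (.nx 128 165142 (.lg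
  1 false 11 97 101 13 94789 55440) (.nr 141 262145 (.lg 2 false 13 97 101 17 39859 65520) .out)))
  .out)) .out)) (.nr 151 65 (.lg 0 true 7 61 61 13 0 1008) .out))) .out) .out)) (.na 256 16 (.nx
  255 2642247 (.nr 254 1246976 (.nr 155 2 .s1 (.nx 247 660563 (.nx 157 224 (.nr 156 169 (.lg 0 true
  1 41 41 16 0 5040) (.l1 .sk)) (.nx 158 225 (.l1 .sk) (.nr 244 741457 (.nr 166 4634 (.nx 160 25089
  (.lg 0 false 2 79 79 16 0 5040) (.nr 164 1232 (.lg 0 true 4 89 89 17 0 5040) (.lg 2 false 2 83 83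
  16 60052 5040))) (.nx 181 41285 (.nr 177 220437 (.lg 0 false 11 97 107 19 0 720720) (.nx 180 1627
  (.lg 0 false 3 89 97 16 0 5040) .out)) (.nr 243 311745 (.nr 185 33795 (.lg 2 true 4 79 79 17
  20673 5040) (.nr 230 262145 (.nr 190 65537 (.lg 2 false 5 83 83 17 39963 5040) (.nx 229 524289
  (.nr 201 77937 (.lg 0 true 11 97 107 19 0 720720) (.nx 228 330282 (.nr 212 185365 (.lg 0 true 11
  103 107 19 0 720720) (.nx 227 262145 (.nx 223 208065 (.lg 0 true 11 101 107 19 0 720720) (.nr 226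
  220437 (.lg 0 true 3 101 107 16 0 720720) .out)) .out)) .out)) .out)) (.nx 231 82570 .out (.nx
  242 165142 (.lg 0 true 11 97 107 19 0 720720) .out)))) .out))) (.nx 246 408 (.lg 0 false 2 79 79
  16 0 5040) .out)))) (.nr 253 65 (.lg 0 true 6 73 79 17 0 5040) .out))) .out) .out) (.nx 337
  2642247 (.nr 336 1246976 (.nr 257 6 .s1 (.nx 259 224 (.nr 258 180 (.lg 0 true 1 37 37 11 0 1008)
  (.l1 .sk)) (.nx 260 225 (.l1 .sk) (.nr 328 311745 (.nx 275 41285 (.nr 271 220437 (.lg 0 false 11
  97 103 23 0 55440) (.nx 274 13005 (.lg 0 false 3 89 101 13 0 5040) .out)) (.nx 322 660563 (.nr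
  280 786 (.lg 0 true 5 79 83 17 0 5040) (.nr 282 3434 (.lg 2 true 2 89 89 13 94127 5040) (.nx 317
  330282 (.nx 294 82570 (.nr 293 262145 (.lg 1 false 11 97 107 23 159438 720720) .out) (.nx 305
  165142 (.lg 1 false 11 97 107 23 94789 720720) (.nr 316 262145 (.lg 1 true 11 97 107 23 39859
  720720) .out))) (.nr 321 92683 (.nr 318 15003 (.lg 2 false 1 97 97 11 21545 5040) (.lg 2 false 3
  89 97 13 7058 5040)) .out)))) (.nr 327 129 (.lg 0 true 5 73 73 17 0 5040) .out))) (.nx 335 1627
  (.nr 331 741457 (.lg 0 false 3 89 89 13 0 5040) (.nx 334 408 (.lg 0 false 3 73 73 13 0 1008)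
  .out)) .out))))) .out) .out))) (.na 401 19 (.na 339 18 .ne (.nx 400 2642247 (.nr 399 1246976 (.nr
  340 11 .s1 (.nx 342 224 (.nr 341 201 (.lg 0 false 1 31 31 13 0 5040) (.l1 .sk)) (.nx 343 225 (.l1
  .sk) (.nx 344 408 (.l1 (.ls 89 47 6438)) (.nr 398 741457 (.nr 392 311745 (.nr 388 220437 (.nx 382
  660563 (.nr 358 30068 (.nx 347 25089 (.lg 0 true 3 83 83 13 0 5040) (.nr 352 1726 (.lg 0 true 5
  83 83 19 0 5040) (.nx 357 524289 (.lg 2 false 5 73 73 19 34022 5040) .out))) (.nx 381 524289 (.nr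
  369 92683 (.lg 0 true 11 101 101 23 0 55440) (.nx 380 262145 (.lg 0 true 11 101 107 23 0 720720)
  .out)) .out)) (.nr 387 129 (.lg 0 true 5 71 71 19 0 5040) .out)) (.nx 391 13005 (.lg 0 false 3 89
  97 13 0 5040) .out)) (.nx 397 1627 (.lg 0 false 5 83 83 19 0 5040) .out)) .out))))) .out) .out))
  (.na 455 20 (.nx 454 2642247 (.nr 453 1246976 (.nr 402 12 .s1 (.nx 406 408 (.nx 404 224 (.nr 403
  212 (.lg 0 true 1 31 31 11 0 1008) (.l1 .sk)) (.nx 405 225 (.l1 .sk) (.l1 (.ls 89 41 6099))))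
  (.nr 452 741457 (.nr 442 220437 (.nx 417 50783 (.lg 0 false 11 97 103 16 0 55440) (.nr 428 666
  (.nx 422 660563 (.lg 0 true 5 79 79 16 0 5040) (.nr 427 129 (.lg 0 true 5 73 73 16 0 5040) .out))
  (.nx 441 524289 (.lg 2 false 13 101 109 16 109013 720720) .out))) (.nx 451 13005 (.nr 445 311745
  (.lg 0 false 3 97 97 16 0 5040) (.nx 450 1627 (.lg 0 false 5 83 83 16 0 5040) .out)) .out))
  .out))) .out) .out) (.na 507 21 (.nx 506 2642247 (.nr 505 1246976 (.nr 456 14 .s1 (.nx 458 224
  (.nr 457 222 (.lg 0 false 1 37 37 13 0 5040) (.l1 .sk)) (.nx 459 225 (.l1 .sk) (.nx 501 660563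
  (.nr 494 311745 (.nr 490 220437 (.nx 470 50783 (.lg 0 false 11 89 103 29 0 55440) (.nr 473 666
  (.lg 0 true 3 79 79 19 0 5040) (.nx 489 524289 (.nx 476 102792 (.lg 1 false 3 103 107 19 109013
  720720) (.nx 479 208065 (.lg 1 true 3 103 107 19 53857 720720) (.nr 488 155873 (.nr 482 11600
  (.nr 481 4475 (.lg 2 true 2 83 89 17 88169 5040) (.lg 2 false 1 83 83 13 13122 5040)) (.nx 485
  262145 (.lg 1 true 3 89 97 19 18822 5040) (.nr 487 92683 (.lg 2 false 2 89 97 17 8892 5040)
  .out))) .out))) .out))) (.nx 493 13005 (.lg 0 false 3 89 97 19 0 5040) .out)) (.nx 500 1627 (.nr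
  497 741457 (.lg 0 false 3 83 89 19 0 5040) (.nx 499 408 (.lg 0 false 2 73 73 17 0 5040) .out))
  .out)) (.nr 504 129 (.lg 0 true 3 73 73 19 0 5040) .out))))) .out) .out) (.nx 555 2642247 (.nr
  554 1246976 (.nr 508 15 .s1 (.nx 512 408 (.nx 510 224 (.nr 509 244 (.lg 0 false 1 29 29 16 0
  1008) (.l1 .sk)) (.nx 511 225 (.l1 .sk) (.l1 (.ls 83 43 5519)))) (.nr 553 741457 (.nr 547 311745
  (.nx 541 660563 (.nx 523 50783 (.lg 0 false 11 97 103 19 0 720720) (.nr 540 220437 (.nr 528 666
  (.lg 0 true 5 73 73 17 0 5040) (.nx 539 524289 (.lg 2 false 11 101 107 19 109013 720720) .out))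
  .out)) (.nr 546 129 (.lg 0 true 5 71 71 17 0 5040) .out)) (.nx 552 1627 (.lg 0 false 5 79 79 17 0
  5040) .out)) .out))) .out) .out)))))

theorem c21 :
    OkQ ckI L10 224 23 90 0 34359738368 1 1099511627776 ∧
    OkQ ckI L10 224 13 23 0 34359738368 1 1099511627776 := by
  refine ⟨?_, ?_⟩
  · refine fin 1008 1027 T21_0 ?_
    refine jn 9 (by decide +kernel) ?_
    refine jn 16 (by decide +kernel) ?_
    refine jn 27 (by decide +kernel) ?_
    refine jn 34 (by decide +kernel) ?_
    refine jn 47 (by decide +kernel) ?_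
    refine jn 54 (by decide +kernel) ?_
    refine jn 55 (by decide +kernel) ?_
    refine jn 56 (by decide +kernel) ?_
    refine jn 58 (by decide +kernel) ?_
    refine jn 60 (by decide +kernel) ?_
    refine jn 61 (by decide +kernel) ?_
    refine jn 63 (by decide +kernel) ?_
    refine jn 65 (by decide +kernel) ?_
    refine jn 66 (by decide +kernel) ?_
    refine jn 68 (by decide +kernel) ?_
    refine jn 69 (by decide +kernel) ?_
    refine jn 72 (by decide +kernel) ?_
    refine jn 74 (by decide +kernel) ?_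
    refine jn 80 (by decide +kernel) ?_
    refine jn 82 (by decide +kernel) ?_
    refine jn 87 (by decide +kernel) ?_
    refine jn 98 (by decide +kernel) ?_
    refine jn 104 (by decide +kernel) ?_
    refine jn 110 (by decide +kernel) ?_
    refine jn 120 (by decide +kernel) ?_
    refine jn 128 (by decide +kernel) ?_
    refine jn 142 (by decide +kernel) ?_
    refine jn 143 (by decide +kernel) ?_
    refine jn 148 (by decide +kernel) ?_
    refine jn 153 (by decide +kernel) ?_
    refine jn 165 (by decide +kernel) ?_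
    refine jn 175 (by decide +kernel) ?_
    refine jn 189 (by decide +kernel) ?_
    refine jn 195 (by decide +kernel) ?_
    refine jn 206 (by decide +kernel) ?_
    refine jn 213 (by decide +kernel) ?_
    refine jn 224 (by decide +kernel) ?_
    refine jn 238 (by decide +kernel) ?_
    refine jn 244 (by decide +kernel) ?_
    refine jn 255 (by decide +kernel) ?_
    refine jn 263 (by decide +kernel) ?_
    refine jn 276 (by decide +kernel) ?_
    refine jn 277 (by decide +kernel) ?_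
    refine jn 278 (by decide +kernel) ?_
    refine jn 279 (by decide +kernel) ?_
    refine jn 280 (by decide +kernel) ?_
    refine jn 281 (by decide +kernel) ?_
    refine jn 282 (by decide +kernel) ?_
    refine jn 286 (by decide +kernel) ?_
    refine jn 287 (by decide +kernel) ?_
    refine jn 288 (by decide +kernel) ?_
    refine jn 289 (by decide +kernel) ?_
    refine jn 290 (by decide +kernel) ?_
    refine jn 295 (by decide +kernel) ?_
    refine jn 299 (by decide +kernel) ?_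
    refine jn 302 (by decide +kernel) ?_
    refine jn 305 (by decide +kernel) ?_
    refine jn 306 (by decide +kernel) ?_
    refine jn 307 (by decide +kernel) ?_
    refine jn 308 (by decide +kernel) ?_
    refine jn 309 (by decide +kernel) ?_
    refine jn 310 (by decide +kernel) ?_
    refine jn 317 (by decide +kernel) ?_
    refine jn 326 (by decide +kernel) ?_
    refine jn 328 (by decide +kernel) ?_
    refine jn 330 (by decide +kernel) ?_
    refine jn 331 (by decide +kernel) ?_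
    refine jn 337 (by decide +kernel) ?_
    refine jn 339 (by decide +kernel) ?_
    refine jn 340 (by decide +kernel) ?_
    refine jn 343 (by decide +kernel) ?_
    refine jn 346 (by decide +kernel) ?_
    refine jn 351 (by decide +kernel) ?_
    refine jn 364 (by decide +kernel) ?_
    refine jn 368 (by decide +kernel) ?_
    refine jn 379 (by decide +kernel) ?_
    refine jn 388 (by decide +kernel) ?_
    refine jn 390 (by decide +kernel) ?_
    refine jn 392 (by decide +kernel) ?_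
    refine jn 393 (by decide +kernel) ?_
    refine jn 395 (by decide +kernel) ?_
    refine jn 397 (by decide +kernel) ?_
    refine jn 400 (by decide +kernel) ?_
    refine jn 403 (by decide +kernel) ?_
    refine jn 405 (by decide +kernel) ?_
    refine jn 417 (by decide +kernel) ?_
    refine jn 428 (by decide +kernel) ?_
    refine jn 436 (by decide +kernel) ?_
    refine jn 446 (by decide +kernel) ?_
    refine jn 448 (by decide +kernel) ?_
    refine jn 450 (by decide +kernel) ?_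
    refine jn 451 (by decide +kernel) ?_
    refine jn 453 (by decide +kernel) ?_
    refine jn 454 (by decide +kernel) ?_
    refine jn 456 (by decide +kernel) ?_
    refine jn 458 (by decide +kernel) ?_
    refine jn 466 (by decide +kernel) ?_
    refine jn 474 (by decide +kernel) ?_
    refine jn 475 (by decide +kernel) ?_
    refine jn 476 (by decide +kernel) ?_
    refine jn 480 (by decide +kernel) ?_
    refine jn 484 (by decide +kernel) ?_
    refine jn 486 (by decide +kernel) ?_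
    refine jn 491 (by decide +kernel) ?_
    refine jn 504 (by decide +kernel) ?_
    refine jn 513 (by decide +kernel) ?_
    refine jn 527 (by decide +kernel) ?_
    refine jn 528 (by decide +kernel) ?_
    refine jn 529 (by decide +kernel) ?_
    refine jn 530 (by decide +kernel) ?_
    refine jn 532 (by decide +kernel) ?_
    refine jn 534 (by decide +kernel) ?_
    refine jn 538 (by decide +kernel) ?_
    refine jn 549 (by decide +kernel) ?_
    refine jn 556 (by decide +kernel) ?_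
    refine jn 564 (by decide +kernel) ?_
    refine jn 572 (by decide +kernel) ?_
    refine jn 573 (by decide +kernel) ?_
    refine jn 574 (by decide +kernel) ?_
    refine jn 575 (by decide +kernel) ?_
    refine jn 576 (by decide +kernel) ?_
    refine jn 577 (by decide +kernel) ?_
    refine jn 578 (by decide +kernel) ?_
    refine jn 579 (by decide +kernel) ?_
    refine jn 580 (by decide +kernel) ?_
    refine jn 583 (by decide +kernel) ?_
    refine jn 587 (by decide +kernel) ?_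
    refine jn 588 (by decide +kernel) ?_
    refine jn 607 (by decide +kernel) ?_
    refine jn 614 (by decide +kernel) ?_
    refine jn 622 (by decide +kernel) ?_
    refine jn 624 (by decide +kernel) ?_
    refine jn 625 (by decide +kernel) ?_
    refine jn 628 (by decide +kernel) ?_
    refine jn 630 (by decide +kernel) ?_
    refine jn 635 (by decide +kernel) ?_
    refine jn 647 (by decide +kernel) ?_
    refine jn 654 (by decide +kernel) ?_
    refine jn 667 (by decide +kernel) ?_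
    refine jn 675 (by decide +kernel) ?_
    refine jn 683 (by decide +kernel) ?_
    refine jn 684 (by decide +kernel) ?_
    refine jn 685 (by decide +kernel) ?_
    refine jn 686 (by decide +kernel) ?_
    refine jn 687 (by decide +kernel) ?_
    refine jn 688 (by decide +kernel) ?_
    refine jn 689 (by decide +kernel) ?_
    refine jn 690 (by decide +kernel) ?_
    refine jn 691 (by decide +kernel) ?_
    refine jn 694 (by decide +kernel) ?_
    refine jn 695 (by decide +kernel) ?_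
    refine jn 696 (by decide +kernel) ?_
    refine jn 697 (by decide +kernel) ?_
    refine jn 701 (by decide +kernel) ?_
    refine jn 714 (by decide +kernel) ?_
    refine jn 722 (by decide +kernel) ?_
    refine jn 730 (by decide +kernel) ?_
    refine jn 731 (by decide +kernel) ?_
    refine jn 732 (by decide +kernel) ?_
    refine jn 733 (by decide +kernel) ?_
    refine jn 734 (by decide +kernel) ?_
    refine jn 735 (by decide +kernel) ?_
    refine jn 736 (by decide +kernel) ?_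
    refine jn 737 (by decide +kernel) ?_
    refine jn 738 (by decide +kernel) ?_
    refine jn 741 (by decide +kernel) ?_
    refine jn 742 (by decide +kernel) ?_
    refine jn 754 (by decide +kernel) ?_
    refine jn 762 (by decide +kernel) ?_
    refine jn 775 (by decide +kernel) ?_
    refine jn 782 (by decide +kernel) ?_
    refine jn 795 (by decide +kernel) ?_
    refine jn 799 (by decide +kernel) ?_
    refine jn 802 (by decide +kernel) ?_
    refine jn 808 (by decide +kernel) ?_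
    refine jn 815 (by decide +kernel) ?_
    refine jn 819 (by decide +kernel) ?_
    refine jn 824 (by decide +kernel) ?_
    refine jn 834 (by decide +kernel) ?_
    refine jn 840 (by decide +kernel) ?_
    refine jn 851 (by decide +kernel) ?_
    refine jn 857 (by decide +kernel) ?_
    refine jn 866 (by decide +kernel) ?_
    refine jn 868 (by decide +kernel) ?_
    refine jn 873 (by decide +kernel) ?_
    refine jn 876 (by decide +kernel) ?_
    refine jn 885 (by decide +kernel) ?_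
    refine jn 888 (by decide +kernel) ?_
    refine jn 892 (by decide +kernel) ?_
    refine jn 895 (by decide +kernel) ?_
    refine jn 904 (by decide +kernel) ?_
    refine jn 908 (by decide +kernel) ?_
    refine jn 912 (by decide +kernel) ?_
    refine jn 923 (by decide +kernel) ?_
    refine jn 926 (by decide +kernel) ?_
    refine jn 929 (by decide +kernel) ?_
    refine jn 934 (by decide +kernel) ?_
    refine jn 948 (by decide +kernel) ?_
    refine jn 959 (by decide +kernel) ?_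
    refine jn 960 (by decide +kernel) ?_
    refine jn 961 (by decide +kernel) ?_
    refine jn 962 (by decide +kernel) ?_
    refine jn 963 (by decide +kernel) ?_
    refine jn 966 (by decide +kernel) ?_
    refine jn 967 (by decide +kernel) ?_
    refine jn 968 (by decide +kernel) ?_
    refine jn 969 (by decide +kernel) ?_
    refine jn 985 (by decide +kernel) ?_
    refine jn 999 (by decide +kernel) ?_
    refine jn 1010 (by decide +kernel) ?_
    refine jn 1016 (by decide +kernel) ?_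
    refine jn 1022 (by decide +kernel) ?_
    exact je (by decide +kernel)
  · refine fin 1008 556 T21_1 ?_
    refine jn 6 (by decide +kernel) ?_
    refine jn 10 (by decide +kernel) ?_
    refine jn 14 (by decide +kernel) ?_
    refine jn 22 (by decide +kernel) ?_
    refine jn 29 (by decide +kernel) ?_
    refine jn 32 (by decide +kernel) ?_
    refine jn 43 (by decide +kernel) ?_
    refine jn 55 (by decide +kernel) ?_
    refine jn 66 (by decide +kernel) ?_
    refine jn 79 (by decide +kernel) ?_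
    refine jn 99 (by decide +kernel) ?_
    refine jn 117 (by decide +kernel) ?_
    refine jn 141 (by decide +kernel) ?_
    refine jn 158 (by decide +kernel) ?_
    refine jn 159 (by decide +kernel) ?_
    refine jn 160 (by decide +kernel) ?_
    refine jn 161 (by decide +kernel) ?_
    refine jn 162 (by decide +kernel) ?_
    refine jn 163 (by decide +kernel) ?_
    refine jn 164 (by decide +kernel) ?_
    refine jn 165 (by decide +kernel) ?_
    refine jn 166 (by decide +kernel) ?_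
    refine jn 169 (by decide +kernel) ?_
    refine jn 173 (by decide +kernel) ?_
    refine jn 176 (by decide +kernel) ?_
    refine jn 180 (by decide +kernel) ?_
    refine jn 181 (by decide +kernel) ?_
    refine jn 182 (by decide +kernel) ?_
    refine jn 183 (by decide +kernel) ?_
    refine jn 184 (by decide +kernel) ?_
    refine jn 185 (by decide +kernel) ?_
    refine jn 186 (by decide +kernel) ?_
    refine jn 187 (by decide +kernel) ?_
    refine jn 188 (by decide +kernel) ?_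
    refine jn 189 (by decide +kernel) ?_
    refine jn 190 (by decide +kernel) ?_
    refine jn 195 (by decide +kernel) ?_
    refine jn 200 (by decide +kernel) ?_
    refine jn 201 (by decide +kernel) ?_
    refine jn 202 (by decide +kernel) ?_
    refine jn 203 (by decide +kernel) ?_
    refine jn 204 (by decide +kernel) ?_
    refine jn 205 (by decide +kernel) ?_
    refine jn 206 (by decide +kernel) ?_
    refine jn 207 (by decide +kernel) ?_
    refine jn 208 (by decide +kernel) ?_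
    refine jn 209 (by decide +kernel) ?_
    refine jn 210 (by decide +kernel) ?_
    refine jn 211 (by decide +kernel) ?_
    refine jn 212 (by decide +kernel) ?_
    refine jn 215 (by decide +kernel) ?_
    refine jn 218 (by decide +kernel) ?_
    refine jn 221 (by decide +kernel) ?_
    refine jn 223 (by decide +kernel) ?_
    refine jn 226 (by decide +kernel) ?_
    refine jn 235 (by decide +kernel) ?_
    refine jn 239 (by decide +kernel) ?_
    refine jn 242 (by decide +kernel) ?_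
    refine jn 249 (by decide +kernel) ?_
    refine jn 253 (by decide +kernel) ?_
    refine jn 260 (by decide +kernel) ?_
    refine jn 261 (by decide +kernel) ?_
    refine jn 262 (by decide +kernel) ?_
    refine jn 263 (by decide +kernel) ?_
    refine jn 264 (by decide +kernel) ?_
    refine jn 265 (by decide +kernel) ?_
    refine jn 266 (by decide +kernel) ?_
    refine jn 267 (by decide +kernel) ?_
    refine jn 268 (by decide +kernel) ?_
    refine jn 269 (by decide +kernel) ?_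
    refine jn 270 (by decide +kernel) ?_
    refine jn 271 (by decide +kernel) ?_
    refine jn 275 (by decide +kernel) ?_
    refine jn 276 (by decide +kernel) ?_
    refine jn 277 (by decide +kernel) ?_
    refine jn 278 (by decide +kernel) ?_
    refine jn 279 (by decide +kernel) ?_
    refine jn 280 (by decide +kernel) ?_
    refine jn 282 (by decide +kernel) ?_
    refine jn 287 (by decide +kernel) ?_
    refine jn 292 (by decide +kernel) ?_
    refine jn 294 (by decide +kernel) ?_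
    refine jn 299 (by decide +kernel) ?_
    refine jn 303 (by decide +kernel) ?_
    refine jn 305 (by decide +kernel) ?_
    refine jn 310 (by decide +kernel) ?_
    refine jn 315 (by decide +kernel) ?_
    refine jn 318 (by decide +kernel) ?_
    refine jn 321 (by decide +kernel) ?_
    refine jn 325 (by decide +kernel) ?_
    refine jn 327 (by decide +kernel) ?_
    refine jn 334 (by decide +kernel) ?_
    refine jn 344 (by decide +kernel) ?_
    refine jn 345 (by decide +kernel) ?_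
    refine jn 346 (by decide +kernel) ?_
    refine jn 347 (by decide +kernel) ?_
    refine jn 351 (by decide +kernel) ?_
    refine jn 352 (by decide +kernel) ?_
    refine jn 353 (by decide +kernel) ?_
    refine jn 354 (by decide +kernel) ?_
    refine jn 355 (by decide +kernel) ?_
    refine jn 356 (by decide +kernel) ?_
    refine jn 357 (by decide +kernel) ?_
    refine jn 358 (by decide +kernel) ?_
    refine jn 359 (by decide +kernel) ?_
    refine jn 360 (by decide +kernel) ?_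
    refine jn 361 (by decide +kernel) ?_
    refine jn 362 (by decide +kernel) ?_
    refine jn 363 (by decide +kernel) ?_
    refine jn 364 (by decide +kernel) ?_
    refine jn 365 (by decide +kernel) ?_
    refine jn 366 (by decide +kernel) ?_
    refine jn 367 (by decide +kernel) ?_
    refine jn 368 (by decide +kernel) ?_
    refine jn 369 (by decide +kernel) ?_
    refine jn 376 (by decide +kernel) ?_
    refine jn 387 (by decide +kernel) ?_
    refine jn 397 (by decide +kernel) ?_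
    refine jn 406 (by decide +kernel) ?_
    refine jn 412 (by decide +kernel) ?_
    refine jn 417 (by decide +kernel) ?_
    refine jn 422 (by decide +kernel) ?_
    refine jn 428 (by decide +kernel) ?_
    refine jn 440 (by decide +kernel) ?_
    refine jn 450 (by decide +kernel) ?_
    refine jn 459 (by decide +kernel) ?_
    refine jn 460 (by decide +kernel) ?_
    refine jn 461 (by decide +kernel) ?_
    refine jn 463 (by decide +kernel) ?_
    refine jn 464 (by decide +kernel) ?_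
    refine jn 465 (by decide +kernel) ?_
    refine jn 466 (by decide +kernel) ?_
    refine jn 468 (by decide +kernel) ?_
    refine jn 469 (by decide +kernel) ?_
    refine jn 470 (by decide +kernel) ?_
    refine jn 471 (by decide +kernel) ?_
    refine jn 472 (by decide +kernel) ?_
    refine jn 473 (by decide +kernel) ?_
    refine jn 475 (by decide +kernel) ?_
    refine jn 476 (by decide +kernel) ?_
    refine jn 478 (by decide +kernel) ?_
    refine jn 479 (by decide +kernel) ?_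
    refine jn 481 (by decide +kernel) ?_
    refine jn 485 (by decide +kernel) ?_
    refine jn 490 (by decide +kernel) ?_
    refine jn 497 (by decide +kernel) ?_
    refine jn 501 (by decide +kernel) ?_
    refine jn 504 (by decide +kernel) ?_
    refine jn 516 (by decide +kernel) ?_
    refine jn 523 (by decide +kernel) ?_
    refine jn 528 (by decide +kernel) ?_
    refine jn 539 (by decide +kernel) ?_
    refine jn 552 (by decide +kernel) ?_
    exact je (by decide +kernel)

end Pool.Agent.MP_2339ce_nt.NR
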