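import Pool.Agent.MP_2339ce_nt.Q2.NC.L1
import Pool.Agent.MP_2339ce_nt.Q2.NC.L9
import Pool.Agent.MP_2339ce_nt.Q2.NC.L10
import Pool.Agent.MP_2339ce_nt.Q2.CkI

/-! Block NR: runs. -/

set_option autoImplicit false
set_option maxRecDepth 100000

noncomputable section

namespace Pool.Agent.MP_2339ce_nt.NR

open Q2.Top

def T23_0 : Ph :=
  (.na 1010 146 (.na 778 64 (.na 579 22 (.na 443 10 (.na 283 3 (.na 1 2 .ne (.nx 282 3329023 (.nr
  281 623489 (.nx 266 2097153 (.nx 4 196 (.nx 3 195 (.nr 2 27 (.lg 0 false 1 43 43 5 0 3120) (.l1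
  .sk)) (.l1 .sk)) (.nx 231 832257 (.nr 219 220437 (.nx 81 41287 (.lg 0 false 77 101 107 13 0
  720720) (.nr 218 155873 (.nr 103 1025 (.lg 0 true 22 97 101 11 0 34320) (.nx 147 82572 (.nx 125
  58387 (.lg 1 false 22 101 103 11 71870 720720) (.lg 1 false 22 101 103 11 50821 720720)) (.nr 217
  131073 (.nr 194 77937 (.nr 158 2049 (.lg 2 true 11 89 89 9 79166 34320) (.nx 193 660563 (.nr 181
  38969 (.nr 169 6051 (.lg 2 true 11 97 101 9 31433 720720) (.nx 180 524289 (.lg 2 false 11 101 103
  9 9018 720720) .out)) (.nx 192 262145 (.lg 2 false 11 103 107 9 17991 720720) .out)) .out)) (.nx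
  216 208065 (.lg 2 false 22 101 107 11 30226 720720) .out)) .out))) .out)) (.nx 230 324 (.lg 0
  false 11 83 83 9 0 34320) .out)) (.nr 265 257 (.nx 242 1048577 (.lg 0 true 11 83 83 9 0 34320)
  (.nr 264 129 (.lg 0 true 22 83 83 11 0 34320) .out)) .out))) (.nr 280 9 (.lg 0 true 14 71 71 9 0
  21840) .out)) .out) .out)) (.na 284 6 .ne (.na 442 7 (.nx 441 16777217 (.nr 440 1048577 (.nx 287
  196 (.nx 286 195 (.nr 285 68 (.lg 0 true 1 41 41 7 0 65520) (.l1 .sk)) (.l1 .sk)) (.nx 290 324
  (.nx 288 257 (.l1 (.ls 89 47 4608)) (.nr 289 623489 (.l1 (.ls 89 47 6490)) .out)) (.nr 439 370729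
  (.nx 313 41285 (.nr 301 155873 (.lg 0 false 11 103 107 13 0 720720) (.nx 312 2049 (.lg 0 false 11
  89 89 13 0 720720) .out)) (.nr 438 220437 (.nr 381 1026 (.nx 324 1048577 (.lg 0 true 11 89 89 13
  0 102960) (.nr 380 129 (.nr 368 68 (.lg 0 true 44 83 83 13 0 102960) (.nx 379 2097153 (.lg 0 true
  11 73 73 13 0 102960) .out)) .out)) (.nx 437 660563 (.nx 403 112360 (.nx 392 76448 (.lg 1 false
  11 101 103 13 101607 720720) (.lg 1 false 11 101 103 13 54872 720720)) (.nr 414 8201 (.lg 2 true
  11 89 97 13 62773 720720) (.nx 425 208065 (.lg 1 true 11 101 103 13 37334 720720) (.nr 436 77937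
  (.lg 2 false 11 89 97 13 7854 720720) .out)))) .out)) .out)) .out))) .out) .out) .ne))) (.na 517
  14 (.na 516 12 (.nx 515 2097153 (.nr 514 1048577 (.nx 504 660563 (.nx 445 195 (.nr 444 118 (.lg 0
  false 1 31 31 9 0 3120) (.l1 .sk)) (.nx 446 196 (.l1 .sk) (.nx 447 257 (.l1 (.ls 83 43 2766))
  (.nr 503 623489 (.nx 469 52015 (.nr 461 185365 (.lg 0 false 14 101 103 13 0 720720) (.nx 468 1292
  (.lg 0 false 7 79 79 13 0 21840) .out)) (.nr 502 220437 (.nr 480 1812 (.lg 0 true 11 83 83 13 0
  34320) (.nx 487 104033 (.lg 1 false 7 101 103 13 80647 720720) (.nr 501 185365 (.lg 2 false 14 97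
  103 13 35544 720720) .out))) .out)) .out)))) (.nr 513 65 (.lg 0 true 9 67 67 13 0 9360) .out))
  .out) .out) .ne) (.na 577 16 (.nx 576 2097153 (.nr 575 1048577 (.nr 518 2 .s1 (.nx 521 196 (.nx
  520 195 (.nr 519 158 (.lg 0 true 1 37 37 11 0 720720) (.l1 .sk)) (.l1 .sk)) (.nx 568 660563 (.nx
  522 257 (.l1 (.ls 89 41 1976)) (.nr 567 623489 (.nr 554 155873 (.nr 542 65537 (.nx 526 19013 (.lg
  0 false 4 97 97 13 0 21840) (.nr 531 1178 (.lg 0 true 5 89 89 13 0 21840) (.lg 2 false 11 83 83
  19 65732 240240))) (.nx 553 208065 (.lg 0 true 11 101 107 19 0 720720) .out)) (.nx 566 104033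
  (.nx 558 1292 (.lg 0 false 4 89 89 13 0 21840) (.nx 559 5160 .out (.nr 565 185365 (.nx 560 8193
  (.lg 0 true 1 89 89 11 0 21840) (.nx 561 32768 .out (.lg 0 true 4 101 103 13 0 720720))) .out)))
  .out)) .out)) (.nr 574 65 (.lg 0 true 6 73 73 13 0 65520) .out)))) .out) .out) (.na 578 18 .ne
  (.lg 0 false 1 0 0 7 0 24))))) (.na 699 34 (.na 628 26 (.na 627 23 (.nx 626 2097153 (.nr 625
  1048577 (.nr 580 18 .s1 (.nx 584 324 (.nx 582 195 (.nr 581 227 (.lg 0 true 1 31 31 9 0 720720)
  (.l1 .sk)) (.nx 583 196 (.l1 .sk) (.l1 (.ls 89 43 3028)))) (.nr 624 623489 (.nr 619 262145 (.nx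
  591 20644 (.lg 0 false 7 97 101 19 0 720720) (.nr 618 155873 (.nr 606 65537 (.nr 598 751 (.lg 0
  true 7 83 83 19 0 240240) (.nx 605 416129 (.lg 2 true 7 83 83 19 60539 240240) .out)) (.nx 617
  262145 (.nx 613 165142 (.lg 0 true 7 101 103 19 0 720720) (.nr 616 92683 (.lg 0 true 3 101 101 13
  0 720720) .out)) .out)) .out)) (.nx 623 2049 (.lg 0 false 4 83 83 17 0 34320) .out)) .out)))
  .out) .out) .ne) (.na 667 30 (.nx 666 2097153 (.nr 665 1048577 (.nr 629 22 .s1 (.nx 632 196 (.nx
  631 195 (.nr 630 297 (.l1 (.ls 23 41 1465)) (.l1 .sk)) (.l1 .sk)) (.nx 645 41287 (.nx 633 324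
  (.l1 (.ls 79 43 2563)) (.nr 644 524289 (.lg 0 false 11 97 101 19 0 720720) .out)) (.nr 664 110219
  (.nr 656 873 (.lg 0 true 11 73 73 19 0 34320) (.nx 663 330282 (.lg 2 false 7 89 89 11 50846
  65520) .out)) .out)))) .out) .out) (.na 698 32 (.nx 697 2097153 (.nr 696 1048577 (.nr 668 27 .s1
  (.nx 672 324 (.nx 670 195 (.nr 669 317 (.l1 (.ls 23 43 1270)) (.l1 .sk)) (.nx 671 196 (.l1 .sk)
  (.l1 (.ls 79 47 2221)))) (.nr 695 524289 (.nx 679 20644 (.lg 0 false 7 89 89 23 0 65520) (.nr 694
  131073 (.nr 686 317 (.lg 0 true 7 71 71 23 0 65520) (.nx 693 330282 (.lg 2 false 7 97 101 23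
  120897 720720) .out)) .out)) .out))) .out) .out) .ne))) (.na 753 46 (.na 730 42 (.nx 729 2097153
  (.nr 728 881745 (.nr 700 32 .s1 (.nx 703 196 (.nx 702 195 (.nr 701 416 (.l1 (.ls 37 37 1121))
  (.l1 .sk)) (.l1 .sk)) (.nx 723 208065 (.nx 704 324 (.l1 (.ls 83 41 1960)) (.nr 722 623489 (.nr
  714 65537 (.nx 711 131073 (.lg 0 false 7 89 89 23 0 21840) (.nr 713 27556 (.lg 0 false 2 101 101
  13 0 65520) .out)) (.nx 721 32769 (.nx 718 13005 (.lg 0 false 4 101 101 13 0 65520) (.nr 720
  155873 (.lg 0 true 2 97 97 13 0 65520) .out)) .out)) .out)) (.nr 727 257 (.lg 0 true 4 73 73 13 0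
  3120) .out)))) .out) .out) (.nx 752 2097153 (.nr 751 881745 (.nr 731 40 .s1 (.nx 735 324 (.nx 733
  195 (.nr 732 455 (.l1 (.ls 31 41 908)) (.l1 .sk)) (.nx 734 196 (.l1 .sk) (.l1 (.ls 79 43 1587))))
  (.nr 750 623489 (.nx 742 32769 (.nr 738 155873 (.lg 0 false 3 97 97 23 0 65520) (.nx 741 13005
  (.lg 0 false 3 97 97 23 0 65520) .out)) (.nr 749 65537 (.nr 746 455 (.lg 0 true 4 73 73 29 0
  65520) (.nx 748 208065 (.lg 2 true 2 89 89 23 44586 65520) .out)) .out)) .out))) .out) .out))
  (.na 776 50 (.nx 775 2097153 (.nr 774 881745 (.nr 754 44 .s1 (.nx 757 196 (.nx 756 195 (.nr 755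
  495 (.lg 0 false 1 29 29 13 0 9360) (.l1 .sk)) (.l1 .sk)) (.nx 766 26009 (.nx 758 324 (.l1 (.ls
  79 41 1449)) (.nr 765 741457 (.lg 0 false 7 97 101 19 0 65520) .out)) (.nr 773 65537 (.nr 770 495
  (.lg 0 true 4 73 73 19 0 3120) (.nx 772 208065 (.lg 2 true 2 89 89 13 48051 3120) .out)) .out))))
  .out) .out) (.na 777 54 (.lg 0 false 1 0 0 16 0 24) (.lg 0 false 1 0 0 16 0 24)))))) (.na 899 106
  (.na 856 82 (.na 802 70 (.na 779 66 .ne (.nx 801 2097153 (.nr 800 2097153 (.nr 780 65 .s1 (.nx
  784 324 (.nx 782 195 (.nr 781 692 (.l1 (.ls 31 41 579)) (.l1 .sk)) (.nx 783 196 (.l1 .sk) (.l1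
  (.ls 83 43 1011)))) (.nr 799 1048577 (.nx 791 20644 (.lg 0 false 7 89 97 31 0 720720) (.nr 798
  65537 (.nr 795 513 (.lg 0 true 4 71 71 29 0 102960) (.nx 797 131073 (.lg 2 true 2 89 89 29 60539
  102960) .out)) .out)) .out))) .out) .out)) (.na 819 74 (.nx 818 2097153 (.nr 817 2097153 (.nr 803
  69 .s1 (.nx 809 20644 (.nx 804 324 (.l1 (.ls 83 43 1502)) (.nr 808 1048577 (.lg 0 false 4 97 97
  29 0 65520) .out)) (.nr 816 65537 (.nr 813 513 (.lg 0 true 4 71 71 29 0 21840) (.nx 815 131073
  (.lg 2 true 2 83 83 23 60539 21840) .out)) .out))) .out) .out) (.na 838 78 (.nx 837 2097153 (.nr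
  836 2097153 (.nr 820 73 .s1 (.nx 821 324 (.l1 (.ls 83 31 1421)) (.nr 835 1048577 (.nx 828 20644
  (.lg 0 false 7 89 97 23 0 21840) (.nr 834 65537 (.nr 831 513 (.lg 0 true 3 71 71 19 0 9360) (.nx
  833 131073 (.lg 2 false 2 89 89 19 60539 3120) .out)) .out)) .out))) .out) .out) (.nx 855 2097153
  (.nr 854 2097153 (.nr 839 77 .s1 (.nx 848 32769 (.nx 840 324 (.l1 (.ls 79 43 1348)) (.nr 847
  1048577 (.lg 0 false 7 89 89 29 0 65520) .out)) (.nr 853 32769 (.nr 850 513 (.lg 0 false 2 71 71
  23 0 65520) (.nx 852 131073 (.lg 2 true 2 71 71 23 24912 65520) .out)) .out))) .out) .out))))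
  (.na 873 91 (.na 872 90 (.nx 871 2097153 (.nr 870 2097153 (.nr 857 81 .s1 (.nx 863 20644 (.nx 858
  324 (.l1 (.ls 83 37 1283)) (.nr 862 1048577 (.lg 0 false 4 89 97 23 0 3120) .out)) (.nr 869 65537
  (.nr 866 513 (.lg 0 true 3 71 71 19 0 9360) (.nx 868 131073 (.lg 2 false 2 83 83 19 60539 3120)
  .out)) .out))) .out) .out) (.lg 0 false 1 0 0 16 0 24)) (.na 874 98 .ne (.na 886 102 (.nx 885
  2097153 (.nr 884 2097153 (.nr 875 98 .s1 (.nx 882 131073 (.nx 880 32769 (.nx 876 324 (.l1 (.ls 79
  37 1074)) (.nr 879 1048577 (.lg 0 true 3 89 89 23 0 65520) .out)) (.nr 881 32769 (.lg 0 false 1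
  83 83 19 0 21840) .out)) (.nr 883 513 (.lg 0 false 1 73 73 19 0 21840) .out))) .out) .out) (.nx
  898 2097153 (.nr 897 2097153 (.nr 887 102 .s1 (.nx 888 324 (.l1 (.ls 83 43 1032)) (.nr 896
  1048577 (.nx 891 20644 (.lg 0 false 3 89 89 31 0 9360) (.nr 895 65537 (.nr 892 513 (.lg 0 false 1
  79 79 29 0 9360) (.nx 894 131073 (.lg 2 true 2 83 83 29 60539 9360) .out)) .out)) .out))) .out)
  .out))))) (.na 951 128 (.na 924 118 (.na 912 110 (.nx 911 2097153 (.nr 910 2097153 (.nr 900 106
  .s1 (.nx 905 20644 (.nx 901 324 (.l1 (.ls 83 31 993)) (.nr 904 1048577 (.lg 0 false 3 97 97 23 0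
  65520) .out)) (.nr 909 65537 (.nr 906 513 (.lg 0 false 1 79 79 19 0 65520) (.nx 908 131073 (.lg 2
  false 2 83 83 19 60539 3120) .out)) .out))) .out) .out) (.nx 923 2097153 (.nr 922 2097153 (.nr
  913 110 .s1 (.nx 914 324 (.l1 (.ls 79 41 957)) (.nr 921 1048577 (.nx 917 20644 (.lg 0 false 3 89
  89 29 0 102960) (.nr 920 65537 (.nr 918 513 (.lg 0 false 1 73 73 23 0 34320) (.nx 919 131073 (.lg
  2 true 1 83 83 23 60539 34320) .out)) .out)) .out))) .out) .out)) (.na 937 122 (.nx 936 2097153
  (.nr 935 2097153 (.nr 925 118 .s1 (.nx 926 324 (.l1 (.ls 83 31 892)) (.nr 934 1048577 (.nx 929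
  20644 (.lg 0 false 3 97 97 23 0 9360) (.nr 933 65537 (.nr 931 513 (.lg 0 true 2 67 67 19 0 3120)
  (.nx 932 131073 (.lg 2 true 1 89 89 19 60539 3120) .out)) .out)) .out))) .out) .out) (.na 950 126
  (.nx 949 2097153 (.nr 948 2097153 (.nr 938 122 .s1 (.nx 943 20644 (.nx 939 324 (.l1 (.ls 79 31
  863)) (.nr 942 1048577 (.lg 0 false 3 89 89 23 0 9360) .out)) (.nr 947 65537 (.nr 945 513 (.lg 0
  true 2 67 67 19 0 3120) (.nx 946 131073 (.lg 2 true 1 83 83 19 60539 3120) .out)) .out))) .out)
  .out) (.lg 0 false 1 0 0 16 0 24)))) (.na 968 134 (.na 952 130 .ne (.nx 967 1048577 (.nr 966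
  1482912 (.nr 953 130 .s1 (.nx 956 196 (.nx 955 195 (.nr 954 1325 (.l1 (.ls 17 31 295)) (.l1 .sk))
  (.l1 .sk)) (.nx 963 32769 (.lg 0 false 7 79 79 31 0 21840) (.nr 965 16385 (.lg 0 false 2 79 79 29
  0 9360) .out)))) .out) .out)) (.na 982 138 (.nx 981 1048577 (.nr 980 1482912 (.nr 969 134 .s1
  (.nx 971 195 (.nr 970 1365 (.l1 (.ls 29 29 286)) (.l1 .sk)) (.nx 972 196 (.l1 .sk) (.nr 976 65537
  (.nx 974 131073 (.lg 0 true 2 83 83 23 0 3120) (.nr 975 1025 (.lg 0 false 1 73 73 19 0 3120)
  .out)) (.nx 979 16385 (.lg 0 false 3 89 89 23 0 9360) .out))))) .out) .out) (.na 996 142 (.nx 995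
  1048577 (.nr 994 1482912 (.nr 983 138 .s1 (.nx 985 195 (.nr 984 1404 (.l1 (.ls 19 37 278)) (.l1
  .sk)) (.nx 986 196 (.l1 .sk) (.nr 990 65537 (.nx 988 131073 (.lg 0 false 2 83 83 31 0 9360) (.nr
  989 1025 (.lg 0 false 1 73 73 19 0 9360) .out)) (.nx 993 16385 (.lg 0 false 3 89 89 31 0 9360)
  .out))))) .out) .out) (.nx 1009 1048577 (.nr 1008 1482912 (.nr 997 142 .s1 (.nx 999 195 (.nr 998
  1444 (.l1 (.ls 29 29 270)) (.l1 .sk)) (.nx 1000 196 (.l1 .sk) (.nx 1006 131073 (.nr 1002 65537
  (.lg 0 true 2 83 83 23 0 3120) (.nx 1005 16385 (.lg 0 false 3 89 89 23 0 9360) .out)) (.nr 1007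
  1025 (.lg 0 false 1 73 73 19 0 3120) .out))))) .out) .out))))))) (.na 1184 256 (.na 1101 210 (.na
  1050 170 (.na 1024 154 (.na 1023 150 (.nx 1022 1048577 (.nr 1021 1482912 (.nr 1011 146 .s1 (.nx
  1019 131073 (.nx 1013 195 (.nr 1012 1483 (.l1 (.ls 29 29 263)) (.l1 .sk)) (.nx 1014 196 (.l1 .sk)
  (.nr 1015 65537 (.lg 0 false 1 89 89 19 0 3120) (.nx 1018 16385 (.lg 0 false 3 89 89 23 0 9360)
  .out)))) (.nr 1020 1025 (.lg 0 false 1 73 73 19 0 3120) .out))) .out) .out) (.lg 0 false 1 0 0 16
  0 24)) (.na 1036 158 (.nx 1035 1048577 (.nr 1034 1482912 (.nr 1025 154 .s1 (.nx 1032 131073 (.nx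
  1027 195 (.nr 1026 1563 (.l1 (.ls 37 31 249)) (.l1 .sk)) (.nx 1028 196 (.l1 .sk) (.nr 1029 65537
  (.lg 0 false 1 97 97 31 0 720720) (.nx 1031 16385 (.lg 0 false 2 97 97 31 0 240240) .out)))) (.nr
  1033 1025 (.lg 0 true 1 71 71 31 0 240240) .out))) .out) .out) (.na 1049 162 (.nx 1048 1048577
  (.nr 1047 1482912 (.nr 1037 158 .s1 (.nx 1040 196 (.nx 1039 195 (.nr 1038 1602 (.l1 (.ls 23 29
  243)) (.l1 .sk)) (.l1 .sk)) (.nx 1045 131073 (.nr 1042 65537 (.lg 0 true 2 73 73 23 0 3120) (.nx
  1044 16385 (.lg 0 false 2 83 83 23 0 3120) .out)) (.nr 1046 1025 (.lg 0 false 1 67 67 19 0 9360)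
  .out)))) .out) .out) (.lg 0 false 1 0 0 16 0 24)))) (.na 1076 182 (.na 1063 178 (.nx 1062 1048577
  (.nr 1061 1482912 (.nr 1051 170 .s1 (.nx 1054 196 (.nx 1053 195 (.nr 1052 1760 (.l1 (.ls 16 31
  226)) (.l1 .sk)) (.l1 .sk)) (.nx 1057 32769 (.lg 0 false 3 89 89 31 0 9360) (.nr 1060 16385 (.nr
  1058 1025 (.lg 0 false 1 71 71 29 0 3120) (.nx 1059 131073 (.lg 2 true 1 61 61 29 12468 3120)
  .out)) .out)))) .out) .out) (.nx 1075 1048577 (.nr 1074 1482912 (.nr 1064 178 .s1 (.nx 1066 195
  (.nr 1065 1800 (.l1 (.ls 23 23 216)) (.l1 .sk)) (.nx 1067 196 (.l1 .sk) (.nx 1070 32769 (.lg 0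
  false 3 83 83 23 0 9360) (.nr 1073 16385 (.nr 1071 1025 (.lg 0 false 1 67 67 19 0 9360) (.nx 1072
  131073 (.lg 2 false 1 53 53 19 12468 3120) .out)) .out))))) .out) .out)) (.na 1088 194 (.nx 1087
  1048577 (.nr 1086 1048577 (.nr 1077 182 .s1 (.nx 1082 32769 (.nx 1079 195 (.nr 1078 1919 (.l1
  (.ls 29 31 211)) (.l1 .sk)) (.nx 1080 196 (.l1 .sk) (.lg 0 true 2 89 89 31 0 65520))) (.nr 1085
  16385 (.nr 1083 1025 (.lg 0 false 1 67 67 29 0 21840) (.nx 1084 131073 (.lg 2 true 1 59 59 29
  12468 21840) .out)) .out))) .out) .out) (.na 1100 198 (.nx 1099 1048577 (.nr 1098 1048577 (.nr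
  1089 194 .s1 (.nx 1091 195 (.nr 1090 1958 (.l1 (.ls 23 23 199)) (.l1 .sk)) (.nx 1092 196 (.l1
  .sk) (.nx 1094 32769 (.lg 0 false 2 83 83 23 0 3120) (.nr 1097 16385 (.nr 1095 1025 (.lg 0 false
  1 67 67 19 0 3120) (.nx 1096 131073 (.lg 2 true 1 53 53 19 12468 3120) .out)) .out))))) .out)
  .out) (.lg 0 false 1 0 0 16 0 24))))) (.na 1153 234 (.na 1123 222 (.na 1113 214 (.nx 1112 1048577
  (.nr 1111 1048577 (.nr 1102 210 .s1 (.nx 1105 196 (.nx 1104 195 (.nr 1103 2116 (.l1 (.ls 29 37
  184)) (.l1 .sk)) (.l1 .sk)) (.nx 1107 32769 (.lg 0 true 2 89 89 37 0 65520) (.nr 1110 16385 (.nr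
  1108 1025 (.lg 0 false 1 67 67 31 0 65520) (.nx 1109 131073 (.lg 2 true 1 59 59 31 12468 65520)
  .out)) .out)))) .out) .out) (.nx 1122 1048577 (.nr 1121 1048577 (.nr 1114 214 .s1 (.nx 1116 195
  (.nr 1115 2195 (.l1 (.ls 23 23 180)) (.l1 .sk)) (.nx 1117 196 (.l1 .sk) (.nx 1119 32769 (.lg 0
  false 2 79 79 23 0 3120) (.nr 1120 16385 (.lg 0 false 1 83 83 23 0 9360) .out))))) .out) .out))
  (.na 1133 226 (.nx 1132 1048577 (.nr 1131 1048577 (.nr 1124 222 .s1 (.nx 1126 195 (.nr 1125 2235
  (.l1 (.ls 23 29 174)) (.l1 .sk)) (.nx 1127 196 (.l1 .sk) (.nx 1129 32769 (.lg 0 true 2 89 89 31 0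
  9360) (.nr 1130 16385 (.lg 0 false 1 89 89 29 0 9360) .out))))) .out) .out) (.na 1143 230 (.nx
  1142 1048577 (.nr 1141 1048577 (.nr 1134 226 .s1 (.nx 1137 196 (.nx 1136 195 (.nr 1135 2274 (.l1
  (.ls 23 23 171)) (.l1 .sk)) (.l1 .sk)) (.nx 1139 32769 (.lg 0 false 2 79 79 23 0 3120) (.nr 1140
  16385 (.lg 0 false 1 83 83 23 0 65520) .out)))) .out) .out) (.nx 1152 1048577 (.nr 1151 1048577
  (.nr 1144 230 .s1 (.nx 1149 32769 (.nx 1146 195 (.nr 1145 2314 (.l1 (.ls 19 31 168)) (.l1 .sk))
  (.nx 1147 196 (.l1 .sk) (.lg 0 true 2 89 89 31 0 65520))) (.nr 1150 16385 (.lg 0 false 1 89 89 31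
  0 65520) .out))) .out) .out)))) (.na 1165 242 (.na 1154 238 (.lg 0 false 1 0 0 16 0 24) (.nx 1164
  1048577 (.nr 1163 1048577 (.nr 1155 238 .s1 (.nr 1159 65537 (.nx 1156 324 (.l1 (.ls 59 37 444))
  (.nx 1157 131073 (.lg 0 false 1 89 89 31 0 65520) (.nr 1158 1025 (.lg 0 true 1 67 67 31 0 21840)
  .out))) (.nx 1161 196 (.nx 1160 195 (.l1 .sk) (.l1 .sk)) (.nx 1162 16385 (.lg 0 true 1 89 89 31 0
  21840) .out)))) .out) .out)) (.na 1174 246 (.nx 1173 1048577 (.nr 1172 1048577 (.nr 1166 242 .s1
  (.nx 1170 32769 (.nx 1168 195 (.nr 1167 2433 (.l1 (.ls 29 29 160)) (.l1 .sk)) (.nx 1169 196 (.l1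
  .sk) (.lg 0 true 1 89 89 29 0 102960))) (.nr 1171 16385 (.lg 0 false 1 83 83 29 0 102960) .out)))
  .out) .out) (.na 1183 250 (.nx 1182 1048577 (.nr 1181 1048577 (.nr 1175 246 .s1 (.nx 1179 32769
  (.nx 1177 195 (.nr 1176 2472 (.l1 (.ls 29 29 157)) (.l1 .sk)) (.nx 1178 196 (.l1 .sk) (.lg 0 true
  1 97 97 29 0 65520))) (.nr 1180 16385 (.lg 0 false 1 89 89 29 0 65520) .out))) .out) .out) (.lg 0
  false 1 0 0 16 0 24)))))) (.na 8479 5793 (.na 3269 1024 (.na 1508 363 (.na 1185 257 .ne (.nx 1507
  1048577 (.nr 1506 1482912 (.nr 1186 257 .s1 (.nx 1292 257 (.la (.ls 83 19 259)) (.nr 1505 1048577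
  (.nr 1398 32769 (.la (.lg 0 true 2 79 79 23 0)) (.nx 1504 20644 (.la (.lg 0 false 2 73 73 23 0))
  .out)) .out))) .out) .out)) (.na 1960 512 (.nx 1959 1048577 (.nr 1958 1482912 (.nr 1509 363 .s1
  (.nx 1808 20644 (.nx 1658 257 (.la (.ls 79 23 184)) (.nr 1807 1048577 (.la (.lg 0 true 1 79 79 23
  0)) .out)) (.nr 1957 32769 (.la (.lg 2 false 1 71 71 23 281643)) .out))) .out) .out) (.na 2667
  725 (.nx 2666 1048577 (.nr 2665 1482912 (.nr 1961 512 .s1 (.nx 2176 196 (.nx 2175 195 (.nr 2174
  7168 (.la (.ls 41 19 182)) (.l1 .sk)) (.l1 .sk)) (.nx 2237 257 (.lx (.lp 41 17 182)) (.nr 2664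
  1048577 (.nx 2450 20644 (.la (.lg 0 true 1 71 71 23 0)) (.nr 2663 32769 (.la (.lg 2 false 1 61 61
  23 199681)) .out)) .out)))) .out) .out) (.nx 3268 13005 (.nr 3267 1048577 (.nr 2668 725 .s1 (.nx
  2967 2049 (.la (.ls 67 37 5793)) (.nr 3266 65537 (.la (.lg 0 false 1 47 47 29 0)) .out))) .out)
  .out)))) (.na 4725 2048 (.na 4123 1449 (.nx 4122 13005 (.nr 4121 1048577 (.nr 3270 1024 .s1 (.nx
  3695 3252 (.la (.ls 67 41 10330)) (.nr 4120 32769 (.la (.lg 0 false 1 37 37 29 0)) .out))) .out)
  .out) (.nx 4724 8193 (.nr 4723 1048577 (.nr 4124 1449 .s1 (.la (.ls 61 47 46328))) .out) .out))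
  (.na 5577 2897 (.nx 5576 8193 (.nr 5575 1048577 (.nr 4726 2048 .s1 (.la (.ls 61 47 32779))) .out)
  .out) (.na 6779 4096 (.nx 6778 3252 (.nr 6777 524289 (.nr 5578 2897 .s1 (.la (.ls 67 37 3653)))
  .out) .out) (.nx 8478 3252 (.nr 8477 524289 (.nr 6780 4096 .s1 (.la (.ls 59 37 2584))) .out)
  .out))))) (.na 14951 65536 (.na 11068 11586 (.na 9774 8192 (.nx 9773 1292 (.nr 9772 262145 (.nr
  8480 5793 .s1 (.nx 9293 814 (.lx (.lp 53 37 2049)) (.nr 9771 65537 (.lx (.lp 41 37 2049)) .out)))
  .out) .out) (.nx 11067 1292 (.nr 11066 262145 (.nr 9775 8192 .s1 (.lx (.lp 47 37 2897))) .out)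
  .out)) (.na 12362 16384 (.nx 12361 1292 (.nr 12360 131073 (.nr 11069 11586 .s1 (.lx (.lp 43 41
  4097))) .out) .out) (.na 13657 32768 (.nx 13656 1292 (.nr 13655 262145 (.nr 12363 16384 .s1 (.nx
  12619 257 (.lx (.lp 16 0 8193)) (.nr 13654 131073 (.lx (.lp 41 43 8193)) .out))) .out) .out) (.nx
  14950 1292 (.nr 14949 262145 (.nr 13658 32768 .s1 (.lx (.lp 41 47 16385))) .out) .out)))) (.na
  16761 262144 (.na 16246 131072 (.nx 16245 1292 (.nr 16244 524289 (.nr 14952 65536 .s1 (.nx 15208
  257 (.lx (.lp 16 0 32769)) (.nr 16243 262145 (.lx (.lp 41 53 32769)) .out))) .out) .out) (.nx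
  16760 513 (.nr 16759 524289 (.nr 16247 131072 .s1 (.lx (.lp 16 0 65537))) .out) .out)) (.na 17276
  524288 (.nx 17275 513 (.nr 17274 1048577 (.nr 16762 262144 .s1 (.lx (.lp 16 0 131073))) .out)
  .out) (.na 17278 1048577 (.nx 17277 257 (.l1 .sk) .out) .out)))))))

def T23_1 : Ph :=
  (.na 11671 11586 (.na 3758 2897 (.na 854 1449 (.nx 853 20644 (.nr 852 2097153 (.nr 1 1024 .s1
  (.nx 426 3252 (.la (.ls 73 41 10330)) (.nr 851 131073 (.la (.lg 0 false 1 53 53 31 0)) .out)))
  .out) .out) (.na 2056 2048 (.nx 2055 13005 (.nr 2054 2097153 (.nr 855 1449 .s1 (.nx 1454 3252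
  (.la (.ls 73 41 7301)) (.nr 2053 16385 (.la (.lg 0 false 1 31 37 31 0)) .out))) .out) .out) (.nx
  3757 13005 (.nr 3756 2097153 (.nr 2057 2048 .s1 (.nx 2906 3252 (.la (.ls 71 37 5166)) (.nr 3755
  16385 (.la (.ls 37 53 77422)) .out))) .out) .out))) (.na 6892 5793 (.na 4960 4096 (.nx 4959 4097
  (.nr 4958 1048577 (.nr 3759 2897 .s1 (.la (.ls 67 41 5797))) .out) .out) (.nx 6891 5162 (.nr 6890
  1048577 (.nr 4961 4096 .s1 (.nx 5192 231 (.nr 5191 62326 (.lx (.lp 47 31 1449)) (.l1 .sk)) (.nx
  5193 232 (.l1 .sk) (.la (.ls 61 41 6495))))) .out) .out)) (.na 9618 8192 (.nx 9617 2049 (.nr 9616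
  524289 (.nr 6893 5793 .s1 (.nx 7125 232 (.nx 7124 231 (.nr 7123 88136 (.lx (.lp 47 37 2049)) (.l1
  .sk)) (.l1 .sk)) (.nx 7217 324 (.lx (.lp 61 37 2049)) (.la (.ls 59 37 2049))))) .out) .out) (.nx
  11670 2049 (.nr 11669 524289 (.nr 9619 8192 .s1 (.nx 10911 1292 (.nx 10643 1025 (.lx (.lp 59 37
  2897)) (.nr 10910 262145 (.lx (.lp 59 37 2897)) .out)) (.nr 11668 131073 (.lx (.lp 47 37 2897))
  .out))) .out) .out)))) (.na 19457 131072 (.na 15774 32768 (.na 13722 16384 (.nx 13721 2049 (.nr
  13720 131073 (.nr 11672 11586 .s1 (.lx (.lp 47 41 4097))) .out) .out) (.nx 15773 2049 (.nr 15772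
  262145 (.nr 13723 16384 .s1 (.nx 14046 324 (.lx (.lp 53 43 8193)) (.nr 15771 131073 (.lx (.lp 43
  43 8193)) .out))) .out) .out)) (.na 17827 65536 (.nx 17826 2049 (.nr 17825 524289 (.nr 15775
  32768 .s1 (.nx 16287 512 (.nx 16098 324 (.lx (.lp 53 47 16385)) (.nr 16286 131073 (.lx (.lp 43 47
  16385)) .out)) (.nr 17824 262145 (.lx (.lp 43 47 16385)) .out))) .out) .out) (.nx 19456 1627 (.nr
  19455 524289 (.nr 17828 65536 .s1 (.nx 18151 324 (.lx (.lp 16 0 32769)) (.nr 19454 262145 (.lx
  (.lp 43 53 32769)) .out))) .out) .out))) (.na 21602 524288 (.na 21087 262144 (.nx 21086 1627 (.nr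
  21085 524289 (.nr 19458 131072 .s1 (.nx 19970 513 (.lx (.lp 43 59 65537)) (.nr 21084 262145 (.lx
  (.lp 41 59 65537)) .out))) .out) .out) (.nx 21601 513 (.nr 21600 1048577 (.nr 21088 262144 .s1
  (.lx (.lp 16 0 131073))) .out) .out)) (.na 21604 1048577 (.nx 21603 324 (.l1 .sk) .out) .out))))

def T23_2 : Ph :=
  (.na 90 122 (.na 39 32 (.na 24 14 (.na 13 3 (.na 1 2 .ne (.nx 12 52017 (.nr 11 3446 (.nr 2 2 .s1
  (.nx 3 163 (.l1 (.ls 67 47 13287)) (.nr 10 1219 (.nr 8 154 (.lg 0 false 5 71 71 9 0 240) (.nx 9
  10323 (.lg 2 true 1 61 61 5 101 48) .out)) .out))) .out) .out)) (.na 14 6 .ne (.na 23 7 (.nx 22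
  20644 (.nr 21 3446 (.nr 15 6 .s1 (.nx 16 5 (.l1 (.ls 37 7 7)) (.lg 0 false 5 71 71 11 0 720)))
  .out) .out) .ne))) (.na 31 18 (.na 30 16 (.nx 29 20644 (.nr 28 3446 (.nr 25 14 .s1 (.nx 26 5 (.l1
  (.ls 41 11 5)) (.lg 0 false 2 67 67 13 0 336))) .out) .out) .ne) (.na 32 23 (.lg 0 false 1 0 0 7
  0 24) (.na 33 26 .ne (.nx 38 20644 (.nr 37 6890 (.nr 34 26 .s1 (.nx 35 163 (.l1 (.ls 43 37 1024))
  (.nr 36 257 (.lg 0 false 1 53 53 11 0 13104) .out))) .out) .out))))) (.na 59 64 (.na 46 42 (.na
  40 38 .ne (.nx 45 10323 (.nr 44 4097 (.nr 41 38 .s1 (.nx 42 27 (.l1 (.ls 47 13 22)) (.nr 43 1724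
  (.lg 0 false 1 59 59 13 0 48) .out))) .out) .out)) (.na 52 54 (.nx 51 10323 (.nr 50 4097 (.nr 47
  42 .s1 (.nx 48 27 (.l1 (.ls 41 19 20)) (.nr 49 1724 (.lg 0 false 1 59 59 19 0 5040) .out))) .out)
  .out) (.na 53 62 (.lg 0 false 1 0 0 16 0 24) (.nx 58 10323 (.nr 57 4097 (.nr 54 62 .s1 (.nx 55
  163 (.l1 (.ls 29 29 431)) (.nr 56 513 (.lg 2 false 1 19 19 13 250 720) .out))) .out) .out))))
  (.na 72 86 (.na 60 74 .ne (.na 66 78 (.nx 65 20644 (.nr 64 2049 (.nr 61 74 .s1 (.nx 62 163 (.l1
  (.ls 23 29 362)) (.nr 63 513 (.lg 2 false 1 19 19 13 419 1008) .out))) .out) .out) (.nx 71 20644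
  (.nr 70 2049 (.nr 67 78 .s1 (.nx 68 163 (.l1 (.ls 31 37 343)) (.nr 69 513 (.lg 2 false 1 19 19 23
  397 9360) .out))) .out) .out))) (.na 78 98 (.nx 77 20644 (.nr 76 2049 (.nr 73 86 .s1 (.nx 74 163
  (.l1 (.ls 23 29 311)) (.nr 75 513 (.lg 2 false 1 17 17 13 361 1008) .out))) .out) .out) (.na 84
  114 (.nx 83 20644 (.nr 82 2049 (.nr 79 98 .s1 (.nx 80 163 (.l1 (.ls 29 29 274)) (.nr 81 513 (.lg
  2 false 1 17 17 19 316 5040) .out))) .out) .out) (.nx 89 20644 (.nr 88 2049 (.nr 85 114 .s1 (.nx
  86 163 (.l1 (.ls 17 37 236)) (.nr 87 513 (.lg 2 false 1 16 16 29 272 1008) .out))) .out)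
  .out)))))) (.na 141 218 (.na 110 158 (.na 97 128 (.na 96 126 (.nx 95 20644 (.nr 94 2049 (.nr 91
  122 .s1 (.nx 92 163 (.l1 (.ls 41 23 220)) (.nr 93 513 (.lg 2 false 1 19 19 19 254 720720) .out)))
  .out) .out) (.lg 0 false 1 0 0 16 0 24)) (.na 98 134 .ne (.na 104 146 (.nx 103 10323 (.nr 102
  2049 (.nr 99 134 .s1 (.nx 100 163 (.l1 (.ls 17 23 201)) (.nr 101 513 (.lg 2 false 1 0 16 19 116
  720720) .out))) .out) .out) (.nx 109 10323 (.nr 108 2049 (.nr 105 146 .s1 (.nx 106 163 (.l1 (.ls
  17 23 184)) (.nr 107 513 (.lg 2 false 1 0 16 19 107 720720) .out))) .out) .out)))) (.na 123 186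
  (.na 116 162 (.nx 115 10323 (.nr 114 2049 (.nr 111 158 .s1 (.nx 112 163 (.l1 (.ls 19 23 171))
  (.nr 113 513 (.lg 2 false 1 0 16 19 99 720720) .out))) .out) .out) (.na 117 182 (.lg 0 false 1 0
  0 16 0 24) (.nx 122 10323 (.nr 121 2049 (.nr 118 182 .s1 (.nx 119 163 (.l1 (.ls 31 31 148)) (.nr
  120 513 (.lg 2 false 1 16 16 29 86 65520) .out))) .out) .out))) (.na 129 194 (.nx 128 10323 (.nr
  127 2049 (.nr 124 186 .s1 (.nx 125 163 (.l1 (.ls 17 29 145)) (.nr 126 513 (.lg 2 false 1 16 16 23
  84 720720) .out))) .out) .out) (.na 135 206 (.nx 134 10323 (.nr 133 2049 (.nr 130 194 .s1 (.nx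
  131 163 (.l1 (.ls 16 23 139)) (.nr 132 513 (.lg 2 false 1 16 16 19 80 720720) .out))) .out) .out)
  (.nx 140 10323 (.nr 139 2049 (.nr 136 206 .s1 (.nx 137 163 (.l1 (.ls 16 23 131)) (.nr 138 513
  (.lg 2 false 1 16 16 19 76 720720) .out))) .out) .out))))) (.na 161 257 (.na 153 234 (.na 147 222
  (.nx 146 10323 (.nr 145 2049 (.nr 142 218 .s1 (.nx 143 163 (.l1 (.ls 17 23 124)) (.nr 144 513
  (.lg 2 false 1 16 16 19 72 720720) .out))) .out) .out) (.nx 152 10323 (.nr 151 2049 (.nr 148 222
  .s1 (.nx 149 163 (.l1 (.ls 23 29 122)) (.nr 150 513 (.lg 2 false 1 16 16 23 70 720720) .out)))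
  .out) .out)) (.na 154 254 (.lg 0 false 1 0 0 16 0 24) (.na 160 256 (.nx 159 10323 (.nr 158 2049
  (.nr 155 254 .s1 (.nx 156 163 (.l1 (.ls 16 23 107)) (.nr 157 513 (.lg 2 false 1 16 16 19 61
  720720) .out))) .out) .out) .ne))) (.na 696 2048 (.na 447 512 (.nx 446 163 (.nr 445 4097 (.nr 162
  257 .s1 (.nx 190 29 (.lx (.lp 16 0 129)) (.la (.ls 41 19 129)))) .out) .out) (.na 612 1024 (.nx
  611 163 (.nr 610 4097 (.nr 448 512 .s1 (.lx (.lp 41 19 257))) .out) .out) (.nx 695 82 (.nr 694
  8193 (.nr 613 1024 .s1 (.lx (.lp 16 19 513))) .out) .out))) (.na 780 4096 (.nx 779 82 (.nr 778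
  8193 (.nr 697 2048 .s1 (.lx (.lp 16 0 1025))) .out) .out) (.na 864 8193 (.nx 863 82 (.nr 862
  16385 (.nr 781 4096 .s1 (.lx (.lp 16 0 2049))) .out) .out) .out))))))

theorem c23 :
    OkQ ckI L9 195 1 1099511627776 0 34359738368 1 1099511627776 ∧
    OkQ ckI L10 231 1024 1099511627776 0 34359738368 1 1099511627776 ∧
    OkQ ckI L1 3 1 1099511627776 0 34359738368 1 1099511627776 := by
  refine ⟨?_, ?_, ?_⟩
  · refine fin 1560 17279 T23_0 ?_
    refine jn 11 (by decide +kernel) ?_
    refine jn 18 (by decide +kernel) ?_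
    refine jn 25 (by decide +kernel) ?_
    refine jn 32 (by decide +kernel) ?_
    refine jn 39 (by decide +kernel) ?_
    refine jn 46 (by decide +kernel) ?_
    refine jn 53 (by decide +kernel) ?_
    refine jn 60 (by decide +kernel) ?_
    refine jn 67 (by decide +kernel) ?_
    refine jn 74 (by decide +kernel) ?_
    refine jn 81 (by decide +kernel) ?_
    refine jn 92 (by decide +kernel) ?_
    refine jn 103 (by decide +kernel) ?_
    refine jn 125 (by decide +kernel) ?_
    refine jn 147 (by decide +kernel) ?_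
    refine jn 169 (by decide +kernel) ?_
    refine jn 192 (by decide +kernel) ?_
    refine jn 211 (by decide +kernel) ?_
    refine jn 230 (by decide +kernel) ?_
    refine jn 242 (by decide +kernel) ?_
    refine jn 264 (by decide +kernel) ?_
    refine jn 287 (by decide +kernel) ?_
    refine jn 296 (by decide +kernel) ?_
    refine jn 301 (by decide +kernel) ?_
    refine jn 313 (by decide +kernel) ?_
    refine jn 368 (by decide +kernel) ?_
    refine jn 392 (by decide +kernel) ?_
    refine jn 414 (by decide +kernel) ?_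
    refine jn 436 (by decide +kernel) ?_
    refine jn 447 (by decide +kernel) ?_
    refine jn 461 (by decide +kernel) ?_
    refine jn 480 (by decide +kernel) ?_
    refine jn 501 (by decide +kernel) ?_
    refine jn 521 (by decide +kernel) ?_
    refine jn 522 (by decide +kernel) ?_
    refine jn 523 (by decide +kernel) ?_
    refine jn 524 (by decide +kernel) ?_
    refine jn 525 (by decide +kernel) ?_
    refine jn 526 (by decide +kernel) ?_
    refine jn 530 (by decide +kernel) ?_
    refine jn 531 (by decide +kernel) ?_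
    refine jn 532 (by decide +kernel) ?_
    refine jn 533 (by decide +kernel) ?_
    refine jn 534 (by decide +kernel) ?_
    refine jn 535 (by decide +kernel) ?_
    refine jn 536 (by decide +kernel) ?_
    refine jn 537 (by decide +kernel) ?_
    refine jn 538 (by decide +kernel) ?_
    refine jn 539 (by decide +kernel) ?_
    refine jn 540 (by decide +kernel) ?_
    refine jn 541 (by decide +kernel) ?_
    refine jn 542 (by decide +kernel) ?_
    refine jn 549 (by decide +kernel) ?_
    refine jn 558 (by decide +kernel) ?_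
    refine jn 565 (by decide +kernel) ?_
    refine jn 576 (by decide +kernel) ?_
    refine jn 584 (by decide +kernel) ?_
    refine jn 586 (by decide +kernel) ?_
    refine jn 588 (by decide +kernel) ?_
    refine jn 590 (by decide +kernel) ?_
    refine jn 591 (by decide +kernel) ?_
    refine jn 598 (by decide +kernel) ?_
    refine jn 599 (by decide +kernel) ?_
    refine jn 600 (by decide +kernel) ?_
    refine jn 601 (by decide +kernel) ?_
    refine jn 602 (by decide +kernel) ?_
    refine jn 603 (by decide +kernel) ?_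
    refine jn 604 (by decide +kernel) ?_
    refine jn 605 (by decide +kernel) ?_
    refine jn 616 (by decide +kernel) ?_
    refine jn 644 (by decide +kernel) ?_
    refine jn 663 (by decide +kernel) ?_
    refine jn 686 (by decide +kernel) ?_
    refine jn 703 (by decide +kernel) ?_
    refine jn 704 (by decide +kernel) ?_
    refine jn 705 (by decide +kernel) ?_
    refine jn 706 (by decide +kernel) ?_
    refine jn 707 (by decide +kernel) ?_
    refine jn 708 (by decide +kernel) ?_
    refine jn 709 (by decide +kernel) ?_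
    refine jn 710 (by decide +kernel) ?_
    refine jn 711 (by decide +kernel) ?_
    refine jn 718 (by decide +kernel) ?_
    refine jn 727 (by decide +kernel) ?_
    refine jn 741 (by decide +kernel) ?_
    refine jn 748 (by decide +kernel) ?_
    refine jn 765 (by decide +kernel) ?_
    refine jn 772 (by decide +kernel) ?_
    refine jn 791 (by decide +kernel) ?_
    refine jn 797 (by decide +kernel) ?_
    refine jn 808 (by decide +kernel) ?_
    refine jn 815 (by decide +kernel) ?_
    refine jn 828 (by decide +kernel) ?_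
    refine jn 833 (by decide +kernel) ?_
    refine jn 852 (by decide +kernel) ?_
    refine jn 866 (by decide +kernel) ?_
    refine jn 876 (by decide +kernel) ?_
    refine jn 877 (by decide +kernel) ?_
    refine jn 878 (by decide +kernel) ?_
    refine jn 879 (by decide +kernel) ?_
    refine jn 891 (by decide +kernel) ?_
    refine jn 904 (by decide +kernel) ?_
    refine jn 917 (by decide +kernel) ?_
    refine jn 929 (by decide +kernel) ?_
    refine jn 942 (by decide +kernel) ?_
    refine jn 965 (by decide +kernel) ?_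
    refine jn 979 (by decide +kernel) ?_
    refine jn 993 (by decide +kernel) ?_
    refine jn 1005 (by decide +kernel) ?_
    refine jn 1018 (by decide +kernel) ?_
    refine jn 1031 (by decide +kernel) ?_
    refine jn 1044 (by decide +kernel) ?_
    refine jn 1058 (by decide +kernel) ?_
    refine jn 1072 (by decide +kernel) ?_
    refine jn 1084 (by decide +kernel) ?_
    refine jn 1101 (by decide +kernel) ?_
    refine jn 1114 (by decide +kernel) ?_
    refine jn 1129 (by decide +kernel) ?_
    refine jn 1140 (by decide +kernel) ?_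
    refine jn 1157 (by decide +kernel) ?_
    refine jn 1171 (by decide +kernel) ?_
    refine jn 1186 (by decide +kernel) ?_
    refine jn 1313 (by decide +kernel) ?_
    refine jn 1329 (by decide +kernel) ?_
    refine jn 1353 (by decide +kernel) ?_
    refine jn 1357 (by decide +kernel) ?_
    refine jn 1361 (by decide +kernel) ?_
    refine jn 1381 (by decide +kernel) ?_
    refine jn 1397 (by decide +kernel) ?_
    refine jn 1427 (by decide +kernel) ?_
    refine jn 1439 (by decide +kernel) ?_
    refine jn 1463 (by decide +kernel) ?_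
    refine jn 1467 (by decide +kernel) ?_
    refine jn 1487 (by decide +kernel) ?_
    refine jn 1504 (by decide +kernel) ?_
    refine jn 1632 (by decide +kernel) ?_
    refine jn 1669 (by decide +kernel) ?_
    refine jn 1685 (by decide +kernel) ?_
    refine jn 1705 (by decide +kernel) ?_
    refine jn 1733 (by decide +kernel) ?_
    refine jn 1757 (by decide +kernel) ?_
    refine jn 1769 (by decide +kernel) ?_
    refine jn 1801 (by decide +kernel) ?_
    refine jn 1811 (by decide +kernel) ?_
    refine jn 1819 (by decide +kernel) ?_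
    refine jn 1835 (by decide +kernel) ?_
    refine jn 1847 (by decide +kernel) ?_
    refine jn 1867 (by decide +kernel) ?_
    refine jn 1883 (by decide +kernel) ?_
    refine jn 1891 (by decide +kernel) ?_
    refine jn 1911 (by decide +kernel) ?_
    refine jn 1923 (by decide +kernel) ?_
    refine jn 1951 (by decide +kernel) ?_
    refine jn 1967 (by decide +kernel) ?_
    refine jn 2123 (by decide +kernel) ?_
    refine jn 2243 (by decide +kernel) ?_
    refine jn 2255 (by decide +kernel) ?_
    refine jn 2287 (by decide +kernel) ?_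
    refine jn 2303 (by decide +kernel) ?_
    refine jn 2323 (by decide +kernel) ?_
    refine jn 2367 (by decide +kernel) ?_
    refine jn 2411 (by decide +kernel) ?_
    refine jn 2435 (by decide +kernel) ?_
    refine jn 2450 (by decide +kernel) ?_
    refine jn 2464 (by decide +kernel) ?_
    refine jn 2484 (by decide +kernel) ?_
    refine jn 2512 (by decide +kernel) ?_
    refine jn 2520 (by decide +kernel) ?_
    refine jn 2548 (by decide +kernel) ?_
    refine jn 2608 (by decide +kernel) ?_
    refine jn 2628 (by decide +kernel) ?_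
    refine jn 2652 (by decide +kernel) ?_
    refine jn 2685 (by decide +kernel) ?_
    refine jn 2765 (by decide +kernel) ?_
    refine jn 2841 (by decide +kernel) ?_
    refine jn 2909 (by decide +kernel) ?_
    refine jn 2968 (by decide +kernel) ?_
    refine jn 3024 (by decide +kernel) ?_
    refine jn 3056 (by decide +kernel) ?_
    refine jn 3100 (by decide +kernel) ?_
    refine jn 3140 (by decide +kernel) ?_
    refine jn 3173 (by decide +kernel) ?_
    refine jn 3212 (by decide +kernel) ?_
    refine jn 3264 (by decide +kernel) ?_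
    refine jn 3352 (by decide +kernel) ?_
    refine jn 3412 (by decide +kernel) ?_
    refine jn 3492 (by decide +kernel) ?_
    refine jn 3572 (by decide +kernel) ?_
    refine jn 3644 (by decide +kernel) ?_
    refine jn 3749 (by decide +kernel) ?_
    refine jn 3793 (by decide +kernel) ?_
    refine jn 3837 (by decide +kernel) ?_
    refine jn 3901 (by decide +kernel) ?_
    refine jn 3965 (by decide +kernel) ?_
    refine jn 4025 (by decide +kernel) ?_
    refine jn 4101 (by decide +kernel) ?_
    refine jn 4173 (by decide +kernel) ?_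
    refine jn 4217 (by decide +kernel) ?_
    refine jn 4257 (by decide +kernel) ?_
    refine jn 4285 (by decide +kernel) ?_
    refine jn 4353 (by decide +kernel) ?_
    refine jn 4393 (by decide +kernel) ?_
    refine jn 4429 (by decide +kernel) ?_
    refine jn 4505 (by decide +kernel) ?_
    refine jn 4561 (by decide +kernel) ?_
    refine jn 4633 (by decide +kernel) ?_
    refine jn 4701 (by decide +kernel) ?_
    refine jn 4764 (by decide +kernel) ?_
    refine jn 4852 (by decide +kernel) ?_
    refine jn 4952 (by decide +kernel) ?_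
    refine jn 5024 (by decide +kernel) ?_
    refine jn 5084 (by decide +kernel) ?_
    refine jn 5140 (by decide +kernel) ?_
    refine jn 5208 (by decide +kernel) ?_
    refine jn 5264 (by decide +kernel) ?_
    refine jn 5336 (by decide +kernel) ?_
    refine jn 5392 (by decide +kernel) ?_
    refine jn 5464 (by decide +kernel) ?_
    refine jn 5544 (by decide +kernel) ?_
    refine jn 5635 (by decide +kernel) ?_
    refine jn 5763 (by decide +kernel) ?_
    refine jn 5899 (by decide +kernel) ?_
    refine jn 6015 (by decide +kernel) ?_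
    refine jn 6151 (by decide +kernel) ?_
    refine jn 6279 (by decide +kernel) ?_
    refine jn 6415 (by decide +kernel) ?_
    refine jn 6575 (by decide +kernel) ?_
    refine jn 6699 (by decide +kernel) ?_
    refine jn 6810 (by decide +kernel) ?_
    refine jn 6954 (by decide +kernel) ?_
    refine jn 7098 (by decide +kernel) ?_
    refine jn 7238 (by decide +kernel) ?_
    refine jn 7386 (by decide +kernel) ?_
    refine jn 7502 (by decide +kernel) ?_
    refine jn 7607 (by decide +kernel) ?_
    refine jn 7762 (by decide +kernel) ?_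
    refine jn 7882 (by decide +kernel) ?_
    refine jn 8058 (by decide +kernel) ?_
    refine jn 8198 (by decide +kernel) ?_
    refine jn 8306 (by decide +kernel) ?_
    refine jn 8466 (by decide +kernel) ?_
    refine jn 8830 (by decide +kernel) ?_
    refine jn 9100 (by decide +kernel) ?_
    refine jn 9253 (by decide +kernel) ?_
    refine jn 9381 (by decide +kernel) ?_
    refine jn 9492 (by decide +kernel) ?_
    refine jn 9588 (by decide +kernel) ?_
    refine jn 9669 (by decide +kernel) ?_
    refine jn 9742 (by decide +kernel) ?_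
    refine jn 10051 (by decide +kernel) ?_
    refine jn 10389 (by decide +kernel) ?_
    refine jn 10579 (by decide +kernel) ?_
    refine jn 10720 (by decide +kernel) ?_
    refine jn 10839 (by decide +kernel) ?_
    refine jn 10953 (by decide +kernel) ?_
    refine jn 11045 (by decide +kernel) ?_
    refine jn 11509 (by decide +kernel) ?_
    refine jn 11807 (by decide +kernel) ?_
    refine jn 12025 (by decide +kernel) ?_
    refine jn 12185 (by decide +kernel) ?_
    refine jn 12304 (by decide +kernel) ?_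
    refine jn 12677 (by decide +kernel) ?_
    refine jn 12971 (by decide +kernel) ?_
    refine jn 13163 (by decide +kernel) ?_
    refine jn 13293 (by decide +kernel) ?_
    refine jn 13414 (by decide +kernel) ?_
    refine jn 13517 (by decide +kernel) ?_
    refine jn 13615 (by decide +kernel) ?_
    refine jn 14090 (by decide +kernel) ?_
    refine jn 14340 (by decide +kernel) ?_
    refine jn 14556 (by decide +kernel) ?_
    refine jn 14735 (by decide +kernel) ?_
    refine jn 14890 (by decide +kernel) ?_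
    refine jn 15410 (by decide +kernel) ?_
    refine jn 15731 (by decide +kernel) ?_
    refine jn 15979 (by decide +kernel) ?_
    refine jn 16208 (by decide +kernel) ?_
    refine jn 16762 (by decide +kernel) ?_
    exact je (by decide +kernel)
  · refine fin 1848 21605 T23_1 ?_
    refine jn 17 (by decide +kernel) ?_
    refine jn 22 (by decide +kernel) ?_
    refine jn 36 (by decide +kernel) ?_
    refine jn 49 (by decide +kernel) ?_
    refine jn 64 (by decide +kernel) ?_
    refine jn 87 (by decide +kernel) ?_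
    refine jn 98 (by decide +kernel) ?_
    refine jn 114 (by decide +kernel) ?_
    refine jn 132 (by decide +kernel) ?_
    refine jn 137 (by decide +kernel) ?_
    refine jn 145 (by decide +kernel) ?_
    refine jn 158 (by decide +kernel) ?_
    refine jn 172 (by decide +kernel) ?_
    refine jn 193 (by decide +kernel) ?_
    refine jn 205 (by decide +kernel) ?_
    refine jn 223 (by decide +kernel) ?_
    refine jn 239 (by decide +kernel) ?_
    refine jn 261 (by decide +kernel) ?_
    refine jn 277 (by decide +kernel) ?_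
    refine jn 293 (by decide +kernel) ?_
    refine jn 312 (by decide +kernel) ?_
    refine jn 329 (by decide +kernel) ?_
    refine jn 363 (by decide +kernel) ?_
    refine jn 375 (by decide +kernel) ?_
    refine jn 385 (by decide +kernel) ?_
    refine jn 401 (by decide +kernel) ?_
    refine jn 420 (by decide +kernel) ?_
    refine jn 433 (by decide +kernel) ?_
    refine jn 442 (by decide +kernel) ?_
    refine jn 443 (by decide +kernel) ?_
    refine jn 449 (by decide +kernel) ?_
    refine jn 459 (by decide +kernel) ?_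
    refine jn 470 (by decide +kernel) ?_
    refine jn 474 (by decide +kernel) ?_
    refine jn 479 (by decide +kernel) ?_
    refine jn 494 (by decide +kernel) ?_
    refine jn 504 (by decide +kernel) ?_
    refine jn 514 (by decide +kernel) ?_
    refine jn 522 (by decide +kernel) ?_
    refine jn 530 (by decide +kernel) ?_
    refine jn 534 (by decide +kernel) ?_
    refine jn 542 (by decide +kernel) ?_
    refine jn 546 (by decide +kernel) ?_
    refine jn 559 (by decide +kernel) ?_
    refine jn 562 (by decide +kernel) ?_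
    refine jn 563 (by decide +kernel) ?_
    refine jn 573 (by decide +kernel) ?_
    refine jn 582 (by decide +kernel) ?_
    refine jn 586 (by decide +kernel) ?_
    refine jn 594 (by decide +kernel) ?_
    refine jn 602 (by decide +kernel) ?_
    refine jn 615 (by decide +kernel) ?_
    refine jn 620 (by decide +kernel) ?_
    refine jn 624 (by decide +kernel) ?_
    refine jn 634 (by decide +kernel) ?_
    refine jn 646 (by decide +kernel) ?_
    refine jn 651 (by decide +kernel) ?_
    refine jn 661 (by decide +kernel) ?_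
    refine jn 679 (by decide +kernel) ?_
    refine jn 686 (by decide +kernel) ?_
    refine jn 697 (by decide +kernel) ?_
    refine jn 703 (by decide +kernel) ?_
    refine jn 717 (by decide +kernel) ?_
    refine jn 722 (by decide +kernel) ?_
    refine jn 737 (by decide +kernel) ?_
    refine jn 746 (by decide +kernel) ?_
    refine jn 757 (by decide +kernel) ?_
    refine jn 777 (by decide +kernel) ?_
    refine jn 792 (by decide +kernel) ?_
    refine jn 798 (by decide +kernel) ?_
    refine jn 803 (by decide +kernel) ?_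
    refine jn 810 (by decide +kernel) ?_
    refine jn 818 (by decide +kernel) ?_
    refine jn 826 (by decide +kernel) ?_
    refine jn 835 (by decide +kernel) ?_
    refine jn 846 (by decide +kernel) ?_
    refine jn 862 (by decide +kernel) ?_
    refine jn 874 (by decide +kernel) ?_
    refine jn 889 (by decide +kernel) ?_
    refine jn 914 (by decide +kernel) ?_
    refine jn 929 (by decide +kernel) ?_
    refine jn 946 (by decide +kernel) ?_
    refine jn 966 (by decide +kernel) ?_
    refine jn 982 (by decide +kernel) ?_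
    refine jn 1006 (by decide +kernel) ?_
    refine jn 1028 (by decide +kernel) ?_
    refine jn 1043 (by decide +kernel) ?_
    refine jn 1064 (by decide +kernel) ?_
    refine jn 1082 (by decide +kernel) ?_
    refine jn 1099 (by decide +kernel) ?_
    refine jn 1127 (by decide +kernel) ?_
    refine jn 1151 (by decide +kernel) ?_
    refine jn 1170 (by decide +kernel) ?_
    refine jn 1192 (by decide +kernel) ?_
    refine jn 1220 (by decide +kernel) ?_
    refine jn 1244 (by decide +kernel) ?_
    refine jn 1270 (by decide +kernel) ?_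
    refine jn 1286 (by decide +kernel) ?_
    refine jn 1301 (by decide +kernel) ?_
    refine jn 1321 (by decide +kernel) ?_
    refine jn 1348 (by decide +kernel) ?_
    refine jn 1370 (by decide +kernel) ?_
    refine jn 1387 (by decide +kernel) ?_
    refine jn 1414 (by decide +kernel) ?_
    refine jn 1441 (by decide +kernel) ?_
    refine jn 1461 (by decide +kernel) ?_
    refine jn 1469 (by decide +kernel) ?_
    refine jn 1485 (by decide +kernel) ?_
    refine jn 1486 (by decide +kernel) ?_
    refine jn 1505 (by decide +kernel) ?_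
    refine jn 1513 (by decide +kernel) ?_
    refine jn 1525 (by decide +kernel) ?_
    refine jn 1526 (by decide +kernel) ?_
    refine jn 1540 (by decide +kernel) ?_
    refine jn 1559 (by decide +kernel) ?_
    refine jn 1565 (by decide +kernel) ?_
    refine jn 1566 (by decide +kernel) ?_
    refine jn 1591 (by decide +kernel) ?_
    refine jn 1610 (by decide +kernel) ?_
    refine jn 1627 (by decide +kernel) ?_
    refine jn 1635 (by decide +kernel) ?_
    refine jn 1655 (by decide +kernel) ?_
    refine jn 1669 (by decide +kernel) ?_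
    refine jn 1677 (by decide +kernel) ?_
    refine jn 1685 (by decide +kernel) ?_
    refine jn 1696 (by decide +kernel) ?_
    refine jn 1717 (by decide +kernel) ?_
    refine jn 1738 (by decide +kernel) ?_
    refine jn 1750 (by decide +kernel) ?_
    refine jn 1765 (by decide +kernel) ?_
    refine jn 1775 (by decide +kernel) ?_
    refine jn 1791 (by decide +kernel) ?_
    refine jn 1810 (by decide +kernel) ?_
    refine jn 1829 (by decide +kernel) ?_
    refine jn 1846 (by decide +kernel) ?_
    refine jn 1863 (by decide +kernel) ?_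
    refine jn 1874 (by decide +kernel) ?_
    refine jn 1885 (by decide +kernel) ?_
    refine jn 1890 (by decide +kernel) ?_
    refine jn 1903 (by decide +kernel) ?_
    refine jn 1918 (by decide +kernel) ?_
    refine jn 1930 (by decide +kernel) ?_
    refine jn 1951 (by decide +kernel) ?_
    refine jn 1963 (by decide +kernel) ?_
    refine jn 1981 (by decide +kernel) ?_
    refine jn 1982 (by decide +kernel) ?_
    refine jn 2001 (by decide +kernel) ?_
    refine jn 2015 (by decide +kernel) ?_
    refine jn 2038 (by decide +kernel) ?_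
    refine jn 2065 (by decide +kernel) ?_
    refine jn 2089 (by decide +kernel) ?_
    refine jn 2099 (by decide +kernel) ?_
    refine jn 2114 (by decide +kernel) ?_
    refine jn 2137 (by decide +kernel) ?_
    refine jn 2153 (by decide +kernel) ?_
    refine jn 2175 (by decide +kernel) ?_
    refine jn 2195 (by decide +kernel) ?_
    refine jn 2220 (by decide +kernel) ?_
    refine jn 2244 (by decide +kernel) ?_
    refine jn 2266 (by decide +kernel) ?_
    refine jn 2289 (by decide +kernel) ?_
    refine jn 2315 (by decide +kernel) ?_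
    refine jn 2329 (by decide +kernel) ?_
    refine jn 2354 (by decide +kernel) ?_
    refine jn 2373 (by decide +kernel) ?_
    refine jn 2395 (by decide +kernel) ?_
    refine jn 2426 (by decide +kernel) ?_
    refine jn 2449 (by decide +kernel) ?_
    refine jn 2465 (by decide +kernel) ?_
    refine jn 2488 (by decide +kernel) ?_
    refine jn 2517 (by decide +kernel) ?_
    refine jn 2552 (by decide +kernel) ?_
    refine jn 2570 (by decide +kernel) ?_
    refine jn 2597 (by decide +kernel) ?_
    refine jn 2617 (by decide +kernel) ?_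
    refine jn 2645 (by decide +kernel) ?_
    refine jn 2668 (by decide +kernel) ?_
    refine jn 2690 (by decide +kernel) ?_
    refine jn 2726 (by decide +kernel) ?_
    refine jn 2764 (by decide +kernel) ?_
    refine jn 2789 (by decide +kernel) ?_
    refine jn 2809 (by decide +kernel) ?_
    refine jn 2829 (by decide +kernel) ?_
    refine jn 2854 (by decide +kernel) ?_
    refine jn 2876 (by decide +kernel) ?_
    refine jn 2903 (by decide +kernel) ?_
    refine jn 2930 (by decide +kernel) ?_
    refine jn 2940 (by decide +kernel) ?_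
    refine jn 2952 (by decide +kernel) ?_
    refine jn 2964 (by decide +kernel) ?_
    refine jn 2986 (by decide +kernel) ?_
    refine jn 2998 (by decide +kernel) ?_
    refine jn 3010 (by decide +kernel) ?_
    refine jn 3026 (by decide +kernel) ?_
    refine jn 3042 (by decide +kernel) ?_
    refine jn 3058 (by decide +kernel) ?_
    refine jn 3078 (by decide +kernel) ?_
    refine jn 3093 (by decide +kernel) ?_
    refine jn 3111 (by decide +kernel) ?_
    refine jn 3127 (by decide +kernel) ?_
    refine jn 3138 (by decide +kernel) ?_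
    refine jn 3146 (by decide +kernel) ?_
    refine jn 3172 (by decide +kernel) ?_
    refine jn 3178 (by decide +kernel) ?_
    refine jn 3194 (by decide +kernel) ?_
    refine jn 3215 (by decide +kernel) ?_
    refine jn 3226 (by decide +kernel) ?_
    refine jn 3242 (by decide +kernel) ?_
    refine jn 3263 (by decide +kernel) ?_
    refine jn 3290 (by decide +kernel) ?_
    refine jn 3298 (by decide +kernel) ?_
    refine jn 3308 (by decide +kernel) ?_
    refine jn 3328 (by decide +kernel) ?_
    refine jn 3350 (by decide +kernel) ?_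
    refine jn 3371 (by decide +kernel) ?_
    refine jn 3404 (by decide +kernel) ?_
    refine jn 3418 (by decide +kernel) ?_
    refine jn 3437 (by decide +kernel) ?_
    refine jn 3458 (by decide +kernel) ?_
    refine jn 3471 (by decide +kernel) ?_
    refine jn 3494 (by decide +kernel) ?_
    refine jn 3509 (by decide +kernel) ?_
    refine jn 3537 (by decide +kernel) ?_
    refine jn 3548 (by decide +kernel) ?_
    refine jn 3584 (by decide +kernel) ?_
    refine jn 3613 (by decide +kernel) ?_
    refine jn 3635 (by decide +kernel) ?_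
    refine jn 3650 (by decide +kernel) ?_
    refine jn 3668 (by decide +kernel) ?_
    refine jn 3682 (by decide +kernel) ?_
    refine jn 3703 (by decide +kernel) ?_
    refine jn 3719 (by decide +kernel) ?_
    refine jn 3746 (by decide +kernel) ?_
    refine jn 3774 (by decide +kernel) ?_
    refine jn 3794 (by decide +kernel) ?_
    refine jn 3822 (by decide +kernel) ?_
    refine jn 3845 (by decide +kernel) ?_
    refine jn 3874 (by decide +kernel) ?_
    refine jn 3897 (by decide +kernel) ?_
    refine jn 3920 (by decide +kernel) ?_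
    refine jn 3942 (by decide +kernel) ?_
    refine jn 3970 (by decide +kernel) ?_
    refine jn 3995 (by decide +kernel) ?_
    refine jn 4025 (by decide +kernel) ?_
    refine jn 4062 (by decide +kernel) ?_
    refine jn 4096 (by decide +kernel) ?_
    refine jn 4118 (by decide +kernel) ?_
    refine jn 4144 (by decide +kernel) ?_
    refine jn 4170 (by decide +kernel) ?_
    refine jn 4203 (by decide +kernel) ?_
    refine jn 4225 (by decide +kernel) ?_
    refine jn 4253 (by decide +kernel) ?_
    refine jn 4292 (by decide +kernel) ?_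
    refine jn 4333 (by decide +kernel) ?_
    refine jn 4355 (by decide +kernel) ?_
    refine jn 4378 (by decide +kernel) ?_
    refine jn 4402 (by decide +kernel) ?_
    refine jn 4425 (by decide +kernel) ?_
    refine jn 4457 (by decide +kernel) ?_
    refine jn 4501 (by decide +kernel) ?_
    refine jn 4522 (by decide +kernel) ?_
    refine jn 4558 (by decide +kernel) ?_
    refine jn 4580 (by decide +kernel) ?_
    refine jn 4608 (by decide +kernel) ?_
    refine jn 4631 (by decide +kernel) ?_
    refine jn 4662 (by decide +kernel) ?_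
    refine jn 4692 (by decide +kernel) ?_
    refine jn 4717 (by decide +kernel) ?_
    refine jn 4754 (by decide +kernel) ?_
    refine jn 4783 (by decide +kernel) ?_
    refine jn 4811 (by decide +kernel) ?_
    refine jn 4836 (by decide +kernel) ?_
    refine jn 4866 (by decide +kernel) ?_
    refine jn 4901 (by decide +kernel) ?_
    refine jn 4934 (by decide +kernel) ?_
    refine jn 4996 (by decide +kernel) ?_
    refine jn 5119 (by decide +kernel) ?_
    refine jn 5227 (by decide +kernel) ?_
    refine jn 5257 (by decide +kernel) ?_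
    refine jn 5271 (by decide +kernel) ?_
    refine jn 5297 (by decide +kernel) ?_
    refine jn 5321 (by decide +kernel) ?_
    refine jn 5353 (by decide +kernel) ?_
    refine jn 5377 (by decide +kernel) ?_
    refine jn 5400 (by decide +kernel) ?_
    refine jn 5433 (by decide +kernel) ?_
    refine jn 5465 (by decide +kernel) ?_
    refine jn 5497 (by decide +kernel) ?_
    refine jn 5522 (by decide +kernel) ?_
    refine jn 5550 (by decide +kernel) ?_
    refine jn 5581 (by decide +kernel) ?_
    refine jn 5614 (by decide +kernel) ?_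
    refine jn 5640 (by decide +kernel) ?_
    refine jn 5672 (by decide +kernel) ?_
    refine jn 5709 (by decide +kernel) ?_
    refine jn 5736 (by decide +kernel) ?_
    refine jn 5767 (by decide +kernel) ?_
    refine jn 5797 (by decide +kernel) ?_
    refine jn 5829 (by decide +kernel) ?_
    refine jn 5863 (by decide +kernel) ?_
    refine jn 5900 (by decide +kernel) ?_
    refine jn 5952 (by decide +kernel) ?_
    refine jn 5972 (by decide +kernel) ?_
    refine jn 5987 (by decide +kernel) ?_
    refine jn 6014 (by decide +kernel) ?_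
    refine jn 6037 (by decide +kernel) ?_
    refine jn 6068 (by decide +kernel) ?_
    refine jn 6097 (by decide +kernel) ?_
    refine jn 6126 (by decide +kernel) ?_
    refine jn 6167 (by decide +kernel) ?_
    refine jn 6201 (by decide +kernel) ?_
    refine jn 6229 (by decide +kernel) ?_
    refine jn 6259 (by decide +kernel) ?_
    refine jn 6289 (by decide +kernel) ?_
    refine jn 6314 (by decide +kernel) ?_
    refine jn 6354 (by decide +kernel) ?_
    refine jn 6379 (by decide +kernel) ?_
    refine jn 6417 (by decide +kernel) ?_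
    refine jn 6452 (by decide +kernel) ?_
    refine jn 6476 (by decide +kernel) ?_
    refine jn 6512 (by decide +kernel) ?_
    refine jn 6549 (by decide +kernel) ?_
    refine jn 6595 (by decide +kernel) ?_
    refine jn 6643 (by decide +kernel) ?_
    refine jn 6661 (by decide +kernel) ?_
    refine jn 6689 (by decide +kernel) ?_
    refine jn 6717 (by decide +kernel) ?_
    refine jn 6737 (by decide +kernel) ?_
    refine jn 6761 (by decide +kernel) ?_
    refine jn 6793 (by decide +kernel) ?_
    refine jn 6823 (by decide +kernel) ?_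
    refine jn 6858 (by decide +kernel) ?_
    refine jn 6890 (by decide +kernel) ?_
    refine jn 7125 (by decide +kernel) ?_
    refine jn 7228 (by decide +kernel) ?_
    refine jn 7276 (by decide +kernel) ?_
    refine jn 7327 (by decide +kernel) ?_
    refine jn 7373 (by decide +kernel) ?_
    refine jn 7432 (by decide +kernel) ?_
    refine jn 7480 (by decide +kernel) ?_
    refine jn 7525 (by decide +kernel) ?_
    refine jn 7570 (by decide +kernel) ?_
    refine jn 7628 (by decide +kernel) ?_
    refine jn 7681 (by decide +kernel) ?_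
    refine jn 7728 (by decide +kernel) ?_
    refine jn 7789 (by decide +kernel) ?_
    refine jn 7844 (by decide +kernel) ?_
    refine jn 7896 (by decide +kernel) ?_
    refine jn 7937 (by decide +kernel) ?_
    refine jn 7991 (by decide +kernel) ?_
    refine jn 8038 (by decide +kernel) ?_
    refine jn 8097 (by decide +kernel) ?_
    refine jn 8144 (by decide +kernel) ?_
    refine jn 8188 (by decide +kernel) ?_
    refine jn 8249 (by decide +kernel) ?_
    refine jn 8303 (by decide +kernel) ?_
    refine jn 8366 (by decide +kernel) ?_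
    refine jn 8412 (by decide +kernel) ?_
    refine jn 8458 (by decide +kernel) ?_
    refine jn 8504 (by decide +kernel) ?_
    refine jn 8566 (by decide +kernel) ?_
    refine jn 8617 (by decide +kernel) ?_
    refine jn 8674 (by decide +kernel) ?_
    refine jn 8724 (by decide +kernel) ?_
    refine jn 8782 (by decide +kernel) ?_
    refine jn 8834 (by decide +kernel) ?_
    refine jn 8888 (by decide +kernel) ?_
    refine jn 8939 (by decide +kernel) ?_
    refine jn 8998 (by decide +kernel) ?_
    refine jn 9059 (by decide +kernel) ?_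
    refine jn 9104 (by decide +kernel) ?_
    refine jn 9157 (by decide +kernel) ?_
    refine jn 9212 (by decide +kernel) ?_
    refine jn 9269 (by decide +kernel) ?_
    refine jn 9320 (by decide +kernel) ?_
    refine jn 9367 (by decide +kernel) ?_
    refine jn 9421 (by decide +kernel) ?_
    refine jn 9481 (by decide +kernel) ?_
    refine jn 9538 (by decide +kernel) ?_
    refine jn 9590 (by decide +kernel) ?_
    refine jn 9740 (by decide +kernel) ?_
    refine jn 9967 (by decide +kernel) ?_
    refine jn 10057 (by decide +kernel) ?_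
    refine jn 10143 (by decide +kernel) ?_
    refine jn 10227 (by decide +kernel) ?_
    refine jn 10309 (by decide +kernel) ?_
    refine jn 10377 (by decide +kernel) ?_
    refine jn 10459 (by decide +kernel) ?_
    refine jn 10516 (by decide +kernel) ?_
    refine jn 10571 (by decide +kernel) ?_
    refine jn 10640 (by decide +kernel) ?_
    refine jn 10694 (by decide +kernel) ?_
    refine jn 10740 (by decide +kernel) ?_
    refine jn 10802 (by decide +kernel) ?_
    refine jn 10847 (by decide +kernel) ?_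
    refine jn 10896 (by decide +kernel) ?_
    refine jn 10952 (by decide +kernel) ?_
    refine jn 11001 (by decide +kernel) ?_
    refine jn 11056 (by decide +kernel) ?_
    refine jn 11098 (by decide +kernel) ?_
    refine jn 11130 (by decide +kernel) ?_
    refine jn 11158 (by decide +kernel) ?_
    refine jn 11199 (by decide +kernel) ?_
    refine jn 11246 (by decide +kernel) ?_
    refine jn 11284 (by decide +kernel) ?_
    refine jn 11325 (by decide +kernel) ?_
    refine jn 11358 (by decide +kernel) ?_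
    refine jn 11394 (by decide +kernel) ?_
    refine jn 11434 (by decide +kernel) ?_
    refine jn 11469 (by decide +kernel) ?_
    refine jn 11494 (by decide +kernel) ?_
    refine jn 11520 (by decide +kernel) ?_
    refine jn 11549 (by decide +kernel) ?_
    refine jn 11578 (by decide +kernel) ?_
    refine jn 11602 (by decide +kernel) ?_
    refine jn 11632 (by decide +kernel) ?_
    refine jn 11650 (by decide +kernel) ?_
    refine jn 11752 (by decide +kernel) ?_
    refine jn 11960 (by decide +kernel) ?_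
    refine jn 12102 (by decide +kernel) ?_
    refine jn 12242 (by decide +kernel) ?_
    refine jn 12340 (by decide +kernel) ?_
    refine jn 12428 (by decide +kernel) ?_
    refine jn 12513 (by decide +kernel) ?_
    refine jn 12588 (by decide +kernel) ?_
    refine jn 12656 (by decide +kernel) ?_
    refine jn 12709 (by decide +kernel) ?_
    refine jn 12782 (by decide +kernel) ?_
    refine jn 12840 (by decide +kernel) ?_
    refine jn 12892 (by decide +kernel) ?_
    refine jn 12949 (by decide +kernel) ?_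
    refine jn 13000 (by decide +kernel) ?_
    refine jn 13048 (by decide +kernel) ?_
    refine jn 13096 (by decide +kernel) ?_
    refine jn 13142 (by decide +kernel) ?_
    refine jn 13190 (by decide +kernel) ?_
    refine jn 13245 (by decide +kernel) ?_
    refine jn 13289 (by decide +kernel) ?_
    refine jn 13337 (by decide +kernel) ?_
    refine jn 13384 (by decide +kernel) ?_
    refine jn 13421 (by decide +kernel) ?_
    refine jn 13462 (by decide +kernel) ?_
    refine jn 13498 (by decide +kernel) ?_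
    refine jn 13544 (by decide +kernel) ?_
    refine jn 13584 (by decide +kernel) ?_
    refine jn 13618 (by decide +kernel) ?_
    refine jn 13662 (by decide +kernel) ?_
    refine jn 13697 (by decide +kernel) ?_
    refine jn 13753 (by decide +kernel) ?_
    refine jn 14005 (by decide +kernel) ?_
    refine jn 14088 (by decide +kernel) ?_
    refine jn 14156 (by decide +kernel) ?_
    refine jn 14217 (by decide +kernel) ?_
    refine jn 14263 (by decide +kernel) ?_
    refine jn 14330 (by decide +kernel) ?_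
    refine jn 14397 (by decide +kernel) ?_
    refine jn 14453 (by decide +kernel) ?_
    refine jn 14501 (by decide +kernel) ?_
    refine jn 14563 (by decide +kernel) ?_
    refine jn 14609 (by decide +kernel) ?_
    refine jn 14661 (by decide +kernel) ?_
    refine jn 14707 (by decide +kernel) ?_
    refine jn 14751 (by decide +kernel) ?_
    refine jn 14793 (by decide +kernel) ?_
    refine jn 14835 (by decide +kernel) ?_
    refine jn 14881 (by decide +kernel) ?_
    refine jn 14907 (by decide +kernel) ?_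
    refine jn 14941 (by decide +kernel) ?_
    refine jn 14977 (by decide +kernel) ?_
    refine jn 15008 (by decide +kernel) ?_
    refine jn 15046 (by decide +kernel) ?_
    refine jn 15093 (by decide +kernel) ?_
    refine jn 15122 (by decide +kernel) ?_
    refine jn 15159 (by decide +kernel) ?_
    refine jn 15183 (by decide +kernel) ?_
    refine jn 15210 (by decide +kernel) ?_
    refine jn 15251 (by decide +kernel) ?_
    refine jn 15283 (by decide +kernel) ?_
    refine jn 15318 (by decide +kernel) ?_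
    refine jn 15348 (by decide +kernel) ?_
    refine jn 15367 (by decide +kernel) ?_
    refine jn 15403 (by decide +kernel) ?_
    refine jn 15433 (by decide +kernel) ?_
    refine jn 15461 (by decide +kernel) ?_
    refine jn 15489 (by decide +kernel) ?_
    refine jn 15519 (by decide +kernel) ?_
    refine jn 15541 (by decide +kernel) ?_
    refine jn 15571 (by decide +kernel) ?_
    refine jn 15591 (by decide +kernel) ?_
    refine jn 15610 (by decide +kernel) ?_
    refine jn 15636 (by decide +kernel) ?_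
    refine jn 15663 (by decide +kernel) ?_
    refine jn 15689 (by decide +kernel) ?_
    refine jn 15726 (by decide +kernel) ?_
    refine jn 15747 (by decide +kernel) ?_
    refine jn 15768 (by decide +kernel) ?_
    refine jn 16073 (by decide +kernel) ?_
    refine jn 16157 (by decide +kernel) ?_
    refine jn 16268 (by decide +kernel) ?_
    refine jn 16340 (by decide +kernel) ?_
    refine jn 16392 (by decide +kernel) ?_
    refine jn 16475 (by decide +kernel) ?_
    refine jn 16526 (by decide +kernel) ?_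
    refine jn 16596 (by decide +kernel) ?_
    refine jn 16646 (by decide +kernel) ?_
    refine jn 16704 (by decide +kernel) ?_
    refine jn 16762 (by decide +kernel) ?_
    refine jn 16813 (by decide +kernel) ?_
    refine jn 16864 (by decide +kernel) ?_
    refine jn 16906 (by decide +kernel) ?_
    refine jn 16950 (by decide +kernel) ?_
    refine jn 16994 (by decide +kernel) ?_
    refine jn 17041 (by decide +kernel) ?_
    refine jn 17080 (by decide +kernel) ?_
    refine jn 17136 (by decide +kernel) ?_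
    refine jn 17182 (by decide +kernel) ?_
    refine jn 17222 (by decide +kernel) ?_
    refine jn 17254 (by decide +kernel) ?_
    refine jn 17286 (by decide +kernel) ?_
    refine jn 17320 (by decide +kernel) ?_
    refine jn 17359 (by decide +kernel) ?_
    refine jn 17404 (by decide +kernel) ?_
    refine jn 17442 (by decide +kernel) ?_
    refine jn 17485 (by decide +kernel) ?_
    refine jn 17516 (by decide +kernel) ?_
    refine jn 17546 (by decide +kernel) ?_
    refine jn 17586 (by decide +kernel) ?_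
    refine jn 17624 (by decide +kernel) ?_
    refine jn 17651 (by decide +kernel) ?_
    refine jn 17688 (by decide +kernel) ?_
    refine jn 17722 (by decide +kernel) ?_
    refine jn 17764 (by decide +kernel) ?_
    refine jn 17800 (by decide +kernel) ?_
    refine jn 17828 (by decide +kernel) ?_
    refine jn 18223 (by decide +kernel) ?_
    refine jn 18314 (by decide +kernel) ?_
    refine jn 18421 (by decide +kernel) ?_
    refine jn 18533 (by decide +kernel) ?_
    refine jn 18594 (by decide +kernel) ?_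
    refine jn 18674 (by decide +kernel) ?_
    refine jn 18756 (by decide +kernel) ?_
    refine jn 18812 (by decide +kernel) ?_
    refine jn 18859 (by decide +kernel) ?_
    refine jn 18928 (by decide +kernel) ?_
    refine jn 18994 (by decide +kernel) ?_
    refine jn 19046 (by decide +kernel) ?_
    refine jn 19104 (by decide +kernel) ?_
    refine jn 19172 (by decide +kernel) ?_
    refine jn 19226 (by decide +kernel) ?_
    refine jn 19274 (by decide +kernel) ?_
    refine jn 19306 (by decide +kernel) ?_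
    refine jn 19354 (by decide +kernel) ?_
    refine jn 19406 (by decide +kernel) ?_
    refine jn 19634 (by decide +kernel) ?_
    refine jn 19945 (by decide +kernel) ?_
    refine jn 20015 (by decide +kernel) ?_
    refine jn 20168 (by decide +kernel) ?_
    refine jn 20275 (by decide +kernel) ?_
    refine jn 20358 (by decide +kernel) ?_
    refine jn 20434 (by decide +kernel) ?_
    refine jn 20506 (by decide +kernel) ?_
    refine jn 20591 (by decide +kernel) ?_
    refine jn 20653 (by decide +kernel) ?_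
    refine jn 20726 (by decide +kernel) ?_
    refine jn 20798 (by decide +kernel) ?_
    refine jn 20869 (by decide +kernel) ?_
    refine jn 20924 (by decide +kernel) ?_
    refine jn 21002 (by decide +kernel) ?_
    refine jn 21078 (by decide +kernel) ?_
    exact je (by decide +kernel)
  · refine fin 24 865 T23_2 ?_
    refine jn 2 (by decide +kernel) ?_
    refine jn 3 (by decide +kernel) ?_
    refine jn 4 (by decide +kernel) ?_
    refine jn 5 (by decide +kernel) ?_
    refine jn 6 (by decide +kernel) ?_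
    refine jn 7 (by decide +kernel) ?_
    refine jn 8 (by decide +kernel) ?_
    refine jn 9 (by decide +kernel) ?_
    refine jn 16 (by decide +kernel) ?_
    refine jn 17 (by decide +kernel) ?_
    refine jn 20 (by decide +kernel) ?_
    refine jn 21 (by decide +kernel) ?_
    refine jn 26 (by decide +kernel) ?_
    refine jn 27 (by decide +kernel) ?_
    refine jn 28 (by decide +kernel) ?_
    refine jn 35 (by decide +kernel) ?_
    refine jn 40 (by decide +kernel) ?_
    refine jn 43 (by decide +kernel) ?_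
    refine jn 49 (by decide +kernel) ?_
    refine jn 63 (by decide +kernel) ?_
    refine jn 80 (by decide +kernel) ?_
    refine jn 107 (by decide +kernel) ?_
    refine jn 144 (by decide +kernel) ?_
    refine jn 391 (by decide +kernel) ?_
    refine jn 697 (by decide +kernel) ?_
    exact je (by decide +kernel)

end Pool.Agent.MP_2339ce_nt.NR
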