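import Pool.Agent.MP_2339ce_nt.Q2.NC.L6
import Pool.Agent.MP_2339ce_nt.Q2.NC.L10
import Pool.Agent.MP_2339ce_nt.Q2.CkI

/-! Block NR: runs. -/

set_option autoImplicit false
set_option maxRecDepth 100000

noncomputable section

namespace Pool.Agent.MP_2339ce_nt.NR

open Q2.Top

def T24_0 : Ph :=
  (.na 472 190 (.na 248 154 (.na 114 140 (.na 50 132 (.na 33 129 (.na 16 126 (.nx 15 2642247 (.nr
  14 2097153 (.nr 1 125 .s1 (.nx 7 26681 (.nx 2 408 (.l1 (.ls 73 29 1334)) (.nr 6 1482912 (.lg 0
  false 4 89 89 19 0 55440) .out)) (.nr 13 65537 (.nr 11 1356 (.lg 0 true 4 71 71 19 0 18480) (.nx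
  12 416129 (.lg 2 false 1 79 79 16 65768 9240) .out)) .out))) .out) .out) (.na 17 128 (.lg 0 false
  1 0 0 16 0 24) (.nx 32 2642247 (.nr 31 2097153 (.nr 18 128 .s1 (.nx 26 26681 (.nx 20 231 (.nr 19
  1388 (.l1 (.ls 31 29 419)) (.l1 .sk)) (.nx 21 232 (.l1 .sk) (.lg 0 false 5 89 101 29 0 55440)))
  (.nr 30 65537 (.nr 28 1025 (.lg 0 true 2 73 73 23 0 3696) (.nx 29 416129 (.lg 2 true 1 83 83 19
  65768 3696) .out)) .out))) .out) .out))) (.na 34 130 .ne (.na 49 131 (.nx 48 1321124 (.nr 47
  2097153 (.nr 35 130 .s1 (.nx 38 232 (.nx 37 231 (.nr 36 1410 (.l1 (.ls 37 37 413)) (.l1 .sk))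
  (.l1 .sk)) (.nx 42 41287 (.nr 39 262145 (.lg 0 true 1 101 101 29 0 720720) (.nx 41 20644 (.lg 0
  false 2 101 101 31 0 720720) .out)) (.nr 46 16385 (.nr 44 1025 (.lg 0 true 2 73 73 31 0 240240)
  (.nx 45 165142 (.lg 2 true 1 71 71 29 18609 240240) .out)) .out)))) .out) .out) (.lg 0 false 1 0
  0 16 0 24)))) (.na 97 135 (.na 66 133 (.nx 65 1321124 (.nr 64 2097153 (.nr 51 132 .s1 (.nx 53 231
  (.nr 52 1431 (.l1 (.ls 29 37 407)) (.l1 .sk)) (.nx 54 232 (.l1 .sk) (.nx 59 26009 (.lg 0 false 5
  89 89 37 0 55440) (.nr 63 65537 (.nx 61 165142 (.lg 0 false 2 83 83 31 0 55440) (.nr 62 1025 (.lg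
  0 false 1 73 73 29 0 55440) .out)) .out))))) .out) .out) (.na 81 134 (.nx 80 1321124 (.nr 79
  2097153 (.nr 67 133 .s1 (.nx 77 165142 (.nx 74 26009 (.nx 69 231 (.nr 68 1442 (.l1 (.ls 17 29
  404)) (.l1 .sk)) (.nx 70 232 (.l1 .sk) (.lg 0 false 4 89 89 17 0 3696))) (.nr 76 65537 (.lg 0
  false 2 83 83 17 0 3696) .out)) (.nr 78 1025 (.lg 0 false 1 73 73 17 0 1848) .out))) .out) .out)
  (.nx 96 1321124 (.nr 95 2097153 (.nr 82 134 .s1 (.nx 93 165142 (.nx 84 231 (.nr 83 1453 (.l1 (.ls
  29 29 401)) (.l1 .sk)) (.nx 85 232 (.l1 .sk) (.nx 90 26009 (.lg 0 false 5 97 97 29 0 55440) (.nr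
  92 65537 (.lg 0 true 2 83 83 23 0 3696) .out)))) (.nr 94 1025 (.lg 0 false 1 73 73 19 0 3696)
  .out))) .out) .out))) (.na 98 137 (.lg 0 false 1 0 0 16 0 24) (.na 99 139 (.lg 0 false 1 0 0 16 0
  24) (.nx 113 1321124 (.nr 112 2097153 (.nr 100 139 .s1 (.nx 110 165142 (.nx 102 231 (.nr 101 1507
  (.l1 (.ls 23 19 386)) (.l1 .sk)) (.nx 103 232 (.l1 .sk) (.nx 107 26009 (.lg 0 false 4 83 83 17 0
  3696) (.nr 109 65537 (.lg 0 true 2 79 79 16 0 3696) .out)))) (.nr 111 1025 (.lg 0 false 1 73 73
  16 0 55440) .out))) .out) .out))))) (.na 189 147 (.na 159 144 (.na 129 141 (.nx 128 1321124 (.nr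
  127 2097153 (.nr 115 140 .s1 (.nx 117 231 (.nr 116 1517 (.l1 (.ls 37 37 384)) (.l1 .sk)) (.nx 118
  232 (.l1 .sk) (.nx 122 41287 (.nr 119 262145 (.lg 0 true 1 97 97 29 0 55440) (.nx 121 20644 (.lg
  0 false 2 97 97 31 0 18480) .out)) (.nr 126 16385 (.nr 124 1025 (.lg 0 true 2 73 73 31 0 18480)
  (.nx 125 165142 (.lg 2 true 1 71 71 29 18609 18480) .out)) .out))))) .out) .out) (.na 144 143
  (.nx 143 1321124 (.nr 142 2097153 (.nr 130 141 .s1 (.nx 140 165142 (.nx 132 231 (.nr 131 1539
  (.l1 (.ls 29 23 381)) (.l1 .sk)) (.nx 133 232 (.l1 .sk) (.nx 137 26009 (.lg 0 false 4 97 97 19 0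
  55440) (.nr 139 65537 (.lg 0 false 2 89 89 19 0 55440) .out)))) (.nr 141 1025 (.lg 0 false 1 73
  73 17 0 5544) .out))) .out) .out) (.nx 158 1321124 (.nr 157 2097153 (.nr 145 143 .s1 (.nx 148 232
  (.nx 147 231 (.nr 146 1550 (.l1 (.ls 29 29 376)) (.l1 .sk)) (.l1 .sk)) (.nx 155 165142 (.nx 152
  26009 (.lg 0 false 4 89 89 23 0 48048) (.nr 154 65537 (.lg 0 false 2 83 83 19 0 48048) .out))
  (.nr 156 1025 (.lg 0 false 1 71 71 19 0 24024) .out)))) .out) .out))) (.na 160 145 (.lg 0 false 1
  0 0 16 0 24) (.na 174 146 (.nx 173 1321124 (.nr 172 2097153 (.nr 161 145 .s1 (.nx 163 231 (.nr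
  162 1571 (.l1 (.ls 23 23 371)) (.l1 .sk)) (.nx 164 232 (.l1 .sk) (.nx 170 165142 (.nx 168 26009
  (.lg 0 false 4 97 101 23 0 55440) (.nr 169 65537 (.lg 0 false 1 97 97 17 0 9240) .out)) (.nr 171
  1025 (.lg 0 true 1 73 73 17 0 9240) .out))))) .out) .out) (.nx 188 1321124 (.nr 187 2097153 (.nr
  175 146 .s1 (.nx 178 232 (.nx 177 231 (.nr 176 1582 (.l1 (.ls 29 29 368)) (.l1 .sk)) (.l1 .sk))
  (.nx 185 165142 (.nx 183 26009 (.lg 0 false 5 97 97 29 0 55440) (.nr 184 65537 (.lg 0 false 1 89
  89 19 0 3696) .out)) (.nr 186 1025 (.lg 0 false 1 73 73 19 0 3696) .out)))) .out) .out)))) (.na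
  219 150 (.na 190 148 (.lg 0 false 1 0 0 16 0 24) (.na 205 149 (.nx 204 1321124 (.nr 203 2097153
  (.nr 191 148 .s1 (.nx 198 41287 (.nx 193 231 (.nr 192 1603 (.l1 (.ls 31 29 363)) (.l1 .sk)) (.nx
  194 232 (.l1 .sk) (.nr 195 262145 (.lg 0 true 1 101 101 23 0 55440) (.nx 197 20644 (.lg 0 false 2
  101 101 23 0 55440) .out)))) (.nr 202 16385 (.nr 200 1025 (.lg 0 true 2 73 73 23 0 3696) (.nx 201
  165142 (.lg 2 true 1 71 71 23 18609 3696) .out)) .out))) .out) .out) (.nx 218 1321124 (.nr 217
  2097153 (.nr 206 149 .s1 (.nx 213 26009 (.nx 208 231 (.nr 207 1614 (.l1 (.ls 23 19 361)) (.l1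
  .sk)) (.nx 209 232 (.l1 .sk) (.lg 0 false 4 83 83 17 0 3696))) (.nr 216 65537 (.nx 214 165142
  (.lg 0 false 1 83 83 16 0 1848) (.nr 215 1025 (.lg 0 false 1 67 67 16 0 1848) .out)) .out)))
  .out) .out))) (.na 233 151 (.nx 232 1321124 (.nr 231 2097153 (.nr 220 150 .s1 (.nx 223 232 (.nx
  222 231 (.nr 221 1625 (.l1 (.ls 29 37 358)) (.l1 .sk)) (.l1 .sk)) (.nx 226 26009 (.lg 0 false 3
  89 89 31 0 55440) (.nr 230 65537 (.nx 228 165142 (.lg 0 false 2 83 83 31 0 55440) (.nr 229 1025
  (.lg 0 false 1 73 73 29 0 55440) .out)) .out)))) .out) .out) (.na 234 152 (.lg 0 false 1 0 0 16 0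
  24) (.nx 247 1321124 (.nr 246 2097153 (.nr 235 152 .s1 (.nx 244 165142 (.nx 237 231 (.nr 236 1657
  (.l1 (.ls 41 31 354)) (.l1 .sk)) (.nx 238 232 (.l1 .sk) (.nx 242 41287 (.nr 239 262145 (.lg 0
  false 1 101 101 29 0 55440) (.nx 241 20644 (.lg 0 false 2 101 103 31 0 55440) .out)) (.nr 243
  16385 (.lg 0 true 1 83 89 29 0 3696) .out)))) (.nr 245 1025 (.lg 0 true 1 79 79 29 0 3696)
  .out))) .out) .out)))))) (.na 347 174 (.na 304 165 (.na 275 160 (.na 262 156 (.nx 261 1321124
  (.nr 260 2097153 (.nr 249 154 .s1 (.nx 251 231 (.nr 250 1679 (.l1 (.ls 19 37 349)) (.l1 .sk))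
  (.nx 252 232 (.l1 .sk) (.nx 257 41287 (.lg 0 false 5 83 83 31 0 18480) (.nr 259 16385 (.lg 0
  false 2 79 79 29 0 3696) .out))))) .out) .out) (.na 274 157 (.nx 273 1321124 (.nr 272 2097153
  (.nr 263 156 .s1 (.nx 270 165142 (.nx 268 26009 (.nx 265 231 (.nr 264 1690 (.l1 (.ls 37 37 345))
  (.l1 .sk)) (.nx 266 232 (.l1 .sk) (.lg 0 false 2 101 101 37 0 720720))) (.nr 269 65537 (.lg 0
  false 1 97 97 31 0 720720) .out)) (.nr 271 1025 (.lg 0 true 1 73 73 31 0 144144) .out))) .out)
  .out) (.lg 0 false 1 0 0 16 0 24))) (.na 289 162 (.nx 288 1321124 (.nr 287 2097153 (.nr 276 160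
  .s1 (.nx 283 41287 (.nx 281 20644 (.nx 278 231 (.nr 277 1743 (.l1 (.ls 41 31 336)) (.l1 .sk))
  (.nx 279 232 (.l1 .sk) (.lg 0 false 2 97 101 31 0 55440))) (.nr 282 262145 (.lg 0 false 1 89 97
  29 0 55440) .out)) (.nr 286 16385 (.nx 284 165142 (.lg 0 true 1 83 83 29 0 18480) (.nr 285 1025
  (.lg 0 true 1 73 73 29 0 18480) .out)) .out))) .out) .out) (.na 290 163 (.lg 0 false 1 0 0 16 0
  24) (.nx 303 1321124 (.nr 302 2097153 (.nr 291 163 .s1 (.nx 294 232 (.nx 293 231 (.nr 292 1776
  (.l1 (.ls 23 19 330)) (.l1 .sk)) (.l1 .sk)) (.nx 298 41287 (.lg 0 false 4 89 89 17 0 3696) (.nr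
  301 16385 (.nr 299 1025 (.lg 0 false 1 67 67 16 0 1848) (.nx 300 165142 (.lg 2 false 1 59 59 16
  18609 1848) .out)) .out)))) .out) .out)))) (.na 331 169 (.na 318 167 (.nx 317 1321124 (.nr 316
  2097153 (.nr 305 165 .s1 (.nx 312 41287 (.nx 307 231 (.nr 306 1797 (.l1 (.ls 29 31 326)) (.l1
  .sk)) (.nx 308 232 (.l1 .sk) (.lg 0 false 4 89 89 29 0 55440))) (.nr 315 16385 (.nr 313 1025 (.lg
  0 false 1 71 71 23 0 55440) (.nx 314 165142 (.lg 2 false 1 61 61 23 18609 55440) .out)) .out)))
  .out) .out) (.na 319 168 (.lg 0 false 1 0 0 16 0 24) (.nx 330 1321124 (.nr 329 2097153 (.nr 320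
  168 .s1 (.nx 323 232 (.nx 322 231 (.nr 321 1819 (.l1 (.ls 37 37 320)) (.l1 .sk)) (.l1 .sk)) (.nx
  325 26009 (.lg 0 false 2 97 97 37 0 11088) (.nr 328 65537 (.nx 326 165142 (.lg 0 false 1 89 89 31
  0 11088) (.nr 327 1025 (.lg 0 true 1 71 71 31 0 11088) .out)) .out)))) .out) .out))) (.na 345 171
  (.nx 344 1321124 (.nr 343 2097153 (.nr 332 169 .s1 (.nx 339 41287 (.nx 334 231 (.nr 333 1840 (.l1
  (.ls 29 23 318)) (.l1 .sk)) (.nx 335 232 (.l1 .sk) (.lg 0 false 4 89 89 19 0 48048))) (.nr 342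
  16385 (.nr 340 1025 (.lg 0 false 1 73 73 17 0 720720) (.nx 341 165142 (.lg 2 false 1 61 61 17
  18609 24024) .out)) .out))) .out) .out) (.na 346 173 (.lg 0 false 1 0 0 16 0 24) (.lg 0 false 1 0
  0 16 0 24))))) (.na 418 180 (.na 388 177 (.na 362 175 (.nx 361 1321124 (.nr 360 2097153 (.nr 348
  174 .s1 (.nx 356 41287 (.nx 350 231 (.nr 349 1883 (.l1 (.ls 23 37 309)) (.l1 .sk)) (.nx 351 232
  (.l1 .sk) (.lg 0 false 5 97 97 37 0 55440))) (.nr 359 16385 (.nr 357 1025 (.lg 0 false 1 73 73 23
  0 55440) (.nx 358 165142 (.lg 2 false 1 67 67 23 18609 55440) .out)) .out))) .out) .out) (.na 376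
  176 (.nx 375 1321124 (.nr 374 2097153 (.nr 363 175 .s1 (.nx 370 41287 (.nx 365 231 (.nr 364 1894
  (.l1 (.ls 23 23 307)) (.l1 .sk)) (.nx 366 232 (.l1 .sk) (.lg 0 false 4 89 89 23 0 18480))) (.nr
  373 16385 (.nr 371 1025 (.lg 0 false 1 67 67 19 0 9240) (.nx 372 165142 (.lg 2 false 1 59 59 19
  18609 9240) .out)) .out))) .out) .out) (.nx 387 1321124 (.nr 386 2097153 (.nr 377 176 .s1 (.nx
  379 231 (.nr 378 1905 (.l1 (.ls 31 31 306)) (.l1 .sk)) (.nx 380 232 (.l1 .sk) (.nx 382 26009 (.lg
  0 false 2 97 97 31 0 55440) (.nr 385 65537 (.nx 383 165142 (.lg 0 false 1 89 89 29 0 55440) (.nr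
  384 1025 (.lg 0 true 1 67 67 29 0 3696) .out)) .out))))) .out) .out))) (.na 402 178 (.nx 401
  1321124 (.nr 400 2097153 (.nr 389 177 .s1 (.nx 392 232 (.nx 391 231 (.nr 390 1915 (.l1 (.ls 23 23
  304)) (.l1 .sk)) (.l1 .sk)) (.nx 396 41287 (.lg 0 false 4 97 97 23 0 55440) (.nr 399 16385 (.nr
  397 1025 (.lg 0 false 1 71 71 17 0 5544) (.nx 398 165142 (.lg 2 false 1 61 61 17 18609 5544)
  .out)) .out)))) .out) .out) (.na 417 179 (.nx 416 1321124 (.nr 415 2097153 (.nr 403 178 .s1 (.nx
  406 232 (.nx 405 231 (.nr 404 1926 (.l1 (.ls 23 29 302)) (.l1 .sk)) (.l1 .sk)) (.nx 411 41287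
  (.lg 0 false 5 83 97 29 0 55440) (.nr 414 16385 (.nr 412 1025 (.lg 0 false 1 67 67 19 0 3696)
  (.nx 413 165142 (.lg 2 false 1 59 59 19 18609 3696) .out)) .out)))) .out) .out) (.lg 0 false 1 0
  0 16 0 24)))) (.na 433 183 (.na 419 181 (.lg 0 false 1 0 0 16 0 24) (.na 420 182 (.lg 0 false 1 0
  0 16 0 24) (.nx 432 1321124 (.nr 431 1482912 (.nr 421 182 .s1 (.nx 427 41287 (.nx 423 231 (.nr
  422 1969 (.l1 (.ls 29 37 296)) (.l1 .sk)) (.nx 424 232 (.l1 .sk) (.lg 0 false 3 89 89 31 0
  144144))) (.nr 430 16385 (.nr 428 1025 (.lg 0 false 1 71 71 29 0 48048) (.nx 429 165142 (.lg 2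
  false 1 61 61 29 18609 48048) .out)) .out))) .out) .out))) (.na 459 188 (.na 447 185 (.nx 446
  1321124 (.nr 445 1482912 (.nr 434 183 .s1 (.nx 441 41287 (.nx 436 231 (.nr 435 1991 (.l1 (.ls 29
  23 294)) (.l1 .sk)) (.nx 437 232 (.l1 .sk) (.lg 0 false 4 89 89 23 0 11088))) (.nr 444 16385 (.nr
  442 1025 (.lg 0 false 1 71 71 17 0 5544) (.nx 443 165142 (.lg 2 false 1 61 61 17 18609 5544)
  .out)) .out))) .out) .out) (.nx 458 1321124 (.nr 457 1482912 (.nr 448 185 .s1 (.nx 455 165142
  (.nx 450 231 (.nr 449 2023 (.l1 (.ls 31 19 291)) (.l1 .sk)) (.nx 451 232 (.l1 .sk) (.nx 453 26009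
  (.lg 0 false 2 101 101 19 0 55440) (.nr 454 65537 (.lg 0 false 1 89 89 19 0 9240) .out)))) (.nr
  456 1025 (.lg 0 true 1 71 71 19 0 9240) .out))) .out) .out)) (.na 471 189 (.nx 470 1321124 (.nr
  469 1482912 (.nr 460 188 .s1 (.nx 463 232 (.nx 462 231 (.nr 461 2034 (.l1 (.ls 31 29 286)) (.l1
  .sk)) (.l1 .sk)) (.nx 467 165142 (.nx 465 26009 (.lg 0 false 2 97 97 29 0 3696) (.nr 466 65537
  (.lg 0 false 1 89 89 23 0 3696) .out)) (.nr 468 1025 (.lg 0 true 1 71 71 23 0 3696) .out))))
  .out) .out) (.lg 0 false 1 0 0 16 0 24))))))) (.na 672 227 (.na 566 208 (.na 511 197 (.na 497 193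
  (.na 484 191 (.nx 483 1321124 (.nr 482 1482912 (.nr 473 190 .s1 (.nx 476 232 (.nx 475 231 (.nr
  474 2055 (.l1 (.ls 17 37 283)) (.l1 .sk)) (.l1 .sk)) (.nx 478 26009 (.lg 0 false 2 97 97 37 0
  18480) (.nr 481 65537 (.nx 479 165142 (.lg 0 false 1 89 89 31 0 18480) (.nr 480 1025 (.lg 0 true
  1 71 71 31 0 18480) .out)) .out)))) .out) .out) (.na 485 192 (.lg 0 false 1 0 0 16 0 24) (.nx 496
  1321124 (.nr 495 1482912 (.nr 486 192 .s1 (.nx 493 165142 (.nx 491 26009 (.nx 488 231 (.nr 487
  2077 (.l1 (.ls 37 31 280)) (.l1 .sk)) (.nx 489 232 (.l1 .sk) (.lg 0 false 2 97 97 31 0 55440)))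
  (.nr 492 65537 (.lg 0 false 1 89 89 29 0 55440) .out)) (.nr 494 1025 (.lg 0 true 1 71 71 29 0
  11088) .out))) .out) .out))) (.na 498 195 (.lg 0 false 1 0 0 16 0 24) (.na 510 196 (.nx 509
  1321124 (.nr 508 1482912 (.nr 499 195 .s1 (.nx 502 232 (.nx 501 231 (.nr 500 2109 (.l1 (.ls 37 31
  276)) (.l1 .sk)) (.l1 .sk)) (.nx 506 165142 (.nx 504 26009 (.lg 0 false 2 97 97 31 0 720720) (.nr
  505 65537 (.lg 0 false 1 89 89 29 0 360360) .out)) (.nr 507 1025 (.lg 0 true 1 71 71 29 0 360360)
  .out)))) .out) .out) (.lg 0 false 1 0 0 16 0 24)))) (.na 527 200 (.na 525 198 (.nx 524 1321124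
  (.nr 523 1482912 (.nr 512 197 .s1 (.nx 514 231 (.nr 513 2131 (.l1 (.ls 23 19 273)) (.l1 .sk))
  (.nx 515 232 (.l1 .sk) (.nx 519 41287 (.lg 0 false 4 83 83 19 0 3696) (.nr 522 16385 (.nr 520
  1025 (.lg 0 false 1 67 67 16 0 1848) (.nx 521 165142 (.lg 2 false 1 59 59 16 18609 1848) .out))
  .out))))) .out) .out) (.na 526 199 (.lg 0 false 1 0 0 16 0 24) (.lg 0 false 1 0 0 16 0 24))) (.na
  538 201 (.nx 537 1321124 (.nr 536 1482912 (.nr 528 200 .s1 (.nx 531 232 (.nx 530 231 (.nr 529
  2163 (.l1 (.ls 41 29 269)) (.l1 .sk)) (.l1 .sk)) (.nr 534 65537 (.nx 532 165142 (.lg 0 true 1 89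
  97 31 0 55440) (.nr 533 1025 (.lg 0 true 1 73 73 31 0 18480) .out)) (.nx 535 26009 (.lg 0 false 1
  101 101 31 0 55440) .out)))) .out) .out) (.na 552 203 (.nx 551 1321124 (.nr 550 1482912 (.nr 539
  201 .s1 (.nx 541 231 (.nr 540 2184 (.l1 (.ls 29 23 268)) (.l1 .sk)) (.nx 542 232 (.l1 .sk) (.nx
  546 41287 (.lg 0 false 4 89 89 23 0 11088) (.nr 549 16385 (.nr 547 1025 (.lg 0 false 1 71 71 19 0
  5544) (.nx 548 165142 (.lg 2 false 1 59 59 19 18609 5544) .out)) .out))))) .out) .out) (.nx 565
  1321124 (.nr 564 1482912 (.nr 553 203 .s1 (.nx 556 232 (.nx 555 231 (.nr 554 2238 (.l1 (.ls 23 19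
  265)) (.l1 .sk)) (.l1 .sk)) (.nx 560 41287 (.lg 0 false 4 89 89 23 0 3696) (.nr 563 16385 (.nr
  561 1025 (.lg 0 false 1 71 71 17 0 1848) (.nx 562 165142 (.lg 2 false 1 59 59 17 18609 1848)
  .out)) .out)))) .out) .out))))) (.na 619 219 (.na 604 211 (.na 577 209 (.nx 576 1321124 (.nr 575
  1482912 (.nr 567 208 .s1 (.nx 573 165142 (.nx 569 231 (.nr 568 2249 (.l1 (.ls 41 31 259)) (.l1
  .sk)) (.nx 570 232 (.l1 .sk) (.nr 571 65537 (.lg 0 true 1 97 101 31 0 720720) (.nx 572 26009 (.lg
  0 false 1 101 101 31 0 720720) .out)))) (.nr 574 1025 (.lg 0 true 1 73 73 31 0 48048) .out)))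
  .out) .out) (.na 591 210 (.nx 590 1321124 (.nr 589 1482912 (.nr 578 209 .s1 (.nx 581 232 (.nx 580
  231 (.nr 579 2260 (.l1 (.ls 17 23 258)) (.l1 .sk)) (.l1 .sk)) (.nx 585 41287 (.lg 0 false 4 89 89
  29 0 3696) (.nr 588 16385 (.nr 586 1025 (.lg 0 false 1 67 67 17 0 1848) (.nx 587 165142 (.lg 2
  false 1 59 59 17 18609 1848) .out)) .out)))) .out) .out) (.nx 603 1321124 (.nr 602 1482912 (.nr
  592 210 .s1 (.nx 595 232 (.nx 594 231 (.nr 593 2271 (.l1 (.ls 29 41 257)) (.l1 .sk)) (.l1 .sk))
  (.nx 598 41287 (.lg 0 false 3 89 89 37 0 55440) (.nr 601 16385 (.nr 599 1025 (.lg 0 false 1 71 71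
  31 0 55440) (.nx 600 165142 (.lg 2 true 1 59 59 31 18609 55440) .out)) .out)))) .out) .out)))
  (.na 605 214 (.lg 0 false 1 0 0 16 0 24) (.na 618 216 (.nx 617 1321124 (.nr 616 1482912 (.nr 606
  214 .s1 (.nx 612 41287 (.nx 608 231 (.nr 607 2324 (.l1 (.ls 29 29 252)) (.l1 .sk)) (.nx 609 232
  (.l1 .sk) (.lg 0 false 3 89 89 29 0 55440))) (.nr 615 16385 (.nr 613 1025 (.lg 0 false 1 67 67 23
  0 3696) (.nx 614 165142 (.lg 2 false 1 59 59 23 18609 3696) .out)) .out))) .out) .out) (.lg 0
  false 1 0 0 16 0 24)))) (.na 658 223 (.na 633 220 (.nx 632 1321124 (.nr 631 1482912 (.nr 620 219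
  .s1 (.nx 627 41287 (.nx 622 231 (.nr 621 2367 (.l1 (.ls 23 23 246)) (.l1 .sk)) (.nx 623 232 (.l1
  .sk) (.lg 0 false 4 89 89 23 0 55440))) (.nr 630 16385 (.nr 628 1025 (.lg 0 false 1 67 67 19 0
  55440) (.nx 629 165142 (.lg 2 true 1 59 59 19 18609 55440) .out)) .out))) .out) .out) (.na 645
  222 (.nx 644 1321124 (.nr 643 1482912 (.nr 634 220 .s1 (.nx 641 165142 (.nx 639 26009 (.nx 636
  231 (.nr 635 2389 (.l1 (.ls 31 31 245)) (.l1 .sk)) (.nx 637 232 (.l1 .sk) (.lg 0 false 2 89 89 37
  0 18480))) (.nr 640 65537 (.lg 0 false 1 83 83 31 0 18480) .out)) (.nr 642 1025 (.lg 0 true 1 67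
  67 31 0 18480) .out))) .out) .out) (.nx 657 1321124 (.nr 656 1482912 (.nr 646 222 .s1 (.nx 652
  41287 (.nx 648 231 (.nr 647 2400 (.l1 (.ls 29 31 243)) (.l1 .sk)) (.nx 649 232 (.l1 .sk) (.lg 0
  false 3 89 89 31 0 11088))) (.nr 655 16385 (.nr 653 1025 (.lg 0 false 1 71 71 29 0 11088) (.nx
  654 165142 (.lg 2 true 1 61 61 29 18609 11088) .out)) .out))) .out) .out))) (.na 659 224 (.lg 0
  false 1 0 0 16 0 24) (.na 671 225 (.nx 670 1321124 (.nr 669 1482912 (.nr 660 224 .s1 (.nx 663 232
  (.nx 662 231 (.nr 661 2421 (.l1 (.ls 31 29 241)) (.l1 .sk)) (.l1 .sk)) (.nx 665 26009 (.lg 0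
  false 2 89 89 31 0 3696) (.nr 668 65537 (.nx 666 165142 (.lg 0 true 1 83 83 29 0 3696) (.nr 667
  1025 (.lg 0 true 1 67 67 29 0 3696) .out)) .out)))) .out) .out) (.lg 0 false 1 0 0 16 0 24))))))
  (.na 784 242 (.na 724 234 (.na 686 231 (.na 673 228 (.lg 0 false 1 0 0 16 0 24) (.na 685 229 (.nx
  684 1321124 (.nr 683 1482912 (.nr 674 228 .s1 (.nx 679 26009 (.nx 676 231 (.nr 675 2464 (.l1 (.ls
  17 37 237)) (.l1 .sk)) (.nx 677 232 (.l1 .sk) (.lg 0 false 2 97 97 37 0 11088))) (.nr 682 65537
  (.nx 680 165142 (.lg 0 false 1 89 89 37 0 11088) (.nr 681 1025 (.lg 0 true 1 71 71 37 0 11088)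
  .out)) .out))) .out) .out) (.lg 0 false 1 0 0 16 0 24))) (.na 699 232 (.nx 698 1321124 (.nr 697
  1482912 (.nr 687 231 .s1 (.nx 694 41287 (.nx 689 231 (.nr 688 2496 (.l1 (.ls 19 29 233)) (.l1
  .sk)) (.nx 690 232 (.l1 .sk) (.lg 0 true 4 79 79 29 0 55440))) (.nr 696 16385 (.lg 0 false 2 79
  79 29 0 55440) .out))) .out) .out) (.na 710 233 (.nx 709 1321124 (.nr 708 1482912 (.nr 700 232
  .s1 (.nx 703 232 (.nx 702 231 (.nr 701 2507 (.l1 (.ls 23 23 233)) (.l1 .sk)) (.l1 .sk)) (.nx 706
  165142 (.nr 704 65537 (.lg 0 true 1 97 101 23 0 55440) (.nx 705 26009 (.lg 0 false 1 101 103 23 0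
  55440) .out)) (.nr 707 1025 (.lg 0 true 1 73 73 23 0 3696) .out)))) .out) .out) (.nx 723 1321124
  (.nr 722 1482912 (.nr 711 233 .s1 (.nx 714 232 (.nx 713 231 (.nr 712 2518 (.l1 (.ls 23 17 232))
  (.l1 .sk)) (.l1 .sk)) (.nx 718 41287 (.lg 0 false 4 83 83 19 0 3696) (.nr 721 16385 (.nr 719 1025
  (.lg 0 false 1 61 61 17 0 1848) (.nx 720 165142 (.lg 2 false 1 53 53 17 18609 1848) .out))
  .out)))) .out) .out)))) (.na 749 239 (.na 725 235 (.lg 0 false 1 0 0 16 0 24) (.na 737 236 (.nx
  736 1321124 (.nr 735 1482912 (.nr 726 235 .s1 (.nx 729 232 (.nx 728 231 (.nr 727 2540 (.l1 (.ls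
  31 19 230)) (.l1 .sk)) (.l1 .sk)) (.nx 731 26009 (.lg 0 false 2 97 97 23 0 18480) (.nr 734 65537
  (.nx 732 165142 (.lg 0 false 1 89 89 19 0 9240) (.nr 733 1025 (.lg 0 true 1 67 67 19 0 9240)
  .out)) .out)))) .out) .out) (.nx 748 1321124 (.nr 747 1482912 (.nr 738 236 .s1 (.nx 745 165142
  (.nx 743 26009 (.nx 740 231 (.nr 739 2572 (.l1 (.ls 31 29 229)) (.l1 .sk)) (.nx 741 232 (.l1 .sk)
  (.lg 0 false 2 97 97 29 0 55440))) (.nr 744 65537 (.lg 0 false 1 89 89 23 0 55440) .out)) (.nr
  746 1025 (.lg 0 true 1 67 67 23 0 3696) .out))) .out) .out))) (.na 761 240 (.nx 760 1321124 (.nr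
  759 1482912 (.nr 750 239 .s1 (.nx 752 231 (.nr 751 2583 (.l1 (.ls 23 17 226)) (.l1 .sk)) (.nx 753
  232 (.l1 .sk) (.nx 757 41287 (.lg 0 false 4 83 83 19 0 55440) (.nr 758 16385 (.lg 0 false 1 83 83
  17 0 1848) .out))))) .out) .out) (.na 772 241 (.nx 771 1321124 (.nr 770 1482912 (.nr 762 240 .s1
  (.nx 765 232 (.nx 764 231 (.nr 763 2593 (.l1 (.ls 41 37 225)) (.l1 .sk)) (.l1 .sk)) (.nr 768
  65537 (.nx 766 165142 (.lg 0 true 1 89 97 37 0 55440) (.nr 767 1025 (.lg 0 true 1 73 73 37 0
  55440) .out)) (.nx 769 26009 (.lg 0 false 1 101 101 37 0 55440) .out)))) .out) .out) (.nx 783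
  1321124 (.nr 782 1482912 (.nr 773 241 .s1 (.nx 780 41287 (.nx 775 231 (.nr 774 2604 (.l1 (.ls 23
  17 224)) (.l1 .sk)) (.nx 776 232 (.l1 .sk) (.lg 0 false 4 83 83 19 0 55440))) (.nr 781 16385 (.lg
  0 false 1 83 83 17 0 1848) .out))) .out) .out))))) (.na 821 251 (.na 798 245 (.na 785 243 (.lg 0
  false 1 0 0 16 0 24) (.na 786 244 (.lg 0 false 1 0 0 16 0 24) (.nx 797 1321124 (.nr 796 1482912
  (.nr 787 244 .s1 (.nx 794 165142 (.nx 789 231 (.nr 788 2636 (.l1 (.ls 31 29 221)) (.l1 .sk)) (.nx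
  790 232 (.l1 .sk) (.nx 792 26009 (.lg 0 false 2 97 97 29 0 55440) (.nr 793 65537 (.lg 0 false 1
  89 89 23 0 3696) .out)))) (.nr 795 1025 (.lg 0 true 1 71 71 23 0 3696) .out))) .out) .out))) (.na
  799 247 (.lg 0 false 1 0 0 16 0 24) (.na 811 250 (.nx 810 1321124 (.nr 809 1482912 (.nr 800 247
  .s1 (.nx 802 231 (.nr 801 2690 (.l1 (.ls 17 23 219)) (.l1 .sk)) (.nx 803 232 (.l1 .sk) (.nr 806
  65537 (.nx 804 165142 (.lg 0 false 1 89 89 17 0 24024) (.nr 805 1025 (.lg 0 true 1 67 67 17 0
  24024) .out)) (.nx 808 26009 (.lg 0 false 2 97 97 29 0 48048) .out))))) .out) .out) (.nx 820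
  1321124 (.nr 819 1482912 (.nr 812 250 .s1 (.nx 817 41287 (.nx 814 231 (.nr 813 2701 (.l1 (.ls 29
  29 216)) (.l1 .sk)) (.nx 815 232 (.l1 .sk) (.lg 0 true 2 89 89 29 0 55440))) (.nr 818 16385 (.lg
  0 false 1 83 83 29 0 18480) .out))) .out) .out)))) (.na 848 257 (.na 835 252 (.nx 834 1321124
  (.nr 833 1482912 (.nr 822 251 .s1 (.nx 829 41287 (.nx 824 231 (.nr 823 2712 (.l1 (.ls 23 17 215))
  (.l1 .sk)) (.nx 825 232 (.l1 .sk) (.lg 0 false 4 83 83 19 0 55440))) (.nr 832 16385 (.nr 830 1025
  (.lg 0 false 1 61 61 17 0 1848) (.nx 831 165142 (.lg 2 false 1 53 53 17 18609 1848) .out))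
  .out))) .out) .out) (.na 836 256 (.lg 0 false 1 0 0 16 0 24) (.nx 847 1321124 (.nr 846 1482912
  (.nr 837 256 .s1 (.nx 839 231 (.nr 838 2765 (.l1 (.ls 31 29 211)) (.l1 .sk)) (.nx 840 232 (.l1
  .sk) (.nx 842 26009 (.lg 0 false 2 89 89 29 0 55440) (.nr 845 65537 (.nx 843 165142 (.lg 0 false
  1 83 83 29 0 55440) (.nr 844 2049 (.lg 0 true 1 71 71 29 0 3696) .out)) .out))))) .out) .out)))
  (.na 1882 512 (.na 1279 363 (.nx 1278 1321124 (.nr 1277 1482912 (.nr 849 257 .s1 (.nx 957 232
  (.nx 956 231 (.nr 955 3906 (.la (.ls 41 19 210)) (.l1 .sk)) (.l1 .sk)) (.nx 1063 26009 (.la (.lg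
  0 false 2 83 83 23 0)) (.nr 1276 32769 (.nx 1169 165142 (.la (.lg 0 true 1 73 73 23 0)) (.nr 1275
  2049 (.la (.lg 0 true 1 67 67 23 0)) .out)) .out)))) .out) .out) (.nx 1881 1321124 (.nr 1880
  1482912 (.nr 1280 363 .s1 (.nx 1730 165142 (.nx 1430 231 (.nr 1429 5509 (.la (.ls 43 19 149))
  (.l1 .sk)) (.nx 1431 232 (.l1 .sk) (.nx 1580 26009 (.la (.lg 0 false 1 79 79 23 0)) (.nr 1729
  32769 (.la (.lg 0 true 1 71 71 23 0)) .out)))) (.nr 1879 2049 (.la (.lg 0 true 1 61 61 23 0))
  .out))) .out) .out)) (.na 2527 725 (.nx 2526 1321124 (.nr 2525 1482912 (.nr 1883 512 .s1 (.nx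
  2098 232 (.nx 2097 231 (.nr 2096 7801 (.la (.ls 43 23 182)) (.l1 .sk)) (.l1 .sk)) (.nx 2311 26009
  (.la (.lg 0 false 1 79 79 29 0)) (.nr 2524 32769 (.la (.lg 0 true 1 79 79 29 0)) .out)))) .out)
  .out) (.nx 3128 20644 (.nr 3127 2097153 (.nr 2528 725 .s1 (.nx 2827 2049 (.la (.ls 73 41 5793))
  (.nr 3126 262145 (.la (.lg 0 false 1 61 61 29 0)) .out))) .out) .out))))))))

def T24_1 : Ph :=
  (.na 844 10 (.na 550 5 (.na 293 3 (.na 168 2 (.nx 167 1321124 (.nr 166 311745 (.nx 139 660563
  (.nx 125 330282 (.nx 3 97 (.nx 2 96 (.nr 1 10 (.lg 0 true 1 41 41 5 0 48) (.l1 .sk)) (.l1 .sk))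
  (.nx 43 8848 (.nr 29 46342 (.lg 0 false 26 101 103 11 0 720720) (.nx 42 205 (.lg 0 false 13 83 83
  9 0 624) .out)) (.nr 124 38969 (.nr 69 432 (.lg 0 true 26 83 89 11 0 624) (.nx 82 16385 (.lg 1
  false 13 103 103 9 20347 720720) (.nr 123 27556 (.nr 109 19485 (.nr 95 1724 (.lg 2 true 13 97 97
  9 36698 65520) (.nx 108 165142 (.lg 2 false 13 101 103 9 5507 720720) .out)) (.nx 122 65537 (.lg
  2 false 13 101 103 9 7777 720720) .out)) .out))) .out))) (.nr 138 109 (.lg 0 true 13 83 83 9 0
  624) .out)) (.nr 165 13 (.lg 0 true 26 73 73 9 0 624) .out)) .out) .out) (.nx 292 3329023 (.nr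
  291 623489 (.nx 272 1321124 (.nx 171 97 (.nx 170 96 (.nr 169 19 (.lg 0 true 1 31 31 5 0 48) (.l1
  .sk)) (.l1 .sk)) (.nr 258 77937 (.nr 252 65537 (.nx 184 9555 (.lg 0 false 13 97 97 9 0 9360) (.nr
  219 257 (.lg 0 true 35 79 83 13 0 1680) (.nx 251 165142 (.nx 230 20644 (.lg 1 false 11 97 101 9
  31654 7920) (.nr 250 46342 (.nr 237 1100 (.lg 2 true 7 79 79 9 30844 336) (.lg 2 false 13 101 103
  9 10366 720720)) .out)) .out))) (.nx 257 1292 (.lg 0 false 5 79 79 9 0 240) .out)) (.nx 271 205
  (.lg 0 false 13 73 73 9 0 624) .out))) (.nr 290 9 (.lg 0 true 18 67 67 9 0 144) .out)) .out)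
  .out)) (.na 418 4 (.nx 417 6658044 (.nr 416 881745 (.nx 296 97 (.nx 295 96 (.nr 294 27 (.lg 0
  true 1 31 31 5 0 144) (.l1 .sk)) (.l1 .sk)) (.nr 402 110219 (.nx 315 13003 (.nr 309 55110 (.lg 0
  false 13 101 101 13 0 720720) (.nx 314 1292 (.lg 0 false 5 83 83 7 0 720) .out)) (.nr 401 65537
  (.nr 368 364 (.nx 328 832257 (.lg 0 true 13 83 83 13 0 1872) (.nr 367 33 (.lg 0 true 39 79 79 7 0
  1872) .out)) (.nx 400 208065 (.nx 381 41287 (.lg 1 true 13 101 103 13 23260 720720) (.nr 399
  55110 (.nr 386 1557 (.lg 2 true 5 79 79 7 27438 720) (.lg 2 false 13 97 101 13 6415 720720))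
  .out)) .out)) .out)) (.nx 415 205 (.lg 0 false 13 79 79 13 0 1872) .out))) .out) .out) (.nx 549
  10568985 (.nr 548 1246976 (.nx 421 97 (.nx 420 96 (.nr 419 34 (.lg 0 true 1 31 31 9 0 5040) (.l1
  .sk)) (.l1 .sk)) (.nr 534 155873 (.nx 496 1321124 (.nx 482 330282 (.nx 440 10321 (.nr 434 55110
  (.lg 0 false 13 89 97 13 0 65520) (.nx 439 1292 (.lg 0 false 5 89 89 11 0 5040) .out)) (.nr 481
  65537 (.nr 453 694 (.lg 0 true 13 79 83 13 0 624) (.nr 455 1352 (.lg 2 false 2 83 83 9 22844
  5040) (.nx 468 20642 (.lg 1 false 13 89 101 13 29305 65520) (.lg 2 false 13 101 103 13 14652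
  720720)))) .out)) (.nr 495 183 (.lg 0 true 13 79 79 13 0 624) .out)) (.nr 533 21 (.nx 507 2642247
  (.lg 0 true 11 71 71 11 0 528) (.lg 0 true 26 79 79 11 0 624)) .out)) (.nx 547 205 (.lg 0 false
  13 79 79 13 0 624) .out))) .out) .out))) (.na 696 7 (.na 643 6 (.nx 642 10568985 (.nr 641 1482912
  (.nx 553 97 (.nx 552 96 (.nr 551 41 (.lg 0 true 1 29 29 9 0 720) (.l1 .sk)) (.l1 .sk)) (.nr 627
  65537 (.nx 566 15464 (.lg 0 false 13 89 97 16 0 9360) (.nx 586 262145 (.nr 573 824 (.lg 0 true 7
  79 79 16 0 1680) (.lg 2 false 13 97 103 16 19559 720720)) (.nr 626 217 (.nx 599 1321124 (.lg 0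
  true 13 79 79 16 0 3120) (.nr 625 24 (.lg 0 true 26 73 73 16 0 3120) .out)) .out))) (.nx 640 205
  (.lg 0 false 13 73 79 16 0 3120) .out))) .out) .out) (.nx 695 1321124 (.nr 694 220437 (.nx 646 97
  (.nx 645 96 (.nr 644 48 (.lg 0 true 1 29 29 7 0 5040) (.l1 .sk)) (.l1 .sk)) (.nr 686 55110 (.nx
  657 11394 (.lg 0 false 11 89 89 13 0 55440) (.nr 670 501 (.lg 0 true 13 79 79 13 0 1872) (.nx 685
  416129 (.nr 672 977 (.lg 2 false 2 71 71 7 39869 144) (.lg 2 false 13 89 97 13 22328 65520))
  .out))) (.nx 693 1292 (.lg 0 false 7 79 79 13 0 1008) .out))) .out) .out)) (.na 767 8 (.nx 766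
  10568985 (.nr 765 262145 (.nx 699 97 (.nx 698 96 (.nr 697 55 (.lg 0 false 1 29 29 9 0 5040) (.l1
  .sk)) (.l1 .sk)) (.nx 738 1321124 (.nx 710 10321 (.nr 704 55110 (.lg 0 false 5 89 89 16 0 5040)
  (.nx 709 408 (.lg 0 false 5 73 73 16 0 1680) .out)) (.nr 737 65537 (.nr 723 596 (.lg 0 true 13 83
  83 16 0 4368) (.nx 736 262145 (.lg 2 false 13 97 103 16 29305 720720) .out)) .out)) (.nr 764 47
  (.lg 0 true 26 79 79 16 0 4368) .out))) .out) .out) (.na 843 9 (.nx 842 10568985 (.nr 841 623489
  (.nx 814 1321124 (.nx 769 96 (.nr 768 62 (.lg 0 true 1 23 23 9 0 48) (.l1 .sk)) (.nx 770 97 (.l1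
  .sk) (.nx 791 19712 (.nr 783 77937 (.lg 0 false 13 97 101 13 0 720720) (.nx 790 814 (.lg 0 false
  7 79 83 13 0 336) .out)) (.nr 813 65537 (.nr 804 364 (.lg 0 true 13 73 79 13 0 624) (.nx 812
  208065 (.nr 805 692 (.lg 2 false 1 71 71 9 27438 48) (.lg 2 false 7 97 101 13 15344 55440))
  .out)) .out)))) (.nr 840 55 (.lg 0 true 26 79 79 13 0 624) .out)) .out) .out) (.lg 0 false 1 0 0
  7 0 24))))) (.na 1027 15 (.na 950 12 (.na 903 11 (.nx 902 1321124 (.nr 901 623489 (.nr 845 3 .s1
  (.nx 848 97 (.nx 847 96 (.nr 846 76 (.lg 0 true 1 29 29 11 0 5040) (.l1 .sk)) (.l1 .sk)) (.nr 893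
  77937 (.nx 885 330282 (.nx 855 6503 (.lg 0 false 7 79 83 13 0 1680) (.nr 884 65537 (.nr 862 766
  (.lg 0 true 7 79 79 13 0 1680) (.nx 883 165142 (.nr 866 13461 (.lg 2 true 4 71 71 13 10349 240)
  (.nr 879 46342 (.lg 0 true 13 97 101 19 0 65520) (.nx 882 26009 (.lg 0 false 3 89 97 13 0 5040)
  .out))) .out)) .out)) (.nr 892 65 (.lg 0 true 7 71 71 13 0 1680) .out)) (.nx 900 814 (.lg 0 false
  7 79 83 13 0 1680) .out)))) .out) .out) (.nx 949 1321124 (.nr 948 623489 (.nr 904 6 .s1 (.nx 907
  97 (.nx 906 96 (.nr 905 83 (.lg 0 true 1 29 29 9 0 55440) (.l1 .sk)) (.l1 .sk)) (.nr 942 77937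
  (.nx 912 6503 (.lg 0 false 5 83 83 16 0 2640) (.nr 941 65537 (.nr 937 46342 (.nr 923 374 (.nx 917
  330282 (.lg 0 true 5 73 73 16 0 2640) (.nr 922 65 (.lg 0 true 5 71 71 16 0 2640) .out)) (.nx 936
  165142 (.nr 930 27556 (.lg 2 true 7 73 73 16 21195 3696) (.nx 935 104033 (.lg 0 true 5 97 101 16
  0 55440) .out)) .out)) (.nx 940 26009 (.lg 0 false 3 97 97 9 0 55440) .out)) .out)) (.nx 947 814
  (.lg 0 false 5 83 83 16 0 2640) .out)))) .out) .out)) (.na 987 14 (.nx 986 1321124 (.nr 985
  623489 (.nr 951 7 .s1 (.nx 953 96 (.nr 952 97 (.lg 0 true 1 23 23 13 0 720) (.l1 .sk)) (.nx 954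
  97 (.l1 .sk) (.nr 979 92683 (.nx 973 330282 (.nx 961 20644 (.lg 0 false 7 89 97 19 0 5040) (.nr
  972 55110 (.nr 966 766 (.lg 0 true 5 73 73 17 0 720) (.nx 971 165142 (.lg 2 false 5 83 89 17
  12323 720) .out)) .out)) (.nr 978 65 (.lg 0 true 5 67 67 17 0 720) .out)) (.nx 984 814 (.lg 0
  false 5 79 79 17 0 720) .out))))) .out) .out) (.nx 1026 1321124 (.nr 1025 623489 (.nr 988 11 .s1
  (.nx 991 97 (.nx 990 96 (.nr 989 104 (.lg 0 true 1 29 29 11 0 55440) (.l1 .sk)) (.l1 .sk)) (.nx
  992 324 (.l1 (.ls 83 47 6829)) (.nr 1024 220437 (.nr 1022 92683 (.nx 997 6503 (.lg 0 false 5 83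
  83 13 0 1680) (.nr 1021 65537 (.nr 1006 374 (.lg 0 true 9 73 73 19 0 1008) (.nx 1020 165142 (.nr
  1017 46342 (.nr 1011 27556 (.lg 2 true 5 73 73 13 21195 1680) (.nx 1016 104033 (.lg 0 true 5 97
  101 13 0 55440) .out)) (.nx 1019 26009 (.lg 0 false 2 97 97 13 0 55440) .out)) .out)) .out)) (.nx
  1023 814 (.lg 0 true 1 79 79 11 0 336) .out)) .out)))) .out) .out))) (.na 1091 17 (.na 1058 16
  (.nx 1057 1321124 (.nr 1056 623489 (.nr 1028 12 .s1 (.nx 1032 324 (.nx 1030 96 (.nr 1029 111 (.lg
  0 false 1 23 23 16 0 5040) (.l1 .sk)) (.nx 1031 97 (.l1 .sk) (.l1 (.ls 83 43 6374)))) (.nr 1055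
  220437 (.nr 1053 92683 (.nx 1039 20644 (.lg 0 false 7 83 89 17 0 5040) (.nr 1052 55110 (.nx 1047
  330282 (.nr 1043 766 (.lg 0 true 4 73 73 16 0 720) (.nx 1046 165142 (.lg 2 false 3 89 89 16 12323
  720) .out)) (.nr 1051 65 (.lg 0 true 4 67 67 16 0 720) .out)) .out)) (.nx 1054 814 (.lg 0 true 1
  79 79 16 0 720) .out)) .out))) .out) .out) (.nx 1090 1321124 (.nr 1089 1048577 (.nr 1059 13 .s1
  (.nx 1062 97 (.nx 1061 96 (.nr 1060 118 (.lg 0 true 1 29 29 11 0 720) (.l1 .sk)) (.l1 .sk)) (.nx
  1075 11148 (.nx 1063 205 (.l1 (.ls 83 37 2041)) (.nr 1074 623489 (.nx 1064 324 (.l1 (.ls 83 41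
  3937)) (.nr 1073 220437 (.nr 1071 131073 (.lg 0 false 7 83 89 19 0 5040) (.nx 1072 814 (.lg 0
  false 1 73 73 11 0 48) .out)) .out)) .out)) (.nr 1088 65537 (.nx 1082 165142 (.nr 1077 1569 (.lg
  0 true 2 79 79 13 0 48) (.nx 1079 26009 (.lg 1 false 2 83 89 13 27131 720) (.nr 1081 46342 (.lg 2
  false 2 89 89 13 8228 720) .out))) (.nr 1087 183 (.lg 0 true 5 71 73 17 0 240) .out)) .out))))
  .out) .out)) (.na 1092 18 .ne (.na 1093 20 (.lg 0 false 1 0 0 7 0 24) (.nx 1117 1321124 (.nr 1116
  1048577 (.nr 1094 18 .s1 (.nx 1098 205 (.nx 1096 96 (.nr 1095 146 (.lg 0 true 1 29 29 13 0 5040)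
  (.l1 .sk)) (.nx 1097 97 (.l1 .sk) (.l1 (.ls 83 41 1633)))) (.nr 1115 623489 (.nx 1099 324 (.l1
  (.ls 79 43 3150)) (.nr 1114 220437 (.nr 1112 131073 (.nx 1102 10323 (.lg 0 false 3 89 89 19 0
  720) (.nr 1111 55110 (.nx 1107 165142 (.nr 1104 1360 (.lg 0 true 2 73 73 17 0 240) (.nx 1105
  26009 (.lg 1 true 1 97 97 13 24645 5040) (.nr 1106 32769 (.lg 2 true 1 83 83 13 5829 240) .out)))
  (.nr 1110 183 (.lg 0 true 3 73 73 19 0 720) .out)) .out)) (.nx 1113 814 (.lg 0 false 1 71 71 13 0
  240) .out)) .out)) .out))) .out) .out))))))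

theorem c24 :
    OkQ ckI L10 231 125 1024 0 34359738368 1 1099511627776 ∧
    OkQ ckI L6 96 1 21 0 34359738368 1 1099511627776 := by
  refine ⟨?_, ?_⟩
  · refine fin 1848 3129 T24_0 ?_
    refine jn 12 (by decide +kernel) ?_
    refine jn 26 (by decide +kernel) ?_
    refine jn 29 (by decide +kernel) ?_
    refine jn 41 (by decide +kernel) ?_
    refine jn 45 (by decide +kernel) ?_
    refine jn 62 (by decide +kernel) ?_
    refine jn 76 (by decide +kernel) ?_
    refine jn 92 (by decide +kernel) ?_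
    refine jn 109 (by decide +kernel) ?_
    refine jn 121 (by decide +kernel) ?_
    refine jn 130 (by decide +kernel) ?_
    refine jn 139 (by decide +kernel) ?_
    refine jn 154 (by decide +kernel) ?_
    refine jn 168 (by decide +kernel) ?_
    refine jn 176 (by decide +kernel) ?_
    refine jn 184 (by decide +kernel) ?_
    refine jn 197 (by decide +kernel) ?_
    refine jn 206 (by decide +kernel) ?_
    refine jn 215 (by decide +kernel) ?_
    refine jn 229 (by decide +kernel) ?_
    refine jn 239 (by decide +kernel) ?_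
    refine jn 241 (by decide +kernel) ?_
    refine jn 245 (by decide +kernel) ?_
    refine jn 268 (by decide +kernel) ?_
    refine jn 276 (by decide +kernel) ?_
    refine jn 279 (by decide +kernel) ?_
    refine jn 281 (by decide +kernel) ?_
    refine jn 284 (by decide +kernel) ?_
    refine jn 298 (by decide +kernel) ?_
    refine jn 313 (by decide +kernel) ?_
    refine jn 325 (by decide +kernel) ?_
    refine jn 339 (by decide +kernel) ?_
    refine jn 356 (by decide +kernel) ?_
    refine jn 370 (by decide +kernel) ?_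
    refine jn 382 (by decide +kernel) ?_
    refine jn 396 (by decide +kernel) ?_
    refine jn 411 (by decide +kernel) ?_
    refine jn 428 (by decide +kernel) ?_
    refine jn 442 (by decide +kernel) ?_
    refine jn 454 (by decide +kernel) ?_
    refine jn 465 (by decide +kernel) ?_
    refine jn 473 (by decide +kernel) ?_
    refine jn 479 (by decide +kernel) ?_
    refine jn 491 (by decide +kernel) ?_
    refine jn 500 (by decide +kernel) ?_
    refine jn 505 (by decide +kernel) ?_
    refine jn 520 (by decide +kernel) ?_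
    refine jn 531 (by decide +kernel) ?_
    refine jn 532 (by decide +kernel) ?_
    refine jn 535 (by decide +kernel) ?_
    refine jn 548 (by decide +kernel) ?_
    refine jn 562 (by decide +kernel) ?_
    refine jn 571 (by decide +kernel) ?_
    refine jn 574 (by decide +kernel) ?_
    refine jn 587 (by decide +kernel) ?_
    refine jn 600 (by decide +kernel) ?_
    refine jn 614 (by decide +kernel) ?_
    refine jn 629 (by decide +kernel) ?_
    refine jn 640 (by decide +kernel) ?_
    refine jn 653 (by decide +kernel) ?_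
    refine jn 666 (by decide +kernel) ?_
    refine jn 679 (by decide +kernel) ?_
    refine jn 696 (by decide +kernel) ?_
    refine jn 705 (by decide +kernel) ?_
    refine jn 718 (by decide +kernel) ?_
    refine jn 731 (by decide +kernel) ?_
    refine jn 743 (by decide +kernel) ?_
    refine jn 757 (by decide +kernel) ?_
    refine jn 765 (by decide +kernel) ?_
    refine jn 767 (by decide +kernel) ?_
    refine jn 780 (by decide +kernel) ?_
    refine jn 792 (by decide +kernel) ?_
    refine jn 804 (by decide +kernel) ?_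
    refine jn 808 (by decide +kernel) ?_
    refine jn 829 (by decide +kernel) ?_
    refine jn 842 (by decide +kernel) ?_
    refine jn 852 (by decide +kernel) ?_
    refine jn 867 (by decide +kernel) ?_
    refine jn 884 (by decide +kernel) ?_
    refine jn 896 (by decide +kernel) ?_
    refine jn 911 (by decide +kernel) ?_
    refine jn 928 (by decide +kernel) ?_
    refine jn 957 (by decide +kernel) ?_
    refine jn 960 (by decide +kernel) ?_
    refine jn 961 (by decide +kernel) ?_
    refine jn 964 (by decide +kernel) ?_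
    refine jn 966 (by decide +kernel) ?_
    refine jn 968 (by decide +kernel) ?_
    refine jn 969 (by decide +kernel) ?_
    refine jn 973 (by decide +kernel) ?_
    refine jn 978 (by decide +kernel) ?_
    refine jn 980 (by decide +kernel) ?_
    refine jn 981 (by decide +kernel) ?_
    refine jn 983 (by decide +kernel) ?_
    refine jn 985 (by decide +kernel) ?_
    refine jn 986 (by decide +kernel) ?_
    refine jn 990 (by decide +kernel) ?_
    refine jn 992 (by decide +kernel) ?_
    refine jn 995 (by decide +kernel) ?_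
    refine jn 996 (by decide +kernel) ?_
    refine jn 997 (by decide +kernel) ?_
    refine jn 1000 (by decide +kernel) ?_
    refine jn 1004 (by decide +kernel) ?_
    refine jn 1005 (by decide +kernel) ?_
    refine jn 1007 (by decide +kernel) ?_
    refine jn 1011 (by decide +kernel) ?_
    refine jn 1012 (by decide +kernel) ?_
    refine jn 1013 (by decide +kernel) ?_
    refine jn 1020 (by decide +kernel) ?_
    refine jn 1021 (by decide +kernel) ?_
    refine jn 1025 (by decide +kernel) ?_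
    refine jn 1026 (by decide +kernel) ?_
    refine jn 1030 (by decide +kernel) ?_
    refine jn 1035 (by decide +kernel) ?_
    refine jn 1036 (by decide +kernel) ?_
    refine jn 1038 (by decide +kernel) ?_
    refine jn 1048 (by decide +kernel) ?_
    refine jn 1049 (by decide +kernel) ?_
    refine jn 1052 (by decide +kernel) ?_
    refine jn 1054 (by decide +kernel) ?_
    refine jn 1059 (by decide +kernel) ?_
    refine jn 1063 (by decide +kernel) ?_
    refine jn 1066 (by decide +kernel) ?_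
    refine jn 1069 (by decide +kernel) ?_
    refine jn 1073 (by decide +kernel) ?_
    refine jn 1077 (by decide +kernel) ?_
    refine jn 1084 (by decide +kernel) ?_
    refine jn 1086 (by decide +kernel) ?_
    refine jn 1087 (by decide +kernel) ?_
    refine jn 1091 (by decide +kernel) ?_
    refine jn 1096 (by decide +kernel) ?_
    refine jn 1101 (by decide +kernel) ?_
    refine jn 1102 (by decide +kernel) ?_
    refine jn 1104 (by decide +kernel) ?_
    refine jn 1110 (by decide +kernel) ?_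
    refine jn 1111 (by decide +kernel) ?_
    refine jn 1117 (by decide +kernel) ?_
    refine jn 1118 (by decide +kernel) ?_
    refine jn 1125 (by decide +kernel) ?_
    refine jn 1127 (by decide +kernel) ?_
    refine jn 1135 (by decide +kernel) ?_
    refine jn 1141 (by decide +kernel) ?_
    refine jn 1153 (by decide +kernel) ?_
    refine jn 1156 (by decide +kernel) ?_
    refine jn 1160 (by decide +kernel) ?_
    refine jn 1167 (by decide +kernel) ?_
    refine jn 1172 (by decide +kernel) ?_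
    refine jn 1173 (by decide +kernel) ?_
    refine jn 1179 (by decide +kernel) ?_
    refine jn 1183 (by decide +kernel) ?_
    refine jn 1192 (by decide +kernel) ?_
    refine jn 1193 (by decide +kernel) ?_
    refine jn 1197 (by decide +kernel) ?_
    refine jn 1202 (by decide +kernel) ?_
    refine jn 1207 (by decide +kernel) ?_
    refine jn 1208 (by decide +kernel) ?_
    refine jn 1210 (by decide +kernel) ?_
    refine jn 1216 (by decide +kernel) ?_
    refine jn 1217 (by decide +kernel) ?_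
    refine jn 1223 (by decide +kernel) ?_
    refine jn 1224 (by decide +kernel) ?_
    refine jn 1231 (by decide +kernel) ?_
    refine jn 1233 (by decide +kernel) ?_
    refine jn 1242 (by decide +kernel) ?_
    refine jn 1248 (by decide +kernel) ?_
    refine jn 1260 (by decide +kernel) ?_
    refine jn 1264 (by decide +kernel) ?_
    refine jn 1268 (by decide +kernel) ?_
    refine jn 1282 (by decide +kernel) ?_
    refine jn 1297 (by decide +kernel) ?_
    refine jn 1317 (by decide +kernel) ?_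
    refine jn 1335 (by decide +kernel) ?_
    refine jn 1357 (by decide +kernel) ?_
    refine jn 1373 (by decide +kernel) ?_
    refine jn 1387 (by decide +kernel) ?_
    refine jn 1398 (by decide +kernel) ?_
    refine jn 1424 (by decide +kernel) ?_
    refine jn 1433 (by decide +kernel) ?_
    refine jn 1438 (by decide +kernel) ?_
    refine jn 1444 (by decide +kernel) ?_
    refine jn 1445 (by decide +kernel) ?_
    refine jn 1448 (by decide +kernel) ?_
    refine jn 1449 (by decide +kernel) ?_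
    refine jn 1453 (by decide +kernel) ?_
    refine jn 1462 (by decide +kernel) ?_
    refine jn 1468 (by decide +kernel) ?_
    refine jn 1469 (by decide +kernel) ?_
    refine jn 1477 (by decide +kernel) ?_
    refine jn 1484 (by decide +kernel) ?_
    refine jn 1485 (by decide +kernel) ?_
    refine jn 1488 (by decide +kernel) ?_
    refine jn 1495 (by decide +kernel) ?_
    refine jn 1497 (by decide +kernel) ?_
    refine jn 1503 (by decide +kernel) ?_
    refine jn 1507 (by decide +kernel) ?_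
    refine jn 1508 (by decide +kernel) ?_
    refine jn 1511 (by decide +kernel) ?_
    refine jn 1515 (by decide +kernel) ?_
    refine jn 1523 (by decide +kernel) ?_
    refine jn 1524 (by decide +kernel) ?_
    refine jn 1525 (by decide +kernel) ?_
    refine jn 1532 (by decide +kernel) ?_
    refine jn 1533 (by decide +kernel) ?_
    refine jn 1538 (by decide +kernel) ?_
    refine jn 1540 (by decide +kernel) ?_
    refine jn 1541 (by decide +kernel) ?_
    refine jn 1548 (by decide +kernel) ?_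
    refine jn 1549 (by decide +kernel) ?_
    refine jn 1555 (by decide +kernel) ?_
    refine jn 1556 (by decide +kernel) ?_
    refine jn 1557 (by decide +kernel) ?_
    refine jn 1562 (by decide +kernel) ?_
    refine jn 1568 (by decide +kernel) ?_
    refine jn 1575 (by decide +kernel) ?_
    refine jn 1581 (by decide +kernel) ?_
    refine jn 1587 (by decide +kernel) ?_
    refine jn 1593 (by decide +kernel) ?_
    refine jn 1594 (by decide +kernel) ?_
    refine jn 1597 (by decide +kernel) ?_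
    refine jn 1600 (by decide +kernel) ?_
    refine jn 1607 (by decide +kernel) ?_
    refine jn 1617 (by decide +kernel) ?_
    refine jn 1623 (by decide +kernel) ?_
    refine jn 1633 (by decide +kernel) ?_
    refine jn 1635 (by decide +kernel) ?_
    refine jn 1638 (by decide +kernel) ?_
    refine jn 1646 (by decide +kernel) ?_
    refine jn 1655 (by decide +kernel) ?_
    refine jn 1657 (by decide +kernel) ?_
    refine jn 1662 (by decide +kernel) ?_
    refine jn 1672 (by decide +kernel) ?_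
    refine jn 1673 (by decide +kernel) ?_
    refine jn 1679 (by decide +kernel) ?_
    refine jn 1681 (by decide +kernel) ?_
    refine jn 1684 (by decide +kernel) ?_
    refine jn 1689 (by decide +kernel) ?_
    refine jn 1695 (by decide +kernel) ?_
    refine jn 1698 (by decide +kernel) ?_
    refine jn 1705 (by decide +kernel) ?_
    refine jn 1708 (by decide +kernel) ?_
    refine jn 1717 (by decide +kernel) ?_
    refine jn 1726 (by decide +kernel) ?_
    refine jn 1732 (by decide +kernel) ?_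
    refine jn 1742 (by decide +kernel) ?_
    refine jn 1743 (by decide +kernel) ?_
    refine jn 1744 (by decide +kernel) ?_
    refine jn 1747 (by decide +kernel) ?_
    refine jn 1748 (by decide +kernel) ?_
    refine jn 1757 (by decide +kernel) ?_
    refine jn 1767 (by decide +kernel) ?_
    refine jn 1773 (by decide +kernel) ?_
    refine jn 1783 (by decide +kernel) ?_
    refine jn 1785 (by decide +kernel) ?_
    refine jn 1794 (by decide +kernel) ?_
    refine jn 1802 (by decide +kernel) ?_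
    refine jn 1807 (by decide +kernel) ?_
    refine jn 1811 (by decide +kernel) ?_
    refine jn 1815 (by decide +kernel) ?_
    refine jn 1823 (by decide +kernel) ?_
    refine jn 1829 (by decide +kernel) ?_
    refine jn 1831 (by decide +kernel) ?_
    refine jn 1834 (by decide +kernel) ?_
    refine jn 1839 (by decide +kernel) ?_
    refine jn 1845 (by decide +kernel) ?_
    refine jn 1848 (by decide +kernel) ?_
    refine jn 1855 (by decide +kernel) ?_
    refine jn 1858 (by decide +kernel) ?_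
    refine jn 1867 (by decide +kernel) ?_
    refine jn 1878 (by decide +kernel) ?_
    refine jn 1891 (by decide +kernel) ?_
    refine jn 1892 (by decide +kernel) ?_
    refine jn 1913 (by decide +kernel) ?_
    refine jn 1935 (by decide +kernel) ?_
    refine jn 1955 (by decide +kernel) ?_
    refine jn 1971 (by decide +kernel) ?_
    refine jn 1984 (by decide +kernel) ?_
    refine jn 2011 (by decide +kernel) ?_
    refine jn 2036 (by decide +kernel) ?_
    refine jn 2067 (by decide +kernel) ?_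
    refine jn 2079 (by decide +kernel) ?_
    refine jn 2098 (by decide +kernel) ?_
    refine jn 2104 (by decide +kernel) ?_
    refine jn 2106 (by decide +kernel) ?_
    refine jn 2107 (by decide +kernel) ?_
    refine jn 2112 (by decide +kernel) ?_
    refine jn 2118 (by decide +kernel) ?_
    refine jn 2121 (by decide +kernel) ?_
    refine jn 2122 (by decide +kernel) ?_
    refine jn 2124 (by decide +kernel) ?_
    refine jn 2136 (by decide +kernel) ?_
    refine jn 2141 (by decide +kernel) ?_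
    refine jn 2143 (by decide +kernel) ?_
    refine jn 2146 (by decide +kernel) ?_
    refine jn 2148 (by decide +kernel) ?_
    refine jn 2152 (by decide +kernel) ?_
    refine jn 2156 (by decide +kernel) ?_
    refine jn 2166 (by decide +kernel) ?_
    refine jn 2170 (by decide +kernel) ?_
    refine jn 2173 (by decide +kernel) ?_
    refine jn 2178 (by decide +kernel) ?_
    refine jn 2182 (by decide +kernel) ?_
    refine jn 2186 (by decide +kernel) ?_
    refine jn 2187 (by decide +kernel) ?_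
    refine jn 2194 (by decide +kernel) ?_
    refine jn 2195 (by decide +kernel) ?_
    refine jn 2197 (by decide +kernel) ?_
    refine jn 2202 (by decide +kernel) ?_
    refine jn 2210 (by decide +kernel) ?_
    refine jn 2211 (by decide +kernel) ?_
    refine jn 2224 (by decide +kernel) ?_
    refine jn 2226 (by decide +kernel) ?_
    refine jn 2228 (by decide +kernel) ?_
    refine jn 2236 (by decide +kernel) ?_
    refine jn 2244 (by decide +kernel) ?_
    refine jn 2248 (by decide +kernel) ?_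
    refine jn 2256 (by decide +kernel) ?_
    refine jn 2258 (by decide +kernel) ?_
    refine jn 2280 (by decide +kernel) ?_
    refine jn 2282 (by decide +kernel) ?_
    refine jn 2284 (by decide +kernel) ?_
    refine jn 2287 (by decide +kernel) ?_
    refine jn 2290 (by decide +kernel) ?_
    refine jn 2292 (by decide +kernel) ?_
    refine jn 2298 (by decide +kernel) ?_
    refine jn 2301 (by decide +kernel) ?_
    refine jn 2305 (by decide +kernel) ?_
    refine jn 2311 (by decide +kernel) ?_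
    refine jn 2317 (by decide +kernel) ?_
    refine jn 2319 (by decide +kernel) ?_
    refine jn 2320 (by decide +kernel) ?_
    refine jn 2325 (by decide +kernel) ?_
    refine jn 2331 (by decide +kernel) ?_
    refine jn 2334 (by decide +kernel) ?_
    refine jn 2335 (by decide +kernel) ?_
    refine jn 2337 (by decide +kernel) ?_
    refine jn 2349 (by decide +kernel) ?_
    refine jn 2354 (by decide +kernel) ?_
    refine jn 2356 (by decide +kernel) ?_
    refine jn 2359 (by decide +kernel) ?_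
    refine jn 2361 (by decide +kernel) ?_
    refine jn 2365 (by decide +kernel) ?_
    refine jn 2369 (by decide +kernel) ?_
    refine jn 2379 (by decide +kernel) ?_
    refine jn 2383 (by decide +kernel) ?_
    refine jn 2386 (by decide +kernel) ?_
    refine jn 2391 (by decide +kernel) ?_
    refine jn 2395 (by decide +kernel) ?_
    refine jn 2399 (by decide +kernel) ?_
    refine jn 2400 (by decide +kernel) ?_
    refine jn 2407 (by decide +kernel) ?_
    refine jn 2408 (by decide +kernel) ?_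
    refine jn 2410 (by decide +kernel) ?_
    refine jn 2415 (by decide +kernel) ?_
    refine jn 2423 (by decide +kernel) ?_
    refine jn 2424 (by decide +kernel) ?_
    refine jn 2437 (by decide +kernel) ?_
    refine jn 2440 (by decide +kernel) ?_
    refine jn 2449 (by decide +kernel) ?_
    refine jn 2457 (by decide +kernel) ?_
    refine jn 2461 (by decide +kernel) ?_
    refine jn 2469 (by decide +kernel) ?_
    refine jn 2471 (by decide +kernel) ?_
    refine jn 2493 (by decide +kernel) ?_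
    refine jn 2495 (by decide +kernel) ?_
    refine jn 2497 (by decide +kernel) ?_
    refine jn 2500 (by decide +kernel) ?_
    refine jn 2503 (by decide +kernel) ?_
    refine jn 2505 (by decide +kernel) ?_
    refine jn 2511 (by decide +kernel) ?_
    refine jn 2514 (by decide +kernel) ?_
    refine jn 2518 (by decide +kernel) ?_
    refine jn 2528 (by decide +kernel) ?_
    refine jn 2543 (by decide +kernel) ?_
    refine jn 2555 (by decide +kernel) ?_
    refine jn 2563 (by decide +kernel) ?_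
    refine jn 2571 (by decide +kernel) ?_
    refine jn 2591 (by decide +kernel) ?_
    refine jn 2607 (by decide +kernel) ?_
    refine jn 2624 (by decide +kernel) ?_
    refine jn 2642 (by decide +kernel) ?_
    refine jn 2659 (by decide +kernel) ?_
    refine jn 2681 (by decide +kernel) ?_
    refine jn 2693 (by decide +kernel) ?_
    refine jn 2717 (by decide +kernel) ?_
    refine jn 2736 (by decide +kernel) ?_
    refine jn 2753 (by decide +kernel) ?_
    refine jn 2774 (by decide +kernel) ?_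
    refine jn 2788 (by decide +kernel) ?_
    refine jn 2804 (by decide +kernel) ?_
    refine jn 2827 (by decide +kernel) ?_
    refine jn 2830 (by decide +kernel) ?_
    refine jn 2834 (by decide +kernel) ?_
    refine jn 2842 (by decide +kernel) ?_
    refine jn 2843 (by decide +kernel) ?_
    refine jn 2851 (by decide +kernel) ?_
    refine jn 2854 (by decide +kernel) ?_
    refine jn 2856 (by decide +kernel) ?_
    refine jn 2862 (by decide +kernel) ?_
    refine jn 2863 (by decide +kernel) ?_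
    refine jn 2871 (by decide +kernel) ?_
    refine jn 2879 (by decide +kernel) ?_
    refine jn 2882 (by decide +kernel) ?_
    refine jn 2889 (by decide +kernel) ?_
    refine jn 2899 (by decide +kernel) ?_
    refine jn 2904 (by decide +kernel) ?_
    refine jn 2913 (by decide +kernel) ?_
    refine jn 2917 (by decide +kernel) ?_
    refine jn 2927 (by decide +kernel) ?_
    refine jn 2934 (by decide +kernel) ?_
    refine jn 2938 (by decide +kernel) ?_
    refine jn 2942 (by decide +kernel) ?_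
    refine jn 2944 (by decide +kernel) ?_
    refine jn 2955 (by decide +kernel) ?_
    refine jn 2960 (by decide +kernel) ?_
    refine jn 2973 (by decide +kernel) ?_
    refine jn 2982 (by decide +kernel) ?_
    refine jn 2987 (by decide +kernel) ?_
    refine jn 2992 (by decide +kernel) ?_
    refine jn 2998 (by decide +kernel) ?_
    refine jn 3014 (by decide +kernel) ?_
    refine jn 3023 (by decide +kernel) ?_
    refine jn 3030 (by decide +kernel) ?_
    refine jn 3034 (by decide +kernel) ?_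
    refine jn 3040 (by decide +kernel) ?_
    refine jn 3046 (by decide +kernel) ?_
    refine jn 3052 (by decide +kernel) ?_
    refine jn 3062 (by decide +kernel) ?_
    refine jn 3066 (by decide +kernel) ?_
    refine jn 3077 (by decide +kernel) ?_
    refine jn 3080 (by decide +kernel) ?_
    refine jn 3087 (by decide +kernel) ?_
    refine jn 3090 (by decide +kernel) ?_
    refine jn 3095 (by decide +kernel) ?_
    refine jn 3102 (by decide +kernel) ?_
    refine jn 3107 (by decide +kernel) ?_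
    refine jn 3120 (by decide +kernel) ?_
    exact je (by decide +kernel)
  · refine fin 48 1118 T24_1 ?_
    refine jn 5 (by decide +kernel) ?_
    refine jn 7 (by decide +kernel) ?_
    refine jn 9 (by decide +kernel) ?_
    refine jn 11 (by decide +kernel) ?_
    refine jn 13 (by decide +kernel) ?_
    refine jn 15 (by decide +kernel) ?_
    refine jn 17 (by decide +kernel) ?_
    refine jn 19 (by decide +kernel) ?_
    refine jn 21 (by decide +kernel) ?_
    refine jn 22 (by decide +kernel) ?_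
    refine jn 24 (by decide +kernel) ?_
    refine jn 26 (by decide +kernel) ?_
    refine jn 28 (by decide +kernel) ?_
    refine jn 42 (by decide +kernel) ?_
    refine jn 46 (by decide +kernel) ?_
    refine jn 49 (by decide +kernel) ?_
    refine jn 53 (by decide +kernel) ?_
    refine jn 56 (by decide +kernel) ?_
    refine jn 59 (by decide +kernel) ?_
    refine jn 62 (by decide +kernel) ?_
    refine jn 66 (by decide +kernel) ?_
    refine jn 69 (by decide +kernel) ?_
    refine jn 82 (by decide +kernel) ?_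
    refine jn 95 (by decide +kernel) ?_
    refine jn 108 (by decide +kernel) ?_
    refine jn 133 (by decide +kernel) ?_
    refine jn 138 (by decide +kernel) ?_
    refine jn 165 (by decide +kernel) ?_
    refine jn 173 (by decide +kernel) ?_
    refine jn 175 (by decide +kernel) ?_
    refine jn 177 (by decide +kernel) ?_
    refine jn 180 (by decide +kernel) ?_
    refine jn 182 (by decide +kernel) ?_
    refine jn 187 (by decide +kernel) ?_
    refine jn 196 (by decide +kernel) ?_
    refine jn 203 (by decide +kernel) ?_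
    refine jn 211 (by decide +kernel) ?_
    refine jn 219 (by decide +kernel) ?_
    refine jn 230 (by decide +kernel) ?_
    refine jn 237 (by decide +kernel) ?_
    refine jn 250 (by decide +kernel) ?_
    refine jn 271 (by decide +kernel) ?_
    refine jn 290 (by decide +kernel) ?_
    refine jn 300 (by decide +kernel) ?_
    refine jn 303 (by decide +kernel) ?_
    refine jn 306 (by decide +kernel) ?_
    refine jn 314 (by decide +kernel) ?_
    refine jn 322 (by decide +kernel) ?_
    refine jn 328 (by decide +kernel) ?_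
    refine jn 367 (by decide +kernel) ?_
    refine jn 386 (by decide +kernel) ?_
    refine jn 399 (by decide +kernel) ?_
    refine jn 421 (by decide +kernel) ?_
    refine jn 422 (by decide +kernel) ?_
    refine jn 423 (by decide +kernel) ?_
    refine jn 424 (by decide +kernel) ?_
    refine jn 425 (by decide +kernel) ?_
    refine jn 426 (by decide +kernel) ?_
    refine jn 427 (by decide +kernel) ?_
    refine jn 428 (by decide +kernel) ?_
    refine jn 429 (by decide +kernel) ?_
    refine jn 430 (by decide +kernel) ?_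
    refine jn 431 (by decide +kernel) ?_
    refine jn 432 (by decide +kernel) ?_
    refine jn 433 (by decide +kernel) ?_
    refine jn 434 (by decide +kernel) ?_
    refine jn 440 (by decide +kernel) ?_
    refine jn 442 (by decide +kernel) ?_
    refine jn 444 (by decide +kernel) ?_
    refine jn 446 (by decide +kernel) ?_
    refine jn 448 (by decide +kernel) ?_
    refine jn 450 (by decide +kernel) ?_
    refine jn 452 (by decide +kernel) ?_
    refine jn 453 (by decide +kernel) ?_
    refine jn 455 (by decide +kernel) ?_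
    refine jn 468 (by decide +kernel) ?_
    refine jn 476 (by decide +kernel) ?_
    refine jn 481 (by decide +kernel) ?_
    refine jn 487 (by decide +kernel) ?_
    refine jn 493 (by decide +kernel) ?_
    refine jn 496 (by decide +kernel) ?_
    refine jn 533 (by decide +kernel) ?_
    refine jn 547 (by decide +kernel) ?_
    refine jn 553 (by decide +kernel) ?_
    refine jn 554 (by decide +kernel) ?_
    refine jn 556 (by decide +kernel) ?_
    refine jn 557 (by decide +kernel) ?_
    refine jn 558 (by decide +kernel) ?_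
    refine jn 559 (by decide +kernel) ?_
    refine jn 560 (by decide +kernel) ?_
    refine jn 561 (by decide +kernel) ?_
    refine jn 562 (by decide +kernel) ?_
    refine jn 564 (by decide +kernel) ?_
    refine jn 565 (by decide +kernel) ?_
    refine jn 566 (by decide +kernel) ?_
    refine jn 567 (by decide +kernel) ?_
    refine jn 569 (by decide +kernel) ?_
    refine jn 570 (by decide +kernel) ?_
    refine jn 572 (by decide +kernel) ?_
    refine jn 573 (by decide +kernel) ?_
    refine jn 581 (by decide +kernel) ?_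
    refine jn 586 (by decide +kernel) ?_
    refine jn 591 (by decide +kernel) ?_
    refine jn 597 (by decide +kernel) ?_
    refine jn 625 (by decide +kernel) ?_
    refine jn 640 (by decide +kernel) ?_
    refine jn 652 (by decide +kernel) ?_
    refine jn 661 (by decide +kernel) ?_
    refine jn 670 (by decide +kernel) ?_
    refine jn 685 (by decide +kernel) ?_
    refine jn 699 (by decide +kernel) ?_
    refine jn 700 (by decide +kernel) ?_
    refine jn 701 (by decide +kernel) ?_
    refine jn 702 (by decide +kernel) ?_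
    refine jn 703 (by decide +kernel) ?_
    refine jn 704 (by decide +kernel) ?_
    refine jn 712 (by decide +kernel) ?_
    refine jn 715 (by decide +kernel) ?_
    refine jn 718 (by decide +kernel) ?_
    refine jn 722 (by decide +kernel) ?_
    refine jn 723 (by decide +kernel) ?_
    refine jn 731 (by decide +kernel) ?_
    refine jn 736 (by decide +kernel) ?_
    refine jn 764 (by decide +kernel) ?_
    refine jn 772 (by decide +kernel) ?_
    refine jn 775 (by decide +kernel) ?_
    refine jn 777 (by decide +kernel) ?_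
    refine jn 779 (by decide +kernel) ?_
    refine jn 782 (by decide +kernel) ?_
    refine jn 790 (by decide +kernel) ?_
    refine jn 795 (by decide +kernel) ?_
    refine jn 799 (by decide +kernel) ?_
    refine jn 804 (by decide +kernel) ?_
    refine jn 805 (by decide +kernel) ?_
    refine jn 812 (by decide +kernel) ?_
    refine jn 840 (by decide +kernel) ?_
    refine jn 848 (by decide +kernel) ?_
    refine jn 849 (by decide +kernel) ?_
    refine jn 850 (by decide +kernel) ?_
    refine jn 851 (by decide +kernel) ?_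
    refine jn 852 (by decide +kernel) ?_
    refine jn 853 (by decide +kernel) ?_
    refine jn 854 (by decide +kernel) ?_
    refine jn 855 (by decide +kernel) ?_
    refine jn 857 (by decide +kernel) ?_
    refine jn 860 (by decide +kernel) ?_
    refine jn 862 (by decide +kernel) ?_
    refine jn 863 (by decide +kernel) ?_
    refine jn 864 (by decide +kernel) ?_
    refine jn 865 (by decide +kernel) ?_
    refine jn 866 (by decide +kernel) ?_
    refine jn 867 (by decide +kernel) ?_
    refine jn 868 (by decide +kernel) ?_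
    refine jn 869 (by decide +kernel) ?_
    refine jn 871 (by decide +kernel) ?_
    refine jn 873 (by decide +kernel) ?_
    refine jn 875 (by decide +kernel) ?_
    refine jn 876 (by decide +kernel) ?_
    refine jn 877 (by decide +kernel) ?_
    refine jn 878 (by decide +kernel) ?_
    refine jn 879 (by decide +kernel) ?_
    refine jn 885 (by decide +kernel) ?_
    refine jn 892 (by decide +kernel) ?_
    refine jn 905 (by decide +kernel) ?_
    refine jn 908 (by decide +kernel) ?_
    refine jn 909 (by decide +kernel) ?_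
    refine jn 910 (by decide +kernel) ?_
    refine jn 911 (by decide +kernel) ?_
    refine jn 912 (by decide +kernel) ?_
    refine jn 914 (by decide +kernel) ?_
    refine jn 916 (by decide +kernel) ?_
    refine jn 922 (by decide +kernel) ?_
    refine jn 923 (by decide +kernel) ?_
    refine jn 924 (by decide +kernel) ?_
    refine jn 925 (by decide +kernel) ?_
    refine jn 926 (by decide +kernel) ?_
    refine jn 927 (by decide +kernel) ?_
    refine jn 928 (by decide +kernel) ?_
    refine jn 929 (by decide +kernel) ?_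
    refine jn 930 (by decide +kernel) ?_
    refine jn 940 (by decide +kernel) ?_
    refine jn 954 (by decide +kernel) ?_
    refine jn 956 (by decide +kernel) ?_
    refine jn 958 (by decide +kernel) ?_
    refine jn 960 (by decide +kernel) ?_
    refine jn 961 (by decide +kernel) ?_
    refine jn 964 (by decide +kernel) ?_
    refine jn 966 (by decide +kernel) ?_
    refine jn 971 (by decide +kernel) ?_
    refine jn 978 (by decide +kernel) ?_
    refine jn 991 (by decide +kernel) ?_
    refine jn 992 (by decide +kernel) ?_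
    refine jn 994 (by decide +kernel) ?_
    refine jn 995 (by decide +kernel) ?_
    refine jn 997 (by decide +kernel) ?_
    refine jn 1001 (by decide +kernel) ?_
    refine jn 1005 (by decide +kernel) ?_
    refine jn 1006 (by decide +kernel) ?_
    refine jn 1007 (by decide +kernel) ?_
    refine jn 1008 (by decide +kernel) ?_
    refine jn 1009 (by decide +kernel) ?_
    refine jn 1010 (by decide +kernel) ?_
    refine jn 1011 (by decide +kernel) ?_
    refine jn 1019 (by decide +kernel) ?_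
    refine jn 1031 (by decide +kernel) ?_
    refine jn 1032 (by decide +kernel) ?_
    refine jn 1035 (by decide +kernel) ?_
    refine jn 1038 (by decide +kernel) ?_
    refine jn 1039 (by decide +kernel) ?_
    refine jn 1042 (by decide +kernel) ?_
    refine jn 1046 (by decide +kernel) ?_
    refine jn 1054 (by decide +kernel) ?_
    refine jn 1062 (by decide +kernel) ?_
    refine jn 1063 (by decide +kernel) ?_
    refine jn 1064 (by decide +kernel) ?_
    refine jn 1065 (by decide +kernel) ?_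
    refine jn 1066 (by decide +kernel) ?_
    refine jn 1067 (by decide +kernel) ?_
    refine jn 1068 (by decide +kernel) ?_
    refine jn 1069 (by decide +kernel) ?_
    refine jn 1070 (by decide +kernel) ?_
    refine jn 1071 (by decide +kernel) ?_
    refine jn 1075 (by decide +kernel) ?_
    refine jn 1076 (by decide +kernel) ?_
    refine jn 1077 (by decide +kernel) ?_
    refine jn 1079 (by decide +kernel) ?_
    refine jn 1081 (by decide +kernel) ?_
    refine jn 1084 (by decide +kernel) ?_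
    refine jn 1086 (by decide +kernel) ?_
    refine jn 1093 (by decide +kernel) ?_
    refine jn 1097 (by decide +kernel) ?_
    refine jn 1098 (by decide +kernel) ?_
    refine jn 1099 (by decide +kernel) ?_
    refine jn 1100 (by decide +kernel) ?_
    refine jn 1101 (by decide +kernel) ?_
    refine jn 1102 (by decide +kernel) ?_
    refine jn 1103 (by decide +kernel) ?_
    refine jn 1104 (by decide +kernel) ?_
    refine jn 1105 (by decide +kernel) ?_
    refine jn 1106 (by decide +kernel) ?_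
    refine jn 1109 (by decide +kernel) ?_
    refine jn 1110 (by decide +kernel) ?_
    exact je (by decide +kernel)

end Pool.Agent.MP_2339ce_nt.NR
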