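import Pool.Agent.MP_2339ce_nt.Q2.NC.L10
import Pool.Agent.MP_2339ce_nt.Q2.CkI

/-! Block NR: runs. -/

set_option autoImplicit false
set_option maxRecDepth 100000

noncomputable section

namespace Pool.Agent.MP_2339ce_nt.NR

open Q2.Top

def T27_0 : Ph :=
  (.na 976 139 (.na 647 71 (.na 391 43 (.na 199 28 (.na 149 23 (.na 57 20 (.nx 56 2642247 (.nr 55
  1246976 (.nr 1 9 .s1 (.nx 3 220 (.nr 2 210 (.lg 0 true 1 31 31 11 0 1320) (.l1 .sk)) (.nx 4 221
  (.l1 .sk) (.nx 5 408 (.l1 (.ls 89 41 6922)) (.nr 54 741457 (.nr 46 220437 (.nx 14 49577 (.lg 0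
  false 9 103 107 16 0 720720) (.nr 29 1726 (.nx 21 660563 (.lg 0 true 7 83 83 16 0 9240) (.nr 28
  129 (.lg 0 true 7 73 73 16 0 9240) .out)) (.nx 45 524289 (.nx 36 101564 (.lg 1 false 7 101 107 16
  107711 720720) (.lg 2 false 9 103 107 16 52577 720720)) .out))) (.nx 53 13005 (.nr 49 311745 (.lg
  0 false 3 97 97 16 0 3960) (.nx 52 1627 (.lg 0 false 3 83 83 16 0 3960) .out)) .out)) .out)))))
  .out) .out) (.na 110 22 (.nx 109 2642247 (.nr 108 1246976 (.nr 58 14 .s1 (.nx 61 221 (.nx 60 220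
  (.nr 59 231 (.lg 0 true 1 29 29 13 0 2640) (.l1 .sk)) (.l1 .sk)) (.nx 62 408 (.l1 (.ls 83 47
  5884)) (.nr 107 741457 (.nr 99 220437 (.nx 69 49577 (.lg 0 false 7 97 101 19 0 55440) (.nr 84
  1726 (.nx 76 660563 (.lg 0 true 7 79 83 19 0 18480) (.nr 83 129 (.lg 0 true 7 71 71 19 0 18480)
  .out)) (.nx 98 524289 (.nx 91 101564 (.lg 1 false 7 97 101 19 107711 55440) (.lg 2 false 7 101
  103 19 52577 720720)) .out))) (.nx 106 13005 (.nr 102 311745 (.lg 0 false 3 89 89 13 0 7920) (.nx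
  105 1627 (.lg 0 false 3 79 79 13 0 7920) .out)) .out)) .out)))) .out) .out) (.nx 148 2642247 (.nr
  147 1246976 (.nr 111 17 .s1 (.nx 113 220 (.nr 112 242 (.l1 (.ls 19 41 2202)) (.l1 .sk)) (.nx 114
  221 (.l1 .sk) (.nx 115 408 (.l1 (.ls 79 47 5349)) (.nr 146 741457 (.nr 142 311745 (.nx 122 49577
  (.lg 0 false 7 97 97 17 0 18480) (.nr 141 220437 (.nr 131 666 (.lg 0 true 9 73 73 19 0 7920) (.nx
  140 524289 (.lg 2 false 9 101 103 19 107711 720720) .out)) .out)) (.nx 145 1627 (.lg 0 true 3 79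
  79 13 0 7920) .out)) .out))))) .out) .out))) (.na 150 25 .ne (.na 151 26 (.lg 0 false 1 0 0 7 0
  24) (.nx 198 2642247 (.nr 197 1048577 (.nr 152 22 .s1 (.nx 191 660563 (.nx 177 82572 (.nx 156 408
  (.nx 154 220 (.nr 153 294 (.lg 0 false 1 31 31 11 0 240240) (.l1 .sk)) (.nx 155 221 (.l1 .sk)
  (.l1 (.ls 83 47 4526)))) (.nr 176 741457 (.nr 165 185365 (.lg 0 false 9 97 103 23 0 720720) (.nx
  175 16385 (.nr 171 524289 (.lg 0 false 6 97 101 19 0 720720) (.nx 174 2582 (.lg 0 false 3 83 83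
  11 0 102960) .out)) .out)) .out)) (.nr 190 131073 (.nr 180 1888 (.lg 0 true 3 83 83 11 0 102960)
  (.nx 189 524289 (.lg 2 false 9 89 101 23 38480 720720) .out)) .out)) (.nr 196 129 (.lg 0 true 5
  71 71 19 0 34320) .out))) .out) .out)))) (.na 307 33 (.na 235 31 (.nx 234 2642247 (.nr 233
  1048577 (.nr 200 24 .s1 (.nx 203 221 (.nx 202 220 (.nr 201 326 (.lg 0 false 1 37 37 13 0 18480)
  (.l1 .sk)) (.l1 .sk)) (.nx 204 408 (.l1 (.ls 89 43 4203)) (.nr 232 741457 (.nr 229 524289 (.nr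
  225 185365 (.nx 221 660563 (.nx 207 39825 (.lg 0 false 3 101 103 19 0 55440) (.nr 210 974 (.lg 0
  true 3 83 83 19 0 55440) (.nx 220 524289 (.nx 213 82572 (.lg 1 false 3 97 103 19 112774 55440)
  (.nr 219 131073 (.nr 216 77937 (.nr 214 2914 (.lg 2 false 1 79 79 13 59212 18480) (.lg 2 false 2
  89 97 19 22907 18480)) (.nx 218 416129 (.lg 2 false 2 97 101 19 38480 18480) .out)) .out))
  .out))) (.nr 224 129 (.lg 0 true 3 73 73 19 0 55440) .out)) (.nx 228 16385 (.lg 0 false 3 97 101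
  19 0 55440) .out)) (.nx 231 2582 (.lg 0 false 2 83 89 19 0 18480) .out)) .out)))) .out) .out)
  (.na 270 32 (.nx 269 2642247 (.nr 268 1048577 (.nr 236 28 .s1 (.nx 239 221 (.nx 238 220 (.nr 237
  336 (.lg 0 false 1 23 23 13 0 1320) (.l1 .sk)) (.l1 .sk)) (.nx 252 65537 (.nx 248 16385 (.nx 240
  408 (.l1 (.ls 79 37 3797)) (.nr 247 741457 (.lg 0 false 7 89 97 16 0 9240) .out)) (.nr 251 185365
  (.lg 0 false 3 101 101 16 0 27720) .out)) (.nr 267 155873 (.nr 259 998 (.lg 0 true 7 79 79 16 0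
  9240) (.nx 266 524289 (.lg 2 false 7 89 97 16 57788 9240) .out)) .out)))) .out) .out) (.nx 306
  2642247 (.nr 305 1048577 (.nr 271 29 .s1 (.nx 275 408 (.nx 273 220 (.nr 272 347 (.l1 (.ls 37 37
  1515)) (.l1 .sk)) (.nx 274 221 (.l1 .sk) (.l1 (.ls 89 41 3678)))) (.nr 304 741457 (.nr 301 623489
  (.nx 297 524289 (.nr 293 185365 (.nx 278 24201 (.lg 0 false 3 97 101 19 0 55440) (.nx 281 39825
  (.lg 1 false 3 97 101 19 185582 55440) (.nr 284 8936 (.nr 283 1024 (.lg 0 true 2 79 79 19 0 2640)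
  (.lg 2 false 1 89 89 13 56321 2640)) (.nx 287 82572 (.lg 1 false 3 101 103 19 112774 720720) (.nr
  292 131073 (.nx 290 165142 (.lg 1 true 3 97 101 19 38480 55440) (.nr 291 92683 (.lg 2 false 1 97
  97 13 13615 2640) .out)) .out))))) (.nx 296 16385 (.lg 0 false 3 97 103 19 0 55440) .out)) (.nr
  300 257 (.lg 0 true 3 79 79 23 0 7920) .out)) (.nx 302 1024 .out (.nx 303 2582 (.lg 0 false 1 83
  83 13 0 2640) .out))) .out))) .out) .out))) (.na 342 35 (.na 308 34 .ne (.nx 341 2642247 (.nr 340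
  881745 (.nr 309 31 .s1 (.nx 313 408 (.nx 311 220 (.nr 310 368 (.l1 (.ls 31 41 1426)) (.l1 .sk))
  (.nx 312 221 (.l1 .sk) (.l1 (.ls 83 43 3462)))) (.nr 339 623489 (.nx 328 65537 (.nr 320 185365
  (.lg 0 false 7 97 101 23 0 55440) (.nx 327 16385 (.lg 0 false 7 97 101 23 0 55440) .out)) (.nr
  338 77937 (.nr 335 1037 (.lg 0 true 7 83 83 23 0 18480) (.nx 337 262145 (.lg 2 true 2 89 89 13
  28861 2640) .out)) .out)) .out))) .out) .out)) (.na 367 40 (.nx 366 2642247 (.nr 365 881745 (.nr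
  343 32 .s1 (.nx 346 221 (.nx 345 220 (.nr 344 420 (.l1 (.ls 29 31 1385)) (.l1 .sk)) (.l1 .sk))
  (.nx 347 408 (.l1 (.ls 79 41 3363)) (.nr 364 623489 (.nx 354 65537 (.nr 350 185365 (.lg 0 false 3
  97 101 16 0 27720) (.nx 353 16385 (.lg 0 false 3 97 97 16 0 27720) .out)) (.nr 363 77937 (.nx 357
  262145 (.nr 355 1153 (.lg 0 false 1 73 73 16 0 9240) (.lg 2 true 2 89 89 16 28861 18480)) (.nr
  362 257 (.lg 0 true 5 71 71 17 0 9240) .out)) .out)) .out)))) .out) .out) (.nx 390 2642247 (.nr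
  389 881745 (.nr 368 38 .s1 (.nx 371 221 (.nx 370 220 (.nr 369 452 (.l1 (.ls 29 37 1212)) (.l1
  .sk)) (.l1 .sk)) (.nx 372 408 (.l1 (.ls 79 43 2943)) (.nr 388 623489 (.nr 384 185365 (.nx 379
  262145 (.nx 375 65537 (.lg 0 false 3 101 101 19 0 55440) (.nr 378 77937 (.nr 376 1222 (.lg 0
  false 1 73 73 13 0 2640) (.lg 2 true 2 83 83 19 28861 18480)) .out)) (.nr 383 257 (.lg 0 true 4
  67 67 19 0 2640) .out)) (.nx 387 16385 (.lg 0 false 3 97 97 19 0 55440) .out)) .out)))) .out)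
  .out))))) (.na 505 56 (.na 440 49 (.na 415 44 (.nx 414 2642247 (.nr 413 881745 (.nr 392 41 .s1
  (.nx 409 330282 (.nx 394 220 (.nr 393 462 (.l1 (.ls 23 23 1128)) (.l1 .sk)) (.nx 395 221 (.l1
  .sk) (.nx 396 408 (.l1 (.ls 79 31 2738)) (.nr 408 623489 (.nx 403 65537 (.nr 399 185365 (.lg 0
  false 3 97 97 16 0 3960) (.nx 402 16385 (.lg 0 false 3 89 89 16 0 3960) .out)) (.nr 407 77937
  (.nr 404 1244 (.lg 0 false 1 79 79 16 0 3960) (.nx 406 262145 (.lg 2 true 2 89 89 16 28861 2640)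
  .out)) .out)) .out)))) (.nr 412 217 (.lg 0 true 3 67 67 16 0 3960) .out))) .out) .out) (.na 439
  46 (.nx 438 2642247 (.nr 437 881745 (.nr 416 42 .s1 (.nx 419 221 (.nx 418 220 (.nr 417 483 (.l1
  (.ls 29 37 1102)) (.l1 .sk)) (.l1 .sk)) (.nx 432 262145 (.nx 420 408 (.l1 (.ls 79 43 2676)) (.nr
  431 623489 (.nr 427 185365 (.nx 423 65537 (.lg 0 false 3 101 101 19 0 55440) (.nr 426 77937 (.nr
  424 1289 (.lg 0 false 1 73 73 13 0 2640) (.lg 2 true 2 83 83 19 28861 18480)) .out)) (.nx 430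
  16385 (.lg 0 false 3 97 97 19 0 55440) .out)) .out)) (.nr 436 257 (.lg 0 true 4 67 67 23 0 2640)
  .out)))) .out) .out) .ne)) (.na 462 52 (.na 461 50 (.nx 460 2642247 (.nr 459 881745 (.nr 441 47
  .s1 (.nx 443 220 (.nr 442 525 (.l1 (.ls 23 29 990)) (.l1 .sk)) (.nx 444 221 (.l1 .sk) (.nx 450
  32769 (.lg 0 false 6 97 101 17 0 55440) (.nr 458 92683 (.nr 455 525 (.lg 0 true 5 71 71 17 0
  9240) (.nx 457 262145 (.lg 2 true 2 97 97 16 68611 18480) .out)) .out))))) .out) .out) (.lg 0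
  false 1 0 0 16 0 24)) (.na 482 55 (.nx 481 2642247 (.nr 480 881745 (.nr 463 50 .s1 (.nx 466 221
  (.nx 465 220 (.nr 464 578 (.l1 (.ls 37 37 933)) (.l1 .sk)) (.l1 .sk)) (.nx 476 262145 (.nx 473
  52017 (.nr 469 220437 (.lg 0 false 3 101 103 23 0 720720) (.nx 472 20644 (.lg 0 false 3 101 103
  23 0 720720) .out)) (.nr 475 65537 (.nr 474 1586 (.lg 0 false 1 79 79 19 0 34320) (.lg 2 true 1
  97 97 19 30593 34320)) .out)) (.nr 479 257 (.lg 0 true 3 73 73 23 0 102960) .out)))) .out) .out)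
  (.nx 504 2642247 (.nr 503 881745 (.nr 483 53 .s1 (.nx 486 221 (.nx 485 220 (.nr 484 588 (.l1 (.ls
  17 31 882)) (.l1 .sk)) (.l1 .sk)) (.nx 493 32769 (.lg 0 false 7 83 83 17 0 9240) (.nr 502 92683
  (.nr 498 588 (.lg 0 true 5 61 61 17 0 1320) (.nx 501 262145 (.lg 2 true 3 79 79 16 68611 3960)
  .out)) .out)))) .out) .out)))) (.na 569 64 (.na 528 59 (.nx 527 2642247 (.nr 526 881745 (.nr 506
  55 .s1 (.nx 522 262145 (.nx 509 221 (.nx 508 220 (.nr 507 620 (.l1 (.ls 37 37 867)) (.l1 .sk))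
  (.l1 .sk)) (.nr 512 46342 (.lg 0 false 3 89 89 23 0 55440) (.nx 521 82572 (.nx 519 41287 (.nr 515
  220437 (.lg 0 false 3 97 101 23 0 720720) (.nx 518 20644 (.lg 0 false 3 101 103 23 0 720720)
  .out)) (.nr 520 77937 (.lg 0 false 1 89 89 19 0 18480) .out)) .out))) (.nr 525 257 (.lg 0 true 3
  73 73 23 0 55440) .out))) .out) .out) (.na 548 62 (.nx 547 2642247 (.nr 546 881745 (.nr 529 58
  .s1 (.nx 532 221 (.nx 531 220 (.nr 530 651 (.l1 (.ls 23 23 823)) (.l1 .sk)) (.l1 .sk)) (.nx 539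
  32769 (.lg 0 false 7 89 97 17 0 9240) (.nr 545 92683 (.nr 542 651 (.lg 0 true 3 71 71 16 0 3960)
  (.nx 544 262145 (.lg 2 false 2 89 89 16 68611 2640) .out)) .out)))) .out) .out) (.nx 568 2642247
  (.nr 567 881745 (.nr 549 61 .s1 (.nx 559 32769 (.nx 551 220 (.nr 550 672 (.l1 (.ls 23 29 783))
  (.l1 .sk)) (.nx 552 221 (.l1 .sk) (.lg 0 false 7 89 97 23 0 18480))) (.nr 566 92683 (.nr 563 672
  (.lg 0 true 4 73 73 19 0 2640) (.nx 565 262145 (.lg 2 true 2 89 89 17 68611 2640) .out)) .out)))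
  .out) .out))) (.na 608 68 (.na 590 65 (.nx 589 2642247 (.nr 588 2097153 (.nr 570 63 .s1 (.nx 573
  221 (.nx 572 220 (.nr 571 683 (.l1 (.ls 37 31 759)) (.l1 .sk)) (.l1 .sk)) (.nx 574 408 (.l1 (.ls
  89 37 1840)) (.nr 587 1048577 (.nx 577 20644 (.lg 0 false 3 97 103 29 0 55440) (.nr 586 262145
  (.nx 583 416129 (.nx 578 32769 (.lg 0 false 1 89 97 19 0 2640) (.nr 582 92683 (.nr 579 1797 (.lg
  0 true 1 79 79 19 0 2640) (.nx 580 52017 (.lg 1 false 1 83 89 19 68611 2640) (.nr 581 65537 (.lg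
  2 false 1 89 89 19 30593 2640) .out))) .out)) (.nr 585 513 (.lg 0 true 2 79 79 23 0 2640) .out))
  .out)) .out)))) .out) .out) (.nx 607 2642247 (.nr 606 2097153 (.nr 591 64 .s1 (.nx 599 32769 (.nx
  592 408 (.l1 (.ls 83 37 2563)) (.nr 598 1048577 (.lg 0 false 6 97 101 19 0 720720) .out)) (.nr
  605 65537 (.nr 602 714 (.lg 0 true 3 71 71 17 0 51480) (.nx 604 416129 (.lg 2 false 2 89 89 17
  64110 240240) .out)) .out))) .out) .out)) (.na 629 70 (.nx 628 2642247 (.nr 627 2097153 (.nr 609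
  67 .s1 (.nx 612 221 (.nx 611 220 (.nr 610 735 (.l1 (.ls 37 37 714)) (.l1 .sk)) (.l1 .sk)) (.nx
  621 32769 (.nx 613 408 (.l1 (.ls 89 41 1732)) (.nr 620 1048577 (.nr 616 262145 (.lg 0 false 3 97
  101 29 0 55440) (.nx 619 20644 (.lg 0 false 3 101 103 29 0 55440) .out)) .out)) (.nr 626 65537
  (.nr 624 735 (.lg 0 true 3 83 83 29 0 7920) (.nx 625 416129 (.lg 2 true 1 101 101 13 62278 18480)
  .out)) .out)))) .out) .out) (.nx 646 2642247 (.nr 645 2097153 (.nr 630 69 .s1 (.nx 631 408 (.l1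
  (.ls 83 43 2381)) (.nr 644 1048577 (.nx 637 32769 (.lg 0 false 6 89 97 29 0 55440) (.nr 643 65537
  (.nr 640 746 (.lg 0 true 3 73 73 29 0 55440) (.nx 642 416129 (.lg 2 false 2 83 83 23 61360 18480)
  .out)) .out)) .out))) .out) .out)))))) (.na 847 110 (.na 757 88 (.na 696 80 (.na 666 73 (.nx 665
  2642247 (.nr 664 2097153 (.nr 648 70 .s1 (.nx 657 32769 (.nx 649 408 (.l1 (.ls 79 31 2347)) (.nr
  656 1048577 (.lg 0 false 7 83 89 17 0 9240) .out)) (.nr 663 65537 (.nr 660 767 (.lg 0 true 3 71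
  71 16 0 3960) (.nx 662 416129 (.lg 2 false 2 83 83 16 59680 2640) .out)) .out))) .out) .out) (.na
  681 77 (.nx 680 2642247 (.nr 679 2097153 (.nr 667 72 .s1 (.nx 672 32769 (.nx 668 408 (.l1 (.ls 71
  29 2283)) (.nr 671 1048577 (.lg 0 false 3 97 97 16 0 3960) .out)) (.nr 678 65537 (.nr 675 809
  (.lg 0 true 3 67 67 16 0 3960) (.nx 677 416129 (.lg 2 false 2 83 83 16 56582 2640) .out)) .out)))
  .out) .out) (.nx 695 2642247 (.nr 694 2097153 (.nr 682 76 .s1 (.nx 687 32769 (.nx 683 408 (.l1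
  (.ls 73 37 2164)) (.nr 686 1048577 (.lg 0 false 3 89 89 19 0 27720) .out)) (.nr 693 65537 (.nr
  690 840 (.lg 0 true 3 71 71 19 0 27720) (.nx 692 416129 (.lg 2 true 2 79 79 17 54494 18480)
  .out)) .out))) .out) .out))) (.na 727 85 (.na 713 83 (.nx 712 2642247 (.nr 711 2097153 (.nr 697
  79 .s1 (.nx 700 221 (.nx 699 220 (.nr 698 872 (.l1 (.ls 31 31 607)) (.l1 .sk)) (.l1 .sk)) (.nx
  705 32769 (.nx 701 408 (.l1 (.ls 83 41 1473)) (.nr 704 1048577 (.lg 0 false 3 97 101 29 0 55440)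
  .out)) (.nr 710 65537 (.nr 708 872 (.lg 0 true 3 79 79 29 0 7920) (.nx 709 416129 (.lg 2 true 1
  89 89 23 52494 2640) .out)) .out)))) .out) .out) (.nx 726 2642247 (.nr 725 2097153 (.nr 714 82
  .s1 (.nx 715 408 (.l1 (.ls 73 29 2008)) (.nr 724 1048577 (.nx 718 32769 (.lg 0 false 3 97 97 16 0
  3960) (.nr 723 65537 (.nr 721 893 (.lg 0 true 3 67 67 16 0 3960) (.nx 722 416129 (.lg 2 true 1 83
  83 16 51259 1320) .out)) .out)) .out))) .out) .out)) (.na 742 86 (.nx 741 2642247 (.nr 740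
  2097153 (.nr 728 84 .s1 (.nx 733 32769 (.nx 729 408 (.l1 (.ls 79 37 1961)) (.nr 732 1048577 (.lg
  0 false 3 89 89 16 0 3960) .out)) (.nr 739 65537 (.nr 736 903 (.lg 0 true 3 71 71 16 0 3960) (.nx
  738 416129 (.lg 2 false 2 79 79 16 50692 2640) .out)) .out))) .out) .out) (.nx 756 2642247 (.nr
  755 2097153 (.nr 743 85 .s1 (.nx 744 408 (.l1 (.ls 83 37 1938)) (.nr 754 1048577 (.nx 747 32769
  (.lg 0 false 3 101 101 19 0 55440) (.nr 753 65537 (.nr 750 924 (.lg 0 true 3 73 73 19 0 7920)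
  (.nx 752 416129 (.lg 2 false 2 83 83 19 49540 18480) .out)) .out)) .out))) .out) .out)))) (.na
  803 98 (.na 772 89 (.nx 771 2642247 (.nr 770 2097153 (.nr 758 87 .s1 (.nx 763 32769 (.nx 759 408
  (.l1 (.ls 79 41 1894)) (.nr 762 1048577 (.lg 0 false 3 89 89 23 0 7920) .out)) (.nr 769 65537
  (.nr 766 935 (.lg 0 true 3 71 71 23 0 7920) (.nx 768 416129 (.lg 2 false 2 79 79 23 48957 2640)
  .out)) .out))) .out) .out) (.na 786 91 (.nx 785 2642247 (.nr 784 2097153 (.nr 773 88 .s1 (.nx 774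
  408 (.l1 (.ls 73 29 1873)) (.nr 783 1048577 (.nx 777 32769 (.lg 0 false 3 97 97 16 0 27720) (.nr
  782 65537 (.nr 780 956 (.lg 0 true 3 67 67 16 0 3960) (.nx 781 416129 (.lg 2 true 1 79 79 16
  48563 9240) .out)) .out)) .out))) .out) .out) (.nx 802 2642247 (.nr 801 2097153 (.nr 787 90 .s1
  (.nx 795 26009 (.nx 789 220 (.nr 788 1029 (.l1 (.ls 31 29 534)) (.l1 .sk)) (.nx 790 221 (.l1 .sk)
  (.nx 791 408 (.l1 (.ls 83 31 1295)) (.nr 794 1482912 (.lg 0 false 3 97 101 23 0 360360) .out))))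
  (.nr 800 65537 (.nr 798 1029 (.lg 0 true 3 79 79 23 0 360360) (.nx 799 416129 (.lg 2 true 1 89 89
  19 61185 120120) .out)) .out))) .out) .out))) (.na 819 104 (.na 818 100 (.nx 817 2642247 (.nr 816
  2097153 (.nr 804 97 .s1 (.nx 809 26009 (.nx 805 408 (.l1 (.ls 79 41 1701)) (.nr 808 1482912 (.lg
  0 false 3 89 89 23 0 55440) .out)) (.nr 815 65537 (.nr 812 513 (.lg 0 true 3 67 67 23 0 55440)
  (.nx 814 416129 (.lg 2 false 2 79 79 23 89229 18480) .out)) .out))) .out) .out) (.lg 0 false 1 0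
  0 16 0 24)) (.na 833 107 (.nx 832 2642247 (.nr 831 2097153 (.nr 820 103 .s1 (.nx 821 408 (.l1
  (.ls 83 41 1603)) (.nr 830 1482912 (.nx 824 26009 (.lg 0 false 3 97 101 29 0 102960) (.nr 829
  65537 (.nr 827 1124 (.lg 0 true 3 79 79 29 0 102960) (.nx 828 416129 (.lg 2 true 1 89 89 23 61185
  34320) .out)) .out)) .out))) .out) .out) (.nx 846 2642247 (.nr 845 2097153 (.nr 834 106 .s1 (.nx
  839 26009 (.nx 835 408 (.l1 (.ls 73 29 1558)) (.nr 838 1482912 (.lg 0 false 3 89 89 16 0 27720)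
  .out)) (.nr 844 65537 (.nr 842 1155 (.lg 0 true 3 67 67 16 0 3960) (.nx 843 416129 (.lg 2 true 1
  79 79 16 61185 9240) .out)) .out))) .out) .out))))) (.na 919 127 (.na 890 119 (.na 861 112 (.nx
  860 2642247 (.nr 859 2097153 (.nr 848 109 .s1 (.nx 853 26009 (.nx 849 408 (.l1 (.ls 71 43 1516))
  (.nr 852 1482912 (.lg 0 true 3 83 83 29 0 7920) .out)) (.nr 858 65537 (.nr 855 513 (.lg 0 false 2
  67 67 23 0 55440) (.nx 857 416129 (.lg 2 false 2 73 73 23 89229 18480) .out)) .out))) .out) .out)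
  (.na 876 118 (.nx 875 2642247 (.nr 874 2097153 (.nr 862 112 .s1 (.nx 866 408 (.nx 864 220 (.nr
  863 1239 (.l1 (.ls 41 31 435)) (.l1 .sk)) (.nx 865 221 (.l1 .sk) (.l1 (.ls 89 37 1053)))) (.nr
  873 1482912 (.nx 869 26009 (.lg 0 false 3 101 103 31 0 720720) (.nr 872 65537 (.nr 870 513 (.lg 0
  true 1 73 73 29 0 18480) (.nx 871 416129 (.lg 2 true 1 89 97 29 89229 18480) .out)) .out))
  .out))) .out) .out) (.nx 889 2642247 (.nr 888 2097153 (.nr 877 118 .s1 (.nx 882 26009 (.nx 878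
  408 (.l1 (.ls 79 37 1413)) (.nr 881 1482912 (.lg 0 false 3 89 89 23 0 7920) .out)) (.nr 887 65537
  (.nr 884 513 (.lg 0 true 2 67 67 19 0 2640) (.nx 886 416129 (.lg 2 true 2 79 79 19 89229 2640)
  .out)) .out))) .out) .out))) (.na 905 124 (.na 904 121 (.nx 903 2642247 (.nr 902 2097153 (.nr 891
  119 .s1 (.nx 892 408 (.l1 (.ls 83 37 1401)) (.nr 901 1482912 (.nx 895 26009 (.lg 0 false 3 97 101
  23 0 27720) (.nr 900 65537 (.nr 898 1271 (.lg 0 true 3 79 79 23 0 27720) (.nx 899 416129 (.lg 2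
  true 1 89 89 16 61185 9240) .out)) .out)) .out))) .out) .out) (.lg 0 false 1 0 0 16 0 24)) (.na
  918 125 (.nx 917 2642247 (.nr 916 2097153 (.nr 906 124 .s1 (.nx 907 408 (.l1 (.ls 89 41 1345))
  (.nr 915 1482912 (.nx 910 26009 (.lg 0 false 3 97 101 29 0 55440) (.nr 914 65537 (.nr 912 513
  (.lg 0 true 2 73 73 23 0 2640) (.nx 913 416129 (.lg 2 false 1 97 97 19 89229 18480) .out)) .out))
  .out))) .out) .out) (.lg 0 false 1 0 0 16 0 24)))) (.na 947 130 (.na 933 128 (.nx 932 2642247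
  (.nr 931 2097153 (.nr 920 127 .s1 (.nx 925 26009 (.nx 921 408 (.l1 (.ls 71 29 1313)) (.nr 924
  1482912 (.lg 0 false 3 83 83 17 0 3960) .out)) (.nr 930 65537 (.nr 928 1344 (.lg 0 true 3 67 67
  17 0 3960) (.nx 929 416129 (.lg 2 true 1 73 73 16 61185 1320) .out)) .out))) .out) .out) (.na 946
  129 (.nx 945 2642247 (.nr 944 2097153 (.nr 934 128 .s1 (.nx 940 26009 (.nx 936 220 (.nr 935 1355
  (.l1 (.ls 41 29 381)) (.l1 .sk)) (.nx 937 221 (.l1 .sk) (.lg 0 false 3 101 107 37 0 720720)))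
  (.nr 943 65537 (.nr 941 1025 (.lg 0 true 1 83 83 23 0 2640) (.nx 942 416129 (.lg 2 false 1 89 89
  23 61185 18480) .out)) .out))) .out) .out) .ne)) (.na 961 136 (.na 960 131 (.nx 959 1321124 (.nr
  958 2097153 (.nr 948 130 .s1 (.nx 954 26009 (.nx 950 220 (.nr 949 1376 (.l1 (.ls 29 37 375)) (.l1
  .sk)) (.nx 951 221 (.l1 .sk) (.lg 0 false 3 89 89 31 0 102960))) (.nr 957 65537 (.nr 955 1025
  (.lg 0 false 1 73 73 29 0 240240) (.nx 956 165142 (.lg 2 true 1 79 79 29 61185 34320) .out))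
  .out))) .out) .out) (.lg 0 false 1 0 0 16 0 24)) (.na 975 137 (.nx 974 1321124 (.nr 973 2097153
  (.nr 962 136 .s1 (.nx 965 221 (.nx 964 220 (.nr 963 1439 (.l1 (.ls 16 31 358)) (.l1 .sk)) (.l1
  .sk)) (.nx 968 26009 (.lg 0 false 3 97 101 31 0 7920) (.nr 972 65537 (.nr 970 1025 (.lg 0 true 2
  73 73 29 0 2640) (.nx 971 165142 (.lg 2 true 1 83 83 29 61185 2640) .out)) .out)))) .out) .out)
  (.lg 0 false 1 0 0 16 0 24))))))) (.na 1256 196 (.na 1086 167 (.na 1031 151 (.na 1004 143 (.na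
  977 140 (.lg 0 false 1 0 0 16 0 24) (.na 991 142 (.nx 990 1321124 (.nr 989 2097153 (.nr 978 140
  .s1 (.nx 981 221 (.nx 980 220 (.nr 979 1491 (.l1 (.ls 31 37 348)) (.l1 .sk)) (.l1 .sk)) (.nx 984
  26009 (.lg 0 false 3 97 101 31 0 55440) (.nr 988 65537 (.nr 986 1025 (.lg 0 true 2 71 71 31 0
  18480) (.nx 987 165142 (.lg 2 false 1 83 83 29 61185 18480) .out)) .out)))) .out) .out) (.nx 1003
  1321124 (.nr 1002 2097153 (.nr 992 142 .s1 (.nx 995 221 (.nx 994 220 (.nr 993 1502 (.l1 (.ls 29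
  29 343)) (.l1 .sk)) (.l1 .sk)) (.nx 998 26009 (.lg 0 false 3 97 97 23 0 55440) (.nr 1001 65537
  (.nr 999 1025 (.lg 0 false 1 73 73 19 0 2640) (.nx 1000 165142 (.lg 2 true 1 83 83 19 61185
  18480) .out)) .out)))) .out) .out))) (.na 1017 146 (.nx 1016 1321124 (.nr 1015 2097153 (.nr 1005
  143 .s1 (.nx 1008 221 (.nx 1007 220 (.nr 1006 1533 (.l1 (.ls 23 29 341)) (.l1 .sk)) (.l1 .sk))
  (.nx 1011 26009 (.lg 0 false 3 89 89 23 0 51480) (.nr 1014 65537 (.nr 1012 1025 (.lg 0 false 1 71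
  71 19 0 120120) (.nx 1013 165142 (.lg 2 true 1 73 73 19 61185 17160) .out)) .out)))) .out) .out)
  (.na 1030 149 (.nx 1029 1321124 (.nr 1028 2097153 (.nr 1018 146 .s1 (.nx 1024 26009 (.nx 1020 220
  (.nr 1019 1565 (.l1 (.ls 23 29 334)) (.l1 .sk)) (.nx 1021 221 (.l1 .sk) (.lg 0 false 3 89 89 23 0
  7920))) (.nr 1027 65537 (.nr 1025 1025 (.lg 0 false 1 73 73 19 0 7920) (.nx 1026 165142 (.lg 2
  true 1 83 83 19 61185 2640) .out)) .out))) .out) .out) (.lg 0 false 1 0 0 16 0 24)))) (.na 1058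
  157 (.na 1032 154 (.lg 0 false 1 0 0 16 0 24) (.na 1045 155 (.nx 1044 1321124 (.nr 1043 2097153
  (.nr 1033 154 .s1 (.nx 1035 220 (.nr 1034 1628 (.l1 (.ls 23 37 317)) (.l1 .sk)) (.nx 1036 221
  (.l1 .sk) (.nx 1039 26009 (.lg 0 false 3 89 89 31 0 55440) (.nr 1042 65537 (.nr 1040 1025 (.lg 0
  false 1 71 71 29 0 18480) (.nx 1041 165142 (.lg 2 true 1 79 79 29 61185 18480) .out)) .out)))))
  .out) .out) (.nx 1057 1321124 (.nr 1056 2097153 (.nr 1046 155 .s1 (.nx 1052 26009 (.nx 1048 220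
  (.nr 1047 1649 (.l1 (.ls 19 19 315)) (.l1 .sk)) (.nx 1049 221 (.l1 .sk) (.lg 0 false 3 83 83 19 0
  3960))) (.nr 1055 65537 (.nr 1053 1025 (.lg 0 false 1 71 71 17 0 3960) (.nx 1054 165142 (.lg 2
  true 1 73 73 17 61185 1320) .out)) .out))) .out) .out))) (.na 1072 163 (.na 1059 160 (.lg 0 false
  1 0 0 16 0 24) (.nx 1071 1321124 (.nr 1070 2097153 (.nr 1060 160 .s1 (.nx 1063 221 (.nx 1062 220
  (.nr 1061 1712 (.l1 (.ls 37 31 305)) (.l1 .sk)) (.l1 .sk)) (.nx 1066 26009 (.lg 0 false 3 89 97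
  31 0 7920) (.nr 1069 65537 (.nr 1067 1025 (.lg 0 true 1 71 71 29 0 2640) (.nx 1068 165142 (.lg 1
  false 1 89 89 29 61185 7920) .out)) .out)))) .out) .out)) (.na 1073 166 (.lg 0 false 1 0 0 16 0
  24) (.nx 1085 1321124 (.nr 1084 2097153 (.nr 1074 166 .s1 (.nx 1080 26009 (.nx 1076 220 (.nr 1075
  1754 (.l1 (.ls 23 29 294)) (.l1 .sk)) (.nx 1077 221 (.l1 .sk) (.lg 0 false 3 89 89 23 0 7920)))
  (.nr 1083 65537 (.nr 1081 1025 (.lg 0 false 1 71 71 19 0 18480) (.nx 1082 165142 (.lg 2 true 1 73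
  73 19 61185 2640) .out)) .out))) .out) .out))))) (.na 1165 178 (.na 1125 172 (.na 1099 169 (.nx
  1098 1321124 (.nr 1097 2097153 (.nr 1087 167 .s1 (.nx 1090 221 (.nx 1089 220 (.nr 1088 1775 (.l1
  (.ls 17 19 292)) (.l1 .sk)) (.l1 .sk)) (.nx 1093 26009 (.lg 0 false 3 79 79 17 0 3960) (.nr 1096
  65537 (.nr 1094 1025 (.lg 0 false 1 67 67 16 0 1320) (.nx 1095 165142 (.lg 2 true 1 71 71 16
  61185 1320) .out)) .out)))) .out) .out) (.na 1112 170 (.nx 1111 1321124 (.nr 1110 2097153 (.nr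
  1100 169 .s1 (.nx 1103 221 (.nx 1102 220 (.nr 1101 1785 (.l1 (.ls 23 23 289)) (.l1 .sk)) (.l1
  .sk)) (.nx 1106 26009 (.lg 0 false 3 83 83 19 0 51480) (.nr 1109 65537 (.nr 1107 1025 (.lg 0
  false 1 67 67 17 0 17160) (.nx 1108 165142 (.lg 2 true 1 73 73 17 61185 17160) .out)) .out))))
  .out) .out) (.nx 1124 1321124 (.nr 1123 2097153 (.nr 1113 170 .s1 (.nx 1115 220 (.nr 1114 1806
  (.l1 (.ls 16 31 287)) (.l1 .sk)) (.nx 1116 221 (.l1 .sk) (.nx 1119 26009 (.lg 0 false 3 89 89 31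
  0 7920) (.nr 1122 65537 (.nr 1120 1025 (.lg 0 false 1 71 71 29 0 2640) (.nx 1121 165142 (.lg 2
  true 1 79 79 29 61185 18480) .out)) .out))))) .out) .out))) (.na 1151 175 (.na 1138 173 (.nx 1137
  1321124 (.nr 1136 2097153 (.nr 1126 172 .s1 (.nx 1129 221 (.nx 1128 220 (.nr 1127 1817 (.l1 (.ls
  31 29 284)) (.l1 .sk)) (.l1 .sk)) (.nx 1132 26009 (.lg 0 false 3 97 101 29 0 7920) (.nr 1135
  65537 (.nr 1133 1025 (.lg 0 true 1 71 71 23 0 2640) (.nx 1134 165142 (.lg 2 true 1 83 83 23 61185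
  2640) .out)) .out)))) .out) .out) (.nx 1150 1321124 (.nr 1149 2097153 (.nr 1139 173 .s1 (.nx 1142
  221 (.nx 1141 220 (.nr 1140 1838 (.l1 (.ls 23 19 282)) (.l1 .sk)) (.l1 .sk)) (.nx 1145 26009 (.lg
  0 false 3 83 83 17 0 27720) (.nr 1148 65537 (.nr 1146 1025 (.lg 0 false 1 67 67 16 0 1320) (.nx
  1147 165142 (.lg 2 true 1 73 73 16 61185 9240) .out)) .out)))) .out) .out)) (.na 1152 176 (.lg 0
  false 1 0 0 16 0 24) (.nx 1164 1321124 (.nr 1163 2097153 (.nr 1153 176 .s1 (.nx 1155 220 (.nr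
  1154 1869 (.l1 (.ls 29 31 277)) (.l1 .sk)) (.nx 1156 221 (.l1 .sk) (.nx 1159 26009 (.lg 0 false 3
  89 89 31 0 7920) (.nr 1162 65537 (.nr 1160 1025 (.lg 0 true 1 67 67 29 0 2640) (.nx 1161 165142
  (.lg 2 false 1 73 73 29 61185 2640) .out)) .out))))) .out) .out)))) (.na 1204 182 (.na 1178 179
  (.nx 1177 1321124 (.nr 1176 2097153 (.nr 1166 178 .s1 (.nx 1169 221 (.nx 1168 220 (.nr 1167 1880
  (.l1 (.ls 23 29 274)) (.l1 .sk)) (.l1 .sk)) (.nx 1172 26009 (.lg 0 false 3 83 83 23 0 7920) (.nr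
  1175 65537 (.nr 1173 1025 (.lg 0 false 1 67 67 19 0 2640) (.nx 1174 165142 (.lg 2 true 1 73 73 19
  61185 2640) .out)) .out)))) .out) .out) (.na 1191 181 (.nx 1190 1321124 (.nr 1189 2097153 (.nr
  1179 179 .s1 (.nx 1182 221 (.nx 1181 220 (.nr 1180 1901 (.l1 (.ls 19 19 273)) (.l1 .sk)) (.l1
  .sk)) (.nx 1185 26009 (.lg 0 false 3 83 83 17 0 3960) (.nr 1188 65537 (.nr 1186 1025 (.lg 0 false
  1 61 61 16 0 1320) (.nx 1187 165142 (.lg 2 true 1 71 71 16 61185 1320) .out)) .out)))) .out)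
  .out) (.nx 1203 1321124 (.nr 1202 2097153 (.nr 1192 181 .s1 (.nx 1198 26009 (.nx 1194 220 (.nr
  1193 1911 (.l1 (.ls 17 19 270)) (.l1 .sk)) (.nx 1195 221 (.l1 .sk) (.lg 0 false 3 79 79 17 0
  3960))) (.nr 1201 65537 (.nr 1199 1025 (.lg 0 false 1 61 61 16 0 1320) (.nx 1200 165142 (.lg 2
  true 1 71 71 16 61185 1320) .out)) .out))) .out) .out))) (.na 1230 191 (.na 1217 187 (.nx 1216
  1321124 (.nr 1215 1482912 (.nr 1205 182 .s1 (.nx 1208 221 (.nx 1207 220 (.nr 1206 1964 (.l1 (.ls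
  37 31 268)) (.l1 .sk)) (.l1 .sk)) (.nx 1211 26009 (.lg 0 false 3 89 97 37 0 720720) (.nr 1214
  65537 (.nr 1212 1025 (.lg 0 true 1 71 71 31 0 240240) (.nx 1213 165142 (.lg 2 false 1 83 83 31
  61185 240240) .out)) .out)))) .out) .out) (.nx 1229 1321124 (.nr 1228 1482912 (.nr 1218 187 .s1
  (.nx 1221 221 (.nx 1220 220 (.nr 1219 2006 (.l1 (.ls 16 23 261)) (.l1 .sk)) (.l1 .sk)) (.nx 1224
  41287 (.lg 0 false 3 89 89 23 0 27720) (.nr 1227 16385 (.nr 1225 1025 (.lg 0 false 1 71 71 16 0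
  27720) (.nx 1226 165142 (.lg 2 true 1 59 59 16 17723 9240) .out)) .out)))) .out) .out)) (.na 1243
  193 (.nx 1242 1321124 (.nr 1241 1482912 (.nr 1231 191 .s1 (.nx 1237 41287 (.nx 1233 220 (.nr 1232
  2027 (.l1 (.ls 23 17 256)) (.l1 .sk)) (.nx 1234 221 (.l1 .sk) (.lg 0 false 3 83 83 17 0 27720)))
  (.nr 1240 16385 (.nr 1238 1025 (.lg 0 false 1 67 67 16 0 27720) (.nx 1239 165142 (.lg 2 true 1 53
  53 16 17723 1320) .out)) .out))) .out) .out) (.nx 1255 1321124 (.nr 1254 1482912 (.nr 1244 193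
  .s1 (.nx 1246 220 (.nr 1245 2058 (.l1 (.ls 19 17 253)) (.l1 .sk)) (.nx 1247 221 (.l1 .sk) (.nx
  1250 41287 (.lg 0 false 3 83 83 17 0 3960) (.nr 1253 16385 (.nr 1251 1025 (.lg 0 false 1 61 61 16
  0 1320) (.nx 1252 165142 (.lg 2 false 1 53 53 16 17723 1320) .out)) .out))))) .out) .out))))))
  (.na 1396 229 (.na 1321 215 (.na 1295 200 (.na 1269 197 (.nx 1268 1321124 (.nr 1267 1482912 (.nr
  1257 196 .s1 (.nx 1260 221 (.nx 1259 220 (.nr 1258 2069 (.l1 (.ls 31 29 249)) (.l1 .sk)) (.l1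
  .sk)) (.nx 1263 26009 (.lg 0 false 3 89 89 31 0 55440) (.nr 1266 65537 (.nr 1264 1025 (.lg 0 true
  1 67 67 29 0 18480) (.nx 1265 165142 (.lg 2 true 1 79 79 29 61185 18480) .out)) .out)))) .out)
  .out) (.na 1282 199 (.nx 1281 1321124 (.nr 1280 1482912 (.nr 1270 197 .s1 (.nx 1273 221 (.nx 1272
  220 (.nr 1271 2090 (.l1 (.ls 17 17 248)) (.l1 .sk)) (.l1 .sk)) (.nx 1276 41287 (.lg 0 false 3 79
  79 17 0 3960) (.nr 1279 16385 (.nr 1277 1025 (.lg 0 false 1 61 61 16 0 1320) (.nx 1278 165142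
  (.lg 2 false 1 47 47 16 17723 1320) .out)) .out)))) .out) .out) (.nx 1294 1321124 (.nr 1293
  1482912 (.nr 1283 199 .s1 (.nx 1289 41287 (.nx 1285 220 (.nr 1284 2100 (.l1 (.ls 19 17 246)) (.l1
  .sk)) (.nx 1286 221 (.l1 .sk) (.lg 0 false 3 83 83 17 0 3960))) (.nr 1292 16385 (.nr 1290 1025
  (.lg 0 false 1 61 61 16 0 1320) (.nx 1291 165142 (.lg 2 false 1 53 53 16 17723 1320) .out))
  .out))) .out) .out))) (.na 1307 211 (.na 1296 208 (.lg 0 false 1 0 0 16 0 24) (.nx 1306 1321124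
  (.nr 1305 1482912 (.nr 1297 208 .s1 (.nx 1299 220 (.nr 1298 2216 (.l1 (.ls 41 31 235)) (.l1 .sk))
  (.nx 1300 221 (.l1 .sk) (.nx 1303 165142 (.nr 1301 65537 (.lg 0 true 1 97 97 31 0 240240) (.nx
  1302 26009 (.lg 0 false 1 101 101 31 0 240240) .out)) (.nr 1304 1025 (.lg 0 true 1 73 73 31 0
  34320) .out))))) .out) .out)) (.na 1308 214 (.lg 0 false 1 0 0 16 0 24) (.nx 1320 1321124 (.nr
  1319 1482912 (.nr 1309 214 .s1 (.nx 1315 41287 (.nx 1311 220 (.nr 1310 2258 (.l1 (.ls 23 29 229))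
  (.l1 .sk)) (.nx 1312 221 (.l1 .sk) (.lg 0 false 3 83 83 29 0 7920))) (.nr 1318 16385 (.nr 1316
  1025 (.lg 0 false 1 67 67 23 0 55440) (.nx 1317 165142 (.lg 2 false 1 53 53 23 17723 2640) .out))
  .out))) .out) .out)))) (.na 1360 221 (.na 1334 217 (.nx 1333 1321124 (.nr 1332 1482912 (.nr 1322
  215 .s1 (.nx 1324 220 (.nr 1323 2279 (.l1 (.ls 19 19 228)) (.l1 .sk)) (.nx 1325 221 (.l1 .sk)
  (.nx 1328 41287 (.lg 0 false 3 83 83 19 0 3960) (.nr 1331 16385 (.nr 1329 1025 (.lg 0 false 1 67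
  67 17 0 9240) (.nx 1330 165142 (.lg 2 false 1 59 59 17 17723 9240) .out)) .out))))) .out) .out)
  (.na 1347 220 (.nx 1346 1321124 (.nr 1345 1482912 (.nr 1335 217 .s1 (.nx 1341 26009 (.nx 1337 220
  (.nr 1336 2310 (.l1 (.ls 29 19 226)) (.l1 .sk)) (.nx 1338 221 (.l1 .sk) (.lg 0 false 3 89 89 23 0
  27720))) (.nr 1344 65537 (.nr 1342 1025 (.lg 0 true 1 67 67 19 0 9240) (.nx 1343 165142 (.lg 2
  true 1 79 79 19 61185 9240) .out)) .out))) .out) .out) (.nx 1359 1321124 (.nr 1358 1482912 (.nr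
  1348 220 .s1 (.nx 1350 220 (.nr 1349 2321 (.l1 (.ls 19 31 222)) (.l1 .sk)) (.nx 1351 221 (.l1
  .sk) (.nx 1354 41287 (.lg 0 false 3 83 83 31 0 7920) (.nr 1357 16385 (.nr 1355 1025 (.lg 0 false
  1 61 61 29 0 2640) (.nx 1356 165142 (.lg 2 false 1 53 53 29 17723 2640) .out)) .out))))) .out)
  .out))) (.na 1374 224 (.na 1373 223 (.nx 1372 1321124 (.nr 1371 1482912 (.nr 1361 221 .s1 (.nx
  1363 220 (.nr 1362 2342 (.l1 (.ls 16 23 222)) (.l1 .sk)) (.nx 1364 221 (.l1 .sk) (.nx 1367 26009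
  (.lg 0 false 3 89 89 29 0 51480) (.nr 1370 65537 (.nr 1368 1025 (.lg 0 true 1 67 67 23 0 17160)
  (.nx 1369 165142 (.lg 2 false 1 79 79 23 61185 17160) .out)) .out))))) .out) .out) (.lg 0 false 1
  0 0 16 0 24)) (.na 1385 227 (.nx 1384 1321124 (.nr 1383 1482912 (.nr 1375 224 .s1 (.nx 1378 221
  (.nx 1377 220 (.nr 1376 2384 (.l1 (.ls 41 29 219)) (.l1 .sk)) (.l1 .sk)) (.nx 1379 26009 (.lg 0
  false 1 97 101 31 0 18480) (.nr 1382 65537 (.nr 1380 1025 (.lg 0 true 1 73 73 37 0 18480) (.nx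
  1381 165142 (.lg 1 true 1 89 89 31 61185 18480) .out)) .out)))) .out) .out) (.nx 1395 1321124
  (.nr 1394 1482912 (.nr 1386 227 .s1 (.nx 1389 221 (.nx 1388 220 (.nr 1387 2405 (.l1 (.ls 19 17
  216)) (.l1 .sk)) (.l1 .sk)) (.nx 1392 41287 (.lg 0 false 3 79 79 19 0 3960) (.nr 1393 16385 (.lg
  0 false 1 79 79 17 0 1320) .out)))) .out) .out))))) (.na 1449 245 (.na 1434 238 (.na 1409 233
  (.nx 1408 1321124 (.nr 1407 1482912 (.nr 1397 229 .s1 (.nx 1399 220 (.nr 1398 2447 (.l1 (.ls 19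
  17 214)) (.l1 .sk)) (.nx 1400 221 (.l1 .sk) (.nx 1403 41287 (.lg 0 false 3 83 83 19 0 27720) (.nr
  1406 16385 (.nr 1404 1025 (.lg 0 false 1 61 61 17 0 9240) (.nx 1405 165142 (.lg 2 true 1 47 47 17
  17723 1320) .out)) .out))))) .out) .out) (.na 1422 236 (.nx 1421 1321124 (.nr 1420 1482912 (.nr
  1410 233 .s1 (.nx 1416 41287 (.nx 1412 220 (.nr 1411 2478 (.l1 (.ls 19 17 210)) (.l1 .sk)) (.nx
  1413 221 (.l1 .sk) (.lg 0 false 3 79 79 19 0 3960))) (.nr 1419 16385 (.nr 1417 1025 (.lg 0 false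
  1 61 61 17 0 9240) (.nx 1418 165142 (.lg 2 false 1 47 47 17 17723 9240) .out)) .out))) .out)
  .out) (.nx 1433 1321124 (.nr 1432 1482912 (.nr 1423 236 .s1 (.nx 1426 221 (.nx 1425 220 (.nr 1424
  2499 (.l1 (.ls 31 23 208)) (.l1 .sk)) (.l1 .sk)) (.nx 1428 26009 (.lg 0 false 2 97 97 29 0 55440)
  (.nr 1431 65537 (.nr 1429 1025 (.lg 0 true 1 71 71 23 0 2640) (.nx 1430 165142 (.lg 2 false 1 79
  79 23 61185 2640) .out)) .out)))) .out) .out))) (.na 1447 241 (.na 1446 239 (.nx 1445 1321124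
  (.nr 1444 1482912 (.nr 1435 238 .s1 (.nx 1437 220 (.nr 1436 2510 (.l1 (.ls 16 31 206)) (.l1 .sk))
  (.nx 1438 221 (.l1 .sk) (.nx 1440 26009 (.lg 0 false 2 89 97 37 0 18480) (.nr 1443 65537 (.nr
  1441 1025 (.lg 0 true 1 71 71 31 0 18480) (.nx 1442 165142 (.lg 2 true 1 79 79 31 61185 18480)
  .out)) .out))))) .out) .out) (.lg 0 false 1 0 0 16 0 24)) (.na 1448 242 (.lg 0 false 1 0 0 16 0
  24) (.lg 0 false 1 0 0 16 0 24)))) (.na 1473 251 (.na 1460 248 (.nx 1459 1321124 (.nr 1458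
  1482912 (.nr 1450 245 .s1 (.nx 1456 41287 (.nx 1452 220 (.nr 1451 2604 (.l1 (.ls 19 23 200)) (.l1
  .sk)) (.nx 1453 221 (.l1 .sk) (.lg 0 false 3 79 79 23 0 27720))) (.nr 1457 16385 (.lg 0 false 1
  79 79 19 0 9240) .out))) .out) .out) (.na 1472 250 (.nx 1471 1321124 (.nr 1470 1482912 (.nr 1461
  248 .s1 (.nx 1464 221 (.nx 1463 220 (.nr 1462 2625 (.l1 (.ls 29 23 198)) (.l1 .sk)) (.l1 .sk))
  (.nx 1466 26009 (.lg 0 false 2 89 89 29 0 2640) (.nr 1469 65537 (.nr 1467 1025 (.lg 0 true 1 67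
  67 23 0 2640) (.nx 1468 165142 (.lg 2 true 1 79 79 23 61185 2640) .out)) .out)))) .out) .out)
  (.lg 0 false 1 0 0 16 0 24))) (.na 1497 256 (.na 1486 254 (.nx 1485 1321124 (.nr 1484 1482912
  (.nr 1474 251 .s1 (.nx 1480 41287 (.nx 1476 220 (.nr 1475 2667 (.l1 (.ls 17 17 195)) (.l1 .sk))
  (.nx 1477 221 (.l1 .sk) (.lg 0 false 3 79 79 19 0 3960))) (.nr 1483 16385 (.nr 1481 1025 (.lg 0
  false 1 59 59 17 0 1320) (.nx 1482 165142 (.lg 2 true 1 47 47 17 17723 1320) .out)) .out))) .out)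
  .out) (.nx 1496 1321124 (.nr 1495 1482912 (.nr 1487 254 .s1 (.nx 1493 41287 (.nx 1489 220 (.nr
  1488 2688 (.l1 (.ls 23 23 193)) (.l1 .sk)) (.nx 1490 221 (.l1 .sk) (.lg 0 false 3 83 83 29 0
  55440))) (.nr 1494 16385 (.lg 0 false 1 83 83 23 0 55440) .out))) .out) .out)) (.na 1508 257 (.nx
  1507 1321124 (.nr 1506 1482912 (.nr 1498 256 .s1 (.nx 1501 221 (.nx 1500 220 (.nr 1499 2699 (.l1
  (.ls 37 23 192)) (.l1 .sk)) (.l1 .sk)) (.nx 1504 165142 (.nr 1502 65537 (.lg 0 true 1 83 89 29 0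
  2640) (.nx 1503 26009 (.lg 0 false 1 101 103 31 0 720720) .out)) (.nr 1505 2049 (.lg 0 true 1 73
  79 29 0 2640) .out)))) .out) .out) (.nx 1938 1321124 (.nr 1937 1482912 (.nr 1509 257 .s1 (.nx
  1617 221 (.nx 1616 220 (.nr 1615 3812 (.la (.ls 37 19 191)) (.l1 .sk)) (.l1 .sk)) (.nx 1723 26009
  (.la (.lg 0 false 2 83 83 23 0)) (.nr 1936 32769 (.nr 1829 2049 (.la (.lg 0 true 1 61 61 23 0))
  (.nx 1935 165142 (.la (.lg 2 false 1 61 61 23 30696)) .out)) .out)))) .out) .out))))))))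

def T27_1 : Ph :=
  (.na 637 5 (.na 362 4 (.nx 361 6658044 (.nr 360 1482912 (.nx 3 232 (.nx 2 231 (.nr 1 41 (.lg 0
  false 1 43 43 5 0 5544) (.l1 .sk)) (.l1 .sk)) (.nx 319 1664512 (.nx 298 832257 (.nx 90 44590 (.nr
  55 262145 (.lg 0 false 52 101 107 16 0 720720) (.nx 75 408 (.lg 0 false 20 83 83 16 0 55440) (.nx
  76 32768 .out (.nr 89 311745 (.lg 0 false 13 101 103 13 0 720720) .out)))) (.nr 297 311745 (.nr
  110 668 (.lg 0 true 20 89 89 16 0 55440) (.nx 130 60679 (.lg 1 false 20 101 103 16 186674 720720)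
  (.nr 143 2898 (.lg 2 true 13 97 101 13 143901 720720) (.nx 296 660563 (.nr 151 10626 (.lg 2 true
  8 97 97 7 26327 55440) (.nx 275 262145 (.nx 233 165142 (.nx 171 82572 (.lg 1 false 20 101 107 16
  137177 720720) (.nr 232 262145 (.nx 192 104031 (.nr 191 220437 (.lg 1 false 20 101 107 16 71303
  720720) .out) (.nx 212 131072 (.lg 1 false 20 101 103 16 67292 720720) (.lg 1 false 20 101 103 16
  53409 720720))) .out)) (.nr 274 220437 (.nx 253 208065 (.lg 1 true 20 101 107 16 35652 720720)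
  (.nr 273 185365 (.lg 1 true 20 101 103 16 23800 720720) .out)) .out)) (.nr 295 110219 (.lg 2
  false 20 97 103 16 11242 720720) .out))) .out)))) .out)) (.nr 318 154 (.lg 0 true 20 79 83 16 0
  55440) .out)) (.nr 359 33 (.lg 0 true 40 79 79 7 0 55440) .out))) .out) .out) (.nx 636 21137969
  (.nr 635 1246976 (.nx 608 14946802 (.nx 554 660563 (.nx 364 231 (.nr 363 52 (.lg 0 true 1 41 41 9
  0 3696) (.l1 .sk)) (.nx 365 232 (.l1 .sk) (.nx 430 38881 (.nr 391 185365 (.lg 0 false 26 101 107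
  17 0 720720) (.nr 416 262145 (.nx 403 20642 (.nx 396 1292 (.lg 0 false 5 89 97 11 0 55440) (.nx
  397 13003 .out (.nr 402 220437 (.lg 0 false 5 97 101 11 0 55440) .out))) (.lg 0 false 13 101 103
  13 0 720720)) (.nx 429 408 (.lg 0 false 13 83 89 13 0 48048) .out))) (.nr 553 311745 (.nr 448
  2912 (.nr 443 730 (.lg 0 true 13 97 97 13 0 720720) (.lg 2 true 5 97 101 11 104514 55440)) (.nx
  542 330282 (.nx 528 262145 (.nx 475 82570 (.nr 474 262145 (.nx 461 56660 (.lg 1 false 13 103 107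
  13 180048 720720) (.lg 1 false 13 103 107 13 123551 720720)) .out) (.nx 488 112360 (.lg 1 false
  13 103 107 13 100809 720720) (.nx 501 152899 (.lg 1 false 13 103 107 13 74081 720720) (.nx 514
  208065 (.lg 1 true 13 103 107 13 54440 720720) (.nr 527 185365 (.lg 1 true 13 101 107 13 23800
  720720) .out))))) (.nr 541 131073 (.lg 1 true 13 97 107 13 13364 720720) .out)) (.nr 552 46342
  (.nr 547 11616 (.lg 2 true 5 97 101 11 26201 55440) (.lg 2 false 5 97 101 11 6569 55440)) .out)))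
  .out)))) (.nr 607 183 (.nr 593 33 (.lg 0 true 39 79 79 13 0 144144) (.nx 606 2642247 (.lg 0 true
  13 89 89 13 0 48048) .out)) .out)) (.nr 634 21 (.lg 0 true 26 83 83 11 0 48048) .out)) .out)
  .out)) (.na 885 6 (.nx 884 21137969 (.nr 883 1482912 (.nx 639 231 (.nr 638 63 (.lg 0 true 1 41 41
  9 0 9240) (.l1 .sk)) (.nx 640 232 (.l1 .sk) (.nx 681 35999 (.nx 667 16384 (.nr 653 185365 (.lg 0
  false 13 101 107 16 0 720720) (.nx 666 408 (.lg 0 false 13 83 89 16 0 120120) .out)) (.nr 680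
  220437 (.lg 0 false 13 103 107 16 0 720720) .out)) (.nr 882 311745 (.nx 829 2642247 (.nx 815
  660563 (.nr 694 829 (.lg 0 true 13 89 89 16 0 120120) (.nr 698 3171 (.lg 2 true 4 97 97 13 92033
  18480) (.nr 702 12122 (.lg 2 true 4 97 101 13 24061 55440) (.nx 729 65536 (.nr 728 220437 (.nx
  715 48572 (.lg 1 false 13 101 107 16 163550 720720) (.lg 1 false 13 101 107 16 121214 720720))
  .out) (.nx 796 262145 (.nx 743 82570 (.nr 742 262145 (.lg 1 false 13 101 107 16 106818 720720)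
  .out) (.nx 782 208065 (.nx 756 112360 (.lg 1 false 13 101 107 16 100809 720720) (.nx 769 152899
  (.lg 1 false 13 101 107 16 74081 720720) (.lg 1 true 13 101 107 16 54440 720720))) (.nr 795
  262145 (.lg 1 true 13 101 107 16 33645 720720) .out))) (.nr 814 131073 (.nx 809 330282 (.lg 1
  true 13 97 103 16 13364 720720) (.nr 813 46342 (.lg 2 false 4 97 101 13 6294 55440) .out))
  .out)))))) (.nr 828 217 (.lg 0 true 13 89 89 16 0 120120) .out)) (.nr 881 24 (.nx 855 10568985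
  (.lg 0 true 26 83 83 16 0 240240) (.lg 0 true 26 83 83 16 0 240240)) .out)) .out)))) .out) .out)
  (.na 1078 7 (.nx 1077 21137969 (.nr 1076 1048577 (.nx 888 232 (.nx 887 231 (.nr 886 74 (.lg 0
  true 1 41 41 7 0 11088) (.l1 .sk)) (.l1 .sk)) (.nx 915 52015 (.nr 901 220437 (.lg 0 false 13 103
  107 13 0 720720) (.nx 914 814 (.lg 0 false 13 89 89 13 0 720720) .out)) (.nr 1075 311745 (.nx
  1008 832257 (.nr 928 941 (.lg 0 true 13 89 89 13 0 144144) (.nx 981 262145 (.nx 942 82570 (.nr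
  941 262145 (.lg 1 false 13 101 103 13 134585 720720) .out) (.nx 955 112360 (.lg 1 false 13 101
  103 13 100809 720720) (.nx 968 152899 (.lg 1 false 13 101 103 13 74081 720720) (.lg 1 true 13 101
  103 13 54440 720720)))) (.nr 1007 131073 (.nr 994 6606 (.lg 2 true 13 89 97 13 102153 720720)
  (.lg 2 false 13 97 101 13 14552 720720)) .out))) (.nr 1074 257 (.nr 1060 74 (.lg 0 true 52 83 83
  13 0 144144) (.nx 1073 2642247 (.lg 0 true 13 79 79 13 0 144144) .out)) .out)) .out))) .out)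
  .out) (.nx 1249 21137969 (.nr 1248 1246976 (.nx 1080 231 (.nr 1079 85 (.lg 0 true 1 41 41 9 0
  55440) (.l1 .sk)) (.nx 1081 232 (.l1 .sk) (.nx 1120 52015 (.nr 1106 262145 (.nr 1101 220437 (.lg
  0 false 20 101 107 16 0 720720) (.nx 1105 2582 (.lg 0 true 4 79 79 11 0 3696) .out)) (.nx 1119
  814 (.lg 0 false 13 83 83 16 0 24024) .out)) (.nr 1247 311745 (.nr 1177 642 (.nx 1140 2642247
  (.lg 0 true 20 83 83 16 0 18480) (.nr 1176 47 (.lg 0 true 36 73 73 11 0 11088) .out)) (.nx 1246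
  832257 (.nx 1191 82570 (.nr 1190 262145 (.lg 1 false 13 101 103 16 134585 720720) .out) (.nr 1199
  5950 (.lg 2 true 8 89 89 13 149729 3696) (.nx 1232 262145 (.nx 1212 121356 (.lg 1 false 13 101
  103 16 100809 720720) (.lg 1 true 20 101 107 16 68590 720720)) (.nr 1245 155873 (.lg 2 false 13
  97 101 16 16156 720720) .out)))) .out)) .out)))) .out) .out))))

theorem c27 :
    OkQ ckI L10 220 17 363 0 34359738368 1 1099511627776 ∧
    OkQ ckI L10 231 3 8 0 34359738368 1 1099511627776 := by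
  refine ⟨?_, ?_⟩
  · refine fin 1320 1939 T27_0 ?_
    refine jn 5 (by decide +kernel) ?_
    refine jn 10 (by decide +kernel) ?_
    refine jn 14 (by decide +kernel) ?_
    refine jn 21 (by decide +kernel) ?_
    refine jn 28 (by decide +kernel) ?_
    refine jn 36 (by decide +kernel) ?_
    refine jn 45 (by decide +kernel) ?_
    refine jn 53 (by decide +kernel) ?_
    refine jn 62 (by decide +kernel) ?_
    refine jn 67 (by decide +kernel) ?_
    refine jn 69 (by decide +kernel) ?_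
    refine jn 76 (by decide +kernel) ?_
    refine jn 84 (by decide +kernel) ?_
    refine jn 91 (by decide +kernel) ?_
    refine jn 98 (by decide +kernel) ?_
    refine jn 111 (by decide +kernel) ?_
    refine jn 131 (by decide +kernel) ?_
    refine jn 145 (by decide +kernel) ?_
    refine jn 160 (by decide +kernel) ?_
    refine jn 165 (by decide +kernel) ?_
    refine jn 174 (by decide +kernel) ?_
    refine jn 180 (by decide +kernel) ?_
    refine jn 189 (by decide +kernel) ?_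
    refine jn 201 (by decide +kernel) ?_
    refine jn 204 (by decide +kernel) ?_
    refine jn 205 (by decide +kernel) ?_
    refine jn 206 (by decide +kernel) ?_
    refine jn 207 (by decide +kernel) ?_
    refine jn 209 (by decide +kernel) ?_
    refine jn 210 (by decide +kernel) ?_
    refine jn 213 (by decide +kernel) ?_
    refine jn 216 (by decide +kernel) ?_
    refine jn 224 (by decide +kernel) ?_
    refine jn 228 (by decide +kernel) ?_
    refine jn 240 (by decide +kernel) ?_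
    refine jn 247 (by decide +kernel) ?_
    refine jn 252 (by decide +kernel) ?_
    refine jn 259 (by decide +kernel) ?_
    refine jn 266 (by decide +kernel) ?_
    refine jn 274 (by decide +kernel) ?_
    refine jn 275 (by decide +kernel) ?_
    refine jn 276 (by decide +kernel) ?_
    refine jn 277 (by decide +kernel) ?_
    refine jn 278 (by decide +kernel) ?_
    refine jn 281 (by decide +kernel) ?_
    refine jn 282 (by decide +kernel) ?_
    refine jn 283 (by decide +kernel) ?_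
    refine jn 284 (by decide +kernel) ?_
    refine jn 287 (by decide +kernel) ?_
    refine jn 290 (by decide +kernel) ?_
    refine jn 291 (by decide +kernel) ?_
    refine jn 296 (by decide +kernel) ?_
    refine jn 299 (by decide +kernel) ?_
    refine jn 300 (by decide +kernel) ?_
    refine jn 313 (by decide +kernel) ?_
    refine jn 320 (by decide +kernel) ?_
    refine jn 335 (by decide +kernel) ?_
    refine jn 347 (by decide +kernel) ?_
    refine jn 353 (by decide +kernel) ?_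
    refine jn 362 (by decide +kernel) ?_
    refine jn 375 (by decide +kernel) ?_
    refine jn 383 (by decide +kernel) ?_
    refine jn 399 (by decide +kernel) ?_
    refine jn 406 (by decide +kernel) ?_
    refine jn 423 (by decide +kernel) ?_
    refine jn 430 (by decide +kernel) ?_
    refine jn 444 (by decide +kernel) ?_
    refine jn 450 (by decide +kernel) ?_
    refine jn 457 (by decide +kernel) ?_
    refine jn 466 (by decide +kernel) ?_
    refine jn 468 (by decide +kernel) ?_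
    refine jn 472 (by decide +kernel) ?_
    refine jn 475 (by decide +kernel) ?_
    refine jn 479 (by decide +kernel) ?_
    refine jn 501 (by decide +kernel) ?_
    refine jn 509 (by decide +kernel) ?_
    refine jn 510 (by decide +kernel) ?_
    refine jn 511 (by decide +kernel) ?_
    refine jn 512 (by decide +kernel) ?_
    refine jn 518 (by decide +kernel) ?_
    refine jn 525 (by decide +kernel) ?_
    refine jn 539 (by decide +kernel) ?_
    refine jn 544 (by decide +kernel) ?_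
    refine jn 559 (by decide +kernel) ?_
    refine jn 565 (by decide +kernel) ?_
    refine jn 573 (by decide +kernel) ?_
    refine jn 574 (by decide +kernel) ?_
    refine jn 575 (by decide +kernel) ?_
    refine jn 576 (by decide +kernel) ?_
    refine jn 577 (by decide +kernel) ?_
    refine jn 578 (by decide +kernel) ?_
    refine jn 579 (by decide +kernel) ?_
    refine jn 580 (by decide +kernel) ?_
    refine jn 581 (by decide +kernel) ?_
    refine jn 585 (by decide +kernel) ?_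
    refine jn 598 (by decide +kernel) ?_
    refine jn 604 (by decide +kernel) ?_
    refine jn 613 (by decide +kernel) ?_
    refine jn 616 (by decide +kernel) ?_
    refine jn 621 (by decide +kernel) ?_
    refine jn 624 (by decide +kernel) ?_
    refine jn 631 (by decide +kernel) ?_
    refine jn 640 (by decide +kernel) ?_
    refine jn 656 (by decide +kernel) ?_
    refine jn 662 (by decide +kernel) ?_
    refine jn 675 (by decide +kernel) ?_
    refine jn 686 (by decide +kernel) ?_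
    refine jn 697 (by decide +kernel) ?_
    refine jn 704 (by decide +kernel) ?_
    refine jn 708 (by decide +kernel) ?_
    refine jn 718 (by decide +kernel) ?_
    refine jn 728 (by decide +kernel) ?_
    refine jn 736 (by decide +kernel) ?_
    refine jn 750 (by decide +kernel) ?_
    refine jn 762 (by decide +kernel) ?_
    refine jn 773 (by decide +kernel) ?_
    refine jn 780 (by decide +kernel) ?_
    refine jn 794 (by decide +kernel) ?_
    refine jn 798 (by decide +kernel) ?_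
    refine jn 808 (by decide +kernel) ?_
    refine jn 820 (by decide +kernel) ?_
    refine jn 824 (by decide +kernel) ?_
    refine jn 828 (by decide +kernel) ?_
    refine jn 843 (by decide +kernel) ?_
    refine jn 857 (by decide +kernel) ?_
    refine jn 866 (by decide +kernel) ?_
    refine jn 867 (by decide +kernel) ?_
    refine jn 868 (by decide +kernel) ?_
    refine jn 869 (by decide +kernel) ?_
    refine jn 870 (by decide +kernel) ?_
    refine jn 871 (by decide +kernel) ?_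
    refine jn 886 (by decide +kernel) ?_
    refine jn 895 (by decide +kernel) ?_
    refine jn 899 (by decide +kernel) ?_
    refine jn 910 (by decide +kernel) ?_
    refine jn 913 (by decide +kernel) ?_
    refine jn 929 (by decide +kernel) ?_
    refine jn 937 (by decide +kernel) ?_
    refine jn 938 (by decide +kernel) ?_
    refine jn 939 (by decide +kernel) ?_
    refine jn 940 (by decide +kernel) ?_
    refine jn 941 (by decide +kernel) ?_
    refine jn 942 (by decide +kernel) ?_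
    refine jn 956 (by decide +kernel) ?_
    refine jn 968 (by decide +kernel) ?_
    refine jn 971 (by decide +kernel) ?_
    refine jn 984 (by decide +kernel) ?_
    refine jn 987 (by decide +kernel) ?_
    refine jn 1000 (by decide +kernel) ?_
    refine jn 1013 (by decide +kernel) ?_
    refine jn 1026 (by decide +kernel) ?_
    refine jn 1041 (by decide +kernel) ?_
    refine jn 1054 (by decide +kernel) ?_
    refine jn 1066 (by decide +kernel) ?_
    refine jn 1068 (by decide +kernel) ?_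
    refine jn 1082 (by decide +kernel) ?_
    refine jn 1095 (by decide +kernel) ?_
    refine jn 1108 (by decide +kernel) ?_
    refine jn 1121 (by decide +kernel) ?_
    refine jn 1133 (by decide +kernel) ?_
    refine jn 1146 (by decide +kernel) ?_
    refine jn 1159 (by decide +kernel) ?_
    refine jn 1172 (by decide +kernel) ?_
    refine jn 1186 (by decide +kernel) ?_
    refine jn 1200 (by decide +kernel) ?_
    refine jn 1212 (by decide +kernel) ?_
    refine jn 1225 (by decide +kernel) ?_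
    refine jn 1239 (by decide +kernel) ?_
    refine jn 1252 (by decide +kernel) ?_
    refine jn 1264 (by decide +kernel) ?_
    refine jn 1277 (by decide +kernel) ?_
    refine jn 1291 (by decide +kernel) ?_
    refine jn 1301 (by decide +kernel) ?_
    refine jn 1304 (by decide +kernel) ?_
    refine jn 1317 (by decide +kernel) ?_
    refine jn 1330 (by decide +kernel) ?_
    refine jn 1342 (by decide +kernel) ?_
    refine jn 1355 (by decide +kernel) ?_
    refine jn 1367 (by decide +kernel) ?_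
    refine jn 1375 (by decide +kernel) ?_
    refine jn 1378 (by decide +kernel) ?_
    refine jn 1379 (by decide +kernel) ?_
    refine jn 1380 (by decide +kernel) ?_
    refine jn 1392 (by decide +kernel) ?_
    refine jn 1404 (by decide +kernel) ?_
    refine jn 1418 (by decide +kernel) ?_
    refine jn 1429 (by decide +kernel) ?_
    refine jn 1440 (by decide +kernel) ?_
    refine jn 1456 (by decide +kernel) ?_
    refine jn 1467 (by decide +kernel) ?_
    refine jn 1481 (by decide +kernel) ?_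
    refine jn 1494 (by decide +kernel) ?_
    refine jn 1501 (by decide +kernel) ?_
    refine jn 1502 (by decide +kernel) ?_
    refine jn 1503 (by decide +kernel) ?_
    refine jn 1512 (by decide +kernel) ?_
    refine jn 1541 (by decide +kernel) ?_
    refine jn 1578 (by decide +kernel) ?_
    refine jn 1608 (by decide +kernel) ?_
    refine jn 1623 (by decide +kernel) ?_
    refine jn 1632 (by decide +kernel) ?_
    refine jn 1633 (by decide +kernel) ?_
    refine jn 1640 (by decide +kernel) ?_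
    refine jn 1643 (by decide +kernel) ?_
    refine jn 1644 (by decide +kernel) ?_
    refine jn 1646 (by decide +kernel) ?_
    refine jn 1652 (by decide +kernel) ?_
    refine jn 1653 (by decide +kernel) ?_
    refine jn 1661 (by decide +kernel) ?_
    refine jn 1667 (by decide +kernel) ?_
    refine jn 1668 (by decide +kernel) ?_
    refine jn 1670 (by decide +kernel) ?_
    refine jn 1680 (by decide +kernel) ?_
    refine jn 1681 (by decide +kernel) ?_
    refine jn 1694 (by decide +kernel) ?_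
    refine jn 1698 (by decide +kernel) ?_
    refine jn 1701 (by decide +kernel) ?_
    refine jn 1704 (by decide +kernel) ?_
    refine jn 1707 (by decide +kernel) ?_
    refine jn 1712 (by decide +kernel) ?_
    refine jn 1715 (by decide +kernel) ?_
    refine jn 1718 (by decide +kernel) ?_
    refine jn 1726 (by decide +kernel) ?_
    refine jn 1738 (by decide +kernel) ?_
    refine jn 1739 (by decide +kernel) ?_
    refine jn 1750 (by decide +kernel) ?_
    refine jn 1758 (by decide +kernel) ?_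
    refine jn 1767 (by decide +kernel) ?_
    refine jn 1774 (by decide +kernel) ?_
    refine jn 1786 (by decide +kernel) ?_
    refine jn 1797 (by decide +kernel) ?_
    refine jn 1804 (by decide +kernel) ?_
    refine jn 1809 (by decide +kernel) ?_
    refine jn 1813 (by decide +kernel) ?_
    refine jn 1822 (by decide +kernel) ?_
    refine jn 1832 (by decide +kernel) ?_
    refine jn 1844 (by decide +kernel) ?_
    refine jn 1852 (by decide +kernel) ?_
    refine jn 1858 (by decide +kernel) ?_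
    refine jn 1867 (by decide +kernel) ?_
    refine jn 1880 (by decide +kernel) ?_
    refine jn 1892 (by decide +kernel) ?_
    refine jn 1904 (by decide +kernel) ?_
    refine jn 1912 (by decide +kernel) ?_
    refine jn 1916 (by decide +kernel) ?_
    refine jn 1924 (by decide +kernel) ?_
    refine jn 1930 (by decide +kernel) ?_
    exact je (by decide +kernel)
  · refine fin 1848 1250 T27_1 ?_
    refine jn 12 (by decide +kernel) ?_
    refine jn 20 (by decide +kernel) ?_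
    refine jn 30 (by decide +kernel) ?_
    refine jn 39 (by decide +kernel) ?_
    refine jn 47 (by decide +kernel) ?_
    refine jn 55 (by decide +kernel) ?_
    refine jn 75 (by decide +kernel) ?_
    refine jn 97 (by decide +kernel) ?_
    refine jn 109 (by decide +kernel) ?_
    refine jn 127 (by decide +kernel) ?_
    refine jn 143 (by decide +kernel) ?_
    refine jn 168 (by decide +kernel) ?_
    refine jn 191 (by decide +kernel) ?_
    refine jn 212 (by decide +kernel) ?_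
    refine jn 232 (by decide +kernel) ?_
    refine jn 253 (by decide +kernel) ?_
    refine jn 273 (by decide +kernel) ?_
    refine jn 295 (by decide +kernel) ?_
    refine jn 318 (by decide +kernel) ?_
    refine jn 359 (by decide +kernel) ?_
    refine jn 365 (by decide +kernel) ?_
    refine jn 367 (by decide +kernel) ?_
    refine jn 369 (by decide +kernel) ?_
    refine jn 371 (by decide +kernel) ?_
    refine jn 373 (by decide +kernel) ?_
    refine jn 375 (by decide +kernel) ?_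
    refine jn 377 (by decide +kernel) ?_
    refine jn 378 (by decide +kernel) ?_
    refine jn 380 (by decide +kernel) ?_
    refine jn 382 (by decide +kernel) ?_
    refine jn 384 (by decide +kernel) ?_
    refine jn 386 (by decide +kernel) ?_
    refine jn 388 (by decide +kernel) ?_
    refine jn 390 (by decide +kernel) ?_
    refine jn 391 (by decide +kernel) ?_
    refine jn 402 (by decide +kernel) ?_
    refine jn 415 (by decide +kernel) ?_
    refine jn 429 (by decide +kernel) ?_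
    refine jn 433 (by decide +kernel) ?_
    refine jn 436 (by decide +kernel) ?_
    refine jn 439 (by decide +kernel) ?_
    refine jn 442 (by decide +kernel) ?_
    refine jn 443 (by decide +kernel) ?_
    refine jn 448 (by decide +kernel) ?_
    refine jn 453 (by decide +kernel) ?_
    refine jn 458 (by decide +kernel) ?_
    refine jn 461 (by decide +kernel) ?_
    refine jn 466 (by decide +kernel) ?_
    refine jn 471 (by decide +kernel) ?_
    refine jn 475 (by decide +kernel) ?_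
    refine jn 480 (by decide +kernel) ?_
    refine jn 485 (by decide +kernel) ?_
    refine jn 488 (by decide +kernel) ?_
    refine jn 493 (by decide +kernel) ?_
    refine jn 498 (by decide +kernel) ?_
    refine jn 501 (by decide +kernel) ?_
    refine jn 506 (by decide +kernel) ?_
    refine jn 511 (by decide +kernel) ?_
    refine jn 514 (by decide +kernel) ?_
    refine jn 527 (by decide +kernel) ?_
    refine jn 541 (by decide +kernel) ?_
    refine jn 547 (by decide +kernel) ?_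
    refine jn 552 (by decide +kernel) ?_
    refine jn 554 (by decide +kernel) ?_
    refine jn 558 (by decide +kernel) ?_
    refine jn 593 (by decide +kernel) ?_
    refine jn 606 (by decide +kernel) ?_
    refine jn 634 (by decide +kernel) ?_
    refine jn 642 (by decide +kernel) ?_
    refine jn 644 (by decide +kernel) ?_
    refine jn 646 (by decide +kernel) ?_
    refine jn 648 (by decide +kernel) ?_
    refine jn 650 (by decide +kernel) ?_
    refine jn 652 (by decide +kernel) ?_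
    refine jn 666 (by decide +kernel) ?_
    refine jn 672 (by decide +kernel) ?_
    refine jn 677 (by decide +kernel) ?_
    refine jn 680 (by decide +kernel) ?_
    refine jn 684 (by decide +kernel) ?_
    refine jn 687 (by decide +kernel) ?_
    refine jn 690 (by decide +kernel) ?_
    refine jn 693 (by decide +kernel) ?_
    refine jn 698 (by decide +kernel) ?_
    refine jn 702 (by decide +kernel) ?_
    refine jn 715 (by decide +kernel) ?_
    refine jn 728 (by decide +kernel) ?_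
    refine jn 742 (by decide +kernel) ?_
    refine jn 751 (by decide +kernel) ?_
    refine jn 756 (by decide +kernel) ?_
    refine jn 764 (by decide +kernel) ?_
    refine jn 769 (by decide +kernel) ?_
    refine jn 777 (by decide +kernel) ?_
    refine jn 782 (by decide +kernel) ?_
    refine jn 795 (by decide +kernel) ?_
    refine jn 809 (by decide +kernel) ?_
    refine jn 822 (by decide +kernel) ?_
    refine jn 828 (by decide +kernel) ?_
    refine jn 855 (by decide +kernel) ?_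
    refine jn 881 (by decide +kernel) ?_
    refine jn 896 (by decide +kernel) ?_
    refine jn 914 (by decide +kernel) ?_
    refine jn 928 (by decide +kernel) ?_
    refine jn 955 (by decide +kernel) ?_
    refine jn 981 (by decide +kernel) ?_
    refine jn 1007 (by decide +kernel) ?_
    refine jn 1060 (by decide +kernel) ?_
    refine jn 1079 (by decide +kernel) ?_
    refine jn 1094 (by decide +kernel) ?_
    refine jn 1101 (by decide +kernel) ?_
    refine jn 1119 (by decide +kernel) ?_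
    refine jn 1176 (by decide +kernel) ?_
    refine jn 1199 (by decide +kernel) ?_
    refine jn 1212 (by decide +kernel) ?_
    refine jn 1232 (by decide +kernel) ?_
    exact je (by decide +kernel)

end Pool.Agent.MP_2339ce_nt.NR
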