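import Pool.Agent.MP_2339ce_nt.Q2.NC.L9
import Pool.Agent.MP_2339ce_nt.Q2.NC.L10
import Pool.Agent.MP_2339ce_nt.Q2.CkI

/-! Block NR: runs. -/

set_option autoImplicit false
set_option maxRecDepth 100000

noncomputable section

namespace Pool.Agent.MP_2339ce_nt.NR

open Q2.Top

def T29_0 : Ph :=
  (.na 421 3 (.na 420 2 (.nx 419 2097153 (.nr 418 881745 (.nx 391 1048577 (.nx 2 216 (.nr 1 15 (.lg
  0 false 1 53 53 5 0 55440) (.l1 .sk)) (.nx 3 217 (.l1 .sk) (.nx 110 32769 (.nr 68 131073 (.lg 0
  false 65 103 109 16 0 720720) (.nx 109 8193 (.nx 95 4096 (.nx 94 324 (.lg 0 false 26 83 89 11 0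
  1872) .out) (.nr 108 155873 (.lg 0 false 13 101 103 9 0 720720) .out)) .out)) (.nr 390 110219
  (.nr 175 901 (.lg 0 true 65 97 103 16 0 720720) (.nx 240 52017 (.lg 1 false 65 101 109 16 78620
  720720) (.nr 389 77937 (.nr 253 1724 (.lg 2 true 13 101 101 9 125690 720720) (.nx 388 832257 (.nr
  266 3160 (.lg 2 true 13 101 103 9 52137 720720) (.nr 279 5794 (.lg 2 true 13 101 103 9 28445
  720720) (.nx 387 660563 (.nr 360 65537 (.nr 292 27556 (.lg 2 false 13 103 107 9 12455 720720)
  (.nx 359 524289 (.nr 305 38969 (.lg 2 true 13 103 107 9 17574 720720) (.nx 358 330282 (.nr 331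
  55110 (.lg 2 true 26 101 103 11 24813 720720) (.nx 357 208065 (.lg 2 true 26 101 107 11 29489
  720720) .out)) .out)) .out)) (.nx 386 131073 (.lg 2 true 26 101 107 11 35050 720720) .out))
  .out))) .out)) .out))) .out)))) (.nr 417 129 (.lg 0 true 26 89 89 11 0 1872) .out)) .out) .out)
  .ne) (.na 672 4 (.nx 671 6658044 (.nr 670 1482912 (.nx 634 1321124 (.nx 473 32768 (.nx 423 216
  (.nr 422 39 (.lg 0 true 1 37 37 5 0 72) (.l1 .sk)) (.nx 424 217 (.l1 .sk) (.nr 459 185365 (.lg 0
  false 35 101 107 16 0 720720) (.nx 472 324 (.lg 0 false 13 73 73 13 0 936) .out)))) (.nr 633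
  220437 (.nr 500 748 (.nx 486 660563 (.lg 0 true 13 83 83 13 0 936) (.nr 499 129 (.lg 0 true 13 73
  73 13 0 936) .out)) (.nx 632 524289 (.nx 535 52017 (.lg 1 false 35 97 107 16 157089 720720) (.nr
  631 185365 (.nr 542 3167 (.lg 2 true 7 89 89 7 75700 5040) (.nr 549 13397 (.lg 2 true 7 89 89 7
  17880 5040) (.nx 623 208065 (.nx 611 165142 (.nx 584 96321 (.lg 1 false 35 97 107 16 83229
  720720) (.nx 597 131073 (.lg 1 false 13 103 107 13 44947 720720) (.nr 610 155873 (.lg 1 true 13
  101 103 13 27781 720720) .out))) (.nr 622 92683 (.lg 1 true 11 97 101 7 13123 7920) .out)) (.nr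
  630 38969 (.lg 2 false 7 89 89 7 4394 5040) .out)))) .out)) .out)) .out)) (.nr 669 33 (.lg 0 true
  35 73 73 7 0 2520) .out)) .out) .out) (.na 902 5 (.nx 901 16777217 (.nr 900 1246976 (.nx 675 217
  (.nx 674 216 (.nr 673 50 (.lg 0 true 1 37 37 9 0 144) (.l1 .sk)) (.l1 .sk)) (.nx 702 16384 (.nr
  688 155873 (.lg 0 false 13 103 107 13 0 720720) (.nx 701 324 (.lg 0 false 13 79 83 13 0 9360)
  .out)) (.nr 899 220437 (.nx 832 524289 (.nx 716 32917 (.nr 715 185365 (.lg 0 false 13 103 107 13
  0 720720) .out) (.nr 729 729 (.lg 0 true 13 83 89 13 0 9360) (.nx 756 65536 (.nr 755 185365 (.nx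
  742 46446 (.lg 1 false 13 101 107 13 131522 720720) (.lg 1 false 13 101 107 13 93212 720720))
  .out) (.nr 763 2909 (.lg 2 true 7 89 97 11 77673 55440) (.nx 789 131073 (.nx 776 92682 (.lg 1
  false 13 101 107 13 78544 720720) (.lg 1 false 13 101 107 13 55539 720720)) (.nr 831 155873 (.nr
  796 11603 (.lg 2 true 7 89 97 11 19465 55440) (.nx 823 208065 (.nx 809 165142 (.lg 1 true 13 97
  107 13 27781 720720) (.nr 822 131073 (.lg 1 true 13 97 107 13 18546 720720) .out)) (.nr 830 55110
  (.lg 2 false 7 97 101 11 6204 55440) .out))) .out)))))) (.nr 898 183 (.nr 884 32 (.lg 0 true 52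
  83 83 13 0 1872) (.nx 897 2097153 (.lg 0 true 13 83 83 13 0 1872) .out)) .out)) .out))) .out)
  .out) (.nx 1092 16777217 (.nr 1091 1482912 (.nx 904 216 (.nr 903 61 (.lg 0 true 1 37 37 9 0 360)
  (.l1 .sk)) (.nx 905 217 (.l1 .sk) (.nx 935 31034 (.nr 918 155873 (.lg 0 false 13 103 107 16 0
  720720) (.nx 934 2049 (.nx 929 324 (.lg 0 false 11 79 79 16 0 3960) (.nx 930 645 .out (.nr 933
  185365 (.lg 0 false 3 83 83 11 0 360) .out))) .out)) (.nr 1090 220437 (.nx 1047 2097153 (.nx 1035
  660563 (.nr 946 956 (.lg 0 true 11 83 89 16 0 3960) (.nx 958 41285 (.nr 957 155873 (.lg 1 false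
  11 101 107 16 117333 720720) .out) (.nr 965 4213 (.lg 2 true 7 89 97 16 74625 5040) (.nx 1024
  208065 (.nx 1012 165142 (.nx 977 52015 (.nr 976 185365 (.lg 1 false 11 101 107 16 104864 720720)
  .out) (.nx 990 76448 (.lg 1 false 13 101 107 16 98961 720720) (.nx 1001 112360 (.lg 1 false 11
  101 107 16 67333 720720) (.lg 1 true 11 101 107 16 45812 720720)))) (.nr 1023 131073 (.lg 1 true
  11 97 103 16 18546 720720) .out)) (.nr 1034 77937 (.nr 1027 8843 (.lg 2 true 3 89 89 11 16934
  5040) (.lg 2 false 7 89 101 16 8763 5040)) .out))))) (.nr 1046 217 (.lg 0 true 11 83 83 16 0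
  3960) .out)) (.nr 1089 24 (.nx 1063 5931643 (.lg 0 true 16 73 73 16 0 720) (.lg 0 true 26 79 79
  16 0 9360)) .out)) .out)))) .out) .out))))

def T29_1 : Ph :=
  (.na 327 4 (.nx 326 6658044 (.nr 325 1482912 (.nx 296 1664512 (.nx 282 832257 (.nx 2 239 (.nr 1
  41 (.lg 0 true 1 41 41 5 0 72) (.l1 .sk)) (.nx 3 240 (.l1 .sk) (.nx 97 44590 (.nr 55 220437 (.lg
  0 false 52 101 107 16 0 720720) (.nx 68 408 (.lg 0 false 13 83 89 16 0 936) (.nx 69 20642 .out
  (.nr 96 311745 (.nx 83 32768 (.nr 82 262145 (.lg 0 false 13 97 107 16 0 720720) .out) (.lg 0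
  false 13 101 107 16 0 720720)) .out)))) (.nr 281 311745 (.nr 117 1391 (.nr 110 668 (.lg 0 true 13
  89 89 16 0 936) (.lg 2 true 7 97 97 13 148885 55440)) (.nr 124 2898 (.lg 2 true 7 97 101 13 71499
  55440) (.nx 280 660563 (.nx 180 82572 (.nx 152 60679 (.lg 1 false 28 101 107 16 199833 720720)
  (.lg 1 false 28 101 107 16 146847 720720)) (.nr 279 262145 (.nx 194 104031 (.nr 193 220437 (.lg 1
  false 13 103 107 16 76330 720720) .out) (.nx 207 131072 (.lg 1 false 13 103 107 16 72035 720720)
  (.nx 248 262145 (.nx 234 208065 (.nx 220 165142 (.lg 1 false 13 103 107 16 57174 720720) (.nr 233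
  220437 (.lg 1 true 13 103 107 16 38165 720720) .out)) (.nr 247 185365 (.lg 1 true 13 101 107 16
  25478 720720) .out)) (.nr 278 110219 (.nr 256 10626 (.nr 252 5549 (.lg 2 true 4 97 101 7 27239
  55440) (.lg 2 true 4 97 101 7 14226 55440)) (.nr 260 20349 (.lg 2 false 4 97 101 7 7429 55440)
  (.nx 273 330282 (.lg 1 true 13 101 103 16 12035 720720) (.nr 277 46342 (.lg 2 false 4 101 101 7
  4029 55440) .out)))) .out)))) .out)) .out))) .out)))) (.nr 295 154 (.lg 0 true 13 79 83 16 0 936)
  .out)) (.nr 324 33 (.lg 0 true 28 79 83 16 0 1008) .out)) .out) .out) (.nx 584 21137969 (.nr 583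
  1246976 (.nx 513 660563 (.nx 383 40687 (.nx 329 239 (.nr 328 53 (.lg 0 true 1 37 37 9 0 144) (.l1
  .sk)) (.nx 330 240 (.l1 .sk) (.nr 369 262145 (.lg 0 false 39 101 107 19 0 720720) (.nx 382 408
  (.lg 0 false 13 79 83 13 0 1872) .out)))) (.nr 512 311745 (.nr 396 730 (.lg 0 true 13 89 89 13 0
  9360) (.nr 403 2912 (.lg 2 true 7 89 97 11 108134 5040) (.nx 497 330282 (.nx 430 82570 (.nr 429
  262145 (.nx 416 57961 (.lg 1 false 13 103 107 13 184185 720720) (.lg 1 false 13 103 107 13 129292
  720720)) .out) (.nx 469 208065 (.nx 443 112360 (.lg 1 false 13 103 107 13 107915 720720) (.nx 456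
  152899 (.lg 1 false 13 103 107 13 79303 720720) (.lg 1 false 13 103 107 13 58277 720720))) (.nr
  496 185365 (.nx 482 262145 (.lg 1 true 13 101 107 13 25478 720720) (.nr 495 131073 (.lg 1 true 13
  101 107 13 14307 720720) .out)) .out))) (.nr 511 46342 (.nr 504 11616 (.lg 2 true 7 89 97 11
  27108 5040) (.lg 2 false 7 89 97 11 6796 5040)) .out)))) .out)) (.nr 582 183 (.nr 568 33 (.lg 0
  true 55 79 79 13 0 7920) (.nx 581 2642247 (.lg 0 true 13 83 83 13 0 1872) .out)) .out)) .out)
  .out))

theorem c29 :
    OkQ ckI L9 216 1 6 0 34359738368 1 1099511627776 ∧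
    OkQ ckI L10 239 3 5 0 34359738368 1 1099511627776 := by
  refine ⟨?_, ?_⟩
  · refine fin 72 1093 T29_0 ?_
    refine jn 8 (by decide +kernel) ?_
    refine jn 11 (by decide +kernel) ?_
    refine jn 16 (by decide +kernel) ?_
    refine jn 21 (by decide +kernel) ?_
    refine jn 24 (by decide +kernel) ?_
    refine jn 28 (by decide +kernel) ?_
    refine jn 33 (by decide +kernel) ?_
    refine jn 37 (by decide +kernel) ?_
    refine jn 41 (by decide +kernel) ?_
    refine jn 47 (by decide +kernel) ?_
    refine jn 50 (by decide +kernel) ?_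
    refine jn 55 (by decide +kernel) ?_
    refine jn 60 (by decide +kernel) ?_
    refine jn 63 (by decide +kernel) ?_
    refine jn 67 (by decide +kernel) ?_
    refine jn 94 (by decide +kernel) ?_
    refine jn 117 (by decide +kernel) ?_
    refine jn 127 (by decide +kernel) ?_
    refine jn 137 (by decide +kernel) ?_
    refine jn 147 (by decide +kernel) ?_
    refine jn 157 (by decide +kernel) ?_
    refine jn 167 (by decide +kernel) ?_
    refine jn 175 (by decide +kernel) ?_
    refine jn 194 (by decide +kernel) ?_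
    refine jn 211 (by decide +kernel) ?_
    refine jn 231 (by decide +kernel) ?_
    refine jn 253 (by decide +kernel) ?_
    refine jn 279 (by decide +kernel) ?_
    refine jn 292 (by decide +kernel) ?_
    refine jn 305 (by decide +kernel) ?_
    refine jn 328 (by decide +kernel) ?_
    refine jn 331 (by decide +kernel) ?_
    refine jn 357 (by decide +kernel) ?_
    refine jn 381 (by decide +kernel) ?_
    refine jn 391 (by decide +kernel) ?_
    refine jn 416 (by decide +kernel) ?_
    refine jn 430 (by decide +kernel) ?_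
    refine jn 438 (by decide +kernel) ?_
    refine jn 447 (by decide +kernel) ?_
    refine jn 455 (by decide +kernel) ?_
    refine jn 472 (by decide +kernel) ?_
    refine jn 482 (by decide +kernel) ?_
    refine jn 486 (by decide +kernel) ?_
    refine jn 499 (by decide +kernel) ?_
    refine jn 526 (by decide +kernel) ?_
    refine jn 542 (by decide +kernel) ?_
    refine jn 564 (by decide +kernel) ?_
    refine jn 584 (by decide +kernel) ?_
    refine jn 610 (by decide +kernel) ?_
    refine jn 630 (by decide +kernel) ?_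
    refine jn 669 (by decide +kernel) ?_
    refine jn 675 (by decide +kernel) ?_
    refine jn 676 (by decide +kernel) ?_
    refine jn 677 (by decide +kernel) ?_
    refine jn 679 (by decide +kernel) ?_
    refine jn 680 (by decide +kernel) ?_
    refine jn 681 (by decide +kernel) ?_
    refine jn 682 (by decide +kernel) ?_
    refine jn 683 (by decide +kernel) ?_
    refine jn 684 (by decide +kernel) ?_
    refine jn 686 (by decide +kernel) ?_
    refine jn 687 (by decide +kernel) ?_
    refine jn 688 (by decide +kernel) ?_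
    refine jn 701 (by decide +kernel) ?_
    refine jn 707 (by decide +kernel) ?_
    refine jn 713 (by decide +kernel) ?_
    refine jn 715 (by decide +kernel) ?_
    refine jn 718 (by decide +kernel) ?_
    refine jn 721 (by decide +kernel) ?_
    refine jn 723 (by decide +kernel) ?_
    refine jn 726 (by decide +kernel) ?_
    refine jn 729 (by decide +kernel) ?_
    refine jn 740 (by decide +kernel) ?_
    refine jn 749 (by decide +kernel) ?_
    refine jn 755 (by decide +kernel) ?_
    refine jn 763 (by decide +kernel) ?_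
    refine jn 771 (by decide +kernel) ?_
    refine jn 776 (by decide +kernel) ?_
    refine jn 784 (by decide +kernel) ?_
    refine jn 789 (by decide +kernel) ?_
    refine jn 796 (by decide +kernel) ?_
    refine jn 809 (by decide +kernel) ?_
    refine jn 822 (by decide +kernel) ?_
    refine jn 830 (by decide +kernel) ?_
    refine jn 832 (by decide +kernel) ?_
    refine jn 837 (by decide +kernel) ?_
    refine jn 884 (by decide +kernel) ?_
    refine jn 897 (by decide +kernel) ?_
    refine jn 907 (by decide +kernel) ?_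
    refine jn 909 (by decide +kernel) ?_
    refine jn 910 (by decide +kernel) ?_
    refine jn 911 (by decide +kernel) ?_
    refine jn 912 (by decide +kernel) ?_
    refine jn 913 (by decide +kernel) ?_
    refine jn 914 (by decide +kernel) ?_
    refine jn 916 (by decide +kernel) ?_
    refine jn 918 (by decide +kernel) ?_
    refine jn 929 (by decide +kernel) ?_
    refine jn 937 (by decide +kernel) ?_
    refine jn 940 (by decide +kernel) ?_
    refine jn 943 (by decide +kernel) ?_
    refine jn 946 (by decide +kernel) ?_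
    refine jn 957 (by decide +kernel) ?_
    refine jn 965 (by decide +kernel) ?_
    refine jn 976 (by decide +kernel) ?_
    refine jn 987 (by decide +kernel) ?_
    refine jn 990 (by decide +kernel) ?_
    refine jn 998 (by decide +kernel) ?_
    refine jn 1001 (by decide +kernel) ?_
    refine jn 1010 (by decide +kernel) ?_
    refine jn 1012 (by decide +kernel) ?_
    refine jn 1023 (by decide +kernel) ?_
    refine jn 1034 (by decide +kernel) ?_
    refine jn 1044 (by decide +kernel) ?_
    refine jn 1063 (by decide +kernel) ?_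
    refine jn 1089 (by decide +kernel) ?_
    exact je (by decide +kernel)
  · refine fin 72 585 T29_1 ?_
    refine jn 5 (by decide +kernel) ?_
    refine jn 7 (by decide +kernel) ?_
    refine jn 9 (by decide +kernel) ?_
    refine jn 11 (by decide +kernel) ?_
    refine jn 13 (by decide +kernel) ?_
    refine jn 15 (by decide +kernel) ?_
    refine jn 17 (by decide +kernel) ?_
    refine jn 19 (by decide +kernel) ?_
    refine jn 22 (by decide +kernel) ?_
    refine jn 24 (by decide +kernel) ?_
    refine jn 26 (by decide +kernel) ?_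
    refine jn 27 (by decide +kernel) ?_
    refine jn 29 (by decide +kernel) ?_
    refine jn 31 (by decide +kernel) ?_
    refine jn 33 (by decide +kernel) ?_
    refine jn 35 (by decide +kernel) ?_
    refine jn 37 (by decide +kernel) ?_
    refine jn 39 (by decide +kernel) ?_
    refine jn 41 (by decide +kernel) ?_
    refine jn 43 (by decide +kernel) ?_
    refine jn 45 (by decide +kernel) ?_
    refine jn 48 (by decide +kernel) ?_
    refine jn 50 (by decide +kernel) ?_
    refine jn 52 (by decide +kernel) ?_
    refine jn 53 (by decide +kernel) ?_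
    refine jn 55 (by decide +kernel) ?_
    refine jn 68 (by decide +kernel) ?_
    refine jn 82 (by decide +kernel) ?_
    refine jn 92 (by decide +kernel) ?_
    refine jn 97 (by decide +kernel) ?_
    refine jn 99 (by decide +kernel) ?_
    refine jn 101 (by decide +kernel) ?_
    refine jn 104 (by decide +kernel) ?_
    refine jn 106 (by decide +kernel) ?_
    refine jn 108 (by decide +kernel) ?_
    refine jn 110 (by decide +kernel) ?_
    refine jn 117 (by decide +kernel) ?_
    refine jn 124 (by decide +kernel) ?_
    refine jn 131 (by decide +kernel) ?_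
    refine jn 138 (by decide +kernel) ?_
    refine jn 145 (by decide +kernel) ?_
    refine jn 152 (by decide +kernel) ?_
    refine jn 159 (by decide +kernel) ?_
    refine jn 166 (by decide +kernel) ?_
    refine jn 173 (by decide +kernel) ?_
    refine jn 180 (by decide +kernel) ?_
    refine jn 185 (by decide +kernel) ?_
    refine jn 191 (by decide +kernel) ?_
    refine jn 196 (by decide +kernel) ?_
    refine jn 201 (by decide +kernel) ?_
    refine jn 205 (by decide +kernel) ?_
    refine jn 209 (by decide +kernel) ?_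
    refine jn 213 (by decide +kernel) ?_
    refine jn 217 (by decide +kernel) ?_
    refine jn 220 (by decide +kernel) ?_
    refine jn 225 (by decide +kernel) ?_
    refine jn 230 (by decide +kernel) ?_
    refine jn 234 (by decide +kernel) ?_
    refine jn 241 (by decide +kernel) ?_
    refine jn 247 (by decide +kernel) ?_
    refine jn 256 (by decide +kernel) ?_
    refine jn 266 (by decide +kernel) ?_
    refine jn 273 (by decide +kernel) ?_
    refine jn 287 (by decide +kernel) ?_
    refine jn 295 (by decide +kernel) ?_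
    refine jn 296 (by decide +kernel) ?_
    refine jn 305 (by decide +kernel) ?_
    refine jn 324 (by decide +kernel) ?_
    refine jn 332 (by decide +kernel) ?_
    refine jn 335 (by decide +kernel) ?_
    refine jn 337 (by decide +kernel) ?_
    refine jn 339 (by decide +kernel) ?_
    refine jn 341 (by decide +kernel) ?_
    refine jn 343 (by decide +kernel) ?_
    refine jn 346 (by decide +kernel) ?_
    refine jn 349 (by decide +kernel) ?_
    refine jn 351 (by decide +kernel) ?_
    refine jn 354 (by decide +kernel) ?_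
    refine jn 357 (by decide +kernel) ?_
    refine jn 359 (by decide +kernel) ?_
    refine jn 361 (by decide +kernel) ?_
    refine jn 363 (by decide +kernel) ?_
    refine jn 366 (by decide +kernel) ?_
    refine jn 368 (by decide +kernel) ?_
    refine jn 382 (by decide +kernel) ?_
    refine jn 386 (by decide +kernel) ?_
    refine jn 389 (by decide +kernel) ?_
    refine jn 392 (by decide +kernel) ?_
    refine jn 395 (by decide +kernel) ?_
    refine jn 396 (by decide +kernel) ?_
    refine jn 403 (by decide +kernel) ?_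
    refine jn 409 (by decide +kernel) ?_
    refine jn 414 (by decide +kernel) ?_
    refine jn 419 (by decide +kernel) ?_
    refine jn 425 (by decide +kernel) ?_
    refine jn 430 (by decide +kernel) ?_
    refine jn 436 (by decide +kernel) ?_
    refine jn 441 (by decide +kernel) ?_
    refine jn 446 (by decide +kernel) ?_
    refine jn 451 (by decide +kernel) ?_
    refine jn 456 (by decide +kernel) ?_
    refine jn 461 (by decide +kernel) ?_
    refine jn 466 (by decide +kernel) ?_
    refine jn 469 (by decide +kernel) ?_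
    refine jn 482 (by decide +kernel) ?_
    refine jn 495 (by decide +kernel) ?_
    refine jn 504 (by decide +kernel) ?_
    refine jn 511 (by decide +kernel) ?_
    refine jn 513 (by decide +kernel) ?_
    refine jn 518 (by decide +kernel) ?_
    refine jn 568 (by decide +kernel) ?_
    refine jn 581 (by decide +kernel) ?_
    exact je (by decide +kernel)

end Pool.Agent.MP_2339ce_nt.NR
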