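import Pool.Agent.MP_2339ce_nt.Q2.NC.L10
import Pool.Agent.MP_2339ce_nt.Q2.CkI

/-! Block NR: runs. -/

set_option autoImplicit false
set_option maxRecDepth 100000

noncomputable section

namespace Pool.Agent.MP_2339ce_nt.NR

open Q2.Top

def T31_0 : Ph :=
  (.na 510 29 (.na 287 20 (.na 174 16 (.na 1 12 .ne (.na 96 15 (.nx 95 2642247 (.nr 94 1246976 (.nx
  86 660563 (.nx 4 237 (.nx 3 236 (.nr 2 163 (.lg 0 true 1 37 37 13 0 8496) (.l1 .sk)) (.l1 .sk))
  (.nr 82 741457 (.nx 21 41285 (.nr 15 220437 (.lg 0 false 11 101 107 29 0 3270960) (.nx 20 1627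
  (.lg 0 false 5 89 97 19 0 42480) .out)) (.nr 81 311745 (.nr 28 1203 (.lg 0 true 7 83 89 23 0
  59472) (.nx 40 82570 (.nr 39 262145 (.lg 1 false 11 103 109 29 176987 42522480) .out) (.nr 42
  4560 (.lg 2 true 2 89 97 13 64794 42480) (.nx 76 330282 (.nx 64 208065 (.nx 53 116772 (.lg 1
  false 11 101 109 29 105222 42522480) (.lg 1 true 11 103 109 29 74403 42522480)) (.nr 75 220437
  (.lg 1 true 11 101 109 29 29536 42522480) .out)) (.nr 80 77937 (.nr 78 17288 (.lg 2 true 2 89 97
  13 17094 42480) (.lg 2 false 2 97 101 13 6592 42480)) .out))))) .out)) (.nx 85 408 (.lg 0 false 3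
  79 79 19 0 8496) .out))) (.nr 93 65 (.lg 0 true 7 73 79 23 0 59472) .out)) .out) .out) (.nx 173
  2642247 (.nr 172 1246976 (.nx 100 324 (.nx 98 236 (.nr 97 174 (.lg 0 true 1 31 31 16 0 21240)
  (.l1 .sk)) (.nx 99 237 (.l1 .sk) (.l1 (.ls 89 41 3256)))) (.nr 171 1048577 (.nx 101 408 (.l1 (.ls
  89 41 4102)) (.nr 170 741457 (.nx 116 41285 (.nr 112 220437 (.lg 0 false 11 101 107 19 0 3270960)
  (.nx 115 1627 (.lg 0 false 3 89 89 16 0 21240) .out)) (.nr 169 311745 (.nx 161 660563 (.nr 119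
  766 (.lg 0 true 3 83 83 16 0 21240) (.nx 131 82570 (.nr 130 262145 (.lg 1 false 11 97 107 19
  176987 3270960) .out) (.nx 142 165142 (.lg 1 false 11 97 107 19 105222 3270960) (.nr 160 262145
  (.nr 144 3376 (.lg 2 true 2 89 89 16 101758 42480) (.nr 146 14876 (.lg 2 true 2 97 97 16 23089
  297360) (.nx 157 330282 (.lg 1 true 11 97 107 19 44246 3270960) (.nr 159 77937 (.lg 2 false 2 97
  101 16 6592 297360) .out)))) .out)))) (.nr 168 65 (.lg 0 true 7 71 73 17 0 148680) .out)) .out))
  .out)) .out)) .out) .out))) (.na 175 17 .ne (.na 235 19 (.nx 234 2642247 (.nr 233 1246976 (.nr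
  176 8 .s1 (.nx 178 236 (.nr 177 207 (.lg 0 true 1 31 31 11 0 148680) (.l1 .sk)) (.nx 179 237 (.l1
  .sk) (.nx 180 408 (.l1 (.ls 89 41 6490)) (.nr 232 741457 (.nr 226 311745 (.nr 222 220437 (.nx 191
  54442 (.lg 0 false 11 103 109 16 0 42522480) (.nx 216 660563 (.nr 196 1726 (.lg 0 true 5 89 89 16
  0 148680) (.nx 215 524289 (.nr 201 77937 (.lg 2 false 5 97 101 16 39988 148680) (.nx 214 416129
  (.lg 2 false 13 103 109 16 112879 42522480) .out)) .out)) (.nr 221 129 (.lg 0 true 5 73 73 16 0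
  21240) .out))) (.nx 225 13005 (.lg 0 false 3 97 97 16 0 148680) .out)) (.nx 231 1627 (.lg 0 false
  5 83 83 16 0 21240) .out)) .out))))) .out) .out) (.nx 286 2642247 (.nr 285 1246976 (.nr 236 12
  .s1 (.nx 240 408 (.nx 238 236 (.nr 237 217 (.lg 0 false 1 29 29 11 0 21240) (.l1 .sk)) (.nx 239
  237 (.l1 .sk) (.l1 (.ls 89 41 5808)))) (.nr 284 741457 (.nr 280 311745 (.nr 276 220437 (.nx 268
  660563 (.nx 253 106431 (.lg 0 false 13 103 109 16 0 42522480) (.nr 260 1726 (.lg 0 true 7 83 83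
  16 0 148680) (.nx 267 524289 (.lg 2 false 7 103 109 16 57741 3270960) .out))) (.nr 275 129 (.lg 0
  true 7 71 71 16 0 29736) .out)) (.nx 279 13005 (.lg 0 false 3 89 89 16 0 21240) .out)) (.nx 283
  1627 (.lg 0 false 3 79 79 16 0 4248) .out)) .out))) .out) .out)))) (.na 389 25 (.na 338 21 (.nx
  337 2642247 (.nr 336 1246976 (.nr 288 13 .s1 (.nx 332 660563 (.nx 290 236 (.nr 289 228 (.lg 0
  true 1 37 37 13 0 297360) (.l1 .sk)) (.nx 291 237 (.l1 .sk) (.nr 325 311745 (.nr 321 220437 (.nx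
  302 54442 (.lg 0 false 11 97 103 29 0 3270960) (.nr 305 1726 (.lg 0 true 3 89 89 19 0 42480) (.nx
  320 524289 (.nr 308 77937 (.lg 2 false 3 101 103 19 39988 297360) (.nx 319 416129 (.lg 2 false 11
  97 107 29 112879 3270960) .out)) .out))) (.nx 324 13005 (.lg 0 false 3 97 101 19 0 297360) .out))
  (.nx 331 1627 (.nr 328 741457 (.lg 0 false 3 83 89 19 0 42480) (.nx 330 408 (.lg 0 false 2 73 73
  17 0 42480) .out)) .out)))) (.nr 335 129 (.lg 0 true 3 73 73 19 0 42480) .out))) .out) .out) (.na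
  388 23 (.nx 387 2642247 (.nr 386 1246976 (.nr 339 15 .s1 (.nx 342 237 (.nx 341 236 (.nr 340 250
  (.lg 0 false 1 31 31 16 0 148680) (.l1 .sk)) (.l1 .sk)) (.nr 383 741457 (.nx 379 660563 (.nr 372
  220437 (.nx 353 106431 (.lg 0 false 11 103 109 23 0 42522480) (.nr 356 1726 (.lg 0 true 3 89 89
  17 0 148680) (.nx 371 524289 (.nr 357 11600 (.lg 2 false 1 97 97 16 35844 148680) (.nx 368 262145
  (.lg 1 true 11 101 109 23 57741 42522480) (.nr 370 92683 (.lg 2 false 2 97 101 17 9871 297360)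
  .out))) .out))) (.nx 378 13005 (.nr 374 311745 (.lg 0 false 2 97 101 17 0 297360) (.nx 377 1627
  (.lg 0 false 3 83 89 17 0 148680) .out)) .out)) (.nr 382 129 (.lg 0 true 3 73 73 17 0 29736)
  .out)) (.nx 385 408 (.lg 0 false 2 79 79 17 0 59472) .out)))) .out) .out) .ne)) (.na 430 27 (.nx
  429 2642247 (.nr 428 1048577 (.nr 390 20 .s1 (.nx 422 660563 (.nx 392 236 (.nr 391 294 (.lg 0
  false 1 29 29 16 0 148680) (.l1 .sk)) (.nx 393 237 (.l1 .sk) (.nx 414 82572 (.nx 394 408 (.l1
  (.ls 83 37 4414)) (.nr 413 741457 (.nr 405 185365 (.lg 0 false 11 97 103 17 0 3270960) (.nx 412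
  16385 (.nr 408 524289 (.lg 0 false 3 97 97 16 0 148680) (.nx 411 2582 (.lg 0 false 3 79 79 16 0
  21240) .out)) .out)) .out)) (.nr 421 131073 (.nr 417 1888 (.lg 0 true 3 79 79 16 0 21240) (.nx
  420 524289 (.lg 2 false 3 101 101 16 44286 148680) .out)) .out)))) (.nr 427 129 (.lg 0 true 5 71
  71 16 0 21240) .out))) .out) .out) (.na 473 28 (.nx 472 2642247 (.nr 471 1048577 (.nr 431 23 .s1
  (.nx 465 660563 (.nx 433 236 (.nr 432 305 (.lg 0 true 1 23 23 16 0 148680) (.l1 .sk)) (.nx 434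
  237 (.l1 .sk) (.nx 435 408 (.l1 (.ls 79 41 4088)) (.nr 464 741457 (.nr 460 524289 (.nx 448 82572
  (.nr 442 185365 (.lg 0 false 7 89 101 17 0 148680) (.nx 447 16385 (.lg 0 false 5 89 97 16 0
  148680) .out)) (.nr 459 131073 (.nr 453 1935 (.lg 0 true 5 79 79 16 0 21240) (.nx 458 524289 (.lg
  2 false 5 89 97 16 44286 148680) .out)) .out)) (.nx 463 2582 (.lg 0 false 3 73 73 16 0 4248)
  .out)) .out)))) (.nr 470 129 (.lg 0 true 5 67 67 16 0 21240) .out))) .out) .out) (.nx 509 2642247
  (.nr 508 1048577 (.nr 474 24 .s1 (.nx 504 660563 (.nx 477 237 (.nx 476 236 (.nr 475 315 (.lg 0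
  false 1 37 37 13 0 297360) (.l1 .sk)) (.l1 .sk)) (.nx 478 408 (.l1 (.ls 89 43 3942)) (.nr 503
  741457 (.nx 486 16385 (.nr 483 524289 (.lg 0 false 5 97 103 23 0 297360) (.nx 485 2582 (.lg 0
  false 2 89 89 19 0 59472) .out)) (.nr 502 185365 (.nx 491 65537 (.lg 0 false 5 101 107 23 0
  3270960) (.nr 501 155873 (.nr 494 1977 (.lg 0 true 3 89 89 19 0 59472) (.nx 500 524289 (.nx 496
  82572 (.lg 1 false 2 97 101 19 66335 297360) (.nr 499 131073 (.lg 2 false 3 101 107 19 44286
  3270960) .out)) .out)) .out)) .out)) .out))) (.nr 507 129 (.lg 0 true 3 73 73 19 0 59472) .out)))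
  .out) .out))))) (.na 653 46 (.na 575 36 (.na 547 32 (.nx 546 2642247 (.nr 545 1048577 (.nr 511 25
  .s1 (.nx 514 237 (.nx 513 236 (.nr 512 348 (.lg 0 false 1 29 29 13 0 148680) (.l1 .sk)) (.l1
  .sk)) (.nx 541 660563 (.nx 531 82572 (.nx 515 408 (.l1 (.ls 83 37 3806)) (.nr 530 741457 (.nr 522
  185365 (.lg 0 false 7 97 101 16 0 148680) (.nx 529 16385 (.lg 0 false 7 89 101 16 0 148680)
  .out)) .out)) (.nr 540 131073 (.nr 536 3031 (.lg 0 true 5 83 83 16 0 21240) (.nx 539 524289 (.lg
  2 false 3 101 101 16 44286 148680) .out)) .out)) (.nr 544 129 (.lg 0 true 3 67 67 16 0 4248)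
  .out)))) .out) .out) (.na 548 35 .ne (.nx 574 2642247 (.nr 573 881745 (.nr 549 32 .s1 (.nx 553
  408 (.nx 551 236 (.nr 550 392 (.lg 0 true 1 31 31 16 0 148680) (.l1 .sk)) (.nx 552 237 (.l1 .sk)
  (.l1 (.ls 83 41 3154)))) (.nr 572 623489 (.nr 568 185365 (.nx 564 330282 (.nx 556 41287 (.lg 0
  false 3 97 101 17 0 148680) (.nr 563 110219 (.nr 557 1091 (.lg 0 false 1 83 83 16 0 148680) (.nx
  562 262145 (.nx 559 65537 (.lg 1 false 2 97 101 17 74503 297360) (.nr 561 77937 (.lg 2 false 2 97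
  101 17 33218 297360) .out)) .out)) .out)) (.nr 567 217 (.lg 0 true 3 73 73 17 0 148680) .out))
  (.nx 571 16385 (.lg 0 false 3 97 101 17 0 148680) .out)) .out))) .out) .out))) (.na 604 41 (.nx
  603 2642247 (.nr 602 881745 (.nr 576 33 .s1 (.nx 598 330282 (.nx 578 236 (.nr 577 446 (.lg 0
  false 1 31 31 19 0 297360) (.l1 .sk)) (.nx 579 237 (.l1 .sk) (.nx 586 16385 (.nx 580 408 (.l1
  (.ls 83 43 3066)) (.nr 585 623489 (.lg 0 false 5 97 101 29 0 297360) .out)) (.nr 597 185365 (.nx
  588 41287 (.lg 0 false 2 101 103 23 0 297360) (.nr 596 110219 (.nr 590 1209 (.lg 0 true 2 79 79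
  23 0 8496) (.nx 595 262145 (.nx 592 65537 (.lg 1 false 2 97 101 23 74503 297360) (.nr 594 77937
  (.lg 2 false 2 97 101 23 33218 297360) .out)) .out)) .out)) .out)))) (.nr 601 217 (.lg 0 true 3
  73 73 23 0 8496) .out))) .out) .out) (.na 629 45 (.nx 628 2642247 (.nr 627 881745 (.nr 605 39 .s1
  (.nx 609 408 (.nx 607 236 (.nr 606 490 (.lg 0 true 1 23 23 16 0 148680) (.l1 .sk)) (.nx 608 237
  (.l1 .sk) (.l1 (.ls 79 31 2693)))) (.nr 626 623489 (.nr 622 185365 (.nx 612 52017 (.lg 0 false 3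
  101 101 16 0 148680) (.nr 621 92683 (.nr 617 490 (.lg 0 true 5 73 73 16 0 21240) (.nx 620 262145
  (.lg 2 false 3 97 97 16 63129 148680) .out)) .out)) (.nx 625 16385 (.lg 0 false 3 97 97 16 0
  4248) .out)) .out))) .out) .out) (.nx 652 2642247 (.nr 651 881745 (.nr 630 43 .s1 (.nx 634 408
  (.nx 632 236 (.nr 631 500 (.lg 0 false 1 29 29 17 0 148680) (.l1 .sk)) (.nx 633 237 (.l1 .sk)
  (.l1 (.ls 79 41 2454)))) (.nr 650 623489 (.nx 646 262145 (.nx 640 41287 (.nr 636 185365 (.lg 0
  false 2 101 101 19 0 297360) (.nx 639 16385 (.lg 0 false 3 89 97 19 0 148680) .out)) (.nr 645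
  110219 (.nr 641 1325 (.lg 0 true 1 73 73 17 0 21240) (.nx 642 65537 (.lg 1 true 1 97 97 17 74503
  297360) (.nr 644 77937 (.lg 2 false 2 97 97 19 33218 297360) .out))) .out)) (.nr 649 257 (.lg 0
  true 3 71 71 19 0 21240) .out)) .out))) .out) .out)))) (.na 700 53 (.na 654 49 .ne (.na 675 51
  (.nx 674 2642247 (.nr 673 881745 (.nr 655 47 .s1 (.nx 658 237 (.nx 657 236 (.nr 656 555 (.l1 (.ls
  23 29 1139)) (.l1 .sk)) (.l1 .sk)) (.nx 663 32769 (.lg 0 false 5 89 97 17 0 148680) (.nr 672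
  92683 (.nr 668 555 (.lg 0 true 5 71 71 17 0 148680) (.nx 671 262145 (.lg 2 false 3 89 89 16 78967
  148680) .out)) .out)))) .out) .out) (.nx 699 2642247 (.nr 698 881745 (.nr 676 49 .s1 (.nx 679 237
  (.nx 678 236 (.nr 677 577 (.l1 (.ls 29 37 1095)) (.l1 .sk)) (.l1 .sk)) (.nx 689 32769 (.nx 686
  20644 (.lg 0 false 7 89 101 29 0 148680) (.nr 688 220437 (.lg 0 false 2 97 97 16 0 42480) .out))
  (.nr 697 92683 (.nr 692 577 (.lg 0 true 3 79 79 19 0 4248) (.nx 696 262145 (.nr 694 65537 (.lg 2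
  false 2 97 101 16 55897 42480) (.nx 695 52017 (.lg 0 false 1 83 83 16 0 21240) .out)) .out))
  .out)))) .out) .out))) (.na 721 57 (.nx 720 2642247 (.nr 719 881745 (.nr 701 51 .s1 (.nx 704 237
  (.nx 703 236 (.nr 702 620 (.l1 (.ls 19 23 1053)) (.l1 .sk)) (.l1 .sk)) (.nx 709 32769 (.lg 0
  false 5 97 101 16 0 148680) (.nr 718 92683 (.nr 714 620 (.lg 0 true 5 73 73 16 0 21240) (.nx 717
  262145 (.lg 2 false 3 97 97 16 78967 148680) .out)) .out)))) .out) .out) (.na 742 59 (.nx 741
  2642247 (.nr 740 881745 (.nr 722 55 .s1 (.nx 733 41287 (.nx 724 236 (.nr 723 642 (.l1 (.ls 29 31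
  980)) (.l1 .sk)) (.nx 725 237 (.l1 .sk) (.nx 730 20644 (.lg 0 false 5 97 101 23 0 148680) (.nr
  732 220437 (.lg 0 false 2 101 101 17 0 297360) .out)))) (.nr 739 77937 (.nr 736 642 (.lg 0 true 3
  79 79 17 0 4248) (.nx 738 262145 (.lg 2 false 2 97 101 17 52729 297360) .out)) .out))) .out)
  .out) (.nx 768 2642247 (.nr 767 881745 (.nr 743 57 .s1 (.nx 757 41287 (.nx 745 236 (.nr 744 653
  (.l1 (.ls 17 23 946)) (.l1 .sk)) (.nx 746 237 (.l1 .sk) (.lg 0 false 11 83 89 16 0 1635480)))
  (.nr 766 77937 (.nr 762 653 (.lg 0 true 5 61 61 16 0 21240) (.nx 765 262145 (.lg 2 true 3 73 73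
  16 52729 4248) .out)) .out))) .out) .out))))))

def T31_1 : Ph :=
  (.na 517 167 (.na 307 119 (.na 154 84 (.na 63 71 (.na 42 64 (.na 22 63 (.nx 21 2642247 (.nr 20
  881745 (.nr 1 59 .s1 (.nx 9 32769 (.nx 4 237 (.nx 3 236 (.nr 2 685 (.l1 (.ls 37 41 931)) (.l1
  .sk)) (.l1 .sk)) (.nr 6 220437 (.lg 0 false 2 97 101 31 0 297360) (.nx 8 20644 (.lg 0 false 2 101
  103 31 0 297360) .out))) (.nr 19 92683 (.nr 17 46342 (.nx 14 262145 (.nr 12 32769 (.nx 10 82572
  (.lg 0 false 1 89 89 29 0 297360) (.nr 11 4737 (.lg 0 true 1 89 89 29 0 42480) (.lg 2 false 1 89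
  89 29 11132 297360))) (.nx 13 165142 (.lg 2 false 1 83 83 29 39584 297360) .out)) (.nr 16 257
  (.lg 0 true 2 79 79 31 0 42480) .out)) (.nx 18 82572 (.lg 0 true 1 101 103 29 0 297360) .out))
  .out))) .out) .out) (.nx 41 2642247 (.nr 40 881745 (.nr 23 62 .s1 (.nx 34 41287 (.nx 25 236 (.nr
  24 696 (.l1 (.ls 29 31 887)) (.l1 .sk)) (.nx 26 237 (.l1 .sk) (.nx 31 20644 (.lg 0 false 5 89 97
  23 0 148680) (.nr 33 220437 (.lg 0 false 2 97 97 19 0 297360) .out)))) (.nr 39 77937 (.nr 37 696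
  (.lg 0 true 3 79 79 23 0 29736) (.nx 38 262145 (.lg 2 true 1 97 97 17 52729 148680) .out))
  .out))) .out) .out)) (.na 43 68 .ne (.nx 62 2642247 (.nr 61 2097153 (.nr 44 67 .s1 (.nx 47 237
  (.nx 46 236 (.nr 45 772 (.l1 (.ls 31 37 822)) (.l1 .sk)) (.l1 .sk)) (.nx 52 20644 (.nx 48 408
  (.l1 (.ls 89 41 1624)) (.nr 51 1048577 (.lg 0 false 3 97 101 29 0 42480) .out)) (.nr 60 262145
  (.nx 54 32769 (.lg 0 false 2 89 89 23 0 8496) (.nr 59 65537 (.nr 57 772 (.lg 0 true 3 79 79 29 0
  8496) (.nx 58 416129 (.lg 2 true 1 101 101 13 63606 42480) .out)) .out)) .out)))) .out) .out)))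
  (.na 99 76 (.na 80 75 (.nx 79 2642247 (.nr 78 2097153 (.nr 64 70 .s1 (.nx 65 408 (.l1 (.ls 83 31
  2347)) (.nr 77 1048577 (.nx 70 32769 (.lg 0 false 5 89 97 16 0 21240) (.nr 76 65537 (.nr 73 816
  (.lg 0 true 3 71 71 16 0 4248) (.nx 75 416129 (.lg 2 false 2 89 89 16 60176 8496) .out)) .out))
  .out))) .out) .out) (.nx 98 2642247 (.nr 97 2097153 (.nr 81 74 .s1 (.nx 91 32769 (.nx 83 236 (.nr
  82 827 (.l1 (.ls 23 31 745)) (.l1 .sk)) (.nx 84 237 (.l1 .sk) (.nx 85 408 (.l1 (.ls 79 37 1473))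
  (.nr 90 1048577 (.nr 87 262145 (.lg 0 false 2 89 97 19 0 42480) (.nx 89 20644 (.lg 0 false 2 97
  97 19 0 42480) .out)) .out)))) (.nr 96 65537 (.nr 94 827 (.lg 0 true 3 73 73 23 0 21240) (.nx 95
  416129 (.lg 2 true 1 89 89 17 59376 21240) .out)) .out))) .out) .out)) (.na 118 79 (.nx 117
  2642247 (.nr 116 2097153 (.nr 100 75 .s1 (.nx 110 32769 (.nx 108 20644 (.nx 102 236 (.nr 101 859
  (.l1 (.ls 31 37 735)) (.l1 .sk)) (.nx 103 237 (.l1 .sk) (.nx 104 408 (.l1 (.ls 89 41 1454)) (.nr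
  107 1048577 (.lg 0 false 3 101 103 29 0 297360) .out)))) (.nr 109 262145 (.lg 0 true 1 101 101 17
  0 297360) .out)) (.nr 115 65537 (.nr 113 859 (.lg 0 true 3 79 79 29 0 8496) (.nx 114 416129 (.lg
  2 true 1 101 101 17 57164 297360) .out)) .out))) .out) .out) (.na 137 81 (.nx 136 2642247 (.nr
  135 2097153 (.nr 119 78 .s1 (.nx 120 408 (.l1 (.ls 73 29 2110)) (.nr 134 1048577 (.nx 127 32769
  (.lg 0 false 7 89 97 17 0 148680) (.nr 133 65537 (.nr 130 881 (.lg 0 true 3 67 67 16 0 4248) (.nx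
  132 416129 (.lg 2 false 2 83 83 16 55897 8496) .out)) .out)) .out))) .out) .out) (.nx 153 2642247
  (.nr 152 2097153 (.nr 138 80 .s1 (.nx 145 32769 (.nx 139 408 (.l1 (.ls 79 37 2058)) (.nr 144
  1048577 (.lg 0 false 5 83 89 19 0 148680) .out)) (.nr 151 65537 (.nr 148 914 (.lg 0 true 3 71 71
  17 0 4248) (.nx 150 416129 (.lg 2 false 2 83 83 17 55897 297360) .out)) .out))) .out) .out)))))
  (.na 227 100 (.na 190 87 (.na 171 85 (.nx 170 2642247 (.nr 169 2097153 (.nr 155 83 .s1 (.nx 158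
  237 (.nx 157 236 (.nr 156 925 (.l1 (.ls 37 41 666)) (.l1 .sk)) (.l1 .sk)) (.nx 159 408 (.l1 (.ls
  89 43 1316)) (.nr 168 1048577 (.nr 165 262145 (.nx 160 32769 (.lg 0 false 1 101 103 31 0 297360)
  (.nr 164 65537 (.nr 162 925 (.lg 0 true 2 83 83 37 0 59472) (.nx 163 416129 (.lg 2 false 1 97 101
  31 55897 297360) .out)) .out)) (.nx 167 20644 (.lg 0 false 2 97 101 37 0 297360) .out)) .out))))
  .out) .out) (.nx 189 2642247 (.nr 188 2097153 (.nr 172 84 .s1 (.nx 176 408 (.nx 174 236 (.nr 173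
  946 (.l1 (.ls 31 29 658)) (.l1 .sk)) (.nx 175 237 (.l1 .sk) (.l1 (.ls 83 31 1300)))) (.nr 187
  1048577 (.nx 181 32769 (.nx 179 20644 (.lg 0 false 3 97 101 23 0 148680) (.nr 180 262145 (.lg 0
  false 1 89 89 16 0 21240) .out)) (.nr 186 65537 (.nr 184 946 (.lg 0 true 3 79 79 23 0 21240) (.nx
  185 416129 (.lg 2 true 1 89 89 16 55897 21240) .out)) .out)) .out))) .out) .out)) (.na 209 91
  (.nx 208 2642247 (.nr 207 2097153 (.nr 191 86 .s1 (.nx 201 32769 (.nx 193 236 (.nr 192 990 (.l1
  (.ls 23 23 643)) (.l1 .sk)) (.nx 194 237 (.l1 .sk) (.nx 195 408 (.l1 (.ls 83 37 1270)) (.nr 200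
  1048577 (.lg 0 false 5 89 101 23 0 148680) .out)))) (.nr 206 65537 (.nr 204 990 (.lg 0 true 3 79
  79 19 0 4248) (.nx 205 416129 (.lg 2 true 1 97 97 17 55897 148680) .out)) .out))) .out) .out)
  (.na 210 95 .ne (.nx 226 2642247 (.nr 225 2097153 (.nr 211 94 .s1 (.nx 215 408 (.nx 213 236 (.nr
  212 1088 (.l1 (.ls 17 29 589)) (.l1 .sk)) (.nx 214 237 (.l1 .sk) (.l1 (.ls 89 31 1164)))) (.nr
  224 1482912 (.nx 218 27849 (.lg 0 false 3 101 101 17 0 148680) (.nr 223 65537 (.nr 221 1088 (.lg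
  0 true 3 79 79 17 0 21240) (.nx 222 416129 (.lg 2 false 1 97 97 17 65772 148680) .out)) .out))
  .out))) .out) .out)))) (.na 262 107 (.na 243 105 (.nx 242 2642247 (.nr 241 2097153 (.nr 228 99
  .s1 (.nx 230 236 (.nr 229 1142 (.l1 (.ls 29 31 559)) (.l1 .sk)) (.nx 231 237 (.l1 .sk) (.nx 236
  27849 (.nx 232 408 (.l1 (.ls 83 37 1105)) (.nr 235 1482912 (.lg 0 false 3 89 97 29 0 42480)
  .out)) (.nr 240 65537 (.nr 238 513 (.lg 0 true 2 71 71 29 0 42480) (.nx 239 416129 (.lg 2 false 1
  89 89 23 95718 42480) .out)) .out))))) .out) .out) (.nx 261 2642247 (.nr 260 2097153 (.nr 244 104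
  .s1 (.nx 254 27849 (.nx 246 236 (.nr 245 1164 (.l1 (.ls 37 31 533)) (.l1 .sk)) (.nx 247 237 (.l1
  .sk) (.nx 248 408 (.l1 (.ls 89 37 1053)) (.nr 253 1482912 (.nr 250 1048577 (.lg 0 false 2 101 103
  31 0 297360) (.nx 251 10321 .out (.nx 252 26009 (.lg 0 false 1 97 97 29 0 148680) .out)))
  .out)))) (.nr 259 65537 (.nr 257 1164 (.nx 255 1321124 (.lg 0 true 1 79 79 29 0 148680) (.nr 256
  257 (.lg 0 true 1 71 71 29 0 148680) .out)) (.nx 258 416129 (.lg 2 true 1 97 97 29 65772 148680)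
  .out)) .out))) .out) .out)) (.na 278 108 (.nx 277 2642247 (.nr 276 2097153 (.nr 263 106 .s1 (.nx
  270 27849 (.nx 264 408 (.l1 (.ls 73 29 1558)) (.nr 269 1482912 (.lg 0 false 5 83 83 17 0 21240)
  .out)) (.nr 275 65537 (.nr 273 1175 (.lg 0 true 3 67 67 16 0 4248) (.nx 274 416129 (.lg 2 false 1
  79 79 16 65772 21240) .out)) .out))) .out) .out) (.na 294 116 (.nx 293 2642247 (.nr 292 2097153
  (.nr 279 107 .s1 (.nx 287 27849 (.nx 283 408 (.nx 281 236 (.nr 280 1262 (.l1 (.ls 29 37 518))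
  (.l1 .sk)) (.nx 282 237 (.l1 .sk) (.l1 (.ls 83 41 1024)))) (.nr 286 1482912 (.lg 0 false 3 97 101
  31 0 297360) .out)) (.nr 291 65537 (.nr 289 513 (.lg 0 true 2 71 71 29 0 8496) (.nx 290 416129
  (.lg 2 false 1 97 97 23 95718 297360) .out)) .out))) .out) .out) (.nx 306 2642247 (.nr 305
  2097153 (.nr 295 115 .s1 (.nx 300 27849 (.nx 296 408 (.l1 (.ls 89 41 1438)) (.nr 299 1482912 (.lg
  0 false 3 101 103 23 0 297360) .out)) (.nr 304 65537 (.nr 302 513 (.lg 0 true 2 73 73 23 0 8496)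
  (.nx 303 416129 (.lg 2 false 1 101 101 19 95718 297360) .out)) .out))) .out) .out)))))) (.na 421
  140 (.na 362 131 (.na 333 125 (.na 320 123 (.nx 319 2642247 (.nr 318 2097153 (.nr 308 119 .s1
  (.nx 313 27849 (.nx 309 408 (.l1 (.ls 83 37 1401)) (.nr 312 1482912 (.lg 0 false 3 97 101 23 0
  148680) .out)) (.nr 317 65537 (.nr 315 513 (.lg 0 true 2 73 73 23 0 59472) (.nx 316 416129 (.lg 2
  false 1 89 89 16 95718 148680) .out)) .out))) .out) .out) (.nx 332 2642247 (.nr 331 2097153 (.nr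
  321 123 .s1 (.nx 322 408 (.l1 (.ls 83 31 1356)) (.nr 330 1482912 (.nx 325 27849 (.lg 0 false 3 97
  101 23 0 148680) (.nr 329 65537 (.nr 327 513 (.lg 0 true 2 73 73 19 0 8496) (.nx 328 416129 (.lg
  2 false 1 89 89 17 95718 148680) .out)) .out)) .out))) .out) .out)) (.na 347 127 (.nx 346 2642247
  (.nr 345 2097153 (.nr 334 125 .s1 (.nx 339 27849 (.nx 335 408 (.l1 (.ls 73 29 1334)) (.nr 338
  1482912 (.lg 0 false 3 83 83 17 0 21240) .out)) (.nr 344 65537 (.nr 342 1381 (.lg 0 true 3 67 67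
  17 0 21240) (.nx 343 416129 (.lg 2 false 1 79 79 16 65772 21240) .out)) .out))) .out) .out) (.na
  361 128 (.nx 360 2642247 (.nr 359 2097153 (.nr 348 127 .s1 (.nx 349 408 (.l1 (.ls 73 29 1313))
  (.nr 358 1482912 (.nx 352 27849 (.lg 0 false 3 83 83 17 0 4248) (.nr 357 65537 (.nr 355 1392 (.lg
  0 true 3 67 67 17 0 4248) (.nx 356 416129 (.lg 2 false 1 79 79 16 65772 4248) .out)) .out))
  .out))) .out) .out) .ne))) (.na 378 135 (.na 363 133 (.lg 0 false 1 0 0 16 0 24) (.nx 377 1321124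
  (.nr 376 2097153 (.nr 364 133 .s1 (.nx 372 41287 (.nx 370 20644 (.nx 366 236 (.nr 365 1468 (.l1
  (.ls 17 29 421)) (.l1 .sk)) (.nx 367 237 (.l1 .sk) (.lg 0 false 3 89 97 23 0 148680))) (.nr 371
  262145 (.lg 0 true 1 89 89 17 0 148680) .out)) (.nr 375 16385 (.nr 373 1025 (.lg 0 true 1 73 73
  17 0 29736) (.nx 374 165142 (.lg 2 true 1 71 71 17 19012 29736) .out)) .out))) .out) .out)) (.na
  393 137 (.nx 392 1321124 (.nr 391 2097153 (.nr 379 135 .s1 (.nx 382 237 (.nx 381 236 (.nr 380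
  1490 (.l1 (.ls 29 29 415)) (.l1 .sk)) (.l1 .sk)) (.nx 385 20644 (.lg 0 false 3 89 89 29 0 21240)
  (.nr 390 262145 (.nx 386 41287 (.lg 0 false 1 83 83 19 0 21240) (.nr 389 16385 (.nr 387 1025 (.lg
  0 true 1 71 71 19 0 21240) (.nx 388 165142 (.lg 2 true 1 67 67 19 19012 21240) .out)) .out))
  .out)))) .out) .out) (.na 408 139 (.nx 407 1321124 (.nr 406 2097153 (.nr 394 137 .s1 (.nx 396 236
  (.nr 395 1512 (.l1 (.ls 19 19 409)) (.l1 .sk)) (.nx 397 237 (.l1 .sk) (.nx 402 26009 (.lg 0 false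
  5 83 83 17 0 148680) (.nr 405 65537 (.nx 403 165142 (.lg 0 false 1 83 83 16 0 148680) (.nr 404
  1025 (.lg 0 false 1 71 71 16 0 148680) .out)) .out))))) .out) .out) (.nx 420 1321124 (.nr 419
  2097153 (.nr 409 139 .s1 (.nx 411 236 (.nr 410 1523 (.l1 (.ls 19 19 403)) (.l1 .sk)) (.nx 412 237
  (.l1 .sk) (.nx 417 165142 (.nx 415 26009 (.lg 0 false 3 83 83 17 0 4248) (.nr 416 65537 (.lg 0
  false 1 83 83 16 0 148680) .out)) (.nr 418 1025 (.lg 0 false 1 71 71 16 0 148680) .out))))) .out)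
  .out))))) (.na 465 153 (.na 448 147 (.na 435 145 (.nx 434 1321124 (.nr 433 2097153 (.nr 422 140
  .s1 (.nx 425 237 (.nx 424 236 (.nr 423 1577 (.l1 (.ls 37 37 400)) (.l1 .sk)) (.l1 .sk)) (.nx 429
  41287 (.nx 427 20644 (.lg 0 false 2 97 103 37 0 297360) (.nr 428 262145 (.lg 0 false 1 97 97 31 0
  297360) .out)) (.nr 432 16385 (.nx 430 165142 (.lg 0 true 1 89 89 31 0 297360) (.nr 431 1025 (.lg
  0 true 1 79 79 31 0 297360) .out)) .out)))) .out) .out) (.nx 447 1321124 (.nr 446 2097153 (.nr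
  436 145 .s1 (.nx 444 165142 (.nx 438 236 (.nr 437 1599 (.l1 (.ls 23 23 387)) (.l1 .sk)) (.nx 439
  237 (.l1 .sk) (.nx 442 26009 (.lg 0 false 3 89 97 23 0 21240) (.nr 443 65537 (.lg 0 true 1 89 89
  17 0 21240) .out)))) (.nr 445 1025 (.lg 0 true 1 71 71 17 0 21240) .out))) .out) .out)) (.na 463
  149 (.nx 462 1321124 (.nr 461 2097153 (.nr 449 147 .s1 (.nx 457 41287 (.nx 451 236 (.nr 450 1621
  (.l1 (.ls 29 29 381)) (.l1 .sk)) (.nx 452 237 (.l1 .sk) (.nx 455 20644 (.lg 0 false 3 89 97 29 0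
  148680) (.nr 456 262145 (.lg 0 false 1 83 83 23 0 29736) .out)))) (.nr 460 16385 (.nr 458 1025
  (.lg 0 true 1 71 71 23 0 29736) (.nx 459 165142 (.lg 2 true 1 67 67 23 19012 29736) .out))
  .out))) .out) .out) (.na 464 151 (.lg 0 false 1 0 0 16 0 24) (.lg 0 false 1 0 0 16 0 24)))) (.na
  479 159 (.na 478 157 (.nx 477 1321124 (.nr 476 2097153 (.nr 466 153 .s1 (.nx 474 165142 (.nx 472
  26009 (.nx 468 236 (.nr 467 1708 (.l1 (.ls 16 29 367)) (.l1 .sk)) (.nx 469 237 (.l1 .sk) (.lg 0
  false 3 89 97 29 0 148680))) (.nr 473 65537 (.lg 0 true 1 89 89 23 0 4248) .out)) (.nr 475 1025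
  (.lg 0 true 1 67 67 23 0 4248) .out))) .out) .out) (.lg 0 false 1 0 0 16 0 24)) (.na 491 163 (.nx
  490 1321124 (.nr 489 2097153 (.nr 480 159 .s1 (.nx 482 236 (.nr 481 1773 (.l1 (.ls 23 23 353))
  (.l1 .sk)) (.nx 483 237 (.l1 .sk) (.nx 485 26009 (.lg 0 false 2 101 101 23 0 42480) (.nr 488
  65537 (.nx 486 165142 (.lg 0 true 1 89 89 19 0 21240) (.nr 487 1025 (.lg 0 true 1 71 71 19 0
  4248) .out)) .out))))) .out) .out) (.na 504 164 (.nx 503 1321124 (.nr 502 2097153 (.nr 492 163
  .s1 (.nx 500 165142 (.nx 494 236 (.nr 493 1784 (.l1 (.ls 17 19 344)) (.l1 .sk)) (.nx 495 237 (.l1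
  .sk) (.nx 498 26009 (.lg 0 false 3 79 79 17 0 4248) (.nr 499 65537 (.lg 0 false 1 79 79 16 0
  21240) .out)))) (.nr 501 1025 (.lg 0 false 1 67 67 16 0 21240) .out))) .out) .out) (.nx 516
  1321124 (.nr 515 2097153 (.nr 505 164 .s1 (.nx 508 237 (.nx 507 236 (.nr 506 1816 (.l1 (.ls 29 29
  342)) (.l1 .sk)) (.l1 .sk)) (.nx 511 26009 (.lg 0 false 3 97 101 29 0 297360) (.nr 514 65537 (.nx
  512 165142 (.lg 0 false 1 97 97 23 0 297360) (.nr 513 1025 (.lg 0 true 1 73 73 23 0 8496) .out))
  .out)))) .out) .out))))))) (.na 712 213 (.na 612 191 (.na 571 179 (.na 542 173 (.na 530 171 (.nx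
  529 1321124 (.nr 528 2097153 (.nr 518 167 .s1 (.nx 521 237 (.nx 520 236 (.nr 519 1860 (.l1 (.ls
  17 19 336)) (.l1 .sk)) (.l1 .sk)) (.nx 524 41287 (.lg 0 false 3 83 83 17 0 4248) (.nr 527 16385
  (.nr 525 1025 (.lg 0 false 1 67 67 16 0 4248) (.nx 526 165142 (.lg 2 false 1 47 47 16 19012 4248)
  .out)) .out)))) .out) .out) (.nx 541 1321124 (.nr 540 2097153 (.nr 531 171 .s1 (.nx 534 237 (.nx
  533 236 (.nr 532 1882 (.l1 (.ls 17 29 328)) (.l1 .sk)) (.l1 .sk)) (.nx 536 26009 (.lg 0 false 2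
  101 101 29 0 297360) (.nr 539 65537 (.nx 537 165142 (.lg 0 false 1 89 89 17 0 148680) (.nr 538
  1025 (.lg 0 true 1 71 71 17 0 4248) .out)) .out)))) .out) .out)) (.na 543 175 (.lg 0 false 1 0 0
  16 0 24) (.na 556 177 (.nx 555 1321124 (.nr 554 2097153 (.nr 544 175 .s1 (.nx 546 236 (.nr 545
  1925 (.l1 (.ls 29 23 321)) (.l1 .sk)) (.nx 547 237 (.l1 .sk) (.nx 552 165142 (.nx 550 26009 (.lg
  0 false 3 83 89 29 0 148680) (.nr 551 65537 (.lg 0 true 1 83 83 19 0 148680) .out)) (.nr 553 1025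
  (.lg 0 true 1 67 67 19 0 148680) .out))))) .out) .out) (.nx 570 1321124 (.nr 569 2097153 (.nr 557
  177 .s1 (.nx 560 237 (.nx 559 236 (.nr 558 1947 (.l1 (.ls 17 23 317)) (.l1 .sk)) (.l1 .sk)) (.nx
  565 41287 (.lg 0 false 5 79 83 23 0 21240) (.nr 568 16385 (.nr 566 1025 (.lg 0 false 1 61 61 17 0
  4248) (.nx 567 165142 (.lg 2 false 1 47 47 17 19012 4248) .out)) .out)))) .out) .out)))) (.na 586
  181 (.na 572 180 (.lg 0 false 1 0 0 16 0 24) (.nx 585 1321124 (.nr 584 2097153 (.nr 573 180 .s1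
  (.nx 575 236 (.nr 574 1969 (.l1 (.ls 31 37 312)) (.l1 .sk)) (.nx 576 237 (.l1 .sk) (.nx 582
  165142 (.nx 580 41287 (.nr 577 262145 (.lg 0 false 1 89 97 37 0 42480) (.nx 579 20644 (.lg 0
  false 2 89 101 41 0 42480) .out)) (.nr 581 16385 (.lg 0 true 1 79 83 37 0 42480) .out)) (.nr 583
  1025 (.lg 0 true 1 73 73 37 0 42480) .out))))) .out) .out)) (.na 599 182 (.nx 598 1321124 (.nr
  597 2097153 (.nr 587 181 .s1 (.nx 590 237 (.nx 589 236 (.nr 588 1980 (.l1 (.ls 17 19 310)) (.l1
  .sk)) (.l1 .sk)) (.nx 593 41287 (.lg 0 false 3 83 83 17 0 4248) (.nr 596 16385 (.nr 594 1025 (.lg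
  0 false 1 67 67 16 0 4248) (.nx 595 165142 (.lg 2 false 1 61 61 16 19012 148680) .out)) .out))))
  .out) .out) (.na 600 189 .ne (.nx 611 1321124 (.nr 610 1482912 (.nr 601 189 .s1 (.nx 608 165142
  (.nx 603 236 (.nr 602 2077 (.l1 (.ls 23 29 297)) (.l1 .sk)) (.nx 604 237 (.l1 .sk) (.nx 606 26009
  (.lg 0 false 2 89 97 29 0 297360) (.nr 607 65537 (.lg 0 true 1 83 83 23 0 148680) .out)))) (.nr
  609 1025 (.lg 0 true 1 67 67 23 0 29736) .out))) .out) .out))))) (.na 664 203 (.na 626 196 (.na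
  613 193 (.lg 0 false 1 0 0 16 0 24) (.nx 625 1321124 (.nr 624 1482912 (.nr 614 193 .s1 (.nx 620
  41287 (.nx 616 236 (.nr 615 2132 (.l1 (.ls 19 19 291)) (.l1 .sk)) (.nx 617 237 (.l1 .sk) (.lg 0
  false 3 83 83 17 0 148680))) (.nr 623 16385 (.nr 621 1025 (.lg 0 false 1 67 67 16 0 148680) (.nx
  622 165142 (.lg 2 false 1 61 61 16 19012 148680) .out)) .out))) .out) .out)) (.na 638 197 (.nx
  637 1321124 (.nr 636 1482912 (.nr 627 196 .s1 (.nx 630 237 (.nx 629 236 (.nr 628 2143 (.l1 (.ls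
  29 31 287)) (.l1 .sk)) (.l1 .sk)) (.nx 632 26009 (.lg 0 false 2 97 97 31 0 297360) (.nr 635 65537
  (.nx 633 165142 (.lg 0 false 1 89 89 29 0 297360) (.nr 634 1025 (.lg 0 true 1 67 67 29 0 59472)
  .out)) .out)))) .out) .out) (.na 651 199 (.nx 650 1321124 (.nr 649 1482912 (.nr 639 197 .s1 (.nx
  641 236 (.nr 640 2164 (.l1 (.ls 17 19 285)) (.l1 .sk)) (.nx 642 237 (.l1 .sk) (.nx 645 41287 (.lg
  0 false 3 79 79 17 0 4248) (.nr 648 16385 (.nr 646 1025 (.lg 0 false 1 61 61 16 0 4248) (.nx 647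
  165142 (.lg 2 false 1 47 47 16 19012 4248) .out)) .out))))) .out) .out) (.nx 663 1321124 (.nr 662
  1482912 (.nr 652 199 .s1 (.nx 655 237 (.nx 654 236 (.nr 653 2208 (.l1 (.ls 19 19 282)) (.l1 .sk))
  (.l1 .sk)) (.nx 658 41287 (.lg 0 false 3 83 83 17 0 148680) (.nr 661 16385 (.nr 659 1025 (.lg 0
  false 1 67 67 16 0 148680) (.nx 660 165142 (.lg 2 false 1 61 61 16 19012 148680) .out)) .out))))
  .out) .out)))) (.na 687 205 (.na 676 204 (.nx 675 1321124 (.nr 674 1482912 (.nr 665 203 .s1 (.nx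
  667 236 (.nr 666 2219 (.l1 (.ls 23 19 277)) (.l1 .sk)) (.nx 668 237 (.l1 .sk) (.nx 672 165142
  (.nx 670 26009 (.lg 0 false 2 101 101 23 0 297360) (.nr 671 65537 (.lg 0 false 1 89 89 19 0
  148680) .out)) (.nr 673 1025 (.lg 0 true 1 71 71 19 0 29736) .out))))) .out) .out) (.nx 686
  1321124 (.nr 685 1482912 (.nr 677 204 .s1 (.nx 679 236 (.nr 678 2230 (.l1 (.ls 37 37 276)) (.l1
  .sk)) (.nx 680 237 (.l1 .sk) (.nx 683 165142 (.nr 681 65537 (.lg 0 true 1 101 101 37 0 297360)
  (.nx 682 26009 (.lg 0 false 1 103 103 37 0 297360) .out)) (.nr 684 1025 (.lg 0 true 1 79 79 37 0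
  8496) .out))))) .out) .out)) (.na 699 211 (.nx 698 1321124 (.nr 697 1482912 (.nr 688 205 .s1 (.nx
  691 237 (.nx 690 236 (.nr 689 2295 (.l1 (.ls 23 19 274)) (.l1 .sk)) (.l1 .sk)) (.nx 695 165142
  (.nx 693 26009 (.lg 0 false 2 97 97 23 0 42480) (.nr 694 65537 (.lg 0 true 1 83 83 19 0 21240)
  .out)) (.nr 696 1025 (.lg 0 true 1 67 67 19 0 21240) .out)))) .out) .out) (.na 700 212 (.lg 0
  false 1 0 0 16 0 24) (.nx 711 1321124 (.nr 710 1482912 (.nr 701 212 .s1 (.nx 706 26009 (.nx 703
  236 (.nr 702 2317 (.l1 (.ls 29 29 265)) (.l1 .sk)) (.nx 704 237 (.l1 .sk) (.lg 0 false 2 97 97 29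
  0 42480))) (.nr 709 65537 (.nx 707 165142 (.lg 0 true 1 89 89 23 0 8496) (.nr 708 1025 (.lg 0
  true 1 71 71 23 0 8496) .out)) .out))) .out) .out)))))) (.na 801 241 (.na 761 229 (.na 737 225
  (.na 724 223 (.nx 723 1321124 (.nr 722 1482912 (.nr 713 213 .s1 (.nx 718 26009 (.nx 715 236 (.nr
  714 2425 (.l1 (.ls 23 23 264)) (.l1 .sk)) (.nx 716 237 (.l1 .sk) (.lg 0 false 2 97 101 23 0
  297360))) (.nr 721 65537 (.nx 719 165142 (.lg 0 true 1 89 89 19 0 148680) (.nr 720 1025 (.lg 0
  true 1 61 61 19 0 4248) .out)) .out))) .out) .out) (.nx 736 1321124 (.nr 735 1482912 (.nr 725 223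
  .s1 (.nx 728 237 (.nx 727 236 (.nr 726 2447 (.l1 (.ls 17 17 252)) (.l1 .sk)) (.l1 .sk)) (.nx 731
  41287 (.lg 0 false 3 79 79 19 0 4248) (.nr 734 16385 (.nr 732 1025 (.lg 0 false 1 61 61 16 0
  4248) (.nx 733 165142 (.lg 2 false 1 47 47 16 19012 4248) .out)) .out)))) .out) .out)) (.na 749
  227 (.nx 748 1321124 (.nr 747 1482912 (.nr 738 225 .s1 (.nx 740 236 (.nr 739 2469 (.l1 (.ls 23 29
  250)) (.l1 .sk)) (.nx 741 237 (.l1 .sk) (.nx 745 165142 (.nx 743 26009 (.lg 0 false 2 89 89 29 0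
  42480) (.nr 744 65537 (.lg 0 true 1 83 83 23 0 21240) .out)) (.nr 746 1025 (.lg 0 true 1 61 61 23
  0 21240) .out))))) .out) .out) (.na 750 228 (.lg 0 false 1 0 0 16 0 24) (.nx 760 1321124 (.nr 759
  1482912 (.nr 751 228 .s1 (.nx 754 237 (.nx 753 236 (.nr 752 2491 (.l1 (.ls 17 37 247)) (.l1 .sk))
  (.l1 .sk)) (.nr 757 65537 (.nx 755 165142 (.lg 0 true 1 97 101 37 0 297360) (.nr 756 1025 (.lg 0
  true 1 73 73 37 0 8496) .out)) (.nx 758 26009 (.lg 0 false 1 101 103 37 0 297360) .out)))) .out)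
  .out)))) (.na 763 236 (.na 762 233 (.lg 0 false 1 0 0 16 0 24) (.lg 0 false 1 0 0 16 0 24)) (.na
  776 237 (.nx 775 1321124 (.nr 774 1482912 (.nr 764 236 .s1 (.nx 766 236 (.nr 765 2578 (.l1 (.ls
  19 29 238)) (.l1 .sk)) (.nx 767 237 (.l1 .sk) (.nx 770 41287 (.lg 0 false 3 83 83 29 0 42480)
  (.nr 773 16385 (.nr 771 1025 (.lg 0 false 1 67 67 23 0 42480) (.nx 772 165142 (.lg 2 true 1 47 47
  23 19012 8496) .out)) .out))))) .out) .out) (.na 788 239 (.nx 787 1321124 (.nr 786 1482912 (.nr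
  777 237 .s1 (.nx 782 26009 (.nx 779 236 (.nr 778 2599 (.l1 (.ls 23 23 238)) (.l1 .sk)) (.nx 780
  237 (.l1 .sk) (.lg 0 false 2 89 89 23 0 8496))) (.nr 785 65537 (.nx 783 165142 (.lg 0 true 1 83
  83 19 0 4248) (.nr 784 1025 (.lg 0 true 1 61 61 19 0 4248) .out)) .out))) .out) .out) (.nx 800
  1321124 (.nr 799 1482912 (.nr 789 239 .s1 (.nx 795 41287 (.nx 791 236 (.nr 790 2621 (.l1 (.ls 17
  17 236)) (.l1 .sk)) (.nx 792 237 (.l1 .sk) (.lg 0 false 3 79 79 19 0 4248))) (.nr 798 16385 (.nr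
  796 1025 (.lg 0 false 1 61 61 17 0 4248) (.nx 797 165142 (.lg 2 true 1 47 47 17 19012 4248)
  .out)) .out))) .out) .out))))) (.na 861 255 (.na 825 245 (.na 812 243 (.nx 811 1321124 (.nr 810
  1482912 (.nr 802 241 .s1 (.nx 804 236 (.nr 803 2643 (.l1 (.ls 17 17 234)) (.l1 .sk)) (.nx 805 237
  (.l1 .sk) (.nx 808 41287 (.lg 0 false 3 79 79 19 0 148680) (.nr 809 16385 (.lg 0 false 1 79 79 17
  0 4248) .out))))) .out) .out) (.nx 824 1321124 (.nr 823 1482912 (.nr 813 243 .s1 (.nx 816 237
  (.nx 815 236 (.nr 814 2665 (.l1 (.ls 17 23 232)) (.l1 .sk)) (.l1 .sk)) (.nx 819 41287 (.lg 0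
  false 3 79 79 23 0 4248) (.nr 822 16385 (.nr 820 1025 (.lg 0 false 1 61 61 19 0 21240) (.nx 821
  165142 (.lg 2 true 1 43 43 19 19012 4248) .out)) .out)))) .out) .out)) (.na 837 251 (.nx 836
  1321124 (.nr 835 1482912 (.nr 826 245 .s1 (.nx 833 165142 (.nx 828 236 (.nr 827 2730 (.l1 (.ls 29
  23 230)) (.l1 .sk)) (.nx 829 237 (.l1 .sk) (.nx 831 26009 (.lg 0 false 2 89 89 29 0 297360) (.nr
  832 65537 (.lg 0 true 1 83 83 23 0 148680) .out)))) (.nr 834 1025 (.lg 0 true 1 67 67 23 0
  148680) .out))) .out) .out) (.na 850 252 (.nx 849 1321124 (.nr 848 1482912 (.nr 838 251 .s1 (.nx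
  840 236 (.nr 839 2741 (.l1 (.ls 17 17 224)) (.l1 .sk)) (.nx 841 237 (.l1 .sk) (.nx 844 41287 (.lg
  0 false 3 79 79 19 0 4248) (.nr 847 16385 (.nr 845 1025 (.lg 0 false 1 61 61 17 0 4248) (.nx 846
  165142 (.lg 2 true 1 47 47 17 19012 4248) .out)) .out))))) .out) .out) (.nx 860 1321124 (.nr 859
  1482912 (.nr 851 252 .s1 (.nx 857 165142 (.nx 853 236 (.nr 852 2773 (.l1 (.ls 37 37 224)) (.l1
  .sk)) (.nx 854 237 (.l1 .sk) (.nr 855 65537 (.lg 0 true 1 89 97 37 0 297360) (.nx 856 26009 (.lg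
  0 false 1 97 101 37 0 297360) .out)))) (.nr 858 1025 (.lg 0 true 1 71 71 37 0 59472) .out)))
  .out) .out)))) (.na 873 257 (.na 872 256 (.nx 871 1321124 (.nr 870 1482912 (.nr 862 255 .s1 (.nx
  868 165142 (.nr 864 65537 (.nx 863 408 (.l1 (.ls 61 37 655)) (.lg 0 true 1 89 97 31 0 148680))
  (.nx 866 237 (.nx 865 236 (.l1 .sk) (.l1 .sk)) (.nx 867 26009 (.lg 0 false 1 101 101 31 0 148680)
  .out))) (.nr 869 1025 (.lg 0 true 1 73 73 31 0 148680) .out))) .out) .out) .ne) (.na 1304 363
  (.nx 1303 1321124 (.nr 1302 1482912 (.nr 874 257 .s1 (.nx 1195 165142 (.nx 981 236 (.nr 980 3948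
  (.la (.ls 31 23 219)) (.l1 .sk)) (.nx 982 237 (.l1 .sk) (.nx 1088 26009 (.la (.lg 0 false 1 83 83
  23 0)) (.nr 1194 32769 (.la (.lg 0 true 1 73 73 23 0)) .out)))) (.nr 1301 2049 (.la (.lg 0 true 1
  67 67 23 0)) .out))) .out) .out) (.na 1907 512 (.nx 1906 1321124 (.nr 1905 1482912 (.nr 1305 363
  .s1 (.nx 1456 237 (.nx 1455 236 (.nr 1454 5568 (.la (.ls 37 19 156)) (.l1 .sk)) (.l1 .sk)) (.nx
  1755 165142 (.nx 1605 26009 (.la (.lg 0 false 1 79 79 23 0)) (.nr 1754 32769 (.la (.lg 0 true 1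
  71 71 23 0)) .out)) (.nr 1904 2049 (.la (.lg 0 true 1 61 61 23 0)) .out)))) .out) .out) (.nx 2573
  1321124 (.nr 2572 1482912 (.nr 1908 512 .s1 (.nx 2145 237 (.nx 2144 236 (.nr 2143 7884 (.lx (.lp
  37 23 182)) (.l1 .sk)) (.l1 .sk)) (.nr 2358 32769 (.la (.lg 0 true 1 79 79 29 0)) (.nx 2571 26009
  (.la (.lg 0 false 1 79 79 29 0)) .out)))) .out) .out))))))))

theorem c31 :
    OkQ ckI L10 236 10 60 0 34359738368 1 1099511627776 ∧
    OkQ ckI L10 236 60 725 0 34359738368 1 1099511627776 := by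
  refine ⟨?_, ?_⟩
  · refine fin 4248 769 T31_0 ?_
    refine jn 4 (by decide +kernel) ?_
    refine jn 5 (by decide +kernel) ?_
    refine jn 6 (by decide +kernel) ?_
    refine jn 7 (by decide +kernel) ?_
    refine jn 8 (by decide +kernel) ?_
    refine jn 9 (by decide +kernel) ?_
    refine jn 10 (by decide +kernel) ?_
    refine jn 11 (by decide +kernel) ?_
    refine jn 12 (by decide +kernel) ?_
    refine jn 13 (by decide +kernel) ?_
    refine jn 14 (by decide +kernel) ?_
    refine jn 15 (by decide +kernel) ?_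
    refine jn 20 (by decide +kernel) ?_
    refine jn 21 (by decide +kernel) ?_
    refine jn 22 (by decide +kernel) ?_
    refine jn 23 (by decide +kernel) ?_
    refine jn 24 (by decide +kernel) ?_
    refine jn 25 (by decide +kernel) ?_
    refine jn 26 (by decide +kernel) ?_
    refine jn 27 (by decide +kernel) ?_
    refine jn 28 (by decide +kernel) ?_
    refine jn 32 (by decide +kernel) ?_
    refine jn 36 (by decide +kernel) ?_
    refine jn 39 (by decide +kernel) ?_
    refine jn 42 (by decide +kernel) ?_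
    refine jn 47 (by decide +kernel) ?_
    refine jn 52 (by decide +kernel) ?_
    refine jn 53 (by decide +kernel) ?_
    refine jn 57 (by decide +kernel) ?_
    refine jn 61 (by decide +kernel) ?_
    refine jn 64 (by decide +kernel) ?_
    refine jn 69 (by decide +kernel) ?_
    refine jn 74 (by decide +kernel) ?_
    refine jn 78 (by decide +kernel) ?_
    refine jn 80 (by decide +kernel) ?_
    refine jn 88 (by decide +kernel) ?_
    refine jn 93 (by decide +kernel) ?_
    refine jn 99 (by decide +kernel) ?_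
    refine jn 100 (by decide +kernel) ?_
    refine jn 101 (by decide +kernel) ?_
    refine jn 102 (by decide +kernel) ?_
    refine jn 103 (by decide +kernel) ?_
    refine jn 104 (by decide +kernel) ?_
    refine jn 105 (by decide +kernel) ?_
    refine jn 106 (by decide +kernel) ?_
    refine jn 107 (by decide +kernel) ?_
    refine jn 108 (by decide +kernel) ?_
    refine jn 109 (by decide +kernel) ?_
    refine jn 110 (by decide +kernel) ?_
    refine jn 111 (by decide +kernel) ?_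
    refine jn 115 (by decide +kernel) ?_
    refine jn 116 (by decide +kernel) ?_
    refine jn 117 (by decide +kernel) ?_
    refine jn 118 (by decide +kernel) ?_
    refine jn 119 (by decide +kernel) ?_
    refine jn 123 (by decide +kernel) ?_
    refine jn 127 (by decide +kernel) ?_
    refine jn 130 (by decide +kernel) ?_
    refine jn 135 (by decide +kernel) ?_
    refine jn 138 (by decide +kernel) ?_
    refine jn 142 (by decide +kernel) ?_
    refine jn 144 (by decide +kernel) ?_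
    refine jn 146 (by decide +kernel) ?_
    refine jn 150 (by decide +kernel) ?_
    refine jn 154 (by decide +kernel) ?_
    refine jn 157 (by decide +kernel) ?_
    refine jn 161 (by decide +kernel) ?_
    refine jn 164 (by decide +kernel) ?_
    refine jn 168 (by decide +kernel) ?_
    refine jn 180 (by decide +kernel) ?_
    refine jn 186 (by decide +kernel) ?_
    refine jn 191 (by decide +kernel) ?_
    refine jn 196 (by decide +kernel) ?_
    refine jn 201 (by decide +kernel) ?_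
    refine jn 214 (by decide +kernel) ?_
    refine jn 221 (by decide +kernel) ?_
    refine jn 231 (by decide +kernel) ?_
    refine jn 240 (by decide +kernel) ?_
    refine jn 246 (by decide +kernel) ?_
    refine jn 252 (by decide +kernel) ?_
    refine jn 253 (by decide +kernel) ?_
    refine jn 260 (by decide +kernel) ?_
    refine jn 267 (by decide +kernel) ?_
    refine jn 275 (by decide +kernel) ?_
    refine jn 284 (by decide +kernel) ?_
    refine jn 291 (by decide +kernel) ?_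
    refine jn 292 (by decide +kernel) ?_
    refine jn 293 (by decide +kernel) ?_
    refine jn 294 (by decide +kernel) ?_
    refine jn 295 (by decide +kernel) ?_
    refine jn 296 (by decide +kernel) ?_
    refine jn 297 (by decide +kernel) ?_
    refine jn 298 (by decide +kernel) ?_
    refine jn 299 (by decide +kernel) ?_
    refine jn 300 (by decide +kernel) ?_
    refine jn 301 (by decide +kernel) ?_
    refine jn 302 (by decide +kernel) ?_
    refine jn 303 (by decide +kernel) ?_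
    refine jn 304 (by decide +kernel) ?_
    refine jn 305 (by decide +kernel) ?_
    refine jn 308 (by decide +kernel) ?_
    refine jn 312 (by decide +kernel) ?_
    refine jn 316 (by decide +kernel) ?_
    refine jn 319 (by decide +kernel) ?_
    refine jn 328 (by decide +kernel) ?_
    refine jn 332 (by decide +kernel) ?_
    refine jn 335 (by decide +kernel) ?_
    refine jn 342 (by decide +kernel) ?_
    refine jn 343 (by decide +kernel) ?_
    refine jn 344 (by decide +kernel) ?_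
    refine jn 345 (by decide +kernel) ?_
    refine jn 346 (by decide +kernel) ?_
    refine jn 348 (by decide +kernel) ?_
    refine jn 349 (by decide +kernel) ?_
    refine jn 350 (by decide +kernel) ?_
    refine jn 351 (by decide +kernel) ?_
    refine jn 352 (by decide +kernel) ?_
    refine jn 353 (by decide +kernel) ?_
    refine jn 355 (by decide +kernel) ?_
    refine jn 356 (by decide +kernel) ?_
    refine jn 357 (by decide +kernel) ?_
    refine jn 362 (by decide +kernel) ?_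
    refine jn 367 (by decide +kernel) ?_
    refine jn 370 (by decide +kernel) ?_
    refine jn 377 (by decide +kernel) ?_
    refine jn 382 (by decide +kernel) ?_
    refine jn 394 (by decide +kernel) ?_
    refine jn 401 (by decide +kernel) ?_
    refine jn 408 (by decide +kernel) ?_
    refine jn 417 (by decide +kernel) ?_
    refine jn 427 (by decide +kernel) ?_
    refine jn 439 (by decide +kernel) ?_
    refine jn 447 (by decide +kernel) ?_
    refine jn 453 (by decide +kernel) ?_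
    refine jn 463 (by decide +kernel) ?_
    refine jn 477 (by decide +kernel) ?_
    refine jn 478 (by decide +kernel) ?_
    refine jn 480 (by decide +kernel) ?_
    refine jn 482 (by decide +kernel) ?_
    refine jn 485 (by decide +kernel) ?_
    refine jn 489 (by decide +kernel) ?_
    refine jn 491 (by decide +kernel) ?_
    refine jn 493 (by decide +kernel) ?_
    refine jn 496 (by decide +kernel) ?_
    refine jn 499 (by decide +kernel) ?_
    refine jn 507 (by decide +kernel) ?_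
    refine jn 520 (by decide +kernel) ?_
    refine jn 529 (by decide +kernel) ?_
    refine jn 539 (by decide +kernel) ?_
    refine jn 552 (by decide +kernel) ?_
    refine jn 553 (by decide +kernel) ?_
    refine jn 554 (by decide +kernel) ?_
    refine jn 555 (by decide +kernel) ?_
    refine jn 556 (by decide +kernel) ?_
    refine jn 557 (by decide +kernel) ?_
    refine jn 559 (by decide +kernel) ?_
    refine jn 561 (by decide +kernel) ?_
    refine jn 567 (by decide +kernel) ?_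
    refine jn 576 (by decide +kernel) ?_
    refine jn 580 (by decide +kernel) ?_
    refine jn 582 (by decide +kernel) ?_
    refine jn 584 (by decide +kernel) ?_
    refine jn 585 (by decide +kernel) ?_
    refine jn 588 (by decide +kernel) ?_
    refine jn 590 (by decide +kernel) ?_
    refine jn 594 (by decide +kernel) ?_
    refine jn 601 (by decide +kernel) ?_
    refine jn 612 (by decide +kernel) ?_
    refine jn 620 (by decide +kernel) ?_
    refine jn 633 (by decide +kernel) ?_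
    refine jn 634 (by decide +kernel) ?_
    refine jn 635 (by decide +kernel) ?_
    refine jn 636 (by decide +kernel) ?_
    refine jn 640 (by decide +kernel) ?_
    refine jn 642 (by decide +kernel) ?_
    refine jn 644 (by decide +kernel) ?_
    refine jn 649 (by decide +kernel) ?_
    refine jn 663 (by decide +kernel) ?_
    refine jn 671 (by decide +kernel) ?_
    refine jn 682 (by decide +kernel) ?_
    refine jn 685 (by decide +kernel) ?_
    refine jn 688 (by decide +kernel) ?_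
    refine jn 692 (by decide +kernel) ?_
    refine jn 695 (by decide +kernel) ?_
    refine jn 709 (by decide +kernel) ?_
    refine jn 717 (by decide +kernel) ?_
    refine jn 728 (by decide +kernel) ?_
    refine jn 730 (by decide +kernel) ?_
    refine jn 733 (by decide +kernel) ?_
    refine jn 736 (by decide +kernel) ?_
    refine jn 738 (by decide +kernel) ?_
    refine jn 765 (by decide +kernel) ?_
    exact je (by decide +kernel)
  · refine fin 4248 2574 T31_1 ?_
    refine jn 4 (by decide +kernel) ?_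
    refine jn 5 (by decide +kernel) ?_
    refine jn 6 (by decide +kernel) ?_
    refine jn 7 (by decide +kernel) ?_
    refine jn 8 (by decide +kernel) ?_
    refine jn 9 (by decide +kernel) ?_
    refine jn 10 (by decide +kernel) ?_
    refine jn 11 (by decide +kernel) ?_
    refine jn 12 (by decide +kernel) ?_
    refine jn 13 (by decide +kernel) ?_
    refine jn 15 (by decide +kernel) ?_
    refine jn 16 (by decide +kernel) ?_
    refine jn 26 (by decide +kernel) ?_
    refine jn 29 (by decide +kernel) ?_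
    refine jn 31 (by decide +kernel) ?_
    refine jn 34 (by decide +kernel) ?_
    refine jn 37 (by decide +kernel) ?_
    refine jn 45 (by decide +kernel) ?_
    refine jn 51 (by decide +kernel) ?_
    refine jn 54 (by decide +kernel) ?_
    refine jn 57 (by decide +kernel) ?_
    refine jn 65 (by decide +kernel) ?_
    refine jn 73 (by decide +kernel) ?_
    refine jn 85 (by decide +kernel) ?_
    refine jn 89 (by decide +kernel) ?_
    refine jn 94 (by decide +kernel) ?_
    refine jn 103 (by decide +kernel) ?_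
    refine jn 107 (by decide +kernel) ?_
    refine jn 113 (by decide +kernel) ?_
    refine jn 120 (by decide +kernel) ?_
    refine jn 130 (by decide +kernel) ?_
    refine jn 144 (by decide +kernel) ?_
    refine jn 155 (by decide +kernel) ?_
    refine jn 159 (by decide +kernel) ?_
    refine jn 160 (by decide +kernel) ?_
    refine jn 161 (by decide +kernel) ?_
    refine jn 162 (by decide +kernel) ?_
    refine jn 163 (by decide +kernel) ?_
    refine jn 167 (by decide +kernel) ?_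
    refine jn 179 (by decide +kernel) ?_
    refine jn 184 (by decide +kernel) ?_
    refine jn 194 (by decide +kernel) ?_
    refine jn 199 (by decide +kernel) ?_
    refine jn 204 (by decide +kernel) ?_
    refine jn 214 (by decide +kernel) ?_
    refine jn 218 (by decide +kernel) ?_
    refine jn 221 (by decide +kernel) ?_
    refine jn 232 (by decide +kernel) ?_
    refine jn 235 (by decide +kernel) ?_
    refine jn 239 (by decide +kernel) ?_
    refine jn 248 (by decide +kernel) ?_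
    refine jn 249 (by decide +kernel) ?_
    refine jn 250 (by decide +kernel) ?_
    refine jn 254 (by decide +kernel) ?_
    refine jn 255 (by decide +kernel) ?_
    refine jn 257 (by decide +kernel) ?_
    refine jn 258 (by decide +kernel) ?_
    refine jn 273 (by decide +kernel) ?_
    refine jn 286 (by decide +kernel) ?_
    refine jn 290 (by decide +kernel) ?_
    refine jn 299 (by decide +kernel) ?_
    refine jn 303 (by decide +kernel) ?_
    refine jn 312 (by decide +kernel) ?_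
    refine jn 316 (by decide +kernel) ?_
    refine jn 325 (by decide +kernel) ?_
    refine jn 328 (by decide +kernel) ?_
    refine jn 343 (by decide +kernel) ?_
    refine jn 356 (by decide +kernel) ?_
    refine jn 370 (by decide +kernel) ?_
    refine jn 374 (by decide +kernel) ?_
    refine jn 385 (by decide +kernel) ?_
    refine jn 388 (by decide +kernel) ?_
    refine jn 404 (by decide +kernel) ?_
    refine jn 418 (by decide +kernel) ?_
    refine jn 425 (by decide +kernel) ?_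
    refine jn 427 (by decide +kernel) ?_
    refine jn 430 (by decide +kernel) ?_
    refine jn 439 (by decide +kernel) ?_
    refine jn 443 (by decide +kernel) ?_
    refine jn 455 (by decide +kernel) ?_
    refine jn 459 (by decide +kernel) ?_
    refine jn 472 (by decide +kernel) ?_
    refine jn 480 (by decide +kernel) ?_
    refine jn 486 (by decide +kernel) ?_
    refine jn 499 (by decide +kernel) ?_
    refine jn 511 (by decide +kernel) ?_
    refine jn 524 (by decide +kernel) ?_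
    refine jn 536 (by decide +kernel) ?_
    refine jn 545 (by decide +kernel) ?_
    refine jn 551 (by decide +kernel) ?_
    refine jn 566 (by decide +kernel) ?_
    refine jn 576 (by decide +kernel) ?_
    refine jn 577 (by decide +kernel) ?_
    refine jn 579 (by decide +kernel) ?_
    refine jn 583 (by decide +kernel) ?_
    refine jn 595 (by decide +kernel) ?_
    refine jn 607 (by decide +kernel) ?_
    refine jn 621 (by decide +kernel) ?_
    refine jn 633 (by decide +kernel) ?_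
    refine jn 646 (by decide +kernel) ?_
    refine jn 660 (by decide +kernel) ?_
    refine jn 671 (by decide +kernel) ?_
    refine jn 680 (by decide +kernel) ?_
    refine jn 682 (by decide +kernel) ?_
    refine jn 693 (by decide +kernel) ?_
    refine jn 706 (by decide +kernel) ?_
    refine jn 718 (by decide +kernel) ?_
    refine jn 731 (by decide +kernel) ?_
    refine jn 743 (by decide +kernel) ?_
    refine jn 751 (by decide +kernel) ?_
    refine jn 755 (by decide +kernel) ?_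
    refine jn 758 (by decide +kernel) ?_
    refine jn 772 (by decide +kernel) ?_
    refine jn 783 (by decide +kernel) ?_
    refine jn 797 (by decide +kernel) ?_
    refine jn 819 (by decide +kernel) ?_
    refine jn 831 (by decide +kernel) ?_
    refine jn 844 (by decide +kernel) ?_
    refine jn 854 (by decide +kernel) ?_
    refine jn 856 (by decide +kernel) ?_
    refine jn 863 (by decide +kernel) ?_
    refine jn 867 (by decide +kernel) ?_
    refine jn 894 (by decide +kernel) ?_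
    refine jn 917 (by decide +kernel) ?_
    refine jn 938 (by decide +kernel) ?_
    refine jn 965 (by decide +kernel) ?_
    refine jn 982 (by decide +kernel) ?_
    refine jn 988 (by decide +kernel) ?_
    refine jn 996 (by decide +kernel) ?_
    refine jn 1009 (by decide +kernel) ?_
    refine jn 1010 (by decide +kernel) ?_
    refine jn 1011 (by decide +kernel) ?_
    refine jn 1018 (by decide +kernel) ?_
    refine jn 1025 (by decide +kernel) ?_
    refine jn 1026 (by decide +kernel) ?_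
    refine jn 1040 (by decide +kernel) ?_
    refine jn 1041 (by decide +kernel) ?_
    refine jn 1046 (by decide +kernel) ?_
    refine jn 1049 (by decide +kernel) ?_
    refine jn 1065 (by decide +kernel) ?_
    refine jn 1066 (by decide +kernel) ?_
    refine jn 1073 (by decide +kernel) ?_
    refine jn 1074 (by decide +kernel) ?_
    refine jn 1082 (by decide +kernel) ?_
    refine jn 1083 (by decide +kernel) ?_
    refine jn 1092 (by decide +kernel) ?_
    refine jn 1102 (by decide +kernel) ?_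
    refine jn 1115 (by decide +kernel) ?_
    refine jn 1116 (by decide +kernel) ?_
    refine jn 1118 (by decide +kernel) ?_
    refine jn 1126 (by decide +kernel) ?_
    refine jn 1138 (by decide +kernel) ?_
    refine jn 1146 (by decide +kernel) ?_
    refine jn 1148 (by decide +kernel) ?_
    refine jn 1155 (by decide +kernel) ?_
    refine jn 1171 (by decide +kernel) ?_
    refine jn 1179 (by decide +kernel) ?_
    refine jn 1188 (by decide +kernel) ?_
    refine jn 1192 (by decide +kernel) ?_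
    refine jn 1201 (by decide +kernel) ?_
    refine jn 1219 (by decide +kernel) ?_
    refine jn 1223 (by decide +kernel) ?_
    refine jn 1225 (by decide +kernel) ?_
    refine jn 1238 (by decide +kernel) ?_
    refine jn 1249 (by decide +kernel) ?_
    refine jn 1254 (by decide +kernel) ?_
    refine jn 1261 (by decide +kernel) ?_
    refine jn 1278 (by decide +kernel) ?_
    refine jn 1281 (by decide +kernel) ?_
    refine jn 1293 (by decide +kernel) ?_
    refine jn 1297 (by decide +kernel) ?_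
    refine jn 1322 (by decide +kernel) ?_
    refine jn 1343 (by decide +kernel) ?_
    refine jn 1362 (by decide +kernel) ?_
    refine jn 1363 (by decide +kernel) ?_
    refine jn 1417 (by decide +kernel) ?_
    refine jn 1434 (by decide +kernel) ?_
    refine jn 1462 (by decide +kernel) ?_
    refine jn 1466 (by decide +kernel) ?_
    refine jn 1472 (by decide +kernel) ?_
    refine jn 1473 (by decide +kernel) ?_
    refine jn 1474 (by decide +kernel) ?_
    refine jn 1482 (by decide +kernel) ?_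
    refine jn 1492 (by decide +kernel) ?_
    refine jn 1493 (by decide +kernel) ?_
    refine jn 1506 (by decide +kernel) ?_
    refine jn 1513 (by decide +kernel) ?_
    refine jn 1514 (by decide +kernel) ?_
    refine jn 1526 (by decide +kernel) ?_
    refine jn 1528 (by decide +kernel) ?_
    refine jn 1529 (by decide +kernel) ?_
    refine jn 1552 (by decide +kernel) ?_
    refine jn 1568 (by decide +kernel) ?_
    refine jn 1569 (by decide +kernel) ?_
    refine jn 1570 (by decide +kernel) ?_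
    refine jn 1582 (by decide +kernel) ?_
    refine jn 1585 (by decide +kernel) ?_
    refine jn 1586 (by decide +kernel) ?_
    refine jn 1592 (by decide +kernel) ?_
    refine jn 1594 (by decide +kernel) ?_
    refine jn 1611 (by decide +kernel) ?_
    refine jn 1617 (by decide +kernel) ?_
    refine jn 1622 (by decide +kernel) ?_
    refine jn 1623 (by decide +kernel) ?_
    refine jn 1637 (by decide +kernel) ?_
    refine jn 1641 (by decide +kernel) ?_
    refine jn 1647 (by decide +kernel) ?_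
    refine jn 1659 (by decide +kernel) ?_
    refine jn 1662 (by decide +kernel) ?_
    refine jn 1663 (by decide +kernel) ?_
    refine jn 1677 (by decide +kernel) ?_
    refine jn 1683 (by decide +kernel) ?_
    refine jn 1703 (by decide +kernel) ?_
    refine jn 1718 (by decide +kernel) ?_
    refine jn 1719 (by decide +kernel) ?_
    refine jn 1731 (by decide +kernel) ?_
    refine jn 1734 (by decide +kernel) ?_
    refine jn 1739 (by decide +kernel) ?_
    refine jn 1743 (by decide +kernel) ?_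
    refine jn 1763 (by decide +kernel) ?_
    refine jn 1772 (by decide +kernel) ?_
    refine jn 1773 (by decide +kernel) ?_
    refine jn 1791 (by decide +kernel) ?_
    refine jn 1797 (by decide +kernel) ?_
    refine jn 1812 (by decide +kernel) ?_
    refine jn 1813 (by decide +kernel) ?_
    refine jn 1827 (by decide +kernel) ?_
    refine jn 1833 (by decide +kernel) ?_
    refine jn 1867 (by decide +kernel) ?_
    refine jn 1868 (by decide +kernel) ?_
    refine jn 1869 (by decide +kernel) ?_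
    refine jn 1883 (by decide +kernel) ?_
    refine jn 1885 (by decide +kernel) ?_
    refine jn 1893 (by decide +kernel) ?_
    refine jn 1943 (by decide +kernel) ?_
    refine jn 2028 (by decide +kernel) ?_
    refine jn 2146 (by decide +kernel) ?_
    refine jn 2158 (by decide +kernel) ?_
    refine jn 2164 (by decide +kernel) ?_
    refine jn 2165 (by decide +kernel) ?_
    refine jn 2166 (by decide +kernel) ?_
    refine jn 2173 (by decide +kernel) ?_
    refine jn 2176 (by decide +kernel) ?_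
    refine jn 2181 (by decide +kernel) ?_
    refine jn 2186 (by decide +kernel) ?_
    refine jn 2190 (by decide +kernel) ?_
    refine jn 2212 (by decide +kernel) ?_
    refine jn 2213 (by decide +kernel) ?_
    refine jn 2214 (by decide +kernel) ?_
    refine jn 2224 (by decide +kernel) ?_
    refine jn 2228 (by decide +kernel) ?_
    refine jn 2230 (by decide +kernel) ?_
    refine jn 2242 (by decide +kernel) ?_
    refine jn 2245 (by decide +kernel) ?_
    refine jn 2248 (by decide +kernel) ?_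
    refine jn 2250 (by decide +kernel) ?_
    refine jn 2264 (by decide +kernel) ?_
    refine jn 2269 (by decide +kernel) ?_
    refine jn 2272 (by decide +kernel) ?_
    refine jn 2280 (by decide +kernel) ?_
    refine jn 2294 (by decide +kernel) ?_
    refine jn 2298 (by decide +kernel) ?_
    refine jn 2301 (by decide +kernel) ?_
    refine jn 2308 (by decide +kernel) ?_
    refine jn 2317 (by decide +kernel) ?_
    refine jn 2318 (by decide +kernel) ?_
    refine jn 2330 (by decide +kernel) ?_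
    refine jn 2333 (by decide +kernel) ?_
    refine jn 2341 (by decide +kernel) ?_
    refine jn 2350 (by decide +kernel) ?_
    refine jn 2357 (by decide +kernel) ?_
    refine jn 2367 (by decide +kernel) ?_
    refine jn 2371 (by decide +kernel) ?_
    refine jn 2377 (by decide +kernel) ?_
    refine jn 2378 (by decide +kernel) ?_
    refine jn 2381 (by decide +kernel) ?_
    refine jn 2386 (by decide +kernel) ?_
    refine jn 2389 (by decide +kernel) ?_
    refine jn 2397 (by decide +kernel) ?_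
    refine jn 2402 (by decide +kernel) ?_
    refine jn 2417 (by decide +kernel) ?_
    refine jn 2426 (by decide +kernel) ?_
    refine jn 2434 (by decide +kernel) ?_
    refine jn 2437 (by decide +kernel) ?_
    refine jn 2441 (by decide +kernel) ?_
    refine jn 2443 (by decide +kernel) ?_
    refine jn 2455 (by decide +kernel) ?_
    refine jn 2458 (by decide +kernel) ?_
    refine jn 2461 (by decide +kernel) ?_
    refine jn 2465 (by decide +kernel) ?_
    refine jn 2481 (by decide +kernel) ?_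
    refine jn 2482 (by decide +kernel) ?_
    refine jn 2485 (by decide +kernel) ?_
    refine jn 2493 (by decide +kernel) ?_
    refine jn 2507 (by decide +kernel) ?_
    refine jn 2514 (by decide +kernel) ?_
    refine jn 2521 (by decide +kernel) ?_
    refine jn 2530 (by decide +kernel) ?_
    refine jn 2531 (by decide +kernel) ?_
    refine jn 2543 (by decide +kernel) ?_
    refine jn 2546 (by decide +kernel) ?_
    refine jn 2554 (by decide +kernel) ?_
    refine jn 2563 (by decide +kernel) ?_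
    refine jn 2570 (by decide +kernel) ?_
    exact je (by decide +kernel)

end Pool.Agent.MP_2339ce_nt.NR
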