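import Pool.Agent.MP_2339ce_nt.Q2.NC.L8
import Pool.Agent.MP_2339ce_nt.Q2.NC.L10
import Pool.Agent.MP_2339ce_nt.Q2.CkI

/-! Block NR: runs. -/

set_option autoImplicit false
set_option maxRecDepth 100000

noncomputable section

namespace Pool.Agent.MP_2339ce_nt.NR

open Q2.Top

def T32_0 : Ph :=
  (.na 932 6 (.na 469 3 (.na 261 2 (.nx 260 1321124 (.nr 259 881745 (.nx 3 136 (.nx 2 135 (.nr 1 12
  (.lg 0 false 1 41 41 5 0 360) (.l1 .sk)) (.l1 .sk)) (.nr 230 92683 (.nx 31 13005 (.lg 0 false 28
  103 107 11 0 720720) (.nr 229 77937 (.nx 200 660563 (.nr 59 695 (.lg 0 true 28 97 97 11 0 5040)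
  (.nx 87 24081 (.lg 1 false 28 101 107 11 54707 720720) (.nr 98 1219 (.lg 2 true 11 89 89 9 64156
  7920) (.nx 199 524289 (.nx 126 32769 (.lg 1 false 28 97 103 11 29544 720720) (.nr 198 55110 (.nr
  133 2437 (.lg 2 true 7 89 89 9 29032 2520) (.nx 197 416129 (.nr 140 4097 (.lg 2 true 7 89 89 9
  11526 5040) (.nr 168 27556 (.lg 2 false 28 97 103 11 7701 720720) (.nx 196 165142 (.lg 2 false 28
  101 107 11 15363 720720) .out))) .out)) .out)) .out)))) (.nr 228 129 (.lg 0 true 28 83 83 11 0
  5040) .out)) .out)) (.nx 258 257 (.lg 0 false 28 83 89 11 0 5040) .out))) .out) .out) (.nx 468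
  3329023 (.nr 467 623489 (.nx 264 136 (.nx 263 135 (.nr 262 22 (.lg 0 true 1 41 41 5 0 720) (.l1
  .sk)) (.l1 .sk)) (.nx 312 12926 (.nr 286 92683 (.lg 0 false 22 101 103 11 0 720720) (.nx 299 257
  (.lg 0 false 13 79 79 9 0 9360) (.nx 300 5160 .out (.nr 311 131073 (.lg 0 false 11 101 103 9 0
  720720) .out)))) (.nr 466 131073 (.nx 426 832257 (.nr 334 450 (.lg 0 true 22 89 89 11 0 7920)
  (.nx 425 416129 (.nx 360 26009 (.nx 347 18335 (.lg 1 false 13 101 103 9 92502 720720) (.lg 1
  false 13 101 103 9 65213 720720)) (.nr 424 110219 (.nx 371 32769 (.lg 1 false 11 101 103 9 38665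
  720720) (.nr 423 92683 (.nx 382 44591 (.lg 1 false 11 101 103 9 25812 720720) (.nr 409 55110 (.nr
  395 2437 (.lg 2 true 13 89 97 9 62420 65520) (.nx 408 330282 (.lg 2 false 13 103 107 9 11290
  720720) .out)) (.nx 422 131073 (.lg 2 false 13 103 107 9 18969 720720) .out))) .out)) .out))
  .out)) (.nr 465 129 (.nx 448 1664512 (.lg 0 true 22 79 83 11 0 7920) (.nr 464 9 (.lg 0 true 16 71
  71 9 0 720) .out)) .out)) .out))) .out) .out)) (.na 635 4 (.nx 634 6658044 (.nr 633 1482912 (.nx
  599 1048577 (.nx 472 136 (.nx 471 135 (.nr 470 31 (.lg 0 true 1 31 31 5 0 360) (.l1 .sk)) (.l1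
  .sk)) (.nr 585 131073 (.nx 500 27236 (.lg 0 false 28 89 101 16 0 5040) (.nr 528 364 (.lg 0 true
  28 79 79 16 0 5040) (.nx 584 262145 (.nx 550 57052 (.nx 539 39420 (.lg 1 false 11 89 97 7 43900
  7920) (.lg 1 false 11 89 97 7 30332 7920)) (.nx 561 104033 (.lg 1 true 11 97 101 7 20958 7920)
  (.nr 583 65537 (.nr 572 2904 (.lg 2 true 11 83 83 7 48613 3960) (.lg 2 false 11 89 97 7 6094
  7920)) .out))) .out))) (.nx 598 257 (.lg 0 false 13 73 73 13 0 4680) .out))) (.nr 632 33 (.lg 0
  true 33 73 73 7 0 3960) .out)) .out) .out) (.na 805 5 (.nx 804 13316087 (.nr 803 1246976 (.nx 754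
  1664512 (.nx 637 135 (.nr 636 40 (.lg 0 true 1 31 31 9 0 720) (.l1 .sk)) (.nx 638 136 (.l1 .sk)
  (.nr 742 155873 (.nx 730 416129 (.nx 659 18334 (.nr 651 110219 (.lg 0 false 13 97 101 13 0 9360)
  (.nx 658 1627 (.lg 0 false 7 79 83 11 0 5040) .out)) (.nr 729 131073 (.nr 677 2909 (.nr 670 729
  (.lg 0 true 11 83 83 13 0 7920) (.lg 2 true 7 83 89 11 38531 5040)) (.nx 689 26007 (.nr 688
  110219 (.lg 1 false 11 83 97 13 54851 7920) .out) (.nr 691 5810 (.lg 2 false 2 83 83 9 9656 720)
  (.nx 713 104033 (.nx 702 52015 (.lg 1 false 11 97 103 13 45975 55440) (.lg 1 true 11 97 103 13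
  22987 55440)) (.nr 728 92683 (.nx 720 131073 (.lg 1 true 7 83 97 11 8131 5040) (.nr 727 55110
  (.lg 2 false 7 89 97 11 4835 5040) .out)) .out))))) .out)) (.nr 741 183 (.lg 0 true 11 83 83 13 0
  7920) .out)) (.nx 753 257 (.lg 0 false 11 79 79 13 0 7920) .out)))) (.nr 802 21 (.nx 776 6658044
  (.lg 0 true 22 73 73 11 0 7920) (.lg 0 true 26 79 79 11 0 9360)) .out)) .out) .out) (.nx 931
  13316087 (.nr 930 1482912 (.nx 808 136 (.nx 807 135 (.nr 806 49 (.lg 0 true 1 31 31 9 0 5040)
  (.l1 .sk)) (.l1 .sk)) (.nx 901 1664512 (.nx 835 26007 (.nr 821 110219 (.lg 0 false 13 97 101 16 0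
  65520) (.nx 834 257 (.lg 0 false 13 73 73 16 0 4680) .out)) (.nr 900 155873 (.nx 886 660563 (.nr
  848 956 (.lg 0 true 13 83 83 16 0 4680) (.nr 855 8843 (.lg 2 true 7 89 89 11 46641 5040) (.nx 868
  58386 (.lg 1 false 13 97 101 16 54665 65520) (.nx 881 131073 (.lg 1 true 13 97 101 16 24349
  65520) (.nr 885 46342 (.lg 2 true 4 83 83 11 5043 720) .out))))) (.nr 899 217 (.lg 0 true 13 73
  73 16 0 4680) .out)) .out)) (.nr 929 24 (.lg 0 true 28 71 71 11 0 5040) .out))) .out) .out))))
  (.na 1064 8 (.na 1063 7 (.nx 1062 13316087 (.nr 1061 623489 (.nx 934 135 (.nr 933 57 (.lg 0 true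
  1 29 29 7 0 720) (.l1 .sk)) (.nx 935 136 (.l1 .sk) (.nx 1009 832257 (.nx 936 205 (.l1 (.ls 79 47
  3924)) (.nr 1008 370729 (.nx 957 28089 (.nr 949 131073 (.lg 0 false 13 89 97 13 0 9360) (.nx 956
  1627 (.lg 0 false 7 79 79 13 0 5040) .out)) (.nr 1007 155873 (.nr 970 1026 (.lg 0 true 13 83 83
  13 0 9360) (.nx 1006 660563 (.nx 991 131073 (.nx 978 52015 (.nr 977 131073 (.lg 1 false 7 89 89
  13 42567 5040) .out) (.lg 1 true 13 89 97 13 27332 9360)) (.nr 1005 65537 (.nr 998 8201 (.lg 2
  true 7 83 83 13 43459 5040) (.lg 2 false 7 83 83 13 5437 5040)) .out)) .out)) .out)) .out)) (.nr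
  1060 129 (.nr 1048 57 (.lg 0 true 39 73 73 13 0 9360) (.nx 1059 1664512 (.lg 0 true 11 67 67 13 0
  7920) .out)) .out)))) .out) .out) .ne) (.na 1155 9 (.nx 1154 13316087 (.nr 1153 623489 (.nx 1067
  136 (.nx 1066 135 (.nr 1065 74 (.lg 0 true 1 31 31 11 0 720) (.l1 .sk)) (.l1 .sk)) (.nx 1126
  1664512 (.nx 1084 19111 (.nr 1074 110219 (.lg 0 false 7 89 97 13 0 5040) (.nx 1083 2582 (.nx 1081
  1627 (.lg 0 false 7 83 97 13 0 5040) (.nr 1082 131073 (.lg 0 false 1 79 79 11 0 720) .out))
  .out)) (.nr 1125 131073 (.nx 1117 832257 (.nr 1091 727 (.lg 0 true 7 83 83 13 0 5040) (.nx 1116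
  660563 (.nx 1098 38224 (.lg 1 false 7 89 101 13 62565 5040) (.nr 1100 2905 (.lg 2 true 2 83 89 11
  61332 720) (.nx 1107 82572 (.lg 1 true 7 89 101 13 31281 5040) (.nr 1115 110219 (.nr 1108 5806
  (.lg 2 false 1 83 83 11 15349 720) (.lg 2 false 7 89 101 13 12179 5040)) .out)))) .out)) (.nr
  1124 129 (.lg 0 true 7 73 79 13 0 5040) .out)) .out)) (.nr 1152 55 (.lg 0 true 26 79 83 13 0
  9360) .out))) .out) .out) (.na 1252 10 (.nx 1251 13316087 (.nr 1250 623489 (.nx 1158 136 (.nx
  1157 135 (.nr 1156 82 (.lg 0 true 1 31 31 13 0 720) (.l1 .sk)) (.l1 .sk)) (.nx 1183 20642 (.nr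
  1171 110219 (.lg 0 false 13 83 97 17 0 9360) (.nx 1182 2582 (.nx 1180 1627 (.nr 1175 370729 (.lg
  0 false 4 83 89 16 0 720) (.nx 1179 647 (.lg 0 false 4 79 79 16 0 720) .out)) (.nr 1181 131073
  (.lg 0 true 1 73 73 13 0 360) .out)) .out)) (.nr 1249 131073 (.nx 1215 832257 (.nr 1190 745 (.lg
  0 true 7 83 83 16 0 2520) (.nx 1214 524289 (.nx 1194 30928 (.lg 1 false 4 97 101 16 57924 55440)
  (.nx 1198 46340 (.lg 1 false 4 97 101 16 38660 55440) (.nr 1209 92683 (.nr 1204 55110 (.nr 1200
  3129 (.lg 2 true 2 83 83 16 47503 720) (.lg 2 false 4 97 101 16 11311 55440)) (.nx 1208 165142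
  (.lg 2 false 4 97 101 16 18253 55440) .out)) (.nx 1213 131073 (.lg 2 false 4 97 101 16 25802
  55440) .out)))) .out)) (.nr 1248 129 (.nr 1243 65 (.lg 0 true 28 79 83 16 0 5040) (.nx 1247
  1664512 (.lg 0 true 4 71 71 16 0 720) .out)) .out)) .out))) .out) .out) (.nx 1304 1664512 (.nr
  1303 623489 (.nx 1254 135 (.nr 1253 99 (.lg 0 false 1 29 29 9 0 720) (.l1 .sk)) (.nx 1255 136
  (.l1 .sk) (.nx 1295 524289 (.nr 1287 131073 (.nx 1268 35390 (.lg 0 false 13 89 97 13 0 9360) (.nr
  1275 829 (.lg 0 true 7 73 73 13 0 5040) (.nx 1286 416129 (.lg 2 false 11 89 97 13 33883 7920)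
  .out))) (.nx 1294 1292 (.lg 0 false 7 79 79 13 0 5040) .out)) (.nr 1302 65 (.lg 0 true 7 61 61 13
  0 5040) .out)))) .out) .out)))))

def T32_1 : Ph :=
  (.na 749 54 (.na 511 30 (.na 274 17 (.na 90 13 (.na 89 12 (.nx 88 2642247 (.nr 87 1246976 (.nx 79
  1321124 (.nx 2 225 (.nr 1 127 (.lg 0 false 1 31 31 9 0 720) (.l1 .sk)) (.nx 3 226 (.l1 .sk) (.nx
  26 65536 (.nr 14 262145 (.lg 0 false 11 101 103 13 0 55440) (.nx 25 1292 (.lg 0 false 11 79 79 13
  0 7920) .out)) (.nr 78 311745 (.nr 37 1079 (.lg 0 true 11 79 79 13 0 7920) (.nx 59 262145 (.nx 48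
  131072 (.lg 1 false 11 97 101 13 120496 55440) (.lg 1 true 11 97 101 13 60248 55440)) (.nr 77
  185365 (.nr 66 9171 (.lg 2 true 7 83 83 13 137745 5040) (.lg 2 false 11 89 97 13 17921 55440))
  .out))) .out)))) (.nr 86 65 (.lg 0 true 7 61 61 13 0 5040) .out)) .out) .out) .ne) (.na 178 15
  (.nx 177 2642247 (.nr 176 1246976 (.nx 96 408 (.nx 94 324 (.nx 92 225 (.nr 91 159 (.lg 0 true 1
  29 29 9 0 4680) (.l1 .sk)) (.nx 93 226 (.l1 .sk) (.l1 (.ls 83 37 4149)))) (.nr 95 1048577 (.l1
  (.ls 83 41 4732)) .out)) (.nr 175 741457 (.nx 115 41285 (.nr 107 220437 (.lg 0 false 11 89 101 16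
  0 51480) (.nx 114 1627 (.lg 0 false 7 79 83 16 0 32760) .out)) (.nr 174 311745 (.nx 166 660563
  (.nr 122 1183 (.lg 0 true 7 79 79 16 0 32760) (.nx 134 82570 (.nr 133 262145 (.lg 1 false 11 97
  103 16 160866 360360) .out) (.nr 138 8806 (.lg 2 true 4 83 89 16 62818 9360) (.nx 149 165142 (.lg
  1 false 11 97 103 16 95638 360360) (.nr 165 262145 (.nx 160 330282 (.lg 1 true 11 97 103 16 40216
  360360) (.nr 164 77937 (.lg 2 false 4 83 89 16 8439 9360) .out)) .out))))) (.nr 173 65 (.lg 0
  true 7 71 71 16 0 32760) .out)) .out)) .out)) .out) .out) (.na 273 16 (.nx 272 2642247 (.nr 271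
  1246976 (.nr 179 1 .s1 (.nx 182 226 (.nx 181 225 (.nr 180 170 (.l1 (.ls 19 41 3377)) (.l1 .sk))
  (.l1 .sk)) (.nx 183 408 (.l1 (.ls 79 43 7695)) (.nr 270 741457 (.nx 262 660563 (.nr 205 33818
  (.nx 187 25313 (.lg 0 true 4 79 79 16 0 720) (.nr 194 1237 (.lg 0 true 7 73 73 16 0 2520) (.lg 2
  false 11 71 71 16 60076 3960))) (.nx 250 330282 (.nr 233 262145 (.lg 0 true 28 97 103 17 0 65520)
  (.nx 249 165142 (.nx 240 1627 (.lg 0 false 7 73 73 16 0 2520) (.nx 241 82570 .out (.nr 248 311745
  (.lg 0 true 7 89 89 16 0 2520) .out))) .out)) (.nr 261 77937 (.lg 0 false 11 89 89 16 0 3960)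
  .out))) (.nr 269 65 (.lg 0 true 7 61 61 16 0 2520) .out)) .out)))) .out) .out) .ne))) (.na 411 23
  (.na 348 18 (.nx 347 2642247 (.nr 346 1246976 (.nr 275 9 .s1 (.nx 279 408 (.nx 277 225 (.nr 276
  191 (.lg 0 false 1 31 31 11 0 360) (.l1 .sk)) (.nx 278 226 (.l1 .sk) (.l1 (.ls 89 41 6790))))
  (.nr 345 741457 (.nr 340 311745 (.nr 335 220437 (.nx 327 660563 (.nr 310 92683 (.nr 298 30068
  (.nx 283 25313 (.lg 0 true 4 83 83 16 0 720) (.nr 290 1726 (.lg 0 true 7 83 83 16 0 2520) (.nx
  297 524289 (.lg 2 false 7 73 73 16 34173 2520) .out))) (.nx 309 524289 (.lg 0 true 11 101 101 16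
  0 3960) .out)) (.nx 326 262145 (.nx 321 208065 (.lg 0 true 11 103 107 16 0 720720) (.nr 325
  155873 (.lg 0 false 4 103 107 16 0 720720) .out)) .out)) (.nr 334 129 (.lg 0 true 7 73 73 16 0
  2520) .out)) (.nx 339 13005 (.lg 0 false 4 89 97 16 0 720) .out)) (.nx 344 1627 (.lg 0 false 4 83
  83 16 0 720) .out)) .out))) .out) .out) (.nx 410 2642247 (.nr 409 1246976 (.nr 349 10 .s1 (.nx
  352 226 (.nx 351 225 (.nr 350 244 (.lg 0 true 1 31 31 13 0 720) (.l1 .sk)) (.l1 .sk)) (.nr 405
  741457 (.nr 401 311745 (.nr 397 220437 (.nx 363 51085 (.lg 0 false 11 97 103 23 0 720720) (.nr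
  378 1726 (.nx 370 660563 (.lg 0 true 7 79 83 23 0 5040) (.nr 377 129 (.lg 0 true 7 71 73 23 0
  5040) .out)) (.nx 396 524289 (.nx 385 103097 (.lg 1 false 7 97 103 23 109339 65520) (.lg 2 false
  11 97 107 23 54178 720720)) .out))) (.nx 400 13005 (.lg 0 false 3 89 97 19 0 720) .out)) (.nx 404
  1627 (.lg 0 false 3 83 83 19 0 720) .out)) (.nx 408 408 (.lg 0 false 3 71 71 19 0 720) .out))))
  .out) .out)) (.na 412 25 .ne (.na 466 26 (.nx 465 2642247 (.nr 464 1048577 (.nr 413 21 .s1 (.nx
  416 226 (.nx 415 225 (.nr 414 276 (.lg 0 true 1 31 31 16 0 360) (.l1 .sk)) (.l1 .sk)) (.nx 417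
  408 (.l1 (.ls 83 37 4618)) (.nr 463 741457 (.nr 460 524289 (.nx 421 16385 (.lg 0 false 4 101 103
  17 0 720720) (.nr 459 185365 (.nr 437 30427 (.nx 422 25313 (.lg 0 true 1 83 83 16 0 360) (.nx 432
  660563 (.nr 426 706 (.lg 0 true 4 73 79 17 0 720) (.nx 431 524289 (.nr 427 1810 (.lg 2 false 1 73
  73 16 83545 360) (.lg 2 true 4 73 73 17 32588 720)) .out)) (.nr 436 129 (.lg 0 true 4 71 73 17 0
  720) .out))) (.nx 458 524289 (.nx 441 65537 (.lg 0 false 4 101 107 17 0 720720) (.nr 457 155873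
  (.nr 455 131073 (.nr 445 77937 (.lg 2 true 4 73 73 17 30189 720) (.nx 454 416129 (.nx 449 165142
  (.lg 0 true 4 101 103 17 0 720720) (.nr 453 92683 (.lg 0 true 4 89 97 17 0 720) .out)) .out))
  (.nx 456 82572 (.lg 0 false 1 89 89 16 0 360) .out)) .out)) .out)) .out)) (.nx 462 2582 (.lg 0
  false 2 83 89 16 0 720) .out)) .out)))) .out) .out) (.nx 510 2642247 (.nr 509 1048577 (.nr 467 22
  .s1 (.nx 487 82572 (.nx 469 225 (.nr 468 319 (.lg 0 true 1 29 29 11 0 9360) (.l1 .sk)) (.nx 470
  226 (.l1 .sk) (.nx 471 408 (.l1 (.ls 83 43 4441)) (.nr 486 741457 (.nr 478 185365 (.lg 0 false 7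
  97 101 19 0 65520) (.nx 485 16385 (.lg 0 false 7 89 97 19 0 65520) .out)) .out)))) (.nr 508
  131073 (.nx 502 660563 (.nr 494 1994 (.lg 0 true 7 79 83 19 0 65520) (.nx 501 524289 (.lg 2 false
  7 89 97 19 40250 65520) .out)) (.nr 507 129 (.lg 0 true 5 67 67 19 0 9360) .out)) .out))) .out)
  .out))))) (.na 652 45 (.na 555 34 (.na 554 32 (.nx 553 2642247 (.nr 552 1048577 (.nr 512 26 .s1
  (.nx 516 408 (.nx 514 225 (.nr 513 340 (.l1 (.ls 19 43 1690)) (.l1 .sk)) (.nx 515 226 (.l1 .sk)
  (.l1 (.ls 73 47 3849)))) (.nr 551 741457 (.nx 531 65537 (.nr 523 185365 (.lg 0 false 7 89 89 23 0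
  5040) (.nx 530 16385 (.lg 0 false 7 83 83 23 0 5040) .out)) (.nr 550 155873 (.nr 542 1008 (.lg 0
  true 11 73 73 23 0 7920) (.nx 549 524289 (.lg 2 false 7 89 89 23 60291 5040) .out)) .out))
  .out))) .out) .out) .ne) (.na 589 39 (.nx 588 2642247 (.nr 587 881745 (.nr 556 31 .s1 (.nx 559
  226 (.nx 558 225 (.nr 557 414 (.lg 0 true 1 29 29 13 0 720) (.l1 .sk)) (.l1 .sk)) (.nx 576 65537
  (.nx 560 408 (.l1 (.ls 79 43 3396)) (.nr 575 623489 (.nr 567 185365 (.lg 0 false 7 89 97 23 0
  5040) (.nx 574 16385 (.lg 0 false 7 89 97 23 0 5040) .out)) .out)) (.nr 586 77937 (.nr 583 1139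
  (.lg 0 true 7 79 79 23 0 5040) (.nx 585 262145 (.lg 2 true 2 89 89 13 30189 720) .out)) .out))))
  .out) .out) (.na 622 41 (.nx 621 2642247 (.nr 620 881745 (.nr 590 37 .s1 (.nx 594 408 (.nx 592
  225 (.nr 591 436 (.l1 (.ls 29 37 1301)) (.l1 .sk)) (.nx 593 226 (.l1 .sk) (.l1 (.ls 79 41
  2961)))) (.nr 619 623489 (.nx 606 82572 (.nr 601 185365 (.lg 0 false 7 83 83 19 0 32760) (.nx 605
  16385 (.lg 0 false 4 89 89 17 0 9360) .out)) (.nr 618 65537 (.nx 613 262145 (.lg 0 false 7 83 83
  19 0 32760) (.nr 617 257 (.lg 0 true 4 71 71 17 0 9360) .out)) .out)) .out))) .out) .out) (.nx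
  651 2642247 (.nr 650 881745 (.nr 623 39 .s1 (.nx 637 41287 (.nx 625 225 (.nr 624 478 (.l1 (.ls 23
  29 1237)) (.l1 .sk)) (.nx 626 226 (.l1 .sk) (.nx 627 408 (.l1 (.ls 79 31 2817)) (.nr 636 623489
  (.nr 631 185365 (.lg 0 false 4 89 89 16 0 720) (.nx 635 16385 (.lg 0 false 4 89 89 16 0 720)
  .out)) .out)))) (.nr 649 110219 (.nr 644 478 (.lg 0 true 7 71 73 16 0 2520) (.nx 648 262145 (.lg
  2 false 4 89 97 16 67713 720) .out)) .out))) .out) .out)))) (.na 679 50 (.na 678 46 (.nx 677
  2642247 (.nr 676 881745 (.nr 653 43 .s1 (.nx 656 226 (.nx 655 225 (.nr 654 489 (.l1 (.ls 23 31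
  1127)) (.l1 .sk)) (.l1 .sk)) (.nx 657 408 (.l1 (.ls 73 41 2567)) (.nr 675 623489 (.nx 670 262145
  (.nx 666 65537 (.nr 661 185365 (.lg 0 false 4 83 89 19 0 720) (.nx 665 16385 (.lg 0 false 4 83 89
  19 0 720) .out)) (.nr 669 77937 (.nr 667 1302 (.lg 0 false 1 71 71 16 0 360) (.lg 2 false 2 89 89
  17 30189 5040)) .out)) (.nr 674 257 (.lg 0 true 4 67 67 19 0 720) .out)) .out)))) .out) .out)
  .ne) (.na 703 51 (.nx 702 2642247 (.nr 701 881745 (.nr 680 48 .s1 (.nx 683 226 (.nx 682 225 (.nr
  681 542 (.l1 (.ls 31 37 1015)) (.l1 .sk)) (.l1 .sk)) (.nx 690 20644 (.lg 0 false 7 83 97 31 0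
  5040) (.nr 700 220437 (.nx 697 262145 (.nx 692 32769 (.lg 0 false 2 83 89 23 0 720) (.nr 696
  92683 (.nr 693 1511 (.lg 0 true 1 73 73 19 0 720) (.nx 694 52017 (.lg 1 false 1 89 89 19 71769
  720) (.nr 695 65537 (.lg 2 false 1 97 97 19 32002 720) .out))) .out)) (.nr 699 257 (.lg 0 true 2
  71 71 23 0 720) .out)) .out)))) .out) .out) (.na 726 53 (.nx 725 2642247 (.nr 724 881745 (.nr 704
  49 .s1 (.nx 706 225 (.nr 705 563 (.l1 (.ls 23 31 995)) (.l1 .sk)) (.nx 707 226 (.l1 .sk) (.nx 714
  32769 (.lg 0 false 7 89 97 23 0 32760) (.nr 723 92683 (.nr 718 563 (.lg 0 true 4 71 71 16 0 720)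
  (.nx 722 262145 (.lg 2 false 4 83 89 16 71769 720) .out)) .out))))) .out) .out) (.nx 748 2642247
  (.nr 747 881745 (.nr 727 51 .s1 (.nx 730 226 (.nx 729 225 (.nr 728 574 (.l1 (.ls 19 23 958)) (.l1
  .sk)) (.l1 .sk)) (.nx 737 32769 (.lg 0 false 7 89 97 16 0 2520) (.nr 746 92683 (.nr 741 574 (.lg
  0 true 4 71 71 16 0 720) (.nx 745 262145 (.lg 2 false 4 89 89 16 71769 720) .out)) .out)))) .out)
  .out)))))) (.na 889 85 (.na 809 74 (.na 771 64 (.na 750 58 (.lg 0 false 1 0 0 16 0 24) (.nx 770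
  2642247 (.nr 769 881745 (.nr 751 57 .s1 (.nx 754 226 (.nx 753 225 (.nr 752 680 (.l1 (.ls 23 37
  875)) (.l1 .sk)) (.l1 .sk)) (.nx 761 32769 (.lg 0 false 7 89 97 23 0 5040) (.nr 768 92683 (.nr
  765 680 (.lg 0 true 4 73 73 19 0 720) (.nx 767 262145 (.lg 2 true 2 89 89 13 71769 720) .out))
  .out)))) .out) .out)) (.na 772 65 .ne (.na 792 73 (.nx 791 2642247 (.nr 790 2097153 (.nr 773 64
  .s1 (.nx 782 32769 (.nx 774 408 (.l1 (.ls 79 37 2563)) (.nr 781 1048577 (.lg 0 false 7 83 89 23 0
  32760) .out)) (.nr 789 65537 (.nr 786 775 (.lg 0 true 4 71 71 19 0 9360) (.nx 788 416129 (.lg 2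
  true 2 83 83 17 60406 9360) .out)) .out))) .out) .out) (.nx 808 2642247 (.nr 807 2097153 (.nr 793
  72 .s1 (.nx 799 32769 (.nx 794 408 (.l1 (.ls 71 29 2283)) (.nr 798 1048577 (.lg 0 false 4 97 97
  16 0 720) .out)) (.nr 806 65537 (.nr 803 786 (.lg 0 true 4 67 67 16 0 720) (.nx 805 416129 (.lg 2
  true 2 83 83 16 59561 720) .out)) .out))) .out) .out)))) (.na 848 78 (.na 829 75 (.nx 828 2642247
  (.nr 827 2097153 (.nr 810 73 .s1 (.nx 811 408 (.l1 (.ls 83 43 2252)) (.nr 826 1048577 (.nx 818
  32769 (.lg 0 false 7 89 97 23 0 5040) (.nr 825 65537 (.nr 822 797 (.lg 0 true 4 73 73 19 0 720)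
  (.nx 824 416129 (.lg 2 true 2 83 83 19 58739 720) .out)) .out)) .out))) .out) .out) (.nx 847
  2642247 (.nr 846 2097153 (.nr 830 74 .s1 (.nx 833 226 (.nx 832 225 (.nr 831 829 (.l1 (.ls 29 31
  677)) (.l1 .sk)) (.l1 .sk)) (.nx 841 32769 (.nx 834 408 (.l1 (.ls 73 37 1541)) (.nr 840 1048577
  (.nx 838 20644 (.lg 0 false 4 83 89 23 0 720) (.nr 839 262145 (.lg 0 false 1 83 83 19 0 360)
  .out)) .out)) (.nr 845 65537 (.nr 843 829 (.lg 0 true 2 73 73 23 0 720) (.nx 844 416129 (.lg 2
  false 1 83 83 19 56472 360) .out)) .out)))) .out) .out)) (.na 868 81 (.nx 867 2642247 (.nr 866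
  2097153 (.nr 849 77 .s1 (.nx 858 32769 (.nx 850 408 (.l1 (.ls 79 47 2137)) (.nr 857 1048577 (.lg
  0 false 7 83 89 31 0 65520) .out)) (.nr 865 65537 (.nr 862 860 (.lg 0 true 4 71 71 31 0 9360)
  (.nx 864 416129 (.lg 2 true 2 79 79 29 54436 9360) .out)) .out))) .out) .out) (.na 869 82 (.lg 0
  false 1 0 0 16 0 24) (.nx 888 2642247 (.nr 887 2097153 (.nr 870 81 .s1 (.nx 871 408 (.l1 (.ls 79
  37 2033)) (.nr 886 1048577 (.nx 878 32769 (.lg 0 false 7 89 97 23 0 5040) (.nr 885 65537 (.nr 882
  903 (.lg 0 true 4 71 71 23 0 720) (.nx 884 416129 (.lg 2 true 2 83 83 19 51844 720) .out)) .out))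
  .out))) .out) .out))))) (.na 957 97 (.na 921 89 (.na 905 87 (.nx 904 2642247 (.nr 903 2097153
  (.nr 890 84 .s1 (.nx 896 32769 (.nx 891 408 (.l1 (.ls 73 37 1961)) (.nr 895 1048577 (.lg 0 false
  4 89 89 16 0 720) .out)) (.nr 902 65537 (.nr 900 924 (.lg 0 true 4 71 71 16 0 720) (.nx 901
  416129 (.lg 2 true 1 83 83 16 50799 360) .out)) .out))) .out) .out) (.nx 920 2642247 (.nr 919
  2097153 (.nr 906 86 .s1 (.nx 907 408 (.l1 (.ls 79 37 1916)) (.nr 918 1048577 (.nx 911 32769 (.lg
  0 false 4 89 89 19 0 720) (.nr 917 65537 (.nr 915 945 (.lg 0 true 4 71 71 19 0 720) (.nx 916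
  416129 (.lg 2 true 1 83 83 16 50799 360) .out)) .out)) .out))) .out) .out)) (.na 938 90 (.nx 937
  2642247 (.nr 936 2097153 (.nr 922 88 .s1 (.nx 928 32769 (.nx 923 408 (.l1 (.ls 71 29 1873)) (.nr
  927 1048577 (.lg 0 false 4 83 83 16 0 720) .out)) (.nr 935 65537 (.nr 932 956 (.lg 0 true 4 67 67
  16 0 720) (.nx 934 416129 (.lg 2 false 2 73 73 16 50799 720) .out)) .out))) .out) .out) (.na 956
  91 (.nx 955 2642247 (.nr 954 2097153 (.nr 939 89 .s1 (.nx 948 32769 (.nx 940 408 (.l1 (.ls 79 43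
  1852)) (.nr 947 1048577 (.lg 0 false 7 83 97 37 0 65520) .out)) (.nr 953 65537 (.nr 951 967 (.lg
  0 true 3 71 71 31 0 720) (.nx 952 416129 (.lg 2 true 1 83 83 29 50799 720) .out)) .out))) .out)
  .out) .ne))) (.na 993 106 (.na 974 102 (.nx 973 2642247 (.nr 972 2097153 (.nr 958 96 .s1 (.nx 964
  26009 (.nx 959 408 (.l1 (.ls 71 29 1719)) (.nr 963 1482912 (.lg 0 false 4 83 83 17 0 720) .out))
  (.nr 971 65537 (.nr 968 1083 (.lg 0 true 4 67 67 17 0 720) (.nx 970 416129 (.lg 2 true 2 73 73 16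
  64003 720) .out)) .out))) .out) .out) (.nx 992 2642247 (.nr 991 2097153 (.nr 975 101 .s1 (.nx 984
  26009 (.nx 976 408 (.l1 (.ls 79 43 1634)) (.nr 983 1482912 (.lg 0 false 7 83 89 37 0 5040) .out))
  (.nr 990 65537 (.nr 987 513 (.lg 0 true 3 67 67 31 0 720) (.nx 989 416129 (.lg 2 false 2 83 83 29
  91257 720) .out)) .out))) .out) .out)) (.na 1011 109 (.nx 1010 2642247 (.nr 1009 2097153 (.nr 994
  105 .s1 (.nx 995 408 (.l1 (.ls 79 37 1573)) (.nr 1008 1482912 (.nx 1002 26009 (.lg 0 false 7 83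
  89 29 0 5040) (.nr 1007 65537 (.nr 1004 513 (.lg 0 true 2 67 67 19 0 720) (.nx 1006 416129 (.lg 2
  false 2 83 83 19 91257 720) .out)) .out)) .out))) .out) .out) (.na 1027 111 (.nx 1026 2642247
  (.nr 1025 2097153 (.nr 1012 108 .s1 (.nx 1018 26009 (.nx 1013 408 (.l1 (.ls 71 29 1530)) (.nr
  1017 1482912 (.lg 0 false 4 83 83 17 0 720) .out)) (.nr 1024 65537 (.nr 1022 1179 (.lg 0 true 4
  67 67 17 0 720) (.nx 1023 416129 (.lg 2 true 1 73 73 16 64003 360) .out)) .out))) .out) .out)
  (.nx 1042 2642247 (.nr 1041 2097153 (.nr 1028 110 .s1 (.nx 1034 26009 (.nx 1029 408 (.l1 (.ls 73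
  31 1502)) (.nr 1033 1482912 (.lg 0 false 4 83 83 19 0 720) .out)) (.nr 1040 65537 (.nr 1038 1200
  (.lg 0 true 4 71 71 19 0 720) (.nx 1039 416129 (.lg 2 true 1 79 79 17 64003 360) .out)) .out)))
  .out) .out)))))))

theorem c32 :
    OkQ ckI L8 135 1 12 0 34359738368 1 1099511627776 ∧
    OkQ ckI L10 225 10 113 0 34359738368 1 1099511627776 := by
  refine ⟨?_, ?_⟩
  · refine fin 360 1305 T32_0 ?_
    refine jn 5 (by decide +kernel) ?_
    refine jn 8 (by decide +kernel) ?_
    refine jn 10 (by decide +kernel) ?_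
    refine jn 12 (by decide +kernel) ?_
    refine jn 15 (by decide +kernel) ?_
    refine jn 17 (by decide +kernel) ?_
    refine jn 20 (by decide +kernel) ?_
    refine jn 23 (by decide +kernel) ?_
    refine jn 26 (by decide +kernel) ?_
    refine jn 29 (by decide +kernel) ?_
    refine jn 33 (by decide +kernel) ?_
    refine jn 38 (by decide +kernel) ?_
    refine jn 43 (by decide +kernel) ?_
    refine jn 48 (by decide +kernel) ?_
    refine jn 54 (by decide +kernel) ?_
    refine jn 59 (by decide +kernel) ?_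
    refine jn 80 (by decide +kernel) ?_
    refine jn 98 (by decide +kernel) ?_
    refine jn 126 (by decide +kernel) ?_
    refine jn 140 (by decide +kernel) ?_
    refine jn 165 (by decide +kernel) ?_
    refine jn 168 (by decide +kernel) ?_
    refine jn 196 (by decide +kernel) ?_
    refine jn 219 (by decide +kernel) ?_
    refine jn 228 (by decide +kernel) ?_
    refine jn 258 (by decide +kernel) ?_
    refine jn 268 (by decide +kernel) ?_
    refine jn 273 (by decide +kernel) ?_
    refine jn 276 (by decide +kernel) ?_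
    refine jn 280 (by decide +kernel) ?_
    refine jn 284 (by decide +kernel) ?_
    refine jn 299 (by decide +kernel) ?_
    refine jn 316 (by decide +kernel) ?_
    refine jn 323 (by decide +kernel) ?_
    refine jn 331 (by decide +kernel) ?_
    refine jn 334 (by decide +kernel) ?_
    refine jn 360 (by decide +kernel) ?_
    refine jn 382 (by decide +kernel) ?_
    refine jn 395 (by decide +kernel) ?_
    refine jn 408 (by decide +kernel) ?_
    refine jn 426 (by decide +kernel) ?_
    refine jn 448 (by decide +kernel) ?_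
    refine jn 470 (by decide +kernel) ?_
    refine jn 479 (by decide +kernel) ?_
    refine jn 486 (by decide +kernel) ?_
    refine jn 493 (by decide +kernel) ?_
    refine jn 500 (by decide +kernel) ?_
    refine jn 509 (by decide +kernel) ?_
    refine jn 521 (by decide +kernel) ?_
    refine jn 528 (by decide +kernel) ?_
    refine jn 550 (by decide +kernel) ?_
    refine jn 572 (by decide +kernel) ?_
    refine jn 598 (by decide +kernel) ?_
    refine jn 632 (by decide +kernel) ?_
    refine jn 638 (by decide +kernel) ?_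
    refine jn 639 (by decide +kernel) ?_
    refine jn 640 (by decide +kernel) ?_
    refine jn 641 (by decide +kernel) ?_
    refine jn 643 (by decide +kernel) ?_
    refine jn 644 (by decide +kernel) ?_
    refine jn 645 (by decide +kernel) ?_
    refine jn 646 (by decide +kernel) ?_
    refine jn 648 (by decide +kernel) ?_
    refine jn 649 (by decide +kernel) ?_
    refine jn 650 (by decide +kernel) ?_
    refine jn 651 (by decide +kernel) ?_
    refine jn 659 (by decide +kernel) ?_
    refine jn 661 (by decide +kernel) ?_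
    refine jn 663 (by decide +kernel) ?_
    refine jn 665 (by decide +kernel) ?_
    refine jn 667 (by decide +kernel) ?_
    refine jn 669 (by decide +kernel) ?_
    refine jn 670 (by decide +kernel) ?_
    refine jn 677 (by decide +kernel) ?_
    refine jn 688 (by decide +kernel) ?_
    refine jn 691 (by decide +kernel) ?_
    refine jn 702 (by decide +kernel) ?_
    refine jn 713 (by decide +kernel) ?_
    refine jn 720 (by decide +kernel) ?_
    refine jn 727 (by decide +kernel) ?_
    refine jn 737 (by decide +kernel) ?_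
    refine jn 741 (by decide +kernel) ?_
    refine jn 753 (by decide +kernel) ?_
    refine jn 776 (by decide +kernel) ?_
    refine jn 802 (by decide +kernel) ?_
    refine jn 814 (by decide +kernel) ?_
    refine jn 821 (by decide +kernel) ?_
    refine jn 842 (by decide +kernel) ?_
    refine jn 848 (by decide +kernel) ?_
    refine jn 868 (by decide +kernel) ?_
    refine jn 885 (by decide +kernel) ?_
    refine jn 899 (by decide +kernel) ?_
    refine jn 929 (by decide +kernel) ?_
    refine jn 942 (by decide +kernel) ?_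
    refine jn 949 (by decide +kernel) ?_
    refine jn 957 (by decide +kernel) ?_
    refine jn 970 (by decide +kernel) ?_
    refine jn 991 (by decide +kernel) ?_
    refine jn 1005 (by decide +kernel) ?_
    refine jn 1048 (by decide +kernel) ?_
    refine jn 1067 (by decide +kernel) ?_
    refine jn 1068 (by decide +kernel) ?_
    refine jn 1069 (by decide +kernel) ?_
    refine jn 1070 (by decide +kernel) ?_
    refine jn 1071 (by decide +kernel) ?_
    refine jn 1072 (by decide +kernel) ?_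
    refine jn 1073 (by decide +kernel) ?_
    refine jn 1074 (by decide +kernel) ?_
    refine jn 1081 (by decide +kernel) ?_
    refine jn 1084 (by decide +kernel) ?_
    refine jn 1085 (by decide +kernel) ?_
    refine jn 1086 (by decide +kernel) ?_
    refine jn 1087 (by decide +kernel) ?_
    refine jn 1088 (by decide +kernel) ?_
    refine jn 1089 (by decide +kernel) ?_
    refine jn 1090 (by decide +kernel) ?_
    refine jn 1091 (by decide +kernel) ?_
    refine jn 1095 (by decide +kernel) ?_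
    refine jn 1098 (by decide +kernel) ?_
    refine jn 1100 (by decide +kernel) ?_
    refine jn 1104 (by decide +kernel) ?_
    refine jn 1107 (by decide +kernel) ?_
    refine jn 1108 (by decide +kernel) ?_
    refine jn 1111 (by decide +kernel) ?_
    refine jn 1114 (by decide +kernel) ?_
    refine jn 1117 (by decide +kernel) ?_
    refine jn 1119 (by decide +kernel) ?_
    refine jn 1122 (by decide +kernel) ?_
    refine jn 1124 (by decide +kernel) ?_
    refine jn 1126 (by decide +kernel) ?_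
    refine jn 1129 (by decide +kernel) ?_
    refine jn 1132 (by decide +kernel) ?_
    refine jn 1152 (by decide +kernel) ?_
    refine jn 1158 (by decide +kernel) ?_
    refine jn 1159 (by decide +kernel) ?_
    refine jn 1160 (by decide +kernel) ?_
    refine jn 1161 (by decide +kernel) ?_
    refine jn 1162 (by decide +kernel) ?_
    refine jn 1163 (by decide +kernel) ?_
    refine jn 1164 (by decide +kernel) ?_
    refine jn 1165 (by decide +kernel) ?_
    refine jn 1166 (by decide +kernel) ?_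
    refine jn 1168 (by decide +kernel) ?_
    refine jn 1169 (by decide +kernel) ?_
    refine jn 1170 (by decide +kernel) ?_
    refine jn 1175 (by decide +kernel) ?_
    refine jn 1181 (by decide +kernel) ?_
    refine jn 1184 (by decide +kernel) ?_
    refine jn 1185 (by decide +kernel) ?_
    refine jn 1186 (by decide +kernel) ?_
    refine jn 1187 (by decide +kernel) ?_
    refine jn 1188 (by decide +kernel) ?_
    refine jn 1189 (by decide +kernel) ?_
    refine jn 1190 (by decide +kernel) ?_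
    refine jn 1194 (by decide +kernel) ?_
    refine jn 1198 (by decide +kernel) ?_
    refine jn 1200 (by decide +kernel) ?_
    refine jn 1204 (by decide +kernel) ?_
    refine jn 1209 (by decide +kernel) ?_
    refine jn 1213 (by decide +kernel) ?_
    refine jn 1215 (by decide +kernel) ?_
    refine jn 1219 (by decide +kernel) ?_
    refine jn 1243 (by decide +kernel) ?_
    refine jn 1247 (by decide +kernel) ?_
    refine jn 1267 (by decide +kernel) ?_
    refine jn 1275 (by decide +kernel) ?_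
    refine jn 1294 (by decide +kernel) ?_
    exact je (by decide +kernel)
  · refine fin 360 1043 T32_1 ?_
    refine jn 14 (by decide +kernel) ?_
    refine jn 37 (by decide +kernel) ?_
    refine jn 59 (by decide +kernel) ?_
    refine jn 77 (by decide +kernel) ?_
    refine jn 93 (by decide +kernel) ?_
    refine jn 96 (by decide +kernel) ?_
    refine jn 100 (by decide +kernel) ?_
    refine jn 104 (by decide +kernel) ?_
    refine jn 107 (by decide +kernel) ?_
    refine jn 118 (by decide +kernel) ?_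
    refine jn 122 (by decide +kernel) ?_
    refine jn 133 (by decide +kernel) ?_
    refine jn 138 (by decide +kernel) ?_
    refine jn 149 (by decide +kernel) ?_
    refine jn 160 (by decide +kernel) ?_
    refine jn 173 (by decide +kernel) ?_
    refine jn 183 (by decide +kernel) ?_
    refine jn 185 (by decide +kernel) ?_
    refine jn 187 (by decide +kernel) ?_
    refine jn 194 (by decide +kernel) ?_
    refine jn 195 (by decide +kernel) ?_
    refine jn 196 (by decide +kernel) ?_
    refine jn 197 (by decide +kernel) ?_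
    refine jn 198 (by decide +kernel) ?_
    refine jn 199 (by decide +kernel) ?_
    refine jn 200 (by decide +kernel) ?_
    refine jn 201 (by decide +kernel) ?_
    refine jn 202 (by decide +kernel) ?_
    refine jn 203 (by decide +kernel) ?_
    refine jn 204 (by decide +kernel) ?_
    refine jn 205 (by decide +kernel) ?_
    refine jn 233 (by decide +kernel) ?_
    refine jn 250 (by decide +kernel) ?_
    refine jn 252 (by decide +kernel) ?_
    refine jn 253 (by decide +kernel) ?_
    refine jn 254 (by decide +kernel) ?_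
    refine jn 255 (by decide +kernel) ?_
    refine jn 257 (by decide +kernel) ?_
    refine jn 258 (by decide +kernel) ?_
    refine jn 259 (by decide +kernel) ?_
    refine jn 260 (by decide +kernel) ?_
    refine jn 261 (by decide +kernel) ?_
    refine jn 278 (by decide +kernel) ?_
    refine jn 279 (by decide +kernel) ?_
    refine jn 280 (by decide +kernel) ?_
    refine jn 281 (by decide +kernel) ?_
    refine jn 282 (by decide +kernel) ?_
    refine jn 283 (by decide +kernel) ?_
    refine jn 287 (by decide +kernel) ?_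
    refine jn 290 (by decide +kernel) ?_
    refine jn 291 (by decide +kernel) ?_
    refine jn 292 (by decide +kernel) ?_
    refine jn 293 (by decide +kernel) ?_
    refine jn 294 (by decide +kernel) ?_
    refine jn 295 (by decide +kernel) ?_
    refine jn 296 (by decide +kernel) ?_
    refine jn 297 (by decide +kernel) ?_
    refine jn 298 (by decide +kernel) ?_
    refine jn 299 (by decide +kernel) ?_
    refine jn 300 (by decide +kernel) ?_
    refine jn 301 (by decide +kernel) ?_
    refine jn 302 (by decide +kernel) ?_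
    refine jn 303 (by decide +kernel) ?_
    refine jn 304 (by decide +kernel) ?_
    refine jn 305 (by decide +kernel) ?_
    refine jn 306 (by decide +kernel) ?_
    refine jn 307 (by decide +kernel) ?_
    refine jn 308 (by decide +kernel) ?_
    refine jn 309 (by decide +kernel) ?_
    refine jn 319 (by decide +kernel) ?_
    refine jn 325 (by decide +kernel) ?_
    refine jn 334 (by decide +kernel) ?_
    refine jn 344 (by decide +kernel) ?_
    refine jn 354 (by decide +kernel) ?_
    refine jn 356 (by decide +kernel) ?_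
    refine jn 358 (by decide +kernel) ?_
    refine jn 360 (by decide +kernel) ?_
    refine jn 362 (by decide +kernel) ?_
    refine jn 363 (by decide +kernel) ?_
    refine jn 366 (by decide +kernel) ?_
    refine jn 369 (by decide +kernel) ?_
    refine jn 370 (by decide +kernel) ?_
    refine jn 377 (by decide +kernel) ?_
    refine jn 385 (by decide +kernel) ?_
    refine jn 391 (by decide +kernel) ?_
    refine jn 396 (by decide +kernel) ?_
    refine jn 404 (by decide +kernel) ?_
    refine jn 416 (by decide +kernel) ?_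
    refine jn 417 (by decide +kernel) ?_
    refine jn 418 (by decide +kernel) ?_
    refine jn 419 (by decide +kernel) ?_
    refine jn 420 (by decide +kernel) ?_
    refine jn 421 (by decide +kernel) ?_
    refine jn 422 (by decide +kernel) ?_
    refine jn 423 (by decide +kernel) ?_
    refine jn 424 (by decide +kernel) ?_
    refine jn 425 (by decide +kernel) ?_
    refine jn 426 (by decide +kernel) ?_
    refine jn 427 (by decide +kernel) ?_
    refine jn 428 (by decide +kernel) ?_
    refine jn 429 (by decide +kernel) ?_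
    refine jn 430 (by decide +kernel) ?_
    refine jn 431 (by decide +kernel) ?_
    refine jn 435 (by decide +kernel) ?_
    refine jn 437 (by decide +kernel) ?_
    refine jn 440 (by decide +kernel) ?_
    refine jn 441 (by decide +kernel) ?_
    refine jn 442 (by decide +kernel) ?_
    refine jn 443 (by decide +kernel) ?_
    refine jn 444 (by decide +kernel) ?_
    refine jn 445 (by decide +kernel) ?_
    refine jn 449 (by decide +kernel) ?_
    refine jn 450 (by decide +kernel) ?_
    refine jn 451 (by decide +kernel) ?_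
    refine jn 452 (by decide +kernel) ?_
    refine jn 453 (by decide +kernel) ?_
    refine jn 462 (by decide +kernel) ?_
    refine jn 475 (by decide +kernel) ?_
    refine jn 485 (by decide +kernel) ?_
    refine jn 494 (by decide +kernel) ?_
    refine jn 507 (by decide +kernel) ?_
    refine jn 530 (by decide +kernel) ?_
    refine jn 549 (by decide +kernel) ?_
    refine jn 560 (by decide +kernel) ?_
    refine jn 567 (by decide +kernel) ?_
    refine jn 576 (by decide +kernel) ?_
    refine jn 583 (by decide +kernel) ?_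
    refine jn 594 (by decide +kernel) ?_
    refine jn 595 (by decide +kernel) ?_
    refine jn 596 (by decide +kernel) ?_
    refine jn 597 (by decide +kernel) ?_
    refine jn 598 (by decide +kernel) ?_
    refine jn 599 (by decide +kernel) ?_
    refine jn 600 (by decide +kernel) ?_
    refine jn 601 (by decide +kernel) ?_
    refine jn 606 (by decide +kernel) ?_
    refine jn 607 (by decide +kernel) ?_
    refine jn 608 (by decide +kernel) ?_
    refine jn 609 (by decide +kernel) ?_
    refine jn 610 (by decide +kernel) ?_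
    refine jn 611 (by decide +kernel) ?_
    refine jn 612 (by decide +kernel) ?_
    refine jn 613 (by decide +kernel) ?_
    refine jn 627 (by decide +kernel) ?_
    refine jn 635 (by decide +kernel) ?_
    refine jn 644 (by decide +kernel) ?_
    refine jn 656 (by decide +kernel) ?_
    refine jn 660 (by decide +kernel) ?_
    refine jn 665 (by decide +kernel) ?_
    refine jn 669 (by decide +kernel) ?_
    refine jn 674 (by decide +kernel) ?_
    refine jn 684 (by decide +kernel) ?_
    refine jn 686 (by decide +kernel) ?_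
    refine jn 688 (by decide +kernel) ?_
    refine jn 690 (by decide +kernel) ?_
    refine jn 692 (by decide +kernel) ?_
    refine jn 693 (by decide +kernel) ?_
    refine jn 695 (by decide +kernel) ?_
    refine jn 699 (by decide +kernel) ?_
    refine jn 714 (by decide +kernel) ?_
    refine jn 722 (by decide +kernel) ?_
    refine jn 737 (by decide +kernel) ?_
    refine jn 745 (by decide +kernel) ?_
    refine jn 761 (by decide +kernel) ?_
    refine jn 767 (by decide +kernel) ?_
    refine jn 781 (by decide +kernel) ?_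
    refine jn 788 (by decide +kernel) ?_
    refine jn 803 (by decide +kernel) ?_
    refine jn 818 (by decide +kernel) ?_
    refine jn 824 (by decide +kernel) ?_
    refine jn 834 (by decide +kernel) ?_
    refine jn 837 (by decide +kernel) ?_
    refine jn 839 (by decide +kernel) ?_
    refine jn 843 (by decide +kernel) ?_
    refine jn 849 (by decide +kernel) ?_
    refine jn 857 (by decide +kernel) ?_
    refine jn 864 (by decide +kernel) ?_
    refine jn 878 (by decide +kernel) ?_
    refine jn 884 (by decide +kernel) ?_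
    refine jn 900 (by decide +kernel) ?_
    refine jn 911 (by decide +kernel) ?_
    refine jn 922 (by decide +kernel) ?_
    refine jn 932 (by decide +kernel) ?_
    refine jn 940 (by decide +kernel) ?_
    refine jn 947 (by decide +kernel) ?_
    refine jn 952 (by decide +kernel) ?_
    refine jn 968 (by decide +kernel) ?_
    refine jn 983 (by decide +kernel) ?_
    refine jn 994 (by decide +kernel) ?_
    refine jn 1004 (by decide +kernel) ?_
    refine jn 1017 (by decide +kernel) ?_
    refine jn 1033 (by decide +kernel) ?_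
    exact je (by decide +kernel)

end Pool.Agent.MP_2339ce_nt.NR
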