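import Pool.Agent.MP_2339ce_nt.Q2.NC.L3
import Pool.Agent.MP_2339ce_nt.Q2.NC.L6
import Pool.Agent.MP_2339ce_nt.Q2.NC.L10
import Pool.Agent.MP_2339ce_nt.Q2.CkI

/-! Block NR: runs. -/

set_option autoImplicit false
set_option maxRecDepth 100000

noncomputable section

namespace Pool.Agent.MP_2339ce_nt.NR

open Q2.Top

def T35_0 : Ph :=
  (.na 810 114 (.na 578 44 (.na 404 16 (.na 271 5 (.na 150 3 (.na 1 2 .ne (.nx 149 3329023 (.nr 148
  623489 (.nx 129 1321124 (.nx 4 117 (.nx 3 116 (.nr 2 21 (.lg 0 true 1 41 41 5 0 4176) (.l1 .sk))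
  (.l1 .sk)) (.nr 109 65537 (.nx 25 14207 (.lg 0 false 21 101 103 11 0 1607760) (.nr 60 257 (.lg 0
  true 35 89 89 13 0 146160) (.nx 108 165142 (.nx 73 20644 (.lg 1 false 13 101 103 9 31093 2985840)
  (.nr 107 46342 (.nr 80 1100 (.lg 2 true 7 83 83 9 37270 29232) (.nr 93 27556 (.lg 2 false 13 101
  103 9 9019 2985840) (.nx 106 65537 (.lg 2 false 13 103 107 9 15142 20900880) .out))) .out))
  .out))) (.nx 128 1292 (.nr 114 77937 (.lg 0 false 5 83 83 9 0 20880) (.nx 127 205 (.lg 0 false 13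
  83 83 9 0 54288) .out)) .out))) (.nr 147 9 (.lg 0 true 18 71 71 9 0 4176) .out)) .out) .out))
  (.na 151 4 .ne (.nx 270 10568985 (.nr 269 1246976 (.nx 177 10321 (.nx 153 116 (.nr 152 37 (.lg 0
  true 1 37 37 9 0 20880) (.l1 .sk)) (.nx 154 117 (.l1 .sk) (.nr 161 55110 (.lg 0 true 7 101 101 11
  0 146160) (.nx 176 1292 (.nr 168 155873 (.lg 0 false 7 89 97 11 0 146160) (.nx 175 205 (.lg 0
  false 7 83 83 11 0 29232) .out)) .out)))) (.nr 268 65537 (.nx 213 330282 (.nr 191 2635 (.nr 188
  694 (.lg 0 true 11 89 89 13 0 229680) (.lg 2 true 3 89 89 9 27603 20880)) (.nx 205 41287 (.nx 198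
  20642 (.lg 1 false 7 103 107 11 42800 20900880) (.lg 1 false 7 103 107 11 21400 20900880)) (.nr
  212 55110 (.lg 2 false 7 103 107 11 9000 20900880) .out))) (.nr 267 183 (.nr 255 37 (.lg 0 true
  42 83 89 13 0 146160) (.nx 266 1321124 (.lg 0 true 11 83 83 13 0 45936) .out)) .out)) .out))
  .out) .out))) (.na 322 7 (.na 272 6 .ne (.nx 321 1321124 (.nr 320 220437 (.nx 275 117 (.nx 274
  116 (.nr 273 53 (.lg 0 false 1 31 31 7 0 20880) (.l1 .sk)) (.l1 .sk)) (.nr 312 55110 (.nx 286
  19706 (.lg 0 false 11 97 101 17 0 229680) (.nr 297 501 (.lg 0 true 11 89 89 17 0 45936) (.nx 311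
  416129 (.nr 300 1905 (.lg 2 true 3 83 83 13 48175 4176) (.lg 2 false 11 97 103 17 18856 1607760))
  .out))) (.nx 319 1292 (.lg 0 false 7 89 97 13 0 146160) .out))) .out) .out)) (.na 323 10 .ne (.na
  367 12 (.nx 366 1321124 (.nr 365 623489 (.nx 326 117 (.nx 325 116 (.nr 324 91 (.lg 0 true 1 31 31
  11 0 20880) (.l1 .sk)) (.l1 .sk)) (.nx 357 330282 (.nx 341 26009 (.nr 333 77937 (.lg 0 false 7 97
  101 13 0 146160) (.nx 340 814 (.lg 0 false 7 89 89 13 0 146160) .out)) (.nr 356 46342 (.nr 348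
  766 (.lg 0 true 7 83 83 13 0 146160) (.nx 355 165142 (.lg 2 false 7 89 97 13 12505 146160) .out))
  .out)) (.nr 364 65 (.lg 0 true 7 73 73 13 0 146160) .out))) .out) .out) (.nx 403 1321124 (.nr 402
  623489 (.nr 368 6 .s1 (.nx 396 330282 (.nx 370 116 (.nr 369 122 (.lg 0 false 1 37 37 13 0 20880)
  (.l1 .sk)) (.nx 371 117 (.l1 .sk) (.nr 387 65537 (.nx 378 26009 (.lg 0 false 7 89 97 23 0 146160)
  (.nr 386 46342 (.nr 383 766 (.lg 0 true 5 79 83 19 0 20880) (.nx 385 165142 (.lg 2 false 2 97 101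
  13 12505 20880) .out)) .out)) (.nx 395 6503 (.nr 392 220437 (.nr 389 92683 (.lg 0 false 2 89 97
  13 0 20880) (.nx 391 814 (.lg 0 false 2 83 83 13 0 4176) .out)) (.nx 394 324 (.lg 0 false 2 79 79
  13 0 4176) .out)) .out)))) (.nr 401 65 (.lg 0 true 5 71 73 19 0 20880) .out))) .out) .out)))))
  (.na 491 26 (.na 436 20 (.na 405 18 .ne (.nx 435 1321124 (.nr 434 1048577 (.nr 406 15 .s1 (.nx
  409 117 (.nx 408 116 (.nr 407 153 (.lg 0 false 1 19 19 13 0 20880) (.l1 .sk)) (.l1 .sk)) (.nx 412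
  324 (.nx 410 205 (.l1 (.ls 83 41 1577)) (.nr 411 623489 (.l1 (.ls 79 43 3500)) .out)) (.nr 433
  220437 (.nr 431 131073 (.nx 419 16385 (.lg 0 false 7 89 97 19 0 146160) (.nr 430 46342 (.nr 426
  498 (.lg 0 true 7 79 79 19 0 29232) (.nx 429 165142 (.lg 2 false 3 89 89 13 19234 20880) .out))
  .out)) (.nx 432 814 (.lg 0 true 1 73 73 13 0 4176) .out)) .out)))) .out) .out)) (.na 461 22 (.nx
  460 1321124 (.nr 459 1048577 (.nr 437 17 .s1 (.nx 443 324 (.nx 441 205 (.nx 439 116 (.nr 438 168
  (.lg 0 true 1 37 37 13 0 229680) (.l1 .sk)) (.nx 440 117 (.l1 .sk) (.l1 (.ls 97 41 1419)))) (.nr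
  442 623489 (.l1 (.ls 89 43 3150)) .out)) (.nr 458 220437 (.nr 456 131073 (.nx 452 165142 (.nx 446
  10323 (.lg 0 false 3 97 97 19 0 20880) (.nr 451 55110 (.nr 447 1360 (.lg 0 false 1 89 89 13 0
  20880) (.nx 449 26009 (.lg 1 false 2 97 101 17 35996 229680) (.nr 450 32769 (.lg 2 true 1 97 97
  13 8507 20880) .out))) .out)) (.nr 455 183 (.lg 0 true 3 79 79 19 0 20880) .out)) (.nx 457 814
  (.lg 0 false 1 79 79 13 0 20880) .out)) .out))) .out) .out) (.na 490 23 (.nx 489 1321124 (.nr 488
  1048577 (.nr 462 20 .s1 (.nx 476 16385 (.nx 468 324 (.nx 466 205 (.nx 464 116 (.nr 463 176 (.lg 0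
  false 1 31 31 9 0 229680) (.l1 .sk)) (.nx 465 117 (.l1 .sk) (.l1 (.ls 89 41 1291)))) (.nr 467
  623489 (.l1 (.ls 83 43 2864)) .out)) (.nr 475 220437 (.nr 473 131073 (.lg 0 false 5 97 97 19 0
  229680) (.nx 474 814 (.lg 0 true 1 79 79 9 0 229680) .out)) .out)) (.nr 487 46342 (.nr 483 498
  (.lg 0 true 7 79 79 19 0 321552) (.nx 486 165142 (.lg 2 false 3 89 89 13 19234 45936) .out))
  .out))) .out) .out) .ne))) (.na 541 32 (.na 517 30 (.nx 516 1321124 (.nr 515 1048577 (.nr 492 24
  .s1 (.nx 496 205 (.nx 494 116 (.nr 493 229 (.lg 0 false 1 23 23 11 0 271440) (.l1 .sk)) (.nx 495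
  117 (.l1 .sk) (.l1 (.ls 83 37 1092)))) (.nr 514 185365 (.nx 503 16385 (.lg 0 false 7 89 97 19 0
  1900080) (.nr 513 38969 (.nr 510 513 (.lg 0 true 7 79 79 19 0 380016) (.nx 512 82572 (.lg 2 true
  2 89 89 11 16050 271440) .out)) .out)) .out))) .out) .out) (.nx 540 1321124 (.nr 539 1048577 (.nr
  518 29 .s1 (.nx 522 205 (.nx 520 116 (.nr 519 244 (.l1 (.ls 37 37 451)) (.l1 .sk)) (.nx 521 117
  (.l1 .sk) (.l1 (.ls 89 41 947)))) (.nr 538 185365 (.nx 534 165142 (.nx 532 82572 (.nx 525 10323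
  (.lg 0 false 3 89 89 29 0 20880) (.nr 531 55110 (.nr 529 32769 (.nr 527 11591 (.lg 0 false 2 83
  83 23 0 20880) (.lg 2 false 2 79 79 23 21434 20880)) (.nx 530 26009 (.lg 0 true 1 89 89 19 0
  20880) .out)) .out)) (.nr 533 513 (.lg 0 false 1 73 73 19 0 20880) .out)) (.nr 537 183 (.lg 0
  true 3 73 73 29 0 20880) .out)) .out))) .out) .out)) (.na 542 36 .ne (.na 559 38 (.nx 558 1321124
  (.nr 557 370729 (.nr 543 35 .s1 (.nx 546 117 (.nx 545 116 (.nr 544 290 (.l1 (.ls 31 31 376)) (.l1
  .sk)) (.l1 .sk)) (.nx 551 13005 (.nr 548 77937 (.lg 0 false 2 89 89 23 0 20880) (.nx 550 6503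
  (.lg 0 false 2 97 97 23 0 20880) .out)) (.nr 556 23172 (.nr 554 290 (.lg 0 true 3 73 73 23 0
  4176) (.nx 555 82572 (.lg 2 true 1 89 89 19 16515 4176) .out)) .out)))) .out) .out) (.nx 577
  1321124 (.nr 576 370729 (.nr 560 37 .s1 (.nx 563 117 (.nx 562 116 (.nr 561 336 (.l1 (.ls 17 31
  357)) (.l1 .sk)) (.l1 .sk)) (.nx 570 13005 (.lg 0 false 7 89 97 17 0 146160) (.nr 575 23172 (.nr
  573 217 (.lg 0 true 3 67 67 13 0 4176) (.nx 574 82572 (.lg 2 true 1 83 83 13 22070 4176) .out))
  .out)))) .out) .out)))))) (.na 695 76 (.na 638 58 (.na 596 50 (.na 595 46 (.nx 594 1321124 (.nr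
  593 370729 (.nr 579 43 .s1 (.nx 589 82572 (.nx 581 116 (.nr 580 351 (.l1 (.ls 31 31 308)) (.l1
  .sk)) (.nx 582 117 (.l1 .sk) (.nx 587 20644 (.nr 584 77937 (.lg 0 false 2 89 97 23 0 229680) (.nx
  586 6503 (.lg 0 false 2 97 97 23 0 229680) .out)) (.nr 588 13779 (.lg 0 false 1 97 97 19 0
  229680) .out)))) (.nr 592 217 (.lg 0 true 3 71 73 23 0 45936) .out))) .out) .out) .ne) (.na 611
  52 (.nx 610 1321124 (.nr 609 311745 (.nr 597 49 .s1 (.nx 600 117 (.nx 599 116 (.nr 598 397 (.l1
  (.ls 19 29 272)) (.l1 .sk)) (.l1 .sk)) (.nx 603 10323 (.lg 0 false 3 83 83 19 0 20880) (.nr 608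
  23172 (.nr 606 397 (.lg 0 true 3 71 71 19 0 20880) (.nx 607 82572 (.lg 2 true 1 79 79 13 15179
  20880) .out)) .out)))) .out) .out) (.na 624 54 (.nx 623 1321124 (.nr 622 311745 (.nr 612 51 .s1
  (.nx 614 116 (.nr 613 413 (.l1 (.ls 31 29 261)) (.l1 .sk)) (.nx 615 117 (.l1 .sk) (.nx 617 10323
  (.lg 0 false 2 97 97 23 0 271440) (.nr 621 23172 (.nx 618 82572 (.lg 0 false 1 97 97 19 0 271440)
  (.nr 620 217 (.lg 0 true 2 71 71 23 0 54288) .out)) .out))))) .out) .out) (.nx 637 1321124 (.nr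
  636 311745 (.nr 625 53 .s1 (.nx 628 117 (.nx 627 116 (.nr 626 443 (.l1 (.ls 19 31 252)) (.l1
  .sk)) (.l1 .sk)) (.nx 630 10323 (.lg 0 true 2 83 83 19 0 20880) (.nr 635 23172 (.nr 633 443 (.lg
  0 true 3 67 67 23 0 4176) (.nx 634 82572 (.lg 2 true 1 73 73 19 15179 4176) .out)) .out)))) .out)
  .out)))) (.na 666 62 (.na 653 60 (.nx 652 1321124 (.nr 651 311745 (.nr 639 57 .s1 (.nx 645 10323
  (.nx 641 116 (.nr 640 458 (.lg 0 true 1 0 17 13 0 20900880) (.l1 .sk)) (.nx 642 117 (.l1 .sk)
  (.lg 0 true 3 73 73 13 0 4176))) (.nr 650 23172 (.nr 647 217 (.lg 0 false 2 67 67 13 0 20880)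
  (.nx 649 82572 (.lg 2 true 2 71 71 13 22070 20880) .out)) .out))) .out) .out) (.nx 665 1321124
  (.nr 664 311745 (.nr 654 60 .s1 (.nx 657 117 (.nx 656 116 (.nr 655 474 (.l1 (.ls 37 31 227)) (.l1
  .sk)) (.l1 .sk)) (.nx 662 82572 (.nx 660 20644 (.nr 658 46342 (.lg 0 false 1 89 89 29 0 20880)
  (.nx 659 8193 (.lg 0 false 1 97 97 29 0 20880) .out)) (.nr 661 13779 (.lg 0 true 1 89 89 29 0
  20880) .out)) (.nr 663 217 (.lg 0 true 1 73 73 29 0 20880) .out)))) .out) .out)) (.na 681 64 (.nx
  680 1321124 (.nr 679 311745 (.nr 667 62 .s1 (.nx 669 116 (.nr 668 489 (.l1 (.ls 19 23 220)) (.l1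
  .sk)) (.nx 670 117 (.l1 .sk) (.nx 673 10323 (.lg 0 false 3 83 83 19 0 4176) (.nr 678 23172 (.nr
  676 489 (.lg 0 true 3 71 71 19 0 4176) (.nx 677 82572 (.lg 2 true 1 79 79 13 15179 4176) .out))
  .out))))) .out) .out) (.na 682 66 .ne (.nx 694 1321124 (.nr 693 524289 (.nr 683 66 .s1 (.nx 686
  117 (.nx 685 116 (.nr 684 580 (.l1 (.ls 31 31 206)) (.l1 .sk)) (.l1 .sk)) (.nx 688 8193 (.lg 0
  false 2 89 89 29 0 229680) (.nr 692 8193 (.nr 690 513 (.lg 0 true 2 73 73 29 0 45936) (.nx 691
  82572 (.lg 2 true 1 71 71 29 9336 229680) .out)) .out)))) .out) .out))))) (.na 750 94 (.na 721 86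
  (.na 708 78 (.nx 707 1321124 (.nr 706 524289 (.nr 696 76 .s1 (.nx 698 116 (.nr 697 596 (.l1 (.ls
  17 29 180)) (.l1 .sk)) (.nx 699 117 (.l1 .sk) (.nx 701 8193 (.lg 0 false 2 97 97 23 0 20880) (.nr
  705 8193 (.nr 703 513 (.lg 0 true 2 73 73 23 0 4176) (.nx 704 82572 (.lg 2 true 1 71 71 17 9336
  4176) .out)) .out))))) .out) .out) (.nx 720 1321124 (.nr 719 524289 (.nr 709 78 .s1 (.nx 711 116
  (.nr 710 657 (.l1 (.ls 31 31 175)) (.l1 .sk)) (.nx 712 117 (.l1 .sk) (.nx 714 8193 (.lg 0 false 2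
  89 89 31 0 54288) (.nr 718 8193 (.nr 716 513 (.lg 0 true 2 73 73 31 0 54288) (.nx 717 82572 (.lg
  2 true 1 71 71 29 9336 54288) .out)) .out))))) .out) .out)) (.na 736 90 (.nx 735 1321124 (.nr 734
  524289 (.nr 722 86 .s1 (.nx 725 117 (.nx 724 116 (.nr 723 687 (.l1 (.ls 19 23 159)) (.l1 .sk))
  (.l1 .sk)) (.nx 728 8193 (.lg 0 false 3 83 83 19 0 4176) (.nr 733 8193 (.nr 731 687 (.lg 0 true 3
  71 71 19 0 4176) (.nx 732 82572 (.lg 2 false 1 61 61 13 6972 4176) .out)) .out)))) .out) .out)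
  (.na 749 91 (.nx 748 1321124 (.nr 747 524289 (.nr 737 90 .s1 (.nx 739 116 (.nr 738 695 (.l1 (.ls
  31 31 152)) (.l1 .sk)) (.nx 740 117 (.l1 .sk) (.nx 742 8193 (.lg 0 false 2 89 89 31 0 20880) (.nr
  746 8193 (.nr 744 513 (.lg 0 true 2 71 71 31 0 20880) (.nx 745 82572 (.lg 2 true 1 67 67 29 9336
  20880) .out)) .out))))) .out) .out) .ne))) (.na 774 106 (.na 761 100 (.nx 760 1321124 (.nr 759
  524289 (.nr 751 94 .s1 (.nx 754 117 (.nx 753 116 (.nr 752 764 (.l1 (.ls 19 23 146)) (.l1 .sk))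
  (.l1 .sk)) (.nx 755 8193 (.lg 0 true 1 89 89 17 0 4176) (.nr 758 8193 (.nr 756 513 (.lg 0 false 1
  73 73 17 0 4176) (.nx 757 82572 (.lg 2 false 1 61 61 17 9336 20880) .out)) .out)))) .out) .out)
  (.nx 773 1321124 (.nr 772 524289 (.nr 762 100 .s1 (.nx 767 8193 (.nx 764 116 (.nr 763 809 (.l1
  (.ls 31 23 137)) (.l1 .sk)) (.nx 765 117 (.l1 .sk) (.lg 0 false 2 83 83 29 0 20880))) (.nr 771
  8193 (.nr 769 513 (.lg 0 true 2 71 71 29 0 20880) (.nx 770 82572 (.lg 2 false 1 67 67 23 9336
  20880) .out)) .out))) .out) .out)) (.na 785 108 (.nx 784 1321124 (.nr 783 524289 (.nr 775 106 .s1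
  (.nx 777 116 (.nr 776 825 (.l1 (.ls 19 23 129)) (.l1 .sk)) (.nx 778 117 (.l1 .sk) (.nx 779 8193
  (.lg 0 true 1 89 89 19 0 20880) (.nr 782 8193 (.nr 780 513 (.lg 0 false 1 73 73 19 0 20880) (.nx
  781 82572 (.lg 2 false 1 61 61 19 9336 4176) .out)) .out))))) .out) .out) (.na 798 110 (.nx 797
  1321124 (.nr 796 524289 (.nr 786 108 .s1 (.nx 789 117 (.nx 788 116 (.nr 787 840 (.l1 (.ls 23 29
  127)) (.l1 .sk)) (.l1 .sk)) (.nx 791 8193 (.lg 0 false 2 83 83 29 0 4176) (.nr 795 8193 (.nr 793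
  513 (.lg 0 true 2 71 71 29 0 4176) (.nx 794 82572 (.lg 2 true 1 61 61 23 9336 4176) .out))
  .out)))) .out) .out) (.nx 809 1321124 (.nr 808 524289 (.nr 799 110 .s1 (.nx 801 116 (.nr 800 871
  (.l1 (.ls 31 29 125)) (.l1 .sk)) (.nx 802 117 (.l1 .sk) (.nx 803 8193 (.lg 0 true 1 89 89 29 0
  229680) (.nr 807 8193 (.nr 805 871 (.lg 0 true 2 73 73 31 0 229680) (.nx 806 82572 (.lg 2 false 1
  61 61 29 6824 229680) .out)) .out))))) .out) .out))))))) (.na 969 220 (.na 889 162 (.na 845 130
  (.na 833 124 (.na 822 116 (.nx 821 1321124 (.nr 820 524289 (.nr 811 114 .s1 (.nx 813 116 (.nr 812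
  886 (.l1 (.ls 17 31 121)) (.l1 .sk)) (.nx 814 117 (.l1 .sk) (.nx 815 8193 (.lg 0 true 1 89 89 31
  0 20880) (.nr 819 8193 (.nr 817 886 (.lg 0 true 2 73 73 31 0 4176) (.nx 818 82572 (.lg 2 true 1
  61 61 31 6824 4176) .out)) .out))))) .out) .out) (.nx 832 1321124 (.nr 831 524289 (.nr 823 116
  .s1 (.nx 827 8193 (.nx 825 116 (.nr 824 947 (.l1 (.ls 17 23 118)) (.l1 .sk)) (.nx 826 117 (.l1
  .sk) (.lg 0 true 1 79 79 19 0 4176))) (.nr 830 8193 (.nr 828 513 (.lg 2 false 1 61 61 19 660562
  4176) (.nx 829 82572 (.lg 2 true 1 53 53 19 9336 4176) .out)) .out))) .out) .out)) (.na 844 128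
  (.nx 843 1321124 (.nr 842 524289 (.nr 834 124 .s1 (.nx 838 8193 (.nx 836 116 (.nr 835 977 (.l1
  (.ls 23 19 111)) (.l1 .sk)) (.nx 837 117 (.l1 .sk) (.lg 0 true 1 89 89 19 0 20880))) (.nr 841
  8193 (.nr 839 513 (.lg 2 true 1 67 67 19 617946 4176) (.nx 840 82572 (.lg 2 false 1 67 67 19 9336
  20880) .out)) .out))) .out) .out) .ne)) (.na 863 150 (.na 853 132 (.nx 852 660563 (.nr 851
  1048577 (.nr 846 130 .s1 (.nx 847 205 (.l1 (.ls 79 37 326)) (.nr 850 524289 (.nr 848 8193 (.lg 0
  false 1 89 89 29 0 271440) (.nx 849 6503 (.lg 0 true 1 89 89 29 0 271440) .out)) .out))) .out)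
  .out) (.nx 862 660563 (.nr 861 1048577 (.nr 854 132 .s1 (.nx 859 82572 (.nx 855 205 (.l1 (.ls 83
  37 321)) (.nr 858 524289 (.nx 856 6503 (.lg 0 false 1 89 89 31 0 45936) (.nr 857 8193 (.lg 0 true
  1 79 83 31 0 229680) .out)) .out)) (.nr 860 1025 (.lg 0 true 1 79 79 31 0 45936) .out))) .out)
  .out)) (.na 871 156 (.nx 870 660563 (.nr 869 1048577 (.nr 864 150 .s1 (.nx 867 6503 (.nx 865 205
  (.l1 (.ls 73 37 283)) (.nr 866 524289 (.lg 0 false 1 79 79 31 0 20880) .out)) (.nr 868 8193 (.lg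
  0 false 1 83 83 31 0 20880) .out))) .out) .out) (.na 881 158 (.nx 880 660563 (.nr 879 1048577
  (.nr 872 156 .s1 (.nx 875 6503 (.nx 873 205 (.l1 (.ls 83 37 272)) (.nr 874 524289 (.lg 0 false 1
  89 89 37 0 54288) .out)) (.nr 878 8193 (.nx 876 82572 (.lg 0 true 1 79 79 37 0 54288) (.nr 877
  1025 (.lg 0 true 1 73 73 37 0 54288) .out)) .out))) .out) .out) (.nx 888 660563 (.nr 887 1048577
  (.nr 882 158 .s1 (.nx 883 205 (.l1 (.ls 67 29 268)) (.nr 886 524289 (.nr 884 8193 (.lg 0 false 1
  83 83 19 0 20880) (.nx 885 6503 (.lg 0 true 1 79 79 19 0 20880) .out)) .out))) .out) .out)))))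
  (.na 929 188 (.na 905 174 (.na 897 172 (.nx 896 660563 (.nr 895 1048577 (.nr 890 162 .s1 (.nx 891
  205 (.l1 (.ls 71 31 262)) (.nr 894 524289 (.nr 892 8193 (.lg 0 false 1 79 79 23 0 4176) (.nx 893
  6503 (.lg 0 true 1 79 79 23 0 20880) .out)) .out))) .out) .out) (.nx 904 660563 (.nr 903 1048577
  (.nr 898 172 .s1 (.nx 899 205 (.l1 (.ls 79 29 247)) (.nr 902 524289 (.nr 900 8193 (.lg 0 false 1
  83 83 23 0 4176) (.nx 901 6503 (.lg 0 false 1 79 79 23 0 4176) .out)) .out))) .out) .out)) (.na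
  913 180 (.nx 912 660563 (.nr 911 1048577 (.nr 906 174 .s1 (.nx 907 205 (.l1 (.ls 79 37 244)) (.nr
  910 524289 (.nr 908 8193 (.lg 0 false 1 79 79 23 0 4176) (.nx 909 6503 (.lg 0 true 1 79 79 23 0
  229680) .out)) .out))) .out) .out) (.na 921 186 (.nx 920 660563 (.nr 919 1048577 (.nr 914 180 .s1
  (.nx 915 205 (.l1 (.ls 79 37 236)) (.nr 918 524289 (.nr 916 8193 (.lg 0 true 1 83 83 37 0 20880)
  (.nx 917 6503 (.lg 0 false 1 83 83 37 0 20880) .out)) .out))) .out) .out) (.nx 928 660563 (.nr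
  927 1048577 (.nr 922 186 .s1 (.nx 923 205 (.l1 (.ls 79 29 228)) (.nr 926 524289 (.nr 924 8193
  (.lg 0 false 1 83 83 29 0 20880) (.nx 925 6503 (.lg 0 false 1 79 79 29 0 4176) .out)) .out)))
  .out) .out)))) (.na 945 198 (.na 937 190 (.nx 936 660563 (.nr 935 1048577 (.nr 930 188 .s1 (.nx
  931 205 (.l1 (.ls 79 23 226)) (.nr 934 524289 (.nr 932 8193 (.lg 0 true 1 83 83 23 0 4176) (.nx
  933 6503 (.lg 0 false 1 79 79 23 0 4176) .out)) .out))) .out) .out) (.nx 944 660563 (.nr 943
  1048577 (.nr 938 190 .s1 (.nx 939 205 (.l1 (.ls 79 31 224)) (.nr 942 524289 (.nr 940 8193 (.lg 0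
  false 1 89 89 31 0 20880) (.nx 941 6503 (.lg 0 true 1 83 83 31 0 20880) .out)) .out))) .out)
  .out)) (.na 953 212 (.nx 952 660563 (.nr 951 1048577 (.nr 946 198 .s1 (.nx 947 205 (.l1 (.ls 73
  37 215)) (.nr 950 524289 (.nr 948 8193 (.lg 0 false 1 83 83 31 0 229680) (.nx 949 6503 (.lg 0
  false 1 79 79 31 0 45936) .out)) .out))) .out) .out) (.na 961 218 (.nx 960 660563 (.nr 959
  1048577 (.nr 954 212 .s1 (.nx 955 205 (.l1 (.ls 79 23 201)) (.nr 958 524289 (.nr 956 8193 (.lg 0
  true 1 83 83 23 0 4176) (.nx 957 6503 (.lg 0 false 1 79 79 23 0 4176) .out)) .out))) .out) .out)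
  (.nx 968 660563 (.nr 967 1048577 (.nr 962 218 .s1 (.nx 963 205 (.l1 (.ls 79 23 195)) (.nr 966
  524289 (.nr 964 8193 (.lg 0 false 1 79 79 23 0 229680) (.nx 965 6503 (.lg 0 true 1 73 73 23 0
  4176) .out)) .out))) .out) .out)))))) (.na 2264 1024 (.na 1009 254 (.na 985 234 (.na 977 228 (.nx
  976 660563 (.nr 975 1048577 (.nr 970 220 .s1 (.nx 971 205 (.l1 (.ls 79 31 194)) (.nr 974 524289
  (.nr 972 8193 (.lg 0 true 1 89 89 37 0 229680) (.nx 973 6503 (.lg 0 false 1 83 83 37 0 229680)
  .out)) .out))) .out) .out) (.nx 984 660563 (.nr 983 1048577 (.nr 978 228 .s1 (.nx 979 205 (.l1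
  (.ls 79 37 187)) (.nr 982 524289 (.nr 980 8193 (.lg 0 true 1 89 89 37 0 20880) (.nx 981 6503 (.lg
  0 false 1 83 83 37 0 4176) .out)) .out))) .out) .out)) (.na 993 242 (.nx 992 660563 (.nr 991
  1048577 (.nr 986 234 .s1 (.nx 987 205 (.l1 (.ls 73 37 182)) (.nr 990 524289 (.nr 988 8193 (.lg 0
  true 1 79 79 37 0 54288) (.nx 989 6503 (.lg 0 false 1 73 73 37 0 54288) .out)) .out))) .out)
  .out) (.na 1001 250 (.nx 1000 660563 (.nr 999 1048577 (.nr 994 242 .s1 (.nx 995 205 (.l1 (.ls 67
  29 176)) (.nr 998 524289 (.nr 996 8193 (.lg 0 false 1 73 73 29 0 45936) (.nx 997 6503 (.lg 0 true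
  1 73 73 29 0 229680) .out)) .out))) .out) .out) (.nx 1008 660563 (.nr 1007 1048577 (.nr 1002 250
  .s1 (.nx 1003 205 (.l1 (.ls 67 29 171)) (.nr 1006 524289 (.nr 1004 8193 (.lg 0 false 1 73 73 29 0
  20880) (.nx 1005 6503 (.lg 0 true 1 73 73 29 0 20880) .out)) .out))) .out) .out)))) (.na 1018 257
  (.na 1017 256 (.nx 1016 660563 (.nr 1015 1048577 (.nr 1010 254 .s1 (.nx 1011 205 (.l1 (.ls 67 23
  168)) (.nr 1014 524289 (.nr 1012 8193 (.lg 0 false 1 73 73 23 0 20880) (.nx 1013 6503 (.lg 0 true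
  1 71 71 23 0 20880) .out)) .out))) .out) .out) .ne) (.na 1532 512 (.nx 1531 82572 (.nr 1530
  1048577 (.nr 1019 257 .s1 (.nx 1274 647 (.la (.ls 79 31 1631)) (.nr 1529 262145 (.la (.lg 0 false
  1 83 83 23 0)) .out))) .out) .out) (.na 1962 725 (.nx 1961 82572 (.nr 1960 1048577 (.nr 1533 512
  .s1 (.nx 1746 647 (.la (.ls 97 29 820)) (.nr 1959 262145 (.la (.lg 0 false 1 79 79 29 0)) .out)))
  .out) .out) (.nx 2263 3252 (.nr 2262 262145 (.nr 1963 725 .s1 (.la (.ls 61 43 14589))) .out)
  .out))))) (.na 5563 8192 (.na 3294 2048 (.na 2692 1449 (.nx 2691 3252 (.nr 2690 262145 (.nr 2265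
  1024 .s1 (.la (.ls 61 41 10330))) .out) .out) (.nx 3293 1627 (.nr 3292 131073 (.nr 2693 1449 .s1
  (.la (.ls 59 31 1829))) .out) .out)) (.na 4263 2897 (.nx 4262 1627 (.nr 4261 131073 (.nr 3295
  2048 .s1 (.nx 3411 116 (.nr 3410 22111 (.lx (.lp 53 29 725)) (.l1 .sk)) (.nx 3412 117 (.l1 .sk)
  (.la (.ls 61 31 1288))))) .out) .out) (.na 4913 4096 (.nx 4912 647 (.nr 4911 65537 (.nr 4264 2897
  .s1 (.nx 4426 163 (.lx (.lp 59 31 1025)) (.nr 4910 32769 (.lx (.lp 47 31 1025)) .out))) .out)
  .out) (.nx 5562 647 (.nr 5561 65537 (.nr 4914 4096 .s1 (.nx 5076 163 (.lx (.lp 53 31 2049)) (.nr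
  5560 32769 (.lx (.lp 47 37 2049)) .out))) .out) .out)))) (.na 6862 32768 (.na 6212 16384 (.nx
  6211 647 (.nr 6210 65537 (.nr 5564 8192 .s1 (.lx (.lp 47 41 4097))) .out) .out) (.nx 6861 647
  (.nr 6860 131073 (.nr 6213 16384 .s1 (.nx 6375 163 (.lx (.lp 16 0 8193)) (.nr 6859 65537 (.lx
  (.lp 43 43 8193)) .out))) .out) .out)) (.na 7188 65536 (.nx 7187 324 (.nr 7186 131073 (.nr 6863
  32768 .s1 (.lx (.lp 47 47 16385))) .out) .out) (.na 7514 131073 (.nx 7513 324 (.nr 7512 262145
  (.nr 7189 65536 .s1 (.lx (.lp 47 47 32769))) .out) .out) .out)))))))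

def T35_1 : Ph :=
  (.na 442 7 (.na 235 6 (.nx 234 21137969 (.nr 233 1482912 (.nx 2 239 (.nr 1 64 (.lg 0 true 1 37 37
  9 0 720) (.l1 .sk)) (.nx 3 240 (.l1 .sk) (.nx 166 660563 (.nx 39 49687 (.nr 31 220437 (.lg 0
  false 28 97 103 16 0 55440) (.nx 38 408 (.lg 0 false 7 79 79 16 0 2520) .out)) (.nr 165 311745
  (.nr 52 829 (.lg 0 true 13 79 83 16 0 4680) (.nr 59 3171 (.lg 2 true 7 83 89 16 95220 5040) (.nx
  150 330282 (.nx 142 262145 (.nx 128 208065 (.nx 73 65536 (.nr 72 220437 (.lg 1 false 13 97 103 16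
  126848 102960) .out) (.nx 87 82570 (.nr 86 262145 (.lg 1 false 13 97 103 16 114348 102960) .out)
  (.nx 100 112360 (.lg 1 false 13 97 103 16 107915 102960) (.lg 1 true 28 97 103 16 79303 55440))))
  (.nr 141 262145 (.lg 1 true 13 97 103 16 36017 102960) .out)) (.nr 149 131073 (.lg 1 true 7 97
  101 16 14307 55440) .out)) (.nr 164 46342 (.nr 157 12122 (.lg 2 true 7 83 89 16 24894 5040) (.lg
  2 false 7 83 89 16 6512 5040)) .out)))) .out)) (.nr 232 217 (.nr 218 39 (.lg 0 true 52 79 83 16 0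
  9360) (.nx 231 2642247 (.lg 0 true 13 79 79 16 0 4680) .out)) .out)))) .out) .out) (.nx 441
  21137969 (.nr 440 1048577 (.nx 265 38543 (.nx 238 240 (.nx 237 239 (.nr 236 76 (.lg 0 true 1 37
  37 7 0 720) (.l1 .sk)) (.l1 .sk)) (.nr 251 220437 (.lg 0 false 13 103 107 19 0 720720) (.nx 264
  814 (.nr 258 623489 (.lg 0 false 7 83 83 13 0 1008) (.nx 263 324 (.lg 0 false 5 71 71 13 0 720)
  .out)) .out))) (.nr 439 311745 (.nx 397 2642247 (.nx 383 832257 (.nr 285 3451 (.nr 278 941 (.lg 0
  true 13 83 83 19 0 1872) (.lg 2 true 7 83 89 13 105691 5040)) (.nx 299 52015 (.nr 298 220437 (.lg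
  1 false 13 101 107 19 163524 720720) .out) (.nx 313 82570 (.nr 312 262145 (.lg 1 false 13 101 107
  19 144072 720720) .out) (.nr 316 6606 (.lg 2 true 3 83 83 13 28820 720) (.nx 329 112360 (.lg 1
  false 13 101 107 19 107915 720720) (.nx 369 262145 (.nx 342 152899 (.lg 1 false 13 101 107 19
  79303 720720) (.nx 355 208065 (.lg 1 false 13 101 103 19 58277 720720) (.nr 368 262145 (.lg 1
  true 13 97 107 19 36017 720720) .out))) (.nr 382 131073 (.lg 2 false 13 97 103 19 15056 720720)
  .out))))))) (.nr 396 257 (.lg 0 true 13 79 83 19 0 1872) .out)) (.nr 438 28 (.nx 410 5284493 (.lg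
  0 true 13 71 71 13 0 1872) (.lg 0 true 28 79 79 13 0 1008)) .out)) .out)) .out) .out)) (.na 443 8
  .ne (.nx 641 21137969 (.nr 640 1482912 (.nx 604 2642247 (.nx 445 239 (.nr 444 98 (.lg 0 true 1 43
  43 11 0 7920) (.l1 .sk)) (.nx 446 240 (.l1 .sk) (.nr 600 1048577 (.nr 592 370729 (.nx 584 1321124
  (.nx 463 32768 (.nr 459 220437 (.lg 0 false 13 101 107 19 0 720720) (.nx 462 2582 (.lg 0 false 3
  89 97 13 0 7920) .out)) (.nr 583 311745 (.nr 479 2451 (.nr 476 1227 (.lg 0 true 13 89 97 19 0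
  102960) (.lg 2 true 3 89 89 13 128667 7920)) (.nr 482 4896 (.lg 2 true 3 89 97 13 64413 7920)
  (.nx 509 65536 (.nr 508 262145 (.nx 495 46340 (.lg 1 false 13 97 107 19 228697 720720) (.lg 1
  false 13 97 107 19 161716 720720)) .out) (.nr 512 9779 (.lg 2 true 3 89 97 13 32246 7920) (.nx
  572 330282 (.nx 525 92681 (.lg 1 false 13 97 109 19 135964 720720) (.nx 538 131072 (.lg 1 false
  13 97 109 19 96142 720720) (.nx 564 262145 (.nx 551 185364 (.lg 1 false 13 97 107 19 67982
  720720) (.lg 1 true 13 97 107 19 48070 720720)) (.nr 571 185365 (.lg 1 true 7 97 103 13 20222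
  55440) .out)))) (.nr 582 110219 (.nr 575 19534 (.lg 2 true 3 89 97 13 16145 7920) (.nr 578 77937
  (.lg 2 false 3 101 103 13 8083 55440) (.nx 579 660561 .out (.lg 2 false 3 89 97 13 4776 7920))))
  .out)))))) .out)) (.nr 591 154 (.lg 0 true 7 79 83 13 0 1008) .out)) (.nx 599 814 (.lg 0 false 7
  89 97 13 0 55440) .out)) (.nx 603 324 (.lg 0 false 3 73 73 13 0 144) .out)))) (.nr 639 55 (.lg 0
  true 35 79 89 13 0 5040) .out)) .out) .out)))

def T35_2 : Ph :=
  (.na 165 122 (.na 113 38 (.na 76 14 (.na 57 3 (.na 1 2 .ne (.nx 56 330282 (.nr 55 623489 (.nx 3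
  19 (.nr 2 9 (.lg 0 false 1 29 29 5 0 1053360) (.l1 .sk)) (.nx 4 20 (.l1 .sk) (.nr 41 65537 (.nx
  11 726 (.lg 0 true 7 79 79 9 0 31920) (.nr 40 9743 (.nr 32 154 (.lg 0 true 21 73 73 11 0 19152)
  (.nx 39 20644 (.lg 2 false 7 79 79 9 2429 31920) .out)) .out)) (.nx 54 52 (.lg 0 false 13 71 71 9
  0 11856) .out)))) .out) .out)) (.na 58 10 .ne (.nx 75 330282 (.nr 74 77937 (.nr 59 10 .s1 (.nr 63
  154 (.nx 60 181 (.l1 (.ls 31 43 3279)) (.lg 0 false 3 73 73 13 0 95760)) (.nx 65 20 (.nx 64 19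
  (.l1 .sk) (.l1 .sk)) (.nx 73 20644 (.nx 68 2851 (.lg 0 true 3 83 83 13 0 13680) (.nr 72 27556
  (.lg 1 false 4 67 67 13 1747 4560) .out)) .out)))) .out) .out))) (.na 93 22 (.na 92 16 (.nx 91
  330282 (.nr 90 77937 (.nr 77 14 .s1 (.nx 79 19 (.nr 78 50 (.l1 (.ls 16 13 28)) (.l1 .sk)) (.nx 80
  20 (.l1 .sk) (.nx 83 2851 (.lg 0 true 3 79 79 13 0 19152) (.nr 89 27556 (.nr 87 154 (.lg 0 true 4
  67 67 13 0 6384) (.nx 88 20644 (.lg 1 false 1 79 79 11 1747 351120) .out)) .out))))) .out) .out)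
  .ne) (.na 106 23 (.nx 105 330282 (.nr 104 131073 (.nr 94 22 .s1 (.nx 97 20 (.nx 96 19 (.nr 95 72
  (.l1 (.ls 16 13 19)) (.l1 .sk)) (.l1 .sk)) (.nx 100 3252 (.lg 0 false 3 79 79 13 0 30096) (.nr
  103 27556 (.nr 101 154 (.lg 0 false 1 73 73 9 0 10032) (.nx 102 20644 (.lg 1 false 1 71 71 9 1531
  10032) .out)) .out)))) .out) .out) (.na 107 34 .ne (.nx 112 41287 (.nr 111 262145 (.nr 108 34 .s1
  (.nx 109 324 (.l1 (.ls 73 43 3090)) (.nr 110 4097 (.lg 0 false 1 79 79 13 0 912) .out))) .out)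
  .out))))) (.na 133 70 (.na 126 50 (.na 120 46 (.nx 119 41287 (.nr 118 262145 (.nr 114 38 .s1 (.nx
  115 324 (.l1 (.ls 67 43 2765)) (.nr 117 4097 (.lg 0 false 2 67 67 13 0 31920) .out))) .out) .out)
  (.nx 125 41287 (.nr 124 262145 (.nr 121 46 .s1 (.nx 122 324 (.l1 (.ls 73 43 2285)) (.nr 123 4097
  (.lg 0 false 1 73 73 13 0 912) .out))) .out) .out)) (.na 132 64 (.nx 131 41287 (.nr 130 262145
  (.nr 127 50 .s1 (.nx 128 324 (.l1 (.ls 67 41 2102)) (.nr 129 4097 (.lg 0 false 1 71 71 13 0 4560)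
  .out))) .out) .out) .ne)) (.na 147 94 (.na 141 86 (.nx 140 20644 (.nr 139 524289 (.nr 134 70 .s1
  (.nx 135 324 (.l1 (.ls 79 43 1502)) (.nr 138 65537 (.nx 136 3252 (.lg 0 true 1 71 71 23 0 31920)
  (.nr 137 257 (.lg 0 true 1 47 47 23 0 31920) .out)) .out))) .out) .out) (.nx 146 20644 (.nr 145
  524289 (.nr 142 86 .s1 (.nx 143 324 (.l1 (.ls 71 37 1223)) (.nr 144 65537 (.lg 0 true 1 79 79 13
  0 4560) .out))) .out) .out)) (.na 153 98 (.nx 152 20644 (.nr 151 524289 (.nr 148 94 .s1 (.nx 149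
  324 (.l1 (.ls 71 37 1119)) (.nr 150 65537 (.lg 0 true 1 79 79 17 0 912) .out))) .out) .out) (.na
  159 110 (.nx 158 20644 (.nr 157 524289 (.nr 154 98 .s1 (.nx 155 324 (.l1 (.ls 71 37 1074)) (.nr
  156 65537 (.lg 0 true 1 79 79 19 0 95760) .out))) .out) .out) (.nx 164 20644 (.nr 163 524289 (.nr
  160 110 .s1 (.nx 161 324 (.l1 (.ls 73 41 957)) (.nr 162 65537 (.lg 0 true 1 79 79 29 0 50160)
  .out))) .out) .out)))))) (.na 216 238 (.na 186 166 (.na 174 146 (.na 173 128 (.nx 172 20644 (.nr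
  171 524289 (.nr 166 122 .s1 (.nx 167 324 (.l1 (.ls 59 31 863)) (.nr 170 65537 (.nr 168 257 (.lg 2
  true 1 0 17 19 1608 351120) (.nx 169 3252 (.lg 0 true 1 67 67 19 0 31920) .out)) .out))) .out)
  .out) .ne) (.na 180 154 (.nx 179 20644 (.nr 178 16385 (.nr 175 146 .s1 (.nx 176 324 (.l1 (.ls 41
  31 722)) (.nr 177 1025 (.lg 2 true 1 23 23 19 1344 912) .out))) .out) .out) (.nx 185 20644 (.nr
  184 16385 (.nr 181 154 .s1 (.nx 182 324 (.l1 (.ls 47 41 684)) (.nr 183 1025 (.lg 2 false 1 37 37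
  31 1274 351120) .out))) .out) .out))) (.na 198 190 (.na 192 170 (.nx 191 20644 (.nr 190 16385
  (.nr 187 166 .s1 (.nx 188 324 (.l1 (.ls 41 31 635)) (.nr 189 1025 (.lg 2 true 1 23 23 19 1182
  4560) .out))) .out) .out) (.nx 197 20644 (.nr 196 16385 (.nr 193 170 .s1 (.nx 194 324 (.l1 (.ls
  47 37 620)) (.nr 195 1025 (.lg 2 true 1 31 31 31 1154 4560) .out))) .out) .out)) (.na 204 202
  (.nx 203 20644 (.nr 202 16385 (.nr 199 190 .s1 (.nx 200 324 (.l1 (.ls 41 37 555)) (.nr 201 1025
  (.lg 2 true 1 23 23 29 1033 351120) .out))) .out) .out) (.na 210 230 (.nx 209 20644 (.nr 208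
  16385 (.nr 205 202 .s1 (.nx 206 324 (.l1 (.ls 37 31 522)) (.nr 207 1025 (.lg 2 true 1 0 17 23 971
  31920) .out))) .out) .out) (.nx 215 20644 (.nr 214 16385 (.nr 211 230 .s1 (.nx 212 324 (.l1 (.ls
  47 37 459)) (.nr 213 1025 (.lg 2 true 1 17 29 31 853 4560) .out))) .out) .out))))) (.na 769 512
  (.na 228 250 (.na 222 242 (.nx 221 20644 (.nr 220 16385 (.nr 217 238 .s1 (.nx 218 324 (.l1 (.ls
  47 37 444)) (.nr 219 1025 (.lg 2 true 1 29 29 31 825 31920) .out))) .out) .out) (.nx 227 20644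
  (.nr 226 16385 (.nr 223 242 .s1 (.nx 224 324 (.l1 (.ls 47 31 436)) (.nr 225 1025 (.lg 2 true 1 0
  17 29 811 351120) .out))) .out) .out)) (.na 234 256 (.nx 233 20644 (.nr 232 16385 (.nr 229 250
  .s1 (.nx 230 324 (.l1 (.ls 37 31 422)) (.nr 231 1025 (.lg 2 true 1 16 16 29 785 50160) .out)))
  .out) .out) (.na 235 257 .ne (.nx 768 20644 (.nr 767 4097 (.nr 236 257 .s1 (.nx 256 20 (.nx 255
  19 (.nr 254 1600 (.lx (.lp 16 0 129)) (.l1 .sk)) (.l1 .sk)) (.nx 511 324 (.la (.ls 47 23 409))
  (.nr 766 2049 (.la (.lg 2 false 1 17 17 23 1154)) .out)))) .out) .out)))) (.na 1954 2048 (.na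
  1849 1024 (.nx 1848 20644 (.nr 1847 8193 (.nr 770 512 .s1 (.nx 821 52 (.lx (.lp 16 0 257)) (.nr
  1846 4097 (.nx 1333 915 (.la (.ls 43 31 1632)) (.nr 1845 2049 (.la (.lg 2 false 1 0 16 23 409))
  .out)) .out))) .out) .out) (.nx 1953 103 (.nr 1952 8193 (.nr 1850 1024 .s1 (.lx (.lp 16 0 513)))
  .out) .out)) (.na 2038 4096 (.nx 2037 82 (.nr 2036 8193 (.nr 1955 2048 .s1 (.lx (.lp 16 0 1025)))
  .out) .out) (.na 2122 8193 (.nx 2121 82 (.nr 2120 16385 (.nr 2039 4096 .s1 (.lx (.lp 16 0 2049)))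
  .out) .out) .out))))))

theorem c35 :
    OkQ ckI L6 116 1 1099511627776 0 34359738368 1 1099511627776 ∧
    OkQ ckI L10 239 5 9 0 34359738368 1 1099511627776 ∧
    OkQ ckI L3 19 1 1099511627776 0 34359738368 1 1099511627776 := by
  refine ⟨?_, ?_, ?_⟩
  · refine fin 2088 7515 T35_0 ?_
    refine jn 8 (by decide +kernel) ?_
    refine jn 12 (by decide +kernel) ?_
    refine jn 15 (by decide +kernel) ?_
    refine jn 20 (by decide +kernel) ?_
    refine jn 23 (by decide +kernel) ?_
    refine jn 29 (by decide +kernel) ?_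
    refine jn 38 (by decide +kernel) ?_
    refine jn 46 (by decide +kernel) ?_
    refine jn 56 (by decide +kernel) ?_
    refine jn 60 (by decide +kernel) ?_
    refine jn 73 (by decide +kernel) ?_
    refine jn 80 (by decide +kernel) ?_
    refine jn 93 (by decide +kernel) ?_
    refine jn 127 (by decide +kernel) ?_
    refine jn 147 (by decide +kernel) ?_
    refine jn 154 (by decide +kernel) ?_
    refine jn 155 (by decide +kernel) ?_
    refine jn 156 (by decide +kernel) ?_
    refine jn 157 (by decide +kernel) ?_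
    refine jn 158 (by decide +kernel) ?_
    refine jn 159 (by decide +kernel) ?_
    refine jn 160 (by decide +kernel) ?_
    refine jn 161 (by decide +kernel) ?_
    refine jn 175 (by decide +kernel) ?_
    refine jn 178 (by decide +kernel) ?_
    refine jn 179 (by decide +kernel) ?_
    refine jn 181 (by decide +kernel) ?_
    refine jn 182 (by decide +kernel) ?_
    refine jn 183 (by decide +kernel) ?_
    refine jn 185 (by decide +kernel) ?_
    refine jn 187 (by decide +kernel) ?_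
    refine jn 188 (by decide +kernel) ?_
    refine jn 191 (by decide +kernel) ?_
    refine jn 198 (by decide +kernel) ?_
    refine jn 205 (by decide +kernel) ?_
    refine jn 212 (by decide +kernel) ?_
    refine jn 213 (by decide +kernel) ?_
    refine jn 219 (by decide +kernel) ?_
    refine jn 255 (by decide +kernel) ?_
    refine jn 266 (by decide +kernel) ?_
    refine jn 276 (by decide +kernel) ?_
    refine jn 277 (by decide +kernel) ?_
    refine jn 278 (by decide +kernel) ?_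
    refine jn 279 (by decide +kernel) ?_
    refine jn 280 (by decide +kernel) ?_
    refine jn 281 (by decide +kernel) ?_
    refine jn 282 (by decide +kernel) ?_
    refine jn 283 (by decide +kernel) ?_
    refine jn 284 (by decide +kernel) ?_
    refine jn 286 (by decide +kernel) ?_
    refine jn 289 (by decide +kernel) ?_
    refine jn 292 (by decide +kernel) ?_
    refine jn 296 (by decide +kernel) ?_
    refine jn 297 (by decide +kernel) ?_
    refine jn 300 (by decide +kernel) ?_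
    refine jn 309 (by decide +kernel) ?_
    refine jn 319 (by decide +kernel) ?_
    refine jn 328 (by decide +kernel) ?_
    refine jn 330 (by decide +kernel) ?_
    refine jn 331 (by decide +kernel) ?_
    refine jn 333 (by decide +kernel) ?_
    refine jn 341 (by decide +kernel) ?_
    refine jn 345 (by decide +kernel) ?_
    refine jn 348 (by decide +kernel) ?_
    refine jn 355 (by decide +kernel) ?_
    refine jn 364 (by decide +kernel) ?_
    refine jn 371 (by decide +kernel) ?_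
    refine jn 372 (by decide +kernel) ?_
    refine jn 373 (by decide +kernel) ?_
    refine jn 374 (by decide +kernel) ?_
    refine jn 375 (by decide +kernel) ?_
    refine jn 376 (by decide +kernel) ?_
    refine jn 377 (by decide +kernel) ?_
    refine jn 378 (by decide +kernel) ?_
    refine jn 379 (by decide +kernel) ?_
    refine jn 380 (by decide +kernel) ?_
    refine jn 381 (by decide +kernel) ?_
    refine jn 382 (by decide +kernel) ?_
    refine jn 383 (by decide +kernel) ?_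
    refine jn 384 (by decide +kernel) ?_
    refine jn 385 (by decide +kernel) ?_
    refine jn 391 (by decide +kernel) ?_
    refine jn 398 (by decide +kernel) ?_
    refine jn 401 (by decide +kernel) ?_
    refine jn 412 (by decide +kernel) ?_
    refine jn 417 (by decide +kernel) ?_
    refine jn 422 (by decide +kernel) ?_
    refine jn 426 (by decide +kernel) ?_
    refine jn 432 (by decide +kernel) ?_
    refine jn 440 (by decide +kernel) ?_
    refine jn 441 (by decide +kernel) ?_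
    refine jn 443 (by decide +kernel) ?_
    refine jn 444 (by decide +kernel) ?_
    refine jn 445 (by decide +kernel) ?_
    refine jn 446 (by decide +kernel) ?_
    refine jn 447 (by decide +kernel) ?_
    refine jn 449 (by decide +kernel) ?_
    refine jn 450 (by decide +kernel) ?_
    refine jn 454 (by decide +kernel) ?_
    refine jn 455 (by decide +kernel) ?_
    refine jn 466 (by decide +kernel) ?_
    refine jn 468 (by decide +kernel) ?_
    refine jn 473 (by decide +kernel) ?_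
    refine jn 476 (by decide +kernel) ?_
    refine jn 483 (by decide +kernel) ?_
    refine jn 495 (by decide +kernel) ?_
    refine jn 496 (by decide +kernel) ?_
    refine jn 503 (by decide +kernel) ?_
    refine jn 510 (by decide +kernel) ?_
    refine jn 521 (by decide +kernel) ?_
    refine jn 522 (by decide +kernel) ?_
    refine jn 523 (by decide +kernel) ?_
    refine jn 524 (by decide +kernel) ?_
    refine jn 525 (by decide +kernel) ?_
    refine jn 526 (by decide +kernel) ?_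
    refine jn 527 (by decide +kernel) ?_
    refine jn 528 (by decide +kernel) ?_
    refine jn 529 (by decide +kernel) ?_
    refine jn 533 (by decide +kernel) ?_
    refine jn 537 (by decide +kernel) ?_
    refine jn 546 (by decide +kernel) ?_
    refine jn 547 (by decide +kernel) ?_
    refine jn 548 (by decide +kernel) ?_
    refine jn 551 (by decide +kernel) ?_
    refine jn 552 (by decide +kernel) ?_
    refine jn 553 (by decide +kernel) ?_
    refine jn 554 (by decide +kernel) ?_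
    refine jn 555 (by decide +kernel) ?_
    refine jn 570 (by decide +kernel) ?_
    refine jn 574 (by decide +kernel) ?_
    refine jn 582 (by decide +kernel) ?_
    refine jn 583 (by decide +kernel) ?_
    refine jn 584 (by decide +kernel) ?_
    refine jn 588 (by decide +kernel) ?_
    refine jn 592 (by decide +kernel) ?_
    refine jn 606 (by decide +kernel) ?_
    refine jn 615 (by decide +kernel) ?_
    refine jn 617 (by decide +kernel) ?_
    refine jn 618 (by decide +kernel) ?_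
    refine jn 620 (by decide +kernel) ?_
    refine jn 633 (by decide +kernel) ?_
    refine jn 649 (by decide +kernel) ?_
    refine jn 657 (by decide +kernel) ?_
    refine jn 658 (by decide +kernel) ?_
    refine jn 660 (by decide +kernel) ?_
    refine jn 661 (by decide +kernel) ?_
    refine jn 663 (by decide +kernel) ?_
    refine jn 676 (by decide +kernel) ?_
    refine jn 686 (by decide +kernel) ?_
    refine jn 688 (by decide +kernel) ?_
    refine jn 690 (by decide +kernel) ?_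
    refine jn 701 (by decide +kernel) ?_
    refine jn 703 (by decide +kernel) ?_
    refine jn 712 (by decide +kernel) ?_
    refine jn 714 (by decide +kernel) ?_
    refine jn 716 (by decide +kernel) ?_
    refine jn 728 (by decide +kernel) ?_
    refine jn 740 (by decide +kernel) ?_
    refine jn 742 (by decide +kernel) ?_
    refine jn 745 (by decide +kernel) ?_
    refine jn 757 (by decide +kernel) ?_
    refine jn 767 (by decide +kernel) ?_
    refine jn 770 (by decide +kernel) ?_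
    refine jn 781 (by decide +kernel) ?_
    refine jn 791 (by decide +kernel) ?_
    refine jn 794 (by decide +kernel) ?_
    refine jn 805 (by decide +kernel) ?_
    refine jn 815 (by decide +kernel) ?_
    refine jn 818 (by decide +kernel) ?_
    refine jn 829 (by decide +kernel) ?_
    refine jn 839 (by decide +kernel) ?_
    refine jn 848 (by decide +kernel) ?_
    refine jn 855 (by decide +kernel) ?_
    refine jn 856 (by decide +kernel) ?_
    refine jn 860 (by decide +kernel) ?_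
    refine jn 868 (by decide +kernel) ?_
    refine jn 874 (by decide +kernel) ?_
    refine jn 877 (by decide +kernel) ?_
    refine jn 893 (by decide +kernel) ?_
    refine jn 901 (by decide +kernel) ?_
    refine jn 915 (by decide +kernel) ?_
    refine jn 916 (by decide +kernel) ?_
    refine jn 924 (by decide +kernel) ?_
    refine jn 933 (by decide +kernel) ?_
    refine jn 941 (by decide +kernel) ?_
    refine jn 949 (by decide +kernel) ?_
    refine jn 957 (by decide +kernel) ?_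
    refine jn 971 (by decide +kernel) ?_
    refine jn 972 (by decide +kernel) ?_
    refine jn 979 (by decide +kernel) ?_
    refine jn 980 (by decide +kernel) ?_
    refine jn 988 (by decide +kernel) ?_
    refine jn 997 (by decide +kernel) ?_
    refine jn 1013 (by decide +kernel) ?_
    refine jn 1048 (by decide +kernel) ?_
    refine jn 1080 (by decide +kernel) ?_
    refine jn 1110 (by decide +kernel) ?_
    refine jn 1152 (by decide +kernel) ?_
    refine jn 1212 (by decide +kernel) ?_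
    refine jn 1262 (by decide +kernel) ?_
    refine jn 1277 (by decide +kernel) ?_
    refine jn 1278 (by decide +kernel) ?_
    refine jn 1299 (by decide +kernel) ?_
    refine jn 1303 (by decide +kernel) ?_
    refine jn 1315 (by decide +kernel) ?_
    refine jn 1317 (by decide +kernel) ?_
    refine jn 1318 (by decide +kernel) ?_
    refine jn 1335 (by decide +kernel) ?_
    refine jn 1343 (by decide +kernel) ?_
    refine jn 1347 (by decide +kernel) ?_
    refine jn 1348 (by decide +kernel) ?_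
    refine jn 1363 (by decide +kernel) ?_
    refine jn 1379 (by decide +kernel) ?_
    refine jn 1389 (by decide +kernel) ?_
    refine jn 1397 (by decide +kernel) ?_
    refine jn 1399 (by decide +kernel) ?_
    refine jn 1407 (by decide +kernel) ?_
    refine jn 1411 (by decide +kernel) ?_
    refine jn 1413 (by decide +kernel) ?_
    refine jn 1435 (by decide +kernel) ?_
    refine jn 1447 (by decide +kernel) ?_
    refine jn 1467 (by decide +kernel) ?_
    refine jn 1485 (by decide +kernel) ?_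
    refine jn 1487 (by decide +kernel) ?_
    refine jn 1499 (by decide +kernel) ?_
    refine jn 1511 (by decide +kernel) ?_
    refine jn 1519 (by decide +kernel) ?_
    refine jn 1543 (by decide +kernel) ?_
    refine jn 1585 (by decide +kernel) ?_
    refine jn 1641 (by decide +kernel) ?_
    refine jn 1681 (by decide +kernel) ?_
    refine jn 1723 (by decide +kernel) ?_
    refine jn 1750 (by decide +kernel) ?_
    refine jn 1756 (by decide +kernel) ?_
    refine jn 1764 (by decide +kernel) ?_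
    refine jn 1774 (by decide +kernel) ?_
    refine jn 1784 (by decide +kernel) ?_
    refine jn 1792 (by decide +kernel) ?_
    refine jn 1798 (by decide +kernel) ?_
    refine jn 1804 (by decide +kernel) ?_
    refine jn 1806 (by decide +kernel) ?_
    refine jn 1814 (by decide +kernel) ?_
    refine jn 1830 (by decide +kernel) ?_
    refine jn 1854 (by decide +kernel) ?_
    refine jn 1860 (by decide +kernel) ?_
    refine jn 1872 (by decide +kernel) ?_
    refine jn 1888 (by decide +kernel) ?_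
    refine jn 1894 (by decide +kernel) ?_
    refine jn 1895 (by decide +kernel) ?_
    refine jn 1918 (by decide +kernel) ?_
    refine jn 1926 (by decide +kernel) ?_
    refine jn 1940 (by decide +kernel) ?_
    refine jn 1958 (by decide +kernel) ?_
    refine jn 1992 (by decide +kernel) ?_
    refine jn 2018 (by decide +kernel) ?_
    refine jn 2026 (by decide +kernel) ?_
    refine jn 2074 (by decide +kernel) ?_
    refine jn 2098 (by decide +kernel) ?_
    refine jn 2138 (by decide +kernel) ?_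
    refine jn 2178 (by decide +kernel) ?_
    refine jn 2196 (by decide +kernel) ?_
    refine jn 2228 (by decide +kernel) ?_
    refine jn 2269 (by decide +kernel) ?_
    refine jn 2301 (by decide +kernel) ?_
    refine jn 2349 (by decide +kernel) ?_
    refine jn 2381 (by decide +kernel) ?_
    refine jn 2411 (by decide +kernel) ?_
    refine jn 2451 (by decide +kernel) ?_
    refine jn 2495 (by decide +kernel) ?_
    refine jn 2541 (by decide +kernel) ?_
    refine jn 2591 (by decide +kernel) ?_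
    refine jn 2645 (by decide +kernel) ?_
    refine jn 2677 (by decide +kernel) ?_
    refine jn 2730 (by decide +kernel) ?_
    refine jn 2792 (by decide +kernel) ?_
    refine jn 2856 (by decide +kernel) ?_
    refine jn 2922 (by decide +kernel) ?_
    refine jn 2984 (by decide +kernel) ?_
    refine jn 3088 (by decide +kernel) ?_
    refine jn 3152 (by decide +kernel) ?_
    refine jn 3214 (by decide +kernel) ?_
    refine jn 3292 (by decide +kernel) ?_
    refine jn 3466 (by decide +kernel) ?_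
    refine jn 3566 (by decide +kernel) ?_
    refine jn 3670 (by decide +kernel) ?_
    refine jn 3736 (by decide +kernel) ?_
    refine jn 3816 (by decide +kernel) ?_
    refine jn 3922 (by decide +kernel) ?_
    refine jn 4008 (by decide +kernel) ?_
    refine jn 4134 (by decide +kernel) ?_
    refine jn 4210 (by decide +kernel) ?_
    refine jn 4393 (by decide +kernel) ?_
    refine jn 4627 (by decide +kernel) ?_
    refine jn 4747 (by decide +kernel) ?_
    refine jn 4849 (by decide +kernel) ?_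
    refine jn 4914 (by decide +kernel) ?_
    refine jn 5144 (by decide +kernel) ?_
    refine jn 5279 (by decide +kernel) ?_
    refine jn 5359 (by decide +kernel) ?_
    refine jn 5447 (by decide +kernel) ?_
    refine jn 5499 (by decide +kernel) ?_
    refine jn 5551 (by decide +kernel) ?_
    refine jn 5789 (by decide +kernel) ?_
    refine jn 5923 (by decide +kernel) ?_
    refine jn 6069 (by decide +kernel) ?_
    refine jn 6149 (by decide +kernel) ?_
    refine jn 6213 (by decide +kernel) ?_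
    refine jn 6578 (by decide +kernel) ?_
    refine jn 6718 (by decide +kernel) ?_
    refine jn 6812 (by decide +kernel) ?_
    refine jn 7186 (by decide +kernel) ?_
    exact je (by decide +kernel)
  · refine fin 72 642 T35_1 ?_
    refine jn 3 (by decide +kernel) ?_
    refine jn 5 (by decide +kernel) ?_
    refine jn 8 (by decide +kernel) ?_
    refine jn 10 (by decide +kernel) ?_
    refine jn 12 (by decide +kernel) ?_
    refine jn 16 (by decide +kernel) ?_
    refine jn 18 (by decide +kernel) ?_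
    refine jn 22 (by decide +kernel) ?_
    refine jn 24 (by decide +kernel) ?_
    refine jn 26 (by decide +kernel) ?_
    refine jn 30 (by decide +kernel) ?_
    refine jn 38 (by decide +kernel) ?_
    refine jn 42 (by decide +kernel) ?_
    refine jn 46 (by decide +kernel) ?_
    refine jn 49 (by decide +kernel) ?_
    refine jn 52 (by decide +kernel) ?_
    refine jn 59 (by decide +kernel) ?_
    refine jn 72 (by decide +kernel) ?_
    refine jn 86 (by decide +kernel) ?_
    refine jn 96 (by decide +kernel) ?_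
    refine jn 100 (by decide +kernel) ?_
    refine jn 109 (by decide +kernel) ?_
    refine jn 118 (by decide +kernel) ?_
    refine jn 127 (by decide +kernel) ?_
    refine jn 128 (by decide +kernel) ?_
    refine jn 141 (by decide +kernel) ?_
    refine jn 150 (by decide +kernel) ?_
    refine jn 157 (by decide +kernel) ?_
    refine jn 166 (by decide +kernel) ?_
    refine jn 173 (by decide +kernel) ?_
    refine jn 218 (by decide +kernel) ?_
    refine jn 231 (by decide +kernel) ?_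
    refine jn 240 (by decide +kernel) ?_
    refine jn 243 (by decide +kernel) ?_
    refine jn 245 (by decide +kernel) ?_
    refine jn 247 (by decide +kernel) ?_
    refine jn 249 (by decide +kernel) ?_
    refine jn 251 (by decide +kernel) ?_
    refine jn 263 (by decide +kernel) ?_
    refine jn 268 (by decide +kernel) ?_
    refine jn 272 (by decide +kernel) ?_
    refine jn 276 (by decide +kernel) ?_
    refine jn 278 (by decide +kernel) ?_
    refine jn 285 (by decide +kernel) ?_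
    refine jn 298 (by decide +kernel) ?_
    refine jn 308 (by decide +kernel) ?_
    refine jn 316 (by decide +kernel) ?_
    refine jn 329 (by decide +kernel) ?_
    refine jn 341 (by decide +kernel) ?_
    refine jn 349 (by decide +kernel) ?_
    refine jn 355 (by decide +kernel) ?_
    refine jn 368 (by decide +kernel) ?_
    refine jn 381 (by decide +kernel) ?_
    refine jn 391 (by decide +kernel) ?_
    refine jn 396 (by decide +kernel) ?_
    refine jn 438 (by decide +kernel) ?_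
    refine jn 446 (by decide +kernel) ?_
    refine jn 447 (by decide +kernel) ?_
    refine jn 448 (by decide +kernel) ?_
    refine jn 449 (by decide +kernel) ?_
    refine jn 450 (by decide +kernel) ?_
    refine jn 451 (by decide +kernel) ?_
    refine jn 452 (by decide +kernel) ?_
    refine jn 453 (by decide +kernel) ?_
    refine jn 454 (by decide +kernel) ?_
    refine jn 455 (by decide +kernel) ?_
    refine jn 456 (by decide +kernel) ?_
    refine jn 457 (by decide +kernel) ?_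
    refine jn 458 (by decide +kernel) ?_
    refine jn 459 (by decide +kernel) ?_
    refine jn 462 (by decide +kernel) ?_
    refine jn 464 (by decide +kernel) ?_
    refine jn 465 (by decide +kernel) ?_
    refine jn 466 (by decide +kernel) ?_
    refine jn 467 (by decide +kernel) ?_
    refine jn 468 (by decide +kernel) ?_
    refine jn 469 (by decide +kernel) ?_
    refine jn 470 (by decide +kernel) ?_
    refine jn 471 (by decide +kernel) ?_
    refine jn 472 (by decide +kernel) ?_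
    refine jn 473 (by decide +kernel) ?_
    refine jn 474 (by decide +kernel) ?_
    refine jn 475 (by decide +kernel) ?_
    refine jn 476 (by decide +kernel) ?_
    refine jn 479 (by decide +kernel) ?_
    refine jn 482 (by decide +kernel) ?_
    refine jn 486 (by decide +kernel) ?_
    refine jn 491 (by decide +kernel) ?_
    refine jn 495 (by decide +kernel) ?_
    refine jn 499 (by decide +kernel) ?_
    refine jn 504 (by decide +kernel) ?_
    refine jn 508 (by decide +kernel) ?_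
    refine jn 512 (by decide +kernel) ?_
    refine jn 516 (by decide +kernel) ?_
    refine jn 521 (by decide +kernel) ?_
    refine jn 525 (by decide +kernel) ?_
    refine jn 529 (by decide +kernel) ?_
    refine jn 534 (by decide +kernel) ?_
    refine jn 538 (by decide +kernel) ?_
    refine jn 541 (by decide +kernel) ?_
    refine jn 545 (by decide +kernel) ?_
    refine jn 549 (by decide +kernel) ?_
    refine jn 551 (by decide +kernel) ?_
    refine jn 555 (by decide +kernel) ?_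
    refine jn 559 (by decide +kernel) ?_
    refine jn 563 (by decide +kernel) ?_
    refine jn 564 (by decide +kernel) ?_
    refine jn 570 (by decide +kernel) ?_
    refine jn 572 (by decide +kernel) ?_
    refine jn 575 (by decide +kernel) ?_
    refine jn 578 (by decide +kernel) ?_
    refine jn 586 (by decide +kernel) ?_
    refine jn 590 (by decide +kernel) ?_
    refine jn 592 (by decide +kernel) ?_
    refine jn 599 (by decide +kernel) ?_
    refine jn 604 (by decide +kernel) ?_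
    refine jn 607 (by decide +kernel) ?_
    refine jn 610 (by decide +kernel) ?_
    refine jn 639 (by decide +kernel) ?_
    exact je (by decide +kernel)
  · refine fin 456 2123 T35_2 ?_
    refine jn 5 (by decide +kernel) ?_
    refine jn 6 (by decide +kernel) ?_
    refine jn 8 (by decide +kernel) ?_
    refine jn 9 (by decide +kernel) ?_
    refine jn 10 (by decide +kernel) ?_
    refine jn 11 (by decide +kernel) ?_
    refine jn 14 (by decide +kernel) ?_
    refine jn 17 (by decide +kernel) ?_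
    refine jn 20 (by decide +kernel) ?_
    refine jn 23 (by decide +kernel) ?_
    refine jn 26 (by decide +kernel) ?_
    refine jn 30 (by decide +kernel) ?_
    refine jn 32 (by decide +kernel) ?_
    refine jn 39 (by decide +kernel) ?_
    refine jn 59 (by decide +kernel) ?_
    refine jn 60 (by decide +kernel) ?_
    refine jn 61 (by decide +kernel) ?_
    refine jn 62 (by decide +kernel) ?_
    refine jn 63 (by decide +kernel) ?_
    refine jn 65 (by decide +kernel) ?_
    refine jn 66 (by decide +kernel) ?_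
    refine jn 67 (by decide +kernel) ?_
    refine jn 68 (by decide +kernel) ?_
    refine jn 69 (by decide +kernel) ?_
    refine jn 70 (by decide +kernel) ?_
    refine jn 71 (by decide +kernel) ?_
    refine jn 72 (by decide +kernel) ?_
    refine jn 80 (by decide +kernel) ?_
    refine jn 81 (by decide +kernel) ?_
    refine jn 82 (by decide +kernel) ?_
    refine jn 83 (by decide +kernel) ?_
    refine jn 85 (by decide +kernel) ?_
    refine jn 87 (by decide +kernel) ?_
    refine jn 97 (by decide +kernel) ?_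
    refine jn 99 (by decide +kernel) ?_
    refine jn 100 (by decide +kernel) ?_
    refine jn 101 (by decide +kernel) ?_
    refine jn 109 (by decide +kernel) ?_
    refine jn 114 (by decide +kernel) ?_
    refine jn 122 (by decide +kernel) ?_
    refine jn 128 (by decide +kernel) ?_
    refine jn 134 (by decide +kernel) ?_
    refine jn 136 (by decide +kernel) ?_
    refine jn 144 (by decide +kernel) ?_
    refine jn 156 (by decide +kernel) ?_
    refine jn 165 (by decide +kernel) ?_
    refine jn 182 (by decide +kernel) ?_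
    refine jn 198 (by decide +kernel) ?_
    refine jn 219 (by decide +kernel) ?_
    refine jn 373 (by decide +kernel) ?_
    refine jn 532 (by decide +kernel) ?_
    refine jn 636 (by decide +kernel) ?_
    refine jn 744 (by decide +kernel) ?_
    refine jn 935 (by decide +kernel) ?_
    refine jn 1163 (by decide +kernel) ?_
    refine jn 1375 (by decide +kernel) ?_
    refine jn 1555 (by decide +kernel) ?_
    refine jn 1747 (by decide +kernel) ?_
    exact je (by decide +kernel)

end Pool.Agent.MP_2339ce_nt.NR
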