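import Pool.Agent.MP_2339ce_nt.Q2.NC.L5
import Pool.Agent.MP_2339ce_nt.Q2.NC.L6
import Pool.Agent.MP_2339ce_nt.Q2.NC.L10
import Pool.Agent.MP_2339ce_nt.Q2.CkI

/-! Block NR: runs. -/

set_option autoImplicit false
set_option maxRecDepth 100000

noncomputable section

namespace Pool.Agent.MP_2339ce_nt.NR

open Q2.Top

def T37_0 : Ph :=
  (.na 666 9 (.na 430 5 (.na 178 3 (.na 177 2 (.nx 176 1321124 (.nr 175 311745 (.nx 152 660563 (.nx
  3 105 (.nx 2 104 (.nr 1 11 (.lg 0 true 1 41 41 5 0 936) (.l1 .sk)) (.l1 .sk)) (.nr 140 46342 (.nx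
  36 12041 (.lg 0 false 33 101 103 13 0 720720) (.nr 139 38969 (.nr 103 1724 (.nx 80 330282 (.nr 69
  432 (.lg 0 true 33 83 89 13 0 10296) (.lg 2 true 11 101 101 9 39757 720720)) (.nr 102 109 (.lg 0
  true 22 83 83 11 0 20592) .out)) (.nx 138 165142 (.nx 114 16385 (.lg 1 false 11 101 103 9 17550
  720720) (.nr 137 27556 (.nr 125 13779 (.lg 2 false 11 101 103 9 4982 720720) (.nx 136 82572 (.lg
  2 false 11 103 103 9 9130 720720) .out)) .out)) .out)) .out)) (.nx 151 205 (.lg 0 false 11 83 83
  9 0 10296) .out))) (.nr 174 13 (.lg 0 true 22 73 73 9 0 20592) .out)) .out) .out) .ne) (.na 302 4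
  (.nx 301 6658044 (.nr 300 881745 (.nx 181 105 (.nx 180 104 (.nr 179 28 (.lg 0 true 1 37 37 5 0
  9360) (.l1 .sk)) (.l1 .sk)) (.nx 213 13003 (.nr 192 55110 (.lg 0 false 11 101 101 16 0 102960)
  (.nx 212 1292 (.nx 203 205 (.lg 0 false 11 83 83 16 0 10296) (.nx 204 406 .out (.nr 211 110219
  (.lg 0 false 7 89 97 13 0 65520) .out))) .out)) (.nr 299 65537 (.nx 273 1321124 (.nx 261 416129
  (.nr 224 364 (.lg 0 true 11 83 83 16 0 10296) (.nx 260 208065 (.nx 245 52017 (.nx 231 19111 (.lg
  1 false 7 101 103 13 27302 720720) (.nx 238 28090 (.lg 1 false 7 101 103 13 18576 720720) (.lg 1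
  true 7 101 107 13 12638 720720))) (.nr 259 38969 (.nr 252 3220 (.lg 2 true 7 89 97 13 29724
  65520) (.lg 2 false 7 97 101 13 4063 65520)) .out)) .out)) (.nr 272 109 (.lg 0 true 11 83 83 16 0
  10296) .out)) (.nr 298 13 (.lg 0 true 25 79 79 7 0 4680) .out)) .out))) .out) .out) (.nx 429
  10568985 (.nr 428 1246976 (.nx 304 104 (.nr 303 35 (.lg 0 true 1 31 31 9 0 1872) (.l1 .sk)) (.nx
  305 105 (.l1 .sk) (.nx 336 10321 (.nr 316 55110 (.lg 0 false 11 97 97 13 0 102960) (.nx 335 1292
  (.nr 323 155873 (.lg 0 false 7 89 97 11 0 65520) (.nx 334 205 (.lg 0 false 11 83 83 13 0 20592)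
  .out)) .out)) (.nr 427 65537 (.nx 372 330282 (.nr 347 694 (.lg 0 true 11 83 83 13 0 20592) (.nr
  350 2635 (.lg 2 true 3 89 89 9 24748 9360) (.nx 364 41287 (.nx 357 20642 (.lg 1 false 7 97 101 11
  34397 65520) (.lg 1 true 7 97 101 11 17198 65520)) (.nr 371 55110 (.lg 2 false 7 97 101 11 7233
  65520) .out)))) (.nr 426 183 (.nr 414 35 (.lg 0 true 42 83 83 13 0 13104) (.nx 425 1321124 (.lg 0
  true 11 83 83 13 0 20592) .out)) .out)) .out)))) .out) .out))) (.na 529 7 (.na 528 6 (.nx 527
  10568985 (.nr 526 1482912 (.nx 433 105 (.nx 432 104 (.nr 431 43 (.lg 0 true 1 31 31 9 0 4680)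
  (.l1 .sk)) (.l1 .sk)) (.nr 514 65537 (.nx 485 1321124 (.nx 444 15464 (.lg 0 false 11 97 101 16 0
  720720) (.nx 473 262145 (.nr 455 824 (.lg 0 true 11 83 83 16 0 51480) (.nx 466 52017 (.lg 1 true
  11 97 103 16 22957 720720) (.nr 472 38969 (.nr 469 3130 (.lg 2 true 3 83 83 11 16544 4680) (.lg 2
  false 3 101 101 11 4356 65520)) .out))) (.nr 484 217 (.lg 0 true 11 83 83 16 0 51480) .out)))
  (.nr 513 24 (.lg 0 true 28 83 83 16 0 65520) .out)) (.nx 525 205 (.lg 0 false 11 79 83 16 0
  51480) .out))) .out) .out) .ne) (.na 597 8 (.nx 596 10568985 (.nr 595 262145 (.nx 531 104 (.nr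
  530 57 (.lg 0 true 1 31 31 9 0 65520) (.l1 .sk)) (.nx 532 105 (.l1 .sk) (.nr 589 65537 (.nx 543
  15169 (.lg 0 false 11 97 101 16 0 720720) (.nr 577 596 (.nx 554 1321124 (.lg 0 true 11 89 89 16 0
  72072) (.nr 576 47 (.lg 0 true 22 83 83 16 0 144144) .out)) (.nx 588 262145 (.lg 2 false 11 97
  103 16 23403 720720) .out))) (.nx 594 408 (.lg 0 false 5 79 79 16 0 32760) .out)))) .out) .out)
  (.nx 665 10568985 (.nr 664 623489 (.nx 599 104 (.nr 598 65 (.lg 0 true 1 31 31 9 0 65520) (.l1
  .sk)) (.nx 600 105 (.l1 .sk) (.nr 658 77937 (.nx 611 13620 (.lg 0 false 11 97 101 13 0 720720)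
  (.nr 657 65537 (.nx 634 1321124 (.nr 622 364 (.lg 0 true 11 83 83 13 0 20592) (.nx 633 208065
  (.nx 627 41287 (.lg 1 true 5 101 103 13 26065 720720) (.nr 632 46342 (.nr 629 2504 (.lg 2 false 2
  89 89 11 29724 65520) (.lg 2 false 3 97 97 11 6084 65520)) .out)) .out)) (.nr 656 55 (.lg 0 true
  22 83 83 13 0 20592) .out)) .out)) (.nx 663 814 (.lg 0 false 5 89 89 13 0 9360) .out)))) .out)
  .out)))) (.na 815 15 (.na 734 12 (.na 733 10 (.nx 732 10568985 (.nr 731 623489 (.nx 669 105 (.nx
  668 104 (.nr 667 72 (.lg 0 true 1 31 31 7 0 65520) (.l1 .sk)) (.l1 .sk)) (.nx 684 13005 (.nr 676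
  77937 (.lg 0 false 7 89 97 16 0 65520) (.nx 683 814 (.lg 0 false 7 83 83 16 0 6552) .out)) (.nr
  730 65537 (.nx 707 1321124 (.nr 695 364 (.lg 0 true 11 79 79 16 0 10296) (.nx 706 165142 (.lg 2
  false 11 97 103 16 27298 720720) .out)) (.nr 729 65 (.lg 0 true 22 79 79 16 0 20592) .out))
  .out))) .out) .out) .ne) (.na 772 13 (.nx 771 1321124 (.nr 770 623489 (.nr 735 7 .s1 (.nx 738 105
  (.nx 737 104 (.nr 736 94 (.lg 0 true 1 37 37 13 0 65520) (.l1 .sk)) (.l1 .sk)) (.nr 767 220437
  (.nr 764 92683 (.nx 758 330282 (.nx 745 14046 (.lg 0 false 7 89 97 23 0 65520) (.nr 757 65537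
  (.nr 750 374 (.lg 0 true 5 73 73 19 0 9360) (.nx 756 165142 (.nr 751 1569 (.lg 2 false 1 79 79 13
  22961 1872) (.nx 753 26009 (.lg 1 false 2 97 101 13 25275 65520) (.nr 755 46342 (.lg 2 false 2 97
  101 13 9658 65520) .out))) .out)) .out)) (.nr 763 65 (.lg 0 true 5 71 73 19 0 9360) .out)) (.nx
  766 814 (.lg 0 false 2 83 83 13 0 1872) .out)) (.nx 769 324 (.lg 0 false 2 79 79 13 0 1872)
  .out)))) .out) .out) (.nx 814 1321124 (.nr 813 623489 (.nr 773 9 .s1 (.nx 777 324 (.nx 775 104
  (.nr 774 108 (.l1 (.ls 19 29 834)) (.l1 .sk)) (.nx 776 105 (.l1 .sk) (.l1 (.ls 79 41 7230))))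
  (.nr 812 220437 (.nx 788 9557 (.lg 0 false 11 89 89 16 0 720720) (.nr 811 65537 (.nr 799 374 (.lg
  0 true 11 73 73 16 0 10296) (.nx 810 165142 (.lg 2 false 11 89 97 16 37147 720720) .out)) .out))
  .out))) .out) .out))) (.na 853 17 (.na 852 16 (.nx 851 1321124 (.nr 850 623489 (.nr 816 12 .s1
  (.nx 819 105 (.nx 818 104 (.nr 817 116 (.lg 0 false 1 31 31 16 0 65520) (.l1 .sk)) (.l1 .sk))
  (.nr 847 220437 (.nr 844 92683 (.nx 840 330282 (.nx 821 6503 (.lg 0 true 2 97 97 16 0 65520) (.nr
  839 65537 (.nr 824 374 (.lg 0 true 3 73 73 16 0 4680) (.nx 838 165142 (.nr 828 27556 (.lg 2 true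
  4 83 83 17 23005 65520) (.nx 837 104033 (.nr 834 46342 (.nx 831 65537 (.lg 0 true 3 97 103 16 0
  65520) (.nr 833 32769 (.lg 0 true 2 89 97 16 0 65520) .out)) (.nx 836 26009 (.lg 0 true 2 97 101
  16 0 65520) .out)) .out)) .out)) .out)) (.nr 843 65 (.lg 0 true 3 71 71 16 0 4680) .out)) (.nx
  846 814 (.lg 0 false 2 83 83 16 0 9360) .out)) (.nx 849 324 (.lg 0 false 2 79 79 16 0 9360)
  .out)))) .out) .out) .ne) (.na 884 20 (.nx 883 1321124 (.nr 882 1048577 (.nr 854 14 .s1 (.nx 858
  205 (.nx 856 104 (.nr 855 145 (.lg 0 false 1 29 29 11 0 9360) (.l1 .sk)) (.nx 857 105 (.l1 .sk)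
  (.l1 (.ls 89 31 1826)))) (.nr 881 623489 (.nx 869 16385 (.nx 859 324 (.l1 (.ls 83 37 3706)) (.nr
  868 220437 (.nr 866 131073 (.lg 0 false 7 97 97 16 0 65520) (.nx 867 814 (.lg 0 true 1 79 79 11 0
  9360) .out)) .out)) (.nr 880 46342 (.nr 876 498 (.lg 0 true 7 79 79 16 0 6552) (.nx 879 165142
  (.lg 2 false 3 97 97 16 17244 9360) .out)) .out)) .out))) .out) .out) (.nx 908 1321124 (.nr 907
  1048577 (.nr 885 18 .s1 (.nx 889 205 (.nx 887 104 (.nr 886 152 (.lg 0 false 1 31 31 13 0 65520)
  (.l1 .sk)) (.nx 888 105 (.l1 .sk) (.l1 (.ls 89 41 1553)))) (.nr 906 623489 (.nx 896 10323 (.nx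
  890 324 (.l1 (.ls 89 43 3150)) (.nr 895 220437 (.nr 893 131073 (.lg 0 false 3 97 97 19 0 65520)
  (.nx 894 814 (.lg 0 false 1 79 79 13 0 9360) .out)) .out)) (.nr 905 55110 (.nx 901 165142 (.nr
  897 1360 (.lg 0 false 1 89 89 13 0 65520) (.nx 899 26009 (.lg 1 false 2 89 97 17 28927 65520)
  (.nr 900 32769 (.lg 2 true 1 89 89 13 6836 65520) .out))) (.nr 904 183 (.lg 0 true 3 79 79 19 0
  9360) .out)) .out)) .out))) .out) .out)))))

def T37_1 : Ph :=
  (.na 597 2 (.nx 596 3329023 (.nr 595 881745 (.nx 2 240 (.nr 1 16 (.lg 0 true 1 43 43 5 0 240)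
  (.l1 .sk)) (.nx 3 241 (.l1 .sk) (.nr 573 311745 (.nx 533 1664512 (.nr 477 185365 (.nx 94 41287
  (.lg 0 false 91 103 109 16 0 720720) (.nr 476 155873 (.nr 225 2898 (.nr 185 942 (.lg 0 true 91 89
  101 16 0 65520) (.nr 211 1724 (.lg 2 true 26 89 97 11 212040 9360) (.nx 224 1321124 (.lg 2 true
  13 97 97 9 91958 9360) .out))) (.nx 475 1048577 (.nr 251 8193 (.nr 238 4872 (.lg 2 true 13 97 97
  9 43420 9360) (.lg 2 true 13 97 101 9 25828 102960)) (.nx 474 832257 (.nx 342 65537 (.lg 1 false
  91 97 109 16 108899 720720) (.nr 473 110219 (.nr 381 46342 (.nr 355 26009 (.lg 2 false 13 101 103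
  9 12190 102960) (.lg 2 true 26 97 103 11 20471 102960)) (.nx 472 524289 (.lg 2 false 91 101 109
  16 48542 720720) .out)) .out)) .out)) .out)) .out)) (.nx 532 26009 (.nx 490 408 (.lg 0 false 13
  79 79 9 0 3120) (.nx 491 6501 .out (.nr 531 220437 (.nx 504 10323 (.lg 0 false 13 97 97 9 0 9360)
  (.nx 505 13003 .out (.lg 0 false 26 97 103 11 0 102960))) .out))) .out)) (.nr 572 154 (.lg 0 true
  39 83 89 16 0 9360) .out)) (.nx 594 324 (.lg 0 false 21 83 83 11 0 5040) .out)))) .out) .out)
  (.na 1026 3 (.nx 1025 3329023 (.nr 1024 1763489 (.nx 600 241 (.nx 599 240 (.nr 598 30 (.lg 0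
  false 1 41 41 5 0 240) (.l1 .sk)) (.l1 .sk)) (.nr 1001 311745 (.nx 989 2642247 (.nx 952 1048577
  (.nx 743 65537 (.lg 0 false 143 97 107 19 0 720720) (.nr 951 262145 (.nr 769 941 (.lg 0 true 26
  89 97 11 0 9360) (.nr 782 3446 (.lg 2 true 13 97 101 9 133719 65520) (.nx 950 832257 (.nr 795
  12637 (.lg 2 true 13 97 101 9 28982 65520) (.nx 895 165142 (.nx 817 82572 (.lg 1 false 22 101 103
  11 115306 55440) (.nr 894 220437 (.lg 1 true 77 89 103 13 76970 55440) .out)) (.nr 949 155873
  (.nr 908 55110 (.lg 2 false 13 97 101 9 9653 65520) (.nx 948 330282 (.nr 921 92683 (.lg 2 false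
  13 101 101 9 16206 65520) (.nx 947 262145 (.lg 2 false 26 97 103 11 27226 65520) .out)) .out))
  .out))) .out))) .out)) (.nr 988 257 (.nx 965 1321124 (.lg 0 true 13 79 79 9 0 3120) (.nr 987 154
  (.lg 0 true 22 83 83 11 0 2640) .out)) .out)) (.nr 1000 9 (.lg 0 true 11 67 67 9 0 2640) .out))
  (.nx 1023 408 (.lg 0 false 22 83 83 11 0 2640) .out))) .out) .out) (.nx 1349 6658044 (.nr 1348
  1482912 (.nx 1028 240 (.nr 1027 42 (.lg 0 true 1 41 41 5 0 720) (.l1 .sk)) (.nx 1029 241 (.l1
  .sk) (.nr 1333 311745 (.nx 1299 1664512 (.nx 1285 832257 (.nx 1106 60679 (.lg 0 false 77 101 107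
  16 0 720720) (.nr 1128 668 (.lg 0 true 22 83 89 16 0 7920) (.nx 1150 82572 (.lg 1 false 22 101
  107 16 148079 720720) (.nr 1284 262145 (.nx 1173 104031 (.nr 1172 220437 (.lg 1 false 22 101 107
  16 76970 720720) .out) (.nx 1195 131072 (.lg 1 false 22 101 107 16 72640 720720) (.nx 1229 208065
  (.nx 1217 165142 (.lg 1 false 22 101 107 16 57654 720720) (.nr 1228 220437 (.lg 1 true 11 103 107
  7 38486 720720) .out)) (.nr 1283 185365 (.nr 1240 2898 (.lg 2 true 11 89 89 7 149508 7920) (.nx
  1282 660563 (.nx 1251 262145 (.lg 1 true 11 97 101 7 25692 7920) (.nr 1281 110219 (.nr 1269 77937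
  (.nr 1258 10626 (.lg 2 true 7 89 97 7 27353 5040) (.lg 2 false 11 97 97 7 8589 7920)) (.nx 1280
  330282 (.lg 2 false 11 89 97 7 12136 7920) .out)) .out)) .out)) .out)))) .out)))) (.nr 1298 154
  (.lg 0 true 13 79 79 13 0 9360) .out)) (.nr 1332 33 (.lg 0 true 33 73 73 7 0 7920) .out)) (.nx
  1347 408 (.lg 0 false 14 79 79 13 0 5040) .out)))) .out) .out)))

def T37_2 : Ph :=
  (.na 255 158 (.na 183 74 (.na 128 38 (.na 89 19 (.na 1 2 .ne (.na 88 3 (.nx 87 660563 (.nr 86
  623489 (.nx 4 38 (.nx 3 37 (.nr 2 12 (.lg 0 true 1 19 19 5 0 1776) (.l1 .sk)) (.l1 .sk)) (.nx 70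
  104033 (.nr 43 27556 (.nx 19 4982 (.lg 0 false 15 83 83 9 0 26640) (.nr 34 613 (.lg 0 true 15 79
  79 9 0 26640) (.lg 2 false 9 89 89 9 3792 5328))) (.nx 69 647 (.nr 53 131073 (.lg 0 false 10 83
  83 9 0 8880) (.nx 68 103 (.lg 0 false 15 73 73 9 0 26640) .out)) .out)) (.nr 85 154 (.lg 0 true
  15 79 79 9 0 26640) .out))) .out) .out) .ne)) (.na 108 23 (.nx 107 660563 (.nr 106 623489 (.nr 90
  19 .s1 (.nx 91 103 (.l1 (.ls 79 23 561)) (.nr 105 131073 (.nx 94 6503 (.lg 0 true 3 83 83 16 0
  13320) (.nr 104 46342 (.nr 98 257 (.lg 0 true 4 71 71 16 0 1776) (.nx 103 41287 (.lg 1 false 5 67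
  67 16 4883 4440) .out)) .out)) .out))) .out) .out) (.na 127 32 (.nx 126 660563 (.nr 125 131073
  (.nr 109 23 .s1 (.nx 112 38 (.nx 111 37 (.nr 110 139 (.l1 (.ls 16 16 62)) (.l1 .sk)) (.l1 .sk))
  (.nx 117 6503 (.lg 0 false 5 73 73 16 0 4440) (.nr 124 32769 (.nr 122 257 (.lg 0 true 5 67 67 16
  0 4440) (.nx 123 41287 (.lg 1 false 1 73 73 11 3454 888) .out)) .out)))) .out) .out) .ne))) (.na
  163 62 (.na 141 41 (.nx 140 82572 (.nr 139 262145 (.nr 129 38 .s1 (.nx 132 38 (.nx 131 37 (.nr
  130 178 (.l1 (.ls 16 13 39)) (.l1 .sk)) (.l1 .sk)) (.nx 135 2582 (.lg 0 false 3 73 73 13 0 5328)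
  (.nr 138 32769 (.nr 136 154 (.lg 0 false 1 53 53 13 0 1776) (.nx 137 41287 (.lg 1 false 1 79 79
  13 8699 1776) .out)) .out)))) .out) .out) (.na 152 46 (.nx 151 82572 (.nr 150 262145 (.nr 142 41
  .s1 (.nx 146 2582 (.nx 144 37 (.nr 143 200 (.l1 (.ls 16 16 36)) (.l1 .sk)) (.nx 145 38 (.l1 .sk)
  (.lg 0 true 1 79 79 16 0 4440))) (.nr 149 32769 (.nr 147 154 (.lg 0 true 1 47 47 16 0 888) (.nx
  148 41287 (.lg 1 false 1 73 73 16 8699 4440) .out)) .out))) .out) .out) (.nx 162 82572 (.nr 161
  262145 (.nr 153 46 .s1 (.nx 155 37 (.nr 154 269 (.l1 (.ls 16 13 32)) (.l1 .sk)) (.nx 156 38 (.l1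
  .sk) (.nr 159 32769 (.lg 0 true 3 89 89 13 0 26640) (.nx 160 2582 (.lg 0 true 1 83 83 13 0 1776)
  .out))))) .out) .out))) (.na 174 64 (.nx 173 82572 (.nr 172 262145 (.nr 164 62 .s1 (.nx 166 37
  (.nr 165 278 (.l1 (.ls 16 13 25)) (.l1 .sk)) (.nx 167 38 (.l1 .sk) (.nr 170 32769 (.lg 0 true 3
  79 79 19 0 5328) (.nx 171 2582 (.lg 0 true 1 73 73 13 0 1776) .out))))) .out) .out) (.na 175 73
  .ne (.nx 182 82572 (.nr 181 524289 (.nr 176 73 .s1 (.nx 179 6503 (.nx 177 647 (.l1 (.ls 61 37
  5737)) (.nr 178 262145 (.lg 0 true 1 79 79 16 0 2664) .out)) (.nr 180 65537 (.lg 1 false 1 79 79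
  16 20926 2664) .out))) .out) .out))))) (.na 229 128 (.na 207 103 (.na 191 82 (.nx 190 82572 (.nr
  189 524289 (.nr 184 74 .s1 (.nx 185 2110 (.l1 (.ls 67 61 60166)) (.nr 188 262145 (.lg 1 true 3 73
  73 17 85074 5328) .out))) .out) .out) (.na 199 86 (.nx 198 82572 (.nr 197 524289 (.nr 192 82 .s1
  (.nx 193 647 (.l1 (.ls 71 47 5107)) (.nr 196 262145 (.nx 194 6503 (.lg 0 true 1 79 79 13 0 5328)
  (.nr 195 65537 (.lg 1 false 1 79 79 13 18630 5328) .out)) .out))) .out) .out) (.nx 206 82572 (.nr
  205 524289 (.nr 200 86 .s1 (.nx 203 6503 (.nx 201 647 (.l1 (.ls 71 41 4870)) (.nr 202 262145 (.lg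
  0 true 1 79 79 13 0 1776) .out)) (.nr 204 65537 (.lg 1 false 1 79 79 13 17763 8880) .out))) .out)
  .out))) (.na 215 106 (.nx 214 82572 (.nr 213 524289 (.nr 208 103 .s1 (.nx 211 6503 (.nx 209 647
  (.l1 (.ls 61 31 4067)) (.nr 210 262145 (.lg 0 true 1 71 71 16 0 888) .out)) (.nr 212 65537 (.lg 1
  false 1 67 67 16 14831 888) .out))) .out) .out) (.na 222 118 (.nx 221 82572 (.nr 220 524289 (.nr
  216 106 .s1 (.nx 217 2110 (.l1 (.ls 71 61 42003)) (.nr 219 262145 (.lg 1 true 2 83 83 19 85074
  8880) .out))) .out) .out) (.nx 228 82572 (.nr 227 524289 (.nr 223 118 .s1 (.nx 224 2110 (.l1 (.ls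
  71 53 37732)) (.nr 226 262145 (.lg 1 true 2 79 79 19 85074 1776) .out))) .out) .out)))) (.na 242
  146 (.na 230 131 .ne (.na 236 137 (.nx 235 41287 (.nr 234 1048577 (.nr 231 131 .s1 (.nx 232 647
  (.l1 (.ls 67 31 3198)) (.nr 233 131073 (.lg 0 true 1 79 79 16 0 4440) .out))) .out) .out) (.nx
  241 41287 (.nr 240 1048577 (.nr 237 137 .s1 (.nx 238 647 (.l1 (.ls 61 31 3058)) (.nr 239 131073
  (.lg 0 true 1 71 71 16 0 888) .out))) .out) .out))) (.na 248 151 (.nx 247 41287 (.nr 246 1048577
  (.nr 243 146 .s1 (.nx 244 647 (.l1 (.ls 67 41 2870)) (.nr 245 131073 (.lg 0 true 1 79 79 19 0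
  1776) .out))) .out) .out) (.na 249 157 (.lg 0 false 1 0 0 16 0 24) (.nx 254 41287 (.nr 253
  1048577 (.nr 250 157 .s1 (.nx 251 647 (.l1 (.ls 61 31 2669)) (.nr 252 131073 (.lg 0 true 1 71 71
  16 0 888) .out))) .out) .out)))))) (.na 317 257 (.na 291 202 (.na 273 173 (.na 261 163 (.nx 260
  41287 (.nr 259 1048577 (.nr 256 158 .s1 (.nx 257 647 (.l1 (.ls 61 41 2652)) (.nr 258 131073 (.lg
  0 true 1 79 79 19 0 1776) .out))) .out) .out) (.na 267 167 (.nx 266 41287 (.nr 265 1048577 (.nr
  262 163 .s1 (.nx 263 647 (.l1 (.ls 61 31 2571)) (.nr 264 131073 (.lg 0 true 1 73 73 16 0 2664)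
  .out))) .out) .out) (.nx 272 41287 (.nr 271 1048577 (.nr 268 167 .s1 (.nx 269 647 (.l1 (.ls 59 31
  2509)) (.nr 270 131073 (.lg 0 true 1 67 67 16 0 888) .out))) .out) .out))) (.na 279 179 (.nx 278
  41287 (.nr 277 1048577 (.nr 274 173 .s1 (.nx 275 647 (.l1 (.ls 61 31 2422)) (.nr 276 131073 (.lg
  0 true 1 71 71 16 0 888) .out))) .out) .out) (.na 285 199 (.nx 284 41287 (.nr 283 1048577 (.nr
  280 179 .s1 (.nx 281 647 (.l1 (.ls 67 31 2341)) (.nr 282 131073 (.lg 0 true 1 73 73 16 0 13320)
  .out))) .out) .out) (.nx 290 41287 (.nr 289 1048577 (.nr 286 199 .s1 (.nx 287 647 (.l1 (.ls 61 29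
  2106)) (.nr 288 131073 (.lg 0 true 1 71 71 16 0 13320) .out))) .out) .out)))) (.na 304 227 (.na
  297 206 (.nx 296 41287 (.nr 295 1048577 (.nr 292 202 .s1 (.nx 293 647 (.l1 (.ls 61 37 2075)) (.nr
  294 131073 (.lg 0 true 1 71 71 23 0 1776) .out))) .out) .out) (.na 303 211 (.nx 302 41287 (.nr
  301 1048577 (.nr 298 206 .s1 (.nx 299 647 (.l1 (.ls 67 37 2035)) (.nr 300 131073 (.lg 0 true 1 73
  73 23 0 26640) .out))) .out) .out) (.lg 0 false 1 0 0 16 0 24))) (.na 310 233 (.nx 309 41287 (.nr
  308 1048577 (.nr 305 227 .s1 (.nx 306 647 (.l1 (.ls 59 29 1847)) (.nr 307 131073 (.lg 0 true 1 67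
  67 17 0 888) .out))) .out) .out) (.na 316 256 (.nx 315 41287 (.nr 314 1048577 (.nr 311 233 .s1
  (.nx 312 647 (.l1 (.ls 59 29 1799)) (.nr 313 131073 (.lg 0 true 1 67 67 17 0 888) .out))) .out)
  .out) .ne)))) (.na 1903 2897 (.na 1126 1024 (.na 613 512 (.nx 612 41287 (.nr 611 262145 (.nr 318
  257 .s1 (.nx 355 37 (.nr 354 2218 (.lx (.lp 16 0 129)) (.l1 .sk)) (.nx 356 38 (.l1 .sk) (.la (.lg
  0 true 1 67 67 23 0))))) .out) .out) (.na 867 725 (.nx 866 41287 (.nr 865 262145 (.nr 614 512 .s1
  (.nx 652 38 (.nx 651 37 (.nr 650 3140 (.lx (.lp 16 0 182)) (.l1 .sk)) (.l1 .sk)) (.la (.lg 0 true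
  1 61 61 23 0)))) .out) .out) (.nx 1125 257 (.nr 1124 65537 (.nr 868 725 .s1 (.lx (.lp 17 0 257)))
  .out) .out))) (.na 1385 1449 (.nx 1384 257 (.nr 1383 65537 (.nr 1127 1024 .s1 (.lx (.lp 47 23
  363))) .out) .out) (.na 1644 2048 (.nx 1643 257 (.nr 1642 16385 (.nr 1386 1449 .s1 (.lx (.lp 16 0
  513))) .out) .out) (.nx 1902 257 (.nr 1901 32769 (.nr 1645 2048 .s1 (.lx (.lp 19 29 725))) .out)
  .out)))) (.na 2526 8192 (.na 2162 4096 (.nx 2161 257 (.nr 2160 32769 (.nr 1904 2897 .s1 (.lx (.lp
  16 23 1025))) .out) .out) (.na 2421 5793 (.nx 2420 257 (.nr 2419 32769 (.nr 2163 4096 .s1 (.lx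
  (.lp 17 31 1449))) .out) .out) (.nx 2525 103 (.nr 2524 32769 (.nr 2422 5793 .s1 (.lx (.lp 16 0
  2049))) .out) .out))) (.na 2631 16384 (.nx 2630 103 (.nr 2629 32769 (.nr 2527 8192 .s1 (.lx (.lp
  16 0 4097))) .out) .out) (.na 2633 32769 (.nx 2632 103 (.l1 .sk) .out) .out))))))

theorem c37 :
    OkQ ckI L6 104 1 21 0 34359738368 1 1099511627776 ∧
    OkQ ckI L10 240 1 4 0 34359738368 1 1099511627776 ∧
    OkQ ckI L5 37 1 1099511627776 0 34359738368 1 1099511627776 := by
  refine ⟨?_, ?_, ?_⟩
  · refine fin 936 909 T37_0 ?_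
    refine jn 5 (by decide +kernel) ?_
    refine jn 8 (by decide +kernel) ?_
    refine jn 9 (by decide +kernel) ?_
    refine jn 12 (by decide +kernel) ?_
    refine jn 15 (by decide +kernel) ?_
    refine jn 19 (by decide +kernel) ?_
    refine jn 20 (by decide +kernel) ?_
    refine jn 22 (by decide +kernel) ?_
    refine jn 25 (by decide +kernel) ?_
    refine jn 28 (by decide +kernel) ?_
    refine jn 31 (by decide +kernel) ?_
    refine jn 32 (by decide +kernel) ?_
    refine jn 35 (by decide +kernel) ?_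
    refine jn 38 (by decide +kernel) ?_
    refine jn 43 (by decide +kernel) ?_
    refine jn 48 (by decide +kernel) ?_
    refine jn 53 (by decide +kernel) ?_
    refine jn 58 (by decide +kernel) ?_
    refine jn 63 (by decide +kernel) ?_
    refine jn 68 (by decide +kernel) ?_
    refine jn 69 (by decide +kernel) ?_
    refine jn 80 (by decide +kernel) ?_
    refine jn 94 (by decide +kernel) ?_
    refine jn 102 (by decide +kernel) ?_
    refine jn 114 (by decide +kernel) ?_
    refine jn 125 (by decide +kernel) ?_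
    refine jn 151 (by decide +kernel) ?_
    refine jn 174 (by decide +kernel) ?_
    refine jn 181 (by decide +kernel) ?_
    refine jn 182 (by decide +kernel) ?_
    refine jn 183 (by decide +kernel) ?_
    refine jn 184 (by decide +kernel) ?_
    refine jn 185 (by decide +kernel) ?_
    refine jn 186 (by decide +kernel) ?_
    refine jn 187 (by decide +kernel) ?_
    refine jn 188 (by decide +kernel) ?_
    refine jn 189 (by decide +kernel) ?_
    refine jn 190 (by decide +kernel) ?_
    refine jn 191 (by decide +kernel) ?_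
    refine jn 192 (by decide +kernel) ?_
    refine jn 203 (by decide +kernel) ?_
    refine jn 213 (by decide +kernel) ?_
    refine jn 214 (by decide +kernel) ?_
    refine jn 215 (by decide +kernel) ?_
    refine jn 217 (by decide +kernel) ?_
    refine jn 218 (by decide +kernel) ?_
    refine jn 219 (by decide +kernel) ?_
    refine jn 220 (by decide +kernel) ?_
    refine jn 222 (by decide +kernel) ?_
    refine jn 223 (by decide +kernel) ?_
    refine jn 224 (by decide +kernel) ?_
    refine jn 231 (by decide +kernel) ?_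
    refine jn 238 (by decide +kernel) ?_
    refine jn 245 (by decide +kernel) ?_
    refine jn 251 (by decide +kernel) ?_
    refine jn 252 (by decide +kernel) ?_
    refine jn 259 (by decide +kernel) ?_
    refine jn 266 (by decide +kernel) ?_
    refine jn 272 (by decide +kernel) ?_
    refine jn 298 (by decide +kernel) ?_
    refine jn 306 (by decide +kernel) ?_
    refine jn 307 (by decide +kernel) ?_
    refine jn 308 (by decide +kernel) ?_
    refine jn 309 (by decide +kernel) ?_
    refine jn 310 (by decide +kernel) ?_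
    refine jn 311 (by decide +kernel) ?_
    refine jn 312 (by decide +kernel) ?_
    refine jn 313 (by decide +kernel) ?_
    refine jn 314 (by decide +kernel) ?_
    refine jn 315 (by decide +kernel) ?_
    refine jn 316 (by decide +kernel) ?_
    refine jn 334 (by decide +kernel) ?_
    refine jn 336 (by decide +kernel) ?_
    refine jn 337 (by decide +kernel) ?_
    refine jn 339 (by decide +kernel) ?_
    refine jn 341 (by decide +kernel) ?_
    refine jn 342 (by decide +kernel) ?_
    refine jn 344 (by decide +kernel) ?_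
    refine jn 346 (by decide +kernel) ?_
    refine jn 347 (by decide +kernel) ?_
    refine jn 350 (by decide +kernel) ?_
    refine jn 357 (by decide +kernel) ?_
    refine jn 364 (by decide +kernel) ?_
    refine jn 371 (by decide +kernel) ?_
    refine jn 372 (by decide +kernel) ?_
    refine jn 377 (by decide +kernel) ?_
    refine jn 414 (by decide +kernel) ?_
    refine jn 425 (by decide +kernel) ?_
    refine jn 433 (by decide +kernel) ?_
    refine jn 434 (by decide +kernel) ?_
    refine jn 435 (by decide +kernel) ?_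
    refine jn 436 (by decide +kernel) ?_
    refine jn 437 (by decide +kernel) ?_
    refine jn 438 (by decide +kernel) ?_
    refine jn 439 (by decide +kernel) ?_
    refine jn 440 (by decide +kernel) ?_
    refine jn 441 (by decide +kernel) ?_
    refine jn 442 (by decide +kernel) ?_
    refine jn 443 (by decide +kernel) ?_
    refine jn 444 (by decide +kernel) ?_
    refine jn 446 (by decide +kernel) ?_
    refine jn 448 (by decide +kernel) ?_
    refine jn 451 (by decide +kernel) ?_
    refine jn 453 (by decide +kernel) ?_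
    refine jn 455 (by decide +kernel) ?_
    refine jn 466 (by decide +kernel) ?_
    refine jn 472 (by decide +kernel) ?_
    refine jn 479 (by decide +kernel) ?_
    refine jn 484 (by decide +kernel) ?_
    refine jn 513 (by decide +kernel) ?_
    refine jn 525 (by decide +kernel) ?_
    refine jn 532 (by decide +kernel) ?_
    refine jn 534 (by decide +kernel) ?_
    refine jn 536 (by decide +kernel) ?_
    refine jn 538 (by decide +kernel) ?_
    refine jn 540 (by decide +kernel) ?_
    refine jn 542 (by decide +kernel) ?_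
    refine jn 545 (by decide +kernel) ?_
    refine jn 548 (by decide +kernel) ?_
    refine jn 552 (by decide +kernel) ?_
    refine jn 576 (by decide +kernel) ?_
    refine jn 585 (by decide +kernel) ?_
    refine jn 594 (by decide +kernel) ?_
    refine jn 602 (by decide +kernel) ?_
    refine jn 604 (by decide +kernel) ?_
    refine jn 606 (by decide +kernel) ?_
    refine jn 608 (by decide +kernel) ?_
    refine jn 610 (by decide +kernel) ?_
    refine jn 613 (by decide +kernel) ?_
    refine jn 617 (by decide +kernel) ?_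
    refine jn 620 (by decide +kernel) ?_
    refine jn 622 (by decide +kernel) ?_
    refine jn 627 (by decide +kernel) ?_
    refine jn 632 (by decide +kernel) ?_
    refine jn 656 (by decide +kernel) ?_
    refine jn 669 (by decide +kernel) ?_
    refine jn 671 (by decide +kernel) ?_
    refine jn 673 (by decide +kernel) ?_
    refine jn 674 (by decide +kernel) ?_
    refine jn 676 (by decide +kernel) ?_
    refine jn 684 (by decide +kernel) ?_
    refine jn 688 (by decide +kernel) ?_
    refine jn 692 (by decide +kernel) ?_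
    refine jn 695 (by decide +kernel) ?_
    refine jn 704 (by decide +kernel) ?_
    refine jn 729 (by decide +kernel) ?_
    refine jn 738 (by decide +kernel) ?_
    refine jn 739 (by decide +kernel) ?_
    refine jn 740 (by decide +kernel) ?_
    refine jn 741 (by decide +kernel) ?_
    refine jn 742 (by decide +kernel) ?_
    refine jn 743 (by decide +kernel) ?_
    refine jn 744 (by decide +kernel) ?_
    refine jn 745 (by decide +kernel) ?_
    refine jn 746 (by decide +kernel) ?_
    refine jn 747 (by decide +kernel) ?_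
    refine jn 748 (by decide +kernel) ?_
    refine jn 749 (by decide +kernel) ?_
    refine jn 750 (by decide +kernel) ?_
    refine jn 751 (by decide +kernel) ?_
    refine jn 753 (by decide +kernel) ?_
    refine jn 755 (by decide +kernel) ?_
    refine jn 761 (by decide +kernel) ?_
    refine jn 763 (by decide +kernel) ?_
    refine jn 769 (by decide +kernel) ?_
    refine jn 788 (by decide +kernel) ?_
    refine jn 799 (by decide +kernel) ?_
    refine jn 817 (by decide +kernel) ?_
    refine jn 819 (by decide +kernel) ?_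
    refine jn 820 (by decide +kernel) ?_
    refine jn 821 (by decide +kernel) ?_
    refine jn 822 (by decide +kernel) ?_
    refine jn 823 (by decide +kernel) ?_
    refine jn 824 (by decide +kernel) ?_
    refine jn 825 (by decide +kernel) ?_
    refine jn 826 (by decide +kernel) ?_
    refine jn 827 (by decide +kernel) ?_
    refine jn 828 (by decide +kernel) ?_
    refine jn 833 (by decide +kernel) ?_
    refine jn 841 (by decide +kernel) ?_
    refine jn 843 (by decide +kernel) ?_
    refine jn 849 (by decide +kernel) ?_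
    refine jn 859 (by decide +kernel) ?_
    refine jn 863 (by decide +kernel) ?_
    refine jn 867 (by decide +kernel) ?_
    refine jn 874 (by decide +kernel) ?_
    refine jn 879 (by decide +kernel) ?_
    refine jn 888 (by decide +kernel) ?_
    refine jn 889 (by decide +kernel) ?_
    refine jn 890 (by decide +kernel) ?_
    refine jn 891 (by decide +kernel) ?_
    refine jn 892 (by decide +kernel) ?_
    refine jn 893 (by decide +kernel) ?_
    refine jn 896 (by decide +kernel) ?_
    refine jn 897 (by decide +kernel) ?_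
    refine jn 899 (by decide +kernel) ?_
    refine jn 900 (by decide +kernel) ?_
    refine jn 903 (by decide +kernel) ?_
    refine jn 904 (by decide +kernel) ?_
    exact je (by decide +kernel)
  · refine fin 240 1350 T37_1 ?_
    refine jn 9 (by decide +kernel) ?_
    refine jn 12 (by decide +kernel) ?_
    refine jn 19 (by decide +kernel) ?_
    refine jn 23 (by decide +kernel) ?_
    refine jn 29 (by decide +kernel) ?_
    refine jn 36 (by decide +kernel) ?_
    refine jn 40 (by decide +kernel) ?_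
    refine jn 47 (by decide +kernel) ?_
    refine jn 52 (by decide +kernel) ?_
    refine jn 60 (by decide +kernel) ?_
    refine jn 64 (by decide +kernel) ?_
    refine jn 71 (by decide +kernel) ?_
    refine jn 75 (by decide +kernel) ?_
    refine jn 80 (by decide +kernel) ?_
    refine jn 86 (by decide +kernel) ?_
    refine jn 89 (by decide +kernel) ?_
    refine jn 94 (by decide +kernel) ?_
    refine jn 106 (by decide +kernel) ?_
    refine jn 117 (by decide +kernel) ?_
    refine jn 129 (by decide +kernel) ?_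
    refine jn 142 (by decide +kernel) ?_
    refine jn 155 (by decide +kernel) ?_
    refine jn 168 (by decide +kernel) ?_
    refine jn 181 (by decide +kernel) ?_
    refine jn 185 (by decide +kernel) ?_
    refine jn 211 (by decide +kernel) ?_
    refine jn 224 (by decide +kernel) ?_
    refine jn 251 (by decide +kernel) ?_
    refine jn 270 (by decide +kernel) ?_
    refine jn 286 (by decide +kernel) ?_
    refine jn 309 (by decide +kernel) ?_
    refine jn 326 (by decide +kernel) ?_
    refine jn 342 (by decide +kernel) ?_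
    refine jn 355 (by decide +kernel) ?_
    refine jn 376 (by decide +kernel) ?_
    refine jn 381 (by decide +kernel) ?_
    refine jn 398 (by decide +kernel) ?_
    refine jn 415 (by decide +kernel) ?_
    refine jn 432 (by decide +kernel) ?_
    refine jn 449 (by decide +kernel) ?_
    refine jn 466 (by decide +kernel) ?_
    refine jn 472 (by decide +kernel) ?_
    refine jn 504 (by decide +kernel) ?_
    refine jn 525 (by decide +kernel) ?_
    refine jn 533 (by decide +kernel) ?_
    refine jn 562 (by decide +kernel) ?_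
    refine jn 572 (by decide +kernel) ?_
    refine jn 594 (by decide +kernel) ?_
    refine jn 610 (by decide +kernel) ?_
    refine jn 615 (by decide +kernel) ?_
    refine jn 623 (by decide +kernel) ?_
    refine jn 631 (by decide +kernel) ?_
    refine jn 640 (by decide +kernel) ?_
    refine jn 649 (by decide +kernel) ?_
    refine jn 658 (by decide +kernel) ?_
    refine jn 667 (by decide +kernel) ?_
    refine jn 676 (by decide +kernel) ?_
    refine jn 684 (by decide +kernel) ?_
    refine jn 692 (by decide +kernel) ?_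
    refine jn 702 (by decide +kernel) ?_
    refine jn 711 (by decide +kernel) ?_
    refine jn 720 (by decide +kernel) ?_
    refine jn 728 (by decide +kernel) ?_
    refine jn 733 (by decide +kernel) ?_
    refine jn 742 (by decide +kernel) ?_
    refine jn 752 (by decide +kernel) ?_
    refine jn 765 (by decide +kernel) ?_
    refine jn 782 (by decide +kernel) ?_
    refine jn 795 (by decide +kernel) ?_
    refine jn 810 (by decide +kernel) ?_
    refine jn 817 (by decide +kernel) ?_
    refine jn 834 (by decide +kernel) ?_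
    refine jn 850 (by decide +kernel) ?_
    refine jn 867 (by decide +kernel) ?_
    refine jn 883 (by decide +kernel) ?_
    refine jn 894 (by decide +kernel) ?_
    refine jn 921 (by decide +kernel) ?_
    refine jn 942 (by decide +kernel) ?_
    refine jn 965 (by decide +kernel) ?_
    refine jn 987 (by decide +kernel) ?_
    refine jn 1023 (by decide +kernel) ?_
    refine jn 1038 (by decide +kernel) ?_
    refine jn 1049 (by decide +kernel) ?_
    refine jn 1059 (by decide +kernel) ?_
    refine jn 1069 (by decide +kernel) ?_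
    refine jn 1080 (by decide +kernel) ?_
    refine jn 1089 (by decide +kernel) ?_
    refine jn 1101 (by decide +kernel) ?_
    refine jn 1106 (by decide +kernel) ?_
    refine jn 1119 (by decide +kernel) ?_
    refine jn 1128 (by decide +kernel) ?_
    refine jn 1148 (by decide +kernel) ?_
    refine jn 1172 (by decide +kernel) ?_
    refine jn 1195 (by decide +kernel) ?_
    refine jn 1217 (by decide +kernel) ?_
    refine jn 1240 (by decide +kernel) ?_
    refine jn 1258 (by decide +kernel) ?_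
    refine jn 1280 (by decide +kernel) ?_
    refine jn 1298 (by decide +kernel) ?_
    refine jn 1332 (by decide +kernel) ?_
    exact je (by decide +kernel)
  · refine fin 888 2634 T37_2 ?_
    refine jn 7 (by decide +kernel) ?_
    refine jn 9 (by decide +kernel) ?_
    refine jn 10 (by decide +kernel) ?_
    refine jn 12 (by decide +kernel) ?_
    refine jn 13 (by decide +kernel) ?_
    refine jn 15 (by decide +kernel) ?_
    refine jn 16 (by decide +kernel) ?_
    refine jn 19 (by decide +kernel) ?_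
    refine jn 23 (by decide +kernel) ?_
    refine jn 26 (by decide +kernel) ?_
    refine jn 29 (by decide +kernel) ?_
    refine jn 33 (by decide +kernel) ?_
    refine jn 43 (by decide +kernel) ?_
    refine jn 68 (by decide +kernel) ?_
    refine jn 80 (by decide +kernel) ?_
    refine jn 85 (by decide +kernel) ?_
    refine jn 91 (by decide +kernel) ?_
    refine jn 92 (by decide +kernel) ?_
    refine jn 93 (by decide +kernel) ?_
    refine jn 94 (by decide +kernel) ?_
    refine jn 97 (by decide +kernel) ?_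
    refine jn 98 (by decide +kernel) ?_
    refine jn 99 (by decide +kernel) ?_
    refine jn 100 (by decide +kernel) ?_
    refine jn 101 (by decide +kernel) ?_
    refine jn 102 (by decide +kernel) ?_
    refine jn 103 (by decide +kernel) ?_
    refine jn 115 (by decide +kernel) ?_
    refine jn 117 (by decide +kernel) ?_
    refine jn 122 (by decide +kernel) ?_
    refine jn 135 (by decide +kernel) ?_
    refine jn 145 (by decide +kernel) ?_
    refine jn 147 (by decide +kernel) ?_
    refine jn 159 (by decide +kernel) ?_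
    refine jn 171 (by decide +kernel) ?_
    refine jn 180 (by decide +kernel) ?_
    refine jn 194 (by decide +kernel) ?_
    refine jn 202 (by decide +kernel) ?_
    refine jn 212 (by decide +kernel) ?_
    refine jn 223 (by decide +kernel) ?_
    refine jn 233 (by decide +kernel) ?_
    refine jn 250 (by decide +kernel) ?_
    refine jn 264 (by decide +kernel) ?_
    refine jn 282 (by decide +kernel) ?_
    refine jn 300 (by decide +kernel) ?_
    refine jn 361 (by decide +kernel) ?_
    refine jn 397 (by decide +kernel) ?_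
    refine jn 416 (by decide +kernel) ?_
    refine jn 445 (by decide +kernel) ?_
    refine jn 461 (by decide +kernel) ?_
    refine jn 497 (by decide +kernel) ?_
    refine jn 565 (by decide +kernel) ?_
    refine jn 598 (by decide +kernel) ?_
    refine jn 650 (by decide +kernel) ?_
    refine jn 706 (by decide +kernel) ?_
    refine jn 741 (by decide +kernel) ?_
    refine jn 774 (by decide +kernel) ?_
    refine jn 814 (by decide +kernel) ?_
    refine jn 862 (by decide +kernel) ?_
    refine jn 1127 (by decide +kernel) ?_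
    refine jn 1572 (by decide +kernel) ?_
    refine jn 1904 (by decide +kernel) ?_
    refine jn 2524 (by decide +kernel) ?_
    exact je (by decide +kernel)

end Pool.Agent.MP_2339ce_nt.NR
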