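import Pool.Agent.MP_2339ce_nt.Q2.NC.L10
import Pool.Agent.MP_2339ce_nt.Q2.CkI

/-! Block NR: runs. -/

set_option autoImplicit false
set_option maxRecDepth 100000

noncomputable section

namespace Pool.Agent.MP_2339ce_nt.NR

open Q2.Top

def T38_0 : Ph :=
  (.na 512 172 (.na 291 92 (.na 176 50 (.na 91 28 (.na 47 23 (.nx 46 2642247 (.nr 45 1246976 (.nr 1
  16 .s1 (.nx 4 245 (.nx 3 244 (.nr 2 254 (.lg 0 false 1 31 31 9 0 1127280) (.l1 .sk)) (.l1 .sk))
  (.nx 5 408 (.l1 (.ls 89 47 4841)) (.nr 44 741457 (.nr 40 311745 (.nr 36 220437 (.nx 14 56917 (.lg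
  0 false 9 101 103 23 0 3381840) (.nr 26 666 (.nx 19 660563 (.lg 0 true 5 79 79 19 0 161040) (.nr
  25 129 (.lg 0 true 6 73 73 19 0 96624) .out)) (.nx 35 524289 (.lg 2 false 9 101 107 23 115419
  3381840) .out))) (.nx 39 13005 (.lg 0 false 3 97 97 13 0 3381840) .out)) (.nx 43 1627 (.lg 0
  false 3 83 83 13 0 96624) .out)) .out)))) .out) .out) (.na 48 26 .ne (.nx 90 2642247 (.nr 89
  1048577 (.nr 49 21 .s1 (.nx 52 245 (.nx 51 244 (.nr 50 310 (.lg 0 true 1 29 29 11 0 38064) (.l1
  .sk)) (.l1 .sk)) (.nx 53 408 (.l1 (.ls 89 43 4096)) (.nr 88 741457 (.nx 82 660563 (.nr 78 524289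
  (.nx 66 82572 (.nr 60 185365 (.lg 0 false 7 103 107 19 0 43963920) (.nx 65 16385 (.lg 0 false 5
  101 103 19 0 43963920) .out)) (.nr 77 131073 (.nr 71 1956 (.lg 0 true 5 83 83 19 0 190320) (.nx
  76 524289 (.lg 2 false 5 101 103 19 47342 14654640) .out)) .out)) (.nx 81 2582 (.lg 0 false 3 83
  83 11 0 114192) .out)) (.nr 87 129 (.lg 0 true 5 71 71 19 0 190320) .out)) .out)))) .out) .out)))
  (.na 128 44 (.na 127 32 (.nx 126 2642247 (.nr 125 1048577 (.nr 92 24 .s1 (.nx 95 245 (.nx 94 244
  (.nr 93 354 (.lg 0 false 1 37 37 13 0 307440) (.l1 .sk)) (.l1 .sk)) (.nx 121 660563 (.nx 96 408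
  (.l1 (.ls 89 43 3804)) (.nr 120 741457 (.nr 113 185365 (.nx 99 44169 (.lg 0 false 3 107 109 19 0
  43963920) (.nr 102 1041 (.lg 0 true 3 83 83 19 0 61488) (.nx 112 524289 (.nr 103 3062 (.lg 2 true
  1 79 79 13 61445 20496) (.nx 106 82572 (.lg 1 false 3 103 107 19 125094 43963920) (.nr 111 131073
  (.nr 108 77937 (.lg 2 false 2 103 107 19 28186 43963920) (.nx 110 416129 (.lg 2 false 2 103 107
  19 47342 43963920) .out)) .out))) .out))) (.nx 119 16385 (.nr 116 524289 (.lg 0 false 3 101 103
  19 0 307440) (.nx 118 2582 (.lg 0 false 2 89 89 19 0 20496) .out)) .out)) .out)) (.nr 124 129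
  (.lg 0 true 3 73 73 19 0 61488) .out)))) .out) .out) .ne) (.na 151 46 (.nx 150 2642247 (.nr 149
  881745 (.nr 129 42 .s1 (.nx 133 408 (.nx 131 244 (.nr 130 509 (.lg 0 false 1 37 37 19 0 3381840)
  (.l1 .sk)) (.nx 132 245 (.l1 .sk) (.l1 (.ls 83 43 2422)))) (.nr 148 623489 (.nr 144 185365 (.nx
  136 65537 (.lg 0 false 3 101 103 23 0 3381840) (.nr 143 77937 (.nx 139 262145 (.nr 137 1344 (.lg
  0 true 1 79 79 19 0 32208) (.lg 2 false 2 97 101 23 35512 1127280)) (.nr 142 257 (.lg 0 true 3 73
  73 23 0 96624) .out)) .out)) (.nx 147 16385 (.lg 0 false 3 101 103 23 0 3381840) .out)) .out)))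
  .out) .out) (.nx 175 2642247 (.nr 174 881745 (.nr 152 44 .s1 (.nx 155 245 (.nx 154 244 (.nr 153
  553 (.lg 0 false 1 29 29 13 0 43920) (.l1 .sk)) (.l1 .sk)) (.nx 162 32769 (.lg 0 false 7 101 103
  19 0 307440) (.nr 173 92683 (.nr 167 553 (.lg 0 true 5 73 73 19 0 14640) (.nx 172 262145 (.lg 2
  false 5 89 97 19 84418 14640) .out)) .out)))) .out) .out)))) (.na 239 70 (.na 217 62 (.na 197 52
  (.nx 196 2642247 (.nr 195 881745 (.nr 177 48 .s1 (.nx 179 244 (.nr 178 575 (.l1 (.ls 23 37 1193))
  (.l1 .sk)) (.nx 180 245 (.l1 .sk) (.nr 191 220437 (.nx 183 41287 (.lg 0 false 3 97 97 19 0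
  307440) (.nr 190 77937 (.nr 187 575 (.lg 0 true 4 73 73 23 0 14640) (.nx 189 262145 (.lg 2 true 2
  89 89 19 56370 102480) .out)) .out)) (.nx 194 20644 (.lg 0 false 3 101 101 19 0 307440) .out)))))
  .out) .out) (.nx 216 2642247 (.nr 215 881745 (.nr 198 50 .s1 (.nx 201 245 (.nx 200 244 (.nr 199
  686 (.l1 (.ls 31 37 1147)) (.l1 .sk)) (.l1 .sk)) (.nr 211 220437 (.nx 204 52017 (.lg 0 false 3 97
  101 23 0 570960) (.nr 210 65537 (.nx 206 262145 (.nr 205 1803 (.lg 0 true 1 79 79 19 0 38064)
  (.lg 2 true 1 97 97 19 37646 190320)) (.nr 209 257 (.lg 0 true 3 73 73 23 0 114192) .out)) .out))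
  (.nx 214 20644 (.lg 0 false 3 101 101 23 0 570960) .out)))) .out) .out)) (.na 238 64 (.nx 237
  2642247 (.nr 236 881745 (.nr 218 61 .s1 (.nx 221 245 (.nx 220 244 (.nr 219 708 (.l1 (.ls 23 37
  963)) (.l1 .sk)) (.l1 .sk)) (.nr 224 257 (.lg 0 true 3 71 71 19 0 8784) (.nx 235 262145 (.nr 231
  220437 (.nx 227 82572 (.lg 0 true 3 97 97 19 0 8784) (.nr 230 46342 (.lg 0 false 3 101 101 19 0
  3381840) .out)) (.nx 234 20644 (.lg 0 false 3 101 101 19 0 8784) .out)) .out)))) .out) .out)
  .ne)) (.na 275 86 (.na 260 82 (.nx 259 2642247 (.nr 258 2097153 (.nr 240 69 .s1 (.nx 242 244 (.nr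
  241 907 (.l1 (.ls 31 41 853)) (.l1 .sk)) (.nx 243 245 (.l1 .sk) (.nx 252 32769 (.nx 244 408 (.l1
  (.ls 89 43 1523)) (.nr 251 1048577 (.nr 247 262145 (.lg 0 false 3 97 101 29 0 3381840) (.nx 250
  20644 (.lg 0 false 3 101 103 29 0 3381840) .out)) .out)) (.nr 257 65537 (.nr 255 907 (.lg 0 true
  3 83 83 29 0 307440) (.nx 256 416129 (.lg 2 true 1 97 97 23 59758 102480) .out)) .out))))) .out)
  .out) (.nx 274 2642247 (.nr 273 2097153 (.nr 261 81 .s1 (.nx 262 408 (.l1 (.ls 83 37 2033)) (.nr
  272 1048577 (.nx 265 32769 (.lg 0 false 3 101 101 19 0 8784) (.nr 271 65537 (.nr 268 951 (.lg 0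
  true 3 73 73 19 0 8784) (.nx 270 416129 (.lg 2 false 2 83 83 19 59758 2928) .out)) .out)) .out)))
  .out) .out)) (.na 290 91 (.nx 289 2642247 (.nr 288 2097153 (.nr 276 85 .s1 (.nx 277 408 (.l1 (.ls
  83 37 1938)) (.nr 287 1048577 (.nx 280 32769 (.lg 0 false 3 97 97 19 0 8784) (.nr 286 65537 (.nr
  283 1007 (.lg 0 true 3 73 73 19 0 8784) (.nx 285 416129 (.lg 2 false 2 83 83 19 59758 2928)
  .out)) .out)) .out))) .out) .out) .ne)))) (.na 397 130 (.na 353 118 (.na 323 100 (.na 308 98 (.nx
  307 2642247 (.nr 306 2097153 (.nr 292 91 .s1 (.nx 295 245 (.nx 294 244 (.nr 293 1084 (.l1 (.ls 19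
  37 650)) (.l1 .sk)) (.l1 .sk)) (.nx 300 29769 (.nx 296 408 (.l1 (.ls 89 41 1159)) (.nr 299
  1482912 (.lg 0 false 3 103 107 19 0 3381840) .out)) (.nr 305 65537 (.nr 303 1084 (.lg 0 true 3 83
  83 19 0 8784) (.nx 304 416129 (.lg 2 false 1 101 101 19 65780 1127280) .out)) .out)))) .out)
  .out) (.nx 322 2642247 (.nr 321 2097153 (.nr 309 97 .s1 (.nx 314 29769 (.nx 310 408 (.l1 (.ls 79
  41 1701)) (.nr 313 1482912 (.lg 0 false 3 97 97 23 0 307440) .out)) (.nr 320 65537 (.nr 317 513
  (.lg 0 true 3 67 67 23 0 61488) (.nx 319 416129 (.lg 2 true 2 83 83 23 98963 102480) .out))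
  .out))) .out) .out)) (.na 340 110 (.nx 339 2642247 (.nr 338 2097153 (.nr 324 99 .s1 (.nx 328 408
  (.nx 326 244 (.nr 325 1217 (.l1 (.ls 29 31 598)) (.l1 .sk)) (.nx 327 245 (.l1 .sk) (.l1 (.ls 83
  37 1067)))) (.nr 337 1482912 (.nx 331 29769 (.lg 0 false 3 97 101 29 0 307440) (.nr 336 65537
  (.nr 334 1217 (.lg 0 true 3 79 79 29 0 43920) (.nx 335 416129 (.lg 2 true 1 89 89 23 65780 14640)
  .out)) .out)) .out))) .out) .out) (.nx 352 2642247 (.nr 351 2097153 (.nr 341 109 .s1 (.nx 342 408
  (.l1 (.ls 83 43 1516)) (.nr 350 1482912 (.nx 345 29769 (.lg 0 false 3 101 103 31 0 3381840) (.nr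
  349 65537 (.nr 347 513 (.lg 0 true 2 73 73 31 0 161040) (.nx 348 416129 (.lg 2 false 1 97 97 29
  98963 161040) .out)) .out)) .out))) .out) .out))) (.na 383 124 (.na 367 122 (.nx 366 2642247 (.nr
  365 2097153 (.nr 354 117 .s1 (.nx 355 408 (.l1 (.ls 83 37 1413)) (.nr 364 1482912 (.nx 358 29769
  (.lg 0 false 3 97 97 23 0 8784) (.nr 363 65537 (.nr 361 1349 (.lg 0 true 3 73 73 23 0 8784) (.nx
  362 416129 (.lg 2 false 1 89 89 19 65780 102480) .out)) .out)) .out))) .out) .out) (.nx 382
  2642247 (.nr 381 2097153 (.nr 368 121 .s1 (.nx 373 29769 (.nx 369 408 (.l1 (.ls 71 37 1367)) (.nr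
  372 1482912 (.lg 0 true 3 83 83 19 0 43920) .out)) (.nr 380 65537 (.nr 377 1371 (.lg 0 true 4 59
  59 19 0 2928) (.nx 379 416129 (.lg 2 false 2 71 71 19 65780 14640) .out)) .out))) .out) .out))
  (.na 396 128 (.nx 395 2642247 (.nr 394 2097153 (.nr 384 124 .s1 (.nx 385 408 (.l1 (.ls 83 41
  1345)) (.nr 393 1482912 (.nx 388 29769 (.lg 0 false 3 101 103 29 0 307440) (.nr 392 65537 (.nr
  390 513 (.lg 0 true 2 71 71 23 0 2928) (.nx 391 416129 (.lg 2 false 1 89 89 19 98963 2928) .out))
  .out)) .out))) .out) .out) .ne))) (.na 458 146 (.na 428 140 (.na 413 134 (.nx 412 1321124 (.nr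
  411 2097153 (.nr 398 130 .s1 (.nx 401 245 (.nx 400 244 (.nr 399 1482 (.l1 (.ls 29 37 460)) (.l1
  .sk)) (.l1 .sk)) (.nx 406 41287 (.nx 404 26009 (.lg 0 false 3 97 101 31 0 570960) (.nr 405 65537
  (.lg 0 false 1 79 79 29 0 190320) .out)) (.nr 410 16385 (.nr 408 1025 (.lg 0 true 2 73 73 31 0
  190320) (.nx 409 165142 (.lg 2 true 1 71 71 29 19656 190320) .out)) .out)))) .out) .out) (.nx 427
  1321124 (.nr 426 2097153 (.nr 414 134 .s1 (.nx 423 165142 (.nx 420 26009 (.nx 416 244 (.nr 415
  1548 (.l1 (.ls 19 29 447)) (.l1 .sk)) (.nx 417 245 (.l1 .sk) (.lg 0 false 3 97 97 23 0 8784)))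
  (.nr 422 65537 (.lg 0 true 2 83 83 23 0 2928) .out)) (.nr 425 1025 (.lg 0 true 2 67 67 23 0 2928)
  .out))) .out) .out)) (.na 443 142 (.nx 442 1321124 (.nr 441 2097153 (.nr 429 140 .s1 (.nx 432 245
  (.nx 431 244 (.nr 430 1570 (.l1 (.ls 37 37 428)) (.l1 .sk)) (.l1 .sk)) (.nx 435 20644 (.lg 0
  false 3 101 107 37 0 43963920) (.nr 440 262145 (.nx 436 41287 (.lg 0 false 1 89 97 31 0 102480)
  (.nr 439 16385 (.nr 437 1025 (.lg 0 true 1 79 79 31 0 102480) (.nx 438 165142 (.lg 2 true 1 71 73
  31 19656 102480) .out)) .out)) .out)))) .out) .out) (.nx 457 1321124 (.nr 456 2097153 (.nr 444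
  142 .s1 (.nx 453 165142 (.nx 450 26009 (.nx 446 244 (.nr 445 1615 (.l1 (.ls 19 29 422)) (.l1
  .sk)) (.nx 447 245 (.l1 .sk) (.lg 0 false 3 97 97 23 0 8784))) (.nr 452 65537 (.lg 0 true 2 83 83
  23 0 2928) .out)) (.nr 455 1025 (.lg 0 true 2 67 67 23 0 2928) .out))) .out) .out))) (.na 486 158
  (.na 473 154 (.nx 472 1321124 (.nr 471 2097153 (.nr 459 146 .s1 (.nx 468 165142 (.nx 461 244 (.nr
  460 1703 (.l1 (.ls 19 29 410)) (.l1 .sk)) (.nx 462 245 (.l1 .sk) (.nx 465 26009 (.lg 0 false 3 97
  97 23 0 8784) (.nr 467 65537 (.lg 0 true 2 83 83 23 0 2928) .out)))) (.nr 470 1025 (.lg 0 true 2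
  67 67 23 0 2928) .out))) .out) .out) (.nx 485 1321124 (.nr 484 2097153 (.nr 474 154 .s1 (.nx 476
  244 (.nr 475 1747 (.l1 (.ls 31 37 389)) (.l1 .sk)) (.nx 477 245 (.l1 .sk) (.nx 480 26009 (.lg 0
  false 3 97 101 37 0 3381840) (.nr 483 65537 (.nx 481 165142 (.lg 0 false 1 97 97 31 0 3381840)
  (.nr 482 1025 (.lg 0 true 1 73 73 31 0 225456) .out)) .out))))) .out) .out)) (.na 499 164 (.nx
  498 1321124 (.nr 497 2097153 (.nr 487 158 .s1 (.nx 490 245 (.nx 489 244 (.nr 488 1814 (.l1 (.ls
  19 29 379)) (.l1 .sk)) (.l1 .sk)) (.nx 493 26009 (.lg 0 false 3 89 89 23 0 8784) (.nr 496 65537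
  (.nx 494 165142 (.lg 0 false 1 89 89 19 0 161040) (.nr 495 1025 (.lg 0 false 1 67 67 19 0 2928)
  .out)) .out)))) .out) .out) (.nx 511 1321124 (.nr 510 2097153 (.nr 500 164 .s1 (.nx 503 245 (.nx
  502 244 (.nr 501 1902 (.l1 (.ls 23 29 366)) (.l1 .sk)) (.l1 .sk)) (.nx 508 165142 (.nx 506 26009
  (.lg 0 false 3 97 101 29 0 43920) (.nr 507 65537 (.lg 0 true 1 89 89 23 0 14640) .out)) (.nr 509
  1025 (.lg 0 true 1 71 71 23 0 2928) .out)))) .out) .out)))))) (.na 2342 725 (.na 613 236 (.na 564
  218 (.na 538 194 (.na 525 182 (.nx 524 1321124 (.nr 523 2097153 (.nr 513 172 .s1 (.nx 521 165142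
  (.nx 515 244 (.nr 514 2013 (.l1 (.ls 29 29 349)) (.l1 .sk)) (.nx 516 245 (.l1 .sk) (.nx 519 26009
  (.lg 0 false 3 101 101 29 0 483120) (.nr 520 65537 (.lg 0 true 1 89 89 23 0 2928) .out)))) (.nr
  522 1025 (.lg 0 true 1 71 71 23 0 2928) .out))) .out) .out) (.nx 537 1321124 (.nr 536 1482912
  (.nr 526 182 .s1 (.nx 528 244 (.nr 527 2145 (.l1 (.ls 31 37 330)) (.l1 .sk)) (.nx 529 245 (.l1
  .sk) (.nx 532 26009 (.lg 0 false 3 97 101 37 0 3996720) (.nr 535 65537 (.nx 533 165142 (.lg 0
  true 1 89 89 31 0 266448) (.nr 534 1025 (.lg 0 true 1 71 71 31 0 266448) .out)) .out))))) .out)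
  .out)) (.na 551 196 (.nx 550 1321124 (.nr 549 1482912 (.nr 539 194 .s1 (.nx 542 245 (.nx 541 244
  (.nr 540 2168 (.l1 (.ls 19 29 309)) (.l1 .sk)) (.l1 .sk)) (.nx 545 41287 (.lg 0 false 3 83 83 29
  0 8784) (.nr 548 16385 (.nr 546 1025 (.lg 0 false 1 67 67 19 0 2928) (.nx 547 165142 (.lg 2 false
  1 53 53 19 19656 2928) .out)) .out)))) .out) .out) (.nx 563 1321124 (.nr 562 1482912 (.nr 552 196
  .s1 (.nx 555 245 (.nx 554 244 (.nr 553 2411 (.l1 (.ls 29 31 306)) (.l1 .sk)) (.l1 .sk)) (.nx 558
  26009 (.lg 0 false 3 89 97 31 0 307440) (.nr 561 65537 (.nx 559 165142 (.lg 0 true 1 83 83 29 0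
  20496) (.nr 560 1025 (.lg 0 true 1 67 67 29 0 20496) .out)) .out)))) .out) .out))) (.na 588 226
  (.na 577 220 (.nx 576 1321124 (.nr 575 1482912 (.nr 565 218 .s1 (.nx 567 244 (.nr 566 2433 (.l1
  (.ls 19 29 276)) (.l1 .sk)) (.nx 568 245 (.l1 .sk) (.nx 571 41287 (.lg 0 false 3 83 83 29 0 8784)
  (.nr 574 16385 (.nr 572 1025 (.lg 0 false 1 67 67 23 0 102480) (.nx 573 165142 (.lg 2 false 1 53
  53 23 19656 102480) .out)) .out))))) .out) .out) (.nx 587 1321124 (.nr 586 1482912 (.nr 578 220
  .s1 (.nx 581 245 (.nx 580 244 (.nr 579 2499 (.l1 (.ls 37 31 273)) (.l1 .sk)) (.l1 .sk)) (.nr 584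
  65537 (.nx 582 165142 (.lg 0 true 1 89 97 37 0 161040) (.nr 583 1025 (.lg 0 true 1 73 73 37 0
  161040) .out)) (.nx 585 26009 (.lg 0 false 1 97 101 37 0 161040) .out)))) .out) .out)) (.na 601
  230 (.nx 600 1321124 (.nr 599 1482912 (.nr 589 226 .s1 (.nx 592 245 (.nx 591 244 (.nr 590 2543
  (.l1 (.ls 19 29 266)) (.l1 .sk)) (.l1 .sk)) (.nx 595 41287 (.lg 0 false 3 83 83 29 0 8784) (.nr
  598 16385 (.lg 0 true 3 73 73 29 0 8784) .out)))) .out) .out) (.nx 612 1321124 (.nr 611 1482912
  (.nr 602 230 .s1 (.nx 605 245 (.nx 604 244 (.nr 603 2610 (.l1 (.ls 19 31 261)) (.l1 .sk)) (.l1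
  .sk)) (.nx 607 26009 (.lg 0 false 2 97 97 37 0 102480) (.nr 610 65537 (.nx 608 165142 (.lg 0
  false 1 89 89 31 0 102480) (.nr 609 1025 (.lg 0 true 1 67 67 31 0 14640) .out)) .out)))) .out)
  .out)))) (.na 662 256 (.na 638 244 (.na 625 242 (.nx 624 1321124 (.nr 623 1482912 (.nr 614 236
  .s1 (.nx 617 245 (.nx 616 244 (.nr 615 2676 (.l1 (.ls 29 29 255)) (.l1 .sk)) (.l1 .sk)) (.nx 619
  26009 (.lg 0 false 2 89 89 29 0 2928) (.nr 622 65537 (.nx 620 165142 (.lg 0 true 1 83 83 23 0
  2928) (.nr 621 1025 (.lg 0 true 1 67 67 23 0 2928) .out)) .out)))) .out) .out) (.nx 637 1321124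
  (.nr 636 1482912 (.nr 626 242 .s1 (.nx 632 41287 (.nx 628 244 (.nr 627 2698 (.l1 (.ls 23 31 249))
  (.l1 .sk)) (.nx 629 245 (.l1 .sk) (.lg 0 false 3 83 83 31 0 96624))) (.nr 635 16385 (.nr 633 1025
  (.lg 0 false 1 67 67 29 0 32208) (.nx 634 165142 (.lg 2 false 1 53 53 29 19656 161040) .out))
  .out))) .out) .out)) (.na 649 250 (.nx 648 1321124 (.nr 647 1482912 (.nr 639 244 .s1 (.nx 645
  41287 (.nx 641 244 (.nr 640 2765 (.l1 (.ls 37 29 246)) (.l1 .sk)) (.nx 642 245 (.l1 .sk) (.lg 0
  false 3 83 83 29 0 8784))) (.nr 646 16385 (.lg 0 false 1 83 83 23 0 2928) .out))) .out) .out)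
  (.nx 661 1321124 (.nr 660 1482912 (.nr 650 250 .s1 (.nx 653 245 (.nx 652 244 (.nr 651 2831 (.l1
  (.ls 19 29 241)) (.l1 .sk)) (.l1 .sk)) (.nx 656 41287 (.lg 0 false 3 83 83 31 0 43920) (.nr 659
  16385 (.nr 657 1025 (.lg 0 false 1 67 67 29 0 102480) (.nx 658 165142 (.lg 2 true 1 47 47 29
  19656 14640) .out)) .out)))) .out) .out))) (.na 1094 363 (.na 663 257 .ne (.nx 1093 1321124 (.nr
  1092 1482912 (.nr 664 257 .s1 (.nx 985 165142 (.nx 772 245 (.nx 771 244 (.nr 770 4014 (.la (.ls
  53 19 234)) (.l1 .sk)) (.l1 .sk)) (.nx 878 26009 (.la (.lg 0 false 2 83 83 23 0)) (.nr 984 32769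
  (.la (.lg 0 true 1 73 73 23 0)) .out))) (.nr 1091 2049 (.la (.lg 0 true 1 67 67 23 0)) .out)))
  .out) .out)) (.na 1697 512 (.nx 1696 1321124 (.nr 1695 1482912 (.nr 1095 363 .s1 (.nx 1545 165142
  (.nx 1395 26009 (.nx 1245 244 (.nr 1244 5662 (.la (.ls 47 23 167)) (.l1 .sk)) (.nx 1246 245 (.l1
  .sk) (.la (.lg 0 false 1 79 79 23 0)))) (.nr 1544 32769 (.la (.lg 0 true 1 71 71 23 0)) .out))
  (.nr 1694 2049 (.la (.lg 0 true 1 67 67 23 0)) .out))) .out) .out) (.nx 2341 1321124 (.nr 2340
  1482912 (.nr 1698 512 .s1 (.nx 1913 245 (.nx 1912 244 (.nr 1911 8017 (.la (.ls 47 23 182)) (.l1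
  .sk)) (.l1 .sk)) (.nx 2126 26009 (.la (.lg 0 false 1 79 79 29 0)) (.nr 2339 32769 (.la (.lg 0
  true 1 79 79 29 0)) .out)))) .out) .out))))) (.na 15122 11586 (.na 5852 2897 (.na 3798 1449 (.na
  2944 1024 (.nx 2943 20644 (.nr 2942 2097153 (.nr 2343 725 .s1 (.nx 2642 2049 (.la (.ls 73 37
  5793)) (.nr 2941 262145 (.la (.lg 0 false 1 59 67 29 0)) .out))) .out) .out) (.nx 3797 20644 (.nr
  3796 2097153 (.nr 2945 1024 .s1 (.nx 3370 3252 (.la (.ls 73 41 10330)) (.nr 3795 131073 (.la (.lg
  0 false 1 53 53 31 0)) .out))) .out) .out)) (.na 5000 2048 (.nx 4999 13005 (.nr 4998 2097153 (.nr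
  3799 1449 .s1 (.nx 4398 3252 (.la (.ls 107 41 7301)) (.nr 4997 16385 (.la (.lg 0 false 1 29 31 31
  0)) .out))) .out) .out) (.nx 5851 13005 (.nr 5850 2097153 (.nr 5001 2048 .s1 (.la (.ls 67 53
  82586))) .out) .out))) (.na 8754 5793 (.na 7054 4096 (.nx 7053 4097 (.nr 7052 1048577 (.nr 5853
  2897 .s1 (.la (.ls 89 41 5797))) .out) .out) (.nx 8753 5162 (.nr 8752 1048577 (.nr 7055 4096 .s1
  (.la (.ls 83 41 6508))) .out) .out)) (.na 11401 8192 (.nx 11400 2049 (.nr 11399 524289 (.nr 8755
  5793 .s1 (.nx 8999 244 (.nr 8998 90577 (.lx (.lp 47 37 2049)) (.l1 .sk)) (.nx 9000 245 (.l1 .sk)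
  (.la (.ls 67 37 2049))))) .out) .out) (.nx 15121 2049 (.nr 15120 524289 (.nr 11402 8192 .s1 (.nx
  11646 244 (.nr 11645 128103 (.lx (.lp 47 41 2897)) (.l1 .sk)) (.nx 11647 245 (.l1 .sk) (.nx 11726
  324 (.lx (.lp 17 0 2897)) (.la (.ls 59 41 2897)))))) .out) .out)))) (.na 22907 131072 (.na 19225
  32768 (.na 17173 16384 (.nx 17172 2049 (.nr 17171 131073 (.nr 15123 11586 .s1 (.lx (.lp 47 41
  4097))) .out) .out) (.nx 19224 2049 (.nr 19223 262145 (.nr 17174 16384 .s1 (.nx 17497 324 (.lx
  (.lp 53 43 8193)) (.nr 19222 131073 (.lx (.lp 47 43 8193)) .out))) .out) .out)) (.na 21277 65536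
  (.nx 21276 2049 (.nr 21275 524289 (.nr 19226 32768 .s1 (.nx 19549 324 (.lx (.lp 59 43 16385))
  (.nr 21274 262145 (.lx (.lp 47 47 16385)) .out))) .out) .out) (.nx 22906 1627 (.nr 22905 524289
  (.nr 21278 65536 .s1 (.nx 21601 324 (.lx (.lp 16 0 32769)) (.nr 22904 262145 (.lx (.lp 43 53
  32769)) .out))) .out) .out))) (.na 25052 524288 (.na 24537 262144 (.nx 24536 1627 (.nr 24535
  524289 (.nr 22908 131072 .s1 (.nx 23420 513 (.lx (.lp 43 53 65537)) (.nr 24534 262145 (.lx (.lp
  41 59 65537)) .out))) .out) .out) (.nx 25051 513 (.nr 25050 1048577 (.nr 24538 262144 .s1 (.lx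
  (.lp 16 0 131073))) .out) .out)) (.na 25054 1048577 (.nx 25053 324 (.l1 .sk) .out) .out))))))

def T38_1 : Ph :=
  (.na 720 10 (.na 427 3 (.na 1 2 .ne (.nx 426 3329023 (.nr 425 1763489 (.nx 413 2642247 (.nx 3 244
  (.nr 2 30 (.lg 0 false 1 41 41 5 0 2928) (.l1 .sk)) (.nx 4 245 (.l1 .sk) (.nx 113 39350 (.nr 43
  220437 (.lg 0 false 39 107 109 13 0 43963920) (.nx 79 26007 (.nx 65 13003 (.nx 64 408 (.lg 0
  false 21 89 89 11 0 61488) .out) (.nr 78 262145 (.lg 0 false 13 103 107 9 0 43963920) .out)) (.nr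
  112 311745 (.lg 0 false 33 101 109 13 0 43963920) .out))) (.nr 412 311745 (.nx 390 1321124 (.nr
  146 941 (.lg 0 true 33 101 103 13 0 3381840) (.nx 389 1048577 (.nx 185 52017 (.lg 1 false 39 103
  107 13 236021 43963920) (.nr 388 262145 (.nx 251 82572 (.nx 218 65537 (.lg 1 false 33 103 109 13
  150160 43963920) (.lg 1 false 33 103 109 13 119183 43963920)) (.nr 387 220437 (.nr 264 3446 (.lg
  2 true 13 97 101 9 135948 1332240) (.nx 386 832257 (.nr 273 12637 (.lg 2 true 9 101 103 9 29465
  307440) (.nx 306 116773 (.lg 1 false 33 103 109 13 79559 43963920) (.nx 339 165142 (.lg 1 false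
  33 103 109 13 56257 43963920) (.nr 385 155873 (.nr 348 46342 (.lg 2 false 9 101 103 9 8398
  307440) (.nr 366 92683 (.lg 2 false 18 103 107 11 16751 43963920) (.nx 384 262145 (.lg 2 false 18
  107 109 11 28142 43963920) .out))) .out)))) .out)) .out)) .out)) .out)) (.nr 411 154 (.lg 0 true
  21 89 89 11 0 61488) .out)) .out)))) (.nr 424 9 (.lg 0 true 11 71 71 9 0 32208) .out)) .out)
  .out)) (.na 428 4 .ne (.na 719 5 (.nx 718 21137969 (.nr 717 1246976 (.nx 430 244 (.nr 429 54 (.lg
  0 true 1 37 37 9 0 2928) (.l1 .sk)) (.nx 431 245 (.l1 .sk) (.nx 650 660563 (.nx 480 41826 (.nr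
  470 262145 (.lg 0 false 39 103 109 19 0 43963920) (.nx 479 408 (.lg 0 false 9 83 83 13 0 8784)
  .out)) (.nr 649 311745 (.nr 493 730 (.lg 0 true 13 89 89 13 0 38064) (.nx 536 82570 (.nr 535
  262145 (.nx 514 58767 (.lg 1 false 21 103 109 13 186748 43963920) (.lg 1 false 21 103 109 13
  132913 43963920)) .out) (.nr 543 2912 (.lg 2 true 7 97 101 11 110396 1127280) (.nr 550 11616 (.lg
  2 true 7 97 101 11 27675 1127280) (.nx 627 262145 (.nx 592 152899 (.nx 571 112360 (.lg 1 false 21
  103 109 13 112479 43963920) (.lg 1 false 21 103 109 13 82657 43963920)) (.nx 613 208065 (.lg 1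
  false 21 103 109 13 60742 43963920) (.nr 626 185365 (.lg 1 true 13 103 109 13 26556 43963920)
  .out))) (.nr 648 131073 (.nr 634 46342 (.lg 2 false 7 97 101 11 6938 1127280) (.nx 647 330282
  (.lg 1 true 13 103 109 13 14912 43963920) .out)) .out)))))) .out)) (.nr 716 183 (.nr 702 33 (.lg
  0 true 52 79 79 13 0 38064) (.nx 715 2642247 (.lg 0 true 13 83 89 13 0 38064) .out)) .out))))
  .out) .out) .ne))) (.na 822 14 (.na 821 12 (.nx 820 2642247 (.nr 819 1246976 (.nx 811 1321124
  (.nx 722 244 (.nr 721 132 (.lg 0 true 1 31 31 11 0 14640) (.l1 .sk)) (.nx 723 245 (.l1 .sk) (.nx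
  724 324 (.l1 (.ls 89 43 4498)) (.nr 810 1048577 (.nx 755 65536 (.nx 725 408 (.l1 (.ls 89 47
  6151)) (.nr 754 741457 (.nr 746 262145 (.lg 0 false 21 103 109 23 0 43963920) (.nx 753 1292 (.lg
  0 false 7 83 89 13 0 102480) .out)) .out)) (.nr 809 311745 (.nr 766 1107 (.lg 0 true 11 89 89 19
  0 161040) (.nx 773 92681 (.lg 1 false 7 103 107 13 141714 43963920) (.nr 780 9290 (.lg 2 true 7
  89 97 13 145599 102480) (.nx 801 262145 (.nx 787 131072 (.lg 1 false 7 103 107 13 100208
  43963920) (.nx 794 185364 (.lg 1 false 7 103 107 13 70857 43963920) (.lg 1 true 7 103 107 13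
  50104 43963920))) (.nr 808 185365 (.lg 2 false 7 103 107 13 21077 43963920) .out))))) .out))
  .out)))) (.nr 818 65 (.lg 0 true 7 73 73 13 0 102480) .out)) .out) .out) .ne) (.na 901 16 (.nx
  900 2642247 (.nr 899 1246976 (.nx 828 408 (.nx 824 244 (.nr 823 177 (.lg 0 false 1 31 31 11 0
  102480) (.l1 .sk)) (.nx 825 245 (.l1 .sk) (.nx 826 324 (.l1 (.ls 89 43 3213)) (.nr 827 1048577
  (.l1 (.ls 89 43 4395)) .out)))) (.nr 898 741457 (.nx 845 41285 (.nr 839 220437 (.lg 0 false 11
  103 107 19 0 43963920) (.nx 844 1627 (.lg 0 false 5 89 89 13 0 102480) .out)) (.nr 897 311745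
  (.nx 889 660563 (.nr 852 3405 (.nr 850 776 (.lg 0 true 5 83 83 13 0 102480) (.lg 2 true 2 83 83
  13 103852 20496)) (.nx 864 82570 (.nr 863 262145 (.lg 1 false 11 101 109 19 189195 43963920)
  .out) (.nx 875 165142 (.lg 1 false 11 103 109 19 112479 43963920) (.nr 888 262145 (.nx 878 208065
  (.lg 1 false 3 101 103 13 47298 307440) (.nr 887 220437 (.lg 2 false 9 103 107 19 31574 43963920)
  .out)) .out)))) (.nr 896 65 (.lg 0 true 7 71 71 13 0 20496) .out)) .out)) .out)) .out) .out) (.na
  902 20 .ne (.nx 949 2642247 (.nr 948 1246976 (.nr 903 13 .s1 (.nx 944 660563 (.nx 905 244 (.nr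
  904 243 (.lg 0 false 1 37 37 13 0 102480) (.l1 .sk)) (.nx 906 245 (.l1 .sk) (.nr 937 311745 (.nr
  933 220437 (.nx 915 56917 (.lg 0 false 9 103 109 23 0 43963920) (.nr 918 1726 (.lg 0 true 3 97 97
  19 0 307440) (.nx 932 524289 (.nr 919 11600 (.lg 2 false 1 97 97 13 37059 102480) (.nx 925 208065
  (.nx 922 108823 (.lg 1 false 3 107 109 19 115419 43963920) (.lg 1 true 3 107 109 19 60367
  43963920)) (.nr 931 155873 (.nx 928 262145 (.lg 1 true 3 97 101 19 22336 307440) (.nr 930 92683
  (.lg 2 false 2 97 97 17 10553 102480) .out)) .out))) .out))) (.nx 936 13005 (.lg 0 false 3 97 101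
  19 0 307440) .out)) (.nx 943 1627 (.nr 940 741457 (.lg 0 false 3 89 97 19 0 307440) (.nx 942 408
  (.lg 0 false 2 73 73 17 0 14640) .out)) .out)))) (.nr 947 129 (.lg 0 true 3 79 79 19 0 43920)
  .out))) .out) .out)))))

theorem c38 :
    OkQ ckI L10 244 22 1099511627776 0 34359738368 1 1099511627776 ∧
    OkQ ckI L10 244 1 22 0 34359738368 1 1099511627776 := by
  refine ⟨?_, ?_⟩
  · refine fin 1464 25055 T38_0 ?_
    refine jn 5 (by decide +kernel) ?_
    refine jn 11 (by decide +kernel) ?_
    refine jn 14 (by decide +kernel) ?_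
    refine jn 19 (by decide +kernel) ?_
    refine jn 26 (by decide +kernel) ?_
    refine jn 35 (by decide +kernel) ?_
    refine jn 50 (by decide +kernel) ?_
    refine jn 58 (by decide +kernel) ?_
    refine jn 65 (by decide +kernel) ?_
    refine jn 71 (by decide +kernel) ?_
    refine jn 81 (by decide +kernel) ?_
    refine jn 93 (by decide +kernel) ?_
    refine jn 96 (by decide +kernel) ?_
    refine jn 97 (by decide +kernel) ?_
    refine jn 98 (by decide +kernel) ?_
    refine jn 99 (by decide +kernel) ?_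
    refine jn 101 (by decide +kernel) ?_
    refine jn 102 (by decide +kernel) ?_
    refine jn 106 (by decide +kernel) ?_
    refine jn 108 (by decide +kernel) ?_
    refine jn 116 (by decide +kernel) ?_
    refine jn 124 (by decide +kernel) ?_
    refine jn 133 (by decide +kernel) ?_
    refine jn 134 (by decide +kernel) ?_
    refine jn 135 (by decide +kernel) ?_
    refine jn 136 (by decide +kernel) ?_
    refine jn 137 (by decide +kernel) ?_
    refine jn 139 (by decide +kernel) ?_
    refine jn 142 (by decide +kernel) ?_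
    refine jn 153 (by decide +kernel) ?_
    refine jn 162 (by decide +kernel) ?_
    refine jn 167 (by decide +kernel) ?_
    refine jn 180 (by decide +kernel) ?_
    refine jn 187 (by decide +kernel) ?_
    refine jn 194 (by decide +kernel) ?_
    refine jn 202 (by decide +kernel) ?_
    refine jn 204 (by decide +kernel) ?_
    refine jn 206 (by decide +kernel) ?_
    refine jn 209 (by decide +kernel) ?_
    refine jn 218 (by decide +kernel) ?_
    refine jn 224 (by decide +kernel) ?_
    refine jn 225 (by decide +kernel) ?_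
    refine jn 226 (by decide +kernel) ?_
    refine jn 227 (by decide +kernel) ?_
    refine jn 229 (by decide +kernel) ?_
    refine jn 234 (by decide +kernel) ?_
    refine jn 244 (by decide +kernel) ?_
    refine jn 247 (by decide +kernel) ?_
    refine jn 252 (by decide +kernel) ?_
    refine jn 255 (by decide +kernel) ?_
    refine jn 265 (by decide +kernel) ?_
    refine jn 275 (by decide +kernel) ?_
    refine jn 283 (by decide +kernel) ?_
    refine jn 299 (by decide +kernel) ?_
    refine jn 304 (by decide +kernel) ?_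
    refine jn 317 (by decide +kernel) ?_
    refine jn 331 (by decide +kernel) ?_
    refine jn 335 (by decide +kernel) ?_
    refine jn 345 (by decide +kernel) ?_
    refine jn 348 (by decide +kernel) ?_
    refine jn 362 (by decide +kernel) ?_
    refine jn 379 (by decide +kernel) ?_
    refine jn 388 (by decide +kernel) ?_
    refine jn 391 (by decide +kernel) ?_
    refine jn 404 (by decide +kernel) ?_
    refine jn 409 (by decide +kernel) ?_
    refine jn 422 (by decide +kernel) ?_
    refine jn 432 (by decide +kernel) ?_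
    refine jn 434 (by decide +kernel) ?_
    refine jn 435 (by decide +kernel) ?_
    refine jn 437 (by decide +kernel) ?_
    refine jn 450 (by decide +kernel) ?_
    refine jn 465 (by decide +kernel) ?_
    refine jn 480 (by decide +kernel) ?_
    refine jn 488 (by decide +kernel) ?_
    refine jn 495 (by decide +kernel) ?_
    refine jn 507 (by decide +kernel) ?_
    refine jn 519 (by decide +kernel) ?_
    refine jn 527 (by decide +kernel) ?_
    refine jn 533 (by decide +kernel) ?_
    refine jn 546 (by decide +kernel) ?_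
    refine jn 558 (by decide +kernel) ?_
    refine jn 571 (by decide +kernel) ?_
    refine jn 581 (by decide +kernel) ?_
    refine jn 582 (by decide +kernel) ?_
    refine jn 585 (by decide +kernel) ?_
    refine jn 602 (by decide +kernel) ?_
    refine jn 608 (by decide +kernel) ?_
    refine jn 619 (by decide +kernel) ?_
    refine jn 632 (by decide +kernel) ?_
    refine jn 646 (by decide +kernel) ?_
    refine jn 664 (by decide +kernel) ?_
    refine jn 705 (by decide +kernel) ?_
    refine jn 757 (by decide +kernel) ?_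
    refine jn 775 (by decide +kernel) ?_
    refine jn 776 (by decide +kernel) ?_
    refine jn 789 (by decide +kernel) ?_
    refine jn 799 (by decide +kernel) ?_
    refine jn 801 (by decide +kernel) ?_
    refine jn 807 (by decide +kernel) ?_
    refine jn 813 (by decide +kernel) ?_
    refine jn 823 (by decide +kernel) ?_
    refine jn 824 (by decide +kernel) ?_
    refine jn 831 (by decide +kernel) ?_
    refine jn 837 (by decide +kernel) ?_
    refine jn 853 (by decide +kernel) ?_
    refine jn 877 (by decide +kernel) ?_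
    refine jn 883 (by decide +kernel) ?_
    refine jn 905 (by decide +kernel) ?_
    refine jn 913 (by decide +kernel) ?_
    refine jn 929 (by decide +kernel) ?_
    refine jn 931 (by decide +kernel) ?_
    refine jn 943 (by decide +kernel) ?_
    refine jn 984 (by decide +kernel) ?_
    refine jn 988 (by decide +kernel) ?_
    refine jn 989 (by decide +kernel) ?_
    refine jn 1012 (by decide +kernel) ?_
    refine jn 1020 (by decide +kernel) ?_
    refine jn 1036 (by decide +kernel) ?_
    refine jn 1038 (by decide +kernel) ?_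
    refine jn 1050 (by decide +kernel) ?_
    refine jn 1096 (by decide +kernel) ?_
    refine jn 1168 (by decide +kernel) ?_
    refine jn 1232 (by decide +kernel) ?_
    refine jn 1247 (by decide +kernel) ?_
    refine jn 1248 (by decide +kernel) ?_
    refine jn 1277 (by decide +kernel) ?_
    refine jn 1305 (by decide +kernel) ?_
    refine jn 1317 (by decide +kernel) ?_
    refine jn 1329 (by decide +kernel) ?_
    refine jn 1341 (by decide +kernel) ?_
    refine jn 1343 (by decide +kernel) ?_
    refine jn 1344 (by decide +kernel) ?_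
    refine jn 1373 (by decide +kernel) ?_
    refine jn 1385 (by decide +kernel) ?_
    refine jn 1396 (by decide +kernel) ?_
    refine jn 1418 (by decide +kernel) ?_
    refine jn 1454 (by decide +kernel) ?_
    refine jn 1468 (by decide +kernel) ?_
    refine jn 1486 (by decide +kernel) ?_
    refine jn 1492 (by decide +kernel) ?_
    refine jn 1516 (by decide +kernel) ?_
    refine jn 1534 (by decide +kernel) ?_
    refine jn 1546 (by decide +kernel) ?_
    refine jn 1570 (by decide +kernel) ?_
    refine jn 1612 (by decide +kernel) ?_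
    refine jn 1628 (by decide +kernel) ?_
    refine jn 1642 (by decide +kernel) ?_
    refine jn 1666 (by decide +kernel) ?_
    refine jn 1684 (by decide +kernel) ?_
    refine jn 1758 (by decide +kernel) ?_
    refine jn 1790 (by decide +kernel) ?_
    refine jn 1836 (by decide +kernel) ?_
    refine jn 1896 (by decide +kernel) ?_
    refine jn 1949 (by decide +kernel) ?_
    refine jn 1957 (by decide +kernel) ?_
    refine jn 1973 (by decide +kernel) ?_
    refine jn 1975 (by decide +kernel) ?_
    refine jn 1991 (by decide +kernel) ?_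
    refine jn 1999 (by decide +kernel) ?_
    refine jn 2005 (by decide +kernel) ?_
    refine jn 2021 (by decide +kernel) ?_
    refine jn 2023 (by decide +kernel) ?_
    refine jn 2045 (by decide +kernel) ?_
    refine jn 2051 (by decide +kernel) ?_
    refine jn 2071 (by decide +kernel) ?_
    refine jn 2083 (by decide +kernel) ?_
    refine jn 2101 (by decide +kernel) ?_
    refine jn 2111 (by decide +kernel) ?_
    refine jn 2152 (by decide +kernel) ?_
    refine jn 2164 (by decide +kernel) ?_
    refine jn 2186 (by decide +kernel) ?_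
    refine jn 2188 (by decide +kernel) ?_
    refine jn 2204 (by decide +kernel) ?_
    refine jn 2212 (by decide +kernel) ?_
    refine jn 2218 (by decide +kernel) ?_
    refine jn 2234 (by decide +kernel) ?_
    refine jn 2236 (by decide +kernel) ?_
    refine jn 2258 (by decide +kernel) ?_
    refine jn 2264 (by decide +kernel) ?_
    refine jn 2284 (by decide +kernel) ?_
    refine jn 2296 (by decide +kernel) ?_
    refine jn 2314 (by decide +kernel) ?_
    refine jn 2324 (by decide +kernel) ?_
    refine jn 2384 (by decide +kernel) ?_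
    refine jn 2438 (by decide +kernel) ?_
    refine jn 2486 (by decide +kernel) ?_
    refine jn 2534 (by decide +kernel) ?_
    refine jn 2598 (by decide +kernel) ?_
    refine jn 2647 (by decide +kernel) ?_
    refine jn 2687 (by decide +kernel) ?_
    refine jn 2707 (by decide +kernel) ?_
    refine jn 2737 (by decide +kernel) ?_
    refine jn 2755 (by decide +kernel) ?_
    refine jn 2777 (by decide +kernel) ?_
    refine jn 2785 (by decide +kernel) ?_
    refine jn 2815 (by decide +kernel) ?_
    refine jn 2827 (by decide +kernel) ?_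
    refine jn 2839 (by decide +kernel) ?_
    refine jn 2881 (by decide +kernel) ?_
    refine jn 2897 (by decide +kernel) ?_
    refine jn 2921 (by decide +kernel) ?_
    refine jn 2939 (by decide +kernel) ?_
    refine jn 2999 (by decide +kernel) ?_
    refine jn 3051 (by decide +kernel) ?_
    refine jn 3101 (by decide +kernel) ?_
    refine jn 3131 (by decide +kernel) ?_
    refine jn 3195 (by decide +kernel) ?_
    refine jn 3261 (by decide +kernel) ?_
    refine jn 3311 (by decide +kernel) ?_
    refine jn 3370 (by decide +kernel) ?_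
    refine jn 3422 (by decide +kernel) ?_
    refine jn 3446 (by decide +kernel) ?_
    refine jn 3476 (by decide +kernel) ?_
    refine jn 3496 (by decide +kernel) ?_
    refine jn 3526 (by decide +kernel) ?_
    refine jn 3544 (by decide +kernel) ?_
    refine jn 3560 (by decide +kernel) ?_
    refine jn 3598 (by decide +kernel) ?_
    refine jn 3644 (by decide +kernel) ?_
    refine jn 3686 (by decide +kernel) ?_
    refine jn 3710 (by decide +kernel) ?_
    refine jn 3736 (by decide +kernel) ?_
    refine jn 3772 (by decide +kernel) ?_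
    refine jn 3810 (by decide +kernel) ?_
    refine jn 3876 (by decide +kernel) ?_
    refine jn 3912 (by decide +kernel) ?_
    refine jn 3962 (by decide +kernel) ?_
    refine jn 4044 (by decide +kernel) ?_
    refine jn 4146 (by decide +kernel) ?_
    refine jn 4208 (by decide +kernel) ?_
    refine jn 4268 (by decide +kernel) ?_
    refine jn 4340 (by decide +kernel) ?_
    refine jn 4415 (by decide +kernel) ?_
    refine jn 4481 (by decide +kernel) ?_
    refine jn 4489 (by decide +kernel) ?_
    refine jn 4490 (by decide +kernel) ?_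
    refine jn 4535 (by decide +kernel) ?_
    refine jn 4561 (by decide +kernel) ?_
    refine jn 4601 (by decide +kernel) ?_
    refine jn 4657 (by decide +kernel) ?_
    refine jn 4723 (by decide +kernel) ?_
    refine jn 4769 (by decide +kernel) ?_
    refine jn 4770 (by decide +kernel) ?_
    refine jn 4835 (by decide +kernel) ?_
    refine jn 4871 (by decide +kernel) ?_
    refine jn 4927 (by decide +kernel) ?_
    refine jn 4987 (by decide +kernel) ?_
    refine jn 5015 (by decide +kernel) ?_
    refine jn 5063 (by decide +kernel) ?_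
    refine jn 5085 (by decide +kernel) ?_
    refine jn 5109 (by decide +kernel) ?_
    refine jn 5127 (by decide +kernel) ?_
    refine jn 5147 (by decide +kernel) ?_
    refine jn 5189 (by decide +kernel) ?_
    refine jn 5213 (by decide +kernel) ?_
    refine jn 5243 (by decide +kernel) ?_
    refine jn 5315 (by decide +kernel) ?_
    refine jn 5355 (by decide +kernel) ?_
    refine jn 5387 (by decide +kernel) ?_
    refine jn 5453 (by decide +kernel) ?_
    refine jn 5483 (by decide +kernel) ?_
    refine jn 5501 (by decide +kernel) ?_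
    refine jn 5525 (by decide +kernel) ?_
    refine jn 5555 (by decide +kernel) ?_
    refine jn 5637 (by decide +kernel) ?_
    refine jn 5675 (by decide +kernel) ?_
    refine jn 5733 (by decide +kernel) ?_
    refine jn 5805 (by decide +kernel) ?_
    refine jn 5813 (by decide +kernel) ?_
    refine jn 5823 (by decide +kernel) ?_
    refine jn 5904 (by decide +kernel) ?_
    refine jn 5966 (by decide +kernel) ?_
    refine jn 6024 (by decide +kernel) ?_
    refine jn 6102 (by decide +kernel) ?_
    refine jn 6170 (by decide +kernel) ?_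
    refine jn 6266 (by decide +kernel) ?_
    refine jn 6360 (by decide +kernel) ?_
    refine jn 6456 (by decide +kernel) ?_
    refine jn 6518 (by decide +kernel) ?_
    refine jn 6648 (by decide +kernel) ?_
    refine jn 6752 (by decide +kernel) ?_
    refine jn 6848 (by decide +kernel) ?_
    refine jn 6960 (by decide +kernel) ?_
    refine jn 7059 (by decide +kernel) ?_
    refine jn 7131 (by decide +kernel) ?_
    refine jn 7187 (by decide +kernel) ?_
    refine jn 7299 (by decide +kernel) ?_
    refine jn 7385 (by decide +kernel) ?_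
    refine jn 7482 (by decide +kernel) ?_
    refine jn 7581 (by decide +kernel) ?_
    refine jn 7691 (by decide +kernel) ?_
    refine jn 7781 (by decide +kernel) ?_
    refine jn 7893 (by decide +kernel) ?_
    refine jn 7995 (by decide +kernel) ?_
    refine jn 8069 (by decide +kernel) ?_
    refine jn 8177 (by decide +kernel) ?_
    refine jn 8291 (by decide +kernel) ?_
    refine jn 8403 (by decide +kernel) ?_
    refine jn 8489 (by decide +kernel) ?_
    refine jn 8627 (by decide +kernel) ?_
    refine jn 8753 (by decide +kernel) ?_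
    refine jn 9077 (by decide +kernel) ?_
    refine jn 9205 (by decide +kernel) ?_
    refine jn 9347 (by decide +kernel) ?_
    refine jn 9523 (by decide +kernel) ?_
    refine jn 9689 (by decide +kernel) ?_
    refine jn 9851 (by decide +kernel) ?_
    refine jn 10027 (by decide +kernel) ?_
    refine jn 10213 (by decide +kernel) ?_
    refine jn 10355 (by decide +kernel) ?_
    refine jn 10525 (by decide +kernel) ?_
    refine jn 10715 (by decide +kernel) ?_
    refine jn 10907 (by decide +kernel) ?_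
    refine jn 11075 (by decide +kernel) ?_
    refine jn 11243 (by decide +kernel) ?_
    refine jn 11402 (by decide +kernel) ?_
    refine jn 11752 (by decide +kernel) ?_
    refine jn 11938 (by decide +kernel) ?_
    refine jn 12140 (by decide +kernel) ?_
    refine jn 12368 (by decide +kernel) ?_
    refine jn 12560 (by decide +kernel) ?_
    refine jn 12770 (by decide +kernel) ?_
    refine jn 12946 (by decide +kernel) ?_
    refine jn 13160 (by decide +kernel) ?_
    refine jn 13402 (by decide +kernel) ?_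
    refine jn 13562 (by decide +kernel) ?_
    refine jn 13784 (by decide +kernel) ?_
    refine jn 14000 (by decide +kernel) ?_
    refine jn 14218 (by decide +kernel) ?_
    refine jn 14442 (by decide +kernel) ?_
    refine jn 14650 (by decide +kernel) ?_
    refine jn 14842 (by decide +kernel) ?_
    refine jn 15098 (by decide +kernel) ?_
    refine jn 15551 (by decide +kernel) ?_
    refine jn 15829 (by decide +kernel) ?_
    refine jn 16051 (by decide +kernel) ?_
    refine jn 16194 (by decide +kernel) ?_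
    refine jn 16316 (by decide +kernel) ?_
    refine jn 16424 (by decide +kernel) ?_
    refine jn 16516 (by decide +kernel) ?_
    refine jn 16604 (by decide +kernel) ?_
    refine jn 16696 (by decide +kernel) ?_
    refine jn 16770 (by decide +kernel) ?_
    refine jn 16846 (by decide +kernel) ?_
    refine jn 16920 (by decide +kernel) ?_
    refine jn 16991 (by decide +kernel) ?_
    refine jn 17055 (by decide +kernel) ?_
    refine jn 17111 (by decide +kernel) ?_
    refine jn 17170 (by decide +kernel) ?_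
    refine jn 17557 (by decide +kernel) ?_
    refine jn 17754 (by decide +kernel) ?_
    refine jn 17892 (by decide +kernel) ?_
    refine jn 18047 (by decide +kernel) ?_
    refine jn 18183 (by decide +kernel) ?_
    refine jn 18269 (by decide +kernel) ?_
    refine jn 18355 (by decide +kernel) ?_
    refine jn 18439 (by decide +kernel) ?_
    refine jn 18509 (by decide +kernel) ?_
    refine jn 18567 (by decide +kernel) ?_
    refine jn 18624 (by decide +kernel) ?_
    refine jn 18685 (by decide +kernel) ?_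
    refine jn 18743 (by decide +kernel) ?_
    refine jn 18797 (by decide +kernel) ?_
    refine jn 18843 (by decide +kernel) ?_
    refine jn 18891 (by decide +kernel) ?_
    refine jn 18935 (by decide +kernel) ?_
    refine jn 18975 (by decide +kernel) ?_
    refine jn 19019 (by decide +kernel) ?_
    refine jn 19061 (by decide +kernel) ?_
    refine jn 19107 (by decide +kernel) ?_
    refine jn 19144 (by decide +kernel) ?_
    refine jn 19182 (by decide +kernel) ?_
    refine jn 19226 (by decide +kernel) ?_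
    refine jn 19727 (by decide +kernel) ?_
    refine jn 19961 (by decide +kernel) ?_
    refine jn 20129 (by decide +kernel) ?_
    refine jn 20273 (by decide +kernel) ?_
    refine jn 20418 (by decide +kernel) ?_
    refine jn 20543 (by decide +kernel) ?_
    refine jn 20649 (by decide +kernel) ?_
    refine jn 20753 (by decide +kernel) ?_
    refine jn 20846 (by decide +kernel) ?_
    refine jn 20931 (by decide +kernel) ?_
    refine jn 21003 (by decide +kernel) ?_
    refine jn 21051 (by decide +kernel) ?_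
    refine jn 21115 (by decide +kernel) ?_
    refine jn 21183 (by decide +kernel) ?_
    refine jn 21253 (by decide +kernel) ?_
    refine jn 21774 (by decide +kernel) ?_
    refine jn 22123 (by decide +kernel) ?_
    refine jn 22309 (by decide +kernel) ?_
    refine jn 22458 (by decide +kernel) ?_
    refine jn 22623 (by decide +kernel) ?_
    refine jn 22784 (by decide +kernel) ?_
    refine jn 22908 (by decide +kernel) ?_
    refine jn 23563 (by decide +kernel) ?_
    refine jn 23961 (by decide +kernel) ?_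
    refine jn 24185 (by decide +kernel) ?_
    refine jn 24353 (by decide +kernel) ?_
    refine jn 24521 (by decide +kernel) ?_
    exact je (by decide +kernel)
  · refine fin 1464 950 T38_1 ?_
    refine jn 10 (by decide +kernel) ?_
    refine jn 17 (by decide +kernel) ?_
    refine jn 24 (by decide +kernel) ?_
    refine jn 31 (by decide +kernel) ?_
    refine jn 38 (by decide +kernel) ?_
    refine jn 43 (by decide +kernel) ?_
    refine jn 64 (by decide +kernel) ?_
    refine jn 79 (by decide +kernel) ?_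
    refine jn 111 (by decide +kernel) ?_
    refine jn 125 (by decide +kernel) ?_
    refine jn 139 (by decide +kernel) ?_
    refine jn 146 (by decide +kernel) ?_
    refine jn 169 (by decide +kernel) ?_
    refine jn 185 (by decide +kernel) ?_
    refine jn 212 (by decide +kernel) ?_
    refine jn 234 (by decide +kernel) ?_
    refine jn 251 (by decide +kernel) ?_
    refine jn 273 (by decide +kernel) ?_
    refine jn 293 (by decide +kernel) ?_
    refine jn 306 (by decide +kernel) ?_
    refine jn 325 (by decide +kernel) ?_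
    refine jn 339 (by decide +kernel) ?_
    refine jn 348 (by decide +kernel) ?_
    refine jn 366 (by decide +kernel) ?_
    refine jn 378 (by decide +kernel) ?_
    refine jn 411 (by decide +kernel) ?_
    refine jn 431 (by decide +kernel) ?_
    refine jn 433 (by decide +kernel) ?_
    refine jn 435 (by decide +kernel) ?_
    refine jn 437 (by decide +kernel) ?_
    refine jn 440 (by decide +kernel) ?_
    refine jn 443 (by decide +kernel) ?_
    refine jn 446 (by decide +kernel) ?_
    refine jn 448 (by decide +kernel) ?_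
    refine jn 450 (by decide +kernel) ?_
    refine jn 453 (by decide +kernel) ?_
    refine jn 455 (by decide +kernel) ?_
    refine jn 458 (by decide +kernel) ?_
    refine jn 461 (by decide +kernel) ?_
    refine jn 464 (by decide +kernel) ?_
    refine jn 466 (by decide +kernel) ?_
    refine jn 468 (by decide +kernel) ?_
    refine jn 479 (by decide +kernel) ?_
    refine jn 483 (by decide +kernel) ?_
    refine jn 486 (by decide +kernel) ?_
    refine jn 489 (by decide +kernel) ?_
    refine jn 492 (by decide +kernel) ?_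
    refine jn 493 (by decide +kernel) ?_
    refine jn 504 (by decide +kernel) ?_
    refine jn 514 (by decide +kernel) ?_
    refine jn 525 (by decide +kernel) ?_
    refine jn 535 (by decide +kernel) ?_
    refine jn 543 (by decide +kernel) ?_
    refine jn 550 (by decide +kernel) ?_
    refine jn 560 (by decide +kernel) ?_
    refine jn 570 (by decide +kernel) ?_
    refine jn 578 (by decide +kernel) ?_
    refine jn 587 (by decide +kernel) ?_
    refine jn 592 (by decide +kernel) ?_
    refine jn 601 (by decide +kernel) ?_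
    refine jn 611 (by decide +kernel) ?_
    refine jn 613 (by decide +kernel) ?_
    refine jn 624 (by decide +kernel) ?_
    refine jn 634 (by decide +kernel) ?_
    refine jn 647 (by decide +kernel) ?_
    refine jn 650 (by decide +kernel) ?_
    refine jn 654 (by decide +kernel) ?_
    refine jn 702 (by decide +kernel) ?_
    refine jn 715 (by decide +kernel) ?_
    refine jn 725 (by decide +kernel) ?_
    refine jn 730 (by decide +kernel) ?_
    refine jn 735 (by decide +kernel) ?_
    refine jn 739 (by decide +kernel) ?_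
    refine jn 744 (by decide +kernel) ?_
    refine jn 753 (by decide +kernel) ?_
    refine jn 761 (by decide +kernel) ?_
    refine jn 766 (by decide +kernel) ?_
    refine jn 773 (by decide +kernel) ?_
    refine jn 780 (by decide +kernel) ?_
    refine jn 787 (by decide +kernel) ?_
    refine jn 794 (by decide +kernel) ?_
    refine jn 801 (by decide +kernel) ?_
    refine jn 808 (by decide +kernel) ?_
    refine jn 818 (by decide +kernel) ?_
    refine jn 828 (by decide +kernel) ?_
    refine jn 833 (by decide +kernel) ?_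
    refine jn 838 (by decide +kernel) ?_
    refine jn 844 (by decide +kernel) ?_
    refine jn 850 (by decide +kernel) ?_
    refine jn 852 (by decide +kernel) ?_
    refine jn 863 (by decide +kernel) ?_
    refine jn 875 (by decide +kernel) ?_
    refine jn 878 (by decide +kernel) ?_
    refine jn 887 (by decide +kernel) ?_
    refine jn 896 (by decide +kernel) ?_
    refine jn 906 (by decide +kernel) ?_
    refine jn 907 (by decide +kernel) ?_
    refine jn 908 (by decide +kernel) ?_
    refine jn 909 (by decide +kernel) ?_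
    refine jn 910 (by decide +kernel) ?_
    refine jn 911 (by decide +kernel) ?_
    refine jn 912 (by decide +kernel) ?_
    refine jn 913 (by decide +kernel) ?_
    refine jn 914 (by decide +kernel) ?_
    refine jn 915 (by decide +kernel) ?_
    refine jn 916 (by decide +kernel) ?_
    refine jn 917 (by decide +kernel) ?_
    refine jn 918 (by decide +kernel) ?_
    refine jn 919 (by decide +kernel) ?_
    refine jn 921 (by decide +kernel) ?_
    refine jn 923 (by decide +kernel) ?_
    refine jn 925 (by decide +kernel) ?_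
    refine jn 928 (by decide +kernel) ?_
    refine jn 930 (by decide +kernel) ?_
    refine jn 940 (by decide +kernel) ?_
    refine jn 947 (by decide +kernel) ?_
    exact je (by decide +kernel)

end Pool.Agent.MP_2339ce_nt.NR
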