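import Pool.Agent.MP_2339ce_nt.Q2.NC.L9
import Pool.Agent.MP_2339ce_nt.Q2.NC.L10
import Pool.Agent.MP_2339ce_nt.Q2.CkI

/-! Block NR: runs. -/

set_option autoImplicit false
set_option maxRecDepth 100000

noncomputable section

namespace Pool.Agent.MP_2339ce_nt.NR

open Q2.Top

def T4_0 : Ph :=
  (.na 489 17 (.na 279 12 (.na 117 10 (.nx 116 16777217 (.nr 115 1048577 (.nx 86 2097153 (.nx 78
  1048577 (.nx 26 41285 (.nx 4 257 (.nx 2 215 (.nr 1 103 (.lg 0 true 1 37 37 7 0 340560) (.l1 .sk))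
  (.nx 3 216 (.l1 .sk) (.l1 (.ls 89 37 2157)))) (.nr 25 623489 (.nr 17 185365 (.lg 0 false 13 103
  109 16 0 30990960) (.nx 24 2049 (.lg 0 false 7 89 97 16 0 108360) .out)) .out)) (.nr 77 220437
  (.nr 33 764 (.lg 0 true 7 89 89 16 0 108360) (.nx 76 832257 (.nr 40 7077 (.lg 2 true 7 97 101 16
  117105 2383920) (.nx 47 61857 (.lg 1 false 7 101 103 16 123529 2383920) (.nx 54 92682 (.lg 1
  false 7 103 107 16 82446 30990960) (.nx 68 208065 (.nx 61 138866 (.lg 1 false 7 103 107 16 55026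
  30990960) (.lg 1 true 7 103 107 16 36725 30990960)) (.nr 75 110219 (.lg 2 false 7 101 103 16
  12643 2383920) .out))))) .out)) .out)) (.nr 85 154 (.lg 0 true 7 79 79 16 0 108360) .out)) (.nr
  114 65 (.lg 0 true 28 83 83 16 0 216720) .out)) .out) .out) (.na 200 11 (.nx 199 2097153 (.nr 198
  1048577 (.nx 120 216 (.nx 119 215 (.nr 118 114 (.lg 0 true 1 31 31 9 0 216720) (.l1 .sk)) (.l1
  .sk)) (.nx 188 660563 (.nx 121 257 (.l1 (.ls 83 41 1942)) (.nr 187 623489 (.nx 146 52015 (.nr 134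
  185365 (.lg 0 false 13 101 103 13 0 2817360) (.nx 145 1292 (.lg 0 false 11 83 83 13 0 2383920)
  .out)) (.nr 186 220437 (.nr 159 1778 (.lg 0 true 13 89 89 13 0 2817360) (.nx 172 104033 (.lg 1
  false 13 101 103 13 98047 2817360) (.nr 185 185365 (.lg 2 false 13 101 103 13 41230 2817360)
  .out))) .out)) .out)) (.nr 197 65 (.lg 0 true 9 67 67 13 0 30960) .out))) .out) .out) (.nx 278
  2097153 (.nr 277 1048577 (.nx 204 257 (.nx 202 215 (.nr 201 124 (.lg 0 true 1 37 37 9 0 2383920)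
  (.l1 .sk)) (.nx 203 216 (.l1 .sk) (.l1 (.ls 97 31 1766)))) (.nr 276 623489 (.nx 267 660563 (.nx
  222 52015 (.nr 217 185365 (.lg 0 false 13 103 109 16 0 30990960) (.nx 221 1292 (.lg 0 false 4 89
  89 16 0 340560) .out)) (.nr 266 220437 (.nr 230 946 (.lg 0 true 8 89 89 16 0 340560) (.nx 257
  208065 (.nx 243 104033 (.lg 1 false 13 101 107 16 98047 30990960) (.nr 256 185365 (.lg 1 true 13
  101 107 16 41230 30990960) .out)) (.nr 265 65537 (.nr 261 7221 (.lg 2 true 4 97 101 16 75064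
  2383920) (.lg 2 false 4 101 101 16 9834 2383920)) .out))) .out)) (.nr 275 65 (.lg 0 true 8 73 73
  16 0 340560) .out)) .out)) .out) .out))) (.na 393 15 (.na 342 14 (.nx 341 2097153 (.nr 340
  1048577 (.nx 282 216 (.nx 281 215 (.nr 280 145 (.lg 0 true 1 37 37 13 0 30960) (.l1 .sk)) (.l1
  .sk)) (.nx 283 257 (.l1 (.ls 97 41 1619)) (.nr 339 623489 (.nr 335 185365 (.nx 296 48160 (.lg 0
  false 13 103 109 29 0 30990960) (.nx 327 660563 (.nr 305 2194 (.nr 303 1112 (.lg 0 true 7 89 89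
  23 0 216720) (.lg 2 true 2 83 83 13 63859 30960)) (.nx 312 70783 (.lg 1 false 7 97 107 23 89063
  2383920) (.nx 319 104033 (.lg 1 false 7 97 107 23 60598 2383920) (.nr 326 155873 (.lg 2 false 7
  101 107 23 34678 2383920) .out)))) (.nr 334 65 (.lg 0 true 7 73 79 23 0 216720) .out))) (.nx 338
  1292 (.lg 0 false 3 89 97 19 0 30960) .out)) .out))) .out) .out) (.nx 392 2097153 (.nr 391
  1048577 (.nx 345 216 (.nx 344 215 (.nr 343 156 (.lg 0 true 1 31 31 11 0 216720) (.l1 .sk)) (.l1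
  .sk)) (.nx 346 257 (.l1 (.ls 89 41 1388)) (.nr 390 623489 (.nx 383 660563 (.nr 378 185365 (.nx
  359 70783 (.lg 0 false 13 103 107 19 0 30990960) (.nr 365 1168 (.lg 0 true 6 89 89 13 0 216720)
  (.lg 2 false 13 101 109 19 60797 30990960))) (.nx 382 1292 (.lg 0 false 4 89 89 13 0 216720)
  .out)) (.nr 389 65 (.lg 0 true 6 73 73 13 0 216720) .out)) .out))) .out) .out)) (.na 442 16 (.nx
  441 2097153 (.nr 440 1048577 (.nr 394 4 .s1 (.nx 396 215 (.nr 395 166 (.lg 0 false 1 31 31 16 0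
  216720) (.l1 .sk)) (.nx 397 216 (.l1 .sk) (.nx 434 660563 (.nx 398 257 (.l1 (.ls 83 37 1295))
  (.nr 433 623489 (.nr 428 185365 (.nx 409 70783 (.lg 0 false 11 103 107 17 0 30990960) (.nr 416
  2366 (.lg 0 true 7 89 89 17 0 108360) (.nx 420 104033 (.lg 1 false 4 101 101 16 60598 216720)
  (.nr 427 155873 (.lg 2 false 7 97 103 17 34678 216720) .out)))) (.nx 432 1292 (.lg 0 false 4 83
  83 16 0 30960) .out)) .out)) (.nr 439 65 (.lg 0 true 5 71 71 16 0 15480) .out))))) .out) .out)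
  (.nx 488 2097153 (.nr 487 1048577 (.nr 443 7 .s1 (.nx 446 216 (.nx 445 215 (.nr 444 176 (.lg 0
  false 1 37 37 11 0 30960) (.l1 .sk)) (.l1 .sk)) (.nx 447 324 (.l1 (.ls 97 41 3648)) (.nr 486
  623489 (.nr 482 262145 (.nr 478 185365 (.nx 474 660563 (.nx 454 48160 (.lg 0 false 7 101 107 19 0
  2383920) (.nr 457 773 (.lg 0 true 3 83 83 13 0 30960) (.nx 464 104033 (.lg 1 false 7 101 107 19
  89063 2383920) (.nr 473 155873 (.nr 466 3396 (.lg 2 true 2 89 89 13 91864 30960) (.lg 2 false 7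
  101 107 19 34678 2383920)) .out)))) (.nr 477 129 (.lg 0 true 3 79 79 13 0 30960) .out)) (.nx 481
  10323 (.lg 0 false 3 89 97 13 0 30960) .out)) (.nx 485 2049 (.lg 0 false 3 89 97 13 0 30960)
  .out)) .out)))) .out) .out)))) (.na 585 21 (.na 490 18 .ne (.na 542 20 (.nx 541 2097153 (.nr 540
  1048577 (.nr 491 11 .s1 (.nx 495 324 (.nx 493 215 (.nr 492 208 (.lg 0 false 1 29 29 13 0 216720)
  (.l1 .sk)) (.nx 494 216 (.l1 .sk) (.l1 (.ls 89 43 3243)))) (.nr 539 623489 (.nx 513 43686 (.nr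
  508 262145 (.lg 0 false 13 97 103 23 0 2817360) (.nx 512 2049 (.lg 0 false 4 89 89 19 0 216720)
  .out)) (.nr 538 155873 (.nr 524 751 (.lg 0 true 11 83 89 23 0 2383920) (.nx 537 416129 (.lg 2
  false 13 101 107 23 82581 30990960) .out)) .out)) .out))) .out) .out) (.nx 584 2097153 (.nr 583
  1048577 (.nr 543 14 .s1 (.nx 547 324 (.nx 545 215 (.nr 544 218 (.lg 0 true 1 29 29 13 0 30960)
  (.l1 .sk)) (.nx 546 216 (.l1 .sk) (.l1 (.ls 89 43 2919)))) (.nr 582 623489 (.nr 578 262145 (.nr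
  574 185365 (.nx 554 43686 (.lg 0 false 7 101 103 19 0 2383920) (.nr 573 155873 (.nr 561 751 (.lg
  0 true 7 83 83 19 0 216720) (.nx 572 416129 (.nr 568 131073 (.lg 2 false 7 103 107 19 69460
  30990960) (.nx 571 82572 (.lg 0 true 3 89 97 13 0 30960) .out)) .out)) .out)) (.nx 577 10323 (.lg
  0 false 3 89 89 13 0 30960) .out)) (.nx 581 2049 (.lg 0 false 3 83 83 13 0 30960) .out)) .out)))
  .out) .out))) (.na 668 23 (.na 629 22 (.nx 628 2097153 (.nr 627 1048577 (.nr 586 16 .s1 (.nx 622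
  416129 (.nx 589 216 (.nx 588 215 (.nr 587 228 (.lg 0 true 1 37 37 16 0 216720) (.l1 .sk)) (.l1
  .sk)) (.nx 590 324 (.l1 (.ls 89 41 2780)) (.nr 621 623489 (.nr 616 262145 (.nr 613 185365 (.nx
  594 43686 (.lg 0 false 4 101 103 17 0 216720) (.nr 612 155873 (.nr 598 2200 (.lg 0 true 4 89 89
  17 0 216720) (.nx 602 82572 (.lg 1 false 4 101 103 17 82581 2383920) (.nr 611 131073 (.nr 606
  77937 (.lg 2 false 4 89 101 17 21876 216720) (.nx 610 208065 (.lg 2 false 4 97 103 17 36749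
  2383920) .out)) .out))) .out)) (.nx 615 10323 (.lg 0 false 2 97 101 17 0 216720) .out)) (.nx 620
  2049 (.lg 0 false 4 83 89 17 0 216720) .out)) .out))) (.nr 626 257 (.lg 0 true 4 83 83 17 0
  216720) .out))) .out) .out) (.nx 667 2097153 (.nr 666 1048577 (.nr 630 17 .s1 (.nx 633 216 (.nx
  632 215 (.nr 631 239 (.lg 0 true 1 29 29 9 0 340560) (.l1 .sk)) (.l1 .sk)) (.nx 634 324 (.l1 (.ls
  89 43 2653)) (.nr 665 623489 (.nr 661 262145 (.nx 641 43686 (.lg 0 false 7 101 103 19 0 2383920)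
  (.nr 660 155873 (.nr 656 131073 (.nr 648 751 (.lg 0 true 7 89 89 19 0 2383920) (.nx 655 416129
  (.lg 2 false 7 101 103 19 69460 2383920) .out)) (.nx 659 82572 (.lg 0 true 3 97 97 13 0 340560)
  .out)) .out)) (.nx 664 2049 (.lg 0 false 3 89 89 13 0 340560) .out)) .out)))) .out) .out)) (.na
  669 24 .ne (.nx 709 2097153 (.nr 708 1048577 (.nr 670 20 .s1 (.nx 674 324 (.nx 672 215 (.nr 671
  260 (.lg 0 true 1 41 47 19 0 2383920) (.l1 .sk)) (.nx 673 216 (.l1 .sk) (.l1 (.ls 101 43 2433))))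
  (.nr 707 524289 (.nr 705 370729 (.nx 702 524289 (.nx 700 330282 (.nr 694 131073 (.nx 677 41287
  (.lg 0 false 3 103 107 29 0 2383920) (.nr 693 110219 (.nr 691 92683 (.nr 679 1642 (.lg 0 true 2
  89 89 23 0 30960) (.nr 680 4127 (.lg 2 false 1 83 83 19 21624 30960) (.nr 682 26075 (.lg 2 true 2
  83 83 23 14718 30960) (.nr 685 65537 (.lg 2 true 3 89 89 29 36809 30960) (.nx 690 262145 (.nx 687
  104033 (.lg 0 true 2 103 109 23 0 30990960) (.nr 689 77937 (.lg 0 true 2 103 107 23 0 2383920)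
  .out)) .out))))) (.nx 692 52017 (.lg 0 false 1 101 103 19 0 2383920) .out)) .out)) (.nx 699 20644
  (.nx 697 13005 (.lg 0 false 3 103 107 29 0 30990960) (.nr 698 185365 (.lg 0 false 1 101 103 19 0
  2383920) .out)) .out)) (.nr 701 257 (.lg 0 true 1 83 83 19 0 30960) .out)) (.nr 704 129 (.lg 0
  true 2 83 83 23 0 30960) .out)) (.nx 706 1292 (.lg 0 false 1 97 97 19 0 30960) .out)) .out)))
  .out) .out)))))

def T4_1 : Ph :=
  (.na 730 70 (.na 417 47 (.na 246 36 (.na 110 30 (.na 40 28 (.na 39 27 (.nx 38 2642247 (.nr 37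
  1048577 (.nr 1 22 .s1 (.nx 5 408 (.nx 3 231 (.nr 2 291 (.lg 0 true 1 31 31 11 0 48048) (.l1 .sk))
  (.nx 4 232 (.l1 .sk) (.l1 (.ls 89 43 4335)))) (.nr 36 741457 (.nx 30 660563 (.nr 22 185365 (.nx
  10 82572 (.lg 0 false 5 103 103 19 0 720720) (.nr 21 131073 (.nr 15 1875 (.lg 0 true 5 83 83 19 0
  240240) (.nx 20 524289 (.lg 2 false 5 97 101 19 42427 720720) .out)) .out)) (.nx 29 16385 (.nr 27
  524289 (.lg 0 false 5 97 101 19 0 720720) (.nx 28 2582 (.lg 0 true 1 97 97 11 0 720720) .out))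
  .out)) (.nr 35 129 (.lg 0 true 5 71 71 19 0 240240) .out)) .out))) .out) .out) (.lg 0 false 1 0 0
  7 0 24)) (.na 76 29 (.nx 75 2642247 (.nr 74 1048577 (.nr 41 24 .s1 (.nx 43 231 (.nr 42 312 (.lg 0
  false 1 31 31 13 0 55440) (.l1 .sk)) (.nx 44 232 (.l1 .sk) (.nx 45 408 (.l1 (.ls 83 43 4025))
  (.nr 73 741457 (.nr 67 185365 (.nx 50 82572 (.lg 0 false 5 101 103 19 0 55440) (.nr 66 131073
  (.nx 61 660563 (.nr 55 1964 (.lg 0 true 5 79 79 19 0 18480) (.nx 60 524289 (.lg 2 false 5 97 97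
  19 42427 55440) .out)) (.nr 65 129 (.lg 0 true 4 67 67 19 0 3696) .out)) .out)) (.nx 72 16385
  (.lg 0 false 5 97 101 19 0 55440) .out)) .out))))) .out) .out) (.nx 109 2642247 (.nr 108 1048577
  (.nr 77 25 .s1 (.nx 103 660563 (.nx 93 65537 (.nx 79 231 (.nr 78 323 (.lg 0 true 1 37 37 13 0
  55440) (.l1 .sk)) (.nx 80 232 (.l1 .sk) (.nx 81 408 (.l1 (.ls 83 37 3887)) (.nr 92 741457 (.nr 90
  524289 (.nr 85 185365 (.lg 0 false 4 103 107 16 0 720720) (.nx 89 16385 (.lg 0 false 4 101 101 16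
  0 55440) .out)) (.nx 91 2582 (.lg 0 true 1 89 89 13 0 1848) .out)) .out)))) (.nr 102 155873 (.nr
  97 967 (.lg 0 true 4 79 79 16 0 3696) (.nx 101 524289 (.lg 2 false 4 103 107 16 63552 720720)
  .out)) .out)) (.nr 107 129 (.lg 0 true 4 71 71 16 0 3696) .out))) .out) .out))) (.na 188 33 (.na
  152 32 (.nx 151 2642247 (.nr 150 1048577 (.nr 111 26 .s1 (.nx 115 408 (.nx 113 231 (.nr 112 344
  (.lg 0 false 1 31 31 19 0 55440) (.l1 .sk)) (.nx 114 232 (.l1 .sk) (.l1 (.ls 83 47 3757)))) (.nr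
  149 741457 (.nr 147 524289 (.nr 142 185365 (.nx 128 82572 (.lg 0 false 13 89 101 31 0 720720)
  (.nr 141 131073 (.nr 137 3010 (.nx 132 660563 (.lg 0 true 4 83 83 23 0 55440) (.nr 136 129 (.lg 0
  true 4 71 71 23 0 55440) .out)) (.nx 140 524289 (.lg 2 false 3 97 101 23 42427 55440) .out))
  .out)) (.nx 146 16385 (.lg 0 false 4 97 97 23 0 55440) .out)) (.nx 148 2582 (.lg 0 true 1 89 89
  19 0 55440) .out)) .out))) .out) .out) (.nx 187 2642247 (.nr 186 1048577 (.nr 153 29 .s1 (.nx 157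
  408 (.nx 155 231 (.nr 154 355 (.lg 0 false 1 37 37 13 0 55440) (.l1 .sk)) (.nx 156 232 (.l1 .sk)
  (.l1 (.ls 89 41 3523)))) (.nr 185 741457 (.nx 171 65537 (.nr 162 185365 (.lg 0 false 5 101 103 19
  0 720720) (.nx 170 16385 (.nr 167 623489 (.lg 0 false 5 97 103 19 0 720720) (.nx 168 1024 .out
  (.nx 169 2582 (.lg 0 false 1 79 79 13 0 3696) .out))) .out)) (.nr 184 155873 (.nr 182 131073 (.nx
  178 524289 (.nr 173 1043 (.lg 0 true 2 79 79 13 0 3696) (.lg 2 false 5 97 103 19 58059 720720))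
  (.nr 181 257 (.lg 0 true 3 79 79 19 0 11088) .out)) (.nx 183 82572 (.lg 0 true 1 89 89 13 0 3696)
  .out)) .out)) .out))) .out) .out)) (.na 218 35 (.nx 217 2642247 (.nr 216 881745 (.nr 189 30 .s1
  (.nx 191 231 (.nr 190 377 (.l1 (.ls 23 37 1619)) (.l1 .sk)) (.nx 192 232 (.l1 .sk) (.nx 202 41287
  (.nx 193 408 (.l1 (.ls 73 41 3416)) (.nr 201 623489 (.lg 0 false 8 97 97 17 0 55440) .out)) (.nr
  215 110219 (.nr 210 377 (.lg 0 true 8 67 67 17 0 11088) (.nx 214 262145 (.lg 2 true 4 89 89 16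
  80313 11088) .out)) .out))))) .out) .out) (.nx 245 2642247 (.nr 244 881745 (.nr 219 32 .s1 (.nx
  222 232 (.nx 221 231 (.nr 220 388 (.lg 0 true 1 29 29 16 0 55440) (.l1 .sk)) (.l1 .sk)) (.nx 239
  262145 (.nx 223 408 (.l1 (.ls 79 41 3221)) (.nr 238 623489 (.nx 232 65537 (.nr 227 185365 (.lg 0
  false 4 97 101 17 0 55440) (.nx 231 16385 (.lg 0 false 4 97 97 17 0 55440) .out)) (.nr 237 77937
  (.nr 233 1082 (.lg 0 false 1 79 79 16 0 55440) (.lg 2 false 4 89 89 17 31823 55440)) .out))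
  .out)) (.nr 243 257 (.lg 0 true 4 71 71 17 0 18480) .out)))) .out) .out)))) (.na 332 40 (.na 275
  38 (.na 247 37 (.lg 0 false 1 0 0 7 0 24) (.nx 274 2642247 (.nr 273 881745 (.nr 248 34 .s1 (.nx
  262 41287 (.nx 250 231 (.nr 249 409 (.lg 0 false 1 29 29 16 0 55440) (.l1 .sk)) (.nx 251 232 (.l1
  .sk) (.nx 252 408 (.l1 (.ls 83 31 3047)) (.nr 261 623489 (.nr 256 185365 (.lg 0 false 4 101 101
  16 0 55440) (.nx 260 16385 (.lg 0 false 4 101 101 16 0 55440) .out)) .out)))) (.nr 272 110219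
  (.nr 267 409 (.lg 0 true 5 73 73 16 0 9240) (.nx 271 262145 (.lg 2 false 4 101 101 16 74029
  55440) .out)) .out))) .out) .out)) (.na 304 39 (.nx 303 2642247 (.nr 302 881745 (.nr 276 35 .s1
  (.nx 296 262145 (.nx 292 65537 (.nx 280 408 (.nx 278 231 (.nr 277 420 (.lg 0 false 1 31 31 13 0
  55440) (.l1 .sk)) (.nx 279 232 (.l1 .sk) (.l1 (.ls 83 43 2967)))) (.nr 291 623489 (.nr 285 185365
  (.lg 0 false 5 101 103 17 0 720720) (.nx 290 16385 (.lg 0 false 5 97 101 17 0 55440) .out))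
  .out)) (.nr 295 77937 (.nr 293 1153 (.lg 0 false 1 83 83 13 0 55440) (.lg 2 true 2 101 101 13
  31823 55440)) .out)) (.nr 301 257 (.lg 0 true 5 73 73 17 0 18480) .out))) .out) .out) (.nx 331
  2642247 (.nr 330 881745 (.nr 305 36 .s1 (.nx 319 41287 (.nx 307 231 (.nr 306 431 (.lg 0 true 1 31
  31 16 0 720720) (.l1 .sk)) (.nx 308 232 (.l1 .sk) (.nx 309 408 (.l1 (.ls 83 41 2891)) (.nr 318
  623489 (.nr 313 185365 (.lg 0 false 4 97 101 17 0 720720) (.nx 317 16385 (.lg 0 false 4 97 97 17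
  0 720720) .out)) .out)))) (.nr 329 110219 (.nr 324 431 (.lg 0 true 5 73 73 19 0 360360) (.nx 328
  262145 (.lg 2 false 4 97 101 17 71376 720720) .out)) .out))) .out) .out))) (.na 386 44 (.na 362
  42 (.nx 361 2642247 (.nr 360 881745 (.nr 333 38 .s1 (.nx 337 408 (.nx 335 231 (.nr 334 452 (.l1
  (.ls 41 41 1337)) (.l1 .sk)) (.nx 336 232 (.l1 .sk) (.l1 (.ls 97 43 2819)))) (.nr 359 623489 (.nr
  354 185365 (.nx 340 41287 (.lg 0 false 3 97 101 29 0 55440) (.nr 353 110219 (.nx 350 262145 (.nr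
  344 24222 (.nx 341 82572 (.lg 0 false 1 89 89 19 0 18480) (.nr 343 8952 (.lg 0 true 2 97 101 23 0
  55440) (.lg 2 false 1 83 89 19 7902 55440))) (.nr 346 65537 (.lg 2 false 2 83 83 23 42502 18480)
  (.nx 349 82572 (.nx 347 65537 (.lg 0 false 1 101 103 19 0 720720) (.nr 348 77937 (.lg 0 true 1 89
  97 19 0 55440) .out)) .out))) (.nr 352 257 (.lg 0 true 2 83 83 23 0 18480) .out)) .out)) (.nx 358
  16385 (.nr 356 524289 (.lg 0 false 2 101 103 23 0 720720) (.nx 357 8192 .out (.lg 0 false 1 97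
  101 19 0 55440))) .out)) .out))) .out) .out) (.nx 385 2642247 (.nr 384 881745 (.nr 363 40 .s1
  (.nx 364 408 (.l1 (.ls 73 47 3966)) (.nr 383 623489 (.nx 369 41287 (.lg 0 false 5 97 97 23 0
  55440) (.nr 382 110219 (.nr 376 474 (.lg 0 true 7 71 71 23 0 11088) (.nx 381 262145 (.lg 2 false
  5 89 89 23 71376 55440) .out)) .out)) .out))) .out) .out)) (.na 415 45 (.nx 414 2642247 (.nr 413
  881745 (.nr 387 42 .s1 (.nx 390 232 (.nx 389 231 (.nr 388 484 (.lg 0 false 1 29 29 13 0 55440)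
  (.l1 .sk)) (.l1 .sk)) (.nx 391 408 (.l1 (.ls 79 43 2563)) (.nr 412 623489 (.nx 402 52017 (.nr 396
  185365 (.lg 0 false 5 89 97 23 0 55440) (.nx 401 16385 (.lg 0 false 5 83 89 23 0 18480) .out))
  (.nr 411 92683 (.nr 407 484 (.lg 0 true 5 73 73 23 0 18480) (.nx 410 262145 (.lg 2 false 3 97 97
  19 62558 55440) .out)) .out)) .out)))) .out) .out) (.na 416 46 (.lg 0 false 1 0 0 16 0 24)
  .ne))))) (.na 566 58 (.na 483 52 (.na 460 49 (.na 437 48 (.nx 436 2642247 (.nr 435 881745 (.nr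
  418 45 .s1 (.nx 425 32769 (.nx 420 231 (.nr 419 517 (.lg 0 true 1 29 29 16 0 55440) (.l1 .sk))
  (.nx 421 232 (.l1 .sk) (.lg 0 false 4 103 103 16 0 55440))) (.nr 434 92683 (.nr 429 517 (.lg 0
  true 4 73 73 16 0 3696) (.nx 433 262145 (.lg 2 false 4 97 97 16 75652 55440) .out)) .out))) .out)
  .out) (.nx 459 2642247 (.nr 458 881745 (.nr 438 46 .s1 (.nx 440 231 (.nr 439 527 (.l1 (.ls 37 41
  1114)) (.l1 .sk)) (.nx 441 232 (.l1 .sk) (.nx 446 20644 (.lg 0 false 5 97 101 29 0 55440) (.nr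
  457 220437 (.nx 448 32769 (.lg 0 false 2 97 97 23 0 55440) (.nr 456 92683 (.nr 454 65537 (.nr 451
  527 (.lg 0 true 3 79 79 29 0 11088) (.nx 453 262145 (.lg 2 false 2 97 101 23 57454 55440) .out))
  (.nx 455 52017 (.lg 0 false 1 83 83 19 0 11088) .out)) .out)) .out))))) .out) .out)) (.na 461 50
  (.lg 0 false 1 0 0 16 0 24) (.nx 482 2642247 (.nr 481 881745 (.nr 462 48 .s1 (.nx 464 231 (.nr
  463 560 (.l1 (.ls 31 37 1070)) (.l1 .sk)) (.nx 465 232 (.l1 .sk) (.nr 476 220437 (.nx 468 41287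
  (.lg 0 false 3 97 97 19 0 55440) (.nr 475 77937 (.nr 472 560 (.lg 0 true 4 73 73 23 0 18480) (.nx
  474 262145 (.lg 2 true 2 89 89 19 54068 18480) .out)) .out)) (.nx 480 20644 (.lg 0 false 4 97 97
  23 0 55440) .out))))) .out) .out))) (.na 505 55 (.na 504 54 (.nx 503 2642247 (.nr 502 881745 (.nr
  484 50 .s1 (.nx 487 232 (.nx 486 231 (.nr 485 581 (.l1 (.ls 37 37 1029)) (.l1 .sk)) (.l1 .sk))
  (.nx 492 20644 (.lg 0 false 5 97 103 29 0 720720) (.nr 501 220437 (.nx 494 41287 (.lg 0 false 2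
  101 101 23 0 720720) (.nr 500 77937 (.nr 497 581 (.lg 0 true 3 83 83 23 0 144144) (.nx 499 262145
  (.lg 2 false 2 101 101 23 52114 720720) .out)) .out)) .out)))) .out) .out) (.lg 0 false 1 0 0 16
  0 24)) (.na 525 56 (.nx 524 2642247 (.nr 523 881745 (.nr 506 53 .s1 (.nx 513 32769 (.nx 508 231
  (.nr 507 603 (.l1 (.ls 29 31 973)) (.l1 .sk)) (.nx 509 232 (.l1 .sk) (.lg 0 false 4 101 101 17 0
  55440))) (.nr 522 92683 (.nr 517 603 (.lg 0 true 4 73 73 17 0 18480) (.nx 521 262145 (.lg 2 false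
  4 89 89 17 75652 55440) .out)) .out))) .out) .out) (.na 546 57 (.nx 545 2642247 (.nr 544 881745
  (.nr 526 54 .s1 (.nx 529 232 (.nx 528 231 (.nr 527 614 (.l1 (.ls 31 37 955)) (.l1 .sk)) (.l1
  .sk)) (.nx 537 41287 (.nx 534 20644 (.lg 0 false 5 89 101 29 0 55440) (.nr 536 220437 (.lg 0
  false 2 97 97 23 0 55440) .out)) (.nr 543 77937 (.nr 540 614 (.lg 0 true 3 79 79 23 0 11088) (.nx
  542 262145 (.lg 2 false 2 97 97 23 50515 55440) .out)) .out)))) .out) .out) (.nx 565 2642247 (.nr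
  564 881745 (.nr 547 55 .s1 (.nx 554 32769 (.nx 549 231 (.nr 548 624 (.lg 0 false 1 29 29 16 0
  55440) (.l1 .sk)) (.nx 550 232 (.l1 .sk) (.lg 0 false 4 101 101 17 0 55440))) (.nr 563 92683 (.nr
  558 624 (.lg 0 true 4 73 73 17 0 11088) (.nx 562 262145 (.lg 2 false 4 97 97 17 75652 55440)
  .out)) .out))) .out) .out))))) (.na 644 63 (.na 606 60 (.na 586 59 (.nx 585 2642247 (.nr 584
  881745 (.nr 567 56 .s1 (.nx 575 32769 (.nx 569 231 (.nr 568 635 (.l1 (.ls 23 37 923)) (.l1 .sk))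
  (.nx 570 232 (.l1 .sk) (.lg 0 false 5 101 101 19 0 55440))) (.nr 583 92683 (.nr 580 635 (.lg 0
  true 5 73 73 19 0 18480) (.nx 582 262145 (.lg 2 true 2 101 101 13 75652 55440) .out)) .out)))
  .out) .out) (.nx 605 2642247 (.nr 604 881745 (.nr 587 58 .s1 (.nx 590 232 (.nx 589 231 (.nr 588
  646 (.l1 (.ls 29 23 907)) (.l1 .sk)) (.l1 .sk)) (.nx 594 32769 (.lg 0 false 4 101 101 16 0 55440)
  (.nr 603 92683 (.nr 598 646 (.lg 0 true 4 73 73 16 0 3696) (.nx 602 262145 (.lg 2 false 4 97 97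
  16 75652 55440) .out)) .out)))) .out) .out)) (.na 624 61 (.nx 623 2642247 (.nr 622 881745 (.nr
  607 59 .s1 (.nx 610 232 (.nx 609 231 (.nr 608 657 (.l1 (.ls 37 41 892)) (.l1 .sk)) (.l1 .sk))
  (.nx 616 41287 (.nr 612 220437 (.lg 0 false 2 97 101 29 0 55440) (.nx 615 20644 (.lg 0 false 3 97
  101 31 0 55440) .out)) (.nr 621 77937 (.nr 619 657 (.lg 0 true 3 79 79 31 0 55440) (.nx 620
  262145 (.lg 2 true 1 101 101 23 50515 55440) .out)) .out)))) .out) .out) (.nx 643 2642247 (.nr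
  642 881745 (.nr 625 60 .s1 (.nx 632 32769 (.nx 627 231 (.nr 626 678 (.l1 (.ls 29 23 877)) (.l1
  .sk)) (.nx 628 232 (.l1 .sk) (.lg 0 false 4 101 101 16 0 55440))) (.nr 641 92683 (.nr 636 678
  (.lg 0 true 4 73 73 16 0 3696) (.nx 640 262145 (.lg 2 false 4 89 97 16 75652 55440) .out))
  .out))) .out) .out))) (.na 668 65 (.na 645 64 (.lg 0 false 1 0 0 16 0 24) (.nx 667 2642247 (.nr
  666 2097153 (.nr 646 63 .s1 (.nx 649 232 (.nx 648 231 (.nr 647 700 (.l1 (.ls 37 31 836)) (.l1
  .sk)) (.l1 .sk)) (.nx 656 20644 (.nx 650 408 (.l1 (.ls 89 37 1763)) (.nr 655 1048577 (.lg 0 false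
  5 97 103 23 0 720720) .out)) (.nr 665 262145 (.nx 658 32769 (.lg 0 false 2 89 97 19 0 55440) (.nr
  664 92683 (.nr 661 700 (.lg 0 true 3 79 79 23 0 11088) (.nx 663 416129 (.lg 2 false 2 97 101 19
  75652 55440) .out)) .out)) .out)))) .out) .out)) (.na 690 66 (.nx 689 2642247 (.nr 688 2097153
  (.nr 669 64 .s1 (.nx 673 408 (.nx 671 231 (.nr 670 710 (.l1 (.ls 37 31 823)) (.l1 .sk)) (.nx 672
  232 (.l1 .sk) (.l1 (.ls 89 37 1735)))) (.nr 687 1048577 (.nx 680 32769 (.nx 677 20644 (.lg 0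
  false 4 97 103 23 0 720720) (.nr 679 262145 (.lg 0 false 2 97 97 19 0 720720) .out)) (.nr 686
  65537 (.nr 684 710 (.lg 0 true 4 79 79 23 0 240240) (.nx 685 416129 (.lg 2 false 1 103 103 17
  67695 720720) .out)) .out)) .out))) .out) .out) (.na 710 67 (.nx 709 2642247 (.nr 708 2097153
  (.nr 691 65 .s1 (.nx 698 32769 (.nx 692 408 (.l1 (.ls 79 47 2525)) (.nr 697 1048577 (.lg 0 false
  5 89 89 29 0 55440) .out)) (.nr 707 65537 (.nr 703 721 (.lg 0 true 5 67 67 29 0 55440) (.nx 706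
  416129 (.lg 2 false 3 79 79 23 66662 11088) .out)) .out))) .out) .out) (.nx 729 2642247 (.nr 728
  2097153 (.nr 711 66 .s1 (.nx 715 408 (.nx 713 231 (.nr 712 753 (.l1 (.ls 29 23 799)) (.l1 .sk))
  (.nx 714 232 (.l1 .sk) (.l1 (.ls 83 29 1684)))) (.nr 727 1048577 (.nx 719 32769 (.lg 0 false 4
  101 101 16 0 55440) (.nr 726 65537 (.nr 723 753 (.lg 0 true 4 73 73 16 0 3696) (.nx 725 416129
  (.lg 2 false 2 89 89 16 63829 3696) .out)) .out)) .out))) .out) .out))))))) (.na 1008 96 (.na 884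
  81 (.na 793 75 (.na 751 73 (.na 750 72 (.nx 749 2642247 (.nr 748 2097153 (.nr 731 69 .s1 (.nx 734
  232 (.nx 733 231 (.nr 732 775 (.l1 (.ls 29 41 765)) (.l1 .sk)) (.l1 .sk)) (.nx 740 32769 (.nx 735
  408 (.l1 (.ls 79 43 1612)) (.nr 739 1048577 (.lg 0 false 4 97 97 29 0 55440) .out)) (.nr 747
  65537 (.nr 744 775 (.lg 0 true 4 73 73 29 0 18480) (.nx 746 416129 (.lg 2 true 2 83 83 23 62017
  18480) .out)) .out)))) .out) .out) (.lg 0 false 1 0 0 16 0 24)) (.na 771 74 (.nx 770 2642247 (.nr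
  769 2097153 (.nr 752 72 .s1 (.nx 754 231 (.nr 753 797 (.l1 (.ls 23 23 733)) (.l1 .sk)) (.nx 755
  232 (.l1 .sk) (.nx 756 408 (.l1 (.ls 71 29 1546)) (.nr 768 1048577 (.nx 760 32769 (.lg 0 false 4
  101 101 16 0 55440) (.nr 767 65537 (.nr 764 797 (.lg 0 true 4 71 71 16 0 3696) (.nx 766 416129
  (.lg 2 false 2 89 89 16 60305 3696) .out)) .out)) .out))))) .out) .out) (.nx 792 2642247 (.nr 791
  2097153 (.nr 772 73 .s1 (.nx 782 32769 (.nx 774 231 (.nr 773 807 (.l1 (.ls 29 31 724)) (.l1 .sk))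
  (.nx 775 232 (.l1 .sk) (.nx 776 408 (.l1 (.ls 83 31 1525)) (.nr 781 1048577 (.lg 0 false 5 97 101
  23 0 55440) .out)))) (.nr 790 65537 (.nr 787 807 (.lg 0 true 5 73 73 23 0 18480) (.nx 789 416129
  (.lg 2 true 2 89 89 19 59558 55440) .out)) .out))) .out) .out))) (.na 828 77 (.na 810 76 (.nx 809
  2642247 (.nr 808 2097153 (.nr 794 74 .s1 (.nx 795 408 (.l1 (.ls 83 37 2222)) (.nr 807 1048577
  (.nx 799 32769 (.lg 0 false 4 97 97 19 0 55440) (.nr 806 65537 (.nr 803 818 (.lg 0 true 4 73 73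
  19 0 55440) (.nx 805 416129 (.lg 2 true 2 83 83 17 58757 55440) .out)) .out)) .out))) .out) .out)
  (.nx 827 2642247 (.nr 826 2097153 (.nr 811 75 .s1 (.nx 821 32769 (.nx 813 231 (.nr 812 829 (.l1
  (.ls 37 37 705)) (.l1 .sk)) (.nx 814 232 (.l1 .sk) (.nx 815 408 (.l1 (.ls 89 41 1485)) (.nr 820
  1048577 (.nr 817 262145 (.lg 0 false 2 101 101 23 0 55440) (.nx 819 20644 (.lg 0 false 2 101 101
  23 0 55440) .out)) .out)))) (.nr 825 65537 (.nr 823 829 (.lg 0 true 2 79 79 23 0 3696) (.nx 824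
  416129 (.lg 2 true 1 101 101 17 57977 55440) .out)) .out))) .out) .out)) (.na 848 78 (.nx 847
  2642247 (.nr 846 2097153 (.nr 829 76 .s1 (.nx 830 408 (.l1 (.ls 73 37 2164)) (.nr 845 1048577
  (.nx 834 32769 (.lg 0 true 4 89 89 17 0 55440) (.nr 844 65537 (.nr 839 840 (.lg 0 true 5 61 61 19
  0 9240) (.nx 843 416129 (.lg 2 true 4 71 71 17 57218 3696) .out)) .out)) .out))) .out) .out) (.na
  867 80 (.nx 866 2642247 (.nr 865 2097153 (.nr 849 77 .s1 (.nx 850 408 (.l1 (.ls 83 47 2137)) (.nr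
  864 1048577 (.nx 855 32769 (.lg 0 false 5 97 101 31 0 720720) (.nr 863 65537 (.nr 860 861 (.lg 0
  true 5 73 73 31 0 720720) (.nx 862 416129 (.lg 2 true 2 89 89 29 55823 720720) .out)) .out))
  .out))) .out) .out) (.nx 883 2642247 (.nr 882 2097153 (.nr 868 79 .s1 (.nx 877 32769 (.nx 870 231
  (.nr 869 872 (.l1 (.ls 41 37 670)) (.l1 .sk)) (.nx 871 232 (.l1 .sk) (.nx 872 408 (.l1 (.ls 89 41
  1411)) (.nr 876 1048577 (.nr 873 262145 (.lg 0 false 1 101 103 23 0 55440) (.nx 875 20644 (.lg 0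
  false 2 97 101 29 0 55440) .out)) .out)))) (.nr 881 65537 (.nr 879 872 (.lg 0 true 2 83 83 29 0
  18480) (.nx 880 416129 (.lg 2 false 1 97 101 23 55119 55440) .out)) .out))) .out) .out))))) (.na
  939 89 (.na 904 87 (.na 885 84 (.lg 0 false 1 0 0 16 0 24) (.nx 903 2642247 (.nr 902 2097153 (.nr
  886 83 .s1 (.nx 887 408 (.l1 (.ls 83 43 1984)) (.nr 901 1048577 (.nx 892 32769 (.lg 0 false 5 89
  97 31 0 55440) (.nr 900 65537 (.nr 897 936 (.lg 0 true 5 73 73 31 0 55440) (.nx 899 416129 (.lg 2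
  true 2 83 83 29 53550 55440) .out)) .out)) .out))) .out) .out)) (.na 921 88 (.nx 920 2642247 (.nr
  919 2097153 (.nr 905 86 .s1 (.nx 911 32769 (.nx 906 408 (.l1 (.ls 83 37 1916)) (.nr 910 1048577
  (.lg 0 false 4 97 97 19 0 11088) .out)) (.nr 918 65537 (.nr 915 947 (.lg 0 true 4 73 73 19 0
  11088) (.nx 917 416129 (.lg 2 true 2 83 83 17 53550 11088) .out)) .out))) .out) .out) (.nx 938
  2642247 (.nr 937 2097153 (.nr 922 87 .s1 (.nx 925 232 (.nx 924 231 (.nr 923 958 (.l1 (.ls 31 37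
  609)) (.l1 .sk)) (.l1 .sk)) (.nx 932 32769 (.nx 926 408 (.l1 (.ls 83 41 1283)) (.nr 931 1048577
  (.nr 928 262145 (.lg 0 false 2 97 97 29 0 55440) (.nx 930 20644 (.lg 0 false 2 97 101 29 0 55440)
  .out)) .out)) (.nr 936 65537 (.nr 934 958 (.lg 0 true 2 79 79 29 0 3696) (.nx 935 416129 (.lg 2
  true 1 89 89 23 53550 3696) .out)) .out)))) .out) .out))) (.na 957 91 (.na 956 90 (.nx 955
  2642247 (.nr 954 2097153 (.nr 940 88 .s1 (.nx 946 32769 (.nx 941 408 (.l1 (.ls 79 29 1873)) (.nr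
  945 1048577 (.lg 0 false 4 97 97 16 0 3696) .out)) (.nr 953 65537 (.nr 950 969 (.lg 0 true 4 71
  71 16 0 3696) (.nx 952 416129 (.lg 2 false 2 79 79 16 53550 3696) .out)) .out))) .out) .out) (.lg
  0 false 1 0 0 16 0 24)) (.na 974 94 (.nx 973 2642247 (.nr 972 2097153 (.nr 958 90 .s1 (.nx 964
  26681 (.nx 959 408 (.l1 (.ls 79 37 1832)) (.nr 963 1482912 (.lg 0 false 4 97 97 19 0 720720)
  .out)) (.nr 971 65537 (.nr 968 1012 (.lg 0 true 4 73 73 19 0 48048) (.nx 970 416129 (.lg 2 false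
  2 83 83 19 65768 48048) .out)) .out))) .out) .out) (.na 991 95 (.nx 990 2642247 (.nr 989 2097153
  (.nr 975 93 .s1 (.nx 982 26681 (.nx 976 408 (.l1 (.ls 83 37 1773)) (.nr 981 1482912 (.lg 0 false
  5 97 97 23 0 18480) .out)) (.nr 988 65537 (.nr 985 513 (.lg 0 true 3 71 71 19 0 11088) (.nx 987
  416129 (.lg 2 false 2 89 89 19 93690 3696) .out)) .out))) .out) .out) (.nx 1007 2642247 (.nr 1006
  2097153 (.nr 992 94 .s1 (.nx 996 408 (.nx 994 231 (.nr 993 1033 (.lg 0 false 1 31 31 17 0 55440)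
  (.l1 .sk)) (.nx 995 232 (.l1 .sk) (.l1 (.ls 89 31 1188)))) (.nr 1005 1482912 (.nx 1000 26681 (.lg
  0 false 4 97 103 17 0 55440) (.nr 1004 65537 (.nr 1002 1033 (.lg 0 true 2 79 79 17 0 18480) (.nx
  1003 416129 (.lg 2 false 1 97 97 17 65768 55440) .out)) .out)) .out))) .out) .out)))))) (.na 1108
  111 (.na 1042 104 (.na 1025 99 (.na 1024 98 (.nx 1023 2642247 (.nr 1022 2097153 (.nr 1009 95 .s1
  (.nx 1013 408 (.nx 1011 231 (.nr 1010 1055 (.l1 (.ls 37 37 558)) (.l1 .sk)) (.nx 1012 232 (.l1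
  .sk) (.l1 (.ls 83 41 1176)))) (.nr 1021 1482912 (.nx 1016 26681 (.lg 0 false 3 97 101 31 0 55440)
  (.nr 1020 65537 (.nr 1018 513 (.lg 0 true 2 73 73 29 0 11088) (.nx 1019 416129 (.lg 2 false 1 97
  97 23 93690 55440) .out)) .out)) .out))) .out) .out) (.lg 0 false 1 0 0 16 0 24)) (.na 1026 100
  (.lg 0 false 1 0 0 16 0 24) (.nx 1041 2642247 (.nr 1040 2097153 (.nr 1027 99 .s1 (.nx 1030 232
  (.nx 1029 231 (.nr 1028 1119 (.l1 (.ls 37 31 536)) (.l1 .sk)) (.l1 .sk)) (.nx 1031 408 (.l1 (.ls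
  83 37 1129)) (.nr 1039 1482912 (.nx 1034 26681 (.lg 0 false 3 97 101 29 0 55440) (.nr 1038 65537
  (.nr 1036 513 (.lg 0 true 2 71 71 29 0 18480) (.nx 1037 416129 (.lg 2 false 1 97 97 23 93690
  55440) .out)) .out)) .out)))) .out) .out))) (.na 1076 107 (.na 1060 105 (.nx 1059 2642247 (.nr
  1058 2097153 (.nr 1043 103 .s1 (.nx 1045 231 (.nr 1044 1130 (.l1 (.ls 41 31 516)) (.l1 .sk)) (.nx
  1046 232 (.l1 .sk) (.nx 1047 408 (.l1 (.ls 97 37 1086)) (.nr 1057 1482912 (.nr 1054 1048577 (.nx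
  1049 26681 (.lg 0 false 2 101 107 31 0 720720) (.nr 1053 65537 (.nr 1051 1130 (.lg 0 true 2 83 83
  31 0 48048) (.nx 1052 416129 (.lg 2 true 1 101 101 29 65768 720720) .out)) .out)) (.nx 1055 10321
  .out (.nx 1056 26009 (.lg 0 false 1 101 101 29 0 720720) .out))) .out))))) .out) .out) (.nx 1075
  2642247 (.nr 1074 2097153 (.nr 1061 104 .s1 (.nx 1067 26681 (.nx 1062 408 (.l1 (.ls 79 41 1588))
  (.nr 1066 1482912 (.lg 0 false 4 89 89 29 0 55440) .out)) (.nr 1073 65537 (.nr 1071 1152 (.lg 0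
  true 4 73 73 29 0 55440) (.nx 1072 416129 (.lg 2 false 1 83 83 19 65768 27720) .out)) .out)))
  .out) .out)) (.na 1093 108 (.nx 1092 2642247 (.nr 1091 2097153 (.nr 1077 106 .s1 (.nx 1078 408
  (.l1 (.ls 73 29 1558)) (.nr 1090 1482912 (.nx 1082 26681 (.lg 0 false 4 89 89 17 0 3696) (.nr
  1089 65537 (.nr 1086 1162 (.lg 0 true 4 71 71 17 0 3696) (.nx 1088 416129 (.lg 2 false 2 79 79 16
  65768 3696) .out)) .out)) .out))) .out) .out) (.na 1094 110 (.lg 0 false 1 0 0 16 0 24) (.nx 1107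
  2642247 (.nr 1106 2097153 (.nr 1095 109 .s1 (.nx 1101 26681 (.nx 1096 408 (.l1 (.ls 79 43 1516))
  (.nr 1100 1482912 (.lg 0 false 4 89 89 31 0 18480) .out)) (.nr 1105 65537 (.nr 1102 513 (.lg 0
  false 1 73 73 23 0 18480) (.nx 1104 416129 (.lg 2 false 2 83 83 29 93690 18480) .out)) .out)))
  .out) .out))))) (.na 1174 117 (.na 1141 114 (.na 1125 112 (.nx 1124 2642247 (.nr 1123 2097153
  (.nr 1109 110 .s1 (.nx 1115 26681 (.nx 1110 408 (.l1 (.ls 83 31 1502)) (.nr 1114 1482912 (.lg 0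
  false 4 97 97 19 0 55440) .out)) (.nr 1122 65537 (.nr 1119 1205 (.lg 0 true 4 73 73 19 0 11088)
  (.nx 1121 416129 (.lg 2 false 2 83 83 17 65768 11088) .out)) .out))) .out) .out) (.nx 1140
  2642247 (.nr 1139 2097153 (.nr 1126 111 .s1 (.nx 1134 26681 (.nx 1128 231 (.nr 1127 1227 (.l1
  (.ls 31 31 479)) (.l1 .sk)) (.nx 1129 232 (.l1 .sk) (.nx 1130 408 (.l1 (.ls 83 37 1008)) (.nr
  1133 1482912 (.lg 0 false 3 97 101 29 0 55440) .out)))) (.nr 1138 65537 (.nr 1136 513 (.lg 0 true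
  2 71 71 29 0 3696) (.nx 1137 416129 (.lg 2 false 1 89 89 23 93690 3696) .out)) .out))) .out)
  .out)) (.na 1156 116 (.nx 1155 2642247 (.nr 1154 2097153 (.nr 1142 113 .s1 (.nx 1149 26681 (.nx
  1143 408 (.l1 (.ls 83 43 1463)) (.nr 1148 1482912 (.lg 0 false 5 97 97 37 0 55440) .out)) (.nr
  1153 65537 (.nr 1150 513 (.lg 0 false 1 79 79 29 0 11088) (.nx 1152 416129 (.lg 2 false 2 89 89
  31 93690 55440) .out)) .out))) .out) .out) (.nx 1173 2642247 (.nr 1172 2097153 (.nr 1157 116 .s1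
  (.nx 1158 408 (.l1 (.ls 89 41 1438)) (.nr 1171 1482912 (.nx 1163 26009 (.lg 0 false 5 89 97 23 0
  18480) (.nr 1170 65537 (.nx 1165 66378 (.lg 0 true 2 79 79 23 0 3696) (.nx 1167 416129 (.nr 1166
  3731 (.lg 0 false 1 83 83 19 0 55440) (.lg 2 true 1 83 83 19 26436 3696)) (.nr 1169 513 (.lg 0
  true 2 73 73 23 0 3696) .out))) .out)) .out))) .out) .out))) (.na 1191 120 (.na 1175 118 (.lg 0
  false 1 0 0 16 0 24) (.nx 1190 2642247 (.nr 1189 2097153 (.nr 1176 118 .s1 (.nx 1183 26681 (.nx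
  1177 408 (.l1 (.ls 83 37 1413)) (.nr 1182 1482912 (.lg 0 false 5 89 97 23 0 18480) .out)) (.nr
  1188 65537 (.nr 1185 513 (.lg 0 true 2 71 71 19 0 3696) (.nx 1187 416129 (.lg 2 true 2 83 83 19
  93690 3696) .out)) .out))) .out) .out)) (.na 1208 121 (.nx 1207 2642247 (.nr 1206 2097153 (.nr
  1192 120 .s1 (.nx 1202 26681 (.nx 1194 231 (.nr 1193 1302 (.l1 (.ls 41 37 447)) (.l1 .sk)) (.nx
  1195 232 (.l1 .sk) (.nx 1196 408 (.l1 (.ls 89 41 941)) (.nr 1201 1482912 (.nr 1198 1048577 (.lg 0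
  false 2 101 103 37 0 720720) (.nx 1199 10321 .out (.nx 1200 26009 (.lg 0 false 1 97 101 31 0
  55440) .out))) .out)))) (.nr 1205 65537 (.nr 1203 513 (.lg 0 true 1 79 79 31 0 55440) (.nx 1204
  416129 (.lg 2 true 1 97 101 31 93690 55440) .out)) .out))) .out) .out) (.na 1209 122 (.lg 0 false
  1 0 0 16 0 24) (.nx 1224 2642247 (.nr 1223 2097153 (.nr 1210 122 .s1 (.nx 1211 408 (.l1 (.ls 79
  37 1367)) (.nr 1222 1482912 (.nx 1216 26681 (.lg 0 false 5 97 97 23 0 55440) (.nr 1221 65537 (.nr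
  1218 513 (.lg 0 true 2 67 67 19 0 3696) (.nx 1220 416129 (.lg 2 true 2 83 83 19 93690 3696)
  .out)) .out)) .out))) .out) .out))))))))

theorem c4 :
    OkQ ckI L9 215 9 25 0 34359738368 1 1099511627776 ∧
    OkQ ckI L10 231 26 125 0 34359738368 1 1099511627776 := by
  refine ⟨?_, ?_⟩
  · refine fin 15480 710 T4_0 ?_
    refine jn 4 (by decide +kernel) ?_
    refine jn 7 (by decide +kernel) ?_
    refine jn 10 (by decide +kernel) ?_
    refine jn 13 (by decide +kernel) ?_
    refine jn 16 (by decide +kernel) ?_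
    refine jn 24 (by decide +kernel) ?_
    refine jn 31 (by decide +kernel) ?_
    refine jn 33 (by decide +kernel) ?_
    refine jn 40 (by decide +kernel) ?_
    refine jn 47 (by decide +kernel) ?_
    refine jn 54 (by decide +kernel) ?_
    refine jn 61 (by decide +kernel) ?_
    refine jn 68 (by decide +kernel) ?_
    refine jn 75 (by decide +kernel) ?_
    refine jn 85 (by decide +kernel) ?_
    refine jn 114 (by decide +kernel) ?_
    refine jn 121 (by decide +kernel) ?_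
    refine jn 134 (by decide +kernel) ?_
    refine jn 159 (by decide +kernel) ?_
    refine jn 185 (by decide +kernel) ?_
    refine jn 203 (by decide +kernel) ?_
    refine jn 207 (by decide +kernel) ?_
    refine jn 211 (by decide +kernel) ?_
    refine jn 215 (by decide +kernel) ?_
    refine jn 221 (by decide +kernel) ?_
    refine jn 227 (by decide +kernel) ?_
    refine jn 230 (by decide +kernel) ?_
    refine jn 243 (by decide +kernel) ?_
    refine jn 256 (by decide +kernel) ?_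
    refine jn 265 (by decide +kernel) ?_
    refine jn 275 (by decide +kernel) ?_
    refine jn 283 (by decide +kernel) ?_
    refine jn 284 (by decide +kernel) ?_
    refine jn 285 (by decide +kernel) ?_
    refine jn 286 (by decide +kernel) ?_
    refine jn 287 (by decide +kernel) ?_
    refine jn 288 (by decide +kernel) ?_
    refine jn 289 (by decide +kernel) ?_
    refine jn 290 (by decide +kernel) ?_
    refine jn 291 (by decide +kernel) ?_
    refine jn 292 (by decide +kernel) ?_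
    refine jn 293 (by decide +kernel) ?_
    refine jn 294 (by decide +kernel) ?_
    refine jn 295 (by decide +kernel) ?_
    refine jn 296 (by decide +kernel) ?_
    refine jn 297 (by decide +kernel) ?_
    refine jn 298 (by decide +kernel) ?_
    refine jn 299 (by decide +kernel) ?_
    refine jn 300 (by decide +kernel) ?_
    refine jn 301 (by decide +kernel) ?_
    refine jn 302 (by decide +kernel) ?_
    refine jn 303 (by decide +kernel) ?_
    refine jn 305 (by decide +kernel) ?_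
    refine jn 310 (by decide +kernel) ?_
    refine jn 312 (by decide +kernel) ?_
    refine jn 317 (by decide +kernel) ?_
    refine jn 319 (by decide +kernel) ?_
    refine jn 322 (by decide +kernel) ?_
    refine jn 325 (by decide +kernel) ?_
    refine jn 329 (by decide +kernel) ?_
    refine jn 334 (by decide +kernel) ?_
    refine jn 338 (by decide +kernel) ?_
    refine jn 349 (by decide +kernel) ?_
    refine jn 354 (by decide +kernel) ?_
    refine jn 358 (by decide +kernel) ?_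
    refine jn 359 (by decide +kernel) ?_
    refine jn 365 (by decide +kernel) ?_
    refine jn 377 (by decide +kernel) ?_
    refine jn 382 (by decide +kernel) ?_
    refine jn 395 (by decide +kernel) ?_
    refine jn 401 (by decide +kernel) ?_
    refine jn 405 (by decide +kernel) ?_
    refine jn 409 (by decide +kernel) ?_
    refine jn 416 (by decide +kernel) ?_
    refine jn 427 (by decide +kernel) ?_
    refine jn 439 (by decide +kernel) ?_
    refine jn 446 (by decide +kernel) ?_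
    refine jn 447 (by decide +kernel) ?_
    refine jn 448 (by decide +kernel) ?_
    refine jn 449 (by decide +kernel) ?_
    refine jn 450 (by decide +kernel) ?_
    refine jn 451 (by decide +kernel) ?_
    refine jn 452 (by decide +kernel) ?_
    refine jn 453 (by decide +kernel) ?_
    refine jn 454 (by decide +kernel) ?_
    refine jn 455 (by decide +kernel) ?_
    refine jn 456 (by decide +kernel) ?_
    refine jn 457 (by decide +kernel) ?_
    refine jn 462 (by decide +kernel) ?_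
    refine jn 464 (by decide +kernel) ?_
    refine jn 466 (by decide +kernel) ?_
    refine jn 470 (by decide +kernel) ?_
    refine jn 473 (by decide +kernel) ?_
    refine jn 477 (by decide +kernel) ?_
    refine jn 485 (by decide +kernel) ?_
    refine jn 499 (by decide +kernel) ?_
    refine jn 506 (by decide +kernel) ?_
    refine jn 512 (by decide +kernel) ?_
    refine jn 522 (by decide +kernel) ?_
    refine jn 531 (by decide +kernel) ?_
    refine jn 537 (by decide +kernel) ?_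
    refine jn 550 (by decide +kernel) ?_
    refine jn 554 (by decide +kernel) ?_
    refine jn 561 (by decide +kernel) ?_
    refine jn 568 (by decide +kernel) ?_
    refine jn 581 (by decide +kernel) ?_
    refine jn 590 (by decide +kernel) ?_
    refine jn 591 (by decide +kernel) ?_
    refine jn 592 (by decide +kernel) ?_
    refine jn 593 (by decide +kernel) ?_
    refine jn 594 (by decide +kernel) ?_
    refine jn 596 (by decide +kernel) ?_
    refine jn 598 (by decide +kernel) ?_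
    refine jn 602 (by decide +kernel) ?_
    refine jn 606 (by decide +kernel) ?_
    refine jn 610 (by decide +kernel) ?_
    refine jn 620 (by decide +kernel) ?_
    refine jn 626 (by decide +kernel) ?_
    refine jn 638 (by decide +kernel) ?_
    refine jn 641 (by decide +kernel) ?_
    refine jn 648 (by decide +kernel) ?_
    refine jn 655 (by decide +kernel) ?_
    refine jn 670 (by decide +kernel) ?_
    refine jn 673 (by decide +kernel) ?_
    refine jn 674 (by decide +kernel) ?_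
    refine jn 675 (by decide +kernel) ?_
    refine jn 676 (by decide +kernel) ?_
    refine jn 677 (by decide +kernel) ?_
    refine jn 678 (by decide +kernel) ?_
    refine jn 679 (by decide +kernel) ?_
    refine jn 680 (by decide +kernel) ?_
    refine jn 681 (by decide +kernel) ?_
    refine jn 682 (by decide +kernel) ?_
    refine jn 683 (by decide +kernel) ?_
    refine jn 684 (by decide +kernel) ?_
    refine jn 685 (by decide +kernel) ?_
    refine jn 687 (by decide +kernel) ?_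
    refine jn 688 (by decide +kernel) ?_
    refine jn 692 (by decide +kernel) ?_
    refine jn 695 (by decide +kernel) ?_
    refine jn 696 (by decide +kernel) ?_
    refine jn 698 (by decide +kernel) ?_
    refine jn 700 (by decide +kernel) ?_
    refine jn 701 (by decide +kernel) ?_
    refine jn 702 (by decide +kernel) ?_
    refine jn 703 (by decide +kernel) ?_
    refine jn 704 (by decide +kernel) ?_
    exact je (by decide +kernel)
  · refine fin 1848 1225 T4_1 ?_
    refine jn 5 (by decide +kernel) ?_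
    refine jn 10 (by decide +kernel) ?_
    refine jn 15 (by decide +kernel) ?_
    refine jn 27 (by decide +kernel) ?_
    refine jn 35 (by decide +kernel) ?_
    refine jn 45 (by decide +kernel) ?_
    refine jn 50 (by decide +kernel) ?_
    refine jn 55 (by decide +kernel) ?_
    refine jn 65 (by decide +kernel) ?_
    refine jn 80 (by decide +kernel) ?_
    refine jn 85 (by decide +kernel) ?_
    refine jn 93 (by decide +kernel) ?_
    refine jn 101 (by decide +kernel) ?_
    refine jn 114 (by decide +kernel) ?_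
    refine jn 122 (by decide +kernel) ?_
    refine jn 128 (by decide +kernel) ?_
    refine jn 136 (by decide +kernel) ?_
    refine jn 146 (by decide +kernel) ?_
    refine jn 156 (by decide +kernel) ?_
    refine jn 157 (by decide +kernel) ?_
    refine jn 158 (by decide +kernel) ?_
    refine jn 159 (by decide +kernel) ?_
    refine jn 160 (by decide +kernel) ?_
    refine jn 161 (by decide +kernel) ?_
    refine jn 162 (by decide +kernel) ?_
    refine jn 167 (by decide +kernel) ?_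
    refine jn 171 (by decide +kernel) ?_
    refine jn 173 (by decide +kernel) ?_
    refine jn 177 (by decide +kernel) ?_
    refine jn 181 (by decide +kernel) ?_
    refine jn 201 (by decide +kernel) ?_
    refine jn 214 (by decide +kernel) ?_
    refine jn 227 (by decide +kernel) ?_
    refine jn 233 (by decide +kernel) ?_
    refine jn 243 (by decide +kernel) ?_
    refine jn 256 (by decide +kernel) ?_
    refine jn 267 (by decide +kernel) ?_
    refine jn 279 (by decide +kernel) ?_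
    refine jn 285 (by decide +kernel) ?_
    refine jn 295 (by decide +kernel) ?_
    refine jn 308 (by decide +kernel) ?_
    refine jn 313 (by decide +kernel) ?_
    refine jn 324 (by decide +kernel) ?_
    refine jn 333 (by decide +kernel) ?_
    refine jn 336 (by decide +kernel) ?_
    refine jn 337 (by decide +kernel) ?_
    refine jn 338 (by decide +kernel) ?_
    refine jn 339 (by decide +kernel) ?_
    refine jn 340 (by decide +kernel) ?_
    refine jn 341 (by decide +kernel) ?_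
    refine jn 342 (by decide +kernel) ?_
    refine jn 343 (by decide +kernel) ?_
    refine jn 344 (by decide +kernel) ?_
    refine jn 345 (by decide +kernel) ?_
    refine jn 346 (by decide +kernel) ?_
    refine jn 348 (by decide +kernel) ?_
    refine jn 351 (by decide +kernel) ?_
    refine jn 352 (by decide +kernel) ?_
    refine jn 355 (by decide +kernel) ?_
    refine jn 356 (by decide +kernel) ?_
    refine jn 369 (by decide +kernel) ?_
    refine jn 384 (by decide +kernel) ?_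
    refine jn 396 (by decide +kernel) ?_
    refine jn 407 (by decide +kernel) ?_
    refine jn 425 (by decide +kernel) ?_
    refine jn 433 (by decide +kernel) ?_
    refine jn 443 (by decide +kernel) ?_
    refine jn 446 (by decide +kernel) ?_
    refine jn 448 (by decide +kernel) ?_
    refine jn 451 (by decide +kernel) ?_
    refine jn 453 (by decide +kernel) ?_
    refine jn 468 (by decide +kernel) ?_
    refine jn 474 (by decide +kernel) ?_
    refine jn 487 (by decide +kernel) ?_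
    refine jn 490 (by decide +kernel) ?_
    refine jn 492 (by decide +kernel) ?_
    refine jn 494 (by decide +kernel) ?_
    refine jn 497 (by decide +kernel) ?_
    refine jn 499 (by decide +kernel) ?_
    refine jn 517 (by decide +kernel) ?_
    refine jn 529 (by decide +kernel) ?_
    refine jn 532 (by decide +kernel) ?_
    refine jn 534 (by decide +kernel) ?_
    refine jn 537 (by decide +kernel) ?_
    refine jn 540 (by decide +kernel) ?_
    refine jn 542 (by decide +kernel) ?_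
    refine jn 558 (by decide +kernel) ?_
    refine jn 575 (by decide +kernel) ?_
    refine jn 582 (by decide +kernel) ?_
    refine jn 598 (by decide +kernel) ?_
    refine jn 610 (by decide +kernel) ?_
    refine jn 612 (by decide +kernel) ?_
    refine jn 616 (by decide +kernel) ?_
    refine jn 619 (by decide +kernel) ?_
    refine jn 626 (by decide +kernel) ?_
    refine jn 636 (by decide +kernel) ?_
    refine jn 649 (by decide +kernel) ?_
    refine jn 653 (by decide +kernel) ?_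
    refine jn 655 (by decide +kernel) ?_
    refine jn 658 (by decide +kernel) ?_
    refine jn 661 (by decide +kernel) ?_
    refine jn 663 (by decide +kernel) ?_
    refine jn 673 (by decide +kernel) ?_
    refine jn 677 (by decide +kernel) ?_
    refine jn 680 (by decide +kernel) ?_
    refine jn 684 (by decide +kernel) ?_
    refine jn 697 (by decide +kernel) ?_
    refine jn 719 (by decide +kernel) ?_
    refine jn 725 (by decide +kernel) ?_
    refine jn 739 (by decide +kernel) ?_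
    refine jn 746 (by decide +kernel) ?_
    refine jn 764 (by decide +kernel) ?_
    refine jn 781 (by decide +kernel) ?_
    refine jn 789 (by decide +kernel) ?_
    refine jn 803 (by decide +kernel) ?_
    refine jn 815 (by decide +kernel) ?_
    refine jn 819 (by decide +kernel) ?_
    refine jn 823 (by decide +kernel) ?_
    refine jn 834 (by decide +kernel) ?_
    refine jn 855 (by decide +kernel) ?_
    refine jn 862 (by decide +kernel) ?_
    refine jn 871 (by decide +kernel) ?_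
    refine jn 872 (by decide +kernel) ?_
    refine jn 873 (by decide +kernel) ?_
    refine jn 875 (by decide +kernel) ?_
    refine jn 878 (by decide +kernel) ?_
    refine jn 879 (by decide +kernel) ?_
    refine jn 880 (by decide +kernel) ?_
    refine jn 897 (by decide +kernel) ?_
    refine jn 910 (by decide +kernel) ?_
    refine jn 917 (by decide +kernel) ?_
    refine jn 928 (by decide +kernel) ?_
    refine jn 934 (by decide +kernel) ?_
    refine jn 945 (by decide +kernel) ?_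
    refine jn 957 (by decide +kernel) ?_
    refine jn 968 (by decide +kernel) ?_
    refine jn 981 (by decide +kernel) ?_
    refine jn 991 (by decide +kernel) ?_
    refine jn 1000 (by decide +kernel) ?_
    refine jn 1003 (by decide +kernel) ?_
    refine jn 1016 (by decide +kernel) ?_
    refine jn 1019 (by decide +kernel) ?_
    refine jn 1034 (by decide +kernel) ?_
    refine jn 1037 (by decide +kernel) ?_
    refine jn 1047 (by decide +kernel) ?_
    refine jn 1048 (by decide +kernel) ?_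
    refine jn 1049 (by decide +kernel) ?_
    refine jn 1050 (by decide +kernel) ?_
    refine jn 1051 (by decide +kernel) ?_
    refine jn 1052 (by decide +kernel) ?_
    refine jn 1066 (by decide +kernel) ?_
    refine jn 1077 (by decide +kernel) ?_
    refine jn 1086 (by decide +kernel) ?_
    refine jn 1100 (by decide +kernel) ?_
    refine jn 1114 (by decide +kernel) ?_
    refine jn 1126 (by decide +kernel) ?_
    refine jn 1133 (by decide +kernel) ?_
    refine jn 1137 (by decide +kernel) ?_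
    refine jn 1150 (by decide +kernel) ?_
    refine jn 1158 (by decide +kernel) ?_
    refine jn 1159 (by decide +kernel) ?_
    refine jn 1160 (by decide +kernel) ?_
    refine jn 1161 (by decide +kernel) ?_
    refine jn 1162 (by decide +kernel) ?_
    refine jn 1163 (by decide +kernel) ?_
    refine jn 1164 (by decide +kernel) ?_
    refine jn 1165 (by decide +kernel) ?_
    refine jn 1167 (by decide +kernel) ?_
    refine jn 1182 (by decide +kernel) ?_
    refine jn 1192 (by decide +kernel) ?_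
    refine jn 1196 (by decide +kernel) ?_
    refine jn 1197 (by decide +kernel) ?_
    refine jn 1198 (by decide +kernel) ?_
    refine jn 1203 (by decide +kernel) ?_
    refine jn 1204 (by decide +kernel) ?_
    refine jn 1218 (by decide +kernel) ?_
    exact je (by decide +kernel)

end Pool.Agent.MP_2339ce_nt.NR
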