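import Pool.Agent.MP_2339ce_nt.Q2.NC.L8
import Pool.Agent.MP_2339ce_nt.Q2.NC.L10
import Pool.Agent.MP_2339ce_nt.Q2.CkI

/-! Block NR: runs. -/

set_option autoImplicit false
set_option maxRecDepth 100000

noncomputable section

namespace Pool.Agent.MP_2339ce_nt.NR

open Q2.Top

def T40_0 : Ph :=
  (.na 204 21 (.na 96 18 (.na 95 17 (.nx 94 2642247 (.nr 93 1246976 (.nr 1 6 .s1 (.nx 5 324 (.nx 3
  231 (.nr 2 183 (.lg 0 true 1 43 43 11 0 55440) (.l1 .sk)) (.nx 4 232 (.l1 .sk) (.l1 (.ls 97 41
  3200)))) (.nr 92 1048577 (.nx 6 408 (.l1 (.ls 97 41 3846)) (.nr 91 741457 (.nr 33 65537 (.nx 11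
  26681 (.lg 0 false 5 97 97 17 0 55440) (.nx 27 660563 (.nr 17 3463 (.nr 16 1660 (.lg 0 true 5 89
  89 17 0 18480) (.lg 2 false 1 83 83 11 45961 3696)) (.nr 22 31421 (.lg 2 false 5 83 83 17 31652
  18480) (.lg 2 false 5 89 89 17 65768 18480))) (.nr 32 129 (.lg 0 true 5 79 79 17 0 18480) .out)))
  (.nx 90 524289 (.nr 56 185365 (.nx 46 330282 (.lg 0 true 13 101 107 23 0 720720) (.nr 55 92683
  (.nr 51 77937 (.lg 0 true 5 101 107 17 0 720720) (.nx 54 416129 (.lg 0 true 3 101 103 13 0
  720720) .out)) .out)) (.nx 89 262145 (.nr 85 311745 (.nx 61 13005 (.lg 0 false 5 97 103 17 0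
  720720) (.nx 62 20642 .out (.nr 71 220437 (.lg 0 true 9 101 107 19 0 720720) (.nx 72 41285 .out
  (.nx 84 208065 (.nr 77 262145 (.lg 0 true 5 103 107 17 0 720720) (.nx 78 82570 .out (.nx 83
  165142 (.lg 0 true 5 101 107 17 0 720720) .out))) .out))))) (.nx 88 1627 (.lg 0 false 3 97 97 13
  0 55440) .out)) .out)) .out)) .out)) .out))) .out) .out) .ne) (.na 97 19 (.lg 0 false 1 0 0 7 0
  24) (.na 147 20 (.nx 146 2642247 (.nr 145 1246976 (.nr 98 12 .s1 (.nx 101 232 (.nx 100 231 (.nr
  99 215 (.lg 0 false 1 37 37 11 0 55440) (.l1 .sk)) (.l1 .sk)) (.nx 102 408 (.l1 (.ls 89 41 5931))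
  (.nr 144 741457 (.nr 134 220437 (.nx 110 52909 (.lg 0 false 8 103 107 16 0 720720) (.nx 128
  660563 (.nr 114 1726 (.lg 0 true 4 89 89 16 0 3696) (.nx 127 524289 (.nx 118 104922 (.lg 1 false
  4 103 103 16 111278 55440) (.nr 122 155873 (.lg 2 false 4 107 107 16 39696 720720) (.nx 126
  208065 (.lg 2 false 4 101 103 16 56114 55440) .out))) .out)) (.nr 133 129 (.lg 0 true 5 73 73 16
  0 9240) .out))) (.nx 143 13005 (.nr 138 311745 (.lg 0 false 4 97 97 16 0 55440) (.nx 142 1627
  (.lg 0 false 4 83 83 16 0 3696) .out)) .out)) .out)))) .out) .out) (.nx 203 2642247 (.nr 202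
  1246976 (.nr 148 14 .s1 (.nx 150 231 (.nr 149 226 (.lg 0 false 1 41 41 13 0 55440) (.l1 .sk))
  (.nx 151 232 (.l1 .sk) (.nr 175 77937 (.nx 154 26681 (.lg 0 false 3 97 97 19 0 55440) (.nr 163
  1726 (.nx 158 660563 (.lg 0 true 4 89 89 19 0 18480) (.nr 162 129 (.lg 0 true 4 79 79 19 0 18480)
  .out)) (.nx 174 524289 (.nr 167 30068 (.lg 2 false 4 83 83 19 35085 18480) (.nx 169 52909 (.lg 0
  false 2 101 103 17 0 720720) (.lg 2 true 5 83 83 23 39419 18480))) .out))) (.nx 201 416129 (.nr
  195 311745 (.nx 191 262145 (.nr 188 220437 (.lg 0 true 13 101 107 29 0 720720) (.nx 190 13005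
  (.lg 0 false 2 97 101 17 0 55440) .out)) (.nr 194 92683 (.lg 0 true 3 101 103 19 0 720720) .out))
  (.nx 200 1627 (.nr 197 741457 (.lg 0 false 2 89 89 17 0 18480) (.nx 199 408 (.lg 0 false 2 79 79
  17 0 18480) .out)) .out)) .out))))) .out) .out)))) (.na 310 23 (.na 258 22 (.nx 257 2642247 (.nr
  256 1246976 (.nr 205 15 .s1 (.nx 208 232 (.nx 207 231 (.nr 206 237 (.lg 0 true 1 31 31 16 0
  55440) (.l1 .sk)) (.l1 .sk)) (.nx 209 408 (.l1 (.ls 79 43 5366)) (.nr 255 741457 (.nr 250 311745
  (.nx 222 52909 (.lg 0 false 13 97 101 17 0 720720) (.nr 249 220437 (.nr 235 666 (.lg 0 true 13 73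
  73 17 0 72072) (.nx 248 524289 (.lg 2 false 13 97 103 17 111278 720720) .out)) .out)) (.nx 254
  1627 (.lg 0 true 4 79 79 16 0 55440) .out)) .out)))) .out) .out) (.nx 309 2642247 (.nr 308
  1246976 (.nr 259 16 .s1 (.nx 262 232 (.nx 261 231 (.nr 260 247 (.lg 0 false 1 29 29 9 0 3696)
  (.l1 .sk)) (.l1 .sk)) (.nx 263 408 (.l1 (.ls 79 47 5123)) (.nr 307 741457 (.nr 304 311745 (.nx
  276 52909 (.lg 0 false 13 97 101 19 0 720720) (.nr 303 220437 (.nr 289 666 (.lg 0 true 13 73 73
  19 0 48048) (.nx 302 524289 (.lg 2 false 13 97 103 19 111278 720720) .out)) .out)) (.nx 306 1627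
  (.lg 0 true 2 79 79 9 0 3696) .out)) .out)))) .out) .out)) (.na 311 24 .ne (.na 352 25 (.nx 351
  2642247 (.nr 350 1048577 (.nr 312 19 .s1 (.nx 344 660563 (.nx 316 408 (.nx 314 231 (.nr 313 269
  (.lg 0 true 1 41 41 13 0 55440) (.l1 .sk)) (.nx 315 232 (.l1 .sk) (.l1 (.ls 89 47 4696)))) (.nr
  343 741457 (.nr 340 524289 (.nx 327 65537 (.nr 321 185365 (.lg 0 false 5 101 107 23 0 720720)
  (.nx 326 16385 (.lg 0 false 5 97 103 23 0 55440) .out)) (.nr 339 155873 (.nr 330 1779 (.lg 0 true
  3 89 89 23 0 11088) (.nx 338 524289 (.nx 332 82572 (.lg 1 false 2 97 101 19 63552 55440) (.nr 337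
  131073 (.lg 2 false 5 97 103 23 42427 55440) .out)) .out)) .out)) (.nx 342 2582 (.lg 0 false 2 89
  89 19 0 55440) .out)) .out)) (.nr 349 129 (.lg 0 true 5 73 79 23 0 55440) .out))) .out) .out)
  (.nx 389 2642247 (.nr 388 1048577 (.nr 353 20 .s1 (.nx 356 232 (.nx 355 231 (.nr 354 280 (.lg 0
  false 1 31 31 16 0 55440) (.l1 .sk)) (.l1 .sk)) (.nx 357 408 (.l1 (.ls 83 37 4508)) (.nr 387
  741457 (.nx 381 660563 (.nx 371 82572 (.nr 361 185365 (.lg 0 false 4 103 107 16 0 720720) (.nx
  370 16385 (.nr 365 524289 (.lg 0 false 4 97 101 16 0 55440) (.nx 369 2582 (.lg 0 false 4 79 79 16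
  0 18480) .out)) .out)) (.nr 380 131073 (.nr 375 1828 (.lg 0 true 4 83 83 16 0 18480) (.nx 379
  524289 (.lg 2 false 4 97 101 16 42427 55440) .out)) .out)) (.nr 386 129 (.lg 0 true 5 71 71 16 0
  9240) .out)) .out)))) .out) .out)))))

def T40_1 : Ph :=
  (.na 7593 5793 (.na 2901 1449 (.na 1445 725 (.na 809 512 (.nx 808 832257 (.nr 807 1482912 (.nr 1
  257 .s1 (.nx 295 205 (.nx 257 167 (.nr 256 4686 (.la (.ls 41 19 129)) (.l1 .sk)) (.nx 258 168
  (.l1 .sk) (.lx (.lp 83 19 129)))) (.nr 806 1048577 (.nr 550 32769 (.la (.lg 0 true 1 79 79 23 0))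
  (.nx 805 10323 (.la (.lg 0 false 1 73 73 23 0)) .out)) .out))) .out) .out) (.nx 1444 832257 (.nr
  1443 1482912 (.nr 810 512 .s1 (.nx 978 168 (.nx 977 167 (.nr 976 6635 (.lx (.lp 43 23 182)) (.l1
  .sk)) (.l1 .sk)) (.nx 1015 205 (.lx (.lp 83 19 182)) (.nr 1442 1048577 (.nr 1228 32769 (.la (.lg
  0 true 1 73 73 29 0)) (.nx 1441 10323 (.la (.lg 0 false 1 71 71 29 0)) .out)) .out)))) .out)
  .out)) (.na 2047 1024 (.nx 2046 10323 (.nr 2045 1048577 (.nr 1446 725 .s1 (.nx 1745 2049 (.la
  (.ls 67 41 5793)) (.nr 2044 16385 (.la (.lg 0 false 1 37 41 31 0)) .out))) .out) .out) (.nx 2900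
  10323 (.nr 2899 1048577 (.nr 2048 1024 .s1 (.nx 2473 2582 (.la (.ls 67 41 6513)) (.nr 2898 16385
  (.la (.ls 37 53 97559)) .out))) .out) .out))) (.na 4355 2897 (.na 3503 2048 (.nx 3502 2582 (.nr
  3501 524289 (.nr 2902 1449 .s1 (.la (.ls 61 37 4603))) .out) .out) (.nx 4354 3252 (.nr 4353
  524289 (.nr 3504 2048 .s1 (.la (.ls 59 41 5166))) .out) .out)) (.na 5725 4096 (.nx 5724 2582 (.nr
  5723 262145 (.nr 4356 2897 .s1 (.nx 4524 168 (.nx 4523 167 (.nr 4522 37485 (.lx (.lp 43 31 1025))
  (.l1 .sk)) (.l1 .sk)) (.la (.ls 53 37 2294)))) .out) .out) (.nx 7592 2582 (.nr 7591 262145 (.nr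
  5726 4096 .s1 (.nx 5894 168 (.nx 5893 167 (.nr 5892 53015 (.lx (.lp 47 37 1449)) (.l1 .sk)) (.l1
  .sk)) (.la (.ls 53 37 1623)))) .out) .out)))) (.na 12506 65536 (.na 10182 16384 (.na 8887 8192
  (.nx 8886 1292 (.nr 8885 65537 (.nr 7594 5793 .s1 (.lx (.lp 43 37 2049))) .out) .out) (.nx 10181
  1292 (.nr 10180 131073 (.nr 8888 8192 .s1 (.nx 9092 205 (.lx (.lp 16 37 4097)) (.nr 10179 65537
  (.lx (.lp 43 41 4097)) .out))) .out) .out)) (.na 11478 32768 (.nx 11477 1292 (.nr 11476 262145
  (.nr 10183 16384 .s1 (.nx 10387 205 (.lx (.lp 16 41 8193)) (.nr 11475 131073 (.nx 10505 322 (.nr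
  10504 65537 (.lx (.lp 41 43 8193)) .out) (.lx (.lp 43 43 8193))) .out))) .out) .out) (.nx 12505
  1025 (.nr 12504 262145 (.nr 11479 32768 .s1 (.nx 11683 205 (.lx (.lp 16 0 16385)) (.nr 12503
  131073 (.lx (.lp 41 47 16385)) .out))) .out) .out))) (.na 13536 262144 (.na 13534 131072 (.nx
  13533 1025 (.nr 13532 262145 (.nr 12507 65536 .s1 (.nx 12830 324 (.lx (.lp 16 0 32769)) (.nr
  13531 131073 (.lx (.lp 37 53 32769)) .out))) .out) .out) (.nx 13535 324 (.l1 .sk) .out)) (.na
  13538 524289 (.nx 13537 205 (.l1 .sk) .out) .out))))

theorem c40 :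
    OkQ ckI L10 231 16 26 0 34359738368 1 1099511627776 ∧
    OkQ ckI L8 167 257 1099511627776 0 34359738368 1 1099511627776 := by
  refine ⟨?_, ?_⟩
  · refine fin 1848 390 T40_0 ?_
    refine jn 4 (by decide +kernel) ?_
    refine jn 5 (by decide +kernel) ?_
    refine jn 6 (by decide +kernel) ?_
    refine jn 7 (by decide +kernel) ?_
    refine jn 8 (by decide +kernel) ?_
    refine jn 9 (by decide +kernel) ?_
    refine jn 10 (by decide +kernel) ?_
    refine jn 11 (by decide +kernel) ?_
    refine jn 12 (by decide +kernel) ?_
    refine jn 13 (by decide +kernel) ?_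
    refine jn 14 (by decide +kernel) ?_
    refine jn 15 (by decide +kernel) ?_
    refine jn 16 (by decide +kernel) ?_
    refine jn 17 (by decide +kernel) ?_
    refine jn 18 (by decide +kernel) ?_
    refine jn 19 (by decide +kernel) ?_
    refine jn 20 (by decide +kernel) ?_
    refine jn 21 (by decide +kernel) ?_
    refine jn 22 (by decide +kernel) ?_
    refine jn 23 (by decide +kernel) ?_
    refine jn 24 (by decide +kernel) ?_
    refine jn 25 (by decide +kernel) ?_
    refine jn 26 (by decide +kernel) ?_
    refine jn 27 (by decide +kernel) ?_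
    refine jn 30 (by decide +kernel) ?_
    refine jn 32 (by decide +kernel) ?_
    refine jn 34 (by decide +kernel) ?_
    refine jn 35 (by decide +kernel) ?_
    refine jn 36 (by decide +kernel) ?_
    refine jn 37 (by decide +kernel) ?_
    refine jn 38 (by decide +kernel) ?_
    refine jn 39 (by decide +kernel) ?_
    refine jn 40 (by decide +kernel) ?_
    refine jn 41 (by decide +kernel) ?_
    refine jn 42 (by decide +kernel) ?_
    refine jn 43 (by decide +kernel) ?_
    refine jn 44 (by decide +kernel) ?_
    refine jn 45 (by decide +kernel) ?_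
    refine jn 46 (by decide +kernel) ?_
    refine jn 51 (by decide +kernel) ?_
    refine jn 54 (by decide +kernel) ?_
    refine jn 61 (by decide +kernel) ?_
    refine jn 66 (by decide +kernel) ?_
    refine jn 70 (by decide +kernel) ?_
    refine jn 72 (by decide +kernel) ?_
    refine jn 74 (by decide +kernel) ?_
    refine jn 76 (by decide +kernel) ?_
    refine jn 78 (by decide +kernel) ?_
    refine jn 82 (by decide +kernel) ?_
    refine jn 88 (by decide +kernel) ?_
    refine jn 102 (by decide +kernel) ?_
    refine jn 107 (by decide +kernel) ?_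
    refine jn 110 (by decide +kernel) ?_
    refine jn 114 (by decide +kernel) ?_
    refine jn 122 (by decide +kernel) ?_
    refine jn 133 (by decide +kernel) ?_
    refine jn 142 (by decide +kernel) ?_
    refine jn 151 (by decide +kernel) ?_
    refine jn 152 (by decide +kernel) ?_
    refine jn 153 (by decide +kernel) ?_
    refine jn 154 (by decide +kernel) ?_
    refine jn 155 (by decide +kernel) ?_
    refine jn 156 (by decide +kernel) ?_
    refine jn 157 (by decide +kernel) ?_
    refine jn 158 (by decide +kernel) ?_
    refine jn 162 (by decide +kernel) ?_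
    refine jn 163 (by decide +kernel) ?_
    refine jn 164 (by decide +kernel) ?_
    refine jn 165 (by decide +kernel) ?_
    refine jn 166 (by decide +kernel) ?_
    refine jn 167 (by decide +kernel) ?_
    refine jn 169 (by decide +kernel) ?_
    refine jn 170 (by decide +kernel) ?_
    refine jn 171 (by decide +kernel) ?_
    refine jn 172 (by decide +kernel) ?_
    refine jn 173 (by decide +kernel) ?_
    refine jn 174 (by decide +kernel) ?_
    refine jn 177 (by decide +kernel) ?_
    refine jn 179 (by decide +kernel) ?_
    refine jn 181 (by decide +kernel) ?_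
    refine jn 183 (by decide +kernel) ?_
    refine jn 185 (by decide +kernel) ?_
    refine jn 187 (by decide +kernel) ?_
    refine jn 190 (by decide +kernel) ?_
    refine jn 194 (by decide +kernel) ?_
    refine jn 199 (by decide +kernel) ?_
    refine jn 222 (by decide +kernel) ?_
    refine jn 248 (by decide +kernel) ?_
    refine jn 276 (by decide +kernel) ?_
    refine jn 302 (by decide +kernel) ?_
    refine jn 315 (by decide +kernel) ?_
    refine jn 316 (by decide +kernel) ?_
    refine jn 317 (by decide +kernel) ?_
    refine jn 318 (by decide +kernel) ?_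
    refine jn 319 (by decide +kernel) ?_
    refine jn 320 (by decide +kernel) ?_
    refine jn 321 (by decide +kernel) ?_
    refine jn 326 (by decide +kernel) ?_
    refine jn 329 (by decide +kernel) ?_
    refine jn 332 (by decide +kernel) ?_
    refine jn 335 (by decide +kernel) ?_
    refine jn 337 (by decide +kernel) ?_
    refine jn 344 (by decide +kernel) ?_
    refine jn 349 (by decide +kernel) ?_
    refine jn 357 (by decide +kernel) ?_
    refine jn 361 (by decide +kernel) ?_
    refine jn 369 (by decide +kernel) ?_
    refine jn 379 (by decide +kernel) ?_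
    exact je (by decide +kernel)
  · refine fin 72 13539 T40_1 ?_
    refine jn 8 (by decide +kernel) ?_
    refine jn 9 (by decide +kernel) ?_
    refine jn 35 (by decide +kernel) ?_
    refine jn 52 (by decide +kernel) ?_
    refine jn 80 (by decide +kernel) ?_
    refine jn 81 (by decide +kernel) ?_
    refine jn 96 (by decide +kernel) ?_
    refine jn 116 (by decide +kernel) ?_
    refine jn 128 (by decide +kernel) ?_
    refine jn 140 (by decide +kernel) ?_
    refine jn 162 (by decide +kernel) ?_
    refine jn 178 (by decide +kernel) ?_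
    refine jn 200 (by decide +kernel) ?_
    refine jn 201 (by decide +kernel) ?_
    refine jn 228 (by decide +kernel) ?_
    refine jn 248 (by decide +kernel) ?_
    refine jn 249 (by decide +kernel) ?_
    refine jn 282 (by decide +kernel) ?_
    refine jn 301 (by decide +kernel) ?_
    refine jn 302 (by decide +kernel) ?_
    refine jn 303 (by decide +kernel) ?_
    refine jn 305 (by decide +kernel) ?_
    refine jn 317 (by decide +kernel) ?_
    refine jn 320 (by decide +kernel) ?_
    refine jn 326 (by decide +kernel) ?_
    refine jn 327 (by decide +kernel) ?_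
    refine jn 332 (by decide +kernel) ?_
    refine jn 342 (by decide +kernel) ?_
    refine jn 343 (by decide +kernel) ?_
    refine jn 346 (by decide +kernel) ?_
    refine jn 347 (by decide +kernel) ?_
    refine jn 357 (by decide +kernel) ?_
    refine jn 362 (by decide +kernel) ?_
    refine jn 372 (by decide +kernel) ?_
    refine jn 374 (by decide +kernel) ?_
    refine jn 375 (by decide +kernel) ?_
    refine jn 380 (by decide +kernel) ?_
    refine jn 384 (by decide +kernel) ?_
    refine jn 386 (by decide +kernel) ?_
    refine jn 387 (by decide +kernel) ?_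
    refine jn 391 (by decide +kernel) ?_
    refine jn 396 (by decide +kernel) ?_
    refine jn 400 (by decide +kernel) ?_
    refine jn 404 (by decide +kernel) ?_
    refine jn 410 (by decide +kernel) ?_
    refine jn 414 (by decide +kernel) ?_
    refine jn 415 (by decide +kernel) ?_
    refine jn 420 (by decide +kernel) ?_
    refine jn 422 (by decide +kernel) ?_
    refine jn 426 (by decide +kernel) ?_
    refine jn 430 (by decide +kernel) ?_
    refine jn 434 (by decide +kernel) ?_
    refine jn 435 (by decide +kernel) ?_
    refine jn 437 (by decide +kernel) ?_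
    refine jn 444 (by decide +kernel) ?_
    refine jn 449 (by decide +kernel) ?_
    refine jn 457 (by decide +kernel) ?_
    refine jn 461 (by decide +kernel) ?_
    refine jn 466 (by decide +kernel) ?_
    refine jn 470 (by decide +kernel) ?_
    refine jn 471 (by decide +kernel) ?_
    refine jn 479 (by decide +kernel) ?_
    refine jn 486 (by decide +kernel) ?_
    refine jn 487 (by decide +kernel) ?_
    refine jn 494 (by decide +kernel) ?_
    refine jn 495 (by decide +kernel) ?_
    refine jn 500 (by decide +kernel) ?_
    refine jn 502 (by decide +kernel) ?_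
    refine jn 504 (by decide +kernel) ?_
    refine jn 516 (by decide +kernel) ?_
    refine jn 525 (by decide +kernel) ?_
    refine jn 529 (by decide +kernel) ?_
    refine jn 534 (by decide +kernel) ?_
    refine jn 539 (by decide +kernel) ?_
    refine jn 542 (by decide +kernel) ?_
    refine jn 543 (by decide +kernel) ?_
    refine jn 554 (by decide +kernel) ?_
    refine jn 557 (by decide +kernel) ?_
    refine jn 558 (by decide +kernel) ?_
    refine jn 567 (by decide +kernel) ?_
    refine jn 575 (by decide +kernel) ?_
    refine jn 581 (by decide +kernel) ?_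
    refine jn 584 (by decide +kernel) ?_
    refine jn 590 (by decide +kernel) ?_
    refine jn 597 (by decide +kernel) ?_
    refine jn 601 (by decide +kernel) ?_
    refine jn 607 (by decide +kernel) ?_
    refine jn 614 (by decide +kernel) ?_
    refine jn 622 (by decide +kernel) ?_
    refine jn 629 (by decide +kernel) ?_
    refine jn 630 (by decide +kernel) ?_
    refine jn 636 (by decide +kernel) ?_
    refine jn 641 (by decide +kernel) ?_
    refine jn 645 (by decide +kernel) ?_
    refine jn 649 (by decide +kernel) ?_
    refine jn 654 (by decide +kernel) ?_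
    refine jn 659 (by decide +kernel) ?_
    refine jn 665 (by decide +kernel) ?_
    refine jn 669 (by decide +kernel) ?_
    refine jn 671 (by decide +kernel) ?_
    refine jn 676 (by decide +kernel) ?_
    refine jn 681 (by decide +kernel) ?_
    refine jn 689 (by decide +kernel) ?_
    refine jn 691 (by decide +kernel) ?_
    refine jn 699 (by decide +kernel) ?_
    refine jn 711 (by decide +kernel) ?_
    refine jn 715 (by decide +kernel) ?_
    refine jn 721 (by decide +kernel) ?_
    refine jn 725 (by decide +kernel) ?_
    refine jn 727 (by decide +kernel) ?_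
    refine jn 741 (by decide +kernel) ?_
    refine jn 749 (by decide +kernel) ?_
    refine jn 750 (by decide +kernel) ?_
    refine jn 755 (by decide +kernel) ?_
    refine jn 757 (by decide +kernel) ?_
    refine jn 760 (by decide +kernel) ?_
    refine jn 777 (by decide +kernel) ?_
    refine jn 781 (by decide +kernel) ?_
    refine jn 789 (by decide +kernel) ?_
    refine jn 795 (by decide +kernel) ?_
    refine jn 797 (by decide +kernel) ?_
    refine jn 798 (by decide +kernel) ?_
    refine jn 831 (by decide +kernel) ?_
    refine jn 912 (by decide +kernel) ?_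
    refine jn 995 (by decide +kernel) ?_
    refine jn 1020 (by decide +kernel) ?_
    refine jn 1025 (by decide +kernel) ?_
    refine jn 1031 (by decide +kernel) ?_
    refine jn 1032 (by decide +kernel) ?_
    refine jn 1037 (by decide +kernel) ?_
    refine jn 1042 (by decide +kernel) ?_
    refine jn 1051 (by decide +kernel) ?_
    refine jn 1054 (by decide +kernel) ?_
    refine jn 1061 (by decide +kernel) ?_
    refine jn 1067 (by decide +kernel) ?_
    refine jn 1069 (by decide +kernel) ?_
    refine jn 1079 (by decide +kernel) ?_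
    refine jn 1085 (by decide +kernel) ?_
    refine jn 1091 (by decide +kernel) ?_
    refine jn 1092 (by decide +kernel) ?_
    refine jn 1100 (by decide +kernel) ?_
    refine jn 1111 (by decide +kernel) ?_
    refine jn 1112 (by decide +kernel) ?_
    refine jn 1116 (by decide +kernel) ?_
    refine jn 1119 (by decide +kernel) ?_
    refine jn 1120 (by decide +kernel) ?_
    refine jn 1130 (by decide +kernel) ?_
    refine jn 1131 (by decide +kernel) ?_
    refine jn 1137 (by decide +kernel) ?_
    refine jn 1150 (by decide +kernel) ?_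
    refine jn 1154 (by decide +kernel) ?_
    refine jn 1156 (by decide +kernel) ?_
    refine jn 1172 (by decide +kernel) ?_
    refine jn 1175 (by decide +kernel) ?_
    refine jn 1176 (by decide +kernel) ?_
    refine jn 1185 (by decide +kernel) ?_
    refine jn 1187 (by decide +kernel) ?_
    refine jn 1190 (by decide +kernel) ?_
    refine jn 1196 (by decide +kernel) ?_
    refine jn 1199 (by decide +kernel) ?_
    refine jn 1200 (by decide +kernel) ?_
    refine jn 1207 (by decide +kernel) ?_
    refine jn 1215 (by decide +kernel) ?_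
    refine jn 1220 (by decide +kernel) ?_
    refine jn 1227 (by decide +kernel) ?_
    refine jn 1233 (by decide +kernel) ?_
    refine jn 1239 (by decide +kernel) ?_
    refine jn 1244 (by decide +kernel) ?_
    refine jn 1245 (by decide +kernel) ?_
    refine jn 1253 (by decide +kernel) ?_
    refine jn 1264 (by decide +kernel) ?_
    refine jn 1273 (by decide +kernel) ?_
    refine jn 1279 (by decide +kernel) ?_
    refine jn 1282 (by decide +kernel) ?_
    refine jn 1292 (by decide +kernel) ?_
    refine jn 1298 (by decide +kernel) ?_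
    refine jn 1304 (by decide +kernel) ?_
    refine jn 1310 (by decide +kernel) ?_
    refine jn 1317 (by decide +kernel) ?_
    refine jn 1325 (by decide +kernel) ?_
    refine jn 1332 (by decide +kernel) ?_
    refine jn 1333 (by decide +kernel) ?_
    refine jn 1343 (by decide +kernel) ?_
    refine jn 1347 (by decide +kernel) ?_
    refine jn 1354 (by decide +kernel) ?_
    refine jn 1364 (by decide +kernel) ?_
    refine jn 1367 (by decide +kernel) ?_
    refine jn 1374 (by decide +kernel) ?_
    refine jn 1387 (by decide +kernel) ?_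
    refine jn 1388 (by decide +kernel) ?_
    refine jn 1389 (by decide +kernel) ?_
    refine jn 1398 (by decide +kernel) ?_
    refine jn 1402 (by decide +kernel) ?_
    refine jn 1409 (by decide +kernel) ?_
    refine jn 1412 (by decide +kernel) ?_
    refine jn 1413 (by decide +kernel) ?_
    refine jn 1420 (by decide +kernel) ?_
    refine jn 1428 (by decide +kernel) ?_
    refine jn 1433 (by decide +kernel) ?_
    refine jn 1440 (by decide +kernel) ?_
    refine jn 1464 (by decide +kernel) ?_
    refine jn 1473 (by decide +kernel) ?_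
    refine jn 1485 (by decide +kernel) ?_
    refine jn 1505 (by decide +kernel) ?_
    refine jn 1517 (by decide +kernel) ?_
    refine jn 1543 (by decide +kernel) ?_
    refine jn 1565 (by decide +kernel) ?_
    refine jn 1583 (by decide +kernel) ?_
    refine jn 1603 (by decide +kernel) ?_
    refine jn 1620 (by decide +kernel) ?_
    refine jn 1645 (by decide +kernel) ?_
    refine jn 1654 (by decide +kernel) ?_
    refine jn 1684 (by decide +kernel) ?_
    refine jn 1708 (by decide +kernel) ?_
    refine jn 1729 (by decide +kernel) ?_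
    refine jn 1744 (by decide +kernel) ?_
    refine jn 1754 (by decide +kernel) ?_
    refine jn 1764 (by decide +kernel) ?_
    refine jn 1765 (by decide +kernel) ?_
    refine jn 1776 (by decide +kernel) ?_
    refine jn 1786 (by decide +kernel) ?_
    refine jn 1804 (by decide +kernel) ?_
    refine jn 1812 (by decide +kernel) ?_
    refine jn 1813 (by decide +kernel) ?_
    refine jn 1832 (by decide +kernel) ?_
    refine jn 1856 (by decide +kernel) ?_
    refine jn 1863 (by decide +kernel) ?_
    refine jn 1874 (by decide +kernel) ?_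
    refine jn 1884 (by decide +kernel) ?_
    refine jn 1897 (by decide +kernel) ?_
    refine jn 1912 (by decide +kernel) ?_
    refine jn 1927 (by decide +kernel) ?_
    refine jn 1932 (by decide +kernel) ?_
    refine jn 1936 (by decide +kernel) ?_
    refine jn 1944 (by decide +kernel) ?_
    refine jn 1945 (by decide +kernel) ?_
    refine jn 1954 (by decide +kernel) ?_
    refine jn 1977 (by decide +kernel) ?_
    refine jn 1988 (by decide +kernel) ?_
    refine jn 2002 (by decide +kernel) ?_
    refine jn 2024 (by decide +kernel) ?_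
    refine jn 2028 (by decide +kernel) ?_
    refine jn 2031 (by decide +kernel) ?_
    refine jn 2043 (by decide +kernel) ?_
    refine jn 2062 (by decide +kernel) ?_
    refine jn 2080 (by decide +kernel) ?_
    refine jn 2088 (by decide +kernel) ?_
    refine jn 2101 (by decide +kernel) ?_
    refine jn 2122 (by decide +kernel) ?_
    refine jn 2148 (by decide +kernel) ?_
    refine jn 2167 (by decide +kernel) ?_
    refine jn 2193 (by decide +kernel) ?_
    refine jn 2211 (by decide +kernel) ?_
    refine jn 2235 (by decide +kernel) ?_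
    refine jn 2256 (by decide +kernel) ?_
    refine jn 2278 (by decide +kernel) ?_
    refine jn 2293 (by decide +kernel) ?_
    refine jn 2320 (by decide +kernel) ?_
    refine jn 2345 (by decide +kernel) ?_
    refine jn 2368 (by decide +kernel) ?_
    refine jn 2388 (by decide +kernel) ?_
    refine jn 2408 (by decide +kernel) ?_
    refine jn 2422 (by decide +kernel) ?_
    refine jn 2448 (by decide +kernel) ?_
    refine jn 2473 (by decide +kernel) ?_
    refine jn 2487 (by decide +kernel) ?_
    refine jn 2501 (by decide +kernel) ?_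
    refine jn 2508 (by decide +kernel) ?_
    refine jn 2513 (by decide +kernel) ?_
    refine jn 2517 (by decide +kernel) ?_
    refine jn 2532 (by decide +kernel) ?_
    refine jn 2545 (by decide +kernel) ?_
    refine jn 2552 (by decide +kernel) ?_
    refine jn 2575 (by decide +kernel) ?_
    refine jn 2581 (by decide +kernel) ?_
    refine jn 2601 (by decide +kernel) ?_
    refine jn 2620 (by decide +kernel) ?_
    refine jn 2626 (by decide +kernel) ?_
    refine jn 2642 (by decide +kernel) ?_
    refine jn 2662 (by decide +kernel) ?_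
    refine jn 2676 (by decide +kernel) ?_
    refine jn 2682 (by decide +kernel) ?_
    refine jn 2703 (by decide +kernel) ?_
    refine jn 2712 (by decide +kernel) ?_
    refine jn 2725 (by decide +kernel) ?_
    refine jn 2733 (by decide +kernel) ?_
    refine jn 2748 (by decide +kernel) ?_
    refine jn 2768 (by decide +kernel) ?_
    refine jn 2793 (by decide +kernel) ?_
    refine jn 2807 (by decide +kernel) ?_
    refine jn 2817 (by decide +kernel) ?_
    refine jn 2832 (by decide +kernel) ?_
    refine jn 2841 (by decide +kernel) ?_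
    refine jn 2847 (by decide +kernel) ?_
    refine jn 2870 (by decide +kernel) ?_
    refine jn 2883 (by decide +kernel) ?_
    refine jn 2907 (by decide +kernel) ?_
    refine jn 2930 (by decide +kernel) ?_
    refine jn 2959 (by decide +kernel) ?_
    refine jn 2977 (by decide +kernel) ?_
    refine jn 3004 (by decide +kernel) ?_
    refine jn 3024 (by decide +kernel) ?_
    refine jn 3049 (by decide +kernel) ?_
    refine jn 3072 (by decide +kernel) ?_
    refine jn 3106 (by decide +kernel) ?_
    refine jn 3135 (by decide +kernel) ?_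
    refine jn 3154 (by decide +kernel) ?_
    refine jn 3181 (by decide +kernel) ?_
    refine jn 3211 (by decide +kernel) ?_
    refine jn 3237 (by decide +kernel) ?_
    refine jn 3275 (by decide +kernel) ?_
    refine jn 3297 (by decide +kernel) ?_
    refine jn 3311 (by decide +kernel) ?_
    refine jn 3337 (by decide +kernel) ?_
    refine jn 3367 (by decide +kernel) ?_
    refine jn 3405 (by decide +kernel) ?_
    refine jn 3437 (by decide +kernel) ?_
    refine jn 3469 (by decide +kernel) ?_
    refine jn 3490 (by decide +kernel) ?_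
    refine jn 3519 (by decide +kernel) ?_
    refine jn 3548 (by decide +kernel) ?_
    refine jn 3574 (by decide +kernel) ?_
    refine jn 3604 (by decide +kernel) ?_
    refine jn 3634 (by decide +kernel) ?_
    refine jn 3660 (by decide +kernel) ?_
    refine jn 3689 (by decide +kernel) ?_
    refine jn 3714 (by decide +kernel) ?_
    refine jn 3749 (by decide +kernel) ?_
    refine jn 3784 (by decide +kernel) ?_
    refine jn 3808 (by decide +kernel) ?_
    refine jn 3832 (by decide +kernel) ?_
    refine jn 3857 (by decide +kernel) ?_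
    refine jn 3892 (by decide +kernel) ?_
    refine jn 3920 (by decide +kernel) ?_
    refine jn 3964 (by decide +kernel) ?_
    refine jn 3982 (by decide +kernel) ?_
    refine jn 4008 (by decide +kernel) ?_
    refine jn 4027 (by decide +kernel) ?_
    refine jn 4060 (by decide +kernel) ?_
    refine jn 4093 (by decide +kernel) ?_
    refine jn 4132 (by decide +kernel) ?_
    refine jn 4152 (by decide +kernel) ?_
    refine jn 4184 (by decide +kernel) ?_
    refine jn 4209 (by decide +kernel) ?_
    refine jn 4240 (by decide +kernel) ?_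
    refine jn 4260 (by decide +kernel) ?_
    refine jn 4309 (by decide +kernel) ?_
    refine jn 4333 (by decide +kernel) ?_
    refine jn 4462 (by decide +kernel) ?_
    refine jn 4555 (by decide +kernel) ?_
    refine jn 4596 (by decide +kernel) ?_
    refine jn 4639 (by decide +kernel) ?_
    refine jn 4675 (by decide +kernel) ?_
    refine jn 4718 (by decide +kernel) ?_
    refine jn 4763 (by decide +kernel) ?_
    refine jn 4811 (by decide +kernel) ?_
    refine jn 4841 (by decide +kernel) ?_
    refine jn 4888 (by decide +kernel) ?_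
    refine jn 4933 (by decide +kernel) ?_
    refine jn 4979 (by decide +kernel) ?_
    refine jn 5014 (by decide +kernel) ?_
    refine jn 5056 (by decide +kernel) ?_
    refine jn 5099 (by decide +kernel) ?_
    refine jn 5148 (by decide +kernel) ?_
    refine jn 5190 (by decide +kernel) ?_
    refine jn 5223 (by decide +kernel) ?_
    refine jn 5275 (by decide +kernel) ?_
    refine jn 5313 (by decide +kernel) ?_
    refine jn 5349 (by decide +kernel) ?_
    refine jn 5395 (by decide +kernel) ?_
    refine jn 5441 (by decide +kernel) ?_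
    refine jn 5489 (by decide +kernel) ?_
    refine jn 5533 (by decide +kernel) ?_
    refine jn 5584 (by decide +kernel) ?_
    refine jn 5638 (by decide +kernel) ?_
    refine jn 5678 (by decide +kernel) ?_
    refine jn 5723 (by decide +kernel) ?_
    refine jn 5807 (by decide +kernel) ?_
    refine jn 5934 (by decide +kernel) ?_
    refine jn 5982 (by decide +kernel) ?_
    refine jn 6022 (by decide +kernel) ?_
    refine jn 6067 (by decide +kernel) ?_
    refine jn 6110 (by decide +kernel) ?_
    refine jn 6159 (by decide +kernel) ?_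
    refine jn 6202 (by decide +kernel) ?_
    refine jn 6255 (by decide +kernel) ?_
    refine jn 6305 (by decide +kernel) ?_
    refine jn 6347 (by decide +kernel) ?_
    refine jn 6401 (by decide +kernel) ?_
    refine jn 6457 (by decide +kernel) ?_
    refine jn 6505 (by decide +kernel) ?_
    refine jn 6551 (by decide +kernel) ?_
    refine jn 6601 (by decide +kernel) ?_
    refine jn 6662 (by decide +kernel) ?_
    refine jn 6705 (by decide +kernel) ?_
    refine jn 6757 (by decide +kernel) ?_
    refine jn 6814 (by decide +kernel) ?_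
    refine jn 6844 (by decide +kernel) ?_
    refine jn 6880 (by decide +kernel) ?_
    refine jn 6929 (by decide +kernel) ?_
    refine jn 6982 (by decide +kernel) ?_
    refine jn 7025 (by decide +kernel) ?_
    refine jn 7082 (by decide +kernel) ?_
    refine jn 7144 (by decide +kernel) ?_
    refine jn 7184 (by decide +kernel) ?_
    refine jn 7236 (by decide +kernel) ?_
    refine jn 7294 (by decide +kernel) ?_
    refine jn 7337 (by decide +kernel) ?_
    refine jn 7384 (by decide +kernel) ?_
    refine jn 7432 (by decide +kernel) ?_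
    refine jn 7494 (by decide +kernel) ?_
    refine jn 7540 (by decide +kernel) ?_
    refine jn 7678 (by decide +kernel) ?_
    refine jn 7874 (by decide +kernel) ?_
    refine jn 7978 (by decide +kernel) ?_
    refine jn 8068 (by decide +kernel) ?_
    refine jn 8149 (by decide +kernel) ?_
    refine jn 8234 (by decide +kernel) ?_
    refine jn 8308 (by decide +kernel) ?_
    refine jn 8376 (by decide +kernel) ?_
    refine jn 8408 (by decide +kernel) ?_
    refine jn 8488 (by decide +kernel) ?_
    refine jn 8540 (by decide +kernel) ?_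
    refine jn 8581 (by decide +kernel) ?_
    refine jn 8642 (by decide +kernel) ?_
    refine jn 8672 (by decide +kernel) ?_
    refine jn 8713 (by decide +kernel) ?_
    refine jn 8753 (by decide +kernel) ?_
    refine jn 8784 (by decide +kernel) ?_
    refine jn 8824 (by decide +kernel) ?_
    refine jn 8862 (by decide +kernel) ?_
    refine jn 9092 (by decide +kernel) ?_
    refine jn 9153 (by decide +kernel) ?_
    refine jn 9248 (by decide +kernel) ?_
    refine jn 9296 (by decide +kernel) ?_
    refine jn 9362 (by decide +kernel) ?_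
    refine jn 9432 (by decide +kernel) ?_
    refine jn 9480 (by decide +kernel) ?_
    refine jn 9519 (by decide +kernel) ?_
    refine jn 9575 (by decide +kernel) ?_
    refine jn 9618 (by decide +kernel) ?_
    refine jn 9678 (by decide +kernel) ?_
    refine jn 9726 (by decide +kernel) ?_
    refine jn 9768 (by decide +kernel) ?_
    refine jn 9808 (by decide +kernel) ?_
    refine jn 9856 (by decide +kernel) ?_
    refine jn 9894 (by decide +kernel) ?_
    refine jn 9928 (by decide +kernel) ?_
    refine jn 9960 (by decide +kernel) ?_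
    refine jn 10002 (by decide +kernel) ?_
    refine jn 10043 (by decide +kernel) ?_
    refine jn 10070 (by decide +kernel) ?_
    refine jn 10096 (by decide +kernel) ?_
    refine jn 10125 (by decide +kernel) ?_
    refine jn 10154 (by decide +kernel) ?_
    refine jn 10183 (by decide +kernel) ?_
    refine jn 10477 (by decide +kernel) ?_
    refine jn 10548 (by decide +kernel) ?_
    refine jn 10632 (by decide +kernel) ?_
    refine jn 10692 (by decide +kernel) ?_
    refine jn 10782 (by decide +kernel) ?_
    refine jn 10838 (by decide +kernel) ?_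
    refine jn 10898 (by decide +kernel) ?_
    refine jn 10958 (by decide +kernel) ?_
    refine jn 11005 (by decide +kernel) ?_
    refine jn 11064 (by decide +kernel) ?_
    refine jn 11111 (by decide +kernel) ?_
    refine jn 11159 (by decide +kernel) ?_
    refine jn 11232 (by decide +kernel) ?_
    refine jn 11262 (by decide +kernel) ?_
    refine jn 11314 (by decide +kernel) ?_
    refine jn 11358 (by decide +kernel) ?_
    refine jn 11384 (by decide +kernel) ?_
    refine jn 11415 (by decide +kernel) ?_
    refine jn 11460 (by decide +kernel) ?_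
    refine jn 11773 (by decide +kernel) ?_
    refine jn 11843 (by decide +kernel) ?_
    refine jn 11908 (by decide +kernel) ?_
    refine jn 12023 (by decide +kernel) ?_
    refine jn 12103 (by decide +kernel) ?_
    refine jn 12158 (by decide +kernel) ?_
    refine jn 12209 (by decide +kernel) ?_
    refine jn 12296 (by decide +kernel) ?_
    refine jn 12367 (by decide +kernel) ?_
    refine jn 12437 (by decide +kernel) ?_
    refine jn 12503 (by decide +kernel) ?_
    refine jn 12925 (by decide +kernel) ?_
    refine jn 13031 (by decide +kernel) ?_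
    refine jn 13110 (by decide +kernel) ?_
    refine jn 13221 (by decide +kernel) ?_
    refine jn 13313 (by decide +kernel) ?_
    refine jn 13391 (by decide +kernel) ?_
    refine jn 13467 (by decide +kernel) ?_
    exact je (by decide +kernel)

end Pool.Agent.MP_2339ce_nt.NR
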