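import Pool.Agent.MP_2339ce_nt.Q2.NC.L3
import Pool.Agent.MP_2339ce_nt.Q2.NC.L6
import Pool.Agent.MP_2339ce_nt.Q2.NC.L10
import Pool.Agent.MP_2339ce_nt.Q2.CkI

/-! Block NR: runs. -/

set_option autoImplicit false
set_option maxRecDepth 100000

noncomputable section

namespace Pool.Agent.MP_2339ce_nt.NR

open Q2.Top

def T44_0 : Ph :=
  (.na 856 149 (.na 521 81 (.na 303 49 (.na 187 32 (.na 101 27 (.na 50 23 (.na 26 22 (.nx 25
  1321124 (.nr 24 1048577 (.nr 1 19 .s1 (.nx 4 97 (.nx 3 96 (.nr 2 153 (.lg 0 false 1 23 23 16 0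
  55440) (.l1 .sk)) (.l1 .sk)) (.nx 7 324 (.nx 5 205 (.l1 (.ls 83 37 1556)) (.nr 6 623489 (.l1 (.ls
  79 41 3000)) .out)) (.nr 23 220437 (.nr 21 131073 (.nx 12 16385 (.lg 0 false 5 83 89 17 0 5040)
  (.nr 20 46342 (.nr 17 498 (.lg 0 true 5 73 73 17 0 5040) (.nx 19 165142 (.lg 2 true 2 89 89 16
  15918 5040) .out)) .out)) (.nx 22 814 (.lg 0 true 1 73 73 16 0 5040) .out)) .out)))) .out) .out)
  (.nx 49 1321124 (.nr 48 1048577 (.nr 27 20 .s1 (.nx 29 96 (.nr 28 160 (.lg 0 false 1 23 23 9 0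
  55440) (.l1 .sk)) (.nx 30 97 (.l1 .sk) (.nx 31 205 (.l1 (.ls 79 41 1485)) (.nr 47 623489 (.nx 32
  324 (.l1 (.ls 79 43 2864)) (.nr 46 220437 (.nx 37 10323 (.lg 0 false 5 83 83 19 0 2640) (.nr 45
  55110 (.nr 42 498 (.lg 0 true 5 73 73 19 0 2640) (.nx 44 165142 (.lg 2 true 2 97 97 13 24645
  55440) .out)) .out)) .out)) .out))))) .out) .out)) (.na 51 24 .ne (.na 73 25 (.nx 72 1321124 (.nr
  71 1048577 (.nr 52 22 .s1 (.nx 54 96 (.nr 53 174 (.lg 0 true 1 19 19 13 0 5040) (.l1 .sk)) (.nx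
  55 97 (.l1 .sk) (.nx 56 205 (.l1 (.ls 79 41 1362)) (.nr 70 185365 (.nx 61 16385 (.lg 0 false 5 89
  89 19 0 5040) (.nr 69 38969 (.nr 66 513 (.lg 0 true 5 73 73 19 0 720) (.nx 68 82572 (.lg 2 true 2
  83 83 13 10987 5040) .out)) .out)) .out))))) .out) .out) (.nx 100 1321124 (.nr 99 1048577 (.nr 74
  24 .s1 (.nx 78 205 (.nx 76 96 (.nr 75 188 (.l1 (.ls 23 19 371)) (.l1 .sk)) (.nx 77 97 (.l1 .sk)
  (.l1 (.ls 79 29 1307)))) (.nr 98 185365 (.nr 91 32769 (.nx 85 82572 (.lg 0 false 7 79 79 16 0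
  1680) (.nr 90 513 (.lg 0 true 5 73 73 16 0 240) .out)) (.nx 97 26009 (.nx 94 10323 (.lg 0 false 3
  89 89 16 0 720) (.nr 96 55110 (.lg 0 false 2 79 79 16 0 240) .out)) .out)) .out))) .out) .out))))
  (.na 121 29 (.na 102 28 (.lg 0 false 1 0 0 7 0 24) (.nx 120 1321124 (.nr 119 1048577 (.nr 103 27
  .s1 (.nx 106 97 (.nx 105 96 (.nr 104 202 (.l1 (.ls 29 31 332)) (.l1 .sk)) (.l1 .sk)) (.nx 107 205
  (.l1 (.ls 83 37 1167)) (.nr 118 185365 (.nx 109 10323 (.lg 0 false 2 97 97 19 0 5040) (.nr 117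
  55110 (.nr 113 513 (.nx 110 165142 (.lg 0 false 1 73 73 13 0 5040) (.nr 112 183 (.lg 0 true 2 71
  71 19 0 336) .out)) (.nx 116 82572 (.nx 114 26009 (.lg 1 true 1 89 89 13 24645 5040) (.nr 115
  32769 (.lg 1 false 1 89 89 13 7727 5040) .out)) .out)) .out)) .out)))) .out) .out)) (.na 143 30
  (.nx 142 1321124 (.nr 141 1048577 (.nr 122 28 .s1 (.nx 126 205 (.nx 124 96 (.nr 123 209 (.l1 (.ls
  19 17 320)) (.l1 .sk)) (.nx 125 97 (.l1 .sk) (.l1 (.ls 79 23 1127)))) (.nr 140 185365 (.nx 131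
  16385 (.lg 0 false 5 83 89 16 0 240) (.nr 139 38969 (.nr 136 513 (.lg 0 true 5 73 73 16 0 240)
  (.nx 138 82572 (.lg 2 false 2 79 79 16 10987 48) .out)) .out)) .out))) .out) .out) (.na 165 31
  (.nx 164 1321124 (.nr 163 1048577 (.nr 144 29 .s1 (.nx 152 16385 (.nx 146 96 (.nr 145 216 (.l1
  (.ls 19 37 310)) (.l1 .sk)) (.nx 147 97 (.l1 .sk) (.nx 148 205 (.l1 (.ls 79 41 1090)) (.nr 151
  185365 (.lg 0 false 3 83 83 23 0 720) .out)))) (.nr 162 38969 (.nr 159 513 (.lg 0 true 7 71 71 29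
  0 5040) (.nx 161 82572 (.lg 2 false 2 73 73 19 10987 720) .out)) .out))) .out) .out) (.nx 186
  1321124 (.nr 185 1048577 (.nr 166 30 .s1 (.nx 168 96 (.nr 167 223 (.l1 (.ls 19 17 300)) (.l1
  .sk)) (.nx 169 97 (.l1 .sk) (.nx 176 16385 (.nx 170 205 (.l1 (.ls 79 23 1055)) (.nr 175 185365
  (.lg 0 false 5 89 89 16 0 5040) .out)) (.nr 184 38969 (.nr 181 513 (.lg 0 true 5 73 73 16 0 240)
  (.nx 183 82572 (.lg 2 false 2 79 79 16 10987 48) .out)) .out))))) .out) .out))))) (.na 256 42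
  (.na 224 35 (.na 206 33 (.nx 205 1321124 (.nr 204 1048577 (.nr 188 31 .s1 (.nx 192 205 (.nx 190
  96 (.nr 189 230 (.l1 (.ls 29 29 290)) (.l1 .sk)) (.nx 191 97 (.l1 .sk) (.l1 (.ls 83 31 1022))))
  (.nr 203 370729 (.nx 197 16385 (.nr 194 92683 (.lg 0 false 2 89 89 13 0 5040) (.nx 196 6503 (.lg
  0 false 2 89 97 13 0 5040) .out)) (.nr 202 38969 (.nr 200 513 (.lg 0 true 3 73 73 19 0 144) (.nx
  201 82572 (.lg 1 false 1 89 89 13 10987 5040) .out)) .out)) .out))) .out) .out) (.nx 223 1321124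
  (.nr 222 370729 (.nr 207 32 .s1 (.nx 209 96 (.nr 208 243 (.l1 (.ls 23 29 282)) (.l1 .sk)) (.nx
  210 97 (.l1 .sk) (.nx 215 13005 (.lg 0 false 5 83 89 19 0 7920) (.nr 221 23172 (.nr 219 243 (.lg
  0 true 4 67 67 17 0 1584) (.nx 220 82572 (.lg 2 true 1 79 79 16 16311 1584) .out)) .out)))))
  .out) .out)) (.na 240 36 (.nx 239 1321124 (.nr 238 370729 (.nr 225 34 .s1 (.nx 227 96 (.nr 226
  250 (.l1 (.ls 29 23 266)) (.l1 .sk)) (.nx 228 97 (.l1 .sk) (.nx 230 6503 (.lg 0 false 2 89 89 17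
  0 1680) (.nr 237 77937 (.nr 235 23172 (.nr 233 250 (.lg 0 true 3 71 71 17 0 5040) (.nx 234 82572
  (.lg 2 true 1 83 83 16 16489 5040) .out)) (.nx 236 13005 (.lg 0 true 1 83 83 16 0 5040) .out))
  .out))))) .out) .out) (.na 241 40 (.lg 0 false 1 0 0 7 0 24) (.nx 255 1321124 (.nr 254 370729
  (.nr 242 39 .s1 (.nx 245 97 (.nx 244 96 (.nr 243 292 (.l1 (.ls 23 29 233)) (.l1 .sk)) (.l1 .sk))
  (.nx 247 6503 (.lg 0 false 2 83 83 19 0 240) (.nr 253 77937 (.nr 249 217 (.lg 0 true 2 67 67 19 0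
  240) (.nx 252 82572 (.nr 250 23172 (.lg 2 true 1 79 79 19 18265 240) (.nx 251 13005 (.lg 0 false
  1 79 79 19 0 240) .out)) .out)) .out)))) .out) .out)))) (.na 288 45 (.na 273 44 (.nx 272 1321124
  (.nr 271 370729 (.nr 257 41 .s1 (.nx 259 96 (.nr 258 306 (.l1 (.ls 23 31 222)) (.l1 .sk)) (.nx
  260 97 (.l1 .sk) (.nx 265 13005 (.lg 0 false 5 83 83 29 0 5040) (.nr 270 23172 (.nr 268 217 (.lg
  0 true 3 61 61 23 0 1008) (.nx 269 82572 (.lg 2 true 1 79 79 19 18265 5040) .out)) .out)))))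
  .out) .out) (.nx 287 1321124 (.nr 286 370729 (.nr 274 43 .s1 (.nx 279 6503 (.nx 276 96 (.nr 275
  313 (.l1 (.ls 29 29 212)) (.l1 .sk)) (.nx 277 97 (.l1 .sk) (.lg 0 false 2 89 89 23 0 7920))) (.nr
  285 77937 (.nr 281 217 (.lg 0 true 2 67 67 23 0 528) (.nx 284 82572 (.nr 282 23172 (.lg 2 true 1
  79 79 19 18265 528) (.nx 283 13005 (.lg 0 false 1 79 79 19 0 528) .out)) .out)) .out))) .out)
  .out)) (.na 289 46 (.lg 0 false 1 0 0 16 0 24) (.na 290 48 .ne (.nx 302 1321124 (.nr 301 311745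
  (.nr 291 47 .s1 (.nx 294 97 (.nx 293 96 (.nr 292 341 (.l1 (.ls 23 29 194)) (.l1 .sk)) (.l1 .sk))
  (.nx 296 10323 (.lg 0 false 2 83 83 23 0 144) (.nr 300 23172 (.nr 298 341 (.lg 0 true 2 67 67 23
  0 144) (.nx 299 82572 (.lg 2 true 1 73 73 19 11624 144) .out)) .out)))) .out) .out)))))) (.na 427
  63 (.na 359 56 (.na 331 53 (.na 317 50 (.nx 316 1321124 (.nr 315 311745 (.nr 304 49 .s1 (.nx 309
  10323 (.nx 306 96 (.nr 305 348 (.l1 (.ls 19 19 191)) (.l1 .sk)) (.nx 307 97 (.l1 .sk) (.lg 0 true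
  2 83 83 16 0 5040))) (.nr 314 23172 (.nr 312 348 (.lg 0 true 3 67 67 16 0 1008) (.nx 313 82572
  (.lg 2 true 1 71 71 16 11390 336) .out)) .out))) .out) .out) (.nx 330 1321124 (.nr 329 311745
  (.nr 318 50 .s1 (.nx 323 10323 (.nx 320 96 (.nr 319 369 (.l1 (.ls 19 29 187)) (.l1 .sk)) (.nx 321
  97 (.l1 .sk) (.lg 0 false 2 79 79 19 0 240))) (.nr 328 23172 (.nr 326 369 (.lg 0 true 3 67 67 19
  0 720) (.nx 327 82572 (.lg 2 true 1 71 71 13 10742 240) .out)) .out))) .out) .out)) (.na 345 54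
  (.nx 344 1321124 (.nr 343 311745 (.nr 332 53 .s1 (.nx 337 10323 (.nx 334 96 (.nr 333 375 (.l1
  (.ls 19 17 176)) (.l1 .sk)) (.nx 335 97 (.l1 .sk) (.lg 0 true 2 89 89 16 0 5040))) (.nr 342 23172
  (.nr 340 375 (.lg 0 true 3 67 67 16 0 144) (.nx 341 82572 (.lg 2 true 1 73 73 16 10570 48) .out))
  .out))) .out) .out) (.na 346 55 (.lg 0 false 1 0 0 16 0 24) (.nx 358 1321124 (.nr 357 311745 (.nr
  347 55 .s1 (.nx 352 10323 (.nx 349 96 (.nr 348 389 (.l1 (.ls 29 19 170)) (.l1 .sk)) (.nx 350 97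
  (.l1 .sk) (.lg 0 false 2 89 89 17 0 2640))) (.nr 356 23172 (.nr 354 389 (.lg 0 true 2 71 71 17 0
  2640) (.nx 355 82572 (.lg 2 true 1 73 73 17 10387 2640) .out)) .out))) .out) .out)))) (.na 386 59
  (.na 372 58 (.nx 371 1321124 (.nr 370 311745 (.nr 360 56 .s1 (.nx 363 97 (.nx 362 96 (.nr 361 403
  (.l1 (.ls 29 29 167)) (.l1 .sk)) (.l1 .sk)) (.nx 365 10323 (.lg 0 false 2 89 89 23 0 5040) (.nr
  369 23172 (.nr 367 403 (.lg 0 true 2 71 71 23 0 336) (.nx 368 82572 (.lg 2 true 1 73 73 19 10387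
  336) .out)) .out)))) .out) .out) (.nx 385 1321124 (.nr 384 311745 (.nr 373 58 .s1 (.nx 376 97
  (.nx 375 96 (.nr 374 410 (.l1 (.ls 17 23 161)) (.l1 .sk)) (.l1 .sk)) (.nx 378 10323 (.lg 0 false
  2 79 79 13 0 48) (.nr 383 23172 (.nr 381 410 (.lg 0 true 3 67 67 19 0 144) (.nx 382 82572 (.lg 2
  true 1 71 71 13 10387 48) .out)) .out)))) .out) .out)) (.na 400 60 (.nx 399 1321124 (.nr 398
  311745 (.nr 387 59 .s1 (.nx 389 96 (.nr 388 417 (.l1 (.ls 19 17 159)) (.l1 .sk)) (.nx 390 97 (.l1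
  .sk) (.nx 392 10323 (.lg 0 true 2 89 89 16 0 5040) (.nr 397 23172 (.nr 395 417 (.lg 0 true 3 67
  67 16 0 144) (.nx 396 82572 (.lg 2 true 1 71 71 16 10387 48) .out)) .out))))) .out) .out) (.na
  413 62 (.nx 412 1321124 (.nr 411 311745 (.nr 401 60 .s1 (.nx 403 96 (.nr 402 431 (.l1 (.ls 29 31
  156)) (.l1 .sk)) (.nx 404 97 (.l1 .sk) (.nx 406 10323 (.lg 0 false 2 83 89 29 0 5040) (.nr 410
  23172 (.nx 407 82572 (.lg 0 false 1 89 89 23 0 5040) (.nr 409 217 (.lg 0 true 2 67 67 29 0 720)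
  .out)) .out))))) .out) .out) (.nx 426 1321124 (.nr 425 311745 (.nr 414 62 .s1 (.nx 419 10323 (.nx
  416 96 (.nr 415 438 (.l1 (.ls 17 23 151)) (.l1 .sk)) (.nx 417 97 (.l1 .sk) (.lg 0 false 2 79 79
  17 0 48))) (.nr 424 23172 (.nr 422 438 (.lg 0 true 3 67 67 19 0 144) (.nx 423 82572 (.lg 2 true 1
  71 71 13 10387 48) .out)) .out))) .out) .out))))) (.na 458 73 (.na 429 66 (.na 428 64 (.lg 0
  false 1 0 0 16 0 24) .ne) (.na 444 70 (.nx 443 1321124 (.nr 442 524289 (.nr 430 66 .s1 (.nx 436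
  8193 (.nx 432 96 (.nr 431 487 (.l1 (.ls 23 31 142)) (.l1 .sk)) (.nx 433 97 (.l1 .sk) (.lg 0 false
  3 83 83 29 0 55440))) (.nr 441 8193 (.nr 439 513 (.lg 0 true 3 67 67 29 0 1584) (.nx 440 82572
  (.lg 2 false 1 61 61 23 7727 1584) .out)) .out))) .out) .out) (.na 457 72 (.nx 456 1321124 (.nr
  455 524289 (.nr 445 70 .s1 (.nx 448 97 (.nx 447 96 (.nr 446 501 (.l1 (.ls 29 29 134)) (.l1 .sk))
  (.l1 .sk)) (.nx 450 8193 (.lg 0 false 2 83 83 29 0 1680) (.nr 454 8193 (.nr 452 513 (.lg 0 true 2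
  71 71 29 0 1680) (.nx 453 82572 (.lg 2 false 1 61 61 23 7727 1680) .out)) .out)))) .out) .out)
  (.lg 0 false 1 0 0 16 0 24)))) (.na 484 77 (.na 471 75 (.nx 470 1321124 (.nr 469 524289 (.nr 459
  73 .s1 (.nx 461 96 (.nr 460 521 (.l1 (.ls 17 16 129)) (.l1 .sk)) (.nx 462 97 (.l1 .sk) (.nx 464
  8193 (.lg 0 false 2 79 79 16 0 48) (.nr 468 8193 (.nr 466 513 (.lg 0 true 2 61 61 16 0 48) (.nx
  467 82572 (.lg 2 true 1 53 53 16 7727 48) .out)) .out))))) .out) .out) (.nx 483 1321124 (.nr 482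
  524289 (.nr 472 75 .s1 (.nx 475 97 (.nx 474 96 (.nr 473 535 (.l1 (.ls 19 19 125)) (.l1 .sk)) (.l1
  .sk)) (.nx 476 8193 (.lg 0 true 1 83 83 17 0 720) (.nr 481 8193 (.nr 479 535 (.lg 0 true 3 61 61
  19 0 720) (.nx 480 82572 (.lg 2 true 1 59 59 17 7409 720) .out)) .out)))) .out) .out)) (.na 497
  79 (.nx 496 1321124 (.nr 495 524289 (.nr 485 77 .s1 (.nx 487 96 (.nr 486 549 (.l1 (.ls 29 19
  122)) (.l1 .sk)) (.nx 488 97 (.l1 .sk) (.nx 490 8193 (.lg 0 false 2 83 83 19 0 3696) (.nr 494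
  8193 (.nr 492 513 (.lg 0 true 2 71 71 19 0 3696) (.nx 493 82572 (.lg 2 false 1 67 67 17 7727
  3696) .out)) .out))))) .out) .out) (.na 510 80 (.nx 509 1321124 (.nr 508 524289 (.nr 498 79 .s1
  (.nx 500 96 (.nr 499 556 (.l1 (.ls 17 16 119)) (.l1 .sk)) (.nx 501 97 (.l1 .sk) (.nx 503 8193
  (.lg 0 false 2 73 73 16 0 48) (.nr 507 8193 (.nr 505 513 (.lg 0 true 2 59 59 16 0 48) (.nx 506
  82572 (.lg 2 true 1 53 53 16 7727 48) .out)) .out))))) .out) .out) (.nx 520 1321124 (.nr 519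
  524289 (.nr 511 80 .s1 (.nx 514 97 (.nx 513 96 (.nr 512 563 (.l1 (.ls 31 23 118)) (.l1 .sk)) (.l1
  .sk)) (.nr 517 8193 (.nx 515 82572 (.lg 0 true 1 79 79 23 0 240) (.nr 516 513 (.lg 0 true 1 73 73
  23 0 240) .out)) (.nx 518 8193 (.lg 0 false 1 101 101 23 0 55440) .out)))) .out) .out))))))) (.na
  708 112 (.na 612 98 (.na 572 90 (.na 535 84 (.na 522 83 (.lg 0 false 1 0 0 16 0 24) (.nx 534
  1321124 (.nr 533 524289 (.nr 523 83 .s1 (.nx 526 97 (.nx 525 96 (.nr 524 584 (.l1 (.ls 17 16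
  114)) (.l1 .sk)) (.l1 .sk)) (.nx 528 8193 (.lg 0 false 2 73 73 16 0 48) (.nr 532 8193 (.nr 530
  513 (.lg 0 true 2 59 59 16 0 48) (.nx 531 82572 (.lg 2 false 1 53 53 16 7727 48) .out)) .out))))
  .out) .out)) (.na 548 87 (.nx 547 1321124 (.nr 546 524289 (.nr 536 84 .s1 (.nx 541 8193 (.nx 538
  96 (.nr 537 605 (.l1 (.ls 29 29 112)) (.l1 .sk)) (.nx 539 97 (.l1 .sk) (.lg 0 false 2 83 83 31 0
  5040))) (.nr 545 8193 (.nr 543 513 (.lg 0 true 2 71 71 31 0 1008) (.nx 544 82572 (.lg 2 true 1 61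
  61 29 7727 5040) .out)) .out))) .out) .out) (.na 559 88 (.nx 558 1321124 (.nr 557 524289 (.nr 549
  87 .s1 (.nx 553 8193 (.nx 551 96 (.nr 550 612 (.l1 (.ls 19 17 108)) (.l1 .sk)) (.nx 552 97 (.l1
  .sk) (.lg 0 true 1 89 89 16 0 5040))) (.nr 556 8193 (.nr 554 612 (.lg 0 false 1 73 73 16 0 144)
  (.nx 555 82572 (.lg 2 true 1 59 59 16 6477 144) .out)) .out))) .out) .out) (.nx 571 1321124 (.nr
  570 524289 (.nr 560 88 .s1 (.nx 565 8193 (.nx 562 96 (.nr 561 626 (.l1 (.ls 29 23 107)) (.l1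
  .sk)) (.nx 563 97 (.l1 .sk) (.lg 0 false 2 83 83 29 0 528))) (.nr 569 8193 (.nr 567 513 (.lg 0
  true 2 71 71 29 0 528) (.nx 568 82572 (.lg 2 true 1 61 61 23 7727 528) .out)) .out))) .out)
  .out)))) (.na 574 93 (.na 573 91 (.lg 0 false 1 0 0 16 0 24) .ne) (.na 586 96 (.nx 585 1321124
  (.nr 584 524289 (.nr 575 93 .s1 (.nx 579 8193 (.nx 577 96 (.nr 576 667 (.l1 (.ls 17 17 102)) (.l1
  .sk)) (.nx 578 97 (.l1 .sk) (.lg 0 true 1 83 83 16 0 144))) (.nr 583 8193 (.nr 581 513 (.lg 0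
  true 2 61 61 17 0 144) (.nx 582 82572 (.lg 2 false 1 59 59 16 7727 144) .out)) .out))) .out)
  .out) (.na 599 97 (.nx 598 1321124 (.nr 597 524289 (.nr 587 96 .s1 (.nx 589 96 (.nr 588 674 (.l1
  (.ls 23 29 98)) (.l1 .sk)) (.nx 590 97 (.l1 .sk) (.nx 592 8193 (.lg 0 false 2 79 79 29 0 144)
  (.nr 596 8193 (.nr 594 513 (.lg 0 true 2 67 67 29 0 144) (.nx 595 82572 (.lg 2 true 1 59 59 23
  7727 144) .out)) .out))))) .out) .out) (.nx 611 1321124 (.nr 610 524289 (.nr 600 97 .s1 (.nx 603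
  97 (.nx 602 96 (.nr 601 681 (.l1 (.ls 17 16 98)) (.l1 .sk)) (.l1 .sk)) (.nx 605 8193 (.lg 0 false
  2 71 71 16 0 48) (.nr 609 8193 (.nr 607 513 (.lg 0 true 2 59 59 16 0 48) (.nx 608 82572 (.lg 2
  true 1 47 47 16 7727 48) .out)) .out)))) .out) .out))))) (.na 661 105 (.na 625 100 (.na 624 99
  (.nx 623 1321124 (.nr 622 524289 (.nr 613 98 .s1 (.nx 617 8193 (.nx 615 96 (.nr 614 688 (.l1 (.ls
  19 23 97)) (.l1 .sk)) (.nx 616 97 (.l1 .sk) (.lg 0 true 1 83 83 19 0 5040))) (.nr 621 8193 (.nr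
  619 513 (.lg 0 true 2 61 61 23 0 336) (.nx 620 82572 (.lg 2 true 1 53 53 19 7727 336) .out))
  .out))) .out) .out) (.lg 0 false 1 0 0 16 0 24)) (.na 638 101 (.nx 637 1321124 (.nr 636 524289
  (.nr 626 100 .s1 (.nx 631 8193 (.nx 628 96 (.nr 627 702 (.l1 (.ls 23 23 95)) (.l1 .sk)) (.nx 629
  97 (.l1 .sk) (.lg 0 false 2 79 79 29 0 240))) (.nr 635 8193 (.nr 633 513 (.lg 0 true 2 67 67 29 0
  240) (.nx 634 82572 (.lg 2 false 1 59 59 23 7727 240) .out)) .out))) .out) .out) (.na 650 103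
  (.nx 649 1321124 (.nr 648 524289 (.nr 639 101 .s1 (.nx 642 97 (.nx 641 96 (.nr 640 716 (.l1 (.ls
  19 16 94)) (.l1 .sk)) (.l1 .sk)) (.nx 643 8193 (.lg 0 true 1 83 83 16 0 5040) (.nr 647 8193 (.nr
  645 513 (.lg 0 true 2 59 59 16 0 48) (.nx 646 82572 (.lg 2 true 1 53 53 16 7727 48) .out))
  .out)))) .out) .out) (.nx 660 1321124 (.nr 659 524289 (.nr 651 103 .s1 (.nx 653 96 (.nr 652 730
  (.l1 (.ls 17 16 92)) (.l1 .sk)) (.nx 654 97 (.l1 .sk) (.nx 655 8193 (.lg 0 true 1 79 79 16 0 720)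
  (.nr 658 8193 (.nr 656 513 (.lg 2 false 1 59 59 16 615670 48) (.nx 657 82572 (.lg 2 false 1 47 47
  16 7727 48) .out)) .out))))) .out) .out)))) (.na 685 107 (.na 674 106 (.nx 673 1321124 (.nr 672
  524289 (.nr 662 105 .s1 (.nx 667 8193 (.nx 664 96 (.nr 663 737 (.l1 (.ls 29 23 90)) (.l1 .sk))
  (.nx 665 97 (.l1 .sk) (.lg 0 false 2 83 83 29 0 5040))) (.nr 671 8193 (.nr 669 513 (.lg 0 true 2
  71 71 29 0 5040) (.nx 670 82572 (.lg 2 true 1 61 61 23 7727 5040) .out)) .out))) .out) .out) (.nx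
  684 1321124 (.nr 683 524289 (.nr 675 106 .s1 (.nx 677 96 (.nr 676 744 (.l1 (.ls 17 19 89)) (.l1
  .sk)) (.nx 678 97 (.l1 .sk) (.nx 679 8193 (.lg 0 true 1 83 83 19 0 48) (.nr 682 8193 (.nr 680 513
  (.lg 2 false 1 67 67 19 598245 48) (.nx 681 82572 (.lg 2 true 1 53 53 19 7727 48) .out))
  .out))))) .out) .out)) (.na 696 108 (.nx 695 1321124 (.nr 694 524289 (.nr 686 107 .s1 (.nx 690
  8193 (.nx 688 96 (.nr 687 751 (.l1 (.ls 17 16 89)) (.l1 .sk)) (.nx 689 97 (.l1 .sk) (.lg 0 true 1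
  79 79 16 0 48))) (.nr 693 8193 (.nr 691 513 (.lg 2 false 1 61 61 16 592654 48) (.nx 692 82572
  (.lg 2 false 1 47 47 16 7727 48) .out)) .out))) .out) .out) (.na 697 110 (.lg 0 false 1 0 0 16 0
  24) (.nx 707 1321124 (.nr 706 524289 (.nr 698 110 .s1 (.nx 702 8193 (.nx 700 96 (.nr 699 778 (.l1
  (.ls 29 29 86)) (.l1 .sk)) (.nx 701 97 (.l1 .sk) (.lg 0 true 1 83 83 29 0 7920))) (.nr 705 8193
  (.nr 703 513 (.lg 2 true 1 61 61 29 576491 2640) (.nx 704 82572 (.lg 2 false 1 59 59 29 7727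
  2640) .out)) .out))) .out) .out)))))) (.na 798 131 (.na 763 124 (.na 730 118 (.na 719 116 (.nx
  718 1321124 (.nr 717 524289 (.nr 709 112 .s1 (.nx 715 82572 (.nx 713 8193 (.nx 711 96 (.nr 710
  806 (.l1 (.ls 31 23 85)) (.l1 .sk)) (.nx 712 97 (.l1 .sk) (.lg 0 false 1 83 83 29 0 336))) (.nr
  714 8193 (.lg 0 true 1 79 79 29 0 5040) .out)) (.nr 716 513 (.lg 0 true 1 71 71 29 0 336) .out)))
  .out) .out) (.nx 729 1321124 (.nr 728 524289 (.nr 720 116 .s1 (.nx 723 97 (.nx 722 96 (.nr 721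
  820 (.l1 (.ls 23 19 82)) (.l1 .sk)) (.l1 .sk)) (.nx 724 8193 (.lg 0 true 1 89 89 19 0 5040) (.nr
  727 8193 (.nr 725 513 (.lg 2 true 1 61 61 19 546672 48) (.nx 726 82572 (.lg 2 true 1 59 59 19
  7727 48) .out)) .out)))) .out) .out)) (.na 741 120 (.nx 740 1321124 (.nr 739 524289 (.nr 731 118
  .s1 (.nx 734 97 (.nx 733 96 (.nr 732 834 (.l1 (.ls 19 19 81)) (.l1 .sk)) (.l1 .sk)) (.nx 735 8193
  (.lg 0 true 1 83 83 19 0 48) (.nr 738 8193 (.nr 736 513 (.lg 2 false 1 61 61 19 537407 48) (.nx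
  737 82572 (.lg 2 true 1 47 47 19 7727 48) .out)) .out)))) .out) .out) (.na 752 121 (.nx 751
  1321124 (.nr 750 524289 (.nr 742 120 .s1 (.nx 746 8193 (.nx 744 96 (.nr 743 841 (.l1 (.ls 29 29
  79)) (.l1 .sk)) (.nx 745 97 (.l1 .sk) (.lg 0 true 1 83 83 29 0 720))) (.nr 749 8193 (.nr 747 513
  (.lg 2 true 1 61 61 29 528450 720) (.nx 748 82572 (.lg 2 true 1 59 59 29 7727 720) .out)) .out)))
  .out) .out) (.nx 762 1321124 (.nr 761 524289 (.nr 753 121 .s1 (.nx 756 97 (.nx 755 96 (.nr 754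
  862 (.l1 (.ls 17 17 79)) (.l1 .sk)) (.l1 .sk)) (.nx 757 8193 (.lg 0 true 1 79 79 17 0 7920) (.nr
  760 8193 (.nr 758 513 (.lg 2 false 1 61 61 17 524083 7920) (.nx 759 82572 (.lg 2 true 1 47 47 17
  7727 528) .out)) .out)))) .out) .out)))) (.na 785 126 (.na 774 125 (.nx 773 1321124 (.nr 772
  524289 (.nr 764 124 .s1 (.nx 768 8193 (.nx 766 96 (.nr 765 869 (.l1 (.ls 23 19 77)) (.l1 .sk))
  (.nx 767 97 (.l1 .sk) (.lg 0 false 1 79 79 19 0 48))) (.nr 771 8193 (.nr 769 513 (.lg 2 true 1 61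
  61 19 511403 48) (.nx 770 82572 (.lg 2 false 1 59 59 19 7727 48) .out)) .out))) .out) .out) (.nx
  784 1321124 (.nr 783 524289 (.nr 775 125 .s1 (.nx 779 8193 (.nx 777 96 (.nr 776 876 (.l1 (.ls 17
  17 76)) (.l1 .sk)) (.nx 778 97 (.l1 .sk) (.lg 0 true 1 73 73 16 0 240))) (.nr 782 8193 (.nr 780
  513 (.lg 2 false 1 59 59 16 507312 240) (.nx 781 82572 (.lg 2 true 1 47 47 16 7727 240) .out))
  .out))) .out) .out)) (.na 786 127 (.lg 0 false 1 0 0 16 0 24) (.na 797 128 (.nx 796 1321124 (.nr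
  795 524289 (.nr 787 127 .s1 (.nx 789 96 (.nr 788 890 (.l1 (.ls 17 16 75)) (.l1 .sk)) (.nx 790 97
  (.l1 .sk) (.nx 791 8193 (.lg 0 true 1 73 73 16 0 48) (.nr 794 8193 (.nr 792 513 (.lg 2 false 1 59
  59 16 499323 48) (.nx 793 82572 (.lg 2 true 1 47 47 16 7727 48) .out)) .out))))) .out) .out)
  .ne)))) (.na 819 140 (.na 816 135 (.na 806 132 (.nx 805 660563 (.nr 804 1048577 (.nr 799 131 .s1
  (.nx 800 205 (.l1 (.ls 67 19 323)) (.nr 803 524289 (.nr 801 8193 (.lg 0 false 1 79 79 16 0 720)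
  (.nx 802 6503 (.lg 0 true 1 73 73 16 0 720) .out)) .out))) .out) .out) (.nx 815 660563 (.nr 814
  1048577 (.nr 807 132 .s1 (.nx 810 6503 (.nx 808 205 (.l1 (.ls 73 37 321)) (.nr 809 524289 (.lg 0
  false 1 79 79 31 0 1584) .out)) (.nr 813 8193 (.nr 811 1025 (.lg 0 true 1 67 67 31 0 1584) (.nx
  812 82572 (.lg 2 false 1 59 59 31 5875 1584) .out)) .out))) .out) .out)) (.na 817 137 (.lg 0
  false 1 0 0 16 0 24) (.na 818 139 (.lg 0 false 1 0 0 16 0 24) (.lg 0 false 1 0 0 16 0 24)))) (.na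
  830 145 (.na 829 144 (.nx 828 660563 (.nr 827 1048577 (.nr 820 140 .s1 (.nx 821 205 (.l1 (.ls 79
  31 303)) (.nr 826 524289 (.nx 822 6503 (.lg 0 false 1 83 83 31 0 1680) (.nr 825 8193 (.nx 823
  82572 (.lg 0 true 1 73 73 31 0 1680) (.nr 824 1025 (.lg 0 true 1 73 73 31 0 1680) .out)) .out))
  .out))) .out) .out) (.lg 0 false 1 0 0 16 0 24)) (.na 840 146 (.nx 839 660563 (.nr 838 1048577
  (.nr 831 145 .s1 (.nx 834 6503 (.nx 832 205 (.l1 (.ls 73 19 292)) (.nr 833 524289 (.lg 0 false 1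
  79 79 17 0 240) .out)) (.nr 837 8193 (.nr 835 1025 (.lg 0 true 1 67 67 17 0 240) (.nx 836 82572
  (.lg 2 false 1 53 53 17 5875 240) .out)) .out))) .out) .out) (.na 848 147 (.nx 847 660563 (.nr
  846 1048577 (.nr 841 146 .s1 (.nx 842 205 (.l1 (.ls 71 29 290)) (.nr 845 524289 (.nr 843 8193
  (.lg 0 false 1 79 79 19 0 48) (.nx 844 6503 (.lg 0 true 1 79 79 19 0 48) .out)) .out))) .out)
  .out) (.nx 855 660563 (.nr 854 1048577 (.nr 849 147 .s1 (.nx 850 205 (.l1 (.ls 67 29 288)) (.nr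
  853 524289 (.nr 851 8193 (.lg 0 false 1 79 79 19 0 5040) (.nx 852 6503 (.lg 0 true 1 73 73 19 0
  5040) .out)) .out))) .out) .out)))))))) (.na 1106 216 (.na 988 179 (.na 922 163 (.na 896 157 (.na
  872 151 (.na 864 150 (.nx 863 660563 (.nr 862 1048577 (.nr 857 149 .s1 (.nx 858 205 (.l1 (.ls 67
  19 285)) (.nr 861 524289 (.nr 859 8193 (.lg 0 false 1 73 73 16 0 720) (.nx 860 6503 (.lg 0 true 1
  71 71 16 0 48) .out)) .out))) .out) .out) (.nx 871 660563 (.nr 870 1048577 (.nr 865 150 .s1 (.nx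
  866 205 (.l1 (.ls 67 37 283)) (.nr 869 524289 (.nr 867 8193 (.lg 0 false 1 79 79 29 0 5040) (.nx
  868 6503 (.lg 0 true 1 73 73 29 0 5040) .out)) .out))) .out) .out)) (.na 880 154 (.nx 879 660563
  (.nr 878 1048577 (.nr 873 151 .s1 (.nx 874 205 (.l1 (.ls 83 17 281)) (.nr 877 524289 (.nr 875
  8193 (.lg 0 false 1 73 73 16 0 48) (.nx 876 6503 (.lg 0 true 1 73 73 16 0 48) .out)) .out)))
  .out) .out) (.na 888 155 (.nx 887 660563 (.nr 886 1048577 (.nr 881 154 .s1 (.nx 882 205 (.l1 (.ls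
  73 31 275)) (.nr 885 524289 (.nr 883 8193 (.lg 0 false 1 83 83 31 0 55440) (.nx 884 6503 (.lg 0
  false 1 79 79 31 0 3696) .out)) .out))) .out) .out) (.nx 895 660563 (.nr 894 1048577 (.nr 889 155
  .s1 (.nx 890 205 (.l1 (.ls 73 19 274)) (.nr 893 524289 (.nr 891 8193 (.lg 0 false 1 83 83 17 0
  240) (.nx 892 6503 (.lg 0 false 1 79 79 17 0 240) .out)) .out))) .out) .out)))) (.na 905 159 (.na
  897 158 (.lg 0 false 1 0 0 16 0 24) (.nx 904 660563 (.nr 903 1048577 (.nr 898 158 .s1 (.nx 899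
  205 (.l1 (.ls 73 29 268)) (.nr 902 524289 (.nr 900 8193 (.lg 0 false 1 79 79 19 0 48) (.nx 901
  6503 (.lg 0 true 1 71 71 19 0 48) .out)) .out))) .out) .out)) (.na 913 160 (.nx 912 660563 (.nr
  911 1048577 (.nr 906 159 .s1 (.nx 907 205 (.l1 (.ls 47 23 267)) (.nr 910 524289 (.nr 908 8193
  (.lg 0 false 1 79 79 17 0 720) (.nx 909 6503 (.lg 0 true 1 73 73 17 0 144) .out)) .out))) .out)
  .out) (.na 921 162 (.nx 920 660563 (.nr 919 1048577 (.nr 914 160 .s1 (.nx 915 205 (.l1 (.ls 73 29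
  265)) (.nr 918 524289 (.nr 916 8193 (.lg 0 true 1 79 83 29 0 240) (.nx 917 6503 (.lg 0 false 1 79
  79 29 0 240) .out)) .out))) .out) .out) (.lg 0 false 1 0 0 16 0 24))))) (.na 948 173 (.na 931 166
  (.na 923 165 (.lg 0 false 1 0 0 16 0 24) (.nx 930 660563 (.nr 929 1048577 (.nr 924 165 .s1 (.nx
  925 205 (.l1 (.ls 73 29 257)) (.nr 928 524289 (.nr 926 8193 (.lg 0 false 1 83 83 29 0 55440) (.nx
  927 6503 (.lg 0 false 1 79 79 29 0 7920) .out)) .out))) .out) .out)) (.na 939 167 (.nx 938 660563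
  (.nr 937 1048577 (.nr 932 166 .s1 (.nx 933 205 (.l1 (.ls 79 29 256)) (.nr 936 524289 (.nr 934
  8193 (.lg 0 false 1 73 73 19 0 720) (.nx 935 6503 (.lg 0 true 1 71 71 19 0 48) .out)) .out)))
  .out) .out) (.na 940 168 (.lg 0 false 1 0 0 16 0 24) (.nx 947 660563 (.nr 946 1048577 (.nr 941
  168 .s1 (.nx 942 205 (.l1 (.ls 73 37 253)) (.nr 945 524289 (.nr 943 8193 (.lg 0 true 1 79 79 31 0
  1008) (.nx 944 6503 (.lg 0 false 1 79 79 31 0 1008) .out)) .out))) .out) .out)))) (.na 964 175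
  (.na 956 174 (.nx 955 660563 (.nr 954 1048577 (.nr 949 173 .s1 (.nx 950 205 (.l1 (.ls 73 17 245))
  (.nr 953 524289 (.nr 951 8193 (.lg 0 false 1 73 73 16 0 48) (.nx 952 6503 (.lg 0 true 1 71 71 16
  0 48) .out)) .out))) .out) .out) (.nx 963 660563 (.nr 962 1048577 (.nr 957 174 .s1 (.nx 958 205
  (.l1 (.ls 71 37 244)) (.nr 961 524289 (.nr 959 8193 (.lg 0 false 1 79 79 23 0 144) (.nx 960 6503
  (.lg 0 true 1 73 73 23 0 144) .out)) .out))) .out) .out)) (.na 972 176 (.nx 971 660563 (.nr 970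
  1048577 (.nr 965 175 .s1 (.nx 966 205 (.l1 (.ls 71 23 243)) (.nr 969 524289 (.nr 967 8193 (.lg 0
  true 1 79 79 19 0 1680) (.nx 968 6503 (.lg 0 false 1 73 73 19 0 1680) .out)) .out))) .out) .out)
  (.na 980 177 (.nx 979 660563 (.nr 978 1048577 (.nr 973 176 .s1 (.nx 974 205 (.l1 (.ls 79 29 241))
  (.nr 977 524289 (.nr 975 8193 (.lg 0 true 1 83 83 31 0 528) (.nx 976 6503 (.lg 0 false 1 79 83 31
  0 528) .out)) .out))) .out) .out) (.nx 987 660563 (.nr 986 1048577 (.nr 981 177 .s1 (.nx 982 205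
  (.l1 (.ls 53 23 240)) (.nr 985 524289 (.nr 983 8193 (.lg 0 false 1 79 79 17 0 720) (.nx 984 6503
  (.lg 0 true 1 73 73 17 0 720) .out)) .out))) .out) .out)))))) (.na 1040 198 (.na 1007 191 (.na
  997 181 (.na 996 180 (.nx 995 660563 (.nr 994 1048577 (.nr 989 179 .s1 (.nx 990 205 (.l1 (.ls 83
  17 237)) (.nr 993 524289 (.nr 991 8193 (.lg 0 false 1 73 73 16 0 48) (.nx 992 6503 (.lg 0 true 1
  71 71 16 0 48) .out)) .out))) .out) .out) (.lg 0 false 1 0 0 16 0 24)) (.na 998 186 (.lg 0 false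
  1 0 0 16 0 24) (.na 1006 189 (.nx 1005 660563 (.nr 1004 1048577 (.nr 999 186 .s1 (.nx 1000 205
  (.l1 (.ls 73 29 228)) (.nr 1003 524289 (.nr 1001 8193 (.lg 0 false 1 79 79 29 0 144) (.nx 1002
  6503 (.lg 0 true 1 73 73 29 0 144) .out)) .out))) .out) .out) (.lg 0 false 1 0 0 16 0 24)))) (.na
  1016 194 (.na 1008 193 (.lg 0 false 1 0 0 16 0 24) (.nx 1015 660563 (.nr 1014 1048577 (.nr 1009
  193 .s1 (.nx 1010 205 (.l1 (.ls 79 17 220)) (.nr 1013 524289 (.nr 1011 8193 (.lg 0 false 1 73 73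
  16 0 48) (.nx 1012 6503 (.lg 0 true 1 71 71 16 0 48) .out)) .out))) .out) .out)) (.na 1024 196
  (.nx 1023 660563 (.nr 1022 1048577 (.nr 1017 194 .s1 (.nx 1018 205 (.l1 (.ls 73 23 219)) (.nr
  1021 524289 (.nr 1019 8193 (.lg 0 false 1 71 71 19 0 48) (.nx 1020 6503 (.lg 0 true 1 67 67 19 0
  48) .out)) .out))) .out) .out) (.na 1032 197 (.nx 1031 660563 (.nr 1030 1048577 (.nr 1025 196 .s1
  (.nx 1026 205 (.l1 (.ls 71 29 217)) (.nr 1029 524289 (.nr 1027 8193 (.lg 0 true 1 73 73 29 0 336)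
  (.nx 1028 6503 (.lg 0 false 1 73 73 29 0 336) .out)) .out))) .out) .out) (.nx 1039 660563 (.nr
  1038 1048577 (.nr 1033 197 .s1 (.nx 1034 205 (.l1 (.ls 79 17 216)) (.nr 1037 524289 (.nr 1035
  8193 (.lg 0 false 1 71 71 16 0 48) (.nx 1036 6503 (.lg 0 true 1 71 71 16 0 48) .out)) .out)))
  .out) .out))))) (.na 1073 206 (.na 1049 200 (.na 1041 199 (.lg 0 false 1 0 0 16 0 24) (.nx 1048
  660563 (.nr 1047 1048577 (.nr 1042 199 .s1 (.nx 1043 205 (.l1 (.ls 79 17 214)) (.nr 1046 524289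
  (.nr 1044 8193 (.lg 0 false 1 71 71 16 0 48) (.nx 1045 6503 (.lg 0 true 1 71 71 16 0 48) .out))
  .out))) .out) .out)) (.na 1057 202 (.nx 1056 660563 (.nr 1055 1048577 (.nr 1050 200 .s1 (.nx 1051
  205 (.l1 (.ls 71 29 213)) (.nr 1054 524289 (.nr 1052 8193 (.lg 0 true 1 73 73 29 0 240) (.nx 1053
  6503 (.lg 0 false 1 71 71 29 0 240) .out)) .out))) .out) .out) (.na 1065 203 (.nx 1064 660563
  (.nr 1063 1048577 (.nr 1058 202 .s1 (.nx 1059 205 (.l1 (.ls 73 23 211)) (.nr 1062 524289 (.nr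
  1060 8193 (.lg 0 false 1 71 71 23 0 48) (.nx 1061 6503 (.lg 0 true 1 67 67 23 0 48) .out))
  .out))) .out) .out) (.nx 1072 660563 (.nr 1071 1048577 (.nr 1066 203 .s1 (.nx 1067 205 (.l1 (.ls
  73 19 210)) (.nr 1070 524289 (.nr 1068 8193 (.lg 0 true 1 79 79 19 0 336) (.nx 1069 6503 (.lg 0
  false 1 73 73 19 0 336) .out)) .out))) .out) .out)))) (.na 1089 211 (.na 1081 210 (.nx 1080
  660563 (.nr 1079 1048577 (.nr 1074 206 .s1 (.nx 1075 205 (.l1 (.ls 79 23 207)) (.nr 1078 524289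
  (.nr 1076 8193 (.lg 0 false 1 73 73 23 0 48) (.nx 1077 6503 (.lg 0 true 1 71 71 23 0 48) .out))
  .out))) .out) .out) (.nx 1088 660563 (.nr 1087 1048577 (.nr 1082 210 .s1 (.nx 1083 205 (.l1 (.ls
  73 37 203)) (.nr 1086 524289 (.nr 1084 8193 (.lg 0 true 1 79 79 37 0 5040) (.nx 1085 6503 (.lg 0
  false 1 73 73 37 0 5040) .out)) .out))) .out) .out)) (.na 1090 212 (.lg 0 false 1 0 0 16 0 24)
  (.na 1098 214 (.nx 1097 660563 (.nr 1096 1048577 (.nr 1091 212 .s1 (.nx 1092 205 (.l1 (.ls 71 23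
  201)) (.nr 1095 524289 (.nr 1093 8193 (.lg 0 true 1 73 73 23 0 48) (.nx 1094 6503 (.lg 0 false 1
  73 73 23 0 48) .out)) .out))) .out) .out) (.nx 1105 660563 (.nr 1104 1048577 (.nr 1099 214 .s1
  (.nx 1100 205 (.l1 (.ls 73 23 199)) (.nr 1103 524289 (.nr 1101 8193 (.lg 0 false 1 71 71 23 0 48)
  (.nx 1102 6503 (.lg 0 true 1 67 67 23 0 48) .out)) .out))) .out) .out))))))) (.na 1224 248 (.na
  1165 232 (.na 1139 224 (.na 1115 219 (.na 1107 217 (.lg 0 false 1 0 0 16 0 24) (.nx 1114 660563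
  (.nr 1113 1048577 (.nr 1108 217 .s1 (.nx 1109 205 (.l1 (.ls 73 19 196)) (.nr 1112 524289 (.nr
  1110 8193 (.lg 0 true 1 79 79 19 0 336) (.nx 1111 6503 (.lg 0 false 1 73 73 19 0 336) .out))
  .out))) .out) .out)) (.na 1123 220 (.nx 1122 660563 (.nr 1121 1048577 (.nr 1116 219 .s1 (.nx 1117
  205 (.l1 (.ls 67 19 194)) (.nr 1120 524289 (.nr 1118 8193 (.lg 0 false 1 73 73 19 0 144) (.nx
  1119 6503 (.lg 0 true 1 73 73 19 0 720) .out)) .out))) .out) .out) (.na 1131 223 (.nx 1130 660563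
  (.nr 1129 1048577 (.nr 1124 220 .s1 (.nx 1125 205 (.l1 (.ls 79 31 194)) (.nr 1128 524289 (.nr
  1126 8193 (.lg 0 true 1 83 83 37 0 2640) (.nx 1127 6503 (.lg 0 false 1 83 83 37 0 55440) .out))
  .out))) .out) .out) (.nx 1138 660563 (.nr 1137 1048577 (.nr 1132 223 .s1 (.nx 1133 205 (.l1 (.ls
  79 17 191)) (.nr 1136 524289 (.nr 1134 8193 (.lg 0 false 1 71 71 16 0 48) (.nx 1135 6503 (.lg 0
  true 1 67 67 16 0 48) .out)) .out))) .out) .out)))) (.na 1148 227 (.na 1147 225 (.nx 1146 660563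
  (.nr 1145 1048577 (.nr 1140 224 .s1 (.nx 1141 205 (.l1 (.ls 73 29 190)) (.nr 1144 524289 (.nr
  1142 8193 (.lg 0 true 1 79 79 31 0 336) (.nx 1143 6503 (.lg 0 false 1 79 79 31 0 336) .out))
  .out))) .out) .out) (.lg 0 false 1 0 0 16 0 24)) (.na 1156 229 (.nx 1155 660563 (.nr 1154 1048577
  (.nr 1149 227 .s1 (.nx 1150 205 (.l1 (.ls 73 17 188)) (.nr 1153 524289 (.nr 1151 8193 (.lg 0
  false 1 71 71 17 0 48) (.nx 1152 6503 (.lg 0 true 1 67 67 17 0 48) .out)) .out))) .out) .out)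
  (.na 1157 231 (.lg 0 false 1 0 0 16 0 24) (.nx 1164 660563 (.nr 1163 1048577 (.nr 1158 231 .s1
  (.nx 1159 205 (.l1 (.ls 73 29 184)) (.nr 1162 524289 (.nr 1160 8193 (.lg 0 false 1 79 79 29 0
  55440) (.nx 1161 6503 (.lg 0 false 1 73 73 29 0 11088) .out)) .out))) .out) .out))))) (.na 1191
  240 (.na 1174 236 (.na 1173 233 (.nx 1172 660563 (.nr 1171 1048577 (.nr 1166 232 .s1 (.nx 1167
  205 (.l1 (.ls 97 23 184)) (.nr 1170 524289 (.nr 1168 8193 (.lg 0 true 1 73 73 23 0 48) (.nx 1169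
  6503 (.lg 0 false 1 73 73 23 0 48) .out)) .out))) .out) .out) (.lg 0 false 1 0 0 16 0 24)) (.na
  1182 237 (.nx 1181 660563 (.nr 1180 1048577 (.nr 1175 236 .s1 (.nx 1176 205 (.l1 (.ls 53 23 181))
  (.nr 1179 524289 (.nr 1177 8193 (.lg 0 true 1 73 73 23 0 48) (.nx 1178 6503 (.lg 0 false 1 73 73
  23 0 48) .out)) .out))) .out) .out) (.na 1190 239 (.nx 1189 660563 (.nr 1188 1048577 (.nr 1183
  237 .s1 (.nx 1184 205 (.l1 (.ls 61 19 180)) (.nr 1187 524289 (.nr 1185 8193 (.lg 0 false 1 71 71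
  19 0 144) (.nx 1186 6503 (.lg 0 true 1 67 67 19 0 144) .out)) .out))) .out) .out) (.lg 0 false 1
  0 0 16 0 24)))) (.na 1207 242 (.na 1199 241 (.nx 1198 660563 (.nr 1197 1048577 (.nr 1192 240 .s1
  (.nx 1193 205 (.l1 (.ls 73 31 178)) (.nr 1196 524289 (.nr 1194 8193 (.lg 0 true 1 79 79 37 0 720)
  (.nx 1195 6503 (.lg 0 false 1 73 79 37 0 720) .out)) .out))) .out) .out) (.nx 1206 660563 (.nr
  1205 1048577 (.nr 1200 241 .s1 (.nx 1201 205 (.l1 (.ls 73 17 177)) (.nr 1204 524289 (.nr 1202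
  8193 (.lg 0 false 1 71 71 17 0 48) (.nx 1203 6503 (.lg 0 true 1 67 67 17 0 48) .out)) .out)))
  .out) .out)) (.na 1215 243 (.nx 1214 660563 (.nr 1213 1048577 (.nr 1208 242 .s1 (.nx 1211 6503
  (.nx 1209 205 (.l1 (.ls 71 29 176)) (.nr 1210 524289 (.lg 0 true 1 71 71 29 0 528) .out)) (.nr
  1212 8193 (.lg 0 false 1 71 71 29 0 528) .out))) .out) .out) (.na 1216 245 (.lg 0 false 1 0 0 16
  0 24) (.nx 1223 660563 (.nr 1222 1048577 (.nr 1217 245 .s1 (.nx 1218 205 (.l1 (.ls 71 23 174))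
  (.nr 1221 524289 (.nr 1219 8193 (.lg 0 true 1 73 73 23 0 1680) (.nx 1220 6503 (.lg 0 false 1 73
  73 23 0 1680) .out)) .out))) .out) .out)))))) (.na 2609 1024 (.na 1257 254 (.na 1240 250 (.na
  1232 249 (.nx 1231 660563 (.nr 1230 1048577 (.nr 1225 248 .s1 (.nx 1226 205 (.l1 (.ls 97 23 172))
  (.nr 1229 524289 (.nr 1227 8193 (.lg 0 true 1 73 73 23 0 48) (.nx 1228 6503 (.lg 0 false 1 73 73
  23 0 48) .out)) .out))) .out) .out) (.nx 1239 660563 (.nr 1238 1048577 (.nr 1233 249 .s1 (.nx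
  1234 205 (.l1 (.ls 71 19 171)) (.nr 1237 524289 (.nr 1235 8193 (.lg 0 false 1 71 71 19 0 144)
  (.nx 1236 6503 (.lg 0 true 1 67 67 19 0 144) .out)) .out))) .out) .out)) (.na 1248 251 (.nx 1247
  660563 (.nr 1246 1048577 (.nr 1241 250 .s1 (.nx 1242 205 (.l1 (.ls 61 29 171)) (.nr 1245 524289
  (.nr 1243 8193 (.lg 0 false 1 71 71 29 0 240) (.nx 1244 6503 (.lg 0 true 1 67 67 29 0 240) .out))
  .out))) .out) .out) (.na 1256 252 (.nx 1255 660563 (.nr 1254 1048577 (.nr 1249 251 .s1 (.nx 1250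
  205 (.l1 (.ls 71 17 170)) (.nr 1253 524289 (.nr 1251 8193 (.lg 0 false 1 67 67 17 0 48) (.nx 1252
  6503 (.lg 0 true 1 67 67 17 0 48) .out)) .out))) .out) .out) (.lg 0 false 1 0 0 16 0 24)))) (.na
  1266 257 (.na 1265 256 (.nx 1264 660563 (.nr 1263 1048577 (.nr 1258 254 .s1 (.nx 1259 205 (.l1
  (.ls 71 23 168)) (.nr 1262 524289 (.nr 1260 8193 (.lg 0 false 1 67 67 23 0 48) (.nx 1261 6503
  (.lg 0 true 1 67 67 23 0 720) .out)) .out))) .out) .out) .ne) (.na 1780 512 (.nx 1779 82572 (.nr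
  1778 1048577 (.nr 1267 257 .s1 (.nx 1522 647 (.la (.ls 73 31 1631)) (.nr 1777 262145 (.la (.lg 0
  false 1 79 79 23 0)) .out))) .out) .out) (.na 2210 725 (.nx 2209 82572 (.nr 2208 1048577 (.nr
  1781 512 .s1 (.nx 1994 647 (.la (.ls 79 29 820)) (.nr 2207 262145 (.la (.lg 0 false 1 73 73 29
  0)) .out))) .out) .out) (.nx 2608 3252 (.nr 2607 262145 (.nr 2211 725 .s1 (.nx 2307 96 (.nr 2306
  7114 (.lx (.lp 41 23 257)) (.l1 .sk)) (.nx 2308 97 (.l1 .sk) (.la (.ls 59 43 14576))))) .out)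
  .out))))) (.na 6082 8192 (.na 3833 2048 (.na 3134 1449 (.nx 3133 3252 (.nr 3132 262145 (.nr 2610
  1024 .s1 (.nx 2706 96 (.nr 2705 10066 (.lx (.lp 41 23 363)) (.l1 .sk)) (.nx 2707 97 (.l1 .sk)
  (.la (.ls 53 41 10321))))) .out) .out) (.nx 3832 1627 (.nr 3831 131073 (.nr 3135 1449 .s1 (.nx
  3231 96 (.nr 3230 14227 (.lx (.lp 37 23 513)) (.l1 .sk)) (.nx 3232 97 (.l1 .sk) (.la (.ls 53 31
  1823))))) .out) .out)) (.na 4782 2897 (.nx 4781 1627 (.nr 4780 131073 (.nr 3834 2048 .s1 (.nx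
  3930 96 (.nr 3929 20124 (.lx (.lp 16 29 725)) (.l1 .sk)) (.nx 3931 97 (.l1 .sk) (.la (.ls 53 31
  1290))))) .out) .out) (.na 5432 4096 (.nx 5431 647 (.nr 5430 65537 (.nr 4783 2897 .s1 (.nx 4945
  163 (.lx (.lp 47 31 1025)) (.nr 5429 32769 (.lx (.lp 41 31 1025)) .out))) .out) .out) (.nx 6081
  647 (.nr 6080 65537 (.nr 5433 4096 .s1 (.nx 5595 163 (.lx (.lp 47 37 2049)) (.nr 6079 32769 (.lx
  (.lp 41 37 2049)) .out))) .out) .out)))) (.na 7381 32768 (.na 6731 16384 (.nx 6730 647 (.nr 6729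
  65537 (.nr 6083 8192 .s1 (.lx (.lp 41 41 4097))) .out) .out) (.nx 7380 647 (.nr 7379 131073 (.nr
  6732 16384 .s1 (.nx 6894 163 (.lx (.lp 16 0 8193)) (.nr 7378 65537 (.lx (.lp 41 43 8193)) .out)))
  .out) .out)) (.na 7707 65536 (.nx 7706 324 (.nr 7705 131073 (.nr 7382 32768 .s1 (.lx (.lp 37 47
  16385))) .out) .out) (.na 8034 131073 (.nx 8033 324 (.nr 8032 262145 (.nr 7708 65536 .s1 (.nx
  7870 163 (.lx (.lp 16 0 32769)) (.nr 8031 131073 (.lx (.lp 37 53 32769)) .out))) .out) .out)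
  .out))))))))

def T44_1 : Ph :=
  (.na 272 7 (.na 271 5 (.nx 270 21137969 (.nr 269 1246976 (.nx 197 660563 (.nx 70 55344 (.nx 2 223
  (.nr 1 51 (.lg 0 true 1 31 31 9 0 48) (.l1 .sk)) (.nx 3 224 (.l1 .sk) (.nr 58 262145 (.lg 0 false
  55 97 107 23 0 720720) (.nx 69 408 (.lg 0 false 11 79 79 13 0 528) .out)))) (.nr 196 311745 (.nr
  85 730 (.lg 0 true 15 79 83 13 0 720) (.nx 101 82570 (.nr 100 262145 (.lg 1 false 15 97 103 13
  117876 65520) .out) (.nr 108 2912 (.lg 2 true 7 83 89 11 100895 336) (.nr 113 11616 (.lg 2 true 5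
  83 89 11 25293 240) (.nx 190 330282 (.nx 174 262145 (.nx 158 208065 (.nx 128 112360 (.lg 1 false
  15 97 103 13 93945 65520) (.nx 143 152899 (.lg 1 false 15 97 103 13 69037 65520) (.lg 1 true 15
  97 103 13 50733 65520))) (.nr 173 185365 (.lg 1 true 15 89 103 13 22179 65520) .out)) (.nr 189
  131073 (.lg 1 true 15 89 101 13 12454 65520) .out)) (.nr 195 46342 (.lg 2 false 5 83 89 11 6341
  240) .out)))))) .out)) (.nr 268 183 (.nr 252 32 (.lg 0 true 55 79 79 13 0 2640) (.nx 267 2642247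
  (.lg 0 true 15 79 79 13 0 720) .out)) .out)) .out) .out) .ne) (.na 455 8 (.nx 454 21137969 (.nr
  453 1246976 (.nx 275 224 (.nx 274 223 (.nr 273 84 (.lg 0 true 1 31 31 9 0 1680) (.l1 .sk)) (.l1
  .sk)) (.nx 407 1321124 (.nx 324 52015 (.nr 308 220437 (.lg 0 false 33 89 103 16 0 55440) (.nx 323
  2582 (.nx 319 814 (.lg 0 false 11 83 83 16 0 18480) (.nr 322 262145 (.lg 0 false 3 79 79 11 0
  504) .out)) .out)) (.nr 406 311745 (.nr 335 642 (.lg 0 true 11 79 79 16 0 1848) (.nx 405 832257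
  (.nx 347 82570 (.nr 346 262145 (.lg 1 false 11 97 103 16 125420 55440) .out) (.nr 351 2833 (.lg 2
  true 4 83 83 13 144544 1680) (.nr 355 12496 (.lg 2 true 4 83 89 13 32756 1680) (.nx 366 121356
  (.lg 1 false 11 97 103 16 93945 55440) (.nx 377 178361 (.lg 1 false 11 97 103 16 63920 55440)
  (.nx 400 330282 (.nx 388 262145 (.lg 1 true 11 97 103 16 43491 55440) (.nr 399 155873 (.lg 1 true
  11 89 101 16 14806 55440) .out)) (.nr 404 65537 (.lg 2 false 4 83 89 13 7427 1680) .out)))))))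
  .out)) .out)) (.nr 452 154 (.nr 440 47 (.lg 0 true 33 79 79 16 0 5544) (.nx 451 2642247 (.lg 0
  true 11 71 73 16 0 1848) .out)) .out))) .out) .out) (.nx 619 21137969 (.nr 618 1482912 (.nx 458
  224 (.nx 457 223 (.nr 456 94 (.lg 0 true 1 41 41 11 0 1680) (.l1 .sk)) (.l1 .sk)) (.nr 614 881745
  (.nx 580 2642247 (.nx 574 1321124 (.nr 570 370729 (.nx 473 32768 (.nr 469 220437 (.lg 0 false 11
  103 107 19 0 720720) (.nx 472 2582 (.lg 0 false 3 89 97 13 0 5040) .out)) (.nr 569 311745 (.nr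
  486 2451 (.nr 484 1227 (.lg 0 true 11 89 97 19 0 18480) (.lg 2 true 2 89 89 11 120054 1680)) (.nr
  490 9779 (.nr 488 4896 (.lg 2 true 2 89 89 11 60101 1680) (.lg 2 true 2 89 89 11 30087 1680))
  (.nx 546 185364 (.nx 513 65536 (.nr 512 262145 (.nx 501 46340 (.lg 1 false 11 101 107 19 199090
  720720) (.lg 1 false 11 101 107 19 140780 720720)) .out) (.nx 535 131072 (.nx 524 92681 (.lg 1
  false 11 101 107 19 118363 720720) (.lg 1 false 11 101 107 19 83696 720720)) (.lg 1 false 11 101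
  107 19 59181 720720))) (.nx 557 262145 (.lg 1 true 11 101 107 19 41848 720720) (.nr 568 185365
  (.lg 2 false 11 101 107 19 17604 720720) .out))))) .out)) (.nx 573 814 (.lg 0 false 3 89 89 13 0
  5040) .out)) (.nr 579 154 (.lg 0 true 5 79 79 13 0 240) .out)) (.nr 613 55 (.lg 0 true 33 83 89
  13 0 55440) .out)) (.nx 617 408 (.lg 0 false 3 83 83 13 0 144) .out))) .out) .out)))

def T44_2 : Ph :=
  (.na 277 139 (.na 190 53 (.na 131 17 (.na 90 6 (.na 63 3 (.na 1 2 .ne (.nx 62 330282 (.nr 61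
  623489 (.nx 4 26 (.nx 3 25 (.nr 2 10 (.lg 0 true 1 19 19 5 0 240) (.l1 .sk)) (.l1 .sk)) (.nx 16
  52 (.nr 5 202142 (.l1 (.ls 79 31 1017)) (.lg 0 false 11 67 67 9 0 2640)) (.nr 60 65537 (.nr 52
  9743 (.nx 23 2439 (.lg 0 true 7 73 73 9 0 1680) (.nr 44 154 (.lg 0 true 21 73 73 11 0 5040) (.nx
  51 20644 (.lg 1 true 7 79 79 9 1676 1680) .out))) (.nx 59 324 (.lg 0 false 7 73 73 9 0 1680)
  .out)) .out))) .out) .out)) (.na 64 5 .ne (.nx 89 330282 (.nr 88 23172 (.nr 65 1 .s1 (.nr 82 2898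
  (.nx 66 313 (.l1 (.ls 53 43 19596)) (.nr 77 129 (.lg 0 true 11 61 61 16 0 1320) (.nx 81 20644
  (.lg 2 false 4 59 59 11 2923 240) .out))) (.nx 84 26 (.nx 83 25 (.l1 .sk) (.l1 .sk)) (.nx 87 3252
  (.lg 0 true 3 73 73 9 0 360) .out)))) .out) .out))) (.na 108 13 (.na 91 10 .ne (.nx 107 330282
  (.nr 106 77937 (.nr 92 9 .s1 (.nx 98 1919 (.nx 94 25 (.nr 93 47 (.lg 0 false 1 0 16 9 0 102960)
  (.l1 .sk)) (.nx 95 26 (.l1 .sk) (.lg 0 true 3 73 73 11 0 720))) (.nr 105 27556 (.nr 101 154 (.lg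
  0 false 3 67 67 11 0 720) (.nx 104 20644 (.lg 1 false 3 71 71 11 4493 720) .out)) .out))) .out)
  .out)) (.na 130 16 (.nx 129 330282 (.nr 128 77937 (.nr 109 13 .s1 (.nx 118 2851 (.nr 113 2983
  (.nx 110 635 (.l1 (.ls 47 47 31020)) (.nx 111 1292 (.l1 (.ls 47 59 97390)) (.nx 112 1919 (.l1
  (.ls 47 59 154872)) (.l1 (.ls 53 61 341975))))) (.nx 115 26 (.nx 114 25 (.l1 .sk) (.l1 .sk)) (.lg
  0 false 3 79 79 11 0 4680))) (.nr 127 27556 (.nr 122 154 (.lg 0 true 4 67 67 16 0 3120) (.nx 126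
  20644 (.lg 1 false 4 61 61 16 3024 3120) .out)) .out))) .out) .out) .ne))) (.na 163 29 (.na 147
  25 (.na 146 23 (.nx 145 330282 (.nr 144 131073 (.nr 132 17 .s1 (.nx 135 26 (.nx 134 25 (.nr 133
  82 (.l1 (.ls 16 16 39)) (.l1 .sk)) (.l1 .sk)) (.nx 138 3252 (.lg 0 false 3 73 73 16 0 360) (.nr
  143 27556 (.nr 141 154 (.lg 0 true 3 61 61 16 0 360) (.nx 142 20644 (.lg 1 false 1 71 71 11 2651
  120) .out)) .out)))) .out) .out) .ne) (.na 155 26 (.nx 154 41287 (.nr 153 131073 (.nr 148 25 .s1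
  (.nx 149 324 (.l1 (.ls 71 37 4202)) (.nr 152 32769 (.nx 150 3252 (.lg 0 true 1 67 67 16 0 120)
  (.nr 151 257 (.lg 0 true 1 53 53 16 0 120) .out)) .out))) .out) .out) (.nx 162 41287 (.nr 161
  131073 (.nr 156 26 .s1 (.nx 157 324 (.l1 (.ls 67 43 4040)) (.nr 160 32769 (.nx 158 3252 (.lg 0
  true 1 73 73 11 0 3120) (.nr 159 257 (.lg 0 false 1 59 59 11 0 3120) .out)) .out))) .out) .out)))
  (.na 172 34 (.na 171 32 (.nx 170 41287 (.nr 169 131073 (.nr 164 29 .s1 (.nx 165 324 (.l1 (.ls 67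
  37 3622)) (.nr 168 32769 (.nx 166 3252 (.lg 0 true 1 71 71 13 0 120) (.nr 167 257 (.lg 0 false 1
  59 59 13 0 120) .out)) .out))) .out) .out) .ne) (.na 178 37 (.nx 177 41287 (.nr 176 262145 (.nr
  173 34 .s1 (.nx 174 324 (.l1 (.ls 71 43 3090)) (.nr 175 4097 (.lg 0 false 1 73 73 13 0 240)
  .out))) .out) .out) (.na 184 50 (.nx 183 41287 (.nr 182 262145 (.nr 179 37 .s1 (.nx 180 324 (.l1
  (.ls 67 31 2840)) (.nr 181 4097 (.lg 0 false 1 71 71 16 0 120) .out))) .out) .out) (.nx 189 41287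
  (.nr 188 262145 (.nr 185 50 .s1 (.nx 186 324 (.l1 (.ls 71 41 2102)) (.nr 187 4097 (.lg 0 false 1
  71 71 19 0 240) .out))) .out) .out)))))) (.na 233 101 (.na 209 74 (.na 202 61 (.na 196 58 (.nx
  195 41287 (.nr 194 262145 (.nr 191 53 .s1 (.nx 192 324 (.l1 (.ls 67 29 1983)) (.nr 193 4097 (.lg
  0 false 1 67 67 16 0 120) .out))) .out) .out) (.nx 201 41287 (.nr 200 262145 (.nr 197 58 .s1 (.nx
  198 324 (.l1 (.ls 67 41 1812)) (.nr 199 4097 (.lg 0 false 1 71 71 13 0 720) .out))) .out) .out))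
  (.na 208 64 (.nx 207 41287 (.nr 206 262145 (.nr 203 61 .s1 (.nx 204 324 (.l1 (.ls 59 29 1723))
  (.nr 205 4097 (.lg 0 false 1 67 67 16 0 120) .out))) .out) .out) .ne)) (.na 221 85 (.na 215 82
  (.nx 214 20644 (.nr 213 524289 (.nr 210 74 .s1 (.nx 211 324 (.l1 (.ls 71 31 1421)) (.nr 212 65537
  (.lg 0 true 1 79 79 13 0 240) .out))) .out) .out) (.nx 220 20644 (.nr 219 524289 (.nr 216 82 .s1
  (.nx 217 324 (.l1 (.ls 71 37 1283)) (.nr 218 65537 (.lg 0 true 1 79 79 13 0 240) .out))) .out)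
  .out)) (.na 227 89 (.nx 226 20644 (.nr 225 524289 (.nr 222 85 .s1 (.nx 223 324 (.l1 (.ls 67 31
  1238)) (.nr 224 65537 (.lg 0 true 1 73 73 16 0 360) .out))) .out) .out) (.nx 232 20644 (.nr 231
  524289 (.nr 228 89 .s1 (.nx 229 324 (.l1 (.ls 61 29 1182)) (.nr 230 65537 (.lg 0 true 1 71 71 16
  0 120) .out))) .out) .out)))) (.na 257 122 (.na 245 109 (.na 239 106 (.nx 238 20644 (.nr 237
  524289 (.nr 234 101 .s1 (.nx 235 324 (.l1 (.ls 61 23 1042)) (.nr 236 65537 (.lg 0 true 1 67 67 16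
  0 120) .out))) .out) .out) (.nx 244 20644 (.nr 243 524289 (.nr 240 106 .s1 (.nx 241 324 (.l1 (.ls
  67 31 993)) (.nr 242 65537 (.lg 0 true 1 73 73 19 0 240) .out))) .out) .out)) (.na 251 113 (.nx
  250 20644 (.nr 249 524289 (.nr 246 109 .s1 (.nx 247 324 (.l1 (.ls 59 23 966)) (.nr 248 65537 (.lg
  0 true 1 67 67 16 0 120) .out))) .out) .out) (.nx 256 20644 (.nr 255 524289 (.nr 252 113 .s1 (.nx
  253 324 (.l1 (.ls 61 23 931)) (.nr 254 65537 (.lg 0 true 1 67 67 16 0 120) .out))) .out) .out)))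
  (.na 269 128 (.na 263 125 (.nx 262 20644 (.nr 261 524289 (.nr 258 122 .s1 (.nx 259 324 (.l1 (.ls
  59 31 863)) (.nr 260 65537 (.lg 0 true 1 73 73 19 0 720) .out))) .out) .out) (.nx 268 20644 (.nr
  267 524289 (.nr 264 125 .s1 (.nx 265 324 (.l1 (.ls 71 29 842)) (.nr 266 65537 (.lg 0 false 1 73
  73 17 0 120) .out))) .out) .out)) (.na 270 130 .ne (.na 276 131 (.nx 275 20644 (.nr 274 16385
  (.nr 271 130 .s1 (.nx 272 324 (.l1 (.ls 41 41 810)) (.nr 273 1025 (.lg 2 false 1 29 29 29 1985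
  3120) .out))) .out) .out) (.lg 0 false 1 0 0 16 0 24))))))) (.na 354 205 (.na 310 173 (.na 296
  157 (.na 284 146 (.na 278 145 (.lg 0 false 1 0 0 16 0 24) (.nx 283 20644 (.nr 282 16385 (.nr 279
  145 .s1 (.nx 280 324 (.l1 (.ls 23 23 726)) (.nr 281 1025 (.lg 2 true 1 19 19 17 1780 120) .out)))
  .out) .out)) (.na 290 149 (.nx 289 20644 (.nr 288 16385 (.nr 285 146 .s1 (.nx 286 324 (.l1 (.ls
  37 31 722)) (.nr 287 1025 (.lg 2 true 1 23 23 19 1768 1680) .out))) .out) .out) (.nx 295 20644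
  (.nr 294 16385 (.nr 291 149 .s1 (.nx 292 324 (.l1 (.ls 31 23 707)) (.nr 293 1025 (.lg 2 false 1
  19 19 16 1732 120) .out))) .out) .out))) (.na 303 167 (.na 302 163 (.nx 301 20644 (.nr 300 16385
  (.nr 297 157 .s1 (.nx 298 324 (.l1 (.ls 31 23 671)) (.nr 299 1025 (.lg 2 true 1 19 19 16 1644
  720) .out))) .out) .out) (.lg 0 false 1 0 0 16 0 24)) (.na 304 170 (.lg 0 false 1 0 0 16 0 24)
  (.nx 309 20644 (.nr 308 16385 (.nr 305 170 .s1 (.nx 306 324 (.l1 (.ls 37 37 620)) (.nr 307 1025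
  (.lg 2 true 1 19 19 29 1518 240) .out))) .out) .out)))) (.na 329 185 (.na 322 179 (.na 316 178
  (.nx 315 20644 (.nr 314 16385 (.nr 311 173 .s1 (.nx 312 324 (.l1 (.ls 31 23 609)) (.nr 313 1025
  (.lg 2 false 1 23 23 16 1492 21840) .out))) .out) .out) (.nx 321 20644 (.nr 320 16385 (.nr 317
  178 .s1 (.nx 318 324 (.l1 (.ls 31 31 592)) (.nr 319 1025 (.lg 2 false 1 23 23 19 1450 34320)
  .out))) .out) .out)) (.na 323 181 (.lg 0 false 1 0 0 16 0 24) (.nx 328 20644 (.nr 327 16385 (.nr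
  324 181 .s1 (.nx 325 324 (.l1 (.ls 31 23 582)) (.nr 326 1025 (.lg 2 true 1 17 17 16 1426 840)
  .out))) .out) .out))) (.na 341 197 (.na 335 194 (.nx 334 20644 (.nr 333 16385 (.nr 330 185 .s1
  (.nx 331 324 (.l1 (.ls 31 23 570)) (.nr 332 1025 (.lg 2 true 1 19 19 17 1395 51480) .out))) .out)
  .out) (.nx 340 20644 (.nr 339 16385 (.nr 336 194 .s1 (.nx 337 324 (.l1 (.ls 31 31 544)) (.nr 338
  1025 (.lg 2 true 1 17 17 19 1331 240) .out))) .out) .out)) (.na 347 199 (.nx 346 20644 (.nr 345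
  16385 (.nr 342 197 .s1 (.nx 343 324 (.l1 (.ls 31 19 535)) (.nr 344 1025 (.lg 2 true 1 17 17 16
  1310 840) .out))) .out) .out) (.na 348 202 (.lg 0 false 1 0 0 16 0 24) (.nx 353 20644 (.nr 352
  16385 (.nr 349 202 .s1 (.nx 350 324 (.l1 (.ls 31 31 522)) (.nr 351 1025 (.lg 2 true 1 19 19 23
  1278 1680) .out))) .out) .out)))))) (.na 393 250 (.na 373 226 (.na 361 218 (.na 360 211 (.nx 359
  20644 (.nr 358 16385 (.nr 355 205 .s1 (.nx 356 324 (.l1 (.ls 29 23 515)) (.nr 357 1025 (.lg 2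
  true 1 19 19 17 1259 21840) .out))) .out) .out) (.lg 0 false 1 0 0 16 0 24)) (.na 367 221 (.nx
  366 20644 (.nr 365 16385 (.nr 362 218 .s1 (.nx 363 324 (.l1 (.ls 31 29 484)) (.nr 364 1025 (.lg 2
  false 1 23 23 23 1184 240240) .out))) .out) .out) (.nx 372 20644 (.nr 371 16385 (.nr 368 221 .s1
  (.nx 369 324 (.l1 (.ls 43 29 478)) (.nr 370 1025 (.lg 2 false 1 23 23 23 1168 1560) .out))) .out)
  .out))) (.na 380 229 (.na 379 227 (.nx 378 20644 (.nr 377 16385 (.nr 374 226 .s1 (.nx 375 324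
  (.l1 (.ls 31 29 467)) (.nr 376 1025 (.lg 2 false 1 16 16 23 1142 240) .out))) .out) .out) (.lg 0
  false 1 0 0 16 0 24)) (.na 386 239 (.nx 385 20644 (.nr 384 16385 (.nr 381 229 .s1 (.nx 382 324
  (.l1 (.ls 31 19 461)) (.nr 383 1025 (.lg 2 true 1 23 23 17 1127 720720) .out))) .out) .out) (.na
  387 241 (.lg 0 false 1 0 0 16 0 24) (.nx 392 20644 (.nr 391 16385 (.nr 388 241 .s1 (.nx 389 324
  (.l1 (.ls 29 19 438)) (.nr 390 1025 (.lg 2 true 1 16 16 17 1071 17160) .out))) .out) .out)))))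
  (.na 974 512 (.na 400 256 (.na 399 251 (.nx 398 20644 (.nr 397 16385 (.nr 394 250 .s1 (.nx 395
  324 (.l1 (.ls 43 31 422)) (.nr 396 1025 (.lg 2 false 1 23 29 29 1033 21840) .out))) .out) .out)
  (.lg 0 false 1 0 0 16 0 24)) (.na 401 257 .ne (.nx 973 20644 (.nr 972 4097 (.nr 402 257 .s1 (.nx
  716 324 (.nx 461 60 (.lx (.lp 16 0 129)) (.la (.ls 29 23 397))) (.nr 971 2049 (.la (.lg 2 false 1
  19 19 23 2004)) .out))) .out) .out))) (.na 2159 2048 (.na 2054 1024 (.nx 2053 20644 (.nr 2052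
  8193 (.nr 975 512 .s1 (.nx 1026 52 (.lx (.lp 41 17 257)) (.nr 2051 4097 (.nx 1538 324 (.la (.ls
  29 23 257)) (.nr 2050 2049 (.la (.lg 2 true 1 16 16 29 2004)) .out)) .out))) .out) .out) (.nx
  2158 103 (.nr 2157 8193 (.nr 2055 1024 .s1 (.lx (.lp 19 23 513))) .out) .out)) (.na 2243 4096
  (.nx 2242 82 (.nr 2241 8193 (.nr 2160 2048 .s1 (.lx (.lp 16 0 1025))) .out) .out) (.na 2327 8193
  (.nx 2326 82 (.nr 2325 16385 (.nr 2244 4096 .s1 (.lx (.lp 16 0 2049))) .out) .out) .out)))))))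

theorem c44 :
    OkQ ckI L6 96 21 1099511627776 0 34359738368 1 1099511627776 ∧
    OkQ ckI L10 223 4 9 0 34359738368 1 1099511627776 ∧
    OkQ ckI L3 25 1 1099511627776 0 34359738368 1 1099511627776 := by
  refine ⟨?_, ?_, ?_⟩
  · refine fin 48 8035 T44_0 ?_
    refine jn 7 (by decide +kernel) ?_
    refine jn 11 (by decide +kernel) ?_
    refine jn 12 (by decide +kernel) ?_
    refine jn 17 (by decide +kernel) ?_
    refine jn 26 (by decide +kernel) ?_
    refine jn 32 (by decide +kernel) ?_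
    refine jn 37 (by decide +kernel) ?_
    refine jn 42 (by decide +kernel) ?_
    refine jn 55 (by decide +kernel) ?_
    refine jn 56 (by decide +kernel) ?_
    refine jn 61 (by decide +kernel) ?_
    refine jn 66 (by decide +kernel) ?_
    refine jn 78 (by decide +kernel) ?_
    refine jn 79 (by decide +kernel) ?_
    refine jn 80 (by decide +kernel) ?_
    refine jn 81 (by decide +kernel) ?_
    refine jn 82 (by decide +kernel) ?_
    refine jn 83 (by decide +kernel) ?_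
    refine jn 84 (by decide +kernel) ?_
    refine jn 85 (by decide +kernel) ?_
    refine jn 90 (by decide +kernel) ?_
    refine jn 103 (by decide +kernel) ?_
    refine jn 107 (by decide +kernel) ?_
    refine jn 108 (by decide +kernel) ?_
    refine jn 109 (by decide +kernel) ?_
    refine jn 110 (by decide +kernel) ?_
    refine jn 112 (by decide +kernel) ?_
    refine jn 115 (by decide +kernel) ?_
    refine jn 126 (by decide +kernel) ?_
    refine jn 131 (by decide +kernel) ?_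
    refine jn 136 (by decide +kernel) ?_
    refine jn 148 (by decide +kernel) ?_
    refine jn 151 (by decide +kernel) ?_
    refine jn 159 (by decide +kernel) ?_
    refine jn 170 (by decide +kernel) ?_
    refine jn 175 (by decide +kernel) ?_
    refine jn 181 (by decide +kernel) ?_
    refine jn 191 (by decide +kernel) ?_
    refine jn 192 (by decide +kernel) ?_
    refine jn 193 (by decide +kernel) ?_
    refine jn 194 (by decide +kernel) ?_
    refine jn 197 (by decide +kernel) ?_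
    refine jn 198 (by decide +kernel) ?_
    refine jn 199 (by decide +kernel) ?_
    refine jn 200 (by decide +kernel) ?_
    refine jn 210 (by decide +kernel) ?_
    refine jn 215 (by decide +kernel) ?_
    refine jn 220 (by decide +kernel) ?_
    refine jn 228 (by decide +kernel) ?_
    refine jn 229 (by decide +kernel) ?_
    refine jn 230 (by decide +kernel) ?_
    refine jn 231 (by decide +kernel) ?_
    refine jn 232 (by decide +kernel) ?_
    refine jn 233 (by decide +kernel) ?_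
    refine jn 234 (by decide +kernel) ?_
    refine jn 245 (by decide +kernel) ?_
    refine jn 246 (by decide +kernel) ?_
    refine jn 247 (by decide +kernel) ?_
    refine jn 248 (by decide +kernel) ?_
    refine jn 249 (by decide +kernel) ?_
    refine jn 251 (by decide +kernel) ?_
    refine jn 265 (by decide +kernel) ?_
    refine jn 269 (by decide +kernel) ?_
    refine jn 277 (by decide +kernel) ?_
    refine jn 278 (by decide +kernel) ?_
    refine jn 279 (by decide +kernel) ?_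
    refine jn 280 (by decide +kernel) ?_
    refine jn 281 (by decide +kernel) ?_
    refine jn 283 (by decide +kernel) ?_
    refine jn 294 (by decide +kernel) ?_
    refine jn 295 (by decide +kernel) ?_
    refine jn 296 (by decide +kernel) ?_
    refine jn 298 (by decide +kernel) ?_
    refine jn 307 (by decide +kernel) ?_
    refine jn 312 (by decide +kernel) ?_
    refine jn 323 (by decide +kernel) ?_
    refine jn 327 (by decide +kernel) ?_
    refine jn 340 (by decide +kernel) ?_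
    refine jn 350 (by decide +kernel) ?_
    refine jn 352 (by decide +kernel) ?_
    refine jn 354 (by decide +kernel) ?_
    refine jn 363 (by decide +kernel) ?_
    refine jn 365 (by decide +kernel) ?_
    refine jn 367 (by decide +kernel) ?_
    refine jn 378 (by decide +kernel) ?_
    refine jn 387 (by decide +kernel) ?_
    refine jn 395 (by decide +kernel) ?_
    refine jn 404 (by decide +kernel) ?_
    refine jn 406 (by decide +kernel) ?_
    refine jn 407 (by decide +kernel) ?_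
    refine jn 419 (by decide +kernel) ?_
    refine jn 431 (by decide +kernel) ?_
    refine jn 439 (by decide +kernel) ?_
    refine jn 450 (by decide +kernel) ?_
    refine jn 452 (by decide +kernel) ?_
    refine jn 466 (by decide +kernel) ?_
    refine jn 479 (by decide +kernel) ?_
    refine jn 490 (by decide +kernel) ?_
    refine jn 492 (by decide +kernel) ?_
    refine jn 505 (by decide +kernel) ?_
    refine jn 514 (by decide +kernel) ?_
    refine jn 515 (by decide +kernel) ?_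
    refine jn 516 (by decide +kernel) ?_
    refine jn 522 (by decide +kernel) ?_
    refine jn 531 (by decide +kernel) ?_
    refine jn 541 (by decide +kernel) ?_
    refine jn 544 (by decide +kernel) ?_
    refine jn 555 (by decide +kernel) ?_
    refine jn 565 (by decide +kernel) ?_
    refine jn 568 (by decide +kernel) ?_
    refine jn 582 (by decide +kernel) ?_
    refine jn 592 (by decide +kernel) ?_
    refine jn 595 (by decide +kernel) ?_
    refine jn 608 (by decide +kernel) ?_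
    refine jn 620 (by decide +kernel) ?_
    refine jn 631 (by decide +kernel) ?_
    refine jn 634 (by decide +kernel) ?_
    refine jn 646 (by decide +kernel) ?_
    refine jn 657 (by decide +kernel) ?_
    refine jn 667 (by decide +kernel) ?_
    refine jn 670 (by decide +kernel) ?_
    refine jn 681 (by decide +kernel) ?_
    refine jn 692 (by decide +kernel) ?_
    refine jn 702 (by decide +kernel) ?_
    refine jn 704 (by decide +kernel) ?_
    refine jn 712 (by decide +kernel) ?_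
    refine jn 713 (by decide +kernel) ?_
    refine jn 714 (by decide +kernel) ?_
    refine jn 720 (by decide +kernel) ?_
    refine jn 724 (by decide +kernel) ?_
    refine jn 726 (by decide +kernel) ?_
    refine jn 737 (by decide +kernel) ?_
    refine jn 747 (by decide +kernel) ?_
    refine jn 758 (by decide +kernel) ?_
    refine jn 768 (by decide +kernel) ?_
    refine jn 770 (by decide +kernel) ?_
    refine jn 787 (by decide +kernel) ?_
    refine jn 799 (by decide +kernel) ?_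
    refine jn 809 (by decide +kernel) ?_
    refine jn 820 (by decide +kernel) ?_
    refine jn 822 (by decide +kernel) ?_
    refine jn 824 (by decide +kernel) ?_
    refine jn 835 (by decide +kernel) ?_
    refine jn 844 (by decide +kernel) ?_
    refine jn 860 (by decide +kernel) ?_
    refine jn 876 (by decide +kernel) ?_
    refine jn 884 (by decide +kernel) ?_
    refine jn 892 (by decide +kernel) ?_
    refine jn 909 (by decide +kernel) ?_
    refine jn 916 (by decide +kernel) ?_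
    refine jn 926 (by decide +kernel) ?_
    refine jn 935 (by decide +kernel) ?_
    refine jn 944 (by decide +kernel) ?_
    refine jn 960 (by decide +kernel) ?_
    refine jn 968 (by decide +kernel) ?_
    refine jn 975 (by decide +kernel) ?_
    refine jn 984 (by decide +kernel) ?_
    refine jn 1002 (by decide +kernel) ?_
    refine jn 1020 (by decide +kernel) ?_
    refine jn 1028 (by decide +kernel) ?_
    refine jn 1045 (by decide +kernel) ?_
    refine jn 1053 (by decide +kernel) ?_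
    refine jn 1068 (by decide +kernel) ?_
    refine jn 1077 (by decide +kernel) ?_
    refine jn 1085 (by decide +kernel) ?_
    refine jn 1094 (by decide +kernel) ?_
    refine jn 1110 (by decide +kernel) ?_
    refine jn 1119 (by decide +kernel) ?_
    refine jn 1126 (by decide +kernel) ?_
    refine jn 1135 (by decide +kernel) ?_
    refine jn 1142 (by decide +kernel) ?_
    refine jn 1152 (by decide +kernel) ?_
    refine jn 1161 (by decide +kernel) ?_
    refine jn 1171 (by decide +kernel) ?_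
    refine jn 1183 (by decide +kernel) ?_
    refine jn 1193 (by decide +kernel) ?_
    refine jn 1195 (by decide +kernel) ?_
    refine jn 1210 (by decide +kernel) ?_
    refine jn 1220 (by decide +kernel) ?_
    refine jn 1233 (by decide +kernel) ?_
    refine jn 1244 (by decide +kernel) ?_
    refine jn 1261 (by decide +kernel) ?_
    refine jn 1290 (by decide +kernel) ?_
    refine jn 1305 (by decide +kernel) ?_
    refine jn 1320 (by decide +kernel) ?_
    refine jn 1342 (by decide +kernel) ?_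
    refine jn 1360 (by decide +kernel) ?_
    refine jn 1382 (by decide +kernel) ?_
    refine jn 1404 (by decide +kernel) ?_
    refine jn 1423 (by decide +kernel) ?_
    refine jn 1445 (by decide +kernel) ?_
    refine jn 1472 (by decide +kernel) ?_
    refine jn 1492 (by decide +kernel) ?_
    refine jn 1515 (by decide +kernel) ?_
    refine jn 1529 (by decide +kernel) ?_
    refine jn 1534 (by decide +kernel) ?_
    refine jn 1540 (by decide +kernel) ?_
    refine jn 1545 (by decide +kernel) ?_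
    refine jn 1546 (by decide +kernel) ?_
    refine jn 1557 (by decide +kernel) ?_
    refine jn 1559 (by decide +kernel) ?_
    refine jn 1563 (by decide +kernel) ?_
    refine jn 1567 (by decide +kernel) ?_
    refine jn 1573 (by decide +kernel) ?_
    refine jn 1574 (by decide +kernel) ?_
    refine jn 1578 (by decide +kernel) ?_
    refine jn 1582 (by decide +kernel) ?_
    refine jn 1584 (by decide +kernel) ?_
    refine jn 1595 (by decide +kernel) ?_
    refine jn 1601 (by decide +kernel) ?_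
    refine jn 1602 (by decide +kernel) ?_
    refine jn 1608 (by decide +kernel) ?_
    refine jn 1613 (by decide +kernel) ?_
    refine jn 1617 (by decide +kernel) ?_
    refine jn 1619 (by decide +kernel) ?_
    refine jn 1630 (by decide +kernel) ?_
    refine jn 1636 (by decide +kernel) ?_
    refine jn 1640 (by decide +kernel) ?_
    refine jn 1650 (by decide +kernel) ?_
    refine jn 1651 (by decide +kernel) ?_
    refine jn 1657 (by decide +kernel) ?_
    refine jn 1660 (by decide +kernel) ?_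
    refine jn 1665 (by decide +kernel) ?_
    refine jn 1669 (by decide +kernel) ?_
    refine jn 1674 (by decide +kernel) ?_
    refine jn 1678 (by decide +kernel) ?_
    refine jn 1684 (by decide +kernel) ?_
    refine jn 1685 (by decide +kernel) ?_
    refine jn 1689 (by decide +kernel) ?_
    refine jn 1698 (by decide +kernel) ?_
    refine jn 1700 (by decide +kernel) ?_
    refine jn 1705 (by decide +kernel) ?_
    refine jn 1708 (by decide +kernel) ?_
    refine jn 1718 (by decide +kernel) ?_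
    refine jn 1726 (by decide +kernel) ?_
    refine jn 1729 (by decide +kernel) ?_
    refine jn 1730 (by decide +kernel) ?_
    refine jn 1737 (by decide +kernel) ?_
    refine jn 1745 (by decide +kernel) ?_
    refine jn 1747 (by decide +kernel) ?_
    refine jn 1750 (by decide +kernel) ?_
    refine jn 1755 (by decide +kernel) ?_
    refine jn 1761 (by decide +kernel) ?_
    refine jn 1763 (by decide +kernel) ?_
    refine jn 1770 (by decide +kernel) ?_
    refine jn 1774 (by decide +kernel) ?_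
    refine jn 1794 (by decide +kernel) ?_
    refine jn 1822 (by decide +kernel) ?_
    refine jn 1850 (by decide +kernel) ?_
    refine jn 1870 (by decide +kernel) ?_
    refine jn 1899 (by decide +kernel) ?_
    refine jn 1929 (by decide +kernel) ?_
    refine jn 1955 (by decide +kernel) ?_
    refine jn 1994 (by decide +kernel) ?_
    refine jn 2007 (by decide +kernel) ?_
    refine jn 2010 (by decide +kernel) ?_
    refine jn 2012 (by decide +kernel) ?_
    refine jn 2020 (by decide +kernel) ?_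
    refine jn 2032 (by decide +kernel) ?_
    refine jn 2040 (by decide +kernel) ?_
    refine jn 2042 (by decide +kernel) ?_
    refine jn 2043 (by decide +kernel) ?_
    refine jn 2062 (by decide +kernel) ?_
    refine jn 2063 (by decide +kernel) ?_
    refine jn 2066 (by decide +kernel) ?_
    refine jn 2070 (by decide +kernel) ?_
    refine jn 2078 (by decide +kernel) ?_
    refine jn 2083 (by decide +kernel) ?_
    refine jn 2088 (by decide +kernel) ?_
    refine jn 2098 (by decide +kernel) ?_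
    refine jn 2102 (by decide +kernel) ?_
    refine jn 2108 (by decide +kernel) ?_
    refine jn 2116 (by decide +kernel) ?_
    refine jn 2120 (by decide +kernel) ?_
    refine jn 2133 (by decide +kernel) ?_
    refine jn 2141 (by decide +kernel) ?_
    refine jn 2146 (by decide +kernel) ?_
    refine jn 2154 (by decide +kernel) ?_
    refine jn 2156 (by decide +kernel) ?_
    refine jn 2163 (by decide +kernel) ?_
    refine jn 2168 (by decide +kernel) ?_
    refine jn 2178 (by decide +kernel) ?_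
    refine jn 2183 (by decide +kernel) ?_
    refine jn 2198 (by decide +kernel) ?_
    refine jn 2211 (by decide +kernel) ?_
    refine jn 2317 (by decide +kernel) ?_
    refine jn 2333 (by decide +kernel) ?_
    refine jn 2353 (by decide +kernel) ?_
    refine jn 2361 (by decide +kernel) ?_
    refine jn 2378 (by decide +kernel) ?_
    refine jn 2391 (by decide +kernel) ?_
    refine jn 2407 (by decide +kernel) ?_
    refine jn 2423 (by decide +kernel) ?_
    refine jn 2439 (by decide +kernel) ?_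
    refine jn 2453 (by decide +kernel) ?_
    refine jn 2463 (by decide +kernel) ?_
    refine jn 2472 (by decide +kernel) ?_
    refine jn 2496 (by decide +kernel) ?_
    refine jn 2511 (by decide +kernel) ?_
    refine jn 2527 (by decide +kernel) ?_
    refine jn 2548 (by decide +kernel) ?_
    refine jn 2565 (by decide +kernel) ?_
    refine jn 2587 (by decide +kernel) ?_
    refine jn 2602 (by decide +kernel) ?_
    refine jn 2721 (by decide +kernel) ?_
    refine jn 2740 (by decide +kernel) ?_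
    refine jn 2759 (by decide +kernel) ?_
    refine jn 2783 (by decide +kernel) ?_
    refine jn 2803 (by decide +kernel) ?_
    refine jn 2832 (by decide +kernel) ?_
    refine jn 2847 (by decide +kernel) ?_
    refine jn 2860 (by decide +kernel) ?_
    refine jn 2883 (by decide +kernel) ?_
    refine jn 2897 (by decide +kernel) ?_
    refine jn 2915 (by decide +kernel) ?_
    refine jn 2923 (by decide +kernel) ?_
    refine jn 2945 (by decide +kernel) ?_
    refine jn 2962 (by decide +kernel) ?_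
    refine jn 2993 (by decide +kernel) ?_
    refine jn 3012 (by decide +kernel) ?_
    refine jn 3047 (by decide +kernel) ?_
    refine jn 3071 (by decide +kernel) ?_
    refine jn 3085 (by decide +kernel) ?_
    refine jn 3129 (by decide +kernel) ?_
    refine jn 3251 (by decide +kernel) ?_
    refine jn 3283 (by decide +kernel) ?_
    refine jn 3323 (by decide +kernel) ?_
    refine jn 3351 (by decide +kernel) ?_
    refine jn 3388 (by decide +kernel) ?_
    refine jn 3426 (by decide +kernel) ?_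
    refine jn 3459 (by decide +kernel) ?_
    refine jn 3495 (by decide +kernel) ?_
    refine jn 3533 (by decide +kernel) ?_
    refine jn 3566 (by decide +kernel) ?_
    refine jn 3611 (by decide +kernel) ?_
    refine jn 3651 (by decide +kernel) ?_
    refine jn 3690 (by decide +kernel) ?_
    refine jn 3731 (by decide +kernel) ?_
    refine jn 3776 (by decide +kernel) ?_
    refine jn 3815 (by decide +kernel) ?_
    refine jn 3943 (by decide +kernel) ?_
    refine jn 3983 (by decide +kernel) ?_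
    refine jn 4031 (by decide +kernel) ?_
    refine jn 4073 (by decide +kernel) ?_
    refine jn 4116 (by decide +kernel) ?_
    refine jn 4170 (by decide +kernel) ?_
    refine jn 4208 (by decide +kernel) ?_
    refine jn 4243 (by decide +kernel) ?_
    refine jn 4287 (by decide +kernel) ?_
    refine jn 4326 (by decide +kernel) ?_
    refine jn 4363 (by decide +kernel) ?_
    refine jn 4409 (by decide +kernel) ?_
    refine jn 4452 (by decide +kernel) ?_
    refine jn 4500 (by decide +kernel) ?_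
    refine jn 4545 (by decide +kernel) ?_
    refine jn 4596 (by decide +kernel) ?_
    refine jn 4645 (by decide +kernel) ?_
    refine jn 4684 (by decide +kernel) ?_
    refine jn 4746 (by decide +kernel) ?_
    refine jn 4919 (by decide +kernel) ?_
    refine jn 5046 (by decide +kernel) ?_
    refine jn 5181 (by decide +kernel) ?_
    refine jn 5275 (by decide +kernel) ?_
    refine jn 5364 (by decide +kernel) ?_
    refine jn 5433 (by decide +kernel) ?_
    refine jn 5614 (by decide +kernel) ?_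
    refine jn 5696 (by decide +kernel) ?_
    refine jn 5803 (by decide +kernel) ?_
    refine jn 5846 (by decide +kernel) ?_
    refine jn 5916 (by decide +kernel) ?_
    refine jn 5966 (by decide +kernel) ?_
    refine jn 6018 (by decide +kernel) ?_
    refine jn 6056 (by decide +kernel) ?_
    refine jn 6256 (by decide +kernel) ?_
    refine jn 6367 (by decide +kernel) ?_
    refine jn 6439 (by decide +kernel) ?_
    refine jn 6510 (by decide +kernel) ?_
    refine jn 6602 (by decide +kernel) ?_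
    refine jn 6650 (by decide +kernel) ?_
    refine jn 6728 (by decide +kernel) ?_
    refine jn 6967 (by decide +kernel) ?_
    refine jn 7117 (by decide +kernel) ?_
    refine jn 7185 (by decide +kernel) ?_
    refine jn 7282 (by decide +kernel) ?_
    refine jn 7602 (by decide +kernel) ?_
    refine jn 7870 (by decide +kernel) ?_
    exact je (by decide +kernel)
  · refine fin 24 620 T44_1 ?_
    refine jn 3 (by decide +kernel) ?_
    refine jn 6 (by decide +kernel) ?_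
    refine jn 9 (by decide +kernel) ?_
    refine jn 13 (by decide +kernel) ?_
    refine jn 16 (by decide +kernel) ?_
    refine jn 18 (by decide +kernel) ?_
    refine jn 21 (by decide +kernel) ?_
    refine jn 24 (by decide +kernel) ?_
    refine jn 27 (by decide +kernel) ?_
    refine jn 30 (by decide +kernel) ?_
    refine jn 33 (by decide +kernel) ?_
    refine jn 36 (by decide +kernel) ?_
    refine jn 39 (by decide +kernel) ?_
    refine jn 42 (by decide +kernel) ?_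
    refine jn 44 (by decide +kernel) ?_
    refine jn 47 (by decide +kernel) ?_
    refine jn 51 (by decide +kernel) ?_
    refine jn 53 (by decide +kernel) ?_
    refine jn 57 (by decide +kernel) ?_
    refine jn 69 (by decide +kernel) ?_
    refine jn 73 (by decide +kernel) ?_
    refine jn 76 (by decide +kernel) ?_
    refine jn 79 (by decide +kernel) ?_
    refine jn 82 (by decide +kernel) ?_
    refine jn 85 (by decide +kernel) ?_
    refine jn 93 (by decide +kernel) ?_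
    refine jn 100 (by decide +kernel) ?_
    refine jn 108 (by decide +kernel) ?_
    refine jn 113 (by decide +kernel) ?_
    refine jn 122 (by decide +kernel) ?_
    refine jn 128 (by decide +kernel) ?_
    refine jn 137 (by decide +kernel) ?_
    refine jn 143 (by decide +kernel) ?_
    refine jn 152 (by decide +kernel) ?_
    refine jn 158 (by decide +kernel) ?_
    refine jn 173 (by decide +kernel) ?_
    refine jn 189 (by decide +kernel) ?_
    refine jn 197 (by decide +kernel) ?_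
    refine jn 203 (by decide +kernel) ?_
    refine jn 252 (by decide +kernel) ?_
    refine jn 266 (by decide +kernel) ?_
    refine jn 275 (by decide +kernel) ?_
    refine jn 278 (by decide +kernel) ?_
    refine jn 282 (by decide +kernel) ?_
    refine jn 286 (by decide +kernel) ?_
    refine jn 291 (by decide +kernel) ?_
    refine jn 294 (by decide +kernel) ?_
    refine jn 298 (by decide +kernel) ?_
    refine jn 302 (by decide +kernel) ?_
    refine jn 306 (by decide +kernel) ?_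
    refine jn 308 (by decide +kernel) ?_
    refine jn 319 (by decide +kernel) ?_
    refine jn 327 (by decide +kernel) ?_
    refine jn 331 (by decide +kernel) ?_
    refine jn 335 (by decide +kernel) ?_
    refine jn 346 (by decide +kernel) ?_
    refine jn 355 (by decide +kernel) ?_
    refine jn 366 (by decide +kernel) ?_
    refine jn 377 (by decide +kernel) ?_
    refine jn 388 (by decide +kernel) ?_
    refine jn 399 (by decide +kernel) ?_
    refine jn 440 (by decide +kernel) ?_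
    refine jn 451 (by decide +kernel) ?_
    refine jn 458 (by decide +kernel) ?_
    refine jn 459 (by decide +kernel) ?_
    refine jn 460 (by decide +kernel) ?_
    refine jn 461 (by decide +kernel) ?_
    refine jn 462 (by decide +kernel) ?_
    refine jn 463 (by decide +kernel) ?_
    refine jn 464 (by decide +kernel) ?_
    refine jn 465 (by decide +kernel) ?_
    refine jn 466 (by decide +kernel) ?_
    refine jn 467 (by decide +kernel) ?_
    refine jn 468 (by decide +kernel) ?_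
    refine jn 469 (by decide +kernel) ?_
    refine jn 473 (by decide +kernel) ?_
    refine jn 474 (by decide +kernel) ?_
    refine jn 475 (by decide +kernel) ?_
    refine jn 476 (by decide +kernel) ?_
    refine jn 477 (by decide +kernel) ?_
    refine jn 478 (by decide +kernel) ?_
    refine jn 479 (by decide +kernel) ?_
    refine jn 480 (by decide +kernel) ?_
    refine jn 481 (by decide +kernel) ?_
    refine jn 482 (by decide +kernel) ?_
    refine jn 483 (by decide +kernel) ?_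
    refine jn 484 (by decide +kernel) ?_
    refine jn 486 (by decide +kernel) ?_
    refine jn 488 (by decide +kernel) ?_
    refine jn 490 (by decide +kernel) ?_
    refine jn 495 (by decide +kernel) ?_
    refine jn 500 (by decide +kernel) ?_
    refine jn 501 (by decide +kernel) ?_
    refine jn 506 (by decide +kernel) ?_
    refine jn 510 (by decide +kernel) ?_
    refine jn 512 (by decide +kernel) ?_
    refine jn 517 (by decide +kernel) ?_
    refine jn 521 (by decide +kernel) ?_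
    refine jn 524 (by decide +kernel) ?_
    refine jn 528 (by decide +kernel) ?_
    refine jn 532 (by decide +kernel) ?_
    refine jn 535 (by decide +kernel) ?_
    refine jn 539 (by decide +kernel) ?_
    refine jn 543 (by decide +kernel) ?_
    refine jn 546 (by decide +kernel) ?_
    refine jn 550 (by decide +kernel) ?_
    refine jn 554 (by decide +kernel) ?_
    refine jn 557 (by decide +kernel) ?_
    refine jn 560 (by decide +kernel) ?_
    refine jn 563 (by decide +kernel) ?_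
    refine jn 566 (by decide +kernel) ?_
    refine jn 568 (by decide +kernel) ?_
    refine jn 573 (by decide +kernel) ?_
    refine jn 577 (by decide +kernel) ?_
    refine jn 579 (by decide +kernel) ?_
    refine jn 580 (by decide +kernel) ?_
    refine jn 583 (by decide +kernel) ?_
    refine jn 612 (by decide +kernel) ?_
    refine jn 617 (by decide +kernel) ?_
    exact je (by decide +kernel)
  · refine fin 120 2328 T44_2 ?_
    refine jn 4 (by decide +kernel) ?_
    refine jn 16 (by decide +kernel) ?_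
    refine jn 17 (by decide +kernel) ?_
    refine jn 18 (by decide +kernel) ?_
    refine jn 19 (by decide +kernel) ?_
    refine jn 20 (by decide +kernel) ?_
    refine jn 21 (by decide +kernel) ?_
    refine jn 22 (by decide +kernel) ?_
    refine jn 23 (by decide +kernel) ?_
    refine jn 27 (by decide +kernel) ?_
    refine jn 31 (by decide +kernel) ?_
    refine jn 34 (by decide +kernel) ?_
    refine jn 39 (by decide +kernel) ?_
    refine jn 44 (by decide +kernel) ?_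
    refine jn 59 (by decide +kernel) ?_
    refine jn 65 (by decide +kernel) ?_
    refine jn 66 (by decide +kernel) ?_
    refine jn 69 (by decide +kernel) ?_
    refine jn 73 (by decide +kernel) ?_
    refine jn 77 (by decide +kernel) ?_
    refine jn 78 (by decide +kernel) ?_
    refine jn 79 (by decide +kernel) ?_
    refine jn 80 (by decide +kernel) ?_
    refine jn 81 (by decide +kernel) ?_
    refine jn 95 (by decide +kernel) ?_
    refine jn 98 (by decide +kernel) ?_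
    refine jn 101 (by decide +kernel) ?_
    refine jn 109 (by decide +kernel) ?_
    refine jn 110 (by decide +kernel) ?_
    refine jn 111 (by decide +kernel) ?_
    refine jn 112 (by decide +kernel) ?_
    refine jn 118 (by decide +kernel) ?_
    refine jn 120 (by decide +kernel) ?_
    refine jn 122 (by decide +kernel) ?_
    refine jn 123 (by decide +kernel) ?_
    refine jn 124 (by decide +kernel) ?_
    refine jn 125 (by decide +kernel) ?_
    refine jn 126 (by decide +kernel) ?_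
    refine jn 136 (by decide +kernel) ?_
    refine jn 137 (by decide +kernel) ?_
    refine jn 138 (by decide +kernel) ?_
    refine jn 140 (by decide +kernel) ?_
    refine jn 142 (by decide +kernel) ?_
    refine jn 148 (by decide +kernel) ?_
    refine jn 149 (by decide +kernel) ?_
    refine jn 150 (by decide +kernel) ?_
    refine jn 151 (by decide +kernel) ?_
    refine jn 158 (by decide +kernel) ?_
    refine jn 164 (by decide +kernel) ?_
    refine jn 166 (by decide +kernel) ?_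
    refine jn 173 (by decide +kernel) ?_
    refine jn 175 (by decide +kernel) ?_
    refine jn 181 (by decide +kernel) ?_
    refine jn 185 (by decide +kernel) ?_
    refine jn 186 (by decide +kernel) ?_
    refine jn 187 (by decide +kernel) ?_
    refine jn 197 (by decide +kernel) ?_
    refine jn 203 (by decide +kernel) ?_
    refine jn 212 (by decide +kernel) ?_
    refine jn 224 (by decide +kernel) ?_
    refine jn 236 (by decide +kernel) ?_
    refine jn 252 (by decide +kernel) ?_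
    refine jn 264 (by decide +kernel) ?_
    refine jn 265 (by decide +kernel) ?_
    refine jn 266 (by decide +kernel) ?_
    refine jn 293 (by decide +kernel) ?_
    refine jn 325 (by decide +kernel) ?_
    refine jn 356 (by decide +kernel) ?_
    refine jn 383 (by decide +kernel) ?_
    refine jn 461 (by decide +kernel) ?_
    refine jn 590 (by decide +kernel) ?_
    refine jn 736 (by decide +kernel) ?_
    refine jn 784 (by decide +kernel) ?_
    refine jn 808 (by decide +kernel) ?_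
    refine jn 860 (by decide +kernel) ?_
    refine jn 925 (by decide +kernel) ?_
    refine jn 1076 (by decide +kernel) ?_
    refine jn 1239 (by decide +kernel) ?_
    refine jn 1439 (by decide +kernel) ?_
    refine jn 1580 (by decide +kernel) ?_
    refine jn 1651 (by decide +kernel) ?_
    refine jn 1655 (by decide +kernel) ?_
    refine jn 1703 (by decide +kernel) ?_
    refine jn 1756 (by decide +kernel) ?_
    refine jn 1844 (by decide +kernel) ?_
    refine jn 1907 (by decide +kernel) ?_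
    refine jn 1981 (by decide +kernel) ?_
    refine jn 2055 (by decide +kernel) ?_
    exact je (by decide +kernel)

end Pool.Agent.MP_2339ce_nt.NR
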