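import Pool.Agent.MP_2339ce_nt.Q2.NC.L9
import Pool.Agent.MP_2339ce_nt.Q2.NC.L10
import Pool.Agent.MP_2339ce_nt.Q2.CkI

/-! Block NR: runs. -/

set_option autoImplicit false
set_option maxRecDepth 100000

noncomputable section

namespace Pool.Agent.MP_2339ce_nt.NR

open Q2.Top

def T45_0 : Ph :=
  (.na 10344 8192 (.na 2580 1449 (.na 1124 725 (.na 453 512 (.nx 452 1321124 (.nr 451 1482912 (.nr
  1 363 .s1 (.nx 151 240 (.nr 150 5615 (.la (.ls 29 19 161)) (.l1 .sk)) (.nx 152 241 (.l1 .sk) (.nr
  301 32769 (.la (.lg 0 true 1 73 73 23 0)) (.nx 450 26009 (.la (.lg 0 false 1 73 73 23 0))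
  .out))))) .out) .out) (.nx 1123 1321124 (.nr 1122 1482912 (.nr 454 512 .s1 (.nx 695 241 (.nx 694
  240 (.nr 693 7951 (.lx (.lp 31 19 182)) (.l1 .sk)) (.l1 .sk)) (.nr 908 32769 (.la (.lg 0 true 1
  71 71 29 0)) (.nx 1121 26009 (.la (.lg 0 false 1 71 71 29 0)) .out)))) .out) .out)) (.na 1726
  1024 (.nx 1725 20644 (.nr 1724 2097153 (.nr 1125 725 .s1 (.nx 1424 2049 (.la (.ls 67 37 5793))
  (.nr 1723 262145 (.la (.lg 0 false 1 59 59 29 0)) .out))) .out) .out) (.nx 2579 20644 (.nr 2578
  2097153 (.nr 1727 1024 .s1 (.nx 2152 3252 (.la (.ls 67 41 10330)) (.nr 2577 131073 (.la (.lg 0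
  false 1 47 47 31 0)) .out))) .out) .out))) (.na 4634 2897 (.na 3782 2048 (.nx 3781 13005 (.nr
  3780 2097153 (.nr 2581 1449 .s1 (.nx 3180 3252 (.la (.ls 67 41 7301)) (.nr 3779 16385 (.la (.lg 0
  false 1 29 29 31 0)) .out))) .out) .out) (.nx 4633 13005 (.nr 4632 2097153 (.nr 3783 2048 .s1
  (.la (.ls 61 53 82586))) .out) .out)) (.na 5836 4096 (.nx 5835 4097 (.nr 5834 1048577 (.nr 4635
  2897 .s1 (.la (.ls 59 41 5797))) .out) .out) (.na 7536 5793 (.nx 7535 5162 (.nr 7534 1048577 (.nr
  5837 4096 .s1 (.la (.ls 53 41 6508))) .out) .out) (.nx 10343 2049 (.nr 10342 524289 (.nr 7537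
  5793 .s1 (.nx 7778 241 (.nx 7777 240 (.nr 7776 89833 (.lx (.lp 31 37 2049)) (.l1 .sk)) (.l1 .sk))
  (.nx 7943 406 (.lx (.lp 47 37 2049)) (.la (.ls 43 37 2049))))) .out) .out))))) (.na 18551 65536
  (.na 14447 16384 (.na 12396 11586 (.nx 12395 2049 (.nr 12394 524289 (.nr 10345 8192 .s1 (.nx
  11636 1292 (.lx (.lp 43 37 2897)) (.nr 12393 131073 (.lx (.lp 37 37 2897)) .out))) .out) .out)
  (.nx 14446 2049 (.nr 14445 131073 (.nr 12397 11586 .s1 (.lx (.lp 31 41 4097))) .out) .out)) (.na
  16499 32768 (.nx 16498 2049 (.nr 16497 262145 (.nr 14448 16384 .s1 (.nx 14771 324 (.lx (.lp 31 43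
  8193)) (.nr 16496 131073 (.lx (.lp 31 43 8193)) .out))) .out) .out) (.nx 18550 2049 (.nr 18549
  524289 (.nr 16500 32768 .s1 (.nx 16823 324 (.lx (.lp 29 43 16385)) (.nr 18548 262145 (.lx (.lp 31
  47 16385)) .out))) .out) .out))) (.na 21811 262144 (.na 20181 131072 (.nx 20180 1627 (.nr 20179
  524289 (.nr 18552 65536 .s1 (.nx 18875 324 (.lx (.lp 16 0 32769)) (.nr 20178 262145 (.lx (.lp 29
  53 32769)) .out))) .out) .out) (.nx 21810 1627 (.nr 21809 524289 (.nr 20182 131072 .s1 (.nx 20694
  513 (.lx (.lp 23 53 65537)) (.nr 21808 262145 (.lx (.lp 23 59 65537)) .out))) .out) .out)) (.na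
  22326 524288 (.nx 22325 513 (.nr 22324 1048577 (.nr 21812 262144 .s1 (.lx (.lp 16 0 131073)))
  .out) .out) (.na 22328 1048577 (.nx 22327 324 (.l1 .sk) .out) .out)))))

def T45_1 : Ph :=
  (.na 1146 166 (.na 906 55 (.na 726 25 (.na 501 10 (.na 313 3 (.na 1 2 .ne (.nx 312 3329023 (.nr
  311 623489 (.nx 71 29454 (.nx 4 206 (.nx 3 205 (.nr 2 27 (.lg 0 false 1 43 43 5 0 9840) (.l1
  .sk)) (.l1 .sk)) (.nr 43 185365 (.lg 0 false 39 103 109 13 0 29549520) (.nx 56 324 (.lg 0 false
  13 83 83 9 0 127920) (.nx 57 16384 .out (.nr 70 220437 (.lg 0 false 13 103 107 9 0 29549520)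
  .out))))) (.nr 310 220437 (.nx 273 1048577 (.nr 114 2049 (.nr 104 1025 (.lg 0 true 33 97 101 13 0
  324720) (.nx 113 832257 (.lg 2 true 9 89 89 9 83226 29520) .out)) (.nx 272 660563 (.nx 147 41287
  (.lg 1 false 33 103 109 13 157409 29549520) (.nr 271 155873 (.nx 180 58387 (.lg 1 false 33 101
  109 13 79435 29549520) (.nr 189 6051 (.lg 2 true 9 97 97 9 33045 29520) (.nx 270 524289 (.nx 222
  82572 (.lg 1 false 33 101 109 13 56171 29549520) (.nr 269 131073 (.nr 231 38969 (.lg 2 false 9
  101 103 9 9969 206640) (.nx 268 262145 (.nr 249 77937 (.lg 2 false 18 103 107 11 19886 29549520)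
  (.nx 267 208065 (.lg 2 false 18 107 109 11 33408 29549520) .out)) .out)) .out)) .out))) .out))
  .out)) (.nr 309 129 (.nx 294 2097153 (.lg 0 true 21 83 83 11 0 206640) (.nr 308 9 (.lg 0 true 14
  71 71 9 0 68880) .out)) .out)) .out)) .out) .out)) (.na 314 5 .ne (.na 500 6 (.nx 499 16777217
  (.nr 498 1482912 (.nx 317 206 (.nx 316 205 (.nr 315 60 (.lg 0 true 1 31 31 9 0 14760) (.l1 .sk))
  (.l1 .sk)) (.nx 360 41285 (.nr 338 155873 (.lg 0 false 21 97 101 16 0 103320) (.nx 359 2049 (.nx
  354 324 (.lg 0 false 16 73 73 16 0 9840) (.nx 355 645 .out (.nr 358 185365 (.lg 0 true 3 73 73 9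
  0 14760) .out))) .out)) (.nr 497 220437 (.nx 440 660563 (.nr 376 956 (.lg 0 true 16 83 83 16 0
  9840) (.nx 404 112360 (.nx 392 76448 (.lg 1 false 16 103 107 16 112300 29549520) (.lg 1 false 12
  103 107 16 60647 29549520)) (.nr 411 4213 (.lg 2 true 7 83 83 11 70824 34440) (.nx 423 165142
  (.lg 1 true 12 103 107 16 41263 29549520) (.nr 439 131073 (.lg 2 false 16 89 101 16 16704 68880)
  .out))))) (.nr 496 217 (.nr 479 37 (.lg 0 true 39 73 73 11 0 191880) (.nx 495 2097153 (.lg 0 true
  16 73 73 16 0 9840) .out)) .out)) .out))) .out) .out) .ne))) (.na 641 12 (.na 574 11 (.nx 573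
  2097153 (.nr 572 1048577 (.nx 503 205 (.nr 502 111 (.lg 0 true 1 31 31 9 0 108240) (.l1 .sk))
  (.nx 504 206 (.l1 .sk) (.nx 505 257 (.l1 (.ls 83 41 2364)) (.nr 571 623489 (.nx 561 660563 (.nx
  534 52015 (.nr 526 185365 (.lg 0 false 21 101 103 19 0 29549520) (.nx 533 1292 (.lg 0 false 7 79
  79 13 0 68880) .out)) (.nr 560 220437 (.nr 543 1751 (.lg 0 true 9 83 83 13 0 29520) (.nx 550
  104033 (.lg 1 false 7 103 107 13 89134 29549520) (.nr 559 185365 (.lg 2 false 9 103 107 13 38669
  29549520) .out))) .out)) (.nr 570 65 (.lg 0 true 9 67 67 13 0 29520) .out)) .out)))) .out) .out)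
  (.nx 640 2097153 (.nr 639 1048577 (.nx 576 205 (.nr 575 121 (.lg 0 true 1 29 29 9 0 54120) (.l1
  .sk)) (.nx 577 206 (.l1 .sk) (.nx 599 52015 (.nx 578 257 (.l1 (.ls 83 31 2149)) (.nr 598 623489
  (.nr 590 185365 (.lg 0 false 12 101 103 16 0 324720) (.nx 597 1292 (.lg 0 false 7 83 83 16 0
  378840) .out)) .out)) (.nr 638 220437 (.nx 630 660563 (.nr 606 930 (.lg 0 true 7 83 83 16 0
  378840) (.nx 613 104033 (.lg 1 false 7 101 103 16 89134 14774760) (.nr 629 185365 (.nx 620 208065
  (.lg 1 true 7 101 103 16 37482 14774760) (.nr 628 65537 (.nr 624 7162 (.lg 2 true 4 89 89 16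
  72804 108240) (.lg 2 false 4 89 89 16 9454 108240)) .out)) .out))) (.nr 637 65 (.lg 0 true 7 71
  71 16 0 378840) .out)) .out)))) .out) .out)) (.na 642 22 .ne (.na 677 23 (.nx 676 2097153 (.nr
  675 1048577 (.nr 643 17 .s1 (.nx 646 206 (.nx 645 205 (.nr 644 233 (.lg 0 false 1 29 29 9 0
  324720) (.l1 .sk)) (.l1 .sk)) (.nx 647 324 (.l1 (.ls 83 43 2845)) (.nr 674 623489 (.nr 670 262145
  (.nx 654 41654 (.lg 0 false 7 101 103 19 0 2273040) (.nr 669 155873 (.nr 661 751 (.lg 0 true 7 83
  83 19 0 757680) (.nx 668 416129 (.lg 2 false 7 101 103 19 78736 2273040) .out)) .out)) (.nx 673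
  2049 (.lg 0 false 3 83 83 13 0 324720) .out)) .out)))) .out) .out) (.nx 725 2097153 (.nr 724
  1048577 (.nr 678 19 .s1 (.nx 681 206 (.nx 680 205 (.nr 679 254 (.lg 0 true 1 31 31 11 0 162360)
  (.l1 .sk)) (.l1 .sk)) (.nx 719 524289 (.nx 682 324 (.l1 (.ls 89 37 2722)) (.nr 718 524289 (.nx
  696 41287 (.nr 694 370729 (.nr 689 185365 (.lg 0 false 7 101 101 16 0 1136520) (.nx 693 13005
  (.lg 0 false 4 101 101 16 0 324720) .out)) (.nx 695 1292 (.lg 0 true 1 83 83 11 0 4920) .out))
  (.nr 717 110219 (.nr 700 1629 (.lg 0 true 4 83 83 16 0 9840) (.nx 716 330282 (.nr 707 65537 (.lg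
  2 true 7 79 79 16 33459 34440) (.nx 715 262145 (.nx 711 104033 (.lg 0 true 4 101 103 16 0 324720)
  (.nr 714 77937 (.lg 0 true 3 97 97 16 0 14760) .out)) .out)) .out)) .out)) .out)) (.nr 723 129
  (.lg 0 true 4 71 71 16 0 9840) .out)))) .out) .out))))) (.na 819 41 (.na 761 32 (.na 727 26 (.lg
  0 false 1 0 0 7 0 24) (.nx 760 2097153 (.nr 759 1048577 (.nr 728 22 .s1 (.nx 731 206 (.nx 730 205
  (.nr 729 325 (.lg 0 true 1 29 29 11 0 127920) (.l1 .sk)) (.l1 .sk)) (.nx 732 324 (.l1 (.ls 83 43
  2408)) (.nr 758 524289 (.nr 756 370729 (.nr 752 185365 (.nx 739 52017 (.lg 0 false 7 101 103 19 0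
  29549520) (.nr 751 92683 (.nr 746 939 (.lg 0 true 7 83 83 19 0 895440) (.nx 750 330282 (.lg 2
  false 4 97 101 19 37523 895440) .out)) .out)) (.nx 755 13005 (.lg 0 false 3 97 97 11 0 383760)
  .out)) (.nx 757 1292 (.lg 0 true 1 83 83 11 0 127920) .out)) .out)))) .out) .out)) (.na 762 34
  .ne (.na 793 38 (.nx 792 2097153 (.nr 791 881745 (.nr 763 31 .s1 (.nx 766 206 (.nx 765 205 (.nr
  764 385 (.lg 0 false 1 23 23 13 0 9840) (.l1 .sk)) (.l1 .sk)) (.nx 775 26009 (.nx 767 324 (.l1
  (.ls 79 41 1842)) (.nr 774 623489 (.lg 0 false 7 97 101 23 0 68880) .out)) (.nr 790 77937 (.nr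
  782 385 (.lg 0 true 7 73 73 23 0 68880) (.nx 789 208065 (.lg 2 false 7 89 97 23 63132 757680)
  .out)) .out)))) .out) .out) (.nx 818 2097153 (.nr 817 881745 (.nr 794 36 .s1 (.nx 797 206 (.nx
  796 205 (.nr 795 416 (.lg 0 false 1 23 23 13 0 9840) (.l1 .sk)) (.l1 .sk)) (.nx 798 324 (.l1 (.ls
  79 41 1648)) (.nr 816 623489 (.nx 805 26009 (.lg 0 false 7 97 101 17 0 68880) (.nr 815 77937 (.nr
  812 416 (.lg 0 true 7 73 73 17 0 68880) (.nx 814 208065 (.lg 2 true 2 97 97 13 63132 9840) .out))
  .out)) .out)))) .out) .out)))) (.na 865 46 (.na 843 43 (.nx 842 2097153 (.nr 841 881745 (.nr 820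
  39 .s1 (.nx 821 324 (.l1 (.ls 71 31 2563)) (.nr 840 623489 (.nx 828 26009 (.lg 0 false 7 83 83 16
  0 34440) (.nr 839 77937 (.nr 834 436 (.lg 0 true 6 67 67 16 0 29520) (.nx 838 208065 (.lg 2 true
  4 79 79 16 63132 9840) .out)) .out)) .out))) .out) .out) (.nx 864 2097153 (.nr 863 881745 (.nr
  844 41 .s1 (.nx 845 324 (.l1 (.ls 79 31 2444)) (.nr 862 623489 (.nx 852 26009 (.lg 0 false 7 89
  97 16 0 378840) (.nr 861 77937 (.nr 856 467 (.lg 0 true 4 73 73 16 0 9840) (.nx 860 208065 (.lg 2
  false 4 89 89 16 63132 9840) .out)) .out)) .out))) .out) .out)) (.na 885 50 (.nx 884 2097153 (.nr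
  883 881745 (.nr 866 44 .s1 (.nx 875 26009 (.nx 867 324 (.l1 (.ls 79 43 2285)) (.nr 874 741457
  (.lg 0 false 7 97 101 19 0 68880) .out)) (.nr 882 65537 (.nr 879 507 (.lg 0 true 4 73 73 19 0
  9840) (.nx 881 208065 (.lg 2 true 2 89 89 13 53114 9840) .out)) .out))) .out) .out) (.na 886 53
  (.lg 0 false 1 0 0 16 0 24) (.nx 905 2097153 (.nr 904 881745 (.nr 887 52 .s1 (.nx 888 324 (.l1
  (.ls 73 29 1983)) (.nr 903 741457 (.nx 895 26009 (.lg 0 false 7 89 97 16 0 34440) (.nr 902 65537
  (.nr 899 558 (.lg 0 true 4 73 73 16 0 9840) (.nx 901 208065 (.lg 2 true 2 89 89 16 53114 9840)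
  .out)) .out)) .out))) .out) .out)))))) (.na 1037 110 (.na 979 86 (.na 927 71 (.na 926 64 (.nx 925
  2097153 (.nr 924 881745 (.nr 907 54 .s1 (.nx 908 324 (.l1 (.ls 73 37 1911)) (.nr 923 741457 (.nx
  915 32769 (.lg 0 false 7 89 97 19 0 378840) (.nr 922 46342 (.nr 919 649 (.lg 0 true 4 71 71 17 0
  108240) (.nx 921 208065 (.lg 2 false 2 79 79 17 32861 108240) .out)) .out)) .out))) .out) .out)
  .ne) (.na 944 82 (.nx 943 2097153 (.nr 942 2097153 (.nr 928 70 .s1 (.nx 938 131073 (.nx 929 324
  (.l1 (.ls 79 29 1481)) (.nr 937 1048577 (.nr 932 65537 (.lg 0 true 3 89 89 16 0 14760) (.nx 936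
  20644 (.lg 0 false 4 89 89 16 0 9840) .out)) .out)) (.nr 941 513 (.lg 0 true 3 67 67 16 0 14760)
  .out))) .out) .out) (.na 963 85 (.nx 962 2097153 (.nr 961 2097153 (.nr 945 81 .s1 (.nx 946 324
  (.l1 (.ls 71 37 1283)) (.nr 960 1048577 (.nx 953 32769 (.lg 0 false 7 83 83 19 0 68880) (.nr 959
  32769 (.nr 956 513 (.lg 0 false 3 67 67 17 0 29520) (.nx 958 131073 (.lg 2 true 2 67 67 13 26190
  9840) .out)) .out)) .out))) .out) .out) (.nx 978 2097153 (.nr 977 2097153 (.nr 964 84 .s1 (.nx
  965 324 (.l1 (.ls 79 31 1238)) (.nr 976 1048577 (.nr 972 65537 (.nx 968 131073 (.lg 0 true 3 83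
  83 16 0 14760) (.nr 971 513 (.lg 0 true 3 67 67 16 0 14760) .out)) (.nx 975 20644 (.lg 0 false 3
  89 89 16 0 14760) .out)) .out))) .out) .out)))) (.na 996 103 (.na 995 91 (.nx 994 2097153 (.nr
  993 2097153 (.nr 980 85 .s1 (.nx 989 131073 (.nx 981 324 (.l1 (.ls 83 37 1223)) (.nr 988 1048577
  (.nr 984 65537 (.lg 0 true 3 89 89 19 0 29520) (.nx 987 20644 (.lg 0 false 3 97 97 19 0 29520)
  .out)) .out)) (.nr 992 513 (.lg 0 true 3 71 71 19 0 29520) .out))) .out) .out) .ne) (.na 1008 106
  (.nx 1007 2097153 (.nr 1006 2097153 (.nr 997 103 .s1 (.nx 998 324 (.l1 (.ls 73 23 1022)) (.nr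
  1005 1048577 (.nx 1001 32769 (.lg 0 true 3 83 83 16 0 14760) (.nr 1004 32769 (.nx 1002 131073
  (.lg 0 false 1 79 79 16 0 4920) (.nr 1003 513 (.lg 0 false 1 71 71 16 0 4920) .out)) .out))
  .out))) .out) .out) (.na 1022 107 (.nx 1021 2097153 (.nr 1020 2097153 (.nr 1009 106 .s1 (.nx 1017
  131073 (.nx 1010 324 (.l1 (.ls 79 31 993)) (.nr 1016 1048577 (.nx 1013 20644 (.lg 0 false 3 89 89
  23 0 29520) (.nr 1015 65537 (.lg 0 true 2 83 83 19 0 9840) .out)) .out)) (.nr 1019 513 (.lg 0
  true 2 67 67 19 0 9840) .out))) .out) .out) (.nx 1036 2097153 (.nr 1035 2097153 (.nr 1023 107 .s1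
  (.nx 1024 324 (.l1 (.ls 73 23 984)) (.nr 1034 1048577 (.nr 1030 65537 (.nx 1027 131073 (.lg 0
  true 3 79 79 16 0 14760) (.nr 1029 513 (.lg 0 true 2 61 61 16 0 9840) .out)) (.nx 1033 20644 (.lg
  0 false 3 83 83 16 0 14760) .out)) .out))) .out) .out))))) (.na 1090 137 (.na 1062 122 (.na 1050
  121 (.nx 1049 2097153 (.nr 1048 2097153 (.nr 1038 110 .s1 (.nx 1039 324 (.l1 (.ls 79 41 957))
  (.nr 1047 1048577 (.nx 1045 131073 (.nx 1042 20644 (.lg 0 false 3 89 89 29 0 324720) (.nr 1044
  65537 (.lg 0 true 2 83 83 29 0 108240) .out)) (.nr 1046 513 (.lg 0 false 1 73 73 23 0 108240)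
  .out)) .out))) .out) .out) (.nx 1061 2097153 (.nr 1060 2097153 (.nr 1051 121 .s1 (.nx 1056 32769
  (.nx 1052 324 (.l1 (.ls 73 29 870)) (.nr 1055 1048577 (.lg 0 false 3 89 89 19 0 162360) .out))
  (.nr 1059 32769 (.nr 1057 513 (.lg 0 false 1 73 73 17 0 162360) (.nx 1058 131073 (.lg 2 true 1 71
  71 17 26190 54120) .out)) .out))) .out) .out)) (.na 1075 128 (.nx 1074 2097153 (.nr 1073 2097153
  (.nr 1063 122 .s1 (.nx 1068 32769 (.nx 1064 324 (.l1 (.ls 79 31 863)) (.nr 1067 1048577 (.lg 0
  false 3 97 97 23 0 29520) .out)) (.nr 1072 32769 (.nr 1070 513 (.lg 0 true 2 67 67 19 0 9840)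
  (.nx 1071 131073 (.lg 2 true 1 73 73 19 26190 9840) .out)) .out))) .out) .out) (.na 1076 130 .ne
  (.nx 1089 1048577 (.nr 1088 1482912 (.nr 1077 130 .s1 (.nx 1080 206 (.nx 1079 205 (.nr 1078 1389
  (.l1 (.ls 23 37 326)) (.l1 .sk)) (.l1 .sk)) (.nx 1086 131073 (.nr 1082 65537 (.lg 0 false 2 83 83
  29 0 127920) (.nx 1085 16385 (.lg 0 false 3 83 83 31 0 383760) .out)) (.nr 1087 1025 (.lg 0 false
  1 71 71 29 0 127920) .out)))) .out) .out)))) (.na 1119 149 (.na 1104 139 (.nx 1103 1048577 (.nr
  1102 1482912 (.nr 1091 137 .s1 (.nx 1094 206 (.nx 1093 205 (.nr 1092 1409 (.l1 (.ls 17 19 309))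
  (.l1 .sk)) (.l1 .sk)) (.nx 1098 32769 (.lg 0 false 4 83 83 17 0 9840) (.nr 1101 16385 (.nr 1099
  1025 (.lg 0 false 1 67 67 16 0 4920) (.nx 1100 131073 (.lg 2 true 1 59 59 16 13108 4920) .out))
  .out)))) .out) .out) (.na 1105 142 (.lg 0 false 1 0 0 16 0 24) (.nx 1118 1048577 (.nr 1117
  1482912 (.nr 1106 142 .s1 (.nx 1115 131073 (.nx 1108 205 (.nr 1107 1511 (.l1 (.ls 19 29 298))
  (.l1 .sk)) (.nx 1109 206 (.l1 .sk) (.nr 1111 65537 (.lg 0 true 2 83 83 23 0 9840) (.nx 1114 16385
  (.lg 0 false 3 89 89 23 0 29520) .out)))) (.nr 1116 1025 (.lg 0 false 1 73 73 19 0 9840) .out)))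
  .out) .out))) (.na 1120 151 (.lg 0 false 1 0 0 16 0 24) (.na 1133 158 (.nx 1132 1048577 (.nr 1131
  1482912 (.nr 1121 151 .s1 (.nx 1127 32769 (.nx 1123 205 (.nr 1122 1602 (.l1 (.ls 17 17 281)) (.l1
  .sk)) (.nx 1124 206 (.l1 .sk) (.lg 0 false 3 83 83 17 0 14760))) (.nr 1130 16385 (.nr 1128 1025
  (.lg 0 false 1 67 67 16 0 4920) (.nx 1129 131073 (.lg 2 true 1 53 53 16 13108 4920) .out))
  .out))) .out) .out) (.nx 1145 1048577 (.nr 1144 1482912 (.nr 1134 158 .s1 (.nx 1137 206 (.nx 1136
  205 (.nr 1135 1683 (.l1 (.ls 19 29 268)) (.l1 .sk)) (.l1 .sk)) (.nx 1140 32769 (.lg 0 false 3 89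
  89 23 0 29520) (.nr 1143 16385 (.nr 1141 1025 (.lg 0 false 1 71 71 19 0 29520) (.nx 1142 131073
  (.lg 2 true 1 59 59 19 13108 9840) .out)) .out)))) .out) .out))))))) (.na 1325 254 (.na 1226 199
  (.na 1187 182 (.na 1160 169 (.na 1159 167 (.nx 1158 1048577 (.nr 1157 1482912 (.nr 1147 166 .s1
  (.nx 1150 206 (.nx 1149 205 (.nr 1148 1693 (.l1 (.ls 23 29 256)) (.l1 .sk)) (.l1 .sk)) (.nx 1153
  32769 (.lg 0 false 3 97 97 23 0 29520) (.nr 1156 16385 (.nr 1154 1025 (.lg 0 false 1 71 71 19 0
  9840) (.nx 1155 131073 (.lg 2 true 1 59 59 19 13108 9840) .out)) .out)))) .out) .out) (.lg 0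
  false 1 0 0 16 0 24)) (.na 1173 170 (.nx 1172 1048577 (.nr 1171 1482912 (.nr 1161 169 .s1 (.nx
  1167 32769 (.nx 1163 205 (.nr 1162 1724 (.l1 (.ls 19 19 251)) (.l1 .sk)) (.nx 1164 206 (.l1 .sk)
  (.lg 0 false 3 83 83 19 0 191880))) (.nr 1170 16385 (.nr 1168 1025 (.lg 0 false 1 67 67 17 0
  63960) (.nx 1169 131073 (.lg 2 true 1 59 59 17 13108 63960) .out)) .out))) .out) .out) (.na 1186
  181 (.nx 1185 1048577 (.nr 1184 1482912 (.nr 1174 170 .s1 (.nx 1180 32769 (.nx 1176 205 (.nr 1175
  1835 (.l1 (.ls 16 31 250)) (.l1 .sk)) (.nx 1177 206 (.l1 .sk) (.lg 0 false 3 89 89 31 0 29520)))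
  (.nr 1183 16385 (.nr 1181 1025 (.lg 0 false 1 71 71 29 0 9840) (.nx 1182 131073 (.lg 2 true 1 61
  61 29 13108 9840) .out)) .out))) .out) .out) (.lg 0 false 1 0 0 16 0 24)))) (.na 1199 190 (.na
  1188 187 .ne (.nx 1198 1048577 (.nr 1197 1048577 (.nr 1189 187 .s1 (.nx 1191 205 (.nr 1190 1926
  (.l1 (.ls 16 23 227)) (.l1 .sk)) (.nx 1192 206 (.l1 .sk) (.nx 1195 131073 (.nr 1193 65537 (.lg 0
  false 1 89 89 23 0 54120) (.nx 1194 16385 (.lg 0 false 1 89 89 23 0 54120) .out)) (.nr 1196 1025
  (.lg 0 true 1 67 67 23 0 54120) .out))))) .out) .out)) (.na 1212 194 (.nx 1211 1048577 (.nr 1210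
  1048577 (.nr 1200 190 .s1 (.nx 1203 206 (.nx 1202 205 (.nr 1201 1967 (.l1 (.ls 17 31 224)) (.l1
  .sk)) (.l1 .sk)) (.nx 1206 32769 (.lg 0 false 3 83 83 31 0 29520) (.nr 1209 16385 (.nr 1207 1025
  (.lg 0 false 1 67 67 29 0 9840) (.nx 1208 131073 (.lg 2 true 1 59 59 29 13108 9840) .out))
  .out)))) .out) .out) (.na 1225 197 (.nx 1224 1048577 (.nr 1223 1048577 (.nr 1213 194 .s1 (.nx
  1219 32769 (.nx 1215 205 (.nr 1214 1997 (.l1 (.ls 23 23 219)) (.l1 .sk)) (.nx 1216 206 (.l1 .sk)
  (.lg 0 false 3 83 83 29 0 29520))) (.nr 1222 16385 (.lg 0 true 3 79 79 29 0 29520) .out))) .out)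
  .out) (.lg 0 false 1 0 0 16 0 24))))) (.na 1279 230 (.na 1252 214 (.na 1239 206 (.nx 1238 1048577
  (.nr 1237 1048577 (.nr 1227 199 .s1 (.nx 1233 32769 (.nx 1229 205 (.nr 1228 2089 (.l1 (.ls 17 17
  214)) (.l1 .sk)) (.nx 1230 206 (.l1 .sk) (.lg 0 false 3 79 79 17 0 14760))) (.nr 1236 16385 (.nr
  1234 1025 (.lg 0 false 1 61 61 16 0 4920) (.nx 1235 131073 (.lg 2 true 1 53 53 16 13108 54120)
  .out)) .out))) .out) .out) (.nx 1251 1048577 (.nr 1250 1048577 (.nr 1240 206 .s1 (.nx 1243 206
  (.nx 1242 205 (.nr 1241 2170 (.l1 (.ls 17 23 207)) (.l1 .sk)) (.l1 .sk)) (.nx 1246 32769 (.lg 0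
  false 3 79 79 29 0 29520) (.nr 1249 16385 (.nr 1247 1025 (.lg 0 false 1 61 61 23 0 9840) (.nx
  1248 131073 (.lg 2 true 1 53 53 23 13108 9840) .out)) .out)))) .out) .out)) (.na 1265 215 (.nx
  1264 1048577 (.nr 1263 1048577 (.nr 1253 214 .s1 (.nx 1255 205 (.nr 1254 2180 (.l1 (.ls 17 23
  199)) (.l1 .sk)) (.nx 1256 206 (.l1 .sk) (.nx 1259 32769 (.lg 0 false 3 79 79 29 0 29520) (.nr
  1262 16385 (.nr 1260 1025 (.lg 0 false 1 61 61 23 0 9840) (.nx 1261 131073 (.lg 2 false 1 53 53
  23 13108 9840) .out)) .out))))) .out) .out) (.na 1278 229 (.nx 1277 1048577 (.nr 1276 1048577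
  (.nr 1266 215 .s1 (.nx 1272 32769 (.nx 1268 205 (.nr 1267 2322 (.l1 (.ls 17 19 198)) (.l1 .sk))
  (.nx 1269 206 (.l1 .sk) (.lg 0 false 3 83 83 19 0 14760))) (.nr 1275 16385 (.nr 1273 1025 (.lg 0
  false 1 67 67 17 0 4920) (.nx 1274 131073 (.lg 2 true 1 53 53 17 13108 4920) .out)) .out))) .out)
  .out) (.lg 0 false 1 0 0 16 0 24)))) (.na 1312 247 (.na 1290 233 (.nx 1289 1048577 (.nr 1288
  1048577 (.nr 1280 230 .s1 (.nx 1286 32769 (.nx 1282 205 (.nr 1281 2362 (.l1 (.ls 17 31 185)) (.l1
  .sk)) (.nx 1283 206 (.l1 .sk) (.lg 0 false 3 83 83 37 0 29520))) (.nr 1287 16385 (.lg 0 false 1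
  83 83 31 0 9840) .out))) .out) .out) (.na 1301 242 (.nx 1300 1048577 (.nr 1299 1048577 (.nr 1291
  233 .s1 (.nx 1294 206 (.nx 1293 205 (.nr 1292 2454 (.l1 (.ls 17 17 183)) (.l1 .sk)) (.l1 .sk))
  (.nx 1297 32769 (.lg 0 false 3 79 79 19 0 14760) (.nr 1298 16385 (.lg 0 false 1 79 79 17 0 4920)
  .out)))) .out) .out) (.nx 1311 1048577 (.nr 1310 1048577 (.nr 1302 242 .s1 (.nx 1305 206 (.nx
  1304 205 (.nr 1303 2504 (.l1 (.ls 19 29 176)) (.l1 .sk)) (.l1 .sk)) (.nx 1308 32769 (.lg 0 false
  3 83 83 31 0 324720) (.nr 1309 16385 (.lg 0 false 1 83 83 29 0 108240) .out)))) .out) .out)))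
  (.na 1323 250 (.nx 1322 1048577 (.nr 1321 1048577 (.nr 1313 247 .s1 (.nx 1315 205 (.nr 1314 2535
  (.l1 (.ls 17 17 173)) (.l1 .sk)) (.nx 1316 206 (.l1 .sk) (.nx 1319 131073 (.nr 1317 65537 (.lg 0
  true 1 83 83 17 0 63960) (.nx 1318 16385 (.lg 0 false 1 89 89 17 0 63960) .out)) (.nr 1320 1025
  (.lg 0 true 1 67 67 17 0 63960) .out))))) .out) .out) (.na 1324 251 (.lg 0 false 1 0 0 16 0 24)
  (.lg 0 false 1 0 0 16 0 24)))))) (.na 6973 4096 (.na 2861 725 (.na 1336 257 (.na 1335 256 (.nx
  1334 1048577 (.nr 1333 1048577 (.nr 1326 254 .s1 (.nx 1331 32769 (.nx 1328 205 (.nr 1327 2595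
  (.l1 (.ls 19 23 168)) (.l1 .sk)) (.nx 1329 206 (.l1 .sk) (.lg 0 false 2 79 79 23 0 9840))) (.nr
  1332 16385 (.lg 0 false 1 83 83 23 0 108240) .out))) .out) .out) .ne) (.na 1712 363 (.nx 1711
  1048577 (.nr 1710 1482912 (.nr 1337 257 .s1 (.nx 1445 206 (.nx 1444 205 (.nr 1443 3680 (.la (.ls
  23 19 166)) (.l1 .sk)) (.l1 .sk)) (.nx 1496 257 (.lx (.lp 43 16 91)) (.nr 1709 1048577 (.nr 1602
  32769 (.la (.lg 0 true 2 79 79 23 0)) (.nx 1708 20644 (.la (.lg 0 true 1 79 79 19 0)) .out))
  .out)))) .out) .out) (.na 2164 512 (.nx 2163 1048577 (.nr 2162 1482912 (.nr 1713 363 .s1 (.nx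
  1862 257 (.la (.ls 79 23 184)) (.nr 2161 1048577 (.nr 2011 32769 (.la (.lg 0 false 1 79 79 23 0))
  (.nx 2160 20644 (.la (.lg 0 true 1 73 73 23 0)) .out)) .out))) .out) .out) (.nx 2860 1048577 (.nr
  2859 1482912 (.nr 2165 512 .s1 (.nx 2431 257 (.nx 2379 205 (.nr 2378 7350 (.la (.ls 29 23 182))
  (.l1 .sk)) (.nx 2380 206 (.l1 .sk) (.lx (.lp 43 0 182)))) (.nr 2858 1048577 (.nx 2644 52017 (.la
  (.lg 0 true 1 73 73 23 0)) (.nr 2857 32769 (.la (.lg 2 false 1 61 61 23 209921)) .out)) .out)))
  .out) .out)))) (.na 4317 1449 (.na 3463 1024 (.nx 3462 13005 (.nr 3461 1048577 (.nr 2862 725 .s1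
  (.nx 3161 2049 (.la (.ls 61 41 5793)) (.nr 3460 65537 (.la (.lg 0 false 1 43 43 29 0)) .out)))
  .out) .out) (.nx 4316 13005 (.nr 4315 1048577 (.nr 3464 1024 .s1 (.nx 3889 3252 (.la (.ls 61 41
  10330)) (.nr 4314 32769 (.la (.lg 0 false 1 31 31 29 0)) .out))) .out) .out)) (.na 4919 2048 (.nx
  4918 8193 (.nr 4917 1048577 (.nr 4318 1449 .s1 (.la (.ls 59 47 46328))) .out) .out) (.na 5771
  2897 (.nx 5770 8193 (.nr 5769 1048577 (.nr 4920 2048 .s1 (.la (.ls 59 47 32779))) .out) .out)
  (.nx 6972 3252 (.nr 6971 524289 (.nr 5772 2897 .s1 (.la (.ls 53 37 3653))) .out) .out))))) (.na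
  14057 32768 (.na 10174 8192 (.na 8879 5793 (.nx 8878 3252 (.nr 8877 524289 (.nr 6974 4096 .s1
  (.nx 7179 205 (.nr 7178 58722 (.lx (.lp 29 31 1449)) (.l1 .sk)) (.nx 7180 206 (.l1 .sk) (.la (.ls
  59 37 2574))))) .out) .out) (.nx 10173 1292 (.nr 10172 262145 (.nr 8880 5793 .s1 (.nx 9693 814
  (.lx (.lp 53 37 2049)) (.nr 10171 65537 (.lx (.lp 37 37 2049)) .out))) .out) .out)) (.na 11468
  11586 (.nx 11467 1292 (.nr 11466 262145 (.nr 10175 8192 .s1 (.lx (.lp 47 41 2897))) .out) .out)
  (.na 12762 16384 (.nx 12761 1292 (.nr 12760 131073 (.nr 11469 11586 .s1 (.lx (.lp 37 41 4097)))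
  .out) .out) (.nx 14056 1292 (.nr 14055 262145 (.nr 12763 16384 .s1 (.nx 13019 257 (.lx (.lp 43 41
  8193)) (.nr 14054 131073 (.lx (.lp 37 43 8193)) .out))) .out) .out)))) (.na 17161 262144 (.na
  15351 65536 (.nx 15350 1292 (.nr 15349 262145 (.nr 14058 32768 .s1 (.lx (.lp 37 47 16385))) .out)
  .out) (.na 16646 131072 (.nx 16645 1292 (.nr 16644 524289 (.nr 15352 65536 .s1 (.nx 15608 257
  (.lx (.lp 16 0 32769)) (.nr 16643 262145 (.lx (.lp 29 53 32769)) .out))) .out) .out) (.nx 17160
  513 (.nr 17159 524289 (.nr 16647 131072 .s1 (.lx (.lp 16 53 65537))) .out) .out))) (.na 17676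
  524288 (.nx 17675 513 (.nr 17674 1048577 (.nr 17162 262144 .s1 (.lx (.lp 16 0 131073))) .out)
  .out) (.na 17678 1048577 (.nx 17677 257 (.l1 .sk) .out) .out)))))))

theorem c45 :
    OkQ ckI L10 240 363 1099511627776 0 34359738368 1 1099511627776 ∧
    OkQ ckI L9 205 1 1099511627776 0 34359738368 1 1099511627776 := by
  refine ⟨?_, ?_⟩
  · refine fin 240 22329 T45_0 ?_
    refine jn 22 (by decide +kernel) ?_
    refine jn 46 (by decide +kernel) ?_
    refine jn 90 (by decide +kernel) ?_
    refine jn 126 (by decide +kernel) ?_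
    refine jn 155 (by decide +kernel) ?_
    refine jn 157 (by decide +kernel) ?_
    refine jn 158 (by decide +kernel) ?_
    refine jn 165 (by decide +kernel) ?_
    refine jn 169 (by decide +kernel) ?_
    refine jn 173 (by decide +kernel) ?_
    refine jn 174 (by decide +kernel) ?_
    refine jn 184 (by decide +kernel) ?_
    refine jn 197 (by decide +kernel) ?_
    refine jn 200 (by decide +kernel) ?_
    refine jn 210 (by decide +kernel) ?_
    refine jn 213 (by decide +kernel) ?_
    refine jn 225 (by decide +kernel) ?_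
    refine jn 228 (by decide +kernel) ?_
    refine jn 241 (by decide +kernel) ?_
    refine jn 245 (by decide +kernel) ?_
    refine jn 249 (by decide +kernel) ?_
    refine jn 255 (by decide +kernel) ?_
    refine jn 263 (by decide +kernel) ?_
    refine jn 275 (by decide +kernel) ?_
    refine jn 285 (by decide +kernel) ?_
    refine jn 287 (by decide +kernel) ?_
    refine jn 292 (by decide +kernel) ?_
    refine jn 306 (by decide +kernel) ?_
    refine jn 307 (by decide +kernel) ?_
    refine jn 317 (by decide +kernel) ?_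
    refine jn 321 (by decide +kernel) ?_
    refine jn 322 (by decide +kernel) ?_
    refine jn 323 (by decide +kernel) ?_
    refine jn 333 (by decide +kernel) ?_
    refine jn 346 (by decide +kernel) ?_
    refine jn 349 (by decide +kernel) ?_
    refine jn 359 (by decide +kernel) ?_
    refine jn 366 (by decide +kernel) ?_
    refine jn 375 (by decide +kernel) ?_
    refine jn 381 (by decide +kernel) ?_
    refine jn 392 (by decide +kernel) ?_
    refine jn 398 (by decide +kernel) ?_
    refine jn 405 (by decide +kernel) ?_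
    refine jn 418 (by decide +kernel) ?_
    refine jn 426 (by decide +kernel) ?_
    refine jn 434 (by decide +kernel) ?_
    refine jn 436 (by decide +kernel) ?_
    refine jn 441 (by decide +kernel) ?_
    refine jn 490 (by decide +kernel) ?_
    refine jn 599 (by decide +kernel) ?_
    refine jn 695 (by decide +kernel) ?_
    refine jn 696 (by decide +kernel) ?_
    refine jn 710 (by decide +kernel) ?_
    refine jn 713 (by decide +kernel) ?_
    refine jn 725 (by decide +kernel) ?_
    refine jn 727 (by decide +kernel) ?_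
    refine jn 728 (by decide +kernel) ?_
    refine jn 735 (by decide +kernel) ?_
    refine jn 740 (by decide +kernel) ?_
    refine jn 748 (by decide +kernel) ?_
    refine jn 761 (by decide +kernel) ?_
    refine jn 772 (by decide +kernel) ?_
    refine jn 776 (by decide +kernel) ?_
    refine jn 787 (by decide +kernel) ?_
    refine jn 791 (by decide +kernel) ?_
    refine jn 793 (by decide +kernel) ?_
    refine jn 803 (by decide +kernel) ?_
    refine jn 815 (by decide +kernel) ?_
    refine jn 819 (by decide +kernel) ?_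
    refine jn 823 (by decide +kernel) ?_
    refine jn 824 (by decide +kernel) ?_
    refine jn 830 (by decide +kernel) ?_
    refine jn 844 (by decide +kernel) ?_
    refine jn 851 (by decide +kernel) ?_
    refine jn 863 (by decide +kernel) ?_
    refine jn 868 (by decide +kernel) ?_
    refine jn 875 (by decide +kernel) ?_
    refine jn 881 (by decide +kernel) ?_
    refine jn 889 (by decide +kernel) ?_
    refine jn 905 (by decide +kernel) ?_
    refine jn 908 (by decide +kernel) ?_
    refine jn 909 (by decide +kernel) ?_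
    refine jn 923 (by decide +kernel) ?_
    refine jn 926 (by decide +kernel) ?_
    refine jn 938 (by decide +kernel) ?_
    refine jn 940 (by decide +kernel) ?_
    refine jn 941 (by decide +kernel) ?_
    refine jn 948 (by decide +kernel) ?_
    refine jn 953 (by decide +kernel) ?_
    refine jn 961 (by decide +kernel) ?_
    refine jn 974 (by decide +kernel) ?_
    refine jn 985 (by decide +kernel) ?_
    refine jn 993 (by decide +kernel) ?_
    refine jn 1004 (by decide +kernel) ?_
    refine jn 1006 (by decide +kernel) ?_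
    refine jn 1016 (by decide +kernel) ?_
    refine jn 1028 (by decide +kernel) ?_
    refine jn 1032 (by decide +kernel) ?_
    refine jn 1036 (by decide +kernel) ?_
    refine jn 1037 (by decide +kernel) ?_
    refine jn 1049 (by decide +kernel) ?_
    refine jn 1060 (by decide +kernel) ?_
    refine jn 1074 (by decide +kernel) ?_
    refine jn 1079 (by decide +kernel) ?_
    refine jn 1087 (by decide +kernel) ?_
    refine jn 1091 (by decide +kernel) ?_
    refine jn 1102 (by decide +kernel) ?_
    refine jn 1118 (by decide +kernel) ?_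
    refine jn 1134 (by decide +kernel) ?_
    refine jn 1155 (by decide +kernel) ?_
    refine jn 1169 (by decide +kernel) ?_
    refine jn 1199 (by decide +kernel) ?_
    refine jn 1234 (by decide +kernel) ?_
    refine jn 1264 (by decide +kernel) ?_
    refine jn 1304 (by decide +kernel) ?_
    refine jn 1320 (by decide +kernel) ?_
    refine jn 1360 (by decide +kernel) ?_
    refine jn 1391 (by decide +kernel) ?_
    refine jn 1413 (by decide +kernel) ?_
    refine jn 1435 (by decide +kernel) ?_
    refine jn 1443 (by decide +kernel) ?_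
    refine jn 1451 (by decide +kernel) ?_
    refine jn 1459 (by decide +kernel) ?_
    refine jn 1467 (by decide +kernel) ?_
    refine jn 1468 (by decide +kernel) ?_
    refine jn 1487 (by decide +kernel) ?_
    refine jn 1495 (by decide +kernel) ?_
    refine jn 1512 (by decide +kernel) ?_
    refine jn 1521 (by decide +kernel) ?_
    refine jn 1534 (by decide +kernel) ?_
    refine jn 1547 (by decide +kernel) ?_
    refine jn 1556 (by decide +kernel) ?_
    refine jn 1571 (by decide +kernel) ?_
    refine jn 1585 (by decide +kernel) ?_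
    refine jn 1603 (by decide +kernel) ?_
    refine jn 1611 (by decide +kernel) ?_
    refine jn 1615 (by decide +kernel) ?_
    refine jn 1631 (by decide +kernel) ?_
    refine jn 1647 (by decide +kernel) ?_
    refine jn 1659 (by decide +kernel) ?_
    refine jn 1668 (by decide +kernel) ?_
    refine jn 1682 (by decide +kernel) ?_
    refine jn 1691 (by decide +kernel) ?_
    refine jn 1695 (by decide +kernel) ?_
    refine jn 1706 (by decide +kernel) ?_
    refine jn 1720 (by decide +kernel) ?_
    refine jn 1727 (by decide +kernel) ?_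
    refine jn 1728 (by decide +kernel) ?_
    refine jn 1757 (by decide +kernel) ?_
    refine jn 1786 (by decide +kernel) ?_
    refine jn 1797 (by decide +kernel) ?_
    refine jn 1831 (by decide +kernel) ?_
    refine jn 1859 (by decide +kernel) ?_
    refine jn 1884 (by decide +kernel) ?_
    refine jn 1919 (by decide +kernel) ?_
    refine jn 1930 (by decide +kernel) ?_
    refine jn 1967 (by decide +kernel) ?_
    refine jn 1983 (by decide +kernel) ?_
    refine jn 1995 (by decide +kernel) ?_
    refine jn 2024 (by decide +kernel) ?_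
    refine jn 2059 (by decide +kernel) ?_
    refine jn 2084 (by decide +kernel) ?_
    refine jn 2113 (by decide +kernel) ?_
    refine jn 2149 (by decide +kernel) ?_
    refine jn 2152 (by decide +kernel) ?_
    refine jn 2153 (by decide +kernel) ?_
    refine jn 2175 (by decide +kernel) ?_
    refine jn 2186 (by decide +kernel) ?_
    refine jn 2209 (by decide +kernel) ?_
    refine jn 2216 (by decide +kernel) ?_
    refine jn 2217 (by decide +kernel) ?_
    refine jn 2232 (by decide +kernel) ?_
    refine jn 2254 (by decide +kernel) ?_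
    refine jn 2268 (by decide +kernel) ?_
    refine jn 2287 (by decide +kernel) ?_
    refine jn 2301 (by decide +kernel) ?_
    refine jn 2314 (by decide +kernel) ?_
    refine jn 2333 (by decide +kernel) ?_
    refine jn 2344 (by decide +kernel) ?_
    refine jn 2345 (by decide +kernel) ?_
    refine jn 2359 (by decide +kernel) ?_
    refine jn 2385 (by decide +kernel) ?_
    refine jn 2396 (by decide +kernel) ?_
    refine jn 2408 (by decide +kernel) ?_
    refine jn 2409 (by decide +kernel) ?_
    refine jn 2420 (by decide +kernel) ?_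
    refine jn 2435 (by decide +kernel) ?_
    refine jn 2449 (by decide +kernel) ?_
    refine jn 2457 (by decide +kernel) ?_
    refine jn 2484 (by decide +kernel) ?_
    refine jn 2495 (by decide +kernel) ?_
    refine jn 2510 (by decide +kernel) ?_
    refine jn 2526 (by decide +kernel) ?_
    refine jn 2540 (by decide +kernel) ?_
    refine jn 2561 (by decide +kernel) ?_
    refine jn 2589 (by decide +kernel) ?_
    refine jn 2618 (by decide +kernel) ?_
    refine jn 2641 (by decide +kernel) ?_
    refine jn 2668 (by decide +kernel) ?_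
    refine jn 2697 (by decide +kernel) ?_
    refine jn 2726 (by decide +kernel) ?_
    refine jn 2764 (by decide +kernel) ?_
    refine jn 2799 (by decide +kernel) ?_
    refine jn 2831 (by decide +kernel) ?_
    refine jn 2876 (by decide +kernel) ?_
    refine jn 2904 (by decide +kernel) ?_
    refine jn 2942 (by decide +kernel) ?_
    refine jn 2970 (by decide +kernel) ?_
    refine jn 3009 (by decide +kernel) ?_
    refine jn 3047 (by decide +kernel) ?_
    refine jn 3084 (by decide +kernel) ?_
    refine jn 3116 (by decide +kernel) ?_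
    refine jn 3143 (by decide +kernel) ?_
    refine jn 3188 (by decide +kernel) ?_
    refine jn 3203 (by decide +kernel) ?_
    refine jn 3204 (by decide +kernel) ?_
    refine jn 3232 (by decide +kernel) ?_
    refine jn 3251 (by decide +kernel) ?_
    refine jn 3267 (by decide +kernel) ?_
    refine jn 3269 (by decide +kernel) ?_
    refine jn 3307 (by decide +kernel) ?_
    refine jn 3321 (by decide +kernel) ?_
    refine jn 3352 (by decide +kernel) ?_
    refine jn 3368 (by decide +kernel) ?_
    refine jn 3399 (by decide +kernel) ?_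
    refine jn 3427 (by decide +kernel) ?_
    refine jn 3449 (by decide +kernel) ?_
    refine jn 3476 (by decide +kernel) ?_
    refine jn 3496 (by decide +kernel) ?_
    refine jn 3533 (by decide +kernel) ?_
    refine jn 3548 (by decide +kernel) ?_
    refine jn 3567 (by decide +kernel) ?_
    refine jn 3592 (by decide +kernel) ?_
    refine jn 3626 (by decide +kernel) ?_
    refine jn 3651 (by decide +kernel) ?_
    refine jn 3669 (by decide +kernel) ?_
    refine jn 3697 (by decide +kernel) ?_
    refine jn 3715 (by decide +kernel) ?_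
    refine jn 3723 (by decide +kernel) ?_
    refine jn 3748 (by decide +kernel) ?_
    refine jn 3783 (by decide +kernel) ?_
    refine jn 3784 (by decide +kernel) ?_
    refine jn 3809 (by decide +kernel) ?_
    refine jn 3824 (by decide +kernel) ?_
    refine jn 3843 (by decide +kernel) ?_
    refine jn 3855 (by decide +kernel) ?_
    refine jn 3875 (by decide +kernel) ?_
    refine jn 3899 (by decide +kernel) ?_
    refine jn 3911 (by decide +kernel) ?_
    refine jn 3912 (by decide +kernel) ?_
    refine jn 3929 (by decide +kernel) ?_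
    refine jn 3944 (by decide +kernel) ?_
    refine jn 3963 (by decide +kernel) ?_
    refine jn 3987 (by decide +kernel) ?_
    refine jn 3995 (by decide +kernel) ?_
    refine jn 4015 (by decide +kernel) ?_
    refine jn 4042 (by decide +kernel) ?_
    refine jn 4064 (by decide +kernel) ?_
    refine jn 4081 (by decide +kernel) ?_
    refine jn 4098 (by decide +kernel) ?_
    refine jn 4121 (by decide +kernel) ?_
    refine jn 4139 (by decide +kernel) ?_
    refine jn 4167 (by decide +kernel) ?_
    refine jn 4168 (by decide +kernel) ?_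
    refine jn 4184 (by decide +kernel) ?_
    refine jn 4211 (by decide +kernel) ?_
    refine jn 4225 (by decide +kernel) ?_
    refine jn 4256 (by decide +kernel) ?_
    refine jn 4271 (by decide +kernel) ?_
    refine jn 4289 (by decide +kernel) ?_
    refine jn 4301 (by decide +kernel) ?_
    refine jn 4317 (by decide +kernel) ?_
    refine jn 4334 (by decide +kernel) ?_
    refine jn 4357 (by decide +kernel) ?_
    refine jn 4377 (by decide +kernel) ?_
    refine jn 4392 (by decide +kernel) ?_
    refine jn 4414 (by decide +kernel) ?_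
    refine jn 4442 (by decide +kernel) ?_
    refine jn 4455 (by decide +kernel) ?_
    refine jn 4475 (by decide +kernel) ?_
    refine jn 4497 (by decide +kernel) ?_
    refine jn 4515 (by decide +kernel) ?_
    refine jn 4541 (by decide +kernel) ?_
    refine jn 4571 (by decide +kernel) ?_
    refine jn 4587 (by decide +kernel) ?_
    refine jn 4602 (by decide +kernel) ?_
    refine jn 4631 (by decide +kernel) ?_
    refine jn 4673 (by decide +kernel) ?_
    refine jn 4703 (by decide +kernel) ?_
    refine jn 4744 (by decide +kernel) ?_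
    refine jn 4784 (by decide +kernel) ?_
    refine jn 4817 (by decide +kernel) ?_
    refine jn 4875 (by decide +kernel) ?_
    refine jn 4907 (by decide +kernel) ?_
    refine jn 4948 (by decide +kernel) ?_
    refine jn 4997 (by decide +kernel) ?_
    refine jn 5039 (by decide +kernel) ?_
    refine jn 5080 (by decide +kernel) ?_
    refine jn 5130 (by decide +kernel) ?_
    refine jn 5174 (by decide +kernel) ?_
    refine jn 5226 (by decide +kernel) ?_
    refine jn 5267 (by decide +kernel) ?_
    refine jn 5310 (by decide +kernel) ?_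
    refine jn 5354 (by decide +kernel) ?_
    refine jn 5386 (by decide +kernel) ?_
    refine jn 5427 (by decide +kernel) ?_
    refine jn 5474 (by decide +kernel) ?_
    refine jn 5528 (by decide +kernel) ?_
    refine jn 5578 (by decide +kernel) ?_
    refine jn 5614 (by decide +kernel) ?_
    refine jn 5656 (by decide +kernel) ?_
    refine jn 5706 (by decide +kernel) ?_
    refine jn 5739 (by decide +kernel) ?_
    refine jn 5793 (by decide +kernel) ?_
    refine jn 5837 (by decide +kernel) ?_
    refine jn 5852 (by decide +kernel) ?_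
    refine jn 5894 (by decide +kernel) ?_
    refine jn 5949 (by decide +kernel) ?_
    refine jn 5981 (by decide +kernel) ?_
    refine jn 6030 (by decide +kernel) ?_
    refine jn 6077 (by decide +kernel) ?_
    refine jn 6099 (by decide +kernel) ?_
    refine jn 6146 (by decide +kernel) ?_
    refine jn 6189 (by decide +kernel) ?_
    refine jn 6243 (by decide +kernel) ?_
    refine jn 6279 (by decide +kernel) ?_
    refine jn 6322 (by decide +kernel) ?_
    refine jn 6379 (by decide +kernel) ?_
    refine jn 6429 (by decide +kernel) ?_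
    refine jn 6474 (by decide +kernel) ?_
    refine jn 6527 (by decide +kernel) ?_
    refine jn 6573 (by decide +kernel) ?_
    refine jn 6605 (by decide +kernel) ?_
    refine jn 6624 (by decide +kernel) ?_
    refine jn 6678 (by decide +kernel) ?_
    refine jn 6723 (by decide +kernel) ?_
    refine jn 6783 (by decide +kernel) ?_
    refine jn 6828 (by decide +kernel) ?_
    refine jn 6862 (by decide +kernel) ?_
    refine jn 6909 (by decide +kernel) ?_
    refine jn 6950 (by decide +kernel) ?_
    refine jn 7008 (by decide +kernel) ?_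
    refine jn 7052 (by decide +kernel) ?_
    refine jn 7100 (by decide +kernel) ?_
    refine jn 7151 (by decide +kernel) ?_
    refine jn 7190 (by decide +kernel) ?_
    refine jn 7238 (by decide +kernel) ?_
    refine jn 7294 (by decide +kernel) ?_
    refine jn 7352 (by decide +kernel) ?_
    refine jn 7400 (by decide +kernel) ?_
    refine jn 7451 (by decide +kernel) ?_
    refine jn 7517 (by decide +kernel) ?_
    refine jn 7667 (by decide +kernel) ?_
    refine jn 7943 (by decide +kernel) ?_
    refine jn 8034 (by decide +kernel) ?_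
    refine jn 8102 (by decide +kernel) ?_
    refine jn 8172 (by decide +kernel) ?_
    refine jn 8252 (by decide +kernel) ?_
    refine jn 8320 (by decide +kernel) ?_
    refine jn 8412 (by decide +kernel) ?_
    refine jn 8490 (by decide +kernel) ?_
    refine jn 8586 (by decide +kernel) ?_
    refine jn 8670 (by decide +kernel) ?_
    refine jn 8732 (by decide +kernel) ?_
    refine jn 8822 (by decide +kernel) ?_
    refine jn 8908 (by decide +kernel) ?_
    refine jn 8998 (by decide +kernel) ?_
    refine jn 9086 (by decide +kernel) ?_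
    refine jn 9162 (by decide +kernel) ?_
    refine jn 9240 (by decide +kernel) ?_
    refine jn 9332 (by decide +kernel) ?_
    refine jn 9414 (by decide +kernel) ?_
    refine jn 9478 (by decide +kernel) ?_
    refine jn 9572 (by decide +kernel) ?_
    refine jn 9644 (by decide +kernel) ?_
    refine jn 9733 (by decide +kernel) ?_
    refine jn 9830 (by decide +kernel) ?_
    refine jn 9907 (by decide +kernel) ?_
    refine jn 9988 (by decide +kernel) ?_
    refine jn 10086 (by decide +kernel) ?_
    refine jn 10153 (by decide +kernel) ?_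
    refine jn 10245 (by decide +kernel) ?_
    refine jn 10335 (by decide +kernel) ?_
    refine jn 10648 (by decide +kernel) ?_
    refine jn 10896 (by decide +kernel) ?_
    refine jn 11047 (by decide +kernel) ?_
    refine jn 11174 (by decide +kernel) ?_
    refine jn 11230 (by decide +kernel) ?_
    refine jn 11322 (by decide +kernel) ?_
    refine jn 11408 (by decide +kernel) ?_
    refine jn 11502 (by decide +kernel) ?_
    refine jn 11580 (by decide +kernel) ?_
    refine jn 11664 (by decide +kernel) ?_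
    refine jn 11720 (by decide +kernel) ?_
    refine jn 11781 (by decide +kernel) ?_
    refine jn 11838 (by decide +kernel) ?_
    refine jn 11881 (by decide +kernel) ?_
    refine jn 11931 (by decide +kernel) ?_
    refine jn 11974 (by decide +kernel) ?_
    refine jn 12024 (by decide +kernel) ?_
    refine jn 12077 (by decide +kernel) ?_
    refine jn 12130 (by decide +kernel) ?_
    refine jn 12177 (by decide +kernel) ?_
    refine jn 12216 (by decide +kernel) ?_
    refine jn 12248 (by decide +kernel) ?_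
    refine jn 12287 (by decide +kernel) ?_
    refine jn 12320 (by decide +kernel) ?_
    refine jn 12357 (by decide +kernel) ?_
    refine jn 12393 (by decide +kernel) ?_
    refine jn 12870 (by decide +kernel) ?_
    refine jn 13011 (by decide +kernel) ?_
    refine jn 13206 (by decide +kernel) ?_
    refine jn 13350 (by decide +kernel) ?_
    refine jn 13434 (by decide +kernel) ?_
    refine jn 13533 (by decide +kernel) ?_
    refine jn 13624 (by decide +kernel) ?_
    refine jn 13691 (by decide +kernel) ?_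
    refine jn 13776 (by decide +kernel) ?_
    refine jn 13846 (by decide +kernel) ?_
    refine jn 13909 (by decide +kernel) ?_
    refine jn 13970 (by decide +kernel) ?_
    refine jn 14026 (by decide +kernel) ?_
    refine jn 14085 (by decide +kernel) ?_
    refine jn 14140 (by decide +kernel) ?_
    refine jn 14196 (by decide +kernel) ?_
    refine jn 14241 (by decide +kernel) ?_
    refine jn 14302 (by decide +kernel) ?_
    refine jn 14350 (by decide +kernel) ?_
    refine jn 14396 (by decide +kernel) ?_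
    refine jn 14444 (by decide +kernel) ?_
    refine jn 14763 (by decide +kernel) ?_
    refine jn 14957 (by decide +kernel) ?_
    refine jn 15113 (by decide +kernel) ?_
    refine jn 15231 (by decide +kernel) ?_
    refine jn 15308 (by decide +kernel) ?_
    refine jn 15391 (by decide +kernel) ?_
    refine jn 15447 (by decide +kernel) ?_
    refine jn 15527 (by decide +kernel) ?_
    refine jn 15600 (by decide +kernel) ?_
    refine jn 15653 (by decide +kernel) ?_
    refine jn 15699 (by decide +kernel) ?_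
    refine jn 15751 (by decide +kernel) ?_
    refine jn 15803 (by decide +kernel) ?_
    refine jn 15847 (by decide +kernel) ?_
    refine jn 15907 (by decide +kernel) ?_
    refine jn 15951 (by decide +kernel) ?_
    refine jn 15992 (by decide +kernel) ?_
    refine jn 16041 (by decide +kernel) ?_
    refine jn 16082 (by decide +kernel) ?_
    refine jn 16130 (by decide +kernel) ?_
    refine jn 16175 (by decide +kernel) ?_
    refine jn 16210 (by decide +kernel) ?_
    refine jn 16254 (by decide +kernel) ?_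
    refine jn 16287 (by decide +kernel) ?_
    refine jn 16327 (by decide +kernel) ?_
    refine jn 16369 (by decide +kernel) ?_
    refine jn 16404 (by decide +kernel) ?_
    refine jn 16435 (by decide +kernel) ?_
    refine jn 16472 (by decide +kernel) ?_
    refine jn 16500 (by decide +kernel) ?_
    refine jn 16907 (by decide +kernel) ?_
    refine jn 17147 (by decide +kernel) ?_
    refine jn 17294 (by decide +kernel) ?_
    refine jn 17385 (by decide +kernel) ?_
    refine jn 17500 (by decide +kernel) ?_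
    refine jn 17605 (by decide +kernel) ?_
    refine jn 17707 (by decide +kernel) ?_
    refine jn 17773 (by decide +kernel) ?_
    refine jn 17866 (by decide +kernel) ?_
    refine jn 17929 (by decide +kernel) ?_
    refine jn 18002 (by decide +kernel) ?_
    refine jn 18072 (by decide +kernel) ?_
    refine jn 18119 (by decide +kernel) ?_
    refine jn 18185 (by decide +kernel) ?_
    refine jn 18243 (by decide +kernel) ?_
    refine jn 18307 (by decide +kernel) ?_
    refine jn 18365 (by decide +kernel) ?_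
    refine jn 18421 (by decide +kernel) ?_
    refine jn 18468 (by decide +kernel) ?_
    refine jn 18520 (by decide +kernel) ?_
    refine jn 18930 (by decide +kernel) ?_
    refine jn 19167 (by decide +kernel) ?_
    refine jn 19376 (by decide +kernel) ?_
    refine jn 19527 (by decide +kernel) ?_
    refine jn 19678 (by decide +kernel) ?_
    refine jn 19812 (by decide +kernel) ?_
    refine jn 19931 (by decide +kernel) ?_
    refine jn 20007 (by decide +kernel) ?_
    refine jn 20083 (by decide +kernel) ?_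
    refine jn 20174 (by decide +kernel) ?_
    refine jn 20724 (by decide +kernel) ?_
    refine jn 20923 (by decide +kernel) ?_
    refine jn 21157 (by decide +kernel) ?_
    refine jn 21351 (by decide +kernel) ?_
    refine jn 21526 (by decide +kernel) ?_
    refine jn 21685 (by decide +kernel) ?_
    refine jn 21796 (by decide +kernel) ?_
    exact je (by decide +kernel)
  · refine fin 4920 17679 T45_1 ?_
    refine jn 10 (by decide +kernel) ?_
    refine jn 16 (by decide +kernel) ?_
    refine jn 22 (by decide +kernel) ?_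
    refine jn 28 (by decide +kernel) ?_
    refine jn 33 (by decide +kernel) ?_
    refine jn 40 (by decide +kernel) ?_
    refine jn 56 (by decide +kernel) ?_
    refine jn 78 (by decide +kernel) ?_
    refine jn 90 (by decide +kernel) ?_
    refine jn 102 (by decide +kernel) ?_
    refine jn 113 (by decide +kernel) ?_
    refine jn 143 (by decide +kernel) ?_
    refine jn 164 (by decide +kernel) ?_
    refine jn 180 (by decide +kernel) ?_
    refine jn 189 (by decide +kernel) ?_
    refine jn 218 (by decide +kernel) ?_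
    refine jn 231 (by decide +kernel) ?_
    refine jn 249 (by decide +kernel) ?_
    refine jn 261 (by decide +kernel) ?_
    refine jn 273 (by decide +kernel) ?_
    refine jn 294 (by decide +kernel) ?_
    refine jn 317 (by decide +kernel) ?_
    refine jn 325 (by decide +kernel) ?_
    refine jn 334 (by decide +kernel) ?_
    refine jn 354 (by decide +kernel) ?_
    refine jn 371 (by decide +kernel) ?_
    refine jn 392 (by decide +kernel) ?_
    refine jn 411 (by decide +kernel) ?_
    refine jn 423 (by decide +kernel) ?_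
    refine jn 439 (by decide +kernel) ?_
    refine jn 479 (by decide +kernel) ?_
    refine jn 495 (by decide +kernel) ?_
    refine jn 519 (by decide +kernel) ?_
    refine jn 533 (by decide +kernel) ?_
    refine jn 550 (by decide +kernel) ?_
    refine jn 570 (by decide +kernel) ?_
    refine jn 578 (by decide +kernel) ?_
    refine jn 581 (by decide +kernel) ?_
    refine jn 584 (by decide +kernel) ?_
    refine jn 587 (by decide +kernel) ?_
    refine jn 590 (by decide +kernel) ?_
    refine jn 602 (by decide +kernel) ?_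
    refine jn 606 (by decide +kernel) ?_
    refine jn 613 (by decide +kernel) ?_
    refine jn 620 (by decide +kernel) ?_
    refine jn 628 (by decide +kernel) ?_
    refine jn 637 (by decide +kernel) ?_
    refine jn 652 (by decide +kernel) ?_
    refine jn 654 (by decide +kernel) ?_
    refine jn 661 (by decide +kernel) ?_
    refine jn 668 (by decide +kernel) ?_
    refine jn 682 (by decide +kernel) ?_
    refine jn 683 (by decide +kernel) ?_
    refine jn 684 (by decide +kernel) ?_
    refine jn 685 (by decide +kernel) ?_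
    refine jn 686 (by decide +kernel) ?_
    refine jn 687 (by decide +kernel) ?_
    refine jn 688 (by decide +kernel) ?_
    refine jn 689 (by decide +kernel) ?_
    refine jn 696 (by decide +kernel) ?_
    refine jn 700 (by decide +kernel) ?_
    refine jn 701 (by decide +kernel) ?_
    refine jn 702 (by decide +kernel) ?_
    refine jn 703 (by decide +kernel) ?_
    refine jn 704 (by decide +kernel) ?_
    refine jn 705 (by decide +kernel) ?_
    refine jn 706 (by decide +kernel) ?_
    refine jn 707 (by decide +kernel) ?_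
    refine jn 714 (by decide +kernel) ?_
    refine jn 731 (by decide +kernel) ?_
    refine jn 737 (by decide +kernel) ?_
    refine jn 739 (by decide +kernel) ?_
    refine jn 746 (by decide +kernel) ?_
    refine jn 755 (by decide +kernel) ?_
    refine jn 767 (by decide +kernel) ?_
    refine jn 774 (by decide +kernel) ?_
    refine jn 782 (by decide +kernel) ?_
    refine jn 789 (by decide +kernel) ?_
    refine jn 805 (by decide +kernel) ?_
    refine jn 814 (by decide +kernel) ?_
    refine jn 838 (by decide +kernel) ?_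
    refine jn 852 (by decide +kernel) ?_
    refine jn 860 (by decide +kernel) ?_
    refine jn 874 (by decide +kernel) ?_
    refine jn 881 (by decide +kernel) ?_
    refine jn 895 (by decide +kernel) ?_
    refine jn 901 (by decide +kernel) ?_
    refine jn 915 (by decide +kernel) ?_
    refine jn 921 (by decide +kernel) ?_
    refine jn 936 (by decide +kernel) ?_
    refine jn 956 (by decide +kernel) ?_
    refine jn 971 (by decide +kernel) ?_
    refine jn 987 (by decide +kernel) ?_
    refine jn 998 (by decide +kernel) ?_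
    refine jn 999 (by decide +kernel) ?_
    refine jn 1000 (by decide +kernel) ?_
    refine jn 1001 (by decide +kernel) ?_
    refine jn 1013 (by decide +kernel) ?_
    refine jn 1027 (by decide +kernel) ?_
    refine jn 1042 (by decide +kernel) ?_
    refine jn 1055 (by decide +kernel) ?_
    refine jn 1067 (by decide +kernel) ?_
    refine jn 1085 (by decide +kernel) ?_
    refine jn 1099 (by decide +kernel) ?_
    refine jn 1114 (by decide +kernel) ?_
    refine jn 1128 (by decide +kernel) ?_
    refine jn 1142 (by decide +kernel) ?_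
    refine jn 1155 (by decide +kernel) ?_
    refine jn 1169 (by decide +kernel) ?_
    refine jn 1182 (by decide +kernel) ?_
    refine jn 1194 (by decide +kernel) ?_
    refine jn 1207 (by decide +kernel) ?_
    refine jn 1222 (by decide +kernel) ?_
    refine jn 1239 (by decide +kernel) ?_
    refine jn 1253 (by decide +kernel) ?_
    refine jn 1267 (by decide +kernel) ?_
    refine jn 1281 (by decide +kernel) ?_
    refine jn 1297 (by decide +kernel) ?_
    refine jn 1309 (by decide +kernel) ?_
    refine jn 1318 (by decide +kernel) ?_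
    refine jn 1332 (by decide +kernel) ?_
    refine jn 1445 (by decide +kernel) ?_
    refine jn 1522 (by decide +kernel) ?_
    refine jn 1525 (by decide +kernel) ?_
    refine jn 1532 (by decide +kernel) ?_
    refine jn 1538 (by decide +kernel) ?_
    refine jn 1541 (by decide +kernel) ?_
    refine jn 1552 (by decide +kernel) ?_
    refine jn 1565 (by decide +kernel) ?_
    refine jn 1577 (by decide +kernel) ?_
    refine jn 1600 (by decide +kernel) ?_
    refine jn 1628 (by decide +kernel) ?_
    refine jn 1638 (by decide +kernel) ?_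
    refine jn 1647 (by decide +kernel) ?_
    refine jn 1659 (by decide +kernel) ?_
    refine jn 1683 (by decide +kernel) ?_
    refine jn 1732 (by decide +kernel) ?_
    refine jn 1835 (by decide +kernel) ?_
    refine jn 1881 (by decide +kernel) ?_
    refine jn 1890 (by decide +kernel) ?_
    refine jn 1897 (by decide +kernel) ?_
    refine jn 1917 (by decide +kernel) ?_
    refine jn 1929 (by decide +kernel) ?_
    refine jn 1938 (by decide +kernel) ?_
    refine jn 1942 (by decide +kernel) ?_
    refine jn 1965 (by decide +kernel) ?_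
    refine jn 1977 (by decide +kernel) ?_
    refine jn 1986 (by decide +kernel) ?_
    refine jn 2005 (by decide +kernel) ?_
    refine jn 2022 (by decide +kernel) ?_
    refine jn 2034 (by decide +kernel) ?_
    refine jn 2043 (by decide +kernel) ?_
    refine jn 2058 (by decide +kernel) ?_
    refine jn 2070 (by decide +kernel) ?_
    refine jn 2087 (by decide +kernel) ?_
    refine jn 2094 (by decide +kernel) ?_
    refine jn 2121 (by decide +kernel) ?_
    refine jn 2133 (by decide +kernel) ?_
    refine jn 2154 (by decide +kernel) ?_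
    refine jn 2236 (by decide +kernel) ?_
    refine jn 2368 (by decide +kernel) ?_
    refine jn 2449 (by decide +kernel) ?_
    refine jn 2457 (by decide +kernel) ?_
    refine jn 2490 (by decide +kernel) ?_
    refine jn 2502 (by decide +kernel) ?_
    refine jn 2517 (by decide +kernel) ?_
    refine jn 2533 (by decide +kernel) ?_
    refine jn 2553 (by decide +kernel) ?_
    refine jn 2565 (by decide +kernel) ?_
    refine jn 2580 (by decide +kernel) ?_
    refine jn 2617 (by decide +kernel) ?_
    refine jn 2641 (by decide +kernel) ?_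
    refine jn 2662 (by decide +kernel) ?_
    refine jn 2682 (by decide +kernel) ?_
    refine jn 2710 (by decide +kernel) ?_
    refine jn 2730 (by decide +kernel) ?_
    refine jn 2746 (by decide +kernel) ?_
    refine jn 2767 (by decide +kernel) ?_
    refine jn 2793 (by decide +kernel) ?_
    refine jn 2838 (by decide +kernel) ?_
    refine jn 2871 (by decide +kernel) ?_
    refine jn 2939 (by decide +kernel) ?_
    refine jn 3038 (by decide +kernel) ?_
    refine jn 3094 (by decide +kernel) ?_
    refine jn 3170 (by decide +kernel) ?_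
    refine jn 3218 (by decide +kernel) ?_
    refine jn 3238 (by decide +kernel) ?_
    refine jn 3310 (by decide +kernel) ?_
    refine jn 3338 (by decide +kernel) ?_
    refine jn 3371 (by decide +kernel) ?_
    refine jn 3401 (by decide +kernel) ?_
    refine jn 3449 (by decide +kernel) ?_
    refine jn 3506 (by decide +kernel) ?_
    refine jn 3578 (by decide +kernel) ?_
    refine jn 3650 (by decide +kernel) ?_
    refine jn 3759 (by decide +kernel) ?_
    refine jn 3834 (by decide +kernel) ?_
    refine jn 3910 (by decide +kernel) ?_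
    refine jn 3935 (by decide +kernel) ?_
    refine jn 3983 (by decide +kernel) ?_
    refine jn 4042 (by decide +kernel) ?_
    refine jn 4103 (by decide +kernel) ?_
    refine jn 4184 (by decide +kernel) ?_
    refine jn 4235 (by decide +kernel) ?_
    refine jn 4280 (by decide +kernel) ?_
    refine jn 4350 (by decide +kernel) ?_
    refine jn 4391 (by decide +kernel) ?_
    refine jn 4442 (by decide +kernel) ?_
    refine jn 4503 (by decide +kernel) ?_
    refine jn 4589 (by decide +kernel) ?_
    refine jn 4650 (by decide +kernel) ?_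
    refine jn 4695 (by decide +kernel) ?_
    refine jn 4739 (by decide +kernel) ?_
    refine jn 4782 (by decide +kernel) ?_
    refine jn 4847 (by decide +kernel) ?_
    refine jn 4895 (by decide +kernel) ?_
    refine jn 4934 (by decide +kernel) ?_
    refine jn 4982 (by decide +kernel) ?_
    refine jn 5057 (by decide +kernel) ?_
    refine jn 5117 (by decide +kernel) ?_
    refine jn 5190 (by decide +kernel) ?_
    refine jn 5262 (by decide +kernel) ?_
    refine jn 5327 (by decide +kernel) ?_
    refine jn 5402 (by decide +kernel) ?_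
    refine jn 5478 (by decide +kernel) ?_
    refine jn 5535 (by decide +kernel) ?_
    refine jn 5594 (by decide +kernel) ?_
    refine jn 5678 (by decide +kernel) ?_
    refine jn 5747 (by decide +kernel) ?_
    refine jn 5874 (by decide +kernel) ?_
    refine jn 5997 (by decide +kernel) ?_
    refine jn 6105 (by decide +kernel) ?_
    refine jn 6201 (by decide +kernel) ?_
    refine jn 6346 (by decide +kernel) ?_
    refine jn 6485 (by decide +kernel) ?_
    refine jn 6594 (by decide +kernel) ?_
    refine jn 6740 (by decide +kernel) ?_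
    refine jn 6882 (by decide +kernel) ?_
    refine jn 6974 (by decide +kernel) ?_
    refine jn 7258 (by decide +kernel) ?_
    refine jn 7426 (by decide +kernel) ?_
    refine jn 7562 (by decide +kernel) ?_
    refine jn 7706 (by decide +kernel) ?_
    refine jn 7873 (by decide +kernel) ?_
    refine jn 8021 (by decide +kernel) ?_
    refine jn 8162 (by decide +kernel) ?_
    refine jn 8293 (by decide +kernel) ?_
    refine jn 8422 (by decide +kernel) ?_
    refine jn 8563 (by decide +kernel) ?_
    refine jn 8711 (by decide +kernel) ?_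
    refine jn 8877 (by decide +kernel) ?_
    refine jn 9344 (by decide +kernel) ?_
    refine jn 9574 (by decide +kernel) ?_
    refine jn 9729 (by decide +kernel) ?_
    refine jn 9857 (by decide +kernel) ?_
    refine jn 9954 (by decide +kernel) ?_
    refine jn 10037 (by decide +kernel) ?_
    refine jn 10118 (by decide +kernel) ?_
    refine jn 10353 (by decide +kernel) ?_
    refine jn 10729 (by decide +kernel) ?_
    refine jn 10957 (by decide +kernel) ?_
    refine jn 11130 (by decide +kernel) ?_
    refine jn 11256 (by decide +kernel) ?_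
    refine jn 11369 (by decide +kernel) ?_
    refine jn 11465 (by decide +kernel) ?_
    refine jn 12039 (by decide +kernel) ?_
    refine jn 12284 (by decide +kernel) ?_
    refine jn 12460 (by decide +kernel) ?_
    refine jn 12613 (by decide +kernel) ?_
    refine jn 12739 (by decide +kernel) ?_
    refine jn 13151 (by decide +kernel) ?_
    refine jn 13422 (by decide +kernel) ?_
    refine jn 13594 (by decide +kernel) ?_
    refine jn 13736 (by decide +kernel) ?_
    refine jn 13867 (by decide +kernel) ?_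
    refine jn 13953 (by decide +kernel) ?_
    refine jn 14046 (by decide +kernel) ?_
    refine jn 14520 (by decide +kernel) ?_
    refine jn 14845 (by decide +kernel) ?_
    refine jn 15052 (by decide +kernel) ?_
    refine jn 15223 (by decide +kernel) ?_
    refine jn 15352 (by decide +kernel) ?_
    refine jn 15953 (by decide +kernel) ?_
    refine jn 16288 (by decide +kernel) ?_
    refine jn 16479 (by decide +kernel) ?_
    refine jn 16647 (by decide +kernel) ?_
    refine jn 17674 (by decide +kernel) ?_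
    exact je (by decide +kernel)

end Pool.Agent.MP_2339ce_nt.NR
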