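import Pool.Agent.MP_2339ce_nt.Q2.NC.L6
import Pool.Agent.MP_2339ce_nt.Q2.NC.L8
import Pool.Agent.MP_2339ce_nt.Q2.NC.L10
import Pool.Agent.MP_2339ce_nt.Q2.CkI

/-! Block NR: runs. -/

set_option autoImplicit false
set_option maxRecDepth 100000

noncomputable section

namespace Pool.Agent.MP_2339ce_nt.NR

open Q2.Top

def T46_0 : Ph :=
  (.na 722 151 (.na 422 81 (.na 238 45 (.na 139 32 (.na 49 25 (.na 24 23 (.nx 23 1321124 (.nr 22
  1048577 (.nr 1 19 .s1 (.nx 5 205 (.nx 3 104 (.nr 2 166 (.lg 0 true 1 31 31 16 0 65520) (.l1 .sk))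
  (.nx 4 105 (.l1 .sk) (.l1 (.ls 89 37 1479)))) (.nr 21 623489 (.nx 12 10323 (.nx 6 324 (.l1 (.ls
  83 41 3000)) (.nr 11 220437 (.nr 9 131073 (.lg 0 false 3 97 97 17 0 65520) (.nx 10 814 (.lg 0
  false 1 73 73 16 0 6552) .out)) .out)) (.nr 20 55110 (.nx 16 165142 (.nr 13 1360 (.lg 0 false 1
  83 83 16 0 6552) (.nx 14 26009 (.lg 1 true 1 101 101 16 28927 65520) (.nr 15 32769 (.lg 2 true 1
  89 89 16 6836 65520) .out))) (.nr 19 183 (.lg 0 true 3 73 73 17 0 6552) .out)) .out)) .out)))
  .out) .out) (.na 25 24 .ne (.nx 48 1321124 (.nr 47 1048577 (.nr 26 22 .s1 (.nx 29 105 (.nx 28 104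
  (.nr 27 181 (.l1 (.ls 29 31 453)) (.l1 .sk)) (.l1 .sk)) (.nx 43 165142 (.nx 36 10323 (.nx 30 205
  (.l1 (.ls 83 41 1294)) (.nr 35 185365 (.lg 0 false 5 83 89 23 0 9360) .out)) (.nr 42 55110 (.nr
  37 513 (.lg 0 false 1 73 73 13 0 1872) (.nx 41 82572 (.nx 38 26009 (.lg 1 true 1 97 97 13 28927
  9360) (.nr 40 32769 (.lg 1 true 2 83 89 19 8370 9360) .out)) .out)) .out)) (.nr 46 183 (.lg 0
  true 3 73 73 23 0 1872) .out)))) .out) .out))) (.na 100 28 (.na 75 27 (.nx 74 1321124 (.nr 73
  1048577 (.nr 50 23 .s1 (.nx 53 105 (.nx 52 104 (.nr 51 195 (.l1 (.ls 23 23 435)) (.l1 .sk)) (.l1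
  .sk)) (.nx 62 16385 (.nx 54 205 (.l1 (.ls 79 29 1243)) (.nr 61 185365 (.lg 0 false 7 89 89 16 0
  65520) .out)) (.nr 72 38969 (.nr 69 513 (.lg 0 true 7 73 73 16 0 32760) (.nx 71 82572 (.lg 2 true
  2 83 83 16 12897 9360) .out)) .out)))) .out) .out) (.nx 99 1321124 (.nr 98 1048577 (.nr 76 26 .s1
  (.nx 79 105 (.nx 78 104 (.nr 77 203 (.l1 (.ls 23 23 403)) (.l1 .sk)) (.l1 .sk)) (.nx 86 26009
  (.nx 80 205 (.l1 (.ls 79 31 1151)) (.nr 85 185365 (.lg 0 true 5 89 89 16 0 65520) .out)) (.nr 97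
  32769 (.nx 91 82572 (.lg 0 false 5 79 79 16 0 4680) (.nr 96 513 (.lg 0 true 5 73 73 16 0 4680)
  .out)) .out)))) .out) .out)) (.na 119 31 (.nx 118 1321124 (.nr 117 1048577 (.nr 101 27 .s1 (.nx
  105 205 (.nx 103 104 (.nr 102 224 (.l1 (.ls 31 31 389)) (.l1 .sk)) (.nx 104 105 (.l1 .sk) (.l1
  (.ls 89 37 1110)))) (.nr 116 185365 (.nx 108 10323 (.lg 0 false 3 97 97 19 0 65520) (.nr 115
  55110 (.nr 111 513 (.lg 0 true 3 79 79 19 0 13104) (.nx 114 82572 (.nx 112 26009 (.lg 1 true 1 97
  97 13 28927 65520) (.nr 113 32769 (.lg 1 false 1 97 97 13 8370 65520) .out)) .out)) .out))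
  .out))) .out) .out) (.nx 138 1321124 (.nr 137 1048577 (.nr 120 30 .s1 (.nx 122 104 (.nr 121 232
  (.l1 (.ls 19 19 351)) (.l1 .sk)) (.nx 123 105 (.l1 .sk) (.nx 128 16385 (.nx 124 205 (.l1 (.ls 79
  23 1003)) (.nr 127 185365 (.lg 0 false 3 89 89 16 0 936) .out)) (.nr 136 38969 (.nr 133 513 (.lg
  0 true 5 73 73 16 0 4680) (.nx 135 82572 (.lg 2 true 2 83 83 16 12897 9360) .out)) .out)))))
  .out) .out)))) (.na 174 37 (.na 140 35 .ne (.na 157 36 (.nx 156 1321124 (.nr 155 370729 (.nr 141
  34 .s1 (.nx 147 6503 (.nx 143 104 (.nr 142 261 (.l1 (.ls 31 23 312)) (.l1 .sk)) (.nx 144 105 (.l1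
  .sk) (.lg 0 false 3 89 89 17 0 32760))) (.nr 154 77937 (.nr 150 217 (.lg 0 true 3 71 71 17 0
  32760) (.nx 153 82572 (.nr 151 23172 (.lg 2 true 1 89 89 16 19787 65520) (.nx 152 13005 (.lg 0
  true 1 89 89 16 0 65520) .out)) .out)) .out))) .out) .out) (.nx 173 1321124 (.nr 172 370729 (.nr
  158 35 .s1 (.nx 161 105 (.nx 160 104 (.nr 159 268 (.l1 (.ls 31 31 303)) (.l1 .sk)) (.l1 .sk))
  (.nx 164 6503 (.lg 0 false 3 89 97 23 0 65520) (.nr 171 77937 (.nr 167 217 (.lg 0 true 3 73 73 23
  0 1872) (.nx 170 82572 (.nr 168 23172 (.lg 2 true 1 89 89 19 19787 65520) (.nx 169 13005 (.lg 0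
  true 1 89 89 19 0 65520) .out)) .out)) .out)))) .out) .out))) (.na 206 40 (.na 189 39 (.nx 188
  1321124 (.nr 187 370729 (.nr 175 36 .s1 (.nx 177 104 (.nr 176 282 (.l1 (.ls 23 17 295)) (.l1
  .sk)) (.nx 178 105 (.l1 .sk) (.nx 181 13005 (.lg 0 false 3 89 89 16 0 936) (.nr 186 23172 (.nr
  184 282 (.lg 0 true 3 71 71 16 0 936) (.nx 185 82572 (.lg 2 true 1 83 83 16 15227 936) .out))
  .out))))) .out) .out) (.nx 205 1321124 (.nr 204 370729 (.nr 190 38 .s1 (.nx 198 13005 (.nx 192
  104 (.nr 191 289 (.l1 (.ls 19 29 280)) (.l1 .sk)) (.nx 193 105 (.l1 .sk) (.lg 0 false 5 83 83 19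
  0 4680))) (.nr 203 23172 (.nr 201 289 (.lg 0 true 3 67 67 17 0 936) (.nx 202 82572 (.lg 2 true 1
  79 79 16 14858 9360) .out)) .out))) .out) .out)) (.na 223 43 (.nx 222 1321124 (.nr 221 370729
  (.nr 207 39 .s1 (.nx 210 105 (.nx 209 104 (.nr 208 311 (.l1 (.ls 31 29 273)) (.l1 .sk)) (.l1
  .sk)) (.nx 213 6503 (.lg 0 false 3 83 89 23 0 9360) (.nr 220 77937 (.nr 218 23172 (.nr 216 217
  (.lg 0 true 3 71 71 23 0 9360) (.nx 217 82572 (.lg 2 true 1 83 83 19 19787 9360) .out)) (.nx 219
  13005 (.lg 0 true 1 83 83 19 0 9360) .out)) .out)))) .out) .out) (.nx 237 1321124 (.nr 236 370729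
  (.nr 224 42 .s1 (.nx 226 104 (.nr 225 326 (.l1 (.ls 23 17 254)) (.l1 .sk)) (.nx 227 105 (.l1 .sk)
  (.nx 230 13005 (.lg 0 false 3 89 89 16 0 936) (.nr 235 23172 (.nr 233 326 (.lg 0 true 3 71 71 16
  0 936) (.nx 234 82572 (.lg 2 true 1 79 79 16 13171 936) .out)) .out))))) .out) .out))))) (.na 326
  60 (.na 270 49 (.na 254 46 (.nx 253 1321124 (.nr 252 370729 (.nr 239 44 .s1 (.nx 242 105 (.nx 241
  104 (.nr 240 333 (.l1 (.ls 29 23 243)) (.l1 .sk)) (.l1 .sk)) (.nx 244 6503 (.lg 0 false 2 89 89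
  19 0 9360) (.nr 251 77937 (.nr 247 217 (.lg 0 true 3 67 67 19 0 4680) (.nx 250 82572 (.nr 248
  23172 (.lg 2 true 1 79 79 17 19787 4680) (.nx 249 13005 (.lg 0 false 1 79 79 17 0 4680) .out))
  .out)) .out)))) .out) .out) (.na 255 47 .ne (.nx 269 1321124 (.nr 268 311745 (.nr 256 46 .s1 (.nx
  259 105 (.nx 258 104 (.nr 257 355 (.l1 (.ls 23 17 233)) (.l1 .sk)) (.l1 .sk)) (.nx 262 10323 (.lg
  0 false 3 83 83 16 0 936) (.nr 267 23172 (.nr 265 355 (.lg 0 true 3 71 71 16 0 936) (.nx 266
  82572 (.lg 2 true 1 79 79 16 12195 936) .out)) .out)))) .out) .out))) (.na 298 52 (.na 285 51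
  (.nx 284 1321124 (.nr 283 311745 (.nr 271 48 .s1 (.nx 277 10323 (.nx 273 104 (.nr 272 369 (.l1
  (.ls 23 19 223)) (.l1 .sk)) (.nx 274 105 (.l1 .sk) (.lg 0 false 3 83 83 16 0 6552))) (.nr 282
  23172 (.nr 280 369 (.lg 0 true 3 67 67 16 0 6552) (.nx 281 82572 (.lg 2 true 1 73 73 16 12195
  6552) .out)) .out))) .out) .out) (.nx 297 1321124 (.nr 296 311745 (.nr 286 50 .s1 (.nx 289 105
  (.nx 288 104 (.nr 287 376 (.l1 (.ls 16 23 215)) (.l1 .sk)) (.l1 .sk)) (.nx 291 10323 (.lg 0 false
  2 97 97 16 0 1872) (.nr 295 23172 (.nr 293 376 (.lg 0 true 2 73 73 16 0 1872) (.nx 294 82572 (.lg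
  2 true 1 79 79 16 12195 936) .out)) .out)))) .out) .out)) (.na 313 56 (.nx 312 1321124 (.nr 311
  311745 (.nr 299 51 .s1 (.nx 301 104 (.nr 300 405 (.l1 (.ls 23 29 210)) (.l1 .sk)) (.nx 302 105
  (.l1 .sk) (.nx 305 10323 (.lg 0 false 3 83 83 23 0 9360) (.nr 310 23172 (.nr 308 405 (.lg 0 true
  3 67 67 23 0 1872) (.nx 309 82572 (.lg 2 true 1 73 73 11 12195 9360) .out)) .out))))) .out) .out)
  (.nx 325 1321124 (.nr 324 311745 (.nr 314 56 .s1 (.nx 321 82572 (.nx 316 104 (.nr 315 434 (.l1
  (.ls 31 29 196)) (.l1 .sk)) (.nx 317 105 (.l1 .sk) (.nx 319 10323 (.lg 0 false 2 89 89 23 0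
  13104) (.nr 320 23172 (.lg 0 false 1 89 89 19 0 13104) .out)))) (.nr 323 217 (.lg 0 true 2 71 71
  23 0 13104) .out))) .out) .out)))) (.na 368 68 (.na 352 64 (.na 339 63 (.nx 338 1321124 (.nr 337
  311745 (.nr 327 60 .s1 (.nx 330 105 (.nx 329 104 (.nr 328 456 (.l1 (.ls 37 31 183)) (.l1 .sk))
  (.l1 .sk)) (.nx 333 20644 (.nr 331 46342 (.lg 0 false 1 89 89 29 0 9360) (.nx 332 8193 (.lg 0
  false 1 97 97 29 0 9360) .out)) (.nr 336 13779 (.nx 334 82572 (.lg 0 true 1 89 89 29 0 9360) (.nr
  335 217 (.lg 0 true 1 73 73 29 0 9360) .out)) .out)))) .out) .out) (.nx 351 1321124 (.nr 350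
  311745 (.nr 340 63 .s1 (.nx 347 82572 (.nx 342 104 (.nr 341 463 (.l1 (.ls 31 23 174)) (.l1 .sk))
  (.nx 343 105 (.l1 .sk) (.nx 345 10323 (.lg 0 false 2 89 89 19 0 65520) (.nr 346 23172 (.lg 0
  false 1 89 89 17 0 65520) .out)))) (.nr 349 217 (.lg 0 true 2 71 71 19 0 13104) .out))) .out)
  .out)) (.na 353 65 .ne (.nx 367 1321124 (.nr 366 524289 (.nr 354 65 .s1 (.nx 360 8193 (.nx 356
  104 (.nr 355 492 (.l1 (.ls 19 19 169)) (.l1 .sk)) (.nx 357 105 (.l1 .sk) (.lg 0 false 3 79 79 17
  0 4680))) (.nr 365 8193 (.nr 363 513 (.lg 0 true 3 67 67 17 0 4680) (.nx 364 82572 (.lg 2 true 1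
  61 61 16 8370 4680) .out)) .out))) .out) .out))) (.na 396 72 (.na 381 71 (.nx 380 1321124 (.nr
  379 524289 (.nr 369 68 .s1 (.nr 372 514 (.nx 370 205 (.l1 (.ls 31 37 621)) (.lg 0 true 2 73 73 23
  0 1872)) (.nx 374 105 (.nx 373 104 (.l1 .sk) (.l1 .sk)) (.nx 378 82572 (.nx 376 8193 (.lg 0 false
  2 97 97 23 0 65520) (.nr 377 8193 (.lg 2 false 1 71 71 13 8354 1872) .out)) .out)))) .out) .out)
  (.nx 395 1321124 (.nr 394 524289 (.nr 382 71 .s1 (.nx 384 104 (.nr 383 521 (.l1 (.ls 23 17 155))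
  (.l1 .sk)) (.nx 385 105 (.l1 .sk) (.nx 388 8193 (.lg 0 false 3 83 83 16 0 936) (.nr 393 8193 (.nr
  391 513 (.lg 0 true 3 67 67 16 0 936) (.nx 392 82572 (.lg 2 true 1 61 61 16 8370 936) .out))
  .out))))) .out) .out)) (.na 409 75 (.nx 408 1321124 (.nr 407 524289 (.nr 397 72 .s1 (.nx 400 105
  (.nx 399 104 (.nr 398 543 (.l1 (.ls 29 29 153)) (.l1 .sk)) (.l1 .sk)) (.nx 402 8193 (.lg 0 false
  2 89 89 29 0 1872) (.nr 406 8193 (.nr 404 513 (.lg 0 true 2 71 71 29 0 1872) (.nx 405 82572 (.lg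
  2 false 1 67 67 23 8370 1872) .out)) .out)))) .out) .out) (.nx 421 1321124 (.nr 420 524289 (.nr
  410 75 .s1 (.nx 413 105 (.nx 412 104 (.nr 411 586 (.l1 (.ls 29 23 147)) (.l1 .sk)) (.l1 .sk))
  (.nx 415 8193 (.lg 0 false 2 89 89 19 0 9360) (.nr 419 8193 (.nr 417 513 (.lg 0 true 2 71 71 19 0
  9360) (.nx 418 82572 (.lg 2 true 1 61 61 17 8370 4680) .out)) .out)))) .out) .out)))))) (.na 597
  120 (.na 507 105 (.na 459 91 (.na 435 84 (.nx 434 1321124 (.nr 433 524289 (.nr 423 81 .s1 (.nx
  427 8193 (.nx 425 104 (.nr 424 608 (.l1 (.ls 19 19 136)) (.l1 .sk)) (.nx 426 105 (.l1 .sk) (.lg 0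
  true 1 83 83 16 0 936))) (.nr 432 8193 (.nr 430 608 (.lg 0 true 3 61 61 17 0 936) (.nx 431 82572
  (.lg 2 false 1 53 53 16 7063 936) .out)) .out))) .out) .out) (.na 446 85 (.nx 445 1321124 (.nr
  444 524289 (.nr 436 84 .s1 (.nx 442 82572 (.nx 438 104 (.nr 437 615 (.l1 (.ls 37 31 131)) (.l1
  .sk)) (.nx 439 105 (.l1 .sk) (.nx 440 8193 (.lg 0 false 1 97 97 31 0 65520) (.nr 441 8193 (.lg 0
  true 1 83 83 31 0 13104) .out)))) (.nr 443 513 (.lg 0 true 1 79 79 31 0 13104) .out))) .out)
  .out) (.nx 458 1321124 (.nr 457 524289 (.nr 447 85 .s1 (.nx 449 104 (.nr 448 658 (.l1 (.ls 16 16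
  130)) (.l1 .sk)) (.nx 450 105 (.l1 .sk) (.nx 452 8193 (.lg 0 false 2 97 97 16 0 65520) (.nr 456
  8193 (.nr 454 513 (.lg 0 true 2 73 73 16 0 9360) (.nx 455 82572 (.lg 2 true 1 67 67 16 8370 4680)
  .out)) .out))))) .out) .out))) (.na 483 100 (.na 470 93 (.nx 469 1321124 (.nr 468 524289 (.nr 460
  91 .s1 (.nx 464 8193 (.nx 462 104 (.nr 461 673 (.l1 (.ls 23 19 121)) (.l1 .sk)) (.nx 463 105 (.l1
  .sk) (.lg 0 true 1 83 83 17 0 6552))) (.nr 467 8193 (.nr 465 513 (.lg 0 false 1 73 73 17 0 65520)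
  (.nx 466 82572 (.lg 2 true 1 59 59 17 8370 6552) .out)) .out))) .out) .out) (.nx 482 1321124 (.nr
  481 524289 (.nr 471 93 .s1 (.nx 473 104 (.nr 472 723 (.l1 (.ls 29 19 119)) (.l1 .sk)) (.nx 474
  105 (.l1 .sk) (.nx 476 8193 (.lg 0 false 2 89 89 19 0 1872) (.nr 480 8193 (.nr 478 513 (.lg 0
  true 2 73 73 19 0 1872) (.nx 479 82572 (.lg 2 false 1 67 67 17 8370 936) .out)) .out))))) .out)
  .out)) (.na 496 104 (.nx 495 1321124 (.nr 494 524289 (.nr 484 100 .s1 (.nx 486 104 (.nr 485 752
  (.l1 (.ls 29 23 111)) (.l1 .sk)) (.nx 487 105 (.l1 .sk) (.nx 489 8193 (.lg 0 false 2 83 83 29 0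
  9360) (.nr 493 8193 (.nr 491 513 (.lg 0 true 2 71 71 29 0 9360) (.nx 492 82572 (.lg 2 false 1 61
  61 23 8370 9360) .out)) .out))))) .out) .out) (.nx 506 1321124 (.nr 505 524289 (.nr 497 104 .s1
  (.nx 499 104 (.nr 498 759 (.l1 (.ls 23 23 106)) (.l1 .sk)) (.nx 500 105 (.l1 .sk) (.nx 501 8193
  (.lg 0 true 1 83 83 23 0 1872) (.nr 504 8193 (.nr 502 513 (.lg 2 false 1 67 67 23 660562 1872)
  (.nx 503 82572 (.lg 2 false 1 59 59 23 8370 1872) .out)) .out))))) .out) .out)))) (.na 552 111
  (.na 529 108 (.na 518 107 (.nx 517 1321124 (.nr 516 524289 (.nr 508 105 .s1 (.nx 514 82572 (.nx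
  512 8193 (.nx 510 104 (.nr 509 774 (.l1 (.ls 37 23 106)) (.l1 .sk)) (.nx 511 105 (.l1 .sk) (.lg 0
  false 1 89 89 29 0 32760))) (.nr 513 8193 (.lg 0 true 1 83 83 29 0 65520) .out)) (.nr 515 513
  (.lg 0 true 1 73 73 29 0 32760) .out))) .out) .out) (.nx 528 1321124 (.nr 527 524289 (.nr 519 107
  .s1 (.nx 521 104 (.nr 520 781 (.l1 (.ls 19 16 104)) (.l1 .sk)) (.nx 522 105 (.l1 .sk) (.nx 523
  8193 (.lg 0 true 1 83 83 16 0 936) (.nr 526 8193 (.nr 524 513 (.lg 2 false 1 61 61 16 642042 936)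
  (.nx 525 82572 (.lg 2 false 1 53 53 16 8370 936) .out)) .out))))) .out) .out)) (.na 541 109 (.nx
  540 1321124 (.nr 539 524289 (.nr 530 108 .s1 (.nx 534 8193 (.nx 532 104 (.nr 531 788 (.l1 (.ls 29
  29 103)) (.l1 .sk)) (.nx 533 105 (.l1 .sk) (.lg 0 true 1 83 83 23 0 9360))) (.nr 538 8193 (.nr
  536 513 (.lg 0 true 2 67 67 29 0 1872) (.nx 537 82572 (.lg 2 true 1 61 61 23 8370 9360) .out))
  .out))) .out) .out) (.nx 551 1321124 (.nr 550 524289 (.nr 542 109 .s1 (.nx 546 8193 (.nx 544 104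
  (.nr 543 803 (.l1 (.ls 17 16 102)) (.l1 .sk)) (.nx 545 105 (.l1 .sk) (.lg 0 true 1 79 79 16 0
  936))) (.nr 549 8193 (.nr 547 513 (.lg 0 false 1 67 67 16 0 936) (.nx 548 82572 (.lg 2 true 1 53
  53 16 8370 9360) .out)) .out))) .out) .out))) (.na 575 117 (.na 564 113 (.nx 563 1321124 (.nr 562
  524289 (.nr 553 111 .s1 (.nx 556 105 (.nx 555 104 (.nr 554 817 (.l1 (.ls 29 17 100)) (.l1 .sk))
  (.l1 .sk)) (.nx 557 8193 (.lg 0 true 1 97 97 17 0 65520) (.nr 561 8193 (.nr 559 817 (.lg 0 true 2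
  73 73 19 0 1872) (.nx 560 82572 (.lg 2 false 1 61 61 17 5477 936) .out)) .out)))) .out) .out)
  (.nx 574 1321124 (.nr 573 524289 (.nr 565 113 .s1 (.nx 568 105 (.nx 567 104 (.nr 566 846 (.l1
  (.ls 31 16 98)) (.l1 .sk)) (.l1 .sk)) (.nx 569 8193 (.lg 0 true 1 83 83 16 0 936) (.nr 572 8193
  (.nr 570 513 (.lg 2 false 1 61 61 16 607951 936) (.nx 571 82572 (.lg 2 false 1 53 53 16 8370 936)
  .out)) .out)))) .out) .out)) (.na 586 119 (.nx 585 1321124 (.nr 584 524289 (.nr 576 117 .s1 (.nx
  580 8193 (.nx 578 104 (.nr 577 861 (.l1 (.ls 19 19 95)) (.l1 .sk)) (.nx 579 105 (.l1 .sk) (.lg 0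
  true 1 79 79 19 0 936))) (.nr 583 8193 (.nr 581 513 (.lg 2 false 1 61 61 19 587167 936) (.nx 582
  82572 (.lg 2 false 1 53 53 19 8370 936) .out)) .out))) .out) .out) (.nx 596 1321124 (.nr 595
  524289 (.nr 587 119 .s1 (.nx 589 104 (.nr 588 868 (.l1 (.ls 16 16 93)) (.l1 .sk)) (.nx 590 105
  (.l1 .sk) (.nx 591 8193 (.lg 0 true 1 89 89 16 0 6552) (.nr 594 8193 (.nr 592 513 (.lg 2 true 1
  67 67 16 577298 6552) (.nx 593 82572 (.lg 2 false 1 61 61 16 8370 6552) .out)) .out))))) .out)
  .out))))) (.na 659 136 (.na 630 128 (.na 608 124 (.nx 607 1321124 (.nr 606 524289 (.nr 598 120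
  .s1 (.nx 604 82572 (.nx 600 104 (.nr 599 897 (.l1 (.ls 37 29 93)) (.l1 .sk)) (.nx 601 105 (.l1
  .sk) (.nx 602 8193 (.lg 0 false 1 89 89 31 0 65520) (.nr 603 8193 (.lg 0 true 1 79 79 31 0 65520)
  .out)))) (.nr 605 513 (.lg 0 true 1 73 73 31 0 9360) .out))) .out) .out) (.na 619 125 (.nx 618
  1321124 (.nr 617 524289 (.nr 609 124 .s1 (.nx 613 8193 (.nx 611 104 (.nr 610 904 (.l1 (.ls 29 19
  90)) (.l1 .sk)) (.nx 612 105 (.l1 .sk) (.lg 0 true 1 89 89 19 0 1872))) (.nr 616 8193 (.nr 614
  513 (.lg 2 true 1 67 67 19 554020 1872) (.nx 615 82572 (.lg 2 false 1 61 61 19 8370 1872) .out))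
  .out))) .out) .out) (.nx 629 1321124 (.nr 628 524289 (.nr 620 125 .s1 (.nx 622 104 (.nr 621 926
  (.l1 (.ls 19 17 89)) (.l1 .sk)) (.nx 623 105 (.l1 .sk) (.nx 624 8193 (.lg 0 true 1 79 79 16 0
  4680) (.nr 627 8193 (.nr 625 513 (.lg 2 false 1 61 61 16 549588 4680) (.nx 626 82572 (.lg 2 true
  1 53 53 16 8370 4680) .out)) .out))))) .out) .out))) (.na 641 131 (.na 631 129 .ne (.nx 640
  660563 (.nr 639 1048577 (.nr 632 129 .s1 (.nx 635 6503 (.nx 633 205 (.l1 (.ls 79 23 328)) (.nr
  634 524289 (.lg 0 false 1 79 79 19 0 936) .out)) (.nr 638 8193 (.nr 636 1025 (.lg 0 true 1 71 71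
  19 0 936) (.nx 637 82572 (.lg 2 false 1 59 59 19 6901 936) .out)) .out))) .out) .out)) (.na 649
  135 (.nx 648 660563 (.nr 647 1048577 (.nr 642 131 .s1 (.nx 643 205 (.l1 (.ls 67 19 323)) (.nr 646
  524289 (.nr 644 8193 (.lg 0 false 1 79 79 16 0 936) (.nx 645 6503 (.lg 0 true 1 73 73 16 0 936)
  .out)) .out))) .out) .out) (.nx 658 660563 (.nr 657 1048577 (.nr 650 135 .s1 (.nx 653 6503 (.nx
  651 205 (.l1 (.ls 73 29 314)) (.nr 652 524289 (.lg 0 false 1 79 79 19 0 4680) .out)) (.nr 656
  8193 (.nr 654 1025 (.lg 0 true 1 67 67 19 0 4680) (.nx 655 82572 (.lg 2 false 1 59 59 19 6901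
  4680) .out)) .out))) .out) .out)))) (.na 688 141 (.na 670 139 (.na 669 137 (.nx 668 660563 (.nr
  667 1048577 (.nr 660 136 .s1 (.nx 663 6503 (.nx 661 205 (.l1 (.ls 79 31 312)) (.nr 662 524289
  (.lg 0 true 1 83 83 29 0 9360) .out)) (.nr 666 8193 (.nr 664 1025 (.lg 0 true 1 71 71 29 0 1872)
  (.nx 665 82572 (.lg 2 true 1 59 59 29 6901 1872) .out)) .out))) .out) .out) (.lg 0 false 1 0 0 16
  0 24)) (.na 678 140 (.nx 677 660563 (.nr 676 1048577 (.nr 671 139 .s1 (.nx 672 205 (.l1 (.ls 71
  19 305)) (.nr 675 524289 (.nr 673 8193 (.lg 0 false 1 79 79 16 0 936) (.nx 674 6503 (.lg 0 true 1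
  73 73 16 0 936) .out)) .out))) .out) .out) (.nx 687 660563 (.nr 686 1048577 (.nr 679 140 .s1 (.nx
  684 82572 (.nx 680 205 (.l1 (.ls 83 31 303)) (.nr 683 524289 (.nx 681 6503 (.lg 0 false 1 89 89
  31 0 65520) (.nr 682 8193 (.lg 0 true 1 79 79 31 0 65520) .out)) .out)) (.nr 685 1025 (.lg 0 true
  1 79 79 31 0 65520) .out))) .out) .out))) (.na 706 148 (.na 698 147 (.nx 697 660563 (.nr 696
  1048577 (.nr 689 141 .s1 (.nx 692 6503 (.nx 690 205 (.l1 (.ls 79 23 301)) (.nr 691 524289 (.lg 0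
  false 1 79 79 19 0 936) .out)) (.nr 695 8193 (.nr 693 1025 (.lg 0 true 1 71 71 19 0 936) (.nx 694
  82572 (.lg 2 true 1 59 59 19 6901 936) .out)) .out))) .out) .out) (.nx 705 660563 (.nr 704
  1048577 (.nr 699 147 .s1 (.nx 700 205 (.l1 (.ls 73 29 288)) (.nr 703 524289 (.nr 701 8193 (.lg 0
  false 1 83 83 23 0 65520) (.nx 702 6503 (.lg 0 false 1 79 79 23 0 6552) .out)) .out))) .out)
  .out)) (.na 714 149 (.nx 713 660563 (.nr 712 1048577 (.nr 707 148 .s1 (.nx 708 205 (.l1 (.ls 79
  29 286)) (.nr 711 524289 (.nr 709 8193 (.lg 0 false 1 89 89 23 0 65520) (.nx 710 6503 (.lg 0 true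
  1 89 89 23 0 65520) .out)) .out))) .out) .out) (.nx 721 660563 (.nr 720 1048577 (.nr 715 149 .s1
  (.nx 716 205 (.l1 (.ls 71 19 285)) (.nr 719 524289 (.nr 717 8193 (.lg 0 false 1 79 79 16 0 936)
  (.nx 718 6503 (.lg 0 true 1 73 73 16 0 936) .out)) .out))) .out) .out))))))) (.na 906 217 (.na
  807 185 (.na 764 168 (.na 746 156 (.na 730 153 (.nx 729 660563 (.nr 728 1048577 (.nr 723 151 .s1
  (.nx 724 205 (.l1 (.ls 67 17 281)) (.nr 727 524289 (.nr 725 8193 (.lg 0 false 1 79 79 16 0 9360)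
  (.nx 726 6503 (.lg 0 true 1 73 73 16 0 936) .out)) .out))) .out) .out) (.na 738 155 (.nx 737
  660563 (.nr 736 1048577 (.nr 731 153 .s1 (.nx 732 205 (.l1 (.ls 79 29 277)) (.nr 735 524289 (.nr
  733 8193 (.lg 0 false 1 89 89 23 0 65520) (.nx 734 6503 (.lg 0 false 1 79 79 23 0 936) .out))
  .out))) .out) .out) (.nx 745 660563 (.nr 744 1048577 (.nr 739 155 .s1 (.nx 740 205 (.l1 (.ls 79
  19 274)) (.nr 743 524289 (.nr 741 8193 (.lg 0 false 1 89 89 17 0 65520) (.nx 742 6503 (.lg 0
  false 1 79 79 17 0 4680) .out)) .out))) .out) .out))) (.na 755 163 (.na 754 157 (.nx 753 660563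
  (.nr 752 1048577 (.nr 747 156 .s1 (.nx 748 205 (.l1 (.ls 73 37 272)) (.nr 751 524289 (.nr 749
  8193 (.lg 0 true 1 79 79 31 0 1872) (.nx 750 6503 (.lg 0 false 1 79 79 31 0 1872) .out)) .out)))
  .out) .out) (.lg 0 false 1 0 0 16 0 24)) (.na 756 167 (.lg 0 false 1 0 0 16 0 24) (.nx 763 660563
  (.nr 762 1048577 (.nr 757 167 .s1 (.nx 758 205 (.l1 (.ls 79 17 254)) (.nr 761 524289 (.nr 759
  8193 (.lg 0 false 1 79 79 16 0 936) (.nx 760 6503 (.lg 0 true 1 73 73 16 0 936) .out)) .out)))
  .out) .out)))) (.na 782 175 (.na 773 172 (.na 772 169 (.nx 771 660563 (.nr 770 1048577 (.nr 765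
  168 .s1 (.nx 768 6503 (.nx 766 205 (.l1 (.ls 83 37 253)) (.nr 767 524289 (.lg 0 false 1 89 89 37
  0 65520) .out)) (.nr 769 8193 (.lg 0 true 1 89 89 37 0 65520) .out))) .out) .out) (.lg 0 false 1
  0 0 16 0 24)) (.na 781 173 (.nx 780 660563 (.nr 779 1048577 (.nr 774 172 .s1 (.nx 775 205 (.l1
  (.ls 79 29 247)) (.nr 778 524289 (.nr 776 8193 (.lg 0 false 1 83 83 23 0 9360) (.nx 777 6503 (.lg
  0 false 1 79 79 23 0 1872) .out)) .out))) .out) .out) (.lg 0 false 1 0 0 16 0 24))) (.na 798 180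
  (.na 790 179 (.nx 789 660563 (.nr 788 1048577 (.nr 783 175 .s1 (.nx 784 205 (.l1 (.ls 73 23 243))
  (.nr 787 524289 (.nr 785 8193 (.lg 0 false 1 83 83 19 0 65520) (.nx 786 6503 (.lg 0 false 1 79 79
  19 0 32760) .out)) .out))) .out) .out) (.nx 797 660563 (.nr 796 1048577 (.nr 791 179 .s1 (.nx 792
  205 (.l1 (.ls 67 17 237)) (.nr 795 524289 (.nr 793 8193 (.lg 0 false 1 73 73 16 0 936) (.nx 794
  6503 (.lg 0 true 1 71 71 16 0 936) .out)) .out))) .out) .out)) (.na 806 181 (.nx 805 660563 (.nr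
  804 1048577 (.nr 799 180 .s1 (.nx 800 205 (.l1 (.ls 79 37 236)) (.nr 803 524289 (.nr 801 8193
  (.lg 0 true 1 83 83 37 0 9360) (.nx 802 6503 (.lg 0 false 1 83 83 37 0 9360) .out)) .out))) .out)
  .out) (.lg 0 false 1 0 0 16 0 24))))) (.na 849 197 (.na 831 191 (.na 815 188 (.nx 814 660563 (.nr
  813 1048577 (.nr 808 185 .s1 (.nx 809 205 (.l1 (.ls 73 19 230)) (.nr 812 524289 (.nr 810 8193
  (.lg 0 false 1 83 83 19 0 9360) (.nx 811 6503 (.lg 0 false 1 79 79 19 0 4680) .out)) .out)))
  .out) .out) (.na 823 189 (.nx 822 660563 (.nr 821 1048577 (.nr 816 188 .s1 (.nx 817 205 (.l1 (.ls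
  79 23 226)) (.nr 820 524289 (.nr 818 8193 (.lg 0 false 1 89 89 23 0 65520) (.nx 819 6503 (.lg 0
  false 1 79 79 23 0 1872) .out)) .out))) .out) .out) (.nx 830 660563 (.nr 829 1048577 (.nr 824 189
  .s1 (.nx 825 205 (.l1 (.ls 73 23 225)) (.nr 828 524289 (.nr 826 8193 (.lg 0 true 1 79 79 23 0
  6552) (.nx 827 6503 (.lg 0 false 1 73 73 23 0 6552) .out)) .out))) .out) .out))) (.na 833 195
  (.na 832 193 (.lg 0 false 1 0 0 16 0 24) (.lg 0 false 1 0 0 16 0 24)) (.na 841 196 (.nx 840
  660563 (.nr 839 1048577 (.nr 834 195 .s1 (.nx 835 205 (.l1 (.ls 73 29 218)) (.nr 838 524289 (.nr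
  836 8193 (.lg 0 true 1 79 79 29 0 4680) (.nx 837 6503 (.lg 0 false 1 73 73 29 0 4680) .out))
  .out))) .out) .out) (.nx 848 660563 (.nr 847 1048577 (.nr 842 196 .s1 (.nx 843 205 (.l1 (.ls 73
  29 217)) (.nr 846 524289 (.nr 844 8193 (.lg 0 false 1 83 83 29 0 65520) (.nx 845 6503 (.lg 0
  false 1 73 73 29 0 13104) .out)) .out))) .out) .out)))) (.na 874 211 (.na 858 200 (.na 857 199
  (.nx 856 660563 (.nr 855 1048577 (.nr 850 197 .s1 (.nx 851 205 (.l1 (.ls 73 17 216)) (.nr 854
  524289 (.nr 852 8193 (.lg 0 false 1 73 73 16 0 936) (.nx 853 6503 (.lg 0 true 1 71 71 16 0 936)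
  .out)) .out))) .out) .out) (.lg 0 false 1 0 0 16 0 24)) (.na 866 204 (.nx 865 660563 (.nr 864
  1048577 (.nr 859 200 .s1 (.nx 860 205 (.l1 (.ls 71 29 213)) (.nr 863 524289 (.nx 861 6503 (.lg 0
  false 1 73 73 29 0 9360) (.nr 862 8193 (.lg 0 true 1 79 79 29 0 9360) .out)) .out))) .out) .out)
  (.nx 873 660563 (.nr 872 1048577 (.nr 867 204 .s1 (.nx 868 205 (.l1 (.ls 83 37 209)) (.nr 871
  524289 (.nr 869 8193 (.lg 0 true 1 89 89 37 0 1872) (.nx 870 6503 (.lg 0 false 1 89 89 37 0
  65520) .out)) .out))) .out) .out))) (.na 890 215 (.na 882 213 (.nx 881 660563 (.nr 880 1048577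
  (.nr 875 211 .s1 (.nx 876 205 (.l1 (.ls 73 17 202)) (.nr 879 524289 (.nr 877 8193 (.lg 0 false 1
  73 73 16 0 936) (.nx 878 6503 (.lg 0 true 1 71 71 16 0 936) .out)) .out))) .out) .out) (.nx 889
  660563 (.nr 888 1048577 (.nr 883 213 .s1 (.nx 884 205 (.l1 (.ls 67 19 200)) (.nr 887 524289 (.nr
  885 8193 (.lg 0 true 1 79 79 19 0 936) (.nx 886 6503 (.lg 0 false 1 73 73 19 0 936) .out))
  .out))) .out) .out)) (.na 898 216 (.nx 897 660563 (.nr 896 1048577 (.nr 891 215 .s1 (.nx 892 205
  (.l1 (.ls 73 19 198)) (.nr 895 524289 (.nr 893 8193 (.lg 0 true 1 79 79 19 0 4680) (.nx 894 6503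
  (.lg 0 false 1 79 79 19 0 4680) .out)) .out))) .out) .out) (.nx 905 660563 (.nr 904 1048577 (.nr
  899 216 .s1 (.nx 900 205 (.l1 (.ls 73 31 197)) (.nr 903 524289 (.nr 901 8193 (.lg 0 true 1 79 79
  29 0 1872) (.nx 902 6503 (.lg 0 false 1 73 73 29 0 1872) .out)) .out))) .out) .out)))))) (.na
  1012 255 (.na 955 235 (.na 930 225 (.na 914 221 (.nx 913 660563 (.nr 912 1048577 (.nr 907 217 .s1
  (.nx 908 205 (.l1 (.ls 79 19 196)) (.nr 911 524289 (.nr 909 8193 (.lg 0 false 1 83 83 19 0 6552)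
  (.nx 910 6503 (.lg 0 false 1 79 79 19 0 6552) .out)) .out))) .out) .out) (.na 922 223 (.nx 921
  660563 (.nr 920 1048577 (.nr 915 221 .s1 (.nx 916 205 (.l1 (.ls 67 23 193)) (.nr 919 524289 (.nr
  917 8193 (.lg 0 false 1 73 73 19 0 936) (.nx 918 6503 (.lg 0 true 1 71 71 19 0 936) .out))
  .out))) .out) .out) (.nx 929 660563 (.nr 928 1048577 (.nr 923 223 .s1 (.nx 924 205 (.l1 (.ls 79
  17 191)) (.nr 927 524289 (.nr 925 8193 (.lg 0 false 1 73 73 16 0 936) (.nx 926 6503 (.lg 0 true 1
  71 71 16 0 936) .out)) .out))) .out) .out))) (.na 939 229 (.na 938 227 (.nx 937 660563 (.nr 936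
  1048577 (.nr 931 225 .s1 (.nx 932 205 (.l1 (.ls 73 23 189)) (.nr 935 524289 (.nr 933 8193 (.lg 0
  true 1 73 73 23 0 4680) (.nx 934 6503 (.lg 0 false 1 73 73 23 0 4680) .out)) .out))) .out) .out)
  (.lg 0 false 1 0 0 16 0 24)) (.na 947 233 (.nx 946 660563 (.nr 945 1048577 (.nr 940 229 .s1 (.nx
  941 205 (.l1 (.ls 67 17 186)) (.nr 944 524289 (.nr 942 8193 (.lg 0 false 1 71 71 17 0 936) (.nx
  943 6503 (.lg 0 true 1 71 71 17 0 936) .out)) .out))) .out) .out) (.nx 954 660563 (.nr 953
  1048577 (.nr 948 233 .s1 (.nx 949 205 (.l1 (.ls 71 17 183)) (.nr 952 524289 (.nr 950 8193 (.lg 0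
  false 1 71 71 17 0 936) (.nx 951 6503 (.lg 0 true 1 71 71 17 0 936) .out)) .out))) .out) .out))))
  (.na 980 245 (.na 971 241 (.na 963 239 (.nx 962 660563 (.nr 961 1048577 (.nr 956 235 .s1 (.nx 957
  205 (.l1 (.ls 73 19 181)) (.nr 960 524289 (.nr 958 8193 (.lg 0 true 1 79 79 19 0 4680) (.nx 959
  6503 (.lg 0 false 1 73 73 19 0 4680) .out)) .out))) .out) .out) (.nx 970 660563 (.nr 969 1048577
  (.nr 964 239 .s1 (.nx 965 205 (.l1 (.ls 73 17 178)) (.nr 968 524289 (.nr 966 8193 (.lg 0 false 1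
  73 73 17 0 936) (.nx 967 6503 (.lg 0 true 1 71 71 17 0 936) .out)) .out))) .out) .out)) (.na 972
  243 (.lg 0 false 1 0 0 16 0 24) (.nx 979 660563 (.nr 978 1048577 (.nr 973 243 .s1 (.nx 974 205
  (.l1 (.ls 67 19 175)) (.nr 977 524289 (.nr 975 8193 (.lg 0 false 1 71 71 19 0 936) (.nx 976 6503
  (.lg 0 true 1 67 67 19 0 936) .out)) .out))) .out) .out))) (.na 996 251 (.na 988 248 (.nx 987
  660563 (.nr 986 1048577 (.nr 981 245 .s1 (.nx 982 205 (.l1 (.ls 73 23 174)) (.nr 985 524289 (.nr
  983 8193 (.lg 0 false 1 79 79 23 0 32760) (.nx 984 6503 (.lg 0 false 1 73 73 23 0 32760) .out))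
  .out))) .out) .out) (.nx 995 660563 (.nr 994 1048577 (.nr 989 248 .s1 (.nx 990 205 (.l1 (.ls 73
  23 172)) (.nr 993 524289 (.nr 991 8193 (.lg 0 true 1 79 79 23 0 1872) (.nx 992 6503 (.lg 0 false
  1 73 73 23 0 1872) .out)) .out))) .out) .out)) (.na 1004 252 (.nx 1003 660563 (.nr 1002 1048577
  (.nr 997 251 .s1 (.nx 998 205 (.l1 (.ls 71 17 170)) (.nr 1001 524289 (.nr 999 8193 (.lg 0 false 1
  71 71 17 0 936) (.nx 1000 6503 (.lg 0 true 1 71 71 17 0 936) .out)) .out))) .out) .out) (.nx 1011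
  660563 (.nr 1010 1048577 (.nr 1005 252 .s1 (.nx 1006 205 (.l1 (.ls 79 31 169)) (.nr 1009 524289
  (.nr 1007 8193 (.lg 0 true 1 83 83 37 0 65520) (.nx 1008 6503 (.lg 0 false 1 79 83 37 0 65520)
  .out)) .out))) .out) .out))))) (.na 3507 2048 (.na 1535 512 (.na 1020 256 (.nx 1019 660563 (.nr
  1018 1048577 (.nr 1013 255 .s1 (.nx 1014 205 (.l1 (.ls 79 29 167)) (.nr 1017 524289 (.nr 1015
  8193 (.lg 0 true 1 83 83 31 0 4680) (.nx 1016 6503 (.lg 0 false 1 79 79 31 0 4680) .out)) .out)))
  .out) .out) (.na 1021 257 .ne (.nx 1534 82572 (.nr 1533 1048577 (.nr 1022 257 .s1 (.nx 1277 647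
  (.la (.ls 73 31 1631)) (.nr 1532 262145 (.la (.lg 0 false 1 83 83 23 0)) .out))) .out) .out)))
  (.na 2267 1024 (.na 1965 725 (.nx 1964 82572 (.nr 1963 1048577 (.nr 1536 512 .s1 (.nx 1749 647
  (.la (.ls 71 29 820)) (.nr 1962 262145 (.la (.lg 0 false 1 73 73 29 0)) .out))) .out) .out) (.nx
  2266 3252 (.nr 2265 262145 (.nr 1966 725 .s1 (.la (.ls 61 43 14589))) .out) .out)) (.na 2800 1449
  (.nx 2799 3252 (.nr 2798 262145 (.nr 2268 1024 .s1 (.nx 2372 104 (.nr 2371 10475 (.lx (.lp 41 23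
  363)) (.l1 .sk)) (.nx 2373 105 (.l1 .sk) (.la (.ls 59 41 10319))))) .out) .out) (.nx 3506 1627
  (.nr 3505 131073 (.nr 2801 1449 .s1 (.nx 2905 104 (.nr 2904 14804 (.lx (.lp 41 29 513)) (.l1
  .sk)) (.nx 2906 105 (.l1 .sk) (.la (.ls 53 31 1822))))) .out) .out)))) (.na 6413 16384 (.na 5114
  4096 (.na 4464 2897 (.nx 4463 1627 (.nr 4462 131073 (.nr 3508 2048 .s1 (.nx 3612 104 (.nr 3611
  20941 (.lx (.lp 43 29 725)) (.l1 .sk)) (.nx 3613 105 (.l1 .sk) (.la (.ls 53 31 1290))))) .out)
  .out) (.nx 5113 647 (.nr 5112 65537 (.nr 4465 2897 .s1 (.nx 4627 163 (.lx (.lp 47 31 1025)) (.nr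
  5111 32769 (.lx (.lp 41 31 1025)) .out))) .out) .out)) (.na 5764 8192 (.nx 5763 647 (.nr 5762
  65537 (.nr 5115 4096 .s1 (.nx 5277 163 (.lx (.lp 43 37 2049)) (.nr 5761 32769 (.lx (.lp 41 37
  2049)) .out))) .out) .out) (.nx 6412 647 (.nr 6411 65537 (.nr 5765 8192 .s1 (.lx (.lp 41 41
  4097))) .out) .out))) (.na 7389 65536 (.na 7063 32768 (.nx 7062 647 (.nr 7061 131073 (.nr 6414
  16384 .s1 (.nx 6576 163 (.lx (.lp 16 0 8193)) (.nr 7060 65537 (.lx (.lp 37 43 8193)) .out)))
  .out) .out) (.nx 7388 324 (.nr 7387 131073 (.nr 7064 32768 .s1 (.lx (.lp 41 47 16385))) .out)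
  .out)) (.na 7715 131073 (.nx 7714 324 (.nr 7713 262145 (.nr 7390 65536 .s1 (.lx (.lp 41 53
  32769))) .out) .out) .out)))))))

def T46_1 : Ph :=
  (.na 391 221 (.na 220 166 (.na 105 138 (.na 58 128 (.na 27 118 (.na 13 115 (.nx 12 2642247 (.nr
  11 2097153 (.nr 1 114 .s1 (.nx 2 408 (.l1 (.ls 89 43 1463)) (.nr 10 1482912 (.nx 5 26009 (.lg 0
  false 3 101 103 37 0 159120) (.nr 9 65537 (.nr 7 513 (.lg 0 true 2 73 73 31 0 31824) (.nx 8
  416129 (.lg 2 false 1 101 101 31 89635 159120) .out)) .out)) .out))) .out) .out) (.nx 26 2642247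
  (.nr 25 2097153 (.nr 14 115 .s1 (.nx 15 408 (.l1 (.ls 83 37 1450)) (.nr 24 1482912 (.nx 19 26009
  (.lg 0 false 4 97 101 19 0 159120) (.nr 23 65537 (.nr 21 513 (.lg 0 true 2 73 73 19 0 159120)
  (.nx 22 416129 (.lg 2 false 1 89 89 17 89635 79560) .out)) .out)) .out))) .out) .out)) (.na 43
  125 (.nx 42 2642247 (.nr 41 2097153 (.nr 28 118 .s1 (.nx 29 408 (.l1 (.ls 83 37 1413)) (.nr 40
  1482912 (.nx 34 26009 (.lg 0 false 5 97 97 23 0 159120) (.nr 39 65537 (.nr 36 513 (.lg 0 true 2
  71 71 19 0 31824) (.nx 38 416129 (.lg 2 true 2 83 83 19 89635 31824) .out)) .out)) .out))) .out)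
  .out) (.nx 57 2642247 (.nr 56 2097153 (.nr 44 125 .s1 (.nx 45 408 (.l1 (.ls 79 29 1334)) (.nr 55
  1482912 (.nx 49 26009 (.lg 0 false 4 89 89 19 0 159120) (.nr 54 65537 (.nr 52 1347 (.lg 0 true 3
  71 71 17 0 79560) (.nx 53 416129 (.lg 2 true 1 83 83 16 61744 79560) .out)) .out)) .out))) .out)
  .out))) (.na 76 131 (.na 59 130 .ne (.nx 75 1321124 (.nr 74 2097153 (.nr 60 130 .s1 (.nx 63 222
  (.nx 62 221 (.nr 61 1379 (.l1 (.ls 29 37 378)) (.l1 .sk)) (.l1 .sk)) (.nx 70 26009 (.lg 0 false 7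
  89 97 37 0 1113840) (.nr 73 65537 (.nr 71 1025 (.lg 0 false 1 73 73 29 0 159120) (.nx 72 165142
  (.lg 2 true 1 83 83 29 61744 159120) .out)) .out)))) .out) .out)) (.na 90 134 (.nx 89 1321124
  (.nr 88 2097153 (.nr 77 131 .s1 (.nx 80 222 (.nx 79 221 (.nr 78 1411 (.l1 (.ls 23 19 375)) (.l1
  .sk)) (.l1 .sk)) (.nx 84 26009 (.lg 0 false 4 89 89 17 0 159120) (.nr 87 65537 (.nr 85 1025 (.lg
  0 false 1 71 71 16 0 79560) (.nx 86 165142 (.lg 2 true 1 79 79 16 61744 79560) .out)) .out))))
  .out) .out) (.nx 104 1321124 (.nr 103 2097153 (.nr 91 134 .s1 (.nx 99 26009 (.nx 93 221 (.nr 92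
  1453 (.l1 (.ls 31 29 367)) (.l1 .sk)) (.nx 94 222 (.l1 .sk) (.lg 0 false 5 97 97 29 0 159120)))
  (.nr 102 65537 (.nr 100 1025 (.lg 0 false 1 79 79 19 0 159120) (.nx 101 165142 (.lg 2 true 1 89
  89 19 61744 31824) .out)) .out))) .out) .out)))) (.na 159 157 (.na 133 146 (.na 119 141 (.nx 118
  1321124 (.nr 117 2097153 (.nr 106 138 .s1 (.nx 109 222 (.nx 108 221 (.nr 107 1484 (.l1 (.ls 19 37
  356)) (.l1 .sk)) (.l1 .sk)) (.nx 112 26009 (.lg 0 false 3 101 103 37 0 159120) (.nr 116 65537
  (.nr 114 1025 (.lg 0 true 2 73 73 37 0 31824) (.nx 115 165142 (.lg 2 true 1 89 89 31 61744 31824)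
  .out)) .out)))) .out) .out) (.nx 132 1321124 (.nr 131 2097153 (.nr 120 141 .s1 (.nx 122 221 (.nr
  121 1537 (.l1 (.ls 31 23 349)) (.l1 .sk)) (.nx 123 222 (.l1 .sk) (.nx 127 26009 (.lg 0 false 4 97
  103 23 0 159120) (.nr 130 65537 (.nr 128 1025 (.lg 0 true 1 73 73 19 0 15912) (.nx 129 165142
  (.lg 2 true 1 89 89 19 61744 15912) .out)) .out))))) .out) .out)) (.na 146 150 (.nx 145 1321124
  (.nr 144 2097153 (.nr 134 146 .s1 (.nx 136 221 (.nr 135 1579 (.l1 (.ls 29 29 337)) (.l1 .sk))
  (.nx 137 222 (.l1 .sk) (.nx 140 26009 (.lg 0 false 3 97 97 23 0 31824) (.nr 143 65537 (.nr 141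
  1025 (.lg 0 false 1 79 79 19 0 159120) (.nx 142 165142 (.lg 2 true 1 89 89 19 61744 1113840)
  .out)) .out))))) .out) .out) (.nx 158 1321124 (.nr 157 2097153 (.nr 147 150 .s1 (.nx 150 222 (.nx
  149 221 (.nr 148 1653 (.l1 (.ls 37 37 328)) (.l1 .sk)) (.l1 .sk)) (.nx 152 26009 (.lg 0 false 2
  97 101 31 0 159120) (.nr 156 65537 (.nr 154 1025 (.lg 0 true 2 71 73 31 0 159120) (.nx 155 165142
  (.lg 2 true 1 83 83 31 61744 159120) .out)) .out)))) .out) .out))) (.na 190 159 (.na 173 158 (.nx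
  172 1321124 (.nr 171 2097153 (.nr 160 157 .s1 (.nx 163 222 (.nx 162 221 (.nr 161 1663 (.l1 (.ls
  19 19 314)) (.l1 .sk)) (.l1 .sk)) (.nx 167 26009 (.lg 0 false 4 83 83 17 0 31824) (.nr 170 65537
  (.nr 168 1025 (.lg 0 false 1 67 67 16 0 79560) (.nx 169 165142 (.lg 2 true 1 73 73 16 61744
  15912) .out)) .out)))) .out) .out) (.nx 189 1321124 (.nr 188 2097153 (.nr 174 158 .s1 (.nx 177
  222 (.nx 176 221 (.nr 175 1674 (.l1 (.ls 29 29 312)) (.l1 .sk)) (.l1 .sk)) (.nx 184 41287 (.lg 0
  false 7 97 101 29 0 1113840) (.nr 187 16385 (.nr 185 1025 (.lg 0 false 1 71 71 19 0 31824) (.nx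
  186 165142 (.lg 2 false 1 61 61 19 17804 31824) .out)) .out)))) .out) .out)) (.na 204 162 (.nx
  203 1321124 (.nr 202 2097153 (.nr 191 159 .s1 (.nx 193 221 (.nr 192 1705 (.l1 (.ls 31 23 310))
  (.l1 .sk)) (.nx 194 222 (.l1 .sk) (.nx 198 26009 (.lg 0 false 4 97 101 29 0 159120) (.nr 201
  65537 (.nr 199 1025 (.lg 0 true 1 73 73 19 0 15912) (.nx 200 165142 (.lg 2 false 1 83 83 19 61744
  15912) .out)) .out))))) .out) .out) (.na 219 163 (.nx 218 1321124 (.nr 217 2097153 (.nr 205 162
  .s1 (.nx 208 222 (.nx 207 221 (.nr 206 1716 (.l1 (.ls 29 31 304)) (.l1 .sk)) (.l1 .sk)) (.nx 213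
  26009 (.lg 0 false 5 83 89 31 0 159120) (.nr 216 65537 (.nr 214 1025 (.lg 0 false 1 71 71 23 0
  31824) (.nx 215 165142 (.lg 2 true 1 79 79 23 61744 31824) .out)) .out)))) .out) .out) (.lg 0
  false 1 0 0 16 0 24)))))) (.na 276 193 (.na 261 179 (.na 246 173 (.na 233 170 (.nx 232 1321124
  (.nr 231 2097153 (.nr 221 166 .s1 (.nx 227 26009 (.nx 223 221 (.nr 222 1789 (.l1 (.ls 29 29 297))
  (.l1 .sk)) (.nx 224 222 (.l1 .sk) (.lg 0 false 3 89 89 23 0 31824))) (.nr 230 65537 (.nr 228 1025
  (.lg 0 false 1 71 71 19 0 31824) (.nx 229 165142 (.lg 2 true 1 83 83 19 61744 159120) .out))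
  .out))) .out) .out) (.nx 245 1321124 (.nr 244 2097153 (.nr 234 170 .s1 (.nx 240 26009 (.nx 236
  221 (.nr 235 1821 (.l1 (.ls 29 31 290)) (.l1 .sk)) (.nx 237 222 (.l1 .sk) (.lg 0 false 3 89 89 31
  0 159120))) (.nr 243 65537 (.nr 241 1025 (.lg 0 false 1 71 71 29 0 159120) (.nx 242 165142 (.lg 2
  true 1 79 79 29 61744 159120) .out)) .out))) .out) .out)) (.na 247 177 (.lg 0 false 1 0 0 16 0
  24) (.nx 260 1321124 (.nr 259 2097153 (.nr 248 177 .s1 (.nx 250 221 (.nr 249 1884 (.l1 (.ls 31 23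
  278)) (.l1 .sk)) (.nx 251 222 (.l1 .sk) (.nx 255 26009 (.lg 0 false 4 97 101 29 0 159120) (.nr
  258 65537 (.nr 256 1025 (.lg 0 true 1 71 71 19 0 15912) (.nx 257 165142 (.lg 2 true 1 83 83 19
  61744 15912) .out)) .out))))) .out) .out))) (.na 263 190 (.na 262 182 (.lg 0 false 1 0 0 16 0 24)
  .ne) (.na 275 191 (.nx 274 1321124 (.nr 273 1482912 (.nr 264 190 .s1 (.nx 269 26009 (.nx 266 221
  (.nr 265 2010 (.l1 (.ls 16 31 260)) (.l1 .sk)) (.nx 267 222 (.l1 .sk) (.lg 0 false 2 97 101 37 0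
  159120))) (.nr 272 65537 (.nr 270 1025 (.lg 0 true 1 73 73 31 0 159120) (.nx 271 165142 (.lg 2
  true 1 89 89 31 61744 159120) .out)) .out))) .out) .out) (.lg 0 false 1 0 0 16 0 24)))) (.na 328
  205 (.na 303 195 (.na 290 194 (.nx 289 1321124 (.nr 288 1482912 (.nr 277 193 .s1 (.nx 279 221
  (.nr 278 2042 (.l1 (.ls 23 17 256)) (.l1 .sk)) (.nx 280 222 (.l1 .sk) (.nx 284 41287 (.lg 0 false
  4 83 83 19 0 31824) (.nr 287 16385 (.nr 285 1025 (.lg 0 false 1 67 67 16 0 79560) (.nx 286 165142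
  (.lg 2 false 1 59 59 16 17804 79560) .out)) .out))))) .out) .out) (.nx 302 1321124 (.nr 301
  1482912 (.nr 291 194 .s1 (.nx 294 222 (.nx 293 221 (.nr 292 2053 (.l1 (.ls 29 29 254)) (.l1 .sk))
  (.l1 .sk)) (.nx 297 41287 (.lg 0 false 3 89 89 29 0 159120) (.nr 300 16385 (.nr 298 1025 (.lg 0
  false 1 71 71 19 0 159120) (.nx 299 165142 (.lg 2 true 1 61 61 19 17804 159120) .out)) .out))))
  .out) .out)) (.na 315 202 (.nx 314 1321124 (.nr 313 1482912 (.nr 304 195 .s1 (.nx 309 26009 (.nx
  306 221 (.nr 305 2126 (.l1 (.ls 31 29 253)) (.l1 .sk)) (.nx 307 222 (.l1 .sk) (.lg 0 false 2 97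
  97 31 0 159120))) (.nr 312 65537 (.nr 310 1025 (.lg 0 true 1 67 67 29 0 79560) (.nx 311 165142
  (.lg 2 false 1 79 79 29 61744 79560) .out)) .out))) .out) .out) (.nx 327 1321124 (.nr 326 1482912
  (.nr 316 202 .s1 (.nx 322 41287 (.nx 318 221 (.nr 317 2158 (.l1 (.ls 29 29 244)) (.l1 .sk)) (.nx
  319 222 (.l1 .sk) (.lg 0 false 3 89 89 29 0 31824))) (.nr 325 16385 (.nr 323 1025 (.lg 0 false 1
  71 71 23 0 159120) (.nx 324 165142 (.lg 2 false 1 61 61 23 17804 31824) .out)) .out))) .out)
  .out))) (.na 352 211 (.na 340 207 (.nx 339 1321124 (.nr 338 1482912 (.nr 329 205 .s1 (.nx 332 222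
  (.nx 331 221 (.nr 330 2179 (.l1 (.ls 31 19 241)) (.l1 .sk)) (.l1 .sk)) (.nx 334 26009 (.lg 0
  false 2 97 101 23 0 159120) (.nr 337 65537 (.nr 335 1025 (.lg 0 true 1 71 71 19 0 79560) (.nx 336
  165142 (.lg 2 false 1 83 83 19 61744 79560) .out)) .out)))) .out) .out) (.nx 351 1321124 (.nr 350
  1482912 (.nr 341 207 .s1 (.nx 344 222 (.nx 343 221 (.nr 342 2221 (.l1 (.ls 19 19 238)) (.l1 .sk))
  (.l1 .sk)) (.nx 346 26009 (.lg 0 false 2 97 97 19 0 31824) (.nr 349 65537 (.nr 347 1025 (.lg 0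
  true 1 71 71 19 0 15912) (.nx 348 165142 (.lg 2 false 1 79 79 19 61744 15912) .out)) .out))))
  .out) .out)) (.na 365 214 (.nx 364 1321124 (.nr 363 1482912 (.nr 353 211 .s1 (.nx 356 222 (.nx
  355 221 (.nr 354 2253 (.l1 (.ls 23 17 234)) (.l1 .sk)) (.l1 .sk)) (.nx 359 41287 (.lg 0 false 3
  83 83 17 0 79560) (.nr 362 16385 (.nr 360 1025 (.lg 0 false 1 67 67 16 0 79560) (.nx 361 165142
  (.lg 2 false 1 59 59 16 17804 15912) .out)) .out)))) .out) .out) (.na 378 218 (.nx 377 1321124
  (.nr 376 1482912 (.nr 366 214 .s1 (.nx 372 41287 (.nx 368 221 (.nr 367 2295 (.l1 (.ls 29 29 231))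
  (.l1 .sk)) (.nx 369 222 (.l1 .sk) (.lg 0 false 3 83 83 29 0 31824))) (.nr 375 16385 (.nr 373 1025
  (.lg 0 false 1 67 67 23 0 159120) (.nx 374 165142 (.lg 2 false 1 59 59 23 17804 159120) .out))
  .out))) .out) .out) (.nx 390 1321124 (.nr 389 1482912 (.nr 379 218 .s1 (.nx 385 41287 (.nx 381
  221 (.nr 380 2326 (.l1 (.ls 29 29 227)) (.l1 .sk)) (.nx 382 222 (.l1 .sk) (.lg 0 false 3 89 89 29
  0 31824))) (.nr 388 16385 (.nr 386 1025 (.lg 0 false 1 71 71 23 0 159120) (.nx 387 165142 (.lg 2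
  true 1 59 59 23 17804 31824) .out)) .out))) .out) .out))))))) (.na 1438 512 (.na 479 239 (.na 441
  227 (.na 416 223 (.na 404 222 (.nx 403 1321124 (.nr 402 1482912 (.nr 392 221 .s1 (.nx 395 222
  (.nx 394 221 (.nr 393 2337 (.l1 (.ls 16 23 223)) (.l1 .sk)) (.l1 .sk)) (.nx 398 41287 (.lg 0 true
  3 73 73 23 0 79560) (.nr 401 16385 (.lg 0 false 3 71 71 23 0 79560) .out)))) .out) .out) (.nx 415
  1321124 (.nr 414 1482912 (.nr 405 222 .s1 (.nx 408 222 (.nx 407 221 (.nr 406 2347 (.l1 (.ls 31 31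
  223)) (.l1 .sk)) (.l1 .sk)) (.nx 410 26009 (.lg 0 false 2 97 97 31 0 31824) (.nr 413 65537 (.nr
  411 1025 (.lg 0 true 1 71 71 31 0 31824) (.nx 412 165142 (.lg 2 false 1 83 83 31 61744 31824)
  .out)) .out)))) .out) .out)) (.na 429 225 (.nx 428 1321124 (.nr 427 1482912 (.nr 417 223 .s1 (.nx
  420 222 (.nx 419 221 (.nr 418 2368 (.l1 (.ls 23 17 222)) (.l1 .sk)) (.l1 .sk)) (.nx 423 41287
  (.lg 0 false 3 83 83 19 0 15912) (.nr 426 16385 (.nr 424 1025 (.lg 0 false 1 67 67 16 0 79560)
  (.nx 425 165142 (.lg 2 false 1 59 59 16 17804 15912) .out)) .out)))) .out) .out) (.nx 440 1321124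
  (.nr 439 1482912 (.nr 430 225 .s1 (.nx 432 221 (.nr 431 2389 (.l1 (.ls 31 23 220)) (.l1 .sk))
  (.nx 433 222 (.l1 .sk) (.nx 435 26009 (.lg 0 false 2 89 97 29 0 159120) (.nr 438 65537 (.nr 436
  1025 (.lg 0 true 1 67 67 23 0 79560) (.nx 437 165142 (.lg 2 false 1 79 79 23 61744 79560) .out))
  .out))))) .out) .out))) (.na 454 234 (.na 442 230 (.lg 0 false 1 0 0 16 0 24) (.nx 453 1321124
  (.nr 452 1482912 (.nr 443 230 .s1 (.nx 446 222 (.nx 445 221 (.nr 444 2463 (.l1 (.ls 19 31 215))
  (.l1 .sk)) (.l1 .sk)) (.nx 448 26009 (.lg 0 false 2 97 97 37 0 159120) (.nr 451 65537 (.nr 449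
  1025 (.lg 0 true 1 71 71 31 0 159120) (.nx 450 165142 (.lg 2 true 1 83 83 31 61744 159120) .out))
  .out)))) .out) .out)) (.na 467 237 (.nx 466 1321124 (.nr 465 1482912 (.nr 455 234 .s1 (.nx 457
  221 (.nr 456 2495 (.l1 (.ls 23 37 211)) (.l1 .sk)) (.nx 458 222 (.l1 .sk) (.nx 461 41287 (.lg 0
  false 3 83 83 37 0 159120) (.nr 464 16385 (.nr 462 1025 (.lg 0 false 1 67 67 31 0 159120) (.nx
  463 165142 (.lg 2 false 1 59 59 31 17804 159120) .out)) .out))))) .out) .out) (.nx 478 1321124
  (.nr 477 1482912 (.nr 468 237 .s1 (.nx 470 221 (.nr 469 2516 (.l1 (.ls 29 23 209)) (.l1 .sk))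
  (.nx 471 222 (.l1 .sk) (.nx 473 26009 (.lg 0 false 2 97 97 23 0 31824) (.nr 476 65537 (.nr 474
  1025 (.lg 0 true 1 61 61 19 0 15912) (.nx 475 165142 (.lg 2 true 1 73 73 19 61744 15912) .out))
  .out))))) .out) .out)))) (.na 528 250 (.na 503 243 (.na 490 241 (.nx 489 1321124 (.nr 488 1482912
  (.nr 480 239 .s1 (.nx 483 222 (.nx 482 221 (.nr 481 2537 (.l1 (.ls 23 17 207)) (.l1 .sk)) (.l1
  .sk)) (.nx 486 41287 (.lg 0 false 3 83 83 19 0 79560) (.nr 487 16385 (.lg 0 false 1 83 83 17 0
  79560) .out)))) .out) .out) (.nx 502 1321124 (.nr 501 1482912 (.nr 491 241 .s1 (.nx 497 41287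
  (.nx 493 221 (.nr 492 2558 (.l1 (.ls 23 17 205)) (.l1 .sk)) (.nx 494 222 (.l1 .sk) (.lg 0 false 3
  83 83 19 0 79560))) (.nr 500 16385 (.nr 498 1025 (.lg 0 false 1 61 61 17 0 15912) (.nx 499 165142
  (.lg 2 true 1 53 53 17 17804 15912) .out)) .out))) .out) .out)) (.na 516 246 (.nx 515 1321124
  (.nr 514 1482912 (.nr 504 243 .s1 (.nx 510 41287 (.nx 506 221 (.nr 505 2589 (.l1 (.ls 19 23 203))
  (.l1 .sk)) (.nx 507 222 (.l1 .sk) (.lg 0 false 3 79 79 23 0 15912))) (.nr 513 16385 (.nr 511 1025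
  (.lg 0 false 1 61 61 19 0 79560) (.nx 512 165142 (.lg 2 false 1 53 53 19 17804 15912) .out))
  .out))) .out) .out) (.nx 527 1321124 (.nr 526 1482912 (.nr 517 246 .s1 (.nx 520 222 (.nx 519 221
  (.nr 518 2631 (.l1 (.ls 37 31 201)) (.l1 .sk)) (.l1 .sk)) (.nx 522 26009 (.lg 0 false 2 97 97 31
  0 159120) (.nr 525 65537 (.nx 523 165142 (.lg 0 false 1 89 89 31 0 31824) (.nr 524 1025 (.lg 0
  true 1 71 71 31 0 31824) .out)) .out)))) .out) .out))) (.na 553 256 (.na 541 255 (.nx 540 1321124
  (.nr 539 1482912 (.nr 529 250 .s1 (.nx 532 222 (.nx 531 221 (.nr 530 2684 (.l1 (.ls 29 29 198))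
  (.l1 .sk)) (.l1 .sk)) (.nx 535 41287 (.lg 0 false 3 83 83 31 0 159120) (.nr 538 16385 (.nr 536
  1025 (.lg 0 false 1 67 67 29 0 159120) (.nx 537 165142 (.lg 2 false 1 59 59 29 17804 159120)
  .out)) .out)))) .out) .out) (.nx 552 1321124 (.nr 551 1482912 (.nr 542 255 .s1 (.nx 544 221 (.nr
  543 2695 (.l1 (.ls 31 29 194)) (.l1 .sk)) (.nx 545 222 (.l1 .sk) (.nx 547 26009 (.lg 0 false 2 89
  89 31 0 159120) (.nr 550 65537 (.nr 548 1025 (.lg 0 true 1 67 67 29 0 79560) (.nx 549 165142 (.lg
  2 false 1 73 73 29 61744 79560) .out)) .out))))) .out) .out)) (.na 554 257 .ne (.na 985 363 (.nx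
  984 1321124 (.nr 983 1482912 (.nr 555 257 .s1 (.nx 663 222 (.nx 662 221 (.nr 661 3821 (.la (.ls
  37 19 193)) (.l1 .sk)) (.l1 .sk)) (.nx 769 26009 (.la (.lg 0 false 2 83 83 23 0)) (.nr 982 32769
  (.nr 875 2049 (.la (.lg 0 true 1 67 67 23 0)) (.nx 981 165142 (.la (.lg 2 false 1 67 67 23
  30976)) .out)) .out)))) .out) .out) (.nx 1437 1321124 (.nr 1436 1482912 (.nr 986 363 .s1 (.nx
  1286 26009 (.nx 1136 221 (.nr 1135 5389 (.la (.ls 37 19 137)) (.l1 .sk)) (.nx 1137 222 (.l1 .sk)
  (.la (.lg 0 true 1 83 83 23 0)))) (.nr 1435 32769 (.la (.lg 2 false 1 73 73 23 402161)) .out)))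
  .out) .out)))))) (.na 11309 8192 (.na 4748 2048 (.na 2692 1024 (.na 2090 725 (.nx 2089 1321124
  (.nr 2088 1482912 (.nr 1439 512 .s1 (.nx 1661 222 (.nx 1660 221 (.nr 1659 7630 (.lx (.lp 41 19
  182)) (.l1 .sk)) (.l1 .sk)) (.nx 1874 26009 (.la (.lg 0 false 1 73 73 29 0)) (.nr 2087 32769 (.la
  (.lg 2 true 1 71 71 29 285126)) .out)))) .out) .out) (.nx 2691 20644 (.nr 2690 2097153 (.nr 2091
  725 .s1 (.nx 2390 2049 (.la (.ls 71 41 5793)) (.nr 2689 262145 (.la (.lg 0 false 1 61 61 29 0))
  .out))) .out) .out)) (.na 3546 1449 (.nx 3545 20644 (.nr 3544 2097153 (.nr 2693 1024 .s1 (.nx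
  3118 3252 (.la (.ls 71 41 10330)) (.nr 3543 131073 (.la (.lg 0 false 1 53 53 31 0)) .out))) .out)
  .out) (.nx 4747 13005 (.nr 4746 2097153 (.nr 3547 1449 .s1 (.nx 4146 3252 (.la (.ls 71 41 7301))
  (.nr 4745 16385 (.la (.lg 0 false 1 31 31 31 0)) .out))) .out) .out))) (.na 6802 4096 (.na 5600
  2897 (.nx 5599 13005 (.nr 5598 2097153 (.nr 4749 2048 .s1 (.la (.ls 67 53 82586))) .out) .out)
  (.nx 6801 4097 (.nr 6800 1048577 (.nr 5601 2897 .s1 (.la (.ls 61 41 5797))) .out) .out)) (.na
  8502 5793 (.nx 8501 5162 (.nr 8500 1048577 (.nr 6803 4096 .s1 (.la (.ls 59 41 6508))) .out) .out)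
  (.nx 11308 2049 (.nr 11307 524289 (.nr 8503 5793 .s1 (.nx 8908 406 (.lx (.lp 53 37 2049)) (.la
  (.ls 53 37 2049)))) .out) .out)))) (.na 19518 65536 (.na 15414 16384 (.na 13363 11586 (.nx 13362
  2049 (.nr 13361 524289 (.nr 11310 8192 .s1 (.nx 12603 1292 (.nx 11531 221 (.nr 11530 121929 (.lx
  (.lp 41 41 2897)) (.l1 .sk)) (.nx 11532 222 (.l1 .sk) (.nx 12335 1025 (.lx (.lp 53 41 2897)) (.nr
  12602 262145 (.lx (.lp 43 41 2897)) .out)))) (.nr 13360 131073 (.lx (.lp 41 41 2897)) .out)))
  .out) .out) (.nx 15413 2049 (.nr 15412 131073 (.nr 13364 11586 .s1 (.lx (.lp 41 41 4097))) .out)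
  .out)) (.na 17466 32768 (.nx 17465 2049 (.nr 17464 262145 (.nr 15415 16384 .s1 (.nx 15738 324
  (.lx (.lp 16 37 8193)) (.nr 17463 131073 (.lx (.lp 37 43 8193)) .out))) .out) .out) (.nx 19517
  2049 (.nr 19516 524289 (.nr 17467 32768 .s1 (.nx 17790 324 (.lx (.lp 16 0 16385)) (.nr 19515
  262145 (.lx (.lp 37 47 16385)) .out))) .out) .out))) (.na 22778 262144 (.na 21148 131072 (.nx
  21147 1627 (.nr 21146 524289 (.nr 19519 65536 .s1 (.nx 19842 324 (.lx (.lp 16 0 32769)) (.nr
  21145 262145 (.lx (.lp 37 53 32769)) .out))) .out) .out) (.nx 22777 1627 (.nr 22776 524289 (.nr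
  21149 131072 .s1 (.nx 21661 513 (.lx (.lp 16 0 65537)) (.nr 22775 262145 (.lx (.lp 31 59 65537))
  .out))) .out) .out)) (.na 23293 524288 (.nx 23292 513 (.nr 23291 1048577 (.nr 22779 262144 .s1
  (.lx (.lp 16 0 131073))) .out) .out) (.na 23295 1048577 (.nx 23294 324 (.l1 .sk) .out)
  .out)))))))

def T46_2 : Ph :=
  (.na 325 257 (.na 272 122 (.na 225 86 (.na 207 3 (.na 1 2 .ne (.nx 206 3329023 (.nr 205 623489
  (.nx 4 164 (.nx 3 163 (.nr 2 24 (.lg 0 true 1 37 37 5 0 240) (.l1 .sk)) (.l1 .sk)) (.nr 193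
  131073 (.nx 37 26009 (.lg 0 false 33 101 107 13 0 720720) (.nr 192 110219 (.nr 89 450 (.nx 70
  1664512 (.lg 0 true 33 89 89 13 0 7920) (.nr 88 9 (.lg 0 true 18 67 67 9 0 144) .out)) (.nx 191
  416129 (.nx 122 44591 (.lg 1 false 33 97 103 13 56381 720720) (.nr 190 92683 (.nx 155 82572 (.lg
  1 true 33 97 103 13 27661 720720) (.nr 189 77937 (.nr 166 2437 (.lg 2 true 11 89 89 9 75366
  18480) (.nx 188 330282 (.lg 2 false 22 97 103 11 12566 240240) .out)) .out)) .out)) .out)) .out))
  (.nx 204 257 (.lg 0 false 11 73 73 9 0 528) .out))) .out) .out)) (.na 208 82 .ne (.nx 224 1664512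
  (.nr 223 524289 (.nr 209 82 .s1 (.nx 219 104033 (.nr 213 32769 (.nx 210 4778 (.l1 (.ls 53 71
  278408)) (.lg 0 false 3 71 71 19 0 144)) (.nx 215 164 (.nx 214 163 (.l1 .sk) (.l1 .sk)) (.nx 218
  20644 (.lg 0 false 3 83 83 19 0 144) .out))) (.nr 222 513 (.lg 0 true 3 67 67 19 0 144) .out)))
  .out) .out))) (.na 240 94 (.na 239 91 (.nx 238 1664512 (.nr 237 524289 (.nr 226 86 .s1 (.nx 228
  163 (.nr 227 823 (.l1 (.ls 16 29 311)) (.l1 .sk)) (.nx 229 164 (.l1 .sk) (.nx 232 20644 (.lg 0
  false 3 79 79 19 0 144) (.nr 236 32769 (.nr 234 513 (.lg 0 true 2 59 59 19 0 48) (.nx 235 104033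
  (.lg 2 true 1 71 71 13 21193 48) .out)) .out))))) .out) .out) .ne) (.na 256 106 (.nx 255 1664512
  (.nr 254 1048577 (.nr 241 94 .s1 (.nx 249 20644 (.nx 243 163 (.nr 242 959 (.l1 (.ls 16 29 285))
  (.l1 .sk)) (.nx 244 164 (.l1 .sk) (.lg 0 false 5 79 79 23 0 240))) (.nr 253 32769 (.nr 251 513
  (.lg 0 true 2 59 59 19 0 48) (.nx 252 104033 (.lg 2 true 1 67 67 17 21193 48) .out)) .out)))
  .out) .out) (.nx 271 1664512 (.nr 270 1048577 (.nr 257 106 .s1 (.nx 259 163 (.nr 258 1104 (.l1
  (.ls 16 23 253)) (.l1 .sk)) (.nx 260 164 (.l1 .sk) (.nx 265 20644 (.lg 0 false 5 79 79 23 0 240)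
  (.nr 269 32769 (.nr 267 513 (.lg 0 true 2 59 59 19 0 48) (.nx 268 104033 (.lg 2 true 1 67 67 19
  21193 48) .out)) .out))))) .out) .out)))) (.na 306 182 (.na 286 142 (.na 285 128 (.nx 284 1664512
  (.nr 283 1048577 (.nr 273 122 .s1 (.nx 276 164 (.nx 275 163 (.nr 274 1158 (.l1 (.ls 16 23 220))
  (.l1 .sk)) (.l1 .sk)) (.nx 279 20644 (.lg 0 false 3 83 83 23 0 720) (.nr 282 32769 (.nr 280 513
  (.lg 0 false 1 67 67 19 0 240) (.nx 281 104033 (.lg 2 true 1 67 67 19 21193 48) .out)) .out))))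
  .out) .out) .ne) (.na 297 166 (.nx 296 832257 (.nr 295 1048577 (.nr 287 142 .s1 (.nx 291 13285
  (.nx 288 257 (.l1 (.ls 67 29 468)) (.nr 290 741457 (.lg 0 false 2 73 73 23 0 48) .out)) (.nr 294
  16385 (.nr 292 1025 (.lg 0 false 1 61 61 19 0 240) (.nx 293 104033 (.lg 2 true 1 53 53 19 16548
  48) .out)) .out))) .out) .out) (.nx 305 832257 (.nr 304 1048577 (.nr 298 166 .s1 (.nx 299 257
  (.l1 (.ls 59 29 400)) (.nr 303 741457 (.nr 301 16385 (.lg 0 true 2 71 71 23 0 48) (.nx 302 13005
  (.lg 0 true 1 73 73 19 0 48) .out)) .out))) .out) .out))) (.na 316 226 (.na 307 194 .ne (.nx 315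
  832257 (.nr 314 1048577 (.nr 308 194 .s1 (.nx 309 257 (.l1 (.ls 53 29 343)) (.nr 313 741457 (.nr
  311 16385 (.lg 0 true 2 67 67 23 0 48) (.nx 312 13005 (.lg 0 true 1 71 71 19 0 48) .out)) .out)))
  .out) .out)) (.na 324 256 (.nx 323 832257 (.nr 322 1048577 (.nr 317 226 .s1 (.nx 318 257 (.l1
  (.ls 59 29 295)) (.nr 321 741457 (.nr 319 16385 (.lg 0 false 1 73 73 23 0 144) (.nx 320 13005
  (.lg 0 true 1 71 71 23 0 144) .out)) .out))) .out) .out) .ne)))) (.na 6611 5793 (.na 2255 1449
  (.na 1525 725 (.na 1095 512 (.nx 1094 832257 (.nr 1093 1482912 (.nr 326 257 .s1 (.nx 581 205 (.la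
  (.ls 71 19 166)) (.nr 1092 1048577 (.nr 836 32769 (.la (.lg 0 true 2 67 67 23 0)) (.nx 1091 10323
  (.la (.lg 0 true 1 67 67 19 0)) .out)) .out))) .out) .out) (.nx 1524 832257 (.nr 1523 1482912
  (.nr 1096 512 .s1 (.nx 1309 10323 (.la (.ls 59 53 208136)) (.nr 1522 32769 (.la (.lg 0 false 1 61
  61 23 0)) .out))) .out) .out)) (.na 1827 1024 (.nx 1826 10323 (.nr 1825 1048577 (.nr 1526 725 .s1
  (.la (.ls 53 59 146988))) .out) .out) (.nx 2254 10323 (.nr 2253 1048577 (.nr 1828 1024 .s1 (.la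
  (.ls 47 53 104069))) .out) .out))) (.na 3709 2897 (.na 2857 2048 (.nx 2856 2582 (.nr 2855 524289
  (.nr 2256 1449 .s1 (.la (.ls 53 37 4603))) .out) .out) (.nx 3708 3252 (.nr 3707 524289 (.nr 2858
  2048 .s1 (.la (.ls 47 41 5166))) .out) .out)) (.na 4911 4096 (.nx 4910 2582 (.nr 4909 262145 (.nr
  3710 2897 .s1 (.la (.ls 43 37 2304))) .out) .out) (.nx 6610 2582 (.nr 6609 262145 (.nr 4912 4096
  .s1 (.la (.ls 41 37 1630))) .out) .out)))) (.na 12628 65536 (.na 10307 16384 (.na 9013 8192 (.nx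
  9012 1292 (.nr 9011 65537 (.nr 6612 5793 .s1 (.la (.ls 17 37 2049))) .out) .out) (.nx 10306 1292
  (.nr 10305 131073 (.nr 9014 8192 .s1 (.lx (.lp 37 37 4097))) .out) .out)) (.na 11601 32768 (.nx
  11600 1292 (.nr 11599 262145 (.nr 10308 16384 .s1 (.lx (.lp 37 41 8193))) .out) .out) (.nx 12627
  1025 (.nr 12626 262145 (.nr 11602 32768 .s1 (.lx (.lp 16 41 16385))) .out) .out))) (.na 13657
  262144 (.na 13655 131072 (.nx 13654 1025 (.nr 13653 262145 (.nr 12629 65536 .s1 (.lx (.lp 16 0
  32769))) .out) .out) (.nx 13656 324 (.l1 .sk) .out)) (.na 13659 524289 (.nx 13658 205 (.l1 .sk)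
  .out) .out)))))

theorem c46 :
    OkQ ckI L6 104 21 1099511627776 0 34359738368 1 1099511627776 ∧
    OkQ ckI L10 221 114 1099511627776 0 34359738368 1 1099511627776 ∧
    OkQ ckI L8 163 1 1099511627776 0 34359738368 1 1099511627776 := by
  refine ⟨?_, ?_, ?_⟩
  · refine fin 936 7716 T46_0 ?_
    refine jn 4 (by decide +kernel) ?_
    refine jn 5 (by decide +kernel) ?_
    refine jn 6 (by decide +kernel) ?_
    refine jn 7 (by decide +kernel) ?_
    refine jn 8 (by decide +kernel) ?_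
    refine jn 9 (by decide +kernel) ?_
    refine jn 12 (by decide +kernel) ?_
    refine jn 13 (by decide +kernel) ?_
    refine jn 14 (by decide +kernel) ?_
    refine jn 15 (by decide +kernel) ?_
    refine jn 18 (by decide +kernel) ?_
    refine jn 19 (by decide +kernel) ?_
    refine jn 29 (by decide +kernel) ?_
    refine jn 30 (by decide +kernel) ?_
    refine jn 31 (by decide +kernel) ?_
    refine jn 32 (by decide +kernel) ?_
    refine jn 33 (by decide +kernel) ?_
    refine jn 34 (by decide +kernel) ?_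
    refine jn 35 (by decide +kernel) ?_
    refine jn 36 (by decide +kernel) ?_
    refine jn 37 (by decide +kernel) ?_
    refine jn 40 (by decide +kernel) ?_
    refine jn 45 (by decide +kernel) ?_
    refine jn 51 (by decide +kernel) ?_
    refine jn 59 (by decide +kernel) ?_
    refine jn 62 (by decide +kernel) ?_
    refine jn 69 (by decide +kernel) ?_
    refine jn 80 (by decide +kernel) ?_
    refine jn 81 (by decide +kernel) ?_
    refine jn 82 (by decide +kernel) ?_
    refine jn 83 (by decide +kernel) ?_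
    refine jn 84 (by decide +kernel) ?_
    refine jn 85 (by decide +kernel) ?_
    refine jn 86 (by decide +kernel) ?_
    refine jn 87 (by decide +kernel) ?_
    refine jn 88 (by decide +kernel) ?_
    refine jn 89 (by decide +kernel) ?_
    refine jn 90 (by decide +kernel) ?_
    refine jn 91 (by decide +kernel) ?_
    refine jn 96 (by decide +kernel) ?_
    refine jn 105 (by decide +kernel) ?_
    refine jn 106 (by decide +kernel) ?_
    refine jn 107 (by decide +kernel) ?_
    refine jn 108 (by decide +kernel) ?_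
    refine jn 109 (by decide +kernel) ?_
    refine jn 110 (by decide +kernel) ?_
    refine jn 111 (by decide +kernel) ?_
    refine jn 113 (by decide +kernel) ?_
    refine jn 127 (by decide +kernel) ?_
    refine jn 133 (by decide +kernel) ?_
    refine jn 144 (by decide +kernel) ?_
    refine jn 145 (by decide +kernel) ?_
    refine jn 146 (by decide +kernel) ?_
    refine jn 147 (by decide +kernel) ?_
    refine jn 148 (by decide +kernel) ?_
    refine jn 149 (by decide +kernel) ?_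
    refine jn 150 (by decide +kernel) ?_
    refine jn 151 (by decide +kernel) ?_
    refine jn 161 (by decide +kernel) ?_
    refine jn 162 (by decide +kernel) ?_
    refine jn 163 (by decide +kernel) ?_
    refine jn 164 (by decide +kernel) ?_
    refine jn 166 (by decide +kernel) ?_
    refine jn 167 (by decide +kernel) ?_
    refine jn 169 (by decide +kernel) ?_
    refine jn 181 (by decide +kernel) ?_
    refine jn 185 (by decide +kernel) ?_
    refine jn 198 (by decide +kernel) ?_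
    refine jn 202 (by decide +kernel) ?_
    refine jn 211 (by decide +kernel) ?_
    refine jn 212 (by decide +kernel) ?_
    refine jn 213 (by decide +kernel) ?_
    refine jn 215 (by decide +kernel) ?_
    refine jn 216 (by decide +kernel) ?_
    refine jn 217 (by decide +kernel) ?_
    refine jn 230 (by decide +kernel) ?_
    refine jn 234 (by decide +kernel) ?_
    refine jn 242 (by decide +kernel) ?_
    refine jn 243 (by decide +kernel) ?_
    refine jn 244 (by decide +kernel) ?_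
    refine jn 246 (by decide +kernel) ?_
    refine jn 247 (by decide +kernel) ?_
    refine jn 249 (by decide +kernel) ?_
    refine jn 265 (by decide +kernel) ?_
    refine jn 277 (by decide +kernel) ?_
    refine jn 281 (by decide +kernel) ?_
    refine jn 289 (by decide +kernel) ?_
    refine jn 290 (by decide +kernel) ?_
    refine jn 291 (by decide +kernel) ?_
    refine jn 293 (by decide +kernel) ?_
    refine jn 305 (by decide +kernel) ?_
    refine jn 309 (by decide +kernel) ?_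
    refine jn 317 (by decide +kernel) ?_
    refine jn 319 (by decide +kernel) ?_
    refine jn 321 (by decide +kernel) ?_
    refine jn 327 (by decide +kernel) ?_
    refine jn 330 (by decide +kernel) ?_
    refine jn 331 (by decide +kernel) ?_
    refine jn 333 (by decide +kernel) ?_
    refine jn 334 (by decide +kernel) ?_
    refine jn 335 (by decide +kernel) ?_
    refine jn 345 (by decide +kernel) ?_
    refine jn 349 (by decide +kernel) ?_
    refine jn 363 (by decide +kernel) ?_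
    refine jn 370 (by decide +kernel) ?_
    refine jn 372 (by decide +kernel) ?_
    refine jn 377 (by decide +kernel) ?_
    refine jn 391 (by decide +kernel) ?_
    refine jn 402 (by decide +kernel) ?_
    refine jn 404 (by decide +kernel) ?_
    refine jn 413 (by decide +kernel) ?_
    refine jn 415 (by decide +kernel) ?_
    refine jn 417 (by decide +kernel) ?_
    refine jn 427 (by decide +kernel) ?_
    refine jn 436 (by decide +kernel) ?_
    refine jn 439 (by decide +kernel) ?_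
    refine jn 440 (by decide +kernel) ?_
    refine jn 441 (by decide +kernel) ?_
    refine jn 443 (by decide +kernel) ?_
    refine jn 452 (by decide +kernel) ?_
    refine jn 455 (by decide +kernel) ?_
    refine jn 466 (by decide +kernel) ?_
    refine jn 476 (by decide +kernel) ?_
    refine jn 479 (by decide +kernel) ?_
    refine jn 489 (by decide +kernel) ?_
    refine jn 492 (by decide +kernel) ?_
    refine jn 503 (by decide +kernel) ?_
    refine jn 511 (by decide +kernel) ?_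
    refine jn 512 (by decide +kernel) ?_
    refine jn 513 (by decide +kernel) ?_
    refine jn 515 (by decide +kernel) ?_
    refine jn 525 (by decide +kernel) ?_
    refine jn 536 (by decide +kernel) ?_
    refine jn 547 (by decide +kernel) ?_
    refine jn 557 (by decide +kernel) ?_
    refine jn 560 (by decide +kernel) ?_
    refine jn 571 (by decide +kernel) ?_
    refine jn 582 (by decide +kernel) ?_
    refine jn 592 (by decide +kernel) ?_
    refine jn 601 (by decide +kernel) ?_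
    refine jn 602 (by decide +kernel) ?_
    refine jn 605 (by decide +kernel) ?_
    refine jn 614 (by decide +kernel) ?_
    refine jn 625 (by decide +kernel) ?_
    refine jn 636 (by decide +kernel) ?_
    refine jn 645 (by decide +kernel) ?_
    refine jn 654 (by decide +kernel) ?_
    refine jn 662 (by decide +kernel) ?_
    refine jn 673 (by decide +kernel) ?_
    refine jn 681 (by decide +kernel) ?_
    refine jn 685 (by decide +kernel) ?_
    refine jn 693 (by decide +kernel) ?_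
    refine jn 702 (by decide +kernel) ?_
    refine jn 710 (by decide +kernel) ?_
    refine jn 726 (by decide +kernel) ?_
    refine jn 734 (by decide +kernel) ?_
    refine jn 742 (by decide +kernel) ?_
    refine jn 750 (by decide +kernel) ?_
    refine jn 765 (by decide +kernel) ?_
    refine jn 767 (by decide +kernel) ?_
    refine jn 769 (by decide +kernel) ?_
    refine jn 777 (by decide +kernel) ?_
    refine jn 786 (by decide +kernel) ?_
    refine jn 800 (by decide +kernel) ?_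
    refine jn 801 (by decide +kernel) ?_
    refine jn 810 (by decide +kernel) ?_
    refine jn 819 (by decide +kernel) ?_
    refine jn 827 (by decide +kernel) ?_
    refine jn 837 (by decide +kernel) ?_
    refine jn 845 (by decide +kernel) ?_
    refine jn 861 (by decide +kernel) ?_
    refine jn 868 (by decide +kernel) ?_
    refine jn 869 (by decide +kernel) ?_
    refine jn 878 (by decide +kernel) ?_
    refine jn 886 (by decide +kernel) ?_
    refine jn 894 (by decide +kernel) ?_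
    refine jn 902 (by decide +kernel) ?_
    refine jn 910 (by decide +kernel) ?_
    refine jn 926 (by decide +kernel) ?_
    refine jn 934 (by decide +kernel) ?_
    refine jn 951 (by decide +kernel) ?_
    refine jn 964 (by decide +kernel) ?_
    refine jn 976 (by decide +kernel) ?_
    refine jn 989 (by decide +kernel) ?_
    refine jn 997 (by decide +kernel) ?_
    refine jn 1006 (by decide +kernel) ?_
    refine jn 1008 (by decide +kernel) ?_
    refine jn 1015 (by decide +kernel) ?_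
    refine jn 1025 (by decide +kernel) ?_
    refine jn 1049 (by decide +kernel) ?_
    refine jn 1077 (by decide +kernel) ?_
    refine jn 1092 (by decide +kernel) ?_
    refine jn 1109 (by decide +kernel) ?_
    refine jn 1125 (by decide +kernel) ?_
    refine jn 1152 (by decide +kernel) ?_
    refine jn 1184 (by decide +kernel) ?_
    refine jn 1193 (by decide +kernel) ?_
    refine jn 1218 (by decide +kernel) ?_
    refine jn 1241 (by decide +kernel) ?_
    refine jn 1274 (by decide +kernel) ?_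
    refine jn 1280 (by decide +kernel) ?_
    refine jn 1293 (by decide +kernel) ?_
    refine jn 1300 (by decide +kernel) ?_
    refine jn 1301 (by decide +kernel) ?_
    refine jn 1309 (by decide +kernel) ?_
    refine jn 1316 (by decide +kernel) ?_
    refine jn 1320 (by decide +kernel) ?_
    refine jn 1321 (by decide +kernel) ?_
    refine jn 1333 (by decide +kernel) ?_
    refine jn 1335 (by decide +kernel) ?_
    refine jn 1337 (by decide +kernel) ?_
    refine jn 1344 (by decide +kernel) ?_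
    refine jn 1347 (by decide +kernel) ?_
    refine jn 1353 (by decide +kernel) ?_
    refine jn 1359 (by decide +kernel) ?_
    refine jn 1360 (by decide +kernel) ?_
    refine jn 1363 (by decide +kernel) ?_
    refine jn 1367 (by decide +kernel) ?_
    refine jn 1375 (by decide +kernel) ?_
    refine jn 1377 (by decide +kernel) ?_
    refine jn 1379 (by decide +kernel) ?_
    refine jn 1380 (by decide +kernel) ?_
    refine jn 1384 (by decide +kernel) ?_
    refine jn 1392 (by decide +kernel) ?_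
    refine jn 1395 (by decide +kernel) ?_
    refine jn 1403 (by decide +kernel) ?_
    refine jn 1412 (by decide +kernel) ?_
    refine jn 1417 (by decide +kernel) ?_
    refine jn 1425 (by decide +kernel) ?_
    refine jn 1428 (by decide +kernel) ?_
    refine jn 1437 (by decide +kernel) ?_
    refine jn 1440 (by decide +kernel) ?_
    refine jn 1441 (by decide +kernel) ?_
    refine jn 1445 (by decide +kernel) ?_
    refine jn 1451 (by decide +kernel) ?_
    refine jn 1456 (by decide +kernel) ?_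
    refine jn 1463 (by decide +kernel) ?_
    refine jn 1464 (by decide +kernel) ?_
    refine jn 1467 (by decide +kernel) ?_
    refine jn 1473 (by decide +kernel) ?_
    refine jn 1479 (by decide +kernel) ?_
    refine jn 1483 (by decide +kernel) ?_
    refine jn 1485 (by decide +kernel) ?_
    refine jn 1487 (by decide +kernel) ?_
    refine jn 1496 (by decide +kernel) ?_
    refine jn 1499 (by decide +kernel) ?_
    refine jn 1511 (by decide +kernel) ?_
    refine jn 1520 (by decide +kernel) ?_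
    refine jn 1524 (by decide +kernel) ?_
    refine jn 1529 (by decide +kernel) ?_
    refine jn 1549 (by decide +kernel) ?_
    refine jn 1579 (by decide +kernel) ?_
    refine jn 1601 (by decide +kernel) ?_
    refine jn 1635 (by decide +kernel) ?_
    refine jn 1669 (by decide +kernel) ?_
    refine jn 1700 (by decide +kernel) ?_
    refine jn 1749 (by decide +kernel) ?_
    refine jn 1757 (by decide +kernel) ?_
    refine jn 1761 (by decide +kernel) ?_
    refine jn 1762 (by decide +kernel) ?_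
    refine jn 1764 (by decide +kernel) ?_
    refine jn 1774 (by decide +kernel) ?_
    refine jn 1777 (by decide +kernel) ?_
    refine jn 1778 (by decide +kernel) ?_
    refine jn 1792 (by decide +kernel) ?_
    refine jn 1793 (by decide +kernel) ?_
    refine jn 1800 (by decide +kernel) ?_
    refine jn 1801 (by decide +kernel) ?_
    refine jn 1802 (by decide +kernel) ?_
    refine jn 1805 (by decide +kernel) ?_
    refine jn 1822 (by decide +kernel) ?_
    refine jn 1825 (by decide +kernel) ?_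
    refine jn 1828 (by decide +kernel) ?_
    refine jn 1832 (by decide +kernel) ?_
    refine jn 1833 (by decide +kernel) ?_
    refine jn 1837 (by decide +kernel) ?_
    refine jn 1841 (by decide +kernel) ?_
    refine jn 1849 (by decide +kernel) ?_
    refine jn 1850 (by decide +kernel) ?_
    refine jn 1857 (by decide +kernel) ?_
    refine jn 1862 (by decide +kernel) ?_
    refine jn 1870 (by decide +kernel) ?_
    refine jn 1878 (by decide +kernel) ?_
    refine jn 1882 (by decide +kernel) ?_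
    refine jn 1885 (by decide +kernel) ?_
    refine jn 1888 (by decide +kernel) ?_
    refine jn 1892 (by decide +kernel) ?_
    refine jn 1900 (by decide +kernel) ?_
    refine jn 1906 (by decide +kernel) ?_
    refine jn 1917 (by decide +kernel) ?_
    refine jn 1924 (by decide +kernel) ?_
    refine jn 1936 (by decide +kernel) ?_
    refine jn 1937 (by decide +kernel) ?_
    refine jn 1942 (by decide +kernel) ?_
    refine jn 1953 (by decide +kernel) ?_
    refine jn 1972 (by decide +kernel) ?_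
    refine jn 1984 (by decide +kernel) ?_
    refine jn 1996 (by decide +kernel) ?_
    refine jn 2006 (by decide +kernel) ?_
    refine jn 2018 (by decide +kernel) ?_
    refine jn 2032 (by decide +kernel) ?_
    refine jn 2074 (by decide +kernel) ?_
    refine jn 2081 (by decide +kernel) ?_
    refine jn 2090 (by decide +kernel) ?_
    refine jn 2101 (by decide +kernel) ?_
    refine jn 2116 (by decide +kernel) ?_
    refine jn 2129 (by decide +kernel) ?_
    refine jn 2144 (by decide +kernel) ?_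
    refine jn 2166 (by decide +kernel) ?_
    refine jn 2182 (by decide +kernel) ?_
    refine jn 2200 (by decide +kernel) ?_
    refine jn 2221 (by decide +kernel) ?_
    refine jn 2240 (by decide +kernel) ?_
    refine jn 2261 (by decide +kernel) ?_
    refine jn 2360 (by decide +kernel) ?_
    refine jn 2392 (by decide +kernel) ?_
    refine jn 2414 (by decide +kernel) ?_
    refine jn 2433 (by decide +kernel) ?_
    refine jn 2454 (by decide +kernel) ?_
    refine jn 2477 (by decide +kernel) ?_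
    refine jn 2505 (by decide +kernel) ?_
    refine jn 2525 (by decide +kernel) ?_
    refine jn 2553 (by decide +kernel) ?_
    refine jn 2574 (by decide +kernel) ?_
    refine jn 2604 (by decide +kernel) ?_
    refine jn 2618 (by decide +kernel) ?_
    refine jn 2644 (by decide +kernel) ?_
    refine jn 2668 (by decide +kernel) ?_
    refine jn 2704 (by decide +kernel) ?_
    refine jn 2726 (by decide +kernel) ?_
    refine jn 2749 (by decide +kernel) ?_
    refine jn 2777 (by decide +kernel) ?_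
    refine jn 2794 (by decide +kernel) ?_
    refine jn 2937 (by decide +kernel) ?_
    refine jn 2984 (by decide +kernel) ?_
    refine jn 3029 (by decide +kernel) ?_
    refine jn 3068 (by decide +kernel) ?_
    refine jn 3125 (by decide +kernel) ?_
    refine jn 3157 (by decide +kernel) ?_
    refine jn 3193 (by decide +kernel) ?_
    refine jn 3242 (by decide +kernel) ?_
    refine jn 3276 (by decide +kernel) ?_
    refine jn 3317 (by decide +kernel) ?_
    refine jn 3356 (by decide +kernel) ?_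
    refine jn 3410 (by decide +kernel) ?_
    refine jn 3460 (by decide +kernel) ?_
    refine jn 3500 (by decide +kernel) ?_
    refine jn 3652 (by decide +kernel) ?_
    refine jn 3696 (by decide +kernel) ?_
    refine jn 3753 (by decide +kernel) ?_
    refine jn 3797 (by decide +kernel) ?_
    refine jn 3841 (by decide +kernel) ?_
    refine jn 3896 (by decide +kernel) ?_
    refine jn 3946 (by decide +kernel) ?_
    refine jn 4009 (by decide +kernel) ?_
    refine jn 4078 (by decide +kernel) ?_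
    refine jn 4121 (by decide +kernel) ?_
    refine jn 4169 (by decide +kernel) ?_
    refine jn 4201 (by decide +kernel) ?_
    refine jn 4258 (by decide +kernel) ?_
    refine jn 4313 (by decide +kernel) ?_
    refine jn 4373 (by decide +kernel) ?_
    refine jn 4418 (by decide +kernel) ?_
    refine jn 4465 (by decide +kernel) ?_
    refine jn 4694 (by decide +kernel) ?_
    refine jn 4825 (by decide +kernel) ?_
    refine jn 4925 (by decide +kernel) ?_
    refine jn 4991 (by decide +kernel) ?_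
    refine jn 5068 (by decide +kernel) ?_
    refine jn 5188 (by decide +kernel) ?_
    refine jn 5316 (by decide +kernel) ?_
    refine jn 5388 (by decide +kernel) ?_
    refine jn 5468 (by decide +kernel) ?_
    refine jn 5532 (by decide +kernel) ?_
    refine jn 5588 (by decide +kernel) ?_
    refine jn 5640 (by decide +kernel) ?_
    refine jn 5693 (by decide +kernel) ?_
    refine jn 5743 (by decide +kernel) ?_
    refine jn 5958 (by decide +kernel) ?_
    refine jn 6038 (by decide +kernel) ?_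
    refine jn 6141 (by decide +kernel) ?_
    refine jn 6218 (by decide +kernel) ?_
    refine jn 6280 (by decide +kernel) ?_
    refine jn 6321 (by decide +kernel) ?_
    refine jn 6400 (by decide +kernel) ?_
    refine jn 6666 (by decide +kernel) ?_
    refine jn 6742 (by decide +kernel) ?_
    refine jn 6823 (by decide +kernel) ?_
    refine jn 6909 (by decide +kernel) ?_
    refine jn 6972 (by decide +kernel) ?_
    refine jn 7056 (by decide +kernel) ?_
    refine jn 7390 (by decide +kernel) ?_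
    exact je (by decide +kernel)
  · refine fin 15912 23296 T46_1 ?_
    refine jn 5 (by decide +kernel) ?_
    refine jn 8 (by decide +kernel) ?_
    refine jn 19 (by decide +kernel) ?_
    refine jn 22 (by decide +kernel) ?_
    refine jn 36 (by decide +kernel) ?_
    refine jn 52 (by decide +kernel) ?_
    refine jn 70 (by decide +kernel) ?_
    refine jn 84 (by decide +kernel) ?_
    refine jn 99 (by decide +kernel) ?_
    refine jn 112 (by decide +kernel) ?_
    refine jn 115 (by decide +kernel) ?_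
    refine jn 127 (by decide +kernel) ?_
    refine jn 129 (by decide +kernel) ?_
    refine jn 142 (by decide +kernel) ?_
    refine jn 154 (by decide +kernel) ?_
    refine jn 167 (by decide +kernel) ?_
    refine jn 184 (by decide +kernel) ?_
    refine jn 198 (by decide +kernel) ?_
    refine jn 205 (by decide +kernel) ?_
    refine jn 215 (by decide +kernel) ?_
    refine jn 229 (by decide +kernel) ?_
    refine jn 242 (by decide +kernel) ?_
    refine jn 255 (by decide +kernel) ?_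
    refine jn 264 (by decide +kernel) ?_
    refine jn 270 (by decide +kernel) ?_
    refine jn 285 (by decide +kernel) ?_
    refine jn 299 (by decide +kernel) ?_
    refine jn 310 (by decide +kernel) ?_
    refine jn 323 (by decide +kernel) ?_
    refine jn 335 (by decide +kernel) ?_
    refine jn 346 (by decide +kernel) ?_
    refine jn 359 (by decide +kernel) ?_
    refine jn 373 (by decide +kernel) ?_
    refine jn 387 (by decide +kernel) ?_
    refine jn 410 (by decide +kernel) ?_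
    refine jn 423 (by decide +kernel) ?_
    refine jn 435 (by decide +kernel) ?_
    refine jn 444 (by decide +kernel) ?_
    refine jn 449 (by decide +kernel) ?_
    refine jn 462 (by decide +kernel) ?_
    refine jn 474 (by decide +kernel) ?_
    refine jn 487 (by decide +kernel) ?_
    refine jn 504 (by decide +kernel) ?_
    refine jn 517 (by decide +kernel) ?_
    refine jn 523 (by decide +kernel) ?_
    refine jn 536 (by decide +kernel) ?_
    refine jn 548 (by decide +kernel) ?_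
    refine jn 583 (by decide +kernel) ?_
    refine jn 619 (by decide +kernel) ?_
    refine jn 663 (by decide +kernel) ?_
    refine jn 676 (by decide +kernel) ?_
    refine jn 677 (by decide +kernel) ?_
    refine jn 688 (by decide +kernel) ?_
    refine jn 691 (by decide +kernel) ?_
    refine jn 692 (by decide +kernel) ?_
    refine jn 708 (by decide +kernel) ?_
    refine jn 712 (by decide +kernel) ?_
    refine jn 720 (by decide +kernel) ?_
    refine jn 724 (by decide +kernel) ?_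
    refine jn 727 (by decide +kernel) ?_
    refine jn 729 (by decide +kernel) ?_
    refine jn 739 (by decide +kernel) ?_
    refine jn 741 (by decide +kernel) ?_
    refine jn 748 (by decide +kernel) ?_
    refine jn 757 (by decide +kernel) ?_
    refine jn 760 (by decide +kernel) ?_
    refine jn 774 (by decide +kernel) ?_
    refine jn 790 (by decide +kernel) ?_
    refine jn 797 (by decide +kernel) ?_
    refine jn 803 (by decide +kernel) ?_
    refine jn 818 (by decide +kernel) ?_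
    refine jn 830 (by decide +kernel) ?_
    refine jn 845 (by decide +kernel) ?_
    refine jn 854 (by decide +kernel) ?_
    refine jn 866 (by decide +kernel) ?_
    refine jn 888 (by decide +kernel) ?_
    refine jn 900 (by decide +kernel) ?_
    refine jn 909 (by decide +kernel) ?_
    refine jn 924 (by decide +kernel) ?_
    refine jn 936 (by decide +kernel) ?_
    refine jn 951 (by decide +kernel) ?_
    refine jn 969 (by decide +kernel) ?_
    refine jn 1006 (by decide +kernel) ?_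
    refine jn 1042 (by decide +kernel) ?_
    refine jn 1105 (by decide +kernel) ?_
    refine jn 1141 (by decide +kernel) ?_
    refine jn 1144 (by decide +kernel) ?_
    refine jn 1160 (by decide +kernel) ?_
    refine jn 1168 (by decide +kernel) ?_
    refine jn 1175 (by decide +kernel) ?_
    refine jn 1184 (by decide +kernel) ?_
    refine jn 1189 (by decide +kernel) ?_
    refine jn 1193 (by decide +kernel) ?_
    refine jn 1212 (by decide +kernel) ?_
    refine jn 1220 (by decide +kernel) ?_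
    refine jn 1224 (by decide +kernel) ?_
    refine jn 1244 (by decide +kernel) ?_
    refine jn 1251 (by decide +kernel) ?_
    refine jn 1255 (by decide +kernel) ?_
    refine jn 1268 (by decide +kernel) ?_
    refine jn 1284 (by decide +kernel) ?_
    refine jn 1288 (by decide +kernel) ?_
    refine jn 1290 (by decide +kernel) ?_
    refine jn 1293 (by decide +kernel) ?_
    refine jn 1306 (by decide +kernel) ?_
    refine jn 1313 (by decide +kernel) ?_
    refine jn 1317 (by decide +kernel) ?_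
    refine jn 1321 (by decide +kernel) ?_
    refine jn 1325 (by decide +kernel) ?_
    refine jn 1333 (by decide +kernel) ?_
    refine jn 1337 (by decide +kernel) ?_
    refine jn 1338 (by decide +kernel) ?_
    refine jn 1340 (by decide +kernel) ?_
    refine jn 1345 (by decide +kernel) ?_
    refine jn 1361 (by decide +kernel) ?_
    refine jn 1369 (by decide +kernel) ?_
    refine jn 1373 (by decide +kernel) ?_
    refine jn 1393 (by decide +kernel) ?_
    refine jn 1397 (by decide +kernel) ?_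
    refine jn 1400 (by decide +kernel) ?_
    refine jn 1404 (by decide +kernel) ?_
    refine jn 1409 (by decide +kernel) ?_
    refine jn 1421 (by decide +kernel) ?_
    refine jn 1433 (by decide +kernel) ?_
    refine jn 1470 (by decide +kernel) ?_
    refine jn 1619 (by decide +kernel) ?_
    refine jn 1678 (by decide +kernel) ?_
    refine jn 1680 (by decide +kernel) ?_
    refine jn 1694 (by decide +kernel) ?_
    refine jn 1719 (by decide +kernel) ?_
    refine jn 1720 (by decide +kernel) ?_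
    refine jn 1731 (by decide +kernel) ?_
    refine jn 1740 (by decide +kernel) ?_
    refine jn 1755 (by decide +kernel) ?_
    refine jn 1763 (by decide +kernel) ?_
    refine jn 1774 (by decide +kernel) ?_
    refine jn 1795 (by decide +kernel) ?_
    refine jn 1804 (by decide +kernel) ?_
    refine jn 1811 (by decide +kernel) ?_
    refine jn 1818 (by decide +kernel) ?_
    refine jn 1824 (by decide +kernel) ?_
    refine jn 1839 (by decide +kernel) ?_
    refine jn 1840 (by decide +kernel) ?_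
    refine jn 1852 (by decide +kernel) ?_
    refine jn 1854 (by decide +kernel) ?_
    refine jn 1866 (by decide +kernel) ?_
    refine jn 1871 (by decide +kernel) ?_
    refine jn 1875 (by decide +kernel) ?_
    refine jn 1891 (by decide +kernel) ?_
    refine jn 1893 (by decide +kernel) ?_
    refine jn 1904 (by decide +kernel) ?_
    refine jn 1909 (by decide +kernel) ?_
    refine jn 1932 (by decide +kernel) ?_
    refine jn 1937 (by decide +kernel) ?_
    refine jn 1944 (by decide +kernel) ?_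
    refine jn 1953 (by decide +kernel) ?_
    refine jn 1968 (by decide +kernel) ?_
    refine jn 1973 (by decide +kernel) ?_
    refine jn 1983 (by decide +kernel) ?_
    refine jn 1987 (by decide +kernel) ?_
    refine jn 2004 (by decide +kernel) ?_
    refine jn 2012 (by decide +kernel) ?_
    refine jn 2017 (by decide +kernel) ?_
    refine jn 2024 (by decide +kernel) ?_
    refine jn 2031 (by decide +kernel) ?_
    refine jn 2037 (by decide +kernel) ?_
    refine jn 2052 (by decide +kernel) ?_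
    refine jn 2056 (by decide +kernel) ?_
    refine jn 2065 (by decide +kernel) ?_
    refine jn 2067 (by decide +kernel) ?_
    refine jn 2079 (by decide +kernel) ?_
    refine jn 2084 (by decide +kernel) ?_
    refine jn 2104 (by decide +kernel) ?_
    refine jn 2137 (by decide +kernel) ?_
    refine jn 2168 (by decide +kernel) ?_
    refine jn 2215 (by decide +kernel) ?_
    refine jn 2263 (by decide +kernel) ?_
    refine jn 2308 (by decide +kernel) ?_
    refine jn 2357 (by decide +kernel) ?_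
    refine jn 2395 (by decide +kernel) ?_
    refine jn 2404 (by decide +kernel) ?_
    refine jn 2420 (by decide +kernel) ?_
    refine jn 2436 (by decide +kernel) ?_
    refine jn 2451 (by decide +kernel) ?_
    refine jn 2464 (by decide +kernel) ?_
    refine jn 2494 (by decide +kernel) ?_
    refine jn 2511 (by decide +kernel) ?_
    refine jn 2516 (by decide +kernel) ?_
    refine jn 2539 (by decide +kernel) ?_
    refine jn 2558 (by decide +kernel) ?_
    refine jn 2571 (by decide +kernel) ?_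
    refine jn 2590 (by decide +kernel) ?_
    refine jn 2607 (by decide +kernel) ?_
    refine jn 2619 (by decide +kernel) ?_
    refine jn 2640 (by decide +kernel) ?_
    refine jn 2670 (by decide +kernel) ?_
    refine jn 2674 (by decide +kernel) ?_
    refine jn 2710 (by decide +kernel) ?_
    refine jn 2751 (by decide +kernel) ?_
    refine jn 2779 (by decide +kernel) ?_
    refine jn 2818 (by decide +kernel) ?_
    refine jn 2851 (by decide +kernel) ?_
    refine jn 2883 (by decide +kernel) ?_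
    refine jn 2903 (by decide +kernel) ?_
    refine jn 2930 (by decide +kernel) ?_
    refine jn 2980 (by decide +kernel) ?_
    refine jn 3016 (by decide +kernel) ?_
    refine jn 3059 (by decide +kernel) ?_
    refine jn 3091 (by decide +kernel) ?_
    refine jn 3119 (by decide +kernel) ?_
    refine jn 3147 (by decide +kernel) ?_
    refine jn 3163 (by decide +kernel) ?_
    refine jn 3185 (by decide +kernel) ?_
    refine jn 3201 (by decide +kernel) ?_
    refine jn 3213 (by decide +kernel) ?_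
    refine jn 3236 (by decide +kernel) ?_
    refine jn 3261 (by decide +kernel) ?_
    refine jn 3279 (by decide +kernel) ?_
    refine jn 3297 (by decide +kernel) ?_
    refine jn 3313 (by decide +kernel) ?_
    refine jn 3324 (by decide +kernel) ?_
    refine jn 3329 (by decide +kernel) ?_
    refine jn 3343 (by decide +kernel) ?_
    refine jn 3360 (by decide +kernel) ?_
    refine jn 3404 (by decide +kernel) ?_
    refine jn 3408 (by decide +kernel) ?_
    refine jn 3437 (by decide +kernel) ?_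
    refine jn 3453 (by decide +kernel) ?_
    refine jn 3484 (by decide +kernel) ?_
    refine jn 3504 (by decide +kernel) ?_
    refine jn 3516 (by decide +kernel) ?_
    refine jn 3532 (by decide +kernel) ?_
    refine jn 3553 (by decide +kernel) ?_
    refine jn 3592 (by decide +kernel) ?_
    refine jn 3637 (by decide +kernel) ?_
    refine jn 3688 (by decide +kernel) ?_
    refine jn 3733 (by decide +kernel) ?_
    refine jn 3795 (by decide +kernel) ?_
    refine jn 3840 (by decide +kernel) ?_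
    refine jn 3884 (by decide +kernel) ?_
    refine jn 3919 (by decide +kernel) ?_
    refine jn 3973 (by decide +kernel) ?_
    refine jn 4028 (by decide +kernel) ?_
    refine jn 4069 (by decide +kernel) ?_
    refine jn 4108 (by decide +kernel) ?_
    refine jn 4152 (by decide +kernel) ?_
    refine jn 4179 (by decide +kernel) ?_
    refine jn 4214 (by decide +kernel) ?_
    refine jn 4252 (by decide +kernel) ?_
    refine jn 4287 (by decide +kernel) ?_
    refine jn 4312 (by decide +kernel) ?_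
    refine jn 4355 (by decide +kernel) ?_
    refine jn 4395 (by decide +kernel) ?_
    refine jn 4422 (by decide +kernel) ?_
    refine jn 4459 (by decide +kernel) ?_
    refine jn 4491 (by decide +kernel) ?_
    refine jn 4518 (by decide +kernel) ?_
    refine jn 4563 (by decide +kernel) ?_
    refine jn 4599 (by decide +kernel) ?_
    refine jn 4639 (by decide +kernel) ?_
    refine jn 4679 (by decide +kernel) ?_
    refine jn 4707 (by decide +kernel) ?_
    refine jn 4751 (by decide +kernel) ?_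
    refine jn 4771 (by decide +kernel) ?_
    refine jn 4796 (by decide +kernel) ?_
    refine jn 4811 (by decide +kernel) ?_
    refine jn 4826 (by decide +kernel) ?_
    refine jn 4855 (by decide +kernel) ?_
    refine jn 4867 (by decide +kernel) ?_
    refine jn 4891 (by decide +kernel) ?_
    refine jn 4907 (by decide +kernel) ?_
    refine jn 4924 (by decide +kernel) ?_
    refine jn 4942 (by decide +kernel) ?_
    refine jn 4954 (by decide +kernel) ?_
    refine jn 4999 (by decide +kernel) ?_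
    refine jn 5038 (by decide +kernel) ?_
    refine jn 5051 (by decide +kernel) ?_
    refine jn 5071 (by decide +kernel) ?_
    refine jn 5086 (by decide +kernel) ?_
    refine jn 5103 (by decide +kernel) ?_
    refine jn 5135 (by decide +kernel) ?_
    refine jn 5167 (by decide +kernel) ?_
    refine jn 5191 (by decide +kernel) ?_
    refine jn 5215 (by decide +kernel) ?_
    refine jn 5239 (by decide +kernel) ?_
    refine jn 5259 (by decide +kernel) ?_
    refine jn 5292 (by decide +kernel) ?_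
    refine jn 5323 (by decide +kernel) ?_
    refine jn 5343 (by decide +kernel) ?_
    refine jn 5372 (by decide +kernel) ?_
    refine jn 5402 (by decide +kernel) ?_
    refine jn 5419 (by decide +kernel) ?_
    refine jn 5439 (by decide +kernel) ?_
    refine jn 5479 (by decide +kernel) ?_
    refine jn 5527 (by decide +kernel) ?_
    refine jn 5546 (by decide +kernel) ?_
    refine jn 5563 (by decide +kernel) ?_
    refine jn 5601 (by decide +kernel) ?_
    refine jn 5677 (by decide +kernel) ?_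
    refine jn 5725 (by decide +kernel) ?_
    refine jn 5779 (by decide +kernel) ?_
    refine jn 5837 (by decide +kernel) ?_
    refine jn 5891 (by decide +kernel) ?_
    refine jn 5953 (by decide +kernel) ?_
    refine jn 6031 (by decide +kernel) ?_
    refine jn 6067 (by decide +kernel) ?_
    refine jn 6166 (by decide +kernel) ?_
    refine jn 6226 (by decide +kernel) ?_
    refine jn 6289 (by decide +kernel) ?_
    refine jn 6346 (by decide +kernel) ?_
    refine jn 6398 (by decide +kernel) ?_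
    refine jn 6478 (by decide +kernel) ?_
    refine jn 6534 (by decide +kernel) ?_
    refine jn 6623 (by decide +kernel) ?_
    refine jn 6674 (by decide +kernel) ?_
    refine jn 6754 (by decide +kernel) ?_
    refine jn 6834 (by decide +kernel) ?_
    refine jn 6877 (by decide +kernel) ?_
    refine jn 6937 (by decide +kernel) ?_
    refine jn 6981 (by decide +kernel) ?_
    refine jn 7045 (by decide +kernel) ?_
    refine jn 7097 (by decide +kernel) ?_
    refine jn 7170 (by decide +kernel) ?_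
    refine jn 7237 (by decide +kernel) ?_
    refine jn 7297 (by decide +kernel) ?_
    refine jn 7346 (by decide +kernel) ?_
    refine jn 7417 (by decide +kernel) ?_
    refine jn 7477 (by decide +kernel) ?_
    refine jn 7522 (by decide +kernel) ?_
    refine jn 7590 (by decide +kernel) ?_
    refine jn 7685 (by decide +kernel) ?_
    refine jn 7744 (by decide +kernel) ?_
    refine jn 7828 (by decide +kernel) ?_
    refine jn 7885 (by decide +kernel) ?_
    refine jn 7972 (by decide +kernel) ?_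
    refine jn 8038 (by decide +kernel) ?_
    refine jn 8100 (by decide +kernel) ?_
    refine jn 8161 (by decide +kernel) ?_
    refine jn 8213 (by decide +kernel) ?_
    refine jn 8294 (by decide +kernel) ?_
    refine jn 8373 (by decide +kernel) ?_
    refine jn 8429 (by decide +kernel) ?_
    refine jn 8498 (by decide +kernel) ?_
    refine jn 8893 (by decide +kernel) ?_
    refine jn 9041 (by decide +kernel) ?_
    refine jn 9145 (by decide +kernel) ?_
    refine jn 9265 (by decide +kernel) ?_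
    refine jn 9369 (by decide +kernel) ?_
    refine jn 9485 (by decide +kernel) ?_
    refine jn 9617 (by decide +kernel) ?_
    refine jn 9742 (by decide +kernel) ?_
    refine jn 9853 (by decide +kernel) ?_
    refine jn 10005 (by decide +kernel) ?_
    refine jn 10149 (by decide +kernel) ?_
    refine jn 10266 (by decide +kernel) ?_
    refine jn 10377 (by decide +kernel) ?_
    refine jn 10505 (by decide +kernel) ?_
    refine jn 10620 (by decide +kernel) ?_
    refine jn 10746 (by decide +kernel) ?_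
    refine jn 10861 (by decide +kernel) ?_
    refine jn 10981 (by decide +kernel) ?_
    refine jn 11093 (by decide +kernel) ?_
    refine jn 11225 (by decide +kernel) ?_
    refine jn 11310 (by decide +kernel) ?_
    refine jn 11664 (by decide +kernel) ?_
    refine jn 11881 (by decide +kernel) ?_
    refine jn 12033 (by decide +kernel) ?_
    refine jn 12180 (by decide +kernel) ?_
    refine jn 12306 (by decide +kernel) ?_
    refine jn 12419 (by decide +kernel) ?_
    refine jn 12510 (by decide +kernel) ?_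
    refine jn 12592 (by decide +kernel) ?_
    refine jn 12667 (by decide +kernel) ?_
    refine jn 12735 (by decide +kernel) ?_
    refine jn 12792 (by decide +kernel) ?_
    refine jn 12858 (by decide +kernel) ?_
    refine jn 12910 (by decide +kernel) ?_
    refine jn 12964 (by decide +kernel) ?_
    refine jn 13015 (by decide +kernel) ?_
    refine jn 13064 (by decide +kernel) ?_
    refine jn 13114 (by decide +kernel) ?_
    refine jn 13157 (by decide +kernel) ?_
    refine jn 13198 (by decide +kernel) ?_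
    refine jn 13233 (by decide +kernel) ?_
    refine jn 13277 (by decide +kernel) ?_
    refine jn 13313 (by decide +kernel) ?_
    refine jn 13350 (by decide +kernel) ?_
    refine jn 13676 (by decide +kernel) ?_
    refine jn 13931 (by decide +kernel) ?_
    refine jn 14114 (by decide +kernel) ?_
    refine jn 14268 (by decide +kernel) ?_
    refine jn 14407 (by decide +kernel) ?_
    refine jn 14522 (by decide +kernel) ?_
    refine jn 14622 (by decide +kernel) ?_
    refine jn 14717 (by decide +kernel) ?_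
    refine jn 14817 (by decide +kernel) ?_
    refine jn 14892 (by decide +kernel) ?_
    refine jn 14959 (by decide +kernel) ?_
    refine jn 15032 (by decide +kernel) ?_
    refine jn 15102 (by decide +kernel) ?_
    refine jn 15158 (by decide +kernel) ?_
    refine jn 15214 (by decide +kernel) ?_
    refine jn 15271 (by decide +kernel) ?_
    refine jn 15329 (by decide +kernel) ?_
    refine jn 15381 (by decide +kernel) ?_
    refine jn 15705 (by decide +kernel) ?_
    refine jn 15903 (by decide +kernel) ?_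
    refine jn 16066 (by decide +kernel) ?_
    refine jn 16180 (by decide +kernel) ?_
    refine jn 16289 (by decide +kernel) ?_
    refine jn 16394 (by decide +kernel) ?_
    refine jn 16489 (by decide +kernel) ?_
    refine jn 16584 (by decide +kernel) ?_
    refine jn 16676 (by decide +kernel) ?_
    refine jn 16738 (by decide +kernel) ?_
    refine jn 16808 (by decide +kernel) ?_
    refine jn 16865 (by decide +kernel) ?_
    refine jn 16918 (by decide +kernel) ?_
    refine jn 16970 (by decide +kernel) ?_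
    refine jn 17018 (by decide +kernel) ?_
    refine jn 17075 (by decide +kernel) ?_
    refine jn 17119 (by decide +kernel) ?_
    refine jn 17161 (by decide +kernel) ?_
    refine jn 17199 (by decide +kernel) ?_
    refine jn 17243 (by decide +kernel) ?_
    refine jn 17275 (by decide +kernel) ?_
    refine jn 17321 (by decide +kernel) ?_
    refine jn 17370 (by decide +kernel) ?_
    refine jn 17407 (by decide +kernel) ?_
    refine jn 17440 (by decide +kernel) ?_
    refine jn 17780 (by decide +kernel) ?_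
    refine jn 18017 (by decide +kernel) ?_
    refine jn 18169 (by decide +kernel) ?_
    refine jn 18354 (by decide +kernel) ?_
    refine jn 18475 (by decide +kernel) ?_
    refine jn 18587 (by decide +kernel) ?_
    refine jn 18689 (by decide +kernel) ?_
    refine jn 18785 (by decide +kernel) ?_
    refine jn 18884 (by decide +kernel) ?_
    refine jn 18981 (by decide +kernel) ?_
    refine jn 19068 (by decide +kernel) ?_
    refine jn 19145 (by decide +kernel) ?_
    refine jn 19207 (by decide +kernel) ?_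
    refine jn 19280 (by decide +kernel) ?_
    refine jn 19336 (by decide +kernel) ?_
    refine jn 19403 (by decide +kernel) ?_
    refine jn 19463 (by decide +kernel) ?_
    refine jn 19519 (by decide +kernel) ?_
    refine jn 20140 (by decide +kernel) ?_
    refine jn 20329 (by decide +kernel) ?_
    refine jn 20461 (by decide +kernel) ?_
    refine jn 20608 (by decide +kernel) ?_
    refine jn 20797 (by decide +kernel) ?_
    refine jn 20919 (by decide +kernel) ?_
    refine jn 21042 (by decide +kernel) ?_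
    refine jn 21137 (by decide +kernel) ?_
    refine jn 21887 (by decide +kernel) ?_
    refine jn 22109 (by decide +kernel) ?_
    refine jn 22257 (by decide +kernel) ?_
    refine jn 22408 (by decide +kernel) ?_
    refine jn 22554 (by decide +kernel) ?_
    refine jn 22722 (by decide +kernel) ?_
    exact je (by decide +kernel)
  · refine fin 24 13660 T46_2 ?_
    refine jn 10 (by decide +kernel) ?_
    refine jn 16 (by decide +kernel) ?_
    refine jn 21 (by decide +kernel) ?_
    refine jn 27 (by decide +kernel) ?_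
    refine jn 31 (by decide +kernel) ?_
    refine jn 41 (by decide +kernel) ?_
    refine jn 53 (by decide +kernel) ?_
    refine jn 65 (by decide +kernel) ?_
    refine jn 88 (by decide +kernel) ?_
    refine jn 117 (by decide +kernel) ?_
    refine jn 139 (by decide +kernel) ?_
    refine jn 155 (by decide +kernel) ?_
    refine jn 166 (by decide +kernel) ?_
    refine jn 188 (by decide +kernel) ?_
    refine jn 209 (by decide +kernel) ?_
    refine jn 210 (by decide +kernel) ?_
    refine jn 211 (by decide +kernel) ?_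
    refine jn 212 (by decide +kernel) ?_
    refine jn 213 (by decide +kernel) ?_
    refine jn 232 (by decide +kernel) ?_
    refine jn 249 (by decide +kernel) ?_
    refine jn 265 (by decide +kernel) ?_
    refine jn 279 (by decide +kernel) ?_
    refine jn 290 (by decide +kernel) ?_
    refine jn 302 (by decide +kernel) ?_
    refine jn 320 (by decide +kernel) ?_
    refine jn 626 (by decide +kernel) ?_
    refine jn 670 (by decide +kernel) ?_
    refine jn 722 (by decide +kernel) ?_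
    refine jn 826 (by decide +kernel) ?_
    refine jn 905 (by decide +kernel) ?_
    refine jn 973 (by decide +kernel) ?_
    refine jn 1081 (by decide +kernel) ?_
    refine jn 1210 (by decide +kernel) ?_
    refine jn 1359 (by decide +kernel) ?_
    refine jn 1515 (by decide +kernel) ?_
    refine jn 1595 (by decide +kernel) ?_
    refine jn 1723 (by decide +kernel) ?_
    refine jn 1930 (by decide +kernel) ?_
    refine jn 2126 (by decide +kernel) ?_
    refine jn 2363 (by decide +kernel) ?_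
    refine jn 2845 (by decide +kernel) ?_
    refine jn 3172 (by decide +kernel) ?_
    refine jn 3664 (by decide +kernel) ?_
    refine jn 4175 (by decide +kernel) ?_
    refine jn 4811 (by decide +kernel) ?_
    refine jn 5318 (by decide +kernel) ?_
    refine jn 5997 (by decide +kernel) ?_
    refine jn 6596 (by decide +kernel) ?_
    refine jn 7421 (by decide +kernel) ?_
    refine jn 8161 (by decide +kernel) ?_
    refine jn 8965 (by decide +kernel) ?_
    refine jn 9446 (by decide +kernel) ?_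
    refine jn 9658 (by decide +kernel) ?_
    refine jn 9805 (by decide +kernel) ?_
    refine jn 9920 (by decide +kernel) ?_
    refine jn 10016 (by decide +kernel) ?_
    refine jn 10096 (by decide +kernel) ?_
    refine jn 10170 (by decide +kernel) ?_
    refine jn 10235 (by decide +kernel) ?_
    refine jn 10296 (by decide +kernel) ?_
    refine jn 10776 (by decide +kernel) ?_
    refine jn 11041 (by decide +kernel) ?_
    refine jn 11229 (by decide +kernel) ?_
    refine jn 11372 (by decide +kernel) ?_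
    refine jn 11491 (by decide +kernel) ?_
    refine jn 11599 (by decide +kernel) ?_
    refine jn 12223 (by decide +kernel) ?_
    refine jn 12514 (by decide +kernel) ?_
    refine jn 13069 (by decide +kernel) ?_
    refine jn 13501 (by decide +kernel) ?_
    exact je (by decide +kernel)

end Pool.Agent.MP_2339ce_nt.NR
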