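import Pool.Agent.MP_2339ce_nt.Q2.NC.L10
import Pool.Agent.MP_2339ce_nt.Q2.CkI

/-! Block NR: runs. -/

set_option autoImplicit false
set_option maxRecDepth 100000

noncomputable section

namespace Pool.Agent.MP_2339ce_nt.NR

open Q2.Top

def T5_0 : Ph :=
  (.na 634 2 (.nx 633 3329023 (.nr 632 881745 (.nx 228 41287 (.nx 3 237 (.nx 2 236 (.nr 1 16 (.lg 0
  false 1 43 43 5 0 4248) (.l1 .sk)) (.l1 .sk)) (.nr 146 185365 (.lg 0 false 143 103 109 16 0
  42522480) (.nx 227 26009 (.nr 204 311745 (.nx 157 408 (.lg 0 false 11 83 83 9 0 46728) (.nx 158
  6501 .out (.nr 203 220437 (.nx 169 10323 (.lg 0 false 11 101 103 9 0 1635480) (.nx 170 13003 .out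
  (.lg 0 false 33 103 109 13 0 42522480))) .out))) (.nx 226 324 (.lg 0 false 22 89 89 11 0 93456)
  .out)) .out))) (.nr 631 155873 (.nr 396 8193 (.nx 362 1664512 (.nr 339 2898 (.nr 305 942 (.lg 0
  true 77 97 103 16 0 1635480) (.nr 327 1724 (.lg 2 true 22 101 103 11 208506 3270960) (.nx 338
  1321124 (.lg 2 true 11 101 101 9 90425 1635480) .out))) (.nx 361 1048577 (.nr 350 4872 (.lg 2
  true 11 101 101 9 42696 1635480) (.lg 2 true 11 101 103 9 25397 1635480)) .out)) (.nr 395 154
  (.lg 0 true 33 89 89 13 0 46728) .out)) (.nx 630 832257 (.nx 473 65537 (.lg 1 false 77 103 109 16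
  105297 42522480) (.nr 629 110219 (.nr 551 65537 (.nr 517 46342 (.nr 484 26009 (.lg 2 false 11 107
  109 9 11987 42522480) (.lg 2 false 33 103 109 13 19793 42522480)) (.nx 550 524289 (.lg 2 true 33
  103 109 13 27949 42522480) .out)) (.nx 628 330282 (.lg 2 true 77 101 109 16 46935 42522480)
  .out)) .out)) .out)) .out)) .out) .out) (.na 635 3 .ne (.nx 987 6658044 (.nr 986 1482912 (.nx 638
  237 (.nx 637 236 (.nr 636 41 (.lg 0 true 1 37 37 5 0 4248) (.l1 .sk)) (.l1 .sk)) (.nx 745 44590
  (.nr 703 220437 (.lg 0 false 65 101 109 17 0 42522480) (.nx 716 408 (.lg 0 false 13 89 89 16 0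
  55224) (.nx 717 20642 .out (.nr 744 311745 (.nx 731 32768 (.nr 730 262145 (.lg 0 false 13 101 109
  16 0 42522480) .out) (.lg 0 false 13 103 109 16 0 42522480)) .out)))) (.nr 985 311745 (.nx 931
  832257 (.nr 771 2898 (.nr 758 668 (.lg 0 true 13 97 97 16 0 55224) (.lg 2 true 13 97 101 16
  147016 1932840)) (.nx 930 660563 (.nx 797 60679 (.lg 1 false 26 103 109 16 194846 42522480) (.nr
  807 10626 (.nr 802 5549 (.lg 2 true 5 89 97 7 26897 148680) (.lg 2 true 5 89 97 7 14047 148680))
  (.nx 874 165142 (.nx 833 82572 (.lg 1 false 26 103 109 16 143182 42522480) (.nr 873 262145 (.nx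
  860 131072 (.nx 847 104031 (.nr 846 220437 (.lg 1 false 13 107 109 16 74425 42522480) .out) (.lg
  1 false 13 107 109 16 70237 42522480)) (.lg 1 false 13 107 109 16 55747 42522480)) .out)) (.nr
  929 220437 (.nx 901 262145 (.nx 887 208065 (.lg 1 true 13 107 109 16 37213 42522480) (.nr 900
  185365 (.lg 1 true 13 103 109 16 24842 42522480) .out)) (.nr 928 110219 (.nr 914 77937 (.lg 2
  false 13 103 109 16 8305 42522480) (.nx 927 330282 (.lg 2 false 13 101 107 16 11734 42522480)
  .out)) .out)) .out)))) .out)) (.nr 984 154 (.nx 944 1664512 (.lg 0 true 13 83 83 16 0 55224) (.nr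
  983 33 (.lg 0 true 39 79 83 16 0 55224) .out)) .out)) .out))) .out) .out)))

def T5_1 : Ph :=
  (.na 10968 8192 (.na 3303 2048 (.na 1247 1024 (.na 645 725 (.nx 644 1321124 (.nr 643 1482912 (.nr
  1 512 .s1 (.nx 215 252 (.nr 214 8147 (.la (.ls 37 23 182)) (.l1 .sk)) (.nx 216 253 (.l1 .sk) (.nr
  429 32769 (.la (.lg 0 true 1 73 73 29 0)) (.nx 642 26009 (.la (.lg 0 false 1 73 73 29 0))
  .out))))) .out) .out) (.nx 1246 20644 (.nr 1245 2097153 (.nr 646 725 .s1 (.nx 945 2049 (.la (.ls
  71 41 5793)) (.nr 1244 262145 (.la (.lg 0 false 1 61 61 29 0)) .out))) .out) .out)) (.na 2101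
  1449 (.nx 2100 20644 (.nr 2099 2097153 (.nr 1248 1024 .s1 (.nx 1673 3252 (.la (.ls 71 41 10330))
  (.nr 2098 131073 (.la (.lg 0 false 1 53 53 31 0)) .out))) .out) .out) (.nx 3302 13005 (.nr 3301
  2097153 (.nr 2102 1449 .s1 (.nx 2701 3252 (.la (.ls 67 41 7301)) (.nr 3300 16385 (.la (.ls 37 53
  109426)) .out))) .out) .out))) (.na 6207 4096 (.na 5005 2897 (.nx 5004 13005 (.nr 5003 2097153
  (.nr 3304 2048 .s1 (.nx 4153 3252 (.la (.ls 67 41 5166)) (.nr 5002 16385 (.la (.ls 31 53 77422))
  .out))) .out) .out) (.nx 6206 4097 (.nr 6205 1048577 (.nr 5006 2897 .s1 (.la (.ls 61 41 5797)))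
  .out) .out)) (.na 8160 5793 (.nx 8159 5162 (.nr 8158 1048577 (.nr 6208 4096 .s1 (.nx 6461 253
  (.nx 6460 252 (.nr 6459 65091 (.lx (.lp 41 31 1449)) (.l1 .sk)) (.l1 .sk)) (.la (.ls 59 41
  6492)))) .out) .out) (.nx 10967 2049 (.nr 10966 524289 (.nr 8161 5793 .s1 (.nx 8567 406 (.nx 8413
  252 (.nr 8412 92047 (.lx (.lp 43 37 2049)) (.l1 .sk)) (.nx 8414 253 (.l1 .sk) (.lx (.lp 47 37
  2049)))) (.la (.ls 47 37 2049)))) .out) .out)))) (.na 19178 65536 (.na 15073 16384 (.na 13022
  11586 (.nx 13021 2049 (.nr 13020 524289 (.nr 10969 8192 .s1 (.nx 11222 253 (.nx 11221 252 (.nr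
  11220 130182 (.lx (.lp 37 37 2897)) (.l1 .sk)) (.l1 .sk)) (.nx 11994 1025 (.lx (.lp 47 41 2897))
  (.nr 13019 262145 (.nx 12261 1292 (.lx (.lp 47 41 2897)) (.nr 13018 131073 (.lx (.lp 41 41 2897))
  .out)) .out)))) .out) .out) (.nx 15072 2049 (.nr 15071 131073 (.nr 13023 11586 .s1 (.lx (.lp 41
  41 4097))) .out) .out)) (.na 17125 32768 (.nx 17124 2049 (.nr 17123 262145 (.nr 15074 16384 .s1
  (.nx 15397 324 (.lx (.lp 43 43 8193)) (.nr 17122 131073 (.lx (.lp 37 43 8193)) .out))) .out)
  .out) (.nx 19177 2049 (.nr 19176 524289 (.nr 17126 32768 .s1 (.nx 17449 324 (.lx (.lp 41 43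
  16385)) (.nr 19175 262145 (.nx 17638 512 (.nr 17637 131073 (.lx (.lp 29 47 16385)) .out) (.lx
  (.lp 37 47 16385))) .out))) .out) .out))) (.na 22438 262144 (.na 20808 131072 (.nx 20807 1627
  (.nr 20806 524289 (.nr 19179 65536 .s1 (.nx 19502 324 (.lx (.lp 16 0 32769)) (.nr 20805 262145
  (.lx (.lp 31 53 32769)) .out))) .out) .out) (.nx 22437 1627 (.nr 22436 524289 (.nr 20809 131072
  .s1 (.nx 21321 513 (.lx (.lp 31 53 65537)) (.nr 22435 262145 (.lx (.lp 29 59 65537)) .out)))
  .out) .out)) (.na 22953 524288 (.nx 22952 513 (.nr 22951 1048577 (.nr 22439 262144 .s1 (.lx (.lp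
  16 0 131073))) .out) .out) (.na 22955 1048577 (.nx 22954 324 (.l1 .sk) .out) .out)))))

theorem c5 :
    OkQ ckI L10 236 1 4 0 34359738368 1 1099511627776 ∧
    OkQ ckI L10 252 512 1099511627776 0 34359738368 1 1099511627776 := by
  refine ⟨?_, ?_⟩
  · refine fin 4248 988 T5_0 ?_
    refine jn 8 (by decide +kernel) ?_
    refine jn 14 (by decide +kernel) ?_
    refine jn 19 (by decide +kernel) ?_
    refine jn 25 (by decide +kernel) ?_
    refine jn 31 (by decide +kernel) ?_
    refine jn 36 (by decide +kernel) ?_
    refine jn 42 (by decide +kernel) ?_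
    refine jn 49 (by decide +kernel) ?_
    refine jn 53 (by decide +kernel) ?_
    refine jn 58 (by decide +kernel) ?_
    refine jn 64 (by decide +kernel) ?_
    refine jn 70 (by decide +kernel) ?_
    refine jn 75 (by decide +kernel) ?_
    refine jn 81 (by decide +kernel) ?_
    refine jn 87 (by decide +kernel) ?_
    refine jn 95 (by decide +kernel) ?_
    refine jn 99 (by decide +kernel) ?_
    refine jn 107 (by decide +kernel) ?_
    refine jn 112 (by decide +kernel) ?_
    refine jn 118 (by decide +kernel) ?_
    refine jn 122 (by decide +kernel) ?_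
    refine jn 129 (by decide +kernel) ?_
    refine jn 134 (by decide +kernel) ?_
    refine jn 140 (by decide +kernel) ?_
    refine jn 145 (by decide +kernel) ?_
    refine jn 157 (by decide +kernel) ?_
    refine jn 186 (by decide +kernel) ?_
    refine jn 203 (by decide +kernel) ?_
    refine jn 226 (by decide +kernel) ?_
    refine jn 240 (by decide +kernel) ?_
    refine jn 253 (by decide +kernel) ?_
    refine jn 266 (by decide +kernel) ?_
    refine jn 278 (by decide +kernel) ?_
    refine jn 291 (by decide +kernel) ?_
    refine jn 304 (by decide +kernel) ?_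
    refine jn 327 (by decide +kernel) ?_
    refine jn 350 (by decide +kernel) ?_
    refine jn 362 (by decide +kernel) ?_
    refine jn 391 (by decide +kernel) ?_
    refine jn 396 (by decide +kernel) ?_
    refine jn 412 (by decide +kernel) ?_
    refine jn 427 (by decide +kernel) ?_
    refine jn 443 (by decide +kernel) ?_
    refine jn 458 (by decide +kernel) ?_
    refine jn 473 (by decide +kernel) ?_
    refine jn 484 (by decide +kernel) ?_
    refine jn 510 (by decide +kernel) ?_
    refine jn 517 (by decide +kernel) ?_
    refine jn 540 (by decide +kernel) ?_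
    refine jn 550 (by decide +kernel) ?_
    refine jn 566 (by decide +kernel) ?_
    refine jn 581 (by decide +kernel) ?_
    refine jn 596 (by decide +kernel) ?_
    refine jn 611 (by decide +kernel) ?_
    refine jn 626 (by decide +kernel) ?_
    refine jn 638 (by decide +kernel) ?_
    refine jn 640 (by decide +kernel) ?_
    refine jn 642 (by decide +kernel) ?_
    refine jn 644 (by decide +kernel) ?_
    refine jn 647 (by decide +kernel) ?_
    refine jn 650 (by decide +kernel) ?_
    refine jn 651 (by decide +kernel) ?_
    refine jn 654 (by decide +kernel) ?_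
    refine jn 656 (by decide +kernel) ?_
    refine jn 658 (by decide +kernel) ?_
    refine jn 660 (by decide +kernel) ?_
    refine jn 662 (by decide +kernel) ?_
    refine jn 664 (by decide +kernel) ?_
    refine jn 667 (by decide +kernel) ?_
    refine jn 668 (by decide +kernel) ?_
    refine jn 670 (by decide +kernel) ?_
    refine jn 672 (by decide +kernel) ?_
    refine jn 673 (by decide +kernel) ?_
    refine jn 676 (by decide +kernel) ?_
    refine jn 677 (by decide +kernel) ?_
    refine jn 679 (by decide +kernel) ?_
    refine jn 681 (by decide +kernel) ?_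
    refine jn 683 (by decide +kernel) ?_
    refine jn 685 (by decide +kernel) ?_
    refine jn 687 (by decide +kernel) ?_
    refine jn 690 (by decide +kernel) ?_
    refine jn 693 (by decide +kernel) ?_
    refine jn 695 (by decide +kernel) ?_
    refine jn 697 (by decide +kernel) ?_
    refine jn 699 (by decide +kernel) ?_
    refine jn 702 (by decide +kernel) ?_
    refine jn 716 (by decide +kernel) ?_
    refine jn 730 (by decide +kernel) ?_
    refine jn 740 (by decide +kernel) ?_
    refine jn 745 (by decide +kernel) ?_
    refine jn 748 (by decide +kernel) ?_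
    refine jn 750 (by decide +kernel) ?_
    refine jn 752 (by decide +kernel) ?_
    refine jn 754 (by decide +kernel) ?_
    refine jn 757 (by decide +kernel) ?_
    refine jn 758 (by decide +kernel) ?_
    refine jn 767 (by decide +kernel) ?_
    refine jn 771 (by decide +kernel) ?_
    refine jn 778 (by decide +kernel) ?_
    refine jn 784 (by decide +kernel) ?_
    refine jn 791 (by decide +kernel) ?_
    refine jn 797 (by decide +kernel) ?_
    refine jn 802 (by decide +kernel) ?_
    refine jn 807 (by decide +kernel) ?_
    refine jn 814 (by decide +kernel) ?_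
    refine jn 820 (by decide +kernel) ?_
    refine jn 827 (by decide +kernel) ?_
    refine jn 833 (by decide +kernel) ?_
    refine jn 839 (by decide +kernel) ?_
    refine jn 845 (by decide +kernel) ?_
    refine jn 851 (by decide +kernel) ?_
    refine jn 856 (by decide +kernel) ?_
    refine jn 860 (by decide +kernel) ?_
    refine jn 865 (by decide +kernel) ?_
    refine jn 870 (by decide +kernel) ?_
    refine jn 874 (by decide +kernel) ?_
    refine jn 880 (by decide +kernel) ?_
    refine jn 886 (by decide +kernel) ?_
    refine jn 893 (by decide +kernel) ?_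
    refine jn 900 (by decide +kernel) ?_
    refine jn 913 (by decide +kernel) ?_
    refine jn 914 (by decide +kernel) ?_
    refine jn 927 (by decide +kernel) ?_
    refine jn 938 (by decide +kernel) ?_
    refine jn 944 (by decide +kernel) ?_
    refine jn 950 (by decide +kernel) ?_
    refine jn 983 (by decide +kernel) ?_
    exact je (by decide +kernel)
  · refine fin 504 22956 T5_1 ?_
    refine jn 15 (by decide +kernel) ?_
    refine jn 46 (by decide +kernel) ?_
    refine jn 65 (by decide +kernel) ?_
    refine jn 66 (by decide +kernel) ?_
    refine jn 93 (by decide +kernel) ?_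
    refine jn 130 (by decide +kernel) ?_
    refine jn 162 (by decide +kernel) ?_
    refine jn 193 (by decide +kernel) ?_
    refine jn 194 (by decide +kernel) ?_
    refine jn 216 (by decide +kernel) ?_
    refine jn 217 (by decide +kernel) ?_
    refine jn 226 (by decide +kernel) ?_
    refine jn 230 (by decide +kernel) ?_
    refine jn 232 (by decide +kernel) ?_
    refine jn 233 (by decide +kernel) ?_
    refine jn 241 (by decide +kernel) ?_
    refine jn 252 (by decide +kernel) ?_
    refine jn 257 (by decide +kernel) ?_
    refine jn 266 (by decide +kernel) ?_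
    refine jn 275 (by decide +kernel) ?_
    refine jn 280 (by decide +kernel) ?_
    refine jn 281 (by decide +kernel) ?_
    refine jn 296 (by decide +kernel) ?_
    refine jn 300 (by decide +kernel) ?_
    refine jn 307 (by decide +kernel) ?_
    refine jn 313 (by decide +kernel) ?_
    refine jn 321 (by decide +kernel) ?_
    refine jn 337 (by decide +kernel) ?_
    refine jn 342 (by decide +kernel) ?_
    refine jn 345 (by decide +kernel) ?_
    refine jn 356 (by decide +kernel) ?_
    refine jn 363 (by decide +kernel) ?_
    refine jn 370 (by decide +kernel) ?_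
    refine jn 371 (by decide +kernel) ?_
    refine jn 377 (by decide +kernel) ?_
    refine jn 387 (by decide +kernel) ?_
    refine jn 392 (by decide +kernel) ?_
    refine jn 397 (by decide +kernel) ?_
    refine jn 400 (by decide +kernel) ?_
    refine jn 408 (by decide +kernel) ?_
    refine jn 409 (by decide +kernel) ?_
    refine jn 420 (by decide +kernel) ?_
    refine jn 429 (by decide +kernel) ?_
    refine jn 430 (by decide +kernel) ?_
    refine jn 439 (by decide +kernel) ?_
    refine jn 445 (by decide +kernel) ?_
    refine jn 446 (by decide +kernel) ?_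
    refine jn 458 (by decide +kernel) ?_
    refine jn 469 (by decide +kernel) ?_
    refine jn 474 (by decide +kernel) ?_
    refine jn 486 (by decide +kernel) ?_
    refine jn 493 (by decide +kernel) ?_
    refine jn 494 (by decide +kernel) ?_
    refine jn 509 (by decide +kernel) ?_
    refine jn 513 (by decide +kernel) ?_
    refine jn 520 (by decide +kernel) ?_
    refine jn 526 (by decide +kernel) ?_
    refine jn 534 (by decide +kernel) ?_
    refine jn 550 (by decide +kernel) ?_
    refine jn 555 (by decide +kernel) ?_
    refine jn 558 (by decide +kernel) ?_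
    refine jn 569 (by decide +kernel) ?_
    refine jn 576 (by decide +kernel) ?_
    refine jn 583 (by decide +kernel) ?_
    refine jn 589 (by decide +kernel) ?_
    refine jn 595 (by decide +kernel) ?_
    refine jn 605 (by decide +kernel) ?_
    refine jn 610 (by decide +kernel) ?_
    refine jn 613 (by decide +kernel) ?_
    refine jn 621 (by decide +kernel) ?_
    refine jn 622 (by decide +kernel) ?_
    refine jn 633 (by decide +kernel) ?_
    refine jn 650 (by decide +kernel) ?_
    refine jn 678 (by decide +kernel) ?_
    refine jn 692 (by decide +kernel) ?_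
    refine jn 713 (by decide +kernel) ?_
    refine jn 742 (by decide +kernel) ?_
    refine jn 765 (by decide +kernel) ?_
    refine jn 790 (by decide +kernel) ?_
    refine jn 817 (by decide +kernel) ?_
    refine jn 843 (by decide +kernel) ?_
    refine jn 869 (by decide +kernel) ?_
    refine jn 888 (by decide +kernel) ?_
    refine jn 919 (by decide +kernel) ?_
    refine jn 940 (by decide +kernel) ?_
    refine jn 956 (by decide +kernel) ?_
    refine jn 957 (by decide +kernel) ?_
    refine jn 966 (by decide +kernel) ?_
    refine jn 979 (by decide +kernel) ?_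
    refine jn 988 (by decide +kernel) ?_
    refine jn 992 (by decide +kernel) ?_
    refine jn 998 (by decide +kernel) ?_
    refine jn 1011 (by decide +kernel) ?_
    refine jn 1012 (by decide +kernel) ?_
    refine jn 1022 (by decide +kernel) ?_
    refine jn 1034 (by decide +kernel) ?_
    refine jn 1047 (by decide +kernel) ?_
    refine jn 1048 (by decide +kernel) ?_
    refine jn 1051 (by decide +kernel) ?_
    refine jn 1064 (by decide +kernel) ?_
    refine jn 1071 (by decide +kernel) ?_
    refine jn 1083 (by decide +kernel) ?_
    refine jn 1103 (by decide +kernel) ?_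
    refine jn 1114 (by decide +kernel) ?_
    refine jn 1116 (by decide +kernel) ?_
    refine jn 1118 (by decide +kernel) ?_
    refine jn 1127 (by decide +kernel) ?_
    refine jn 1144 (by decide +kernel) ?_
    refine jn 1148 (by decide +kernel) ?_
    refine jn 1157 (by decide +kernel) ?_
    refine jn 1171 (by decide +kernel) ?_
    refine jn 1176 (by decide +kernel) ?_
    refine jn 1183 (by decide +kernel) ?_
    refine jn 1192 (by decide +kernel) ?_
    refine jn 1202 (by decide +kernel) ?_
    refine jn 1214 (by decide +kernel) ?_
    refine jn 1228 (by decide +kernel) ?_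
    refine jn 1231 (by decide +kernel) ?_
    refine jn 1237 (by decide +kernel) ?_
    refine jn 1248 (by decide +kernel) ?_
    refine jn 1265 (by decide +kernel) ?_
    refine jn 1280 (by decide +kernel) ?_
    refine jn 1298 (by decide +kernel) ?_
    refine jn 1328 (by decide +kernel) ?_
    refine jn 1353 (by decide +kernel) ?_
    refine jn 1376 (by decide +kernel) ?_
    refine jn 1377 (by decide +kernel) ?_
    refine jn 1408 (by decide +kernel) ?_
    refine jn 1428 (by decide +kernel) ?_
    refine jn 1453 (by decide +kernel) ?_
    refine jn 1486 (by decide +kernel) ?_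
    refine jn 1502 (by decide +kernel) ?_
    refine jn 1528 (by decide +kernel) ?_
    refine jn 1556 (by decide +kernel) ?_
    refine jn 1570 (by decide +kernel) ?_
    refine jn 1600 (by decide +kernel) ?_
    refine jn 1616 (by decide +kernel) ?_
    refine jn 1632 (by decide +kernel) ?_
    refine jn 1645 (by decide +kernel) ?_
    refine jn 1673 (by decide +kernel) ?_
    refine jn 1681 (by decide +kernel) ?_
    refine jn 1693 (by decide +kernel) ?_
    refine jn 1698 (by decide +kernel) ?_
    refine jn 1705 (by decide +kernel) ?_
    refine jn 1706 (by decide +kernel) ?_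
    refine jn 1722 (by decide +kernel) ?_
    refine jn 1738 (by decide +kernel) ?_
    refine jn 1752 (by decide +kernel) ?_
    refine jn 1757 (by decide +kernel) ?_
    refine jn 1773 (by decide +kernel) ?_
    refine jn 1787 (by decide +kernel) ?_
    refine jn 1801 (by decide +kernel) ?_
    refine jn 1802 (by decide +kernel) ?_
    refine jn 1826 (by decide +kernel) ?_
    refine jn 1833 (by decide +kernel) ?_
    refine jn 1841 (by decide +kernel) ?_
    refine jn 1853 (by decide +kernel) ?_
    refine jn 1867 (by decide +kernel) ?_
    refine jn 1881 (by decide +kernel) ?_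
    refine jn 1892 (by decide +kernel) ?_
    refine jn 1913 (by decide +kernel) ?_
    refine jn 1925 (by decide +kernel) ?_
    refine jn 1931 (by decide +kernel) ?_
    refine jn 1942 (by decide +kernel) ?_
    refine jn 1957 (by decide +kernel) ?_
    refine jn 1980 (by decide +kernel) ?_
    refine jn 1983 (by decide +kernel) ?_
    refine jn 1993 (by decide +kernel) ?_
    refine jn 2000 (by decide +kernel) ?_
    refine jn 2018 (by decide +kernel) ?_
    refine jn 2025 (by decide +kernel) ?_
    refine jn 2030 (by decide +kernel) ?_
    refine jn 2041 (by decide +kernel) ?_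
    refine jn 2056 (by decide +kernel) ?_
    refine jn 2057 (by decide +kernel) ?_
    refine jn 2058 (by decide +kernel) ?_
    refine jn 2078 (by decide +kernel) ?_
    refine jn 2102 (by decide +kernel) ?_
    refine jn 2125 (by decide +kernel) ?_
    refine jn 2142 (by decide +kernel) ?_
    refine jn 2176 (by decide +kernel) ?_
    refine jn 2197 (by decide +kernel) ?_
    refine jn 2231 (by decide +kernel) ?_
    refine jn 2237 (by decide +kernel) ?_
    refine jn 2254 (by decide +kernel) ?_
    refine jn 2281 (by decide +kernel) ?_
    refine jn 2309 (by decide +kernel) ?_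
    refine jn 2339 (by decide +kernel) ?_
    refine jn 2365 (by decide +kernel) ?_
    refine jn 2397 (by decide +kernel) ?_
    refine jn 2429 (by decide +kernel) ?_
    refine jn 2450 (by decide +kernel) ?_
    refine jn 2484 (by decide +kernel) ?_
    refine jn 2510 (by decide +kernel) ?_
    refine jn 2554 (by decide +kernel) ?_
    refine jn 2581 (by decide +kernel) ?_
    refine jn 2614 (by decide +kernel) ?_
    refine jn 2650 (by decide +kernel) ?_
    refine jn 2677 (by decide +kernel) ?_
    refine jn 2703 (by decide +kernel) ?_
    refine jn 2724 (by decide +kernel) ?_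
    refine jn 2730 (by decide +kernel) ?_
    refine jn 2751 (by decide +kernel) ?_
    refine jn 2776 (by decide +kernel) ?_
    refine jn 2789 (by decide +kernel) ?_
    refine jn 2806 (by decide +kernel) ?_
    refine jn 2835 (by decide +kernel) ?_
    refine jn 2836 (by decide +kernel) ?_
    refine jn 2837 (by decide +kernel) ?_
    refine jn 2870 (by decide +kernel) ?_
    refine jn 2885 (by decide +kernel) ?_
    refine jn 2908 (by decide +kernel) ?_
    refine jn 2923 (by decide +kernel) ?_
    refine jn 2948 (by decide +kernel) ?_
    refine jn 2964 (by decide +kernel) ?_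
    refine jn 2989 (by decide +kernel) ?_
    refine jn 3013 (by decide +kernel) ?_
    refine jn 3039 (by decide +kernel) ?_
    refine jn 3049 (by decide +kernel) ?_
    refine jn 3075 (by decide +kernel) ?_
    refine jn 3104 (by decide +kernel) ?_
    refine jn 3125 (by decide +kernel) ?_
    refine jn 3151 (by decide +kernel) ?_
    refine jn 3166 (by decide +kernel) ?_
    refine jn 3188 (by decide +kernel) ?_
    refine jn 3213 (by decide +kernel) ?_
    refine jn 3238 (by decide +kernel) ?_
    refine jn 3268 (by decide +kernel) ?_
    refine jn 3278 (by decide +kernel) ?_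
    refine jn 3309 (by decide +kernel) ?_
    refine jn 3344 (by decide +kernel) ?_
    refine jn 3368 (by decide +kernel) ?_
    refine jn 3400 (by decide +kernel) ?_
    refine jn 3434 (by decide +kernel) ?_
    refine jn 3468 (by decide +kernel) ?_
    refine jn 3504 (by decide +kernel) ?_
    refine jn 3535 (by decide +kernel) ?_
    refine jn 3560 (by decide +kernel) ?_
    refine jn 3573 (by decide +kernel) ?_
    refine jn 3615 (by decide +kernel) ?_
    refine jn 3645 (by decide +kernel) ?_
    refine jn 3683 (by decide +kernel) ?_
    refine jn 3720 (by decide +kernel) ?_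
    refine jn 3759 (by decide +kernel) ?_
    refine jn 3792 (by decide +kernel) ?_
    refine jn 3820 (by decide +kernel) ?_
    refine jn 3864 (by decide +kernel) ?_
    refine jn 3909 (by decide +kernel) ?_
    refine jn 3944 (by decide +kernel) ?_
    refine jn 3977 (by decide +kernel) ?_
    refine jn 4014 (by decide +kernel) ?_
    refine jn 4053 (by decide +kernel) ?_
    refine jn 4093 (by decide +kernel) ?_
    refine jn 4120 (by decide +kernel) ?_
    refine jn 4153 (by decide +kernel) ?_
    refine jn 4171 (by decide +kernel) ?_
    refine jn 4193 (by decide +kernel) ?_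
    refine jn 4217 (by decide +kernel) ?_
    refine jn 4242 (by decide +kernel) ?_
    refine jn 4266 (by decide +kernel) ?_
    refine jn 4307 (by decide +kernel) ?_
    refine jn 4326 (by decide +kernel) ?_
    refine jn 4358 (by decide +kernel) ?_
    refine jn 4382 (by decide +kernel) ?_
    refine jn 4397 (by decide +kernel) ?_
    refine jn 4409 (by decide +kernel) ?_
    refine jn 4410 (by decide +kernel) ?_
    refine jn 4444 (by decide +kernel) ?_
    refine jn 4473 (by decide +kernel) ?_
    refine jn 4501 (by decide +kernel) ?_
    refine jn 4522 (by decide +kernel) ?_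
    refine jn 4558 (by decide +kernel) ?_
    refine jn 4584 (by decide +kernel) ?_
    refine jn 4628 (by decide +kernel) ?_
    refine jn 4649 (by decide +kernel) ?_
    refine jn 4668 (by decide +kernel) ?_
    refine jn 4704 (by decide +kernel) ?_
    refine jn 4738 (by decide +kernel) ?_
    refine jn 4769 (by decide +kernel) ?_
    refine jn 4793 (by decide +kernel) ?_
    refine jn 4817 (by decide +kernel) ?_
    refine jn 4857 (by decide +kernel) ?_
    refine jn 4881 (by decide +kernel) ?_
    refine jn 4909 (by decide +kernel) ?_
    refine jn 4923 (by decide +kernel) ?_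
    refine jn 4958 (by decide +kernel) ?_
    refine jn 4982 (by decide +kernel) ?_
    refine jn 5030 (by decide +kernel) ?_
    refine jn 5055 (by decide +kernel) ?_
    refine jn 5091 (by decide +kernel) ?_
    refine jn 5142 (by decide +kernel) ?_
    refine jn 5176 (by decide +kernel) ?_
    refine jn 5207 (by decide +kernel) ?_
    refine jn 5253 (by decide +kernel) ?_
    refine jn 5277 (by decide +kernel) ?_
    refine jn 5308 (by decide +kernel) ?_
    refine jn 5350 (by decide +kernel) ?_
    refine jn 5388 (by decide +kernel) ?_
    refine jn 5421 (by decide +kernel) ?_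
    refine jn 5451 (by decide +kernel) ?_
    refine jn 5497 (by decide +kernel) ?_
    refine jn 5527 (by decide +kernel) ?_
    refine jn 5578 (by decide +kernel) ?_
    refine jn 5617 (by decide +kernel) ?_
    refine jn 5661 (by decide +kernel) ?_
    refine jn 5701 (by decide +kernel) ?_
    refine jn 5737 (by decide +kernel) ?_
    refine jn 5785 (by decide +kernel) ?_
    refine jn 5821 (by decide +kernel) ?_
    refine jn 5861 (by decide +kernel) ?_
    refine jn 5907 (by decide +kernel) ?_
    refine jn 5938 (by decide +kernel) ?_
    refine jn 5981 (by decide +kernel) ?_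
    refine jn 6027 (by decide +kernel) ?_
    refine jn 6071 (by decide +kernel) ?_
    refine jn 6115 (by decide +kernel) ?_
    refine jn 6150 (by decide +kernel) ?_
    refine jn 6187 (by decide +kernel) ?_
    refine jn 6339 (by decide +kernel) ?_
    refine jn 6477 (by decide +kernel) ?_
    refine jn 6511 (by decide +kernel) ?_
    refine jn 6541 (by decide +kernel) ?_
    refine jn 6569 (by decide +kernel) ?_
    refine jn 6594 (by decide +kernel) ?_
    refine jn 6651 (by decide +kernel) ?_
    refine jn 6686 (by decide +kernel) ?_
    refine jn 6741 (by decide +kernel) ?_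
    refine jn 6781 (by decide +kernel) ?_
    refine jn 6807 (by decide +kernel) ?_
    refine jn 6852 (by decide +kernel) ?_
    refine jn 6903 (by decide +kernel) ?_
    refine jn 6934 (by decide +kernel) ?_
    refine jn 6973 (by decide +kernel) ?_
    refine jn 6999 (by decide +kernel) ?_
    refine jn 7043 (by decide +kernel) ?_
    refine jn 7098 (by decide +kernel) ?_
    refine jn 7126 (by decide +kernel) ?_
    refine jn 7177 (by decide +kernel) ?_
    refine jn 7219 (by decide +kernel) ?_
    refine jn 7259 (by decide +kernel) ?_
    refine jn 7297 (by decide +kernel) ?_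
    refine jn 7342 (by decide +kernel) ?_
    refine jn 7386 (by decide +kernel) ?_
    refine jn 7429 (by decide +kernel) ?_
    refine jn 7469 (by decide +kernel) ?_
    refine jn 7501 (by decide +kernel) ?_
    refine jn 7553 (by decide +kernel) ?_
    refine jn 7597 (by decide +kernel) ?_
    refine jn 7649 (by decide +kernel) ?_
    refine jn 7693 (by decide +kernel) ?_
    refine jn 7729 (by decide +kernel) ?_
    refine jn 7764 (by decide +kernel) ?_
    refine jn 7811 (by decide +kernel) ?_
    refine jn 7862 (by decide +kernel) ?_
    refine jn 7897 (by decide +kernel) ?_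
    refine jn 7938 (by decide +kernel) ?_
    refine jn 7993 (by decide +kernel) ?_
    refine jn 8041 (by decide +kernel) ?_
    refine jn 8081 (by decide +kernel) ?_
    refine jn 8121 (by decide +kernel) ?_
    refine jn 8202 (by decide +kernel) ?_
    refine jn 8545 (by decide +kernel) ?_
    refine jn 8635 (by decide +kernel) ?_
    refine jn 8700 (by decide +kernel) ?_
    refine jn 8777 (by decide +kernel) ?_
    refine jn 8847 (by decide +kernel) ?_
    refine jn 8922 (by decide +kernel) ?_
    refine jn 8990 (by decide +kernel) ?_
    refine jn 9078 (by decide +kernel) ?_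
    refine jn 9126 (by decide +kernel) ?_
    refine jn 9208 (by decide +kernel) ?_
    refine jn 9286 (by decide +kernel) ?_
    refine jn 9368 (by decide +kernel) ?_
    refine jn 9426 (by decide +kernel) ?_
    refine jn 9512 (by decide +kernel) ?_
    refine jn 9583 (by decide +kernel) ?_
    refine jn 9650 (by decide +kernel) ?_
    refine jn 9733 (by decide +kernel) ?_
    refine jn 9813 (by decide +kernel) ?_
    refine jn 9888 (by decide +kernel) ?_
    refine jn 9967 (by decide +kernel) ?_
    refine jn 10048 (by decide +kernel) ?_
    refine jn 10120 (by decide +kernel) ?_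
    refine jn 10198 (by decide +kernel) ?_
    refine jn 10282 (by decide +kernel) ?_
    refine jn 10358 (by decide +kernel) ?_
    refine jn 10422 (by decide +kernel) ?_
    refine jn 10497 (by decide +kernel) ?_
    refine jn 10572 (by decide +kernel) ?_
    refine jn 10655 (by decide +kernel) ?_
    refine jn 10740 (by decide +kernel) ?_
    refine jn 10828 (by decide +kernel) ?_
    refine jn 10891 (by decide +kernel) ?_
    refine jn 10969 (by decide +kernel) ?_
    refine jn 11284 (by decide +kernel) ?_
    refine jn 11511 (by decide +kernel) ?_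
    refine jn 11635 (by decide +kernel) ?_
    refine jn 11749 (by decide +kernel) ?_
    refine jn 11835 (by decide +kernel) ?_
    refine jn 11925 (by decide +kernel) ?_
    refine jn 11994 (by decide +kernel) ?_
    refine jn 12093 (by decide +kernel) ?_
    refine jn 12127 (by decide +kernel) ?_
    refine jn 12190 (by decide +kernel) ?_
    refine jn 12258 (by decide +kernel) ?_
    refine jn 12314 (by decide +kernel) ?_
    refine jn 12370 (by decide +kernel) ?_
    refine jn 12429 (by decide +kernel) ?_
    refine jn 12482 (by decide +kernel) ?_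
    refine jn 12532 (by decide +kernel) ?_
    refine jn 12583 (by decide +kernel) ?_
    refine jn 12628 (by decide +kernel) ?_
    refine jn 12672 (by decide +kernel) ?_
    refine jn 12719 (by decide +kernel) ?_
    refine jn 12763 (by decide +kernel) ?_
    refine jn 12800 (by decide +kernel) ?_
    refine jn 12829 (by decide +kernel) ?_
    refine jn 12865 (by decide +kernel) ?_
    refine jn 12900 (by decide +kernel) ?_
    refine jn 12932 (by decide +kernel) ?_
    refine jn 12971 (by decide +kernel) ?_
    refine jn 13003 (by decide +kernel) ?_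
    refine jn 13072 (by decide +kernel) ?_
    refine jn 13442 (by decide +kernel) ?_
    refine jn 13626 (by decide +kernel) ?_
    refine jn 13802 (by decide +kernel) ?_
    refine jn 13935 (by decide +kernel) ?_
    refine jn 14054 (by decide +kernel) ?_
    refine jn 14121 (by decide +kernel) ?_
    refine jn 14221 (by decide +kernel) ?_
    refine jn 14317 (by decide +kernel) ?_
    refine jn 14378 (by decide +kernel) ?_
    refine jn 14435 (by decide +kernel) ?_
    refine jn 14498 (by decide +kernel) ?_
    refine jn 14564 (by decide +kernel) ?_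
    refine jn 14618 (by decide +kernel) ?_
    refine jn 14672 (by decide +kernel) ?_
    refine jn 14733 (by decide +kernel) ?_
    refine jn 14787 (by decide +kernel) ?_
    refine jn 14834 (by decide +kernel) ?_
    refine jn 14882 (by decide +kernel) ?_
    refine jn 14924 (by decide +kernel) ?_
    refine jn 14975 (by decide +kernel) ?_
    refine jn 15020 (by decide +kernel) ?_
    refine jn 15065 (by decide +kernel) ?_
    refine jn 15378 (by decide +kernel) ?_
    refine jn 15509 (by decide +kernel) ?_
    refine jn 15611 (by decide +kernel) ?_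
    refine jn 15749 (by decide +kernel) ?_
    refine jn 15853 (by decide +kernel) ?_
    refine jn 15884 (by decide +kernel) ?_
    refine jn 15963 (by decide +kernel) ?_
    refine jn 16039 (by decide +kernel) ?_
    refine jn 16125 (by decide +kernel) ?_
    refine jn 16204 (by decide +kernel) ?_
    refine jn 16253 (by decide +kernel) ?_
    refine jn 16306 (by decide +kernel) ?_
    refine jn 16360 (by decide +kernel) ?_
    refine jn 16406 (by decide +kernel) ?_
    refine jn 16455 (by decide +kernel) ?_
    refine jn 16506 (by decide +kernel) ?_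
    refine jn 16552 (by decide +kernel) ?_
    refine jn 16609 (by decide +kernel) ?_
    refine jn 16654 (by decide +kernel) ?_
    refine jn 16704 (by decide +kernel) ?_
    refine jn 16735 (by decide +kernel) ?_
    refine jn 16769 (by decide +kernel) ?_
    refine jn 16805 (by decide +kernel) ?_
    refine jn 16844 (by decide +kernel) ?_
    refine jn 16883 (by decide +kernel) ?_
    refine jn 16909 (by decide +kernel) ?_
    refine jn 16933 (by decide +kernel) ?_
    refine jn 16957 (by decide +kernel) ?_
    refine jn 16989 (by decide +kernel) ?_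
    refine jn 17028 (by decide +kernel) ?_
    refine jn 17054 (by decide +kernel) ?_
    refine jn 17092 (by decide +kernel) ?_
    refine jn 17122 (by decide +kernel) ?_
    refine jn 17545 (by decide +kernel) ?_
    refine jn 17690 (by decide +kernel) ?_
    refine jn 17831 (by decide +kernel) ?_
    refine jn 17908 (by decide +kernel) ?_
    refine jn 18058 (by decide +kernel) ?_
    refine jn 18150 (by decide +kernel) ?_
    refine jn 18230 (by decide +kernel) ?_
    refine jn 18282 (by decide +kernel) ?_
    refine jn 18367 (by decide +kernel) ?_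
    refine jn 18425 (by decide +kernel) ?_
    refine jn 18507 (by decide +kernel) ?_
    refine jn 18593 (by decide +kernel) ?_
    refine jn 18664 (by decide +kernel) ?_
    refine jn 18724 (by decide +kernel) ?_
    refine jn 18805 (by decide +kernel) ?_
    refine jn 18872 (by decide +kernel) ?_
    refine jn 18938 (by decide +kernel) ?_
    refine jn 18982 (by decide +kernel) ?_
    refine jn 19015 (by decide +kernel) ?_
    refine jn 19067 (by decide +kernel) ?_
    refine jn 19114 (by decide +kernel) ?_
    refine jn 19159 (by decide +kernel) ?_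
    refine jn 19578 (by decide +kernel) ?_
    refine jn 19778 (by decide +kernel) ?_
    refine jn 19942 (by decide +kernel) ?_
    refine jn 20062 (by decide +kernel) ?_
    refine jn 20197 (by decide +kernel) ?_
    refine jn 20317 (by decide +kernel) ?_
    refine jn 20442 (by decide +kernel) ?_
    refine jn 20534 (by decide +kernel) ?_
    refine jn 20626 (by decide +kernel) ?_
    refine jn 20714 (by decide +kernel) ?_
    refine jn 20809 (by decide +kernel) ?_
    refine jn 21408 (by decide +kernel) ?_
    refine jn 21549 (by decide +kernel) ?_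
    refine jn 21693 (by decide +kernel) ?_
    refine jn 21834 (by decide +kernel) ?_
    refine jn 21966 (by decide +kernel) ?_
    refine jn 22110 (by decide +kernel) ?_
    refine jn 22226 (by decide +kernel) ?_
    refine jn 22338 (by decide +kernel) ?_
    refine jn 22439 (by decide +kernel) ?_
    exact je (by decide +kernel)

end Pool.Agent.MP_2339ce_nt.NR
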