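import Pool.Agent.MP_2339ce_nt.Q2.NC.L9
import Pool.Agent.MP_2339ce_nt.Q2.NC.L10
import Pool.Agent.MP_2339ce_nt.Q2.CkI

/-! Block NR: runs. -/

set_option autoImplicit false
set_option maxRecDepth 100000

noncomputable section

namespace Pool.Agent.MP_2339ce_nt.NR

open Q2.Top

def T50_0 : Ph :=
  (.na 659 12 (.na 342 6 (.na 341 4 (.nx 340 6658044 (.nr 339 1482912 (.nx 310 1664512 (.nx 2 233
  (.nr 1 41 (.lg 0 true 1 41 41 5 0 360) (.l1 .sk)) (.nx 3 234 (.l1 .sk) (.nx 55 32768 (.nr 31
  220437 (.lg 0 false 28 103 109 16 0 720720) (.nx 42 408 (.lg 0 false 11 83 83 16 0 3960) (.nx 43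
  20642 .out (.nr 54 262145 (.lg 0 false 11 101 107 16 0 720720) .out)))) (.nr 309 311745 (.nx 297
  832257 (.nr 90 1391 (.nr 83 668 (.lg 0 true 28 83 89 16 0 5040) (.lg 2 true 7 83 89 13 145147
  2520)) (.nx 174 82572 (.nx 118 44590 (.lg 1 false 28 101 107 16 258442 720720) (.nx 146 60679
  (.lg 1 false 28 101 107 16 189922 720720) (.lg 1 false 28 101 107 16 139564 720720))) (.nr 296
  262145 (.nr 181 2898 (.lg 2 true 7 83 89 13 69704 2520) (.nx 295 660563 (.nr 185 5549 (.lg 2 true
  4 89 89 7 26555 720) (.nx 214 104031 (.nr 213 220437 (.lg 1 false 28 97 107 16 72543 720720)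
  .out) (.nx 242 165142 (.lg 1 false 28 101 107 16 68462 720720) (.nr 294 220437 (.nx 270 262145
  (.lg 1 true 28 101 107 16 36272 720720) (.nr 293 110219 (.nr 274 10626 (.lg 2 true 4 89 97 7
  13869 720) (.nr 285 77937 (.lg 2 false 11 101 107 16 8095 720720) (.nx 292 330282 (.lg 2 false 7
  101 103 13 11438 720720) .out))) .out)) .out)))) .out)) .out))) (.nr 308 154 (.lg 0 true 11 83 83
  16 0 3960) .out)) .out)))) (.nr 338 33 (.lg 0 true 28 79 79 16 0 1008) .out)) .out) .out) .ne)
  (.na 556 7 (.nx 555 21137969 (.nr 554 1048577 (.nx 344 233 (.nr 343 75 (.lg 0 true 1 31 31 7 0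
  144) (.l1 .sk)) (.nx 345 234 (.l1 .sk) (.nr 548 623489 (.nx 504 2642247 (.nx 388 52015 (.nr 380
  220437 (.lg 0 false 35 97 107 23 0 720720) (.nx 387 814 (.lg 0 false 7 79 83 13 0 1008) .out))
  (.nr 503 311745 (.nx 492 832257 (.nr 398 941 (.lg 0 true 10 83 83 13 0 720) (.nr 408 12646 (.nr
  403 3451 (.lg 2 true 5 83 89 13 103038 720) (.lg 2 true 5 83 89 13 28096 720)) (.nx 443 112360
  (.lg 1 false 35 97 107 23 162811 720720) (.nx 478 262145 (.lg 1 true 35 97 107 23 75370 720720)
  (.nr 491 131073 (.nx 485 330282 (.lg 1 true 7 97 101 13 13597 144144) (.nr 490 46342 (.lg 2 false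
  5 83 89 13 7668 720) .out)) .out))))) (.nr 502 257 (.lg 0 true 10 79 79 13 0 720) .out)) .out))
  (.nr 547 28 (.nx 517 5284493 (.lg 0 true 13 71 71 13 0 1872) (.lg 0 true 30 73 73 13 0 720))
  .out)) (.nx 553 324 (.lg 0 false 5 71 71 13 0 720) .out)))) .out) .out) (.na 557 11 .ne (.nx 658
  2642247 (.nr 657 1246976 (.nx 559 233 (.nr 558 129 (.lg 0 false 1 29 29 9 0 792) (.l1 .sk)) (.nx
  560 234 (.l1 .sk) (.nr 651 741457 (.nx 586 65536 (.nr 580 262145 (.lg 0 false 20 101 107 16 0
  720720) (.nx 585 1292 (.lg 0 false 5 79 79 16 0 3960) .out)) (.nr 650 311745 (.nx 642 1321124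
  (.nr 596 1090 (.lg 0 true 10 83 83 16 0 7920) (.nx 621 262145 (.nx 601 92681 (.lg 1 false 5 97 97
  16 129220 3960) (.lg 1 true 20 97 107 16 91373 720720)) (.nr 641 185365 (.nr 626 4525 (.lg 2 true
  5 83 83 16 141203 3960) (.nr 630 18780 (.lg 2 true 4 83 89 16 34014 1584) (.nx 635 330282 (.lg 1
  true 5 89 89 16 19219 3960) (.nr 640 110219 (.lg 2 false 5 83 89 16 9078 3960) .out)))) .out)))
  (.nr 649 65 (.lg 0 true 7 67 67 16 0 5544) .out)) .out)) (.nx 656 408 (.lg 0 false 5 71 71 16 0
  3960) .out)))) .out) .out)))) (.na 740 18 (.na 660 13 .ne (.na 739 16 (.nx 738 2642247 (.nr 737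
  1246976 (.nx 663 234 (.nx 662 233 (.nr 661 173 (.lg 0 true 1 31 31 9 0 4680) (.l1 .sk)) (.l1
  .sk)) (.nx 729 660563 (.nx 664 324 (.l1 (.ls 83 37 3866)) (.nr 728 1048577 (.nx 665 408 (.l1 (.ls
  83 41 4732)) (.nr 727 741457 (.nx 680 41285 (.nr 672 220437 (.lg 0 false 7 103 107 16 0 720720)
  (.nx 679 1627 (.lg 0 false 7 83 83 16 0 32760) .out)) (.nr 726 311745 (.nr 691 9057 (.nr 687 1251
  (.lg 0 true 7 83 83 16 0 32760) (.lg 2 true 4 83 89 16 61516 9360)) (.nx 721 330282 (.nx 699
  82570 (.nr 698 262145 (.lg 1 false 7 101 103 16 172514 720720) .out) (.nx 706 116772 (.lg 1 false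
  7 101 103 16 102562 720720) (.nx 713 208065 (.lg 1 true 7 101 103 16 72522 720720) (.nr 720
  220437 (.lg 1 true 7 101 103 16 28790 720720) .out)))) (.nr 725 77937 (.lg 2 false 4 89 89 16
  8497 9360) .out))) .out)) .out)) .out)) (.nr 736 65 (.lg 0 true 7 71 71 16 0 6552) .out))) .out)
  .out) .ne)) (.na 795 22 (.nx 794 2642247 (.nr 793 1246976 (.nr 741 10 .s1 (.nx 745 408 (.nx 743
  233 (.nr 742 238 (.lg 0 true 1 31 31 13 0 7920) (.l1 .sk)) (.nx 744 234 (.l1 .sk) (.l1 (.ls 83 47
  6209)))) (.nr 792 741457 (.nr 786 311745 (.nx 778 660563 (.nr 774 220437 (.nx 752 53521 (.lg 0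
  false 7 101 103 19 0 720720) (.nr 759 1726 (.lg 0 true 7 79 83 19 0 1008) (.nx 773 524289 (.nx
  766 105526 (.lg 1 false 7 101 103 19 111920 720720) (.lg 2 false 7 101 107 19 56764 720720))
  .out))) (.nx 777 13005 (.lg 0 false 3 89 89 13 0 7920) .out)) (.nr 785 129 (.lg 0 true 7 71 71 19
  0 1008) .out)) (.nx 791 1627 (.lg 0 false 5 79 79 19 0 720) .out)) .out))) .out) .out) (.na 847
  23 (.nx 846 2642247 (.nr 845 1246976 (.nr 796 16 .s1 (.nx 799 234 (.nx 798 233 (.nr 797 249 (.lg
  0 false 1 31 31 9 0 102960) (.l1 .sk)) (.l1 .sk)) (.nx 800 408 (.l1 (.ls 83 47 5080)) (.nr 844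
  741457 (.nr 840 311745 (.nr 836 220437 (.nx 807 53521 (.lg 0 false 7 101 103 19 0 720720) (.nx
  829 660563 (.nr 814 1726 (.lg 0 true 7 83 83 19 0 55440) (.nx 828 524289 (.nx 821 105526 (.lg 1
  false 7 97 101 19 111920 720720) (.lg 2 false 7 101 103 19 56764 720720)) .out)) (.nr 835 129
  (.lg 0 true 6 71 71 19 0 1584) .out))) (.nx 839 13005 (.lg 0 false 3 89 89 13 0 7920) .out)) (.nx
  843 1627 (.lg 0 false 3 79 79 13 0 1584) .out)) .out)))) .out) .out) .ne))))

def T50_1 : Ph :=
  (.na 952 4 (.na 364 2 (.nx 363 2097153 (.nr 362 881745 (.nx 3 208 (.nx 2 207 (.nr 1 15 (.lg 0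
  false 1 47 47 5 0 1656) (.l1 .sk)) (.l1 .sk)) (.nr 318 131073 (.nx 55 32769 (.lg 0 false 52 107
  113 16 0 16576560) (.nr 317 110219 (.nx 288 1048577 (.nr 107 901 (.lg 0 true 52 97 103 16 0
  215280) (.nx 159 52017 (.lg 1 false 52 103 109 16 72199 16576560) (.nr 287 77937 (.nr 234 38969
  (.nr 172 1724 (.lg 2 true 13 101 103 9 120453 1506960) (.nx 233 832257 (.nr 185 3160 (.lg 2 true
  13 101 103 9 49965 1506960) (.nr 198 5794 (.lg 2 true 13 101 103 9 27260 1506960) (.nx 232 660563
  (.nr 218 27556 (.lg 2 false 20 103 109 11 11800 16576560) (.nx 231 524289 (.lg 2 true 13 103 107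
  9 16136 16576560) .out)) .out))) .out)) (.nx 286 330282 (.lg 2 false 52 101 109 16 32186
  16576560) .out)) .out))) (.nr 316 129 (.lg 0 true 28 89 89 11 0 23184) .out)) .out)) (.nx 361
  8193 (.nx 347 4096 (.nx 346 324 (.lg 0 false 28 89 89 11 0 115920) .out) (.nr 360 155873 (.lg 0
  false 13 103 107 9 0 16576560) .out)) .out))) .out) .out) (.na 664 3 (.nx 663 3329023 (.nr 662
  623489 (.nx 646 2097153 (.nx 610 1048577 (.nx 434 41287 (.nx 367 208 (.nx 366 207 (.nr 365 27
  (.lg 0 false 1 41 41 5 0 3312) (.l1 .sk)) (.l1 .sk)) (.nr 422 220437 (.lg 0 false 55 103 109 13 0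
  16576560) (.nx 433 324 (.lg 0 false 11 79 79 9 0 36432) .out))) (.nr 609 155873 (.nr 481 3446
  (.nr 469 1025 (.lg 0 true 35 89 97 13 0 115920) (.nx 480 832257 (.lg 2 true 11 97 97 9 84038
  36432) .out)) (.nx 608 524289 (.nx 536 82572 (.lg 1 false 55 101 109 13 80994 16576560) (.nr 607
  131073 (.nx 571 131073 (.lg 1 true 35 97 103 13 34063 1506960) (.nr 606 110219 (.lg 2 false 35
  101 107 13 18050 1506960) .out)) .out)) .out)) .out)) (.nr 645 129 (.lg 0 true 35 79 83 13 0
  115920) .out)) (.nr 661 9 (.lg 0 true 15 71 71 9 0 16560) .out)) .out) .out) (.nx 951 6658044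
  (.nr 950 1482912 (.nx 909 1321124 (.nx 667 208 (.nx 666 207 (.nr 665 39 (.lg 0 true 1 37 37 5 0
  1656) (.l1 .sk)) (.l1 .sk)) (.nx 723 32768 (.nr 702 185365 (.lg 0 false 35 101 107 16 0 1506960)
  (.nx 722 324 (.lg 0 false 20 79 79 16 0 16560) .out)) (.nr 908 220437 (.nr 758 748 (.lg 0 true 35
  83 89 16 0 57960) (.nx 907 524289 (.nx 793 52017 (.lg 1 false 35 97 103 16 144265 1506960) (.nr
  906 185365 (.nr 800 3167 (.lg 2 true 7 89 89 7 72546 11592) (.nr 807 13397 (.lg 2 true 7 97 97 7
  17135 23184) (.nx 898 208065 (.nx 877 165142 (.nx 842 96321 (.lg 1 false 35 101 107 16 76434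
  16576560) (.lg 1 true 35 97 103 16 41277 1506960)) (.nr 897 92683 (.lg 1 true 20 89 97 16 12052
  215280) .out)) (.nr 905 38969 (.lg 2 false 7 89 89 7 4051 23184) .out)))) .out)) .out)) .out)))
  (.nr 949 33 (.lg 0 true 40 73 73 7 0 16560) .out)) .out) .out))) (.na 1175 6 (.na 1174 5 (.nx
  1173 16777217 (.nr 1172 1246976 (.nx 1117 2097153 (.nx 955 208 (.nx 954 207 (.nr 953 49 (.lg 0
  true 1 41 41 9 0 16560) (.l1 .sk)) (.l1 .sk)) (.nx 1105 524289 (.nx 1010 31100 (.nr 990 155873
  (.lg 0 false 35 97 107 19 0 1506960) (.nx 1001 324 (.lg 0 false 11 83 83 13 0 36432) (.nx 1002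
  16384 .out (.nr 1009 185365 (.lg 0 false 7 101 103 11 0 1506960) .out)))) (.nr 1104 220437 (.nr
  1021 729 (.lg 0 true 11 89 89 13 0 36432) (.nr 1028 2909 (.lg 2 true 7 89 97 11 74437 115920)
  (.nr 1035 11603 (.lg 2 true 7 97 101 11 18654 1506960) (.nx 1096 208065 (.nx 1080 131073 (.nx
  1069 92682 (.nx 1058 65536 (.nr 1057 185365 (.nx 1046 45146 (.lg 1 false 11 101 107 13 127841
  2368080) (.lg 1 false 11 101 107 13 88067 2368080)) .out) (.lg 1 false 11 103 107 13 72132
  2368080)) (.lg 1 false 11 103 107 13 51005 2368080)) (.nr 1095 155873 (.nx 1087 165142 (.lg 1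
  true 7 103 107 11 25513 1506960) (.nr 1094 131073 (.lg 1 true 7 101 103 11 17032 1506960) .out))
  .out)) (.nr 1103 55110 (.lg 2 false 7 97 101 11 5697 115920) .out))))) .out)) (.nr 1116 183 (.lg
  0 true 11 89 89 13 0 36432) .out))) (.nr 1171 21 (.nx 1143 8388609 (.lg 0 true 26 79 79 11 0
  43056) (.lg 0 true 28 83 83 11 0 23184)) .out)) .out) .out) .ne) (.na 1328 7 (.nx 1327 16777217
  (.nr 1326 1048577 (.nx 1177 207 (.nr 1176 70 (.lg 0 false 1 41 41 7 0 16560) (.l1 .sk)) (.nx 1178
  208 (.l1 .sk) (.nx 1272 1048577 (.nx 1179 257 (.l1 (.ls 89 47 3800)) (.nr 1271 623489 (.nx 1202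
  41285 (.nx 1180 324 (.l1 (.ls 83 47 6490)) (.nr 1201 370729 (.nr 1193 155873 (.lg 0 false 13 107
  109 13 0 16576560) (.nx 1200 2049 (.lg 0 false 7 89 89 13 0 115920) .out)) .out)) (.nr 1270
  220437 (.nr 1215 1026 (.lg 0 true 13 89 89 13 0 43056) (.nx 1269 660563 (.nx 1228 76448 (.lg 1
  false 13 103 107 13 114503 16576560) (.nr 1235 8201 (.lg 2 true 7 97 97 13 66636 115920) (.nx
  1248 112360 (.lg 1 false 13 101 107 13 61836 16576560) (.nx 1261 208065 (.lg 1 true 13 103 107 13
  42072 16576560) (.nr 1268 77937 (.lg 2 false 7 97 97 13 8337 115920) .out))))) .out)) .out))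
  .out)) (.nr 1325 129 (.nr 1311 44 (.lg 0 true 39 79 79 13 0 43056) (.nx 1324 2097153 (.lg 0 true
  13 73 73 13 0 43056) .out)) .out)))) .out) .out) .ne)))

theorem c50 :
    OkQ ckI L10 233 3 26 0 34359738368 1 1099511627776 ∧
    OkQ ckI L9 207 1 8 0 34359738368 1 1099511627776 := by
  refine ⟨?_, ?_⟩
  · refine fin 72 848 T50_0 ?_
    refine jn 4 (by decide +kernel) ?_
    refine jn 6 (by decide +kernel) ?_
    refine jn 8 (by decide +kernel) ?_
    refine jn 9 (by decide +kernel) ?_
    refine jn 10 (by decide +kernel) ?_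
    refine jn 11 (by decide +kernel) ?_
    refine jn 13 (by decide +kernel) ?_
    refine jn 15 (by decide +kernel) ?_
    refine jn 16 (by decide +kernel) ?_
    refine jn 18 (by decide +kernel) ?_
    refine jn 20 (by decide +kernel) ?_
    refine jn 22 (by decide +kernel) ?_
    refine jn 23 (by decide +kernel) ?_
    refine jn 24 (by decide +kernel) ?_
    refine jn 25 (by decide +kernel) ?_
    refine jn 27 (by decide +kernel) ?_
    refine jn 29 (by decide +kernel) ?_
    refine jn 30 (by decide +kernel) ?_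
    refine jn 42 (by decide +kernel) ?_
    refine jn 54 (by decide +kernel) ?_
    refine jn 58 (by decide +kernel) ?_
    refine jn 61 (by decide +kernel) ?_
    refine jn 64 (by decide +kernel) ?_
    refine jn 67 (by decide +kernel) ?_
    refine jn 70 (by decide +kernel) ?_
    refine jn 73 (by decide +kernel) ?_
    refine jn 76 (by decide +kernel) ?_
    refine jn 79 (by decide +kernel) ?_
    refine jn 82 (by decide +kernel) ?_
    refine jn 83 (by decide +kernel) ?_
    refine jn 90 (by decide +kernel) ?_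
    refine jn 98 (by decide +kernel) ?_
    refine jn 107 (by decide +kernel) ?_
    refine jn 116 (by decide +kernel) ?_
    refine jn 118 (by decide +kernel) ?_
    refine jn 126 (by decide +kernel) ?_
    refine jn 135 (by decide +kernel) ?_
    refine jn 144 (by decide +kernel) ?_
    refine jn 146 (by decide +kernel) ?_
    refine jn 154 (by decide +kernel) ?_
    refine jn 163 (by decide +kernel) ?_
    refine jn 172 (by decide +kernel) ?_
    refine jn 174 (by decide +kernel) ?_
    refine jn 181 (by decide +kernel) ?_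
    refine jn 185 (by decide +kernel) ?_
    refine jn 194 (by decide +kernel) ?_
    refine jn 204 (by decide +kernel) ?_
    refine jn 213 (by decide +kernel) ?_
    refine jn 220 (by decide +kernel) ?_
    refine jn 226 (by decide +kernel) ?_
    refine jn 231 (by decide +kernel) ?_
    refine jn 236 (by decide +kernel) ?_
    refine jn 242 (by decide +kernel) ?_
    refine jn 249 (by decide +kernel) ?_
    refine jn 256 (by decide +kernel) ?_
    refine jn 263 (by decide +kernel) ?_
    refine jn 270 (by decide +kernel) ?_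
    refine jn 274 (by decide +kernel) ?_
    refine jn 285 (by decide +kernel) ?_
    refine jn 292 (by decide +kernel) ?_
    refine jn 304 (by decide +kernel) ?_
    refine jn 308 (by decide +kernel) ?_
    refine jn 310 (by decide +kernel) ?_
    refine jn 318 (by decide +kernel) ?_
    refine jn 338 (by decide +kernel) ?_
    refine jn 348 (by decide +kernel) ?_
    refine jn 352 (by decide +kernel) ?_
    refine jn 356 (by decide +kernel) ?_
    refine jn 361 (by decide +kernel) ?_
    refine jn 363 (by decide +kernel) ?_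
    refine jn 368 (by decide +kernel) ?_
    refine jn 372 (by decide +kernel) ?_
    refine jn 374 (by decide +kernel) ?_
    refine jn 378 (by decide +kernel) ?_
    refine jn 387 (by decide +kernel) ?_
    refine jn 391 (by decide +kernel) ?_
    refine jn 395 (by decide +kernel) ?_
    refine jn 398 (by decide +kernel) ?_
    refine jn 403 (by decide +kernel) ?_
    refine jn 408 (by decide +kernel) ?_
    refine jn 418 (by decide +kernel) ?_
    refine jn 429 (by decide +kernel) ?_
    refine jn 439 (by decide +kernel) ?_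
    refine jn 443 (by decide +kernel) ?_
    refine jn 453 (by decide +kernel) ?_
    refine jn 463 (by decide +kernel) ?_
    refine jn 473 (by decide +kernel) ?_
    refine jn 478 (by decide +kernel) ?_
    refine jn 490 (by decide +kernel) ?_
    refine jn 502 (by decide +kernel) ?_
    refine jn 547 (by decide +kernel) ?_
    refine jn 560 (by decide +kernel) ?_
    refine jn 565 (by decide +kernel) ?_
    refine jn 570 (by decide +kernel) ?_
    refine jn 575 (by decide +kernel) ?_
    refine jn 580 (by decide +kernel) ?_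
    refine jn 590 (by decide +kernel) ?_
    refine jn 596 (by decide +kernel) ?_
    refine jn 601 (by decide +kernel) ?_
    refine jn 614 (by decide +kernel) ?_
    refine jn 621 (by decide +kernel) ?_
    refine jn 630 (by decide +kernel) ?_
    refine jn 640 (by decide +kernel) ?_
    refine jn 656 (by decide +kernel) ?_
    refine jn 665 (by decide +kernel) ?_
    refine jn 668 (by decide +kernel) ?_
    refine jn 671 (by decide +kernel) ?_
    refine jn 679 (by decide +kernel) ?_
    refine jn 686 (by decide +kernel) ?_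
    refine jn 691 (by decide +kernel) ?_
    refine jn 698 (by decide +kernel) ?_
    refine jn 713 (by decide +kernel) ?_
    refine jn 725 (by decide +kernel) ?_
    refine jn 736 (by decide +kernel) ?_
    refine jn 748 (by decide +kernel) ?_
    refine jn 752 (by decide +kernel) ?_
    refine jn 759 (by decide +kernel) ?_
    refine jn 766 (by decide +kernel) ?_
    refine jn 773 (by decide +kernel) ?_
    refine jn 785 (by decide +kernel) ?_
    refine jn 799 (by decide +kernel) ?_
    refine jn 804 (by decide +kernel) ?_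
    refine jn 807 (by decide +kernel) ?_
    refine jn 814 (by decide +kernel) ?_
    refine jn 821 (by decide +kernel) ?_
    refine jn 828 (by decide +kernel) ?_
    refine jn 839 (by decide +kernel) ?_
    exact je (by decide +kernel)
  · refine fin 1656 1329 T50_1 ?_
    refine jn 6 (by decide +kernel) ?_
    refine jn 10 (by decide +kernel) ?_
    refine jn 15 (by decide +kernel) ?_
    refine jn 19 (by decide +kernel) ?_
    refine jn 24 (by decide +kernel) ?_
    refine jn 28 (by decide +kernel) ?_
    refine jn 30 (by decide +kernel) ?_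
    refine jn 34 (by decide +kernel) ?_
    refine jn 39 (by decide +kernel) ?_
    refine jn 43 (by decide +kernel) ?_
    refine jn 48 (by decide +kernel) ?_
    refine jn 52 (by decide +kernel) ?_
    refine jn 55 (by decide +kernel) ?_
    refine jn 65 (by decide +kernel) ?_
    refine jn 76 (by decide +kernel) ?_
    refine jn 85 (by decide +kernel) ?_
    refine jn 96 (by decide +kernel) ?_
    refine jn 107 (by decide +kernel) ?_
    refine jn 124 (by decide +kernel) ?_
    refine jn 140 (by decide +kernel) ?_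
    refine jn 158 (by decide +kernel) ?_
    refine jn 172 (by decide +kernel) ?_
    refine jn 198 (by decide +kernel) ?_
    refine jn 218 (by decide +kernel) ?_
    refine jn 231 (by decide +kernel) ?_
    refine jn 252 (by decide +kernel) ?_
    refine jn 270 (by decide +kernel) ?_
    refine jn 286 (by decide +kernel) ?_
    refine jn 312 (by decide +kernel) ?_
    refine jn 346 (by decide +kernel) ?_
    refine jn 366 (by decide +kernel) ?_
    refine jn 374 (by decide +kernel) ?_
    refine jn 384 (by decide +kernel) ?_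
    refine jn 393 (by decide +kernel) ?_
    refine jn 398 (by decide +kernel) ?_
    refine jn 407 (by decide +kernel) ?_
    refine jn 415 (by decide +kernel) ?_
    refine jn 422 (by decide +kernel) ?_
    refine jn 444 (by decide +kernel) ?_
    refine jn 456 (by decide +kernel) ?_
    refine jn 469 (by decide +kernel) ?_
    refine jn 481 (by decide +kernel) ?_
    refine jn 509 (by decide +kernel) ?_
    refine jn 536 (by decide +kernel) ?_
    refine jn 567 (by decide +kernel) ?_
    refine jn 587 (by decide +kernel) ?_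
    refine jn 606 (by decide +kernel) ?_
    refine jn 638 (by decide +kernel) ?_
    refine jn 661 (by decide +kernel) ?_
    refine jn 673 (by decide +kernel) ?_
    refine jn 682 (by decide +kernel) ?_
    refine jn 694 (by decide +kernel) ?_
    refine jn 702 (by decide +kernel) ?_
    refine jn 730 (by decide +kernel) ?_
    refine jn 746 (by decide +kernel) ?_
    refine jn 758 (by decide +kernel) ?_
    refine jn 793 (by decide +kernel) ?_
    refine jn 807 (by decide +kernel) ?_
    refine jn 842 (by decide +kernel) ?_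
    refine jn 876 (by decide +kernel) ?_
    refine jn 897 (by decide +kernel) ?_
    refine jn 949 (by decide +kernel) ?_
    refine jn 955 (by decide +kernel) ?_
    refine jn 957 (by decide +kernel) ?_
    refine jn 959 (by decide +kernel) ?_
    refine jn 961 (by decide +kernel) ?_
    refine jn 964 (by decide +kernel) ?_
    refine jn 966 (by decide +kernel) ?_
    refine jn 968 (by decide +kernel) ?_
    refine jn 970 (by decide +kernel) ?_
    refine jn 973 (by decide +kernel) ?_
    refine jn 975 (by decide +kernel) ?_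
    refine jn 977 (by decide +kernel) ?_
    refine jn 980 (by decide +kernel) ?_
    refine jn 982 (by decide +kernel) ?_
    refine jn 985 (by decide +kernel) ?_
    refine jn 987 (by decide +kernel) ?_
    refine jn 989 (by decide +kernel) ?_
    refine jn 1001 (by decide +kernel) ?_
    refine jn 1010 (by decide +kernel) ?_
    refine jn 1012 (by decide +kernel) ?_
    refine jn 1014 (by decide +kernel) ?_
    refine jn 1016 (by decide +kernel) ?_
    refine jn 1018 (by decide +kernel) ?_
    refine jn 1020 (by decide +kernel) ?_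
    refine jn 1021 (by decide +kernel) ?_
    refine jn 1028 (by decide +kernel) ?_
    refine jn 1035 (by decide +kernel) ?_
    refine jn 1043 (by decide +kernel) ?_
    refine jn 1051 (by decide +kernel) ?_
    refine jn 1057 (by decide +kernel) ?_
    refine jn 1065 (by decide +kernel) ?_
    refine jn 1069 (by decide +kernel) ?_
    refine jn 1076 (by decide +kernel) ?_
    refine jn 1080 (by decide +kernel) ?_
    refine jn 1087 (by decide +kernel) ?_
    refine jn 1094 (by decide +kernel) ?_
    refine jn 1103 (by decide +kernel) ?_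
    refine jn 1113 (by decide +kernel) ?_
    refine jn 1116 (by decide +kernel) ?_
    refine jn 1143 (by decide +kernel) ?_
    refine jn 1171 (by decide +kernel) ?_
    refine jn 1186 (by decide +kernel) ?_
    refine jn 1193 (by decide +kernel) ?_
    refine jn 1202 (by decide +kernel) ?_
    refine jn 1215 (by decide +kernel) ?_
    refine jn 1235 (by decide +kernel) ?_
    refine jn 1261 (by decide +kernel) ?_
    refine jn 1311 (by decide +kernel) ?_
    exact je (by decide +kernel)

end Pool.Agent.MP_2339ce_nt.NR
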