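import Pool.Agent.MP_2339ce_nt.Q2.NC.L10
import Pool.Agent.MP_2339ce_nt.Q2.CkI

/-! Block NR: runs. -/

set_option autoImplicit false
set_option maxRecDepth 100000

noncomputable section

namespace Pool.Agent.MP_2339ce_nt.NR

open Q2.Top

def T54_0 : Ph :=
  (.na 478 36 (.na 287 27 (.na 187 21 (.na 99 13 (.nx 98 2642247 (.nr 97 1246976 (.nx 24 41285 (.nx
  3 249 (.nx 2 248 (.nr 1 145 (.lg 0 true 1 43 43 13 0 156240) (.l1 .sk)) (.l1 .sk)) (.nr 14 220437
  (.lg 0 false 11 103 109 29 0 22342320) (.nx 23 1627 (.nr 19 741457 (.lg 0 false 5 97 101 19 0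
  156240) (.nx 22 408 (.lg 0 false 3 83 83 19 0 4464) .out)) .out))) (.nr 96 311745 (.nx 88 660563
  (.nr 31 4329 (.nr 29 1112 (.lg 0 true 5 97 97 19 0 156240) (.lg 2 true 2 97 101 13 73660 156240))
  (.nr 33 16844 (.lg 2 true 2 97 101 13 18922 156240) (.nx 56 116772 (.nx 45 82570 (.nr 44 262145
  (.lg 1 false 11 103 109 29 195452 22342320) .out) (.lg 1 false 11 101 109 29 116198 22342320))
  (.nx 67 165142 (.lg 1 false 11 101 109 29 82164 22342320) (.nr 87 262145 (.nx 84 330282 (.nx 78
  262145 (.lg 1 true 11 101 109 29 48862 22342320) (.nr 83 185365 (.lg 1 true 5 103 109 19 21775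
  22342320) .out)) (.nr 86 77937 (.lg 2 false 2 101 103 13 7280 156240) .out)) .out))))) (.nr 95 65
  (.lg 0 true 7 73 79 23 0 31248) .out)) .out)) .out) .out) (.na 186 16 (.nx 185 2642247 (.nr 184
  1246976 (.nx 176 660563 (.nx 102 249 (.nx 101 248 (.nr 100 178 (.lg 0 false 1 37 37 9 0 29016)
  (.l1 .sk)) (.l1 .sk)) (.nx 105 408 (.nx 103 324 (.l1 (.ls 89 37 3308)) (.nr 104 1048577 (.l1 (.ls
  89 41 4732)) .out)) (.nr 175 741457 (.nx 120 41285 (.nr 112 220437 (.lg 0 false 7 107 109 16 0
  22342320) (.nx 119 1627 (.lg 0 false 7 89 89 16 0 203112) .out)) (.nr 174 311745 (.nr 130 7148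
  (.nr 127 1631 (.lg 0 true 7 89 89 16 0 203112) (.lg 2 true 3 89 89 11 50221 29016)) (.nx 145
  116772 (.nx 138 82570 (.nr 137 262145 (.lg 1 false 7 103 107 16 195452 22342320) .out) (.lg 1
  false 7 103 107 16 116198 22342320)) (.nx 152 165142 (.lg 1 false 7 103 107 16 82164 22342320)
  (.nr 173 262145 (.nx 167 330282 (.nx 159 208065 (.lg 1 false 7 101 103 16 48862 22342320) (.nr
  166 220437 (.lg 1 true 7 103 107 16 32618 22342320) .out)) (.nr 172 77937 (.lg 2 false 5 97 101
  16 11460 3191760) .out)) .out)))) .out)) .out))) (.nr 183 65 (.lg 0 true 7 73 73 16 0 203112)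
  .out)) .out) .out) .ne)) (.na 241 23 (.nx 240 2642247 (.nr 239 1246976 (.nr 188 14 .s1 (.nx 192
  408 (.nx 190 248 (.nr 189 256 (.lg 0 true 1 37 37 16 0 31248) (.l1 .sk)) (.nx 191 249 (.l1 .sk)
  (.l1 (.ls 89 43 4977)))) (.nr 238 741457 (.nx 232 660563 (.nx 203 13005 (.nr 197 311745 (.lg 0
  false 5 97 101 19 0 156240) (.nx 202 1627 (.lg 0 false 5 83 89 19 0 156240) .out)) (.nr 231
  220437 (.nx 208 58164 (.lg 0 false 5 103 107 19 0 1718640) (.nr 213 1726 (.lg 0 true 5 83 89 19 0
  78120) (.nx 230 524289 (.nx 218 110009 (.lg 1 false 5 101 107 19 116680 1718640) (.nx 223 208065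
  (.lg 1 true 5 101 107 19 61691 1718640) (.nr 229 155873 (.nr 224 4475 (.lg 2 false 1 83 83 16
  37667 15624) (.lg 2 false 5 97 103 19 23075 156240)) .out))) .out))) .out)) (.nr 237 129 (.lg 0
  true 5 73 73 19 0 78120) .out)) .out))) .out) .out) (.na 242 24 .ne (.nx 286 2642247 (.nr 285
  1048577 (.nr 243 19 .s1 (.nx 247 408 (.nx 245 248 (.nr 244 301 (.lg 0 false 1 29 37 13 0 4464)
  (.l1 .sk)) (.nx 246 249 (.l1 .sk) (.l1 (.ls 89 47 4355)))) (.nr 284 741457 (.nr 281 524289 (.nr
  275 185365 (.nx 252 44893 (.lg 0 false 5 103 107 23 0 22342320) (.nr 263 1918 (.nx 257 660563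
  (.lg 0 true 5 83 89 23 0 22320) (.nr 262 129 (.lg 0 true 5 73 73 23 0 22320) .out)) (.nx 274
  524289 (.nx 268 82572 (.lg 1 false 5 101 107 23 127148 22342320) (.nr 273 131073 (.lg 2 false 5
  103 109 23 48908 22342320) .out)) .out))) (.nx 280 16385 (.lg 0 false 5 103 107 23 0 22342320)
  .out)) (.nx 283 2582 (.lg 0 false 2 89 89 19 0 4464) .out)) .out))) .out) .out)))) (.na 406 31
  (.na 330 28 (.nx 329 2642247 (.nr 328 1048577 (.nr 288 22 .s1 (.nx 292 408 (.nx 290 248 (.nr 289
  312 (.lg 0 false 1 23 23 16 0 2232) (.l1 .sk)) (.nx 291 249 (.l1 .sk) (.l1 (.ls 79 37 3872))))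
  (.nr 327 741457 (.nr 319 185365 (.nx 299 82572 (.lg 0 false 7 97 101 17 0 156240) (.nr 318 131073
  (.nx 312 660563 (.nr 304 1964 (.lg 0 true 5 79 79 16 0 11160) (.nx 311 524289 (.lg 2 false 7 89
  101 17 48908 156240) .out)) (.nr 317 129 (.lg 0 true 5 67 67 16 0 11160) .out)) .out)) (.nx 326
  16385 (.lg 0 false 7 97 101 17 0 156240) .out)) .out))) .out) .out) (.na 370 29 (.nx 369 2642247
  (.nr 368 1048577 (.nr 331 24 .s1 (.nx 335 408 (.nx 333 248 (.nr 332 323 (.lg 0 true 1 41 41 13 0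
  156240) (.l1 .sk)) (.nx 334 249 (.l1 .sk) (.l1 (.ls 97 43 3733)))) (.nr 367 741457 (.nx 363
  660563 (.nr 360 524289 (.nr 356 185365 (.nx 340 65537 (.lg 0 false 5 103 109 23 0 22342320) (.nr
  355 155873 (.nr 343 967 (.lg 0 true 3 83 83 19 0 31248) (.nx 354 524289 (.nx 345 82572 (.lg 1
  false 2 97 101 19 73258 156240) (.nr 353 131073 (.nr 349 77937 (.nr 346 2898 (.lg 2 false 1 83 83
  13 67231 31248) (.lg 2 false 3 97 101 19 29119 156240)) (.nx 352 416129 (.lg 2 false 3 101 107 19
  48908 22342320) .out)) .out)) .out)) .out)) (.nx 359 16385 (.lg 0 false 3 103 107 19 0 22342320)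
  .out)) (.nx 362 2582 (.lg 0 false 2 89 89 19 0 31248) .out)) (.nr 366 129 (.lg 0 true 3 73 73 19
  0 31248) .out)) .out))) .out) .out) (.nx 405 2642247 (.nr 404 1048577 (.nr 371 25 .s1 (.nx 375
  408 (.nx 373 248 (.nr 372 346 (.lg 0 true 1 23 23 13 0 4464) (.l1 .sk)) (.nx 374 249 (.l1 .sk)
  (.l1 (.ls 79 37 3605)))) (.nr 403 741457 (.nr 397 185365 (.nx 380 82572 (.lg 0 false 5 101 103 16
  0 22320) (.nr 396 131073 (.nx 391 660563 (.nr 385 3020 (.lg 0 true 5 83 83 16 0 11160) (.nx 390
  524289 (.lg 2 false 5 97 101 16 48908 22320) .out)) (.nr 395 129 (.lg 0 true 4 67 67 16 0 4464)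
  .out)) .out)) (.nx 402 16385 (.lg 0 false 5 97 101 16 0 22320) .out)) .out))) .out) .out))) (.na
  442 32 (.nx 441 2642247 (.nr 440 1048577 (.nr 407 27 .s1 (.nx 410 249 (.nx 409 248 (.nr 408 357
  (.l1 (.ls 17 29 1986)) (.l1 .sk)) (.l1 .sk)) (.nx 411 408 (.l1 (.ls 73 29 3372)) (.nr 439 741457
  (.nx 422 82572 (.nr 416 185365 (.lg 0 true 5 89 89 16 0 11160) (.nx 421 16385 (.lg 0 false 5 83
  83 16 0 11160) .out)) (.nr 438 131073 (.nr 432 1048 (.lg 0 true 10 73 73 16 0 22320) (.nx 437
  524289 (.lg 2 false 5 89 89 16 62035 11160) .out)) .out)) .out)))) .out) .out) (.na 443 33 .ne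
  (.nx 477 2642247 (.nr 476 881745 (.nr 444 30 .s1 (.nx 472 262145 (.nx 458 32769 (.nx 454 16385
  (.nx 446 248 (.nr 445 401 (.lg 0 false 1 43 43 16 0 1718640) (.l1 .sk)) (.nx 447 249 (.l1 .sk)
  (.nx 448 408 (.l1 (.ls 89 41 3168)) (.nr 453 623489 (.lg 0 false 5 101 103 19 0 1718640) .out))))
  (.nr 457 185365 (.lg 0 false 3 101 101 19 0 1718640) .out)) (.nr 471 155873 (.nr 461 8533 (.lg 0
  true 3 97 101 19 0 1718640) (.nr 466 65537 (.lg 2 false 5 83 83 19 61737 122760) (.nx 470 82572
  (.nr 468 110219 (.lg 0 true 2 103 107 17 0 22342320) (.nx 469 41287 (.lg 0 true 1 97 97 16 0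
  1718640) .out)) .out))) .out)) (.nr 475 257 (.lg 0 true 3 79 79 19 0 24552) .out))) .out)
  .out))))) (.na 649 46 (.na 566 41 (.na 507 37 (.nx 506 2642247 (.nr 505 881745 (.nr 479 33 .s1
  (.nx 495 65537 (.nx 481 248 (.nr 480 413 (.lg 0 true 1 29 29 19 0 4464) (.l1 .sk)) (.nx 482 249
  (.l1 .sk) (.nx 483 408 (.l1 (.ls 83 43 2904)) (.nr 494 623489 (.nr 488 185365 (.lg 0 false 5 101
  107 29 0 22342320) (.nx 493 16385 (.lg 0 false 5 89 101 29 0 22320) .out)) .out)))) (.nr 504
  77937 (.nx 498 262145 (.nr 496 1137 (.lg 0 false 1 79 79 19 0 4464) (.lg 2 false 2 89 97 23 36688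
  4464)) (.nr 503 257 (.lg 0 true 5 73 73 29 0 22320) .out)) .out))) .out) .out) (.na 537 39 (.nx
  536 2642247 (.nr 535 881745 (.nr 508 34 .s1 (.nx 529 262145 (.nx 510 248 (.nr 509 435 (.lg 0
  false 1 37 37 16 0 156240) (.l1 .sk)) (.nx 511 249 (.l1 .sk) (.nx 512 408 (.l1 (.ls 83 31 2826))
  (.nr 528 623489 (.nr 522 185365 (.nx 517 65537 (.lg 0 false 5 101 103 16 0 156240) (.nr 521 77937
  (.nr 518 1186 (.lg 0 false 1 83 83 16 0 2232) (.lg 2 false 3 101 101 16 36688 156240)) .out))
  (.nx 527 16385 (.lg 0 false 5 101 101 16 0 156240) .out)) .out)))) (.nr 534 257 (.lg 0 true 5 73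
  73 16 0 11160) .out))) .out) .out) (.nx 565 2642247 (.nr 564 881745 (.nr 538 36 .s1 (.nx 541 249
  (.nx 540 248 (.nr 539 457 (.lg 0 false 1 29 37 17 0 406224) (.l1 .sk)) (.l1 .sk)) (.nx 558 262145
  (.nx 542 408 (.l1 (.ls 83 41 2681)) (.nr 557 623489 (.nr 551 185365 (.nx 547 65537 (.lg 0 false 5
  101 103 23 0 2031120) (.nr 550 77937 (.nr 548 1233 (.lg 0 false 1 79 79 17 0 29016) (.lg 2 false
  2 97 101 17 36688 406224)) .out)) (.nx 556 16385 (.lg 0 false 5 97 103 23 0 2031120) .out))
  .out)) (.nr 563 257 (.lg 0 true 5 73 73 23 0 145080) .out)))) .out) .out))) (.na 597 43 (.nx 596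
  2642247 (.nr 595 881745 (.nr 567 38 .s1 (.nx 571 408 (.nx 569 248 (.nr 568 480 (.lg 0 false 1 19
  19 16 0 4464) (.l1 .sk)) (.nx 570 249 (.l1 .sk) (.l1 (.ls 79 31 2550)))) (.nr 594 623489 (.nx 582
  52017 (.nr 576 185365 (.lg 0 false 5 97 97 16 0 11160) (.nx 581 16385 (.lg 0 false 5 97 97 16 0
  22320) .out)) (.nr 593 92683 (.nr 587 480 (.lg 0 true 5 73 73 16 0 11160) (.nx 592 262145 (.lg 2
  false 5 97 97 16 67721 22320) .out)) .out)) .out))) .out) .out) (.na 622 44 (.nx 621 2642247 (.nr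
  620 881745 (.nr 598 41 .s1 (.nx 610 52017 (.nx 602 408 (.nx 600 248 (.nr 599 491 (.lg 0 true 1 23
  23 16 0 22320) (.l1 .sk)) (.nx 601 249 (.l1 .sk) (.l1 (.ls 79 31 2432)))) (.nr 609 623489 (.nr
  605 185365 (.lg 0 false 3 101 101 16 0 22320) (.nx 608 16385 (.lg 0 false 3 97 97 16 0 22320)
  .out)) .out)) (.nr 619 92683 (.nr 615 491 (.lg 0 true 5 73 73 16 0 11160) (.nx 618 262145 (.lg 2
  false 3 97 97 16 66204 22320) .out)) .out))) .out) .out) (.nx 648 2642247 (.nr 647 881745 (.nr
  623 42 .s1 (.nx 627 408 (.nx 625 248 (.nr 624 513 (.lg 0 false 1 29 37 19 0 343728) (.l1 .sk))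
  (.nx 626 249 (.l1 .sk) (.l1 (.ls 83 43 2377)))) (.nr 646 623489 (.nx 642 262145 (.nx 638 65537
  (.nr 632 185365 (.lg 0 false 5 97 103 29 0 1718640) (.nx 637 16385 (.lg 0 false 5 97 101 29 0
  1718640) .out)) (.nr 641 77937 (.nr 639 1353 (.lg 0 false 1 83 83 19 0 343728) (.lg 2 false 2 97
  101 23 36688 343728)) .out)) (.nr 645 257 (.lg 0 true 3 73 73 23 0 49104) .out)) .out))) .out)
  .out)))) (.na 698 52 (.na 650 47 .ne (.na 675 49 (.nx 674 2642247 (.nr 673 881745 (.nr 651 45 .s1
  (.nx 653 248 (.nr 652 546 (.lg 0 false 1 23 23 16 0 156240) (.l1 .sk)) (.nx 654 249 (.l1 .sk)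
  (.nr 667 220437 (.nx 657 41287 (.lg 0 false 3 101 101 16 0 156240) (.nr 666 77937 (.nr 662 546
  (.lg 0 true 5 79 79 16 0 11160) (.nx 665 262145 (.lg 2 false 3 101 101 16 59535 156240) .out))
  .out)) (.nx 672 20644 (.lg 0 false 5 101 101 16 0 156240) .out))))) .out) .out) (.nx 697 2642247
  (.nr 696 881745 (.nr 676 47 .s1 (.nx 679 249 (.nx 678 248 (.nr 677 580 (.lg 0 false 1 19 19 16 0
  31248) (.l1 .sk)) (.l1 .sk)) (.nx 684 32769 (.lg 0 false 5 97 97 17 0 78120) (.nr 695 92683 (.nr
  689 580 (.lg 0 true 5 71 71 17 0 78120) (.nx 694 262145 (.lg 2 false 5 89 97 17 87213 156240)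
  .out)) .out)))) .out) .out))) (.na 741 56 (.na 718 53 (.nx 717 2642247 (.nr 716 881745 (.nr 699
  50 .s1 (.nx 709 41287 (.nx 701 248 (.nr 700 591 (.l1 (.ls 41 41 1185)) (.l1 .sk)) (.nx 702 249
  (.l1 .sk) (.nr 705 220437 (.lg 0 false 3 101 103 23 0 2031120) (.nx 708 20644 (.lg 0 false 3 101
  103 23 0 2031120) .out)))) (.nr 715 77937 (.nr 712 591 (.lg 0 true 3 83 83 23 0 58032) (.nx 714
  262145 (.lg 2 false 2 103 103 23 58236 22342320) .out)) .out))) .out) .out) (.nx 740 2642247 (.nr
  739 881745 (.nr 719 51 .s1 (.nx 729 32769 (.nx 721 248 (.nr 720 625 (.l1 (.ls 23 23 1163)) (.l1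
  .sk)) (.nx 722 249 (.l1 .sk) (.lg 0 false 7 101 103 16 0 1718640))) (.nr 738 92683 (.nr 734 625
  (.lg 0 true 5 79 79 16 0 11160) (.nx 737 262145 (.lg 2 false 3 103 103 16 87213 1718640) .out))
  .out))) .out) .out)) (.na 762 61 (.nx 761 2642247 (.nr 760 881745 (.nr 742 54 .s1 (.nx 744 248
  (.nr 743 680 (.l1 (.ls 37 37 1101)) (.l1 .sk)) (.nx 745 249 (.l1 .sk) (.nx 750 32769 (.lg 0 false
  5 97 101 29 0 156240) (.nr 759 92683 (.nr 757 46342 (.nr 755 680 (.lg 0 true 5 73 79 29 0 156240)
  (.nx 756 262145 (.lg 2 false 1 97 97 19 47803 31248) .out)) (.nx 758 82572 (.lg 0 false 1 97 97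
  19 0 31248) .out)) .out))))) .out) .out) (.nx 781 2642247 (.nr 780 881745 (.nr 763 59 .s1 (.nx
  766 249 (.nx 765 248 (.nr 764 703 (.l1 (.ls 19 23 1011)) (.l1 .sk)) (.l1 .sk)) (.nx 771 41287
  (.lg 0 false 5 101 101 16 0 156240) (.nr 779 77937 (.nr 776 703 (.lg 0 true 5 73 73 16 0 11160)
  (.nx 778 262145 (.lg 2 true 2 97 97 16 58236 31248) .out)) .out)))) .out) .out))))))

def T54_1 : Ph :=
  (.na 407 34 (.na 190 27 (.na 105 23 (.na 61 22 (.nx 60 2642247 (.nr 59 1246976 (.nr 1 13 .s1 (.nx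
  4 240 (.nx 3 239 (.nr 2 241 (.lg 0 true 1 37 37 13 0 720) (.l1 .sk)) (.l1 .sk)) (.nr 56 741457
  (.nr 52 311745 (.nr 48 220437 (.nx 11 55366 (.lg 0 false 7 97 103 23 0 55440) (.nr 22 666 (.nx 14
  660563 (.lg 0 true 3 79 79 19 0 720) (.nr 21 129 (.lg 0 true 7 71 73 23 0 5040) .out)) (.nx 47
  524289 (.nr 24 4475 (.lg 2 true 2 83 83 17 94073 720) (.nx 31 107330 (.lg 1 false 7 89 103 23
  113837 55440) (.nx 38 208065 (.lg 1 true 7 89 103 23 58723 55440) (.nr 46 155873 (.nx 41 262145
  (.lg 1 true 3 83 89 19 21430 720) (.nr 45 92683 (.nr 42 11600 (.lg 2 true 1 79 79 13 14001 720)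
  (.lg 2 false 3 83 89 19 10124 720)) .out)) .out)))) .out))) (.nx 51 13005 (.lg 0 false 3 83 89 19
  0 720) .out)) (.nx 55 1627 (.lg 0 false 3 79 83 19 0 720) .out)) (.nx 58 408 (.lg 0 false 2 73 73
  17 0 720) .out)))) .out) .out) (.nx 104 2642247 (.nr 103 1246976 (.nr 62 16 .s1 (.nx 65 240 (.nx
  64 239 (.nr 63 252 (.lg 0 true 1 29 29 9 0 7920) (.l1 .sk)) (.l1 .sk)) (.nx 66 408 (.l1 (.ls 83
  47 4951)) (.nr 102 741457 (.nr 98 311745 (.nr 94 220437 (.nx 73 55366 (.lg 0 false 7 97 101 19 0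
  55440) (.nr 80 666 (.lg 0 true 7 79 79 19 0 11088) (.nx 93 524289 (.lg 2 false 13 97 103 23
  113837 720720) .out))) (.nx 97 13005 (.lg 0 false 3 89 89 13 0 7920) .out)) (.nx 101 1627 (.lg 0
  false 3 79 79 13 0 1584) .out)) .out)))) .out) .out)) (.na 106 24 .ne (.na 151 25 (.nx 150
  2642247 (.nr 149 1048577 (.nr 107 19 .s1 (.nx 110 240 (.nx 109 239 (.nr 108 274 (.lg 0 true 1 37
  41 19 0 720) (.l1 .sk)) (.l1 .sk)) (.nx 146 660563 (.nx 129 65537 (.nr 117 185365 (.lg 0 false 7
  101 107 31 0 720720) (.nx 128 16385 (.nx 126 13005 (.nr 124 741457 (.nr 122 524289 (.lg 0 false 5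
  97 107 29 0 720720) (.nx 123 2582 (.lg 0 false 1 89 97 19 0 720) .out)) (.nx 125 408 (.lg 0 false
  1 73 73 19 0 144) .out)) (.nr 127 311745 (.lg 0 false 1 89 97 19 0 720) .out)) .out)) (.nr 145
  155873 (.nr 131 702 (.lg 0 true 2 83 83 23 0 144) (.nx 144 524289 (.nr 132 1801 (.lg 2 true 1 79
  79 19 89249 144) (.nr 133 4621 (.lg 2 true 1 83 83 19 34788 144) (.nx 135 82572 (.lg 1 false 2
  101 107 23 68033 720720) (.nr 143 131073 (.nr 136 30390 (.lg 2 false 1 97 97 19 13559 5040) (.nr
  140 92683 (.nr 138 77937 (.lg 2 false 2 101 107 23 27041 720720) (.nx 139 416129 (.lg 2 true 1 97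
  101 19 32141 5040) .out)) (.nx 142 165142 (.lg 2 true 2 101 107 23 45420 720720) .out))) .out))))
  .out)) .out)) (.nr 148 129 (.lg 0 true 2 73 73 23 0 144) .out)))) .out) .out) (.nx 189 2642247
  (.nr 188 1048577 (.nr 152 20 .s1 (.nx 155 240 (.nx 154 239 (.nr 153 296 (.lg 0 true 1 31 31 16 0
  7920) (.l1 .sk)) (.l1 .sk)) (.nx 156 408 (.l1 (.ls 79 37 4357)) (.nr 187 741457 (.nr 183 524289
  (.nx 168 82572 (.nr 163 185365 (.lg 0 false 7 101 103 16 0 720720) (.nx 167 16385 (.lg 0 false 4
  97 97 16 0 7920) .out)) (.nr 182 131073 (.nx 177 660563 (.nr 172 1897 (.lg 0 true 4 79 79 16 0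
  720) (.nx 176 524289 (.lg 2 false 4 97 101 16 45420 55440) .out)) (.nr 181 129 (.lg 0 true 4 67
  67 16 0 720) .out)) .out)) (.nx 186 2582 (.lg 0 false 3 73 73 16 0 360) .out)) .out)))) .out)
  .out)))) (.na 309 31 (.na 229 29 (.nx 228 2642247 (.nr 227 1048577 (.nr 191 23 .s1 (.nx 221
  660563 (.nx 211 82572 (.nx 193 239 (.nr 192 317 (.lg 0 false 1 23 23 16 0 720) (.l1 .sk)) (.nx
  194 240 (.l1 .sk) (.nx 195 408 (.l1 (.ls 73 41 4035)) (.nr 210 741457 (.nr 202 185365 (.lg 0
  false 7 89 97 17 0 5040) (.nx 209 16385 (.lg 0 false 7 89 97 17 0 5040) .out)) .out)))) (.nr 220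
  131073 (.nr 215 1985 (.lg 0 true 4 73 73 16 0 144) (.nx 219 524289 (.lg 2 false 4 89 89 16 45420
  720) .out)) .out)) (.nr 226 129 (.lg 0 true 5 61 61 16 0 360) .out))) .out) .out) (.na 267 30
  (.nx 266 2642247 (.nr 265 1048577 (.nr 230 25 .s1 (.nx 233 240 (.nx 232 239 (.nr 231 328 (.lg 0
  false 1 29 29 13 0 720) (.l1 .sk)) (.l1 .sk)) (.nx 234 408 (.l1 (.ls 79 37 3756)) (.nr 264 741457
  (.nx 259 660563 (.nx 249 82572 (.nr 241 185365 (.lg 0 false 7 97 101 16 0 5040) (.nx 248 16385
  (.lg 0 false 7 89 97 16 0 5040) .out)) (.nr 258 131073 (.nr 253 2925 (.lg 0 true 4 79 79 16 0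
  144) (.nx 257 524289 (.lg 2 false 4 97 97 16 45420 720) .out)) .out)) (.nr 263 129 (.lg 0 true 4
  67 67 16 0 144) .out)) .out)))) .out) .out) (.nx 308 2642247 (.nr 307 1048577 (.nr 268 26 .s1
  (.nx 303 660563 (.nx 270 239 (.nr 269 339 (.lg 0 true 1 31 31 19 0 720) (.l1 .sk)) (.nx 271 240
  (.l1 .sk) (.nx 291 82572 (.nx 283 16385 (.nx 272 408 (.l1 (.ls 83 47 3631)) (.nr 282 741457 (.nr
  279 524289 (.lg 0 false 7 89 101 31 0 55440) (.nx 281 2582 (.lg 0 false 2 79 83 23 0 720) .out))
  .out)) (.nr 290 185365 (.lg 0 false 7 89 103 31 0 55440) .out)) (.nr 302 131073 (.nr 293 1005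
  (.lg 0 true 2 79 79 23 0 720) (.nx 301 524289 (.nr 294 2984 (.lg 2 true 1 73 73 19 62341 720)
  (.lg 2 false 7 89 101 31 45420 55440)) .out)) .out)))) (.nr 306 129 (.lg 0 true 3 71 71 29 0 720)
  .out))) .out) .out))) (.na 341 32 (.nx 340 2642247 (.nr 339 1048577 (.nr 310 27 .s1 (.nx 314 408
  (.nx 312 239 (.nr 311 350 (.lg 0 true 1 23 23 13 0 720) (.l1 .sk)) (.nx 313 240 (.l1 .sk) (.l1
  (.ls 79 29 3514)))) (.nr 338 741457 (.nr 333 185365 (.nx 318 82572 (.lg 0 false 4 103 103 16 0
  55440) (.nr 332 131073 (.nr 327 3041 (.nx 322 660563 (.lg 0 true 4 79 79 16 0 144) (.nr 326 129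
  (.lg 0 true 4 67 67 16 0 144) .out)) (.nx 331 524289 (.lg 2 false 4 97 97 16 45420 5040) .out))
  .out)) (.nx 337 16385 (.lg 0 false 4 97 97 16 0 720) .out)) .out))) .out) .out) (.na 374 33 (.nx
  373 2642247 (.nr 372 1048577 (.nr 342 29 .s1 (.nx 346 408 (.nx 344 239 (.nr 343 361 (.lg 0 false
  1 31 31 13 0 720) (.l1 .sk)) (.nx 345 240 (.l1 .sk) (.l1 (.ls 83 41 3405)))) (.nr 371 741457 (.nr
  364 185365 (.nx 360 524289 (.nx 353 82572 (.lg 0 false 7 89 103 23 0 55440) (.nr 359 131073 (.nr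
  356 3098 (.lg 0 true 3 83 83 19 0 720) (.lg 2 false 3 97 103 19 45420 55440)) .out)) (.nr 363 257
  (.lg 0 true 3 73 73 19 0 144) .out)) (.nx 370 16385 (.nr 367 623489 (.lg 0 false 3 97 101 19 0
  55440) (.nx 368 1024 .out (.nx 369 2582 (.lg 0 false 1 73 73 13 0 144) .out))) .out)) .out)))
  .out) .out) (.nx 406 2642247 (.nr 405 881745 (.nr 375 30 .s1 (.nx 377 239 (.nr 376 372 (.lg 0
  false 1 31 31 16 0 7920) (.l1 .sk)) (.nx 378 240 (.l1 .sk) (.nx 379 408 (.l1 (.ls 79 41 3301))
  (.nr 404 623489 (.nx 391 65537 (.nr 386 185365 (.lg 0 false 7 89 101 23 0 55440) (.nx 390 16385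
  (.lg 0 false 4 89 97 19 0 7920) .out)) (.nr 403 77937 (.nr 398 1046 (.nx 393 330282 (.lg 0 true 2
  73 73 17 0 1584) (.nr 397 217 (.lg 0 true 4 71 71 19 0 1584) .out)) (.nx 402 262145 (.lg 2 false
  4 83 89 19 34069 7920) .out)) .out)) .out))))) .out) .out))))) (.na 556 48 (.na 502 44 (.na 441
  36 (.nx 440 2642247 (.nr 439 881745 (.nr 408 31 .s1 (.nx 412 408 (.nx 410 239 (.nr 409 394 (.lg 0
  false 1 29 29 13 0 720) (.l1 .sk)) (.nx 411 240 (.l1 .sk) (.l1 (.ls 79 43 3204)))) (.nr 438
  623489 (.nx 432 262145 (.nx 427 65537 (.nr 419 185365 (.lg 0 false 7 97 101 23 0 55440) (.nx 426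
  16385 (.lg 0 false 7 89 97 23 0 5040) .out)) (.nr 431 77937 (.nr 428 1095 (.lg 0 false 1 79 79 13
  0 720) (.lg 2 false 3 89 89 13 34069 720)) .out)) (.nr 437 257 (.lg 0 true 5 71 71 13 0 720)
  .out)) .out))) .out) .out) (.na 472 40 (.nx 471 2642247 (.nr 470 881745 (.nr 442 33 .s1 (.nx 445
  240 (.nx 444 239 (.nr 443 438 (.lg 0 true 1 37 37 19 0 7920) (.l1 .sk)) (.l1 .sk)) (.nx 466
  330282 (.nx 446 408 (.l1 (.ls 79 43 3027)) (.nr 465 623489 (.nx 459 65537 (.nr 453 185365 (.lg 0
  false 7 89 101 29 0 55440) (.nx 458 16385 (.lg 0 false 5 89 101 29 0 55440) .out)) (.nr 464 77937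
  (.nr 461 1192 (.lg 0 true 2 73 73 23 0 144) (.nx 463 262145 (.lg 2 false 2 97 97 23 34069 7920)
  .out)) .out)) .out)) (.nr 469 217 (.lg 0 true 3 71 71 23 0 144) .out)))) .out) .out) (.nx 501
  2642247 (.nr 500 881745 (.nr 473 37 .s1 (.nx 485 16385 (.nx 475 239 (.nr 474 482 (.l1 (.ls 37 41
  1431)) (.l1 .sk)) (.nx 476 240 (.l1 .sk) (.nx 477 408 (.l1 (.ls 83 43 2724)) (.nr 484 623489 (.lg
  0 false 7 83 97 31 0 5040) .out)))) (.nr 499 185365 (.nx 488 41287 (.lg 0 false 3 97 103 29 0
  102960) (.nr 498 110219 (.nx 495 330282 (.nr 489 1287 (.lg 0 true 1 79 79 19 0 720) (.nx 494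
  262145 (.nx 490 65537 (.lg 1 false 1 97 97 19 76411 720) (.nr 493 77937 (.nr 491 65537 (.lg 2
  false 1 97 97 19 28665 720) (.nx 492 82572 (.lg 0 true 1 79 83 19 0 720) .out)) .out)) .out))
  (.nr 497 217 (.lg 0 true 2 73 73 23 0 720) .out)) .out)) .out))) .out) .out))) (.na 529 45 (.nx
  528 2642247 (.nr 527 881745 (.nr 503 42 .s1 (.nx 523 262145 (.nx 519 65537 (.nx 505 239 (.nr 504
  493 (.lg 0 false 1 31 31 19 0 7920) (.l1 .sk)) (.nx 506 240 (.l1 .sk) (.nx 507 408 (.l1 (.ls 79
  43 2477)) (.nr 518 623489 (.nr 514 185365 (.lg 0 false 7 83 97 29 0 55440) (.nx 517 16385 (.lg 0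
  false 3 89 97 23 0 7920) .out)) .out)))) (.nr 522 77937 (.nr 520 1310 (.lg 0 false 1 73 73 19 0
  1584) (.lg 2 false 2 89 89 23 34069 7920)) .out)) (.nr 526 257 (.lg 0 true 3 71 71 23 0 1584)
  .out))) .out) .out) (.na 555 46 (.nx 554 2642247 (.nr 553 881745 (.nr 530 43 .s1 (.nx 534 408
  (.nx 532 239 (.nr 531 504 (.lg 0 false 1 31 31 17 0 720) (.l1 .sk)) (.nx 533 240 (.l1 .sk) (.l1
  (.ls 79 41 2422)))) (.nr 552 623489 (.nr 547 185365 (.nx 538 65537 (.lg 0 false 4 97 101 19 0
  55440) (.nr 546 77937 (.nx 541 262145 (.nr 539 1334 (.lg 0 false 1 73 73 17 0 360) (.lg 2 false 2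
  89 97 19 34069 55440)) (.nr 545 257 (.lg 0 true 4 71 71 19 0 720) .out)) .out)) (.nx 551 16385
  (.lg 0 false 4 89 101 19 0 55440) .out)) .out))) .out) .out) .ne))) (.na 626 54 (.na 581 50 (.nx
  580 2642247 (.nr 579 881745 (.nr 557 46 .s1 (.nx 560 240 (.nx 559 239 (.nr 558 547 (.l1 (.ls 31
  41 1193)) (.l1 .sk)) (.l1 .sk)) (.nx 576 262145 (.nx 571 52017 (.nx 567 20644 (.lg 0 false 7 89
  101 37 0 55440) (.nr 570 220437 (.nr 568 92683 (.lg 0 false 1 97 97 23 0 720) (.nx 569 32769 (.lg
  0 false 1 89 89 23 0 720) .out)) .out)) (.nr 575 65537 (.nr 572 1521 (.lg 0 true 1 79 79 23 0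
  720) (.nr 573 46342 (.lg 2 false 1 89 89 23 25577 720) (.nx 574 82572 (.lg 0 true 1 83 89 23 0
  720) .out))) .out)) (.nr 578 257 (.lg 0 true 2 73 73 29 0 144) .out)))) .out) .out) (.na 603 51
  (.nx 602 2642247 (.nr 601 881745 (.nr 582 48 .s1 (.nx 585 240 (.nx 584 239 (.nr 583 558 (.l1 (.ls
  23 37 1145)) (.l1 .sk)) (.l1 .sk)) (.nx 592 32769 (.lg 0 false 7 89 97 23 0 5040) (.nr 600 92683
  (.nr 596 558 (.lg 0 true 4 71 71 23 0 720) (.nx 599 262145 (.lg 2 false 3 83 89 19 80990 720)
  .out)) .out)))) .out) .out) (.nx 625 2642247 (.nr 624 881745 (.nr 604 49 .s1 (.nx 614 32769 (.nx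
  606 239 (.nr 605 591 (.l1 (.ls 31 37 1123)) (.l1 .sk)) (.nx 607 240 (.l1 .sk) (.lg 0 false 7 89
  101 29 0 5040))) (.nr 623 92683 (.nr 618 591 (.lg 0 true 4 73 73 23 0 144) (.nx 622 262145 (.nr
  620 65537 (.lg 2 false 2 89 97 16 57330 720) (.nx 621 52017 (.lg 0 false 1 79 79 16 0 72) .out))
  .out)) .out))) .out) .out))) (.na 648 55 (.nx 647 2642247 (.nr 646 881745 (.nr 627 52 .s1 (.nx
  629 239 (.nr 628 602 (.l1 (.ls 23 41 1060)) (.l1 .sk)) (.nx 630 240 (.l1 .sk) (.nx 637 41287 (.lg
  0 false 7 89 97 29 0 5040) (.nr 645 77937 (.nr 642 602 (.lg 0 true 5 71 71 23 0 720) (.nx 644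
  262145 (.lg 2 true 2 83 83 19 54080 720) .out)) .out))))) .out) .out) (.na 669 58 (.nx 668
  2642247 (.nr 667 881745 (.nr 649 53 .s1 (.nx 652 240 (.nx 651 239 (.nr 650 635 (.l1 (.ls 31 31
  1041)) (.l1 .sk)) (.l1 .sk)) (.nx 656 20644 (.lg 0 false 4 89 97 19 0 7920) (.nr 666 220437 (.nx
  658 41287 (.lg 0 false 2 89 97 17 0 7920) (.nr 665 77937 (.nr 662 635 (.lg 0 true 4 73 73 19 0
  7920) (.nx 664 262145 (.lg 2 false 2 89 97 17 54080 7920) .out)) .out)) .out)))) .out) .out) (.nx
  691 2642247 (.nr 690 881745 (.nr 670 56 .s1 (.nx 673 240 (.nx 672 239 (.nr 671 657 (.l1 (.ls 23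
  37 987)) (.l1 .sk)) (.l1 .sk)) (.nx 680 32769 (.lg 0 false 7 97 101 23 0 55440) (.nr 689 92683
  (.nr 685 657 (.lg 0 true 5 71 71 19 0 720) (.nx 688 262145 (.lg 2 false 3 89 89 19 80990 7920)
  .out)) .out)))) .out) .out))))))

theorem c54 :
    OkQ ckI L10 248 12 63 0 34359738368 1 1099511627776 ∧
    OkQ ckI L10 239 20 60 0 34359738368 1 1099511627776 := by
  refine ⟨?_, ?_⟩
  · refine fin 2232 782 T54_0 ?_
    refine jn 3 (by decide +kernel) ?_
    refine jn 4 (by decide +kernel) ?_
    refine jn 5 (by decide +kernel) ?_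
    refine jn 6 (by decide +kernel) ?_
    refine jn 7 (by decide +kernel) ?_
    refine jn 8 (by decide +kernel) ?_
    refine jn 9 (by decide +kernel) ?_
    refine jn 10 (by decide +kernel) ?_
    refine jn 11 (by decide +kernel) ?_
    refine jn 12 (by decide +kernel) ?_
    refine jn 13 (by decide +kernel) ?_
    refine jn 14 (by decide +kernel) ?_
    refine jn 19 (by decide +kernel) ?_
    refine jn 24 (by decide +kernel) ?_
    refine jn 25 (by decide +kernel) ?_
    refine jn 26 (by decide +kernel) ?_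
    refine jn 27 (by decide +kernel) ?_
    refine jn 28 (by decide +kernel) ?_
    refine jn 29 (by decide +kernel) ?_
    refine jn 31 (by decide +kernel) ?_
    refine jn 33 (by decide +kernel) ?_
    refine jn 37 (by decide +kernel) ?_
    refine jn 41 (by decide +kernel) ?_
    refine jn 44 (by decide +kernel) ?_
    refine jn 49 (by decide +kernel) ?_
    refine jn 53 (by decide +kernel) ?_
    refine jn 56 (by decide +kernel) ?_
    refine jn 60 (by decide +kernel) ?_
    refine jn 64 (by decide +kernel) ?_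
    refine jn 67 (by decide +kernel) ?_
    refine jn 71 (by decide +kernel) ?_
    refine jn 75 (by decide +kernel) ?_
    refine jn 78 (by decide +kernel) ?_
    refine jn 83 (by decide +kernel) ?_
    refine jn 86 (by decide +kernel) ?_
    refine jn 91 (by decide +kernel) ?_
    refine jn 95 (by decide +kernel) ?_
    refine jn 105 (by decide +kernel) ?_
    refine jn 109 (by decide +kernel) ?_
    refine jn 112 (by decide +kernel) ?_
    refine jn 120 (by decide +kernel) ?_
    refine jn 126 (by decide +kernel) ?_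
    refine jn 130 (by decide +kernel) ?_
    refine jn 137 (by decide +kernel) ?_
    refine jn 152 (by decide +kernel) ?_
    refine jn 166 (by decide +kernel) ?_
    refine jn 183 (by decide +kernel) ?_
    refine jn 191 (by decide +kernel) ?_
    refine jn 192 (by decide +kernel) ?_
    refine jn 193 (by decide +kernel) ?_
    refine jn 194 (by decide +kernel) ?_
    refine jn 195 (by decide +kernel) ?_
    refine jn 196 (by decide +kernel) ?_
    refine jn 197 (by decide +kernel) ?_
    refine jn 202 (by decide +kernel) ?_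
    refine jn 206 (by decide +kernel) ?_
    refine jn 208 (by decide +kernel) ?_
    refine jn 210 (by decide +kernel) ?_
    refine jn 212 (by decide +kernel) ?_
    refine jn 213 (by decide +kernel) ?_
    refine jn 218 (by decide +kernel) ?_
    refine jn 223 (by decide +kernel) ?_
    refine jn 224 (by decide +kernel) ?_
    refine jn 228 (by decide +kernel) ?_
    refine jn 234 (by decide +kernel) ?_
    refine jn 237 (by decide +kernel) ?_
    refine jn 246 (by decide +kernel) ?_
    refine jn 247 (by decide +kernel) ?_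
    refine jn 248 (by decide +kernel) ?_
    refine jn 249 (by decide +kernel) ?_
    refine jn 250 (by decide +kernel) ?_
    refine jn 251 (by decide +kernel) ?_
    refine jn 252 (by decide +kernel) ?_
    refine jn 254 (by decide +kernel) ?_
    refine jn 256 (by decide +kernel) ?_
    refine jn 257 (by decide +kernel) ?_
    refine jn 262 (by decide +kernel) ?_
    refine jn 268 (by decide +kernel) ?_
    refine jn 272 (by decide +kernel) ?_
    refine jn 280 (by decide +kernel) ?_
    refine jn 292 (by decide +kernel) ?_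
    refine jn 298 (by decide +kernel) ?_
    refine jn 304 (by decide +kernel) ?_
    refine jn 311 (by decide +kernel) ?_
    refine jn 326 (by decide +kernel) ?_
    refine jn 335 (by decide +kernel) ?_
    refine jn 336 (by decide +kernel) ?_
    refine jn 337 (by decide +kernel) ?_
    refine jn 338 (by decide +kernel) ?_
    refine jn 339 (by decide +kernel) ?_
    refine jn 340 (by decide +kernel) ?_
    refine jn 342 (by decide +kernel) ?_
    refine jn 345 (by decide +kernel) ?_
    refine jn 346 (by decide +kernel) ?_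
    refine jn 349 (by decide +kernel) ?_
    refine jn 352 (by decide +kernel) ?_
    refine jn 359 (by decide +kernel) ?_
    refine jn 366 (by decide +kernel) ?_
    refine jn 375 (by decide +kernel) ?_
    refine jn 380 (by decide +kernel) ?_
    refine jn 390 (by decide +kernel) ?_
    refine jn 402 (by decide +kernel) ?_
    refine jn 421 (by decide +kernel) ?_
    refine jn 437 (by decide +kernel) ?_
    refine jn 448 (by decide +kernel) ?_
    refine jn 449 (by decide +kernel) ?_
    refine jn 450 (by decide +kernel) ?_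
    refine jn 451 (by decide +kernel) ?_
    refine jn 452 (by decide +kernel) ?_
    refine jn 453 (by decide +kernel) ?_
    refine jn 454 (by decide +kernel) ?_
    refine jn 455 (by decide +kernel) ?_
    refine jn 456 (by decide +kernel) ?_
    refine jn 457 (by decide +kernel) ?_
    refine jn 458 (by decide +kernel) ?_
    refine jn 459 (by decide +kernel) ?_
    refine jn 460 (by decide +kernel) ?_
    refine jn 461 (by decide +kernel) ?_
    refine jn 462 (by decide +kernel) ?_
    refine jn 463 (by decide +kernel) ?_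
    refine jn 464 (by decide +kernel) ?_
    refine jn 465 (by decide +kernel) ?_
    refine jn 466 (by decide +kernel) ?_
    refine jn 469 (by decide +kernel) ?_
    refine jn 475 (by decide +kernel) ?_
    refine jn 483 (by decide +kernel) ?_
    refine jn 484 (by decide +kernel) ?_
    refine jn 486 (by decide +kernel) ?_
    refine jn 487 (by decide +kernel) ?_
    refine jn 488 (by decide +kernel) ?_
    refine jn 493 (by decide +kernel) ?_
    refine jn 496 (by decide +kernel) ?_
    refine jn 498 (by decide +kernel) ?_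
    refine jn 503 (by decide +kernel) ?_
    refine jn 517 (by decide +kernel) ?_
    refine jn 521 (by decide +kernel) ?_
    refine jn 534 (by decide +kernel) ?_
    refine jn 542 (by decide +kernel) ?_
    refine jn 544 (by decide +kernel) ?_
    refine jn 546 (by decide +kernel) ?_
    refine jn 547 (by decide +kernel) ?_
    refine jn 548 (by decide +kernel) ?_
    refine jn 550 (by decide +kernel) ?_
    refine jn 556 (by decide +kernel) ?_
    refine jn 563 (by decide +kernel) ?_
    refine jn 576 (by decide +kernel) ?_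
    refine jn 587 (by decide +kernel) ?_
    refine jn 601 (by decide +kernel) ?_
    refine jn 608 (by decide +kernel) ?_
    refine jn 618 (by decide +kernel) ?_
    refine jn 627 (by decide +kernel) ?_
    refine jn 630 (by decide +kernel) ?_
    refine jn 632 (by decide +kernel) ?_
    refine jn 637 (by decide +kernel) ?_
    refine jn 639 (by decide +kernel) ?_
    refine jn 641 (by decide +kernel) ?_
    refine jn 645 (by decide +kernel) ?_
    refine jn 662 (by decide +kernel) ?_
    refine jn 672 (by decide +kernel) ?_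
    refine jn 684 (by decide +kernel) ?_
    refine jn 694 (by decide +kernel) ?_
    refine jn 702 (by decide +kernel) ?_
    refine jn 704 (by decide +kernel) ?_
    refine jn 708 (by decide +kernel) ?_
    refine jn 712 (by decide +kernel) ?_
    refine jn 714 (by decide +kernel) ?_
    refine jn 729 (by decide +kernel) ?_
    refine jn 737 (by decide +kernel) ?_
    refine jn 748 (by decide +kernel) ?_
    refine jn 750 (by decide +kernel) ?_
    refine jn 754 (by decide +kernel) ?_
    refine jn 756 (by decide +kernel) ?_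
    refine jn 771 (by decide +kernel) ?_
    refine jn 778 (by decide +kernel) ?_
    exact je (by decide +kernel)
  · refine fin 72 692 T54_1 ?_
    refine jn 4 (by decide +kernel) ?_
    refine jn 5 (by decide +kernel) ?_
    refine jn 6 (by decide +kernel) ?_
    refine jn 7 (by decide +kernel) ?_
    refine jn 8 (by decide +kernel) ?_
    refine jn 9 (by decide +kernel) ?_
    refine jn 10 (by decide +kernel) ?_
    refine jn 11 (by decide +kernel) ?_
    refine jn 12 (by decide +kernel) ?_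
    refine jn 13 (by decide +kernel) ?_
    refine jn 14 (by decide +kernel) ?_
    refine jn 18 (by decide +kernel) ?_
    refine jn 21 (by decide +kernel) ?_
    refine jn 24 (by decide +kernel) ?_
    refine jn 29 (by decide +kernel) ?_
    refine jn 31 (by decide +kernel) ?_
    refine jn 36 (by decide +kernel) ?_
    refine jn 38 (by decide +kernel) ?_
    refine jn 42 (by decide +kernel) ?_
    refine jn 45 (by decide +kernel) ?_
    refine jn 55 (by decide +kernel) ?_
    refine jn 66 (by decide +kernel) ?_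
    refine jn 71 (by decide +kernel) ?_
    refine jn 73 (by decide +kernel) ?_
    refine jn 80 (by decide +kernel) ?_
    refine jn 91 (by decide +kernel) ?_
    refine jn 97 (by decide +kernel) ?_
    refine jn 108 (by decide +kernel) ?_
    refine jn 110 (by decide +kernel) ?_
    refine jn 111 (by decide +kernel) ?_
    refine jn 112 (by decide +kernel) ?_
    refine jn 113 (by decide +kernel) ?_
    refine jn 114 (by decide +kernel) ?_
    refine jn 115 (by decide +kernel) ?_
    refine jn 116 (by decide +kernel) ?_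
    refine jn 117 (by decide +kernel) ?_
    refine jn 119 (by decide +kernel) ?_
    refine jn 121 (by decide +kernel) ?_
    refine jn 123 (by decide +kernel) ?_
    refine jn 127 (by decide +kernel) ?_
    refine jn 129 (by decide +kernel) ?_
    refine jn 130 (by decide +kernel) ?_
    refine jn 131 (by decide +kernel) ?_
    refine jn 132 (by decide +kernel) ?_
    refine jn 133 (by decide +kernel) ?_
    refine jn 135 (by decide +kernel) ?_
    refine jn 136 (by decide +kernel) ?_
    refine jn 137 (by decide +kernel) ?_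
    refine jn 138 (by decide +kernel) ?_
    refine jn 140 (by decide +kernel) ?_
    refine jn 141 (by decide +kernel) ?_
    refine jn 142 (by decide +kernel) ?_
    refine jn 146 (by decide +kernel) ?_
    refine jn 147 (by decide +kernel) ?_
    refine jn 148 (by decide +kernel) ?_
    refine jn 160 (by decide +kernel) ?_
    refine jn 167 (by decide +kernel) ?_
    refine jn 176 (by decide +kernel) ?_
    refine jn 186 (by decide +kernel) ?_
    refine jn 199 (by decide +kernel) ?_
    refine jn 209 (by decide +kernel) ?_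
    refine jn 219 (by decide +kernel) ?_
    refine jn 233 (by decide +kernel) ?_
    refine jn 234 (by decide +kernel) ?_
    refine jn 241 (by decide +kernel) ?_
    refine jn 249 (by decide +kernel) ?_
    refine jn 257 (by decide +kernel) ?_
    refine jn 271 (by decide +kernel) ?_
    refine jn 272 (by decide +kernel) ?_
    refine jn 274 (by decide +kernel) ?_
    refine jn 277 (by decide +kernel) ?_
    refine jn 279 (by decide +kernel) ?_
    refine jn 283 (by decide +kernel) ?_
    refine jn 287 (by decide +kernel) ?_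
    refine jn 290 (by decide +kernel) ?_
    refine jn 293 (by decide +kernel) ?_
    refine jn 294 (by decide +kernel) ?_
    refine jn 298 (by decide +kernel) ?_
    refine jn 301 (by decide +kernel) ?_
    refine jn 306 (by decide +kernel) ?_
    refine jn 318 (by decide +kernel) ?_
    refine jn 326 (by decide +kernel) ?_
    refine jn 337 (by decide +kernel) ?_
    refine jn 346 (by decide +kernel) ?_
    refine jn 348 (by decide +kernel) ?_
    refine jn 349 (by decide +kernel) ?_
    refine jn 350 (by decide +kernel) ?_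
    refine jn 352 (by decide +kernel) ?_
    refine jn 353 (by decide +kernel) ?_
    refine jn 355 (by decide +kernel) ?_
    refine jn 356 (by decide +kernel) ?_
    refine jn 359 (by decide +kernel) ?_
    refine jn 363 (by decide +kernel) ?_
    refine jn 367 (by decide +kernel) ?_
    refine jn 378 (by decide +kernel) ?_
    refine jn 379 (by decide +kernel) ?_
    refine jn 381 (by decide +kernel) ?_
    refine jn 383 (by decide +kernel) ?_
    refine jn 385 (by decide +kernel) ?_
    refine jn 386 (by decide +kernel) ?_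
    refine jn 390 (by decide +kernel) ?_
    refine jn 393 (by decide +kernel) ?_
    refine jn 397 (by decide +kernel) ?_
    refine jn 402 (by decide +kernel) ?_
    refine jn 412 (by decide +kernel) ?_
    refine jn 419 (by decide +kernel) ?_
    refine jn 428 (by decide +kernel) ?_
    refine jn 437 (by decide +kernel) ?_
    refine jn 446 (by decide +kernel) ?_
    refine jn 448 (by decide +kernel) ?_
    refine jn 450 (by decide +kernel) ?_
    refine jn 452 (by decide +kernel) ?_
    refine jn 453 (by decide +kernel) ?_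
    refine jn 458 (by decide +kernel) ?_
    refine jn 461 (by decide +kernel) ?_
    refine jn 463 (by decide +kernel) ?_
    refine jn 469 (by decide +kernel) ?_
    refine jn 476 (by decide +kernel) ?_
    refine jn 477 (by decide +kernel) ?_
    refine jn 478 (by decide +kernel) ?_
    refine jn 479 (by decide +kernel) ?_
    refine jn 480 (by decide +kernel) ?_
    refine jn 481 (by decide +kernel) ?_
    refine jn 482 (by decide +kernel) ?_
    refine jn 483 (by decide +kernel) ?_
    refine jn 484 (by decide +kernel) ?_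
    refine jn 485 (by decide +kernel) ?_
    refine jn 486 (by decide +kernel) ?_
    refine jn 487 (by decide +kernel) ?_
    refine jn 488 (by decide +kernel) ?_
    refine jn 489 (by decide +kernel) ?_
    refine jn 490 (by decide +kernel) ?_
    refine jn 491 (by decide +kernel) ?_
    refine jn 495 (by decide +kernel) ?_
    refine jn 496 (by decide +kernel) ?_
    refine jn 497 (by decide +kernel) ?_
    refine jn 507 (by decide +kernel) ?_
    refine jn 509 (by decide +kernel) ?_
    refine jn 512 (by decide +kernel) ?_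
    refine jn 514 (by decide +kernel) ?_
    refine jn 519 (by decide +kernel) ?_
    refine jn 520 (by decide +kernel) ?_
    refine jn 522 (by decide +kernel) ?_
    refine jn 526 (by decide +kernel) ?_
    refine jn 534 (by decide +kernel) ?_
    refine jn 536 (by decide +kernel) ?_
    refine jn 538 (by decide +kernel) ?_
    refine jn 539 (by decide +kernel) ?_
    refine jn 541 (by decide +kernel) ?_
    refine jn 545 (by decide +kernel) ?_
    refine jn 551 (by decide +kernel) ?_
    refine jn 560 (by decide +kernel) ?_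
    refine jn 561 (by decide +kernel) ?_
    refine jn 562 (by decide +kernel) ?_
    refine jn 563 (by decide +kernel) ?_
    refine jn 564 (by decide +kernel) ?_
    refine jn 565 (by decide +kernel) ?_
    refine jn 566 (by decide +kernel) ?_
    refine jn 567 (by decide +kernel) ?_
    refine jn 568 (by decide +kernel) ?_
    refine jn 571 (by decide +kernel) ?_
    refine jn 572 (by decide +kernel) ?_
    refine jn 573 (by decide +kernel) ?_
    refine jn 576 (by decide +kernel) ?_
    refine jn 577 (by decide +kernel) ?_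
    refine jn 578 (by decide +kernel) ?_
    refine jn 592 (by decide +kernel) ?_
    refine jn 599 (by decide +kernel) ?_
    refine jn 610 (by decide +kernel) ?_
    refine jn 613 (by decide +kernel) ?_
    refine jn 616 (by decide +kernel) ?_
    refine jn 618 (by decide +kernel) ?_
    refine jn 621 (by decide +kernel) ?_
    refine jn 637 (by decide +kernel) ?_
    refine jn 644 (by decide +kernel) ?_
    refine jn 654 (by decide +kernel) ?_
    refine jn 656 (by decide +kernel) ?_
    refine jn 658 (by decide +kernel) ?_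
    refine jn 662 (by decide +kernel) ?_
    refine jn 664 (by decide +kernel) ?_
    refine jn 680 (by decide +kernel) ?_
    refine jn 688 (by decide +kernel) ?_
    exact je (by decide +kernel)

end Pool.Agent.MP_2339ce_nt.NR
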