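import Pool.Agent.MP_2339ce_nt.Q2.NC.L6
import Pool.Agent.MP_2339ce_nt.Q2.NC.L10
import Pool.Agent.MP_2339ce_nt.Q2.CkI

/-! Block NR: runs. -/

set_option autoImplicit false
set_option maxRecDepth 100000

noncomputable section

namespace Pool.Agent.MP_2339ce_nt.NR

open Q2.Top

def T55_0 : Ph :=
  (.na 453 8 (.na 263 5 (.nx 262 21137969 (.nr 261 1246976 (.nx 69 59407 (.nx 2 248 (.nr 1 54 (.lg
  0 true 1 41 41 9 0 4464) (.l1 .sk)) (.nx 3 249 (.l1 .sk) (.nr 58 262145 (.lg 0 false 55 101 109
  23 0 22342320) (.nx 68 408 (.lg 0 false 10 83 83 13 0 22320) .out)))) (.nr 260 311745 (.nr 124 33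
  (.lg 0 true 55 79 79 13 0 245520) (.nx 259 2642247 (.nx 243 660563 (.nr 134 730 (.lg 0 true 10 89
  97 13 0 22320) (.nx 150 82570 (.nr 149 262145 (.lg 1 false 15 103 109 13 135829 22342320) .out)
  (.nx 195 208065 (.nx 165 112360 (.lg 1 false 15 103 109 13 116198 22342320) (.nx 180 152899 (.lg
  1 false 15 103 109 13 85391 22342320) (.lg 1 false 15 103 109 13 62751 22342320))) (.nr 242
  185365 (.nr 200 2912 (.lg 2 true 5 101 101 11 112206 156240) (.nx 231 330282 (.nx 215 262145 (.lg
  1 true 15 103 109 13 27434 22342320) (.nr 230 131073 (.lg 1 true 15 101 109 13 15406 22342320)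
  .out)) (.nr 241 46342 (.nr 236 11616 (.lg 2 true 5 101 101 11 28129 156240) (.lg 2 false 5 101
  101 11 7052 156240)) .out))) .out)))) (.nr 258 183 (.lg 0 true 15 83 83 13 0 22320) .out)) .out))
  .out)) .out) .out) (.na 264 7 .ne (.nx 452 21137969 (.nr 451 1246976 (.nx 301 41285 (.nx 267 249
  (.nx 266 248 (.nr 265 88 (.lg 0 true 1 41 41 9 0 15624) (.l1 .sk)) (.l1 .sk)) (.nr 278 185365
  (.lg 0 false 11 107 109 16 0 22342320) (.nx 300 32769 (.nr 288 262145 (.nx 281 2582 (.lg 0 false
  3 97 97 11 0 156240) (.nx 282 20642 .out (.nr 287 220437 (.lg 0 false 5 97 101 16 0 156240)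
  .out))) (.nx 299 814 (.lg 0 false 11 97 97 16 0 1718640) .out)) .out))) (.nr 450 311745 (.nx 398
  1321124 (.nr 312 642 (.lg 0 true 11 89 89 16 0 171864) (.nx 397 832257 (.nx 369 262145 (.nx 324
  52015 (.nr 323 220437 (.lg 1 false 11 101 107 16 164384 22342320) .out) (.nx 336 82570 (.nr 335
  262145 (.lg 1 false 11 103 109 16 155132 22342320) .out) (.nx 347 121356 (.lg 1 false 11 103 109
  16 116198 22342320) (.nx 358 178361 (.lg 1 false 11 103 109 16 79061 22342320) (.lg 1 true 11 103
  109 16 53793 22342320))))) (.nr 396 155873 (.nr 374 2833 (.lg 2 true 5 97 97 16 160748 78120)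
  (.nx 385 330282 (.lg 1 true 11 101 107 16 18315 22342320) (.nr 395 65537 (.nr 390 12496 (.lg 2
  true 5 97 101 16 36428 156240) (.lg 2 false 5 97 101 16 8259 156240)) .out))) .out)) .out)) (.nr
  449 154 (.nx 409 2642247 (.lg 0 true 11 79 83 16 0 171864) (.nr 448 47 (.lg 0 true 39 83 89 16 0
  203112) .out)) .out)) .out)) .out) .out))) (.na 816 10 (.na 649 9 (.nx 648 21137969 (.nr 647
  1482912 (.nx 493 46340 (.nx 456 249 (.nx 455 248 (.nr 454 100 (.lg 0 true 1 37 37 9 0 4464) (.l1
  .sk)) (.l1 .sk)) (.nr 469 220437 (.lg 0 false 13 103 109 13 0 22342320) (.nx 484 2582 (.nr 476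
  370729 (.lg 0 false 7 89 97 13 0 156240) (.nx 483 814 (.lg 0 false 7 89 89 13 0 31248) .out))
  (.nx 485 32768 .out (.nr 492 262145 (.lg 0 false 7 97 101 13 0 1718640) .out))))) (.nr 646 311745
  (.nx 602 1321124 (.nr 513 4896 (.nr 506 1227 (.lg 0 true 13 89 97 13 0 290160) (.lg 2 true 7 89
  97 13 133513 156240)) (.nr 520 19534 (.lg 2 true 7 97 101 13 33460 1718640) (.nx 594 330282 (.nx
  573 185364 (.nx 560 131072 (.nx 547 92681 (.nx 534 65536 (.nr 533 262145 (.lg 1 false 13 101 109
  13 174131 22342320) .out) (.lg 1 false 13 101 109 13 146401 22342320)) (.lg 1 false 13 101 109 13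
  103522 22342320)) (.lg 1 false 13 101 109 13 73200 22342320)) (.nx 586 262145 (.lg 1 true 13 101
  109 13 51760 22342320) (.nr 593 185365 (.lg 1 true 7 101 103 13 21775 1718640) .out))) (.nr 601
  110219 (.lg 2 false 7 97 103 13 10286 1718640) .out)))) (.nr 645 154 (.nx 609 2642247 (.lg 0 true
  7 79 79 13 0 31248) (.nr 644 55 (.lg 0 true 35 83 83 13 0 156240) .out)) .out)) .out)) .out)
  .out) (.nx 815 21137969 (.nr 814 1482912 (.nx 651 248 (.nr 650 111 (.lg 0 true 1 41 41 7 0
  343728) (.l1 .sk)) (.nx 652 249 (.l1 .sk) (.nr 803 370729 (.nx 767 2642247 (.nx 756 1321124 (.nx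
  673 52015 (.nr 667 262145 (.lg 0 false 15 103 109 16 0 22342320) (.nx 672 2582 (.lg 0 false 5 83
  89 16 0 11160) .out)) (.nr 693 19534 (.nr 688 4896 (.nr 683 1227 (.lg 0 true 10 89 97 16 0 22320)
  (.lg 2 true 5 97 101 16 133513 1718640)) (.lg 2 true 5 97 101 16 33460 1718640)) (.nx 734 185364
  (.nx 724 131072 (.nr 723 311745 (.nx 703 70781 (.lg 1 false 10 101 107 16 184457 1718640) (.nx
  713 96319 (.lg 1 false 10 103 107 16 135552 22342320) (.lg 1 false 10 103 107 16 99612
  22342320))) .out) (.lg 1 false 10 103 107 16 87039 22342320)) (.nx 750 330282 (.nx 744 262145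
  (.lg 1 true 10 103 107 16 61546 22342320) (.nr 749 185365 (.lg 1 true 5 101 103 16 21775 1718640)
  .out)) (.nr 755 110219 (.lg 2 false 5 101 103 16 10286 1718640) .out))))) (.nr 766 154 (.lg 0
  true 10 79 79 16 0 22320) .out)) (.nr 802 65 (.lg 0 true 35 83 83 16 0 78120) .out)) (.nx 813 814
  (.lg 0 false 10 83 89 16 0 22320) .out)))) .out) .out)) (.na 817 11 .ne (.nx 917 2642247 (.nr 916
  1246976 (.nx 845 65536 (.nx 821 324 (.nx 819 248 (.nr 818 133 (.lg 0 true 1 37 37 9 0 24552) (.l1
  .sk)) (.nx 820 249 (.l1 .sk) (.l1 (.ls 89 37 3909)))) (.nr 844 1048577 (.nx 822 408 (.l1 (.ls 89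
  41 5592)) (.nr 843 741457 (.nr 837 262145 (.lg 0 false 15 103 109 16 0 22342320) (.nx 842 1292
  (.lg 0 false 5 89 89 16 0 122760) .out)) .out)) .out)) (.nr 915 311745 (.nx 907 1321124 (.nr 855
  1112 (.lg 0 true 10 89 97 16 0 245520) (.nr 865 18908 (.nr 860 4587 (.lg 2 true 5 89 89 16 147320
  122760) (.lg 2 true 5 97 101 16 35714 1718640)) (.nx 895 262145 (.nx 880 131072 (.lg 1 false 15
  101 109 16 146401 22342320) (.lg 1 true 15 101 109 16 73200 22342320)) (.nr 906 185365 (.nx 900
  330282 (.lg 1 true 5 101 103 16 21775 1718640) (.nr 905 110219 (.lg 2 false 5 101 103 16 10286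
  22342320) .out)) .out)))) (.nr 914 65 (.lg 0 true 7 73 73 16 0 171864) .out)) .out)) .out)
  .out))))

def T55_1 : Ph :=
  (.na 604 8 (.na 322 4 (.na 191 2 (.nx 190 1321124 (.nr 189 311745 (.nx 2 80 (.nr 1 10 (.lg 0 true
  1 41 41 5 0 720) (.l1 .sk)) (.nx 3 81 (.l1 .sk) (.nr 175 46342 (.nx 148 660563 (.nx 24 6503 (.lg
  0 false 21 97 97 11 0 5040) (.nr 147 38969 (.nx 125 330282 (.nr 63 432 (.lg 0 true 39 83 89 16 0
  9360) (.nx 89 16385 (.nx 76 12041 (.lg 1 false 13 101 103 9 19217 720720) (.lg 1 false 13 89 97 9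
  10379 9360)) (.nr 124 27556 (.nr 112 19485 (.nr 100 1724 (.lg 2 true 11 89 97 9 30582 7920) (.nx
  111 165142 (.lg 2 false 11 97 97 9 3832 7920) .out)) (.nx 123 65537 (.lg 2 false 11 89 97 9 5398
  7920) .out)) .out))) (.nr 146 109 (.lg 0 true 21 83 83 11 0 5040) .out)) .out)) (.nr 174 13 (.lg
  0 true 26 73 73 9 0 9360) .out)) (.nx 188 205 (.lg 0 false 13 83 83 9 0 9360) .out)))) .out)
  .out) (.na 192 3 .ne (.nx 321 6658044 (.nr 320 881745 (.nx 229 8847 (.nx 194 80 (.nr 193 24 (.lg
  0 true 1 31 31 5 0 720) (.l1 .sk)) (.nx 195 81 (.l1 .sk) (.nr 208 55110 (.lg 0 false 13 89 89 16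
  0 9360) (.nx 228 1292 (.nx 219 205 (.lg 0 false 11 83 83 16 0 7920) (.nx 220 406 .out (.nr 227
  110219 (.lg 0 false 7 79 89 13 0 5040) .out))) .out)))) (.nr 319 65537 (.nx 292 1321124 (.nx 278
  416129 (.nr 242 364 (.lg 0 true 13 83 83 16 0 9360) (.nx 277 208065 (.nr 247 3220 (.nr 245 1557
  (.lg 2 true 3 83 83 7 22865 720) (.lg 2 false 2 79 79 7 5346 720)) (.nx 269 52017 (.nx 258 19111
  (.lg 1 false 11 89 101 16 23736 55440) (.lg 1 true 11 89 101 16 10988 55440)) (.nr 276 38969 (.lg
  2 false 7 83 89 13 2585 5040) .out))) .out)) (.nr 291 109 (.lg 0 true 13 79 83 16 0 9360) .out))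
  (.nr 318 13 (.lg 0 true 26 79 79 7 0 9360) .out)) .out)) .out) .out))) (.na 532 6 (.na 437 5 (.nx
  436 10568985 (.nr 435 1246976 (.nx 325 81 (.nx 324 80 (.nr 323 31 (.lg 0 true 1 29 29 9 0 720)
  (.l1 .sk)) (.l1 .sk)) (.nr 423 155873 (.nx 377 330282 (.nx 344 10321 (.nr 336 55110 (.lg 0 false
  11 89 89 13 0 7920) (.nx 343 1292 (.lg 0 false 7 83 89 11 0 5040) .out)) (.nr 376 65537 (.nr 355
  694 (.lg 0 true 11 83 83 13 0 7920) (.nx 362 20642 (.lg 1 false 7 89 97 11 20346 5040) (.nr 365
  1352 (.lg 2 true 3 79 79 9 19037 720) (.lg 2 false 11 97 103 13 10173 720720)))) .out)) (.nr 422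
  183 (.nr 410 31 (.lg 0 true 33 83 83 13 0 7920) (.nx 421 1321124 (.lg 0 true 11 83 83 13 0 7920)
  .out)) .out)) (.nx 434 205 (.lg 0 false 11 83 83 13 0 7920) .out))) .out) .out) (.nx 531 10568985
  (.nr 530 1482912 (.nx 440 81 (.nx 439 80 (.nr 438 38 (.lg 0 true 1 29 29 9 0 5040) (.l1 .sk))
  (.l1 .sk)) (.nr 516 65537 (.nx 487 1321124 (.nx 473 262145 (.nx 451 15464 (.lg 0 false 11 97 97
  16 0 55440) (.nr 462 824 (.lg 0 true 11 79 79 16 0 7920) (.lg 2 false 11 97 97 16 13579 55440)))
  (.nr 486 217 (.lg 0 true 13 79 79 16 0 9360) .out)) (.nr 515 24 (.lg 0 true 28 73 73 11 0 5040)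
  .out)) (.nx 529 205 (.lg 0 false 13 73 73 16 0 9360) .out))) .out) .out)) (.na 533 7 .ne (.nx 603
  10568985 (.nr 602 262145 (.nx 551 10321 (.nx 535 80 (.nr 534 50 (.lg 0 true 1 23 23 9 0 5040)
  (.l1 .sk)) (.nx 536 81 (.l1 .sk) (.nr 547 55110 (.lg 0 false 11 83 89 16 0 55440) (.nx 550 408
  (.lg 0 false 3 79 79 11 0 5040) .out)))) (.nr 601 65537 (.nx 574 1321124 (.nr 562 596 (.lg 0 true
  11 83 83 16 0 55440) (.nx 573 262145 (.lg 2 false 11 89 101 16 20346 55440) .out)) (.nr 600 47
  (.lg 0 true 26 79 79 16 0 65520) .out)) .out)) .out) .out)))) (.na 796 15 (.na 755 10 (.na 671 9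
  (.nx 670 10568985 (.nr 669 623489 (.nx 607 81 (.nx 606 80 (.nr 605 57 (.lg 0 true 1 23 23 9 0
  720) (.l1 .sk)) (.l1 .sk)) (.nx 622 9411 (.nr 614 77937 (.lg 0 false 7 83 89 13 0 5040) (.nx 621
  814 (.lg 0 false 7 83 83 13 0 5040) .out)) (.nr 668 65537 (.nr 660 364 (.nx 633 1321124 (.lg 0
  true 11 79 79 13 0 7920) (.nr 659 55 (.lg 0 true 26 79 79 13 0 9360) .out)) (.nx 667 208065 (.lg
  2 false 7 89 97 13 22865 5040) .out)) .out))) .out) .out) (.nx 754 10568985 (.nr 753 623489 (.nr
  672 2 .s1 (.nx 675 81 (.nx 674 80 (.nr 673 63 (.lg 0 true 1 23 23 7 0 5040) (.l1 .sk)) (.l1 .sk))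
  (.nr 745 77937 (.nx 722 1321124 (.nr 707 38969 (.nr 686 364 (.lg 0 true 11 79 79 16 0 7920) (.nx
  706 165142 (.nr 695 19988 (.nx 688 3201 (.lg 0 true 2 83 83 16 0 5040) (.lg 2 false 7 73 73 16
  20065 5040)) (.lg 0 true 11 97 103 16 0 720720)) .out)) (.nx 721 82572 (.nr 718 65537 (.lg 0 true
  11 97 103 16 0 720720) (.nx 720 6503 (.lg 0 true 2 83 83 16 0 5040) .out)) .out)) (.nr 744 65
  (.lg 0 true 22 79 79 16 0 7920) .out)) (.nx 752 814 (.lg 0 false 7 83 83 16 0 5040) .out))))
  .out) .out)) (.na 756 12 .ne (.nx 795 1321124 (.nr 794 623489 (.nr 757 9 .s1 (.nx 790 330282 (.nx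
  759 80 (.nr 758 95 (.lg 0 true 1 31 31 13 0 5040) (.l1 .sk)) (.nx 760 81 (.l1 .sk) (.nr 762 374
  (.lg 0 false 2 79 79 13 0 5040) (.nx 789 165142 (.nr 765 3212 (.nx 763 3201 (.lg 0 false 1 71 71
  13 0 720) (.lg 2 false 2 73 73 13 17663 720)) (.nr 785 220437 (.nx 770 6503 (.nr 767 92683 (.lg 0
  false 2 97 101 13 0 5040) (.nx 769 814 (.lg 0 false 2 83 83 13 0 720) .out)) (.nr 784 65537 (.nr
  781 46342 (.nr 774 27556 (.lg 2 true 4 79 79 19 13601 5040) (.nx 780 104033 (.nx 777 65537 (.lg 0
  true 3 101 103 19 0 55440) (.nr 779 32769 (.lg 0 true 2 89 97 13 0 5040) .out)) .out)) (.nx 783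
  26009 (.lg 0 true 2 97 101 13 0 55440) .out)) .out)) (.nx 788 324 (.lg 0 false 3 83 83 19 0 5040)
  .out))) .out)))) (.nr 793 65 (.lg 0 true 3 73 73 19 0 720) .out))) .out) .out))) (.na 855 17 (.na
  827 16 (.nx 826 1321124 (.nr 825 623489 (.nr 797 13 .s1 (.nx 801 324 (.nx 799 80 (.nr 798 102
  (.lg 0 false 1 17 17 16 0 720) (.l1 .sk)) (.nx 800 81 (.l1 .sk) (.l1 (.ls 83 43 6564)))) (.nr 824
  220437 (.nr 822 92683 (.nx 817 330282 (.nx 808 20644 (.lg 0 false 7 83 89 17 0 5040) (.nr 816
  55110 (.nr 812 766 (.lg 0 true 4 73 73 16 0 720) (.nx 815 165142 (.lg 2 false 3 83 83 16 8624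
  720) .out)) .out)) (.nr 821 65 (.lg 0 true 4 61 61 16 0 720) .out)) (.nx 823 814 (.lg 0 true 1 73
  73 16 0 720) .out)) .out))) .out) .out) (.nx 854 1321124 (.nr 853 1048577 (.nr 828 14 .s1 (.nx
  849 165142 (.nx 830 80 (.nr 829 108 (.lg 0 true 1 29 29 11 0 5040) (.l1 .sk)) (.nx 831 81 (.l1
  .sk) (.nx 840 8193 (.nr 834 131073 (.lg 0 false 3 89 89 13 0 5040) (.nx 839 814 (.nr 835 220437
  (.lg 0 false 1 79 79 11 0 720) (.nx 838 324 (.lg 0 false 3 79 79 13 0 720) .out)) .out)) (.nr 848
  65537 (.nr 843 1569 (.lg 0 true 3 79 79 13 0 720) (.nx 845 26009 (.lg 1 false 2 89 97 13 25631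
  5040) (.nr 847 46342 (.lg 2 false 2 83 89 13 5712 5040) .out))) .out)))) (.nr 852 183 (.lg 0 true
  3 73 73 13 0 720) .out))) .out) .out)) (.na 856 20 .ne (.nx 882 1321124 (.nr 881 1048577 (.nr 857
  18 .s1 (.nx 861 205 (.nx 859 80 (.nr 858 133 (.lg 0 true 1 17 17 13 0 720) (.l1 .sk)) (.nx 860 81
  (.l1 .sk) (.l1 (.ls 79 41 1776)))) (.nr 880 623489 (.nx 868 10323 (.nx 862 324 (.l1 (.ls 79 43
  3150)) (.nr 867 220437 (.nr 865 131073 (.lg 0 false 3 83 83 13 0 720) (.nx 866 814 (.lg 0 true 1
  71 71 13 0 720) .out)) .out)) (.nr 879 55110 (.nr 875 498 (.lg 0 true 7 73 73 19 0 5040) (.nx 878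
  165142 (.lg 2 false 3 83 83 13 17110 720) .out)) .out)) .out))) .out) .out)))))

theorem c55 :
    OkQ ckI L10 248 4 12 0 34359738368 1 1099511627776 ∧
    OkQ ckI L6 80 1 21 0 34359738368 1 1099511627776 := by
  refine ⟨?_, ?_⟩
  · refine fin 2232 918 T55_0 ?_
    refine jn 6 (by decide +kernel) ?_
    refine jn 10 (by decide +kernel) ?_
    refine jn 12 (by decide +kernel) ?_
    refine jn 15 (by decide +kernel) ?_
    refine jn 18 (by decide +kernel) ?_
    refine jn 21 (by decide +kernel) ?_
    refine jn 23 (by decide +kernel) ?_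
    refine jn 26 (by decide +kernel) ?_
    refine jn 29 (by decide +kernel) ?_
    refine jn 32 (by decide +kernel) ?_
    refine jn 35 (by decide +kernel) ?_
    refine jn 37 (by decide +kernel) ?_
    refine jn 40 (by decide +kernel) ?_
    refine jn 42 (by decide +kernel) ?_
    refine jn 45 (by decide +kernel) ?_
    refine jn 48 (by decide +kernel) ?_
    refine jn 51 (by decide +kernel) ?_
    refine jn 53 (by decide +kernel) ?_
    refine jn 56 (by decide +kernel) ?_
    refine jn 68 (by decide +kernel) ?_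
    refine jn 69 (by decide +kernel) ?_
    refine jn 73 (by decide +kernel) ?_
    refine jn 76 (by decide +kernel) ?_
    refine jn 124 (by decide +kernel) ?_
    refine jn 130 (by decide +kernel) ?_
    refine jn 134 (by decide +kernel) ?_
    refine jn 141 (by decide +kernel) ?_
    refine jn 148 (by decide +kernel) ?_
    refine jn 155 (by decide +kernel) ?_
    refine jn 162 (by decide +kernel) ?_
    refine jn 165 (by decide +kernel) ?_
    refine jn 172 (by decide +kernel) ?_
    refine jn 178 (by decide +kernel) ?_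
    refine jn 180 (by decide +kernel) ?_
    refine jn 187 (by decide +kernel) ?_
    refine jn 193 (by decide +kernel) ?_
    refine jn 200 (by decide +kernel) ?_
    refine jn 214 (by decide +kernel) ?_
    refine jn 215 (by decide +kernel) ?_
    refine jn 230 (by decide +kernel) ?_
    refine jn 236 (by decide +kernel) ?_
    refine jn 253 (by decide +kernel) ?_
    refine jn 258 (by decide +kernel) ?_
    refine jn 269 (by decide +kernel) ?_
    refine jn 271 (by decide +kernel) ?_
    refine jn 273 (by decide +kernel) ?_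
    refine jn 275 (by decide +kernel) ?_
    refine jn 277 (by decide +kernel) ?_
    refine jn 281 (by decide +kernel) ?_
    refine jn 299 (by decide +kernel) ?_
    refine jn 305 (by decide +kernel) ?_
    refine jn 309 (by decide +kernel) ?_
    refine jn 312 (by decide +kernel) ?_
    refine jn 323 (by decide +kernel) ?_
    refine jn 332 (by decide +kernel) ?_
    refine jn 336 (by decide +kernel) ?_
    refine jn 345 (by decide +kernel) ?_
    refine jn 354 (by decide +kernel) ?_
    refine jn 358 (by decide +kernel) ?_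
    refine jn 367 (by decide +kernel) ?_
    refine jn 374 (by decide +kernel) ?_
    refine jn 385 (by decide +kernel) ?_
    refine jn 395 (by decide +kernel) ?_
    refine jn 409 (by decide +kernel) ?_
    refine jn 448 (by decide +kernel) ?_
    refine jn 458 (by decide +kernel) ?_
    refine jn 461 (by decide +kernel) ?_
    refine jn 464 (by decide +kernel) ?_
    refine jn 467 (by decide +kernel) ?_
    refine jn 469 (by decide +kernel) ?_
    refine jn 483 (by decide +kernel) ?_
    refine jn 496 (by decide +kernel) ?_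
    refine jn 501 (by decide +kernel) ?_
    refine jn 506 (by decide +kernel) ?_
    refine jn 513 (by decide +kernel) ?_
    refine jn 520 (by decide +kernel) ?_
    refine jn 533 (by decide +kernel) ?_
    refine jn 547 (by decide +kernel) ?_
    refine jn 560 (by decide +kernel) ?_
    refine jn 573 (by decide +kernel) ?_
    refine jn 586 (by decide +kernel) ?_
    refine jn 594 (by decide +kernel) ?_
    refine jn 601 (by decide +kernel) ?_
    refine jn 609 (by decide +kernel) ?_
    refine jn 644 (by decide +kernel) ?_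
    refine jn 655 (by decide +kernel) ?_
    refine jn 659 (by decide +kernel) ?_
    refine jn 663 (by decide +kernel) ?_
    refine jn 666 (by decide +kernel) ?_
    refine jn 672 (by decide +kernel) ?_
    refine jn 679 (by decide +kernel) ?_
    refine jn 683 (by decide +kernel) ?_
    refine jn 693 (by decide +kernel) ?_
    refine jn 703 (by decide +kernel) ?_
    refine jn 713 (by decide +kernel) ?_
    refine jn 723 (by decide +kernel) ?_
    refine jn 734 (by decide +kernel) ?_
    refine jn 744 (by decide +kernel) ?_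
    refine jn 755 (by decide +kernel) ?_
    refine jn 766 (by decide +kernel) ?_
    refine jn 802 (by decide +kernel) ?_
    refine jn 813 (by decide +kernel) ?_
    refine jn 822 (by decide +kernel) ?_
    refine jn 826 (by decide +kernel) ?_
    refine jn 831 (by decide +kernel) ?_
    refine jn 835 (by decide +kernel) ?_
    refine jn 842 (by decide +kernel) ?_
    refine jn 852 (by decide +kernel) ?_
    refine jn 855 (by decide +kernel) ?_
    refine jn 865 (by decide +kernel) ?_
    refine jn 879 (by decide +kernel) ?_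
    refine jn 890 (by decide +kernel) ?_
    refine jn 900 (by decide +kernel) ?_
    refine jn 914 (by decide +kernel) ?_
    exact je (by decide +kernel)
  · refine fin 720 883 T55_1 ?_
    refine jn 5 (by decide +kernel) ?_
    refine jn 7 (by decide +kernel) ?_
    refine jn 8 (by decide +kernel) ?_
    refine jn 10 (by decide +kernel) ?_
    refine jn 12 (by decide +kernel) ?_
    refine jn 13 (by decide +kernel) ?_
    refine jn 14 (by decide +kernel) ?_
    refine jn 15 (by decide +kernel) ?_
    refine jn 17 (by decide +kernel) ?_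
    refine jn 19 (by decide +kernel) ?_
    refine jn 20 (by decide +kernel) ?_
    refine jn 21 (by decide +kernel) ?_
    refine jn 23 (by decide +kernel) ?_
    refine jn 24 (by decide +kernel) ?_
    refine jn 29 (by decide +kernel) ?_
    refine jn 32 (by decide +kernel) ?_
    refine jn 36 (by decide +kernel) ?_
    refine jn 41 (by decide +kernel) ?_
    refine jn 45 (by decide +kernel) ?_
    refine jn 49 (by decide +kernel) ?_
    refine jn 54 (by decide +kernel) ?_
    refine jn 58 (by decide +kernel) ?_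
    refine jn 62 (by decide +kernel) ?_
    refine jn 76 (by decide +kernel) ?_
    refine jn 89 (by decide +kernel) ?_
    refine jn 100 (by decide +kernel) ?_
    refine jn 111 (by decide +kernel) ?_
    refine jn 134 (by decide +kernel) ?_
    refine jn 146 (by decide +kernel) ?_
    refine jn 174 (by decide +kernel) ?_
    refine jn 193 (by decide +kernel) ?_
    refine jn 195 (by decide +kernel) ?_
    refine jn 196 (by decide +kernel) ?_
    refine jn 197 (by decide +kernel) ?_
    refine jn 198 (by decide +kernel) ?_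
    refine jn 199 (by decide +kernel) ?_
    refine jn 200 (by decide +kernel) ?_
    refine jn 201 (by decide +kernel) ?_
    refine jn 202 (by decide +kernel) ?_
    refine jn 203 (by decide +kernel) ?_
    refine jn 204 (by decide +kernel) ?_
    refine jn 205 (by decide +kernel) ?_
    refine jn 206 (by decide +kernel) ?_
    refine jn 207 (by decide +kernel) ?_
    refine jn 208 (by decide +kernel) ?_
    refine jn 219 (by decide +kernel) ?_
    refine jn 229 (by decide +kernel) ?_
    refine jn 230 (by decide +kernel) ?_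
    refine jn 231 (by decide +kernel) ?_
    refine jn 232 (by decide +kernel) ?_
    refine jn 233 (by decide +kernel) ?_
    refine jn 234 (by decide +kernel) ?_
    refine jn 235 (by decide +kernel) ?_
    refine jn 236 (by decide +kernel) ?_
    refine jn 237 (by decide +kernel) ?_
    refine jn 238 (by decide +kernel) ?_
    refine jn 239 (by decide +kernel) ?_
    refine jn 240 (by decide +kernel) ?_
    refine jn 241 (by decide +kernel) ?_
    refine jn 242 (by decide +kernel) ?_
    refine jn 245 (by decide +kernel) ?_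
    refine jn 247 (by decide +kernel) ?_
    refine jn 258 (by decide +kernel) ?_
    refine jn 269 (by decide +kernel) ?_
    refine jn 276 (by decide +kernel) ?_
    refine jn 284 (by decide +kernel) ?_
    refine jn 291 (by decide +kernel) ?_
    refine jn 318 (by decide +kernel) ?_
    refine jn 325 (by decide +kernel) ?_
    refine jn 326 (by decide +kernel) ?_
    refine jn 327 (by decide +kernel) ?_
    refine jn 328 (by decide +kernel) ?_
    refine jn 329 (by decide +kernel) ?_
    refine jn 330 (by decide +kernel) ?_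
    refine jn 331 (by decide +kernel) ?_
    refine jn 332 (by decide +kernel) ?_
    refine jn 333 (by decide +kernel) ?_
    refine jn 334 (by decide +kernel) ?_
    refine jn 335 (by decide +kernel) ?_
    refine jn 336 (by decide +kernel) ?_
    refine jn 344 (by decide +kernel) ?_
    refine jn 345 (by decide +kernel) ?_
    refine jn 347 (by decide +kernel) ?_
    refine jn 349 (by decide +kernel) ?_
    refine jn 350 (by decide +kernel) ?_
    refine jn 351 (by decide +kernel) ?_
    refine jn 353 (by decide +kernel) ?_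
    refine jn 355 (by decide +kernel) ?_
    refine jn 362 (by decide +kernel) ?_
    refine jn 365 (by decide +kernel) ?_
    refine jn 373 (by decide +kernel) ?_
    refine jn 377 (by decide +kernel) ?_
    refine jn 383 (by decide +kernel) ?_
    refine jn 410 (by decide +kernel) ?_
    refine jn 421 (by decide +kernel) ?_
    refine jn 434 (by decide +kernel) ?_
    refine jn 445 (by decide +kernel) ?_
    refine jn 449 (by decide +kernel) ?_
    refine jn 455 (by decide +kernel) ?_
    refine jn 462 (by decide +kernel) ?_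
    refine jn 473 (by decide +kernel) ?_
    refine jn 486 (by decide +kernel) ?_
    refine jn 515 (by decide +kernel) ?_
    refine jn 536 (by decide +kernel) ?_
    refine jn 538 (by decide +kernel) ?_
    refine jn 540 (by decide +kernel) ?_
    refine jn 542 (by decide +kernel) ?_
    refine jn 543 (by decide +kernel) ?_
    refine jn 545 (by decide +kernel) ?_
    refine jn 547 (by decide +kernel) ?_
    refine jn 553 (by decide +kernel) ?_
    refine jn 556 (by decide +kernel) ?_
    refine jn 559 (by decide +kernel) ?_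
    refine jn 562 (by decide +kernel) ?_
    refine jn 570 (by decide +kernel) ?_
    refine jn 574 (by decide +kernel) ?_
    refine jn 600 (by decide +kernel) ?_
    refine jn 607 (by decide +kernel) ?_
    refine jn 608 (by decide +kernel) ?_
    refine jn 610 (by decide +kernel) ?_
    refine jn 611 (by decide +kernel) ?_
    refine jn 612 (by decide +kernel) ?_
    refine jn 613 (by decide +kernel) ?_
    refine jn 614 (by decide +kernel) ?_
    refine jn 622 (by decide +kernel) ?_
    refine jn 625 (by decide +kernel) ?_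
    refine jn 628 (by decide +kernel) ?_
    refine jn 631 (by decide +kernel) ?_
    refine jn 633 (by decide +kernel) ?_
    refine jn 659 (by decide +kernel) ?_
    refine jn 666 (by decide +kernel) ?_
    refine jn 675 (by decide +kernel) ?_
    refine jn 676 (by decide +kernel) ?_
    refine jn 677 (by decide +kernel) ?_
    refine jn 679 (by decide +kernel) ?_
    refine jn 681 (by decide +kernel) ?_
    refine jn 683 (by decide +kernel) ?_
    refine jn 685 (by decide +kernel) ?_
    refine jn 686 (by decide +kernel) ?_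
    refine jn 688 (by decide +kernel) ?_
    refine jn 689 (by decide +kernel) ?_
    refine jn 690 (by decide +kernel) ?_
    refine jn 691 (by decide +kernel) ?_
    refine jn 692 (by decide +kernel) ?_
    refine jn 693 (by decide +kernel) ?_
    refine jn 694 (by decide +kernel) ?_
    refine jn 695 (by decide +kernel) ?_
    refine jn 704 (by decide +kernel) ?_
    refine jn 707 (by decide +kernel) ?_
    refine jn 718 (by decide +kernel) ?_
    refine jn 744 (by decide +kernel) ?_
    refine jn 757 (by decide +kernel) ?_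
    refine jn 760 (by decide +kernel) ?_
    refine jn 761 (by decide +kernel) ?_
    refine jn 762 (by decide +kernel) ?_
    refine jn 763 (by decide +kernel) ?_
    refine jn 764 (by decide +kernel) ?_
    refine jn 765 (by decide +kernel) ?_
    refine jn 769 (by decide +kernel) ?_
    refine jn 770 (by decide +kernel) ?_
    refine jn 771 (by decide +kernel) ?_
    refine jn 772 (by decide +kernel) ?_
    refine jn 773 (by decide +kernel) ?_
    refine jn 774 (by decide +kernel) ?_
    refine jn 779 (by decide +kernel) ?_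
    refine jn 788 (by decide +kernel) ?_
    refine jn 792 (by decide +kernel) ?_
    refine jn 793 (by decide +kernel) ?_
    refine jn 800 (by decide +kernel) ?_
    refine jn 801 (by decide +kernel) ?_
    refine jn 805 (by decide +kernel) ?_
    refine jn 808 (by decide +kernel) ?_
    refine jn 812 (by decide +kernel) ?_
    refine jn 821 (by decide +kernel) ?_
    refine jn 831 (by decide +kernel) ?_
    refine jn 832 (by decide +kernel) ?_
    refine jn 833 (by decide +kernel) ?_
    refine jn 834 (by decide +kernel) ?_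
    refine jn 838 (by decide +kernel) ?_
    refine jn 840 (by decide +kernel) ?_
    refine jn 841 (by decide +kernel) ?_
    refine jn 842 (by decide +kernel) ?_
    refine jn 843 (by decide +kernel) ?_
    refine jn 845 (by decide +kernel) ?_
    refine jn 847 (by decide +kernel) ?_
    refine jn 850 (by decide +kernel) ?_
    refine jn 851 (by decide +kernel) ?_
    refine jn 852 (by decide +kernel) ?_
    refine jn 862 (by decide +kernel) ?_
    refine jn 865 (by decide +kernel) ?_
    refine jn 873 (by decide +kernel) ?_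
    refine jn 878 (by decide +kernel) ?_
    exact je (by decide +kernel)

end Pool.Agent.MP_2339ce_nt.NR
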