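import Pool.Agent.MP_2339ce_nt.Q2.NC.L9
import Pool.Agent.MP_2339ce_nt.Q2.NC.L10
import Pool.Agent.MP_2339ce_nt.Q2.CkI

/-! Block NR: runs. -/

set_option autoImplicit false
set_option maxRecDepth 100000

noncomputable section

namespace Pool.Agent.MP_2339ce_nt.NR

open Q2.Top

def T56_0 : Ph :=
  (.na 633 135 (.na 345 96 (.na 185 75 (.na 88 66 (.na 41 62 (.na 18 61 (.nx 17 2642247 (.nr 16
  881745 (.nr 1 58 .s1 (.nx 13 262145 (.nx 10 52017 (.nx 6 20644 (.nx 3 239 (.nr 2 668 (.l1 (.ls 37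
  41 955)) (.l1 .sk)) (.nx 4 240 (.l1 .sk) (.lg 0 false 2 101 103 31 0 55440))) (.nr 9 220437 (.nr
  7 92683 (.lg 0 false 1 97 101 29 0 55440) (.nx 8 32769 (.lg 0 false 1 89 89 29 0 720) .out))
  .out)) (.nr 12 65537 (.nr 11 1767 (.lg 0 true 1 79 79 29 0 720) (.lg 2 false 1 97 97 29 36116
  5040)) .out)) (.nr 15 257 (.lg 0 true 2 73 73 31 0 720) .out))) .out) .out) (.nx 40 2642247 (.nr
  39 881745 (.nr 19 60 .s1 (.nx 29 32769 (.nx 21 239 (.nr 20 679 (.l1 (.ls 19 23 939)) (.l1 .sk))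
  (.nx 22 240 (.l1 .sk) (.lg 0 false 7 89 97 17 0 5040))) (.nr 38 92683 (.nr 33 679 (.lg 0 true 4
  71 71 16 0 144) (.nx 37 262145 (.lg 2 false 4 83 83 16 80990 720) .out)) .out))) .out) .out))
  (.na 64 64 (.nx 63 2642247 (.nr 62 881745 (.nr 42 61 .s1 (.nx 45 240 (.nx 44 239 (.nr 43 701 (.l1
  (.ls 23 37 924)) (.l1 .sk)) (.l1 .sk)) (.nx 52 32769 (.lg 0 false 7 89 97 23 0 5040) (.nr 61
  92683 (.nr 57 701 (.lg 0 true 5 71 71 19 0 720) (.nx 60 262145 (.lg 2 false 3 89 89 19 80990 720)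
  .out)) .out)))) .out) .out) (.na 87 65 (.nx 86 2642247 (.nr 85 2097153 (.nr 65 63 .s1 (.nx 68 240
  (.nx 67 239 (.nr 66 712 (.l1 (.ls 29 31 895)) (.l1 .sk)) (.l1 .sk)) (.nx 76 32769 (.nx 69 408
  (.l1 (.ls 79 37 1704)) (.nr 75 1048577 (.nx 72 20644 (.lg 0 false 3 89 97 23 0 720) (.nr 74
  262145 (.lg 0 false 2 83 83 19 0 720) .out)) .out)) (.nr 84 92683 (.nr 79 712 (.lg 0 true 3 73 73
  23 0 144) (.nx 83 416129 (.nr 81 65537 (.lg 2 true 2 83 89 19 69842 720) (.nx 82 52017 (.lg 0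
  false 1 73 73 17 0 144) .out)) .out)) .out)))) .out) .out) .ne))) (.na 130 68 (.na 110 67 (.nx
  109 2642247 (.nr 108 2097153 (.nr 89 65 .s1 (.nx 92 240 (.nx 91 239 (.nr 90 734 (.l1 (.ls 31 41
  868)) (.l1 .sk)) (.l1 .sk)) (.nx 93 408 (.l1 (.ls 83 43 1652)) (.nr 107 1048577 (.nx 98 20644
  (.lg 0 false 5 89 97 37 0 7920) (.nr 106 262145 (.nx 100 32769 (.lg 0 false 2 89 89 29 0 7920)
  (.nr 105 65537 (.nr 103 734 (.lg 0 true 3 79 79 31 0 1584) (.nx 104 416129 (.lg 2 false 1 101 101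
  29 67749 55440) .out)) .out)) .out)) .out)))) .out) .out) (.nx 129 2642247 (.nr 128 2097153 (.nr
  111 66 .s1 (.nx 114 240 (.nx 113 239 (.nr 112 744 (.l1 (.ls 23 23 855)) (.l1 .sk)) (.l1 .sk))
  (.nx 115 408 (.l1 (.ls 79 29 1627)) (.nr 127 1048577 (.nx 119 32769 (.lg 0 false 4 97 97 16 0
  720) (.nr 126 65537 (.nr 123 744 (.lg 0 true 4 71 71 16 0 144) (.nx 125 416129 (.lg 2 true 2 83
  83 16 66838 144) .out)) .out)) .out)))) .out) .out)) (.na 151 71 (.nx 150 2642247 (.nr 149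
  2097153 (.nr 131 67 .s1 (.nx 134 240 (.nx 133 239 (.nr 132 777 (.l1 (.ls 31 37 843)) (.l1 .sk))
  (.l1 .sk)) (.nx 143 32769 (.nx 135 408 (.l1 (.ls 83 41 1603)) (.nr 142 1048577 (.lg 0 false 7 89
  101 31 0 5040) .out)) (.nr 148 65537 (.nr 146 777 (.lg 0 true 3 73 73 29 0 144) (.nx 147 416129
  (.lg 2 true 1 97 97 13 64000 720) .out)) .out)))) .out) .out) (.na 168 72 (.nx 167 2642247 (.nr
  166 2097153 (.nr 152 70 .s1 (.nx 153 408 (.l1 (.ls 79 31 2347)) (.nr 165 1048577 (.nx 157 32769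
  (.lg 0 false 4 89 89 16 0 144) (.nr 164 65537 (.nr 161 788 (.lg 0 true 4 67 67 16 0 144) (.nx 163
  416129 (.lg 2 false 2 83 83 16 63106 720) .out)) .out)) .out))) .out) .out) (.nx 184 2642247 (.nr
  183 2097153 (.nr 169 71 .s1 (.nx 172 240 (.nx 171 239 (.nr 170 821 (.l1 (.ls 31 37 796)) (.l1
  .sk)) (.l1 .sk)) (.nx 178 32769 (.nx 173 408 (.l1 (.ls 83 41 1515)) (.nr 177 1048577 (.nx 175
  20644 (.lg 0 false 2 97 101 29 0 7920) (.nr 176 262145 (.lg 0 false 1 89 89 29 0 720) .out))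
  .out)) (.nr 182 65537 (.nr 180 821 (.lg 0 true 2 79 79 29 0 720) (.nx 181 416129 (.lg 2 false 1
  89 89 29 60570 720) .out)) .out)))) .out) .out))))) (.na 274 87 (.na 222 81 (.na 204 80 (.nx 203
  2642247 (.nr 202 2097153 (.nr 186 74 .s1 (.nx 189 240 (.nx 188 239 (.nr 187 876 (.l1 (.ls 29 31
  764)) (.l1 .sk)) (.l1 .sk)) (.nx 195 32769 (.nx 190 408 (.l1 (.ls 79 37 1454)) (.nr 194 1048577
  (.lg 0 false 4 83 97 23 0 720) .out)) (.nr 201 65537 (.nr 199 876 (.lg 0 true 4 71 73 23 0 720)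
  (.nx 200 416129 (.lg 2 true 1 89 89 17 57330 720) .out)) .out)))) .out) .out) (.nx 221 2642247
  (.nr 220 2097153 (.nr 205 79 .s1 (.nx 215 32769 (.nx 207 239 (.nr 206 887 (.l1 (.ls 37 37 717))
  (.l1 .sk)) (.nx 208 240 (.l1 .sk) (.nx 209 408 (.l1 (.ls 89 41 1363)) (.nr 214 1048577 (.nx 212
  20644 (.lg 0 false 3 101 103 31 0 720720) (.nr 213 262145 (.lg 0 false 1 97 97 23 0 7920) .out))
  .out)))) (.nr 219 65537 (.nr 217 887 (.lg 0 true 2 79 83 29 0 720) (.nx 218 416129 (.lg 2 false 1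
  97 101 23 57330 55440) .out)) .out))) .out) .out)) (.na 239 83 (.nx 238 2642247 (.nr 237 2097153
  (.nr 223 80 .s1 (.nx 229 32769 (.nx 224 408 (.l1 (.ls 73 37 2058)) (.nr 228 1048577 (.lg 0 false
  4 83 89 19 0 720) .out)) (.nr 236 65537 (.nr 233 909 (.lg 0 true 4 67 67 19 0 144) (.nx 235
  416129 (.lg 2 false 2 79 79 17 57330 144) .out)) .out))) .out) .out) (.na 256 85 (.nx 255 2642247
  (.nr 254 2097153 (.nr 240 82 .s1 (.nx 241 408 (.l1 (.ls 71 29 2008)) (.nr 253 1048577 (.nx 245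
  32769 (.lg 0 false 4 89 89 16 0 720) (.nr 252 65537 (.nr 249 931 (.lg 0 true 4 67 67 16 0 144)
  (.nx 251 416129 (.lg 2 false 2 73 73 16 57330 144) .out)) .out)) .out))) .out) .out) (.nx 273
  2642247 (.nr 272 2097153 (.nr 257 84 .s1 (.nx 266 32769 (.nx 259 239 (.nr 258 952 (.l1 (.ls 31 29
  675)) (.l1 .sk)) (.nx 260 240 (.l1 .sk) (.nx 261 408 (.l1 (.ls 83 31 1283)) (.nr 265 1048577 (.lg
  0 false 4 97 101 23 0 7920) .out)))) (.nr 271 65537 (.nr 269 952 (.lg 0 true 3 73 73 23 0 360)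
  (.nx 270 416129 (.lg 2 true 1 89 89 16 57330 360) .out)) .out))) .out) .out)))) (.na 309 90 (.na
  291 88 (.nx 290 2642247 (.nr 289 2097153 (.nr 275 86 .s1 (.nx 279 408 (.nx 277 239 (.nr 276 963
  (.l1 (.ls 23 23 659)) (.l1 .sk)) (.nx 278 240 (.l1 .sk) (.l1 (.ls 83 37 1254)))) (.nr 288 1048577
  (.nx 283 32769 (.lg 0 false 4 97 103 23 0 55440) (.nr 287 65537 (.nr 285 963 (.lg 0 true 2 79 79
  19 0 144) (.nx 286 416129 (.lg 2 true 1 97 97 17 57330 5040) .out)) .out)) .out))) .out) .out)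
  (.nx 308 2642247 (.nr 307 2097153 (.nr 292 87 .s1 (.nx 296 408 (.nx 294 239 (.nr 293 985 (.l1
  (.ls 37 37 652)) (.l1 .sk)) (.nx 295 240 (.l1 .sk) (.l1 (.ls 89 41 1240)))) (.nr 306 1048577 (.nx
  299 20644 (.lg 0 false 3 97 103 31 0 55440) (.nr 305 262145 (.nx 300 32769 (.lg 0 false 1 89 97
  29 0 7920) (.nr 304 65537 (.nr 302 985 (.lg 0 true 2 83 83 29 0 7920) (.nx 303 416129 (.lg 2
  false 1 97 101 29 57330 55440) .out)) .out)) .out)) .out))) .out) .out)) (.na 327 91 (.nx 326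
  2642247 (.nr 325 2097153 (.nr 310 89 .s1 (.nx 312 239 (.nr 311 996 (.l1 (.ls 29 41 637)) (.l1
  .sk)) (.nx 313 240 (.l1 .sk) (.nx 314 408 (.l1 (.ls 79 43 1212)) (.nr 324 1048577 (.nr 321 262145
  (.nx 316 32769 (.lg 0 false 2 83 89 31 0 720) (.nr 320 65537 (.nr 318 996 (.lg 0 true 2 73 73 31
  0 720) (.nx 319 416129 (.lg 2 true 1 83 83 29 57330 720) .out)) .out)) (.nx 323 20644 (.lg 0
  false 2 89 89 31 0 720) .out)) .out))))) .out) .out) (.na 328 93 .ne (.nx 344 2642247 (.nr 343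
  2097153 (.nr 329 92 .s1 (.nx 333 408 (.nx 331 239 (.nr 330 1051 (.l1 (.ls 29 29 617)) (.l1 .sk))
  (.nx 332 240 (.l1 .sk) (.l1 (.ls 79 29 1173)))) (.nr 342 1482912 (.nx 337 28561 (.lg 0 false 4 89
  97 23 0 720) (.nr 341 65537 (.nr 339 1051 (.lg 0 true 2 73 73 19 0 144) (.nx 340 416129 (.lg 2
  false 1 89 89 17 65776 720) .out)) .out)) .out))) .out) .out)))))) (.na 501 120 (.na 429 108 (.na
  380 100 (.na 363 99 (.nx 362 2642247 (.nr 361 2097153 (.nr 346 95 .s1 (.nx 349 240 (.nx 348 239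
  (.nr 347 1084 (.l1 (.ls 31 37 598)) (.l1 .sk)) (.l1 .sk)) (.nx 350 408 (.l1 (.ls 83 41 1137))
  (.nr 360 1482912 (.nx 354 26009 (.nr 352 1048577 (.lg 0 false 2 97 101 31 0 7920) (.nx 353 10321
  .out (.lg 0 false 1 89 97 29 0 7920))) (.nr 359 65537 (.nx 355 28561 (.lg 0 false 1 67 71 29 0
  144) (.nr 357 1084 (.lg 0 true 2 73 79 31 0 144) (.nx 358 416129 (.lg 2 true 1 89 97 29 65776
  7920) .out))) .out)) .out)))) .out) .out) (.nx 379 2642247 (.nr 378 2097153 (.nr 364 98 .s1 (.nx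
  373 28561 (.nx 366 239 (.nr 365 1095 (.l1 (.ls 29 31 579)) (.l1 .sk)) (.nx 367 240 (.l1 .sk) (.nx
  368 408 (.l1 (.ls 79 37 1102)) (.nr 372 1482912 (.lg 0 false 4 89 97 29 0 7920) .out)))) (.nr 377
  65537 (.nr 375 1095 (.lg 0 true 2 73 73 23 0 1584) (.nx 376 416129 (.lg 2 false 1 89 89 19 65776
  7920) .out)) .out))) .out) .out)) (.na 396 101 (.nx 395 2642247 (.nr 394 2097153 (.nr 381 99 .s1
  (.nx 384 240 (.nx 383 239 (.nr 382 1106 (.l1 (.ls 29 31 574)) (.l1 .sk)) (.l1 .sk)) (.nx 389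
  28561 (.nx 385 408 (.l1 (.ls 79 37 1091)) (.nr 388 1482912 (.lg 0 false 3 89 97 29 0 7920) .out))
  (.nr 393 65537 (.nr 391 1106 (.lg 0 true 2 73 73 29 0 720) (.nx 392 416129 (.lg 2 true 1 83 83 23
  65776 720) .out)) .out)))) .out) .out) (.na 413 102 (.nx 412 2642247 (.nr 411 2097153 (.nr 397
  100 .s1 (.nx 403 28561 (.nx 398 408 (.l1 (.ls 71 29 1651)) (.nr 402 1482912 (.lg 0 false 4 83 83
  17 0 144) .out)) (.nr 410 65537 (.nr 407 1117 (.lg 0 true 4 67 67 17 0 144) (.nx 409 416129 (.lg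
  2 false 2 73 73 16 65776 144) .out)) .out))) .out) .out) (.nx 428 2642247 (.nr 427 2097153 (.nr
  414 101 .s1 (.nx 422 28561 (.nx 416 239 (.nr 415 1182 (.l1 (.ls 37 41 563)) (.l1 .sk)) (.nx 417
  240 (.l1 .sk) (.nx 418 408 (.l1 (.ls 83 43 1070)) (.nr 421 1482912 (.lg 0 false 3 97 101 37 0
  7920) .out)))) (.nr 426 65537 (.nr 424 513 (.lg 0 true 2 71 71 31 0 144) (.nx 425 416129 (.lg 2
  false 1 101 101 29 96935 55440) .out)) .out))) .out) .out)))) (.na 459 110 (.na 442 109 (.nx 441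
  2642247 (.nr 440 2097153 (.nr 430 107 .s1 (.nx 435 28561 (.nx 431 408 (.l1 (.ls 79 41 1544)) (.nr
  434 1482912 (.lg 0 false 3 89 97 31 0 720) .out)) (.nr 439 65537 (.nr 437 513 (.lg 0 true 2 67 67
  29 0 144) (.nx 438 416129 (.lg 2 false 1 89 89 23 96935 5040) .out)) .out))) .out) .out) (.nx 458
  2642247 (.nr 457 2097153 (.nr 443 108 .s1 (.nx 444 408 (.l1 (.ls 71 29 1530)) (.nr 456 1482912
  (.nx 448 28561 (.lg 0 false 4 83 83 17 0 720) (.nr 455 65537 (.nr 452 1204 (.lg 0 true 4 67 67 17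
  0 144) (.nx 454 416129 (.lg 2 true 2 73 73 16 65776 144) .out)) .out)) .out))) .out) .out)) (.na
  472 113 (.nx 471 2642247 (.nr 470 2097153 (.nr 460 109 .s1 (.nx 465 28561 (.nx 461 408 (.l1 (.ls
  79 43 1516)) (.nr 464 1482912 (.lg 0 false 3 89 97 31 0 7920) .out)) (.nr 469 65537 (.nr 467 513
  (.lg 0 true 2 71 71 31 0 7920) (.nx 468 416129 (.lg 2 false 1 89 89 29 96935 7920) .out)) .out)))
  .out) .out) (.na 488 116 (.nx 487 2642247 (.nr 486 2097153 (.nr 473 112 .s1 (.nx 479 28561 (.nx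
  474 408 (.l1 (.ls 71 29 1476)) (.nr 478 1482912 (.lg 0 false 4 83 83 17 0 144) .out)) (.nr 485
  65537 (.nr 483 1270 (.lg 0 true 4 67 67 17 0 144) (.nx 484 416129 (.lg 2 false 1 79 79 16 65776
  72) .out)) .out))) .out) .out) (.nx 500 2642247 (.nr 499 2097153 (.nr 489 115 .s1 (.nx 494 28561
  (.nx 490 408 (.l1 (.ls 83 41 1438)) (.nr 493 1482912 (.lg 0 false 3 97 97 23 0 720) .out)) (.nr
  498 65537 (.nr 496 513 (.lg 0 true 2 71 71 23 0 144) (.nx 497 416129 (.lg 2 false 1 89 89 19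
  96935 144) .out)) .out))) .out) .out))))) (.na 573 127 (.na 533 122 (.na 519 121 (.nx 518 2642247
  (.nr 517 2097153 (.nr 502 120 .s1 (.nx 506 408 (.nx 504 239 (.nr 503 1325 (.l1 (.ls 41 37 479))
  (.l1 .sk)) (.nx 505 240 (.l1 .sk) (.l1 (.ls 89 41 910)))) (.nr 516 1482912 (.nr 511 65537 (.nx
  509 416129 (.nx 507 68677 (.lg 0 false 1 79 79 37 0 720) (.nr 508 3860 (.lg 0 true 1 79 83 37 0
  720) (.lg 2 false 1 79 89 37 27355 720))) (.nr 510 513 (.lg 0 true 1 79 79 37 0 720) .out)) (.nx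
  515 26009 (.nr 513 1048577 (.lg 0 false 2 97 103 41 0 55440) (.nx 514 10321 .out (.lg 0 false 1
  97 103 37 0 55440))) .out)) .out))) .out) .out) (.nx 532 2642247 (.nr 531 2097153 (.nr 520 121
  .s1 (.nx 526 28561 (.nx 521 408 (.l1 (.ls 71 31 1378)) (.nr 525 1482912 (.lg 0 false 4 83 83 19 0
  7920) .out)) (.nr 530 65537 (.nr 528 513 (.lg 0 true 2 61 61 17 0 1584) (.nx 529 416129 (.lg 2
  false 1 79 79 17 96935 792) .out)) .out))) .out) .out)) (.na 546 124 (.nx 545 2642247 (.nr 544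
  2097153 (.nr 534 122 .s1 (.nx 535 408 (.l1 (.ls 79 37 1367)) (.nr 543 1482912 (.nx 538 28561 (.lg
  0 false 3 89 89 23 0 720) (.nr 542 65537 (.nr 540 513 (.lg 0 true 2 61 61 19 0 144) (.nx 541
  416129 (.lg 2 false 1 83 83 19 96935 144) .out)) .out)) .out))) .out) .out) (.na 559 125 (.nx 558
  2642247 (.nr 557 2097153 (.nr 547 124 .s1 (.nx 552 28561 (.nx 548 408 (.l1 (.ls 79 41 1345)) (.nr
  551 1482912 (.lg 0 false 3 97 101 29 0 7920) .out)) (.nr 556 65537 (.nr 554 513 (.lg 0 true 2 71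
  71 23 0 144) (.nx 555 416129 (.lg 2 false 1 89 89 19 96935 144) .out)) .out))) .out) .out) (.nx
  572 2642247 (.nr 571 2097153 (.nr 560 125 .s1 (.nx 566 28561 (.nx 561 408 (.l1 (.ls 71 29 1334))
  (.nr 565 1482912 (.lg 0 false 4 79 83 19 0 720) .out)) (.nr 570 65537 (.nr 568 513 (.lg 0 true 2
  59 59 17 0 720) (.nx 569 416129 (.lg 2 false 1 79 79 16 96935 720) .out)) .out))) .out) .out))))
  (.na 602 131 (.na 587 128 (.nx 586 2642247 (.nr 585 2097153 (.nr 574 127 .s1 (.nx 580 28561 (.nx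
  575 408 (.l1 (.ls 71 29 1313)) (.nr 579 1482912 (.lg 0 false 4 83 83 17 0 720) .out)) (.nr 584
  65537 (.nr 582 513 (.lg 0 true 2 59 59 16 0 144) (.nx 583 416129 (.lg 2 false 1 79 79 16 96935
  720) .out)) .out))) .out) .out) (.na 601 129 (.nx 600 2642247 (.nr 599 2097153 (.nr 588 128 .s1
  (.nx 594 28561 (.nx 590 239 (.nr 589 1412 (.l1 (.ls 29 29 449)) (.l1 .sk)) (.nx 591 240 (.l1 .sk)
  (.lg 0 false 3 83 89 29 0 720))) (.nr 598 65537 (.nr 596 1025 (.lg 0 true 2 71 71 23 0 144) (.nx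
  597 416129 (.lg 2 true 1 79 79 19 65776 720) .out)) .out))) .out) .out) .ne)) (.na 603 132 (.lg 0
  false 1 0 0 16 0 24) (.na 617 134 (.nx 616 1321124 (.nr 615 2097153 (.nr 604 132 .s1 (.nx 613
  165142 (.nx 606 239 (.nr 605 1467 (.l1 (.ls 37 37 435)) (.l1 .sk)) (.nx 607 240 (.l1 .sk) (.nx
  611 41287 (.nr 608 262145 (.lg 0 false 1 97 97 31 0 7920) (.nx 610 20644 (.lg 0 false 2 89 97 37
  0 7920) .out)) (.nr 612 16385 (.lg 0 true 1 83 83 31 0 7920) .out)))) (.nr 614 1025 (.lg 0 true 1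
  73 73 31 0 1584) .out))) .out) .out) (.nx 632 1321124 (.nr 631 2097153 (.nr 618 134 .s1 (.nx 629
  165142 (.nx 620 239 (.nr 619 1478 (.l1 (.ls 19 29 429)) (.l1 .sk)) (.nx 621 240 (.l1 .sk) (.nx
  626 26009 (.lg 0 false 5 83 83 29 0 720) (.nr 628 65537 (.lg 0 true 2 79 79 23 0 144) .out))))
  (.nr 630 1025 (.lg 0 false 1 71 71 19 0 720) .out))) .out) .out))))))) (.na 851 173 (.na 727 153
  (.na 683 144 (.na 664 137 (.na 649 136 (.nx 648 1321124 (.nr 647 2097153 (.nr 634 135 .s1 (.nx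
  643 41287 (.nx 641 26009 (.nx 636 239 (.nr 635 1489 (.l1 (.ls 29 29 426)) (.l1 .sk)) (.nx 637 240
  (.l1 .sk) (.lg 0 false 4 83 89 29 0 7920))) (.nr 642 65537 (.lg 0 false 1 71 71 19 0 360) .out))
  (.nr 646 16385 (.nr 644 1025 (.lg 0 true 1 67 67 19 0 360) (.nx 645 165142 (.lg 2 true 1 61 61 19
  19254 360) .out)) .out))) .out) .out) (.nx 663 1321124 (.nr 662 2097153 (.nr 650 136 .s1 (.nx 652
  239 (.nr 651 1500 (.l1 (.ls 37 31 423)) (.l1 .sk)) (.nx 653 240 (.l1 .sk) (.nx 656 20644 (.lg 0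
  false 3 97 103 37 0 55440) (.nr 661 262145 (.nx 659 165142 (.nx 657 41287 (.lg 0 false 1 89 97 29
  0 720) (.nr 658 16385 (.lg 0 true 1 83 83 29 0 144) .out)) (.nr 660 1025 (.lg 0 true 1 73 73 29 0
  144) .out)) .out))))) .out) .out)) (.na 665 139 (.lg 0 false 1 0 0 16 0 24) (.na 666 142 (.lg 0
  false 1 0 0 16 0 24) (.nx 682 1321124 (.nr 681 2097153 (.nr 667 142 .s1 (.nx 669 239 (.nr 668
  1576 (.l1 (.ls 19 29 405)) (.l1 .sk)) (.nx 670 240 (.l1 .sk) (.nx 677 41287 (.lg 0 false 7 89 97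
  29 0 5040) (.nr 680 16385 (.nr 678 1025 (.lg 0 false 1 71 71 19 0 144) (.nx 679 165142 (.lg 2
  false 1 59 59 19 19254 720) .out)) .out))))) .out) .out)))) (.na 711 149 (.na 697 145 (.nx 696
  1321124 (.nr 695 2097153 (.nr 684 144 .s1 (.nx 691 41287 (.nx 686 239 (.nr 685 1587 (.l1 (.ls 37
  31 399)) (.l1 .sk)) (.nx 687 240 (.l1 .sk) (.nr 688 262145 (.lg 0 false 1 89 97 31 0 720) (.nx
  690 20644 (.lg 0 false 2 101 103 37 0 720720) .out)))) (.nr 694 16385 (.nx 692 165142 (.lg 0 true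
  1 79 83 31 0 720) (.nr 693 1025 (.lg 0 true 1 73 73 31 0 144) .out)) .out))) .out) .out) (.nx 710
  1321124 (.nr 709 2097153 (.nr 698 145 .s1 (.nx 701 240 (.nx 700 239 (.nr 699 1631 (.l1 (.ls 23 23
  396)) (.l1 .sk)) (.l1 .sk)) (.nx 705 26009 (.lg 0 false 4 83 97 23 0 720) (.nr 708 65537 (.nx 706
  165142 (.lg 0 false 1 89 89 17 0 720) (.nr 707 1025 (.lg 0 true 1 67 67 17 0 360) .out)) .out))))
  .out) .out)) (.na 712 150 (.lg 0 false 1 0 0 16 0 24) (.na 726 151 (.nx 725 1321124 (.nr 724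
  2097153 (.nr 713 150 .s1 (.nx 720 41287 (.nx 715 239 (.nr 714 1653 (.l1 (.ls 29 37 383)) (.l1
  .sk)) (.nx 716 240 (.l1 .sk) (.nx 718 20644 (.lg 0 false 2 89 89 31 0 720) (.nr 719 262145 (.lg 0
  false 1 79 79 31 0 720) .out)))) (.nr 723 16385 (.nr 721 1025 (.lg 0 true 1 67 67 31 0 720) (.nx
  722 165142 (.lg 2 true 1 61 61 31 19254 720) .out)) .out))) .out) .out) (.lg 0 false 1 0 0 16 0
  24))))) (.na 796 163 (.na 755 157 (.na 741 155 (.nx 740 1321124 (.nr 739 2097153 (.nr 728 153 .s1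
  (.nx 737 165142 (.nx 730 239 (.nr 729 1697 (.l1 (.ls 16 29 376)) (.l1 .sk)) (.nx 731 240 (.l1
  .sk) (.nx 735 26009 (.lg 0 false 4 83 97 29 0 720) (.nr 736 65537 (.lg 0 false 1 89 89 23 0 720)
  .out)))) (.nr 738 1025 (.lg 0 true 1 67 67 23 0 72) .out))) .out) .out) (.nx 754 1321124 (.nr 753
  2097153 (.nr 742 155 .s1 (.nx 744 239 (.nr 743 1718 (.l1 (.ls 29 23 371)) (.l1 .sk)) (.nx 745 240
  (.l1 .sk) (.nx 751 165142 (.nx 749 26009 (.lg 0 false 4 89 97 23 0 720) (.nr 750 65537 (.lg 0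
  false 1 89 89 17 0 720) .out)) (.nr 752 1025 (.lg 0 true 1 71 71 17 0 360) .out))))) .out) .out))
  (.na 769 160 (.nx 768 1321124 (.nr 767 2097153 (.nr 756 157 .s1 (.nx 763 41287 (.nx 758 239 (.nr
  757 1751 (.l1 (.ls 23 19 366)) (.l1 .sk)) (.nx 759 240 (.l1 .sk) (.lg 0 false 4 83 83 17 0 144)))
  (.nr 766 16385 (.nr 764 1025 (.lg 0 false 1 67 67 16 0 72) (.nx 765 165142 (.lg 2 false 1 59 59
  16 19254 72) .out)) .out))) .out) .out) (.na 783 162 (.nx 782 1321124 (.nr 781 2097153 (.nr 770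
  160 .s1 (.nx 779 165142 (.nx 777 41287 (.nx 772 239 (.nr 771 1773 (.l1 (.ls 31 31 360)) (.l1
  .sk)) (.nx 773 240 (.l1 .sk) (.nx 775 20644 (.lg 0 false 2 83 97 31 0 720) (.nr 776 262145 (.lg 0
  false 1 83 83 29 0 720) .out)))) (.nr 778 16385 (.lg 0 true 1 79 79 29 0 720) .out)) (.nr 780
  1025 (.lg 0 true 1 71 71 29 0 720) .out))) .out) .out) (.nx 795 1321124 (.nr 794 2097153 (.nr 784
  162 .s1 (.nx 786 239 (.nr 785 1784 (.l1 (.ls 23 31 355)) (.l1 .sk)) (.nx 787 240 (.l1 .sk) (.nx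
  790 26009 (.lg 0 false 3 83 83 29 0 144) (.nr 793 65537 (.nx 791 165142 (.lg 0 false 1 79 79 23 0
  144) (.nr 792 1025 (.lg 0 false 1 67 67 23 0 144) .out)) .out))))) .out) .out)))) (.na 824 166
  (.na 810 165 (.nx 809 1321124 (.nr 808 2097153 (.nr 797 163 .s1 (.nx 804 41287 (.nx 799 239 (.nr
  798 1806 (.l1 (.ls 17 19 353)) (.l1 .sk)) (.nx 800 240 (.l1 .sk) (.lg 0 false 4 83 83 17 0 720)))
  (.nr 807 16385 (.nr 805 1025 (.lg 0 false 1 61 61 16 0 72) (.nx 806 165142 (.lg 2 false 1 53 53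
  16 19254 72) .out)) .out))) .out) .out) (.nx 823 1321124 (.nr 822 2097153 (.nr 811 165 .s1 (.nx
  820 165142 (.nx 813 239 (.nr 812 1817 (.l1 (.ls 37 31 349)) (.l1 .sk)) (.nx 814 240 (.l1 .sk)
  (.nx 816 20644 (.lg 0 false 2 97 101 31 0 55440) (.nr 819 262145 (.nx 817 41287 (.lg 0 false 1 83
  89 29 0 7920) (.nr 818 16385 (.lg 0 true 1 79 83 29 0 7920) .out)) .out)))) (.nr 821 1025 (.lg 0
  true 1 73 73 29 0 3960) .out))) .out) .out)) (.na 837 167 (.nx 836 1321124 (.nr 835 2097153 (.nr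
  825 166 .s1 (.nx 828 240 (.nx 827 239 (.nr 826 1828 (.l1 (.ls 19 29 347)) (.l1 .sk)) (.l1 .sk))
  (.nx 831 26009 (.lg 0 false 3 79 79 23 0 144) (.nr 834 65537 (.nx 832 165142 (.lg 0 false 1 83 83
  19 0 720) (.nr 833 1025 (.lg 0 false 1 67 67 19 0 720) .out)) .out)))) .out) .out) (.na 838 170
  (.lg 0 false 1 0 0 16 0 24) (.nx 850 1321124 (.nr 849 2097153 (.nr 839 170 .s1 (.nx 842 240 (.nx
  841 239 (.nr 840 1894 (.l1 (.ls 16 37 339)) (.l1 .sk)) (.l1 .sk)) (.nx 845 26009 (.lg 0 false 3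
  89 89 37 0 720) (.nr 848 65537 (.nx 846 165142 (.lg 0 false 1 83 83 31 0 720) (.nr 847 1025 (.lg
  0 true 1 67 67 31 0 720) .out)) .out)))) .out) .out)))))) (.na 931 191 (.na 893 181 (.na 864 176
  (.na 852 174 (.lg 0 false 1 0 0 16 0 24) (.nx 863 1321124 (.nr 862 2097153 (.nr 853 174 .s1 (.nx
  860 165142 (.nx 855 239 (.nr 854 1926 (.l1 (.ls 23 37 331)) (.l1 .sk)) (.nx 856 240 (.l1 .sk)
  (.nx 858 26009 (.lg 0 false 2 89 97 37 0 720) (.nr 859 65537 (.lg 0 true 1 83 83 23 0 144)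
  .out)))) (.nr 861 1025 (.lg 0 true 1 67 67 23 0 144) .out))) .out) .out)) (.na 878 179 (.nx 877
  1321124 (.nr 876 2097153 (.nr 865 176 .s1 (.nx 874 165142 (.nx 872 41287 (.nx 867 239 (.nr 866
  1959 (.l1 (.ls 37 31 327)) (.l1 .sk)) (.nx 868 240 (.l1 .sk) (.nr 869 262145 (.lg 0 false 1 89 89
  31 0 7920) (.nx 871 20644 (.lg 0 false 2 89 97 37 0 7920) .out)))) (.nr 873 16385 (.lg 0 true 1
  79 83 31 0 7920) .out)) (.nr 875 1025 (.lg 0 true 1 73 73 31 0 1584) .out))) .out) .out) (.na 879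
  180 (.lg 0 false 1 0 0 16 0 24) (.nx 892 1321124 (.nr 891 2097153 (.nr 880 180 .s1 (.nx 889
  165142 (.nx 882 239 (.nr 881 1981 (.l1 (.ls 31 37 320)) (.l1 .sk)) (.nx 883 240 (.l1 .sk) (.nr
  886 262145 (.nx 884 41287 (.lg 0 false 1 83 89 37 0 720) (.nr 885 16385 (.lg 0 true 1 73 79 37 0
  720) .out)) (.nx 888 20644 (.lg 0 false 2 83 97 41 0 720) .out)))) (.nr 890 1025 (.lg 0 true 1 71
  71 37 0 720) .out))) .out) .out)))) (.na 895 183 (.na 894 182 (.lg 0 false 1 0 0 16 0 24) .ne)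
  (.na 907 186 (.nx 906 1321124 (.nr 905 1482912 (.nr 896 183 .s1 (.nx 901 26009 (.nx 898 239 (.nr
  897 2036 (.l1 (.ls 29 23 315)) (.l1 .sk)) (.nx 899 240 (.l1 .sk) (.lg 0 false 2 89 89 23 0 720)))
  (.nr 904 65537 (.nx 902 165142 (.lg 0 true 1 83 83 19 0 72) (.nr 903 1025 (.lg 0 true 1 67 67 19
  0 72) .out)) .out))) .out) .out) (.na 919 187 (.nx 918 1321124 (.nr 917 1482912 (.nr 908 186 .s1
  (.nx 915 165142 (.nx 910 239 (.nr 909 2047 (.l1 (.ls 29 29 310)) (.l1 .sk)) (.nx 911 240 (.l1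
  .sk) (.nx 913 26009 (.lg 0 false 2 89 89 29 0 144) (.nr 914 65537 (.lg 0 true 1 83 83 29 0 144)
  .out)))) (.nr 916 1025 (.lg 0 true 1 67 67 29 0 144) .out))) .out) .out) (.nx 930 1321124 (.nr
  929 1482912 (.nr 920 187 .s1 (.nx 925 26009 (.nx 922 239 (.nr 921 2091 (.l1 (.ls 16 29 308)) (.l1
  .sk)) (.nx 923 240 (.l1 .sk) (.lg 0 false 2 89 97 29 0 7920))) (.nr 928 65537 (.nx 926 165142
  (.lg 0 false 1 89 89 23 0 7920) (.nr 927 1025 (.lg 0 true 1 67 67 23 0 792) .out)) .out))) .out)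
  .out))))) (.na 983 199 (.na 943 193 (.na 932 192 (.lg 0 false 1 0 0 16 0 24) (.nx 942 1321124
  (.nr 941 1482912 (.nr 933 192 .s1 (.nx 936 240 (.nx 935 239 (.nr 934 2112 (.l1 (.ls 37 31 300))
  (.l1 .sk)) (.l1 .sk)) (.nx 939 165142 (.nr 937 65537 (.lg 0 true 1 83 89 31 0 720) (.nx 938 26009
  (.lg 0 false 1 97 97 31 0 720) .out)) (.nr 940 1025 (.lg 0 true 1 71 71 31 0 144) .out)))) .out)
  .out)) (.na 957 197 (.nx 956 1321124 (.nr 955 1482912 (.nr 944 193 .s1 (.nx 947 240 (.nx 946 239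
  (.nr 945 2156 (.l1 (.ls 19 19 298)) (.l1 .sk)) (.l1 .sk)) (.nx 951 41287 (.lg 0 false 4 79 79 19
  0 720) (.nr 954 16385 (.nr 952 1025 (.lg 0 false 1 61 61 16 0 72) (.nx 953 165142 (.lg 2 false 1
  53 53 16 19254 72) .out)) .out)))) .out) .out) (.na 971 198 (.nx 970 1321124 (.nr 969 1482912
  (.nr 958 197 .s1 (.nx 965 41287 (.nx 960 239 (.nr 959 2167 (.l1 (.ls 19 19 292)) (.l1 .sk)) (.nx
  961 240 (.l1 .sk) (.lg 0 false 4 79 79 19 0 720))) (.nr 968 16385 (.nr 966 1025 (.lg 0 false 1 61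
  61 16 0 72) (.nx 967 165142 (.lg 2 false 1 53 53 16 19254 72) .out)) .out))) .out) .out) (.nx 982
  1321124 (.nr 981 1482912 (.nr 972 198 .s1 (.nx 974 239 (.nr 973 2178 (.l1 (.ls 29 37 291)) (.l1
  .sk)) (.nx 975 240 (.l1 .sk) (.nx 977 26009 (.lg 0 false 2 89 89 37 0 7920) (.nr 980 65537 (.nx
  978 165142 (.lg 0 false 1 83 83 31 0 7920) (.nr 979 1025 (.lg 0 true 1 67 67 31 0 1584) .out))
  .out))))) .out) .out)))) (.na 1007 202 (.na 984 200 (.lg 0 false 1 0 0 16 0 24) (.na 995 201 (.nx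
  994 1321124 (.nr 993 1482912 (.nr 985 200 .s1 (.nx 988 240 (.nx 987 239 (.nr 986 2200 (.l1 (.ls
  37 31 288)) (.l1 .sk)) (.l1 .sk)) (.nx 991 165142 (.nr 989 65537 (.lg 0 true 1 83 89 31 0 720)
  (.nx 990 26009 (.lg 0 false 1 89 89 31 0 720) .out)) (.nr 992 1025 (.lg 0 true 1 71 71 31 0 720)
  .out)))) .out) .out) (.nx 1006 1321124 (.nr 1005 1482912 (.nr 996 201 .s1 (.nx 999 240 (.nx 998
  239 (.nr 997 2211 (.l1 (.ls 23 23 287)) (.l1 .sk)) (.l1 .sk)) (.nx 1003 165142 (.nx 1001 26009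
  (.lg 0 false 2 89 89 23 0 144) (.nr 1002 65537 (.lg 0 true 1 79 79 19 0 72) .out)) (.nr 1004 1025
  (.lg 0 true 1 61 61 19 0 72) .out)))) .out) .out))) (.na 1020 204 (.nx 1019 1321124 (.nr 1018
  1482912 (.nr 1008 202 .s1 (.nx 1011 240 (.nx 1010 239 (.nr 1009 2233 (.l1 (.ls 19 29 285)) (.l1
  .sk)) (.l1 .sk)) (.nx 1014 41287 (.lg 0 false 3 79 79 29 0 720) (.nr 1017 16385 (.nr 1015 1025
  (.lg 0 false 1 61 61 23 0 720) (.nx 1016 165142 (.lg 2 true 1 53 53 23 19254 720) .out)) .out))))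
  .out) .out) (.na 1031 211 (.nx 1030 1321124 (.nr 1029 1482912 (.nr 1021 204 .s1 (.nx 1023 239
  (.nr 1022 2309 (.l1 (.ls 37 37 283)) (.l1 .sk)) (.nx 1024 240 (.l1 .sk) (.nr 1027 65537 (.nx 1025
  165142 (.lg 0 true 1 89 89 37 0 720) (.nr 1026 1025 (.lg 0 true 1 71 71 37 0 144) .out)) (.nx
  1028 26009 (.lg 0 false 1 97 97 37 0 720) .out))))) .out) .out) (.nx 1044 1321124 (.nr 1043
  1482912 (.nr 1032 211 .s1 (.nx 1035 240 (.nx 1034 239 (.nr 1033 2331 (.l1 (.ls 17 19 273)) (.l1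
  .sk)) (.l1 .sk)) (.nx 1039 41287 (.lg 0 false 4 79 79 19 0 720) (.nr 1042 16385 (.nr 1040 1025
  (.lg 0 false 1 59 59 16 0 72) (.nx 1041 165142 (.lg 2 false 1 47 47 16 19254 72) .out)) .out))))
  .out) .out))))))))

def T56_1 : Ph :=
  (.na 546 180 (.na 323 123 (.na 189 91 (.na 97 71 (.na 43 67 (.na 19 64 (.nx 18 2097153 (.nr 17
  881745 (.nr 1 59 .s1 (.nx 4 205 (.nx 3 204 (.nr 2 648 (.l1 (.ls 37 41 696)) (.l1 .sk)) (.l1 .sk))
  (.nx 11 32769 (.nx 5 324 (.l1 (.ls 83 41 1052)) (.nr 10 741457 (.nr 7 155873 (.lg 0 false 2 97 97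
  29 0 12240) (.nx 9 16385 (.lg 0 false 2 97 97 29 0 12240) .out)) .out)) (.nr 16 46342 (.nr 14 648
  (.lg 0 true 3 79 79 31 0 12240) (.nx 15 208065 (.lg 2 true 1 89 89 23 32751 12240) .out))
  .out)))) .out) .out) (.na 20 65 .ne (.nx 42 2097153 (.nr 41 2097153 (.nr 21 64 .s1 (.nx 23 204
  (.nr 22 678 (.l1 (.ls 31 29 643)) (.l1 .sk)) (.nx 24 205 (.l1 .sk) (.nx 35 32769 (.nx 25 324 (.l1
  (.ls 83 31 971)) (.nr 34 1048577 (.nx 32 20644 (.lg 0 false 7 89 101 23 0 556920) (.nr 33 65537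
  (.lg 0 false 1 79 79 17 0 26520) .out)) .out)) (.nr 40 32769 (.nr 38 513 (.lg 0 true 3 73 73 19 0
  79560) (.nx 39 131073 (.lg 2 true 1 83 83 17 26062 79560) .out)) .out))))) .out) .out))) (.na 60
  68 (.nx 59 2097153 (.nr 58 2097153 (.nr 44 66 .s1 (.nx 45 324 (.l1 (.ls 79 29 1569)) (.nr 57
  1048577 (.nx 53 131073 (.nx 50 20644 (.lg 0 false 5 89 89 16 0 2040) (.nr 52 65537 (.lg 0 false 2
  97 97 16 0 12240) .out)) (.nr 56 513 (.lg 0 true 3 71 71 16 0 1224) .out)) .out))) .out) .out)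
  (.na 79 69 (.nx 78 2097153 (.nr 77 2097153 (.nr 61 67 .s1 (.nx 70 32769 (.nx 62 324 (.l1 (.ls 79
  41 1546)) (.nr 69 1048577 (.lg 0 false 7 97 101 29 0 942480) .out)) (.nr 76 32769 (.nr 74 513
  (.lg 0 true 4 67 67 23 0 816) (.nx 75 131073 (.lg 2 true 1 79 79 13 26062 816) .out)) .out)))
  .out) .out) (.nx 96 2097153 (.nr 95 2097153 (.nr 80 68 .s1 (.nx 89 32769 (.nx 81 324 (.l1 (.ls 79
  37 1524)) (.nr 88 1048577 (.lg 0 false 7 89 97 19 0 42840) .out)) (.nr 94 32769 (.nr 92 513 (.lg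
  0 true 3 67 67 17 0 1224) (.nx 93 131073 (.lg 2 true 1 79 79 16 26062 1224) .out)) .out))) .out)
  .out)))) (.na 153 81 (.na 115 75 (.nx 114 2097153 (.nr 113 2097153 (.nr 98 70 .s1 (.nx 99 324
  (.l1 (.ls 79 29 1481)) (.nr 112 1048577 (.nx 106 32769 (.lg 0 false 7 89 97 17 0 42840) (.nr 111
  32769 (.nr 109 513 (.lg 0 true 3 67 67 16 0 1224) (.nx 110 131073 (.lg 2 true 1 79 79 16 26062
  6120) .out)) .out)) .out))) .out) .out) (.na 133 76 (.nx 132 2097153 (.nr 131 2097153 (.nr 116 74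
  .s1 (.nx 117 324 (.l1 (.ls 79 37 1402)) (.nr 130 1048577 (.nx 124 32769 (.lg 0 false 7 83 89 23 0
  42840) (.nr 129 32769 (.nr 127 513 (.lg 0 true 3 67 67 19 0 6120) (.nx 128 131073 (.lg 2 true 1
  73 73 17 26062 6120) .out)) .out)) .out))) .out) .out) (.nx 152 2097153 (.nr 151 2097153 (.nr 134
  75 .s1 (.nx 137 205 (.nx 136 204 (.nr 135 819 (.l1 (.ls 31 31 550)) (.l1 .sk)) (.l1 .sk)) (.nx
  146 32769 (.nx 138 324 (.l1 (.ls 83 37 831)) (.nr 145 1048577 (.nx 143 20644 (.lg 0 false 5 89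
  101 31 0 12240) (.nr 144 65537 (.lg 0 false 1 79 79 17 0 816) .out)) .out)) (.nr 150 32769 (.nr
  148 513 (.lg 0 true 2 73 73 23 0 816) (.nx 149 131073 (.lg 2 true 1 83 83 17 26062 816) .out))
  .out)))) .out) .out))) (.na 154 85 (.lg 0 false 1 0 0 16 0 24) (.na 172 87 (.nx 171 2097153 (.nr
  170 2097153 (.nr 155 84 .s1 (.nx 156 324 (.l1 (.ls 73 31 1238)) (.nr 169 1048577 (.nx 163 32769
  (.lg 0 false 7 83 89 23 0 42840) (.nr 168 32769 (.nr 166 513 (.lg 0 true 3 67 67 16 0 6120) (.nx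
  167 131073 (.lg 2 true 1 73 73 16 26062 6120) .out)) .out)) .out))) .out) .out) (.nx 188 2097153
  (.nr 187 2097153 (.nr 173 86 .s1 (.nx 174 324 (.l1 (.ls 79 37 1209)) (.nr 186 1048577 (.nx 179
  20644 (.lg 0 false 5 83 89 19 0 6120) (.nr 185 65537 (.nx 181 131073 (.lg 0 false 2 89 89 17 0
  12240) (.nr 184 513 (.lg 0 true 3 67 67 17 0 1224) .out)) .out)) .out))) .out) .out))))) (.na 255
  107 (.na 222 99 (.na 190 92 .ne (.na 207 95 (.nx 206 2097153 (.nr 205 2097153 (.nr 191 91 .s1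
  (.nx 195 324 (.nx 193 204 (.nr 192 961 (.l1 (.ls 19 31 455)) (.l1 .sk)) (.nx 194 205 (.l1 .sk)
  (.l1 (.ls 83 37 687)))) (.nr 204 1048577 (.nx 197 20644 (.lg 0 false 2 101 101 19 0 12240) (.nr
  203 65537 (.nx 198 32769 (.lg 0 false 1 79 79 19 0 816) (.nr 202 32769 (.nr 200 513 (.lg 0 true 2
  73 73 19 0 816) (.nx 201 131073 (.lg 2 false 1 79 79 19 26062 816) .out)) .out)) .out)) .out)))
  .out) .out) (.nx 221 2097153 (.nr 220 2097153 (.nr 208 94 .s1 (.nx 211 205 (.nx 210 204 (.nr 209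
  1001 (.l1 (.ls 31 29 441)) (.l1 .sk)) (.l1 .sk)) (.nx 217 131073 (.nx 215 20644 (.nx 212 324 (.l1
  (.ls 83 29 665)) (.nr 214 1048577 (.lg 0 false 2 101 101 17 0 12240) .out)) (.nr 216 65537 (.lg 0
  false 1 97 97 17 0 6120) .out)) (.nr 219 513 (.lg 0 true 2 73 73 17 0 4080) .out)))) .out)
  .out))) (.na 223 100 (.lg 0 false 1 0 0 16 0 24) (.na 238 103 (.nx 237 2097153 (.nr 236 2097153
  (.nr 224 99 .s1 (.nx 227 205 (.nx 226 204 (.nr 225 1042 (.l1 (.ls 31 31 419)) (.l1 .sk)) (.l1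
  .sk)) (.nx 228 324 (.l1 (.ls 79 31 632)) (.nr 235 1048577 (.nx 230 20644 (.lg 0 false 2 97 97 29
  0 12240) (.nr 234 65537 (.nx 231 131073 (.lg 0 false 1 97 97 23 0 12240) (.nr 233 513 (.lg 0 true
  2 71 71 29 0 4080) .out)) .out)) .out)))) .out) .out) (.nx 254 2097153 (.nr 253 2097153 (.nr 239
  103 .s1 (.nx 248 32769 (.nx 240 324 (.l1 (.ls 71 23 1022)) (.nr 247 1048577 (.lg 0 false 7 79 83
  17 0 42840) .out)) (.nr 252 32769 (.nr 250 513 (.lg 0 true 2 61 61 16 0 816) (.nx 251 131073 (.lg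
  2 true 1 67 67 16 26062 408) .out)) .out))) .out) .out)))) (.na 284 115 (.na 269 108 (.nx 268
  2097153 (.nr 267 2097153 (.nr 256 107 .s1 (.nx 264 131073 (.nx 257 324 (.l1 (.ls 71 23 984)) (.nr
  263 1048577 (.nr 259 65537 (.lg 0 false 2 83 83 16 0 12240) (.nx 262 20644 (.lg 0 false 3 83 83
  16 0 6120) .out)) .out)) (.nr 266 513 (.lg 0 true 2 61 61 16 0 816) .out))) .out) .out) (.na 270
  113 (.lg 0 false 1 0 0 16 0 24) (.nx 283 2097153 (.nr 282 2097153 (.nr 271 113 .s1 (.nx 272 324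
  (.l1 (.ls 71 23 931)) (.nr 281 1048577 (.nr 277 65537 (.nx 274 131073 (.lg 0 false 2 83 83 16 0
  12240) (.nr 276 513 (.lg 0 true 2 61 61 16 0 816) .out)) (.nx 280 20644 (.lg 0 false 3 83 83 16 0
  6120) .out)) .out))) .out) .out))) (.na 308 117 (.na 296 116 (.nx 295 2097153 (.nr 294 2097153
  (.nr 285 115 .s1 (.nx 291 131073 (.nx 289 20644 (.nx 286 324 (.l1 (.ls 83 31 915)) (.nr 288
  1048577 (.lg 0 false 2 97 97 19 0 4080) .out)) (.nr 290 65537 (.lg 0 false 1 89 89 17 0 2040)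
  .out)) (.nr 293 513 (.lg 0 true 2 71 71 19 0 4080) .out))) .out) .out) (.nx 307 2097153 (.nr 306
  2097153 (.nr 297 116 .s1 (.nx 303 131073 (.nx 298 324 (.l1 (.ls 83 37 907)) (.nr 302 1048577 (.nx
  300 20644 (.lg 0 false 2 97 101 23 0 12240) (.nr 301 65537 (.lg 0 false 1 97 97 19 0 12240)
  .out)) .out)) (.nr 305 513 (.lg 0 true 2 71 71 23 0 816) .out))) .out) .out)) (.na 309 121 (.lg 0
  false 1 0 0 16 0 24) (.nx 322 2097153 (.nr 321 2097153 (.nr 310 121 .s1 (.nx 318 131073 (.nx 311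
  324 (.l1 (.ls 73 29 870)) (.nr 317 1048577 (.nr 313 65537 (.lg 0 true 2 79 79 17 0 8976) (.nx 316
  20644 (.lg 0 false 3 83 83 19 0 67320) .out)) .out)) (.nr 320 513 (.lg 0 true 2 61 61 17 0 8976)
  .out))) .out) .out)))))) (.na 429 151 (.na 389 132 (.na 361 128 (.na 335 125 (.nx 334 2097153
  (.nr 333 2097153 (.nr 324 123 .s1 (.nx 331 131073 (.nx 325 324 (.l1 (.ls 79 29 856)) (.nr 330
  1048577 (.nx 328 20644 (.lg 0 false 3 89 89 19 0 1224) (.nr 329 65537 (.lg 0 false 1 89 89 17 0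
  1224) .out)) .out)) (.nr 332 513 (.lg 0 false 1 73 73 17 0 1224) .out))) .out) .out) (.na 348 127
  (.nx 347 2097153 (.nr 346 2097153 (.nr 336 125 .s1 (.nx 341 20644 (.nx 337 324 (.l1 (.ls 73 29
  842)) (.nr 340 1048577 (.lg 0 false 3 83 83 17 0 6120) .out)) (.nr 345 65537 (.nx 342 131073 (.lg
  0 false 1 79 79 16 0 2040) (.nr 344 513 (.lg 0 true 2 61 61 17 0 4080) .out)) .out))) .out) .out)
  (.nx 360 2097153 (.nr 359 2097153 (.nr 349 127 .s1 (.nx 354 32769 (.nx 350 324 (.l1 (.ls 71 23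
  829)) (.nr 353 1048577 (.lg 0 false 3 83 83 17 0 6120) .out)) (.nr 358 32769 (.nr 356 513 (.lg 0
  true 2 59 59 16 0 816) (.nx 357 131073 (.lg 2 true 1 67 67 16 26062 408) .out)) .out))) .out)
  .out))) (.na 362 129 .ne (.na 376 131 (.nx 375 1048577 (.nr 374 1482912 (.nr 363 129 .s1 (.nx 365
  204 (.nr 364 1325 (.l1 (.ls 23 23 325)) (.l1 .sk)) (.nx 366 205 (.l1 .sk) (.nx 372 131073 (.nr
  368 65537 (.lg 0 true 2 83 83 19 0 2448) (.nx 371 16385 (.lg 0 false 3 83 83 19 0 1224) .out))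
  (.nr 373 1025 (.lg 0 false 1 71 71 17 0 1224) .out))))) .out) .out) (.nx 388 1048577 (.nr 387
  1482912 (.nr 377 131 .s1 (.nx 379 204 (.nr 378 1335 (.l1 (.ls 19 19 320)) (.l1 .sk)) (.nx 380 205
  (.l1 .sk) (.nr 383 65537 (.nx 381 131073 (.lg 0 false 1 79 79 16 0 408) (.nr 382 1025 (.lg 0
  false 1 61 61 16 0 408) .out)) (.nx 386 16385 (.lg 0 false 3 79 79 17 0 1224) .out))))) .out)
  .out)))) (.na 403 139 (.na 401 135 (.nx 400 1048577 (.nr 399 1482912 (.nr 390 132 .s1 (.nx 393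
  205 (.nx 392 204 (.nr 391 1366 (.l1 (.ls 37 37 318)) (.l1 .sk)) (.l1 .sk)) (.nr 396 65537 (.nx
  394 131073 (.lg 0 false 1 97 97 31 0 134640) (.nr 395 1025 (.lg 0 true 1 71 71 31 0 26928) .out))
  (.nx 398 16385 (.lg 0 false 2 97 97 31 0 134640) .out)))) .out) .out) (.na 402 137 (.lg 0 false 1
  0 0 16 0 24) (.lg 0 false 1 0 0 16 0 24))) (.na 416 145 (.na 404 143 (.lg 0 false 1 0 0 16 0 24)
  (.nx 415 1048577 (.nr 414 1482912 (.nr 405 143 .s1 (.nx 412 131073 (.nx 407 204 (.nr 406 1467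
  (.l1 (.ls 31 23 294)) (.l1 .sk)) (.nx 408 205 (.l1 .sk) (.nr 409 65537 (.lg 0 false 1 97 97 19 0
  875160) (.nx 411 16385 (.lg 0 false 2 101 101 23 0 1750320) .out)))) (.nr 413 1025 (.lg 0 true 1
  71 71 19 0 58344) .out))) .out) .out)) (.na 428 149 (.nx 427 1048577 (.nr 426 1482912 (.nr 417
  145 .s1 (.nx 420 205 (.nx 419 204 (.nr 418 1507 (.l1 (.ls 23 19 290)) (.l1 .sk)) (.l1 .sk)) (.nx
  424 131073 (.nr 421 65537 (.lg 0 false 1 89 89 17 0 2040) (.nx 423 16385 (.lg 0 false 2 97 97 19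
  0 4080) .out)) (.nr 425 1025 (.lg 0 true 1 71 71 17 0 2040) .out)))) .out) .out) (.lg 0 false 1 0
  0 16 0 24))))) (.na 481 165 (.na 455 157 (.na 442 153 (.nx 441 1048577 (.nr 440 1482912 (.nr 430
  151 .s1 (.nx 436 16385 (.nx 432 204 (.nr 431 1548 (.l1 (.ls 23 17 278)) (.l1 .sk)) (.nx 433 205
  (.l1 .sk) (.lg 0 false 3 79 79 17 0 1224))) (.nr 439 65537 (.nx 437 131073 (.lg 0 false 1 79 79
  16 0 408) (.nr 438 1025 (.lg 0 false 1 67 67 16 0 6120) .out)) .out))) .out) .out) (.na 443 156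
  (.lg 0 false 1 0 0 16 0 24) (.nx 454 1048577 (.nr 453 1482912 (.nr 444 156 .s1 (.nx 447 205 (.nx
  446 204 (.nr 445 1588 (.l1 (.ls 37 37 269)) (.l1 .sk)) (.l1 .sk)) (.nr 450 65537 (.nx 448 131073
  (.lg 0 false 1 89 89 31 0 31824) (.nr 449 1025 (.lg 0 true 1 71 71 31 0 31824) .out)) (.nx 452
  16385 (.lg 0 false 2 89 89 37 0 31824) .out)))) .out) .out))) (.na 468 163 (.nx 467 1048577 (.nr
  466 1482912 (.nr 456 157 .s1 (.nx 464 131073 (.nx 462 16385 (.nx 458 204 (.nr 457 1649 (.l1 (.ls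
  19 17 268)) (.l1 .sk)) (.nx 459 205 (.l1 .sk) (.lg 0 false 3 79 79 17 0 1224))) (.nr 463 65537
  (.lg 0 false 1 79 79 16 0 6120) .out)) (.nr 465 1025 (.lg 0 false 1 61 61 16 0 408) .out))) .out)
  .out) (.na 469 164 (.lg 0 false 1 0 0 16 0 24) (.nx 480 1048577 (.nr 479 1482912 (.nr 470 164 .s1
  (.nx 473 205 (.nx 472 204 (.nr 471 1669 (.l1 (.ls 31 29 256)) (.l1 .sk)) (.l1 .sk)) (.nx 477
  131073 (.nr 474 65537 (.lg 0 false 1 89 89 23 0 816) (.nx 476 16385 (.lg 0 false 2 89 89 29 0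
  816) .out)) (.nr 478 1025 (.lg 0 true 1 71 71 23 0 816) .out)))) .out) .out)))) (.na 519 171 (.na
  493 167 (.nx 492 1048577 (.nr 491 1482912 (.nr 482 165 .s1 (.nx 484 204 (.nr 483 1689 (.l1 (.ls
  31 29 255)) (.l1 .sk)) (.nx 485 205 (.l1 .sk) (.nx 489 131073 (.nr 486 65537 (.lg 0 false 1 89 89
  29 0 67320) (.nx 488 16385 (.lg 0 false 2 97 97 29 0 134640) .out)) (.nr 490 1025 (.lg 0 true 1
  71 71 29 0 67320) .out))))) .out) .out) (.na 506 169 (.nx 505 1048577 (.nr 504 1482912 (.nr 494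
  167 .s1 (.nx 500 32769 (.nx 496 204 (.nr 495 1709 (.l1 (.ls 19 17 252)) (.l1 .sk)) (.nx 497 205
  (.l1 .sk) (.lg 0 false 3 83 83 17 0 1224))) (.nr 503 16385 (.nr 501 1025 (.lg 0 false 1 61 61 16
  0 408) (.nx 502 131073 (.lg 2 false 1 53 53 16 13044 408) .out)) .out))) .out) .out) (.nx 518
  1048577 (.nr 517 1482912 (.nr 507 169 .s1 (.nx 513 32769 (.nx 509 204 (.nr 508 1730 (.l1 (.ls 23
  19 249)) (.l1 .sk)) (.nx 510 205 (.l1 .sk) (.lg 0 false 3 83 83 19 0 15912))) (.nr 516 16385 (.nr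
  514 1025 (.lg 0 false 1 67 67 17 0 5304) (.nx 515 131073 (.lg 2 false 1 53 53 17 13044 5304)
  .out)) .out))) .out) .out))) (.na 532 173 (.na 520 172 (.lg 0 false 1 0 0 16 0 24) (.nx 531
  1048577 (.nr 530 1482912 (.nr 521 172 .s1 (.nx 524 205 (.nx 523 204 (.nr 522 1750 (.l1 (.ls 31 29
  244)) (.l1 .sk)) (.l1 .sk)) (.nx 526 16385 (.lg 0 false 2 97 97 29 0 12240) (.nr 529 65537 (.nx
  527 131073 (.lg 0 true 1 89 89 23 0 816) (.nr 528 1025 (.lg 0 true 1 71 71 23 0 816) .out))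
  .out)))) .out) .out)) (.na 545 179 (.nx 544 1048577 (.nr 543 1482912 (.nr 533 173 .s1 (.nx 539
  16385 (.nx 535 204 (.nr 534 1810 (.l1 (.ls 19 17 243)) (.l1 .sk)) (.nx 536 205 (.l1 .sk) (.lg 0
  false 3 79 79 17 0 6120))) (.nr 542 65537 (.nx 540 131073 (.lg 0 false 1 73 73 16 0 408) (.nr 541
  1025 (.lg 0 false 1 61 61 16 0 6120) .out)) .out))) .out) .out) (.lg 0 false 1 0 0 16 0 24)))))))
  (.na 734 241 (.na 625 209 (.na 564 195 (.na 549 187 (.na 547 181 (.lg 0 false 1 0 0 16 0 24) (.na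
  548 182 (.lg 0 false 1 0 0 16 0 24) .ne)) (.na 562 191 (.nx 561 1048577 (.nr 560 1048577 (.nr 550
  187 .s1 (.nx 552 204 (.nr 551 1932 (.l1 (.ls 23 23 225)) (.l1 .sk)) (.nx 553 205 (.l1 .sk) (.nx
  556 32769 (.lg 0 false 3 83 83 23 0 67320) (.nr 559 16385 (.nr 557 1025 (.lg 0 false 1 61 61 16 0
  4488) (.nx 558 131073 (.lg 2 true 1 53 53 16 13044 4488) .out)) .out))))) .out) .out) (.na 563
  193 (.lg 0 false 1 0 0 16 0 24) (.lg 0 false 1 0 0 16 0 24)))) (.na 588 201 (.na 575 197 (.nx 574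
  1048577 (.nr 573 1048577 (.nr 565 195 .s1 (.nx 571 131073 (.nx 567 204 (.nr 566 1992 (.l1 (.ls 31
  29 216)) (.l1 .sk)) (.nx 568 205 (.l1 .sk) (.nr 569 65537 (.lg 0 false 1 83 83 29 0 79560) (.nx
  570 16385 (.lg 0 true 1 89 89 29 0 79560) .out)))) (.nr 572 1025 (.lg 0 true 1 67 67 29 0 79560)
  .out))) .out) .out) (.na 587 199 (.nx 586 1048577 (.nr 585 1048577 (.nr 576 197 .s1 (.nx 581
  32769 (.nx 578 204 (.nr 577 2013 (.l1 (.ls 19 17 214)) (.l1 .sk)) (.nx 579 205 (.l1 .sk) (.lg 0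
  false 2 79 79 17 0 816))) (.nr 584 16385 (.nr 582 1025 (.lg 0 false 1 61 61 16 0 6120) (.nx 583
  131073 (.lg 2 false 1 47 47 16 13044 408) .out)) .out))) .out) .out) (.lg 0 false 1 0 0 16 0
  24))) (.na 613 205 (.na 601 204 (.nx 600 1048577 (.nr 599 1048577 (.nr 589 201 .s1 (.nx 591 204
  (.nr 590 2063 (.l1 (.ls 19 23 210)) (.l1 .sk)) (.nx 592 205 (.l1 .sk) (.nx 595 32769 (.lg 0 false
  3 83 83 23 0 1224) (.nr 598 16385 (.nr 596 1025 (.lg 0 false 1 67 67 19 0 6120) (.nx 597 131073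
  (.lg 2 true 1 53 53 19 13044 6120) .out)) .out))))) .out) .out) (.nx 612 1048577 (.nr 611 1048577
  (.nr 602 204 .s1 (.nx 607 32769 (.nx 604 204 (.nr 603 2073 (.l1 (.ls 23 37 206)) (.l1 .sk)) (.nx
  605 205 (.l1 .sk) (.lg 0 false 2 79 79 31 0 2448))) (.nr 610 16385 (.nr 608 1025 (.lg 0 false 1
  67 67 31 0 12240) (.nx 609 131073 (.lg 2 true 1 53 53 31 13044 2448) .out)) .out))) .out) .out))
  (.na 624 207 (.nx 623 1048577 (.nr 622 1048577 (.nr 614 205 .s1 (.nx 617 205 (.nx 616 204 (.nr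
  615 2094 (.l1 (.ls 29 19 206)) (.l1 .sk)) (.l1 .sk)) (.nx 620 131073 (.nr 618 65537 (.lg 0 false
  1 83 83 19 0 2040) (.nx 619 16385 (.lg 0 false 1 83 83 19 0 2040) .out)) (.nr 621 1025 (.lg 0
  true 1 67 67 19 0 2040) .out)))) .out) .out) (.lg 0 false 1 0 0 16 0 24))))) (.na 681 223 (.na
  650 215 (.na 636 211 (.nx 635 1048577 (.nr 634 1048577 (.nr 626 209 .s1 (.nx 629 205 (.nx 628 204
  (.nr 627 2134 (.l1 (.ls 16 17 202)) (.l1 .sk)) (.l1 .sk)) (.nr 632 65537 (.nx 630 131073 (.lg 0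
  false 1 83 83 17 0 4488) (.nr 631 1025 (.lg 0 true 1 67 67 17 0 4488) .out)) (.nx 633 16385 (.lg
  0 false 1 83 83 17 0 4488) .out)))) .out) .out) (.na 637 213 (.lg 0 false 1 0 0 16 0 24) (.nx 649
  1048577 (.nr 648 1048577 (.nr 638 213 .s1 (.nx 641 205 (.nx 640 204 (.nr 639 2175 (.l1 (.ls 23 19
  198)) (.l1 .sk)) (.l1 .sk)) (.nx 644 32769 (.lg 0 false 3 83 83 23 0 6120) (.nr 647 16385 (.nr
  645 1025 (.lg 0 false 1 61 61 19 0 6120) (.nx 646 131073 (.lg 2 true 1 53 53 19 13044 1224)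
  .out)) .out)))) .out) .out))) (.na 661 220 (.nx 660 1048577 (.nr 659 1048577 (.nr 651 215 .s1
  (.nx 657 131073 (.nx 653 204 (.nr 652 2225 (.l1 (.ls 29 19 196)) (.l1 .sk)) (.nx 654 205 (.l1
  .sk) (.nr 655 65537 (.lg 0 false 1 83 83 19 0 2040) (.nx 656 16385 (.lg 0 false 1 83 83 19 0
  2040) .out)))) (.nr 658 1025 (.lg 0 true 1 67 67 19 0 2040) .out))) .out) .out) (.na 672 221 (.nx
  671 1048577 (.nr 670 1048577 (.nr 662 220 .s1 (.nx 665 205 (.nx 664 204 (.nr 663 2235 (.l1 (.ls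
  41 31 192)) (.l1 .sk)) (.l1 .sk)) (.nx 668 131073 (.nr 666 65537 (.lg 0 true 1 89 97 37 0 134640)
  (.nx 667 16385 (.lg 0 false 1 97 97 37 0 44880) .out)) (.nr 669 1025 (.lg 0 true 1 73 73 37 0
  44880) .out)))) .out) .out) (.nx 680 1048577 (.nr 679 1048577 (.nr 673 221 .s1 (.nx 677 32769
  (.nx 675 204 (.nr 674 2255 (.l1 (.ls 23 23 191)) (.l1 .sk)) (.nx 676 205 (.l1 .sk) (.lg 0 true 1
  89 89 19 0 79560))) (.nr 678 16385 (.lg 0 false 1 79 79 19 0 5304) .out))) .out) .out)))) (.na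
  702 228 (.na 690 225 (.nx 689 1048577 (.nr 688 1048577 (.nr 682 223 .s1 (.nx 685 205 (.nx 684 204
  (.nr 683 2276 (.l1 (.ls 19 17 189)) (.l1 .sk)) (.l1 .sk)) (.nx 686 32769 (.lg 0 true 1 83 83 16 0
  6120) (.nr 687 16385 (.lg 0 false 1 79 79 16 0 6120) .out)))) .out) .out) (.na 691 227 (.lg 0
  false 1 0 0 16 0 24) (.nx 701 1048577 (.nr 700 1048577 (.nr 692 227 .s1 (.nx 696 32769 (.nx 694
  204 (.nr 693 2306 (.l1 (.ls 19 17 186)) (.l1 .sk)) (.nx 695 205 (.l1 .sk) (.lg 0 true 1 83 83 17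
  0 408))) (.nr 699 16385 (.nr 697 1025 (.lg 0 false 1 59 59 17 0 408) (.nx 698 131073 (.lg 2 false
  1 47 47 17 13044 408) .out)) .out))) .out) .out))) (.na 723 233 (.na 713 229 (.nx 712 1048577
  (.nr 711 1048577 (.nr 703 228 .s1 (.nx 706 205 (.nx 705 204 (.nr 704 2316 (.l1 (.ls 16 37 185))
  (.l1 .sk)) (.l1 .sk)) (.nr 709 65537 (.nx 707 131073 (.lg 0 false 1 89 89 37 0 12240) (.nr 708
  1025 (.lg 0 true 1 71 71 37 0 2448) .out)) (.nx 710 16385 (.lg 0 true 1 97 97 37 0 12240)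
  .out)))) .out) .out) (.nx 722 1048577 (.nr 721 1048577 (.nr 714 229 .s1 (.nx 716 204 (.nr 715
  2357 (.l1 (.ls 19 17 184)) (.l1 .sk)) (.nx 717 205 (.l1 .sk) (.nx 719 32769 (.lg 0 false 2 79 79
  17 0 816) (.nr 720 16385 (.lg 0 false 1 79 79 17 0 408) .out))))) .out) .out)) (.na 733 239 (.nx
  732 1048577 (.nr 731 1048577 (.nr 724 233 .s1 (.nx 726 204 (.nr 725 2417 (.l1 (.ls 19 17 181))
  (.l1 .sk)) (.nx 727 205 (.l1 .sk) (.nx 729 32769 (.lg 0 false 2 79 79 17 0 816) (.nr 730 16385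
  (.lg 0 false 1 73 73 17 0 408) .out))))) .out) .out) (.lg 0 false 1 0 0 16 0 24)))))) (.na 4505
  2048 (.na 768 256 (.na 747 251 (.na 735 243 (.lg 0 false 1 0 0 16 0 24) (.na 736 247 (.lg 0 false
  1 0 0 16 0 24) (.nx 746 1048577 (.nr 745 1048577 (.nr 737 247 .s1 (.nx 743 131073 (.nx 739 204
  (.nr 738 2539 (.l1 (.ls 16 17 171)) (.l1 .sk)) (.nx 740 205 (.l1 .sk) (.nr 741 65537 (.lg 0 false
  1 83 83 17 0 79560) (.nx 742 16385 (.lg 0 false 1 83 83 17 0 5304) .out)))) (.nr 744 1025 (.lg 0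
  true 1 61 61 17 0 5304) .out))) .out) .out))) (.na 748 253 (.lg 0 false 1 0 0 16 0 24) (.na 759
  255 (.nx 758 1048577 (.nr 757 1048577 (.nr 749 253 .s1 (.nx 755 131073 (.nx 751 204 (.nr 750 2579
  (.l1 (.ls 19 19 167)) (.l1 .sk)) (.nx 752 205 (.l1 .sk) (.nr 753 65537 (.lg 0 true 1 83 83 19 0
  4488) (.nx 754 16385 (.lg 0 false 1 83 83 19 0 4488) .out)))) (.nr 756 1025 (.lg 0 true 1 67 67
  19 0 4488) .out))) .out) .out) (.nx 767 1048577 (.nr 766 1048577 (.nr 760 255 .s1 (.nx 763 205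
  (.nx 762 204 (.nr 761 2589 (.l1 (.ls 23 29 166)) (.l1 .sk)) (.l1 .sk)) (.nx 764 32769 (.lg 0 true
  1 83 83 29 0 6120) (.nr 765 16385 (.lg 0 false 1 79 79 29 0 6120) .out)))) .out) .out)))) (.na
  1759 512 (.na 769 257 .ne (.na 1253 363 (.nx 1252 1048577 (.nr 1251 1482912 (.nr 770 257 .s1 (.nx
  1144 131073 (.nx 878 205 (.nx 877 204 (.nr 876 3671 (.la (.ls 47 19 164)) (.l1 .sk)) (.l1 .sk))
  (.nx 930 257 (.lx (.lp 89 17 91)) (.nr 1143 1048577 (.nx 1036 20644 (.la (.lg 0 false 1 79 79 23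
  0)) (.nr 1142 32769 (.la (.lg 0 true 1 71 71 23 0)) .out)) .out))) (.nr 1250 2049 (.la (.lg 0
  true 1 61 61 23 0)) .out))) .out) .out) (.nx 1758 1048577 (.nr 1757 1482912 (.nr 1254 363 .s1
  (.nx 1405 205 (.nx 1404 204 (.nr 1403 5178 (.la (.ls 43 19 129)) (.l1 .sk)) (.l1 .sk)) (.nx 1457
  257 (.lx (.lp 83 19 129)) (.nr 1756 1048577 (.nr 1606 32769 (.la (.lg 0 true 1 73 73 23 0)) (.nx
  1755 20644 (.la (.lg 0 false 1 73 73 23 0)) .out)) .out)))) .out) .out))) (.na 3049 1024 (.na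
  2447 725 (.nx 2446 1048577 (.nr 2445 1482912 (.nr 1760 512 .s1 (.nx 1964 204 (.nr 1963 7332 (.lx
  (.lp 47 19 182)) (.l1 .sk)) (.nx 1965 205 (.l1 .sk) (.nx 2017 257 (.lx (.lp 83 19 182)) (.nr 2444
  1048577 (.nr 2230 32769 (.la (.lg 0 true 1 73 73 29 0)) (.nx 2443 20644 (.la (.lg 0 false 1 71 71
  29 0)) .out)) .out))))) .out) .out) (.nx 3048 13005 (.nr 3047 1048577 (.nr 2448 725 .s1 (.nx 2747
  2049 (.la (.ls 67 37 5793)) (.nr 3046 65537 (.la (.lg 0 false 1 47 47 29 0)) .out))) .out) .out))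
  (.na 3903 1449 (.nx 3902 13005 (.nr 3901 1048577 (.nr 3050 1024 .s1 (.nx 3475 3252 (.la (.ls 61
  41 10330)) (.nr 3900 32769 (.la (.lg 0 false 1 41 41 31 0)) .out))) .out) .out) (.nx 4504 8193
  (.nr 4503 1048577 (.nr 3904 1449 .s1 (.la (.ls 61 47 46328))) .out) .out))))) (.na 12553 16384
  (.na 8669 5793 (.na 5357 2897 (.nx 5356 8193 (.nr 5355 1048577 (.nr 4506 2048 .s1 (.la (.ls 59 47
  32779))) .out) .out) (.na 6764 4096 (.nx 6763 3252 (.nr 6762 524289 (.nr 5358 2897 .s1 (.nx 5562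
  204 (.nr 5561 41419 (.lx (.lp 47 31 1025)) (.l1 .sk)) (.nx 5563 205 (.l1 .sk) (.la (.ls 71 37
  3638))))) .out) .out) (.nx 8668 3252 (.nr 8667 524289 (.nr 6765 4096 .s1 (.nx 6970 205 (.nx 6969
  204 (.nr 6968 58579 (.lx (.lp 47 31 1449)) (.l1 .sk)) (.l1 .sk)) (.la (.ls 67 37 2574)))) .out)
  .out))) (.na 9964 8192 (.nx 9963 1292 (.nr 9962 262145 (.nr 8670 5793 .s1 (.nx 9483 814 (.lx (.lp
  59 37 2049)) (.nr 9961 65537 (.lx (.lp 43 37 2049)) .out))) .out) .out) (.na 11259 11586 (.nx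
  11258 1292 (.nr 11257 262145 (.nr 9965 8192 .s1 (.nx 10778 814 (.lx (.lp 53 41 2897)) (.nr 11256
  131073 (.lx (.lp 47 37 2897)) .out))) .out) .out) (.nx 12552 1292 (.nr 12551 131073 (.nr 11260
  11586 .s1 (.lx (.lp 47 41 4097))) .out) .out)))) (.na 16437 131072 (.na 13848 32768 (.nx 13847
  1292 (.nr 13846 262145 (.nr 12554 16384 .s1 (.nx 12810 257 (.lx (.lp 47 43 8193)) (.nr 13845
  131073 (.lx (.lp 43 43 8193)) .out))) .out) .out) (.na 15142 65536 (.nx 15141 1292 (.nr 15140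
  262145 (.nr 13849 32768 .s1 (.lx (.lp 43 47 16385))) .out) .out) (.nx 16436 1292 (.nr 16435
  524289 (.nr 15143 65536 .s1 (.nx 15399 257 (.lx (.lp 16 0 32769)) (.nr 16434 262145 (.lx (.lp 41
  53 32769)) .out))) .out) .out))) (.na 17467 524288 (.na 16952 262144 (.nx 16951 513 (.nr 16950
  524289 (.nr 16438 131072 .s1 (.lx (.lp 43 59 65537))) .out) .out) (.nx 17466 513 (.nr 17465
  1048577 (.nr 16953 262144 .s1 (.lx (.lp 16 0 131073))) .out) .out)) (.na 17469 1048577 (.nx 17468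
  257 (.l1 .sk) .out) .out)))))))

theorem c56 :
    OkQ ckI L10 239 60 213 0 34359738368 1 1099511627776 ∧
    OkQ ckI L9 204 60 1099511627776 0 34359738368 1 1099511627776 := by
  refine ⟨?_, ?_⟩
  · refine fin 72 1045 T56_0 ?_
    refine jn 4 (by decide +kernel) ?_
    refine jn 5 (by decide +kernel) ?_
    refine jn 6 (by decide +kernel) ?_
    refine jn 7 (by decide +kernel) ?_
    refine jn 10 (by decide +kernel) ?_
    refine jn 11 (by decide +kernel) ?_
    refine jn 12 (by decide +kernel) ?_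
    refine jn 14 (by decide +kernel) ?_
    refine jn 15 (by decide +kernel) ?_
    refine jn 29 (by decide +kernel) ?_
    refine jn 37 (by decide +kernel) ?_
    refine jn 52 (by decide +kernel) ?_
    refine jn 60 (by decide +kernel) ?_
    refine jn 69 (by decide +kernel) ?_
    refine jn 72 (by decide +kernel) ?_
    refine jn 76 (by decide +kernel) ?_
    refine jn 79 (by decide +kernel) ?_
    refine jn 82 (by decide +kernel) ?_
    refine jn 95 (by decide +kernel) ?_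
    refine jn 98 (by decide +kernel) ?_
    refine jn 100 (by decide +kernel) ?_
    refine jn 103 (by decide +kernel) ?_
    refine jn 114 (by decide +kernel) ?_
    refine jn 123 (by decide +kernel) ?_
    refine jn 135 (by decide +kernel) ?_
    refine jn 139 (by decide +kernel) ?_
    refine jn 142 (by decide +kernel) ?_
    refine jn 146 (by decide +kernel) ?_
    refine jn 157 (by decide +kernel) ?_
    refine jn 163 (by decide +kernel) ?_
    refine jn 172 (by decide +kernel) ?_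
    refine jn 173 (by decide +kernel) ?_
    refine jn 174 (by decide +kernel) ?_
    refine jn 175 (by decide +kernel) ?_
    refine jn 176 (by decide +kernel) ?_
    refine jn 178 (by decide +kernel) ?_
    refine jn 179 (by decide +kernel) ?_
    refine jn 180 (by decide +kernel) ?_
    refine jn 181 (by decide +kernel) ?_
    refine jn 190 (by decide +kernel) ?_
    refine jn 194 (by decide +kernel) ?_
    refine jn 199 (by decide +kernel) ?_
    refine jn 205 (by decide +kernel) ?_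
    refine jn 209 (by decide +kernel) ?_
    refine jn 210 (by decide +kernel) ?_
    refine jn 211 (by decide +kernel) ?_
    refine jn 212 (by decide +kernel) ?_
    refine jn 215 (by decide +kernel) ?_
    refine jn 216 (by decide +kernel) ?_
    refine jn 217 (by decide +kernel) ?_
    refine jn 218 (by decide +kernel) ?_
    refine jn 233 (by decide +kernel) ?_
    refine jn 245 (by decide +kernel) ?_
    refine jn 257 (by decide +kernel) ?_
    refine jn 265 (by decide +kernel) ?_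
    refine jn 269 (by decide +kernel) ?_
    refine jn 278 (by decide +kernel) ?_
    refine jn 283 (by decide +kernel) ?_
    refine jn 286 (by decide +kernel) ?_
    refine jn 296 (by decide +kernel) ?_
    refine jn 297 (by decide +kernel) ?_
    refine jn 298 (by decide +kernel) ?_
    refine jn 299 (by decide +kernel) ?_
    refine jn 300 (by decide +kernel) ?_
    refine jn 301 (by decide +kernel) ?_
    refine jn 302 (by decide +kernel) ?_
    refine jn 303 (by decide +kernel) ?_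
    refine jn 316 (by decide +kernel) ?_
    refine jn 319 (by decide +kernel) ?_
    refine jn 332 (by decide +kernel) ?_
    refine jn 337 (by decide +kernel) ?_
    refine jn 340 (by decide +kernel) ?_
    refine jn 350 (by decide +kernel) ?_
    refine jn 351 (by decide +kernel) ?_
    refine jn 352 (by decide +kernel) ?_
    refine jn 355 (by decide +kernel) ?_
    refine jn 356 (by decide +kernel) ?_
    refine jn 357 (by decide +kernel) ?_
    refine jn 358 (by decide +kernel) ?_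
    refine jn 372 (by decide +kernel) ?_
    refine jn 376 (by decide +kernel) ?_
    refine jn 388 (by decide +kernel) ?_
    refine jn 392 (by decide +kernel) ?_
    refine jn 407 (by decide +kernel) ?_
    refine jn 421 (by decide +kernel) ?_
    refine jn 425 (by decide +kernel) ?_
    refine jn 434 (by decide +kernel) ?_
    refine jn 438 (by decide +kernel) ?_
    refine jn 452 (by decide +kernel) ?_
    refine jn 464 (by decide +kernel) ?_
    refine jn 468 (by decide +kernel) ?_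
    refine jn 484 (by decide +kernel) ?_
    refine jn 493 (by decide +kernel) ?_
    refine jn 497 (by decide +kernel) ?_
    refine jn 502 (by decide +kernel) ?_
    refine jn 503 (by decide +kernel) ?_
    refine jn 506 (by decide +kernel) ?_
    refine jn 507 (by decide +kernel) ?_
    refine jn 508 (by decide +kernel) ?_
    refine jn 509 (by decide +kernel) ?_
    refine jn 510 (by decide +kernel) ?_
    refine jn 511 (by decide +kernel) ?_
    refine jn 512 (by decide +kernel) ?_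
    refine jn 513 (by decide +kernel) ?_
    refine jn 515 (by decide +kernel) ?_
    refine jn 529 (by decide +kernel) ?_
    refine jn 541 (by decide +kernel) ?_
    refine jn 551 (by decide +kernel) ?_
    refine jn 555 (by decide +kernel) ?_
    refine jn 569 (by decide +kernel) ?_
    refine jn 583 (by decide +kernel) ?_
    refine jn 594 (by decide +kernel) ?_
    refine jn 597 (by decide +kernel) ?_
    refine jn 607 (by decide +kernel) ?_
    refine jn 608 (by decide +kernel) ?_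
    refine jn 610 (by decide +kernel) ?_
    refine jn 614 (by decide +kernel) ?_
    refine jn 628 (by decide +kernel) ?_
    refine jn 641 (by decide +kernel) ?_
    refine jn 645 (by decide +kernel) ?_
    refine jn 653 (by decide +kernel) ?_
    refine jn 655 (by decide +kernel) ?_
    refine jn 656 (by decide +kernel) ?_
    refine jn 658 (by decide +kernel) ?_
    refine jn 677 (by decide +kernel) ?_
    refine jn 687 (by decide +kernel) ?_
    refine jn 688 (by decide +kernel) ?_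
    refine jn 690 (by decide +kernel) ?_
    refine jn 693 (by decide +kernel) ?_
    refine jn 705 (by decide +kernel) ?_
    refine jn 713 (by decide +kernel) ?_
    refine jn 719 (by decide +kernel) ?_
    refine jn 729 (by decide +kernel) ?_
    refine jn 735 (by decide +kernel) ?_
    refine jn 742 (by decide +kernel) ?_
    refine jn 749 (by decide +kernel) ?_
    refine jn 763 (by decide +kernel) ?_
    refine jn 773 (by decide +kernel) ?_
    refine jn 775 (by decide +kernel) ?_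
    refine jn 778 (by decide +kernel) ?_
    refine jn 790 (by decide +kernel) ?_
    refine jn 804 (by decide +kernel) ?_
    refine jn 814 (by decide +kernel) ?_
    refine jn 816 (by decide +kernel) ?_
    refine jn 818 (by decide +kernel) ?_
    refine jn 831 (by decide +kernel) ?_
    refine jn 845 (by decide +kernel) ?_
    refine jn 854 (by decide +kernel) ?_
    refine jn 859 (by decide +kernel) ?_
    refine jn 868 (by decide +kernel) ?_
    refine jn 869 (by decide +kernel) ?_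
    refine jn 871 (by decide +kernel) ?_
    refine jn 875 (by decide +kernel) ?_
    refine jn 884 (by decide +kernel) ?_
    refine jn 888 (by decide +kernel) ?_
    refine jn 901 (by decide +kernel) ?_
    refine jn 913 (by decide +kernel) ?_
    refine jn 921 (by decide +kernel) ?_
    refine jn 927 (by decide +kernel) ?_
    refine jn 937 (by decide +kernel) ?_
    refine jn 940 (by decide +kernel) ?_
    refine jn 953 (by decide +kernel) ?_
    refine jn 967 (by decide +kernel) ?_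
    refine jn 978 (by decide +kernel) ?_
    refine jn 988 (by decide +kernel) ?_
    refine jn 990 (by decide +kernel) ?_
    refine jn 1001 (by decide +kernel) ?_
    refine jn 1014 (by decide +kernel) ?_
    refine jn 1024 (by decide +kernel) ?_
    refine jn 1025 (by decide +kernel) ?_
    refine jn 1028 (by decide +kernel) ?_
    refine jn 1041 (by decide +kernel) ?_
    exact je (by decide +kernel)
  · refine fin 408 17470 T56_1 ?_
    refine jn 5 (by decide +kernel) ?_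
    refine jn 7 (by decide +kernel) ?_
    refine jn 11 (by decide +kernel) ?_
    refine jn 14 (by decide +kernel) ?_
    refine jn 24 (by decide +kernel) ?_
    refine jn 29 (by decide +kernel) ?_
    refine jn 32 (by decide +kernel) ?_
    refine jn 38 (by decide +kernel) ?_
    refine jn 50 (by decide +kernel) ?_
    refine jn 56 (by decide +kernel) ?_
    refine jn 69 (by decide +kernel) ?_
    refine jn 75 (by decide +kernel) ?_
    refine jn 88 (by decide +kernel) ?_
    refine jn 98 (by decide +kernel) ?_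
    refine jn 106 (by decide +kernel) ?_
    refine jn 116 (by decide +kernel) ?_
    refine jn 127 (by decide +kernel) ?_
    refine jn 138 (by decide +kernel) ?_
    refine jn 142 (by decide +kernel) ?_
    refine jn 144 (by decide +kernel) ?_
    refine jn 148 (by decide +kernel) ?_
    refine jn 163 (by decide +kernel) ?_
    refine jn 179 (by decide +kernel) ?_
    refine jn 191 (by decide +kernel) ?_
    refine jn 197 (by decide +kernel) ?_
    refine jn 200 (by decide +kernel) ?_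
    refine jn 214 (by decide +kernel) ?_
    refine jn 219 (by decide +kernel) ?_
    refine jn 230 (by decide +kernel) ?_
    refine jn 233 (by decide +kernel) ?_
    refine jn 250 (by decide +kernel) ?_
    refine jn 262 (by decide +kernel) ?_
    refine jn 276 (by decide +kernel) ?_
    refine jn 288 (by decide +kernel) ?_
    refine jn 293 (by decide +kernel) ?_
    refine jn 301 (by decide +kernel) ?_
    refine jn 316 (by decide +kernel) ?_
    refine jn 329 (by decide +kernel) ?_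
    refine jn 342 (by decide +kernel) ?_
    refine jn 356 (by decide +kernel) ?_
    refine jn 371 (by decide +kernel) ?_
    refine jn 386 (by decide +kernel) ?_
    refine jn 395 (by decide +kernel) ?_
    refine jn 409 (by decide +kernel) ?_
    refine jn 413 (by decide +kernel) ?_
    refine jn 423 (by decide +kernel) ?_
    refine jn 437 (by decide +kernel) ?_
    refine jn 449 (by decide +kernel) ?_
    refine jn 463 (by decide +kernel) ?_
    refine jn 476 (by decide +kernel) ?_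
    refine jn 488 (by decide +kernel) ?_
    refine jn 501 (by decide +kernel) ?_
    refine jn 515 (by decide +kernel) ?_
    refine jn 527 (by decide +kernel) ?_
    refine jn 540 (by decide +kernel) ?_
    refine jn 557 (by decide +kernel) ?_
    refine jn 570 (by decide +kernel) ?_
    refine jn 583 (by decide +kernel) ?_
    refine jn 597 (by decide +kernel) ?_
    refine jn 614 (by decide +kernel) ?_
    refine jn 619 (by decide +kernel) ?_
    refine jn 631 (by decide +kernel) ?_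
    refine jn 645 (by decide +kernel) ?_
    refine jn 656 (by decide +kernel) ?_
    refine jn 665 (by decide +kernel) ?_
    refine jn 667 (by decide +kernel) ?_
    refine jn 678 (by decide +kernel) ?_
    refine jn 696 (by decide +kernel) ?_
    refine jn 708 (by decide +kernel) ?_
    refine jn 720 (by decide +kernel) ?_
    refine jn 738 (by decide +kernel) ?_
    refine jn 744 (by decide +kernel) ?_
    refine jn 754 (by decide +kernel) ?_
    refine jn 765 (by decide +kernel) ?_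
    refine jn 798 (by decide +kernel) ?_
    refine jn 848 (by decide +kernel) ?_
    refine jn 878 (by decide +kernel) ?_
    refine jn 933 (by decide +kernel) ?_
    refine jn 934 (by decide +kernel) ?_
    refine jn 944 (by decide +kernel) ?_
    refine jn 949 (by decide +kernel) ?_
    refine jn 957 (by decide +kernel) ?_
    refine jn 962 (by decide +kernel) ?_
    refine jn 980 (by decide +kernel) ?_
    refine jn 990 (by decide +kernel) ?_
    refine jn 994 (by decide +kernel) ?_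
    refine jn 998 (by decide +kernel) ?_
    refine jn 1008 (by decide +kernel) ?_
    refine jn 1013 (by decide +kernel) ?_
    refine jn 1020 (by decide +kernel) ?_
    refine jn 1022 (by decide +kernel) ?_
    refine jn 1034 (by decide +kernel) ?_
    refine jn 1039 (by decide +kernel) ?_
    refine jn 1047 (by decide +kernel) ?_
    refine jn 1054 (by decide +kernel) ?_
    refine jn 1063 (by decide +kernel) ?_
    refine jn 1078 (by decide +kernel) ?_
    refine jn 1088 (by decide +kernel) ?_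
    refine jn 1098 (by decide +kernel) ?_
    refine jn 1104 (by decide +kernel) ?_
    refine jn 1118 (by decide +kernel) ?_
    refine jn 1126 (by decide +kernel) ?_
    refine jn 1134 (by decide +kernel) ?_
    refine jn 1147 (by decide +kernel) ?_
    refine jn 1148 (by decide +kernel) ?_
    refine jn 1162 (by decide +kernel) ?_
    refine jn 1171 (by decide +kernel) ?_
    refine jn 1186 (by decide +kernel) ?_
    refine jn 1196 (by decide +kernel) ?_
    refine jn 1208 (by decide +kernel) ?_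
    refine jn 1222 (by decide +kernel) ?_
    refine jn 1232 (by decide +kernel) ?_
    refine jn 1236 (by decide +kernel) ?_
    refine jn 1271 (by decide +kernel) ?_
    refine jn 1320 (by decide +kernel) ?_
    refine jn 1351 (by decide +kernel) ?_
    refine jn 1391 (by decide +kernel) ?_
    refine jn 1449 (by decide +kernel) ?_
    refine jn 1469 (by decide +kernel) ?_
    refine jn 1474 (by decide +kernel) ?_
    refine jn 1475 (by decide +kernel) ?_
    refine jn 1495 (by decide +kernel) ?_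
    refine jn 1506 (by decide +kernel) ?_
    refine jn 1515 (by decide +kernel) ?_
    refine jn 1523 (by decide +kernel) ?_
    refine jn 1527 (by decide +kernel) ?_
    refine jn 1531 (by decide +kernel) ?_
    refine jn 1545 (by decide +kernel) ?_
    refine jn 1547 (by decide +kernel) ?_
    refine jn 1554 (by decide +kernel) ?_
    refine jn 1555 (by decide +kernel) ?_
    refine jn 1567 (by decide +kernel) ?_
    refine jn 1573 (by decide +kernel) ?_
    refine jn 1586 (by decide +kernel) ?_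
    refine jn 1594 (by decide +kernel) ?_
    refine jn 1601 (by decide +kernel) ?_
    refine jn 1606 (by decide +kernel) ?_
    refine jn 1620 (by decide +kernel) ?_
    refine jn 1623 (by decide +kernel) ?_
    refine jn 1624 (by decide +kernel) ?_
    refine jn 1644 (by decide +kernel) ?_
    refine jn 1662 (by decide +kernel) ?_
    refine jn 1671 (by decide +kernel) ?_
    refine jn 1674 (by decide +kernel) ?_
    refine jn 1680 (by decide +kernel) ?_
    refine jn 1694 (by decide +kernel) ?_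
    refine jn 1696 (by decide +kernel) ?_
    refine jn 1703 (by decide +kernel) ?_
    refine jn 1706 (by decide +kernel) ?_
    refine jn 1718 (by decide +kernel) ?_
    refine jn 1727 (by decide +kernel) ?_
    refine jn 1736 (by decide +kernel) ?_
    refine jn 1746 (by decide +kernel) ?_
    refine jn 1765 (by decide +kernel) ?_
    refine jn 1885 (by decide +kernel) ?_
    refine jn 2020 (by decide +kernel) ?_
    refine jn 2024 (by decide +kernel) ?_
    refine jn 2029 (by decide +kernel) ?_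
    refine jn 2038 (by decide +kernel) ?_
    refine jn 2056 (by decide +kernel) ?_
    refine jn 2066 (by decide +kernel) ?_
    refine jn 2077 (by decide +kernel) ?_
    refine jn 2078 (by decide +kernel) ?_
    refine jn 2085 (by decide +kernel) ?_
    refine jn 2086 (by decide +kernel) ?_
    refine jn 2110 (by decide +kernel) ?_
    refine jn 2120 (by decide +kernel) ?_
    refine jn 2132 (by decide +kernel) ?_
    refine jn 2136 (by decide +kernel) ?_
    refine jn 2150 (by decide +kernel) ?_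
    refine jn 2160 (by decide +kernel) ?_
    refine jn 2165 (by decide +kernel) ?_
    refine jn 2166 (by decide +kernel) ?_
    refine jn 2173 (by decide +kernel) ?_
    refine jn 2181 (by decide +kernel) ?_
    refine jn 2188 (by decide +kernel) ?_
    refine jn 2202 (by decide +kernel) ?_
    refine jn 2220 (by decide +kernel) ?_
    refine jn 2224 (by decide +kernel) ?_
    refine jn 2234 (by decide +kernel) ?_
    refine jn 2241 (by decide +kernel) ?_
    refine jn 2251 (by decide +kernel) ?_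
    refine jn 2269 (by decide +kernel) ?_
    refine jn 2279 (by decide +kernel) ?_
    refine jn 2290 (by decide +kernel) ?_
    refine jn 2291 (by decide +kernel) ?_
    refine jn 2298 (by decide +kernel) ?_
    refine jn 2299 (by decide +kernel) ?_
    refine jn 2330 (by decide +kernel) ?_
    refine jn 2343 (by decide +kernel) ?_
    refine jn 2349 (by decide +kernel) ?_
    refine jn 2363 (by decide +kernel) ?_
    refine jn 2378 (by decide +kernel) ?_
    refine jn 2379 (by decide +kernel) ?_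
    refine jn 2386 (by decide +kernel) ?_
    refine jn 2395 (by decide +kernel) ?_
    refine jn 2410 (by decide +kernel) ?_
    refine jn 2433 (by decide +kernel) ?_
    refine jn 2443 (by decide +kernel) ?_
    refine jn 2471 (by decide +kernel) ?_
    refine jn 2503 (by decide +kernel) ?_
    refine jn 2532 (by decide +kernel) ?_
    refine jn 2558 (by decide +kernel) ?_
    refine jn 2582 (by decide +kernel) ?_
    refine jn 2615 (by decide +kernel) ?_
    refine jn 2655 (by decide +kernel) ?_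
    refine jn 2692 (by decide +kernel) ?_
    refine jn 2735 (by decide +kernel) ?_
    refine jn 2753 (by decide +kernel) ?_
    refine jn 2765 (by decide +kernel) ?_
    refine jn 2781 (by decide +kernel) ?_
    refine jn 2802 (by decide +kernel) ?_
    refine jn 2807 (by decide +kernel) ?_
    refine jn 2835 (by decide +kernel) ?_
    refine jn 2843 (by decide +kernel) ?_
    refine jn 2858 (by decide +kernel) ?_
    refine jn 2867 (by decide +kernel) ?_
    refine jn 2882 (by decide +kernel) ?_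
    refine jn 2903 (by decide +kernel) ?_
    refine jn 2919 (by decide +kernel) ?_
    refine jn 2943 (by decide +kernel) ?_
    refine jn 2957 (by decide +kernel) ?_
    refine jn 2975 (by decide +kernel) ?_
    refine jn 3007 (by decide +kernel) ?_
    refine jn 3015 (by decide +kernel) ?_
    refine jn 3035 (by decide +kernel) ?_
    refine jn 3067 (by decide +kernel) ?_
    refine jn 3101 (by decide +kernel) ?_
    refine jn 3126 (by decide +kernel) ?_
    refine jn 3159 (by decide +kernel) ?_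
    refine jn 3189 (by decide +kernel) ?_
    refine jn 3222 (by decide +kernel) ?_
    refine jn 3261 (by decide +kernel) ?_
    refine jn 3283 (by decide +kernel) ?_
    refine jn 3302 (by decide +kernel) ?_
    refine jn 3326 (by decide +kernel) ?_
    refine jn 3366 (by decide +kernel) ?_
    refine jn 3393 (by decide +kernel) ?_
    refine jn 3422 (by decide +kernel) ?_
    refine jn 3463 (by decide +kernel) ?_
    refine jn 3490 (by decide +kernel) ?_
    refine jn 3512 (by decide +kernel) ?_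
    refine jn 3535 (by decide +kernel) ?_
    refine jn 3556 (by decide +kernel) ?_
    refine jn 3586 (by decide +kernel) ?_
    refine jn 3602 (by decide +kernel) ?_
    refine jn 3640 (by decide +kernel) ?_
    refine jn 3658 (by decide +kernel) ?_
    refine jn 3686 (by decide +kernel) ?_
    refine jn 3695 (by decide +kernel) ?_
    refine jn 3716 (by decide +kernel) ?_
    refine jn 3727 (by decide +kernel) ?_
    refine jn 3743 (by decide +kernel) ?_
    refine jn 3762 (by decide +kernel) ?_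
    refine jn 3791 (by decide +kernel) ?_
    refine jn 3806 (by decide +kernel) ?_
    refine jn 3831 (by decide +kernel) ?_
    refine jn 3847 (by decide +kernel) ?_
    refine jn 3876 (by decide +kernel) ?_
    refine jn 3898 (by decide +kernel) ?_
    refine jn 3928 (by decide +kernel) ?_
    refine jn 3950 (by decide +kernel) ?_
    refine jn 3963 (by decide +kernel) ?_
    refine jn 3986 (by decide +kernel) ?_
    refine jn 4008 (by decide +kernel) ?_
    refine jn 4026 (by decide +kernel) ?_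
    refine jn 4050 (by decide +kernel) ?_
    refine jn 4059 (by decide +kernel) ?_
    refine jn 4088 (by decide +kernel) ?_
    refine jn 4110 (by decide +kernel) ?_
    refine jn 4132 (by decide +kernel) ?_
    refine jn 4155 (by decide +kernel) ?_
    refine jn 4179 (by decide +kernel) ?_
    refine jn 4190 (by decide +kernel) ?_
    refine jn 4203 (by decide +kernel) ?_
    refine jn 4230 (by decide +kernel) ?_
    refine jn 4259 (by decide +kernel) ?_
    refine jn 4274 (by decide +kernel) ?_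
    refine jn 4307 (by decide +kernel) ?_
    refine jn 4336 (by decide +kernel) ?_
    refine jn 4348 (by decide +kernel) ?_
    refine jn 4362 (by decide +kernel) ?_
    refine jn 4406 (by decide +kernel) ?_
    refine jn 4427 (by decide +kernel) ?_
    refine jn 4459 (by decide +kernel) ?_
    refine jn 4488 (by decide +kernel) ?_
    refine jn 4517 (by decide +kernel) ?_
    refine jn 4541 (by decide +kernel) ?_
    refine jn 4569 (by decide +kernel) ?_
    refine jn 4598 (by decide +kernel) ?_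
    refine jn 4611 (by decide +kernel) ?_
    refine jn 4633 (by decide +kernel) ?_
    refine jn 4662 (by decide +kernel) ?_
    refine jn 4687 (by decide +kernel) ?_
    refine jn 4707 (by decide +kernel) ?_
    refine jn 4725 (by decide +kernel) ?_
    refine jn 4758 (by decide +kernel) ?_
    refine jn 4795 (by decide +kernel) ?_
    refine jn 4823 (by decide +kernel) ?_
    refine jn 4867 (by decide +kernel) ?_
    refine jn 4909 (by decide +kernel) ?_
    refine jn 4919 (by decide +kernel) ?_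
    refine jn 4947 (by decide +kernel) ?_
    refine jn 4967 (by decide +kernel) ?_
    refine jn 4998 (by decide +kernel) ?_
    refine jn 5029 (by decide +kernel) ?_
    refine jn 5053 (by decide +kernel) ?_
    refine jn 5078 (by decide +kernel) ?_
    refine jn 5110 (by decide +kernel) ?_
    refine jn 5126 (by decide +kernel) ?_
    refine jn 5165 (by decide +kernel) ?_
    refine jn 5199 (by decide +kernel) ?_
    refine jn 5239 (by decide +kernel) ?_
    refine jn 5263 (by decide +kernel) ?_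
    refine jn 5318 (by decide +kernel) ?_
    refine jn 5331 (by decide +kernel) ?_
    refine jn 5358 (by decide +kernel) ?_
    refine jn 5574 (by decide +kernel) ?_
    refine jn 5629 (by decide +kernel) ?_
    refine jn 5686 (by decide +kernel) ?_
    refine jn 5742 (by decide +kernel) ?_
    refine jn 5801 (by decide +kernel) ?_
    refine jn 5871 (by decide +kernel) ?_
    refine jn 5939 (by decide +kernel) ?_
    refine jn 5982 (by decide +kernel) ?_
    refine jn 6043 (by decide +kernel) ?_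
    refine jn 6102 (by decide +kernel) ?_
    refine jn 6175 (by decide +kernel) ?_
    refine jn 6241 (by decide +kernel) ?_
    refine jn 6307 (by decide +kernel) ?_
    refine jn 6361 (by decide +kernel) ?_
    refine jn 6413 (by decide +kernel) ?_
    refine jn 6469 (by decide +kernel) ?_
    refine jn 6539 (by decide +kernel) ?_
    refine jn 6597 (by decide +kernel) ?_
    refine jn 6667 (by decide +kernel) ?_
    refine jn 6739 (by decide +kernel) ?_
    refine jn 6929 (by decide +kernel) ?_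
    refine jn 7021 (by decide +kernel) ?_
    refine jn 7078 (by decide +kernel) ?_
    refine jn 7163 (by decide +kernel) ?_
    refine jn 7225 (by decide +kernel) ?_
    refine jn 7294 (by decide +kernel) ?_
    refine jn 7366 (by decide +kernel) ?_
    refine jn 7429 (by decide +kernel) ?_
    refine jn 7497 (by decide +kernel) ?_
    refine jn 7566 (by decide +kernel) ?_
    refine jn 7630 (by decide +kernel) ?_
    refine jn 7702 (by decide +kernel) ?_
    refine jn 7789 (by decide +kernel) ?_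
    refine jn 7845 (by decide +kernel) ?_
    refine jn 7915 (by decide +kernel) ?_
    refine jn 7983 (by decide +kernel) ?_
    refine jn 8067 (by decide +kernel) ?_
    refine jn 8127 (by decide +kernel) ?_
    refine jn 8205 (by decide +kernel) ?_
    refine jn 8281 (by decide +kernel) ?_
    refine jn 8347 (by decide +kernel) ?_
    refine jn 8431 (by decide +kernel) ?_
    refine jn 8511 (by decide +kernel) ?_
    refine jn 8583 (by decide +kernel) ?_
    refine jn 8657 (by decide +kernel) ?_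
    refine jn 8969 (by decide +kernel) ?_
    refine jn 9132 (by decide +kernel) ?_
    refine jn 9290 (by decide +kernel) ?_
    refine jn 9398 (by decide +kernel) ?_
    refine jn 9500 (by decide +kernel) ?_
    refine jn 9575 (by decide +kernel) ?_
    refine jn 9658 (by decide +kernel) ?_
    refine jn 9733 (by decide +kernel) ?_
    refine jn 9813 (by decide +kernel) ?_
    refine jn 9885 (by decide +kernel) ?_
    refine jn 9939 (by decide +kernel) ?_
    refine jn 10190 (by decide +kernel) ?_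
    refine jn 10436 (by decide +kernel) ?_
    refine jn 10604 (by decide +kernel) ?_
    refine jn 10738 (by decide +kernel) ?_
    refine jn 10848 (by decide +kernel) ?_
    refine jn 10948 (by decide +kernel) ?_
    refine jn 11038 (by decide +kernel) ?_
    refine jn 11119 (by decide +kernel) ?_
    refine jn 11193 (by decide +kernel) ?_
    refine jn 11318 (by decide +kernel) ?_
    refine jn 11693 (by decide +kernel) ?_
    refine jn 11874 (by decide +kernel) ?_
    refine jn 12063 (by decide +kernel) ?_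
    refine jn 12186 (by decide +kernel) ?_
    refine jn 12297 (by decide +kernel) ?_
    refine jn 12393 (by decide +kernel) ?_
    refine jn 12480 (by decide +kernel) ?_
    refine jn 12554 (by decide +kernel) ?_
    refine jn 12919 (by decide +kernel) ?_
    refine jn 13047 (by decide +kernel) ?_
    refine jn 13169 (by decide +kernel) ?_
    refine jn 13263 (by decide +kernel) ?_
    refine jn 13355 (by decide +kernel) ?_
    refine jn 13424 (by decide +kernel) ?_
    refine jn 13501 (by decide +kernel) ?_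
    refine jn 13581 (by decide +kernel) ?_
    refine jn 13649 (by decide +kernel) ?_
    refine jn 13714 (by decide +kernel) ?_
    refine jn 13769 (by decide +kernel) ?_
    refine jn 13837 (by decide +kernel) ?_
    refine jn 14165 (by decide +kernel) ?_
    refine jn 14349 (by decide +kernel) ?_
    refine jn 14535 (by decide +kernel) ?_
    refine jn 14684 (by decide +kernel) ?_
    refine jn 14802 (by decide +kernel) ?_
    refine jn 14919 (by decide +kernel) ?_
    refine jn 14994 (by decide +kernel) ?_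
    refine jn 15078 (by decide +kernel) ?_
    refine jn 15485 (by decide +kernel) ?_
    refine jn 15726 (by decide +kernel) ?_
    refine jn 15852 (by decide +kernel) ?_
    refine jn 16021 (by decide +kernel) ?_
    refine jn 16177 (by decide +kernel) ?_
    refine jn 16291 (by decide +kernel) ?_
    refine jn 16411 (by decide +kernel) ?_
    refine jn 16894 (by decide +kernel) ?_
    refine jn 17465 (by decide +kernel) ?_
    exact je (by decide +kernel)

end Pool.Agent.MP_2339ce_nt.NR
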