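import Pool.Agent.MP_2339ce_nt.Q2.NC.L9
import Pool.Agent.MP_2339ce_nt.Q2.NC.L10
import Pool.Agent.MP_2339ce_nt.Q2.CkI

/-! Block NR: runs. -/

set_option autoImplicit false
set_option maxRecDepth 100000

noncomputable section

namespace Pool.Agent.MP_2339ce_nt.NR

open Q2.Top

def T57_0 : Ph :=
  (.na 601 363 (.na 86 233 (.na 50 224 (.na 25 218 (.na 13 217 (.nx 12 1321124 (.nr 11 1482912 (.nr
  1 212 .s1 (.nx 3 223 (.nr 2 2294 (.l1 (.ls 29 29 237)) (.l1 .sk)) (.nx 4 224 (.l1 .sk) (.nx 7
  26009 (.lg 0 false 3 89 89 29 0 5040) (.nr 10 65537 (.nr 8 1025 (.lg 0 true 1 67 67 23 0 48) (.nx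
  9 165142 (.lg 2 true 1 73 73 23 62868 48) .out)) .out))))) .out) .out) (.nx 24 1321124 (.nr 23
  1482912 (.nr 14 217 .s1 (.nx 17 224 (.nx 16 223 (.nr 15 2305 (.l1 (.ls 23 19 232)) (.l1 .sk))
  (.l1 .sk)) (.nx 19 26009 (.lg 0 false 2 89 89 23 0 1680) (.nr 22 65537 (.nr 20 1025 (.lg 0 true 1
  61 61 19 0 168) (.nx 21 165142 (.lg 2 true 1 73 73 19 62868 168) .out)) .out)))) .out) .out))
  (.na 38 223 (.nx 37 1321124 (.nr 36 1482912 (.nr 26 218 .s1 (.nx 29 224 (.nx 28 223 (.nr 27 2358
  (.l1 (.ls 17 29 231)) (.l1 .sk)) (.l1 .sk)) (.nx 32 41287 (.lg 0 false 3 79 79 29 0 144) (.nr 35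
  16385 (.nr 33 1025 (.lg 0 false 1 61 61 23 0 1680) (.nx 34 165142 (.lg 2 false 1 47 47 23 17965
  48) .out)) .out)))) .out) .out) (.nx 49 1321124 (.nr 48 1482912 (.nr 39 223 .s1 (.nx 41 223 (.nr
  40 2368 (.l1 (.ls 16 17 225)) (.l1 .sk)) (.nx 42 224 (.l1 .sk) (.nx 45 41287 (.lg 0 true 3 73 73
  17 0 5040) (.nr 47 16385 (.lg 0 false 2 71 71 16 0 1680) .out))))) .out) .out))) (.na 74 229 (.na
  61 227 (.nx 60 1321124 (.nr 59 1482912 (.nr 51 224 .s1 (.nx 53 223 (.nr 52 2400 (.l1 (.ls 29 29
  225)) (.l1 .sk)) (.nx 54 224 (.l1 .sk) (.nx 57 165142 (.nr 55 65537 (.lg 0 true 1 79 79 31 0 336)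
  (.nx 56 26009 (.lg 0 false 1 83 83 31 0 336) .out)) (.nr 58 1025 (.lg 0 true 1 61 61 31 0 336)
  .out))))) .out) .out) (.nx 73 1321124 (.nr 72 1482912 (.nr 62 227 .s1 (.nx 65 224 (.nx 64 223
  (.nr 63 2421 (.l1 (.ls 16 17 222)) (.l1 .sk)) (.l1 .sk)) (.nx 68 41287 (.lg 0 false 3 73 73 19 0
  72) (.nr 71 16385 (.nr 69 1025 (.lg 0 false 1 53 53 17 0 24) (.nx 70 165142 (.lg 2 false 1 43 43
  17 17965 24) .out)) .out)))) .out) .out)) (.na 75 232 (.lg 0 false 1 0 0 16 0 24) (.nx 85 1321124
  (.nr 84 1482912 (.nr 76 232 .s1 (.nx 82 165142 (.nx 78 223 (.nr 77 2464 (.l1 (.ls 23 23 217))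
  (.l1 .sk)) (.nx 79 224 (.l1 .sk) (.nr 80 65537 (.lg 0 true 1 89 89 23 0 1680) (.nx 81 26009 (.lg
  0 false 1 97 97 23 0 1680) .out)))) (.nr 83 1025 (.lg 0 true 1 71 71 23 0 48) .out))) .out)
  .out)))) (.na 123 248 (.na 99 239 (.na 87 238 (.lg 0 false 1 0 0 16 0 24) (.nx 98 1321124 (.nr 97
  1482912 (.nr 88 238 .s1 (.nx 91 224 (.nx 90 223 (.nr 89 2527 (.l1 (.ls 16 31 211)) (.l1 .sk))
  (.l1 .sk)) (.nx 93 26009 (.lg 0 false 2 89 89 37 0 5040) (.nr 96 65537 (.nr 94 1025 (.lg 0 true 1
  67 67 31 0 336) (.nx 95 165142 (.lg 2 true 1 73 73 31 62868 336) .out)) .out)))) .out) .out))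
  (.na 110 241 (.nx 109 1321124 (.nr 108 1482912 (.nr 100 239 .s1 (.nx 102 223 (.nr 101 2548 (.l1
  (.ls 16 17 211)) (.l1 .sk)) (.nx 103 224 (.l1 .sk) (.nx 106 41287 (.lg 0 false 3 73 73 19 0 72)
  (.nr 107 16385 (.lg 0 false 1 73 73 17 0 24) .out))))) .out) .out) (.nx 122 1321124 (.nr 121
  1482912 (.nr 111 241 .s1 (.nx 117 41287 (.nx 113 223 (.nr 112 2622 (.l1 (.ls 16 17 209)) (.l1
  .sk)) (.nx 114 224 (.l1 .sk) (.lg 0 false 3 73 73 19 0 144))) (.nr 120 16385 (.nr 118 1025 (.lg 0
  false 1 53 53 17 0 48) (.nx 119 165142 (.lg 2 false 1 43 43 17 17965 48) .out)) .out))) .out)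
  .out))) (.na 147 254 (.na 134 251 (.nx 133 1321124 (.nr 132 1482912 (.nr 124 248 .s1 (.nx 126 223
  (.nr 125 2654 (.l1 (.ls 29 23 203)) (.l1 .sk)) (.nx 127 224 (.l1 .sk) (.nx 130 165142 (.nr 128
  65537 (.lg 0 true 1 83 89 29 0 720) (.nx 129 26009 (.lg 0 false 1 97 97 29 0 720) .out)) (.nr 131
  1025 (.lg 0 true 1 67 71 29 0 48) .out))))) .out) .out) (.nx 146 1321124 (.nr 145 1482912 (.nr
  135 251 .s1 (.nx 137 223 (.nr 136 2686 (.l1 (.ls 16 17 201)) (.l1 .sk)) (.nx 138 224 (.l1 .sk)
  (.nx 141 41287 (.lg 0 false 3 73 73 19 0 72) (.nr 144 16385 (.nr 142 1025 (.lg 0 false 1 53 53 17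
  0 24) (.nx 143 165142 (.lg 2 true 1 43 43 17 17965 24) .out)) .out))))) .out) .out)) (.na 158 256
  (.nx 157 1321124 (.nr 156 1482912 (.nr 148 254 .s1 (.nx 150 223 (.nr 149 2707 (.l1 (.ls 16 23
  198)) (.l1 .sk)) (.nx 151 224 (.l1 .sk) (.nx 154 41287 (.lg 0 false 3 73 73 29 0 144) (.nr 155
  16385 (.lg 0 false 1 73 73 23 0 336) .out))))) .out) .out) (.na 170 257 (.nx 169 1321124 (.nr 168
  1482912 (.nr 159 256 .s1 (.nx 164 26009 (.nx 161 223 (.nr 160 2717 (.l1 (.ls 19 23 197)) (.l1
  .sk)) (.nx 162 224 (.l1 .sk) (.lg 0 false 2 73 79 29 0 144))) (.nr 167 65537 (.nr 165 2049 (.lg 0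
  true 1 61 61 29 0 48) (.nx 166 165142 (.lg 2 true 1 67 67 29 62868 48) .out)) .out))) .out) .out)
  (.nx 600 1321124 (.nr 599 1482912 (.nr 171 257 .s1 (.nx 279 224 (.nx 278 223 (.nr 277 3838 (.la
  (.ls 31 19 196)) (.l1 .sk)) (.l1 .sk)) (.nx 385 26009 (.la (.lg 0 false 2 73 79 23 0)) (.nr 598
  32769 (.nr 491 2049 (.la (.lg 0 true 1 61 61 23 0)) (.nx 597 165142 (.la (.lg 2 false 1 59 59 23
  31541)) .out)) .out)))) .out) .out)))))) (.na 11526 8192 (.na 3314 1449 (.na 1858 725 (.na 1204
  512 (.nx 1203 1321124 (.nr 1202 1482912 (.nr 602 363 .s1 (.nx 753 224 (.nx 752 223 (.nr 751 5413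
  (.la (.ls 37 19 139)) (.l1 .sk)) (.l1 .sk)) (.nx 902 26009 (.la (.lg 0 false 1 73 73 23 0)) (.nr
  1201 32769 (.nr 1051 2049 (.la (.lg 0 true 1 59 59 23 0)) (.nx 1200 165142 (.la (.lg 2 false 1 53
  53 23 31541)) .out)) .out)))) .out) .out) (.nx 1857 1321124 (.nr 1856 1482912 (.nr 1205 512 .s1
  (.nx 1642 26009 (.nx 1429 224 (.nx 1428 223 (.nr 1427 7665 (.lx (.lp 41 23 182)) (.l1 .sk)) (.l1
  .sk)) (.la (.lg 0 false 1 71 71 29 0))) (.nr 1855 32769 (.la (.lg 2 true 1 61 61 29 287706))
  .out))) .out) .out)) (.na 2460 1024 (.nx 2459 20644 (.nr 2458 2097153 (.nr 1859 725 .s1 (.nx 2158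
  2049 (.la (.ls 67 41 5793)) (.nr 2457 262145 (.la (.lg 0 false 1 59 59 29 0)) .out))) .out) .out)
  (.nx 3313 20644 (.nr 3312 2097153 (.nr 2461 1024 .s1 (.nx 2886 3252 (.la (.ls 67 41 10330)) (.nr
  3311 131073 (.la (.lg 0 false 1 47 47 31 0)) .out))) .out) .out))) (.na 5368 2897 (.na 4516 2048
  (.nx 4515 13005 (.nr 4514 2097153 (.nr 3315 1449 .s1 (.nx 3914 3252 (.la (.ls 67 41 7301)) (.nr
  4513 16385 (.la (.ls 29 53 109426)) .out))) .out) .out) (.nx 5367 13005 (.nr 5366 2097153 (.nr
  4517 2048 .s1 (.la (.ls 61 53 82586))) .out) .out)) (.na 6794 4096 (.nx 6793 4097 (.nr 6792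
  1048577 (.nr 5369 2897 .s1 (.nx 5592 223 (.nr 5591 43300 (.lx (.lp 43 31 1025)) (.l1 .sk)) (.nx
  5593 224 (.l1 .sk) (.la (.ls 59 41 5779))))) .out) .out) (.na 8718 5793 (.nx 8717 5162 (.nr 8716
  1048577 (.nr 6795 4096 .s1 (.nx 7019 224 (.nx 7018 223 (.nr 7017 61240 (.lx (.lp 43 31 1449))
  (.l1 .sk)) (.l1 .sk)) (.la (.ls 59 41 6496)))) .out) .out) (.nx 11525 2049 (.nr 11524 524289 (.nr
  8719 5793 .s1 (.nx 8943 224 (.nx 8942 223 (.nr 8941 86600 (.lx (.lp 43 37 2049)) (.l1 .sk)) (.l1
  .sk)) (.nx 9125 406 (.lx (.lp 59 37 2049)) (.la (.ls 53 37 2049))))) .out) .out))))) (.na 19734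
  65536 (.na 15630 16384 (.na 13579 11586 (.nx 13578 2049 (.nr 13577 524289 (.nr 11527 8192 .s1
  (.nx 12551 1025 (.lx (.lp 53 41 2897)) (.nr 13576 262145 (.nx 12818 1292 (.lx (.lp 47 41 2897))
  (.nr 13575 131073 (.lx (.lp 43 41 2897)) .out)) .out))) .out) .out) (.nx 15629 2049 (.nr 15628
  131073 (.nr 13580 11586 .s1 (.lx (.lp 41 41 4097))) .out) .out)) (.na 17682 32768 (.nx 17681 2049
  (.nr 17680 262145 (.nr 15631 16384 .s1 (.nx 15954 324 (.lx (.lp 43 43 8193)) (.nr 17679 131073
  (.lx (.lp 41 43 8193)) .out))) .out) .out) (.nx 19733 2049 (.nr 19732 524289 (.nr 17683 32768 .s1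
  (.nx 18006 324 (.lx (.lp 47 43 16385)) (.nr 19731 262145 (.lx (.lp 41 47 16385)) .out))) .out)
  .out))) (.na 22994 262144 (.na 21364 131072 (.nx 21363 1627 (.nr 21362 524289 (.nr 19735 65536
  .s1 (.nx 20058 324 (.lx (.lp 16 0 32769)) (.nr 21361 262145 (.lx (.lp 37 53 32769)) .out))) .out)
  .out) (.nx 22993 1627 (.nr 22992 524289 (.nr 21365 131072 .s1 (.nx 21877 513 (.lx (.lp 37 59
  65537)) (.nr 22991 262145 (.lx (.lp 37 59 65537)) .out))) .out) .out)) (.na 23509 524288 (.nx
  23508 513 (.nr 23507 1048577 (.nr 22995 262144 .s1 (.lx (.lp 16 0 131073))) .out) .out) (.na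
  23511 1048577 (.nx 23510 324 (.l1 .sk) .out) .out))))))

def T57_1 : Ph :=
  (.na 554 170 (.na 328 128 (.na 165 100 (.na 88 86 (.na 38 80 (.na 22 79 (.nx 21 2097153 (.nr 20
  2097153 (.nr 1 77 .s1 (.nx 13 20644 (.nx 3 191 (.nr 2 773 (.l1 (.ls 29 37 470)) (.l1 .sk)) (.nx 4
  192 (.l1 .sk) (.nx 5 324 (.l1 (.ls 79 41 876)) (.nr 12 1048577 (.lg 0 false 7 83 97 37 0 65520)
  .out)))) (.nr 19 65537 (.nr 17 32769 (.nr 15 513 (.lg 0 true 2 71 71 31 0 1872) (.nx 16 131073
  (.lg 2 true 1 79 79 29 29124 1872) .out)) (.nx 18 32769 (.lg 0 false 1 73 73 29 0 1872) .out))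
  .out))) .out) .out) (.nx 37 2097153 (.nr 36 2097153 (.nr 23 78 .s1 (.nx 29 20644 (.nx 24 324 (.l1
  (.ls 73 29 1331)) (.nr 28 1048577 (.lg 0 false 4 89 89 16 0 720) .out)) (.nr 35 65537 (.nr 32 513
  (.lg 0 true 3 61 61 16 0 72) (.nx 34 131073 (.lg 2 false 2 83 83 16 58077 144) .out)) .out)))
  .out) .out)) (.na 56 81 (.nx 55 2097153 (.nr 54 2097153 (.nr 39 79 .s1 (.nx 43 324 (.nx 41 191
  (.nr 40 793 (.l1 (.ls 31 31 459)) (.l1 .sk)) (.nx 42 192 (.l1 .sk) (.l1 (.ls 83 37 854)))) (.nr
  53 1048577 (.nx 46 20644 (.lg 0 false 3 83 97 31 0 720) (.nr 52 65537 (.nr 48 513 (.lg 0 true 2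
  73 73 29 0 720) (.nx 51 131073 (.nr 49 32769 (.lg 2 false 1 83 83 23 29124 720) (.nx 50 32769
  (.lg 0 false 1 73 79 23 0 720) .out)) .out)) .out)) .out))) .out) .out) (.na 72 85 (.nx 71
  2097153 (.nr 70 2097153 (.nr 57 80 .s1 (.nx 63 20644 (.nx 58 324 (.l1 (.ls 73 31 1298)) (.nr 62
  1048577 (.lg 0 false 4 83 83 19 0 720) .out)) (.nr 69 65537 (.nr 66 513 (.lg 0 true 3 61 61 17 0
  72) (.nx 68 131073 (.lg 2 false 2 79 79 17 58077 720) .out)) .out))) .out) .out) (.nx 87 2097153
  (.nr 86 2097153 (.nr 73 84 .s1 (.nx 74 324 (.l1 (.ls 83 31 1238)) (.nr 85 1048577 (.nx 78 20644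
  (.lg 0 false 4 89 97 23 0 720) (.nr 84 65537 (.nr 80 513 (.lg 0 true 2 73 73 16 0 720) (.nx 83
  131073 (.nr 81 32769 (.lg 2 true 1 79 79 16 29124 360) (.nx 82 32769 (.lg 0 false 1 73 73 16 0
  360) .out)) .out)) .out)) .out))) .out) .out)))) (.na 121 92 (.na 103 90 (.nx 102 2097153 (.nr
  101 2097153 (.nr 89 85 .s1 (.nx 94 20644 (.nx 90 324 (.l1 (.ls 79 37 1223)) (.nr 93 1048577 (.lg
  0 false 3 89 89 19 0 720) .out)) (.nr 100 65537 (.nr 97 513 (.lg 0 true 3 67 67 19 0 144) (.nx 99
  131073 (.lg 2 true 2 83 83 19 58077 144) .out)) .out))) .out) .out) (.na 120 91 (.nx 119 2097153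
  (.nr 118 2097153 (.nr 104 89 .s1 (.nx 108 324 (.nx 106 191 (.nr 105 891 (.l1 (.ls 29 37 408))
  (.l1 .sk)) (.nx 107 192 (.l1 .sk) (.l1 (.ls 79 41 759)))) (.nr 117 1048577 (.nx 110 20644 (.lg 0
  false 2 89 89 31 0 720) (.nr 116 65537 (.nr 112 513 (.lg 0 true 2 67 67 31 0 720) (.nx 115 131073
  (.nr 113 32769 (.lg 2 true 1 73 73 29 29124 720) (.nx 114 32769 (.lg 0 false 1 71 71 29 0 720)
  .out)) .out)) .out)) .out))) .out) .out) .ne)) (.na 134 96 (.nx 133 2097153 (.nr 132 2097153 (.nr
  122 91 .s1 (.nx 123 324 (.l1 (.ls 83 41 1144)) (.nr 131 1048577 (.nx 126 20644 (.lg 0 false 3 89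
  97 19 0 720) (.nr 130 65537 (.nr 128 513 (.lg 0 true 2 71 71 19 0 144) (.nx 129 131073 (.lg 2
  true 1 89 89 19 58077 720) .out)) .out)) .out))) .out) .out) (.na 150 97 (.nx 149 2097153 (.nr
  148 2097153 (.nr 135 96 .s1 (.nx 138 192 (.nx 137 191 (.nr 136 950 (.l1 (.ls 37 31 383)) (.l1
  .sk)) (.l1 .sk)) (.nx 139 324 (.l1 (.ls 83 37 712)) (.nr 147 1048577 (.nx 145 131073 (.nr 140
  32769 (.lg 0 false 1 83 83 29 0 720) (.nx 144 32769 (.nx 142 20644 (.lg 0 false 2 101 103 31 0
  720720) (.nr 143 65537 (.lg 0 false 1 73 79 29 0 720) .out)) .out)) (.nr 146 513 (.lg 0 true 1 73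
  73 29 0 144) .out)) .out)))) .out) .out) (.nx 164 2097153 (.nr 163 2097153 (.nr 151 97 .s1 (.nx
  157 20644 (.nx 152 324 (.l1 (.ls 71 23 1085)) (.nr 156 1048577 (.lg 0 false 4 79 79 17 0 144)
  .out)) (.nr 162 65537 (.nr 159 513 (.lg 0 true 2 61 61 16 0 144) (.nx 161 131073 (.lg 2 false 2
  73 73 16 58077 144) .out)) .out))) .out) .out))))) (.na 247 109 (.na 205 104 (.na 178 102 (.nx
  177 2097153 (.nr 176 2097153 (.nr 166 100 .s1 (.nx 167 324 (.l1 (.ls 79 37 1052)) (.nr 175
  1048577 (.nx 170 20644 (.lg 0 false 3 83 89 29 0 720) (.nr 174 65537 (.nr 172 513 (.lg 0 true 2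
  67 67 29 0 720) (.nx 173 131073 (.lg 2 true 1 83 83 23 58077 720) .out)) .out)) .out))) .out)
  .out) (.na 190 103 (.nx 189 2097153 (.nr 188 2097153 (.nr 179 102 .s1 (.nx 183 20644 (.nx 180 324
  (.l1 (.ls 83 43 1032)) (.nr 182 1048577 (.lg 0 false 2 97 97 31 0 720) .out)) (.nr 187 65537 (.nr
  185 513 (.lg 0 true 2 71 71 31 0 144) (.nx 186 131073 (.lg 2 true 1 89 89 29 58077 720) .out))
  .out))) .out) .out) (.nx 204 2097153 (.nr 203 2097153 (.nr 191 103 .s1 (.nx 197 20644 (.nx 192
  324 (.l1 (.ls 71 23 1022)) (.nr 196 1048577 (.lg 0 false 4 79 79 17 0 144) .out)) (.nr 202 65537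
  (.nr 199 513 (.lg 0 true 2 61 61 16 0 144) (.nx 201 131073 (.lg 2 false 2 73 73 16 58077 144)
  .out)) .out))) .out) .out))) (.na 221 107 (.nx 220 2097153 (.nr 219 2097153 (.nr 206 104 .s1 (.nx
  210 324 (.nx 208 191 (.nr 207 1047 (.l1 (.ls 37 31 353)) (.l1 .sk)) (.nx 209 192 (.l1 .sk) (.l1
  (.ls 83 37 657)))) (.nr 218 1048577 (.nx 212 20644 (.lg 0 false 2 89 97 31 0 9360) (.nr 217 65537
  (.nr 215 32769 (.nx 213 131073 (.lg 0 true 1 89 89 29 0 9360) (.nr 214 513 (.lg 0 true 1 73 73 29
  0 1872) .out)) (.nx 216 32769 (.lg 0 false 1 73 79 29 0 9360) .out)) .out)) .out))) .out) .out)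
  (.na 235 108 (.nx 234 2097153 (.nr 233 2097153 (.nr 222 107 .s1 (.nx 223 324 (.l1 (.ls 71 23
  984)) (.nr 232 1048577 (.nx 227 20644 (.lg 0 false 4 79 79 17 0 144) (.nr 231 65537 (.nr 229 513
  (.lg 0 true 2 61 61 16 0 144) (.nx 230 131073 (.lg 2 true 1 79 79 16 58077 72) .out)) .out))
  .out))) .out) .out) (.nx 246 2097153 (.nr 245 2097153 (.nr 236 108 .s1 (.nx 237 324 (.l1 (.ls 79
  41 974)) (.nr 244 1048577 (.nx 239 20644 (.lg 0 false 2 89 89 29 0 720) (.nr 243 65537 (.nr 241
  513 (.lg 0 true 2 67 67 29 0 144) (.nx 242 131073 (.lg 2 true 1 83 83 23 58077 720) .out)) .out))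
  .out))) .out) .out)))) (.na 286 118 (.na 261 115 (.nx 260 2097153 (.nr 259 2097153 (.nr 248 109
  .s1 (.nx 249 324 (.l1 (.ls 71 23 966)) (.nr 258 1048577 (.nx 253 20644 (.lg 0 false 4 79 79 17 0
  720) (.nr 257 65537 (.nr 255 513 (.lg 0 true 2 59 59 16 0 144) (.nx 256 131073 (.lg 2 true 1 73
  73 16 58077 72) .out)) .out)) .out))) .out) .out) (.na 274 117 (.nx 273 2097153 (.nr 272 2097153
  (.nr 262 115 .s1 (.nx 263 324 (.l1 (.ls 79 31 915)) (.nr 271 1048577 (.nx 266 20644 (.lg 0 false
  3 83 89 19 0 720) (.nr 270 65537 (.nr 268 513 (.lg 0 true 2 71 71 19 0 720) (.nx 269 131073 (.lg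
  2 true 1 83 83 17 58077 360) .out)) .out)) .out))) .out) .out) (.nx 285 2097153 (.nr 284 2097153
  (.nr 275 117 .s1 (.nx 276 324 (.l1 (.ls 79 31 900)) (.nr 283 1048577 (.nx 278 20644 (.lg 0 false
  2 97 97 23 0 9360) (.nr 282 65537 (.nr 280 513 (.lg 0 true 2 71 71 23 0 1872) (.nx 281 131073
  (.lg 2 false 1 83 83 19 58077 936) .out)) .out)) .out))) .out) .out))) (.na 299 120 (.nx 298
  2097153 (.nr 297 2097153 (.nr 287 118 .s1 (.nx 288 324 (.l1 (.ls 73 31 892)) (.nr 296 1048577
  (.nx 291 20644 (.lg 0 false 3 83 83 23 0 144) (.nr 295 65537 (.nr 293 513 (.lg 0 true 2 61 61 19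
  0 144) (.nx 294 131073 (.lg 2 true 1 79 79 19 58077 144) .out)) .out)) .out))) .out) .out) (.na
  314 125 (.nx 313 2097153 (.nr 312 2097153 (.nr 300 120 .s1 (.nx 310 131073 (.nx 303 192 (.nx 302
  191 (.nr 301 1224 (.l1 (.ls 37 37 307)) (.l1 .sk)) (.l1 .sk)) (.nx 304 324 (.l1 (.ls 89 41 570))
  (.nr 309 1048577 (.nr 305 32769 (.lg 0 true 1 83 89 37 0 720) (.nx 308 32769 (.nx 306 20644 (.lg
  0 false 1 97 101 37 0 9360) (.nr 307 65537 (.lg 0 false 1 71 79 37 0 720) .out)) .out)) .out)))
  (.nr 311 513 (.lg 0 true 1 73 73 37 0 720) .out))) .out) .out) (.nx 327 2097153 (.nr 326 2097153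
  (.nr 315 125 .s1 (.nx 316 324 (.l1 (.ls 71 29 842)) (.nr 325 1048577 (.nx 320 32769 (.lg 0 false
  4 79 83 19 0 720) (.nr 324 32769 (.nr 322 513 (.lg 0 true 2 59 59 17 0 720) (.nx 323 131073 (.lg
  2 true 1 67 67 16 24401 720) .out)) .out)) .out))) .out) .out)))))) (.na 437 149 (.na 383 135
  (.na 355 130 (.na 341 129 (.nx 340 2097153 (.nr 339 2097153 (.nr 329 128 .s1 (.nx 330 324 (.l1
  (.ls 79 31 823)) (.nr 338 1482912 (.nx 333 20644 (.lg 0 false 3 83 89 29 0 720) (.nr 337 65537
  (.nr 335 1025 (.lg 0 true 2 71 71 23 0 144) (.nx 336 131073 (.lg 2 true 1 79 79 19 58077 144)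
  .out)) .out)) .out))) .out) .out) (.nx 354 1048577 (.nr 353 1482912 (.nr 342 129 .s1 (.nx 351
  131073 (.nx 344 191 (.nr 343 1273 (.l1 (.ls 23 23 285)) (.l1 .sk)) (.nx 345 192 (.l1 .sk) (.nx
  349 16385 (.lg 0 false 4 83 89 23 0 720) (.nr 350 65537 (.lg 0 false 1 89 89 19 0 720) .out))))
  (.nr 352 1025 (.lg 0 true 1 67 67 19 0 72) .out))) .out) .out)) (.na 368 131 (.nx 367 1048577
  (.nr 366 1482912 (.nr 356 130 .s1 (.nx 359 192 (.nx 358 191 (.nr 357 1282 (.l1 (.ls 31 31 283))
  (.l1 .sk)) (.l1 .sk)) (.nx 364 131073 (.nx 362 16385 (.lg 0 false 3 83 89 31 0 9360) (.nr 363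
  65537 (.lg 0 false 1 89 89 29 0 9360) .out)) (.nr 365 1025 (.lg 0 true 1 71 71 29 0 9360)
  .out)))) .out) .out) (.na 369 134 (.lg 0 false 1 0 0 16 0 24) (.nx 382 1048577 (.nr 381 1482912
  (.nr 370 134 .s1 (.nx 379 131073 (.nx 372 191 (.nr 371 1321 (.l1 (.ls 19 29 275)) (.l1 .sk)) (.nx
  373 192 (.l1 .sk) (.nr 375 65537 (.lg 0 true 2 79 79 23 0 720) (.nx 378 16385 (.lg 0 false 3 83
  83 23 0 720) .out)))) (.nr 380 1025 (.lg 0 false 1 71 71 19 0 720) .out))) .out) .out)))) (.na
  410 138 (.na 395 136 (.nx 394 1048577 (.nr 393 1482912 (.nr 384 135 .s1 (.nx 386 191 (.nr 385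
  1331 (.l1 (.ls 29 29 273)) (.l1 .sk)) (.nx 387 192 (.l1 .sk) (.nx 389 16385 (.lg 0 false 2 89 89
  23 0 720) (.nr 392 65537 (.nx 390 131073 (.lg 0 true 1 83 83 19 0 360) (.nr 391 1025 (.lg 0 true
  1 67 67 19 0 360) .out)) .out))))) .out) .out) (.na 409 137 (.nx 408 1048577 (.nr 407 1482912
  (.nr 396 136 .s1 (.nx 405 131073 (.nx 401 16385 (.nx 398 191 (.nr 397 1341 (.l1 (.ls 37 31 271))
  (.l1 .sk)) (.nx 399 192 (.l1 .sk) (.lg 0 false 2 89 101 31 0 720))) (.nr 404 65537 (.nr 402 16385
  (.lg 0 true 1 83 89 29 0 720) (.nx 403 32769 (.lg 0 false 1 79 83 29 0 720) .out)) .out)) (.nr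
  406 1025 (.lg 0 true 1 73 73 29 0 144) .out))) .out) .out) (.lg 0 false 1 0 0 16 0 24))) (.na 422
  139 (.nx 421 1048577 (.nr 420 1482912 (.nr 411 138 .s1 (.nx 416 16385 (.nx 413 191 (.nr 412 1361
  (.l1 (.ls 19 37 267)) (.l1 .sk)) (.nx 414 192 (.l1 .sk) (.lg 0 false 2 89 89 37 0 144))) (.nr 419
  65537 (.nx 417 131073 (.lg 0 false 1 89 89 31 0 720) (.nr 418 1025 (.lg 0 true 1 71 71 31 0 144)
  .out)) .out))) .out) .out) (.na 423 144 (.lg 0 false 1 0 0 16 0 24) (.nx 436 1048577 (.nr 435
  1482912 (.nr 424 144 .s1 (.nx 426 191 (.nr 425 1458 (.l1 (.ls 31 31 256)) (.l1 .sk)) (.nx 427 192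
  (.l1 .sk) (.nx 433 131073 (.nx 429 16385 (.lg 0 false 2 83 89 37 0 720) (.nr 432 65537 (.nr 430
  16385 (.lg 0 true 1 79 79 31 0 720) (.nx 431 32769 (.lg 0 false 1 73 73 31 0 720) .out)) .out))
  (.nr 434 1025 (.lg 0 true 1 71 71 31 0 144) .out))))) .out) .out))))) (.na 488 158 (.na 464 153
  (.na 451 150 (.nx 450 1048577 (.nr 449 1482912 (.nr 438 149 .s1 (.nx 441 192 (.nx 440 191 (.nr
  439 1468 (.l1 (.ls 19 17 247)) (.l1 .sk)) (.l1 .sk)) (.nx 445 32769 (.lg 0 false 4 83 83 17 0
  720) (.nr 448 16385 (.nr 446 1025 (.lg 0 false 1 61 61 16 0 72) (.nx 447 131073 (.lg 2 true 1 53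
  53 16 12213 72) .out)) .out)))) .out) .out) (.na 463 151 (.nx 462 1048577 (.nr 461 1482912 (.nr
  452 150 .s1 (.nx 455 192 (.nx 454 191 (.nr 453 1478 (.l1 (.ls 29 37 246)) (.l1 .sk)) (.l1 .sk))
  (.nx 459 131073 (.nx 457 16385 (.lg 0 false 2 83 89 31 0 720) (.nr 458 65537 (.lg 0 false 1 83 83
  31 0 720) .out)) (.nr 460 1025 (.lg 0 true 1 67 67 31 0 720) .out)))) .out) .out) (.lg 0 false 1
  0 0 16 0 24))) (.na 476 156 (.nx 475 1048577 (.nr 474 1482912 (.nr 465 153 .s1 (.nx 472 131073
  (.nx 467 191 (.nr 466 1527 (.l1 (.ls 16 29 241)) (.l1 .sk)) (.nx 468 192 (.l1 .sk) (.nx 470 16385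
  (.lg 0 false 2 89 89 29 0 720) (.nr 471 65537 (.lg 0 false 1 83 83 23 0 720) .out)))) (.nr 473
  1025 (.lg 0 true 1 67 67 23 0 72) .out))) .out) .out) (.na 487 157 (.nx 486 1048577 (.nr 485
  1482912 (.nr 477 156 .s1 (.nx 483 131073 (.nx 479 191 (.nr 478 1537 (.l1 (.ls 37 37 236)) (.l1
  .sk)) (.nx 480 192 (.l1 .sk) (.nr 481 65537 (.lg 0 true 1 89 97 37 0 9360) (.nx 482 16385 (.lg 0
  false 1 97 97 37 0 9360) .out)))) (.nr 484 1025 (.lg 0 true 1 73 73 37 0 1872) .out))) .out)
  .out) (.lg 0 false 1 0 0 16 0 24)))) (.na 525 163 (.na 501 160 (.nx 500 1048577 (.nr 499 1482912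
  (.nr 489 158 .s1 (.nx 491 191 (.nr 490 1566 (.l1 (.ls 19 23 233)) (.l1 .sk)) (.nx 492 192 (.l1
  .sk) (.nr 495 65537 (.nx 493 131073 (.lg 0 false 1 83 83 19 0 720) (.nr 494 1025 (.lg 0 false 1
  61 61 19 0 144) .out)) (.nx 498 16385 (.lg 0 false 3 73 73 23 0 144) .out))))) .out) .out) (.na
  512 162 (.nx 511 1048577 (.nr 510 1482912 (.nr 502 160 .s1 (.nx 508 131073 (.nx 504 191 (.nr 503
  1586 (.l1 (.ls 31 29 231)) (.l1 .sk)) (.nx 505 192 (.l1 .sk) (.nr 506 65537 (.lg 0 true 1 83 89
  29 0 720) (.nx 507 16385 (.lg 0 false 1 89 89 29 0 720) .out)))) (.nr 509 1025 (.lg 0 true 1 71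
  71 29 0 720) .out))) .out) .out) (.nx 524 1048577 (.nr 523 1482912 (.nr 513 162 .s1 (.nx 516 192
  (.nx 515 191 (.nr 514 1595 (.l1 (.ls 19 31 228)) (.l1 .sk)) (.l1 .sk)) (.nx 521 131073 (.nr 517
  65537 (.lg 0 false 1 79 79 23 0 720) (.nx 520 16385 (.lg 0 false 3 73 73 29 0 144) .out)) (.nr
  522 1025 (.lg 0 false 1 61 61 23 0 144) .out)))) .out) .out))) (.na 539 167 (.nx 538 1048577 (.nr
  537 1482912 (.nr 526 163 .s1 (.nx 529 192 (.nx 528 191 (.nr 527 1635 (.l1 (.ls 19 17 226)) (.l1
  .sk)) (.l1 .sk)) (.nx 533 32769 (.lg 0 false 4 79 79 17 0 144) (.nr 536 16385 (.nr 534 1025 (.lg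
  0 false 1 61 61 16 0 72) (.nx 535 131073 (.lg 2 true 1 53 53 16 12213 72) .out)) .out)))) .out)
  .out) (.na 540 169 (.lg 0 false 1 0 0 16 0 24) (.nx 553 1048577 (.nr 552 1482912 (.nr 541 169 .s1
  (.nx 544 192 (.nx 543 191 (.nr 542 1664 (.l1 (.ls 19 19 218)) (.l1 .sk)) (.l1 .sk)) (.nx 548
  32769 (.lg 0 false 4 83 83 19 0 9360) (.nr 551 16385 (.nr 549 1025 (.lg 0 false 1 67 67 17 0
  9360) (.nx 550 131073 (.lg 2 false 1 53 53 17 12213 936) .out)) .out)))) .out) .out))))))) (.na
  781 214 (.na 639 193 (.na 592 180 (.na 578 173 (.na 566 172 (.nx 565 1048577 (.nr 564 1482912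
  (.nr 555 170 .s1 (.nx 560 16385 (.nx 557 191 (.nr 556 1684 (.l1 (.ls 16 31 217)) (.l1 .sk)) (.nx
  558 192 (.l1 .sk) (.lg 0 false 2 89 89 31 0 720))) (.nr 563 65537 (.nx 561 131073 (.lg 0 false 1
  83 83 31 0 720) (.nr 562 1025 (.lg 0 true 1 67 67 31 0 720) .out)) .out))) .out) .out) (.nx 577
  1048577 (.nr 576 1482912 (.nr 567 172 .s1 (.nx 570 192 (.nx 569 191 (.nr 568 1693 (.l1 (.ls 29 23
  215)) (.l1 .sk)) (.l1 .sk)) (.nx 572 16385 (.lg 0 false 2 89 89 29 0 720) (.nr 575 65537 (.nx 573
  131073 (.lg 0 true 1 83 83 23 0 144) (.nr 574 1025 (.lg 0 true 1 67 67 23 0 144) .out)) .out))))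
  .out) .out)) (.na 579 177 (.lg 0 false 1 0 0 16 0 24) (.na 591 179 (.nx 590 1048577 (.nr 589
  1482912 (.nr 580 177 .s1 (.nx 585 16385 (.nx 582 191 (.nr 581 1752 (.l1 (.ls 23 19 209)) (.l1
  .sk)) (.nx 583 192 (.l1 .sk) (.lg 0 false 2 89 89 23 0 720))) (.nr 588 65537 (.nx 586 131073 (.lg
  0 true 1 83 83 19 0 72) (.nr 587 1025 (.lg 0 true 1 67 67 19 0 72) .out)) .out))) .out) .out)
  (.lg 0 false 1 0 0 16 0 24)))) (.na 605 184 (.na 603 181 (.nx 602 1048577 (.nr 601 1482912 (.nr
  593 180 .s1 (.nx 599 131073 (.nx 595 191 (.nr 594 1772 (.l1 (.ls 31 31 205)) (.l1 .sk)) (.nx 596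
  192 (.l1 .sk) (.nr 597 65537 (.lg 0 true 1 83 89 37 0 720) (.nx 598 16385 (.lg 0 false 1 89 89 37
  0 720) .out)))) (.nr 600 1025 (.lg 0 true 1 71 71 37 0 720) .out))) .out) .out) (.na 604 182 (.lg
  0 false 1 0 0 16 0 24) .ne)) (.na 616 191 (.nx 615 1048577 (.nr 614 1048577 (.nr 606 184 .s1 (.nx
  612 131073 (.nx 608 191 (.nr 607 1869 (.l1 (.ls 19 29 201)) (.l1 .sk)) (.nx 609 192 (.l1 .sk)
  (.nr 610 65537 (.lg 0 true 1 89 89 31 0 720) (.nx 611 16385 (.lg 0 false 1 97 97 31 0 720)
  .out)))) (.nr 613 1025 (.lg 0 true 1 73 73 31 0 144) .out))) .out) .out) (.na 628 192 (.nx 627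
  1048577 (.nr 626 1048577 (.nr 617 191 .s1 (.nx 620 192 (.nx 619 191 (.nr 618 1879 (.l1 (.ls 16 17
  193)) (.l1 .sk)) (.l1 .sk)) (.nx 623 32769 (.lg 0 true 3 73 73 17 0 720) (.nr 625 16385 (.lg 0
  false 2 71 71 16 0 144) .out)))) .out) .out) (.nx 638 1048577 (.nr 637 1048577 (.nr 629 192 .s1
  (.nx 631 191 (.nr 630 1889 (.l1 (.ls 31 31 193)) (.l1 .sk)) (.nx 632 192 (.l1 .sk) (.nx 635
  131073 (.nr 633 65537 (.lg 0 true 1 83 83 31 0 720) (.nx 634 16385 (.lg 0 false 1 83 89 31 0 720)
  .out)) (.nr 636 1025 (.lg 0 true 1 67 67 31 0 144) .out))))) .out) .out))))) (.na 713 201 (.na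
  676 197 (.na 652 194 (.nx 651 1048577 (.nr 650 1048577 (.nr 640 193 .s1 (.nx 646 32769 (.nx 642
  191 (.nr 641 1899 (.l1 (.ls 17 17 192)) (.l1 .sk)) (.nx 643 192 (.l1 .sk) (.lg 0 false 3 73 73 17
  0 72))) (.nr 649 16385 (.nr 647 1025 (.lg 0 false 1 59 59 16 0 72) (.nx 648 131073 (.lg 2 false 1
  47 47 16 12213 72) .out)) .out))) .out) .out) (.na 665 195 (.nx 664 1048577 (.nr 663 1048577 (.nr
  653 194 .s1 (.nx 656 192 (.nx 655 191 (.nr 654 1909 (.l1 (.ls 19 23 191)) (.l1 .sk)) (.l1 .sk))
  (.nx 659 32769 (.lg 0 false 3 79 79 29 0 720) (.nr 662 16385 (.nr 660 1025 (.lg 0 false 1 61 61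
  19 0 720) (.nx 661 131073 (.lg 2 true 1 53 53 19 12213 144) .out)) .out)))) .out) .out) (.nx 675
  1048577 (.nr 674 1048577 (.nr 666 195 .s1 (.nx 672 131073 (.nx 668 191 (.nr 667 1928 (.l1 (.ls 31
  29 190)) (.l1 .sk)) (.nx 669 192 (.l1 .sk) (.nr 670 65537 (.lg 0 true 1 83 89 31 0 9360) (.nx 671
  16385 (.lg 0 false 1 89 89 31 0 4680) .out)))) (.nr 673 1025 (.lg 0 true 1 71 71 31 0 4680)
  .out))) .out) .out))) (.na 689 199 (.nx 688 1048577 (.nr 687 1048577 (.nr 677 197 .s1 (.nx 683
  32769 (.nx 679 191 (.nr 678 1948 (.l1 (.ls 16 17 188)) (.l1 .sk)) (.nx 680 192 (.l1 .sk) (.lg 0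
  false 3 73 73 17 0 72))) (.nr 686 16385 (.nr 684 1025 (.lg 0 false 1 59 59 16 0 72) (.nx 685
  131073 (.lg 2 true 1 43 43 16 12213 72) .out)) .out))) .out) .out) (.na 702 200 (.nx 701 1048577
  (.nr 700 1048577 (.nr 690 199 .s1 (.nx 693 192 (.nx 692 191 (.nr 691 1957 (.l1 (.ls 17 17 186))
  (.l1 .sk)) (.l1 .sk)) (.nx 696 32769 (.lg 0 false 3 73 73 17 0 72) (.nr 699 16385 (.nr 697 1025
  (.lg 0 false 1 59 59 16 0 72) (.nx 698 131073 (.lg 2 true 1 47 47 16 12213 720) .out)) .out))))
  .out) .out) (.nx 712 1048577 (.nr 711 1048577 (.nr 703 200 .s1 (.nx 706 192 (.nx 705 191 (.nr 704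
  1967 (.l1 (.ls 31 29 185)) (.l1 .sk)) (.l1 .sk)) (.nr 709 65537 (.nx 707 131073 (.lg 0 true 1 83
  89 31 0 720) (.nr 708 1025 (.lg 0 true 1 71 71 31 0 720) .out)) (.nx 710 16385 (.lg 0 false 1 89
  89 31 0 720) .out)))) .out) .out)))) (.na 746 207 (.na 724 204 (.nx 723 1048577 (.nr 722 1048577
  (.nr 714 201 .s1 (.nx 717 192 (.nx 716 191 (.nr 715 1997 (.l1 (.ls 29 19 184)) (.l1 .sk)) (.l1
  .sk)) (.nr 720 65537 (.nx 718 131073 (.lg 0 true 1 83 83 19 0 72) (.nr 719 1025 (.lg 0 true 1 61
  61 19 0 72) .out)) (.nx 721 16385 (.lg 0 false 1 83 83 19 0 72) .out)))) .out) .out) (.na 735 206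
  (.nx 734 1048577 (.nr 733 1048577 (.nr 725 204 .s1 (.nx 727 191 (.nr 726 2016 (.l1 (.ls 16 31
  181)) (.l1 .sk)) (.nx 728 192 (.l1 .sk) (.nr 731 65537 (.nx 729 131073 (.lg 0 true 1 83 89 37 0
  720) (.nr 730 1025 (.lg 0 true 1 71 71 37 0 144) .out)) (.nx 732 16385 (.lg 0 false 1 89 89 37 0
  720) .out))))) .out) .out) (.nx 745 1048577 (.nr 744 1048577 (.nr 736 206 .s1 (.nx 742 32769 (.nx
  738 191 (.nr 737 2026 (.l1 (.ls 17 23 180)) (.l1 .sk)) (.nx 739 192 (.l1 .sk) (.lg 0 false 3 73
  73 29 0 144))) (.nr 743 16385 (.lg 0 false 1 79 79 23 0 720) .out))) .out) .out))) (.na 757 208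
  (.nx 756 1048577 (.nr 755 1048577 (.nr 747 207 .s1 (.nx 753 131073 (.nx 749 191 (.nr 748 2036
  (.l1 (.ls 19 19 179)) (.l1 .sk)) (.nx 750 192 (.l1 .sk) (.nr 751 65537 (.lg 0 true 1 79 79 19 0
  72) (.nx 752 16385 (.lg 0 false 1 79 79 19 0 72) .out)))) (.nr 754 1025 (.lg 0 true 1 61 61 19 0
  72) .out))) .out) .out) (.na 768 211 (.nx 767 1048577 (.nr 766 1048577 (.nr 758 208 .s1 (.nx 760
  191 (.nr 759 2065 (.l1 (.ls 37 29 178)) (.l1 .sk)) (.nx 761 192 (.l1 .sk) (.nx 764 131073 (.nr
  762 65537 (.lg 0 true 1 83 89 31 0 9360) (.nx 763 16385 (.lg 0 false 1 89 89 31 0 1872) .out))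
  (.nr 765 1025 (.lg 0 true 1 71 71 31 0 1872) .out))))) .out) .out) (.nx 780 1048577 (.nr 779
  1048577 (.nr 769 211 .s1 (.nx 775 32769 (.nx 771 191 (.nr 770 2094 (.l1 (.ls 17 17 175)) (.l1
  .sk)) (.nx 772 192 (.l1 .sk) (.lg 0 false 3 73 73 17 0 72))) (.nr 778 16385 (.nr 776 1025 (.lg 0
  false 1 59 59 16 0 72) (.nx 777 131073 (.lg 2 true 1 47 47 16 12213 720) .out)) .out))) .out)
  .out)))))) (.na 893 236 (.na 847 225 (.na 814 218 (.na 792 215 (.nx 791 1048577 (.nr 790 1048577
  (.nr 782 214 .s1 (.nx 784 191 (.nr 783 2104 (.l1 (.ls 17 23 173)) (.l1 .sk)) (.nx 785 192 (.l1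
  .sk) (.nx 788 32769 (.lg 0 false 3 73 73 29 0 144) (.nr 789 16385 (.lg 0 false 1 79 79 23 0 720)
  .out))))) .out) .out) (.na 803 216 (.nx 802 1048577 (.nr 801 1048577 (.nr 793 215 .s1 (.nx 795
  191 (.nr 794 2114 (.l1 (.ls 23 19 172)) (.l1 .sk)) (.nx 796 192 (.l1 .sk) (.nr 799 65537 (.nx 797
  131073 (.lg 0 false 1 83 83 19 0 720) (.nr 798 1025 (.lg 0 true 1 67 67 19 0 360) .out)) (.nx 800
  16385 (.lg 0 false 1 83 83 19 0 360) .out))))) .out) .out) (.nx 813 1048577 (.nr 812 1048577 (.nr
  804 216 .s1 (.nx 806 191 (.nr 805 2134 (.l1 (.ls 31 29 171)) (.l1 .sk)) (.nx 807 192 (.l1 .sk)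
  (.nx 810 131073 (.nr 808 65537 (.lg 0 true 1 83 83 31 0 720) (.nx 809 16385 (.lg 0 false 1 83 89
  31 0 720) .out)) (.nr 811 1025 (.lg 0 true 1 67 67 31 0 144) .out))))) .out) .out))) (.na 824 221
  (.nx 823 1048577 (.nr 822 1048577 (.nr 815 218 .s1 (.nx 818 192 (.nx 817 191 (.nr 816 2163 (.l1
  (.ls 17 23 170)) (.l1 .sk)) (.l1 .sk)) (.nx 820 32769 (.lg 0 false 2 73 73 23 0 144) (.nr 821
  16385 (.lg 0 false 1 79 79 23 0 720) .out)))) .out) .out) (.na 835 223 (.nx 834 1048577 (.nr 833
  1048577 (.nr 825 221 .s1 (.nx 831 131073 (.nx 827 191 (.nr 826 2183 (.l1 (.ls 16 23 168)) (.l1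
  .sk)) (.nx 828 192 (.l1 .sk) (.nr 829 65537 (.lg 0 false 1 83 83 23 0 9360) (.nx 830 16385 (.lg 0
  false 1 83 83 23 0 936) .out)))) (.nr 832 1025 (.lg 0 true 1 61 61 23 0 936) .out))) .out) .out)
  (.nx 846 1048577 (.nr 845 1048577 (.nr 836 223 .s1 (.nx 839 192 (.nx 838 191 (.nr 837 2202 (.l1
  (.ls 17 17 166)) (.l1 .sk)) (.l1 .sk)) (.nx 841 32769 (.lg 0 false 2 73 73 17 0 144) (.nr 844
  16385 (.nr 842 1025 (.lg 0 false 1 59 59 16 0 720) (.nx 843 131073 (.lg 2 false 1 43 43 16 12213
  72) .out)) .out)))) .out) .out)))) (.na 870 230 (.na 858 227 (.nx 857 1048577 (.nr 856 1048577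
  (.nr 848 225 .s1 (.nx 851 192 (.nx 850 191 (.nr 849 2222 (.l1 (.ls 19 23 165)) (.l1 .sk)) (.l1
  .sk)) (.nr 854 65537 (.nx 852 131073 (.lg 0 true 1 73 73 23 0 360) (.nr 853 1025 (.lg 0 true 1 59
  59 23 0 360) .out)) (.nx 855 16385 (.lg 0 false 1 73 73 23 0 360) .out)))) .out) .out) (.na 869
  229 (.nx 868 1048577 (.nr 867 1048577 (.nr 859 227 .s1 (.nx 865 32769 (.nx 861 191 (.nr 860 2241
  (.l1 (.ls 17 17 163)) (.l1 .sk)) (.nx 862 192 (.l1 .sk) (.lg 0 false 3 73 73 19 0 72))) (.nr 866
  16385 (.lg 0 false 1 79 79 17 0 720) .out))) .out) .out) (.lg 0 false 1 0 0 16 0 24))) (.na 881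
  233 (.nx 880 1048577 (.nr 879 1048577 (.nr 871 230 .s1 (.nx 877 131073 (.nx 873 191 (.nr 872 2280
  (.l1 (.ls 19 31 161)) (.l1 .sk)) (.nx 874 192 (.l1 .sk) (.nr 875 65537 (.lg 0 false 1 79 79 31 0
  720) (.nx 876 16385 (.lg 0 false 1 83 83 31 0 720) .out)))) (.nr 878 1025 (.lg 0 true 1 61 61 31
  0 720) .out))) .out) .out) (.na 882 234 (.lg 0 false 1 0 0 16 0 24) (.nx 892 1048577 (.nr 891
  1048577 (.nr 883 234 .s1 (.nx 885 191 (.nr 884 2310 (.l1 (.ls 29 31 158)) (.l1 .sk)) (.nx 886 192
  (.l1 .sk) (.nr 889 65537 (.nx 887 131073 (.lg 0 true 1 79 79 37 0 1872) (.nr 888 1025 (.lg 0 true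
  1 61 61 37 0 1872) .out)) (.nx 890 16385 (.lg 0 false 1 83 83 37 0 9360) .out))))) .out)
  .out))))) (.na 956 250 (.na 925 240 (.na 904 237 (.nx 903 1048577 (.nr 902 1048577 (.nr 894 236
  .s1 (.nx 897 192 (.nx 896 191 (.nr 895 2320 (.l1 (.ls 23 23 157)) (.l1 .sk)) (.l1 .sk)) (.nr 900
  65537 (.nx 898 131073 (.lg 0 false 1 83 83 23 0 720) (.nr 899 1025 (.lg 0 true 1 61 61 23 0 144)
  .out)) (.nx 901 16385 (.lg 0 false 1 83 83 23 0 144) .out)))) .out) .out) (.na 915 239 (.nx 914
  1048577 (.nr 913 1048577 (.nr 905 237 .s1 (.nx 911 131073 (.nx 907 191 (.nr 906 2339 (.l1 (.ls 19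
  19 156)) (.l1 .sk)) (.nx 908 192 (.l1 .sk) (.nr 909 65537 (.lg 0 true 1 73 73 19 0 72) (.nx 910
  16385 (.lg 0 false 1 79 79 19 0 72) .out)))) (.nr 912 1025 (.lg 0 true 1 59 59 19 0 72) .out)))
  .out) .out) (.nx 924 1048577 (.nr 923 1048577 (.nr 916 239 .s1 (.nx 918 191 (.nr 917 2349 (.l1
  (.ls 17 17 155)) (.l1 .sk)) (.nx 919 192 (.l1 .sk) (.nx 921 32769 (.lg 0 false 2 73 73 17 0 144)
  (.nr 922 16385 (.lg 0 false 1 73 73 17 0 72) .out))))) .out) .out))) (.na 936 241 (.nx 935
  1048577 (.nr 934 1048577 (.nr 926 240 .s1 (.nx 928 191 (.nr 927 2359 (.l1 (.ls 41 31 155)) (.l1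
  .sk)) (.nx 929 192 (.l1 .sk) (.nr 932 65537 (.nx 930 131073 (.lg 0 true 1 89 97 41 0 65520) (.nr
  931 1025 (.lg 0 true 1 67 73 41 0 720) .out)) (.nx 933 16385 (.lg 0 false 1 97 101 41 0 65520)
  .out))))) .out) .out) (.na 946 243 (.nx 945 1048577 (.nr 944 1048577 (.nr 937 241 .s1 (.nx 939
  191 (.nr 938 2378 (.l1 (.ls 17 17 154)) (.l1 .sk)) (.nx 940 192 (.l1 .sk) (.nx 942 32769 (.lg 0
  false 2 73 73 17 0 144) (.nr 943 16385 (.lg 0 false 1 73 73 17 0 72) .out))))) .out) .out) (.nx
  955 1048577 (.nr 954 1048577 (.nr 947 243 .s1 (.nx 950 192 (.nx 949 191 (.nr 948 2447 (.l1 (.ls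
  17 19 153)) (.l1 .sk)) (.l1 .sk)) (.nx 952 32769 (.lg 0 false 2 73 73 23 0 144) (.nr 953 16385
  (.lg 0 false 1 73 73 19 0 72) .out)))) .out) .out)))) (.na 986 256 (.na 965 251 (.nx 964 1048577
  (.nr 963 1048577 (.nr 957 250 .s1 (.nx 960 192 (.nx 959 191 (.nr 958 2457 (.l1 (.ls 19 29 148))
  (.l1 .sk)) (.l1 .sk)) (.nx 961 32769 (.lg 0 true 1 83 83 29 0 720) (.nr 962 16385 (.lg 0 false 1
  79 79 29 0 720) .out)))) .out) .out) (.na 975 255 (.nx 974 1048577 (.nr 973 1048577 (.nr 966 251
  .s1 (.nx 969 192 (.nx 968 191 (.nr 967 2496 (.l1 (.ls 17 17 148)) (.l1 .sk)) (.l1 .sk)) (.nx 971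
  32769 (.lg 0 false 2 73 73 17 0 144) (.nr 972 16385 (.lg 0 false 1 73 73 17 0 720) .out)))) .out)
  .out) (.nx 985 1048577 (.nr 984 1048577 (.nr 976 255 .s1 (.nr 980 65537 (.nx 977 324 (.l1 (.ls 59
  31 414)) (.nx 978 131073 (.lg 0 true 1 83 89 31 0 720) (.nr 979 1025 (.lg 0 true 1 67 71 31 0
  360) .out))) (.nx 982 192 (.nx 981 191 (.l1 .sk) (.l1 .sk)) (.nx 983 16385 (.lg 0 false 1 83 89
  31 0 360) .out)))) .out) .out))) (.na 996 257 (.nx 995 1048577 (.nr 994 1482912 (.nr 987 256 .s1
  (.nx 988 257 (.l1 (.ls 71 29 261)) (.nr 993 1048577 (.nr 991 65537 (.nx 989 131073 (.lg 0 true 1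
  73 73 29 0 144) (.nr 990 2049 (.lg 0 true 1 61 61 29 0 144) .out)) (.nx 992 20644 (.lg 0 false 1
  79 79 29 0 144) .out)) .out))) .out) .out) (.na 1493 363 (.nx 1492 1048577 (.nr 1491 1482912 (.nr
  997 257 .s1 (.nx 1105 192 (.nx 1104 191 (.nr 1103 3553 (.la (.ls 37 19 144)) (.l1 .sk)) (.l1
  .sk)) (.nx 1170 257 (.lx (.lp 83 17 91)) (.nr 1490 1048577 (.nx 1276 20644 (.la (.lg 0 false 1 79
  79 23 0)) (.nr 1489 32769 (.nx 1382 131073 (.la (.lg 0 true 1 71 71 23 0)) (.nr 1488 2049 (.la
  (.lg 0 true 1 67 67 23 0)) .out)) .out)) .out)))) .out) .out) (.nx 1944 1048577 (.nr 1943 1482912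
  (.nr 1494 363 .s1 (.nx 1793 20644 (.nx 1643 257 (.la (.ls 79 23 184)) (.nr 1792 1048577 (.la (.lg
  0 false 1 73 73 29 0)) .out)) (.nr 1942 32769 (.la (.lg 2 true 1 71 71 29 275866)) .out))) .out)
  .out))))))))

theorem c57 :
    OkQ ckI L10 223 212 1099511627776 0 34359738368 1 1099511627776 ∧
    OkQ ckI L9 191 78 512 0 34359738368 1 1099511627776 := by
  refine ⟨?_, ?_⟩
  · refine fin 24 23512 T57_0 ?_
    refine jn 8 (by decide +kernel) ?_
    refine jn 19 (by decide +kernel) ?_
    refine jn 32 (by decide +kernel) ?_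
    refine jn 47 (by decide +kernel) ?_
    refine jn 55 (by decide +kernel) ?_
    refine jn 58 (by decide +kernel) ?_
    refine jn 76 (by decide +kernel) ?_
    refine jn 80 (by decide +kernel) ?_
    refine jn 83 (by decide +kernel) ?_
    refine jn 94 (by decide +kernel) ?_
    refine jn 107 (by decide +kernel) ?_
    refine jn 124 (by decide +kernel) ?_
    refine jn 128 (by decide +kernel) ?_
    refine jn 131 (by decide +kernel) ?_
    refine jn 154 (by decide +kernel) ?_
    refine jn 165 (by decide +kernel) ?_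
    refine jn 186 (by decide +kernel) ?_
    refine jn 210 (by decide +kernel) ?_
    refine jn 242 (by decide +kernel) ?_
    refine jn 263 (by decide +kernel) ?_
    refine jn 281 (by decide +kernel) ?_
    refine jn 284 (by decide +kernel) ?_
    refine jn 288 (by decide +kernel) ?_
    refine jn 294 (by decide +kernel) ?_
    refine jn 295 (by decide +kernel) ?_
    refine jn 305 (by decide +kernel) ?_
    refine jn 309 (by decide +kernel) ?_
    refine jn 311 (by decide +kernel) ?_
    refine jn 318 (by decide +kernel) ?_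
    refine jn 319 (by decide +kernel) ?_
    refine jn 326 (by decide +kernel) ?_
    refine jn 327 (by decide +kernel) ?_
    refine jn 345 (by decide +kernel) ?_
    refine jn 350 (by decide +kernel) ?_
    refine jn 351 (by decide +kernel) ?_
    refine jn 354 (by decide +kernel) ?_
    refine jn 366 (by decide +kernel) ?_
    refine jn 367 (by decide +kernel) ?_
    refine jn 375 (by decide +kernel) ?_
    refine jn 380 (by decide +kernel) ?_
    refine jn 383 (by decide +kernel) ?_
    refine jn 387 (by decide +kernel) ?_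
    refine jn 400 (by decide +kernel) ?_
    refine jn 406 (by decide +kernel) ?_
    refine jn 415 (by decide +kernel) ?_
    refine jn 424 (by decide +kernel) ?_
    refine jn 429 (by decide +kernel) ?_
    refine jn 432 (by decide +kernel) ?_
    refine jn 451 (by decide +kernel) ?_
    refine jn 456 (by decide +kernel) ?_
    refine jn 457 (by decide +kernel) ?_
    refine jn 472 (by decide +kernel) ?_
    refine jn 477 (by decide +kernel) ?_
    refine jn 487 (by decide +kernel) ?_
    refine jn 493 (by decide +kernel) ?_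
    refine jn 506 (by decide +kernel) ?_
    refine jn 515 (by decide +kernel) ?_
    refine jn 523 (by decide +kernel) ?_
    refine jn 530 (by decide +kernel) ?_
    refine jn 538 (by decide +kernel) ?_
    refine jn 557 (by decide +kernel) ?_
    refine jn 563 (by decide +kernel) ?_
    refine jn 578 (by decide +kernel) ?_
    refine jn 583 (by decide +kernel) ?_
    refine jn 593 (by decide +kernel) ?_
    refine jn 615 (by decide +kernel) ?_
    refine jn 645 (by decide +kernel) ?_
    refine jn 687 (by decide +kernel) ?_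
    refine jn 715 (by decide +kernel) ?_
    refine jn 747 (by decide +kernel) ?_
    refine jn 766 (by decide +kernel) ?_
    refine jn 767 (by decide +kernel) ?_
    refine jn 782 (by decide +kernel) ?_
    refine jn 784 (by decide +kernel) ?_
    refine jn 794 (by decide +kernel) ?_
    refine jn 809 (by decide +kernel) ?_
    refine jn 814 (by decide +kernel) ?_
    refine jn 823 (by decide +kernel) ?_
    refine jn 826 (by decide +kernel) ?_
    refine jn 838 (by decide +kernel) ?_
    refine jn 844 (by decide +kernel) ?_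
    refine jn 854 (by decide +kernel) ?_
    refine jn 866 (by decide +kernel) ?_
    refine jn 868 (by decide +kernel) ?_
    refine jn 877 (by decide +kernel) ?_
    refine jn 886 (by decide +kernel) ?_
    refine jn 889 (by decide +kernel) ?_
    refine jn 899 (by decide +kernel) ?_
    refine jn 910 (by decide +kernel) ?_
    refine jn 915 (by decide +kernel) ?_
    refine jn 928 (by decide +kernel) ?_
    refine jn 933 (by decide +kernel) ?_
    refine jn 945 (by decide +kernel) ?_
    refine jn 963 (by decide +kernel) ?_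
    refine jn 973 (by decide +kernel) ?_
    refine jn 987 (by decide +kernel) ?_
    refine jn 1002 (by decide +kernel) ?_
    refine jn 1015 (by decide +kernel) ?_
    refine jn 1021 (by decide +kernel) ?_
    refine jn 1035 (by decide +kernel) ?_
    refine jn 1047 (by decide +kernel) ?_
    refine jn 1059 (by decide +kernel) ?_
    refine jn 1067 (by decide +kernel) ?_
    refine jn 1082 (by decide +kernel) ?_
    refine jn 1094 (by decide +kernel) ?_
    refine jn 1112 (by decide +kernel) ?_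
    refine jn 1122 (by decide +kernel) ?_
    refine jn 1136 (by decide +kernel) ?_
    refine jn 1151 (by decide +kernel) ?_
    refine jn 1164 (by decide +kernel) ?_
    refine jn 1170 (by decide +kernel) ?_
    refine jn 1184 (by decide +kernel) ?_
    refine jn 1196 (by decide +kernel) ?_
    refine jn 1227 (by decide +kernel) ?_
    refine jn 1337 (by decide +kernel) ?_
    refine jn 1431 (by decide +kernel) ?_
    refine jn 1441 (by decide +kernel) ?_
    refine jn 1449 (by decide +kernel) ?_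
    refine jn 1450 (by decide +kernel) ?_
    refine jn 1464 (by decide +kernel) ?_
    refine jn 1473 (by decide +kernel) ?_
    refine jn 1491 (by decide +kernel) ?_
    refine jn 1498 (by decide +kernel) ?_
    refine jn 1501 (by decide +kernel) ?_
    refine jn 1506 (by decide +kernel) ?_
    refine jn 1509 (by decide +kernel) ?_
    refine jn 1516 (by decide +kernel) ?_
    refine jn 1525 (by decide +kernel) ?_
    refine jn 1534 (by decide +kernel) ?_
    refine jn 1546 (by decide +kernel) ?_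
    refine jn 1563 (by decide +kernel) ?_
    refine jn 1573 (by decide +kernel) ?_
    refine jn 1575 (by decide +kernel) ?_
    refine jn 1581 (by decide +kernel) ?_
    refine jn 1594 (by decide +kernel) ?_
    refine jn 1605 (by decide +kernel) ?_
    refine jn 1611 (by decide +kernel) ?_
    refine jn 1618 (by decide +kernel) ?_
    refine jn 1624 (by decide +kernel) ?_
    refine jn 1633 (by decide +kernel) ?_
    refine jn 1639 (by decide +kernel) ?_
    refine jn 1642 (by decide +kernel) ?_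
    refine jn 1648 (by decide +kernel) ?_
    refine jn 1657 (by decide +kernel) ?_
    refine jn 1662 (by decide +kernel) ?_
    refine jn 1663 (by decide +kernel) ?_
    refine jn 1677 (by decide +kernel) ?_
    refine jn 1686 (by decide +kernel) ?_
    refine jn 1696 (by decide +kernel) ?_
    refine jn 1707 (by decide +kernel) ?_
    refine jn 1711 (by decide +kernel) ?_
    refine jn 1714 (by decide +kernel) ?_
    refine jn 1719 (by decide +kernel) ?_
    refine jn 1722 (by decide +kernel) ?_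
    refine jn 1729 (by decide +kernel) ?_
    refine jn 1738 (by decide +kernel) ?_
    refine jn 1747 (by decide +kernel) ?_
    refine jn 1759 (by decide +kernel) ?_
    refine jn 1773 (by decide +kernel) ?_
    refine jn 1777 (by decide +kernel) ?_
    refine jn 1786 (by decide +kernel) ?_
    refine jn 1788 (by decide +kernel) ?_
    refine jn 1794 (by decide +kernel) ?_
    refine jn 1807 (by decide +kernel) ?_
    refine jn 1818 (by decide +kernel) ?_
    refine jn 1824 (by decide +kernel) ?_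
    refine jn 1828 (by decide +kernel) ?_
    refine jn 1833 (by decide +kernel) ?_
    refine jn 1837 (by decide +kernel) ?_
    refine jn 1842 (by decide +kernel) ?_
    refine jn 1846 (by decide +kernel) ?_
    refine jn 1852 (by decide +kernel) ?_
    refine jn 1868 (by decide +kernel) ?_
    refine jn 1913 (by decide +kernel) ?_
    refine jn 1942 (by decide +kernel) ?_
    refine jn 1978 (by decide +kernel) ?_
    refine jn 2015 (by decide +kernel) ?_
    refine jn 2042 (by decide +kernel) ?_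
    refine jn 2086 (by decide +kernel) ?_
    refine jn 2119 (by decide +kernel) ?_
    refine jn 2153 (by decide +kernel) ?_
    refine jn 2167 (by decide +kernel) ?_
    refine jn 2185 (by decide +kernel) ?_
    refine jn 2196 (by decide +kernel) ?_
    refine jn 2217 (by decide +kernel) ?_
    refine jn 2230 (by decide +kernel) ?_
    refine jn 2241 (by decide +kernel) ?_
    refine jn 2245 (by decide +kernel) ?_
    refine jn 2254 (by decide +kernel) ?_
    refine jn 2277 (by decide +kernel) ?_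
    refine jn 2292 (by decide +kernel) ?_
    refine jn 2305 (by decide +kernel) ?_
    refine jn 2320 (by decide +kernel) ?_
    refine jn 2329 (by decide +kernel) ?_
    refine jn 2340 (by decide +kernel) ?_
    refine jn 2355 (by decide +kernel) ?_
    refine jn 2362 (by decide +kernel) ?_
    refine jn 2385 (by decide +kernel) ?_
    refine jn 2386 (by decide +kernel) ?_
    refine jn 2406 (by decide +kernel) ?_
    refine jn 2425 (by decide +kernel) ?_
    refine jn 2437 (by decide +kernel) ?_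
    refine jn 2449 (by decide +kernel) ?_
    refine jn 2455 (by decide +kernel) ?_
    refine jn 2485 (by decide +kernel) ?_
    refine jn 2501 (by decide +kernel) ?_
    refine jn 2528 (by decide +kernel) ?_
    refine jn 2561 (by decide +kernel) ?_
    refine jn 2593 (by decide +kernel) ?_
    refine jn 2624 (by decide +kernel) ?_
    refine jn 2668 (by decide +kernel) ?_
    refine jn 2705 (by decide +kernel) ?_
    refine jn 2749 (by decide +kernel) ?_
    refine jn 2791 (by decide +kernel) ?_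
    refine jn 2825 (by decide +kernel) ?_
    refine jn 2858 (by decide +kernel) ?_
    refine jn 2885 (by decide +kernel) ?_
    refine jn 2898 (by decide +kernel) ?_
    refine jn 2916 (by decide +kernel) ?_
    refine jn 2926 (by decide +kernel) ?_
    refine jn 2927 (by decide +kernel) ?_
    refine jn 2953 (by decide +kernel) ?_
    refine jn 2971 (by decide +kernel) ?_
    refine jn 2986 (by decide +kernel) ?_
    refine jn 3010 (by decide +kernel) ?_
    refine jn 3018 (by decide +kernel) ?_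
    refine jn 3033 (by decide +kernel) ?_
    refine jn 3048 (by decide +kernel) ?_
    refine jn 3066 (by decide +kernel) ?_
    refine jn 3078 (by decide +kernel) ?_
    refine jn 3108 (by decide +kernel) ?_
    refine jn 3121 (by decide +kernel) ?_
    refine jn 3141 (by decide +kernel) ?_
    refine jn 3156 (by decide +kernel) ?_
    refine jn 3178 (by decide +kernel) ?_
    refine jn 3190 (by decide +kernel) ?_
    refine jn 3225 (by decide +kernel) ?_
    refine jn 3238 (by decide +kernel) ?_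
    refine jn 3250 (by decide +kernel) ?_
    refine jn 3268 (by decide +kernel) ?_
    refine jn 3285 (by decide +kernel) ?_
    refine jn 3298 (by decide +kernel) ?_
    refine jn 3310 (by decide +kernel) ?_
    refine jn 3337 (by decide +kernel) ?_
    refine jn 3383 (by decide +kernel) ?_
    refine jn 3434 (by decide +kernel) ?_
    refine jn 3463 (by decide +kernel) ?_
    refine jn 3493 (by decide +kernel) ?_
    refine jn 3553 (by decide +kernel) ?_
    refine jn 3592 (by decide +kernel) ?_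
    refine jn 3629 (by decide +kernel) ?_
    refine jn 3668 (by decide +kernel) ?_
    refine jn 3718 (by decide +kernel) ?_
    refine jn 3770 (by decide +kernel) ?_
    refine jn 3800 (by decide +kernel) ?_
    refine jn 3862 (by decide +kernel) ?_
    refine jn 3902 (by decide +kernel) ?_
    refine jn 3931 (by decide +kernel) ?_
    refine jn 3967 (by decide +kernel) ?_
    refine jn 3991 (by decide +kernel) ?_
    refine jn 4033 (by decide +kernel) ?_
    refine jn 4056 (by decide +kernel) ?_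
    refine jn 4081 (by decide +kernel) ?_
    refine jn 4089 (by decide +kernel) ?_
    refine jn 4107 (by decide +kernel) ?_
    refine jn 4152 (by decide +kernel) ?_
    refine jn 4174 (by decide +kernel) ?_
    refine jn 4201 (by decide +kernel) ?_
    refine jn 4222 (by decide +kernel) ?_
    refine jn 4257 (by decide +kernel) ?_
    refine jn 4281 (by decide +kernel) ?_
    refine jn 4318 (by decide +kernel) ?_
    refine jn 4369 (by decide +kernel) ?_
    refine jn 4384 (by decide +kernel) ?_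
    refine jn 4432 (by decide +kernel) ?_
    refine jn 4462 (by decide +kernel) ?_
    refine jn 4497 (by decide +kernel) ?_
    refine jn 4525 (by decide +kernel) ?_
    refine jn 4541 (by decide +kernel) ?_
    refine jn 4552 (by decide +kernel) ?_
    refine jn 4577 (by decide +kernel) ?_
    refine jn 4597 (by decide +kernel) ?_
    refine jn 4606 (by decide +kernel) ?_
    refine jn 4642 (by decide +kernel) ?_
    refine jn 4657 (by decide +kernel) ?_
    refine jn 4685 (by decide +kernel) ?_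
    refine jn 4706 (by decide +kernel) ?_
    refine jn 4730 (by decide +kernel) ?_
    refine jn 4738 (by decide +kernel) ?_
    refine jn 4765 (by decide +kernel) ?_
    refine jn 4775 (by decide +kernel) ?_
    refine jn 4793 (by decide +kernel) ?_
    refine jn 4820 (by decide +kernel) ?_
    refine jn 4837 (by decide +kernel) ?_
    refine jn 4865 (by decide +kernel) ?_
    refine jn 4877 (by decide +kernel) ?_
    refine jn 4882 (by decide +kernel) ?_
    refine jn 4912 (by decide +kernel) ?_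
    refine jn 4951 (by decide +kernel) ?_
    refine jn 4972 (by decide +kernel) ?_
    refine jn 4996 (by decide +kernel) ?_
    refine jn 5011 (by decide +kernel) ?_
    refine jn 5042 (by decide +kernel) ?_
    refine jn 5053 (by decide +kernel) ?_
    refine jn 5066 (by decide +kernel) ?_
    refine jn 5101 (by decide +kernel) ?_
    refine jn 5110 (by decide +kernel) ?_
    refine jn 5135 (by decide +kernel) ?_
    refine jn 5176 (by decide +kernel) ?_
    refine jn 5201 (by decide +kernel) ?_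
    refine jn 5221 (by decide +kernel) ?_
    refine jn 5245 (by decide +kernel) ?_
    refine jn 5261 (by decide +kernel) ?_
    refine jn 5281 (by decide +kernel) ?_
    refine jn 5297 (by decide +kernel) ?_
    refine jn 5326 (by decide +kernel) ?_
    refine jn 5348 (by decide +kernel) ?_
    refine jn 5369 (by decide +kernel) ?_
    refine jn 5614 (by decide +kernel) ?_
    refine jn 5664 (by decide +kernel) ?_
    refine jn 5727 (by decide +kernel) ?_
    refine jn 5779 (by decide +kernel) ?_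
    refine jn 5848 (by decide +kernel) ?_
    refine jn 5892 (by decide +kernel) ?_
    refine jn 5949 (by decide +kernel) ?_
    refine jn 6030 (by decide +kernel) ?_
    refine jn 6078 (by decide +kernel) ?_
    refine jn 6135 (by decide +kernel) ?_
    refine jn 6187 (by decide +kernel) ?_
    refine jn 6259 (by decide +kernel) ?_
    refine jn 6300 (by decide +kernel) ?_
    refine jn 6367 (by decide +kernel) ?_
    refine jn 6420 (by decide +kernel) ?_
    refine jn 6495 (by decide +kernel) ?_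
    refine jn 6549 (by decide +kernel) ?_
    refine jn 6607 (by decide +kernel) ?_
    refine jn 6679 (by decide +kernel) ?_
    refine jn 6735 (by decide +kernel) ?_
    refine jn 6784 (by decide +kernel) ?_
    refine jn 7016 (by decide +kernel) ?_
    refine jn 7067 (by decide +kernel) ?_
    refine jn 7139 (by decide +kernel) ?_
    refine jn 7185 (by decide +kernel) ?_
    refine jn 7260 (by decide +kernel) ?_
    refine jn 7322 (by decide +kernel) ?_
    refine jn 7371 (by decide +kernel) ?_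
    refine jn 7445 (by decide +kernel) ?_
    refine jn 7511 (by decide +kernel) ?_
    refine jn 7557 (by decide +kernel) ?_
    refine jn 7625 (by decide +kernel) ?_
    refine jn 7671 (by decide +kernel) ?_
    refine jn 7727 (by decide +kernel) ?_
    refine jn 7787 (by decide +kernel) ?_
    refine jn 7859 (by decide +kernel) ?_
    refine jn 7911 (by decide +kernel) ?_
    refine jn 7977 (by decide +kernel) ?_
    refine jn 8040 (by decide +kernel) ?_
    refine jn 8091 (by decide +kernel) ?_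
    refine jn 8157 (by decide +kernel) ?_
    refine jn 8235 (by decide +kernel) ?_
    refine jn 8307 (by decide +kernel) ?_
    refine jn 8376 (by decide +kernel) ?_
    refine jn 8439 (by decide +kernel) ?_
    refine jn 8499 (by decide +kernel) ?_
    refine jn 8547 (by decide +kernel) ?_
    refine jn 8600 (by decide +kernel) ?_
    refine jn 8667 (by decide +kernel) ?_
    refine jn 8719 (by decide +kernel) ?_
    refine jn 8943 (by decide +kernel) ?_
    refine jn 9180 (by decide +kernel) ?_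
    refine jn 9274 (by decide +kernel) ?_
    refine jn 9400 (by decide +kernel) ?_
    refine jn 9499 (by decide +kernel) ?_
    refine jn 9612 (by decide +kernel) ?_
    refine jn 9714 (by decide +kernel) ?_
    refine jn 9835 (by decide +kernel) ?_
    refine jn 9961 (by decide +kernel) ?_
    refine jn 10069 (by decide +kernel) ?_
    refine jn 10188 (by decide +kernel) ?_
    refine jn 10288 (by decide +kernel) ?_
    refine jn 10414 (by decide +kernel) ?_
    refine jn 10524 (by decide +kernel) ?_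
    refine jn 10629 (by decide +kernel) ?_
    refine jn 10741 (by decide +kernel) ?_
    refine jn 10854 (by decide +kernel) ?_
    refine jn 10981 (by decide +kernel) ?_
    refine jn 11098 (by decide +kernel) ?_
    refine jn 11215 (by decide +kernel) ?_
    refine jn 11350 (by decide +kernel) ?_
    refine jn 11451 (by decide +kernel) ?_
    refine jn 11651 (by decide +kernel) ?_
    refine jn 11982 (by decide +kernel) ?_
    refine jn 12143 (by decide +kernel) ?_
    refine jn 12308 (by decide +kernel) ?_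
    refine jn 12405 (by decide +kernel) ?_
    refine jn 12513 (by decide +kernel) ?_
    refine jn 12607 (by decide +kernel) ?_
    refine jn 12682 (by decide +kernel) ?_
    refine jn 12758 (by decide +kernel) ?_
    refine jn 12841 (by decide +kernel) ?_
    refine jn 12911 (by decide +kernel) ?_
    refine jn 12983 (by decide +kernel) ?_
    refine jn 13039 (by decide +kernel) ?_
    refine jn 13094 (by decide +kernel) ?_
    refine jn 13141 (by decide +kernel) ?_
    refine jn 13194 (by decide +kernel) ?_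
    refine jn 13242 (by decide +kernel) ?_
    refine jn 13296 (by decide +kernel) ?_
    refine jn 13340 (by decide +kernel) ?_
    refine jn 13388 (by decide +kernel) ?_
    refine jn 13431 (by decide +kernel) ?_
    refine jn 13472 (by decide +kernel) ?_
    refine jn 13516 (by decide +kernel) ?_
    refine jn 13551 (by decide +kernel) ?_
    refine jn 13643 (by decide +kernel) ?_
    refine jn 14094 (by decide +kernel) ?_
    refine jn 14300 (by decide +kernel) ?_
    refine jn 14455 (by decide +kernel) ?_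
    refine jn 14580 (by decide +kernel) ?_
    refine jn 14721 (by decide +kernel) ?_
    refine jn 14852 (by decide +kernel) ?_
    refine jn 14937 (by decide +kernel) ?_
    refine jn 15029 (by decide +kernel) ?_
    refine jn 15122 (by decide +kernel) ?_
    refine jn 15196 (by decide +kernel) ?_
    refine jn 15274 (by decide +kernel) ?_
    refine jn 15345 (by decide +kernel) ?_
    refine jn 15408 (by decide +kernel) ?_
    refine jn 15466 (by decide +kernel) ?_
    refine jn 15519 (by decide +kernel) ?_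
    refine jn 15570 (by decide +kernel) ?_
    refine jn 15624 (by decide +kernel) ?_
    refine jn 16021 (by decide +kernel) ?_
    refine jn 16212 (by decide +kernel) ?_
    refine jn 16333 (by decide +kernel) ?_
    refine jn 16432 (by decide +kernel) ?_
    refine jn 16527 (by decide +kernel) ?_
    refine jn 16597 (by decide +kernel) ?_
    refine jn 16669 (by decide +kernel) ?_
    refine jn 16737 (by decide +kernel) ?_
    refine jn 16819 (by decide +kernel) ?_
    refine jn 16887 (by decide +kernel) ?_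
    refine jn 16947 (by decide +kernel) ?_
    refine jn 17007 (by decide +kernel) ?_
    refine jn 17061 (by decide +kernel) ?_
    refine jn 17126 (by decide +kernel) ?_
    refine jn 17181 (by decide +kernel) ?_
    refine jn 17228 (by decide +kernel) ?_
    refine jn 17288 (by decide +kernel) ?_
    refine jn 17335 (by decide +kernel) ?_
    refine jn 17383 (by decide +kernel) ?_
    refine jn 17429 (by decide +kernel) ?_
    refine jn 17479 (by decide +kernel) ?_
    refine jn 17527 (by decide +kernel) ?_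
    refine jn 17557 (by decide +kernel) ?_
    refine jn 17597 (by decide +kernel) ?_
    refine jn 17638 (by decide +kernel) ?_
    refine jn 17671 (by decide +kernel) ?_
    refine jn 18005 (by decide +kernel) ?_
    refine jn 18338 (by decide +kernel) ?_
    refine jn 18481 (by decide +kernel) ?_
    refine jn 18599 (by decide +kernel) ?_
    refine jn 18689 (by decide +kernel) ?_
    refine jn 18802 (by decide +kernel) ?_
    refine jn 18905 (by decide +kernel) ?_
    refine jn 18997 (by decide +kernel) ?_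
    refine jn 19076 (by decide +kernel) ?_
    refine jn 19145 (by decide +kernel) ?_
    refine jn 19225 (by decide +kernel) ?_
    refine jn 19283 (by decide +kernel) ?_
    refine jn 19354 (by decide +kernel) ?_
    refine jn 19431 (by decide +kernel) ?_
    refine jn 19515 (by decide +kernel) ?_
    refine jn 19582 (by decide +kernel) ?_
    refine jn 19641 (by decide +kernel) ?_
    refine jn 19695 (by decide +kernel) ?_
    refine jn 20103 (by decide +kernel) ?_
    refine jn 20529 (by decide +kernel) ?_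
    refine jn 20709 (by decide +kernel) ?_
    refine jn 20827 (by decide +kernel) ?_
    refine jn 20943 (by decide +kernel) ?_
    refine jn 21059 (by decide +kernel) ?_
    refine jn 21152 (by decide +kernel) ?_
    refine jn 21289 (by decide +kernel) ?_
    refine jn 21739 (by decide +kernel) ?_
    refine jn 22119 (by decide +kernel) ?_
    refine jn 22469 (by decide +kernel) ?_
    refine jn 22663 (by decide +kernel) ?_
    refine jn 22838 (by decide +kernel) ?_
    refine jn 22965 (by decide +kernel) ?_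
    exact je (by decide +kernel)
  · refine fin 72 1945 T57_1 ?_
    refine jn 9 (by decide +kernel) ?_
    refine jn 12 (by decide +kernel) ?_
    refine jn 15 (by decide +kernel) ?_
    refine jn 22 (by decide +kernel) ?_
    refine jn 32 (by decide +kernel) ?_
    refine jn 42 (by decide +kernel) ?_
    refine jn 43 (by decide +kernel) ?_
    refine jn 44 (by decide +kernel) ?_
    refine jn 45 (by decide +kernel) ?_
    refine jn 46 (by decide +kernel) ?_
    refine jn 47 (by decide +kernel) ?_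
    refine jn 48 (by decide +kernel) ?_
    refine jn 49 (by decide +kernel) ?_
    refine jn 62 (by decide +kernel) ?_
    refine jn 73 (by decide +kernel) ?_
    refine jn 78 (by decide +kernel) ?_
    refine jn 81 (by decide +kernel) ?_
    refine jn 93 (by decide +kernel) ?_
    refine jn 104 (by decide +kernel) ?_
    refine jn 110 (by decide +kernel) ?_
    refine jn 113 (by decide +kernel) ?_
    refine jn 126 (by decide +kernel) ?_
    refine jn 129 (by decide +kernel) ?_
    refine jn 139 (by decide +kernel) ?_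
    refine jn 140 (by decide +kernel) ?_
    refine jn 142 (by decide +kernel) ?_
    refine jn 146 (by decide +kernel) ?_
    refine jn 161 (by decide +kernel) ?_
    refine jn 170 (by decide +kernel) ?_
    refine jn 173 (by decide +kernel) ?_
    refine jn 182 (by decide +kernel) ?_
    refine jn 186 (by decide +kernel) ?_
    refine jn 201 (by decide +kernel) ?_
    refine jn 210 (by decide +kernel) ?_
    refine jn 211 (by decide +kernel) ?_
    refine jn 212 (by decide +kernel) ?_
    refine jn 213 (by decide +kernel) ?_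
    refine jn 214 (by decide +kernel) ?_
    refine jn 229 (by decide +kernel) ?_
    refine jn 239 (by decide +kernel) ?_
    refine jn 242 (by decide +kernel) ?_
    refine jn 256 (by decide +kernel) ?_
    refine jn 266 (by decide +kernel) ?_
    refine jn 269 (by decide +kernel) ?_
    refine jn 280 (by decide +kernel) ?_
    refine jn 291 (by decide +kernel) ?_
    refine jn 300 (by decide +kernel) ?_
    refine jn 301 (by decide +kernel) ?_
    refine jn 304 (by decide +kernel) ?_
    refine jn 305 (by decide +kernel) ?_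
    refine jn 306 (by decide +kernel) ?_
    refine jn 307 (by decide +kernel) ?_
    refine jn 310 (by decide +kernel) ?_
    refine jn 311 (by decide +kernel) ?_
    refine jn 323 (by decide +kernel) ?_
    refine jn 333 (by decide +kernel) ?_
    refine jn 336 (by decide +kernel) ?_
    refine jn 349 (by decide +kernel) ?_
    refine jn 356 (by decide +kernel) ?_
    refine jn 363 (by decide +kernel) ?_
    refine jn 378 (by decide +kernel) ?_
    refine jn 389 (by decide +kernel) ?_
    refine jn 396 (by decide +kernel) ?_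
    refine jn 399 (by decide +kernel) ?_
    refine jn 401 (by decide +kernel) ?_
    refine jn 403 (by decide +kernel) ?_
    refine jn 412 (by decide +kernel) ?_
    refine jn 417 (by decide +kernel) ?_
    refine jn 427 (by decide +kernel) ?_
    refine jn 428 (by decide +kernel) ?_
    refine jn 429 (by decide +kernel) ?_
    refine jn 431 (by decide +kernel) ?_
    refine jn 445 (by decide +kernel) ?_
    refine jn 457 (by decide +kernel) ?_
    refine jn 465 (by decide +kernel) ?_
    refine jn 471 (by decide +kernel) ?_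
    refine jn 480 (by decide +kernel) ?_
    refine jn 482 (by decide +kernel) ?_
    refine jn 493 (by decide +kernel) ?_
    refine jn 502 (by decide +kernel) ?_
    refine jn 505 (by decide +kernel) ?_
    refine jn 507 (by decide +kernel) ?_
    refine jn 520 (by decide +kernel) ?_
    refine jn 534 (by decide +kernel) ?_
    refine jn 549 (by decide +kernel) ?_
    refine jn 561 (by decide +kernel) ?_
    refine jn 572 (by decide +kernel) ?_
    refine jn 581 (by decide +kernel) ?_
    refine jn 586 (by decide +kernel) ?_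
    refine jn 596 (by decide +kernel) ?_
    refine jn 598 (by decide +kernel) ?_
    refine jn 606 (by decide +kernel) ?_
    refine jn 610 (by decide +kernel) ?_
    refine jn 613 (by decide +kernel) ?_
    refine jn 630 (by decide +kernel) ?_
    refine jn 634 (by decide +kernel) ?_
    refine jn 646 (by decide +kernel) ?_
    refine jn 660 (by decide +kernel) ?_
    refine jn 669 (by decide +kernel) ?_
    refine jn 671 (by decide +kernel) ?_
    refine jn 683 (by decide +kernel) ?_
    refine jn 697 (by decide +kernel) ?_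
    refine jn 706 (by decide +kernel) ?_
    refine jn 707 (by decide +kernel) ?_
    refine jn 710 (by decide +kernel) ?_
    refine jn 719 (by decide +kernel) ?_
    refine jn 728 (by decide +kernel) ?_
    refine jn 729 (by decide +kernel) ?_
    refine jn 732 (by decide +kernel) ?_
    refine jn 748 (by decide +kernel) ?_
    refine jn 754 (by decide +kernel) ?_
    refine jn 762 (by decide +kernel) ?_
    refine jn 765 (by decide +kernel) ?_
    refine jn 783 (by decide +kernel) ?_
    refine jn 797 (by decide +kernel) ?_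
    refine jn 804 (by decide +kernel) ?_
    refine jn 808 (by decide +kernel) ?_
    refine jn 811 (by decide +kernel) ?_
    refine jn 829 (by decide +kernel) ?_
    refine jn 841 (by decide +kernel) ?_
    refine jn 853 (by decide +kernel) ?_
    refine jn 866 (by decide +kernel) ?_
    refine jn 876 (by decide +kernel) ?_
    refine jn 888 (by decide +kernel) ?_
    refine jn 899 (by decide +kernel) ?_
    refine jn 910 (by decide +kernel) ?_
    refine jn 922 (by decide +kernel) ?_
    refine jn 926 (by decide +kernel) ?_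
    refine jn 927 (by decide +kernel) ?_
    refine jn 929 (by decide +kernel) ?_
    refine jn 930 (by decide +kernel) ?_
    refine jn 931 (by decide +kernel) ?_
    refine jn 933 (by decide +kernel) ?_
    refine jn 953 (by decide +kernel) ?_
    refine jn 972 (by decide +kernel) ?_
    refine jn 978 (by decide +kernel) ?_
    refine jn 983 (by decide +kernel) ?_
    refine jn 992 (by decide +kernel) ?_
    refine jn 1012 (by decide +kernel) ?_
    refine jn 1028 (by decide +kernel) ?_
    refine jn 1040 (by decide +kernel) ?_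
    refine jn 1052 (by decide +kernel) ?_
    refine jn 1053 (by decide +kernel) ?_
    refine jn 1075 (by decide +kernel) ?_
    refine jn 1085 (by decide +kernel) ?_
    refine jn 1100 (by decide +kernel) ?_
    refine jn 1101 (by decide +kernel) ?_
    refine jn 1165 (by decide +kernel) ?_
    refine jn 1173 (by decide +kernel) ?_
    refine jn 1174 (by decide +kernel) ?_
    refine jn 1182 (by decide +kernel) ?_
    refine jn 1184 (by decide +kernel) ?_
    refine jn 1185 (by decide +kernel) ?_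
    refine jn 1186 (by decide +kernel) ?_
    refine jn 1189 (by decide +kernel) ?_
    refine jn 1190 (by decide +kernel) ?_
    refine jn 1201 (by decide +kernel) ?_
    refine jn 1202 (by decide +kernel) ?_
    refine jn 1206 (by decide +kernel) ?_
    refine jn 1211 (by decide +kernel) ?_
    refine jn 1213 (by decide +kernel) ?_
    refine jn 1219 (by decide +kernel) ?_
    refine jn 1224 (by decide +kernel) ?_
    refine jn 1225 (by decide +kernel) ?_
    refine jn 1226 (by decide +kernel) ?_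
    refine jn 1233 (by decide +kernel) ?_
    refine jn 1234 (by decide +kernel) ?_
    refine jn 1238 (by decide +kernel) ?_
    refine jn 1240 (by decide +kernel) ?_
    refine jn 1251 (by decide +kernel) ?_
    refine jn 1253 (by decide +kernel) ?_
    refine jn 1257 (by decide +kernel) ?_
    refine jn 1258 (by decide +kernel) ?_
    refine jn 1260 (by decide +kernel) ?_
    refine jn 1266 (by decide +kernel) ?_
    refine jn 1273 (by decide +kernel) ?_
    refine jn 1274 (by decide +kernel) ?_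
    refine jn 1279 (by decide +kernel) ?_
    refine jn 1282 (by decide +kernel) ?_
    refine jn 1289 (by decide +kernel) ?_
    refine jn 1291 (by decide +kernel) ?_
    refine jn 1295 (by decide +kernel) ?_
    refine jn 1300 (by decide +kernel) ?_
    refine jn 1307 (by decide +kernel) ?_
    refine jn 1310 (by decide +kernel) ?_
    refine jn 1317 (by decide +kernel) ?_
    refine jn 1319 (by decide +kernel) ?_
    refine jn 1328 (by decide +kernel) ?_
    refine jn 1331 (by decide +kernel) ?_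
    refine jn 1332 (by decide +kernel) ?_
    refine jn 1340 (by decide +kernel) ?_
    refine jn 1345 (by decide +kernel) ?_
    refine jn 1357 (by decide +kernel) ?_
    refine jn 1363 (by decide +kernel) ?_
    refine jn 1364 (by decide +kernel) ?_
    refine jn 1368 (by decide +kernel) ?_
    refine jn 1373 (by decide +kernel) ?_
    refine jn 1379 (by decide +kernel) ?_
    refine jn 1380 (by decide +kernel) ?_
    refine jn 1385 (by decide +kernel) ?_
    refine jn 1393 (by decide +kernel) ?_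
    refine jn 1396 (by decide +kernel) ?_
    refine jn 1401 (by decide +kernel) ?_
    refine jn 1406 (by decide +kernel) ?_
    refine jn 1413 (by decide +kernel) ?_
    refine jn 1416 (by decide +kernel) ?_
    refine jn 1423 (by decide +kernel) ?_
    refine jn 1425 (by decide +kernel) ?_
    refine jn 1434 (by decide +kernel) ?_
    refine jn 1437 (by decide +kernel) ?_
    refine jn 1438 (by decide +kernel) ?_
    refine jn 1446 (by decide +kernel) ?_
    refine jn 1451 (by decide +kernel) ?_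
    refine jn 1463 (by decide +kernel) ?_
    refine jn 1469 (by decide +kernel) ?_
    refine jn 1470 (by decide +kernel) ?_
    refine jn 1474 (by decide +kernel) ?_
    refine jn 1479 (by decide +kernel) ?_
    refine jn 1485 (by decide +kernel) ?_
    refine jn 1486 (by decide +kernel) ?_
    refine jn 1529 (by decide +kernel) ?_
    refine jn 1559 (by decide +kernel) ?_
    refine jn 1594 (by decide +kernel) ?_
    refine jn 1633 (by decide +kernel) ?_
    refine jn 1648 (by decide +kernel) ?_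
    refine jn 1655 (by decide +kernel) ?_
    refine jn 1664 (by decide +kernel) ?_
    refine jn 1666 (by decide +kernel) ?_
    refine jn 1668 (by decide +kernel) ?_
    refine jn 1670 (by decide +kernel) ?_
    refine jn 1671 (by decide +kernel) ?_
    refine jn 1675 (by decide +kernel) ?_
    refine jn 1680 (by decide +kernel) ?_
    refine jn 1682 (by decide +kernel) ?_
    refine jn 1688 (by decide +kernel) ?_
    refine jn 1689 (by decide +kernel) ?_
    refine jn 1694 (by decide +kernel) ?_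
    refine jn 1696 (by decide +kernel) ?_
    refine jn 1701 (by decide +kernel) ?_
    refine jn 1708 (by decide +kernel) ?_
    refine jn 1711 (by decide +kernel) ?_
    refine jn 1712 (by decide +kernel) ?_
    refine jn 1713 (by decide +kernel) ?_
    refine jn 1722 (by decide +kernel) ?_
    refine jn 1727 (by decide +kernel) ?_
    refine jn 1730 (by decide +kernel) ?_
    refine jn 1739 (by decide +kernel) ?_
    refine jn 1740 (by decide +kernel) ?_
    refine jn 1741 (by decide +kernel) ?_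
    refine jn 1748 (by decide +kernel) ?_
    refine jn 1752 (by decide +kernel) ?_
    refine jn 1754 (by decide +kernel) ?_
    refine jn 1760 (by decide +kernel) ?_
    refine jn 1761 (by decide +kernel) ?_
    refine jn 1769 (by decide +kernel) ?_
    refine jn 1780 (by decide +kernel) ?_
    refine jn 1787 (by decide +kernel) ?_
    refine jn 1790 (by decide +kernel) ?_
    refine jn 1798 (by decide +kernel) ?_
    refine jn 1799 (by decide +kernel) ?_
    refine jn 1812 (by decide +kernel) ?_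
    refine jn 1814 (by decide +kernel) ?_
    refine jn 1816 (by decide +kernel) ?_
    refine jn 1817 (by decide +kernel) ?_
    refine jn 1818 (by decide +kernel) ?_
    refine jn 1820 (by decide +kernel) ?_
    refine jn 1821 (by decide +kernel) ?_
    refine jn 1824 (by decide +kernel) ?_
    refine jn 1825 (by decide +kernel) ?_
    refine jn 1827 (by decide +kernel) ?_
    refine jn 1830 (by decide +kernel) ?_
    refine jn 1832 (by decide +kernel) ?_
    refine jn 1835 (by decide +kernel) ?_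
    refine jn 1838 (by decide +kernel) ?_
    refine jn 1839 (by decide +kernel) ?_
    refine jn 1842 (by decide +kernel) ?_
    refine jn 1844 (by decide +kernel) ?_
    refine jn 1846 (by decide +kernel) ?_
    refine jn 1849 (by decide +kernel) ?_
    refine jn 1855 (by decide +kernel) ?_
    refine jn 1858 (by decide +kernel) ?_
    refine jn 1860 (by decide +kernel) ?_
    refine jn 1861 (by decide +kernel) ?_
    refine jn 1862 (by decide +kernel) ?_
    refine jn 1863 (by decide +kernel) ?_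
    refine jn 1866 (by decide +kernel) ?_
    refine jn 1872 (by decide +kernel) ?_
    refine jn 1876 (by decide +kernel) ?_
    refine jn 1877 (by decide +kernel) ?_
    refine jn 1879 (by decide +kernel) ?_
    refine jn 1880 (by decide +kernel) ?_
    refine jn 1884 (by decide +kernel) ?_
    refine jn 1889 (by decide +kernel) ?_
    refine jn 1890 (by decide +kernel) ?_
    refine jn 1891 (by decide +kernel) ?_
    refine jn 1897 (by decide +kernel) ?_
    refine jn 1898 (by decide +kernel) ?_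
    refine jn 1902 (by decide +kernel) ?_
    refine jn 1904 (by decide +kernel) ?_
    refine jn 1908 (by decide +kernel) ?_
    refine jn 1910 (by decide +kernel) ?_
    refine jn 1911 (by decide +kernel) ?_
    refine jn 1915 (by decide +kernel) ?_
    refine jn 1916 (by decide +kernel) ?_
    refine jn 1919 (by decide +kernel) ?_
    refine jn 1921 (by decide +kernel) ?_
    refine jn 1930 (by decide +kernel) ?_
    refine jn 1932 (by decide +kernel) ?_
    refine jn 1937 (by decide +kernel) ?_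
    refine jn 1940 (by decide +kernel) ?_
    exact je (by decide +kernel)

end Pool.Agent.MP_2339ce_nt.NR
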