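import Pool.Agent.MP_2339ce_nt.Q2.NC.L5
import Pool.Agent.MP_2339ce_nt.Q2.NC.L10
import Pool.Agent.MP_2339ce_nt.Q2.CkI

/-! Block NR: runs. -/

set_option autoImplicit false
set_option maxRecDepth 100000

noncomputable section

namespace Pool.Agent.MP_2339ce_nt.NR

open Q2.Top

def T58_0 : Ph :=
  (.na 663 2 (.nx 662 3329023 (.nr 661 881745 (.nx 2 249 (.nr 1 16 (.lg 0 false 1 43 43 5 0 1992)
  (.l1 .sk)) (.nx 3 250 (.l1 .sk) (.nr 644 311745 (.nr 583 185365 (.nx 115 41287 (.lg 0 false 112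
  103 113 16 0 59819760) (.nr 582 155873 (.nr 293 2898 (.nr 276 1724 (.nx 223 1664512 (.nr 195 942
  (.nr 167 515 (.lg 0 true 52 101 103 16 0 8545680) (.lg 2 true 28 89 97 11 402392 27888)) (.lg 2
  true 28 97 103 11 219992 4601520)) (.nr 275 154 (.lg 0 true 52 97 101 16 0 8545680) .out)) (.nx
  292 1321124 (.lg 2 true 16 101 103 9 95406 4601520) .out)) (.nx 581 1048577 (.nx 345 52017 (.lg 1
  false 52 103 109 16 117227 59819760) (.nr 377 8193 (.nr 361 4872 (.lg 2 true 16 101 103 9 45048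
  4601520) (.lg 2 true 16 101 103 9 26796 4601520)) (.nx 580 832257 (.nx 429 65537 (.lg 1 false 52
  103 109 16 93045 59819760) (.nr 579 110219 (.nr 473 46342 (.nr 445 26009 (.lg 2 false 16 103 107
  9 12647 59819760) (.lg 2 true 28 103 109 11 22039 59819760)) (.nx 578 524289 (.nr 525 77937 (.lg
  2 true 52 103 109 16 36985 59819760) (.nx 577 262145 (.lg 2 true 52 103 109 16 52255 59819760)
  .out)) .out)) .out)) .out))) .out)) .out)) (.nx 643 26009 (.nx 596 408 (.lg 0 false 13 79 79 9 0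
  25896) (.nx 597 6501 .out (.nr 642 220437 (.nx 613 10323 (.lg 0 false 16 101 103 9 0 4601520)
  (.nx 614 13003 .out (.lg 0 false 28 103 109 11 0 59819760))) .out))) .out)) (.nx 660 324 (.lg 0
  false 16 79 79 9 0 3984) .out)))) .out) .out) (.nx 1087 3329023 (.nr 1086 1763489 (.nx 665 249
  (.nr 664 30 (.lg 0 false 1 41 41 5 0 3984) (.l1 .sk)) (.nx 666 250 (.l1 .sk) (.nx 1074 2642247
  (.nr 1019 262145 (.nx 757 65537 (.lg 0 false 91 103 109 13 0 59819760) (.nx 992 1048577 (.nr 796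
  3446 (.nr 783 941 (.lg 0 true 26 97 101 11 0 776880) (.lg 2 true 13 101 101 9 138734 776880))
  (.nx 991 832257 (.nx 831 82572 (.lg 1 false 35 101 107 13 124120 4601520) (.nr 990 220437 (.nx
  922 165142 (.lg 1 true 91 101 109 13 82854 59819760) (.nr 989 155873 (.nr 935 12637 (.lg 2 true
  13 97 101 9 30069 776880) (.nr 948 55110 (.lg 2 false 13 103 107 9 10393 59819760) (.nx 988
  330282 (.nr 961 92683 (.lg 2 false 13 103 107 9 17446 59819760) (.nx 987 262145 (.lg 2 false 26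
  103 109 11 29308 59819760) .out)) .out))) .out)) .out)) .out)) (.nr 1018 257 (.lg 0 true 26 79 89
  11 0 51792) .out))) (.nx 1073 52017 (.nx 1045 408 (.lg 0 false 26 79 89 11 0 51792) (.nx 1046
  26007 .out (.nr 1072 311745 (.lg 0 false 26 103 109 11 0 59819760) .out))) .out)) (.nr 1085 9
  (.lg 0 true 11 61 61 9 0 43824) .out)))) .out) .out))

def T58_1 : Ph :=
  (.na 965 144 (.na 562 83 (.na 348 54 (.na 196 40 (.na 126 33 (.na 43 31 (.nx 42 2642247 (.nr 41
  1048577 (.nr 1 26 .s1 (.nx 5 408 (.nx 3 240 (.nr 2 340 (.l1 (.ls 19 43 1922)) (.l1 .sk)) (.nx 4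
  241 (.l1 .sk) (.l1 (.ls 73 47 3615)))) (.nr 40 741457 (.nr 32 185365 (.nx 12 65537 (.lg 0 false 7
  89 89 23 0 5040) (.nr 31 155873 (.nr 23 1008 (.lg 0 true 11 73 73 23 0 7920) (.nx 30 524289 (.lg
  2 false 7 89 89 23 68604 5040) .out)) .out)) (.nx 39 16385 (.lg 0 false 7 83 83 23 0 5040) .out))
  .out))) .out) .out) (.na 82 32 (.nx 81 2642247 (.nr 80 1048577 (.nr 44 27 .s1 (.nx 47 241 (.nx 46
  240 (.nr 45 351 (.lg 0 true 1 23 23 13 0 720) (.l1 .sk)) (.l1 .sk)) (.nx 48 408 (.l1 (.ls 79 29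
  3499)) (.nr 79 741457 (.nx 63 65537 (.nr 55 185365 (.lg 0 false 7 89 97 16 0 5040) (.nx 62 16385
  (.lg 0 false 7 89 97 16 0 5040) .out)) (.nr 78 155873 (.nr 70 1034 (.lg 0 true 7 79 79 16 0 1680)
  (.nx 77 524289 (.lg 2 false 7 89 97 16 68604 5040) .out)) .out)) .out)))) .out) .out) (.nx 125
  2642247 (.nr 124 1048577 (.nr 83 29 .s1 (.nx 87 408 (.nx 85 240 (.nr 84 362 (.lg 0 false 1 31 31
  13 0 720) (.l1 .sk)) (.nx 86 241 (.l1 .sk) (.l1 (.ls 79 41 3389)))) (.nr 123 741457 (.nx 94 16385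
  (.lg 0 false 7 89 97 23 0 5040) (.nr 122 185365 (.nx 118 524289 (.nr 100 26615 (.nx 95 28801 (.lg
  0 true 1 79 79 13 0 240) (.nr 98 3104 (.nr 97 1060 (.lg 0 true 2 73 73 13 0 240) (.lg 2 false 1
  73 73 13 59354 720)) (.lg 2 false 2 73 73 13 26855 240))) (.nx 107 82572 (.lg 0 false 7 97 103 23
  0 720720) (.nr 117 131073 (.nr 114 92683 (.lg 2 true 7 73 73 23 32411 1680) (.nx 116 165142 (.lg
  0 true 2 89 97 13 0 720) .out)) .out))) (.nr 121 257 (.lg 0 true 3 73 73 19 0 720) .out)) .out))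
  .out))) .out) .out))) (.na 161 36 (.na 127 34 .ne (.nx 160 2642247 (.nr 159 881745 (.nr 128 31
  .s1 (.nx 132 408 (.nx 130 240 (.nr 129 395 (.lg 0 false 1 29 29 13 0 720) (.l1 .sk)) (.nx 131 241
  (.l1 .sk) (.l1 (.ls 79 43 3190)))) (.nr 158 623489 (.nx 147 65537 (.nr 139 185365 (.lg 0 false 7
  89 97 23 0 5040) (.nx 146 16385 (.lg 0 false 7 89 97 23 0 5040) .out)) (.nr 157 77937 (.nr 154
  1097 (.lg 0 true 7 79 79 23 0 1680) (.nx 156 262145 (.lg 2 true 2 89 89 13 34355 720) .out))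
  .out)) .out))) .out) .out)) (.na 162 38 (.lg 0 false 1 0 0 7 0 24) (.nx 195 2642247 (.nr 194
  881745 (.nr 163 35 .s1 (.nx 166 241 (.nx 165 240 (.nr 164 439 (.lg 0 false 1 29 29 13 0 720) (.l1
  .sk)) (.l1 .sk)) (.nx 167 408 (.l1 (.ls 79 43 2855)) (.nr 193 623489 (.nx 182 65537 (.nr 174
  185365 (.lg 0 false 7 89 97 17 0 5040) (.nx 181 16385 (.lg 0 false 7 83 89 17 0 5040) .out)) (.nr
  192 77937 (.nr 189 1194 (.lg 0 true 7 79 79 17 0 1680) (.nx 191 262145 (.lg 2 true 2 89 89 13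
  34355 720) .out)) .out)) .out)))) .out) .out)))) (.na 279 48 (.na 229 46 (.na 228 45 (.nx 227
  2642247 (.nr 226 881745 (.nr 197 37 .s1 (.nx 200 241 (.nx 199 240 (.nr 198 494 (.lg 0 true 1 23
  23 13 0 720) (.l1 .sk)) (.l1 .sk)) (.nx 221 262145 (.nx 201 408 (.l1 (.ls 73 43 2712)) (.nr 220
  623489 (.nx 216 65537 (.nr 208 185365 (.lg 0 false 7 83 89 23 0 5040) (.nx 215 16385 (.lg 0 false
  7 79 89 23 0 5040) .out)) (.nr 219 77937 (.nr 217 1313 (.lg 0 false 1 71 71 13 0 240) (.lg 2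
  false 2 83 83 19 34355 240)) .out)) .out)) (.nr 225 257 (.lg 0 true 4 61 61 19 0 240) .out))))
  .out) .out) (.lg 0 false 1 0 0 16 0 24)) (.na 254 47 (.nx 253 2642247 (.nr 252 881745 (.nr 230 44
  .s1 (.nx 233 241 (.nx 232 240 (.nr 231 516 (.lg 0 false 1 23 23 13 0 720) (.l1 .sk)) (.l1 .sk))
  (.nx 240 32769 (.lg 0 false 7 89 97 19 0 5040) (.nr 251 92683 (.nr 247 516 (.lg 0 true 7 71 71 19
  0 1680) (.nx 250 262145 (.lg 2 false 3 89 97 13 81670 720) .out)) .out)))) .out) .out) (.nx 278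
  2642247 (.nr 277 881745 (.nr 255 45 .s1 (.nx 265 32769 (.nx 257 240 (.nr 256 527 (.lg 0 false 1
  23 23 16 0 720) (.l1 .sk)) (.nx 258 241 (.l1 .sk) (.lg 0 false 7 97 101 16 0 5040))) (.nr 276
  92683 (.nr 272 527 (.lg 0 true 7 71 73 16 0 1680) (.nx 275 262145 (.lg 2 false 3 97 97 16 81670
  5040) .out)) .out))) .out) .out))) (.na 305 51 (.na 304 50 (.nx 303 2642247 (.nr 302 881745 (.nr
  280 46 .s1 (.nx 283 241 (.nx 282 240 (.nr 281 549 (.l1 (.ls 29 41 1202)) (.l1 .sk)) (.l1 .sk))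
  (.nx 293 32769 (.nx 290 20644 (.lg 0 false 7 83 97 31 0 5040) (.nr 292 220437 (.lg 0 false 2 83
  83 23 0 720) .out)) (.nr 301 92683 (.nr 296 549 (.lg 0 true 3 73 73 29 0 720) (.nx 300 262145
  (.nr 298 65537 (.lg 2 false 2 83 89 23 57811 720) (.nx 299 52017 (.lg 0 false 1 79 79 19 0 720)
  .out)) .out)) .out)))) .out) .out) (.lg 0 false 1 0 0 16 0 24)) (.na 327 53 (.nx 326 2642247 (.nr
  325 881745 (.nr 306 49 .s1 (.nx 309 241 (.nx 308 240 (.nr 307 581 (.l1 (.ls 29 37 1132)) (.l1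
  .sk)) (.l1 .sk)) (.nx 316 32769 (.lg 0 false 7 89 97 23 0 5040) (.nr 324 92683 (.nr 320 581 (.lg
  0 true 4 71 71 16 0 720) (.nx 323 262145 (.lg 2 false 3 89 89 16 81670 720) .out)) .out)))) .out)
  .out) (.nx 347 2642247 (.nr 346 881745 (.nr 328 51 .s1 (.nx 338 41287 (.nx 330 240 (.nr 329 592
  (.l1 (.ls 19 23 1089)) (.l1 .sk)) (.nx 331 241 (.l1 .sk) (.lg 0 false 7 89 97 16 0 5040))) (.nr
  345 77937 (.nr 342 592 (.lg 0 true 4 71 71 16 0 240) (.nx 344 262145 (.lg 2 true 2 89 89 16 54534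
  720) .out)) .out))) .out) .out))))) (.na 462 68 (.na 391 61 (.na 349 57 (.lg 0 false 1 0 0 16 0
  24) (.na 370 60 (.nx 369 2642247 (.nr 368 881745 (.nr 350 55 .s1 (.nx 353 241 (.nx 352 240 (.nr
  351 658 (.l1 (.ls 17 31 1013)) (.l1 .sk)) (.l1 .sk)) (.nx 360 41287 (.lg 0 false 7 89 97 17 0
  5040) (.nr 367 77937 (.nr 364 658 (.lg 0 true 4 71 71 17 0 720) (.nx 366 262145 (.lg 2 true 2 83
  83 16 54534 720) .out)) .out)))) .out) .out) (.nx 390 2642247 (.nr 389 881745 (.nr 371 58 .s1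
  (.nx 374 241 (.nx 373 240 (.nr 372 669 (.l1 (.ls 23 41 962)) (.l1 .sk)) (.l1 .sk)) (.nx 381 41287
  (.lg 0 false 7 83 89 31 0 5040) (.nr 388 77937 (.nr 385 669 (.lg 0 true 4 71 71 29 0 720) (.nx
  387 262145 (.lg 2 true 2 83 83 23 54534 720) .out)) .out)))) .out) .out))) (.na 436 64 (.na 415
  62 (.nx 414 2642247 (.nr 413 881745 (.nr 392 60 .s1 (.nx 395 241 (.nx 394 240 (.nr 393 680 (.l1
  (.ls 23 23 947)) (.l1 .sk)) (.l1 .sk)) (.nx 409 262145 (.nx 402 32769 (.lg 0 false 7 89 89 17 0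
  1680) (.nr 408 92683 (.nr 405 46342 (.lg 0 false 3 83 83 16 0 720) (.nx 407 82572 (.lg 0 false 2
  83 83 16 0 240) .out)) .out)) (.nr 412 257 (.lg 0 true 3 67 67 16 0 720) .out)))) .out) .out)
  (.nx 435 2642247 (.nr 434 881745 (.nr 416 61 .s1 (.nx 418 240 (.nr 417 702 (.l1 (.ls 19 37 932))
  (.l1 .sk)) (.nx 419 241 (.l1 .sk) (.nx 426 41287 (.lg 0 false 7 89 97 23 0 5040) (.nr 433 77937
  (.nr 430 702 (.lg 0 true 4 71 71 19 0 240) (.nx 432 262145 (.lg 2 false 2 83 83 17 54534 240)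
  .out)) .out))))) .out) .out)) (.na 461 65 (.nx 460 2642247 (.nr 459 2097153 (.nr 437 63 .s1 (.nx
  440 241 (.nx 439 240 (.nr 438 713 (.l1 (.ls 31 31 902)) (.l1 .sk)) (.l1 .sk)) (.nx 441 408 (.l1
  (.ls 83 37 1696)) (.nr 458 1048577 (.nx 448 20644 (.lg 0 false 7 79 97 31 0 5040) (.nr 457 262145
  (.nr 455 92683 (.nx 449 52017 (.lg 0 false 1 83 89 19 0 720) (.nr 454 65537 (.nx 451 416129 (.nr
  450 1856 (.lg 0 true 1 73 73 19 0 240) (.lg 2 false 1 83 89 19 36419 720)) (.nr 453 513 (.lg 0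
  true 2 71 73 23 0 240) .out)) .out)) (.nx 456 32769 (.lg 0 false 1 83 89 19 0 720) .out)) .out))
  .out)))) .out) .out) .ne))) (.na 503 76 (.na 501 72 (.na 481 69 (.nx 480 2642247 (.nr 479 2097153
  (.nr 463 67 .s1 (.nx 467 408 (.nx 465 240 (.nr 464 757 (.l1 (.ls 31 37 850)) (.l1 .sk)) (.nx 466
  241 (.l1 .sk) (.l1 (.ls 83 41 1596)))) (.nr 478 1048577 (.nr 474 262145 (.nx 469 32769 (.lg 0
  false 2 89 97 23 0 720) (.nr 473 65537 (.nr 471 757 (.lg 0 true 2 73 73 23 0 240) (.nx 472 416129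
  (.lg 2 false 1 101 101 13 65965 5040) .out)) .out)) (.nx 477 20644 (.lg 0 false 3 89 97 29 0 720)
  .out)) .out))) .out) .out) (.nx 500 2642247 (.nr 499 2097153 (.nr 482 68 .s1 (.nx 491 32769 (.nx
  483 408 (.l1 (.ls 79 41 2415)) (.nr 490 1048577 (.lg 0 false 7 89 97 19 0 5040) .out)) (.nr 498
  65537 (.nr 495 790 (.lg 0 true 4 71 71 17 0 720) (.nx 497 416129 (.lg 2 false 2 83 83 17 63210
  720) .out)) .out))) .out) .out)) (.na 502 75 (.lg 0 false 1 0 0 16 0 24) (.lg 0 false 1 0 0 16 0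
  24))) (.na 543 80 (.na 523 79 (.nx 522 2642247 (.nr 521 2097153 (.nr 504 75 .s1 (.nx 507 241 (.nx
  506 240 (.nr 505 867 (.l1 (.ls 17 37 760)) (.l1 .sk)) (.l1 .sk)) (.nx 516 32769 (.nx 508 408 (.l1
  (.ls 79 41 1429)) (.nr 515 1048577 (.lg 0 false 7 89 101 31 0 5040) .out)) (.nr 520 65537 (.nr
  518 867 (.lg 0 true 2 73 73 23 0 240) (.nx 519 416129 (.lg 2 true 1 89 89 17 57811 720) .out))
  .out)))) .out) .out) (.nx 542 2642247 (.nr 541 2097153 (.nr 524 78 .s1 (.nx 533 32769 (.nx 525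
  408 (.l1 (.ls 73 29 2110)) (.nr 532 1048577 (.lg 0 false 7 83 89 17 0 5040) .out)) (.nr 540 65537
  (.nr 537 878 (.lg 0 true 4 67 67 16 0 240) (.nx 539 416129 (.lg 2 true 2 73 73 16 57811 240)
  .out)) .out))) .out) .out)) (.na 561 81 (.nx 560 2642247 (.nr 559 2097153 (.nr 544 79 .s1 (.nx
  546 240 (.nr 545 889 (.l1 (.ls 29 37 722)) (.l1 .sk)) (.nx 547 241 (.l1 .sk) (.nx 548 408 (.l1
  (.ls 79 41 1357)) (.nr 558 1048577 (.nr 555 262145 (.nx 550 32769 (.lg 0 false 2 83 89 23 0 720)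
  (.nr 554 65537 (.nr 552 889 (.lg 0 true 2 71 71 23 0 240) (.nx 553 416129 (.lg 2 true 1 83 83 23
  57811 240) .out)) .out)) (.nx 557 20644 (.lg 0 false 2 89 89 23 0 720) .out)) .out))))) .out)
  .out) (.lg 0 false 1 0 0 16 0 24)))))) (.na 768 113 (.na 661 95 (.na 602 91 (.na 582 85 (.nx 581
  2642247 (.nr 580 2097153 (.nr 563 82 .s1 (.nx 564 408 (.l1 (.ls 73 29 2008)) (.nr 579 1048577
  (.nx 571 32769 (.lg 0 false 7 79 89 17 0 1680) (.nr 578 65537 (.nr 575 932 (.lg 0 true 4 67 67 16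
  0 240) (.nx 577 416129 (.lg 2 false 2 73 73 16 57811 240) .out)) .out)) .out))) .out) .out) (.na
  601 90 (.nx 600 2642247 (.nr 599 2097153 (.nr 583 84 .s1 (.nx 592 32769 (.nx 584 408 (.l1 (.ls 79
  37 1961)) (.nr 591 1048577 (.lg 0 false 7 83 89 23 0 5040) .out)) (.nr 598 65537 (.nr 595 513
  (.lg 0 true 3 67 67 16 0 720) (.nx 597 416129 (.lg 2 false 2 83 83 16 97341 720) .out)) .out)))
  .out) .out) (.lg 0 false 1 0 0 16 0 24))) (.na 623 93 (.na 603 92 .ne (.nx 622 2642247 (.nr 621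
  2097153 (.nr 604 91 .s1 (.nx 607 241 (.nx 606 240 (.nr 605 1020 (.l1 (.ls 19 37 629)) (.l1 .sk))
  (.l1 .sk)) (.nx 608 408 (.l1 (.ls 79 41 1181)) (.nr 620 1482912 (.nx 615 28801 (.lg 0 false 7 83
  97 31 0 5040) (.nr 619 65537 (.nr 617 1020 (.lg 0 true 2 73 73 19 0 240) (.nx 618 416129 (.lg 2
  true 1 89 89 19 65776 720) .out)) .out)) .out)))) .out) .out)) (.na 642 94 (.nx 641 2642247 (.nr
  640 2097153 (.nr 624 92 .s1 (.nx 625 408 (.l1 (.ls 79 37 1792)) (.nr 639 1482912 (.nx 632 28801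
  (.lg 0 false 7 89 97 23 0 5040) (.nr 638 65537 (.nr 635 513 (.lg 0 true 3 67 67 17 0 720) (.nx
  637 416129 (.lg 2 false 2 83 83 17 97341 720) .out)) .out)) .out))) .out) .out) (.nx 660 2642247
  (.nr 659 2097153 (.nr 643 93 .s1 (.nx 644 408 (.l1 (.ls 79 37 1773)) (.nr 658 1482912 (.nx 651
  28801 (.lg 0 false 7 89 97 23 0 5040) (.nr 657 65537 (.nr 654 513 (.lg 0 true 3 67 67 19 0 720)
  (.nx 656 416129 (.lg 2 true 2 83 83 19 97341 240) .out)) .out)) .out))) .out) .out)))) (.na 716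
  106 (.na 696 100 (.na 680 96 (.nx 679 2642247 (.nr 678 2097153 (.nr 662 94 .s1 (.nx 663 408 (.l1
  (.ls 73 37 1755)) (.nr 677 1482912 (.nx 670 28801 (.lg 0 false 7 83 89 17 0 5040) (.nr 676 65537
  (.nr 673 513 (.lg 0 true 3 67 67 17 0 720) (.nx 675 416129 (.lg 2 true 2 79 79 17 97341 240)
  .out)) .out)) .out))) .out) .out) (.nx 695 2642247 (.nr 694 2097153 (.nr 681 95 .s1 (.nx 684 241
  (.nx 683 240 (.nr 682 1097 (.l1 (.ls 29 37 602)) (.l1 .sk)) (.l1 .sk)) (.nx 685 408 (.l1 (.ls 79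
  41 1131)) (.nr 693 1482912 (.nx 688 28801 (.lg 0 false 3 89 97 31 0 5040) (.nr 692 65537 (.nr 690
  1097 (.lg 0 true 2 73 73 29 0 720) (.nx 691 416129 (.lg 2 false 1 83 83 23 65776 720) .out))
  .out)) .out)))) .out) .out)) (.na 697 102 (.lg 0 false 1 0 0 16 0 24) (.nx 715 2642247 (.nr 714
  2097153 (.nr 698 101 .s1 (.nx 707 28801 (.nx 699 408 (.l1 (.ls 73 43 1634)) (.nr 706 1482912 (.lg
  0 false 7 83 89 37 0 5040) .out)) (.nr 713 65537 (.nr 710 513 (.lg 0 true 3 61 61 31 0 720) (.nx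
  712 416129 (.lg 2 false 2 79 79 29 97341 720) .out)) .out))) .out) .out))) (.na 749 108 (.na 734
  107 (.nx 733 2642247 (.nr 732 2097153 (.nr 717 105 .s1 (.nx 726 28801 (.nx 718 408 (.l1 (.ls 73
  37 1573)) (.nr 725 1482912 (.lg 0 false 7 83 89 29 0 5040) .out)) (.nr 731 65537 (.nr 728 513
  (.lg 0 true 2 61 61 19 0 240) (.nx 730 416129 (.lg 2 true 2 79 79 19 97341 240) .out)) .out)))
  .out) .out) (.nx 748 2642247 (.nr 747 2097153 (.nr 735 106 .s1 (.nx 741 28801 (.nx 736 408 (.l1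
  (.ls 73 29 1558)) (.nr 740 1482912 (.lg 0 false 4 83 83 17 0 240) .out)) (.nr 746 65537 (.nr 743
  513 (.lg 0 true 2 61 61 16 0 240) (.nx 745 416129 (.lg 2 true 2 73 73 16 97341 240) .out))
  .out))) .out) .out)) (.na 750 109 (.lg 0 false 1 0 0 16 0 24) (.nx 767 2642247 (.nr 766 2097153
  (.nr 751 108 .s1 (.nx 760 28801 (.nx 752 408 (.l1 (.ls 71 29 1530)) (.nr 759 1482912 (.lg 0 false
  7 79 83 19 0 5040) .out)) (.nr 765 65537 (.nr 762 513 (.lg 0 true 2 59 59 16 0 240) (.nx 764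
  416129 (.lg 2 true 2 73 73 16 97341 240) .out)) .out))) .out) .out))))) (.na 882 129 (.na 834 122
  (.na 799 115 (.na 786 114 (.nx 785 2642247 (.nr 784 2097153 (.nr 769 112 .s1 (.nx 778 28801 (.nx
  770 408 (.l1 (.ls 71 29 1476)) (.nr 777 1482912 (.lg 0 false 7 79 83 19 0 5040) .out)) (.nr 783
  65537 (.nr 780 513 (.lg 0 true 2 59 59 16 0 240) (.nx 782 416129 (.lg 2 true 2 73 73 16 97341
  240) .out)) .out))) .out) .out) (.nx 798 2642247 (.nr 797 2097153 (.nr 787 113 .s1 (.nx 792 28801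
  (.nx 788 408 (.l1 (.ls 79 43 1463)) (.nr 791 1482912 (.lg 0 false 3 89 89 31 0 720) .out)) (.nr
  796 65537 (.nr 793 513 (.lg 0 false 1 73 73 29 0 720) (.nx 795 416129 (.lg 2 true 2 79 79 31
  97341 720) .out)) .out))) .out) .out)) (.na 817 120 (.nx 816 2642247 (.nr 815 2097153 (.nr 800
  114 .s1 (.nx 809 28801 (.nx 801 408 (.l1 (.ls 73 37 1450)) (.nr 808 1482912 (.lg 0 false 7 83 89
  19 0 5040) .out)) (.nr 814 65537 (.nr 811 513 (.lg 0 true 2 61 61 17 0 240) (.nx 813 416129 (.lg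
  2 true 2 79 79 17 97341 240) .out)) .out))) .out) .out) (.nx 833 2642247 (.nr 832 2097153 (.nr
  818 119 .s1 (.nx 827 28801 (.nx 819 408 (.l1 (.ls 73 43 1390)) (.nr 826 1482912 (.lg 0 false 7 79
  83 37 0 5040) .out)) (.nr 831 65537 (.nr 829 513 (.lg 0 true 2 59 59 29 0 720) (.nx 830 416129
  (.lg 2 false 1 79 79 29 97341 720) .out)) .out))) .out) .out))) (.na 864 125 (.na 852 124 (.nx
  851 2642247 (.nr 850 2097153 (.nr 835 122 .s1 (.nx 844 28801 (.nx 836 408 (.l1 (.ls 73 37 1367))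
  (.nr 843 1482912 (.lg 0 false 7 83 89 29 0 5040) .out)) (.nr 849 65537 (.nr 846 513 (.lg 0 true 2
  61 61 19 0 240) (.nx 848 416129 (.lg 2 true 2 79 79 19 97341 240) .out)) .out))) .out) .out) (.nx
  863 2642247 (.nr 862 2097153 (.nr 853 124 .s1 (.nx 857 28801 (.nx 854 408 (.l1 (.ls 79 41 1345))
  (.nr 856 1482912 (.lg 0 false 2 97 101 23 0 720) .out)) (.nr 861 65537 (.nr 859 513 (.lg 0 true 2
  71 71 23 0 240) (.nx 860 416129 (.lg 2 false 1 89 89 19 97341 240) .out)) .out))) .out) .out))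
  (.na 865 128 (.lg 0 false 1 0 0 16 0 24) (.nx 881 2642247 (.nr 880 2097153 (.nr 866 128 .s1 (.nx
  875 26009 (.nx 868 240 (.nr 867 1415 (.l1 (.ls 37 29 452)) (.l1 .sk)) (.nx 869 241 (.l1 .sk) (.nx
  870 408 (.l1 (.ls 83 31 849)) (.nr 872 1482912 (.lg 0 false 2 89 101 29 0 5040) (.nx 873 8192
  .out (.nx 874 20644 (.lg 0 false 1 89 97 23 0 5040) .out)))))) (.nr 879 65537 (.nx 876 28801 (.lg
  0 false 1 67 71 23 0 720) (.nr 877 1025 (.lg 0 true 1 79 79 29 0 240) (.nx 878 416129 (.lg 2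
  false 1 83 89 23 65776 5040) .out))) .out))) .out) .out)))) (.na 899 137 (.na 884 135 (.na 883
  131 .ne (.lg 0 false 1 0 0 16 0 24)) (.na 885 136 (.lg 0 false 1 0 0 16 0 24) (.nx 898 1321124
  (.nr 897 2097153 (.nr 886 136 .s1 (.nx 888 240 (.nr 887 1503 (.l1 (.ls 16 31 426)) (.l1 .sk))
  (.nx 889 241 (.l1 .sk) (.nx 893 41287 (.nr 890 262145 (.lg 0 true 1 89 89 29 0 720) (.nx 892
  20644 (.lg 0 false 2 89 97 29 0 720) .out)) (.nr 896 16385 (.nr 894 1025 (.lg 0 true 1 71 71 29 0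
  240) (.nx 895 165142 (.lg 2 false 1 67 67 29 19334 240) .out)) .out))))) .out) .out))) (.na 931
  139 (.na 916 138 (.nx 915 1321124 (.nr 914 2097153 (.nr 900 137 .s1 (.nx 910 41287 (.nx 902 240
  (.nr 901 1514 (.l1 (.ls 19 19 423)) (.l1 .sk)) (.nx 903 241 (.l1 .sk) (.lg 0 false 7 83 89 19 0
  5040))) (.nr 913 16385 (.nr 911 1025 (.lg 0 false 1 67 67 16 0 240) (.nx 912 165142 (.lg 2 false
  1 59 59 16 19334 240) .out)) .out))) .out) .out) (.nx 930 1321124 (.nr 929 2097153 (.nr 917 138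
  .s1 (.nx 927 165142 (.nx 924 26009 (.nx 919 240 (.nr 918 1525 (.l1 (.ls 19 37 420)) (.l1 .sk))
  (.nx 920 241 (.l1 .sk) (.lg 0 false 4 89 89 37 0 720))) (.nr 926 65537 (.lg 0 true 2 79 79 31 0
  720) .out)) (.nr 928 1025 (.lg 0 false 1 71 71 19 0 720) .out))) .out) .out)) (.na 948 141 (.nx
  947 1321124 (.nr 946 2097153 (.nr 932 139 .s1 (.nx 935 241 (.nx 934 240 (.nr 933 1547 (.l1 (.ls
  19 19 417)) (.l1 .sk)) (.l1 .sk)) (.nx 942 41287 (.lg 0 false 7 79 83 19 0 5040) (.nr 945 16385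
  (.nr 943 1025 (.lg 0 false 1 67 67 16 0 720) (.nx 944 165142 (.lg 2 false 1 59 59 16 19334 720)
  .out)) .out)))) .out) .out) (.nx 964 1321124 (.nr 963 2097153 (.nr 949 141 .s1 (.nx 951 240 (.nr
  950 1580 (.l1 (.ls 19 23 411)) (.l1 .sk)) (.nx 952 241 (.l1 .sk) (.nx 959 41287 (.lg 0 false 7 83
  89 23 0 5040) (.nr 962 16385 (.nr 960 1025 (.lg 0 false 1 71 71 17 0 720) (.nx 961 165142 (.lg 2
  false 1 61 61 17 19334 720) .out)) .out))))) .out) .out))))))) (.na 1214 199 (.na 1082 170 (.na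
  1011 157 (.na 968 151 (.na 966 149 (.lg 0 false 1 0 0 16 0 24) (.na 967 150 (.lg 0 false 1 0 0 16
  0 24) (.lg 0 false 1 0 0 16 0 24))) (.na 993 153 (.na 981 152 (.nx 980 1321124 (.nr 979 2097153
  (.nr 969 151 .s1 (.nx 972 241 (.nx 971 240 (.nr 970 1667 (.l1 (.ls 19 19 384)) (.l1 .sk)) (.l1
  .sk)) (.nx 977 165142 (.nx 975 26009 (.lg 0 false 3 83 83 17 0 720) (.nr 976 65537 (.lg 0 false 1
  79 79 16 0 720) .out)) (.nr 978 1025 (.lg 0 false 1 61 61 16 0 240) .out)))) .out) .out) (.nx 992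
  1321124 (.nr 991 2097153 (.nr 982 152 .s1 (.nx 989 165142 (.nx 984 240 (.nr 983 1678 (.l1 (.ls 17
  31 381)) (.l1 .sk)) (.nx 985 241 (.l1 .sk) (.nx 987 26009 (.lg 0 false 2 97 97 29 0 720) (.nr 988
  65537 (.lg 0 false 1 89 89 29 0 720) .out)))) (.nr 990 1025 (.lg 0 true 1 67 67 29 0 240) .out)))
  .out) .out)) (.na 994 155 (.lg 0 false 1 0 0 16 0 24) (.nx 1010 1321124 (.nr 1009 2097153 (.nr
  995 155 .s1 (.nx 1005 41287 (.nx 997 240 (.nr 996 1722 (.l1 (.ls 19 23 374)) (.l1 .sk)) (.nx 998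
  241 (.l1 .sk) (.lg 0 false 7 83 89 23 0 5040))) (.nr 1008 16385 (.nr 1006 1025 (.lg 0 false 1 67
  67 17 0 240) (.nx 1007 165142 (.lg 2 true 1 59 59 17 19334 240) .out)) .out))) .out) .out))))
  (.na 1050 162 (.na 1025 159 (.na 1012 158 (.lg 0 false 1 0 0 16 0 24) (.nx 1024 1321124 (.nr 1023
  2097153 (.nr 1013 158 .s1 (.nx 1016 241 (.nx 1015 240 (.nr 1014 1744 (.l1 (.ls 19 29 367)) (.l1
  .sk)) (.l1 .sk)) (.nx 1021 165142 (.nx 1019 26009 (.lg 0 false 3 83 83 23 0 720) (.nr 1020 65537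
  (.lg 0 false 1 79 79 19 0 240) .out)) (.nr 1022 1025 (.lg 0 false 1 61 61 19 0 240) .out))))
  .out) .out)) (.na 1038 160 (.nx 1037 1321124 (.nr 1036 2097153 (.nr 1026 159 .s1 (.nx 1029 241
  (.nx 1028 240 (.nr 1027 1755 (.l1 (.ls 23 23 365)) (.l1 .sk)) (.l1 .sk)) (.nx 1032 26009 (.lg 0
  false 3 89 89 19 0 720) (.nr 1035 65537 (.nx 1033 165142 (.lg 0 false 1 83 83 17 0 720) (.nr 1034
  1025 (.lg 0 false 1 71 71 17 0 720) .out)) .out)))) .out) .out) (.nx 1049 1321124 (.nr 1048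
  2097153 (.nr 1039 160 .s1 (.nx 1046 165142 (.nx 1041 240 (.nr 1040 1777 (.l1 (.ls 29 31 362))
  (.l1 .sk)) (.nx 1042 241 (.l1 .sk) (.nx 1044 26009 (.lg 0 false 2 89 89 29 0 720) (.nr 1045 65537
  (.lg 0 true 1 83 83 29 0 720) .out)))) (.nr 1047 1025 (.lg 0 true 1 61 61 29 0 240) .out))) .out)
  .out))) (.na 1052 166 (.na 1051 163 (.lg 0 false 1 0 0 16 0 24) (.lg 0 false 1 0 0 16 0 24)) (.na
  1065 167 (.nx 1064 1321124 (.nr 1063 2097153 (.nr 1053 166 .s1 (.nx 1055 240 (.nr 1054 1832 (.l1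
  (.ls 19 29 349)) (.l1 .sk)) (.nx 1056 241 (.l1 .sk) (.nx 1059 26009 (.lg 0 false 3 89 89 23 0
  720) (.nr 1062 65537 (.nx 1060 165142 (.lg 0 false 1 83 83 19 0 720) (.nr 1061 1025 (.lg 0 false
  1 67 67 19 0 720) .out)) .out))))) .out) .out) (.nx 1081 1321124 (.nr 1080 2097153 (.nr 1066 167
  .s1 (.nx 1069 241 (.nx 1068 240 (.nr 1067 1865 (.l1 (.ls 17 19 347)) (.l1 .sk)) (.l1 .sk)) (.nx
  1076 41287 (.lg 0 false 7 79 83 19 0 5040) (.nr 1079 16385 (.nr 1077 1025 (.lg 0 false 1 61 61 16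
  0 720) (.nx 1078 165142 (.lg 2 false 1 53 53 16 19334 240) .out)) .out)))) .out) .out))))) (.na
  1138 184 (.na 1110 180 (.na 1096 173 (.na 1095 171 (.nx 1094 1321124 (.nr 1093 2097153 (.nr 1083
  170 .s1 (.nx 1091 165142 (.nx 1085 240 (.nr 1084 1876 (.l1 (.ls 16 37 341)) (.l1 .sk)) (.nx 1086
  241 (.l1 .sk) (.nx 1089 26009 (.lg 0 false 3 83 83 31 0 720) (.nr 1090 65537 (.lg 0 false 1 79 79
  29 0 240) .out)))) (.nr 1092 1025 (.lg 0 false 1 67 67 29 0 240) .out))) .out) .out) (.lg 0 false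
  1 0 0 16 0 24)) (.na 1109 179 (.nx 1108 1321124 (.nr 1107 2097153 (.nr 1097 173 .s1 (.nx 1103
  26009 (.nx 1099 240 (.nr 1098 1963 (.l1 (.ls 19 19 335)) (.l1 .sk)) (.nx 1100 241 (.l1 .sk) (.lg
  0 false 3 83 83 17 0 720))) (.nr 1106 65537 (.nx 1104 165142 (.lg 0 false 1 79 79 16 0 720) (.nr
  1105 1025 (.lg 0 false 1 61 61 16 0 240) .out)) .out))) .out) .out) (.lg 0 false 1 0 0 16 0 24)))
  (.na 1124 182 (.na 1111 181 (.lg 0 false 1 0 0 16 0 24) (.nx 1123 1321124 (.nr 1122 2097153 (.nr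
  1112 181 .s1 (.nx 1120 165142 (.nx 1114 240 (.nr 1113 1996 (.l1 (.ls 19 19 321)) (.l1 .sk)) (.nx
  1115 241 (.l1 .sk) (.nx 1118 26009 (.lg 0 false 3 79 79 17 0 720) (.nr 1119 65537 (.lg 0 false 1
  73 73 16 0 240) .out)))) (.nr 1121 1025 (.lg 0 false 1 61 61 16 0 720) .out))) .out) .out)) (.na
  1125 183 .ne (.nx 1137 1321124 (.nr 1136 1482912 (.nr 1126 183 .s1 (.nx 1132 41287 (.nx 1128 240
  (.nr 1127 2018 (.l1 (.ls 19 23 317)) (.l1 .sk)) (.nx 1129 241 (.l1 .sk) (.lg 0 false 3 83 83 23 0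
  720))) (.nr 1135 16385 (.nr 1133 1025 (.lg 0 false 1 67 67 17 0 720) (.nx 1134 165142 (.lg 2
  false 1 53 53 17 19334 720) .out)) .out))) .out) .out)))) (.na 1188 191 (.na 1163 188 (.na 1150
  186 (.nx 1149 1321124 (.nr 1148 1482912 (.nr 1139 184 .s1 (.nx 1146 165142 (.nx 1141 240 (.nr
  1140 2040 (.l1 (.ls 19 31 316)) (.l1 .sk)) (.nx 1142 241 (.l1 .sk) (.nx 1144 26009 (.lg 0 false 2
  89 89 31 0 720) (.nr 1145 65537 (.lg 0 true 1 83 83 19 0 240) .out)))) (.nr 1147 1025 (.lg 0 true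
  1 67 67 19 0 240) .out))) .out) .out) (.nx 1162 1321124 (.nr 1161 1482912 (.nr 1151 186 .s1 (.nx
  1153 240 (.nr 1152 2062 (.l1 (.ls 19 29 312)) (.l1 .sk)) (.nx 1154 241 (.l1 .sk) (.nx 1157 41287
  (.lg 0 false 3 83 83 29 0 720) (.nr 1160 16385 (.nr 1158 1025 (.lg 0 false 1 67 67 29 0 720) (.nx
  1159 165142 (.lg 2 false 1 61 61 29 19334 720) .out)) .out))))) .out) .out)) (.na 1175 190 (.nx
  1174 1321124 (.nr 1173 1482912 (.nr 1164 188 .s1 (.nx 1167 241 (.nx 1166 240 (.nr 1165 2084 (.l1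
  (.ls 29 29 309)) (.l1 .sk)) (.l1 .sk)) (.nx 1171 165142 (.nx 1169 26009 (.lg 0 false 2 89 89 29 0
  720) (.nr 1170 65537 (.lg 0 true 1 83 83 23 0 240) .out)) (.nr 1172 1025 (.lg 0 true 1 67 67 23 0
  240) .out)))) .out) .out) (.nx 1187 1321124 (.nr 1186 1482912 (.nr 1176 190 .s1 (.nx 1178 240
  (.nr 1177 2095 (.l1 (.ls 17 37 306)) (.l1 .sk)) (.nx 1179 241 (.l1 .sk) (.nx 1182 41287 (.lg 0
  false 3 83 83 31 0 720) (.nr 1185 16385 (.nr 1183 1025 (.lg 0 false 1 67 67 29 0 720) (.nx 1184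
  165142 (.lg 2 false 1 53 53 29 19334 240) .out)) .out))))) .out) .out))) (.na 1200 193 (.na 1189
  192 (.lg 0 false 1 0 0 16 0 24) (.nx 1199 1321124 (.nr 1198 1482912 (.nr 1190 192 .s1 (.nx 1193
  241 (.nx 1192 240 (.nr 1191 2117 (.l1 (.ls 37 31 302)) (.l1 .sk)) (.l1 .sk)) (.nr 1196 65537 (.nx
  1194 165142 (.lg 0 true 1 83 89 31 0 720) (.nr 1195 1025 (.lg 0 true 1 71 71 31 0 720) .out))
  (.nx 1197 26009 (.lg 0 false 1 89 97 31 0 720) .out)))) .out) .out)) (.na 1201 197 (.lg 0 false 1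
  0 0 16 0 24) (.nx 1213 1321124 (.nr 1212 1482912 (.nr 1202 197 .s1 (.nx 1208 41287 (.nx 1204 240
  (.nr 1203 2183 (.l1 (.ls 17 19 295)) (.l1 .sk)) (.nx 1205 241 (.l1 .sk) (.lg 0 false 3 79 79 17 0
  720))) (.nr 1211 16385 (.nr 1209 1025 (.lg 0 false 1 61 61 16 0 720) (.nx 1210 165142 (.lg 2
  false 1 53 53 16 19334 720) .out)) .out))) .out) .out)))))) (.na 1340 230 (.na 1277 216 (.na 1240
  207 (.na 1227 200 (.nx 1226 1321124 (.nr 1225 1482912 (.nr 1215 199 .s1 (.nx 1218 241 (.nx 1217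
  240 (.nr 1216 2194 (.l1 (.ls 19 19 292)) (.l1 .sk)) (.l1 .sk)) (.nx 1221 41287 (.lg 0 false 3 79
  79 17 0 720) (.nr 1224 16385 (.nr 1222 1025 (.lg 0 false 1 61 61 16 0 720) (.nx 1223 165142 (.lg
  2 false 1 53 53 16 19334 240) .out)) .out)))) .out) .out) (.na 1228 204 (.lg 0 false 1 0 0 16 0
  24) (.nx 1239 1321124 (.nr 1238 1482912 (.nr 1229 204 .s1 (.nx 1236 165142 (.nx 1231 240 (.nr
  1230 2270 (.l1 (.ls 16 37 285)) (.l1 .sk)) (.nx 1232 241 (.l1 .sk) (.nx 1234 26009 (.lg 0 false 2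
  89 89 37 0 720) (.nr 1235 65537 (.lg 0 false 1 83 83 31 0 720) .out)))) (.nr 1237 1025 (.lg 0
  true 1 67 67 31 0 720) .out))) .out) .out))) (.na 1253 212 (.na 1241 211 (.lg 0 false 1 0 0 16 0
  24) (.nx 1252 1321124 (.nr 1251 1482912 (.nr 1242 211 .s1 (.nx 1245 241 (.nx 1244 240 (.nr 1243
  2325 (.l1 (.ls 17 19 275)) (.l1 .sk)) (.l1 .sk)) (.nx 1247 41287 (.lg 0 false 2 79 79 17 0 240)
  (.nr 1250 16385 (.nr 1248 1025 (.lg 0 false 1 59 59 16 0 240) (.nx 1249 165142 (.lg 2 false 1 47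
  47 16 19334 240) .out)) .out)))) .out) .out)) (.na 1265 214 (.nx 1264 1321124 (.nr 1263 1482912
  (.nr 1254 212 .s1 (.nx 1256 240 (.nr 1255 2347 (.l1 (.ls 29 29 274)) (.l1 .sk)) (.nx 1257 241
  (.l1 .sk) (.nx 1259 26009 (.lg 0 false 2 89 89 29 0 720) (.nr 1262 65537 (.nx 1260 165142 (.lg 0
  true 1 83 83 23 0 240) (.nr 1261 1025 (.lg 0 true 1 67 67 23 0 240) .out)) .out))))) .out) .out)
  (.nx 1276 1321124 (.nr 1275 1482912 (.nr 1266 214 .s1 (.nx 1269 241 (.nx 1268 240 (.nr 1267 2369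
  (.l1 (.ls 19 29 272)) (.l1 .sk)) (.l1 .sk)) (.nx 1271 41287 (.lg 0 false 2 79 79 23 0 240) (.nr
  1274 16385 (.nr 1272 1025 (.lg 0 false 1 61 61 23 0 720) (.nx 1273 165142 (.lg 2 false 1 53 53 23
  19334 720) .out)) .out)))) .out) .out)))) (.na 1292 226 (.na 1290 223 (.na 1278 218 (.lg 0 false
  1 0 0 16 0 24) (.nx 1289 1321124 (.nr 1288 1482912 (.nr 1279 218 .s1 (.nx 1282 241 (.nx 1281 240
  (.nr 1280 2446 (.l1 (.ls 17 29 267)) (.l1 .sk)) (.l1 .sk)) (.nx 1284 41287 (.lg 0 false 2 79 79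
  23 0 240) (.nr 1287 16385 (.nr 1285 1025 (.lg 0 false 1 59 59 23 0 240) (.nx 1286 165142 (.lg 2
  true 1 47 47 23 19334 240) .out)) .out)))) .out) .out)) (.na 1291 225 (.lg 0 false 1 0 0 16 0 24)
  (.lg 0 false 1 0 0 16 0 24))) (.na 1316 228 (.na 1304 227 (.nx 1303 1321124 (.nr 1302 1482912
  (.nr 1293 226 .s1 (.nx 1296 241 (.nx 1295 240 (.nr 1294 2490 (.l1 (.ls 19 29 257)) (.l1 .sk))
  (.l1 .sk)) (.nx 1298 41287 (.lg 0 false 2 79 79 23 0 240) (.nr 1301 16385 (.nr 1299 1025 (.lg 0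
  false 1 61 61 23 0 720) (.nx 1300 165142 (.lg 2 false 1 47 47 23 19334 240) .out)) .out)))) .out)
  .out) (.nx 1315 1321124 (.nr 1314 1482912 (.nr 1305 227 .s1 (.nx 1307 240 (.nr 1306 2501 (.l1
  (.ls 19 19 256)) (.l1 .sk)) (.nx 1308 241 (.l1 .sk) (.nx 1310 41287 (.lg 0 false 2 79 79 17 0
  240) (.nr 1313 16385 (.nr 1311 1025 (.lg 0 false 1 59 59 17 0 240) (.nx 1312 165142 (.lg 2 false
  1 47 47 17 19334 240) .out)) .out))))) .out) .out)) (.na 1328 229 (.nx 1327 1321124 (.nr 1326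
  1482912 (.nr 1317 228 .s1 (.nx 1324 165142 (.nx 1319 240 (.nr 1318 2512 (.l1 (.ls 17 37 255))
  (.l1 .sk)) (.nx 1320 241 (.l1 .sk) (.nx 1322 26009 (.lg 0 false 2 83 89 37 0 720) (.nr 1323 65537
  (.lg 0 false 1 83 83 37 0 720) .out)))) (.nr 1325 1025 (.lg 0 true 1 67 67 37 0 720) .out)))
  .out) .out) (.nx 1339 1321124 (.nr 1338 1482912 (.nr 1329 229 .s1 (.nx 1331 240 (.nr 1330 2523
  (.l1 (.ls 19 19 254)) (.l1 .sk)) (.nx 1332 241 (.l1 .sk) (.nx 1334 41287 (.lg 0 false 2 79 79 17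
  0 240) (.nr 1337 16385 (.nr 1335 1025 (.lg 0 false 1 59 59 17 0 240) (.nx 1336 165142 (.lg 2 true
  1 47 47 17 19334 240) .out)) .out))))) .out) .out))))) (.na 1408 244 (.na 1384 239 (.na 1360 235
  (.na 1350 233 (.nx 1349 1321124 (.nr 1348 1482912 (.nr 1341 230 .s1 (.nx 1344 241 (.nx 1343 240
  (.nr 1342 2556 (.l1 (.ls 19 31 253)) (.l1 .sk)) (.l1 .sk)) (.nx 1346 41287 (.lg 0 false 2 83 83
  31 0 240) (.nr 1347 16385 (.lg 0 false 1 83 83 31 0 720) .out)))) .out) .out) (.nx 1359 1321124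
  (.nr 1358 1482912 (.nr 1351 233 .s1 (.nx 1354 241 (.nx 1353 240 (.nr 1352 2577 (.l1 (.ls 17 17
  250)) (.l1 .sk)) (.l1 .sk)) (.nx 1356 41287 (.lg 0 false 2 79 79 17 0 240) (.nr 1357 16385 (.lg 0
  false 1 79 79 17 0 720) .out)))) .out) .out)) (.na 1372 237 (.nx 1371 1321124 (.nr 1370 1482912
  (.nr 1361 235 .s1 (.nx 1366 41287 (.nx 1363 240 (.nr 1362 2599 (.l1 (.ls 17 19 248)) (.l1 .sk))
  (.nx 1364 241 (.l1 .sk) (.lg 0 false 2 79 79 19 0 240))) (.nr 1369 16385 (.nr 1367 1025 (.lg 0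
  false 1 61 61 17 0 240) (.nx 1368 165142 (.lg 2 false 1 53 53 17 19334 240) .out)) .out))) .out)
  .out) (.nx 1383 1321124 (.nr 1382 1482912 (.nr 1373 237 .s1 (.nx 1378 41287 (.nx 1375 240 (.nr
  1374 2621 (.l1 (.ls 19 23 246)) (.l1 .sk)) (.nx 1376 241 (.l1 .sk) (.lg 0 false 2 83 83 19 0
  720))) (.nr 1381 16385 (.nr 1379 1025 (.lg 0 false 1 61 61 19 0 720) (.nx 1380 165142 (.lg 2
  false 1 53 53 19 19334 720) .out)) .out))) .out) .out))) (.na 1397 241 (.na 1385 240 (.lg 0 false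
  1 0 0 16 0 24) (.nx 1396 1321124 (.nr 1395 1482912 (.nr 1386 240 .s1 (.nx 1388 240 (.nr 1387 2643
  (.l1 (.ls 29 37 242)) (.l1 .sk)) (.nx 1389 241 (.l1 .sk) (.nx 1391 26009 (.lg 0 false 2 83 83 37
  0 720) (.nr 1394 65537 (.nx 1392 165142 (.lg 0 true 1 79 79 31 0 720) (.nr 1393 1025 (.lg 0 true
  1 61 61 31 0 720) .out)) .out))))) .out) .out)) (.na 1407 243 (.nx 1406 1321124 (.nr 1405 1482912
  (.nr 1398 241 .s1 (.nx 1403 41287 (.nx 1400 240 (.nr 1399 2665 (.l1 (.ls 19 17 242)) (.l1 .sk))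
  (.nx 1401 241 (.l1 .sk) (.lg 0 false 2 79 79 17 0 240))) (.nr 1404 16385 (.lg 0 false 1 79 79 17
  0 720) .out))) .out) .out) (.lg 0 false 1 0 0 16 0 24)))) (.na 1445 251 (.na 1432 249 (.na 1420
  248 (.nx 1419 1321124 (.nr 1418 1482912 (.nr 1409 244 .s1 (.nx 1412 241 (.nx 1411 240 (.nr 1410
  2720 (.l1 (.ls 23 29 239)) (.l1 .sk)) (.l1 .sk)) (.nx 1414 26009 (.lg 0 false 2 83 83 29 0 240)
  (.nr 1417 65537 (.nx 1415 165142 (.lg 0 true 1 79 79 23 0 240) (.nr 1416 1025 (.lg 0 true 1 61 61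
  23 0 240) .out)) .out)))) .out) .out) (.nx 1431 1321124 (.nr 1430 1482912 (.nr 1421 248 .s1 (.nx
  1428 165142 (.nx 1423 240 (.nr 1422 2731 (.l1 (.ls 23 29 235)) (.l1 .sk)) (.nx 1424 241 (.l1 .sk)
  (.nx 1426 26009 (.lg 0 false 2 83 83 29 0 240) (.nr 1427 65537 (.lg 0 true 1 79 79 23 0 240)
  .out)))) (.nr 1429 1025 (.lg 0 true 1 61 61 23 0 240) .out))) .out) .out)) (.na 1444 250 (.nx
  1443 1321124 (.nr 1442 1482912 (.nr 1433 249 .s1 (.nx 1436 241 (.nx 1435 240 (.nr 1434 2742 (.l1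
  (.ls 19 23 234)) (.l1 .sk)) (.l1 .sk)) (.nx 1438 41287 (.lg 0 false 2 79 79 23 0 720) (.nr 1441
  16385 (.nr 1439 1025 (.lg 0 false 1 59 59 19 0 720) (.nx 1440 165142 (.lg 2 false 1 47 47 19
  19334 720) .out)) .out)))) .out) .out) (.lg 0 false 1 0 0 16 0 24))) (.na 1458 256 (.na 1446 255
  (.lg 0 false 1 0 0 16 0 24) (.nx 1457 1321124 (.nr 1456 1482912 (.nr 1447 255 .s1 (.nx 1449 240
  (.nr 1448 2808 (.l1 (.ls 16 29 228)) (.l1 .sk)) (.nx 1450 241 (.l1 .sk) (.nx 1452 41287 (.lg 0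
  false 2 79 79 29 0 720) (.nr 1455 16385 (.nr 1453 1025 (.lg 0 false 1 61 61 29 0 720) (.nx 1454
  165142 (.lg 2 true 1 53 53 29 19334 720) .out)) .out))))) .out) .out)) (.na 1469 257 (.nx 1468
  1321124 (.nr 1467 1482912 (.nr 1459 256 .s1 (.nx 1465 165142 (.nx 1461 240 (.nr 1460 2819 (.l1
  (.ls 37 29 227)) (.l1 .sk)) (.nx 1462 241 (.l1 .sk) (.nr 1463 65537 (.lg 0 true 1 79 89 31 0 720)
  (.nx 1464 26009 (.lg 0 false 1 89 97 31 0 720) .out)))) (.nr 1466 2049 (.lg 0 true 1 71 79 31 0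
  720) .out))) .out) .out) (.nx 1899 1321124 (.nr 1898 1482912 (.nr 1470 257 .s1 (.nx 1577 240 (.nr
  1576 3981 (.la (.ls 29 19 227)) (.l1 .sk)) (.nx 1578 241 (.l1 .sk) (.nx 1684 26009 (.la (.lg 0
  false 2 79 79 23 0)) (.nr 1897 32769 (.nx 1790 165142 (.la (.lg 0 true 1 67 67 19 0)) (.nr 1896
  2049 (.la (.lg 0 true 1 61 61 19 0)) .out)) .out))))) .out) .out))))))))

def T58_2 : Ph :=
  (.na 339 134 (.na 241 46 (.na 163 18 (.na 84 6 (.na 1 2 .ne (.na 83 3 (.nx 82 660563 (.nr 81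
  623489 (.nx 3 51 (.nr 2 14 (.lg 0 true 1 31 31 5 0 12240) (.l1 .sk)) (.nx 4 52 (.l1 .sk) (.nr 55
  27556 (.nx 17 5532 (.lg 0 false 13 89 89 9 0 10608) (.nx 41 104033 (.nr 30 613 (.lg 0 true 13 79
  79 9 0 10608) (.lg 2 false 11 101 101 9 6491 942480)) (.nr 54 154 (.lg 0 true 13 79 79 9 0 10608)
  .out))) (.nx 80 647 (.nr 66 131073 (.lg 0 false 11 83 83 9 0 8976) (.nx 79 103 (.lg 0 false 13 73
  73 9 0 10608) .out)) .out)))) .out) .out) .ne)) (.na 128 10 (.na 127 7 (.nx 126 660563 (.nr 125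
  220437 (.nx 86 51 (.nr 85 35 (.lg 0 false 1 23 23 7 0 12240) (.l1 .sk)) (.nx 87 52 (.l1 .sk) (.nr
  117 77937 (.nx 94 6503 (.lg 0 true 7 89 89 13 0 85680) (.nr 116 27556 (.nr 108 704 (.lg 0 true 14
  83 83 13 0 85680) (.nx 115 330282 (.lg 2 false 7 89 89 13 11964 85680) .out)) .out)) (.nx 124 647
  (.lg 0 false 7 73 73 13 0 17136) .out)))) .out) .out) .ne) (.na 162 16 (.nx 161 660563 (.nr 160
  623489 (.nr 129 8 .s1 (.nx 133 103 (.nx 131 51 (.nr 130 81 (.l1 (.ls 29 29 263)) (.l1 .sk)) (.nx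
  132 52 (.l1 .sk) (.l1 (.ls 83 37 793)))) (.nr 159 131073 (.nr 151 46342 (.nr 140 154 (.lg 0 true
  7 71 71 13 0 28560) (.nx 150 41287 (.nr 143 2671 (.nx 141 1301 (.lg 0 true 1 67 67 11 0 4080)
  (.lg 2 false 2 71 71 11 6837 4080)) (.lg 0 true 7 97 97 13 0 28560)) .out)) (.nx 158 6503 (.lg 0
  false 7 97 101 13 0 942480) .out)) .out))) .out) .out) .ne))) (.na 200 30 (.na 180 23 (.na 164 22
  (.lg 0 false 1 0 0 7 0 24) (.nx 179 660563 (.nr 178 623489 (.nr 165 21 .s1 (.nx 169 6503 (.nx 166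
  103 (.l1 (.ls 79 31 485)) (.nr 168 131073 (.lg 0 true 2 89 89 13 0 134640) .out)) (.nr 177 46342
  (.nr 174 257 (.lg 0 true 5 71 71 19 0 44880) (.nx 176 41287 (.lg 1 false 2 83 83 13 9279 26928)
  .out)) .out))) .out) .out)) (.na 181 26 .ne (.nx 199 660563 (.nr 198 131073 (.nr 182 26 .s1 (.nx
  184 51 (.nr 183 153 (.l1 (.ls 23 23 103)) (.l1 .sk)) (.nx 185 52 (.l1 .sk) (.nr 195 32769 (.nx
  190 41287 (.lg 0 false 5 73 73 19 0 53040) (.nr 194 257 (.lg 0 true 4 71 71 19 0 10608) .out))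
  (.nx 197 6503 (.lg 0 true 2 89 89 11 0 159120) .out))))) .out) .out))) (.na 215 34 (.na 214 32
  (.nx 213 660563 (.nr 212 131073 (.nr 201 30 .s1 (.nx 206 6503 (.nx 203 51 (.nr 202 163 (.l1 (.ls
  23 29 89)) (.l1 .sk)) (.nx 204 52 (.l1 .sk) (.lg 0 true 2 83 83 19 0 12240))) (.nr 211 32769 (.nr
  209 257 (.lg 0 true 3 71 71 23 0 12240) (.nx 210 41287 (.lg 1 false 1 83 83 19 6564 12240) .out))
  .out))) .out) .out) .ne) (.na 229 38 (.nx 228 82572 (.nr 227 262145 (.nr 216 34 .s1 (.nx 219 52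
  (.nx 218 51 (.nr 217 193 (.lg 0 false 1 0 16 11 0 12252240) (.l1 .sk)) (.l1 .sk)) (.nr 224 32769
  (.lg 0 true 5 79 79 13 0 4080) (.nx 226 2582 (.lg 0 true 2 73 73 13 0 816) .out)))) .out) .out)
  (.nx 240 82572 (.nr 239 262145 (.nr 230 38 .s1 (.nx 233 52 (.nx 232 51 (.nr 231 234 (.l1 (.ls 16
  17 71)) (.l1 .sk)) (.l1 .sk)) (.nx 237 41287 (.nr 235 32769 (.lg 0 false 2 83 83 13 0 816) (.nx
  236 2582 (.lg 0 true 1 83 83 13 0 816) .out)) (.nr 238 154 (.lg 0 true 1 53 53 13 0 816) .out))))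
  .out) .out))))) (.na 290 82 (.na 262 58 (.na 251 50 (.nx 250 82572 (.nr 249 262145 (.nr 242 46
  .s1 (.nx 245 52 (.nx 244 51 (.nr 243 254 (.l1 (.ls 19 17 59)) (.l1 .sk)) (.l1 .sk)) (.nr 247
  32769 (.lg 0 false 2 89 89 13 0 12240) (.nx 248 2582 (.lg 0 true 1 83 83 13 0 816) .out)))) .out)
  .out) (.na 261 54 (.nx 260 82572 (.nr 259 262145 (.nr 252 50 .s1 (.nx 254 51 (.nr 253 274 (.l1
  (.ls 16 19 55)) (.l1 .sk)) (.nx 255 52 (.l1 .sk) (.nr 257 32769 (.lg 0 false 2 83 83 19 0 12240)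
  (.nx 258 2582 (.lg 0 true 1 79 79 13 0 12240) .out))))) .out) .out) (.lg 0 false 1 0 0 16 0 24)))
  (.na 273 66 (.na 272 64 (.nx 271 82572 (.nr 270 262145 (.nr 263 58 .s1 (.nx 266 52 (.nx 265 51
  (.nr 264 325 (.l1 (.ls 19 13 47)) (.l1 .sk)) (.l1 .sk)) (.nr 268 32769 (.lg 0 false 2 83 83 13 0
  816) (.nx 269 2582 (.lg 0 true 1 79 79 13 0 816) .out)))) .out) .out) .ne) (.na 282 78 (.nx 281
  82572 (.nr 280 524289 (.nr 274 66 .s1 (.nx 277 6503 (.nx 275 647 (.l1 (.ls 73 53 6345)) (.nr 276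
  262145 (.lg 0 true 1 83 83 23 0 26928) .out)) (.nr 279 65537 (.lg 1 false 2 83 83 29 31903
  134640) .out))) .out) .out) (.nx 289 82572 (.nr 288 524289 (.nr 283 78 .s1 (.nx 286 6503 (.nx 284
  647 (.l1 (.ls 73 53 5369)) (.nr 285 262145 (.lg 0 true 1 83 83 23 0 31824) .out)) (.nr 287 65537
  (.lg 1 false 1 83 83 23 26995 31824) .out))) .out) .out)))) (.na 315 110 (.na 306 90 (.na 298 86
  (.nx 297 82572 (.nr 296 524289 (.nr 291 82 .s1 (.nx 292 647 (.l1 (.ls 73 47 5107)) (.nr 295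
  262145 (.nx 293 6503 (.lg 0 true 1 83 83 13 0 816) (.nr 294 65537 (.lg 1 false 1 89 89 13 25678
  12240) .out)) .out))) .out) .out) (.nx 305 82572 (.nr 304 524289 (.nr 299 86 .s1 (.nx 300 647
  (.l1 (.ls 73 41 4870)) (.nr 303 262145 (.nx 301 6503 (.lg 0 true 1 83 83 13 0 12240) (.nr 302
  65537 (.lg 1 false 1 83 83 13 24484 2448) .out)) .out))) .out) .out)) (.na 307 102 (.lg 0 false 1
  0 0 16 0 24) (.nx 314 82572 (.nr 313 524289 (.nr 308 102 .s1 (.nx 309 647 (.l1 (.ls 61 53 4107))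
  (.nr 312 262145 (.lg 0 true 3 79 79 29 0 2448) .out))) .out) .out))) (.na 332 128 (.na 323 114
  (.nx 322 82572 (.nr 321 524289 (.nr 316 110 .s1 (.nx 319 6503 (.nx 317 647 (.l1 (.ls 79 47 3808))
  (.nr 318 262145 (.lg 0 true 1 83 83 29 0 134640) .out)) (.nr 320 65537 (.lg 1 false 1 83 83 29
  19142 134640) .out))) .out) .out) (.nx 331 82572 (.nr 330 524289 (.nr 324 114 .s1 (.nx 328 41287
  (.nx 325 647 (.l1 (.ls 73 47 3675)) (.nr 327 262145 (.lg 0 true 2 89 89 31 0 12240) .out)) (.nr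
  329 257 (.lg 0 true 1 43 43 29 0 12240) .out))) .out) .out)) (.na 333 130 .ne (.nx 338 41287 (.nr
  337 1048577 (.nr 334 130 .s1 (.nx 335 647 (.l1 (.ls 79 47 3223)) (.nr 336 131073 (.lg 0 true 1 89
  89 29 0 53040) .out))) .out) .out)))))) (.na 414 246 (.na 376 190 (.na 357 150 (.na 345 138 (.nx
  344 41287 (.nr 343 1048577 (.nr 340 134 .s1 (.nx 341 647 (.l1 (.ls 61 41 3126)) (.nr 342 131073
  (.lg 0 true 1 83 83 19 0 816) .out))) .out) .out) (.na 351 142 (.nx 350 41287 (.nr 349 1048577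
  (.nr 346 138 .s1 (.nx 347 647 (.l1 (.ls 73 47 3036)) (.nr 348 131073 (.lg 0 true 1 83 83 19 0
  2448) .out))) .out) .out) (.nx 356 41287 (.nr 355 1048577 (.nr 352 142 .s1 (.nx 353 647 (.l1 (.ls
  67 41 2950)) (.nr 354 131073 (.lg 0 true 1 83 83 19 0 816) .out))) .out) .out))) (.na 364 170
  (.na 363 162 (.nx 362 41287 (.nr 361 1048577 (.nr 358 150 .s1 (.nx 359 647 (.l1 (.ls 73 47 2793))
  (.nr 360 131073 (.lg 0 true 1 83 83 29 0 12240) .out))) .out) .out) (.lg 0 false 1 0 0 16 0 24))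
  (.na 370 174 (.nx 369 41287 (.nr 368 1048577 (.nr 365 170 .s1 (.nx 366 647 (.l1 (.ls 71 43 2465))
  (.nr 367 131073 (.lg 0 true 1 79 79 29 0 12240) .out))) .out) .out) (.nx 375 41287 (.nr 374
  1048577 (.nr 371 174 .s1 (.nx 372 647 (.l1 (.ls 73 47 2408)) (.nr 373 131073 (.lg 0 true 1 79 79
  23 0 2448) .out))) .out) .out)))) (.na 395 226 (.na 383 206 (.na 382 198 (.nx 381 41287 (.nr 380
  1048577 (.nr 377 190 .s1 (.nx 378 647 (.l1 (.ls 73 43 2206)) (.nr 379 131073 (.lg 0 true 1 83 83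
  31 0 4080) .out))) .out) .out) (.lg 0 false 1 0 0 16 0 24)) (.na 389 214 (.nx 388 41287 (.nr 387
  1048577 (.nr 384 206 .s1 (.nx 385 647 (.l1 (.ls 67 37 2035)) (.nr 386 131073 (.lg 0 true 1 73 73
  23 0 12240) .out))) .out) .out) (.nx 394 41287 (.nr 393 1048577 (.nr 390 214 .s1 (.nx 391 647
  (.l1 (.ls 67 37 1959)) (.nr 392 131073 (.lg 0 true 1 73 73 23 0 12240) .out))) .out) .out))) (.na
  407 234 (.na 401 230 (.nx 400 41287 (.nr 399 1048577 (.nr 396 226 .s1 (.nx 397 647 (.l1 (.ls 67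
  37 1855)) (.nr 398 131073 (.lg 0 true 1 73 73 23 0 12240) .out))) .out) .out) (.nx 406 41287 (.nr
  405 1048577 (.nr 402 230 .s1 (.nx 403 647 (.l1 (.ls 79 43 1823)) (.nr 404 131073 (.lg 0 true 1 83
  83 31 0 4080) .out))) .out) .out)) (.na 408 242 (.lg 0 false 1 0 0 16 0 24) (.nx 413 41287 (.nr
  412 1048577 (.nr 409 242 .s1 (.nx 410 647 (.l1 (.ls 71 41 1732)) (.nr 411 131073 (.lg 0 true 1 73
  73 29 0 8976) .out))) .out) .out))))) (.na 1529 1449 (.na 433 257 (.na 426 254 (.na 420 250 (.nx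
  419 41287 (.nr 418 1048577 (.nr 415 246 .s1 (.nx 416 647 (.l1 (.ls 71 43 1704)) (.nr 417 131073
  (.lg 0 true 1 79 79 29 0 12240) .out))) .out) .out) (.nx 425 41287 (.nr 424 1048577 (.nr 421 250
  .s1 (.nx 422 647 (.l1 (.ls 67 41 1677)) (.nr 423 131073 (.lg 0 true 1 73 73 29 0 12240) .out)))
  .out) .out)) (.na 432 256 (.nx 431 41287 (.nr 430 1048577 (.nr 427 254 .s1 (.nx 428 647 (.l1 (.ls
  67 37 1651)) (.nr 429 131073 (.lg 0 true 1 73 73 23 0 816) .out))) .out) .out) .ne)) (.na 1011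
  725 (.na 743 512 (.nx 742 41287 (.nr 741 262145 (.nr 434 257 .s1 (.nx 486 52 (.nx 485 51 (.nr 484
  2599 (.lx (.lp 43 17 129)) (.l1 .sk)) (.l1 .sk)) (.la (.lg 0 true 1 73 73 23 0)))) .out) .out)
  (.nx 1010 41287 (.nr 1009 262145 (.nr 744 512 .s1 (.nx 796 52 (.nx 795 51 (.nr 794 3680 (.lx (.lp
  43 19 182)) (.l1 .sk)) (.l1 .sk)) (.la (.lg 0 true 1 67 67 23 0)))) .out) .out)) (.na 1270 1024
  (.nx 1269 257 (.nr 1268 65537 (.nr 1012 725 .s1 (.lx (.lp 61 23 257))) .out) .out) (.nx 1528 257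
  (.nr 1527 65537 (.nr 1271 1024 .s1 (.lx (.lp 59 23 363))) .out) .out)))) (.na 2565 5793 (.na 2047
  2897 (.na 1788 2048 (.nx 1787 257 (.nr 1786 16385 (.nr 1530 1449 .s1 (.lx (.lp 43 29 513))) .out)
  .out) (.nx 2046 257 (.nr 2045 32769 (.nr 1789 2048 .s1 (.lx (.lp 53 29 725))) .out) .out)) (.na
  2306 4096 (.nx 2305 257 (.nr 2304 32769 (.nr 2048 2897 .s1 (.lx (.lp 47 29 1025))) .out) .out)
  (.nx 2564 257 (.nr 2563 32769 (.nr 2307 4096 .s1 (.lx (.lp 16 29 1449))) .out) .out))) (.na 2775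
  16384 (.na 2670 8192 (.nx 2669 103 (.nr 2668 32769 (.nr 2566 5793 .s1 (.lx (.lp 16 0 2049)))
  .out) .out) (.nx 2774 103 (.nr 2773 32769 (.nr 2671 8192 .s1 (.lx (.lp 16 0 4097))) .out) .out))
  (.na 2777 32769 (.nx 2776 103 (.l1 .sk) .out) .out))))))

theorem c58 :
    OkQ ckI L10 249 1 3 0 34359738368 1 1099511627776 ∧
    OkQ ckI L10 240 30 363 0 34359738368 1 1099511627776 ∧
    OkQ ckI L5 51 1 1099511627776 0 34359738368 1 1099511627776 := by
  refine ⟨?_, ?_, ?_⟩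
  · refine fin 1992 1088 T58_0 ?_
    refine jn 8 (by decide +kernel) ?_
    refine jn 14 (by decide +kernel) ?_
    refine jn 19 (by decide +kernel) ?_
    refine jn 24 (by decide +kernel) ?_
    refine jn 28 (by decide +kernel) ?_
    refine jn 34 (by decide +kernel) ?_
    refine jn 38 (by decide +kernel) ?_
    refine jn 43 (by decide +kernel) ?_
    refine jn 48 (by decide +kernel) ?_
    refine jn 53 (by decide +kernel) ?_
    refine jn 59 (by decide +kernel) ?_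
    refine jn 64 (by decide +kernel) ?_
    refine jn 70 (by decide +kernel) ?_
    refine jn 75 (by decide +kernel) ?_
    refine jn 80 (by decide +kernel) ?_
    refine jn 84 (by decide +kernel) ?_
    refine jn 90 (by decide +kernel) ?_
    refine jn 94 (by decide +kernel) ?_
    refine jn 99 (by decide +kernel) ?_
    refine jn 104 (by decide +kernel) ?_
    refine jn 109 (by decide +kernel) ?_
    refine jn 115 (by decide +kernel) ?_
    refine jn 127 (by decide +kernel) ?_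
    refine jn 139 (by decide +kernel) ?_
    refine jn 151 (by decide +kernel) ?_
    refine jn 164 (by decide +kernel) ?_
    refine jn 171 (by decide +kernel) ?_
    refine jn 179 (by decide +kernel) ?_
    refine jn 186 (by decide +kernel) ?_
    refine jn 194 (by decide +kernel) ?_
    refine jn 195 (by decide +kernel) ?_
    refine jn 223 (by decide +kernel) ?_
    refine jn 254 (by decide +kernel) ?_
    refine jn 275 (by decide +kernel) ?_
    refine jn 292 (by decide +kernel) ?_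
    refine jn 312 (by decide +kernel) ?_
    refine jn 331 (by decide +kernel) ?_
    refine jn 345 (by decide +kernel) ?_
    refine jn 361 (by decide +kernel) ?_
    refine jn 377 (by decide +kernel) ?_
    refine jn 396 (by decide +kernel) ?_
    refine jn 415 (by decide +kernel) ?_
    refine jn 429 (by decide +kernel) ?_
    refine jn 445 (by decide +kernel) ?_
    refine jn 466 (by decide +kernel) ?_
    refine jn 473 (by decide +kernel) ?_
    refine jn 491 (by decide +kernel) ?_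
    refine jn 508 (by decide +kernel) ?_
    refine jn 525 (by decide +kernel) ?_
    refine jn 537 (by decide +kernel) ?_
    refine jn 549 (by decide +kernel) ?_
    refine jn 561 (by decide +kernel) ?_
    refine jn 573 (by decide +kernel) ?_
    refine jn 596 (by decide +kernel) ?_
    refine jn 613 (by decide +kernel) ?_
    refine jn 637 (by decide +kernel) ?_
    refine jn 660 (by decide +kernel) ?_
    refine jn 673 (by decide +kernel) ?_
    refine jn 681 (by decide +kernel) ?_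
    refine jn 688 (by decide +kernel) ?_
    refine jn 697 (by decide +kernel) ?_
    refine jn 705 (by decide +kernel) ?_
    refine jn 713 (by decide +kernel) ?_
    refine jn 722 (by decide +kernel) ?_
    refine jn 729 (by decide +kernel) ?_
    refine jn 737 (by decide +kernel) ?_
    refine jn 747 (by decide +kernel) ?_
    refine jn 752 (by decide +kernel) ?_
    refine jn 765 (by decide +kernel) ?_
    refine jn 778 (by decide +kernel) ?_
    refine jn 783 (by decide +kernel) ?_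
    refine jn 796 (by decide +kernel) ?_
    refine jn 821 (by decide +kernel) ?_
    refine jn 831 (by decide +kernel) ?_
    refine jn 847 (by decide +kernel) ?_
    refine jn 862 (by decide +kernel) ?_
    refine jn 878 (by decide +kernel) ?_
    refine jn 894 (by decide +kernel) ?_
    refine jn 911 (by decide +kernel) ?_
    refine jn 922 (by decide +kernel) ?_
    refine jn 948 (by decide +kernel) ?_
    refine jn 961 (by decide +kernel) ?_
    refine jn 982 (by decide +kernel) ?_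
    refine jn 992 (by decide +kernel) ?_
    refine jn 1018 (by decide +kernel) ?_
    refine jn 1045 (by decide +kernel) ?_
    refine jn 1072 (by decide +kernel) ?_
    exact je (by decide +kernel)
  · refine fin 240 1900 T58_1 ?_
    refine jn 23 (by decide +kernel) ?_
    refine jn 39 (by decide +kernel) ?_
    refine jn 48 (by decide +kernel) ?_
    refine jn 55 (by decide +kernel) ?_
    refine jn 63 (by decide +kernel) ?_
    refine jn 70 (by decide +kernel) ?_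
    refine jn 77 (by decide +kernel) ?_
    refine jn 87 (by decide +kernel) ?_
    refine jn 88 (by decide +kernel) ?_
    refine jn 89 (by decide +kernel) ?_
    refine jn 90 (by decide +kernel) ?_
    refine jn 91 (by decide +kernel) ?_
    refine jn 92 (by decide +kernel) ?_
    refine jn 93 (by decide +kernel) ?_
    refine jn 94 (by decide +kernel) ?_
    refine jn 95 (by decide +kernel) ?_
    refine jn 96 (by decide +kernel) ?_
    refine jn 97 (by decide +kernel) ?_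
    refine jn 98 (by decide +kernel) ?_
    refine jn 99 (by decide +kernel) ?_
    refine jn 100 (by decide +kernel) ?_
    refine jn 106 (by decide +kernel) ?_
    refine jn 107 (by decide +kernel) ?_
    refine jn 108 (by decide +kernel) ?_
    refine jn 109 (by decide +kernel) ?_
    refine jn 110 (by decide +kernel) ?_
    refine jn 111 (by decide +kernel) ?_
    refine jn 112 (by decide +kernel) ?_
    refine jn 113 (by decide +kernel) ?_
    refine jn 114 (by decide +kernel) ?_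
    refine jn 121 (by decide +kernel) ?_
    refine jn 132 (by decide +kernel) ?_
    refine jn 139 (by decide +kernel) ?_
    refine jn 154 (by decide +kernel) ?_
    refine jn 167 (by decide +kernel) ?_
    refine jn 174 (by decide +kernel) ?_
    refine jn 189 (by decide +kernel) ?_
    refine jn 201 (by decide +kernel) ?_
    refine jn 208 (by decide +kernel) ?_
    refine jn 217 (by decide +kernel) ?_
    refine jn 225 (by decide +kernel) ?_
    refine jn 240 (by decide +kernel) ?_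
    refine jn 250 (by decide +kernel) ?_
    refine jn 265 (by decide +kernel) ?_
    refine jn 275 (by decide +kernel) ?_
    refine jn 286 (by decide +kernel) ?_
    refine jn 289 (by decide +kernel) ?_
    refine jn 292 (by decide +kernel) ?_
    refine jn 296 (by decide +kernel) ?_
    refine jn 299 (by decide +kernel) ?_
    refine jn 316 (by decide +kernel) ?_
    refine jn 323 (by decide +kernel) ?_
    refine jn 338 (by decide +kernel) ?_
    refine jn 344 (by decide +kernel) ?_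
    refine jn 360 (by decide +kernel) ?_
    refine jn 366 (by decide +kernel) ?_
    refine jn 381 (by decide +kernel) ?_
    refine jn 387 (by decide +kernel) ?_
    refine jn 397 (by decide +kernel) ?_
    refine jn 399 (by decide +kernel) ?_
    refine jn 401 (by decide +kernel) ?_
    refine jn 402 (by decide +kernel) ?_
    refine jn 403 (by decide +kernel) ?_
    refine jn 404 (by decide +kernel) ?_
    refine jn 405 (by decide +kernel) ?_
    refine jn 419 (by decide +kernel) ?_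
    refine jn 430 (by decide +kernel) ?_
    refine jn 440 (by decide +kernel) ?_
    refine jn 441 (by decide +kernel) ?_
    refine jn 442 (by decide +kernel) ?_
    refine jn 443 (by decide +kernel) ?_
    refine jn 444 (by decide +kernel) ?_
    refine jn 445 (by decide +kernel) ?_
    refine jn 446 (by decide +kernel) ?_
    refine jn 447 (by decide +kernel) ?_
    refine jn 448 (by decide +kernel) ?_
    refine jn 449 (by decide +kernel) ?_
    refine jn 450 (by decide +kernel) ?_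
    refine jn 451 (by decide +kernel) ?_
    refine jn 452 (by decide +kernel) ?_
    refine jn 453 (by decide +kernel) ?_
    refine jn 466 (by decide +kernel) ?_
    refine jn 469 (by decide +kernel) ?_
    refine jn 471 (by decide +kernel) ?_
    refine jn 477 (by decide +kernel) ?_
    refine jn 490 (by decide +kernel) ?_
    refine jn 497 (by decide +kernel) ?_
    refine jn 508 (by decide +kernel) ?_
    refine jn 513 (by decide +kernel) ?_
    refine jn 518 (by decide +kernel) ?_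
    refine jn 525 (by decide +kernel) ?_
    refine jn 537 (by decide +kernel) ?_
    refine jn 548 (by decide +kernel) ?_
    refine jn 550 (by decide +kernel) ?_
    refine jn 552 (by decide +kernel) ?_
    refine jn 557 (by decide +kernel) ?_
    refine jn 571 (by decide +kernel) ?_
    refine jn 577 (by decide +kernel) ?_
    refine jn 591 (by decide +kernel) ?_
    refine jn 603 (by decide +kernel) ?_
    refine jn 612 (by decide +kernel) ?_
    refine jn 615 (by decide +kernel) ?_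
    refine jn 618 (by decide +kernel) ?_
    refine jn 635 (by decide +kernel) ?_
    refine jn 651 (by decide +kernel) ?_
    refine jn 662 (by decide +kernel) ?_
    refine jn 673 (by decide +kernel) ?_
    refine jn 685 (by decide +kernel) ?_
    refine jn 688 (by decide +kernel) ?_
    refine jn 691 (by decide +kernel) ?_
    refine jn 706 (by decide +kernel) ?_
    refine jn 718 (by decide +kernel) ?_
    refine jn 728 (by decide +kernel) ?_
    refine jn 740 (by decide +kernel) ?_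
    refine jn 752 (by decide +kernel) ?_
    refine jn 762 (by decide +kernel) ?_
    refine jn 777 (by decide +kernel) ?_
    refine jn 791 (by decide +kernel) ?_
    refine jn 808 (by decide +kernel) ?_
    refine jn 826 (by decide +kernel) ?_
    refine jn 843 (by decide +kernel) ?_
    refine jn 856 (by decide +kernel) ?_
    refine jn 860 (by decide +kernel) ?_
    refine jn 869 (by decide +kernel) ?_
    refine jn 870 (by decide +kernel) ?_
    refine jn 871 (by decide +kernel) ?_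
    refine jn 872 (by decide +kernel) ?_
    refine jn 875 (by decide +kernel) ?_
    refine jn 876 (by decide +kernel) ?_
    refine jn 877 (by decide +kernel) ?_
    refine jn 878 (by decide +kernel) ?_
    refine jn 892 (by decide +kernel) ?_
    refine jn 910 (by decide +kernel) ?_
    refine jn 924 (by decide +kernel) ?_
    refine jn 942 (by decide +kernel) ?_
    refine jn 959 (by decide +kernel) ?_
    refine jn 976 (by decide +kernel) ?_
    refine jn 987 (by decide +kernel) ?_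
    refine jn 998 (by decide +kernel) ?_
    refine jn 1007 (by decide +kernel) ?_
    refine jn 1022 (by decide +kernel) ?_
    refine jn 1034 (by decide +kernel) ?_
    refine jn 1045 (by decide +kernel) ?_
    refine jn 1060 (by decide +kernel) ?_
    refine jn 1077 (by decide +kernel) ?_
    refine jn 1090 (by decide +kernel) ?_
    refine jn 1104 (by decide +kernel) ?_
    refine jn 1119 (by decide +kernel) ?_
    refine jn 1134 (by decide +kernel) ?_
    refine jn 1145 (by decide +kernel) ?_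
    refine jn 1158 (by decide +kernel) ?_
    refine jn 1170 (by decide +kernel) ?_
    refine jn 1183 (by decide +kernel) ?_
    refine jn 1193 (by decide +kernel) ?_
    refine jn 1194 (by decide +kernel) ?_
    refine jn 1197 (by decide +kernel) ?_
    refine jn 1210 (by decide +kernel) ?_
    refine jn 1223 (by decide +kernel) ?_
    refine jn 1235 (by decide +kernel) ?_
    refine jn 1249 (by decide +kernel) ?_
    refine jn 1260 (by decide +kernel) ?_
    refine jn 1273 (by decide +kernel) ?_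
    refine jn 1293 (by decide +kernel) ?_
    refine jn 1306 (by decide +kernel) ?_
    refine jn 1322 (by decide +kernel) ?_
    refine jn 1334 (by decide +kernel) ?_
    refine jn 1347 (by decide +kernel) ?_
    refine jn 1366 (by decide +kernel) ?_
    refine jn 1379 (by decide +kernel) ?_
    refine jn 1392 (by decide +kernel) ?_
    refine jn 1404 (by decide +kernel) ?_
    refine jn 1415 (by decide +kernel) ?_
    refine jn 1427 (by decide +kernel) ?_
    refine jn 1440 (by decide +kernel) ?_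
    refine jn 1459 (by decide +kernel) ?_
    refine jn 1460 (by decide +kernel) ?_
    refine jn 1462 (by decide +kernel) ?_
    refine jn 1463 (by decide +kernel) ?_
    refine jn 1464 (by decide +kernel) ?_
    refine jn 1466 (by decide +kernel) ?_
    refine jn 1506 (by decide +kernel) ?_
    refine jn 1533 (by decide +kernel) ?_
    refine jn 1559 (by decide +kernel) ?_
    refine jn 1584 (by decide +kernel) ?_
    refine jn 1592 (by decide +kernel) ?_
    refine jn 1593 (by decide +kernel) ?_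
    refine jn 1594 (by decide +kernel) ?_
    refine jn 1597 (by decide +kernel) ?_
    refine jn 1599 (by decide +kernel) ?_
    refine jn 1606 (by decide +kernel) ?_
    refine jn 1614 (by decide +kernel) ?_
    refine jn 1625 (by decide +kernel) ?_
    refine jn 1626 (by decide +kernel) ?_
    refine jn 1637 (by decide +kernel) ?_
    refine jn 1639 (by decide +kernel) ?_
    refine jn 1641 (by decide +kernel) ?_
    refine jn 1642 (by decide +kernel) ?_
    refine jn 1648 (by decide +kernel) ?_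
    refine jn 1653 (by decide +kernel) ?_
    refine jn 1660 (by decide +kernel) ?_
    refine jn 1666 (by decide +kernel) ?_
    refine jn 1668 (by decide +kernel) ?_
    refine jn 1674 (by decide +kernel) ?_
    refine jn 1683 (by decide +kernel) ?_
    refine jn 1692 (by decide +kernel) ?_
    refine jn 1699 (by decide +kernel) ?_
    refine jn 1701 (by decide +kernel) ?_
    refine jn 1709 (by decide +kernel) ?_
    refine jn 1729 (by decide +kernel) ?_
    refine jn 1731 (by decide +kernel) ?_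
    refine jn 1732 (by decide +kernel) ?_
    refine jn 1744 (by decide +kernel) ?_
    refine jn 1747 (by decide +kernel) ?_
    refine jn 1750 (by decide +kernel) ?_
    refine jn 1759 (by decide +kernel) ?_
    refine jn 1767 (by decide +kernel) ?_
    refine jn 1774 (by decide +kernel) ?_
    refine jn 1789 (by decide +kernel) ?_
    refine jn 1804 (by decide +kernel) ?_
    refine jn 1805 (by decide +kernel) ?_
    refine jn 1807 (by decide +kernel) ?_
    refine jn 1815 (by decide +kernel) ?_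
    refine jn 1835 (by decide +kernel) ?_
    refine jn 1838 (by decide +kernel) ?_
    refine jn 1851 (by decide +kernel) ?_
    refine jn 1854 (by decide +kernel) ?_
    refine jn 1865 (by decide +kernel) ?_
    refine jn 1873 (by decide +kernel) ?_
    refine jn 1882 (by decide +kernel) ?_
    exact je (by decide +kernel)
  · refine fin 408 2778 T58_2 ?_
    refine jn 4 (by decide +kernel) ?_
    refine jn 6 (by decide +kernel) ?_
    refine jn 8 (by decide +kernel) ?_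
    refine jn 10 (by decide +kernel) ?_
    refine jn 12 (by decide +kernel) ?_
    refine jn 14 (by decide +kernel) ?_
    refine jn 16 (by decide +kernel) ?_
    refine jn 17 (by decide +kernel) ?_
    refine jn 20 (by decide +kernel) ?_
    refine jn 24 (by decide +kernel) ?_
    refine jn 28 (by decide +kernel) ?_
    refine jn 30 (by decide +kernel) ?_
    refine jn 41 (by decide +kernel) ?_
    refine jn 50 (by decide +kernel) ?_
    refine jn 54 (by decide +kernel) ?_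
    refine jn 79 (by decide +kernel) ?_
    refine jn 91 (by decide +kernel) ?_
    refine jn 94 (by decide +kernel) ?_
    refine jn 105 (by decide +kernel) ?_
    refine jn 115 (by decide +kernel) ?_
    refine jn 132 (by decide +kernel) ?_
    refine jn 133 (by decide +kernel) ?_
    refine jn 134 (by decide +kernel) ?_
    refine jn 135 (by decide +kernel) ?_
    refine jn 136 (by decide +kernel) ?_
    refine jn 137 (by decide +kernel) ?_
    refine jn 138 (by decide +kernel) ?_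
    refine jn 139 (by decide +kernel) ?_
    refine jn 140 (by decide +kernel) ?_
    refine jn 141 (by decide +kernel) ?_
    refine jn 142 (by decide +kernel) ?_
    refine jn 143 (by decide +kernel) ?_
    refine jn 144 (by decide +kernel) ?_
    refine jn 145 (by decide +kernel) ?_
    refine jn 146 (by decide +kernel) ?_
    refine jn 147 (by decide +kernel) ?_
    refine jn 148 (by decide +kernel) ?_
    refine jn 149 (by decide +kernel) ?_
    refine jn 150 (by decide +kernel) ?_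
    refine jn 165 (by decide +kernel) ?_
    refine jn 166 (by decide +kernel) ?_
    refine jn 168 (by decide +kernel) ?_
    refine jn 174 (by decide +kernel) ?_
    refine jn 185 (by decide +kernel) ?_
    refine jn 186 (by decide +kernel) ?_
    refine jn 187 (by decide +kernel) ?_
    refine jn 188 (by decide +kernel) ?_
    refine jn 189 (by decide +kernel) ?_
    refine jn 190 (by decide +kernel) ?_
    refine jn 197 (by decide +kernel) ?_
    refine jn 206 (by decide +kernel) ?_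
    refine jn 210 (by decide +kernel) ?_
    refine jn 230 (by decide +kernel) ?_
    refine jn 236 (by decide +kernel) ?_
    refine jn 247 (by decide +kernel) ?_
    refine jn 257 (by decide +kernel) ?_
    refine jn 269 (by decide +kernel) ?_
    refine jn 279 (by decide +kernel) ?_
    refine jn 287 (by decide +kernel) ?_
    refine jn 294 (by decide +kernel) ?_
    refine jn 302 (by decide +kernel) ?_
    refine jn 318 (by decide +kernel) ?_
    refine jn 327 (by decide +kernel) ?_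
    refine jn 336 (by decide +kernel) ?_
    refine jn 348 (by decide +kernel) ?_
    refine jn 360 (by decide +kernel) ?_
    refine jn 373 (by decide +kernel) ?_
    refine jn 386 (by decide +kernel) ?_
    refine jn 402 (by decide +kernel) ?_
    refine jn 411 (by decide +kernel) ?_
    refine jn 429 (by decide +kernel) ?_
    refine jn 515 (by decide +kernel) ?_
    refine jn 519 (by decide +kernel) ?_
    refine jn 543 (by decide +kernel) ?_
    refine jn 563 (by decide +kernel) ?_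
    refine jn 603 (by decide +kernel) ?_
    refine jn 623 (by decide +kernel) ?_
    refine jn 647 (by decide +kernel) ?_
    refine jn 659 (by decide +kernel) ?_
    refine jn 683 (by decide +kernel) ?_
    refine jn 723 (by decide +kernel) ?_
    refine jn 739 (by decide +kernel) ?_
    refine jn 834 (by decide +kernel) ?_
    refine jn 882 (by decide +kernel) ?_
    refine jn 906 (by decide +kernel) ?_
    refine jn 926 (by decide +kernel) ?_
    refine jn 946 (by decide +kernel) ?_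
    refine jn 974 (by decide +kernel) ?_
    refine jn 994 (by decide +kernel) ?_
    refine jn 1192 (by decide +kernel) ?_
    refine jn 1495 (by decide +kernel) ?_
    refine jn 1789 (by decide +kernel) ?_
    refine jn 2304 (by decide +kernel) ?_
    exact je (by decide +kernel)

end Pool.Agent.MP_2339ce_nt.NR
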