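import Pool.Agent.MP_2339ce_nt.Q2.NC.L6
import Pool.Agent.MP_2339ce_nt.Q2.NC.L9
import Pool.Agent.MP_2339ce_nt.Q2.NC.L10
import Pool.Agent.MP_2339ce_nt.Q2.CkI

/-! Block NR: runs. -/

set_option autoImplicit false
set_option maxRecDepth 100000

noncomputable section

namespace Pool.Agent.MP_2339ce_nt.NR

open Q2.Top

def T59_0 : Ph :=
  (.na 391 12 (.na 187 10 (.na 186 9 (.nx 185 21137969 (.nr 184 1482912 (.nx 151 1321124 (.nx 2 231
  (.nr 1 96 (.lg 0 true 1 43 43 11 0 3696) (.l1 .sk)) (.nx 3 232 (.l1 .sk) (.nx 34 32768 (.nr 22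
  370729 (.nr 16 220437 (.lg 0 false 13 101 107 19 0 720720) (.nx 21 2582 (.lg 0 false 5 89 101 13
  0 55440) .out)) (.nx 33 814 (.nr 27 881745 (.lg 0 false 5 89 97 13 0 55440) (.nx 32 408 (.lg 0
  false 5 83 83 13 0 18480) .out)) .out)) (.nr 150 311745 (.nr 47 1227 (.lg 0 true 13 97 101 19 0
  720720) (.nx 74 65536 (.nr 73 262145 (.nx 60 46340 (.lg 1 false 13 97 107 19 213637 720720) (.lg
  1 false 13 97 109 19 151066 720720)) .out) (.nx 87 92681 (.lg 1 false 13 97 109 19 127011 720720)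
  (.nr 92 4896 (.lg 2 true 5 97 101 13 124361 55440) (.nr 96 19534 (.nr 94 9779 (.lg 2 true 2 97
  101 11 31167 55440) (.lg 2 true 2 97 101 11 15604 55440)) (.nx 109 131072 (.lg 1 false 13 97 109
  19 89811 720720) (.nx 122 185364 (.lg 1 false 13 97 107 19 63505 720720) (.nx 141 330282 (.nx 135
  262145 (.lg 1 true 13 97 109 19 44905 720720) (.nr 140 185365 (.lg 1 true 5 101 107 13 18890
  720720) .out)) (.nr 149 110219 (.nr 146 77937 (.lg 2 false 5 97 103 13 7812 720720) (.nx 147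
  660561 .out (.lg 2 false 2 97 101 11 4462 55440))) .out))))))))) .out)))) (.nr 183 154 (.nx 156
  2642247 (.lg 0 true 5 83 89 13 0 18480) (.nr 182 55 (.lg 0 true 26 83 83 13 0 48048) .out))
  .out)) .out) .out) (.lg 0 false 1 0 0 7 0 24)) (.na 294 11 (.nx 293 2642247 (.nr 292 1246976 (.nx
  189 231 (.nr 188 118 (.lg 0 false 1 37 37 11 0 18480) (.l1 .sk)) (.nx 190 232 (.l1 .sk) (.nr 282
  370729 (.nx 208 32768 (.nr 203 220437 (.lg 0 false 13 101 103 19 0 720720) (.nx 207 1627 (.lg 0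
  false 4 89 89 13 0 18480) .out)) (.nr 281 311745 (.nx 273 1321124 (.nr 223 8949 (.nr 221 4349
  (.nr 217 1027 (.lg 0 true 9 89 97 17 0 55440) (.lg 2 true 4 97 97 13 148579 55440)) (.lg 2 false
  2 89 89 11 35087 18480)) (.nx 250 131072 (.nx 237 65536 (.nr 236 262145 (.lg 1 false 13 101 107
  19 213637 720720) .out) (.lg 1 false 13 101 107 19 127011 720720)) (.nx 263 262145 (.lg 1 true 13
  101 107 19 63505 720720) (.nr 272 185365 (.lg 2 false 9 101 103 17 18890 720720) .out)))) (.nr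
  280 65 (.lg 0 true 7 73 73 13 0 18480) .out)) .out)) (.nx 291 814 (.lg 0 false 9 83 89 17 0
  55440) .out)))) .out) .out) (.nx 390 2642247 (.nr 389 1246976 (.nx 297 232 (.nx 296 231 (.nr 295
  129 (.lg 0 true 1 37 37 9 0 55440) (.l1 .sk)) (.l1 .sk)) (.nx 381 1321124 (.nx 298 324 (.l1 (.ls
  83 37 4653)) (.nr 380 1048577 (.nx 299 408 (.l1 (.ls 83 41 5592)) (.nr 379 741457 (.nx 321 65536
  (.nr 312 262145 (.lg 0 false 13 101 103 16 0 720720) (.nx 320 1292 (.lg 0 false 8 79 79 16 0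
  3696) .out)) (.nr 378 311745 (.nr 334 1090 (.lg 0 true 13 83 83 16 0 24024) (.nr 338 9219 (.lg 2
  false 4 97 97 9 139991 55440) (.nx 351 131072 (.lg 1 false 13 101 103 16 127011 720720) (.nx 364
  262145 (.lg 1 true 13 101 103 16 63505 720720) (.nr 377 185365 (.lg 2 false 13 97 101 16 18890
  720720) .out))))) .out)) .out)) .out)) (.nr 388 65 (.lg 0 true 7 61 61 9 0 1848) .out))) .out)
  .out))) (.na 554 14 (.na 481 13 (.nx 480 2642247 (.nr 479 1246976 (.nx 470 660563 (.nx 394 232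
  (.nx 393 231 (.nr 392 140 (.lg 0 false 1 37 37 13 0 11088) (.l1 .sk)) (.l1 .sk)) (.nx 395 324
  (.l1 (.ls 97 47 4265)) (.nr 469 1048577 (.nx 396 408 (.l1 (.ls 89 47 5127)) (.nr 468 741457 (.nx
  415 41285 (.nr 409 220437 (.lg 0 false 13 101 103 23 0 720720) (.nx 414 1627 (.lg 0 false 5 89 89
  17 0 55440) .out)) (.nr 467 311745 (.nr 420 1087 (.lg 0 true 5 89 89 17 0 55440) (.nr 425 8440
  (.lg 2 true 5 89 97 17 70189 55440) (.nx 449 165142 (.nx 444 116772 (.nx 439 82570 (.nr 438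
  262145 (.lg 1 false 13 97 107 23 169563 720720) .out) (.lg 1 false 5 101 103 17 100809 720720))
  (.lg 1 false 5 101 103 17 71282 720720)) (.nr 466 262145 (.nx 454 208065 (.lg 1 true 5 101 103 17
  42390 720720) (.nr 465 220437 (.nx 459 330282 (.lg 1 true 5 101 103 17 28297 720720) (.nr 464
  77937 (.lg 2 false 5 89 97 17 9040 55440) .out)) .out)) .out)))) .out)) .out)) .out))) (.nr 478
  65 (.lg 0 true 8 73 73 19 0 11088) .out)) .out) .out) (.nx 553 2642247 (.nr 552 1246976 (.nx 484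
  232 (.nx 483 231 (.nr 482 150 (.lg 0 true 1 41 41 9 0 720720) (.l1 .sk)) (.l1 .sk)) (.nx 487 408
  (.nx 485 324 (.l1 (.ls 89 37 3937)) (.nr 486 1048577 (.l1 (.ls 89 41 4732)) .out)) (.nr 551
  741457 (.nx 500 41285 (.nr 495 220437 (.lg 0 false 8 101 107 16 0 720720) (.nx 499 1627 (.lg 0
  false 4 89 89 16 0 48048) .out)) (.nr 550 311745 (.nx 541 660563 (.nr 509 8636 (.nr 505 1138 (.lg
  0 true 5 83 83 16 0 120120) (.lg 2 true 4 97 97 16 67044 720720)) (.nx 531 208065 (.nx 526 165142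
  (.nx 518 82570 (.nr 517 262145 (.lg 1 false 8 101 103 16 169563 720720) .out) (.nx 522 116772
  (.lg 1 false 4 103 103 16 100809 720720) (.lg 1 false 4 103 103 16 71282 720720))) (.nr 530
  262145 (.lg 1 true 4 101 103 16 42390 720720) .out)) (.nr 540 220437 (.nx 535 330282 (.lg 1 true
  4 103 103 16 28297 720720) (.nr 539 77937 (.lg 2 false 4 97 97 16 8835 720720) .out)) .out)))
  (.nr 549 65 (.lg 0 true 8 73 73 16 0 48048) .out)) .out)) .out))) .out) .out)) (.na 625 15 (.nx
  624 2642247 (.nr 623 1246976 (.nx 557 232 (.nx 556 231 (.nr 555 161 (.lg 0 true 1 31 31 11 0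
  3696) (.l1 .sk)) (.l1 .sk)) (.nx 558 408 (.l1 (.ls 83 47 8048)) (.nr 622 741457 (.nx 577 82570
  (.nr 571 262145 (.lg 0 false 13 101 103 17 0 720720) (.nx 576 1627 (.lg 0 false 5 79 79 13 0
  18480) .out)) (.nr 621 311745 (.nx 613 660563 (.nr 586 2326 (.lg 0 true 9 83 83 13 0 11088) (.nx
  599 165142 (.lg 1 false 13 97 103 17 100809 720720) (.nr 612 262145 (.lg 2 false 13 97 103 17
  42390 720720) .out))) (.nr 620 65 (.lg 0 true 7 67 67 13 0 3696) .out)) .out)) .out))) .out)
  .out) (.nx 700 2642247 (.nr 699 1246976 (.nx 628 232 (.nx 627 231 (.nr 626 172 (.lg 0 true 1 37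
  37 16 0 55440) (.l1 .sk)) (.l1 .sk)) (.nx 631 408 (.nx 629 324 (.l1 (.ls 89 41 3413)) (.nr 630
  1048577 (.l1 (.ls 89 41 4102)) .out)) (.nr 698 741457 (.nx 649 41285 (.nr 644 220437 (.lg 0 false
  13 97 103 17 0 720720) (.nx 648 1627 (.lg 0 false 4 89 89 16 0 55440) .out)) (.nr 697 311745 (.nx
  689 660563 (.nr 657 9039 (.nr 653 1246 (.lg 0 true 4 83 83 16 0 55440) (.lg 2 true 4 89 89 16
  61232 55440)) (.nx 684 330282 (.nx 666 82570 (.nr 665 262145 (.lg 1 false 8 97 103 17 169563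
  55440) .out) (.nx 670 116772 (.lg 1 false 4 101 101 16 100809 55440) (.nx 674 165142 (.lg 1 false
  4 101 101 16 71282 55440) (.nr 683 262145 (.nx 678 208065 (.lg 1 true 4 97 101 16 42390 55440)
  (.nr 682 220437 (.lg 1 true 4 101 101 16 28297 55440) .out)) .out)))) (.nr 688 77937 (.lg 2 false
  4 89 89 16 8441 55440) .out))) (.nr 696 65 (.lg 0 true 7 71 71 16 0 27720) .out)) .out)) .out)))
  .out) .out))))

def T59_1 : Ph :=
  (.na 903 46 (.na 595 26 (.na 400 14 (.na 268 10 (.na 160 7 (.nx 159 16777217 (.nr 158 1048577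
  (.nx 2 185 (.nr 1 67 (.lg 0 true 1 41 41 7 0 26640) (.l1 .sk)) (.nx 3 186 (.l1 .sk) (.nx 106
  660563 (.nr 98 370729 (.nx 24 30782 (.nr 16 155873 (.lg 0 false 13 103 109 19 0 26666640) (.nx 23
  2049 (.lg 0 false 7 97 97 13 0 186480) .out)) (.nr 97 220437 (.nr 37 1026 (.lg 0 true 13 89 97 19
  0 346320) (.nx 45 41285 (.nr 44 155873 (.lg 1 false 7 101 103 13 86759 2051280) .out) (.nx 53
  52015 (.nr 52 185365 (.lg 1 false 7 101 103 13 76911 2051280) .out) (.nx 82 208065 (.nx 74 165142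
  (.nx 60 76448 (.lg 1 false 7 103 107 13 72584 2051280) (.nx 67 112360 (.lg 1 false 7 103 107 13
  49386 2051280) (.lg 1 true 7 103 107 13 33602 2051280))) (.nr 81 185365 (.lg 1 true 7 101 103 13
  19228 2051280) .out)) (.nr 96 77937 (.nr 89 8201 (.lg 2 true 7 97 101 13 59554 186480) (.lg 2
  false 7 97 101 13 7451 186480)) .out))))) .out)) (.nx 105 324 (.lg 0 false 7 83 83 13 0 186480)
  .out)) (.nr 157 257 (.nr 145 43 (.lg 0 true 39 83 89 13 0 346320) (.nx 156 2097153 (.lg 0 true 11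
  83 89 17 0 293040) .out)) .out)))) .out) .out) (.na 161 9 .ne (.nx 267 16777217 (.nr 266 1048577
  (.nx 189 41285 (.nx 163 185 (.nr 162 96 (.lg 0 true 1 29 29 7 0 93240) (.l1 .sk)) (.nx 164 186
  (.l1 .sk) (.nx 165 257 (.l1 (.ls 89 37 3497)) (.nr 188 623489 (.nr 176 185365 (.lg 0 false 11 101
  107 16 0 13333320) (.nx 187 2049 (.lg 0 false 11 83 97 16 0 1025640) .out)) .out)))) (.nr 265
  220437 (.nx 236 2097153 (.nr 200 764 (.lg 0 true 11 89 89 16 0 146520) (.nx 235 832257 (.nr 204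
  3370 (.lg 2 true 4 89 89 16 100765 186480) (.nr 208 14862 (.lg 2 true 4 89 97 16 22844 186480)
  (.nx 219 92682 (.lg 1 false 11 101 107 16 91449 13333320) (.nx 230 208065 (.lg 1 true 11 101 107
  16 40736 13333320) (.nr 234 110219 (.lg 2 false 4 101 101 16 9081 186480) .out))))) .out)) (.nr
  264 65 (.lg 0 true 28 83 83 16 0 186480) .out)) .out)) .out) .out))) (.na 343 12 (.nx 342 2097153
  (.nr 341 1048577 (.nx 271 186 (.nx 270 185 (.nr 269 115 (.lg 0 true 1 37 41 9 0 186480) (.l1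
  .sk)) (.l1 .sk)) (.nx 294 52015 (.nx 272 257 (.l1 (.ls 83 43 3148)) (.nr 293 623489 (.nr 285
  185365 (.lg 0 false 13 101 103 13 0 2424240) (.nx 292 1292 (.lg 0 false 7 83 83 13 0 186480)
  .out)) .out)) (.nr 340 220437 (.nx 330 660563 (.nr 305 1786 (.lg 0 true 11 89 89 13 0 293040)
  (.nx 316 104033 (.lg 1 false 11 101 103 13 72584 2051280) (.nr 329 185365 (.lg 2 false 13 101 103
  13 34212 2424240) .out))) (.nr 339 65 (.lg 0 true 9 67 67 13 0 26640) .out)) .out))) .out) .out)
  (.na 344 13 .ne (.nx 399 2097153 (.nr 398 1048577 (.nx 390 660563 (.nx 348 257 (.nx 346 185 (.nr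
  345 135 (.lg 0 false 1 29 29 9 0 173160) (.l1 .sk)) (.nx 347 186 (.l1 .sk) (.l1 (.ls 89 37
  2422)))) (.nr 389 623489 (.nr 384 185365 (.nx 359 48160 (.lg 0 false 11 103 107 16 0 26666640)
  (.nr 369 4194 (.nr 366 1061 (.lg 0 true 7 83 83 16 0 1212120) (.lg 2 true 3 83 83 11 57590
  173160)) (.nx 376 104033 (.lg 1 false 7 101 103 16 65932 2424240) (.nr 383 155873 (.lg 2 false 7
  101 103 16 25671 2424240) .out)))) (.nx 388 1292 (.lg 0 false 4 89 89 16 0 346320) .out)) .out))
  (.nr 397 65 (.lg 0 true 7 71 71 16 0 1212120) .out)) .out) .out)))) (.na 497 19 (.na 448 16 (.nx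
  447 2097153 (.nr 446 1048577 (.nr 401 4 .s1 (.nx 404 186 (.nx 403 185 (.nr 402 154 (.lg 0 false 1
  41 41 11 0 2424240) (.l1 .sk)) (.l1 .sk)) (.nx 405 257 (.l1 (.ls 89 41 2249)) (.nr 445 623489
  (.nr 440 185365 (.nx 416 48160 (.lg 0 false 11 101 103 19 0 2051280) (.nx 433 660563 (.nr 422
  1158 (.lg 0 true 6 89 89 13 0 186480) (.lg 2 false 11 103 109 19 65932 26666640)) (.nr 439 65
  (.lg 0 true 6 73 73 13 0 186480) .out))) (.nx 444 1292 (.lg 0 false 4 89 89 13 0 186480) .out))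
  .out)))) .out) .out) (.na 449 18 .ne (.nx 496 2097153 (.nr 495 1048577 (.nr 450 12 .s1 (.nx 453
  186 (.nx 452 185 (.nr 451 183 (.lg 0 false 1 29 29 13 0 26640) (.l1 .sk)) (.l1 .sk)) (.nx 471
  41286 (.nx 454 324 (.l1 (.ls 89 47 3913)) (.nr 470 623489 (.nr 465 262145 (.lg 0 false 11 101 107
  23 0 26666640) (.nx 469 2049 (.lg 0 false 4 83 83 19 0 26640) .out)) .out)) (.nr 494 155873 (.nr
  482 751 (.lg 0 true 11 83 83 23 0 293040) (.nx 493 416129 (.lg 2 false 11 101 107 23 64685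
  26666640) .out)) .out)))) .out) .out))) (.na 543 21 (.nx 542 2097153 (.nr 541 1048577 (.nr 498 14
  .s1 (.nx 500 185 (.nr 499 202 (.lg 0 false 1 29 29 11 0 93240) (.l1 .sk)) (.nx 501 186 (.l1 .sk)
  (.nx 533 416129 (.nx 502 324 (.l1 (.ls 89 37 3707)) (.nr 532 623489 (.nx 518 41286 (.nr 513
  262145 (.lg 0 false 11 101 107 16 0 2051280) (.nx 517 2049 (.lg 0 false 4 89 89 16 0 26640)
  .out)) (.nr 531 155873 (.nr 522 2200 (.lg 0 true 4 89 89 16 0 26640) (.nx 526 82572 (.lg 1 false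
  4 101 103 16 64685 186480) (.nr 530 131073 (.lg 2 false 4 101 103 16 27203 186480) .out))) .out))
  .out)) (.nr 540 257 (.lg 0 true 7 79 79 16 0 93240) .out))))) .out) .out) (.na 594 23 (.nx 593
  2097153 (.nr 592 1048577 (.nr 544 17 .s1 (.nx 547 186 (.nx 546 185 (.nr 545 222 (.lg 0 false 1 31
  31 16 0 93240) (.l1 .sk)) (.l1 .sk)) (.nx 548 324 (.l1 (.ls 97 41 3354)) (.nr 591 623489 (.nx 557
  20644 (.nr 552 262145 (.lg 0 false 4 101 101 17 0 186480) (.nx 556 2049 (.lg 0 false 4 89 97 17 0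
  186480) .out)) (.nr 590 155873 (.nx 585 660563 (.nr 561 751 (.lg 0 true 4 83 83 17 0 186480) (.nx
  584 416129 (.nr 569 65537 (.lg 2 true 8 89 89 19 54481 186480) (.nx 583 262145 (.nx 573 82572
  (.lg 0 false 4 103 107 17 0 26666640) (.nr 582 131073 (.nr 577 92683 (.lg 0 true 4 103 107 17 0
  26666640) (.nx 581 165142 (.lg 0 true 4 103 107 17 0 26666640) .out)) .out)) .out)) .out)) (.nr
  589 129 (.lg 0 true 4 79 79 17 0 186480) .out)) .out)) .out)))) .out) .out) .ne)))) (.na 754 35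
  (.na 696 31 (.na 628 27 (.nx 627 2097153 (.nr 626 1048577 (.nr 596 23 .s1 (.nx 599 186 (.nx 598
  185 (.nr 597 260 (.lg 0 false 1 29 29 11 0 2424240) (.l1 .sk)) (.l1 .sk)) (.nx 614 41287 (.nx 600
  324 (.l1 (.ls 89 43 2709)) (.nr 613 524289 (.nr 611 370729 (.lg 0 false 11 101 103 23 0 26666640)
  (.nx 612 1292 (.lg 0 true 1 83 83 11 0 346320) .out)) .out)) (.nr 625 110219 (.nr 621 653 (.lg 0
  true 7 83 83 19 0 2424240) (.nx 624 330282 (.lg 2 false 3 101 103 11 46786 2424240) .out))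
  .out)))) .out) .out) (.na 663 30 (.nx 662 2097153 (.nr 661 1048577 (.nr 629 24 .s1 (.nx 633 324
  (.nx 631 185 (.nr 630 289 (.lg 0 false 1 23 23 16 0 13320) (.l1 .sk)) (.nx 632 186 (.l1 .sk) (.l1
  (.ls 79 37 2609)))) (.nr 660 524289 (.nx 642 20644 (.nr 640 370729 (.lg 0 false 7 89 97 17 0
  93240) (.nx 641 1292 (.lg 0 true 1 79 79 16 0 13320) .out)) (.nr 659 131073 (.nr 649 855 (.lg 0
  true 7 79 79 17 0 93240) (.nx 658 330282 (.nx 653 52017 (.lg 1 false 4 89 97 16 108807 26640)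
  (.nr 657 92683 (.lg 2 false 4 89 89 16 35733 26640) .out)) .out)) .out)) .out))) .out) .out) (.nx
  695 2097153 (.nr 694 1048577 (.nr 664 27 .s1 (.nx 682 52017 (.nx 666 185 (.nr 665 299 (.lg 0
  false 1 23 23 19 0 186480) (.l1 .sk)) (.nx 667 186 (.l1 .sk) (.nx 668 324 (.l1 (.ls 83 47 2349))
  (.nr 681 524289 (.nr 679 370729 (.lg 0 false 11 97 103 29 0 2051280) (.nx 680 1292 (.lg 0 true 1
  79 79 19 0 26640) .out)) .out)))) (.nr 693 92683 (.nr 689 878 (.lg 0 true 7 79 83 29 0 186480)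
  (.nx 692 330282 (.lg 2 false 3 97 97 23 34797 186480) .out)) .out))) .out) .out))) (.na 726 32
  (.nx 725 2097153 (.nr 724 1048577 (.nr 697 28 .s1 (.nx 700 186 (.nx 699 185 (.nr 698 308 (.lg 0
  true 1 23 23 13 0 1212120) (.l1 .sk)) (.l1 .sk)) (.nx 701 324 (.l1 (.ls 83 29 2273)) (.nr 723
  524289 (.nr 718 185365 (.nx 705 52017 (.lg 0 false 4 101 103 16 0 186480) (.nr 717 92683 (.nr 712
  899 (.lg 0 true 7 79 83 16 0 93240) (.nx 716 330282 (.lg 2 false 4 97 97 16 33984 26640) .out))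
  .out)) (.nx 722 13005 (.lg 0 false 4 97 97 16 0 26640) .out)) .out)))) .out) .out) (.na 727 34
  .ne (.nx 753 2097153 (.nr 752 881745 (.nr 728 32 .s1 (.nx 730 185 (.nr 729 337 (.lg 0 false 1 23
  23 13 0 26640) (.l1 .sk)) (.nx 731 186 (.l1 .sk) (.nx 732 324 (.l1 (.ls 83 41 2073)) (.nr 751
  623489 (.nx 739 26009 (.lg 0 false 7 101 103 23 0 186480) (.nr 750 77937 (.nr 746 337 (.lg 0 true
  7 79 79 23 0 186480) (.nx 749 208065 (.lg 2 false 3 101 101 13 57110 26640) .out)) .out))
  .out))))) .out) .out)))) (.na 835 41 (.na 781 37 (.nx 780 2097153 (.nr 779 881745 (.nr 755 33 .s1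
  (.nx 757 185 (.nr 756 357 (.lg 0 false 1 29 29 16 0 2424240) (.l1 .sk)) (.nx 758 186 (.l1 .sk)
  (.nx 759 324 (.l1 (.ls 79 37 2013)) (.nr 778 623489 (.nx 768 26009 (.nr 763 155873 (.lg 0 false 4
  89 89 17 0 186480) (.nx 767 13005 (.lg 0 false 4 97 97 17 0 186480) .out)) (.nr 777 77937 (.nr
  772 357 (.lg 0 true 4 73 73 17 0 186480) (.nx 776 208065 (.lg 2 false 4 89 97 17 53911 186480)
  .out)) .out)) .out))))) .out) .out) (.na 809 38 (.nx 808 2097153 (.nr 807 881745 (.nr 782 35 .s1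
  (.nx 783 324 (.l1 (.ls 73 31 2840)) (.nr 806 623489 (.nx 794 26009 (.lg 0 false 11 89 89 16 0
  1025640) (.nr 805 77937 (.nr 800 366 (.lg 0 true 6 67 67 16 0 26640) (.nx 804 208065 (.lg 2 true
  4 83 83 16 52585 186480) .out)) .out)) .out))) .out) .out) (.nx 834 2097153 (.nr 833 881745 (.nr
  810 36 .s1 (.nx 814 324 (.nx 812 185 (.nr 811 395 (.lg 0 true 1 23 23 13 0 26640) (.l1 .sk)) (.nx
  813 186 (.l1 .sk) (.l1 (.ls 83 41 1855)))) (.nr 832 623489 (.nx 821 26009 (.lg 0 false 7 97 103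
  17 0 186480) (.nr 831 77937 (.nr 827 395 (.lg 0 true 6 73 79 17 0 26640) (.nx 830 208065 (.lg 2
  false 3 97 97 13 51401 26640) .out)) .out)) .out))) .out) .out))) (.na 859 42 (.nx 858 2097153
  (.nr 857 881745 (.nr 836 39 .s1 (.nx 840 324 (.nx 838 185 (.nr 837 405 (.lg 0 false 1 17 17 16 0
  13320) (.l1 .sk)) (.nx 839 186 (.l1 .sk) (.l1 (.ls 79 29 1719)))) (.nr 856 623489 (.nx 847 26009
  (.lg 0 false 7 97 101 16 0 1212120) (.nr 855 77937 (.nr 851 405 (.lg 0 true 4 73 73 16 0 26640)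
  (.nx 854 208065 (.lg 2 false 3 89 89 16 51401 13320) .out)) .out)) .out))) .out) .out) (.na 881
  45 (.nx 880 2097153 (.nr 879 881745 (.nr 860 40 .s1 (.nx 863 186 (.nx 862 185 (.nr 861 434 (.l1
  (.ls 31 41 817)) (.l1 .sk)) (.l1 .sk)) (.nx 875 208065 (.nx 864 324 (.l1 (.ls 89 43 1678)) (.nr
  874 623489 (.nr 870 155873 (.nx 866 32769 (.lg 0 false 2 101 101 29 0 186480) (.nr 869 65537 (.nr
  867 1225 (.lg 0 false 1 79 79 23 0 186480) (.lg 2 false 2 97 97 29 34322 186480)) .out)) (.nx 873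
  13005 (.lg 0 false 3 97 101 29 0 186480) .out)) .out)) (.nr 878 257 (.lg 0 true 3 73 73 29 0
  186480) .out)))) .out) .out) (.nx 902 2097153 (.nr 901 881745 (.nr 882 43 .s1 (.nx 886 324 (.nx
  884 185 (.nr 883 443 (.l1 (.ls 19 31 763)) (.l1 .sk)) (.nx 885 186 (.l1 .sk) (.l1 (.ls 73 37
  1567)))) (.nr 900 623489 (.nx 890 26009 (.lg 0 false 4 97 97 19 0 26640) (.nr 899 77937 (.nr 894
  443 (.lg 0 true 4 71 71 19 0 26640) (.nx 898 208065 (.lg 2 false 4 83 89 19 51401 26640) .out))
  .out)) .out))) .out) .out)))))) (.na 1069 75 (.na 979 63 (.na 926 54 (.na 904 50 .ne (.na 905 51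
  (.lg 0 false 1 0 0 16 0 24) (.nx 925 2097153 (.nr 924 881745 (.nr 906 50 .s1 (.nx 910 324 (.nx
  908 185 (.nr 907 520 (.l1 (.ls 31 31 674)) (.l1 .sk)) (.nx 909 186 (.l1 .sk) (.l1 (.ls 83 37
  1383)))) (.nr 923 741457 (.nx 914 20644 (.lg 0 false 4 101 103 23 0 186480) (.nr 922 110219 (.nr
  920 46342 (.nr 918 520 (.lg 0 true 4 79 79 23 0 26640) (.nx 919 208065 (.lg 2 true 1 97 97 16
  38569 93240) .out)) (.nx 921 32769 (.lg 0 true 1 89 89 16 0 93240) .out)) .out)) .out))) .out)
  .out))) (.na 943 59 (.nx 942 2097153 (.nr 941 881745 (.nr 927 53 .s1 (.nx 933 26009 (.nx 928 324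
  (.l1 (.ls 79 43 1946)) (.nr 932 741457 (.lg 0 false 4 97 101 23 0 186480) .out)) (.nr 940 65537
  (.nr 937 569 (.lg 0 true 4 73 73 23 0 26640) (.nx 939 208065 (.lg 2 true 2 89 89 19 43243 186480)
  .out)) .out))) .out) .out) (.na 960 62 (.nx 959 2097153 (.nr 958 881745 (.nr 944 58 .s1 (.nx 945
  324 (.l1 (.ls 79 29 1782)) (.nr 957 741457 (.nx 949 26009 (.lg 0 false 4 97 97 16 0 26640) (.nr
  956 65537 (.nr 953 597 (.lg 0 true 4 73 73 16 0 26640) (.nx 955 208065 (.lg 2 true 2 89 89 16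
  43243 26640) .out)) .out)) .out))) .out) .out) (.nx 978 2097153 (.nr 977 881745 (.nr 961 61 .s1
  (.nx 962 324 (.l1 (.ls 79 41 1696)) (.nr 976 741457 (.nx 969 26009 (.lg 0 false 7 89 97 23 0
  186480) (.nr 975 65537 (.nr 972 607 (.lg 0 true 3 73 73 19 0 26640) (.nx 974 208065 (.lg 2 true 2
  89 89 17 43243 26640) .out)) .out)) .out))) .out) .out)))) (.na 1019 67 (.na 999 64 (.nx 998
  2097153 (.nr 997 881745 (.nr 980 62 .s1 (.nx 989 20644 (.nx 982 185 (.nr 981 617 (.l1 (.ls 29 29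
  546)) (.l1 .sk)) (.nx 983 186 (.l1 .sk) (.nx 984 324 (.l1 (.ls 79 37 1120)) (.nr 988 741457 (.lg
  0 false 4 97 101 23 0 186480) .out)))) (.nr 996 110219 (.nr 994 46342 (.nr 992 617 (.lg 0 true 3
  73 73 23 0 93240) (.nx 993 208065 (.lg 2 true 1 89 89 17 38569 93240) .out)) (.nx 995 32769 (.lg
  0 false 1 83 83 17 0 93240) .out)) .out))) .out) .out) (.na 1000 65 .ne (.nx 1018 2097153 (.nr
  1017 2097153 (.nr 1001 64 .s1 (.nx 1004 186 (.nx 1003 185 (.nr 1002 646 (.l1 (.ls 23 29 529))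
  (.l1 .sk)) (.l1 .sk)) (.nx 1010 20644 (.nx 1005 324 (.l1 (.ls 83 31 1085)) (.nr 1009 1048577 (.lg
  0 false 4 101 101 19 0 2424240) .out)) (.nr 1016 65537 (.nr 1013 513 (.lg 0 true 3 71 71 17 0
  173160) (.nx 1015 131073 (.lg 2 true 2 89 89 17 54481 346320) .out)) .out)))) .out) .out))) (.na
  1036 70 (.nx 1035 2097153 (.nr 1034 2097153 (.nr 1020 66 .s1 (.nx 1026 20644 (.nx 1021 324 (.l1
  (.ls 83 29 1569)) (.nr 1025 1048577 (.lg 0 false 4 97 97 16 0 26640) .out)) (.nr 1033 65537 (.nr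
  1030 513 (.lg 0 true 4 73 73 16 0 26640) (.nx 1032 131073 (.lg 2 true 2 89 89 16 54481 26640)
  .out)) .out))) .out) .out) (.na 1051 74 (.nx 1050 2097153 (.nr 1049 2097153 (.nr 1037 69 .s1 (.nx
  1038 324 (.l1 (.ls 83 43 1502)) (.nr 1048 1048577 (.nx 1041 20644 (.lg 0 false 3 97 97 29 0
  186480) (.nr 1047 65537 (.nr 1044 513 (.lg 0 true 3 71 71 29 0 186480) (.nx 1046 131073 (.lg 2
  true 2 89 89 23 54481 186480) .out)) .out)) .out))) .out) .out) (.nx 1068 2097153 (.nr 1067
  2097153 (.nr 1052 73 .s1 (.nx 1061 32769 (.nx 1053 324 (.l1 (.ls 73 31 1421)) (.nr 1060 1048577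
  (.lg 0 false 7 89 89 19 0 186480) .out)) (.nr 1066 32769 (.nr 1063 513 (.lg 0 false 2 71 71 13 0
  26640) (.nx 1065 131073 (.lg 2 true 2 71 71 13 23635 26640) .out)) .out))) .out) .out))))) (.na
  1150 91 (.na 1103 83 (.na 1070 78 (.lg 0 false 1 0 0 16 0 24) (.na 1088 82 (.nx 1087 2097153 (.nr
  1086 2097153 (.nr 1071 77 .s1 (.nx 1075 324 (.nx 1073 185 (.nr 1072 790 (.l1 (.ls 31 37 441))
  (.l1 .sk)) (.nx 1074 186 (.l1 .sk) (.l1 (.ls 89 41 905)))) (.nr 1085 1048577 (.nx 1078 20644 (.lg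
  0 false 3 97 101 31 0 346320) (.nr 1084 65537 (.nr 1080 513 (.lg 0 true 2 73 73 31 0 346320) (.nx
  1083 131073 (.nr 1081 32769 (.lg 2 true 1 83 83 29 27318 346320) (.nx 1082 32769 (.lg 0 false 1
  79 79 29 0 346320) .out)) .out)) .out)) .out))) .out) .out) (.nx 1102 2097153 (.nr 1101 2097153
  (.nr 1089 81 .s1 (.nx 1090 324 (.l1 (.ls 89 37 1283)) (.nr 1100 1048577 (.nx 1093 20644 (.lg 0
  false 3 101 101 19 0 186480) (.nr 1099 65537 (.nr 1096 513 (.lg 0 true 3 73 73 19 0 26640) (.nx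
  1098 131073 (.lg 2 true 2 89 89 19 54481 186480) .out)) .out)) .out))) .out) .out))) (.na 1119 85
  (.nx 1118 2097153 (.nr 1117 2097153 (.nr 1104 82 .s1 (.nx 1105 324 (.l1 (.ls 79 29 1267)) (.nr
  1116 1048577 (.nx 1109 20644 (.lg 0 false 4 97 97 16 0 26640) (.nr 1115 65537 (.nr 1112 513 (.lg
  0 true 3 67 67 16 0 13320) (.nx 1114 131073 (.lg 2 false 2 89 89 16 54481 26640) .out)) .out))
  .out))) .out) .out) (.na 1135 90 (.nx 1134 2097153 (.nr 1133 2097153 (.nr 1120 84 .s1 (.nx 1126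
  20644 (.nx 1121 324 (.l1 (.ls 79 31 1238)) (.nr 1125 1048577 (.lg 0 false 4 89 89 16 0 26640)
  .out)) (.nr 1132 65537 (.nr 1129 513 (.lg 0 true 3 67 67 16 0 13320) (.nx 1131 131073 (.lg 2 true
  2 83 83 16 54481 26640) .out)) .out))) .out) .out) (.nx 1149 2097153 (.nr 1148 2097153 (.nr 1136
  89 .s1 (.nx 1141 20644 (.nx 1137 324 (.l1 (.ls 79 43 1169)) (.nr 1140 1048577 (.lg 0 false 3 89
  89 29 0 26640) .out)) (.nr 1147 65537 (.nr 1144 513 (.lg 0 true 3 67 67 29 0 26640) (.nx 1146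
  131073 (.lg 2 true 2 79 79 29 54481 26640) .out)) .out))) .out) .out)))) (.na 1202 95 (.na 1168
  93 (.nx 1167 2097153 (.nr 1166 2097153 (.nr 1151 90 .s1 (.nx 1155 324 (.nx 1153 185 (.nr 1152 896
  (.l1 (.ls 31 29 379)) (.l1 .sk)) (.nx 1154 186 (.l1 .sk) (.l1 (.ls 89 31 776)))) (.nr 1165
  1048577 (.nx 1159 20644 (.lg 0 false 4 97 101 23 0 2424240) (.nr 1164 65537 (.nr 1162 513 (.lg 0
  true 3 73 73 23 0 1212120) (.nx 1163 131073 (.lg 2 true 1 97 97 19 54481 1212120) .out)) .out))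
  .out))) .out) .out) (.na 1187 94 (.nx 1186 2097153 (.nr 1185 2097153 (.nr 1169 93 .s1 (.nx 1182
  131073 (.nx 1171 185 (.nr 1170 906 (.l1 (.ls 29 23 371)) (.l1 .sk)) (.nx 1172 186 (.l1 .sk) (.nx
  1173 324 (.l1 (.ls 89 29 759)) (.nr 1181 1048577 (.nx 1177 20644 (.lg 0 false 4 97 97 23 0 26640)
  (.nr 1180 65537 (.nr 1178 32769 (.lg 0 false 1 89 89 17 0 13320) (.nx 1179 32769 (.lg 0 false 1
  79 79 17 0 13320) .out)) .out)) .out)))) (.nr 1184 513 (.lg 0 true 2 79 79 19 0 26640) .out)))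
  .out) .out) (.nx 1201 2097153 (.nr 1200 2097153 (.nr 1188 94 .s1 (.nx 1193 20644 (.nx 1189 324
  (.l1 (.ls 83 37 1119)) (.nr 1192 1048577 (.lg 0 false 3 97 97 19 0 26640) .out)) (.nr 1199 65537
  (.nr 1196 915 (.lg 0 true 3 73 73 19 0 26640) (.nx 1198 131073 (.lg 2 true 2 83 83 19 54481
  26640) .out)) .out))) .out) .out))) (.na 1215 97 (.nx 1214 2097153 (.nr 1213 2097153 (.nr 1203 95
  .s1 (.nx 1209 20644 (.nx 1204 324 (.l1 (.ls 79 31 1108)) (.nr 1208 1048577 (.lg 0 false 4 89 89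
  17 0 26640) .out)) (.nr 1212 65537 (.nr 1210 513 (.lg 0 false 1 73 73 16 0 13320) (.nx 1211
  131073 (.lg 2 true 1 83 83 16 54481 13320) .out)) .out))) .out) .out) (.na 1228 98 (.nx 1227
  2097153 (.nr 1226 2097153 (.nr 1216 97 .s1 (.nx 1222 20644 (.nx 1217 324 (.l1 (.ls 73 23 1085))
  (.nr 1221 1048577 (.lg 0 false 4 83 83 17 0 26640) .out)) (.nr 1225 65537 (.nr 1223 513 (.lg 0
  false 1 71 71 16 0 13320) (.nx 1224 131073 (.lg 2 true 1 79 79 16 54481 13320) .out)) .out)))
  .out) .out) (.nx 1240 2097153 (.nr 1239 2097153 (.nr 1229 98 .s1 (.nx 1230 324 (.l1 (.ls 83 37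
  1074)) (.nr 1238 1048577 (.nx 1233 20644 (.lg 0 false 3 89 89 23 0 186480) (.nr 1237 65537 (.nr
  1234 513 (.lg 0 false 1 79 79 19 0 186480) (.nx 1236 131073 (.lg 2 true 2 83 83 23 54481 186480)
  .out)) .out)) .out))) .out) .out)))))))

def T59_2 : Ph :=
  (.na 398 146 (.na 266 62 (.na 200 22 (.na 149 6 (.na 1 2 .ne (.na 148 3 (.nx 147 3329023 (.nr 146
  623489 (.nx 127 1321124 (.nx 4 124 (.nx 3 123 (.nr 2 21 (.lg 0 false 1 41 43 5 0 29520) (.l1
  .sk)) (.l1 .sk)) (.nr 113 77937 (.nr 105 65537 (.nx 30 14772 (.lg 0 false 26 97 101 11 0 383760)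
  (.nr 56 257 (.lg 0 true 26 83 83 11 0 25584) (.nx 104 165142 (.nx 69 20644 (.lg 1 false 13 97 101
  9 33625 383760) (.nr 103 46342 (.nr 76 1100 (.lg 2 true 7 83 83 9 39519 13776) (.nr 89 27556 (.lg
  2 false 13 97 101 9 10143 383760) (.nx 102 65537 (.lg 2 false 13 103 107 9 17027 29549520)
  .out))) .out)) .out))) (.nx 112 1292 (.lg 0 false 7 79 79 9 0 13776) .out)) (.nx 126 205 (.lg 0
  false 13 79 79 9 0 25584) .out))) (.nr 145 9 (.lg 0 true 18 71 71 9 0 5904) .out)) .out) .out)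
  .ne)) (.na 198 7 (.nx 197 1321124 (.nr 196 220437 (.nx 151 123 (.nr 150 54 (.lg 0 true 1 29 29 7
  0 5904) (.l1 .sk)) (.nx 152 124 (.l1 .sk) (.nr 190 55110 (.nx 162 24993 (.lg 0 false 10 97 97 13
  0 29520) (.nr 177 501 (.lg 0 true 15 83 83 13 0 29520) (.nx 189 416129 (.nr 182 1905 (.lg 2 true
  5 79 79 11 51082 29520) (.lg 2 false 7 97 97 13 16718 41328)) .out))) (.nx 195 1292 (.lg 0 true 5
  83 83 11 0 29520) .out)))) .out) .out) (.na 199 18 .ne (.lg 0 false 1 0 0 7 0 24)))) (.na 250 46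
  (.na 230 23 (.nx 229 1321124 (.nr 228 1048577 (.nr 201 20 .s1 (.nx 204 124 (.nx 203 123 (.nr 202
  181 (.l1 (.ls 23 37 690)) (.l1 .sk)) (.l1 .sk)) (.nx 205 324 (.l1 (.ls 89 43 4075)) (.nr 227
  220437 (.nx 210 8193 (.lg 0 false 5 89 89 19 0 108240) (.nr 226 65537 (.nr 217 498 (.lg 0 true 7
  79 79 19 0 151536) (.nx 225 165142 (.nr 222 32769 (.lg 2 true 5 79 79 19 30371 108240) (.nx 224
  26009 (.lg 0 false 2 89 89 13 0 21648) .out)) .out)) .out)) .out)))) .out) .out) (.na 231 34 .ne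
  (.nx 249 1321124 (.nr 248 370729 (.nr 232 33 .s1 (.nx 235 124 (.nx 234 123 (.nr 233 362 (.l1 (.ls
  16 31 447)) (.l1 .sk)) (.l1 .sk)) (.nx 240 13005 (.lg 0 false 5 89 89 13 0 9840) (.nr 247 23172
  (.nr 245 362 (.lg 0 true 5 71 71 13 0 9840) (.nx 246 82572 (.lg 2 true 1 83 83 13 14029 41328)
  .out)) .out)))) .out) .out))) (.na 251 54 .ne (.na 252 58 (.lg 0 false 1 0 0 16 0 24) (.nx 265
  1321124 (.nr 264 311745 (.nr 253 57 .s1 (.nx 256 124 (.nx 255 123 (.nr 254 488 (.l1 (.ls 19 23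
  263)) (.l1 .sk)) (.l1 .sk)) (.nx 258 10323 (.lg 0 true 2 89 89 13 0 29520) (.nr 263 23172 (.nr
  261 488 (.lg 0 true 3 71 71 19 0 5904) (.nx 262 82572 (.lg 2 true 1 79 79 13 17071 29520) .out))
  .out)))) .out) .out))))) (.na 342 91 (.na 297 74 (.na 279 64 (.nx 278 1321124 (.nr 277 311745
  (.nr 267 62 .s1 (.nx 270 124 (.nx 269 123 (.nr 268 503 (.l1 (.ls 19 23 247)) (.l1 .sk)) (.l1
  .sk)) (.nx 272 20644 (.lg 0 true 2 89 89 17 0 1968) (.nr 276 13779 (.nx 273 82572 (.lg 0 false 1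
  83 83 13 0 1968) (.nr 275 217 (.lg 0 true 2 67 67 17 0 1968) .out)) .out)))) .out) .out) (.na 280
  66 .ne (.nx 296 1321124 (.nr 295 524289 (.nr 281 66 .s1 (.nx 289 8193 (.nx 283 123 (.nr 282 582
  (.l1 (.ls 17 31 232)) (.l1 .sk)) (.nx 284 124 (.l1 .sk) (.lg 0 false 5 79 79 31 0 324720))) (.nr
  294 8193 (.nr 292 513 (.lg 0 true 3 67 67 29 0 64944) (.nx 293 82572 (.lg 2 false 1 61 61 23 9899
  64944) .out)) .out))) .out) .out))) (.na 313 82 (.nx 312 1321124 (.nr 311 524289 (.nr 298 74 .s1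
  (.nx 301 124 (.nx 300 123 (.nr 299 645 (.l1 (.ls 16 23 207)) (.l1 .sk)) (.l1 .sk)) (.nx 306 8193
  (.lg 0 false 5 79 79 23 0 9840) (.nr 310 8193 (.nr 308 513 (.lg 0 true 2 67 67 19 0 1968) (.nx
  309 82572 (.lg 2 false 1 61 61 13 9899 1968) .out)) .out)))) .out) .out) (.na 329 86 (.nx 328
  1321124 (.nr 327 524289 (.nr 314 82 .s1 (.nx 317 124 (.nx 316 123 (.nr 315 676 (.l1 (.ls 16 23
  187)) (.l1 .sk)) (.l1 .sk)) (.nr 324 8193 (.lg 0 true 7 73 73 19 0 13776) (.nx 326 8193 (.lg 0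
  true 2 73 73 13 0 1968) .out)))) .out) .out) (.nx 341 1321124 (.nr 340 524289 (.nr 330 86 .s1
  (.nx 333 124 (.nx 332 123 (.nr 331 716 (.l1 (.ls 16 23 178)) (.l1 .sk)) (.l1 .sk)) (.nx 335 8193
  (.lg 0 false 2 79 79 19 0 1968) (.nr 339 8193 (.nr 337 513 (.lg 0 true 2 61 61 19 0 1968) (.nx
  338 82572 (.lg 2 false 1 61 61 13 9899 5904) .out)) .out)))) .out) .out)))) (.na 366 106 (.na 343
  94 .ne (.na 355 102 (.nx 354 1321124 (.nr 353 524289 (.nr 344 94 .s1 (.nx 346 123 (.nr 345 802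
  (.l1 (.ls 16 23 163)) (.l1 .sk)) (.nx 347 124 (.l1 .sk) (.nx 348 8193 (.lg 0 true 1 83 83 17 0
  1968) (.nr 352 8193 (.nr 350 513 (.lg 0 true 2 61 61 19 0 1968) (.nx 351 82572 (.lg 2 false 1 61
  61 17 9899 5904) .out)) .out))))) .out) .out) (.nx 365 1321124 (.nr 364 524289 (.nr 356 102 .s1
  (.nx 359 124 (.nx 358 123 (.nr 357 833 (.l1 (.ls 16 31 151)) (.l1 .sk)) (.l1 .sk)) (.nx 360 8193
  (.lg 0 true 1 89 89 29 0 29520) (.nr 363 8193 (.nr 361 513 (.lg 0 false 1 73 73 29 0 29520) (.nx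
  362 82572 (.lg 2 false 1 59 59 29 9899 5904) .out)) .out)))) .out) .out))) (.na 389 128 (.na 378
  122 (.nx 377 1321124 (.nr 376 524289 (.nr 367 106 .s1 (.nx 371 8193 (.nx 369 123 (.nr 368 959
  (.l1 (.ls 17 23 145)) (.l1 .sk)) (.nx 370 124 (.l1 .sk) (.lg 0 true 1 83 83 19 0 1968))) (.nr 375
  8193 (.nr 373 513 (.lg 0 true 2 61 61 19 0 1968) (.nx 374 82572 (.lg 2 false 1 59 59 19 9899
  1968) .out)) .out))) .out) .out) (.nx 388 1321124 (.nr 387 524289 (.nr 379 122 .s1 (.nx 383 8193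
  (.nx 381 123 (.nr 380 1006 (.l1 (.ls 17 23 127)) (.l1 .sk)) (.nx 382 124 (.l1 .sk) (.lg 0 true 1
  83 83 19 0 29520))) (.nr 386 8193 (.nr 384 513 (.lg 2 false 1 67 67 19 665977 1968) (.nx 385
  82572 (.lg 2 false 1 53 53 19 9899 29520) .out)) .out))) .out) .out)) (.na 390 142 .ne (.nx 397
  660563 (.nr 396 1048577 (.nr 391 142 .s1 (.nx 392 205 (.l1 (.ls 67 29 298)) (.nr 395 524289 (.nr
  393 8193 (.lg 0 false 1 83 83 19 0 29520) (.nx 394 6503 (.lg 0 true 1 79 79 19 0 1968) .out))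
  .out))) .out) .out)))))) (.na 480 257 (.na 432 202 (.na 415 178 (.na 406 162 (.nx 405 660563 (.nr
  404 1048577 (.nr 399 146 .s1 (.nx 402 6503 (.nx 400 205 (.l1 (.ls 67 29 290)) (.nr 401 524289
  (.lg 0 true 1 79 79 19 0 5904) .out)) (.nr 403 8193 (.lg 0 false 1 83 83 19 0 5904) .out))) .out)
  .out) (.na 407 174 (.lg 0 false 1 0 0 16 0 24) (.nx 414 660563 (.nr 413 1048577 (.nr 408 174 .s1
  (.nx 409 205 (.l1 (.ls 71 37 244)) (.nr 412 524289 (.nr 410 8193 (.lg 0 false 1 79 79 23 0 5904)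
  (.nx 411 6503 (.lg 0 true 1 73 73 23 0 5904) .out)) .out))) .out) .out))) (.na 423 186 (.nx 422
  660563 (.nr 421 1048577 (.nr 416 178 .s1 (.nx 417 205 (.l1 (.ls 67 29 239)) (.nr 420 524289 (.nr
  418 8193 (.lg 0 false 1 73 73 19 0 1968) (.nx 419 6503 (.lg 0 true 1 71 71 19 0 1968) .out))
  .out))) .out) .out) (.na 431 198 (.nx 430 660563 (.nr 429 1048577 (.nr 424 186 .s1 (.nx 425 205
  (.l1 (.ls 67 29 228)) (.nr 428 524289 (.nr 426 8193 (.lg 0 false 1 79 79 29 0 5904) (.nx 427 6503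
  (.lg 0 true 1 73 73 29 0 5904) .out)) .out))) .out) .out) (.lg 0 false 1 0 0 16 0 24)))) (.na 456
  242 (.na 440 206 (.nx 439 660563 (.nr 438 1048577 (.nr 433 202 .s1 (.nx 434 205 (.l1 (.ls 79 23
  211)) (.nr 437 524289 (.nr 435 8193 (.lg 0 false 1 73 73 23 0 1968) (.nx 436 6503 (.lg 0 true 1
  73 73 23 0 1968) .out)) .out))) .out) .out) (.na 448 222 (.nx 447 660563 (.nr 446 1048577 (.nr
  441 206 .s1 (.nx 442 205 (.l1 (.ls 61 23 207)) (.nr 445 524289 (.nx 443 6503 (.lg 0 true 1 67 67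
  23 0 1968) (.nr 444 8193 (.lg 0 false 1 71 71 23 0 5904) .out)) .out))) .out) .out) (.nx 455
  660563 (.nr 454 1048577 (.nr 449 222 .s1 (.nx 450 205 (.l1 (.ls 71 31 192)) (.nr 453 524289 (.nr
  451 8193 (.lg 0 false 1 79 79 29 0 29520) (.nx 452 6503 (.lg 0 true 1 73 73 29 0 29520) .out))
  .out))) .out) .out))) (.na 471 254 (.na 464 246 (.nx 463 660563 (.nr 462 1048577 (.nr 457 242 .s1
  (.nx 458 205 (.l1 (.ls 67 29 176)) (.nr 461 524289 (.nr 459 8193 (.lg 0 false 1 73 73 29 0
  324720) (.nx 460 6503 (.lg 0 true 1 71 71 29 0 21648) .out)) .out))) .out) .out) (.nx 470 660563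
  (.nr 469 1048577 (.nr 465 246 .s1 (.nx 466 6503 (.l1 (.ls 61 73 171909)) (.nr 468 8193 (.lg 0
  false 2 61 61 29 0 5904) .out))) .out) .out)) (.na 479 256 (.nx 478 660563 (.nr 477 1048577 (.nr
  472 254 .s1 (.nx 473 205 (.l1 (.ls 61 23 168)) (.nr 476 524289 (.nr 474 8193 (.lg 0 false 1 71 71
  23 0 5904) (.nx 475 6503 (.lg 0 true 1 67 67 23 0 5904) .out)) .out))) .out) .out) .ne)))) (.na
  3608 2897 (.na 1726 1024 (.na 994 512 (.nx 993 82572 (.nr 992 1048577 (.nr 481 257 .s1 (.nx 736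
  647 (.la (.ls 89 29 1631)) (.nr 991 262145 (.la (.lg 0 true 1 73 73 19 0)) .out))) .out) .out)
  (.na 1424 725 (.nx 1423 82572 (.nr 1422 1048577 (.nr 995 512 .s1 (.nx 1208 647 (.la (.ls 73 29
  820)) (.nr 1421 262145 (.la (.lg 0 true 1 71 71 23 0)) .out))) .out) .out) (.nx 1725 3252 (.nr
  1724 262145 (.nr 1425 725 .s1 (.la (.ls 53 41 14589))) .out) .out))) (.na 2154 1449 (.nx 2153
  3252 (.nr 2152 262145 (.nr 1727 1024 .s1 (.la (.ls 47 41 10330))) .out) .out) (.na 2756 2048 (.nx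
  2755 1627 (.nr 2754 131073 (.nr 2155 1449 .s1 (.la (.ls 59 31 1829))) .out) .out) (.nx 3607 1627
  (.nr 3606 131073 (.nr 2757 2048 .s1 (.la (.ls 53 31 1295))) .out) .out)))) (.na 5555 16384 (.na
  4257 4096 (.nx 4256 647 (.nr 4255 65537 (.nr 3609 2897 .s1 (.lx (.lp 47 31 1025))) .out) .out)
  (.na 4906 8192 (.nx 4905 647 (.nr 4904 65537 (.nr 4258 4096 .s1 (.lx (.lp 43 37 2049))) .out)
  .out) (.nx 5554 647 (.nr 5553 65537 (.nr 4907 8192 .s1 (.lx (.lp 37 41 4097))) .out) .out))) (.na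
  6530 65536 (.na 6204 32768 (.nx 6203 647 (.nr 6202 131073 (.nr 5556 16384 .s1 (.lx (.lp 37 43
  8193))) .out) .out) (.nx 6529 324 (.nr 6528 131073 (.nr 6205 32768 .s1 (.lx (.lp 16 0 16385)))
  .out) .out)) (.na 6856 131073 (.nx 6855 324 (.nr 6854 262145 (.nr 6531 65536 .s1 (.lx (.lp 16 0
  32769))) .out) .out) .out))))))

theorem c59 :
    OkQ ckI L10 231 8 16 0 34359738368 1 1099511627776 ∧
    OkQ ckI L9 185 6 101 0 34359738368 1 1099511627776 ∧
    OkQ ckI L6 123 1 1099511627776 0 34359738368 1 1099511627776 := by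
  refine ⟨?_, ?_, ?_⟩
  · refine fin 1848 701 T59_0 ?_
    refine jn 3 (by decide +kernel) ?_
    refine jn 4 (by decide +kernel) ?_
    refine jn 5 (by decide +kernel) ?_
    refine jn 6 (by decide +kernel) ?_
    refine jn 7 (by decide +kernel) ?_
    refine jn 8 (by decide +kernel) ?_
    refine jn 9 (by decide +kernel) ?_
    refine jn 10 (by decide +kernel) ?_
    refine jn 11 (by decide +kernel) ?_
    refine jn 12 (by decide +kernel) ?_
    refine jn 13 (by decide +kernel) ?_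
    refine jn 14 (by decide +kernel) ?_
    refine jn 15 (by decide +kernel) ?_
    refine jn 16 (by decide +kernel) ?_
    refine jn 21 (by decide +kernel) ?_
    refine jn 27 (by decide +kernel) ?_
    refine jn 32 (by decide +kernel) ?_
    refine jn 35 (by decide +kernel) ?_
    refine jn 36 (by decide +kernel) ?_
    refine jn 37 (by decide +kernel) ?_
    refine jn 38 (by decide +kernel) ?_
    refine jn 39 (by decide +kernel) ?_
    refine jn 40 (by decide +kernel) ?_
    refine jn 41 (by decide +kernel) ?_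
    refine jn 42 (by decide +kernel) ?_
    refine jn 43 (by decide +kernel) ?_
    refine jn 44 (by decide +kernel) ?_
    refine jn 45 (by decide +kernel) ?_
    refine jn 46 (by decide +kernel) ?_
    refine jn 47 (by decide +kernel) ?_
    refine jn 51 (by decide +kernel) ?_
    refine jn 55 (by decide +kernel) ?_
    refine jn 59 (by decide +kernel) ?_
    refine jn 60 (by decide +kernel) ?_
    refine jn 64 (by decide +kernel) ?_
    refine jn 68 (by decide +kernel) ?_
    refine jn 72 (by decide +kernel) ?_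
    refine jn 74 (by decide +kernel) ?_
    refine jn 78 (by decide +kernel) ?_
    refine jn 82 (by decide +kernel) ?_
    refine jn 86 (by decide +kernel) ?_
    refine jn 87 (by decide +kernel) ?_
    refine jn 90 (by decide +kernel) ?_
    refine jn 92 (by decide +kernel) ?_
    refine jn 94 (by decide +kernel) ?_
    refine jn 96 (by decide +kernel) ?_
    refine jn 100 (by decide +kernel) ?_
    refine jn 104 (by decide +kernel) ?_
    refine jn 108 (by decide +kernel) ?_
    refine jn 109 (by decide +kernel) ?_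
    refine jn 112 (by decide +kernel) ?_
    refine jn 115 (by decide +kernel) ?_
    refine jn 118 (by decide +kernel) ?_
    refine jn 121 (by decide +kernel) ?_
    refine jn 122 (by decide +kernel) ?_
    refine jn 125 (by decide +kernel) ?_
    refine jn 128 (by decide +kernel) ?_
    refine jn 131 (by decide +kernel) ?_
    refine jn 134 (by decide +kernel) ?_
    refine jn 135 (by decide +kernel) ?_
    refine jn 138 (by decide +kernel) ?_
    refine jn 141 (by decide +kernel) ?_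
    refine jn 145 (by decide +kernel) ?_
    refine jn 149 (by decide +kernel) ?_
    refine jn 155 (by decide +kernel) ?_
    refine jn 156 (by decide +kernel) ?_
    refine jn 158 (by decide +kernel) ?_
    refine jn 160 (by decide +kernel) ?_
    refine jn 182 (by decide +kernel) ?_
    refine jn 193 (by decide +kernel) ?_
    refine jn 196 (by decide +kernel) ?_
    refine jn 199 (by decide +kernel) ?_
    refine jn 202 (by decide +kernel) ?_
    refine jn 207 (by decide +kernel) ?_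
    refine jn 213 (by decide +kernel) ?_
    refine jn 217 (by decide +kernel) ?_
    refine jn 223 (by decide +kernel) ?_
    refine jn 235 (by decide +kernel) ?_
    refine jn 245 (by decide +kernel) ?_
    refine jn 250 (by decide +kernel) ?_
    refine jn 260 (by decide +kernel) ?_
    refine jn 263 (by decide +kernel) ?_
    refine jn 272 (by decide +kernel) ?_
    refine jn 280 (by decide +kernel) ?_
    refine jn 291 (by decide +kernel) ?_
    refine jn 299 (by decide +kernel) ?_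
    refine jn 312 (by decide +kernel) ?_
    refine jn 334 (by decide +kernel) ?_
    refine jn 351 (by decide +kernel) ?_
    refine jn 377 (by decide +kernel) ?_
    refine jn 394 (by decide +kernel) ?_
    refine jn 396 (by decide +kernel) ?_
    refine jn 400 (by decide +kernel) ?_
    refine jn 404 (by decide +kernel) ?_
    refine jn 408 (by decide +kernel) ?_
    refine jn 414 (by decide +kernel) ?_
    refine jn 419 (by decide +kernel) ?_
    refine jn 425 (by decide +kernel) ?_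
    refine jn 438 (by decide +kernel) ?_
    refine jn 449 (by decide +kernel) ?_
    refine jn 459 (by decide +kernel) ?_
    refine jn 478 (by decide +kernel) ?_
    refine jn 487 (by decide +kernel) ?_
    refine jn 491 (by decide +kernel) ?_
    refine jn 495 (by decide +kernel) ?_
    refine jn 503 (by decide +kernel) ?_
    refine jn 505 (by decide +kernel) ?_
    refine jn 509 (by decide +kernel) ?_
    refine jn 517 (by decide +kernel) ?_
    refine jn 526 (by decide +kernel) ?_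
    refine jn 535 (by decide +kernel) ?_
    refine jn 549 (by decide +kernel) ?_
    refine jn 571 (by decide +kernel) ?_
    refine jn 586 (by decide +kernel) ?_
    refine jn 612 (by decide +kernel) ?_
    refine jn 629 (by decide +kernel) ?_
    refine jn 635 (by decide +kernel) ?_
    refine jn 640 (by decide +kernel) ?_
    refine jn 648 (by decide +kernel) ?_
    refine jn 653 (by decide +kernel) ?_
    refine jn 665 (by decide +kernel) ?_
    refine jn 674 (by decide +kernel) ?_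
    refine jn 682 (by decide +kernel) ?_
    refine jn 696 (by decide +kernel) ?_
    exact je (by decide +kernel)
  · refine fin 13320 1241 T59_1 ?_
    refine jn 5 (by decide +kernel) ?_
    refine jn 7 (by decide +kernel) ?_
    refine jn 9 (by decide +kernel) ?_
    refine jn 11 (by decide +kernel) ?_
    refine jn 12 (by decide +kernel) ?_
    refine jn 14 (by decide +kernel) ?_
    refine jn 16 (by decide +kernel) ?_
    refine jn 24 (by decide +kernel) ?_
    refine jn 27 (by decide +kernel) ?_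
    refine jn 31 (by decide +kernel) ?_
    refine jn 35 (by decide +kernel) ?_
    refine jn 37 (by decide +kernel) ?_
    refine jn 44 (by decide +kernel) ?_
    refine jn 52 (by decide +kernel) ?_
    refine jn 60 (by decide +kernel) ?_
    refine jn 67 (by decide +kernel) ?_
    refine jn 74 (by decide +kernel) ?_
    refine jn 82 (by decide +kernel) ?_
    refine jn 89 (by decide +kernel) ?_
    refine jn 96 (by decide +kernel) ?_
    refine jn 106 (by decide +kernel) ?_
    refine jn 145 (by decide +kernel) ?_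
    refine jn 156 (by decide +kernel) ?_
    refine jn 165 (by decide +kernel) ?_
    refine jn 168 (by decide +kernel) ?_
    refine jn 171 (by decide +kernel) ?_
    refine jn 174 (by decide +kernel) ?_
    refine jn 176 (by decide +kernel) ?_
    refine jn 187 (by decide +kernel) ?_
    refine jn 195 (by decide +kernel) ?_
    refine jn 200 (by decide +kernel) ?_
    refine jn 208 (by decide +kernel) ?_
    refine jn 219 (by decide +kernel) ?_
    refine jn 230 (by decide +kernel) ?_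
    refine jn 264 (by decide +kernel) ?_
    refine jn 272 (by decide +kernel) ?_
    refine jn 285 (by decide +kernel) ?_
    refine jn 305 (by decide +kernel) ?_
    refine jn 329 (by decide +kernel) ?_
    refine jn 347 (by decide +kernel) ?_
    refine jn 351 (by decide +kernel) ?_
    refine jn 354 (by decide +kernel) ?_
    refine jn 359 (by decide +kernel) ?_
    refine jn 364 (by decide +kernel) ?_
    refine jn 369 (by decide +kernel) ?_
    refine jn 376 (by decide +kernel) ?_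
    refine jn 383 (by decide +kernel) ?_
    refine jn 397 (by decide +kernel) ?_
    refine jn 408 (by decide +kernel) ?_
    refine jn 412 (by decide +kernel) ?_
    refine jn 416 (by decide +kernel) ?_
    refine jn 422 (by decide +kernel) ?_
    refine jn 433 (by decide +kernel) ?_
    refine jn 444 (by decide +kernel) ?_
    refine jn 458 (by decide +kernel) ?_
    refine jn 464 (by decide +kernel) ?_
    refine jn 469 (by decide +kernel) ?_
    refine jn 479 (by decide +kernel) ?_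
    refine jn 482 (by decide +kernel) ?_
    refine jn 493 (by decide +kernel) ?_
    refine jn 506 (by decide +kernel) ?_
    refine jn 512 (by decide +kernel) ?_
    refine jn 517 (by decide +kernel) ?_
    refine jn 522 (by decide +kernel) ?_
    refine jn 530 (by decide +kernel) ?_
    refine jn 540 (by decide +kernel) ?_
    refine jn 547 (by decide +kernel) ?_
    refine jn 548 (by decide +kernel) ?_
    refine jn 549 (by decide +kernel) ?_
    refine jn 550 (by decide +kernel) ?_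
    refine jn 551 (by decide +kernel) ?_
    refine jn 552 (by decide +kernel) ?_
    refine jn 556 (by decide +kernel) ?_
    refine jn 558 (by decide +kernel) ?_
    refine jn 559 (by decide +kernel) ?_
    refine jn 560 (by decide +kernel) ?_
    refine jn 561 (by decide +kernel) ?_
    refine jn 562 (by decide +kernel) ?_
    refine jn 563 (by decide +kernel) ?_
    refine jn 564 (by decide +kernel) ?_
    refine jn 565 (by decide +kernel) ?_
    refine jn 566 (by decide +kernel) ?_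
    refine jn 567 (by decide +kernel) ?_
    refine jn 568 (by decide +kernel) ?_
    refine jn 569 (by decide +kernel) ?_
    refine jn 573 (by decide +kernel) ?_
    refine jn 577 (by decide +kernel) ?_
    refine jn 581 (by decide +kernel) ?_
    refine jn 589 (by decide +kernel) ?_
    refine jn 606 (by decide +kernel) ?_
    refine jn 612 (by decide +kernel) ?_
    refine jn 621 (by decide +kernel) ?_
    refine jn 632 (by decide +kernel) ?_
    refine jn 633 (by decide +kernel) ?_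
    refine jn 640 (by decide +kernel) ?_
    refine jn 649 (by decide +kernel) ?_
    refine jn 657 (by decide +kernel) ?_
    refine jn 674 (by decide +kernel) ?_
    refine jn 680 (by decide +kernel) ?_
    refine jn 689 (by decide +kernel) ?_
    refine jn 700 (by decide +kernel) ?_
    refine jn 705 (by decide +kernel) ?_
    refine jn 712 (by decide +kernel) ?_
    refine jn 722 (by decide +kernel) ?_
    refine jn 739 (by decide +kernel) ?_
    refine jn 746 (by decide +kernel) ?_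
    refine jn 758 (by decide +kernel) ?_
    refine jn 767 (by decide +kernel) ?_
    refine jn 776 (by decide +kernel) ?_
    refine jn 800 (by decide +kernel) ?_
    refine jn 814 (by decide +kernel) ?_
    refine jn 821 (by decide +kernel) ?_
    refine jn 827 (by decide +kernel) ?_
    refine jn 840 (by decide +kernel) ?_
    refine jn 847 (by decide +kernel) ?_
    refine jn 854 (by decide +kernel) ?_
    refine jn 864 (by decide +kernel) ?_
    refine jn 865 (by decide +kernel) ?_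
    refine jn 866 (by decide +kernel) ?_
    refine jn 867 (by decide +kernel) ?_
    refine jn 869 (by decide +kernel) ?_
    refine jn 875 (by decide +kernel) ?_
    refine jn 878 (by decide +kernel) ?_
    refine jn 890 (by decide +kernel) ?_
    refine jn 898 (by decide +kernel) ?_
    refine jn 910 (by decide +kernel) ?_
    refine jn 913 (by decide +kernel) ?_
    refine jn 914 (by decide +kernel) ?_
    refine jn 917 (by decide +kernel) ?_
    refine jn 919 (by decide +kernel) ?_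
    refine jn 932 (by decide +kernel) ?_
    refine jn 939 (by decide +kernel) ?_
    refine jn 953 (by decide +kernel) ?_
    refine jn 969 (by decide +kernel) ?_
    refine jn 974 (by decide +kernel) ?_
    refine jn 984 (by decide +kernel) ?_
    refine jn 988 (by decide +kernel) ?_
    refine jn 992 (by decide +kernel) ?_
    refine jn 995 (by decide +kernel) ?_
    refine jn 1009 (by decide +kernel) ?_
    refine jn 1015 (by decide +kernel) ?_
    refine jn 1025 (by decide +kernel) ?_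
    refine jn 1032 (by decide +kernel) ?_
    refine jn 1044 (by decide +kernel) ?_
    refine jn 1060 (by decide +kernel) ?_
    refine jn 1075 (by decide +kernel) ?_
    refine jn 1078 (by decide +kernel) ?_
    refine jn 1080 (by decide +kernel) ?_
    refine jn 1082 (by decide +kernel) ?_
    refine jn 1096 (by decide +kernel) ?_
    refine jn 1109 (by decide +kernel) ?_
    refine jn 1120 (by decide +kernel) ?_
    refine jn 1129 (by decide +kernel) ?_
    refine jn 1140 (by decide +kernel) ?_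
    refine jn 1151 (by decide +kernel) ?_
    refine jn 1159 (by decide +kernel) ?_
    refine jn 1163 (by decide +kernel) ?_
    refine jn 1173 (by decide +kernel) ?_
    refine jn 1174 (by decide +kernel) ?_
    refine jn 1175 (by decide +kernel) ?_
    refine jn 1176 (by decide +kernel) ?_
    refine jn 1177 (by decide +kernel) ?_
    refine jn 1178 (by decide +kernel) ?_
    refine jn 1184 (by decide +kernel) ?_
    refine jn 1196 (by decide +kernel) ?_
    refine jn 1208 (by decide +kernel) ?_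
    refine jn 1221 (by decide +kernel) ?_
    refine jn 1233 (by decide +kernel) ?_
    exact je (by decide +kernel)
  · refine fin 984 6857 T59_2 ?_
    refine jn 8 (by decide +kernel) ?_
    refine jn 12 (by decide +kernel) ?_
    refine jn 16 (by decide +kernel) ?_
    refine jn 20 (by decide +kernel) ?_
    refine jn 23 (by decide +kernel) ?_
    refine jn 26 (by decide +kernel) ?_
    refine jn 33 (by decide +kernel) ?_
    refine jn 41 (by decide +kernel) ?_
    refine jn 49 (by decide +kernel) ?_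
    refine jn 56 (by decide +kernel) ?_
    refine jn 69 (by decide +kernel) ?_
    refine jn 76 (by decide +kernel) ?_
    refine jn 89 (by decide +kernel) ?_
    refine jn 112 (by decide +kernel) ?_
    refine jn 145 (by decide +kernel) ?_
    refine jn 157 (by decide +kernel) ?_
    refine jn 162 (by decide +kernel) ?_
    refine jn 177 (by decide +kernel) ?_
    refine jn 189 (by decide +kernel) ?_
    refine jn 205 (by decide +kernel) ?_
    refine jn 207 (by decide +kernel) ?_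
    refine jn 209 (by decide +kernel) ?_
    refine jn 210 (by decide +kernel) ?_
    refine jn 216 (by decide +kernel) ?_
    refine jn 217 (by decide +kernel) ?_
    refine jn 218 (by decide +kernel) ?_
    refine jn 219 (by decide +kernel) ?_
    refine jn 220 (by decide +kernel) ?_
    refine jn 221 (by decide +kernel) ?_
    refine jn 222 (by decide +kernel) ?_
    refine jn 235 (by decide +kernel) ?_
    refine jn 240 (by decide +kernel) ?_
    refine jn 246 (by decide +kernel) ?_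
    refine jn 261 (by decide +kernel) ?_
    refine jn 270 (by decide +kernel) ?_
    refine jn 271 (by decide +kernel) ?_
    refine jn 272 (by decide +kernel) ?_
    refine jn 284 (by decide +kernel) ?_
    refine jn 292 (by decide +kernel) ?_
    refine jn 308 (by decide +kernel) ?_
    refine jn 326 (by decide +kernel) ?_
    refine jn 338 (by decide +kernel) ?_
    refine jn 351 (by decide +kernel) ?_
    refine jn 362 (by decide +kernel) ?_
    refine jn 374 (by decide +kernel) ?_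
    refine jn 385 (by decide +kernel) ?_
    refine jn 401 (by decide +kernel) ?_
    refine jn 411 (by decide +kernel) ?_
    refine jn 427 (by decide +kernel) ?_
    refine jn 444 (by decide +kernel) ?_
    refine jn 460 (by decide +kernel) ?_
    refine jn 475 (by decide +kernel) ?_
    refine jn 598 (by decide +kernel) ?_
    refine jn 737 (by decide +kernel) ?_
    refine jn 761 (by decide +kernel) ?_
    refine jn 805 (by decide +kernel) ?_
    refine jn 845 (by decide +kernel) ?_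
    refine jn 861 (by decide +kernel) ?_
    refine jn 925 (by decide +kernel) ?_
    refine jn 957 (by decide +kernel) ?_
    refine jn 1049 (by decide +kernel) ?_
    refine jn 1210 (by decide +kernel) ?_
    refine jn 1247 (by decide +kernel) ?_
    refine jn 1276 (by decide +kernel) ?_
    refine jn 1318 (by decide +kernel) ?_
    refine jn 1370 (by decide +kernel) ?_
    refine jn 1394 (by decide +kernel) ?_
    refine jn 1514 (by decide +kernel) ?_
    refine jn 1646 (by decide +kernel) ?_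
    refine jn 1745 (by decide +kernel) ?_
    refine jn 1869 (by decide +kernel) ?_
    refine jn 2025 (by decide +kernel) ?_
    refine jn 2184 (by decide +kernel) ?_
    refine jn 2388 (by decide +kernel) ?_
    refine jn 2610 (by decide +kernel) ?_
    refine jn 2807 (by decide +kernel) ?_
    refine jn 3087 (by decide +kernel) ?_
    refine jn 3343 (by decide +kernel) ?_
    refine jn 3649 (by decide +kernel) ?_
    refine jn 4040 (by decide +kernel) ?_
    refine jn 4223 (by decide +kernel) ?_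
    refine jn 4600 (by decide +kernel) ?_
    refine jn 4760 (by decide +kernel) ?_
    refine jn 4884 (by decide +kernel) ?_
    refine jn 5281 (by decide +kernel) ?_
    refine jn 5497 (by decide +kernel) ?_
    refine jn 5969 (by decide +kernel) ?_
    refine jn 6205 (by decide +kernel) ?_
    exact je (by decide +kernel)

end Pool.Agent.MP_2339ce_nt.NR
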