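import Pool.Agent.MP_2339ce_nt.Q2.NC.L8
import Pool.Agent.MP_2339ce_nt.Q2.NC.L10
import Pool.Agent.MP_2339ce_nt.Q2.CkI

/-! Block NR: runs. -/

set_option autoImplicit false
set_option maxRecDepth 100000

noncomputable section

namespace Pool.Agent.MP_2339ce_nt.NR

open Q2.Top

def T60_0 : Ph :=
  (.na 510 3 (.na 290 2 (.nx 289 1321124 (.nr 288 881745 (.nx 266 660563 (.nx 3 177 (.nx 2 176 (.nr
  1 14 (.lg 0 false 1 47 47 5 0 7920) (.l1 .sk)) (.l1 .sk)) (.nr 229 77937 (.nx 94 32769 (.lg 0
  false 91 97 107 16 0 720720) (.nr 228 55110 (.nr 160 2437 (.nr 133 695 (.lg 0 true 39 97 101 16 0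
  102960) (.nr 146 1219 (.lg 2 true 13 97 97 9 83640 102960) (.nx 159 524289 (.lg 2 true 13 97 97 9
  37849 102960) .out))) (.nx 227 416129 (.nr 200 38969 (.nr 173 4097 (.lg 2 true 13 89 97 9 15027
  102960) (.nr 186 23172 (.lg 2 false 13 103 107 9 11036 720720) (.nx 199 262145 (.lg 2 true 13 103
  107 9 18502 720720) .out))) (.nx 226 104033 (.lg 2 true 26 101 107 11 26131 720720) .out)) .out))
  .out)) (.nx 265 13005 (.nx 251 2580 (.nx 250 257 (.lg 0 false 21 89 89 11 0 55440) .out) (.nr 264
  92683 (.lg 0 false 13 101 103 9 0 720720) .out)) .out))) (.nr 287 129 (.lg 0 true 21 89 89 11 0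
  11088) .out)) .out) .out) (.nx 509 3329023 (.nr 508 623489 (.nx 489 1664512 (.nx 292 176 (.nr 291
  25 (.lg 0 false 1 43 43 5 0 7920) (.l1 .sk)) (.nx 293 177 (.l1 .sk) (.nr 474 131073 (.nx 452
  416129 (.nx 328 26009 (.lg 0 false 35 101 107 13 0 720720) (.nr 451 110219 (.nr 349 791 (.lg 0
  true 21 89 89 11 0 11088) (.nx 370 32769 (.lg 1 false 21 89 101 11 65740 55440) (.nr 450 92683
  (.nr 392 27556 (.nr 377 2437 (.lg 2 true 7 89 89 9 46296 11088) (.nx 391 330282 (.lg 2 false 14
  97 101 9 13108 55440) .out)) (.nx 449 165142 (.nr 413 55110 (.lg 2 false 21 101 103 11 26131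
  720720) (.nx 448 131073 (.lg 2 true 35 97 107 13 43890 720720) .out)) .out)) .out))) .out)) (.nr
  473 257 (.lg 0 true 21 89 89 11 0 11088) .out)) (.nx 488 257 (.lg 0 false 14 79 79 9 0 11088)
  .out)))) (.nr 507 9 (.lg 0 true 18 71 71 9 0 1584) .out)) .out) .out)) (.na 694 4 (.nx 693
  6658044 (.nr 692 1482912 (.nx 512 176 (.nr 511 36 (.lg 0 true 1 41 41 5 0 1584) (.l1 .sk)) (.nx
  513 177 (.l1 .sk) (.nx 540 13003 (.nr 526 110219 (.lg 0 false 13 103 103 16 0 720720) (.nx 539
  257 (.lg 0 false 13 83 83 16 0 20592) .out)) (.nr 691 131073 (.nx 553 21646 (.lg 0 false 13 101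
  107 16 0 720720) (.nx 669 1664512 (.nx 655 524289 (.nr 566 364 (.lg 0 true 13 83 83 16 0 20592)
  (.nx 654 262145 (.nr 571 1453 (.lg 2 true 5 89 89 7 63376 7920) (.nx 637 104033 (.nx 610 59084
  (.nx 584 30251 (.lg 1 false 13 101 107 16 93913 720720) (.nx 597 42277 (.lg 1 false 13 101 107 16
  67199 720720) (.lg 1 false 13 101 107 16 48084 720720))) (.nx 623 82572 (.lg 1 false 13 101 107
  16 34406 720720) (.nr 636 110219 (.lg 1 true 13 97 103 16 20707 720720) .out))) (.nr 653 65537
  (.nr 640 2904 (.lg 2 true 3 89 89 7 15877 1584) (.lg 2 false 13 101 107 16 9784 720720)) .out)))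
  .out)) (.nr 668 129 (.lg 0 true 13 83 83 16 0 20592) .out)) (.nr 690 13 (.lg 0 true 21 79 79 7 0
  11088) .out))) .out)))) .out) .out) (.na 876 5 (.nx 875 13316087 (.nr 874 1246976 (.nx 697 177
  (.nx 696 176 (.nr 695 46 (.lg 0 true 1 41 41 9 0 7920) (.l1 .sk)) (.l1 .sk)) (.nx 826 1664512
  (.nx 812 416129 (.nr 804 155873 (.nx 714 26007 (.nr 710 110219 (.lg 0 false 13 103 107 13 0
  720720) (.nx 713 1627 (.lg 0 false 3 89 89 9 0 7920) .out)) (.nr 803 131073 (.nr 727 729 (.lg 0
  true 13 89 89 13 0 102960) (.nr 732 2909 (.lg 2 true 5 97 97 11 50233 55440) (.nx 745 36779 (.lg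
  1 false 13 97 107 13 78165 720720) (.nx 758 52015 (.lg 1 false 13 97 107 13 55272 720720) (.nx
  792 131073 (.nx 784 104033 (.nx 771 73561 (.lg 1 false 13 97 107 13 39082 720720) (.lg 1 true 13
  97 107 13 27635 720720)) (.nr 791 92683 (.lg 1 true 7 101 103 11 13825 720720) .out)) (.nr 802
  55110 (.nr 795 5810 (.lg 2 true 3 89 89 9 12589 55440) (.lg 2 false 7 97 101 11 6533 55440))
  .out)))))) .out)) (.nx 811 257 (.lg 0 false 7 83 83 11 0 11088) .out)) (.nr 825 183 (.lg 0 true
  13 89 89 13 0 102960) .out)) (.nr 873 21 (.nx 847 6658044 (.lg 0 true 21 79 79 11 0 11088) (.lg 0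
  true 26 83 83 11 0 20592)) .out))) .out) .out) (.nx 1001 13316087 (.nr 1000 1482912 (.nx 971
  1664512 (.nx 963 832257 (.nx 878 176 (.nr 877 55 (.lg 0 true 1 37 37 9 0 7920) (.l1 .sk)) (.nx
  879 177 (.l1 .sk) (.nx 900 26007 (.nr 892 110219 (.lg 0 false 13 97 103 16 0 102960) (.nx 899 257
  (.lg 0 false 7 79 79 16 0 55440) .out)) (.nr 962 155873 (.nr 913 956 (.lg 0 true 13 89 89 16 0
  102960) (.nx 961 660563 (.nx 935 82572 (.nx 928 58386 (.nx 921 41285 (.nr 920 131073 (.lg 1 false
  7 101 101 16 78165 55440) .out) (.lg 1 false 7 97 101 16 58543 55440)) (.lg 1 false 7 97 101 16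
  41396 55440)) (.nr 960 131073 (.nr 942 4213 (.lg 2 true 7 89 97 16 60805 55440) (.nx 949 131073
  (.lg 1 true 7 101 103 16 24619 55440) (.nr 959 46342 (.nr 952 8843 (.lg 2 true 3 89 89 11 13798
  7920) (.lg 2 false 7 89 97 16 6574 55440)) .out))) .out)) .out)) .out)))) (.nr 970 129 (.lg 0
  true 7 79 79 16 0 55440) .out)) (.nr 999 24 (.lg 0 true 28 79 79 16 0 55440) .out)) .out)
  .out))))

def T60_1 : Ph :=
  (.na 310 218 (.na 184 169 (.na 95 148 (.na 49 136 (.na 17 131 (.na 16 129 (.nx 15 2642247 (.nr 14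
  2097153 (.nr 1 128 .s1 (.nx 4 248 (.nx 3 247 (.nr 2 1435 (.l1 (.ls 31 29 479)) (.l1 .sk)) (.l1
  .sk)) (.nx 9 30505 (.lg 0 false 5 97 101 29 0 1244880) (.nr 13 65537 (.nr 11 1025 (.lg 0 true 2
  73 73 23 0 11856) (.nx 12 416129 (.lg 2 true 1 83 83 19 65784 11856) .out)) .out)))) .out) .out)
  .ne) (.na 32 134 (.nx 31 1321124 (.nr 30 2097153 (.nr 18 131 .s1 (.nx 28 165142 (.nx 25 26009
  (.nx 20 247 (.nr 19 1491 (.l1 (.ls 23 19 468)) (.l1 .sk)) (.nx 21 248 (.l1 .sk) (.lg 0 false 4 89
  89 17 0 59280))) (.nr 27 65537 (.lg 0 true 2 79 79 16 0 11856) .out)) (.nr 29 1025 (.lg 0 false 1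
  71 71 16 0 59280) .out))) .out) .out) (.nx 48 1321124 (.nr 47 2097153 (.nr 33 134 .s1 (.nx 35 247
  (.nr 34 1513 (.l1 (.ls 23 29 458)) (.l1 .sk)) (.nx 36 248 (.l1 .sk) (.nx 43 41287 (.lg 0 false 7
  97 97 29 0 414960) (.nr 46 16385 (.nr 44 1025 (.lg 0 false 1 73 73 19 0 59280) (.nx 45 165142
  (.lg 2 false 1 67 67 19 19898 59280) .out)) .out))))) .out) .out))) (.na 65 139 (.na 64 137 (.nx
  63 1321124 (.nr 62 2097153 (.nr 50 136 .s1 (.nx 53 248 (.nx 52 247 (.nr 51 1524 (.l1 (.ls 41 31
  451)) (.l1 .sk)) (.l1 .sk)) (.nx 56 20644 (.lg 0 false 3 97 103 37 0 177840) (.nr 61 262145 (.nx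
  59 165142 (.nx 57 41287 (.lg 0 false 1 97 97 29 0 59280) (.nr 58 16385 (.lg 0 true 1 89 89 29 0
  59280) .out)) (.nr 60 1025 (.lg 0 true 1 79 79 29 0 11856) .out)) .out)))) .out) .out) (.lg 0
  false 1 0 0 16 0 24)) (.na 80 142 (.nx 79 1321124 (.nr 78 2097153 (.nr 66 139 .s1 (.nx 68 247
  (.nr 67 1580 (.l1 (.ls 23 19 441)) (.l1 .sk)) (.nx 69 248 (.l1 .sk) (.nx 73 26009 (.lg 0 false 4
  83 83 17 0 59280) (.nr 77 65537 (.nx 75 165142 (.lg 0 true 2 79 79 16 0 59280) (.nr 76 1025 (.lg
  0 false 1 67 67 16 0 5928) .out)) .out))))) .out) .out) (.nx 94 1321124 (.nr 93 2097153 (.nr 81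
  142 .s1 (.nx 89 41287 (.nx 83 247 (.nr 82 1647 (.l1 (.ls 23 29 432)) (.l1 .sk)) (.nx 84 248 (.l1
  .sk) (.lg 0 false 5 97 97 29 0 59280))) (.nr 92 16385 (.nr 90 1025 (.lg 0 false 1 73 73 19 0
  35568) (.nx 91 165142 (.lg 2 false 1 61 61 19 19898 11856) .out)) .out))) .out) .out)))) (.na 140
  157 (.na 111 151 (.na 110 149 (.nx 109 1321124 (.nr 108 2097153 (.nr 96 148 .s1 (.nx 106 165142
  (.nx 104 26009 (.nx 98 247 (.nr 97 1658 (.l1 (.ls 29 29 415)) (.l1 .sk)) (.nx 99 248 (.l1 .sk)
  (.lg 0 false 5 89 97 31 0 59280))) (.nr 105 65537 (.lg 0 false 1 89 89 23 0 11856) .out)) (.nr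
  107 1025 (.lg 0 true 1 71 71 23 0 11856) .out))) .out) .out) (.lg 0 false 1 0 0 16 0 24)) (.na
  125 152 (.nx 124 1321124 (.nr 123 2097153 (.nr 112 151 .s1 (.nx 115 248 (.nx 114 247 (.nr 113
  1691 (.l1 (.ls 29 19 407)) (.l1 .sk)) (.l1 .sk)) (.nx 119 41287 (.lg 0 false 4 89 89 17 0 11856)
  (.nr 122 16385 (.nr 120 1025 (.lg 0 false 1 73 73 16 0 177840) (.nx 121 165142 (.lg 2 false 1 61
  61 16 19898 59280) .out)) .out)))) .out) .out) (.nx 139 1321124 (.nr 138 2097153 (.nr 126 152 .s1
  (.nx 129 248 (.nx 128 247 (.nr 127 1747 (.l1 (.ls 29 31 404)) (.l1 .sk)) (.l1 .sk)) (.nx 134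
  26009 (.lg 0 false 5 83 89 37 0 59280) (.nr 137 65537 (.nx 135 165142 (.lg 0 true 1 83 83 29 0
  11856) (.nr 136 1025 (.lg 0 true 1 67 67 29 0 11856) .out)) .out)))) .out) .out))) (.na 156 164
  (.na 155 163 (.nx 154 1321124 (.nr 153 2097153 (.nr 141 157 .s1 (.nx 143 247 (.nr 142 1814 (.l1
  (.ls 17 19 391)) (.l1 .sk)) (.nx 144 248 (.l1 .sk) (.nx 149 41287 (.lg 0 false 5 83 83 19 0
  29640) (.nr 152 16385 (.nr 150 1025 (.lg 0 false 1 67 67 16 0 11856) (.nx 151 165142 (.lg 2 false
  1 59 59 16 19898 11856) .out)) .out))))) .out) .out) (.lg 0 false 1 0 0 16 0 24)) (.na 169 167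
  (.nx 168 1321124 (.nr 167 2097153 (.nr 157 164 .s1 (.nx 159 247 (.nr 158 1858 (.l1 (.ls 31 29
  375)) (.l1 .sk)) (.nx 160 248 (.l1 .sk) (.nx 163 26009 (.lg 0 false 3 97 101 29 0 177840) (.nr
  166 65537 (.nx 164 165142 (.lg 0 false 1 97 97 23 0 177840) (.nr 165 1025 (.lg 0 true 1 71 71 23
  0 11856) .out)) .out))))) .out) .out) (.nx 183 1321124 (.nr 182 2097153 (.nr 170 167 .s1 (.nx 173
  248 (.nx 172 247 (.nr 171 1880 (.l1 (.ls 16 19 368)) (.l1 .sk)) (.l1 .sk)) (.nx 178 41287 (.lg 0
  false 5 83 83 19 0 59280) (.nr 181 16385 (.nr 179 1025 (.lg 0 false 1 61 61 16 0 5928) (.nx 180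
  165142 (.lg 2 false 1 53 53 16 19898 5928) .out)) .out)))) .out) .out))))) (.na 229 191 (.na 214
  179 (.na 198 173 (.na 185 172 (.lg 0 false 1 0 0 16 0 24) (.nx 197 1321124 (.nr 196 2097153 (.nr
  186 172 .s1 (.nx 189 248 (.nx 188 247 (.nr 187 1925 (.l1 (.ls 29 29 357)) (.l1 .sk)) (.l1 .sk))
  (.nx 194 165142 (.nx 192 26009 (.lg 0 false 3 89 97 29 0 35568) (.nr 193 65537 (.lg 0 false 1 89
  89 23 0 11856) .out)) (.nr 195 1025 (.lg 0 true 1 71 71 23 0 11856) .out)))) .out) .out)) (.na
  199 178 (.lg 0 false 1 0 0 16 0 24) (.nx 213 1321124 (.nr 212 2097153 (.nr 200 178 .s1 (.nx 203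
  248 (.nx 202 247 (.nr 201 1992 (.l1 (.ls 17 29 345)) (.l1 .sk)) (.l1 .sk)) (.nx 208 41287 (.lg 0
  false 5 83 83 29 0 59280) (.nr 211 16385 (.nr 209 1025 (.lg 0 false 1 67 67 19 0 35568) (.nx 210
  165142 (.lg 2 false 1 59 59 19 19898 11856) .out)) .out)))) .out) .out))) (.na 216 182 (.na 215
  181 (.lg 0 false 1 0 0 16 0 24) (.lg 0 false 1 0 0 16 0 24)) (.na 217 184 .ne (.nx 228 1321124
  (.nr 227 1482912 (.nr 218 184 .s1 (.nr 222 65537 (.nx 219 408 (.l1 (.ls 67 37 907)) (.nx 220
  165142 (.lg 0 true 1 97 101 31 0 59280) (.nr 221 1025 (.lg 0 true 1 79 79 31 0 11856) .out)))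
  (.nx 224 248 (.nx 223 247 (.l1 .sk) (.l1 .sk)) (.nx 226 26009 (.lg 0 false 2 103 109 37 0
  13693680) .out)))) .out) .out)))) (.na 271 199 (.na 257 194 (.na 242 193 (.nx 241 1321124 (.nr
  240 1482912 (.nr 230 191 .s1 (.nx 233 248 (.nx 232 247 (.nr 231 2147 (.l1 (.ls 37 19 322)) (.l1
  .sk)) (.l1 .sk)) (.nx 236 41287 (.lg 0 false 3 83 83 17 0 17784) (.nr 239 16385 (.nr 237 1025
  (.lg 0 false 1 67 67 16 0 5928) (.nx 238 165142 (.lg 2 false 1 59 59 16 19898 5928) .out))
  .out)))) .out) .out) (.nx 256 1321124 (.nr 255 1482912 (.nr 243 193 .s1 (.nx 246 248 (.nx 245 247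
  (.nr 244 2159 (.l1 (.ls 17 19 319)) (.l1 .sk)) (.l1 .sk)) (.nx 251 41287 (.lg 0 false 5 79 79 19
  0 29640) (.nr 254 16385 (.nr 252 1025 (.lg 0 false 1 61 61 16 0 5928) (.nx 253 165142 (.lg 2
  false 1 53 53 16 19898 5928) .out)) .out)))) .out) .out)) (.na 270 197 (.nx 269 1321124 (.nr 268
  1482912 (.nr 258 194 .s1 (.nx 260 247 (.nr 259 2192 (.l1 (.ls 23 29 317)) (.l1 .sk)) (.nx 261 248
  (.l1 .sk) (.nx 264 41287 (.lg 0 false 3 89 89 29 0 177840) (.nr 267 16385 (.nr 265 1025 (.lg 0
  false 1 67 67 19 0 11856) (.nx 266 165142 (.lg 2 false 1 59 59 19 19898 11856) .out)) .out)))))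
  .out) .out) (.lg 0 false 1 0 0 16 0 24))) (.na 297 208 (.na 284 202 (.nx 283 1321124 (.nr 282
  1482912 (.nr 272 199 .s1 (.nx 275 248 (.nx 274 247 (.nr 273 2248 (.l1 (.ls 17 19 309)) (.l1 .sk))
  (.l1 .sk)) (.nx 278 41287 (.lg 0 false 3 83 83 17 0 17784) (.nr 281 16385 (.nr 279 1025 (.lg 0
  false 1 67 67 16 0 59280) (.nx 280 165142 (.lg 2 true 1 53 53 16 19898 5928) .out)) .out))))
  .out) .out) (.nx 296 1321124 (.nr 295 1482912 (.nr 285 202 .s1 (.nx 287 247 (.nr 286 2314 (.l1
  (.ls 17 29 305)) (.l1 .sk)) (.nx 288 248 (.l1 .sk) (.nx 291 41287 (.lg 0 false 3 83 83 29 0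
  35568) (.nr 294 16385 (.nr 292 1025 (.lg 0 false 1 61 61 23 0 11856) (.nx 293 165142 (.lg 2 true
  1 53 53 23 19898 11856) .out)) .out))))) .out) .out)) (.na 309 211 (.nx 308 1321124 (.nr 307
  1482912 (.nr 298 208 .s1 (.nx 305 165142 (.nx 303 26009 (.nx 300 247 (.nr 299 2348 (.l1 (.ls 29
  31 296)) (.l1 .sk)) (.nx 301 248 (.l1 .sk) (.lg 0 false 2 83 83 31 0 11856))) (.nr 304 65537 (.lg
  0 true 1 79 79 29 0 11856) .out)) (.nr 306 1025 (.lg 0 true 1 61 61 29 0 11856) .out))) .out)
  .out) (.lg 0 false 1 0 0 16 0 24)))))) (.na 1339 512 (.na 384 241 (.na 358 229 (.na 336 223 (.na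
  323 221 (.nx 322 1321124 (.nr 321 1482912 (.nr 311 218 .s1 (.nx 317 41287 (.nx 313 247 (.nr 312
  2459 (.l1 (.ls 17 29 282)) (.l1 .sk)) (.nx 314 248 (.l1 .sk) (.lg 0 false 3 79 79 29 0 35568)))
  (.nr 320 16385 (.lg 0 true 3 73 73 29 0 35568) .out))) .out) .out) (.nx 335 1321124 (.nr 334
  1482912 (.nr 324 221 .s1 (.nx 330 41287 (.nx 326 247 (.nr 325 2481 (.l1 (.ls 16 29 279)) (.l1
  .sk)) (.nx 327 248 (.l1 .sk) (.lg 0 false 3 83 83 29 0 17784))) (.nr 333 16385 (.nr 331 1025 (.lg
  0 false 1 67 67 19 0 5928) (.nx 332 165142 (.lg 2 false 1 59 59 19 19898 5928) .out)) .out)))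
  .out) .out)) (.na 347 227 (.nx 346 1321124 (.nr 345 1482912 (.nr 337 223 .s1 (.nx 339 247 (.nr
  338 2526 (.l1 (.ls 17 19 276)) (.l1 .sk)) (.nx 340 248 (.l1 .sk) (.nx 343 41287 (.lg 0 false 3 79
  79 19 0 17784) (.nr 344 16385 (.lg 0 false 1 79 79 16 0 5928) .out))))) .out) .out) (.nx 357
  1321124 (.nr 356 1482912 (.nr 348 227 .s1 (.nx 351 248 (.nx 350 247 (.nr 349 2548 (.l1 (.ls 17 19
  271)) (.l1 .sk)) (.l1 .sk)) (.nx 354 41287 (.lg 0 false 3 79 79 19 0 17784) (.nr 355 16385 (.lg 0
  false 1 79 79 17 0 5928) .out)))) .out) .out))) (.na 370 236 (.na 359 233 (.lg 0 false 1 0 0 16 0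
  24) (.nx 369 1321124 (.nr 368 1482912 (.nr 360 233 .s1 (.nx 366 41287 (.nx 362 247 (.nr 361 2626
  (.l1 (.ls 16 19 264)) (.l1 .sk)) (.nx 363 248 (.l1 .sk) (.lg 0 false 3 79 79 19 0 17784))) (.nr
  367 16385 (.lg 0 false 1 79 79 17 0 11856) .out))) .out) .out)) (.na 383 239 (.nx 382 1321124
  (.nr 381 1482912 (.nr 371 236 .s1 (.nx 373 247 (.nr 372 2659 (.l1 (.ls 37 29 261)) (.l1 .sk))
  (.nx 374 248 (.l1 .sk) (.nx 377 26009 (.lg 0 false 3 89 97 31 0 177840) (.nr 380 65537 (.nx 378
  165142 (.lg 0 true 1 89 89 23 0 11856) (.nr 379 1025 (.lg 0 true 1 71 71 23 0 11856) .out))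
  .out))))) .out) .out) (.lg 0 false 1 0 0 16 0 24)))) (.na 430 251 (.na 407 247 (.na 395 244 (.nx
  394 1321124 (.nr 393 1482912 (.nr 385 241 .s1 (.nx 388 248 (.nx 387 247 (.nr 386 2715 (.l1 (.ls
  29 19 256)) (.l1 .sk)) (.l1 .sk)) (.nx 391 41287 (.lg 0 false 3 79 79 19 0 17784) (.nr 392 16385
  (.lg 0 false 1 79 79 17 0 5928) .out)))) .out) .out) (.nx 406 1321124 (.nr 405 1482912 (.nr 396
  244 .s1 (.nx 399 248 (.nx 398 247 (.nr 397 2748 (.l1 (.ls 29 29 253)) (.l1 .sk)) (.l1 .sk)) (.nx
  403 165142 (.nx 401 26009 (.lg 0 false 2 89 89 29 0 59280) (.nr 402 65537 (.lg 0 true 1 83 83 23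
  0 11856) .out)) (.nr 404 1025 (.lg 0 true 1 67 67 23 0 11856) .out)))) .out) .out)) (.na 419 248
  (.nx 418 1321124 (.nr 417 1482912 (.nr 408 247 .s1 (.nx 414 41287 (.nx 410 247 (.nr 409 2759 (.l1
  (.ls 16 23 249)) (.l1 .sk)) (.nx 411 248 (.l1 .sk) (.lg 0 true 3 73 73 17 0 17784))) (.nr 416
  16385 (.lg 0 false 2 71 71 17 0 11856) .out))) .out) .out) (.nx 429 1321124 (.nr 428 1482912 (.nr
  420 248 .s1 (.nx 423 248 (.nx 422 247 (.nr 421 2793 (.l1 (.ls 29 29 249)) (.l1 .sk)) (.l1 .sk))
  (.nr 426 65537 (.nx 424 165142 (.lg 0 true 1 89 89 29 0 11856) (.nr 425 1025 (.lg 0 true 1 71 71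
  29 0 11856) .out)) (.nx 427 26009 (.lg 0 false 1 97 97 29 0 11856) .out)))) .out) .out))) (.na
  455 257 (.na 443 256 (.nx 442 1321124 (.nr 441 1482912 (.nr 431 251 .s1 (.nx 433 247 (.nr 432
  2848 (.l1 (.ls 17 19 246)) (.l1 .sk)) (.nx 434 248 (.l1 .sk) (.nx 437 41287 (.lg 0 false 3 79 79
  19 0 17784) (.nr 440 16385 (.nr 438 1025 (.lg 0 false 1 61 61 17 0 59280) (.nx 439 165142 (.lg 2
  true 1 47 47 17 19898 5928) .out)) .out))))) .out) .out) (.nx 454 1321124 (.nr 453 1482912 (.nr
  444 256 .s1 (.nx 447 248 (.nx 446 247 (.nr 445 2859 (.l1 (.ls 31 29 241)) (.l1 .sk)) (.l1 .sk))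
  (.nx 449 26009 (.lg 0 false 2 89 89 29 0 59280) (.nr 452 65537 (.nx 450 165142 (.lg 0 false 1 83
  83 29 0 59280) (.nr 451 2049 (.lg 0 true 1 71 71 29 0 11856) .out)) .out)))) .out) .out)) (.na
  886 363 (.nx 885 1321124 (.nr 884 1482912 (.nr 456 257 .s1 (.nx 564 248 (.nx 563 247 (.nr 562
  4039 (.la (.ls 37 19 240)) (.l1 .sk)) (.l1 .sk)) (.nx 777 165142 (.nx 670 26009 (.la (.lg 0 false
  2 79 83 23 0)) (.nr 776 32769 (.la (.lg 0 true 1 71 71 23 0)) .out)) (.nr 883 2049 (.la (.lg 0
  true 1 61 61 23 0)) .out)))) .out) .out) (.nx 1338 1321124 (.nr 1337 1482912 (.nr 887 363 .s1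
  (.nx 1037 247 (.nr 1036 5696 (.la (.ls 37 23 171)) (.l1 .sk)) (.nx 1038 248 (.l1 .sk) (.nx 1187
  26009 (.la (.lg 0 true 1 79 79 23 0)) (.nr 1336 32769 (.la (.lg 0 false 1 79 79 23 0)) .out)))))
  .out) .out))))) (.na 11017 8192 (.na 4042 2048 (.na 2586 1024 (.na 1984 725 (.nx 1983 1321124
  (.nr 1982 1482912 (.nr 1340 512 .s1 (.nx 1555 248 (.nx 1554 247 (.nr 1553 8066 (.la (.ls 41 23
  182)) (.l1 .sk)) (.l1 .sk)) (.nx 1768 26009 (.la (.lg 0 false 1 73 73 29 0)) (.nr 1981 32769 (.la
  (.lg 0 true 1 73 73 29 0)) .out)))) .out) .out) (.nx 2585 20644 (.nr 2584 2097153 (.nr 1985 725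
  .s1 (.nx 2284 3252 (.la (.ls 71 43 14589)) (.nr 2583 131073 (.la (.lg 0 false 1 53 53 29 0))
  .out))) .out) .out)) (.na 3440 1449 (.nx 3439 20644 (.nr 3438 2097153 (.nr 2587 1024 .s1 (.nx
  3012 3252 (.la (.ls 71 41 10330)) (.nr 3437 131073 (.la (.lg 0 false 1 53 53 31 0)) .out))) .out)
  .out) (.nx 4041 13005 (.nr 4040 2097153 (.nr 3441 1449 .s1 (.la (.ls 67 59 116724))) .out)
  .out))) (.na 6344 4096 (.na 4894 2897 (.nx 4893 13005 (.nr 4892 2097153 (.nr 4043 2048 .s1 (.la
  (.ls 67 53 82586))) .out) .out) (.nx 6343 4097 (.nr 6342 1048577 (.nr 4895 2897 .s1 (.nx 5142 247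
  (.nr 5141 45566 (.lx (.lp 43 29 1025)) (.l1 .sk)) (.nx 5143 248 (.l1 .sk) (.la (.ls 59 41
  5775))))) .out) .out)) (.na 8292 5793 (.nx 8291 5162 (.nr 8290 1048577 (.nr 6345 4096 .s1 (.nx
  6593 248 (.nx 6592 247 (.nr 6591 64444 (.lx (.lp 43 31 1449)) (.l1 .sk)) (.l1 .sk)) (.la (.ls 59
  41 6493)))) .out) .out) (.nx 11016 2049 (.nr 11015 524289 (.nr 8293 5793 .s1 (.nx 8616 324 (.lx
  (.lp 59 37 2049)) (.la (.ls 53 37 2049)))) .out) .out)))) (.na 19224 65536 (.na 15120 16384 (.na
  13069 11586 (.nx 13068 2049 (.nr 13067 524289 (.nr 11018 8192 .s1 (.nx 12309 1292 (.lx (.lp 59 41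
  2897)) (.nr 13066 131073 (.lx (.lp 43 41 2897)) .out))) .out) .out) (.nx 15119 2049 (.nr 15118
  131073 (.nr 13070 11586 .s1 (.lx (.lp 43 41 4097))) .out) .out)) (.na 17172 32768 (.nx 17171 2049
  (.nr 17170 262145 (.nr 15121 16384 .s1 (.nx 15444 324 (.lx (.lp 43 43 8193)) (.nr 17169 131073
  (.lx (.lp 41 43 8193)) .out))) .out) .out) (.nx 19223 2049 (.nr 19222 524289 (.nr 17173 32768 .s1
  (.nx 17496 324 (.lx (.lp 16 43 16385)) (.nr 19221 262145 (.lx (.lp 41 47 16385)) .out))) .out)
  .out))) (.na 22484 262144 (.na 20854 131072 (.nx 20853 1627 (.nr 20852 524289 (.nr 19225 65536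
  .s1 (.nx 19548 324 (.lx (.lp 16 0 32769)) (.nr 20851 262145 (.lx (.lp 41 53 32769)) .out))) .out)
  .out) (.nx 22483 1627 (.nr 22482 524289 (.nr 20855 131072 .s1 (.nx 21367 513 (.lx (.lp 41 47
  65537)) (.nr 22481 262145 (.lx (.lp 37 59 65537)) .out))) .out) .out)) (.na 22999 524288 (.nx
  22998 513 (.nr 22997 1048577 (.nr 22485 262144 .s1 (.lx (.lp 16 0 131073))) .out) .out) (.na
  23001 1048577 (.nx 23000 324 (.l1 .sk) .out) .out)))))))

theorem c60 :
    OkQ ckI L8 176 1 6 0 34359738368 1 1099511627776 ∧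
    OkQ ckI L10 247 128 1099511627776 0 34359738368 1 1099511627776 := by
  refine ⟨?_, ?_⟩
  · refine fin 1584 1002 T60_0 ?_
    refine jn 8 (by decide +kernel) ?_
    refine jn 11 (by decide +kernel) ?_
    refine jn 16 (by decide +kernel) ?_
    refine jn 22 (by decide +kernel) ?_
    refine jn 26 (by decide +kernel) ?_
    refine jn 32 (by decide +kernel) ?_
    refine jn 36 (by decide +kernel) ?_
    refine jn 40 (by decide +kernel) ?_
    refine jn 45 (by decide +kernel) ?_
    refine jn 51 (by decide +kernel) ?_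
    refine jn 57 (by decide +kernel) ?_
    refine jn 61 (by decide +kernel) ?_
    refine jn 65 (by decide +kernel) ?_
    refine jn 70 (by decide +kernel) ?_
    refine jn 75 (by decide +kernel) ?_
    refine jn 79 (by decide +kernel) ?_
    refine jn 84 (by decide +kernel) ?_
    refine jn 88 (by decide +kernel) ?_
    refine jn 92 (by decide +kernel) ?_
    refine jn 98 (by decide +kernel) ?_
    refine jn 106 (by decide +kernel) ?_
    refine jn 114 (by decide +kernel) ?_
    refine jn 122 (by decide +kernel) ?_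
    refine jn 130 (by decide +kernel) ?_
    refine jn 133 (by decide +kernel) ?_
    refine jn 146 (by decide +kernel) ?_
    refine jn 160 (by decide +kernel) ?_
    refine jn 173 (by decide +kernel) ?_
    refine jn 186 (by decide +kernel) ?_
    refine jn 199 (by decide +kernel) ?_
    refine jn 222 (by decide +kernel) ?_
    refine jn 250 (by decide +kernel) ?_
    refine jn 266 (by decide +kernel) ?_
    refine jn 286 (by decide +kernel) ?_
    refine jn 296 (by decide +kernel) ?_
    refine jn 302 (by decide +kernel) ?_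
    refine jn 308 (by decide +kernel) ?_
    refine jn 312 (by decide +kernel) ?_
    refine jn 318 (by decide +kernel) ?_
    refine jn 325 (by decide +kernel) ?_
    refine jn 328 (by decide +kernel) ?_
    refine jn 336 (by decide +kernel) ?_
    refine jn 344 (by decide +kernel) ?_
    refine jn 349 (by decide +kernel) ?_
    refine jn 370 (by decide +kernel) ?_
    refine jn 377 (by decide +kernel) ?_
    refine jn 391 (by decide +kernel) ?_
    refine jn 413 (by decide +kernel) ?_
    refine jn 440 (by decide +kernel) ?_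
    refine jn 452 (by decide +kernel) ?_
    refine jn 473 (by decide +kernel) ?_
    refine jn 507 (by decide +kernel) ?_
    refine jn 513 (by decide +kernel) ?_
    refine jn 514 (by decide +kernel) ?_
    refine jn 515 (by decide +kernel) ?_
    refine jn 516 (by decide +kernel) ?_
    refine jn 517 (by decide +kernel) ?_
    refine jn 518 (by decide +kernel) ?_
    refine jn 519 (by decide +kernel) ?_
    refine jn 520 (by decide +kernel) ?_
    refine jn 521 (by decide +kernel) ?_
    refine jn 522 (by decide +kernel) ?_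
    refine jn 523 (by decide +kernel) ?_
    refine jn 524 (by decide +kernel) ?_
    refine jn 525 (by decide +kernel) ?_
    refine jn 526 (by decide +kernel) ?_
    refine jn 539 (by decide +kernel) ?_
    refine jn 546 (by decide +kernel) ?_
    refine jn 552 (by decide +kernel) ?_
    refine jn 553 (by decide +kernel) ?_
    refine jn 554 (by decide +kernel) ?_
    refine jn 556 (by decide +kernel) ?_
    refine jn 557 (by decide +kernel) ?_
    refine jn 559 (by decide +kernel) ?_
    refine jn 561 (by decide +kernel) ?_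
    refine jn 563 (by decide +kernel) ?_
    refine jn 565 (by decide +kernel) ?_
    refine jn 566 (by decide +kernel) ?_
    refine jn 571 (by decide +kernel) ?_
    refine jn 584 (by decide +kernel) ?_
    refine jn 597 (by decide +kernel) ?_
    refine jn 610 (by decide +kernel) ?_
    refine jn 623 (by decide +kernel) ?_
    refine jn 636 (by decide +kernel) ?_
    refine jn 640 (by decide +kernel) ?_
    refine jn 649 (by decide +kernel) ?_
    refine jn 653 (by decide +kernel) ?_
    refine jn 661 (by decide +kernel) ?_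
    refine jn 668 (by decide +kernel) ?_
    refine jn 690 (by decide +kernel) ?_
    refine jn 697 (by decide +kernel) ?_
    refine jn 698 (by decide +kernel) ?_
    refine jn 699 (by decide +kernel) ?_
    refine jn 700 (by decide +kernel) ?_
    refine jn 701 (by decide +kernel) ?_
    refine jn 702 (by decide +kernel) ?_
    refine jn 703 (by decide +kernel) ?_
    refine jn 704 (by decide +kernel) ?_
    refine jn 705 (by decide +kernel) ?_
    refine jn 706 (by decide +kernel) ?_
    refine jn 707 (by decide +kernel) ?_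
    refine jn 708 (by decide +kernel) ?_
    refine jn 709 (by decide +kernel) ?_
    refine jn 710 (by decide +kernel) ?_
    refine jn 716 (by decide +kernel) ?_
    refine jn 718 (by decide +kernel) ?_
    refine jn 720 (by decide +kernel) ?_
    refine jn 723 (by decide +kernel) ?_
    refine jn 725 (by decide +kernel) ?_
    refine jn 727 (by decide +kernel) ?_
    refine jn 732 (by decide +kernel) ?_
    refine jn 745 (by decide +kernel) ?_
    refine jn 758 (by decide +kernel) ?_
    refine jn 771 (by decide +kernel) ?_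
    refine jn 784 (by decide +kernel) ?_
    refine jn 791 (by decide +kernel) ?_
    refine jn 795 (by decide +kernel) ?_
    refine jn 802 (by decide +kernel) ?_
    refine jn 816 (by decide +kernel) ?_
    refine jn 824 (by decide +kernel) ?_
    refine jn 847 (by decide +kernel) ?_
    refine jn 873 (by decide +kernel) ?_
    refine jn 879 (by decide +kernel) ?_
    refine jn 880 (by decide +kernel) ?_
    refine jn 881 (by decide +kernel) ?_
    refine jn 883 (by decide +kernel) ?_
    refine jn 885 (by decide +kernel) ?_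
    refine jn 887 (by decide +kernel) ?_
    refine jn 888 (by decide +kernel) ?_
    refine jn 890 (by decide +kernel) ?_
    refine jn 891 (by decide +kernel) ?_
    refine jn 899 (by decide +kernel) ?_
    refine jn 903 (by decide +kernel) ?_
    refine jn 906 (by decide +kernel) ?_
    refine jn 909 (by decide +kernel) ?_
    refine jn 912 (by decide +kernel) ?_
    refine jn 913 (by decide +kernel) ?_
    refine jn 920 (by decide +kernel) ?_
    refine jn 928 (by decide +kernel) ?_
    refine jn 935 (by decide +kernel) ?_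
    refine jn 942 (by decide +kernel) ?_
    refine jn 952 (by decide +kernel) ?_
    refine jn 959 (by decide +kernel) ?_
    refine jn 970 (by decide +kernel) ?_
    refine jn 999 (by decide +kernel) ?_
    exact je (by decide +kernel)
  · refine fin 5928 23002 T60_1 ?_
    refine jn 9 (by decide +kernel) ?_
    refine jn 12 (by decide +kernel) ?_
    refine jn 27 (by decide +kernel) ?_
    refine jn 44 (by decide +kernel) ?_
    refine jn 53 (by decide +kernel) ?_
    refine jn 55 (by decide +kernel) ?_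
    refine jn 56 (by decide +kernel) ?_
    refine jn 58 (by decide +kernel) ?_
    refine jn 73 (by decide +kernel) ?_
    refine jn 89 (by decide +kernel) ?_
    refine jn 99 (by decide +kernel) ?_
    refine jn 104 (by decide +kernel) ?_
    refine jn 119 (by decide +kernel) ?_
    refine jn 129 (by decide +kernel) ?_
    refine jn 134 (by decide +kernel) ?_
    refine jn 149 (by decide +kernel) ?_
    refine jn 163 (by decide +kernel) ?_
    refine jn 178 (by decide +kernel) ?_
    refine jn 192 (by decide +kernel) ?_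
    refine jn 208 (by decide +kernel) ?_
    refine jn 219 (by decide +kernel) ?_
    refine jn 220 (by decide +kernel) ?_
    refine jn 226 (by decide +kernel) ?_
    refine jn 238 (by decide +kernel) ?_
    refine jn 253 (by decide +kernel) ?_
    refine jn 266 (by decide +kernel) ?_
    refine jn 280 (by decide +kernel) ?_
    refine jn 294 (by decide +kernel) ?_
    refine jn 304 (by decide +kernel) ?_
    refine jn 320 (by decide +kernel) ?_
    refine jn 332 (by decide +kernel) ?_
    refine jn 354 (by decide +kernel) ?_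
    refine jn 367 (by decide +kernel) ?_
    refine jn 378 (by decide +kernel) ?_
    refine jn 392 (by decide +kernel) ?_
    refine jn 402 (by decide +kernel) ?_
    refine jn 420 (by decide +kernel) ?_
    refine jn 424 (by decide +kernel) ?_
    refine jn 427 (by decide +kernel) ?_
    refine jn 444 (by decide +kernel) ?_
    refine jn 451 (by decide +kernel) ?_
    refine jn 495 (by decide +kernel) ?_
    refine jn 527 (by decide +kernel) ?_
    refine jn 562 (by decide +kernel) ?_
    refine jn 575 (by decide +kernel) ?_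
    refine jn 579 (by decide +kernel) ?_
    refine jn 580 (by decide +kernel) ?_
    refine jn 588 (by decide +kernel) ?_
    refine jn 591 (by decide +kernel) ?_
    refine jn 596 (by decide +kernel) ?_
    refine jn 603 (by decide +kernel) ?_
    refine jn 604 (by decide +kernel) ?_
    refine jn 611 (by decide +kernel) ?_
    refine jn 618 (by decide +kernel) ?_
    refine jn 621 (by decide +kernel) ?_
    refine jn 630 (by decide +kernel) ?_
    refine jn 635 (by decide +kernel) ?_
    refine jn 636 (by decide +kernel) ?_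
    refine jn 651 (by decide +kernel) ?_
    refine jn 652 (by decide +kernel) ?_
    refine jn 670 (by decide +kernel) ?_
    refine jn 685 (by decide +kernel) ?_
    refine jn 690 (by decide +kernel) ?_
    refine jn 697 (by decide +kernel) ?_
    refine jn 709 (by decide +kernel) ?_
    refine jn 712 (by decide +kernel) ?_
    refine jn 720 (by decide +kernel) ?_
    refine jn 730 (by decide +kernel) ?_
    refine jn 741 (by decide +kernel) ?_
    refine jn 747 (by decide +kernel) ?_
    refine jn 757 (by decide +kernel) ?_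
    refine jn 760 (by decide +kernel) ?_
    refine jn 783 (by decide +kernel) ?_
    refine jn 792 (by decide +kernel) ?_
    refine jn 793 (by decide +kernel) ?_
    refine jn 804 (by decide +kernel) ?_
    refine jn 816 (by decide +kernel) ?_
    refine jn 817 (by decide +kernel) ?_
    refine jn 831 (by decide +kernel) ?_
    refine jn 843 (by decide +kernel) ?_
    refine jn 851 (by decide +kernel) ?_
    refine jn 864 (by decide +kernel) ?_
    refine jn 865 (by decide +kernel) ?_
    refine jn 906 (by decide +kernel) ?_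
    refine jn 960 (by decide +kernel) ?_
    refine jn 1012 (by decide +kernel) ?_
    refine jn 1042 (by decide +kernel) ?_
    refine jn 1043 (by decide +kernel) ?_
    refine jn 1044 (by decide +kernel) ?_
    refine jn 1061 (by decide +kernel) ?_
    refine jn 1064 (by decide +kernel) ?_
    refine jn 1073 (by decide +kernel) ?_
    refine jn 1079 (by decide +kernel) ?_
    refine jn 1091 (by decide +kernel) ?_
    refine jn 1096 (by decide +kernel) ?_
    refine jn 1111 (by decide +kernel) ?_
    refine jn 1117 (by decide +kernel) ?_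
    refine jn 1124 (by decide +kernel) ?_
    refine jn 1142 (by decide +kernel) ?_
    refine jn 1147 (by decide +kernel) ?_
    refine jn 1156 (by decide +kernel) ?_
    refine jn 1163 (by decide +kernel) ?_
    refine jn 1166 (by decide +kernel) ?_
    refine jn 1171 (by decide +kernel) ?_
    refine jn 1177 (by decide +kernel) ?_
    refine jn 1191 (by decide +kernel) ?_
    refine jn 1192 (by decide +kernel) ?_
    refine jn 1193 (by decide +kernel) ?_
    refine jn 1210 (by decide +kernel) ?_
    refine jn 1215 (by decide +kernel) ?_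
    refine jn 1225 (by decide +kernel) ?_
    refine jn 1228 (by decide +kernel) ?_
    refine jn 1240 (by decide +kernel) ?_
    refine jn 1245 (by decide +kernel) ?_
    refine jn 1260 (by decide +kernel) ?_
    refine jn 1266 (by decide +kernel) ?_
    refine jn 1273 (by decide +kernel) ?_
    refine jn 1291 (by decide +kernel) ?_
    refine jn 1296 (by decide +kernel) ?_
    refine jn 1305 (by decide +kernel) ?_
    refine jn 1312 (by decide +kernel) ?_
    refine jn 1315 (by decide +kernel) ?_
    refine jn 1320 (by decide +kernel) ?_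
    refine jn 1326 (by decide +kernel) ?_
    refine jn 1340 (by decide +kernel) ?_
    refine jn 1372 (by decide +kernel) ?_
    refine jn 1406 (by decide +kernel) ?_
    refine jn 1457 (by decide +kernel) ?_
    refine jn 1516 (by decide +kernel) ?_
    refine jn 1547 (by decide +kernel) ?_
    refine jn 1569 (by decide +kernel) ?_
    refine jn 1576 (by decide +kernel) ?_
    refine jn 1579 (by decide +kernel) ?_
    refine jn 1580 (by decide +kernel) ?_
    refine jn 1587 (by decide +kernel) ?_
    refine jn 1588 (by decide +kernel) ?_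
    refine jn 1605 (by decide +kernel) ?_
    refine jn 1611 (by decide +kernel) ?_
    refine jn 1614 (by decide +kernel) ?_
    refine jn 1632 (by decide +kernel) ?_
    refine jn 1635 (by decide +kernel) ?_
    refine jn 1641 (by decide +kernel) ?_
    refine jn 1651 (by decide +kernel) ?_
    refine jn 1669 (by decide +kernel) ?_
    refine jn 1672 (by decide +kernel) ?_
    refine jn 1690 (by decide +kernel) ?_
    refine jn 1699 (by decide +kernel) ?_
    refine jn 1704 (by decide +kernel) ?_
    refine jn 1726 (by decide +kernel) ?_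
    refine jn 1731 (by decide +kernel) ?_
    refine jn 1737 (by decide +kernel) ?_
    refine jn 1746 (by decide +kernel) ?_
    refine jn 1756 (by decide +kernel) ?_
    refine jn 1768 (by decide +kernel) ?_
    refine jn 1782 (by decide +kernel) ?_
    refine jn 1789 (by decide +kernel) ?_
    refine jn 1792 (by decide +kernel) ?_
    refine jn 1793 (by decide +kernel) ?_
    refine jn 1800 (by decide +kernel) ?_
    refine jn 1801 (by decide +kernel) ?_
    refine jn 1818 (by decide +kernel) ?_
    refine jn 1824 (by decide +kernel) ?_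
    refine jn 1827 (by decide +kernel) ?_
    refine jn 1845 (by decide +kernel) ?_
    refine jn 1848 (by decide +kernel) ?_
    refine jn 1854 (by decide +kernel) ?_
    refine jn 1864 (by decide +kernel) ?_
    refine jn 1882 (by decide +kernel) ?_
    refine jn 1885 (by decide +kernel) ?_
    refine jn 1903 (by decide +kernel) ?_
    refine jn 1912 (by decide +kernel) ?_
    refine jn 1917 (by decide +kernel) ?_
    refine jn 1939 (by decide +kernel) ?_
    refine jn 1944 (by decide +kernel) ?_
    refine jn 1950 (by decide +kernel) ?_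
    refine jn 1959 (by decide +kernel) ?_
    refine jn 1969 (by decide +kernel) ?_
    refine jn 1994 (by decide +kernel) ?_
    refine jn 2027 (by decide +kernel) ?_
    refine jn 2047 (by decide +kernel) ?_
    refine jn 2077 (by decide +kernel) ?_
    refine jn 2122 (by decide +kernel) ?_
    refine jn 2146 (by decide +kernel) ?_
    refine jn 2201 (by decide +kernel) ?_
    refine jn 2236 (by decide +kernel) ?_
    refine jn 2257 (by decide +kernel) ?_
    refine jn 2290 (by decide +kernel) ?_
    refine jn 2295 (by decide +kernel) ?_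
    refine jn 2316 (by decide +kernel) ?_
    refine jn 2331 (by decide +kernel) ?_
    refine jn 2335 (by decide +kernel) ?_
    refine jn 2341 (by decide +kernel) ?_
    refine jn 2361 (by decide +kernel) ?_
    refine jn 2368 (by decide +kernel) ?_
    refine jn 2391 (by decide +kernel) ?_
    refine jn 2410 (by decide +kernel) ?_
    refine jn 2431 (by decide +kernel) ?_
    refine jn 2442 (by decide +kernel) ?_
    refine jn 2457 (by decide +kernel) ?_
    refine jn 2493 (by decide +kernel) ?_
    refine jn 2503 (by decide +kernel) ?_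
    refine jn 2523 (by decide +kernel) ?_
    refine jn 2536 (by decide +kernel) ?_
    refine jn 2551 (by decide +kernel) ?_
    refine jn 2563 (by decide +kernel) ?_
    refine jn 2578 (by decide +kernel) ?_
    refine jn 2614 (by decide +kernel) ?_
    refine jn 2652 (by decide +kernel) ?_
    refine jn 2695 (by decide +kernel) ?_
    refine jn 2735 (by decide +kernel) ?_
    refine jn 2771 (by decide +kernel) ?_
    refine jn 2819 (by decide +kernel) ?_
    refine jn 2860 (by decide +kernel) ?_
    refine jn 2896 (by decide +kernel) ?_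
    refine jn 2951 (by decide +kernel) ?_
    refine jn 2992 (by decide +kernel) ?_
    refine jn 3036 (by decide +kernel) ?_
    refine jn 3042 (by decide +kernel) ?_
    refine jn 3060 (by decide +kernel) ?_
    refine jn 3085 (by decide +kernel) ?_
    refine jn 3106 (by decide +kernel) ?_
    refine jn 3120 (by decide +kernel) ?_
    refine jn 3130 (by decide +kernel) ?_
    refine jn 3160 (by decide +kernel) ?_
    refine jn 3172 (by decide +kernel) ?_
    refine jn 3195 (by decide +kernel) ?_
    refine jn 3211 (by decide +kernel) ?_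
    refine jn 3240 (by decide +kernel) ?_
    refine jn 3249 (by decide +kernel) ?_
    refine jn 3280 (by decide +kernel) ?_
    refine jn 3295 (by decide +kernel) ?_
    refine jn 3309 (by decide +kernel) ?_
    refine jn 3324 (by decide +kernel) ?_
    refine jn 3355 (by decide +kernel) ?_
    refine jn 3382 (by decide +kernel) ?_
    refine jn 3397 (by decide +kernel) ?_
    refine jn 3417 (by decide +kernel) ?_
    refine jn 3460 (by decide +kernel) ?_
    refine jn 3478 (by decide +kernel) ?_
    refine jn 3509 (by decide +kernel) ?_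
    refine jn 3524 (by decide +kernel) ?_
    refine jn 3536 (by decide +kernel) ?_
    refine jn 3544 (by decide +kernel) ?_
    refine jn 3551 (by decide +kernel) ?_
    refine jn 3571 (by decide +kernel) ?_
    refine jn 3584 (by decide +kernel) ?_
    refine jn 3605 (by decide +kernel) ?_
    refine jn 3619 (by decide +kernel) ?_
    refine jn 3641 (by decide +kernel) ?_
    refine jn 3673 (by decide +kernel) ?_
    refine jn 3709 (by decide +kernel) ?_
    refine jn 3734 (by decide +kernel) ?_
    refine jn 3751 (by decide +kernel) ?_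
    refine jn 3764 (by decide +kernel) ?_
    refine jn 3793 (by decide +kernel) ?_
    refine jn 3823 (by decide +kernel) ?_
    refine jn 3856 (by decide +kernel) ?_
    refine jn 3869 (by decide +kernel) ?_
    refine jn 3883 (by decide +kernel) ?_
    refine jn 3920 (by decide +kernel) ?_
    refine jn 3944 (by decide +kernel) ?_
    refine jn 3968 (by decide +kernel) ?_
    refine jn 3986 (by decide +kernel) ?_
    refine jn 4004 (by decide +kernel) ?_
    refine jn 4034 (by decide +kernel) ?_
    refine jn 4069 (by decide +kernel) ?_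
    refine jn 4099 (by decide +kernel) ?_
    refine jn 4111 (by decide +kernel) ?_
    refine jn 4139 (by decide +kernel) ?_
    refine jn 4178 (by decide +kernel) ?_
    refine jn 4211 (by decide +kernel) ?_
    refine jn 4226 (by decide +kernel) ?_
    refine jn 4244 (by decide +kernel) ?_
    refine jn 4267 (by decide +kernel) ?_
    refine jn 4289 (by decide +kernel) ?_
    refine jn 4318 (by decide +kernel) ?_
    refine jn 4351 (by decide +kernel) ?_
    refine jn 4369 (by decide +kernel) ?_
    refine jn 4411 (by decide +kernel) ?_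
    refine jn 4436 (by decide +kernel) ?_
    refine jn 4474 (by decide +kernel) ?_
    refine jn 4499 (by decide +kernel) ?_
    refine jn 4511 (by decide +kernel) ?_
    refine jn 4532 (by decide +kernel) ?_
    refine jn 4574 (by decide +kernel) ?_
    refine jn 4601 (by decide +kernel) ?_
    refine jn 4621 (by decide +kernel) ?_
    refine jn 4649 (by decide +kernel) ?_
    refine jn 4684 (by decide +kernel) ?_
    refine jn 4729 (by decide +kernel) ?_
    refine jn 4762 (by decide +kernel) ?_
    refine jn 4793 (by decide +kernel) ?_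
    refine jn 4832 (by decide +kernel) ?_
    refine jn 4853 (by decide +kernel) ?_
    refine jn 4895 (by decide +kernel) ?_
    refine jn 5170 (by decide +kernel) ?_
    refine jn 5253 (by decide +kernel) ?_
    refine jn 5308 (by decide +kernel) ?_
    refine jn 5362 (by decide +kernel) ?_
    refine jn 5422 (by decide +kernel) ?_
    refine jn 5490 (by decide +kernel) ?_
    refine jn 5554 (by decide +kernel) ?_
    refine jn 5629 (by decide +kernel) ?_
    refine jn 5712 (by decide +kernel) ?_
    refine jn 5775 (by decide +kernel) ?_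
    refine jn 5847 (by decide +kernel) ?_
    refine jn 5937 (by decide +kernel) ?_
    refine jn 6003 (by decide +kernel) ?_
    refine jn 6073 (by decide +kernel) ?_
    refine jn 6150 (by decide +kernel) ?_
    refine jn 6214 (by decide +kernel) ?_
    refine jn 6273 (by decide +kernel) ?_
    refine jn 6342 (by decide +kernel) ?_
    refine jn 6621 (by decide +kernel) ?_
    refine jn 6698 (by decide +kernel) ?_
    refine jn 6758 (by decide +kernel) ?_
    refine jn 6836 (by decide +kernel) ?_
    refine jn 6929 (by decide +kernel) ?_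
    refine jn 6980 (by decide +kernel) ?_
    refine jn 7041 (by decide +kernel) ?_
    refine jn 7104 (by decide +kernel) ?_
    refine jn 7185 (by decide +kernel) ?_
    refine jn 7254 (by decide +kernel) ?_
    refine jn 7335 (by decide +kernel) ?_
    refine jn 7424 (by decide +kernel) ?_
    refine jn 7505 (by decide +kernel) ?_
    refine jn 7571 (by decide +kernel) ?_
    refine jn 7661 (by decide +kernel) ?_
    refine jn 7725 (by decide +kernel) ?_
    refine jn 7785 (by decide +kernel) ?_
    refine jn 7856 (by decide +kernel) ?_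
    refine jn 7944 (by decide +kernel) ?_
    refine jn 8028 (by decide +kernel) ?_
    refine jn 8103 (by decide +kernel) ?_
    refine jn 8178 (by decide +kernel) ?_
    refine jn 8243 (by decide +kernel) ?_
    refine jn 8488 (by decide +kernel) ?_
    refine jn 8701 (by decide +kernel) ?_
    refine jn 8845 (by decide +kernel) ?_
    refine jn 8957 (by decide +kernel) ?_
    refine jn 9062 (by decide +kernel) ?_
    refine jn 9187 (by decide +kernel) ?_
    refine jn 9311 (by decide +kernel) ?_
    refine jn 9436 (by decide +kernel) ?_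
    refine jn 9579 (by decide +kernel) ?_
    refine jn 9700 (by decide +kernel) ?_
    refine jn 9835 (by decide +kernel) ?_
    refine jn 9964 (by decide +kernel) ?_
    refine jn 10109 (by decide +kernel) ?_
    refine jn 10252 (by decide +kernel) ?_
    refine jn 10367 (by decide +kernel) ?_
    refine jn 10511 (by decide +kernel) ?_
    refine jn 10639 (by decide +kernel) ?_
    refine jn 10777 (by decide +kernel) ?_
    refine jn 10909 (by decide +kernel) ?_
    refine jn 11072 (by decide +kernel) ?_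
    refine jn 11495 (by decide +kernel) ?_
    refine jn 11712 (by decide +kernel) ?_
    refine jn 11867 (by decide +kernel) ?_
    refine jn 11991 (by decide +kernel) ?_
    refine jn 12116 (by decide +kernel) ?_
    refine jn 12217 (by decide +kernel) ?_
    refine jn 12296 (by decide +kernel) ?_
    refine jn 12369 (by decide +kernel) ?_
    refine jn 12449 (by decide +kernel) ?_
    refine jn 12517 (by decide +kernel) ?_
    refine jn 12579 (by decide +kernel) ?_
    refine jn 12639 (by decide +kernel) ?_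
    refine jn 12699 (by decide +kernel) ?_
    refine jn 12753 (by decide +kernel) ?_
    refine jn 12806 (by decide +kernel) ?_
    refine jn 12854 (by decide +kernel) ?_
    refine jn 12904 (by decide +kernel) ?_
    refine jn 12953 (by decide +kernel) ?_
    refine jn 12998 (by decide +kernel) ?_
    refine jn 13039 (by decide +kernel) ?_
    refine jn 13196 (by decide +kernel) ?_
    refine jn 13588 (by decide +kernel) ?_
    refine jn 13797 (by decide +kernel) ?_
    refine jn 14006 (by decide +kernel) ?_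
    refine jn 14151 (by decide +kernel) ?_
    refine jn 14276 (by decide +kernel) ?_
    refine jn 14392 (by decide +kernel) ?_
    refine jn 14490 (by decide +kernel) ?_
    refine jn 14574 (by decide +kernel) ?_
    refine jn 14645 (by decide +kernel) ?_
    refine jn 14732 (by decide +kernel) ?_
    refine jn 14808 (by decide +kernel) ?_
    refine jn 14881 (by decide +kernel) ?_
    refine jn 14938 (by decide +kernel) ?_
    refine jn 14999 (by decide +kernel) ?_
    refine jn 15057 (by decide +kernel) ?_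
    refine jn 15114 (by decide +kernel) ?_
    refine jn 15362 (by decide +kernel) ?_
    refine jn 15692 (by decide +kernel) ?_
    refine jn 15829 (by decide +kernel) ?_
    refine jn 15954 (by decide +kernel) ?_
    refine jn 16064 (by decide +kernel) ?_
    refine jn 16172 (by decide +kernel) ?_
    refine jn 16261 (by decide +kernel) ?_
    refine jn 16348 (by decide +kernel) ?_
    refine jn 16435 (by decide +kernel) ?_
    refine jn 16516 (by decide +kernel) ?_
    refine jn 16589 (by decide +kernel) ?_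
    refine jn 16654 (by decide +kernel) ?_
    refine jn 16720 (by decide +kernel) ?_
    refine jn 16771 (by decide +kernel) ?_
    refine jn 16824 (by decide +kernel) ?_
    refine jn 16879 (by decide +kernel) ?_
    refine jn 16927 (by decide +kernel) ?_
    refine jn 16978 (by decide +kernel) ?_
    refine jn 17030 (by decide +kernel) ?_
    refine jn 17072 (by decide +kernel) ?_
    refine jn 17115 (by decide +kernel) ?_
    refine jn 17156 (by decide +kernel) ?_
    refine jn 17562 (by decide +kernel) ?_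
    refine jn 17879 (by decide +kernel) ?_
    refine jn 18029 (by decide +kernel) ?_
    refine jn 18153 (by decide +kernel) ?_
    refine jn 18262 (by decide +kernel) ?_
    refine jn 18389 (by decide +kernel) ?_
    refine jn 18487 (by decide +kernel) ?_
    refine jn 18586 (by decide +kernel) ?_
    refine jn 18667 (by decide +kernel) ?_
    refine jn 18754 (by decide +kernel) ?_
    refine jn 18830 (by decide +kernel) ?_
    refine jn 18916 (by decide +kernel) ?_
    refine jn 18989 (by decide +kernel) ?_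
    refine jn 19059 (by decide +kernel) ?_
    refine jn 19138 (by decide +kernel) ?_
    refine jn 19213 (by decide +kernel) ?_
    refine jn 19813 (by decide +kernel) ?_
    refine jn 20131 (by decide +kernel) ?_
    refine jn 20318 (by decide +kernel) ?_
    refine jn 20465 (by decide +kernel) ?_
    refine jn 20591 (by decide +kernel) ?_
    refine jn 20723 (by decide +kernel) ?_
    refine jn 20851 (by decide +kernel) ?_
    refine jn 21566 (by decide +kernel) ?_
    refine jn 21919 (by decide +kernel) ?_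
    refine jn 22153 (by decide +kernel) ?_
    refine jn 22377 (by decide +kernel) ?_
    refine jn 22485 (by decide +kernel) ?_
    exact je (by decide +kernel)

end Pool.Agent.MP_2339ce_nt.NR
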