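import Pool.Agent.MP_2339ce_nt.Q2.NC.L8
import Pool.Agent.MP_2339ce_nt.Q2.NC.L10
import Pool.Agent.MP_2339ce_nt.Q2.CkI

/-! Block NR: runs. -/

set_option autoImplicit false
set_option maxRecDepth 100000

noncomputable section

namespace Pool.Agent.MP_2339ce_nt.NR

open Q2.Top

def T61_0 : Ph :=
  (.na 780 6 (.na 311 3 (.na 310 2 (.nx 309 1321124 (.nr 308 881745 (.nx 285 660563 (.nx 3 145 (.nx
  2 144 (.nr 1 13 (.lg 0 false 1 43 43 5 0 720) (.l1 .sk)) (.l1 .sk)) (.nx 103 17696 (.nr 80 92683
  (.lg 0 false 77 97 107 16 0 720720) (.nx 102 257 (.lg 0 false 22 83 83 11 0 1584) .out)) (.nr 284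
  77937 (.nr 181 2437 (.nr 158 695 (.lg 0 true 55 89 97 16 0 7920) (.nr 169 1219 (.lg 2 true 11 89
  89 9 68433 1584) (.nx 180 524289 (.lg 2 true 11 97 97 9 30968 55440) .out))) (.nx 283 416129 (.nx
  225 32769 (.nx 203 24081 (.lg 1 false 22 101 103 11 45749 720720) (.lg 1 false 22 101 103 11
  33619 720720)) (.nr 282 55110 (.nr 259 38969 (.nr 236 4097 (.lg 2 true 11 89 97 9 12295 55440)
  (.nr 247 23172 (.lg 2 false 11 101 103 9 7378 55440) (.nx 258 262145 (.lg 2 false 11 103 107 9
  12376 720720) .out))) (.nx 281 104033 (.lg 2 true 22 101 103 11 17483 720720) .out)) .out))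
  .out)) .out))) (.nr 307 129 (.lg 0 true 22 83 89 11 0 1584) .out)) .out) .out) .ne) (.na 475 4
  (.nx 474 6658044 (.nr 473 1482912 (.nx 313 144 (.nr 312 32 (.lg 0 true 1 31 31 5 0 144) (.l1
  .sk)) (.nx 314 145 (.l1 .sk) (.nr 458 131073 (.nx 422 1048577 (.nx 336 18819 (.lg 0 false 22 89
  101 16 0 7920) (.nr 358 364 (.lg 0 true 22 79 79 16 0 1584) (.nx 421 262145 (.nx 402 104033 (.nx
  369 27236 (.lg 1 false 11 89 97 7 72294 7920) (.nx 391 57052 (.nx 380 39420 (.lg 1 false 11 89 97
  7 49952 7920) (.lg 1 false 11 89 97 7 34513 7920)) (.lg 1 true 11 97 101 7 23847 7920))) (.nr 420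
  65537 (.nr 409 2904 (.lg 2 true 7 83 83 7 51853 5040) (.lg 2 false 11 89 97 7 6546 7920)) .out))
  .out))) (.nr 457 33 (.lg 0 true 35 73 73 7 0 5040) .out)) (.nx 472 257 (.lg 0 false 14 73 73 13 0
  1008) .out)))) .out) .out) (.na 643 5 (.nx 642 13316087 (.nr 641 1246976 (.nx 478 145 (.nx 477
  144 (.nr 476 41 (.lg 0 true 1 31 31 9 0 144) (.l1 .sk)) (.l1 .sk)) (.nx 508 19141 (.nr 492 110219
  (.lg 0 false 14 97 101 13 0 5040) (.nx 507 1627 (.nr 499 155873 (.lg 0 false 7 83 89 11 0 5040)
  (.nx 506 257 (.lg 0 false 7 79 79 11 0 1008) .out)) .out)) (.nr 640 131073 (.nx 578 416129 (.nr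
  526 5810 (.nr 519 729 (.lg 0 true 11 83 83 13 0 1584) (.lg 2 true 7 89 97 11 41100 5040)) (.nx
  570 131073 (.nx 548 52015 (.nx 534 26007 (.nr 533 110219 (.lg 1 false 7 97 101 11 59782 5040)
  .out) (.nx 541 36779 (.lg 1 false 7 97 101 11 52313 5040) (.lg 1 false 7 101 103 11 36991
  720720))) (.nx 562 104033 (.nx 555 73561 (.lg 1 false 7 101 103 11 26156 720720) (.lg 1 true 7
  101 103 11 18495 720720)) (.nr 569 92683 (.lg 1 true 7 89 97 11 9252 5040) .out))) (.nr 577 55110
  (.lg 2 false 7 89 97 11 5157 5040) .out))) (.nr 639 183 (.nx 589 1664512 (.lg 0 true 11 83 83 13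
  0 1584) (.nr 638 21 (.nx 617 9415896 (.lg 0 true 28 79 79 11 0 1008) (.lg 0 true 21 73 73 11 0
  1008)) .out)) .out)) .out))) .out) .out) (.nx 779 13316087 (.nr 778 1482912 (.nx 646 145 (.nx 645
  144 (.nr 644 50 (.lg 0 true 1 31 31 9 0 720) (.l1 .sk)) (.l1 .sk)) (.nx 677 20642 (.nr 657 92683
  (.lg 0 false 11 97 97 16 0 7920) (.nx 676 6503 (.nr 664 110219 (.lg 0 false 7 79 89 16 0 5040)
  (.nx 675 257 (.lg 0 false 11 79 79 16 0 7920) .out)) .out)) (.nr 777 155873 (.nx 736 660563 (.nr
  688 956 (.lg 0 true 11 89 89 16 0 7920) (.nr 697 8843 (.nr 695 4213 (.lg 2 true 7 83 89 16 49750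
  5040) (.lg 2 false 2 83 83 11 11289 720)) (.nx 709 41285 (.nr 708 131073 (.lg 1 false 11 97 103
  16 65909 55440) .out) (.nx 720 82572 (.lg 1 true 11 97 103 16 39182 55440) (.nr 735 131073 (.nx
  727 131073 (.lg 1 true 7 89 101 16 16477 5040) (.nr 734 46342 (.lg 2 false 7 83 89 16 5379 5040)
  .out)) .out))))) (.nr 776 217 (.nx 747 1664512 (.lg 0 true 11 79 83 16 0 7920) (.nr 775 24 (.lg 0
  true 28 79 79 16 0 5040) .out)) .out)) .out))) .out) .out)))) (.na 876 9 (.na 781 8 .ne (.nx 875
  13316087 (.nr 874 623489 (.nx 784 145 (.nx 783 144 (.nr 782 76 (.lg 0 true 1 29 29 9 0 720) (.l1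
  .sk)) (.l1 .sk)) (.nx 809 26007 (.nr 795 110219 (.lg 0 false 11 97 101 13 0 55440) (.nx 808 2582
  (.nx 806 1627 (.lg 0 false 11 83 89 13 0 7920) (.nr 807 131073 (.lg 0 true 1 79 79 9 0 720)
  .out)) .out)) (.nr 873 131073 (.nx 846 1664512 (.nr 820 727 (.lg 0 true 11 83 83 13 0 1584) (.nx
  845 660563 (.nx 831 56180 (.lg 1 false 11 89 101 13 52313 55440) (.nr 834 2905 (.lg 2 true 3 83
  83 11 65421 144) (.lg 2 false 11 97 103 13 24217 55440))) .out)) (.nr 872 55 (.lg 0 true 26 79 79
  13 0 1872) .out)) .out))) .out) .out)) (.na 962 10 (.nx 961 13316087 (.nr 960 623489 (.nx 933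
  1664512 (.nx 927 832257 (.nx 879 145 (.nx 878 144 (.nr 877 85 (.lg 0 true 1 31 31 13 0 144) (.l1
  .sk)) (.l1 .sk)) (.nx 896 20642 (.nr 886 110219 (.lg 0 false 7 97 97 16 0 5040) (.nx 895 2582
  (.nx 893 1627 (.lg 0 false 7 89 97 16 0 5040) (.nr 894 131073 (.lg 0 true 1 79 79 13 0 720)
  .out)) .out)) (.nr 926 131073 (.nr 903 745 (.lg 0 true 7 83 83 16 0 1008) (.nx 925 524289 (.nx
  910 46340 (.lg 1 false 7 101 107 16 65909 720720) (.nr 912 3129 (.lg 2 true 2 83 83 16 50670 144)
  (.nr 917 55110 (.lg 2 false 5 83 97 16 12363 720) (.nx 924 165142 (.lg 2 false 7 101 107 16 29359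
  720720) .out)))) .out)) .out))) (.nr 932 129 (.lg 0 true 5 73 73 16 0 720) .out)) (.nr 959 65
  (.lg 0 true 26 79 83 16 0 1872) .out)) .out) .out) (.na 963 12 .ne (.nx 1033 1664512 (.nr 1032
  623489 (.nr 964 1 .s1 (.nx 1026 524289 (.nx 966 144 (.nr 965 110 (.lg 0 true 1 29 29 13 0 720)
  (.l1 .sk)) (.nx 967 145 (.l1 .sk) (.nr 1018 155873 (.nx 974 13003 (.lg 0 false 7 89 89 19 0 5040)
  (.nr 1017 110219 (.nr 993 46342 (.nr 981 829 (.lg 0 true 7 79 79 19 0 1008) (.nx 992 416129 (.lg
  2 true 11 73 73 23 37068 1584) .out)) (.nx 1016 208065 (.nx 1008 131073 (.nr 1000 77937 (.lg 0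
  true 7 97 101 19 0 65520) (.nx 1007 82572 (.lg 0 true 7 97 101 19 0 65520) .out)) (.nr 1015 55110
  (.lg 0 true 7 83 89 19 0 5040) .out)) .out)) .out)) (.nx 1025 1292 (.lg 0 false 7 79 83 19 0
  5040) .out)))) (.nr 1031 65 (.lg 0 true 5 67 67 17 0 720) .out))) .out) .out)))))

def T61_1 : Ph :=
  (.na 1072 27 (.na 739 10 (.na 548 6 (.na 340 4 (.nx 339 6658044 (.nr 338 1482912 (.nx 2 249 (.nr
  1 42 (.lg 0 true 1 37 37 5 0 29880) (.l1 .sk)) (.nx 3 250 (.l1 .sk) (.nr 324 311745 (.nx 288
  1664512 (.nx 94 60679 (.lg 0 false 91 101 109 16 0 59819760) (.nr 136 2898 (.nr 122 668 (.lg 0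
  true 28 79 89 16 0 83664) (.nx 135 832257 (.lg 2 true 13 89 97 13 155114 388440) .out)) (.nx 287
  660563 (.nx 193 104031 (.nx 164 82572 (.lg 1 false 28 101 107 16 159397 4601520) (.nr 192 220437
  (.lg 1 false 28 97 103 16 82854 4601520) .out)) (.nr 286 262145 (.nr 200 10626 (.lg 2 true 7 97
  97 7 28379 209160) (.nx 257 262145 (.nx 228 165142 (.lg 1 false 28 101 107 16 78192 4601520) (.nr
  256 220437 (.lg 1 true 28 101 107 16 41428 4601520) .out)) (.nr 285 110219 (.lg 2 false 28 97 103
  16 13064 4601520) .out))) .out)) .out))) (.nr 323 33 (.lg 0 true 35 71 71 7 0 209160) .out)) (.nx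
  337 408 (.lg 0 false 13 73 73 13 0 77688) .out)))) .out) .out) (.na 341 5 .ne (.nx 547 21137969
  (.nr 546 1482912 (.nx 484 660563 (.nx 344 250 (.nx 343 249 (.nr 342 66 (.lg 0 true 1 37 37 9 0
  29880) (.l1 .sk)) (.l1 .sk)) (.nx 380 65536 (.nr 372 220437 (.lg 0 false 28 103 109 16 0
  59819760) (.nx 379 408 (.lg 0 false 7 79 79 16 0 69720) .out)) (.nr 483 311745 (.nr 398 3171 (.nr
  391 829 (.lg 0 true 11 79 89 16 0 109560) (.lg 2 true 7 79 97 16 99204 209160)) (.nx 474 330282
  (.nx 466 262145 (.nx 438 152899 (.nx 410 82570 (.nr 409 262145 (.lg 1 false 11 103 109 16 124122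
  59819760) .out) (.lg 1 false 28 103 109 16 117138 59819760)) (.lg 1 true 28 101 109 16 63258
  59819760)) (.nr 473 131073 (.lg 1 true 7 103 107 16 15530 59819760) .out)) (.nr 482 46342 (.nr
  478 12122 (.lg 2 true 4 97 101 13 25936 59760) (.lg 2 false 4 97 101 13 6785 59760)) .out)))
  .out))) (.nr 545 217 (.nx 495 2642247 (.lg 0 true 11 79 79 16 0 109560) (.nr 544 24 (.nx 508
  5284493 (.lg 0 true 13 71 71 16 0 129480) (.lg 0 true 36 79 79 16 0 59760)) .out)) .out)) .out)
  .out))) (.na 737 7 (.nx 736 21137969 (.nr 735 1048577 (.nx 578 52015 (.nx 550 249 (.nr 549 77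
  (.lg 0 false 1 37 37 7 0 59760) (.l1 .sk)) (.nx 551 250 (.l1 .sk) (.nr 564 220437 (.lg 0 false 13
  107 109 13 0 59819760) (.nx 577 814 (.lg 0 false 13 79 79 13 0 155376) .out)))) (.nr 734 311745
  (.nr 645 941 (.nx 591 1321124 (.lg 0 true 13 89 89 13 0 155376) (.nr 644 154 (.nr 630 46 (.lg 0
  true 39 73 73 13 0 155376) (.nx 643 2642247 (.lg 0 true 13 71 71 13 0 155376) .out)) .out)) (.nx
  733 832257 (.nr 652 6606 (.lg 2 true 7 97 97 13 110113 418320) (.nx 666 82570 (.nr 665 262145
  (.lg 1 false 13 103 107 13 156387 59819760) .out) (.nx 692 152899 (.nx 679 112360 (.lg 1 false 13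
  103 107 13 117138 59819760) (.lg 1 false 13 103 107 13 86081 59819760)) (.nx 719 262145 (.nx 705
  208065 (.lg 1 false 13 103 107 13 63258 59819760) (.nr 718 262145 (.lg 1 true 13 101 107 13 39096
  59819760) .out)) (.nr 732 131073 (.lg 2 false 13 101 103 13 15686 5438160) .out))))) .out))
  .out)) .out) .out) (.na 738 9 .ne (.lg 0 false 1 0 0 7 0 24)))) (.na 926 18 (.na 836 11 (.nx 835
  2642247 (.nr 834 1246976 (.nx 742 250 (.nx 741 249 (.nr 740 122 (.lg 0 true 1 31 31 11 0 19920)
  (.l1 .sk)) (.l1 .sk)) (.nx 745 408 (.nx 743 324 (.l1 (.ls 89 43 4250)) (.nr 744 1048577 (.l1 (.ls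
  89 47 6151)) .out)) (.nr 833 741457 (.nx 766 46340 (.nr 758 262145 (.lg 0 false 13 101 107 19 0
  8545680) (.nx 765 1292 (.lg 0 false 7 79 79 13 0 139440) .out)) (.nr 832 311745 (.nx 824 1321124
  (.nr 780 9049 (.nr 773 1050 (.lg 0 true 7 89 89 13 0 139440) (.lg 2 true 7 97 101 13 156648
  4601520)) (.nx 788 65536 (.nr 787 262145 (.lg 1 false 7 101 103 13 175539 4601520) .out) (.nx 795
  92681 (.lg 1 false 7 101 103 13 147584 4601520) (.nx 802 131072 (.lg 1 false 7 101 103 13 104359
  4601520) (.nx 809 185364 (.lg 1 false 7 101 103 13 73792 4601520) (.nx 816 262145 (.lg 1 true 7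
  101 103 13 52179 4601520) (.nr 823 185365 (.lg 2 false 7 101 107 13 21951 4601520) .out)))))))
  (.nr 831 65 (.lg 0 true 7 71 71 13 0 139440) .out)) .out)) .out))) .out) .out) (.na 925 12 (.nx
  924 2642247 (.nr 923 1246976 (.nx 915 1321124 (.nx 864 65536 (.nx 838 249 (.nr 837 134 (.lg 0
  true 1 31 31 9 0 328680) (.l1 .sk)) (.nx 839 250 (.l1 .sk) (.nx 840 324 (.l1 (.ls 89 37 3864))
  (.nr 863 1048577 (.nx 841 408 (.l1 (.ls 89 41 5592)) (.nr 862 741457 (.nr 854 262145 (.lg 0 false
  13 103 107 16 0 8545680) (.nx 861 1292 (.lg 0 false 7 79 79 16 0 153384) .out)) .out)) .out))))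
  (.nr 914 311745 (.nr 878 9336 (.nr 871 1118 (.lg 0 true 7 89 89 16 0 153384) (.lg 2 true 7 97 101
  16 147120 4601520)) (.nx 885 92681 (.lg 1 false 7 101 103 16 147584 4601520) (.nx 892 131072 (.lg
  1 false 7 101 103 16 104359 4601520) (.nx 906 262145 (.nx 899 185364 (.lg 1 false 7 101 103 16
  73792 4601520) (.lg 1 true 7 101 103 16 52179 4601520)) (.nr 913 185365 (.lg 2 false 7 101 103 16
  21951 4601520) .out))))) .out)) (.nr 922 65 (.lg 0 true 7 67 67 16 0 153384) .out)) .out) .out)
  .ne)) (.na 984 22 (.na 927 19 (.lg 0 false 1 0 0 7 0 24) (.nx 983 2642247 (.nr 982 1246976 (.nr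
  928 11 .s1 (.nx 932 408 (.nx 930 249 (.nr 929 246 (.lg 0 false 1 29 29 11 0 29880) (.l1 .sk))
  (.nx 931 250 (.l1 .sk) (.l1 (.ls 79 41 5474)))) (.nr 981 741457 (.nr 976 311745 (.nr 971 220437
  (.nx 963 660563 (.nx 945 110303 (.lg 0 false 13 103 109 16 0 59819760) (.nr 949 1726 (.lg 0 true
  4 79 79 16 0 3984) (.nx 962 524289 (.lg 2 false 13 103 109 16 62024 59819760) .out))) (.nr 970
  129 (.lg 0 true 7 67 67 16 0 13944) .out)) (.nx 975 13005 (.lg 0 false 4 89 97 16 0 59760) .out))
  (.nx 980 1627 (.lg 0 false 4 73 73 16 0 3984) .out)) .out))) .out) .out)) (.na 1030 23 (.nx 1029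
  2642247 (.nr 1028 1246976 (.nr 985 16 .s1 (.nx 988 250 (.nx 987 249 (.nr 986 257 (.lg 0 false 1
  31 31 9 0 657360) (.l1 .sk)) (.l1 .sk)) (.nx 989 408 (.l1 (.ls 89 47 4728)) (.nr 1027 741457 (.nr
  1017 220437 (.nx 996 58476 (.lg 0 false 7 101 103 19 0 4601520) (.nr 1003 666 (.lg 0 true 7 79 79
  19 0 306768) (.nx 1016 524289 (.lg 2 false 13 101 109 23 116996 59819760) .out))) (.nx 1026 13005
  (.nr 1020 311745 (.lg 0 false 3 97 97 13 0 657360) (.nx 1025 1627 (.lg 0 false 5 79 79 19 0
  219120) .out)) .out)) .out)))) .out) .out) (.nx 1071 2642247 (.nr 1070 1048577 (.nr 1031 17 .s1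
  (.nx 1034 250 (.nx 1033 249 (.nr 1032 302 (.lg 0 true 1 29 29 11 0 328680) (.l1 .sk)) (.l1 .sk))
  (.nx 1035 408 (.l1 (.ls 79 37 4523)) (.nr 1069 741457 (.nx 1063 660563 (.nx 1050 82572 (.nr 1042
  185365 (.lg 0 false 7 101 103 16 0 2300760) (.nx 1049 16385 (.lg 0 false 7 101 103 16 0 2300760)
  .out)) (.nr 1062 131073 (.nr 1054 1922 (.lg 0 true 4 79 79 16 0 3984) (.nx 1061 524289 (.lg 2
  false 7 97 103 16 49304 2300760) .out)) .out)) (.nr 1068 129 (.lg 0 true 5 67 67 16 0 9960)
  .out)) .out)))) .out) .out))))) (.na 1236 45 (.na 1113 33 (.na 1073 30 (.lg 0 false 1 0 0 7 0 24)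
  (.na 1112 32 (.nx 1111 2642247 (.nr 1110 1048577 (.nr 1074 26 .s1 (.nx 1076 249 (.nr 1075 358
  (.lg 0 false 1 23 23 19 0 59760) (.l1 .sk)) (.nx 1077 250 (.l1 .sk) (.nx 1078 408 (.l1 (.ls 79 47
  3468)) (.nr 1109 741457 (.nr 1101 185365 (.nx 1085 82572 (.lg 0 false 7 97 101 29 0 418320) (.nr
  1100 131073 (.nr 1092 1050 (.lg 0 true 7 79 79 29 0 418320) (.nx 1099 524289 (.lg 2 false 7 89
  101 29 62166 418320) .out)) .out)) (.nx 1108 16385 (.lg 0 false 7 97 101 29 0 418320) .out))
  .out))))) .out) .out) .ne)) (.na 1173 38 (.na 1145 37 (.nx 1144 2642247 (.nr 1143 881745 (.nr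
  1114 29 .s1 (.nx 1137 262145 (.nx 1116 249 (.nr 1115 413 (.lg 0 false 1 23 23 16 0 328680) (.l1
  .sk)) (.nx 1117 250 (.l1 .sk) (.nx 1118 408 (.l1 (.ls 73 41 3153)) (.nr 1136 623489 (.nx 1130
  65537 (.nr 1125 185365 (.lg 0 false 7 89 97 19 0 2300760) (.nx 1129 16385 (.lg 0 false 4 97 97 17
  0 657360) .out)) (.nr 1135 77937 (.nr 1131 1137 (.lg 0 false 1 73 73 16 0 328680) (.lg 2 false 4
  89 89 17 36985 657360)) .out)) .out)))) (.nr 1142 257 (.lg 0 true 5 67 67 19 0 328680) .out)))
  .out) .out) (.nx 1172 2642247 (.nr 1171 881745 (.nr 1146 34 .s1 (.nx 1160 65537 (.nx 1148 249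
  (.nr 1147 425 (.lg 0 false 1 23 23 16 0 29880) (.l1 .sk)) (.nx 1149 250 (.l1 .sk) (.nx 1150 408
  (.l1 (.ls 73 31 2812)) (.nr 1159 623489 (.nr 1154 185365 (.lg 0 false 4 101 101 16 0 59760) (.nx
  1158 16385 (.lg 0 false 4 97 97 16 0 59760) .out)) .out)))) (.nr 1170 77937 (.nx 1165 262145 (.nr
  1161 1164 (.lg 0 false 1 73 73 16 0 29880) (.lg 2 false 4 89 89 16 36985 59760)) (.nr 1169 257
  (.lg 0 true 4 67 67 16 0 3984) .out)) .out))) .out) .out)) (.na 1206 43 (.nx 1205 2642247 (.nr
  1204 881745 (.nr 1174 35 .s1 (.nx 1178 408 (.nx 1176 249 (.nr 1175 481 (.lg 0 false 1 29 29 13 0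
  59760) (.l1 .sk)) (.nx 1177 250 (.l1 .sk) (.l1 (.ls 73 43 2738)))) (.nr 1203 623489 (.nx 1197
  262145 (.nx 1193 82572 (.nr 1185 185365 (.lg 0 false 7 97 101 17 0 418320) (.nx 1192 16385 (.lg 0
  false 7 97 97 17 0 418320) .out)) (.nr 1196 65537 (.nr 1194 1285 (.lg 0 false 1 73 73 13 0 3984)
  (.lg 2 false 2 89 89 13 25399 59760)) .out)) (.nr 1202 257 (.lg 0 true 5 67 67 17 0 19920) .out))
  .out))) .out) .out) (.nx 1235 2642247 (.nr 1234 881745 (.nr 1207 41 .s1 (.nx 1211 408 (.nx 1209
  249 (.nr 1208 503 (.l1 (.ls 19 29 1444)) (.l1 .sk)) (.nx 1210 250 (.l1 .sk) (.l1 (.ls 73 31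
  2420)))) (.nr 1233 623489 (.nr 1228 185365 (.nx 1223 262145 (.nx 1218 82572 (.lg 0 false 7 89 89
  16 0 13944) (.nr 1222 65537 (.lg 0 false 4 89 89 16 0 3984) .out)) (.nr 1227 257 (.lg 0 true 4 67
  67 16 0 3984) .out)) (.nx 1232 16385 (.lg 0 false 4 97 97 16 0 3984) .out)) .out))) .out)
  .out)))) (.na 1283 53 (.na 1237 46 (.lg 0 false 1 0 0 16 0 24) (.na 1261 50 (.nx 1260 2642247
  (.nr 1259 881745 (.nr 1238 44 .s1 (.nx 1241 250 (.nx 1240 249 (.nr 1239 559 (.lg 0 false 1 23 23
  13 0 59760) (.l1 .sk)) (.l1 .sk)) (.nx 1248 41287 (.lg 0 false 7 101 103 19 0 418320) (.nr 1258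
  77937 (.nr 1255 559 (.lg 0 true 7 71 71 19 0 27888) (.nx 1257 262145 (.lg 2 true 2 97 97 13 58707
  59760) .out)) .out)))) .out) .out) (.nx 1282 2642247 (.nr 1281 881745 (.nr 1262 48 .s1 (.nx 1272
  32769 (.nx 1264 249 (.nr 1263 592 (.lg 0 true 1 23 23 13 0 59760) (.l1 .sk)) (.nx 1265 250 (.l1
  .sk) (.lg 0 false 7 97 101 23 0 418320))) (.nr 1280 92683 (.nr 1276 592 (.lg 0 true 4 71 71 23 0
  19920) (.nx 1279 262145 (.lg 2 false 3 97 97 19 87918 418320) .out)) .out))) .out) .out))) (.na
  1307 55 (.na 1306 54 (.nx 1305 2642247 (.nr 1304 881745 (.nr 1284 51 .s1 (.nx 1294 32769 (.nx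
  1286 249 (.nr 1285 603 (.lg 0 false 1 23 23 16 0 657360) (.l1 .sk)) (.nx 1287 250 (.l1 .sk) (.lg
  0 false 7 97 101 16 0 209160))) (.nr 1303 92683 (.nr 1298 603 (.lg 0 true 4 71 71 16 0 3984) (.nx
  1302 262145 (.lg 2 false 4 97 97 16 87918 59760) .out)) .out))) .out) .out) (.lg 0 false 1 0 0 16
  0 24)) (.na 1329 59 (.nx 1328 2642247 (.nr 1327 881745 (.nr 1308 53 .s1 (.nx 1323 262145 (.nx
  1320 52017 (.nx 1310 249 (.nr 1309 659 (.l1 (.ls 29 31 1130)) (.l1 .sk)) (.nx 1311 250 (.l1 .sk)
  (.nr 1315 220437 (.lg 0 false 4 97 103 19 0 4601520) (.nx 1319 20644 (.lg 0 false 4 97 103 19 0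
  4601520) .out)))) (.nr 1322 65537 (.nr 1321 1749 (.lg 0 true 1 71 71 17 0 109560) (.lg 2 true 1
  97 97 17 39207 2300760)) .out)) (.nr 1326 257 (.lg 0 true 3 67 71 19 0 328680) .out))) .out)
  .out) (.nx 1351 2642247 (.nr 1350 881745 (.nr 1330 57 .s1 (.nx 1333 250 (.nx 1332 249 (.nr 1331
  682 (.lg 0 false 1 23 23 16 0 657360) (.l1 .sk)) (.l1 .sk)) (.nx 1340 32769 (.lg 0 false 7 97 97
  17 0 209160) (.nr 1349 92683 (.nr 1344 682 (.lg 0 true 4 67 67 16 0 3984) (.nx 1348 262145 (.lg 2
  false 4 89 97 16 87918 59760) .out)) .out)))) .out) .out))))))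

theorem c61 :
    OkQ ckI L8 144 1 13 0 34359738368 1 1099511627776 ∧
    OkQ ckI L10 249 3 61 0 34359738368 1 1099511627776 := by
  refine ⟨?_, ?_⟩
  · refine fin 144 1034 T61_0 ?_
    refine jn 8 (by decide +kernel) ?_
    refine jn 13 (by decide +kernel) ?_
    refine jn 17 (by decide +kernel) ?_
    refine jn 22 (by decide +kernel) ?_
    refine jn 27 (by decide +kernel) ?_
    refine jn 32 (by decide +kernel) ?_
    refine jn 37 (by decide +kernel) ?_
    refine jn 42 (by decide +kernel) ?_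
    refine jn 47 (by decide +kernel) ?_
    refine jn 52 (by decide +kernel) ?_
    refine jn 57 (by decide +kernel) ?_
    refine jn 62 (by decide +kernel) ?_
    refine jn 67 (by decide +kernel) ?_
    refine jn 72 (by decide +kernel) ?_
    refine jn 77 (by decide +kernel) ?_
    refine jn 102 (by decide +kernel) ?_
    refine jn 110 (by decide +kernel) ?_
    refine jn 116 (by decide +kernel) ?_
    refine jn 124 (by decide +kernel) ?_
    refine jn 130 (by decide +kernel) ?_
    refine jn 137 (by decide +kernel) ?_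
    refine jn 145 (by decide +kernel) ?_
    refine jn 152 (by decide +kernel) ?_
    refine jn 158 (by decide +kernel) ?_
    refine jn 169 (by decide +kernel) ?_
    refine jn 181 (by decide +kernel) ?_
    refine jn 203 (by decide +kernel) ?_
    refine jn 225 (by decide +kernel) ?_
    refine jn 247 (by decide +kernel) ?_
    refine jn 259 (by decide +kernel) ?_
    refine jn 281 (by decide +kernel) ?_
    refine jn 305 (by decide +kernel) ?_
    refine jn 314 (by decide +kernel) ?_
    refine jn 320 (by decide +kernel) ?_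
    refine jn 326 (by decide +kernel) ?_
    refine jn 332 (by decide +kernel) ?_
    refine jn 336 (by decide +kernel) ?_
    refine jn 345 (by decide +kernel) ?_
    refine jn 355 (by decide +kernel) ?_
    refine jn 369 (by decide +kernel) ?_
    refine jn 391 (by decide +kernel) ?_
    refine jn 409 (by decide +kernel) ?_
    refine jn 457 (by decide +kernel) ?_
    refine jn 476 (by decide +kernel) ?_
    refine jn 478 (by decide +kernel) ?_
    refine jn 479 (by decide +kernel) ?_
    refine jn 480 (by decide +kernel) ?_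
    refine jn 481 (by decide +kernel) ?_
    refine jn 482 (by decide +kernel) ?_
    refine jn 483 (by decide +kernel) ?_
    refine jn 484 (by decide +kernel) ?_
    refine jn 485 (by decide +kernel) ?_
    refine jn 486 (by decide +kernel) ?_
    refine jn 487 (by decide +kernel) ?_
    refine jn 488 (by decide +kernel) ?_
    refine jn 489 (by decide +kernel) ?_
    refine jn 490 (by decide +kernel) ?_
    refine jn 491 (by decide +kernel) ?_
    refine jn 492 (by decide +kernel) ?_
    refine jn 506 (by decide +kernel) ?_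
    refine jn 510 (by decide +kernel) ?_
    refine jn 512 (by decide +kernel) ?_
    refine jn 514 (by decide +kernel) ?_
    refine jn 516 (by decide +kernel) ?_
    refine jn 518 (by decide +kernel) ?_
    refine jn 519 (by decide +kernel) ?_
    refine jn 526 (by decide +kernel) ?_
    refine jn 541 (by decide +kernel) ?_
    refine jn 548 (by decide +kernel) ?_
    refine jn 555 (by decide +kernel) ?_
    refine jn 562 (by decide +kernel) ?_
    refine jn 570 (by decide +kernel) ?_
    refine jn 577 (by decide +kernel) ?_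
    refine jn 584 (by decide +kernel) ?_
    refine jn 589 (by decide +kernel) ?_
    refine jn 617 (by decide +kernel) ?_
    refine jn 638 (by decide +kernel) ?_
    refine jn 646 (by decide +kernel) ?_
    refine jn 647 (by decide +kernel) ?_
    refine jn 648 (by decide +kernel) ?_
    refine jn 650 (by decide +kernel) ?_
    refine jn 651 (by decide +kernel) ?_
    refine jn 652 (by decide +kernel) ?_
    refine jn 653 (by decide +kernel) ?_
    refine jn 655 (by decide +kernel) ?_
    refine jn 656 (by decide +kernel) ?_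
    refine jn 657 (by decide +kernel) ?_
    refine jn 675 (by decide +kernel) ?_
    refine jn 679 (by decide +kernel) ?_
    refine jn 681 (by decide +kernel) ?_
    refine jn 684 (by decide +kernel) ?_
    refine jn 687 (by decide +kernel) ?_
    refine jn 688 (by decide +kernel) ?_
    refine jn 695 (by decide +kernel) ?_
    refine jn 697 (by decide +kernel) ?_
    refine jn 708 (by decide +kernel) ?_
    refine jn 720 (by decide +kernel) ?_
    refine jn 727 (by decide +kernel) ?_
    refine jn 734 (by decide +kernel) ?_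
    refine jn 745 (by decide +kernel) ?_
    refine jn 775 (by decide +kernel) ?_
    refine jn 785 (by decide +kernel) ?_
    refine jn 788 (by decide +kernel) ?_
    refine jn 790 (by decide +kernel) ?_
    refine jn 792 (by decide +kernel) ?_
    refine jn 794 (by decide +kernel) ?_
    refine jn 795 (by decide +kernel) ?_
    refine jn 807 (by decide +kernel) ?_
    refine jn 813 (by decide +kernel) ?_
    refine jn 817 (by decide +kernel) ?_
    refine jn 820 (by decide +kernel) ?_
    refine jn 831 (by decide +kernel) ?_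
    refine jn 834 (by decide +kernel) ?_
    refine jn 845 (by decide +kernel) ?_
    refine jn 872 (by decide +kernel) ?_
    refine jn 879 (by decide +kernel) ?_
    refine jn 880 (by decide +kernel) ?_
    refine jn 881 (by decide +kernel) ?_
    refine jn 882 (by decide +kernel) ?_
    refine jn 883 (by decide +kernel) ?_
    refine jn 884 (by decide +kernel) ?_
    refine jn 885 (by decide +kernel) ?_
    refine jn 886 (by decide +kernel) ?_
    refine jn 893 (by decide +kernel) ?_
    refine jn 896 (by decide +kernel) ?_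
    refine jn 897 (by decide +kernel) ?_
    refine jn 898 (by decide +kernel) ?_
    refine jn 899 (by decide +kernel) ?_
    refine jn 900 (by decide +kernel) ?_
    refine jn 901 (by decide +kernel) ?_
    refine jn 902 (by decide +kernel) ?_
    refine jn 903 (by decide +kernel) ?_
    refine jn 910 (by decide +kernel) ?_
    refine jn 912 (by decide +kernel) ?_
    refine jn 917 (by decide +kernel) ?_
    refine jn 924 (by decide +kernel) ?_
    refine jn 931 (by decide +kernel) ?_
    refine jn 933 (by decide +kernel) ?_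
    refine jn 938 (by decide +kernel) ?_
    refine jn 959 (by decide +kernel) ?_
    refine jn 968 (by decide +kernel) ?_
    refine jn 969 (by decide +kernel) ?_
    refine jn 971 (by decide +kernel) ?_
    refine jn 972 (by decide +kernel) ?_
    refine jn 973 (by decide +kernel) ?_
    refine jn 974 (by decide +kernel) ?_
    refine jn 977 (by decide +kernel) ?_
    refine jn 981 (by decide +kernel) ?_
    refine jn 982 (by decide +kernel) ?_
    refine jn 983 (by decide +kernel) ?_
    refine jn 984 (by decide +kernel) ?_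
    refine jn 985 (by decide +kernel) ?_
    refine jn 986 (by decide +kernel) ?_
    refine jn 987 (by decide +kernel) ?_
    refine jn 988 (by decide +kernel) ?_
    refine jn 989 (by decide +kernel) ?_
    refine jn 990 (by decide +kernel) ?_
    refine jn 991 (by decide +kernel) ?_
    refine jn 992 (by decide +kernel) ?_
    refine jn 1007 (by decide +kernel) ?_
    refine jn 1025 (by decide +kernel) ?_
    refine jn 1031 (by decide +kernel) ?_
    exact je (by decide +kernel)
  · refine fin 1992 1352 T61_1 ?_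
    refine jn 14 (by decide +kernel) ?_
    refine jn 25 (by decide +kernel) ?_
    refine jn 37 (by decide +kernel) ?_
    refine jn 46 (by decide +kernel) ?_
    refine jn 59 (by decide +kernel) ?_
    refine jn 69 (by decide +kernel) ?_
    refine jn 80 (by decide +kernel) ?_
    refine jn 93 (by decide +kernel) ?_
    refine jn 104 (by decide +kernel) ?_
    refine jn 119 (by decide +kernel) ?_
    refine jn 135 (by decide +kernel) ?_
    refine jn 164 (by decide +kernel) ?_
    refine jn 192 (by decide +kernel) ?_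
    refine jn 220 (by decide +kernel) ?_
    refine jn 228 (by decide +kernel) ?_
    refine jn 256 (by decide +kernel) ?_
    refine jn 285 (by decide +kernel) ?_
    refine jn 323 (by decide +kernel) ?_
    refine jn 344 (by decide +kernel) ?_
    refine jn 346 (by decide +kernel) ?_
    refine jn 349 (by decide +kernel) ?_
    refine jn 351 (by decide +kernel) ?_
    refine jn 353 (by decide +kernel) ?_
    refine jn 356 (by decide +kernel) ?_
    refine jn 358 (by decide +kernel) ?_
    refine jn 360 (by decide +kernel) ?_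
    refine jn 363 (by decide +kernel) ?_
    refine jn 365 (by decide +kernel) ?_
    refine jn 367 (by decide +kernel) ?_
    refine jn 370 (by decide +kernel) ?_
    refine jn 379 (by decide +kernel) ?_
    refine jn 384 (by decide +kernel) ?_
    refine jn 387 (by decide +kernel) ?_
    refine jn 391 (by decide +kernel) ?_
    refine jn 398 (by decide +kernel) ?_
    refine jn 408 (by decide +kernel) ?_
    refine jn 410 (by decide +kernel) ?_
    refine jn 418 (by decide +kernel) ?_
    refine jn 427 (by decide +kernel) ?_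
    refine jn 436 (by decide +kernel) ?_
    refine jn 438 (by decide +kernel) ?_
    refine jn 447 (by decide +kernel) ?_
    refine jn 455 (by decide +kernel) ?_
    refine jn 464 (by decide +kernel) ?_
    refine jn 473 (by decide +kernel) ?_
    refine jn 482 (by decide +kernel) ?_
    refine jn 492 (by decide +kernel) ?_
    refine jn 508 (by decide +kernel) ?_
    refine jn 544 (by decide +kernel) ?_
    refine jn 561 (by decide +kernel) ?_
    refine jn 577 (by decide +kernel) ?_
    refine jn 630 (by decide +kernel) ?_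
    refine jn 652 (by decide +kernel) ?_
    refine jn 679 (by decide +kernel) ?_
    refine jn 705 (by decide +kernel) ?_
    refine jn 732 (by decide +kernel) ?_
    refine jn 744 (by decide +kernel) ?_
    refine jn 749 (by decide +kernel) ?_
    refine jn 752 (by decide +kernel) ?_
    refine jn 756 (by decide +kernel) ?_
    refine jn 758 (by decide +kernel) ?_
    refine jn 769 (by decide +kernel) ?_
    refine jn 773 (by decide +kernel) ?_
    refine jn 780 (by decide +kernel) ?_
    refine jn 795 (by decide +kernel) ?_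
    refine jn 802 (by decide +kernel) ?_
    refine jn 809 (by decide +kernel) ?_
    refine jn 816 (by decide +kernel) ?_
    refine jn 823 (by decide +kernel) ?_
    refine jn 831 (by decide +kernel) ?_
    refine jn 841 (by decide +kernel) ?_
    refine jn 845 (by decide +kernel) ?_
    refine jn 850 (by decide +kernel) ?_
    refine jn 854 (by decide +kernel) ?_
    refine jn 867 (by decide +kernel) ?_
    refine jn 871 (by decide +kernel) ?_
    refine jn 878 (by decide +kernel) ?_
    refine jn 892 (by decide +kernel) ?_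
    refine jn 899 (by decide +kernel) ?_
    refine jn 906 (by decide +kernel) ?_
    refine jn 913 (by decide +kernel) ?_
    refine jn 929 (by decide +kernel) ?_
    refine jn 936 (by decide +kernel) ?_
    refine jn 943 (by decide +kernel) ?_
    refine jn 945 (by decide +kernel) ?_
    refine jn 949 (by decide +kernel) ?_
    refine jn 962 (by decide +kernel) ?_
    refine jn 970 (by decide +kernel) ?_
    refine jn 980 (by decide +kernel) ?_
    refine jn 992 (by decide +kernel) ?_
    refine jn 996 (by decide +kernel) ?_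
    refine jn 1003 (by decide +kernel) ?_
    refine jn 1014 (by decide +kernel) ?_
    refine jn 1020 (by decide +kernel) ?_
    refine jn 1034 (by decide +kernel) ?_
    refine jn 1039 (by decide +kernel) ?_
    refine jn 1049 (by decide +kernel) ?_
    refine jn 1054 (by decide +kernel) ?_
    refine jn 1061 (by decide +kernel) ?_
    refine jn 1077 (by decide +kernel) ?_
    refine jn 1078 (by decide +kernel) ?_
    refine jn 1085 (by decide +kernel) ?_
    refine jn 1092 (by decide +kernel) ?_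
    refine jn 1099 (by decide +kernel) ?_
    refine jn 1117 (by decide +kernel) ?_
    refine jn 1118 (by decide +kernel) ?_
    refine jn 1125 (by decide +kernel) ?_
    refine jn 1131 (by decide +kernel) ?_
    refine jn 1142 (by decide +kernel) ?_
    refine jn 1154 (by decide +kernel) ?_
    refine jn 1161 (by decide +kernel) ?_
    refine jn 1169 (by decide +kernel) ?_
    refine jn 1185 (by decide +kernel) ?_
    refine jn 1194 (by decide +kernel) ?_
    refine jn 1202 (by decide +kernel) ?_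
    refine jn 1211 (by decide +kernel) ?_
    refine jn 1212 (by decide +kernel) ?_
    refine jn 1213 (by decide +kernel) ?_
    refine jn 1214 (by decide +kernel) ?_
    refine jn 1215 (by decide +kernel) ?_
    refine jn 1216 (by decide +kernel) ?_
    refine jn 1217 (by decide +kernel) ?_
    refine jn 1218 (by decide +kernel) ?_
    refine jn 1219 (by decide +kernel) ?_
    refine jn 1220 (by decide +kernel) ?_
    refine jn 1221 (by decide +kernel) ?_
    refine jn 1222 (by decide +kernel) ?_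
    refine jn 1232 (by decide +kernel) ?_
    refine jn 1248 (by decide +kernel) ?_
    refine jn 1257 (by decide +kernel) ?_
    refine jn 1272 (by decide +kernel) ?_
    refine jn 1279 (by decide +kernel) ?_
    refine jn 1294 (by decide +kernel) ?_
    refine jn 1302 (by decide +kernel) ?_
    refine jn 1313 (by decide +kernel) ?_
    refine jn 1315 (by decide +kernel) ?_
    refine jn 1319 (by decide +kernel) ?_
    refine jn 1322 (by decide +kernel) ?_
    refine jn 1326 (by decide +kernel) ?_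
    refine jn 1340 (by decide +kernel) ?_
    refine jn 1348 (by decide +kernel) ?_
    exact je (by decide +kernel)

end Pool.Agent.MP_2339ce_nt.NR
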