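import Pool.Agent.MP_2339ce_nt.Q2.NC.L6
import Pool.Agent.MP_2339ce_nt.Q2.NC.L8
import Pool.Agent.MP_2339ce_nt.Q2.NC.L10
import Pool.Agent.MP_2339ce_nt.Q2.CkI

/-! Block NR: runs. -/

set_option autoImplicit false
set_option maxRecDepth 100000

noncomputable section

namespace Pool.Agent.MP_2339ce_nt.NR

open Q2.Top

def T62_0 : Ph :=
  (.na 1152 16 (.na 923 7 (.na 655 4 (.na 295 2 (.nx 294 1321124 (.nr 293 881745 (.nx 264 660563
  (.nx 84 13005 (.nx 3 130 (.nx 2 129 (.nr 1 12 (.lg 0 false 1 43 47 5 0 15480) (.l1 .sk)) (.l1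
  .sk)) (.nr 55 92683 (.lg 0 false 52 103 109 16 0 30990960) (.nx 83 257 (.lg 0 false 28 83 89 11 0
  14448) .out))) (.nr 263 77937 (.nr 149 1219 (.nr 136 695 (.lg 0 true 52 97 101 16 0 402480) (.lg
  2 true 13 83 89 9 61305 13416)) (.nx 262 524289 (.nx 177 24081 (.lg 1 false 28 101 107 11 49948
  2383920) (.nx 205 32769 (.lg 1 false 28 97 107 11 26975 2383920) (.nr 261 55110 (.nr 218 4097
  (.lg 2 true 13 103 107 9 27742 30990960) (.nx 260 416129 (.nr 231 27556 (.lg 2 false 13 107 109 9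
  7030 30990960) (.nx 259 165142 (.lg 2 false 28 103 109 11 14027 30990960) .out)) .out)) .out)))
  .out)) .out)) (.nr 292 129 (.lg 0 true 28 83 89 11 0 14448) .out)) .out) .out) (.na 494 3 (.nx
  493 3329023 (.nr 492 623489 (.nx 298 130 (.nx 297 129 (.nr 296 22 (.lg 0 true 1 37 37 5 0 2064)
  (.l1 .sk)) (.l1 .sk)) (.nx 346 12166 (.nr 320 92683 (.lg 0 false 22 101 103 11 0 2383920) (.nx
  333 257 (.lg 0 false 13 83 83 9 0 26832) (.nx 334 5160 .out (.nr 345 131073 (.lg 0 false 11 101
  103 9 0 2383920) .out)))) (.nr 491 131073 (.nx 472 1664512 (.nr 382 450 (.nx 368 832257 (.lg 0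
  true 22 89 89 11 0 22704) (.nr 381 129 (.lg 0 true 13 83 83 9 0 26832) .out)) (.nx 471 416129
  (.nx 395 17788 (.lg 1 false 13 101 103 9 89735 2817360) (.nx 420 32769 (.nx 408 26009 (.lg 1
  false 13 101 103 9 61373 2817360) (.nr 419 110219 (.lg 1 false 11 101 103 9 35302 2383920) .out))
  (.nr 470 92683 (.nx 431 44591 (.lg 1 false 11 101 103 9 23567 2383920) (.nr 442 2437 (.lg 2 true
  11 97 101 9 59646 2383920) (.nx 469 330282 (.nr 455 55110 (.lg 2 false 13 103 107 9 10308
  2817360) (.nx 468 131073 (.lg 2 false 13 103 107 9 17319 30990960) .out)) .out))) .out))) .out))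
  (.nr 490 9 (.lg 0 true 18 71 71 9 0 6192) .out)) .out))) .out) .out) (.nx 654 6658044 (.nr 653
  1482912 (.nx 496 129 (.nr 495 31 (.lg 0 true 1 31 31 5 0 3096) (.l1 .sk)) (.nx 497 130 (.l1 .sk)
  (.nx 530 13003 (.nr 513 110219 (.lg 0 false 16 103 107 16 0 30990960) (.nx 529 257 (.lg 0 false
  16 83 83 16 0 6192) .out)) (.nr 652 131073 (.nr 579 364 (.nx 546 1048577 (.lg 0 true 16 83 83 16
  0 6192) (.nr 578 33 (.lg 0 true 32 79 79 7 0 6192) .out)) (.nx 651 262145 (.nr 586 2904 (.lg 2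
  true 7 89 89 7 46452 21672) (.nx 634 104033 (.nx 602 27236 (.lg 1 false 16 103 107 16 83959
  30990960) (.nx 618 57052 (.lg 1 false 16 103 107 16 40083 30990960) (.lg 1 true 16 103 107 16
  19135 30990960))) (.nr 650 65537 (.lg 2 false 16 101 103 16 5823 30990960) .out))) .out))
  .out)))) .out) .out))) (.na 656 5 .ne (.na 790 6 (.nx 789 13316087 (.nr 788 1482912 (.nx 658 129
  (.nr 657 47 (.lg 0 true 1 31 31 9 0 108360) (.l1 .sk)) (.nx 659 130 (.l1 .sk) (.nx 687 20642 (.nr
  675 110219 (.lg 0 false 16 97 103 16 0 216720) (.nx 686 257 (.lg 0 false 11 79 83 16 0 56760)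
  .out)) (.nr 787 155873 (.nx 746 660563 (.nr 698 956 (.lg 0 true 11 89 89 16 0 56760) (.nx 710
  41285 (.nr 709 131073 (.lg 1 false 11 101 107 16 52887 15495480) .out) (.nx 721 82572 (.lg 1 true
  11 101 107 16 31441 15495480) (.nr 745 131073 (.nr 733 46342 (.nr 725 4213 (.lg 2 true 4 97 97 13
  44568 216720) (.nr 729 8843 (.lg 2 true 4 89 89 13 10114 216720) (.lg 2 false 4 97 101 13 4819
  216720))) (.nx 744 131073 (.lg 1 true 11 97 103 16 13221 15495480) .out)) .out)))) (.nr 786 217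
  (.nx 757 1664512 (.lg 0 true 11 83 83 16 0 56760) (.nr 785 24 (.lg 0 true 28 83 83 16 0 72240)
  .out)) .out)) .out)))) .out) .out) (.nx 922 13316087 (.nr 921 623489 (.nx 793 130 (.nx 792 129
  (.nr 791 56 (.lg 0 true 1 29 29 7 0 6192) (.l1 .sk)) (.l1 .sk)) (.nx 794 205 (.l1 (.ls 83 47
  4190)) (.nr 920 370729 (.nx 868 832257 (.nx 815 20642 (.nr 807 131073 (.lg 0 false 13 97 101 13 0
  402480) (.nx 814 1627 (.lg 0 false 7 83 83 13 0 43344) .out)) (.nr 867 155873 (.nr 828 1026 (.lg
  0 true 13 89 89 13 0 80496) (.nx 866 660563 (.nx 840 52015 (.nr 839 131073 (.lg 1 false 11 97 101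
  13 52887 340560) .out) (.nx 851 131073 (.lg 1 true 11 97 101 13 24955 340560) (.nr 865 65537 (.nr
  858 8201 (.lg 2 true 7 89 89 13 41527 216720) (.lg 2 false 7 89 89 13 5196 216720)) .out)))
  .out)) .out)) (.nr 919 129 (.nr 907 56 (.lg 0 true 39 79 79 13 0 80496) (.nx 918 1664512 (.lg 0
  true 11 71 71 13 0 68112) .out)) .out)) .out))) .out) .out)))) (.na 1015 10 (.na 1013 8 (.nx 1012
  13316087 (.nr 1011 262145 (.nx 925 129 (.nr 924 64 (.lg 0 true 1 29 29 9 0 108360) (.l1 .sk))
  (.nx 926 130 (.l1 .sk) (.nx 942 16384 (.nr 937 92683 (.lg 0 false 11 97 101 16 0 1191960) (.nx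
  941 1627 (.lg 0 false 4 89 89 13 0 14448) .out)) (.nr 1010 131073 (.nr 980 626 (.nx 953 1664512
  (.lg 0 true 11 89 89 16 0 79464) (.nr 979 47 (.lg 0 true 26 83 83 16 0 187824) .out)) (.nx 1009
  524289 (.nx 985 26007 (.nr 984 110219 (.lg 1 false 4 101 101 13 56042 216720) .out) (.nx 989
  36779 (.lg 1 false 4 101 101 13 41977 216720) (.nr 993 2630 (.lg 2 true 4 89 89 13 54021 216720)
  (.nr 997 55110 (.lg 2 false 4 101 103 13 12859 216720) (.nx 1008 165142 (.lg 2 false 11 103 109
  16 29683 30990960) .out))))) .out)) .out)))) .out) .out) (.na 1014 9 .ne (.lg 0 false 1 0 0 7 0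
  24))) (.na 1072 14 (.na 1071 12 (.nx 1070 1664512 (.nr 1069 623489 (.nx 1061 524289 (.nx 1017 129
  (.nr 1016 96 (.lg 0 true 1 29 29 11 0 10320) (.l1 .sk)) (.nx 1018 130 (.l1 .sk) (.nx 1035 26007
  (.nr 1025 110219 (.lg 0 false 7 103 107 13 0 30990960) (.nx 1034 2582 (.nx 1032 1292 (.lg 0 false
  7 89 89 13 0 72240) (.nr 1033 131073 (.lg 0 true 1 83 83 11 0 10320) .out)) .out)) (.nr 1060
  131073 (.nr 1042 829 (.lg 0 true 7 83 83 13 0 72240) (.nx 1059 416129 (.nr 1044 3171 (.lg 2 true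
  2 83 83 11 32377 10320) (.nx 1051 65537 (.lg 1 false 7 101 107 13 41977 30990960) (.nr 1058
  110219 (.lg 2 false 7 101 107 13 14010 30990960) .out))) .out)) .out)))) (.nr 1068 65 (.lg 0 true
  7 73 73 13 0 72240) .out)) .out) .out) .ne) (.na 1115 15 (.nx 1114 1664512 (.nr 1113 623489 (.nr
  1073 9 .s1 (.nx 1076 130 (.nx 1075 129 (.nr 1074 121 (.lg 0 true 1 31 31 11 0 2383920) (.l1 .sk))
  (.l1 .sk)) (.nx 1107 524289 (.nx 1095 29192 (.nr 1089 155873 (.lg 0 false 13 97 103 19 0
  30990960) (.nx 1094 1292 (.lg 0 false 5 89 89 13 0 72240) .out)) (.nr 1106 110219 (.nr 1100 829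
  (.lg 0 true 5 83 83 13 0 72240) (.nx 1105 416129 (.lg 2 false 5 101 103 13 32377 2383920) .out))
  .out)) (.nr 1112 65 (.lg 0 true 5 71 71 13 0 72240) .out)))) .out) .out) (.nx 1151 1664512 (.nr
  1150 623489 (.nr 1116 10 .s1 (.nx 1119 130 (.nx 1118 129 (.nr 1117 129 (.lg 0 false 1 19 19 16 0
  15480) (.l1 .sk)) (.l1 .sk)) (.nx 1131 29192 (.nr 1126 155873 (.lg 0 false 7 97 97 17 0 108360)
  (.nx 1130 1292 (.lg 0 false 4 83 83 16 0 30960) .out)) (.nr 1149 110219 (.nr 1141 829 (.nx 1135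
  524289 (.lg 0 true 4 79 79 16 0 30960) (.nr 1140 65 (.lg 0 true 5 67 67 16 0 15480) .out)) (.nx
  1148 416129 (.lg 2 false 7 89 101 17 32377 108360) .out)) .out)))) .out) .out))))) (.na 1279 27
  (.na 1191 23 (.na 1153 18 .ne (.na 1154 22 (.lg 0 false 1 0 0 7 0 24) (.nx 1190 1664512 (.nr 1189
  1048577 (.nr 1155 19 .s1 (.nx 1159 257 (.nx 1157 129 (.nr 1156 185 (.lg 0 true 1 23 23 9 0
  340560) (.l1 .sk)) (.nx 1158 130 (.l1 .sk) (.l1 (.ls 89 41 2237)))) (.nr 1188 623489 (.nx 1172
  23171 (.nr 1166 220437 (.lg 0 false 7 97 101 19 0 2383920) (.nx 1171 1627 (.lg 0 false 5 83 83 19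
  0 113520) .out)) (.nr 1187 92683 (.nr 1179 634 (.lg 0 true 7 83 83 19 0 158928) (.nx 1186 262145
  (.lg 2 false 7 97 101 19 33329 2383920) .out)) .out)) .out))) .out) .out))) (.na 1229 25 (.nx
  1228 1664512 (.nr 1227 1048577 (.nr 1192 21 .s1 (.nx 1195 130 (.nx 1194 129 (.nr 1193 201 (.lg 0
  false 1 29 29 11 0 108360) (.l1 .sk)) (.l1 .sk)) (.nx 1196 257 (.l1 (.ls 89 31 2139)) (.nr 1226
  311745 (.nr 1221 110219 (.nx 1215 165142 (.nx 1200 20644 (.lg 0 true 4 97 97 16 0 216720) (.nr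
  1214 77937 (.nr 1204 8487 (.lg 0 true 4 89 89 16 0 2064) (.nr 1209 55110 (.lg 2 true 5 79 79 16
  22265 5160) (.nx 1213 65537 (.lg 0 true 4 97 97 16 0 216720) .out))) .out)) (.nr 1220 513 (.lg 0
  true 5 79 79 16 0 5160) .out)) (.nx 1225 8193 (.lg 0 false 4 101 101 16 0 216720) .out)) .out))))
  .out) .out) (.na 1254 26 (.nx 1253 1664512 (.nr 1252 1048577 (.nr 1230 23 .s1 (.nx 1234 257 (.nx
  1232 129 (.nr 1231 209 (.lg 0 false 1 23 23 16 0 2383920) (.l1 .sk)) (.nx 1233 130 (.l1 .sk) (.l1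
  (.ls 83 31 1968)))) (.nr 1251 311745 (.nx 1238 20644 (.lg 0 false 4 97 97 16 0 10320) (.nr 1250
  77937 (.nr 1245 513 (.lg 0 true 7 73 73 16 0 36120) (.nx 1249 165142 (.lg 2 false 4 89 89 16
  31466 10320) .out)) .out)) .out))) .out) .out) (.nx 1278 1664512 (.nr 1277 1048577 (.nr 1255 24
  .s1 (.nx 1258 130 (.nx 1257 129 (.nr 1256 217 (.lg 0 true 1 23 23 11 0 2817360) (.l1 .sk)) (.l1
  .sk)) (.nx 1265 20644 (.nx 1259 257 (.l1 (.ls 83 41 1893)) (.nr 1264 311745 (.lg 0 false 5 101
  101 19 0 2817360) .out)) (.nr 1276 77937 (.nr 1270 513 (.lg 0 true 5 79 79 19 0 134160) (.nx 1275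
  165142 (.lg 2 false 5 97 101 19 31466 2817360) .out)) .out)))) .out) .out)))) (.na 1331 32 (.na
  1280 29 (.lg 0 false 1 0 0 7 0 24) (.na 1306 30 (.nx 1305 1664512 (.nr 1304 1048577 (.nr 1281 27
  .s1 (.nx 1284 130 (.nx 1283 129 (.nr 1282 242 (.lg 0 false 1 17 17 13 0 15480) (.l1 .sk)) (.l1
  .sk)) (.nx 1293 20644 (.nx 1285 257 (.l1 (.ls 79 23 1697)) (.nr 1292 311745 (.lg 0 false 7 89 97
  16 0 108360) .out)) (.nr 1303 77937 (.nr 1298 513 (.lg 0 true 5 73 73 16 0 5160) (.nx 1302 165142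
  (.lg 2 false 4 97 97 16 31466 30960) .out)) .out)))) .out) .out) (.nx 1330 1664512 (.nr 1329
  1048577 (.nr 1307 28 .s1 (.nx 1311 257 (.nx 1309 129 (.nr 1308 258 (.l1 (.ls 29 37 557)) (.l1
  .sk)) (.nx 1310 130 (.l1 .sk) (.l1 (.ls 89 43 1641)))) (.nr 1328 311745 (.nx 1318 20644 (.lg 0
  false 7 97 101 29 0 2383920) (.nr 1327 77937 (.nr 1323 513 (.lg 0 true 5 79 79 23 0 30960) (.nx
  1326 165142 (.lg 2 false 3 101 101 23 31466 2383920) .out)) .out)) .out))) .out) .out))) (.na
  1352 35 (.na 1332 33 .ne (.nx 1351 1664512 (.nr 1350 881745 (.nr 1333 31 .s1 (.nx 1335 129 (.nr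
  1334 282 (.lg 0 true 1 23 23 16 0 1191960) (.l1 .sk)) (.nx 1336 130 (.l1 .sk) (.nx 1337 257 (.l1
  (.ls 83 37 1492)) (.nr 1349 440873 (.nx 1341 20644 (.lg 0 false 4 101 101 17 0 2383920) (.nr 1348
  46342 (.nr 1345 282 (.lg 0 true 4 73 73 17 0 68112) (.nx 1347 104033 (.lg 2 true 2 97 97 16 23795
  2383920) .out)) .out)) .out))))) .out) .out)) (.na 1373 38 (.nx 1372 1664512 (.nr 1371 881745
  (.nr 1353 34 .s1 (.nx 1357 257 (.nx 1355 129 (.nr 1354 306 (.l1 (.ls 29 29 478)) (.l1 .sk)) (.nx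
  1356 130 (.l1 .sk) (.l1 (.ls 83 31 1407)))) (.nr 1370 440873 (.nx 1361 10323 (.lg 0 false 4 97
  101 19 0 216720) (.nr 1369 110219 (.nr 1365 257 (.lg 0 true 4 73 73 19 0 72240) (.nx 1368 104033
  (.nr 1366 32769 (.lg 2 true 1 89 89 16 26518 36120) (.nx 1367 26009 (.lg 0 false 1 97 97 16 0
  108360) .out)) .out)) .out)) .out))) .out) .out) (.nx 1394 1664512 (.nr 1393 881745 (.nr 1374 37
  .s1 (.nx 1384 20644 (.nx 1376 129 (.nr 1375 314 (.lg 0 false 1 23 23 13 0 216720) (.l1 .sk)) (.nx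
  1377 130 (.l1 .sk) (.nx 1378 257 (.l1 (.ls 83 41 1296)) (.nr 1383 440873 (.lg 0 false 5 97 101 17
  0 216720) .out)))) (.nr 1392 46342 (.nr 1389 314 (.lg 0 true 5 71 71 17 0 10320) (.nx 1391 104033
  (.lg 2 false 2 83 83 13 21370 2064) .out)) .out))) .out) .out))))))

def T62_1 : Ph :=
  (.na 699 149 (.na 433 84 (.na 250 46 (.na 134 32 (.na 70 25 (.na 27 23 (.nx 26 1321124 (.nr 25
  1048577 (.nr 1 20 .s1 (.nx 5 205 (.nx 3 80 (.nr 2 146 (.l1 (.ls 31 29 307)) (.l1 .sk)) (.nx 4 81
  (.l1 .sk) (.l1 (.ls 89 37 1691)))) (.nr 24 623489 (.nx 6 324 (.l1 (.ls 83 41 3000)) (.nr 23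
  220437 (.nx 19 165142 (.nr 7 1360 (.lg 0 false 1 83 83 16 0 5040) (.nr 10 10107 (.nx 8 5162 (.lg
  0 true 1 73 73 16 0 5040) (.lg 2 true 2 67 67 17 6316 5040)) (.nx 14 10323 (.nr 12 131073 (.lg 0
  false 2 97 101 17 0 5040) (.nx 13 814 (.lg 0 false 1 73 73 16 0 5040) .out)) (.nr 18 55110 (.nr
  16 32769 (.lg 2 true 2 73 73 17 10184 5040) (.nx 17 26009 (.lg 0 true 1 97 97 16 0 5040) .out))
  .out)))) (.nr 22 183 (.lg 0 true 3 73 73 17 0 5040) .out)) .out)) .out))) .out) .out) (.na 49 24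
  (.nx 48 1321124 (.nr 47 1048577 (.nr 28 22 .s1 (.nx 31 81 (.nx 30 80 (.nr 29 153 (.l1 (.ls 19 17
  281)) (.l1 .sk)) (.l1 .sk)) (.nx 32 205 (.l1 (.ls 83 31 1544)) (.nr 46 185365 (.nx 35 10323 (.lg
  0 false 3 89 89 16 0 720) (.nr 45 55110 (.nr 41 513 (.lg 0 true 6 79 79 16 0 720) (.nx 44 82572
  (.lg 1 true 3 89 89 16 17110 5040) .out)) .out)) .out)))) .out) .out) (.nx 69 1321124 (.nr 68
  1048577 (.nr 50 23 .s1 (.nx 64 165142 (.nx 59 16385 (.nx 52 80 (.nr 51 159 (.l1 (.ls 29 31 269))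
  (.l1 .sk)) (.nx 53 81 (.l1 .sk) (.nx 54 205 (.l1 (.ls 83 41 1480)) (.nr 58 185365 (.nx 56 6503
  (.lg 0 false 2 89 89 19 0 720) (.nr 57 92683 (.lg 1 true 1 89 89 13 45651 720) .out)) .out))))
  (.nr 63 38969 (.nr 60 513 (.lg 0 false 1 73 73 13 0 720) (.nx 62 82572 (.lg 1 true 2 83 89 19
  7627 5040) .out)) .out)) (.nr 67 183 (.lg 0 true 3 71 71 23 0 720) .out))) .out) .out))) (.na 93
  28 (.na 71 27 (.lg 0 false 1 0 0 7 0 24) (.nx 92 1321124 (.nr 91 1048577 (.nr 72 26 .s1 (.nx 76
  205 (.nx 74 80 (.nr 73 178 (.l1 (.ls 19 19 240)) (.l1 .sk)) (.nx 75 81 (.l1 .sk) (.l1 (.ls 79 31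
  1316)))) (.nr 90 185365 (.nx 79 10323 (.lg 0 false 3 83 83 16 0 720) (.nr 89 55110 (.nr 86 513
  (.lg 0 true 7 71 71 17 0 5040) (.nx 88 82572 (.lg 1 false 2 83 83 16 17110 720) .out)) .out))
  .out))) .out) .out)) (.na 112 29 (.nx 111 1321124 (.nr 110 1048577 (.nr 94 27 .s1 (.nx 97 81 (.nx
  96 80 (.nr 95 184 (.l1 (.ls 29 29 231)) (.l1 .sk)) (.l1 .sk)) (.nx 104 16385 (.nx 98 205 (.l1
  (.ls 83 41 1269)) (.nr 103 185365 (.nx 101 6503 (.lg 0 false 3 83 83 19 0 5040) (.nr 102 92683
  (.lg 1 true 1 89 89 13 45651 5040) .out)) .out)) (.nr 109 38969 (.nr 107 513 (.lg 0 true 3 79 79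
  19 0 5040) (.nx 108 82572 (.lg 1 false 1 89 89 13 7627 5040) .out)) .out)))) .out) .out) (.nx 133
  1321124 (.nr 132 1048577 (.nr 113 28 .s1 (.nx 117 205 (.nx 115 80 (.nr 114 203 (.l1 (.ls 19 17
  223)) (.l1 .sk)) (.nx 116 81 (.l1 .sk) (.l1 (.ls 79 23 1225)))) (.nr 131 185365 (.nx 120 16385
  (.lg 0 false 3 89 89 16 0 720) (.nr 130 38969 (.nr 127 513 (.lg 0 true 7 73 73 16 0 5040) (.nx
  129 82572 (.lg 1 true 2 79 79 16 7627 720) .out)) .out)) .out))) .out) .out)))) (.na 187 40 (.na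
  154 35 (.na 153 33 (.nx 152 1321124 (.nr 151 1048577 (.nr 135 31 .s1 (.nx 145 16385 (.nx 143 6503
  (.nx 137 80 (.nr 136 210 (.l1 (.ls 29 23 202)) (.l1 .sk)) (.nx 138 81 (.l1 .sk) (.nx 139 205 (.l1
  (.ls 83 37 1111)) (.nr 142 370729 (.lg 0 false 3 83 89 19 0 720) .out)))) (.nr 144 92683 (.lg 1
  true 1 83 83 13 45651 720) .out)) (.nr 150 38969 (.nr 148 513 (.lg 0 true 3 73 73 19 0 720) (.nx
  149 82572 (.lg 1 false 1 83 83 13 7627 720) .out)) .out))) .out) .out) .ne) (.na 171 36 (.nx 170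
  1321124 (.nr 169 370729 (.nr 155 34 .s1 (.nx 158 81 (.nx 157 80 (.nr 156 229 (.l1 (.ls 23 19
  185)) (.l1 .sk)) (.l1 .sk)) (.nx 161 8193 (.lg 0 false 3 83 83 16 0 5040) (.nr 168 55110 (.nr 164
  217 (.lg 0 true 3 67 67 16 0 5040) (.nx 167 82572 (.lg 1 true 3 83 83 16 21558 5040) .out))
  .out)))) .out) .out) (.nx 186 1321124 (.nr 185 370729 (.nr 172 35 .s1 (.nx 182 82572 (.nx 174 80
  (.nr 173 254 (.l1 (.ls 23 29 180)) (.l1 .sk)) (.nx 175 81 (.l1 .sk) (.nx 179 13005 (.nx 177 6503
  (.lg 0 false 2 83 83 23 0 720) (.nr 178 77937 (.lg 1 true 1 79 79 19 38394 720) .out)) (.nr 181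
  23172 (.nr 180 1870 (.lg 0 false 1 73 73 19 0 720) (.lg 2 true 1 73 73 19 5722 720)) .out))))
  (.nr 184 217 (.lg 0 true 2 67 67 23 0 720) .out))) .out) .out))) (.na 219 43 (.na 203 41 (.nx 202
  1321124 (.nr 201 370729 (.nr 188 39 .s1 (.nx 191 81 (.nx 190 80 (.nr 189 260 (.l1 (.ls 19 23
  162)) (.l1 .sk)) (.l1 .sk)) (.nx 194 8193 (.lg 0 false 3 83 83 19 0 5040) (.nr 200 55110 (.nr 197
  217 (.lg 0 true 3 61 61 19 0 720) (.nx 199 82572 (.lg 1 false 2 83 83 19 21558 5040) .out))
  .out)))) .out) .out) (.nx 218 1321124 (.nr 217 370729 (.nr 204 41 .s1 (.nx 210 8193 (.nx 206 80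
  (.nr 205 273 (.l1 (.ls 17 16 159)) (.l1 .sk)) (.nx 207 81 (.l1 .sk) (.lg 0 false 3 83 83 16 0
  720))) (.nr 216 55110 (.nr 213 217 (.lg 0 true 3 67 67 16 0 720) (.nx 215 82572 (.lg 1 false 2 83
  83 16 21558 720) .out)) .out))) .out) .out)) (.na 235 45 (.nx 234 1321124 (.nr 233 370729 (.nr
  220 43 .s1 (.nx 226 8193 (.nx 222 80 (.nr 221 286 (.l1 (.ls 19 16 151)) (.l1 .sk)) (.nx 223 81
  (.l1 .sk) (.lg 0 false 3 83 83 16 0 720))) (.nr 232 55110 (.nr 229 217 (.lg 0 true 3 67 67 16 0
  720) (.nx 231 82572 (.lg 1 false 2 83 83 16 21558 720) .out)) .out))) .out) .out) (.nx 249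
  1321124 (.nr 248 370729 (.nr 236 45 .s1 (.nx 239 81 (.nx 238 80 (.nr 237 292 (.l1 (.ls 19 19
  145)) (.l1 .sk)) (.l1 .sk)) (.nx 242 13005 (.lg 0 false 3 83 83 17 0 720) (.nr 247 23172 (.nr 245
  292 (.lg 0 true 3 61 61 17 0 720) (.nx 246 82572 (.lg 2 true 1 73 73 16 11312 720) .out))
  .out)))) .out) .out))))) (.na 350 64 (.na 296 56 (.na 266 48 (.na 251 47 .ne (.nx 265 1321124
  (.nr 264 311745 (.nr 252 47 .s1 (.nx 258 10323 (.nx 254 80 (.nr 253 305 (.l1 (.ls 19 16 139))
  (.l1 .sk)) (.nx 255 81 (.l1 .sk) (.lg 0 false 3 83 83 16 0 720))) (.nr 263 23172 (.nr 261 305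
  (.lg 0 true 3 67 67 16 0 720) (.nx 262 82572 (.lg 2 true 1 79 79 16 10830 5040) .out)) .out)))
  .out) .out)) (.na 281 49 (.nx 280 1321124 (.nr 279 311745 (.nr 267 48 .s1 (.nx 276 82572 (.nx 274
  20644 (.nx 269 80 (.nr 268 311 (.l1 (.ls 31 29 136)) (.l1 .sk)) (.nx 270 81 (.l1 .sk) (.nx 272
  8193 (.lg 0 false 2 83 89 29 0 720) (.nr 273 46342 (.lg 1 false 1 79 79 23 18133 720) .out))))
  (.nr 275 13779 (.lg 0 true 1 83 89 23 0 720) .out)) (.nr 278 217 (.lg 0 true 2 71 71 29 0 720)
  .out))) .out) .out) (.nx 295 1321124 (.nr 294 311745 (.nr 282 49 .s1 (.nx 285 81 (.nx 284 80 (.nr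
  283 356 (.l1 (.ls 19 17 133)) (.l1 .sk)) (.l1 .sk)) (.nx 288 10323 (.lg 0 false 3 79 79 16 0
  5040) (.nr 293 23172 (.nr 291 356 (.lg 0 true 3 67 67 16 0 5040) (.nx 292 82572 (.lg 2 true 1 73
  73 16 9278 5040) .out)) .out)))) .out) .out))) (.na 322 61 (.na 309 60 (.nx 308 1321124 (.nr 307
  311745 (.nr 297 56 .s1 (.nx 299 80 (.nr 298 381 (.l1 (.ls 29 23 117)) (.l1 .sk)) (.nx 300 81 (.l1
  .sk) (.nx 302 10323 (.lg 0 false 2 89 89 23 0 5040) (.nr 306 23172 (.nr 304 381 (.lg 0 true 2 71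
  71 23 0 5040) (.nx 305 82572 (.lg 2 true 1 73 73 19 8669 5040) .out)) .out))))) .out) .out) (.nx
  321 1321124 (.nr 320 311745 (.nr 310 60 .s1 (.nx 313 81 (.nx 312 80 (.nr 311 387 (.l1 (.ls 23 29
  109)) (.l1 .sk)) (.l1 .sk)) (.nx 315 10323 (.lg 0 false 2 83 83 29 0 720) (.nr 319 23172 (.nr 317
  387 (.lg 0 true 2 71 71 29 0 720) (.nx 318 82572 (.lg 2 false 1 71 71 23 8535 720) .out))
  .out)))) .out) .out)) (.na 337 63 (.nx 336 1321124 (.nr 335 311745 (.nr 323 61 .s1 (.nx 326 81
  (.nx 325 80 (.nr 324 400 (.l1 (.ls 19 16 107)) (.l1 .sk)) (.l1 .sk)) (.nx 329 10323 (.lg 0 false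
  3 83 83 16 0 5040) (.nr 334 23172 (.nr 332 400 (.lg 0 true 3 67 67 16 0 720) (.nx 333 82572 (.lg
  2 true 1 73 73 16 8258 5040) .out)) .out)))) .out) .out) (.nx 349 1321124 (.nr 348 311745 (.nr
  338 63 .s1 (.nx 341 81 (.nx 340 80 (.nr 339 406 (.l1 (.ls 29 19 104)) (.l1 .sk)) (.l1 .sk)) (.nx
  343 10323 (.lg 0 false 2 83 83 19 0 5040) (.nr 347 23172 (.nr 345 406 (.lg 0 true 2 71 71 19 0
  5040) (.nx 346 82572 (.lg 2 false 1 71 71 17 8136 5040) .out)) .out)))) .out) .out)))) (.na 392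
  75 (.na 366 69 (.na 351 67 .ne (.nx 365 1321124 (.nr 364 524289 (.nr 352 67 .s1 (.nx 354 80 (.nr
  353 438 (.l1 (.ls 19 16 98)) (.l1 .sk)) (.nx 355 81 (.l1 .sk) (.nx 358 8193 (.lg 0 false 3 83 83
  16 0 720) (.nr 363 8193 (.nr 361 513 (.lg 0 true 3 61 61 16 0 720) (.nx 362 82572 (.lg 2 true 1
  59 59 16 6439 720) .out)) .out))))) .out) .out)) (.na 379 72 (.nx 378 1321124 (.nr 377 524289
  (.nr 367 69 .s1 (.nx 370 81 (.nx 369 80 (.nr 368 457 (.l1 (.ls 19 17 95)) (.l1 .sk)) (.l1 .sk))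
  (.nx 372 8193 (.lg 0 false 2 89 89 17 0 720) (.nr 376 8193 (.nr 374 513 (.lg 0 true 2 73 73 17 0
  720) (.nx 375 82572 (.lg 2 false 1 67 67 17 6439 720) .out)) .out)))) .out) .out) (.nx 391
  1321124 (.nr 390 524289 (.nr 380 72 .s1 (.nx 383 81 (.nx 382 80 (.nr 381 476 (.l1 (.ls 23 23 91))
  (.l1 .sk)) (.l1 .sk)) (.nx 385 8193 (.lg 0 false 2 83 83 29 0 5040) (.nr 389 8193 (.nr 387 513
  (.lg 0 true 2 71 71 29 0 720) (.nx 388 82572 (.lg 2 false 1 61 61 23 6439 720) .out)) .out))))
  .out) .out))) (.na 406 81 (.na 393 80 (.lg 0 false 1 0 0 16 0 24) (.nx 405 1321124 (.nr 404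
  524289 (.nr 394 80 .s1 (.nx 397 81 (.nx 396 80 (.nr 395 514 (.l1 (.ls 23 23 82)) (.l1 .sk)) (.l1
  .sk)) (.nx 399 8193 (.lg 0 false 2 83 83 23 0 720) (.nr 403 8193 (.nr 401 513 (.lg 0 true 2 67 67
  23 0 720) (.nx 402 82572 (.lg 2 true 1 59 59 23 6439 720) .out)) .out)))) .out) .out)) (.na 419
  83 (.nx 418 1321124 (.nr 417 524289 (.nr 407 81 .s1 (.nx 409 80 (.nr 408 527 (.l1 (.ls 17 17 82))
  (.l1 .sk)) (.nx 410 81 (.l1 .sk) (.nx 412 8193 (.lg 0 false 2 73 73 17 0 720) (.nr 416 8193 (.nr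
  414 513 (.lg 0 true 2 61 61 17 0 720) (.nx 415 82572 (.lg 2 false 1 53 53 16 6439 720) .out))
  .out))))) .out) .out) (.nx 432 1321124 (.nr 431 524289 (.nr 420 83 .s1 (.nx 423 81 (.nx 422 80
  (.nr 421 533 (.l1 (.ls 17 16 80)) (.l1 .sk)) (.l1 .sk)) (.nx 426 8193 (.lg 0 false 3 73 73 16 0
  720) (.nr 430 8193 (.nr 428 533 (.lg 0 true 2 61 61 16 0 720) (.nx 429 82572 (.lg 2 true 1 53 53
  16 6197 720) .out)) .out)))) .out) .out)))))) (.na 584 116 (.na 494 101 (.na 468 91 (.na 444 87
  (.nx 443 1321124 (.nr 442 524289 (.nr 434 84 .s1 (.nx 436 80 (.nr 435 552 (.l1 (.ls 31 29 79))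
  (.l1 .sk)) (.nx 437 81 (.l1 .sk) (.nx 440 82572 (.nx 438 8193 (.lg 0 false 1 89 89 31 0 5040)
  (.nr 439 8193 (.lg 0 true 1 79 79 31 0 5040) .out)) (.nr 441 513 (.lg 0 true 1 73 73 31 0 5040)
  .out))))) .out) .out) (.na 457 89 (.nx 456 1321124 (.nr 455 524289 (.nr 445 87 .s1 (.nx 450 8193
  (.nx 447 80 (.nr 446 565 (.l1 (.ls 23 17 76)) (.l1 .sk)) (.nx 448 81 (.l1 .sk) (.lg 0 false 2 89
  89 19 0 720))) (.nr 454 8193 (.nr 452 513 (.lg 0 true 2 71 71 19 0 720) (.nx 453 82572 (.lg 2
  false 1 61 61 17 6439 720) .out)) .out))) .out) .out) (.nx 467 1321124 (.nr 466 524289 (.nr 458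
  89 .s1 (.nx 461 81 (.nx 460 80 (.nr 459 578 (.l1 (.ls 19 16 74)) (.l1 .sk)) (.l1 .sk)) (.nx 462
  8193 (.lg 0 true 1 89 89 16 0 5040) (.nr 465 8193 (.nr 463 513 (.lg 2 false 1 67 67 16 593764
  5040) (.nx 464 82572 (.lg 2 true 1 53 53 16 6439 5040) .out)) .out)))) .out) .out))) (.na 482 96
  (.na 469 92 .ne (.nx 481 1321124 (.nr 480 524289 (.nr 470 92 .s1 (.nx 472 80 (.nr 471 609 (.l1
  (.ls 19 19 72)) (.l1 .sk)) (.nx 473 81 (.l1 .sk) (.nx 475 8193 (.lg 0 false 2 83 83 19 0 720)
  (.nr 479 8193 (.nr 477 513 (.lg 0 true 2 71 71 19 0 720) (.nx 478 82572 (.lg 2 true 1 61 61 19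
  6439 720) .out)) .out))))) .out) .out)) (.na 493 100 (.nx 492 1321124 (.nr 491 524289 (.nr 483 96
  .s1 (.nx 489 82572 (.nx 485 80 (.nr 484 635 (.l1 (.ls 31 23 69)) (.l1 .sk)) (.nx 486 81 (.l1 .sk)
  (.nx 487 8193 (.lg 0 false 1 89 89 29 0 5040) (.nr 488 8193 (.lg 0 true 1 79 79 29 0 5040)
  .out)))) (.nr 490 513 (.lg 0 true 1 73 73 29 0 720) .out))) .out) .out) (.lg 0 false 1 0 0 16 0
  24)))) (.na 539 108 (.na 516 105 (.na 505 103 (.nx 504 1321124 (.nr 503 524289 (.nr 495 101 .s1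
  (.nx 498 81 (.nx 497 80 (.nr 496 654 (.l1 (.ls 17 16 66)) (.l1 .sk)) (.l1 .sk)) (.nx 499 8193
  (.lg 0 true 1 79 79 16 0 720) (.nr 502 8193 (.nr 500 513 (.lg 2 false 1 61 61 16 523218 720) (.nx
  501 82572 (.lg 2 true 1 53 53 16 6439 720) .out)) .out)))) .out) .out) (.nx 515 1321124 (.nr 514
  524289 (.nr 506 103 .s1 (.nx 510 8193 (.nx 508 80 (.nr 507 667 (.l1 (.ls 17 16 65)) (.l1 .sk))
  (.nx 509 81 (.l1 .sk) (.lg 0 true 1 79 79 16 0 720))) (.nr 513 8193 (.nr 511 513 (.lg 2 false 1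
  61 61 16 513058 5040) (.nx 512 82572 (.lg 2 true 1 53 53 16 6439 5040) .out)) .out))) .out)
  .out)) (.na 528 107 (.nx 527 1321124 (.nr 526 524289 (.nr 517 105 .s1 (.nx 519 80 (.nr 518 679
  (.l1 (.ls 23 23 63)) (.l1 .sk)) (.nx 520 81 (.l1 .sk) (.nx 521 8193 (.lg 0 true 1 83 83 23 0
  5040) (.nr 525 8193 (.nr 523 513 (.lg 0 true 2 67 67 29 0 5040) (.nx 524 82572 (.lg 2 false 1 59
  59 23 6439 5040) .out)) .out))))) .out) .out) (.nx 538 1321124 (.nr 537 524289 (.nr 529 107 .s1
  (.nx 532 81 (.nx 531 80 (.nr 530 686 (.l1 (.ls 17 16 62)) (.l1 .sk)) (.l1 .sk)) (.nx 533 8193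
  (.lg 0 true 1 79 79 16 0 720) (.nr 536 8193 (.nr 534 513 (.lg 2 false 1 61 61 16 493879 5040)
  (.nx 535 82572 (.lg 2 false 1 47 47 16 6439 720) .out)) .out)))) .out) .out))) (.na 562 112 (.na
  551 109 (.nx 550 1321124 (.nr 549 524289 (.nr 540 108 .s1 (.nx 542 80 (.nr 541 692 (.l1 (.ls 23
  23 62)) (.l1 .sk)) (.nx 543 81 (.l1 .sk) (.nx 544 8193 (.lg 0 true 1 83 83 23 0 720) (.nr 548
  8193 (.nr 546 513 (.lg 0 true 2 67 67 29 0 720) (.nx 547 82572 (.lg 2 true 1 59 59 23 6439 720)
  .out)) .out))))) .out) .out) (.nx 561 1321124 (.nr 560 524289 (.nr 552 109 .s1 (.nx 555 81 (.nx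
  554 80 (.nr 553 711 (.l1 (.ls 17 16 61)) (.l1 .sk)) (.l1 .sk)) (.nx 556 8193 (.lg 0 true 1 83 83
  16 0 5040) (.nr 559 8193 (.nr 557 513 (.lg 2 false 1 61 61 16 484817 720) (.nx 558 82572 (.lg 2
  false 1 53 53 16 6439 720) .out)) .out)))) .out) .out)) (.na 573 115 (.nx 572 1321124 (.nr 571
  524289 (.nr 563 112 .s1 (.nx 565 80 (.nr 564 730 (.l1 (.ls 31 23 60)) (.l1 .sk)) (.nx 566 81 (.l1
  .sk) (.nx 567 8193 (.lg 0 false 1 89 89 29 0 5040) (.nr 570 8193 (.nx 568 82572 (.lg 0 true 1 79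
  79 29 0 5040) (.nr 569 513 (.lg 0 true 1 73 73 29 0 5040) .out)) .out))))) .out) .out) (.nx 583
  1321124 (.nr 582 524289 (.nr 574 115 .s1 (.nx 578 8193 (.nx 576 80 (.nr 575 736 (.l1 (.ls 17 16
  58)) (.l1 .sk)) (.nx 577 81 (.l1 .sk) (.lg 0 true 1 83 83 16 0 5040))) (.nr 581 8193 (.nr 579 513
  (.lg 2 false 1 61 61 16 459522 720) (.nx 580 82572 (.lg 2 true 1 53 53 16 6439 720) .out))
  .out))) .out) .out))))) (.na 641 135 (.na 618 127 (.na 606 123 (.na 595 120 (.nx 594 1321124 (.nr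
  593 524289 (.nr 585 116 .s1 (.nx 589 8193 (.nx 587 80 (.nr 586 762 (.l1 (.ls 23 19 58)) (.l1
  .sk)) (.nx 588 81 (.l1 .sk) (.lg 0 true 1 83 83 19 0 720))) (.nr 592 8193 (.nr 590 513 (.lg 2
  true 1 67 67 19 455560 720) (.nx 591 82572 (.lg 2 true 1 61 61 19 6439 720) .out)) .out))) .out)
  .out) (.nx 605 1321124 (.nr 604 524289 (.nr 596 120 .s1 (.nx 598 80 (.nr 597 781 (.l1 (.ls 23 29
  56)) (.l1 .sk)) (.nx 599 81 (.l1 .sk) (.nx 600 8193 (.lg 0 false 1 79 79 29 0 720) (.nr 603 8193
  (.nr 601 513 (.lg 2 true 1 59 59 29 440375 720) (.nx 602 82572 (.lg 2 true 1 53 53 29 6439 720)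
  .out)) .out))))) .out) .out)) (.na 617 125 (.nx 616 1321124 (.nr 615 524289 (.nr 607 123 .s1 (.nx
  609 80 (.nr 608 794 (.l1 (.ls 23 17 55)) (.l1 .sk)) (.nx 610 81 (.l1 .sk) (.nx 611 8193 (.lg 0
  true 1 83 83 17 0 720) (.nr 614 8193 (.nr 612 513 (.lg 2 true 1 61 61 17 429634 720) (.nx 613
  82572 (.lg 2 false 1 59 59 17 6439 720) .out)) .out))))) .out) .out) (.lg 0 false 1 0 0 16 0
  24))) (.na 630 129 (.na 629 128 (.nx 628 1321124 (.nr 627 524289 (.nr 619 127 .s1 (.nx 623 8193
  (.nx 621 80 (.nr 620 813 (.l1 (.ls 16 16 53)) (.l1 .sk)) (.nx 622 81 (.l1 .sk) (.lg 0 true 1 73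
  73 16 0 720))) (.nr 626 8193 (.nr 624 513 (.lg 2 false 1 59 59 16 416103 720) (.nx 625 82572 (.lg
  2 true 1 47 47 16 6439 720) .out)) .out))) .out) .out) .ne) (.na 640 131 (.nx 639 660563 (.nr 638
  1048577 (.nr 631 129 .s1 (.nx 634 6503 (.nx 632 205 (.l1 (.ls 79 23 328)) (.nr 633 524289 (.lg 0
  true 1 83 83 19 0 720) .out)) (.nr 637 8193 (.nr 635 1025 (.lg 0 true 1 71 71 19 0 720) (.nx 636
  82572 (.lg 2 false 1 53 53 19 4072 720) .out)) .out))) .out) .out) (.lg 0 false 1 0 0 16 0 24))))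
  (.na 661 141 (.na 650 139 (.na 649 137 (.nx 648 660563 (.nr 647 1048577 (.nr 642 135 .s1 (.nx 643
  205 (.l1 (.ls 71 29 314)) (.nr 646 524289 (.nr 644 8193 (.lg 0 false 1 79 79 19 0 5040) (.nx 645
  6503 (.lg 0 true 1 73 73 19 0 720) .out)) .out))) .out) .out) (.lg 0 false 1 0 0 16 0 24)) (.na
  651 140 (.lg 0 false 1 0 0 16 0 24) (.nx 660 660563 (.nr 659 1048577 (.nr 652 140 .s1 (.nx 655
  6503 (.nx 653 205 (.l1 (.ls 73 31 303)) (.nr 654 524289 (.lg 0 true 1 79 79 29 0 5040) .out))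
  (.nr 658 8193 (.nr 656 1025 (.lg 0 true 1 67 67 29 0 5040) (.nx 657 82572 (.lg 2 false 1 53 53 29
  4072 5040) .out)) .out))) .out) .out))) (.na 681 145 (.na 671 144 (.nx 670 660563 (.nr 669
  1048577 (.nr 662 141 .s1 (.nx 663 205 (.l1 (.ls 73 23 301)) (.nr 668 524289 (.nx 664 6503 (.lg 0
  false 1 79 79 19 0 720) (.nr 667 8193 (.nr 665 1025 (.lg 0 true 1 67 67 19 0 720) (.nx 666 82572
  (.lg 2 false 1 53 53 19 4072 720) .out)) .out)) .out))) .out) .out) (.nx 680 660563 (.nr 679
  1048577 (.nr 672 144 .s1 (.nx 675 6503 (.nx 673 205 (.l1 (.ls 79 31 294)) (.nr 674 524289 (.lg 0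
  false 1 83 83 31 0 720) .out)) (.nr 678 8193 (.nr 676 1025 (.lg 0 true 1 71 71 31 0 720) (.nx 677
  82572 (.lg 2 false 1 53 59 31 4072 720) .out)) .out))) .out) .out)) (.na 689 147 (.nx 688 660563
  (.nr 687 1048577 (.nr 682 145 .s1 (.nx 683 205 (.l1 (.ls 71 19 292)) (.nr 686 524289 (.nr 684
  8193 (.lg 0 false 1 83 83 17 0 5040) (.nx 685 6503 (.lg 0 true 1 79 79 17 0 5040) .out)) .out)))
  .out) .out) (.nx 698 660563 (.nr 697 1048577 (.nr 690 147 .s1 (.nx 693 6503 (.nx 691 205 (.l1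
  (.ls 73 29 288)) (.nr 692 524289 (.lg 0 true 1 79 79 23 0 5040) .out)) (.nr 696 8193 (.nr 694
  1025 (.lg 0 true 1 67 67 23 0 5040) (.nx 695 82572 (.lg 2 false 1 53 53 23 4072 5040) .out))
  .out))) .out) .out))))))) (.na 872 216 (.na 786 183 (.na 743 167 (.na 709 160 (.na 707 151 (.nx
  706 660563 (.nr 705 1048577 (.nr 700 149 .s1 (.nx 701 205 (.l1 (.ls 67 19 285)) (.nr 704 524289
  (.nr 702 8193 (.lg 0 false 1 79 79 16 0 5040) (.nx 703 6503 (.lg 0 true 1 73 73 16 0 5040) .out))
  .out))) .out) .out) (.na 708 157 (.lg 0 false 1 0 0 16 0 24) (.lg 0 false 1 0 0 16 0 24))) (.na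
  727 163 (.na 719 161 (.nx 718 660563 (.nr 717 1048577 (.nr 710 160 .s1 (.nx 713 6503 (.nx 711 205
  (.l1 (.ls 71 29 265)) (.nr 712 524289 (.lg 0 false 1 73 73 29 0 720) .out)) (.nr 716 8193 (.nr
  714 1025 (.lg 0 true 1 61 61 29 0 720) (.nx 715 82572 (.lg 2 false 1 47 47 29 4072 720) .out))
  .out))) .out) .out) (.nx 726 660563 (.nr 725 1048577 (.nr 720 161 .s1 (.nx 721 205 (.l1 (.ls 73
  19 264)) (.nr 724 524289 (.nr 722 8193 (.lg 0 false 1 83 83 17 0 5040) (.nx 723 6503 (.lg 0 true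
  1 83 83 17 0 5040) .out)) .out))) .out) .out)) (.na 735 164 (.nx 734 660563 (.nr 733 1048577 (.nr
  728 163 .s1 (.nx 729 205 (.l1 (.ls 67 17 260)) (.nr 732 524289 (.nr 730 8193 (.lg 0 false 1 79 79
  16 0 5040) (.nx 731 6503 (.lg 0 true 1 73 73 16 0 5040) .out)) .out))) .out) .out) (.nx 742
  660563 (.nr 741 1048577 (.nr 736 164 .s1 (.nx 737 205 (.l1 (.ls 73 29 259)) (.nr 740 524289 (.nr
  738 8193 (.lg 0 false 1 83 83 23 0 720) (.nx 739 6503 (.lg 0 false 1 79 79 23 0 720) .out))
  .out))) .out) .out)))) (.na 768 175 (.na 759 172 (.na 751 168 (.nx 750 660563 (.nr 749 1048577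
  (.nr 744 167 .s1 (.nx 745 205 (.l1 (.ls 67 17 254)) (.nr 748 524289 (.nr 746 8193 (.lg 0 false 1
  73 73 16 0 720) (.nx 747 6503 (.lg 0 true 1 71 71 16 0 720) .out)) .out))) .out) .out) (.nx 758
  660563 (.nr 757 1048577 (.nr 752 168 .s1 (.nx 753 205 (.l1 (.ls 79 37 253)) (.nr 756 524289 (.nr
  754 8193 (.lg 0 true 1 83 83 37 0 5040) (.nx 755 6503 (.lg 0 false 1 83 83 37 0 5040) .out))
  .out))) .out) .out)) (.na 767 173 (.nx 766 660563 (.nr 765 1048577 (.nr 760 172 .s1 (.nx 761 205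
  (.l1 (.ls 73 29 247)) (.nr 764 524289 (.nx 762 6503 (.lg 0 false 1 79 79 23 0 720) (.nr 763 8193
  (.lg 0 true 1 79 79 23 0 720) .out)) .out))) .out) .out) (.lg 0 false 1 0 0 16 0 24))) (.na 770
  180 (.na 769 179 (.lg 0 false 1 0 0 16 0 24) (.lg 0 false 1 0 0 16 0 24)) (.na 778 181 (.nx 777
  660563 (.nr 776 1048577 (.nr 771 180 .s1 (.nx 772 205 (.l1 (.ls 71 37 236)) (.nr 775 524289 (.nx
  773 6503 (.lg 0 false 1 73 73 31 0 720) (.nr 774 8193 (.lg 0 true 1 73 73 31 0 720) .out))
  .out))) .out) .out) (.nx 785 660563 (.nr 784 1048577 (.nr 779 181 .s1 (.nx 780 205 (.l1 (.ls 61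
  17 235)) (.nr 783 524289 (.nr 781 8193 (.lg 0 false 1 73 73 16 0 720) (.nx 782 6503 (.lg 0 true 1
  71 71 16 0 720) .out)) .out))) .out) .out))))) (.na 829 199 (.na 818 191 (.na 802 188 (.na 794
  184 (.nx 793 660563 (.nr 792 1048577 (.nr 787 183 .s1 (.nx 788 205 (.l1 (.ls 59 23 232)) (.nr 791
  524289 (.nr 789 8193 (.lg 0 true 1 79 79 19 0 720) (.nx 790 6503 (.lg 0 false 1 73 73 19 0 720)
  .out)) .out))) .out) .out) (.nx 801 660563 (.nr 800 1048577 (.nr 795 184 .s1 (.nx 796 205 (.l1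
  (.ls 73 29 231)) (.nr 799 524289 (.nr 797 8193 (.lg 0 false 1 83 83 19 0 5040) (.nx 798 6503 (.lg
  0 false 1 79 79 19 0 720) .out)) .out))) .out) .out)) (.na 810 189 (.nx 809 660563 (.nr 808
  1048577 (.nr 803 188 .s1 (.nx 804 205 (.l1 (.ls 73 23 226)) (.nr 807 524289 (.nr 805 8193 (.lg 0
  true 1 79 79 23 0 720) (.nx 806 6503 (.lg 0 false 1 73 73 23 0 720) .out)) .out))) .out) .out)
  (.nx 817 660563 (.nr 816 1048577 (.nr 811 189 .s1 (.nx 814 6503 (.nx 812 205 (.l1 (.ls 71 23
  225)) (.nr 813 524289 (.lg 0 false 1 73 73 23 0 5040) .out)) (.nr 815 8193 (.lg 0 true 1 79 79 23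
  0 5040) .out))) .out) .out))) (.na 820 196 (.na 819 193 (.lg 0 false 1 0 0 16 0 24) (.lg 0 false
  1 0 0 16 0 24)) (.na 828 197 (.nx 827 660563 (.nr 826 1048577 (.nr 821 196 .s1 (.nx 822 205 (.l1
  (.ls 71 29 217)) (.nr 825 524289 (.nr 823 8193 (.lg 0 false 1 79 79 29 0 5040) (.nx 824 6503 (.lg
  0 false 1 73 73 29 0 5040) .out)) .out))) .out) .out) (.lg 0 false 1 0 0 16 0 24)))) (.na 847 205
  (.na 831 201 (.na 830 200 (.lg 0 false 1 0 0 16 0 24) (.lg 0 false 1 0 0 16 0 24)) (.na 839 203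
  (.nx 838 660563 (.nr 837 1048577 (.nr 832 201 .s1 (.nx 833 205 (.l1 (.ls 61 23 212)) (.nr 836
  524289 (.nr 834 8193 (.lg 0 true 1 79 79 19 0 720) (.nx 835 6503 (.lg 0 false 1 73 73 19 0 720)
  .out)) .out))) .out) .out) (.nx 846 660563 (.nr 845 1048577 (.nr 840 203 .s1 (.nx 841 205 (.l1
  (.ls 73 19 210)) (.nr 844 524289 (.nr 842 8193 (.lg 0 false 1 83 83 19 0 5040) (.nx 843 6503 (.lg
  0 false 1 79 79 19 0 5040) .out)) .out))) .out) .out))) (.na 863 211 (.na 855 207 (.nx 854 660563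
  (.nr 853 1048577 (.nr 848 205 .s1 (.nx 849 205 (.l1 (.ls 67 19 207)) (.nr 852 524289 (.nr 850
  8193 (.lg 0 false 1 79 79 17 0 5040) (.nx 851 6503 (.lg 0 true 1 73 73 17 0 5040) .out)) .out)))
  .out) .out) (.nx 862 660563 (.nr 861 1048577 (.nr 856 207 .s1 (.nx 857 205 (.l1 (.ls 73 19 206))
  (.nr 860 524289 (.nr 858 8193 (.lg 0 true 1 79 79 19 0 720) (.nx 859 6503 (.lg 0 false 1 73 73 19
  0 720) .out)) .out))) .out) .out)) (.na 864 215 (.lg 0 false 1 0 0 16 0 24) (.nx 871 660563 (.nr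
  870 1048577 (.nr 865 215 .s1 (.nx 866 205 (.l1 (.ls 67 19 198)) (.nr 869 524289 (.nr 867 8193
  (.lg 0 false 1 79 79 17 0 5040) (.nx 868 6503 (.lg 0 true 1 73 73 17 0 5040) .out)) .out))) .out)
  .out)))))) (.na 979 251 (.na 922 235 (.na 897 227 (.na 888 224 (.na 880 223 (.nx 879 660563 (.nr
  878 1048577 (.nr 873 216 .s1 (.nx 874 205 (.l1 (.ls 67 31 197)) (.nr 877 524289 (.nr 875 8193
  (.lg 0 true 1 73 73 29 0 720) (.nx 876 6503 (.lg 0 false 1 71 71 29 0 720) .out)) .out))) .out)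
  .out) (.nx 887 660563 (.nr 886 1048577 (.nr 881 223 .s1 (.nx 882 205 (.l1 (.ls 61 17 191)) (.nr
  885 524289 (.nr 883 8193 (.lg 0 false 1 71 71 16 0 720) (.nx 884 6503 (.lg 0 true 1 67 67 16 0
  720) .out)) .out))) .out) .out)) (.na 896 225 (.nx 895 660563 (.nr 894 1048577 (.nr 889 224 .s1
  (.nx 890 205 (.l1 (.ls 73 29 190)) (.nr 893 524289 (.nr 891 8193 (.lg 0 true 1 79 79 31 0 5040)
  (.nx 892 6503 (.lg 0 false 1 79 79 31 0 5040) .out)) .out))) .out) .out) (.lg 0 false 1 0 0 16 0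
  24))) (.na 913 232 (.na 905 229 (.nx 904 660563 (.nr 903 1048577 (.nr 898 227 .s1 (.nx 899 205
  (.l1 (.ls 61 17 188)) (.nr 902 524289 (.nr 900 8193 (.lg 0 false 1 71 71 17 0 720) (.nx 901 6503
  (.lg 0 true 1 67 67 17 0 720) .out)) .out))) .out) .out) (.nx 912 660563 (.nr 911 1048577 (.nr
  906 229 .s1 (.nx 907 205 (.l1 (.ls 67 17 186)) (.nr 910 524289 (.nr 908 8193 (.lg 0 false 1 73 73
  17 0 5040) (.nx 909 6503 (.lg 0 true 1 71 71 17 0 5040) .out)) .out))) .out) .out)) (.na 921 233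
  (.nx 920 660563 (.nr 919 1048577 (.nr 914 232 .s1 (.nx 915 205 (.l1 (.ls 71 23 184)) (.nr 918
  524289 (.nr 916 8193 (.lg 0 true 1 73 73 23 0 720) (.nx 917 6503 (.lg 0 false 1 73 73 23 0 720)
  .out)) .out))) .out) .out) (.lg 0 false 1 0 0 16 0 24)))) (.na 947 243 (.na 931 240 (.na 930 239
  (.nx 929 660563 (.nr 928 1048577 (.nr 923 235 .s1 (.nx 924 205 (.l1 (.ls 43 19 181)) (.nr 927
  524289 (.nr 925 8193 (.lg 0 false 1 73 73 17 0 720) (.nx 926 6503 (.lg 0 true 1 71 71 17 0 720)
  .out)) .out))) .out) .out) (.lg 0 false 1 0 0 16 0 24)) (.na 939 241 (.nx 938 660563 (.nr 937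
  1048577 (.nr 932 240 .s1 (.nx 933 205 (.l1 (.ls 73 31 178)) (.nr 936 524289 (.nr 934 8193 (.lg 0
  true 1 79 79 37 0 720) (.nx 935 6503 (.lg 0 false 1 79 79 37 0 5040) .out)) .out))) .out) .out)
  (.nx 946 660563 (.nr 945 1048577 (.nr 940 241 .s1 (.nx 941 205 (.l1 (.ls 61 17 177)) (.nr 944
  524289 (.nr 942 8193 (.lg 0 false 1 71 71 17 0 720) (.nx 943 6503 (.lg 0 true 1 67 67 17 0 720)
  .out)) .out))) .out) .out))) (.na 963 245 (.na 955 244 (.nx 954 660563 (.nr 953 1048577 (.nr 948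
  243 .s1 (.nx 949 205 (.l1 (.ls 67 19 175)) (.nr 952 524289 (.nr 950 8193 (.lg 0 false 1 73 73 19
  0 5040) (.nx 951 6503 (.lg 0 true 1 71 71 19 0 5040) .out)) .out))) .out) .out) (.nx 962 660563
  (.nr 961 1048577 (.nr 956 244 .s1 (.nx 957 205 (.l1 (.ls 59 23 175)) (.nr 960 524289 (.nr 958
  8193 (.lg 0 true 1 73 73 23 0 720) (.nx 959 6503 (.lg 0 false 1 73 73 23 0 720) .out)) .out)))
  .out) .out)) (.na 971 249 (.nx 970 660563 (.nr 969 1048577 (.nr 964 245 .s1 (.nx 965 205 (.l1
  (.ls 61 23 174)) (.nr 968 524289 (.nr 966 8193 (.lg 0 false 1 71 71 19 0 5040) (.nx 967 6503 (.lg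
  0 true 1 71 71 19 0 5040) .out)) .out))) .out) .out) (.nx 978 660563 (.nr 977 1048577 (.nr 972
  249 .s1 (.nx 975 6503 (.nx 973 205 (.l1 (.ls 67 19 171)) (.nr 974 524289 (.lg 0 false 1 71 71 23
  0 720) .out)) (.nr 976 8193 (.lg 0 true 1 71 71 23 0 720) .out))) .out) .out))))) (.na 3589 2048
  (.na 1503 512 (.na 988 256 (.na 980 252 (.lg 0 false 1 0 0 16 0 24) (.nx 987 660563 (.nr 986
  1048577 (.nr 981 252 .s1 (.nx 982 205 (.l1 (.ls 73 31 169)) (.nr 985 524289 (.nr 983 8193 (.lg 0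
  true 1 83 83 37 0 5040) (.nx 984 6503 (.lg 0 false 1 79 79 37 0 5040) .out)) .out))) .out) .out))
  (.na 989 257 .ne (.nx 1502 82572 (.nr 1501 1048577 (.nr 990 257 .s1 (.nx 1245 647 (.la (.ls 71 31
  1631)) (.nr 1500 262145 (.la (.lg 0 false 1 79 79 23 0)) .out))) .out) .out))) (.na 2397 1024
  (.na 2014 725 (.nx 2013 82572 (.nr 2012 1048577 (.nr 1504 512 .s1 (.nx 1585 81 (.nx 1584 80 (.nr
  1583 4600 (.lx (.lp 37 19 182)) (.l1 .sk)) (.l1 .sk)) (.nx 1798 647 (.la (.ls 67 29 807)) (.nr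
  2011 262145 (.la (.lg 0 false 1 73 73 29 0)) .out)))) .out) .out) (.nx 2396 3252 (.nr 2395 262145
  (.nr 2015 725 .s1 (.nx 2095 80 (.nr 2094 6497 (.lx (.lp 16 19 257)) (.l1 .sk)) (.nx 2096 81 (.l1
  .sk) (.la (.ls 59 43 14580))))) .out) .out)) (.na 2906 1449 (.nx 2905 3252 (.nr 2904 262145 (.nr
  2398 1024 .s1 (.nx 2478 80 (.nr 2477 9194 (.lx (.lp 23 23 363)) (.l1 .sk)) (.nx 2479 81 (.l1 .sk)
  (.la (.ls 53 41 10324))))) .out) .out) (.nx 3588 1627 (.nr 3587 131073 (.nr 2907 1449 .s1 (.nx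
  2987 80 (.nr 2986 12994 (.lx (.lp 16 23 513)) (.l1 .sk)) (.nx 2988 81 (.l1 .sk) (.la (.ls 47 31
  1825))))) .out) .out)))) (.na 6471 16384 (.na 5172 4096 (.na 4522 2897 (.nx 4521 1627 (.nr 4520
  131073 (.nr 3590 2048 .s1 (.nx 3670 80 (.nr 3669 18380 (.lx (.lp 16 23 725)) (.l1 .sk)) (.nx 3671
  81 (.l1 .sk) (.la (.ls 43 31 1292))))) .out) .out) (.nx 5171 647 (.nr 5170 65537 (.nr 4523 2897
  .s1 (.nx 4685 163 (.lx (.lp 37 31 1025)) (.nr 5169 32769 (.lx (.lp 31 31 1025)) .out))) .out)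
  .out)) (.na 5822 8192 (.nx 5821 647 (.nr 5820 65537 (.nr 5173 4096 .s1 (.nx 5335 163 (.lx (.lp 37
  37 2049)) (.nr 5819 32769 (.lx (.lp 31 37 2049)) .out))) .out) .out) (.nx 6470 647 (.nr 6469
  65537 (.nr 5823 8192 .s1 (.lx (.lp 31 41 4097))) .out) .out))) (.na 7447 65536 (.na 7121 32768
  (.nx 7120 647 (.nr 7119 131073 (.nr 6472 16384 .s1 (.nx 6634 163 (.lx (.lp 16 37 8193)) (.nr 7118
  65537 (.lx (.lp 29 43 8193)) .out))) .out) .out) (.nx 7446 324 (.nr 7445 131073 (.nr 7122 32768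
  .s1 (.lx (.lp 29 47 16385))) .out) .out)) (.na 7774 131073 (.nx 7773 324 (.nr 7772 262145 (.nr
  7448 65536 .s1 (.nx 7610 163 (.lx (.lp 16 0 32769)) (.nr 7771 131073 (.lx (.lp 19 53 32769))
  .out))) .out) .out) .out)))))))

def T62_2 : Ph :=
  (.na 7786 131072 (.na 4103 32768 (.na 2051 16384 (.nx 2050 2049 (.nr 2049 131073 (.nr 1 11586 .s1
  (.lx (.lp 37 41 4097))) .out) .out) (.nx 4102 2049 (.nr 4101 262145 (.nr 2052 16384 .s1 (.nx 2375
  324 (.lx (.lp 41 43 8193)) (.nr 4100 131073 (.lx (.lp 37 43 8193)) .out))) .out) .out)) (.na 6156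
  65536 (.nx 6155 2049 (.nr 6154 524289 (.nr 4104 32768 .s1 (.nx 4616 512 (.nx 4427 324 (.lx (.lp
  41 47 16385)) (.nr 4615 131073 (.lx (.lp 31 47 16385)) .out)) (.nr 6153 262145 (.lx (.lp 37 47
  16385)) .out))) .out) .out) (.nx 7785 1627 (.nr 7784 524289 (.nr 6157 65536 .s1 (.nx 6480 324
  (.lx (.lp 16 0 32769)) (.nr 7783 262145 (.lx (.lp 31 53 32769)) .out))) .out) .out))) (.na 9931
  524288 (.na 9416 262144 (.nx 9415 1627 (.nr 9414 524289 (.nr 7787 131072 .s1 (.nx 8299 513 (.lx
  (.lp 31 59 65537)) (.nr 9413 262145 (.lx (.lp 29 59 65537)) .out))) .out) .out) (.nx 9930 513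
  (.nr 9929 1048577 (.nr 9417 262144 .s1 (.lx (.lp 16 0 131073))) .out) .out)) (.na 9933 1048577
  (.nx 9932 324 (.l1 .sk) .out) .out)))

theorem c62 :
    OkQ ckI L8 129 1 39 0 34359738368 1 1099511627776 ∧
    OkQ ckI L6 80 21 1099511627776 0 34359738368 1 1099511627776 ∧
    OkQ ckI L10 224 11586 1099511627776 0 34359738368 1 1099511627776 := by
  refine ⟨?_, ?_, ?_⟩
  · refine fin 1032 1395 T62_0 ?_
    refine jn 6 (by decide +kernel) ?_
    refine jn 10 (by decide +kernel) ?_
    refine jn 15 (by decide +kernel) ?_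
    refine jn 19 (by decide +kernel) ?_
    refine jn 24 (by decide +kernel) ?_
    refine jn 28 (by decide +kernel) ?_
    refine jn 30 (by decide +kernel) ?_
    refine jn 33 (by decide +kernel) ?_
    refine jn 38 (by decide +kernel) ?_
    refine jn 42 (by decide +kernel) ?_
    refine jn 46 (by decide +kernel) ?_
    refine jn 51 (by decide +kernel) ?_
    refine jn 54 (by decide +kernel) ?_
    refine jn 83 (by decide +kernel) ?_
    refine jn 91 (by decide +kernel) ?_
    refine jn 98 (by decide +kernel) ?_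
    refine jn 104 (by decide +kernel) ?_
    refine jn 111 (by decide +kernel) ?_
    refine jn 119 (by decide +kernel) ?_
    refine jn 125 (by decide +kernel) ?_
    refine jn 133 (by decide +kernel) ?_
    refine jn 136 (by decide +kernel) ?_
    refine jn 149 (by decide +kernel) ?_
    refine jn 169 (by decide +kernel) ?_
    refine jn 177 (by decide +kernel) ?_
    refine jn 205 (by decide +kernel) ?_
    refine jn 218 (by decide +kernel) ?_
    refine jn 231 (by decide +kernel) ?_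
    refine jn 259 (by decide +kernel) ?_
    refine jn 283 (by decide +kernel) ?_
    refine jn 292 (by decide +kernel) ?_
    refine jn 302 (by decide +kernel) ?_
    refine jn 307 (by decide +kernel) ?_
    refine jn 310 (by decide +kernel) ?_
    refine jn 314 (by decide +kernel) ?_
    refine jn 318 (by decide +kernel) ?_
    refine jn 333 (by decide +kernel) ?_
    refine jn 350 (by decide +kernel) ?_
    refine jn 357 (by decide +kernel) ?_
    refine jn 365 (by decide +kernel) ?_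
    refine jn 368 (by decide +kernel) ?_
    refine jn 381 (by decide +kernel) ?_
    refine jn 408 (by decide +kernel) ?_
    refine jn 431 (by decide +kernel) ?_
    refine jn 442 (by decide +kernel) ?_
    refine jn 455 (by decide +kernel) ?_
    refine jn 468 (by decide +kernel) ?_
    refine jn 490 (by decide +kernel) ?_
    refine jn 502 (by decide +kernel) ?_
    refine jn 507 (by decide +kernel) ?_
    refine jn 512 (by decide +kernel) ?_
    refine jn 529 (by decide +kernel) ?_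
    refine jn 538 (by decide +kernel) ?_
    refine jn 546 (by decide +kernel) ?_
    refine jn 578 (by decide +kernel) ?_
    refine jn 602 (by decide +kernel) ?_
    refine jn 618 (by decide +kernel) ?_
    refine jn 634 (by decide +kernel) ?_
    refine jn 650 (by decide +kernel) ?_
    refine jn 659 (by decide +kernel) ?_
    refine jn 661 (by decide +kernel) ?_
    refine jn 663 (by decide +kernel) ?_
    refine jn 665 (by decide +kernel) ?_
    refine jn 667 (by decide +kernel) ?_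
    refine jn 669 (by decide +kernel) ?_
    refine jn 671 (by decide +kernel) ?_
    refine jn 673 (by decide +kernel) ?_
    refine jn 675 (by decide +kernel) ?_
    refine jn 686 (by decide +kernel) ?_
    refine jn 689 (by decide +kernel) ?_
    refine jn 691 (by decide +kernel) ?_
    refine jn 694 (by decide +kernel) ?_
    refine jn 696 (by decide +kernel) ?_
    refine jn 698 (by decide +kernel) ?_
    refine jn 709 (by decide +kernel) ?_
    refine jn 721 (by decide +kernel) ?_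
    refine jn 725 (by decide +kernel) ?_
    refine jn 733 (by decide +kernel) ?_
    refine jn 744 (by decide +kernel) ?_
    refine jn 754 (by decide +kernel) ?_
    refine jn 785 (by decide +kernel) ?_
    refine jn 800 (by decide +kernel) ?_
    refine jn 807 (by decide +kernel) ?_
    refine jn 815 (by decide +kernel) ?_
    refine jn 828 (by decide +kernel) ?_
    refine jn 851 (by decide +kernel) ?_
    refine jn 865 (by decide +kernel) ?_
    refine jn 907 (by decide +kernel) ?_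
    refine jn 926 (by decide +kernel) ?_
    refine jn 928 (by decide +kernel) ?_
    refine jn 930 (by decide +kernel) ?_
    refine jn 932 (by decide +kernel) ?_
    refine jn 934 (by decide +kernel) ?_
    refine jn 936 (by decide +kernel) ?_
    refine jn 941 (by decide +kernel) ?_
    refine jn 946 (by decide +kernel) ?_
    refine jn 950 (by decide +kernel) ?_
    refine jn 953 (by decide +kernel) ?_
    refine jn 979 (by decide +kernel) ?_
    refine jn 989 (by decide +kernel) ?_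
    refine jn 997 (by decide +kernel) ?_
    refine jn 1008 (by decide +kernel) ?_
    refine jn 1020 (by decide +kernel) ?_
    refine jn 1022 (by decide +kernel) ?_
    refine jn 1024 (by decide +kernel) ?_
    refine jn 1032 (by decide +kernel) ?_
    refine jn 1038 (by decide +kernel) ?_
    refine jn 1042 (by decide +kernel) ?_
    refine jn 1051 (by decide +kernel) ?_
    refine jn 1058 (by decide +kernel) ?_
    refine jn 1068 (by decide +kernel) ?_
    refine jn 1080 (by decide +kernel) ?_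
    refine jn 1085 (by decide +kernel) ?_
    refine jn 1089 (by decide +kernel) ?_
    refine jn 1097 (by decide +kernel) ?_
    refine jn 1100 (by decide +kernel) ?_
    refine jn 1105 (by decide +kernel) ?_
    refine jn 1119 (by decide +kernel) ?_
    refine jn 1122 (by decide +kernel) ?_
    refine jn 1125 (by decide +kernel) ?_
    refine jn 1130 (by decide +kernel) ?_
    refine jn 1135 (by decide +kernel) ?_
    refine jn 1141 (by decide +kernel) ?_
    refine jn 1148 (by decide +kernel) ?_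
    refine jn 1163 (by decide +kernel) ?_
    refine jn 1171 (by decide +kernel) ?_
    refine jn 1179 (by decide +kernel) ?_
    refine jn 1186 (by decide +kernel) ?_
    refine jn 1196 (by decide +kernel) ?_
    refine jn 1197 (by decide +kernel) ?_
    refine jn 1198 (by decide +kernel) ?_
    refine jn 1199 (by decide +kernel) ?_
    refine jn 1200 (by decide +kernel) ?_
    refine jn 1201 (by decide +kernel) ?_
    refine jn 1202 (by decide +kernel) ?_
    refine jn 1203 (by decide +kernel) ?_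
    refine jn 1204 (by decide +kernel) ?_
    refine jn 1205 (by decide +kernel) ?_
    refine jn 1206 (by decide +kernel) ?_
    refine jn 1207 (by decide +kernel) ?_
    refine jn 1208 (by decide +kernel) ?_
    refine jn 1209 (by decide +kernel) ?_
    refine jn 1220 (by decide +kernel) ?_
    refine jn 1234 (by decide +kernel) ?_
    refine jn 1238 (by decide +kernel) ?_
    refine jn 1245 (by decide +kernel) ?_
    refine jn 1258 (by decide +kernel) ?_
    refine jn 1259 (by decide +kernel) ?_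
    refine jn 1264 (by decide +kernel) ?_
    refine jn 1270 (by decide +kernel) ?_
    refine jn 1282 (by decide +kernel) ?_
    refine jn 1285 (by decide +kernel) ?_
    refine jn 1292 (by decide +kernel) ?_
    refine jn 1298 (by decide +kernel) ?_
    refine jn 1310 (by decide +kernel) ?_
    refine jn 1311 (by decide +kernel) ?_
    refine jn 1318 (by decide +kernel) ?_
    refine jn 1323 (by decide +kernel) ?_
    refine jn 1336 (by decide +kernel) ?_
    refine jn 1341 (by decide +kernel) ?_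
    refine jn 1347 (by decide +kernel) ?_
    refine jn 1357 (by decide +kernel) ?_
    refine jn 1359 (by decide +kernel) ?_
    refine jn 1361 (by decide +kernel) ?_
    refine jn 1363 (by decide +kernel) ?_
    refine jn 1365 (by decide +kernel) ?_
    refine jn 1367 (by decide +kernel) ?_
    refine jn 1383 (by decide +kernel) ?_
    refine jn 1391 (by decide +kernel) ?_
    exact je (by decide +kernel)
  · refine fin 720 7775 T62_1 ?_
    refine jn 4 (by decide +kernel) ?_
    refine jn 5 (by decide +kernel) ?_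
    refine jn 6 (by decide +kernel) ?_
    refine jn 7 (by decide +kernel) ?_
    refine jn 8 (by decide +kernel) ?_
    refine jn 9 (by decide +kernel) ?_
    refine jn 10 (by decide +kernel) ?_
    refine jn 13 (by decide +kernel) ?_
    refine jn 14 (by decide +kernel) ?_
    refine jn 15 (by decide +kernel) ?_
    refine jn 16 (by decide +kernel) ?_
    refine jn 20 (by decide +kernel) ?_
    refine jn 22 (by decide +kernel) ?_
    refine jn 32 (by decide +kernel) ?_
    refine jn 35 (by decide +kernel) ?_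
    refine jn 41 (by decide +kernel) ?_
    refine jn 53 (by decide +kernel) ?_
    refine jn 54 (by decide +kernel) ?_
    refine jn 55 (by decide +kernel) ?_
    refine jn 56 (by decide +kernel) ?_
    refine jn 57 (by decide +kernel) ?_
    refine jn 59 (by decide +kernel) ?_
    refine jn 60 (by decide +kernel) ?_
    refine jn 62 (by decide +kernel) ?_
    refine jn 66 (by decide +kernel) ?_
    refine jn 73 (by decide +kernel) ?_
    refine jn 79 (by decide +kernel) ?_
    refine jn 86 (by decide +kernel) ?_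
    refine jn 97 (by decide +kernel) ?_
    refine jn 98 (by decide +kernel) ?_
    refine jn 99 (by decide +kernel) ?_
    refine jn 100 (by decide +kernel) ?_
    refine jn 101 (by decide +kernel) ?_
    refine jn 102 (by decide +kernel) ?_
    refine jn 105 (by decide +kernel) ?_
    refine jn 106 (by decide +kernel) ?_
    refine jn 107 (by decide +kernel) ?_
    refine jn 116 (by decide +kernel) ?_
    refine jn 120 (by decide +kernel) ?_
    refine jn 127 (by decide +kernel) ?_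
    refine jn 138 (by decide +kernel) ?_
    refine jn 139 (by decide +kernel) ?_
    refine jn 140 (by decide +kernel) ?_
    refine jn 141 (by decide +kernel) ?_
    refine jn 142 (by decide +kernel) ?_
    refine jn 144 (by decide +kernel) ?_
    refine jn 146 (by decide +kernel) ?_
    refine jn 147 (by decide +kernel) ?_
    refine jn 148 (by decide +kernel) ?_
    refine jn 158 (by decide +kernel) ?_
    refine jn 161 (by decide +kernel) ?_
    refine jn 167 (by decide +kernel) ?_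
    refine jn 175 (by decide +kernel) ?_
    refine jn 176 (by decide +kernel) ?_
    refine jn 177 (by decide +kernel) ?_
    refine jn 179 (by decide +kernel) ?_
    refine jn 180 (by decide +kernel) ?_
    refine jn 182 (by decide +kernel) ?_
    refine jn 184 (by decide +kernel) ?_
    refine jn 194 (by decide +kernel) ?_
    refine jn 199 (by decide +kernel) ?_
    refine jn 210 (by decide +kernel) ?_
    refine jn 215 (by decide +kernel) ?_
    refine jn 226 (by decide +kernel) ?_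
    refine jn 231 (by decide +kernel) ?_
    refine jn 242 (by decide +kernel) ?_
    refine jn 246 (by decide +kernel) ?_
    refine jn 258 (by decide +kernel) ?_
    refine jn 262 (by decide +kernel) ?_
    refine jn 270 (by decide +kernel) ?_
    refine jn 271 (by decide +kernel) ?_
    refine jn 272 (by decide +kernel) ?_
    refine jn 273 (by decide +kernel) ?_
    refine jn 274 (by decide +kernel) ?_
    refine jn 275 (by decide +kernel) ?_
    refine jn 276 (by decide +kernel) ?_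
    refine jn 277 (by decide +kernel) ?_
    refine jn 278 (by decide +kernel) ?_
    refine jn 291 (by decide +kernel) ?_
    refine jn 300 (by decide +kernel) ?_
    refine jn 302 (by decide +kernel) ?_
    refine jn 304 (by decide +kernel) ?_
    refine jn 313 (by decide +kernel) ?_
    refine jn 315 (by decide +kernel) ?_
    refine jn 317 (by decide +kernel) ?_
    refine jn 329 (by decide +kernel) ?_
    refine jn 338 (by decide +kernel) ?_
    refine jn 343 (by decide +kernel) ?_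
    refine jn 345 (by decide +kernel) ?_
    refine jn 358 (by decide +kernel) ?_
    refine jn 370 (by decide +kernel) ?_
    refine jn 372 (by decide +kernel) ?_
    refine jn 374 (by decide +kernel) ?_
    refine jn 383 (by decide +kernel) ?_
    refine jn 385 (by decide +kernel) ?_
    refine jn 387 (by decide +kernel) ?_
    refine jn 397 (by decide +kernel) ?_
    refine jn 399 (by decide +kernel) ?_
    refine jn 401 (by decide +kernel) ?_
    refine jn 414 (by decide +kernel) ?_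
    refine jn 428 (by decide +kernel) ?_
    refine jn 437 (by decide +kernel) ?_
    refine jn 438 (by decide +kernel) ?_
    refine jn 439 (by decide +kernel) ?_
    refine jn 441 (by decide +kernel) ?_
    refine jn 450 (by decide +kernel) ?_
    refine jn 453 (by decide +kernel) ?_
    refine jn 464 (by decide +kernel) ?_
    refine jn 475 (by decide +kernel) ?_
    refine jn 478 (by decide +kernel) ?_
    refine jn 486 (by decide +kernel) ?_
    refine jn 487 (by decide +kernel) ?_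
    refine jn 488 (by decide +kernel) ?_
    refine jn 490 (by decide +kernel) ?_
    refine jn 501 (by decide +kernel) ?_
    refine jn 512 (by decide +kernel) ?_
    refine jn 521 (by decide +kernel) ?_
    refine jn 524 (by decide +kernel) ?_
    refine jn 535 (by decide +kernel) ?_
    refine jn 546 (by decide +kernel) ?_
    refine jn 557 (by decide +kernel) ?_
    refine jn 566 (by decide +kernel) ?_
    refine jn 567 (by decide +kernel) ?_
    refine jn 568 (by decide +kernel) ?_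
    refine jn 574 (by decide +kernel) ?_
    refine jn 580 (by decide +kernel) ?_
    refine jn 589 (by decide +kernel) ?_
    refine jn 591 (by decide +kernel) ?_
    refine jn 600 (by decide +kernel) ?_
    refine jn 602 (by decide +kernel) ?_
    refine jn 611 (by decide +kernel) ?_
    refine jn 613 (by decide +kernel) ?_
    refine jn 631 (by decide +kernel) ?_
    refine jn 635 (by decide +kernel) ?_
    refine jn 645 (by decide +kernel) ?_
    refine jn 656 (by decide +kernel) ?_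
    refine jn 665 (by decide +kernel) ?_
    refine jn 674 (by decide +kernel) ?_
    refine jn 676 (by decide +kernel) ?_
    refine jn 685 (by decide +kernel) ?_
    refine jn 694 (by decide +kernel) ?_
    refine jn 703 (by decide +kernel) ?_
    refine jn 714 (by decide +kernel) ?_
    refine jn 723 (by decide +kernel) ?_
    refine jn 738 (by decide +kernel) ?_
    refine jn 747 (by decide +kernel) ?_
    refine jn 754 (by decide +kernel) ?_
    refine jn 762 (by decide +kernel) ?_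
    refine jn 774 (by decide +kernel) ?_
    refine jn 789 (by decide +kernel) ?_
    refine jn 798 (by decide +kernel) ?_
    refine jn 806 (by decide +kernel) ?_
    refine jn 815 (by decide +kernel) ?_
    refine jn 824 (by decide +kernel) ?_
    refine jn 835 (by decide +kernel) ?_
    refine jn 843 (by decide +kernel) ?_
    refine jn 858 (by decide +kernel) ?_
    refine jn 868 (by decide +kernel) ?_
    refine jn 879 (by decide +kernel) ?_
    refine jn 890 (by decide +kernel) ?_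
    refine jn 891 (by decide +kernel) ?_
    refine jn 901 (by decide +kernel) ?_
    refine jn 916 (by decide +kernel) ?_
    refine jn 926 (by decide +kernel) ?_
    refine jn 934 (by decide +kernel) ?_
    refine jn 943 (by decide +kernel) ?_
    refine jn 958 (by decide +kernel) ?_
    refine jn 971 (by decide +kernel) ?_
    refine jn 981 (by decide +kernel) ?_
    refine jn 983 (by decide +kernel) ?_
    refine jn 1000 (by decide +kernel) ?_
    refine jn 1014 (by decide +kernel) ?_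
    refine jn 1038 (by decide +kernel) ?_
    refine jn 1062 (by decide +kernel) ?_
    refine jn 1069 (by decide +kernel) ?_
    refine jn 1077 (by decide +kernel) ?_
    refine jn 1100 (by decide +kernel) ?_
    refine jn 1125 (by decide +kernel) ?_
    refine jn 1156 (by decide +kernel) ?_
    refine jn 1178 (by decide +kernel) ?_
    refine jn 1213 (by decide +kernel) ?_
    refine jn 1234 (by decide +kernel) ?_
    refine jn 1249 (by decide +kernel) ?_
    refine jn 1255 (by decide +kernel) ?_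
    refine jn 1257 (by decide +kernel) ?_
    refine jn 1264 (by decide +kernel) ?_
    refine jn 1265 (by decide +kernel) ?_
    refine jn 1271 (by decide +kernel) ?_
    refine jn 1276 (by decide +kernel) ?_
    refine jn 1289 (by decide +kernel) ?_
    refine jn 1293 (by decide +kernel) ?_
    refine jn 1297 (by decide +kernel) ?_
    refine jn 1309 (by decide +kernel) ?_
    refine jn 1315 (by decide +kernel) ?_
    refine jn 1317 (by decide +kernel) ?_
    refine jn 1323 (by decide +kernel) ?_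
    refine jn 1324 (by decide +kernel) ?_
    refine jn 1325 (by decide +kernel) ?_
    refine jn 1333 (by decide +kernel) ?_
    refine jn 1336 (by decide +kernel) ?_
    refine jn 1337 (by decide +kernel) ?_
    refine jn 1348 (by decide +kernel) ?_
    refine jn 1356 (by decide +kernel) ?_
    refine jn 1357 (by decide +kernel) ?_
    refine jn 1369 (by decide +kernel) ?_
    refine jn 1375 (by decide +kernel) ?_
    refine jn 1380 (by decide +kernel) ?_
    refine jn 1392 (by decide +kernel) ?_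
    refine jn 1400 (by decide +kernel) ?_
    refine jn 1408 (by decide +kernel) ?_
    refine jn 1409 (by decide +kernel) ?_
    refine jn 1415 (by decide +kernel) ?_
    refine jn 1420 (by decide +kernel) ?_
    refine jn 1423 (by decide +kernel) ?_
    refine jn 1429 (by decide +kernel) ?_
    refine jn 1435 (by decide +kernel) ?_
    refine jn 1448 (by decide +kernel) ?_
    refine jn 1452 (by decide +kernel) ?_
    refine jn 1455 (by decide +kernel) ?_
    refine jn 1468 (by decide +kernel) ?_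
    refine jn 1471 (by decide +kernel) ?_
    refine jn 1475 (by decide +kernel) ?_
    refine jn 1477 (by decide +kernel) ?_
    refine jn 1480 (by decide +kernel) ?_
    refine jn 1489 (by decide +kernel) ?_
    refine jn 1492 (by decide +kernel) ?_
    refine jn 1496 (by decide +kernel) ?_
    refine jn 1589 (by decide +kernel) ?_
    refine jn 1625 (by decide +kernel) ?_
    refine jn 1661 (by decide +kernel) ?_
    refine jn 1714 (by decide +kernel) ?_
    refine jn 1742 (by decide +kernel) ?_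
    refine jn 1773 (by decide +kernel) ?_
    refine jn 1802 (by decide +kernel) ?_
    refine jn 1807 (by decide +kernel) ?_
    refine jn 1821 (by decide +kernel) ?_
    refine jn 1827 (by decide +kernel) ?_
    refine jn 1833 (by decide +kernel) ?_
    refine jn 1838 (by decide +kernel) ?_
    refine jn 1846 (by decide +kernel) ?_
    refine jn 1850 (by decide +kernel) ?_
    refine jn 1853 (by decide +kernel) ?_
    refine jn 1867 (by decide +kernel) ?_
    refine jn 1874 (by decide +kernel) ?_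
    refine jn 1882 (by decide +kernel) ?_
    refine jn 1893 (by decide +kernel) ?_
    refine jn 1901 (by decide +kernel) ?_
    refine jn 1909 (by decide +kernel) ?_
    refine jn 1929 (by decide +kernel) ?_
    refine jn 1931 (by decide +kernel) ?_
    refine jn 1938 (by decide +kernel) ?_
    refine jn 1945 (by decide +kernel) ?_
    refine jn 1954 (by decide +kernel) ?_
    refine jn 1958 (by decide +kernel) ?_
    refine jn 1959 (by decide +kernel) ?_
    refine jn 1974 (by decide +kernel) ?_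
    refine jn 1982 (by decide +kernel) ?_
    refine jn 1991 (by decide +kernel) ?_
    refine jn 1998 (by decide +kernel) ?_
    refine jn 2007 (by decide +kernel) ?_
    refine jn 2011 (by decide +kernel) ?_
    refine jn 2107 (by decide +kernel) ?_
    refine jn 2123 (by decide +kernel) ?_
    refine jn 2143 (by decide +kernel) ?_
    refine jn 2175 (by decide +kernel) ?_
    refine jn 2183 (by decide +kernel) ?_
    refine jn 2199 (by decide +kernel) ?_
    refine jn 2214 (by decide +kernel) ?_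
    refine jn 2235 (by decide +kernel) ?_
    refine jn 2274 (by decide +kernel) ?_
    refine jn 2291 (by decide +kernel) ?_
    refine jn 2314 (by decide +kernel) ?_
    refine jn 2347 (by decide +kernel) ?_
    refine jn 2358 (by decide +kernel) ?_
    refine jn 2379 (by decide +kernel) ?_
    refine jn 2396 (by decide +kernel) ?_
    refine jn 2499 (by decide +kernel) ?_
    refine jn 2524 (by decide +kernel) ?_
    refine jn 2559 (by decide +kernel) ?_
    refine jn 2575 (by decide +kernel) ?_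
    refine jn 2590 (by decide +kernel) ?_
    refine jn 2618 (by decide +kernel) ?_
    refine jn 2656 (by decide +kernel) ?_
    refine jn 2682 (by decide +kernel) ?_
    refine jn 2715 (by decide +kernel) ?_
    refine jn 2739 (by decide +kernel) ?_
    refine jn 2760 (by decide +kernel) ?_
    refine jn 2778 (by decide +kernel) ?_
    refine jn 2802 (by decide +kernel) ?_
    refine jn 2838 (by decide +kernel) ?_
    refine jn 2858 (by decide +kernel) ?_
    refine jn 2890 (by decide +kernel) ?_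
    refine jn 3006 (by decide +kernel) ?_
    refine jn 3062 (by decide +kernel) ?_
    refine jn 3107 (by decide +kernel) ?_
    refine jn 3159 (by decide +kernel) ?_
    refine jn 3195 (by decide +kernel) ?_
    refine jn 3240 (by decide +kernel) ?_
    refine jn 3283 (by decide +kernel) ?_
    refine jn 3335 (by decide +kernel) ?_
    refine jn 3388 (by decide +kernel) ?_
    refine jn 3454 (by decide +kernel) ?_
    refine jn 3491 (by decide +kernel) ?_
    refine jn 3542 (by decide +kernel) ?_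
    refine jn 3582 (by decide +kernel) ?_
    refine jn 3711 (by decide +kernel) ?_
    refine jn 3764 (by decide +kernel) ?_
    refine jn 3815 (by decide +kernel) ?_
    refine jn 3874 (by decide +kernel) ?_
    refine jn 3928 (by decide +kernel) ?_
    refine jn 3987 (by decide +kernel) ?_
    refine jn 4047 (by decide +kernel) ?_
    refine jn 4086 (by decide +kernel) ?_
    refine jn 4146 (by decide +kernel) ?_
    refine jn 4206 (by decide +kernel) ?_
    refine jn 4272 (by decide +kernel) ?_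
    refine jn 4332 (by decide +kernel) ?_
    refine jn 4386 (by decide +kernel) ?_
    refine jn 4451 (by decide +kernel) ?_
    refine jn 4515 (by decide +kernel) ?_
    refine jn 4710 (by decide +kernel) ?_
    refine jn 4837 (by decide +kernel) ?_
    refine jn 4950 (by decide +kernel) ?_
    refine jn 5028 (by decide +kernel) ?_
    refine jn 5109 (by decide +kernel) ?_
    refine jn 5173 (by decide +kernel) ?_
    refine jn 5354 (by decide +kernel) ?_
    refine jn 5468 (by decide +kernel) ?_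
    refine jn 5556 (by decide +kernel) ?_
    refine jn 5630 (by decide +kernel) ?_
    refine jn 5680 (by decide +kernel) ?_
    refine jn 5744 (by decide +kernel) ?_
    refine jn 5792 (by decide +kernel) ?_
    refine jn 5964 (by decide +kernel) ?_
    refine jn 6070 (by decide +kernel) ?_
    refine jn 6171 (by decide +kernel) ?_
    refine jn 6268 (by decide +kernel) ?_
    refine jn 6330 (by decide +kernel) ?_
    refine jn 6393 (by decide +kernel) ?_
    refine jn 6466 (by decide +kernel) ?_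
    refine jn 6739 (by decide +kernel) ?_
    refine jn 6845 (by decide +kernel) ?_
    refine jn 6965 (by decide +kernel) ?_
    refine jn 7060 (by decide +kernel) ?_
    refine jn 7342 (by decide +kernel) ?_
    refine jn 7610 (by decide +kernel) ?_
    exact je (by decide +kernel)
  · refine fin 1008 9934 T62_2 ?_
    refine jn 314 (by decide +kernel) ?_
    refine jn 424 (by decide +kernel) ?_
    refine jn 504 (by decide +kernel) ?_
    refine jn 584 (by decide +kernel) ?_
    refine jn 696 (by decide +kernel) ?_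
    refine jn 784 (by decide +kernel) ?_
    refine jn 874 (by decide +kernel) ?_
    refine jn 926 (by decide +kernel) ?_
    refine jn 974 (by decide +kernel) ?_
    refine jn 1048 (by decide +kernel) ?_
    refine jn 1111 (by decide +kernel) ?_
    refine jn 1179 (by decide +kernel) ?_
    refine jn 1240 (by decide +kernel) ?_
    refine jn 1300 (by decide +kernel) ?_
    refine jn 1356 (by decide +kernel) ?_
    refine jn 1406 (by decide +kernel) ?_
    refine jn 1444 (by decide +kernel) ?_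
    refine jn 1486 (by decide +kernel) ?_
    refine jn 1546 (by decide +kernel) ?_
    refine jn 1584 (by decide +kernel) ?_
    refine jn 1639 (by decide +kernel) ?_
    refine jn 1702 (by decide +kernel) ?_
    refine jn 1740 (by decide +kernel) ?_
    refine jn 1795 (by decide +kernel) ?_
    refine jn 1828 (by decide +kernel) ?_
    refine jn 1876 (by decide +kernel) ?_
    refine jn 1916 (by decide +kernel) ?_
    refine jn 1951 (by decide +kernel) ?_
    refine jn 1989 (by decide +kernel) ?_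
    refine jn 2027 (by decide +kernel) ?_
    refine jn 2149 (by decide +kernel) ?_
    refine jn 2365 (by decide +kernel) ?_
    refine jn 2425 (by decide +kernel) ?_
    refine jn 2500 (by decide +kernel) ?_
    refine jn 2548 (by decide +kernel) ?_
    refine jn 2607 (by decide +kernel) ?_
    refine jn 2635 (by decide +kernel) ?_
    refine jn 2667 (by decide +kernel) ?_
    refine jn 2727 (by decide +kernel) ?_
    refine jn 2771 (by decide +kernel) ?_
    refine jn 2815 (by decide +kernel) ?_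
    refine jn 2845 (by decide +kernel) ?_
    refine jn 2919 (by decide +kernel) ?_
    refine jn 2967 (by decide +kernel) ?_
    refine jn 3003 (by decide +kernel) ?_
    refine jn 3055 (by decide +kernel) ?_
    refine jn 3102 (by decide +kernel) ?_
    refine jn 3133 (by decide +kernel) ?_
    refine jn 3183 (by decide +kernel) ?_
    refine jn 3215 (by decide +kernel) ?_
    refine jn 3247 (by decide +kernel) ?_
    refine jn 3275 (by decide +kernel) ?_
    refine jn 3321 (by decide +kernel) ?_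
    refine jn 3355 (by decide +kernel) ?_
    refine jn 3387 (by decide +kernel) ?_
    refine jn 3415 (by decide +kernel) ?_
    refine jn 3460 (by decide +kernel) ?_
    refine jn 3487 (by decide +kernel) ?_
    refine jn 3517 (by decide +kernel) ?_
    refine jn 3535 (by decide +kernel) ?_
    refine jn 3567 (by decide +kernel) ?_
    refine jn 3597 (by decide +kernel) ?_
    refine jn 3627 (by decide +kernel) ?_
    refine jn 3642 (by decide +kernel) ?_
    refine jn 3668 (by decide +kernel) ?_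
    refine jn 3704 (by decide +kernel) ?_
    refine jn 3736 (by decide +kernel) ?_
    refine jn 3774 (by decide +kernel) ?_
    refine jn 3803 (by decide +kernel) ?_
    refine jn 3837 (by decide +kernel) ?_
    refine jn 3856 (by decide +kernel) ?_
    refine jn 3882 (by decide +kernel) ?_
    refine jn 3921 (by decide +kernel) ?_
    refine jn 3946 (by decide +kernel) ?_
    refine jn 3974 (by decide +kernel) ?_
    refine jn 3998 (by decide +kernel) ?_
    refine jn 4023 (by decide +kernel) ?_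
    refine jn 4037 (by decide +kernel) ?_
    refine jn 4068 (by decide +kernel) ?_
    refine jn 4086 (by decide +kernel) ?_
    refine jn 4099 (by decide +kernel) ?_
    refine jn 4414 (by decide +kernel) ?_
    refine jn 4507 (by decide +kernel) ?_
    refine jn 4566 (by decide +kernel) ?_
    refine jn 4630 (by decide +kernel) ?_
    refine jn 4678 (by decide +kernel) ?_
    refine jn 4742 (by decide +kernel) ?_
    refine jn 4800 (by decide +kernel) ?_
    refine jn 4868 (by decide +kernel) ?_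
    refine jn 4894 (by decide +kernel) ?_
    refine jn 4960 (by decide +kernel) ?_
    refine jn 5018 (by decide +kernel) ?_
    refine jn 5078 (by decide +kernel) ?_
    refine jn 5122 (by decide +kernel) ?_
    refine jn 5191 (by decide +kernel) ?_
    refine jn 5248 (by decide +kernel) ?_
    refine jn 5278 (by decide +kernel) ?_
    refine jn 5318 (by decide +kernel) ?_
    refine jn 5385 (by decide +kernel) ?_
    refine jn 5440 (by decide +kernel) ?_
    refine jn 5493 (by decide +kernel) ?_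
    refine jn 5539 (by decide +kernel) ?_
    refine jn 5578 (by decide +kernel) ?_
    refine jn 5622 (by decide +kernel) ?_
    refine jn 5674 (by decide +kernel) ?_
    refine jn 5696 (by decide +kernel) ?_
    refine jn 5731 (by decide +kernel) ?_
    refine jn 5779 (by decide +kernel) ?_
    refine jn 5818 (by decide +kernel) ?_
    refine jn 5856 (by decide +kernel) ?_
    refine jn 5893 (by decide +kernel) ?_
    refine jn 5926 (by decide +kernel) ?_
    refine jn 5970 (by decide +kernel) ?_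
    refine jn 6018 (by decide +kernel) ?_
    refine jn 6065 (by decide +kernel) ?_
    refine jn 6103 (by decide +kernel) ?_
    refine jn 6130 (by decide +kernel) ?_
    refine jn 6148 (by decide +kernel) ?_
    refine jn 6502 (by decide +kernel) ?_
    refine jn 6560 (by decide +kernel) ?_
    refine jn 6664 (by decide +kernel) ?_
    refine jn 6722 (by decide +kernel) ?_
    refine jn 6794 (by decide +kernel) ?_
    refine jn 6840 (by decide +kernel) ?_
    refine jn 6880 (by decide +kernel) ?_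
    refine jn 6928 (by decide +kernel) ?_
    refine jn 7012 (by decide +kernel) ?_
    refine jn 7065 (by decide +kernel) ?_
    refine jn 7130 (by decide +kernel) ?_
    refine jn 7174 (by decide +kernel) ?_
    refine jn 7232 (by decide +kernel) ?_
    refine jn 7300 (by decide +kernel) ?_
    refine jn 7330 (by decide +kernel) ?_
    refine jn 7378 (by decide +kernel) ?_
    refine jn 7438 (by decide +kernel) ?_
    refine jn 7492 (by decide +kernel) ?_
    refine jn 7522 (by decide +kernel) ?_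
    refine jn 7588 (by decide +kernel) ?_
    refine jn 7640 (by decide +kernel) ?_
    refine jn 7691 (by decide +kernel) ?_
    refine jn 7738 (by decide +kernel) ?_
    refine jn 8131 (by decide +kernel) ?_
    refine jn 8270 (by decide +kernel) ?_
    refine jn 8324 (by decide +kernel) ?_
    refine jn 8464 (by decide +kernel) ?_
    refine jn 8518 (by decide +kernel) ?_
    refine jn 8608 (by decide +kernel) ?_
    refine jn 8682 (by decide +kernel) ?_
    refine jn 8720 (by decide +kernel) ?_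
    refine jn 8790 (by decide +kernel) ?_
    refine jn 8844 (by decide +kernel) ?_
    refine jn 8942 (by decide +kernel) ?_
    refine jn 8982 (by decide +kernel) ?_
    refine jn 9065 (by decide +kernel) ?_
    refine jn 9140 (by decide +kernel) ?_
    refine jn 9213 (by decide +kernel) ?_
    refine jn 9264 (by decide +kernel) ?_
    refine jn 9332 (by decide +kernel) ?_
    refine jn 9378 (by decide +kernel) ?_
    refine jn 9417 (by decide +kernel) ?_
    exact je (by decide +kernel)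

end Pool.Agent.MP_2339ce_nt.NR
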