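import Pool.Agent.MP_2339ce_nt.Q2.NC.L7
import Pool.Agent.MP_2339ce_nt.Q2.NC.L10
import Pool.Agent.MP_2339ce_nt.Q2.CkI

/-! Block NR: runs. -/

set_option autoImplicit false
set_option maxRecDepth 100000

noncomputable section

namespace Pool.Agent.MP_2339ce_nt.NR

open Q2.Top

def T63_0 : Ph :=
  (.na 240 20 (.na 173 18 (.na 96 17 (.nx 95 2642247 (.nr 94 1246976 (.nr 1 5 .s1 (.nx 89 660563
  (.nx 3 240 (.nr 2 186 (.lg 0 true 1 37 37 11 0 720) (.l1 .sk)) (.nx 4 241 (.l1 .sk) (.nx 5 324
  (.l1 (.ls 89 41 2933)) (.nr 88 1048577 (.nx 6 408 (.l1 (.ls 89 41 3846)) (.nr 87 741457 (.nr 83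
  311745 (.nr 53 185365 (.nr 27 65537 (.nx 13 41285 (.lg 0 false 7 89 89 19 0 5040) (.nr 20 1677
  (.lg 0 true 7 83 89 19 0 5040) (.lg 2 true 7 79 79 19 47268 1680))) (.nx 52 524289 (.nx 40 330282
  (.lg 0 true 13 101 107 23 0 720720) (.nr 51 92683 (.nr 47 77937 (.lg 0 true 7 97 103 19 0 720720)
  (.nx 50 416129 (.lg 0 true 3 101 103 13 0 720720) .out)) .out)) .out)) (.nx 82 262145 (.nx 57
  20642 (.nx 56 13005 (.lg 0 false 3 101 103 13 0 720720) .out) (.nr 73 262145 (.nr 64 220437 (.lg
  0 true 7 101 107 19 0 720720) (.nx 65 41285 .out (.nx 72 208065 (.lg 0 true 7 101 107 19 0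
  720720) .out))) (.nx 74 82570 .out (.nx 81 165142 (.lg 0 true 7 97 107 19 0 720720) .out))))
  .out)) (.nx 86 1627 (.lg 0 false 3 83 89 13 0 720) .out)) .out)) .out)))) (.nr 93 129 (.lg 0 true
  4 73 73 13 0 240) .out))) .out) .out) (.nx 172 2642247 (.nr 171 1246976 (.nr 97 8 .s1 (.nx 100
  241 (.nx 99 240 (.nr 98 197 (.lg 0 true 1 31 31 11 0 720) (.l1 .sk)) (.l1 .sk)) (.nx 101 408 (.l1
  (.ls 83 41 6378)) (.nr 170 741457 (.nr 154 220437 (.nr 140 92683 (.nx 132 660563 (.nr 108 1726
  (.lg 0 true 7 79 79 16 0 1680) (.nx 131 524289 (.nr 118 30068 (.nx 111 28801 (.lg 0 true 3 89 89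
  16 0 720) (.lg 2 false 7 73 73 16 36452 1680)) (.lg 0 true 13 101 103 16 0 9360)) .out)) (.nr 139
  129 (.lg 0 true 7 73 73 16 0 1680) .out)) (.nx 153 262145 (.lg 0 true 13 103 109 16 0 720720)
  .out)) (.nx 169 13005 (.nr 161 311745 (.lg 0 false 7 83 89 16 0 5040) (.nx 168 1627 (.lg 0 false
  7 79 83 16 0 5040) .out)) .out)) .out)))) .out) .out)) (.na 174 19 (.lg 0 false 1 0 0 7 0 24)
  (.nx 239 2642247 (.nr 238 1246976 (.nr 175 12 .s1 (.nx 178 241 (.nx 177 240 (.nr 176 219 (.lg 0
  false 1 31 31 11 0 720) (.l1 .sk)) (.l1 .sk)) (.nx 179 408 (.l1 (.ls 83 41 5707)) (.nr 237 741457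
  (.nx 229 660563 (.nr 186 1726 (.lg 0 true 7 79 79 16 0 1680) (.nx 228 524289 (.nr 196 30068 (.nx
  189 28801 (.lg 0 false 3 89 89 16 0 720) (.lg 2 false 7 73 73 16 36452 1680)) (.nr 207 92683 (.lg
  0 true 11 101 101 16 0 7920) (.nx 227 262145 (.nr 218 220437 (.lg 0 true 11 103 107 16 0 720720)
  (.nx 226 13005 (.nr 221 311745 (.lg 0 false 3 89 89 16 0 720) (.nx 225 1627 (.lg 0 false 4 79 79
  16 0 240) .out)) .out)) .out))) .out)) (.nr 236 129 (.lg 0 true 7 71 71 16 0 1680) .out))
  .out)))) .out) .out))) (.na 366 24 (.na 294 23 (.nx 293 2642247 (.nr 292 1246976 (.nr 241 13 .s1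
  (.nx 244 241 (.nx 243 240 (.nr 242 252 (.lg 0 false 1 29 29 13 0 720) (.l1 .sk)) (.l1 .sk)) (.nx
  245 408 (.l1 (.ls 79 47 5422)) (.nr 291 741457 (.nr 286 311745 (.nx 278 660563 (.nr 274 220437
  (.nx 252 55676 (.lg 0 false 7 89 97 19 0 5040) (.nr 259 1726 (.lg 0 true 7 73 79 19 0 1680) (.nx
  273 524289 (.nx 266 107630 (.lg 1 false 7 89 97 19 114153 5040) (.lg 2 false 7 97 101 19 59050
  5040)) .out))) (.nx 277 13005 (.lg 0 false 3 83 83 13 0 720) .out)) (.nr 285 129 (.lg 0 true 7 67
  67 19 0 1680) .out)) (.nx 290 1627 (.lg 0 false 4 73 73 17 0 240) .out)) .out)))) .out) .out)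
  (.nx 365 2642247 (.nr 364 1048577 (.nr 295 18 .s1 (.nx 311 16385 (.nx 299 408 (.nx 297 240 (.nr
  296 263 (.lg 0 false 1 31 31 11 0 720) (.l1 .sk)) (.nx 298 241 (.l1 .sk) (.l1 (.ls 83 41 4715))))
  (.nr 310 741457 (.nr 306 524289 (.lg 0 false 7 97 97 16 0 5040) (.nx 309 2582 (.lg 0 false 3 83
  83 16 0 720) .out)) .out)) (.nr 363 185365 (.nr 325 1753 (.nx 318 660563 (.lg 0 true 7 79 79 16 0
  1680) (.nr 324 129 (.lg 0 true 6 71 71 16 0 720) .out)) (.nx 362 524289 (.nr 331 30184 (.nx 327
  28801 (.lg 0 true 2 79 79 13 0 240) (.lg 2 false 4 73 73 16 35890 240)) (.nx 338 82572 (.lg 0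
  false 7 97 103 16 0 5040) (.nr 361 131073 (.nr 345 77937 (.lg 2 true 7 73 73 16 27268 1680) (.nx
  360 416129 (.nr 352 92683 (.lg 0 true 7 89 101 16 0 5040) (.nx 359 165142 (.lg 0 true 7 89 97 16
  0 5040) .out)) .out)) .out))) .out)) .out))) .out) .out)) (.na 415 25 (.nx 414 2642247 (.nr 413
  1048577 (.nr 367 19 .s1 (.nx 370 241 (.nx 369 240 (.nr 368 274 (.lg 0 true 1 23 23 13 0 720) (.l1
  .sk)) (.l1 .sk)) (.nx 371 408 (.l1 (.ls 79 47 4518)) (.nr 412 741457 (.nx 390 82572 (.nr 382
  185365 (.lg 0 false 11 83 97 23 0 7920) (.nx 389 16385 (.lg 0 false 7 89 97 23 0 5040) .out))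
  (.nr 411 131073 (.nr 403 1801 (.nx 397 660563 (.lg 0 true 7 73 79 23 0 5040) (.nr 402 129 (.lg 0
  true 5 67 67 19 0 720) .out)) (.nx 410 524289 (.lg 2 false 7 83 89 23 45801 5040) .out)) .out))
  .out)))) .out) .out) (.na 416 27 (.lg 0 false 1 0 0 7 0 24) (.lg 0 false 1 0 0 7 0 24)))))

def T63_1 : Ph :=
  (.na 465 44 (.na 290 27 (.na 192 19 (.na 107 17 (.na 59 16 (.nx 58 1664512 (.nr 57 623489 (.nr 1
  5 .s1 (.nx 17 10323 (.nx 3 128 (.nr 2 128 (.lg 0 true 1 37 37 13 0 7920) (.l1 .sk)) (.nx 4 129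
  (.l1 .sk) (.nr 11 155873 (.lg 0 false 7 89 97 23 0 55440) (.nx 16 1292 (.lg 0 false 5 83 97 19 0
  7920) .out)))) (.nr 56 110219 (.nr 48 77937 (.nr 36 46342 (.nx 30 524289 (.nr 22 829 (.lg 0 true
  5 83 83 19 0 720) (.nx 29 416129 (.lg 2 true 7 83 83 23 36879 1008) .out)) (.nr 35 65 (.lg 0 true
  5 71 73 19 0 720) .out)) (.nx 47 208065 (.nx 43 131073 (.lg 0 true 7 101 107 23 0 720720) (.nr 46
  55110 (.lg 0 true 3 101 103 19 0 720720) .out)) .out)) (.nx 55 82572 (.lg 0 true 7 97 107 23 0
  720720) .out)) .out))) .out) .out) (.nx 106 1664512 (.nr 105 1048577 (.nr 60 12 .s1 (.nx 99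
  524289 (.nx 63 129 (.nx 62 128 (.nr 61 136 (.lg 0 true 1 29 29 11 0 144) (.l1 .sk)) (.l1 .sk))
  (.nx 77 13005 (.nr 74 623489 (.nr 68 220437 (.lg 0 false 5 89 89 17 0 720) (.nx 73 1627 (.lg 0
  false 5 79 83 17 0 720) .out)) (.nx 76 257 (.lg 0 false 2 71 71 13 0 144) .out)) (.nr 98 110219
  (.nr 82 829 (.lg 0 true 5 73 73 17 0 720) (.nx 97 416129 (.nx 87 29194 (.lg 1 false 5 89 101 17
  69512 55440) (.nr 88 3171 (.lg 2 false 1 79 79 11 32126 144) (.nx 93 82572 (.lg 1 true 5 89 101
  17 30965 55440) (.nr 96 77937 (.lg 2 false 3 83 89 13 8399 1008) .out)))) .out)) .out))) (.nr 104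
  129 (.lg 0 true 5 71 71 17 0 720) .out))) .out) .out)) (.na 144 18 (.nx 143 1664512 (.nr 142
  1048577 (.nr 108 13 .s1 (.nx 111 129 (.nx 110 128 (.nr 109 144 (.lg 0 false 1 23 23 11 0 720)
  (.l1 .sk)) (.l1 .sk)) (.nx 112 257 (.l1 (.ls 83 37 2909)) (.nr 141 623489 (.nx 125 23171 (.nr 119
  220437 (.lg 0 false 7 97 101 16 0 5040) (.nx 124 1627 (.lg 0 false 5 79 83 16 0 720) .out)) (.nr
  140 92683 (.nr 132 634 (.lg 0 true 7 79 79 16 0 1008) (.nx 139 262145 (.lg 2 false 7 89 97 16
  32814 5040) .out)) .out)) .out)))) .out) .out) (.nx 191 1664512 (.nr 190 1048577 (.nr 145 15 .s1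
  (.nx 148 129 (.nx 147 128 (.nr 146 152 (.l1 (.ls 23 37 913)) (.l1 .sk)) (.l1 .sk)) (.nx 149 257
  (.l1 (.ls 79 43 2747)) (.nr 189 623489 (.nx 158 8193 (.nx 150 647 (.l1 (.ls 83 59 19589)) (.nr
  157 370729 (.lg 0 false 7 89 89 19 0 5040) .out)) (.nr 188 155873 (.nr 185 92683 (.nr 173 46342
  (.nr 165 634 (.lg 0 true 7 79 79 19 0 1008) (.nx 172 262145 (.lg 2 false 7 73 73 19 46468 1008)
  .out)) (.nx 184 165142 (.nx 180 82572 (.lg 0 true 7 89 101 19 0 55440) (.nr 183 55110 (.lg 0 true
  3 83 83 13 0 720) .out)) .out)) (.nx 187 13005 (.lg 0 false 2 79 79 13 0 144) .out)) .out))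
  .out)))) .out) .out))) (.na 258 23 (.na 223 22 (.nx 222 1664512 (.nr 221 1048577 (.nr 193 16 .s1
  (.nx 209 23171 (.nx 197 257 (.nx 195 128 (.nr 194 176 (.lg 0 true 1 23 23 11 0 144) (.l1 .sk))
  (.nx 196 129 (.l1 .sk) (.l1 (.ls 83 37 2603)))) (.nr 208 623489 (.nr 202 220437 (.lg 0 false 5 97
  97 16 0 720) (.nx 207 1627 (.lg 0 false 5 79 79 16 0 720) .out)) .out)) (.nr 220 92683 (.nr 214
  634 (.lg 0 true 5 79 79 16 0 720) (.nx 219 262145 (.lg 2 false 5 97 101 16 32814 5040) .out))
  .out))) .out) .out) (.nx 257 1664512 (.nr 256 1048577 (.nr 224 19 .s1 (.nx 227 129 (.nx 226 128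
  (.nr 225 185 (.lg 0 true 1 23 23 9 0 7920) (.l1 .sk)) (.l1 .sk)) (.nx 240 23171 (.nx 228 257 (.l1
  (.ls 79 41 2248)) (.nr 239 623489 (.nr 235 220437 (.lg 0 false 7 89 97 19 0 55440) (.nx 238 1627
  (.lg 0 false 3 79 79 13 0 1584) .out)) .out)) (.nr 255 92683 (.nr 247 634 (.lg 0 true 7 79 79 19
  0 11088) (.nx 254 262145 (.lg 2 false 7 89 97 19 32814 55440) .out)) .out)))) .out) .out)) (.na
  259 24 .ne (.nx 289 1664512 (.nr 288 1048577 (.nr 260 22 .s1 (.nx 263 129 (.nx 262 128 (.nr 261
  217 (.l1 (.ls 23 37 685)) (.l1 .sk)) (.l1 .sk)) (.nx 276 41287 (.nx 264 257 (.l1 (.ls 79 43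
  2061)) (.nr 275 311745 (.nr 269 110219 (.lg 0 false 5 83 89 23 0 720) (.nx 274 8193 (.lg 0 false
  5 79 89 23 0 720) .out)) .out)) (.nr 287 65537 (.nx 281 208065 (.nr 278 1307 (.lg 0 true 2 73 73
  19 0 144) (.nx 280 165142 (.lg 2 false 2 83 83 19 13030 144) .out)) (.nr 286 217 (.lg 0 true 5 71
  71 23 0 720) .out)) .out)))) .out) .out)))) (.na 383 36 (.na 339 33 (.na 317 32 (.nx 316 1664512
  (.nr 315 1048577 (.nr 291 25 .s1 (.nx 293 128 (.nr 292 257 (.l1 (.ls 19 29 609)) (.l1 .sk)) (.nx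
  294 129 (.l1 .sk) (.nx 295 257 (.l1 (.ls 73 31 1832)) (.nr 314 311745 (.nx 302 20644 (.lg 0 false
  7 83 89 17 0 5040) (.nr 313 77937 (.nr 309 513 (.lg 0 true 7 71 71 17 0 1008) (.nx 312 165142
  (.lg 2 false 3 83 89 16 30979 720) .out)) .out)) .out))))) .out) .out) (.nx 338 1664512 (.nr 337
  1048577 (.nr 318 30 .s1 (.nx 326 10323 (.nx 322 257 (.nx 320 128 (.nr 319 265 (.l1 (.ls 29 29
  514)) (.l1 .sk)) (.nx 321 129 (.l1 .sk) (.l1 (.ls 83 37 1547)))) (.nr 325 440873 (.lg 0 false 3
  89 97 19 0 7920) .out)) (.nr 336 110219 (.nx 328 20644 (.lg 1 false 2 89 89 13 87573 7920) (.nr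
  335 77937 (.nr 331 513 (.lg 0 true 3 73 73 19 0 144) (.nx 334 165142 (.lg 2 false 3 89 97 19
  30979 7920) .out)) .out)) .out))) .out) .out)) (.na 364 34 (.nx 363 1664512 (.nr 362 881745 (.nr
  340 32 .s1 (.nx 358 104033 (.nx 343 129 (.nx 342 128 (.nr 341 273 (.l1 (.ls 31 29 499)) (.l1
  .sk)) (.l1 .sk)) (.nx 344 257 (.l1 (.ls 83 37 1500)) (.nr 357 440873 (.nx 349 10323 (.lg 0 false
  5 89 89 19 0 7920) (.nr 356 110219 (.nr 351 12577 (.lg 0 false 2 83 83 17 0 7920) (.nr 353 32769
  (.lg 2 false 2 73 73 17 26108 1584) (.nx 355 26009 (.lg 0 false 2 89 97 17 0 7920) .out))) .out))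
  .out))) (.nr 361 257 (.lg 0 true 3 73 73 19 0 1584) .out))) .out) .out) (.nx 382 1664512 (.nr 381
  881745 (.nr 365 33 .s1 (.nx 372 20644 (.nx 366 257 (.l1 (.ls 73 41 1945)) (.nr 371 440873 (.lg 0
  false 5 89 89 13 0 720) .out)) (.nr 380 46342 (.nr 377 289 (.lg 0 true 5 67 67 13 0 720) (.nx 379
  104033 (.lg 2 true 2 83 83 13 23039 144) .out)) .out))) .out) .out))) (.na 427 41 (.na 406 38
  (.nx 405 1664512 (.nr 404 881745 (.nr 384 35 .s1 (.nx 388 257 (.nx 386 128 (.nr 385 305 (.l1 (.ls
  23 31 458)) (.l1 .sk)) (.nx 387 129 (.l1 .sk) (.l1 (.ls 73 41 1375)))) (.nr 403 440873 (.nx 393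
  10323 (.lg 0 false 5 79 83 29 0 720) (.nr 402 110219 (.nr 400 32769 (.nr 398 257 (.lg 0 true 5 67
  67 29 0 720) (.nx 399 104033 (.lg 2 true 1 83 83 19 26108 144) .out)) (.nx 401 26009 (.lg 0 false
  1 83 83 19 0 144) .out)) .out)) .out))) .out) .out) (.nx 426 1664512 (.nr 425 881745 (.nr 407 37
  .s1 (.nx 408 257 (.l1 (.ls 79 41 1741)) (.nr 424 440873 (.nx 415 20644 (.lg 0 false 7 89 97 17 0
  5040) (.nr 423 46342 (.nr 420 329 (.lg 0 true 5 71 71 17 0 720) (.nx 422 104033 (.lg 2 false 2 79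
  79 13 20238 144) .out)) .out)) .out))) .out) .out)) (.na 446 43 (.nx 445 1664512 (.nr 444 881745
  (.nr 428 40 .s1 (.nx 435 20644 (.nx 429 257 (.l1 (.ls 73 29 1613)) (.nr 434 440873 (.lg 0 false 5
  83 89 16 0 720) .out)) (.nr 443 46342 (.nr 440 345 (.lg 0 true 5 67 67 16 0 720) (.nx 442 104033
  (.lg 2 false 2 79 79 16 19299 144) .out)) .out))) .out) .out) (.nx 464 1664512 (.nr 463 881745
  (.nr 447 42 .s1 (.nx 456 20644 (.nx 448 257 (.l1 (.ls 79 29 1539)) (.nr 455 440873 (.lg 0 false 7
  89 97 16 0 55440) .out)) (.nr 462 46342 (.nr 459 353 (.lg 0 true 3 67 67 16 0 144) (.nx 461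
  104033 (.lg 2 false 2 79 79 16 18862 144) .out)) .out))) .out) .out))))) (.na 583 65 (.na 518 54
  (.na 485 48 (.na 484 46 (.nx 483 1664512 (.nr 482 881745 (.nr 466 43 .s1 (.nx 470 257 (.nx 468
  128 (.nr 467 369 (.l1 (.ls 29 31 375)) (.l1 .sk)) (.nx 469 129 (.l1 .sk) (.l1 (.ls 79 37 1125))))
  (.nr 481 440873 (.nx 475 20644 (.lg 0 false 5 89 97 29 0 55440) (.nr 480 46342 (.nr 478 369 (.lg
  0 true 3 71 71 23 0 1584) (.nx 479 104033 (.lg 2 true 1 83 83 19 18441 1584) .out)) .out))
  .out))) .out) .out) .ne) (.na 503 51 (.nx 502 1664512 (.nr 501 881745 (.nr 486 47 .s1 (.nx 489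
  129 (.nx 488 128 (.nr 487 409 (.l1 (.ls 31 31 344)) (.l1 .sk)) (.l1 .sk)) (.nx 498 104033 (.nx
  495 26009 (.nx 490 257 (.l1 (.ls 83 41 1032)) (.nr 494 623489 (.nx 492 13005 (.lg 0 false 2 97
  101 29 0 7920) (.nr 493 110219 (.lg 1 false 1 83 89 23 69512 720) .out)) .out)) (.nr 497 32769
  (.nr 496 3660 (.lg 0 true 1 79 79 23 0 720) (.lg 2 false 1 79 83 23 10362 720)) .out)) (.nr 500
  257 (.lg 0 true 2 71 71 29 0 144) .out)))) .out) .out) (.nx 517 1664512 (.nr 516 881745 (.nr 504
  50 .s1 (.nx 505 257 (.l1 (.ls 79 37 1298)) (.nr 515 623489 (.nx 510 20644 (.lg 0 false 5 89 97 23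
  0 720) (.nr 514 46342 (.nr 512 433 (.lg 0 true 2 73 73 16 0 144) (.nx 513 104033 (.lg 2 true 1 83
  83 16 18441 144) .out)) .out)) .out))) .out) .out))) (.na 548 59 (.na 534 57 (.nx 533 1664512
  (.nr 532 881745 (.nr 519 53 .s1 (.nx 526 20644 (.nx 520 257 (.l1 (.ls 71 41 1226)) (.nr 525
  623489 (.lg 0 false 5 83 83 23 0 720) .out)) (.nr 531 46342 (.nr 529 457 (.lg 0 true 3 61 61 23 0
  144) (.nx 530 104033 (.lg 2 true 1 79 79 19 18441 144) .out)) .out))) .out) .out) (.nx 547
  1664512 (.nr 546 881745 (.nr 535 56 .s1 (.nx 536 257 (.l1 (.ls 79 37 1161)) (.nr 545 623489 (.nx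
  538 13005 (.lg 0 false 2 97 97 17 0 720) (.nr 544 110219 (.nr 540 257 (.lg 0 true 2 71 71 17 0
  144) (.nx 543 104033 (.nr 541 32769 (.lg 2 true 1 83 83 16 25908 144) (.nx 542 26009 (.lg 0 false
  1 83 83 16 0 720) .out)) .out)) .out)) .out))) .out) .out)) (.na 563 64 (.nx 562 1664512 (.nr 561
  881745 (.nr 549 58 .s1 (.nx 550 257 (.l1 (.ls 73 23 1122)) (.nr 560 623489 (.nx 555 20644 (.lg 0
  false 5 89 89 16 0 720) (.nr 559 46342 (.nr 557 257 (.lg 0 true 2 61 61 16 0 144) (.nx 558 104033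
  (.lg 2 true 1 83 83 16 25908 144) .out)) .out)) .out))) .out) .out) (.nx 582 1664512 (.nr 581
  881745 (.nr 564 63 .s1 (.nx 568 257 (.nx 566 128 (.nr 565 521 (.l1 (.ls 29 23 258)) (.l1 .sk))
  (.nx 567 129 (.l1 .sk) (.l1 (.ls 73 31 775)))) (.nr 580 623489 (.nx 575 26009 (.nx 573 13005 (.lg
  0 false 5 79 89 29 0 720) (.nr 574 110219 (.lg 1 false 1 79 79 19 69512 144) .out)) (.nr 579
  32769 (.nr 577 521 (.lg 0 true 2 71 71 23 0 144) (.nx 578 104033 (.lg 1 true 1 79 83 19 12780
  144) .out)) .out)) .out))) .out) .out)))) (.na 631 72 (.na 600 67 (.na 584 66 .ne (.nx 599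
  1664512 (.nr 598 524289 (.nr 585 66 .s1 (.nx 587 128 (.nr 586 537 (.l1 (.ls 29 37 251)) (.l1
  .sk)) (.nx 588 129 (.l1 .sk) (.nx 593 20644 (.lg 0 false 5 83 89 37 0 7920) (.nr 597 32769 (.nr
  595 513 (.lg 0 true 2 71 71 29 0 1584) (.nx 596 104033 (.lg 2 true 1 73 73 29 13055 1584) .out))
  .out))))) .out) .out)) (.na 615 68 (.nx 614 1664512 (.nr 613 524289 (.nr 601 67 .s1 (.nx 604 129
  (.nx 603 128 (.nr 602 545 (.l1 (.ls 19 17 247)) (.l1 .sk)) (.l1 .sk)) (.nx 607 20644 (.lg 0 false
  3 89 89 16 0 144) (.nr 612 32769 (.nr 610 513 (.lg 0 true 3 61 61 16 0 144) (.nx 611 104033 (.lg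
  2 true 1 73 73 16 13055 144) .out)) .out)))) .out) .out) (.nx 630 1664512 (.nr 629 524289 (.nr
  616 68 .s1 (.nx 618 128 (.nr 617 578 (.l1 (.ls 16 29 243)) (.l1 .sk)) (.nx 619 129 (.l1 .sk) (.nx
  622 13005 (.lg 0 false 3 83 89 29 0 720) (.nr 628 65537 (.nx 623 20644 (.lg 1 false 1 73 73 13
  41365 144) (.nr 627 32769 (.nr 625 513 (.lg 0 true 2 73 73 23 0 144) (.nx 626 104033 (.lg 2 true
  1 73 73 13 13055 144) .out)) .out)) .out))))) .out) .out))) (.na 661 76 (.na 646 73 (.nx 645
  1664512 (.nr 644 524289 (.nr 632 72 .s1 (.nx 639 20644 (.nx 637 13005 (.nx 634 128 (.nr 633 586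
  (.l1 (.ls 29 29 230)) (.l1 .sk)) (.nx 635 129 (.l1 .sk) (.lg 0 false 2 89 89 29 0 720))) (.nr 638
  65537 (.lg 1 false 1 73 73 23 41365 720) .out)) (.nr 643 32769 (.nr 641 513 (.lg 0 true 2 71 71
  29 0 144) (.nx 642 104033 (.lg 2 false 1 73 73 23 13055 144) .out)) .out))) .out) .out) (.nx 660
  1664512 (.nr 659 524289 (.nr 647 73 .s1 (.nx 653 20644 (.nx 649 128 (.nr 648 610 (.l1 (.ls 19 17
  227)) (.l1 .sk)) (.nx 650 129 (.l1 .sk) (.lg 0 false 3 89 89 16 0 720))) (.nr 658 32769 (.nr 656
  513 (.lg 0 true 3 61 61 16 0 144) (.nx 657 104033 (.lg 2 true 1 73 73 16 13055 144) .out))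
  .out))) .out) .out)) (.na 677 81 (.nx 676 1664512 (.nr 675 524289 (.nr 662 76 .s1 (.nx 665 129
  (.nx 664 128 (.nr 663 650 (.l1 (.ls 17 29 218)) (.l1 .sk)) (.l1 .sk)) (.nx 670 20644 (.lg 0 false
  5 83 89 31 0 7920) (.nr 674 32769 (.nr 672 513 (.lg 0 true 2 71 71 23 0 144) (.nx 673 104033 (.lg
  2 true 1 73 73 17 13055 144) .out)) .out)))) .out) .out) (.na 694 82 (.nx 693 1664512 (.nr 692
  524289 (.nr 678 81 .s1 (.nx 686 20644 (.nx 680 128 (.nr 679 658 (.l1 (.ls 17 19 205)) (.l1 .sk))
  (.nx 681 129 (.l1 .sk) (.lg 0 false 5 79 79 19 0 720))) (.nr 691 32769 (.nr 689 513 (.lg 0 true 3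
  59 59 17 0 144) (.nx 690 104033 (.lg 2 true 1 67 67 16 13055 144) .out)) .out))) .out) .out) (.nx
  708 1664512 (.nr 707 524289 (.nr 695 82 .s1 (.nx 698 129 (.nx 697 128 (.nr 696 666 (.l1 (.ls 19
  23 202)) (.l1 .sk)) (.l1 .sk)) (.nx 701 20644 (.lg 0 false 3 83 83 19 0 720) (.nr 706 32769 (.nr
  704 513 (.lg 0 true 3 67 67 19 0 144) (.nx 705 104033 (.lg 2 true 1 71 71 13 13055 144) .out))
  .out)))) .out) .out)))))))

theorem c63 :
    OkQ ckI L10 240 16 30 0 34359738368 1 1099511627776 ∧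
    OkQ ckI L7 128 12 83 0 34359738368 1 1099511627776 := by
  refine ⟨?_, ?_⟩
  · refine fin 240 417 T63_0 ?_
    refine jn 4 (by decide +kernel) ?_
    refine jn 5 (by decide +kernel) ?_
    refine jn 6 (by decide +kernel) ?_
    refine jn 7 (by decide +kernel) ?_
    refine jn 8 (by decide +kernel) ?_
    refine jn 9 (by decide +kernel) ?_
    refine jn 10 (by decide +kernel) ?_
    refine jn 11 (by decide +kernel) ?_
    refine jn 12 (by decide +kernel) ?_
    refine jn 13 (by decide +kernel) ?_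
    refine jn 15 (by decide +kernel) ?_
    refine jn 16 (by decide +kernel) ?_
    refine jn 17 (by decide +kernel) ?_
    refine jn 18 (by decide +kernel) ?_
    refine jn 19 (by decide +kernel) ?_
    refine jn 20 (by decide +kernel) ?_
    refine jn 21 (by decide +kernel) ?_
    refine jn 22 (by decide +kernel) ?_
    refine jn 23 (by decide +kernel) ?_
    refine jn 24 (by decide +kernel) ?_
    refine jn 25 (by decide +kernel) ?_
    refine jn 26 (by decide +kernel) ?_
    refine jn 27 (by decide +kernel) ?_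
    refine jn 28 (by decide +kernel) ?_
    refine jn 29 (by decide +kernel) ?_
    refine jn 30 (by decide +kernel) ?_
    refine jn 31 (by decide +kernel) ?_
    refine jn 32 (by decide +kernel) ?_
    refine jn 33 (by decide +kernel) ?_
    refine jn 34 (by decide +kernel) ?_
    refine jn 35 (by decide +kernel) ?_
    refine jn 36 (by decide +kernel) ?_
    refine jn 37 (by decide +kernel) ?_
    refine jn 38 (by decide +kernel) ?_
    refine jn 39 (by decide +kernel) ?_
    refine jn 40 (by decide +kernel) ?_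
    refine jn 46 (by decide +kernel) ?_
    refine jn 50 (by decide +kernel) ?_
    refine jn 56 (by decide +kernel) ?_
    refine jn 60 (by decide +kernel) ?_
    refine jn 63 (by decide +kernel) ?_
    refine jn 65 (by decide +kernel) ?_
    refine jn 69 (by decide +kernel) ?_
    refine jn 72 (by decide +kernel) ?_
    refine jn 79 (by decide +kernel) ?_
    refine jn 86 (by decide +kernel) ?_
    refine jn 92 (by decide +kernel) ?_
    refine jn 94 (by decide +kernel) ?_
    refine jn 101 (by decide +kernel) ?_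
    refine jn 102 (by decide +kernel) ?_
    refine jn 103 (by decide +kernel) ?_
    refine jn 105 (by decide +kernel) ?_
    refine jn 107 (by decide +kernel) ?_
    refine jn 108 (by decide +kernel) ?_
    refine jn 111 (by decide +kernel) ?_
    refine jn 112 (by decide +kernel) ?_
    refine jn 113 (by decide +kernel) ?_
    refine jn 114 (by decide +kernel) ?_
    refine jn 115 (by decide +kernel) ?_
    refine jn 116 (by decide +kernel) ?_
    refine jn 117 (by decide +kernel) ?_
    refine jn 118 (by decide +kernel) ?_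
    refine jn 119 (by decide +kernel) ?_
    refine jn 120 (by decide +kernel) ?_
    refine jn 121 (by decide +kernel) ?_
    refine jn 122 (by decide +kernel) ?_
    refine jn 123 (by decide +kernel) ?_
    refine jn 124 (by decide +kernel) ?_
    refine jn 125 (by decide +kernel) ?_
    refine jn 126 (by decide +kernel) ?_
    refine jn 127 (by decide +kernel) ?_
    refine jn 128 (by decide +kernel) ?_
    refine jn 129 (by decide +kernel) ?_
    refine jn 130 (by decide +kernel) ?_
    refine jn 131 (by decide +kernel) ?_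
    refine jn 139 (by decide +kernel) ?_
    refine jn 149 (by decide +kernel) ?_
    refine jn 154 (by decide +kernel) ?_
    refine jn 168 (by decide +kernel) ?_
    refine jn 179 (by decide +kernel) ?_
    refine jn 181 (by decide +kernel) ?_
    refine jn 183 (by decide +kernel) ?_
    refine jn 185 (by decide +kernel) ?_
    refine jn 186 (by decide +kernel) ?_
    refine jn 188 (by decide +kernel) ?_
    refine jn 189 (by decide +kernel) ?_
    refine jn 190 (by decide +kernel) ?_
    refine jn 191 (by decide +kernel) ?_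
    refine jn 192 (by decide +kernel) ?_
    refine jn 193 (by decide +kernel) ?_
    refine jn 194 (by decide +kernel) ?_
    refine jn 195 (by decide +kernel) ?_
    refine jn 196 (by decide +kernel) ?_
    refine jn 197 (by decide +kernel) ?_
    refine jn 198 (by decide +kernel) ?_
    refine jn 199 (by decide +kernel) ?_
    refine jn 200 (by decide +kernel) ?_
    refine jn 201 (by decide +kernel) ?_
    refine jn 202 (by decide +kernel) ?_
    refine jn 203 (by decide +kernel) ?_
    refine jn 204 (by decide +kernel) ?_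
    refine jn 205 (by decide +kernel) ?_
    refine jn 206 (by decide +kernel) ?_
    refine jn 207 (by decide +kernel) ?_
    refine jn 217 (by decide +kernel) ?_
    refine jn 225 (by decide +kernel) ?_
    refine jn 236 (by decide +kernel) ?_
    refine jn 248 (by decide +kernel) ?_
    refine jn 252 (by decide +kernel) ?_
    refine jn 259 (by decide +kernel) ?_
    refine jn 266 (by decide +kernel) ?_
    refine jn 273 (by decide +kernel) ?_
    refine jn 285 (by decide +kernel) ?_
    refine jn 299 (by decide +kernel) ?_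
    refine jn 302 (by decide +kernel) ?_
    refine jn 305 (by decide +kernel) ?_
    refine jn 309 (by decide +kernel) ?_
    refine jn 315 (by decide +kernel) ?_
    refine jn 318 (by decide +kernel) ?_
    refine jn 325 (by decide +kernel) ?_
    refine jn 327 (by decide +kernel) ?_
    refine jn 328 (by decide +kernel) ?_
    refine jn 329 (by decide +kernel) ?_
    refine jn 330 (by decide +kernel) ?_
    refine jn 331 (by decide +kernel) ?_
    refine jn 338 (by decide +kernel) ?_
    refine jn 339 (by decide +kernel) ?_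
    refine jn 340 (by decide +kernel) ?_
    refine jn 341 (by decide +kernel) ?_
    refine jn 342 (by decide +kernel) ?_
    refine jn 343 (by decide +kernel) ?_
    refine jn 344 (by decide +kernel) ?_
    refine jn 345 (by decide +kernel) ?_
    refine jn 359 (by decide +kernel) ?_
    refine jn 375 (by decide +kernel) ?_
    refine jn 382 (by decide +kernel) ?_
    refine jn 390 (by decide +kernel) ?_
    refine jn 397 (by decide +kernel) ?_
    refine jn 403 (by decide +kernel) ?_
    refine jn 410 (by decide +kernel) ?_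
    exact je (by decide +kernel)
  · refine fin 144 709 T63_1 ?_
    refine jn 4 (by decide +kernel) ?_
    refine jn 5 (by decide +kernel) ?_
    refine jn 6 (by decide +kernel) ?_
    refine jn 7 (by decide +kernel) ?_
    refine jn 8 (by decide +kernel) ?_
    refine jn 9 (by decide +kernel) ?_
    refine jn 10 (by decide +kernel) ?_
    refine jn 11 (by decide +kernel) ?_
    refine jn 16 (by decide +kernel) ?_
    refine jn 17 (by decide +kernel) ?_
    refine jn 18 (by decide +kernel) ?_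
    refine jn 19 (by decide +kernel) ?_
    refine jn 20 (by decide +kernel) ?_
    refine jn 21 (by decide +kernel) ?_
    refine jn 22 (by decide +kernel) ?_
    refine jn 23 (by decide +kernel) ?_
    refine jn 24 (by decide +kernel) ?_
    refine jn 25 (by decide +kernel) ?_
    refine jn 26 (by decide +kernel) ?_
    refine jn 27 (by decide +kernel) ?_
    refine jn 28 (by decide +kernel) ?_
    refine jn 29 (by decide +kernel) ?_
    refine jn 33 (by decide +kernel) ?_
    refine jn 35 (by decide +kernel) ?_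
    refine jn 40 (by decide +kernel) ?_
    refine jn 43 (by decide +kernel) ?_
    refine jn 48 (by decide +kernel) ?_
    refine jn 54 (by decide +kernel) ?_
    refine jn 63 (by decide +kernel) ?_
    refine jn 64 (by decide +kernel) ?_
    refine jn 65 (by decide +kernel) ?_
    refine jn 66 (by decide +kernel) ?_
    refine jn 67 (by decide +kernel) ?_
    refine jn 68 (by decide +kernel) ?_
    refine jn 73 (by decide +kernel) ?_
    refine jn 77 (by decide +kernel) ?_
    refine jn 78 (by decide +kernel) ?_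
    refine jn 79 (by decide +kernel) ?_
    refine jn 80 (by decide +kernel) ?_
    refine jn 81 (by decide +kernel) ?_
    refine jn 82 (by decide +kernel) ?_
    refine jn 87 (by decide +kernel) ?_
    refine jn 88 (by decide +kernel) ?_
    refine jn 93 (by decide +kernel) ?_
    refine jn 96 (by decide +kernel) ?_
    refine jn 102 (by decide +kernel) ?_
    refine jn 109 (by decide +kernel) ?_
    refine jn 115 (by decide +kernel) ?_
    refine jn 119 (by decide +kernel) ?_
    refine jn 128 (by decide +kernel) ?_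
    refine jn 132 (by decide +kernel) ?_
    refine jn 139 (by decide +kernel) ?_
    refine jn 149 (by decide +kernel) ?_
    refine jn 150 (by decide +kernel) ?_
    refine jn 154 (by decide +kernel) ?_
    refine jn 157 (by decide +kernel) ?_
    refine jn 163 (by decide +kernel) ?_
    refine jn 165 (by decide +kernel) ?_
    refine jn 166 (by decide +kernel) ?_
    refine jn 167 (by decide +kernel) ?_
    refine jn 168 (by decide +kernel) ?_
    refine jn 169 (by decide +kernel) ?_
    refine jn 170 (by decide +kernel) ?_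
    refine jn 171 (by decide +kernel) ?_
    refine jn 172 (by decide +kernel) ?_
    refine jn 183 (by decide +kernel) ?_
    refine jn 197 (by decide +kernel) ?_
    refine jn 200 (by decide +kernel) ?_
    refine jn 207 (by decide +kernel) ?_
    refine jn 214 (by decide +kernel) ?_
    refine jn 219 (by decide +kernel) ?_
    refine jn 232 (by decide +kernel) ?_
    refine jn 238 (by decide +kernel) ?_
    refine jn 247 (by decide +kernel) ?_
    refine jn 254 (by decide +kernel) ?_
    refine jn 263 (by decide +kernel) ?_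
    refine jn 264 (by decide +kernel) ?_
    refine jn 265 (by decide +kernel) ?_
    refine jn 266 (by decide +kernel) ?_
    refine jn 267 (by decide +kernel) ?_
    refine jn 268 (by decide +kernel) ?_
    refine jn 269 (by decide +kernel) ?_
    refine jn 274 (by decide +kernel) ?_
    refine jn 277 (by decide +kernel) ?_
    refine jn 278 (by decide +kernel) ?_
    refine jn 280 (by decide +kernel) ?_
    refine jn 284 (by decide +kernel) ?_
    refine jn 286 (by decide +kernel) ?_
    refine jn 295 (by decide +kernel) ?_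
    refine jn 302 (by decide +kernel) ?_
    refine jn 309 (by decide +kernel) ?_
    refine jn 321 (by decide +kernel) ?_
    refine jn 322 (by decide +kernel) ?_
    refine jn 323 (by decide +kernel) ?_
    refine jn 324 (by decide +kernel) ?_
    refine jn 325 (by decide +kernel) ?_
    refine jn 328 (by decide +kernel) ?_
    refine jn 329 (by decide +kernel) ?_
    refine jn 330 (by decide +kernel) ?_
    refine jn 331 (by decide +kernel) ?_
    refine jn 334 (by decide +kernel) ?_
    refine jn 344 (by decide +kernel) ?_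
    refine jn 345 (by decide +kernel) ?_
    refine jn 346 (by decide +kernel) ?_
    refine jn 347 (by decide +kernel) ?_
    refine jn 348 (by decide +kernel) ?_
    refine jn 349 (by decide +kernel) ?_
    refine jn 350 (by decide +kernel) ?_
    refine jn 351 (by decide +kernel) ?_
    refine jn 352 (by decide +kernel) ?_
    refine jn 353 (by decide +kernel) ?_
    refine jn 358 (by decide +kernel) ?_
    refine jn 361 (by decide +kernel) ?_
    refine jn 371 (by decide +kernel) ?_
    refine jn 379 (by decide +kernel) ?_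
    refine jn 388 (by decide +kernel) ?_
    refine jn 390 (by decide +kernel) ?_
    refine jn 392 (by decide +kernel) ?_
    refine jn 393 (by decide +kernel) ?_
    refine jn 395 (by decide +kernel) ?_
    refine jn 398 (by decide +kernel) ?_
    refine jn 399 (by decide +kernel) ?_
    refine jn 408 (by decide +kernel) ?_
    refine jn 415 (by decide +kernel) ?_
    refine jn 422 (by decide +kernel) ?_
    refine jn 434 (by decide +kernel) ?_
    refine jn 442 (by decide +kernel) ?_
    refine jn 455 (by decide +kernel) ?_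
    refine jn 461 (by decide +kernel) ?_
    refine jn 470 (by decide +kernel) ?_
    refine jn 472 (by decide +kernel) ?_
    refine jn 474 (by decide +kernel) ?_
    refine jn 475 (by decide +kernel) ?_
    refine jn 477 (by decide +kernel) ?_
    refine jn 478 (by decide +kernel) ?_
    refine jn 486 (by decide +kernel) ?_
    refine jn 489 (by decide +kernel) ?_
    refine jn 490 (by decide +kernel) ?_
    refine jn 491 (by decide +kernel) ?_
    refine jn 492 (by decide +kernel) ?_
    refine jn 493 (by decide +kernel) ?_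
    refine jn 495 (by decide +kernel) ?_
    refine jn 496 (by decide +kernel) ?_
    refine jn 497 (by decide +kernel) ?_
    refine jn 498 (by decide +kernel) ?_
    refine jn 499 (by decide +kernel) ?_
    refine jn 500 (by decide +kernel) ?_
    refine jn 505 (by decide +kernel) ?_
    refine jn 508 (by decide +kernel) ?_
    refine jn 510 (by decide +kernel) ?_
    refine jn 512 (by decide +kernel) ?_
    refine jn 519 (by decide +kernel) ?_
    refine jn 525 (by decide +kernel) ?_
    refine jn 530 (by decide +kernel) ?_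
    refine jn 538 (by decide +kernel) ?_
    refine jn 540 (by decide +kernel) ?_
    refine jn 542 (by decide +kernel) ?_
    refine jn 557 (by decide +kernel) ?_
    refine jn 567 (by decide +kernel) ?_
    refine jn 568 (by decide +kernel) ?_
    refine jn 569 (by decide +kernel) ?_
    refine jn 570 (by decide +kernel) ?_
    refine jn 571 (by decide +kernel) ?_
    refine jn 572 (by decide +kernel) ?_
    refine jn 573 (by decide +kernel) ?_
    refine jn 574 (by decide +kernel) ?_
    refine jn 575 (by decide +kernel) ?_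
    refine jn 576 (by decide +kernel) ?_
    refine jn 577 (by decide +kernel) ?_
    refine jn 578 (by decide +kernel) ?_
    refine jn 591 (by decide +kernel) ?_
    refine jn 593 (by decide +kernel) ?_
    refine jn 595 (by decide +kernel) ?_
    refine jn 607 (by decide +kernel) ?_
    refine jn 616 (by decide +kernel) ?_
    refine jn 619 (by decide +kernel) ?_
    refine jn 622 (by decide +kernel) ?_
    refine jn 625 (by decide +kernel) ?_
    refine jn 635 (by decide +kernel) ?_
    refine jn 637 (by decide +kernel) ?_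
    refine jn 641 (by decide +kernel) ?_
    refine jn 653 (by decide +kernel) ?_
    refine jn 665 (by decide +kernel) ?_
    refine jn 669 (by decide +kernel) ?_
    refine jn 672 (by decide +kernel) ?_
    refine jn 686 (by decide +kernel) ?_
    refine jn 701 (by decide +kernel) ?_
    exact je (by decide +kernel)

end Pool.Agent.MP_2339ce_nt.NR
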