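import Pool.Agent.MP_2339ce_nt.Q2.NC.L6
import Pool.Agent.MP_2339ce_nt.Q2.NC.L10
import Pool.Agent.MP_2339ce_nt.Q2.CkI

/-! Block NR: runs. -/

set_option autoImplicit false
set_option maxRecDepth 100000

noncomputable section

namespace Pool.Agent.MP_2339ce_nt.NR

open Q2.Top

def T67_0 : Ph :=
  (.na 335 211 (.na 163 167 (.na 77 145 (.na 47 130 (.na 33 122 (.na 17 117 (.nx 16 2642247 (.nr 15
  2097153 (.nr 1 113 .s1 (.nx 2 408 (.l1 (.ls 71 29 1476)) (.nr 14 1482912 (.nx 11 416129 (.nr 6
  65537 (.lg 0 false 4 73 73 17 0 720) (.nx 10 26009 (.lg 0 false 4 83 83 17 0 720) .out)) (.nr 13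
  513 (.lg 0 true 2 61 61 16 0 720) .out)) .out))) .out) .out) (.nx 32 2642247 (.nr 31 2097153 (.nr
  18 117 .s1 (.nx 21 226 (.nx 20 225 (.nr 19 1296 (.l1 (.ls 31 29 435)) (.l1 .sk)) (.l1 .sk)) (.nx
  27 26009 (.nx 22 408 (.l1 (.ls 79 31 989)) (.nr 26 1482912 (.lg 0 false 4 83 97 31 0 9360) .out))
  (.nr 30 65537 (.nr 28 513 (.lg 0 true 1 67 67 23 0 4680) (.nx 29 416129 (.lg 2 true 1 83 89 23
  91257 4680) .out)) .out)))) .out) .out)) (.na 46 128 (.nx 45 2642247 (.nr 44 2097153 (.nr 34 122
  .s1 (.nx 39 26009 (.nx 35 408 (.l1 (.ls 79 37 1367)) (.nr 38 1482912 (.lg 0 false 3 89 89 23 0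
  720) .out)) (.nr 43 65537 (.nr 41 513 (.lg 0 true 2 61 61 19 0 720) (.nx 42 416129 (.lg 2 false 1
  83 83 19 91257 720) .out)) .out))) .out) .out) .ne)) (.na 62 137 (.na 61 135 (.nx 60 1321124 (.nr
  59 2097153 (.nr 48 130 .s1 (.nx 50 225 (.nr 49 1434 (.l1 (.ls 29 37 392)) (.l1 .sk)) (.nx 51 226
  (.l1 .sk) (.nx 55 26009 (.lg 0 false 4 89 89 31 0 9360) (.nr 58 65537 (.nr 56 1025 (.lg 0 false 1
  71 71 29 0 9360) (.nx 57 165142 (.lg 2 true 1 79 79 29 64003 9360) .out)) .out))))) .out) .out)
  (.lg 0 false 1 0 0 16 0 24)) (.na 76 139 (.nx 75 1321124 (.nr 74 2097153 (.nr 63 137 .s1 (.nx 65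
  225 (.nr 64 1476 (.l1 (.ls 19 19 372)) (.l1 .sk)) (.nx 66 226 (.l1 .sk) (.nx 70 26009 (.lg 0
  false 4 83 83 17 0 720) (.nr 73 65537 (.nr 71 1025 (.lg 0 false 1 67 67 16 0 360) (.nx 72 165142
  (.lg 2 false 1 73 73 16 64003 360) .out)) .out))))) .out) .out) (.lg 0 false 1 0 0 16 0 24))))
  (.na 133 151 (.na 105 149 (.na 91 146 (.nx 90 1321124 (.nr 89 2097153 (.nr 78 145 .s1 (.nx 81 226
  (.nx 80 225 (.nr 79 1551 (.l1 (.ls 17 23 352)) (.l1 .sk)) (.l1 .sk)) (.nx 85 26009 (.lg 0 false 4
  83 83 19 0 720) (.nr 88 65537 (.nr 86 1025 (.lg 0 false 1 71 71 17 0 360) (.nx 87 165142 (.lg 2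
  false 1 73 73 17 64003 360) .out)) .out)))) .out) .out) (.nx 104 1321124 (.nr 103 2097153 (.nr 92
  146 .s1 (.nx 98 26009 (.nx 94 225 (.nr 93 1583 (.l1 (.ls 19 29 349)) (.l1 .sk)) (.nx 95 226 (.l1
  .sk) (.lg 0 false 3 89 89 23 0 720))) (.nr 102 65537 (.nr 100 1025 (.lg 0 true 2 61 61 23 0 720)
  (.nx 101 165142 (.lg 2 false 1 79 79 19 64003 720) .out)) .out))) .out) .out)) (.na 119 150 (.nx
  118 1321124 (.nr 117 2097153 (.nr 106 149 .s1 (.nx 113 26009 (.nx 108 225 (.nr 107 1593 (.l1 (.ls
  17 19 342)) (.l1 .sk)) (.nx 109 226 (.l1 .sk) (.lg 0 false 4 79 79 17 0 720))) (.nr 116 65537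
  (.nr 114 1025 (.lg 0 false 1 61 61 16 0 360) (.nx 115 165142 (.lg 2 false 1 71 71 16 64003 360)
  .out)) .out))) .out) .out) (.nx 132 1321124 (.nr 131 2097153 (.nr 120 150 .s1 (.nx 127 41287 (.nx
  122 225 (.nr 121 1604 (.l1 (.ls 31 37 340)) (.l1 .sk)) (.nx 123 226 (.l1 .sk) (.nx 125 20644 (.lg
  0 false 2 89 89 37 0 720) (.nr 126 262145 (.lg 0 false 1 83 83 31 0 720) .out)))) (.nr 130 16385
  (.nr 128 1025 (.lg 0 true 1 71 71 31 0 720) (.nx 129 165142 (.lg 2 true 1 67 67 31 18126 720)
  .out)) .out))) .out) .out))) (.na 148 159 (.na 134 153 (.lg 0 false 1 0 0 16 0 24) (.nx 147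
  1321124 (.nr 146 2097153 (.nr 135 153 .s1 (.nx 138 226 (.nx 137 225 (.nr 136 1689 (.l1 (.ls 31 29
  333)) (.l1 .sk)) (.l1 .sk)) (.nx 140 20644 (.lg 0 false 2 89 97 29 0 720) (.nr 145 262145 (.nx
  141 41287 (.lg 0 false 1 83 83 23 0 360) (.nr 144 16385 (.nr 142 1025 (.lg 0 true 1 71 71 23 0
  360) (.nx 143 165142 (.lg 2 true 1 67 67 23 18126 360) .out)) .out)) .out)))) .out) .out)) (.na
  162 162 (.nx 161 1321124 (.nr 160 2097153 (.nr 149 159 .s1 (.nx 152 226 (.nx 151 225 (.nr 150
  1721 (.l1 (.ls 17 23 321)) (.l1 .sk)) (.l1 .sk)) (.nx 156 26009 (.lg 0 false 4 83 83 23 0 720)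
  (.nr 159 65537 (.nr 157 1025 (.lg 0 false 1 67 67 17 0 360) (.nx 158 165142 (.lg 2 true 1 73 73
  17 64003 360) .out)) .out)))) .out) .out) (.lg 0 false 1 0 0 16 0 24))))) (.na 250 182 (.na 209
  174 (.na 178 170 (.na 164 169 (.lg 0 false 1 0 0 16 0 24) (.nx 177 1321124 (.nr 176 2097153 (.nr
  165 169 .s1 (.nx 172 26009 (.nx 167 225 (.nr 166 1806 (.l1 (.ls 19 23 302)) (.l1 .sk)) (.nx 168
  226 (.l1 .sk) (.lg 0 false 4 83 83 19 0 9360))) (.nr 175 65537 (.nr 173 1025 (.lg 0 false 1 67 67
  17 0 4680) (.nx 174 165142 (.lg 2 true 1 73 73 17 64003 4680) .out)) .out))) .out) .out)) (.na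
  195 173 (.nx 194 1321124 (.nr 193 2097153 (.nr 179 170 .s1 (.nx 182 226 (.nx 181 225 (.nr 180
  1837 (.l1 (.ls 16 37 300)) (.l1 .sk)) (.l1 .sk)) (.nx 189 41287 (.lg 0 false 7 83 89 37 0 5040)
  (.nr 192 16385 (.nr 190 1025 (.lg 0 false 1 71 71 29 0 720) (.nx 191 165142 (.lg 2 false 1 61 61
  29 18126 720) .out)) .out)))) .out) .out) (.nx 208 1321124 (.nr 207 2097153 (.nr 196 173 .s1 (.nx
  199 226 (.nx 198 225 (.nr 197 1848 (.l1 (.ls 17 19 295)) (.l1 .sk)) (.l1 .sk)) (.nx 203 26009
  (.lg 0 false 4 79 79 17 0 720) (.nr 206 65537 (.nr 204 1025 (.lg 0 false 1 61 61 16 0 360) (.nx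
  205 165142 (.lg 2 true 1 71 71 16 64003 360) .out)) .out)))) .out) .out))) (.na 235 179 (.na 222
  178 (.nx 221 1321124 (.nr 220 2097153 (.nr 210 174 .s1 (.nx 216 26009 (.nx 212 225 (.nr 211 1891
  (.l1 (.ls 19 37 293)) (.l1 .sk)) (.nx 213 226 (.l1 .sk) (.lg 0 false 3 83 83 37 0 720))) (.nr 219
  65537 (.nr 217 1025 (.lg 0 false 1 67 67 23 0 720) (.nx 218 165142 (.lg 2 true 1 79 79 23 64003
  720) .out)) .out))) .out) .out) (.nx 234 1321124 (.nr 233 2097153 (.nr 223 178 .s1 (.nx 229 26009
  (.nx 225 225 (.nr 224 1901 (.l1 (.ls 23 29 287)) (.l1 .sk)) (.nx 226 226 (.l1 .sk) (.lg 0 false 3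
  83 83 23 0 720))) (.nr 232 65537 (.nr 230 1025 (.lg 0 false 1 67 67 19 0 720) (.nx 231 165142
  (.lg 2 true 1 73 73 19 64003 720) .out)) .out))) .out) .out)) (.na 236 181 (.lg 0 false 1 0 0 16
  0 24) (.nx 249 1321124 (.nr 248 2097153 (.nr 237 181 .s1 (.nx 239 225 (.nr 238 1933 (.l1 (.ls 17
  19 282)) (.l1 .sk)) (.nx 240 226 (.l1 .sk) (.nx 244 26009 (.lg 0 false 4 79 79 19 0 720) (.nr 247
  65537 (.nr 245 1025 (.lg 0 false 1 61 61 16 0 360) (.nx 246 165142 (.lg 2 true 1 71 71 16 64003
  360) .out)) .out))))) .out) .out)))) (.na 280 193 (.na 265 185 (.na 251 183 .ne (.nx 264 1321124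
  (.nr 263 1482912 (.nr 252 183 .s1 (.nx 259 41287 (.nx 254 225 (.nr 253 1965 (.l1 (.ls 19 23 279))
  (.l1 .sk)) (.nx 255 226 (.l1 .sk) (.lg 0 false 4 83 83 23 0 720))) (.nr 262 16385 (.nr 260 1025
  (.lg 0 false 1 67 67 17 0 360) (.nx 261 165142 (.lg 2 false 1 53 53 17 18126 360) .out)) .out)))
  .out) .out)) (.na 279 191 (.nx 278 1321124 (.nr 277 1482912 (.nr 266 185 .s1 (.nx 268 225 (.nr
  267 2029 (.l1 (.ls 17 19 276)) (.l1 .sk)) (.nx 269 226 (.l1 .sk) (.nx 273 41287 (.lg 0 false 4 83
  83 19 0 720) (.nr 276 16385 (.nr 274 1025 (.lg 0 false 1 67 67 17 0 360) (.nx 275 165142 (.lg 2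
  true 1 59 59 17 18126 360) .out)) .out))))) .out) .out) (.lg 0 false 1 0 0 16 0 24))) (.na 307
  199 (.na 294 194 (.nx 293 1321124 (.nr 292 1482912 (.nr 281 193 .s1 (.nx 288 41287 (.nx 283 225
  (.nr 282 2060 (.l1 (.ls 19 17 265)) (.l1 .sk)) (.nx 284 226 (.l1 .sk) (.lg 0 false 4 79 79 19 0
  720))) (.nr 291 16385 (.nr 289 1025 (.lg 0 false 1 61 61 16 0 360) (.nx 290 165142 (.lg 2 true 1
  53 53 16 18126 360) .out)) .out))) .out) .out) (.nx 306 1321124 (.nr 305 1482912 (.nr 295 194 .s1
  (.nx 298 226 (.nx 297 225 (.nr 296 2114 (.l1 (.ls 19 29 263)) (.l1 .sk)) (.l1 .sk)) (.nx 301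
  41287 (.lg 0 false 3 83 83 29 0 720) (.nr 304 16385 (.nr 302 1025 (.lg 0 false 1 61 61 19 0 720)
  (.nx 303 165142 (.lg 2 true 1 53 53 19 18126 720) .out)) .out)))) .out) .out)) (.na 308 202 (.lg
  0 false 1 0 0 16 0 24) (.na 321 205 (.nx 320 1321124 (.nr 319 1482912 (.nr 309 202 .s1 (.nx 312
  226 (.nx 311 225 (.nr 310 2177 (.l1 (.ls 19 29 253)) (.l1 .sk)) (.l1 .sk)) (.nx 315 41287 (.lg 0
  false 3 79 79 29 0 720) (.nr 318 16385 (.nr 316 1025 (.lg 0 false 1 61 61 23 0 720) (.nx 317
  165142 (.lg 2 true 1 53 53 23 18126 720) .out)) .out)))) .out) .out) (.nx 334 1321124 (.nr 333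
  1482912 (.nr 322 205 .s1 (.nx 325 226 (.nx 324 225 (.nr 323 2241 (.l1 (.ls 16 19 249)) (.l1 .sk))
  (.l1 .sk)) (.nx 329 41287 (.lg 0 false 4 83 83 23 0 720) (.nr 332 16385 (.nr 330 1025 (.lg 0
  false 1 61 61 17 0 360) (.nx 331 165142 (.lg 2 false 1 53 53 17 18126 360) .out)) .out)))) .out)
  .out))))))) (.na 1343 512 (.na 409 239 (.na 363 225 (.na 349 222 (.na 336 218 (.lg 0 false 1 0 0
  16 0 24) (.nx 348 1321124 (.nr 347 1482912 (.nr 337 218 .s1 (.nx 343 41287 (.nx 339 225 (.nr 338
  2358 (.l1 (.ls 19 29 235)) (.l1 .sk)) (.nx 340 226 (.l1 .sk) (.lg 0 false 3 79 79 29 0 720)))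
  (.nr 346 16385 (.nr 344 1025 (.lg 0 false 1 61 61 23 0 720) (.nx 345 165142 (.lg 2 false 1 53 53
  23 18126 720) .out)) .out))) .out) .out)) (.na 362 223 (.nx 361 1321124 (.nr 360 1482912 (.nr 350
  222 .s1 (.nx 353 226 (.nx 352 225 (.nr 351 2368 (.l1 (.ls 19 31 231)) (.l1 .sk)) (.l1 .sk)) (.nx
  356 41287 (.lg 0 false 3 83 83 31 0 720) (.nr 359 16385 (.nr 357 1025 (.lg 0 false 1 67 67 29 0
  720) (.nx 358 165142 (.lg 2 true 1 59 59 29 18126 720) .out)) .out)))) .out) .out) (.lg 0 false 1
  0 0 16 0 24))) (.na 384 233 (.na 374 226 (.nx 373 1321124 (.nr 372 1482912 (.nr 364 225 .s1 (.nx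
  366 225 (.nr 365 2400 (.l1 (.ls 37 23 227)) (.l1 .sk)) (.nx 367 226 (.l1 .sk) (.nr 370 65537 (.nx
  368 165142 (.lg 0 true 1 79 89 31 0 360) (.nr 369 1025 (.lg 0 true 1 67 73 31 0 360) .out)) (.nx
  371 26009 (.lg 0 false 1 101 103 31 0 720720) .out))))) .out) .out) (.nx 383 1321124 (.nr 382
  1482912 (.nr 375 226 .s1 (.nx 377 225 (.nr 376 2475 (.l1 (.ls 19 29 227)) (.l1 .sk)) (.nx 378 226
  (.l1 .sk) (.nx 380 41287 (.lg 0 false 2 79 79 23 0 720) (.nr 381 16385 (.lg 0 false 1 79 79 23 0
  720) .out))))) .out) .out)) (.na 398 234 (.nx 397 1321124 (.nr 396 1482912 (.nr 385 233 .s1 (.nx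
  388 226 (.nx 387 225 (.nr 386 2485 (.l1 (.ls 17 17 220)) (.l1 .sk)) (.l1 .sk)) (.nx 392 41287
  (.lg 0 false 4 79 79 19 0 720) (.nr 395 16385 (.nr 393 1025 (.lg 0 false 1 59 59 17 0 360) (.nx
  394 165142 (.lg 2 false 1 47 47 17 18126 360) .out)) .out)))) .out) .out) (.nx 408 1321124 (.nr
  407 1482912 (.nr 399 234 .s1 (.nx 405 165142 (.nx 401 225 (.nr 400 2538 (.l1 (.ls 37 37 219))
  (.l1 .sk)) (.nx 402 226 (.l1 .sk) (.nr 403 65537 (.lg 0 true 1 89 89 37 0 9360) (.nx 404 26009
  (.lg 0 false 1 97 97 37 0 9360) .out)))) (.nr 406 1025 (.lg 0 true 1 71 71 37 0 9360) .out)))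
  .out) .out)))) (.na 433 250 (.na 422 243 (.na 410 241 (.lg 0 false 1 0 0 16 0 24) (.nx 421
  1321124 (.nr 420 1482912 (.nr 411 241 .s1 (.nx 414 226 (.nx 413 225 (.nr 412 2581 (.l1 (.ls 17 17
  213)) (.l1 .sk)) (.l1 .sk)) (.nx 418 41287 (.lg 0 false 4 73 79 19 0 720) (.nr 419 16385 (.lg 0
  false 1 79 79 17 0 360) .out)))) .out) .out)) (.na 423 246 (.lg 0 false 1 0 0 16 0 24) (.nx 432
  1321124 (.nr 431 1482912 (.nr 424 246 .s1 (.nx 426 225 (.nr 425 2655 (.l1 (.ls 19 31 208)) (.l1
  .sk)) (.nx 427 226 (.l1 .sk) (.nx 429 41287 (.lg 0 false 2 83 83 31 0 720) (.nr 430 16385 (.lg 0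
  false 1 83 83 29 0 720) .out))))) .out) .out))) (.na 458 256 (.na 444 255 (.nx 443 1321124 (.nr
  442 1482912 (.nr 434 250 .s1 (.nx 436 225 (.nr 435 2708 (.l1 (.ls 31 29 205)) (.l1 .sk)) (.nx 437
  226 (.l1 .sk) (.nx 438 26009 (.lg 0 false 1 89 89 29 0 720) (.nr 441 65537 (.nr 439 1025 (.lg 0
  true 1 67 67 31 0 720) (.nx 440 165142 (.lg 1 true 1 79 79 29 64003 720) .out)) .out))))) .out)
  .out) (.nx 457 1321124 (.nr 456 1482912 (.nr 445 255 .s1 (.nx 452 41287 (.nx 447 225 (.nr 446
  2719 (.l1 (.ls 16 29 201)) (.l1 .sk)) (.nx 448 226 (.l1 .sk) (.lg 0 false 4 79 79 31 0 720)))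
  (.nr 455 16385 (.nr 453 1025 (.lg 0 false 1 61 61 29 0 360) (.nx 454 165142 (.lg 2 false 1 53 53
  29 18126 360) .out)) .out))) .out) .out)) (.na 459 257 .ne (.na 890 363 (.nx 889 1321124 (.nr 888
  1482912 (.nr 460 257 .s1 (.nx 568 226 (.nx 567 225 (.nr 566 3855 (.la (.ls 29 19 199)) (.l1 .sk))
  (.l1 .sk)) (.nx 674 26009 (.la (.lg 0 false 2 73 73 23 0)) (.nr 887 32769 (.nr 780 2049 (.la (.lg
  0 false 1 61 61 19 0)) (.nx 886 165142 (.la (.lg 2 false 1 59 59 19 32112)) .out)) .out)))) .out)
  .out) (.nx 1342 1321124 (.nr 1341 1482912 (.nr 891 363 .s1 (.nx 1042 226 (.nx 1041 225 (.nr 1040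
  5437 (.la (.ls 31 19 142)) (.l1 .sk)) (.l1 .sk)) (.nx 1191 26009 (.la (.lg 0 false 1 73 73 23 0))
  (.nr 1340 32769 (.la (.lg 2 true 1 71 71 23 409440)) .out)))) .out) .out)))))) (.na 11218 8192
  (.na 4657 2048 (.na 2601 1024 (.na 1999 725 (.nx 1998 1321124 (.nr 1997 1482912 (.nr 1344 512 .s1
  (.nx 1570 226 (.nx 1569 225 (.nr 1568 7699 (.lx (.lp 31 19 182)) (.l1 .sk)) (.l1 .sk)) (.nx 1783
  26009 (.la (.lg 0 false 1 71 71 29 0)) (.nr 1996 32769 (.la (.lg 2 true 1 67 67 29 290287))
  .out)))) .out) .out) (.nx 2600 20644 (.nr 2599 2097153 (.nr 2000 725 .s1 (.nx 2299 2049 (.la (.ls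
  67 37 5793)) (.nr 2598 262145 (.la (.lg 0 false 1 59 59 29 0)) .out))) .out) .out)) (.na 3455
  1449 (.nx 3454 20644 (.nr 3453 2097153 (.nr 2602 1024 .s1 (.nx 3027 3252 (.la (.ls 67 41 10330))
  (.nr 3452 131073 (.la (.lg 0 false 1 47 47 31 0)) .out))) .out) .out) (.nx 4656 13005 (.nr 4655
  2097153 (.nr 3456 1449 .s1 (.nx 4055 3252 (.la (.ls 67 41 7301)) (.nr 4654 16385 (.la (.lg 0
  false 1 29 29 31 0)) .out))) .out) .out))) (.na 6711 4096 (.na 5509 2897 (.nx 5508 13005 (.nr
  5507 2097153 (.nr 4658 2048 .s1 (.la (.ls 61 53 82586))) .out) .out) (.nx 6710 4097 (.nr 6709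
  1048577 (.nr 5510 2897 .s1 (.la (.ls 59 41 5797))) .out) .out)) (.na 8411 5793 (.nx 8410 5162
  (.nr 8409 1048577 (.nr 6712 4096 .s1 (.la (.ls 59 41 6508))) .out) .out) (.nx 11217 2049 (.nr
  11216 524289 (.nr 8412 5793 .s1 (.nx 8817 406 (.lx (.lp 47 37 2049)) (.la (.ls 43 37 2049))))
  .out) .out)))) (.na 19426 65536 (.na 15322 16384 (.na 13271 11586 (.nx 13270 2049 (.nr 13269
  524289 (.nr 11219 8192 .s1 (.nx 12511 1292 (.nx 12243 1025 (.lx (.lp 47 41 2897)) (.nr 12510
  262145 (.lx (.lp 41 41 2897)) .out)) (.nr 13268 131073 (.lx (.lp 37 41 2897)) .out))) .out) .out)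
  (.nx 15321 2049 (.nr 15320 131073 (.nr 13272 11586 .s1 (.lx (.lp 31 41 4097))) .out) .out)) (.na
  17374 32768 (.nx 17373 2049 (.nr 17372 262145 (.nr 15323 16384 .s1 (.nx 15646 324 (.lx (.lp 37 43
  8193)) (.nr 17371 131073 (.lx (.lp 31 43 8193)) .out))) .out) .out) (.nx 19425 2049 (.nr 19424
  524289 (.nr 17375 32768 .s1 (.nx 17698 324 (.lx (.lp 29 47 16385)) (.nr 19423 262145 (.lx (.lp 31
  47 16385)) .out))) .out) .out))) (.na 22686 262144 (.na 21056 131072 (.nx 21055 1627 (.nr 21054
  524289 (.nr 19427 65536 .s1 (.nx 19750 324 (.lx (.lp 16 0 32769)) (.nr 21053 262145 (.lx (.lp 29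
  53 32769)) .out))) .out) .out) (.nx 22685 1627 (.nr 22684 524289 (.nr 21057 131072 .s1 (.nx 21569
  513 (.lx (.lp 16 47 65537)) (.nr 22683 262145 (.lx (.lp 23 59 65537)) .out))) .out) .out)) (.na
  23201 524288 (.nx 23200 513 (.nr 23199 1048577 (.nr 22687 262144 .s1 (.lx (.lp 16 0 131073)))
  .out) .out) (.na 23203 1048577 (.nx 23202 324 (.l1 .sk) .out) .out)))))))

def T67_1 : Ph :=
  (.na 761 10 (.na 581 5 (.na 317 3 (.na 186 2 (.nx 185 1321124 (.nr 184 311745 (.nx 2 87 (.nr 1 10
  (.lg 0 true 1 43 43 5 0 20880) (.l1 .sk)) (.nx 3 88 (.l1 .sk) (.nx 157 660563 (.nx 45 8848 (.nr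
  31 46342 (.lg 0 false 28 97 101 11 0 146160) (.nx 44 205 (.lg 0 false 13 83 83 9 0 9048) .out))
  (.nr 156 38969 (.nx 127 330282 (.nr 73 432 (.lg 0 true 28 89 89 11 0 9744) (.nx 86 16385 (.lg 1
  false 13 103 107 9 16707 20900880) (.nr 126 27556 (.nr 97 1724 (.lg 2 true 11 97 97 9 33258
  229680) (.nx 125 165142 (.lg 2 false 28 101 107 11 6385 20900880) .out)) .out))) (.nr 155 109
  (.lg 0 true 28 79 83 11 0 9744) .out)) .out)) (.nr 183 13 (.lg 0 true 26 73 73 9 0 18096)
  .out)))) .out) .out) (.nx 316 3329023 (.nr 315 623489 (.nx 188 87 (.nr 187 18 (.lg 0 true 1 37 37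
  5 0 1392) (.l1 .sk)) (.nx 189 88 (.l1 .sk) (.nr 295 65537 (.nx 209 9555 (.lg 0 false 20 97 101 11
  0 146160) (.nr 265 257 (.nx 244 1321124 (.lg 0 true 35 83 83 13 0 48720) (.nr 264 9 (.lg 0 true
  20 71 71 9 0 6960) .out)) (.nx 294 165142 (.nx 275 20644 (.lg 1 false 10 101 103 9 25994 1607760)
  (.nr 293 46342 (.nr 280 1100 (.lg 2 false 5 89 89 9 27953 146160) (.lg 2 false 13 103 107 9 8512
  20900880)) .out)) .out))) (.nx 314 1292 (.nr 300 77937 (.lg 0 true 5 83 83 9 0 146160) (.nx 313
  205 (.lg 0 false 13 79 79 9 0 18096) .out)) .out)))) .out) .out)) (.na 463 4 (.nx 462 6658044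
  (.nr 461 881745 (.nx 319 87 (.nr 318 25 (.lg 0 true 1 31 31 5 0 2088) (.l1 .sk)) (.nx 320 88 (.l1
  .sk) (.nr 440 110219 (.nx 399 832257 (.nx 346 13003 (.nr 340 55110 (.lg 0 false 20 89 97 16 0
  146160) (.nx 345 1292 (.lg 0 false 5 83 83 7 0 10440) .out)) (.nr 398 65537 (.nr 366 364 (.lg 0
  true 20 83 83 16 0 20880) (.nx 397 208065 (.nx 386 52017 (.lg 1 true 20 89 101 16 19101 146160)
  (.nr 396 38969 (.nr 391 3220 (.lg 2 true 5 83 83 7 24865 10440) (.lg 2 false 5 89 89 7 2842
  10440)) .out)) .out)) .out)) (.nr 439 33 (.lg 0 true 40 79 79 7 0 20880) .out)) (.nx 460 205 (.lg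
  0 false 20 73 79 16 0 20880) .out)))) .out) .out) (.nx 580 10568985 (.nr 579 1246976 (.nx 541
  1321124 (.nx 466 88 (.nx 465 87 (.nr 464 32 (.lg 0 true 1 31 31 9 0 1392) (.l1 .sk)) (.l1 .sk))
  (.nx 529 330282 (.nr 517 155873 (.nx 485 10321 (.nr 477 55110 (.lg 0 false 11 97 101 13 0
  1607760) (.nx 484 1292 (.lg 0 false 7 89 97 11 0 146160) .out)) (.nr 516 65537 (.nr 496 694 (.lg
  0 true 11 83 83 13 0 15312) (.nx 503 20642 (.lg 1 false 7 97 101 11 24065 146160) (.nr 505 1352
  (.lg 2 true 2 79 79 9 20703 1392) (.lg 2 false 11 101 107 13 12032 1607760)))) .out)) (.nx 528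
  205 (.lg 0 false 11 83 83 13 0 15312) .out)) (.nr 540 183 (.lg 0 true 11 83 83 13 0 15312)
  .out))) (.nr 578 21 (.nx 552 2642247 (.lg 0 true 11 73 73 11 0 15312) (.lg 0 true 26 83 83 11 0
  18096)) .out)) .out) .out))) (.na 626 7 (.na 582 6 .ne (.nx 625 1321124 (.nr 624 220437 (.nx 584
  87 (.nr 583 46 (.lg 0 false 1 31 31 7 0 4176) (.l1 .sk)) (.nx 585 88 (.l1 .sk) (.nr 616 55110
  (.nx 592 11394 (.lg 0 true 7 97 97 13 0 1607760) (.nr 606 501 (.lg 0 true 14 83 83 13 0 29232)
  (.nx 615 416129 (.nr 608 977 (.lg 2 false 2 79 79 7 36131 229680) (.lg 2 false 7 103 103 13 18528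
  20900880)) .out))) (.nx 623 1292 (.lg 0 false 7 83 83 13 0 29232) .out)))) .out) .out)) (.na 690
  8 (.nx 689 10568985 (.nr 688 262145 (.nx 628 87 (.nr 627 53 (.lg 0 false 1 31 31 9 0 29232) (.l1
  .sk)) (.nx 629 88 (.l1 .sk) (.nx 640 10321 (.nr 634 55110 (.lg 0 true 5 89 89 16 0 24360) (.nx
  639 408 (.lg 0 false 5 79 79 16 0 24360) .out)) (.nr 687 65537 (.nx 666 1321124 (.nr 650 306 (.lg
  0 true 10 83 83 16 0 48720) (.nx 665 262145 (.nx 655 32769 (.lg 1 false 5 97 101 16 24065 146160)
  (.nr 664 55110 (.nr 659 2267 (.lg 2 true 4 83 83 13 37266 29232) (.lg 2 false 5 97 97 16 6375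
  146160)) .out)) .out)) (.nr 686 47 (.lg 0 true 20 79 79 16 0 48720) .out)) .out)))) .out) .out)
  (.na 760 9 (.nx 759 10568985 (.nr 758 623489 (.nx 693 88 (.nx 692 87 (.nr 691 59 (.lg 0 true 1 23
  31 11 0 4176) (.l1 .sk)) (.l1 .sk)) (.nr 752 77937 (.nx 731 1321124 (.nx 698 9411 (.lg 0 false 5
  89 89 13 0 6960) (.nr 730 65537 (.nr 711 364 (.nx 705 660563 (.lg 0 true 7 79 79 13 0 9744) (.nr
  710 109 (.lg 0 true 5 79 79 13 0 6960) .out)) (.nx 729 208065 (.nx 721 41287 (.nx 716 19712 (.lg
  1 false 5 101 103 13 26392 20900880) (.lg 1 true 5 101 103 13 12600 20900880)) (.nr 728 46342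
  (.nr 723 2504 (.lg 2 true 2 83 83 11 24865 1392) (.lg 2 false 5 83 97 13 4256 20880)) .out))
  .out)) .out)) (.nr 751 55 (.lg 0 true 20 79 83 13 0 6960) .out)) (.nx 757 814 (.lg 0 false 5 89
  97 13 0 20880) .out))) .out) .out) (.lg 0 false 1 0 0 7 0 24))))) (.na 895 16 (.na 796 12 (.na
  762 11 .ne (.nx 795 1321124 (.nr 794 623489 (.nr 763 6 .s1 (.nx 765 87 (.nr 764 79 (.lg 0 true 1
  31 31 9 0 1607760) (.l1 .sk)) (.nx 766 88 (.l1 .sk) (.nx 778 20644 (.nr 773 77937 (.lg 0 false 7
  97 101 16 0 1607760) (.nx 777 814 (.lg 0 false 4 83 83 16 0 15312) .out)) (.nr 793 55110 (.nx 787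
  330282 (.nr 782 766 (.lg 0 true 4 79 79 16 0 15312) (.nx 786 165142 (.lg 2 false 4 97 101 16
  10120 1607760) .out)) (.nr 792 65 (.lg 0 true 5 71 71 16 0 38280) .out)) .out))))) .out) .out))
  (.na 831 13 (.nx 830 1321124 (.nr 829 623489 (.nr 797 8 .s1 (.nx 800 88 (.nx 799 87 (.nr 798 86
  (.lg 0 false 1 19 19 13 0 29232) (.l1 .sk)) (.l1 .sk)) (.nx 823 330282 (.nr 817 92683 (.nx 805
  20644 (.lg 0 false 5 97 97 17 0 146160) (.nr 816 55110 (.nr 810 766 (.lg 0 true 5 79 79 17 0
  20880) (.nx 815 165142 (.lg 2 false 5 89 97 17 10120 146160) .out)) .out)) (.nx 822 814 (.lg 0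
  false 5 83 83 17 0 20880) .out)) (.nr 828 65 (.lg 0 true 5 71 71 17 0 20880) .out)))) .out) .out)
  (.na 865 14 (.nx 864 1321124 (.nr 863 623489 (.nr 832 10 .s1 (.nx 857 330282 (.nx 834 87 (.nr 833
  93 (.lg 0 true 1 19 19 9 0 54288) (.l1 .sk)) (.nx 835 88 (.l1 .sk) (.nr 851 92683 (.nx 840 20644
  (.lg 0 false 5 97 97 16 0 271440) (.nr 850 55110 (.nr 845 766 (.lg 0 true 5 79 79 16 0 45240)
  (.nx 849 165142 (.lg 2 false 4 89 89 16 10120 54288) .out)) .out)) (.nx 856 814 (.lg 0 false 5 79
  79 16 0 45240) .out)))) (.nr 862 65 (.lg 0 true 5 67 67 16 0 45240) .out))) .out) .out) (.nx 894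
  1321124 (.nr 893 623489 (.nr 866 11 .s1 (.nx 888 330282 (.nx 878 20644 (.nx 868 87 (.nr 867 106
  (.lg 0 false 1 19 19 11 0 9744) (.l1 .sk)) (.nx 869 88 (.l1 .sk) (.nx 870 324 (.l1 (.ls 83 47
  6948)) (.nr 877 220437 (.nr 875 92683 (.lg 0 false 5 97 101 13 0 146160) (.nx 876 814 (.lg 0 true
  1 83 83 11 0 9744) .out)) .out)))) (.nr 887 55110 (.nr 883 766 (.lg 0 true 5 79 79 13 0 48720)
  (.nx 886 165142 (.lg 2 false 3 97 97 13 10120 146160) .out)) .out)) (.nr 892 65 (.lg 0 true 4 67
  67 13 0 9744) .out))) .out) .out)))) (.na 958 18 (.na 932 17 (.nx 931 1321124 (.nr 930 1048577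
  (.nr 896 14 .s1 (.nx 904 324 (.nx 898 87 (.nr 897 113 (.l1 (.ls 31 29 476)) (.l1 .sk)) (.nx 899
  88 (.l1 .sk) (.nx 902 205 (.nr 900 623489 (.l1 (.ls 89 37 2145)) (.lg 0 false 2 73 73 13 0 1392))
  (.nr 903 623489 (.l1 (.ls 89 41 3937)) .out)))) (.nr 929 220437 (.nr 927 131073 (.nx 921 165142
  (.nr 909 13461 (.nx 906 5162 (.lg 0 true 2 73 73 13 0 1392) (.nr 907 766 (.lg 0 false 1 89 89 11
  0 1392) (.lg 2 true 2 79 79 13 9934 1392))) (.nx 911 8193 (.lg 0 false 2 103 103 13 0 1607760)
  (.nr 920 65537 (.nr 914 32769 (.lg 2 true 3 79 79 13 15178 4176) (.nx 919 65537 (.nx 916 26009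
  (.lg 0 false 2 101 103 13 0 1607760) (.nr 918 46342 (.lg 0 true 2 101 103 13 0 1607760) .out))
  .out)) .out))) (.nr 926 183 (.lg 0 true 5 79 79 17 0 6960) .out)) (.nx 928 814 (.lg 0 false 1 79
  79 11 0 1392) .out)) .out))) .out) .out) (.nx 957 1321124 (.nr 956 1048577 (.nr 933 15 .s1 (.nx
  935 87 (.nr 934 119 (.lg 0 false 1 31 31 11 0 321552) (.l1 .sk)) (.nx 936 88 (.l1 .sk) (.nx 937
  205 (.l1 (.ls 83 31 2019)) (.nr 955 623489 (.nx 938 324 (.l1 (.ls 79 37 3706)) (.nr 954 220437
  (.nx 943 10323 (.lg 0 false 5 97 97 16 0 3480) (.nr 953 55110 (.nr 948 498 (.lg 0 true 5 79 79 16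
  0 3480) (.nx 952 165142 (.lg 2 false 4 97 101 16 20237 321552) .out)) .out)) .out)) .out)))))
  .out) .out)) (.na 959 21 (.lg 0 false 1 0 0 7 0 24) (.na 984 22 (.nx 983 1321124 (.nr 982 1048577
  (.nr 960 19 .s1 (.nx 964 205 (.nx 962 87 (.nr 961 146 (.l1 (.ls 19 29 363)) (.l1 .sk)) (.nx 963
  88 (.l1 .sk) (.l1 (.ls 83 37 1635)))) (.nr 981 623489 (.nx 965 324 (.l1 (.ls 83 41 3000)) (.nr
  980 220437 (.nx 969 10323 (.lg 0 false 4 97 97 17 0 146160) (.nr 979 55110 (.nr 974 498 (.lg 0
  true 5 79 79 17 0 73080) (.nx 978 165142 (.lg 2 false 4 89 89 17 20237 29232) .out)) .out))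
  .out)) .out))) .out) .out) (.nx 1010 1321124 (.nr 1009 1048577 (.nr 985 20 .s1 (.nx 988 88 (.nx
  987 87 (.nr 986 152 (.lg 0 true 1 17 17 9 0 45936) (.l1 .sk)) (.l1 .sk)) (.nx 997 10323 (.nx 989
  205 (.l1 (.ls 83 41 1561)) (.nr 996 623489 (.nx 990 324 (.l1 (.ls 79 43 2864)) (.nr 995 220437
  (.lg 0 false 5 89 89 19 0 76560) .out)) .out)) (.nr 1008 55110 (.nr 1002 498 (.lg 0 true 5 73 73
  19 0 76560) (.nx 1007 165142 (.lg 2 false 5 89 89 19 20237 229680) .out)) .out)))) .out)
  .out))))))

theorem c67 :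
    OkQ ckI L10 225 113 1099511627776 0 34359738368 1 1099511627776 ∧
    OkQ ckI L6 87 1 23 0 34359738368 1 1099511627776 := by
  refine ⟨?_, ?_⟩
  · refine fin 360 23204 T67_0 ?_
    refine jn 2 (by decide +kernel) ?_
    refine jn 3 (by decide +kernel) ?_
    refine jn 4 (by decide +kernel) ?_
    refine jn 5 (by decide +kernel) ?_
    refine jn 6 (by decide +kernel) ?_
    refine jn 18 (by decide +kernel) ?_
    refine jn 22 (by decide +kernel) ?_
    refine jn 25 (by decide +kernel) ?_
    refine jn 28 (by decide +kernel) ?_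
    refine jn 29 (by decide +kernel) ?_
    refine jn 42 (by decide +kernel) ?_
    refine jn 57 (by decide +kernel) ?_
    refine jn 72 (by decide +kernel) ?_
    refine jn 87 (by decide +kernel) ?_
    refine jn 101 (by decide +kernel) ?_
    refine jn 115 (by decide +kernel) ?_
    refine jn 125 (by decide +kernel) ?_
    refine jn 128 (by decide +kernel) ?_
    refine jn 140 (by decide +kernel) ?_
    refine jn 142 (by decide +kernel) ?_
    refine jn 156 (by decide +kernel) ?_
    refine jn 172 (by decide +kernel) ?_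
    refine jn 189 (by decide +kernel) ?_
    refine jn 204 (by decide +kernel) ?_
    refine jn 218 (by decide +kernel) ?_
    refine jn 231 (by decide +kernel) ?_
    refine jn 246 (by decide +kernel) ?_
    refine jn 261 (by decide +kernel) ?_
    refine jn 275 (by decide +kernel) ?_
    refine jn 290 (by decide +kernel) ?_
    refine jn 303 (by decide +kernel) ?_
    refine jn 317 (by decide +kernel) ?_
    refine jn 331 (by decide +kernel) ?_
    refine jn 345 (by decide +kernel) ?_
    refine jn 358 (by decide +kernel) ?_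
    refine jn 364 (by decide +kernel) ?_
    refine jn 365 (by decide +kernel) ?_
    refine jn 367 (by decide +kernel) ?_
    refine jn 368 (by decide +kernel) ?_
    refine jn 369 (by decide +kernel) ?_
    refine jn 371 (by decide +kernel) ?_
    refine jn 392 (by decide +kernel) ?_
    refine jn 404 (by decide +kernel) ?_
    refine jn 419 (by decide +kernel) ?_
    refine jn 434 (by decide +kernel) ?_
    refine jn 438 (by decide +kernel) ?_
    refine jn 440 (by decide +kernel) ?_
    refine jn 454 (by decide +kernel) ?_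
    refine jn 521 (by decide +kernel) ?_
    refine jn 568 (by decide +kernel) ?_
    refine jn 578 (by decide +kernel) ?_
    refine jn 585 (by decide +kernel) ?_
    refine jn 592 (by decide +kernel) ?_
    refine jn 601 (by decide +kernel) ?_
    refine jn 614 (by decide +kernel) ?_
    refine jn 617 (by decide +kernel) ?_
    refine jn 618 (by decide +kernel) ?_
    refine jn 629 (by decide +kernel) ?_
    refine jn 644 (by decide +kernel) ?_
    refine jn 645 (by decide +kernel) ?_
    refine jn 650 (by decide +kernel) ?_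
    refine jn 664 (by decide +kernel) ?_
    refine jn 682 (by decide +kernel) ?_
    refine jn 694 (by decide +kernel) ?_
    refine jn 715 (by decide +kernel) ?_
    refine jn 723 (by decide +kernel) ?_
    refine jn 731 (by decide +kernel) ?_
    refine jn 750 (by decide +kernel) ?_
    refine jn 756 (by decide +kernel) ?_
    refine jn 780 (by decide +kernel) ?_
    refine jn 797 (by decide +kernel) ?_
    refine jn 813 (by decide +kernel) ?_
    refine jn 829 (by decide +kernel) ?_
    refine jn 841 (by decide +kernel) ?_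
    refine jn 860 (by decide +kernel) ?_
    refine jn 876 (by decide +kernel) ?_
    refine jn 903 (by decide +kernel) ?_
    refine jn 953 (by decide +kernel) ?_
    refine jn 978 (by decide +kernel) ?_
    refine jn 979 (by decide +kernel) ?_
    refine jn 1045 (by decide +kernel) ?_
    refine jn 1048 (by decide +kernel) ?_
    refine jn 1049 (by decide +kernel) ?_
    refine jn 1054 (by decide +kernel) ?_
    refine jn 1056 (by decide +kernel) ?_
    refine jn 1069 (by decide +kernel) ?_
    refine jn 1080 (by decide +kernel) ?_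
    refine jn 1104 (by decide +kernel) ?_
    refine jn 1105 (by decide +kernel) ?_
    refine jn 1121 (by decide +kernel) ?_
    refine jn 1128 (by decide +kernel) ?_
    refine jn 1129 (by decide +kernel) ?_
    refine jn 1130 (by decide +kernel) ?_
    refine jn 1145 (by decide +kernel) ?_
    refine jn 1160 (by decide +kernel) ?_
    refine jn 1172 (by decide +kernel) ?_
    refine jn 1189 (by decide +kernel) ?_
    refine jn 1194 (by decide +kernel) ?_
    refine jn 1197 (by decide +kernel) ?_
    refine jn 1198 (by decide +kernel) ?_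
    refine jn 1203 (by decide +kernel) ?_
    refine jn 1205 (by decide +kernel) ?_
    refine jn 1214 (by decide +kernel) ?_
    refine jn 1222 (by decide +kernel) ?_
    refine jn 1229 (by decide +kernel) ?_
    refine jn 1238 (by decide +kernel) ?_
    refine jn 1253 (by decide +kernel) ?_
    refine jn 1254 (by decide +kernel) ?_
    refine jn 1266 (by decide +kernel) ?_
    refine jn 1270 (by decide +kernel) ?_
    refine jn 1275 (by decide +kernel) ?_
    refine jn 1278 (by decide +kernel) ?_
    refine jn 1279 (by decide +kernel) ?_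
    refine jn 1289 (by decide +kernel) ?_
    refine jn 1299 (by decide +kernel) ?_
    refine jn 1309 (by decide +kernel) ?_
    refine jn 1310 (by decide +kernel) ?_
    refine jn 1321 (by decide +kernel) ?_
    refine jn 1333 (by decide +kernel) ?_
    refine jn 1348 (by decide +kernel) ?_
    refine jn 1494 (by decide +kernel) ?_
    refine jn 1577 (by decide +kernel) ?_
    refine jn 1580 (by decide +kernel) ?_
    refine jn 1588 (by decide +kernel) ?_
    refine jn 1595 (by decide +kernel) ?_
    refine jn 1612 (by decide +kernel) ?_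
    refine jn 1620 (by decide +kernel) ?_
    refine jn 1635 (by decide +kernel) ?_
    refine jn 1643 (by decide +kernel) ?_
    refine jn 1649 (by decide +kernel) ?_
    refine jn 1664 (by decide +kernel) ?_
    refine jn 1675 (by decide +kernel) ?_
    refine jn 1683 (by decide +kernel) ?_
    refine jn 1684 (by decide +kernel) ?_
    refine jn 1699 (by decide +kernel) ?_
    refine jn 1708 (by decide +kernel) ?_
    refine jn 1709 (by decide +kernel) ?_
    refine jn 1715 (by decide +kernel) ?_
    refine jn 1721 (by decide +kernel) ?_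
    refine jn 1724 (by decide +kernel) ?_
    refine jn 1732 (by decide +kernel) ?_
    refine jn 1745 (by decide +kernel) ?_
    refine jn 1755 (by decide +kernel) ?_
    refine jn 1781 (by decide +kernel) ?_
    refine jn 1792 (by decide +kernel) ?_
    refine jn 1793 (by decide +kernel) ?_
    refine jn 1801 (by decide +kernel) ?_
    refine jn 1805 (by decide +kernel) ?_
    refine jn 1816 (by decide +kernel) ?_
    refine jn 1828 (by decide +kernel) ?_
    refine jn 1840 (by decide +kernel) ?_
    refine jn 1853 (by decide +kernel) ?_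
    refine jn 1857 (by decide +kernel) ?_
    refine jn 1872 (by decide +kernel) ?_
    refine jn 1886 (by decide +kernel) ?_
    refine jn 1896 (by decide +kernel) ?_
    refine jn 1897 (by decide +kernel) ?_
    refine jn 1912 (by decide +kernel) ?_
    refine jn 1921 (by decide +kernel) ?_
    refine jn 1924 (by decide +kernel) ?_
    refine jn 1928 (by decide +kernel) ?_
    refine jn 1934 (by decide +kernel) ?_
    refine jn 1944 (by decide +kernel) ?_
    refine jn 1956 (by decide +kernel) ?_
    refine jn 1965 (by decide +kernel) ?_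
    refine jn 1977 (by decide +kernel) ?_
    refine jn 2000 (by decide +kernel) ?_
    refine jn 2025 (by decide +kernel) ?_
    refine jn 2069 (by decide +kernel) ?_
    refine jn 2117 (by decide +kernel) ?_
    refine jn 2148 (by decide +kernel) ?_
    refine jn 2190 (by decide +kernel) ?_
    refine jn 2237 (by decide +kernel) ?_
    refine jn 2284 (by decide +kernel) ?_
    refine jn 2299 (by decide +kernel) ?_
    refine jn 2312 (by decide +kernel) ?_
    refine jn 2324 (by decide +kernel) ?_
    refine jn 2331 (by decide +kernel) ?_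
    refine jn 2367 (by decide +kernel) ?_
    refine jn 2381 (by decide +kernel) ?_
    refine jn 2405 (by decide +kernel) ?_
    refine jn 2424 (by decide +kernel) ?_
    refine jn 2427 (by decide +kernel) ?_
    refine jn 2447 (by decide +kernel) ?_
    refine jn 2464 (by decide +kernel) ?_
    refine jn 2483 (by decide +kernel) ?_
    refine jn 2503 (by decide +kernel) ?_
    refine jn 2523 (by decide +kernel) ?_
    refine jn 2532 (by decide +kernel) ?_
    refine jn 2549 (by decide +kernel) ?_
    refine jn 2555 (by decide +kernel) ?_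
    refine jn 2583 (by decide +kernel) ?_
    refine jn 2591 (by decide +kernel) ?_
    refine jn 2615 (by decide +kernel) ?_
    refine jn 2664 (by decide +kernel) ?_
    refine jn 2697 (by decide +kernel) ?_
    refine jn 2748 (by decide +kernel) ?_
    refine jn 2804 (by decide +kernel) ?_
    refine jn 2828 (by decide +kernel) ?_
    refine jn 2857 (by decide +kernel) ?_
    refine jn 2899 (by decide +kernel) ?_
    refine jn 2944 (by decide +kernel) ?_
    refine jn 2995 (by decide +kernel) ?_
    refine jn 3028 (by decide +kernel) ?_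
    refine jn 3040 (by decide +kernel) ?_
    refine jn 3069 (by decide +kernel) ?_
    refine jn 3093 (by decide +kernel) ?_
    refine jn 3108 (by decide +kernel) ?_
    refine jn 3133 (by decide +kernel) ?_
    refine jn 3160 (by decide +kernel) ?_
    refine jn 3189 (by decide +kernel) ?_
    refine jn 3208 (by decide +kernel) ?_
    refine jn 3236 (by decide +kernel) ?_
    refine jn 3253 (by decide +kernel) ?_
    refine jn 3254 (by decide +kernel) ?_
    refine jn 3300 (by decide +kernel) ?_
    refine jn 3316 (by decide +kernel) ?_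
    refine jn 3328 (by decide +kernel) ?_
    refine jn 3348 (by decide +kernel) ?_
    refine jn 3377 (by decide +kernel) ?_
    refine jn 3401 (by decide +kernel) ?_
    refine jn 3436 (by decide +kernel) ?_
    refine jn 3486 (by decide +kernel) ?_
    refine jn 3529 (by decide +kernel) ?_
    refine jn 3560 (by decide +kernel) ?_
    refine jn 3615 (by decide +kernel) ?_
    refine jn 3664 (by decide +kernel) ?_
    refine jn 3714 (by decide +kernel) ?_
    refine jn 3760 (by decide +kernel) ?_
    refine jn 3817 (by decide +kernel) ?_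
    refine jn 3865 (by decide +kernel) ?_
    refine jn 3896 (by decide +kernel) ?_
    refine jn 3957 (by decide +kernel) ?_
    refine jn 4001 (by decide +kernel) ?_
    refine jn 4056 (by decide +kernel) ?_
    refine jn 4072 (by decide +kernel) ?_
    refine jn 4123 (by decide +kernel) ?_
    refine jn 4136 (by decide +kernel) ?_
    refine jn 4163 (by decide +kernel) ?_
    refine jn 4208 (by decide +kernel) ?_
    refine jn 4231 (by decide +kernel) ?_
    refine jn 4255 (by decide +kernel) ?_
    refine jn 4292 (by decide +kernel) ?_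
    refine jn 4336 (by decide +kernel) ?_
    refine jn 4364 (by decide +kernel) ?_
    refine jn 4408 (by decide +kernel) ?_
    refine jn 4436 (by decide +kernel) ?_
    refine jn 4473 (by decide +kernel) ?_
    refine jn 4483 (by decide +kernel) ?_
    refine jn 4527 (by decide +kernel) ?_
    refine jn 4556 (by decide +kernel) ?_
    refine jn 4568 (by decide +kernel) ?_
    refine jn 4623 (by decide +kernel) ?_
    refine jn 4660 (by decide +kernel) ?_
    refine jn 4671 (by decide +kernel) ?_
    refine jn 4688 (by decide +kernel) ?_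
    refine jn 4708 (by decide +kernel) ?_
    refine jn 4735 (by decide +kernel) ?_
    refine jn 4747 (by decide +kernel) ?_
    refine jn 4779 (by decide +kernel) ?_
    refine jn 4800 (by decide +kernel) ?_
    refine jn 4835 (by decide +kernel) ?_
    refine jn 4860 (by decide +kernel) ?_
    refine jn 4861 (by decide +kernel) ?_
    refine jn 4893 (by decide +kernel) ?_
    refine jn 4923 (by decide +kernel) ?_
    refine jn 4944 (by decide +kernel) ?_
    refine jn 4988 (by decide +kernel) ?_
    refine jn 4996 (by decide +kernel) ?_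
    refine jn 5031 (by decide +kernel) ?_
    refine jn 5051 (by decide +kernel) ?_
    refine jn 5083 (by decide +kernel) ?_
    refine jn 5131 (by decide +kernel) ?_
    refine jn 5160 (by decide +kernel) ?_
    refine jn 5180 (by decide +kernel) ?_
    refine jn 5211 (by decide +kernel) ?_
    refine jn 5236 (by decide +kernel) ?_
    refine jn 5260 (by decide +kernel) ?_
    refine jn 5280 (by decide +kernel) ?_
    refine jn 5313 (by decide +kernel) ?_
    refine jn 5355 (by decide +kernel) ?_
    refine jn 5385 (by decide +kernel) ?_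
    refine jn 5420 (by decide +kernel) ?_
    refine jn 5436 (by decide +kernel) ?_
    refine jn 5468 (by decide +kernel) ?_
    refine jn 5505 (by decide +kernel) ?_
    refine jn 5543 (by decide +kernel) ?_
    refine jn 5606 (by decide +kernel) ?_
    refine jn 5663 (by decide +kernel) ?_
    refine jn 5734 (by decide +kernel) ?_
    refine jn 5779 (by decide +kernel) ?_
    refine jn 5846 (by decide +kernel) ?_
    refine jn 5894 (by decide +kernel) ?_
    refine jn 5960 (by decide +kernel) ?_
    refine jn 6038 (by decide +kernel) ?_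
    refine jn 6102 (by decide +kernel) ?_
    refine jn 6171 (by decide +kernel) ?_
    refine jn 6238 (by decide +kernel) ?_
    refine jn 6303 (by decide +kernel) ?_
    refine jn 6363 (by decide +kernel) ?_
    refine jn 6406 (by decide +kernel) ?_
    refine jn 6455 (by decide +kernel) ?_
    refine jn 6531 (by decide +kernel) ?_
    refine jn 6591 (by decide +kernel) ?_
    refine jn 6662 (by decide +kernel) ?_
    refine jn 6737 (by decide +kernel) ?_
    refine jn 6797 (by decide +kernel) ?_
    refine jn 6861 (by decide +kernel) ?_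
    refine jn 6942 (by decide +kernel) ?_
    refine jn 6989 (by decide +kernel) ?_
    refine jn 7066 (by decide +kernel) ?_
    refine jn 7134 (by decide +kernel) ?_
    refine jn 7191 (by decide +kernel) ?_
    refine jn 7254 (by decide +kernel) ?_
    refine jn 7330 (by decide +kernel) ?_
    refine jn 7405 (by decide +kernel) ?_
    refine jn 7466 (by decide +kernel) ?_
    refine jn 7531 (by decide +kernel) ?_
    refine jn 7618 (by decide +kernel) ?_
    refine jn 7674 (by decide +kernel) ?_
    refine jn 7737 (by decide +kernel) ?_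
    refine jn 7809 (by decide +kernel) ?_
    refine jn 7882 (by decide +kernel) ?_
    refine jn 7954 (by decide +kernel) ?_
    refine jn 8026 (by decide +kernel) ?_
    refine jn 8106 (by decide +kernel) ?_
    refine jn 8169 (by decide +kernel) ?_
    refine jn 8241 (by decide +kernel) ?_
    refine jn 8257 (by decide +kernel) ?_
    refine jn 8329 (by decide +kernel) ?_
    refine jn 8409 (by decide +kernel) ?_
    refine jn 8817 (by decide +kernel) ?_
    refine jn 8906 (by decide +kernel) ?_
    refine jn 9049 (by decide +kernel) ?_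
    refine jn 9174 (by decide +kernel) ?_
    refine jn 9281 (by decide +kernel) ?_
    refine jn 9402 (by decide +kernel) ?_
    refine jn 9530 (by decide +kernel) ?_
    refine jn 9650 (by decide +kernel) ?_
    refine jn 9770 (by decide +kernel) ?_
    refine jn 9903 (by decide +kernel) ?_
    refine jn 10025 (by decide +kernel) ?_
    refine jn 10161 (by decide +kernel) ?_
    refine jn 10274 (by decide +kernel) ?_
    refine jn 10397 (by decide +kernel) ?_
    refine jn 10551 (by decide +kernel) ?_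
    refine jn 10655 (by decide +kernel) ?_
    refine jn 10782 (by decide +kernel) ?_
    refine jn 10903 (by decide +kernel) ?_
    refine jn 11034 (by decide +kernel) ?_
    refine jn 11169 (by decide +kernel) ?_
    refine jn 11438 (by decide +kernel) ?_
    refine jn 11799 (by decide +kernel) ?_
    refine jn 11947 (by decide +kernel) ?_
    refine jn 12109 (by decide +kernel) ?_
    refine jn 12234 (by decide +kernel) ?_
    refine jn 12338 (by decide +kernel) ?_
    refine jn 12424 (by decide +kernel) ?_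
    refine jn 12510 (by decide +kernel) ?_
    refine jn 12588 (by decide +kernel) ?_
    refine jn 12659 (by decide +kernel) ?_
    refine jn 12719 (by decide +kernel) ?_
    refine jn 12770 (by decide +kernel) ?_
    refine jn 12821 (by decide +kernel) ?_
    refine jn 12871 (by decide +kernel) ?_
    refine jn 12924 (by decide +kernel) ?_
    refine jn 12964 (by decide +kernel) ?_
    refine jn 13015 (by decide +kernel) ?_
    refine jn 13066 (by decide +kernel) ?_
    refine jn 13111 (by decide +kernel) ?_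
    refine jn 13156 (by decide +kernel) ?_
    refine jn 13196 (by decide +kernel) ?_
    refine jn 13235 (by decide +kernel) ?_
    refine jn 13314 (by decide +kernel) ?_
    refine jn 13762 (by decide +kernel) ?_
    refine jn 14016 (by decide +kernel) ?_
    refine jn 14182 (by decide +kernel) ?_
    refine jn 14313 (by decide +kernel) ?_
    refine jn 14420 (by decide +kernel) ?_
    refine jn 14520 (by decide +kernel) ?_
    refine jn 14638 (by decide +kernel) ?_
    refine jn 14746 (by decide +kernel) ?_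
    refine jn 14818 (by decide +kernel) ?_
    refine jn 14892 (by decide +kernel) ?_
    refine jn 14960 (by decide +kernel) ?_
    refine jn 15012 (by decide +kernel) ?_
    refine jn 15081 (by decide +kernel) ?_
    refine jn 15138 (by decide +kernel) ?_
    refine jn 15204 (by decide +kernel) ?_
    refine jn 15262 (by decide +kernel) ?_
    refine jn 15318 (by decide +kernel) ?_
    refine jn 15703 (by decide +kernel) ?_
    refine jn 15901 (by decide +kernel) ?_
    refine jn 16095 (by decide +kernel) ?_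
    refine jn 16208 (by decide +kernel) ?_
    refine jn 16318 (by decide +kernel) ?_
    refine jn 16396 (by decide +kernel) ?_
    refine jn 16462 (by decide +kernel) ?_
    refine jn 16529 (by decide +kernel) ?_
    refine jn 16606 (by decide +kernel) ?_
    refine jn 16660 (by decide +kernel) ?_
    refine jn 16735 (by decide +kernel) ?_
    refine jn 16802 (by decide +kernel) ?_
    refine jn 16856 (by decide +kernel) ?_
    refine jn 16905 (by decide +kernel) ?_
    refine jn 16954 (by decide +kernel) ?_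
    refine jn 17011 (by decide +kernel) ?_
    refine jn 17056 (by decide +kernel) ?_
    refine jn 17112 (by decide +kernel) ?_
    refine jn 17157 (by decide +kernel) ?_
    refine jn 17202 (by decide +kernel) ?_
    refine jn 17247 (by decide +kernel) ?_
    refine jn 17285 (by decide +kernel) ?_
    refine jn 17323 (by decide +kernel) ?_
    refine jn 17364 (by decide +kernel) ?_
    refine jn 17808 (by decide +kernel) ?_
    refine jn 18040 (by decide +kernel) ?_
    refine jn 18192 (by decide +kernel) ?_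
    refine jn 18377 (by decide +kernel) ?_
    refine jn 18534 (by decide +kernel) ?_
    refine jn 18649 (by decide +kernel) ?_
    refine jn 18757 (by decide +kernel) ?_
    refine jn 18860 (by decide +kernel) ?_
    refine jn 18947 (by decide +kernel) ?_
    refine jn 19031 (by decide +kernel) ?_
    refine jn 19113 (by decide +kernel) ?_
    refine jn 19189 (by decide +kernel) ?_
    refine jn 19259 (by decide +kernel) ?_
    refine jn 19335 (by decide +kernel) ?_
    refine jn 19384 (by decide +kernel) ?_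
    refine jn 19427 (by decide +kernel) ?_
    refine jn 20074 (by decide +kernel) ?_
    refine jn 20325 (by decide +kernel) ?_
    refine jn 20473 (by decide +kernel) ?_
    refine jn 20657 (by decide +kernel) ?_
    refine jn 20830 (by decide +kernel) ?_
    refine jn 20968 (by decide +kernel) ?_
    refine jn 21423 (by decide +kernel) ?_
    refine jn 21914 (by decide +kernel) ?_
    refine jn 22131 (by decide +kernel) ?_
    refine jn 22330 (by decide +kernel) ?_
    refine jn 22502 (by decide +kernel) ?_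
    refine jn 22683 (by decide +kernel) ?_
    exact je (by decide +kernel)
  · refine fin 696 1011 T67_1 ?_
    refine jn 6 (by decide +kernel) ?_
    refine jn 7 (by decide +kernel) ?_
    refine jn 10 (by decide +kernel) ?_
    refine jn 12 (by decide +kernel) ?_
    refine jn 14 (by decide +kernel) ?_
    refine jn 16 (by decide +kernel) ?_
    refine jn 18 (by decide +kernel) ?_
    refine jn 20 (by decide +kernel) ?_
    refine jn 21 (by decide +kernel) ?_
    refine jn 24 (by decide +kernel) ?_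
    refine jn 26 (by decide +kernel) ?_
    refine jn 28 (by decide +kernel) ?_
    refine jn 30 (by decide +kernel) ?_
    refine jn 44 (by decide +kernel) ?_
    refine jn 49 (by decide +kernel) ?_
    refine jn 52 (by decide +kernel) ?_
    refine jn 55 (by decide +kernel) ?_
    refine jn 60 (by decide +kernel) ?_
    refine jn 64 (by decide +kernel) ?_
    refine jn 68 (by decide +kernel) ?_
    refine jn 71 (by decide +kernel) ?_
    refine jn 73 (by decide +kernel) ?_
    refine jn 86 (by decide +kernel) ?_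
    refine jn 97 (by decide +kernel) ?_
    refine jn 118 (by decide +kernel) ?_
    refine jn 134 (by decide +kernel) ?_
    refine jn 148 (by decide +kernel) ?_
    refine jn 155 (by decide +kernel) ?_
    refine jn 183 (by decide +kernel) ?_
    refine jn 192 (by decide +kernel) ?_
    refine jn 195 (by decide +kernel) ?_
    refine jn 197 (by decide +kernel) ?_
    refine jn 200 (by decide +kernel) ?_
    refine jn 202 (by decide +kernel) ?_
    refine jn 205 (by decide +kernel) ?_
    refine jn 207 (by decide +kernel) ?_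
    refine jn 212 (by decide +kernel) ?_
    refine jn 220 (by decide +kernel) ?_
    refine jn 228 (by decide +kernel) ?_
    refine jn 237 (by decide +kernel) ?_
    refine jn 264 (by decide +kernel) ?_
    refine jn 275 (by decide +kernel) ?_
    refine jn 280 (by decide +kernel) ?_
    refine jn 293 (by decide +kernel) ?_
    refine jn 313 (by decide +kernel) ?_
    refine jn 325 (by decide +kernel) ?_
    refine jn 330 (by decide +kernel) ?_
    refine jn 335 (by decide +kernel) ?_
    refine jn 340 (by decide +kernel) ?_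
    refine jn 353 (by decide +kernel) ?_
    refine jn 362 (by decide +kernel) ?_
    refine jn 366 (by decide +kernel) ?_
    refine jn 386 (by decide +kernel) ?_
    refine jn 396 (by decide +kernel) ?_
    refine jn 439 (by decide +kernel) ?_
    refine jn 464 (by decide +kernel) ?_
    refine jn 466 (by decide +kernel) ?_
    refine jn 467 (by decide +kernel) ?_
    refine jn 468 (by decide +kernel) ?_
    refine jn 469 (by decide +kernel) ?_
    refine jn 470 (by decide +kernel) ?_
    refine jn 471 (by decide +kernel) ?_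
    refine jn 472 (by decide +kernel) ?_
    refine jn 473 (by decide +kernel) ?_
    refine jn 474 (by decide +kernel) ?_
    refine jn 475 (by decide +kernel) ?_
    refine jn 476 (by decide +kernel) ?_
    refine jn 477 (by decide +kernel) ?_
    refine jn 485 (by decide +kernel) ?_
    refine jn 486 (by decide +kernel) ?_
    refine jn 488 (by decide +kernel) ?_
    refine jn 490 (by decide +kernel) ?_
    refine jn 491 (by decide +kernel) ?_
    refine jn 493 (by decide +kernel) ?_
    refine jn 495 (by decide +kernel) ?_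
    refine jn 496 (by decide +kernel) ?_
    refine jn 503 (by decide +kernel) ?_
    refine jn 505 (by decide +kernel) ?_
    refine jn 513 (by decide +kernel) ?_
    refine jn 516 (by decide +kernel) ?_
    refine jn 528 (by decide +kernel) ?_
    refine jn 534 (by decide +kernel) ?_
    refine jn 540 (by decide +kernel) ?_
    refine jn 578 (by decide +kernel) ?_
    refine jn 589 (by decide +kernel) ?_
    refine jn 597 (by decide +kernel) ?_
    refine jn 606 (by decide +kernel) ?_
    refine jn 615 (by decide +kernel) ?_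
    refine jn 629 (by decide +kernel) ?_
    refine jn 630 (by decide +kernel) ?_
    refine jn 631 (by decide +kernel) ?_
    refine jn 632 (by decide +kernel) ?_
    refine jn 633 (by decide +kernel) ?_
    refine jn 634 (by decide +kernel) ?_
    refine jn 642 (by decide +kernel) ?_
    refine jn 645 (by decide +kernel) ?_
    refine jn 648 (by decide +kernel) ?_
    refine jn 650 (by decide +kernel) ?_
    refine jn 655 (by decide +kernel) ?_
    refine jn 659 (by decide +kernel) ?_
    refine jn 664 (by decide +kernel) ?_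
    refine jn 686 (by decide +kernel) ?_
    refine jn 693 (by decide +kernel) ?_
    refine jn 694 (by decide +kernel) ?_
    refine jn 695 (by decide +kernel) ?_
    refine jn 696 (by decide +kernel) ?_
    refine jn 697 (by decide +kernel) ?_
    refine jn 698 (by decide +kernel) ?_
    refine jn 699 (by decide +kernel) ?_
    refine jn 700 (by decide +kernel) ?_
    refine jn 701 (by decide +kernel) ?_
    refine jn 702 (by decide +kernel) ?_
    refine jn 703 (by decide +kernel) ?_
    refine jn 704 (by decide +kernel) ?_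
    refine jn 705 (by decide +kernel) ?_
    refine jn 707 (by decide +kernel) ?_
    refine jn 710 (by decide +kernel) ?_
    refine jn 715 (by decide +kernel) ?_
    refine jn 716 (by decide +kernel) ?_
    refine jn 720 (by decide +kernel) ?_
    refine jn 721 (by decide +kernel) ?_
    refine jn 722 (by decide +kernel) ?_
    refine jn 723 (by decide +kernel) ?_
    refine jn 726 (by decide +kernel) ?_
    refine jn 728 (by decide +kernel) ?_
    refine jn 731 (by decide +kernel) ?_
    refine jn 734 (by decide +kernel) ?_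
    refine jn 737 (by decide +kernel) ?_
    refine jn 751 (by decide +kernel) ?_
    refine jn 757 (by decide +kernel) ?_
    refine jn 766 (by decide +kernel) ?_
    refine jn 768 (by decide +kernel) ?_
    refine jn 770 (by decide +kernel) ?_
    refine jn 772 (by decide +kernel) ?_
    refine jn 777 (by decide +kernel) ?_
    refine jn 781 (by decide +kernel) ?_
    refine jn 786 (by decide +kernel) ?_
    refine jn 792 (by decide +kernel) ?_
    refine jn 800 (by decide +kernel) ?_
    refine jn 802 (by decide +kernel) ?_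
    refine jn 803 (by decide +kernel) ?_
    refine jn 805 (by decide +kernel) ?_
    refine jn 808 (by decide +kernel) ?_
    refine jn 810 (by decide +kernel) ?_
    refine jn 815 (by decide +kernel) ?_
    refine jn 828 (by decide +kernel) ?_
    refine jn 836 (by decide +kernel) ?_
    refine jn 837 (by decide +kernel) ?_
    refine jn 838 (by decide +kernel) ?_
    refine jn 840 (by decide +kernel) ?_
    refine jn 844 (by decide +kernel) ?_
    refine jn 849 (by decide +kernel) ?_
    refine jn 862 (by decide +kernel) ?_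
    refine jn 869 (by decide +kernel) ?_
    refine jn 870 (by decide +kernel) ?_
    refine jn 873 (by decide +kernel) ?_
    refine jn 876 (by decide +kernel) ?_
    refine jn 882 (by decide +kernel) ?_
    refine jn 886 (by decide +kernel) ?_
    refine jn 896 (by decide +kernel) ?_
    refine jn 899 (by decide +kernel) ?_
    refine jn 900 (by decide +kernel) ?_
    refine jn 902 (by decide +kernel) ?_
    refine jn 903 (by decide +kernel) ?_
    refine jn 904 (by decide +kernel) ?_
    refine jn 905 (by decide +kernel) ?_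
    refine jn 906 (by decide +kernel) ?_
    refine jn 907 (by decide +kernel) ?_
    refine jn 908 (by decide +kernel) ?_
    refine jn 909 (by decide +kernel) ?_
    refine jn 911 (by decide +kernel) ?_
    refine jn 912 (by decide +kernel) ?_
    refine jn 913 (by decide +kernel) ?_
    refine jn 914 (by decide +kernel) ?_
    refine jn 918 (by decide +kernel) ?_
    refine jn 923 (by decide +kernel) ?_
    refine jn 925 (by decide +kernel) ?_
    refine jn 926 (by decide +kernel) ?_
    refine jn 936 (by decide +kernel) ?_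
    refine jn 938 (by decide +kernel) ?_
    refine jn 942 (by decide +kernel) ?_
    refine jn 946 (by decide +kernel) ?_
    refine jn 948 (by decide +kernel) ?_
    refine jn 956 (by decide +kernel) ?_
    refine jn 965 (by decide +kernel) ?_
    refine jn 969 (by decide +kernel) ?_
    refine jn 974 (by decide +kernel) ?_
    refine jn 988 (by decide +kernel) ?_
    refine jn 990 (by decide +kernel) ?_
    refine jn 995 (by decide +kernel) ?_
    refine jn 1002 (by decide +kernel) ?_
    exact je (by decide +kernel)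

end Pool.Agent.MP_2339ce_nt.NR
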