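import Pool.Agent.MP_2339ce_nt.Q2.NC.L5
import Pool.Agent.MP_2339ce_nt.Q2.NC.L8
import Pool.Agent.MP_2339ce_nt.Q2.NC.L10
import Pool.Agent.MP_2339ce_nt.Q2.CkI

/-! Block NR: runs. -/

set_option autoImplicit false
set_option maxRecDepth 100000

noncomputable section

namespace Pool.Agent.MP_2339ce_nt.NR

open Q2.Top

def T71_0 : Ph :=
  (.na 627 167 (.na 380 99 (.na 197 66 (.na 109 55 (.na 57 47 (.na 20 42 (.nx 19 1664512 (.nr 18
  881745 (.nr 1 38 .s1 (.nx 5 257 (.nx 3 129 (.nr 2 338 (.l1 (.ls 23 29 429)) (.l1 .sk)) (.nx 4 130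
  (.l1 .sk) (.l1 (.ls 79 37 1263)))) (.nr 17 440873 (.nx 9 20644 (.lg 0 false 4 97 97 17 0 80496)
  (.nr 16 46342 (.nr 13 338 (.lg 0 true 4 71 71 17 0 80496) (.nx 15 104033 (.lg 2 true 2 83 83 17
  19853 80496) .out)) .out)) .out))) .out) .out) (.na 39 46 (.nx 38 1664512 (.nr 37 881745 (.nr 21
  41 .s1 (.nx 22 257 (.l1 (.ls 83 43 1575)) (.nr 36 440873 (.nx 27 20644 (.lg 0 false 5 97 97 29 0
  216720) (.nr 35 46342 (.nr 32 370 (.lg 0 true 5 73 73 29 0 216720) (.nx 34 104033 (.lg 2 true 2
  83 83 23 18731 216720) .out)) .out)) .out))) .out) .out) (.nx 56 1664512 (.nr 55 881745 (.nr 40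
  45 .s1 (.nx 47 20644 (.nx 41 257 (.l1 (.ls 79 41 1438)) (.nr 46 623489 (.lg 0 false 5 97 97 19 0
  10320) .out)) (.nr 54 46342 (.nr 51 379 (.lg 0 true 4 71 71 19 0 2064) (.nx 53 104033 (.lg 2
  false 2 79 79 13 18731 2064) .out)) .out))) .out) .out))) (.na 89 50 (.na 73 49 (.nx 72 1664512
  (.nr 71 881745 (.nr 58 46 .s1 (.nx 64 20644 (.nx 59 257 (.l1 (.ls 79 29 1408)) (.nr 63 623489
  (.lg 0 false 4 103 103 16 0 2383920) .out)) (.nr 70 46342 (.nr 68 395 (.lg 0 true 4 73 73 16 0
  2064) (.nx 69 104033 (.lg 2 true 1 89 89 16 18731 1032) .out)) .out))) .out) .out) (.nx 88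
  1664512 (.nr 87 881745 (.nr 74 48 .s1 (.nx 80 20644 (.nx 75 257 (.l1 (.ls 79 31 1350)) (.nr 79
  623489 (.lg 0 false 4 97 97 16 0 216720) .out)) (.nr 86 46342 (.nr 84 403 (.lg 0 true 4 71 71 16
  0 14448) (.nx 85 104033 (.lg 2 true 1 83 83 16 18731 108360) .out)) .out))) .out) .out)) (.na 108
  54 (.nx 107 1664512 (.nr 106 881745 (.nr 90 49 .s1 (.nx 99 20644 (.nx 91 257 (.l1 (.ls 79 41
  1323)) (.nr 98 623489 (.lg 0 false 7 89 97 23 0 216720) .out)) (.nr 105 46342 (.nr 102 257 (.lg 0
  true 3 67 67 19 0 30960) (.nx 104 104033 (.lg 2 false 2 79 79 19 26110 10320) .out)) .out)))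
  .out) .out) (.lg 0 false 1 0 0 16 0 24)))) (.na 163 59 (.na 130 57 (.nx 129 1664512 (.nr 128
  881745 (.nr 110 54 .s1 (.nx 113 130 (.nx 112 129 (.nr 111 459 (.l1 (.ls 29 23 305)) (.l1 .sk))
  (.l1 .sk)) (.nx 121 26009 (.nx 114 257 (.l1 (.ls 83 31 896)) (.nr 120 623489 (.nx 118 13005 (.lg
  0 false 4 97 101 19 0 340560) (.nr 119 110219 (.lg 1 true 1 89 89 17 70603 170280) .out)) .out))
  (.nr 127 32769 (.nr 125 459 (.lg 0 true 4 73 73 19 0 113520) (.nx 126 104033 (.lg 2 true 1 83 83
  17 14620 56760) .out)) .out)))) .out) .out) (.na 146 58 (.nx 145 1664512 (.nr 144 881745 (.nr 131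
  56 .s1 (.nx 137 20644 (.nx 132 257 (.l1 (.ls 79 37 1161)) (.nr 136 623489 (.lg 0 false 4 97 97 17
  0 30960) .out)) (.nr 143 46342 (.nr 141 467 (.lg 0 true 4 71 71 17 0 6192) (.nx 142 104033 (.lg 2
  true 1 83 83 16 18731 15480) .out)) .out))) .out) .out) (.nx 162 1664512 (.nr 161 881745 (.nr 147
  57 .s1 (.nx 148 257 (.l1 (.ls 83 41 1141)) (.nr 160 623489 (.nx 153 20644 (.lg 0 false 5 101 101
  19 0 2383920) (.nr 159 46342 (.nr 157 475 (.lg 0 true 4 73 73 19 0 2064) (.nx 158 104033 (.lg 2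
  true 1 89 89 13 18731 2064) .out)) .out)) .out))) .out) .out))) (.na 180 64 (.na 179 63 (.nx 178
  1664512 (.nr 177 881745 (.nr 164 58 .s1 (.nx 165 257 (.l1 (.ls 73 23 1122)) (.nr 176 623489 (.nx
  169 20644 (.lg 0 false 4 89 89 16 0 2064) (.nr 175 46342 (.nr 173 507 (.lg 0 true 4 71 71 16 0
  2064) (.nx 174 104033 (.lg 2 true 1 79 79 16 18731 1032) .out)) .out)) .out))) .out) .out) (.lg 0
  false 1 0 0 16 0 24)) (.na 181 65 .ne (.nx 196 1664512 (.nr 195 524289 (.nr 182 65 .s1 (.nx 192
  104033 (.nx 189 20644 (.nx 184 129 (.nr 183 531 (.l1 (.ls 29 23 259)) (.l1 .sk)) (.nx 185 130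
  (.l1 .sk) (.lg 0 false 4 89 89 23 0 134160))) (.nr 191 32769 (.lg 0 false 2 89 89 19 0 134160)
  .out)) (.nr 194 513 (.lg 0 true 2 79 79 19 0 134160) .out))) .out) .out))))) (.na 290 89 (.na 245
  78 (.na 214 69 (.nx 213 1664512 (.nr 212 524289 (.nr 198 66 .s1 (.nx 200 129 (.nr 199 556 (.l1
  (.ls 23 37 255)) (.l1 .sk)) (.nx 201 130 (.l1 .sk) (.nx 206 20644 (.lg 0 false 5 89 89 31 0
  340560) (.nr 211 32769 (.nr 209 513 (.lg 0 true 3 71 71 29 0 68112) (.nx 210 104033 (.lg 2 true 1
  79 79 23 13260 68112) .out)) .out))))) .out) .out) (.na 230 70 (.nx 229 1664512 (.nr 228 524289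
  (.nr 215 69 .s1 (.nx 222 20644 (.nx 217 129 (.nr 216 564 (.l1 (.ls 17 19 244)) (.l1 .sk)) (.nx
  218 130 (.l1 .sk) (.lg 0 false 4 89 89 17 0 6192))) (.nr 227 32769 (.nr 225 513 (.lg 0 true 3 71
  71 17 0 3096) (.nx 226 104033 (.lg 2 true 1 73 73 16 13260 3096) .out)) .out))) .out) .out) (.nx
  244 1664512 (.nr 243 524289 (.nr 231 70 .s1 (.nx 234 130 (.nx 233 129 (.nr 232 628 (.l1 (.ls 29
  31 240)) (.l1 .sk)) (.l1 .sk)) (.nx 236 13005 (.lg 0 false 2 97 97 29 0 72240) (.nr 242 65537
  (.nx 237 20644 (.lg 1 false 1 79 79 23 42015 216720) (.nr 241 32769 (.nr 239 513 (.lg 0 true 2 73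
  73 29 0 72240) (.nx 240 104033 (.lg 2 true 1 79 79 23 13260 72240) .out)) .out)) .out)))) .out)
  .out))) (.na 261 86 (.na 260 81 (.nx 259 1664512 (.nr 258 524289 (.nr 246 78 .s1 (.nx 252 20644
  (.nx 248 129 (.nr 247 652 (.l1 (.ls 23 31 216)) (.l1 .sk)) (.nx 249 130 (.l1 .sk) (.lg 0 false 3
  89 89 29 0 80496))) (.nr 257 32769 (.nr 255 513 (.lg 0 true 3 71 71 29 0 80496) (.nx 256 104033
  (.lg 2 true 1 73 73 23 13260 80496) .out)) .out))) .out) .out) (.lg 0 false 1 0 0 16 0 24)) (.na
  276 87 (.nx 275 1664512 (.nr 274 524289 (.nr 262 86 .s1 (.nx 265 130 (.nx 264 129 (.nr 263 700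
  (.lg 0 false 1 0 16 13 0 30990960) (.l1 .sk)) (.l1 .sk)) (.nx 268 20644 (.lg 0 true 3 83 83 19 0
  216720) (.nr 273 32769 (.nr 270 513 (.lg 0 false 2 67 67 13 0 2064) (.nx 272 104033 (.lg 2 true 2
  61 61 13 13260 2064) .out)) .out)))) .out) .out) (.nx 289 1664512 (.nr 288 524289 (.nr 277 87 .s1
  (.nx 284 20644 (.nx 279 129 (.nr 278 717 (.l1 (.ls 19 19 194)) (.l1 .sk)) (.nx 280 130 (.l1 .sk)
  (.lg 0 false 4 89 89 19 0 6192))) (.nr 287 32769 (.nr 285 513 (.lg 0 false 1 79 79 16 0 3096)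
  (.nx 286 104033 (.lg 2 true 1 73 73 16 13260 3096) .out)) .out))) .out) .out)))) (.na 320 94 (.na
  304 90 (.nx 303 1664512 (.nr 302 524289 (.nr 291 89 .s1 (.nx 298 20644 (.nx 293 129 (.nr 292 725
  (.l1 (.ls 17 17 189)) (.l1 .sk)) (.nx 294 130 (.l1 .sk) (.lg 0 false 4 83 83 16 0 2064))) (.nr
  301 32769 (.nr 299 513 (.lg 0 false 1 73 73 16 0 108360) (.nx 300 104033 (.lg 2 true 1 71 71 16
  13260 1032) .out)) .out))) .out) .out) (.na 305 91 (.lg 0 false 1 0 0 16 0 24) (.nx 319 1664512
  (.nr 318 1048577 (.nr 306 91 .s1 (.nx 309 130 (.nx 308 129 (.nr 307 757 (.l1 (.ls 29 23 185))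
  (.l1 .sk)) (.l1 .sk)) (.nx 313 13005 (.lg 0 false 4 97 101 23 0 30990960) (.nr 317 65537 (.nr 315
  513 (.lg 0 true 2 73 73 19 0 187824) (.nx 316 104033 (.lg 1 false 1 97 97 19 42015 281736) .out))
  .out)))) .out) .out))) (.na 351 97 (.na 336 95 (.nx 335 1664512 (.nr 334 1048577 (.nr 321 94 .s1
  (.nx 323 129 (.nr 322 765 (.l1 (.ls 19 23 180)) (.l1 .sk)) (.nx 324 130 (.l1 .sk) (.nx 329 20644
  (.lg 0 false 5 89 89 23 0 10320) (.nr 333 32769 (.nr 331 513 (.lg 0 true 2 67 67 19 0 2064) (.nx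
  332 104033 (.lg 2 true 1 73 73 17 13260 2064) .out)) .out))))) .out) .out) (.nx 350 1664512 (.nr
  349 1048577 (.nr 337 95 .s1 (.nx 344 13005 (.nx 339 129 (.nr 338 781 (.l1 (.ls 17 17 178)) (.l1
  .sk)) (.nx 340 130 (.l1 .sk) (.lg 0 false 4 97 101 17 0 216720))) (.nr 348 65537 (.nr 346 513
  (.lg 0 true 2 73 73 17 0 10320) (.nx 347 104033 (.lg 1 false 1 97 97 17 42015 15480) .out))
  .out))) .out) .out)) (.na 366 98 (.nx 365 1664512 (.nr 364 1048577 (.nr 352 97 .s1 (.nx 355 130
  (.nx 354 129 (.nr 353 789 (.l1 (.ls 17 17 174)) (.l1 .sk)) (.l1 .sk)) (.nx 359 20644 (.lg 0 false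
  4 83 83 17 0 2064) (.nr 363 32769 (.nr 361 513 (.lg 0 true 2 61 61 16 0 2064) (.nx 362 104033
  (.lg 2 true 1 67 67 16 13260 15480) .out)) .out)))) .out) .out) (.nx 379 1664512 (.nr 378 1048577
  (.nr 367 98 .s1 (.nx 370 130 (.nx 369 129 (.nr 368 797 (.l1 (.ls 23 29 172)) (.l1 .sk)) (.l1
  .sk)) (.nx 373 13005 (.lg 0 false 3 89 89 23 0 216720) (.nr 377 65537 (.nr 375 513 (.lg 0 true 2
  67 67 23 0 14448) (.nx 376 104033 (.lg 2 true 1 83 83 19 42015 14448) .out)) .out)))) .out)
  .out)))))) (.na 511 135 (.na 461 125 (.na 407 113 (.na 381 105 (.lg 0 false 1 0 0 16 0 24) (.na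
  394 110 (.nx 393 1664512 (.nr 392 1048577 (.nr 382 105 .s1 (.nx 385 130 (.nx 384 129 (.nr 383 886
  (.l1 (.ls 29 29 161)) (.l1 .sk)) (.l1 .sk)) (.nx 387 13005 (.lg 0 false 2 97 97 29 0 216720) (.nr
  391 65537 (.nr 389 513 (.lg 0 true 2 73 73 29 0 216720) (.nx 390 104033 (.lg 1 false 1 89 89 23
  42015 108360) .out)) .out)))) .out) .out) (.nx 406 1664512 (.nr 405 1048577 (.nr 395 110 .s1 (.nx
  398 130 (.nx 397 129 (.nr 396 910 (.l1 (.ls 31 31 154)) (.l1 .sk)) (.l1 .sk)) (.nx 400 13005 (.lg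
  0 false 2 97 97 31 0 113520) (.nr 404 65537 (.nr 402 513 (.lg 0 true 2 73 73 31 0 113520) (.nx
  403 104033 (.lg 1 false 1 97 97 29 42015 2383920) .out)) .out)))) .out) .out))) (.na 434 118 (.na
  421 114 (.nx 420 1664512 (.nr 419 1048577 (.nr 408 113 .s1 (.nx 410 129 (.nr 409 918 (.l1 (.ls 17
  17 150)) (.l1 .sk)) (.nx 411 130 (.l1 .sk) (.nx 415 20644 (.lg 0 false 4 83 83 17 0 2064) (.nr
  418 32769 (.nr 416 513 (.lg 2 false 1 67 67 16 950098 1032) (.nx 417 104033 (.lg 2 true 1 67 67
  16 13260 1032) .out)) .out))))) .out) .out) (.nx 433 1664512 (.nr 432 1048577 (.nr 422 114 .s1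
  (.nx 424 129 (.nr 423 950 (.l1 (.ls 17 31 148)) (.l1 .sk)) (.nx 425 130 (.l1 .sk) (.nx 428 20644
  (.lg 0 false 3 89 89 31 0 6192) (.nr 431 32769 (.nr 429 513 (.lg 2 false 1 73 73 29 941764
  216720) (.nx 430 104033 (.lg 2 true 1 73 73 29 13260 216720) .out)) .out))))) .out) .out)) (.na
  447 121 (.nx 446 1664512 (.nr 445 1048577 (.nr 435 118 .s1 (.nx 441 20644 (.nx 437 129 (.nr 436
  974 (.l1 (.ls 19 23 144)) (.l1 .sk)) (.nx 438 130 (.l1 .sk) (.lg 0 false 3 89 89 23 0 6192)))
  (.nr 444 32769 (.nr 442 513 (.lg 2 false 1 71 71 19 909840 2064) (.nx 443 104033 (.lg 2 true 1 71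
  71 19 13260 2064) .out)) .out))) .out) .out) (.nx 460 1664512 (.nr 459 1048577 (.nr 448 121 .s1
  (.nx 450 129 (.nr 449 1006 (.l1 (.ls 19 19 140)) (.l1 .sk)) (.nx 451 130 (.l1 .sk) (.nx 455 20644
  (.lg 0 false 4 83 83 19 0 22704) (.nr 458 32769 (.nr 456 513 (.lg 2 false 1 67 67 17 887282
  11352) (.nx 457 104033 (.lg 2 true 1 67 67 17 13260 11352) .out)) .out))))) .out) .out)))) (.na
  477 129 (.na 475 126 (.nx 474 1664512 (.nr 473 1048577 (.nr 462 125 .s1 (.nx 465 130 (.nx 464 129
  (.nr 463 1014 (.l1 (.ls 16 17 136)) (.l1 .sk)) (.l1 .sk)) (.nx 469 20644 (.lg 0 false 4 83 83 19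
  0 30960) (.nr 472 32769 (.nr 470 513 (.lg 2 false 1 61 61 16 858889 15480) (.nx 471 104033 (.lg 2
  true 1 61 61 16 13260 5160) .out)) .out)))) .out) .out) (.na 476 128 (.lg 0 false 1 0 0 16 0 24)
  .ne)) (.na 500 131 (.na 489 130 (.nx 488 832257 (.nr 487 1048577 (.nr 478 129 .s1 (.nx 479 257
  (.l1 (.ls 67 29 515)) (.nr 486 741457 (.nr 483 16385 (.lg 0 false 4 73 73 19 0 6192) (.nx 485
  13005 (.lg 0 true 2 79 79 17 0 6192) .out)) .out))) .out) .out) (.nx 499 832257 (.nr 498 1048577
  (.nr 490 130 .s1 (.nx 491 257 (.l1 (.ls 79 37 511)) (.nr 497 741457 (.nx 493 13005 (.lg 0 false 2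
  89 89 31 0 134160) (.nr 496 16385 (.nr 494 1025 (.lg 0 true 1 73 73 29 0 134160) (.nx 495 104033
  (.lg 2 false 1 67 67 29 10566 134160) .out)) .out)) .out))) .out) .out)) (.na 501 133 (.lg 0
  false 1 0 0 16 0 24) (.nx 510 832257 (.nr 509 1048577 (.nr 502 133 .s1 (.nx 503 257 (.l1 (.ls 79
  29 499)) (.nr 508 741457 (.nx 504 13005 (.lg 0 true 1 97 97 17 0 108360) (.nr 507 16385 (.nr 505
  1025 (.lg 0 true 1 71 71 17 0 7224) (.nx 506 104033 (.lg 2 false 1 67 67 17 10566 7224) .out))
  .out)) .out))) .out) .out))))) (.na 574 154 (.na 532 143 (.na 512 137 (.lg 0 false 1 0 0 16 0 24)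
  (.na 522 138 (.nx 521 832257 (.nr 520 1048577 (.nr 513 137 .s1 (.nx 516 13005 (.nx 514 257 (.l1
  (.ls 67 19 485)) (.nr 515 741457 (.lg 0 true 1 83 83 16 0 1032) .out)) (.nr 519 16385 (.nr 517
  1025 (.lg 0 false 1 67 67 16 0 1032) (.nx 518 104033 (.lg 2 false 1 53 53 16 10566 1032) .out))
  .out))) .out) .out) (.nx 531 832257 (.nr 530 1048577 (.nr 523 138 .s1 (.nx 524 257 (.l1 (.ls 79
  41 481)) (.nr 529 741457 (.nx 525 13005 (.lg 0 true 1 97 97 19 0 216720) (.nr 528 16385 (.nr 526
  1025 (.lg 0 false 1 73 73 19 0 6192) (.nx 527 104033 (.lg 2 true 1 67 67 19 10566 216720) .out))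
  .out)) .out))) .out) .out))) (.na 554 150 (.na 543 145 (.nx 542 832257 (.nr 541 1048577 (.nr 533
  143 .s1 (.nx 534 257 (.l1 (.ls 79 29 464)) (.nr 540 741457 (.nx 536 13005 (.lg 0 false 2 89 89 23
  0 295152) (.nr 539 16385 (.nr 537 1025 (.lg 0 true 1 71 71 19 0 147576) (.nx 538 104033 (.lg 2
  false 1 67 67 19 10566 147576) .out)) .out)) .out))) .out) .out) (.nx 553 832257 (.nr 552 1048577
  (.nr 544 145 .s1 (.nx 548 13005 (.nx 545 257 (.l1 (.ls 79 23 458)) (.nr 547 741457 (.lg 0 false 2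
  89 89 19 0 10320) .out)) (.nr 551 16385 (.nr 549 1025 (.lg 0 true 1 71 71 17 0 5160) (.nx 550
  104033 (.lg 2 false 1 67 67 17 10566 5160) .out)) .out))) .out) .out)) (.na 564 151 (.nx 563
  832257 (.nr 562 1048577 (.nr 555 150 .s1 (.nx 558 13005 (.nx 556 257 (.l1 (.ls 71 37 443)) (.nr
  557 741457 (.lg 0 true 1 89 89 29 0 216720) .out)) (.nr 561 16385 (.nr 559 1025 (.lg 0 false 1 71
  71 29 0 216720) (.nx 560 104033 (.lg 2 true 1 59 59 29 10566 30960) .out)) .out))) .out) .out)
  (.nx 573 832257 (.nr 572 1048577 (.nr 565 151 .s1 (.nx 568 13005 (.nx 566 257 (.l1 (.ls 71 19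
  440)) (.nr 567 741457 (.lg 0 true 1 83 83 16 0 1032) .out)) (.nr 571 16385 (.nr 569 1025 (.lg 0
  false 1 67 67 16 0 1032) (.nx 570 104033 (.lg 2 true 1 53 53 16 10566 1032) .out)) .out))) .out)
  .out)))) (.na 596 162 (.na 585 157 (.nx 584 832257 (.nr 583 1048577 (.nr 575 154 .s1 (.nx 576 257
  (.l1 (.ls 79 37 431)) (.nr 582 741457 (.nx 578 13005 (.lg 0 false 2 89 89 31 0 158928) (.nr 581
  16385 (.nr 579 1025 (.lg 0 true 1 71 71 31 0 158928) (.nx 580 104033 (.lg 2 false 1 67 67 31
  10566 158928) .out)) .out)) .out))) .out) .out) (.na 586 161 (.lg 0 false 1 0 0 16 0 24) (.nx 595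
  832257 (.nr 594 1048577 (.nr 587 161 .s1 (.nx 590 13005 (.nx 588 257 (.l1 (.ls 79 19 413)) (.nr
  589 741457 (.lg 0 false 1 89 89 17 0 7224) .out)) (.nr 593 16385 (.nr 591 1025 (.lg 0 true 1 71
  71 17 0 7224) (.nx 592 104033 (.lg 2 false 1 67 67 17 10566 7224) .out)) .out))) .out) .out)))
  (.na 607 165 (.na 597 163 (.lg 0 false 1 0 0 16 0 24) (.nx 606 832257 (.nr 605 1048577 (.nr 598
  163 .s1 (.nx 601 13005 (.nx 599 257 (.l1 (.ls 67 19 408)) (.nr 600 741457 (.lg 0 true 1 83 83 16
  0 108360) .out)) (.nr 604 16385 (.nr 602 1025 (.lg 0 false 1 61 61 16 0 1032) (.nx 603 104033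
  (.lg 2 true 1 53 53 16 10566 1032) .out)) .out))) .out) .out)) (.na 617 166 (.nx 616 832257 (.nr
  615 1048577 (.nr 608 165 .s1 (.nx 611 13005 (.nx 609 257 (.l1 (.ls 73 31 403)) (.nr 610 741457
  (.lg 0 true 1 89 89 29 0 170280) .out)) (.nr 614 16385 (.nr 612 1025 (.lg 0 true 1 71 71 29 0
  170280) (.nx 613 104033 (.lg 2 false 1 61 61 29 10566 170280) .out)) .out))) .out) .out) (.nx 626
  832257 (.nr 625 1048577 (.nr 618 166 .s1 (.nx 621 13005 (.nx 619 257 (.l1 (.ls 79 29 400)) (.nr
  620 741457 (.lg 0 true 1 89 89 19 0 2064) .out)) (.nr 624 16385 (.nr 622 1025 (.lg 0 false 1 67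
  67 19 0 2064) (.nx 623 104033 (.lg 2 true 1 59 59 19 10566 2064) .out)) .out))) .out) .out)))))))
  (.na 830 231 (.na 740 198 (.na 697 189 (.na 657 175 (.na 637 169 (.nx 636 832257 (.nr 635 1048577
  (.nr 628 167 .s1 (.nx 631 13005 (.nx 629 257 (.l1 (.ls 67 19 398)) (.nr 630 741457 (.lg 0 true 1
  79 79 16 0 1032) .out)) (.nr 634 16385 (.nr 632 1025 (.lg 0 false 1 61 61 16 0 1032) (.nx 633
  104033 (.lg 2 false 1 53 53 16 10566 15480) .out)) .out))) .out) .out) (.na 647 174 (.nx 646
  832257 (.nr 645 1048577 (.nr 638 169 .s1 (.nx 639 257 (.l1 (.ls 71 23 393)) (.nr 644 741457 (.nx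
  640 13005 (.lg 0 true 1 83 83 17 0 201240) (.nr 643 16385 (.nr 641 1025 (.lg 0 false 1 67 67 17 0
  13416) (.nx 642 104033 (.lg 2 false 1 53 53 17 10566 13416) .out)) .out)) .out))) .out) .out)
  (.nx 656 832257 (.nr 655 1048577 (.nr 648 174 .s1 (.nx 651 13005 (.nx 649 257 (.l1 (.ls 73 37
  382)) (.nr 650 741457 (.lg 0 true 1 89 89 23 0 30960) .out)) (.nr 654 16385 (.nr 652 1025 (.lg 0
  false 1 71 71 23 0 30960) (.nx 653 104033 (.lg 2 true 1 59 59 23 10566 6192) .out)) .out))) .out)
  .out))) (.na 677 178 (.na 667 177 (.nx 666 832257 (.nr 665 1048577 (.nr 658 175 .s1 (.nx 661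
  13005 (.nx 659 257 (.l1 (.ls 73 29 380)) (.nr 660 741457 (.lg 0 false 1 83 83 19 0 36120) .out))
  (.nr 664 16385 (.nr 662 1025 (.lg 0 true 1 67 67 19 0 36120) (.nx 663 104033 (.lg 2 false 1 61 61
  19 10566 36120) .out)) .out))) .out) .out) (.nx 676 832257 (.nr 675 1048577 (.nr 668 177 .s1 (.nx
  671 13005 (.nx 669 257 (.l1 (.ls 53 23 376)) (.nr 670 741457 (.lg 0 true 1 89 89 17 0 108360)
  .out)) (.nr 674 16385 (.nr 672 1025 (.lg 0 false 1 71 71 17 0 108360) (.nx 673 104033 (.lg 2 true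
  1 61 61 17 10566 108360) .out)) .out))) .out) .out)) (.na 687 182 (.nx 686 832257 (.nr 685
  1048577 (.nr 678 178 .s1 (.nx 681 13005 (.nx 679 257 (.l1 (.ls 71 29 374)) (.nr 680 741457 (.lg 0
  true 1 89 89 19 0 2064) .out)) (.nr 684 16385 (.nr 682 1025 (.lg 0 false 1 67 67 19 0 2064) (.nx
  683 104033 (.lg 2 true 1 53 53 19 10566 2064) .out)) .out))) .out) .out) (.nx 696 832257 (.nr 695
  1048577 (.nr 688 182 .s1 (.nx 689 257 (.l1 (.ls 79 37 365)) (.nr 694 741457 (.nx 690 13005 (.lg 0
  true 1 97 97 31 0 2817360) (.nr 693 16385 (.nr 691 1025 (.lg 0 true 1 71 71 31 0 187824) (.nx 692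
  104033 (.lg 2 false 1 67 67 31 10566 187824) .out)) .out)) .out))) .out) .out)))) (.na 709 193
  (.na 698 190 (.lg 0 false 1 0 0 16 0 24) (.na 708 191 (.nx 707 832257 (.nr 706 1048577 (.nr 699
  190 .s1 (.nx 702 13005 (.nx 700 257 (.l1 (.ls 79 37 350)) (.nr 701 741457 (.lg 0 true 1 89 89 31
  0 10320) .out)) (.nr 705 16385 (.nr 703 1025 (.lg 0 true 1 71 71 31 0 10320) (.nx 704 104033 (.lg
  2 false 1 67 67 31 10566 10320) .out)) .out))) .out) .out) (.lg 0 false 1 0 0 16 0 24))) (.na 729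
  195 (.na 719 194 (.nx 718 832257 (.nr 717 1048577 (.nr 710 193 .s1 (.nx 713 13005 (.nx 711 257
  (.l1 (.ls 89 19 345)) (.nr 712 741457 (.lg 0 true 1 79 79 16 0 1032) .out)) (.nr 716 16385 (.nr
  714 1025 (.lg 0 false 1 61 61 16 0 1032) (.nx 715 104033 (.lg 2 true 1 47 47 16 10566 1032)
  .out)) .out))) .out) .out) (.nx 728 832257 (.nr 727 1048577 (.nr 720 194 .s1 (.nx 721 257 (.l1
  (.ls 83 29 343)) (.nr 726 741457 (.nx 722 13005 (.lg 0 true 1 79 79 19 0 2064) (.nr 725 16385
  (.nr 723 1025 (.lg 0 false 1 61 61 19 0 2064) (.nx 724 104033 (.lg 2 true 1 53 53 19 10566 2064)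
  .out)) .out)) .out))) .out) .out)) (.na 739 197 (.nx 738 832257 (.nr 737 1048577 (.nr 730 195 .s1
  (.nx 733 13005 (.nx 731 257 (.l1 (.ls 73 31 341)) (.nr 732 741457 (.lg 0 false 1 83 83 29 0
  201240) .out)) (.nr 736 16385 (.nr 734 1025 (.lg 0 true 1 67 67 29 0 201240) (.nx 735 104033 (.lg
  2 false 1 61 61 29 10566 201240) .out)) .out))) .out) .out) (.lg 0 false 1 0 0 16 0 24))))) (.na
  786 218 (.na 750 209 (.na 741 199 (.lg 0 false 1 0 0 16 0 24) (.na 749 207 (.nx 748 832257 (.nr
  747 1048577 (.nr 742 199 .s1 (.nx 743 257 (.l1 (.ls 67 19 334)) (.nr 746 741457 (.nx 744 13005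
  (.lg 0 true 1 79 79 16 0 1032) (.nr 745 16385 (.lg 0 false 1 79 79 16 0 1032) .out)) .out)))
  .out) .out) (.lg 0 false 1 0 0 16 0 24))) (.na 770 214 (.na 760 210 (.nx 759 832257 (.nr 758
  1048577 (.nr 751 209 .s1 (.nx 754 13005 (.nx 752 257 (.l1 (.ls 73 29 319)) (.nr 753 741457 (.lg 0
  false 1 83 83 17 0 11352) .out)) (.nr 757 16385 (.nr 755 1025 (.lg 0 true 1 67 67 17 0 11352)
  (.nx 756 104033 (.lg 2 false 1 61 61 17 10566 11352) .out)) .out))) .out) .out) (.nx 769 832257
  (.nr 768 1048577 (.nr 761 210 .s1 (.nx 764 13005 (.nx 762 257 (.l1 (.ls 79 41 317)) (.nr 763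
  741457 (.lg 0 true 1 89 89 37 0 216720) .out)) (.nr 767 16385 (.nr 765 1025 (.lg 0 true 1 71 71
  37 0 216720) (.nx 766 104033 (.lg 2 false 1 61 61 37 10566 216720) .out)) .out))) .out) .out))
  (.na 778 215 (.nx 777 832257 (.nr 776 1048577 (.nr 771 214 .s1 (.nx 774 13005 (.nx 772 257 (.l1
  (.ls 83 29 311)) (.nr 773 741457 (.lg 0 true 1 79 79 23 0 2064) .out)) (.nr 775 16385 (.lg 0
  false 1 79 79 23 0 2064) .out))) .out) .out) (.nx 785 832257 (.nr 784 1048577 (.nr 779 215 .s1
  (.nx 780 257 (.l1 (.ls 67 23 310)) (.nr 783 741457 (.nr 781 16385 (.lg 0 false 1 79 79 17 0 5160)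
  (.nx 782 13005 (.lg 0 true 1 79 79 17 0 108360) .out)) .out))) .out) .out)))) (.na 803 226 (.na
  794 223 (.nx 793 832257 (.nr 792 1048577 (.nr 787 218 .s1 (.nx 788 257 (.l1 (.ls 83 29 305)) (.nr
  791 741457 (.nr 789 16385 (.lg 0 false 1 79 79 23 0 2064) (.nx 790 13005 (.lg 0 true 1 79 79 23 0
  30960) .out)) .out))) .out) .out) (.na 802 225 (.nx 801 832257 (.nr 800 1048577 (.nr 795 223 .s1
  (.nx 796 257 (.l1 (.ls 83 19 299)) (.nr 799 741457 (.nr 797 16385 (.lg 0 false 1 79 79 16 0 1032)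
  (.nx 798 13005 (.lg 0 true 1 73 73 16 0 1032) .out)) .out))) .out) .out) (.lg 0 false 1 0 0 16 0
  24))) (.na 812 229 (.na 811 227 (.nx 810 832257 (.nr 809 1048577 (.nr 804 226 .s1 (.nx 807 13005
  (.nx 805 257 (.l1 (.ls 83 29 295)) (.nr 806 741457 (.lg 0 true 1 79 79 23 0 2064) .out)) (.nr 808
  16385 (.lg 0 false 1 79 79 23 0 2064) .out))) .out) .out) (.lg 0 false 1 0 0 16 0 24)) (.na 820
  230 (.nx 819 832257 (.nr 818 1048577 (.nr 813 229 .s1 (.nx 814 257 (.l1 (.ls 83 19 291)) (.nr 817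
  741457 (.nx 815 13005 (.lg 0 true 1 73 73 17 0 1032) (.nr 816 16385 (.lg 0 false 1 79 79 17 0
  1032) .out)) .out))) .out) .out) (.nx 829 832257 (.nr 828 1048577 (.nr 821 230 .s1 (.nx 822 257
  (.l1 (.ls 79 37 290)) (.nr 827 741457 (.nx 823 13005 (.lg 0 false 1 83 83 31 0 10320) (.nr 826
  16385 (.nr 824 1025 (.lg 0 true 1 67 67 31 0 10320) (.nx 825 104033 (.lg 2 false 1 61 61 31 10566
  10320) .out)) .out)) .out))) .out) .out)))))) (.na 2267 725 (.na 876 249 (.na 849 239 (.na 840
  233 (.nx 839 832257 (.nr 838 1048577 (.nr 831 231 .s1 (.nx 834 13005 (.nx 832 257 (.l1 (.ls 73 31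
  288)) (.nr 833 741457 (.lg 0 false 1 83 83 29 0 238392) .out)) (.nr 837 16385 (.nr 835 1025 (.lg
  0 true 1 67 67 29 0 238392) (.nx 836 104033 (.lg 2 false 1 61 61 29 10566 238392) .out)) .out)))
  .out) .out) (.na 848 234 (.nx 847 832257 (.nr 846 1048577 (.nr 841 233 .s1 (.nx 842 257 (.l1 (.ls
  83 19 286)) (.nr 845 741457 (.nr 843 16385 (.lg 0 false 1 79 79 17 0 1032) (.nx 844 13005 (.lg 0
  true 1 73 73 17 0 1032) .out)) .out))) .out) .out) (.lg 0 false 1 0 0 16 0 24))) (.na 858 242
  (.na 857 241 (.nx 856 832257 (.nr 855 1048577 (.nr 850 239 .s1 (.nx 851 257 (.l1 (.ls 83 19 279))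
  (.nr 854 741457 (.nr 852 16385 (.lg 0 false 1 79 79 17 0 1032) (.nx 853 13005 (.lg 0 true 1 73 73
  17 0 1032) .out)) .out))) .out) .out) (.lg 0 false 1 0 0 16 0 24)) (.na 866 247 (.nx 865 832257
  (.nr 864 1048577 (.nr 859 242 .s1 (.nx 860 257 (.l1 (.ls 83 31 275)) (.nr 863 741457 (.nr 861
  16385 (.lg 0 false 1 83 83 29 0 22704) (.nx 862 13005 (.lg 0 true 1 79 79 29 0 22704) .out))
  .out))) .out) .out) (.nx 875 832257 (.nr 874 1048577 (.nr 867 247 .s1 (.nx 870 13005 (.nx 868 257
  (.l1 (.ls 79 29 270)) (.nr 869 741457 (.lg 0 false 1 83 83 17 0 13416) .out)) (.nr 873 16385 (.nr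
  871 1025 (.lg 0 true 1 67 67 17 0 13416) (.nx 872 104033 (.lg 2 true 1 61 61 17 10566 13416)
  .out)) .out))) .out) .out)))) (.na 900 253 (.na 884 250 (.nx 883 832257 (.nr 882 1048577 (.nr 877
  249 .s1 (.nx 878 257 (.l1 (.ls 67 23 268)) (.nr 881 741457 (.nr 879 16385 (.lg 0 false 1 83 83 19
  0 3096) (.nx 880 13005 (.lg 0 true 1 73 73 19 0 3096) .out)) .out))) .out) .out) (.na 892 251
  (.nx 891 832257 (.nr 890 1048577 (.nr 885 250 .s1 (.nx 886 257 (.l1 (.ls 83 31 267)) (.nr 889
  741457 (.nr 887 16385 (.lg 0 false 1 83 83 29 0 10320) (.nx 888 13005 (.lg 0 true 1 79 79 29 0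
  10320) .out)) .out))) .out) .out) (.nx 899 832257 (.nr 898 1048577 (.nr 893 251 .s1 (.nx 894 257
  (.l1 (.ls 61 19 266)) (.nr 897 741457 (.nr 895 16385 (.lg 0 false 1 73 73 17 0 1032) (.nx 896
  13005 (.lg 0 true 1 71 71 17 0 1032) .out)) .out))) .out) .out))) (.na 911 257 (.na 910 256 (.nx
  909 832257 (.nr 908 1048577 (.nr 901 253 .s1 (.nx 904 13005 (.nx 902 257 (.l1 (.ls 73 19 264))
  (.nr 903 741457 (.lg 0 false 1 79 79 19 0 11352) .out)) (.nr 907 16385 (.nr 905 1025 (.lg 0 true
  1 61 61 19 0 11352) (.nx 906 104033 (.lg 2 false 1 59 59 19 10566 11352) .out)) .out))) .out)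
  .out) .ne) (.na 1631 512 (.nx 1630 832257 (.nr 1629 1482912 (.nr 912 257 .s1 (.nx 1373 10323 (.nx
  1117 205 (.nx 1041 129 (.nr 1040 4120 (.lx (.lp 47 17 129)) (.l1 .sk)) (.nx 1042 130 (.l1 .sk)
  (.lx (.lp 89 19 129)))) (.nr 1372 1048577 (.la (.lg 0 true 1 73 73 23 0)) .out)) (.nr 1628 32769
  (.la (.lg 2 true 1 71 71 23 208874)) .out))) .out) .out) (.nx 2266 832257 (.nr 2265 1482912 (.nr
  1632 512 .s1 (.nx 1762 130 (.nx 1761 129 (.nr 1760 5834 (.lx (.lp 41 19 182)) (.l1 .sk)) (.l1
  .sk)) (.nx 2051 10323 (.nx 1837 205 (.lx (.lp 89 19 182)) (.nr 2050 1048577 (.la (.lg 0 false 1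
  67 67 29 0)) .out)) (.nr 2264 32769 (.la (.lg 2 true 1 61 61 29 104845)) .out)))) .out) .out)))))
  (.na 10052 8192 (.na 4455 2048 (.na 2869 1024 (.nx 2868 10323 (.nr 2867 1048577 (.nr 2268 725 .s1
  (.nx 2567 1627 (.la (.ls 103 37 3654)) (.nr 2866 32769 (.la (.lg 0 false 1 41 41 29 0)) .out)))
  .out) .out) (.na 3853 1449 (.nx 3852 10323 (.nr 3851 1048577 (.nr 2870 1024 .s1 (.nx 3000 130
  (.nx 2999 129 (.nr 2998 11660 (.lx (.lp 47 23 363)) (.l1 .sk)) (.l1 .sk)) (.nx 3425 2582 (.la
  (.ls 101 41 6496)) (.nr 3850 16385 (.la (.lg 0 false 1 29 29 31 0)) .out)))) .out) .out) (.nx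
  4454 2582 (.nr 4453 524289 (.nr 3854 1449 .s1 (.la (.ls 83 37 4603))) .out) .out))) (.na 6769
  4096 (.na 5437 2897 (.nx 5436 3252 (.nr 5435 524289 (.nr 4456 2048 .s1 (.nx 4585 129 (.nr 4584
  23312 (.lx (.lp 47 29 725)) (.l1 .sk)) (.nx 4586 130 (.l1 .sk) (.la (.ls 83 37 5158))))) .out)
  .out) (.nx 6768 2582 (.nr 6767 262145 (.nr 5438 2897 .s1 (.nx 5567 129 (.nr 5566 32960 (.lx (.lp
  47 31 1025)) (.l1 .sk)) (.nx 5568 130 (.l1 .sk) (.la (.ls 67 37 2298))))) .out) .out)) (.na 8758
  5793 (.nx 8757 2582 (.nr 8756 262145 (.nr 6770 4096 .s1 (.nx 7059 290 (.lx (.lp 61 31 1449)) (.la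
  (.ls 61 37 1610)))) .out) .out) (.nx 10051 1292 (.nr 10050 65537 (.nr 8759 5793 .s1 (.lx (.lp 47
  37 2049))) .out) .out)))) (.na 13670 65536 (.na 11347 16384 (.nx 11346 1292 (.nr 11345 131073
  (.nr 10053 8192 .s1 (.nx 10257 205 (.lx (.lp 53 41 4097)) (.nr 11344 65537 (.lx (.lp 47 41 4097))
  .out))) .out) .out) (.na 12642 32768 (.nx 12641 1292 (.nr 12640 262145 (.nr 11348 16384 .s1 (.nx
  11552 205 (.lx (.lp 53 41 8193)) (.nr 12639 131073 (.lx (.lp 47 43 8193)) .out))) .out) .out)
  (.nx 13669 1025 (.nr 13668 262145 (.nr 12643 32768 .s1 (.nx 12847 205 (.lx (.lp 16 0 16385)) (.nr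
  13667 131073 (.lx (.lp 41 47 16385)) .out))) .out) .out))) (.na 14700 262144 (.na 14698 131072
  (.nx 14697 1025 (.nr 14696 262145 (.nr 13671 65536 .s1 (.nx 13994 324 (.lx (.lp 16 47 32769))
  (.nr 14695 131073 (.lx (.lp 37 53 32769)) .out))) .out) .out) (.nx 14699 324 (.l1 .sk) .out))
  (.na 14702 524289 (.nx 14701 205 (.l1 .sk) .out) .out)))))))

def T71_1 : Ph :=
  (.na 307 8 (.na 306 5 (.nx 305 21137969 (.nr 304 1246976 (.nx 3 248 (.nx 2 247 (.nr 1 54 (.lg 0
  true 1 41 41 9 0 11856) (.l1 .sk)) (.l1 .sk)) (.nx 48 42512 (.nr 36 262145 (.lg 0 false 33 103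
  109 19 0 13693680) (.nx 47 408 (.lg 0 false 11 89 89 13 0 652080) .out)) (.nr 303 311745 (.nx 213
  660563 (.nr 59 730 (.lg 0 true 11 97 97 13 0 652080) (.nx 102 82570 (.nr 101 262145 (.nx 80 59247
  (.lg 1 false 21 101 107 13 188282 1244880) (.lg 1 false 21 101 109 13 135099 13693680)) .out)
  (.nr 111 2912 (.lg 2 true 9 89 101 13 111753 177840) (.nr 118 11616 (.lg 2 true 7 97 101 11 28015
  414960) (.nx 193 262145 (.nx 181 208065 (.nx 139 112360 (.lg 1 false 21 103 109 13 115263
  13693680) (.nx 160 152899 (.lg 1 false 21 103 109 13 84703 13693680) (.lg 1 false 21 103 109 13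
  62245 13693680))) (.nr 192 185365 (.lg 1 true 11 103 107 13 27213 13693680) .out)) (.nr 212
  131073 (.nr 200 46342 (.lg 2 false 7 97 101 11 7024 414960) (.nx 211 330282 (.lg 1 true 11 103
  107 13 15282 13693680) .out)) .out)))))) (.nr 302 183 (.nr 290 54 (.lg 0 true 77 89 97 13 0
  4564560) (.nx 301 2642247 (.lg 0 true 11 89 89 13 0 130416) .out)) .out)) .out))) .out) .out)
  .ne) (.na 508 9 (.nx 507 21137969 (.nr 506 1482912 (.nx 310 248 (.nx 309 247 (.nr 308 99 (.lg 0
  true 1 41 41 11 0 11856) (.l1 .sk)) (.l1 .sk)) (.nx 470 2642247 (.nx 464 1321124 (.nx 363 65536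
  (.nr 345 262145 (.lg 0 false 35 101 109 29 0 13693680) (.nx 362 2582 (.nr 350 370729 (.lg 0 false
  5 83 97 13 0 59280) (.nx 361 814 (.nr 355 881745 (.lg 0 false 5 89 89 13 0 59280) (.nx 360 408
  (.lg 0 false 5 79 83 13 0 59280) .out)) .out)) .out)) (.nr 463 311745 (.nr 388 19534 (.nr 378
  1227 (.lg 0 true 15 89 97 19 0 177840) (.nr 383 4896 (.lg 2 true 5 89 97 13 132974 59280) (.lg 2
  true 5 89 101 13 33325 59280))) (.nx 403 92681 (.lg 1 false 15 101 109 19 145222 13693680) (.nx
  454 330282 (.nx 448 262145 (.nx 433 185364 (.nx 418 131072 (.lg 1 false 15 101 109 19 102688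
  13693680) (.lg 1 false 15 101 109 19 72611 13693680)) (.lg 1 true 15 101 109 19 51344 13693680))
  (.nr 453 185365 (.lg 1 true 5 101 107 13 21599 1956240) .out)) (.nr 462 110219 (.nr 459 77937
  (.lg 2 false 5 89 101 13 8353 59280) (.nx 460 660561 .out (.lg 2 false 2 89 97 11 5102 11856)))
  .out)))) .out)) (.nr 469 154 (.lg 0 true 5 83 83 13 0 59280) .out)) (.nr 505 55 (.lg 0 true 35 83
  89 13 0 414960) .out))) .out) .out) (.na 509 13 .ne (.nx 584 2642247 (.nr 583 1246976 (.nx 511
  247 (.nr 510 178 (.lg 0 true 1 31 31 9 0 35568) (.l1 .sk)) (.nx 512 248 (.l1 .sk) (.nx 513 408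
  (.l1 (.ls 79 41 8076)) (.nr 582 741457 (.nx 574 660563 (.nx 536 82570 (.nr 528 262145 (.lg 0
  false 15 97 101 16 0 177840) (.nx 535 1627 (.lg 0 false 7 73 73 16 0 41496) .out)) (.nr 573
  311745 (.nr 546 3415 (.lg 0 true 10 83 83 16 0 59280) (.nx 561 208065 (.lg 1 true 15 97 101 16
  115263 177840) (.nr 572 220437 (.lg 2 false 11 89 97 16 32355 130416) .out))) .out)) (.nr 581 65
  (.lg 0 true 7 61 61 11 0 41496) .out)) .out)))) .out) .out))))

def T71_2 : Ph :=
  (.na 365 126 (.na 239 38 (.na 163 14 (.na 89 6 (.na 1 2 .ne (.na 88 3 (.nx 87 660563 (.nr 86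
  623489 (.nx 3 59 (.nr 2 15 (.lg 0 true 1 31 31 5 0 297360) (.l1 .sk)) (.nx 4 60 (.l1 .sk) (.nx 63
  104033 (.nr 37 27556 (.nx 15 7760 (.lg 0 true 11 101 101 9 0 3270960) (.nr 26 613 (.lg 0 true 11
  83 83 9 0 93456) (.lg 2 false 11 101 101 9 6195 3270960))) (.nx 62 647 (.nr 48 131073 (.lg 0
  false 11 89 89 9 0 93456) (.nx 61 103 (.lg 0 false 13 79 79 9 0 110448) .out)) .out)) (.nr 85 154
  (.lg 0 true 22 83 83 11 0 93456) .out)))) .out) .out) .ne)) (.na 135 7 (.nx 134 660563 (.nr 133
  220437 (.nx 127 330282 (.nx 109 6503 (.nx 91 59 (.nr 90 38 (.lg 0 true 1 23 23 7 0 42480) (.l1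
  .sk)) (.nx 92 60 (.l1 .sk) (.nr 103 77937 (.lg 0 false 11 89 89 17 0 467280) (.nx 108 647 (.lg 0
  false 5 83 83 13 0 42480) .out)))) (.nr 126 27556 (.nr 121 1466 (.nr 120 704 (.lg 0 true 11 83 83
  17 0 93456) (.lg 2 false 1 83 83 7 13840 42480)) (.lg 2 false 5 89 89 13 7392 42480)) .out)) (.nr
  132 78 (.lg 0 true 5 71 71 13 0 42480) .out)) .out) .out) (.na 136 10 .ne (.nx 162 660563 (.nr
  161 623489 (.nr 137 7 .s1 (.nx 149 6503 (.nx 139 59 (.nr 138 76 (.lg 0 false 1 19 19 11 0 42480)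
  (.l1 .sk)) (.nx 140 60 (.l1 .sk) (.nx 141 103 (.l1 (.ls 83 37 703)) (.nr 148 131073 (.lg 0 false
  7 89 89 13 0 297360) .out)))) (.nr 160 46342 (.nr 156 154 (.lg 0 true 7 73 73 13 0 297360) (.nx
  159 41287 (.lg 1 true 3 97 97 13 12420 297360) .out)) .out))) .out) .out)))) (.na 209 23 (.na 186
  16 (.nx 185 660563 (.nr 184 623489 (.nr 164 12 .s1 (.nx 168 103 (.nx 166 59 (.nr 165 87 (.lg 0
  false 1 19 19 11 0 297360) (.l1 .sk)) (.nx 167 60 (.l1 .sk) (.l1 (.ls 83 31 503)))) (.nr 183
  131073 (.nx 173 6503 (.lg 0 false 5 89 89 13 0 297360) (.nr 182 46342 (.nr 178 154 (.lg 0 true 5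
  71 71 13 0 297360) (.nx 181 41287 (.lg 1 true 3 89 89 13 12420 59472) .out)) .out)) .out))) .out)
  .out) (.na 187 18 .ne (.nx 208 660563 (.nr 207 623489 (.nr 188 17 .s1 (.nx 191 60 (.nx 190 59
  (.nr 189 126 (.l1 (.ls 19 29 196)) (.l1 .sk)) (.l1 .sk)) (.nx 198 6503 (.nx 192 103 (.l1 (.ls 79
  31 392)) (.nr 197 131073 (.lg 0 false 5 83 83 19 0 42480) .out)) (.nr 206 46342 (.nr 203 257 (.lg
  0 true 5 71 71 19 0 42480) (.nx 205 41287 (.lg 1 false 2 89 89 13 12420 297360) .out)) .out))))
  .out) .out))) (.na 225 32 (.na 210 30 .ne (.nx 224 660563 (.nr 223 131073 (.nr 211 30 .s1 (.nx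
  214 60 (.nx 213 59 (.nr 212 175 (.l1 (.ls 29 29 119)) (.l1 .sk)) (.l1 .sk)) (.nx 220 41287 (.nr
  217 32769 (.lg 0 false 3 83 83 29 0 297360) (.nx 219 6503 (.lg 0 false 2 89 97 23 0 297360)
  .out)) (.nr 222 257 (.lg 0 true 2 73 73 23 0 42480) .out)))) .out) .out)) (.na 226 34 .ne (.nx
  238 82572 (.nr 237 262145 (.nr 227 34 .s1 (.nx 230 60 (.nx 229 59 (.nr 228 208 (.l1 (.ls 16 23
  105)) (.l1 .sk)) (.l1 .sk)) (.nx 235 41287 (.nr 233 32769 (.lg 0 true 3 83 83 13 0 8496) (.nx 234
  2582 (.lg 0 true 1 89 89 13 0 42480) .out)) (.nr 236 154 (.lg 0 false 1 61 61 13 0 42480)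
  .out)))) .out) .out))))) (.na 304 82 (.na 273 54 (.na 250 42 (.nx 249 82572 (.nr 248 262145 (.nr
  240 38 .s1 (.nx 243 60 (.nx 242 59 (.nr 241 229 (.l1 (.ls 17 17 94)) (.l1 .sk)) (.l1 .sk)) (.nr
  246 32769 (.lg 0 true 3 89 89 13 0 8496) (.nx 247 2582 (.lg 0 true 1 89 89 13 0 297360) .out))))
  .out) .out) (.na 263 50 (.nx 262 82572 (.nr 261 262145 (.nr 251 42 .s1 (.nx 259 41287 (.nx 253 59
  (.nr 252 273 (.l1 (.ls 23 29 85)) (.l1 .sk)) (.nx 254 60 (.l1 .sk) (.nr 256 32769 (.lg 0 true 2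
  89 89 29 0 297360) (.nx 258 2582 (.lg 0 false 2 83 83 29 0 297360) .out)))) (.nr 260 154 (.lg 0
  true 1 53 53 23 0 59472) .out))) .out) .out) (.nx 272 82572 (.nr 271 262145 (.nr 264 50 .s1 (.nx
  266 59 (.nr 265 295 (.l1 (.ls 17 19 72)) (.l1 .sk)) (.nx 267 60 (.l1 .sk) (.nr 269 32769 (.lg 0
  false 2 83 83 19 0 42480) (.nx 270 2582 (.lg 0 true 1 79 79 13 0 42480) .out))))) .out) .out)))
  (.na 293 64 (.na 283 58 (.nx 282 82572 (.nr 281 262145 (.nr 274 54 .s1 (.nx 276 59 (.nr 275 317
  (.l1 (.ls 17 23 67)) (.l1 .sk)) (.nx 277 60 (.l1 .sk) (.nr 279 32769 (.lg 0 false 2 83 83 19 0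
  8496) (.nx 280 2582 (.lg 0 true 1 79 79 19 0 8496) .out))))) .out) .out) (.nx 292 82572 (.nr 291
  262145 (.nr 284 58 .s1 (.nx 287 60 (.nx 286 59 (.nr 285 350 (.l1 (.ls 19 17 63)) (.l1 .sk)) (.l1
  .sk)) (.nr 289 32769 (.lg 0 false 2 89 89 13 0 297360) (.nx 290 2582 (.lg 0 true 1 83 83 13 0
  8496) .out)))) .out) .out)) (.na 294 70 .ne (.nx 303 82572 (.nr 302 524289 (.nr 295 70 .s1 (.nx
  298 6503 (.nx 296 647 (.l1 (.ls 79 53 5983)) (.nr 297 262145 (.lg 0 true 1 89 89 23 0 297360)
  .out)) (.nr 301 65537 (.nx 299 41287 (.lg 1 false 1 83 83 23 17558 297360) (.nr 300 257 (.lg 0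
  true 1 53 53 23 0 297360) .out)) .out))) .out) .out)))) (.na 332 102 (.na 314 90 (.nx 313 82572
  (.nr 312 524289 (.nr 305 82 .s1 (.nx 306 647 (.l1 (.ls 73 47 5107)) (.nr 311 262145 (.nx 309
  41287 (.lg 0 false 3 97 97 19 0 297360) (.nr 310 257 (.lg 0 true 1 43 43 13 0 8496) .out))
  .out))) .out) .out) (.na 324 98 (.nx 323 82572 (.nr 322 524289 (.nr 315 90 .s1 (.nx 316 647 (.l1
  (.ls 73 53 4654)) (.nr 321 262145 (.nx 317 6503 (.lg 0 false 1 79 79 29 0 42480) (.nr 320 65537
  (.nx 318 41287 (.lg 1 true 1 73 73 29 17558 42480) (.nr 319 257 (.lg 0 true 1 43 43 29 0 42480)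
  .out)) .out)) .out))) .out) .out) (.nx 331 82572 (.nr 330 524289 (.nr 325 98 .s1 (.nx 328 6503
  (.nx 326 647 (.l1 (.ls 71 43 4274)) (.nr 327 262145 (.lg 0 true 1 79 79 19 0 297360) .out)) (.nr
  329 65537 (.lg 1 false 1 79 79 19 24856 59472) .out))) .out) .out))) (.na 349 114 (.na 340 106
  (.nx 339 82572 (.nr 338 524289 (.nr 333 102 .s1 (.nx 336 6503 (.nx 334 647 (.l1 (.ls 79 53 4107))
  (.nr 335 262145 (.lg 0 false 1 83 83 29 0 8496) .out)) (.nr 337 65537 (.lg 1 false 1 89 89 29
  23882 8496) .out))) .out) .out) (.nx 348 82572 (.nr 347 524289 (.nr 341 106 .s1 (.nx 342 647 (.l1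
  (.ls 73 41 3952)) (.nr 346 262145 (.nx 344 41287 (.lg 0 false 2 89 89 19 0 8496) (.nr 345 257
  (.lg 0 true 1 37 37 19 0 8496) .out)) .out))) .out) .out)) (.na 357 118 (.nx 356 82572 (.nr 355
  524289 (.nr 350 114 .s1 (.nx 353 6503 (.nx 351 647 (.l1 (.ls 79 47 3675)) (.nr 352 262145 (.lg 0
  false 1 83 83 31 0 8496) .out)) (.nr 354 65537 (.lg 1 false 1 83 83 31 21368 8496) .out))) .out)
  .out) (.nx 364 82572 (.nr 363 524289 (.nr 358 118 .s1 (.nx 359 647 (.l1 (.ls 61 41 3550)) (.nr
  362 262145 (.lg 0 true 3 79 79 19 0 42480) .out))) .out) .out)))))) (.na 446 254 (.na 404 174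
  (.na 380 150 (.na 373 128 (.nx 372 82572 (.nr 371 524289 (.nr 366 126 .s1 (.nx 367 647 (.l1 (.ls
  73 47 3325)) (.nr 370 262145 (.nx 368 6503 (.lg 0 false 1 79 79 31 0 59472) (.nr 369 65537 (.lg 1
  true 1 79 79 31 19333 59472) .out)) .out))) .out) .out) (.na 374 142 .ne (.nx 379 41287 (.nr 378
  1048577 (.nr 375 142 .s1 (.nx 376 647 (.l1 (.ls 67 41 2950)) (.nr 377 131073 (.lg 0 true 1 89 89
  19 0 297360) .out))) .out) .out))) (.na 392 162 (.na 386 158 (.nx 385 41287 (.nr 384 1048577 (.nr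
  381 150 .s1 (.nx 382 647 (.l1 (.ls 79 47 2793)) (.nr 383 131073 (.lg 0 true 1 89 89 31 0 42480)
  .out))) .out) .out) (.nx 391 41287 (.nr 390 1048577 (.nr 387 158 .s1 (.nx 388 647 (.l1 (.ls 71 41
  2652)) (.nr 389 131073 (.lg 0 true 1 83 83 19 0 8496) .out))) .out) .out)) (.na 398 170 (.nx 397
  41287 (.nr 396 1048577 (.nr 393 162 .s1 (.nx 394 647 (.l1 (.ls 71 43 2587)) (.nr 395 131073 (.lg
  0 true 1 79 79 23 0 42480) .out))) .out) .out) (.nx 403 41287 (.nr 402 1048577 (.nr 399 170 .s1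
  (.nx 400 647 (.l1 (.ls 79 43 2465)) (.nr 401 131073 (.lg 0 true 1 89 89 31 0 297360) .out)))
  .out) .out)))) (.na 422 214 (.na 410 190 (.nx 409 41287 (.nr 408 1048577 (.nr 405 174 .s1 (.nx
  406 647 (.l1 (.ls 79 47 2408)) (.nr 407 131073 (.lg 0 false 1 83 83 23 0 8496) .out))) .out)
  .out) (.na 416 210 (.nx 415 41287 (.nr 414 1048577 (.nr 411 190 .s1 (.nx 412 647 (.l1 (.ls 79 43
  2206)) (.nr 413 131073 (.lg 0 true 1 83 83 31 0 42480) .out))) .out) .out) (.nx 421 41287 (.nr
  420 1048577 (.nr 417 210 .s1 (.nx 418 647 (.l1 (.ls 83 47 1996)) (.nr 419 131073 (.lg 0 false 1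
  89 89 41 0 297360) .out))) .out) .out))) (.na 434 246 (.na 428 238 (.nx 427 41287 (.nr 426
  1048577 (.nr 423 214 .s1 (.nx 424 647 (.l1 (.ls 67 37 1959)) (.nr 425 131073 (.lg 0 true 1 73 73
  23 0 8496) .out))) .out) .out) (.nx 433 41287 (.nr 432 1048577 (.nr 429 238 .s1 (.nx 430 647 (.l1
  (.ls 79 43 1761)) (.nr 431 131073 (.lg 0 true 1 83 83 31 0 59472) .out))) .out) .out)) (.na 440
  250 (.nx 439 41287 (.nr 438 1048577 (.nr 435 246 .s1 (.nx 436 647 (.l1 (.ls 73 43 1704)) (.nr 437
  131073 (.lg 0 false 1 79 79 31 0 8496) .out))) .out) .out) (.nx 445 41287 (.nr 444 1048577 (.nr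
  441 250 .s1 (.nx 442 647 (.l1 (.ls 71 41 1677)) (.nr 443 131073 (.lg 0 true 1 73 73 29 0 297360)
  .out))) .out) .out))))) (.na 1825 2048 (.na 771 512 (.na 452 256 (.nx 451 41287 (.nr 450 1048577
  (.nr 447 254 .s1 (.nx 448 647 (.l1 (.ls 67 37 1651)) (.nr 449 131073 (.lg 0 true 1 73 73 23 0
  297360) .out))) .out) .out) (.na 453 257 .ne (.nx 770 41287 (.nr 769 262145 (.nr 454 257 .s1 (.nx
  513 59 (.nr 512 2793 (.lx (.lp 37 17 129)) (.l1 .sk)) (.nx 514 60 (.l1 .sk) (.la (.lg 0 false 1
  73 73 23 0))))) .out) .out))) (.na 1306 1024 (.na 1047 725 (.nx 1046 41287 (.nr 1045 262145 (.nr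
  772 512 .s1 (.nx 832 60 (.nx 831 59 (.nr 830 3955 (.lx (.lp 41 19 182)) (.l1 .sk)) (.l1 .sk))
  (.la (.lg 0 false 1 71 71 29 0)))) .out) .out) (.nx 1305 257 (.nr 1304 65537 (.nr 1048 725 .s1
  (.lx (.lp 53 23 257))) .out) .out)) (.na 1566 1449 (.nx 1565 257 (.nr 1564 65537 (.nr 1307 1024
  .s1 (.nx 1409 103 (.lx (.lp 17 0 363)) (.nr 1563 16385 (.lx (.lp 41 23 363)) .out))) .out) .out)
  (.nx 1824 257 (.nr 1823 16385 (.nr 1567 1449 .s1 (.lx (.lp 41 29 513))) .out) .out)))) (.na 2602
  5793 (.na 2084 2897 (.nx 2083 257 (.nr 2082 32769 (.nr 1826 2048 .s1 (.lx (.lp 41 29 725))) .out)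
  .out) (.na 2343 4096 (.nx 2342 257 (.nr 2341 32769 (.nr 2085 2897 .s1 (.lx (.lp 43 29 1025)))
  .out) .out) (.nx 2601 257 (.nr 2600 32769 (.nr 2344 4096 .s1 (.lx (.lp 41 31 1449))) .out)
  .out))) (.na 2812 16384 (.na 2707 8192 (.nx 2706 103 (.nr 2705 32769 (.nr 2603 5793 .s1 (.lx (.lp
  16 0 2049))) .out) .out) (.nx 2811 103 (.nr 2810 32769 (.nr 2708 8192 .s1 (.lx (.lp 16 0 4097)))
  .out) .out)) (.na 2814 32769 (.nx 2813 103 (.l1 .sk) .out) .out))))))

theorem c71 :
    OkQ ckI L8 129 39 1099511627776 0 34359738368 1 1099511627776 ∧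
    OkQ ckI L10 247 4 16 0 34359738368 1 1099511627776 ∧
    OkQ ckI L5 59 1 1099511627776 0 34359738368 1 1099511627776 := by
  refine ⟨?_, ?_, ?_⟩
  · refine fin 1032 14703 T71_0 ?_
    refine jn 9 (by decide +kernel) ?_
    refine jn 15 (by decide +kernel) ?_
    refine jn 27 (by decide +kernel) ?_
    refine jn 34 (by decide +kernel) ?_
    refine jn 46 (by decide +kernel) ?_
    refine jn 53 (by decide +kernel) ?_
    refine jn 63 (by decide +kernel) ?_
    refine jn 69 (by decide +kernel) ?_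
    refine jn 79 (by decide +kernel) ?_
    refine jn 85 (by decide +kernel) ?_
    refine jn 98 (by decide +kernel) ?_
    refine jn 104 (by decide +kernel) ?_
    refine jn 114 (by decide +kernel) ?_
    refine jn 117 (by decide +kernel) ?_
    refine jn 119 (by decide +kernel) ?_
    refine jn 124 (by decide +kernel) ?_
    refine jn 126 (by decide +kernel) ?_
    refine jn 136 (by decide +kernel) ?_
    refine jn 142 (by decide +kernel) ?_
    refine jn 153 (by decide +kernel) ?_
    refine jn 158 (by decide +kernel) ?_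
    refine jn 169 (by decide +kernel) ?_
    refine jn 174 (by decide +kernel) ?_
    refine jn 185 (by decide +kernel) ?_
    refine jn 186 (by decide +kernel) ?_
    refine jn 187 (by decide +kernel) ?_
    refine jn 188 (by decide +kernel) ?_
    refine jn 189 (by decide +kernel) ?_
    refine jn 190 (by decide +kernel) ?_
    refine jn 191 (by decide +kernel) ?_
    refine jn 196 (by decide +kernel) ?_
    refine jn 209 (by decide +kernel) ?_
    refine jn 222 (by decide +kernel) ?_
    refine jn 232 (by decide +kernel) ?_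
    refine jn 236 (by decide +kernel) ?_
    refine jn 239 (by decide +kernel) ?_
    refine jn 252 (by decide +kernel) ?_
    refine jn 268 (by decide +kernel) ?_
    refine jn 284 (by decide +kernel) ?_
    refine jn 298 (by decide +kernel) ?_
    refine jn 309 (by decide +kernel) ?_
    refine jn 313 (by decide +kernel) ?_
    refine jn 316 (by decide +kernel) ?_
    refine jn 331 (by decide +kernel) ?_
    refine jn 344 (by decide +kernel) ?_
    refine jn 347 (by decide +kernel) ?_
    refine jn 362 (by decide +kernel) ?_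
    refine jn 376 (by decide +kernel) ?_
    refine jn 387 (by decide +kernel) ?_
    refine jn 390 (by decide +kernel) ?_
    refine jn 400 (by decide +kernel) ?_
    refine jn 403 (by decide +kernel) ?_
    refine jn 417 (by decide +kernel) ?_
    refine jn 430 (by decide +kernel) ?_
    refine jn 443 (by decide +kernel) ?_
    refine jn 457 (by decide +kernel) ?_
    refine jn 471 (by decide +kernel) ?_
    refine jn 493 (by decide +kernel) ?_
    refine jn 502 (by decide +kernel) ?_
    refine jn 505 (by decide +kernel) ?_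
    refine jn 517 (by decide +kernel) ?_
    refine jn 527 (by decide +kernel) ?_
    refine jn 537 (by decide +kernel) ?_
    refine jn 547 (by decide +kernel) ?_
    refine jn 557 (by decide +kernel) ?_
    refine jn 569 (by decide +kernel) ?_
    refine jn 579 (by decide +kernel) ?_
    refine jn 589 (by decide +kernel) ?_
    refine jn 600 (by decide +kernel) ?_
    refine jn 610 (by decide +kernel) ?_
    refine jn 620 (by decide +kernel) ?_
    refine jn 632 (by decide +kernel) ?_
    refine jn 642 (by decide +kernel) ?_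
    refine jn 658 (by decide +kernel) ?_
    refine jn 662 (by decide +kernel) ?_
    refine jn 673 (by decide +kernel) ?_
    refine jn 688 (by decide +kernel) ?_
    refine jn 691 (by decide +kernel) ?_
    refine jn 701 (by decide +kernel) ?_
    refine jn 712 (by decide +kernel) ?_
    refine jn 724 (by decide +kernel) ?_
    refine jn 735 (by decide +kernel) ?_
    refine jn 753 (by decide +kernel) ?_
    refine jn 763 (by decide +kernel) ?_
    refine jn 773 (by decide +kernel) ?_
    refine jn 782 (by decide +kernel) ?_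
    refine jn 798 (by decide +kernel) ?_
    refine jn 816 (by decide +kernel) ?_
    refine jn 825 (by decide +kernel) ?_
    refine jn 836 (by decide +kernel) ?_
    refine jn 853 (by decide +kernel) ?_
    refine jn 869 (by decide +kernel) ?_
    refine jn 880 (by decide +kernel) ?_
    refine jn 896 (by decide +kernel) ?_
    refine jn 906 (by decide +kernel) ?_
    refine jn 980 (by decide +kernel) ?_
    refine jn 1069 (by decide +kernel) ?_
    refine jn 1114 (by decide +kernel) ?_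
    refine jn 1126 (by decide +kernel) ?_
    refine jn 1133 (by decide +kernel) ?_
    refine jn 1142 (by decide +kernel) ?_
    refine jn 1146 (by decide +kernel) ?_
    refine jn 1150 (by decide +kernel) ?_
    refine jn 1154 (by decide +kernel) ?_
    refine jn 1158 (by decide +kernel) ?_
    refine jn 1179 (by decide +kernel) ?_
    refine jn 1182 (by decide +kernel) ?_
    refine jn 1186 (by decide +kernel) ?_
    refine jn 1190 (by decide +kernel) ?_
    refine jn 1197 (by decide +kernel) ?_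
    refine jn 1205 (by decide +kernel) ?_
    refine jn 1214 (by decide +kernel) ?_
    refine jn 1222 (by decide +kernel) ?_
    refine jn 1245 (by decide +kernel) ?_
    refine jn 1246 (by decide +kernel) ?_
    refine jn 1254 (by decide +kernel) ?_
    refine jn 1266 (by decide +kernel) ?_
    refine jn 1273 (by decide +kernel) ?_
    refine jn 1278 (by decide +kernel) ?_
    refine jn 1291 (by decide +kernel) ?_
    refine jn 1306 (by decide +kernel) ?_
    refine jn 1313 (by decide +kernel) ?_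
    refine jn 1315 (by decide +kernel) ?_
    refine jn 1318 (by decide +kernel) ?_
    refine jn 1326 (by decide +kernel) ?_
    refine jn 1335 (by decide +kernel) ?_
    refine jn 1343 (by decide +kernel) ?_
    refine jn 1350 (by decide +kernel) ?_
    refine jn 1358 (by decide +kernel) ?_
    refine jn 1367 (by decide +kernel) ?_
    refine jn 1374 (by decide +kernel) ?_
    refine jn 1382 (by decide +kernel) ?_
    refine jn 1389 (by decide +kernel) ?_
    refine jn 1390 (by decide +kernel) ?_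
    refine jn 1401 (by decide +kernel) ?_
    refine jn 1402 (by decide +kernel) ?_
    refine jn 1406 (by decide +kernel) ?_
    refine jn 1407 (by decide +kernel) ?_
    refine jn 1411 (by decide +kernel) ?_
    refine jn 1414 (by decide +kernel) ?_
    refine jn 1427 (by decide +kernel) ?_
    refine jn 1435 (by decide +kernel) ?_
    refine jn 1437 (by decide +kernel) ?_
    refine jn 1438 (by decide +kernel) ?_
    refine jn 1441 (by decide +kernel) ?_
    refine jn 1442 (by decide +kernel) ?_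
    refine jn 1445 (by decide +kernel) ?_
    refine jn 1446 (by decide +kernel) ?_
    refine jn 1450 (by decide +kernel) ?_
    refine jn 1454 (by decide +kernel) ?_
    refine jn 1461 (by decide +kernel) ?_
    refine jn 1466 (by decide +kernel) ?_
    refine jn 1470 (by decide +kernel) ?_
    refine jn 1477 (by decide +kernel) ?_
    refine jn 1491 (by decide +kernel) ?_
    refine jn 1493 (by decide +kernel) ?_
    refine jn 1501 (by decide +kernel) ?_
    refine jn 1502 (by decide +kernel) ?_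
    refine jn 1506 (by decide +kernel) ?_
    refine jn 1514 (by decide +kernel) ?_
    refine jn 1515 (by decide +kernel) ?_
    refine jn 1522 (by decide +kernel) ?_
    refine jn 1527 (by decide +kernel) ?_
    refine jn 1531 (by decide +kernel) ?_
    refine jn 1534 (by decide +kernel) ?_
    refine jn 1538 (by decide +kernel) ?_
    refine jn 1547 (by decide +kernel) ?_
    refine jn 1561 (by decide +kernel) ?_
    refine jn 1563 (by decide +kernel) ?_
    refine jn 1569 (by decide +kernel) ?_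
    refine jn 1571 (by decide +kernel) ?_
    refine jn 1574 (by decide +kernel) ?_
    refine jn 1578 (by decide +kernel) ?_
    refine jn 1579 (by decide +kernel) ?_
    refine jn 1586 (by decide +kernel) ?_
    refine jn 1591 (by decide +kernel) ?_
    refine jn 1595 (by decide +kernel) ?_
    refine jn 1601 (by decide +kernel) ?_
    refine jn 1606 (by decide +kernel) ?_
    refine jn 1610 (by decide +kernel) ?_
    refine jn 1618 (by decide +kernel) ?_
    refine jn 1623 (by decide +kernel) ?_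
    refine jn 1712 (by decide +kernel) ?_
    refine jn 1842 (by decide +kernel) ?_
    refine jn 1859 (by decide +kernel) ?_
    refine jn 1866 (by decide +kernel) ?_
    refine jn 1871 (by decide +kernel) ?_
    refine jn 1876 (by decide +kernel) ?_
    refine jn 1895 (by decide +kernel) ?_
    refine jn 1900 (by decide +kernel) ?_
    refine jn 1907 (by decide +kernel) ?_
    refine jn 1923 (by decide +kernel) ?_
    refine jn 1930 (by decide +kernel) ?_
    refine jn 1936 (by decide +kernel) ?_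
    refine jn 1948 (by decide +kernel) ?_
    refine jn 1959 (by decide +kernel) ?_
    refine jn 1967 (by decide +kernel) ?_
    refine jn 1975 (by decide +kernel) ?_
    refine jn 1987 (by decide +kernel) ?_
    refine jn 1990 (by decide +kernel) ?_
    refine jn 1992 (by decide +kernel) ?_
    refine jn 2002 (by decide +kernel) ?_
    refine jn 2012 (by decide +kernel) ?_
    refine jn 2030 (by decide +kernel) ?_
    refine jn 2044 (by decide +kernel) ?_
    refine jn 2056 (by decide +kernel) ?_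
    refine jn 2073 (by decide +kernel) ?_
    refine jn 2080 (by decide +kernel) ?_
    refine jn 2085 (by decide +kernel) ?_
    refine jn 2090 (by decide +kernel) ?_
    refine jn 2109 (by decide +kernel) ?_
    refine jn 2114 (by decide +kernel) ?_
    refine jn 2121 (by decide +kernel) ?_
    refine jn 2137 (by decide +kernel) ?_
    refine jn 2144 (by decide +kernel) ?_
    refine jn 2150 (by decide +kernel) ?_
    refine jn 2162 (by decide +kernel) ?_
    refine jn 2172 (by decide +kernel) ?_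
    refine jn 2180 (by decide +kernel) ?_
    refine jn 2188 (by decide +kernel) ?_
    refine jn 2197 (by decide +kernel) ?_
    refine jn 2204 (by decide +kernel) ?_
    refine jn 2206 (by decide +kernel) ?_
    refine jn 2216 (by decide +kernel) ?_
    refine jn 2225 (by decide +kernel) ?_
    refine jn 2238 (by decide +kernel) ?_
    refine jn 2257 (by decide +kernel) ?_
    refine jn 2278 (by decide +kernel) ?_
    refine jn 2302 (by decide +kernel) ?_
    refine jn 2321 (by decide +kernel) ?_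
    refine jn 2365 (by decide +kernel) ?_
    refine jn 2401 (by decide +kernel) ?_
    refine jn 2437 (by decide +kernel) ?_
    refine jn 2472 (by decide +kernel) ?_
    refine jn 2509 (by decide +kernel) ?_
    refine jn 2544 (by decide +kernel) ?_
    refine jn 2577 (by decide +kernel) ?_
    refine jn 2595 (by decide +kernel) ?_
    refine jn 2609 (by decide +kernel) ?_
    refine jn 2613 (by decide +kernel) ?_
    refine jn 2647 (by decide +kernel) ?_
    refine jn 2667 (by decide +kernel) ?_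
    refine jn 2683 (by decide +kernel) ?_
    refine jn 2712 (by decide +kernel) ?_
    refine jn 2736 (by decide +kernel) ?_
    refine jn 2752 (by decide +kernel) ?_
    refine jn 2773 (by decide +kernel) ?_
    refine jn 2800 (by decide +kernel) ?_
    refine jn 2817 (by decide +kernel) ?_
    refine jn 2837 (by decide +kernel) ?_
    refine jn 2857 (by decide +kernel) ?_
    refine jn 3000 (by decide +kernel) ?_
    refine jn 3033 (by decide +kernel) ?_
    refine jn 3062 (by decide +kernel) ?_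
    refine jn 3099 (by decide +kernel) ?_
    refine jn 3131 (by decide +kernel) ?_
    refine jn 3153 (by decide +kernel) ?_
    refine jn 3186 (by decide +kernel) ?_
    refine jn 3219 (by decide +kernel) ?_
    refine jn 3241 (by decide +kernel) ?_
    refine jn 3274 (by decide +kernel) ?_
    refine jn 3310 (by decide +kernel) ?_
    refine jn 3350 (by decide +kernel) ?_
    refine jn 3401 (by decide +kernel) ?_
    refine jn 3435 (by decide +kernel) ?_
    refine jn 3458 (by decide +kernel) ?_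
    refine jn 3482 (by decide +kernel) ?_
    refine jn 3503 (by decide +kernel) ?_
    refine jn 3528 (by decide +kernel) ?_
    refine jn 3556 (by decide +kernel) ?_
    refine jn 3570 (by decide +kernel) ?_
    refine jn 3595 (by decide +kernel) ?_
    refine jn 3619 (by decide +kernel) ?_
    refine jn 3644 (by decide +kernel) ?_
    refine jn 3663 (by decide +kernel) ?_
    refine jn 3680 (by decide +kernel) ?_
    refine jn 3712 (by decide +kernel) ?_
    refine jn 3731 (by decide +kernel) ?_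
    refine jn 3739 (by decide +kernel) ?_
    refine jn 3775 (by decide +kernel) ?_
    refine jn 3811 (by decide +kernel) ?_
    refine jn 3831 (by decide +kernel) ?_
    refine jn 3855 (by decide +kernel) ?_
    refine jn 3883 (by decide +kernel) ?_
    refine jn 3910 (by decide +kernel) ?_
    refine jn 3943 (by decide +kernel) ?_
    refine jn 3982 (by decide +kernel) ?_
    refine jn 4015 (by decide +kernel) ?_
    refine jn 4044 (by decide +kernel) ?_
    refine jn 4094 (by decide +kernel) ?_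
    refine jn 4128 (by decide +kernel) ?_
    refine jn 4182 (by decide +kernel) ?_
    refine jn 4219 (by decide +kernel) ?_
    refine jn 4278 (by decide +kernel) ?_
    refine jn 4330 (by decide +kernel) ?_
    refine jn 4379 (by decide +kernel) ?_
    refine jn 4407 (by decide +kernel) ?_
    refine jn 4456 (by decide +kernel) ?_
    refine jn 4609 (by decide +kernel) ?_
    refine jn 4648 (by decide +kernel) ?_
    refine jn 4685 (by decide +kernel) ?_
    refine jn 4717 (by decide +kernel) ?_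
    refine jn 4768 (by decide +kernel) ?_
    refine jn 4796 (by decide +kernel) ?_
    refine jn 4837 (by decide +kernel) ?_
    refine jn 4868 (by decide +kernel) ?_
    refine jn 4911 (by decide +kernel) ?_
    refine jn 4953 (by decide +kernel) ?_
    refine jn 5008 (by decide +kernel) ?_
    refine jn 5051 (by decide +kernel) ?_
    refine jn 5096 (by decide +kernel) ?_
    refine jn 5144 (by decide +kernel) ?_
    refine jn 5196 (by decide +kernel) ?_
    refine jn 5243 (by decide +kernel) ?_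
    refine jn 5268 (by decide +kernel) ?_
    refine jn 5321 (by decide +kernel) ?_
    refine jn 5372 (by decide +kernel) ?_
    refine jn 5433 (by decide +kernel) ?_
    refine jn 5597 (by decide +kernel) ?_
    refine jn 5661 (by decide +kernel) ?_
    refine jn 5726 (by decide +kernel) ?_
    refine jn 5790 (by decide +kernel) ?_
    refine jn 5837 (by decide +kernel) ?_
    refine jn 5885 (by decide +kernel) ?_
    refine jn 5941 (by decide +kernel) ?_
    refine jn 5990 (by decide +kernel) ?_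
    refine jn 6041 (by decide +kernel) ?_
    refine jn 6094 (by decide +kernel) ?_
    refine jn 6145 (by decide +kernel) ?_
    refine jn 6220 (by decide +kernel) ?_
    refine jn 6281 (by decide +kernel) ?_
    refine jn 6345 (by decide +kernel) ?_
    refine jn 6406 (by decide +kernel) ?_
    refine jn 6457 (by decide +kernel) ?_
    refine jn 6518 (by decide +kernel) ?_
    refine jn 6582 (by decide +kernel) ?_
    refine jn 6661 (by decide +kernel) ?_
    refine jn 6728 (by decide +kernel) ?_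
    refine jn 6983 (by decide +kernel) ?_
    refine jn 7109 (by decide +kernel) ?_
    refine jn 7185 (by decide +kernel) ?_
    refine jn 7252 (by decide +kernel) ?_
    refine jn 7314 (by decide +kernel) ?_
    refine jn 7374 (by decide +kernel) ?_
    refine jn 7433 (by decide +kernel) ?_
    refine jn 7509 (by decide +kernel) ?_
    refine jn 7576 (by decide +kernel) ?_
    refine jn 7641 (by decide +kernel) ?_
    refine jn 7713 (by decide +kernel) ?_
    refine jn 7777 (by decide +kernel) ?_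
    refine jn 7858 (by decide +kernel) ?_
    refine jn 7929 (by decide +kernel) ?_
    refine jn 8017 (by decide +kernel) ?_
    refine jn 8086 (by decide +kernel) ?_
    refine jn 8161 (by decide +kernel) ?_
    refine jn 8225 (by decide +kernel) ?_
    refine jn 8290 (by decide +kernel) ?_
    refine jn 8349 (by decide +kernel) ?_
    refine jn 8412 (by decide +kernel) ?_
    refine jn 8485 (by decide +kernel) ?_
    refine jn 8561 (by decide +kernel) ?_
    refine jn 8629 (by decide +kernel) ?_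
    refine jn 8705 (by decide +kernel) ?_
    refine jn 8862 (by decide +kernel) ?_
    refine jn 9169 (by decide +kernel) ?_
    refine jn 9334 (by decide +kernel) ?_
    refine jn 9458 (by decide +kernel) ?_
    refine jn 9558 (by decide +kernel) ?_
    refine jn 9641 (by decide +kernel) ?_
    refine jn 9728 (by decide +kernel) ?_
    refine jn 9784 (by decide +kernel) ?_
    refine jn 9850 (by decide +kernel) ?_
    refine jn 9914 (by decide +kernel) ?_
    refine jn 9963 (by decide +kernel) ?_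
    refine jn 10012 (by decide +kernel) ?_
    refine jn 10053 (by decide +kernel) ?_
    refine jn 10315 (by decide +kernel) ?_
    refine jn 10448 (by decide +kernel) ?_
    refine jn 10561 (by decide +kernel) ?_
    refine jn 10651 (by decide +kernel) ?_
    refine jn 10725 (by decide +kernel) ?_
    refine jn 10787 (by decide +kernel) ?_
    refine jn 10859 (by decide +kernel) ?_
    refine jn 10916 (by decide +kernel) ?_
    refine jn 10973 (by decide +kernel) ?_
    refine jn 11023 (by decide +kernel) ?_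
    refine jn 11078 (by decide +kernel) ?_
    refine jn 11125 (by decide +kernel) ?_
    refine jn 11171 (by decide +kernel) ?_
    refine jn 11215 (by decide +kernel) ?_
    refine jn 11252 (by decide +kernel) ?_
    refine jn 11285 (by decide +kernel) ?_
    refine jn 11330 (by decide +kernel) ?_
    refine jn 11641 (by decide +kernel) ?_
    refine jn 11803 (by decide +kernel) ?_
    refine jn 11940 (by decide +kernel) ?_
    refine jn 12056 (by decide +kernel) ?_
    refine jn 12143 (by decide +kernel) ?_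
    refine jn 12232 (by decide +kernel) ?_
    refine jn 12304 (by decide +kernel) ?_
    refine jn 12373 (by decide +kernel) ?_
    refine jn 12427 (by decide +kernel) ?_
    refine jn 12489 (by decide +kernel) ?_
    refine jn 12553 (by decide +kernel) ?_
    refine jn 12616 (by decide +kernel) ?_
    refine jn 12927 (by decide +kernel) ?_
    refine jn 13157 (by decide +kernel) ?_
    refine jn 13285 (by decide +kernel) ?_
    refine jn 13425 (by decide +kernel) ?_
    refine jn 13547 (by decide +kernel) ?_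
    refine jn 13666 (by decide +kernel) ?_
    refine jn 14222 (by decide +kernel) ?_
    refine jn 14434 (by decide +kernel) ?_
    refine jn 14573 (by decide +kernel) ?_
    exact je (by decide +kernel)
  · refine fin 5928 585 T71_1 ?_
    refine jn 5 (by decide +kernel) ?_
    refine jn 8 (by decide +kernel) ?_
    refine jn 11 (by decide +kernel) ?_
    refine jn 14 (by decide +kernel) ?_
    refine jn 17 (by decide +kernel) ?_
    refine jn 19 (by decide +kernel) ?_
    refine jn 21 (by decide +kernel) ?_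
    refine jn 24 (by decide +kernel) ?_
    refine jn 26 (by decide +kernel) ?_
    refine jn 29 (by decide +kernel) ?_
    refine jn 31 (by decide +kernel) ?_
    refine jn 34 (by decide +kernel) ?_
    refine jn 36 (by decide +kernel) ?_
    refine jn 47 (by decide +kernel) ?_
    refine jn 51 (by decide +kernel) ?_
    refine jn 54 (by decide +kernel) ?_
    refine jn 57 (by decide +kernel) ?_
    refine jn 59 (by decide +kernel) ?_
    refine jn 70 (by decide +kernel) ?_
    refine jn 80 (by decide +kernel) ?_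
    refine jn 91 (by decide +kernel) ?_
    refine jn 101 (by decide +kernel) ?_
    refine jn 111 (by decide +kernel) ?_
    refine jn 118 (by decide +kernel) ?_
    refine jn 128 (by decide +kernel) ?_
    refine jn 137 (by decide +kernel) ?_
    refine jn 145 (by decide +kernel) ?_
    refine jn 155 (by decide +kernel) ?_
    refine jn 160 (by decide +kernel) ?_
    refine jn 169 (by decide +kernel) ?_
    refine jn 178 (by decide +kernel) ?_
    refine jn 181 (by decide +kernel) ?_
    refine jn 190 (by decide +kernel) ?_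
    refine jn 200 (by decide +kernel) ?_
    refine jn 211 (by decide +kernel) ?_
    refine jn 213 (by decide +kernel) ?_
    refine jn 221 (by decide +kernel) ?_
    refine jn 290 (by decide +kernel) ?_
    refine jn 301 (by decide +kernel) ?_
    refine jn 310 (by decide +kernel) ?_
    refine jn 311 (by decide +kernel) ?_
    refine jn 312 (by decide +kernel) ?_
    refine jn 313 (by decide +kernel) ?_
    refine jn 314 (by decide +kernel) ?_
    refine jn 315 (by decide +kernel) ?_
    refine jn 316 (by decide +kernel) ?_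
    refine jn 317 (by decide +kernel) ?_
    refine jn 318 (by decide +kernel) ?_
    refine jn 319 (by decide +kernel) ?_
    refine jn 320 (by decide +kernel) ?_
    refine jn 321 (by decide +kernel) ?_
    refine jn 322 (by decide +kernel) ?_
    refine jn 323 (by decide +kernel) ?_
    refine jn 324 (by decide +kernel) ?_
    refine jn 325 (by decide +kernel) ?_
    refine jn 326 (by decide +kernel) ?_
    refine jn 328 (by decide +kernel) ?_
    refine jn 329 (by decide +kernel) ?_
    refine jn 330 (by decide +kernel) ?_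
    refine jn 331 (by decide +kernel) ?_
    refine jn 332 (by decide +kernel) ?_
    refine jn 333 (by decide +kernel) ?_
    refine jn 334 (by decide +kernel) ?_
    refine jn 335 (by decide +kernel) ?_
    refine jn 336 (by decide +kernel) ?_
    refine jn 337 (by decide +kernel) ?_
    refine jn 338 (by decide +kernel) ?_
    refine jn 339 (by decide +kernel) ?_
    refine jn 340 (by decide +kernel) ?_
    refine jn 341 (by decide +kernel) ?_
    refine jn 342 (by decide +kernel) ?_
    refine jn 343 (by decide +kernel) ?_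
    refine jn 344 (by decide +kernel) ?_
    refine jn 345 (by decide +kernel) ?_
    refine jn 350 (by decide +kernel) ?_
    refine jn 355 (by decide +kernel) ?_
    refine jn 360 (by decide +kernel) ?_
    refine jn 364 (by decide +kernel) ?_
    refine jn 365 (by decide +kernel) ?_
    refine jn 366 (by decide +kernel) ?_
    refine jn 367 (by decide +kernel) ?_
    refine jn 368 (by decide +kernel) ?_
    refine jn 369 (by decide +kernel) ?_
    refine jn 370 (by decide +kernel) ?_
    refine jn 371 (by decide +kernel) ?_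
    refine jn 372 (by decide +kernel) ?_
    refine jn 373 (by decide +kernel) ?_
    refine jn 374 (by decide +kernel) ?_
    refine jn 376 (by decide +kernel) ?_
    refine jn 377 (by decide +kernel) ?_
    refine jn 378 (by decide +kernel) ?_
    refine jn 381 (by decide +kernel) ?_
    refine jn 383 (by decide +kernel) ?_
    refine jn 387 (by decide +kernel) ?_
    refine jn 388 (by decide +kernel) ?_
    refine jn 392 (by decide +kernel) ?_
    refine jn 396 (by decide +kernel) ?_
    refine jn 400 (by decide +kernel) ?_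
    refine jn 403 (by decide +kernel) ?_
    refine jn 407 (by decide +kernel) ?_
    refine jn 411 (by decide +kernel) ?_
    refine jn 415 (by decide +kernel) ?_
    refine jn 418 (by decide +kernel) ?_
    refine jn 422 (by decide +kernel) ?_
    refine jn 426 (by decide +kernel) ?_
    refine jn 430 (by decide +kernel) ?_
    refine jn 433 (by decide +kernel) ?_
    refine jn 437 (by decide +kernel) ?_
    refine jn 441 (by decide +kernel) ?_
    refine jn 445 (by decide +kernel) ?_
    refine jn 448 (by decide +kernel) ?_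
    refine jn 452 (by decide +kernel) ?_
    refine jn 454 (by decide +kernel) ?_
    refine jn 458 (by decide +kernel) ?_
    refine jn 462 (by decide +kernel) ?_
    refine jn 468 (by decide +kernel) ?_
    refine jn 470 (by decide +kernel) ?_
    refine jn 474 (by decide +kernel) ?_
    refine jn 505 (by decide +kernel) ?_
    refine jn 528 (by decide +kernel) ?_
    refine jn 546 (by decide +kernel) ?_
    refine jn 572 (by decide +kernel) ?_
    exact je (by decide +kernel)
  · refine fin 4248 2815 T71_2 ?_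
    refine jn 6 (by decide +kernel) ?_
    refine jn 8 (by decide +kernel) ?_
    refine jn 9 (by decide +kernel) ?_
    refine jn 10 (by decide +kernel) ?_
    refine jn 12 (by decide +kernel) ?_
    refine jn 14 (by decide +kernel) ?_
    refine jn 15 (by decide +kernel) ?_
    refine jn 19 (by decide +kernel) ?_
    refine jn 22 (by decide +kernel) ?_
    refine jn 26 (by decide +kernel) ?_
    refine jn 37 (by decide +kernel) ?_
    refine jn 61 (by decide +kernel) ?_
    refine jn 73 (by decide +kernel) ?_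
    refine jn 85 (by decide +kernel) ?_
    refine jn 92 (by decide +kernel) ?_
    refine jn 93 (by decide +kernel) ?_
    refine jn 94 (by decide +kernel) ?_
    refine jn 96 (by decide +kernel) ?_
    refine jn 98 (by decide +kernel) ?_
    refine jn 99 (by decide +kernel) ?_
    refine jn 101 (by decide +kernel) ?_
    refine jn 102 (by decide +kernel) ?_
    refine jn 108 (by decide +kernel) ?_
    refine jn 111 (by decide +kernel) ?_
    refine jn 113 (by decide +kernel) ?_
    refine jn 115 (by decide +kernel) ?_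
    refine jn 117 (by decide +kernel) ?_
    refine jn 119 (by decide +kernel) ?_
    refine jn 121 (by decide +kernel) ?_
    refine jn 126 (by decide +kernel) ?_
    refine jn 132 (by decide +kernel) ?_
    refine jn 141 (by decide +kernel) ?_
    refine jn 143 (by decide +kernel) ?_
    refine jn 145 (by decide +kernel) ?_
    refine jn 147 (by decide +kernel) ?_
    refine jn 149 (by decide +kernel) ?_
    refine jn 151 (by decide +kernel) ?_
    refine jn 154 (by decide +kernel) ?_
    refine jn 156 (by decide +kernel) ?_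
    refine jn 165 (by decide +kernel) ?_
    refine jn 168 (by decide +kernel) ?_
    refine jn 170 (by decide +kernel) ?_
    refine jn 172 (by decide +kernel) ?_
    refine jn 173 (by decide +kernel) ?_
    refine jn 176 (by decide +kernel) ?_
    refine jn 178 (by decide +kernel) ?_
    refine jn 191 (by decide +kernel) ?_
    refine jn 194 (by decide +kernel) ?_
    refine jn 197 (by decide +kernel) ?_
    refine jn 201 (by decide +kernel) ?_
    refine jn 205 (by decide +kernel) ?_
    refine jn 214 (by decide +kernel) ?_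
    refine jn 215 (by decide +kernel) ?_
    refine jn 216 (by decide +kernel) ?_
    refine jn 217 (by decide +kernel) ?_
    refine jn 220 (by decide +kernel) ?_
    refine jn 221 (by decide +kernel) ?_
    refine jn 222 (by decide +kernel) ?_
    refine jn 233 (by decide +kernel) ?_
    refine jn 243 (by decide +kernel) ?_
    refine jn 247 (by decide +kernel) ?_
    refine jn 254 (by decide +kernel) ?_
    refine jn 255 (by decide +kernel) ?_
    refine jn 256 (by decide +kernel) ?_
    refine jn 260 (by decide +kernel) ?_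
    refine jn 270 (by decide +kernel) ?_
    refine jn 280 (by decide +kernel) ?_
    refine jn 290 (by decide +kernel) ?_
    refine jn 297 (by decide +kernel) ?_
    refine jn 300 (by decide +kernel) ?_
    refine jn 310 (by decide +kernel) ?_
    refine jn 317 (by decide +kernel) ?_
    refine jn 325 (by decide +kernel) ?_
    refine jn 333 (by decide +kernel) ?_
    refine jn 335 (by decide +kernel) ?_
    refine jn 344 (by decide +kernel) ?_
    refine jn 352 (by decide +kernel) ?_
    refine jn 362 (by decide +kernel) ?_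
    refine jn 369 (by decide +kernel) ?_
    refine jn 383 (by decide +kernel) ?_
    refine jn 399 (by decide +kernel) ?_
    refine jn 405 (by decide +kernel) ?_
    refine jn 413 (by decide +kernel) ?_
    refine jn 419 (by decide +kernel) ?_
    refine jn 431 (by decide +kernel) ?_
    refine jn 443 (by decide +kernel) ?_
    refine jn 523 (by decide +kernel) ?_
    refine jn 527 (by decide +kernel) ?_
    refine jn 535 (by decide +kernel) ?_
    refine jn 551 (by decide +kernel) ?_
    refine jn 563 (by decide +kernel) ?_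
    refine jn 575 (by decide +kernel) ?_
    refine jn 591 (by decide +kernel) ?_
    refine jn 607 (by decide +kernel) ?_
    refine jn 635 (by decide +kernel) ?_
    refine jn 655 (by decide +kernel) ?_
    refine jn 667 (by decide +kernel) ?_
    refine jn 703 (by decide +kernel) ?_
    refine jn 731 (by decide +kernel) ?_
    refine jn 743 (by decide +kernel) ?_
    refine jn 767 (by decide +kernel) ?_
    refine jn 772 (by decide +kernel) ?_
    refine jn 846 (by decide +kernel) ?_
    refine jn 874 (by decide +kernel) ?_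
    refine jn 890 (by decide +kernel) ?_
    refine jn 894 (by decide +kernel) ?_
    refine jn 910 (by decide +kernel) ?_
    refine jn 950 (by decide +kernel) ?_
    refine jn 954 (by decide +kernel) ?_
    refine jn 982 (by decide +kernel) ?_
    refine jn 1034 (by decide +kernel) ?_
    refine jn 1042 (by decide +kernel) ?_
    refine jn 1278 (by decide +kernel) ?_
    refine jn 1567 (by decide +kernel) ?_
    refine jn 1997 (by decide +kernel) ?_
    refine jn 2344 (by decide +kernel) ?_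
    exact je (by decide +kernel)

end Pool.Agent.MP_2339ce_nt.NR
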