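import Pool.Agent.MP_2339ce_nt.Q2.NC.L6
import Pool.Agent.MP_2339ce_nt.Q2.NC.L8
import Pool.Agent.MP_2339ce_nt.Q2.NC.L10
import Pool.Agent.MP_2339ce_nt.Q2.CkI

/-! Block NR: runs. -/

set_option autoImplicit false
set_option maxRecDepth 100000

noncomputable section

namespace Pool.Agent.MP_2339ce_nt.NR

open Q2.Top

def T72_0 : Ph :=
  (.na 122 242 (.na 73 227 (.na 36 220 (.na 12 216 (.nx 11 1321124 (.nr 10 1482912 (.nr 1 213 .s1
  (.nx 8 165142 (.nx 3 239 (.nr 2 2364 (.l1 (.ls 23 23 271)) (.l1 .sk)) (.nx 4 240 (.l1 .sk) (.nx 6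
  26009 (.lg 0 false 2 89 89 23 0 720) (.nr 7 65537 (.lg 0 true 1 83 83 19 0 720) .out)))) (.nr 9
  1025 (.lg 0 true 1 61 61 19 0 72) .out))) .out) .out) (.na 23 218 (.nx 22 1321124 (.nr 21 1482912
  (.nr 13 216 .s1 (.nx 16 240 (.nx 15 239 (.nr 14 2386 (.l1 (.ls 31 31 267)) (.l1 .sk)) (.l1 .sk))
  (.nx 19 165142 (.nr 17 65537 (.lg 0 true 1 83 83 31 0 720) (.nx 18 26009 (.lg 0 false 1 89 89 31
  0 720) .out)) (.nr 20 1025 (.lg 0 true 1 67 67 31 0 144) .out)))) .out) .out) (.nx 35 1321124
  (.nr 34 1482912 (.nr 24 218 .s1 (.nx 26 239 (.nr 25 2408 (.l1 (.ls 19 29 265)) (.l1 .sk)) (.nx 27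
  240 (.l1 .sk) (.nx 30 41287 (.lg 0 false 3 79 79 29 0 720) (.nr 33 16385 (.nr 31 1025 (.lg 0
  false 1 61 61 23 0 720) (.nx 32 165142 (.lg 2 false 1 53 53 23 19254 720) .out)) .out))))) .out)
  .out))) (.na 48 225 (.na 47 223 (.nx 46 1321124 (.nr 45 1482912 (.nr 37 220 .s1 (.nx 40 240 (.nx
  39 239 (.nr 38 2441 (.l1 (.ls 37 31 262)) (.l1 .sk)) (.l1 .sk)) (.nr 43 65537 (.nx 41 165142 (.lg
  0 true 1 89 89 37 0 7920) (.nr 42 1025 (.lg 0 true 1 73 73 37 0 7920) .out)) (.nx 44 26009 (.lg 0
  false 1 97 97 37 0 7920) .out)))) .out) .out) (.lg 0 false 1 0 0 16 0 24)) (.na 60 226 (.nx 59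
  1321124 (.nr 58 1482912 (.nr 49 225 .s1 (.nx 56 165142 (.nx 54 26009 (.nx 51 239 (.nr 50 2474
  (.l1 (.ls 23 29 256)) (.l1 .sk)) (.nx 52 240 (.l1 .sk) (.lg 0 false 2 83 83 29 0 720))) (.nr 55
  65537 (.lg 0 true 1 79 79 23 0 720) .out)) (.nr 57 1025 (.lg 0 true 1 59 59 23 0 360) .out)))
  .out) .out) (.nx 72 1321124 (.nr 71 1482912 (.nr 61 226 .s1 (.nx 64 240 (.nx 63 239 (.nr 62 2485
  (.l1 (.ls 17 29 255)) (.l1 .sk)) (.l1 .sk)) (.nx 67 41287 (.lg 0 false 3 73 73 29 0 144) (.nr 70
  16385 (.nr 68 1025 (.lg 0 false 1 59 59 23 0 144) (.nx 69 165142 (.lg 2 false 1 47 47 23 19254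
  144) .out)) .out)))) .out) .out)))) (.na 86 233 (.na 74 229 (.lg 0 false 1 0 0 16 0 24) (.na 75
  232 (.lg 0 false 1 0 0 16 0 24) (.nx 85 1321124 (.nr 84 1482912 (.nr 76 232 .s1 (.nx 82 165142
  (.nx 78 239 (.nr 77 2550 (.l1 (.ls 23 23 249)) (.l1 .sk)) (.nx 79 240 (.l1 .sk) (.nr 80 65537
  (.lg 0 true 1 89 89 23 0 720) (.nx 81 26009 (.lg 0 false 1 97 97 23 0 720) .out)))) (.nr 83 1025
  (.lg 0 true 1 71 71 23 0 144) .out))) .out) .out))) (.na 100 240 (.na 87 239 (.lg 0 false 1 0 0
  16 0 24) (.nx 99 1321124 (.nr 98 1482912 (.nr 88 239 .s1 (.nx 91 240 (.nx 90 239 (.nr 89 2627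
  (.l1 (.ls 16 17 241)) (.l1 .sk)) (.l1 .sk)) (.nx 95 41287 (.lg 0 false 4 71 71 17 0 144) (.nr 97
  16385 (.lg 0 false 2 71 71 17 0 144) .out)))) .out) .out)) (.na 111 241 (.nx 110 1321124 (.nr 109
  1482912 (.nr 101 240 .s1 (.nx 103 239 (.nr 102 2638 (.l1 (.ls 37 37 241)) (.l1 .sk)) (.nx 104 240
  (.l1 .sk) (.nr 107 65537 (.nx 105 165142 (.lg 0 true 1 79 89 41 0 720) (.nr 106 1025 (.lg 0 true
  1 67 73 41 0 720) .out)) (.nx 108 26009 (.lg 0 false 1 89 97 41 0 720) .out))))) .out) .out) (.nx
  121 1321124 (.nr 120 1482912 (.nr 112 241 .s1 (.nx 115 240 (.nx 114 239 (.nr 113 2649 (.l1 (.ls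
  19 17 240)) (.l1 .sk)) (.l1 .sk)) (.nx 118 41287 (.lg 0 false 3 73 73 19 0 72) (.nr 119 16385
  (.lg 0 false 1 79 79 17 0 720) .out)))) .out) .out))))) (.na 208 254 (.na 161 248 (.na 135 243
  (.nx 134 1321124 (.nr 133 1482912 (.nr 123 242 .s1 (.nx 126 240 (.nx 125 239 (.nr 124 2660 (.l1
  (.ls 23 31 239)) (.l1 .sk)) (.l1 .sk)) (.nx 129 41287 (.lg 0 false 3 79 79 31 0 1584) (.nr 132
  16385 (.nr 130 1025 (.lg 0 false 1 61 61 29 0 1584) (.nx 131 165142 (.lg 2 false 1 53 53 29 19254
  1584) .out)) .out)))) .out) .out) (.na 149 244 (.nx 148 1321124 (.nr 147 1482912 (.nr 136 243 .s1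
  (.nx 138 239 (.nr 137 2671 (.l1 (.ls 17 23 238)) (.l1 .sk)) (.nx 139 240 (.l1 .sk) (.nx 143 41287
  (.lg 0 false 4 73 73 23 0 720) (.nr 146 16385 (.nr 144 1025 (.lg 0 false 1 59 59 19 0 72) (.nx
  145 165142 (.lg 2 false 1 47 47 19 19254 72) .out)) .out))))) .out) .out) (.nx 160 1321124 (.nr
  159 1482912 (.nr 150 244 .s1 (.nx 157 165142 (.nx 152 239 (.nr 151 2714 (.l1 (.ls 29 29 237))
  (.l1 .sk)) (.nx 153 240 (.l1 .sk) (.nx 155 26009 (.lg 0 false 2 89 89 29 0 720) (.nr 156 65537
  (.lg 0 true 1 79 79 23 0 144) .out)))) (.nr 158 1025 (.lg 0 true 1 61 61 23 0 144) .out))) .out)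
  .out))) (.na 184 250 (.na 172 249 (.nx 171 1321124 (.nr 170 1482912 (.nr 162 248 .s1 (.nx 168
  165142 (.nx 164 239 (.nr 163 2725 (.l1 (.ls 29 29 233)) (.l1 .sk)) (.nx 165 240 (.l1 .sk) (.nr
  166 65537 (.lg 0 true 1 89 89 29 0 720) (.nx 167 26009 (.lg 0 false 1 97 97 29 0 720) .out))))
  (.nr 169 1025 (.lg 0 true 1 71 71 29 0 144) .out))) .out) .out) (.nx 183 1321124 (.nr 182 1482912
  (.nr 173 249 .s1 (.nx 178 26009 (.nx 175 239 (.nr 174 2736 (.l1 (.ls 23 23 232)) (.l1 .sk)) (.nx
  176 240 (.l1 .sk) (.lg 0 false 2 79 89 23 0 720))) (.nr 181 65537 (.nx 179 165142 (.lg 0 true 1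
  73 73 23 0 72) (.nr 180 1025 (.lg 0 true 1 59 59 23 0 72) .out)) .out))) .out) .out)) (.na 195
  251 (.nx 194 1321124 (.nr 193 1482912 (.nr 185 250 .s1 (.nx 188 240 (.nx 187 239 (.nr 186 2747
  (.l1 (.ls 19 29 231)) (.l1 .sk)) (.l1 .sk)) (.nx 191 41287 (.lg 0 false 3 79 79 31 0 720) (.nr
  192 16385 (.lg 0 false 1 79 79 29 0 720) .out)))) .out) .out) (.nx 207 1321124 (.nr 206 1482912
  (.nr 196 251 .s1 (.nx 198 239 (.nr 197 2780 (.l1 (.ls 17 17 230)) (.l1 .sk)) (.nx 199 240 (.l1
  .sk) (.nx 202 41287 (.lg 0 false 3 73 73 19 0 72) (.nr 205 16385 (.nr 203 1025 (.lg 0 false 1 59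
  59 17 0 72) (.nx 204 165142 (.lg 2 true 1 47 47 17 19254 720) .out)) .out))))) .out) .out))))
  (.na 244 257 (.na 221 255 (.nx 220 1321124 (.nr 219 1482912 (.nr 209 254 .s1 (.nx 212 240 (.nx
  211 239 (.nr 210 2791 (.l1 (.ls 17 29 227)) (.l1 .sk)) (.l1 .sk)) (.nx 215 41287 (.lg 0 false 3
  73 73 29 0 144) (.nr 218 16385 (.nr 216 1025 (.lg 0 false 1 59 59 23 0 144) (.nx 217 165142 (.lg
  2 true 1 47 47 23 19254 144) .out)) .out)))) .out) .out) (.na 232 256 (.nx 231 1321124 (.nr 230
  1482912 (.nr 222 255 .s1 (.nr 226 65537 (.nx 223 408 (.l1 (.ls 59 37 655)) (.nx 224 165142 (.lg 0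
  true 1 83 89 31 0 720) (.nr 225 1025 (.lg 0 true 1 71 71 31 0 360) .out))) (.nx 228 240 (.nx 227
  239 (.l1 .sk) (.l1 .sk)) (.nx 229 26009 (.lg 0 false 1 97 97 31 0 720) .out)))) .out) .out) (.nx
  243 1321124 (.nr 242 1482912 (.nr 233 256 .s1 (.nx 236 240 (.nx 235 239 (.nr 234 2813 (.l1 (.ls
  29 29 226)) (.l1 .sk)) (.l1 .sk)) (.nx 238 26009 (.lg 0 false 2 79 83 29 0 144) (.nr 241 65537
  (.nx 239 165142 (.lg 0 true 1 79 79 29 0 144) (.nr 240 2049 (.lg 0 true 1 67 67 29 0 144) .out))
  .out)))) .out) .out))) (.na 1278 512 (.na 675 363 (.nx 674 1321124 (.nr 673 1482912 (.nr 245 257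
  .s1 (.nx 566 165142 (.nx 459 26009 (.nx 352 239 (.nr 351 3973 (.la (.ls 41 23 225)) (.l1 .sk))
  (.nx 353 240 (.l1 .sk) (.la (.lg 0 false 1 83 83 23 0)))) (.nr 565 32769 (.la (.lg 0 true 1 73 73
  23 0)) .out)) (.nr 672 2049 (.la (.lg 0 true 1 67 67 23 0)) .out))) .out) .out) (.nx 1277 1321124
  (.nr 1276 1482912 (.nr 676 363 .s1 (.nx 1126 165142 (.nx 826 239 (.nr 825 5603 (.la (.ls 41 23
  160)) (.l1 .sk)) (.nx 827 240 (.l1 .sk) (.nx 976 26009 (.la (.lg 0 false 1 79 79 29 0)) (.nr 1125
  32769 (.la (.lg 0 true 1 71 71 29 0)) .out)))) (.nr 1275 2049 (.la (.lg 0 true 1 61 61 29 0))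
  .out))) .out) .out)) (.na 1923 725 (.nx 1922 1321124 (.nr 1921 1482912 (.nr 1279 512 .s1 (.nx
  1493 239 (.nr 1492 7934 (.la (.ls 41 23 182)) (.l1 .sk)) (.nx 1494 240 (.l1 .sk) (.nr 1707 32769
  (.la (.lg 0 true 1 79 79 29 0)) (.nx 1920 26009 (.la (.lg 0 false 1 79 79 29 0)) .out))))) .out)
  .out) (.nx 2524 20644 (.nr 2523 2097153 (.nr 1924 725 .s1 (.nx 2223 2049 (.la (.ls 71 41 5793))
  (.nr 2522 262145 (.la (.lg 0 false 1 61 61 31 0)) .out))) .out) .out))))))

def T72_1 : Ph :=
  (.na 437 19 (.na 252 12 (.na 194 10 (.na 110 9 (.nx 109 13316087 (.nr 108 623489 (.nx 3 168 (.nx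
  2 167 (.nr 1 82 (.lg 0 true 1 37 37 11 0 1008) (.l1 .sk)) (.l1 .sk)) (.nx 77 1664512 (.nx 27
  26007 (.nr 13 110219 (.lg 0 false 10 89 101 19 0 5040) (.nx 26 2582 (.nx 24 1627 (.nr 18 370729
  (.lg 0 false 5 89 97 13 0 5040) (.nx 23 647 (.lg 0 false 5 79 83 13 0 5040) .out)) (.nr 25 131073
  (.lg 0 false 1 79 79 11 0 144) .out)) .out)) (.nr 76 131073 (.nr 43 727 (.nx 37 832257 (.lg 0
  true 10 83 83 19 0 5040) (.nr 42 129 (.lg 0 true 5 79 79 13 0 720) .out)) (.nx 75 660563 (.nr 46
  2905 (.lg 2 true 3 83 89 13 75870 1008) (.nx 51 38224 (.lg 1 false 5 97 103 13 70370 55440) (.nx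
  56 56180 (.lg 1 false 5 97 103 13 47879 55440) (.nx 61 82572 (.lg 1 false 5 97 103 13 32576
  55440) (.nr 74 110219 (.nr 63 11603 (.nr 62 5806 (.lg 2 false 1 89 89 11 18987 1008) (.lg 2 false
  1 89 89 11 9501 1008)) (.nx 68 131073 (.lg 1 true 5 97 103 13 18642 55440) (.nr 73 65537 (.lg 2
  false 5 97 103 13 6991 720720) .out))) .out))))) .out)) .out)) (.nr 107 55 (.lg 0 true 30 79 83
  13 0 5040) .out))) .out) .out) (.nx 193 13316087 (.nr 192 623489 (.nx 113 168 (.nx 112 167 (.nr
  111 91 (.lg 0 true 1 31 31 7 0 5040) (.l1 .sk)) (.l1 .sk)) (.nr 184 131073 (.nx 126 46340 (.lg 0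
  false 13 101 103 16 0 720720) (.nr 168 745 (.nx 139 1664512 (.lg 0 true 13 79 83 16 0 936) (.nr
  167 65 (.lg 0 true 28 73 79 16 0 1008) .out)) (.nx 183 524289 (.nr 170 1527 (.lg 2 true 2 73 73
  16 58763 144) (.lg 2 false 13 101 107 16 39493 720720)) .out))) (.nx 191 1627 (.lg 0 false 7 83
  89 16 0 5040) .out))) .out) .out)) (.na 195 11 .ne (.nx 251 1664512 (.nr 250 623489 (.nx 198 168
  (.nx 197 167 (.nr 196 110 (.lg 0 true 1 31 31 9 0 7920) (.l1 .sk)) (.l1 .sk)) (.nr 242 131073
  (.nx 211 35390 (.lg 0 false 13 89 101 16 0 102960) (.nr 226 1621 (.nx 218 524289 (.lg 0 true 7 83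
  83 16 0 5544) (.nr 225 65 (.lg 0 true 7 71 71 16 0 5544) .out)) (.nx 241 416129 (.nx 233 65537
  (.lg 1 false 7 89 101 16 51713 55440) (.nr 240 110219 (.lg 2 false 7 97 101 16 23488 55440)
  .out)) .out))) (.nx 249 1292 (.lg 0 false 7 83 83 16 0 5544) .out))) .out) .out))) (.na 351 16
  (.na 304 14 (.nx 303 1664512 (.nr 302 623489 (.nx 266 10323 (.nx 254 167 (.nr 253 128 (.lg 0 true
  1 31 31 13 0 144) (.l1 .sk)) (.nx 255 168 (.l1 .sk) (.nr 260 155873 (.lg 0 false 5 89 89 19 0
  720) (.nx 265 1292 (.lg 0 false 5 83 89 19 0 720) .out)))) (.nr 301 110219 (.nx 295 524289 (.nx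
  271 30231 (.lg 0 false 5 97 101 19 0 5040) (.nr 276 829 (.lg 0 true 5 79 79 19 0 720) (.nx 294
  416129 (.nx 281 44511 (.lg 1 false 5 83 97 19 50919 5040) (.nr 283 3171 (.lg 2 true 2 79 83 13
  41915 144) (.nx 288 82572 (.lg 1 true 5 101 103 19 34583 720720) (.nr 293 77937 (.lg 2 false 5 89
  101 19 13191 5040) .out)))) .out))) (.nr 300 65 (.lg 0 true 5 71 71 19 0 720) .out)) .out)) .out)
  .out) (.nx 350 1664512 (.nr 349 623489 (.nr 305 6 .s1 (.nx 308 168 (.nx 307 167 (.nr 306 146 (.lg
  0 true 1 31 31 11 0 5040) (.l1 .sk)) (.l1 .sk)) (.nx 325 30231 (.nr 319 155873 (.lg 0 false 11 89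
  101 19 0 55440) (.nx 324 1292 (.lg 0 false 5 83 83 13 0 5040) .out)) (.nr 348 110219 (.nx 342
  524289 (.nr 330 829 (.lg 0 true 5 79 79 13 0 5040) (.nx 341 416129 (.lg 2 false 11 97 103 19
  50919 720720) .out)) (.nr 347 65 (.lg 0 true 5 67 67 13 0 5040) .out)) .out)))) .out) .out)) (.na
  394 17 (.nx 393 1664512 (.nr 392 1048577 (.nr 352 10 .s1 (.nx 354 167 (.nr 353 156 (.lg 0 true 1
  37 37 11 0 5040) (.l1 .sk)) (.nx 355 168 (.l1 .sk) (.nx 356 257 (.l1 (.ls 89 41 2367)) (.nr 391
  623489 (.nr 387 220437 (.nx 367 30231 (.nr 363 131073 (.lg 0 false 7 97 101 19 0 55440) (.nx 366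
  10323 (.lg 0 false 3 97 101 13 0 55440) .out)) (.nr 386 110219 (.nx 382 524289 (.nr 370 829 (.lg
  0 true 3 79 79 13 0 144) (.nx 381 416129 (.nx 376 82572 (.nx 373 44511 (.lg 1 false 3 97 101 13
  50919 55440) (.lg 1 true 3 97 103 13 34583 55440)) (.nr 380 77937 (.nr 377 3171 (.lg 2 false 1 83
  83 11 41915 144) (.lg 2 false 3 97 101 13 13191 55440)) .out)) .out)) (.nr 385 129 (.lg 0 true 3
  73 73 13 0 144) .out)) .out)) (.nx 390 1627 (.lg 0 false 3 89 89 13 0 5040) .out)) .out)))))
  .out) .out) (.na 395 18 .ne (.nx 436 1664512 (.nr 435 1048577 (.nr 396 13 .s1 (.nx 399 168 (.nx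
  398 167 (.nr 397 174 (.lg 0 false 1 23 23 13 0 1584) (.l1 .sk)) (.l1 .sk)) (.nx 429 262145 (.nx
  400 257 (.l1 (.ls 79 43 2104)) (.nr 428 623489 (.nx 417 41287 (.nr 405 92683 (.lg 0 false 5 89 89
  19 0 720) (.nx 416 13005 (.nr 410 220437 (.lg 0 false 5 89 89 19 0 7920) (.nx 415 1627 (.lg 0
  false 5 79 79 19 0 720) .out)) .out)) (.nr 427 77937 (.nr 422 1854 (.lg 0 true 5 73 73 19 0 720)
  (.lg 2 false 5 83 89 19 26380 720)) .out)) .out)) (.nr 434 217 (.lg 0 true 5 71 71 19 0 720)
  .out)))) .out) .out))))) (.na 567 27 (.na 508 22 (.na 474 21 (.nx 473 1664512 (.nr 472 1048577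
  (.nr 438 14 .s1 (.nx 466 262145 (.nx 457 41287 (.nx 442 257 (.nx 440 167 (.nr 439 192 (.lg 0 true
  1 31 31 11 0 5040) (.l1 .sk)) (.nx 441 168 (.l1 .sk) (.l1 (.ls 83 31 1993)))) (.nr 456 623489
  (.nr 451 220437 (.nr 446 92683 (.lg 0 false 4 101 101 16 0 5040) (.nx 450 13005 (.lg 0 false 4 97
  97 16 0 5040) .out)) (.nx 455 1627 (.lg 0 false 4 79 79 16 0 144) .out)) .out)) (.nr 465 77937
  (.nr 461 1854 (.lg 0 true 4 79 79 16 0 144) (.lg 2 false 4 97 97 16 26380 5040)) .out)) (.nr 471
  217 (.lg 0 true 5 73 73 16 0 360) .out))) .out) .out) (.nx 507 1664512 (.nr 506 1048577 (.nr 475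
  17 .s1 (.nx 479 257 (.nx 477 167 (.nr 476 201 (.lg 0 true 1 31 31 16 0 5040) (.l1 .sk)) (.nx 478
  168 (.l1 .sk) (.l1 (.ls 83 37 1804)))) (.nr 505 623489 (.nx 500 262145 (.nx 493 41287 (.nr 488
  220437 (.nr 483 92683 (.lg 0 false 4 89 97 17 0 5040) (.nx 487 13005 (.lg 0 false 4 89 97 17 0
  5040) .out)) (.nx 492 1627 (.lg 0 false 4 79 89 17 0 5040) .out)) (.nr 499 77937 (.nr 495 1854
  (.lg 0 true 2 83 83 17 0 1008) (.lg 2 false 4 89 97 17 26380 5040)) .out)) (.nr 504 217 (.lg 0
  true 4 73 73 17 0 1008) .out)) .out))) .out) .out)) (.na 539 23 (.nx 538 1664512 (.nr 537 1048577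
  (.nr 509 18 .s1 (.nx 513 257 (.nx 511 167 (.nr 510 211 (.lg 0 false 1 23 23 9 0 11088) (.l1 .sk))
  (.nx 512 168 (.l1 .sk) (.l1 (.ls 79 41 1722)))) (.nr 536 623489 (.nx 524 23994 (.nr 518 220437
  (.lg 0 false 5 97 97 19 0 55440) (.nx 523 1627 (.lg 0 false 5 79 79 19 0 55440) .out)) (.nr 535
  92683 (.nr 529 634 (.lg 0 true 5 73 73 19 0 7920) (.nx 534 262145 (.lg 2 false 5 97 101 19 53963
  55440) .out)) .out)) .out))) .out) .out) (.na 540 24 .ne (.nx 566 1664512 (.nr 565 1048577 (.nr
  541 21 .s1 (.nx 544 168 (.nx 543 167 (.nr 542 247 (.lg 0 true 1 31 37 19 0 720) (.l1 .sk)) (.l1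
  .sk)) (.nx 545 257 (.l1 (.ls 89 41 1579)) (.nr 564 311745 (.nr 561 262145 (.nx 558 208065 (.nx
  550 20644 (.nr 547 110219 (.lg 0 false 2 89 97 23 0 720) (.nx 549 8193 (.lg 0 false 2 97 103 23 0
  55440) .out)) (.nr 557 77937 (.nr 552 1307 (.lg 0 true 2 79 79 23 0 720) (.nx 556 165142 (.nx 553
  41287 (.lg 1 false 1 101 103 19 52759 55440) (.nr 555 65537 (.nr 554 21627 (.lg 2 false 1 83 89
  19 10551 720) (.lg 2 false 1 101 103 19 22192 55440)) .out)) .out)) .out)) (.nr 560 217 (.lg 0
  true 2 79 79 23 0 144) .out)) (.nx 562 645 .out (.nx 563 5162 (.lg 0 false 1 83 89 19 0 720)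
  .out))) .out)))) .out) .out)))) (.na 622 29 (.na 592 28 (.nx 591 1664512 (.nr 590 1048577 (.nr
  568 24 .s1 (.nx 571 168 (.nx 570 167 (.nr 569 256 (.lg 0 false 1 23 23 16 0 1008) (.l1 .sk)) (.l1
  .sk)) (.nx 572 257 (.l1 (.ls 73 31 1403)) (.nr 589 311745 (.nx 577 20644 (.lg 0 false 5 89 89 16
  0 5040) (.nr 588 77937 (.nr 582 513 (.lg 0 true 5 71 71 16 0 360) (.nx 587 165142 (.lg 2 false 5
  89 89 16 52759 5040) .out)) .out)) .out)))) .out) .out) (.nx 621 1664512 (.nr 620 1048577 (.nr
  593 25 .s1 (.nx 596 168 (.nx 595 167 (.nr 594 266 (.lg 0 true 1 29 29 13 0 1008) (.l1 .sk)) (.l1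
  .sk)) (.nx 597 257 (.l1 (.ls 83 41 1353)) (.nr 619 311745 (.nr 613 110219 (.nx 602 41287 (.lg 0
  false 5 89 97 23 0 55440) (.nr 612 65537 (.nr 609 1307 (.nx 603 208065 (.lg 0 false 1 79 79 13 0
  1008) (.nr 608 217 (.lg 0 true 5 71 73 23 0 5040) .out)) (.nx 611 165142 (.lg 2 false 2 89 89 19
  22192 1008) .out)) .out)) (.nx 618 8193 (.lg 0 false 5 79 89 23 0 5040) .out)) .out)))) .out)
  .out)) (.na 644 31 (.nx 643 1664512 (.nr 642 1048577 (.nr 623 26 .s1 (.nx 625 167 (.nr 624 284
  (.lg 0 false 1 31 31 13 0 55440) (.l1 .sk)) (.nx 626 168 (.l1 .sk) (.nx 632 20644 (.nx 627 257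
  (.l1 (.ls 79 23 1307)) (.nr 631 311745 (.lg 0 false 4 101 101 16 0 55440) .out)) (.nr 641 77937
  (.nr 636 513 (.lg 0 true 4 73 73 16 0 144) (.nx 640 165142 (.lg 2 false 4 97 101 16 52759 55440)
  .out)) .out))))) .out) .out) (.na 666 32 (.nx 665 1664512 (.nr 664 1048577 (.nr 645 29 .s1 (.nx
  648 168 (.nx 647 167 (.nr 646 293 (.lg 0 false 1 19 19 13 0 720) (.l1 .sk)) (.l1 .sk)) (.nx 654
  20644 (.nx 649 257 (.l1 (.ls 79 29 1223)) (.nr 653 311745 (.lg 0 false 4 89 97 16 0 720) .out))
  (.nr 663 77937 (.nr 658 513 (.lg 0 true 4 73 73 16 0 144) (.nx 662 165142 (.lg 2 false 4 89 89 16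
  52759 720) .out)) .out)))) .out) .out) (.nx 693 1664512 (.nr 692 1048577 (.nr 667 30 .s1 (.nx 670
  168 (.nx 669 167 (.nr 668 302 (.lg 0 false 1 23 23 13 0 144) (.l1 .sk)) (.l1 .sk)) (.nx 688
  208065 (.nx 683 41287 (.nx 671 257 (.l1 (.ls 79 37 1185)) (.nr 682 440873 (.nr 676 110219 (.lg 0
  false 5 83 89 19 0 720) (.nx 681 10323 (.lg 0 false 5 79 89 19 0 720) .out)) .out)) (.nr 687
  65537 (.nr 684 1307 (.lg 0 false 1 73 73 13 0 144) (.nx 686 165142 (.lg 2 false 2 83 89 13 22192
  144) .out)) .out)) (.nr 691 217 (.lg 0 true 3 67 67 19 0 144) .out)))) .out) .out))))))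

def T72_2 : Ph :=
  (.na 461 158 (.na 331 58 (.na 236 22 (.na 160 6 (.na 1 2 .ne (.na 159 3 (.nx 158 3329023 (.nr 157
  623489 (.nx 4 108 (.nx 3 107 (.nr 2 20 (.lg 0 true 1 37 37 5 0 15408) (.l1 .sk)) (.l1 .sk)) (.nr
  141 77937 (.nr 135 65537 (.nx 39 20644 (.lg 0 false 35 89 97 13 0 539280) (.nr 134 46342 (.nx 113
  1321124 (.nr 74 257 (.lg 0 true 35 83 83 13 0 539280) (.nx 112 165142 (.nx 89 41287 (.lg 1 true
  15 97 103 9 12881 77117040) (.nr 111 32769 (.nr 100 2276 (.lg 2 true 11 83 83 9 34378 169488)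
  (.lg 2 false 11 89 97 9 4559 1186416)) .out)) .out)) (.nr 133 9 (.lg 0 true 20 71 71 9 0 77040)
  .out)) .out)) (.nx 140 1292 (.lg 0 false 5 79 79 9 0 77040) .out)) (.nx 156 205 (.lg 0 false 15
  73 73 9 0 77040) .out))) .out) .out) .ne)) (.na 206 7 (.nx 205 1321124 (.nr 204 220437 (.nx 162
  107 (.nr 161 51 (.lg 0 true 1 29 29 7 0 77040) (.l1 .sk)) (.nx 163 108 (.l1 .sk) (.nr 196 55110
  (.nx 188 660563 (.nx 170 17968 (.lg 0 false 7 97 97 13 0 539280) (.nr 177 501 (.lg 0 true 7 79 79
  13 0 107856) (.nx 187 416129 (.nr 180 1905 (.lg 2 true 3 79 79 13 44437 15408) (.lg 2 false 7 89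
  101 13 17593 539280)) .out))) (.nr 195 109 (.lg 0 true 7 73 73 13 0 107856) .out)) (.nx 203 1292
  (.lg 0 false 7 83 83 13 0 539280) .out)))) .out) .out) (.na 207 18 .ne (.nx 235 1321124 (.nr 234
  1048577 (.nr 208 15 .s1 (.nx 211 108 (.nx 210 107 (.nr 209 161 (.lg 0 true 1 19 19 13 0 15408)
  (.l1 .sk)) (.l1 .sk)) (.nx 222 16385 (.nx 212 205 (.l1 (.ls 79 41 1689)) (.nr 221 623489 (.nx 213
  324 (.l1 (.ls 73 43 3500)) (.nr 220 220437 (.nr 218 131073 (.lg 0 false 5 83 83 19 0 77040) (.nx
  219 814 (.lg 0 true 1 71 71 13 0 15408) .out)) .out)) .out)) (.nr 233 46342 (.nr 227 498 (.lg 0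
  true 5 73 73 19 0 77040) (.nx 232 165142 (.lg 2 false 5 79 83 19 17742 77040) .out)) .out))))
  .out) .out)))) (.na 282 32 (.na 259 23 (.nx 258 1321124 (.nr 257 1048577 (.nr 237 20 .s1 (.nx 239
  107 (.nr 238 169 (.lg 0 false 1 19 19 9 0 169488) (.l1 .sk)) (.nx 240 108 (.l1 .sk) (.nx 241 324
  (.l1 (.ls 79 43 4244)) (.nr 256 220437 (.nx 246 16385 (.lg 0 false 5 89 89 19 0 847440) (.nr 255
  46342 (.nr 251 498 (.lg 0 true 5 73 73 19 0 847440) (.nx 254 165142 (.lg 2 false 3 83 83 13 17742
  169488) .out)) .out)) .out))))) .out) .out) (.na 260 26 .ne (.nx 281 1321124 (.nr 280 1048577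
  (.nr 261 24 .s1 (.nx 264 108 (.nx 263 107 (.nr 262 235 (.l1 (.ls 29 31 443)) (.l1 .sk)) (.l1
  .sk)) (.nx 265 205 (.l1 (.ls 83 41 1170)) (.nr 279 185365 (.nx 270 16385 (.lg 0 false 5 89 89 19
  0 1001520) (.nr 278 38969 (.nr 275 513 (.lg 0 true 5 73 73 19 0 1001520) (.nx 277 82572 (.lg 2
  true 2 83 83 11 13653 200304) .out)) .out)) .out)))) .out) .out))) (.na 300 46 (.na 283 38 .ne
  (.nx 299 1321124 (.nr 298 370729 (.nr 284 37 .s1 (.nx 286 107 (.nr 285 338 (.l1 (.ls 17 31 304))
  (.l1 .sk)) (.nx 287 108 (.l1 .sk) (.nx 292 13005 (.lg 0 false 5 83 83 17 0 77040) (.nr 297 23172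
  (.nr 295 338 (.lg 0 true 3 67 67 13 0 15408) (.nx 296 82572 (.lg 2 true 1 79 79 13 13070 15408)
  .out)) .out))))) .out) .out)) (.na 315 54 (.nx 314 1321124 (.nr 313 311745 (.nr 301 45 .s1 (.nx
  307 10323 (.nx 303 107 (.nr 302 396 (.l1 (.ls 19 29 251)) (.l1 .sk)) (.nx 304 108 (.l1 .sk) (.lg
  0 false 3 83 83 13 0 77040))) (.nr 312 23172 (.nr 310 396 (.lg 0 true 3 67 67 13 0 15408) (.nx
  311 82572 (.lg 2 true 1 73 73 13 12910 15408) .out)) .out))) .out) .out) (.nx 330 1321124 (.nr
  329 311745 (.nr 316 54 .s1 (.nx 319 108 (.nx 318 107 (.nr 317 426 (.l1 (.ls 19 29 215)) (.l1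
  .sk)) (.l1 .sk)) (.nx 324 20644 (.lg 0 false 5 79 79 23 0 77040) (.nr 328 13779 (.nx 325 82572
  (.lg 0 false 1 79 79 19 0 77040) (.nr 327 217 (.lg 0 true 2 61 61 19 0 15408) .out)) .out))))
  .out) .out))))) (.na 403 91 (.na 360 74 (.na 346 64 (.nx 345 1321124 (.nr 344 311745 (.nr 332 58
  .s1 (.nx 334 107 (.nr 333 470 (.l1 (.ls 17 23 200)) (.l1 .sk)) (.nx 335 108 (.l1 .sk) (.nx 338
  10323 (.lg 0 false 3 79 79 19 0 15408) (.nr 343 23172 (.nr 341 470 (.lg 0 true 3 67 67 19 0
  15408) (.nx 342 82572 (.lg 2 true 1 73 73 13 12910 15408) .out)) .out))))) .out) .out) (.na 347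
  66 .ne (.nx 359 1321124 (.nr 358 524289 (.nr 348 66 .s1 (.nx 350 107 (.nr 349 543 (.l1 (.ls 29 31
  176)) (.l1 .sk)) (.nx 351 108 (.l1 .sk) (.nx 353 8193 (.lg 0 false 2 89 89 29 0 847440) (.nr 357
  8193 (.nr 355 513 (.lg 0 true 2 71 71 29 0 169488) (.nx 356 82572 (.lg 2 true 1 67 67 29 8612
  169488) .out)) .out))))) .out) .out))) (.na 375 78 (.nx 374 1321124 (.nr 373 524289 (.nr 361 74
  .s1 (.nx 363 107 (.nr 362 572 (.l1 (.ls 19 23 157)) (.l1 .sk)) (.nx 364 108 (.l1 .sk) (.nx 367
  8193 (.lg 0 false 3 79 79 19 0 15408) (.nr 372 8193 (.nr 370 572 (.lg 0 true 3 67 67 19 0 15408)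
  (.nx 371 82572 (.lg 2 false 1 61 61 13 7724 15408) .out)) .out))))) .out) .out) (.na 388 82 (.nx
  387 1321124 (.nr 386 524289 (.nr 376 78 .s1 (.nx 379 108 (.nx 378 107 (.nr 377 602 (.l1 (.ls 23
  31 149)) (.l1 .sk)) (.l1 .sk)) (.nx 381 8193 (.lg 0 false 2 83 83 31 0 200304) (.nr 385 8193 (.nr
  383 513 (.lg 0 true 2 67 67 31 0 200304) (.nx 384 82572 (.lg 2 true 1 61 61 29 8612 200304)
  .out)) .out)))) .out) .out) (.nx 402 1321124 (.nr 401 524289 (.nr 389 82 .s1 (.nx 395 8193 (.nx
  391 107 (.nr 390 668 (.l1 (.ls 17 23 142)) (.l1 .sk)) (.nx 392 108 (.l1 .sk) (.lg 0 false 3 73 73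
  19 0 15408))) (.nr 400 8193 (.nr 398 668 (.lg 0 true 3 67 67 19 0 15408) (.nx 399 82572 (.lg 2
  true 1 59 59 13 6614 15408) .out)) .out))) .out) .out)))) (.na 428 114 (.na 404 94 .ne (.na 416
  106 (.nx 415 1321124 (.nr 414 524289 (.nr 405 94 .s1 (.nx 408 108 (.nx 407 107 (.nr 406 778 (.l1
  (.ls 19 23 124)) (.l1 .sk)) (.l1 .sk)) (.nx 409 8193 (.lg 0 true 1 83 83 17 0 15408) (.nr 413
  8193 (.nr 411 513 (.lg 0 true 2 61 61 19 0 15408) (.nx 412 82572 (.lg 2 false 1 59 59 17 8612
  15408) .out)) .out)))) .out) .out) (.nx 427 1321124 (.nr 426 524289 (.nr 417 106 .s1 (.nx 420 108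
  (.nx 419 107 (.nr 418 836 (.l1 (.ls 17 19 111)) (.l1 .sk)) (.l1 .sk)) (.nx 421 8193 (.lg 0 true 1
  83 83 19 0 77040) (.nr 425 8193 (.nr 423 513 (.lg 0 true 2 61 61 19 0 15408) (.nx 424 82572 (.lg
  2 false 1 59 59 19 8612 77040) .out)) .out)))) .out) .out))) (.na 450 128 (.na 439 122 (.nx 438
  1321124 (.nr 437 524289 (.nr 429 114 .s1 (.nx 433 8193 (.nx 431 107 (.nr 430 895 (.l1 (.ls 17 31
  103)) (.l1 .sk)) (.nx 432 108 (.l1 .sk) (.lg 0 true 1 89 89 31 0 77040))) (.nr 436 8193 (.nr 434
  513 (.lg 0 true 1 71 71 31 0 15408) (.nx 435 82572 (.lg 2 true 1 61 61 31 8612 15408) .out))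
  .out))) .out) .out) (.nx 449 1321124 (.nr 448 524289 (.nr 440 122 .s1 (.nx 444 8193 (.nx 442 107
  (.nr 441 939 (.l1 (.ls 16 19 96)) (.l1 .sk)) (.nx 443 108 (.l1 .sk) (.lg 0 true 1 79 79 19 0
  15408))) (.nr 447 8193 (.nr 445 513 (.lg 2 false 1 67 67 19 579346 15408) (.nx 446 82572 (.lg 2
  false 1 47 47 19 8612 15408) .out)) .out))) .out) .out)) (.na 451 138 .ne (.nx 460 660563 (.nr
  459 1048577 (.nr 452 138 .s1 (.nx 455 6503 (.nx 453 205 (.l1 (.ls 73 37 307)) (.nr 454 524289
  (.lg 0 false 1 79 79 31 0 15408) .out)) (.nr 458 8193 (.nr 456 1025 (.lg 0 true 1 67 67 31 0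
  15408) (.nx 457 82572 (.lg 2 true 1 59 59 31 7307 15408) .out)) .out))) .out) .out)))))) (.na 560
  257 (.na 509 202 (.na 485 174 (.na 469 162 (.nx 468 660563 (.nr 467 1048577 (.nr 462 158 .s1 (.nx
  463 205 (.l1 (.ls 61 29 268)) (.nr 466 524289 (.nr 464 8193 (.lg 0 false 1 79 79 19 0 15408) (.nx
  465 6503 (.lg 0 true 1 71 71 19 0 15408) .out)) .out))) .out) .out) (.na 477 166 (.nx 476 660563
  (.nr 475 1048577 (.nr 470 162 .s1 (.nx 471 205 (.l1 (.ls 61 31 262)) (.nr 474 524289 (.nr 472
  8193 (.lg 0 false 1 71 71 23 0 15408) (.nx 473 6503 (.lg 0 true 1 71 71 23 0 169488) .out))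
  .out))) .out) .out) (.nx 484 660563 (.nr 483 1048577 (.nr 478 166 .s1 (.nx 479 205 (.l1 (.ls 71
  29 256)) (.nr 482 524289 (.nr 480 8193 (.lg 0 false 1 73 73 19 0 15408) (.nx 481 6503 (.lg 0 true
  1 73 73 19 0 77040) .out)) .out))) .out) .out))) (.na 493 178 (.nx 492 660563 (.nr 491 1048577
  (.nr 486 174 .s1 (.nx 487 205 (.l1 (.ls 73 37 244)) (.nr 490 524289 (.nr 488 8193 (.lg 0 true 1
  79 79 23 0 15408) (.nx 489 6503 (.lg 0 false 1 73 73 23 0 15408) .out)) .out))) .out) .out) (.na
  501 198 (.nx 500 660563 (.nr 499 1048577 (.nr 494 178 .s1 (.nx 495 205 (.l1 (.ls 61 29 239)) (.nr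
  498 524289 (.nr 496 8193 (.lg 0 false 1 71 71 19 0 15408) (.nx 497 6503 (.lg 0 true 1 71 71 19 0
  15408) .out)) .out))) .out) .out) (.nx 508 660563 (.nr 507 1048577 (.nr 502 198 .s1 (.nx 503 205
  (.l1 (.ls 71 37 215)) (.nr 506 524289 (.nr 504 8193 (.lg 0 true 1 73 73 31 0 169488) (.nx 505
  6503 (.lg 0 false 1 73 73 31 0 169488) .out)) .out))) .out) .out)))) (.na 535 234 (.na 517 214
  (.nx 516 660563 (.nr 515 1048577 (.nr 510 202 .s1 (.nx 511 205 (.l1 (.ls 59 23 211)) (.nr 514
  524289 (.nr 512 8193 (.lg 0 false 1 71 71 23 0 15408) (.nx 513 6503 (.lg 0 true 1 67 67 23 0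
  15408) .out)) .out))) .out) .out) (.na 527 222 (.nx 526 660563 (.nr 525 1048577 (.nr 518 214 .s1
  (.nx 519 205 (.l1 (.ls 59 23 199)) (.nr 524 524289 (.nr 521 8193 (.lg 0 false 2 61 61 23 0 77040)
  (.nx 523 6503 (.lg 0 true 2 59 59 23 0 15408) .out)) .out))) .out) .out) (.nx 534 660563 (.nr 533
  1048577 (.nr 528 222 .s1 (.nx 529 205 (.l1 (.ls 71 31 192)) (.nr 532 524289 (.nr 530 8193 (.lg 0
  true 1 73 73 31 0 15408) (.nx 531 6503 (.lg 0 false 1 73 73 31 0 15408) .out)) .out))) .out)
  .out))) (.na 551 246 (.na 543 242 (.nx 542 660563 (.nr 541 1048577 (.nr 536 234 .s1 (.nx 537 205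
  (.l1 (.ls 71 37 182)) (.nr 540 524289 (.nr 538 8193 (.lg 0 true 1 73 73 37 0 200304) (.nx 539
  6503 (.lg 0 false 1 73 73 37 0 200304) .out)) .out))) .out) .out) (.nx 550 660563 (.nr 549
  1048577 (.nr 544 242 .s1 (.nx 545 205 (.l1 (.ls 61 29 176)) (.nr 548 524289 (.nr 546 8193 (.lg 0
  false 1 71 71 29 0 169488) (.nx 547 6503 (.lg 0 true 1 67 67 29 0 169488) .out)) .out))) .out)
  .out)) (.na 559 256 (.nx 558 660563 (.nr 557 1048577 (.nr 552 246 .s1 (.nx 553 205 (.l1 (.ls 71
  31 173)) (.nr 556 524289 (.nr 554 8193 (.lg 0 true 1 73 73 31 0 15408) (.nx 555 6503 (.lg 0 false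
  1 73 73 31 0 15408) .out)) .out))) .out) .out) .ne)))) (.na 3688 2897 (.na 1806 1024 (.na 1074
  512 (.nx 1073 82572 (.nr 1072 1048577 (.nr 561 257 .s1 (.nx 816 647 (.la (.ls 71 31 1631)) (.nr
  1071 262145 (.la (.lg 0 true 1 73 73 23 0)) .out))) .out) .out) (.na 1504 725 (.nx 1503 82572
  (.nr 1502 1048577 (.nr 1075 512 .s1 (.nx 1288 647 (.la (.ls 79 29 820)) (.nr 1501 262145 (.la
  (.lg 0 true 1 71 71 23 0)) .out))) .out) .out) (.nx 1805 3252 (.nr 1804 262145 (.nr 1505 725 .s1
  (.la (.ls 53 43 14589))) .out) .out))) (.na 2234 1449 (.nx 2233 3252 (.nr 2232 262145 (.nr 1807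
  1024 .s1 (.la (.ls 47 41 10330))) .out) .out) (.na 2836 2048 (.nx 2835 1627 (.nr 2834 131073 (.nr
  2235 1449 .s1 (.la (.ls 59 31 1829))) .out) .out) (.nx 3687 1627 (.nr 3686 131073 (.nr 2837 2048
  .s1 (.la (.ls 53 31 1295))) .out) .out)))) (.na 5637 16384 (.na 4338 4096 (.nx 4337 647 (.nr 4336
  65537 (.nr 3689 2897 .s1 (.nx 3851 163 (.lx (.lp 16 0 1025)) (.nr 4335 32769 (.lx (.lp 41 31
  1025)) .out))) .out) .out) (.na 4988 8192 (.nx 4987 647 (.nr 4986 65537 (.nr 4339 4096 .s1 (.nx
  4501 163 (.lx (.lp 16 0 2049)) (.nr 4985 32769 (.lx (.lp 41 37 2049)) .out))) .out) .out) (.nx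
  5636 647 (.nr 5635 65537 (.nr 4989 8192 .s1 (.lx (.lp 41 41 4097))) .out) .out))) (.na 6612 65536
  (.na 6286 32768 (.nx 6285 647 (.nr 6284 131073 (.nr 5638 16384 .s1 (.lx (.lp 37 41 8193))) .out)
  .out) (.nx 6611 324 (.nr 6610 131073 (.nr 6287 32768 .s1 (.lx (.lp 16 0 16385))) .out) .out))
  (.na 6938 131073 (.nx 6937 324 (.nr 6936 262145 (.nr 6613 65536 .s1 (.lx (.lp 16 0 32769))) .out)
  .out) .out))))))

theorem c72 :
    OkQ ckI L10 239 213 1024 0 34359738368 1 1099511627776 ∧
    OkQ ckI L8 167 8 33 0 34359738368 1 1099511627776 ∧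
    OkQ ckI L6 107 1 1099511627776 0 34359738368 1 1099511627776 := by
  refine ⟨?_, ?_, ?_⟩
  · refine fin 72 2525 T72_0 ?_
    refine jn 7 (by decide +kernel) ?_
    refine jn 16 (by decide +kernel) ?_
    refine jn 18 (by decide +kernel) ?_
    refine jn 30 (by decide +kernel) ?_
    refine jn 40 (by decide +kernel) ?_
    refine jn 41 (by decide +kernel) ?_
    refine jn 44 (by decide +kernel) ?_
    refine jn 55 (by decide +kernel) ?_
    refine jn 68 (by decide +kernel) ?_
    refine jn 79 (by decide +kernel) ?_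
    refine jn 81 (by decide +kernel) ?_
    refine jn 97 (by decide +kernel) ?_
    refine jn 101 (by decide +kernel) ?_
    refine jn 102 (by decide +kernel) ?_
    refine jn 104 (by decide +kernel) ?_
    refine jn 105 (by decide +kernel) ?_
    refine jn 106 (by decide +kernel) ?_
    refine jn 108 (by decide +kernel) ?_
    refine jn 129 (by decide +kernel) ?_
    refine jn 144 (by decide +kernel) ?_
    refine jn 156 (by decide +kernel) ?_
    refine jn 165 (by decide +kernel) ?_
    refine jn 167 (by decide +kernel) ?_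
    refine jn 178 (by decide +kernel) ?_
    refine jn 192 (by decide +kernel) ?_
    refine jn 210 (by decide +kernel) ?_
    refine jn 222 (by decide +kernel) ?_
    refine jn 224 (by decide +kernel) ?_
    refine jn 229 (by decide +kernel) ?_
    refine jn 240 (by decide +kernel) ?_
    refine jn 252 (by decide +kernel) ?_
    refine jn 253 (by decide +kernel) ?_
    refine jn 272 (by decide +kernel) ?_
    refine jn 288 (by decide +kernel) ?_
    refine jn 307 (by decide +kernel) ?_
    refine jn 318 (by decide +kernel) ?_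
    refine jn 328 (by decide +kernel) ?_
    refine jn 340 (by decide +kernel) ?_
    refine jn 348 (by decide +kernel) ?_
    refine jn 349 (by decide +kernel) ?_
    refine jn 359 (by decide +kernel) ?_
    refine jn 360 (by decide +kernel) ?_
    refine jn 361 (by decide +kernel) ?_
    refine jn 366 (by decide +kernel) ?_
    refine jn 368 (by decide +kernel) ?_
    refine jn 369 (by decide +kernel) ?_
    refine jn 379 (by decide +kernel) ?_
    refine jn 384 (by decide +kernel) ?_
    refine jn 385 (by decide +kernel) ?_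
    refine jn 389 (by decide +kernel) ?_
    refine jn 396 (by decide +kernel) ?_
    refine jn 397 (by decide +kernel) ?_
    refine jn 402 (by decide +kernel) ?_
    refine jn 406 (by decide +kernel) ?_
    refine jn 410 (by decide +kernel) ?_
    refine jn 416 (by decide +kernel) ?_
    refine jn 420 (by decide +kernel) ?_
    refine jn 423 (by decide +kernel) ?_
    refine jn 426 (by decide +kernel) ?_
    refine jn 427 (by decide +kernel) ?_
    refine jn 433 (by decide +kernel) ?_
    refine jn 436 (by decide +kernel) ?_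
    refine jn 437 (by decide +kernel) ?_
    refine jn 444 (by decide +kernel) ?_
    refine jn 445 (by decide +kernel) ?_
    refine jn 448 (by decide +kernel) ?_
    refine jn 451 (by decide +kernel) ?_
    refine jn 456 (by decide +kernel) ?_
    refine jn 457 (by decide +kernel) ?_
    refine jn 466 (by decide +kernel) ?_
    refine jn 467 (by decide +kernel) ?_
    refine jn 473 (by decide +kernel) ?_
    refine jn 477 (by decide +kernel) ?_
    refine jn 486 (by decide +kernel) ?_
    refine jn 491 (by decide +kernel) ?_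
    refine jn 499 (by decide +kernel) ?_
    refine jn 504 (by decide +kernel) ?_
    refine jn 508 (by decide +kernel) ?_
    refine jn 513 (by decide +kernel) ?_
    refine jn 522 (by decide +kernel) ?_
    refine jn 528 (by decide +kernel) ?_
    refine jn 532 (by decide +kernel) ?_
    refine jn 537 (by decide +kernel) ?_
    refine jn 542 (by decide +kernel) ?_
    refine jn 549 (by decide +kernel) ?_
    refine jn 551 (by decide +kernel) ?_
    refine jn 557 (by decide +kernel) ?_
    refine jn 562 (by decide +kernel) ?_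
    refine jn 563 (by decide +kernel) ?_
    refine jn 573 (by decide +kernel) ?_
    refine jn 574 (by decide +kernel) ?_
    refine jn 580 (by decide +kernel) ?_
    refine jn 581 (by decide +kernel) ?_
    refine jn 584 (by decide +kernel) ?_
    refine jn 593 (by decide +kernel) ?_
    refine jn 598 (by decide +kernel) ?_
    refine jn 606 (by decide +kernel) ?_
    refine jn 612 (by decide +kernel) ?_
    refine jn 616 (by decide +kernel) ?_
    refine jn 628 (by decide +kernel) ?_
    refine jn 633 (by decide +kernel) ?_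
    refine jn 639 (by decide +kernel) ?_
    refine jn 644 (by decide +kernel) ?_
    refine jn 649 (by decide +kernel) ?_
    refine jn 655 (by decide +kernel) ?_
    refine jn 658 (by decide +kernel) ?_
    refine jn 664 (by decide +kernel) ?_
    refine jn 669 (by decide +kernel) ?_
    refine jn 670 (by decide +kernel) ?_
    refine jn 694 (by decide +kernel) ?_
    refine jn 713 (by decide +kernel) ?_
    refine jn 721 (by decide +kernel) ?_
    refine jn 722 (by decide +kernel) ?_
    refine jn 748 (by decide +kernel) ?_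
    refine jn 753 (by decide +kernel) ?_
    refine jn 754 (by decide +kernel) ?_
    refine jn 778 (by decide +kernel) ?_
    refine jn 793 (by decide +kernel) ?_
    refine jn 794 (by decide +kernel) ?_
    refine jn 808 (by decide +kernel) ?_
    refine jn 818 (by decide +kernel) ?_
    refine jn 827 (by decide +kernel) ?_
    refine jn 831 (by decide +kernel) ?_
    refine jn 836 (by decide +kernel) ?_
    refine jn 837 (by decide +kernel) ?_
    refine jn 839 (by decide +kernel) ?_
    refine jn 847 (by decide +kernel) ?_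
    refine jn 848 (by decide +kernel) ?_
    refine jn 850 (by decide +kernel) ?_
    refine jn 860 (by decide +kernel) ?_
    refine jn 864 (by decide +kernel) ?_
    refine jn 865 (by decide +kernel) ?_
    refine jn 868 (by decide +kernel) ?_
    refine jn 872 (by decide +kernel) ?_
    refine jn 873 (by decide +kernel) ?_
    refine jn 883 (by decide +kernel) ?_
    refine jn 889 (by decide +kernel) ?_
    refine jn 895 (by decide +kernel) ?_
    refine jn 896 (by decide +kernel) ?_
    refine jn 899 (by decide +kernel) ?_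
    refine jn 900 (by decide +kernel) ?_
    refine jn 904 (by decide +kernel) ?_
    refine jn 905 (by decide +kernel) ?_
    refine jn 916 (by decide +kernel) ?_
    refine jn 923 (by decide +kernel) ?_
    refine jn 928 (by decide +kernel) ?_
    refine jn 929 (by decide +kernel) ?_
    refine jn 935 (by decide +kernel) ?_
    refine jn 944 (by decide +kernel) ?_
    refine jn 945 (by decide +kernel) ?_
    refine jn 951 (by decide +kernel) ?_
    refine jn 952 (by decide +kernel) ?_
    refine jn 953 (by decide +kernel) ?_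
    refine jn 959 (by decide +kernel) ?_
    refine jn 960 (by decide +kernel) ?_
    refine jn 962 (by decide +kernel) ?_
    refine jn 966 (by decide +kernel) ?_
    refine jn 972 (by decide +kernel) ?_
    refine jn 974 (by decide +kernel) ?_
    refine jn 976 (by decide +kernel) ?_
    refine jn 985 (by decide +kernel) ?_
    refine jn 987 (by decide +kernel) ?_
    refine jn 996 (by decide +kernel) ?_
    refine jn 999 (by decide +kernel) ?_
    refine jn 1009 (by decide +kernel) ?_
    refine jn 1013 (by decide +kernel) ?_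
    refine jn 1015 (by decide +kernel) ?_
    refine jn 1021 (by decide +kernel) ?_
    refine jn 1022 (by decide +kernel) ?_
    refine jn 1034 (by decide +kernel) ?_
    refine jn 1039 (by decide +kernel) ?_
    refine jn 1045 (by decide +kernel) ?_
    refine jn 1048 (by decide +kernel) ?_
    refine jn 1052 (by decide +kernel) ?_
    refine jn 1053 (by decide +kernel) ?_
    refine jn 1054 (by decide +kernel) ?_
    refine jn 1070 (by decide +kernel) ?_
    refine jn 1077 (by decide +kernel) ?_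
    refine jn 1078 (by decide +kernel) ?_
    refine jn 1091 (by decide +kernel) ?_
    refine jn 1093 (by decide +kernel) ?_
    refine jn 1094 (by decide +kernel) ?_
    refine jn 1100 (by decide +kernel) ?_
    refine jn 1102 (by decide +kernel) ?_
    refine jn 1108 (by decide +kernel) ?_
    refine jn 1109 (by decide +kernel) ?_
    refine jn 1113 (by decide +kernel) ?_
    refine jn 1118 (by decide +kernel) ?_
    refine jn 1123 (by decide +kernel) ?_
    refine jn 1129 (by decide +kernel) ?_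
    refine jn 1135 (by decide +kernel) ?_
    refine jn 1137 (by decide +kernel) ?_
    refine jn 1146 (by decide +kernel) ?_
    refine jn 1152 (by decide +kernel) ?_
    refine jn 1159 (by decide +kernel) ?_
    refine jn 1163 (by decide +kernel) ?_
    refine jn 1165 (by decide +kernel) ?_
    refine jn 1171 (by decide +kernel) ?_
    refine jn 1172 (by decide +kernel) ?_
    refine jn 1185 (by decide +kernel) ?_
    refine jn 1195 (by decide +kernel) ?_
    refine jn 1198 (by decide +kernel) ?_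
    refine jn 1202 (by decide +kernel) ?_
    refine jn 1203 (by decide +kernel) ?_
    refine jn 1204 (by decide +kernel) ?_
    refine jn 1222 (by decide +kernel) ?_
    refine jn 1228 (by decide +kernel) ?_
    refine jn 1241 (by decide +kernel) ?_
    refine jn 1243 (by decide +kernel) ?_
    refine jn 1244 (by decide +kernel) ?_
    refine jn 1251 (by decide +kernel) ?_
    refine jn 1256 (by decide +kernel) ?_
    refine jn 1259 (by decide +kernel) ?_
    refine jn 1263 (by decide +kernel) ?_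
    refine jn 1271 (by decide +kernel) ?_
    refine jn 1273 (by decide +kernel) ?_
    refine jn 1294 (by decide +kernel) ?_
    refine jn 1295 (by decide +kernel) ?_
    refine jn 1296 (by decide +kernel) ?_
    refine jn 1311 (by decide +kernel) ?_
    refine jn 1328 (by decide +kernel) ?_
    refine jn 1343 (by decide +kernel) ?_
    refine jn 1358 (by decide +kernel) ?_
    refine jn 1367 (by decide +kernel) ?_
    refine jn 1368 (by decide +kernel) ?_
    refine jn 1387 (by decide +kernel) ?_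
    refine jn 1407 (by decide +kernel) ?_
    refine jn 1427 (by decide +kernel) ?_
    refine jn 1428 (by decide +kernel) ?_
    refine jn 1447 (by decide +kernel) ?_
    refine jn 1448 (by decide +kernel) ?_
    refine jn 1463 (by decide +kernel) ?_
    refine jn 1464 (by decide +kernel) ?_
    refine jn 1487 (by decide +kernel) ?_
    refine jn 1488 (by decide +kernel) ?_
    refine jn 1504 (by decide +kernel) ?_
    refine jn 1508 (by decide +kernel) ?_
    refine jn 1510 (by decide +kernel) ?_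
    refine jn 1511 (by decide +kernel) ?_
    refine jn 1520 (by decide +kernel) ?_
    refine jn 1522 (by decide +kernel) ?_
    refine jn 1524 (by decide +kernel) ?_
    refine jn 1526 (by decide +kernel) ?_
    refine jn 1527 (by decide +kernel) ?_
    refine jn 1532 (by decide +kernel) ?_
    refine jn 1543 (by decide +kernel) ?_
    refine jn 1545 (by decide +kernel) ?_
    refine jn 1550 (by decide +kernel) ?_
    refine jn 1551 (by decide +kernel) ?_
    refine jn 1558 (by decide +kernel) ?_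
    refine jn 1560 (by decide +kernel) ?_
    refine jn 1562 (by decide +kernel) ?_
    refine jn 1568 (by decide +kernel) ?_
    refine jn 1576 (by decide +kernel) ?_
    refine jn 1582 (by decide +kernel) ?_
    refine jn 1583 (by decide +kernel) ?_
    refine jn 1588 (by decide +kernel) ?_
    refine jn 1594 (by decide +kernel) ?_
    refine jn 1595 (by decide +kernel) ?_
    refine jn 1602 (by decide +kernel) ?_
    refine jn 1604 (by decide +kernel) ?_
    refine jn 1613 (by decide +kernel) ?_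
    refine jn 1617 (by decide +kernel) ?_
    refine jn 1621 (by decide +kernel) ?_
    refine jn 1622 (by decide +kernel) ?_
    refine jn 1625 (by decide +kernel) ?_
    refine jn 1630 (by decide +kernel) ?_
    refine jn 1634 (by decide +kernel) ?_
    refine jn 1642 (by decide +kernel) ?_
    refine jn 1643 (by decide +kernel) ?_
    refine jn 1652 (by decide +kernel) ?_
    refine jn 1656 (by decide +kernel) ?_
    refine jn 1660 (by decide +kernel) ?_
    refine jn 1662 (by decide +kernel) ?_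
    refine jn 1663 (by decide +kernel) ?_
    refine jn 1678 (by decide +kernel) ?_
    refine jn 1679 (by decide +kernel) ?_
    refine jn 1692 (by decide +kernel) ?_
    refine jn 1701 (by decide +kernel) ?_
    refine jn 1702 (by decide +kernel) ?_
    refine jn 1703 (by decide +kernel) ?_
    refine jn 1709 (by decide +kernel) ?_
    refine jn 1721 (by decide +kernel) ?_
    refine jn 1723 (by decide +kernel) ?_
    refine jn 1724 (by decide +kernel) ?_
    refine jn 1733 (by decide +kernel) ?_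
    refine jn 1737 (by decide +kernel) ?_
    refine jn 1740 (by decide +kernel) ?_
    refine jn 1745 (by decide +kernel) ?_
    refine jn 1756 (by decide +kernel) ?_
    refine jn 1760 (by decide +kernel) ?_
    refine jn 1763 (by decide +kernel) ?_
    refine jn 1766 (by decide +kernel) ?_
    refine jn 1772 (by decide +kernel) ?_
    refine jn 1775 (by decide +kernel) ?_
    refine jn 1782 (by decide +kernel) ?_
    refine jn 1789 (by decide +kernel) ?_
    refine jn 1795 (by decide +kernel) ?_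
    refine jn 1796 (by decide +kernel) ?_
    refine jn 1801 (by decide +kernel) ?_
    refine jn 1807 (by decide +kernel) ?_
    refine jn 1809 (by decide +kernel) ?_
    refine jn 1817 (by decide +kernel) ?_
    refine jn 1826 (by decide +kernel) ?_
    refine jn 1833 (by decide +kernel) ?_
    refine jn 1835 (by decide +kernel) ?_
    refine jn 1838 (by decide +kernel) ?_
    refine jn 1843 (by decide +kernel) ?_
    refine jn 1849 (by decide +kernel) ?_
    refine jn 1855 (by decide +kernel) ?_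
    refine jn 1856 (by decide +kernel) ?_
    refine jn 1865 (by decide +kernel) ?_
    refine jn 1870 (by decide +kernel) ?_
    refine jn 1875 (by decide +kernel) ?_
    refine jn 1876 (by decide +kernel) ?_
    refine jn 1891 (by decide +kernel) ?_
    refine jn 1892 (by decide +kernel) ?_
    refine jn 1905 (by decide +kernel) ?_
    refine jn 1914 (by decide +kernel) ?_
    refine jn 1915 (by decide +kernel) ?_
    refine jn 1916 (by decide +kernel) ?_
    refine jn 1931 (by decide +kernel) ?_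
    refine jn 1943 (by decide +kernel) ?_
    refine jn 1947 (by decide +kernel) ?_
    refine jn 1964 (by decide +kernel) ?_
    refine jn 1977 (by decide +kernel) ?_
    refine jn 1991 (by decide +kernel) ?_
    refine jn 2003 (by decide +kernel) ?_
    refine jn 2014 (by decide +kernel) ?_
    refine jn 2024 (by decide +kernel) ?_
    refine jn 2043 (by decide +kernel) ?_
    refine jn 2063 (by decide +kernel) ?_
    refine jn 2078 (by decide +kernel) ?_
    refine jn 2098 (by decide +kernel) ?_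
    refine jn 2114 (by decide +kernel) ?_
    refine jn 2131 (by decide +kernel) ?_
    refine jn 2159 (by decide +kernel) ?_
    refine jn 2167 (by decide +kernel) ?_
    refine jn 2184 (by decide +kernel) ?_
    refine jn 2199 (by decide +kernel) ?_
    refine jn 2215 (by decide +kernel) ?_
    refine jn 2222 (by decide +kernel) ?_
    refine jn 2227 (by decide +kernel) ?_
    refine jn 2232 (by decide +kernel) ?_
    refine jn 2242 (by decide +kernel) ?_
    refine jn 2243 (by decide +kernel) ?_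
    refine jn 2246 (by decide +kernel) ?_
    refine jn 2249 (by decide +kernel) ?_
    refine jn 2260 (by decide +kernel) ?_
    refine jn 2266 (by decide +kernel) ?_
    refine jn 2271 (by decide +kernel) ?_
    refine jn 2283 (by decide +kernel) ?_
    refine jn 2290 (by decide +kernel) ?_
    refine jn 2291 (by decide +kernel) ?_
    refine jn 2302 (by decide +kernel) ?_
    refine jn 2306 (by decide +kernel) ?_
    refine jn 2311 (by decide +kernel) ?_
    refine jn 2314 (by decide +kernel) ?_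
    refine jn 2315 (by decide +kernel) ?_
    refine jn 2328 (by decide +kernel) ?_
    refine jn 2339 (by decide +kernel) ?_
    refine jn 2348 (by decide +kernel) ?_
    refine jn 2357 (by decide +kernel) ?_
    refine jn 2365 (by decide +kernel) ?_
    refine jn 2370 (by decide +kernel) ?_
    refine jn 2377 (by decide +kernel) ?_
    refine jn 2378 (by decide +kernel) ?_
    refine jn 2379 (by decide +kernel) ?_
    refine jn 2397 (by decide +kernel) ?_
    refine jn 2402 (by decide +kernel) ?_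
    refine jn 2412 (by decide +kernel) ?_
    refine jn 2417 (by decide +kernel) ?_
    refine jn 2428 (by decide +kernel) ?_
    refine jn 2433 (by decide +kernel) ?_
    refine jn 2445 (by decide +kernel) ?_
    refine jn 2458 (by decide +kernel) ?_
    refine jn 2459 (by decide +kernel) ?_
    refine jn 2466 (by decide +kernel) ?_
    refine jn 2472 (by decide +kernel) ?_
    refine jn 2479 (by decide +kernel) ?_
    refine jn 2488 (by decide +kernel) ?_
    refine jn 2494 (by decide +kernel) ?_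
    refine jn 2502 (by decide +kernel) ?_
    refine jn 2508 (by decide +kernel) ?_
    refine jn 2515 (by decide +kernel) ?_
    refine jn 2518 (by decide +kernel) ?_
    refine jn 2519 (by decide +kernel) ?_
    exact je (by decide +kernel)
  · refine fin 72 694 T72_1 ?_
    refine jn 3 (by decide +kernel) ?_
    refine jn 4 (by decide +kernel) ?_
    refine jn 5 (by decide +kernel) ?_
    refine jn 6 (by decide +kernel) ?_
    refine jn 7 (by decide +kernel) ?_
    refine jn 8 (by decide +kernel) ?_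
    refine jn 9 (by decide +kernel) ?_
    refine jn 10 (by decide +kernel) ?_
    refine jn 11 (by decide +kernel) ?_
    refine jn 12 (by decide +kernel) ?_
    refine jn 13 (by decide +kernel) ?_
    refine jn 18 (by decide +kernel) ?_
    refine jn 23 (by decide +kernel) ?_
    refine jn 27 (by decide +kernel) ?_
    refine jn 28 (by decide +kernel) ?_
    refine jn 29 (by decide +kernel) ?_
    refine jn 30 (by decide +kernel) ?_
    refine jn 31 (by decide +kernel) ?_
    refine jn 32 (by decide +kernel) ?_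
    refine jn 33 (by decide +kernel) ?_
    refine jn 34 (by decide +kernel) ?_
    refine jn 35 (by decide +kernel) ?_
    refine jn 36 (by decide +kernel) ?_
    refine jn 37 (by decide +kernel) ?_
    refine jn 40 (by decide +kernel) ?_
    refine jn 42 (by decide +kernel) ?_
    refine jn 45 (by decide +kernel) ?_
    refine jn 46 (by decide +kernel) ?_
    refine jn 51 (by decide +kernel) ?_
    refine jn 56 (by decide +kernel) ?_
    refine jn 61 (by decide +kernel) ?_
    refine jn 63 (by decide +kernel) ?_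
    refine jn 68 (by decide +kernel) ?_
    refine jn 72 (by decide +kernel) ?_
    refine jn 77 (by decide +kernel) ?_
    refine jn 79 (by decide +kernel) ?_
    refine jn 81 (by decide +kernel) ?_
    refine jn 101 (by decide +kernel) ?_
    refine jn 113 (by decide +kernel) ?_
    refine jn 116 (by decide +kernel) ?_
    refine jn 118 (by decide +kernel) ?_
    refine jn 121 (by decide +kernel) ?_
    refine jn 124 (by decide +kernel) ?_
    refine jn 126 (by decide +kernel) ?_
    refine jn 131 (by decide +kernel) ?_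
    refine jn 137 (by decide +kernel) ?_
    refine jn 139 (by decide +kernel) ?_
    refine jn 167 (by decide +kernel) ?_
    refine jn 177 (by decide +kernel) ?_
    refine jn 183 (by decide +kernel) ?_
    refine jn 196 (by decide +kernel) ?_
    refine jn 201 (by decide +kernel) ?_
    refine jn 205 (by decide +kernel) ?_
    refine jn 209 (by decide +kernel) ?_
    refine jn 211 (by decide +kernel) ?_
    refine jn 215 (by decide +kernel) ?_
    refine jn 218 (by decide +kernel) ?_
    refine jn 225 (by decide +kernel) ?_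
    refine jn 233 (by decide +kernel) ?_
    refine jn 240 (by decide +kernel) ?_
    refine jn 253 (by decide +kernel) ?_
    refine jn 255 (by decide +kernel) ?_
    refine jn 256 (by decide +kernel) ?_
    refine jn 257 (by decide +kernel) ?_
    refine jn 258 (by decide +kernel) ?_
    refine jn 259 (by decide +kernel) ?_
    refine jn 260 (by decide +kernel) ?_
    refine jn 265 (by decide +kernel) ?_
    refine jn 267 (by decide +kernel) ?_
    refine jn 269 (by decide +kernel) ?_
    refine jn 270 (by decide +kernel) ?_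
    refine jn 271 (by decide +kernel) ?_
    refine jn 272 (by decide +kernel) ?_
    refine jn 273 (by decide +kernel) ?_
    refine jn 274 (by decide +kernel) ?_
    refine jn 275 (by decide +kernel) ?_
    refine jn 276 (by decide +kernel) ?_
    refine jn 281 (by decide +kernel) ?_
    refine jn 283 (by decide +kernel) ?_
    refine jn 288 (by decide +kernel) ?_
    refine jn 291 (by decide +kernel) ?_
    refine jn 293 (by decide +kernel) ?_
    refine jn 298 (by decide +kernel) ?_
    refine jn 300 (by decide +kernel) ?_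
    refine jn 312 (by decide +kernel) ?_
    refine jn 316 (by decide +kernel) ?_
    refine jn 319 (by decide +kernel) ?_
    refine jn 327 (by decide +kernel) ?_
    refine jn 330 (by decide +kernel) ?_
    refine jn 340 (by decide +kernel) ?_
    refine jn 347 (by decide +kernel) ?_
    refine jn 355 (by decide +kernel) ?_
    refine jn 356 (by decide +kernel) ?_
    refine jn 357 (by decide +kernel) ?_
    refine jn 358 (by decide +kernel) ?_
    refine jn 359 (by decide +kernel) ?_
    refine jn 360 (by decide +kernel) ?_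
    refine jn 361 (by decide +kernel) ?_
    refine jn 362 (by decide +kernel) ?_
    refine jn 363 (by decide +kernel) ?_
    refine jn 367 (by decide +kernel) ?_
    refine jn 368 (by decide +kernel) ?_
    refine jn 369 (by decide +kernel) ?_
    refine jn 370 (by decide +kernel) ?_
    refine jn 373 (by decide +kernel) ?_
    refine jn 376 (by decide +kernel) ?_
    refine jn 377 (by decide +kernel) ?_
    refine jn 380 (by decide +kernel) ?_
    refine jn 385 (by decide +kernel) ?_
    refine jn 397 (by decide +kernel) ?_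
    refine jn 400 (by decide +kernel) ?_
    refine jn 403 (by decide +kernel) ?_
    refine jn 405 (by decide +kernel) ?_
    refine jn 415 (by decide +kernel) ?_
    refine jn 422 (by decide +kernel) ?_
    refine jn 434 (by decide +kernel) ?_
    refine jn 442 (by decide +kernel) ?_
    refine jn 445 (by decide +kernel) ?_
    refine jn 450 (by decide +kernel) ?_
    refine jn 461 (by decide +kernel) ?_
    refine jn 471 (by decide +kernel) ?_
    refine jn 479 (by decide +kernel) ?_
    refine jn 480 (by decide +kernel) ?_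
    refine jn 481 (by decide +kernel) ?_
    refine jn 482 (by decide +kernel) ?_
    refine jn 483 (by decide +kernel) ?_
    refine jn 487 (by decide +kernel) ?_
    refine jn 492 (by decide +kernel) ?_
    refine jn 493 (by decide +kernel) ?_
    refine jn 494 (by decide +kernel) ?_
    refine jn 495 (by decide +kernel) ?_
    refine jn 498 (by decide +kernel) ?_
    refine jn 501 (by decide +kernel) ?_
    refine jn 503 (by decide +kernel) ?_
    refine jn 512 (by decide +kernel) ?_
    refine jn 513 (by decide +kernel) ?_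
    refine jn 518 (by decide +kernel) ?_
    refine jn 524 (by decide +kernel) ?_
    refine jn 529 (by decide +kernel) ?_
    refine jn 538 (by decide +kernel) ?_
    refine jn 544 (by decide +kernel) ?_
    refine jn 545 (by decide +kernel) ?_
    refine jn 546 (by decide +kernel) ?_
    refine jn 547 (by decide +kernel) ?_
    refine jn 549 (by decide +kernel) ?_
    refine jn 550 (by decide +kernel) ?_
    refine jn 551 (by decide +kernel) ?_
    refine jn 552 (by decide +kernel) ?_
    refine jn 553 (by decide +kernel) ?_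
    refine jn 554 (by decide +kernel) ?_
    refine jn 555 (by decide +kernel) ?_
    refine jn 558 (by decide +kernel) ?_
    refine jn 559 (by decide +kernel) ?_
    refine jn 560 (by decide +kernel) ?_
    refine jn 572 (by decide +kernel) ?_
    refine jn 577 (by decide +kernel) ?_
    refine jn 582 (by decide +kernel) ?_
    refine jn 594 (by decide +kernel) ?_
    refine jn 597 (by decide +kernel) ?_
    refine jn 598 (by decide +kernel) ?_
    refine jn 599 (by decide +kernel) ?_
    refine jn 600 (by decide +kernel) ?_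
    refine jn 601 (by decide +kernel) ?_
    refine jn 602 (by decide +kernel) ?_
    refine jn 603 (by decide +kernel) ?_
    refine jn 606 (by decide +kernel) ?_
    refine jn 609 (by decide +kernel) ?_
    refine jn 611 (by decide +kernel) ?_
    refine jn 618 (by decide +kernel) ?_
    refine jn 631 (by decide +kernel) ?_
    refine jn 636 (by decide +kernel) ?_
    refine jn 648 (by decide +kernel) ?_
    refine jn 653 (by decide +kernel) ?_
    refine jn 658 (by decide +kernel) ?_
    refine jn 668 (by decide +kernel) ?_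
    refine jn 671 (by decide +kernel) ?_
    refine jn 672 (by decide +kernel) ?_
    refine jn 673 (by decide +kernel) ?_
    refine jn 674 (by decide +kernel) ?_
    refine jn 675 (by decide +kernel) ?_
    refine jn 676 (by decide +kernel) ?_
    refine jn 681 (by decide +kernel) ?_
    refine jn 684 (by decide +kernel) ?_
    refine jn 686 (by decide +kernel) ?_
    refine jn 691 (by decide +kernel) ?_
    exact je (by decide +kernel)
  · refine fin 7704 6939 T72_2 ?_
    refine jn 8 (by decide +kernel) ?_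
    refine jn 15 (by decide +kernel) ?_
    refine jn 20 (by decide +kernel) ?_
    refine jn 22 (by decide +kernel) ?_
    refine jn 27 (by decide +kernel) ?_
    refine jn 31 (by decide +kernel) ?_
    refine jn 36 (by decide +kernel) ?_
    refine jn 44 (by decide +kernel) ?_
    refine jn 53 (by decide +kernel) ?_
    refine jn 62 (by decide +kernel) ?_
    refine jn 74 (by decide +kernel) ?_
    refine jn 89 (by decide +kernel) ?_
    refine jn 100 (by decide +kernel) ?_
    refine jn 133 (by decide +kernel) ?_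
    refine jn 156 (by decide +kernel) ?_
    refine jn 163 (by decide +kernel) ?_
    refine jn 164 (by decide +kernel) ?_
    refine jn 166 (by decide +kernel) ?_
    refine jn 167 (by decide +kernel) ?_
    refine jn 169 (by decide +kernel) ?_
    refine jn 170 (by decide +kernel) ?_
    refine jn 172 (by decide +kernel) ?_
    refine jn 174 (by decide +kernel) ?_
    refine jn 176 (by decide +kernel) ?_
    refine jn 177 (by decide +kernel) ?_
    refine jn 180 (by decide +kernel) ?_
    refine jn 187 (by decide +kernel) ?_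
    refine jn 195 (by decide +kernel) ?_
    refine jn 211 (by decide +kernel) ?_
    refine jn 213 (by decide +kernel) ?_
    refine jn 217 (by decide +kernel) ?_
    refine jn 222 (by decide +kernel) ?_
    refine jn 227 (by decide +kernel) ?_
    refine jn 238 (by decide +kernel) ?_
    refine jn 241 (by decide +kernel) ?_
    refine jn 246 (by decide +kernel) ?_
    refine jn 251 (by decide +kernel) ?_
    refine jn 264 (by decide +kernel) ?_
    refine jn 265 (by decide +kernel) ?_
    refine jn 270 (by decide +kernel) ?_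
    refine jn 275 (by decide +kernel) ?_
    refine jn 287 (by decide +kernel) ?_
    refine jn 292 (by decide +kernel) ?_
    refine jn 296 (by decide +kernel) ?_
    refine jn 307 (by decide +kernel) ?_
    refine jn 311 (by decide +kernel) ?_
    refine jn 319 (by decide +kernel) ?_
    refine jn 320 (by decide +kernel) ?_
    refine jn 321 (by decide +kernel) ?_
    refine jn 322 (by decide +kernel) ?_
    refine jn 323 (by decide +kernel) ?_
    refine jn 324 (by decide +kernel) ?_
    refine jn 332 (by decide +kernel) ?_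
    refine jn 341 (by decide +kernel) ?_
    refine jn 351 (by decide +kernel) ?_
    refine jn 353 (by decide +kernel) ?_
    refine jn 355 (by decide +kernel) ?_
    refine jn 367 (by decide +kernel) ?_
    refine jn 379 (by decide +kernel) ?_
    refine jn 381 (by decide +kernel) ?_
    refine jn 383 (by decide +kernel) ?_
    refine jn 395 (by decide +kernel) ?_
    refine jn 409 (by decide +kernel) ?_
    refine jn 423 (by decide +kernel) ?_
    refine jn 434 (by decide +kernel) ?_
    refine jn 445 (by decide +kernel) ?_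
    refine jn 456 (by decide +kernel) ?_
    refine jn 465 (by decide +kernel) ?_
    refine jn 481 (by decide +kernel) ?_
    refine jn 489 (by decide +kernel) ?_
    refine jn 504 (by decide +kernel) ?_
    refine jn 513 (by decide +kernel) ?_
    refine jn 531 (by decide +kernel) ?_
    refine jn 539 (by decide +kernel) ?_
    refine jn 555 (by decide +kernel) ?_
    refine jn 662 (by decide +kernel) ?_
    refine jn 786 (by decide +kernel) ?_
    refine jn 841 (by decide +kernel) ?_
    refine jn 845 (by decide +kernel) ?_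
    refine jn 861 (by decide +kernel) ?_
    refine jn 885 (by decide +kernel) ?_
    refine jn 901 (by decide +kernel) ?_
    refine jn 945 (by decide +kernel) ?_
    refine jn 973 (by decide +kernel) ?_
    refine jn 1005 (by decide +kernel) ?_
    refine jn 1033 (by decide +kernel) ?_
    refine jn 1045 (by decide +kernel) ?_
    refine jn 1057 (by decide +kernel) ?_
    refine jn 1065 (by decide +kernel) ?_
    refine jn 1157 (by decide +kernel) ?_
    refine jn 1298 (by decide +kernel) ?_
    refine jn 1314 (by decide +kernel) ?_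
    refine jn 1370 (by decide +kernel) ?_
    refine jn 1382 (by decide +kernel) ?_
    refine jn 1418 (by decide +kernel) ?_
    refine jn 1450 (by decide +kernel) ?_
    refine jn 1506 (by decide +kernel) ?_
    refine jn 1594 (by decide +kernel) ?_
    refine jn 1654 (by decide +kernel) ?_
    refine jn 1716 (by decide +kernel) ?_
    refine jn 1817 (by decide +kernel) ?_
    refine jn 1937 (by decide +kernel) ?_
    refine jn 2035 (by decide +kernel) ?_
    refine jn 2145 (by decide +kernel) ?_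
    refine jn 2235 (by decide +kernel) ?_
    refine jn 2372 (by decide +kernel) ?_
    refine jn 2552 (by decide +kernel) ?_
    refine jn 2712 (by decide +kernel) ?_
    refine jn 2915 (by decide +kernel) ?_
    refine jn 3051 (by decide +kernel) ?_
    refine jn 3231 (by decide +kernel) ?_
    refine jn 3415 (by decide +kernel) ?_
    refine jn 3595 (by decide +kernel) ?_
    refine jn 3984 (by decide +kernel) ?_
    refine jn 4200 (by decide +kernel) ?_
    refine jn 4331 (by decide +kernel) ?_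
    refine jn 4690 (by decide +kernel) ?_
    refine jn 4815 (by decide +kernel) ?_
    refine jn 4934 (by decide +kernel) ?_
    refine jn 5279 (by decide +kernel) ?_
    refine jn 5477 (by decide +kernel) ?_
    refine jn 5623 (by decide +kernel) ?_
    refine jn 6118 (by decide +kernel) ?_
    refine jn 6610 (by decide +kernel) ?_
    exact je (by decide +kernel)

end Pool.Agent.MP_2339ce_nt.NR
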