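import Pool.Agent.MP_2339ce_nt.Q2.NC.L6
import Pool.Agent.MP_2339ce_nt.Q2.NC.L8
import Pool.Agent.MP_2339ce_nt.Q2.NC.L10
import Pool.Agent.MP_2339ce_nt.Q2.CkI

/-! Block NR: runs. -/

set_option autoImplicit false
set_option maxRecDepth 100000

noncomputable section

namespace Pool.Agent.MP_2339ce_nt.NR

open Q2.Top

def T77_0 : Ph :=
  (.na 819 128 (.na 603 42 (.na 449 16 (.na 323 7 (.na 187 3 (.na 1 2 .ne (.nx 186 3329023 (.nr 185
  623489 (.nx 3 171 (.nr 2 25 (.lg 0 false 1 43 43 5 0 2736) (.l1 .sk)) (.nx 4 172 (.l1 .sk) (.nr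
  171 131073 (.nx 154 1664512 (.nx 127 416129 (.nx 30 26009 (.lg 0 false 26 107 109 11 0 13693680)
  (.nr 126 110219 (.nr 43 450 (.lg 0 true 13 89 89 9 0 35568) (.nx 56 32769 (.lg 1 false 13 103 107
  9 62055 13693680) (.nr 125 92683 (.nr 69 2437 (.lg 2 true 13 101 101 9 79065 13693680) (.nx 124
  330282 (.nr 110 77937 (.nr 82 27556 (.lg 2 false 13 103 107 9 12372 13693680) (.nx 109 165142
  (.nr 95 55110 (.lg 2 false 13 103 107 9 24666 13693680) (.nx 108 131073 (.lg 2 true 13 103 107 9
  34850 13693680) .out)) .out)) (.nx 123 82572 (.lg 2 true 13 103 107 9 41430 13693680) .out))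
  .out)) .out))) .out)) (.nr 153 257 (.lg 0 true 26 89 97 11 0 35568) .out)) (.nr 170 9 (.lg 0 true
  16 71 71 9 0 2736) .out)) (.nx 184 257 (.lg 0 false 13 83 83 9 0 35568) .out)))) .out) .out))
  (.na 188 6 .ne (.nx 322 13316087 (.nr 321 623489 (.nx 191 172 (.nx 190 171 (.nr 189 64 (.lg 0
  false 1 37 37 7 0 13680) (.l1 .sk)) (.l1 .sk)) (.nx 271 832257 (.nx 192 205 (.l1 (.ls 83 43
  2076)) (.nr 270 370729 (.nx 213 28089 (.nr 205 131073 (.lg 0 false 13 101 101 13 0 177840) (.nx
  212 1627 (.lg 0 false 7 83 83 13 0 19152) .out)) (.nr 269 155873 (.nr 226 1026 (.lg 0 true 13 83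
  83 13 0 35568) (.nx 268 660563 (.nx 240 52015 (.nr 239 131073 (.lg 1 false 13 97 101 13 68315
  177840) .out) (.nr 247 8201 (.lg 2 true 7 89 89 13 55047 95760) (.nx 260 131073 (.lg 1 true 13
  103 107 13 43862 13693680) (.nr 267 65537 (.lg 2 false 7 89 89 13 7330 95760) .out)))) .out))
  .out)) .out)) (.nr 320 129 (.nr 306 42 (.lg 0 true 35 73 73 13 0 95760) (.nx 319 1664512 (.lg 0
  true 13 71 71 13 0 35568) .out)) .out))) .out) .out))) (.na 387 12 (.na 324 10 .ne (.nx 386
  1664512 (.nr 385 623489 (.nx 377 524289 (.nx 326 171 (.nr 325 111 (.lg 0 true 1 31 31 11 0 13680)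
  (.l1 .sk)) (.nx 327 172 (.l1 .sk) (.nr 369 131073 (.nx 340 35390 (.lg 0 false 13 97 103 19 0
  1244880) (.nr 347 1621 (.lg 0 true 7 89 89 13 0 95760) (.nx 368 416129 (.nx 354 65537 (.lg 1
  false 7 97 101 13 54221 95760) (.nr 367 110219 (.lg 2 false 13 97 103 19 24627 1244880) .out))
  .out))) (.nx 376 1292 (.lg 0 false 7 89 89 13 0 95760) .out)))) (.nr 384 65 (.lg 0 true 7 73 73
  13 0 95760) .out)) .out) .out)) (.na 388 14 .ne (.nx 448 1664512 (.nr 447 623489 (.nr 389 6 .s1
  (.nx 391 171 (.nr 390 148 (.lg 0 true 1 31 31 11 0 19152) (.l1 .sk)) (.nx 392 172 (.l1 .sk) (.nr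
  441 155873 (.nx 435 524289 (.nx 397 14621 (.lg 0 false 5 97 97 13 0 95760) (.nr 434 110219 (.nr
  402 829 (.lg 0 true 5 83 83 13 0 95760) (.nx 433 416129 (.nr 413 46342 (.lg 2 false 11 83 83 19
  46513 210672) (.nx 432 208065 (.nx 426 131073 (.lg 0 true 13 101 107 19 0 13693680) (.nr 431
  55110 (.lg 0 true 5 89 97 13 0 95760) .out)) .out)) .out)) .out)) (.nr 440 65 (.lg 0 true 5 71 71
  13 0 95760) .out)) (.nx 446 1292 (.lg 0 false 5 89 89 13 0 95760) .out))))) .out) .out)))) (.na
  526 30 (.na 488 22 (.na 450 18 .ne (.nx 487 1664512 (.nr 486 1048577 (.nr 451 13 .s1 (.nx 480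
  262145 (.nx 471 41287 (.nx 453 171 (.nr 452 204 (.lg 0 false 1 31 31 13 0 2736) (.l1 .sk)) (.nx
  454 172 (.l1 .sk) (.nx 455 257 (.l1 (.ls 89 43 2028)) (.nr 470 623489 (.nr 460 92683 (.lg 0 false
  5 97 101 19 0 95760) (.nx 469 13005 (.nr 465 220437 (.lg 0 false 5 89 101 19 0 95760) (.nx 468
  1627 (.lg 0 false 3 89 89 19 0 2736) .out)) .out)) .out)))) (.nr 479 77937 (.nr 474 1854 (.lg 0
  true 3 83 83 19 0 2736) (.lg 2 false 5 97 101 19 27660 95760)) .out)) (.nr 485 217 (.lg 0 true 5
  79 79 19 0 13680) .out))) .out) .out)) (.na 525 23 (.nx 524 1664512 (.nr 523 1048577 (.nr 489 18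
  .s1 (.nx 493 257 (.nx 491 171 (.nr 490 213 (.lg 0 false 1 29 29 9 0 30096) (.l1 .sk)) (.nx 492
  172 (.l1 .sk) (.l1 (.ls 83 41 1660)))) (.nr 522 623489 (.nr 516 220437 (.nx 500 24569 (.lg 0
  false 7 97 101 19 0 1053360) (.nr 515 92683 (.nr 507 634 (.lg 0 true 7 83 83 19 0 210672) (.nx
  514 262145 (.lg 2 false 7 97 101 19 55257 1053360) .out)) .out)) (.nx 521 1627 (.lg 0 false 5 83
  83 19 0 150480) .out)) .out))) .out) .out) .ne)) (.na 558 34 (.na 557 32 (.nx 556 1664512 (.nr
  555 1048577 (.nr 527 28 .s1 (.nx 530 172 (.nx 529 171 (.nr 528 297 (.l1 (.ls 31 41 977)) (.l1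
  .sk)) (.l1 .sk)) (.nx 531 257 (.l1 (.ls 83 43 1218)) (.nr 554 311745 (.nx 538 20644 (.lg 0 false
  7 89 97 29 0 95760) (.nr 553 77937 (.nr 550 55110 (.nx 544 165142 (.nr 540 8487 (.lg 0 false 2 89
  89 19 0 95760) (.lg 2 true 4 79 79 23 39153 13680)) (.nr 549 513 (.lg 0 true 5 79 79 23 0 13680)
  .out)) (.nx 552 65537 (.lg 0 false 2 89 89 19 0 95760) .out)) .out)) .out)))) .out) .out) .ne)
  (.na 582 38 (.nx 581 1664512 (.nr 580 881745 (.nr 559 32 .s1 (.nx 562 172 (.nx 561 171 (.nr 560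
  352 (.lg 0 false 1 29 29 13 0 13680) (.l1 .sk)) (.l1 .sk)) (.nx 563 257 (.l1 (.ls 83 37 1075))
  (.nr 579 440873 (.nx 570 20644 (.lg 0 false 7 97 101 23 0 95760) (.nr 578 46342 (.nr 575 257 (.lg
  0 true 5 73 73 13 0 13680) (.nx 577 104033 (.lg 2 true 2 89 89 13 34611 13680) .out)) .out))
  .out)))) .out) .out) (.nx 602 1664512 (.nr 601 881745 (.nr 583 36 .s1 (.nx 592 26009 (.nx 584 257
  (.l1 (.ls 73 41 1741)) (.nr 591 440873 (.lg 0 false 7 89 89 13 0 95760) .out)) (.nr 600 32769
  (.nr 597 389 (.lg 0 true 5 67 67 13 0 13680) (.nx 599 104033 (.lg 2 true 2 73 73 13 22866 2736)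
  .out)) .out))) .out) .out))))) (.na 705 90 (.na 661 64 (.na 641 50 (.na 624 46 (.nx 623 1664512
  (.nr 622 881745 (.nr 604 40 .s1 (.nx 608 257 (.nx 606 171 (.nr 605 426 (.l1 (.ls 31 41 699)) (.l1
  .sk)) (.nx 607 172 (.l1 .sk) (.l1 (.ls 79 41 871)))) (.nr 621 440873 (.nx 613 20644 (.lg 0 false
  5 89 97 29 0 95760) (.nr 620 46342 (.nr 617 257 (.lg 0 true 4 71 71 29 0 19152) (.nx 619 104033
  (.lg 2 true 2 89 89 23 34611 19152) .out)) .out)) .out))) .out) .out) (.nx 640 1664512 (.nr 639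
  881745 (.nr 625 45 .s1 (.nx 626 257 (.l1 (.ls 83 41 1438)) (.nr 638 623489 (.nx 631 20644 (.lg 0
  false 5 97 101 19 0 13680) (.nr 637 46342 (.nr 634 257 (.lg 0 true 3 71 71 13 0 2736) (.nx 636
  104033 (.lg 2 true 2 89 89 13 34611 2736) .out)) .out)) .out))) .out) .out)) (.na 660 54 (.nx 659
  1664512 (.nr 658 881745 (.nr 642 49 .s1 (.nx 643 257 (.l1 (.ls 79 41 1323)) (.nr 657 623489 (.nx
  650 20644 (.lg 0 false 7 83 89 23 0 95760) (.nr 656 46342 (.nr 653 257 (.lg 0 true 3 67 67 19 0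
  13680) (.nx 655 104033 (.lg 2 false 2 79 79 19 34611 13680) .out)) .out)) .out))) .out) .out)
  (.lg 0 false 1 0 0 16 0 24))) (.na 677 70 (.na 662 66 .ne (.nx 676 1664512 (.nr 675 524289 (.nr
  663 65 .s1 (.nx 669 20644 (.nx 665 171 (.nr 664 649 (.l1 (.ls 29 37 446)) (.l1 .sk)) (.nx 666 172
  (.l1 .sk) (.lg 0 false 3 89 89 29 0 30096))) (.nr 674 32769 (.nr 672 513 (.lg 0 true 3 71 71 29 0
  30096) (.nx 673 104033 (.lg 2 true 1 83 83 23 23330 1053360) .out)) .out))) .out) .out)) (.na 692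
  86 (.nx 691 1664512 (.nr 690 524289 (.nr 678 69 .s1 (.nx 680 171 (.nr 679 797 (.l1 (.ls 37 37
  420)) (.l1 .sk)) (.nx 681 172 (.l1 .sk) (.nx 683 13005 (.lg 0 false 2 97 97 29 0 95760) (.nr 689
  65537 (.nx 684 20644 (.lg 0 true 1 83 83 23 0 95760) (.nr 688 32769 (.nr 686 513 (.lg 0 true 2 73
  73 29 0 95760) (.nx 687 104033 (.lg 2 true 1 83 83 23 23330 95760) .out)) .out)) .out))))) .out)
  .out) (.nx 704 1664512 (.nr 703 524289 (.nr 693 86 .s1 (.nx 701 104033 (.nx 695 171 (.nr 694 834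
  (.l1 (.ls 29 29 343)) (.l1 .sk)) (.nx 696 172 (.l1 .sk) (.nx 698 20644 (.lg 0 true 2 89 89 19 0
  2736) (.nr 700 32769 (.lg 0 false 2 79 79 19 0 2736) .out)))) (.nr 702 513 (.lg 0 false 1 83 83
  13 0 1053360) .out))) .out) .out)))) (.na 750 102 (.na 720 94 (.na 719 91 (.nx 718 1664512 (.nr
  717 524289 (.nr 706 90 .s1 (.nx 709 172 (.nx 708 171 (.nr 707 843 (.l1 (.ls 37 37 327)) (.l1
  .sk)) (.l1 .sk)) (.nr 713 32769 (.nx 710 104033 (.lg 0 true 1 97 97 29 0 150480) (.nr 712 513
  (.lg 0 true 2 73 73 31 0 13680) .out)) (.nx 716 20644 (.nx 714 13005 (.lg 0 false 1 97 97 29 0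
  13680) (.nr 715 65537 (.lg 0 false 1 79 79 29 0 13680) .out)) .out)))) .out) .out) .ne) (.na 735
  98 (.nx 734 1664512 (.nr 733 1048577 (.nr 721 94 .s1 (.nx 730 104033 (.nx 723 171 (.nr 722 908
  (.l1 (.ls 23 29 314)) (.l1 .sk)) (.nx 724 172 (.l1 .sk) (.nr 726 65537 (.lg 0 false 2 89 89 19 0
  2736) (.nx 729 13005 (.lg 0 false 3 89 89 19 0 2736) .out)))) (.nr 732 513 (.lg 0 true 2 67 67 19
  0 2736) .out))) .out) .out) (.nx 749 1664512 (.nr 748 1048577 (.nr 736 98 .s1 (.nx 738 171 (.nr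
  737 945 (.l1 (.ls 29 31 301)) (.l1 .sk)) (.nx 739 172 (.l1 .sk) (.nx 744 20644 (.lg 0 false 5 83
  89 29 0 95760) (.nr 747 32769 (.nr 745 513 (.lg 0 false 1 73 73 19 0 95760) (.nx 746 104033 (.lg
  2 true 1 73 73 19 23330 19152) .out)) .out))))) .out) .out))) (.na 778 114 (.na 765 110 (.nx 764
  1664512 (.nr 763 1048577 (.nr 751 102 .s1 (.nx 753 171 (.nr 752 1019 (.l1 (.ls 16 37 289)) (.l1
  .sk)) (.nx 754 172 (.l1 .sk) (.nx 759 20644 (.lg 0 false 5 89 89 31 0 13680) (.nr 762 32769 (.nr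
  760 513 (.lg 0 false 1 73 73 29 0 2736) (.nx 761 104033 (.lg 2 true 1 73 73 29 23330 2736) .out))
  .out))))) .out) .out) (.nx 777 1664512 (.nr 776 1048577 (.nr 766 110 .s1 (.nx 769 172 (.nx 768
  171 (.nr 767 1056 (.l1 (.ls 37 31 268)) (.l1 .sk)) (.l1 .sk)) (.nr 773 65537 (.nx 770 104033 (.lg
  0 false 1 97 97 29 0 1053360) (.nr 772 513 (.lg 0 true 2 73 73 31 0 150480) .out)) (.nx 775 13005
  (.lg 0 false 2 97 97 31 0 1053360) .out)))) .out) .out)) (.na 793 122 (.nx 792 1664512 (.nr 791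
  1048577 (.nr 779 114 .s1 (.nx 781 171 (.nr 780 1130 (.lg 0 false 1 0 16 29 0 1053360) (.l1 .sk))
  (.nx 782 172 (.l1 .sk) (.nx 785 20644 (.lg 0 true 3 83 83 29 0 95760) (.nr 790 32769 (.nr 787 513
  (.lg 0 false 2 61 61 29 0 2736) (.nx 789 104033 (.lg 2 true 2 61 61 29 23330 2736) .out))
  .out))))) .out) .out) (.na 807 126 (.nx 806 1664512 (.nr 805 1048577 (.nr 794 122 .s1 (.nx 803
  104033 (.nx 796 171 (.nr 795 1167 (.l1 (.ls 23 23 242)) (.l1 .sk)) (.nx 797 172 (.l1 .sk) (.nr
  799 65537 (.lg 0 true 2 83 83 19 0 2736) (.nx 802 13005 (.lg 0 false 3 83 83 23 0 2736) .out))))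
  (.nr 804 513 (.lg 0 false 1 73 73 19 0 2736) .out))) .out) .out) (.nx 818 1664512 (.nr 817
  1048577 (.nr 808 126 .s1 (.nx 811 172 (.nx 810 171 (.nr 809 1186 (.l1 (.ls 37 31 235)) (.l1 .sk))
  (.l1 .sk)) (.nx 815 104033 (.nr 812 65537 (.lg 0 true 1 97 97 31 0 95760) (.nx 814 13005 (.lg 0
  false 2 89 97 37 0 95760) .out)) (.nr 816 513 (.lg 0 true 1 73 73 31 0 19152) .out)))) .out)
  .out))))))) (.na 947 256 (.na 878 182 (.na 849 154 (.na 829 146 (.na 820 138 .ne (.nx 828 832257
  (.nr 827 1048577 (.nr 821 138 .s1 (.nx 822 257 (.l1 (.ls 73 41 481)) (.nr 826 741457 (.nr 824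
  16385 (.lg 0 false 2 89 89 31 0 95760) (.nx 825 13005 (.lg 0 true 1 89 89 19 0 2736) .out))
  .out))) .out) .out)) (.na 839 150 (.nx 838 832257 (.nr 837 1048577 (.nr 830 146 .s1 (.nx 831 257
  (.l1 (.ls 71 29 455)) (.nr 836 741457 (.nx 832 14621 (.lg 0 true 1 89 89 19 0 2736) (.nr 835
  16385 (.nr 833 1025 (.lg 0 false 1 67 67 19 0 2736) (.nx 834 104033 (.lg 2 false 1 61 61 19 16556
  13680) .out)) .out)) .out))) .out) .out) (.nx 848 832257 (.nr 847 1048577 (.nr 840 150 .s1 (.nx
  843 14621 (.nx 841 257 (.l1 (.ls 71 37 443)) (.nr 842 741457 (.lg 0 true 1 83 83 29 0 13680)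
  .out)) (.nr 846 16385 (.nr 844 1025 (.lg 0 false 1 67 67 29 0 13680) (.nx 845 104033 (.lg 2 false
  1 61 61 29 16556 13680) .out)) .out))) .out) .out))) (.na 860 166 (.na 859 162 (.nx 858 832257
  (.nr 857 1048577 (.nr 850 154 .s1 (.nx 853 13005 (.nx 851 257 (.l1 (.ls 79 37 431)) (.nr 852
  741457 (.lg 0 true 1 97 97 31 0 1053360) .out)) (.nr 856 16385 (.nx 854 104033 (.lg 0 false 1 79
  79 31 0 210672) (.nr 855 1025 (.lg 0 true 1 71 71 31 0 210672) .out)) .out))) .out) .out) (.lg 0
  false 1 0 0 16 0 24)) (.na 868 170 (.nx 867 832257 (.nr 866 1048577 (.nr 861 166 .s1 (.nx 862 257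
  (.l1 (.ls 71 29 400)) (.nr 865 741457 (.nr 863 16385 (.lg 0 false 1 89 89 19 0 2736) (.nx 864
  13005 (.lg 0 true 1 89 89 19 0 95760) .out)) .out))) .out) .out) (.nx 877 832257 (.nr 876 1048577
  (.nr 869 170 .s1 (.nx 874 104033 (.nx 870 257 (.l1 (.ls 79 37 391)) (.nr 873 741457 (.nx 871
  13005 (.lg 0 true 1 97 97 31 0 95760) (.nr 872 16385 (.lg 0 false 1 79 79 31 0 13680) .out))
  .out)) (.nr 875 1025 (.lg 0 true 1 71 71 31 0 13680) .out))) .out) .out)))) (.na 905 210 (.na 887
  198 (.na 879 190 .ne (.nx 886 832257 (.nr 885 1048577 (.nr 880 190 .s1 (.nx 881 257 (.l1 (.ls 71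
  37 350)) (.nr 884 741457 (.nr 882 16385 (.lg 0 false 1 83 83 29 0 13680) (.nx 883 13005 (.lg 0
  true 1 83 83 29 0 13680) .out)) .out))) .out) .out)) (.na 897 202 (.nx 896 832257 (.nr 895
  1048577 (.nr 888 198 .s1 (.nx 891 13005 (.nx 889 257 (.l1 (.ls 79 37 336)) (.nr 890 741457 (.lg 0
  false 1 89 89 37 0 30096) .out)) (.nr 894 16385 (.nx 892 104033 (.lg 0 true 1 79 79 37 0 30096)
  (.nr 893 1025 (.lg 0 true 1 71 71 37 0 30096) .out)) .out))) .out) .out) (.nx 904 832257 (.nr 903
  1048577 (.nr 898 202 .s1 (.nx 901 13005 (.nx 899 257 (.l1 (.ls 67 29 329)) (.nr 900 741457 (.lg 0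
  true 1 79 79 23 0 13680) .out)) (.nr 902 16385 (.lg 0 false 1 79 79 23 0 2736) .out))) .out)
  .out))) (.na 923 238 (.na 915 230 (.nx 914 832257 (.nr 913 1048577 (.nr 906 210 .s1 (.nx 909
  14621 (.nx 907 257 (.l1 (.ls 73 41 317)) (.nr 908 741457 (.lg 0 true 1 89 89 37 0 95760) .out))
  (.nr 912 16385 (.nr 910 1025 (.lg 0 true 1 67 67 37 0 95760) (.nx 911 104033 (.lg 2 true 1 61 61
  37 16556 95760) .out)) .out))) .out) .out) (.nx 922 832257 (.nr 921 1048577 (.nr 916 230 .s1 (.nx
  917 257 (.l1 (.ls 73 37 290)) (.nr 920 741457 (.nx 918 13005 (.lg 0 true 1 89 89 31 0 13680) (.nr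
  919 16385 (.lg 0 false 1 89 89 31 0 13680) .out)) .out))) .out) .out)) (.na 931 242 (.nx 930
  832257 (.nr 929 1048577 (.nr 924 238 .s1 (.nx 925 257 (.l1 (.ls 79 37 280)) (.nr 928 741457 (.nr
  926 16385 (.lg 0 false 1 89 89 31 0 19152) (.nx 927 13005 (.lg 0 true 1 89 89 31 0 95760) .out))
  .out))) .out) .out) (.na 939 250 (.nx 938 832257 (.nr 937 1048577 (.nr 932 242 .s1 (.nx 933 257
  (.l1 (.ls 71 31 275)) (.nr 936 741457 (.nr 934 16385 (.lg 0 false 1 83 83 29 0 30096) (.nx 935
  13005 (.lg 0 true 1 79 79 29 0 30096) .out)) .out))) .out) .out) (.nx 946 832257 (.nr 945 1048577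
  (.nr 940 250 .s1 (.nx 941 257 (.l1 (.ls 71 31 267)) (.nr 944 741457 (.nr 942 16385 (.lg 0 false 1
  83 83 29 0 95760) (.nx 943 13005 (.lg 0 true 1 79 79 29 0 95760) .out)) .out))) .out) .out))))))
  (.na 6544 4096 (.na 3034 1024 (.na 1753 512 (.na 948 257 .ne (.nx 1752 832257 (.nr 1751 1482912
  (.nr 949 257 .s1 (.nx 1205 171 (.nr 1204 4742 (.la (.ls 47 19 129)) (.l1 .sk)) (.nx 1206 172 (.l1
  .sk) (.nx 1239 205 (.lx (.lp 83 17 129)) (.nr 1750 1048577 (.nr 1494 32769 (.la (.lg 0 false 1 83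
  83 23 0)) (.nx 1749 10323 (.la (.lg 0 true 1 73 73 23 0)) .out)) .out))))) .out) .out)) (.na 2432
  725 (.nx 2431 832257 (.nr 2430 1482912 (.nr 1754 512 .s1 (.nx 2002 205 (.nx 1968 171 (.nr 1967
  6714 (.la (.ls 43 19 182)) (.l1 .sk)) (.nx 1969 172 (.l1 .sk) (.lx (.lp 41 0 182)))) (.nr 2429
  1048577 (.nx 2215 22297 (.la (.lg 0 false 1 73 73 29 0)) (.nr 2428 32769 (.la (.lg 2 true 1 67 67
  29 138981)) .out)) .out))) .out) .out) (.nx 3033 10323 (.nr 3032 1048577 (.nr 2433 725 .s1 (.nx
  2732 2049 (.la (.ls 73 41 5793)) (.nr 3031 16385 (.la (.lg 0 true 1 41 41 29 0)) .out))) .out)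
  .out))) (.na 4490 2048 (.na 3888 1449 (.nx 3887 10323 (.nr 3886 1048577 (.nr 3035 1024 .s1 (.nx
  3460 2582 (.la (.ls 89 41 6513)) (.nr 3885 16385 (.la (.lg 0 false 1 37 37 31 0)) .out))) .out)
  .out) (.nx 4489 2582 (.nr 4488 524289 (.nr 3889 1449 .s1 (.la (.ls 79 37 4603))) .out) .out))
  (.na 5342 2897 (.nx 5341 3252 (.nr 5340 524289 (.nr 4491 2048 .s1 (.la (.ls 73 41 5166))) .out)
  .out) (.nx 6543 2582 (.nr 6542 262145 (.nr 5343 2897 .s1 (.la (.ls 59 37 2304))) .out) .out))))
  (.na 12128 32768 (.na 9538 8192 (.na 8244 5793 (.nx 8243 2582 (.nr 8242 262145 (.nr 6545 4096 .s1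
  (.la (.ls 59 37 1630))) .out) .out) (.nx 9537 1292 (.nr 9536 65537 (.nr 8245 5793 .s1 (.lx (.lp
  47 37 2049))) .out) .out)) (.na 10833 16384 (.nx 10832 1292 (.nr 10831 131073 (.nr 9539 8192 .s1
  (.nx 9743 205 (.lx (.lp 16 0 4097)) (.nr 10830 65537 (.lx (.lp 43 41 4097)) .out))) .out) .out)
  (.nx 12127 1292 (.nr 12126 262145 (.nr 10834 16384 .s1 (.nx 11038 205 (.lx (.lp 16 0 8193)) (.nr
  12125 131073 (.lx (.lp 43 43 8193)) .out))) .out) .out))) (.na 14184 131072 (.na 13156 65536 (.nx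
  13155 1025 (.nr 13154 262145 (.nr 12129 32768 .s1 (.nx 12333 205 (.lx (.lp 16 0 16385)) (.nr
  13153 131073 (.lx (.lp 41 47 16385)) .out))) .out) .out) (.nx 14183 1025 (.nr 14182 262145 (.nr
  13157 65536 .s1 (.nx 13480 324 (.lx (.lp 16 0 32769)) (.nr 14181 131073 (.lx (.lp 41 53 32769))
  .out))) .out) .out)) (.na 14186 262144 (.nx 14185 324 (.l1 .sk) .out) (.na 14188 524289 (.nx
  14187 205 (.l1 .sk) .out) .out)))))))

def T77_1 : Ph :=
  (.na 656 2 (.nx 655 3329023 (.nr 654 881745 (.nx 3 225 (.nx 2 224 (.nr 1 16 (.lg 0 false 1 47 47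
  5 0 1008) (.l1 .sk)) (.l1 .sk)) (.nx 620 1664512 (.nx 228 41287 (.nr 146 185365 (.lg 0 false 143
  101 109 16 0 720720) (.nx 227 26009 (.nr 204 311745 (.nx 157 408 (.lg 0 false 11 83 83 9 0 11088)
  (.nx 158 6501 .out (.nr 203 220437 (.nx 169 10323 (.lg 0 false 11 101 101 9 0 55440) (.nx 170
  13003 .out (.lg 0 false 33 101 107 13 0 720720))) .out))) (.nx 226 324 (.lg 0 false 22 83 89 11 0
  11088) .out)) .out)) (.nr 619 155873 (.nr 316 942 (.nr 283 515 (.lg 0 true 55 97 101 16 0 55440)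
  (.lg 2 true 33 89 97 13 361991 55440)) (.nr 338 1724 (.lg 2 true 22 97 101 11 197904 55440) (.nx
  618 1321124 (.nr 349 2898 (.lg 2 true 11 101 101 9 85828 55440) (.nx 617 1048577 (.nr 360 4872
  (.lg 2 true 11 97 101 9 40525 55440) (.nx 470 65537 (.nx 415 52017 (.lg 1 false 55 97 109 16
  94854 720720) (.lg 1 false 55 97 109 16 75287 720720)) (.nr 616 110219 (.nr 481 8193 (.lg 2 true
  11 97 101 9 24106 55440) (.nx 615 832257 (.nr 492 26009 (.lg 2 false 11 101 103 9 11378 55440)
  (.nr 525 55110 (.lg 2 false 33 101 107 13 21183 720720) (.nx 614 416129 (.nr 558 77937 (.lg 2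
  true 33 101 107 13 29921 720720) (.nx 613 262145 (.lg 2 true 55 101 107 16 42279 720720) .out))
  .out))) .out)) .out))) .out)) .out))) .out)) (.nr 653 154 (.lg 0 true 33 89 89 13 0 11088)
  .out))) .out) .out) (.nx 1099 3329023 (.nr 1098 1763489 (.nx 1086 2642247 (.nx 1052 1048577 (.nx
  659 225 (.nx 658 224 (.nr 657 29 (.lg 0 false 1 43 43 5 0 1008) (.l1 .sk)) (.l1 .sk)) (.nx 704
  4096 (.nr 681 131073 (.lg 0 false 22 97 101 11 0 55440) (.nx 703 408 (.lg 0 false 22 89 89 11 0
  11088) .out)) (.nr 1051 311745 (.nx 771 36780 (.nr 759 262145 (.lg 0 false 55 101 107 13 0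
  720720) (.nx 760 26007 .out (.lg 0 false 11 103 103 9 0 720720))) (.nr 804 941 (.lg 0 true 33 97
  101 13 0 55440) (.nr 815 3446 (.lg 2 true 11 101 101 9 124805 55440) (.nx 1050 832257 (.nx 915
  82572 (.nx 848 52017 (.lg 1 false 33 101 107 13 212801 720720) (.nr 914 262145 (.nx 881 65537
  (.lg 1 false 33 101 107 13 126543 720720) (.lg 1 false 33 101 107 13 100438 720720)) .out)) (.nr
  1049 220437 (.nx 948 116773 (.lg 1 false 33 101 107 13 67045 720720) (.nx 981 165142 (.lg 1 true
  33 101 107 13 47408 720720) (.nr 1048 155873 (.nr 1014 92683 (.nr 992 6599 (.lg 2 true 11 89 97 9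
  27050 55440) (.lg 2 false 22 101 107 11 14126 720720)) (.nx 1047 262145 (.lg 2 false 33 97 107 13
  23714 720720) .out)) .out))) .out)) .out)))) .out))) (.nr 1085 257 (.lg 0 true 33 89 89 13 0
  55440) .out)) (.nr 1097 9 (.lg 0 true 11 71 71 9 0 11088) .out)) .out) .out))

def T77_2 : Ph :=
  (.na 416 146 (.na 300 58 (.na 234 16 (.na 143 10 (.na 1 2 .ne (.na 142 3 (.nx 141 3329023 (.nr
  140 623489 (.nx 3 91 (.nr 2 18 (.lg 0 true 1 37 37 5 0 4368) (.l1 .sk)) (.nx 4 92 (.l1 .sk) (.nr
  124 77937 (.nr 120 65537 (.nx 37 9555 (.lg 0 false 33 97 101 13 0 720720) (.nx 101 1321124 (.nr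
  70 257 (.lg 0 true 33 89 89 13 0 144144) (.nx 100 165142 (.nr 79 1100 (.lg 2 true 9 83 83 9 29238
  13104) (.nx 90 20644 (.lg 1 false 11 101 103 9 28441 720720) (.nr 99 46342 (.lg 2 false 9 101 103
  9 9314 65520) .out))) .out)) (.nr 119 9 (.lg 0 true 18 71 71 9 0 13104) .out))) (.nx 123 1292
  (.lg 0 true 3 89 89 7 0 65520) .out)) (.nx 139 205 (.lg 0 false 15 83 83 9 0 65520) .out))))
  .out) .out) .ne)) (.na 192 12 (.nx 191 1321124 (.nr 190 623489 (.nr 144 4 .s1 (.nx 183 330282
  (.nx 146 91 (.nr 145 81 (.lg 0 false 1 29 29 11 0 21840) (.l1 .sk)) (.nx 147 92 (.l1 .sk) (.nr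
  176 77937 (.nr 150 374 (.lg 0 false 3 79 79 13 0 65520) (.nx 175 165142 (.nr 156 13461 (.nx 152
  4141 (.lg 0 true 2 79 79 11 0 21840) (.lg 2 false 4 79 79 13 20091 21840)) (.nr 167 32769 (.lg 0
  true 11 97 101 19 0 720720) (.nx 174 65537 (.nx 170 26009 (.lg 0 false 3 103 103 13 0 720720)
  (.nr 173 46342 (.lg 0 true 3 97 101 13 0 65520) .out)) .out))) .out)) (.nx 182 814 (.lg 0 false 6
  89 89 13 0 65520) .out)))) (.nr 189 65 (.lg 0 true 6 73 73 13 0 65520) .out))) .out) .out) (.na
  193 14 .ne (.nx 233 1321124 (.nr 232 623489 (.nr 194 11 .s1 (.nx 198 324 (.nx 196 91 (.nr 195 108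
  (.l1 (.ls 19 31 594)) (.l1 .sk)) (.nx 197 92 (.l1 .sk) (.l1 (.ls 79 47 6896)))) (.nr 231 220437
  (.nx 209 9557 (.lg 0 false 11 83 89 13 0 240240) (.nr 230 65537 (.nr 220 374 (.lg 0 true 11 73 73
  13 0 48048) (.nx 229 165142 (.lg 2 false 9 83 89 13 28435 65520) .out)) .out)) .out))) .out)
  .out)))) (.na 254 38 (.na 235 26 .ne (.na 253 32 (.nx 252 1321124 (.nr 251 1048577 (.nr 236 25
  .s1 (.nx 241 16385 (.nx 237 205 (.l1 (.ls 79 41 1619)) (.nr 240 185365 (.lg 0 true 3 89 89 11 0
  65520) .out)) (.nr 250 38969 (.nr 247 513 (.lg 0 true 6 71 71 11 0 13104) (.nx 249 82572 (.lg 2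
  true 2 73 73 11 9871 4368) .out)) .out))) .out) .out) .ne)) (.na 269 46 (.nx 268 1321124 (.nr 267
  370729 (.nr 255 37 .s1 (.nx 258 92 (.nx 257 91 (.nr 256 311 (.l1 (.ls 17 29 220)) (.l1 .sk)) (.l1
  .sk)) (.nx 261 13005 (.lg 0 false 3 97 97 13 0 13104) (.nr 266 23172 (.nr 264 217 (.lg 0 true 3
  71 71 13 0 13104) (.nx 265 82572 (.lg 2 true 1 83 83 13 17314 21840) .out)) .out)))) .out) .out)
  (.na 285 50 (.nx 284 1321124 (.nr 283 311745 (.nr 270 46 .s1 (.nx 273 92 (.nx 272 91 (.nr 271 339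
  (.l1 (.ls 19 19 183)) (.l1 .sk)) (.l1 .sk)) (.nx 276 20644 (.lg 0 true 3 89 89 13 0 65520) (.nr
  282 13779 (.nx 278 82572 (.lg 0 false 2 83 83 13 0 4368) (.nr 281 217 (.lg 0 true 3 67 67 13 0
  13104) .out)) .out)))) .out) .out) (.nx 299 1321124 (.nr 298 311745 (.nr 286 50 .s1 (.nx 289 92
  (.nx 288 91 (.nr 287 393 (.l1 (.ls 23 29 168)) (.l1 .sk)) (.l1 .sk)) (.nx 292 10323 (.lg 0 false
  3 83 83 19 0 65520) (.nr 297 23172 (.nr 295 393 (.lg 0 true 3 71 71 19 0 65520) (.nx 296 82572
  (.lg 2 true 1 73 73 13 9560 21840) .out)) .out)))) .out) .out))))) (.na 372 91 (.na 331 70 (.na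
  315 62 (.nx 314 1321124 (.nr 313 311745 (.nr 301 58 .s1 (.nx 307 10323 (.nx 303 91 (.nr 302 420
  (.l1 (.ls 19 23 145)) (.l1 .sk)) (.nx 304 92 (.l1 .sk) (.lg 0 false 3 83 83 19 0 13104))) (.nr
  312 23172 (.nr 310 420 (.lg 0 true 3 71 71 19 0 13104) (.nx 311 82572 (.lg 2 true 1 73 73 13 9332
  21840) .out)) .out))) .out) .out) (.na 330 64 (.nx 329 1321124 (.nr 328 311745 (.nr 316 62 .s1
  (.nx 319 92 (.nx 318 91 (.nr 317 433 (.l1 (.ls 19 23 136)) (.l1 .sk)) (.l1 .sk)) (.nx 322 10323
  (.lg 0 false 3 83 83 19 0 13104) (.nr 327 23172 (.nr 325 433 (.lg 0 true 3 71 71 19 0 13104) (.nx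
  326 82572 (.lg 2 true 1 73 73 13 9332 21840) .out)) .out)))) .out) .out) .ne)) (.na 346 82 (.nx
  345 1321124 (.nr 344 524289 (.nr 332 70 .s1 (.nx 338 8193 (.nx 334 91 (.nr 333 555 (.l1 (.ls 19
  29 121)) (.l1 .sk)) (.nx 335 92 (.l1 .sk) (.lg 0 false 3 79 79 29 0 65520))) (.nr 343 8193 (.nr
  341 513 (.lg 0 true 3 67 67 29 0 65520) (.nx 342 82572 (.lg 2 true 1 59 59 23 7324 21840) .out))
  .out))) .out) .out) (.na 359 86 (.nx 358 1321124 (.nr 357 524289 (.nr 347 82 .s1 (.nx 350 92 (.nx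
  349 91 (.nr 348 582 (.l1 (.ls 23 19 103)) (.l1 .sk)) (.l1 .sk)) (.nx 353 8193 (.lg 0 false 3 83
  83 19 0 13104) (.nr 356 8193 (.nr 354 582 (.lg 0 false 1 79 79 13 0 4368) (.nx 355 82572 (.lg 2
  true 1 61 61 13 6456 4368) .out)) .out)))) .out) .out) (.nx 371 1321124 (.nr 370 524289 (.nr 360
  86 .s1 (.nx 363 92 (.nx 362 91 (.nr 361 616 (.l1 (.ls 19 19 99)) (.l1 .sk)) (.l1 .sk)) (.nx 366
  8193 (.lg 0 false 3 83 83 19 0 13104) (.nr 369 8193 (.nr 367 513 (.lg 0 false 1 73 73 13 0 4368)
  (.nx 368 82572 (.lg 2 false 1 61 61 13 7324 21840) .out)) .out)))) .out) .out)))) (.na 385 106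
  (.na 373 94 .ne (.na 384 98 (.nx 383 1321124 (.nr 382 524289 (.nr 374 94 .s1 (.nx 377 92 (.nx 376
  91 (.nr 375 663 (.l1 (.ls 19 19 91)) (.l1 .sk)) (.l1 .sk)) (.nx 378 8193 (.lg 0 true 1 89 89 17 0
  21840) (.nr 381 8193 (.nr 379 513 (.lg 2 false 1 71 71 17 639481 21840) (.nx 380 82572 (.lg 2
  true 1 59 59 17 7324 4368) .out)) .out)))) .out) .out) (.lg 0 false 1 0 0 16 0 24))) (.na 407 128
  (.na 396 118 (.nx 395 1321124 (.nr 394 524289 (.nr 386 106 .s1 (.nx 390 8193 (.nx 388 91 (.nr 387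
  799 (.l1 (.ls 19 19 81)) (.l1 .sk)) (.nx 389 92 (.l1 .sk) (.lg 0 true 1 89 89 19 0 21840))) (.nr
  393 8193 (.nr 391 513 (.lg 2 false 1 67 67 19 567087 21840) (.nx 392 82572 (.lg 2 false 1 59 59
  19 7324 21840) .out)) .out))) .out) .out) (.nx 406 1321124 (.nr 405 524289 (.nr 397 118 .s1 (.nx
  399 91 (.nr 398 866 (.l1 (.ls 19 19 73)) (.l1 .sk)) (.nx 400 92 (.l1 .sk) (.nx 401 8193 (.lg 0
  true 1 83 83 19 0 4368) (.nr 404 8193 (.nr 402 513 (.lg 2 false 1 67 67 19 509417 21840) (.nx 403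
  82572 (.lg 2 false 1 59 59 19 7324 21840) .out)) .out))))) .out) .out)) (.na 408 130 .ne (.nx 415
  660563 (.nr 414 1048577 (.nr 409 130 .s1 (.nx 410 205 (.l1 (.ls 71 37 326)) (.nr 413 524289 (.nr
  411 8193 (.lg 0 false 1 83 83 29 0 21840) (.nx 412 6503 (.lg 0 true 1 79 79 29 0 21840) .out))
  .out))) .out) .out)))))) (.na 515 257 (.na 466 194 (.na 440 178 (.na 424 158 (.nx 423 660563 (.nr
  422 1048577 (.nr 417 146 .s1 (.nx 418 205 (.l1 (.ls 67 29 290)) (.nr 421 524289 (.nr 419 8193
  (.lg 0 false 1 83 83 19 0 21840) (.nx 420 6503 (.lg 0 true 1 79 79 19 0 4368) .out)) .out)))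
  .out) .out) (.na 432 166 (.nx 431 660563 (.nr 430 1048577 (.nr 425 158 .s1 (.nx 426 205 (.l1 (.ls
  67 29 268)) (.nr 429 524289 (.nr 427 8193 (.lg 0 false 1 83 83 19 0 21840) (.nx 428 6503 (.lg 0
  true 1 79 79 19 0 21840) .out)) .out))) .out) .out) (.nx 439 660563 (.nr 438 1048577 (.nr 433 166
  .s1 (.nx 434 205 (.l1 (.ls 71 29 256)) (.nr 437 524289 (.nr 435 8193 (.lg 0 false 1 83 83 19 0
  21840) (.nx 436 6503 (.lg 0 true 1 73 73 19 0 21840) .out)) .out))) .out) .out))) (.na 448 182
  (.nx 447 660563 (.nr 446 1048577 (.nr 441 178 .s1 (.nx 442 205 (.l1 (.ls 67 29 239)) (.nr 445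
  524289 (.nr 443 8193 (.lg 0 false 1 79 79 19 0 21840) (.nx 444 6503 (.lg 0 true 1 73 73 19 0
  21840) .out)) .out))) .out) .out) (.na 458 190 (.nx 457 660563 (.nr 456 1048577 (.nr 449 182 .s1
  (.nx 450 205 (.l1 (.ls 61 31 233)) (.nr 455 524289 (.nr 452 8193 (.lg 0 false 2 67 67 29 0 4368)
  (.nx 454 6503 (.lg 0 true 2 67 67 29 0 21840) .out)) .out))) .out) .out) (.nx 465 660563 (.nr 464
  1048577 (.nr 459 190 .s1 (.nx 460 205 (.l1 (.ls 79 31 224)) (.nr 463 524289 (.nr 461 8193 (.lg 0
  false 1 83 83 31 0 21840) (.nx 462 6503 (.lg 0 true 1 83 83 31 0 65520) .out)) .out))) .out)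
  .out)))) (.na 490 230 (.na 474 214 (.nx 473 660563 (.nr 472 1048577 (.nr 467 194 .s1 (.nx 468 205
  (.l1 (.ls 67 23 219)) (.nr 471 524289 (.nr 469 8193 (.lg 0 false 1 73 73 19 0 21840) (.nx 470
  6503 (.lg 0 true 1 71 71 19 0 4368) .out)) .out))) .out) .out) (.na 482 226 (.nx 481 660563 (.nr
  480 1048577 (.nr 475 214 .s1 (.nx 476 205 (.l1 (.ls 67 23 199)) (.nr 479 524289 (.nr 477 8193
  (.lg 0 false 1 73 73 23 0 21840) (.nx 478 6503 (.lg 0 true 1 71 71 23 0 21840) .out)) .out)))
  .out) .out) (.nx 489 660563 (.nr 488 1048577 (.nr 483 226 .s1 (.nx 484 205 (.l1 (.ls 67 23 188))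
  (.nr 487 524289 (.nr 485 8193 (.lg 0 false 1 73 73 23 0 4368) (.nx 486 6503 (.lg 0 true 1 71 71
  23 0 4368) .out)) .out))) .out) .out))) (.na 506 254 (.na 498 250 (.nx 497 660563 (.nr 496
  1048577 (.nr 491 230 .s1 (.nx 492 205 (.l1 (.ls 73 31 185)) (.nr 495 524289 (.nr 493 8193 (.lg 0
  false 1 83 83 31 0 21840) (.nx 494 6503 (.lg 0 false 1 79 79 31 0 21840) .out)) .out))) .out)
  .out) (.nx 505 660563 (.nr 504 1048577 (.nr 499 250 .s1 (.nx 500 205 (.l1 (.ls 61 29 171)) (.nr
  503 524289 (.nr 501 8193 (.lg 0 false 1 73 73 29 0 21840) (.nx 502 6503 (.lg 0 true 1 71 71 29 0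
  21840) .out)) .out))) .out) .out)) (.na 514 256 (.nx 513 660563 (.nr 512 1048577 (.nr 507 254 .s1
  (.nx 508 205 (.l1 (.ls 67 23 168)) (.nr 511 524289 (.nr 509 8193 (.lg 0 false 1 73 73 23 0 21840)
  (.nx 510 6503 (.lg 0 true 1 71 71 23 0 21840) .out)) .out))) .out) .out) .ne)))) (.na 3643 2897
  (.na 1761 1024 (.na 1029 512 (.nx 1028 82572 (.nr 1027 1048577 (.nr 516 257 .s1 (.nx 771 647 (.la
  (.ls 73 29 1631)) (.nr 1026 262145 (.la (.lg 0 true 1 79 79 23 0)) .out))) .out) .out) (.na 1459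
  725 (.nx 1458 82572 (.nr 1457 1048577 (.nr 1030 512 .s1 (.nx 1243 5162 (.la (.ls 67 53 52046))
  (.nr 1456 16385 (.la (.lg 2 true 1 41 41 23 13217)) .out))) .out) .out) (.nx 1760 3252 (.nr 1759
  262145 (.nr 1460 725 .s1 (.la (.ls 53 43 14589))) .out) .out))) (.na 2189 1449 (.nx 2188 3252
  (.nr 2187 262145 (.nr 1762 1024 .s1 (.la (.ls 53 41 10330))) .out) .out) (.na 2791 2048 (.nx 2790
  1627 (.nr 2789 131073 (.nr 2190 1449 .s1 (.la (.ls 53 31 1829))) .out) .out) (.nx 3642 1627 (.nr
  3641 131073 (.nr 2792 2048 .s1 (.la (.ls 53 31 1295))) .out) .out)))) (.na 5591 16384 (.na 4292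
  4096 (.nx 4291 647 (.nr 4290 65537 (.nr 3644 2897 .s1 (.lx (.lp 43 31 1025))) .out) .out) (.na
  4942 8192 (.nx 4941 647 (.nr 4940 65537 (.nr 4293 4096 .s1 (.nx 4455 163 (.lx (.lp 16 0 2049))
  (.nr 4939 32769 (.lx (.lp 41 37 2049)) .out))) .out) .out) (.nx 5590 647 (.nr 5589 65537 (.nr
  4943 8192 .s1 (.lx (.lp 41 41 4097))) .out) .out))) (.na 6567 65536 (.na 6241 32768 (.nx 6240 647
  (.nr 6239 131073 (.nr 5592 16384 .s1 (.nx 5754 163 (.lx (.lp 16 0 8193)) (.nr 6238 65537 (.lx
  (.lp 37 43 8193)) .out))) .out) .out) (.nx 6566 324 (.nr 6565 131073 (.nr 6242 32768 .s1 (.lx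
  (.lp 16 0 16385))) .out) .out)) (.na 6893 131073 (.nx 6892 324 (.nr 6891 262145 (.nr 6568 65536
  .s1 (.lx (.lp 16 0 32769))) .out) .out) .out))))))

theorem c77 :
    OkQ ckI L8 171 1 1099511627776 0 34359738368 1 1099511627776 ∧
    OkQ ckI L10 224 1 3 0 34359738368 1 1099511627776 ∧
    OkQ ckI L6 91 1 1099511627776 0 34359738368 1 1099511627776 := by
  refine ⟨?_, ?_, ?_⟩
  · refine fin 1368 14189 T77_0 ?_
    refine jn 9 (by decide +kernel) ?_
    refine jn 13 (by decide +kernel) ?_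
    refine jn 19 (by decide +kernel) ?_
    refine jn 23 (by decide +kernel) ?_
    refine jn 27 (by decide +kernel) ?_
    refine jn 32 (by decide +kernel) ?_
    refine jn 38 (by decide +kernel) ?_
    refine jn 43 (by decide +kernel) ?_
    refine jn 56 (by decide +kernel) ?_
    refine jn 69 (by decide +kernel) ?_
    refine jn 82 (by decide +kernel) ?_
    refine jn 95 (by decide +kernel) ?_
    refine jn 110 (by decide +kernel) ?_
    refine jn 127 (by decide +kernel) ?_
    refine jn 150 (by decide +kernel) ?_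
    refine jn 170 (by decide +kernel) ?_
    refine jn 192 (by decide +kernel) ?_
    refine jn 201 (by decide +kernel) ?_
    refine jn 212 (by decide +kernel) ?_
    refine jn 226 (by decide +kernel) ?_
    refine jn 247 (by decide +kernel) ?_
    refine jn 267 (by decide +kernel) ?_
    refine jn 306 (by decide +kernel) ?_
    refine jn 327 (by decide +kernel) ?_
    refine jn 331 (by decide +kernel) ?_
    refine jn 334 (by decide +kernel) ?_
    refine jn 338 (by decide +kernel) ?_
    refine jn 340 (by decide +kernel) ?_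
    refine jn 344 (by decide +kernel) ?_
    refine jn 347 (by decide +kernel) ?_
    refine jn 354 (by decide +kernel) ?_
    refine jn 365 (by decide +kernel) ?_
    refine jn 376 (by decide +kernel) ?_
    refine jn 384 (by decide +kernel) ?_
    refine jn 392 (by decide +kernel) ?_
    refine jn 393 (by decide +kernel) ?_
    refine jn 394 (by decide +kernel) ?_
    refine jn 395 (by decide +kernel) ?_
    refine jn 396 (by decide +kernel) ?_
    refine jn 397 (by decide +kernel) ?_
    refine jn 400 (by decide +kernel) ?_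
    refine jn 402 (by decide +kernel) ?_
    refine jn 403 (by decide +kernel) ?_
    refine jn 404 (by decide +kernel) ?_
    refine jn 405 (by decide +kernel) ?_
    refine jn 406 (by decide +kernel) ?_
    refine jn 407 (by decide +kernel) ?_
    refine jn 408 (by decide +kernel) ?_
    refine jn 409 (by decide +kernel) ?_
    refine jn 410 (by decide +kernel) ?_
    refine jn 411 (by decide +kernel) ?_
    refine jn 412 (by decide +kernel) ?_
    refine jn 413 (by decide +kernel) ?_
    refine jn 426 (by decide +kernel) ?_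
    refine jn 440 (by decide +kernel) ?_
    refine jn 454 (by decide +kernel) ?_
    refine jn 455 (by decide +kernel) ?_
    refine jn 456 (by decide +kernel) ?_
    refine jn 457 (by decide +kernel) ?_
    refine jn 458 (by decide +kernel) ?_
    refine jn 459 (by decide +kernel) ?_
    refine jn 460 (by decide +kernel) ?_
    refine jn 468 (by decide +kernel) ?_
    refine jn 473 (by decide +kernel) ?_
    refine jn 474 (by decide +kernel) ?_
    refine jn 479 (by decide +kernel) ?_
    refine jn 485 (by decide +kernel) ?_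
    refine jn 497 (by decide +kernel) ?_
    refine jn 500 (by decide +kernel) ?_
    refine jn 507 (by decide +kernel) ?_
    refine jn 514 (by decide +kernel) ?_
    refine jn 531 (by decide +kernel) ?_
    refine jn 533 (by decide +kernel) ?_
    refine jn 535 (by decide +kernel) ?_
    refine jn 537 (by decide +kernel) ?_
    refine jn 538 (by decide +kernel) ?_
    refine jn 539 (by decide +kernel) ?_
    refine jn 540 (by decide +kernel) ?_
    refine jn 541 (by decide +kernel) ?_
    refine jn 542 (by decide +kernel) ?_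
    refine jn 543 (by decide +kernel) ?_
    refine jn 544 (by decide +kernel) ?_
    refine jn 552 (by decide +kernel) ?_
    refine jn 570 (by decide +kernel) ?_
    refine jn 577 (by decide +kernel) ?_
    refine jn 597 (by decide +kernel) ?_
    refine jn 613 (by decide +kernel) ?_
    refine jn 619 (by decide +kernel) ?_
    refine jn 631 (by decide +kernel) ?_
    refine jn 636 (by decide +kernel) ?_
    refine jn 650 (by decide +kernel) ?_
    refine jn 655 (by decide +kernel) ?_
    refine jn 672 (by decide +kernel) ?_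
    refine jn 683 (by decide +kernel) ?_
    refine jn 686 (by decide +kernel) ?_
    refine jn 696 (by decide +kernel) ?_
    refine jn 697 (by decide +kernel) ?_
    refine jn 698 (by decide +kernel) ?_
    refine jn 699 (by decide +kernel) ?_
    refine jn 700 (by decide +kernel) ?_
    refine jn 709 (by decide +kernel) ?_
    refine jn 710 (by decide +kernel) ?_
    refine jn 712 (by decide +kernel) ?_
    refine jn 715 (by decide +kernel) ?_
    refine jn 729 (by decide +kernel) ?_
    refine jn 745 (by decide +kernel) ?_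
    refine jn 760 (by decide +kernel) ?_
    refine jn 770 (by decide +kernel) ?_
    refine jn 775 (by decide +kernel) ?_
    refine jn 795 (by decide +kernel) ?_
    refine jn 804 (by decide +kernel) ?_
    refine jn 812 (by decide +kernel) ?_
    refine jn 814 (by decide +kernel) ?_
    refine jn 825 (by decide +kernel) ?_
    refine jn 839 (by decide +kernel) ?_
    refine jn 850 (by decide +kernel) ?_
    refine jn 855 (by decide +kernel) ?_
    refine jn 871 (by decide +kernel) ?_
    refine jn 883 (by decide +kernel) ?_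
    refine jn 892 (by decide +kernel) ?_
    refine jn 902 (by decide +kernel) ?_
    refine jn 911 (by decide +kernel) ?_
    refine jn 919 (by decide +kernel) ?_
    refine jn 927 (by decide +kernel) ?_
    refine jn 943 (by decide +kernel) ?_
    refine jn 1022 (by decide +kernel) ?_
    refine jn 1122 (by decide +kernel) ?_
    refine jn 1198 (by decide +kernel) ?_
    refine jn 1244 (by decide +kernel) ?_
    refine jn 1256 (by decide +kernel) ?_
    refine jn 1264 (by decide +kernel) ?_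
    refine jn 1280 (by decide +kernel) ?_
    refine jn 1288 (by decide +kernel) ?_
    refine jn 1296 (by decide +kernel) ?_
    refine jn 1308 (by decide +kernel) ?_
    refine jn 1324 (by decide +kernel) ?_
    refine jn 1348 (by decide +kernel) ?_
    refine jn 1364 (by decide +kernel) ?_
    refine jn 1396 (by decide +kernel) ?_
    refine jn 1412 (by decide +kernel) ?_
    refine jn 1432 (by decide +kernel) ?_
    refine jn 1444 (by decide +kernel) ?_
    refine jn 1452 (by decide +kernel) ?_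
    refine jn 1472 (by decide +kernel) ?_
    refine jn 1484 (by decide +kernel) ?_
    refine jn 1492 (by decide +kernel) ?_
    refine jn 1503 (by decide +kernel) ?_
    refine jn 1519 (by decide +kernel) ?_
    refine jn 1543 (by decide +kernel) ?_
    refine jn 1551 (by decide +kernel) ?_
    refine jn 1567 (by decide +kernel) ?_
    refine jn 1587 (by decide +kernel) ?_
    refine jn 1611 (by decide +kernel) ?_
    refine jn 1635 (by decide +kernel) ?_
    refine jn 1655 (by decide +kernel) ?_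
    refine jn 1687 (by decide +kernel) ?_
    refine jn 1699 (by decide +kernel) ?_
    refine jn 1715 (by decide +kernel) ?_
    refine jn 1739 (by decide +kernel) ?_
    refine jn 1747 (by decide +kernel) ?_
    refine jn 1852 (by decide +kernel) ?_
    refine jn 1900 (by decide +kernel) ?_
    refine jn 2032 (by decide +kernel) ?_
    refine jn 2056 (by decide +kernel) ?_
    refine jn 2092 (by decide +kernel) ?_
    refine jn 2100 (by decide +kernel) ?_
    refine jn 2120 (by decide +kernel) ?_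
    refine jn 2121 (by decide +kernel) ?_
    refine jn 2180 (by decide +kernel) ?_
    refine jn 2196 (by decide +kernel) ?_
    refine jn 2229 (by decide +kernel) ?_
    refine jn 2257 (by decide +kernel) ?_
    refine jn 2281 (by decide +kernel) ?_
    refine jn 2313 (by decide +kernel) ?_
    refine jn 2333 (by decide +kernel) ?_
    refine jn 2334 (by decide +kernel) ?_
    refine jn 2393 (by decide +kernel) ?_
    refine jn 2409 (by decide +kernel) ?_
    refine jn 2434 (by decide +kernel) ?_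
    refine jn 2490 (by decide +kernel) ?_
    refine jn 2554 (by decide +kernel) ?_
    refine jn 2630 (by decide +kernel) ?_
    refine jn 2698 (by decide +kernel) ?_
    refine jn 2737 (by decide +kernel) ?_
    refine jn 2781 (by decide +kernel) ?_
    refine jn 2829 (by decide +kernel) ?_
    refine jn 2861 (by decide +kernel) ?_
    refine jn 2929 (by decide +kernel) ?_
    refine jn 2973 (by decide +kernel) ?_
    refine jn 2997 (by decide +kernel) ?_
    refine jn 3017 (by decide +kernel) ?_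
    refine jn 3105 (by decide +kernel) ?_
    refine jn 3185 (by decide +kernel) ?_
    refine jn 3265 (by decide +kernel) ?_
    refine jn 3353 (by decide +kernel) ?_
    refine jn 3421 (by decide +kernel) ?_
    refine jn 3514 (by decide +kernel) ?_
    refine jn 3582 (by decide +kernel) ?_
    refine jn 3626 (by decide +kernel) ?_
    refine jn 3674 (by decide +kernel) ?_
    refine jn 3746 (by decide +kernel) ?_
    refine jn 3818 (by decide +kernel) ?_
    refine jn 3834 (by decide +kernel) ?_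
    refine jn 3906 (by decide +kernel) ?_
    refine jn 3970 (by decide +kernel) ?_
    refine jn 4058 (by decide +kernel) ?_
    refine jn 4146 (by decide +kernel) ?_
    refine jn 4266 (by decide +kernel) ?_
    refine jn 4350 (by decide +kernel) ?_
    refine jn 4482 (by decide +kernel) ?_
    refine jn 4545 (by decide +kernel) ?_
    refine jn 4633 (by decide +kernel) ?_
    refine jn 4753 (by decide +kernel) ?_
    refine jn 4836 (by decide +kernel) ?_
    refine jn 4953 (by decide +kernel) ?_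
    refine jn 5061 (by decide +kernel) ?_
    refine jn 5193 (by decide +kernel) ?_
    refine jn 5281 (by decide +kernel) ?_
    refine jn 5380 (by decide +kernel) ?_
    refine jn 5512 (by decide +kernel) ?_
    refine jn 5652 (by decide +kernel) ?_
    refine jn 5792 (by decide +kernel) ?_
    refine jn 5916 (by decide +kernel) ?_
    refine jn 6028 (by decide +kernel) ?_
    refine jn 6188 (by decide +kernel) ?_
    refine jn 6324 (by decide +kernel) ?_
    refine jn 6472 (by decide +kernel) ?_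
    refine jn 6639 (by decide +kernel) ?_
    refine jn 6751 (by decide +kernel) ?_
    refine jn 6883 (by decide +kernel) ?_
    refine jn 7039 (by decide +kernel) ?_
    refine jn 7199 (by decide +kernel) ?_
    refine jn 7339 (by decide +kernel) ?_
    refine jn 7487 (by decide +kernel) ?_
    refine jn 7633 (by decide +kernel) ?_
    refine jn 7811 (by decide +kernel) ?_
    refine jn 7955 (by decide +kernel) ?_
    refine jn 8111 (by decide +kernel) ?_
    refine jn 8283 (by decide +kernel) ?_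
    refine jn 8713 (by decide +kernel) ?_
    refine jn 8913 (by decide +kernel) ?_
    refine jn 9052 (by decide +kernel) ?_
    refine jn 9180 (by decide +kernel) ?_
    refine jn 9274 (by decide +kernel) ?_
    refine jn 9360 (by decide +kernel) ?_
    refine jn 9439 (by decide +kernel) ?_
    refine jn 9512 (by decide +kernel) ?_
    refine jn 9855 (by decide +kernel) ?_
    refine jn 10071 (by decide +kernel) ?_
    refine jn 10224 (by decide +kernel) ?_
    refine jn 10327 (by decide +kernel) ?_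
    refine jn 10435 (by decide +kernel) ?_
    refine jn 10525 (by decide +kernel) ?_
    refine jn 10592 (by decide +kernel) ?_
    refine jn 10656 (by decide +kernel) ?_
    refine jn 10713 (by decide +kernel) ?_
    refine jn 10771 (by decide +kernel) ?_
    refine jn 10822 (by decide +kernel) ?_
    refine jn 11281 (by decide +kernel) ?_
    refine jn 11514 (by decide +kernel) ?_
    refine jn 11694 (by decide +kernel) ?_
    refine jn 11792 (by decide +kernel) ?_
    refine jn 11888 (by decide +kernel) ?_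
    refine jn 11982 (by decide +kernel) ?_
    refine jn 12078 (by decide +kernel) ?_
    refine jn 12533 (by decide +kernel) ?_
    refine jn 12822 (by decide +kernel) ?_
    refine jn 13073 (by decide +kernel) ?_
    refine jn 13607 (by decide +kernel) ?_
    refine jn 13950 (by decide +kernel) ?_
    refine jn 14167 (by decide +kernel) ?_
    exact je (by decide +kernel)
  · refine fin 1008 1100 T77_1 ?_
    refine jn 8 (by decide +kernel) ?_
    refine jn 16 (by decide +kernel) ?_
    refine jn 21 (by decide +kernel) ?_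
    refine jn 28 (by decide +kernel) ?_
    refine jn 32 (by decide +kernel) ?_
    refine jn 38 (by decide +kernel) ?_
    refine jn 43 (by decide +kernel) ?_
    refine jn 49 (by decide +kernel) ?_
    refine jn 54 (by decide +kernel) ?_
    refine jn 60 (by decide +kernel) ?_
    refine jn 65 (by decide +kernel) ?_
    refine jn 71 (by decide +kernel) ?_
    refine jn 76 (by decide +kernel) ?_
    refine jn 82 (by decide +kernel) ?_
    refine jn 86 (by decide +kernel) ?_
    refine jn 93 (by decide +kernel) ?_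
    refine jn 98 (by decide +kernel) ?_
    refine jn 105 (by decide +kernel) ?_
    refine jn 110 (by decide +kernel) ?_
    refine jn 117 (by decide +kernel) ?_
    refine jn 121 (by decide +kernel) ?_
    refine jn 128 (by decide +kernel) ?_
    refine jn 132 (by decide +kernel) ?_
    refine jn 139 (by decide +kernel) ?_
    refine jn 144 (by decide +kernel) ?_
    refine jn 157 (by decide +kernel) ?_
    refine jn 170 (by decide +kernel) ?_
    refine jn 198 (by decide +kernel) ?_
    refine jn 226 (by decide +kernel) ?_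
    refine jn 240 (by decide +kernel) ?_
    refine jn 252 (by decide +kernel) ?_
    refine jn 265 (by decide +kernel) ?_
    refine jn 277 (by decide +kernel) ?_
    refine jn 283 (by decide +kernel) ?_
    refine jn 292 (by decide +kernel) ?_
    refine jn 301 (by decide +kernel) ?_
    refine jn 310 (by decide +kernel) ?_
    refine jn 316 (by decide +kernel) ?_
    refine jn 338 (by decide +kernel) ?_
    refine jn 360 (by decide +kernel) ?_
    refine jn 383 (by decide +kernel) ?_
    refine jn 406 (by decide +kernel) ?_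
    refine jn 415 (by decide +kernel) ?_
    refine jn 437 (by decide +kernel) ?_
    refine jn 459 (by decide +kernel) ?_
    refine jn 470 (by decide +kernel) ?_
    refine jn 492 (by decide +kernel) ?_
    refine jn 514 (by decide +kernel) ?_
    refine jn 525 (by decide +kernel) ?_
    refine jn 544 (by decide +kernel) ?_
    refine jn 558 (by decide +kernel) ?_
    refine jn 576 (by decide +kernel) ?_
    refine jn 594 (by decide +kernel) ?_
    refine jn 611 (by decide +kernel) ?_
    refine jn 620 (by decide +kernel) ?_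
    refine jn 648 (by decide +kernel) ?_
    refine jn 657 (by decide +kernel) ?_
    refine jn 666 (by decide +kernel) ?_
    refine jn 672 (by decide +kernel) ?_
    refine jn 678 (by decide +kernel) ?_
    refine jn 703 (by decide +kernel) ?_
    refine jn 714 (by decide +kernel) ?_
    refine jn 724 (by decide +kernel) ?_
    refine jn 734 (by decide +kernel) ?_
    refine jn 744 (by decide +kernel) ?_
    refine jn 754 (by decide +kernel) ?_
    refine jn 759 (by decide +kernel) ?_
    refine jn 779 (by decide +kernel) ?_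
    refine jn 792 (by decide +kernel) ?_
    refine jn 804 (by decide +kernel) ?_
    refine jn 825 (by decide +kernel) ?_
    refine jn 841 (by decide +kernel) ?_
    refine jn 848 (by decide +kernel) ?_
    refine jn 877 (by decide +kernel) ?_
    refine jn 897 (by decide +kernel) ?_
    refine jn 914 (by decide +kernel) ?_
    refine jn 936 (by decide +kernel) ?_
    refine jn 948 (by decide +kernel) ?_
    refine jn 969 (by decide +kernel) ?_
    refine jn 981 (by decide +kernel) ?_
    refine jn 992 (by decide +kernel) ?_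
    refine jn 1014 (by decide +kernel) ?_
    refine jn 1040 (by decide +kernel) ?_
    refine jn 1070 (by decide +kernel) ?_
    refine jn 1085 (by decide +kernel) ?_
    exact je (by decide +kernel)
  · refine fin 2184 6894 T77_2 ?_
    refine jn 9 (by decide +kernel) ?_
    refine jn 13 (by decide +kernel) ?_
    refine jn 18 (by decide +kernel) ?_
    refine jn 24 (by decide +kernel) ?_
    refine jn 28 (by decide +kernel) ?_
    refine jn 34 (by decide +kernel) ?_
    refine jn 42 (by decide +kernel) ?_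
    refine jn 51 (by decide +kernel) ?_
    refine jn 60 (by decide +kernel) ?_
    refine jn 70 (by decide +kernel) ?_
    refine jn 79 (by decide +kernel) ?_
    refine jn 99 (by decide +kernel) ?_
    refine jn 119 (by decide +kernel) ?_
    refine jn 139 (by decide +kernel) ?_
    refine jn 147 (by decide +kernel) ?_
    refine jn 148 (by decide +kernel) ?_
    refine jn 149 (by decide +kernel) ?_
    refine jn 150 (by decide +kernel) ?_
    refine jn 152 (by decide +kernel) ?_
    refine jn 153 (by decide +kernel) ?_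
    refine jn 154 (by decide +kernel) ?_
    refine jn 155 (by decide +kernel) ?_
    refine jn 156 (by decide +kernel) ?_
    refine jn 157 (by decide +kernel) ?_
    refine jn 158 (by decide +kernel) ?_
    refine jn 159 (by decide +kernel) ?_
    refine jn 160 (by decide +kernel) ?_
    refine jn 161 (by decide +kernel) ?_
    refine jn 162 (by decide +kernel) ?_
    refine jn 163 (by decide +kernel) ?_
    refine jn 164 (by decide +kernel) ?_
    refine jn 165 (by decide +kernel) ?_
    refine jn 166 (by decide +kernel) ?_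
    refine jn 167 (by decide +kernel) ?_
    refine jn 173 (by decide +kernel) ?_
    refine jn 183 (by decide +kernel) ?_
    refine jn 189 (by decide +kernel) ?_
    refine jn 209 (by decide +kernel) ?_
    refine jn 220 (by decide +kernel) ?_
    refine jn 240 (by decide +kernel) ?_
    refine jn 256 (by decide +kernel) ?_
    refine jn 261 (by decide +kernel) ?_
    refine jn 265 (by decide +kernel) ?_
    refine jn 273 (by decide +kernel) ?_
    refine jn 274 (by decide +kernel) ?_
    refine jn 275 (by decide +kernel) ?_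
    refine jn 276 (by decide +kernel) ?_
    refine jn 281 (by decide +kernel) ?_
    refine jn 295 (by decide +kernel) ?_
    refine jn 307 (by decide +kernel) ?_
    refine jn 317 (by decide +kernel) ?_
    refine jn 325 (by decide +kernel) ?_
    refine jn 338 (by decide +kernel) ?_
    refine jn 353 (by decide +kernel) ?_
    refine jn 366 (by decide +kernel) ?_
    refine jn 378 (by decide +kernel) ?_
    refine jn 390 (by decide +kernel) ?_
    refine jn 401 (by decide +kernel) ?_
    refine jn 412 (by decide +kernel) ?_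
    refine jn 428 (by decide +kernel) ?_
    refine jn 444 (by decide +kernel) ?_
    refine jn 461 (by decide +kernel) ?_
    refine jn 470 (by decide +kernel) ?_
    refine jn 486 (by decide +kernel) ?_
    refine jn 494 (by decide +kernel) ?_
    refine jn 510 (by decide +kernel) ?_
    refine jn 665 (by decide +kernel) ?_
    refine jn 771 (by decide +kernel) ?_
    refine jn 824 (by decide +kernel) ?_
    refine jn 848 (by decide +kernel) ?_
    refine jn 896 (by decide +kernel) ?_
    refine jn 924 (by decide +kernel) ?_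
    refine jn 944 (by decide +kernel) ?_
    refine jn 968 (by decide +kernel) ?_
    refine jn 984 (by decide +kernel) ?_
    refine jn 1020 (by decide +kernel) ?_
    refine jn 1092 (by decide +kernel) ?_
    refine jn 1132 (by decide +kernel) ?_
    refine jn 1224 (by decide +kernel) ?_
    refine jn 1285 (by decide +kernel) ?_
    refine jn 1345 (by decide +kernel) ?_
    refine jn 1437 (by decide +kernel) ?_
    refine jn 1525 (by decide +kernel) ?_
    refine jn 1625 (by decide +kernel) ?_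
    refine jn 1759 (by decide +kernel) ?_
    refine jn 1888 (by decide +kernel) ?_
    refine jn 2008 (by decide +kernel) ?_
    refine jn 2120 (by decide +kernel) ?_
    refine jn 2309 (by decide +kernel) ?_
    refine jn 2531 (by decide +kernel) ?_
    refine jn 2755 (by decide +kernel) ?_
    refine jn 2974 (by decide +kernel) ?_
    refine jn 3178 (by decide +kernel) ?_
    refine jn 3398 (by decide +kernel) ?_
    refine jn 3743 (by decide +kernel) ?_
    refine jn 4101 (by decide +kernel) ?_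
    refine jn 4255 (by decide +kernel) ?_
    refine jn 4559 (by decide +kernel) ?_
    refine jn 4756 (by decide +kernel) ?_
    refine jn 4879 (by decide +kernel) ?_
    refine jn 5203 (by decide +kernel) ?_
    refine jn 5413 (by decide +kernel) ?_
    refine jn 5592 (by decide +kernel) ?_
    refine jn 6070 (by decide +kernel) ?_
    refine jn 6238 (by decide +kernel) ?_
    exact je (by decide +kernel)

end Pool.Agent.MP_2339ce_nt.NR
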