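import Pool.Agent.MP_2339ce_nt.Q2.NC.L8
import Pool.Agent.MP_2339ce_nt.Q2.NC.L10
import Pool.Agent.MP_2339ce_nt.Q2.CkI

/-! Block NR: runs. -/

set_option autoImplicit false
set_option maxRecDepth 100000

noncomputable section

namespace Pool.Agent.MP_2339ce_nt.NR

open Q2.Top

def T78_0 : Ph :=
  (.na 923 109 (.na 605 53 (.na 381 32 (.na 220 19 (.na 82 16 (.na 1 14 .ne (.nx 81 2642247 (.nr 80
  1246976 (.nx 73 660563 (.nx 5 324 (.nx 3 223 (.nr 2 169 (.lg 0 true 1 29 29 11 0 1008) (.l1 .sk))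
  (.nx 4 224 (.l1 .sk) (.l1 (.ls 79 43 3917)))) (.nr 72 1048577 (.nx 6 408 (.l1 (.ls 79 43 4395))
  (.nr 71 741457 (.nx 27 58385 (.nr 21 262145 (.lg 0 false 15 89 101 23 0 5040) (.nx 26 1627 (.lg 0
  false 5 79 79 13 0 1680) .out)) (.nr 70 311745 (.nr 37 8987 (.nr 32 1232 (.lg 0 true 5 79 79 13 0
  1680) (.lg 2 true 5 79 83 13 59784 1680)) (.nx 64 330282 (.nx 43 82570 (.nr 42 262145 (.lg 1
  false 5 89 97 13 111736 5040) .out) (.nx 58 208065 (.lg 1 true 15 89 101 23 93945 5040) (.nr 63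
  220437 (.lg 1 true 5 97 97 13 26370 5040) .out))) (.nr 69 77937 (.lg 2 false 5 79 83 13 8196
  1680) .out))) .out)) .out)) .out)) (.nr 79 65 (.lg 0 true 6 67 67 13 0 1008) .out)) .out) .out))
  (.na 159 17 (.nx 158 2642247 (.nr 157 1246976 (.nr 83 6 .s1 (.nx 85 223 (.nr 84 180 (.lg 0 true 1
  31 31 11 0 336) (.l1 .sk)) (.nx 86 224 (.l1 .sk) (.nx 151 660563 (.nr 141 311745 (.nx 97 41285
  (.nr 91 220437 (.lg 0 false 5 97 101 17 0 5040) (.nx 96 13005 (.lg 0 false 5 83 97 17 0 5040)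
  .out)) (.nr 102 1643 (.lg 0 true 5 79 79 17 0 240) (.nx 135 330282 (.nx 129 208065 (.nx 123
  165142 (.nx 118 116772 (.nx 113 82570 (.nr 112 262145 (.nx 107 58385 (.lg 1 false 5 89 101 17
  158017 5040) (.lg 1 false 5 89 101 17 111736 5040)) .out) (.lg 1 false 5 89 101 17 93945 5040))
  (.lg 1 false 5 89 101 17 66429 5040)) (.nr 128 262145 (.lg 1 true 5 83 97 17 39504 5040) .out))
  (.nr 134 220437 (.lg 1 true 5 89 101 17 26370 5040) .out)) (.nr 140 92683 (.nr 138 15003 (.nr 137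
  7178 (.lg 2 true 2 79 83 13 44829 336) (.lg 2 true 1 73 73 11 10261 48)) (.lg 2 false 2 83 89 13
  6995 336)) .out)))) (.nx 150 1627 (.nr 146 741457 (.lg 0 false 5 79 83 17 0 1680) (.nx 149 408
  (.lg 0 false 3 71 71 13 0 144) .out)) .out)) (.nr 156 129 (.lg 0 true 5 71 71 17 0 240) .out)))))
  .out) .out) (.nx 219 2642247 (.nr 218 1246976 (.nr 160 9 .s1 (.nx 210 660563 (.nx 162 223 (.nr
  161 201 (.lg 0 false 1 29 29 11 0 240) (.l1 .sk)) (.nx 163 224 (.l1 .sk) (.nx 164 408 (.l1 (.ls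
  79 41 6843)) (.nr 209 741457 (.nr 204 311745 (.nr 199 220437 (.nx 175 50480 (.lg 0 false 11 101
  107 16 0 720720) (.nr 182 1726 (.lg 0 true 7 79 79 16 0 168) (.nx 198 524289 (.nx 189 102485 (.lg
  1 false 7 101 103 16 108690 65520) (.lg 2 false 9 103 107 16 53536 720720)) .out))) (.nx 203
  13005 (.lg 0 false 4 83 89 16 0 240) .out)) (.nx 208 1627 (.lg 0 false 4 79 79 16 0 240) .out))
  .out)))) (.nr 217 129 (.lg 0 true 7 67 67 16 0 168) .out))) .out) .out))) (.na 274 28 (.na 273 23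
  (.nx 272 2642247 (.nr 271 1246976 (.nr 221 12 .s1 (.nx 224 224 (.nx 223 223 (.nr 222 243 (.lg 0
  true 1 29 29 11 0 336) (.l1 .sk)) (.l1 .sk)) (.nx 225 408 (.l1 (.ls 79 41 6123)) (.nr 270 741457
  (.nr 258 220437 (.nx 230 50480 (.lg 0 false 5 97 101 16 0 1680) (.nx 252 660563 (.nr 235 1726
  (.lg 0 true 5 73 73 16 0 120) (.nx 251 524289 (.nx 240 102485 (.lg 1 false 5 97 101 16 108690
  5040) (.lg 2 false 11 89 101 16 53536 18480)) .out)) (.nr 257 129 (.lg 0 true 5 61 61 16 0 120)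
  .out))) (.nx 269 13005 (.nr 263 311745 (.lg 0 false 5 83 83 16 0 1680) (.nx 268 1627 (.lg 0 false
  5 73 73 16 0 120) .out)) .out)) .out)))) .out) .out) .ne) (.na 309 29 (.nx 308 2642247 (.nr 307
  1048577 (.nr 275 24 .s1 (.nx 277 223 (.nr 276 307 (.lg 0 true 1 31 31 13 0 1680) (.l1 .sk)) (.nx
  278 224 (.l1 .sk) (.nx 279 408 (.l1 (.ls 83 43 4156)) (.nr 306 741457 (.nr 303 524289 (.nr 299
  185365 (.nx 295 660563 (.nx 282 40368 (.lg 0 false 3 97 101 19 0 5040) (.nr 285 1943 (.lg 0 true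
  3 83 83 19 0 5040) (.nx 294 524289 (.nx 288 82572 (.lg 1 false 3 97 101 19 114314 5040) (.nr 293
  131073 (.lg 2 false 5 83 97 23 39537 1680) .out)) .out))) (.nr 298 129 (.lg 0 true 3 71 71 19 0
  1008) .out)) (.nx 302 16385 (.lg 0 false 3 97 97 19 0 5040) .out)) (.nx 305 2582 (.lg 0 false 2
  79 83 19 0 1680) .out)) .out))))) .out) .out) (.na 345 31 (.nx 344 2642247 (.nr 343 1048577 (.nr
  310 25 .s1 (.nx 338 660563 (.nx 326 82572 (.nx 312 223 (.nr 311 328 (.lg 0 true 1 19 19 13 0 336)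
  (.l1 .sk)) (.nx 313 224 (.l1 .sk) (.nx 314 408 (.l1 (.ls 73 37 4012)) (.nr 325 741457 (.nr 319
  185365 (.lg 0 false 5 97 97 16 0 1680) (.nx 324 16385 (.lg 0 false 5 89 89 16 0 1680) .out))
  .out)))) (.nr 337 131073 (.nr 331 2925 (.lg 0 true 5 73 73 16 0 120) (.nx 336 524289 (.lg 2 false
  5 83 89 16 39537 1680) .out)) .out)) (.nr 342 129 (.lg 0 true 4 61 61 16 0 48) .out))) .out)
  .out) (.nx 380 2642247 (.nr 379 1048577 (.nr 346 28 .s1 (.nx 374 660563 (.nx 348 223 (.nr 347 338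
  (.lg 0 false 1 19 19 13 0 144) (.l1 .sk)) (.nx 349 224 (.l1 .sk) (.nx 350 408 (.l1 (.ls 73 37
  3754)) (.nr 373 741457 (.nr 367 185365 (.nx 355 82572 (.lg 0 false 5 97 101 16 0 720) (.nr 366
  131073 (.nr 360 2978 (.lg 0 true 5 79 79 16 0 120) (.nx 365 524289 (.lg 2 false 5 83 89 16 39537
  240) .out)) .out)) (.nx 372 16385 (.lg 0 false 5 89 97 16 0 720) .out)) .out)))) (.nr 378 129
  (.lg 0 true 4 61 61 16 0 48) .out))) .out) .out))))) (.na 506 41 (.na 420 34 (.na 419 33 (.nx 418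
  2642247 (.nr 417 1048577 (.nr 382 29 .s1 (.nx 385 224 (.nx 384 223 (.nr 383 349 (.lg 0 true 1 31
  31 13 0 720) (.l1 .sk)) (.l1 .sk)) (.nx 386 408 (.l1 (.ls 79 41 3637)) (.nr 416 741457 (.nx 396
  16385 (.nr 393 623489 (.lg 0 false 7 83 97 23 0 5040) (.nx 394 1024 .out (.nx 395 2582 (.lg 0
  false 1 73 73 13 0 48) .out))) (.nr 415 185365 (.nx 399 40368 (.lg 0 false 3 89 97 19 0 720) (.nx
  411 524289 (.nr 402 3036 (.lg 0 true 3 79 83 19 0 720) (.nx 405 82572 (.lg 1 false 3 97 101 19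
  114314 55440) (.nr 410 131073 (.nr 407 77937 (.lg 2 false 2 83 89 13 23537 240) (.nx 409 416129
  (.lg 2 false 2 83 89 13 39537 240) .out)) .out))) (.nr 414 257 (.lg 0 true 3 71 71 19 0 144)
  .out))) .out)) .out)))) .out) .out) .ne) (.na 449 37 (.nx 448 2642247 (.nr 447 881745 (.nr 421 31
  .s1 (.nx 425 408 (.nx 423 223 (.nr 422 391 (.lg 0 false 1 23 23 13 0 336) (.l1 .sk)) (.nx 424 224
  (.l1 .sk) (.l1 (.ls 73 43 3423)))) (.nr 446 623489 (.nr 440 185365 (.nx 434 262145 (.nx 430 65537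
  (.lg 0 false 5 97 97 13 0 1680) (.nr 433 77937 (.nr 431 1089 (.lg 0 false 1 73 73 13 0 336) (.lg
  2 true 2 89 89 13 29654 336)) .out)) (.nr 439 257 (.lg 0 true 5 67 67 13 0 240) .out)) (.nx 445
  16385 (.lg 0 false 5 89 89 13 0 1680) .out)) .out))) .out) .out) (.na 477 38 (.nx 476 2642247
  (.nr 475 881745 (.nr 450 34 .s1 (.nx 470 262145 (.nx 464 52017 (.nx 454 408 (.nx 452 223 (.nr 451
  402 (.lg 0 false 1 19 19 16 0 1680) (.l1 .sk)) (.nx 453 224 (.l1 .sk) (.l1 (.ls 73 31 3145))))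
  (.nr 463 623489 (.nr 458 185365 (.lg 0 false 4 89 97 16 0 1680) (.nx 462 16385 (.lg 0 false 4 89
  89 16 0 1680) .out)) .out)) (.nr 469 92683 (.nr 465 1113 (.lg 0 false 1 73 73 16 0 24) (.lg 2
  false 4 83 89 16 44411 1680)) .out)) (.nr 474 257 (.lg 0 true 4 67 67 16 0 48) .out))) .out)
  .out) (.nx 505 2642247 (.nr 504 881745 (.nr 478 35 .s1 (.nx 482 408 (.nx 480 223 (.nr 479 434
  (.lg 0 true 1 23 23 13 0 240) (.l1 .sk)) (.nx 481 224 (.l1 .sk) (.l1 (.ls 73 43 3063)))) (.nr 503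
  623489 (.nr 499 185365 (.nx 485 41287 (.lg 0 false 3 97 97 13 0 720) (.nr 498 110219 (.nr 492 434
  (.lg 0 true 7 71 71 17 0 336) (.nx 497 262145 (.lg 2 false 5 83 89 17 67349 240) .out)) .out))
  (.nx 502 16385 (.lg 0 false 3 89 89 13 0 720) .out)) .out))) .out) .out)))) (.na 559 46 (.na 535
  43 (.nx 534 2642247 (.nr 533 881745 (.nr 507 39 .s1 (.nx 510 224 (.nx 509 223 (.nr 508 455 (.lg 0
  false 1 19 19 16 0 1008) (.l1 .sk)) (.l1 .sk)) (.nx 527 262145 (.nx 511 408 (.l1 (.ls 71 31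
  2839)) (.nr 526 623489 (.nx 522 65537 (.nr 516 185365 (.lg 0 false 5 89 97 16 0 5040) (.nx 521
  16385 (.lg 0 false 5 89 89 16 0 5040) .out)) (.nr 525 77937 (.nr 523 1229 (.lg 0 false 1 71 71 16
  0 24) (.lg 2 false 2 83 83 16 29654 336)) .out)) .out)) (.nr 532 257 (.lg 0 true 5 67 67 16 0
  120) .out)))) .out) .out) (.nx 558 2642247 (.nr 557 881745 (.nr 536 41 .s1 (.nx 547 52017 (.nx
  537 408 (.l1 (.ls 73 31 3874)) (.nr 546 623489 (.nr 541 185365 (.lg 0 false 4 89 97 16 0 1680)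
  (.nx 545 16385 (.lg 0 false 4 89 89 16 0 1680) .out)) .out)) (.nr 556 92683 (.nr 551 487 (.lg 0
  true 4 71 71 16 0 48) (.nx 555 262145 (.lg 2 false 4 89 89 16 60019 1680) .out)) .out))) .out)
  .out)) (.na 560 47 .ne (.na 583 49 (.nx 582 2642247 (.nr 581 881745 (.nr 561 45 .s1 (.nx 564 224
  (.nx 563 223 (.nr 562 518 (.l1 (.ls 19 23 1061)) (.l1 .sk)) (.l1 .sk)) (.nx 571 32769 (.lg 0
  false 7 89 97 16 0 1680) (.nr 580 92683 (.nr 575 518 (.lg 0 true 4 71 71 16 0 48) (.nx 579 262145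
  (.lg 2 false 4 83 89 16 70497 1680) .out)) .out)))) .out) .out) (.nx 604 2642247 (.nr 603 881745
  (.nr 584 47 .s1 (.nx 587 224 (.nx 586 223 (.nr 585 561 (.l1 (.ls 17 29 1017)) (.l1 .sk)) (.l1
  .sk)) (.nx 592 32769 (.lg 0 false 5 89 89 17 0 5040) (.nr 602 92683 (.nr 597 561 (.lg 0 true 5 67
  67 17 0 840) (.nx 601 262145 (.lg 2 false 4 79 79 16 70497 336) .out)) .out)))) .out) .out))))))
  (.na 769 76 (.na 691 64 (.na 649 58 (.na 628 56 (.nx 627 2642247 (.nr 626 881745 (.nr 606 51 .s1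
  (.nx 608 223 (.nr 607 592 (.l1 (.ls 17 23 941)) (.l1 .sk)) (.nx 609 224 (.l1 .sk) (.nx 616 32769
  (.lg 0 false 7 89 97 16 0 1680) (.nr 625 92683 (.nr 620 592 (.lg 0 true 4 67 67 16 0 48) (.nx 624
  262145 (.lg 2 false 4 83 83 16 70497 240) .out)) .out))))) .out) .out) (.nx 648 2642247 (.nr 647
  881745 (.nr 629 54 .s1 (.nx 631 223 (.nr 630 613 (.l1 (.ls 31 37 891)) (.l1 .sk)) (.nx 632 224
  (.l1 .sk) (.nx 637 20644 (.lg 0 false 5 97 103 31 0 720720) (.nr 646 220437 (.nx 638 32769 (.lg 0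
  false 1 89 89 23 0 336) (.nr 645 92683 (.nx 642 262145 (.nr 639 1657 (.lg 0 true 1 73 73 23 0
  336) (.nx 640 52017 (.lg 1 false 1 83 89 23 70497 336) (.nr 641 65537 (.lg 2 false 1 83 89 23
  31435 336) .out))) (.nr 644 257 (.lg 0 true 2 71 71 29 0 336) .out)) .out)) .out))))) .out)
  .out)) (.na 670 62 (.nx 669 2642247 (.nr 668 881745 (.nr 650 57 .s1 (.nx 653 224 (.nx 652 223
  (.nr 651 656 (.l1 (.ls 19 37 860)) (.l1 .sk)) (.l1 .sk)) (.nx 659 32769 (.lg 0 false 6 89 97 23 0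
  5040) (.nr 667 92683 (.nr 664 656 (.lg 0 true 5 71 71 19 0 240) (.nx 666 262145 (.lg 2 true 2 89
  89 13 70497 1680) .out)) .out)))) .out) .out) (.nx 690 2642247 (.nr 689 881745 (.nr 671 61 .s1
  (.nx 673 223 (.nr 672 677 (.l1 (.ls 19 29 805)) (.l1 .sk)) (.nx 674 224 (.l1 .sk) (.nx 680 32769
  (.lg 0 false 6 89 97 23 0 5040) (.nr 688 92683 (.nr 685 677 (.lg 0 true 5 71 71 19 0 240) (.nx
  687 262145 (.lg 2 true 2 89 89 17 70497 1680) .out)) .out))))) .out) .out))) (.na 712 68 (.na 711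
  65 (.nx 710 2642247 (.nr 709 2097153 (.nr 692 63 .s1 (.nx 695 224 (.nx 694 223 (.nr 693 687 (.l1
  (.ls 23 31 780)) (.l1 .sk)) (.l1 .sk)) (.nx 702 32769 (.nx 696 408 (.l1 (.ls 73 37 1820)) (.nr
  701 1048577 (.lg 0 false 5 83 97 23 0 1680) .out)) (.nr 708 92683 (.nr 705 687 (.lg 0 true 3 71
  71 23 0 144) (.nx 707 416129 (.lg 2 false 2 83 89 19 70497 336) .out)) .out)))) .out) .out) .ne)
  (.na 733 73 (.nx 732 2642247 (.nr 731 2097153 (.nr 713 67 .s1 (.nx 716 224 (.nx 715 223 (.nr 714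
  772 (.l1 (.ls 31 37 734)) (.l1 .sk)) (.l1 .sk)) (.nx 717 408 (.l1 (.ls 83 41 1713)) (.nr 730
  1048577 (.nr 726 262145 (.nx 720 32769 (.lg 0 false 3 89 97 29 0 5040) (.nr 725 65537 (.nr 723
  772 (.lg 0 true 3 73 73 29 0 144) (.nx 724 416129 (.lg 2 true 1 97 97 13 60102 1680) .out))
  .out)) (.nx 729 20644 (.lg 0 false 3 97 101 29 0 5040) .out)) .out)))) .out) .out) (.na 750 74
  (.nx 749 2642247 (.nr 748 2097153 (.nr 734 72 .s1 (.nx 740 32769 (.nx 735 408 (.l1 (.ls 71 29
  2283)) (.nr 739 1048577 (.lg 0 false 4 89 89 16 0 240) .out)) (.nr 747 65537 (.nr 744 783 (.lg 0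
  true 4 61 61 16 0 48) (.nx 746 416129 (.lg 2 false 2 79 79 16 59258 48) .out)) .out))) .out)
  .out) (.nx 768 2642247 (.nr 767 2097153 (.nr 751 73 .s1 (.nx 758 32769 (.nx 752 408 (.l1 (.ls 73
  43 2252)) (.nr 757 1048577 (.lg 0 false 5 83 89 23 0 240) .out)) (.nr 766 65537 (.nr 763 804 (.lg
  0 true 5 67 67 23 0 240) (.nx 765 416129 (.lg 2 false 2 73 73 19 57710 48) .out)) .out))) .out)
  .out))))) (.na 857 91 (.na 803 83 (.na 788 82 (.nx 787 2642247 (.nr 786 2097153 (.nr 770 75 .s1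
  (.nx 774 408 (.nx 772 223 (.nr 771 867 (.l1 (.ls 17 37 657)) (.l1 .sk)) (.nx 773 224 (.l1 .sk)
  (.l1 (.ls 79 41 1533)))) (.nr 785 1048577 (.nx 779 32769 (.lg 0 false 5 89 101 31 0 5040) (.nr
  784 65537 (.nr 782 867 (.lg 0 true 3 73 73 29 0 144) (.nx 783 416129 (.lg 2 true 1 89 89 17 53517
  336) .out)) .out)) .out))) .out) .out) (.nx 802 2642247 (.nr 801 2097153 (.nr 789 81 .s1 (.nx 794
  32769 (.nx 790 408 (.l1 (.ls 79 37 2033)) (.nr 793 1048577 (.lg 0 false 3 89 89 19 0 144) .out))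
  (.nr 800 65537 (.nr 797 878 (.lg 0 true 3 71 71 19 0 144) (.nx 799 416129 (.lg 2 false 2 79 79 19
  52846 48) .out)) .out))) .out) .out)) (.na 820 86 (.nx 819 2642247 (.nr 818 2097153 (.nr 804 82
  .s1 (.nx 805 408 (.l1 (.ls 71 29 2008)) (.nr 817 1048577 (.nx 809 32769 (.lg 0 false 4 89 89 16 0
  1680) (.nr 816 65537 (.nr 813 910 (.lg 0 true 4 67 67 16 0 48) (.nx 815 416129 (.lg 2 false 2 73
  73 16 50988 48) .out)) .out)) .out))) .out) .out) (.na 839 89 (.nx 838 2642247 (.nr 837 2097153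
  (.nr 821 85 .s1 (.nx 828 32769 (.nx 822 408 (.l1 (.ls 73 37 1938)) (.nr 827 1048577 (.lg 0 false
  5 89 89 23 0 240) .out)) (.nr 836 65537 (.nr 833 941 (.lg 0 true 5 71 71 23 0 240) (.nx 835
  416129 (.lg 2 false 2 73 73 19 49899 48) .out)) .out))) .out) .out) (.nx 856 2642247 (.nr 855
  2097153 (.nr 840 88 .s1 (.nx 847 32769 (.nx 841 408 (.l1 (.ls 67 29 1873)) (.nr 846 1048577 (.lg
  0 false 5 79 79 17 0 120) .out)) (.nr 854 65537 (.nr 851 962 (.lg 0 true 4 61 61 16 0 48) (.nx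
  853 416129 (.lg 2 false 2 71 71 16 49899 48) .out)) .out))) .out) .out)))) (.na 875 98 (.na 858
  94 .ne (.nx 874 2642247 (.nr 873 2097153 (.nr 859 93 .s1 (.nx 860 408 (.l1 (.ls 71 37 1773)) (.nr
  872 1482912 (.nx 865 26009 (.lg 0 false 5 83 83 23 0 240) (.nr 871 65537 (.nr 868 513 (.lg 0 true
  3 61 61 19 0 144) (.nx 870 416129 (.lg 2 true 2 79 79 19 90446 48) .out)) .out)) .out))) .out)
  .out)) (.na 890 101 (.nx 889 2642247 (.nr 888 2097153 (.nr 876 97 .s1 (.nx 877 408 (.l1 (.ls 73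
  41 1701)) (.nr 887 1482912 (.nx 880 26009 (.lg 0 false 3 89 89 23 0 5040) (.nr 886 65537 (.nr 883
  513 (.lg 0 true 3 61 61 23 0 1008) (.nx 885 416129 (.lg 2 true 2 73 73 23 90446 336) .out))
  .out)) .out))) .out) .out) (.na 907 106 (.nx 906 2642247 (.nr 905 2097153 (.nr 891 100 .s1 (.nx
  898 26009 (.nx 892 408 (.l1 (.ls 67 29 1651)) (.nr 897 1482912 (.lg 0 false 5 79 79 17 0 240)
  .out)) (.nr 904 65537 (.nr 901 513 (.lg 0 true 3 53 53 16 0 72) (.nx 903 416129 (.lg 2 true 2 71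
  71 16 90446 48) .out)) .out))) .out) .out) (.nx 922 2642247 (.nr 921 2097153 (.nr 908 105 .s1
  (.nx 909 408 (.l1 (.ls 71 37 1573)) (.nr 920 1482912 (.nx 914 26009 (.lg 0 false 5 83 83 23 0
  1680) (.nr 919 65537 (.nr 916 513 (.lg 0 true 2 61 61 19 0 48) (.nx 918 416129 (.lg 2 true 2 73
  73 19 90446 48) .out)) .out)) .out))) .out) .out))))))) (.na 1138 163 (.na 1048 133 (.na 989 124
  (.na 959 116 (.na 939 112 (.nx 938 2642247 (.nr 937 2097153 (.nr 924 108 .s1 (.nx 931 26009 (.nx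
  925 408 (.l1 (.ls 67 29 1530)) (.nr 930 1482912 (.lg 0 false 5 79 79 17 0 240) .out)) (.nr 936
  65537 (.nr 934 1184 (.lg 0 true 3 61 61 16 0 72) (.nx 935 416129 (.lg 2 true 1 71 71 16 62868 24)
  .out)) .out))) .out) .out) (.nx 958 2642247 (.nr 957 2097153 (.nr 940 112 .s1 (.nx 944 408 (.nx
  942 223 (.nr 941 1227 (.l1 (.ls 37 31 447)) (.l1 .sk)) (.nx 943 224 (.l1 .sk) (.l1 (.ls 83 37
  1041)))) (.nr 956 1482912 (.nx 954 416129 (.nr 946 3667 (.nx 945 4095 (.l1 (.ls 43 67 148240))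
  (.lg 0 true 1 79 79 29 0 336)) (.nx 949 26009 (.lg 0 false 3 89 97 31 0 5040) (.nr 953 65537 (.nr
  951 32769 (.nx 950 65537 (.lg 0 true 1 79 79 29 0 336) (.lg 2 false 1 73 73 29 12653 1680)) (.nx
  952 165142 (.lg 2 false 1 73 73 29 62868 336) .out)) .out))) (.nr 955 513 (.lg 0 true 1 73 73 29
  0 336) .out)) .out))) .out) .out)) (.na 974 119 (.nx 973 2642247 (.nr 972 2097153 (.nr 960 116
  .s1 (.nx 967 26009 (.nx 961 408 (.l1 (.ls 73 41 1438)) (.nr 966 1482912 (.lg 0 false 5 79 89 23 0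
  240) .out)) (.nr 971 65537 (.nr 969 513 (.lg 0 true 2 67 67 23 0 48) (.nx 970 416129 (.lg 2 false
  1 83 83 19 90446 48) .out)) .out))) .out) .out) (.nx 988 2642247 (.nr 987 2097153 (.nr 975 119
  .s1 (.nx 982 26009 (.nx 976 408 (.l1 (.ls 73 37 1401)) (.nr 981 1482912 (.lg 0 false 5 83 89 29 0
  1680) .out)) (.nr 986 65537 (.nr 984 513 (.lg 0 true 2 67 67 23 0 336) (.nx 985 416129 (.lg 2
  false 1 83 83 16 90446 336) .out)) .out))) .out) .out))) (.na 1018 128 (.na 1004 127 (.nx 1003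
  2642247 (.nr 1002 2097153 (.nr 990 124 .s1 (.nx 991 408 (.l1 (.ls 73 41 1345)) (.nr 1001 1482912
  (.nx 996 26009 (.lg 0 false 5 83 89 29 0 1680) (.nr 1000 65537 (.nr 998 513 (.lg 0 true 2 61 61
  23 0 48) (.nx 999 416129 (.lg 2 true 1 79 79 19 90446 48) .out)) .out)) .out))) .out) .out) (.nx
  1017 2642247 (.nr 1016 2097153 (.nr 1005 127 .s1 (.nx 1011 26009 (.nx 1006 408 (.l1 (.ls 67 29
  1313)) (.nr 1010 1482912 (.lg 0 false 4 79 79 17 0 1680) .out)) (.nr 1015 65537 (.nr 1013 513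
  (.lg 0 true 2 59 59 16 0 48) (.nx 1014 416129 (.lg 2 false 1 73 73 16 90446 24) .out)) .out)))
  .out) .out)) (.na 1032 129 (.nx 1031 2642247 (.nr 1030 2097153 (.nr 1019 128 .s1 (.nx 1021 223
  (.nr 1020 1364 (.l1 (.ls 23 29 391)) (.l1 .sk)) (.nx 1022 224 (.l1 .sk) (.nx 1025 26009 (.lg 0
  false 3 89 89 29 0 5040) (.nr 1029 65537 (.nr 1027 1025 (.lg 0 true 2 67 67 23 0 48) (.nx 1028
  416129 (.lg 2 false 1 73 73 19 62868 48) .out)) .out))))) .out) .out) (.na 1033 131 .ne (.nx 1047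
  1321124 (.nr 1046 2097153 (.nr 1034 131 .s1 (.nx 1042 26009 (.nx 1036 223 (.nr 1035 1406 (.l1
  (.ls 16 19 382)) (.l1 .sk)) (.nx 1037 224 (.l1 .sk) (.lg 0 false 5 79 79 17 0 120))) (.nr 1045
  65537 (.nr 1043 1025 (.lg 0 false 1 61 61 16 0 24) (.nx 1044 165142 (.lg 2 true 1 71 71 16 62868
  24) .out)) .out))) .out) .out))))) (.na 1107 148 (.na 1076 137 (.na 1061 136 (.nx 1060 1321124
  (.nr 1059 2097153 (.nr 1049 133 .s1 (.nx 1052 224 (.nx 1051 223 (.nr 1050 1438 (.l1 (.ls 17 29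
  376)) (.l1 .sk)) (.l1 .sk)) (.nx 1055 26009 (.lg 0 false 3 97 97 23 0 5040) (.nr 1058 65537 (.nr
  1056 1025 (.lg 0 true 1 71 71 17 0 168) (.nx 1057 165142 (.lg 2 true 1 79 79 17 62868 168) .out))
  .out)))) .out) .out) (.nx 1075 1321124 (.nr 1074 2097153 (.nr 1062 136 .s1 (.nx 1065 224 (.nx
  1064 223 (.nr 1063 1449 (.l1 (.ls 29 31 368)) (.l1 .sk)) (.l1 .sk)) (.nx 1068 20644 (.lg 0 false
  3 83 97 37 0 1008) (.nr 1073 262145 (.nx 1069 41287 (.lg 0 false 1 79 83 29 0 48) (.nr 1072 16385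
  (.nx 1070 165142 (.lg 0 true 1 73 79 29 0 48) (.nr 1071 1025 (.lg 0 true 1 71 71 29 0 48) .out))
  .out)) .out)))) .out) .out)) (.na 1077 139 (.lg 0 false 1 0 0 16 0 24) (.na 1092 146 (.nx 1091
  1321124 (.nr 1090 2097153 (.nr 1078 139 .s1 (.nx 1086 26009 (.nx 1080 223 (.nr 1079 1544 (.l1
  (.ls 17 19 360)) (.l1 .sk)) (.nx 1081 224 (.l1 .sk) (.lg 0 false 5 83 83 17 0 5040))) (.nr 1089
  65537 (.nr 1087 1025 (.lg 0 false 1 61 61 16 0 24) (.nx 1088 165142 (.lg 2 true 1 71 71 16 62868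
  24) .out)) .out))) .out) .out) (.nx 1106 1321124 (.nr 1105 2097153 (.nr 1093 146 .s1 (.nx 1096
  224 (.nx 1095 223 (.nr 1094 1565 (.l1 (.ls 16 29 343)) (.l1 .sk)) (.l1 .sk)) (.nx 1101 26009 (.lg
  0 false 5 83 83 29 0 1680) (.nr 1104 65537 (.nr 1102 1025 (.lg 0 false 1 61 61 19 0 336) (.nx
  1103 165142 (.lg 2 true 1 73 73 19 62868 336) .out)) .out)))) .out) .out)))) (.na 1121 151 (.na
  1120 149 (.nx 1119 1321124 (.nr 1118 2097153 (.nr 1108 148 .s1 (.nx 1111 224 (.nx 1110 223 (.nr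
  1109 1576 (.l1 (.ls 29 29 339)) (.l1 .sk)) (.l1 .sk)) (.nx 1114 26009 (.lg 0 false 3 97 97 29 0
  5040) (.nr 1117 65537 (.nr 1115 1025 (.lg 0 true 1 71 71 23 0 48) (.nx 1116 165142 (.lg 2 false 1
  83 83 23 62868 1680) .out)) .out)))) .out) .out) (.lg 0 false 1 0 0 16 0 24)) (.na 1122 152 (.lg
  0 false 1 0 0 16 0 24) (.na 1137 157 (.nx 1136 1321124 (.nr 1135 2097153 (.nr 1123 152 .s1 (.nx
  1133 165142 (.nx 1125 223 (.nr 1124 1660 (.l1 (.ls 17 31 330)) (.l1 .sk)) (.nx 1126 224 (.l1 .sk)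
  (.nx 1129 20644 (.lg 0 false 3 89 101 37 0 5040) (.nr 1132 262145 (.nx 1130 41287 (.lg 0 false 1
  89 89 29 0 1680) (.nr 1131 16385 (.lg 0 true 1 83 83 29 0 1680) .out)) .out)))) (.nr 1134 1025
  (.lg 0 true 1 73 73 29 0 48) .out))) .out) .out) (.lg 0 false 1 0 0 16 0 24)))))) (.na 1225 182
  (.na 1168 172 (.na 1152 166 (.na 1139 164 (.lg 0 false 1 0 0 16 0 24) (.nx 1151 1321124 (.nr 1150
  2097153 (.nr 1140 164 .s1 (.nx 1143 224 (.nx 1142 223 (.nr 1141 1755 (.l1 (.ls 19 29 306)) (.l1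
  .sk)) (.l1 .sk)) (.nx 1146 26009 (.lg 0 false 3 83 89 29 0 144) (.nr 1149 65537 (.nr 1147 1025
  (.lg 0 true 1 61 61 23 0 48) (.nx 1148 165142 (.lg 2 false 1 73 73 23 62868 48) .out)) .out))))
  .out) .out)) (.na 1167 167 (.nx 1166 1321124 (.nr 1165 2097153 (.nr 1153 166 .s1 (.nx 1161 26009
  (.nx 1155 223 (.nr 1154 1766 (.l1 (.ls 17 29 302)) (.l1 .sk)) (.nx 1156 224 (.l1 .sk) (.lg 0
  false 5 73 79 29 0 240))) (.nr 1164 65537 (.nr 1162 1025 (.lg 0 false 1 61 61 19 0 48) (.nx 1163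
  165142 (.lg 2 true 1 71 71 19 62868 48) .out)) .out))) .out) .out) (.lg 0 false 1 0 0 16 0 24)))
  (.na 1182 178 (.na 1181 173 (.nx 1180 1321124 (.nr 1179 2097153 (.nr 1169 172 .s1 (.nx 1171 223
  (.nr 1170 1829 (.l1 (.ls 19 29 292)) (.l1 .sk)) (.nx 1172 224 (.l1 .sk) (.nx 1175 26009 (.lg 0
  false 3 83 89 29 0 720) (.nr 1178 65537 (.nr 1176 1025 (.lg 0 true 1 61 61 23 0 48) (.nx 1177
  165142 (.lg 2 true 1 73 73 23 62868 48) .out)) .out))))) .out) .out) (.lg 0 false 1 0 0 16 0 24))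
  (.na 1195 179 (.nx 1194 1321124 (.nr 1193 2097153 (.nr 1183 178 .s1 (.nx 1186 224 (.nx 1185 223
  (.nr 1184 1893 (.l1 (.ls 17 29 282)) (.l1 .sk)) (.l1 .sk)) (.nx 1189 26009 (.lg 0 false 3 79 79
  23 0 144) (.nr 1192 65537 (.nr 1190 1025 (.lg 0 false 1 61 61 19 0 240) (.nx 1191 165142 (.lg 2
  true 1 71 71 19 62868 240) .out)) .out)))) .out) .out) (.na 1210 181 (.nx 1209 1321124 (.nr 1208
  2097153 (.nr 1196 179 .s1 (.nx 1199 224 (.nx 1198 223 (.nr 1197 1914 (.l1 (.ls 16 19 280)) (.l1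
  .sk)) (.l1 .sk)) (.nx 1204 41287 (.lg 0 false 5 73 73 19 0 120) (.nr 1207 16385 (.nr 1205 1025
  (.lg 0 false 1 53 53 16 0 24) (.nx 1206 165142 (.lg 2 false 1 43 43 16 17965 24) .out)) .out))))
  .out) .out) (.nx 1224 1321124 (.nr 1223 2097153 (.nr 1211 181 .s1 (.nx 1214 224 (.nx 1213 223
  (.nr 1212 1924 (.l1 (.ls 16 19 277)) (.l1 .sk)) (.l1 .sk)) (.nx 1219 41287 (.lg 0 false 5 79 79
  19 0 1680) (.nr 1222 16385 (.nr 1220 1025 (.lg 0 false 1 59 59 16 0 24) (.nx 1221 165142 (.lg 2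
  false 1 47 47 16 17965 24) .out)) .out)))) .out) .out))))) (.na 1254 197 (.na 1239 191 (.na 1226
  188 .ne (.nx 1238 1321124 (.nr 1237 1482912 (.nr 1227 188 .s1 (.nx 1230 224 (.nx 1229 223 (.nr
  1228 2020 (.l1 (.ls 23 29 267)) (.l1 .sk)) (.l1 .sk)) (.nx 1233 26009 (.lg 0 false 3 89 89 29 0
  5040) (.nr 1236 65537 (.nr 1234 1025 (.lg 0 true 1 67 67 23 0 48) (.nx 1235 165142 (.lg 2 true 1
  79 79 23 62868 1680) .out)) .out)))) .out) .out)) (.na 1240 193 (.lg 0 false 1 0 0 16 0 24) (.na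
  1241 196 (.lg 0 false 1 0 0 16 0 24) (.nx 1253 1321124 (.nr 1252 1482912 (.nr 1242 196 .s1 (.nx
  1245 224 (.nx 1244 223 (.nr 1243 2083 (.l1 (.ls 23 29 256)) (.l1 .sk)) (.l1 .sk)) (.nx 1248 26009
  (.lg 0 false 3 79 83 31 0 1008) (.nr 1251 65537 (.nr 1249 1025 (.lg 0 true 1 61 61 29 0 336) (.nx
  1250 165142 (.lg 2 true 1 73 73 29 62868 336) .out)) .out)))) .out) .out)))) (.na 1280 202 (.na
  1267 199 (.nx 1266 1321124 (.nr 1265 1482912 (.nr 1255 197 .s1 (.nx 1257 223 (.nr 1256 2104 (.l1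
  (.ls 17 17 255)) (.l1 .sk)) (.nx 1258 224 (.l1 .sk) (.nx 1261 41287 (.lg 0 false 3 79 79 17 0 72)
  (.nr 1264 16385 (.nr 1262 1025 (.lg 0 false 1 61 61 16 0 24) (.nx 1263 165142 (.lg 2 false 1 47
  47 16 17965 24) .out)) .out))))) .out) .out) (.nx 1279 1321124 (.nr 1278 1482912 (.nr 1268 199
  .s1 (.nx 1271 224 (.nx 1270 223 (.nr 1269 2136 (.l1 (.ls 16 17 252)) (.l1 .sk)) (.l1 .sk)) (.nx
  1274 41287 (.lg 0 false 3 73 73 17 0 72) (.nr 1277 16385 (.nr 1275 1025 (.lg 0 false 1 59 59 16 0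
  48) (.nx 1276 165142 (.lg 2 true 1 43 43 16 17965 24) .out)) .out)))) .out) .out)) (.na 1293 203
  (.nx 1292 1321124 (.nr 1291 1482912 (.nr 1281 202 .s1 (.nx 1283 223 (.nr 1282 2146 (.l1 (.ls 19
  29 249)) (.l1 .sk)) (.nx 1284 224 (.l1 .sk) (.nx 1287 41287 (.lg 0 false 3 79 79 29 0 5040) (.nr
  1290 16385 (.nr 1288 1025 (.lg 0 false 1 61 61 23 0 48) (.nx 1289 165142 (.lg 2 true 1 47 47 23
  17965 48) .out)) .out))))) .out) .out) (.na 1306 211 (.nx 1305 1321124 (.nr 1304 1482912 (.nr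
  1294 203 .s1 (.nx 1300 26009 (.nx 1296 223 (.nr 1295 2231 (.l1 (.ls 23 19 247)) (.l1 .sk)) (.nx
  1297 224 (.l1 .sk) (.lg 0 false 3 89 89 23 0 5040))) (.nr 1303 65537 (.nr 1301 1025 (.lg 0 true 1
  67 67 19 0 168) (.nx 1302 165142 (.lg 2 false 1 73 73 19 62868 168) .out)) .out))) .out) .out)
  (.nx 1318 1321124 (.nr 1317 1482912 (.nr 1307 211 .s1 (.nx 1313 41287 (.nx 1309 223 (.nr 1308
  2242 (.l1 (.ls 16 17 238)) (.l1 .sk)) (.nx 1310 224 (.l1 .sk) (.lg 0 false 3 73 73 17 0 72)))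
  (.nr 1316 16385 (.nr 1314 1025 (.lg 0 false 1 61 61 16 0 1008) (.nx 1315 165142 (.lg 2 false 1 47
  47 16 17965 336) .out)) .out))) .out) .out))))))))

def T78_1 : Ph :=
  (.na 688 5 (.na 507 3 (.na 306 2 (.nx 305 1321124 (.nr 304 881745 (.nx 2 175 (.nr 1 14 (.lg 0
  false 1 43 43 5 0 1680) (.l1 .sk)) (.nx 3 176 (.l1 .sk) (.nr 262 77937 (.nx 235 660563 (.nx 55
  22400 (.lg 0 false 52 101 107 16 0 720720) (.nr 94 695 (.lg 0 true 39 89 97 16 0 32760) (.nx 133
  32769 (.lg 1 false 39 101 107 16 53399 720720) (.nr 234 55110 (.nr 197 38969 (.nr 146 1219 (.lg 2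
  true 13 89 89 9 83165 21840) (.nx 196 524289 (.nr 159 2437 (.lg 2 true 13 89 89 9 37634 21840)
  (.nx 195 416129 (.lg 2 false 36 97 103 16 18292 55440) .out)) .out)) (.nx 233 104033 (.lg 2 true
  36 89 103 16 25835 55440) .out)) .out)))) (.nr 261 129 (.lg 0 true 26 83 89 11 0 21840) .out))
  (.nx 303 13005 (.nx 288 257 (.lg 0 false 26 83 83 11 0 21840) (.nx 289 2580 .out (.nr 302 92683
  (.lg 0 false 13 101 103 9 0 720720) .out))) .out)))) .out) .out) (.nx 506 3329023 (.nr 505 623489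
  (.nx 486 1664512 (.nx 362 26009 (.nx 308 175 (.nr 307 25 (.lg 0 false 1 43 43 5 0 5040) (.l1
  .sk)) (.nx 309 176 (.l1 .sk) (.nr 348 131073 (.lg 0 false 39 101 107 13 0 720720) (.nx 361 257
  (.lg 0 false 13 79 79 9 0 21840) .out)))) (.nr 485 110219 (.nr 401 450 (.lg 0 true 39 89 97 13 0
  65520) (.nx 484 416129 (.nx 414 32769 (.lg 1 false 13 101 103 9 64995 720720) (.nr 483 92683 (.nr
  455 55110 (.nr 427 2437 (.lg 2 true 13 89 97 9 80914 21840) (.nx 454 330282 (.nr 440 27556 (.lg 2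
  false 13 101 103 9 12959 720720) (.nx 453 165142 (.lg 2 false 13 103 103 9 25835 720720) .out))
  .out)) (.nx 482 131073 (.nr 468 77937 (.lg 2 true 13 103 107 9 36502 720720) (.nx 481 82572 (.lg
  2 true 13 101 103 9 43392 720720) .out)) .out)) .out)) .out)) .out)) (.nr 504 9 (.lg 0 true 18 71
  71 9 0 5040) .out)) .out) .out)) (.na 508 4 .ne (.nx 687 13316087 (.nr 686 1246976 (.nx 511 176
  (.nx 510 175 (.nr 509 45 (.lg 0 true 1 37 37 9 0 1680) (.l1 .sk)) (.l1 .sk)) (.nx 623 416129 (.nx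
  538 26007 (.nr 524 110219 (.lg 0 false 13 103 107 13 0 720720) (.nx 537 1627 (.nr 527 155873 (.lg
  0 false 3 89 89 9 0 5040) (.nx 536 257 (.lg 0 false 9 79 79 13 0 5040) .out)) .out)) (.nr 622
  131073 (.nr 558 5810 (.nr 549 729 (.lg 0 true 11 83 83 13 0 18480) (.lg 2 true 9 89 97 13 49947
  5040)) (.nx 612 131073 (.nx 569 36779 (.lg 1 false 11 97 103 13 77279 55440) (.nx 602 104033 (.nx
  591 73561 (.nx 580 52015 (.lg 1 false 11 97 103 13 54645 55440) (.lg 1 false 11 97 103 13 38638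
  55440)) (.lg 1 true 11 97 103 13 27321 55440)) (.nr 611 92683 (.lg 1 true 9 89 101 13 13668
  55440) .out))) (.nr 621 55110 (.lg 2 false 9 89 97 13 6459 5040) .out))) .out)) (.nr 685 183 (.nx
  636 1664512 (.lg 0 true 13 83 83 13 0 21840) (.nr 684 21 (.nx 658 6658044 (.lg 0 true 22 79 79 11
  0 18480) (.lg 0 true 26 79 79 11 0 21840)) .out)) .out))) .out) .out))) (.na 850 7 (.na 849 6
  (.nx 848 13316087 (.nr 847 1482912 (.nx 793 832257 (.nx 718 26007 (.nx 690 175 (.nr 689 55 (.lg 0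
  true 1 31 31 9 0 840) (.l1 .sk)) (.nx 691 176 (.l1 .sk) (.nr 704 110219 (.lg 0 false 13 101 101
  16 0 240240) (.nx 717 257 (.lg 0 false 13 71 71 16 0 10920) .out)))) (.nr 792 155873 (.nr 731 956
  (.lg 0 true 13 83 83 16 0 10920) (.nx 791 660563 (.nr 740 8843 (.lg 2 true 9 89 89 13 60460
  55440) (.nx 781 131073 (.nx 754 41285 (.nr 753 131073 (.lg 1 false 13 97 101 16 77279 240240)
  .out) (.nx 767 82572 (.lg 1 false 13 101 103 16 57879 720720) (.nr 780 131073 (.lg 1 true 13 97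
  101 16 24340 240240) .out))) (.nr 790 46342 (.lg 2 false 9 79 83 13 6537 2520) .out))) .out))
  .out)) (.nr 846 129 (.nr 832 36 (.lg 0 true 39 73 73 11 0 32760) (.nx 845 1664512 (.lg 0 true 13
  71 71 16 0 10920) .out)) .out)) .out) .out) .ne) (.na 964 8 (.nx 963 13316087 (.nr 962 262145
  (.nx 853 176 (.nx 852 175 (.nr 851 74 (.lg 0 true 1 31 31 9 0 840) (.l1 .sk)) (.l1 .sk)) (.nx 870
  26007 (.nr 865 110219 (.lg 0 false 12 89 97 16 0 5040) (.nx 869 1627 (.lg 0 true 4 83 83 11 0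
  5040) .out)) (.nr 961 131073 (.nr 935 1284 (.nx 882 832257 (.lg 0 true 12 83 83 16 0 5040) (.nr
  934 129 (.lg 0 true 52 79 79 16 0 21840) .out)) (.nx 960 524289 (.nx 947 52015 (.lg 1 false 12 89
  97 16 77279 5040) (.lg 2 false 13 101 103 16 38638 720720)) .out)) .out))) .out) .out) (.nx 1054
  13316087 (.nr 1053 623489 (.nx 1026 1664512 (.nx 967 176 (.nx 966 175 (.nr 965 84 (.lg 0 true 1
  37 37 11 0 1680) (.l1 .sk)) (.l1 .sk)) (.nx 990 26007 (.nr 980 110219 (.lg 0 false 13 97 103 19 0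
  720720) (.nx 989 2582 (.nx 987 1627 (.nr 983 311745 (.lg 0 false 3 89 97 13 0 5040) (.nx 986 814
  (.lg 0 false 3 89 89 13 0 5040) .out)) (.nr 988 131073 (.lg 0 false 1 79 79 11 0 1680) .out))
  .out)) (.nr 1025 131073 (.nr 1003 727 (.nx 999 832257 (.lg 0 true 9 83 83 19 0 5040) (.nr 1002
  129 (.lg 0 true 3 79 79 13 0 5040) .out)) (.nx 1024 660563 (.nr 1005 2905 (.lg 2 true 2 89 89 11
  79504 1680) (.nx 1014 82572 (.nx 1008 38224 (.lg 1 false 3 101 103 13 77279 55440) (.nx 1011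
  56180 (.lg 1 false 3 101 103 13 52579 55440) (.lg 1 false 3 101 103 13 35774 55440))) (.nr 1023
  110219 (.lg 2 false 9 97 103 19 20473 55440) .out))) .out)) .out))) (.nr 1052 55 (.lg 0 true 26
  79 89 13 0 21840) .out)) .out) .out))))

theorem c78 :
    OkQ ckI L10 223 9 212 0 34359738368 1 1099511627776 ∧
    OkQ ckI L8 175 1 9 0 34359738368 1 1099511627776 := by
  refine ⟨?_, ?_⟩
  · refine fin 24 1319 T78_0 ?_
    refine jn 6 (by decide +kernel) ?_
    refine jn 12 (by decide +kernel) ?_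
    refine jn 17 (by decide +kernel) ?_
    refine jn 21 (by decide +kernel) ?_
    refine jn 27 (by decide +kernel) ?_
    refine jn 32 (by decide +kernel) ?_
    refine jn 42 (by decide +kernel) ?_
    refine jn 58 (by decide +kernel) ?_
    refine jn 69 (by decide +kernel) ?_
    refine jn 79 (by decide +kernel) ?_
    refine jn 86 (by decide +kernel) ?_
    refine jn 87 (by decide +kernel) ?_
    refine jn 88 (by decide +kernel) ?_
    refine jn 89 (by decide +kernel) ?_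
    refine jn 90 (by decide +kernel) ?_
    refine jn 91 (by decide +kernel) ?_
    refine jn 96 (by decide +kernel) ?_
    refine jn 98 (by decide +kernel) ?_
    refine jn 99 (by decide +kernel) ?_
    refine jn 100 (by decide +kernel) ?_
    refine jn 101 (by decide +kernel) ?_
    refine jn 102 (by decide +kernel) ?_
    refine jn 107 (by decide +kernel) ?_
    refine jn 112 (by decide +kernel) ?_
    refine jn 118 (by decide +kernel) ?_
    refine jn 123 (by decide +kernel) ?_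
    refine jn 128 (by decide +kernel) ?_
    refine jn 134 (by decide +kernel) ?_
    refine jn 138 (by decide +kernel) ?_
    refine jn 141 (by decide +kernel) ?_
    refine jn 146 (by decide +kernel) ?_
    refine jn 153 (by decide +kernel) ?_
    refine jn 156 (by decide +kernel) ?_
    refine jn 164 (by decide +kernel) ?_
    refine jn 170 (by decide +kernel) ?_
    refine jn 175 (by decide +kernel) ?_
    refine jn 182 (by decide +kernel) ?_
    refine jn 189 (by decide +kernel) ?_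
    refine jn 198 (by decide +kernel) ?_
    refine jn 208 (by decide +kernel) ?_
    refine jn 217 (by decide +kernel) ?_
    refine jn 227 (by decide +kernel) ?_
    refine jn 230 (by decide +kernel) ?_
    refine jn 235 (by decide +kernel) ?_
    refine jn 240 (by decide +kernel) ?_
    refine jn 251 (by decide +kernel) ?_
    refine jn 263 (by decide +kernel) ?_
    refine jn 278 (by decide +kernel) ?_
    refine jn 279 (by decide +kernel) ?_
    refine jn 280 (by decide +kernel) ?_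
    refine jn 281 (by decide +kernel) ?_
    refine jn 282 (by decide +kernel) ?_
    refine jn 284 (by decide +kernel) ?_
    refine jn 285 (by decide +kernel) ?_
    refine jn 288 (by decide +kernel) ?_
    refine jn 292 (by decide +kernel) ?_
    refine jn 298 (by decide +kernel) ?_
    refine jn 305 (by decide +kernel) ?_
    refine jn 314 (by decide +kernel) ?_
    refine jn 319 (by decide +kernel) ?_
    refine jn 331 (by decide +kernel) ?_
    refine jn 342 (by decide +kernel) ?_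
    refine jn 355 (by decide +kernel) ?_
    refine jn 365 (by decide +kernel) ?_
    refine jn 378 (by decide +kernel) ?_
    refine jn 386 (by decide +kernel) ?_
    refine jn 389 (by decide +kernel) ?_
    refine jn 391 (by decide +kernel) ?_
    refine jn 393 (by decide +kernel) ?_
    refine jn 399 (by decide +kernel) ?_
    refine jn 401 (by decide +kernel) ?_
    refine jn 402 (by decide +kernel) ?_
    refine jn 405 (by decide +kernel) ?_
    refine jn 409 (by decide +kernel) ?_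
    refine jn 414 (by decide +kernel) ?_
    refine jn 430 (by decide +kernel) ?_
    refine jn 433 (by decide +kernel) ?_
    refine jn 445 (by decide +kernel) ?_
    refine jn 458 (by decide +kernel) ?_
    refine jn 465 (by decide +kernel) ?_
    refine jn 474 (by decide +kernel) ?_
    refine jn 485 (by decide +kernel) ?_
    refine jn 492 (by decide +kernel) ?_
    refine jn 502 (by decide +kernel) ?_
    refine jn 516 (by decide +kernel) ?_
    refine jn 525 (by decide +kernel) ?_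
    refine jn 537 (by decide +kernel) ?_
    refine jn 545 (by decide +kernel) ?_
    refine jn 555 (by decide +kernel) ?_
    refine jn 571 (by decide +kernel) ?_
    refine jn 579 (by decide +kernel) ?_
    refine jn 592 (by decide +kernel) ?_
    refine jn 601 (by decide +kernel) ?_
    refine jn 616 (by decide +kernel) ?_
    refine jn 624 (by decide +kernel) ?_
    refine jn 632 (by decide +kernel) ?_
    refine jn 633 (by decide +kernel) ?_
    refine jn 634 (by decide +kernel) ?_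
    refine jn 635 (by decide +kernel) ?_
    refine jn 636 (by decide +kernel) ?_
    refine jn 637 (by decide +kernel) ?_
    refine jn 638 (by decide +kernel) ?_
    refine jn 639 (by decide +kernel) ?_
    refine jn 640 (by decide +kernel) ?_
    refine jn 641 (by decide +kernel) ?_
    refine jn 643 (by decide +kernel) ?_
    refine jn 644 (by decide +kernel) ?_
    refine jn 659 (by decide +kernel) ?_
    refine jn 666 (by decide +kernel) ?_
    refine jn 680 (by decide +kernel) ?_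
    refine jn 687 (by decide +kernel) ?_
    refine jn 699 (by decide +kernel) ?_
    refine jn 701 (by decide +kernel) ?_
    refine jn 705 (by decide +kernel) ?_
    refine jn 707 (by decide +kernel) ?_
    refine jn 717 (by decide +kernel) ?_
    refine jn 720 (by decide +kernel) ?_
    refine jn 723 (by decide +kernel) ?_
    refine jn 729 (by decide +kernel) ?_
    refine jn 744 (by decide +kernel) ?_
    refine jn 757 (by decide +kernel) ?_
    refine jn 765 (by decide +kernel) ?_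
    refine jn 774 (by decide +kernel) ?_
    refine jn 779 (by decide +kernel) ?_
    refine jn 782 (by decide +kernel) ?_
    refine jn 793 (by decide +kernel) ?_
    refine jn 804 (by decide +kernel) ?_
    refine jn 813 (by decide +kernel) ?_
    refine jn 827 (by decide +kernel) ?_
    refine jn 839 (by decide +kernel) ?_
    refine jn 851 (by decide +kernel) ?_
    refine jn 865 (by decide +kernel) ?_
    refine jn 880 (by decide +kernel) ?_
    refine jn 897 (by decide +kernel) ?_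
    refine jn 914 (by decide +kernel) ?_
    refine jn 930 (by decide +kernel) ?_
    refine jn 940 (by decide +kernel) ?_
    refine jn 944 (by decide +kernel) ?_
    refine jn 945 (by decide +kernel) ?_
    refine jn 946 (by decide +kernel) ?_
    refine jn 947 (by decide +kernel) ?_
    refine jn 948 (by decide +kernel) ?_
    refine jn 949 (by decide +kernel) ?_
    refine jn 950 (by decide +kernel) ?_
    refine jn 951 (by decide +kernel) ?_
    refine jn 952 (by decide +kernel) ?_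
    refine jn 960 (by decide +kernel) ?_
    refine jn 966 (by decide +kernel) ?_
    refine jn 970 (by decide +kernel) ?_
    refine jn 981 (by decide +kernel) ?_
    refine jn 985 (by decide +kernel) ?_
    refine jn 996 (by decide +kernel) ?_
    refine jn 999 (by decide +kernel) ?_
    refine jn 1014 (by decide +kernel) ?_
    refine jn 1025 (by decide +kernel) ?_
    refine jn 1028 (by decide +kernel) ?_
    refine jn 1044 (by decide +kernel) ?_
    refine jn 1056 (by decide +kernel) ?_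
    refine jn 1065 (by decide +kernel) ?_
    refine jn 1067 (by decide +kernel) ?_
    refine jn 1068 (by decide +kernel) ?_
    refine jn 1070 (by decide +kernel) ?_
    refine jn 1086 (by decide +kernel) ?_
    refine jn 1101 (by decide +kernel) ?_
    refine jn 1114 (by decide +kernel) ?_
    refine jn 1121 (by decide +kernel) ?_
    refine jn 1126 (by decide +kernel) ?_
    refine jn 1128 (by decide +kernel) ?_
    refine jn 1129 (by decide +kernel) ?_
    refine jn 1131 (by decide +kernel) ?_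
    refine jn 1143 (by decide +kernel) ?_
    refine jn 1147 (by decide +kernel) ?_
    refine jn 1162 (by decide +kernel) ?_
    refine jn 1175 (by decide +kernel) ?_
    refine jn 1184 (by decide +kernel) ?_
    refine jn 1191 (by decide +kernel) ?_
    refine jn 1206 (by decide +kernel) ?_
    refine jn 1221 (by decide +kernel) ?_
    refine jn 1234 (by decide +kernel) ?_
    refine jn 1248 (by decide +kernel) ?_
    refine jn 1261 (by decide +kernel) ?_
    refine jn 1275 (by decide +kernel) ?_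
    refine jn 1289 (by decide +kernel) ?_
    refine jn 1301 (by decide +kernel) ?_
    refine jn 1314 (by decide +kernel) ?_
    exact je (by decide +kernel)
  · refine fin 840 1055 T78_1 ?_
    refine jn 7 (by decide +kernel) ?_
    refine jn 10 (by decide +kernel) ?_
    refine jn 12 (by decide +kernel) ?_
    refine jn 17 (by decide +kernel) ?_
    refine jn 22 (by decide +kernel) ?_
    refine jn 24 (by decide +kernel) ?_
    refine jn 28 (by decide +kernel) ?_
    refine jn 32 (by decide +kernel) ?_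
    refine jn 35 (by decide +kernel) ?_
    refine jn 37 (by decide +kernel) ?_
    refine jn 42 (by decide +kernel) ?_
    refine jn 47 (by decide +kernel) ?_
    refine jn 49 (by decide +kernel) ?_
    refine jn 52 (by decide +kernel) ?_
    refine jn 55 (by decide +kernel) ?_
    refine jn 61 (by decide +kernel) ?_
    refine jn 68 (by decide +kernel) ?_
    refine jn 75 (by decide +kernel) ?_
    refine jn 82 (by decide +kernel) ?_
    refine jn 89 (by decide +kernel) ?_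
    refine jn 94 (by decide +kernel) ?_
    refine jn 122 (by decide +kernel) ?_
    refine jn 133 (by decide +kernel) ?_
    refine jn 146 (by decide +kernel) ?_
    refine jn 159 (by decide +kernel) ?_
    refine jn 178 (by decide +kernel) ?_
    refine jn 195 (by decide +kernel) ?_
    refine jn 223 (by decide +kernel) ?_
    refine jn 248 (by decide +kernel) ?_
    refine jn 261 (by decide +kernel) ?_
    refine jn 288 (by decide +kernel) ?_
    refine jn 307 (by decide +kernel) ?_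
    refine jn 315 (by decide +kernel) ?_
    refine jn 321 (by decide +kernel) ?_
    refine jn 328 (by decide +kernel) ?_
    refine jn 335 (by decide +kernel) ?_
    refine jn 341 (by decide +kernel) ?_
    refine jn 347 (by decide +kernel) ?_
    refine jn 361 (by decide +kernel) ?_
    refine jn 375 (by decide +kernel) ?_
    refine jn 388 (by decide +kernel) ?_
    refine jn 401 (by decide +kernel) ?_
    refine jn 414 (by decide +kernel) ?_
    refine jn 427 (by decide +kernel) ?_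
    refine jn 440 (by decide +kernel) ?_
    refine jn 453 (by decide +kernel) ?_
    refine jn 468 (by decide +kernel) ?_
    refine jn 504 (by decide +kernel) ?_
    refine jn 511 (by decide +kernel) ?_
    refine jn 512 (by decide +kernel) ?_
    refine jn 513 (by decide +kernel) ?_
    refine jn 514 (by decide +kernel) ?_
    refine jn 515 (by decide +kernel) ?_
    refine jn 516 (by decide +kernel) ?_
    refine jn 517 (by decide +kernel) ?_
    refine jn 518 (by decide +kernel) ?_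
    refine jn 519 (by decide +kernel) ?_
    refine jn 520 (by decide +kernel) ?_
    refine jn 521 (by decide +kernel) ?_
    refine jn 522 (by decide +kernel) ?_
    refine jn 523 (by decide +kernel) ?_
    refine jn 527 (by decide +kernel) ?_
    refine jn 536 (by decide +kernel) ?_
    refine jn 540 (by decide +kernel) ?_
    refine jn 542 (by decide +kernel) ?_
    refine jn 543 (by decide +kernel) ?_
    refine jn 544 (by decide +kernel) ?_
    refine jn 546 (by decide +kernel) ?_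
    refine jn 548 (by decide +kernel) ?_
    refine jn 549 (by decide +kernel) ?_
    refine jn 557 (by decide +kernel) ?_
    refine jn 558 (by decide +kernel) ?_
    refine jn 569 (by decide +kernel) ?_
    refine jn 580 (by decide +kernel) ?_
    refine jn 591 (by decide +kernel) ?_
    refine jn 602 (by decide +kernel) ?_
    refine jn 611 (by decide +kernel) ?_
    refine jn 621 (by decide +kernel) ?_
    refine jn 629 (by decide +kernel) ?_
    refine jn 636 (by decide +kernel) ?_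
    refine jn 658 (by decide +kernel) ?_
    refine jn 684 (by decide +kernel) ?_
    refine jn 696 (by decide +kernel) ?_
    refine jn 703 (by decide +kernel) ?_
    refine jn 717 (by decide +kernel) ?_
    refine jn 730 (by decide +kernel) ?_
    refine jn 740 (by decide +kernel) ?_
    refine jn 767 (by decide +kernel) ?_
    refine jn 790 (by decide +kernel) ?_
    refine jn 832 (by decide +kernel) ?_
    refine jn 853 (by decide +kernel) ?_
    refine jn 862 (by decide +kernel) ?_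
    refine jn 869 (by decide +kernel) ?_
    refine jn 882 (by decide +kernel) ?_
    refine jn 934 (by decide +kernel) ?_
    refine jn 960 (by decide +kernel) ?_
    refine jn 967 (by decide +kernel) ?_
    refine jn 968 (by decide +kernel) ?_
    refine jn 969 (by decide +kernel) ?_
    refine jn 970 (by decide +kernel) ?_
    refine jn 971 (by decide +kernel) ?_
    refine jn 972 (by decide +kernel) ?_
    refine jn 973 (by decide +kernel) ?_
    refine jn 974 (by decide +kernel) ?_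
    refine jn 975 (by decide +kernel) ?_
    refine jn 976 (by decide +kernel) ?_
    refine jn 977 (by decide +kernel) ?_
    refine jn 978 (by decide +kernel) ?_
    refine jn 979 (by decide +kernel) ?_
    refine jn 980 (by decide +kernel) ?_
    refine jn 986 (by decide +kernel) ?_
    refine jn 990 (by decide +kernel) ?_
    refine jn 991 (by decide +kernel) ?_
    refine jn 992 (by decide +kernel) ?_
    refine jn 993 (by decide +kernel) ?_
    refine jn 994 (by decide +kernel) ?_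
    refine jn 995 (by decide +kernel) ?_
    refine jn 996 (by decide +kernel) ?_
    refine jn 997 (by decide +kernel) ?_
    refine jn 998 (by decide +kernel) ?_
    refine jn 999 (by decide +kernel) ?_
    refine jn 1001 (by decide +kernel) ?_
    refine jn 1002 (by decide +kernel) ?_
    refine jn 1005 (by decide +kernel) ?_
    refine jn 1008 (by decide +kernel) ?_
    refine jn 1011 (by decide +kernel) ?_
    refine jn 1013 (by decide +kernel) ?_
    refine jn 1014 (by decide +kernel) ?_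
    refine jn 1017 (by decide +kernel) ?_
    refine jn 1020 (by decide +kernel) ?_
    refine jn 1023 (by decide +kernel) ?_
    refine jn 1026 (by decide +kernel) ?_
    refine jn 1029 (by decide +kernel) ?_
    refine jn 1032 (by decide +kernel) ?_
    refine jn 1052 (by decide +kernel) ?_
    exact je (by decide +kernel)

end Pool.Agent.MP_2339ce_nt.NR
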