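import Pool.Agent.MP_2339ce_nt.Q2.NC.L9
import Pool.Agent.MP_2339ce_nt.Q2.NC.L10
import Pool.Agent.MP_2339ce_nt.Q2.CkI

/-! Block NR: runs. -/

set_option autoImplicit false
set_option maxRecDepth 100000

noncomputable section

namespace Pool.Agent.MP_2339ce_nt.NR

open Q2.Top

def T8_0 : Ph :=
  (.na 707 3 (.na 409 2 (.nx 408 2097153 (.nr 407 881745 (.nx 2 191 (.nr 1 14 (.lg 0 false 1 43 43
  5 0 720) (.l1 .sk)) (.nx 3 192 (.l1 .sk) (.nr 365 131073 (.nx 80 32769 (.lg 0 false 77 101 107 16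
  0 720720) (.nr 364 110219 (.nx 335 1048577 (.nr 168 1724 (.nr 157 901 (.lg 0 true 77 89 101 16 0
  55440) (.lg 2 true 11 97 97 9 111143 7920)) (.nx 334 832257 (.nx 245 52017 (.lg 1 false 77 97 107
  16 61460 720720) (.nr 333 77937 (.nr 256 3160 (.lg 2 true 11 89 97 9 46103 7920) (.lg 2 false 77
  97 109 16 27397 720720)) .out)) .out)) (.nr 363 129 (.lg 0 true 28 83 83 11 0 1008) .out)) .out))
  (.nx 406 8193 (.nx 393 324 (.lg 0 false 28 83 83 11 0 5040) (.nx 394 4096 .out (.nr 405 155873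
  (.lg 0 false 11 97 97 9 0 7920) .out))) .out)))) .out) .out) (.nx 706 3329023 (.nr 705 623489
  (.nx 412 192 (.nx 411 191 (.nr 410 26 (.lg 0 true 1 41 41 5 0 720) (.l1 .sk)) (.l1 .sk)) (.nx 689
  2097153 (.nx 666 1048577 (.nx 503 41287 (.nr 489 220437 (.lg 0 false 77 101 107 13 0 720720) (.nx
  502 324 (.lg 0 false 13 79 79 9 0 1872) .out)) (.nr 665 155873 (.nr 536 1025 (.lg 0 true 33 89 97
  13 0 7920) (.nx 664 832257 (.nr 547 2049 (.lg 2 true 11 83 83 9 77542 1584) (.nx 663 660563 (.nx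
  591 82572 (.nx 569 58387 (.lg 1 false 22 97 103 11 68950 55440) (.lg 1 false 22 97 103 11 48756
  55440)) (.nr 662 131073 (.nr 614 38969 (.nr 602 6051 (.lg 2 true 11 89 97 9 30788 55440) (.nx 613
  524289 (.lg 2 false 11 97 101 9 8651 55440) .out)) (.nx 661 262145 (.nr 627 77937 (.lg 2 false 13
  101 103 9 17259 65520) (.nx 660 208065 (.lg 2 false 33 101 107 13 28997 720720) .out)) .out))
  .out)) .out)) .out)) .out)) (.nr 688 129 (.lg 0 true 22 79 79 11 0 1584) .out)) (.nr 704 9 (.lg 0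
  true 15 67 67 9 0 720) .out))) .out) .out)) (.na 911 4 (.nx 910 6658044 (.nr 909 1482912 (.nx 876
  660563 (.nx 710 192 (.nx 709 191 (.nr 708 37 (.lg 0 true 1 37 37 5 0 72) (.l1 .sk)) (.l1 .sk))
  (.nx 750 32768 (.nr 738 185365 (.lg 0 false 28 101 107 16 0 720720) (.nx 749 324 (.lg 0 false 11
  83 83 16 0 792) .out)) (.nr 875 220437 (.nr 761 748 (.lg 0 true 11 89 89 16 0 792) (.nx 874
  524289 (.nr 772 6513 (.nr 768 3167 (.lg 2 true 7 89 97 13 66938 5040) (.lg 2 true 4 89 89 7 15810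
  720)) (.nx 800 52017 (.lg 1 false 28 97 109 16 122816 720720) (.nr 873 185365 (.nx 864 208065
  (.nx 828 96321 (.lg 1 false 28 101 107 16 65069 720720) (.nx 856 165142 (.lg 1 true 28 97 107 16
  35140 720720) (.nr 863 92683 (.lg 1 true 7 101 103 13 10259 720720) .out))) (.nr 872 38969 (.nr
  868 13397 (.lg 2 true 4 89 89 7 7688 720) (.lg 2 false 4 89 97 7 3738 720)) .out)) .out))) .out))
  .out))) (.nr 908 129 (.nx 887 2097153 (.lg 0 true 11 83 83 16 0 792) (.nr 907 13 (.lg 0 true 20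
  73 73 7 0 720) .out)) .out)) .out) .out) (.nx 1139 16777217 (.nr 1138 1246976 (.nx 914 192 (.nx
  913 191 (.nr 912 47 (.lg 0 true 1 37 37 9 0 720) (.l1 .sk)) (.l1 .sk)) (.nx 1069 524289 (.nx 951
  25113 (.nr 935 155873 (.lg 0 false 21 101 107 13 0 720720) (.nx 942 324 (.lg 0 false 7 83 83 11 0
  1008) (.nx 943 16384 .out (.nr 950 185365 (.lg 0 false 7 89 97 11 0 5040) .out)))) (.nr 1068
  220437 (.nr 971 2909 (.nr 964 729 (.lg 0 true 13 83 89 13 0 9360) (.lg 2 true 7 83 89 11 68683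
  5040)) (.nr 978 11603 (.lg 2 true 7 83 97 11 17212 5040) (.nx 1031 92682 (.nx 1018 65536 (.nr
  1017 185365 (.nx 1004 47601 (.nx 991 34575 (.lg 1 false 13 101 107 13 134779 720720) (.lg 1 false
  13 101 107 13 97894 720720)) (.lg 1 false 13 101 107 13 71106 720720)) .out) (.lg 1 false 13 101
  107 13 61408 720720)) (.nx 1060 208065 (.nx 1044 131073 (.lg 1 false 13 101 107 13 43422 720720)
  (.nr 1059 155873 (.nx 1051 165142 (.lg 1 true 7 101 103 11 21719 720720) (.nr 1058 131073 (.lg 1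
  true 7 101 103 11 14499 720720) .out)) .out)) (.nr 1067 55110 (.lg 2 false 7 89 97 11 4849 5040)
  .out))))) .out)) (.nr 1137 183 (.nx 1082 2097153 (.lg 0 true 13 83 83 13 0 1872) (.nr 1136 21
  (.nx 1108 8388609 (.lg 0 true 26 79 79 11 0 1872) (.lg 0 true 28 79 79 11 0 1008)) .out)) .out)))
  .out) .out)))

def T8_1 : Ph :=
  (.na 782 157 (.na 425 99 (.na 219 71 (.na 94 58 (.na 50 53 (.na 24 48 (.nx 23 2642247 (.nr 22
  881745 (.nr 1 44 .s1 (.nx 13 41287 (.nx 3 252 (.nr 2 540 (.lg 0 false 1 29 29 13 0 5040) (.l1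
  .sk)) (.nx 4 253 (.l1 .sk) (.nx 9 20644 (.lg 0 false 5 97 97 19 0 5040) (.nr 12 220437 (.lg 0
  false 3 97 97 13 0 5040) .out)))) (.nr 21 77937 (.nr 18 540 (.lg 0 true 5 73 73 19 0 5040) (.nx
  20 262145 (.lg 2 true 2 97 97 13 61168 5040) .out)) .out))) .out) .out) (.na 49 49 (.nx 48
  2642247 (.nr 47 881745 (.nr 25 46 .s1 (.nx 43 262145 (.nx 39 52017 (.nx 27 252 (.nr 26 551 (.l1
  (.ls 29 41 1325)) (.l1 .sk)) (.nx 28 253 (.l1 .sk) (.nr 33 220437 (.lg 0 false 5 83 97 29 0 5040)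
  (.nx 38 20644 (.lg 0 false 5 83 97 29 0 5040) .out)))) (.nr 42 65537 (.nr 40 1530 (.lg 0 false 1
  73 73 19 0 1008) (.lg 2 false 2 83 89 23 40160 1008)) .out)) (.nr 46 257 (.lg 0 true 3 71 71 29 0
  1008) .out))) .out) .out) (.lg 0 false 1 0 0 16 0 24))) (.na 73 54 (.nx 72 2642247 (.nr 71 881745
  (.nr 51 51 .s1 (.nx 54 253 (.nx 53 252 (.nr 52 607 (.l1 (.ls 19 29 1201)) (.l1 .sk)) (.l1 .sk))
  (.nx 59 32769 (.lg 0 false 5 97 97 16 0 2520) (.nr 70 92683 (.nr 64 607 (.lg 0 true 5 71 71 16 0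
  2520) (.nx 69 262145 (.lg 2 false 5 83 89 16 90053 2520) .out)) .out)))) .out) .out) (.na 74 56
  (.lg 0 false 1 0 0 16 0 24) (.nx 93 2642247 (.nr 92 881745 (.nr 75 54 .s1 (.nx 83 32769 (.nx 77
  252 (.nr 76 652 (.l1 (.ls 29 37 1136)) (.l1 .sk)) (.nx 78 253 (.l1 .sk) (.lg 0 false 5 89 97 23 0
  5040))) (.nr 91 92683 (.nr 88 652 (.lg 0 true 5 71 71 23 0 5040) (.nx 90 262145 (.lg 2 false 2 89
  89 19 90053 5040) .out)) .out))) .out) .out)))) (.na 161 65 (.na 114 63 (.nx 113 2642247 (.nr 112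
  881745 (.nr 95 56 .s1 (.nx 97 252 (.nr 96 708 (.l1 (.ls 23 37 1097)) (.l1 .sk)) (.nx 98 253 (.l1
  .sk) (.nx 103 41287 (.lg 0 false 5 97 97 19 0 5040) (.nr 111 77937 (.nr 108 708 (.lg 0 true 5 73
  73 19 0 5040) (.nx 110 262145 (.lg 2 true 2 89 89 13 60133 1008) .out)) .out))))) .out) .out)
  (.na 135 64 (.nx 134 2642247 (.nr 133 881745 (.nr 115 61 .s1 (.nx 118 253 (.nx 117 252 (.nr 116
  719 (.l1 (.ls 23 31 1010)) (.l1 .sk)) (.l1 .sk)) (.nx 123 32769 (.lg 0 false 5 83 89 23 0 2520)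
  (.nr 132 92683 (.nr 130 46342 (.nr 128 719 (.lg 0 true 5 71 71 23 0 2520) (.nx 129 262145 (.lg 2
  false 1 79 79 17 45940 504) .out)) (.nx 131 82572 (.lg 0 false 1 79 79 17 0 504) .out)) .out))))
  .out) .out) (.nx 160 2642247 (.nr 159 2097153 (.nr 136 63 .s1 (.nx 140 408 (.nx 138 252 (.nr 137
  731 (.l1 (.ls 41 31 995)) (.l1 .sk)) (.nx 139 253 (.l1 .sk) (.l1 (.ls 89 37 1603)))) (.nr 158
  1048577 (.nx 155 416129 (.nx 145 20644 (.lg 0 false 5 97 103 29 0 720720) (.nr 154 262145 (.nr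
  152 92683 (.nr 148 32769 (.nx 146 92683 (.lg 0 false 1 89 89 19 0 5040) (.nr 147 4894 (.lg 0 true
  1 89 89 19 0 5040) (.lg 2 false 1 83 83 19 11313 5040))) (.nx 151 165142 (.nx 149 52017 (.lg 0
  false 1 97 97 19 0 5040) (.nr 150 65537 (.lg 2 false 1 83 83 19 40160 5040) .out)) .out)) (.nx
  153 32769 (.lg 0 false 1 97 97 19 0 5040) .out)) .out)) (.nr 157 513 (.lg 0 true 2 79 83 23 0
  5040) .out)) .out))) .out) .out))) (.na 181 67 (.na 162 66 .ne (.nx 180 2642247 (.nr 179 2097153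
  (.nr 163 65 .s1 (.nx 170 32769 (.nx 164 408 (.l1 (.ls 83 47 2525)) (.nr 169 1048577 (.lg 0 false
  5 97 97 31 0 55440) .out)) (.nr 178 65537 (.nr 175 753 (.lg 0 true 5 73 73 31 0 55440) (.nx 177
  416129 (.lg 2 false 2 89 89 29 69632 55440) .out)) .out))) .out) .out)) (.na 200 69 (.nx 199
  2642247 (.nr 198 2097153 (.nr 182 66 .s1 (.nx 183 408 (.l1 (.ls 79 31 2487)) (.nr 197 1048577
  (.nx 188 32769 (.lg 0 false 5 89 89 16 0 2520) (.nr 196 65537 (.nr 193 776 (.lg 0 true 5 61 71 16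
  0 2520) (.nx 195 416129 (.lg 2 true 2 83 83 16 67568 1008) .out)) .out)) .out))) .out) .out) (.nx
  218 2642247 (.nr 217 2097153 (.nr 201 68 .s1 (.nx 202 408 (.l1 (.ls 79 41 2415)) (.nr 216 1048577
  (.nx 207 32769 (.lg 0 false 5 89 89 19 0 2520) (.nr 215 65537 (.nr 212 798 (.lg 0 true 5 71 71 19
  0 2520) (.nx 214 416129 (.lg 2 false 2 83 83 17 65705 1008) .out)) .out)) .out))) .out) .out)))))
  (.na 333 86 (.na 277 77 (.na 238 72 (.nx 237 2642247 (.nr 236 2097153 (.nr 220 70 .s1 (.nx 221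
  408 (.l1 (.ls 79 31 2347)) (.nr 235 1048577 (.nx 226 32769 (.lg 0 false 5 89 97 16 0 2520) (.nr
  234 65537 (.nr 231 809 (.lg 0 true 5 67 67 16 0 2520) (.nx 233 416129 (.lg 2 false 2 89 89 16
  64812 1008) .out)) .out)) .out))) .out) .out) (.na 258 74 (.nx 257 2642247 (.nr 256 2097153 (.nr
  239 71 .s1 (.nx 249 20644 (.nx 243 408 (.nx 241 252 (.nr 240 832 (.l1 (.ls 31 37 884)) (.l1 .sk))
  (.nx 242 253 (.l1 .sk) (.l1 (.ls 83 41 1425)))) (.nr 248 1048577 (.lg 0 false 5 89 101 31 0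
  55440) .out)) (.nr 255 262145 (.nx 250 32769 (.lg 0 false 1 89 89 23 0 1008) (.nr 254 65537 (.nr
  252 832 (.lg 0 true 2 79 79 29 0 1008) (.nx 253 416129 (.lg 2 false 1 97 97 23 63749 11088)
  .out)) .out)) .out))) .out) .out) (.nx 276 2642247 (.nr 275 2097153 (.nr 259 73 .s1 (.nx 266
  32769 (.nx 260 408 (.l1 (.ls 83 43 2252)) (.nr 265 1048577 (.lg 0 false 5 89 97 23 0 5040) .out))
  (.nr 274 65537 (.nr 271 866 (.lg 0 true 5 73 73 23 0 5040) (.nx 273 416129 (.lg 2 false 2 83 83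
  19 63749 1008) .out)) .out))) .out) .out))) (.na 315 81 (.na 296 79 (.nx 295 2642247 (.nr 294
  2097153 (.nr 278 76 .s1 (.nx 285 32769 (.nx 279 408 (.l1 (.ls 73 37 2164)) (.nr 284 1048577 (.lg
  0 false 5 89 89 19 0 27720) .out)) (.nr 293 65537 (.nr 290 888 (.lg 0 true 5 71 71 19 0 27720)
  (.nx 292 416129 (.lg 2 true 2 83 83 17 63749 11088) .out)) .out))) .out) .out) (.nx 314 2642247
  (.nr 313 2097153 (.nr 297 78 .s1 (.nx 298 408 (.l1 (.ls 73 29 2110)) (.nr 312 1048577 (.nx 303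
  32769 (.lg 0 false 5 89 97 17 0 2520) (.nr 311 65537 (.nr 308 910 (.lg 0 true 5 67 71 17 0 2520)
  (.nx 310 416129 (.lg 2 true 2 83 83 16 63749 1008) .out)) .out)) .out))) .out) .out)) (.na 316 84
  (.lg 0 false 1 0 0 16 0 24) (.nx 332 2642247 (.nr 331 2097153 (.nr 317 83 .s1 (.nx 324 32769 (.nx
  318 408 (.l1 (.ls 79 43 1984)) (.nr 323 1048577 (.lg 0 false 5 83 89 31 0 5040) .out)) (.nr 330
  65537 (.nr 327 967 (.lg 0 true 3 71 71 29 0 1008) (.nx 329 416129 (.lg 2 true 2 79 79 29 63749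
  1008) .out)) .out))) .out) .out)))) (.na 389 91 (.na 352 87 (.nx 351 2642247 (.nr 350 2097153
  (.nr 334 85 .s1 (.nx 335 408 (.l1 (.ls 83 37 1938)) (.nr 349 1048577 (.nx 340 32769 (.lg 0 false
  5 89 97 23 0 5040) (.nr 348 65537 (.nr 345 978 (.lg 0 true 5 73 73 23 0 5040) (.nx 347 416129
  (.lg 2 true 2 83 83 19 63749 1008) .out)) .out)) .out))) .out) .out) (.na 371 88 (.nx 370 2642247
  (.nr 369 2097153 (.nr 353 86 .s1 (.nx 360 32769 (.nx 354 408 (.l1 (.ls 73 37 1916)) (.nr 359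
  1048577 (.lg 0 false 5 83 89 19 0 2520) .out)) (.nr 368 65537 (.nr 365 989 (.lg 0 true 5 67 67 19
  0 2520) (.nx 367 416129 (.lg 2 false 2 79 79 17 63749 1008) .out)) .out))) .out) .out) (.nx 388
  2642247 (.nr 387 2097153 (.nr 372 87 .s1 (.nx 376 408 (.nx 374 252 (.nr 373 1023 (.l1 (.ls 31 37
  724)) (.l1 .sk)) (.nx 375 253 (.l1 .sk) (.l1 (.ls 83 41 1167)))) (.nr 386 1048577 (.nx 381 32769
  (.lg 0 false 5 89 97 31 0 55440) (.nr 385 65537 (.nr 383 1023 (.lg 0 true 2 73 73 29 0 11088)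
  (.nx 384 416129 (.lg 2 true 1 89 89 23 63749 11088) .out)) .out)) .out))) .out) .out))) (.na 408
  96 (.na 390 92 .ne (.nx 407 2642247 (.nr 406 2097153 (.nr 391 91 .s1 (.nx 395 408 (.nx 393 252
  (.nr 392 1079 (.l1 (.ls 19 37 693)) (.l1 .sk)) (.nx 394 253 (.l1 .sk) (.l1 (.ls 83 41 1116))))
  (.nr 405 1482912 (.nx 400 31753 (.lg 0 false 5 97 101 31 0 5040) (.nr 404 65537 (.nr 402 1079
  (.lg 0 true 2 79 79 19 0 1008) (.nx 403 416129 (.lg 2 false 1 89 89 19 65788 1008) .out)) .out))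
  .out))) .out) .out)) (.na 424 98 (.nx 423 2642247 (.nr 422 2097153 (.nr 409 95 .s1 (.nx 411 252
  (.nr 410 1102 (.l1 (.ls 37 37 664)) (.l1 .sk)) (.nx 412 253 (.l1 .sk) (.nx 413 408 (.l1 (.ls 83
  41 1070)) (.nr 421 1482912 (.nx 415 26009 (.lg 0 false 2 97 101 29 0 5040) (.nr 420 65537 (.nx
  416 31753 (.lg 0 false 1 73 73 23 0 5040) (.nr 418 1102 (.lg 0 true 2 79 79 31 0 1008) (.nx 419
  416129 (.lg 2 false 1 89 89 23 65788 5040) .out))) .out)) .out))))) .out) .out) (.lg 0 false 1 0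
  0 16 0 24)))))) (.na 609 129 (.na 507 112 (.na 474 108 (.na 441 106 (.nx 440 2642247 (.nr 439
  2097153 (.nr 426 98 .s1 (.nx 429 253 (.nx 428 252 (.nr 427 1191 (.l1 (.ls 37 31 644)) (.l1 .sk))
  (.l1 .sk)) (.nx 433 26009 (.nx 430 408 (.l1 (.ls 83 31 1037)) (.nr 432 1482912 (.lg 0 false 2 101
  101 23 0 55440) .out)) (.nr 438 65537 (.nx 434 31753 (.lg 0 false 1 73 73 23 0 27720) (.nr 436
  1191 (.lg 0 true 2 83 83 23 0 55440) (.nx 437 416129 (.lg 2 true 1 89 89 23 65788 27720) .out)))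
  .out)))) .out) .out) (.na 458 107 (.nx 457 2642247 (.nr 456 2097153 (.nr 442 105 .s1 (.nx 443 408
  (.l1 (.ls 79 37 1573)) (.nr 455 1482912 (.nx 448 31753 (.lg 0 false 5 89 97 23 0 5040) (.nr 454
  65537 (.nr 451 1203 (.lg 0 true 3 73 73 23 0 1008) (.nx 453 416129 (.lg 2 false 2 79 79 19 65788
  1008) .out)) .out)) .out))) .out) .out) (.nx 473 2642247 (.nr 472 2097153 (.nr 459 106 .s1 (.nx
  466 31753 (.nx 460 408 (.l1 (.ls 71 29 1558)) (.nr 465 1482912 (.lg 0 false 5 83 83 17 0 2520)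
  .out)) (.nr 471 65537 (.nr 469 1214 (.lg 0 true 3 61 61 16 0 504) (.nx 470 416129 (.lg 2 false 1
  79 79 16 65788 504) .out)) .out))) .out) .out))) (.na 475 109 (.lg 0 false 1 0 0 16 0 24) (.na
  491 111 (.nx 490 2642247 (.nr 489 2097153 (.nr 476 108 .s1 (.nx 483 31753 (.nx 477 408 (.l1 (.ls
  71 29 1530)) (.nr 482 1482912 (.lg 0 false 5 79 83 17 0 2520) .out)) (.nr 488 65537 (.nr 486 1248
  (.lg 0 true 3 67 67 16 0 504) (.nx 487 416129 (.lg 2 false 1 79 79 16 65788 2520) .out)) .out)))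
  .out) .out) (.nx 506 2642247 (.nr 505 2097153 (.nr 492 110 .s1 (.nx 499 31753 (.nx 493 408 (.l1
  (.ls 73 31 1502)) (.nr 498 1482912 (.lg 0 false 5 83 89 19 0 2520) .out)) (.nr 504 65537 (.nr 502
  1259 (.lg 0 true 3 71 71 19 0 504) (.nx 503 416129 (.lg 2 false 1 79 79 17 65788 504) .out))
  .out))) .out) .out)))) (.na 551 121 (.na 522 113 (.nx 521 2642247 (.nr 520 2097153 (.nr 508 111
  .s1 (.nx 509 408 (.l1 (.ls 79 41 1489)) (.nr 519 1482912 (.nx 514 31753 (.lg 0 false 5 89 97 31 0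
  55440) (.nr 518 65537 (.nr 516 513 (.lg 0 true 2 67 67 29 0 1008) (.nx 517 416129 (.lg 2 false 1
  89 89 23 102208 1008) .out)) .out)) .out))) .out) .out) (.na 538 116 (.nx 537 2642247 (.nr 536
  2097153 (.nr 523 112 .s1 (.nx 524 408 (.l1 (.ls 71 29 1476)) (.nr 535 1482912 (.nx 529 31753 (.lg
  0 false 5 79 79 17 0 2520) (.nr 534 65537 (.nr 532 1304 (.lg 0 true 3 61 61 16 0 504) (.nx 533
  416129 (.lg 2 false 1 73 73 16 65788 504) .out)) .out)) .out))) .out) .out) (.nx 550 2642247 (.nr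
  549 2097153 (.nr 539 115 .s1 (.nx 540 408 (.l1 (.ls 89 41 1438)) (.nr 548 1482912 (.nx 543 31753
  (.lg 0 false 3 101 103 23 0 55440) (.nr 547 65537 (.nr 545 513 (.lg 0 true 2 73 73 23 0 1008)
  (.nx 546 416129 (.lg 2 false 1 97 97 19 102208 1008) .out)) .out)) .out))) .out) .out))) (.na 578
  127 (.na 565 126 (.nx 564 2642247 (.nr 563 2097153 (.nr 552 120 .s1 (.nx 559 31753 (.nx 553 408
  (.l1 (.ls 73 31 1378)) (.nr 558 1482912 (.lg 0 false 5 83 83 19 0 27720) .out)) (.nr 562 65537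
  (.nr 560 513 (.lg 0 false 1 71 71 17 0 5544) (.nx 561 416129 (.lg 2 false 1 83 83 17 102208
  27720) .out)) .out))) .out) .out) (.nx 577 2642247 (.nr 576 2097153 (.nr 566 125 .s1 (.nx 571
  31753 (.nx 567 408 (.l1 (.ls 79 43 1324)) (.nr 570 1482912 (.lg 0 false 3 97 97 31 0 55440)
  .out)) (.nr 575 65537 (.nr 573 513 (.lg 0 true 2 67 67 31 0 1008) (.nx 574 416129 (.lg 2 false 1
  83 83 29 102208 1008) .out)) .out))) .out) .out)) (.na 593 128 (.nx 592 2642247 (.nr 591 2097153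
  (.nr 579 127 .s1 (.nx 586 31753 (.nx 580 408 (.l1 (.ls 71 29 1313)) (.nr 585 1482912 (.lg 0 false
  5 79 83 17 0 2520) .out)) (.nr 590 65537 (.nr 588 513 (.lg 0 true 2 59 59 16 0 1008) (.nx 589
  416129 (.lg 2 false 1 79 79 16 102208 504) .out)) .out))) .out) .out) (.nx 608 2642247 (.nr 607
  2097153 (.nr 594 128 .s1 (.nx 597 253 (.nx 596 252 (.nr 595 1450 (.l1 (.ls 37 29 499)) (.l1 .sk))
  (.l1 .sk)) (.nx 602 26009 (.lg 0 false 5 97 103 37 0 720720) (.nr 606 65537 (.nx 603 31753 (.lg 0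
  false 1 71 73 29 0 1008) (.nr 604 1025 (.lg 0 true 1 79 79 23 0 1008) (.nx 605 416129 (.lg 2 true
  1 83 89 23 65788 1008) .out))) .out)))) .out) .out))))) (.na 691 142 (.na 644 134 (.na 625 131
  (.nx 624 1321124 (.nr 623 2097153 (.nr 610 129 .s1 (.nx 618 26009 (.nx 612 252 (.nr 611 1472 (.l1
  (.ls 23 29 495)) (.l1 .sk)) (.nx 613 253 (.l1 .sk) (.lg 0 false 5 83 89 23 0 2520))) (.nr 622
  65537 (.nx 620 165142 (.lg 0 false 2 83 83 19 0 5040) (.nr 621 1025 (.lg 0 false 1 71 71 17 0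
  504) .out)) .out))) .out) .out) (.na 626 132 (.lg 0 false 1 0 0 16 0 24) (.nx 643 1321124 (.nr
  642 2097153 (.nr 627 132 .s1 (.nx 629 252 (.nr 628 1506 (.l1 (.ls 31 41 484)) (.l1 .sk)) (.nx 630
  253 (.l1 .sk) (.nx 637 41287 (.nx 635 26009 (.lg 0 false 5 89 97 41 0 55440) (.nr 636 65537 (.lg
  0 false 1 73 73 31 0 11088) .out)) (.nr 641 16385 (.nr 639 1025 (.lg 0 true 2 71 71 31 0 11088)
  (.nx 640 165142 (.lg 2 true 1 71 71 31 20301 11088) .out)) .out))))) .out) .out))) (.na 675 138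
  (.na 660 137 (.nx 659 1321124 (.nr 658 2097153 (.nr 645 134 .s1 (.nx 647 252 (.nr 646 1540 (.l1
  (.ls 23 29 476)) (.l1 .sk)) (.nx 648 253 (.l1 .sk) (.nx 656 165142 (.nx 653 26009 (.lg 0 false 5
  89 89 29 0 5040) (.nr 655 65537 (.lg 0 true 2 83 83 23 0 5040) .out)) (.nr 657 1025 (.lg 0 false
  1 73 73 19 0 5040) .out))))) .out) .out) (.nx 674 1321124 (.nr 673 2097153 (.nr 661 137 .s1 (.nx
  669 41287 (.nx 663 252 (.nr 662 1551 (.l1 (.ls 19 19 466)) (.l1 .sk)) (.nx 664 253 (.l1 .sk) (.lg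
  0 false 5 83 83 17 0 2520))) (.nr 672 16385 (.nr 670 1025 (.lg 0 false 1 67 67 16 0 5544) (.nx
  671 165142 (.lg 2 false 1 59 59 16 20301 504) .out)) .out))) .out) .out)) (.na 690 139 (.nx 689
  1321124 (.nr 688 2097153 (.nr 676 138 .s1 (.nx 679 253 (.nx 678 252 (.nr 677 1562 (.l1 (.ls 19 41
  463)) (.l1 .sk)) (.l1 .sk)) (.nx 684 41287 (.lg 0 false 5 89 89 37 0 5040) (.nr 687 16385 (.nr
  685 1025 (.lg 0 false 1 71 71 19 0 1008) (.nx 686 165142 (.lg 2 false 1 67 67 19 20301 11088)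
  .out)) .out)))) .out) .out) (.lg 0 false 1 0 0 16 0 24)))) (.na 722 148 (.na 706 144 (.nx 705
  1321124 (.nr 704 2097153 (.nr 692 142 .s1 (.nx 694 252 (.nr 693 1618 (.l1 (.ls 19 29 450)) (.l1
  .sk)) (.nx 695 253 (.l1 .sk) (.nx 700 41287 (.lg 0 false 5 89 89 29 0 5040) (.nr 703 16385 (.nr
  701 1025 (.lg 0 false 1 71 71 19 0 1008) (.nx 702 165142 (.lg 2 false 1 61 61 19 20301 1008)
  .out)) .out))))) .out) .out) (.na 721 147 (.nx 720 1321124 (.nr 719 2097153 (.nr 707 144 .s1 (.nx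
  709 252 (.nr 708 1652 (.l1 (.ls 41 37 443)) (.l1 .sk)) (.nx 710 253 (.l1 .sk) (.nr 715 262145
  (.nx 711 41287 (.lg 0 false 1 97 101 31 0 5040) (.nr 714 16385 (.nx 712 165142 (.lg 0 true 1 83
  89 31 0 5040) (.nr 713 1025 (.lg 0 true 1 79 79 31 0 1008) .out)) .out)) (.nx 718 20644 (.nr 716
  1482912 (.lg 0 false 1 97 101 31 0 5040) (.nx 717 8192 .out (.lg 0 false 1 89 97 31 0 5040)))
  .out))))) .out) .out) (.lg 0 false 1 0 0 16 0 24))) (.na 752 151 (.na 737 149 (.nx 736 1321124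
  (.nr 735 2097153 (.nr 723 148 .s1 (.nx 733 165142 (.nx 725 252 (.nr 724 1675 (.l1 (.ls 29 29
  432)) (.l1 .sk)) (.nx 726 253 (.l1 .sk) (.nx 731 26009 (.lg 0 false 5 89 97 31 0 5040) (.nr 732
  65537 (.lg 0 false 1 89 89 23 0 1008) .out)))) (.nr 734 1025 (.lg 0 true 1 71 71 23 0 1008)
  .out))) .out) .out) (.nx 751 1321124 (.nr 750 2097153 (.nr 738 149 .s1 (.nx 746 41287 (.nx 740
  252 (.nr 739 1697 (.l1 (.ls 23 19 429)) (.l1 .sk)) (.nx 741 253 (.l1 .sk) (.lg 0 false 5 83 83 19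
  0 2520))) (.nr 749 16385 (.nr 747 1025 (.lg 0 false 1 67 67 16 0 504) (.nx 748 165142 (.lg 2
  false 1 59 59 16 20301 504) .out)) .out))) .out) .out)) (.na 767 154 (.nx 766 1321124 (.nr 765
  2097153 (.nr 753 151 .s1 (.nx 763 165142 (.nx 755 252 (.nr 754 1731 (.l1 (.ls 19 19 423)) (.l1
  .sk)) (.nx 756 253 (.l1 .sk) (.nx 761 26009 (.lg 0 false 5 79 79 19 0 2520) (.nr 762 65537 (.lg 0
  false 1 79 79 16 0 2520) .out)))) (.nr 764 1025 (.lg 0 false 1 67 67 16 0 2520) .out))) .out)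
  .out) (.nx 781 1321124 (.nr 780 2097153 (.nr 768 154 .s1 (.nx 778 165142 (.nx 770 252 (.nr 769
  1765 (.l1 (.ls 29 37 415)) (.l1 .sk)) (.nx 771 253 (.l1 .sk) (.nx 776 26009 (.lg 0 false 5 83 89
  37 0 55440) (.nr 777 65537 (.lg 0 false 1 83 83 29 0 11088) .out)))) (.nr 779 1025 (.lg 0 false 1
  71 71 29 0 55440) .out))) .out) .out))))))) (.na 1038 211 (.na 916 181 (.na 844 167 (.na 813 161
  (.na 783 158 (.lg 0 false 1 0 0 16 0 24) (.na 798 159 (.nx 797 1321124 (.nr 796 2097153 (.nr 784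
  158 .s1 (.nx 792 41287 (.nx 786 252 (.nr 785 1787 (.l1 (.ls 19 29 404)) (.l1 .sk)) (.nx 787 253
  (.l1 .sk) (.lg 0 false 5 89 89 29 0 5040))) (.nr 795 16385 (.nr 793 1025 (.lg 0 false 1 67 67 19
  0 1008) (.nx 794 165142 (.lg 2 false 1 59 59 19 20301 1008) .out)) .out))) .out) .out) (.nx 812
  1321124 (.nr 811 2097153 (.nr 799 159 .s1 (.nx 801 252 (.nr 800 1809 (.l1 (.ls 23 23 402)) (.l1
  .sk)) (.nx 802 253 (.l1 .sk) (.nx 807 41287 (.lg 0 false 5 89 89 23 0 2520) (.nr 810 16385 (.nr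
  808 1025 (.lg 0 false 1 71 71 17 0 504) (.nx 809 165142 (.lg 2 false 1 61 61 17 20301 504) .out))
  .out))))) .out) .out))) (.na 828 162 (.nx 827 1321124 (.nr 826 2097153 (.nr 814 161 .s1 (.nx 816
  252 (.nr 815 1821 (.l1 (.ls 19 19 397)) (.l1 .sk)) (.nx 817 253 (.l1 .sk) (.nx 822 41287 (.lg 0
  false 5 83 89 19 0 2520) (.nr 825 16385 (.nr 823 1025 (.lg 0 false 1 71 71 17 0 2520) (.nx 824
  165142 (.lg 2 false 1 59 59 17 20301 504) .out)) .out))))) .out) .out) (.na 829 163 (.lg 0 false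
  1 0 0 16 0 24) (.nx 843 1321124 (.nr 842 2097153 (.nr 830 163 .s1 (.nx 833 253 (.nx 832 252 (.nr
  831 1877 (.l1 (.ls 17 19 392)) (.l1 .sk)) (.l1 .sk)) (.nx 838 41287 (.lg 0 false 5 79 83 19 0
  2520) (.nr 841 16385 (.nr 839 1025 (.lg 0 false 1 61 61 16 0 504) (.nx 840 165142 (.lg 2 false 1
  53 53 16 20301 504) .out)) .out)))) .out) .out)))) (.na 875 173 (.na 845 168 (.lg 0 false 1 0 0
  16 0 24) (.na 860 172 (.nx 859 1321124 (.nr 858 2097153 (.nr 846 168 .s1 (.nx 854 41287 (.nx 848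
  252 (.nr 847 1933 (.l1 (.ls 19 37 380)) (.l1 .sk)) (.nx 849 253 (.l1 .sk) (.lg 0 false 5 83 83 37
  0 5040))) (.nr 857 16385 (.nr 855 1025 (.lg 0 false 1 67 67 29 0 1008) (.nx 856 165142 (.lg 2
  false 1 59 59 29 20301 1008) .out)) .out))) .out) .out) (.nx 874 1321124 (.nr 873 2097153 (.nr
  861 172 .s1 (.nx 864 253 (.nx 863 252 (.nr 862 1944 (.l1 (.ls 29 29 372)) (.l1 .sk)) (.l1 .sk))
  (.nx 871 165142 (.nx 869 26009 (.lg 0 false 5 83 97 31 0 5040) (.nr 870 65537 (.lg 0 true 1 83 83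
  23 0 1008) .out)) (.nr 872 1025 (.lg 0 true 1 67 67 23 0 1008) .out)))) .out) .out))) (.na 889
  176 (.na 876 174 (.lg 0 false 1 0 0 16 0 24) (.nx 888 1321124 (.nr 887 2097153 (.nr 877 174 .s1
  (.nx 880 253 (.nx 879 252 (.nr 878 1978 (.l1 (.ls 23 37 367)) (.l1 .sk)) (.l1 .sk)) (.nx 885
  165142 (.nx 883 26009 (.lg 0 false 3 89 89 37 0 5040) (.nr 884 65537 (.lg 0 false 1 83 83 23 0
  5040) .out)) (.nr 886 1025 (.lg 0 false 1 71 71 23 0 5040) .out)))) .out) .out)) (.na 903 179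
  (.nx 902 1321124 (.nr 901 2097153 (.nr 890 176 .s1 (.nx 893 253 (.nx 892 252 (.nr 891 2012 (.l1
  (.ls 41 31 363)) (.l1 .sk)) (.l1 .sk)) (.nx 895 20644 (.lg 0 false 2 97 101 37 0 55440) (.nr 900
  262145 (.nx 896 41287 (.lg 0 false 1 89 89 31 0 55440) (.nr 899 16385 (.nx 897 165142 (.lg 0 true
  1 83 83 31 0 55440) (.nr 898 1025 (.lg 0 true 1 73 73 31 0 11088) .out)) .out)) .out)))) .out)
  .out) (.nx 915 1321124 (.nr 914 2097153 (.nr 904 179 .s1 (.nx 910 26009 (.nx 906 252 (.nr 905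
  2034 (.l1 (.ls 19 19 357)) (.l1 .sk)) (.nx 907 253 (.l1 .sk) (.lg 0 false 3 79 79 17 0 504)))
  (.nr 913 65537 (.nx 911 165142 (.lg 0 false 1 79 79 16 0 2520) (.nr 912 1025 (.lg 0 false 1 61 61
  16 0 2520) .out)) .out))) .out) .out))))) (.na 970 196 (.na 930 189 (.na 917 182 (.lg 0 false 1 0
  0 16 0 24) (.na 918 184 .ne (.nx 929 1321124 (.nr 928 1482912 (.nr 919 184 .s1 (.nx 921 252 (.nr
  920 2124 (.l1 (.ls 19 31 348)) (.l1 .sk)) (.nx 922 253 (.l1 .sk) (.nx 924 26009 (.lg 0 false 2 97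
  97 31 0 5040) (.nr 927 65537 (.nx 925 165142 (.lg 0 false 1 89 89 19 0 5040) (.nr 926 1025 (.lg 0
  true 1 71 71 19 0 1008) .out)) .out))))) .out) .out))) (.na 944 192 (.na 931 191 (.lg 0 false 1 0
  0 16 0 24) (.nx 943 1321124 (.nr 942 1482912 (.nr 932 191 .s1 (.nx 938 41287 (.nx 934 252 (.nr
  933 2158 (.l1 (.ls 19 19 335)) (.l1 .sk)) (.nx 935 253 (.l1 .sk) (.lg 0 false 3 79 79 17 0
  2520))) (.nr 941 16385 (.nr 939 1025 (.lg 0 false 1 61 61 16 0 2520) (.nx 940 165142 (.lg 2 false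
  1 53 53 16 20301 504) .out)) .out))) .out) .out)) (.na 955 193 (.nx 954 1321124 (.nr 953 1482912
  (.nr 945 192 .s1 (.nx 948 253 (.nx 947 252 (.nr 946 2169 (.l1 (.ls 37 31 333)) (.l1 .sk)) (.l1
  .sk)) (.nx 951 165142 (.nr 949 65537 (.lg 0 true 1 89 89 31 0 11088) (.nx 950 26009 (.lg 0 false
  1 97 97 31 0 11088) .out)) (.nr 952 1025 (.lg 0 true 1 71 71 31 0 1008) .out)))) .out) .out) (.nx
  969 1321124 (.nr 968 1482912 (.nr 956 193 .s1 (.nx 959 253 (.nx 958 252 (.nr 957 2203 (.l1 (.ls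
  19 19 332)) (.l1 .sk)) (.l1 .sk)) (.nx 964 41287 (.lg 0 false 5 79 79 19 0 2520) (.nr 967 16385
  (.nr 965 1025 (.lg 0 false 1 61 61 16 0 5544) (.nx 966 165142 (.lg 2 false 1 53 53 16 20301 504)
  .out)) .out)))) .out) .out)))) (.na 998 199 (.na 971 197 (.lg 0 false 1 0 0 16 0 24) (.na 986 198
  (.nx 985 1321124 (.nr 984 1482912 (.nr 972 197 .s1 (.nx 975 253 (.nx 974 252 (.nr 973 2225 (.l1
  (.ls 17 19 325)) (.l1 .sk)) (.l1 .sk)) (.nx 980 41287 (.lg 0 false 5 79 79 19 0 2520) (.nr 983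
  16385 (.nr 981 1025 (.lg 0 false 1 61 61 16 0 504) (.nx 982 165142 (.lg 2 false 1 53 53 16 20301
  504) .out)) .out)))) .out) .out) (.nx 997 1321124 (.nr 996 1482912 (.nr 987 198 .s1 (.nx 994
  165142 (.nx 989 252 (.nr 988 2236 (.l1 (.ls 31 37 323)) (.l1 .sk)) (.nx 990 253 (.l1 .sk) (.nr
  991 65537 (.lg 0 true 1 89 89 37 0 11088) (.nx 993 26009 (.lg 0 false 2 83 97 41 0 11088)
  .out)))) (.nr 995 1025 (.lg 0 true 1 71 71 37 0 11088) .out))) .out) .out))) (.na 1012 203 (.na
  999 201 (.lg 0 false 1 0 0 16 0 24) (.nx 1011 1321124 (.nr 1010 1482912 (.nr 1000 201 .s1 (.nx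
  1003 253 (.nx 1002 252 (.nr 1001 2281 (.l1 (.ls 19 23 318)) (.l1 .sk)) (.l1 .sk)) (.nx 1006 41287
  (.lg 0 false 3 83 83 23 0 2520) (.nr 1009 16385 (.nr 1007 1025 (.lg 0 false 1 67 67 19 0 2520)
  (.nx 1008 165142 (.lg 2 false 1 53 53 19 20301 504) .out)) .out)))) .out) .out)) (.na 1027 207
  (.nx 1026 1321124 (.nr 1025 1482912 (.nr 1013 203 .s1 (.nx 1016 253 (.nx 1015 252 (.nr 1014 2326
  (.l1 (.ls 17 23 315)) (.l1 .sk)) (.l1 .sk)) (.nx 1021 41287 (.lg 0 false 5 79 83 23 0 2520) (.nr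
  1024 16385 (.nr 1022 1025 (.lg 0 false 1 67 67 17 0 5544) (.nx 1023 165142 (.lg 2 false 1 59 59
  17 20301 504) .out)) .out)))) .out) .out) (.nx 1037 1321124 (.nr 1036 1482912 (.nr 1028 207 .s1
  (.nx 1034 165142 (.nx 1030 252 (.nr 1029 2371 (.l1 (.ls 19 19 309)) (.l1 .sk)) (.nx 1031 253 (.l1
  .sk) (.nr 1032 65537 (.lg 0 true 1 83 83 19 0 504) (.nx 1033 26009 (.lg 0 false 1 89 89 19 0 504)
  .out)))) (.nr 1035 1025 (.lg 0 true 1 67 67 19 0 504) .out))) .out) .out)))))) (.na 1159 232 (.na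
  1107 222 (.na 1078 214 (.na 1051 212 (.nx 1050 1321124 (.nr 1049 1482912 (.nr 1039 211 .s1 (.nx
  1041 252 (.nr 1040 2383 (.l1 (.ls 19 19 303)) (.l1 .sk)) (.nx 1042 253 (.l1 .sk) (.nx 1045 41287
  (.lg 0 false 3 79 79 17 0 504) (.nr 1048 16385 (.nr 1046 1025 (.lg 0 false 1 61 61 16 0 2520)
  (.nx 1047 165142 (.lg 2 false 1 53 53 16 20301 504) .out)) .out))))) .out) .out) (.na 1063 213
  (.nx 1062 1321124 (.nr 1061 1482912 (.nr 1052 212 .s1 (.nx 1059 165142 (.nx 1057 26009 (.nx 1054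
  252 (.nr 1053 2394 (.l1 (.ls 29 29 302)) (.l1 .sk)) (.nx 1055 253 (.l1 .sk) (.lg 0 false 2 83 89
  29 0 1008))) (.nr 1058 65537 (.lg 0 true 1 83 83 23 0 1008) .out)) (.nr 1060 1025 (.lg 0 true 1
  67 67 23 0 1008) .out))) .out) .out) (.nx 1077 1321124 (.nr 1076 1482912 (.nr 1064 213 .s1 (.nx
  1072 41287 (.nx 1066 252 (.nr 1065 2405 (.l1 (.ls 17 23 301)) (.l1 .sk)) (.nx 1067 253 (.l1 .sk)
  (.lg 0 false 5 79 79 23 0 2520))) (.nr 1075 16385 (.nr 1073 1025 (.lg 0 false 1 59 59 19 0 504)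
  (.nx 1074 165142 (.lg 2 true 1 47 47 19 20301 504) .out)) .out))) .out) .out))) (.na 1091 216
  (.nx 1090 1321124 (.nr 1089 1482912 (.nr 1079 214 .s1 (.nx 1082 253 (.nx 1081 252 (.nr 1080 2427
  (.l1 (.ls 23 29 299)) (.l1 .sk)) (.l1 .sk)) (.nx 1085 41287 (.lg 0 false 3 83 83 29 0 1008) (.nr
  1088 16385 (.nr 1086 1025 (.lg 0 false 1 67 67 23 0 55440) (.nx 1087 165142 (.lg 2 false 1 59 59
  23 20301 1008) .out)) .out)))) .out) .out) (.na 1092 218 (.lg 0 false 1 0 0 16 0 24) (.nx 1106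
  1321124 (.nr 1105 1482912 (.nr 1093 218 .s1 (.nx 1096 253 (.nx 1095 252 (.nr 1094 2495 (.l1 (.ls
  19 29 294)) (.l1 .sk)) (.l1 .sk)) (.nx 1101 41287 (.lg 0 false 5 79 79 29 0 5040) (.nr 1104 16385
  (.nr 1102 1025 (.lg 0 false 1 61 61 23 0 1008) (.nx 1103 165142 (.lg 2 false 1 53 53 23 20301
  1008) .out)) .out)))) .out) .out)))) (.na 1134 226 (.na 1122 223 (.nx 1121 1321124 (.nr 1120
  1482912 (.nr 1108 222 .s1 (.nx 1111 253 (.nx 1110 252 (.nr 1109 2506 (.l1 (.ls 19 31 289)) (.l1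
  .sk)) (.l1 .sk)) (.nx 1116 41287 (.lg 0 false 5 83 83 31 0 5040) (.nr 1119 16385 (.nr 1117 1025
  (.lg 0 false 1 67 67 29 0 1008) (.nx 1118 165142 (.lg 2 true 1 59 59 29 20301 1008) .out))
  .out)))) .out) .out) (.na 1123 224 (.lg 0 false 1 0 0 16 0 24) (.nx 1133 1321124 (.nr 1132
  1482912 (.nr 1124 224 .s1 (.nx 1130 165142 (.nx 1126 252 (.nr 1125 2540 (.l1 (.ls 37 31 286))
  (.l1 .sk)) (.nx 1127 253 (.l1 .sk) (.nr 1128 65537 (.lg 0 false 1 83 89 29 0 5040) (.nx 1129
  26009 (.lg 0 false 1 97 97 29 0 5040) .out)))) (.nr 1131 1025 (.lg 0 true 1 67 67 31 0 1008)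
  .out))) .out) .out))) (.na 1147 229 (.na 1146 227 (.nx 1145 1321124 (.nr 1144 1482912 (.nr 1135
  226 .s1 (.nx 1138 253 (.nx 1137 252 (.nr 1136 2551 (.l1 (.ls 23 29 283)) (.l1 .sk)) (.l1 .sk))
  (.nx 1140 41287 (.lg 0 false 2 83 83 23 0 1008) (.nr 1143 16385 (.nr 1141 1025 (.lg 0 false 1 61
  61 23 0 1008) (.nx 1142 165142 (.lg 2 false 1 53 53 23 20301 1008) .out)) .out)))) .out) .out)
  (.lg 0 false 1 0 0 16 0 24)) (.na 1148 231 (.lg 0 false 1 0 0 16 0 24) (.nx 1158 1321124 (.nr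
  1157 1482912 (.nr 1149 231 .s1 (.nx 1152 253 (.nx 1151 252 (.nr 1150 2607 (.l1 (.ls 23 31 277))
  (.l1 .sk)) (.l1 .sk)) (.nx 1155 41287 (.lg 0 false 3 83 83 31 0 27720) (.nr 1156 16385 (.lg 0
  false 1 83 83 29 0 27720) .out)))) .out) .out))))) (.na 1231 251 (.na 1201 239 (.na 1171 233 (.nx
  1170 1321124 (.nr 1169 1482912 (.nr 1160 232 .s1 (.nx 1167 165142 (.nx 1162 252 (.nr 1161 2618
  (.l1 (.ls 23 23 276)) (.l1 .sk)) (.nx 1163 253 (.l1 .sk) (.nx 1165 26009 (.lg 0 false 2 83 89 23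
  0 1008) (.nr 1166 65537 (.lg 0 false 1 83 83 23 0 1008) .out)))) (.nr 1168 1025 (.lg 0 true 1 67
  67 23 0 1008) .out))) .out) .out) (.na 1186 237 (.nx 1185 1321124 (.nr 1184 1482912 (.nr 1172 233
  .s1 (.nx 1175 253 (.nx 1174 252 (.nr 1173 2663 (.l1 (.ls 17 19 275)) (.l1 .sk)) (.l1 .sk)) (.nx
  1180 41287 (.lg 0 false 5 73 73 19 0 2520) (.nr 1183 16385 (.nr 1181 1025 (.lg 0 false 1 59 59 17
  0 504) (.nx 1182 165142 (.lg 2 false 1 47 47 17 20301 504) .out)) .out)))) .out) .out) (.nx 1200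
  1321124 (.nr 1199 1482912 (.nr 1187 237 .s1 (.nx 1190 253 (.nx 1189 252 (.nr 1188 2686 (.l1 (.ls
  17 23 270)) (.l1 .sk)) (.l1 .sk)) (.nx 1195 41287 (.lg 0 false 5 73 73 29 0 2520) (.nr 1198 16385
  (.nr 1196 1025 (.lg 0 false 1 59 59 19 0 504) (.nx 1197 165142 (.lg 2 false 1 53 53 19 20301
  5544) .out)) .out)))) .out) .out))) (.na 1215 242 (.na 1214 241 (.nx 1213 1321124 (.nr 1212
  1482912 (.nr 1202 239 .s1 (.nx 1204 252 (.nr 1203 2708 (.l1 (.ls 19 19 268)) (.l1 .sk)) (.nx 1205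
  253 (.l1 .sk) (.nx 1208 41287 (.lg 0 false 3 79 79 19 0 2520) (.nr 1211 16385 (.nr 1209 1025 (.lg
  0 false 1 59 59 17 0 504) (.nx 1210 165142 (.lg 2 true 1 47 47 17 20301 504) .out)) .out)))))
  .out) .out) (.lg 0 false 1 0 0 16 0 24)) (.na 1230 243 (.nx 1229 1321124 (.nr 1228 1482912 (.nr
  1216 242 .s1 (.nx 1219 253 (.nx 1218 252 (.nr 1217 2731 (.l1 (.ls 19 31 265)) (.l1 .sk)) (.l1
  .sk)) (.nx 1224 41287 (.lg 0 false 5 79 79 31 0 55440) (.nr 1227 16385 (.nr 1225 1025 (.lg 0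
  false 1 61 61 29 0 11088) (.nx 1226 165142 (.lg 2 true 1 53 53 29 20301 11088) .out)) .out))))
  .out) .out) (.lg 0 false 1 0 0 16 0 24)))) (.na 1255 254 (.na 1232 252 (.lg 0 false 1 0 0 16 0
  24) (.na 1243 253 (.nx 1242 1321124 (.nr 1241 1482912 (.nr 1233 252 .s1 (.nx 1236 253 (.nx 1235
  252 (.nr 1234 2843 (.l1 (.ls 29 37 254)) (.l1 .sk)) (.l1 .sk)) (.nr 1239 65537 (.nx 1237 165142
  (.lg 0 true 1 79 79 37 0 1008) (.nr 1238 1025 (.lg 0 true 1 61 61 37 0 1008) .out)) (.nx 1240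
  26009 (.lg 0 false 1 83 83 37 0 1008) .out)))) .out) .out) (.nx 1254 1321124 (.nr 1253 1482912
  (.nr 1244 253 .s1 (.nx 1251 165142 (.nx 1246 252 (.nr 1245 2854 (.l1 (.ls 19 19 254)) (.l1 .sk))
  (.nx 1247 253 (.l1 .sk) (.nx 1249 26009 (.lg 0 false 2 89 89 19 0 11088) (.nr 1250 65537 (.lg 0
  true 1 79 79 19 0 5544) .out)))) (.nr 1252 1025 (.lg 0 true 1 61 61 19 0 5544) .out))) .out)
  .out))) (.na 1276 257 (.na 1265 256 (.nx 1264 1321124 (.nr 1263 1482912 (.nr 1256 254 .s1 (.nx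
  1261 41287 (.nx 1258 252 (.nr 1257 2877 (.l1 (.ls 23 29 253)) (.l1 .sk)) (.nx 1259 253 (.l1 .sk)
  (.lg 0 false 2 79 79 23 0 1008))) (.nr 1262 16385 (.lg 0 false 1 79 79 23 0 1008) .out))) .out)
  .out) (.nx 1275 1321124 (.nr 1274 1482912 (.nr 1266 256 .s1 (.nx 1268 252 (.nr 1267 2888 (.l1
  (.ls 37 29 251)) (.l1 .sk)) (.nx 1269 253 (.l1 .sk) (.nr 1272 65537 (.nx 1270 165142 (.lg 0 true
  1 83 89 29 0 5040) (.nr 1271 2049 (.lg 0 true 1 73 79 29 0 5040) .out)) (.nx 1273 26009 (.lg 0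
  false 1 89 97 31 0 5040) .out))))) .out) .out)) (.na 1707 363 (.nx 1706 1321124 (.nr 1705 1482912
  (.nr 1277 257 .s1 (.nx 1491 26009 (.nx 1385 253 (.nx 1384 252 (.nr 1383 4079 (.la (.ls 37 23
  250)) (.l1 .sk)) (.l1 .sk)) (.la (.lg 0 false 2 79 83 23 0))) (.nr 1704 32769 (.nx 1597 165142
  (.la (.lg 0 true 1 71 71 23 0)) (.nr 1703 2049 (.la (.lg 0 true 1 67 67 23 0)) .out)) .out)))
  .out) .out) (.nx 2309 1321124 (.nr 2308 1482912 (.nr 1708 363 .s1 (.nx 2158 165142 (.nx 1858 252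
  (.nr 1857 5753 (.la (.ls 37 23 177)) (.l1 .sk)) (.nx 1859 253 (.l1 .sk) (.nx 2008 26009 (.la (.lg
  0 false 1 79 79 23 0)) (.nr 2157 32769 (.la (.lg 0 true 1 67 67 23 0)) .out)))) (.nr 2307 2049
  (.la (.lg 0 true 1 61 61 23 0)) .out))) .out) .out))))))))

theorem c8 :
    OkQ ckI L9 191 1 5 0 34359738368 1 1099511627776 ∧
    OkQ ckI L10 252 46 512 0 34359738368 1 1099511627776 := by
  refine ⟨?_, ?_⟩
  · refine fin 72 1140 T8_0 ?_
    refine jn 8 (by decide +kernel) ?_
    refine jn 12 (by decide +kernel) ?_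
    refine jn 18 (by decide +kernel) ?_
    refine jn 22 (by decide +kernel) ?_
    refine jn 29 (by decide +kernel) ?_
    refine jn 32 (by decide +kernel) ?_
    refine jn 36 (by decide +kernel) ?_
    refine jn 40 (by decide +kernel) ?_
    refine jn 43 (by decide +kernel) ?_
    refine jn 47 (by decide +kernel) ?_
    refine jn 51 (by decide +kernel) ?_
    refine jn 54 (by decide +kernel) ?_
    refine jn 60 (by decide +kernel) ?_
    refine jn 65 (by decide +kernel) ?_
    refine jn 71 (by decide +kernel) ?_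
    refine jn 74 (by decide +kernel) ?_
    refine jn 79 (by decide +kernel) ?_
    refine jn 88 (by decide +kernel) ?_
    refine jn 99 (by decide +kernel) ?_
    refine jn 109 (by decide +kernel) ?_
    refine jn 120 (by decide +kernel) ?_
    refine jn 130 (by decide +kernel) ?_
    refine jn 141 (by decide +kernel) ?_
    refine jn 152 (by decide +kernel) ?_
    refine jn 168 (by decide +kernel) ?_
    refine jn 188 (by decide +kernel) ?_
    refine jn 208 (by decide +kernel) ?_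
    refine jn 227 (by decide +kernel) ?_
    refine jn 245 (by decide +kernel) ?_
    refine jn 256 (by decide +kernel) ?_
    refine jn 275 (by decide +kernel) ?_
    refine jn 293 (by decide +kernel) ?_
    refine jn 311 (by decide +kernel) ?_
    refine jn 330 (by decide +kernel) ?_
    refine jn 353 (by decide +kernel) ?_
    refine jn 363 (by decide +kernel) ?_
    refine jn 393 (by decide +kernel) ?_
    refine jn 412 (by decide +kernel) ?_
    refine jn 419 (by decide +kernel) ?_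
    refine jn 426 (by decide +kernel) ?_
    refine jn 434 (by decide +kernel) ?_
    refine jn 441 (by decide +kernel) ?_
    refine jn 448 (by decide +kernel) ?_
    refine jn 456 (by decide +kernel) ?_
    refine jn 463 (by decide +kernel) ?_
    refine jn 470 (by decide +kernel) ?_
    refine jn 477 (by decide +kernel) ?_
    refine jn 484 (by decide +kernel) ?_
    refine jn 489 (by decide +kernel) ?_
    refine jn 511 (by decide +kernel) ?_
    refine jn 523 (by decide +kernel) ?_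
    refine jn 535 (by decide +kernel) ?_
    refine jn 547 (by decide +kernel) ?_
    refine jn 569 (by decide +kernel) ?_
    refine jn 591 (by decide +kernel) ?_
    refine jn 613 (by decide +kernel) ?_
    refine jn 627 (by decide +kernel) ?_
    refine jn 653 (by decide +kernel) ?_
    refine jn 666 (by decide +kernel) ?_
    refine jn 688 (by decide +kernel) ?_
    refine jn 710 (by decide +kernel) ?_
    refine jn 711 (by decide +kernel) ?_
    refine jn 713 (by decide +kernel) ?_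
    refine jn 715 (by decide +kernel) ?_
    refine jn 716 (by decide +kernel) ?_
    refine jn 717 (by decide +kernel) ?_
    refine jn 718 (by decide +kernel) ?_
    refine jn 720 (by decide +kernel) ?_
    refine jn 722 (by decide +kernel) ?_
    refine jn 723 (by decide +kernel) ?_
    refine jn 725 (by decide +kernel) ?_
    refine jn 727 (by decide +kernel) ?_
    refine jn 729 (by decide +kernel) ?_
    refine jn 730 (by decide +kernel) ?_
    refine jn 731 (by decide +kernel) ?_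
    refine jn 732 (by decide +kernel) ?_
    refine jn 734 (by decide +kernel) ?_
    refine jn 736 (by decide +kernel) ?_
    refine jn 737 (by decide +kernel) ?_
    refine jn 749 (by decide +kernel) ?_
    refine jn 752 (by decide +kernel) ?_
    refine jn 754 (by decide +kernel) ?_
    refine jn 756 (by decide +kernel) ?_
    refine jn 758 (by decide +kernel) ?_
    refine jn 759 (by decide +kernel) ?_
    refine jn 761 (by decide +kernel) ?_
    refine jn 768 (by decide +kernel) ?_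
    refine jn 772 (by decide +kernel) ?_
    refine jn 781 (by decide +kernel) ?_
    refine jn 791 (by decide +kernel) ?_
    refine jn 800 (by decide +kernel) ?_
    refine jn 808 (by decide +kernel) ?_
    refine jn 817 (by decide +kernel) ?_
    refine jn 825 (by decide +kernel) ?_
    refine jn 828 (by decide +kernel) ?_
    refine jn 837 (by decide +kernel) ?_
    refine jn 845 (by decide +kernel) ?_
    refine jn 853 (by decide +kernel) ?_
    refine jn 856 (by decide +kernel) ?_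
    refine jn 863 (by decide +kernel) ?_
    refine jn 872 (by decide +kernel) ?_
    refine jn 884 (by decide +kernel) ?_
    refine jn 907 (by decide +kernel) ?_
    refine jn 916 (by decide +kernel) ?_
    refine jn 918 (by decide +kernel) ?_
    refine jn 919 (by decide +kernel) ?_
    refine jn 921 (by decide +kernel) ?_
    refine jn 923 (by decide +kernel) ?_
    refine jn 925 (by decide +kernel) ?_
    refine jn 927 (by decide +kernel) ?_
    refine jn 929 (by decide +kernel) ?_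
    refine jn 930 (by decide +kernel) ?_
    refine jn 932 (by decide +kernel) ?_
    refine jn 934 (by decide +kernel) ?_
    refine jn 942 (by decide +kernel) ?_
    refine jn 951 (by decide +kernel) ?_
    refine jn 953 (by decide +kernel) ?_
    refine jn 955 (by decide +kernel) ?_
    refine jn 958 (by decide +kernel) ?_
    refine jn 960 (by decide +kernel) ?_
    refine jn 962 (by decide +kernel) ?_
    refine jn 964 (by decide +kernel) ?_
    refine jn 971 (by decide +kernel) ?_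
    refine jn 978 (by decide +kernel) ?_
    refine jn 991 (by decide +kernel) ?_
    refine jn 1004 (by decide +kernel) ?_
    refine jn 1017 (by decide +kernel) ?_
    refine jn 1028 (by decide +kernel) ?_
    refine jn 1031 (by decide +kernel) ?_
    refine jn 1040 (by decide +kernel) ?_
    refine jn 1044 (by decide +kernel) ?_
    refine jn 1051 (by decide +kernel) ?_
    refine jn 1058 (by decide +kernel) ?_
    refine jn 1067 (by decide +kernel) ?_
    refine jn 1076 (by decide +kernel) ?_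
    refine jn 1082 (by decide +kernel) ?_
    refine jn 1108 (by decide +kernel) ?_
    refine jn 1136 (by decide +kernel) ?_
    exact je (by decide +kernel)
  · refine fin 504 2310 T8_1 ?_
    refine jn 9 (by decide +kernel) ?_
    refine jn 18 (by decide +kernel) ?_
    refine jn 28 (by decide +kernel) ?_
    refine jn 30 (by decide +kernel) ?_
    refine jn 32 (by decide +kernel) ?_
    refine jn 33 (by decide +kernel) ?_
    refine jn 38 (by decide +kernel) ?_
    refine jn 40 (by decide +kernel) ?_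
    refine jn 43 (by decide +kernel) ?_
    refine jn 46 (by decide +kernel) ?_
    refine jn 59 (by decide +kernel) ?_
    refine jn 69 (by decide +kernel) ?_
    refine jn 83 (by decide +kernel) ?_
    refine jn 90 (by decide +kernel) ?_
    refine jn 108 (by decide +kernel) ?_
    refine jn 118 (by decide +kernel) ?_
    refine jn 123 (by decide +kernel) ?_
    refine jn 128 (by decide +kernel) ?_
    refine jn 136 (by decide +kernel) ?_
    refine jn 139 (by decide +kernel) ?_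
    refine jn 140 (by decide +kernel) ?_
    refine jn 141 (by decide +kernel) ?_
    refine jn 142 (by decide +kernel) ?_
    refine jn 143 (by decide +kernel) ?_
    refine jn 144 (by decide +kernel) ?_
    refine jn 145 (by decide +kernel) ?_
    refine jn 146 (by decide +kernel) ?_
    refine jn 147 (by decide +kernel) ?_
    refine jn 149 (by decide +kernel) ?_
    refine jn 150 (by decide +kernel) ?_
    refine jn 155 (by decide +kernel) ?_
    refine jn 157 (by decide +kernel) ?_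
    refine jn 169 (by decide +kernel) ?_
    refine jn 177 (by decide +kernel) ?_
    refine jn 188 (by decide +kernel) ?_
    refine jn 195 (by decide +kernel) ?_
    refine jn 207 (by decide +kernel) ?_
    refine jn 214 (by decide +kernel) ?_
    refine jn 226 (by decide +kernel) ?_
    refine jn 233 (by decide +kernel) ?_
    refine jn 243 (by decide +kernel) ?_
    refine jn 245 (by decide +kernel) ?_
    refine jn 247 (by decide +kernel) ?_
    refine jn 248 (by decide +kernel) ?_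
    refine jn 250 (by decide +kernel) ?_
    refine jn 252 (by decide +kernel) ?_
    refine jn 253 (by decide +kernel) ?_
    refine jn 265 (by decide +kernel) ?_
    refine jn 273 (by decide +kernel) ?_
    refine jn 290 (by decide +kernel) ?_
    refine jn 303 (by decide +kernel) ?_
    refine jn 310 (by decide +kernel) ?_
    refine jn 323 (by decide +kernel) ?_
    refine jn 334 (by decide +kernel) ?_
    refine jn 345 (by decide +kernel) ?_
    refine jn 359 (by decide +kernel) ?_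
    refine jn 367 (by decide +kernel) ?_
    refine jn 376 (by decide +kernel) ?_
    refine jn 381 (by decide +kernel) ?_
    refine jn 384 (by decide +kernel) ?_
    refine jn 400 (by decide +kernel) ?_
    refine jn 403 (by decide +kernel) ?_
    refine jn 415 (by decide +kernel) ?_
    refine jn 418 (by decide +kernel) ?_
    refine jn 426 (by decide +kernel) ?_
    refine jn 430 (by decide +kernel) ?_
    refine jn 432 (by decide +kernel) ?_
    refine jn 436 (by decide +kernel) ?_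
    refine jn 437 (by decide +kernel) ?_
    refine jn 451 (by decide +kernel) ?_
    refine jn 465 (by decide +kernel) ?_
    refine jn 482 (by decide +kernel) ?_
    refine jn 498 (by decide +kernel) ?_
    refine jn 509 (by decide +kernel) ?_
    refine jn 514 (by decide +kernel) ?_
    refine jn 517 (by decide +kernel) ?_
    refine jn 533 (by decide +kernel) ?_
    refine jn 543 (by decide +kernel) ?_
    refine jn 546 (by decide +kernel) ?_
    refine jn 561 (by decide +kernel) ?_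
    refine jn 570 (by decide +kernel) ?_
    refine jn 579 (by decide +kernel) ?_
    refine jn 589 (by decide +kernel) ?_
    refine jn 597 (by decide +kernel) ?_
    refine jn 598 (by decide +kernel) ?_
    refine jn 599 (by decide +kernel) ?_
    refine jn 600 (by decide +kernel) ?_
    refine jn 601 (by decide +kernel) ?_
    refine jn 602 (by decide +kernel) ?_
    refine jn 603 (by decide +kernel) ?_
    refine jn 604 (by decide +kernel) ?_
    refine jn 605 (by decide +kernel) ?_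
    refine jn 621 (by decide +kernel) ?_
    refine jn 635 (by decide +kernel) ?_
    refine jn 640 (by decide +kernel) ?_
    refine jn 655 (by decide +kernel) ?_
    refine jn 670 (by decide +kernel) ?_
    refine jn 685 (by decide +kernel) ?_
    refine jn 701 (by decide +kernel) ?_
    refine jn 708 (by decide +kernel) ?_
    refine jn 710 (by decide +kernel) ?_
    refine jn 711 (by decide +kernel) ?_
    refine jn 712 (by decide +kernel) ?_
    refine jn 713 (by decide +kernel) ?_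
    refine jn 716 (by decide +kernel) ?_
    refine jn 718 (by decide +kernel) ?_
    refine jn 731 (by decide +kernel) ?_
    refine jn 746 (by decide +kernel) ?_
    refine jn 762 (by decide +kernel) ?_
    refine jn 777 (by decide +kernel) ?_
    refine jn 793 (by decide +kernel) ?_
    refine jn 808 (by decide +kernel) ?_
    refine jn 823 (by decide +kernel) ?_
    refine jn 839 (by decide +kernel) ?_
    refine jn 855 (by decide +kernel) ?_
    refine jn 869 (by decide +kernel) ?_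
    refine jn 883 (by decide +kernel) ?_
    refine jn 893 (by decide +kernel) ?_
    refine jn 895 (by decide +kernel) ?_
    refine jn 897 (by decide +kernel) ?_
    refine jn 910 (by decide +kernel) ?_
    refine jn 924 (by decide +kernel) ?_
    refine jn 938 (by decide +kernel) ?_
    refine jn 948 (by decide +kernel) ?_
    refine jn 950 (by decide +kernel) ?_
    refine jn 964 (by decide +kernel) ?_
    refine jn 981 (by decide +kernel) ?_
    refine jn 991 (by decide +kernel) ?_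
    refine jn 995 (by decide +kernel) ?_
    refine jn 1008 (by decide +kernel) ?_
    refine jn 1023 (by decide +kernel) ?_
    refine jn 1033 (by decide +kernel) ?_
    refine jn 1046 (by decide +kernel) ?_
    refine jn 1058 (by decide +kernel) ?_
    refine jn 1073 (by decide +kernel) ?_
    refine jn 1087 (by decide +kernel) ?_
    refine jn 1103 (by decide +kernel) ?_
    refine jn 1118 (by decide +kernel) ?_
    refine jn 1129 (by decide +kernel) ?_
    refine jn 1141 (by decide +kernel) ?_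
    refine jn 1156 (by decide +kernel) ?_
    refine jn 1166 (by decide +kernel) ?_
    refine jn 1181 (by decide +kernel) ?_
    refine jn 1197 (by decide +kernel) ?_
    refine jn 1215 (by decide +kernel) ?_
    refine jn 1226 (by decide +kernel) ?_
    refine jn 1238 (by decide +kernel) ?_
    refine jn 1249 (by decide +kernel) ?_
    refine jn 1262 (by decide +kernel) ?_
    refine jn 1269 (by decide +kernel) ?_
    refine jn 1270 (by decide +kernel) ?_
    refine jn 1273 (by decide +kernel) ?_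
    refine jn 1304 (by decide +kernel) ?_
    refine jn 1308 (by decide +kernel) ?_
    refine jn 1309 (by decide +kernel) ?_
    refine jn 1353 (by decide +kernel) ?_
    refine jn 1372 (by decide +kernel) ?_
    refine jn 1386 (by decide +kernel) ?_
    refine jn 1389 (by decide +kernel) ?_
    refine jn 1390 (by decide +kernel) ?_
    refine jn 1392 (by decide +kernel) ?_
    refine jn 1396 (by decide +kernel) ?_
    refine jn 1402 (by decide +kernel) ?_
    refine jn 1404 (by decide +kernel) ?_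
    refine jn 1405 (by decide +kernel) ?_
    refine jn 1412 (by decide +kernel) ?_
    refine jn 1416 (by decide +kernel) ?_
    refine jn 1417 (by decide +kernel) ?_
    refine jn 1426 (by decide +kernel) ?_
    refine jn 1430 (by decide +kernel) ?_
    refine jn 1444 (by decide +kernel) ?_
    refine jn 1446 (by decide +kernel) ?_
    refine jn 1447 (by decide +kernel) ?_
    refine jn 1449 (by decide +kernel) ?_
    refine jn 1454 (by decide +kernel) ?_
    refine jn 1459 (by decide +kernel) ?_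
    refine jn 1461 (by decide +kernel) ?_
    refine jn 1464 (by decide +kernel) ?_
    refine jn 1467 (by decide +kernel) ?_
    refine jn 1475 (by decide +kernel) ?_
    refine jn 1480 (by decide +kernel) ?_
    refine jn 1481 (by decide +kernel) ?_
    refine jn 1493 (by decide +kernel) ?_
    refine jn 1497 (by decide +kernel) ?_
    refine jn 1505 (by decide +kernel) ?_
    refine jn 1515 (by decide +kernel) ?_
    refine jn 1522 (by decide +kernel) ?_
    refine jn 1523 (by decide +kernel) ?_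
    refine jn 1536 (by decide +kernel) ?_
    refine jn 1551 (by decide +kernel) ?_
    refine jn 1555 (by decide +kernel) ?_
    refine jn 1565 (by decide +kernel) ?_
    refine jn 1570 (by decide +kernel) ?_
    refine jn 1578 (by decide +kernel) ?_
    refine jn 1586 (by decide +kernel) ?_
    refine jn 1587 (by decide +kernel) ?_
    refine jn 1601 (by decide +kernel) ?_
    refine jn 1604 (by decide +kernel) ?_
    refine jn 1616 (by decide +kernel) ?_
    refine jn 1624 (by decide +kernel) ?_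
    refine jn 1628 (by decide +kernel) ?_
    refine jn 1629 (by decide +kernel) ?_
    refine jn 1642 (by decide +kernel) ?_
    refine jn 1657 (by decide +kernel) ?_
    refine jn 1662 (by decide +kernel) ?_
    refine jn 1673 (by decide +kernel) ?_
    refine jn 1679 (by decide +kernel) ?_
    refine jn 1688 (by decide +kernel) ?_
    refine jn 1692 (by decide +kernel) ?_
    refine jn 1693 (by decide +kernel) ?_
    refine jn 1726 (by decide +kernel) ?_
    refine jn 1737 (by decide +kernel) ?_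
    refine jn 1754 (by decide +kernel) ?_
    refine jn 1793 (by decide +kernel) ?_
    refine jn 1811 (by decide +kernel) ?_
    refine jn 1849 (by decide +kernel) ?_
    refine jn 1864 (by decide +kernel) ?_
    refine jn 1865 (by decide +kernel) ?_
    refine jn 1877 (by decide +kernel) ?_
    refine jn 1880 (by decide +kernel) ?_
    refine jn 1881 (by decide +kernel) ?_
    refine jn 1885 (by decide +kernel) ?_
    refine jn 1892 (by decide +kernel) ?_
    refine jn 1893 (by decide +kernel) ?_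
    refine jn 1903 (by decide +kernel) ?_
    refine jn 1910 (by decide +kernel) ?_
    refine jn 1917 (by decide +kernel) ?_
    refine jn 1920 (by decide +kernel) ?_
    refine jn 1924 (by decide +kernel) ?_
    refine jn 1932 (by decide +kernel) ?_
    refine jn 1940 (by decide +kernel) ?_
    refine jn 1944 (by decide +kernel) ?_
    refine jn 1945 (by decide +kernel) ?_
    refine jn 1953 (by decide +kernel) ?_
    refine jn 1960 (by decide +kernel) ?_
    refine jn 1962 (by decide +kernel) ?_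
    refine jn 1970 (by decide +kernel) ?_
    refine jn 1974 (by decide +kernel) ?_
    refine jn 1980 (by decide +kernel) ?_
    refine jn 1985 (by decide +kernel) ?_
    refine jn 1995 (by decide +kernel) ?_
    refine jn 2002 (by decide +kernel) ?_
    refine jn 2008 (by decide +kernel) ?_
    refine jn 2013 (by decide +kernel) ?_
    refine jn 2017 (by decide +kernel) ?_
    refine jn 2029 (by decide +kernel) ?_
    refine jn 2030 (by decide +kernel) ?_
    refine jn 2039 (by decide +kernel) ?_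
    refine jn 2041 (by decide +kernel) ?_
    refine jn 2042 (by decide +kernel) ?_
    refine jn 2056 (by decide +kernel) ?_
    refine jn 2066 (by decide +kernel) ?_
    refine jn 2071 (by decide +kernel) ?_
    refine jn 2081 (by decide +kernel) ?_
    refine jn 2092 (by decide +kernel) ?_
    refine jn 2097 (by decide +kernel) ?_
    refine jn 2108 (by decide +kernel) ?_
    refine jn 2111 (by decide +kernel) ?_
    refine jn 2122 (by decide +kernel) ?_
    refine jn 2129 (by decide +kernel) ?_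
    refine jn 2142 (by decide +kernel) ?_
    refine jn 2151 (by decide +kernel) ?_
    refine jn 2163 (by decide +kernel) ?_
    refine jn 2168 (by decide +kernel) ?_
    refine jn 2179 (by decide +kernel) ?_
    refine jn 2180 (by decide +kernel) ?_
    refine jn 2189 (by decide +kernel) ?_
    refine jn 2191 (by decide +kernel) ?_
    refine jn 2192 (by decide +kernel) ?_
    refine jn 2206 (by decide +kernel) ?_
    refine jn 2217 (by decide +kernel) ?_
    refine jn 2226 (by decide +kernel) ?_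
    refine jn 2239 (by decide +kernel) ?_
    refine jn 2243 (by decide +kernel) ?_
    refine jn 2248 (by decide +kernel) ?_
    refine jn 2259 (by decide +kernel) ?_
    refine jn 2264 (by decide +kernel) ?_
    refine jn 2272 (by decide +kernel) ?_
    refine jn 2279 (by decide +kernel) ?_
    refine jn 2292 (by decide +kernel) ?_
    refine jn 2301 (by decide +kernel) ?_
    exact je (by decide +kernel)

end Pool.Agent.MP_2339ce_nt.NR
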