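import Pool.Agent.MP_2339ce_nt.Q2.NC.L8
import Pool.Agent.MP_2339ce_nt.Q2.NC.L10
import Pool.Agent.MP_2339ce_nt.Q2.CkI

/-! Block NR: runs. -/

set_option autoImplicit false
set_option maxRecDepth 100000

noncomputable section

namespace Pool.Agent.MP_2339ce_nt.NR

open Q2.Top

def T81_0 : Ph :=
  (.na 657 16 (.na 362 6 (.na 202 3 (.na 1 2 .ne (.nx 201 3329023 (.nr 200 623489 (.nx 57 26009
  (.nx 4 165 (.nx 3 164 (.nr 2 25 (.lg 0 true 1 43 43 5 0 5904) (.l1 .sk)) (.l1 .sk)) (.nr 43
  131073 (.lg 0 false 39 103 109 13 0 29549520) (.nx 56 257 (.lg 0 false 13 83 83 9 0 76752)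
  .out))) (.nr 199 110219 (.nx 153 416129 (.nr 70 450 (.lg 0 true 13 89 89 9 0 76752) (.nr 83 2437
  (.lg 2 true 13 97 101 9 75828 2686320) (.nx 152 330282 (.nx 96 32769 (.lg 1 false 13 103 107 9
  57075 29549520) (.nr 151 92683 (.nr 109 27556 (.lg 2 false 13 103 107 9 11377 29549520) (.nx 150
  165142 (.nr 136 77937 (.nr 122 55110 (.lg 2 false 13 103 107 9 22685 29549520) (.nx 135 131073
  (.lg 2 true 13 107 109 9 32053 29549520) .out)) (.nx 149 82572 (.lg 2 true 13 103 107 9 38104
  29549520) .out)) .out)) .out)) .out))) (.nr 198 257 (.nx 179 1664512 (.lg 0 true 26 97 97 11 0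
  2686320) (.nr 197 9 (.lg 0 true 18 73 73 9 0 5904) .out)) .out)) .out)) .out) .out)) (.na 203 4
  .ne (.na 361 5 (.nx 360 13316087 (.nr 359 1246976 (.nx 310 1664512 (.nx 296 416129 (.nx 205 164
  (.nr 204 44 (.lg 0 true 1 43 43 9 0 206640) (.l1 .sk)) (.nx 206 165 (.l1 .sk) (.nx 237 26007 (.nr
  219 110219 (.lg 0 false 13 103 107 13 0 2686320) (.nx 236 1627 (.nr 224 155873 (.lg 0 false 5 89
  89 11 0 29520) (.nx 235 257 (.lg 0 false 11 83 83 13 0 64944) .out)) .out)) (.nr 295 131073 (.nr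
  250 729 (.lg 0 true 13 89 89 13 0 76752) (.nr 255 2909 (.lg 2 true 5 89 97 11 46808 206640) (.nx
  268 52015 (.lg 1 false 13 103 109 13 67863 29549520) (.nx 281 104033 (.lg 1 true 13 103 109 13
  33931 29549520) (.nr 294 92683 (.lg 2 false 13 103 109 13 12003 29549520) .out))))) .out)))) (.nr
  309 183 (.lg 0 true 13 89 89 13 0 76752) .out)) (.nr 358 21 (.nx 332 6658044 (.lg 0 true 22 79 79
  11 0 64944) (.lg 0 true 26 83 83 11 0 76752)) .out)) .out) .out) .ne))) (.na 500 10 (.na 499 7
  (.nx 498 13316087 (.nr 497 623489 (.nx 365 165 (.nx 364 164 (.nr 363 63 (.lg 0 true 1 31 31 7 0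
  5904) (.l1 .sk)) (.l1 .sk)) (.nx 453 832257 (.nx 366 205 (.l1 (.ls 89 43 2469)) (.nr 452 370729
  (.nx 387 28089 (.nr 379 131073 (.lg 0 false 13 103 107 19 0 29549520) (.nx 386 1627 (.lg 0 false
  7 89 97 13 0 41328) .out)) (.nr 451 155873 (.nr 400 1026 (.lg 0 true 13 89 97 19 0 76752) (.nx
  450 660563 (.nx 414 52015 (.nr 413 131073 (.lg 1 false 13 101 107 19 62833 29549520) .out) (.nr
  421 8201 (.lg 2 true 7 97 101 13 52794 2273040) (.nx 442 131073 (.nx 434 104033 (.lg 1 true 13
  101 109 19 40343 29549520) (.nr 441 131073 (.lg 1 true 7 97 103 13 16965 2273040) .out)) (.nr 449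
  65537 (.lg 2 false 7 97 101 13 6741 2273040) .out)))) .out)) .out)) .out)) (.nr 496 129 (.nr 488
  42 (.lg 0 true 35 83 83 13 0 206640) (.nx 495 1664512 (.lg 0 true 7 79 79 13 0 41328) .out))
  .out))) .out) .out) .ne) (.na 555 12 (.nx 554 1664512 (.nr 553 623489 (.nx 503 165 (.nx 502 164
  (.nr 501 109 (.lg 0 false 1 31 31 11 0 29520) (.l1 .sk)) (.l1 .sk)) (.nr 545 131073 (.nx 514
  35390 (.lg 0 false 11 101 103 19 0 2273040) (.nr 529 1621 (.nx 521 524289 (.lg 0 true 7 89 89 13
  0 206640) (.nr 528 65 (.lg 0 true 7 73 73 13 0 206640) .out)) (.nx 544 416129 (.nx 536 65537 (.lg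
  1 false 7 97 101 13 49871 206640) (.nr 543 110219 (.lg 2 false 7 97 103 13 22651 206640) .out))
  .out))) (.nx 552 1292 (.lg 0 false 7 89 89 13 0 206640) .out))) .out) .out) (.na 606 14 (.nx 605
  1664512 (.nr 604 623489 (.nx 557 164 (.nr 556 127 (.lg 0 true 1 37 37 13 0 206640) (.l1 .sk))
  (.nx 558 165 (.l1 .sk) (.nr 595 110219 (.nx 571 44110 (.lg 0 false 13 97 103 29 0 2686320) (.nr
  582 829 (.nx 576 524289 (.lg 0 true 5 89 89 19 0 206640) (.nr 581 65 (.lg 0 true 5 73 79 19 0
  206640) .out)) (.nx 594 416129 (.nx 587 82572 (.lg 1 true 5 97 107 19 33654 2273040) (.nr 593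
  77937 (.nr 588 3171 (.lg 2 false 1 97 97 13 41162 206640) (.lg 2 false 5 97 103 19 12720
  2273040)) .out)) .out))) (.nx 603 10323 (.nr 597 155873 (.lg 0 false 2 101 101 13 0 206640) (.nx
  602 1292 (.lg 0 false 5 89 97 19 0 206640) .out)) .out)))) .out) .out) (.nx 656 1664512 (.nr 655
  623489 (.nr 607 6 .s1 (.nx 649 524289 (.nx 609 164 (.nr 608 145 (.lg 0 false 1 29 29 11 0 41328)
  (.l1 .sk)) (.nx 610 165 (.l1 .sk) (.nx 629 29688 (.nr 623 155873 (.lg 0 false 13 97 101 19 0
  2686320) (.nx 628 1292 (.lg 0 false 5 89 89 13 0 206640) .out)) (.nr 648 110219 (.nr 634 829 (.lg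
  0 true 5 83 83 13 0 206640) (.nx 647 416129 (.lg 2 false 13 97 103 19 50002 2686320) .out))
  .out)))) (.nr 654 65 (.lg 0 true 5 71 71 13 0 206640) .out))) .out) .out))))) (.na 765 28 (.na
  695 20 (.na 658 18 .ne (.nx 694 1664512 (.nr 693 1048577 (.nr 659 13 .s1 (.nx 663 257 (.nx 661
  164 (.nr 660 181 (.lg 0 false 1 29 29 13 0 206640) (.l1 .sk)) (.nx 662 165 (.l1 .sk) (.l1 (.ls 83
  43 2159)))) (.nr 692 623489 (.nx 676 23564 (.nr 670 220437 (.lg 0 false 7 97 101 19 0 206640)
  (.nx 675 1627 (.lg 0 false 5 83 83 19 0 29520) .out)) (.nr 691 92683 (.nr 683 634 (.lg 0 true 7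
  83 83 19 0 41328) (.nx 690 262145 (.lg 2 false 7 97 101 19 52990 206640) .out)) .out)) .out)))
  .out) .out)) (.na 729 22 (.nx 728 1664512 (.nr 727 1048577 (.nr 696 16 .s1 (.nx 716 41287 (.nx
  698 164 (.nr 697 200 (.lg 0 false 1 31 31 13 0 29520) (.l1 .sk)) (.nx 699 165 (.l1 .sk) (.nx 700
  257 (.l1 (.ls 89 41 1944)) (.nr 715 623489 (.nr 707 92683 (.lg 0 false 7 97 101 23 0 2273040)
  (.nx 714 13005 (.nr 710 220437 (.lg 0 false 3 101 103 19 0 2273040) (.nx 713 1627 (.lg 0 false 3
  89 89 19 0 29520) .out)) .out)) .out)))) (.nr 726 77937 (.nx 722 262145 (.nr 719 1854 (.lg 0 true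
  3 83 83 19 0 29520) (.lg 2 false 3 101 103 19 25440 2273040)) (.nr 725 217 (.lg 0 true 3 79 79 19
  0 29520) .out)) .out))) .out) .out) (.na 764 23 (.nx 763 1664512 (.nr 762 1048577 (.nr 730 18 .s1
  (.nx 733 165 (.nx 732 164 (.nr 731 209 (.lg 0 false 1 23 23 9 0 324720) (.l1 .sk)) (.l1 .sk))
  (.nx 746 23564 (.nx 734 257 (.l1 (.ls 89 41 1767)) (.nr 745 623489 (.nr 741 220437 (.lg 0 false 7
  97 101 19 0 2273040) (.nx 744 1627 (.lg 0 false 3 83 83 13 0 64944) .out)) .out)) (.nr 761 92683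
  (.nr 753 634 (.lg 0 true 7 83 83 19 0 454608) (.nx 760 262145 (.lg 2 false 7 97 101 19 52990
  2273040) .out)) .out)))) .out) .out) .ne))) (.na 815 36 (.na 789 30 (.nx 788 1664512 (.nr 787
  1048577 (.nr 766 25 .s1 (.nx 783 208065 (.nx 778 41287 (.nx 770 257 (.nx 768 164 (.nr 767 272
  (.lg 0 false 1 37 37 13 0 2273040) (.l1 .sk)) (.nx 769 165 (.l1 .sk) (.l1 (.ls 97 41 1389))))
  (.nr 777 311745 (.nr 773 110219 (.lg 0 false 3 101 103 19 0 2273040) (.nx 776 8193 (.lg 0 false 3
  97 101 19 0 2273040) .out)) .out)) (.nr 782 65537 (.nr 779 1307 (.lg 0 false 1 89 89 13 0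
  2273040) (.nx 781 165142 (.lg 2 false 2 101 103 19 21401 2273040) .out)) .out)) (.nr 786 217 (.lg
  0 true 3 79 79 19 0 41328) .out))) .out) .out) (.na 814 32 (.nx 813 1664512 (.nr 812 1048577 (.nr
  790 28 .s1 (.nx 808 208065 (.nx 792 164 (.nr 791 290 (.lg 0 false 1 31 31 19 0 206640) (.l1 .sk))
  (.nx 793 165 (.l1 .sk) (.nx 794 257 (.l1 (.ls 89 43 1297)) (.nr 807 311745 (.nr 804 110219 (.nx
  796 20644 (.lg 0 false 2 97 101 23 0 206640) (.nr 803 77937 (.nr 797 1307 (.lg 0 false 1 83 83 19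
  0 206640) (.nx 802 165142 (.nx 799 41287 (.lg 1 false 2 97 97 23 50879 206640) (.nr 801 65537
  (.lg 2 false 2 97 101 23 21401 206640) .out)) .out)) .out)) (.nx 806 8193 (.lg 0 false 2 97 101
  23 0 206640) .out)) .out)))) (.nr 811 217 (.lg 0 true 3 79 79 29 0 29520) .out))) .out) .out)
  .ne)) (.na 835 38 (.nx 834 1664512 (.nr 833 881745 (.nr 816 34 .s1 (.nx 826 26009 (.nx 820 257
  (.nx 818 164 (.nr 817 345 (.l1 (.ls 29 37 750)) (.l1 .sk)) (.nx 819 165 (.l1 .sk) (.l1 (.ls 83 41
  1081)))) (.nr 825 440873 (.nr 822 110219 (.lg 0 false 2 97 97 23 0 29520) (.nx 824 10323 (.lg 0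
  false 2 97 97 23 0 29520) .out)) .out)) (.nr 832 32769 (.nx 828 104033 (.nr 827 2132 (.lg 0 false
  1 79 79 19 0 5904) (.lg 2 true 1 89 89 19 17029 29520)) (.nr 831 257 (.lg 0 true 3 73 73 23 0
  5904) .out)) .out))) .out) .out) (.na 856 42 (.nx 855 1664512 (.nr 854 881745 (.nr 836 36 .s1
  (.nx 838 164 (.nr 837 381 (.lg 0 false 1 29 29 13 0 2273040) (.l1 .sk)) (.nx 839 165 (.l1 .sk)
  (.nx 840 257 (.l1 (.ls 83 37 1024)) (.nr 853 440873 (.nx 845 20644 (.lg 0 false 5 97 101 17 0
  29520) (.nr 852 46342 (.nr 849 257 (.lg 0 true 4 73 73 17 0 5904) (.nx 851 104033 (.lg 2 true 2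
  89 89 13 33194 5904) .out)) .out)) .out))))) .out) .out) (.nx 876 1664512 (.nr 875 881745 (.nr
  857 41 .s1 (.nx 860 165 (.nx 859 164 (.nr 858 399 (.l1 (.ls 31 41 643)) (.l1 .sk)) (.l1 .sk))
  (.nx 861 257 (.l1 (.ls 89 41 927)) (.nr 874 440873 (.nr 868 32769 (.nx 864 104033 (.lg 0 false 3
  89 89 29 0 206640) (.nr 867 257 (.lg 0 true 3 73 73 29 0 41328) .out)) (.nx 873 26009 (.nr 870
  110219 (.lg 0 false 2 97 101 29 0 206640) (.nx 872 10323 (.lg 0 false 2 101 101 29 0 206640)
  .out)) .out)) .out)))) .out) .out))))))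

def T81_1 : Ph :=
  (.na 968 46 (.na 699 16 (.na 437 10 (.na 227 6 (.na 1 5 .ne (.nx 226 21137969 (.nr 225 1482912
  (.nx 4 246 (.nx 3 245 (.nr 2 65 (.lg 0 true 1 37 37 9 0 2520) (.l1 .sk)) (.l1 .sk)) (.nx 62 65536
  (.nr 48 220437 (.lg 0 false 44 97 103 16 0 55440) (.nx 61 408 (.lg 0 false 13 73 73 16 0 32760)
  .out)) (.nr 224 311745 (.nx 157 660563 (.nr 86 6200 (.nr 75 829 (.lg 0 true 13 83 83 16 0 32760)
  (.lg 2 true 11 89 89 16 97611 27720)) (.nx 111 112360 (.nx 98 82570 (.nr 97 262145 (.lg 1 false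
  11 97 101 16 120164 55440) .out) (.lg 1 false 13 97 101 16 113403 65520)) (.nx 133 208065 (.nx
  122 152899 (.lg 1 false 11 101 103 16 83337 55440) (.lg 1 false 11 101 103 16 61241 55440)) (.nr
  156 262145 (.nx 144 262145 (.lg 1 true 11 97 101 16 37849 55440) (.nr 155 131073 (.lg 2 false 11
  101 103 16 15035 720720) .out)) .out)))) (.nr 223 217 (.nr 209 39 (.lg 0 true 52 79 79 13 0
  65520) (.nx 222 2642247 (.lg 0 true 13 79 79 16 0 32760) .out)) .out)) .out))) .out) .out)) (.na
  436 7 (.nx 435 21137969 (.nr 434 1048577 (.nx 230 246 (.nx 229 245 (.nr 228 76 (.lg 0 true 1 41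
  41 7 0 5040) (.l1 .sk)) (.l1 .sk)) (.nx 375 832257 (.nx 264 39511 (.nr 252 220437 (.lg 0 false 22
  101 107 19 0 720720) (.nx 263 814 (.lg 0 false 11 89 89 17 0 55440) .out)) (.nr 374 311745 (.nr
  275 941 (.lg 0 true 11 89 89 17 0 55440) (.nr 279 3451 (.lg 2 true 4 89 97 13 108344 5040) (.nr
  282 6606 (.lg 2 true 3 89 89 13 29543 5040) (.nx 294 52015 (.nr 293 220437 (.lg 1 false 11 97 103
  17 167632 55440) .out) (.nx 362 262145 (.nx 350 208065 (.nx 339 152899 (.nx 328 112360 (.nx 317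
  82570 (.nr 316 262145 (.nx 305 65535 (.lg 1 false 11 97 103 17 151400 55440) (.lg 1 false 11 101
  107 17 120166 720720)) .out) (.lg 1 false 11 101 107 17 113403 720720)) (.lg 1 false 11 101 107
  17 83337 720720)) (.lg 1 false 11 101 107 17 61241 720720)) (.nr 361 262145 (.lg 1 true 11 101
  107 17 37849 720720) .out)) (.nr 373 131073 (.lg 2 false 11 101 107 17 15434 720720) .out))))))
  .out)) (.nr 433 257 (.nx 386 2642247 (.lg 0 true 11 89 89 17 0 55440) (.nr 432 28 (.nx 399
  5284493 (.lg 0 true 13 73 73 13 0 65520) (.lg 0 true 33 83 83 13 0 55440)) .out)) .out))) .out)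
  .out) .ne)) (.na 545 14 (.na 544 12 (.nx 543 2642247 (.nr 542 1246976 (.nx 534 1321124 (.nx 439
  245 (.nr 438 133 (.lg 0 true 1 37 37 9 0 5040) (.l1 .sk)) (.nx 440 246 (.l1 .sk) (.nx 443 408
  (.nx 441 324 (.l1 (.ls 83 43 4449)) (.nr 442 1048577 (.l1 (.ls 83 47 6151)) .out)) (.nr 533
  741457 (.nx 468 65536 (.nr 456 262145 (.lg 0 false 13 103 107 13 0 720720) (.nx 467 1292 (.lg 0
  false 11 79 79 13 0 55440) .out)) (.nr 532 311745 (.nr 481 1112 (.lg 0 true 13 83 83 13 0 65520)
  (.nx 494 131072 (.lg 1 false 13 101 103 13 142879 720720) (.nr 505 9313 (.lg 2 true 11 83 89 13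
  145538 55440) (.nx 518 262145 (.lg 1 true 13 101 103 13 71439 720720) (.nr 531 185365 (.lg 2
  false 13 89 97 13 21251 65520) .out))))) .out)) .out)))) (.nr 541 65 (.lg 0 true 7 67 67 13 0
  5040) .out)) .out) .out) .ne) (.na 618 15 (.nx 617 2642247 (.nr 616 1246976 (.nx 548 246 (.nx 547
  245 (.nr 546 166 (.lg 0 false 1 31 31 11 0 5040) (.l1 .sk)) (.l1 .sk)) (.nx 549 408 (.l1 (.ls 83
  47 7570)) (.nr 615 741457 (.nx 572 82570 (.nr 560 262145 (.lg 0 false 11 101 103 13 0 55440) (.nx
  571 1627 (.lg 0 false 11 79 79 13 0 55440) .out)) (.nr 614 311745 (.nx 606 660563 (.nr 583 2366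
  (.lg 0 true 11 83 83 13 0 55440) (.nx 594 165142 (.lg 1 false 11 97 101 13 113403 55440) (.nr 605
  262145 (.lg 2 false 11 97 101 13 47687 55440) .out))) (.nr 613 65 (.lg 0 true 7 61 61 13 0 5040)
  .out)) .out)) .out))) .out) .out) (.nx 698 2642247 (.nr 697 1246976 (.nx 622 324 (.nx 620 245
  (.nr 619 177 (.lg 0 false 1 29 29 16 0 2520) (.l1 .sk)) (.nx 621 246 (.l1 .sk) (.l1 (.ls 79 41
  2967)))) (.nr 696 1048577 (.nx 640 41285 (.nx 623 408 (.l1 (.ls 79 41 4102)) (.nr 639 741457 (.nr
  634 220437 (.lg 0 false 11 89 97 17 0 27720) (.nx 638 1627 (.lg 0 false 4 79 79 16 0 5040) .out))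
  .out)) (.nr 695 311745 (.nx 687 660563 (.nr 647 7133 (.nr 644 1626 (.lg 0 true 4 83 83 16 0 5040)
  (.lg 2 true 3 79 79 16 49766 2520)) (.nx 659 82570 (.nr 658 262145 (.lg 1 false 11 83 97 17
  190750 27720) .out) (.nx 670 165142 (.lg 1 false 11 89 101 17 113403 27720) (.nr 686 262145 (.nx
  681 330282 (.lg 1 true 11 83 97 17 47687 27720) (.nr 685 77937 (.lg 2 false 4 83 89 16 11345
  5040) .out)) .out)))) (.nr 694 65 (.lg 0 true 7 67 67 16 0 2520) .out)) .out)) .out)) .out)
  .out)))) (.na 814 27 (.na 751 21 (.na 700 18 .ne (.nx 750 2642247 (.nr 749 1246976 (.nr 701 9 .s1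
  (.nx 703 245 (.nr 702 233 (.lg 0 true 1 31 31 13 0 5040) (.l1 .sk)) (.nx 704 246 (.l1 .sk) (.nx
  705 408 (.l1 (.ls 83 47 5889)) (.nr 748 741457 (.nr 743 311745 (.nr 739 220437 (.nx 716 109119
  (.lg 0 false 11 97 103 23 0 55440) (.nx 732 660563 (.nr 720 1726 (.lg 0 true 4 83 83 19 0 5040)
  (.nx 731 524289 (.lg 2 false 11 97 103 23 60698 720720) .out)) (.nr 738 129 (.lg 0 true 6 71 71
  19 0 5040) .out))) (.nx 742 13005 (.lg 0 false 3 89 89 13 0 5040) .out)) (.nx 747 1627 (.lg 0
  false 4 79 79 19 0 5040) .out)) .out))))) .out) .out)) (.na 813 23 (.nx 812 2642247 (.nr 811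
  1246976 (.nr 752 15 .s1 (.nx 754 245 (.nr 753 255 (.lg 0 true 1 29 29 16 0 2520) (.l1 .sk)) (.nx
  755 246 (.l1 .sk) (.nx 756 408 (.l1 (.ls 83 43 5048)) (.nr 810 741457 (.nr 805 311745 (.nr 800
  220437 (.nr 781 77937 (.nx 760 30013 (.lg 0 true 4 89 89 17 0 5040) (.nx 776 660563 (.nr 764 1726
  (.lg 0 true 4 79 79 17 0 5040) (.nx 775 524289 (.lg 2 false 11 79 79 19 78182 27720) .out)) (.nr
  780 129 (.lg 0 true 4 71 71 17 0 5040) .out))) (.nx 799 416129 (.nx 794 262145 (.lg 0 true 13 101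
  107 19 0 720720) (.nr 798 92683 (.lg 0 true 4 89 89 17 0 5040) .out)) .out)) (.nx 804 13005 (.lg
  0 false 4 83 89 17 0 5040) .out)) (.nx 809 1627 (.lg 0 false 4 79 79 17 0 5040) .out)) .out)))))
  .out) .out) .ne)) (.na 915 32 (.na 870 30 (.nx 869 2642247 (.nr 868 1048577 (.nr 815 23 .s1 (.nx
  819 408 (.nx 817 245 (.nr 816 333 (.lg 0 false 1 29 29 16 0 2520) (.l1 .sk)) (.nx 818 246 (.l1
  .sk) (.l1 (.ls 79 41 3927)))) (.nr 867 741457 (.nr 865 524289 (.nr 860 185365 (.nr 845 77937 (.nx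
  823 30013 (.lg 0 true 4 83 83 16 0 5040) (.nx 839 660563 (.nr 827 991 (.lg 0 true 4 73 73 16 0
  5040) (.nx 838 524289 (.lg 2 true 11 73 73 17 78182 27720) .out)) (.nr 844 129 (.lg 0 true 5 67
  67 16 0 2520) .out))) (.nx 859 416129 (.nr 854 131073 (.nx 849 165142 (.lg 0 true 4 97 97 16 0
  5040) (.nr 853 92683 (.lg 0 true 4 89 89 16 0 5040) .out)) (.nx 858 82572 (.lg 0 true 4 89 97 16
  0 5040) .out)) .out)) (.nx 864 16385 (.lg 0 false 4 89 97 16 0 5040) .out)) (.nx 866 2582 (.lg 0
  true 1 83 83 16 0 2520) .out)) .out))) .out) .out) (.nx 914 2642247 (.nr 913 1048577 (.nr 871 26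
  .s1 (.nx 908 660563 (.nx 899 82572 (.nx 873 245 (.nr 872 355 (.lg 0 false 1 29 29 19 0 5040) (.l1
  .sk)) (.nx 874 246 (.l1 .sk) (.nx 875 408 (.l1 (.ls 79 47 3534)) (.nr 898 741457 (.nr 886 185365
  (.lg 0 false 11 89 97 29 0 55440) (.nx 897 16385 (.lg 0 false 11 83 97 29 0 55440) .out))
  .out)))) (.nr 907 131073 (.nr 903 3067 (.lg 0 true 4 83 83 23 0 5040) (.nx 906 524289 (.lg 2
  false 3 89 97 23 47731 5040) .out)) .out)) (.nr 912 129 (.lg 0 true 4 67 67 23 0 5040) .out)))
  .out) .out)) (.na 916 42 .ne (.na 941 43 (.nx 940 2642247 (.nr 939 881745 (.nr 917 39 .s1 (.nx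
  920 246 (.nx 919 245 (.nr 918 477 (.l1 (.ls 29 43 1432)) (.l1 .sk)) (.l1 .sk)) (.nx 934 330282
  (.nx 929 65537 (.nx 921 408 (.l1 (.ls 79 47 2525)) (.nr 928 623489 (.nr 924 185365 (.lg 0 false 3
  97 97 23 0 5040) (.nx 927 16385 (.lg 0 false 3 89 89 23 0 5040) .out)) .out)) (.nr 933 77937 (.nr
  930 1276 (.lg 0 false 1 79 79 19 0 5040) (.nx 932 262145 (.lg 2 true 2 89 89 23 35804 5040)
  .out)) .out)) (.nr 938 217 (.lg 0 true 4 67 67 29 0 5040) .out)))) .out) .out) (.nx 967 2642247
  (.nr 966 881745 (.nr 942 41 .s1 (.nx 945 246 (.nx 944 245 (.nr 943 510 (.l1 (.ls 23 29 1398))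
  (.l1 .sk)) (.l1 .sk)) (.nx 956 52017 (.nx 946 408 (.l1 (.ls 79 31 2466)) (.nr 955 623489 (.nr 950
  185365 (.lg 0 false 4 97 97 16 0 5040) (.nx 954 16385 (.lg 0 false 4 89 97 16 0 5040) .out))
  .out)) (.nr 965 92683 (.nr 960 510 (.lg 0 true 4 73 73 16 0 5040) (.nx 964 262145 (.lg 2 false 4
  89 97 16 62967 5040) .out)) .out)))) .out) .out)))))) (.na 1107 69 (.na 1043 54 (.na 1020 49 (.na
  996 47 (.nx 995 2642247 (.nr 994 881745 (.nr 969 44 .s1 (.nx 971 245 (.nr 970 521 (.lg 0 false 1
  29 29 13 0 5040) (.l1 .sk)) (.nx 972 246 (.l1 .sk) (.nx 983 32769 (.lg 0 false 11 89 101 19 0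
  55440) (.nr 993 92683 (.nr 989 521 (.lg 0 true 6 73 73 19 0 5040) (.nx 992 262145 (.lg 2 false 3
  97 97 13 85113 5040) .out)) .out))))) .out) .out) (.nx 1019 2642247 (.nr 1018 881745 (.nr 997 45
  .s1 (.nx 1000 246 (.nx 999 245 (.nr 998 543 (.l1 (.ls 23 29 1280)) (.l1 .sk)) (.l1 .sk)) (.nr
  1013 220437 (.nx 1004 41287 (.lg 0 false 4 89 97 16 0 5040) (.nr 1012 77937 (.nr 1008 543 (.lg 0
  true 4 73 73 16 0 5040) (.nx 1011 262145 (.lg 2 false 3 83 89 16 59140 2520) .out)) .out)) (.nx
  1017 20644 (.lg 0 false 4 97 97 16 0 5040) .out)))) .out) .out)) (.na 1042 50 (.nx 1041 2642247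
  (.nr 1040 881745 (.nr 1021 47 .s1 (.nx 1037 262145 (.nx 1024 246 (.nx 1023 245 (.nr 1022 554 (.l1
  (.ls 31 29 1227)) (.l1 .sk)) (.l1 .sk)) (.nx 1032 52017 (.nx 1028 20644 (.lg 0 false 4 89 101 19
  0 5040) (.nr 1031 220437 (.nr 1029 92683 (.lg 0 false 1 89 97 16 0 2520) (.nx 1030 32769 (.lg 0
  false 1 89 89 16 0 2520) .out)) .out)) (.nr 1036 65537 (.nr 1033 1536 (.lg 0 true 1 73 73 16 0
  2520) (.nr 1034 46342 (.lg 2 false 1 83 89 16 26880 2520) (.nx 1035 82572 (.lg 0 true 1 83 83 16
  0 2520) .out))) .out))) (.nr 1039 257 (.lg 0 true 2 73 73 17 0 5040) .out))) .out) .out) (.lg 0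
  false 1 0 0 16 0 24))) (.na 1086 63 (.na 1065 58 (.nx 1064 2642247 (.nr 1063 881745 (.nr 1044 52
  .s1 (.nx 1055 41287 (.nx 1046 245 (.nr 1045 643 (.l1 (.ls 29 41 1114)) (.l1 .sk)) (.nx 1047 246
  (.l1 .sk) (.nr 1050 220437 (.lg 0 false 3 89 89 23 0 5040) (.nx 1054 20644 (.lg 0 false 4 89 89
  23 0 5040) .out)))) (.nr 1062 77937 (.nr 1059 643 (.lg 0 true 4 71 71 23 0 5040) (.nx 1061 262145
  (.lg 2 true 2 89 89 19 56834 5040) .out)) .out))) .out) .out) (.nx 1085 2642247 (.nr 1084 881745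
  (.nr 1066 56 .s1 (.nx 1069 246 (.nx 1068 245 (.nr 1067 698 (.l1 (.ls 23 37 1037)) (.l1 .sk)) (.l1
  .sk)) (.nx 1075 32769 (.lg 0 false 6 89 97 23 0 5040) (.nr 1083 92683 (.nr 1079 698 (.lg 0 true 4
  73 73 19 0 5040) (.nx 1082 262145 (.lg 2 false 3 89 89 19 85113 5040) .out)) .out)))) .out)
  .out)) (.na 1106 64 (.nx 1105 2642247 (.nr 1104 881745 (.nr 1087 62 .s1 (.nx 1094 32769 (.nx 1089
  245 (.nr 1088 709 (.l1 (.ls 23 31 955)) (.l1 .sk)) (.nx 1090 246 (.l1 .sk) (.lg 0 false 4 89 89
  19 0 5040))) (.nr 1103 92683 (.nr 1098 709 (.lg 0 true 4 71 71 19 0 5040) (.nx 1102 262145 (.lg 2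
  false 4 79 83 19 85113 5040) .out)) .out))) .out) .out) .ne))) (.na 1174 82 (.na 1156 75 (.na
  1129 70 (.nx 1128 2642247 (.nr 1127 2097153 (.nr 1108 68 .s1 (.nx 1112 408 (.nx 1110 245 (.nr
  1109 776 (.l1 (.ls 19 31 872)) (.l1 .sk)) (.nx 1111 246 (.l1 .sk) (.l1 (.ls 83 37 1538)))) (.nr
  1126 1048577 (.nx 1119 32769 (.nx 1116 20644 (.lg 0 false 4 89 101 19 0 5040) (.nr 1118 262145
  (.lg 0 false 2 89 89 17 0 5040) .out)) (.nr 1125 65537 (.nr 1123 776 (.lg 0 true 4 73 79 19 0
  5040) (.nx 1124 416129 (.lg 2 false 1 97 97 17 65691 2520) .out)) .out)) .out))) .out) .out) (.nx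
  1155 2642247 (.nr 1154 2097153 (.nr 1130 69 .s1 (.nx 1143 32769 (.nx 1131 408 (.l1 (.ls 73 43
  2381)) (.nr 1142 1048577 (.lg 0 false 11 83 83 29 0 55440) .out)) (.nr 1153 65537 (.nr 1149 831
  (.lg 0 true 6 61 61 29 0 5040) (.nx 1152 416129 (.lg 2 true 3 73 73 23 61343 5040) .out)) .out)))
  .out) .out)) (.na 1157 81 (.lg 0 false 1 0 0 16 0 24) (.nx 1173 2642247 (.nr 1172 2097153 (.nr
  1158 80 .s1 (.nx 1164 32769 (.nx 1159 408 (.l1 (.ls 73 37 2058)) (.nr 1163 1048577 (.lg 0 false 4
  89 89 19 0 5040) .out)) (.nr 1171 65537 (.nr 1168 909 (.lg 0 true 4 67 67 19 0 5040) (.nx 1170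
  416129 (.lg 2 false 2 79 79 17 60250 5040) .out)) .out))) .out) .out))) (.na 1204 90 (.na 1189 86
  (.nx 1188 2642247 (.nr 1187 2097153 (.nr 1175 81 .s1 (.nx 1176 408 (.l1 (.ls 83 37 2033)) (.nr
  1186 1048577 (.nx 1179 32769 (.lg 0 false 3 97 97 19 0 5040) (.nr 1185 65537 (.nr 1182 953 (.lg 0
  true 3 73 73 19 0 5040) (.nx 1184 416129 (.lg 2 false 2 83 83 19 60250 5040) .out)) .out))
  .out))) .out) .out) (.nx 1203 2642247 (.nr 1202 2097153 (.nr 1190 85 .s1 (.nx 1191 408 (.l1 (.ls
  83 37 1938)) (.nr 1201 1048577 (.nx 1194 32769 (.lg 0 false 3 97 97 19 0 5040) (.nr 1200 65537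
  (.nr 1197 513 (.lg 0 true 3 71 71 19 0 5040) (.nx 1199 416129 (.lg 2 false 2 89 89 19 99369 5040)
  .out)) .out)) .out))) .out) .out)) (.na 1220 91 (.nx 1219 2642247 (.nr 1218 2097153 (.nr 1205 89
  .s1 (.nx 1206 408 (.l1 (.ls 79 43 1852)) (.nr 1217 1048577 (.nx 1210 32769 (.lg 0 false 4 89 89
  31 0 5040) (.nr 1216 65537 (.nr 1213 1009 (.lg 0 true 3 71 71 29 0 5040) (.nx 1215 416129 (.lg 2
  true 2 79 79 29 60250 5040) .out)) .out)) .out))) .out) .out) (.na 1221 94 .ne (.nx 1235 2642247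
  (.nr 1234 2097153 (.nr 1222 93 .s1 (.nx 1223 408 (.l1 (.ls 83 37 1773)) (.nr 1233 1482912 (.nx
  1226 30013 (.lg 0 false 3 97 97 19 0 5040) (.nr 1232 65537 (.nr 1229 513 (.lg 0 true 3 67 67 19 0
  5040) (.nx 1231 416129 (.lg 2 false 2 83 83 19 99369 5040) .out)) .out)) .out))) .out)
  .out)))))))

theorem c81 :
    OkQ ckI L8 164 1 44 0 34359738368 1 1099511627776 ∧
    OkQ ckI L10 245 3 98 0 34359738368 1 1099511627776 := by
  refine ⟨?_, ?_⟩
  · refine fin 2952 877 T81_0 ?_
    refine jn 10 (by decide +kernel) ?_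
    refine jn 17 (by decide +kernel) ?_
    refine jn 23 (by decide +kernel) ?_
    refine jn 29 (by decide +kernel) ?_
    refine jn 35 (by decide +kernel) ?_
    refine jn 41 (by decide +kernel) ?_
    refine jn 56 (by decide +kernel) ?_
    refine jn 63 (by decide +kernel) ?_
    refine jn 69 (by decide +kernel) ?_
    refine jn 83 (by decide +kernel) ?_
    refine jn 96 (by decide +kernel) ?_
    refine jn 109 (by decide +kernel) ?_
    refine jn 122 (by decide +kernel) ?_
    refine jn 136 (by decide +kernel) ?_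
    refine jn 153 (by decide +kernel) ?_
    refine jn 174 (by decide +kernel) ?_
    refine jn 197 (by decide +kernel) ?_
    refine jn 206 (by decide +kernel) ?_
    refine jn 207 (by decide +kernel) ?_
    refine jn 208 (by decide +kernel) ?_
    refine jn 210 (by decide +kernel) ?_
    refine jn 211 (by decide +kernel) ?_
    refine jn 212 (by decide +kernel) ?_
    refine jn 213 (by decide +kernel) ?_
    refine jn 214 (by decide +kernel) ?_
    refine jn 215 (by decide +kernel) ?_
    refine jn 217 (by decide +kernel) ?_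
    refine jn 218 (by decide +kernel) ?_
    refine jn 219 (by decide +kernel) ?_
    refine jn 235 (by decide +kernel) ?_
    refine jn 239 (by decide +kernel) ?_
    refine jn 242 (by decide +kernel) ?_
    refine jn 244 (by decide +kernel) ?_
    refine jn 246 (by decide +kernel) ?_
    refine jn 249 (by decide +kernel) ?_
    refine jn 250 (by decide +kernel) ?_
    refine jn 255 (by decide +kernel) ?_
    refine jn 265 (by decide +kernel) ?_
    refine jn 268 (by decide +kernel) ?_
    refine jn 278 (by decide +kernel) ?_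
    refine jn 281 (by decide +kernel) ?_
    refine jn 291 (by decide +kernel) ?_
    refine jn 300 (by decide +kernel) ?_
    refine jn 308 (by decide +kernel) ?_
    refine jn 332 (by decide +kernel) ?_
    refine jn 358 (by decide +kernel) ?_
    refine jn 366 (by decide +kernel) ?_
    refine jn 368 (by decide +kernel) ?_
    refine jn 370 (by decide +kernel) ?_
    refine jn 372 (by decide +kernel) ?_
    refine jn 374 (by decide +kernel) ?_
    refine jn 376 (by decide +kernel) ?_
    refine jn 378 (by decide +kernel) ?_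
    refine jn 386 (by decide +kernel) ?_
    refine jn 391 (by decide +kernel) ?_
    refine jn 395 (by decide +kernel) ?_
    refine jn 399 (by decide +kernel) ?_
    refine jn 400 (by decide +kernel) ?_
    refine jn 413 (by decide +kernel) ?_
    refine jn 421 (by decide +kernel) ?_
    refine jn 434 (by decide +kernel) ?_
    refine jn 442 (by decide +kernel) ?_
    refine jn 449 (by decide +kernel) ?_
    refine jn 488 (by decide +kernel) ?_
    refine jn 495 (by decide +kernel) ?_
    refine jn 506 (by decide +kernel) ?_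
    refine jn 508 (by decide +kernel) ?_
    refine jn 510 (by decide +kernel) ?_
    refine jn 513 (by decide +kernel) ?_
    refine jn 516 (by decide +kernel) ?_
    refine jn 520 (by decide +kernel) ?_
    refine jn 528 (by decide +kernel) ?_
    refine jn 536 (by decide +kernel) ?_
    refine jn 543 (by decide +kernel) ?_
    refine jn 556 (by decide +kernel) ?_
    refine jn 558 (by decide +kernel) ?_
    refine jn 559 (by decide +kernel) ?_
    refine jn 560 (by decide +kernel) ?_
    refine jn 561 (by decide +kernel) ?_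
    refine jn 562 (by decide +kernel) ?_
    refine jn 563 (by decide +kernel) ?_
    refine jn 564 (by decide +kernel) ?_
    refine jn 565 (by decide +kernel) ?_
    refine jn 566 (by decide +kernel) ?_
    refine jn 567 (by decide +kernel) ?_
    refine jn 568 (by decide +kernel) ?_
    refine jn 569 (by decide +kernel) ?_
    refine jn 570 (by decide +kernel) ?_
    refine jn 571 (by decide +kernel) ?_
    refine jn 572 (by decide +kernel) ?_
    refine jn 573 (by decide +kernel) ?_
    refine jn 574 (by decide +kernel) ?_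
    refine jn 575 (by decide +kernel) ?_
    refine jn 576 (by decide +kernel) ?_
    refine jn 579 (by decide +kernel) ?_
    refine jn 581 (by decide +kernel) ?_
    refine jn 587 (by decide +kernel) ?_
    refine jn 588 (by decide +kernel) ?_
    refine jn 591 (by decide +kernel) ?_
    refine jn 593 (by decide +kernel) ?_
    refine jn 597 (by decide +kernel) ?_
    refine jn 602 (by decide +kernel) ?_
    refine jn 614 (by decide +kernel) ?_
    refine jn 618 (by decide +kernel) ?_
    refine jn 622 (by decide +kernel) ?_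
    refine jn 628 (by decide +kernel) ?_
    refine jn 633 (by decide +kernel) ?_
    refine jn 640 (by decide +kernel) ?_
    refine jn 647 (by decide +kernel) ?_
    refine jn 661 (by decide +kernel) ?_
    refine jn 667 (by decide +kernel) ?_
    refine jn 670 (by decide +kernel) ?_
    refine jn 676 (by decide +kernel) ?_
    refine jn 683 (by decide +kernel) ?_
    refine jn 690 (by decide +kernel) ?_
    refine jn 699 (by decide +kernel) ?_
    refine jn 700 (by decide +kernel) ?_
    refine jn 701 (by decide +kernel) ?_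
    refine jn 702 (by decide +kernel) ?_
    refine jn 703 (by decide +kernel) ?_
    refine jn 704 (by decide +kernel) ?_
    refine jn 705 (by decide +kernel) ?_
    refine jn 706 (by decide +kernel) ?_
    refine jn 707 (by decide +kernel) ?_
    refine jn 713 (by decide +kernel) ?_
    refine jn 717 (by decide +kernel) ?_
    refine jn 718 (by decide +kernel) ?_
    refine jn 719 (by decide +kernel) ?_
    refine jn 722 (by decide +kernel) ?_
    refine jn 724 (by decide +kernel) ?_
    refine jn 725 (by decide +kernel) ?_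
    refine jn 738 (by decide +kernel) ?_
    refine jn 744 (by decide +kernel) ?_
    refine jn 753 (by decide +kernel) ?_
    refine jn 760 (by decide +kernel) ?_
    refine jn 770 (by decide +kernel) ?_
    refine jn 771 (by decide +kernel) ?_
    refine jn 772 (by decide +kernel) ?_
    refine jn 773 (by decide +kernel) ?_
    refine jn 778 (by decide +kernel) ?_
    refine jn 779 (by decide +kernel) ?_
    refine jn 781 (by decide +kernel) ?_
    refine jn 786 (by decide +kernel) ?_
    refine jn 794 (by decide +kernel) ?_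
    refine jn 795 (by decide +kernel) ?_
    refine jn 796 (by decide +kernel) ?_
    refine jn 797 (by decide +kernel) ?_
    refine jn 799 (by decide +kernel) ?_
    refine jn 801 (by decide +kernel) ?_
    refine jn 808 (by decide +kernel) ?_
    refine jn 811 (by decide +kernel) ?_
    refine jn 820 (by decide +kernel) ?_
    refine jn 821 (by decide +kernel) ?_
    refine jn 822 (by decide +kernel) ?_
    refine jn 826 (by decide +kernel) ?_
    refine jn 827 (by decide +kernel) ?_
    refine jn 828 (by decide +kernel) ?_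
    refine jn 831 (by decide +kernel) ?_
    refine jn 845 (by decide +kernel) ?_
    refine jn 851 (by decide +kernel) ?_
    refine jn 861 (by decide +kernel) ?_
    refine jn 862 (by decide +kernel) ?_
    refine jn 863 (by decide +kernel) ?_
    refine jn 864 (by decide +kernel) ?_
    refine jn 867 (by decide +kernel) ?_
    refine jn 872 (by decide +kernel) ?_
    exact je (by decide +kernel)
  · refine fin 2520 1236 T81_1 ?_
    refine jn 17 (by decide +kernel) ?_
    refine jn 29 (by decide +kernel) ?_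
    refine jn 41 (by decide +kernel) ?_
    refine jn 61 (by decide +kernel) ?_
    refine jn 75 (by decide +kernel) ?_
    refine jn 97 (by decide +kernel) ?_
    refine jn 122 (by decide +kernel) ?_
    refine jn 144 (by decide +kernel) ?_
    refine jn 209 (by decide +kernel) ?_
    refine jn 223 (by decide +kernel) ?_
    refine jn 233 (by decide +kernel) ?_
    refine jn 235 (by decide +kernel) ?_
    refine jn 237 (by decide +kernel) ?_
    refine jn 240 (by decide +kernel) ?_
    refine jn 244 (by decide +kernel) ?_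
    refine jn 246 (by decide +kernel) ?_
    refine jn 248 (by decide +kernel) ?_
    refine jn 251 (by decide +kernel) ?_
    refine jn 263 (by decide +kernel) ?_
    refine jn 267 (by decide +kernel) ?_
    refine jn 271 (by decide +kernel) ?_
    refine jn 275 (by decide +kernel) ?_
    refine jn 282 (by decide +kernel) ?_
    refine jn 293 (by decide +kernel) ?_
    refine jn 305 (by decide +kernel) ?_
    refine jn 316 (by decide +kernel) ?_
    refine jn 326 (by decide +kernel) ?_
    refine jn 335 (by decide +kernel) ?_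
    refine jn 339 (by decide +kernel) ?_
    refine jn 347 (by decide +kernel) ?_
    refine jn 350 (by decide +kernel) ?_
    refine jn 361 (by decide +kernel) ?_
    refine jn 373 (by decide +kernel) ?_
    refine jn 386 (by decide +kernel) ?_
    refine jn 432 (by decide +kernel) ?_
    refine jn 443 (by decide +kernel) ?_
    refine jn 456 (by decide +kernel) ?_
    refine jn 481 (by decide +kernel) ?_
    refine jn 505 (by decide +kernel) ?_
    refine jn 531 (by decide +kernel) ?_
    refine jn 549 (by decide +kernel) ?_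
    refine jn 560 (by decide +kernel) ?_
    refine jn 583 (by decide +kernel) ?_
    refine jn 605 (by decide +kernel) ?_
    refine jn 622 (by decide +kernel) ?_
    refine jn 627 (by decide +kernel) ?_
    refine jn 632 (by decide +kernel) ?_
    refine jn 638 (by decide +kernel) ?_
    refine jn 644 (by decide +kernel) ?_
    refine jn 647 (by decide +kernel) ?_
    refine jn 658 (by decide +kernel) ?_
    refine jn 670 (by decide +kernel) ?_
    refine jn 681 (by decide +kernel) ?_
    refine jn 694 (by decide +kernel) ?_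
    refine jn 708 (by decide +kernel) ?_
    refine jn 713 (by decide +kernel) ?_
    refine jn 716 (by decide +kernel) ?_
    refine jn 720 (by decide +kernel) ?_
    refine jn 731 (by decide +kernel) ?_
    refine jn 738 (by decide +kernel) ?_
    refine jn 747 (by decide +kernel) ?_
    refine jn 756 (by decide +kernel) ?_
    refine jn 757 (by decide +kernel) ?_
    refine jn 758 (by decide +kernel) ?_
    refine jn 759 (by decide +kernel) ?_
    refine jn 760 (by decide +kernel) ?_
    refine jn 763 (by decide +kernel) ?_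
    refine jn 764 (by decide +kernel) ?_
    refine jn 765 (by decide +kernel) ?_
    refine jn 766 (by decide +kernel) ?_
    refine jn 767 (by decide +kernel) ?_
    refine jn 768 (by decide +kernel) ?_
    refine jn 769 (by decide +kernel) ?_
    refine jn 770 (by decide +kernel) ?_
    refine jn 771 (by decide +kernel) ?_
    refine jn 772 (by decide +kernel) ?_
    refine jn 773 (by decide +kernel) ?_
    refine jn 774 (by decide +kernel) ?_
    refine jn 775 (by decide +kernel) ?_
    refine jn 781 (by decide +kernel) ?_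
    refine jn 793 (by decide +kernel) ?_
    refine jn 798 (by decide +kernel) ?_
    refine jn 809 (by decide +kernel) ?_
    refine jn 819 (by decide +kernel) ?_
    refine jn 820 (by decide +kernel) ?_
    refine jn 821 (by decide +kernel) ?_
    refine jn 822 (by decide +kernel) ?_
    refine jn 823 (by decide +kernel) ?_
    refine jn 827 (by decide +kernel) ?_
    refine jn 828 (by decide +kernel) ?_
    refine jn 829 (by decide +kernel) ?_
    refine jn 830 (by decide +kernel) ?_
    refine jn 831 (by decide +kernel) ?_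
    refine jn 832 (by decide +kernel) ?_
    refine jn 833 (by decide +kernel) ?_
    refine jn 834 (by decide +kernel) ?_
    refine jn 835 (by decide +kernel) ?_
    refine jn 836 (by decide +kernel) ?_
    refine jn 837 (by decide +kernel) ?_
    refine jn 838 (by decide +kernel) ?_
    refine jn 849 (by decide +kernel) ?_
    refine jn 851 (by decide +kernel) ?_
    refine jn 853 (by decide +kernel) ?_
    refine jn 864 (by decide +kernel) ?_
    refine jn 875 (by decide +kernel) ?_
    refine jn 883 (by decide +kernel) ?_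
    refine jn 886 (by decide +kernel) ?_
    refine jn 897 (by decide +kernel) ?_
    refine jn 906 (by decide +kernel) ?_
    refine jn 921 (by decide +kernel) ?_
    refine jn 927 (by decide +kernel) ?_
    refine jn 938 (by decide +kernel) ?_
    refine jn 950 (by decide +kernel) ?_
    refine jn 960 (by decide +kernel) ?_
    refine jn 972 (by decide +kernel) ?_
    refine jn 983 (by decide +kernel) ?_
    refine jn 992 (by decide +kernel) ?_
    refine jn 1008 (by decide +kernel) ?_
    refine jn 1017 (by decide +kernel) ?_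
    refine jn 1024 (by decide +kernel) ?_
    refine jn 1025 (by decide +kernel) ?_
    refine jn 1026 (by decide +kernel) ?_
    refine jn 1027 (by decide +kernel) ?_
    refine jn 1028 (by decide +kernel) ?_
    refine jn 1029 (by decide +kernel) ?_
    refine jn 1032 (by decide +kernel) ?_
    refine jn 1033 (by decide +kernel) ?_
    refine jn 1034 (by decide +kernel) ?_
    refine jn 1037 (by decide +kernel) ?_
    refine jn 1038 (by decide +kernel) ?_
    refine jn 1039 (by decide +kernel) ?_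
    refine jn 1054 (by decide +kernel) ?_
    refine jn 1061 (by decide +kernel) ?_
    refine jn 1075 (by decide +kernel) ?_
    refine jn 1082 (by decide +kernel) ?_
    refine jn 1098 (by decide +kernel) ?_
    refine jn 1111 (by decide +kernel) ?_
    refine jn 1116 (by decide +kernel) ?_
    refine jn 1119 (by decide +kernel) ?_
    refine jn 1123 (by decide +kernel) ?_
    refine jn 1142 (by decide +kernel) ?_
    refine jn 1163 (by decide +kernel) ?_
    refine jn 1170 (by decide +kernel) ?_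
    refine jn 1182 (by decide +kernel) ?_
    refine jn 1194 (by decide +kernel) ?_
    refine jn 1205 (by decide +kernel) ?_
    refine jn 1213 (by decide +kernel) ?_
    refine jn 1226 (by decide +kernel) ?_
    exact je (by decide +kernel)

end Pool.Agent.MP_2339ce_nt.NR
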