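import Pool.Agent.MP_2339ce_nt.Q2.NC.L9
import Pool.Agent.MP_2339ce_nt.Q2.NC.L10
import Pool.Agent.MP_2339ce_nt.Q2.CkI

/-! Block NR: runs. -/

set_option autoImplicit false
set_option maxRecDepth 100000

noncomputable section

namespace Pool.Agent.MP_2339ce_nt.NR

open Q2.Top

def T82_0 : Ph :=
  (.na 1029 133 (.na 635 64 (.na 365 39 (.na 184 26 (.na 95 22 (.na 1 18 .ne (.na 55 19 (.nx 54
  2097153 (.nr 53 1048577 (.nr 2 11 .s1 (.nx 5 210 (.nx 4 209 (.nr 3 194 (.lg 0 true 1 31 31 13 0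
  150480) (.l1 .sk)) (.l1 .sk)) (.nx 6 324 (.l1 (.ls 89 43 3385)) (.nr 52 623489 (.nr 46 262145
  (.nx 38 416129 (.nx 17 42467 (.nr 13 185365 (.lg 0 false 7 101 103 19 0 1053360) (.nx 16 10323
  (.lg 0 false 3 97 97 13 0 150480) .out)) (.nr 37 155873 (.nr 22 2200 (.lg 0 true 5 89 89 19 0
  150480) (.nx 29 82572 (.lg 1 false 7 97 101 19 80273 1053360) (.nr 36 131073 (.lg 2 false 7 97
  103 19 34725 1053360) .out))) .out)) (.nr 45 257 (.lg 0 true 7 79 79 19 0 210672) .out)) (.nx 51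
  2049 (.lg 0 false 5 83 89 19 0 150480) .out)) .out)))) .out) .out) (.nx 94 2097153 (.nr 93
  1048577 (.nr 56 13 .s1 (.nx 58 209 (.nr 57 225 (.l1 (.ls 23 31 2301)) (.l1 .sk)) (.nx 59 210 (.l1
  .sk) (.nx 60 324 (.l1 (.ls 79 37 3207)) (.nr 92 623489 (.nr 88 262145 (.nx 67 42467 (.lg 0 false
  7 101 101 16 0 526680) (.nr 87 155873 (.nr 79 751 (.lg 0 true 12 79 79 16 0 30096) (.nx 86 416129
  (.lg 2 false 7 101 101 16 80273 526680) .out)) .out)) (.nx 91 2049 (.lg 0 true 3 79 79 11 0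
  15048) .out)) .out))))) .out) .out))) (.na 148 23 (.nx 147 2097153 (.nr 146 1048577 (.nr 96 17
  .s1 (.nx 100 324 (.nx 98 209 (.nr 97 235 (.l1 (.ls 29 41 1988)) (.l1 .sk)) (.nx 99 210 (.l1 .sk)
  (.l1 (.ls 83 43 2770)))) (.nr 145 623489 (.nx 117 42467 (.nr 113 262145 (.lg 0 false 13 97 101 19
  0 13693680) (.nx 116 2049 (.lg 0 true 3 83 83 13 0 1053360) .out)) (.nr 144 155873 (.nr 130 751
  (.lg 0 true 13 79 79 19 0 391248) (.nx 143 416129 (.lg 2 false 13 97 103 19 80273 13693680)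
  .out)) .out)) .out))) .out) .out) (.na 149 25 .ne (.nx 183 2097153 (.nr 182 1048577 (.nr 150 21
  .s1 (.nx 153 210 (.nx 152 209 (.nr 151 266 (.lg 0 false 1 29 29 16 0 75240) (.l1 .sk)) (.l1 .sk))
  (.nx 177 524289 (.nx 154 324 (.l1 (.ls 83 31 2438)) (.nr 176 524289 (.nx 166 52017 (.nr 161
  185365 (.lg 0 false 7 97 101 16 0 526680) (.nx 165 13005 (.lg 0 false 4 97 97 16 0 150480) .out))
  (.nr 175 92683 (.nr 170 1667 (.lg 0 true 4 83 83 16 0 150480) (.nx 174 330282 (.lg 2 false 4 97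
  101 16 39004 150480) .out)) .out)) .out)) (.nr 181 129 (.lg 0 true 4 71 71 16 0 150480) .out))))
  .out) .out)))) (.na 280 31 (.na 219 27 (.nx 218 2097153 (.nr 217 1048577 (.nr 185 22 .s1 (.nx 189
  324 (.nx 187 209 (.nr 186 276 (.lg 0 false 1 31 31 11 0 391248) (.l1 .sk)) (.nx 188 210 (.l1 .sk)
  (.l1 (.ls 89 43 2344)))) (.nr 216 524289 (.nr 210 185365 (.nx 196 52017 (.lg 0 false 7 101 103 19
  0 13693680) (.nr 209 92683 (.nr 203 824 (.lg 0 true 7 89 89 19 0 2738736) (.nx 208 330282 (.lg 2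
  false 5 101 103 19 41887 13693680) .out)) .out)) (.nx 215 13005 (.lg 0 false 5 101 101 19 0
  1956240) .out)) .out))) .out) .out) (.na 249 30 (.nx 248 2097153 (.nr 247 1048577 (.nr 220 23 .s1
  (.nx 224 324 (.nx 222 209 (.nr 221 307 (.lg 0 true 1 31 31 16 0 526680) (.l1 .sk)) (.nx 223 210
  (.l1 .sk) (.l1 (.ls 83 37 2257)))) (.nr 246 524289 (.nr 244 370729 (.nx 233 52017 (.nr 228 131073
  (.lg 0 false 4 101 103 16 0 1053360) (.nx 232 20644 (.lg 0 false 4 101 101 16 0 1053360) .out))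
  (.nr 243 92683 (.nr 238 897 (.lg 0 true 5 83 83 16 0 75240) (.nx 242 330282 (.lg 2 false 4 101
  101 16 39004 1053360) .out)) .out)) (.nx 245 1292 (.lg 0 true 1 79 79 16 0 15048) .out)) .out)))
  .out) .out) (.nx 279 2097153 (.nr 278 1048577 (.nr 250 27 .s1 (.nx 253 210 (.nx 252 209 (.nr 251
  317 (.lg 0 true 1 37 37 19 0 150480) (.l1 .sk)) (.l1 .sk)) (.nx 273 524289 (.nx 254 324 (.l1 (.ls
  97 43 2032)) (.nr 272 524289 (.nx 266 52017 (.nr 261 185365 (.lg 0 false 7 97 103 31 0 1053360)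
  (.nx 265 13005 (.nr 263 370729 (.lg 0 false 2 101 103 23 0 1053360) (.nx 264 1292 (.lg 0 true 1
  83 83 19 0 150480) .out)) .out)) (.nr 271 92683 (.nr 268 920 (.lg 0 true 2 83 83 23 0 150480)
  (.nx 270 330282 (.lg 2 false 2 103 107 23 39004 1053360) .out)) .out)) .out)) (.nr 277 129 (.lg 0
  true 4 73 73 29 0 150480) .out)))) .out) .out))) (.na 314 33 (.na 313 32 (.nx 312 2097153 (.nr
  311 1048577 (.nr 281 28 .s1 (.nx 285 324 (.nx 283 209 (.nr 282 328 (.lg 0 false 1 31 31 13 0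
  75240) (.l1 .sk)) (.nx 284 210 (.l1 .sk) (.l1 (.ls 83 29 1966)))) (.nr 310 524289 (.nx 297 52017
  (.nr 292 185365 (.lg 0 false 7 101 103 16 0 1053360) (.nx 296 13005 (.lg 0 false 4 101 101 16 0
  150480) .out)) (.nr 309 92683 (.nr 304 946 (.lg 0 true 7 83 83 16 0 105336) (.nx 308 330282 (.lg
  2 false 4 97 101 16 39004 150480) .out)) .out)) .out))) .out) .out) .ne) (.na 342 38 (.nx 341
  2097153 (.nr 340 881745 (.nr 315 30 .s1 (.nx 317 209 (.nr 316 389 (.lg 0 false 1 29 29 16 0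
  15048) (.l1 .sk)) (.nx 318 210 (.l1 .sk) (.nx 319 324 (.l1 (.ls 83 37 1847)) (.nr 339 623489 (.nr
  334 155873 (.nx 323 32769 (.lg 0 false 4 101 101 17 0 1053360) (.nr 333 65537 (.nr 328 389 (.lg 0
  true 5 73 73 19 0 75240) (.nx 332 208065 (.lg 2 false 4 97 101 17 55895 1053360) .out)) .out))
  (.nx 338 13005 (.lg 0 false 4 101 101 17 0 1053360) .out)) .out))))) .out) .out) (.nx 364 2097153
  (.nr 363 881745 (.nr 343 36 .s1 (.nx 344 324 (.l1 (.ls 79 43 2765)) (.nr 362 623489 (.nx 351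
  26009 (.lg 0 false 7 97 97 13 0 1053360) (.nr 361 77937 (.nr 357 399 (.lg 0 true 6 67 67 13 0
  30096) (.nx 360 208065 (.lg 2 true 3 89 89 13 65623 150480) .out)) .out)) .out))) .out) .out)))))
  (.na 504 54 (.na 436 45 (.na 390 41 (.nx 389 2097153 (.nr 388 881745 (.nr 366 37 .s1 (.nx 370 324
  (.nx 368 209 (.nr 367 420 (.lg 0 false 1 37 37 17 0 978120) (.l1 .sk)) (.nx 369 210 (.l1 .sk)
  (.l1 (.ls 89 37 1563)))) (.nr 387 623489 (.nr 382 155873 (.nx 374 32769 (.lg 0 false 4 97 101 19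
  0 1956240) (.nr 381 65537 (.nr 378 420 (.lg 0 true 4 83 83 19 0 391248) (.nx 380 208065 (.lg 2
  false 2 101 103 17 51769 1956240) .out)) .out)) (.nx 386 13005 (.lg 0 false 4 97 103 19 0
  1956240) .out)) .out))) .out) .out) (.na 413 42 (.nx 412 2097153 (.nr 411 881745 (.nr 391 39 .s1
  (.nx 395 324 (.nx 393 209 (.nr 392 430 (.lg 0 false 1 29 29 16 0 526680) (.l1 .sk)) (.nx 394 210
  (.l1 .sk) (.l1 (.ls 83 29 1487)))) (.nr 410 623489 (.nx 399 26009 (.lg 0 false 4 103 103 16 0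
  1053360) (.nr 409 77937 (.nr 404 430 (.lg 0 true 5 79 79 16 0 75240) (.nx 408 208065 (.lg 2 false
  4 101 101 16 65623 1053360) .out)) .out)) .out))) .out) .out) (.nx 435 2097153 (.nr 434 881745
  (.nr 414 40 .s1 (.nx 427 32769 (.nx 424 13005 (.nx 418 324 (.nx 416 209 (.nr 415 461 (.l1 (.ls 41
  41 1043)) (.l1 .sk)) (.nx 417 210 (.l1 .sk) (.l1 (.ls 89 43 1452)))) (.nr 423 623489 (.lg 0 false
  5 97 103 31 0 1053360) .out)) (.nr 426 155873 (.lg 0 false 2 101 103 29 0 1053360) .out)) (.nr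
  433 65537 (.nr 430 461 (.lg 0 true 3 83 83 29 0 210672) (.nx 432 208065 (.lg 2 false 2 101 103 29
  47165 1053360) .out)) .out))) .out) .out))) (.na 460 49 (.na 459 46 (.nx 458 2097153 (.nr 457
  881745 (.nr 437 43 .s1 (.nx 449 32769 (.nx 439 209 (.nr 438 471 (.l1 (.ls 37 31 973)) (.l1 .sk))
  (.nx 440 210 (.l1 .sk) (.nx 446 13005 (.nx 441 324 (.l1 (.ls 83 37 1355)) (.nr 445 623489 (.lg 0
  false 4 97 101 19 0 150480) .out)) (.nr 448 155873 (.lg 0 false 2 97 101 19 0 150480) .out))))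
  (.nr 456 65537 (.nr 453 471 (.lg 0 true 4 79 79 19 0 150480) (.nx 455 208065 (.lg 2 false 2 97
  101 19 46164 150480) .out)) .out))) .out) .out) .ne) (.na 481 50 (.nx 480 2097153 (.nr 479 881745
  (.nr 461 47 .s1 (.nx 463 209 (.nr 462 512 (.l1 (.ls 31 29 894)) (.l1 .sk)) (.nx 464 210 (.l1 .sk)
  (.nx 465 324 (.l1 (.ls 79 29 1245)) (.nr 478 741457 (.nx 469 26009 (.lg 0 false 4 101 101 16 0
  1053360) (.nr 477 65537 (.nr 473 512 (.lg 0 true 4 73 73 16 0 210672) (.nx 476 208065 (.lg 2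
  false 3 89 89 16 55210 526680) .out)) .out)) .out))))) .out) .out) (.nx 503 2097153 (.nr 502
  881745 (.nr 482 48 .s1 (.nx 485 210 (.nx 484 209 (.nr 483 553 (.l1 (.ls 37 37 876)) (.l1 .sk))
  (.l1 .sk)) (.nx 493 26009 (.nx 486 324 (.l1 (.ls 83 37 1220)) (.nr 492 741457 (.lg 0 false 6 97
  101 23 0 1053360) .out)) (.nr 501 65537 (.nr 497 553 (.lg 0 true 4 79 79 23 0 150480) (.nx 500
  208065 (.lg 2 false 3 97 97 19 55210 1053360) .out)) .out)))) .out) .out)))) (.na 557 58 (.na 523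
  55 (.nx 522 2097153 (.nr 521 881745 (.nr 505 53 .s1 (.nx 512 26009 (.nx 506 324 (.l1 (.ls 79 43
  1946)) (.nr 511 741457 (.lg 0 false 5 101 101 23 0 1053360) .out)) (.nr 520 65537 (.nr 517 563
  (.lg 0 true 5 73 73 23 0 150480) (.nx 519 208065 (.lg 2 true 2 89 89 19 55210 30096) .out))
  .out))) .out) .out) (.na 540 57 (.nx 539 2097153 (.nr 538 881745 (.nr 524 54 .s1 (.nx 530 26009
  (.nx 525 324 (.l1 (.ls 79 37 1911)) (.nr 529 741457 (.lg 0 false 4 101 101 17 0 1053360) .out))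
  (.nr 537 65537 (.nr 534 584 (.lg 0 true 4 73 73 17 0 150480) (.nx 536 208065 (.lg 2 true 2 97 97
  17 55210 1053360) .out)) .out))) .out) .out) (.nx 556 2097153 (.nr 555 881745 (.nr 541 56 .s1
  (.nx 542 324 (.l1 (.ls 79 37 1844)) (.nr 554 741457 (.nx 546 26009 (.lg 0 false 4 101 101 17 0
  1053360) (.nr 553 65537 (.nr 550 594 (.lg 0 true 4 73 73 17 0 30096) (.nx 552 208065 (.lg 2 true
  2 97 97 16 55210 1053360) .out)) .out)) .out))) .out) .out))) (.na 595 62 (.na 576 59 (.nx 575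
  2097153 (.nr 574 881745 (.nr 558 57 .s1 (.nx 565 26009 (.nx 559 324 (.l1 (.ls 83 41 1812)) (.nr
  564 741457 (.lg 0 false 5 101 101 19 0 150480) .out)) (.nr 573 65537 (.nr 570 604 (.lg 0 true 5
  79 79 19 0 150480) (.nx 572 208065 (.lg 2 true 2 97 97 13 55210 30096) .out)) .out))) .out) .out)
  (.nx 594 2097153 (.nr 593 881745 (.nr 577 58 .s1 (.nx 578 324 (.l1 (.ls 79 29 1782)) (.nr 592
  741457 (.nx 582 26009 (.lg 0 false 4 101 101 16 0 150480) (.nr 591 65537 (.nr 587 635 (.lg 0 true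
  5 73 73 16 0 75240) (.nx 590 208065 (.lg 2 false 3 89 89 16 55210 75240) .out)) .out)) .out)))
  .out) .out)) (.na 614 63 (.nx 613 2097153 (.nr 612 881745 (.nr 596 61 .s1 (.nx 603 26009 (.nx 597
  324 (.l1 (.ls 83 41 1696)) (.nr 602 741457 (.lg 0 false 5 101 103 19 0 1053360) .out)) (.nr 611
  65537 (.nr 608 645 (.lg 0 true 5 79 79 19 0 150480) (.nx 610 208065 (.lg 2 true 2 97 97 17 55210
  1053360) .out)) .out))) .out) .out) (.nx 634 2097153 (.nr 633 881745 (.nr 615 62 .s1 (.nx 618 210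
  (.nx 617 209 (.nr 616 655 (.l1 (.ls 37 31 696)) (.l1 .sk)) (.l1 .sk)) (.nx 619 324 (.l1 (.ls 83
  31 969)) (.nr 632 741457 (.nx 625 32769 (.nx 623 16385 (.lg 0 false 4 97 101 23 0 1053360) (.nr
  624 155873 (.lg 0 true 1 101 101 17 0 526680) .out)) (.nr 631 46342 (.nr 629 655 (.lg 0 true 4 79
  83 23 0 1053360) (.nx 630 208065 (.lg 2 true 1 97 97 17 33196 526680) .out)) .out)) .out))))
  .out) .out)))))) (.na 866 95 (.na 747 81 (.na 676 70 (.na 636 65 .ne (.na 656 66 (.nx 655 2097153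
  (.nr 654 2097153 (.nr 637 64 .s1 (.nx 640 210 (.nx 639 209 (.nr 638 676 (.l1 (.ls 41 29 675))
  (.l1 .sk)) (.l1 .sk)) (.nx 648 32769 (.nx 641 324 (.l1 (.ls 97 31 939)) (.nr 647 1048577 (.nx 645
  20644 (.lg 0 false 4 101 103 23 0 13693680) (.nr 646 65537 (.lg 0 true 1 89 89 17 0 978120)
  .out)) .out)) (.nr 653 32769 (.nr 651 513 (.lg 0 true 3 79 79 19 0 978120) (.nx 652 131073 (.lg 2
  true 1 89 89 17 26701 978120) .out)) .out)))) .out) .out) (.nx 675 2097153 (.nr 674 2097153 (.nr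
  657 65 .s1 (.nx 670 131073 (.nx 661 324 (.nx 659 209 (.nr 658 717 (.l1 (.ls 31 41 664)) (.l1
  .sk)) (.nx 660 210 (.l1 .sk) (.l1 (.ls 83 41 925)))) (.nr 669 1048577 (.nx 666 20644 (.lg 0 false
  5 89 97 31 0 150480) (.nr 668 65537 (.lg 0 false 2 97 97 29 0 150480) .out)) .out)) (.nr 673 513
  (.lg 0 true 3 71 71 29 0 30096) .out))) .out) .out))) (.na 712 77 (.na 695 71 (.nx 694 2097153
  (.nr 693 2097153 (.nr 677 69 .s1 (.nx 681 324 (.nx 679 209 (.nr 678 727 (.l1 (.ls 41 37 627))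
  (.l1 .sk)) (.nx 680 210 (.l1 .sk) (.l1 (.ls 97 41 872)))) (.nr 692 1048577 (.nx 686 32769 (.nx
  684 20644 (.lg 0 false 3 101 103 29 0 1053360) (.nr 685 65537 (.lg 0 true 1 89 89 23 0 1053360)
  .out)) (.nr 691 32769 (.nr 689 513 (.lg 0 true 3 79 79 29 0 1053360) (.nx 690 131073 (.lg 2 true
  1 89 89 23 26701 1053360) .out)) .out)) .out))) .out) .out) (.nx 711 2097153 (.nr 710 2097153
  (.nr 696 70 .s1 (.nx 697 324 (.l1 (.ls 89 29 1481)) (.nr 709 1048577 (.nx 701 20644 (.lg 0 false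
  4 101 101 16 0 30096) (.nr 708 65537 (.nx 704 131073 (.lg 0 true 3 97 97 16 0 526680) (.nr 707
  513 (.lg 0 true 3 73 73 16 0 15048) .out)) .out)) .out))) .out) .out)) (.na 729 78 (.nx 728
  2097153 (.nr 727 2097153 (.nr 713 76 .s1 (.nx 714 324 (.l1 (.ls 83 31 1366)) (.nr 726 1048577
  (.nr 721 65537 (.nx 717 131073 (.lg 0 true 3 89 89 19 0 526680) (.nr 720 513 (.lg 0 true 3 67 67
  19 0 105336) .out)) (.nx 725 20644 (.lg 0 false 4 97 97 19 0 1053360) .out)) .out))) .out) .out)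
  (.nx 746 2097153 (.nr 745 2097153 (.nr 730 77 .s1 (.nx 738 20644 (.nx 732 209 (.nr 731 829 (.l1
  (.ls 41 41 563)) (.l1 .sk)) (.nx 733 210 (.l1 .sk) (.nx 734 324 (.l1 (.ls 97 41 783)) (.nr 737
  1048577 (.lg 0 false 3 103 103 31 0 13693680) .out)))) (.nr 744 65537 (.nx 739 32769 (.lg 0 true
  1 89 89 29 0 13693680) (.nr 743 32769 (.nr 741 513 (.lg 0 true 2 79 79 31 0 391248) (.nx 742
  131073 (.lg 2 true 1 89 89 29 26701 391248) .out)) .out)) .out))) .out) .out)))) (.na 795 86 (.na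
  763 82 (.nx 762 2097153 (.nr 761 2097153 (.nr 748 80 .s1 (.nx 757 131073 (.nx 749 324 (.l1 (.ls
  79 31 1298)) (.nr 756 1048577 (.nx 753 20644 (.lg 0 false 4 89 89 19 0 30096) (.nr 755 65537 (.lg
  0 false 2 89 89 17 0 150480) .out)) .out)) (.nr 760 513 (.lg 0 true 3 67 67 17 0 15048) .out)))
  .out) .out) (.na 778 83 (.nx 777 2097153 (.nr 776 2097153 (.nr 764 81 .s1 (.nx 765 324 (.l1 (.ls
  89 37 1283)) (.nr 775 1048577 (.nr 771 65537 (.nx 767 131073 (.lg 0 false 2 97 97 19 0 30096)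
  (.nr 770 513 (.lg 0 true 3 73 73 19 0 30096) .out)) (.nx 774 20644 (.lg 0 false 3 97 97 19 0
  30096) .out)) .out))) .out) .out) (.nx 794 2097153 (.nr 793 2097153 (.nr 779 82 .s1 (.nx 789
  131073 (.nx 780 324 (.l1 (.ls 79 29 1267)) (.nr 788 1048577 (.nx 784 20644 (.lg 0 false 4 101 101
  16 0 1053360) (.nr 787 65537 (.lg 0 true 3 89 89 16 0 526680) .out)) .out)) (.nr 792 513 (.lg 0
  true 3 67 67 16 0 15048) .out))) .out) .out))) (.na 831 90 (.na 812 87 (.nx 811 2097153 (.nr 810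
  2097153 (.nr 796 85 .s1 (.nx 806 131073 (.nx 797 324 (.l1 (.ls 89 37 1223)) (.nr 805 1048577 (.nx
  802 20644 (.lg 0 false 5 97 97 23 0 150480) (.nr 804 65537 (.lg 0 false 2 97 97 19 0 30096)
  .out)) .out)) (.nr 809 513 (.lg 0 true 3 71 71 19 0 30096) .out))) .out) .out) (.nx 830 2097153
  (.nr 829 2097153 (.nr 813 86 .s1 (.nx 824 32769 (.nx 822 20644 (.nx 817 324 (.nx 815 209 (.nr 814
  922 (.l1 (.ls 23 23 505)) (.l1 .sk)) (.nx 816 210 (.l1 .sk) (.l1 (.ls 89 23 702)))) (.nr 821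
  1048577 (.lg 0 false 4 97 101 23 0 150480) .out)) (.nr 823 65537 (.lg 0 true 1 83 83 17 0 75240)
  .out)) (.nr 828 32769 (.nr 826 513 (.lg 0 true 2 79 79 19 0 30096) (.nx 827 131073 (.lg 2 true 1
  83 83 17 26701 75240) .out)) .out))) .out) .out)) (.na 848 91 (.nx 847 2097153 (.nr 846 2097153
  (.nr 832 89 .s1 (.nx 835 210 (.nx 834 209 (.nr 833 932 (.l1 (.ls 41 37 488)) (.l1 .sk)) (.l1
  .sk)) (.nx 841 32769 (.nx 839 20644 (.nx 836 324 (.l1 (.ls 89 41 679)) (.nr 838 1048577 (.lg 0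
  false 2 101 103 31 0 1053360) .out)) (.nr 840 65537 (.lg 0 true 1 83 83 29 0 150480) .out)) (.nr
  845 32769 (.nr 843 513 (.lg 0 true 2 79 79 31 0 150480) (.nx 844 131073 (.lg 2 true 1 83 83 29
  26701 150480) .out)) .out)))) .out) .out) (.nx 865 2097153 (.nr 864 2097153 (.nr 849 90 .s1 (.nx
  852 210 (.nx 851 209 (.nr 850 973 (.l1 (.ls 37 29 483)) (.l1 .sk)) (.l1 .sk)) (.nx 853 324 (.l1
  (.ls 89 29 671)) (.nr 863 1048577 (.nx 859 131073 (.nx 857 20644 (.lg 0 false 4 101 103 23 0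
  13693680) (.nr 858 65537 (.lg 0 false 1 101 101 19 0 6846840) .out)) (.nr 862 513 (.lg 0 true 3
  73 73 23 0 1369368) .out)) .out)))) .out) .out))))) (.na 963 118 (.na 906 105 (.na 880 98 (.nx
  879 2097153 (.nr 878 2097153 (.nr 867 94 .s1 (.nx 876 131073 (.nx 873 20644 (.nx 868 324 (.l1
  (.ls 79 31 1108)) (.nr 872 1048577 (.lg 0 false 4 89 89 17 0 150480) .out)) (.nr 875 65537 (.lg 0
  false 2 89 89 17 0 150480) .out)) (.nr 877 513 (.lg 0 false 1 73 73 16 0 75240) .out))) .out)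
  .out) (.na 893 103 (.nx 892 2097153 (.nr 891 2097153 (.nr 881 97 .s1 (.nx 889 131073 (.nx 882 324
  (.l1 (.ls 83 37 1074)) (.nr 888 1048577 (.nr 884 65537 (.lg 0 false 2 89 89 23 0 210672) (.nx 887
  20644 (.lg 0 false 3 97 97 23 0 1053360) .out)) .out)) (.nr 890 513 (.lg 0 false 1 79 79 19 0
  210672) .out))) .out) .out) (.nx 905 2097153 (.nr 904 2097153 (.nr 894 102 .s1 (.nx 900 32769
  (.nx 895 324 (.l1 (.ls 79 23 1022)) (.nr 899 1048577 (.lg 0 false 4 89 89 17 0 30096) .out)) (.nr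
  903 32769 (.nr 901 513 (.lg 0 false 1 73 73 16 0 15048) (.nx 902 131073 (.lg 2 true 1 73 73 16
  26701 15048) .out)) .out))) .out) .out))) (.na 937 110 (.na 924 109 (.nx 923 2097153 (.nr 922
  2097153 (.nr 907 105 .s1 (.nx 920 131073 (.nx 911 324 (.nx 909 209 (.nr 908 1116 (.l1 (.ls 43 31
  419)) (.l1 .sk)) (.nx 910 210 (.l1 .sk) (.l1 (.ls 97 31 582)))) (.nr 919 1048577 (.nx 915 20644
  (.lg 0 false 4 97 101 37 0 1053360) (.nr 918 65537 (.nr 916 32769 (.lg 0 false 1 97 97 29 0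
  526680) (.nx 917 32769 (.lg 0 false 1 79 83 29 0 526680) .out)) .out)) .out)) (.nr 921 513 (.lg 0
  true 1 79 79 29 0 526680) .out))) .out) .out) (.nx 936 2097153 (.nr 935 2097153 (.nr 925 109 .s1
  (.nx 931 32769 (.nx 926 324 (.l1 (.ls 73 23 966)) (.nr 930 1048577 (.lg 0 false 4 89 89 17 0
  30096) .out)) (.nr 934 32769 (.nr 932 513 (.lg 0 false 1 71 71 16 0 15048) (.nx 933 131073 (.lg 2
  true 1 71 71 16 26701 15048) .out)) .out))) .out) .out)) (.na 950 114 (.nx 949 2097153 (.nr 948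
  2097153 (.nr 938 110 .s1 (.nx 939 324 (.l1 (.ls 83 41 957)) (.nr 947 1048577 (.nx 945 131073 (.nx
  942 20644 (.lg 0 false 3 89 89 29 0 150480) (.nr 944 65537 (.lg 0 false 2 89 89 29 0 150480)
  .out)) (.nr 946 513 (.lg 0 false 1 79 79 23 0 1053360) .out)) .out))) .out) .out) (.nx 962
  2097153 (.nr 961 2097153 (.nr 951 114 .s1 (.nx 959 131073 (.nx 952 324 (.l1 (.ls 79 41 923)) (.nr
  958 1048577 (.nr 954 65537 (.lg 0 false 2 83 83 31 0 30096) (.nx 957 20644 (.lg 0 false 3 89 89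
  31 0 30096) .out)) .out)) (.nr 960 513 (.lg 0 false 1 73 73 29 0 30096) .out))) .out) .out))))
  (.na 989 126 (.na 976 121 (.nx 975 2097153 (.nr 974 2097153 (.nr 964 118 .s1 (.nx 972 131073 (.nx
  965 324 (.l1 (.ls 89 31 892)) (.nr 971 1048577 (.nr 967 65537 (.lg 0 false 2 97 97 19 0 1053360)
  (.nx 970 20644 (.lg 0 false 3 97 97 23 0 30096) .out)) .out)) (.nr 973 513 (.lg 0 false 1 83 83
  19 0 1053360) .out))) .out) .out) (.na 977 123 (.lg 0 false 1 0 0 16 0 24) (.nx 988 2097153 (.nr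
  987 2097153 (.nr 978 123 .s1 (.nx 982 20644 (.nx 979 324 (.l1 (.ls 83 29 856)) (.nr 981 1048577
  (.lg 0 false 2 101 101 19 0 150480) .out)) (.nr 986 65537 (.nx 983 131073 (.lg 0 false 1 97 97 17
  0 75240) (.nr 985 513 (.lg 0 true 2 73 73 19 0 30096) .out)) .out))) .out) .out))) (.na 1002 129
  (.na 1001 128 (.nx 1000 2097153 (.nr 999 2097153 (.nr 990 126 .s1 (.nx 996 131073 (.nx 991 324
  (.l1 (.ls 89 41 836)) (.nr 995 1048577 (.nr 992 65537 (.lg 0 false 1 101 101 31 0 1053360) (.nx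
  994 20644 (.lg 0 false 2 101 101 31 0 1053360) .out)) .out)) (.nr 998 513 (.lg 0 true 2 73 73 31
  0 210672) .out))) .out) .out) .ne) (.na 1016 130 (.nx 1015 1048577 (.nr 1014 1482912 (.nr 1003
  129 .s1 (.nx 1006 210 (.nx 1005 209 (.nr 1004 1331 (.l1 (.ls 31 23 341)) (.l1 .sk)) (.l1 .sk))
  (.nx 1010 16385 (.lg 0 false 4 97 101 23 0 150480) (.nr 1013 65537 (.nx 1011 131073 (.lg 0 false
  1 97 97 19 0 75240) (.nr 1012 1025 (.lg 0 true 1 73 73 19 0 15048) .out)) .out)))) .out) .out)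
  (.nx 1028 1048577 (.nr 1027 1482912 (.nr 1017 130 .s1 (.nx 1025 131073 (.nx 1019 209 (.nr 1018
  1362 (.l1 (.ls 41 37 339)) (.l1 .sk)) (.nx 1020 210 (.l1 .sk) (.nr 1021 65537 (.lg 0 false 1 101
  101 29 0 1956240) (.nx 1024 16385 (.lg 0 false 3 97 101 31 0 1956240) .out)))) (.nr 1026 1025
  (.lg 0 false 1 79 79 29 0 1956240) .out))) .out) .out))))))) (.na 1341 198 (.na 1199 166 (.na
  1123 147 (.na 1069 137 (.na 1043 134 (.nx 1042 1048577 (.nr 1041 1482912 (.nr 1030 133 .s1 (.nx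
  1033 210 (.nx 1032 209 (.nr 1031 1372 (.l1 (.ls 29 29 331)) (.l1 .sk)) (.l1 .sk)) (.nx 1037 32769
  (.lg 0 false 4 97 97 17 0 1053360) (.nr 1040 16385 (.nr 1038 1025 (.lg 0 false 1 71 71 17 0
  105336) (.nx 1039 131073 (.lg 2 true 1 61 61 17 13364 526680) .out)) .out)))) .out) .out) (.na
  1057 135 (.nx 1056 1048577 (.nr 1055 1482912 (.nr 1044 134 .s1 (.nx 1047 210 (.nx 1046 209 (.nr
  1045 1382 (.l1 (.ls 31 29 328)) (.l1 .sk)) (.l1 .sk)) (.nx 1053 131073 (.nr 1049 65537 (.lg 0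
  false 2 89 89 23 0 30096) (.nx 1052 16385 (.lg 0 false 3 89 89 23 0 30096) .out)) (.nr 1054 1025
  (.lg 0 false 1 79 79 19 0 1053360) .out)))) .out) .out) (.nx 1068 1048577 (.nr 1067 1482912 (.nr
  1058 135 .s1 (.nx 1061 210 (.nx 1060 209 (.nr 1059 1403 (.l1 (.ls 31 29 326)) (.l1 .sk)) (.l1
  .sk)) (.nx 1065 131073 (.nr 1062 65537 (.lg 0 false 1 89 89 19 0 75240) (.nx 1064 16385 (.lg 0
  false 2 97 97 23 0 150480) .out)) (.nr 1066 1025 (.lg 0 true 1 71 71 19 0 75240) .out)))) .out)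
  .out))) (.na 1097 143 (.na 1083 142 (.nx 1082 1048577 (.nr 1081 1482912 (.nr 1070 137 .s1 (.nx
  1073 210 (.nx 1072 209 (.nr 1071 1454 (.l1 (.ls 29 19 321)) (.l1 .sk)) (.l1 .sk)) (.nx 1077 32769
  (.lg 0 false 4 89 89 17 0 150480) (.nr 1080 16385 (.nr 1078 1025 (.lg 0 false 1 71 71 16 0 75240)
  (.nx 1079 131073 (.lg 2 true 1 61 61 16 13364 75240) .out)) .out)))) .out) .out) (.nx 1096
  1048577 (.nr 1095 1482912 (.nr 1084 142 .s1 (.nx 1093 131073 (.nx 1086 209 (.nr 1085 1464 (.l1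
  (.ls 31 29 310)) (.l1 .sk)) (.nx 1087 210 (.l1 .sk) (.nx 1090 16385 (.lg 0 false 3 89 89 23 0
  30096) (.nr 1092 65537 (.lg 0 true 2 89 89 23 0 30096) .out)))) (.nr 1094 1025 (.lg 0 false 1 79
  79 19 0 1053360) .out))) .out) .out)) (.na 1111 145 (.nx 1110 1048577 (.nr 1109 1482912 (.nr 1098
  143 .s1 (.nx 1100 209 (.nr 1099 1484 (.l1 (.ls 29 29 308)) (.l1 .sk)) (.nx 1101 210 (.l1 .sk)
  (.nx 1105 32769 (.lg 0 false 4 97 97 23 0 1956240) (.nr 1108 16385 (.nr 1106 1025 (.lg 0 false 1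
  73 73 19 0 978120) (.nx 1107 131073 (.lg 2 true 1 61 61 19 13364 195624) .out)) .out))))) .out)
  .out) (.nx 1122 1048577 (.nr 1121 1482912 (.nr 1112 145 .s1 (.nx 1114 209 (.nr 1113 1505 (.l1
  (.ls 23 19 304)) (.l1 .sk)) (.nx 1115 210 (.l1 .sk) (.nr 1118 65537 (.nx 1116 131073 (.lg 0 false
  1 97 97 17 0 75240) (.nr 1117 1025 (.lg 0 true 1 73 73 17 0 75240) .out)) (.nx 1120 16385 (.lg 0
  false 2 101 101 19 0 150480) .out))))) .out) .out)))) (.na 1148 154 (.na 1135 150 (.nx 1134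
  1048577 (.nr 1133 1482912 (.nr 1124 147 .s1 (.nx 1126 209 (.nr 1125 1536 (.l1 (.ls 31 29 300))
  (.l1 .sk)) (.nx 1127 210 (.l1 .sk) (.nx 1131 131073 (.nr 1128 65537 (.lg 0 false 1 89 89 23 0
  526680) (.nx 1130 16385 (.lg 0 false 2 97 97 23 0 1053360) .out)) (.nr 1132 1025 (.lg 0 true 1 71
  71 23 0 105336) .out))))) .out) .out) (.na 1147 151 (.nx 1146 1048577 (.nr 1145 1482912 (.nr 1136
  150 .s1 (.nx 1139 210 (.nx 1138 209 (.nr 1137 1546 (.l1 (.ls 37 37 294)) (.l1 .sk)) (.l1 .sk))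
  (.nr 1142 65537 (.nx 1140 131073 (.lg 0 false 1 97 97 31 0 150480) (.nr 1141 1025 (.lg 0 true 1
  73 73 31 0 150480) .out)) (.nx 1144 16385 (.lg 0 false 2 97 97 31 0 150480) .out)))) .out) .out)
  (.lg 0 false 1 0 0 16 0 24))) (.na 1174 162 (.na 1161 155 (.nx 1160 1048577 (.nr 1159 1482912
  (.nr 1149 154 .s1 (.nx 1151 209 (.nr 1150 1587 (.l1 (.ls 31 31 286)) (.l1 .sk)) (.nx 1152 210
  (.l1 .sk) (.nx 1155 32769 (.lg 0 false 3 97 97 31 0 210672) (.nr 1158 16385 (.nr 1156 1025 (.lg 0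
  false 1 73 73 29 0 1053360) (.nx 1157 131073 (.lg 2 true 1 67 67 29 13364 1053360) .out))
  .out))))) .out) .out) (.nx 1173 1048577 (.nr 1172 1482912 (.nr 1162 155 .s1 (.nx 1164 209 (.nr
  1163 1658 (.l1 (.ls 29 19 284)) (.l1 .sk)) (.nx 1165 210 (.l1 .sk) (.nx 1170 131073 (.nx 1168
  16385 (.lg 0 false 3 97 97 23 0 526680) (.nr 1169 65537 (.lg 0 false 1 97 97 17 0 526680) .out))
  (.nr 1171 1025 (.lg 0 true 1 73 73 17 0 75240) .out))))) .out) .out)) (.na 1187 165 (.nx 1186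
  1048577 (.nr 1185 1482912 (.nr 1175 162 .s1 (.nx 1178 210 (.nx 1177 209 (.nr 1176 1689 (.l1 (.ls
  31 31 272)) (.l1 .sk)) (.l1 .sk)) (.nx 1183 131073 (.nr 1179 65537 (.lg 0 false 1 89 89 23 0
  1053360) (.nx 1182 16385 (.lg 0 false 3 89 89 29 0 1053360) .out)) (.nr 1184 1025 (.lg 0 false 1
  73 73 23 0 1053360) .out)))) .out) .out) (.nx 1198 1048577 (.nr 1197 1482912 (.nr 1188 165 .s1
  (.nx 1195 131073 (.nx 1190 209 (.nr 1189 1699 (.l1 (.ls 31 29 267)) (.l1 .sk)) (.nx 1191 210 (.l1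
  .sk) (.nr 1192 65537 (.lg 0 false 1 83 83 29 0 75240) (.nx 1194 16385 (.lg 0 false 2 89 97 29 0
  150480) .out)))) (.nr 1196 1025 (.lg 0 true 1 67 67 29 0 75240) .out))) .out) .out))))) (.na 1276
  179 (.na 1227 173 (.na 1212 167 (.nx 1211 1048577 (.nr 1210 1482912 (.nr 1200 166 .s1 (.nx 1206
  32769 (.nx 1202 209 (.nr 1201 1710 (.l1 (.ls 29 29 266)) (.l1 .sk)) (.nx 1203 210 (.l1 .sk) (.lg
  0 false 3 97 97 23 0 30096))) (.nr 1209 16385 (.nr 1207 1025 (.lg 0 false 1 71 71 19 0 30096)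
  (.nx 1208 131073 (.lg 2 true 1 61 61 19 13364 30096) .out)) .out))) .out) .out) (.na 1213 169
  (.lg 0 false 1 0 0 16 0 24) (.nx 1226 1048577 (.nr 1225 1482912 (.nr 1214 169 .s1 (.nx 1221 32769
  (.nx 1216 209 (.nr 1215 1771 (.l1 (.ls 31 19 261)) (.l1 .sk)) (.nx 1217 210 (.l1 .sk) (.lg 0
  false 4 89 89 19 0 391248))) (.nr 1224 16385 (.nr 1222 1025 (.lg 0 false 1 73 73 17 0 6846840)
  (.nx 1223 131073 (.lg 2 false 1 61 61 17 13364 195624) .out)) .out))) .out) .out))) (.na 1252 175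
  (.na 1240 174 (.nx 1239 1048577 (.nr 1238 1482912 (.nr 1228 173 .s1 (.nx 1231 210 (.nx 1230 209
  (.nr 1229 1781 (.l1 (.ls 23 17 255)) (.l1 .sk)) (.l1 .sk)) (.nx 1234 32769 (.lg 0 false 3 83 83
  17 0 15048) (.nr 1237 16385 (.nr 1235 1025 (.lg 0 false 1 67 67 16 0 15048) (.nx 1236 131073 (.lg
  2 false 1 59 59 16 13364 15048) .out)) .out)))) .out) .out) (.nx 1251 1048577 (.nr 1250 1482912
  (.nr 1241 174 .s1 (.nx 1244 210 (.nx 1243 209 (.nr 1242 1792 (.l1 (.ls 23 37 254)) (.l1 .sk))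
  (.l1 .sk)) (.nx 1248 131073 (.nr 1245 65537 (.lg 0 false 1 97 97 23 0 30096) (.nx 1247 16385 (.lg
  0 false 2 101 101 37 0 1053360) .out)) (.nr 1249 1025 (.lg 0 true 1 73 73 23 0 30096) .out))))
  .out) .out)) (.na 1264 177 (.nx 1263 1048577 (.nr 1262 1482912 (.nr 1253 175 .s1 (.nx 1256 210
  (.nx 1255 209 (.nr 1254 1812 (.l1 (.ls 37 23 252)) (.l1 .sk)) (.l1 .sk)) (.nx 1260 131073 (.nx
  1258 16385 (.lg 0 false 2 97 97 23 0 1053360) (.nr 1259 65537 (.lg 0 false 1 89 89 19 0 526680)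
  .out)) (.nr 1261 1025 (.lg 0 true 1 71 71 19 0 526680) .out)))) .out) .out) (.nx 1275 1048577
  (.nr 1274 1482912 (.nr 1265 177 .s1 (.nx 1272 131073 (.nx 1267 209 (.nr 1266 1832 (.l1 (.ls 31 23
  249)) (.l1 .sk)) (.nx 1268 210 (.l1 .sk) (.nr 1269 65537 (.lg 0 false 1 89 89 19 0 15048) (.nx
  1271 16385 (.lg 0 false 2 97 97 23 0 30096) .out)))) (.nr 1273 1025 (.lg 0 true 1 71 71 19 0
  15048) .out))) .out) .out)))) (.na 1313 190 (.na 1289 182 (.nx 1288 1048577 (.nr 1287 1482912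
  (.nr 1277 179 .s1 (.nx 1279 209 (.nr 1278 1863 (.l1 (.ls 23 17 247)) (.l1 .sk)) (.nx 1280 210
  (.l1 .sk) (.nx 1283 32769 (.lg 0 false 3 83 83 17 0 15048) (.nr 1286 16385 (.nr 1284 1025 (.lg 0
  false 1 67 67 16 0 75240) (.nx 1285 131073 (.lg 2 false 1 53 53 16 13364 15048) .out)) .out)))))
  .out) .out) (.na 1301 186 (.nx 1300 1048577 (.nr 1299 1048577 (.nr 1290 182 .s1 (.nx 1293 210
  (.nx 1292 209 (.nr 1291 1904 (.l1 (.ls 41 31 243)) (.l1 .sk)) (.l1 .sk)) (.nr 1296 65537 (.nx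
  1294 131073 (.lg 0 false 1 97 97 31 0 13693680) (.nr 1295 1025 (.lg 0 true 1 73 73 31 0 2738736)
  .out)) (.nx 1298 16385 (.lg 0 false 2 97 97 37 0 13693680) .out)))) .out) .out) (.nx 1312 1048577
  (.nr 1311 1048577 (.nr 1302 186 .s1 (.nx 1304 209 (.nr 1303 1945 (.l1 (.ls 29 29 237)) (.l1 .sk))
  (.nx 1305 210 (.l1 .sk) (.nx 1309 131073 (.nr 1306 65537 (.lg 0 false 1 97 97 29 0 150480) (.nx
  1308 16385 (.lg 0 false 2 97 97 29 0 150480) .out)) (.nr 1310 1025 (.lg 0 true 1 71 71 29 0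
  30096) .out))))) .out) .out))) (.na 1327 193 (.na 1326 191 (.nx 1325 1048577 (.nr 1324 1048577
  (.nr 1314 190 .s1 (.nx 1317 210 (.nx 1316 209 (.nr 1315 1955 (.l1 (.ls 31 31 232)) (.l1 .sk))
  (.l1 .sk)) (.nx 1320 32769 (.lg 0 false 3 89 89 31 0 1053360) (.nr 1323 16385 (.nr 1321 1025 (.lg
  0 false 1 71 71 29 0 1053360) (.nx 1322 131073 (.lg 2 false 1 61 61 29 13364 1053360) .out))
  .out)))) .out) .out) (.lg 0 false 1 0 0 16 0 24)) (.na 1340 197 (.nx 1339 1048577 (.nr 1338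
  1048577 (.nr 1328 193 .s1 (.nx 1331 210 (.nx 1330 209 (.nr 1329 2017 (.l1 (.ls 29 17 229)) (.l1
  .sk)) (.l1 .sk)) (.nx 1334 32769 (.lg 0 false 3 83 83 17 0 75240) (.nr 1337 16385 (.nr 1335 1025
  (.lg 0 false 1 67 67 16 0 75240) (.nx 1336 131073 (.lg 2 false 1 59 59 16 13364 75240) .out))
  .out)))) .out) .out) (.lg 0 false 1 0 0 16 0 24)))))) (.na 1479 231 (.na 1413 211 (.na 1365 205
  (.na 1353 199 (.nx 1352 1048577 (.nr 1351 1048577 (.nr 1342 198 .s1 (.nx 1344 209 (.nr 1343 2037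
  (.l1 (.ls 29 37 223)) (.l1 .sk)) (.nx 1345 210 (.l1 .sk) (.nx 1347 32769 (.lg 0 true 2 89 89 31 0
  30096) (.nr 1350 16385 (.nr 1348 1025 (.lg 0 false 1 71 71 31 0 1053360) (.nx 1349 131073 (.lg 2
  true 1 59 59 31 13364 30096) .out)) .out))))) .out) .out) (.na 1354 201 (.lg 0 false 1 0 0 16 0
  24) (.nx 1364 1048577 (.nr 1363 1048577 (.nr 1355 201 .s1 (.nx 1358 210 (.nx 1357 209 (.nr 1356
  2099 (.l1 (.ls 31 23 220)) (.l1 .sk)) (.l1 .sk)) (.nr 1361 65537 (.nx 1359 131073 (.lg 0 false 1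
  89 89 19 0 15048) (.nr 1360 1025 (.lg 0 true 1 71 71 19 0 15048) .out)) (.nx 1362 16385 (.lg 0
  false 1 89 89 19 0 15048) .out)))) .out) .out))) (.na 1389 209 (.na 1376 206 (.nx 1375 1048577
  (.nr 1374 1048577 (.nr 1366 205 .s1 (.nx 1368 209 (.nr 1367 2109 (.l1 (.ls 31 19 216)) (.l1 .sk))
  (.nx 1369 210 (.l1 .sk) (.nr 1372 65537 (.nx 1370 131073 (.lg 0 false 1 89 89 19 0 75240) (.nr
  1371 1025 (.lg 0 true 1 71 71 19 0 75240) .out)) (.nx 1373 16385 (.lg 0 true 1 97 97 19 0 75240)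
  .out))))) .out) .out) (.nx 1388 1048577 (.nr 1387 1048577 (.nr 1377 206 .s1 (.nx 1380 210 (.nx
  1379 209 (.nr 1378 2140 (.l1 (.ls 29 23 215)) (.l1 .sk)) (.l1 .sk)) (.nx 1383 32769 (.lg 0 false
  3 83 83 29 0 30096) (.nr 1386 16385 (.nr 1384 1025 (.lg 0 false 1 67 67 23 0 30096) (.nx 1385
  131073 (.lg 2 true 1 59 59 23 13364 30096) .out)) .out)))) .out) .out)) (.na 1402 210 (.nx 1401
  1048577 (.nr 1400 1048577 (.nr 1390 209 .s1 (.nx 1393 210 (.nx 1392 209 (.nr 1391 2150 (.l1 (.ls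
  17 17 211)) (.l1 .sk)) (.l1 .sk)) (.nx 1396 32769 (.lg 0 true 3 73 73 17 0 15048) (.nr 1399 16385
  (.lg 0 false 3 71 71 17 0 15048) .out)))) .out) .out) (.nx 1412 1048577 (.nr 1411 1048577 (.nr
  1403 210 .s1 (.nx 1406 210 (.nx 1405 209 (.nr 1404 2160 (.l1 (.ls 43 37 211)) (.l1 .sk)) (.l1
  .sk)) (.nx 1409 131073 (.nr 1407 65537 (.lg 0 true 1 97 101 41 0 1053360) (.nx 1408 16385 (.lg 0
  false 1 101 101 41 0 1053360) .out)) (.nr 1410 1025 (.lg 0 true 1 79 79 41 0 1053360) .out))))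
  .out) .out)))) (.na 1436 218 (.na 1414 215 (.lg 0 false 1 0 0 16 0 24) (.na 1425 217 (.nx 1424
  1048577 (.nr 1423 1048577 (.nr 1415 215 .s1 (.nx 1417 209 (.nr 1416 2221 (.l1 (.ls 37 19 206))
  (.l1 .sk)) (.nx 1418 210 (.l1 .sk) (.nx 1421 131073 (.nr 1419 65537 (.lg 0 false 1 89 89 19 0
  75240) (.nx 1420 16385 (.lg 0 true 1 97 97 19 0 75240) .out)) (.nr 1422 1025 (.lg 0 true 1 71 71
  19 0 75240) .out))))) .out) .out) (.nx 1435 1048577 (.nr 1434 1048577 (.nr 1426 217 .s1 (.nx 1432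
  131073 (.nx 1428 209 (.nr 1427 2232 (.l1 (.ls 29 19 204)) (.l1 .sk)) (.nx 1429 210 (.l1 .sk) (.nr
  1430 65537 (.lg 0 false 1 89 89 19 0 105336) (.nx 1431 16385 (.lg 0 true 1 97 97 19 0 526680)
  .out)))) (.nr 1433 1025 (.lg 0 true 1 71 71 19 0 105336) .out))) .out) .out))) (.na 1457 225 (.na
  1446 223 (.nx 1445 1048577 (.nr 1444 1048577 (.nr 1437 218 .s1 (.nx 1439 209 (.nr 1438 2283 (.l1
  (.ls 31 23 203)) (.l1 .sk)) (.nx 1440 210 (.l1 .sk) (.nx 1442 32769 (.lg 0 true 2 89 89 23 0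
  1053360) (.nr 1443 16385 (.lg 0 false 1 89 89 23 0 1053360) .out))))) .out) .out) (.nx 1456
  1048577 (.nr 1455 1048577 (.nr 1447 223 .s1 (.nx 1449 209 (.nr 1448 2303 (.l1 (.ls 41 17 198))
  (.l1 .sk)) (.nx 1450 210 (.l1 .sk) (.nx 1453 32769 (.lg 0 false 3 83 83 19 0 526680) (.nr 1454
  16385 (.lg 0 false 1 83 83 16 0 15048) .out))))) .out) .out)) (.na 1468 229 (.nx 1467 1048577
  (.nr 1466 1048577 (.nr 1458 225 .s1 (.nx 1464 131073 (.nx 1460 209 (.nr 1459 2344 (.l1 (.ls 37 23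
  197)) (.l1 .sk)) (.nx 1461 210 (.l1 .sk) (.nr 1462 65537 (.lg 0 false 1 83 83 23 0 75240) (.nx
  1463 16385 (.lg 0 true 1 89 89 23 0 526680) .out)))) (.nr 1465 1025 (.lg 0 true 1 67 67 23 0
  75240) .out))) .out) .out) (.nx 1478 1048577 (.nr 1477 1048577 (.nr 1469 229 .s1 (.nx 1471 209
  (.nr 1470 2365 (.l1 (.ls 23 17 193)) (.l1 .sk)) (.nx 1472 210 (.l1 .sk) (.nx 1475 32769 (.lg 0
  false 3 79 79 19 0 15048) (.nr 1476 16385 (.lg 0 false 1 83 83 17 0 526680) .out))))) .out)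
  .out))))) (.na 1530 246 (.na 1502 239 (.na 1490 233 (.nx 1489 1048577 (.nr 1488 1048577 (.nr 1480
  231 .s1 (.nx 1483 210 (.nx 1482 209 (.nr 1481 2385 (.l1 (.ls 37 29 192)) (.l1 .sk)) (.l1 .sk))
  (.nx 1486 131073 (.nr 1484 65537 (.lg 0 false 1 83 83 29 0 105336) (.nx 1485 16385 (.lg 0 true 1
  89 89 29 0 526680) .out)) (.nr 1487 1025 (.lg 0 true 1 67 67 29 0 105336) .out)))) .out) .out)
  (.na 1491 234 (.lg 0 false 1 0 0 16 0 24) (.nx 1501 1048577 (.nr 1500 1048577 (.nr 1492 234 .s1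
  (.nx 1494 209 (.nr 1493 2447 (.l1 (.ls 37 37 189)) (.l1 .sk)) (.nx 1495 210 (.l1 .sk) (.nr 1498
  65537 (.nx 1496 131073 (.lg 0 false 1 89 89 37 0 391248) (.nr 1497 1025 (.lg 0 true 1 71 71 37 0
  391248) .out)) (.nx 1499 16385 (.lg 0 true 1 89 89 37 0 391248) .out))))) .out) .out))) (.na 1520
  242 (.na 1511 241 (.nx 1510 1048577 (.nr 1509 1048577 (.nr 1503 239 .s1 (.nx 1505 209 (.nr 1504
  2467 (.l1 (.ls 29 17 185)) (.l1 .sk)) (.nx 1506 210 (.l1 .sk) (.nx 1507 32769 (.lg 0 true 1 89 89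
  17 0 15048) (.nr 1508 16385 (.lg 0 false 1 83 83 17 0 526680) .out))))) .out) .out) (.nx 1519
  1048577 (.nr 1518 1048577 (.nr 1512 241 .s1 (.nx 1514 209 (.nr 1513 2477 (.l1 (.ls 29 17 184))
  (.l1 .sk)) (.nx 1515 210 (.l1 .sk) (.nx 1516 32769 (.lg 0 true 1 89 89 17 0 75240) (.nr 1517
  16385 (.lg 0 false 1 83 83 17 0 75240) .out))))) .out) .out)) (.na 1521 243 (.lg 0 false 1 0 0 16
  0 24) (.nx 1529 1048577 (.nr 1528 1048577 (.nr 1522 243 .s1 (.nx 1525 210 (.nx 1524 209 (.nr 1523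
  2518 (.l1 (.ls 23 19 182)) (.l1 .sk)) (.l1 .sk)) (.nx 1526 32769 (.lg 0 true 1 89 89 19 0 526680)
  (.nr 1527 16385 (.lg 0 false 1 79 79 19 0 15048) .out)))) .out) .out)))) (.na 1561 250 (.na 1541
  247 (.nx 1540 1048577 (.nr 1539 1048577 (.nr 1531 246 .s1 (.nx 1537 131073 (.nx 1533 209 (.nr
  1532 2528 (.l1 (.ls 37 31 180)) (.l1 .sk)) (.nx 1534 210 (.l1 .sk) (.nr 1535 65537 (.lg 0 false 1
  89 89 31 0 30096) (.nx 1536 16385 (.lg 0 true 1 101 101 31 0 1053360) .out)))) (.nr 1538 1025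
  (.lg 0 true 1 71 71 31 0 30096) .out))) .out) .out) (.na 1550 249 (.nx 1549 1048577 (.nr 1548
  1048577 (.nr 1542 247 .s1 (.nx 1544 209 (.nr 1543 2549 (.l1 (.ls 31 17 179)) (.l1 .sk)) (.nx 1545
  210 (.l1 .sk) (.nx 1546 32769 (.lg 0 true 1 97 97 17 0 6846840) (.nr 1547 16385 (.lg 0 false 1 83
  83 17 0 195624) .out))))) .out) .out) (.nx 1560 1048577 (.nr 1559 1048577 (.nr 1551 249 .s1 (.nx
  1557 131073 (.nx 1553 209 (.nr 1552 2559 (.l1 (.ls 31 19 178)) (.l1 .sk)) (.nx 1554 210 (.l1 .sk)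
  (.nr 1555 65537 (.lg 0 true 1 83 83 23 0 15048) (.nx 1556 16385 (.lg 0 false 1 89 89 23 0 15048)
  .out)))) (.nr 1558 1025 (.lg 0 true 1 61 61 23 0 15048) .out))) .out) .out))) (.na 1571 256 (.na
  1570 251 (.nx 1569 1048577 (.nr 1568 1048577 (.nr 1562 250 .s1 (.nx 1565 210 (.nx 1564 209 (.nr
  1563 2569 (.l1 (.ls 29 29 177)) (.l1 .sk)) (.l1 .sk)) (.nx 1566 32769 (.lg 0 true 1 97 97 29 0
  1053360) (.nr 1567 16385 (.lg 0 false 1 89 89 29 0 1053360) .out)))) .out) .out) (.lg 0 false 1 0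
  0 16 0 24)) (.na 1572 257 .ne (.nx 2050 1048577 (.nr 2049 1482912 (.nr 1573 257 .s1 (.nx 1681 210
  (.nx 1680 209 (.nr 1679 3716 (.la (.ls 43 19 172)) (.l1 .sk)) (.l1 .sk)) (.nx 1728 257 (.lx (.lp
  89 17 91)) (.nr 2048 1048577 (.nx 1941 131073 (.nx 1834 20644 (.la (.lg 0 true 1 83 83 23 0))
  (.nr 1940 32769 (.la (.lg 0 false 1 73 73 23 0)) .out)) (.nr 2047 2049 (.la (.lg 0 true 1 67 67
  23 0)) .out)) .out)))) .out) .out))))))))

def T82_1 : Ph :=
  (.na 606 2 (.nx 605 3329023 (.nr 604 881745 (.nx 559 1664512 (.nx 2 221 (.nr 1 15 (.lg 0 false 1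
  53 53 5 0 79560) (.l1 .sk)) (.nx 3 222 (.l1 .sk) (.nr 484 185365 (.nx 80 32769 (.lg 0 false 77
  103 113 16 0 12252240) (.nr 124 515 (.lg 0 true 44 101 103 16 0 12252240) (.nr 152 942 (.lg 2
  true 28 97 101 11 357143 1113840) (.nx 196 41287 (.lg 1 false 44 103 107 16 138307 12252240) (.nr
  483 155873 (.nr 224 1724 (.lg 2 true 28 97 103 11 195254 1113840) (.nx 482 1321124 (.nr 235 2898
  (.lg 2 true 11 103 103 9 84678 6126120) (.nx 481 1048577 (.nr 246 4872 (.lg 2 true 11 101 103 9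
  39982 6126120) (.nr 257 8193 (.lg 2 true 11 103 107 9 23783 12252240) (.nx 480 832257 (.nx 345
  65537 (.nx 301 52017 (.lg 1 false 44 103 107 16 92328 12252240) (.lg 1 false 44 103 109 16 73283
  12252240)) (.nr 479 110219 (.nr 434 77937 (.nr 389 46342 (.lg 2 false 44 101 109 16 17351
  12252240) (.nx 433 524289 (.lg 2 false 44 101 109 16 29124 12252240) .out)) (.nx 478 262145 (.lg
  2 true 44 103 109 16 41153 12252240) .out)) .out)) .out))) .out)) .out)) .out))))) (.nx 558 26009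
  (.nx 512 408 (.lg 0 false 28 97 97 11 0 1113840) (.nx 513 6501 .out (.nr 557 220437 (.lg 0 false
  44 101 109 16 0 12252240) .out))) .out)))) (.nr 603 154 (.lg 0 true 44 97 101 16 0 1750320)
  .out)) .out) .out) (.nx 1006 3329023 (.nr 1005 1763489 (.nx 971 1048577 (.nx 730 36780 (.nx 608
  221 (.nr 607 28 (.lg 0 true 1 47 47 5 0 159120) (.l1 .sk)) (.nx 609 222 (.l1 .sk) (.nr 686 262145
  (.lg 0 false 77 101 109 13 0 12252240) (.nx 708 26007 (.nx 707 408 (.lg 0 false 21 89 89 11 0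
  222768) .out) (.nr 729 311745 (.lg 0 false 21 101 107 11 0 12252240) .out))))) (.nr 970 311745
  (.nr 765 941 (.lg 0 true 35 97 101 13 0 1113840) (.nx 800 52017 (.lg 1 false 35 103 107 13 207137
  12252240) (.nr 969 262145 (.nx 835 82572 (.lg 1 false 35 103 109 13 123175 12252240) (.nr 968
  220437 (.nr 846 3446 (.lg 2 true 11 101 103 9 123133 1750320) (.nx 967 832257 (.nx 916 165142
  (.nx 881 116773 (.lg 1 false 35 101 109 13 65260 12252240) (.lg 1 true 35 101 109 13 46146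
  12252240)) (.nr 966 155873 (.nr 944 92683 (.nr 923 6599 (.lg 2 true 7 101 101 9 26688 1113840)
  (.lg 2 false 21 103 107 11 13937 12252240)) (.nx 965 262145 (.lg 2 false 21 103 107 11 23083
  12252240) .out)) .out)) .out)) .out)) .out))) .out)) (.nr 1004 257 (.nx 992 2642247 (.lg 0 true
  21 97 97 11 0 222768) (.nr 1003 9 (.lg 0 true 11 71 71 9 0 350064) .out)) .out)) .out) .out))

theorem c82 :
    OkQ ckI L9 209 16 363 0 34359738368 1 1099511627776 ∧
    OkQ ckI L10 221 1 3 0 34359738368 1 1099511627776 := by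
  refine ⟨?_, ?_⟩
  · refine fin 15048 2051 T82_0 ?_
    refine jn 9 (by decide +kernel) ?_
    refine jn 13 (by decide +kernel) ?_
    refine jn 17 (by decide +kernel) ?_
    refine jn 22 (by decide +kernel) ?_
    refine jn 29 (by decide +kernel) ?_
    refine jn 36 (by decide +kernel) ?_
    refine jn 45 (by decide +kernel) ?_
    refine jn 67 (by decide +kernel) ?_
    refine jn 86 (by decide +kernel) ?_
    refine jn 113 (by decide +kernel) ?_
    refine jn 130 (by decide +kernel) ?_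
    refine jn 153 (by decide +kernel) ?_
    refine jn 159 (by decide +kernel) ?_
    refine jn 165 (by decide +kernel) ?_
    refine jn 174 (by decide +kernel) ?_
    refine jn 188 (by decide +kernel) ?_
    refine jn 194 (by decide +kernel) ?_
    refine jn 196 (by decide +kernel) ?_
    refine jn 203 (by decide +kernel) ?_
    refine jn 215 (by decide +kernel) ?_
    refine jn 224 (by decide +kernel) ?_
    refine jn 228 (by decide +kernel) ?_
    refine jn 238 (by decide +kernel) ?_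
    refine jn 245 (by decide +kernel) ?_
    refine jn 254 (by decide +kernel) ?_
    refine jn 255 (by decide +kernel) ?_
    refine jn 257 (by decide +kernel) ?_
    refine jn 259 (by decide +kernel) ?_
    refine jn 260 (by decide +kernel) ?_
    refine jn 263 (by decide +kernel) ?_
    refine jn 266 (by decide +kernel) ?_
    refine jn 267 (by decide +kernel) ?_
    refine jn 268 (by decide +kernel) ?_
    refine jn 270 (by decide +kernel) ?_
    refine jn 277 (by decide +kernel) ?_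
    refine jn 285 (by decide +kernel) ?_
    refine jn 292 (by decide +kernel) ?_
    refine jn 304 (by decide +kernel) ?_
    refine jn 318 (by decide +kernel) ?_
    refine jn 323 (by decide +kernel) ?_
    refine jn 328 (by decide +kernel) ?_
    refine jn 338 (by decide +kernel) ?_
    refine jn 357 (by decide +kernel) ?_
    refine jn 369 (by decide +kernel) ?_
    refine jn 370 (by decide +kernel) ?_
    refine jn 372 (by decide +kernel) ?_
    refine jn 374 (by decide +kernel) ?_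
    refine jn 377 (by decide +kernel) ?_
    refine jn 378 (by decide +kernel) ?_
    refine jn 380 (by decide +kernel) ?_
    refine jn 386 (by decide +kernel) ?_
    refine jn 399 (by decide +kernel) ?_
    refine jn 408 (by decide +kernel) ?_
    refine jn 418 (by decide +kernel) ?_
    refine jn 421 (by decide +kernel) ?_
    refine jn 423 (by decide +kernel) ?_
    refine jn 426 (by decide +kernel) ?_
    refine jn 430 (by decide +kernel) ?_
    refine jn 432 (by decide +kernel) ?_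
    refine jn 441 (by decide +kernel) ?_
    refine jn 444 (by decide +kernel) ?_
    refine jn 448 (by decide +kernel) ?_
    refine jn 452 (by decide +kernel) ?_
    refine jn 453 (by decide +kernel) ?_
    refine jn 455 (by decide +kernel) ?_
    refine jn 469 (by decide +kernel) ?_
    refine jn 476 (by decide +kernel) ?_
    refine jn 492 (by decide +kernel) ?_
    refine jn 500 (by decide +kernel) ?_
    refine jn 511 (by decide +kernel) ?_
    refine jn 519 (by decide +kernel) ?_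
    refine jn 529 (by decide +kernel) ?_
    refine jn 536 (by decide +kernel) ?_
    refine jn 550 (by decide +kernel) ?_
    refine jn 564 (by decide +kernel) ?_
    refine jn 572 (by decide +kernel) ?_
    refine jn 582 (by decide +kernel) ?_
    refine jn 590 (by decide +kernel) ?_
    refine jn 602 (by decide +kernel) ?_
    refine jn 610 (by decide +kernel) ?_
    refine jn 619 (by decide +kernel) ?_
    refine jn 623 (by decide +kernel) ?_
    refine jn 625 (by decide +kernel) ?_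
    refine jn 629 (by decide +kernel) ?_
    refine jn 640 (by decide +kernel) ?_
    refine jn 641 (by decide +kernel) ?_
    refine jn 645 (by decide +kernel) ?_
    refine jn 651 (by decide +kernel) ?_
    refine jn 666 (by decide +kernel) ?_
    refine jn 673 (by decide +kernel) ?_
    refine jn 684 (by decide +kernel) ?_
    refine jn 689 (by decide +kernel) ?_
    refine jn 701 (by decide +kernel) ?_
    refine jn 707 (by decide +kernel) ?_
    refine jn 720 (by decide +kernel) ?_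
    refine jn 734 (by decide +kernel) ?_
    refine jn 737 (by decide +kernel) ?_
    refine jn 741 (by decide +kernel) ?_
    refine jn 753 (by decide +kernel) ?_
    refine jn 764 (by decide +kernel) ?_
    refine jn 770 (by decide +kernel) ?_
    refine jn 784 (by decide +kernel) ?_
    refine jn 796 (by decide +kernel) ?_
    refine jn 804 (by decide +kernel) ?_
    refine jn 817 (by decide +kernel) ?_
    refine jn 821 (by decide +kernel) ?_
    refine jn 826 (by decide +kernel) ?_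
    refine jn 838 (by decide +kernel) ?_
    refine jn 843 (by decide +kernel) ?_
    refine jn 853 (by decide +kernel) ?_
    refine jn 857 (by decide +kernel) ?_
    refine jn 862 (by decide +kernel) ?_
    refine jn 875 (by decide +kernel) ?_
    refine jn 887 (by decide +kernel) ?_
    refine jn 899 (by decide +kernel) ?_
    refine jn 907 (by decide +kernel) ?_
    refine jn 911 (by decide +kernel) ?_
    refine jn 912 (by decide +kernel) ?_
    refine jn 913 (by decide +kernel) ?_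
    refine jn 914 (by decide +kernel) ?_
    refine jn 915 (by decide +kernel) ?_
    refine jn 916 (by decide +kernel) ?_
    refine jn 921 (by decide +kernel) ?_
    refine jn 933 (by decide +kernel) ?_
    refine jn 944 (by decide +kernel) ?_
    refine jn 957 (by decide +kernel) ?_
    refine jn 970 (by decide +kernel) ?_
    refine jn 981 (by decide +kernel) ?_
    refine jn 985 (by decide +kernel) ?_
    refine jn 994 (by decide +kernel) ?_
    refine jn 1010 (by decide +kernel) ?_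
    refine jn 1017 (by decide +kernel) ?_
    refine jn 1024 (by decide +kernel) ?_
    refine jn 1038 (by decide +kernel) ?_
    refine jn 1052 (by decide +kernel) ?_
    refine jn 1064 (by decide +kernel) ?_
    refine jn 1078 (by decide +kernel) ?_
    refine jn 1092 (by decide +kernel) ?_
    refine jn 1106 (by decide +kernel) ?_
    refine jn 1117 (by decide +kernel) ?_
    refine jn 1128 (by decide +kernel) ?_
    refine jn 1132 (by decide +kernel) ?_
    refine jn 1141 (by decide +kernel) ?_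
    refine jn 1155 (by decide +kernel) ?_
    refine jn 1168 (by decide +kernel) ?_
    refine jn 1176 (by decide +kernel) ?_
    refine jn 1184 (by decide +kernel) ?_
    refine jn 1194 (by decide +kernel) ?_
    refine jn 1207 (by decide +kernel) ?_
    refine jn 1222 (by decide +kernel) ?_
    refine jn 1236 (by decide +kernel) ?_
    refine jn 1247 (by decide +kernel) ?_
    refine jn 1258 (by decide +kernel) ?_
    refine jn 1266 (by decide +kernel) ?_
    refine jn 1271 (by decide +kernel) ?_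
    refine jn 1284 (by decide +kernel) ?_
    refine jn 1295 (by decide +kernel) ?_
    refine jn 1306 (by decide +kernel) ?_
    refine jn 1310 (by decide +kernel) ?_
    refine jn 1322 (by decide +kernel) ?_
    refine jn 1336 (by decide +kernel) ?_
    refine jn 1349 (by decide +kernel) ?_
    refine jn 1360 (by decide +kernel) ?_
    refine jn 1371 (by decide +kernel) ?_
    refine jn 1384 (by decide +kernel) ?_
    refine jn 1403 (by decide +kernel) ?_
    refine jn 1407 (by decide +kernel) ?_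
    refine jn 1410 (by decide +kernel) ?_
    refine jn 1420 (by decide +kernel) ?_
    refine jn 1431 (by decide +kernel) ?_
    refine jn 1443 (by decide +kernel) ?_
    refine jn 1458 (by decide +kernel) ?_
    refine jn 1463 (by decide +kernel) ?_
    refine jn 1476 (by decide +kernel) ?_
    refine jn 1485 (by decide +kernel) ?_
    refine jn 1497 (by decide +kernel) ?_
    refine jn 1508 (by decide +kernel) ?_
    refine jn 1527 (by decide +kernel) ?_
    refine jn 1536 (by decide +kernel) ?_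
    refine jn 1547 (by decide +kernel) ?_
    refine jn 1556 (by decide +kernel) ?_
    refine jn 1567 (by decide +kernel) ?_
    refine jn 1590 (by decide +kernel) ?_
    refine jn 1615 (by decide +kernel) ?_
    refine jn 1646 (by decide +kernel) ?_
    refine jn 1674 (by decide +kernel) ?_
    refine jn 1729 (by decide +kernel) ?_
    refine jn 1732 (by decide +kernel) ?_
    refine jn 1734 (by decide +kernel) ?_
    refine jn 1741 (by decide +kernel) ?_
    refine jn 1744 (by decide +kernel) ?_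
    refine jn 1745 (by decide +kernel) ?_
    refine jn 1750 (by decide +kernel) ?_
    refine jn 1754 (by decide +kernel) ?_
    refine jn 1758 (by decide +kernel) ?_
    refine jn 1761 (by decide +kernel) ?_
    refine jn 1765 (by decide +kernel) ?_
    refine jn 1766 (by decide +kernel) ?_
    refine jn 1772 (by decide +kernel) ?_
    refine jn 1781 (by decide +kernel) ?_
    refine jn 1785 (by decide +kernel) ?_
    refine jn 1786 (by decide +kernel) ?_
    refine jn 1790 (by decide +kernel) ?_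
    refine jn 1798 (by decide +kernel) ?_
    refine jn 1806 (by decide +kernel) ?_
    refine jn 1809 (by decide +kernel) ?_
    refine jn 1817 (by decide +kernel) ?_
    refine jn 1821 (by decide +kernel) ?_
    refine jn 1824 (by decide +kernel) ?_
    refine jn 1829 (by decide +kernel) ?_
    refine jn 1835 (by decide +kernel) ?_
    refine jn 1839 (by decide +kernel) ?_
    refine jn 1847 (by decide +kernel) ?_
    refine jn 1850 (by decide +kernel) ?_
    refine jn 1851 (by decide +kernel) ?_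
    refine jn 1856 (by decide +kernel) ?_
    refine jn 1863 (by decide +kernel) ?_
    refine jn 1867 (by decide +kernel) ?_
    refine jn 1871 (by decide +kernel) ?_
    refine jn 1877 (by decide +kernel) ?_
    refine jn 1890 (by decide +kernel) ?_
    refine jn 1892 (by decide +kernel) ?_
    refine jn 1902 (by decide +kernel) ?_
    refine jn 1907 (by decide +kernel) ?_
    refine jn 1915 (by decide +kernel) ?_
    refine jn 1923 (by decide +kernel) ?_
    refine jn 1928 (by decide +kernel) ?_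
    refine jn 1935 (by decide +kernel) ?_
    refine jn 1942 (by decide +kernel) ?_
    refine jn 1946 (by decide +kernel) ?_
    refine jn 1954 (by decide +kernel) ?_
    refine jn 1957 (by decide +kernel) ?_
    refine jn 1958 (by decide +kernel) ?_
    refine jn 1963 (by decide +kernel) ?_
    refine jn 1970 (by decide +kernel) ?_
    refine jn 1974 (by decide +kernel) ?_
    refine jn 1979 (by decide +kernel) ?_
    refine jn 1994 (by decide +kernel) ?_
    refine jn 1999 (by decide +kernel) ?_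
    refine jn 2009 (by decide +kernel) ?_
    refine jn 2019 (by decide +kernel) ?_
    refine jn 2026 (by decide +kernel) ?_
    refine jn 2034 (by decide +kernel) ?_
    refine jn 2038 (by decide +kernel) ?_
    exact je (by decide +kernel)
  · refine fin 15912 1007 T82_1 ?_
    refine jn 8 (by decide +kernel) ?_
    refine jn 13 (by decide +kernel) ?_
    refine jn 18 (by decide +kernel) ?_
    refine jn 24 (by decide +kernel) ?_
    refine jn 29 (by decide +kernel) ?_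
    refine jn 35 (by decide +kernel) ?_
    refine jn 40 (by decide +kernel) ?_
    refine jn 45 (by decide +kernel) ?_
    refine jn 50 (by decide +kernel) ?_
    refine jn 56 (by decide +kernel) ?_
    refine jn 62 (by decide +kernel) ?_
    refine jn 68 (by decide +kernel) ?_
    refine jn 73 (by decide +kernel) ?_
    refine jn 79 (by decide +kernel) ?_
    refine jn 80 (by decide +kernel) ?_
    refine jn 91 (by decide +kernel) ?_
    refine jn 102 (by decide +kernel) ?_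
    refine jn 114 (by decide +kernel) ?_
    refine jn 124 (by decide +kernel) ?_
    refine jn 133 (by decide +kernel) ?_
    refine jn 142 (by decide +kernel) ?_
    refine jn 151 (by decide +kernel) ?_
    refine jn 167 (by decide +kernel) ?_
    refine jn 184 (by decide +kernel) ?_
    refine jn 196 (by decide +kernel) ?_
    refine jn 224 (by decide +kernel) ?_
    refine jn 246 (by decide +kernel) ?_
    refine jn 267 (by decide +kernel) ?_
    refine jn 288 (by decide +kernel) ?_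
    refine jn 301 (by decide +kernel) ?_
    refine jn 322 (by decide +kernel) ?_
    refine jn 342 (by decide +kernel) ?_
    refine jn 345 (by decide +kernel) ?_
    refine jn 366 (by decide +kernel) ?_
    refine jn 387 (by decide +kernel) ?_
    refine jn 403 (by decide +kernel) ?_
    refine jn 423 (by decide +kernel) ?_
    refine jn 433 (by decide +kernel) ?_
    refine jn 447 (by decide +kernel) ?_
    refine jn 461 (by decide +kernel) ?_
    refine jn 476 (by decide +kernel) ?_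
    refine jn 512 (by decide +kernel) ?_
    refine jn 538 (by decide +kernel) ?_
    refine jn 557 (by decide +kernel) ?_
    refine jn 559 (by decide +kernel) ?_
    refine jn 595 (by decide +kernel) ?_
    refine jn 603 (by decide +kernel) ?_
    refine jn 617 (by decide +kernel) ?_
    refine jn 625 (by decide +kernel) ?_
    refine jn 633 (by decide +kernel) ?_
    refine jn 642 (by decide +kernel) ?_
    refine jn 650 (by decide +kernel) ?_
    refine jn 658 (by decide +kernel) ?_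
    refine jn 665 (by decide +kernel) ?_
    refine jn 674 (by decide +kernel) ?_
    refine jn 684 (by decide +kernel) ?_
    refine jn 707 (by decide +kernel) ?_
    refine jn 729 (by decide +kernel) ?_
    refine jn 741 (by decide +kernel) ?_
    refine jn 754 (by decide +kernel) ?_
    refine jn 765 (by decide +kernel) ?_
    refine jn 783 (by decide +kernel) ?_
    refine jn 800 (by decide +kernel) ?_
    refine jn 815 (by decide +kernel) ?_
    refine jn 829 (by decide +kernel) ?_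
    refine jn 846 (by decide +kernel) ?_
    refine jn 871 (by decide +kernel) ?_
    refine jn 881 (by decide +kernel) ?_
    refine jn 905 (by decide +kernel) ?_
    refine jn 923 (by decide +kernel) ?_
    refine jn 944 (by decide +kernel) ?_
    refine jn 962 (by decide +kernel) ?_
    refine jn 992 (by decide +kernel) ?_
    exact je (by decide +kernel)

end Pool.Agent.MP_2339ce_nt.NR
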