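import Pool.Agent.MP_2339ce_nt.Q2.NC.L5
import Pool.Agent.MP_2339ce_nt.Q2.NC.L8
import Pool.Agent.MP_2339ce_nt.Q2.NC.L10
import Pool.Agent.MP_2339ce_nt.Q2.CkI

/-! Block NR: runs. -/

set_option autoImplicit false
set_option maxRecDepth 100000

noncomputable section

namespace Pool.Agent.MP_2339ce_nt.NR

open Q2.Top

def T84_0 : Ph :=
  (.na 346 218 (.na 198 162 (.na 109 129 (.na 63 123 (.na 33 107 (.na 17 101 (.nx 16 2642247 (.nr
  15 2097153 (.nr 1 97 .s1 (.nx 5 408 (.nx 3 245 (.nr 2 1119 (.l1 (.ls 37 37 615)) (.l1 .sk)) (.nx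
  4 246 (.l1 .sk) (.l1 (.ls 89 37 1084)))) (.nr 14 1482912 (.nx 8 26009 (.lg 0 false 3 101 107 31 0
  720720) (.nr 13 65537 (.nx 9 30013 (.lg 0 false 1 73 73 29 0 5040) (.nr 11 1119 (.lg 0 true 2 79
  83 29 0 5040) (.nx 12 416129 (.lg 2 true 1 89 97 29 65782 5040) .out))) .out)) .out))) .out)
  .out) (.nx 32 2642247 (.nr 31 2097153 (.nr 18 100 .s1 (.nx 24 30013 (.nx 19 408 (.l1 (.ls 73 29
  1651)) (.nr 23 1482912 (.lg 0 false 4 89 89 17 0 5040) .out)) (.nr 30 65537 (.nr 27 513 (.lg 0
  true 3 61 61 16 0 2520) (.nx 29 416129 (.lg 2 true 2 79 79 16 99369 5040) .out)) .out))) .out)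
  .out)) (.na 49 122 (.nx 48 2642247 (.nr 47 2097153 (.nr 34 106 .s1 (.nx 35 408 (.l1 (.ls 73 29
  1558)) (.nr 46 1482912 (.nx 39 30013 (.lg 0 false 4 83 83 17 0 5040) (.nr 45 65537 (.nr 43 1352
  (.lg 0 true 4 71 71 17 0 5040) (.nx 44 416129 (.lg 2 false 1 79 79 16 65782 2520) .out)) .out))
  .out))) .out) .out) (.nx 62 2642247 (.nr 61 2097153 (.nr 50 121 .s1 (.nx 55 30013 (.nx 51 408
  (.l1 (.ls 79 37 1367)) (.nr 54 1482912 (.lg 0 false 3 97 97 23 0 5040) .out)) (.nr 60 65537 (.nr
  57 513 (.lg 0 true 2 67 67 19 0 5040) (.nx 59 416129 (.lg 2 false 2 83 83 19 99369 5040) .out))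
  .out))) .out) .out))) (.na 93 127 (.na 79 126 (.nx 78 2642247 (.nr 77 2097153 (.nr 64 123 .s1
  (.nx 74 416129 (.nx 65 408 (.l1 (.ls 83 31 1356)) (.nr 73 1482912 (.nx 69 26009 (.lg 0 false 4 89
  89 23 0 5040) (.nr 72 65537 (.nx 70 70401 (.lg 0 true 1 79 79 17 0 2520) (.nr 71 3997 (.lg 0
  false 1 79 79 17 0 2520) (.lg 2 false 1 79 79 17 28044 2520))) .out)) .out)) (.nr 76 513 (.lg 0
  true 2 73 73 19 0 5040) .out))) .out) .out) (.nx 92 2642247 (.nr 91 2097153 (.nr 80 126 .s1 (.nx
  85 30013 (.nx 81 408 (.l1 (.ls 73 43 1324)) (.nr 84 1482912 (.lg 0 false 3 83 83 31 0 5040)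
  .out)) (.nr 90 65537 (.nr 87 513 (.lg 0 true 2 61 61 31 0 5040) (.nx 89 416129 (.lg 2 true 2 79
  79 31 99369 5040) .out)) .out))) .out) .out)) (.na 108 128 (.nx 107 2642247 (.nr 106 2097153 (.nr
  94 127 .s1 (.nx 100 30013 (.nx 95 408 (.l1 (.ls 71 29 1313)) (.nr 99 1482912 (.lg 0 false 4 83 83
  17 0 5040) .out)) (.nr 105 65537 (.nr 103 1419 (.lg 0 true 3 67 67 17 0 2520) (.nx 104 416129
  (.lg 2 false 1 73 73 16 65782 2520) .out)) .out))) .out) .out) .ne))) (.na 155 145 (.na 139 138
  (.na 125 134 (.nx 124 1321124 (.nr 123 2097153 (.nr 110 129 .s1 (.nx 119 41287 (.nx 112 245 (.nr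
  111 1485 (.l1 (.ls 29 23 468)) (.l1 .sk)) (.nx 113 246 (.l1 .sk) (.nx 117 26009 (.lg 0 false 4 89
  101 23 0 5040) (.nr 118 65537 (.lg 0 false 1 73 73 19 0 2520) .out)))) (.nr 122 16385 (.nr 120
  1025 (.lg 0 true 1 71 71 19 0 2520) (.nx 121 165142 (.lg 2 true 1 67 67 19 19737 2520) .out))
  .out))) .out) .out) (.nx 138 1321124 (.nr 137 2097153 (.nr 126 134 .s1 (.nx 132 26009 (.nx 128
  245 (.nr 127 1529 (.l1 (.ls 23 29 450)) (.l1 .sk)) (.nx 129 246 (.l1 .sk) (.lg 0 false 3 89 89 23
  0 5040))) (.nr 136 65537 (.nx 134 165142 (.lg 0 true 2 83 83 23 0 5040) (.nr 135 1025 (.lg 0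
  false 1 73 73 19 0 5040) .out)) .out))) .out) .out)) (.na 154 139 (.nx 153 1321124 (.nr 152
  2097153 (.nr 140 138 .s1 (.nx 147 41287 (.nx 142 245 (.nr 141 1540 (.l1 (.ls 19 37 437)) (.l1
  .sk)) (.nx 143 246 (.l1 .sk) (.nr 144 262145 (.lg 0 true 1 97 97 31 0 5040) (.nx 146 20644 (.lg 0
  false 2 97 97 37 0 5040) .out)))) (.nr 151 16385 (.nr 149 1025 (.lg 0 true 2 73 73 37 0 5040)
  (.nx 150 165142 (.lg 2 true 1 71 71 31 19737 5040) .out)) .out))) .out) .out) (.lg 0 false 1 0 0
  16 0 24))) (.na 183 150 (.na 169 149 (.nx 168 1321124 (.nr 167 2097153 (.nr 156 145 .s1 (.nx 163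
  41287 (.nx 158 245 (.nr 157 1651 (.l1 (.ls 19 23 416)) (.l1 .sk)) (.nx 159 246 (.l1 .sk) (.lg 0
  false 4 89 89 19 0 5040))) (.nr 166 16385 (.nr 164 1025 (.lg 0 false 1 71 71 17 0 2520) (.nx 165
  165142 (.lg 2 false 1 61 61 17 19737 2520) .out)) .out))) .out) .out) (.nx 182 1321124 (.nr 181
  2097153 (.nr 170 149 .s1 (.nx 173 246 (.nx 172 245 (.nr 171 1662 (.l1 (.ls 23 19 405)) (.l1 .sk))
  (.l1 .sk)) (.nx 179 165142 (.nx 177 26009 (.lg 0 false 4 83 83 17 0 5040) (.nr 178 65537 (.lg 0
  false 1 79 79 16 0 2520) .out)) (.nr 180 1025 (.lg 0 false 1 67 67 16 0 2520) .out)))) .out)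
  .out)) (.na 184 161 (.lg 0 false 1 0 0 16 0 24) (.nx 197 1321124 (.nr 196 2097153 (.nr 185 161
  .s1 (.nx 188 246 (.nx 187 245 (.nr 186 1795 (.l1 (.ls 19 19 375)) (.l1 .sk)) (.l1 .sk)) (.nx 192
  41287 (.lg 0 false 4 89 89 19 0 5040) (.nr 195 16385 (.nr 193 1025 (.lg 0 false 1 71 71 17 0
  2520) (.nx 194 165142 (.lg 2 false 1 61 61 17 19737 2520) .out)) .out)))) .out) .out))))) (.na
  266 193 (.na 237 178 (.na 224 174 (.na 211 166 (.nx 210 1321124 (.nr 209 2097153 (.nr 199 162 .s1
  (.nx 207 165142 (.nx 201 245 (.nr 200 1840 (.l1 (.ls 23 31 373)) (.l1 .sk)) (.nx 202 246 (.l1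
  .sk) (.nx 205 26009 (.lg 0 false 3 83 83 29 0 5040) (.nr 206 65537 (.lg 0 false 1 83 83 23 0
  5040) .out)))) (.nr 208 1025 (.lg 0 false 1 71 71 23 0 5040) .out))) .out) .out) (.nx 223 1321124
  (.nr 222 2097153 (.nr 212 166 .s1 (.nx 215 246 (.nx 214 245 (.nr 213 1928 (.l1 (.ls 23 29 364))
  (.l1 .sk)) (.l1 .sk)) (.nx 220 165142 (.nx 218 26009 (.lg 0 false 3 89 89 23 0 5040) (.nr 219
  65537 (.lg 0 false 1 89 89 19 0 5040) .out)) (.nr 221 1025 (.lg 0 false 1 71 71 19 0 5040)
  .out)))) .out) .out)) (.na 236 175 (.nx 235 1321124 (.nr 234 2097153 (.nr 225 174 .s1 (.nx 232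
  165142 (.nx 227 245 (.nr 226 1939 (.l1 (.ls 23 37 347)) (.l1 .sk)) (.nx 228 246 (.l1 .sk) (.nx
  230 26009 (.lg 0 false 2 97 97 37 0 5040) (.nr 231 65537 (.lg 0 false 1 89 89 23 0 5040) .out))))
  (.nr 233 1025 (.lg 0 true 1 71 71 23 0 5040) .out))) .out) .out) (.lg 0 false 1 0 0 16 0 24)))
  (.na 264 182 (.na 250 181 (.nx 249 1321124 (.nr 248 2097153 (.nr 238 178 .s1 (.nx 246 165142 (.nx
  240 245 (.nr 239 2006 (.l1 (.ls 23 29 340)) (.l1 .sk)) (.nx 241 246 (.l1 .sk) (.nx 244 26009 (.lg
  0 false 3 83 83 23 0 5040) (.nr 245 65537 (.lg 0 false 1 79 79 19 0 5040) .out)))) (.nr 247 1025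
  (.lg 0 false 1 67 67 19 0 5040) .out))) .out) .out) (.nx 263 1321124 (.nr 262 2097153 (.nr 251
  181 .s1 (.nx 254 246 (.nx 253 245 (.nr 252 2017 (.l1 (.ls 23 19 334)) (.l1 .sk)) (.l1 .sk)) (.nx
  258 41287 (.lg 0 false 4 83 83 19 0 5040) (.nr 261 16385 (.nr 259 1025 (.lg 0 false 1 67 67 16 0
  2520) (.nx 260 165142 (.lg 2 false 1 59 59 16 19737 2520) .out)) .out)))) .out) .out)) (.na 265
  191 .ne (.lg 0 false 1 0 0 16 0 24)))) (.na 295 206 (.na 268 202 (.na 267 197 (.lg 0 false 1 0 0
  16 0 24) (.lg 0 false 1 0 0 16 0 24)) (.na 281 203 (.nx 280 1321124 (.nr 279 1482912 (.nr 269 202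
  .s1 (.nx 272 246 (.nx 271 245 (.nr 270 2250 (.l1 (.ls 23 29 300)) (.l1 .sk)) (.l1 .sk)) (.nx 275
  41287 (.lg 0 false 3 83 83 29 0 5040) (.nr 278 16385 (.nr 276 1025 (.lg 0 false 1 67 67 23 0
  5040) (.nx 277 165142 (.lg 2 true 1 59 59 23 19737 5040) .out)) .out)))) .out) .out) (.nx 294
  1321124 (.nr 293 1482912 (.nr 282 203 .s1 (.nx 285 246 (.nx 284 245 (.nr 283 2283 (.l1 (.ls 19 23
  298)) (.l1 .sk)) (.l1 .sk)) (.nx 289 41287 (.lg 0 false 4 83 83 23 0 5040) (.nr 292 16385 (.nr
  290 1025 (.lg 0 false 1 67 67 17 0 2520) (.nx 291 165142 (.lg 2 false 1 59 59 17 19737 2520)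
  .out)) .out)))) .out) .out))) (.na 320 210 (.na 308 207 (.nx 307 1321124 (.nr 306 1482912 (.nr
  296 206 .s1 (.nx 302 41287 (.nx 298 245 (.nr 297 2294 (.l1 (.ls 23 29 294)) (.l1 .sk)) (.nx 299
  246 (.l1 .sk) (.lg 0 false 3 83 83 29 0 5040))) (.nr 305 16385 (.nr 303 1025 (.lg 0 false 1 61 61
  23 0 5040) (.nx 304 165142 (.lg 2 false 1 59 59 23 19737 5040) .out)) .out))) .out) .out) (.nx
  319 1321124 (.nr 318 1482912 (.nr 309 207 .s1 (.nx 316 165142 (.nx 314 26009 (.nx 311 245 (.nr
  310 2327 (.l1 (.ls 19 19 292)) (.l1 .sk)) (.nx 312 246 (.l1 .sk) (.lg 0 false 2 97 97 19 0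
  5040))) (.nr 315 65537 (.lg 0 false 1 83 83 19 0 2520) .out)) (.nr 317 1025 (.lg 0 true 1 67 67
  19 0 2520) .out))) .out) .out)) (.na 333 214 (.nx 332 1321124 (.nr 331 1482912 (.nr 321 210 .s1
  (.nx 324 246 (.nx 323 245 (.nr 322 2371 (.l1 (.ls 23 41 288)) (.l1 .sk)) (.l1 .sk)) (.nx 327
  41287 (.lg 0 false 3 83 83 37 0 5040) (.nr 330 16385 (.nr 328 1025 (.lg 0 false 1 67 67 31 0
  5040) (.nx 329 165142 (.lg 2 true 1 59 59 31 19737 5040) .out)) .out)))) .out) .out) (.nx 345
  1321124 (.nr 344 1482912 (.nr 334 214 .s1 (.nx 337 246 (.nx 336 245 (.nr 335 2416 (.l1 (.ls 23 29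
  283)) (.l1 .sk)) (.l1 .sk)) (.nx 340 41287 (.lg 0 false 3 83 83 29 0 5040) (.nr 343 16385 (.nr
  341 1025 (.lg 0 false 1 67 67 23 0 5040) (.nx 342 165142 (.lg 2 false 1 59 59 23 19737 5040)
  .out)) .out)))) .out) .out)))))) (.na 1343 512 (.na 422 245 (.na 384 230 (.na 372 225 (.na 359
  223 (.nx 358 1321124 (.nr 357 1482912 (.nr 347 218 .s1 (.nx 350 246 (.nx 349 245 (.nr 348 2471
  (.l1 (.ls 23 29 278)) (.l1 .sk)) (.l1 .sk)) (.nx 353 41287 (.lg 0 false 3 83 83 29 0 5040) (.nr
  356 16385 (.nr 354 1025 (.lg 0 false 1 67 67 23 0 5040) (.nx 355 165142 (.lg 2 false 1 59 59 23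
  19737 5040) .out)) .out)))) .out) .out) (.nx 371 1321124 (.nr 370 1482912 (.nr 360 223 .s1 (.nx
  362 245 (.nr 361 2493 (.l1 (.ls 19 19 272)) (.l1 .sk)) (.nx 363 246 (.l1 .sk) (.nx 366 41287 (.lg
  0 false 3 79 79 19 0 2520) (.nr 369 16385 (.nr 367 1025 (.lg 0 false 1 59 59 16 0 2520) (.nx 368
  165142 (.lg 2 false 1 47 47 16 19737 2520) .out)) .out))))) .out) .out)) (.na 373 229 (.lg 0
  false 1 0 0 16 0 24) (.nx 383 1321124 (.nr 382 1482912 (.nr 374 229 .s1 (.nx 377 246 (.nx 376 245
  (.nr 375 2549 (.l1 (.ls 19 19 265)) (.l1 .sk)) (.l1 .sk)) (.nx 380 41287 (.lg 0 false 3 79 79 19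
  0 2520) (.nr 381 16385 (.lg 0 false 1 79 79 17 0 2520) .out)))) .out) .out))) (.na 408 239 (.na
  395 235 (.nx 394 1321124 (.nr 393 1482912 (.nr 385 230 .s1 (.nx 391 41287 (.nx 387 245 (.nr 386
  2604 (.l1 (.ls 19 31 263)) (.l1 .sk)) (.nx 388 246 (.l1 .sk) (.lg 0 false 3 83 83 37 0 5040)))
  (.nr 392 16385 (.lg 0 false 1 89 89 31 0 5040) .out))) .out) .out) (.nx 407 1321124 (.nr 406
  1482912 (.nr 396 235 .s1 (.nx 398 245 (.nr 397 2648 (.l1 (.ls 19 19 258)) (.l1 .sk)) (.nx 399 246
  (.l1 .sk) (.nx 402 41287 (.lg 0 false 3 83 83 19 0 2520) (.nr 405 16385 (.nr 403 1025 (.lg 0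
  false 1 67 67 17 0 2520) (.nx 404 165142 (.lg 2 true 1 59 59 17 19737 2520) .out)) .out)))))
  .out) .out)) (.na 409 241 (.lg 0 false 1 0 0 16 0 24) (.nx 421 1321124 (.nr 420 1482912 (.nr 410
  241 .s1 (.nx 416 41287 (.nx 412 245 (.nr 411 2715 (.l1 (.ls 19 19 252)) (.l1 .sk)) (.nx 413 246
  (.l1 .sk) (.lg 0 false 3 79 79 19 0 2520))) (.nr 419 16385 (.nr 417 1025 (.lg 0 false 1 61 61 17
  0 2520) (.nx 418 165142 (.lg 2 false 1 53 53 17 19737 2520) .out)) .out))) .out) .out)))) (.na
  447 254 (.na 445 250 (.na 433 246 (.nx 432 1321124 (.nr 431 1482912 (.nr 423 245 .s1 (.nx 425 245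
  (.nr 424 2726 (.l1 (.ls 31 23 247)) (.l1 .sk)) (.nx 426 246 (.l1 .sk) (.nx 429 165142 (.nr 427
  65537 (.lg 0 true 1 79 83 29 0 2520) (.nx 428 26009 (.lg 0 false 1 89 89 29 0 2520) .out)) (.nr
  430 1025 (.lg 0 true 1 67 67 29 0 2520) .out))))) .out) .out) (.nx 444 1321124 (.nr 443 1482912
  (.nr 434 246 .s1 (.nx 437 246 (.nx 436 245 (.nr 435 2770 (.l1 (.ls 29 31 247)) (.l1 .sk)) (.l1
  .sk)) (.nx 439 26009 (.lg 0 false 2 89 89 31 0 5040) (.nr 442 65537 (.nx 440 165142 (.lg 0 false
  1 83 83 31 0 5040) (.nr 441 1025 (.lg 0 true 1 67 67 31 0 5040) .out)) .out)))) .out) .out)) (.na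
  446 251 (.lg 0 false 1 0 0 16 0 24) (.lg 0 false 1 0 0 16 0 24))) (.na 459 257 (.na 458 256 (.nx
  457 1321124 (.nr 456 1482912 (.nr 448 254 .s1 (.nx 454 41287 (.nx 450 245 (.nr 449 2837 (.l1 (.ls
  23 29 239)) (.l1 .sk)) (.nx 451 246 (.l1 .sk) (.lg 0 false 3 83 83 29 0 5040))) (.nr 455 16385
  (.lg 0 false 1 83 83 23 0 5040) .out))) .out) .out) .ne) (.na 890 363 (.nx 889 1321124 (.nr 888
  1482912 (.nr 460 257 .s1 (.nx 674 26009 (.nx 567 245 (.nr 566 4022 (.la (.ls 37 19 236)) (.l1
  .sk)) (.nx 568 246 (.l1 .sk) (.la (.lg 0 false 2 79 83 23 0)))) (.nr 887 32769 (.nx 780 165142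
  (.la (.lg 0 true 1 71 71 19 0)) (.nr 886 2049 (.la (.lg 0 true 1 67 67 19 0)) .out)) .out)))
  .out) .out) (.nx 1342 1321124 (.nr 1341 1482912 (.nr 891 363 .s1 (.nx 1191 26009 (.nx 1041 245
  (.nr 1040 5673 (.la (.ls 29 19 168)) (.l1 .sk)) (.nx 1042 246 (.l1 .sk) (.la (.lg 0 true 1 79 79
  23 0)))) (.nr 1340 32769 (.la (.lg 0 false 1 79 79 23 0)) .out))) .out) .out))))) (.na 12057 8192
  (.na 4646 2048 (.na 2590 1024 (.na 1988 725 (.nx 1987 1321124 (.nr 1986 1482912 (.nr 1344 512 .s1
  (.nx 1559 246 (.nx 1558 245 (.nr 1557 8033 (.la (.ls 29 23 182)) (.l1 .sk)) (.l1 .sk)) (.nx 1772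
  26009 (.la (.lg 0 true 1 73 73 29 0)) (.nr 1985 32769 (.la (.lg 0 false 1 73 73 29 0)) .out))))
  .out) .out) (.nx 2589 20644 (.nr 2588 2097153 (.nr 1989 725 .s1 (.nx 2288 2049 (.la (.ls 71 37
  5793)) (.nr 2587 262145 (.la (.lg 0 false 1 61 61 29 0)) .out))) .out) .out)) (.na 3444 1449 (.nx
  3443 20644 (.nr 3442 2097153 (.nr 2591 1024 .s1 (.nx 3016 3252 (.la (.ls 71 41 10330)) (.nr 3441
  131073 (.la (.lg 0 false 1 47 47 31 0)) .out))) .out) .out) (.nx 4645 13005 (.nr 4644 2097153
  (.nr 3445 1449 .s1 (.nx 4044 3252 (.la (.ls 61 41 7301)) (.nr 4643 16385 (.la (.lg 0 false 1 29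
  29 31 0)) .out))) .out) .out))) (.na 7550 4096 (.na 6348 2897 (.nx 6347 13005 (.nr 6346 2097153
  (.nr 4647 2048 .s1 (.nx 5496 3252 (.la (.ls 67 41 5166)) (.nr 6345 16385 (.la (.ls 31 53 77422))
  .out))) .out) .out) (.nx 7549 4097 (.nr 7548 1048577 (.nr 6349 2897 .s1 (.la (.ls 59 41 5797)))
  .out) .out)) (.na 9250 5793 (.nx 9249 5162 (.nr 9248 1048577 (.nr 7551 4096 .s1 (.la (.ls 53 41
  6508))) .out) .out) (.nx 12056 2049 (.nr 12055 524289 (.nr 9251 5793 .s1 (.nx 9656 406 (.lx (.lp
  47 37 2049)) (.la (.ls 47 37 2049)))) .out) .out)))) (.na 22014 65536 (.na 17910 16384 (.na 15859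
  11586 (.nx 15858 2049 (.nr 15857 524289 (.nr 12058 8192 .s1 (.nx 12463 406 (.lx (.lp 41 37 2897))
  (.la (.ls 43 41 2897)))) .out) .out) (.nx 17909 2049 (.nr 17908 131073 (.nr 15860 11586 .s1 (.lx
  (.lp 37 41 4097))) .out) .out)) (.na 19962 32768 (.nx 19961 2049 (.nr 19960 262145 (.nr 17911
  16384 .s1 (.nx 18234 324 (.lx (.lp 37 41 8193)) (.nr 19959 131073 (.lx (.lp 31 43 8193)) .out)))
  .out) .out) (.nx 22013 2049 (.nr 22012 524289 (.nr 19963 32768 .s1 (.nx 20474 512 (.lx (.lp 37 47
  16385)) (.nr 22011 262145 (.lx (.lp 31 47 16385)) .out))) .out) .out))) (.na 25274 262144 (.na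
  23644 131072 (.nx 23643 1627 (.nr 23642 524289 (.nr 22015 65536 .s1 (.nx 22338 324 (.lx (.lp 16 0
  32769)) (.nr 23641 262145 (.lx (.lp 29 53 32769)) .out))) .out) .out) (.nx 25273 1627 (.nr 25272
  524289 (.nr 23645 131072 .s1 (.nx 24157 513 (.lx (.lp 16 53 65537)) (.nr 25271 262145 (.lx (.lp
  23 59 65537)) .out))) .out) .out)) (.na 25789 524288 (.nx 25788 513 (.nr 25787 1048577 (.nr 25275
  262144 .s1 (.lx (.lp 16 0 131073))) .out) .out) (.na 25791 1048577 (.nx 25790 324 (.l1 .sk) .out)
  .out)))))))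

def T84_1 : Ph :=
  (.na 497 4 (.na 282 2 (.nx 281 1321124 (.nr 280 881745 (.nx 3 152 (.nx 2 151 (.nr 1 13 (.lg 0
  false 1 41 41 5 0 24) (.l1 .sk)) (.l1 .sk)) (.nx 251 660563 (.nx 84 17696 (.nr 55 92683 (.lg 0
  false 52 101 107 16 0 720720) (.nx 83 257 (.lg 0 false 28 79 83 11 0 1680) .out)) (.nr 250 77937
  (.nr 123 695 (.lg 0 true 39 89 97 16 0 9360) (.nx 162 32769 (.lg 1 false 39 101 107 16 50309
  720720) (.nr 249 55110 (.nr 175 1219 (.lg 2 true 13 89 89 9 71760 21840) (.nx 248 524289 (.nr 188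
  2437 (.lg 2 true 13 89 97 9 32473 240240) (.nx 247 416129 (.nr 197 4097 (.lg 2 true 9 89 89 9
  12892 5040) (.nr 210 23172 (.lg 2 false 13 101 103 9 8115 240240) (.nx 246 262145 (.lg 2 false 36
  97 103 16 19226 55440) .out))) .out)) .out)) .out))) .out)) (.nr 279 129 (.lg 0 true 28 79 83 11
  0 1680) .out))) .out) .out) (.na 496 3 (.nx 495 3329023 (.nr 494 623489 (.nx 475 1664512 (.nx 284
  151 (.nr 283 24 (.lg 0 true 1 37 37 5 0 240) (.l1 .sk)) (.nx 285 152 (.l1 .sk) (.nr 461 131073
  (.nx 439 832257 (.nx 324 19757 (.lg 0 false 39 101 103 13 0 720720) (.nr 345 450 (.lg 0 true 21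
  83 83 11 0 1008) (.nx 438 416129 (.nx 366 32769 (.lg 1 false 21 97 103 11 75723 55440) (.nr 437
  92683 (.nx 387 44591 (.lg 1 false 21 89 101 11 32298 55440) (.nr 396 2437 (.lg 2 true 9 89 89 9
  69818 720) (.nx 436 330282 (.nx 417 82572 (.lg 1 true 21 97 103 11 23735 55440) (.nr 435 77937
  (.lg 2 false 18 101 107 11 10782 720720) .out)) .out))) .out)) .out))) (.nr 460 129 (.lg 0 true
  21 79 79 11 0 1008) .out)) (.nx 474 257 (.lg 0 false 13 73 73 9 0 624) .out)))) (.nr 493 9 (.lg 0
  true 18 67 67 9 0 144) .out)) .out) .out) .ne)) (.na 792 6 (.na 664 5 (.nx 663 13316087 (.nr 662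
  1246976 (.nx 500 152 (.nx 499 151 (.nr 498 42 (.lg 0 true 1 31 31 9 0 720) (.l1 .sk)) (.l1 .sk))
  (.nx 612 1664512 (.nr 604 155873 (.nx 590 416129 (.nx 525 26007 (.nr 521 110219 (.lg 0 false 21
  89 101 13 0 5040) (.nx 524 1627 (.lg 0 false 3 83 83 9 0 720) .out)) (.nr 589 131073 (.nr 545
  5810 (.nr 538 729 (.lg 0 true 13 83 83 13 0 9360) (.lg 2 true 7 83 89 11 43098 1680)) (.nx 552
  36779 (.lg 1 false 7 97 101 11 57525 55440) (.nx 559 52015 (.lg 1 false 7 97 101 11 40677 55440)
  (.nx 566 73561 (.lg 1 false 7 97 101 11 28762 55440) (.nx 573 104033 (.lg 1 true 7 97 101 11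
  20338 55440) (.nr 588 92683 (.nx 580 131073 (.lg 1 true 7 89 97 11 10174 5040) (.nr 587 55110
  (.lg 2 false 7 83 89 11 5408 1680) .out)) .out)))))) .out)) (.nr 603 183 (.lg 0 true 13 79 79 13
  0 624) .out)) (.nx 611 257 (.lg 0 false 7 79 79 11 0 336) .out)) (.nr 661 21 (.nx 633 6658044
  (.lg 0 true 21 73 73 11 0 1008) (.lg 0 true 28 73 73 11 0 336)) .out))) .out) .out) (.nx 791
  13316087 (.nr 790 1482912 (.nx 667 152 (.nx 666 151 (.nr 665 51 (.lg 0 true 1 31 31 9 0 720) (.l1
  .sk)) (.l1 .sk)) (.nx 761 1664512 (.nx 696 26007 (.nr 688 110219 (.lg 0 false 21 89 97 16 0 5040)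
  (.nx 695 257 (.lg 0 false 7 73 73 16 0 840) .out)) (.nr 760 155873 (.nr 716 956 (.nx 708 832257
  (.lg 0 true 12 83 83 16 0 720) (.nr 715 129 (.lg 0 true 7 73 73 16 0 840) .out)) (.nx 759 660563
  (.nr 720 4213 (.lg 2 true 4 83 83 13 52168 240) (.nx 735 58386 (.nx 728 41285 (.nr 727 131073
  (.lg 1 false 7 101 103 16 57525 720720) .out) (.lg 1 false 7 101 103 16 43086 720720)) (.nx 742
  82572 (.lg 1 false 7 101 103 16 30466 720720) (.nr 758 131073 (.nx 749 131073 (.lg 1 true 7 101
  103 16 18118 720720) (.nr 757 46342 (.nr 753 8843 (.lg 2 true 4 79 79 13 11838 240) (.lg 2 false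
  4 83 89 13 5640 240)) .out)) .out)))) .out)) .out)) (.nr 789 24 (.lg 0 true 28 73 73 16 0 1680)
  .out))) .out) .out)) (.na 793 8 .ne (.nx 879 13316087 (.nr 878 623489 (.nx 796 152 (.nx 795 151
  (.nr 794 78 (.lg 0 true 1 37 37 11 0 48) (.l1 .sk)) (.l1 .sk)) (.nx 815 19756 (.nr 805 110219
  (.lg 0 false 9 101 103 19 0 720720) (.nx 814 2582 (.nx 812 1627 (.nr 808 311745 (.lg 0 false 3 97
  97 13 0 7920) (.nx 811 814 (.lg 0 false 3 89 89 13 0 144) .out)) (.nr 813 131073 (.lg 0 false 1
  79 79 11 0 48) .out)) .out)) (.nr 877 131073 (.nx 855 1664512 (.nx 849 832257 (.nr 822 727 (.lg 0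
  true 7 83 83 13 0 336) (.nx 848 660563 (.nr 826 11603 (.nr 825 5806 (.nr 824 2905 (.lg 2 true 2
  97 97 11 68601 18480) (.lg 2 false 1 89 89 11 17168 18480)) (.lg 2 false 1 97 97 11 8590 18480))
  (.nx 843 131073 (.nx 839 82572 (.nx 836 56180 (.nx 833 38224 (.nx 830 26007 (.nr 829 110219 (.lg
  1 false 3 101 103 13 63693 720720) .out) (.lg 1 false 3 103 107 13 57525 720720)) (.lg 1 false 3
  103 107 13 39139 720720)) (.lg 1 false 3 103 107 13 26630 720720)) (.nr 842 110219 (.lg 1 true 3
  103 107 13 15239 720720) .out)) (.nr 847 65537 (.nr 845 55110 (.lg 2 false 2 97 101 11 4807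
  18480) (.nx 846 262144 .out (.lg 2 false 1 83 83 11 2857 48))) .out))) .out)) (.nr 854 129 (.lg 0
  true 5 73 79 13 0 240) .out)) (.nr 876 55 (.lg 0 true 21 79 83 13 0 1008) .out)) .out))) .out)
  .out))))

def T84_2 : Ph :=
  (.na 364 142 (.na 254 42 (.na 177 16 (.na 84 6 (.na 1 2 .ne (.na 83 3 (.nx 82 660563 (.nr 81
  623489 (.nx 4 36 (.nx 3 35 (.nr 2 12 (.lg 0 true 1 29 29 5 0 5040) (.l1 .sk)) (.l1 .sk)) (.nr 67
  131073 (.nx 53 104033 (.nr 41 27556 (.nx 17 4876 (.lg 0 false 13 89 89 9 0 65520) (.nr 30 613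
  (.lg 0 true 13 83 83 9 0 65520) (.lg 2 false 11 89 97 9 3467 55440))) (.nx 52 647 (.lg 0 false 11
  89 89 9 0 55440) .out)) (.nr 66 154 (.lg 0 true 13 83 83 9 0 65520) .out)) (.nx 80 103 (.lg 0
  false 13 79 79 9 0 65520) .out))) .out) .out) .ne)) (.na 125 10 (.na 124 7 (.nx 123 660563 (.nr
  122 220437 (.nr 85 2 .s1 (.nx 88 36 (.nx 87 35 (.nr 86 29 (.l1 (.ls 23 29 207)) (.l1 .sk)) (.l1
  .sk)) (.nr 101 338 (.lg 0 true 13 79 79 19 0 65520) (.nx 121 330282 (.nx 105 647 (.lg 0 false 4
  89 89 13 0 5040) (.nr 120 77937 (.nr 108 3052 (.lg 2 false 3 79 79 13 17101 5040) (.nx 113 6503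
  (.lg 0 false 5 101 103 13 0 720720) (.nr 119 27556 (.lg 2 true 6 71 71 13 2599 5040) .out)))
  .out)) .out)))) .out) .out) .ne) (.na 158 14 (.nx 157 660563 (.nr 156 623489 (.nr 126 9 .s1 (.nx
  129 36 (.nx 128 35 (.nr 127 59 (.lg 0 true 1 0 16 9 0 5040) (.l1 .sk)) (.l1 .sk)) (.nx 130 103
  (.l1 (.ls 79 37 934)) (.nr 155 131073 (.nx 141 6503 (.lg 0 false 11 83 83 13 0 55440) (.nr 154
  46342 (.nr 150 154 (.lg 0 true 9 67 67 13 0 5040) (.nx 153 41287 (.lg 1 false 3 79 79 11 4692
  5040) .out)) .out)) .out)))) .out) .out) (.nx 176 660563 (.nr 175 623489 (.nr 159 13 .s1 (.nx 160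
  103 (.l1 (.ls 79 37 760)) (.nr 174 131073 (.nx 163 6503 (.lg 0 true 3 83 83 13 0 5040) (.nr 173
  46342 (.nr 169 154 (.lg 0 true 6 67 67 13 0 5040) (.nx 172 41287 (.lg 1 false 3 73 73 13 4692
  5040) .out)) .out)) .out))) .out) .out)))) (.na 213 26 (.na 197 22 (.na 178 18 .ne (.nx 196
  660563 (.nr 195 623489 (.nr 179 18 .s1 (.nx 184 6503 (.nx 180 103 (.l1 (.ls 83 37 592)) (.nr 183
  131073 (.lg 0 true 3 83 83 13 0 5040) .out)) (.nr 194 46342 (.nr 188 257 (.lg 0 true 4 73 73 19 0
  5040) (.nx 193 41287 (.lg 1 false 5 67 67 19 4369 5040) .out)) .out))) .out) .out)) (.na 212 23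
  (.nx 211 660563 (.nr 210 623489 (.nr 198 22 .s1 (.nx 203 6503 (.nx 199 103 (.l1 (.ls 83 31 485))
  (.nr 202 131073 (.lg 0 false 3 89 89 13 0 55440) .out)) (.nr 209 46342 (.nr 207 257 (.lg 0 true 4
  73 73 17 0 55440) (.nx 208 41287 (.lg 1 false 1 83 83 9 4369 55440) .out)) .out))) .out) .out)
  .ne)) (.na 241 32 (.na 227 30 (.nx 226 660563 (.nr 225 131073 (.nr 214 26 .s1 (.nx 216 35 (.nr
  215 127 (.l1 (.ls 23 19 50)) (.l1 .sk)) (.nx 217 36 (.l1 .sk) (.nx 219 6503 (.lg 0 true 2 89 89
  11 0 65520) (.nr 224 32769 (.nr 222 257 (.lg 0 true 3 71 71 11 0 65520) (.nx 223 41287 (.lg 1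
  false 1 83 83 11 3090 720720) .out)) .out))))) .out) .out) (.nx 240 660563 (.nr 239 131073 (.nr
  228 30 .s1 (.nx 231 36 (.nx 230 35 (.nr 229 135 (.l1 (.ls 19 23 43)) (.l1 .sk)) (.l1 .sk)) (.nx
  233 6503 (.lg 0 true 2 83 83 19 0 5040) (.nr 238 32769 (.nr 236 257 (.lg 0 true 3 67 67 23 0
  5040) (.nx 237 41287 (.lg 1 false 1 73 73 19 3090 5040) .out)) .out)))) .out) .out)) (.na 242 34
  .ne (.nx 253 82572 (.nr 252 262145 (.nr 243 34 .s1 (.nx 245 35 (.nr 244 177 (.l1 (.ls 16 13 39))
  (.l1 .sk)) (.nx 246 36 (.l1 .sk) (.nx 248 2582 (.lg 0 true 2 83 83 13 0 5040) (.nr 251 32769 (.nr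
  249 154 (.lg 0 false 1 61 61 13 0 5040) (.nx 250 41287 (.lg 1 false 1 83 83 13 7784 5040) .out))
  .out))))) .out) .out))))) (.na 315 90 (.na 286 64 (.na 266 54 (.na 265 50 (.nx 264 82572 (.nr 263
  262145 (.nr 255 42 .s1 (.nx 258 36 (.nx 257 35 (.nr 256 211 (.l1 (.ls 19 23 32)) (.l1 .sk)) (.l1
  .sk)) (.nx 259 2582 (.lg 0 true 1 83 83 19 0 5040) (.nr 262 32769 (.nr 260 154 (.lg 0 false 1 59
  59 19 0 5040) (.nx 261 41287 (.lg 1 false 1 79 79 19 7784 5040) .out)) .out)))) .out) .out) (.lg
  0 false 1 0 0 16 0 24)) (.na 276 58 (.nx 275 82572 (.nr 274 262145 (.nr 267 54 .s1 (.nx 269 35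
  (.nr 268 245 (.l1 (.ls 17 19 25)) (.l1 .sk)) (.nx 270 36 (.l1 .sk) (.nr 272 32769 (.lg 0 false 2
  83 83 19 0 5040) (.nx 273 2582 (.lg 0 true 1 79 79 19 0 5040) .out))))) .out) .out) (.nx 285
  82572 (.nr 284 262145 (.nr 277 58 .s1 (.nx 279 35 (.nr 278 270 (.l1 (.ls 17 13 24)) (.l1 .sk))
  (.nx 280 36 (.l1 .sk) (.nr 282 32769 (.lg 0 false 2 89 89 13 0 5040) (.nx 283 2582 (.lg 0 true 1
  83 83 13 0 5040) .out))))) .out) .out))) (.na 297 70 (.na 287 66 .ne (.nx 296 82572 (.nr 295
  524289 (.nr 288 66 .s1 (.nx 289 647 (.l1 (.ls 79 53 6345)) (.nr 294 262145 (.nx 290 6503 (.lg 0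
  true 1 89 89 29 0 55440) (.nr 293 65537 (.nr 291 257 (.lg 0 true 1 59 59 29 0 55440) (.nx 292
  41287 (.lg 1 false 1 73 73 29 6177 55440) .out)) .out)) .out))) .out) .out)) (.na 305 78 (.nx 304
  82572 (.nr 303 524289 (.nr 298 70 .s1 (.nx 299 647 (.l1 (.ls 71 53 5983)) (.nr 302 262145 (.lg 0
  true 3 89 89 23 0 5040) .out))) .out) .out) (.nx 314 82572 (.nr 313 524289 (.nr 306 78 .s1 (.nx
  309 6503 (.nx 307 647 (.l1 (.ls 79 53 5369)) (.nr 308 262145 (.lg 0 true 1 89 89 29 0 65520)
  .out)) (.nr 312 65537 (.nr 310 257 (.lg 0 true 1 59 59 29 0 65520) (.nx 311 41287 (.lg 1 false 1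
  73 73 29 6177 65520) .out)) .out))) .out) .out)))) (.na 340 110 (.na 331 98 (.na 323 94 (.nx 322
  82572 (.nr 321 524289 (.nr 316 90 .s1 (.nx 319 6503 (.nx 317 647 (.l1 (.ls 71 53 4654)) (.nr 318
  262145 (.lg 0 true 1 79 79 23 0 5040) .out)) (.nr 320 65537 (.lg 1 false 1 79 79 23 16056 5040)
  .out))) .out) .out) (.nx 330 82572 (.nr 329 524289 (.nr 324 94 .s1 (.nx 327 6503 (.nx 325 647
  (.l1 (.ls 73 43 4456)) (.nr 326 262145 (.lg 0 true 1 83 83 17 0 5040) .out)) (.nr 328 65537 (.lg
  1 false 1 83 83 17 15373 5040) .out))) .out) .out)) (.na 332 102 (.lg 0 false 1 0 0 16 0 24) (.nx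
  339 82572 (.nr 338 524289 (.nr 333 102 .s1 (.nx 336 6503 (.nx 334 647 (.l1 (.ls 79 53 4107)) (.nr
  335 262145 (.lg 0 true 1 83 83 29 0 5040) .out)) (.nr 337 65537 (.lg 1 false 1 83 83 29 14167
  5040) .out))) .out) .out))) (.na 357 128 (.na 348 126 (.nx 347 82572 (.nr 346 524289 (.nr 341 110
  .s1 (.nx 344 6503 (.nx 342 647 (.l1 (.ls 73 47 3808)) (.nr 343 262145 (.lg 0 true 1 79 79 23 0
  55440) .out)) (.nr 345 65537 (.lg 1 false 1 79 79 23 13137 55440) .out))) .out) .out) (.nx 356
  82572 (.nr 355 524289 (.nr 349 126 .s1 (.nx 352 36 (.nx 351 35 (.nr 350 540 (.l1 (.ls 17 23 33))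
  (.l1 .sk)) (.l1 .sk)) (.nx 353 6503 (.lg 0 true 1 79 79 29 0 5040) (.nr 354 65537 (.lg 1 false 1
  71 71 29 11469 5040) .out)))) .out) .out)) (.na 358 130 .ne (.nx 363 41287 (.nr 362 1048577 (.nr
  359 130 .s1 (.nx 360 647 (.l1 (.ls 73 47 3223)) (.nr 361 131073 (.lg 0 true 1 83 83 29 0 65520)
  .out))) .out) .out)))))) (.na 455 238 (.na 407 174 (.na 383 158 (.na 376 150 (.na 370 146 (.nx
  369 41287 (.nr 368 1048577 (.nr 365 142 .s1 (.nx 366 647 (.l1 (.ls 67 41 2950)) (.nr 367 131073
  (.lg 0 true 1 83 83 19 0 5040) .out))) .out) .out) (.nx 375 41287 (.nr 374 1048577 (.nr 371 146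
  .s1 (.nx 372 647 (.l1 (.ls 71 41 2870)) (.nr 373 131073 (.lg 0 true 1 83 83 19 0 5040) .out)))
  .out) .out)) (.na 377 154 (.lg 0 false 1 0 0 16 0 24) (.nx 382 41287 (.nr 381 1048577 (.nr 378
  154 .s1 (.nx 379 647 (.l1 (.ls 73 47 2721)) (.nr 380 131073 (.lg 0 true 1 83 83 29 0 55440)
  .out))) .out) .out))) (.na 395 166 (.na 389 162 (.nx 388 41287 (.nr 387 1048577 (.nr 384 158 .s1
  (.nx 385 647 (.l1 (.ls 71 41 2652)) (.nr 386 131073 (.lg 0 true 1 83 83 19 0 5040) .out))) .out)
  .out) (.nx 394 41287 (.nr 393 1048577 (.nr 390 162 .s1 (.nx 391 647 (.l1 (.ls 71 43 2587)) (.nr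
  392 131073 (.lg 0 true 1 79 79 23 0 5040) .out))) .out) .out)) (.na 401 170 (.nx 400 41287 (.nr
  399 1048577 (.nr 396 166 .s1 (.nx 397 647 (.l1 (.ls 71 41 2524)) (.nr 398 131073 (.lg 0 true 1 83
  83 19 0 5040) .out))) .out) .out) (.nx 406 41287 (.nr 405 1048577 (.nr 402 170 .s1 (.nx 403 647
  (.l1 (.ls 73 43 2465)) (.nr 404 131073 (.lg 0 true 1 83 83 29 0 5040) .out))) .out) .out)))) (.na
  431 206 (.na 419 194 (.na 413 182 (.nx 412 41287 (.nr 411 1048577 (.nr 408 174 .s1 (.nx 409 647
  (.l1 (.ls 79 47 2408)) (.nr 410 131073 (.lg 0 true 1 89 89 23 0 5040) .out))) .out) .out) (.nx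
  418 41287 (.nr 417 1048577 (.nr 414 182 .s1 (.nx 415 647 (.l1 (.ls 73 43 2303)) (.nr 416 131073
  (.lg 0 true 1 83 83 29 0 65520) .out))) .out) .out)) (.na 425 198 (.nx 424 41287 (.nr 423 1048577
  (.nr 420 194 .s1 (.nx 421 647 (.l1 (.ls 71 41 2160)) (.nr 422 131073 (.lg 0 true 1 79 79 19 0
  55440) .out))) .out) .out) (.nx 430 41287 (.nr 429 1048577 (.nr 426 198 .s1 (.nx 427 647 (.l1
  (.ls 79 47 2117)) (.nr 428 131073 (.lg 0 true 1 83 83 31 0 55440) .out))) .out) .out))) (.na 443
  218 (.na 437 210 (.nx 436 41287 (.nr 435 1048577 (.nr 432 206 .s1 (.nx 433 647 (.l1 (.ls 71 37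
  2035)) (.nr 434 131073 (.lg 0 true 1 73 73 23 0 5040) .out))) .out) .out) (.nx 442 41287 (.nr 441
  1048577 (.nr 438 210 .s1 (.nx 439 647 (.l1 (.ls 71 47 1996)) (.nr 440 131073 (.lg 0 true 1 73 73
  31 0 5040) .out))) .out) .out)) (.na 449 234 (.nx 448 41287 (.nr 447 1048577 (.nr 444 218 .s1
  (.nx 445 647 (.l1 (.ls 71 37 1923)) (.nr 446 131073 (.lg 0 true 1 73 73 23 0 5040) .out))) .out)
  .out) (.nx 454 41287 (.nr 453 1048577 (.nr 450 234 .s1 (.nx 451 647 (.l1 (.ls 73 43 1791)) (.nr
  452 131073 (.lg 0 true 1 83 83 37 0 65520) .out))) .out) .out))))) (.na 1533 1449 (.na 469 257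
  (.na 467 250 (.na 461 242 (.nx 460 41287 (.nr 459 1048577 (.nr 456 238 .s1 (.nx 457 647 (.l1 (.ls
  71 43 1761)) (.nr 458 131073 (.lg 0 true 1 79 79 31 0 5040) .out))) .out) .out) (.nx 466 41287
  (.nr 465 1048577 (.nr 462 242 .s1 (.nx 463 647 (.l1 (.ls 71 41 1732)) (.nr 464 131073 (.lg 0 true
  1 79 79 29 0 55440) .out))) .out) .out)) (.na 468 256 (.lg 0 false 1 0 0 16 0 24) .ne)) (.na 1015
  725 (.na 763 512 (.nx 762 41287 (.nr 761 262145 (.nr 470 257 .s1 (.nx 506 36 (.nx 505 35 (.nr 504
  2158 (.lx (.lp 31 16 129)) (.l1 .sk)) (.l1 .sk)) (.la (.lg 0 true 1 73 73 23 0)))) .out) .out)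
  (.nx 1014 41287 (.nr 1013 262145 (.nr 764 512 .s1 (.nx 799 35 (.nr 798 3055 (.lx (.lp 16 0 182))
  (.l1 .sk)) (.nx 800 36 (.l1 .sk) (.la (.lg 0 true 1 71 71 29 0))))) .out) .out)) (.na 1274 1024
  (.nx 1273 257 (.nr 1272 65537 (.nr 1016 725 .s1 (.lx (.lp 53 23 257))) .out) .out) (.nx 1532 257
  (.nr 1531 65537 (.nr 1275 1024 .s1 (.lx (.lp 47 23 363))) .out) .out)))) (.na 2569 5793 (.na 2051
  2897 (.na 1792 2048 (.nx 1791 257 (.nr 1790 16385 (.nr 1534 1449 .s1 (.lx (.lp 37 29 513))) .out)
  .out) (.nx 2050 257 (.nr 2049 32769 (.nr 1793 2048 .s1 (.lx (.lp 37 29 725))) .out) .out)) (.na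
  2310 4096 (.nx 2309 257 (.nr 2308 32769 (.nr 2052 2897 .s1 (.lx (.lp 37 31 1025))) .out) .out)
  (.nx 2568 257 (.nr 2567 32769 (.nr 2311 4096 .s1 (.lx (.lp 31 31 1449))) .out) .out))) (.na 2779
  16384 (.na 2674 8192 (.nx 2673 103 (.nr 2672 32769 (.nr 2570 5793 .s1 (.lx (.lp 16 0 2049)))
  .out) .out) (.nx 2778 103 (.nr 2777 32769 (.nr 2675 8192 .s1 (.lx (.lp 16 0 4097))) .out) .out))
  (.na 2781 32769 (.nx 2780 103 (.l1 .sk) .out) .out))))))

theorem c84 :
    OkQ ckI L10 245 98 1099511627776 0 34359738368 1 1099511627776 ∧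
    OkQ ckI L8 151 1 9 0 34359738368 1 1099511627776 ∧
    OkQ ckI L5 35 1 1099511627776 0 34359738368 1 1099511627776 := by
  refine ⟨?_, ?_, ?_⟩
  · refine fin 2520 25792 T84_0 ?_
    refine jn 5 (by decide +kernel) ?_
    refine jn 7 (by decide +kernel) ?_
    refine jn 8 (by decide +kernel) ?_
    refine jn 9 (by decide +kernel) ?_
    refine jn 11 (by decide +kernel) ?_
    refine jn 12 (by decide +kernel) ?_
    refine jn 27 (by decide +kernel) ?_
    refine jn 39 (by decide +kernel) ?_
    refine jn 54 (by decide +kernel) ?_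
    refine jn 65 (by decide +kernel) ?_
    refine jn 66 (by decide +kernel) ?_
    refine jn 67 (by decide +kernel) ?_
    refine jn 68 (by decide +kernel) ?_
    refine jn 69 (by decide +kernel) ?_
    refine jn 70 (by decide +kernel) ?_
    refine jn 72 (by decide +kernel) ?_
    refine jn 84 (by decide +kernel) ?_
    refine jn 99 (by decide +kernel) ?_
    refine jn 113 (by decide +kernel) ?_
    refine jn 117 (by decide +kernel) ?_
    refine jn 121 (by decide +kernel) ?_
    refine jn 135 (by decide +kernel) ?_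
    refine jn 146 (by decide +kernel) ?_
    refine jn 155 (by decide +kernel) ?_
    refine jn 165 (by decide +kernel) ?_
    refine jn 180 (by decide +kernel) ?_
    refine jn 194 (by decide +kernel) ?_
    refine jn 208 (by decide +kernel) ?_
    refine jn 221 (by decide +kernel) ?_
    refine jn 231 (by decide +kernel) ?_
    refine jn 245 (by decide +kernel) ?_
    refine jn 259 (by decide +kernel) ?_
    refine jn 277 (by decide +kernel) ?_
    refine jn 291 (by decide +kernel) ?_
    refine jn 304 (by decide +kernel) ?_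
    refine jn 315 (by decide +kernel) ?_
    refine jn 328 (by decide +kernel) ?_
    refine jn 342 (by decide +kernel) ?_
    refine jn 355 (by decide +kernel) ?_
    refine jn 374 (by decide +kernel) ?_
    refine jn 391 (by decide +kernel) ?_
    refine jn 403 (by decide +kernel) ?_
    refine jn 418 (by decide +kernel) ?_
    refine jn 428 (by decide +kernel) ?_
    refine jn 439 (by decide +kernel) ?_
    refine jn 454 (by decide +kernel) ?_
    refine jn 490 (by decide +kernel) ?_
    refine jn 497 (by decide +kernel) ?_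
    refine jn 506 (by decide +kernel) ?_
    refine jn 569 (by decide +kernel) ?_
    refine jn 572 (by decide +kernel) ?_
    refine jn 578 (by decide +kernel) ?_
    refine jn 581 (by decide +kernel) ?_
    refine jn 593 (by decide +kernel) ?_
    refine jn 594 (by decide +kernel) ?_
    refine jn 601 (by decide +kernel) ?_
    refine jn 605 (by decide +kernel) ?_
    refine jn 606 (by decide +kernel) ?_
    refine jn 616 (by decide +kernel) ?_
    refine jn 626 (by decide +kernel) ?_
    refine jn 633 (by decide +kernel) ?_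
    refine jn 645 (by decide +kernel) ?_
    refine jn 658 (by decide +kernel) ?_
    refine jn 675 (by decide +kernel) ?_
    refine jn 684 (by decide +kernel) ?_
    refine jn 699 (by decide +kernel) ?_
    refine jn 707 (by decide +kernel) ?_
    refine jn 711 (by decide +kernel) ?_
    refine jn 712 (by decide +kernel) ?_
    refine jn 726 (by decide +kernel) ?_
    refine jn 739 (by decide +kernel) ?_
    refine jn 764 (by decide +kernel) ?_
    refine jn 784 (by decide +kernel) ?_
    refine jn 805 (by decide +kernel) ?_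
    refine jn 813 (by decide +kernel) ?_
    refine jn 817 (by decide +kernel) ?_
    refine jn 818 (by decide +kernel) ?_
    refine jn 832 (by decide +kernel) ?_
    refine jn 845 (by decide +kernel) ?_
    refine jn 870 (by decide +kernel) ?_
    refine jn 930 (by decide +kernel) ?_
    refine jn 997 (by decide +kernel) ?_
    refine jn 1045 (by decide +kernel) ?_
    refine jn 1048 (by decide +kernel) ?_
    refine jn 1062 (by decide +kernel) ?_
    refine jn 1081 (by decide +kernel) ?_
    refine jn 1085 (by decide +kernel) ?_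
    refine jn 1093 (by decide +kernel) ?_
    refine jn 1100 (by decide +kernel) ?_
    refine jn 1122 (by decide +kernel) ?_
    refine jn 1128 (by decide +kernel) ?_
    refine jn 1142 (by decide +kernel) ?_
    refine jn 1161 (by decide +kernel) ?_
    refine jn 1169 (by decide +kernel) ?_
    refine jn 1177 (by decide +kernel) ?_
    refine jn 1194 (by decide +kernel) ?_
    refine jn 1197 (by decide +kernel) ?_
    refine jn 1211 (by decide +kernel) ?_
    refine jn 1230 (by decide +kernel) ?_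
    refine jn 1234 (by decide +kernel) ?_
    refine jn 1242 (by decide +kernel) ?_
    refine jn 1249 (by decide +kernel) ?_
    refine jn 1271 (by decide +kernel) ?_
    refine jn 1277 (by decide +kernel) ?_
    refine jn 1291 (by decide +kernel) ?_
    refine jn 1310 (by decide +kernel) ?_
    refine jn 1318 (by decide +kernel) ?_
    refine jn 1326 (by decide +kernel) ?_
    refine jn 1361 (by decide +kernel) ?_
    refine jn 1441 (by decide +kernel) ?_
    refine jn 1499 (by decide +kernel) ?_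
    refine jn 1537 (by decide +kernel) ?_
    refine jn 1573 (by decide +kernel) ?_
    refine jn 1585 (by decide +kernel) ?_
    refine jn 1596 (by decide +kernel) ?_
    refine jn 1621 (by decide +kernel) ?_
    refine jn 1649 (by decide +kernel) ?_
    refine jn 1653 (by decide +kernel) ?_
    refine jn 1656 (by decide +kernel) ?_
    refine jn 1665 (by decide +kernel) ?_
    refine jn 1682 (by decide +kernel) ?_
    refine jn 1692 (by decide +kernel) ?_
    refine jn 1708 (by decide +kernel) ?_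
    refine jn 1730 (by decide +kernel) ?_
    refine jn 1733 (by decide +kernel) ?_
    refine jn 1734 (by decide +kernel) ?_
    refine jn 1741 (by decide +kernel) ?_
    refine jn 1756 (by decide +kernel) ?_
    refine jn 1782 (by decide +kernel) ?_
    refine jn 1789 (by decide +kernel) ?_
    refine jn 1803 (by decide +kernel) ?_
    refine jn 1809 (by decide +kernel) ?_
    refine jn 1834 (by decide +kernel) ?_
    refine jn 1862 (by decide +kernel) ?_
    refine jn 1866 (by decide +kernel) ?_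
    refine jn 1870 (by decide +kernel) ?_
    refine jn 1883 (by decide +kernel) ?_
    refine jn 1901 (by decide +kernel) ?_
    refine jn 1914 (by decide +kernel) ?_
    refine jn 1927 (by decide +kernel) ?_
    refine jn 1946 (by decide +kernel) ?_
    refine jn 1947 (by decide +kernel) ?_
    refine jn 1958 (by decide +kernel) ?_
    refine jn 1981 (by decide +kernel) ?_
    refine jn 2002 (by decide +kernel) ?_
    refine jn 2047 (by decide +kernel) ?_
    refine jn 2094 (by decide +kernel) ?_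
    refine jn 2145 (by decide +kernel) ?_
    refine jn 2186 (by decide +kernel) ?_
    refine jn 2242 (by decide +kernel) ?_
    refine jn 2297 (by decide +kernel) ?_
    refine jn 2298 (by decide +kernel) ?_
    refine jn 2299 (by decide +kernel) ?_
    refine jn 2326 (by decide +kernel) ?_
    refine jn 2341 (by decide +kernel) ?_
    refine jn 2365 (by decide +kernel) ?_
    refine jn 2384 (by decide +kernel) ?_
    refine jn 2406 (by decide +kernel) ?_
    refine jn 2426 (by decide +kernel) ?_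
    refine jn 2445 (by decide +kernel) ?_
    refine jn 2446 (by decide +kernel) ?_
    refine jn 2470 (by decide +kernel) ?_
    refine jn 2492 (by decide +kernel) ?_
    refine jn 2508 (by decide +kernel) ?_
    refine jn 2544 (by decide +kernel) ?_
    refine jn 2572 (by decide +kernel) ?_
    refine jn 2596 (by decide +kernel) ?_
    refine jn 2608 (by decide +kernel) ?_
    refine jn 2657 (by decide +kernel) ?_
    refine jn 2708 (by decide +kernel) ?_
    refine jn 2773 (by decide +kernel) ?_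
    refine jn 2813 (by decide +kernel) ?_
    refine jn 2857 (by decide +kernel) ?_
    refine jn 2896 (by decide +kernel) ?_
    refine jn 2965 (by decide +kernel) ?_
    refine jn 3013 (by decide +kernel) ?_
    refine jn 3021 (by decide +kernel) ?_
    refine jn 3022 (by decide +kernel) ?_
    refine jn 3050 (by decide +kernel) ?_
    refine jn 3082 (by decide +kernel) ?_
    refine jn 3118 (by decide +kernel) ?_
    refine jn 3155 (by decide +kernel) ?_
    refine jn 3193 (by decide +kernel) ?_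
    refine jn 3210 (by decide +kernel) ?_
    refine jn 3234 (by decide +kernel) ?_
    refine jn 3255 (by decide +kernel) ?_
    refine jn 3278 (by decide +kernel) ?_
    refine jn 3315 (by decide +kernel) ?_
    refine jn 3319 (by decide +kernel) ?_
    refine jn 3347 (by decide +kernel) ?_
    refine jn 3394 (by decide +kernel) ?_
    refine jn 3406 (by decide +kernel) ?_
    refine jn 3438 (by decide +kernel) ?_
    refine jn 3466 (by decide +kernel) ?_
    refine jn 3495 (by decide +kernel) ?_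
    refine jn 3562 (by decide +kernel) ?_
    refine jn 3610 (by decide +kernel) ?_
    refine jn 3677 (by decide +kernel) ?_
    refine jn 3746 (by decide +kernel) ?_
    refine jn 3814 (by decide +kernel) ?_
    refine jn 3878 (by decide +kernel) ?_
    refine jn 3931 (by decide +kernel) ?_
    refine jn 3997 (by decide +kernel) ?_
    refine jn 4044 (by decide +kernel) ?_
    refine jn 4065 (by decide +kernel) ?_
    refine jn 4066 (by decide +kernel) ?_
    refine jn 4104 (by decide +kernel) ?_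
    refine jn 4161 (by decide +kernel) ?_
    refine jn 4197 (by decide +kernel) ?_
    refine jn 4241 (by decide +kernel) ?_
    refine jn 4293 (by decide +kernel) ?_
    refine jn 4356 (by decide +kernel) ?_
    refine jn 4405 (by decide +kernel) ?_
    refine jn 4449 (by decide +kernel) ?_
    refine jn 4494 (by decide +kernel) ?_
    refine jn 4557 (by decide +kernel) ?_
    refine jn 4596 (by decide +kernel) ?_
    refine jn 4625 (by decide +kernel) ?_
    refine jn 4662 (by decide +kernel) ?_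
    refine jn 4721 (by decide +kernel) ?_
    refine jn 4802 (by decide +kernel) ?_
    refine jn 4853 (by decide +kernel) ?_
    refine jn 4897 (by decide +kernel) ?_
    refine jn 4949 (by decide +kernel) ?_
    refine jn 5000 (by decide +kernel) ?_
    refine jn 5020 (by decide +kernel) ?_
    refine jn 5093 (by decide +kernel) ?_
    refine jn 5161 (by decide +kernel) ?_
    refine jn 5245 (by decide +kernel) ?_
    refine jn 5293 (by decide +kernel) ?_
    refine jn 5365 (by decide +kernel) ?_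
    refine jn 5441 (by decide +kernel) ?_
    refine jn 5506 (by decide +kernel) ?_
    refine jn 5530 (by decide +kernel) ?_
    refine jn 5574 (by decide +kernel) ?_
    refine jn 5650 (by decide +kernel) ?_
    refine jn 5689 (by decide +kernel) ?_
    refine jn 5730 (by decide +kernel) ?_
    refine jn 5751 (by decide +kernel) ?_
    refine jn 5789 (by decide +kernel) ?_
    refine jn 5849 (by decide +kernel) ?_
    refine jn 5850 (by decide +kernel) ?_
    refine jn 5902 (by decide +kernel) ?_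
    refine jn 5955 (by decide +kernel) ?_
    refine jn 6014 (by decide +kernel) ?_
    refine jn 6094 (by decide +kernel) ?_
    refine jn 6131 (by decide +kernel) ?_
    refine jn 6183 (by decide +kernel) ?_
    refine jn 6254 (by decide +kernel) ?_
    refine jn 6302 (by decide +kernel) ?_
    refine jn 6386 (by decide +kernel) ?_
    refine jn 6475 (by decide +kernel) ?_
    refine jn 6539 (by decide +kernel) ?_
    refine jn 6578 (by decide +kernel) ?_
    refine jn 6654 (by decide +kernel) ?_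
    refine jn 6721 (by decide +kernel) ?_
    refine jn 6802 (by decide +kernel) ?_
    refine jn 6855 (by decide +kernel) ?_
    refine jn 6922 (by decide +kernel) ?_
    refine jn 7000 (by decide +kernel) ?_
    refine jn 7095 (by decide +kernel) ?_
    refine jn 7178 (by decide +kernel) ?_
    refine jn 7266 (by decide +kernel) ?_
    refine jn 7341 (by decide +kernel) ?_
    refine jn 7421 (by decide +kernel) ?_
    refine jn 7470 (by decide +kernel) ?_
    refine jn 7556 (by decide +kernel) ?_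
    refine jn 7658 (by decide +kernel) ?_
    refine jn 7700 (by decide +kernel) ?_
    refine jn 7781 (by decide +kernel) ?_
    refine jn 7865 (by decide +kernel) ?_
    refine jn 7925 (by decide +kernel) ?_
    refine jn 8004 (by decide +kernel) ?_
    refine jn 8078 (by decide +kernel) ?_
    refine jn 8153 (by decide +kernel) ?_
    refine jn 8241 (by decide +kernel) ?_
    refine jn 8282 (by decide +kernel) ?_
    refine jn 8345 (by decide +kernel) ?_
    refine jn 8429 (by decide +kernel) ?_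
    refine jn 8510 (by decide +kernel) ?_
    refine jn 8617 (by decide +kernel) ?_
    refine jn 8697 (by decide +kernel) ?_
    refine jn 8778 (by decide +kernel) ?_
    refine jn 8865 (by decide +kernel) ?_
    refine jn 8945 (by decide +kernel) ?_
    refine jn 9024 (by decide +kernel) ?_
    refine jn 9113 (by decide +kernel) ?_
    refine jn 9200 (by decide +kernel) ?_
    refine jn 9372 (by decide +kernel) ?_
    refine jn 9720 (by decide +kernel) ?_
    refine jn 9873 (by decide +kernel) ?_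
    refine jn 9989 (by decide +kernel) ?_
    refine jn 10098 (by decide +kernel) ?_
    refine jn 10217 (by decide +kernel) ?_
    refine jn 10369 (by decide +kernel) ?_
    refine jn 10517 (by decide +kernel) ?_
    refine jn 10633 (by decide +kernel) ?_
    refine jn 10785 (by decide +kernel) ?_
    refine jn 10937 (by decide +kernel) ?_
    refine jn 11081 (by decide +kernel) ?_
    refine jn 11213 (by decide +kernel) ?_
    refine jn 11366 (by decide +kernel) ?_
    refine jn 11510 (by decide +kernel) ?_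
    refine jn 11681 (by decide +kernel) ?_
    refine jn 11801 (by decide +kernel) ?_
    refine jn 11941 (by decide +kernel) ?_
    refine jn 12058 (by decide +kernel) ?_
    refine jn 12506 (by decide +kernel) ?_
    refine jn 12689 (by decide +kernel) ?_
    refine jn 12816 (by decide +kernel) ?_
    refine jn 12990 (by decide +kernel) ?_
    refine jn 13141 (by decide +kernel) ?_
    refine jn 13305 (by decide +kernel) ?_
    refine jn 13473 (by decide +kernel) ?_
    refine jn 13649 (by decide +kernel) ?_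
    refine jn 13812 (by decide +kernel) ?_
    refine jn 13994 (by decide +kernel) ?_
    refine jn 14169 (by decide +kernel) ?_
    refine jn 14309 (by decide +kernel) ?_
    refine jn 14464 (by decide +kernel) ?_
    refine jn 14618 (by decide +kernel) ?_
    refine jn 14781 (by decide +kernel) ?_
    refine jn 14953 (by decide +kernel) ?_
    refine jn 15118 (by decide +kernel) ?_
    refine jn 15301 (by decide +kernel) ?_
    refine jn 15485 (by decide +kernel) ?_
    refine jn 15636 (by decide +kernel) ?_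
    refine jn 15810 (by decide +kernel) ?_
    refine jn 16152 (by decide +kernel) ?_
    refine jn 16398 (by decide +kernel) ?_
    refine jn 16594 (by decide +kernel) ?_
    refine jn 16734 (by decide +kernel) ?_
    refine jn 16859 (by decide +kernel) ?_
    refine jn 17003 (by decide +kernel) ?_
    refine jn 17112 (by decide +kernel) ?_
    refine jn 17211 (by decide +kernel) ?_
    refine jn 17290 (by decide +kernel) ?_
    refine jn 17374 (by decide +kernel) ?_
    refine jn 17437 (by decide +kernel) ?_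
    refine jn 17504 (by decide +kernel) ?_
    refine jn 17564 (by decide +kernel) ?_
    refine jn 17618 (by decide +kernel) ?_
    refine jn 17679 (by decide +kernel) ?_
    refine jn 17738 (by decide +kernel) ?_
    refine jn 17791 (by decide +kernel) ?_
    refine jn 17848 (by decide +kernel) ?_
    refine jn 17902 (by decide +kernel) ?_
    refine jn 18293 (by decide +kernel) ?_
    refine jn 18489 (by decide +kernel) ?_
    refine jn 18670 (by decide +kernel) ?_
    refine jn 18808 (by decide +kernel) ?_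
    refine jn 18911 (by decide +kernel) ?_
    refine jn 19006 (by decide +kernel) ?_
    refine jn 19084 (by decide +kernel) ?_
    refine jn 19166 (by decide +kernel) ?_
    refine jn 19244 (by decide +kernel) ?_
    refine jn 19304 (by decide +kernel) ?_
    refine jn 19376 (by decide +kernel) ?_
    refine jn 19445 (by decide +kernel) ?_
    refine jn 19501 (by decide +kernel) ?_
    refine jn 19551 (by decide +kernel) ?_
    refine jn 19597 (by decide +kernel) ?_
    refine jn 19647 (by decide +kernel) ?_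
    refine jn 19703 (by decide +kernel) ?_
    refine jn 19758 (by decide +kernel) ?_
    refine jn 19812 (by decide +kernel) ?_
    refine jn 19856 (by decide +kernel) ?_
    refine jn 19903 (by decide +kernel) ?_
    refine jn 19941 (by decide +kernel) ?_
    refine jn 20087 (by decide +kernel) ?_
    refine jn 20529 (by decide +kernel) ?_
    refine jn 20696 (by decide +kernel) ?_
    refine jn 20851 (by decide +kernel) ?_
    refine jn 20959 (by decide +kernel) ?_
    refine jn 21089 (by decide +kernel) ?_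
    refine jn 21206 (by decide +kernel) ?_
    refine jn 21298 (by decide +kernel) ?_
    refine jn 21397 (by decide +kernel) ?_
    refine jn 21494 (by decide +kernel) ?_
    refine jn 21579 (by decide +kernel) ?_
    refine jn 21659 (by decide +kernel) ?_
    refine jn 21727 (by decide +kernel) ?_
    refine jn 21807 (by decide +kernel) ?_
    refine jn 21885 (by decide +kernel) ?_
    refine jn 21947 (by decide +kernel) ?_
    refine jn 22007 (by decide +kernel) ?_
    refine jn 22651 (by decide +kernel) ?_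
    refine jn 22911 (by decide +kernel) ?_
    refine jn 23078 (by decide +kernel) ?_
    refine jn 23237 (by decide +kernel) ?_
    refine jn 23387 (by decide +kernel) ?_
    refine jn 23549 (by decide +kernel) ?_
    refine jn 24008 (by decide +kernel) ?_
    refine jn 24488 (by decide +kernel) ?_
    refine jn 24761 (by decide +kernel) ?_
    refine jn 24998 (by decide +kernel) ?_
    refine jn 25108 (by decide +kernel) ?_
    refine jn 25275 (by decide +kernel) ?_
    exact je (by decide +kernel)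
  · refine fin 24 880 T84_1 ?_
    refine jn 7 (by decide +kernel) ?_
    refine jn 10 (by decide +kernel) ?_
    refine jn 14 (by decide +kernel) ?_
    refine jn 20 (by decide +kernel) ?_
    refine jn 24 (by decide +kernel) ?_
    refine jn 27 (by decide +kernel) ?_
    refine jn 32 (by decide +kernel) ?_
    refine jn 35 (by decide +kernel) ?_
    refine jn 39 (by decide +kernel) ?_
    refine jn 45 (by decide +kernel) ?_
    refine jn 49 (by decide +kernel) ?_
    refine jn 52 (by decide +kernel) ?_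
    refine jn 55 (by decide +kernel) ?_
    refine jn 83 (by decide +kernel) ?_
    refine jn 90 (by decide +kernel) ?_
    refine jn 96 (by decide +kernel) ?_
    refine jn 102 (by decide +kernel) ?_
    refine jn 108 (by decide +kernel) ?_
    refine jn 115 (by decide +kernel) ?_
    refine jn 122 (by decide +kernel) ?_
    refine jn 139 (by decide +kernel) ?_
    refine jn 162 (by decide +kernel) ?_
    refine jn 175 (by decide +kernel) ?_
    refine jn 197 (by decide +kernel) ?_
    refine jn 210 (by decide +kernel) ?_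
    refine jn 234 (by decide +kernel) ?_
    refine jn 246 (by decide +kernel) ?_
    refine jn 269 (by decide +kernel) ?_
    refine jn 279 (by decide +kernel) ?_
    refine jn 290 (by decide +kernel) ?_
    refine jn 296 (by decide +kernel) ?_
    refine jn 302 (by decide +kernel) ?_
    refine jn 308 (by decide +kernel) ?_
    refine jn 314 (by decide +kernel) ?_
    refine jn 320 (by decide +kernel) ?_
    refine jn 324 (by decide +kernel) ?_
    refine jn 331 (by decide +kernel) ?_
    refine jn 338 (by decide +kernel) ?_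
    refine jn 345 (by decide +kernel) ?_
    refine jn 366 (by decide +kernel) ?_
    refine jn 387 (by decide +kernel) ?_
    refine jn 396 (by decide +kernel) ?_
    refine jn 417 (by decide +kernel) ?_
    refine jn 435 (by decide +kernel) ?_
    refine jn 460 (by decide +kernel) ?_
    refine jn 493 (by decide +kernel) ?_
    refine jn 502 (by decide +kernel) ?_
    refine jn 504 (by decide +kernel) ?_
    refine jn 505 (by decide +kernel) ?_
    refine jn 507 (by decide +kernel) ?_
    refine jn 508 (by decide +kernel) ?_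
    refine jn 510 (by decide +kernel) ?_
    refine jn 512 (by decide +kernel) ?_
    refine jn 513 (by decide +kernel) ?_
    refine jn 514 (by decide +kernel) ?_
    refine jn 516 (by decide +kernel) ?_
    refine jn 518 (by decide +kernel) ?_
    refine jn 519 (by decide +kernel) ?_
    refine jn 521 (by decide +kernel) ?_
    refine jn 527 (by decide +kernel) ?_
    refine jn 529 (by decide +kernel) ?_
    refine jn 531 (by decide +kernel) ?_
    refine jn 533 (by decide +kernel) ?_
    refine jn 535 (by decide +kernel) ?_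
    refine jn 537 (by decide +kernel) ?_
    refine jn 538 (by decide +kernel) ?_
    refine jn 545 (by decide +kernel) ?_
    refine jn 552 (by decide +kernel) ?_
    refine jn 559 (by decide +kernel) ?_
    refine jn 566 (by decide +kernel) ?_
    refine jn 573 (by decide +kernel) ?_
    refine jn 580 (by decide +kernel) ?_
    refine jn 587 (by decide +kernel) ?_
    refine jn 595 (by decide +kernel) ?_
    refine jn 602 (by decide +kernel) ?_
    refine jn 611 (by decide +kernel) ?_
    refine jn 633 (by decide +kernel) ?_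
    refine jn 661 (by decide +kernel) ?_
    refine jn 667 (by decide +kernel) ?_
    refine jn 669 (by decide +kernel) ?_
    refine jn 671 (by decide +kernel) ?_
    refine jn 673 (by decide +kernel) ?_
    refine jn 675 (by decide +kernel) ?_
    refine jn 677 (by decide +kernel) ?_
    refine jn 679 (by decide +kernel) ?_
    refine jn 681 (by decide +kernel) ?_
    refine jn 682 (by decide +kernel) ?_
    refine jn 684 (by decide +kernel) ?_
    refine jn 686 (by decide +kernel) ?_
    refine jn 695 (by decide +kernel) ?_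
    refine jn 699 (by decide +kernel) ?_
    refine jn 702 (by decide +kernel) ?_
    refine jn 705 (by decide +kernel) ?_
    refine jn 708 (by decide +kernel) ?_
    refine jn 715 (by decide +kernel) ?_
    refine jn 720 (by decide +kernel) ?_
    refine jn 727 (by decide +kernel) ?_
    refine jn 735 (by decide +kernel) ?_
    refine jn 742 (by decide +kernel) ?_
    refine jn 749 (by decide +kernel) ?_
    refine jn 757 (by decide +kernel) ?_
    refine jn 789 (by decide +kernel) ?_
    refine jn 796 (by decide +kernel) ?_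
    refine jn 797 (by decide +kernel) ?_
    refine jn 798 (by decide +kernel) ?_
    refine jn 799 (by decide +kernel) ?_
    refine jn 800 (by decide +kernel) ?_
    refine jn 801 (by decide +kernel) ?_
    refine jn 802 (by decide +kernel) ?_
    refine jn 803 (by decide +kernel) ?_
    refine jn 804 (by decide +kernel) ?_
    refine jn 805 (by decide +kernel) ?_
    refine jn 811 (by decide +kernel) ?_
    refine jn 815 (by decide +kernel) ?_
    refine jn 816 (by decide +kernel) ?_
    refine jn 817 (by decide +kernel) ?_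
    refine jn 818 (by decide +kernel) ?_
    refine jn 819 (by decide +kernel) ?_
    refine jn 820 (by decide +kernel) ?_
    refine jn 821 (by decide +kernel) ?_
    refine jn 822 (by decide +kernel) ?_
    refine jn 824 (by decide +kernel) ?_
    refine jn 826 (by decide +kernel) ?_
    refine jn 829 (by decide +kernel) ?_
    refine jn 833 (by decide +kernel) ?_
    refine jn 836 (by decide +kernel) ?_
    refine jn 839 (by decide +kernel) ?_
    refine jn 842 (by decide +kernel) ?_
    refine jn 845 (by decide +kernel) ?_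
    refine jn 851 (by decide +kernel) ?_
    refine jn 854 (by decide +kernel) ?_
    refine jn 855 (by decide +kernel) ?_
    refine jn 858 (by decide +kernel) ?_
    refine jn 861 (by decide +kernel) ?_
    refine jn 876 (by decide +kernel) ?_
    exact je (by decide +kernel)
  · refine fin 2520 2782 T84_2 ?_
    refine jn 6 (by decide +kernel) ?_
    refine jn 8 (by decide +kernel) ?_
    refine jn 9 (by decide +kernel) ?_
    refine jn 12 (by decide +kernel) ?_
    refine jn 13 (by decide +kernel) ?_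
    refine jn 15 (by decide +kernel) ?_
    refine jn 17 (by decide +kernel) ?_
    refine jn 21 (by decide +kernel) ?_
    refine jn 24 (by decide +kernel) ?_
    refine jn 27 (by decide +kernel) ?_
    refine jn 30 (by decide +kernel) ?_
    refine jn 41 (by decide +kernel) ?_
    refine jn 60 (by decide +kernel) ?_
    refine jn 66 (by decide +kernel) ?_
    refine jn 88 (by decide +kernel) ?_
    refine jn 89 (by decide +kernel) ?_
    refine jn 90 (by decide +kernel) ?_
    refine jn 91 (by decide +kernel) ?_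
    refine jn 92 (by decide +kernel) ?_
    refine jn 93 (by decide +kernel) ?_
    refine jn 94 (by decide +kernel) ?_
    refine jn 95 (by decide +kernel) ?_
    refine jn 96 (by decide +kernel) ?_
    refine jn 97 (by decide +kernel) ?_
    refine jn 98 (by decide +kernel) ?_
    refine jn 99 (by decide +kernel) ?_
    refine jn 100 (by decide +kernel) ?_
    refine jn 101 (by decide +kernel) ?_
    refine jn 105 (by decide +kernel) ?_
    refine jn 106 (by decide +kernel) ?_
    refine jn 107 (by decide +kernel) ?_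
    refine jn 108 (by decide +kernel) ?_
    refine jn 113 (by decide +kernel) ?_
    refine jn 114 (by decide +kernel) ?_
    refine jn 115 (by decide +kernel) ?_
    refine jn 116 (by decide +kernel) ?_
    refine jn 117 (by decide +kernel) ?_
    refine jn 118 (by decide +kernel) ?_
    refine jn 119 (by decide +kernel) ?_
    refine jn 130 (by decide +kernel) ?_
    refine jn 141 (by decide +kernel) ?_
    refine jn 150 (by decide +kernel) ?_
    refine jn 163 (by decide +kernel) ?_
    refine jn 172 (by decide +kernel) ?_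
    refine jn 180 (by decide +kernel) ?_
    refine jn 181 (by decide +kernel) ?_
    refine jn 182 (by decide +kernel) ?_
    refine jn 183 (by decide +kernel) ?_
    refine jn 187 (by decide +kernel) ?_
    refine jn 188 (by decide +kernel) ?_
    refine jn 189 (by decide +kernel) ?_
    refine jn 190 (by decide +kernel) ?_
    refine jn 191 (by decide +kernel) ?_
    refine jn 192 (by decide +kernel) ?_
    refine jn 193 (by decide +kernel) ?_
    refine jn 199 (by decide +kernel) ?_
    refine jn 202 (by decide +kernel) ?_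
    refine jn 207 (by decide +kernel) ?_
    refine jn 217 (by decide +kernel) ?_
    refine jn 219 (by decide +kernel) ?_
    refine jn 222 (by decide +kernel) ?_
    refine jn 231 (by decide +kernel) ?_
    refine jn 233 (by decide +kernel) ?_
    refine jn 237 (by decide +kernel) ?_
    refine jn 248 (by decide +kernel) ?_
    refine jn 250 (by decide +kernel) ?_
    refine jn 260 (by decide +kernel) ?_
    refine jn 272 (by decide +kernel) ?_
    refine jn 283 (by decide +kernel) ?_
    refine jn 289 (by decide +kernel) ?_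
    refine jn 290 (by decide +kernel) ?_
    refine jn 292 (by decide +kernel) ?_
    refine jn 306 (by decide +kernel) ?_
    refine jn 308 (by decide +kernel) ?_
    refine jn 311 (by decide +kernel) ?_
    refine jn 320 (by decide +kernel) ?_
    refine jn 328 (by decide +kernel) ?_
    refine jn 335 (by decide +kernel) ?_
    refine jn 343 (by decide +kernel) ?_
    refine jn 354 (by decide +kernel) ?_
    refine jn 367 (by decide +kernel) ?_
    refine jn 380 (by decide +kernel) ?_
    refine jn 392 (by decide +kernel) ?_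
    refine jn 405 (by decide +kernel) ?_
    refine jn 416 (by decide +kernel) ?_
    refine jn 428 (by decide +kernel) ?_
    refine jn 446 (by decide +kernel) ?_
    refine jn 458 (by decide +kernel) ?_
    refine jn 531 (by decide +kernel) ?_
    refine jn 535 (by decide +kernel) ?_
    refine jn 547 (by decide +kernel) ?_
    refine jn 555 (by decide +kernel) ?_
    refine jn 579 (by decide +kernel) ?_
    refine jn 587 (by decide +kernel) ?_
    refine jn 623 (by decide +kernel) ?_
    refine jn 631 (by decide +kernel) ?_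
    refine jn 655 (by decide +kernel) ?_
    refine jn 687 (by decide +kernel) ?_
    refine jn 695 (by decide +kernel) ?_
    refine jn 719 (by decide +kernel) ?_
    refine jn 735 (by decide +kernel) ?_
    refine jn 759 (by decide +kernel) ?_
    refine jn 810 (by decide +kernel) ?_
    refine jn 850 (by decide +kernel) ?_
    refine jn 870 (by decide +kernel) ?_
    refine jn 902 (by decide +kernel) ?_
    refine jn 918 (by decide +kernel) ?_
    refine jn 946 (by decide +kernel) ?_
    refine jn 994 (by decide +kernel) ?_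
    refine jn 1006 (by decide +kernel) ?_
    refine jn 1260 (by decide +kernel) ?_
    refine jn 1534 (by decide +kernel) ?_
    refine jn 2021 (by decide +kernel) ?_
    refine jn 2549 (by decide +kernel) ?_
    exact je (by decide +kernel)

end Pool.Agent.MP_2339ce_nt.NR
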