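import Pool.Agent.MP_2339ce_nt.Q2.NC.L6
import Pool.Agent.MP_2339ce_nt.Q2.NC.L8
import Pool.Agent.MP_2339ce_nt.Q2.NC.L10
import Pool.Agent.MP_2339ce_nt.Q2.CkI

/-! Block NR: runs. -/

set_option autoImplicit false
set_option maxRecDepth 100000

noncomputable section

namespace Pool.Agent.MP_2339ce_nt.NR

open Q2.Top

def T85_0 : Ph :=
  (.na 596 2 (.nx 595 3329023 (.nr 594 881745 (.nx 171 41287 (.nx 3 242 (.nx 2 241 (.nr 1 16 (.lg 0
  false 1 43 43 5 0 120) (.l1 .sk)) (.l1 .sk)) (.nr 94 185365 (.lg 0 false 91 103 109 16 0 720720)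
  (.nx 170 26009 (.nx 129 408 (.nr 107 311745 (.lg 0 false 13 79 79 9 0 1560) (.nx 128 324 (.lg 0
  false 21 79 79 11 0 504) .out)) (.nx 130 6501 .out (.nr 169 220437 (.lg 0 false 39 101 107 16 0
  720720) .out))) .out))) (.nr 593 155873 (.nr 291 1724 (.nx 251 1664512 (.nr 223 942 (.lg 0 true
  52 89 97 16 0 3120) (.lg 2 true 28 83 89 11 212924 1680)) (.nr 290 154 (.lg 0 true 39 83 89 16 0
  4680) .out)) (.nx 592 1321124 (.nx 343 52017 (.lg 1 false 52 101 107 16 109809 720720) (.nx 395
  65537 (.lg 1 false 52 101 107 16 87158 720720) (.nr 591 110219 (.nr 408 2898 (.lg 2 true 13 89 89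
  9 92341 1560) (.nx 590 1048577 (.nr 537 77937 (.nr 421 4872 (.lg 2 true 13 83 89 9 43601 1560)
  (.nr 484 46342 (.nr 434 8193 (.lg 2 true 13 83 89 9 25935 1560) (.nx 483 832257 (.nr 447 26009
  (.lg 2 false 13 101 103 9 12241 240240) (.lg 2 true 36 89 103 16 20642 55440)) .out)) (.nx 536
  524289 (.lg 2 true 52 101 107 16 34643 720720) .out))) (.nx 589 262145 (.lg 2 true 52 101 107 16
  48947 720720) .out)) .out)) .out))) .out)) .out)) .out) .out) (.nx 1030 3329023 (.nr 1029 1763489
  (.nx 674 26007 (.nx 599 242 (.nx 598 241 (.nr 597 30 (.lg 0 false 1 43 43 5 0 1680) (.l1 .sk))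
  (.l1 .sk)) (.nr 638 220437 (.lg 0 false 39 103 107 13 0 720720) (.nx 660 13003 (.nx 659 408 (.lg
  0 false 21 83 83 11 0 1008) .out) (.nr 673 262145 (.lg 0 false 13 101 103 9 0 720720) .out))))
  (.nr 1028 311745 (.nx 994 1321124 (.nx 713 38866 (.lg 0 false 39 101 107 13 0 720720) (.nr 766
  3446 (.nr 752 941 (.lg 0 true 39 97 101 13 0 65520) (.nx 765 1048577 (.lg 2 true 13 97 101 9
  134276 240240) .out)) (.nx 993 832257 (.nx 924 165142 (.nx 845 82572 (.nx 805 52017 (.lg 1 false
  39 101 107 13 233118 720720) (.nr 844 262145 (.lg 1 false 39 101 107 13 146489 720720) .out))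
  (.nr 923 220437 (.nx 884 116773 (.lg 1 false 39 101 107 13 77613 720720) (.lg 1 false 39 101 107
  13 54882 720720)) .out)) (.nr 992 155873 (.nr 946 55110 (.nr 933 12637 (.lg 2 true 9 97 101 9
  29103 5040) (.lg 2 false 13 97 103 9 9734 240240)) (.nx 991 330282 (.lg 2 false 45 97 107 13
  27453 720720) .out)) .out)) .out))) (.nr 1027 154 (.nx 1015 2642247 (.lg 0 true 21 83 83 11 0
  1008) (.nr 1026 9 (.lg 0 true 11 67 67 9 0 528) .out)) .out)) .out)) .out) .out))

def T85_1 : Ph :=
  (.na 681 4 (.na 276 2 (.nx 275 1321124 (.nr 274 881745 (.nx 2 159 (.nr 1 13 (.lg 0 false 1 41 41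
  5 0 1272) (.l1 .sk)) (.nx 3 160 (.l1 .sk) (.nr 251 92683 (.nx 47 17696 (.lg 0 false 44 103 109 16
  0 38198160) (.nr 250 77937 (.nr 137 2437 (.nr 125 1219 (.nx 102 660563 (.nr 91 695 (.lg 0 true 44
  89 97 16 0 27984) (.lg 2 true 11 89 89 9 75561 13992)) (.nr 124 129 (.lg 0 true 22 89 89 11 0
  27984) .out)) (.nx 136 524289 (.lg 2 true 11 101 101 9 34193 2938320) .out)) (.nx 249 416129 (.nr
  148 4097 (.lg 2 true 11 97 101 9 13575 2938320) (.nx 192 32769 (.lg 1 false 44 103 109 16 55787
  38198160) (.nr 248 55110 (.nr 203 23172 (.lg 2 false 11 103 107 9 9000 2938320) (.nx 247 262145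
  (.lg 2 false 44 101 109 16 21321 38198160) .out)) .out))) .out)) .out)) (.nx 273 257 (.lg 0 false
  22 89 89 11 0 27984) .out)))) .out) .out) (.na 494 3 (.nx 493 3329023 (.nr 492 623489 (.nx 278
  159 (.nr 277 24 (.lg 0 true 1 37 37 5 0 2544) (.l1 .sk)) (.nx 279 160 (.l1 .sk) (.nx 368 32769
  (.nr 356 131073 (.lg 0 false 77 101 109 13 0 38198160) (.nx 367 257 (.lg 0 false 11 79 79 9 0
  27984) .out)) (.nr 491 92683 (.nr 468 55110 (.nx 449 1664512 (.nx 426 832257 (.nr 390 450 (.lg 0
  true 22 89 89 11 0 27984) (.nx 425 416129 (.nr 413 27556 (.nr 401 2437 (.lg 2 true 11 97 97 9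
  73517 419760) (.nx 412 330282 (.lg 2 false 11 103 107 9 10775 38198160) .out)) (.nx 424 165142
  (.lg 2 false 11 107 107 9 21321 38198160) .out)) .out)) (.nr 448 129 (.lg 0 true 22 83 83 11 0
  27984) .out)) (.nr 467 9 (.lg 0 true 18 71 71 9 0 7632) .out)) (.nx 490 131073 (.lg 2 false 22
  103 109 11 35814 38198160) .out)) .out)))) .out) .out) (.nx 680 6658044 (.nr 679 1482912 (.nx 496
  159 (.nr 495 34 (.lg 0 true 1 41 41 5 0 267120) (.l1 .sk)) (.nx 497 160 (.l1 .sk) (.nr 658 131073
  (.nx 624 1048577 (.nx 541 27236 (.lg 0 false 44 101 107 16 0 38198160) (.nr 561 364 (.lg 0 true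
  20 89 89 16 0 267120) (.nx 623 262145 (.nx 574 39420 (.lg 1 false 13 103 107 13 60908 38198160)
  (.nx 587 57052 (.lg 1 false 13 103 107 13 42082 38198160) (.nr 598 2904 (.lg 2 true 11 97 97 7
  57255 2938320) (.nx 611 104033 (.lg 1 true 13 103 107 13 29077 38198160) (.nr 622 65537 (.lg 2
  false 11 101 103 7 7983 2938320) .out))))) .out))) (.nr 657 33 (.lg 0 true 33 79 79 7 0 41976)
  .out)) (.nx 678 257 (.lg 0 false 20 79 79 16 0 38160) .out)))) .out) .out))) (.na 999 6 (.na 875
  5 (.nx 874 13316087 (.nr 873 1246976 (.nx 684 160 (.nx 683 159 (.nr 682 43 (.lg 0 true 1 37 37 9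
  0 267120) (.l1 .sk)) (.l1 .sk)) (.nx 713 18131 (.nr 701 155873 (.nr 695 110219 (.lg 0 false 11
  103 107 13 0 2938320) (.nx 700 1627 (.lg 0 false 5 89 97 11 0 267120) .out)) (.nx 712 257 (.lg 0
  false 11 83 83 13 0 27984) .out)) (.nr 872 131073 (.nx 811 416129 (.nr 724 729 (.lg 0 true 11 89
  89 13 0 27984) (.nr 729 2909 (.lg 2 true 5 97 97 11 45381 267120) (.nx 752 36779 (.nx 741 26007
  (.nr 740 110219 (.lg 1 false 11 101 107 13 76956 38198160) .out) (.lg 1 false 11 101 107 13 63786
  38198160)) (.nx 763 52015 (.lg 1 false 11 101 109 13 45104 38198160) (.nx 774 73561 (.lg 1 false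
  11 101 109 13 31892 38198160) (.nx 785 104033 (.lg 1 true 11 101 109 13 22551 38198160) (.nr 810
  92683 (.nx 796 131073 (.lg 1 true 11 97 103 13 11281 2938320) (.nr 809 55110 (.nr 798 5810 (.lg 2
  false 2 97 97 9 11373 267120) (.lg 2 false 11 97 103 13 5695 2938320)) .out)) .out))))))) (.nr
  871 183 (.nx 822 1664512 (.lg 0 true 11 89 89 13 0 27984) (.nr 870 21 (.nx 844 6658044 (.lg 0
  true 22 79 79 11 0 27984) (.lg 0 true 26 83 83 11 0 33072)) .out)) .out)) .out))) .out) .out)
  (.nx 998 13316087 (.nr 997 1482912 (.nx 968 1664512 (.nx 956 660563 (.nx 901 26007 (.nx 877 159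
  (.nr 876 53 (.lg 0 true 1 37 37 9 0 38160) (.l1 .sk)) (.nx 878 160 (.l1 .sk) (.nr 889 110219 (.lg
  0 false 11 107 109 16 0 38198160) (.nx 900 257 (.lg 0 false 11 79 79 16 0 69960) .out)))) (.nr
  955 155873 (.nr 912 956 (.lg 0 true 11 89 89 16 0 69960) (.nx 920 41285 (.nr 919 131073 (.lg 1
  false 7 103 107 16 63786 38198160) .out) (.nr 928 8843 (.nr 924 4213 (.lg 2 true 4 97 97 13 54932
  38160) (.lg 2 true 4 89 89 13 12465 38160)) (.nx 935 58386 (.lg 1 false 7 103 107 16 47774
  38198160) (.nx 942 82572 (.lg 1 false 7 103 107 16 33782 38198160) (.nr 954 131073 (.nx 949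
  131073 (.lg 1 true 7 103 107 16 20090 38198160) (.nr 953 46342 (.lg 2 false 4 97 101 13 5939
  38160) .out)) .out)))))) .out)) (.nr 967 217 (.lg 0 true 11 83 83 16 0 69960) .out)) (.nr 996 24
  (.lg 0 true 28 79 79 16 0 89040) .out)) .out) .out)) (.na 1134 7 (.nx 1133 13316087 (.nr 1132
  623489 (.nx 1084 832257 (.nx 1001 159 (.nr 1000 62 (.lg 0 true 1 31 31 7 0 7632) (.l1 .sk)) (.nx
  1002 160 (.l1 .sk) (.nx 1003 205 (.l1 (.ls 83 43 2740)) (.nr 1083 370729 (.nx 1028 28089 (.nr
  1016 131073 (.lg 0 false 13 101 103 13 0 3472560) (.nx 1027 1627 (.lg 0 false 11 83 83 13 0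
  83952) .out)) (.nr 1082 155873 (.nr 1041 1026 (.lg 0 true 13 89 89 13 0 99216) (.nx 1081 660563
  (.nx 1053 52015 (.nr 1052 131073 (.lg 1 false 11 101 103 13 59058 2938320) .out) (.nr 1060 8201
  (.lg 2 true 7 89 89 13 51184 53424) (.nx 1073 131073 (.lg 1 true 13 101 103 13 37919 3472560)
  (.nr 1080 65537 (.lg 2 false 7 89 89 13 6404 53424) .out)))) .out)) .out)) .out)))) (.nr 1131 129
  (.nr 1119 41 (.lg 0 true 35 79 79 13 0 267120) (.nx 1130 1664512 (.lg 0 true 11 73 73 13 0 83952)
  .out)) .out)) .out) .out) (.nx 1225 13316087 (.nr 1224 262145 (.nx 1153 26007 (.nx 1136 159 (.nr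
  1135 71 (.lg 0 true 1 31 31 9 0 267120) (.l1 .sk)) (.nx 1137 160 (.l1 .sk) (.nr 1148 110219 (.lg
  0 false 11 101 103 16 0 2938320) (.nx 1152 1627 (.lg 0 false 4 89 89 13 0 17808) .out)))) (.nr
  1223 131073 (.nr 1191 626 (.nx 1164 1664512 (.lg 0 true 11 89 89 16 0 97944) (.nr 1190 47 (.lg 0
  true 26 83 83 16 0 231504) .out)) (.nx 1222 524289 (.nx 1213 131073 (.nx 1202 52015 (.lg 1 false
  11 97 103 16 63786 2938320) (.lg 1 true 11 101 107 16 31892 2938320)) (.nr 1221 77937 (.nr 1217
  5389 (.lg 2 true 4 97 97 13 66584 267120) (.lg 2 false 4 101 101 13 7735 267120)) .out)) .out))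
  .out)) .out) .out))))

def T85_2 : Ph :=
  (.na 453 128 (.na 326 42 (.na 219 14 (.na 111 6 (.na 1 2 .ne (.na 110 3 (.nx 109 3329023 (.nr 108
  623489 (.nx 4 76 (.nx 3 75 (.nr 2 17 (.lg 0 true 1 31 31 5 0 720) (.l1 .sk)) (.l1 .sk)) (.nr 96
  77937 (.nx 77 1321124 (.nx 23 6501 (.nr 15 55110 (.lg 0 true 11 97 97 9 0 7920) (.nx 22 1292 (.lg
  0 false 7 79 79 9 0 1680) .out)) (.nr 76 65537 (.nr 45 257 (.lg 0 true 22 83 83 11 0 2640) (.nx
  75 165142 (.nx 56 20644 (.lg 1 false 11 97 101 9 28388 7920) (.nr 74 46342 (.nr 63 1100 (.lg 2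
  true 7 79 79 9 24097 1680) (.lg 2 false 11 97 97 9 6324 7920)) .out)) .out)) .out)) (.nr 95 9
  (.lg 0 true 18 67 67 9 0 720) .out)) (.nx 107 205 (.lg 0 false 11 79 79 9 0 2640) .out))) .out)
  .out) .ne)) (.na 158 10 (.na 157 7 (.nx 156 1321124 (.nr 155 220437 (.nx 114 76 (.nx 113 75 (.nr
  112 43 (.lg 0 true 1 29 29 7 0 5040) (.l1 .sk)) (.l1 .sk)) (.nx 129 5160 (.nr 121 46342 (.lg 0
  false 7 83 83 13 0 5040) (.nx 128 1292 (.lg 0 false 7 83 83 13 0 5040) .out)) (.nr 154 55110 (.nr
  142 501 (.lg 0 true 13 83 83 13 0 9360) (.nx 153 416129 (.lg 2 false 11 97 101 13 31148 55440)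
  .out)) .out))) .out) .out) .ne) (.na 218 12 (.nx 217 1321124 (.nr 216 623489 (.nr 159 6 .s1 (.nx
  164 324 (.nx 163 156 (.nx 161 75 (.nr 160 74 (.l1 (.ls 17 31 565)) (.l1 .sk)) (.nx 162 76 (.l1
  .sk) (.l1 (.ls 79 41 1859)))) (.l1 (.ls 79 47 8067))) (.nr 215 220437 (.nx 171 2813 (.lg 0 false
  7 79 79 13 0 1680) (.nr 214 77937 (.nr 194 27556 (.nr 182 374 (.lg 0 true 11 73 73 13 0 2640)
  (.nx 193 165142 (.lg 2 false 11 73 73 13 27631 2640) .out)) (.nx 213 104033 (.nr 205 46342 (.lg 0
  true 11 89 97 13 0 55440) (.nx 212 26009 (.lg 0 false 7 83 89 13 0 5040) .out)) .out)) .out))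
  .out))) .out) .out) .ne))) (.na 260 26 (.na 258 18 (.na 257 16 (.nx 256 1321124 (.nr 255 623489
  (.nr 220 12 .s1 (.nx 223 76 (.nx 222 75 (.nr 221 98 (.l1 (.ls 23 31 404)) (.l1 .sk)) (.l1 .sk))
  (.nx 225 324 (.nx 224 156 (.l1 (.ls 83 41 1328)) (.l1 (.ls 83 47 5763))) (.nr 254 220437 (.nr 232
  374 (.nx 227 330282 (.lg 0 false 2 73 73 13 0 1680) (.nr 231 65 (.lg 0 true 4 67 67 13 0 1680)
  .out)) (.nx 253 165142 (.nr 235 3212 (.nx 233 2813 (.lg 0 true 1 67 67 11 0 5040) (.lg 2 false 2
  71 71 13 16559 1680)) (.nr 251 92683 (.nx 238 9557 (.lg 0 false 3 89 97 13 0 5040) (.nr 250 65537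
  (.nr 247 46342 (.nr 243 32769 (.lg 2 true 5 71 71 13 9667 1680) (.nx 246 65537 (.lg 0 true 3 89
  97 13 0 5040) .out)) (.nx 249 26009 (.lg 0 true 2 89 89 13 0 5040) .out)) .out)) (.nx 252 814
  (.lg 0 true 1 79 79 11 0 1680) .out))) .out)) .out)))) .out) .out) .ne) (.na 259 23 (.lg 0 false
  1 0 0 7 0 24) .ne)) (.na 305 32 (.na 282 30 (.nx 281 1321124 (.nr 280 1048577 (.nr 261 25 .s1
  (.nx 265 205 (.nx 263 75 (.nr 262 185 (.l1 (.ls 23 29 219)) (.l1 .sk)) (.nx 264 76 (.l1 .sk) (.l1
  (.ls 79 41 1397)))) (.nr 279 185365 (.nx 268 10323 (.lg 0 false 3 89 89 11 0 9360) (.nr 278 55110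
  (.nr 275 513 (.lg 0 true 7 73 73 19 0 21840) (.nx 277 82572 (.lg 1 false 2 89 89 11 15036 9360)
  .out)) .out)) .out))) .out) .out) (.nx 304 1321124 (.nr 303 1048577 (.nr 283 29 .s1 (.nx 284 205
  (.l1 (.ls 73 43 1403)) (.nr 302 185365 (.nx 291 16385 (.lg 0 false 7 79 79 23 0 5040) (.nr 301
  38969 (.nr 298 513 (.lg 0 true 7 67 67 23 0 5040) (.nx 300 82572 (.lg 2 true 2 71 71 19 6703 720)
  .out)) .out)) .out))) .out) .out)) (.na 306 38 .ne (.nx 325 1321124 (.nr 324 370729 (.nr 307 38
  .s1 (.nx 309 75 (.nr 308 258 (.l1 (.ls 17 29 151)) (.l1 .sk)) (.nx 310 76 (.l1 .sk) (.nr 320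
  77937 (.nx 316 82572 (.nx 313 20644 (.lg 0 true 3 79 79 13 0 720) (.nr 315 13779 (.lg 0 false 2
  83 83 13 0 240) .out)) (.nr 319 217 (.lg 0 true 3 71 71 13 0 720) .out)) (.nx 323 6503 (.lg 0
  false 3 89 89 13 0 5040) .out))))) .out) .out))))) (.na 394 78 (.na 357 62 (.na 343 50 (.na 342
  46 (.nx 341 1321124 (.nr 340 370729 (.nr 327 42 .s1 (.nx 333 8193 (.nx 329 75 (.nr 328 283 (.l1
  (.ls 19 31 136)) (.l1 .sk)) (.nx 330 76 (.l1 .sk) (.lg 0 false 3 83 83 23 0 5040))) (.nr 339
  55110 (.nr 336 217 (.lg 0 true 3 67 67 23 0 5040) (.nx 338 82572 (.lg 1 false 2 83 83 23 18946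
  5040) .out)) .out))) .out) .out) .ne) (.na 356 54 (.nx 355 1321124 (.nr 354 311745 (.nr 344 50
  .s1 (.nx 346 75 (.nr 345 332 (.l1 (.ls 29 23 115)) (.l1 .sk)) (.nx 347 76 (.l1 .sk) (.nx 349 8193
  (.lg 0 false 2 83 83 23 0 240) (.nr 353 46342 (.nr 351 217 (.lg 0 true 2 67 67 23 0 240) (.nx 352
  82572 (.lg 1 true 1 89 89 19 15936 720) .out)) .out))))) .out) .out) (.lg 0 false 1 0 0 16 0
  24))) (.na 370 70 (.na 369 64 (.nx 368 1321124 (.nr 367 311745 (.nr 358 62 .s1 (.nx 361 76 (.nx
  360 75 (.nr 359 394 (.l1 (.ls 17 19 93)) (.l1 .sk)) (.l1 .sk)) (.nx 363 10323 (.lg 0 true 2 83 83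
  17 0 240) (.nr 366 23172 (.nr 364 217 (.lg 2 false 1 71 71 13 799067 5040) (.nx 365 82572 (.lg 2
  true 1 73 73 13 14270 240) .out)) .out)))) .out) .out) .ne) (.na 382 74 (.nx 381 1321124 (.nr 380
  524289 (.nr 371 70 .s1 (.nx 376 8193 (.nx 373 75 (.nr 372 455 (.l1 (.ls 19 29 83)) (.l1 .sk))
  (.nx 374 76 (.l1 .sk) (.lg 0 false 2 79 79 23 0 1680))) (.nr 379 8193 (.nr 377 513 (.lg 0 false 1
  73 73 23 0 5040) (.nx 378 82572 (.lg 2 true 1 59 59 23 6036 5040) .out)) .out))) .out) .out) (.nx
  393 1321124 (.nr 392 524289 (.nr 383 74 .s1 (.nx 388 8193 (.nx 385 75 (.nr 384 480 (.l1 (.ls 17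
  19 79)) (.l1 .sk)) (.nx 386 76 (.l1 .sk) (.lg 0 true 2 83 83 19 0 5040))) (.nr 391 8193 (.nr 389
  513 (.lg 0 false 1 73 73 13 0 240) (.nx 390 82572 (.lg 2 true 1 59 59 13 6036 240) .out)) .out)))
  .out) .out)))) (.na 419 98 (.na 417 90 (.na 405 86 (.nx 404 1321124 (.nr 403 524289 (.nr 395 78
  .s1 (.nx 399 8193 (.nx 397 75 (.nr 396 529 (.l1 (.ls 19 29 75)) (.l1 .sk)) (.nx 398 76 (.l1 .sk)
  (.lg 0 true 1 89 89 23 0 9360))) (.nr 402 8193 (.nr 400 513 (.lg 2 false 1 71 71 23 635156 9360)
  (.nx 401 82572 (.lg 2 true 1 59 59 23 6036 9360) .out)) .out))) .out) .out) (.nx 416 1321124 (.nr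
  415 524289 (.nr 406 86 .s1 (.nx 408 75 (.nr 407 553 (.l1 (.ls 16 19 68)) (.l1 .sk)) (.nx 409 76
  (.l1 .sk) (.nx 410 8193 (.lg 0 true 1 83 83 13 0 240) (.nr 414 8193 (.nr 412 513 (.lg 0 true 2 61
  61 19 0 240) (.nx 413 82572 (.lg 2 false 1 53 53 13 6036 240) .out)) .out))))) .out) .out)) (.na
  418 91 (.lg 0 false 1 0 0 16 0 24) .ne)) (.na 441 122 (.na 430 114 (.nx 429 1321124 (.nr 428
  524289 (.nr 420 98 .s1 (.nx 423 76 (.nx 422 75 (.nr 421 701 (.l1 (.ls 19 23 60)) (.l1 .sk)) (.l1
  .sk)) (.nx 424 8193 (.lg 0 true 1 83 83 19 0 5040) (.nr 427 8193 (.nr 425 513 (.lg 2 false 1 67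
  67 19 505533 5040) (.nx 426 82572 (.lg 2 true 1 53 53 19 6036 1680) .out)) .out)))) .out) .out)
  (.nx 440 1321124 (.nr 439 524289 (.nr 431 114 .s1 (.nx 433 75 (.nr 432 750 (.l1 (.ls 17 29 52))
  (.l1 .sk)) (.nx 434 76 (.l1 .sk) (.nx 435 8193 (.lg 0 true 1 83 83 29 0 720) (.nr 438 8193 (.nr
  436 513 (.lg 2 false 1 61 61 29 434581 720) (.nx 437 82572 (.lg 2 true 1 53 53 29 6036 720)
  .out)) .out))))) .out) .out)) (.na 452 126 (.nx 451 1321124 (.nr 450 524289 (.nr 442 122 .s1 (.nx
  446 8193 (.nx 444 75 (.nr 443 775 (.l1 (.ls 17 19 49)) (.l1 .sk)) (.nx 445 76 (.l1 .sk) (.lg 0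
  true 1 83 83 19 0 240))) (.nr 449 8193 (.nr 447 513 (.lg 2 false 1 61 61 19 406084 240) (.nx 448
  82572 (.lg 2 false 1 47 47 19 6036 240) .out)) .out))) .out) .out) (.lg 0 false 1 0 0 16 0
  24)))))) (.na 562 250 (.na 505 186 (.na 478 150 (.na 462 134 (.na 454 130 .ne (.nx 461 660563
  (.nr 460 1048577 (.nr 455 130 .s1 (.nx 456 205 (.l1 (.ls 71 37 326)) (.nr 459 524289 (.nr 457
  8193 (.lg 0 false 1 83 83 29 0 65520) (.nx 458 6503 (.lg 0 true 1 79 79 29 0 65520) .out))
  .out))) .out) .out)) (.na 470 146 (.nx 469 660563 (.nr 468 1048577 (.nr 463 134 .s1 (.nx 464 205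
  (.l1 (.ls 61 29 316)) (.nr 467 524289 (.nr 465 8193 (.lg 0 false 1 79 79 19 0 240) (.nx 466 6503
  (.lg 0 true 1 79 79 19 0 240) .out)) .out))) .out) .out) (.nx 477 660563 (.nr 476 1048577 (.nr
  471 146 .s1 (.nx 472 205 (.l1 (.ls 67 29 290)) (.nr 475 524289 (.nr 473 8193 (.lg 0 false 1 83 83
  19 0 5040) (.nx 474 6503 (.lg 0 true 1 79 79 19 0 240) .out)) .out))) .out) .out))) (.na 496 162
  (.na 488 158 (.nx 487 660563 (.nr 486 1048577 (.nr 479 150 .s1 (.nx 482 6503 (.nx 480 205 (.l1
  (.ls 73 37 283)) (.nr 481 524289 (.lg 0 false 1 79 79 31 0 720) .out)) (.nr 485 8193 (.nr 483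
  1025 (.lg 0 true 1 67 67 31 0 720) (.nx 484 82572 (.lg 2 false 1 53 53 31 3577 5040) .out))
  .out))) .out) .out) (.nx 495 660563 (.nr 494 1048577 (.nr 489 158 .s1 (.nx 490 205 (.l1 (.ls 67
  29 268)) (.nr 493 524289 (.nr 491 8193 (.lg 0 false 1 79 79 19 0 240) (.nx 492 6503 (.lg 0 true 1
  79 79 19 0 5040) .out)) .out))) .out) .out)) (.na 497 182 (.lg 0 false 1 0 0 16 0 24) (.nx 504
  660563 (.nr 503 1048577 (.nr 498 182 .s1 (.nx 499 205 (.l1 (.ls 73 31 233)) (.nr 502 524289 (.nr
  500 8193 (.lg 0 false 1 83 83 31 0 65520) (.nx 501 6503 (.lg 0 false 1 79 79 31 0 21840) .out))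
  .out))) .out) .out)))) (.na 537 210 (.na 521 194 (.na 513 190 (.nx 512 660563 (.nr 511 1048577
  (.nr 506 186 .s1 (.nx 507 205 (.l1 (.ls 71 29 228)) (.nr 510 524289 (.nr 508 8193 (.lg 0 false 1
  79 79 29 0 5040) (.nx 509 6503 (.lg 0 true 1 73 73 29 0 720) .out)) .out))) .out) .out) (.nx 520
  660563 (.nr 519 1048577 (.nr 514 190 .s1 (.nx 517 6503 (.nx 515 205 (.l1 (.ls 67 31 224)) (.nr
  516 524289 (.lg 0 true 1 73 73 29 0 240) .out)) (.nr 518 8193 (.lg 0 false 1 73 73 29 0 240)
  .out))) .out) .out)) (.na 529 206 (.nx 528 660563 (.nr 527 1048577 (.nr 522 194 .s1 (.nx 523 205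
  (.l1 (.ls 61 23 219)) (.nr 526 524289 (.nr 524 8193 (.lg 0 false 1 71 71 19 0 240) (.nx 525 6503
  (.lg 0 true 1 71 71 19 0 720) .out)) .out))) .out) .out) (.nx 536 660563 (.nr 535 1048577 (.nr
  530 206 .s1 (.nx 531 205 (.l1 (.ls 67 23 207)) (.nr 534 524289 (.nr 532 8193 (.lg 0 false 1 73 73
  23 0 5040) (.nx 533 6503 (.lg 0 true 1 71 71 23 0 5040) .out)) .out))) .out) .out))) (.na 553 222
  (.na 545 218 (.nx 544 660563 (.nr 543 1048577 (.nr 538 210 .s1 (.nx 539 205 (.l1 (.ls 67 37 203))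
  (.nr 542 524289 (.nr 540 8193 (.lg 0 false 1 73 73 31 0 5040) (.nx 541 6503 (.lg 0 true 1 71 71
  31 0 5040) .out)) .out))) .out) .out) (.nx 552 660563 (.nr 551 1048577 (.nr 546 218 .s1 (.nx 547
  205 (.l1 (.ls 61 23 195)) (.nr 550 524289 (.nr 548 8193 (.lg 0 false 1 71 71 23 0 240) (.nx 549
  6503 (.lg 0 true 1 67 67 23 0 240) .out)) .out))) .out) .out)) (.na 561 234 (.nx 560 660563 (.nr
  559 1048577 (.nr 554 222 .s1 (.nx 555 205 (.l1 (.ls 67 31 192)) (.nr 558 524289 (.nr 556 8193
  (.lg 0 false 1 73 73 29 0 720) (.nx 557 6503 (.lg 0 true 1 73 73 29 0 720) .out)) .out))) .out)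
  .out) (.lg 0 false 1 0 0 16 0 24))))) (.na 2924 2048 (.na 1086 512 (.na 571 256 (.na 563 254 (.lg
  0 false 1 0 0 16 0 24) (.nx 570 660563 (.nr 569 1048577 (.nr 564 254 .s1 (.nx 565 205 (.l1 (.ls
  61 23 168)) (.nr 568 524289 (.nr 566 8193 (.lg 0 false 1 71 71 23 0 720) (.nx 567 6503 (.lg 0
  true 1 67 67 23 0 720) .out)) .out))) .out) .out)) (.na 572 257 .ne (.nx 1085 82572 (.nr 1084
  1048577 (.nr 573 257 .s1 (.nx 828 647 (.la (.ls 83 29 1631)) (.nr 1083 262145 (.la (.lg 0 true 1
  73 73 23 0)) .out))) .out) .out))) (.na 1818 1024 (.na 1516 725 (.nx 1515 82572 (.nr 1514 1048577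
  (.nr 1087 512 .s1 (.nx 1300 647 (.la (.ls 73 29 820)) (.nr 1513 262145 (.la (.lg 0 false 1 71 71
  23 0)) .out))) .out) .out) (.nx 1817 3252 (.nr 1816 262145 (.nr 1517 725 .s1 (.la (.ls 59 43
  14589))) .out) .out)) (.na 2246 1449 (.nx 2245 3252 (.nr 2244 262145 (.nr 1819 1024 .s1 (.la (.ls
  73 41 10330))) .out) .out) (.nx 2923 1627 (.nr 2922 131073 (.nr 2247 1449 .s1 (.nx 2322 75 (.nr
  2321 12584 (.lx (.lp 16 0 513)) (.l1 .sk)) (.nx 2323 76 (.l1 .sk) (.la (.ls 53 31 1825))))) .out)
  .out)))) (.na 5799 16384 (.na 4501 4096 (.na 3852 2897 (.nx 3851 1627 (.nr 3850 131073 (.nr 2925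
  2048 .s1 (.nx 3000 75 (.nr 2999 17800 (.lx (.lp 16 0 725)) (.l1 .sk)) (.nx 3001 76 (.l1 .sk) (.la
  (.ls 47 31 1292))))) .out) .out) (.nx 4500 647 (.nr 4499 65537 (.nr 3853 2897 .s1 (.lx (.lp 43 31
  1025))) .out) .out)) (.na 5150 8192 (.nx 5149 647 (.nr 5148 65537 (.nr 4502 4096 .s1 (.lx (.lp 41
  37 2049))) .out) .out) (.nx 5798 647 (.nr 5797 65537 (.nr 5151 8192 .s1 (.lx (.lp 37 41 4097)))
  .out) .out))) (.na 6774 65536 (.na 6448 32768 (.nx 6447 647 (.nr 6446 131073 (.nr 5800 16384 .s1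
  (.lx (.lp 43 43 8193))) .out) .out) (.nx 6773 324 (.nr 6772 131073 (.nr 6449 32768 .s1 (.lx (.lp
  16 0 16385))) .out) .out)) (.na 7100 131073 (.nx 7099 324 (.nr 7098 262145 (.nr 6775 65536 .s1
  (.lx (.lp 16 0 32769))) .out) .out) .out))))))

theorem c85 :
    OkQ ckI L10 241 1 3 0 34359738368 1 1099511627776 ∧
    OkQ ckI L8 159 1 8 0 34359738368 1 1099511627776 ∧
    OkQ ckI L6 75 1 1099511627776 0 34359738368 1 1099511627776 := by
  refine ⟨?_, ?_, ?_⟩
  · refine fin 24 1031 T85_0 ?_
    refine jn 9 (by decide +kernel) ?_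
    refine jn 14 (by decide +kernel) ?_
    refine jn 21 (by decide +kernel) ?_
    refine jn 26 (by decide +kernel) ?_
    refine jn 31 (by decide +kernel) ?_
    refine jn 35 (by decide +kernel) ?_
    refine jn 40 (by decide +kernel) ?_
    refine jn 46 (by decide +kernel) ?_
    refine jn 49 (by decide +kernel) ?_
    refine jn 54 (by decide +kernel) ?_
    refine jn 60 (by decide +kernel) ?_
    refine jn 63 (by decide +kernel) ?_
    refine jn 69 (by decide +kernel) ?_
    refine jn 74 (by decide +kernel) ?_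
    refine jn 79 (by decide +kernel) ?_
    refine jn 84 (by decide +kernel) ?_
    refine jn 89 (by decide +kernel) ?_
    refine jn 94 (by decide +kernel) ?_
    refine jn 128 (by decide +kernel) ?_
    refine jn 156 (by decide +kernel) ?_
    refine jn 169 (by decide +kernel) ?_
    refine jn 181 (by decide +kernel) ?_
    refine jn 192 (by decide +kernel) ?_
    refine jn 203 (by decide +kernel) ?_
    refine jn 214 (by decide +kernel) ?_
    refine jn 223 (by decide +kernel) ?_
    refine jn 251 (by decide +kernel) ?_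
    refine jn 284 (by decide +kernel) ?_
    refine jn 291 (by decide +kernel) ?_
    refine jn 312 (by decide +kernel) ?_
    refine jn 335 (by decide +kernel) ?_
    refine jn 343 (by decide +kernel) ?_
    refine jn 364 (by decide +kernel) ?_
    refine jn 387 (by decide +kernel) ?_
    refine jn 408 (by decide +kernel) ?_
    refine jn 421 (by decide +kernel) ?_
    refine jn 434 (by decide +kernel) ?_
    refine jn 447 (by decide +kernel) ?_
    refine jn 472 (by decide +kernel) ?_
    refine jn 483 (by decide +kernel) ?_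
    refine jn 506 (by decide +kernel) ?_
    refine jn 528 (by decide +kernel) ?_
    refine jn 537 (by decide +kernel) ?_
    refine jn 553 (by decide +kernel) ?_
    refine jn 569 (by decide +kernel) ?_
    refine jn 585 (by decide +kernel) ?_
    refine jn 599 (by decide +kernel) ?_
    refine jn 605 (by decide +kernel) ?_
    refine jn 612 (by decide +kernel) ?_
    refine jn 619 (by decide +kernel) ?_
    refine jn 626 (by decide +kernel) ?_
    refine jn 632 (by decide +kernel) ?_
    refine jn 638 (by decide +kernel) ?_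
    refine jn 659 (by decide +kernel) ?_
    refine jn 682 (by decide +kernel) ?_
    refine jn 698 (by decide +kernel) ?_
    refine jn 713 (by decide +kernel) ?_
    refine jn 727 (by decide +kernel) ?_
    refine jn 741 (by decide +kernel) ?_
    refine jn 752 (by decide +kernel) ?_
    refine jn 765 (by decide +kernel) ?_
    refine jn 787 (by decide +kernel) ?_
    refine jn 805 (by decide +kernel) ?_
    refine jn 819 (by decide +kernel) ?_
    refine jn 834 (by decide +kernel) ?_
    refine jn 844 (by decide +kernel) ?_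
    refine jn 869 (by decide +kernel) ?_
    refine jn 884 (by decide +kernel) ?_
    refine jn 907 (by decide +kernel) ?_
    refine jn 923 (by decide +kernel) ?_
    refine jn 946 (by decide +kernel) ?_
    refine jn 967 (by decide +kernel) ?_
    refine jn 989 (by decide +kernel) ?_
    refine jn 1015 (by decide +kernel) ?_
    exact je (by decide +kernel)
  · refine fin 1272 1226 T85_1 ?_
    refine jn 8 (by decide +kernel) ?_
    refine jn 10 (by decide +kernel) ?_
    refine jn 14 (by decide +kernel) ?_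
    refine jn 18 (by decide +kernel) ?_
    refine jn 20 (by decide +kernel) ?_
    refine jn 24 (by decide +kernel) ?_
    refine jn 29 (by decide +kernel) ?_
    refine jn 31 (by decide +kernel) ?_
    refine jn 35 (by decide +kernel) ?_
    refine jn 40 (by decide +kernel) ?_
    refine jn 42 (by decide +kernel) ?_
    refine jn 46 (by decide +kernel) ?_
    refine jn 51 (by decide +kernel) ?_
    refine jn 58 (by decide +kernel) ?_
    refine jn 64 (by decide +kernel) ?_
    refine jn 70 (by decide +kernel) ?_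
    refine jn 76 (by decide +kernel) ?_
    refine jn 83 (by decide +kernel) ?_
    refine jn 90 (by decide +kernel) ?_
    refine jn 102 (by decide +kernel) ?_
    refine jn 121 (by decide +kernel) ?_
    refine jn 136 (by decide +kernel) ?_
    refine jn 148 (by decide +kernel) ?_
    refine jn 175 (by decide +kernel) ?_
    refine jn 192 (by decide +kernel) ?_
    refine jn 203 (by decide +kernel) ?_
    refine jn 226 (by decide +kernel) ?_
    refine jn 247 (by decide +kernel) ?_
    refine jn 273 (by decide +kernel) ?_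
    refine jn 287 (by decide +kernel) ?_
    refine jn 295 (by decide +kernel) ?_
    refine jn 303 (by decide +kernel) ?_
    refine jn 311 (by decide +kernel) ?_
    refine jn 320 (by decide +kernel) ?_
    refine jn 328 (by decide +kernel) ?_
    refine jn 336 (by decide +kernel) ?_
    refine jn 345 (by decide +kernel) ?_
    refine jn 353 (by decide +kernel) ?_
    refine jn 367 (by decide +kernel) ?_
    refine jn 376 (by decide +kernel) ?_
    refine jn 385 (by decide +kernel) ?_
    refine jn 390 (by decide +kernel) ?_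
    refine jn 401 (by decide +kernel) ?_
    refine jn 412 (by decide +kernel) ?_
    refine jn 426 (by decide +kernel) ?_
    refine jn 448 (by decide +kernel) ?_
    refine jn 468 (by decide +kernel) ?_
    refine jn 490 (by decide +kernel) ?_
    refine jn 506 (by decide +kernel) ?_
    refine jn 514 (by decide +kernel) ?_
    refine jn 523 (by decide +kernel) ?_
    refine jn 532 (by decide +kernel) ?_
    refine jn 540 (by decide +kernel) ?_
    refine jn 549 (by decide +kernel) ?_
    refine jn 560 (by decide +kernel) ?_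
    refine jn 574 (by decide +kernel) ?_
    refine jn 587 (by decide +kernel) ?_
    refine jn 611 (by decide +kernel) ?_
    refine jn 657 (by decide +kernel) ?_
    refine jn 678 (by decide +kernel) ?_
    refine jn 684 (by decide +kernel) ?_
    refine jn 685 (by decide +kernel) ?_
    refine jn 686 (by decide +kernel) ?_
    refine jn 688 (by decide +kernel) ?_
    refine jn 689 (by decide +kernel) ?_
    refine jn 690 (by decide +kernel) ?_
    refine jn 691 (by decide +kernel) ?_
    refine jn 693 (by decide +kernel) ?_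
    refine jn 694 (by decide +kernel) ?_
    refine jn 695 (by decide +kernel) ?_
    refine jn 712 (by decide +kernel) ?_
    refine jn 715 (by decide +kernel) ?_
    refine jn 717 (by decide +kernel) ?_
    refine jn 719 (by decide +kernel) ?_
    refine jn 721 (by decide +kernel) ?_
    refine jn 723 (by decide +kernel) ?_
    refine jn 724 (by decide +kernel) ?_
    refine jn 729 (by decide +kernel) ?_
    refine jn 740 (by decide +kernel) ?_
    refine jn 752 (by decide +kernel) ?_
    refine jn 763 (by decide +kernel) ?_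
    refine jn 774 (by decide +kernel) ?_
    refine jn 785 (by decide +kernel) ?_
    refine jn 796 (by decide +kernel) ?_
    refine jn 798 (by decide +kernel) ?_
    refine jn 809 (by decide +kernel) ?_
    refine jn 818 (by decide +kernel) ?_
    refine jn 822 (by decide +kernel) ?_
    refine jn 844 (by decide +kernel) ?_
    refine jn 870 (by decide +kernel) ?_
    refine jn 878 (by decide +kernel) ?_
    refine jn 879 (by decide +kernel) ?_
    refine jn 880 (by decide +kernel) ?_
    refine jn 881 (by decide +kernel) ?_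
    refine jn 882 (by decide +kernel) ?_
    refine jn 884 (by decide +kernel) ?_
    refine jn 885 (by decide +kernel) ?_
    refine jn 886 (by decide +kernel) ?_
    refine jn 887 (by decide +kernel) ?_
    refine jn 888 (by decide +kernel) ?_
    refine jn 889 (by decide +kernel) ?_
    refine jn 900 (by decide +kernel) ?_
    refine jn 904 (by decide +kernel) ?_
    refine jn 906 (by decide +kernel) ?_
    refine jn 909 (by decide +kernel) ?_
    refine jn 912 (by decide +kernel) ?_
    refine jn 919 (by decide +kernel) ?_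
    refine jn 924 (by decide +kernel) ?_
    refine jn 935 (by decide +kernel) ?_
    refine jn 942 (by decide +kernel) ?_
    refine jn 949 (by decide +kernel) ?_
    refine jn 961 (by decide +kernel) ?_
    refine jn 967 (by decide +kernel) ?_
    refine jn 996 (by decide +kernel) ?_
    refine jn 1010 (by decide +kernel) ?_
    refine jn 1016 (by decide +kernel) ?_
    refine jn 1028 (by decide +kernel) ?_
    refine jn 1041 (by decide +kernel) ?_
    refine jn 1060 (by decide +kernel) ?_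
    refine jn 1080 (by decide +kernel) ?_
    refine jn 1119 (by decide +kernel) ?_
    refine jn 1137 (by decide +kernel) ?_
    refine jn 1139 (by decide +kernel) ?_
    refine jn 1141 (by decide +kernel) ?_
    refine jn 1143 (by decide +kernel) ?_
    refine jn 1145 (by decide +kernel) ?_
    refine jn 1147 (by decide +kernel) ?_
    refine jn 1152 (by decide +kernel) ?_
    refine jn 1157 (by decide +kernel) ?_
    refine jn 1162 (by decide +kernel) ?_
    refine jn 1164 (by decide +kernel) ?_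
    refine jn 1190 (by decide +kernel) ?_
    refine jn 1202 (by decide +kernel) ?_
    refine jn 1213 (by decide +kernel) ?_
    refine jn 1217 (by decide +kernel) ?_
    exact je (by decide +kernel)
  · refine fin 120 7101 T85_2 ?_
    refine jn 4 (by decide +kernel) ?_
    refine jn 6 (by decide +kernel) ?_
    refine jn 8 (by decide +kernel) ?_
    refine jn 10 (by decide +kernel) ?_
    refine jn 12 (by decide +kernel) ?_
    refine jn 14 (by decide +kernel) ?_
    refine jn 22 (by decide +kernel) ?_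
    refine jn 30 (by decide +kernel) ?_
    refine jn 37 (by decide +kernel) ?_
    refine jn 45 (by decide +kernel) ?_
    refine jn 56 (by decide +kernel) ?_
    refine jn 63 (by decide +kernel) ?_
    refine jn 74 (by decide +kernel) ?_
    refine jn 95 (by decide +kernel) ?_
    refine jn 114 (by decide +kernel) ?_
    refine jn 119 (by decide +kernel) ?_
    refine jn 128 (by decide +kernel) ?_
    refine jn 140 (by decide +kernel) ?_
    refine jn 153 (by decide +kernel) ?_
    refine jn 164 (by decide +kernel) ?_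
    refine jn 171 (by decide +kernel) ?_
    refine jn 182 (by decide +kernel) ?_
    refine jn 183 (by decide +kernel) ?_
    refine jn 184 (by decide +kernel) ?_
    refine jn 185 (by decide +kernel) ?_
    refine jn 186 (by decide +kernel) ?_
    refine jn 187 (by decide +kernel) ?_
    refine jn 188 (by decide +kernel) ?_
    refine jn 189 (by decide +kernel) ?_
    refine jn 190 (by decide +kernel) ?_
    refine jn 191 (by decide +kernel) ?_
    refine jn 192 (by decide +kernel) ?_
    refine jn 193 (by decide +kernel) ?_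
    refine jn 212 (by decide +kernel) ?_
    refine jn 224 (by decide +kernel) ?_
    refine jn 225 (by decide +kernel) ?_
    refine jn 226 (by decide +kernel) ?_
    refine jn 227 (by decide +kernel) ?_
    refine jn 232 (by decide +kernel) ?_
    refine jn 233 (by decide +kernel) ?_
    refine jn 234 (by decide +kernel) ?_
    refine jn 235 (by decide +kernel) ?_
    refine jn 238 (by decide +kernel) ?_
    refine jn 239 (by decide +kernel) ?_
    refine jn 240 (by decide +kernel) ?_
    refine jn 241 (by decide +kernel) ?_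
    refine jn 242 (by decide +kernel) ?_
    refine jn 243 (by decide +kernel) ?_
    refine jn 252 (by decide +kernel) ?_
    refine jn 268 (by decide +kernel) ?_
    refine jn 275 (by decide +kernel) ?_
    refine jn 291 (by decide +kernel) ?_
    refine jn 310 (by decide +kernel) ?_
    refine jn 311 (by decide +kernel) ?_
    refine jn 312 (by decide +kernel) ?_
    refine jn 313 (by decide +kernel) ?_
    refine jn 319 (by decide +kernel) ?_
    refine jn 333 (by decide +kernel) ?_
    refine jn 338 (by decide +kernel) ?_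
    refine jn 347 (by decide +kernel) ?_
    refine jn 348 (by decide +kernel) ?_
    refine jn 349 (by decide +kernel) ?_
    refine jn 350 (by decide +kernel) ?_
    refine jn 351 (by decide +kernel) ?_
    refine jn 352 (by decide +kernel) ?_
    refine jn 364 (by decide +kernel) ?_
    refine jn 377 (by decide +kernel) ?_
    refine jn 389 (by decide +kernel) ?_
    refine jn 400 (by decide +kernel) ?_
    refine jn 412 (by decide +kernel) ?_
    refine jn 425 (by decide +kernel) ?_
    refine jn 437 (by decide +kernel) ?_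
    refine jn 448 (by decide +kernel) ?_
    refine jn 465 (by decide +kernel) ?_
    refine jn 474 (by decide +kernel) ?_
    refine jn 483 (by decide +kernel) ?_
    refine jn 492 (by decide +kernel) ?_
    refine jn 501 (by decide +kernel) ?_
    refine jn 516 (by decide +kernel) ?_
    refine jn 525 (by decide +kernel) ?_
    refine jn 541 (by decide +kernel) ?_
    refine jn 557 (by decide +kernel) ?_
    refine jn 594 (by decide +kernel) ?_
    refine jn 666 (by decide +kernel) ?_
    refine jn 718 (by decide +kernel) ?_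
    refine jn 828 (by decide +kernel) ?_
    refine jn 849 (by decide +kernel) ?_
    refine jn 881 (by decide +kernel) ?_
    refine jn 909 (by decide +kernel) ?_
    refine jn 921 (by decide +kernel) ?_
    refine jn 922 (by decide +kernel) ?_
    refine jn 957 (by decide +kernel) ?_
    refine jn 973 (by decide +kernel) ?_
    refine jn 1005 (by decide +kernel) ?_
    refine jn 1029 (by decide +kernel) ?_
    refine jn 1061 (by decide +kernel) ?_
    refine jn 1121 (by decide +kernel) ?_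
    refine jn 1225 (by decide +kernel) ?_
    refine jn 1306 (by decide +kernel) ?_
    refine jn 1334 (by decide +kernel) ?_
    refine jn 1358 (by decide +kernel) ?_
    refine jn 1398 (by decide +kernel) ?_
    refine jn 1418 (by decide +kernel) ?_
    refine jn 1438 (by decide +kernel) ?_
    refine jn 1439 (by decide +kernel) ?_
    refine jn 1474 (by decide +kernel) ?_
    refine jn 1526 (by decide +kernel) ?_
    refine jn 1598 (by decide +kernel) ?_
    refine jn 1702 (by decide +kernel) ?_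
    refine jn 1742 (by decide +kernel) ?_
    refine jn 1814 (by decide +kernel) ?_
    refine jn 1889 (by decide +kernel) ?_
    refine jn 1989 (by decide +kernel) ?_
    refine jn 2097 (by decide +kernel) ?_
    refine jn 2201 (by decide +kernel) ?_
    refine jn 2384 (by decide +kernel) ?_
    refine jn 2528 (by decide +kernel) ?_
    refine jn 2716 (by decide +kernel) ?_
    refine jn 2860 (by decide +kernel) ?_
    refine jn 3079 (by decide +kernel) ?_
    refine jn 3239 (by decide +kernel) ?_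
    refine jn 3411 (by decide +kernel) ?_
    refine jn 3599 (by decide +kernel) ?_
    refine jn 3783 (by decide +kernel) ?_
    refine jn 4148 (by decide +kernel) ?_
    refine jn 4365 (by decide +kernel) ?_
    refine jn 4484 (by decide +kernel) ?_
    refine jn 4835 (by decide +kernel) ?_
    refine jn 4998 (by decide +kernel) ?_
    refine jn 5102 (by decide +kernel) ?_
    refine jn 5468 (by decide +kernel) ?_
    refine jn 5687 (by decide +kernel) ?_
    refine jn 6070 (by decide +kernel) ?_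
    refine jn 6348 (by decide +kernel) ?_
    refine jn 6775 (by decide +kernel) ?_
    exact je (by decide +kernel)

end Pool.Agent.MP_2339ce_nt.NR
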