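import Pool.Agent.MP_2339ce_nt.Q2.NC.L8
import Pool.Agent.MP_2339ce_nt.Q2.NC.L10
import Pool.Agent.MP_2339ce_nt.Q2.CkI

/-! Block NR: runs. -/

set_option autoImplicit false
set_option maxRecDepth 100000

noncomputable section

namespace Pool.Agent.MP_2339ce_nt.NR

open Q2.Top

def T9_0 : Ph :=
  (.na 614 2 (.nx 613 3329023 (.nr 612 881745 (.nx 3 253 (.nx 2 252 (.nr 1 16 (.lg 0 false 1 47 47
  5 0 2520) (.l1 .sk)) (.l1 .sk)) (.nx 219 52017 (.nr 202 311745 (.nr 146 185365 (.lg 0 false 143
  101 109 16 0 720720) (.nx 201 26009 (.nx 159 408 (.lg 0 false 13 83 83 9 0 32760) (.nx 160 6501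
  .out (.nr 200 220437 (.nx 173 10323 (.lg 0 false 13 97 101 9 0 32760) (.nx 174 13003 .out (.lg 0
  false 26 101 107 11 0 720720))) .out))) .out)) (.nx 218 324 (.lg 0 false 16 83 83 9 0 1008)
  .out)) (.nr 611 155873 (.nx 571 1664512 (.nr 300 942 (.nr 274 515 (.lg 0 true 55 89 101 16 0
  27720) (.lg 2 true 26 97 97 11 407240 65520)) (.nx 355 65537 (.lg 1 false 55 101 107 16 95303
  720720) (.nr 570 110219 (.nr 377 1724 (.lg 2 true 22 97 101 11 222642 55440) (.nx 569 1321124
  (.nr 513 77937 (.nr 457 46342 (.nr 390 2898 (.lg 2 true 13 97 97 9 96556 32760) (.nx 456 1048577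
  (.nr 403 4872 (.lg 2 true 13 97 101 9 45591 32760) (.nr 416 8193 (.lg 2 true 13 97 101 9 27119
  32760) (.nx 455 832257 (.nr 429 26009 (.lg 2 false 13 103 107 9 12800 720720) (.lg 2 true 26 101
  107 11 22575 720720)) .out))) .out)) (.nx 512 524289 (.lg 2 true 55 101 107 16 37883 720720)
  .out)) (.nx 568 262145 (.lg 2 true 55 101 107 16 53523 720720) .out)) .out)) .out))) (.nr 610 154
  (.lg 0 true 39 83 89 16 0 32760) .out)) .out))) .out) .out) (.na 1071 3 (.nx 1070 3329023 (.nr
  1069 1763489 (.nx 617 253 (.nx 616 252 (.nr 615 30 (.lg 0 false 1 43 43 5 0 1008) (.l1 .sk)) (.l1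
  .sk)) (.nx 703 26007 (.nr 682 262145 (.lg 0 false 65 101 107 13 0 720720) (.nx 702 408 (.lg 0
  false 20 83 83 11 0 5040) .out)) (.nr 1068 311745 (.nx 1036 1321124 (.nx 768 52017 (.lg 0 false
  65 101 107 13 0 720720) (.nr 1035 262145 (.nr 837 3446 (.nr 823 941 (.lg 0 true 55 89 97 13 0
  55440) (.nx 836 1048577 (.lg 2 true 13 97 101 9 140405 13104) .out)) (.nx 1034 832257 (.nx 902
  82572 (.lg 1 false 65 97 107 13 160173 720720) (.nr 1033 220437 (.nx 967 165142 (.lg 1 false 65
  101 107 13 84864 720720) (.nr 1032 155873 (.lg 2 false 65 97 107 13 30431 720720) .out)) .out))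
  .out)) .out)) (.nr 1067 154 (.nx 1056 2642247 (.lg 0 true 20 83 83 11 0 5040) (.nr 1066 9 (.lg 0
  true 10 71 71 9 0 5040) .out)) .out)) .out))) .out) .out) (.nx 1444 6658044 (.nr 1443 1482912
  (.nx 1074 253 (.nx 1073 252 (.nr 1072 43 (.lg 0 true 1 37 37 5 0 504) (.l1 .sk)) (.l1 .sk)) (.nx
  1402 1664512 (.nx 1386 832257 (.nx 1156 44590 (.nr 1129 262145 (.lg 0 false 55 101 107 16 0
  720720) (.nx 1144 408 (.lg 0 false 15 73 73 16 0 2520) (.nx 1145 32768 .out (.nr 1155 311745 (.lg
  0 false 10 97 97 7 0 5040) .out)))) (.nr 1385 311745 (.nr 1182 2898 (.nr 1171 668 (.lg 0 true 15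
  83 83 16 0 2520) (.lg 2 true 11 83 89 7 156983 5544)) (.nx 1384 660563 (.nr 1193 10626 (.lg 2
  true 11 83 89 7 28721 5544) (.nx 1304 165142 (.nx 1248 82572 (.lg 1 false 55 97 107 16 222172
  720720) (.nr 1303 262145 (.lg 1 false 55 97 107 16 100903 720720) .out)) (.nr 1383 220437 (.nx
  1359 262145 (.lg 1 true 55 89 103 16 42433 55440) (.nr 1382 110219 (.nr 1370 77937 (.lg 2 false
  11 89 97 7 9471 5544) (.nx 1381 330282 (.lg 2 false 11 89 97 7 13381 5544) .out)) .out)) .out)))
  .out)) .out)) (.nr 1401 154 (.lg 0 true 15 73 73 16 0 2520) .out)) (.nr 1442 33 (.lg 0 true 40 73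
  73 7 0 5040) .out))) .out) .out)))

def T9_1 : Ph :=
  (.na 1010 163 (.na 793 67 (.na 639 31 (.na 524 12 (.na 285 4 (.na 284 2 (.nx 283 1321124 (.nr 282
  881745 (.nx 3 173 (.nx 2 172 (.nr 1 14 (.lg 0 false 1 47 47 5 0 1032) (.l1 .sk)) (.l1 .sk)) (.nr
  237 77937 (.nx 215 660563 (.nx 42 22017 (.lg 0 false 39 107 109 16 0 30990960) (.nr 108 2437 (.nr
  81 695 (.lg 0 true 39 97 101 16 0 2213640) (.nr 94 1219 (.lg 2 true 13 89 89 9 81739 13416) (.nx
  107 524289 (.lg 2 true 13 97 101 9 36989 5165160) .out))) (.nx 214 416129 (.nx 147 32769 (.lg 1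
  false 39 103 109 16 52479 30990960) (.nr 213 55110 (.nr 186 38969 (.nr 169 23172 (.nr 156 4097
  (.lg 2 true 9 97 97 9 14685 1191960) (.lg 2 false 13 107 109 9 10538 30990960)) (.nx 185 262145
  (.lg 2 true 16 107 109 9 17669 30990960) .out)) (.nx 212 104033 (.lg 2 true 26 103 109 11 24955
  30990960) .out)) .out)) .out))) (.nr 236 129 (.lg 0 true 21 89 89 11 0 21672) .out)) (.nx 281
  13005 (.nx 259 2580 (.nx 258 257 (.lg 0 false 21 83 83 11 0 21672) .out) (.nr 280 92683 (.lg 0
  false 21 101 107 11 0 30990960) .out)) .out))) .out) .out) .ne) (.na 472 5 (.nx 471 13316087 (.nr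
  470 1246976 (.nx 325 26007 (.nx 287 172 (.nr 286 45 (.lg 0 true 1 31 31 9 0 10320) (.l1 .sk))
  (.nx 288 173 (.l1 .sk) (.nr 309 110219 (.lg 0 false 21 103 107 13 0 30990960) (.nx 324 1627 (.nr
  316 155873 (.lg 0 false 7 83 89 11 0 72240) (.nx 323 257 (.lg 0 false 7 79 79 11 0 14448) .out))
  .out)))) (.nr 469 131073 (.nx 404 416129 (.nr 339 729 (.lg 0 true 14 83 89 13 0 72240) (.nr 346
  5810 (.lg 2 true 7 89 97 11 49091 72240) (.nx 367 52015 (.lg 1 false 21 101 109 13 74650
  30990960) (.nx 396 131073 (.nx 388 104033 (.lg 1 true 21 101 109 13 37324 30990960) (.nr 395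
  92683 (.lg 1 true 7 103 107 11 13203 30990960) .out)) (.nr 403 55110 (.lg 2 false 7 101 103 11
  6239 10330320) .out))))) (.nr 468 183 (.nx 418 1664512 (.lg 0 true 14 83 83 13 0 14448) (.nr 467
  21 (.nx 446 9415896 (.lg 0 true 28 79 79 11 0 14448) (.lg 0 true 21 79 79 11 0 43344)) .out))
  .out)) .out)) .out) .out) (.na 473 11 .ne (.nx 523 1664512 (.nr 522 623489 (.nx 476 173 (.nx 475
  172 (.nr 474 111 (.lg 0 true 1 29 29 9 0 56760) (.l1 .sk)) (.l1 .sk)) (.nr 514 131073 (.nx 483
  35390 (.lg 0 false 7 97 101 16 0 397320) (.nx 506 524289 (.nr 490 1621 (.lg 0 true 7 83 83 16 0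
  79464) (.nx 505 416129 (.nx 497 65537 (.lg 1 false 7 101 103 16 54858 30990960) (.nr 504 110219
  (.lg 2 false 7 101 103 16 24916 10330320) .out)) .out)) (.nr 513 65 (.lg 0 true 7 71 71 16 0
  79464) .out))) (.nx 521 1292 (.lg 0 false 7 83 83 16 0 79464) .out))) .out) .out)))) (.na 565 16
  (.na 525 13 .ne (.nx 564 1664512 (.nr 563 623489 (.nx 528 173 (.nx 527 172 (.nr 526 149 (.lg 0
  false 1 23 23 9 0 13416) (.l1 .sk)) (.l1 .sk)) (.nr 557 155873 (.nx 533 31136 (.lg 0 false 5 97
  97 16 0 67080) (.nr 556 110219 (.nr 544 1621 (.nx 538 524289 (.lg 0 true 5 83 83 16 0 67080) (.nr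
  543 65 (.lg 0 true 5 67 67 16 0 67080) .out)) (.nx 555 416129 (.nx 549 65537 (.lg 1 false 5 97
  101 16 52446 134160) (.nr 554 92683 (.lg 2 false 5 97 97 16 22078 469560) .out)) .out)) .out))
  (.nx 562 1292 (.lg 0 false 5 83 83 16 0 67080) .out))) .out) .out)) (.na 566 17 .ne (.na 608 23
  (.nx 607 1664512 (.nr 606 1048577 (.nr 567 11 .s1 (.nx 571 257 (.nx 569 172 (.nr 568 214 (.lg 0
  false 1 23 23 11 0 3096) (.l1 .sk)) (.nx 570 173 (.l1 .sk) (.l1 (.ls 79 31 2127)))) (.nr 605
  623489 (.nr 599 220437 (.nr 593 92683 (.nx 576 41287 (.lg 0 false 5 97 97 16 0 15480) (.nr 592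
  77937 (.nx 586 262145 (.nr 581 1854 (.lg 0 true 5 79 79 16 0 5160) (.lg 2 false 5 89 89 16 27985
  5160)) (.nr 591 217 (.lg 0 true 5 71 71 16 0 5160) .out)) .out)) (.nx 598 13005 (.lg 0 false 5 89
  89 16 0 15480) .out)) (.nx 604 1627 (.lg 0 false 5 79 79 16 0 5160) .out)) .out))) .out) .out)
  (.nx 638 1664512 (.nr 637 1048577 (.nr 609 19 .s1 (.nx 611 172 (.nr 610 288 (.lg 0 false 1 23 23
  11 0 11352) (.l1 .sk)) (.nx 612 173 (.l1 .sk) (.nx 613 257 (.l1 (.ls 79 31 1573)) (.nr 636 311745
  (.nx 624 41287 (.nr 618 110219 (.lg 0 false 5 89 89 16 0 5160) (.nx 623 8193 (.lg 0 false 5 83 83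
  16 0 5160) .out)) (.nr 635 65537 (.nr 629 513 (.lg 0 true 5 73 73 16 0 5160) (.nx 634 165142 (.lg
  2 false 5 83 89 16 27685 56760) .out)) .out)) .out))))) .out) .out))))) (.na 724 46 (.na 669 41
  (.na 668 32 (.nx 667 1664512 (.nr 666 1048577 (.nr 640 29 .s1 (.nx 643 173 (.nx 642 172 (.nr 641
  297 (.l1 (.ls 17 23 957)) (.l1 .sk)) (.l1 .sk)) (.nx 652 20644 (.nx 644 257 (.l1 (.ls 79 23
  1168)) (.nr 651 311745 (.lg 0 false 7 89 97 16 0 36120) .out)) (.nr 665 77937 (.nr 657 297 (.lg 0
  true 5 71 71 16 0 5160) (.nx 664 208065 (.lg 2 false 7 83 89 16 60248 36120) .out)) .out))))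
  .out) .out) .ne) (.na 684 43 (.nx 683 1664512 (.nr 682 881745 (.nr 670 39 .s1 (.nx 675 20644 (.nx
  671 257 (.l1 (.ls 79 29 1613)) (.nr 674 440873 (.lg 0 false 3 97 97 16 0 15480) .out)) (.nr 681
  46342 (.nr 678 257 (.lg 0 true 3 67 67 16 0 3096) (.nx 680 104033 (.lg 2 false 2 83 83 16 34813
  2064) .out)) .out))) .out) .out) (.na 703 44 (.nx 702 1664512 (.nr 701 881745 (.nr 685 41 .s1
  (.nx 692 26009 (.nx 686 257 (.l1 (.ls 67 29 1539)) (.nr 691 440873 (.lg 0 false 5 79 79 16 0
  5160) .out)) (.nr 700 32769 (.nr 697 409 (.lg 0 true 5 59 59 16 0 5160) (.nx 699 104033 (.lg 2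
  true 2 71 71 16 21875 2064) .out)) .out))) .out) .out) (.nx 723 1664512 (.nr 722 881745 (.nr 704
  43 .s1 (.nx 706 172 (.nr 705 428 (.l1 (.ls 31 37 675)) (.l1 .sk)) (.nx 707 173 (.l1 .sk) (.nx 708
  257 (.l1 (.ls 83 37 823)) (.nr 721 440873 (.nx 717 104033 (.nr 711 32769 (.lg 0 false 3 83 83 23
  0 68112) (.nx 716 26009 (.nx 714 10323 (.lg 0 false 3 97 101 23 0 340560) (.nr 715 110219 (.lg 0
  true 1 101 101 19 0 340560) .out)) .out)) (.nr 720 257 (.lg 0 true 3 73 73 23 0 68112) .out))
  .out))))) .out) .out)))) (.na 761 53 (.na 725 47 .ne (.na 742 52 (.nx 741 1664512 (.nr 740 881745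
  (.nr 726 46 .s1 (.nx 733 20644 (.nx 727 257 (.l1 (.ls 73 29 1408)) (.nr 732 623489 (.lg 0 false 5
  89 89 16 0 5160) .out)) (.nr 739 46342 (.nr 736 257 (.lg 0 true 3 61 61 16 0 3096) (.nx 738
  104033 (.lg 2 false 2 83 83 16 34813 2064) .out)) .out))) .out) .out) (.nx 760 1664512 (.nr 759
  881745 (.nr 743 51 .s1 (.nx 753 20644 (.nx 745 172 (.nr 744 493 (.l1 (.ls 23 31 571)) (.l1 .sk))
  (.nx 746 173 (.l1 .sk) (.nx 747 257 (.l1 (.ls 79 37 697)) (.nr 752 623489 (.lg 0 false 5 89 97 29
  0 134160) .out)))) (.nr 758 46342 (.nr 756 257 (.lg 0 true 3 71 71 23 0 80496) (.nx 757 104033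
  (.lg 2 true 1 89 89 19 34813 26832) .out)) .out))) .out) .out))) (.na 778 59 (.nx 777 1664512
  (.nr 776 881745 (.nr 762 52 .s1 (.nx 769 20644 (.nx 763 257 (.l1 (.ls 71 29 1249)) (.nr 768
  623489 (.lg 0 false 5 89 89 16 0 15480) .out)) (.nr 775 46342 (.nr 772 257 (.lg 0 true 3 61 61 16
  0 3096) (.nx 774 104033 (.lg 2 false 2 79 79 16 34813 2064) .out)) .out))) .out) .out) (.na 792
  64 (.nx 791 1664512 (.nr 790 881745 (.nr 779 58 .s1 (.nx 784 20644 (.nx 780 257 (.l1 (.ls 73 23
  1122)) (.nr 783 623489 (.lg 0 false 3 89 89 16 0 15480) .out)) (.nr 789 46342 (.nr 786 257 (.lg 0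
  true 2 67 67 16 0 2064) (.nx 788 104033 (.lg 2 false 2 79 79 16 34813 2064) .out)) .out))) .out)
  .out) .ne))))) (.na 945 121 (.na 855 92 (.na 824 79 (.na 810 68 (.nx 809 1664512 (.nr 808 524289
  (.nr 794 66 .s1 (.nx 797 173 (.nx 796 172 (.nr 795 632 (.l1 (.ls 16 19 444)) (.l1 .sk)) (.l1
  .sk)) (.nx 802 20644 (.lg 0 false 5 83 83 16 0 5160) (.nr 807 32769 (.nr 805 513 (.lg 0 true 3 61
  61 16 0 3096) (.nx 806 104033 (.lg 2 true 1 73 73 16 23604 1032) .out)) .out)))) .out) .out) (.nx
  823 1664512 (.nr 822 524289 (.nr 811 67 .s1 (.nx 817 20644 (.nx 813 172 (.nr 812 734 (.l1 (.ls 16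
  31 438)) (.l1 .sk)) (.nx 814 173 (.l1 .sk) (.lg 0 false 3 89 97 29 0 6192))) (.nr 821 32769 (.nr
  819 513 (.lg 0 true 2 71 71 23 0 2064) (.nx 820 104033 (.lg 2 false 1 79 79 13 23604 2064) .out))
  .out))) .out) .out)) (.na 839 83 (.nx 838 1664512 (.nr 837 524289 (.nr 825 78 .s1 (.nx 828 173
  (.nx 827 172 (.nr 826 771 (.l1 (.ls 16 19 377)) (.l1 .sk)) (.l1 .sk)) (.nx 831 20644 (.lg 0 false
  3 83 83 16 0 3096) (.nr 836 32769 (.nr 834 513 (.lg 0 true 3 61 61 16 0 3096) (.nx 835 104033
  (.lg 2 true 1 71 71 16 23604 5160) .out)) .out)))) .out) .out) (.na 854 91 (.nx 853 1664512 (.nr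
  852 524289 (.nr 840 82 .s1 (.nx 846 20644 (.nx 842 172 (.nr 841 846 (.l1 (.ls 16 19 359)) (.l1
  .sk)) (.nx 843 173 (.l1 .sk) (.lg 0 false 3 79 79 16 0 3096))) (.nr 851 32769 (.nr 849 513 (.lg 0
  true 3 61 61 16 0 3096) (.nx 850 104033 (.lg 2 true 1 71 71 16 23604 1032) .out)) .out))) .out)
  .out) .ne))) (.na 899 103 (.na 869 97 (.nx 868 1664512 (.nr 867 1048577 (.nr 856 92 .s1 (.nx 864
  104033 (.nx 858 172 (.nr 857 901 (.l1 (.ls 19 31 324)) (.l1 .sk)) (.nx 859 173 (.l1 .sk) (.nx 862
  13005 (.lg 0 false 3 89 97 19 0 6192) (.nr 863 65537 (.lg 0 true 1 89 89 19 0 2064) .out)))) (.nr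
  866 513 (.lg 0 true 2 71 71 19 0 2064) .out))) .out) .out) (.na 885 101 (.nx 884 1664512 (.nr 883
  1048577 (.nr 870 97 .s1 (.nx 873 173 (.nx 872 172 (.nr 871 938 (.l1 (.ls 16 19 307)) (.l1 .sk))
  (.l1 .sk)) (.nx 878 20644 (.lg 0 false 5 79 79 17 0 5160) (.nr 882 32769 (.nr 880 513 (.lg 0 true
  2 59 59 16 0 2064) (.nx 881 104033 (.lg 2 true 1 67 67 16 23604 1032) .out)) .out)))) .out) .out)
  (.nx 898 1664512 (.nr 897 1048577 (.nr 886 101 .s1 (.nx 888 172 (.nr 887 957 (.l1 (.ls 16 17
  295)) (.l1 .sk)) (.nx 889 173 (.l1 .sk) (.nx 892 20644 (.lg 0 false 3 83 83 16 0 15480) (.nr 896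
  32769 (.nr 894 513 (.lg 0 true 2 61 61 16 0 2064) (.nx 895 104033 (.lg 2 true 1 67 67 16 23604
  5160) .out)) .out))))) .out) .out))) (.na 915 107 (.nx 914 1664512 (.nr 913 1048577 (.nr 900 103
  .s1 (.nx 902 172 (.nr 901 994 (.l1 (.ls 16 17 290)) (.l1 .sk)) (.nx 903 173 (.l1 .sk) (.nx 908
  20644 (.lg 0 false 5 79 79 17 0 5160) (.nr 912 32769 (.nr 910 513 (.lg 0 true 2 59 59 16 0 2064)
  (.nx 911 104033 (.lg 2 true 1 67 67 16 23604 1032) .out)) .out))))) .out) .out) (.na 931 109 (.nx
  930 1664512 (.nr 929 1048577 (.nr 916 107 .s1 (.nx 924 20644 (.nx 918 172 (.nr 917 1013 (.l1 (.ls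
  16 17 279)) (.l1 .sk)) (.nx 919 173 (.l1 .sk) (.lg 0 false 5 79 79 17 0 15480))) (.nr 928 32769
  (.nr 926 513 (.lg 0 true 2 59 59 16 0 2064) (.nx 927 104033 (.lg 2 true 1 67 67 16 23604 1032)
  .out)) .out))) .out) .out) (.nx 944 1664512 (.nr 943 1048577 (.nr 932 109 .s1 (.nx 935 173 (.nx
  934 172 (.nr 933 1124 (.l1 (.ls 17 17 274)) (.l1 .sk)) (.l1 .sk)) (.nx 938 20644 (.lg 0 false 3
  83 83 16 0 3096) (.nr 942 32769 (.nr 940 513 (.lg 0 true 2 61 61 16 0 2064) (.nx 941 104033 (.lg
  2 true 1 67 67 16 23604 1032) .out)) .out)))) .out) .out))))) (.na 986 137 (.na 971 127 (.na 958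
  124 (.nx 957 1664512 (.nr 956 1048577 (.nr 946 121 .s1 (.nx 948 172 (.nr 947 1152 (.l1 (.ls 17 19
  247)) (.l1 .sk)) (.nx 949 173 (.l1 .sk) (.nx 952 20644 (.lg 0 false 3 83 83 19 0 170280) (.nr 955
  32769 (.nr 953 513 (.lg 0 false 1 67 67 17 0 11352) (.nx 954 104033 (.lg 2 true 1 67 67 17 23604
  11352) .out)) .out))))) .out) .out) (.nx 970 1664512 (.nr 969 1048577 (.nr 959 124 .s1 (.nx 962
  173 (.nx 961 172 (.nr 960 1180 (.l1 (.ls 23 23 241)) (.l1 .sk)) (.l1 .sk)) (.nx 967 104033 (.nx
  965 13005 (.lg 0 false 3 89 89 29 0 30960) (.nr 966 65537 (.lg 0 false 1 89 89 19 0 10320) .out))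
  (.nr 968 513 (.lg 0 true 1 71 71 19 0 2064) .out)))) .out) .out)) (.na 984 128 (.nx 983 1664512
  (.nr 982 1048577 (.nr 972 127 .s1 (.nx 975 173 (.nx 974 172 (.nr 973 1189 (.l1 (.ls 16 17 235))
  (.l1 .sk)) (.l1 .sk)) (.nx 978 20644 (.lg 0 false 3 79 79 17 0 3096) (.nr 981 32769 (.nr 979 513
  (.lg 0 false 1 61 61 16 0 1032) (.nx 980 104033 (.lg 2 true 1 61 61 16 23604 1032) .out))
  .out)))) .out) .out) (.na 985 131 .ne (.lg 0 false 1 0 0 16 0 24)))) (.na 1007 149 (.na 987 139
  (.lg 0 false 1 0 0 16 0 24) (.na 997 143 (.nx 996 832257 (.nr 995 1048577 (.nr 988 139 .s1 (.nx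
  989 257 (.l1 (.ls 67 19 478)) (.nr 994 741457 (.nr 992 16385 (.lg 0 true 3 79 79 17 0 15480) (.nx
  993 13005 (.lg 0 true 1 79 79 16 0 1032) .out)) .out))) .out) .out) (.nx 1006 832257 (.nr 1005
  1048577 (.nr 998 143 .s1 (.nx 1003 104033 (.nx 999 257 (.l1 (.ls 73 29 464)) (.nr 1002 741457
  (.nx 1000 13005 (.lg 0 false 1 83 83 19 0 147576) (.nr 1001 16385 (.lg 0 true 1 73 73 19 0
  147576) .out)) .out)) (.nr 1004 1025 (.lg 0 true 1 67 67 19 0 147576) .out))) .out) .out))) (.na
  1008 151 (.lg 0 false 1 0 0 16 0 24) (.na 1009 157 (.lg 0 false 1 0 0 16 0 24) (.lg 0 false 1 0 0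
  16 0 24))))))) (.na 1137 236 (.na 1087 191 (.na 1049 173 (.na 1021 167 (.na 1011 164 (.lg 0 false
  1 0 0 16 0 24) (.nx 1020 832257 (.nr 1019 1048577 (.nr 1012 164 .s1 (.nx 1017 104033 (.nx 1013
  257 (.l1 (.ls 79 29 405)) (.nr 1016 741457 (.nx 1014 13005 (.lg 0 false 1 89 89 23 0 2064) (.nr
  1015 16385 (.lg 0 true 1 79 79 23 0 2064) .out)) .out)) (.nr 1018 1025 (.lg 0 true 1 71 71 23 0
  2064) .out))) .out) .out)) (.na 1031 169 (.nx 1030 832257 (.nr 1029 1048577 (.nr 1022 167 .s1
  (.nx 1023 257 (.l1 (.ls 61 19 398)) (.nr 1028 741457 (.nr 1026 16385 (.lg 0 true 3 73 73 17 0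
  3096) (.nx 1027 13005 (.lg 0 true 1 73 73 16 0 1032) .out)) .out))) .out) .out) (.na 1039 172
  (.nx 1038 832257 (.nr 1037 1048577 (.nr 1032 169 .s1 (.nx 1033 257 (.l1 (.ls 67 23 393)) (.nr
  1036 741457 (.nr 1034 16385 (.lg 0 false 1 83 83 17 0 67080) (.nx 1035 13005 (.lg 0 true 1 83 83
  17 0 67080) .out)) .out))) .out) .out) (.nx 1048 832257 (.nr 1047 1048577 (.nr 1040 172 .s1 (.nx
  1041 257 (.l1 (.ls 61 29 387)) (.nr 1046 741457 (.nr 1044 16385 (.lg 0 true 3 73 73 23 0 6192)
  (.nx 1045 13005 (.lg 0 true 1 79 79 19 0 6192) .out)) .out))) .out) .out)))) (.na 1066 182 (.na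
  1057 179 (.nx 1056 832257 (.nr 1055 1048577 (.nr 1050 173 .s1 (.nx 1051 257 (.l1 (.ls 59 19 384))
  (.nr 1054 741457 (.nr 1052 16385 (.lg 0 false 1 73 73 16 0 1032) (.nx 1053 13005 (.lg 0 true 1 73
  73 16 0 1032) .out)) .out))) .out) .out) (.na 1058 181 (.lg 0 false 1 0 0 16 0 24) (.nx 1065
  832257 (.nr 1064 1048577 (.nr 1059 181 .s1 (.nx 1060 257 (.l1 (.ls 83 19 367)) (.nr 1063 741457
  (.nr 1061 16385 (.lg 0 false 1 79 79 16 0 1032) (.nx 1062 13005 (.lg 0 true 1 79 79 16 0 15480)
  .out)) .out))) .out) .out))) (.na 1067 187 .ne (.na 1077 188 (.nx 1076 832257 (.nr 1075 1048577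
  (.nr 1068 187 .s1 (.nx 1073 104033 (.nx 1071 13005 (.nx 1069 257 (.l1 (.ls 71 29 356)) (.nr 1070
  741457 (.lg 0 false 1 79 79 23 0 11352) .out)) (.nr 1072 16385 (.lg 0 true 1 71 71 23 0 11352)
  .out)) (.nr 1074 1025 (.lg 0 true 1 61 61 23 0 11352) .out))) .out) .out) (.nx 1086 832257 (.nr
  1085 1048577 (.nr 1078 188 .s1 (.nx 1083 104033 (.nx 1079 257 (.l1 (.ls 73 29 354)) (.nr 1082
  741457 (.nx 1080 13005 (.lg 0 false 1 83 83 23 0 2064) (.nr 1081 16385 (.lg 0 true 1 73 73 23 0
  2064) .out)) .out)) (.nr 1084 1025 (.lg 0 true 1 67 67 23 0 2064) .out))) .out) .out))))) (.na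
  1106 212 (.na 1096 197 (.na 1088 193 (.lg 0 false 1 0 0 16 0 24) (.nx 1095 832257 (.nr 1094
  1048577 (.nr 1089 193 .s1 (.nx 1090 257 (.l1 (.ls 59 19 345)) (.nr 1093 741457 (.nr 1091 16385
  (.lg 0 false 1 73 73 16 0 1032) (.nx 1092 13005 (.lg 0 true 1 71 71 16 0 1032) .out)) .out)))
  .out) .out)) (.na 1104 199 (.nx 1103 832257 (.nr 1102 1048577 (.nr 1097 197 .s1 (.nx 1098 257
  (.l1 (.ls 61 19 338)) (.nr 1101 741457 (.nr 1099 16385 (.lg 0 false 1 79 79 16 0 1032) (.nx 1100
  13005 (.lg 0 true 1 73 73 16 0 1032) .out)) .out))) .out) .out) (.na 1105 211 (.lg 0 false 1 0 0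
  16 0 24) (.lg 0 false 1 0 0 16 0 24)))) (.na 1127 227 (.na 1116 221 (.nx 1115 832257 (.nr 1114
  1048577 (.nr 1107 212 .s1 (.nx 1108 406 (.l1 (.ls 71 31 780)) (.nr 1113 741457 (.nx 1111 104033
  (.nx 1109 13005 (.lg 0 false 1 79 79 23 0 2064) (.nr 1110 16385 (.lg 0 true 1 71 71 23 0 2064)
  .out)) (.nr 1112 1025 (.lg 0 true 1 61 61 23 0 2064) .out)) .out))) .out) .out) (.na 1126 223
  (.nx 1125 832257 (.nr 1124 1048577 (.nr 1117 221 .s1 (.nx 1120 14793 (.nx 1118 257 (.l1 (.ls 73
  29 301)) (.nr 1119 741457 (.lg 0 false 1 83 83 23 0 13416) .out)) (.nr 1123 16385 (.nr 1121 1025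
  (.lg 0 true 1 67 67 23 0 13416) (.nx 1122 104033 (.lg 2 true 1 61 61 23 16557 13416) .out))
  .out))) .out) .out) (.lg 0 false 1 0 0 16 0 24))) (.na 1128 229 (.lg 0 false 1 0 0 16 0 24) (.na
  1136 233 (.nx 1135 832257 (.nr 1134 1048577 (.nr 1129 229 .s1 (.nx 1130 257 (.l1 (.ls 61 19 291))
  (.nr 1133 741457 (.nr 1131 16385 (.lg 0 false 1 73 73 17 0 1032) (.nx 1132 13005 (.lg 0 true 1 73
  73 17 0 5160) .out)) .out))) .out) .out) (.lg 0 false 1 0 0 16 0 24)))))) (.na 4671 2048 (.na
  1172 256 (.na 1155 241 (.na 1147 239 (.nx 1146 832257 (.nr 1145 1048577 (.nr 1138 236 .s1 (.nx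
  1141 13005 (.nx 1139 257 (.l1 (.ls 53 29 282)) (.nr 1140 741457 (.lg 0 false 1 83 83 23 0 2064)
  .out)) (.nr 1144 16385 (.nx 1142 104033 (.lg 0 true 1 73 73 23 0 10320) (.nr 1143 1025 (.lg 0
  true 1 67 67 23 0 2064) .out)) .out))) .out) .out) (.nx 1154 832257 (.nr 1153 1048577 (.nr 1148
  239 .s1 (.nx 1149 257 (.l1 (.ls 79 19 279)) (.nr 1152 741457 (.nr 1150 16385 (.lg 0 false 1 73 73
  17 0 1032) (.nx 1151 13005 (.lg 0 true 1 73 73 17 0 5160) .out)) .out))) .out) .out)) (.na 1156
  251 (.lg 0 false 1 0 0 16 0 24) (.na 1164 253 (.nx 1163 832257 (.nr 1162 1048577 (.nr 1157 251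
  .s1 (.nx 1158 257 (.l1 (.ls 73 19 266)) (.nr 1161 741457 (.nr 1159 16385 (.lg 0 false 1 73 73 17
  0 1032) (.nx 1160 13005 (.lg 0 true 1 73 73 17 0 15480) .out)) .out))) .out) .out) (.nx 1171
  832257 (.nr 1170 1048577 (.nr 1165 253 .s1 (.nx 1166 257 (.l1 (.ls 71 19 264)) (.nr 1169 741457
  (.nx 1167 13005 (.lg 0 false 1 79 79 19 0 11352) (.nr 1168 16385 (.lg 0 true 1 79 79 19 0 11352)
  .out)) .out))) .out) .out)))) (.na 2613 725 (.na 1173 257 .ne (.na 1977 512 (.nx 1976 832257 (.nr
  1975 1482912 (.nr 1174 257 .s1 (.nx 1431 173 (.nx 1430 172 (.nr 1429 4755 (.la (.ls 23 19 129))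
  (.l1 .sk)) (.l1 .sk)) (.nx 1463 205 (.lx (.lp 79 17 129)) (.nr 1974 1048577 (.nr 1718 32769 (.la
  (.lg 0 false 1 73 73 23 0)) (.nx 1973 10323 (.la (.lg 0 true 1 71 71 23 0)) .out)) .out)))) .out)
  .out) (.nx 2612 832257 (.nr 2611 1482912 (.nr 1978 512 .s1 (.nx 2183 205 (.nx 2150 172 (.nr 2149
  6734 (.lx (.lp 19 19 182)) (.l1 .sk)) (.nx 2151 173 (.l1 .sk) (.lx (.lp 79 17 182)))) (.nr 2610
  1048577 (.nx 2396 22297 (.la (.lg 0 false 1 67 67 29 0)) (.nr 2609 32769 (.la (.lg 2 true 1 59 59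
  29 139794)) .out)) .out))) .out) .out))) (.na 3215 1024 (.nx 3214 10323 (.nr 3213 1048577 (.nr
  2614 725 .s1 (.nx 2913 2049 (.la (.ls 61 37 5793)) (.nr 3212 16385 (.la (.lg 0 true 1 31 31 29
  0)) .out))) .out) .out) (.na 4069 1449 (.nx 4068 10323 (.nr 4067 1048577 (.nr 3216 1024 .s1 (.nx
  3641 2582 (.la (.ls 59 41 6513)) (.nr 4066 16385 (.la (.lg 0 false 1 29 29 31 0)) .out))) .out)
  .out) (.nx 4670 2582 (.nr 4669 524289 (.nr 4070 1449 .s1 (.la (.ls 53 37 4603))) .out) .out)))))
  (.na 11360 16384 (.na 6898 4096 (.na 5523 2897 (.nx 5522 3252 (.nr 5521 524289 (.nr 4672 2048 .s1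
  (.la (.ls 53 41 5166))) .out) .out) (.nx 6897 2582 (.nr 6896 262145 (.nr 5524 2897 .s1 (.nx 5696
  172 (.nr 5695 38041 (.lx (.lp 19 29 1025)) (.l1 .sk)) (.nx 5697 173 (.l1 .sk) (.la (.ls 59 37
  2293))))) .out) .out)) (.na 8771 5793 (.nx 8770 2582 (.nr 8769 262145 (.nr 6899 4096 .s1 (.nx
  7071 172 (.nr 7070 53801 (.lx (.lp 19 29 1449)) (.l1 .sk)) (.nx 7072 173 (.l1 .sk) (.la (.ls 53
  37 1623))))) .out) .out) (.na 10065 8192 (.nx 10064 1292 (.nr 10063 65537 (.nr 8772 5793 .s1 (.lx
  (.lp 41 37 2049))) .out) .out) (.nx 11359 1292 (.nr 11358 131073 (.nr 10066 8192 .s1 (.nx 10270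
  205 (.lx (.lp 47 41 4097)) (.nr 11357 65537 (.lx (.lp 41 41 4097)) .out))) .out) .out)))) (.na
  14710 131072 (.na 12655 32768 (.nx 12654 1292 (.nr 12653 262145 (.nr 11361 16384 .s1 (.nx 11565
  205 (.lx (.lp 16 41 8193)) (.nr 12652 131073 (.lx (.lp 41 43 8193)) .out))) .out) .out) (.na
  13683 65536 (.nx 13682 1025 (.nr 13681 262145 (.nr 12656 32768 .s1 (.nx 12860 205 (.lx (.lp 16 0
  16385)) (.nr 13680 131073 (.lx (.lp 37 47 16385)) .out))) .out) .out) (.nx 14709 1025 (.nr 14708
  262145 (.nr 13684 65536 .s1 (.lx (.lp 19 53 32769))) .out) .out))) (.na 14712 262144 (.nx 14711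
  324 (.l1 .sk) .out) (.na 14714 524289 (.nx 14713 205 (.l1 .sk) .out) .out)))))))

theorem c9 :
    OkQ ckI L10 252 1 4 0 34359738368 1 1099511627776 ∧
    OkQ ckI L8 172 1 1099511627776 0 34359738368 1 1099511627776 := by
  refine ⟨?_, ?_⟩
  · refine fin 504 1445 T9_0 ?_
    refine jn 8 (by decide +kernel) ?_
    refine jn 13 (by decide +kernel) ?_
    refine jn 18 (by decide +kernel) ?_
    refine jn 24 (by decide +kernel) ?_
    refine jn 28 (by decide +kernel) ?_
    refine jn 34 (by decide +kernel) ?_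
    refine jn 37 (by decide +kernel) ?_
    refine jn 42 (by decide +kernel) ?_
    refine jn 48 (by decide +kernel) ?_
    refine jn 53 (by decide +kernel) ?_
    refine jn 59 (by decide +kernel) ?_
    refine jn 64 (by decide +kernel) ?_
    refine jn 70 (by decide +kernel) ?_
    refine jn 75 (by decide +kernel) ?_
    refine jn 80 (by decide +kernel) ?_
    refine jn 86 (by decide +kernel) ?_
    refine jn 91 (by decide +kernel) ?_
    refine jn 97 (by decide +kernel) ?_
    refine jn 102 (by decide +kernel) ?_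
    refine jn 108 (by decide +kernel) ?_
    refine jn 113 (by decide +kernel) ?_
    refine jn 118 (by decide +kernel) ?_
    refine jn 124 (by decide +kernel) ?_
    refine jn 128 (by decide +kernel) ?_
    refine jn 134 (by decide +kernel) ?_
    refine jn 139 (by decide +kernel) ?_
    refine jn 145 (by decide +kernel) ?_
    refine jn 159 (by decide +kernel) ?_
    refine jn 174 (by decide +kernel) ?_
    refine jn 192 (by decide +kernel) ?_
    refine jn 218 (by decide +kernel) ?_
    refine jn 231 (by decide +kernel) ?_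
    refine jn 242 (by decide +kernel) ?_
    refine jn 255 (by decide +kernel) ?_
    refine jn 268 (by decide +kernel) ?_
    refine jn 274 (by decide +kernel) ?_
    refine jn 282 (by decide +kernel) ?_
    refine jn 290 (by decide +kernel) ?_
    refine jn 298 (by decide +kernel) ?_
    refine jn 300 (by decide +kernel) ?_
    refine jn 317 (by decide +kernel) ?_
    refine jn 333 (by decide +kernel) ?_
    refine jn 350 (by decide +kernel) ?_
    refine jn 355 (by decide +kernel) ?_
    refine jn 377 (by decide +kernel) ?_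
    refine jn 403 (by decide +kernel) ?_
    refine jn 416 (by decide +kernel) ?_
    refine jn 429 (by decide +kernel) ?_
    refine jn 446 (by decide +kernel) ?_
    refine jn 457 (by decide +kernel) ?_
    refine jn 474 (by decide +kernel) ?_
    refine jn 490 (by decide +kernel) ?_
    refine jn 507 (by decide +kernel) ?_
    refine jn 513 (by decide +kernel) ?_
    refine jn 525 (by decide +kernel) ?_
    refine jn 536 (by decide +kernel) ?_
    refine jn 547 (by decide +kernel) ?_
    refine jn 559 (by decide +kernel) ?_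
    refine jn 568 (by decide +kernel) ?_
    refine jn 571 (by decide +kernel) ?_
    refine jn 597 (by decide +kernel) ?_
    refine jn 610 (by decide +kernel) ?_
    refine jn 625 (by decide +kernel) ?_
    refine jn 633 (by decide +kernel) ?_
    refine jn 643 (by decide +kernel) ?_
    refine jn 653 (by decide +kernel) ?_
    refine jn 663 (by decide +kernel) ?_
    refine jn 673 (by decide +kernel) ?_
    refine jn 681 (by decide +kernel) ?_
    refine jn 702 (by decide +kernel) ?_
    refine jn 720 (by decide +kernel) ?_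
    refine jn 740 (by decide +kernel) ?_
    refine jn 759 (by decide +kernel) ?_
    refine jn 768 (by decide +kernel) ?_
    refine jn 781 (by decide +kernel) ?_
    refine jn 794 (by decide +kernel) ?_
    refine jn 808 (by decide +kernel) ?_
    refine jn 823 (by decide +kernel) ?_
    refine jn 836 (by decide +kernel) ?_
    refine jn 858 (by decide +kernel) ?_
    refine jn 882 (by decide +kernel) ?_
    refine jn 902 (by decide +kernel) ?_
    refine jn 921 (by decide +kernel) ?_
    refine jn 942 (by decide +kernel) ?_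
    refine jn 963 (by decide +kernel) ?_
    refine jn 967 (by decide +kernel) ?_
    refine jn 985 (by decide +kernel) ?_
    refine jn 1001 (by decide +kernel) ?_
    refine jn 1019 (by decide +kernel) ?_
    refine jn 1032 (by decide +kernel) ?_
    refine jn 1056 (by decide +kernel) ?_
    refine jn 1080 (by decide +kernel) ?_
    refine jn 1092 (by decide +kernel) ?_
    refine jn 1103 (by decide +kernel) ?_
    refine jn 1113 (by decide +kernel) ?_
    refine jn 1124 (by decide +kernel) ?_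
    refine jn 1144 (by decide +kernel) ?_
    refine jn 1163 (by decide +kernel) ?_
    refine jn 1171 (by decide +kernel) ?_
    refine jn 1193 (by decide +kernel) ?_
    refine jn 1219 (by decide +kernel) ?_
    refine jn 1244 (by decide +kernel) ?_
    refine jn 1248 (by decide +kernel) ?_
    refine jn 1273 (by decide +kernel) ?_
    refine jn 1297 (by decide +kernel) ?_
    refine jn 1304 (by decide +kernel) ?_
    refine jn 1329 (by decide +kernel) ?_
    refine jn 1354 (by decide +kernel) ?_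
    refine jn 1370 (by decide +kernel) ?_
    refine jn 1401 (by decide +kernel) ?_
    refine jn 1442 (by decide +kernel) ?_
    exact je (by decide +kernel)
  · refine fin 1032 14715 T9_1 ?_
    refine jn 6 (by decide +kernel) ?_
    refine jn 10 (by decide +kernel) ?_
    refine jn 13 (by decide +kernel) ?_
    refine jn 15 (by decide +kernel) ?_
    refine jn 19 (by decide +kernel) ?_
    refine jn 22 (by decide +kernel) ?_
    refine jn 25 (by decide +kernel) ?_
    refine jn 28 (by decide +kernel) ?_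
    refine jn 31 (by decide +kernel) ?_
    refine jn 33 (by decide +kernel) ?_
    refine jn 37 (by decide +kernel) ?_
    refine jn 40 (by decide +kernel) ?_
    refine jn 45 (by decide +kernel) ?_
    refine jn 51 (by decide +kernel) ?_
    refine jn 59 (by decide +kernel) ?_
    refine jn 66 (by decide +kernel) ?_
    refine jn 74 (by decide +kernel) ?_
    refine jn 81 (by decide +kernel) ?_
    refine jn 94 (by decide +kernel) ?_
    refine jn 107 (by decide +kernel) ?_
    refine jn 133 (by decide +kernel) ?_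
    refine jn 147 (by decide +kernel) ?_
    refine jn 169 (by decide +kernel) ?_
    refine jn 185 (by decide +kernel) ?_
    refine jn 206 (by decide +kernel) ?_
    refine jn 215 (by decide +kernel) ?_
    refine jn 235 (by decide +kernel) ?_
    refine jn 258 (by decide +kernel) ?_
    refine jn 280 (by decide +kernel) ?_
    refine jn 289 (by decide +kernel) ?_
    refine jn 290 (by decide +kernel) ?_
    refine jn 292 (by decide +kernel) ?_
    refine jn 294 (by decide +kernel) ?_
    refine jn 296 (by decide +kernel) ?_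
    refine jn 297 (by decide +kernel) ?_
    refine jn 299 (by decide +kernel) ?_
    refine jn 301 (by decide +kernel) ?_
    refine jn 302 (by decide +kernel) ?_
    refine jn 304 (by decide +kernel) ?_
    refine jn 306 (by decide +kernel) ?_
    refine jn 308 (by decide +kernel) ?_
    refine jn 309 (by decide +kernel) ?_
    refine jn 323 (by decide +kernel) ?_
    refine jn 327 (by decide +kernel) ?_
    refine jn 330 (by decide +kernel) ?_
    refine jn 332 (by decide +kernel) ?_
    refine jn 334 (by decide +kernel) ?_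
    refine jn 337 (by decide +kernel) ?_
    refine jn 339 (by decide +kernel) ?_
    refine jn 346 (by decide +kernel) ?_
    refine jn 357 (by decide +kernel) ?_
    refine jn 367 (by decide +kernel) ?_
    refine jn 379 (by decide +kernel) ?_
    refine jn 388 (by decide +kernel) ?_
    refine jn 396 (by decide +kernel) ?_
    refine jn 403 (by decide +kernel) ?_
    refine jn 410 (by decide +kernel) ?_
    refine jn 417 (by decide +kernel) ?_
    refine jn 446 (by decide +kernel) ?_
    refine jn 467 (by decide +kernel) ?_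
    refine jn 476 (by decide +kernel) ?_
    refine jn 478 (by decide +kernel) ?_
    refine jn 481 (by decide +kernel) ?_
    refine jn 483 (by decide +kernel) ?_
    refine jn 487 (by decide +kernel) ?_
    refine jn 490 (by decide +kernel) ?_
    refine jn 497 (by decide +kernel) ?_
    refine jn 504 (by decide +kernel) ?_
    refine jn 513 (by decide +kernel) ?_
    refine jn 528 (by decide +kernel) ?_
    refine jn 530 (by decide +kernel) ?_
    refine jn 532 (by decide +kernel) ?_
    refine jn 533 (by decide +kernel) ?_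
    refine jn 537 (by decide +kernel) ?_
    refine jn 543 (by decide +kernel) ?_
    refine jn 554 (by decide +kernel) ?_
    refine jn 571 (by decide +kernel) ?_
    refine jn 574 (by decide +kernel) ?_
    refine jn 576 (by decide +kernel) ?_
    refine jn 581 (by decide +kernel) ?_
    refine jn 586 (by decide +kernel) ?_
    refine jn 591 (by decide +kernel) ?_
    refine jn 604 (by decide +kernel) ?_
    refine jn 616 (by decide +kernel) ?_
    refine jn 623 (by decide +kernel) ?_
    refine jn 629 (by decide +kernel) ?_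
    refine jn 643 (by decide +kernel) ?_
    refine jn 651 (by decide +kernel) ?_
    refine jn 657 (by decide +kernel) ?_
    refine jn 664 (by decide +kernel) ?_
    refine jn 674 (by decide +kernel) ?_
    refine jn 680 (by decide +kernel) ?_
    refine jn 699 (by decide +kernel) ?_
    refine jn 708 (by decide +kernel) ?_
    refine jn 709 (by decide +kernel) ?_
    refine jn 710 (by decide +kernel) ?_
    refine jn 711 (by decide +kernel) ?_
    refine jn 715 (by decide +kernel) ?_
    refine jn 720 (by decide +kernel) ?_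
    refine jn 732 (by decide +kernel) ?_
    refine jn 738 (by decide +kernel) ?_
    refine jn 749 (by decide +kernel) ?_
    refine jn 752 (by decide +kernel) ?_
    refine jn 756 (by decide +kernel) ?_
    refine jn 762 (by decide +kernel) ?_
    refine jn 768 (by decide +kernel) ?_
    refine jn 774 (by decide +kernel) ?_
    refine jn 786 (by decide +kernel) ?_
    refine jn 802 (by decide +kernel) ?_
    refine jn 812 (by decide +kernel) ?_
    refine jn 817 (by decide +kernel) ?_
    refine jn 819 (by decide +kernel) ?_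
    refine jn 831 (by decide +kernel) ?_
    refine jn 846 (by decide +kernel) ?_
    refine jn 859 (by decide +kernel) ?_
    refine jn 862 (by decide +kernel) ?_
    refine jn 866 (by decide +kernel) ?_
    refine jn 881 (by decide +kernel) ?_
    refine jn 895 (by decide +kernel) ?_
    refine jn 911 (by decide +kernel) ?_
    refine jn 927 (by decide +kernel) ?_
    refine jn 941 (by decide +kernel) ?_
    refine jn 954 (by decide +kernel) ?_
    refine jn 966 (by decide +kernel) ?_
    refine jn 979 (by decide +kernel) ?_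
    refine jn 993 (by decide +kernel) ?_
    refine jn 1001 (by decide +kernel) ?_
    refine jn 1015 (by decide +kernel) ?_
    refine jn 1027 (by decide +kernel) ?_
    refine jn 1044 (by decide +kernel) ?_
    refine jn 1053 (by decide +kernel) ?_
    refine jn 1070 (by decide +kernel) ?_
    refine jn 1080 (by decide +kernel) ?_
    refine jn 1092 (by decide +kernel) ?_
    refine jn 1109 (by decide +kernel) ?_
    refine jn 1119 (by decide +kernel) ?_
    refine jn 1132 (by decide +kernel) ?_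
    refine jn 1143 (by decide +kernel) ?_
    refine jn 1160 (by decide +kernel) ?_
    refine jn 1168 (by decide +kernel) ?_
    refine jn 1264 (by decide +kernel) ?_
    refine jn 1353 (by decide +kernel) ?_
    refine jn 1474 (by decide +kernel) ?_
    refine jn 1477 (by decide +kernel) ?_
    refine jn 1495 (by decide +kernel) ?_
    refine jn 1505 (by decide +kernel) ?_
    refine jn 1517 (by decide +kernel) ?_
    refine jn 1523 (by decide +kernel) ?_
    refine jn 1543 (by decide +kernel) ?_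
    refine jn 1559 (by decide +kernel) ?_
    refine jn 1585 (by decide +kernel) ?_
    refine jn 1597 (by decide +kernel) ?_
    refine jn 1607 (by decide +kernel) ?_
    refine jn 1610 (by decide +kernel) ?_
    refine jn 1634 (by decide +kernel) ?_
    refine jn 1642 (by decide +kernel) ?_
    refine jn 1657 (by decide +kernel) ?_
    refine jn 1679 (by decide +kernel) ?_
    refine jn 1693 (by decide +kernel) ?_
    refine jn 1729 (by decide +kernel) ?_
    refine jn 1742 (by decide +kernel) ?_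
    refine jn 1760 (by decide +kernel) ?_
    refine jn 1777 (by decide +kernel) ?_
    refine jn 1798 (by decide +kernel) ?_
    refine jn 1820 (by decide +kernel) ?_
    refine jn 1849 (by decide +kernel) ?_
    refine jn 1862 (by decide +kernel) ?_
    refine jn 1873 (by decide +kernel) ?_
    refine jn 1897 (by decide +kernel) ?_
    refine jn 1912 (by decide +kernel) ?_
    refine jn 1940 (by decide +kernel) ?_
    refine jn 1969 (by decide +kernel) ?_
    refine jn 2068 (by decide +kernel) ?_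
    refine jn 2198 (by decide +kernel) ?_
    refine jn 2204 (by decide +kernel) ?_
    refine jn 2227 (by decide +kernel) ?_
    refine jn 2234 (by decide +kernel) ?_
    refine jn 2243 (by decide +kernel) ?_
    refine jn 2244 (by decide +kernel) ?_
    refine jn 2282 (by decide +kernel) ?_
    refine jn 2290 (by decide +kernel) ?_
    refine jn 2330 (by decide +kernel) ?_
    refine jn 2347 (by decide +kernel) ?_
    refine jn 2360 (by decide +kernel) ?_
    refine jn 2368 (by decide +kernel) ?_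
    refine jn 2384 (by decide +kernel) ?_
    refine jn 2396 (by decide +kernel) ?_
    refine jn 2413 (by decide +kernel) ?_
    refine jn 2431 (by decide +kernel) ?_
    refine jn 2443 (by decide +kernel) ?_
    refine jn 2456 (by decide +kernel) ?_
    refine jn 2457 (by decide +kernel) ?_
    refine jn 2495 (by decide +kernel) ?_
    refine jn 2503 (by decide +kernel) ?_
    refine jn 2543 (by decide +kernel) ?_
    refine jn 2560 (by decide +kernel) ?_
    refine jn 2576 (by decide +kernel) ?_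
    refine jn 2593 (by decide +kernel) ?_
    refine jn 2608 (by decide +kernel) ?_
    refine jn 2658 (by decide +kernel) ?_
    refine jn 2746 (by decide +kernel) ?_
    refine jn 2802 (by decide +kernel) ?_
    refine jn 2892 (by decide +kernel) ?_
    refine jn 2936 (by decide +kernel) ?_
    refine jn 2960 (by decide +kernel) ?_
    refine jn 3011 (by decide +kernel) ?_
    refine jn 3071 (by decide +kernel) ?_
    refine jn 3101 (by decide +kernel) ?_
    refine jn 3149 (by decide +kernel) ?_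
    refine jn 3200 (by decide +kernel) ?_
    refine jn 3267 (by decide +kernel) ?_
    refine jn 3325 (by decide +kernel) ?_
    refine jn 3391 (by decide +kernel) ?_
    refine jn 3475 (by decide +kernel) ?_
    refine jn 3556 (by decide +kernel) ?_
    refine jn 3625 (by decide +kernel) ?_
    refine jn 3696 (by decide +kernel) ?_
    refine jn 3749 (by decide +kernel) ?_
    refine jn 3794 (by decide +kernel) ?_
    refine jn 3830 (by decide +kernel) ?_
    refine jn 3885 (by decide +kernel) ?_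
    refine jn 3948 (by decide +kernel) ?_
    refine jn 3981 (by decide +kernel) ?_
    refine jn 4029 (by decide +kernel) ?_
    refine jn 4092 (by decide +kernel) ?_
    refine jn 4192 (by decide +kernel) ?_
    refine jn 4272 (by decide +kernel) ?_
    refine jn 4393 (by decide +kernel) ?_
    refine jn 4468 (by decide +kernel) ?_
    refine jn 4569 (by decide +kernel) ?_
    refine jn 4692 (by decide +kernel) ?_
    refine jn 4756 (by decide +kernel) ?_
    refine jn 4852 (by decide +kernel) ?_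
    refine jn 4956 (by decide +kernel) ?_
    refine jn 5047 (by decide +kernel) ?_
    refine jn 5133 (by decide +kernel) ?_
    refine jn 5257 (by decide +kernel) ?_
    refine jn 5379 (by decide +kernel) ?_
    refine jn 5467 (by decide +kernel) ?_
    refine jn 5721 (by decide +kernel) ?_
    refine jn 5868 (by decide +kernel) ?_
    refine jn 5991 (by decide +kernel) ?_
    refine jn 6116 (by decide +kernel) ?_
    refine jn 6276 (by decide +kernel) ?_
    refine jn 6404 (by decide +kernel) ?_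
    refine jn 6551 (by decide +kernel) ?_
    refine jn 6688 (by decide +kernel) ?_
    refine jn 6837 (by decide +kernel) ?_
    refine jn 7108 (by decide +kernel) ?_
    refine jn 7268 (by decide +kernel) ?_
    refine jn 7409 (by decide +kernel) ?_
    refine jn 7559 (by decide +kernel) ?_
    refine jn 7747 (by decide +kernel) ?_
    refine jn 7892 (by decide +kernel) ?_
    refine jn 8063 (by decide +kernel) ?_
    refine jn 8228 (by decide +kernel) ?_
    refine jn 8375 (by decide +kernel) ?_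
    refine jn 8567 (by decide +kernel) ?_
    refine jn 8705 (by decide +kernel) ?_
    refine jn 9123 (by decide +kernel) ?_
    refine jn 9364 (by decide +kernel) ?_
    refine jn 9555 (by decide +kernel) ?_
    refine jn 9675 (by decide +kernel) ?_
    refine jn 9784 (by decide +kernel) ?_
    refine jn 9879 (by decide +kernel) ?_
    refine jn 9963 (by decide +kernel) ?_
    refine jn 10029 (by decide +kernel) ?_
    refine jn 10203 (by decide +kernel) ?_
    refine jn 10528 (by decide +kernel) ?_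
    refine jn 10685 (by decide +kernel) ?_
    refine jn 10803 (by decide +kernel) ?_
    refine jn 10905 (by decide +kernel) ?_
    refine jn 10989 (by decide +kernel) ?_
    refine jn 11066 (by decide +kernel) ?_
    refine jn 11143 (by decide +kernel) ?_
    refine jn 11203 (by decide +kernel) ?_
    refine jn 11271 (by decide +kernel) ?_
    refine jn 11331 (by decide +kernel) ?_
    refine jn 11648 (by decide +kernel) ?_
    refine jn 11975 (by decide +kernel) ?_
    refine jn 12138 (by decide +kernel) ?_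
    refine jn 12299 (by decide +kernel) ?_
    refine jn 12420 (by decide +kernel) ?_
    refine jn 12527 (by decide +kernel) ?_
    refine jn 12607 (by decide +kernel) ?_
    refine jn 13049 (by decide +kernel) ?_
    refine jn 13383 (by decide +kernel) ?_
    refine jn 13553 (by decide +kernel) ?_
    refine jn 14016 (by decide +kernel) ?_
    refine jn 14419 (by decide +kernel) ?_
    exact je (by decide +kernel)

end Pool.Agent.MP_2339ce_nt.NR
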