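import Pool.Agent.MP_2339ce_nt.Q2.NC.L9
import Pool.Agent.MP_2339ce_nt.Q2.NC.L10
import Pool.Agent.MP_2339ce_nt.Q2.CkI

/-! Block NR: runs. -/

set_option autoImplicit false
set_option maxRecDepth 100000

noncomputable section

namespace Pool.Agent.MP_2339ce_nt.NR

open Q2.Top

def T90_0 : Ph :=
  (.na 724 3 (.na 409 2 (.nx 408 2097153 (.nr 407 881745 (.nx 384 1048577 (.nx 3 193 (.nx 2 192
  (.nr 1 14 (.lg 0 false 1 43 43 5 0 48) (.l1 .sk)) (.l1 .sk)) (.nx 128 32769 (.nr 105 311745 (.nr
  80 131073 (.lg 0 false 77 101 107 16 0 720720) (.nx 104 8193 (.nx 91 324 (.lg 0 false 11 79 79 9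
  0 528) (.nx 92 4096 .out (.nr 103 155873 (.lg 0 false 11 101 103 9 0 720720) .out))) .out)) (.nx
  127 257 (.lg 0 false 22 79 79 11 0 528) .out)) (.nr 383 110219 (.nr 205 901 (.lg 0 true 77 89 101
  16 0 55440) (.nx 282 52017 (.lg 1 false 77 97 107 16 62106 720720) (.nr 382 77937 (.nr 293 1724
  (.lg 2 true 11 97 97 9 111725 7920) (.nx 381 832257 (.nr 304 3160 (.lg 2 true 11 97 97 9 46344
  7920) (.lg 2 false 77 101 109 16 27685 720720)) .out)) .out))) .out))) (.nr 406 129 (.lg 0 true
  22 83 83 11 0 528) .out)) .out) .out) (.nx 723 3329023 (.nr 722 623489 (.nx 412 193 (.nx 411 192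
  (.nr 410 26 (.lg 0 true 1 37 37 5 0 48) (.l1 .sk)) (.l1 .sk)) (.nr 708 220437 (.nx 467 41287 (.lg
  0 false 55 101 107 13 0 720720) (.nr 707 155873 (.nr 559 1025 (.nx 543 2097153 (.nx 522 1048577
  (.lg 0 true 55 83 97 13 0 55440) (.nr 542 129 (.lg 0 true 20 79 79 11 0 240) .out)) (.nr 558 9
  (.lg 0 true 15 67 67 9 0 720) .out)) (.nx 706 832257 (.nx 614 82572 (.lg 1 false 55 97 107 13
  69674 720720) (.nr 705 131073 (.nr 625 2049 (.lg 2 true 11 83 89 9 77948 11088) (.nx 704 660563
  (.nr 648 38969 (.nr 636 6051 (.lg 2 true 11 89 89 9 30949 11088) (.nx 647 524289 (.lg 2 false 11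
  97 101 9 8742 11088) .out)) (.nx 703 262145 (.lg 2 false 55 97 107 13 29302 720720) .out)) .out))
  .out)) .out)) .out)) (.nx 721 324 (.lg 0 false 13 73 73 9 0 624) .out))) .out) .out)) (.na 988 4
  (.nx 987 6658044 (.nr 986 1482912 (.nx 727 193 (.nx 726 192 (.nr 725 37 (.lg 0 true 1 37 37 5 0
  144) (.l1 .sk)) (.l1 .sk)) (.nx 778 32768 (.nr 762 185365 (.lg 0 false 35 101 107 16 0 720720)
  (.nx 777 324 (.lg 0 false 15 79 79 16 0 720) .out)) (.nr 985 220437 (.nr 845 748 (.nx 793 660563
  (.lg 0 true 15 83 83 16 0 720) (.nr 844 129 (.nx 808 1321124 (.lg 0 true 15 73 73 16 0 720) (.nr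
  843 33 (.lg 0 true 35 73 73 7 0 5040) .out)) .out)) (.nx 984 524289 (.nr 856 3167 (.lg 2 true 11
  83 89 7 67289 1584) (.nx 973 208065 (.nx 891 52017 (.lg 1 false 35 97 103 16 124106 720720) (.nr
  972 185365 (.nx 926 96321 (.lg 1 false 35 97 103 16 65752 720720) (.nx 961 165142 (.lg 1 true 35
  97 103 16 35509 720720) (.nr 971 92683 (.lg 1 true 10 97 97 7 10367 5040) .out))) .out)) (.nr 983
  38969 (.nr 978 13397 (.lg 2 true 5 89 89 7 15893 720) (.lg 2 false 5 83 83 7 3757 720)) .out)))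
  .out)) .out))) .out) .out) (.na 1205 5 (.nx 1204 16777217 (.nr 1203 1246976 (.nx 1150 2097153
  (.nx 1138 524289 (.nx 1028 25311 (.nx 991 193 (.nx 990 192 (.nr 989 48 (.lg 0 true 1 37 37 9 0
  48) (.l1 .sk)) (.l1 .sk)) (.nx 1016 16384 (.nr 1004 155873 (.lg 0 false 13 101 103 13 0 65520)
  (.nx 1015 324 (.lg 0 false 11 79 79 13 0 528) .out)) (.nr 1027 185365 (.lg 0 false 11 101 103 13
  0 55440) .out))) (.nr 1137 220437 (.nr 1039 729 (.lg 0 true 11 83 83 13 0 528) (.nx 1095 131073
  (.nx 1073 65536 (.nr 1072 185365 (.nx 1061 47726 (.nx 1050 34756 (.lg 1 false 11 97 103 13 135130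
  55440) (.lg 1 false 11 97 103 13 98408 55440)) (.lg 1 false 11 97 103 13 71664 55440)) .out) (.nx
  1084 92682 (.lg 1 false 11 101 103 13 62053 55440) (.lg 1 false 11 101 103 13 43878 55440))) (.nr
  1136 155873 (.nx 1106 165142 (.lg 1 true 11 97 103 13 21947 55440) (.nr 1135 131073 (.nr 1111
  2909 (.lg 2 true 5 89 97 11 69043 5040) (.nr 1116 11603 (.lg 2 true 5 89 97 11 17303 5040) (.nx
  1127 208065 (.lg 1 true 11 97 103 13 14651 55440) (.nr 1134 55110 (.lg 2 false 7 89 97 11 4900
  5040) .out)))) .out)) .out))) .out)) (.nr 1149 183 (.lg 0 true 11 83 83 13 0 528) .out)) (.nr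
  1202 21 (.nx 1176 8388609 (.lg 0 true 26 73 73 11 0 624) (.lg 0 true 26 79 79 11 0 624)) .out))
  .out) .out) .ne)))

def T90_1 : Ph :=
  (.na 558 64 (.na 352 32 (.na 208 19 (.na 98 17 (.na 97 16 (.nx 96 2642247 (.nr 95 1246976 (.nr 1
  3 .s1 (.nx 3 221 (.nr 2 168 (.lg 0 true 1 41 41 16 0 79560) (.l1 .sk)) (.nx 4 222 (.l1 .sk) (.nr
  32 65537 (.nx 24 660563 (.nx 8 24421 (.lg 0 false 4 97 97 17 0 159120) (.nr 13 2382 (.nr 12 1227
  (.lg 0 true 4 89 89 17 0 159120) (.lg 2 false 1 83 83 16 59489 79560)) (.nr 17 33773 (.lg 2 false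
  4 89 89 17 33994 159120) (.lg 2 false 7 89 89 17 65758 556920)))) (.nr 31 65 (.lg 0 true 7 73 79
  17 0 556920) .out)) (.nx 94 524289 (.nr 89 741457 (.nx 84 330282 (.nr 60 220437 (.lg 0 true 28
  101 109 29 0 12252240) (.nx 83 208065 (.nx 64 1627 (.lg 0 false 4 97 97 17 0 159120) (.nx 65
  41285 .out (.nr 82 311745 (.nr 76 262145 (.lg 0 true 11 101 109 19 0 12252240) (.nx 77 82570 .out
  (.nx 81 165142 (.lg 0 true 4 103 109 17 0 12252240) .out))) .out))) .out)) (.nr 88 77937 (.lg 0
  true 4 103 107 17 0 12252240) .out)) (.nx 93 408 (.lg 0 false 4 79 83 17 0 159120) .out))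
  .out))))) .out) .out) .ne) (.na 149 18 (.nx 148 2642247 (.nr 147 1246976 (.nr 99 9 .s1 (.nx 102
  222 (.nx 101 221 (.nr 100 189 (.lg 0 true 1 29 29 9 0 15912) (.l1 .sk)) (.l1 .sk)) (.nx 103 408
  (.l1 (.ls 79 41 6895)) (.nr 146 741457 (.nx 122 49877 (.nr 114 311745 (.lg 0 false 11 97 101 16 0
  875160) (.nx 121 1627 (.lg 0 false 7 73 73 16 0 111384) .out)) (.nr 145 220437 (.nr 133 666 (.lg
  0 true 11 73 73 16 0 175032) (.nx 144 524289 (.lg 2 false 11 101 103 16 108039 1750320) .out))
  .out)) .out)))) .out) .out) (.nx 207 2642247 (.nr 206 1246976 (.nr 150 11 .s1 (.nx 198 660563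
  (.nx 154 408 (.nx 152 221 (.nr 151 200 (.lg 0 false 1 31 31 13 0 31824) (.l1 .sk)) (.nx 153 222
  (.l1 .sk) (.l1 (.ls 89 47 6513)))) (.nr 197 741457 (.nr 183 220437 (.nx 161 49877 (.lg 0 false 7
  101 103 19 0 1113840) (.nr 168 1726 (.lg 0 true 7 89 89 19 0 222768) (.nx 182 524289 (.nx 175
  101871 (.lg 1 false 7 101 103 19 108039 1113840) (.lg 2 false 7 103 107 19 52897 12252240))
  .out))) (.nx 196 13005 (.nr 190 311745 (.lg 0 false 7 89 97 19 0 1113840) (.nx 195 1627 (.lg 0
  false 5 83 83 19 0 159120) .out)) .out)) .out)) (.nr 205 129 (.lg 0 true 7 73 73 19 0 222768)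
  .out))) .out) .out))) (.na 268 26 (.na 267 23 (.nx 266 2642247 (.nr 265 1246976 (.nr 209 12 .s1
  (.nx 212 222 (.nx 211 221 (.nr 210 242 (.lg 0 true 1 31 31 11 0 79560) (.l1 .sk)) (.l1 .sk)) (.nx
  257 660563 (.nx 213 408 (.l1 (.ls 89 41 6170)) (.nr 256 741457 (.nx 229 49877 (.nr 224 311745
  (.lg 0 false 11 101 103 16 0 875160) (.nx 228 1627 (.lg 0 false 4 83 83 16 0 31824) .out)) (.nr
  255 220437 (.nr 236 1726 (.lg 0 true 7 83 89 16 0 556920) (.nx 254 524289 (.nx 243 101871 (.lg 1
  false 7 97 103 16 108039 556920) (.lg 2 false 11 101 107 16 52897 6126120)) .out)) .out)) .out))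
  (.nr 264 129 (.lg 0 true 7 73 73 16 0 111384) .out)))) .out) .out) .ne) (.na 311 30 (.nx 310
  2642247 (.nr 309 1048577 (.nr 269 22 .s1 (.nx 272 222 (.nx 271 221 (.nr 270 316 (.l1 (.ls 29 41
  1881)) (.l1 .sk)) (.l1 .sk)) (.nx 273 408 (.l1 (.ls 79 47 4509)) (.nr 308 741457 (.nr 300 185365
  (.nx 280 65537 (.lg 0 false 7 101 101 11 0 1113840) (.nr 299 155873 (.nr 291 791 (.lg 0 true 11
  79 79 19 0 350064) (.nx 298 524289 (.lg 2 false 7 101 101 11 73242 1113840) .out)) .out)) (.nx
  307 16385 (.lg 0 false 7 97 97 11 0 1113840) .out)) .out)))) .out) .out) (.nx 351 2642247 (.nr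
  350 1048577 (.nr 312 27 .s1 (.nx 316 408 (.nx 314 221 (.nr 313 337 (.lg 0 false 1 37 37 19 0
  159120) (.l1 .sk)) (.nx 315 222 (.l1 .sk) (.l1 (.ls 89 47 3909)))) (.nr 349 741457 (.nr 346
  524289 (.nx 323 16385 (.lg 0 false 7 97 103 31 0 1113840) (.nr 345 185365 (.nx 340 660563 (.nx
  330 82572 (.lg 0 false 7 97 103 31 0 1113840) (.nr 339 131073 (.nr 336 77937 (.nr 332 1001 (.lg 0
  true 2 83 83 23 0 159120) (.nx 335 524289 (.nr 333 2973 (.lg 2 false 1 83 83 19 57877 159120)
  (.lg 2 false 2 97 101 23 23116 159120)) .out)) (.nx 338 416129 (.lg 2 false 2 101 103 23 38831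
  1113840) .out)) .out)) (.nr 344 129 (.lg 0 true 4 73 73 29 0 159120) .out)) .out)) (.nx 348 2582
  (.lg 0 false 2 89 89 23 0 159120) .out)) .out))) .out) .out)))) (.na 439 46 (.na 383 38 (.na 353
  34 .ne (.nx 382 2642247 (.nr 381 881745 (.nr 354 31 .s1 (.nx 355 408 (.l1 (.ls 79 47 4898)) (.nr
  380 623489 (.nx 366 41287 (.lg 0 false 11 97 101 13 0 1750320) (.nr 379 110219 (.nr 373 400 (.lg
  0 true 7 71 71 13 0 222768) (.nx 378 262145 (.lg 2 false 5 89 89 13 72418 159120) .out)) .out))
  .out))) .out) .out)) (.na 414 45 (.nx 413 2642247 (.nr 412 881745 (.nr 384 35 .s1 (.nx 387 222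
  (.nx 386 221 (.nr 385 474 (.l1 (.ls 37 41 1288)) (.l1 .sk)) (.l1 .sk)) (.nx 396 41287 (.nx 388
  408 (.l1 (.ls 83 43 3086)) (.nr 395 623489 (.lg 0 false 7 101 103 17 0 1113840) .out)) (.nr 411
  110219 (.nr 403 474 (.lg 0 true 7 79 79 17 0 222768) (.nx 410 262145 (.lg 2 false 7 97 101 17
  65325 1113840) .out)) .out)))) .out) .out) (.nx 438 2642247 (.nr 437 881745 (.nr 415 43 .s1 (.nx
  418 222 (.nx 417 221 (.nr 416 484 (.l1 (.ls 31 31 1088)) (.l1 .sk)) (.l1 .sk)) (.nx 419 408 (.l1
  (.ls 83 41 2607)) (.nr 436 623489 (.nr 431 185365 (.nx 426 262145 (.nx 423 65537 (.lg 0 false 4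
  97 101 19 0 159120) (.nr 425 77937 (.nr 424 1291 (.lg 0 false 1 73 73 17 0 79560) (.lg 2 true 1
  97 97 17 29124 79560)) .out)) (.nr 430 257 (.lg 0 true 4 73 73 19 0 159120) .out)) (.nx 435 16385
  (.lg 0 false 4 89 101 19 0 159120) .out)) .out)))) .out) .out))) (.na 488 50 (.na 464 47 (.nx 463
  2642247 (.nr 462 881745 (.nr 440 44 .s1 (.nx 442 221 (.nr 441 495 (.lg 0 false 1 31 31 13 0
  159120) (.l1 .sk)) (.nx 443 222 (.l1 .sk) (.nx 450 32769 (.lg 0 false 7 101 103 19 0 1113840)
  (.nr 461 92683 (.nr 457 495 (.lg 0 true 7 79 79 19 0 222768) (.nx 460 262145 (.lg 2 false 3 101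
  101 13 69237 159120) .out)) .out))))) .out) .out) (.nx 487 2642247 (.nr 486 881745 (.nr 465 45
  .s1 (.nx 475 32769 (.nx 467 221 (.nr 466 526 (.l1 (.ls 29 23 1042)) (.l1 .sk)) (.nx 468 222 (.l1
  .sk) (.lg 0 false 7 101 103 16 0 1113840))) (.nr 485 92683 (.nr 480 526 (.lg 0 true 5 73 73 16 0
  79560) (.nx 484 262145 (.lg 2 false 4 97 97 16 69237 159120) .out)) .out))) .out) .out)) (.na 512
  51 (.nx 511 2642247 (.nr 510 881745 (.nr 489 48 .s1 (.nx 499 32769 (.nx 491 221 (.nr 490 537 (.l1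
  (.ls 31 37 979)) (.l1 .sk)) (.nx 492 222 (.l1 .sk) (.lg 0 false 7 97 101 23 0 1113840))) (.nr 509
  92683 (.nr 505 537 (.lg 0 true 6 73 73 23 0 159120) (.nx 508 262145 (.lg 2 false 3 97 97 19 69237
  159120) .out)) .out))) .out) .out) (.na 536 54 (.nx 535 2642247 (.nr 534 881745 (.nr 513 49 .s1
  (.nx 516 222 (.nx 515 221 (.nr 514 569 (.l1 (.ls 29 31 960)) (.l1 .sk)) (.l1 .sk)) (.nx 523 32769
  (.lg 0 false 7 89 97 23 0 556920) (.nr 533 92683 (.nr 528 569 (.lg 0 true 5 71 71 16 0 79560)
  (.nx 532 262145 (.lg 2 false 4 89 89 16 69237 159120) .out)) .out)))) .out) .out) (.nx 557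
  2642247 (.nr 556 881745 (.nr 537 52 .s1 (.nx 540 222 (.nx 539 221 (.nr 538 674 (.l1 (.ls 31 37
  907)) (.l1 .sk)) (.l1 .sk)) (.nx 547 32769 (.lg 0 false 7 97 101 29 0 1113840) (.nr 555 92683
  (.nr 552 674 (.lg 0 true 5 73 73 23 0 159120) (.nx 554 262145 (.lg 2 true 2 97 97 19 69237
  159120) .out)) .out)))) .out) .out)))))) (.na 719 90 (.na 627 78 (.na 582 67 (.na 559 65 .ne (.nx
  581 2642247 (.nr 580 2097153 (.nr 560 64 .s1 (.nx 562 221 (.nr 561 705 (.l1 (.ls 29 31 754)) (.l1
  .sk)) (.nx 563 222 (.l1 .sk) (.nx 564 408 (.l1 (.ls 79 37 1805)) (.nr 579 1048577 (.nx 571 32769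
  (.lg 0 false 7 89 97 23 0 556920) (.nr 578 65537 (.nr 575 705 (.lg 0 true 4 73 73 19 0 159120)
  (.nx 577 416129 (.lg 2 false 2 89 89 17 65224 159120) .out)) .out)) .out))))) .out) .out)) (.na
  606 74 (.nx 605 2642247 (.nr 604 2097153 (.nr 583 66 .s1 (.nx 595 32769 (.nx 585 221 (.nr 584 779
  (.l1 (.ls 23 23 731)) (.l1 .sk)) (.nx 586 222 (.l1 .sk) (.nx 587 408 (.l1 (.ls 83 29 1751)) (.nr
  594 1048577 (.lg 0 false 7 97 101 17 0 556920) .out)))) (.nr 603 65537 (.nr 600 779 (.lg 0 true 5
  73 73 16 0 79560) (.nx 602 416129 (.lg 2 true 2 89 89 16 59028 31824) .out)) .out))) .out) .out)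
  (.nx 626 2642247 (.nr 625 2097153 (.nr 607 73 .s1 (.nx 616 32769 (.nx 608 408 (.l1 (.ls 83 43
  2252)) (.nr 615 1048577 (.lg 0 false 7 97 101 23 0 1113840) .out)) (.nr 624 65537 (.nr 621 821
  (.lg 0 true 5 73 73 23 0 159120) (.nx 623 416129 (.lg 2 true 2 89 89 19 56008 159120) .out))
  .out))) .out) .out))) (.na 663 81 (.na 646 79 (.nx 645 2642247 (.nr 644 2097153 (.nr 628 77 .s1
  (.nx 629 408 (.l1 (.ls 83 47 2137)) (.nr 643 1048577 (.nx 634 32769 (.lg 0 false 5 97 97 31 0
  159120) (.nr 642 65537 (.nr 639 832 (.lg 0 true 5 73 73 31 0 159120) (.nx 641 416129 (.lg 2 false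
  2 83 83 29 55268 31824) .out)) .out)) .out))) .out) .out) (.nx 662 2642247 (.nr 661 2097153 (.nr
  647 78 .s1 (.nx 653 32769 (.nx 648 408 (.l1 (.ls 73 29 2110)) (.nr 652 1048577 (.lg 0 false 4 101
  101 16 0 159120) .out)) (.nr 660 65537 (.nr 657 853 (.lg 0 true 4 71 71 16 0 31824) (.nx 659
  416129 (.lg 2 true 2 89 89 16 53907 159120) .out)) .out))) .out) .out)) (.na 683 82 (.nx 682
  2642247 (.nr 681 2097153 (.nr 664 80 .s1 (.nx 673 32769 (.nx 665 408 (.l1 (.ls 79 37 2058)) (.nr
  672 1048577 (.lg 0 false 7 89 97 19 0 556920) .out)) (.nr 680 65537 (.nr 677 863 (.lg 0 true 4 71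
  71 19 0 31824) (.nx 679 416129 (.lg 2 true 2 83 83 17 53282 159120) .out)) .out))) .out) .out)
  (.na 704 83 (.nx 703 2642247 (.nr 702 2097153 (.nr 684 81 .s1 (.nx 685 408 (.l1 (.ls 83 37 2033))
  (.nr 701 1048577 (.nx 692 32769 (.lg 0 false 7 97 101 23 0 1113840) (.nr 700 65537 (.nr 697 874
  (.lg 0 true 5 73 73 23 0 159120) (.nx 699 416129 (.lg 2 true 2 83 83 19 52612 31824) .out))
  .out)) .out))) .out) .out) (.nx 718 2642247 (.nr 717 2097153 (.nr 705 82 .s1 (.nx 706 408 (.l1
  (.ls 79 29 2008)) (.nr 716 1048577 (.nx 710 32769 (.lg 0 false 4 101 101 16 0 159120) (.nr 715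
  65537 (.nr 713 948 (.lg 0 true 3 71 71 16 0 15912) (.nx 714 416129 (.lg 2 true 1 89 89 16 49006
  15912) .out)) .out)) .out))) .out) .out))))) (.na 775 97 (.na 738 94 (.na 737 91 (.nx 736 2642247
  (.nr 735 2097153 (.nr 720 89 .s1 (.nx 723 222 (.nx 722 221 (.nr 721 958 (.l1 (.ls 37 37 545))
  (.l1 .sk)) (.l1 .sk)) (.nx 730 32769 (.nx 724 408 (.l1 (.ls 89 43 1305)) (.nr 729 1048577 (.nr
  726 262145 (.lg 0 false 2 97 97 31 0 159120) (.nx 728 20644 (.lg 0 false 2 101 101 31 0 159120)
  .out)) .out)) (.nr 734 65537 (.nr 732 958 (.lg 0 true 2 79 79 31 0 159120) (.nx 733 416129 (.lg 2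
  true 1 97 97 29 49006 159120) .out)) .out)))) .out) .out) .ne) (.na 757 95 (.nx 756 2642247 (.nr
  755 2097153 (.nr 739 93 .s1 (.nx 748 26009 (.nx 740 408 (.l1 (.ls 83 37 1773)) (.nr 747 1482912
  (.lg 0 false 7 97 101 23 0 1113840) .out)) (.nr 754 65537 (.nr 751 513 (.lg 0 true 3 71 71 19 0
  31824) (.nx 753 416129 (.lg 2 false 2 89 89 19 89635 159120) .out)) .out))) .out) .out) (.nx 774
  2642247 (.nr 773 2097153 (.nr 758 94 .s1 (.nx 762 408 (.nx 760 221 (.nr 759 1021 (.l1 (.ls 37 29
  517)) (.l1 .sk)) (.nx 761 222 (.l1 .sk) (.l1 (.ls 89 31 1236)))) (.nr 772 1482912 (.nx 766 26009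
  (.lg 0 false 4 97 103 17 0 159120) (.nr 771 65537 (.nr 769 1021 (.lg 0 true 3 79 79 17 0 79560)
  (.nx 770 416129 (.lg 2 true 1 97 97 17 61744 79560) .out)) .out)) .out))) .out) .out))) (.na 810
  106 (.na 791 102 (.nx 790 2642247 (.nr 789 2097153 (.nr 776 96 .s1 (.nx 782 26009 (.nx 777 408
  (.l1 (.ls 79 29 1719)) (.nr 781 1482912 (.lg 0 false 4 89 89 17 0 31824) .out)) (.nr 788 65537
  (.nr 785 513 (.lg 0 true 3 67 67 16 0 15912) (.nx 787 416129 (.lg 2 false 2 83 83 16 89635 31824)
  .out)) .out))) .out) .out) (.nx 809 2642247 (.nr 808 2097153 (.nr 792 101 .s1 (.nx 801 26009 (.nx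
  793 408 (.l1 (.ls 79 43 1634)) (.nr 800 1482912 (.lg 0 false 7 89 89 37 0 1113840) .out)) (.nr
  807 65537 (.nr 804 513 (.lg 0 true 3 67 67 31 0 31824) (.nx 806 416129 (.lg 2 false 2 83 83 29
  89635 159120) .out)) .out))) .out) .out)) (.na 827 109 (.nx 826 2642247 (.nr 825 2097153 (.nr 811
  105 .s1 (.nx 818 26009 (.nx 812 408 (.l1 (.ls 83 37 1573)) (.nr 817 1482912 (.lg 0 false 5 97 101
  23 0 159120) .out)) (.nr 824 65537 (.nr 821 1147 (.lg 0 true 3 73 73 23 0 31824) (.nx 823 416129
  (.lg 2 false 2 83 83 19 61744 31824) .out)) .out))) .out) .out) (.na 842 111 (.nx 841 2642247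
  (.nr 840 2097153 (.nr 828 108 .s1 (.nx 829 408 (.l1 (.ls 73 29 1530)) (.nr 839 1482912 (.nx 833
  26009 (.lg 0 false 4 89 89 17 0 159120) (.nr 838 65537 (.nr 836 1169 (.lg 0 true 3 67 67 16 0
  15912) (.nx 837 416129 (.lg 2 true 1 79 79 16 61744 15912) .out)) .out)) .out))) .out) .out) (.nx
  861 2642247 (.nr 860 2097153 (.nr 843 111 .s1 (.nx 852 26009 (.nx 847 408 (.nx 845 221 (.nr 844
  1200 (.l1 (.ls 31 23 443)) (.l1 .sk)) (.nx 846 222 (.l1 .sk) (.l1 (.ls 89 31 1058)))) (.nr 851
  1482912 (.lg 0 false 4 97 97 23 0 31824) .out)) (.nr 859 65537 (.nx 856 416129 (.nr 854 32769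
  (.lg 0 true 2 101 101 19 0 159120) (.nx 855 165142 (.lg 2 false 1 83 83 17 61744 15912) .out))
  (.nr 858 513 (.lg 0 true 2 73 73 19 0 31824) .out)) .out))) .out) .out)))))))

theorem c90 :
    OkQ ckI L9 192 1 6 0 34359738368 1 1099511627776 ∧
    OkQ ckI L10 221 15 114 0 34359738368 1 1099511627776 := by
  refine ⟨?_, ?_⟩
  · refine fin 48 1206 T90_0 ?_
    refine jn 8 (by decide +kernel) ?_
    refine jn 13 (by decide +kernel) ?_
    refine jn 18 (by decide +kernel) ?_
    refine jn 21 (by decide +kernel) ?_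
    refine jn 27 (by decide +kernel) ?_
    refine jn 31 (by decide +kernel) ?_
    refine jn 35 (by decide +kernel) ?_
    refine jn 41 (by decide +kernel) ?_
    refine jn 42 (by decide +kernel) ?_
    refine jn 46 (by decide +kernel) ?_
    refine jn 51 (by decide +kernel) ?_
    refine jn 56 (by decide +kernel) ?_
    refine jn 62 (by decide +kernel) ?_
    refine jn 64 (by decide +kernel) ?_
    refine jn 69 (by decide +kernel) ?_
    refine jn 74 (by decide +kernel) ?_
    refine jn 78 (by decide +kernel) ?_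
    refine jn 91 (by decide +kernel) ?_
    refine jn 127 (by decide +kernel) ?_
    refine jn 138 (by decide +kernel) ?_
    refine jn 148 (by decide +kernel) ?_
    refine jn 158 (by decide +kernel) ?_
    refine jn 168 (by decide +kernel) ?_
    refine jn 178 (by decide +kernel) ?_
    refine jn 189 (by decide +kernel) ?_
    refine jn 200 (by decide +kernel) ?_
    refine jn 205 (by decide +kernel) ?_
    refine jn 223 (by decide +kernel) ?_
    refine jn 243 (by decide +kernel) ?_
    refine jn 260 (by decide +kernel) ?_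
    refine jn 278 (by decide +kernel) ?_
    refine jn 293 (by decide +kernel) ?_
    refine jn 304 (by decide +kernel) ?_
    refine jn 320 (by decide +kernel) ?_
    refine jn 337 (by decide +kernel) ?_
    refine jn 353 (by decide +kernel) ?_
    refine jn 369 (by decide +kernel) ?_
    refine jn 381 (by decide +kernel) ?_
    refine jn 406 (by decide +kernel) ?_
    refine jn 419 (by decide +kernel) ?_
    refine jn 428 (by decide +kernel) ?_
    refine jn 436 (by decide +kernel) ?_
    refine jn 445 (by decide +kernel) ?_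
    refine jn 452 (by decide +kernel) ?_
    refine jn 461 (by decide +kernel) ?_
    refine jn 467 (by decide +kernel) ?_
    refine jn 480 (by decide +kernel) ?_
    refine jn 494 (by decide +kernel) ?_
    refine jn 509 (by decide +kernel) ?_
    refine jn 522 (by decide +kernel) ?_
    refine jn 542 (by decide +kernel) ?_
    refine jn 559 (by decide +kernel) ?_
    refine jn 585 (by decide +kernel) ?_
    refine jn 610 (by decide +kernel) ?_
    refine jn 625 (by decide +kernel) ?_
    refine jn 647 (by decide +kernel) ?_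
    refine jn 672 (by decide +kernel) ?_
    refine jn 696 (by decide +kernel) ?_
    refine jn 721 (by decide +kernel) ?_
    refine jn 735 (by decide +kernel) ?_
    refine jn 744 (by decide +kernel) ?_
    refine jn 753 (by decide +kernel) ?_
    refine jn 761 (by decide +kernel) ?_
    refine jn 777 (by decide +kernel) ?_
    refine jn 787 (by decide +kernel) ?_
    refine jn 793 (by decide +kernel) ?_
    refine jn 843 (by decide +kernel) ?_
    refine jn 856 (by decide +kernel) ?_
    refine jn 887 (by decide +kernel) ?_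
    refine jn 907 (by decide +kernel) ?_
    refine jn 926 (by decide +kernel) ?_
    refine jn 956 (by decide +kernel) ?_
    refine jn 971 (by decide +kernel) ?_
    refine jn 983 (by decide +kernel) ?_
    refine jn 992 (by decide +kernel) ?_
    refine jn 993 (by decide +kernel) ?_
    refine jn 994 (by decide +kernel) ?_
    refine jn 995 (by decide +kernel) ?_
    refine jn 996 (by decide +kernel) ?_
    refine jn 998 (by decide +kernel) ?_
    refine jn 1000 (by decide +kernel) ?_
    refine jn 1001 (by decide +kernel) ?_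
    refine jn 1002 (by decide +kernel) ?_
    refine jn 1004 (by decide +kernel) ?_
    refine jn 1015 (by decide +kernel) ?_
    refine jn 1024 (by decide +kernel) ?_
    refine jn 1027 (by decide +kernel) ?_
    refine jn 1030 (by decide +kernel) ?_
    refine jn 1032 (by decide +kernel) ?_
    refine jn 1034 (by decide +kernel) ?_
    refine jn 1036 (by decide +kernel) ?_
    refine jn 1038 (by decide +kernel) ?_
    refine jn 1039 (by decide +kernel) ?_
    refine jn 1050 (by decide +kernel) ?_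
    refine jn 1061 (by decide +kernel) ?_
    refine jn 1072 (by decide +kernel) ?_
    refine jn 1081 (by decide +kernel) ?_
    refine jn 1089 (by decide +kernel) ?_
    refine jn 1095 (by decide +kernel) ?_
    refine jn 1106 (by decide +kernel) ?_
    refine jn 1111 (by decide +kernel) ?_
    refine jn 1116 (by decide +kernel) ?_
    refine jn 1127 (by decide +kernel) ?_
    refine jn 1134 (by decide +kernel) ?_
    refine jn 1145 (by decide +kernel) ?_
    refine jn 1149 (by decide +kernel) ?_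
    refine jn 1176 (by decide +kernel) ?_
    refine jn 1202 (by decide +kernel) ?_
    exact je (by decide +kernel)
  · refine fin 15912 862 T90_1 ?_
    refine jn 4 (by decide +kernel) ?_
    refine jn 5 (by decide +kernel) ?_
    refine jn 6 (by decide +kernel) ?_
    refine jn 7 (by decide +kernel) ?_
    refine jn 8 (by decide +kernel) ?_
    refine jn 9 (by decide +kernel) ?_
    refine jn 10 (by decide +kernel) ?_
    refine jn 11 (by decide +kernel) ?_
    refine jn 12 (by decide +kernel) ?_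
    refine jn 13 (by decide +kernel) ?_
    refine jn 14 (by decide +kernel) ?_
    refine jn 15 (by decide +kernel) ?_
    refine jn 16 (by decide +kernel) ?_
    refine jn 17 (by decide +kernel) ?_
    refine jn 18 (by decide +kernel) ?_
    refine jn 19 (by decide +kernel) ?_
    refine jn 20 (by decide +kernel) ?_
    refine jn 21 (by decide +kernel) ?_
    refine jn 22 (by decide +kernel) ?_
    refine jn 23 (by decide +kernel) ?_
    refine jn 24 (by decide +kernel) ?_
    refine jn 27 (by decide +kernel) ?_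
    refine jn 31 (by decide +kernel) ?_
    refine jn 34 (by decide +kernel) ?_
    refine jn 36 (by decide +kernel) ?_
    refine jn 38 (by decide +kernel) ?_
    refine jn 40 (by decide +kernel) ?_
    refine jn 42 (by decide +kernel) ?_
    refine jn 44 (by decide +kernel) ?_
    refine jn 46 (by decide +kernel) ?_
    refine jn 48 (by decide +kernel) ?_
    refine jn 50 (by decide +kernel) ?_
    refine jn 52 (by decide +kernel) ?_
    refine jn 54 (by decide +kernel) ?_
    refine jn 56 (by decide +kernel) ?_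
    refine jn 58 (by decide +kernel) ?_
    refine jn 60 (by decide +kernel) ?_
    refine jn 64 (by decide +kernel) ?_
    refine jn 69 (by decide +kernel) ?_
    refine jn 74 (by decide +kernel) ?_
    refine jn 76 (by decide +kernel) ?_
    refine jn 80 (by decide +kernel) ?_
    refine jn 88 (by decide +kernel) ?_
    refine jn 100 (by decide +kernel) ?_
    refine jn 114 (by decide +kernel) ?_
    refine jn 133 (by decide +kernel) ?_
    refine jn 153 (by decide +kernel) ?_
    refine jn 157 (by decide +kernel) ?_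
    refine jn 161 (by decide +kernel) ?_
    refine jn 168 (by decide +kernel) ?_
    refine jn 175 (by decide +kernel) ?_
    refine jn 182 (by decide +kernel) ?_
    refine jn 195 (by decide +kernel) ?_
    refine jn 205 (by decide +kernel) ?_
    refine jn 213 (by decide +kernel) ?_
    refine jn 220 (by decide +kernel) ?_
    refine jn 224 (by decide +kernel) ?_
    refine jn 229 (by decide +kernel) ?_
    refine jn 236 (by decide +kernel) ?_
    refine jn 243 (by decide +kernel) ?_
    refine jn 254 (by decide +kernel) ?_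
    refine jn 264 (by decide +kernel) ?_
    refine jn 291 (by decide +kernel) ?_
    refine jn 307 (by decide +kernel) ?_
    refine jn 316 (by decide +kernel) ?_
    refine jn 318 (by decide +kernel) ?_
    refine jn 321 (by decide +kernel) ?_
    refine jn 323 (by decide +kernel) ?_
    refine jn 326 (by decide +kernel) ?_
    refine jn 329 (by decide +kernel) ?_
    refine jn 330 (by decide +kernel) ?_
    refine jn 332 (by decide +kernel) ?_
    refine jn 335 (by decide +kernel) ?_
    refine jn 340 (by decide +kernel) ?_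
    refine jn 344 (by decide +kernel) ?_
    refine jn 366 (by decide +kernel) ?_
    refine jn 378 (by decide +kernel) ?_
    refine jn 395 (by decide +kernel) ?_
    refine jn 403 (by decide +kernel) ?_
    refine jn 414 (by decide +kernel) ?_
    refine jn 419 (by decide +kernel) ?_
    refine jn 421 (by decide +kernel) ?_
    refine jn 423 (by decide +kernel) ?_
    refine jn 425 (by decide +kernel) ?_
    refine jn 430 (by decide +kernel) ?_
    refine jn 435 (by decide +kernel) ?_
    refine jn 450 (by decide +kernel) ?_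
    refine jn 460 (by decide +kernel) ?_
    refine jn 475 (by decide +kernel) ?_
    refine jn 484 (by decide +kernel) ?_
    refine jn 499 (by decide +kernel) ?_
    refine jn 508 (by decide +kernel) ?_
    refine jn 523 (by decide +kernel) ?_
    refine jn 532 (by decide +kernel) ?_
    refine jn 547 (by decide +kernel) ?_
    refine jn 554 (by decide +kernel) ?_
    refine jn 571 (by decide +kernel) ?_
    refine jn 577 (by decide +kernel) ?_
    refine jn 594 (by decide +kernel) ?_
    refine jn 602 (by decide +kernel) ?_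
    refine jn 615 (by decide +kernel) ?_
    refine jn 623 (by decide +kernel) ?_
    refine jn 639 (by decide +kernel) ?_
    refine jn 652 (by decide +kernel) ?_
    refine jn 659 (by decide +kernel) ?_
    refine jn 672 (by decide +kernel) ?_
    refine jn 679 (by decide +kernel) ?_
    refine jn 692 (by decide +kernel) ?_
    refine jn 699 (by decide +kernel) ?_
    refine jn 713 (by decide +kernel) ?_
    refine jn 724 (by decide +kernel) ?_
    refine jn 728 (by decide +kernel) ?_
    refine jn 733 (by decide +kernel) ?_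
    refine jn 747 (by decide +kernel) ?_
    refine jn 758 (by decide +kernel) ?_
    refine jn 766 (by decide +kernel) ?_
    refine jn 769 (by decide +kernel) ?_
    refine jn 781 (by decide +kernel) ?_
    refine jn 792 (by decide +kernel) ?_
    refine jn 804 (by decide +kernel) ?_
    refine jn 817 (by decide +kernel) ?_
    refine jn 828 (by decide +kernel) ?_
    refine jn 837 (by decide +kernel) ?_
    refine jn 847 (by decide +kernel) ?_
    refine jn 848 (by decide +kernel) ?_
    refine jn 849 (by decide +kernel) ?_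
    refine jn 850 (by decide +kernel) ?_
    refine jn 851 (by decide +kernel) ?_
    refine jn 852 (by decide +kernel) ?_
    refine jn 853 (by decide +kernel) ?_
    refine jn 854 (by decide +kernel) ?_
    refine jn 855 (by decide +kernel) ?_
    exact je (by decide +kernel)

end Pool.Agent.MP_2339ce_nt.NR
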