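import Pool.Agent.MP_2339ce_nt.Q2.NC.L9
import Pool.Agent.MP_2339ce_nt.Q2.NC.L10
import Pool.Agent.MP_2339ce_nt.Q2.CkI

/-! Block NR: runs. -/

set_option autoImplicit false
set_option maxRecDepth 100000

noncomputable section

namespace Pool.Agent.MP_2339ce_nt.NR

open Q2.Top

def T91_0 : Ph :=
  (.na 1051 18 (.na 864 9 (.na 470 6 (.na 1 2 .ne (.na 469 3 (.nx 468 3329023 (.nr 467 1763489 (.nx
  121 38221 (.nx 3 237 (.nr 2 29 (.lg 0 false 1 41 41 5 0 3792) (.l1 .sk)) (.nx 4 238 (.l1 .sk)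
  (.nr 69 262145 (.lg 0 false 65 103 109 13 0 56936880) (.nx 104 408 (.lg 0 false 35 73 89 13 0
  132720) (.nx 105 26007 .out (.nr 120 311745 (.lg 0 false 15 103 107 9 0 56936880) .out)))))) (.nr
  466 311745 (.nx 430 1321124 (.nr 156 941 (.lg 0 true 35 97 101 13 0 132720) (.nx 429 1048577 (.nx
  191 52017 (.lg 1 false 35 103 107 13 229245 56936880) (.nr 428 262145 (.nx 226 65537 (.lg 1 false
  35 103 109 13 141665 56936880) (.nr 239 3446 (.lg 2 true 13 101 103 9 132048 11387376) (.nx 427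
  832257 (.nx 274 82572 (.lg 1 false 35 103 109 13 112440 56936880) (.nr 426 220437 (.nx 309 116773
  (.lg 1 false 35 103 109 13 75057 56936880) (.nx 344 165142 (.lg 1 false 35 103 109 13 53074
  56936880) (.nr 425 155873 (.nr 354 6599 (.lg 2 true 10 97 101 9 28620 4379760) (.nr 389 92683
  (.lg 2 false 35 101 109 13 15803 56936880) (.nx 424 262145 (.lg 2 false 35 101 109 13 26549
  56936880) .out))) .out))) .out)) .out))) .out)) .out)) (.nr 465 154 (.lg 0 true 35 73 89 13 0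
  132720) .out)) .out)) .out) .out) .ne)) (.na 678 7 (.nx 677 21137969 (.nr 676 1048577 (.nx 473
  238 (.nx 472 237 (.nr 471 75 (.lg 0 true 1 37 37 7 0 11376) (.l1 .sk)) (.l1 .sk)) (.nx 500 52015
  (.nr 486 220437 (.lg 0 false 13 107 109 13 0 56936880) (.nx 499 814 (.lg 0 false 13 83 83 13 0
  147888) .out)) (.nr 675 311745 (.nr 555 75 (.lg 0 true 55 83 83 13 0 625680) (.nx 674 2642247
  (.nx 660 832257 (.nx 569 82570 (.nr 568 262145 (.lg 1 false 13 103 107 13 141670 56936880) .out)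
  (.nr 582 941 (.lg 0 true 13 89 89 13 0 147888) (.nr 593 6606 (.lg 2 true 11 97 97 13 104807
  4379760) (.nx 646 262145 (.nx 606 112360 (.lg 1 false 13 101 103 13 106115 5176080) (.nx 632
  208065 (.nx 619 152899 (.lg 1 false 13 103 107 13 77981 56936880) (.lg 1 false 13 103 107 13
  57306 56936880)) (.nr 645 262145 (.lg 1 true 13 101 103 13 35417 5176080) .out))) (.nr 659 131073
  (.lg 2 false 13 101 103 13 14930 5176080) .out))))) (.nr 673 257 (.lg 0 true 13 73 73 13 0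
  147888) .out)) .out)) .out))) .out) .out) (.na 863 8 (.nx 862 21137969 (.nr 861 1246976 (.nx 681
  238 (.nx 680 237 (.nr 679 86 (.lg 0 true 1 31 31 9 0 39816) (.l1 .sk)) (.l1 .sk)) (.nr 855 741457
  (.nx 713 52015 (.nr 707 262145 (.nr 701 220437 (.lg 0 false 20 101 107 16 0 4379760) (.nx 706
  2582 (.lg 0 false 5 73 83 16 0 199080) .out)) (.nx 712 814 (.lg 0 false 5 83 83 16 0 66360)
  .out)) (.nr 854 311745 (.nx 818 2642247 (.nx 807 1321124 (.nr 723 642 (.lg 0 true 10 89 89 16 0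
  132720) (.nx 806 832257 (.nr 728 2833 (.lg 2 true 5 89 89 16 153618 66360) (.nr 733 12496 (.lg 2
  true 5 89 97 16 34813 199080) (.nx 774 121356 (.nx 754 82570 (.nr 753 262145 (.lg 1 false 20 101
  109 16 141670 56936880) .out) (.lg 1 false 20 101 109 16 106115 56936880)) (.nx 794 262145 (.lg 1
  true 20 103 109 16 72200 56936880) (.nr 805 155873 (.nr 799 65537 (.lg 2 false 5 89 97 16 7893
  199080) (.nx 804 330282 (.lg 1 true 5 103 103 16 16725 4379760) .out)) .out))))) .out)) (.nr 817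
  154 (.lg 0 true 10 73 73 16 0 132720) .out)) (.nr 853 47 (.lg 0 true 35 73 83 16 0 66360) .out))
  .out)) (.nx 860 324 (.lg 0 false 5 67 67 16 0 66360) .out))) .out) .out) .ne))) (.na 958 12 (.na
  865 10 (.lg 0 false 1 0 0 7 0 24) (.na 866 11 .ne (.nx 957 2642247 (.nr 956 1246976 (.nx 948
  1321124 (.nx 868 237 (.nr 867 130 (.lg 0 false 1 31 31 9 0 312840) (.l1 .sk)) (.nx 869 238 (.l1
  .sk) (.nx 897 65536 (.nx 870 324 (.l1 (.ls 89 37 4396)) (.nr 896 1048577 (.nx 871 408 (.l1 (.ls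
  89 41 5592)) (.nr 895 741457 (.nr 887 262145 (.lg 0 false 16 103 109 16 0 56936880) (.nx 894 1292
  (.lg 0 false 7 73 83 16 0 145992) .out)) .out)) .out)) (.nr 947 311745 (.nr 911 9242 (.nr 904
  1096 (.lg 0 true 7 89 89 16 0 145992) (.lg 2 true 7 97 101 16 142841 28468440)) (.nx 939 262145
  (.nx 932 185364 (.nx 918 92681 (.lg 1 false 7 101 103 16 133697 28468440) (.nx 925 131072 (.lg 1
  false 7 101 103 16 94539 28468440) (.lg 1 false 7 101 103 16 66848 28468440))) (.lg 1 true 7 101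
  103 16 47269 28468440)) (.nr 946 185365 (.lg 2 false 7 101 103 16 19885 28468440) .out)))
  .out)))) (.nr 955 65 (.lg 0 true 7 67 67 16 0 145992) .out)) .out) .out))) (.na 959 14 .ne (.na
  1050 16 (.nx 1049 2642247 (.nr 1048 1246976 (.nx 962 238 (.nx 961 237 (.nr 960 174 (.lg 0 true 1
  31 31 11 0 26544) (.l1 .sk)) (.l1 .sk)) (.nx 1040 660563 (.nx 963 324 (.l1 (.ls 89 43 3455)) (.nr
  1039 1048577 (.nx 964 408 (.l1 (.ls 89 43 4395)) (.nr 1038 741457 (.nx 983 41285 (.nr 977 220437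
  (.lg 0 false 13 101 107 19 0 56936880) (.nx 982 1627 (.lg 0 false 5 89 89 13 0 132720) .out))
  (.nr 1037 311745 (.nr 988 1608 (.lg 0 true 5 89 89 13 0 132720) (.nx 1029 330282 (.nx 1015 165142
  (.nx 1002 82570 (.nr 1001 262145 (.lg 1 false 13 101 107 19 178490 56936880) .out) (.lg 1 false
  13 101 109 19 106115 56936880)) (.nr 1028 262145 (.lg 1 true 13 101 107 19 44622 56936880) .out))
  (.nr 1036 77937 (.nr 1031 7087 (.lg 2 true 2 89 89 13 48680 26544) (.lg 2 false 5 89 97 13 11046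
  398160)) .out))) .out)) .out)) .out)) (.nr 1047 65 (.lg 0 true 7 71 71 13 0 26544) .out))) .out)
  .out) .ne)))) (.na 1246 32 (.na 1161 23 (.na 1052 21 (.lg 0 false 1 0 0 7 0 24) (.na 1108 22 (.nx
  1107 2642247 (.nr 1106 1246976 (.nr 1053 15 .s1 (.nx 1056 238 (.nx 1055 237 (.nr 1054 240 (.lg 0
  false 1 29 29 16 0 199080) (.l1 .sk)) (.l1 .sk)) (.nx 1100 660563 (.nx 1057 408 (.l1 (.ls 83 43
  5232)) (.nr 1099 741457 (.nr 1089 220437 (.nx 1068 54749 (.lg 0 false 11 97 103 19 0 28468440)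
  (.nr 1077 77937 (.nr 1072 1726 (.lg 0 true 4 83 83 17 0 79632) (.nx 1076 524289 (.lg 2 false 4 97
  101 17 40102 398160) .out)) (.nx 1088 416129 (.lg 2 false 11 97 103 19 113200 28468440) .out)))
  (.nx 1098 13005 (.nr 1093 311745 (.lg 0 false 4 89 97 17 0 398160) (.nx 1097 1627 (.lg 0 false 4
  73 83 17 0 79632) .out)) .out)) .out)) (.nr 1105 129 (.lg 0 true 5 67 67 17 0 199080) .out))))
  .out) .out) (.nx 1160 2642247 (.nr 1159 1246976 (.nr 1109 16 .s1 (.nx 1112 238 (.nx 1111 237 (.nr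
  1110 251 (.lg 0 true 1 29 29 9 0 875952) (.l1 .sk)) (.l1 .sk)) (.nx 1113 408 (.l1 (.ls 89 47
  4994)) (.nr 1158 741457 (.nx 1152 660563 (.nr 1140 220437 (.nx 1118 54749 (.lg 0 false 5 103 103
  19 0 4379760) (.nr 1123 4475 (.lg 0 true 5 89 89 19 0 208560) (.nx 1139 524289 (.nx 1133 208065
  (.nx 1128 106731 (.lg 1 false 5 101 103 19 113200 4379760) (.lg 1 true 5 101 103 19 58067
  4379760)) (.nr 1138 155873 (.lg 2 false 5 101 101 19 21072 4379760) .out)) .out))) (.nx 1151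
  13005 (.nr 1145 311745 (.lg 0 false 5 89 97 19 0 4379760) (.nx 1150 1627 (.lg 0 false 5 73 83 19
  0 208560) .out)) .out)) (.nr 1157 129 (.lg 0 true 5 67 67 19 0 208560) .out)) .out)))) .out)
  .out))) (.na 1204 26 (.nx 1203 2642247 (.nr 1202 1048577 (.nr 1162 18 .s1 (.nx 1165 238 (.nx 1164
  237 (.nr 1163 283 (.lg 0 false 1 23 23 11 0 1896) (.l1 .sk)) (.l1 .sk)) (.nx 1184 82572 (.nx 1166
  408 (.l1 (.ls 83 41 4777)) (.nr 1183 741457 (.nr 1171 185365 (.lg 0 false 5 103 103 16 0 199080)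
  (.nx 1182 16385 (.nr 1176 524289 (.lg 0 false 5 101 101 16 0 199080) (.nx 1181 2582 (.lg 0 false
  5 73 73 16 0 9480) .out)) .out)) .out)) (.nr 1201 131073 (.nr 1195 1841 (.nx 1189 660563 (.lg 0
  true 5 73 73 16 0 9480) (.nr 1194 129 (.lg 0 true 5 67 67 16 0 9480) .out)) (.nx 1200 524289 (.lg
  2 false 5 101 101 16 44662 199080) .out)) .out)))) .out) .out) (.na 1245 27 (.nx 1244 2642247
  (.nr 1243 1048577 (.nr 1205 21 .s1 (.nx 1237 660563 (.nx 1225 82572 (.nx 1207 237 (.nr 1206 294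
  (.lg 0 false 1 31 31 11 0 5176080) (.l1 .sk)) (.nx 1208 238 (.l1 .sk) (.nx 1209 408 (.l1 (.ls 83
  43 4226)) (.nr 1224 741457 (.nr 1216 185365 (.lg 0 false 7 101 103 19 0 5176080) (.nx 1223 16385
  (.lg 0 false 7 101 103 19 0 5176080) .out)) .out)))) (.nr 1236 131073 (.nr 1230 1888 (.lg 0 true
  5 73 83 19 0 246480) (.nx 1235 524289 (.lg 2 false 5 101 103 19 44662 5176080) .out)) .out)) (.nr
  1242 129 (.lg 0 true 5 67 67 19 0 246480) .out))) .out) .out) (.lg 0 false 1 0 0 7 0 24)))) (.na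
  1306 41 (.na 1247 34 .ne (.na 1276 39 (.nx 1275 2642247 (.nr 1274 881745 (.nr 1248 31 .s1 (.nx
  1250 237 (.nr 1249 425 (.lg 0 true 1 31 31 13 0 398160) (.l1 .sk)) (.nx 1251 238 (.l1 .sk) (.nx
  1252 408 (.l1 (.ls 83 43 3233)) (.nr 1273 623489 (.nx 1267 262145 (.nr 1261 185365 (.nx 1257
  65537 (.lg 0 false 5 101 103 13 0 398160) (.nr 1260 77937 (.nr 1258 1164 (.lg 0 false 1 83 83 13
  0 3792) (.lg 2 true 2 101 101 13 33501 398160)) .out)) (.nx 1266 16385 (.lg 0 false 5 101 101 13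
  0 398160) .out)) (.nr 1272 257 (.lg 0 true 5 71 71 13 0 18960) .out)) .out))))) .out) .out) (.nx
  1305 2642247 (.nr 1304 881745 (.nr 1277 36 .s1 (.nx 1281 408 (.nx 1279 237 (.nr 1278 447 (.lg 0
  false 1 23 23 16 0 369720) (.l1 .sk)) (.nx 1280 238 (.l1 .sk) (.l1 (.ls 73 41 2818)))) (.nr 1303
  623489 (.nr 1298 185365 (.nx 1285 52017 (.lg 0 false 4 97 101 17 0 739440) (.nr 1297 92683 (.nr
  1292 447 (.lg 0 true 7 71 71 19 0 517608) (.nx 1296 262145 (.lg 2 false 4 97 97 17 69495 739440)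
  .out)) .out)) (.nx 1302 16385 (.lg 0 false 4 97 97 17 0 739440) .out)) .out))) .out) .out))) (.na
  1333 42 (.nx 1332 2642247 (.nr 1331 881745 (.nr 1307 39 .s1 (.nx 1326 262145 (.nx 1321 82572 (.nx
  1309 237 (.nr 1308 458 (.l1 (.ls 23 29 1372)) (.l1 .sk)) (.nx 1310 238 (.l1 .sk) (.nx 1311 408
  (.l1 (.ls 83 31 2681)) (.nr 1320 623489 (.nr 1315 185365 (.lg 0 true 4 101 101 16 0 398160) (.nx
  1319 16385 (.lg 0 false 4 101 101 16 0 398160) .out)) .out)))) (.nr 1325 65537 (.lg 0 false 4 97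
  97 16 0 398160) .out)) (.nr 1330 257 (.lg 0 true 4 71 71 16 0 3792) .out))) .out) .out) (.na 1364
  43 (.nx 1363 2642247 (.nr 1362 881745 (.nr 1334 40 .s1 (.nx 1337 238 (.nx 1336 237 (.nr 1335 469
  (.lg 0 true 1 23 23 19 0 875952) (.l1 .sk)) (.l1 .sk)) (.nx 1338 408 (.l1 (.ls 73 47 2617)) (.nr
  1361 623489 (.nx 1349 52017 (.nr 1343 185365 (.lg 0 false 5 97 97 29 0 398160) (.nx 1348 16385
  (.lg 0 false 5 89 97 29 0 398160) .out)) (.nr 1360 92683 (.nr 1354 469 (.lg 0 true 5 71 71 29 0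
  398160) (.nx 1359 262145 (.lg 2 false 5 89 97 29 66235 398160) .out)) .out)) .out)))) .out) .out)
  (.nx 1393 2642247 (.nr 1392 881745 (.nr 1365 41 .s1 (.nx 1381 52017 (.nx 1367 237 (.nr 1366 502
  (.lg 0 false 1 19 19 16 0 39816) (.l1 .sk)) (.nx 1368 238 (.l1 .sk) (.nx 1369 408 (.l1 (.ls 71 31
  2556)) (.nr 1380 623489 (.nr 1374 185365 (.lg 0 false 5 97 97 16 0 199080) (.nx 1379 16385 (.lg 0
  false 5 89 97 16 0 199080) .out)) .out)))) (.nr 1391 92683 (.nr 1386 502 (.lg 0 true 5 67 67 16 0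
  9480) (.nx 1390 262145 (.lg 2 false 4 97 97 16 61881 79632) .out)) .out))) .out) .out))))))

def T91_1 : Ph :=
  (.na 923 128 (.na 567 64 (.na 323 38 (.na 196 27 (.na 69 21 (.na 1 18 .ne (.na 2 19 (.lg 0 false
  1 0 0 7 0 24) (.nx 68 2097153 (.nr 67 1048577 (.nr 3 14 .s1 (.nx 6 193 (.nx 5 192 (.nr 4 206 (.lg
  0 false 1 31 31 11 0 5040) (.l1 .sk)) (.l1 .sk)) (.nx 25 20644 (.nx 7 324 (.l1 (.ls 83 37 3567))
  (.nr 24 623489 (.nr 18 262145 (.lg 0 false 11 97 101 16 0 55440) (.nx 23 2049 (.lg 0 false 5 83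
  83 16 0 240) .out)) .out)) (.nr 66 155873 (.nr 48 55110 (.nx 42 660563 (.nr 30 751 (.lg 0 true 5
  79 79 16 0 240) (.nx 41 416129 (.lg 2 true 11 79 79 16 53194 528) .out)) (.nr 47 129 (.lg 0 true
  5 71 71 16 0 240) .out)) (.nx 65 330282 (.nx 59 208065 (.lg 0 true 11 101 109 16 0 720720) (.nr
  64 77937 (.lg 0 true 5 97 101 16 0 5040) .out)) .out)) .out)))) .out) .out))) (.na 117 24 (.na
  116 23 (.nx 115 2097153 (.nr 114 1048577 (.nr 70 16 .s1 (.nx 90 41286 (.nx 72 192 (.nr 71 226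
  (.lg 0 true 1 29 29 16 0 5040) (.l1 .sk)) (.nx 73 193 (.l1 .sk) (.nx 74 324 (.l1 (.ls 83 41
  3228)) (.nr 89 623489 (.nr 85 262145 (.lg 0 false 11 89 101 19 0 55440) (.nx 88 2049 (.lg 0 false
  3 79 79 16 0 1008) .out)) .out)))) (.nr 113 155873 (.nr 101 751 (.lg 0 true 11 73 79 19 0 11088)
  (.nx 112 416129 (.lg 2 false 11 89 101 19 69676 55440) .out)) .out))) .out) .out) .ne) (.na 152
  26 (.nx 151 2097153 (.nr 150 1048577 (.nr 118 20 .s1 (.nx 122 324 (.nx 120 192 (.nr 119 255 (.lg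
  0 true 1 23 23 13 0 144) (.l1 .sk)) (.nx 121 193 (.l1 .sk) (.l1 (.ls 79 43 2824)))) (.nr 149
  524289 (.nx 135 41287 (.nr 133 370729 (.lg 0 false 11 89 101 23 0 55440) (.nx 134 1292 (.lg 0
  true 1 79 79 13 0 5040) .out)) (.nr 148 110219 (.nr 142 647 (.lg 0 true 7 73 73 23 0 1008) (.nx
  147 330282 (.lg 2 false 5 89 97 19 49293 5040) .out)) .out)) .out))) .out) .out) (.nx 195 2097153
  (.nr 194 1048577 (.nr 153 23 .s1 (.nx 156 193 (.nx 155 192 (.nr 154 265 (.lg 0 false 1 29 29 11 0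
  65520) (.l1 .sk)) (.l1 .sk)) (.nx 171 20644 (.nx 157 324 (.l1 (.ls 79 43 2607)) (.nr 170 524289
  (.nr 168 370729 (.lg 0 false 11 89 97 23 0 720720) (.nx 169 1292 (.lg 0 true 1 79 79 11 0 624)
  .out)) .out)) (.nr 193 131073 (.nr 190 92683 (.nr 176 663 (.lg 0 true 5 79 79 19 0 3120) (.nx 189
  330282 (.nr 183 65537 (.lg 2 true 7 73 73 19 58688 4368) (.nx 188 262145 (.lg 0 true 5 97 101 19
  0 65520) .out)) .out)) (.nx 192 52017 (.lg 0 true 2 97 97 11 0 65520) .out)) .out)))) .out)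
  .out)))) (.na 265 32 (.na 197 28 (.lg 0 false 1 0 0 7 0 24) (.na 230 31 (.nx 229 2097153 (.nr 228
  1048577 (.nr 198 25 .s1 (.nx 210 20644 (.nx 200 192 (.nr 199 304 (.lg 0 false 1 31 31 13 0 1008)
  (.l1 .sk)) (.nx 201 193 (.l1 .sk) (.nx 202 324 (.l1 (.ls 79 43 2421)) (.nr 209 524289 (.nr 207
  370729 (.lg 0 false 5 89 97 23 0 5040) (.nx 208 1292 (.lg 0 false 1 73 73 13 0 336) .out))
  .out)))) (.nr 227 131073 (.nx 215 52017 (.lg 0 false 5 89 97 23 0 5040) (.nr 226 92683 (.nr 220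
  890 (.lg 0 true 5 79 79 23 0 1680) (.nx 225 330282 (.lg 2 false 5 83 97 23 35626 5040) .out))
  .out)) .out))) .out) .out) (.nx 264 2097153 (.nr 263 1048577 (.nr 231 28 .s1 (.nx 235 324 (.nx
  233 192 (.nr 232 314 (.lg 0 false 1 23 23 13 0 5040) (.l1 .sk)) (.nx 234 193 (.l1 .sk) (.l1 (.ls
  79 29 2187)))) (.nr 262 524289 (.nx 248 52017 (.nr 242 185365 (.lg 0 false 7 89 97 16 0 5040)
  (.nx 247 13005 (.lg 0 false 5 89 97 16 0 5040) .out)) (.nr 261 92683 (.nr 255 913 (.lg 0 true 7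
  79 79 16 0 336) (.nx 260 330282 (.lg 2 false 5 89 89 16 34729 5040) .out)) .out)) .out))) .out)
  .out))) (.na 297 36 (.na 296 33 (.nx 295 2097153 (.nr 294 1048577 (.nr 266 29 .s1 (.nx 270 324
  (.nx 268 192 (.nr 267 324 (.lg 0 true 1 29 29 13 0 1008) (.l1 .sk)) (.nx 269 193 (.l1 .sk) (.l1
  (.ls 79 37 2119)))) (.nr 293 623489 (.nr 287 185365 (.nx 275 52017 (.lg 0 false 5 89 97 19 0
  5040) (.nr 286 92683 (.nr 280 936 (.lg 0 true 5 73 79 19 0 240) (.nx 285 330282 (.lg 2 false 5 83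
  97 19 33876 5040) .out)) .out)) (.nx 292 13005 (.lg 0 false 5 83 97 19 0 5040) .out)) .out)))
  .out) .out) .ne) (.na 298 37 (.lg 0 false 1 0 0 7 0 24) (.nx 322 2097153 (.nr 321 881745 (.nr 299
  35 .s1 (.nx 301 192 (.nr 300 373 (.lg 0 false 1 19 19 16 0 1008) (.l1 .sk)) (.nx 302 193 (.l1
  .sk) (.nx 309 26009 (.nx 303 324 (.l1 (.ls 73 29 1833)) (.nr 308 623489 (.lg 0 false 5 97 97 16 0
  5040) .out)) (.nr 320 77937 (.nr 314 373 (.lg 0 true 5 71 71 16 0 240) (.nx 319 208065 (.lg 2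
  false 5 89 89 16 55370 5040) .out)) .out))))) .out) .out))))) (.na 466 52 (.na 395 43 (.na 348 39
  (.nx 347 2097153 (.nr 346 881745 (.nr 324 36 .s1 (.nx 327 193 (.nx 326 192 (.nr 325 383 (.lg 0
  false 1 23 23 13 0 1008) (.l1 .sk)) (.l1 .sk)) (.nx 334 26009 (.nx 328 324 (.l1 (.ls 73 41 1785))
  (.nr 333 623489 (.lg 0 false 5 97 97 17 0 240) .out)) (.nr 345 77937 (.nr 339 383 (.lg 0 true 5
  71 71 17 0 240) (.nx 344 208065 (.lg 2 false 5 83 89 17 55370 240) .out)) .out)))) .out) .out)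
  (.na 373 42 (.nx 372 2097153 (.nr 371 881745 (.nr 349 37 .s1 (.nx 351 192 (.nr 350 412 (.l1 (.ls
  29 31 948)) (.l1 .sk)) (.nx 352 193 (.l1 .sk) (.nx 353 324 (.l1 (.ls 79 37 1739)) (.nr 370 623489
  (.nx 360 26009 (.lg 0 false 7 89 97 19 0 65520) (.nr 369 77937 (.nr 365 412 (.lg 0 true 5 71 71
  19 0 9360) (.nx 368 208065 (.lg 2 false 3 97 97 17 55370 65520) .out)) .out)) .out))))) .out)
  .out) (.nx 394 2097153 (.nr 393 881745 (.nr 374 40 .s1 (.nx 375 324 (.l1 (.ls 73 47 2502)) (.nr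
  392 623489 (.nx 380 26009 (.lg 0 false 5 89 89 29 0 5040) (.nr 391 77937 (.nr 385 422 (.lg 0 true
  5 71 71 29 0 5040) (.nx 390 208065 (.lg 2 false 5 83 83 29 55370 5040) .out)) .out)) .out)))
  .out) .out))) (.na 421 48 (.na 420 46 (.nx 419 2097153 (.nr 418 881745 (.nr 396 41 .s1 (.nx 398
  192 (.nr 397 452 (.lg 0 false 1 17 17 16 0 144) (.l1 .sk)) (.nx 399 193 (.l1 .sk) (.nx 400 324
  (.l1 (.ls 71 29 1578)) (.nr 417 623489 (.nx 405 26009 (.lg 0 false 5 89 89 16 0 720) (.nr 416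
  77937 (.nr 410 452 (.lg 0 true 5 67 67 16 0 240) (.nx 415 208065 (.lg 2 false 5 83 83 16 55370
  720) .out)) .out)) .out))))) .out) .out) .ne) (.na 443 49 (.nx 442 2097153 (.nr 441 881745 (.nr
  422 46 .s1 (.nx 425 193 (.nx 424 192 (.nr 423 481 (.l1 (.ls 23 37 770)) (.l1 .sk)) (.l1 .sk))
  (.nx 438 208065 (.nx 426 324 (.l1 (.ls 73 41 1413)) (.nr 437 741457 (.nx 434 32769 (.nx 431 16385
  (.lg 0 false 5 83 89 29 0 720) (.nr 433 155873 (.lg 0 false 2 79 83 23 0 144) .out)) (.nr 436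
  46342 (.nr 435 1323 (.lg 0 true 1 67 67 19 0 144) (.lg 2 true 1 83 83 19 26175 144)) .out))
  .out)) (.nr 440 257 (.lg 0 true 2 67 67 23 0 144) .out)))) .out) .out) (.nx 465 2097153 (.nr 464
  881745 (.nr 444 48 .s1 (.nx 445 324 (.l1 (.ls 73 31 2145)) (.nr 463 741457 (.nr 454 46342 (.nx
  450 208065 (.lg 0 false 5 79 79 17 0 1680) (.nr 453 257 (.lg 0 true 3 67 67 16 0 1008) .out))
  (.nx 462 32769 (.nx 459 16385 (.lg 0 false 5 89 89 17 0 5040) (.nr 461 155873 (.lg 0 false 2 79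
  79 16 0 336) .out)) .out)) .out))) .out) .out)))) (.na 509 57 (.na 489 54 (.nx 488 2097153 (.nr
  487 881745 (.nr 467 51 .s1 (.nx 470 193 (.nx 469 192 (.nr 468 530 (.l1 (.ls 29 37 711)) (.l1
  .sk)) (.l1 .sk)) (.nx 477 20644 (.nx 471 324 (.l1 (.ls 79 41 1305)) (.nr 476 741457 (.lg 0 false
  5 89 101 29 0 65520) .out)) (.nr 486 110219 (.nr 484 46342 (.nr 482 530 (.lg 0 true 5 71 73 29 0
  3120) (.nx 483 208065 (.lg 2 true 1 89 89 19 41549 624) .out)) (.nx 485 32769 (.lg 0 false 1 79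
  79 19 0 624) .out)) .out)))) .out) .out) (.na 490 56 (.lg 0 false 1 0 0 16 0 24) (.nx 508 2097153
  (.nr 507 881745 (.nr 491 55 .s1 (.nx 494 193 (.nx 493 192 (.nr 492 560 (.l1 (.ls 29 37 661)) (.l1
  .sk)) (.l1 .sk)) (.nx 504 208065 (.nx 495 324 (.l1 (.ls 73 37 1212)) (.nr 503 741457 (.nx 500
  32769 (.nr 497 155873 (.lg 0 false 2 89 89 23 0 5040) (.nx 499 16385 (.lg 0 false 2 89 97 23 0
  5040) .out)) (.nr 502 46342 (.nr 501 1483 (.lg 0 true 1 71 71 19 0 336) (.lg 2 true 1 83 83 19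
  26175 5040)) .out)) .out)) (.nr 506 257 (.lg 0 true 2 67 67 23 0 336) .out)))) .out) .out))) (.na
  547 62 (.na 528 61 (.nx 527 2097153 (.nr 526 881745 (.nr 510 56 .s1 (.nx 511 324 (.l1 (.ls 73 37
  1844)) (.nr 525 741457 (.nx 516 26009 (.lg 0 false 5 89 89 17 0 720) (.nr 524 65537 (.nr 521 599
  (.lg 0 true 5 67 67 17 0 720) (.nx 523 208065 (.lg 2 false 2 79 79 16 46582 144) .out)) .out))
  .out))) .out) .out) (.nx 546 2097153 (.nr 545 881745 (.nr 529 60 .s1 (.nx 536 26009 (.nx 530 324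
  (.l1 (.ls 73 29 1723)) (.nr 535 741457 (.lg 0 false 5 89 97 16 0 5040) .out)) (.nr 544 65537 (.nr
  541 609 (.lg 0 true 5 71 71 16 0 240) (.nx 543 208065 (.lg 2 false 2 83 83 16 46582 48) .out))
  .out))) .out) .out)) (.na 566 63 (.nx 565 2097153 (.nr 564 881745 (.nr 548 61 .s1 (.nx 555 26009
  (.nx 549 324 (.l1 (.ls 71 41 1696)) (.nr 554 741457 (.lg 0 false 5 89 89 19 0 720) .out)) (.nr
  563 65537 (.nr 560 618 (.lg 0 true 5 67 67 19 0 240) (.nx 562 208065 (.lg 2 false 2 79 79 17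
  46582 48) .out)) .out))) .out) .out) (.lg 0 false 1 0 0 16 0 24)))))) (.na 755 96 (.na 657 78
  (.na 604 72 (.na 586 65 (.nx 585 2097153 (.nr 584 2097153 (.nr 568 63 .s1 (.nx 572 324 (.nx 570
  192 (.nr 569 638 (.l1 (.ls 31 31 578)) (.l1 .sk)) (.nx 571 193 (.l1 .sk) (.l1 (.ls 83 31 1061))))
  (.nr 583 1048577 (.nx 576 20644 (.nr 574 741457 (.lg 0 false 2 101 103 23 0 65520) (.nx 575 8192
  .out (.lg 0 false 1 89 97 19 0 720))) (.nr 582 110219 (.nr 580 46342 (.nr 578 513 (.lg 0 true 2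
  73 73 23 0 48) (.nx 579 208065 (.lg 2 false 1 89 89 19 41549 720) .out)) (.nx 581 32769 (.lg 0
  false 1 83 89 19 0 720) .out)) .out)) .out))) .out) .out) (.na 587 67 .ne (.nx 603 2097153 (.nr
  602 2097153 (.nr 588 66 .s1 (.nx 595 20644 (.nx 589 324 (.l1 (.ls 73 29 1569)) (.nr 594 1048577
  (.lg 0 false 5 83 83 16 0 240) .out)) (.nr 601 65537 (.nr 598 513 (.lg 0 true 3 61 61 16 0 144)
  (.nx 600 131073 (.lg 2 false 2 79 79 16 58688 48) .out)) .out))) .out) .out))) (.na 622 74 (.na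
  605 73 (.lg 0 false 1 0 0 16 0 24) (.nx 621 2097153 (.nr 620 2097153 (.nr 606 72 .s1 (.nx 607 324
  (.l1 (.ls 71 29 1441)) (.nr 619 1048577 (.nx 612 20644 (.lg 0 false 5 83 83 16 0 240) (.nr 618
  65537 (.nr 615 513 (.lg 0 true 3 61 61 16 0 144) (.nx 617 131073 (.lg 2 false 2 79 79 16 58688
  48) .out)) .out)) .out))) .out) .out)) (.na 639 76 (.nx 638 2097153 (.nr 637 2097153 (.nr 623 73
  .s1 (.nx 624 324 (.l1 (.ls 79 31 1421)) (.nr 636 1048577 (.nx 629 20644 (.lg 0 false 5 83 89 23 0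
  240) (.nr 635 65537 (.nr 632 513 (.lg 0 true 3 67 67 19 0 144) (.nx 634 131073 (.lg 2 false 2 79
  79 19 58688 48) .out)) .out)) .out))) .out) .out) (.nx 656 2097153 (.nr 655 2097153 (.nr 640 75
  .s1 (.nx 642 192 (.nr 641 766 (.l1 (.ls 17 31 488)) (.l1 .sk)) (.nx 643 193 (.l1 .sk) (.nx 648
  20644 (.nx 644 324 (.l1 (.ls 79 37 894)) (.nr 647 1048577 (.lg 0 false 3 89 97 29 0 720) .out))
  (.nr 654 65537 (.nr 652 32769 (.nr 650 513 (.lg 0 true 2 71 71 23 0 48) (.nx 651 131073 (.lg 2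
  false 1 79 79 17 29430 48) .out)) (.nx 653 32769 (.lg 0 false 1 73 73 17 0 48) .out)) .out)))))
  .out) .out)))) (.na 692 84 (.na 674 79 (.nx 673 2097153 (.nr 672 2097153 (.nr 658 77 .s1 (.nx 665
  20644 (.nx 659 324 (.l1 (.ls 73 43 1348)) (.nr 664 1048577 (.lg 0 false 5 83 83 31 0 9360) .out))
  (.nr 671 65537 (.nr 668 513 (.lg 0 true 3 61 61 29 0 1872) (.nx 670 131073 (.lg 2 false 2 79 79
  29 58688 1872) .out)) .out))) .out) .out) (.na 691 81 (.nx 690 2097153 (.nr 689 2097153 (.nr 675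
  78 .s1 (.nx 676 324 (.l1 (.ls 73 29 1331)) (.nr 688 1048577 (.nx 681 20644 (.lg 0 false 5 89 97
  17 0 5040) (.nr 687 65537 (.nr 684 513 (.lg 0 true 3 67 67 16 0 144) (.nx 686 131073 (.lg 2 false
  2 79 79 16 58688 48) .out)) .out)) .out))) .out) .out) (.lg 0 false 1 0 0 16 0 24))) (.na 727 91
  (.na 710 86 (.nx 709 2097153 (.nr 708 2097153 (.nr 693 83 .s1 (.nx 697 324 (.nx 695 192 (.nr 694
  844 (.l1 (.ls 31 37 441)) (.l1 .sk)) (.nx 696 193 (.l1 .sk) (.l1 (.ls 83 41 809)))) (.nr 707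
  1048577 (.nx 700 20644 (.lg 0 false 3 89 97 31 0 5040) (.nr 706 65537 (.nr 702 513 (.lg 0 true 2
  71 71 31 0 1008) (.nx 705 131073 (.nr 703 32769 (.lg 2 true 1 79 79 29 29430 1008) (.nx 704 32769
  (.lg 0 false 1 73 73 29 0 5040) .out)) .out)) .out)) .out))) .out) .out) (.nx 726 2097153 (.nr
  725 2097153 (.nr 711 85 .s1 (.nx 712 324 (.l1 (.ls 79 37 1223)) (.nr 724 1048577 (.nx 717 20644
  (.lg 0 false 5 89 89 23 0 5040) (.nr 723 65537 (.nr 720 513 (.lg 0 true 3 67 67 19 0 144) (.nx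
  722 131073 (.lg 2 false 2 79 79 19 58688 48) .out)) .out)) .out))) .out) .out)) (.na 739 93 (.nx
  738 2097153 (.nr 737 2097153 (.nr 728 90 .s1 (.nx 732 20644 (.nx 729 324 (.l1 (.ls 83 31 1156))
  (.nr 731 1048577 (.lg 0 false 2 101 101 19 0 65520) .out)) (.nr 736 65537 (.nr 734 513 (.lg 0
  true 2 71 71 19 0 4368) (.nx 735 131073 (.lg 2 true 1 89 89 19 58688 4368) .out)) .out))) .out)
  .out) (.nx 754 2097153 (.nr 753 2097153 (.nr 740 92 .s1 (.nx 741 324 (.l1 (.ls 73 29 1131)) (.nr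
  752 1048577 (.nx 746 32769 (.lg 0 false 5 89 89 19 0 5040) (.nr 751 32769 (.nr 749 513 (.lg 0
  true 3 61 61 17 0 144) (.nx 750 131073 (.lg 2 true 1 73 73 16 24529 1008) .out)) .out)) .out)))
  .out) .out))))) (.na 838 111 (.na 797 103 (.na 767 97 (.nx 766 2097153 (.nr 765 2097153 (.nr 756
  95 .s1 (.nx 757 324 (.l1 (.ls 79 41 1096)) (.nr 764 1048577 (.nx 759 20644 (.lg 0 false 2 97 97
  29 0 5040) (.nr 763 65537 (.nr 761 513 (.lg 0 true 2 71 71 29 0 144) (.nx 762 131073 (.lg 2 true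
  1 89 89 23 58688 5040) .out)) .out)) .out))) .out) .out) (.na 782 98 (.nx 781 2097153 (.nr 780
  2097153 (.nr 768 97 .s1 (.nx 769 324 (.l1 (.ls 71 23 1085)) (.nr 779 1048577 (.nx 774 32769 (.lg
  0 false 5 79 83 17 0 720) (.nr 778 32769 (.nr 776 513 (.lg 0 true 2 59 59 16 0 48) (.nx 777
  131073 (.lg 2 true 1 67 67 16 24529 144) .out)) .out)) .out))) .out) .out) (.nx 796 2097153 (.nr
  795 2097153 (.nr 783 98 .s1 (.nx 790 32769 (.nx 784 324 (.l1 (.ls 71 37 1074)) (.nr 789 1048577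
  (.lg 0 false 5 83 83 29 0 5040) .out)) (.nr 794 32769 (.nr 792 513 (.lg 0 true 2 59 59 23 0 336)
  (.nx 793 131073 (.lg 2 true 1 71 71 19 24529 1008) .out)) .out))) .out) .out))) (.na 824 108 (.na
  812 104 (.nx 811 2097153 (.nr 810 2097153 (.nr 798 103 .s1 (.nx 799 324 (.l1 (.ls 71 23 1022))
  (.nr 809 1048577 (.nx 804 32769 (.lg 0 false 5 83 83 17 0 5040) (.nr 808 32769 (.nr 806 513 (.lg
  0 true 2 59 59 16 0 48) (.nx 807 131073 (.lg 2 true 1 67 67 16 24529 48) .out)) .out)) .out)))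
  .out) .out) (.nx 823 2097153 (.nr 822 2097153 (.nr 813 104 .s1 (.nx 817 20644 (.nx 814 324 (.l1
  (.ls 79 37 1012)) (.nr 816 1048577 (.lg 0 false 2 97 97 29 0 9360) .out)) (.nr 821 65537 (.nr 819
  513 (.lg 0 true 2 67 67 29 0 624) (.nx 820 131073 (.lg 2 true 1 83 83 23 58688 624) .out))
  .out))) .out) .out)) (.na 825 109 (.lg 0 false 1 0 0 16 0 24) (.nx 837 2097153 (.nr 836 2097153
  (.nr 826 109 .s1 (.nx 827 324 (.l1 (.ls 71 23 966)) (.nr 835 1048577 (.nx 830 20644 (.lg 0 false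
  3 79 79 16 0 144) (.nr 834 65537 (.nr 832 513 (.lg 0 true 2 59 59 16 0 48) (.nx 833 131073 (.lg 2
  true 1 73 73 16 58688 48) .out)) .out)) .out))) .out) .out)))) (.na 880 122 (.na 867 114 (.na 851
  112 (.nx 850 2097153 (.nr 849 2097153 (.nr 839 111 .s1 (.nx 844 20644 (.nx 840 324 (.l1 (.ls 73
  29 948)) (.nr 843 1048577 (.lg 0 false 3 83 83 19 0 144) .out)) (.nr 848 65537 (.nr 846 513 (.lg
  0 true 2 61 61 17 0 144) (.nx 847 131073 (.lg 2 true 1 83 83 17 58688 720) .out)) .out))) .out)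
  .out) (.nx 866 2097153 (.nr 865 2097153 (.nr 852 112 .s1 (.nx 859 20644 (.nx 854 192 (.nr 853
  1119 (.l1 (.ls 31 31 332)) (.l1 .sk)) (.nx 855 193 (.l1 .sk) (.nx 856 324 (.l1 (.ls 79 37 607))
  (.nr 858 1048577 (.lg 0 false 2 83 97 31 0 1008) .out)))) (.nr 864 65537 (.nr 862 32769 (.nx 860
  131073 (.lg 0 true 1 83 89 29 0 1008) (.nr 861 513 (.lg 0 true 1 71 71 29 0 336) .out)) (.nx 863
  32769 (.lg 0 false 1 71 73 29 0 1008) .out)) .out))) .out) .out)) (.na 879 117 (.nx 878 2097153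
  (.nr 877 2097153 (.nr 868 114 .s1 (.nx 873 20644 (.nx 869 324 (.l1 (.ls 79 41 923)) (.nr 872
  1048577 (.lg 0 false 3 89 89 31 0 5040) .out)) (.nr 876 65537 (.nr 874 513 (.lg 0 false 1 73 73
  29 0 5040) (.nx 875 131073 (.lg 2 true 1 83 83 29 58688 144) .out)) .out))) .out) .out) (.lg 0
  false 1 0 0 16 0 24))) (.na 907 126 (.na 895 124 (.nx 894 2097153 (.nr 893 2097153 (.nr 881 122
  .s1 (.nx 882 324 (.l1 (.ls 71 31 863)) (.nr 892 1048577 (.nx 887 32769 (.lg 0 false 5 83 83 23 0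
  240) (.nr 891 32769 (.nr 889 513 (.lg 0 true 2 53 53 19 0 48) (.nx 890 131073 (.lg 2 true 1 67 67
  19 24529 48) .out)) .out)) .out))) .out) .out) (.nx 906 2097153 (.nr 905 2097153 (.nr 896 124 .s1
  (.nx 897 324 (.l1 (.ls 83 29 849)) (.nr 904 1048577 (.nx 899 20644 (.lg 0 false 2 97 97 23 0
  5040) (.nr 903 65537 (.nr 901 513 (.lg 0 true 2 71 71 23 0 48) (.nx 902 131073 (.lg 2 false 1 83
  83 19 58688 48) .out)) .out)) .out))) .out) .out)) (.na 908 127 (.lg 0 false 1 0 0 16 0 24) (.nx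
  922 2097153 (.nr 921 2097153 (.nr 909 127 .s1 (.nx 910 324 (.l1 (.ls 67 23 829)) (.nr 920 1048577
  (.nx 915 32769 (.lg 0 false 5 79 79 17 0 240) (.nr 919 32769 (.nr 917 513 (.lg 0 true 2 53 53 16
  0 48) (.nx 918 131073 (.lg 2 true 1 67 67 16 24529 144) .out)) .out)) .out))) .out) .out)))))))
  (.na 1198 186 (.na 1060 156 (.na 992 144 (.na 952 133 (.na 937 129 (.nx 936 2097153 (.nr 935
  2097153 (.nr 924 128 .s1 (.nx 926 192 (.nr 925 1266 (.l1 (.ls 29 29 290)) (.l1 .sk)) (.nx 927 193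
  (.l1 .sk) (.nx 928 324 (.l1 (.ls 79 29 532)) (.nr 934 1482912 (.nx 930 20644 (.lg 0 false 2 83 97
  29 0 1008) (.nr 933 65537 (.nx 931 131073 (.lg 0 true 1 83 89 23 0 1008) (.nr 932 1025 (.lg 0
  true 1 73 73 23 0 48) .out)) .out)) .out))))) .out) .out) (.na 951 131 (.nx 950 1048577 (.nr 949
  1482912 (.nr 938 129 .s1 (.nx 940 192 (.nr 939 1286 (.l1 (.ls 23 23 288)) (.l1 .sk)) (.nx 941 193
  (.l1 .sk) (.nr 945 65537 (.nx 943 131073 (.lg 0 true 2 83 83 19 0 144) (.nr 944 1025 (.lg 0 false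
  1 71 71 17 0 144) .out)) (.nx 948 16385 (.lg 0 false 3 83 83 19 0 144) .out))))) .out) .out) (.lg
  0 false 1 0 0 16 0 24))) (.na 978 137 (.na 964 134 (.nx 963 1048577 (.nr 962 1482912 (.nr 953 133
  .s1 (.nx 955 192 (.nr 954 1315 (.l1 (.ls 17 23 280)) (.l1 .sk)) (.nx 956 193 (.l1 .sk) (.nr 959
  65537 (.nx 957 131073 (.lg 0 false 1 89 89 17 0 1008) (.nr 958 1025 (.lg 0 true 1 67 67 17 0 336)
  .out)) (.nx 961 16385 (.lg 0 false 2 89 89 17 0 1008) .out))))) .out) .out) (.nx 977 1048577 (.nr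
  976 1482912 (.nr 965 134 .s1 (.nx 967 192 (.nr 966 1345 (.l1 (.ls 17 29 278)) (.l1 .sk)) (.nx 968
  193 (.l1 .sk) (.nr 972 65537 (.nx 970 131073 (.lg 0 true 2 79 79 23 0 48) (.nr 971 1025 (.lg 0
  false 1 67 67 19 0 48) .out)) (.nx 975 16385 (.lg 0 false 3 83 83 23 0 720) .out))))) .out)
  .out)) (.na 979 139 (.lg 0 false 1 0 0 16 0 24) (.nx 991 1048577 (.nr 990 1482912 (.nr 980 139
  .s1 (.nx 983 193 (.nx 982 192 (.nr 981 1413 (.l1 (.ls 19 17 268)) (.l1 .sk)) (.l1 .sk)) (.nx 988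
  131073 (.nr 984 65537 (.lg 0 false 1 79 79 16 0 720) (.nx 987 16385 (.lg 0 false 3 79 79 17 0
  720) .out)) (.nr 989 1025 (.lg 0 false 1 61 61 16 0 48) .out)))) .out) .out)))) (.na 1022 148
  (.na 993 146 (.lg 0 false 1 0 0 16 0 24) (.na 1007 147 (.nx 1006 1048577 (.nr 1005 1482912 (.nr
  994 146 .s1 (.nx 1003 131073 (.nx 996 192 (.nr 995 1443 (.l1 (.ls 19 29 255)) (.l1 .sk)) (.nx 997
  193 (.l1 .sk) (.nr 999 65537 (.lg 0 true 2 79 79 23 0 48) (.nx 1002 16385 (.lg 0 false 3 83 83 23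
  0 144) .out)))) (.nr 1004 1025 (.lg 0 false 1 67 67 19 0 720) .out))) .out) .out) (.nx 1021
  1048577 (.nr 1020 1482912 (.nr 1008 147 .s1 (.nx 1016 32769 (.nx 1010 192 (.nr 1009 1452 (.l1
  (.ls 19 29 253)) (.l1 .sk)) (.nx 1011 193 (.l1 .sk) (.lg 0 false 5 79 83 29 0 5040))) (.nr 1019
  16385 (.nr 1017 1025 (.lg 0 false 1 67 67 19 0 1008) (.nx 1018 131073 (.lg 2 true 1 59 59 19
  12277 1008) .out)) .out))) .out) .out))) (.na 1035 151 (.na 1034 149 (.nx 1033 1048577 (.nr 1032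
  1482912 (.nr 1023 148 .s1 (.nx 1025 192 (.nr 1024 1462 (.l1 (.ls 19 29 252)) (.l1 .sk)) (.nx 1026
  193 (.l1 .sk) (.nr 1029 65537 (.nx 1027 131073 (.lg 0 false 1 83 83 23 0 144) (.nr 1028 1025 (.lg
  0 true 1 67 67 23 0 48) .out)) (.nx 1031 16385 (.lg 0 false 2 83 83 23 0 48) .out))))) .out)
  .out) (.lg 0 false 1 0 0 16 0 24)) (.na 1048 152 (.nx 1047 1048577 (.nr 1046 1482912 (.nr 1036
  151 .s1 (.nx 1038 192 (.nr 1037 1492 (.l1 (.ls 19 17 247)) (.l1 .sk)) (.nx 1039 193 (.l1 .sk)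
  (.nr 1042 65537 (.nx 1040 131073 (.lg 0 false 1 79 79 16 0 48) (.nr 1041 1025 (.lg 0 false 1 61
  61 16 0 48) .out)) (.nx 1045 16385 (.lg 0 false 3 79 79 17 0 144) .out))))) .out) .out) (.nx 1059
  1048577 (.nr 1058 1482912 (.nr 1049 152 .s1 (.nx 1056 131073 (.nx 1051 192 (.nr 1050 1531 (.l1
  (.ls 17 29 245)) (.l1 .sk)) (.nx 1052 193 (.l1 .sk) (.nx 1054 16385 (.lg 0 false 2 89 89 29 0
  1008) (.nr 1055 65537 (.lg 0 false 1 83 83 29 0 1008) .out)))) (.nr 1057 1025 (.lg 0 true 1 67 67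
  29 0 48) .out))) .out) .out))))) (.na 1131 169 (.na 1102 162 (.na 1072 157 (.nx 1071 1048577 (.nr
  1070 1482912 (.nr 1061 156 .s1 (.nx 1063 192 (.nr 1062 1541 (.l1 (.ls 31 37 239)) (.l1 .sk)) (.nx
  1064 193 (.l1 .sk) (.nr 1067 65537 (.nx 1065 131073 (.lg 0 false 1 89 89 31 0 65520) (.nr 1066
  1025 (.lg 0 true 1 67 67 31 0 1872) .out)) (.nx 1069 16385 (.lg 0 false 2 89 89 37 0 65520)
  .out))))) .out) .out) (.na 1087 158 (.nx 1086 1048577 (.nr 1085 1482912 (.nr 1073 157 .s1 (.nx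
  1076 193 (.nx 1075 192 (.nr 1074 1551 (.l1 (.ls 17 17 237)) (.l1 .sk)) (.l1 .sk)) (.nx 1081 32769
  (.lg 0 false 5 79 79 19 0 240) (.nr 1084 16385 (.nr 1082 1025 (.lg 0 false 1 61 61 16 0 48) (.nx
  1083 131073 (.lg 2 false 1 53 53 16 12277 48) .out)) .out)))) .out) .out) (.nx 1101 1048577 (.nr
  1100 1482912 (.nr 1088 158 .s1 (.nx 1091 193 (.nx 1090 192 (.nr 1089 1590 (.l1 (.ls 17 23 236))
  (.l1 .sk)) (.l1 .sk)) (.nx 1096 32769 (.lg 0 false 5 73 83 29 0 240) (.nr 1099 16385 (.nr 1097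
  1025 (.lg 0 false 1 61 61 19 0 48) (.nx 1098 131073 (.lg 2 true 1 47 47 19 12277 48) .out))
  .out)))) .out) .out))) (.na 1118 167 (.na 1103 163 (.lg 0 false 1 0 0 16 0 24) (.nx 1117 1048577
  (.nr 1116 1482912 (.nr 1104 163 .s1 (.nx 1107 193 (.nx 1106 192 (.nr 1105 1639 (.l1 (.ls 17 17
  229)) (.l1 .sk)) (.l1 .sk)) (.nx 1112 32769 (.lg 0 false 5 79 79 19 0 5040) (.nr 1115 16385 (.nr
  1113 1025 (.lg 0 false 1 61 61 16 0 1008) (.nx 1114 131073 (.lg 2 true 1 47 47 16 12277 48)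
  .out)) .out)))) .out) .out)) (.na 1119 168 (.lg 0 false 1 0 0 16 0 24) (.nx 1130 1048577 (.nr
  1129 1482912 (.nr 1120 168 .s1 (.nx 1122 192 (.nr 1121 1658 (.l1 (.ls 29 37 222)) (.l1 .sk)) (.nx
  1123 193 (.l1 .sk) (.nx 1127 131073 (.nr 1124 65537 (.lg 0 false 1 83 83 31 0 1008) (.nx 1126
  16385 (.lg 0 false 2 83 83 37 0 1008) .out)) (.nr 1128 1025 (.lg 0 true 1 67 67 31 0 1008)
  .out))))) .out) .out)))) (.na 1158 179 (.na 1145 172 (.na 1144 171 (.nx 1143 1048577 (.nr 1142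
  1482912 (.nr 1132 169 .s1 (.nx 1135 193 (.nx 1134 192 (.nr 1133 1678 (.l1 (.ls 19 19 221)) (.l1
  .sk)) (.l1 .sk)) (.nx 1138 32769 (.lg 0 false 3 83 83 19 0 9360) (.nr 1141 16385 (.nr 1139 1025
  (.lg 0 false 1 67 67 17 0 9360) (.nx 1140 131073 (.lg 2 true 1 53 53 17 12277 624) .out))
  .out)))) .out) .out) (.lg 0 false 1 0 0 16 0 24)) (.na 1157 173 (.nx 1156 1048577 (.nr 1155
  1482912 (.nr 1146 172 .s1 (.nx 1153 131073 (.nx 1148 192 (.nr 1147 1698 (.l1 (.ls 23 23 217))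
  (.l1 .sk)) (.nx 1149 193 (.l1 .sk) (.nx 1151 16385 (.lg 0 false 2 83 83 29 0 48) (.nr 1152 65537
  (.lg 0 true 1 83 83 23 0 48) .out)))) (.nr 1154 1025 (.lg 0 true 1 61 61 23 0 48) .out))) .out)
  .out) (.lg 0 false 1 0 0 16 0 24))) (.na 1171 182 (.na 1159 181 (.lg 0 false 1 0 0 16 0 24) (.nx
  1170 1048577 (.nr 1169 1482912 (.nr 1160 181 .s1 (.nx 1163 193 (.nx 1162 192 (.nr 1161 1786 (.l1
  (.ls 19 17 206)) (.l1 .sk)) (.l1 .sk)) (.nx 1167 131073 (.nx 1165 16385 (.lg 0 false 2 73 73 17 0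
  48) (.nr 1166 65537 (.lg 0 false 1 73 73 16 0 48) .out)) (.nr 1168 1025 (.lg 0 false 1 61 61 16 0
  720) .out)))) .out) .out)) (.na 1183 183 (.nx 1182 1048577 (.nr 1181 1048577 (.nr 1172 182 .s1
  (.nx 1174 192 (.nr 1173 1796 (.l1 (.ls 29 31 205)) (.l1 .sk)) (.nx 1175 193 (.l1 .sk) (.nr 1178
  65537 (.nx 1176 131073 (.lg 0 false 1 83 83 31 0 13104) (.nr 1177 1025 (.lg 0 true 1 67 67 31 0
  4368) .out)) (.nx 1180 16385 (.lg 0 false 2 83 83 37 0 13104) .out))))) .out) .out) (.nx 1197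
  1048577 (.nr 1196 1048577 (.nr 1184 183 .s1 (.nx 1187 193 (.nx 1186 192 (.nr 1185 1825 (.l1 (.ls
  17 19 204)) (.l1 .sk)) (.l1 .sk)) (.nx 1192 32769 (.lg 0 false 5 79 79 23 0 720) (.nr 1195 16385
  (.nr 1193 1025 (.lg 0 false 1 67 67 17 0 144) (.nx 1194 131073 (.lg 2 false 1 47 47 17 12277 144)
  .out)) .out)))) .out) .out)))))) (.na 1320 217 (.na 1259 197 (.na 1212 192 (.na 1210 189 (.nx
  1209 1048577 (.nr 1208 1048577 (.nr 1199 186 .s1 (.nx 1202 193 (.nx 1201 192 (.nr 1200 1855 (.l1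
  (.ls 19 29 201)) (.l1 .sk)) (.l1 .sk)) (.nx 1204 32769 (.lg 0 false 2 83 83 29 0 144) (.nr 1207
  16385 (.nr 1205 1025 (.lg 0 false 1 67 67 29 0 144) (.nx 1206 131073 (.lg 2 false 1 53 53 29
  12277 144) .out)) .out)))) .out) .out) (.na 1211 191 (.lg 0 false 1 0 0 16 0 24) (.lg 0 false 1 0
  0 16 0 24))) (.na 1235 194 (.na 1223 193 (.nx 1222 1048577 (.nr 1221 1048577 (.nr 1213 192 .s1
  (.nx 1216 193 (.nx 1215 192 (.nr 1214 1894 (.l1 (.ls 31 31 194)) (.l1 .sk)) (.l1 .sk)) (.nr 1219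
  65537 (.nx 1217 131073 (.lg 0 true 1 79 83 31 0 144) (.nr 1218 1025 (.lg 0 true 1 67 67 31 0 144)
  .out)) (.nx 1220 16385 (.lg 0 false 1 89 89 31 0 1008) .out)))) .out) .out) (.nx 1234 1048577
  (.nr 1233 1048577 (.nr 1224 193 .s1 (.nx 1227 193 (.nx 1226 192 (.nr 1225 1904 (.l1 (.ls 16 17
  194)) (.l1 .sk)) (.l1 .sk)) (.nx 1229 32769 (.lg 0 false 2 73 73 17 0 48) (.nr 1232 16385 (.nr
  1230 1025 (.lg 0 false 1 59 59 16 0 48) (.nx 1231 131073 (.lg 2 true 1 47 47 16 12277 48) .out))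
  .out)))) .out) .out)) (.na 1247 196 (.nx 1246 1048577 (.nr 1245 1048577 (.nr 1236 194 .s1 (.nx
  1239 193 (.nx 1238 192 (.nr 1237 1923 (.l1 (.ls 31 23 193)) (.l1 .sk)) (.l1 .sk)) (.nx 1241 32769
  (.lg 0 false 2 79 79 23 0 48) (.nr 1244 16385 (.nr 1242 1025 (.lg 0 false 1 61 61 19 0 48) (.nx
  1243 131073 (.lg 2 true 1 47 47 19 12277 48) .out)) .out)))) .out) .out) (.nx 1258 1048577 (.nr
  1257 1048577 (.nr 1248 196 .s1 (.nx 1251 193 (.nx 1250 192 (.nr 1249 1933 (.l1 (.ls 29 29 191))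
  (.l1 .sk)) (.l1 .sk)) (.nr 1254 65537 (.nx 1252 131073 (.lg 0 false 1 83 83 29 0 5040) (.nr 1253
  1025 (.lg 0 true 1 61 61 29 0 336) .out)) (.nx 1256 16385 (.lg 0 false 2 83 83 31 0 5040)
  .out)))) .out) .out)))) (.na 1284 206 (.na 1260 199 (.lg 0 false 1 0 0 16 0 24) (.na 1272 201
  (.nx 1271 1048577 (.nr 1270 1048577 (.nr 1261 199 .s1 (.nx 1266 32769 (.nx 1263 192 (.nr 1262
  1972 (.l1 (.ls 17 17 188)) (.l1 .sk)) (.nx 1264 193 (.l1 .sk) (.lg 0 false 2 73 73 17 0 48)))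
  (.nr 1269 16385 (.nr 1267 1025 (.lg 0 false 1 59 59 16 0 48) (.nx 1268 131073 (.lg 2 true 1 47 47
  16 12277 48) .out)) .out))) .out) .out) (.nx 1283 1048577 (.nr 1282 1048577 (.nr 1273 201 .s1
  (.nx 1275 192 (.nr 1274 2021 (.l1 (.ls 23 19 186)) (.l1 .sk)) (.nx 1276 193 (.l1 .sk) (.nx 1278
  32769 (.lg 0 false 2 83 83 19 0 144) (.nr 1281 16385 (.nr 1279 1025 (.lg 0 false 1 67 67 19 0
  144) (.nx 1280 131073 (.lg 2 false 1 53 53 19 12277 5040) .out)) .out))))) .out) .out))) (.na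
  1307 211 (.na 1296 208 (.nx 1295 1048577 (.nr 1294 1048577 (.nr 1285 206 .s1 (.nx 1287 192 (.nr
  1286 2041 (.l1 (.ls 19 23 181)) (.l1 .sk)) (.nx 1288 193 (.l1 .sk) (.nx 1290 32769 (.lg 0 false 2
  79 79 23 0 48) (.nr 1293 16385 (.nr 1291 1025 (.lg 0 false 1 59 59 23 0 48) (.nx 1292 131073 (.lg
  2 true 1 47 47 23 12277 48) .out)) .out))))) .out) .out) (.nx 1306 1048577 (.nr 1305 1048577 (.nr
  1297 208 .s1 (.nx 1300 193 (.nx 1299 192 (.nr 1298 2071 (.l1 (.ls 31 29 180)) (.l1 .sk)) (.l1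
  .sk)) (.nx 1303 131073 (.nr 1301 65537 (.lg 0 true 1 83 89 31 0 13104) (.nx 1302 16385 (.lg 0
  false 1 89 89 31 0 13104) .out)) (.nr 1304 1025 (.lg 0 true 1 67 67 31 0 624) .out)))) .out)
  .out)) (.na 1319 216 (.nx 1318 1048577 (.nr 1317 1048577 (.nr 1308 211 .s1 (.nx 1311 193 (.nx
  1310 192 (.nr 1309 2120 (.l1 (.ls 17 17 177)) (.l1 .sk)) (.l1 .sk)) (.nx 1313 32769 (.lg 0 false
  2 73 73 17 0 48) (.nr 1316 16385 (.nr 1314 1025 (.lg 0 false 1 59 59 16 0 48) (.nx 1315 131073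
  (.lg 2 false 1 47 47 16 12277 48) .out)) .out)))) .out) .out) (.lg 0 false 1 0 0 16 0 24)))))
  (.na 1385 228 (.na 1353 222 (.na 1331 218 (.nx 1330 1048577 (.nr 1329 1048577 (.nr 1321 217 .s1
  (.nx 1324 193 (.nx 1323 192 (.nr 1322 2139 (.l1 (.ls 23 19 172)) (.l1 .sk)) (.l1 .sk)) (.nx 1327
  131073 (.nr 1325 65537 (.lg 0 true 1 79 79 19 0 336) (.nx 1326 16385 (.lg 0 false 1 83 83 19 0
  336) .out)) (.nr 1328 1025 (.lg 0 true 1 61 61 19 0 336) .out)))) .out) .out) (.na 1341 219 (.nx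
  1340 1048577 (.nr 1339 1048577 (.nr 1332 218 .s1 (.nx 1334 192 (.nr 1333 2149 (.l1 (.ls 16 23
  172)) (.l1 .sk)) (.nx 1335 193 (.l1 .sk) (.nx 1337 32769 (.lg 0 false 2 73 73 23 0 48) (.nr 1338
  16385 (.lg 0 false 1 73 73 23 0 144) .out))))) .out) .out) (.nx 1352 1048577 (.nr 1351 1048577
  (.nr 1342 219 .s1 (.nx 1347 32769 (.nx 1344 192 (.nr 1343 2178 (.l1 (.ls 19 19 171)) (.l1 .sk))
  (.nx 1345 193 (.l1 .sk) (.lg 0 false 2 83 83 19 0 5040))) (.nr 1350 16385 (.nr 1348 1025 (.lg 0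
  false 1 61 61 19 0 5040) (.nx 1349 131073 (.lg 2 false 1 47 47 19 12277 144) .out)) .out))) .out)
  .out))) (.na 1373 224 (.na 1363 223 (.nx 1362 1048577 (.nr 1361 1048577 (.nr 1354 222 .s1 (.nx
  1359 32769 (.nx 1356 192 (.nr 1355 2188 (.l1 (.ls 17 29 169)) (.l1 .sk)) (.nx 1357 193 (.l1 .sk)
  (.lg 0 false 2 79 79 31 0 144))) (.nr 1360 16385 (.lg 0 false 1 83 83 29 0 1008) .out))) .out)
  .out) (.nx 1372 1048577 (.nr 1371 1048577 (.nr 1364 223 .s1 (.nx 1367 193 (.nx 1366 192 (.nr 1365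
  2198 (.l1 (.ls 16 17 168)) (.l1 .sk)) (.l1 .sk)) (.nx 1369 32769 (.lg 0 false 2 73 73 17 0 48)
  (.nr 1370 16385 (.lg 0 false 1 73 73 16 0 144) .out)))) .out) .out)) (.na 1384 227 (.nx 1383
  1048577 (.nr 1382 1048577 (.nr 1374 224 .s1 (.nx 1380 131073 (.nx 1376 192 (.nr 1375 2227 (.l1
  (.ls 31 29 167)) (.l1 .sk)) (.nx 1377 193 (.l1 .sk) (.nr 1378 65537 (.lg 0 true 1 83 89 31 0
  5040) (.nx 1379 16385 (.lg 0 false 1 89 89 31 0 5040) .out)))) (.nr 1381 1025 (.lg 0 true 1 67 71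
  31 0 336) .out))) .out) .out) (.lg 0 false 1 0 0 16 0 24)))) (.na 1408 237 (.na 1406 233 (.na
  1396 229 (.nx 1395 1048577 (.nr 1394 1048577 (.nr 1386 228 .s1 (.nx 1392 131073 (.nx 1388 192
  (.nr 1387 2247 (.l1 (.ls 17 31 164)) (.l1 .sk)) (.nx 1389 193 (.l1 .sk) (.nr 1390 65537 (.lg 0
  true 1 79 79 37 0 144) (.nx 1391 16385 (.lg 0 false 1 83 83 37 0 144) .out)))) (.nr 1393 1025
  (.lg 0 true 1 61 61 37 0 144) .out))) .out) .out) (.nx 1405 1048577 (.nr 1404 1048577 (.nr 1397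
  229 .s1 (.nx 1399 192 (.nr 1398 2286 (.l1 (.ls 19 17 163)) (.l1 .sk)) (.nx 1400 193 (.l1 .sk)
  (.nx 1402 32769 (.lg 0 false 2 73 73 17 0 48) (.nr 1403 16385 (.lg 0 false 1 79 79 17 0 48)
  .out))))) .out) .out)) (.na 1407 234 (.lg 0 false 1 0 0 16 0 24) (.lg 0 false 1 0 0 16 0 24)))
  (.na 1419 241 (.na 1418 239 (.nx 1417 1048577 (.nr 1416 1048577 (.nr 1409 237 .s1 (.nx 1411 192
  (.nr 1410 2345 (.l1 (.ls 17 19 158)) (.l1 .sk)) (.nx 1412 193 (.l1 .sk) (.nx 1414 32769 (.lg 0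
  false 2 73 73 19 0 144) (.nr 1415 16385 (.lg 0 false 1 79 79 19 0 144) .out))))) .out) .out) (.lg
  0 false 1 0 0 16 0 24)) (.na 1429 243 (.nx 1428 1048577 (.nr 1427 1048577 (.nr 1420 241 .s1 (.nx
  1425 32769 (.nx 1422 192 (.nr 1421 2384 (.l1 (.ls 17 17 155)) (.l1 .sk)) (.nx 1423 193 (.l1 .sk)
  (.lg 0 false 2 73 73 17 0 48))) (.nr 1426 16385 (.lg 0 false 1 73 73 17 0 48) .out))) .out) .out)
  (.lg 0 false 1 0 0 16 0 24))))))))

theorem c91 :
    OkQ ckI L10 237 1 46 0 34359738368 1 1099511627776 ∧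
    OkQ ckI L9 192 17 244 0 34359738368 1 1099511627776 := by
  refine ⟨?_, ?_⟩
  · refine fin 1896 1394 T91_0 ?_
    refine jn 11 (by decide +kernel) ?_
    refine jn 20 (by decide +kernel) ?_
    refine jn 27 (by decide +kernel) ?_
    refine jn 36 (by decide +kernel) ?_
    refine jn 45 (by decide +kernel) ?_
    refine jn 52 (by decide +kernel) ?_
    refine jn 60 (by decide +kernel) ?_
    refine jn 67 (by decide +kernel) ?_
    refine jn 69 (by decide +kernel) ?_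
    refine jn 104 (by decide +kernel) ?_
    refine jn 120 (by decide +kernel) ?_
    refine jn 134 (by decide +kernel) ?_
    refine jn 148 (by decide +kernel) ?_
    refine jn 156 (by decide +kernel) ?_
    refine jn 177 (by decide +kernel) ?_
    refine jn 191 (by decide +kernel) ?_
    refine jn 224 (by decide +kernel) ?_
    refine jn 239 (by decide +kernel) ?_
    refine jn 271 (by decide +kernel) ?_
    refine jn 294 (by decide +kernel) ?_
    refine jn 309 (by decide +kernel) ?_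
    refine jn 334 (by decide +kernel) ?_
    refine jn 354 (by decide +kernel) ?_
    refine jn 378 (by decide +kernel) ?_
    refine jn 389 (by decide +kernel) ?_
    refine jn 415 (by decide +kernel) ?_
    refine jn 450 (by decide +kernel) ?_
    refine jn 465 (by decide +kernel) ?_
    refine jn 482 (by decide +kernel) ?_
    refine jn 486 (by decide +kernel) ?_
    refine jn 555 (by decide +kernel) ?_
    refine jn 582 (by decide +kernel) ?_
    refine jn 606 (by decide +kernel) ?_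
    refine jn 632 (by decide +kernel) ?_
    refine jn 659 (by decide +kernel) ?_
    refine jn 679 (by decide +kernel) ?_
    refine jn 684 (by decide +kernel) ?_
    refine jn 687 (by decide +kernel) ?_
    refine jn 689 (by decide +kernel) ?_
    refine jn 692 (by decide +kernel) ?_
    refine jn 694 (by decide +kernel) ?_
    refine jn 697 (by decide +kernel) ?_
    refine jn 699 (by decide +kernel) ?_
    refine jn 701 (by decide +kernel) ?_
    refine jn 712 (by decide +kernel) ?_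
    refine jn 717 (by decide +kernel) ?_
    refine jn 721 (by decide +kernel) ?_
    refine jn 723 (by decide +kernel) ?_
    refine jn 728 (by decide +kernel) ?_
    refine jn 733 (by decide +kernel) ?_
    refine jn 746 (by decide +kernel) ?_
    refine jn 753 (by decide +kernel) ?_
    refine jn 767 (by decide +kernel) ?_
    refine jn 774 (by decide +kernel) ?_
    refine jn 785 (by decide +kernel) ?_
    refine jn 794 (by decide +kernel) ?_
    refine jn 804 (by decide +kernel) ?_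
    refine jn 817 (by decide +kernel) ?_
    refine jn 853 (by decide +kernel) ?_
    refine jn 869 (by decide +kernel) ?_
    refine jn 871 (by decide +kernel) ?_
    refine jn 875 (by decide +kernel) ?_
    refine jn 879 (by decide +kernel) ?_
    refine jn 883 (by decide +kernel) ?_
    refine jn 887 (by decide +kernel) ?_
    refine jn 900 (by decide +kernel) ?_
    refine jn 904 (by decide +kernel) ?_
    refine jn 911 (by decide +kernel) ?_
    refine jn 918 (by decide +kernel) ?_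
    refine jn 925 (by decide +kernel) ?_
    refine jn 932 (by decide +kernel) ?_
    refine jn 939 (by decide +kernel) ?_
    refine jn 946 (by decide +kernel) ?_
    refine jn 955 (by decide +kernel) ?_
    refine jn 964 (by decide +kernel) ?_
    refine jn 969 (by decide +kernel) ?_
    refine jn 974 (by decide +kernel) ?_
    refine jn 982 (by decide +kernel) ?_
    refine jn 988 (by decide +kernel) ?_
    refine jn 1001 (by decide +kernel) ?_
    refine jn 1015 (by decide +kernel) ?_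
    refine jn 1028 (by decide +kernel) ?_
    refine jn 1036 (by decide +kernel) ?_
    refine jn 1047 (by decide +kernel) ?_
    refine jn 1057 (by decide +kernel) ?_
    refine jn 1064 (by decide +kernel) ?_
    refine jn 1068 (by decide +kernel) ?_
    refine jn 1072 (by decide +kernel) ?_
    refine jn 1077 (by decide +kernel) ?_
    refine jn 1088 (by decide +kernel) ?_
    refine jn 1097 (by decide +kernel) ?_
    refine jn 1110 (by decide +kernel) ?_
    refine jn 1117 (by decide +kernel) ?_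
    refine jn 1118 (by decide +kernel) ?_
    refine jn 1123 (by decide +kernel) ?_
    refine jn 1133 (by decide +kernel) ?_
    refine jn 1145 (by decide +kernel) ?_
    refine jn 1157 (by decide +kernel) ?_
    refine jn 1169 (by decide +kernel) ?_
    refine jn 1176 (by decide +kernel) ?_
    refine jn 1189 (by decide +kernel) ?_
    refine jn 1200 (by decide +kernel) ?_
    refine jn 1213 (by decide +kernel) ?_
    refine jn 1216 (by decide +kernel) ?_
    refine jn 1225 (by decide +kernel) ?_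
    refine jn 1230 (by decide +kernel) ?_
    refine jn 1242 (by decide +kernel) ?_
    refine jn 1257 (by decide +kernel) ?_
    refine jn 1260 (by decide +kernel) ?_
    refine jn 1272 (by decide +kernel) ?_
    refine jn 1285 (by decide +kernel) ?_
    refine jn 1292 (by decide +kernel) ?_
    refine jn 1302 (by decide +kernel) ?_
    refine jn 1311 (by decide +kernel) ?_
    refine jn 1312 (by decide +kernel) ?_
    refine jn 1313 (by decide +kernel) ?_
    refine jn 1314 (by decide +kernel) ?_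
    refine jn 1315 (by decide +kernel) ?_
    refine jn 1321 (by decide +kernel) ?_
    refine jn 1322 (by decide +kernel) ?_
    refine jn 1323 (by decide +kernel) ?_
    refine jn 1324 (by decide +kernel) ?_
    refine jn 1325 (by decide +kernel) ?_
    refine jn 1338 (by decide +kernel) ?_
    refine jn 1348 (by decide +kernel) ?_
    refine jn 1359 (by decide +kernel) ?_
    refine jn 1374 (by decide +kernel) ?_
    refine jn 1386 (by decide +kernel) ?_
    exact je (by decide +kernel)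
  · refine fin 48 1430 T91_1 ?_
    refine jn 7 (by decide +kernel) ?_
    refine jn 10 (by decide +kernel) ?_
    refine jn 13 (by decide +kernel) ?_
    refine jn 16 (by decide +kernel) ?_
    refine jn 18 (by decide +kernel) ?_
    refine jn 25 (by decide +kernel) ?_
    refine jn 30 (by decide +kernel) ?_
    refine jn 31 (by decide +kernel) ?_
    refine jn 32 (by decide +kernel) ?_
    refine jn 33 (by decide +kernel) ?_
    refine jn 34 (by decide +kernel) ?_
    refine jn 35 (by decide +kernel) ?_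
    refine jn 36 (by decide +kernel) ?_
    refine jn 37 (by decide +kernel) ?_
    refine jn 38 (by decide +kernel) ?_
    refine jn 39 (by decide +kernel) ?_
    refine jn 40 (by decide +kernel) ?_
    refine jn 41 (by decide +kernel) ?_
    refine jn 48 (by decide +kernel) ?_
    refine jn 59 (by decide +kernel) ?_
    refine jn 73 (by decide +kernel) ?_
    refine jn 79 (by decide +kernel) ?_
    refine jn 85 (by decide +kernel) ?_
    refine jn 96 (by decide +kernel) ?_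
    refine jn 101 (by decide +kernel) ?_
    refine jn 112 (by decide +kernel) ?_
    refine jn 127 (by decide +kernel) ?_
    refine jn 133 (by decide +kernel) ?_
    refine jn 142 (by decide +kernel) ?_
    refine jn 154 (by decide +kernel) ?_
    refine jn 159 (by decide +kernel) ?_
    refine jn 162 (by decide +kernel) ?_
    refine jn 165 (by decide +kernel) ?_
    refine jn 168 (by decide +kernel) ?_
    refine jn 176 (by decide +kernel) ?_
    refine jn 177 (by decide +kernel) ?_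
    refine jn 178 (by decide +kernel) ?_
    refine jn 179 (by decide +kernel) ?_
    refine jn 180 (by decide +kernel) ?_
    refine jn 181 (by decide +kernel) ?_
    refine jn 182 (by decide +kernel) ?_
    refine jn 183 (by decide +kernel) ?_
    refine jn 192 (by decide +kernel) ?_
    refine jn 202 (by decide +kernel) ?_
    refine jn 203 (by decide +kernel) ?_
    refine jn 204 (by decide +kernel) ?_
    refine jn 205 (by decide +kernel) ?_
    refine jn 206 (by decide +kernel) ?_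
    refine jn 208 (by decide +kernel) ?_
    refine jn 214 (by decide +kernel) ?_
    refine jn 216 (by decide +kernel) ?_
    refine jn 218 (by decide +kernel) ?_
    refine jn 220 (by decide +kernel) ?_
    refine jn 224 (by decide +kernel) ?_
    refine jn 234 (by decide +kernel) ?_
    refine jn 235 (by decide +kernel) ?_
    refine jn 242 (by decide +kernel) ?_
    refine jn 248 (by decide +kernel) ?_
    refine jn 255 (by decide +kernel) ?_
    refine jn 267 (by decide +kernel) ?_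
    refine jn 270 (by decide +kernel) ?_
    refine jn 271 (by decide +kernel) ?_
    refine jn 272 (by decide +kernel) ?_
    refine jn 273 (by decide +kernel) ?_
    refine jn 274 (by decide +kernel) ?_
    refine jn 275 (by decide +kernel) ?_
    refine jn 278 (by decide +kernel) ?_
    refine jn 280 (by decide +kernel) ?_
    refine jn 284 (by decide +kernel) ?_
    refine jn 292 (by decide +kernel) ?_
    refine jn 308 (by decide +kernel) ?_
    refine jn 314 (by decide +kernel) ?_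
    refine jn 327 (by decide +kernel) ?_
    refine jn 333 (by decide +kernel) ?_
    refine jn 339 (by decide +kernel) ?_
    refine jn 352 (by decide +kernel) ?_
    refine jn 360 (by decide +kernel) ?_
    refine jn 368 (by decide +kernel) ?_
    refine jn 380 (by decide +kernel) ?_
    refine jn 390 (by decide +kernel) ?_
    refine jn 405 (by decide +kernel) ?_
    refine jn 415 (by decide +kernel) ?_
    refine jn 428 (by decide +kernel) ?_
    refine jn 431 (by decide +kernel) ?_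
    refine jn 434 (by decide +kernel) ?_
    refine jn 436 (by decide +kernel) ?_
    refine jn 440 (by decide +kernel) ?_
    refine jn 445 (by decide +kernel) ?_
    refine jn 446 (by decide +kernel) ?_
    refine jn 447 (by decide +kernel) ?_
    refine jn 448 (by decide +kernel) ?_
    refine jn 449 (by decide +kernel) ?_
    refine jn 450 (by decide +kernel) ?_
    refine jn 461 (by decide +kernel) ?_
    refine jn 473 (by decide +kernel) ?_
    refine jn 476 (by decide +kernel) ?_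
    refine jn 481 (by decide +kernel) ?_
    refine jn 483 (by decide +kernel) ?_
    refine jn 495 (by decide +kernel) ?_
    refine jn 496 (by decide +kernel) ?_
    refine jn 499 (by decide +kernel) ?_
    refine jn 502 (by decide +kernel) ?_
    refine jn 510 (by decide +kernel) ?_
    refine jn 516 (by decide +kernel) ?_
    refine jn 523 (by decide +kernel) ?_
    refine jn 535 (by decide +kernel) ?_
    refine jn 543 (by decide +kernel) ?_
    refine jn 554 (by decide +kernel) ?_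
    refine jn 562 (by decide +kernel) ?_
    refine jn 571 (by decide +kernel) ?_
    refine jn 572 (by decide +kernel) ?_
    refine jn 573 (by decide +kernel) ?_
    refine jn 574 (by decide +kernel) ?_
    refine jn 576 (by decide +kernel) ?_
    refine jn 577 (by decide +kernel) ?_
    refine jn 578 (by decide +kernel) ?_
    refine jn 579 (by decide +kernel) ?_
    refine jn 594 (by decide +kernel) ?_
    refine jn 600 (by decide +kernel) ?_
    refine jn 615 (by decide +kernel) ?_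
    refine jn 629 (by decide +kernel) ?_
    refine jn 634 (by decide +kernel) ?_
    refine jn 647 (by decide +kernel) ?_
    refine jn 650 (by decide +kernel) ?_
    refine jn 653 (by decide +kernel) ?_
    refine jn 668 (by decide +kernel) ?_
    refine jn 681 (by decide +kernel) ?_
    refine jn 693 (by decide +kernel) ?_
    refine jn 700 (by decide +kernel) ?_
    refine jn 703 (by decide +kernel) ?_
    refine jn 717 (by decide +kernel) ?_
    refine jn 728 (by decide +kernel) ?_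
    refine jn 731 (by decide +kernel) ?_
    refine jn 735 (by decide +kernel) ?_
    refine jn 749 (by decide +kernel) ?_
    refine jn 759 (by decide +kernel) ?_
    refine jn 762 (by decide +kernel) ?_
    refine jn 777 (by decide +kernel) ?_
    refine jn 792 (by decide +kernel) ?_
    refine jn 806 (by decide +kernel) ?_
    refine jn 816 (by decide +kernel) ?_
    refine jn 820 (by decide +kernel) ?_
    refine jn 833 (by decide +kernel) ?_
    refine jn 847 (by decide +kernel) ?_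
    refine jn 856 (by decide +kernel) ?_
    refine jn 857 (by decide +kernel) ?_
    refine jn 858 (by decide +kernel) ?_
    refine jn 861 (by decide +kernel) ?_
    refine jn 872 (by decide +kernel) ?_
    refine jn 887 (by decide +kernel) ?_
    refine jn 899 (by decide +kernel) ?_
    refine jn 902 (by decide +kernel) ?_
    refine jn 918 (by decide +kernel) ?_
    refine jn 928 (by decide +kernel) ?_
    refine jn 930 (by decide +kernel) ?_
    refine jn 932 (by decide +kernel) ?_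
    refine jn 948 (by decide +kernel) ?_
    refine jn 958 (by decide +kernel) ?_
    refine jn 971 (by decide +kernel) ?_
    refine jn 987 (by decide +kernel) ?_
    refine jn 1002 (by decide +kernel) ?_
    refine jn 1017 (by decide +kernel) ?_
    refine jn 1028 (by decide +kernel) ?_
    refine jn 1041 (by decide +kernel) ?_
    refine jn 1054 (by decide +kernel) ?_
    refine jn 1062 (by decide +kernel) ?_
    refine jn 1066 (by decide +kernel) ?_
    refine jn 1081 (by decide +kernel) ?_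
    refine jn 1097 (by decide +kernel) ?_
    refine jn 1113 (by decide +kernel) ?_
    refine jn 1126 (by decide +kernel) ?_
    refine jn 1139 (by decide +kernel) ?_
    refine jn 1152 (by decide +kernel) ?_
    refine jn 1166 (by decide +kernel) ?_
    refine jn 1177 (by decide +kernel) ?_
    refine jn 1192 (by decide +kernel) ?_
    refine jn 1205 (by decide +kernel) ?_
    refine jn 1216 (by decide +kernel) ?_
    refine jn 1217 (by decide +kernel) ?_
    refine jn 1220 (by decide +kernel) ?_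
    refine jn 1241 (by decide +kernel) ?_
    refine jn 1253 (by decide +kernel) ?_
    refine jn 1267 (by decide +kernel) ?_
    refine jn 1280 (by decide +kernel) ?_
    refine jn 1297 (by decide +kernel) ?_
    refine jn 1301 (by decide +kernel) ?_
    refine jn 1304 (by decide +kernel) ?_
    refine jn 1321 (by decide +kernel) ?_
    refine jn 1326 (by decide +kernel) ?_
    refine jn 1338 (by decide +kernel) ?_
    refine jn 1359 (by decide +kernel) ?_
    refine jn 1370 (by decide +kernel) ?_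
    refine jn 1378 (by decide +kernel) ?_
    refine jn 1381 (by decide +kernel) ?_
    refine jn 1391 (by decide +kernel) ?_
    refine jn 1403 (by decide +kernel) ?_
    refine jn 1425 (by decide +kernel) ?_
    exact je (by decide +kernel)

end Pool.Agent.MP_2339ce_nt.NR
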