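import Pool.Agent.MP_2339ce_nt.Q2.NC.L2
import Pool.Agent.MP_2339ce_nt.Q2.NC.L8
import Pool.Agent.MP_2339ce_nt.Q2.NC.L10
import Pool.Agent.MP_2339ce_nt.Q2.CkI

/-! Block NR: runs. -/

set_option autoImplicit false
set_option maxRecDepth 100000

noncomputable section

namespace Pool.Agent.MP_2339ce_nt.NR

open Q2.Top

def T95_0 : Ph :=
  (.na 622 64 (.na 394 37 (.na 237 26 (.na 149 19 (.na 88 17 (.nx 87 2642247 (.nr 86 1246976 (.nr 1
  4 .s1 (.nx 5 324 (.nx 3 247 (.nr 2 189 (.lg 0 false 1 43 43 11 0 177840) (.l1 .sk)) (.nx 4 248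
  (.l1 .sk) (.l1 (.ls 97 41 2720)))) (.nr 85 1048577 (.nx 6 408 (.l1 (.ls 97 41 3846)) (.nr 84
  741457 (.nr 80 311745 (.nx 74 660563 (.nr 53 220437 (.nr 23 65537 (.nx 13 41285 (.lg 0 false 7 97
  101 19 0 1244880) (.nr 16 1694 (.lg 0 true 3 97 97 13 0 177840) (.lg 2 true 7 89 89 19 48607
  82992))) (.nx 52 524289 (.nx 48 416129 (.nx 44 330282 (.lg 0 true 21 101 109 29 0 13693680) (.nr
  47 92683 (.lg 0 true 3 103 107 13 0 13693680) .out)) (.nr 51 77937 (.lg 0 true 3 103 107 13 0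
  13693680) .out)) .out)) (.nx 73 208065 (.nx 56 13005 (.lg 0 false 3 103 107 13 0 13693680) (.nx
  57 41285 .out (.nr 64 262145 (.lg 0 true 7 103 109 19 0 13693680) (.nx 65 82570 .out (.nx 72
  165142 (.lg 0 true 7 101 109 19 0 13693680) .out))))) .out)) (.nr 79 129 (.lg 0 true 5 79 79 17 0
  59280) .out)) (.nx 83 1627 (.lg 0 false 3 97 97 13 0 177840) .out)) .out)) .out))) .out) .out)
  (.nx 148 2642247 (.nr 147 1246976 (.nr 89 7 .s1 (.nx 91 247 (.nr 90 211 (.lg 0 true 1 31 31 11 0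
  11856) (.l1 .sk)) (.nx 92 248 (.l1 .sk) (.nx 93 408 (.l1 (.ls 83 41 6177)) (.nr 146 741457 (.nr
  140 311745 (.nx 132 660563 (.nr 126 220437 (.nx 108 109712 (.lg 0 false 15 103 109 16 0 13693680)
  (.nr 113 1726 (.lg 0 true 5 83 83 16 0 29640) (.nx 125 524289 (.nx 118 208065 (.lg 1 true 5 101
  103 16 61360 59280) (.nr 124 155873 (.nr 119 4475 (.lg 2 false 1 83 83 11 37515 11856) (.lg 2
  false 5 97 101 16 22889 59280)) .out)) .out))) (.nx 131 13005 (.lg 0 false 5 89 97 16 0 59280)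
  .out)) (.nr 139 129 (.lg 0 true 7 71 71 16 0 41496) .out)) (.nx 145 1627 (.lg 0 false 5 83 83 16
  0 29640) .out)) .out))))) .out) .out)) (.na 196 23 (.nx 195 2642247 (.nr 194 1246976 (.nr 150 11
  .s1 (.nx 153 248 (.nx 152 247 (.nr 151 256 (.l1 (.ls 23 37 3213)) (.l1 .sk)) (.l1 .sk)) (.nx 154
  408 (.l1 (.ls 79 41 5527)) (.nr 193 741457 (.nx 170 57851 (.nr 166 311745 (.lg 0 false 12 97 101
  16 0 177840) (.nx 169 1627 (.lg 0 true 3 83 83 11 0 177840) .out)) (.nr 192 220437 (.nr 182 666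
  (.lg 0 true 12 79 79 16 0 35568) (.nx 191 524289 (.lg 2 false 9 103 103 16 116367 1244880) .out))
  .out)) .out)))) .out) .out) (.nx 236 2642247 (.nr 235 1048577 (.nr 197 17 .s1 (.nx 201 408 (.nx
  199 247 (.nr 198 289 (.lg 0 false 1 31 31 11 0 11856) (.l1 .sk)) (.nx 200 248 (.l1 .sk) (.l1 (.ls
  83 41 4566)))) (.nr 234 741457 (.nr 230 524289 (.nx 212 82572 (.nr 206 185365 (.lg 0 false 5 107
  107 16 0 1244880) (.nx 211 16385 (.lg 0 false 5 97 101 16 0 59280) .out)) (.nr 229 131073 (.nr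
  223 1867 (.nx 217 660563 (.lg 0 true 5 83 83 16 0 29640) (.nr 222 129 (.lg 0 true 5 71 71 16 0
  29640) .out)) (.nx 228 524289 (.lg 2 false 5 101 103 16 48514 414960) .out)) .out)) (.nx 233 2582
  (.lg 0 false 3 79 79 16 0 17784) .out)) .out))) .out) .out))) (.na 325 32 (.na 287 31 (.nx 286
  2642247 (.nr 285 1048577 (.nr 238 21 .s1 (.nx 263 82572 (.nx 239 408 (.l1 (.ls 79 47 6405)) (.nr
  262 741457 (.nr 250 185365 (.lg 0 false 11 97 97 19 0 652080) (.nx 261 16385 (.lg 0 false 11 89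
  89 19 0 652080) .out)) .out)) (.nr 284 131073 (.nr 274 1020 (.lg 0 true 11 79 79 19 0 130416)
  (.nx 283 524289 (.lg 2 false 9 97 97 19 63481 1244880) .out)) .out))) .out) .out) (.nx 324
  2642247 (.nr 323 1048577 (.nr 288 27 .s1 (.nx 290 247 (.nr 289 356 (.lg 0 true 1 31 31 13 0
  59280) (.l1 .sk)) (.nx 291 248 (.l1 .sk) (.nx 292 408 (.l1 (.ls 83 29 3388)) (.nr 322 741457 (.nr
  314 185365 (.nx 299 82572 (.lg 0 false 7 101 103 16 0 414960) (.nr 313 131073 (.nx 308 660563
  (.nr 303 3073 (.lg 0 true 4 83 83 16 0 11856) (.nx 307 524289 (.lg 2 false 4 97 101 16 48514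
  59280) .out)) (.nr 312 129 (.lg 0 true 4 67 67 16 0 11856) .out)) .out)) (.nx 321 16385 (.lg 0
  false 7 97 101 16 0 414960) .out)) .out))))) .out) .out)) (.na 359 33 (.nx 358 2642247 (.nr 357
  1048577 (.nr 326 28 .s1 (.nx 328 247 (.nr 327 367 (.lg 0 false 1 31 31 13 0 11856) (.l1 .sk))
  (.nx 329 248 (.l1 .sk) (.nx 351 524289 (.nx 342 82572 (.nx 330 408 (.l1 (.ls 83 41 3283)) (.nr
  341 741457 (.nr 335 185365 (.lg 0 false 5 101 103 19 0 1244880) (.nx 340 16385 (.lg 0 false 5 97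
  103 19 0 1244880) .out)) .out)) (.nr 350 131073 (.nr 345 3129 (.lg 0 true 3 83 83 19 0 35568)
  (.lg 2 false 5 89 101 19 48514 414960)) .out)) (.nr 356 257 (.lg 0 true 5 71 73 19 0 59280)
  .out))))) .out) .out) (.na 360 34 .ne (.nx 393 2642247 (.nr 392 881745 (.nr 361 31 .s1 (.nx 365
  408 (.nx 363 247 (.nr 362 412 (.l1 (.ls 31 41 1797)) (.l1 .sk)) (.nx 364 248 (.l1 .sk) (.l1 (.ls
  83 43 3090)))) (.nr 391 623489 (.nx 380 65537 (.nr 372 185365 (.lg 0 false 7 101 103 23 0
  1244880) (.nx 379 16385 (.lg 0 false 7 97 101 23 0 1244880) .out)) (.nr 390 77937 (.nr 387 1135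
  (.lg 0 true 7 83 83 23 0 82992) (.nx 389 262145 (.lg 2 true 2 97 97 13 36392 59280) .out)) .out))
  .out))) .out) .out))))) (.na 509 46 (.na 454 41 (.na 425 38 (.nx 424 2642247 (.nr 423 881745 (.nr
  395 34 .s1 (.nx 398 248 (.nx 397 247 (.nr 396 423 (.lg 0 false 1 23 23 16 0 11856) (.l1 .sk))
  (.l1 .sk)) (.nx 399 408 (.l1 (.ls 79 31 2839)) (.nr 422 623489 (.nx 410 65537 (.nr 404 185365
  (.lg 0 false 5 97 101 16 0 59280) (.nx 409 16385 (.lg 0 false 5 97 97 16 0 59280) .out)) (.nr 421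
  77937 (.nx 415 262145 (.nr 411 1159 (.lg 0 false 1 79 79 16 0 11856) (.lg 2 false 4 89 89 16
  36392 11856)) (.nr 420 257 (.lg 0 true 5 71 71 16 0 29640) .out)) .out)) .out)))) .out) .out)
  (.nx 453 2642247 (.nr 452 881745 (.nr 426 35 .s1 (.nx 438 41287 (.nx 427 408 (.l1 (.ls 71 47
  4383)) (.nr 437 623489 (.lg 0 false 10 89 89 17 0 59280) .out)) (.nr 451 110219 (.nr 445 456 (.lg
  0 true 7 67 67 13 0 82992) (.nx 450 262145 (.lg 2 false 5 89 89 13 81618 59280) .out)) .out)))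
  .out) .out)) (.na 482 43 (.nx 481 2642247 (.nr 480 881745 (.nr 455 38 .s1 (.nx 458 248 (.nx 457
  247 (.nr 456 479 (.l1 (.ls 23 29 1491)) (.l1 .sk)) (.l1 .sk)) (.nx 459 408 (.l1 (.ls 79 31 2563))
  (.nr 479 623489 (.nx 466 41287 (.lg 0 false 7 101 103 16 0 414960) (.nr 478 110219 (.nr 473 479
  (.lg 0 true 7 73 73 16 0 41496) (.nx 477 262145 (.lg 2 false 4 97 97 16 81618 59280) .out))
  .out)) .out)))) .out) .out) (.nx 508 2642247 (.nr 507 881745 (.nr 483 41 .s1 (.nx 496 52017 (.nx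
  484 408 (.l1 (.ls 79 31 3874)) (.nr 495 623489 (.nr 489 185365 (.lg 0 false 5 97 97 16 0 177840)
  (.nx 494 16385 (.lg 0 false 5 89 89 16 0 29640) .out)) .out)) (.nr 506 92683 (.nr 501 512 (.lg 0
  true 5 73 73 16 0 29640) (.nx 505 262145 (.lg 2 false 4 89 89 16 63233 11856) .out)) .out)))
  .out) .out))) (.na 559 59 (.na 536 52 (.nx 535 2642247 (.nr 534 881745 (.nr 510 44 .s1 (.nx 512
  247 (.nr 511 579 (.l1 (.ls 17 41 1329)) (.l1 .sk)) (.nx 513 248 (.l1 .sk) (.nx 520 32769 (.lg 0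
  false 7 101 101 19 0 414960) (.nr 533 92683 (.nr 527 579 (.lg 0 true 7 79 79 19 0 414960) (.nx
  532 262145 (.lg 2 false 5 89 97 19 86510 59280) .out)) .out))))) .out) .out) (.nx 558 2642247
  (.nr 557 881745 (.nr 537 50 .s1 (.nx 540 248 (.nx 539 247 (.nr 538 657 (.l1 (.ls 29 41 1176))
  (.l1 .sk)) (.l1 .sk)) (.nx 545 32769 (.lg 0 false 5 97 97 23 0 59280) (.nr 556 92683 (.nr 550 657
  (.lg 0 true 5 73 73 23 0 59280) (.nx 555 262145 (.lg 2 false 5 83 89 23 86510 59280) .out))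
  .out)))) .out) .out)) (.na 582 61 (.nx 581 2642247 (.nr 580 881745 (.nr 560 57 .s1 (.nx 563 248
  (.nx 562 247 (.nr 561 679 (.l1 (.ls 23 23 1037)) (.l1 .sk)) (.l1 .sk)) (.nx 570 32769 (.lg 0
  false 7 97 101 17 0 414960) (.nr 579 92683 (.nr 574 679 (.lg 0 true 4 73 73 16 0 11856) (.nx 578
  262145 (.lg 2 false 4 89 89 16 86510 11856) .out)) .out)))) .out) .out) (.na 602 62 (.nx 601
  2642247 (.nr 600 881745 (.nr 583 59 .s1 (.nx 586 248 (.nx 585 247 (.nr 584 690 (.l1 (.ls 29 23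
  1003)) (.l1 .sk)) (.l1 .sk)) (.nx 590 32769 (.lg 0 false 4 101 103 16 0 177840) (.nr 599 92683
  (.nr 594 690 (.lg 0 true 4 73 73 16 0 11856) (.nx 598 262145 (.lg 2 false 4 97 97 16 86510
  414960) .out)) .out)))) .out) .out) (.nx 621 2642247 (.nr 620 881745 (.nr 603 60 .s1 (.nx 605 247
  (.nr 604 712 (.l1 (.ls 23 37 987)) (.l1 .sk)) (.nx 606 248 (.l1 .sk) (.nx 611 41287 (.lg 0 false
  5 97 97 19 0 59280) (.nr 619 77937 (.nr 616 712 (.lg 0 true 5 73 73 19 0 59280) (.nx 618 262145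
  (.lg 2 true 2 89 89 17 57767 11856) .out)) .out))))) .out) .out)))))) (.na 779 89 (.na 683 71
  (.na 645 67 (.na 644 65 (.nx 643 2642247 (.nr 642 2097153 (.nr 623 63 .s1 (.nx 627 408 (.nx 625
  247 (.nr 624 723 (.l1 (.ls 31 31 956)) (.l1 .sk)) (.nx 626 248 (.l1 .sk) (.l1 (.ls 83 37 1643))))
  (.nr 641 1048577 (.nx 634 52017 (.nr 630 262145 (.lg 0 false 3 97 101 23 0 177840) (.nx 633 20644
  (.lg 0 false 3 97 101 23 0 177840) .out)) (.nr 640 65537 (.nr 637 513 (.lg 0 true 3 73 73 23 0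
  35568) (.nx 639 416129 (.nr 638 1875 (.lg 2 true 1 67 67 17 100180 11856) (.lg 2 true 1 89 89 17
  38579 59280)) .out)) .out)) .out))) .out) .out) .ne) (.na 664 68 (.nx 663 2642247 (.nr 662
  2097153 (.nr 646 66 .s1 (.nx 647 408 (.l1 (.ls 79 31 2487)) (.nr 661 1048577 (.nx 652 32769 (.lg
  0 false 5 97 97 16 0 59280) (.nr 660 65537 (.nr 657 757 (.lg 0 true 5 71 71 16 0 29640) (.nx 659
  416129 (.lg 2 true 2 89 89 16 67889 11856) .out)) .out)) .out))) .out) .out) (.nx 682 2642247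
  (.nr 681 2097153 (.nr 665 67 .s1 (.nx 669 408 (.nx 667 247 (.nr 666 790 (.l1 (.ls 31 37 900))
  (.l1 .sk)) (.nx 668 248 (.l1 .sk) (.l1 (.ls 83 41 1546)))) (.nr 680 1048577 (.nx 674 32769 (.lg 0
  false 5 101 107 29 0 1244880) (.nr 679 65537 (.nr 677 790 (.lg 0 true 3 79 79 29 0 35568) (.nx
  678 416129 (.lg 2 true 1 97 97 13 65054 11856) .out)) .out)) .out))) .out) .out))) (.na 724 76
  (.na 703 74 (.nx 702 2642247 (.nr 701 2097153 (.nr 684 70 .s1 (.nx 693 32769 (.nx 685 408 (.l1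
  (.ls 83 31 2347)) (.nr 692 1048577 (.lg 0 false 7 97 101 17 0 414960) .out)) (.nr 700 65537 (.nr
  697 824 (.lg 0 true 4 73 73 16 0 11856) (.nx 699 416129 (.lg 2 false 2 89 89 16 62369 59280)
  .out)) .out))) .out) .out) (.nx 723 2642247 (.nr 722 2097153 (.nr 704 73 .s1 (.nx 705 408 (.l1
  (.ls 83 43 2252)) (.nr 721 1048577 (.nx 712 32769 (.lg 0 false 7 101 103 23 0 1244880) (.nr 720
  65537 (.nr 717 846 (.lg 0 true 5 73 73 23 0 59280) (.nx 719 416129 (.lg 2 true 2 89 89 19 61239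
  11856) .out)) .out)) .out))) .out) .out)) (.na 745 82 (.nx 744 2642247 (.nr 743 2097153 (.nr 725
  75 .s1 (.nx 734 32769 (.nx 726 408 (.l1 (.ls 79 41 2193)) (.nr 733 1048577 (.lg 0 false 7 89 89
  29 0 414960) .out)) (.nr 742 65537 (.nr 739 913 (.lg 0 true 5 71 71 29 0 59280) (.nx 741 416129
  (.lg 2 true 2 79 79 17 61239 11856) .out)) .out))) .out) .out) (.na 764 86 (.nx 763 2642247 (.nr
  762 2097153 (.nr 746 81 .s1 (.nx 753 32769 (.nx 747 408 (.l1 (.ls 79 37 2033)) (.nr 752 1048577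
  (.lg 0 false 5 97 97 23 0 59280) .out)) (.nr 761 65537 (.nr 758 957 (.lg 0 true 5 73 73 23 0
  59280) (.nx 760 416129 (.lg 2 false 2 83 83 19 61239 11856) .out)) .out))) .out) .out) (.nx 778
  2642247 (.nr 777 2097153 (.nr 765 85 .s1 (.nx 766 408 (.l1 (.ls 83 37 1938)) (.nr 776 1048577
  (.nx 769 32769 (.lg 0 false 3 101 101 19 0 177840) (.nr 775 65537 (.nr 772 990 (.lg 0 true 3 73
  73 19 0 35568) (.nx 774 416129 (.lg 2 false 2 83 83 19 61239 11856) .out)) .out)) .out))) .out)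
  .out))))) (.na 846 104 (.na 797 92 (.na 796 91 (.nx 795 2642247 (.nr 794 2097153 (.nr 780 88 .s1
  (.nx 786 32769 (.nx 781 408 (.l1 (.ls 73 29 1873)) (.nr 785 1048577 (.lg 0 false 4 97 97 16 0
  59280) .out)) (.nr 793 65537 (.nr 790 1013 (.lg 0 true 4 71 71 16 0 11856) (.nx 792 416129 (.lg 2
  false 2 79 79 16 61239 11856) .out)) .out))) .out) .out) .ne) (.na 813 97 (.nx 812 2642247 (.nr
  811 2097153 (.nr 798 91 .s1 (.nx 799 408 (.l1 (.ls 83 41 1812)) (.nr 810 1482912 (.nx 804 30505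
  (.lg 0 false 5 97 101 31 0 177840) (.nr 809 65537 (.nr 807 1079 (.lg 0 true 3 79 79 19 0 35568)
  (.nx 808 416129 (.lg 2 false 1 89 89 19 65784 11856) .out)) .out)) .out))) .out) .out) (.na 830
  101 (.nx 829 2642247 (.nr 828 2097153 (.nr 814 96 .s1 (.nx 815 408 (.l1 (.ls 73 29 1719)) (.nr
  827 1482912 (.nx 820 30505 (.lg 0 false 5 89 89 17 0 177840) (.nr 826 65537 (.nr 823 513 (.lg 0
  true 3 61 61 16 0 17784) (.nx 825 416129 (.lg 2 true 2 79 79 16 100180 11856) .out)) .out))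
  .out))) .out) .out) (.nx 845 2642247 (.nr 844 2097153 (.nr 831 100 .s1 (.nx 832 408 (.l1 (.ls 73
  29 1651)) (.nr 843 1482912 (.nx 836 30505 (.lg 0 false 4 89 89 17 0 11856) (.nr 842 65537 (.nr
  839 513 (.lg 0 true 3 61 61 16 0 17784) (.nx 841 416129 (.lg 2 true 2 79 79 16 100180 11856)
  .out)) .out)) .out))) .out) .out)))) (.na 876 118 (.na 860 109 (.nx 859 2642247 (.nr 858 2097153
  (.nr 847 103 .s1 (.nx 852 30505 (.nx 848 408 (.l1 (.ls 83 41 1603)) (.nr 851 1482912 (.lg 0 false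
  3 97 101 29 0 177840) .out)) (.nr 857 65537 (.nr 855 1213 (.lg 0 true 3 79 79 29 0 35568) (.nx
  856 416129 (.lg 2 false 1 89 89 23 65784 59280) .out)) .out))) .out) .out) (.nx 875 2642247 (.nr
  874 2097153 (.nr 861 108 .s1 (.nx 867 30505 (.nx 862 408 (.l1 (.ls 73 29 1530)) (.nr 866 1482912
  (.lg 0 false 4 89 89 17 0 59280) .out)) (.nr 873 65537 (.nr 871 1313 (.lg 0 true 4 71 71 17 0
  11856) (.nx 872 416129 (.lg 2 false 1 79 79 16 65784 5928) .out)) .out))) .out) .out)) (.na 892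
  122 (.nx 891 2642247 (.nr 890 2097153 (.nr 877 117 .s1 (.nx 878 408 (.l1 (.ls 79 37 1413)) (.nr
  889 1482912 (.nx 883 30505 (.lg 0 false 5 89 89 23 0 59280) (.nr 888 65537 (.nr 885 513 (.lg 0
  true 2 67 67 19 0 11856) (.nx 887 416129 (.lg 2 true 2 79 79 19 100180 11856) .out)) .out))
  .out))) .out) .out) (.na 908 124 (.nx 907 2642247 (.nr 906 2097153 (.nr 893 121 .s1 (.nx 900
  30505 (.nx 894 408 (.l1 (.ls 73 37 1367)) (.nr 899 1482912 (.lg 0 false 5 89 89 23 0 59280)
  .out)) (.nr 905 65537 (.nr 902 513 (.lg 0 true 2 61 61 19 0 11856) (.nx 904 416129 (.lg 2 true 2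
  79 79 19 100180 11856) .out)) .out))) .out) .out) (.nx 923 2642247 (.nr 922 2097153 (.nr 909 124
  .s1 (.nx 919 416129 (.nx 910 408 (.l1 (.ls 89 41 1345)) (.nr 918 1482912 (.nr 914 65537 (.nx 911
  4095 (.l1 (.ls 67 67 133894)) (.lg 0 false 3 97 97 29 0 177840)) (.nx 917 26009 (.lg 0 false 3
  101 103 29 0 177840) .out)) .out)) (.nr 921 513 (.lg 0 true 2 73 73 23 0 11856) .out))) .out)
  .out)))))))

def T95_1 : Ph :=
  (.na 667 167 (.na 409 87 (.na 225 52 (.na 142 36 (.na 66 28 (.na 34 24 (.nx 33 1664512 (.nr 32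
  1048577 (.nr 1 20 .s1 (.nx 3 168 (.nr 2 220 (.lg 0 false 1 31 31 11 0 5040) (.l1 .sk)) (.nx 4 169
  (.l1 .sk) (.nx 5 257 (.l1 (.ls 83 31 1632)) (.nr 31 311745 (.nr 22 77937 (.nx 16 165142 (.lg 0
  true 11 89 89 16 0 1848) (.nr 21 513 (.lg 0 true 5 79 79 16 0 840) .out)) (.nx 30 20644 (.nx 27
  8193 (.lg 0 false 5 89 97 16 0 5040) (.nr 29 110219 (.lg 0 true 2 89 89 13 0 5040) .out)) .out))
  .out))))) .out) .out) (.na 65 27 (.nx 64 1664512 (.nr 63 1048577 (.nr 35 21 .s1 (.nx 38 169 (.nx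
  37 168 (.nr 36 248 (.lg 0 true 1 23 23 13 0 1008) (.l1 .sk)) (.l1 .sk)) (.nx 51 41287 (.nx 39 257
  (.l1 (.ls 79 41 1565)) (.nr 50 311745 (.nr 44 110219 (.lg 0 false 5 89 89 19 0 5040) (.nx 49 8193
  (.lg 0 false 5 83 83 19 0 5040) .out)) .out)) (.nr 62 65537 (.nr 56 513 (.lg 0 true 5 73 73 19 0
  5040) (.nx 61 165142 (.lg 2 false 5 83 89 19 27041 5040) .out)) .out)))) .out) .out) (.lg 0 false
  1 0 0 7 0 24))) (.na 116 31 (.na 91 29 (.nx 90 1664512 (.nr 89 1048577 (.nr 67 25 .s1 (.nx 70 169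
  (.nx 69 168 (.nr 68 266 (.lg 0 true 1 23 23 13 0 5040) (.l1 .sk)) (.l1 .sk)) (.nx 71 257 (.l1
  (.ls 79 41 1341)) (.nr 88 311745 (.nx 76 20644 (.lg 0 false 5 89 89 19 0 5040) (.nr 87 77937 (.nr
  81 513 (.lg 0 true 5 73 73 19 0 1680) (.nx 86 165142 (.lg 2 false 5 83 89 19 53393 5040) .out))
  .out)) .out)))) .out) .out) (.nx 115 1664512 (.nr 114 1048577 (.nr 92 26 .s1 (.nx 102 20644 (.nx
  96 257 (.nx 94 168 (.nr 93 285 (.lg 0 false 1 29 29 13 0 13104) (.l1 .sk)) (.nx 95 169 (.l1 .sk)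
  (.l1 (.ls 79 23 1295)))) (.nr 101 311745 (.lg 0 false 5 97 97 16 0 5040) .out)) (.nr 113 77937
  (.nr 107 513 (.lg 0 true 5 71 71 16 0 840) (.nx 112 165142 (.lg 2 false 5 89 97 16 53393 5040)
  .out)) .out))) .out) .out)) (.na 141 32 (.nx 140 1664512 (.nr 139 1048577 (.nr 117 29 .s1 (.nx
  119 168 (.nr 118 294 (.lg 0 false 1 19 19 13 0 1008) (.l1 .sk)) (.nx 120 169 (.l1 .sk) (.nx 121
  257 (.l1 (.ls 79 29 1212)) (.nr 138 311745 (.nx 126 20644 (.lg 0 false 5 97 97 16 0 5040) (.nr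
  137 77937 (.nr 131 513 (.lg 0 true 5 71 71 16 0 840) (.nx 136 165142 (.lg 2 false 5 89 97 16
  53393 5040) .out)) .out)) .out))))) .out) .out) .ne))) (.na 187 43 (.na 143 39 (.lg 0 false 1 0 0
  7 0 24) (.na 165 41 (.nx 164 1664512 (.nr 163 881745 (.nr 144 37 .s1 (.nx 147 169 (.nx 146 168
  (.nr 145 377 (.l1 (.ls 23 31 726)) (.l1 .sk)) (.l1 .sk)) (.nx 154 20644 (.nx 148 257 (.l1 (.ls 73
  31 964)) (.nr 153 440873 (.lg 0 false 5 89 89 19 0 32760) .out)) (.nr 162 46342 (.nr 159 377 (.lg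
  0 true 5 71 71 19 0 32760) (.nx 161 104033 (.lg 2 true 2 83 83 17 31795 13104) .out)) .out))))
  .out) .out) (.nx 186 1664512 (.nr 185 881745 (.nr 166 39 .s1 (.nx 170 257 (.nx 168 168 (.nr 167
  395 (.lg 0 false 1 19 19 16 0 1008) (.l1 .sk)) (.nx 169 169 (.l1 .sk) (.l1 (.ls 73 23 917))))
  (.nr 184 440873 (.nx 175 20644 (.lg 0 false 5 89 89 16 0 840) (.nr 183 46342 (.nr 180 395 (.lg 0
  true 5 67 67 16 0 840) (.nx 182 104033 (.lg 2 true 2 83 83 16 31795 1008) .out)) .out)) .out)))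
  .out) .out))) (.na 207 49 (.na 206 46 (.nx 205 1664512 (.nr 204 881745 (.nr 188 42 .s1 (.nx 189
  257 (.l1 (.ls 79 29 1539)) (.nr 203 440873 (.nx 194 26009 (.lg 0 false 5 89 89 16 0 840) (.nr 202
  32769 (.nx 197 104033 (.lg 0 false 3 79 79 16 0 504) (.nr 201 257 (.lg 0 true 4 71 71 16 0 336)
  .out)) .out)) .out))) .out) .out) .ne) (.na 208 51 (.lg 0 false 1 0 0 16 0 24) (.nx 224 1664512
  (.nr 223 881745 (.nr 209 50 .s1 (.nx 210 257 (.l1 (.ls 73 37 1298)) (.nr 222 623489 (.nx 215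
  20644 (.lg 0 false 5 89 89 16 0 5040) (.nr 221 46342 (.nr 218 257 (.lg 0 true 3 61 61 16 0 504)
  (.nx 220 104033 (.lg 2 false 2 79 79 16 34004 1008) .out)) .out)) .out))) .out) .out))))) (.na
  311 67 (.na 277 59 (.na 243 53 (.nx 242 1664512 (.nr 241 881745 (.nr 226 51 .s1 (.nx 230 257 (.nx
  228 168 (.nr 227 487 (.l1 (.ls 31 31 545)) (.l1 .sk)) (.nx 229 169 (.l1 .sk) (.l1 (.ls 79 37
  723)))) (.nr 240 623489 (.nx 235 26009 (.nr 232 110219 (.lg 0 false 2 89 97 23 0 65520) (.nx 234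
  13005 (.lg 0 false 2 97 101 23 0 65520) .out)) (.nr 239 32769 (.nr 237 487 (.lg 0 true 2 73 73 23
  0 4368) (.nx 238 104033 (.lg 2 true 1 83 83 19 17945 4368) .out)) .out)) .out))) .out) .out) (.na
  260 56 (.nx 259 1664512 (.nr 258 881745 (.nr 244 52 .s1 (.nx 251 20644 (.nx 245 257 (.l1 (.ls 73
  29 1249)) (.nr 250 623489 (.lg 0 false 5 89 97 16 0 5040) .out)) (.nr 257 46342 (.nr 254 257 (.lg
  0 true 3 67 67 16 0 504) (.nx 256 104033 (.lg 2 false 2 83 83 16 34004 336) .out)) .out))) .out)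
  .out) (.nx 276 1664512 (.nr 275 881745 (.nr 261 55 .s1 (.nx 268 20644 (.nx 262 257 (.l1 (.ls 71
  37 1182)) (.nr 267 623489 (.lg 0 false 5 83 83 23 0 1680) .out)) (.nr 274 46342 (.nr 271 257 (.lg
  0 true 3 61 61 23 0 1008) (.nx 273 104033 (.lg 2 false 2 73 73 19 34004 336) .out)) .out))) .out)
  .out))) (.na 309 63 (.na 293 61 (.nx 292 1664512 (.nr 291 881745 (.nr 278 58 .s1 (.nx 285 20644
  (.nx 279 257 (.l1 (.ls 71 23 1122)) (.nr 284 623489 (.lg 0 false 5 83 83 16 0 840) .out)) (.nr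
  290 46342 (.nr 287 257 (.lg 0 true 2 61 61 16 0 336) (.nx 289 104033 (.lg 2 false 2 79 79 16
  34004 336) .out)) .out))) .out) .out) (.nx 308 1664512 (.nr 307 881745 (.nr 294 60 .s1 (.nx 301
  20644 (.nx 295 257 (.l1 (.ls 73 23 1085)) (.nr 300 623489 (.lg 0 false 5 89 89 16 0 5040) .out))
  (.nr 306 46342 (.nr 303 257 (.lg 0 true 2 61 61 16 0 336) (.nx 305 104033 (.lg 2 false 2 79 79 16
  34004 336) .out)) .out))) .out) .out)) (.na 310 64 (.lg 0 false 1 0 0 16 0 24) .ne))) (.na 375 72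
  (.na 341 69 (.na 326 68 (.nx 325 1664512 (.nr 324 524289 (.nr 312 66 .s1 (.nx 315 169 (.nx 314
  168 (.nr 313 625 (.l1 (.ls 19 19 424)) (.l1 .sk)) (.l1 .sk)) (.nx 318 20644 (.lg 0 false 3 89 89
  16 0 504) (.nr 323 32769 (.nr 321 513 (.lg 0 true 3 71 71 16 0 504) (.nx 322 104033 (.lg 2 true 1
  79 79 16 22516 168) .out)) .out)))) .out) .out) (.nx 340 1664512 (.nr 339 524289 (.nr 327 67 .s1
  (.nx 329 168 (.nr 328 634 (.l1 (.ls 31 31 418)) (.l1 .sk)) (.nx 330 169 (.l1 .sk) (.nx 332 13005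
  (.lg 0 false 2 97 97 23 0 5040) (.nr 338 65537 (.nx 333 20644 (.lg 0 false 1 79 79 13 0 336) (.nr
  337 32769 (.nr 335 513 (.lg 0 true 2 73 73 23 0 336) (.nx 336 104033 (.lg 2 true 1 83 83 13 22516
  336) .out)) .out)) .out))))) .out) .out)) (.na 358 71 (.nx 357 1664512 (.nr 356 524289 (.nr 342
  68 .s1 (.nx 344 168 (.nr 343 652 (.l1 (.ls 19 19 412)) (.l1 .sk)) (.nx 345 169 (.l1 .sk) (.nx 350
  20644 (.lg 0 false 5 83 83 19 0 2520) (.nr 355 32769 (.nr 353 513 (.lg 0 true 3 67 67 17 0 504)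
  (.nx 354 104033 (.lg 2 true 1 73 73 16 22516 504) .out)) .out))))) .out) .out) (.nx 374 1664512
  (.nr 373 524289 (.nr 359 70 .s1 (.nx 361 168 (.nr 360 661 (.l1 (.ls 17 19 400)) (.l1 .sk)) (.nx
  362 169 (.l1 .sk) (.nx 367 20644 (.lg 0 false 5 83 83 16 0 840) (.nr 372 32769 (.nr 370 513 (.lg
  0 true 3 61 61 16 0 504) (.nx 371 104033 (.lg 2 true 1 73 73 16 22516 168) .out)) .out))))) .out)
  .out))) (.na 377 83 (.na 376 81 (.lg 0 false 1 0 0 16 0 24) (.lg 0 false 1 0 0 16 0 24)) (.na 392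
  84 (.nx 391 1664512 (.nr 390 524289 (.nr 378 82 .s1 (.nx 384 20644 (.nx 380 168 (.nr 379 771 (.l1
  (.ls 19 19 343)) (.l1 .sk)) (.nx 381 169 (.l1 .sk) (.lg 0 false 3 89 89 16 0 5040))) (.nr 389
  32769 (.nr 387 513 (.lg 0 true 3 61 61 16 0 504) (.nx 388 104033 (.lg 2 true 1 71 71 16 22516
  168) .out)) .out))) .out) .out) (.nx 408 1664512 (.nr 407 524289 (.nr 393 83 .s1 (.nx 395 168
  (.nr 394 799 (.l1 (.ls 19 37 338)) (.l1 .sk)) (.nx 396 169 (.l1 .sk) (.nx 401 20644 (.lg 0 false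
  5 79 79 31 0 5040) (.nr 406 32769 (.nr 404 513 (.lg 0 true 3 61 61 29 0 1008) (.nx 405 104033
  (.lg 2 true 1 71 71 23 22516 1008) .out)) .out))))) .out) .out)))))) (.na 566 129 (.na 509 108
  (.na 454 92 (.na 422 89 (.nx 421 1664512 (.nr 420 524289 (.nr 410 87 .s1 (.nx 413 169 (.nx 412
  168 (.nr 411 817 (.l1 (.ls 23 23 327)) (.l1 .sk)) (.l1 .sk)) (.nx 416 20644 (.lg 0 false 3 89 89
  17 0 5040) (.nr 419 32769 (.nr 417 513 (.lg 0 false 1 73 73 16 0 504) (.nx 418 104033 (.lg 2 true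
  1 73 73 16 22516 504) .out)) .out)))) .out) .out) (.na 438 91 (.nx 437 1664512 (.nr 436 524289
  (.nr 423 89 .s1 (.nx 431 20644 (.nx 425 168 (.nr 424 836 (.l1 (.ls 17 19 320)) (.l1 .sk)) (.nx
  426 169 (.l1 .sk) (.lg 0 false 5 79 79 17 0 5040))) (.nr 435 32769 (.nr 433 513 (.lg 0 true 2 59
  59 16 0 336) (.nx 434 104033 (.lg 2 true 1 67 67 16 22516 168) .out)) .out))) .out) .out) (.nx
  453 1664512 (.nr 452 1048577 (.nr 439 91 .s1 (.nx 442 169 (.nx 441 168 (.nr 440 845 (.l1 (.ls 19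
  23 313)) (.l1 .sk)) (.l1 .sk)) (.nx 447 20644 (.lg 0 false 5 83 83 23 0 10920) (.nr 451 32769
  (.nr 449 513 (.lg 0 true 2 61 61 19 0 4368) (.nx 450 104033 (.lg 2 true 1 71 71 17 22516 2184)
  .out)) .out)))) .out) .out))) (.na 481 103 (.na 467 93 (.nx 466 1664512 (.nr 465 1048577 (.nr 455
  92 .s1 (.nx 462 104033 (.nx 457 168 (.nr 456 854 (.l1 (.ls 19 31 309)) (.l1 .sk)) (.nx 458 169
  (.l1 .sk) (.nx 460 13005 (.lg 0 false 2 97 97 19 0 5040) (.nr 461 65537 (.lg 0 false 1 97 97 19 0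
  5040) .out)))) (.nr 464 513 (.lg 0 true 2 71 71 19 0 336) .out))) .out) .out) (.nx 480 1664512
  (.nr 479 1048577 (.nr 468 93 .s1 (.nx 470 168 (.nr 469 946 (.l1 (.ls 23 23 306)) (.l1 .sk)) (.nx
  471 169 (.l1 .sk) (.nx 477 104033 (.nr 473 65537 (.lg 0 false 2 89 89 17 0 5040) (.nx 476 13005
  (.lg 0 false 3 83 83 17 0 504) .out)) (.nr 478 513 (.lg 0 false 1 73 73 16 0 504) .out))))) .out)
  .out)) (.na 496 104 (.nx 495 1664512 (.nr 494 1048577 (.nr 482 103 .s1 (.nx 485 169 (.nx 484 168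
  (.nr 483 955 (.l1 (.ls 19 17 277)) (.l1 .sk)) (.l1 .sk)) (.nx 491 104033 (.nr 487 65537 (.lg 0
  false 2 79 79 16 0 5040) (.nx 490 13005 (.lg 0 false 3 79 79 16 0 504) .out)) (.nr 493 513 (.lg 0
  true 2 59 59 16 0 336) .out)))) .out) .out) (.nx 508 1664512 (.nr 507 1048577 (.nr 497 104 .s1
  (.nx 504 104033 (.nx 499 168 (.nr 498 992 (.l1 (.ls 29 31 274)) (.l1 .sk)) (.nx 500 169 (.l1 .sk)
  (.nx 502 13005 (.lg 0 false 2 89 89 29 0 13104) (.nr 503 65537 (.lg 0 false 1 89 89 23 0 13104)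
  .out)))) (.nr 506 513 (.lg 0 true 2 67 67 29 0 4368) .out))) .out) .out)))) (.na 524 119 (.na 510
  116 (.lg 0 false 1 0 0 16 0 24) (.na 523 117 (.nx 522 1664512 (.nr 521 1048577 (.nr 511 116 .s1
  (.nx 518 104033 (.nx 513 168 (.nr 512 1074 (.l1 (.ls 23 23 246)) (.l1 .sk)) (.nx 514 169 (.l1
  .sk) (.nx 516 13005 (.lg 0 false 2 89 89 23 0 1008) (.nr 517 65537 (.lg 0 false 1 89 89 19 0
  1008) .out)))) (.nr 520 513 (.lg 0 true 2 67 67 23 0 336) .out))) .out) .out) (.lg 0 false 1 0 0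
  16 0 24))) (.na 553 124 (.na 540 123 (.nx 539 1664512 (.nr 538 1048577 (.nr 525 119 .s1 (.nx 533
  20644 (.nx 527 168 (.nr 526 1129 (.l1 (.ls 16 23 240)) (.l1 .sk)) (.nx 528 169 (.l1 .sk) (.lg 0
  false 5 79 79 23 0 840))) (.nr 537 32769 (.nr 535 513 (.lg 0 true 2 59 59 16 0 336) (.nx 536
  104033 (.lg 2 true 1 67 67 16 22516 168) .out)) .out))) .out) .out) (.nx 552 1664512 (.nr 551
  1048577 (.nr 541 123 .s1 (.nx 547 20644 (.nx 543 168 (.nr 542 1139 (.l1 (.ls 19 19 232)) (.l1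
  .sk)) (.nx 544 169 (.l1 .sk) (.lg 0 false 3 83 83 19 0 504))) (.nr 550 32769 (.nr 548 513 (.lg 0
  false 1 73 73 17 0 5040) (.nx 549 104033 (.lg 2 true 1 71 71 17 22516 504) .out)) .out))) .out)
  .out)) (.na 565 128 (.nx 564 1664512 (.nr 563 1048577 (.nr 554 124 .s1 (.nx 561 104033 (.nx 559
  13005 (.nx 556 168 (.nr 555 1175 (.l1 (.ls 23 23 230)) (.l1 .sk)) (.nx 557 169 (.l1 .sk) (.lg 0
  false 2 83 83 23 0 336))) (.nr 560 65537 (.lg 0 true 1 83 83 19 0 336) .out)) (.nr 562 513 (.lg 0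
  true 1 67 67 19 0 336) .out))) .out) .out) .ne)))) (.na 611 151 (.na 598 137 (.na 576 131 (.nx
  575 832257 (.nr 574 1048577 (.nr 567 129 .s1 (.nx 570 14113 (.nx 568 257 (.l1 (.ls 67 29 515))
  (.nr 569 741457 (.lg 0 true 1 83 83 17 0 504) .out)) (.nr 573 16385 (.nr 571 1025 (.lg 0 false 1
  67 67 17 0 504) (.nx 572 104033 (.lg 2 false 1 61 61 17 16553 1008) .out)) .out))) .out) .out)
  (.na 587 136 (.nx 586 832257 (.nr 585 1048577 (.nr 577 131 .s1 (.nx 581 14113 (.nx 578 257 (.l1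
  (.ls 61 19 507)) (.nr 580 741457 (.lg 0 false 2 73 73 16 0 336) .out)) (.nr 584 16385 (.nr 582
  1025 (.lg 0 false 1 61 61 16 0 168) (.nx 583 104033 (.lg 2 false 1 59 59 16 16553 1008) .out))
  .out))) .out) .out) (.nx 597 832257 (.nr 596 1048577 (.nr 588 136 .s1 (.nx 592 13005 (.nx 589 257
  (.l1 (.ls 73 31 488)) (.nr 591 741457 (.lg 0 false 2 83 83 29 0 1008) .out)) (.nr 595 16385 (.nx
  593 104033 (.lg 0 true 1 73 73 29 0 336) (.nr 594 1025 (.lg 0 true 1 67 67 29 0 336) .out))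
  .out))) .out) .out))) (.na 600 147 (.na 599 139 (.lg 0 false 1 0 0 16 0 24) (.lg 0 false 1 0 0 16
  0 24)) (.na 601 149 (.lg 0 false 1 0 0 16 0 24) (.nx 610 832257 (.nr 609 1048577 (.nr 602 149 .s1
  (.nx 605 14113 (.nx 603 257 (.l1 (.ls 61 19 446)) (.nr 604 741457 (.lg 0 true 1 73 73 16 0 168)
  .out)) (.nr 608 16385 (.nr 606 1025 (.lg 0 false 1 59 59 16 0 168) (.nx 607 104033 (.lg 2 false 1
  53 53 16 16553 168) .out)) .out))) .out) .out)))) (.na 633 159 (.na 613 156 (.na 612 153 (.lg 0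
  false 1 0 0 16 0 24) (.lg 0 false 1 0 0 16 0 24)) (.na 623 157 (.nx 622 832257 (.nr 621 1048577
  (.nr 614 156 .s1 (.nx 619 104033 (.nx 615 257 (.l1 (.ls 73 37 426)) (.nr 618 741457 (.nx 616
  13005 (.lg 0 true 1 83 83 31 0 13104) (.nr 617 16385 (.lg 0 true 1 73 73 31 0 13104) .out))
  .out)) (.nr 620 1025 (.lg 0 true 1 67 67 31 0 13104) .out))) .out) .out) (.nx 632 832257 (.nr 631
  1048577 (.nr 624 157 .s1 (.nx 627 14113 (.nx 625 257 (.l1 (.ls 67 19 423)) (.nr 626 741457 (.lg 0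
  true 1 83 83 16 0 5040) .out)) (.nr 630 16385 (.nr 628 1025 (.lg 0 false 1 61 61 16 0 168) (.nx
  629 104033 (.lg 2 false 1 53 53 16 16553 168) .out)) .out))) .out) .out))) (.na 649 163 (.na 641
  161 (.nx 640 832257 (.nr 639 1048577 (.nr 634 159 .s1 (.nx 635 257 (.l1 (.ls 67 23 418)) (.nr 638
  741457 (.nr 636 16385 (.lg 0 false 1 83 83 17 0 504) (.nx 637 13005 (.lg 0 true 1 83 83 17 0
  1008) .out)) .out))) .out) .out) (.nx 648 832257 (.nr 647 1048577 (.nr 642 161 .s1 (.nx 643 257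
  (.l1 (.ls 67 19 413)) (.nr 646 741457 (.nr 644 16385 (.lg 0 false 1 79 79 17 0 168) (.nx 645
  13005 (.lg 0 true 1 79 79 17 0 168) .out)) .out))) .out) .out)) (.na 657 164 (.nx 656 832257 (.nr
  655 1048577 (.nr 650 163 .s1 (.nx 651 257 (.l1 (.ls 83 19 408)) (.nr 654 741457 (.nr 652 16385
  (.lg 0 false 1 83 83 16 0 5040) (.nx 653 13005 (.lg 0 true 1 79 79 16 0 168) .out)) .out))) .out)
  .out) (.nx 666 832257 (.nr 665 1048577 (.nr 658 164 .s1 (.nx 663 104033 (.nx 659 257 (.l1 (.ls 73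
  29 405)) (.nr 662 741457 (.nx 660 13005 (.lg 0 false 1 83 83 23 0 336) (.nr 661 16385 (.lg 0 true
  1 73 73 23 0 336) .out)) .out)) (.nr 664 1025 (.lg 0 true 1 67 67 23 0 336) .out))) .out)
  .out))))))) (.na 853 229 (.na 748 196 (.na 704 181 (.na 684 172 (.na 668 168 (.lg 0 false 1 0 0
  16 0 24) (.na 676 169 (.nx 675 832257 (.nr 674 1048577 (.nr 669 168 .s1 (.nx 670 257 (.l1 (.ls 67
  37 396)) (.nr 673 741457 (.nr 671 16385 (.lg 0 false 1 83 83 29 0 5040) (.nx 672 13005 (.lg 0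
  true 1 79 79 29 0 1008) .out)) .out))) .out) .out) (.nx 683 832257 (.nr 682 1048577 (.nr 677 169
  .s1 (.nx 678 257 (.l1 (.ls 61 23 393)) (.nr 681 741457 (.nr 679 16385 (.lg 0 false 1 79 79 17 0
  2184) (.nx 680 13005 (.lg 0 true 1 79 79 17 0 13104) .out)) .out))) .out) .out))) (.na 695 177
  (.na 694 173 (.nx 693 832257 (.nr 692 1048577 (.nr 685 172 .s1 (.nx 690 104033 (.nx 686 257 (.l1
  (.ls 73 29 387)) (.nr 689 741457 (.nx 687 13005 (.lg 0 false 1 83 83 23 0 336) (.nr 688 16385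
  (.lg 0 true 1 73 73 23 0 336) .out)) .out)) (.nr 691 1025 (.lg 0 true 1 67 67 23 0 336) .out)))
  .out) .out) (.lg 0 false 1 0 0 16 0 24)) (.na 703 179 (.nx 702 832257 (.nr 701 1048577 (.nr 696
  177 .s1 (.nx 697 257 (.l1 (.ls 53 23 376)) (.nr 700 741457 (.nr 698 16385 (.lg 0 false 1 89 89 17
  0 5040) (.nx 699 13005 (.lg 0 true 1 83 83 17 0 504) .out)) .out))) .out) .out) (.lg 0 false 1 0
  0 16 0 24)))) (.na 721 184 (.na 712 182 (.nx 711 832257 (.nr 710 1048577 (.nr 705 181 .s1 (.nx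
  706 257 (.l1 (.ls 61 19 367)) (.nr 709 741457 (.nr 707 16385 (.lg 0 false 1 73 73 16 0 168) (.nx
  708 13005 (.lg 0 true 1 73 73 16 0 168) .out)) .out))) .out) .out) (.na 713 183 .ne (.nx 720
  832257 (.nr 719 1048577 (.nr 714 183 .s1 (.nx 715 257 (.l1 (.ls 59 23 363)) (.nr 718 741457 (.nx
  716 13005 (.lg 0 true 1 83 83 17 0 5040) (.nr 717 16385 (.lg 0 false 1 83 83 17 0 504) .out))
  .out))) .out) .out))) (.na 732 191 (.na 731 189 (.nx 730 832257 (.nr 729 1048577 (.nr 722 184 .s1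
  (.nx 723 257 (.l1 (.ls 71 31 361)) (.nr 728 741457 (.nx 724 13005 (.lg 0 false 1 79 79 19 0 336)
  (.nr 727 16385 (.nx 725 104033 (.lg 0 true 1 71 71 19 0 336) (.nr 726 1025 (.lg 0 true 1 61 61 19
  0 336) .out)) .out)) .out))) .out) .out) (.lg 0 false 1 0 0 16 0 24)) (.na 740 193 (.nx 739
  832257 (.nr 738 1048577 (.nr 733 191 .s1 (.nx 734 257 (.l1 (.ls 61 19 348)) (.nr 737 741457 (.nr
  735 16385 (.lg 0 false 1 73 73 16 0 168) (.nx 736 13005 (.lg 0 true 1 73 73 16 0 1008) .out))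
  .out))) .out) .out) (.nx 747 832257 (.nr 746 1048577 (.nr 741 193 .s1 (.nx 742 257 (.l1 (.ls 79
  19 345)) (.nr 745 741457 (.nr 743 16385 (.lg 0 false 1 79 79 16 0 168) (.nx 744 13005 (.lg 0 true
  1 73 73 16 0 168) .out)) .out))) .out) .out))))) (.na 792 211 (.na 765 201 (.na 749 197 (.lg 0
  false 1 0 0 16 0 24) (.na 757 199 (.nx 756 832257 (.nr 755 1048577 (.nr 750 197 .s1 (.nx 751 257
  (.l1 (.ls 79 19 338)) (.nr 754 741457 (.nr 752 16385 (.lg 0 false 1 79 79 16 0 168) (.nx 753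
  13005 (.lg 0 true 1 73 73 16 0 168) .out)) .out))) .out) .out) (.nx 764 832257 (.nr 763 1048577
  (.nr 758 199 .s1 (.nx 759 257 (.l1 (.ls 61 19 334)) (.nr 762 741457 (.nr 760 16385 (.lg 0 false 1
  73 73 16 0 168) (.nx 761 13005 (.lg 0 true 1 73 73 16 0 168) .out)) .out))) .out) .out))) (.na
  781 204 (.na 773 203 (.nx 772 832257 (.nr 771 1048577 (.nr 766 201 .s1 (.nx 767 257 (.l1 (.ls 61
  23 331)) (.nr 770 741457 (.nx 768 13005 (.lg 0 true 1 79 79 19 0 1008) (.nr 769 16385 (.lg 0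
  false 1 79 79 19 0 504) .out)) .out))) .out) .out) (.nx 780 832257 (.nr 779 1048577 (.nr 774 203
  .s1 (.nx 775 257 (.l1 (.ls 83 23 328)) (.nr 778 741457 (.nr 776 16385 (.lg 0 false 1 83 83 17 0
  168) (.nx 777 13005 (.lg 0 true 1 79 79 17 0 168) .out)) .out))) .out) .out)) (.na 791 207 (.nx
  790 832257 (.nr 789 1048577 (.nr 782 204 .s1 (.nx 787 104033 (.nx 785 13005 (.nx 783 257 (.l1
  (.ls 71 37 326)) (.nr 784 741457 (.lg 0 true 1 83 83 31 0 1008) .out)) (.nr 786 16385 (.lg 0 true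
  1 71 71 31 0 1008) .out)) (.nr 788 1025 (.lg 0 true 1 67 67 31 0 1008) .out))) .out) .out) (.lg 0
  false 1 0 0 16 0 24)))) (.na 819 217 (.na 810 213 (.na 800 212 (.nx 799 832257 (.nr 798 1048577
  (.nr 793 211 .s1 (.nx 794 257 (.l1 (.ls 61 19 316)) (.nr 797 741457 (.nr 795 16385 (.lg 0 false 1
  73 73 16 0 168) (.nx 796 13005 (.lg 0 true 1 73 73 16 0 1008) .out)) .out))) .out) .out) (.nx 809
  832257 (.nr 808 1048577 (.nr 801 212 .s1 (.nx 804 14113 (.nx 802 257 (.l1 (.ls 73 29 314)) (.nr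
  803 741457 (.lg 0 false 1 83 83 23 0 336) .out)) (.nr 807 16385 (.nr 805 1025 (.lg 0 true 1 67 67
  23 0 336) (.nx 806 104033 (.lg 2 false 1 61 61 23 16553 336) .out)) .out))) .out) .out)) (.na 818
  216 (.nx 817 832257 (.nr 816 1048577 (.nr 811 213 .s1 (.nx 812 257 (.l1 (.ls 67 23 313)) (.nr 815
  741457 (.nr 813 16385 (.lg 0 false 1 83 83 19 0 5040) (.nx 814 13005 (.lg 0 true 1 79 79 19 0
  504) .out)) .out))) .out) .out) (.lg 0 false 1 0 0 16 0 24))) (.na 837 223 (.na 827 221 (.nx 826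
  832257 (.nr 825 1048577 (.nr 820 217 .s1 (.nx 821 257 (.l1 (.ls 83 23 307)) (.nr 824 741457 (.nx
  822 13005 (.lg 0 true 1 79 79 17 0 168) (.nr 823 16385 (.lg 0 false 1 79 79 17 0 168) .out))
  .out))) .out) .out) (.nx 836 832257 (.nr 835 1048577 (.nr 828 221 .s1 (.nx 831 14113 (.nx 829 257
  (.l1 (.ls 71 29 301)) (.nr 830 741457 (.lg 0 false 1 79 79 23 0 2184) .out)) (.nr 834 16385 (.nr
  832 1025 (.lg 0 true 1 61 61 23 0 2184) (.nx 833 104033 (.lg 2 true 1 61 61 23 16553 2184) .out))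
  .out))) .out) .out)) (.na 845 227 (.nx 844 832257 (.nr 843 1048577 (.nr 838 223 .s1 (.nx 839 257
  (.l1 (.ls 73 19 299)) (.nr 842 741457 (.nx 840 13005 (.lg 0 true 1 73 73 16 0 168) (.nr 841 16385
  (.lg 0 false 1 73 73 16 0 168) .out)) .out))) .out) .out) (.nx 852 832257 (.nr 851 1048577 (.nr
  846 227 .s1 (.nx 847 257 (.l1 (.ls 71 19 293)) (.nr 850 741457 (.nr 848 16385 (.lg 0 false 1 73
  73 17 0 168) (.nx 849 13005 (.lg 0 true 1 73 73 17 0 168) .out)) .out))) .out) .out)))))) (.na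
  1736 512 (.na 892 244 (.na 872 236 (.na 861 232 (.nx 860 832257 (.nr 859 1048577 (.nr 854 229 .s1
  (.nx 855 257 (.l1 (.ls 59 19 291)) (.nr 858 741457 (.nr 856 16385 (.lg 0 false 1 73 73 17 0 168)
  (.nx 857 13005 (.lg 0 true 1 71 71 17 0 168) .out)) .out))) .out) .out) (.na 871 233 (.nx 870
  832257 (.nr 869 1048577 (.nr 862 232 .s1 (.nx 865 14113 (.nx 863 257 (.l1 (.ls 73 23 287)) (.nr
  864 741457 (.lg 0 false 1 83 83 23 0 336) .out)) (.nr 868 16385 (.nr 866 1025 (.lg 0 true 1 67 67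
  23 0 336) (.nx 867 104033 (.lg 2 true 1 61 61 23 16553 336) .out)) .out))) .out) .out) (.lg 0
  false 1 0 0 16 0 24))) (.na 890 241 (.na 882 239 (.nx 881 832257 (.nr 880 1048577 (.nr 873 236
  .s1 (.nx 876 14113 (.nx 874 257 (.l1 (.ls 53 29 282)) (.nr 875 741457 (.lg 0 false 1 79 79 23 0
  336) .out)) (.nr 879 16385 (.nr 877 1025 (.lg 0 true 1 61 61 23 0 336) (.nx 878 104033 (.lg 2
  true 1 53 53 23 16553 336) .out)) .out))) .out) .out) (.nx 889 832257 (.nr 888 1048577 (.nr 883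
  239 .s1 (.nx 884 257 (.l1 (.ls 59 19 279)) (.nr 887 741457 (.nr 885 16385 (.lg 0 false 1 71 71 17
  0 168) (.nx 886 13005 (.lg 0 true 1 71 71 17 0 168) .out)) .out))) .out) .out)) (.na 891 243 (.lg
  0 false 1 0 0 16 0 24) (.lg 0 false 1 0 0 16 0 24)))) (.na 918 251 (.na 902 248 (.nx 901 832257
  (.nr 900 1048577 (.nr 893 244 .s1 (.nx 894 257 (.l1 (.ls 59 29 273)) (.nr 899 741457 (.nx 895
  14113 (.lg 0 false 1 79 79 23 0 336) (.nr 898 16385 (.nr 896 1025 (.lg 0 true 1 59 59 23 0 336)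
  (.nx 897 104033 (.lg 2 false 1 59 59 23 16553 336) .out)) .out)) .out))) .out) .out) (.na 910 249
  (.nx 909 832257 (.nr 908 1048577 (.nr 903 248 .s1 (.nx 904 257 (.l1 (.ls 73 29 269)) (.nr 907
  741457 (.nr 905 16385 (.lg 0 true 1 83 83 23 0 336) (.nx 906 13005 (.lg 0 false 1 79 79 23 0 336)
  .out)) .out))) .out) .out) (.nx 917 832257 (.nr 916 1048577 (.nr 911 249 .s1 (.nx 912 257 (.l1
  (.ls 59 23 268)) (.nr 915 741457 (.nr 913 16385 (.lg 0 false 1 73 73 19 0 1008) (.nx 914 13005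
  (.lg 0 true 1 71 71 19 0 1008) .out)) .out))) .out) .out))) (.na 927 256 (.na 926 252 (.nx 925
  832257 (.nr 924 1048577 (.nr 919 251 .s1 (.nx 920 257 (.l1 (.ls 59 19 266)) (.nr 923 741457 (.nr
  921 16385 (.lg 0 false 1 73 73 17 0 1008) (.nx 922 13005 (.lg 0 true 1 71 71 17 0 168) .out))
  .out))) .out) .out) (.lg 0 false 1 0 0 16 0 24)) (.na 928 257 .ne (.nx 1735 832257 (.nr 1734
  1482912 (.nr 929 257 .s1 (.nx 1186 169 (.nx 1185 168 (.nr 1184 4700 (.la (.ls 37 19 129)) (.l1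
  .sk)) (.l1 .sk)) (.nx 1222 205 (.lx (.lp 79 17 129)) (.nr 1733 1048577 (.nr 1477 32769 (.la (.lg
  0 false 1 73 73 23 0)) (.nx 1732 10323 (.la (.lg 0 true 1 71 71 23 0)) .out)) .out)))) .out)
  .out))))) (.na 8522 5793 (.na 3828 1449 (.na 2372 725 (.nx 2371 832257 (.nr 2370 1482912 (.nr
  1737 512 .s1 (.nx 1942 205 (.nx 1905 168 (.nr 1904 6655 (.lx (.lp 37 19 182)) (.l1 .sk)) (.nx
  1906 169 (.l1 .sk) (.lx (.lp 73 19 182)))) (.nr 2369 1048577 (.nx 2155 22297 (.la (.lg 0 false 1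
  67 67 29 0)) (.nr 2368 32769 (.la (.lg 2 true 1 59 59 29 136543)) .out)) .out))) .out) .out) (.na
  2974 1024 (.nx 2973 10323 (.nr 2972 1048577 (.nr 2373 725 .s1 (.nx 2672 2049 (.la (.ls 61 37
  5793)) (.nr 2971 16385 (.la (.lg 0 true 1 31 31 29 0)) .out))) .out) .out) (.nx 3827 10323 (.nr
  3826 1048577 (.nr 2975 1024 .s1 (.nx 3400 2582 (.la (.ls 59 41 6513)) (.nr 3825 16385 (.la (.lg 0
  false 1 29 29 31 0)) .out))) .out) .out))) (.na 5282 2897 (.na 4430 2048 (.nx 4429 2582 (.nr 4428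
  524289 (.nr 3829 1449 .s1 (.la (.ls 53 37 4603))) .out) .out) (.nx 5281 3252 (.nr 5280 524289
  (.nr 4431 2048 .s1 (.la (.ls 53 37 5166))) .out) .out)) (.na 6653 4096 (.nx 6652 2582 (.nr 6651
  262145 (.nr 5283 2897 .s1 (.nx 5451 168 (.nr 5450 37597 (.lx (.lp 37 31 1025)) (.l1 .sk)) (.nx
  5452 169 (.l1 .sk) (.la (.ls 47 37 2294))))) .out) .out) (.nx 8521 2582 (.nr 8520 262145 (.nr
  6654 4096 .s1 (.nx 6822 168 (.nr 6821 53173 (.lx (.lp 41 31 1449)) (.l1 .sk)) (.nx 6823 169 (.l1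
  .sk) (.la (.ls 47 37 1623))))) .out) .out)))) (.na 13434 65536 (.na 11111 16384 (.na 9816 8192
  (.nx 9815 1292 (.nr 9814 65537 (.nr 8523 5793 .s1 (.lx (.lp 41 37 2049))) .out) .out) (.nx 11110
  1292 (.nr 11109 131073 (.nr 9817 8192 .s1 (.nx 10021 205 (.lx (.lp 41 37 4097)) (.nr 11108 65537
  (.lx (.lp 37 41 4097)) .out))) .out) .out)) (.na 12406 32768 (.nx 12405 1292 (.nr 12404 262145
  (.nr 11112 16384 .s1 (.nx 11316 205 (.lx (.lp 16 41 8193)) (.nr 12403 131073 (.lx (.lp 37 43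
  8193)) .out))) .out) .out) (.nx 13433 1025 (.nr 13432 262145 (.nr 12407 32768 .s1 (.nx 12611 205
  (.lx (.lp 16 0 16385)) (.nr 13431 131073 (.lx (.lp 31 47 16385)) .out))) .out) .out))) (.na 14464
  262144 (.na 14462 131072 (.nx 14461 1025 (.nr 14460 262145 (.nr 13435 65536 .s1 (.nx 13758 324
  (.lx (.lp 16 43 32769)) (.nr 14459 131073 (.lx (.lp 29 53 32769)) .out))) .out) .out) (.nx 14463
  324 (.l1 .sk) .out)) (.na 14466 524289 (.nx 14465 205 (.l1 .sk) .out) .out)))))))

def T95_2 : Ph :=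
  (.na 377 139 (.na 258 53 (.na 193 20 (.na 126 8 (.na 62 4 (.na 61 2 (.nx 60 330282 (.nr 59 311745
  (.nx 3 17 (.nx 2 16 (.nr 1 5 (.lg 0 true 1 23 23 5 0 9360) (.l1 .sk)) (.l1 .sk)) (.nr 47 38969
  (.nx 10 324 (.lg 0 true 7 73 73 9 0 1680) (.nr 46 4872 (.nx 24 20644 (.nr 17 309 (.lg 0 false 7
  71 71 9 0 1680) (.lg 2 false 7 79 79 9 1935 1680)) (.nr 45 78 (.lg 0 true 21 73 73 11 0 1008)
  .out)) .out)) (.nx 58 52 (.lg 0 false 11 71 71 9 0 528) .out))) .out) .out) .ne) (.na 101 5 (.nx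
  100 330282 (.nr 99 1246976 (.nr 63 1 .s1 (.nx 65 16 (.nr 64 14 (.l1 (.ls 16 13 66)) (.l1 .sk))
  (.nx 66 17 (.l1 .sk) (.nx 78 52 (.nr 67 311749 (.l1 (.ls 79 31 606)) (.lg 0 false 11 71 71 13 0
  528)) (.nr 98 19485 (.nr 94 2437 (.nx 79 193 (.l1 (.ls 53 47 8639)) (.nr 90 109 (.lg 0 true 11 67
  67 13 0 528) (.nx 93 20644 (.lg 2 true 3 61 61 9 1632 144) .out))) (.nx 97 3252 (.lg 0 false 3 83
  83 9 0 720) .out)) .out))))) .out) .out) (.na 125 6 (.nx 124 330282 (.nr 123 23172 (.nr 102 4 .s1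
  (.nr 117 2898 (.nx 103 193 (.l1 (.ls 59 41 7452)) (.nr 114 129 (.lg 0 true 11 67 67 16 0 2640)
  (.nx 116 20644 (.lg 2 true 2 67 67 11 1938 240) .out))) (.nx 119 17 (.nx 118 16 (.l1 .sk) (.l1
  .sk)) (.nx 122 3252 (.lg 0 false 3 83 83 11 0 720) .out)))) .out) .out) .ne))) (.na 148 13 (.na
  147 9 (.nx 146 330282 (.nr 145 77937 (.nr 127 7 .s1 (.nx 133 1919 (.nx 129 16 (.nr 128 26 (.l1
  (.ls 16 13 34)) (.l1 .sk)) (.nx 130 17 (.l1 .sk) (.lg 0 true 3 79 79 11 0 720))) (.nr 144 38969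
  (.nr 140 217 (.lg 0 true 7 67 67 13 0 336) (.nx 143 20644 (.lg 1 true 3 73 73 11 2602 144) .out))
  .out))) .out) .out) .ne) (.na 163 16 (.nx 162 330282 (.nr 161 77937 (.nr 149 13 .s1 (.nx 155 2851
  (.nx 151 16 (.nr 150 46 (.l1 (.ls 16 16 22)) (.l1 .sk)) (.nx 152 17 (.l1 .sk) (.lg 0 true 3 73 73
  11 0 1872))) (.nr 160 27556 (.nr 158 154 (.lg 0 true 3 67 67 11 0 1872) (.nx 159 20644 (.lg 1
  false 1 71 71 9 1239 624) .out)) .out))) .out) .out) (.na 178 17 (.nx 177 330282 (.nr 176 131073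
  (.nr 164 16 .s1 (.nx 167 17 (.nx 166 16 (.nr 165 49 (.l1 (.ls 17 11 18)) (.l1 .sk)) (.l1 .sk))
  (.nx 170 1757 (.lg 0 false 3 73 73 13 0 144) (.nr 175 32769 (.nr 173 154 (.lg 0 true 3 61 61 13 0
  144) (.nx 174 20644 (.lg 1 false 1 73 73 11 2390 240) .out)) .out)))) .out) .out) (.nx 192 330282
  (.nr 191 131073 (.nr 179 17 .s1 (.nx 181 16 (.nr 180 58 (.l1 (.ls 16 11 18)) (.l1 .sk)) (.nx 182
  17 (.l1 .sk) (.nx 185 2049 (.lg 0 true 3 79 79 16 0 720) (.nr 190 32769 (.nr 188 154 (.lg 0 true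
  3 61 61 16 0 144) (.nx 189 20644 (.lg 1 false 1 73 73 11 2049 240) .out)) .out))))) .out)
  .out))))) (.na 233 33 (.na 209 25 (.na 208 23 (.nx 207 330282 (.nr 206 131073 (.nr 194 20 .s1
  (.nx 196 16 (.nr 195 66 (.l1 (.ls 16 13 15)) (.l1 .sk)) (.nx 197 17 (.l1 .sk) (.nx 200 2049 (.lg
  0 false 3 73 73 19 0 720) (.nr 205 32769 (.nr 203 154 (.lg 0 true 3 61 61 19 0 720) (.nx 204
  20644 (.lg 1 false 1 71 71 13 2049 240) .out)) .out))))) .out) .out) .ne) (.na 217 29 (.nx 216
  41287 (.nr 215 131073 (.nr 210 25 .s1 (.nx 213 3252 (.nx 211 324 (.l1 (.ls 67 37 4202)) (.nr 212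
  32769 (.lg 0 true 1 71 71 16 0 240) .out)) (.nr 214 257 (.lg 0 false 1 59 59 16 0 240) .out)))
  .out) .out) (.na 225 32 (.nx 224 41287 (.nr 223 131073 (.nr 218 29 .s1 (.nx 221 3252 (.nx 219 324
  (.l1 (.ls 67 37 3622)) (.nr 220 32769 (.lg 0 true 1 71 71 13 0 240) .out)) (.nr 222 257 (.lg 0
  false 1 59 59 13 0 240) .out))) .out) .out) (.nx 232 41287 (.nr 231 262145 (.nr 226 32 .s1 (.nx
  227 324 (.l1 (.ls 71 41 3283)) (.nr 230 32769 (.nr 228 4097 (.lg 0 false 1 71 71 13 0 48) (.nx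
  229 3252 (.lg 0 false 1 71 71 13 0 48) .out)) .out))) .out) .out)))) (.na 240 40 (.na 234 37 .ne
  (.nx 239 41287 (.nr 238 262145 (.nr 235 37 .s1 (.nx 236 324 (.l1 (.ls 71 31 2840)) (.nr 237 4097
  (.lg 0 false 1 73 73 16 0 240) .out))) .out) .out)) (.na 246 41 (.nx 245 41287 (.nr 244 262145
  (.nr 241 40 .s1 (.nx 242 324 (.l1 (.ls 71 43 2627)) (.nr 243 4097 (.lg 0 false 1 71 71 19 0 240)
  .out))) .out) .out) (.na 252 52 (.nx 251 41287 (.nr 250 262145 (.nr 247 41 .s1 (.nx 248 324 (.l1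
  (.ls 71 31 2563)) (.nr 249 4097 (.lg 0 false 1 73 73 16 0 720) .out))) .out) .out) (.nx 257 41287
  (.nr 256 262145 (.nr 253 52 .s1 (.nx 254 324 (.l1 (.ls 71 41 2021)) (.nr 255 4097 (.lg 0 false 1
  71 71 19 0 624) .out))) .out) .out)))))) (.na 319 100 (.na 287 73 (.na 270 64 (.na 264 61 (.nx
  263 41287 (.nr 262 262145 (.nr 259 53 .s1 (.nx 260 324 (.l1 (.ls 67 29 1983)) (.nr 261 4097 (.lg
  0 false 1 67 67 16 0 48) .out))) .out) .out) (.nx 269 41287 (.nr 268 262145 (.nr 265 61 .s1 (.nx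
  266 324 (.l1 (.ls 59 29 1723)) (.nr 267 4097 (.lg 0 false 1 67 67 16 0 48) .out))) .out) .out))
  (.na 271 65 .ne (.na 279 68 (.nx 278 20644 (.nr 277 524289 (.nr 272 65 .s1 (.nx 273 324 (.l1 (.ls
  73 37 1618)) (.nr 276 65537 (.nx 274 3252 (.lg 0 false 1 71 71 17 0 3120) (.nr 275 257 (.lg 0
  true 1 43 43 17 0 3120) .out)) .out))) .out) .out) (.nx 286 20644 (.nr 285 524289 (.nr 280 68 .s1
  (.nx 281 324 (.l1 (.ls 73 41 1546)) (.nr 284 65537 (.nx 282 3252 (.lg 0 false 1 71 71 13 0 48)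
  (.nr 283 257 (.lg 0 true 1 43 43 13 0 48) .out)) .out))) .out) .out)))) (.na 301 85 (.na 293 80
  (.nx 292 20644 (.nr 291 524289 (.nr 288 73 .s1 (.nx 289 324 (.l1 (.ls 67 29 1441)) (.nr 290 65537
  (.lg 0 true 1 79 79 16 0 240) .out))) .out) .out) (.nx 300 20644 (.nr 299 524289 (.nr 294 80 .s1
  (.nx 297 3252 (.nx 295 324 (.l1 (.ls 73 41 1315)) (.nr 296 65537 (.lg 0 false 1 71 71 23 0 240)
  .out)) (.nr 298 257 (.lg 0 true 1 43 47 23 0 240) .out))) .out) .out)) (.na 307 89 (.nx 306 20644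
  (.nr 305 524289 (.nr 302 85 .s1 (.nx 303 324 (.l1 (.ls 73 31 1238)) (.nr 304 65537 (.lg 0 true 1
  79 79 16 0 240) .out))) .out) .out) (.na 313 97 (.nx 312 20644 (.nr 311 524289 (.nr 308 89 .s1
  (.nx 309 324 (.l1 (.ls 61 29 1182)) (.nr 310 65537 (.lg 0 true 1 71 71 16 0 48) .out))) .out)
  .out) (.nx 318 20644 (.nr 317 524289 (.nr 314 97 .s1 (.nx 315 324 (.l1 (.ls 61 23 1085)) (.nr 316
  65537 (.lg 0 true 1 67 67 16 0 48) .out))) .out) .out))))) (.na 351 116 (.na 331 104 (.na 325 101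
  (.nx 324 20644 (.nr 323 524289 (.nr 320 100 .s1 (.nx 321 324 (.l1 (.ls 67 37 1052)) (.nr 322
  65537 (.lg 0 false 1 73 73 23 0 240) .out))) .out) .out) (.nx 330 20644 (.nr 329 524289 (.nr 326
  101 .s1 (.nx 327 324 (.l1 (.ls 61 23 1042)) (.nr 328 65537 (.lg 1 true 1 61 61 16 25938 240)
  .out))) .out) .out)) (.na 337 109 (.nx 336 20644 (.nr 335 524289 (.nr 332 104 .s1 (.nx 333 324
  (.l1 (.ls 71 37 1012)) (.nr 334 65537 (.lg 0 false 1 73 73 23 0 624) .out))) .out) .out) (.na 343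
  113 (.nx 342 20644 (.nr 341 524289 (.nr 338 109 .s1 (.nx 339 324 (.l1 (.ls 61 23 966)) (.nr 340
  65537 (.lg 0 true 1 67 67 16 0 48) .out))) .out) .out) (.nx 350 20644 (.nr 349 524289 (.nr 344
  113 .s1 (.nx 345 324 (.l1 (.ls 61 23 931)) (.nr 348 65537 (.nr 346 257 (.lg 2 true 1 16 16 16
  1462 240) (.nx 347 3252 (.lg 0 true 1 59 59 16 0 720) .out)) .out))) .out) .out)))) (.na 364 131
  (.na 357 125 (.nx 356 20644 (.nr 355 524289 (.nr 352 116 .s1 (.nx 353 324 (.l1 (.ls 71 37 907))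
  (.nr 354 65537 (.lg 0 false 1 73 73 19 0 48) .out))) .out) .out) (.na 363 128 (.nx 362 20644 (.nr
  361 524289 (.nr 358 125 .s1 (.nx 359 324 (.l1 (.ls 61 29 842)) (.nr 360 65537 (.lg 1 true 1 61 61
  16 25938 240) .out))) .out) .out) .ne)) (.na 365 136 (.lg 0 false 1 0 0 16 0 24) (.na 371 137
  (.nx 370 20644 (.nr 369 16385 (.nr 366 136 .s1 (.nx 367 324 (.l1 (.ls 43 37 774)) (.nr 368 1025
  (.lg 2 true 1 29 29 29 1215 240) .out))) .out) .out) (.nx 376 20644 (.nr 375 16385 (.nr 372 137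
  .s1 (.nx 373 324 (.l1 (.ls 37 23 769)) (.nr 374 1025 (.lg 2 true 1 19 19 16 1206 240) .out)))
  .out) .out))))))) (.na 462 205 (.na 417 169 (.na 397 157 (.na 384 148 (.na 378 145 (.lg 0 false 1
  0 0 16 0 24) (.nx 383 20644 (.nr 382 16385 (.nr 379 145 .s1 (.nx 380 324 (.l1 (.ls 47 23 726))
  (.nr 381 1025 (.lg 2 true 1 23 23 17 1139 240) .out))) .out) .out)) (.na 390 149 (.nx 389 20644
  (.nr 388 16385 (.nr 385 148 .s1 (.nx 386 324 (.l1 (.ls 31 31 712)) (.nr 387 1025 (.lg 2 false 1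
  29 29 23 1116 240) .out))) .out) .out) (.na 396 151 (.nx 395 20644 (.nr 394 16385 (.nr 391 149
  .s1 (.nx 392 324 (.l1 (.ls 37 23 707)) (.nr 393 1025 (.lg 2 false 1 19 19 16 1109 1680) .out)))
  .out) .out) (.lg 0 false 1 0 0 16 0 24)))) (.na 409 163 (.na 403 160 (.nx 402 20644 (.nr 401
  16385 (.nr 398 157 .s1 (.nx 399 324 (.l1 (.ls 37 23 671)) (.nr 400 1025 (.lg 2 true 1 19 19 16
  1052 240) .out))) .out) .out) (.nx 408 20644 (.nr 407 16385 (.nr 404 160 .s1 (.nx 405 324 (.l1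
  (.ls 43 37 659)) (.nr 406 1025 (.lg 0 true 1 43 47 29 0 240) .out))) .out) .out)) (.na 410 164
  (.lg 0 false 1 0 0 16 0 24) (.na 416 167 (.nx 415 20644 (.nr 414 16385 (.nr 411 164 .s1 (.nx 412
  324 (.l1 (.ls 37 31 643)) (.nr 413 1025 (.lg 2 true 1 23 23 23 1008 240) .out))) .out) .out) (.lg
  0 false 1 0 0 16 0 24))))) (.na 442 191 (.na 429 179 (.na 423 173 (.nx 422 20644 (.nr 421 16385
  (.nr 418 169 .s1 (.nx 419 324 (.l1 (.ls 37 29 624)) (.nr 420 1025 (.lg 2 true 1 17 17 17 978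
  3120) .out))) .out) .out) (.nx 428 20644 (.nr 427 16385 (.nr 424 173 .s1 (.nx 425 324 (.l1 (.ls
  37 23 609)) (.nr 426 1025 (.lg 2 false 1 19 19 16 955 1680) .out))) .out) .out)) (.na 430 181
  (.lg 0 false 1 0 0 16 0 24) (.na 436 185 (.nx 435 20644 (.nr 434 16385 (.nr 431 181 .s1 (.nx 432
  324 (.l1 (.ls 31 23 582)) (.nr 433 1025 (.lg 2 false 1 17 17 16 913 240) .out))) .out) .out) (.nx
  441 20644 (.nr 440 16385 (.nr 437 185 .s1 (.nx 438 324 (.l1 (.ls 31 23 570)) (.nr 439 1025 (.lg 2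
  true 1 19 19 19 893 240) .out))) .out) .out)))) (.na 449 197 (.na 443 193 (.lg 0 false 1 0 0 16 0
  24) (.nx 448 20644 (.nr 447 16385 (.nr 444 193 .s1 (.nx 445 324 (.l1 (.ls 37 19 546)) (.nr 446
  1025 (.lg 2 true 1 17 17 16 856 240) .out))) .out) .out)) (.na 455 199 (.nx 454 20644 (.nr 453
  16385 (.nr 450 197 .s1 (.nx 451 324 (.l1 (.ls 31 19 535)) (.nr 452 1025 (.lg 2 true 1 17 17 16
  839 3120) .out))) .out) .out) (.na 456 200 (.lg 0 false 1 0 0 16 0 24) (.nx 461 20644 (.nr 460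
  16385 (.nr 457 200 .s1 (.nx 458 324 (.l1 (.ls 41 31 527)) (.nr 459 1025 (.lg 2 true 1 19 19 29
  826 240) .out))) .out) .out)))))) (.na 507 239 (.na 487 223 (.na 474 211 (.na 468 208 (.nx 467
  20644 (.nr 466 16385 (.nr 463 205 .s1 (.nx 464 324 (.l1 (.ls 37 23 515)) (.nr 465 1025 (.lg 2
  true 1 19 19 19 806 1680) .out))) .out) .out) (.nx 473 20644 (.nr 472 16385 (.nr 469 208 .s1 (.nx
  470 324 (.l1 (.ls 43 31 507)) (.nr 471 1025 (.lg 2 false 1 23 29 31 794 21840) .out))) .out)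
  .out)) (.na 475 212 (.lg 0 false 1 0 0 16 0 24) (.na 481 221 (.nx 480 20644 (.nr 479 16385 (.nr
  476 212 .s1 (.nx 477 324 (.l1 (.ls 41 29 498)) (.nr 478 1025 (.lg 2 false 1 19 23 23 780 1680)
  .out))) .out) .out) (.nx 486 20644 (.nr 485 16385 (.nr 482 221 .s1 (.nx 483 324 (.l1 (.ls 43 29
  478)) (.nr 484 1025 (.lg 2 false 1 23 23 23 748 3120) .out))) .out) .out)))) (.na 489 229 (.na
  488 227 (.lg 0 false 1 0 0 16 0 24) (.lg 0 false 1 0 0 16 0 24)) (.na 495 232 (.nx 494 20644 (.nr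
  493 16385 (.nr 490 229 .s1 (.nx 491 324 (.l1 (.ls 43 19 461)) (.nr 492 1025 (.lg 2 false 1 19 19
  17 722 65520) .out))) .out) .out) (.na 501 233 (.nx 500 20644 (.nr 499 16385 (.nr 496 232 .s1
  (.nx 497 324 (.l1 (.ls 23 31 455)) (.nr 498 1025 (.lg 2 false 1 17 19 23 712 3120) .out))) .out)
  .out) (.nx 506 20644 (.nr 505 16385 (.nr 502 233 .s1 (.nx 503 324 (.l1 (.ls 31 19 453)) (.nr 504
  1025 (.lg 2 false 1 16 16 17 709 1680) .out))) .out) .out))))) (.na 522 257 (.na 514 244 (.na 508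
  241 (.lg 0 false 1 0 0 16 0 24) (.nx 513 20644 (.nr 512 16385 (.nr 509 241 .s1 (.nx 510 324 (.l1
  (.ls 29 19 438)) (.nr 511 1025 (.lg 2 true 1 16 16 17 686 1680) .out))) .out) .out)) (.na 520 251
  (.nx 519 20644 (.nr 518 16385 (.nr 515 244 .s1 (.nx 516 324 (.l1 (.ls 37 29 433)) (.nr 517 1025
  (.lg 2 true 1 16 16 23 677 240) .out))) .out) .out) (.na 521 256 (.lg 0 false 1 0 0 16 0 24)
  .ne))) (.na 2265 2048 (.na 1080 512 (.nx 1079 20644 (.nr 1078 4097 (.nr 523 257 .s1 (.nx 567 45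
  (.lx (.lp 16 0 129)) (.nx 822 324 (.la (.ls 31 23 403)) (.nr 1077 2049 (.la (.lg 2 false 1 17 17
  23 818)) .out)))) .out) .out) (.na 2160 1024 (.nx 2159 20644 (.nr 2158 8193 (.nr 1081 512 .s1
  (.nx 1132 52 (.lx (.lp 16 0 257)) (.nr 2157 4097 (.nx 1644 915 (.la (.ls 29 31 1632)) (.nr 2156
  2049 (.la (.lg 2 false 1 0 16 23 323)) .out)) .out))) .out) .out) (.nx 2264 103 (.nr 2263 8193
  (.nr 2161 1024 .s1 (.lx (.lp 37 23 513))) .out) .out))) (.na 2349 4096 (.nx 2348 82 (.nr 2347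
  8193 (.nr 2266 2048 .s1 (.lx (.lp 17 23 1025))) .out) .out) (.na 2433 8193 (.nx 2432 82 (.nr 2431
  16385 (.nr 2350 4096 .s1 (.lx (.lp 29 31 2049))) .out) .out) .out)))))))

theorem c95 :
    OkQ ckI L10 247 16 128 0 34359738368 1 1099511627776 ∧
    OkQ ckI L8 168 23 1099511627776 0 34359738368 1 1099511627776 ∧
    OkQ ckI L2 16 1 1099511627776 0 34359738368 1 1099511627776 := by
  refine ⟨?_, ?_, ?_⟩
  · refine fin 5928 924 T95_0 ?_
    refine jn 5 (by decide +kernel) ?_
    refine jn 6 (by decide +kernel) ?_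
    refine jn 7 (by decide +kernel) ?_
    refine jn 8 (by decide +kernel) ?_
    refine jn 9 (by decide +kernel) ?_
    refine jn 10 (by decide +kernel) ?_
    refine jn 11 (by decide +kernel) ?_
    refine jn 12 (by decide +kernel) ?_
    refine jn 13 (by decide +kernel) ?_
    refine jn 14 (by decide +kernel) ?_
    refine jn 15 (by decide +kernel) ?_
    refine jn 16 (by decide +kernel) ?_
    refine jn 17 (by decide +kernel) ?_
    refine jn 18 (by decide +kernel) ?_
    refine jn 19 (by decide +kernel) ?_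
    refine jn 20 (by decide +kernel) ?_
    refine jn 21 (by decide +kernel) ?_
    refine jn 22 (by decide +kernel) ?_
    refine jn 23 (by decide +kernel) ?_
    refine jn 25 (by decide +kernel) ?_
    refine jn 27 (by decide +kernel) ?_
    refine jn 29 (by decide +kernel) ?_
    refine jn 31 (by decide +kernel) ?_
    refine jn 33 (by decide +kernel) ?_
    refine jn 35 (by decide +kernel) ?_
    refine jn 37 (by decide +kernel) ?_
    refine jn 39 (by decide +kernel) ?_
    refine jn 41 (by decide +kernel) ?_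
    refine jn 43 (by decide +kernel) ?_
    refine jn 44 (by decide +kernel) ?_
    refine jn 47 (by decide +kernel) ?_
    refine jn 56 (by decide +kernel) ?_
    refine jn 61 (by decide +kernel) ?_
    refine jn 64 (by decide +kernel) ?_
    refine jn 71 (by decide +kernel) ?_
    refine jn 76 (by decide +kernel) ?_
    refine jn 79 (by decide +kernel) ?_
    refine jn 90 (by decide +kernel) ?_
    refine jn 97 (by decide +kernel) ?_
    refine jn 103 (by decide +kernel) ?_
    refine jn 108 (by decide +kernel) ?_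
    refine jn 113 (by decide +kernel) ?_
    refine jn 119 (by decide +kernel) ?_
    refine jn 131 (by decide +kernel) ?_
    refine jn 139 (by decide +kernel) ?_
    refine jn 154 (by decide +kernel) ?_
    refine jn 169 (by decide +kernel) ?_
    refine jn 191 (by decide +kernel) ?_
    refine jn 201 (by decide +kernel) ?_
    refine jn 206 (by decide +kernel) ?_
    refine jn 217 (by decide +kernel) ?_
    refine jn 228 (by decide +kernel) ?_
    refine jn 250 (by decide +kernel) ?_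
    refine jn 274 (by decide +kernel) ?_
    refine jn 292 (by decide +kernel) ?_
    refine jn 299 (by decide +kernel) ?_
    refine jn 307 (by decide +kernel) ?_
    refine jn 321 (by decide +kernel) ?_
    refine jn 330 (by decide +kernel) ?_
    refine jn 331 (by decide +kernel) ?_
    refine jn 333 (by decide +kernel) ?_
    refine jn 334 (by decide +kernel) ?_
    refine jn 335 (by decide +kernel) ?_
    refine jn 340 (by decide +kernel) ?_
    refine jn 344 (by decide +kernel) ?_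
    refine jn 345 (by decide +kernel) ?_
    refine jn 349 (by decide +kernel) ?_
    refine jn 351 (by decide +kernel) ?_
    refine jn 356 (by decide +kernel) ?_
    refine jn 372 (by decide +kernel) ?_
    refine jn 387 (by decide +kernel) ?_
    refine jn 399 (by decide +kernel) ?_
    refine jn 404 (by decide +kernel) ?_
    refine jn 411 (by decide +kernel) ?_
    refine jn 420 (by decide +kernel) ?_
    refine jn 445 (by decide +kernel) ?_
    refine jn 459 (by decide +kernel) ?_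
    refine jn 466 (by decide +kernel) ?_
    refine jn 473 (by decide +kernel) ?_
    refine jn 484 (by decide +kernel) ?_
    refine jn 494 (by decide +kernel) ?_
    refine jn 505 (by decide +kernel) ?_
    refine jn 520 (by decide +kernel) ?_
    refine jn 527 (by decide +kernel) ?_
    refine jn 545 (by decide +kernel) ?_
    refine jn 555 (by decide +kernel) ?_
    refine jn 570 (by decide +kernel) ?_
    refine jn 578 (by decide +kernel) ?_
    refine jn 594 (by decide +kernel) ?_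
    refine jn 611 (by decide +kernel) ?_
    refine jn 618 (by decide +kernel) ?_
    refine jn 627 (by decide +kernel) ?_
    refine jn 630 (by decide +kernel) ?_
    refine jn 634 (by decide +kernel) ?_
    refine jn 637 (by decide +kernel) ?_
    refine jn 639 (by decide +kernel) ?_
    refine jn 652 (by decide +kernel) ?_
    refine jn 659 (by decide +kernel) ?_
    refine jn 669 (by decide +kernel) ?_
    refine jn 674 (by decide +kernel) ?_
    refine jn 677 (by decide +kernel) ?_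
    refine jn 685 (by decide +kernel) ?_
    refine jn 697 (by decide +kernel) ?_
    refine jn 712 (by decide +kernel) ?_
    refine jn 719 (by decide +kernel) ?_
    refine jn 733 (by decide +kernel) ?_
    refine jn 741 (by decide +kernel) ?_
    refine jn 758 (by decide +kernel) ?_
    refine jn 772 (by decide +kernel) ?_
    refine jn 785 (by decide +kernel) ?_
    refine jn 798 (by decide +kernel) ?_
    refine jn 804 (by decide +kernel) ?_
    refine jn 807 (by decide +kernel) ?_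
    refine jn 820 (by decide +kernel) ?_
    refine jn 836 (by decide +kernel) ?_
    refine jn 847 (by decide +kernel) ?_
    refine jn 851 (by decide +kernel) ?_
    refine jn 856 (by decide +kernel) ?_
    refine jn 872 (by decide +kernel) ?_
    refine jn 887 (by decide +kernel) ?_
    refine jn 904 (by decide +kernel) ?_
    refine jn 911 (by decide +kernel) ?_
    refine jn 912 (by decide +kernel) ?_
    refine jn 913 (by decide +kernel) ?_
    refine jn 914 (by decide +kernel) ?_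
    refine jn 921 (by decide +kernel) ?_
    exact je (by decide +kernel)
  · refine fin 168 14467 T95_1 ?_
    refine jn 5 (by decide +kernel) ?_
    refine jn 6 (by decide +kernel) ?_
    refine jn 7 (by decide +kernel) ?_
    refine jn 8 (by decide +kernel) ?_
    refine jn 9 (by decide +kernel) ?_
    refine jn 10 (by decide +kernel) ?_
    refine jn 11 (by decide +kernel) ?_
    refine jn 12 (by decide +kernel) ?_
    refine jn 13 (by decide +kernel) ?_
    refine jn 14 (by decide +kernel) ?_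
    refine jn 15 (by decide +kernel) ?_
    refine jn 16 (by decide +kernel) ?_
    refine jn 21 (by decide +kernel) ?_
    refine jn 29 (by decide +kernel) ?_
    refine jn 42 (by decide +kernel) ?_
    refine jn 49 (by decide +kernel) ?_
    refine jn 56 (by decide +kernel) ?_
    refine jn 70 (by decide +kernel) ?_
    refine jn 76 (by decide +kernel) ?_
    refine jn 81 (by decide +kernel) ?_
    refine jn 93 (by decide +kernel) ?_
    refine jn 101 (by decide +kernel) ?_
    refine jn 107 (by decide +kernel) ?_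
    refine jn 118 (by decide +kernel) ?_
    refine jn 126 (by decide +kernel) ?_
    refine jn 131 (by decide +kernel) ?_
    refine jn 145 (by decide +kernel) ?_
    refine jn 153 (by decide +kernel) ?_
    refine jn 161 (by decide +kernel) ?_
    refine jn 175 (by decide +kernel) ?_
    refine jn 182 (by decide +kernel) ?_
    refine jn 189 (by decide +kernel) ?_
    refine jn 190 (by decide +kernel) ?_
    refine jn 191 (by decide +kernel) ?_
    refine jn 192 (by decide +kernel) ?_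
    refine jn 193 (by decide +kernel) ?_
    refine jn 194 (by decide +kernel) ?_
    refine jn 195 (by decide +kernel) ?_
    refine jn 196 (by decide +kernel) ?_
    refine jn 197 (by decide +kernel) ?_
    refine jn 210 (by decide +kernel) ?_
    refine jn 218 (by decide +kernel) ?_
    refine jn 230 (by decide +kernel) ?_
    refine jn 231 (by decide +kernel) ?_
    refine jn 234 (by decide +kernel) ?_
    refine jn 237 (by decide +kernel) ?_
    refine jn 245 (by decide +kernel) ?_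
    refine jn 254 (by decide +kernel) ?_
    refine jn 267 (by decide +kernel) ?_
    refine jn 273 (by decide +kernel) ?_
    refine jn 284 (by decide +kernel) ?_
    refine jn 294 (by decide +kernel) ?_
    refine jn 303 (by decide +kernel) ?_
    refine jn 318 (by decide +kernel) ?_
    refine jn 327 (by decide +kernel) ?_
    refine jn 332 (by decide +kernel) ?_
    refine jn 335 (by decide +kernel) ?_
    refine jn 350 (by decide +kernel) ?_
    refine jn 362 (by decide +kernel) ?_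
    refine jn 370 (by decide +kernel) ?_
    refine jn 384 (by decide +kernel) ?_
    refine jn 401 (by decide +kernel) ?_
    refine jn 416 (by decide +kernel) ?_
    refine jn 431 (by decide +kernel) ?_
    refine jn 447 (by decide +kernel) ?_
    refine jn 460 (by decide +kernel) ?_
    refine jn 464 (by decide +kernel) ?_
    refine jn 476 (by decide +kernel) ?_
    refine jn 490 (by decide +kernel) ?_
    refine jn 502 (by decide +kernel) ?_
    refine jn 506 (by decide +kernel) ?_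
    refine jn 517 (by decide +kernel) ?_
    refine jn 533 (by decide +kernel) ?_
    refine jn 547 (by decide +kernel) ?_
    refine jn 559 (by decide +kernel) ?_
    refine jn 569 (by decide +kernel) ?_
    refine jn 580 (by decide +kernel) ?_
    refine jn 591 (by decide +kernel) ?_
    refine jn 604 (by decide +kernel) ?_
    refine jn 616 (by decide +kernel) ?_
    refine jn 626 (by decide +kernel) ?_
    refine jn 637 (by decide +kernel) ?_
    refine jn 653 (by decide +kernel) ?_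
    refine jn 661 (by decide +kernel) ?_
    refine jn 672 (by decide +kernel) ?_
    refine jn 687 (by decide +kernel) ?_
    refine jn 699 (by decide +kernel) ?_
    refine jn 717 (by decide +kernel) ?_
    refine jn 726 (by decide +kernel) ?_
    refine jn 744 (by decide +kernel) ?_
    refine jn 761 (by decide +kernel) ?_
    refine jn 777 (by decide +kernel) ?_
    refine jn 786 (by decide +kernel) ?_
    refine jn 796 (by decide +kernel) ?_
    refine jn 806 (by decide +kernel) ?_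
    refine jn 823 (by decide +kernel) ?_
    refine jn 833 (by decide +kernel) ?_
    refine jn 849 (by decide +kernel) ?_
    refine jn 864 (by decide +kernel) ?_
    refine jn 875 (by decide +kernel) ?_
    refine jn 886 (by decide +kernel) ?_
    refine jn 897 (by decide +kernel) ?_
    refine jn 906 (by decide +kernel) ?_
    refine jn 922 (by decide +kernel) ?_
    refine jn 984 (by decide +kernel) ?_
    refine jn 1036 (by decide +kernel) ?_
    refine jn 1084 (by decide +kernel) ?_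
    refine jn 1160 (by decide +kernel) ?_
    refine jn 1221 (by decide +kernel) ?_
    refine jn 1232 (by decide +kernel) ?_
    refine jn 1236 (by decide +kernel) ?_
    refine jn 1241 (by decide +kernel) ?_
    refine jn 1249 (by decide +kernel) ?_
    refine jn 1254 (by decide +kernel) ?_
    refine jn 1266 (by decide +kernel) ?_
    refine jn 1277 (by decide +kernel) ?_
    refine jn 1293 (by decide +kernel) ?_
    refine jn 1297 (by decide +kernel) ?_
    refine jn 1309 (by decide +kernel) ?_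
    refine jn 1313 (by decide +kernel) ?_
    refine jn 1318 (by decide +kernel) ?_
    refine jn 1322 (by decide +kernel) ?_
    refine jn 1329 (by decide +kernel) ?_
    refine jn 1336 (by decide +kernel) ?_
    refine jn 1342 (by decide +kernel) ?_
    refine jn 1354 (by decide +kernel) ?_
    refine jn 1358 (by decide +kernel) ?_
    refine jn 1368 (by decide +kernel) ?_
    refine jn 1373 (by decide +kernel) ?_
    refine jn 1378 (by decide +kernel) ?_
    refine jn 1392 (by decide +kernel) ?_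
    refine jn 1412 (by decide +kernel) ?_
    refine jn 1434 (by decide +kernel) ?_
    refine jn 1441 (by decide +kernel) ?_
    refine jn 1453 (by decide +kernel) ?_
    refine jn 1457 (by decide +kernel) ?_
    refine jn 1462 (by decide +kernel) ?_
    refine jn 1477 (by decide +kernel) ?_
    refine jn 1488 (by decide +kernel) ?_
    refine jn 1493 (by decide +kernel) ?_
    refine jn 1504 (by decide +kernel) ?_
    refine jn 1519 (by decide +kernel) ?_
    refine jn 1532 (by decide +kernel) ?_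
    refine jn 1548 (by decide +kernel) ?_
    refine jn 1552 (by decide +kernel) ?_
    refine jn 1568 (by decide +kernel) ?_
    refine jn 1576 (by decide +kernel) ?_
    refine jn 1584 (by decide +kernel) ?_
    refine jn 1592 (by decide +kernel) ?_
    refine jn 1599 (by decide +kernel) ?_
    refine jn 1613 (by decide +kernel) ?_
    refine jn 1628 (by decide +kernel) ?_
    refine jn 1633 (by decide +kernel) ?_
    refine jn 1647 (by decide +kernel) ?_
    refine jn 1673 (by decide +kernel) ?_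
    refine jn 1692 (by decide +kernel) ?_
    refine jn 1708 (by decide +kernel) ?_
    refine jn 1713 (by decide +kernel) ?_
    refine jn 1727 (by decide +kernel) ?_
    refine jn 1854 (by decide +kernel) ?_
    refine jn 1946 (by decide +kernel) ?_
    refine jn 1954 (by decide +kernel) ?_
    refine jn 1959 (by decide +kernel) ?_
    refine jn 1966 (by decide +kernel) ?_
    refine jn 1982 (by decide +kernel) ?_
    refine jn 1989 (by decide +kernel) ?_
    refine jn 1998 (by decide +kernel) ?_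
    refine jn 2009 (by decide +kernel) ?_
    refine jn 2023 (by decide +kernel) ?_
    refine jn 2029 (by decide +kernel) ?_
    refine jn 2053 (by decide +kernel) ?_
    refine jn 2066 (by decide +kernel) ?_
    refine jn 2081 (by decide +kernel) ?_
    refine jn 2091 (by decide +kernel) ?_
    refine jn 2094 (by decide +kernel) ?_
    refine jn 2099 (by decide +kernel) ?_
    refine jn 2111 (by decide +kernel) ?_
    refine jn 2126 (by decide +kernel) ?_
    refine jn 2131 (by decide +kernel) ?_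
    refine jn 2143 (by decide +kernel) ?_
    refine jn 2154 (by decide +kernel) ?_
    refine jn 2164 (by decide +kernel) ?_
    refine jn 2170 (by decide +kernel) ?_
    refine jn 2176 (by decide +kernel) ?_
    refine jn 2186 (by decide +kernel) ?_
    refine jn 2200 (by decide +kernel) ?_
    refine jn 2211 (by decide +kernel) ?_
    refine jn 2222 (by decide +kernel) ?_
    refine jn 2236 (by decide +kernel) ?_
    refine jn 2242 (by decide +kernel) ?_
    refine jn 2266 (by decide +kernel) ?_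
    refine jn 2279 (by decide +kernel) ?_
    refine jn 2294 (by decide +kernel) ?_
    refine jn 2304 (by decide +kernel) ?_
    refine jn 2310 (by decide +kernel) ?_
    refine jn 2319 (by decide +kernel) ?_
    refine jn 2332 (by decide +kernel) ?_
    refine jn 2340 (by decide +kernel) ?_
    refine jn 2355 (by decide +kernel) ?_
    refine jn 2364 (by decide +kernel) ?_
    refine jn 2380 (by decide +kernel) ?_
    refine jn 2419 (by decide +kernel) ?_
    refine jn 2460 (by decide +kernel) ?_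
    refine jn 2505 (by decide +kernel) ?_
    refine jn 2540 (by decide +kernel) ?_
    refine jn 2567 (by decide +kernel) ?_
    refine jn 2632 (by decide +kernel) ?_
    refine jn 2674 (by decide +kernel) ?_
    refine jn 2690 (by decide +kernel) ?_
    refine jn 2718 (by decide +kernel) ?_
    refine jn 2751 (by decide +kernel) ?_
    refine jn 2788 (by decide +kernel) ?_
    refine jn 2815 (by decide +kernel) ?_
    refine jn 2831 (by decide +kernel) ?_
    refine jn 2846 (by decide +kernel) ?_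
    refine jn 2864 (by decide +kernel) ?_
    refine jn 2903 (by decide +kernel) ?_
    refine jn 2944 (by decide +kernel) ?_
    refine jn 2983 (by decide +kernel) ?_
    refine jn 3010 (by decide +kernel) ?_
    refine jn 3048 (by decide +kernel) ?_
    refine jn 3102 (by decide +kernel) ?_
    refine jn 3147 (by decide +kernel) ?_
    refine jn 3182 (by decide +kernel) ?_
    refine jn 3223 (by decide +kernel) ?_
    refine jn 3284 (by decide +kernel) ?_
    refine jn 3330 (by decide +kernel) ?_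
    refine jn 3379 (by decide +kernel) ?_
    refine jn 3409 (by decide +kernel) ?_
    refine jn 3428 (by decide +kernel) ?_
    refine jn 3460 (by decide +kernel) ?_
    refine jn 3505 (by decide +kernel) ?_
    refine jn 3533 (by decide +kernel) ?_
    refine jn 3568 (by decide +kernel) ?_
    refine jn 3583 (by decide +kernel) ?_
    refine jn 3615 (by decide +kernel) ?_
    refine jn 3648 (by decide +kernel) ?_
    refine jn 3693 (by decide +kernel) ?_
    refine jn 3728 (by decide +kernel) ?_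
    refine jn 3772 (by decide +kernel) ?_
    refine jn 3803 (by decide +kernel) ?_
    refine jn 3848 (by decide +kernel) ?_
    refine jn 3896 (by decide +kernel) ?_
    refine jn 3944 (by decide +kernel) ?_
    refine jn 3973 (by decide +kernel) ?_
    refine jn 4027 (by decide +kernel) ?_
    refine jn 4087 (by decide +kernel) ?_
    refine jn 4136 (by decide +kernel) ?_
    refine jn 4179 (by decide +kernel) ?_
    refine jn 4251 (by decide +kernel) ?_
    refine jn 4312 (by decide +kernel) ?_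
    refine jn 4372 (by decide +kernel) ?_
    refine jn 4427 (by decide +kernel) ?_
    refine jn 4482 (by decide +kernel) ?_
    refine jn 4522 (by decide +kernel) ?_
    refine jn 4582 (by decide +kernel) ?_
    refine jn 4635 (by decide +kernel) ?_
    refine jn 4699 (by decide +kernel) ?_
    refine jn 4762 (by decide +kernel) ?_
    refine jn 4811 (by decide +kernel) ?_
    refine jn 4884 (by decide +kernel) ?_
    refine jn 4947 (by decide +kernel) ?_
    refine jn 5019 (by decide +kernel) ?_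
    refine jn 5060 (by decide +kernel) ?_
    refine jn 5116 (by decide +kernel) ?_
    refine jn 5162 (by decide +kernel) ?_
    refine jn 5234 (by decide +kernel) ?_
    refine jn 5281 (by decide +kernel) ?_
    refine jn 5482 (by decide +kernel) ?_
    refine jn 5568 (by decide +kernel) ?_
    refine jn 5638 (by decide +kernel) ?_
    refine jn 5724 (by decide +kernel) ?_
    refine jn 5806 (by decide +kernel) ?_
    refine jn 5903 (by decide +kernel) ?_
    refine jn 5983 (by decide +kernel) ?_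
    refine jn 6072 (by decide +kernel) ?_
    refine jn 6143 (by decide +kernel) ?_
    refine jn 6206 (by decide +kernel) ?_
    refine jn 6286 (by decide +kernel) ?_
    refine jn 6359 (by decide +kernel) ?_
    refine jn 6462 (by decide +kernel) ?_
    refine jn 6547 (by decide +kernel) ?_
    refine jn 6628 (by decide +kernel) ?_
    refine jn 6839 (by decide +kernel) ?_
    refine jn 6924 (by decide +kernel) ?_
    refine jn 6991 (by decide +kernel) ?_
    refine jn 7088 (by decide +kernel) ?_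
    refine jn 7178 (by decide +kernel) ?_
    refine jn 7266 (by decide +kernel) ?_
    refine jn 7350 (by decide +kernel) ?_
    refine jn 7428 (by decide +kernel) ?_
    refine jn 7504 (by decide +kernel) ?_
    refine jn 7599 (by decide +kernel) ?_
    refine jn 7683 (by decide +kernel) ?_
    refine jn 7791 (by decide +kernel) ?_
    refine jn 7884 (by decide +kernel) ?_
    refine jn 7976 (by decide +kernel) ?_
    refine jn 8063 (by decide +kernel) ?_
    refine jn 8156 (by decide +kernel) ?_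
    refine jn 8243 (by decide +kernel) ?_
    refine jn 8339 (by decide +kernel) ?_
    refine jn 8435 (by decide +kernel) ?_
    refine jn 8552 (by decide +kernel) ?_
    refine jn 8950 (by decide +kernel) ?_
    refine jn 9115 (by decide +kernel) ?_
    refine jn 9261 (by decide +kernel) ?_
    refine jn 9388 (by decide +kernel) ?_
    refine jn 9491 (by decide +kernel) ?_
    refine jn 9573 (by decide +kernel) ?_
    refine jn 9651 (by decide +kernel) ?_
    refine jn 9724 (by decide +kernel) ?_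
    refine jn 9782 (by decide +kernel) ?_
    refine jn 9987 (by decide +kernel) ?_
    refine jn 10236 (by decide +kernel) ?_
    refine jn 10361 (by decide +kernel) ?_
    refine jn 10452 (by decide +kernel) ?_
    refine jn 10539 (by decide +kernel) ?_
    refine jn 10620 (by decide +kernel) ?_
    refine jn 10692 (by decide +kernel) ?_
    refine jn 10764 (by decide +kernel) ?_
    refine jn 10819 (by decide +kernel) ?_
    refine jn 10868 (by decide +kernel) ?_
    refine jn 10926 (by decide +kernel) ?_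
    refine jn 10976 (by decide +kernel) ?_
    refine jn 11031 (by decide +kernel) ?_
    refine jn 11076 (by decide +kernel) ?_
    refine jn 11112 (by decide +kernel) ?_
    refine jn 11463 (by decide +kernel) ?_
    refine jn 11672 (by decide +kernel) ?_
    refine jn 11810 (by decide +kernel) ?_
    refine jn 11929 (by decide +kernel) ?_
    refine jn 12010 (by decide +kernel) ?_
    refine jn 12099 (by decide +kernel) ?_
    refine jn 12182 (by decide +kernel) ?_
    refine jn 12255 (by decide +kernel) ?_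
    refine jn 12319 (by decide +kernel) ?_
    refine jn 12385 (by decide +kernel) ?_
    refine jn 12836 (by decide +kernel) ?_
    refine jn 13060 (by decide +kernel) ?_
    refine jn 13216 (by decide +kernel) ?_
    refine jn 13355 (by decide +kernel) ?_
    refine jn 13435 (by decide +kernel) ?_
    refine jn 13952 (by decide +kernel) ?_
    refine jn 14192 (by decide +kernel) ?_
    refine jn 14422 (by decide +kernel) ?_
    exact je (by decide +kernel)
  · refine fin 48 2434 T95_2 ?_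
    refine jn 3 (by decide +kernel) ?_
    refine jn 4 (by decide +kernel) ?_
    refine jn 5 (by decide +kernel) ?_
    refine jn 6 (by decide +kernel) ?_
    refine jn 7 (by decide +kernel) ?_
    refine jn 8 (by decide +kernel) ?_
    refine jn 9 (by decide +kernel) ?_
    refine jn 10 (by decide +kernel) ?_
    refine jn 11 (by decide +kernel) ?_
    refine jn 12 (by decide +kernel) ?_
    refine jn 13 (by decide +kernel) ?_
    refine jn 15 (by decide +kernel) ?_
    refine jn 16 (by decide +kernel) ?_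
    refine jn 17 (by decide +kernel) ?_
    refine jn 22 (by decide +kernel) ?_
    refine jn 26 (by decide +kernel) ?_
    refine jn 30 (by decide +kernel) ?_
    refine jn 33 (by decide +kernel) ?_
    refine jn 36 (by decide +kernel) ?_
    refine jn 39 (by decide +kernel) ?_
    refine jn 44 (by decide +kernel) ?_
    refine jn 58 (by decide +kernel) ?_
    refine jn 66 (by decide +kernel) ?_
    refine jn 67 (by decide +kernel) ?_
    refine jn 78 (by decide +kernel) ?_
    refine jn 79 (by decide +kernel) ?_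
    refine jn 80 (by decide +kernel) ?_
    refine jn 81 (by decide +kernel) ?_
    refine jn 82 (by decide +kernel) ?_
    refine jn 83 (by decide +kernel) ?_
    refine jn 84 (by decide +kernel) ?_
    refine jn 85 (by decide +kernel) ?_
    refine jn 86 (by decide +kernel) ?_
    refine jn 87 (by decide +kernel) ?_
    refine jn 88 (by decide +kernel) ?_
    refine jn 89 (by decide +kernel) ?_
    refine jn 90 (by decide +kernel) ?_
    refine jn 91 (by decide +kernel) ?_
    refine jn 92 (by decide +kernel) ?_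
    refine jn 93 (by decide +kernel) ?_
    refine jn 102 (by decide +kernel) ?_
    refine jn 103 (by decide +kernel) ?_
    refine jn 104 (by decide +kernel) ?_
    refine jn 105 (by decide +kernel) ?_
    refine jn 106 (by decide +kernel) ?_
    refine jn 107 (by decide +kernel) ?_
    refine jn 108 (by decide +kernel) ?_
    refine jn 109 (by decide +kernel) ?_
    refine jn 110 (by decide +kernel) ?_
    refine jn 111 (by decide +kernel) ?_
    refine jn 112 (by decide +kernel) ?_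
    refine jn 113 (by decide +kernel) ?_
    refine jn 114 (by decide +kernel) ?_
    refine jn 115 (by decide +kernel) ?_
    refine jn 116 (by decide +kernel) ?_
    refine jn 130 (by decide +kernel) ?_
    refine jn 131 (by decide +kernel) ?_
    refine jn 132 (by decide +kernel) ?_
    refine jn 133 (by decide +kernel) ?_
    refine jn 135 (by decide +kernel) ?_
    refine jn 136 (by decide +kernel) ?_
    refine jn 138 (by decide +kernel) ?_
    refine jn 139 (by decide +kernel) ?_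
    refine jn 140 (by decide +kernel) ?_
    refine jn 143 (by decide +kernel) ?_
    refine jn 152 (by decide +kernel) ?_
    refine jn 153 (by decide +kernel) ?_
    refine jn 154 (by decide +kernel) ?_
    refine jn 155 (by decide +kernel) ?_
    refine jn 157 (by decide +kernel) ?_
    refine jn 158 (by decide +kernel) ?_
    refine jn 167 (by decide +kernel) ?_
    refine jn 168 (by decide +kernel) ?_
    refine jn 169 (by decide +kernel) ?_
    refine jn 170 (by decide +kernel) ?_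
    refine jn 171 (by decide +kernel) ?_
    refine jn 172 (by decide +kernel) ?_
    refine jn 173 (by decide +kernel) ?_
    refine jn 174 (by decide +kernel) ?_
    refine jn 183 (by decide +kernel) ?_
    refine jn 184 (by decide +kernel) ?_
    refine jn 185 (by decide +kernel) ?_
    refine jn 187 (by decide +kernel) ?_
    refine jn 189 (by decide +kernel) ?_
    refine jn 197 (by decide +kernel) ?_
    refine jn 198 (by decide +kernel) ?_
    refine jn 199 (by decide +kernel) ?_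
    refine jn 200 (by decide +kernel) ?_
    refine jn 201 (by decide +kernel) ?_
    refine jn 202 (by decide +kernel) ?_
    refine jn 203 (by decide +kernel) ?_
    refine jn 204 (by decide +kernel) ?_
    refine jn 211 (by decide +kernel) ?_
    refine jn 213 (by decide +kernel) ?_
    refine jn 218 (by decide +kernel) ?_
    refine jn 220 (by decide +kernel) ?_
    refine jn 226 (by decide +kernel) ?_
    refine jn 227 (by decide +kernel) ?_
    refine jn 228 (by decide +kernel) ?_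
    refine jn 236 (by decide +kernel) ?_
    refine jn 241 (by decide +kernel) ?_
    refine jn 242 (by decide +kernel) ?_
    refine jn 243 (by decide +kernel) ?_
    refine jn 249 (by decide +kernel) ?_
    refine jn 253 (by decide +kernel) ?_
    refine jn 254 (by decide +kernel) ?_
    refine jn 255 (by decide +kernel) ?_
    refine jn 265 (by decide +kernel) ?_
    refine jn 272 (by decide +kernel) ?_
    refine jn 273 (by decide +kernel) ?_
    refine jn 275 (by decide +kernel) ?_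
    refine jn 282 (by decide +kernel) ?_
    refine jn 290 (by decide +kernel) ?_
    refine jn 294 (by decide +kernel) ?_
    refine jn 295 (by decide +kernel) ?_
    refine jn 296 (by decide +kernel) ?_
    refine jn 302 (by decide +kernel) ?_
    refine jn 304 (by decide +kernel) ?_
    refine jn 316 (by decide +kernel) ?_
    refine jn 322 (by decide +kernel) ?_
    refine jn 333 (by decide +kernel) ?_
    refine jn 340 (by decide +kernel) ?_
    refine jn 354 (by decide +kernel) ?_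
    refine jn 368 (by decide +kernel) ?_
    refine jn 386 (by decide +kernel) ?_
    refine jn 404 (by decide +kernel) ?_
    refine jn 406 (by decide +kernel) ?_
    refine jn 432 (by decide +kernel) ?_
    refine jn 457 (by decide +kernel) ?_
    refine jn 469 (by decide +kernel) ?_
    refine jn 475 (by decide +kernel) ?_
    refine jn 496 (by decide +kernel) ?_
    refine jn 517 (by decide +kernel) ?_
    refine jn 623 (by decide +kernel) ?_
    refine jn 714 (by decide +kernel) ?_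
    refine jn 810 (by decide +kernel) ?_
    refine jn 830 (by decide +kernel) ?_
    refine jn 846 (by decide +kernel) ?_
    refine jn 884 (by decide +kernel) ?_
    refine jn 918 (by decide +kernel) ?_
    refine jn 965 (by decide +kernel) ?_
    refine jn 981 (by decide +kernel) ?_
    refine jn 1010 (by decide +kernel) ?_
    refine jn 1050 (by decide +kernel) ?_
    refine jn 1141 (by decide +kernel) ?_
    refine jn 1213 (by decide +kernel) ?_
    refine jn 1309 (by decide +kernel) ?_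
    refine jn 1408 (by decide +kernel) ?_
    refine jn 1504 (by decide +kernel) ?_
    refine jn 1611 (by decide +kernel) ?_
    refine jn 1689 (by decide +kernel) ?_
    refine jn 1757 (by decide +kernel) ?_
    refine jn 1821 (by decide +kernel) ?_
    refine jn 1904 (by decide +kernel) ?_
    refine jn 1977 (by decide +kernel) ?_
    refine jn 2060 (by decide +kernel) ?_
    refine jn 2153 (by decide +kernel) ?_
    exact je (by decide +kernel)

end Pool.Agent.MP_2339ce_nt.NR
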