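import Pool.Agent.MP_2339ce_nt.Q2.NC.L5
import Pool.Agent.MP_2339ce_nt.Q2.NC.L9
import Pool.Agent.MP_2339ce_nt.Q2.NC.L10
import Pool.Agent.MP_2339ce_nt.Q2.CkI

/-! Block NR: runs. -/

set_option autoImplicit false
set_option maxRecDepth 100000

noncomputable section

namespace Pool.Agent.MP_2339ce_nt.NR

open Q2.Top

def T99_0 : Ph :=
  (.na 611 5 (.na 382 2 (.nx 381 2097153 (.nr 380 881745 (.nx 2 208 (.nr 1 15 (.lg 0 true 1 47 47 5
  0 13104) (.l1 .sk)) (.nx 3 209 (.l1 .sk) (.nr 332 131073 (.nx 296 1048577 (.nx 58 32769 (.lg 0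
  false 55 103 109 16 0 720720) (.nr 295 110219 (.nr 113 901 (.lg 0 true 55 97 103 16 0 720720)
  (.nx 168 52017 (.lg 1 false 55 101 107 16 72898 720720) (.nr 294 77937 (.nr 238 38969 (.nr 179
  1724 (.lg 2 true 11 97 97 9 121035 6864) (.nx 237 832257 (.nr 201 5794 (.nr 190 3160 (.lg 2 true
  11 97 101 9 50206 48048) (.lg 2 true 11 101 103 9 27391 720720)) (.nx 236 660563 (.lg 2 false 35
  101 107 13 16293 720720) .out)) .out)) (.nx 293 330282 (.lg 2 false 55 101 107 16 32499 720720)
  .out)) .out))) .out)) (.nr 331 129 (.lg 0 true 35 83 89 13 0 21840) .out)) (.nx 379 8193 (.nx 363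
  4096 (.nx 362 324 (.lg 0 false 30 83 89 11 0 9360) .out) (.nr 378 155873 (.lg 0 false 15 97 101 9
  0 65520) .out)) .out)))) .out) .out) (.na 383 4 .ne (.nx 610 16777217 (.nr 609 1246976 (.nx 386
  209 (.nx 385 208 (.nr 384 49 (.lg 0 true 1 37 37 9 0 4368) (.l1 .sk)) (.l1 .sk)) (.nx 553 2097153
  (.nx 537 524289 (.nx 428 31301 (.nx 412 16384 (.nr 401 155873 (.lg 0 false 15 101 103 13 0 65520)
  (.nx 411 324 (.lg 0 false 10 79 79 13 0 3120) .out)) (.nr 427 185365 (.lg 0 false 15 101 107 13 0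
  720720) .out)) (.nr 536 220437 (.nr 443 729 (.lg 0 true 15 89 89 13 0 65520) (.nr 453 11603 (.nr
  448 2909 (.lg 2 true 5 89 97 11 74796 21840) (.lg 2 true 5 89 97 11 18744 21840)) (.nx 499 92682
  (.nx 484 65536 (.nr 483 185365 (.nx 468 45292 (.lg 1 false 15 101 107 13 128251 720720) (.lg 1
  false 15 101 107 13 88633 720720)) .out) (.lg 1 false 15 101 107 13 72831 720720)) (.nx 514
  131073 (.lg 1 false 15 101 107 13 51499 720720) (.nr 535 155873 (.nx 529 208065 (.lg 1 true 15
  101 107 13 25760 720720) (.nr 534 55110 (.lg 2 false 5 97 97 11 5752 21840) .out)) .out)))))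
  .out)) (.nr 552 183 (.lg 0 true 15 83 83 13 0 9360) .out)) (.nr 608 21 (.nx 578 8388609 (.lg 0
  true 25 79 79 11 0 3120) (.lg 0 true 30 79 79 11 0 9360)) .out))) .out) .out))) (.na 612 7 .ne
  (.na 753 8 (.nx 752 16777217 (.nr 751 1246976 (.nx 717 2097153 (.nx 614 208 (.nr 613 81 (.lg 0
  true 1 37 37 9 0 21840) (.l1 .sk)) (.nx 615 209 (.l1 .sk) (.nx 640 32768 (.nx 621 257 (.nr 616
  741456 (.l1 (.ls 89 37 3198)) (.lg 0 false 5 71 71 16 0 21840)) (.nr 639 440873 (.nr 632 155873
  (.lg 0 false 11 101 107 16 0 720720) (.nx 638 2049 (.lg 0 false 6 97 97 16 0 65520) .out)) .out))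
  (.nr 716 220437 (.nx 706 1048577 (.nr 651 642 (.lg 0 true 11 89 89 16 0 240240) (.nx 705 832257
  (.nr 656 2833 (.lg 2 true 5 89 89 16 134821 21840) (.nx 690 208065 (.nx 668 65536 (.nr 667 185365
  (.lg 1 false 11 101 107 16 122510 720720) .out) (.nx 679 121357 (.lg 1 false 11 101 107 16 72831
  720720) (.lg 1 true 11 101 103 16 39331 720720))) (.nr 704 110219 (.nr 695 12496 (.lg 2 true 5 89
  89 16 30553 21840) (.lg 2 false 9 97 101 16 11481 65520)) .out))) .out)) (.nr 715 129 (.lg 0 true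
  9 79 79 16 0 13104) .out)) .out)))) (.nr 750 47 (.lg 0 true 33 83 83 16 0 144144) .out)) .out)
  .out) (.nx 897 16777217 (.nr 896 1048577 (.nx 862 2097153 (.nx 854 1048577 (.nx 755 208 (.nr 754
  91 (.lg 0 true 1 37 37 9 0 624) (.l1 .sk)) (.nx 756 209 (.l1 .sk) (.nx 757 257 (.l1 (.ls 89 41
  2799)) (.nr 853 881745 (.nx 758 324 (.l1 (.ls 89 43 4868)) (.nr 852 623489 (.nx 777 26007 (.nr
  769 155873 (.lg 0 false 11 101 103 13 0 720720) (.nx 776 2049 (.lg 0 false 7 97 97 13 0 65520)
  .out)) (.nr 851 220437 (.nr 793 3732 (.nr 788 971 (.lg 0 true 11 83 89 13 0 6864) (.lg 2 true 5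
  83 89 13 112309 3120)) (.nx 805 52015 (.nr 804 185365 (.lg 1 false 11 101 107 13 154359 720720)
  .out) (.nx 838 208065 (.nx 816 76448 (.lg 1 false 11 97 103 13 91763 720720) (.nx 827 112360 (.lg
  1 false 11 97 103 13 62435 720720) (.lg 1 true 11 101 107 13 42480 720720))) (.nr 850 110219 (.nr
  843 14343 (.lg 2 true 5 83 89 13 29221 3120) (.lg 2 false 7 101 103 13 11481 720720)) .out))))
  .out)) .out)) .out)))) (.nr 861 129 (.lg 0 true 7 73 73 13 0 4368) .out)) (.nr 895 55 (.lg 0 true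
  33 83 83 13 0 20592) .out)) .out) .out))))

def T99_1 : Ph :=
  (.na 681 8 (.na 496 6 (.na 262 5 (.nx 261 21137969 (.nr 260 1246976 (.nx 92 58123 (.nx 2 240 (.nr
  1 53 (.lg 0 true 1 37 37 9 0 240) (.l1 .sk)) (.nx 3 241 (.l1 .sk) (.nr 80 262145 (.lg 0 false 77
  97 107 23 0 720720) (.nx 91 408 (.lg 0 false 11 79 83 13 0 2640) .out)))) (.nr 259 311745 (.nx
  194 660563 (.nr 110 2912 (.nr 103 730 (.lg 0 true 11 83 83 13 0 2640) (.lg 2 true 7 89 97 11
  108586 5040)) (.nx 179 330282 (.nx 167 262145 (.nx 155 208065 (.nx 122 82570 (.nr 121 262145 (.lg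
  1 false 11 103 107 13 130014 720720) .out) (.nx 133 112360 (.lg 1 false 11 103 107 13 108820
  720720) (.nx 144 152899 (.lg 1 false 11 103 107 13 79969 720720) (.lg 1 false 11 103 107 13 58766
  720720)))) (.nr 166 185365 (.lg 1 true 11 97 103 13 25692 55440) .out)) (.nr 178 131073 (.lg 1
  true 11 97 103 13 14427 55440) .out)) (.nr 193 46342 (.nr 186 11616 (.lg 2 true 7 89 97 11 27222
  5040) (.lg 2 false 7 89 97 11 6824 5040)) .out))) (.nr 258 183 (.nr 246 33 (.lg 0 true 52 79 79
  13 0 3120) (.nx 257 2642247 (.lg 0 true 11 83 83 13 0 2640) .out)) .out)) .out)) .out) .out) (.nx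
  495 21137969 (.nr 494 1482912 (.nx 265 241 (.nx 264 240 (.nr 263 64 (.lg 0 false 1 37 37 9 0 720)
  (.l1 .sk)) (.l1 .sk)) (.nx 427 660563 (.nx 305 49825 (.nr 291 220437 (.lg 0 false 26 101 107 16 0
  720720) (.nx 304 408 (.lg 0 false 13 73 73 16 0 3120) .out)) (.nr 426 311745 (.nr 331 6200 (.nr
  318 829 (.lg 0 true 13 83 83 16 0 3120) (.lg 2 true 13 89 89 16 95619 65520)) (.nx 385 152899
  (.nx 372 112360 (.nx 345 65536 (.nr 344 220437 (.lg 1 false 13 101 103 16 127558 720720) .out)
  (.nx 359 82570 (.nr 358 262145 (.lg 1 false 13 101 103 16 115307 720720) .out) (.lg 1 false 13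
  101 103 16 108820 720720))) (.lg 1 false 13 101 103 16 79969 720720)) (.nx 398 208065 (.lg 1
  false 13 101 103 16 58766 720720) (.nr 425 262145 (.nx 411 262145 (.lg 1 true 13 101 103 16 36319
  720720) (.nr 424 131073 (.lg 2 false 13 97 101 16 14427 65520) .out)) .out)))) .out)) (.nr 493
  217 (.nr 479 39 (.lg 0 true 52 79 79 13 0 3120) (.nx 492 2642247 (.lg 0 true 13 73 73 16 0 3120)
  .out)) .out))) .out) .out)) (.na 680 7 (.nx 679 21137969 (.nr 678 1048577 (.nx 535 52015 (.nx 498
  240 (.nr 497 76 (.lg 0 true 1 37 37 7 0 720) (.l1 .sk)) (.nx 499 241 (.l1 .sk) (.nr 520 220437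
  (.lg 0 false 21 101 107 17 0 720720) (.nx 534 814 (.lg 0 false 14 79 79 13 0 5040) .out)))) (.nr
  677 311745 (.nx 619 832257 (.nr 549 941 (.lg 0 true 14 83 83 13 0 5040) (.nx 600 262145 (.nx 578
  112360 (.nx 564 82570 (.nr 563 262145 (.lg 1 false 14 101 103 13 145281 720720) .out) (.lg 1
  false 14 101 103 13 108820 720720)) (.nx 592 208065 (.lg 1 true 14 103 107 13 79969 720720) (.nr
  599 262145 (.lg 1 true 7 97 101 13 36319 5040) .out))) (.nr 618 131073 (.nr 607 6606 (.lg 2 true
  7 89 89 13 106133 5040) (.lg 2 false 11 89 97 13 15119 7920)) .out))) (.nr 676 257 (.nr 661 46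
  (.lg 0 true 42 73 73 13 0 5040) (.nx 675 2642247 (.lg 0 true 14 79 79 13 0 5040) .out)) .out))
  .out)) .out) .out) .ne)) (.na 847 10 (.na 846 9 (.nx 845 21137969 (.nr 844 1482912 (.nx 684 241
  (.nx 683 240 (.nr 682 98 (.lg 0 true 1 31 31 9 0 720) (.l1 .sk)) (.l1 .sk)) (.nx 808 2642247 (.nx
  800 1321124 (.nr 792 370729 (.nx 705 32768 (.nr 697 220437 (.lg 0 false 13 97 101 13 0 9360) (.nx
  704 2582 (.lg 0 false 7 83 83 13 0 5040) .out)) (.nr 791 311745 (.nr 718 1227 (.lg 0 true 13 83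
  83 13 0 3120) (.nr 725 4896 (.lg 2 true 7 83 89 13 129206 5040) (.nx 740 65536 (.nr 739 262145
  (.nx 732 46340 (.lg 1 false 7 97 101 13 230616 5040) (.lg 1 false 7 97 101 13 163073 5040)) .out)
  (.nr 747 19534 (.lg 2 true 7 83 89 13 32381 5040) (.nx 783 330282 (.nx 761 131072 (.nx 754 92681
  (.lg 1 false 7 97 101 13 137104 5040) (.lg 1 false 7 97 101 13 96948 5040)) (.nx 768 185364 (.lg
  1 false 7 97 101 13 68552 5040) (.nx 775 262145 (.lg 1 true 7 97 101 13 48474 5040) (.nr 782
  185365 (.lg 1 true 7 89 97 13 20392 5040) .out)))) (.nr 790 110219 (.lg 2 false 7 89 97 13 9632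
  5040) .out)))))) .out)) (.nx 799 814 (.lg 0 false 7 83 83 13 0 1680) .out)) (.nr 807 154 (.lg 0
  true 7 73 73 13 0 1680) .out)) (.nr 843 55 (.lg 0 true 35 79 79 13 0 1680) .out))) .out) .out)
  (.lg 0 false 1 0 0 7 0 24)) (.na 934 12 (.nx 933 2642247 (.nr 932 1246976 (.nx 851 324 (.nx 849
  240 (.nr 848 131 (.lg 0 true 1 31 31 9 0 720) (.l1 .sk)) (.nx 850 241 (.l1 .sk) (.l1 (.ls 79 43
  4692)))) (.nr 931 1048577 (.nx 874 65536 (.nx 852 408 (.l1 (.ls 79 47 6151)) (.nr 873 741457 (.nr
  865 262145 (.lg 0 false 13 103 107 13 0 720720) (.nx 872 1292 (.lg 0 false 7 73 73 13 0 1680)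
  .out)) .out)) (.nr 930 311745 (.nx 922 1321124 (.nr 892 9266 (.nr 885 1101 (.lg 0 true 11 79 79
  13 0 2640) (.lg 2 true 7 83 83 13 143992 1680)) (.nx 914 262145 (.nx 903 131072 (.lg 1 false 11
  101 103 13 137104 720720) (.lg 1 true 11 101 103 13 68552 720720)) (.nr 921 185365 (.lg 2 false 7
  97 97 13 20392 5040) .out))) (.nr 929 65 (.lg 0 true 7 61 61 13 0 1680) .out)) .out)) .out))
  .out) .out) (.na 1028 15 (.nx 1027 2642247 (.nr 1026 1246976 (.nx 938 324 (.nx 936 240 (.nr 935
  164 (.lg 0 true 1 31 31 13 0 720) (.l1 .sk)) (.nx 937 241 (.l1 .sk) (.l1 (.ls 83 47 3910)))) (.nr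
  1025 1048577 (.nx 939 408 (.l1 (.ls 83 47 5127)) (.nr 1024 741457 (.nx 1016 660563 (.nx 960 41285
  (.nr 952 220437 (.lg 0 false 13 101 103 23 0 720720) (.nx 959 1627 (.lg 0 false 7 79 83 19 0
  5040) .out)) (.nr 1015 311745 (.nr 970 8897 (.nr 967 1207 (.lg 0 true 7 83 83 19 0 5040) (.lg 2
  true 3 89 89 13 65674 720)) (.nx 997 165142 (.nx 984 82570 (.nr 983 262145 (.lg 1 false 13 97 107
  23 183040 720720) .out) (.lg 1 false 13 101 107 23 108820 720720)) (.nr 1014 262145 (.nx 1010
  330282 (.lg 1 true 13 97 107 23 45759 720720) (.nr 1013 77937 (.lg 2 false 3 89 89 13 8910 720)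
  .out)) .out))) .out)) (.nr 1023 65 (.lg 0 true 7 71 71 19 0 5040) .out)) .out)) .out)) .out)
  .out) (.nx 1090 2642247 (.nr 1089 1246976 (.nx 1030 240 (.nr 1029 175 (.lg 0 true 1 29 29 16 0
  720) (.l1 .sk)) (.nx 1031 241 (.l1 .sk) (.nx 1032 408 (.l1 (.ls 79 43 7228)) (.nr 1088 741457
  (.nx 1053 82570 (.nr 1045 262145 (.lg 0 false 13 89 97 16 0 9360) (.nx 1052 1627 (.lg 0 false 7
  73 73 16 0 5040) .out)) (.nr 1087 311745 (.nx 1079 660563 (.nr 1060 1614 (.lg 0 true 7 73 73 16 0
  5040) (.nx 1067 165142 (.lg 1 false 7 89 97 16 108820 5040) (.nr 1078 262145 (.lg 2 false 11 89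
  97 16 49113 7920) .out))) (.nr 1086 65 (.lg 0 true 7 61 61 16 0 5040) .out)) .out)) .out))))
  .out) .out)))))

def T99_2 : Ph :=
  (.na 636 146 (.na 474 61 (.na 345 25 (.na 282 10 (.na 231 3 (.na 146 2 (.nx 145 660563 (.nr 144
  1482912 (.nx 2 49 (.nr 1 8 (.lg 0 true 1 31 31 5 0 840) (.l1 .sk)) (.nx 3 50 (.l1 .sk) (.nr 98
  38969 (.nr 86 16385 (.nx 14 4097 (.lg 0 true 11 83 83 9 0 1848) (.nr 85 13779 (.nx 51 104033 (.nr
  36 331 (.lg 0 true 22 79 79 11 0 3696) (.nr 40 682 (.lg 2 false 4 73 73 7 7701 336) (.lg 2 false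
  11 89 89 9 4053 9240))) (.nr 84 78 (.lg 0 true 33 79 79 13 0 5544) .out)) .out)) (.nx 97 1292
  (.lg 0 false 11 83 89 9 0 9240) .out)) (.nx 143 205 (.nr 109 110219 (.lg 0 false 11 79 79 9 0
  1848) (.nx 142 103 (.lg 0 false 33 79 83 13 0 5544) .out)) .out)))) .out) .out) (.nx 230 660563
  (.nr 229 623489 (.nx 149 50 (.nx 148 49 (.nr 147 14 (.lg 0 true 1 29 29 5 0 336) (.l1 .sk)) (.l1
  .sk)) (.nx 206 104033 (.nr 194 131073 (.nr 182 27556 (.nx 160 5346 (.lg 0 true 11 89 89 9 0
  55440) (.nr 171 613 (.lg 0 true 11 79 79 9 0 3696) (.lg 2 false 11 89 97 9 6200 18480))) (.nx 193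
  647 (.lg 0 false 11 83 83 9 0 3696) .out)) (.nx 205 103 (.lg 0 false 11 73 73 9 0 3696) .out))
  (.nr 228 154 (.lg 0 true 22 79 79 11 0 3696) .out))) .out) .out)) (.na 232 7 .ne (.na 281 8 (.nx
  280 660563 (.nr 279 262145 (.nr 233 1 .s1 (.nx 235 49 (.nr 234 40 (.l1 (.ls 16 19 345)) (.l1
  .sk)) (.nx 236 50 (.l1 .sk) (.nx 248 3308 (.lg 0 false 12 83 83 16 0 5040) (.nr 278 92683 (.nr
  274 32769 (.nr 260 584 (.lg 0 true 12 73 73 16 0 1008) (.nx 273 330282 (.lg 2 true 13 67 67 16
  13857 2184) .out)) (.nx 277 6503 (.lg 0 true 3 83 83 11 0 2520) .out)) .out))))) .out) .out)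
  .ne))) (.na 325 16 (.na 307 14 (.nx 306 660563 (.nr 305 623489 (.nr 283 8 .s1 (.nx 286 50 (.nx
  285 49 (.nr 284 70 (.l1 (.ls 19 29 243)) (.l1 .sk)) (.l1 .sk)) (.nx 287 103 (.l1 (.ls 83 37 813))
  (.nr 304 131073 (.nx 293 6503 (.lg 0 false 6 89 89 13 0 5040) (.nr 303 46342 (.nr 299 154 (.lg 0
  true 6 71 71 13 0 5040) (.nx 302 41287 (.lg 1 true 3 89 89 13 8565 5040) .out)) .out)) .out))))
  .out) .out) (.nx 324 660563 (.nr 323 623489 (.nr 308 13 .s1 (.nx 309 103 (.l1 (.ls 73 37 760))
  (.nr 322 131073 (.nx 312 6503 (.lg 0 true 3 83 83 13 0 1008) (.nr 321 46342 (.nr 317 154 (.lg 0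
  true 5 61 61 13 0 1680) (.nx 320 41287 (.lg 1 false 3 79 79 13 8565 1008) .out)) .out)) .out)))
  .out) .out)) (.na 326 17 .ne (.na 344 23 (.nx 343 660563 (.nr 342 623489 (.nr 327 16 .s1 (.nx 328
  103 (.l1 (.ls 79 23 627)) (.nr 341 131073 (.nx 332 6503 (.lg 0 false 4 83 83 16 0 1680) (.nr 340
  46342 (.nr 336 257 (.lg 0 true 4 71 71 16 0 336) (.nx 339 41287 (.lg 1 true 3 83 83 16 8565 2520)
  .out)) .out)) .out))) .out) .out) .ne)))) (.na 407 35 (.na 378 29 (.na 363 26 (.nx 362 660563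
  (.nr 361 131073 (.nr 346 25 .s1 (.nx 348 49 (.nr 347 130 (.l1 (.ls 17 16 99)) (.l1 .sk)) (.nx 349
  50 (.l1 .sk) (.nx 357 41287 (.nr 353 32769 (.lg 0 false 4 73 73 16 0 1680) (.nx 356 6503 (.lg 0
  false 3 79 79 16 0 2520) .out)) (.nr 360 257 (.lg 0 true 3 67 67 16 0 2520) .out))))) .out) .out)
  (.nx 377 660563 (.nr 376 131073 (.nr 364 26 .s1 (.nx 367 50 (.nx 366 49 (.nr 365 145 (.l1 (.ls 19
  23 95)) (.l1 .sk)) (.l1 .sk)) (.nx 370 6503 (.lg 0 false 3 83 83 11 0 13104) (.nr 375 32769 (.nr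
  373 257 (.lg 0 true 3 67 67 11 0 13104) (.nx 374 41287 (.lg 1 false 1 79 79 11 6059 4368) .out))
  .out)))) .out) .out)) (.na 393 32 (.nx 392 660563 (.nr 391 131073 (.nr 379 29 .s1 (.nx 385 6503
  (.nx 381 49 (.nr 380 160 (.l1 (.ls 16 16 85)) (.l1 .sk)) (.nx 382 50 (.l1 .sk) (.lg 0 false 3 79
  79 16 0 504))) (.nr 390 32769 (.nr 388 257 (.lg 0 true 3 67 67 16 0 504) (.nx 389 41287 (.lg 1
  false 1 79 79 13 6059 2520) .out)) .out))) .out) .out) (.na 394 34 .ne (.nx 406 82572 (.nr 405
  262145 (.nr 395 34 .s1 (.nx 398 50 (.nx 397 49 (.nr 396 174 (.l1 (.ls 16 13 73)) (.l1 .sk)) (.l1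
  .sk)) (.nr 401 32769 (.lg 0 false 3 89 89 13 0 5040) (.nx 404 2582 (.lg 0 false 3 79 79 13 0
  1008) .out)))) .out) .out)))) (.na 442 50 (.na 420 41 (.nx 419 82572 (.nr 418 262145 (.nr 408 35
  .s1 (.nx 411 50 (.nx 410 49 (.nr 409 204 (.l1 (.ls 16 17 71)) (.l1 .sk)) (.l1 .sk)) (.nr 414
  32769 (.lg 0 true 3 79 79 16 0 2520) (.nx 417 2582 (.lg 0 false 3 71 71 16 0 2520) .out)))) .out)
  .out) (.na 431 49 (.nx 430 82572 (.nr 429 262145 (.nr 421 41 .s1 (.nx 424 50 (.nx 423 49 (.nr 422
  244 (.l1 (.ls 16 16 61)) (.l1 .sk)) (.l1 .sk)) (.nr 427 32769 (.lg 0 true 3 83 83 16 0 504) (.nx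
  428 2582 (.lg 0 true 1 79 79 16 0 168) .out)))) .out) .out) (.nx 441 82572 (.nr 440 262145 (.nr
  432 49 .s1 (.nx 434 49 (.nr 433 249 (.l1 (.ls 23 16 51)) (.l1 .sk)) (.nx 435 50 (.l1 .sk) (.nx
  438 41287 (.nr 436 32769 (.lg 0 false 1 83 83 16 0 840) (.nx 437 2582 (.lg 0 false 1 83 83 16 0
  840) .out)) (.nr 439 154 (.lg 0 true 1 53 53 16 0 840) .out))))) .out) .out))) (.na 453 53 (.nx
  452 82572 (.nr 451 262145 (.nr 443 50 .s1 (.nx 445 49 (.nr 444 264 (.l1 (.ls 17 19 51)) (.l1
  .sk)) (.nx 446 50 (.l1 .sk) (.nr 449 32769 (.lg 0 true 3 79 79 19 0 5040) (.nx 450 2582 (.lg 0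
  true 1 79 79 13 0 1680) .out))))) .out) .out) (.na 464 58 (.nx 463 82572 (.nr 462 262145 (.nr 454
  53 .s1 (.nx 456 49 (.nr 455 289 (.l1 (.ls 16 16 48)) (.l1 .sk)) (.nx 457 50 (.l1 .sk) (.nr 460
  32769 (.lg 0 true 3 79 79 16 0 504) (.nx 461 2582 (.lg 0 true 1 73 73 16 0 168) .out))))) .out)
  .out) (.nx 473 82572 (.nr 472 262145 (.nr 465 58 .s1 (.nx 468 50 (.nx 467 49 (.nr 466 304 (.l1
  (.ls 17 13 44)) (.l1 .sk)) (.l1 .sk)) (.nr 470 32769 (.lg 0 false 2 83 83 13 0 1680) (.nx 471
  2582 (.lg 0 true 1 79 79 13 0 1680) .out)))) .out) .out)))))) (.na 572 106 (.na 514 74 (.na 486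
  65 (.na 485 64 (.nx 484 82572 (.nr 483 262145 (.nr 475 61 .s1 (.nx 478 50 (.nx 477 49 (.nr 476
  319 (.l1 (.ls 16 16 42)) (.l1 .sk)) (.l1 .sk)) (.nr 481 32769 (.lg 0 true 3 79 79 16 0 504) (.nx
  482 2582 (.lg 0 true 1 73 73 16 0 168) .out)))) .out) .out) .ne) (.na 496 70 (.nx 495 82572 (.nr
  494 524289 (.nr 487 65 .s1 (.nx 488 647 (.l1 (.ls 73 43 6443)) (.nr 493 262145 (.nx 489 6503 (.lg
  0 true 1 83 83 17 0 10920) (.nr 492 65537 (.nr 490 257 (.lg 0 true 1 53 53 17 0 10920) (.nx 491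
  41287 (.lg 1 true 1 73 73 17 12109 10920) .out)) .out)) .out))) .out) .out) (.na 506 73 (.nx 505
  82572 (.nr 504 524289 (.nr 497 70 .s1 (.nx 502 41287 (.nx 498 647 (.l1 (.ls 71 53 5983)) (.nr 501
  262145 (.lg 0 false 3 83 83 29 0 5040) .out)) (.nr 503 257 (.lg 0 true 1 43 43 23 0 1680) .out)))
  .out) .out) (.nx 513 82572 (.nr 512 524289 (.nr 507 73 .s1 (.nx 510 6503 (.nx 508 647 (.l1 (.ls
  67 37 5737)) (.nr 509 262145 (.lg 0 true 1 79 79 16 0 840) .out)) (.nr 511 65537 (.lg 1 false 1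
  79 79 16 27713 168) .out))) .out) .out)))) (.na 542 89 (.na 524 82 (.nx 523 82572 (.nr 522 524289
  (.nr 515 74 .s1 (.nx 516 647 (.l1 (.ls 73 47 5659)) (.nr 521 262145 (.nx 519 41287 (.lg 0 false 3
  89 89 19 0 1008) (.nr 520 257 (.lg 0 true 1 47 47 13 0 5040) .out)) .out))) .out) .out) (.na 532
  85 (.nx 531 82572 (.nr 530 524289 (.nr 525 82 .s1 (.nx 526 647 (.l1 (.ls 71 47 5107)) (.nr 529
  262145 (.nx 527 6503 (.lg 0 true 1 79 79 13 0 1680) (.nr 528 65537 (.lg 1 false 1 83 83 13 24671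
  1680) .out)) .out))) .out) .out) (.nx 541 82572 (.nr 540 524289 (.nr 533 85 .s1 (.nx 534 647 (.l1
  (.ls 73 41 4927)) (.nr 539 262145 (.nx 535 6503 (.lg 0 true 1 79 79 16 0 840) (.nr 538 65537 (.nx
  536 41287 (.lg 1 false 1 73 73 16 12109 840) (.nr 537 257 (.lg 0 true 1 47 47 16 0 840) .out))
  .out)) .out))) .out) .out))) (.na 552 97 (.nx 551 82572 (.nr 550 524289 (.nr 543 89 .s1 (.nx 548
  41287 (.nx 544 647 (.l1 (.ls 61 37 4706)) (.nr 547 262145 (.lg 0 false 3 79 79 16 0 2520) .out))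
  (.nr 549 257 (.lg 0 true 1 37 37 16 0 168) .out))) .out) .out) (.na 562 98 (.nx 561 82572 (.nr
  560 524289 (.nr 553 97 .s1 (.nx 554 647 (.l1 (.ls 67 31 4318)) (.nr 559 262145 (.nx 557 41287
  (.lg 0 false 3 79 79 16 0 2520) (.nr 558 257 (.lg 0 true 1 37 37 16 0 168) .out)) .out))) .out)
  .out) (.nx 571 82572 (.nr 570 524289 (.nr 563 98 .s1 (.nx 566 6503 (.nx 564 647 (.l1 (.ls 73 43
  4274)) (.nr 565 262145 (.lg 0 false 1 79 79 29 0 1680) .out)) (.nr 569 65537 (.nx 567 41287 (.lg
  1 true 1 73 73 29 12109 1680) (.nr 568 257 (.lg 0 true 1 43 47 29 0 1680) .out)) .out))) .out)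
  .out))))) (.na 615 128 (.na 590 119 (.na 582 113 (.nx 581 82572 (.nr 580 524289 (.nr 573 106 .s1
  (.nx 578 41287 (.nx 574 647 (.l1 (.ls 71 41 3952)) (.nr 577 262145 (.lg 0 false 3 83 83 23 0
  1008) .out)) (.nr 579 257 (.lg 0 true 1 37 37 19 0 336) .out))) .out) .out) (.nx 589 82572 (.nr
  588 524289 (.nr 583 113 .s1 (.nx 584 647 (.l1 (.ls 61 31 3707)) (.nr 587 262145 (.nx 585 6503
  (.lg 0 true 1 71 71 16 0 840) (.nr 586 65537 (.lg 1 false 1 71 71 16 17903 840) .out)) .out)))
  .out) .out)) (.na 598 122 (.nx 597 82572 (.nr 596 524289 (.nr 591 119 .s1 (.nx 592 647 (.l1 (.ls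
  67 41 3520)) (.nr 595 262145 (.lg 0 false 3 83 83 19 0 2520) .out))) .out) .out) (.na 607 125
  (.nx 606 82572 (.nr 605 524289 (.nr 599 122 .s1 (.nx 603 41287 (.nx 600 647 (.l1 (.ls 59 41
  3434)) (.nr 602 262145 (.lg 0 false 2 83 83 19 0 1680) .out)) (.nr 604 257 (.lg 0 true 1 31 31 19
  0 1680) .out))) .out) .out) (.nx 614 82572 (.nr 613 524289 (.nr 608 125 .s1 (.nx 611 6503 (.nx
  609 647 (.l1 (.ls 61 37 3351)) (.nr 610 262145 (.lg 0 true 1 67 67 16 0 840) .out)) (.nr 612
  65537 (.lg 1 false 1 67 67 16 16185 840) .out))) .out) .out)))) (.na 623 137 (.na 616 130 .ne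
  (.na 622 131 (.nx 621 41287 (.nr 620 1048577 (.nr 617 130 .s1 (.nx 618 647 (.l1 (.ls 79 47 3223))
  (.nr 619 131073 (.lg 0 true 1 83 83 29 0 21840) .out))) .out) .out) (.lg 0 false 1 0 0 16 0 24)))
  (.na 629 139 (.nx 628 41287 (.nr 627 1048577 (.nr 624 137 .s1 (.nx 625 647 (.l1 (.ls 67 31 3058))
  (.nr 626 131073 (.lg 0 true 1 73 73 16 0 168) .out))) .out) .out) (.na 630 145 (.lg 0 false 1 0 0
  16 0 24) (.nx 635 41287 (.nr 634 1048577 (.nr 631 145 .s1 (.nx 632 647 (.l1 (.ls 73 41 2889))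
  (.nr 633 131073 (.lg 0 true 1 83 83 17 0 840) .out))) .out) .out))))))) (.na 737 223 (.na 681 181
  (.na 656 167 (.na 648 151 (.na 642 149 (.nx 641 41287 (.nr 640 1048577 (.nr 637 146 .s1 (.nx 638
  647 (.l1 (.ls 71 41 2870)) (.nr 639 131073 (.lg 0 true 1 83 83 19 0 336) .out))) .out) .out) (.nx
  647 41287 (.nr 646 1048577 (.nr 643 149 .s1 (.nx 644 647 (.l1 (.ls 61 31 2812)) (.nr 645 131073
  (.lg 0 true 1 73 73 16 0 840) .out))) .out) .out)) (.na 649 157 (.lg 0 false 1 0 0 16 0 24) (.na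
  655 163 (.nx 654 41287 (.nr 653 1048577 (.nr 650 157 .s1 (.nx 651 647 (.l1 (.ls 67 31 2669)) (.nr
  652 131073 (.lg 0 true 1 73 73 16 0 840) .out))) .out) .out) (.lg 0 false 1 0 0 16 0 24)))) (.na
  663 170 (.na 657 169 (.lg 0 false 1 0 0 16 0 24) (.nx 662 41287 (.nr 661 1048577 (.nr 658 169 .s1
  (.nx 659 647 (.l1 (.ls 67 37 2479)) (.nr 660 131073 (.lg 0 true 1 73 73 17 0 2184) .out))) .out)
  .out)) (.na 669 175 (.nx 668 41287 (.nr 667 1048577 (.nr 664 170 .s1 (.nx 665 647 (.l1 (.ls 73 43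
  2465)) (.nr 666 131073 (.lg 0 true 1 83 83 31 0 1680) .out))) .out) .out) (.na 675 178 (.nx 674
  41287 (.nr 673 1048577 (.nr 670 175 .s1 (.nx 671 647 (.l1 (.ls 61 37 2395)) (.nr 672 131073 (.lg
  0 true 1 71 71 19 0 840) .out))) .out) .out) (.nx 680 41287 (.nr 679 1048577 (.nr 676 178 .s1
  (.nx 677 647 (.l1 (.ls 67 41 2354)) (.nr 678 131073 (.lg 0 true 1 73 73 19 0 336) .out))) .out)
  .out))))) (.na 706 194 (.na 693 185 (.na 687 182 (.nx 686 41287 (.nr 685 1048577 (.nr 682 181 .s1
  (.nx 683 647 (.l1 (.ls 61 31 2315)) (.nr 684 131073 (.lg 0 true 1 71 71 16 0 168) .out))) .out)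
  .out) (.nx 692 41287 (.nr 691 1048577 (.nr 688 182 .s1 (.nx 689 647 (.l1 (.ls 71 43 2303)) (.nr
  690 131073 (.lg 0 true 1 79 79 29 0 65520) .out))) .out) .out)) (.na 699 191 (.nx 698 41287 (.nr
  697 1048577 (.nr 694 185 .s1 (.nx 695 647 (.l1 (.ls 73 31 2265)) (.nr 696 131073 (.lg 0 false 1
  79 79 19 0 840) .out))) .out) .out) (.na 700 193 (.lg 0 false 1 0 0 16 0 24) (.nx 705 41287 (.nr
  704 1048577 (.nr 701 193 .s1 (.nx 702 647 (.l1 (.ls 61 29 2171)) (.nr 703 131073 (.lg 0 true 1 71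
  71 16 0 840) .out))) .out) .out)))) (.na 719 203 (.na 712 199 (.nx 711 41287 (.nr 710 1048577
  (.nr 707 194 .s1 (.nx 708 647 (.l1 (.ls 67 41 2160)) (.nr 709 131073 (.lg 0 true 1 73 73 19 0
  1680) .out))) .out) .out) (.na 713 202 (.lg 0 false 1 0 0 16 0 24) (.nx 718 41287 (.nr 717
  1048577 (.nr 714 202 .s1 (.nx 715 647 (.l1 (.ls 67 37 2075)) (.nr 716 131073 (.lg 0 true 1 71 71
  23 0 336) .out))) .out) .out))) (.na 725 218 (.nx 724 41287 (.nr 723 1048577 (.nr 720 203 .s1
  (.nx 721 647 (.l1 (.ls 67 37 2065)) (.nr 722 131073 (.lg 0 true 1 71 71 17 0 168) .out))) .out)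
  .out) (.na 731 221 (.nx 730 41287 (.nr 729 1048577 (.nr 726 218 .s1 (.nx 727 647 (.l1 (.ls 67 37
  1923)) (.nr 728 131073 (.lg 0 true 1 71 71 23 0 336) .out))) .out) .out) (.nx 736 41287 (.nr 735
  1048577 (.nr 732 221 .s1 (.nx 733 647 (.l1 (.ls 71 37 1897)) (.nr 734 131073 (.lg 0 false 1 73 73
  23 0 2184) .out))) .out) .out)))))) (.na 1085 512 (.na 757 239 (.na 744 227 (.na 738 226 (.lg 0
  false 1 0 0 16 0 24) (.nx 743 41287 (.nr 742 1048577 (.nr 739 226 .s1 (.nx 740 647 (.l1 (.ls 61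
  37 1855)) (.nr 741 131073 (.lg 0 true 1 71 71 23 0 336) .out))) .out) .out)) (.na 745 233 (.lg 0
  false 1 0 0 16 0 24) (.na 751 238 (.nx 750 41287 (.nr 749 1048577 (.nr 746 233 .s1 (.nx 747 647
  (.l1 (.ls 61 29 1799)) (.nr 748 131073 (.lg 0 true 1 67 67 17 0 168) .out))) .out) .out) (.nx 756
  41287 (.nr 755 1048577 (.nr 752 238 .s1 (.nx 753 647 (.l1 (.ls 67 43 1761)) (.nr 754 131073 (.lg
  0 true 1 73 73 31 0 1680) .out))) .out) .out)))) (.na 770 250 (.na 758 241 (.lg 0 false 1 0 0 16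
  0 24) (.na 764 245 (.nx 763 41287 (.nr 762 1048577 (.nr 759 241 .s1 (.nx 760 647 (.l1 (.ls 61 29
  1739)) (.nr 761 131073 (.lg 0 true 1 67 67 17 0 168) .out))) .out) .out) (.nx 769 41287 (.nr 768
  1048577 (.nr 765 245 .s1 (.nx 766 647 (.l1 (.ls 73 37 1711)) (.nr 767 131073 (.lg 0 false 1 79 83
  29 0 2520) .out))) .out) .out))) (.na 776 256 (.nx 775 41287 (.nr 774 1048577 (.nr 771 250 .s1
  (.nx 772 647 (.l1 (.ls 67 41 1677)) (.nr 773 131073 (.lg 0 true 1 73 73 29 0 5040) .out))) .out)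
  .out) (.na 777 257 .ne (.nx 1084 41287 (.nr 1083 262145 (.nr 778 257 .s1 (.nx 827 49 (.nr 826
  2548 (.lx (.lp 37 17 129)) (.l1 .sk)) (.nx 828 50 (.l1 .sk) (.la (.lg 0 false 1 71 71 23 0)))))
  .out) .out))))) (.na 2389 2897 (.na 1611 1024 (.na 1351 725 (.nx 1350 41287 (.nr 1349 262145 (.nr
  1086 512 .s1 (.nx 1136 50 (.nx 1135 49 (.nr 1134 3608 (.lx (.lp 43 17 182)) (.l1 .sk)) (.l1 .sk))
  (.la (.lg 0 false 1 67 67 29 0)))) .out) .out) (.nx 1610 257 (.nr 1609 65537 (.nr 1352 725 .s1
  (.nx 1454 103 (.lx (.lp 61 19 257)) (.nr 1608 16385 (.lx (.lp 41 23 257)) .out))) .out) .out))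
  (.na 1871 1449 (.nx 1870 257 (.nr 1869 65537 (.nr 1612 1024 .s1 (.nx 1740 129 (.lx (.lp 47 19
  363)) (.nr 1868 8193 (.lx (.lp 41 23 363)) .out))) .out) .out) (.na 2130 2048 (.nx 2129 257 (.nr
  2128 16385 (.nr 1872 1449 .s1 (.lx (.lp 37 29 513))) .out) .out) (.nx 2388 257 (.nr 2387 32769
  (.nr 2131 2048 .s1 (.lx (.lp 41 29 725))) .out) .out)))) (.na 3012 8192 (.na 2648 4096 (.nx 2647
  257 (.nr 2646 32769 (.nr 2390 2897 .s1 (.lx (.lp 47 29 1025))) .out) .out) (.na 2907 5793 (.nx
  2906 257 (.nr 2905 32769 (.nr 2649 4096 .s1 (.lx (.lp 37 31 1449))) .out) .out) (.nx 3011 103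
  (.nr 3010 32769 (.nr 2908 5793 .s1 (.lx (.lp 16 29 2049))) .out) .out))) (.na 3117 16384 (.nx
  3116 103 (.nr 3115 32769 (.nr 3013 8192 .s1 (.lx (.lp 16 0 4097))) .out) .out) (.na 3119 32769
  (.nx 3118 103 (.l1 .sk) .out) .out)))))))

theorem c99 :
    OkQ ckI L9 208 1 9 0 34359738368 1 1099511627776 ∧
    OkQ ckI L10 240 4 16 0 34359738368 1 1099511627776 ∧
    OkQ ckI L5 49 1 1099511627776 0 34359738368 1 1099511627776 := by
  refine ⟨?_, ?_, ?_⟩
  · refine fin 624 898 T99_0 ?_
    refine jn 7 (by decide +kernel) ?_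
    refine jn 12 (by decide +kernel) ?_
    refine jn 16 (by decide +kernel) ?_
    refine jn 21 (by decide +kernel) ?_
    refine jn 26 (by decide +kernel) ?_
    refine jn 30 (by decide +kernel) ?_
    refine jn 35 (by decide +kernel) ?_
    refine jn 38 (by decide +kernel) ?_
    refine jn 43 (by decide +kernel) ?_
    refine jn 46 (by decide +kernel) ?_
    refine jn 50 (by decide +kernel) ?_
    refine jn 55 (by decide +kernel) ?_
    refine jn 58 (by decide +kernel) ?_
    refine jn 68 (by decide +kernel) ?_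
    refine jn 78 (by decide +kernel) ?_
    refine jn 89 (by decide +kernel) ?_
    refine jn 101 (by decide +kernel) ?_
    refine jn 112 (by decide +kernel) ?_
    refine jn 126 (by decide +kernel) ?_
    refine jn 149 (by decide +kernel) ?_
    refine jn 168 (by decide +kernel) ?_
    refine jn 190 (by decide +kernel) ?_
    refine jn 201 (by decide +kernel) ?_
    refine jn 222 (by decide +kernel) ?_
    refine jn 236 (by decide +kernel) ?_
    refine jn 257 (by decide +kernel) ?_
    refine jn 276 (by decide +kernel) ?_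
    refine jn 293 (by decide +kernel) ?_
    refine jn 321 (by decide +kernel) ?_
    refine jn 331 (by decide +kernel) ?_
    refine jn 362 (by decide +kernel) ?_
    refine jn 384 (by decide +kernel) ?_
    refine jn 386 (by decide +kernel) ?_
    refine jn 388 (by decide +kernel) ?_
    refine jn 389 (by decide +kernel) ?_
    refine jn 391 (by decide +kernel) ?_
    refine jn 393 (by decide +kernel) ?_
    refine jn 394 (by decide +kernel) ?_
    refine jn 395 (by decide +kernel) ?_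
    refine jn 396 (by decide +kernel) ?_
    refine jn 398 (by decide +kernel) ?_
    refine jn 399 (by decide +kernel) ?_
    refine jn 400 (by decide +kernel) ?_
    refine jn 401 (by decide +kernel) ?_
    refine jn 411 (by decide +kernel) ?_
    refine jn 420 (by decide +kernel) ?_
    refine jn 427 (by decide +kernel) ?_
    refine jn 430 (by decide +kernel) ?_
    refine jn 433 (by decide +kernel) ?_
    refine jn 436 (by decide +kernel) ?_
    refine jn 439 (by decide +kernel) ?_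
    refine jn 442 (by decide +kernel) ?_
    refine jn 448 (by decide +kernel) ?_
    refine jn 453 (by decide +kernel) ?_
    refine jn 468 (by decide +kernel) ?_
    refine jn 483 (by decide +kernel) ?_
    refine jn 498 (by decide +kernel) ?_
    refine jn 508 (by decide +kernel) ?_
    refine jn 514 (by decide +kernel) ?_
    refine jn 527 (by decide +kernel) ?_
    refine jn 534 (by decide +kernel) ?_
    refine jn 544 (by decide +kernel) ?_
    refine jn 552 (by decide +kernel) ?_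
    refine jn 578 (by decide +kernel) ?_
    refine jn 608 (by decide +kernel) ?_
    refine jn 621 (by decide +kernel) ?_
    refine jn 623 (by decide +kernel) ?_
    refine jn 625 (by decide +kernel) ?_
    refine jn 628 (by decide +kernel) ?_
    refine jn 630 (by decide +kernel) ?_
    refine jn 632 (by decide +kernel) ?_
    refine jn 642 (by decide +kernel) ?_
    refine jn 646 (by decide +kernel) ?_
    refine jn 650 (by decide +kernel) ?_
    refine jn 656 (by decide +kernel) ?_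
    refine jn 666 (by decide +kernel) ?_
    refine jn 677 (by decide +kernel) ?_
    refine jn 679 (by decide +kernel) ?_
    refine jn 690 (by decide +kernel) ?_
    refine jn 695 (by decide +kernel) ?_
    refine jn 704 (by decide +kernel) ?_
    refine jn 715 (by decide +kernel) ?_
    refine jn 750 (by decide +kernel) ?_
    refine jn 757 (by decide +kernel) ?_
    refine jn 758 (by decide +kernel) ?_
    refine jn 761 (by decide +kernel) ?_
    refine jn 764 (by decide +kernel) ?_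
    refine jn 767 (by decide +kernel) ?_
    refine jn 769 (by decide +kernel) ?_
    refine jn 779 (by decide +kernel) ?_
    refine jn 783 (by decide +kernel) ?_
    refine jn 787 (by decide +kernel) ?_
    refine jn 793 (by decide +kernel) ?_
    refine jn 804 (by decide +kernel) ?_
    refine jn 816 (by decide +kernel) ?_
    refine jn 827 (by decide +kernel) ?_
    refine jn 838 (by decide +kernel) ?_
    refine jn 843 (by decide +kernel) ?_
    refine jn 850 (by decide +kernel) ?_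
    refine jn 861 (by decide +kernel) ?_
    refine jn 895 (by decide +kernel) ?_
    exact je (by decide +kernel)
  · refine fin 240 1091 T99_1 ?_
    refine jn 3 (by decide +kernel) ?_
    refine jn 6 (by decide +kernel) ?_
    refine jn 9 (by decide +kernel) ?_
    refine jn 11 (by decide +kernel) ?_
    refine jn 14 (by decide +kernel) ?_
    refine jn 16 (by decide +kernel) ?_
    refine jn 19 (by decide +kernel) ?_
    refine jn 22 (by decide +kernel) ?_
    refine jn 25 (by decide +kernel) ?_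
    refine jn 28 (by decide +kernel) ?_
    refine jn 30 (by decide +kernel) ?_
    refine jn 33 (by decide +kernel) ?_
    refine jn 35 (by decide +kernel) ?_
    refine jn 37 (by decide +kernel) ?_
    refine jn 41 (by decide +kernel) ?_
    refine jn 42 (by decide +kernel) ?_
    refine jn 44 (by decide +kernel) ?_
    refine jn 47 (by decide +kernel) ?_
    refine jn 49 (by decide +kernel) ?_
    refine jn 52 (by decide +kernel) ?_
    refine jn 55 (by decide +kernel) ?_
    refine jn 58 (by decide +kernel) ?_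
    refine jn 61 (by decide +kernel) ?_
    refine jn 64 (by decide +kernel) ?_
    refine jn 67 (by decide +kernel) ?_
    refine jn 70 (by decide +kernel) ?_
    refine jn 73 (by decide +kernel) ?_
    refine jn 76 (by decide +kernel) ?_
    refine jn 79 (by decide +kernel) ?_
    refine jn 91 (by decide +kernel) ?_
    refine jn 95 (by decide +kernel) ?_
    refine jn 98 (by decide +kernel) ?_
    refine jn 101 (by decide +kernel) ?_
    refine jn 103 (by decide +kernel) ?_
    refine jn 110 (by decide +kernel) ?_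
    refine jn 115 (by decide +kernel) ?_
    refine jn 119 (by decide +kernel) ?_
    refine jn 124 (by decide +kernel) ?_
    refine jn 128 (by decide +kernel) ?_
    refine jn 132 (by decide +kernel) ?_
    refine jn 135 (by decide +kernel) ?_
    refine jn 139 (by decide +kernel) ?_
    refine jn 143 (by decide +kernel) ?_
    refine jn 146 (by decide +kernel) ?_
    refine jn 150 (by decide +kernel) ?_
    refine jn 154 (by decide +kernel) ?_
    refine jn 162 (by decide +kernel) ?_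
    refine jn 167 (by decide +kernel) ?_
    refine jn 178 (by decide +kernel) ?_
    refine jn 186 (by decide +kernel) ?_
    refine jn 193 (by decide +kernel) ?_
    refine jn 194 (by decide +kernel) ?_
    refine jn 199 (by decide +kernel) ?_
    refine jn 246 (by decide +kernel) ?_
    refine jn 257 (by decide +kernel) ?_
    refine jn 275 (by decide +kernel) ?_
    refine jn 286 (by decide +kernel) ?_
    refine jn 304 (by decide +kernel) ?_
    refine jn 318 (by decide +kernel) ?_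
    refine jn 344 (by decide +kernel) ?_
    refine jn 372 (by decide +kernel) ?_
    refine jn 398 (by decide +kernel) ?_
    refine jn 424 (by decide +kernel) ?_
    refine jn 479 (by decide +kernel) ?_
    refine jn 492 (by decide +kernel) ?_
    refine jn 510 (by decide +kernel) ?_
    refine jn 520 (by decide +kernel) ?_
    refine jn 535 (by decide +kernel) ?_
    refine jn 549 (by decide +kernel) ?_
    refine jn 578 (by decide +kernel) ?_
    refine jn 599 (by decide +kernel) ?_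
    refine jn 618 (by decide +kernel) ?_
    refine jn 661 (by decide +kernel) ?_
    refine jn 682 (by decide +kernel) ?_
    refine jn 687 (by decide +kernel) ?_
    refine jn 689 (by decide +kernel) ?_
    refine jn 693 (by decide +kernel) ?_
    refine jn 695 (by decide +kernel) ?_
    refine jn 697 (by decide +kernel) ?_
    refine jn 707 (by decide +kernel) ?_
    refine jn 711 (by decide +kernel) ?_
    refine jn 716 (by decide +kernel) ?_
    refine jn 718 (by decide +kernel) ?_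
    refine jn 732 (by decide +kernel) ?_
    refine jn 740 (by decide +kernel) ?_
    refine jn 754 (by decide +kernel) ?_
    refine jn 761 (by decide +kernel) ?_
    refine jn 768 (by decide +kernel) ?_
    refine jn 775 (by decide +kernel) ?_
    refine jn 783 (by decide +kernel) ?_
    refine jn 799 (by decide +kernel) ?_
    refine jn 807 (by decide +kernel) ?_
    refine jn 843 (by decide +kernel) ?_
    refine jn 852 (by decide +kernel) ?_
    refine jn 865 (by decide +kernel) ?_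
    refine jn 885 (by decide +kernel) ?_
    refine jn 903 (by decide +kernel) ?_
    refine jn 921 (by decide +kernel) ?_
    refine jn 938 (by decide +kernel) ?_
    refine jn 942 (by decide +kernel) ?_
    refine jn 946 (by decide +kernel) ?_
    refine jn 951 (by decide +kernel) ?_
    refine jn 959 (by decide +kernel) ?_
    refine jn 965 (by decide +kernel) ?_
    refine jn 970 (by decide +kernel) ?_
    refine jn 983 (by decide +kernel) ?_
    refine jn 997 (by decide +kernel) ?_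
    refine jn 1010 (by decide +kernel) ?_
    refine jn 1023 (by decide +kernel) ?_
    refine jn 1045 (by decide +kernel) ?_
    refine jn 1067 (by decide +kernel) ?_
    refine jn 1086 (by decide +kernel) ?_
    exact je (by decide +kernel)
  · refine fin 168 3120 T99_2 ?_
    refine jn 3 (by decide +kernel) ?_
    refine jn 4 (by decide +kernel) ?_
    refine jn 5 (by decide +kernel) ?_
    refine jn 6 (by decide +kernel) ?_
    refine jn 7 (by decide +kernel) ?_
    refine jn 8 (by decide +kernel) ?_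
    refine jn 9 (by decide +kernel) ?_
    refine jn 10 (by decide +kernel) ?_
    refine jn 11 (by decide +kernel) ?_
    refine jn 12 (by decide +kernel) ?_
    refine jn 13 (by decide +kernel) ?_
    refine jn 14 (by decide +kernel) ?_
    refine jn 16 (by decide +kernel) ?_
    refine jn 19 (by decide +kernel) ?_
    refine jn 21 (by decide +kernel) ?_
    refine jn 24 (by decide +kernel) ?_
    refine jn 26 (by decide +kernel) ?_
    refine jn 29 (by decide +kernel) ?_
    refine jn 31 (by decide +kernel) ?_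
    refine jn 33 (by decide +kernel) ?_
    refine jn 36 (by decide +kernel) ?_
    refine jn 40 (by decide +kernel) ?_
    refine jn 51 (by decide +kernel) ?_
    refine jn 58 (by decide +kernel) ?_
    refine jn 68 (by decide +kernel) ?_
    refine jn 79 (by decide +kernel) ?_
    refine jn 84 (by decide +kernel) ?_
    refine jn 142 (by decide +kernel) ?_
    refine jn 149 (by decide +kernel) ?_
    refine jn 151 (by decide +kernel) ?_
    refine jn 152 (by decide +kernel) ?_
    refine jn 153 (by decide +kernel) ?_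
    refine jn 155 (by decide +kernel) ?_
    refine jn 156 (by decide +kernel) ?_
    refine jn 157 (by decide +kernel) ?_
    refine jn 159 (by decide +kernel) ?_
    refine jn 160 (by decide +kernel) ?_
    refine jn 163 (by decide +kernel) ?_
    refine jn 166 (by decide +kernel) ?_
    refine jn 169 (by decide +kernel) ?_
    refine jn 171 (by decide +kernel) ?_
    refine jn 182 (by decide +kernel) ?_
    refine jn 205 (by decide +kernel) ?_
    refine jn 216 (by decide +kernel) ?_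
    refine jn 228 (by decide +kernel) ?_
    refine jn 243 (by decide +kernel) ?_
    refine jn 248 (by decide +kernel) ?_
    refine jn 256 (by decide +kernel) ?_
    refine jn 260 (by decide +kernel) ?_
    refine jn 261 (by decide +kernel) ?_
    refine jn 262 (by decide +kernel) ?_
    refine jn 263 (by decide +kernel) ?_
    refine jn 264 (by decide +kernel) ?_
    refine jn 265 (by decide +kernel) ?_
    refine jn 266 (by decide +kernel) ?_
    refine jn 267 (by decide +kernel) ?_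
    refine jn 268 (by decide +kernel) ?_
    refine jn 269 (by decide +kernel) ?_
    refine jn 270 (by decide +kernel) ?_
    refine jn 271 (by decide +kernel) ?_
    refine jn 272 (by decide +kernel) ?_
    refine jn 273 (by decide +kernel) ?_
    refine jn 286 (by decide +kernel) ?_
    refine jn 287 (by decide +kernel) ?_
    refine jn 289 (by decide +kernel) ?_
    refine jn 291 (by decide +kernel) ?_
    refine jn 293 (by decide +kernel) ?_
    refine jn 295 (by decide +kernel) ?_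
    refine jn 297 (by decide +kernel) ?_
    refine jn 299 (by decide +kernel) ?_
    refine jn 308 (by decide +kernel) ?_
    refine jn 312 (by decide +kernel) ?_
    refine jn 320 (by decide +kernel) ?_
    refine jn 328 (by decide +kernel) ?_
    refine jn 331 (by decide +kernel) ?_
    refine jn 333 (by decide +kernel) ?_
    refine jn 336 (by decide +kernel) ?_
    refine jn 349 (by decide +kernel) ?_
    refine jn 350 (by decide +kernel) ?_
    refine jn 351 (by decide +kernel) ?_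
    refine jn 352 (by decide +kernel) ?_
    refine jn 353 (by decide +kernel) ?_
    refine jn 360 (by decide +kernel) ?_
    refine jn 370 (by decide +kernel) ?_
    refine jn 373 (by decide +kernel) ?_
    refine jn 382 (by decide +kernel) ?_
    refine jn 385 (by decide +kernel) ?_
    refine jn 389 (by decide +kernel) ?_
    refine jn 401 (by decide +kernel) ?_
    refine jn 411 (by decide +kernel) ?_
    refine jn 414 (by decide +kernel) ?_
    refine jn 424 (by decide +kernel) ?_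
    refine jn 428 (by decide +kernel) ?_
    refine jn 435 (by decide +kernel) ?_
    refine jn 436 (by decide +kernel) ?_
    refine jn 438 (by decide +kernel) ?_
    refine jn 446 (by decide +kernel) ?_
    refine jn 450 (by decide +kernel) ?_
    refine jn 461 (by decide +kernel) ?_
    refine jn 471 (by decide +kernel) ?_
    refine jn 482 (by decide +kernel) ?_
    refine jn 488 (by decide +kernel) ?_
    refine jn 489 (by decide +kernel) ?_
    refine jn 491 (by decide +kernel) ?_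
    refine jn 503 (by decide +kernel) ?_
    refine jn 511 (by decide +kernel) ?_
    refine jn 520 (by decide +kernel) ?_
    refine jn 528 (by decide +kernel) ?_
    refine jn 535 (by decide +kernel) ?_
    refine jn 543 (by decide +kernel) ?_
    refine jn 553 (by decide +kernel) ?_
    refine jn 563 (by decide +kernel) ?_
    refine jn 564 (by decide +kernel) ?_
    refine jn 565 (by decide +kernel) ?_
    refine jn 567 (by decide +kernel) ?_
    refine jn 577 (by decide +kernel) ?_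
    refine jn 591 (by decide +kernel) ?_
    refine jn 602 (by decide +kernel) ?_
    refine jn 617 (by decide +kernel) ?_
    refine jn 624 (by decide +kernel) ?_
    refine jn 633 (by decide +kernel) ?_
    refine jn 649 (by decide +kernel) ?_
    refine jn 664 (by decide +kernel) ?_
    refine jn 672 (by decide +kernel) ?_
    refine jn 690 (by decide +kernel) ?_
    refine jn 703 (by decide +kernel) ?_
    refine jn 722 (by decide +kernel) ?_
    refine jn 734 (by decide +kernel) ?_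
    refine jn 754 (by decide +kernel) ?_
    refine jn 765 (by decide +kernel) ?_
    refine jn 766 (by decide +kernel) ?_
    refine jn 767 (by decide +kernel) ?_
    refine jn 830 (by decide +kernel) ?_
    refine jn 845 (by decide +kernel) ?_
    refine jn 858 (by decide +kernel) ?_
    refine jn 861 (by decide +kernel) ?_
    refine jn 876 (by decide +kernel) ?_
    refine jn 885 (by decide +kernel) ?_
    refine jn 909 (by decide +kernel) ?_
    refine jn 921 (by decide +kernel) ?_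
    refine jn 941 (by decide +kernel) ?_
    refine jn 948 (by decide +kernel) ?_
    refine jn 972 (by decide +kernel) ?_
    refine jn 981 (by decide +kernel) ?_
    refine jn 998 (by decide +kernel) ?_
    refine jn 1016 (by decide +kernel) ?_
    refine jn 1028 (by decide +kernel) ?_
    refine jn 1052 (by decide +kernel) ?_
    refine jn 1061 (by decide +kernel) ?_
    refine jn 1062 (by decide +kernel) ?_
    refine jn 1086 (by decide +kernel) ?_
    refine jn 1154 (by decide +kernel) ?_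
    refine jn 1162 (by decide +kernel) ?_
    refine jn 1178 (by decide +kernel) ?_
    refine jn 1193 (by decide +kernel) ?_
    refine jn 1210 (by decide +kernel) ?_
    refine jn 1234 (by decide +kernel) ?_
    refine jn 1249 (by decide +kernel) ?_
    refine jn 1258 (by decide +kernel) ?_
    refine jn 1261 (by decide +kernel) ?_
    refine jn 1262 (by decide +kernel) ?_
    refine jn 1297 (by decide +kernel) ?_
    refine jn 1313 (by decide +kernel) ?_
    refine jn 1325 (by decide +kernel) ?_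
    refine jn 1454 (by decide +kernel) ?_
    refine jn 1612 (by decide +kernel) ?_
    refine jn 1872 (by decide +kernel) ?_
    refine jn 2321 (by decide +kernel) ?_
    refine jn 2649 (by decide +kernel) ?_
    exact je (by decide +kernel)

end Pool.Agent.MP_2339ce_nt.NR
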