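import Pool.Agent.MP_2339ce_nt.Q2.NC.C1
import Pool.Agent.MP_2339ce_nt.Q2.NC.C2
import Pool.Agent.MP_2339ce_nt.Q2.NC.C4
import Pool.Agent.MP_2339ce_nt.Q2.NC.C5
import Pool.Agent.MP_2339ce_nt.Q2.NC.C8
import Pool.Agent.MP_2339ce_nt.Q2.NC.C9
import Pool.Agent.MP_2339ce_nt.Q2.NC.C10
import Pool.Agent.MP_2339ce_nt.Q2.NC.C13
import Pool.Agent.MP_2339ce_nt.Q2.NC.C15
import Pool.Agent.MP_2339ce_nt.Q2.NC.C17
import Pool.Agent.MP_2339ce_nt.Q2.NC.C18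
import Pool.Agent.MP_2339ce_nt.Q2.NC.C19
import Pool.Agent.MP_2339ce_nt.Q2.NC.C21
import Pool.Agent.MP_2339ce_nt.Q2.NC.C23
import Pool.Agent.MP_2339ce_nt.Q2.NC.C24
import Pool.Agent.MP_2339ce_nt.Q2.NC.C25
import Pool.Agent.MP_2339ce_nt.Q2.NC.C27
import Pool.Agent.MP_2339ce_nt.Q2.NC.C28
import Pool.Agent.MP_2339ce_nt.Q2.NC.C29
import Pool.Agent.MP_2339ce_nt.Q2.NC.C31
import Pool.Agent.MP_2339ce_nt.Q2.NC.C32
import Pool.Agent.MP_2339ce_nt.Q2.NC.C34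
import Pool.Agent.MP_2339ce_nt.Q2.NC.C35
import Pool.Agent.MP_2339ce_nt.Q2.NC.C37
import Pool.Agent.MP_2339ce_nt.Q2.NC.C38
import Pool.Agent.MP_2339ce_nt.Q2.NC.C40
import Pool.Agent.MP_2339ce_nt.Q2.NC.C44
import Pool.Agent.MP_2339ce_nt.Q2.NC.C45
import Pool.Agent.MP_2339ce_nt.Q2.NC.C46
import Pool.Agent.MP_2339ce_nt.Q2.NC.C49
import Pool.Agent.MP_2339ce_nt.Q2.NC.C50
import Pool.Agent.MP_2339ce_nt.Q2.NC.C51
import Pool.Agent.MP_2339ce_nt.Q2.NC.C53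
import Pool.Agent.MP_2339ce_nt.Q2.NC.C54
import Pool.Agent.MP_2339ce_nt.Q2.NC.C55
import Pool.Agent.MP_2339ce_nt.Q2.NC.C56
import Pool.Agent.MP_2339ce_nt.Q2.NC.C57
import Pool.Agent.MP_2339ce_nt.Q2.NC.C58
import Pool.Agent.MP_2339ce_nt.Q2.NC.C59
import Pool.Agent.MP_2339ce_nt.Q2.NC.C60
import Pool.Agent.MP_2339ce_nt.Q2.NC.C61
import Pool.Agent.MP_2339ce_nt.Q2.NC.C62
import Pool.Agent.MP_2339ce_nt.Q2.NC.C63
import Pool.Agent.MP_2339ce_nt.Q2.NC.C65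
import Pool.Agent.MP_2339ce_nt.Q2.NC.C67
import Pool.Agent.MP_2339ce_nt.Q2.NC.C71
import Pool.Agent.MP_2339ce_nt.Q2.NC.C72
import Pool.Agent.MP_2339ce_nt.Q2.NC.C74
import Pool.Agent.MP_2339ce_nt.Q2.NC.C77
import Pool.Agent.MP_2339ce_nt.Q2.NC.C78
import Pool.Agent.MP_2339ce_nt.Q2.NC.C81
import Pool.Agent.MP_2339ce_nt.Q2.NC.C82
import Pool.Agent.MP_2339ce_nt.Q2.NC.C84
import Pool.Agent.MP_2339ce_nt.Q2.NC.C85
import Pool.Agent.MP_2339ce_nt.Q2.NC.C86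
import Pool.Agent.MP_2339ce_nt.Q2.NC.C90
import Pool.Agent.MP_2339ce_nt.Q2.NC.C91
import Pool.Agent.MP_2339ce_nt.Q2.NC.C95
import Pool.Agent.MP_2339ce_nt.Q2.NC.C99
import Pool.Agent.MP_2339ce_nt.Q2.NC.C100
import Pool.Agent.MP_2339ce_nt.Q2.NC.C101
import Pool.Agent.MP_2339ce_nt.Q2.NC.C103
import Pool.Agent.MP_2339ce_nt.Q2.NC.C105
import Pool.Agent.MP_2339ce_nt.Q2.NC.C111
import Pool.Agent.MP_2339ce_nt.Q2.NC.C113
import Pool.Agent.MP_2339ce_nt.Q2.NC.C114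
import Pool.Agent.MP_2339ce_nt.Q2.NC.C116
import Pool.Agent.MP_2339ce_nt.Q2.NC.C117
import Pool.Agent.MP_2339ce_nt.Q2.NC.C119
import Pool.Agent.MP_2339ce_nt.Q2.NC.C122
import Pool.Agent.MP_2339ce_nt.Q2.NC.C125
import Pool.Agent.MP_2339ce_nt.Q2.NC.C126
import Pool.Agent.MP_2339ce_nt.Q2.NC.C128
import Pool.Agent.MP_2339ce_nt.Q2.NC.C129
import Pool.Agent.MP_2339ce_nt.Q2.NC.C134
import Pool.Agent.MP_2339ce_nt.Q2.NC.C136
import Pool.Agent.MP_2339ce_nt.Q2.NC.C140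

/-! Block NR: the runs for `220 ≤ N ≤ 254`. -/

set_option autoImplicit false
set_option maxRecDepth 100000

noncomputable section

namespace Pool.Agent.MP_2339ce_nt.NR

open Q2.Top

theorem q220 : OkQ ckI L10 220 1 1099511627776 0 34359738368 1 1099511627776 :=
  qa 5 c1.1 (qa 17 c17.2 (qa 363 c27.1 (c49.2.1)))

theorem q221 : OkQ ckI L10 221 1 1099511627776 0 34359738368 1 1099511627776 :=
  qa 3 c82.2 (qa 15 c105.1 (qa 114 c90.2 (c46.2.1)))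

theorem q223 : OkQ ckI L10 223 1 1099511627776 0 34359738368 1 1099511627776 :=
  qa 4 c119.1 (qa 9 c44.2.1 (qa 212 c78.1 (c57.1)))

theorem q224 : OkQ ckI L10 224 1 1099511627776 0 34359738368 1 1099511627776 :=
  qa 3 c77.2.1 (qa 5 c10.2 (qa 13 c15.1 (qa 23 c21.2 (qa 90 c21.1 (qa 512 c28.2.1 (qa 11586 c19.1 (c62.2.2)))))))

theorem q225 : OkQ ckI L10 225 1 1099511627776 0 34359738368 1 1099511627776 :=
  qa 10 c17.1 (qa 113 c32.2 (c67.1))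

theorem q227 : OkQ ckI L10 227 1 1099511627776 0 34359738368 1 1099511627776 :=
  qa 46 c140.1 (c114.2.2)

theorem q228 : OkQ ckI L10 228 1 1099511627776 0 34359738368 1 1099511627776 :=
  qa 22 c125.2.1 (c116.2.1)

theorem q229 : OkQ ckI L10 229 1 1099511627776 0 34359738368 1 1099511627776 :=
  qa 61 c128.2.2 (c129.2.2)

theorem q231 : OkQ ckI L10 231 1 1099511627776 0 34359738368 1 1099511627776 :=
  qa 3 c25.2.1 (qa 8 c27.2 (qa 16 c59.1 (qa 26 c40.1 (qa 125 c4.2 (qa 1024 c24.1 (c23.2.1))))))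

theorem q232 : OkQ ckI L10 232 1 1099511627776 0 34359738368 1 1099511627776 :=
  qa 5 c65.1 (c126.2.1)

theorem q233 : OkQ ckI L10 233 1 1099511627776 0 34359738368 1 1099511627776 :=
  qa 3 c113.1 (qa 26 c50.1 (c13.1))

theorem q235 : OkQ ckI L10 235 1 1099511627776 0 34359738368 1 1099511627776 :=
  c134.2.1

theorem q236 : OkQ ckI L10 236 1 1099511627776 0 34359738368 1 1099511627776 :=
  qa 4 c5.1 (qa 10 c34.1 (qa 60 c31.1 (qa 725 c31.2 (c113.2.1))))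

theorem q237 : OkQ ckI L10 237 1 1099511627776 0 34359738368 1 1099511627776 :=
  qa 46 c91.1 (c86.1)

theorem q239 : OkQ ckI L10 239 1 1099511627776 0 34359738368 1 1099511627776 :=
  qa 3 c74.2.1 (qa 5 c29.2 (qa 9 c35.2.1 (qa 20 c53.1 (qa 60 c54.2 (qa 213 c56.1 (qa 1024 c72.1 (c10.1)))))))

theorem q240 : OkQ ckI L10 240 1 1099511627776 0 34359738368 1 1099511627776 :=
  qa 4 c37.2.1 (qa 16 c99.2.1 (qa 30 c63.1 (qa 363 c58.2.1 (c45.1))))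

theorem q241 : OkQ ckI L10 241 1 1099511627776 0 34359738368 1 1099511627776 :=
  qa 3 c85.1 (qa 167 c100.2.1 (c114.1))

theorem q243 : OkQ ckI L10 243 1 1099511627776 0 34359738368 1 1099511627776 :=
  qa 23 c136.1 (c111.2.2)

theorem q244 : OkQ ckI L10 244 1 1099511627776 0 34359738368 1 1099511627776 :=
  qa 22 c38.2 (c38.1)

theorem q245 : OkQ ckI L10 245 1 1099511627776 0 34359738368 1 1099511627776 :=
  qa 3 c49.1 (qa 98 c81.2 (c84.1))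

theorem q247 : OkQ ckI L10 247 1 1099511627776 0 34359738368 1 1099511627776 :=
  qa 4 c122.2.1 (qa 16 c71.2.1 (qa 128 c95.1 (c60.2)))

theorem q248 : OkQ ckI L10 248 1 1099511627776 0 34359738368 1 1099511627776 :=
  qa 4 c2.1 (qa 12 c55.1 (qa 63 c54.1 (qa 725 c65.2 (c117.1))))

theorem q249 : OkQ ckI L10 249 1 1099511627776 0 34359738368 1 1099511627776 :=
  qa 3 c58.1 (qa 61 c61.2 (c51.1))

theorem q251 : OkQ ckI L10 251 1 1099511627776 0 34359738368 1 1099511627776 :=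
  qa 32 c103.1 (c105.2.1)

theorem q252 : OkQ ckI L10 252 1 1099511627776 0 34359738368 1 1099511627776 :=
  qa 4 c9.1 (qa 12 c18.2 (qa 46 c13.2 (qa 512 c8.2 (c5.2))))

theorem q253 : OkQ ckI L10 253 1 1099511627776 0 34359738368 1 1099511627776 :=
  qa 3 c119.2.1 (c101.2.2)

end Pool.Agent.MP_2339ce_nt.NR
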