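import Pool.Agent.MP_2339ce_nt.Q2.NC.L3
import Pool.Agent.MP_2339ce_nt.Q2.NC.L9
import Pool.Agent.MP_2339ce_nt.Q2.CkI

/-! Block NR: runs. -/

set_option autoImplicit false
set_option maxRecDepth 100000

noncomputable section

namespace Pool.Agent.MP_2339ce_nt.NR

open Q2.Top

def T141_0 : Ph :=
  (.na 631 190 (.na 477 74 (.na 390 23 (.na 273 10 (.na 1 2 .ne (.na 272 3 (.nx 271 3329023 (.nr
  270 623489 (.nx 3 211 (.nr 2 28 (.lg 0 false 1 41 41 5 0 48) (.l1 .sk)) (.nx 4 212 (.l1 .sk) (.nx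
  96 41287 (.nr 81 220437 (.lg 0 false 77 101 107 13 0 720720) (.nx 95 324 (.lg 0 false 14 73 73 9
  0 336) .out)) (.nr 269 155873 (.nx 232 832257 (.nr 131 3446 (.nr 117 1025 (.lg 0 true 21 97 97 11
  0 5040) (.lg 2 true 14 83 89 9 85662 1680)) (.nx 231 524289 (.nx 195 131073 (.nx 152 58387 (.lg 1
  false 21 101 103 11 84157 720720) (.nx 173 82572 (.lg 1 false 21 101 103 11 59509 720720) (.nr
  194 131073 (.lg 1 true 21 101 107 11 35393 720720) .out))) (.nr 230 110219 (.lg 2 false 35 101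
  107 13 18755 720720) .out)) .out)) (.nr 268 257 (.nx 253 2097153 (.lg 0 true 21 83 83 11 0 1008)
  (.nr 267 9 (.lg 0 true 14 67 67 9 0 336) .out)) .out)) .out)))) .out) .out) .ne)) (.na 352 12
  (.nx 351 2097153 (.nr 350 1048577 (.nx 277 257 (.nx 275 211 (.nr 274 123 (.lg 0 true 1 31 31 11 0
  240) (.l1 .sk)) (.nx 276 212 (.l1 .sk) (.l1 (.ls 83 41 2113)))) (.nr 349 623489 (.nx 296 52015
  (.nr 288 185365 (.lg 0 false 11 101 107 19 0 720720) (.nx 295 1292 (.lg 0 false 7 79 83 13 0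
  1680) .out)) (.nr 348 220437 (.nx 338 660563 (.nr 303 941 (.lg 0 true 7 79 79 13 0 1680) (.nr 307
  7202 (.lg 2 true 4 83 89 13 74059 1680) (.nx 318 104033 (.lg 1 false 11 101 107 19 94431 720720)
  (.nr 337 185365 (.nx 329 208065 (.lg 1 true 11 97 107 19 39709 720720) (.nr 336 65537 (.lg 2
  false 7 79 83 13 9677 1680) .out)) .out)))) (.nr 347 65 (.lg 0 true 9 71 71 13 0 720) .out))
  .out)) .out)) .out) .out) (.na 353 22 .ne (.nx 389 2097153 (.nr 388 1048577 (.nr 354 17 .s1 (.nx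
  357 212 (.nx 356 211 (.nr 355 237 (.lg 0 true 1 29 29 9 0 2640) (.l1 .sk)) (.l1 .sk)) (.nx 370
  42873 (.nx 358 324 (.l1 (.ls 79 43 2731)) (.nr 369 623489 (.nr 365 262145 (.lg 0 false 7 101 103
  19 0 720720) (.nx 368 2049 (.lg 0 false 3 79 79 13 0 1584) .out)) .out)) (.nr 387 155873 (.nr 377
  751 (.lg 0 true 7 79 79 19 0 3696) (.nx 386 416129 (.lg 2 false 9 97 103 23 81043 720720) .out))
  .out)))) .out) .out)))) (.na 431 38 (.na 391 26 .ne (.na 430 32 (.nx 429 2097153 (.nr 428 1048577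
  (.nr 392 22 .s1 (.nx 412 52017 (.nx 394 211 (.nr 393 329 (.lg 0 false 1 29 29 11 0 34320) (.l1
  .sk)) (.nx 395 212 (.l1 .sk) (.nx 396 324 (.l1 (.ls 79 43 2311)) (.nr 411 524289 (.nr 403 185365
  (.lg 0 false 7 97 101 19 0 240240) (.nx 410 13005 (.lg 0 false 7 89 97 19 0 240240) .out))
  .out)))) (.nr 427 92683 (.nr 419 948 (.lg 0 true 7 79 79 19 0 4368) (.nx 426 330282 (.lg 2 false
  7 83 97 19 39755 240240) .out)) .out))) .out) .out) .ne)) (.na 456 50 (.na 455 46 (.nx 454
  2097153 (.nr 453 881745 (.nr 432 36 .s1 (.nx 434 211 (.nr 433 473 (.lg 0 false 1 29 29 13 0 720)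
  (.l1 .sk)) (.nx 435 212 (.l1 .sk) (.nx 436 324 (.l1 (.ls 79 41 1582)) (.nr 452 623489 (.nr 448
  155873 (.nx 439 32769 (.lg 0 false 3 89 89 13 0 144) (.nr 447 65537 (.nr 444 473 (.lg 0 true 5 73
  73 17 0 240) (.nx 446 208065 (.lg 2 true 2 89 89 13 46408 48) .out)) .out)) (.nx 451 13005 (.lg 0
  false 3 89 89 13 0 144) .out)) .out))))) .out) .out) .ne) (.na 476 64 (.nx 475 2097153 (.nr 474
  881745 (.nr 457 48 .s1 (.nx 458 324 (.l1 (.ls 73 41 2102)) (.nr 473 741457 (.nx 465 32769 (.lg 0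
  false 7 83 89 23 0 1680) (.nr 472 46342 (.nr 469 658 (.lg 0 true 4 71 71 23 0 240) (.nx 471
  208065 (.lg 2 false 2 73 73 19 33360 240) .out)) .out)) .out))) .out) .out) .ne)))) (.na 563 128
  (.na 510 94 (.na 493 86 (.nx 492 2097153 (.nr 491 2097153 (.nr 478 73 .s1 (.nx 487 131073 (.nx
  479 324 (.l1 (.ls 79 31 1421)) (.nr 486 1048577 (.nr 482 65537 (.lg 0 true 3 89 89 19 0 720) (.nx
  485 20644 (.lg 0 false 3 89 89 19 0 720) .out)) .out)) (.nr 490 513 (.lg 0 true 3 67 67 19 0 144)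
  .out))) .out) .out) (.na 509 91 (.nx 508 2097153 (.nr 507 2097153 (.nr 494 85 .s1 (.nx 503 131073
  (.nx 495 324 (.l1 (.ls 73 37 1223)) (.nr 502 1048577 (.nr 498 65537 (.lg 0 true 3 83 83 19 0 720)
  (.nx 501 20644 (.lg 0 false 3 89 89 19 0 720) .out)) .out)) (.nr 506 513 (.lg 0 true 3 67 67 19 0
  144) .out))) .out) .out) .ne)) (.na 537 110 (.na 524 106 (.nx 523 2097153 (.nr 522 2097153 (.nr
  511 93 .s1 (.nx 519 131073 (.nx 512 324 (.l1 (.ls 73 37 1119)) (.nr 518 1048577 (.nx 515 20644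
  (.lg 0 false 3 89 89 19 0 720) (.nr 517 65537 (.lg 0 true 2 83 83 19 0 240) .out)) .out)) (.nr
  521 513 (.lg 0 true 2 61 61 19 0 48) .out))) .out) .out) (.nx 536 2097153 (.nr 535 2097153 (.nr
  525 106 .s1 (.nx 526 324 (.l1 (.ls 79 31 993)) (.nr 534 1048577 (.nx 531 131073 (.nx 529 32769
  (.lg 0 true 3 89 89 23 0 7920) (.nr 530 32769 (.lg 0 false 1 83 83 19 0 48) .out)) (.nr 533 513
  (.lg 0 true 2 61 61 19 0 48) .out)) .out))) .out) .out)) (.na 550 118 (.nx 549 2097153 (.nr 548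
  2097153 (.nr 538 110 .s1 (.nx 543 20644 (.nx 539 324 (.l1 (.ls 79 41 957)) (.nr 542 1048577 (.lg
  0 false 3 83 89 31 0 7920) .out)) (.nr 547 65537 (.nx 544 131073 (.lg 0 false 1 89 89 29 0 7920)
  (.nr 546 513 (.lg 0 true 2 67 67 31 0 2640) .out)) .out))) .out) .out) (.nx 562 2097153 (.nr 561
  2097153 (.nr 551 118 .s1 (.nx 556 32769 (.nx 552 324 (.l1 (.ls 73 31 892)) (.nr 555 1048577 (.lg
  0 false 3 83 83 23 0 144) .out)) (.nr 560 32769 (.nr 558 513 (.lg 0 true 2 59 59 19 0 48) (.nx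
  559 131073 (.lg 2 true 1 67 67 19 26956 48) .out)) .out))) .out) .out)))) (.na 591 146 (.na 564
  130 .ne (.na 577 142 (.nx 576 1048577 (.nr 575 1482912 (.nr 565 130 .s1 (.nx 573 131073 (.nx 567
  211 (.nr 566 1461 (.l1 (.ls 31 37 345)) (.l1 .sk)) (.nx 568 212 (.l1 .sk) (.nx 571 16385 (.lg 0
  false 3 89 89 31 0 9360) (.nr 572 65537 (.lg 0 false 1 89 89 29 0 3120) .out)))) (.nr 574 1025
  (.lg 0 true 1 67 67 29 0 3120) .out))) .out) .out) (.nx 590 1048577 (.nr 589 1482912 (.nr 578 142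
  .s1 (.nx 587 131073 (.nx 580 211 (.nr 579 1502 (.l1 (.ls 17 29 316)) (.l1 .sk)) (.nx 581 212 (.l1
  .sk) (.nr 583 65537 (.lg 0 true 2 73 73 23 0 48) (.nx 586 16385 (.lg 0 false 3 79 79 23 0 144)
  .out)))) (.nr 588 1025 (.lg 0 false 1 61 61 19 0 48) .out))) .out) .out))) (.na 617 166 (.na 604
  158 (.nx 603 1048577 (.nr 602 1482912 (.nr 592 146 .s1 (.nx 600 131073 (.nx 598 16385 (.nx 594
  211 (.nr 593 1625 (.l1 (.ls 19 29 307)) (.l1 .sk)) (.nx 595 212 (.l1 .sk) (.lg 0 false 3 79 79 23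
  0 144))) (.nr 599 65537 (.lg 0 false 1 83 83 19 0 720) .out)) (.nr 601 1025 (.lg 0 false 1 61 61
  19 0 48) .out))) .out) .out) (.nx 616 1048577 (.nr 615 1482912 (.nr 605 158 .s1 (.nx 611 32769
  (.nx 607 211 (.nr 606 1708 (.l1 (.ls 19 29 284)) (.l1 .sk)) (.nx 608 212 (.l1 .sk) (.lg 0 false 3
  89 89 23 0 144))) (.nr 614 16385 (.nr 612 1025 (.lg 0 false 1 61 61 19 0 48) (.nx 613 131073 (.lg
  2 true 1 53 53 19 13491 48) .out)) .out))) .out) .out)) (.na 630 182 (.nx 629 1048577 (.nr 628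
  1482912 (.nr 618 166 .s1 (.nx 620 211 (.nr 619 1872 (.l1 (.ls 17 29 271)) (.l1 .sk)) (.nx 621 212
  (.l1 .sk) (.nx 624 32769 (.lg 0 false 3 79 79 23 0 720) (.nr 627 16385 (.nr 625 1025 (.lg 0 false
  1 61 61 19 0 240) (.nx 626 131073 (.lg 2 false 1 47 47 19 13491 240) .out)) .out))))) .out) .out)
  .ne))))) (.na 3643 1449 (.na 709 250 (.na 665 214 (.na 643 202 (.nx 642 1048577 (.nr 641 1048577
  (.nr 632 190 .s1 (.nx 635 212 (.nx 634 211 (.nr 633 2078 (.l1 (.ls 17 31 237)) (.l1 .sk)) (.l1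
  .sk)) (.nr 638 65537 (.nx 636 131073 (.lg 0 false 1 83 83 31 0 240) (.nr 637 1025 (.lg 0 true 1
  67 67 31 0 240) .out)) (.nx 640 16385 (.lg 0 false 2 83 83 37 0 240) .out)))) .out) .out) (.na
  654 206 (.nx 653 1048577 (.nr 652 1048577 (.nr 644 202 .s1 (.nx 650 32769 (.nx 646 211 (.nr 645
  2119 (.l1 (.ls 17 23 223)) (.l1 .sk)) (.nx 647 212 (.l1 .sk) (.lg 0 false 3 73 73 29 0 144)))
  (.nr 651 16385 (.lg 0 false 1 79 79 23 0 2640) .out))) .out) .out) (.nx 664 1048577 (.nr 663
  1048577 (.nr 655 206 .s1 (.nx 658 212 (.nx 657 211 (.nr 656 2201 (.l1 (.ls 17 23 219)) (.l1 .sk))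
  (.l1 .sk)) (.nx 661 32769 (.lg 0 false 3 79 79 29 0 720) (.nr 662 16385 (.lg 0 false 1 79 79 23 0
  240) .out)))) .out) .out))) (.na 687 226 (.na 676 218 (.nx 675 1048577 (.nr 674 1048577 (.nr 666
  214 .s1 (.nx 669 212 (.nx 668 211 (.nr 667 2242 (.l1 (.ls 19 23 211)) (.l1 .sk)) (.l1 .sk)) (.nx
  672 32769 (.lg 0 false 3 79 79 29 0 720) (.nr 673 16385 (.lg 0 false 1 79 79 23 0 48) .out))))
  .out) .out) (.nx 686 1048577 (.nr 685 1048577 (.nr 677 218 .s1 (.nx 680 212 (.nx 679 211 (.nr 678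
  2325 (.l1 (.ls 17 23 207)) (.l1 .sk)) (.l1 .sk)) (.nx 683 32769 (.lg 0 false 3 73 73 29 0 144)
  (.nr 684 16385 (.lg 0 false 1 73 73 23 0 48) .out)))) .out) .out)) (.na 698 242 (.nx 697 1048577
  (.nr 696 1048577 (.nr 688 226 .s1 (.nx 691 212 (.nx 690 211 (.nr 689 2489 (.l1 (.ls 17 23 199))
  (.l1 .sk)) (.l1 .sk)) (.nx 694 32769 (.lg 0 false 3 73 73 29 0 144) (.nr 695 16385 (.lg 0 false 1
  73 73 23 0 48) .out)))) .out) .out) (.nx 708 1048577 (.nr 707 1048577 (.nr 699 242 .s1 (.nx 705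
  32769 (.nx 701 211 (.nr 700 2571 (.l1 (.ls 19 29 186)) (.l1 .sk)) (.nx 702 212 (.l1 .sk) (.lg 0
  false 3 79 79 31 0 1584))) (.nr 706 16385 (.lg 0 false 1 79 79 29 0 2640) .out))) .out) .out))))
  (.na 1044 363 (.na 720 256 (.nx 719 1048577 (.nr 718 1048577 (.nr 710 250 .s1 (.nx 712 211 (.nr
  711 2633 (.l1 (.ls 17 29 181)) (.l1 .sk)) (.nx 713 212 (.l1 .sk) (.nx 716 32769 (.lg 0 false 3 73
  73 31 0 720) (.nr 717 16385 (.lg 0 false 1 73 73 29 0 240) .out))))) .out) .out) (.na 721 257 .ne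
  (.nx 1043 1048577 (.nr 1042 1482912 (.nr 722 257 .s1 (.nx 828 257 (.la (.ls 83 19 259)) (.nr 1041
  1048577 (.nr 934 32769 (.la (.lg 0 true 2 73 73 23 0)) (.nx 1040 20644 (.la (.lg 0 true 1 73 73
  19 0)) .out)) .out))) .out) .out))) (.na 2187 725 (.na 1496 512 (.nx 1495 1048577 (.nr 1494
  1482912 (.nr 1045 363 .s1 (.nx 1194 257 (.la (.ls 83 19 184)) (.nr 1493 1048577 (.nr 1343 32769
  (.la (.lg 0 false 1 73 73 23 0)) (.nx 1492 20644 (.la (.lg 0 false 1 71 71 23 0)) .out)) .out)))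
  .out) .out) (.nx 2186 1048577 (.nr 2185 1482912 (.nr 1497 512 .s1 (.nx 1757 257 (.nx 1711 211
  (.nr 1710 7456 (.la (.ls 41 23 182)) (.l1 .sk)) (.nx 1712 212 (.l1 .sk) (.lx (.lp 41 0 182))))
  (.nr 2184 1048577 (.nx 1970 52017 (.la (.lg 0 true 1 71 71 29 0)) (.nr 2183 32769 (.la (.lg 2
  true 1 59 59 29 216065)) .out)) .out))) .out) .out)) (.na 2789 1024 (.nx 2788 13005 (.nr 2787
  1048577 (.nr 2188 725 .s1 (.nx 2487 2049 (.la (.ls 89 37 5793)) (.nr 2786 65537 (.la (.lg 0 false
  1 43 43 29 0)) .out))) .out) .out) (.nx 3642 13005 (.nr 3641 1048577 (.nr 2790 1024 .s1 (.nx 3215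
  3252 (.la (.ls 61 41 10330)) (.nr 3640 32769 (.la (.lg 0 false 1 37 37 31 0)) .out))) .out)
  .out))))) (.na 13245 16384 (.na 6299 4096 (.na 4245 2048 (.nx 4244 8193 (.nr 4243 1048577 (.nr
  3644 1449 .s1 (.la (.ls 59 47 46328))) .out) .out) (.na 5097 2897 (.nx 5096 8193 (.nr 5095
  1048577 (.nr 4246 2048 .s1 (.la (.ls 53 47 32779))) .out) .out) (.nx 6298 3252 (.nr 6297 524289
  (.nr 5098 2897 .s1 (.la (.ls 61 37 3653))) .out) .out))) (.na 10657 8192 (.na 7999 5793 (.nx 7998
  3252 (.nr 7997 524289 (.nr 6300 4096 .s1 (.la (.ls 61 37 2584))) .out) .out) (.nx 10656 1292 (.nr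
  10655 262145 (.nr 8000 5793 .s1 (.nx 8256 256 (.nr 8255 131073 (.lx (.lp 16 0 2049)) .out) (.la
  (.ls 47 37 2049)))) .out) .out)) (.na 11951 11586 (.nx 11950 1292 (.nr 11949 262145 (.nr 10658
  8192 .s1 (.lx (.lp 47 37 2897))) .out) .out) (.nx 13244 1292 (.nr 13243 131073 (.nr 11952 11586
  .s1 (.lx (.lp 43 41 4097))) .out) .out)))) (.na 17129 131072 (.na 14540 32768 (.nx 14539 1292
  (.nr 14538 262145 (.nr 13246 16384 .s1 (.nx 13502 257 (.lx (.lp 16 0 8193)) (.nr 14537 131073
  (.lx (.lp 41 43 8193)) .out))) .out) .out) (.na 15834 65536 (.nx 15833 1292 (.nr 15832 262145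
  (.nr 14541 32768 .s1 (.lx (.lp 41 47 16385))) .out) .out) (.nx 17128 1292 (.nr 17127 524289 (.nr
  15835 65536 .s1 (.nx 16479 645 (.lx (.lp 16 0 32769)) (.nr 17126 262145 (.lx (.lp 41 53 32769))
  .out))) .out) .out))) (.na 18159 524288 (.na 17644 262144 (.nx 17643 513 (.nr 17642 524289 (.nr
  17130 131072 .s1 (.lx (.lp 16 0 65537))) .out) .out) (.nx 18158 513 (.nr 18157 1048577 (.nr 17645
  262144 .s1 (.lx (.lp 16 0 131073))) .out) .out)) (.na 18161 1048577 (.nx 18160 257 (.l1 .sk)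
  .out) .out))))))

def T141_1 : Ph :=
  (.na 658 3 (.na 371 2 (.nx 370 2097153 (.nr 369 881745 (.nx 333 1048577 (.nx 3 214 (.nx 2 213
  (.nr 1 15 (.lg 0 false 1 41 41 5 0 5112) (.l1 .sk)) (.l1 .sk)) (.nr 290 131073 (.nx 58 32769 (.lg
  0 false 55 103 109 16 0 25585560) (.nr 289 110219 (.nr 113 901 (.lg 0 true 55 89 97 16 0 281160)
  (.nx 168 52017 (.lg 1 false 55 101 107 16 76449 25585560) (.nr 288 77937 (.nr 188 1724 (.lg 2
  true 20 89 97 11 123944 51120) (.nx 287 832257 (.nr 199 3160 (.lg 2 true 11 89 97 9 51413 56232)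
  (.nr 231 27556 (.nr 210 5794 (.lg 2 true 11 89 97 9 28050 56232) (.nx 230 660563 (.lg 2 false 20
  101 107 11 12142 4651920) .out)) (.nx 286 524289 (.lg 2 false 55 101 107 16 34082 25585560)
  .out))) .out)) .out))) .out)) (.nx 332 8193 (.nx 310 324 (.lg 0 false 20 83 83 11 0 17040) (.nx
  311 4096 .out (.nr 331 155873 (.lg 0 false 20 89 97 11 0 51120) .out))) .out))) (.nr 368 129 (.lg
  0 true 35 83 83 13 0 59640) .out)) .out) .out) (.nx 657 3329023 (.nr 656 623489 (.nx 641 2097153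
  (.nx 374 214 (.nx 373 213 (.nr 372 28 (.lg 0 true 1 41 41 5 0 3408) (.l1 .sk)) (.l1 .sk)) (.nx
  618 1048577 (.nx 606 832257 (.nx 466 41287 (.nr 429 185365 (.lg 0 false 55 103 109 13 0 51171120)
  (.nx 443 16384 (.nx 442 324 (.lg 0 false 13 83 83 9 0 44304) .out) (.nr 465 220437 (.lg 0 false
  22 103 109 11 0 51171120) .out))) (.nr 605 155873 (.nr 488 1025 (.lg 0 true 22 101 103 11 0
  3936240) (.nx 532 82572 (.nx 510 58387 (.lg 1 false 22 103 109 11 85761 51171120) (.lg 1 false 22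
  103 109 11 60644 51171120)) (.nr 604 131073 (.nr 581 77937 (.nr 555 6051 (.nr 543 2049 (.lg 2
  true 11 97 97 9 86474 3936240) (.nx 554 660563 (.lg 2 true 11 101 101 9 34334 3936240) .out))
  (.nx 580 524289 (.nr 566 38969 (.lg 2 false 11 103 103 9 10765 3936240) (.nx 579 262145 (.lg 2
  false 13 103 107 9 21470 4651920) .out)) .out)) (.nx 603 208065 (.lg 2 false 22 103 109 11 36068
  51171120) .out)) .out))) .out)) (.nr 617 257 (.lg 0 true 11 83 83 9 0 37488) .out)) (.nr 640 129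
  (.lg 0 true 22 83 83 11 0 37488) .out))) (.nr 655 9 (.lg 0 true 14 73 73 9 0 23856) .out)) .out)
  .out)) (.na 659 6 .ne (.na 829 7 (.nx 828 16777217 (.nr 827 1048577 (.nx 662 214 (.nx 661 213
  (.nr 660 71 (.lg 0 false 1 29 29 7 0 10224) (.l1 .sk)) (.l1 .sk)) (.nx 796 2097153 (.nx 663 257
  (.l1 (.ls 83 43 3378)) (.nr 795 623489 (.nx 708 52015 (.nx 664 324 (.l1 (.ls 79 47 6490)) (.nr
  707 370729 (.nr 699 185365 (.lg 0 false 35 89 101 19 0 357840) (.nx 706 2049 (.lg 0 false 7 83 83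
  13 0 71568) .out)) .out)) (.nr 794 220437 (.nx 780 660563 (.nr 719 1026 (.lg 0 true 11 83 83 13 0
  112464) (.nx 730 76448 (.lg 1 false 11 97 97 13 96230 112464) (.nr 737 8201 (.lg 2 true 7 89 89
  13 68568 71568) (.nx 772 208065 (.lg 1 true 35 89 101 19 65475 357840) (.nr 779 77937 (.lg 2
  false 7 89 89 13 8579 71568) .out))))) (.nr 793 257 (.lg 0 true 13 73 73 13 0 132912) .out))
  .out)) .out)) (.nr 826 28 (.lg 0 true 30 73 73 11 0 51120) .out))) .out) .out) .ne)))

def T141_2 : Ph :=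
  (.na 515 127 (.na 355 53 (.na 268 21 (.na 181 8 (.na 99 4 (.na 69 2 (.nx 68 330282 (.nr 67 311745
  (.nx 3 25 (.nx 2 24 (.nr 1 6 (.lg 0 true 1 29 29 5 0 720) (.l1 .sk)) (.l1 .sk)) (.nr 53 38969
  (.nr 45 4872 (.nx 10 1467 (.lg 0 true 7 71 71 9 0 168) (.nx 22 20644 (.nr 17 309 (.lg 0 false 7
  71 71 9 0 168) (.lg 2 false 5 73 73 9 962 120)) (.nr 44 78 (.lg 0 true 22 73 73 11 0 528) .out)))
  (.nx 52 324 (.lg 0 false 7 79 79 9 0 168) .out)) (.nx 66 52 (.lg 0 false 13 71 71 9 0 312)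
  .out))) .out) .out) (.na 70 3 .ne (.nx 98 330282 (.nr 97 13779 (.nx 73 25 (.nx 72 24 (.nr 71 14
  (.lg 0 true 1 19 19 5 0 5040) (.l1 .sk)) (.l1 .sk)) (.nx 78 2965 (.lg 0 true 5 73 73 7 0 360)
  (.nr 91 217 (.lg 0 true 13 71 71 13 0 936) (.nx 96 20644 (.lg 1 true 5 73 73 7 1341 720) .out))))
  .out) .out))) (.na 163 6 (.na 137 5 (.nx 136 330282 (.nr 135 1246976 (.nx 101 24 (.nr 100 17 (.lg
  0 true 1 23 23 9 0 55440) (.l1 .sk)) (.nx 102 25 (.l1 .sk) (.nx 121 3252 (.nr 107 19485 (.lg 0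
  true 5 73 73 11 0 240) (.nx 120 52 (.lg 0 false 13 73 73 11 0 624) .out)) (.nr 134 2437 (.nx 126
  20644 (.lg 0 true 5 79 79 11 0 240) (.nr 133 109 (.lg 0 true 7 71 71 11 0 336) .out)) .out))))
  .out) .out) (.nx 162 330282 (.nr 161 23172 (.nr 138 2 .s1 (.nx 141 25 (.nx 140 24 (.nr 139 21
  (.l1 (.ls 17 17 118)) (.l1 .sk)) (.l1 .sk)) (.nr 152 129 (.lg 0 true 11 67 67 16 0 1320) (.nx 160
  20644 (.nr 156 2898 (.nx 153 432 (.lg 0 true 1 67 67 9 0 120) (.lg 2 true 3 61 61 11 1951 360))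
  (.nx 159 3252 (.lg 0 false 3 89 89 11 0 5040) .out)) .out)))) .out) .out)) (.na 164 7 .ne (.nx
  180 330282 (.nr 179 32769 (.nr 165 6 .s1 (.nx 173 3252 (.nx 167 24 (.nr 166 28 (.l1 (.ls 17 16
  85)) (.l1 .sk)) (.nx 168 25 (.l1 .sk) (.lg 0 true 5 73 73 16 0 840))) (.nr 178 183 (.lg 0 true 5
  71 71 16 0 840) .out))) .out) .out)))) (.na 224 12 (.na 206 10 (.na 205 9 (.nx 204 330282 (.nr
  203 77937 (.nr 182 7 .s1 (.nx 185 25 (.nx 184 24 (.nr 183 32 (.lg 0 true 1 16 16 9 0 720) (.l1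
  .sk)) (.l1 .sk)) (.nx 192 2851 (.lg 0 false 7 79 79 13 0 5040) (.nr 202 38969 (.nr 199 217 (.lg 0
  true 7 67 67 13 0 336) (.nx 201 20644 (.lg 1 false 2 79 79 11 3940 720) .out)) .out)))) .out)
  .out) (.lg 0 false 1 0 0 7 0 24)) (.na 207 11 .ne (.nx 223 330282 (.nr 222 77937 (.nr 208 10 .s1
  (.nx 213 1919 (.nx 210 24 (.nr 209 42 (.lg 0 false 1 16 16 9 0 55440) (.l1 .sk)) (.nx 211 25 (.l1
  .sk) (.lg 0 true 2 79 79 9 0 528))) (.nr 221 27556 (.nr 218 154 (.lg 0 true 5 61 61 16 0 1320)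
  (.nx 220 20644 (.lg 1 false 2 79 79 9 4141 1584) .out)) .out))) .out) .out))) (.na 255 16 (.na
  241 15 (.nx 240 330282 (.nr 239 77937 (.nr 225 11 .s1 (.nx 230 1919 (.nx 227 24 (.nr 226 53 (.l1
  (.ls 19 19 50)) (.l1 .sk)) (.nx 228 25 (.l1 .sk) (.lg 0 true 2 79 79 13 0 5040))) (.nr 238 27556
  (.nr 235 154 (.lg 0 true 5 67 67 17 0 720) (.nx 237 20644 (.lg 1 false 2 79 79 13 4141 5040)
  .out)) .out))) .out) .out) (.nx 254 330282 (.nr 253 77937 (.nr 242 15 .s1 (.nx 247 2851 (.nx 244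
  24 (.nr 243 56 (.l1 (.ls 16 16 41)) (.l1 .sk)) (.nx 245 25 (.l1 .sk) (.lg 0 true 2 79 79 16 0
  720))) (.nr 252 27556 (.nr 250 154 (.lg 0 true 3 61 61 16 0 360) (.nx 251 20644 (.lg 1 false 1 79
  79 16 2787 7920) .out)) .out))) .out) .out)) (.na 256 20 .ne (.nx 267 330282 (.nr 266 131073 (.nr
  257 20 .s1 (.nx 261 2049 (.nx 259 24 (.nr 258 74 (.l1 (.ls 19 13 31)) (.l1 .sk)) (.nx 260 25 (.l1
  .sk) (.lg 0 true 1 83 83 13 0 720))) (.nr 265 32769 (.nr 263 154 (.lg 0 true 2 61 61 17 0 240)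
  (.nx 264 20644 (.lg 1 false 1 79 79 13 4611 720) .out)) .out))) .out) .out))))) (.na 322 32 (.na
  297 27 (.na 281 24 (.na 280 23 (.nx 279 330282 (.nr 278 131073 (.nr 269 21 .s1 (.nx 271 24 (.nr
  270 81 (.l1 (.ls 16 16 30)) (.l1 .sk)) (.nx 272 25 (.l1 .sk) (.nx 274 3252 (.lg 0 true 2 79 79 16
  0 1008) (.nr 277 27556 (.nr 275 154 (.lg 0 false 1 71 71 16 0 504) (.nx 276 20644 (.lg 1 false 1
  73 73 16 2443 5040) .out)) .out))))) .out) .out) .ne) (.na 289 25 (.nx 288 41287 (.nr 287 131073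
  (.nr 282 24 .s1 (.nx 285 3252 (.nx 283 324 (.l1 (.ls 67 47 4376)) (.nr 284 32769 (.lg 0 true 1 73
  73 13 0 144) .out)) (.nr 286 257 (.lg 0 false 1 59 59 13 0 144) .out))) .out) .out) (.nx 296
  41287 (.nr 295 131073 (.nr 290 25 .s1 (.nx 291 324 (.l1 (.ls 67 37 4202)) (.nr 294 32769 (.nx 292
  3252 (.lg 0 true 1 71 71 16 0 120) (.nr 293 257 (.lg 0 false 1 59 59 16 0 120) .out)) .out)))
  .out) .out))) (.na 306 29 (.na 298 28 (.lg 0 false 1 0 0 7 0 24) (.nx 305 41287 (.nr 304 131073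
  (.nr 299 28 .s1 (.nx 302 3252 (.nx 300 324 (.l1 (.ls 71 43 3752)) (.nr 301 32769 (.lg 0 true 1 73
  73 13 0 336) .out)) (.nr 303 257 (.lg 0 true 1 59 59 13 0 336) .out))) .out) .out)) (.na 314 31
  (.nx 313 41287 (.nr 312 131073 (.nr 307 29 .s1 (.nx 308 324 (.l1 (.ls 67 37 3622)) (.nr 311 32769
  (.nx 309 3252 (.lg 0 true 1 71 71 13 0 24) (.nr 310 257 (.lg 0 false 1 59 59 13 0 24) .out))
  .out))) .out) .out) (.nx 321 41287 (.nr 320 131073 (.nr 315 31 .s1 (.nx 316 324 (.l1 (.ls 67 29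
  3389)) (.nr 319 32769 (.nx 317 3252 (.lg 0 true 1 71 71 13 0 24) (.nr 318 257 (.lg 0 true 1 53 53
  13 0 24) .out)) .out))) .out) .out)))) (.na 336 40 (.na 329 35 (.na 323 33 .ne (.nx 328 41287
  (.nr 327 262145 (.nr 324 33 .s1 (.nx 325 324 (.l1 (.ls 71 41 3184)) (.nr 326 4097 (.lg 0 false 1
  73 73 16 0 792) .out))) .out) .out)) (.na 335 36 (.nx 334 41287 (.nr 333 262145 (.nr 330 35 .s1
  (.nx 331 324 (.l1 (.ls 73 41 3002)) (.nr 332 4097 (.lg 0 false 1 71 71 16 0 840) .out))) .out)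
  .out) (.lg 0 false 1 0 0 7 0 24))) (.na 348 45 (.na 342 44 (.nx 341 41287 (.nr 340 262145 (.nr
  337 40 .s1 (.nx 338 324 (.l1 (.ls 73 43 2627)) (.nr 339 4097 (.lg 0 false 1 73 73 19 0 240)
  .out))) .out) .out) (.nx 347 41287 (.nr 346 262145 (.nr 343 44 .s1 (.nx 344 324 (.l1 (.ls 73 43
  2388)) (.nr 345 4097 (.lg 0 false 1 73 73 19 0 528) .out))) .out) .out)) (.na 349 49 (.lg 0 false
  1 0 0 16 0 24) (.nx 354 41287 (.nr 353 262145 (.nr 350 49 .s1 (.nx 351 324 (.l1 (.ls 67 31 2145))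
  (.nr 352 4097 (.lg 0 false 1 67 67 16 0 168) .out))) .out) .out)))))) (.na 427 87 (.na 387 72
  (.na 373 59 (.na 361 55 (.nx 360 41287 (.nr 359 262145 (.nr 356 53 .s1 (.nx 357 324 (.l1 (.ls 67
  29 1983)) (.nr 358 4097 (.lg 0 false 1 71 71 16 0 24) .out))) .out) .out) (.na 367 56 (.nx 366
  41287 (.nr 365 262145 (.nr 362 55 .s1 (.nx 363 324 (.l1 (.ls 71 37 1911)) (.nr 364 4097 (.lg 0
  false 1 71 71 17 0 1320) .out))) .out) .out) (.nx 372 41287 (.nr 371 262145 (.nr 368 56 .s1 (.nx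
  369 324 (.l1 (.ls 71 41 1877)) (.nr 370 4097 (.lg 0 false 1 71 71 19 0 336) .out))) .out) .out)))
  (.na 385 63 (.na 379 60 (.nx 378 41287 (.nr 377 262145 (.nr 374 59 .s1 (.nx 375 324 (.l1 (.ls 67
  29 1782)) (.nr 376 4097 (.lg 0 false 1 67 67 16 0 24) .out))) .out) .out) (.nx 384 41287 (.nr 383
  262145 (.nr 380 60 .s1 (.nx 381 324 (.l1 (.ls 71 43 1752)) (.nr 382 4097 (.lg 0 false 1 71 71 23
  0 720) .out))) .out) .out)) (.na 386 64 (.lg 0 false 1 0 0 16 0 24) .ne))) (.na 408 79 (.na 394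
  75 (.na 388 73 (.lg 0 false 1 0 0 16 0 24) (.nx 393 20644 (.nr 392 524289 (.nr 389 73 .s1 (.nx
  390 324 (.l1 (.ls 67 29 1441)) (.nr 391 65537 (.lg 0 true 1 79 79 16 0 24) .out))) .out) .out))
  (.na 400 77 (.nx 399 20644 (.nr 398 524289 (.nr 395 75 .s1 (.nx 396 324 (.l1 (.ls 67 37 1402))
  (.nr 397 65537 (.lg 0 true 1 73 73 17 0 360) .out))) .out) .out) (.nx 407 20644 (.nr 406 524289
  (.nr 401 77 .s1 (.nx 404 3252 (.nx 402 324 (.l1 (.ls 73 31 1366)) (.nr 403 65537 (.lg 0 false 1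
  71 71 17 0 1848) .out)) (.nr 405 257 (.lg 0 true 1 47 47 17 0 55440) .out))) .out) .out))) (.na
  415 83 (.na 414 81 (.nx 413 20644 (.nr 412 524289 (.nr 409 79 .s1 (.nx 410 324 (.l1 (.ls 67 29
  1331)) (.nr 411 65537 (.lg 0 true 1 79 79 16 0 24) .out))) .out) .out) (.lg 0 false 1 0 0 16 0
  24)) (.na 421 84 (.nx 420 20644 (.nr 419 524289 (.nr 416 83 .s1 (.nx 417 324 (.l1 (.ls 61 29
  1267)) (.nr 418 65537 (.lg 0 true 1 71 71 16 0 24) .out))) .out) .out) (.nx 426 20644 (.nr 425
  524289 (.nr 422 84 .s1 (.nx 423 324 (.l1 (.ls 73 43 1252)) (.nr 424 65537 (.lg 0 true 1 83 83 29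
  0 1008) .out))) .out) .out))))) (.na 470 105 (.na 451 99 (.na 439 93 (.na 433 88 (.nx 432 20644
  (.nr 431 524289 (.nr 428 87 .s1 (.nx 429 324 (.l1 (.ls 67 37 1209)) (.nr 430 65537 (.lg 0 true 1
  73 73 16 0 72) .out))) .out) .out) (.nx 438 20644 (.nr 437 524289 (.nr 434 88 .s1 (.nx 435 324
  (.l1 (.ls 73 41 1195)) (.nr 436 65537 (.lg 0 true 1 79 79 23 0 528) .out))) .out) .out)) (.na 445
  97 (.nx 444 20644 (.nr 443 524289 (.nr 440 93 .s1 (.nx 441 324 (.l1 (.ls 71 29 1131)) (.nr 442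
  65537 (.lg 0 true 1 79 79 16 0 5040) .out))) .out) .out) (.nx 450 20644 (.nr 449 524289 (.nr 446
  97 .s1 (.nx 447 324 (.l1 (.ls 61 23 1085)) (.nr 448 65537 (.lg 0 true 1 71 71 16 0 24) .out)))
  .out) .out))) (.na 458 101 (.na 452 100 (.lg 0 false 1 0 0 16 0 24) (.nx 457 20644 (.nr 456
  524289 (.nr 453 100 .s1 (.nx 454 324 (.l1 (.ls 71 37 1052)) (.nr 455 65537 (.lg 0 false 1 73 73
  23 0 240) .out))) .out) .out)) (.na 464 103 (.nx 463 20644 (.nr 462 524289 (.nr 459 101 .s1 (.nx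
  460 324 (.l1 (.ls 61 23 1042)) (.nr 461 65537 (.lg 0 true 1 71 71 16 0 24) .out))) .out) .out)
  (.nx 469 20644 (.nr 468 524289 (.nr 465 103 .s1 (.nx 466 324 (.l1 (.ls 67 23 1022)) (.nr 467
  65537 (.lg 0 true 1 71 71 16 0 24) .out))) .out) .out)))) (.na 489 120 (.na 482 108 (.na 476 107
  (.nx 475 20644 (.nr 474 524289 (.nr 471 105 .s1 (.nx 472 324 (.l1 (.ls 73 37 1002)) (.nr 473
  65537 (.lg 0 true 1 79 79 23 0 2520) .out))) .out) .out) (.nx 481 20644 (.nr 480 524289 (.nr 477
  107 .s1 (.nx 478 324 (.l1 (.ls 61 23 984)) (.nr 479 65537 (.lg 0 true 1 71 71 16 0 24) .out)))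
  .out) .out)) (.na 483 116 (.lg 0 false 1 0 0 16 0 24) (.nx 488 20644 (.nr 487 524289 (.nr 484 116
  .s1 (.nx 485 324 (.l1 (.ls 73 37 907)) (.nr 486 65537 (.lg 0 false 1 79 79 19 0 48) .out))) .out)
  .out))) (.na 503 124 (.na 495 121 (.nx 494 20644 (.nr 493 524289 (.nr 490 120 .s1 (.nx 491 324
  (.l1 (.ls 71 41 877)) (.nr 492 65537 (.lg 0 false 1 73 73 29 0 720) .out))) .out) .out) (.nx 502
  20644 (.nr 501 524289 (.nr 496 121 .s1 (.nx 497 324 (.l1 (.ls 61 29 870)) (.nr 500 65537 (.nr 498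
  257 (.lg 2 true 1 19 19 17 2048 55440) (.nx 499 3252 (.lg 0 true 1 59 59 17 0 264) .out)) .out)))
  .out) .out)) (.na 509 125 (.nx 508 20644 (.nr 507 524289 (.nr 504 124 .s1 (.nx 505 324 (.l1 (.ls
  73 29 849)) (.nr 506 65537 (.lg 0 false 1 79 79 19 0 48) .out))) .out) .out) (.nx 514 20644 (.nr
  513 524289 (.nr 510 125 .s1 (.nx 511 324 (.l1 (.ls 61 29 842)) (.nr 512 65537 (.lg 0 true 1 67 67
  16 0 120) .out))) .out) .out))))))) (.na 646 200 (.na 580 163 (.na 537 140 (.na 528 132 (.na 521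
  128 (.nx 520 20644 (.nr 519 524289 (.nr 516 127 .s1 (.nx 517 324 (.l1 (.ls 61 23 829)) (.nr 518
  65537 (.lg 0 true 1 67 67 16 0 24) .out))) .out) .out) (.na 522 131 .ne (.nx 527 20644 (.nr 526
  16385 (.nr 523 131 .s1 (.nx 524 324 (.l1 (.ls 37 23 804)) (.nr 525 1025 (.lg 2 false 1 29 29 16
  1892 5040) .out))) .out) .out))) (.na 535 137 (.na 534 135 (.nx 533 20644 (.nr 532 16385 (.nr 529
  132 .s1 (.nx 530 324 (.l1 (.ls 47 41 798)) (.nr 531 1025 (.lg 0 true 1 47 47 31 0 7920) .out)))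
  .out) .out) (.lg 0 false 1 0 0 16 0 24)) (.na 536 139 (.lg 0 false 1 0 0 16 0 24) (.lg 0 false 1
  0 0 16 0 24)))) (.na 561 151 (.na 549 147 (.na 543 145 (.nx 542 20644 (.nr 541 16385 (.nr 538 140
  .s1 (.nx 539 324 (.l1 (.ls 53 41 752)) (.nr 540 1025 (.lg 0 true 1 47 53 31 0 1680) .out))) .out)
  .out) (.nx 548 20644 (.nr 547 16385 (.nr 544 145 .s1 (.nx 545 324 (.l1 (.ls 47 23 726)) (.nr 546
  1025 (.lg 2 true 1 37 37 17 1709 5040) .out))) .out) .out)) (.na 555 149 (.nx 554 20644 (.nr 553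
  16385 (.nr 550 147 .s1 (.nx 551 324 (.l1 (.ls 41 31 717)) (.nr 552 1025 (.lg 2 false 1 29 29 19
  1686 55440) .out))) .out) .out) (.nx 560 20644 (.nr 559 16385 (.nr 556 149 .s1 (.nx 557 324 (.l1
  (.ls 37 23 707)) (.nr 558 1025 (.lg 2 false 1 29 29 16 1663 5040) .out))) .out) .out))) (.na 573
  157 (.na 567 155 (.nx 566 20644 (.nr 565 16385 (.nr 562 151 .s1 (.nx 563 324 (.l1 (.ls 37 23
  698)) (.nr 564 1025 (.lg 2 true 1 29 29 16 1641 5040) .out))) .out) .out) (.nx 572 20644 (.nr 571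
  16385 (.nr 568 155 .s1 (.nx 569 324 (.l1 (.ls 43 29 680)) (.nr 570 1025 (.lg 2 true 1 29 29 17
  1599 720) .out))) .out) .out)) (.na 574 159 (.lg 0 false 1 0 0 16 0 24) (.nx 579 20644 (.nr 578
  16385 (.nr 575 159 .s1 (.nx 576 324 (.l1 (.ls 37 29 663)) (.nr 577 1025 (.lg 2 true 1 23 23 17
  1559 5040) .out))) .out) .out))))) (.na 618 180 (.na 594 173 (.na 587 167 (.na 581 165 (.lg 0
  false 1 0 0 16 0 24) (.nx 586 20644 (.nr 585 16385 (.nr 582 165 .s1 (.nx 583 324 (.l1 (.ls 43 37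
  639)) (.nr 584 1025 (.lg 2 true 1 31 31 29 1502 55440) .out))) .out) .out)) (.na 588 168 (.lg 0
  false 1 0 0 16 0 24) (.nx 593 20644 (.nr 592 16385 (.nr 589 168 .s1 (.nx 590 324 (.l1 (.ls 43 41
  627)) (.nr 591 1025 (.lg 2 true 1 31 31 31 1475 5040) .out))) .out) .out))) (.na 606 177 (.na 600
  175 (.nx 599 20644 (.nr 598 16385 (.nr 595 173 .s1 (.nx 596 324 (.l1 (.ls 37 23 609)) (.nr 597
  1025 (.lg 2 false 1 23 23 16 1432 5040) .out))) .out) .out) (.nx 605 20644 (.nr 604 16385 (.nr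
  601 175 .s1 (.nx 602 324 (.l1 (.ls 43 29 602)) (.nr 603 1025 (.lg 2 false 1 31 31 19 1416 5040)
  .out))) .out) .out)) (.na 612 179 (.nx 611 20644 (.nr 610 16385 (.nr 607 177 .s1 (.nx 608 324
  (.l1 (.ls 37 29 596)) (.nr 609 1025 (.lg 2 true 1 23 23 17 1400 5040) .out))) .out) .out) (.nx
  617 20644 (.nr 616 16385 (.nr 613 179 .s1 (.nx 614 324 (.l1 (.ls 31 23 589)) (.nr 615 1025 (.lg 2
  true 1 23 23 16 1384 5040) .out))) .out) .out)))) (.na 622 193 (.na 620 189 (.na 619 181 (.lg 0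
  false 1 0 0 16 0 24) (.lg 0 false 1 0 0 16 0 24)) (.na 621 191 (.lg 0 false 1 0 0 16 0 24) (.lg 0
  false 1 0 0 16 0 24))) (.na 634 197 (.na 628 196 (.nx 627 20644 (.nr 626 16385 (.nr 623 193 .s1
  (.nx 624 324 (.l1 (.ls 31 19 546)) (.nr 625 1025 (.lg 2 true 1 23 23 16 1284 55440) .out))) .out)
  .out) (.nx 633 20644 (.nr 632 16385 (.nr 629 196 .s1 (.nx 630 324 (.l1 (.ls 43 31 538)) (.nr 631
  1025 (.lg 2 true 1 29 29 29 1264 5040) .out))) .out) .out)) (.na 640 199 (.nx 639 20644 (.nr 638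
  16385 (.nr 635 197 .s1 (.nx 636 324 (.l1 (.ls 31 19 535)) (.nr 637 1025 (.lg 2 true 1 19 19 16
  1258 720) .out))) .out) .out) (.nx 645 20644 (.nr 644 16385 (.nr 641 199 .s1 (.nx 642 324 (.l1
  (.ls 31 19 530)) (.nr 643 1025 (.lg 2 true 1 19 19 16 1245 5040) .out))) .out) .out)))))) (.na
  717 237 (.na 684 223 (.na 665 216 (.na 658 211 (.na 652 203 (.nx 651 20644 (.nr 650 16385 (.nr
  647 200 .s1 (.nx 648 324 (.l1 (.ls 41 31 527)) (.nr 649 1025 (.lg 2 true 1 29 29 29 1239 5040)
  .out))) .out) .out) (.nx 657 20644 (.nr 656 16385 (.nr 653 203 .s1 (.nx 654 324 (.l1 (.ls 43 23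
  520)) (.nr 655 1025 (.lg 2 true 1 23 31 19 1221 5040) .out))) .out) .out)) (.na 659 212 (.lg 0
  false 1 0 0 16 0 24) (.nx 664 20644 (.nr 663 16385 (.nr 660 212 .s1 (.nx 661 324 (.l1 (.ls 41 29
  498)) (.nr 662 1025 (.lg 2 false 1 23 23 23 1169 5040) .out))) .out) .out))) (.na 672 219 (.na
  666 217 (.lg 0 false 1 0 0 16 0 24) (.nx 671 20644 (.nr 670 16385 (.nr 667 217 .s1 (.nx 668 324
  (.l1 (.ls 29 23 486)) (.nr 669 1025 (.lg 2 false 1 23 23 19 1142 5040) .out))) .out) .out)) (.na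
  678 220 (.nx 677 20644 (.nr 676 16385 (.nr 673 219 .s1 (.nx 674 324 (.l1 (.ls 37 29 482)) (.nr
  675 1025 (.lg 2 false 1 19 19 19 1132 5040) .out))) .out) .out) (.nx 683 20644 (.nr 682 16385
  (.nr 679 220 .s1 (.nx 680 324 (.l1 (.ls 47 37 480)) (.nr 681 1025 (.lg 2 false 1 29 37 37 1127
  55440) .out))) .out) .out)))) (.na 698 231 (.na 691 227 (.na 690 225 (.nx 689 20644 (.nr 688
  16385 (.nr 685 223 .s1 (.nx 686 324 (.l1 (.ls 31 19 473)) (.nr 687 1025 (.lg 2 true 1 17 17 16
  1111 720) .out))) .out) .out) (.lg 0 false 1 0 0 16 0 24)) (.na 697 229 (.nx 696 20644 (.nr 695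
  16385 (.nr 692 227 .s1 (.nx 693 324 (.l1 (.ls 53 19 465)) (.nr 694 1025 (.lg 2 true 1 19 19 17
  1092 55440) .out))) .out) .out) (.lg 0 false 1 0 0 16 0 24))) (.na 710 233 (.na 704 232 (.nx 703
  20644 (.nr 702 16385 (.nr 699 231 .s1 (.nx 700 324 (.l1 (.ls 43 31 457)) (.nr 701 1025 (.lg 2
  true 1 29 29 29 1073 55440) .out))) .out) .out) (.nx 709 20644 (.nr 708 16385 (.nr 705 232 .s1
  (.nx 706 324 (.l1 (.ls 23 31 455)) (.nr 707 1025 (.lg 2 true 1 19 23 23 1068 720) .out))) .out)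
  .out)) (.na 711 236 (.lg 0 false 1 0 0 16 0 24) (.nx 716 20644 (.nr 715 16385 (.nr 712 236 .s1
  (.nx 713 324 (.l1 (.ls 41 29 447)) (.nr 714 1025 (.lg 2 true 1 29 29 23 1050 55440) .out))) .out)
  .out))))) (.na 755 252 (.na 731 245 (.na 724 241 (.na 723 239 (.nx 722 20644 (.nr 721 16385 (.nr
  718 237 .s1 (.nx 719 324 (.l1 (.ls 31 23 445)) (.nr 720 1025 (.lg 2 true 1 17 17 19 1046 720)
  .out))) .out) .out) (.lg 0 false 1 0 0 16 0 24)) (.na 730 243 (.nx 729 20644 (.nr 728 16385 (.nr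
  725 241 .s1 (.nx 726 324 (.l1 (.ls 31 19 438)) (.nr 727 1025 (.lg 2 true 1 17 17 17 1028 5040)
  .out))) .out) .out) (.lg 0 false 1 0 0 16 0 24))) (.na 743 249 (.na 737 248 (.nx 736 20644 (.nr
  735 16385 (.nr 732 245 .s1 (.nx 733 324 (.l1 (.ls 41 29 431)) (.nr 734 1025 (.lg 2 true 1 23 23
  23 1012 5040) .out))) .out) .out) (.nx 742 20644 (.nr 741 16385 (.nr 738 248 .s1 (.nx 739 324
  (.l1 (.ls 29 29 426)) (.nr 740 1025 (.lg 2 true 1 23 23 23 999 5040) .out))) .out) .out)) (.na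
  749 251 (.nx 748 20644 (.nr 747 16385 (.nr 744 249 .s1 (.nx 745 324 (.l1 (.ls 31 23 424)) (.nr
  746 1025 (.lg 2 true 1 19 19 19 995 55440) .out))) .out) .out) (.nx 754 20644 (.nr 753 16385 (.nr
  750 251 .s1 (.nx 751 324 (.l1 (.ls 29 19 421)) (.nr 752 1025 (.lg 2 true 1 16 16 17 987 720)
  .out))) .out) .out)))) (.na 1880 1024 (.na 757 257 (.na 756 256 (.lg 0 false 1 0 0 16 0 24) .ne)
  (.na 1040 512 (.nx 1039 20644 (.nr 1038 4097 (.nr 758 257 .s1 (.nx 783 25 (.nx 782 24 (.nr 781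
  1793 (.lx (.lp 41 17 129)) (.l1 .sk)) (.l1 .sk)) (.la (.lg 0 true 1 41 41 23 0)))) .out) .out)
  (.nx 1879 20644 (.nr 1878 8193 (.nr 1041 512 .s1 (.nx 1092 52 (.lx (.lp 47 19 257)) (.nr 1877
  4097 (.nx 1364 324 (.lx (.lp 41 23 257)) (.nr 1876 2049 (.la (.lg 2 true 1 17 17 29 1846)) .out))
  .out))) .out) .out))) (.na 2069 4096 (.na 1985 2048 (.nx 1984 103 (.nr 1983 8193 (.nr 1881 1024
  .s1 (.lx (.lp 41 23 513))) .out) .out) (.nx 2068 82 (.nr 2067 8193 (.nr 1986 2048 .s1 (.lx (.lp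
  37 29 1025))) .out) .out)) (.na 2153 8193 (.nx 2152 82 (.nr 2151 16385 (.nr 2070 4096 .s1 (.lx
  (.lp 37 37 2049))) .out) .out) .out)))))))

theorem c141 :
    OkQ ckI L9 211 1 1099511627776 0 34359738368 1 1099511627776 ∧
    OkQ ckI L9 213 1 14 0 34359738368 1 1099511627776 ∧
    OkQ ckI L3 24 1 1099511627776 0 34359738368 1 1099511627776 := by
  refine ⟨?_, ?_, ?_⟩
  · refine fin 24 18162 T141_0 ?_
    refine jn 11 (by decide +kernel) ?_
    refine jn 19 (by decide +kernel) ?_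
    refine jn 28 (by decide +kernel) ?_
    refine jn 35 (by decide +kernel) ?_
    refine jn 45 (by decide +kernel) ?_
    refine jn 53 (by decide +kernel) ?_
    refine jn 61 (by decide +kernel) ?_
    refine jn 69 (by decide +kernel) ?_
    refine jn 77 (by decide +kernel) ?_
    refine jn 95 (by decide +kernel) ?_
    refine jn 106 (by decide +kernel) ?_
    refine jn 116 (by decide +kernel) ?_
    refine jn 131 (by decide +kernel) ?_
    refine jn 152 (by decide +kernel) ?_
    refine jn 173 (by decide +kernel) ?_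
    refine jn 193 (by decide +kernel) ?_
    refine jn 212 (by decide +kernel) ?_
    refine jn 230 (by decide +kernel) ?_
    refine jn 253 (by decide +kernel) ?_
    refine jn 276 (by decide +kernel) ?_
    refine jn 277 (by decide +kernel) ?_
    refine jn 280 (by decide +kernel) ?_
    refine jn 283 (by decide +kernel) ?_
    refine jn 286 (by decide +kernel) ?_
    refine jn 288 (by decide +kernel) ?_
    refine jn 298 (by decide +kernel) ?_
    refine jn 302 (by decide +kernel) ?_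
    refine jn 307 (by decide +kernel) ?_
    refine jn 318 (by decide +kernel) ?_
    refine jn 329 (by decide +kernel) ?_
    refine jn 336 (by decide +kernel) ?_
    refine jn 347 (by decide +kernel) ?_
    refine jn 362 (by decide +kernel) ?_
    refine jn 368 (by decide +kernel) ?_
    refine jn 377 (by decide +kernel) ?_
    refine jn 386 (by decide +kernel) ?_
    refine jn 401 (by decide +kernel) ?_
    refine jn 410 (by decide +kernel) ?_
    refine jn 419 (by decide +kernel) ?_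
    refine jn 433 (by decide +kernel) ?_
    refine jn 439 (by decide +kernel) ?_
    refine jn 446 (by decide +kernel) ?_
    refine jn 458 (by decide +kernel) ?_
    refine jn 465 (by decide +kernel) ?_
    refine jn 471 (by decide +kernel) ?_
    refine jn 485 (by decide +kernel) ?_
    refine jn 501 (by decide +kernel) ?_
    refine jn 517 (by decide +kernel) ?_
    refine jn 526 (by decide +kernel) ?_
    refine jn 527 (by decide +kernel) ?_
    refine jn 528 (by decide +kernel) ?_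
    refine jn 529 (by decide +kernel) ?_
    refine jn 539 (by decide +kernel) ?_
    refine jn 542 (by decide +kernel) ?_
    refine jn 546 (by decide +kernel) ?_
    refine jn 559 (by decide +kernel) ?_
    refine jn 572 (by decide +kernel) ?_
    refine jn 586 (by decide +kernel) ?_
    refine jn 599 (by decide +kernel) ?_
    refine jn 613 (by decide +kernel) ?_
    refine jn 626 (by decide +kernel) ?_
    refine jn 637 (by decide +kernel) ?_
    refine jn 651 (by decide +kernel) ?_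
    refine jn 672 (by decide +kernel) ?_
    refine jn 684 (by decide +kernel) ?_
    refine jn 705 (by decide +kernel) ?_
    refine jn 717 (by decide +kernel) ?_
    refine jn 849 (by decide +kernel) ?_
    refine jn 857 (by decide +kernel) ?_
    refine jn 873 (by decide +kernel) ?_
    refine jn 909 (by decide +kernel) ?_
    refine jn 929 (by decide +kernel) ?_
    refine jn 963 (by decide +kernel) ?_
    refine jn 1003 (by decide +kernel) ?_
    refine jn 1035 (by decide +kernel) ?_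
    refine jn 1194 (by decide +kernel) ?_
    refine jn 1229 (by decide +kernel) ?_
    refine jn 1253 (by decide +kernel) ?_
    refine jn 1285 (by decide +kernel) ?_
    refine jn 1313 (by decide +kernel) ?_
    refine jn 1350 (by decide +kernel) ?_
    refine jn 1398 (by decide +kernel) ?_
    refine jn 1410 (by decide +kernel) ?_
    refine jn 1450 (by decide +kernel) ?_
    refine jn 1474 (by decide +kernel) ?_
    refine jn 1575 (by decide +kernel) ?_
    refine jn 1759 (by decide +kernel) ?_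
    refine jn 1775 (by decide +kernel) ?_
    refine jn 1795 (by decide +kernel) ?_
    refine jn 1807 (by decide +kernel) ?_
    refine jn 1835 (by decide +kernel) ?_
    refine jn 1867 (by decide +kernel) ?_
    refine jn 1919 (by decide +kernel) ?_
    refine jn 1963 (by decide +kernel) ?_
    refine jn 1984 (by decide +kernel) ?_
    refine jn 2008 (by decide +kernel) ?_
    refine jn 2044 (by decide +kernel) ?_
    refine jn 2080 (by decide +kernel) ?_
    refine jn 2132 (by decide +kernel) ?_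
    refine jn 2176 (by decide +kernel) ?_
    refine jn 2277 (by decide +kernel) ?_
    refine jn 2425 (by decide +kernel) ?_
    refine jn 2540 (by decide +kernel) ?_
    refine jn 2624 (by decide +kernel) ?_
    refine jn 2712 (by decide +kernel) ?_
    refine jn 2772 (by decide +kernel) ?_
    refine jn 2852 (by decide +kernel) ?_
    refine jn 2980 (by decide +kernel) ?_
    refine jn 3144 (by decide +kernel) ?_
    refine jn 3225 (by decide +kernel) ?_
    refine jn 3309 (by decide +kernel) ?_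
    refine jn 3405 (by decide +kernel) ?_
    refine jn 3545 (by decide +kernel) ?_
    refine jn 3610 (by decide +kernel) ?_
    refine jn 3733 (by decide +kernel) ?_
    refine jn 3829 (by decide +kernel) ?_
    refine jn 3921 (by decide +kernel) ?_
    refine jn 4009 (by decide +kernel) ?_
    refine jn 4125 (by decide +kernel) ?_
    refine jn 4260 (by decide +kernel) ?_
    refine jn 4356 (by decide +kernel) ?_
    refine jn 4468 (by decide +kernel) ?_
    refine jn 4660 (by decide +kernel) ?_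
    refine jn 4768 (by decide +kernel) ?_
    refine jn 4876 (by decide +kernel) ?_
    refine jn 4972 (by decide +kernel) ?_
    refine jn 5131 (by decide +kernel) ?_
    refine jn 5311 (by decide +kernel) ?_
    refine jn 5559 (by decide +kernel) ?_
    refine jn 5779 (by decide +kernel) ?_
    refine jn 5979 (by decide +kernel) ?_
    refine jn 6199 (by decide +kernel) ?_
    refine jn 6442 (by decide +kernel) ?_
    refine jn 6650 (by decide +kernel) ?_
    refine jn 6946 (by decide +kernel) ?_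
    refine jn 7234 (by decide +kernel) ?_
    refine jn 7458 (by decide +kernel) ?_
    refine jn 7674 (by decide +kernel) ?_
    refine jn 7942 (by decide +kernel) ?_
    refine jn 8425 (by decide +kernel) ?_
    refine jn 8881 (by decide +kernel) ?_
    refine jn 9313 (by decide +kernel) ?_
    refine jn 9745 (by decide +kernel) ?_
    refine jn 10193 (by decide +kernel) ?_
    refine jn 10633 (by decide +kernel) ?_
    refine jn 11177 (by decide +kernel) ?_
    refine jn 11427 (by decide +kernel) ?_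
    refine jn 11616 (by decide +kernel) ?_
    refine jn 11748 (by decide +kernel) ?_
    refine jn 11864 (by decide +kernel) ?_
    refine jn 12004 (by decide +kernel) ?_
    refine jn 12551 (by decide +kernel) ?_
    refine jn 12806 (by decide +kernel) ?_
    refine jn 12967 (by decide +kernel) ?_
    refine jn 13127 (by decide +kernel) ?_
    refine jn 13246 (by decide +kernel) ?_
    refine jn 13752 (by decide +kernel) ?_
    refine jn 13944 (by decide +kernel) ?_
    refine jn 14126 (by decide +kernel) ?_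
    refine jn 14279 (by decide +kernel) ?_
    refine jn 14404 (by decide +kernel) ?_
    refine jn 14505 (by decide +kernel) ?_
    refine jn 15010 (by decide +kernel) ?_
    refine jn 15316 (by decide +kernel) ?_
    refine jn 15535 (by decide +kernel) ?_
    refine jn 15726 (by decide +kernel) ?_
    refine jn 16166 (by decide +kernel) ?_
    refine jn 16640 (by decide +kernel) ?_
    refine jn 16892 (by decide +kernel) ?_
    refine jn 17105 (by decide +kernel) ?_
    refine jn 18001 (by decide +kernel) ?_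
    exact je (by decide +kernel)
  · refine fin 1704 830 T141_1 ?_
    refine jn 7 (by decide +kernel) ?_
    refine jn 11 (by decide +kernel) ?_
    refine jn 16 (by decide +kernel) ?_
    refine jn 20 (by decide +kernel) ?_
    refine jn 22 (by decide +kernel) ?_
    refine jn 29 (by decide +kernel) ?_
    refine jn 33 (by decide +kernel) ?_
    refine jn 40 (by decide +kernel) ?_
    refine jn 42 (by decide +kernel) ?_
    refine jn 49 (by decide +kernel) ?_
    refine jn 51 (by decide +kernel) ?_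
    refine jn 55 (by decide +kernel) ?_
    refine jn 58 (by decide +kernel) ?_
    refine jn 66 (by decide +kernel) ?_
    refine jn 75 (by decide +kernel) ?_
    refine jn 84 (by decide +kernel) ?_
    refine jn 93 (by decide +kernel) ?_
    refine jn 102 (by decide +kernel) ?_
    refine jn 111 (by decide +kernel) ?_
    refine jn 113 (by decide +kernel) ?_
    refine jn 136 (by decide +kernel) ?_
    refine jn 161 (by decide +kernel) ?_
    refine jn 168 (by decide +kernel) ?_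
    refine jn 188 (by decide +kernel) ?_
    refine jn 210 (by decide +kernel) ?_
    refine jn 230 (by decide +kernel) ?_
    refine jn 248 (by decide +kernel) ?_
    refine jn 265 (by decide +kernel) ?_
    refine jn 282 (by decide +kernel) ?_
    refine jn 310 (by decide +kernel) ?_
    refine jn 331 (by decide +kernel) ?_
    refine jn 355 (by decide +kernel) ?_
    refine jn 368 (by decide +kernel) ?_
    refine jn 380 (by decide +kernel) ?_
    refine jn 387 (by decide +kernel) ?_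
    refine jn 393 (by decide +kernel) ?_
    refine jn 400 (by decide +kernel) ?_
    refine jn 407 (by decide +kernel) ?_
    refine jn 414 (by decide +kernel) ?_
    refine jn 421 (by decide +kernel) ?_
    refine jn 428 (by decide +kernel) ?_
    refine jn 442 (by decide +kernel) ?_
    refine jn 465 (by decide +kernel) ?_
    refine jn 478 (by decide +kernel) ?_
    refine jn 488 (by decide +kernel) ?_
    refine jn 508 (by decide +kernel) ?_
    refine jn 527 (by decide +kernel) ?_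
    refine jn 543 (by decide +kernel) ?_
    refine jn 566 (by decide +kernel) ?_
    refine jn 579 (by decide +kernel) ?_
    refine jn 596 (by decide +kernel) ?_
    refine jn 617 (by decide +kernel) ?_
    refine jn 640 (by decide +kernel) ?_
    refine jn 663 (by decide +kernel) ?_
    refine jn 676 (by decide +kernel) ?_
    refine jn 690 (by decide +kernel) ?_
    refine jn 706 (by decide +kernel) ?_
    refine jn 719 (by decide +kernel) ?_
    refine jn 737 (by decide +kernel) ?_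
    refine jn 768 (by decide +kernel) ?_
    refine jn 779 (by decide +kernel) ?_
    refine jn 793 (by decide +kernel) ?_
    refine jn 826 (by decide +kernel) ?_
    exact je (by decide +kernel)
  · refine fin 24 2154 T141_2 ?_
    refine jn 3 (by decide +kernel) ?_
    refine jn 4 (by decide +kernel) ?_
    refine jn 5 (by decide +kernel) ?_
    refine jn 6 (by decide +kernel) ?_
    refine jn 7 (by decide +kernel) ?_
    refine jn 8 (by decide +kernel) ?_
    refine jn 9 (by decide +kernel) ?_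
    refine jn 10 (by decide +kernel) ?_
    refine jn 11 (by decide +kernel) ?_
    refine jn 12 (by decide +kernel) ?_
    refine jn 13 (by decide +kernel) ?_
    refine jn 14 (by decide +kernel) ?_
    refine jn 15 (by decide +kernel) ?_
    refine jn 16 (by decide +kernel) ?_
    refine jn 17 (by decide +kernel) ?_
    refine jn 22 (by decide +kernel) ?_
    refine jn 25 (by decide +kernel) ?_
    refine jn 28 (by decide +kernel) ?_
    refine jn 31 (by decide +kernel) ?_
    refine jn 36 (by decide +kernel) ?_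
    refine jn 40 (by decide +kernel) ?_
    refine jn 44 (by decide +kernel) ?_
    refine jn 66 (by decide +kernel) ?_
    refine jn 73 (by decide +kernel) ?_
    refine jn 74 (by decide +kernel) ?_
    refine jn 75 (by decide +kernel) ?_
    refine jn 76 (by decide +kernel) ?_
    refine jn 77 (by decide +kernel) ?_
    refine jn 78 (by decide +kernel) ?_
    refine jn 82 (by decide +kernel) ?_
    refine jn 86 (by decide +kernel) ?_
    refine jn 91 (by decide +kernel) ?_
    refine jn 102 (by decide +kernel) ?_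
    refine jn 103 (by decide +kernel) ?_
    refine jn 104 (by decide +kernel) ?_
    refine jn 105 (by decide +kernel) ?_
    refine jn 106 (by decide +kernel) ?_
    refine jn 107 (by decide +kernel) ?_
    refine jn 121 (by decide +kernel) ?_
    refine jn 122 (by decide +kernel) ?_
    refine jn 123 (by decide +kernel) ?_
    refine jn 124 (by decide +kernel) ?_
    refine jn 125 (by decide +kernel) ?_
    refine jn 126 (by decide +kernel) ?_
    refine jn 127 (by decide +kernel) ?_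
    refine jn 128 (by decide +kernel) ?_
    refine jn 129 (by decide +kernel) ?_
    refine jn 130 (by decide +kernel) ?_
    refine jn 131 (by decide +kernel) ?_
    refine jn 132 (by decide +kernel) ?_
    refine jn 133 (by decide +kernel) ?_
    refine jn 141 (by decide +kernel) ?_
    refine jn 142 (by decide +kernel) ?_
    refine jn 143 (by decide +kernel) ?_
    refine jn 144 (by decide +kernel) ?_
    refine jn 145 (by decide +kernel) ?_
    refine jn 146 (by decide +kernel) ?_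
    refine jn 147 (by decide +kernel) ?_
    refine jn 148 (by decide +kernel) ?_
    refine jn 149 (by decide +kernel) ?_
    refine jn 150 (by decide +kernel) ?_
    refine jn 151 (by decide +kernel) ?_
    refine jn 152 (by decide +kernel) ?_
    refine jn 153 (by decide +kernel) ?_
    refine jn 154 (by decide +kernel) ?_
    refine jn 155 (by decide +kernel) ?_
    refine jn 156 (by decide +kernel) ?_
    refine jn 168 (by decide +kernel) ?_
    refine jn 169 (by decide +kernel) ?_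
    refine jn 170 (by decide +kernel) ?_
    refine jn 171 (by decide +kernel) ?_
    refine jn 172 (by decide +kernel) ?_
    refine jn 173 (by decide +kernel) ?_
    refine jn 174 (by decide +kernel) ?_
    refine jn 175 (by decide +kernel) ?_
    refine jn 176 (by decide +kernel) ?_
    refine jn 177 (by decide +kernel) ?_
    refine jn 178 (by decide +kernel) ?_
    refine jn 185 (by decide +kernel) ?_
    refine jn 186 (by decide +kernel) ?_
    refine jn 188 (by decide +kernel) ?_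
    refine jn 189 (by decide +kernel) ?_
    refine jn 190 (by decide +kernel) ?_
    refine jn 191 (by decide +kernel) ?_
    refine jn 192 (by decide +kernel) ?_
    refine jn 194 (by decide +kernel) ?_
    refine jn 195 (by decide +kernel) ?_
    refine jn 197 (by decide +kernel) ?_
    refine jn 198 (by decide +kernel) ?_
    refine jn 199 (by decide +kernel) ?_
    refine jn 209 (by decide +kernel) ?_
    refine jn 211 (by decide +kernel) ?_
    refine jn 212 (by decide +kernel) ?_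
    refine jn 213 (by decide +kernel) ?_
    refine jn 214 (by decide +kernel) ?_
    refine jn 216 (by decide +kernel) ?_
    refine jn 217 (by decide +kernel) ?_
    refine jn 220 (by decide +kernel) ?_
    refine jn 228 (by decide +kernel) ?_
    refine jn 229 (by decide +kernel) ?_
    refine jn 230 (by decide +kernel) ?_
    refine jn 232 (by decide +kernel) ?_
    refine jn 234 (by decide +kernel) ?_
    refine jn 237 (by decide +kernel) ?_
    refine jn 245 (by decide +kernel) ?_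
    refine jn 246 (by decide +kernel) ?_
    refine jn 247 (by decide +kernel) ?_
    refine jn 249 (by decide +kernel) ?_
    refine jn 251 (by decide +kernel) ?_
    refine jn 260 (by decide +kernel) ?_
    refine jn 261 (by decide +kernel) ?_
    refine jn 262 (by decide +kernel) ?_
    refine jn 263 (by decide +kernel) ?_
    refine jn 264 (by decide +kernel) ?_
    refine jn 272 (by decide +kernel) ?_
    refine jn 273 (by decide +kernel) ?_
    refine jn 274 (by decide +kernel) ?_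
    refine jn 275 (by decide +kernel) ?_
    refine jn 282 (by decide +kernel) ?_
    refine jn 283 (by decide +kernel) ?_
    refine jn 285 (by decide +kernel) ?_
    refine jn 290 (by decide +kernel) ?_
    refine jn 291 (by decide +kernel) ?_
    refine jn 292 (by decide +kernel) ?_
    refine jn 299 (by decide +kernel) ?_
    refine jn 300 (by decide +kernel) ?_
    refine jn 301 (by decide +kernel) ?_
    refine jn 302 (by decide +kernel) ?_
    refine jn 303 (by decide +kernel) ?_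
    refine jn 309 (by decide +kernel) ?_
    refine jn 315 (by decide +kernel) ?_
    refine jn 317 (by decide +kernel) ?_
    refine jn 324 (by decide +kernel) ?_
    refine jn 325 (by decide +kernel) ?_
    refine jn 330 (by decide +kernel) ?_
    refine jn 331 (by decide +kernel) ?_
    refine jn 332 (by decide +kernel) ?_
    refine jn 337 (by decide +kernel) ?_
    refine jn 338 (by decide +kernel) ?_
    refine jn 339 (by decide +kernel) ?_
    refine jn 343 (by decide +kernel) ?_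
    refine jn 344 (by decide +kernel) ?_
    refine jn 345 (by decide +kernel) ?_
    refine jn 352 (by decide +kernel) ?_
    refine jn 362 (by decide +kernel) ?_
    refine jn 363 (by decide +kernel) ?_
    refine jn 364 (by decide +kernel) ?_
    refine jn 369 (by decide +kernel) ?_
    refine jn 370 (by decide +kernel) ?_
    refine jn 380 (by decide +kernel) ?_
    refine jn 381 (by decide +kernel) ?_
    refine jn 382 (by decide +kernel) ?_
    refine jn 397 (by decide +kernel) ?_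
    refine jn 403 (by decide +kernel) ?_
    refine jn 411 (by decide +kernel) ?_
    refine jn 422 (by decide +kernel) ?_
    refine jn 424 (by decide +kernel) ?_
    refine jn 434 (by decide +kernel) ?_
    refine jn 436 (by decide +kernel) ?_
    refine jn 448 (by decide +kernel) ?_
    refine jn 455 (by decide +kernel) ?_
    refine jn 467 (by decide +kernel) ?_
    refine jn 473 (by decide +kernel) ?_
    refine jn 486 (by decide +kernel) ?_
    refine jn 497 (by decide +kernel) ?_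
    refine jn 506 (by decide +kernel) ?_
    refine jn 524 (by decide +kernel) ?_
    refine jn 538 (by decide +kernel) ?_
    refine jn 539 (by decide +kernel) ?_
    refine jn 544 (by decide +kernel) ?_
    refine jn 558 (by decide +kernel) ?_
    refine jn 581 (by decide +kernel) ?_
    refine jn 595 (by decide +kernel) ?_
    refine jn 615 (by decide +kernel) ?_
    refine jn 643 (by decide +kernel) ?_
    refine jn 661 (by decide +kernel) ?_
    refine jn 679 (by decide +kernel) ?_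
    refine jn 687 (by decide +kernel) ?_
    refine jn 712 (by decide +kernel) ?_
    refine jn 734 (by decide +kernel) ?_
    refine jn 790 (by decide +kernel) ?_
    refine jn 801 (by decide +kernel) ?_
    refine jn 806 (by decide +kernel) ?_
    refine jn 817 (by decide +kernel) ?_
    refine jn 826 (by decide +kernel) ?_
    refine jn 834 (by decide +kernel) ?_
    refine jn 837 (by decide +kernel) ?_
    refine jn 858 (by decide +kernel) ?_
    refine jn 874 (by decide +kernel) ?_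
    refine jn 897 (by decide +kernel) ?_
    refine jn 911 (by decide +kernel) ?_
    refine jn 915 (by decide +kernel) ?_
    refine jn 935 (by decide +kernel) ?_
    refine jn 946 (by decide +kernel) ?_
    refine jn 954 (by decide +kernel) ?_
    refine jn 966 (by decide +kernel) ?_
    refine jn 983 (by decide +kernel) ?_
    refine jn 1010 (by decide +kernel) ?_
    refine jn 1031 (by decide +kernel) ?_
    refine jn 1114 (by decide +kernel) ?_
    refine jn 1209 (by decide +kernel) ?_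
    refine jn 1278 (by decide +kernel) ?_
    refine jn 1316 (by decide +kernel) ?_
    refine jn 1350 (by decide +kernel) ?_
    refine jn 1387 (by decide +kernel) ?_
    refine jn 1432 (by decide +kernel) ?_
    refine jn 1448 (by decide +kernel) ?_
    refine jn 1468 (by decide +kernel) ?_
    refine jn 1487 (by decide +kernel) ?_
    refine jn 1512 (by decide +kernel) ?_
    refine jn 1544 (by decide +kernel) ?_
    refine jn 1573 (by decide +kernel) ?_
    refine jn 1605 (by decide +kernel) ?_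
    refine jn 1648 (by decide +kernel) ?_
    refine jn 1676 (by decide +kernel) ?_
    refine jn 1717 (by decide +kernel) ?_
    refine jn 1743 (by decide +kernel) ?_
    refine jn 1776 (by decide +kernel) ?_
    refine jn 1813 (by decide +kernel) ?_
    refine jn 1847 (by decide +kernel) ?_
    refine jn 1871 (by decide +kernel) ?_
    refine jn 2070 (by decide +kernel) ?_
    exact je (by decide +kernel)

end Pool.Agent.MP_2339ce_nt.NR
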