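import Pool.Agent.MP_2339ce_nt.Q2.NC.L3
import Pool.Agent.MP_2339ce_nt.Q2.NC.L6
import Pool.Agent.MP_2339ce_nt.Q2.NC.L9
import Pool.Agent.MP_2339ce_nt.Q2.CkI

/-! Block NR: runs. -/

set_option autoImplicit false
set_option maxRecDepth 100000

noncomputable section

namespace Pool.Agent.MP_2339ce_nt.NR

open Q2.Top

def T142_0 : Ph :=
  (.na 597 152 (.na 379 79 (.na 216 44 (.na 123 32 (.na 83 23 (.na 28 19 (.nx 27 1321124 (.nr 26
  1048577 (.nr 1 13 .s1 (.nx 4 128 (.nx 3 127 (.nr 2 152 (.lg 0 true 1 23 23 11 0 18288) (.l1 .sk))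
  (.l1 .sk)) (.nx 7 324 (.nx 5 205 (.l1 (.ls 79 31 1511)) (.nr 6 623489 (.l1 (.ls 73 37 3706))
  .out)) (.nr 25 220437 (.nr 23 131073 (.nx 12 16385 (.lg 0 false 5 89 89 16 0 91440) (.nr 22 46342
  (.nr 17 498 (.lg 0 true 5 73 73 16 0 15240) (.nx 21 165142 (.lg 2 false 4 83 83 16 22873 6096)
  .out)) .out)) (.nx 24 814 (.lg 0 true 1 71 71 11 0 3048) .out)) .out)))) .out) .out) (.na 58 22
  (.nx 57 1321124 (.nr 56 1048577 (.nr 29 16 .s1 (.nx 32 128 (.nx 31 127 (.nr 30 176 (.lg 0 true 1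
  29 29 11 0 91440) (.l1 .sk)) (.l1 .sk)) (.nx 33 324 (.l1 (.ls 79 41 4665)) (.nr 55 220437 (.nr 53
  131073 (.nx 40 16385 (.lg 0 false 7 89 97 16 0 640080) (.nr 52 46342 (.nr 47 498 (.lg 0 true 7 73
  73 16 0 21336) (.nx 51 165142 (.lg 2 false 4 83 83 16 22873 30480) .out)) .out)) (.nx 54 814 (.lg
  0 true 1 71 71 11 0 3048) .out)) .out)))) .out) .out) (.nx 82 1321124 (.nr 81 1048577 (.nr 59 19
  .s1 (.nx 63 324 (.nx 61 127 (.nr 60 184 (.lg 0 true 1 17 17 9 0 67056) (.l1 .sk)) (.nx 62 128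
  (.l1 .sk) (.l1 (.ls 73 43 4029)))) (.nr 80 220437 (.nx 68 16385 (.lg 0 false 5 83 83 19 0 335280)
  (.nr 79 46342 (.nr 73 501 (.lg 0 true 5 71 71 19 0 335280) (.nx 78 165142 (.lg 2 false 5 79 79 19
  22873 335280) .out)) .out)) .out))) .out) .out))) (.na 84 26 .ne (.na 106 31 (.nx 105 1321124
  (.nr 104 1048577 (.nr 85 24 .s1 (.nx 87 127 (.nr 86 248 (.l1 (.ls 23 37 623)) (.l1 .sk)) (.nx 88
  128 (.l1 .sk) (.nx 89 205 (.l1 (.ls 79 37 989)) (.nr 103 185365 (.nx 92 16385 (.lg 0 false 3 89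
  89 11 0 1188720) (.nr 102 38969 (.nr 99 513 (.lg 0 true 7 73 73 19 0 554736) (.nx 101 82572 (.lg
  2 false 2 79 79 11 19244 79248) .out)) .out)) .out))))) .out) .out) (.nx 122 1321124 (.nr 121
  1048577 (.nr 107 29 .s1 (.nx 113 16385 (.nx 108 205 (.l1 (.ls 79 29 1358)) (.nr 112 185365 (.lg 0
  false 4 89 89 16 0 335280) .out)) (.nr 120 38969 (.nr 117 513 (.lg 0 true 4 71 71 16 0 6096) (.nx
  119 82572 (.lg 2 false 2 79 79 16 19244 6096) .out)) .out))) .out) .out)))) (.na 164 37 (.na 146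
  33 (.nx 145 1321124 (.nr 144 1048577 (.nr 124 30 .s1 (.nx 134 10323 (.nx 126 127 (.nr 125 264
  (.l1 (.ls 23 29 507)) (.l1 .sk)) (.nx 127 128 (.l1 .sk) (.nx 128 205 (.l1 (.ls 73 31 804)) (.nr
  133 370729 (.lg 0 false 5 79 83 19 0 30480) .out)))) (.nr 143 55110 (.nr 139 513 (.lg 0 true 5 71
  71 19 0 30480) (.nx 142 82572 (.nx 140 26009 (.lg 1 false 1 83 83 13 43155 6096) (.nr 141 32769
  (.lg 1 true 1 79 79 13 10221 6096) .out)) .out)) .out))) .out) .out) (.na 147 34 .ne (.nx 163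
  1321124 (.nr 162 370729 (.nr 148 33 .s1 (.nx 154 13005 (.nx 150 127 (.nr 149 296 (.l1 (.ls 16 31
  477)) (.l1 .sk)) (.nx 151 128 (.l1 .sk) (.lg 0 false 3 89 89 13 0 91440))) (.nr 161 23172 (.nr
  159 296 (.lg 0 true 5 67 67 13 0 30480) (.nx 160 82572 (.lg 2 true 1 79 79 13 17714 30480) .out))
  .out))) .out) .out))) (.na 182 38 (.nx 181 1321124 (.nr 180 370729 (.nr 165 36 .s1 (.nx 173 13005
  (.nx 167 127 (.nr 166 304 (.l1 (.ls 16 19 438)) (.l1 .sk)) (.nx 168 128 (.l1 .sk) (.lg 0 false 5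
  83 83 16 0 91440))) (.nr 179 23172 (.nr 176 217 (.lg 0 true 3 61 61 16 0 9144) (.nx 178 82572
  (.lg 2 true 2 73 73 16 24163 6096) .out)) .out))) .out) .out) (.na 199 41 (.nx 198 1321124 (.nr
  197 370729 (.nr 183 37 .s1 (.nx 185 127 (.nr 184 328 (.l1 (.ls 17 31 427)) (.l1 .sk)) (.nx 186
  128 (.l1 .sk) (.nx 191 13005 (.lg 0 false 5 83 83 17 0 30480) (.nr 196 23172 (.nr 194 328 (.lg 0
  true 3 67 67 13 0 18288) (.nx 195 82572 (.lg 2 true 1 79 79 13 15986 42672) .out)) .out)))))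
  .out) .out) (.nx 215 1321124 (.nr 214 370729 (.nr 200 40 .s1 (.nx 207 13005 (.nx 202 127 (.nr 201
  352 (.l1 (.ls 17 19 396)) (.l1 .sk)) (.nx 203 128 (.l1 .sk) (.lg 0 false 4 83 83 16 0 30480)))
  (.nr 213 23172 (.nr 211 352 (.lg 0 true 4 67 67 16 0 6096) (.nx 212 82572 (.lg 2 true 1 73 73 16
  14896 3048) .out)) .out))) .out) .out))))) (.na 290 64 (.na 247 52 (.na 231 46 (.nx 230 1321124
  (.nr 229 370729 (.nr 217 43 .s1 (.nx 223 13005 (.nx 219 127 (.nr 218 368 (.l1 (.ls 29 31 369))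
  (.l1 .sk)) (.nx 220 128 (.l1 .sk) (.lg 0 false 3 89 89 23 0 1005840))) (.nr 228 23172 (.nr 226
  368 (.lg 0 true 3 71 71 23 0 201168) (.nx 227 82572 (.lg 2 true 1 79 79 19 14449 335280) .out))
  .out))) .out) .out) (.na 232 47 .ne (.nx 246 1321124 (.nr 245 311745 (.nr 233 46 .s1 (.nx 239
  10323 (.nx 235 127 (.nr 234 416 (.l1 (.ls 16 19 346)) (.l1 .sk)) (.nx 236 128 (.l1 .sk) (.lg 0
  false 3 79 79 16 0 9144))) (.nr 244 23172 (.nr 242 217 (.lg 0 true 3 59 59 16 0 9144) (.nx 243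
  82572 (.lg 2 false 1 73 73 16 24163 6096) .out)) .out))) .out) .out))) (.na 261 61 (.nx 260
  1321124 (.nr 259 311745 (.nr 248 51 .s1 (.nx 251 128 (.nx 250 127 (.nr 249 487 (.l1 (.ls 29 31
  313)) (.l1 .sk)) (.l1 .sk)) (.nx 254 10323 (.lg 0 false 3 83 83 23 0 237744) (.nr 258 23172 (.nx
  255 82572 (.lg 0 false 1 83 83 19 0 79248) (.nr 257 217 (.lg 0 true 2 67 67 23 0 79248) .out))
  .out)))) .out) .out) (.na 275 62 (.nx 274 1321124 (.nr 273 311745 (.nr 262 60 .s1 (.nx 268 10323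
  (.nx 264 127 (.nr 263 495 (.l1 (.ls 16 17 267)) (.l1 .sk)) (.nx 265 128 (.l1 .sk) (.lg 0 false 3
  73 73 16 0 9144))) (.nr 272 23172 (.nr 270 217 (.lg 0 true 2 53 53 16 0 6096) (.nx 271 82572 (.lg
  2 false 1 71 71 16 24163 3048) .out)) .out))) .out) .out) (.nx 289 1321124 (.nr 288 311745 (.nr
  276 61 .s1 (.nx 282 10323 (.nx 278 127 (.nr 277 511 (.l1 (.ls 17 23 263)) (.l1 .sk)) (.nx 279 128
  (.l1 .sk) (.lg 0 false 3 79 79 19 0 18288))) (.nr 287 23172 (.nr 285 511 (.lg 0 true 3 61 61 19 0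
  18288) (.nx 286 82572 (.lg 2 true 1 71 71 13 18203 6096) .out)) .out))) .out) .out)))) (.na 321
  71 (.na 306 65 (.nx 305 1321124 (.nr 304 524289 (.nr 291 64 .s1 (.nx 301 82572 (.nr 293 13779
  (.nx 292 1289 (.l1 (.ls 47 53 25964)) (.lg 0 false 1 79 79 17 0 6096)) (.nx 295 128 (.nx 294 127
  (.l1 .sk) (.l1 .sk)) (.nx 300 20644 (.nx 298 8193 (.lg 0 false 3 83 89 23 0 1005840) (.nr 299
  46342 (.lg 0 true 1 71 71 17 0 6096) .out)) .out))) (.nr 303 513 (.lg 0 true 2 71 71 19 0 6096)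
  .out))) .out) .out) (.na 307 68 .ne (.nx 320 1321124 (.nr 319 524289 (.nr 308 68 .s1 (.nx 314
  8193 (.nx 310 127 (.nr 309 567 (.l1 (.ls 16 29 240)) (.l1 .sk)) (.nx 311 128 (.l1 .sk) (.lg 0
  false 3 79 83 29 0 18288))) (.nr 318 8193 (.nr 316 513 (.lg 0 true 2 67 67 23 0 6096) (.nx 317
  82572 (.lg 2 false 1 61 61 13 10221 6096) .out)) .out))) .out) .out))) (.na 351 74 (.na 336 73
  (.nx 335 1321124 (.nr 334 524289 (.nr 322 71 .s1 (.nx 328 8193 (.nx 324 127 (.nr 323 583 (.l1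
  (.ls 17 17 230)) (.l1 .sk)) (.nx 325 128 (.l1 .sk) (.lg 0 false 3 79 79 16 0 9144))) (.nr 333
  8193 (.nr 331 513 (.lg 0 true 3 59 59 16 0 9144) (.nx 332 82572 (.lg 2 true 1 53 53 16 10221
  3048) .out)) .out))) .out) .out) (.nx 350 1321124 (.nr 349 524289 (.nr 337 73 .s1 (.nx 340 128
  (.nx 339 127 (.nr 338 591 (.l1 (.ls 16 17 223)) (.l1 .sk)) (.l1 .sk)) (.nx 343 8193 (.lg 0 false
  3 71 71 16 0 9144) (.nr 348 8193 (.nr 346 513 (.lg 0 true 3 59 59 16 0 9144) (.nx 347 82572 (.lg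
  2 false 1 53 53 16 10221 3048) .out)) .out)))) .out) .out)) (.na 366 76 (.nx 365 1321124 (.nr 364
  524289 (.nr 352 74 .s1 (.nx 354 127 (.nr 353 607 (.l1 (.ls 17 23 220)) (.l1 .sk)) (.nx 355 128
  (.l1 .sk) (.nx 358 8193 (.lg 0 false 3 79 79 19 0 18288) (.nr 363 8193 (.nr 361 607 (.lg 0 true 3
  67 67 19 0 18288) (.nx 362 82572 (.lg 2 false 1 59 59 13 8639 6096) .out)) .out))))) .out) .out)
  (.nx 378 1321124 (.nr 377 524289 (.nr 367 76 .s1 (.nx 372 8193 (.nx 369 127 (.nr 368 631 (.l1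
  (.ls 17 29 215)) (.l1 .sk)) (.nx 370 128 (.l1 .sk) (.lg 0 false 2 83 83 23 0 30480))) (.nr 376
  8193 (.nr 374 513 (.lg 0 true 2 71 71 23 0 6096) (.nx 375 82572 (.lg 2 true 1 61 61 17 10221
  6096) .out)) .out))) .out) .out)))))) (.na 512 127 (.na 444 104 (.na 419 91 (.na 393 82 (.nx 392
  1321124 (.nr 391 524289 (.nr 380 79 .s1 (.nx 383 128 (.nx 382 127 (.nr 381 655 (.l1 (.ls 17 17
  207)) (.l1 .sk)) (.l1 .sk)) (.nx 386 8193 (.lg 0 false 3 73 73 16 0 9144) (.nr 390 8193 (.nr 388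
  513 (.lg 0 true 2 59 59 16 0 6096) (.nx 389 82572 (.lg 2 false 1 53 53 16 10221 3048) .out))
  .out)))) .out) .out) (.na 408 88 (.nx 407 1321124 (.nr 406 524289 (.nr 394 82 .s1 (.nx 397 128
  (.nx 396 127 (.nr 395 703 (.l1 (.ls 16 23 199)) (.l1 .sk)) (.l1 .sk)) (.nx 400 8193 (.lg 0 false
  3 73 73 19 0 18288) (.nr 405 8193 (.nr 403 703 (.lg 0 true 3 61 61 19 0 18288) (.nx 404 82572
  (.lg 2 true 1 53 53 13 8191 6096) .out)) .out)))) .out) .out) (.nx 418 1321124 (.nr 417 524289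
  (.nr 409 88 .s1 (.nx 412 128 (.nx 411 127 (.nr 410 727 (.l1 (.ls 31 29 186)) (.l1 .sk)) (.l1
  .sk)) (.nx 415 82572 (.nx 413 8193 (.lg 0 false 1 83 83 29 0 67056) (.nr 414 8193 (.lg 0 true 1
  73 79 29 0 67056) .out)) (.nr 416 513 (.lg 0 true 1 71 71 29 0 67056) .out)))) .out) .out))) (.na
  420 94 .ne (.na 432 103 (.nx 431 1321124 (.nr 430 524289 (.nr 421 94 .s1 (.nx 425 8193 (.nx 423
  127 (.nr 422 823 (.l1 (.ls 17 23 174)) (.l1 .sk)) (.nx 424 128 (.l1 .sk) (.lg 0 true 1 83 83 17 0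
  30480))) (.nr 429 8193 (.nr 427 513 (.lg 0 true 2 61 61 19 0 6096) (.nx 428 82572 (.lg 2 false 1
  59 59 17 10221 6096) .out)) .out))) .out) .out) (.nx 443 1321124 (.nr 442 524289 (.nr 433 103 .s1
  (.nx 435 127 (.nr 434 831 (.l1 (.ls 16 17 159)) (.l1 .sk)) (.nx 436 128 (.l1 .sk) (.nx 437 8193
  (.lg 0 true 1 71 71 16 0 3048) (.nr 441 8193 (.nr 439 513 (.lg 0 true 2 53 53 16 0 6096) (.nx 440
  82572 (.lg 2 false 1 43 43 16 10221 3048) .out)) .out))))) .out) .out)))) (.na 478 121 (.na 455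
  107 (.nx 454 1321124 (.nr 453 524289 (.nr 445 104 .s1 (.nx 451 82572 (.nx 449 8193 (.nx 447 127
  (.nr 446 855 (.l1 (.ls 31 29 158)) (.l1 .sk)) (.nx 448 128 (.l1 .sk) (.lg 0 false 1 89 89 29 0
  396240))) (.nr 450 8193 (.lg 0 true 1 73 79 29 0 396240) .out)) (.nr 452 513 (.lg 0 true 1 71 71
  29 0 79248) .out))) .out) .out) (.na 467 113 (.nx 466 1321124 (.nr 465 524289 (.nr 456 107 .s1
  (.nx 459 128 (.nx 458 127 (.nr 457 903 (.l1 (.ls 16 17 153)) (.l1 .sk)) (.l1 .sk)) (.nx 460 8193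
  (.lg 0 true 1 73 73 16 0 3048) (.nr 464 8193 (.nr 462 513 (.lg 0 true 2 53 53 16 0 6096) (.nx 463
  82572 (.lg 2 false 1 47 47 16 10221 6096) .out)) .out)))) .out) .out) (.nx 477 1321124 (.nr 476
  524289 (.nr 468 113 .s1 (.nx 472 8193 (.nx 470 127 (.nr 469 967 (.l1 (.ls 16 17 145)) (.l1 .sk))
  (.nx 471 128 (.l1 .sk) (.lg 0 true 1 71 71 16 0 3048))) (.nr 475 8193 (.nr 473 513 (.lg 0 false 1
  59 59 16 0 3048) (.nx 474 82572 (.lg 2 false 1 43 43 16 10221 3048) .out)) .out))) .out) .out)))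
  (.na 489 122 (.nx 488 1321124 (.nr 487 524289 (.nr 479 121 .s1 (.nx 482 128 (.nx 481 127 (.nr 480
  975 (.l1 (.ls 17 17 136)) (.l1 .sk)) (.l1 .sk)) (.nx 483 8193 (.lg 0 true 1 73 73 17 0 33528)
  (.nr 486 8193 (.nr 484 513 (.lg 2 false 1 59 59 17 693318 33528) (.nx 485 82572 (.lg 2 false 1 47
  47 17 10221 33528) .out)) .out)))) .out) .out) (.na 501 124 (.nx 500 1321124 (.nr 499 524289 (.nr
  490 122 .s1 (.nx 492 127 (.nr 491 991 (.l1 (.ls 16 23 135)) (.l1 .sk)) (.nx 493 128 (.l1 .sk)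
  (.nx 495 8193 (.lg 0 false 2 71 71 19 0 6096) (.nr 498 8193 (.nr 496 513 (.lg 0 false 1 67 67 19
  0 6096) (.nx 497 82572 (.lg 2 false 1 47 47 19 10221 6096) .out)) .out))))) .out) .out) (.nx 511
  1321124 (.nr 510 524289 (.nr 502 124 .s1 (.nx 506 8193 (.nx 504 127 (.nr 503 1014 (.l1 (.ls 19 23
  133)) (.l1 .sk)) (.nx 505 128 (.l1 .sk) (.lg 0 false 1 79 79 19 0 6096))) (.nr 509 8193 (.nr 507
  513 (.lg 0 true 1 67 67 19 0 6096) (.nx 508 82572 (.lg 2 false 1 59 59 19 10221 6096) .out))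
  .out))) .out) .out))))) (.na 555 139 (.na 536 131 (.na 525 128 (.nx 524 1321124 (.nr 523 524289
  (.nr 513 127 .s1 (.nx 515 127 (.nr 514 1022 (.l1 (.ls 16 16 129)) (.l1 .sk)) (.nx 516 128 (.l1
  .sk) (.nr 519 8193 (.lg 0 false 3 67 67 16 0 9144) (.nx 522 8193 (.lg 0 true 3 61 61 16 0 18288)
  .out))))) .out) .out) (.na 535 129 (.nx 534 1321124 (.nr 533 1048577 (.nr 526 128 .s1 (.nx 527
  205 (.l1 (.ls 67 29 331)) (.nr 532 524289 (.nx 528 8193 (.lg 0 false 1 71 71 19 0 6096) (.nr 531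
  8193 (.nr 529 1025 (.lg 0 true 1 61 61 19 0 6096) (.nx 530 82572 (.lg 2 true 1 47 47 19 8191
  6096) .out)) .out)) .out))) .out) .out) .ne)) (.na 544 136 (.nx 543 660563 (.nr 542 1048577 (.nr
  537 131 .s1 (.nx 538 205 (.l1 (.ls 61 19 323)) (.nr 541 524289 (.nr 539 8193 (.lg 0 false 1 73 73
  16 0 30480) (.nx 540 6503 (.lg 0 true 1 71 71 16 0 3048) .out)) .out))) .out) .out) (.na 554 137
  (.nx 553 660563 (.nr 552 1048577 (.nr 545 136 .s1 (.nx 548 6503 (.nx 546 205 (.l1 (.ls 79 31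
  312)) (.nr 547 524289 (.lg 0 false 1 83 83 29 0 6096) .out)) (.nr 551 8193 (.nx 549 82572 (.lg 0
  true 1 79 79 29 0 91440) (.nr 550 1025 (.lg 0 true 1 73 73 29 0 6096) .out)) .out))) .out) .out)
  (.lg 0 false 1 0 0 16 0 24)))) (.na 572 146 (.na 556 142 (.lg 0 false 1 0 0 16 0 24) (.na 564 143
  (.nx 563 660563 (.nr 562 1048577 (.nr 557 142 .s1 (.nx 558 205 (.l1 (.ls 59 29 298)) (.nr 561
  524289 (.nr 559 8193 (.lg 0 false 1 73 73 19 0 6096) (.nx 560 6503 (.lg 0 true 1 73 73 19 0 6096)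
  .out)) .out))) .out) .out) (.nx 571 660563 (.nr 570 1048577 (.nr 565 143 .s1 (.nx 566 205 (.l1
  (.ls 71 23 296)) (.nr 569 524289 (.nr 567 8193 (.lg 0 true 1 79 79 19 0 435864) (.nx 568 6503
  (.lg 0 false 1 73 73 19 0 435864) .out)) .out))) .out) .out))) (.na 588 149 (.na 580 148 (.nx 579
  660563 (.nr 578 1048577 (.nr 573 146 .s1 (.nx 574 205 (.l1 (.ls 67 29 290)) (.nr 577 524289 (.nr
  575 8193 (.lg 0 false 1 79 79 19 0 30480) (.nx 576 6503 (.lg 0 true 1 73 73 19 0 6096) .out))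
  .out))) .out) .out) (.nx 587 660563 (.nr 586 1048577 (.nr 581 148 .s1 (.nx 582 205 (.l1 (.ls 71
  29 286)) (.nr 585 524289 (.nr 583 8193 (.lg 0 true 1 73 73 23 0 6096) (.nx 584 6503 (.lg 0 false
  1 73 73 23 0 6096) .out)) .out))) .out) .out)) (.na 596 151 (.nx 595 660563 (.nr 594 1048577 (.nr
  589 149 .s1 (.nx 590 205 (.l1 (.ls 61 19 285)) (.nr 593 524289 (.nr 591 8193 (.lg 0 false 1 71 71
  16 0 3048) (.nx 592 6503 (.lg 0 true 1 67 67 16 0 3048) .out)) .out))) .out) .out) (.lg 0 false 1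
  0 0 16 0 24))))))) (.na 764 227 (.na 674 188 (.na 640 169 (.na 623 163 (.na 607 157 (.nx 606
  660563 (.nr 605 1048577 (.nr 598 152 .s1 (.nx 601 6503 (.nx 599 205 (.l1 (.ls 73 31 279)) (.nr
  600 524289 (.lg 0 false 1 79 79 29 0 6096) .out)) (.nr 604 8193 (.nx 602 82572 (.lg 0 true 1 71
  71 29 0 6096) (.nr 603 1025 (.lg 0 true 1 71 71 29 0 6096) .out)) .out))) .out) .out) (.na 615
  158 (.nx 614 660563 (.nr 613 1048577 (.nr 608 157 .s1 (.nx 609 205 (.l1 (.ls 59 17 270)) (.nr 612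
  524289 (.nr 610 8193 (.lg 0 false 1 71 71 16 0 6096) (.nx 611 6503 (.lg 0 true 1 67 67 16 0 3048)
  .out)) .out))) .out) .out) (.nx 622 660563 (.nr 621 1048577 (.nr 616 158 .s1 (.nx 617 205 (.l1
  (.ls 59 29 268)) (.nr 620 524289 (.nr 618 8193 (.lg 0 false 1 71 71 19 0 6096) (.nx 619 6503 (.lg
  0 true 1 67 67 19 0 6096) .out)) .out))) .out) .out))) (.na 631 164 (.nx 630 660563 (.nr 629
  1048577 (.nr 624 163 .s1 (.nx 625 205 (.l1 (.ls 59 17 260)) (.nr 628 524289 (.nr 626 8193 (.lg 0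
  false 1 71 71 16 0 3048) (.nx 627 6503 (.lg 0 true 1 67 67 16 0 3048) .out)) .out))) .out) .out)
  (.na 639 167 (.nx 638 660563 (.nr 637 1048577 (.nr 632 164 .s1 (.nx 633 205 (.l1 (.ls 73 29 259))
  (.nr 636 524289 (.nr 634 8193 (.lg 0 true 1 79 79 23 0 6096) (.nx 635 6503 (.lg 0 false 1 73 73
  23 0 6096) .out)) .out))) .out) .out) (.lg 0 false 1 0 0 16 0 24)))) (.na 657 179 (.na 648 173
  (.nx 647 660563 (.nr 646 1048577 (.nr 641 169 .s1 (.nx 642 205 (.l1 (.ls 73 19 251)) (.nr 645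
  524289 (.nr 643 8193 (.lg 0 false 1 73 73 17 0 396240) (.nx 644 6503 (.lg 0 true 1 71 71 17 0
  39624) .out)) .out))) .out) .out) (.na 649 176 (.lg 0 false 1 0 0 16 0 24) (.nx 656 660563 (.nr
  655 1048577 (.nr 650 176 .s1 (.nx 651 205 (.l1 (.ls 73 29 241)) (.nr 654 524289 (.nr 652 8193
  (.lg 0 true 1 83 83 31 0 335280) (.nx 653 6503 (.lg 0 false 1 79 83 31 0 335280) .out)) .out)))
  .out) .out))) (.na 665 181 (.nx 664 660563 (.nr 663 1048577 (.nr 658 179 .s1 (.nx 659 205 (.l1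
  (.ls 79 17 237)) (.nr 662 524289 (.nr 660 8193 (.lg 0 false 1 71 71 16 0 3048) (.nx 661 6503 (.lg
  0 true 1 71 71 16 0 3048) .out)) .out))) .out) .out) (.na 666 187 (.lg 0 false 1 0 0 16 0 24)
  (.nx 673 660563 (.nr 672 1048577 (.nr 667 187 .s1 (.nx 668 205 (.l1 (.ls 67 23 227)) (.nr 671
  524289 (.nr 669 8193 (.lg 0 true 1 73 73 23 0 33528) (.nx 670 6503 (.lg 0 false 1 71 71 23 0
  33528) .out)) .out))) .out) .out))))) (.na 715 208 (.na 691 197 (.na 682 191 (.nx 681 660563 (.nr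
  680 1048577 (.nr 675 188 .s1 (.nx 676 205 (.l1 (.ls 71 23 226)) (.nr 679 524289 (.nr 677 8193
  (.lg 0 true 1 73 73 23 0 6096) (.nx 678 6503 (.lg 0 false 1 71 71 23 0 6096) .out)) .out))) .out)
  .out) (.na 690 193 (.nx 689 660563 (.nr 688 1048577 (.nr 683 191 .s1 (.nx 684 205 (.l1 (.ls 71 17
  223)) (.nr 687 524289 (.nr 685 8193 (.lg 0 false 1 67 67 16 0 3048) (.nx 686 6503 (.lg 0 true 1
  67 67 16 0 30480) .out)) .out))) .out) .out) (.lg 0 false 1 0 0 16 0 24))) (.na 699 199 (.nx 698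
  660563 (.nr 697 1048577 (.nr 692 197 .s1 (.nx 693 205 (.l1 (.ls 59 17 216)) (.nr 696 524289 (.nr
  694 8193 (.lg 0 false 1 67 67 16 0 3048) (.nx 695 6503 (.lg 0 true 1 61 61 16 0 3048) .out))
  .out))) .out) .out) (.na 707 206 (.nx 706 660563 (.nr 705 1048577 (.nr 700 199 .s1 (.nx 701 205
  (.l1 (.ls 73 17 214)) (.nr 704 524289 (.nr 702 8193 (.lg 0 false 1 71 71 16 0 3048) (.nx 703 6503
  (.lg 0 true 1 67 67 16 0 3048) .out)) .out))) .out) .out) (.nx 714 660563 (.nr 713 1048577 (.nr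
  708 206 .s1 (.nx 709 205 (.l1 (.ls 73 23 207)) (.nr 712 524289 (.nr 710 8193 (.lg 0 false 1 71 71
  23 0 6096) (.nx 711 6503 (.lg 0 true 1 71 71 23 0 91440) .out)) .out))) .out) .out)))) (.na 739
  214 (.na 723 209 (.nx 722 660563 (.nr 721 1048577 (.nr 716 208 .s1 (.nx 717 205 (.l1 (.ls 71 29
  205)) (.nr 720 524289 (.nr 718 8193 (.lg 0 true 1 79 79 31 0 79248) (.nx 719 6503 (.lg 0 false 1
  73 73 31 0 79248) .out)) .out))) .out) .out) (.na 731 211 (.nx 730 660563 (.nr 729 1048577 (.nr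
  724 209 .s1 (.nx 725 205 (.l1 (.ls 97 17 204)) (.nr 728 524289 (.nr 726 8193 (.lg 0 true 1 73 73
  17 0 33528) (.nx 727 6503 (.lg 0 false 1 73 73 17 0 33528) .out)) .out))) .out) .out) (.nx 738
  660563 (.nr 737 1048577 (.nr 732 211 .s1 (.nx 733 205 (.l1 (.ls 79 17 202)) (.nr 736 524289 (.nr
  734 8193 (.lg 0 false 1 71 71 16 0 3048) (.nx 735 6503 (.lg 0 true 1 67 67 16 0 3048) .out))
  .out))) .out) .out))) (.na 755 223 (.na 747 221 (.nx 746 660563 (.nr 745 1048577 (.nr 740 214 .s1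
  (.nx 741 205 (.l1 (.ls 71 23 199)) (.nr 744 524289 (.nr 742 8193 (.lg 0 false 1 71 71 23 0 30480)
  (.nx 743 6503 (.lg 0 true 1 67 67 23 0 30480) .out)) .out))) .out) .out) (.nx 754 660563 (.nr 753
  1048577 (.nr 748 221 .s1 (.nx 749 205 (.l1 (.ls 89 23 193)) (.nr 752 524289 (.nr 750 8193 (.lg 0
  true 1 73 73 23 0 39624) (.nx 751 6503 (.lg 0 false 1 73 73 23 0 39624) .out)) .out))) .out)
  .out)) (.na 756 226 (.lg 0 false 1 0 0 16 0 24) (.nx 763 660563 (.nr 762 1048577 (.nr 757 226 .s1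
  (.nx 758 205 (.l1 (.ls 61 23 188)) (.nr 761 524289 (.nr 759 8193 (.lg 0 false 1 71 71 23 0 91440)
  (.nx 760 6503 (.lg 0 true 1 67 67 23 0 91440) .out)) .out))) .out) .out)))))) (.na 831 257 (.na
  784 244 (.na 774 239 (.na 772 229 (.nx 771 660563 (.nr 770 1048577 (.nr 765 227 .s1 (.nx 766 205
  (.l1 (.ls 53 17 188)) (.nr 769 524289 (.nr 767 8193 (.lg 0 false 1 67 67 17 0 6096) (.nx 768 6503
  (.lg 0 true 1 61 61 17 0 6096) .out)) .out))) .out) .out) (.na 773 233 (.lg 0 false 1 0 0 16 0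
  24) (.lg 0 false 1 0 0 16 0 24))) (.na 775 241 (.lg 0 false 1 0 0 16 0 24) (.na 776 242 (.lg 0
  false 1 0 0 16 0 24) (.nx 783 660563 (.nr 782 1048577 (.nr 777 242 .s1 (.nx 778 205 (.l1 (.ls 61
  29 176)) (.nr 781 524289 (.nr 779 8193 (.lg 0 false 1 71 71 29 0 201168) (.nx 780 6503 (.lg 0
  true 1 67 67 29 0 67056) .out)) .out))) .out) .out)))) (.na 808 251 (.na 792 247 (.nx 791 660563
  (.nr 790 1048577 (.nr 785 244 .s1 (.nx 786 205 (.l1 (.ls 59 23 175)) (.nr 789 524289 (.nr 787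
  8193 (.lg 0 true 1 73 73 23 0 6096) (.nx 788 6503 (.lg 0 false 1 73 73 23 0 6096) .out)) .out)))
  .out) .out) (.na 800 248 (.nx 799 660563 (.nr 798 1048577 (.nr 793 247 .s1 (.nx 794 205 (.l1 (.ls
  67 17 173)) (.nr 797 524289 (.nr 795 8193 (.lg 0 true 1 71 71 17 0 39624) (.nx 796 6503 (.lg 0
  false 1 71 71 17 0 39624) .out)) .out))) .out) .out) (.nx 807 660563 (.nr 806 1048577 (.nr 801
  248 .s1 (.nx 802 205 (.l1 (.ls 73 23 172)) (.nr 805 524289 (.nr 803 8193 (.lg 0 true 1 79 79 29 0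
  6096) (.nx 804 6503 (.lg 0 false 1 73 73 29 0 6096) .out)) .out))) .out) .out))) (.na 816 254
  (.nx 815 660563 (.nr 814 1048577 (.nr 809 251 .s1 (.nx 810 205 (.l1 (.ls 73 17 170)) (.nr 813
  524289 (.nr 811 8193 (.lg 0 false 1 67 67 17 0 3048) (.nx 812 6503 (.lg 0 true 1 61 61 17 0 3048)
  .out)) .out))) .out) .out) (.na 823 256 (.nx 822 660563 (.nr 821 1048577 (.nr 817 254 .s1 (.nx
  818 6503 (.l1 (.ls 61 67 166495)) (.nr 820 8193 (.lg 0 false 2 59 59 23 0 30480) .out))) .out)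
  .out) (.nx 830 660563 (.nr 829 1048577 (.nr 824 256 .s1 (.nx 825 1292 (.l1 (.ls 67 43 6523)) (.nr
  828 262145 (.nr 826 16385 (.lg 0 true 1 73 73 29 0 6096) (.nx 827 6503 (.lg 0 false 1 61 61 29 0
  6096) .out)) .out))) .out) .out))))) (.na 4087 2897 (.na 2077 1024 (.na 1345 512 (.nx 1344 82572
  (.nr 1343 1048577 (.nr 832 257 .s1 (.nx 1087 647 (.la (.ls 101 29 1631)) (.nr 1342 262145 (.la
  (.lg 0 false 1 73 73 23 0)) .out))) .out) .out) (.na 1775 725 (.nx 1774 82572 (.nr 1773 1048577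
  (.nr 1346 512 .s1 (.nx 1559 647 (.la (.ls 83 29 820)) (.nr 1772 262145 (.la (.lg 0 false 1 71 71
  29 0)) .out))) .out) .out) (.nx 2076 3252 (.nr 2075 262145 (.nr 1776 725 .s1 (.la (.ls 53 43
  14589))) .out) .out))) (.na 2505 1449 (.nx 2504 3252 (.nr 2503 262145 (.nr 2078 1024 .s1 (.la
  (.ls 47 41 10330))) .out) .out) (.na 3107 2048 (.nx 3106 1627 (.nr 3105 131073 (.nr 2506 1449 .s1
  (.la (.ls 59 31 1829))) .out) .out) (.nx 4086 1627 (.nr 4085 131073 (.nr 3108 2048 .s1 (.nx 3235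
  127 (.nr 3234 23131 (.lx (.lp 43 29 725)) (.l1 .sk)) (.nx 3236 128 (.l1 .sk) (.la (.ls 53 31
  1287))))) .out) .out)))) (.na 6036 16384 (.na 4737 4096 (.nx 4736 647 (.nr 4735 65537 (.nr 4088
  2897 .s1 (.nx 4250 163 (.lx (.lp 47 29 1025)) (.nr 4734 32769 (.lx (.lp 43 31 1025)) .out)))
  .out) .out) (.na 5387 8192 (.nx 5386 647 (.nr 5385 65537 (.nr 4738 4096 .s1 (.nx 4900 163 (.lx
  (.lp 47 37 2049)) (.nr 5384 32769 (.lx (.lp 43 37 2049)) .out))) .out) .out) (.nx 6035 647 (.nr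
  6034 65537 (.nr 5388 8192 .s1 (.lx (.lp 43 41 4097))) .out) .out))) (.na 7012 65536 (.na 6686
  32768 (.nx 6685 647 (.nr 6684 131073 (.nr 6037 16384 .s1 (.nx 6199 163 (.lx (.lp 16 0 8193)) (.nr
  6683 65537 (.lx (.lp 41 43 8193)) .out))) .out) .out) (.nx 7011 324 (.nr 7010 131073 (.nr 6687
  32768 .s1 (.lx (.lp 41 43 16385))) .out) .out)) (.na 7338 131073 (.nx 7337 324 (.nr 7336 262145
  (.nr 7013 65536 .s1 (.lx (.lp 16 0 32769))) .out) .out) .out)))))))

def T142_1 : Ph :=
  (.na 615 206 (.na 473 91 (.na 406 23 (.na 302 14 (.na 1 2 .ne (.na 301 3 (.nx 300 3329023 (.nr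
  299 623489 (.nx 71 23283 (.nx 3 187 (.nr 2 26 (.lg 0 false 1 43 43 5 0 8976) (.l1 .sk)) (.nx 4
  188 (.l1 .sk) (.nr 39 185365 (.lg 0 false 35 103 109 13 0 12252240) (.nx 54 324 (.lg 0 false 15
  83 83 9 0 134640) (.nx 55 16384 .out (.nr 70 220437 (.lg 0 false 15 97 101 9 0 134640) .out))))))
  (.nr 298 220437 (.nx 282 2097153 (.nx 260 1048577 (.nr 106 1025 (.lg 0 true 35 97 97 13 0 314160)
  (.nx 259 832257 (.nx 141 41287 (.lg 1 false 35 103 107 13 165683 12252240) (.nr 258 155873 (.nx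
  176 82572 (.lg 1 false 35 103 107 13 66091 12252240) (.nr 257 131073 (.nx 211 131073 (.lg 1 true
  35 101 107 13 27795 12252240) (.nr 256 110219 (.nr 220 3446 (.lg 2 true 9 97 97 9 75919 26928)
  (.nx 255 524289 (.lg 2 false 35 101 109 13 14728 12252240) .out)) .out)) .out)) .out)) .out))
  (.nr 281 129 (.lg 0 true 21 83 83 11 0 188496) .out)) (.nr 297 9 (.lg 0 true 15 71 71 9 0 134640)
  .out)) .out)) .out) .out) .ne)) (.na 366 16 (.nx 365 2097153 (.nr 364 1048577 (.nr 303 4 .s1 (.nx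
  307 257 (.nx 305 187 (.nr 304 155 (.lg 0 false 1 37 37 11 0 942480) (.l1 .sk)) (.nx 306 188 (.l1
  .sk) (.l1 (.ls 89 41 2196)))) (.nr 363 623489 (.nr 336 65537 (.nx 310 17485 (.lg 0 true 3 101 101
  13 0 942480) (.nx 329 660563 (.nr 316 1163 (.lg 0 true 6 89 89 13 0 188496) (.lg 2 false 13 83 83
  19 65724 816816)) (.nr 335 65 (.lg 0 true 6 73 73 13 0 188496) .out))) (.nx 362 208065 (.nr 349
  155873 (.lg 0 true 13 103 107 19 0 12252240) (.nx 361 104033 (.nx 354 1292 (.lg 0 false 5 89 89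
  13 0 314160) (.nx 355 5160 .out (.nr 360 185365 (.nx 356 8193 (.lg 0 true 1 89 89 11 0 62832)
  (.nx 357 32768 .out (.lg 0 true 3 103 103 13 0 942480))) .out))) .out)) .out)) .out))) .out)
  .out) (.na 367 22 .ne (.nx 405 2097153 (.nr 404 1048577 (.nr 368 18 .s1 (.nx 370 187 (.nr 369 223
  (.l1 (.ls 19 41 1592)) (.l1 .sk)) (.nx 371 188 (.l1 .sk) (.nx 372 324 (.l1 (.ls 73 43 3168)) (.nr
  403 623489 (.nr 399 262145 (.nx 382 41286 (.lg 0 false 10 97 97 19 0 942480) (.nr 398 155873 (.nr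
  392 751 (.lg 0 true 10 73 73 19 0 44880) (.nx 397 416129 (.lg 2 true 5 101 101 13 66092 314160)
  .out)) .out)) (.nx 402 2049 (.lg 0 true 3 79 79 13 0 26928) .out)) .out))))) .out) .out)))) (.na
  436 58 (.na 407 34 .ne (.na 435 46 (.nx 434 2097153 (.nr 433 881745 (.nr 408 32 .s1 (.nx 419
  26009 (.nx 409 324 (.l1 (.ls 73 43 3090)) (.nr 418 623489 (.lg 0 false 9 89 89 13 0 26928) .out))
  (.nr 432 77937 (.nr 426 446 (.lg 0 true 7 67 67 13 0 62832) (.nx 431 208065 (.lg 2 false 5 83 83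
  13 52520 44880) .out)) .out))) .out) .out) .ne)) (.na 455 64 (.nx 454 2097153 (.nr 453 881745
  (.nr 437 57 .s1 (.nx 438 324 (.l1 (.ls 79 41 1812)) (.nr 452 741457 (.nx 443 26009 (.lg 0 false 5
  97 97 19 0 44880) (.nr 451 65537 (.nr 448 620 (.lg 0 true 5 73 73 19 0 44880) (.nx 450 208065
  (.lg 2 true 2 83 83 13 44184 8976) .out)) .out)) .out))) .out) .out) (.na 456 82 .ne (.nx 472
  2097153 (.nr 471 2097153 (.nr 457 81 .s1 (.nx 458 324 (.l1 (.ls 79 37 1283)) (.nr 470 1048577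
  (.nx 463 20644 (.lg 0 false 5 89 89 23 0 44880) (.nr 469 65537 (.nr 466 513 (.lg 0 true 3 67 67
  19 0 26928) (.nx 468 131073 (.lg 2 true 2 83 83 19 55667 8976) .out)) .out)) .out))) .out)
  .out))))) (.na 543 128 (.na 500 106 (.na 474 94 .ne (.na 486 98 (.nx 485 2097153 (.nr 484 2097153
  (.nr 475 94 .s1 (.nx 482 131073 (.nx 476 324 (.l1 (.ls 83 37 1119)) (.nr 481 1048577 (.nx 479
  32769 (.lg 0 true 3 101 101 19 0 942480) (.nr 480 32769 (.lg 0 false 1 89 89 17 0 8976) .out))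
  .out)) (.nr 483 513 (.lg 0 false 1 83 83 17 0 942480) .out))) .out) .out) (.nx 499 2097153 (.nr
  498 2097153 (.nr 487 98 .s1 (.nx 488 324 (.l1 (.ls 73 37 1074)) (.nr 497 1048577 (.nx 493 32769
  (.lg 0 false 5 89 89 29 0 314160) (.nr 496 32769 (.nr 494 513 (.lg 0 false 1 73 73 19 0 62832)
  (.nx 495 131073 (.lg 2 true 1 73 73 19 23890 62832) .out)) .out)) .out))) .out) .out))) (.na 513
  118 (.nx 512 2097153 (.nr 511 2097153 (.nr 501 106 .s1 (.nx 506 20644 (.nx 502 324 (.l1 (.ls 83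
  31 993)) (.nr 505 1048577 (.lg 0 false 3 97 97 23 0 26928) .out)) (.nr 510 65537 (.nr 507 513
  (.lg 0 false 1 79 79 19 0 314160) (.nx 509 131073 (.lg 2 false 2 79 79 19 55667 8976) .out))
  .out))) .out) .out) (.na 528 122 (.nx 527 2097153 (.nr 526 2097153 (.nr 514 118 .s1 (.nx 521
  32769 (.nx 515 324 (.l1 (.ls 79 31 892)) (.nr 520 1048577 (.lg 0 false 5 89 89 23 0 44880) .out))
  (.nr 525 32769 (.nr 523 513 (.lg 0 true 2 67 67 19 0 8976) (.nx 524 131073 (.lg 2 true 1 73 73 19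
  23890 8976) .out)) .out))) .out) .out) (.nx 542 2097153 (.nr 541 2097153 (.nr 529 122 .s1 (.nx
  536 32769 (.nx 530 324 (.l1 (.ls 79 31 863)) (.nr 535 1048577 (.lg 0 false 5 97 97 23 0 942480)
  .out)) (.nr 540 32769 (.nr 538 513 (.lg 0 true 2 67 67 19 0 8976) (.nx 539 131073 (.lg 2 true 1
  73 73 19 23890 62832) .out)) .out))) .out) .out)))) (.na 571 154 (.na 544 134 .ne (.na 558 146
  (.nx 557 1048577 (.nr 556 1482912 (.nr 545 134 .s1 (.nx 547 187 (.nr 546 1414 (.l1 (.ls 23 29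
  263)) (.l1 .sk)) (.nx 548 188 (.l1 .sk) (.nx 554 131073 (.nr 550 65537 (.lg 0 true 2 83 83 23 0
  8976) (.nx 553 16385 (.lg 0 false 3 89 89 23 0 26928) .out)) (.nr 555 1025 (.lg 0 false 1 73 73
  19 0 8976) .out))))) .out) .out) (.nx 570 1048577 (.nr 569 1482912 (.nr 559 146 .s1 (.nx 561 187
  (.nr 560 1492 (.l1 (.ls 23 23 242)) (.l1 .sk)) (.nx 562 188 (.l1 .sk) (.nx 565 32769 (.lg 0 false
  3 97 97 23 0 26928) (.nr 568 16385 (.nr 566 1025 (.lg 0 false 1 73 73 19 0 8976) (.nx 567 131073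
  (.lg 2 true 1 59 59 19 11957 8976) .out)) .out))))) .out) .out))) (.na 599 178 (.na 584 158 (.nx
  583 1048577 (.nr 582 1482912 (.nr 572 154 .s1 (.nx 575 188 (.nx 574 187 (.nr 573 1530 (.l1 (.ls
  29 31 230)) (.l1 .sk)) (.l1 .sk)) (.nx 578 32769 (.lg 0 false 3 89 89 31 0 188496) (.nr 581 16385
  (.nr 579 1025 (.lg 0 false 1 71 71 29 0 314160) (.nx 580 131073 (.lg 2 true 1 59 59 29 11957
  62832) .out)) .out)))) .out) .out) (.nx 598 1048577 (.nr 597 1482912 (.nr 585 158 .s1 (.nx 587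
  187 (.nr 586 1724 (.l1 (.ls 23 23 224)) (.l1 .sk)) (.nx 588 188 (.l1 .sk) (.nx 593 32769 (.lg 0
  false 5 89 89 29 0 44880) (.nr 596 16385 (.nr 594 1025 (.lg 0 false 1 71 71 19 0 188496) (.nx 595
  131073 (.lg 2 true 1 59 59 19 11957 62832) .out)) .out))))) .out) .out)) (.na 614 182 (.nx 613
  1048577 (.nr 612 1482912 (.nr 600 178 .s1 (.nx 602 187 (.nr 601 1763 (.l1 (.ls 19 23 199)) (.l1
  .sk)) (.nx 603 188 (.l1 .sk) (.nx 608 32769 (.lg 0 false 5 83 83 29 0 314160) (.nr 611 16385 (.nr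
  609 1025 (.lg 0 false 1 67 67 19 0 62832) (.nx 610 131073 (.lg 2 false 1 53 53 19 11957 8976)
  .out)) .out))))) .out) .out) .ne))))) (.na 3716 2048 (.na 665 257 (.na 652 238 (.na 628 214 (.nx
  627 1048577 (.nr 626 1048577 (.nr 616 206 .s1 (.nx 618 187 (.nr 617 2073 (.l1 (.ls 29 23 172))
  (.l1 .sk)) (.nx 619 188 (.l1 .sk) (.nx 622 32769 (.lg 0 false 3 83 83 29 0 26928) (.nr 625 16385
  (.nr 623 1025 (.lg 0 false 1 67 67 23 0 314160) (.nx 624 131073 (.lg 2 false 1 53 53 23 11957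
  8976) .out)) .out))))) .out) .out) (.na 641 218 (.nx 640 1048577 (.nr 639 1048577 (.nr 629 214
  .s1 (.nx 635 32769 (.nx 631 187 (.nr 630 2111 (.l1 (.ls 23 23 166)) (.l1 .sk)) (.nx 632 188 (.l1
  .sk) (.lg 0 false 3 83 83 29 0 26928))) (.nr 638 16385 (.nr 636 1025 (.lg 0 false 1 67 67 23 0
  314160) (.nx 637 131073 (.lg 2 true 1 53 53 23 11957 8976) .out)) .out))) .out) .out) (.nx 651
  1048577 (.nr 650 1048577 (.nr 642 218 .s1 (.nx 648 32769 (.nx 644 187 (.nr 643 2305 (.l1 (.ls 19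
  23 163)) (.l1 .sk)) (.nx 645 188 (.l1 .sk) (.lg 0 false 3 79 79 29 0 26928))) (.nr 649 16385 (.lg
  0 false 1 79 79 23 0 8976) .out))) .out) .out))) (.na 663 242 (.nx 662 1048577 (.nr 661 1048577
  (.nr 653 238 .s1 (.nx 656 188 (.nx 655 187 (.nr 654 2344 (.l1 (.ls 23 31 149)) (.l1 .sk)) (.l1
  .sk)) (.nx 659 32769 (.lg 0 false 3 79 79 37 0 188496) (.nr 660 16385 (.lg 0 false 1 83 83 31 0
  188496) .out)))) .out) .out) (.na 664 256 (.lg 0 false 1 0 0 16 0 24) .ne))) (.na 2084 725 (.na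
  988 363 (.nx 987 1048577 (.nr 986 1482912 (.nr 666 257 .s1 (.nx 772 257 (.la (.ls 79 19 259))
  (.nr 985 1048577 (.nr 878 32769 (.la (.lg 0 true 2 73 73 23 0)) (.nx 984 20644 (.la (.lg 0 true 1
  79 79 19 0)) .out)) .out))) .out) .out) (.na 1440 512 (.nx 1439 1048577 (.nr 1438 1482912 (.nr
  989 363 .s1 (.nx 1138 257 (.la (.ls 79 23 184)) (.nr 1437 1048577 (.nx 1287 20644 (.la (.lg 0
  true 1 73 73 23 0)) (.nr 1436 32769 (.la (.lg 2 false 1 71 71 23 270089)) .out)) .out))) .out)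
  .out) (.nx 2083 1048577 (.nr 2082 1482912 (.nr 1441 512 .s1 (.nx 1868 20644 (.nx 1654 257 (.la
  (.ls 79 23 182)) (.nr 1867 1048577 (.la (.lg 0 true 1 71 71 23 0)) .out)) (.nr 2081 32769 (.la
  (.lg 2 false 1 61 61 23 191489)) .out))) .out) .out))) (.na 2686 1024 (.nx 2685 13005 (.nr 2684
  1048577 (.nr 2085 725 .s1 (.nx 2384 2049 (.la (.ls 89 37 5793)) (.nr 2683 65537 (.la (.lg 0 false
  1 43 43 29 0)) .out))) .out) .out) (.na 3114 1449 (.nx 3113 13005 (.nr 3112 1048577 (.nr 2687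
  1024 .s1 (.la (.ls 61 59 165169))) .out) .out) (.nx 3715 8193 (.nr 3714 1048577 (.nr 3115 1449
  .s1 (.la (.ls 59 47 46328))) .out) .out))))) (.na 12460 16384 (.na 7470 5793 (.na 4568 2897 (.nx
  4567 8193 (.nr 4566 1048577 (.nr 3717 2048 .s1 (.la (.ls 59 47 32779))) .out) .out) (.na 5770
  4096 (.nx 5769 3252 (.nr 5768 524289 (.nr 4569 2897 .s1 (.la (.ls 61 37 3653))) .out) .out) (.nx
  7469 3252 (.nr 7468 524289 (.nr 5771 4096 .s1 (.la (.ls 59 37 2584))) .out) .out))) (.na 9872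
  8192 (.nx 9871 1292 (.nr 9870 262145 (.nr 7471 5793 .s1 (.la (.ls 47 37 2049))) .out) .out) (.na
  11166 11586 (.nx 11165 1292 (.nr 11164 262145 (.nr 9873 8192 .s1 (.lx (.lp 47 37 2897))) .out)
  .out) (.nx 12459 1292 (.nr 12458 131073 (.nr 11167 11586 .s1 (.lx (.lp 43 41 4097))) .out)
  .out)))) (.na 16343 131072 (.na 13754 32768 (.nx 13753 1292 (.nr 13752 262145 (.nr 12461 16384
  .s1 (.lx (.lp 47 43 8193))) .out) .out) (.na 15048 65536 (.nx 15047 1292 (.nr 15046 262145 (.nr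
  13755 32768 .s1 (.lx (.lp 41 47 16385))) .out) .out) (.nx 16342 1292 (.nr 16341 524289 (.nr 15049
  65536 .s1 (.nx 15305 257 (.lx (.lp 16 0 32769)) (.nr 16340 262145 (.lx (.lp 41 53 32769)) .out)))
  .out) .out))) (.na 17373 524288 (.na 16858 262144 (.nx 16857 513 (.nr 16856 524289 (.nr 16344
  131072 .s1 (.lx (.lp 16 0 65537))) .out) .out) (.nx 17372 513 (.nr 17371 1048577 (.nr 16859
  262144 .s1 (.lx (.lp 16 0 131073))) .out) .out)) (.na 17375 1048577 (.nx 17374 257 (.l1 .sk)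
  .out) .out))))))

def T142_2 : Ph :=
  (.na 465 127 (.na 333 47 (.na 254 19 (.na 188 7 (.na 138 3 (.na 74 2 (.nx 73 330282 (.nr 72
  311745 (.nx 2 29 (.nr 1 6 (.lg 0 true 1 31 31 5 0 114840) (.l1 .sk)) (.nx 3 30 (.l1 .sk) (.nx 43
  20644 (.nr 29 38969 (.nr 21 4872 (.nx 10 1997 (.lg 0 true 7 79 79 9 0 14616) (.nr 17 309 (.lg 0
  false 7 73 73 9 0 14616) (.lg 2 true 4 83 83 7 1033 4176))) (.nx 28 324 (.lg 0 false 7 83 83 9 0
  14616) .out)) (.nx 42 52 (.lg 0 false 13 73 73 9 0 27144) .out)) (.nr 71 78 (.lg 0 true 28 79 79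
  11 0 29232) .out)))) .out) .out) (.nx 137 330282 (.nr 136 623489 (.nx 76 29 (.nr 75 11 (.lg 0
  true 1 31 31 5 0 2985840) (.l1 .sk)) (.nx 77 30 (.l1 .sk) (.nr 113 9743 (.nx 84 2691 (.lg 0 true
  7 79 79 9 0 29232) (.nr 105 154 (.lg 0 true 21 79 79 11 0 29232) (.nx 112 20644 (.lg 1 true 7 89
  89 9 1944 146160) .out))) (.nx 135 324 (.nr 120 65537 (.lg 0 false 7 79 79 9 0 29232) (.nx 134 52
  (.lg 0 false 14 73 73 9 0 29232) .out)) .out)))) .out) .out)) (.na 168 4 (.nx 167 330282 (.nr 166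
  13779 (.nx 148 4351 (.nx 140 29 (.nr 139 15 (.lg 0 true 1 19 19 5 0 10440) (.l1 .sk)) (.nx 141 30
  (.l1 .sk) (.lg 0 true 7 79 79 13 0 14616))) (.nr 161 217 (.lg 0 true 13 73 73 16 0 27144) (.nx
  165 20644 (.lg 1 true 4 89 89 7 1380 20880) .out))) .out) .out) (.na 169 6 .ne (.nx 187 330282
  (.nr 186 27556 (.nr 170 3 .s1 (.nx 172 29 (.nr 171 27 (.lg 0 true 1 17 17 7 0 20880) (.l1 .sk))
  (.nx 173 30 (.l1 .sk) (.nx 178 3252 (.lg 0 true 5 79 79 13 0 20880) (.nr 185 154 (.lg 0 true 7 73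
  73 13 0 29232) .out))))) .out) .out)))) (.na 224 15 (.na 189 10 .ne (.na 208 13 (.nx 207 330282
  (.nr 206 77937 (.nr 190 9 .s1 (.nx 192 29 (.nr 191 50 (.l1 (.ls 19 19 87)) (.l1 .sk)) (.nx 193 30
  (.l1 .sk) (.nx 196 2851 (.lg 0 true 3 83 83 13 0 20880) (.nr 205 27556 (.nr 202 154 (.lg 0 true 6
  71 71 13 0 20880) (.nx 204 20644 (.lg 1 false 2 83 83 11 4070 20880) .out)) .out))))) .out) .out)
  (.nx 223 330282 (.nr 222 77937 (.nr 209 12 .s1 (.nx 211 29 (.nr 210 58 (.l1 (.ls 17 16 67)) (.l1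
  .sk)) (.nx 212 30 (.l1 .sk) (.nx 215 2851 (.lg 0 true 3 79 79 11 0 135720) (.nr 221 27556 (.nr
  219 154 (.lg 0 true 4 71 71 16 0 54288) (.nx 220 20644 (.lg 1 false 1 83 83 9 4070 135720) .out))
  .out))))) .out) .out))) (.na 241 16 (.nx 240 330282 (.nr 239 77937 (.nr 225 15 .s1 (.nr 230 154
  (.nx 226 112 (.l1 (.ls 31 31 839)) (.lg 0 true 4 67 67 17 0 20880)) (.nx 232 30 (.nx 231 29 (.l1
  .sk) (.l1 .sk)) (.nx 238 20644 (.nr 236 27556 (.nx 234 4237 (.lg 0 true 2 79 79 16 0 20880) (.lg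
  1 false 2 71 71 16 2738 20880)) (.nx 237 1292 (.lg 0 false 1 83 83 16 0 10440) .out)) .out))))
  .out) .out) (.na 242 18 .ne (.nx 253 330282 (.nr 252 131073 (.nr 243 18 .s1 (.nx 246 30 (.nx 245
  29 (.nr 244 73 (.l1 (.ls 17 19 49)) (.l1 .sk)) (.l1 .sk)) (.nx 248 3252 (.lg 0 true 2 89 89 13 0
  20880) (.nr 251 27556 (.nr 249 154 (.lg 0 false 1 79 79 13 0 20880) (.nx 250 20644 (.lg 1 false 1
  79 79 13 3568 4176) .out)) .out)))) .out) .out))))) (.na 298 30 (.na 281 23 (.na 269 22 (.nx 268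
  330282 (.nr 267 131073 (.nr 255 19 .s1 (.nx 258 30 (.nx 257 29 (.nr 256 85 (.l1 (.ls 16 16 47))
  (.l1 .sk)) (.l1 .sk)) (.nx 261 3252 (.lg 0 false 3 79 79 16 0 2088) (.nr 266 27556 (.nr 264 154
  (.lg 0 true 3 61 61 16 0 2088) (.nx 265 20644 (.lg 1 false 1 73 73 11 3568 2088) .out)) .out))))
  .out) .out) (.nx 280 330282 (.nr 279 131073 (.nr 270 22 .s1 (.nx 272 29 (.nr 271 89 (.l1 (.ls 19
  19 41)) (.l1 .sk)) (.nx 273 30 (.l1 .sk) (.nx 275 3252 (.lg 0 true 2 83 83 13 0 229680) (.nr 278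
  27556 (.nr 276 154 (.lg 0 false 1 79 79 9 0 229680) (.nx 277 20644 (.lg 1 false 1 79 79 9 3568
  229680) .out)) .out))))) .out) .out)) (.na 282 26 .ne (.na 290 29 (.nx 289 41287 (.nr 288 131073
  (.nr 283 26 .s1 (.nx 286 3252 (.nx 284 324 (.l1 (.ls 73 43 4040)) (.nr 285 32769 (.lg 0 true 1 79
  79 11 0 271440) .out)) (.nr 287 257 (.lg 0 false 1 61 61 11 0 54288) .out))) .out) .out) (.nx 297
  41287 (.nr 296 131073 (.nr 291 29 .s1 (.nx 292 324 (.l1 (.ls 61 37 3622)) (.nr 295 32769 (.lg 0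
  false 3 73 73 16 0 2088) .out))) .out) .out)))) (.na 315 33 (.na 306 31 (.nx 305 41287 (.nr 304
  131073 (.nr 299 30 .s1 (.nx 300 324 (.l1 (.ls 73 47 3502)) (.nr 303 32769 (.nx 301 3252 (.lg 0
  true 1 73 73 19 0 20880) (.nr 302 257 (.lg 0 false 1 61 61 19 0 20880) .out)) .out))) .out) .out)
  (.na 314 32 (.nx 313 41287 (.nr 312 131073 (.nr 307 31 .s1 (.nx 310 3252 (.nx 308 324 (.l1 (.ls
  71 29 3389)) (.nr 309 32769 (.lg 0 true 1 79 79 13 0 10440) .out)) (.nr 311 257 (.lg 0 false 1 61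
  61 13 0 10440) .out))) .out) .out) .ne)) (.na 321 38 (.nx 320 41287 (.nr 319 262145 (.nr 316 33
  .s1 (.nx 317 324 (.l1 (.ls 79 41 3184)) (.nr 318 4097 (.lg 0 false 1 73 73 16 0 22968) .out)))
  .out) .out) (.na 327 45 (.nx 326 41287 (.nr 325 262145 (.nr 322 38 .s1 (.nx 323 324 (.l1 (.ls 73
  43 2765)) (.nr 324 4097 (.lg 0 false 1 79 79 13 0 20880) .out))) .out) .out) (.nx 332 41287 (.nr
  331 262145 (.nr 328 45 .s1 (.nx 329 324 (.l1 (.ls 73 41 2335)) (.nr 330 4097 (.lg 0 false 1 73 73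
  17 0 10440) .out))) .out) .out)))))) (.na 399 86 (.na 364 64 (.na 345 54 (.na 339 50 (.nx 338
  41287 (.nr 337 262145 (.nr 334 47 .s1 (.nx 335 324 (.l1 (.ls 71 29 2236)) (.nr 336 4097 (.lg 0
  false 1 73 73 16 0 10440) .out))) .out) .out) (.nx 344 41287 (.nr 343 262145 (.nr 340 50 .s1 (.nx
  341 324 (.l1 (.ls 71 41 2102)) (.nr 342 4097 (.lg 0 false 1 73 73 13 0 20880) .out))) .out)
  .out)) (.na 351 58 (.nx 350 41287 (.nr 349 262145 (.nr 346 54 .s1 (.nx 347 324 (.l1 (.ls 71 43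
  1946)) (.nr 348 4097 (.lg 0 false 1 71 71 19 0 4176) .out))) .out) .out) (.na 358 62 (.nx 357
  41287 (.nr 356 262145 (.nr 352 58 .s1 (.nx 353 324 (.l1 (.ls 61 41 1812)) (.nr 355 4097 (.lg 0
  false 2 59 59 13 0 4176) .out))) .out) .out) (.nx 363 41287 (.nr 362 262145 (.nr 359 62 .s1 (.nx
  360 324 (.l1 (.ls 73 41 1696)) (.nr 361 4097 (.lg 0 false 1 73 73 13 0 20880) .out))) .out)
  .out)))) (.na 381 78 (.na 365 65 .ne (.na 373 66 (.nx 372 20644 (.nr 371 524289 (.nr 366 65 .s1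
  (.nx 369 3252 (.nx 367 324 (.l1 (.ls 79 37 1618)) (.nr 368 65537 (.lg 0 true 1 73 73 17 0 135720)
  .out)) (.nr 370 257 (.lg 0 true 1 47 47 17 0 135720) .out))) .out) .out) (.nx 380 20644 (.nr 379
  524289 (.nr 374 66 .s1 (.nx 375 324 (.l1 (.ls 79 43 1593)) (.nr 378 65537 (.nx 376 3252 (.lg 0
  true 1 73 73 29 0 45936) (.nr 377 257 (.lg 0 true 1 47 47 29 0 45936) .out)) .out))) .out)
  .out))) (.na 387 79 (.nx 386 20644 (.nr 385 524289 (.nr 382 78 .s1 (.nx 383 324 (.l1 (.ls 79 43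
  1348)) (.nr 384 65537 (.lg 0 true 1 89 89 29 0 54288) .out))) .out) .out) (.na 393 81 (.nx 392
  20644 (.nr 391 524289 (.nr 388 79 .s1 (.nx 389 324 (.l1 (.ls 67 29 1331)) (.nr 390 65537 (.lg 0
  true 1 79 79 16 0 2088) .out))) .out) .out) (.nx 398 20644 (.nr 397 524289 (.nr 394 81 .s1 (.nx
  395 324 (.l1 (.ls 71 31 1298)) (.nr 396 65537 (.lg 0 true 1 79 79 16 0 10440) .out))) .out)
  .out))))) (.na 429 99 (.na 411 93 (.na 405 90 (.nx 404 20644 (.nr 403 524289 (.nr 400 86 .s1 (.nx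
  401 324 (.l1 (.ls 73 37 1223)) (.nr 402 65537 (.lg 0 true 1 83 83 13 0 20880) .out))) .out) .out)
  (.nx 410 20644 (.nr 409 524289 (.nr 406 90 .s1 (.nx 407 324 (.l1 (.ls 73 43 1169)) (.nr 408 65537
  (.lg 0 true 1 83 83 29 0 20880) .out))) .out) .out)) (.na 417 94 (.nx 416 20644 (.nr 415 524289
  (.nr 412 93 .s1 (.nx 413 324 (.l1 (.ls 73 29 1131)) (.nr 414 65537 (.lg 0 true 1 83 83 17 0
  10440) .out))) .out) .out) (.na 423 95 (.nx 422 20644 (.nr 421 524289 (.nr 418 94 .s1 (.nx 419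
  324 (.l1 (.ls 73 37 1119)) (.nr 420 65537 (.lg 0 true 1 83 83 17 0 20880) .out))) .out) .out)
  (.nx 428 20644 (.nr 427 524289 (.nr 424 95 .s1 (.nx 425 324 (.l1 (.ls 79 31 1108)) (.nr 426 65537
  (.lg 0 true 1 83 83 17 0 10440) .out))) .out) .out)))) (.na 447 110 (.na 435 106 (.nx 434 20644
  (.nr 433 524289 (.nr 430 99 .s1 (.nx 431 324 (.l1 (.ls 73 37 1063)) (.nr 432 65537 (.lg 0 true 1
  79 79 19 0 22968) .out))) .out) .out) (.na 441 109 (.nx 440 20644 (.nr 439 524289 (.nr 436 106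
  .s1 (.nx 437 324 (.l1 (.ls 73 31 993)) (.nr 438 65537 (.lg 0 true 1 79 79 19 0 4176) .out)))
  .out) .out) (.nx 446 20644 (.nr 445 524289 (.nr 442 109 .s1 (.nx 443 324 (.l1 (.ls 67 23 966))
  (.nr 444 65537 (.lg 0 true 1 73 73 16 0 2088) .out))) .out) .out))) (.na 453 114 (.nx 452 20644
  (.nr 451 524289 (.nr 448 110 .s1 (.nx 449 324 (.l1 (.ls 73 41 957)) (.nr 450 65537 (.lg 0 true 1
  83 83 29 0 229680) .out))) .out) .out) (.na 459 125 (.nx 458 20644 (.nr 457 524289 (.nr 454 114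
  .s1 (.nx 455 324 (.l1 (.ls 73 41 923)) (.nr 456 65537 (.lg 0 true 1 83 83 31 0 20880) .out)))
  .out) .out) (.nx 464 20644 (.nr 463 524289 (.nr 460 125 .s1 (.nx 461 324 (.l1 (.ls 67 29 842))
  (.nr 462 65537 (.lg 0 true 1 71 71 16 0 10440) .out))) .out) .out))))))) (.na 579 198 (.na 523
  159 (.na 492 141 (.na 474 129 (.na 473 128 (.nx 472 20644 (.nr 471 524289 (.nr 466 127 .s1 (.nx
  469 3252 (.nx 467 324 (.l1 (.ls 67 23 829)) (.nr 468 65537 (.lg 0 true 1 59 59 16 0 10440) .out))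
  (.nr 470 257 (.lg 2 true 1 16 16 16 2357 10440) .out))) .out) .out) .ne) (.na 480 130 (.nx 479
  20644 (.nr 478 16385 (.nr 475 129 .s1 (.nx 476 324 (.l1 (.ls 41 29 816)) (.nr 477 1025 (.lg 0
  true 1 53 53 19 0 2088) .out))) .out) .out) (.na 486 131 (.nx 485 20644 (.nr 484 16385 (.nr 481
  130 .s1 (.nx 482 324 (.l1 (.ls 53 41 810)) (.nr 483 1025 (.lg 0 true 1 53 53 29 0 271440) .out)))
  .out) .out) (.nx 491 20644 (.nr 490 16385 (.nr 487 131 .s1 (.nx 488 421 (.l1 (.ls 41 29 1355))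
  (.nr 489 1025 (.lg 2 false 1 31 31 16 2286 114840) .out))) .out) .out)))) (.na 510 150 (.na 498
  143 (.nx 497 20644 (.nr 496 16385 (.nr 493 141 .s1 (.nx 494 324 (.l1 (.ls 43 29 747)) (.nr 495
  1025 (.lg 0 true 1 43 43 19 0 2088) .out))) .out) .out) (.na 504 145 (.nx 503 20644 (.nr 502
  16385 (.nr 499 143 .s1 (.nx 500 324 (.l1 (.ls 53 31 737)) (.nr 501 1025 (.lg 0 true 1 53 53 19 0
  298584) .out))) .out) .out) (.nx 509 20644 (.nr 508 16385 (.nr 505 145 .s1 (.nx 506 421 (.l1 (.ls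
  41 31 1225)) (.nr 507 1025 (.lg 2 true 1 31 31 17 2065 10440) .out))) .out) .out))) (.na 516 157
  (.nx 515 20644 (.nr 514 16385 (.nr 511 150 .s1 (.nx 512 324 (.l1 (.ls 47 41 702)) (.nr 513 1025
  (.lg 0 true 1 47 47 31 0 20880) .out))) .out) .out) (.na 517 158 (.lg 0 false 1 0 0 16 0 24) (.nx
  522 20644 (.nr 521 16385 (.nr 518 158 .s1 (.nx 519 421 (.l1 (.ls 43 37 1124)) (.nr 520 1025 (.lg
  2 true 1 31 31 19 1895 146160) .out))) .out) .out))))) (.na 553 179 (.na 535 163 (.na 529 162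
  (.nx 528 20644 (.nr 527 16385 (.nr 524 159 .s1 (.nx 525 324 (.l1 (.ls 43 29 663)) (.nr 526 1025
  (.lg 0 true 1 43 43 19 0 2088) .out))) .out) .out) (.nx 534 20644 (.nr 533 16385 (.nr 530 162 .s1
  (.nx 531 421 (.l1 (.ls 41 41 1097)) (.nr 532 1025 (.lg 2 true 1 23 23 23 1848 4176) .out))) .out)
  .out)) (.na 541 173 (.nx 540 20644 (.nr 539 16385 (.nr 536 163 .s1 (.nx 537 421 (.l1 (.ls 37 23
  1090)) (.nr 538 1025 (.lg 2 true 1 19 19 16 1837 10440) .out))) .out) .out) (.na 547 174 (.nx 546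
  20644 (.nr 545 16385 (.nr 542 173 .s1 (.nx 543 421 (.l1 (.ls 37 23 1027)) (.nr 544 1025 (.lg 2
  false 1 19 19 16 1731 10440) .out))) .out) .out) (.nx 552 20644 (.nr 551 16385 (.nr 548 174 .s1
  (.nx 549 421 (.l1 (.ls 41 43 1021)) (.nr 550 1025 (.lg 2 true 1 23 23 23 1721 20880) .out)))
  .out) .out)))) (.na 566 191 (.na 554 186 (.lg 0 false 1 0 0 16 0 24) (.na 560 190 (.nx 559 20644
  (.nr 558 16385 (.nr 555 186 .s1 (.nx 556 421 (.l1 (.ls 53 43 955)) (.nr 557 1025 (.lg 2 true 1 23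
  37 29 1610 4176) .out))) .out) .out) (.nx 565 20644 (.nr 564 16385 (.nr 561 190 .s1 (.nx 562 421
  (.l1 (.ls 53 41 935)) (.nr 563 1025 (.lg 2 true 1 37 37 31 1576 20880) .out))) .out) .out))) (.na
  572 193 (.nx 571 20644 (.nr 570 16385 (.nr 567 191 .s1 (.nx 568 421 (.l1 (.ls 37 23 930)) (.nr
  569 1025 (.lg 2 true 1 19 19 16 1568 10440) .out))) .out) .out) (.na 573 195 (.lg 0 false 1 0 0
  16 0 24) (.nx 578 20644 (.nr 577 16385 (.nr 574 195 .s1 (.nx 575 324 (.l1 (.ls 53 31 541)) (.nr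
  576 1025 (.lg 0 true 1 47 53 31 0 135720) .out))) .out) .out)))))) (.na 630 242 (.na 604 225 (.na
  591 211 (.na 585 209 (.nx 584 20644 (.nr 583 16385 (.nr 580 198 .s1 (.nx 581 421 (.l1 (.ls 47 41
  898)) (.nr 582 1025 (.lg 2 true 1 23 31 31 1512 229680) .out))) .out) .out) (.nx 590 20644 (.nr
  589 16385 (.nr 586 209 .s1 (.nx 587 421 (.l1 (.ls 47 31 851)) (.nr 588 1025 (.lg 2 true 1 23 31
  17 1433 114840) .out))) .out) .out)) (.na 597 218 (.nx 596 20644 (.nr 595 16385 (.nr 592 211 .s1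
  (.nx 593 421 (.l1 (.ls 37 23 843)) (.nr 594 1025 (.lg 2 false 1 17 17 16 1419 10440) .out)))
  .out) .out) (.na 603 223 (.nx 602 20644 (.nr 601 16385 (.nr 598 218 .s1 (.nx 599 421 (.l1 (.ls 41
  31 816)) (.nr 600 1025 (.lg 2 false 1 19 19 23 1374 20880) .out))) .out) .out) (.lg 0 false 1 0 0
  16 0 24)))) (.na 617 237 (.na 610 227 (.nx 609 20644 (.nr 608 16385 (.nr 605 225 .s1 (.nx 606 421
  (.l1 (.ls 43 31 790)) (.nr 607 1025 (.lg 2 true 1 19 23 23 1331 10440) .out))) .out) .out) (.na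
  611 234 (.lg 0 false 1 0 0 16 0 24) (.nx 616 20644 (.nr 615 16385 (.nr 612 234 .s1 (.nx 613 421
  (.l1 (.ls 47 41 760)) (.nr 614 1025 (.lg 2 true 1 23 31 37 1280 1900080) .out))) .out) .out)))
  (.na 623 239 (.nx 622 20644 (.nr 621 16385 (.nr 618 237 .s1 (.nx 619 421 (.l1 (.ls 41 29 750))
  (.nr 620 1025 (.lg 2 true 1 19 19 19 1264 10440) .out))) .out) .out) (.na 624 241 (.lg 0 false 1
  0 0 16 0 24) (.nx 629 20644 (.nr 628 16385 (.nr 625 241 .s1 (.nx 626 421 (.l1 (.ls 37 23 738))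
  (.nr 627 1025 (.lg 2 true 1 19 19 17 1243 1607760) .out))) .out) .out))))) (.na 655 257 (.na 642
  250 (.na 636 243 (.nx 635 20644 (.nr 634 16385 (.nr 631 242 .s1 (.nx 632 421 (.l1 (.ls 43 37
  735)) (.nr 633 1025 (.lg 2 true 1 23 23 29 1237 1607760) .out))) .out) .out) (.nx 641 20644 (.nr
  640 16385 (.nr 637 243 .s1 (.nx 638 421 (.l1 (.ls 37 29 732)) (.nr 639 1025 (.lg 2 true 1 17 17
  19 1232 114840) .out))) .out) .out)) (.na 648 254 (.nx 647 20644 (.nr 646 16385 (.nr 643 250 .s1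
  (.nx 644 421 (.l1 (.ls 37 37 711)) (.nr 645 1025 (.lg 2 true 1 17 17 29 1198 20880) .out))) .out)
  .out) (.na 654 256 (.nx 653 20644 (.nr 652 16385 (.nr 649 254 .s1 (.nx 650 421 (.l1 (.ls 37 31
  700)) (.nr 651 1025 (.lg 2 true 1 17 17 23 1179 229680) .out))) .out) .out) .ne))) (.na 2128 2048
  (.na 943 512 (.nx 942 20644 (.nr 941 4097 (.nr 656 257 .s1 (.nx 686 30 (.nx 685 29 (.nr 684 1967
  (.lx (.lp 41 16 129)) (.l1 .sk)) (.l1 .sk)) (.la (.lg 0 true 1 47 47 23 0)))) .out) .out) (.na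
  2023 1024 (.nx 2022 20644 (.nr 2021 8193 (.nr 944 512 .s1 (.nx 995 52 (.lx (.lp 16 0 257)) (.nr
  2020 4097 (.nx 1507 915 (.la (.ls 37 31 1632)) (.nr 2019 2049 (.la (.lg 2 false 1 16 16 29 956))
  .out)) .out))) .out) .out) (.nx 2127 103 (.nr 2126 8193 (.nr 2024 1024 .s1 (.lx (.lp 41 23 513)))
  .out) .out))) (.na 2212 4096 (.nx 2211 82 (.nr 2210 8193 (.nr 2129 2048 .s1 (.lx (.lp 16 0
  1025))) .out) .out) (.na 2296 8193 (.nx 2295 82 (.nr 2294 16385 (.nr 2213 4096 .s1 (.lx (.lp 16 0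
  2049))) .out) .out) .out)))))))

theorem c142 :
    OkQ ckI L6 127 17 1099511627776 0 34359738368 1 1099511627776 ∧
    OkQ ckI L9 187 1 1099511627776 0 34359738368 1 1099511627776 ∧
    OkQ ckI L3 29 1 1099511627776 0 34359738368 1 1099511627776 := by
  refine ⟨?_, ?_, ?_⟩
  · refine fin 3048 7339 T142_0 ?_
    refine jn 7 (by decide +kernel) ?_
    refine jn 11 (by decide +kernel) ?_
    refine jn 12 (by decide +kernel) ?_
    refine jn 17 (by decide +kernel) ?_
    refine jn 24 (by decide +kernel) ?_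
    refine jn 33 (by decide +kernel) ?_
    refine jn 39 (by decide +kernel) ?_
    refine jn 43 (by decide +kernel) ?_
    refine jn 47 (by decide +kernel) ?_
    refine jn 54 (by decide +kernel) ?_
    refine jn 63 (by decide +kernel) ?_
    refine jn 68 (by decide +kernel) ?_
    refine jn 73 (by decide +kernel) ?_
    refine jn 88 (by decide +kernel) ?_
    refine jn 92 (by decide +kernel) ?_
    refine jn 99 (by decide +kernel) ?_
    refine jn 108 (by decide +kernel) ?_
    refine jn 112 (by decide +kernel) ?_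
    refine jn 117 (by decide +kernel) ?_
    refine jn 127 (by decide +kernel) ?_
    refine jn 128 (by decide +kernel) ?_
    refine jn 129 (by decide +kernel) ?_
    refine jn 131 (by decide +kernel) ?_
    refine jn 132 (by decide +kernel) ?_
    refine jn 134 (by decide +kernel) ?_
    refine jn 136 (by decide +kernel) ?_
    refine jn 138 (by decide +kernel) ?_
    refine jn 140 (by decide +kernel) ?_
    refine jn 154 (by decide +kernel) ?_
    refine jn 160 (by decide +kernel) ?_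
    refine jn 173 (by decide +kernel) ?_
    refine jn 178 (by decide +kernel) ?_
    refine jn 191 (by decide +kernel) ?_
    refine jn 195 (by decide +kernel) ?_
    refine jn 207 (by decide +kernel) ?_
    refine jn 212 (by decide +kernel) ?_
    refine jn 221 (by decide +kernel) ?_
    refine jn 222 (by decide +kernel) ?_
    refine jn 223 (by decide +kernel) ?_
    refine jn 225 (by decide +kernel) ?_
    refine jn 226 (by decide +kernel) ?_
    refine jn 236 (by decide +kernel) ?_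
    refine jn 242 (by decide +kernel) ?_
    refine jn 251 (by decide +kernel) ?_
    refine jn 253 (by decide +kernel) ?_
    refine jn 254 (by decide +kernel) ?_
    refine jn 255 (by decide +kernel) ?_
    refine jn 257 (by decide +kernel) ?_
    refine jn 270 (by decide +kernel) ?_
    refine jn 282 (by decide +kernel) ?_
    refine jn 291 (by decide +kernel) ?_
    refine jn 292 (by decide +kernel) ?_
    refine jn 293 (by decide +kernel) ?_
    refine jn 298 (by decide +kernel) ?_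
    refine jn 299 (by decide +kernel) ?_
    refine jn 308 (by decide +kernel) ?_
    refine jn 314 (by decide +kernel) ?_
    refine jn 316 (by decide +kernel) ?_
    refine jn 328 (by decide +kernel) ?_
    refine jn 343 (by decide +kernel) ?_
    refine jn 358 (by decide +kernel) ?_
    refine jn 370 (by decide +kernel) ?_
    refine jn 372 (by decide +kernel) ?_
    refine jn 374 (by decide +kernel) ?_
    refine jn 386 (by decide +kernel) ?_
    refine jn 400 (by decide +kernel) ?_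
    refine jn 409 (by decide +kernel) ?_
    refine jn 412 (by decide +kernel) ?_
    refine jn 413 (by decide +kernel) ?_
    refine jn 414 (by decide +kernel) ?_
    refine jn 416 (by decide +kernel) ?_
    refine jn 428 (by decide +kernel) ?_
    refine jn 445 (by decide +kernel) ?_
    refine jn 448 (by decide +kernel) ?_
    refine jn 449 (by decide +kernel) ?_
    refine jn 450 (by decide +kernel) ?_
    refine jn 452 (by decide +kernel) ?_
    refine jn 465 (by decide +kernel) ?_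
    refine jn 483 (by decide +kernel) ?_
    refine jn 496 (by decide +kernel) ?_
    refine jn 507 (by decide +kernel) ?_
    refine jn 526 (by decide +kernel) ?_
    refine jn 529 (by decide +kernel) ?_
    refine jn 540 (by decide +kernel) ?_
    refine jn 547 (by decide +kernel) ?_
    refine jn 550 (by decide +kernel) ?_
    refine jn 567 (by decide +kernel) ?_
    refine jn 576 (by decide +kernel) ?_
    refine jn 584 (by decide +kernel) ?_
    refine jn 599 (by decide +kernel) ?_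
    refine jn 600 (by decide +kernel) ?_
    refine jn 603 (by decide +kernel) ?_
    refine jn 619 (by decide +kernel) ?_
    refine jn 634 (by decide +kernel) ?_
    refine jn 644 (by decide +kernel) ?_
    refine jn 652 (by decide +kernel) ?_
    refine jn 661 (by decide +kernel) ?_
    refine jn 670 (by decide +kernel) ?_
    refine jn 678 (by decide +kernel) ?_
    refine jn 695 (by decide +kernel) ?_
    refine jn 711 (by decide +kernel) ?_
    refine jn 718 (by decide +kernel) ?_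
    refine jn 726 (by decide +kernel) ?_
    refine jn 735 (by decide +kernel) ?_
    refine jn 750 (by decide +kernel) ?_
    refine jn 760 (by decide +kernel) ?_
    refine jn 780 (by decide +kernel) ?_
    refine jn 793 (by decide +kernel) ?_
    refine jn 801 (by decide +kernel) ?_
    refine jn 803 (by decide +kernel) ?_
    refine jn 812 (by decide +kernel) ?_
    refine jn 826 (by decide +kernel) ?_
    refine jn 859 (by decide +kernel) ?_
    refine jn 879 (by decide +kernel) ?_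
    refine jn 913 (by decide +kernel) ?_
    refine jn 951 (by decide +kernel) ?_
    refine jn 991 (by decide +kernel) ?_
    refine jn 1026 (by decide +kernel) ?_
    refine jn 1071 (by decide +kernel) ?_
    refine jn 1093 (by decide +kernel) ?_
    refine jn 1102 (by decide +kernel) ?_
    refine jn 1103 (by decide +kernel) ?_
    refine jn 1116 (by decide +kernel) ?_
    refine jn 1122 (by decide +kernel) ?_
    refine jn 1126 (by decide +kernel) ?_
    refine jn 1127 (by decide +kernel) ?_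
    refine jn 1134 (by decide +kernel) ?_
    refine jn 1135 (by decide +kernel) ?_
    refine jn 1153 (by decide +kernel) ?_
    refine jn 1158 (by decide +kernel) ?_
    refine jn 1164 (by decide +kernel) ?_
    refine jn 1182 (by decide +kernel) ?_
    refine jn 1183 (by decide +kernel) ?_
    refine jn 1197 (by decide +kernel) ?_
    refine jn 1206 (by decide +kernel) ?_
    refine jn 1212 (by decide +kernel) ?_
    refine jn 1224 (by decide +kernel) ?_
    refine jn 1233 (by decide +kernel) ?_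
    refine jn 1242 (by decide +kernel) ?_
    refine jn 1246 (by decide +kernel) ?_
    refine jn 1248 (by decide +kernel) ?_
    refine jn 1258 (by decide +kernel) ?_
    refine jn 1272 (by decide +kernel) ?_
    refine jn 1281 (by decide +kernel) ?_
    refine jn 1284 (by decide +kernel) ?_
    refine jn 1309 (by decide +kernel) ?_
    refine jn 1314 (by decide +kernel) ?_
    refine jn 1318 (by decide +kernel) ?_
    refine jn 1324 (by decide +kernel) ?_
    refine jn 1326 (by decide +kernel) ?_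
    refine jn 1332 (by decide +kernel) ?_
    refine jn 1339 (by decide +kernel) ?_
    refine jn 1376 (by decide +kernel) ?_
    refine jn 1421 (by decide +kernel) ?_
    refine jn 1466 (by decide +kernel) ?_
    refine jn 1531 (by decide +kernel) ?_
    refine jn 1564 (by decide +kernel) ?_
    refine jn 1571 (by decide +kernel) ?_
    refine jn 1580 (by decide +kernel) ?_
    refine jn 1591 (by decide +kernel) ?_
    refine jn 1604 (by decide +kernel) ?_
    refine jn 1616 (by decide +kernel) ?_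
    refine jn 1624 (by decide +kernel) ?_
    refine jn 1631 (by decide +kernel) ?_
    refine jn 1636 (by decide +kernel) ?_
    refine jn 1639 (by decide +kernel) ?_
    refine jn 1643 (by decide +kernel) ?_
    refine jn 1655 (by decide +kernel) ?_
    refine jn 1658 (by decide +kernel) ?_
    refine jn 1676 (by decide +kernel) ?_
    refine jn 1690 (by decide +kernel) ?_
    refine jn 1700 (by decide +kernel) ?_
    refine jn 1708 (by decide +kernel) ?_
    refine jn 1723 (by decide +kernel) ?_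
    refine jn 1744 (by decide +kernel) ?_
    refine jn 1751 (by decide +kernel) ?_
    refine jn 1756 (by decide +kernel) ?_
    refine jn 1769 (by decide +kernel) ?_
    refine jn 1803 (by decide +kernel) ?_
    refine jn 1832 (by decide +kernel) ?_
    refine jn 1854 (by decide +kernel) ?_
    refine jn 1883 (by decide +kernel) ?_
    refine jn 1907 (by decide +kernel) ?_
    refine jn 1937 (by decide +kernel) ?_
    refine jn 1967 (by decide +kernel) ?_
    refine jn 2019 (by decide +kernel) ?_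
    refine jn 2043 (by decide +kernel) ?_
    refine jn 2081 (by decide +kernel) ?_
    refine jn 2106 (by decide +kernel) ?_
    refine jn 2150 (by decide +kernel) ?_
    refine jn 2198 (by decide +kernel) ?_
    refine jn 2213 (by decide +kernel) ?_
    refine jn 2246 (by decide +kernel) ?_
    refine jn 2291 (by decide +kernel) ?_
    refine jn 2337 (by decide +kernel) ?_
    refine jn 2366 (by decide +kernel) ?_
    refine jn 2406 (by decide +kernel) ?_
    refine jn 2453 (by decide +kernel) ?_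
    refine jn 2493 (by decide +kernel) ?_
    refine jn 2553 (by decide +kernel) ?_
    refine jn 2615 (by decide +kernel) ?_
    refine jn 2669 (by decide +kernel) ?_
    refine jn 2729 (by decide +kernel) ?_
    refine jn 2795 (by decide +kernel) ?_
    refine jn 2865 (by decide +kernel) ?_
    refine jn 2958 (by decide +kernel) ?_
    refine jn 3023 (by decide +kernel) ?_
    refine jn 3089 (by decide +kernel) ?_
    refine jn 3256 (by decide +kernel) ?_
    refine jn 3320 (by decide +kernel) ?_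
    refine jn 3415 (by decide +kernel) ?_
    refine jn 3496 (by decide +kernel) ?_
    refine jn 3572 (by decide +kernel) ?_
    refine jn 3665 (by decide +kernel) ?_
    refine jn 3754 (by decide +kernel) ?_
    refine jn 3847 (by decide +kernel) ?_
    refine jn 3916 (by decide +kernel) ?_
    refine jn 4004 (by decide +kernel) ?_
    refine jn 4085 (by decide +kernel) ?_
    refine jn 4402 (by decide +kernel) ?_
    refine jn 4557 (by decide +kernel) ?_
    refine jn 4694 (by decide +kernel) ?_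
    refine jn 4800 (by decide +kernel) ?_
    refine jn 5062 (by decide +kernel) ?_
    refine jn 5181 (by decide +kernel) ?_
    refine jn 5271 (by decide +kernel) ?_
    refine jn 5344 (by decide +kernel) ?_
    refine jn 5634 (by decide +kernel) ?_
    refine jn 5824 (by decide +kernel) ?_
    refine jn 5932 (by decide +kernel) ?_
    refine jn 6199 (by decide +kernel) ?_
    refine jn 6548 (by decide +kernel) ?_
    refine jn 6687 (by decide +kernel) ?_
    exact je (by decide +kernel)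
  · refine fin 4488 17376 T142_1 ?_
    refine jn 11 (by decide +kernel) ?_
    refine jn 17 (by decide +kernel) ?_
    refine jn 22 (by decide +kernel) ?_
    refine jn 27 (by decide +kernel) ?_
    refine jn 34 (by decide +kernel) ?_
    refine jn 39 (by decide +kernel) ?_
    refine jn 70 (by decide +kernel) ?_
    refine jn 83 (by decide +kernel) ?_
    refine jn 93 (by decide +kernel) ?_
    refine jn 104 (by decide +kernel) ?_
    refine jn 123 (by decide +kernel) ?_
    refine jn 141 (by decide +kernel) ?_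
    refine jn 167 (by decide +kernel) ?_
    refine jn 176 (by decide +kernel) ?_
    refine jn 208 (by decide +kernel) ?_
    refine jn 220 (by decide +kernel) ?_
    refine jn 247 (by decide +kernel) ?_
    refine jn 260 (by decide +kernel) ?_
    refine jn 281 (by decide +kernel) ?_
    refine jn 306 (by decide +kernel) ?_
    refine jn 307 (by decide +kernel) ?_
    refine jn 308 (by decide +kernel) ?_
    refine jn 309 (by decide +kernel) ?_
    refine jn 310 (by decide +kernel) ?_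
    refine jn 314 (by decide +kernel) ?_
    refine jn 316 (by decide +kernel) ?_
    refine jn 317 (by decide +kernel) ?_
    refine jn 318 (by decide +kernel) ?_
    refine jn 319 (by decide +kernel) ?_
    refine jn 320 (by decide +kernel) ?_
    refine jn 321 (by decide +kernel) ?_
    refine jn 322 (by decide +kernel) ?_
    refine jn 323 (by decide +kernel) ?_
    refine jn 324 (by decide +kernel) ?_
    refine jn 325 (by decide +kernel) ?_
    refine jn 326 (by decide +kernel) ?_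
    refine jn 327 (by decide +kernel) ?_
    refine jn 328 (by decide +kernel) ?_
    refine jn 329 (by decide +kernel) ?_
    refine jn 336 (by decide +kernel) ?_
    refine jn 347 (by decide +kernel) ?_
    refine jn 354 (by decide +kernel) ?_
    refine jn 369 (by decide +kernel) ?_
    refine jn 392 (by decide +kernel) ?_
    refine jn 409 (by decide +kernel) ?_
    refine jn 426 (by decide +kernel) ?_
    refine jn 443 (by decide +kernel) ?_
    refine jn 450 (by decide +kernel) ?_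
    refine jn 466 (by decide +kernel) ?_
    refine jn 476 (by decide +kernel) ?_
    refine jn 477 (by decide +kernel) ?_
    refine jn 478 (by decide +kernel) ?_
    refine jn 479 (by decide +kernel) ?_
    refine jn 493 (by decide +kernel) ?_
    refine jn 505 (by decide +kernel) ?_
    refine jn 520 (by decide +kernel) ?_
    refine jn 535 (by decide +kernel) ?_
    refine jn 553 (by decide +kernel) ?_
    refine jn 566 (by decide +kernel) ?_
    refine jn 579 (by decide +kernel) ?_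
    refine jn 594 (by decide +kernel) ?_
    refine jn 609 (by decide +kernel) ?_
    refine jn 624 (by decide +kernel) ?_
    refine jn 640 (by decide +kernel) ?_
    refine jn 659 (by decide +kernel) ?_
    refine jn 777 (by decide +kernel) ?_
    refine jn 793 (by decide +kernel) ?_
    refine jn 849 (by decide +kernel) ?_
    refine jn 873 (by decide +kernel) ?_
    refine jn 899 (by decide +kernel) ?_
    refine jn 967 (by decide +kernel) ?_
    refine jn 1092 (by decide +kernel) ?_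
    refine jn 1169 (by decide +kernel) ?_
    refine jn 1197 (by decide +kernel) ?_
    refine jn 1233 (by decide +kernel) ?_
    refine jn 1277 (by decide +kernel) ?_
    refine jn 1310 (by decide +kernel) ?_
    refine jn 1330 (by decide +kernel) ?_
    refine jn 1370 (by decide +kernel) ?_
    refine jn 1390 (by decide +kernel) ?_
    refine jn 1436 (by decide +kernel) ?_
    refine jn 1696 (by decide +kernel) ?_
    refine jn 1716 (by decide +kernel) ?_
    refine jn 1800 (by decide +kernel) ?_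
    refine jn 1828 (by decide +kernel) ?_
    refine jn 1870 (by decide +kernel) ?_
    refine jn 1930 (by decide +kernel) ?_
    refine jn 2014 (by decide +kernel) ?_
    refine jn 2042 (by decide +kernel) ?_
    refine jn 2126 (by decide +kernel) ?_
    refine jn 2294 (by decide +kernel) ?_
    refine jn 2425 (by decide +kernel) ?_
    refine jn 2521 (by decide +kernel) ?_
    refine jn 2597 (by decide +kernel) ?_
    refine jn 2683 (by decide +kernel) ?_
    refine jn 2769 (by decide +kernel) ?_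
    refine jn 2849 (by decide +kernel) ?_
    refine jn 2957 (by decide +kernel) ?_
    refine jn 3057 (by decide +kernel) ?_
    refine jn 3180 (by decide +kernel) ?_
    refine jn 3295 (by decide +kernel) ?_
    refine jn 3420 (by decide +kernel) ?_
    refine jn 3612 (by decide +kernel) ?_
    refine jn 3755 (by decide +kernel) ?_
    refine jn 3947 (by decide +kernel) ?_
    refine jn 4091 (by decide +kernel) ?_
    refine jn 4251 (by decide +kernel) ?_
    refine jn 4415 (by decide +kernel) ?_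
    refine jn 4658 (by decide +kernel) ?_
    refine jn 4926 (by decide +kernel) ?_
    refine jn 5186 (by decide +kernel) ?_
    refine jn 5534 (by decide +kernel) ?_
    refine jn 5841 (by decide +kernel) ?_
    refine jn 6153 (by decide +kernel) ?_
    refine jn 6441 (by decide +kernel) ?_
    refine jn 6717 (by decide +kernel) ?_
    refine jn 7080 (by decide +kernel) ?_
    refine jn 7433 (by decide +kernel) ?_
    refine jn 7897 (by decide +kernel) ?_
    refine jn 8400 (by decide +kernel) ?_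
    refine jn 8912 (by decide +kernel) ?_
    refine jn 9420 (by decide +kernel) ?_
    refine jn 9921 (by decide +kernel) ?_
    refine jn 10457 (by decide +kernel) ?_
    refine jn 10696 (by decide +kernel) ?_
    refine jn 10859 (by decide +kernel) ?_
    refine jn 10987 (by decide +kernel) ?_
    refine jn 11103 (by decide +kernel) ?_
    refine jn 11492 (by decide +kernel) ?_
    refine jn 11871 (by decide +kernel) ?_
    refine jn 12120 (by decide +kernel) ?_
    refine jn 12296 (by decide +kernel) ?_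
    refine jn 12442 (by decide +kernel) ?_
    refine jn 12926 (by decide +kernel) ?_
    refine jn 13183 (by decide +kernel) ?_
    refine jn 13378 (by decide +kernel) ?_
    refine jn 13525 (by decide +kernel) ?_
    refine jn 13651 (by decide +kernel) ?_
    refine jn 13755 (by decide +kernel) ?_
    refine jn 14372 (by decide +kernel) ?_
    refine jn 14616 (by decide +kernel) ?_
    refine jn 14839 (by decide +kernel) ?_
    refine jn 15022 (by decide +kernel) ?_
    refine jn 15682 (by decide +kernel) ?_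
    refine jn 16002 (by decide +kernel) ?_
    refine jn 16229 (by decide +kernel) ?_
    refine jn 16815 (by decide +kernel) ?_
    exact je (by decide +kernel)
  · refine fin 2088 2297 T142_2 ?_
    refine jn 3 (by decide +kernel) ?_
    refine jn 4 (by decide +kernel) ?_
    refine jn 5 (by decide +kernel) ?_
    refine jn 6 (by decide +kernel) ?_
    refine jn 7 (by decide +kernel) ?_
    refine jn 8 (by decide +kernel) ?_
    refine jn 9 (by decide +kernel) ?_
    refine jn 10 (by decide +kernel) ?_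
    refine jn 11 (by decide +kernel) ?_
    refine jn 12 (by decide +kernel) ?_
    refine jn 13 (by decide +kernel) ?_
    refine jn 14 (by decide +kernel) ?_
    refine jn 15 (by decide +kernel) ?_
    refine jn 16 (by decide +kernel) ?_
    refine jn 17 (by decide +kernel) ?_
    refine jn 21 (by decide +kernel) ?_
    refine jn 42 (by decide +kernel) ?_
    refine jn 47 (by decide +kernel) ?_
    refine jn 51 (by decide +kernel) ?_
    refine jn 56 (by decide +kernel) ?_
    refine jn 61 (by decide +kernel) ?_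
    refine jn 66 (by decide +kernel) ?_
    refine jn 71 (by decide +kernel) ?_
    refine jn 77 (by decide +kernel) ?_
    refine jn 78 (by decide +kernel) ?_
    refine jn 79 (by decide +kernel) ?_
    refine jn 80 (by decide +kernel) ?_
    refine jn 81 (by decide +kernel) ?_
    refine jn 82 (by decide +kernel) ?_
    refine jn 83 (by decide +kernel) ?_
    refine jn 84 (by decide +kernel) ?_
    refine jn 88 (by decide +kernel) ?_
    refine jn 92 (by decide +kernel) ?_
    refine jn 96 (by decide +kernel) ?_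
    refine jn 101 (by decide +kernel) ?_
    refine jn 105 (by decide +kernel) ?_
    refine jn 134 (by decide +kernel) ?_
    refine jn 141 (by decide +kernel) ?_
    refine jn 142 (by decide +kernel) ?_
    refine jn 143 (by decide +kernel) ?_
    refine jn 144 (by decide +kernel) ?_
    refine jn 145 (by decide +kernel) ?_
    refine jn 146 (by decide +kernel) ?_
    refine jn 147 (by decide +kernel) ?_
    refine jn 148 (by decide +kernel) ?_
    refine jn 149 (by decide +kernel) ?_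
    refine jn 150 (by decide +kernel) ?_
    refine jn 151 (by decide +kernel) ?_
    refine jn 152 (by decide +kernel) ?_
    refine jn 153 (by decide +kernel) ?_
    refine jn 154 (by decide +kernel) ?_
    refine jn 155 (by decide +kernel) ?_
    refine jn 156 (by decide +kernel) ?_
    refine jn 157 (by decide +kernel) ?_
    refine jn 158 (by decide +kernel) ?_
    refine jn 159 (by decide +kernel) ?_
    refine jn 160 (by decide +kernel) ?_
    refine jn 161 (by decide +kernel) ?_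
    refine jn 165 (by decide +kernel) ?_
    refine jn 173 (by decide +kernel) ?_
    refine jn 174 (by decide +kernel) ?_
    refine jn 175 (by decide +kernel) ?_
    refine jn 176 (by decide +kernel) ?_
    refine jn 177 (by decide +kernel) ?_
    refine jn 178 (by decide +kernel) ?_
    refine jn 179 (by decide +kernel) ?_
    refine jn 180 (by decide +kernel) ?_
    refine jn 181 (by decide +kernel) ?_
    refine jn 182 (by decide +kernel) ?_
    refine jn 183 (by decide +kernel) ?_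
    refine jn 184 (by decide +kernel) ?_
    refine jn 190 (by decide +kernel) ?_
    refine jn 193 (by decide +kernel) ?_
    refine jn 194 (by decide +kernel) ?_
    refine jn 195 (by decide +kernel) ?_
    refine jn 196 (by decide +kernel) ?_
    refine jn 198 (by decide +kernel) ?_
    refine jn 200 (by decide +kernel) ?_
    refine jn 202 (by decide +kernel) ?_
    refine jn 212 (by decide +kernel) ?_
    refine jn 213 (by decide +kernel) ?_
    refine jn 214 (by decide +kernel) ?_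
    refine jn 215 (by decide +kernel) ?_
    refine jn 217 (by decide +kernel) ?_
    refine jn 219 (by decide +kernel) ?_
    refine jn 225 (by decide +kernel) ?_
    refine jn 226 (by decide +kernel) ?_
    refine jn 227 (by decide +kernel) ?_
    refine jn 228 (by decide +kernel) ?_
    refine jn 229 (by decide +kernel) ?_
    refine jn 230 (by decide +kernel) ?_
    refine jn 232 (by decide +kernel) ?_
    refine jn 233 (by decide +kernel) ?_
    refine jn 234 (by decide +kernel) ?_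
    refine jn 235 (by decide +kernel) ?_
    refine jn 236 (by decide +kernel) ?_
    refine jn 246 (by decide +kernel) ?_
    refine jn 247 (by decide +kernel) ?_
    refine jn 248 (by decide +kernel) ?_
    refine jn 249 (by decide +kernel) ?_
    refine jn 258 (by decide +kernel) ?_
    refine jn 260 (by decide +kernel) ?_
    refine jn 261 (by decide +kernel) ?_
    refine jn 263 (by decide +kernel) ?_
    refine jn 265 (by decide +kernel) ?_
    refine jn 274 (by decide +kernel) ?_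
    refine jn 275 (by decide +kernel) ?_
    refine jn 276 (by decide +kernel) ?_
    refine jn 283 (by decide +kernel) ?_
    refine jn 285 (by decide +kernel) ?_
    refine jn 295 (by decide +kernel) ?_
    refine jn 299 (by decide +kernel) ?_
    refine jn 300 (by decide +kernel) ?_
    refine jn 301 (by decide +kernel) ?_
    refine jn 302 (by decide +kernel) ?_
    refine jn 309 (by decide +kernel) ?_
    refine jn 316 (by decide +kernel) ?_
    refine jn 317 (by decide +kernel) ?_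
    refine jn 318 (by decide +kernel) ?_
    refine jn 324 (by decide +kernel) ?_
    refine jn 328 (by decide +kernel) ?_
    refine jn 329 (by decide +kernel) ?_
    refine jn 330 (by decide +kernel) ?_
    refine jn 336 (by decide +kernel) ?_
    refine jn 346 (by decide +kernel) ?_
    refine jn 355 (by decide +kernel) ?_
    refine jn 366 (by decide +kernel) ?_
    refine jn 368 (by decide +kernel) ?_
    refine jn 374 (by decide +kernel) ?_
    refine jn 376 (by decide +kernel) ?_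
    refine jn 383 (by decide +kernel) ?_
    refine jn 388 (by decide +kernel) ?_
    refine jn 396 (by decide +kernel) ?_
    refine jn 406 (by decide +kernel) ?_
    refine jn 408 (by decide +kernel) ?_
    refine jn 414 (by decide +kernel) ?_
    refine jn 425 (by decide +kernel) ?_
    refine jn 430 (by decide +kernel) ?_
    refine jn 432 (by decide +kernel) ?_
    refine jn 444 (by decide +kernel) ?_
    refine jn 454 (by decide +kernel) ?_
    refine jn 460 (by decide +kernel) ?_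
    refine jn 475 (by decide +kernel) ?_
    refine jn 483 (by decide +kernel) ?_
    refine jn 500 (by decide +kernel) ?_
    refine jn 513 (by decide +kernel) ?_
    refine jn 535 (by decide +kernel) ?_
    refine jn 557 (by decide +kernel) ?_
    refine jn 575 (by decide +kernel) ?_
    refine jn 582 (by decide +kernel) ?_
    refine jn 606 (by decide +kernel) ?_
    refine jn 626 (by decide +kernel) ?_
    refine jn 686 (by decide +kernel) ?_
    refine jn 700 (by decide +kernel) ?_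
    refine jn 714 (by decide +kernel) ?_
    refine jn 715 (by decide +kernel) ?_
    refine jn 739 (by decide +kernel) ?_
    refine jn 759 (by decide +kernel) ?_
    refine jn 771 (by decide +kernel) ?_
    refine jn 791 (by decide +kernel) ?_
    refine jn 819 (by decide +kernel) ?_
    refine jn 830 (by decide +kernel) ?_
    refine jn 858 (by decide +kernel) ?_
    refine jn 876 (by decide +kernel) ?_
    refine jn 895 (by decide +kernel) ?_
    refine jn 908 (by decide +kernel) ?_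
    refine jn 924 (by decide +kernel) ?_
    refine jn 1005 (by decide +kernel) ?_
    refine jn 1056 (by decide +kernel) ?_
    refine jn 1137 (by decide +kernel) ?_
    refine jn 1209 (by decide +kernel) ?_
    refine jn 1293 (by decide +kernel) ?_
    refine jn 1394 (by decide +kernel) ?_
    refine jn 1476 (by decide +kernel) ?_
    refine jn 1538 (by decide +kernel) ?_
    refine jn 1565 (by decide +kernel) ?_
    refine jn 1606 (by decide +kernel) ?_
    refine jn 1654 (by decide +kernel) ?_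
    refine jn 1701 (by decide +kernel) ?_
    refine jn 1757 (by decide +kernel) ?_
    refine jn 1810 (by decide +kernel) ?_
    refine jn 1865 (by decide +kernel) ?_
    refine jn 1936 (by decide +kernel) ?_
    refine jn 1977 (by decide +kernel) ?_
    refine jn 2018 (by decide +kernel) ?_
    exact je (by decide +kernel)

end Pool.Agent.MP_2339ce_nt.NR
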