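import Pool.Agent.MP_2339ce_nt.Q2.NC.L3
import Pool.Agent.MP_2339ce_nt.Q2.NC.L6
import Pool.Agent.MP_2339ce_nt.Q2.CkI

/-! Block NR: runs. -/

set_option autoImplicit false
set_option maxRecDepth 100000

noncomputable section

namespace Pool.Agent.MP_2339ce_nt.NR

open Q2.Top

def T144_0 : Ph :=
  (.na 471 138 (.na 321 49 (.na 230 18 (.na 156 9 (.na 119 6 (.na 70 2 (.nx 69 330282 (.nr 68
  311745 (.nx 39 20644 (.nx 2 17 (.nr 1 5 (.lg 0 true 1 23 23 5 0 1224) (.l1 .sk)) (.nx 3 18 (.l1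
  .sk) (.nr 26 38969 (.nx 10 324 (.lg 0 true 7 79 79 9 0 8568) (.nr 25 4872 (.nr 18 309 (.lg 0
  false 8 73 73 9 0 12240) (.lg 2 false 7 83 83 9 2184 8568)) .out)) (.nx 38 52 (.lg 0 false 12 79
  79 9 0 2448) .out)))) (.nr 67 78 (.lg 0 true 28 79 79 11 0 17136) .out)) .out) .out) (.na 118 3
  (.nx 117 330282 (.nr 116 623489 (.nx 73 18 (.nx 72 17 (.nr 71 8 (.lg 0 true 1 23 23 5 0 188496)
  (.l1 .sk)) (.l1 .sk)) (.nx 94 726 (.nr 78 65537 (.lg 0 true 5 89 89 9 0 12240) (.nx 93 52 (.lg 0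
  false 15 73 73 9 0 12240) .out)) (.nr 115 9743 (.nr 109 154 (.lg 0 true 15 73 73 9 0 12240) (.nx
  114 20644 (.lg 2 true 5 83 83 9 1944 12240) .out)) .out))) .out) .out) .ne)) (.na 138 7 (.nx 137
  330282 (.nr 136 27556 (.nr 120 5 .s1 (.nx 128 3252 (.nx 122 17 (.nr 121 21 (.lg 0 false 1 16 16 7
  0 12240) (.l1 .sk)) (.nx 123 18 (.l1 .sk) (.lg 0 true 5 79 79 13 0 12240))) (.nr 135 154 (.lg 0
  true 7 73 73 13 0 17136) .out))) .out) .out) (.na 155 8 (.nx 154 330282 (.nr 153 32769 (.nr 139 6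
  .s1 (.nx 142 18 (.nx 141 17 (.nr 140 24 (.l1 (.ls 16 16 44)) (.l1 .sk)) (.l1 .sk)) (.nx 147 3252
  (.lg 0 true 5 79 79 16 0 42840) (.nr 152 183 (.lg 0 true 5 71 71 16 0 42840) .out)))) .out) .out)
  .ne))) (.na 199 14 (.na 180 10 (.nx 179 330282 (.nr 178 77937 (.nr 157 9 .s1 (.nr 165 217 (.nx
  158 208 (.l1 (.ls 37 41 4810)) (.lg 0 true 7 71 71 16 0 8568)) (.nx 167 18 (.nx 166 17 (.l1 .sk)
  (.l1 .sk)) (.nx 177 20644 (.nx 171 2851 (.lg 0 true 4 83 83 16 0 2448) (.nr 176 38969 (.lg 1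
  false 5 67 67 16 1977 6120) .out)) .out)))) .out) .out) (.na 181 13 .ne (.nx 198 330282 (.nr 197
  77937 (.nr 182 13 .s1 (.nx 184 17 (.nr 183 42 (.l1 (.ls 16 16 25)) (.l1 .sk)) (.nx 185 18 (.l1
  .sk) (.nx 190 2851 (.lg 0 false 5 73 73 16 0 79560) (.nr 196 27556 (.nr 194 154 (.lg 0 true 4 67
  67 16 0 31824) (.nx 195 20644 (.lg 1 false 1 73 73 9 1398 175032) .out)) .out))))) .out) .out)))
  (.na 215 16 (.nx 214 330282 (.nr 213 77937 (.nr 200 14 .s1 (.nx 202 17 (.nr 201 48 (.l1 (.ls 23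
  13 23)) (.l1 .sk)) (.nx 203 18 (.l1 .sk) (.nx 206 2851 (.lg 0 true 3 83 83 13 0 85680) (.nr 212
  27556 (.nr 210 154 (.lg 0 true 4 71 71 13 0 17136) (.nx 211 20644 (.lg 1 false 1 79 79 11 1398
  85680) .out)) .out))))) .out) .out) (.na 216 17 .ne (.nx 229 330282 (.nr 228 131073 (.nr 217 17
  .s1 (.nx 224 20644 (.nx 218 324 (.l1 (.ls 67 41 6178)) (.nr 223 77937 (.lg 1 true 5 73 73 13
  34821 6120) .out)) (.nr 227 154 (.lg 0 false 3 61 61 11 0 1224) .out))) .out) .out))))) (.na 289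
  32 (.na 265 26 (.na 245 22 (.nx 244 330282 (.nr 243 131073 (.nr 231 18 .s1 (.nx 233 17 (.nr 232
  65 (.l1 (.ls 16 13 19)) (.l1 .sk)) (.nx 234 18 (.l1 .sk) (.nx 239 3252 (.lg 0 false 5 79 79 19 0
  12240) (.nr 242 27556 (.nr 240 154 (.lg 0 false 1 73 73 13 0 17136) (.nx 241 20644 (.lg 1 false 1
  71 71 13 1226 2448) .out)) .out))))) .out) .out) (.na 257 23 (.nx 256 330282 (.nr 255 131073 (.nr
  246 22 .s1 (.nx 251 2049 (.nx 248 17 (.nr 247 68 (.l1 (.ls 16 13 16)) (.l1 .sk)) (.nx 249 18 (.l1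
  .sk) (.lg 0 true 2 79 79 13 0 26928))) (.nr 254 32769 (.nr 252 154 (.lg 0 false 1 73 73 9 0
  26928) (.nx 253 20644 (.lg 1 false 1 73 73 9 2313 26928) .out)) .out))) .out) .out) (.nx 264
  41287 (.nr 263 131073 (.nr 258 23 .s1 (.nx 259 324 (.l1 (.ls 71 41 4567)) (.nr 262 32769 (.nx 260
  3252 (.lg 0 true 1 79 79 11 0 8568) (.nr 261 257 (.lg 0 false 1 61 61 11 0 1224) .out)) .out)))
  .out) .out))) (.na 273 27 (.nx 272 41287 (.nr 271 131073 (.nr 266 26 .s1 (.nx 267 324 (.l1 (.ls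
  73 43 4040)) (.nr 270 32769 (.nx 268 3252 (.lg 0 true 1 83 83 11 0 1113840) (.nr 269 257 (.lg 0
  false 1 67 67 11 0 1113840) .out)) .out))) .out) .out) (.na 281 31 (.nx 280 41287 (.nr 279 131073
  (.nr 274 27 .s1 (.nx 277 3252 (.nx 275 324 (.l1 (.ls 67 41 3890)) (.nr 276 32769 (.lg 0 true 1 71
  71 16 0 1224) .out)) (.nr 278 257 (.lg 0 false 1 53 53 16 0 1224) .out))) .out) .out) (.nx 288
  41287 (.nr 287 131073 (.nr 282 31 .s1 (.nx 283 324 (.l1 (.ls 71 29 3389)) (.nr 286 32769 (.nx 284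
  3252 (.lg 0 true 1 79 79 13 0 1224) (.nr 285 257 (.lg 0 false 1 61 61 13 0 1224) .out)) .out)))
  .out) .out)))) (.na 303 39 (.na 290 33 .ne (.na 296 34 (.nx 295 41287 (.nr 294 262145 (.nr 291 33
  .s1 (.nx 292 324 (.l1 (.ls 73 41 3184)) (.nr 293 4097 (.lg 0 false 1 73 73 16 0 13464) .out)))
  .out) .out) (.nx 302 41287 (.nr 301 262145 (.nr 297 34 .s1 (.nx 298 324 (.l1 (.ls 67 43 3090))
  (.nr 300 4097 (.lg 0 false 2 67 67 13 0 2448) .out))) .out) .out))) (.na 309 42 (.nx 308 41287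
  (.nr 307 262145 (.nr 304 39 .s1 (.nx 305 324 (.l1 (.ls 79 41 2694)) (.nr 306 4097 (.lg 0 false 1
  73 73 17 0 15912) .out))) .out) .out) (.na 315 46 (.nx 314 41287 (.nr 313 262145 (.nr 310 42 .s1
  (.nx 311 324 (.l1 (.ls 73 47 2502)) (.nr 312 4097 (.lg 0 false 1 73 73 23 0 17136) .out))) .out)
  .out) (.nx 320 41287 (.nr 319 262145 (.nr 316 46 .s1 (.nx 317 324 (.l1 (.ls 73 43 2285)) (.nr 318
  4097 (.lg 0 false 1 79 79 13 0 2448) .out))) .out) .out)))))) (.na 396 81 (.na 352 66 (.na 339 62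
  (.na 327 51 (.nx 326 41287 (.nr 325 262145 (.nr 322 49 .s1 (.nx 323 324 (.l1 (.ls 71 31 2145))
  (.nr 324 4097 (.lg 0 false 1 71 71 16 0 8568) .out))) .out) .out) (.na 333 54 (.nx 332 41287 (.nr
  331 262145 (.nr 328 51 .s1 (.nx 329 324 (.l1 (.ls 67 41 2061)) (.nr 330 4097 (.lg 0 false 1 71 71
  16 0 42840) .out))) .out) .out) (.nx 338 41287 (.nr 337 262145 (.nr 334 54 .s1 (.nx 335 324 (.l1
  (.ls 71 43 1946)) (.nr 336 4097 (.lg 0 false 1 71 71 19 0 2448) .out))) .out) .out))) (.na 345 63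
  (.nx 344 41287 (.nr 343 262145 (.nr 340 62 .s1 (.nx 341 324 (.l1 (.ls 71 41 1696)) (.nr 342 4097
  (.lg 0 false 1 71 71 13 0 2448) .out))) .out) .out) (.na 351 64 (.nx 350 41287 (.nr 349 262145
  (.nr 346 63 .s1 (.nx 347 324 (.l1 (.ls 71 37 1669)) (.nr 348 4097 (.lg 0 false 1 71 71 17 0 8568)
  .out))) .out) .out) .ne))) (.na 374 77 (.na 360 69 (.nx 359 20644 (.nr 358 524289 (.nr 353 66 .s1
  (.nx 354 324 (.l1 (.ls 83 43 1593)) (.nr 357 65537 (.nx 355 3252 (.lg 0 true 1 73 73 29 0 26928)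
  (.nr 356 257 (.lg 0 true 1 53 53 29 0 26928) .out)) .out))) .out) .out) (.na 368 71 (.nx 367
  20644 (.nr 366 524289 (.nr 361 69 .s1 (.nx 362 324 (.l1 (.ls 79 37 1524)) (.nr 365 65537 (.nx 363
  3252 (.lg 0 true 1 73 73 17 0 6120) (.nr 364 257 (.lg 0 true 1 47 47 17 0 6120) .out)) .out)))
  .out) .out) (.nx 373 20644 (.nr 372 524289 (.nr 369 71 .s1 (.nx 370 324 (.l1 (.ls 67 29 1481))
  (.nr 371 65537 (.lg 0 true 1 83 83 16 0 6120) .out))) .out) .out))) (.na 382 78 (.nx 381 20644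
  (.nr 380 524289 (.nr 375 77 .s1 (.nx 376 324 (.l1 (.ls 73 31 1366)) (.nr 379 65537 (.nx 377 3252
  (.lg 0 false 1 71 71 17 0 94248) (.nr 378 257 (.lg 0 true 1 43 43 17 0 94248) .out)) .out)))
  .out) .out) (.na 390 79 (.nx 389 20644 (.nr 388 524289 (.nr 383 78 .s1 (.nx 384 324 (.l1 (.ls 73
  43 1348)) (.nr 387 65537 (.nx 385 3252 (.lg 0 false 1 71 71 29 0 31824) (.nr 386 257 (.lg 0 true
  1 43 43 29 0 31824) .out)) .out))) .out) .out) (.nx 395 20644 (.nr 394 524289 (.nr 391 79 .s1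
  (.nx 392 324 (.l1 (.ls 71 29 1331)) (.nr 393 65537 (.lg 0 true 1 83 83 16 0 1224) .out))) .out)
  .out))))) (.na 434 106 (.na 414 98 (.na 402 89 (.nx 401 20644 (.nr 400 524289 (.nr 397 81 .s1
  (.nx 398 324 (.l1 (.ls 71 31 1298)) (.nr 399 65537 (.lg 0 true 1 73 73 16 0 1224) .out))) .out)
  .out) (.na 408 91 (.nx 407 20644 (.nr 406 524289 (.nr 403 89 .s1 (.nx 404 324 (.l1 (.ls 71 29
  1182)) (.nr 405 65537 (.lg 0 true 1 79 79 16 0 42840) .out))) .out) .out) (.nx 413 20644 (.nr 412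
  524289 (.nr 409 91 .s1 (.nx 410 324 (.l1 (.ls 79 31 1156)) (.nr 411 65537 (.lg 0 true 1 83 83 19
  0 556920) .out))) .out) .out))) (.na 422 101 (.nx 421 20644 (.nr 420 524289 (.nr 415 98 .s1 (.nx
  416 324 (.l1 (.ls 71 37 1074)) (.nr 419 65537 (.nr 417 257 (.lg 2 true 1 23 23 19 1791 17136)
  (.nx 418 3252 (.lg 0 true 1 61 61 19 0 17136) .out)) .out))) .out) .out) (.na 428 102 (.nx 427
  20644 (.nr 426 524289 (.nr 423 101 .s1 (.nx 424 324 (.l1 (.ls 67 23 1042)) (.nr 425 65537 (.lg 0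
  true 1 73 73 16 0 1224) .out))) .out) .out) (.nx 433 20644 (.nr 432 524289 (.nr 429 102 .s1 (.nx
  430 324 (.l1 (.ls 67 43 1032)) (.nr 431 65537 (.lg 0 true 1 73 73 29 0 2448) .out))) .out)
  .out)))) (.na 458 126 (.na 442 119 (.nx 441 20644 (.nr 440 524289 (.nr 435 106 .s1 (.nx 436 324
  (.l1 (.ls 73 31 993)) (.nr 439 65537 (.nr 437 257 (.lg 2 true 1 19 19 19 1656 12240) (.nx 438
  3252 (.lg 0 true 1 67 67 19 0 2448) .out)) .out))) .out) .out) (.na 450 121 (.nx 449 20644 (.nr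
  448 524289 (.nr 443 119 .s1 (.nx 444 324 (.l1 (.ls 71 31 885)) (.nr 447 65537 (.nx 445 3252 (.lg
  1 true 1 59 59 16 29282 8568) (.nr 446 257 (.lg 2 true 1 19 19 16 1475 471240) .out)) .out)))
  .out) .out) (.nx 457 20644 (.nr 456 524289 (.nr 451 121 .s1 (.nx 452 324 (.l1 (.ls 71 29 870))
  (.nr 455 65537 (.nr 453 257 (.lg 2 true 1 23 23 17 1451 12252240) (.nx 454 3252 (.lg 1 true 1 59
  59 17 29282 13464) .out)) .out))) .out) .out))) (.na 464 128 (.nx 463 20644 (.nr 462 524289 (.nr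
  459 126 .s1 (.nx 460 324 (.l1 (.ls 73 41 836)) (.nr 461 65537 (.lg 0 true 1 79 79 31 0 17136)
  .out))) .out) .out) (.na 465 137 .ne (.nx 470 20644 (.nr 469 16385 (.nr 466 137 .s1 (.nx 467 324
  (.l1 (.ls 37 23 769)) (.nr 468 1025 (.lg 2 true 1 23 23 16 1281 1224) .out))) .out) .out)))))))
  (.na 585 202 (.na 538 169 (.na 502 154 (.na 489 147 (.na 477 142 (.nx 476 20644 (.nr 475 16385
  (.nr 472 138 .s1 (.nx 473 324 (.l1 (.ls 47 41 763)) (.nr 474 1025 (.lg 2 true 1 37 37 31 1272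
  17136) .out))) .out) .out) (.na 483 143 (.nx 482 20644 (.nr 481 16385 (.nr 478 142 .s1 (.nx 479
  324 (.l1 (.ls 41 31 742)) (.nr 480 1025 (.lg 2 true 1 29 29 19 1236 17136) .out))) .out) .out)
  (.nx 488 20644 (.nr 487 16385 (.nr 484 143 .s1 (.nx 485 324 (.l1 (.ls 47 31 737)) (.nr 486 1025
  (.lg 2 true 1 37 37 19 1228 175032) .out))) .out) .out))) (.na 495 151 (.nx 494 20644 (.nr 493
  16385 (.nr 490 147 .s1 (.nx 491 324 (.l1 (.ls 43 31 717)) (.nr 492 1025 (.lg 2 false 1 29 29 23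
  1194 8568) .out))) .out) .out) (.na 496 153 (.lg 0 false 1 0 0 16 0 24) (.nx 501 20644 (.nr 500
  16385 (.nr 497 153 .s1 (.nx 498 324 (.l1 (.ls 37 31 689)) (.nr 499 1025 (.lg 2 false 1 19 19 16
  1147 1224) .out))) .out) .out)))) (.na 520 161 (.na 508 158 (.nx 507 20644 (.nr 506 16385 (.nr
  503 154 .s1 (.nx 504 324 (.l1 (.ls 53 41 684)) (.nr 505 1025 (.lg 2 false 1 37 37 31 1140 188496)
  .out))) .out) .out) (.na 514 159 (.nx 513 20644 (.nr 512 16385 (.nr 509 158 .s1 (.nx 510 324 (.l1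
  (.ls 41 31 667)) (.nr 511 1025 (.lg 2 false 1 23 23 19 1111 2448) .out))) .out) .out) (.nx 519
  20644 (.nr 518 16385 (.nr 515 159 .s1 (.nx 516 324 (.l1 (.ls 43 29 663)) (.nr 517 1025 (.lg 2
  true 1 31 31 19 1104 42840) .out))) .out) .out))) (.na 526 162 (.nx 525 20644 (.nr 524 16385 (.nr
  521 161 .s1 (.nx 522 324 (.l1 (.ls 53 31 655)) (.nr 523 1025 (.lg 2 true 1 31 31 17 1090 8568)
  .out))) .out) .out) (.na 532 167 (.nx 531 20644 (.nr 530 16385 (.nr 527 162 .s1 (.nx 528 324 (.l1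
  (.ls 41 37 650)) (.nr 529 1025 (.lg 2 true 1 19 19 23 1084 2448) .out))) .out) .out) (.nx 537
  20644 (.nr 536 16385 (.nr 533 167 .s1 (.nx 534 324 (.l1 (.ls 37 23 631)) (.nr 535 1025 (.lg 2
  true 1 19 19 16 1051 13464) .out))) .out) .out))))) (.na 564 187 (.na 551 179 (.na 544 173 (.nx
  543 20644 (.nr 542 16385 (.nr 539 169 .s1 (.nx 540 324 (.l1 (.ls 41 29 624)) (.nr 541 1025 (.lg 2
  true 1 23 23 17 1039 79560) .out))) .out) .out) (.na 545 178 (.lg 0 false 1 0 0 16 0 24) (.nx 550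
  20644 (.nr 549 16385 (.nr 546 178 .s1 (.nx 547 324 (.l1 (.ls 41 31 592)) (.nr 548 1025 (.lg 2
  false 1 23 23 19 986 188496) .out))) .out) .out))) (.na 552 182 (.lg 0 false 1 0 0 16 0 24) (.na
  558 186 (.nx 557 20644 (.nr 556 16385 (.nr 553 182 .s1 (.nx 554 324 (.l1 (.ls 47 37 579)) (.nr
  555 1025 (.lg 2 false 1 31 31 31 965 222768) .out))) .out) .out) (.nx 563 20644 (.nr 562 16385
  (.nr 559 186 .s1 (.nx 560 324 (.l1 (.ls 29 41 567)) (.nr 561 1025 (.lg 2 false 1 29 29 29 944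
  2448) .out))) .out) .out)))) (.na 572 197 (.na 570 191 (.nx 569 20644 (.nr 568 16385 (.nr 565 187
  .s1 (.nx 566 324 (.l1 (.ls 37 29 564)) (.nr 567 1025 (.lg 2 false 1 19 19 16 939 94248) .out)))
  .out) .out) (.na 571 193 (.lg 0 false 1 0 0 16 0 24) (.lg 0 false 1 0 0 16 0 24))) (.na 573 198
  (.lg 0 false 1 0 0 16 0 24) (.na 579 199 (.nx 578 20644 (.nr 577 16385 (.nr 574 198 .s1 (.nx 575
  324 (.l1 (.ls 47 41 533)) (.nr 576 1025 (.lg 2 true 1 29 29 31 887 188496) .out))) .out) .out)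
  (.nx 584 20644 (.nr 583 16385 (.nr 580 199 .s1 (.nx 581 324 (.l1 (.ls 41 19 530)) (.nr 582 1025
  (.lg 2 true 1 19 19 16 882 42840) .out))) .out) .out)))))) (.na 647 239 (.na 616 229 (.na 603 214
  (.na 591 207 (.nx 590 20644 (.nr 589 16385 (.nr 586 202 .s1 (.nx 587 324 (.l1 (.ls 37 31 522))
  (.nr 588 1025 (.lg 2 true 1 19 19 23 869 2448) .out))) .out) .out) (.na 597 211 (.nx 596 20644
  (.nr 595 16385 (.nr 592 207 .s1 (.nx 593 324 (.l1 (.ls 43 31 510)) (.nr 594 1025 (.lg 2 false 1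
  31 31 19 848 94248) .out))) .out) .out) (.nx 602 20644 (.nr 601 16385 (.nr 598 211 .s1 (.nx 599
  324 (.l1 (.ls 37 19 500)) (.nr 600 1025 (.lg 2 true 1 0 16 16 832 67320) .out))) .out) .out)))
  (.na 609 217 (.nx 608 20644 (.nr 607 16385 (.nr 604 214 .s1 (.nx 605 324 (.l1 (.ls 41 29 493))
  (.nr 606 1025 (.lg 2 true 1 19 19 23 820 85680) .out))) .out) .out) (.na 615 223 (.nx 614 20644
  (.nr 613 16385 (.nr 610 217 .s1 (.nx 611 324 (.l1 (.ls 29 23 486)) (.nr 612 1025 (.lg 2 true 1 23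
  23 19 809 8568) .out))) .out) .out) (.lg 0 false 1 0 0 16 0 24)))) (.na 629 234 (.na 622 231 (.nx
  621 20644 (.nr 620 16385 (.nr 617 229 .s1 (.nx 618 324 (.l1 (.ls 37 19 461)) (.nr 619 1025 (.lg 2
  false 1 19 19 17 767 471240) .out))) .out) .out) (.na 628 233 (.nx 627 20644 (.nr 626 16385 (.nr
  623 231 .s1 (.nx 624 324 (.l1 (.ls 53 31 457)) (.nr 625 1025 (.lg 2 false 1 29 37 31 760 942480)
  .out))) .out) .out) (.lg 0 false 1 0 0 16 0 24))) (.na 635 237 (.nx 634 20644 (.nr 633 16385 (.nr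
  630 234 .s1 (.nx 631 324 (.l1 (.ls 47 41 451)) (.nr 632 1025 (.lg 2 false 1 31 31 37 750
  12252240) .out))) .out) .out) (.na 641 238 (.nx 640 20644 (.nr 639 16385 (.nr 636 237 .s1 (.nx
  637 324 (.l1 (.ls 37 23 445)) (.nr 638 1025 (.lg 2 false 1 16 16 19 741 1224) .out))) .out) .out)
  (.nx 646 20644 (.nr 645 16385 (.nr 642 238 .s1 (.nx 643 324 (.l1 (.ls 37 37 444)) (.nr 644 1025
  (.lg 2 false 1 19 19 31 738 17136) .out))) .out) .out))))) (.na 663 257 (.na 655 243 (.na 648 241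
  (.lg 0 false 1 0 0 16 0 24) (.na 649 242 (.lg 0 false 1 0 0 16 0 24) (.nx 654 20644 (.nr 653
  16385 (.nr 650 242 .s1 (.nx 651 324 (.l1 (.ls 37 31 436)) (.nr 652 1025 (.lg 2 false 1 19 19 29
  726 188496) .out))) .out) .out))) (.na 661 251 (.nx 660 20644 (.nr 659 16385 (.nr 656 243 .s1
  (.nx 657 324 (.l1 (.ls 31 23 434)) (.nr 658 1025 (.lg 2 true 1 19 19 19 723 6126120) .out)))
  .out) .out) (.na 662 256 (.lg 0 false 1 0 0 16 0 24) .ne))) (.na 2408 2048 (.na 1223 512 (.nx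
  1222 20644 (.nr 1221 4097 (.nr 664 257 .s1 (.nx 710 47 (.lx (.lp 43 17 129)) (.nx 965 324 (.la
  (.ls 41 23 402)) (.nr 1220 2049 (.la (.lg 2 false 1 16 19 23 923)) .out)))) .out) .out) (.na 2303
  1024 (.nx 2302 20644 (.nr 2301 8193 (.nr 1224 512 .s1 (.nx 1275 52 (.lx (.lp 16 0 257)) (.nr 2300
  4097 (.nx 1787 915 (.la (.ls 31 31 1632)) (.nr 2299 2049 (.la (.lg 2 false 1 0 16 29 343)) .out))
  .out))) .out) .out) (.nx 2407 103 (.nr 2406 8193 (.nr 2304 1024 .s1 (.lx (.lp 43 23 513))) .out)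
  .out))) (.na 2492 4096 (.nx 2491 82 (.nr 2490 8193 (.nr 2409 2048 .s1 (.lx (.lp 16 0 1025)))
  .out) .out) (.na 2576 8193 (.nx 2575 82 (.nr 2574 16385 (.nr 2493 4096 .s1 (.lx (.lp 16 0 2049)))
  .out) .out) .out)))))))

def T144_1 : Ph :=
  (.na 605 151 (.na 446 59 (.na 299 22 (.na 213 6 (.na 120 3 (.na 1 2 .ne (.nx 119 3329023 (.nr 118
  623489 (.nx 4 110 (.nx 3 109 (.nr 2 20 (.lg 0 true 1 31 31 5 0 5232) (.l1 .sk)) (.l1 .sk)) (.nr
  104 77937 (.nr 100 65537 (.nx 81 1321124 (.nx 25 14045 (.lg 0 false 21 97 97 11 0 549360) (.nr 46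
  257 (.lg 0 true 21 83 83 11 0 109872) (.nx 80 165142 (.nx 53 20644 (.lg 1 false 7 97 97 9 27767
  183120) (.nr 79 46342 (.nr 69 27556 (.nr 60 1100 (.lg 2 true 7 79 79 9 35021 183120) (.lg 2 false
  9 89 97 9 8183 78480)) (.nx 78 65537 (.lg 2 false 9 101 103 9 13368 78558480) .out)) .out))
  .out))) (.nr 99 9 (.lg 0 true 18 67 67 9 0 15696) .out)) (.nx 103 1292 (.lg 0 true 3 83 83 7 0
  78480) .out)) (.nx 117 205 (.lg 0 false 13 73 73 9 0 68016) .out))) .out) .out)) (.na 121 5 .ne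
  (.nx 212 10568985 (.nr 211 1482912 (.nx 124 110 (.nx 123 109 (.nr 122 44 (.lg 0 true 1 23 23 9 0
  13080) (.l1 .sk)) (.l1 .sk)) (.nx 168 262145 (.nr 160 65537 (.nx 137 23170 (.lg 0 false 13 83 89
  16 0 1870440) (.nr 144 824 (.lg 0 true 7 73 73 16 0 91560) (.nx 151 52017 (.lg 1 true 7 89 97 16
  16832 3021480) (.nr 159 38969 (.nr 155 3130 (.lg 2 true 4 73 79 13 17339 26160) (.lg 2 false 4 83
  89 13 4565 287760)) .out)))) (.nx 167 205 (.lg 0 false 7 73 73 16 0 91560) .out)) (.nr 210 217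
  (.nx 181 1321124 (.lg 0 true 13 73 73 16 0 170040) (.nr 209 24 (.lg 0 true 28 73 73 16 0 183120)
  .out)) .out))) .out) .out))) (.na 258 11 (.na 214 10 .ne (.nx 257 1321124 (.nr 256 623489 (.nx
  217 110 (.nx 216 109 (.nr 215 81 (.lg 0 true 1 23 23 11 0 78480) (.l1 .sk)) (.l1 .sk)) (.nx 248
  330282 (.nx 232 26009 (.nr 224 77937 (.lg 0 false 7 89 97 13 0 549360) (.nx 231 814 (.lg 0 false
  7 79 79 13 0 183120) .out)) (.nr 247 46342 (.nr 239 766 (.lg 0 true 7 73 73 13 0 183120) (.nx 246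
  165142 (.lg 2 false 7 79 83 13 11750 183120) .out)) .out)) (.nr 255 65 (.lg 0 true 7 67 67 13 0
  183120) .out))) .out) .out)) (.na 298 12 (.nx 297 1321124 (.nr 296 623489 (.nr 259 4 .s1 (.nx 262
  110 (.nx 261 109 (.nr 260 89 (.lg 0 true 1 19 19 9 0 143880) (.l1 .sk)) (.l1 .sk)) (.nx 277 26009
  (.nr 269 77937 (.lg 0 false 7 83 89 16 0 1007160) (.nx 276 814 (.lg 0 false 7 73 73 16 0 201432)
  .out)) (.nr 295 46342 (.nx 289 330282 (.nr 284 766 (.lg 0 true 7 71 73 16 0 201432) (.nx 288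
  165142 (.lg 2 false 4 83 83 16 11750 287760) .out)) (.nr 294 65 (.lg 0 true 5 61 61 16 0 143880)
  .out)) .out)))) .out) .out) .ne))) (.na 370 38 (.na 346 25 (.na 323 23 (.nx 322 1321124 (.nr 321
  1048577 (.nr 300 20 .s1 (.nx 302 109 (.nr 301 170 (.lg 0 true 1 19 19 9 0 287760) (.l1 .sk)) (.nx
  303 110 (.l1 .sk) (.nx 304 324 (.l1 (.ls 79 43 4224)) (.nr 320 220437 (.nx 309 16385 (.nr 307
  131073 (.lg 0 false 3 89 89 13 0 863280) (.nx 308 814 (.lg 0 true 1 71 71 9 0 287760) .out)) (.nr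
  319 46342 (.nr 316 498 (.lg 0 true 7 73 73 19 0 402864) (.nx 318 165142 (.lg 2 true 2 89 89 13
  18073 2014320) .out)) .out)) .out))))) .out) .out) (.nx 345 1321124 (.nr 344 1048577 (.nr 324 21
  .s1 (.nx 328 205 (.nx 326 109 (.nr 325 185 (.l1 (.ls 17 19 519)) (.l1 .sk)) (.nx 327 110 (.l1
  .sk) (.l1 (.ls 73 31 1304)))) (.nr 343 185365 (.nx 332 16385 (.lg 0 false 4 89 89 16 0 26160)
  (.nr 342 38969 (.nr 339 513 (.lg 0 true 7 71 71 16 0 18312) (.nx 341 82572 (.lg 2 true 2 83 83 13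
  14169 26160) .out)) .out)) .out))) .out) .out)) (.na 369 32 (.nx 368 1321124 (.nr 367 1048577
  (.nr 347 23 .s1 (.nx 349 109 (.nr 348 237 (.l1 (.ls 17 23 478)) (.l1 .sk)) (.nx 350 110 (.l1 .sk)
  (.nx 356 16385 (.nx 351 205 (.l1 (.ls 73 29 1200)) (.nr 355 185365 (.lg 0 false 4 79 83 16 0
  26160) .out)) (.nr 366 38969 (.nr 363 513 (.lg 0 true 7 67 67 16 0 91560) (.nx 365 82572 (.lg 2
  false 2 73 73 16 14169 26160) .out)) .out))))) .out) .out) .ne)) (.na 400 50 (.na 385 46 (.nx 384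
  1321124 (.nr 383 370729 (.nr 371 37 .s1 (.nx 373 109 (.nr 372 341 (.l1 (.ls 17 31 315)) (.l1
  .sk)) (.nx 374 110 (.l1 .sk) (.nx 377 13005 (.lg 0 false 3 89 89 13 0 15696) (.nr 382 23172 (.nr
  380 217 (.lg 0 true 3 67 67 13 0 15696) (.nx 381 82572 (.lg 2 true 1 79 79 13 20739 5232) .out))
  .out))))) .out) .out) (.nx 399 1321124 (.nr 398 311745 (.nr 386 45 .s1 (.nx 388 109 (.nr 387 370
  (.l1 (.ls 17 29 261)) (.l1 .sk)) (.nx 389 110 (.l1 .sk) (.nx 392 10323 (.lg 0 false 3 79 79 13 0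
  15696) (.nr 397 23172 (.nr 395 370 (.lg 0 true 3 67 67 13 0 15696) (.nx 396 82572 (.lg 2 true 1
  73 73 13 13398 26160) .out)) .out))))) .out) .out)) (.na 415 55 (.nx 414 1321124 (.nr 413 311745
  (.nr 401 49 .s1 (.nx 407 10323 (.nx 403 109 (.nr 402 407 (.l1 (.ls 19 29 240)) (.l1 .sk)) (.nx
  404 110 (.l1 .sk) (.lg 0 false 3 79 79 19 0 78480))) (.nr 412 23172 (.nr 410 407 (.lg 0 true 3 67
  67 19 0 78480) (.nx 411 82572 (.lg 2 true 1 71 71 13 13398 26160) .out)) .out))) .out) .out) (.na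
  431 58 (.nx 430 1321124 (.nr 429 311745 (.nr 416 55 .s1 (.nx 426 82572 (.nr 418 13779 (.nx 417
  2580 (.l1 (.ls 59 61 121028)) (.lg 0 false 1 79 79 17 0 143880)) (.nx 420 110 (.nx 419 109 (.l1
  .sk) (.l1 .sk)) (.nx 425 20644 (.nx 423 10323 (.lg 0 false 3 79 83 19 0 431640) (.nr 424 23172
  (.lg 0 false 1 61 61 17 0 143880) .out)) .out))) (.nr 428 217 (.lg 0 true 2 67 67 17 0 287760)
  .out))) .out) .out) (.nx 445 1321124 (.nr 444 311745 (.nr 432 58 .s1 (.nx 434 109 (.nr 433 437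
  (.l1 (.ls 17 23 207)) (.l1 .sk)) (.nx 435 110 (.l1 .sk) (.nx 438 10323 (.lg 0 false 3 79 79 19 0
  15696) (.nr 443 23172 (.nr 441 437 (.lg 0 true 3 67 67 19 0 15696) (.nx 442 82572 (.lg 2 true 1
  71 71 13 13398 26160) .out)) .out))))) .out) .out)))))) (.na 538 118 (.na 491 91 (.na 462 73 (.na
  461 64 (.nx 460 1321124 (.nr 459 311745 (.nr 447 59 .s1 (.nx 450 110 (.nx 449 109 (.nr 448 474
  (.l1 (.ls 16 17 204)) (.l1 .sk)) (.l1 .sk)) (.nx 453 10323 (.lg 0 false 3 73 73 16 0 7848) (.nr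
  458 23172 (.nr 456 474 (.lg 0 true 3 61 61 16 0 7848) (.nx 457 82572 (.lg 2 true 1 67 67 16 13398
  13080) .out)) .out)))) .out) .out) .ne) (.na 477 89 (.nx 476 1321124 (.nr 475 524289 (.nr 463 73
  .s1 (.nx 466 110 (.nx 465 109 (.nr 464 659 (.l1 (.ls 16 17 165)) (.l1 .sk)) (.l1 .sk)) (.nx 469
  8193 (.lg 0 false 3 71 71 16 0 7848) (.nr 474 8193 (.nr 472 513 (.lg 0 true 3 59 59 16 0 7848)
  (.nx 473 82572 (.lg 2 false 1 47 47 16 8773 2616) .out)) .out)))) .out) .out) (.nx 490 1321124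
  (.nr 489 524289 (.nr 478 89 .s1 (.nx 481 110 (.nx 480 109 (.nr 479 674 (.l1 (.ls 16 16 136)) (.l1
  .sk)) (.l1 .sk)) (.nx 484 8193 (.lg 0 false 3 71 71 16 0 7848) (.nr 488 8193 (.nr 486 674 (.lg 0
  true 2 61 61 16 0 5232) (.nx 487 82572 (.lg 2 false 1 47 47 16 6677 13080) .out)) .out)))) .out)
  .out))) (.na 505 103 (.na 492 94 .ne (.nx 504 1321124 (.nr 503 524289 (.nr 493 94 .s1 (.nx 498
  8193 (.nx 495 109 (.nr 494 763 (.l1 (.ls 16 23 129)) (.l1 .sk)) (.nx 496 110 (.l1 .sk) (.lg 0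
  false 2 73 73 19 0 5232))) (.nr 502 8193 (.nr 500 513 (.lg 0 true 2 61 61 19 0 5232) (.nx 501
  82572 (.lg 2 false 1 53 53 17 8773 5232) .out)) .out))) .out) .out)) (.na 516 107 (.nx 515
  1321124 (.nr 514 524289 (.nr 506 103 .s1 (.nx 510 8193 (.nx 508 109 (.nr 507 792 (.l1 (.ls 16 16
  118)) (.l1 .sk)) (.nx 509 110 (.l1 .sk) (.lg 0 true 1 73 73 16 0 13080))) (.nr 513 8193 (.nr 511
  513 (.lg 0 false 1 61 61 16 0 13080) (.nx 512 82572 (.lg 2 false 1 43 43 16 8773 2616) .out))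
  .out))) .out) .out) (.na 527 110 (.nx 526 1321124 (.nr 525 524289 (.nr 517 107 .s1 (.nx 520 110
  (.nx 519 109 (.nr 518 814 (.l1 (.ls 16 16 114)) (.l1 .sk)) (.l1 .sk)) (.nx 521 8193 (.lg 0 true 1
  73 73 16 0 39240) (.nr 524 8193 (.nr 522 513 (.lg 0 false 1 61 61 16 0 39240) (.nx 523 82572 (.lg
  2 true 1 43 43 16 8773 2616) .out)) .out)))) .out) .out) (.nx 537 1321124 (.nr 536 524289 (.nr
  528 110 .s1 (.nx 531 110 (.nx 530 109 (.nr 529 874 (.l1 (.ls 23 29 111)) (.l1 .sk)) (.l1 .sk))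
  (.nx 532 8193 (.lg 0 true 1 83 83 29 0 287760) (.nr 535 8193 (.nr 533 513 (.lg 0 true 1 67 67 29
  0 287760) (.nx 534 82572 (.lg 2 true 1 59 59 29 8773 287760) .out)) .out)))) .out) .out))))) (.na
  572 134 (.na 560 122 (.na 549 121 (.nx 548 1321124 (.nr 547 524289 (.nr 539 118 .s1 (.nx 542 110
  (.nx 541 109 (.nr 540 896 (.l1 (.ls 17 19 103)) (.l1 .sk)) (.l1 .sk)) (.nx 543 8193 (.lg 0 true 1
  79 79 19 0 5232) (.nr 546 8193 (.nr 544 513 (.lg 2 false 1 61 61 19 610181 5232) (.nx 545 82572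
  (.lg 2 true 1 47 47 19 8773 5232) .out)) .out)))) .out) .out) (.nx 559 1321124 (.nr 558 524289
  (.nr 550 121 .s1 (.nx 552 109 (.nr 551 903 (.l1 (.ls 16 17 101)) (.l1 .sk)) (.nx 553 110 (.l1
  .sk) (.nx 554 8193 (.lg 0 true 1 73 73 17 0 143880) (.nr 557 8193 (.nr 555 513 (.lg 2 false 1 59
  59 17 595052 143880) (.nx 556 82572 (.lg 2 true 1 43 43 17 8773 28776) .out)) .out))))) .out)
  .out)) (.na 571 128 (.nx 570 1321124 (.nr 569 524289 (.nr 561 122 .s1 (.nx 564 110 (.nx 563 109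
  (.nr 562 948 (.l1 (.ls 16 19 100)) (.l1 .sk)) (.l1 .sk)) (.nx 565 8193 (.lg 0 true 1 79 79 19 0
  26160) (.nr 568 8193 (.nr 566 513 (.lg 2 false 1 53 53 19 590175 5232) (.nx 567 82572 (.lg 2
  false 1 43 43 19 8773 26160) .out)) .out)))) .out) .out) .ne)) (.na 588 139 (.na 580 137 (.nx 579
  660563 (.nr 578 1048577 (.nr 573 134 .s1 (.nx 574 205 (.l1 (.ls 61 29 316)) (.nr 577 524289 (.nr
  575 8193 (.lg 0 false 1 79 79 19 0 5232) (.nx 576 6503 (.lg 0 true 1 79 79 19 0 78480) .out))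
  .out))) .out) .out) (.nx 587 660563 (.nr 586 1048577 (.nr 581 137 .s1 (.nx 582 205 (.l1 (.ls 61
  19 309)) (.nr 585 524289 (.nr 583 8193 (.lg 0 false 1 71 71 16 0 2616) (.nx 584 6503 (.lg 0 true
  1 71 71 16 0 143880) .out)) .out))) .out) .out)) (.na 596 146 (.nx 595 660563 (.nr 594 1048577
  (.nr 589 139 .s1 (.nx 590 205 (.l1 (.ls 59 19 305)) (.nr 593 524289 (.nr 591 8193 (.lg 0 false 1
  71 71 16 0 13080) (.nx 592 6503 (.lg 0 true 1 67 67 16 0 2616) .out)) .out))) .out) .out) (.na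
  604 149 (.nx 603 660563 (.nr 602 1048577 (.nr 597 146 .s1 (.nx 598 205 (.l1 (.ls 61 29 290)) (.nr
  601 524289 (.nr 599 8193 (.lg 0 false 1 79 79 19 0 26160) (.nx 600 6503 (.lg 0 true 1 73 73 19 0
  26160) .out)) .out))) .out) .out) (.lg 0 false 1 0 0 16 0 24))))))) (.na 726 242 (.na 662 199
  (.na 637 181 (.na 621 167 (.na 613 158 (.nx 612 660563 (.nr 611 1048577 (.nr 606 151 .s1 (.nx 607
  205 (.l1 (.ls 59 17 281)) (.nr 610 524289 (.nr 608 8193 (.lg 0 false 1 71 71 16 0 13080) (.nx 609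
  6503 (.lg 0 true 1 67 67 16 0 13080) .out)) .out))) .out) .out) (.nx 620 660563 (.nr 619 1048577
  (.nr 614 158 .s1 (.nx 615 205 (.l1 (.ls 61 29 268)) (.nr 618 524289 (.nr 616 8193 (.lg 0 false 1
  71 71 19 0 5232) (.nx 617 6503 (.lg 0 true 1 71 71 19 0 26160) .out)) .out))) .out) .out)) (.na
  629 178 (.nx 628 660563 (.nr 627 1048577 (.nr 622 167 .s1 (.nx 623 205 (.l1 (.ls 79 17 254)) (.nr
  626 524289 (.nr 624 8193 (.lg 0 false 1 71 71 16 0 13080) (.nx 625 6503 (.lg 0 true 1 67 67 16 0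
  2616) .out)) .out))) .out) .out) (.nx 636 660563 (.nr 635 1048577 (.nr 630 178 .s1 (.nx 631 205
  (.l1 (.ls 61 29 239)) (.nr 634 524289 (.nr 632 8193 (.lg 0 false 1 71 71 19 0 26160) (.nx 633
  6503 (.lg 0 true 1 67 67 19 0 5232) .out)) .out))) .out) .out))) (.na 646 194 (.na 638 190 (.lg 0
  false 1 0 0 16 0 24) (.nx 645 660563 (.nr 644 1048577 (.nr 639 190 .s1 (.nx 640 205 (.l1 (.ls 71
  31 224)) (.nr 643 524289 (.nr 641 8193 (.lg 0 true 1 79 79 31 0 26160) (.nx 642 6503 (.lg 0 false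
  1 73 73 31 0 26160) .out)) .out))) .out) .out)) (.na 654 197 (.nx 653 660563 (.nr 652 1048577
  (.nr 647 194 .s1 (.nx 648 205 (.l1 (.ls 61 23 219)) (.nr 651 524289 (.nr 649 8193 (.lg 0 false 1
  71 71 19 0 26160) (.nx 650 6503 (.lg 0 true 1 67 67 19 0 5232) .out)) .out))) .out) .out) (.nx
  661 660563 (.nr 660 1048577 (.nr 655 197 .s1 (.nx 656 205 (.l1 (.ls 73 17 216)) (.nr 659 524289
  (.nr 657 8193 (.lg 0 false 1 67 67 16 0 2616) (.nx 658 6503 (.lg 0 true 1 67 67 16 0 39240)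
  .out)) .out))) .out) .out)))) (.na 693 226 (.na 678 214 (.na 670 206 (.nx 669 660563 (.nr 668
  1048577 (.nr 663 199 .s1 (.nx 664 205 (.l1 (.ls 67 17 214)) (.nr 667 524289 (.nr 665 8193 (.lg 0
  false 1 67 67 16 0 2616) (.nx 666 6503 (.lg 0 true 1 61 61 16 0 2616) .out)) .out))) .out) .out)
  (.nx 677 660563 (.nr 676 1048577 (.nr 671 206 .s1 (.nx 672 205 (.l1 (.ls 61 23 207)) (.nr 675
  524289 (.nr 673 8193 (.lg 0 false 1 71 71 23 0 78480) (.nx 674 6503 (.lg 0 true 1 67 67 23 0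
  5232) .out)) .out))) .out) .out)) (.na 686 218 (.nx 685 660563 (.nr 684 1048577 (.nr 679 214 .s1
  (.nx 680 205 (.l1 (.ls 59 23 199)) (.nr 683 524289 (.nx 681 6503 (.lg 0 true 1 67 67 23 0 5232)
  (.nr 682 8193 (.lg 0 false 1 67 67 23 0 5232) .out)) .out))) .out) .out) (.nx 692 660563 (.nr 691
  1048577 (.nr 687 218 .s1 (.nx 688 6503 (.l1 (.ls 67 67 193989)) (.nr 690 8193 (.lg 0 false 2 61
  61 23 0 26160) .out))) .out) .out))) (.na 702 230 (.na 701 229 (.nx 700 660563 (.nr 699 1048577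
  (.nr 694 226 .s1 (.nx 695 205 (.l1 (.ls 71 23 188)) (.nr 698 524289 (.nr 696 8193 (.lg 0 false 1
  71 71 23 0 5232) (.nx 697 6503 (.lg 0 true 1 67 67 23 0 5232) .out)) .out))) .out) .out) (.lg 0
  false 1 0 0 16 0 24)) (.na 710 233 (.nx 709 660563 (.nr 708 1048577 (.nr 703 230 .s1 (.nx 704 205
  (.l1 (.ls 71 31 185)) (.nr 707 524289 (.nr 705 8193 (.lg 0 true 1 73 73 31 0 26160) (.nx 706 6503
  (.lg 0 false 1 71 71 31 0 26160) .out)) .out))) .out) .out) (.na 718 235 (.nx 717 660563 (.nr 716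
  1048577 (.nr 711 233 .s1 (.nx 712 205 (.l1 (.ls 73 17 183)) (.nr 715 524289 (.nr 713 8193 (.lg 0
  false 1 67 67 17 0 2616) (.nx 714 6503 (.lg 0 true 1 61 61 17 0 2616) .out)) .out))) .out) .out)
  (.nx 725 660563 (.nr 724 1048577 (.nr 719 235 .s1 (.nx 720 205 (.l1 (.ls 67 19 181)) (.nr 723
  524289 (.nr 721 8193 (.lg 0 true 1 71 71 19 0 13080) (.nx 722 6503 (.lg 0 false 1 71 71 19 0
  13080) .out)) .out))) .out) .out)))))) (.na 2433 1449 (.na 758 256 (.na 742 251 (.na 734 250 (.nx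
  733 660563 (.nr 732 1048577 (.nr 727 242 .s1 (.nx 728 205 (.l1 (.ls 61 29 176)) (.nr 731 524289
  (.nr 729 8193 (.lg 0 false 1 71 71 29 0 863280) (.nx 730 6503 (.lg 0 true 1 67 67 29 0 57552)
  .out)) .out))) .out) .out) (.nx 741 660563 (.nr 740 1048577 (.nr 735 250 .s1 (.nx 736 205 (.l1
  (.ls 59 29 171)) (.nr 739 524289 (.nr 737 8193 (.lg 0 false 1 67 67 29 0 26160) (.nx 738 6503
  (.lg 0 true 1 67 67 29 0 26160) .out)) .out))) .out) .out)) (.na 750 254 (.nx 749 660563 (.nr 748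
  1048577 (.nr 743 251 .s1 (.nx 744 205 (.l1 (.ls 71 17 170)) (.nr 747 524289 (.nr 745 8193 (.lg 0
  false 1 67 67 17 0 39240) (.nx 746 6503 (.lg 0 true 1 61 61 17 0 2616) .out)) .out))) .out) .out)
  (.nx 757 660563 (.nr 756 1048577 (.nr 751 254 .s1 (.nx 752 205 (.l1 (.ls 59 23 168)) (.nr 755
  524289 (.nr 753 8193 (.lg 0 false 1 67 67 23 0 26160) (.nx 754 6503 (.lg 0 true 1 61 61 23 0
  5232) .out)) .out))) .out) .out))) (.na 1273 512 (.na 759 257 .ne (.nx 1272 82572 (.nr 1271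
  1048577 (.nr 760 257 .s1 (.nx 1015 647 (.la (.ls 83 31 1631)) (.nr 1270 262145 (.la (.lg 0 true 1
  71 71 23 0)) .out))) .out) .out)) (.na 1703 725 (.nx 1702 82572 (.nr 1701 1048577 (.nr 1274 512
  .s1 (.nx 1487 647 (.la (.ls 79 29 820)) (.nr 1700 262145 (.la (.lg 0 false 1 67 67 23 0)) .out)))
  .out) .out) (.na 2005 1024 (.nx 2004 3252 (.nr 2003 262145 (.nr 1704 725 .s1 (.la (.ls 47 43
  14589))) .out) .out) (.nx 2432 3252 (.nr 2431 262145 (.nr 2006 1024 .s1 (.la (.ls 43 41 10330)))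
  .out) .out))))) (.na 5406 8192 (.na 4107 2897 (.na 3145 2048 (.nx 3144 1627 (.nr 3143 131073 (.nr
  2434 1449 .s1 (.nx 2543 109 (.nr 2542 15154 (.lx (.lp 16 0 513)) (.l1 .sk)) (.nx 2544 110 (.l1
  .sk) (.la (.ls 53 31 1821))))) .out) .out) (.nx 4106 1627 (.nr 4105 131073 (.nr 3146 2048 .s1
  (.nx 3255 109 (.nr 3254 21437 (.lx (.lp 16 0 725)) (.l1 .sk)) (.nx 3256 110 (.l1 .sk) (.la (.ls
  47 31 1289))))) .out) .out)) (.na 4756 4096 (.nx 4755 647 (.nr 4754 65537 (.nr 4108 2897 .s1 (.lx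
  (.lp 43 31 1025))) .out) .out) (.nx 5405 647 (.nr 5404 65537 (.nr 4757 4096 .s1 (.nx 4919 163
  (.lx (.lp 16 0 2049)) (.nr 5403 32769 (.lx (.lp 37 37 2049)) .out))) .out) .out))) (.na 6705
  32768 (.na 6055 16384 (.nx 6054 647 (.nr 6053 65537 (.nr 5407 8192 .s1 (.lx (.lp 37 41 4097)))
  .out) .out) (.nx 6704 647 (.nr 6703 131073 (.nr 6056 16384 .s1 (.nx 6218 163 (.lx (.lp 16 0
  8193)) (.nr 6702 65537 (.lx (.lp 31 43 8193)) .out))) .out) .out)) (.na 7031 65536 (.nx 7030 324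
  (.nr 7029 131073 (.nr 6706 32768 .s1 (.lx (.lp 16 43 16385))) .out) .out) (.na 7357 131073 (.nx
  7356 324 (.nr 7355 262145 (.nr 7032 65536 .s1 (.lx (.lp 16 43 32769))) .out) .out) .out)))))))

theorem c144 :
    OkQ ckI L3 17 1 1099511627776 0 34359738368 1 1099511627776 ∧
    OkQ ckI L6 109 1 1099511627776 0 34359738368 1 1099511627776 := by
  refine ⟨?_, ?_⟩
  · refine fin 1224 2577 T144_0 ?_
    refine jn 3 (by decide +kernel) ?_
    refine jn 4 (by decide +kernel) ?_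
    refine jn 5 (by decide +kernel) ?_
    refine jn 6 (by decide +kernel) ?_
    refine jn 7 (by decide +kernel) ?_
    refine jn 8 (by decide +kernel) ?_
    refine jn 9 (by decide +kernel) ?_
    refine jn 10 (by decide +kernel) ?_
    refine jn 11 (by decide +kernel) ?_
    refine jn 12 (by decide +kernel) ?_
    refine jn 13 (by decide +kernel) ?_
    refine jn 14 (by decide +kernel) ?_
    refine jn 15 (by decide +kernel) ?_
    refine jn 16 (by decide +kernel) ?_
    refine jn 17 (by decide +kernel) ?_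
    refine jn 18 (by decide +kernel) ?_
    refine jn 24 (by decide +kernel) ?_
    refine jn 38 (by decide +kernel) ?_
    refine jn 43 (by decide +kernel) ?_
    refine jn 48 (by decide +kernel) ?_
    refine jn 52 (by decide +kernel) ?_
    refine jn 57 (by decide +kernel) ?_
    refine jn 63 (by decide +kernel) ?_
    refine jn 67 (by decide +kernel) ?_
    refine jn 73 (by decide +kernel) ?_
    refine jn 74 (by decide +kernel) ?_
    refine jn 75 (by decide +kernel) ?_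
    refine jn 76 (by decide +kernel) ?_
    refine jn 77 (by decide +kernel) ?_
    refine jn 78 (by decide +kernel) ?_
    refine jn 94 (by decide +kernel) ?_
    refine jn 96 (by decide +kernel) ?_
    refine jn 98 (by decide +kernel) ?_
    refine jn 101 (by decide +kernel) ?_
    refine jn 103 (by decide +kernel) ?_
    refine jn 106 (by decide +kernel) ?_
    refine jn 108 (by decide +kernel) ?_
    refine jn 109 (by decide +kernel) ?_
    refine jn 114 (by decide +kernel) ?_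
    refine jn 123 (by decide +kernel) ?_
    refine jn 124 (by decide +kernel) ?_
    refine jn 125 (by decide +kernel) ?_
    refine jn 126 (by decide +kernel) ?_
    refine jn 127 (by decide +kernel) ?_
    refine jn 128 (by decide +kernel) ?_
    refine jn 129 (by decide +kernel) ?_
    refine jn 130 (by decide +kernel) ?_
    refine jn 131 (by decide +kernel) ?_
    refine jn 132 (by decide +kernel) ?_
    refine jn 134 (by decide +kernel) ?_
    refine jn 135 (by decide +kernel) ?_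
    refine jn 142 (by decide +kernel) ?_
    refine jn 143 (by decide +kernel) ?_
    refine jn 144 (by decide +kernel) ?_
    refine jn 145 (by decide +kernel) ?_
    refine jn 146 (by decide +kernel) ?_
    refine jn 147 (by decide +kernel) ?_
    refine jn 148 (by decide +kernel) ?_
    refine jn 149 (by decide +kernel) ?_
    refine jn 150 (by decide +kernel) ?_
    refine jn 151 (by decide +kernel) ?_
    refine jn 152 (by decide +kernel) ?_
    refine jn 157 (by decide +kernel) ?_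
    refine jn 158 (by decide +kernel) ?_
    refine jn 159 (by decide +kernel) ?_
    refine jn 160 (by decide +kernel) ?_
    refine jn 161 (by decide +kernel) ?_
    refine jn 162 (by decide +kernel) ?_
    refine jn 163 (by decide +kernel) ?_
    refine jn 164 (by decide +kernel) ?_
    refine jn 165 (by decide +kernel) ?_
    refine jn 167 (by decide +kernel) ?_
    refine jn 168 (by decide +kernel) ?_
    refine jn 169 (by decide +kernel) ?_
    refine jn 170 (by decide +kernel) ?_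
    refine jn 171 (by decide +kernel) ?_
    refine jn 172 (by decide +kernel) ?_
    refine jn 173 (by decide +kernel) ?_
    refine jn 174 (by decide +kernel) ?_
    refine jn 175 (by decide +kernel) ?_
    refine jn 176 (by decide +kernel) ?_
    refine jn 186 (by decide +kernel) ?_
    refine jn 187 (by decide +kernel) ?_
    refine jn 188 (by decide +kernel) ?_
    refine jn 189 (by decide +kernel) ?_
    refine jn 191 (by decide +kernel) ?_
    refine jn 193 (by decide +kernel) ?_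
    refine jn 195 (by decide +kernel) ?_
    refine jn 203 (by decide +kernel) ?_
    refine jn 204 (by decide +kernel) ?_
    refine jn 205 (by decide +kernel) ?_
    refine jn 206 (by decide +kernel) ?_
    refine jn 208 (by decide +kernel) ?_
    refine jn 210 (by decide +kernel) ?_
    refine jn 217 (by decide +kernel) ?_
    refine jn 223 (by decide +kernel) ?_
    refine jn 234 (by decide +kernel) ?_
    refine jn 236 (by decide +kernel) ?_
    refine jn 238 (by decide +kernel) ?_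
    refine jn 239 (by decide +kernel) ?_
    refine jn 240 (by decide +kernel) ?_
    refine jn 249 (by decide +kernel) ?_
    refine jn 250 (by decide +kernel) ?_
    refine jn 251 (by decide +kernel) ?_
    refine jn 252 (by decide +kernel) ?_
    refine jn 258 (by decide +kernel) ?_
    refine jn 259 (by decide +kernel) ?_
    refine jn 260 (by decide +kernel) ?_
    refine jn 266 (by decide +kernel) ?_
    refine jn 267 (by decide +kernel) ?_
    refine jn 268 (by decide +kernel) ?_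
    refine jn 274 (by decide +kernel) ?_
    refine jn 275 (by decide +kernel) ?_
    refine jn 278 (by decide +kernel) ?_
    refine jn 284 (by decide +kernel) ?_
    refine jn 291 (by decide +kernel) ?_
    refine jn 292 (by decide +kernel) ?_
    refine jn 293 (by decide +kernel) ?_
    refine jn 304 (by decide +kernel) ?_
    refine jn 305 (by decide +kernel) ?_
    refine jn 306 (by decide +kernel) ?_
    refine jn 310 (by decide +kernel) ?_
    refine jn 311 (by decide +kernel) ?_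
    refine jn 312 (by decide +kernel) ?_
    refine jn 318 (by decide +kernel) ?_
    refine jn 324 (by decide +kernel) ?_
    refine jn 334 (by decide +kernel) ?_
    refine jn 340 (by decide +kernel) ?_
    refine jn 346 (by decide +kernel) ?_
    refine jn 347 (by decide +kernel) ?_
    refine jn 348 (by decide +kernel) ?_
    refine jn 354 (by decide +kernel) ?_
    refine jn 356 (by decide +kernel) ?_
    refine jn 363 (by decide +kernel) ?_
    refine jn 371 (by decide +kernel) ?_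
    refine jn 377 (by decide +kernel) ?_
    refine jn 384 (by decide +kernel) ?_
    refine jn 391 (by decide +kernel) ?_
    refine jn 399 (by decide +kernel) ?_
    refine jn 409 (by decide +kernel) ?_
    refine jn 411 (by decide +kernel) ?_
    refine jn 425 (by decide +kernel) ?_
    refine jn 438 (by decide +kernel) ?_
    refine jn 454 (by decide +kernel) ?_
    refine jn 468 (by decide +kernel) ?_
    refine jn 485 (by decide +kernel) ?_
    refine jn 499 (by decide +kernel) ?_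
    refine jn 516 (by decide +kernel) ?_
    refine jn 529 (by decide +kernel) ?_
    refine jn 555 (by decide +kernel) ?_
    refine jn 575 (by decide +kernel) ?_
    refine jn 594 (by decide +kernel) ?_
    refine jn 623 (by decide +kernel) ?_
    refine jn 631 (by decide +kernel) ?_
    refine jn 657 (by decide +kernel) ?_
    refine jn 750 (by decide +kernel) ?_
    refine jn 824 (by decide +kernel) ?_
    refine jn 887 (by decide +kernel) ?_
    refine jn 960 (by decide +kernel) ?_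
    refine jn 982 (by decide +kernel) ?_
    refine jn 1002 (by decide +kernel) ?_
    refine jn 1026 (by decide +kernel) ?_
    refine jn 1059 (by decide +kernel) ?_
    refine jn 1091 (by decide +kernel) ?_
    refine jn 1125 (by decide +kernel) ?_
    refine jn 1141 (by decide +kernel) ?_
    refine jn 1169 (by decide +kernel) ?_
    refine jn 1195 (by decide +kernel) ?_
    refine jn 1292 (by decide +kernel) ?_
    refine jn 1346 (by decide +kernel) ?_
    refine jn 1440 (by decide +kernel) ?_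
    refine jn 1505 (by decide +kernel) ?_
    refine jn 1582 (by decide +kernel) ?_
    refine jn 1645 (by decide +kernel) ?_
    refine jn 1722 (by decide +kernel) ?_
    refine jn 1787 (by decide +kernel) ?_
    refine jn 1842 (by decide +kernel) ?_
    refine jn 1908 (by decide +kernel) ?_
    refine jn 1986 (by decide +kernel) ?_
    refine jn 2044 (by decide +kernel) ?_
    refine jn 2112 (by decide +kernel) ?_
    refine jn 2172 (by decide +kernel) ?_
    refine jn 2241 (by decide +kernel) ?_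
    refine jn 2298 (by decide +kernel) ?_
    exact je (by decide +kernel)
  · refine fin 2616 7358 T144_1 ?_
    refine jn 9 (by decide +kernel) ?_
    refine jn 11 (by decide +kernel) ?_
    refine jn 15 (by decide +kernel) ?_
    refine jn 18 (by decide +kernel) ?_
    refine jn 21 (by decide +kernel) ?_
    refine jn 28 (by decide +kernel) ?_
    refine jn 35 (by decide +kernel) ?_
    refine jn 42 (by decide +kernel) ?_
    refine jn 46 (by decide +kernel) ?_
    refine jn 53 (by decide +kernel) ?_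
    refine jn 60 (by decide +kernel) ?_
    refine jn 78 (by decide +kernel) ?_
    refine jn 99 (by decide +kernel) ?_
    refine jn 117 (by decide +kernel) ?_
    refine jn 124 (by decide +kernel) ?_
    refine jn 125 (by decide +kernel) ?_
    refine jn 127 (by decide +kernel) ?_
    refine jn 128 (by decide +kernel) ?_
    refine jn 129 (by decide +kernel) ?_
    refine jn 130 (by decide +kernel) ?_
    refine jn 131 (by decide +kernel) ?_
    refine jn 132 (by decide +kernel) ?_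
    refine jn 133 (by decide +kernel) ?_
    refine jn 134 (by decide +kernel) ?_
    refine jn 136 (by decide +kernel) ?_
    refine jn 137 (by decide +kernel) ?_
    refine jn 139 (by decide +kernel) ?_
    refine jn 140 (by decide +kernel) ?_
    refine jn 142 (by decide +kernel) ?_
    refine jn 144 (by decide +kernel) ?_
    refine jn 151 (by decide +kernel) ?_
    refine jn 155 (by decide +kernel) ?_
    refine jn 167 (by decide +kernel) ?_
    refine jn 173 (by decide +kernel) ?_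
    refine jn 179 (by decide +kernel) ?_
    refine jn 209 (by decide +kernel) ?_
    refine jn 219 (by decide +kernel) ?_
    refine jn 220 (by decide +kernel) ?_
    refine jn 221 (by decide +kernel) ?_
    refine jn 223 (by decide +kernel) ?_
    refine jn 231 (by decide +kernel) ?_
    refine jn 236 (by decide +kernel) ?_
    refine jn 239 (by decide +kernel) ?_
    refine jn 246 (by decide +kernel) ?_
    refine jn 255 (by decide +kernel) ?_
    refine jn 264 (by decide +kernel) ?_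
    refine jn 266 (by decide +kernel) ?_
    refine jn 268 (by decide +kernel) ?_
    refine jn 276 (by decide +kernel) ?_
    refine jn 281 (by decide +kernel) ?_
    refine jn 284 (by decide +kernel) ?_
    refine jn 289 (by decide +kernel) ?_
    refine jn 294 (by decide +kernel) ?_
    refine jn 304 (by decide +kernel) ?_
    refine jn 307 (by decide +kernel) ?_
    refine jn 309 (by decide +kernel) ?_
    refine jn 316 (by decide +kernel) ?_
    refine jn 327 (by decide +kernel) ?_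
    refine jn 328 (by decide +kernel) ?_
    refine jn 332 (by decide +kernel) ?_
    refine jn 339 (by decide +kernel) ?_
    refine jn 351 (by decide +kernel) ?_
    refine jn 355 (by decide +kernel) ?_
    refine jn 363 (by decide +kernel) ?_
    refine jn 377 (by decide +kernel) ?_
    refine jn 381 (by decide +kernel) ?_
    refine jn 395 (by decide +kernel) ?_
    refine jn 407 (by decide +kernel) ?_
    refine jn 411 (by decide +kernel) ?_
    refine jn 416 (by decide +kernel) ?_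
    refine jn 417 (by decide +kernel) ?_
    refine jn 418 (by decide +kernel) ?_
    refine jn 423 (by decide +kernel) ?_
    refine jn 424 (by decide +kernel) ?_
    refine jn 428 (by decide +kernel) ?_
    refine jn 441 (by decide +kernel) ?_
    refine jn 453 (by decide +kernel) ?_
    refine jn 469 (by decide +kernel) ?_
    refine jn 484 (by decide +kernel) ?_
    refine jn 500 (by decide +kernel) ?_
    refine jn 512 (by decide +kernel) ?_
    refine jn 528 (by decide +kernel) ?_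
    refine jn 533 (by decide +kernel) ?_
    refine jn 544 (by decide +kernel) ?_
    refine jn 556 (by decide +kernel) ?_
    refine jn 573 (by decide +kernel) ?_
    refine jn 584 (by decide +kernel) ?_
    refine jn 600 (by decide +kernel) ?_
    refine jn 617 (by decide +kernel) ?_
    refine jn 633 (by decide +kernel) ?_
    refine jn 642 (by decide +kernel) ?_
    refine jn 658 (by decide +kernel) ?_
    refine jn 674 (by decide +kernel) ?_
    refine jn 690 (by decide +kernel) ?_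
    refine jn 705 (by decide +kernel) ?_
    refine jn 719 (by decide +kernel) ?_
    refine jn 729 (by decide +kernel) ?_
    refine jn 745 (by decide +kernel) ?_
    refine jn 781 (by decide +kernel) ?_
    refine jn 861 (by decide +kernel) ?_
    refine jn 946 (by decide +kernel) ?_
    refine jn 1032 (by decide +kernel) ?_
    refine jn 1041 (by decide +kernel) ?_
    refine jn 1051 (by decide +kernel) ?_
    refine jn 1060 (by decide +kernel) ?_
    refine jn 1092 (by decide +kernel) ?_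
    refine jn 1117 (by decide +kernel) ?_
    refine jn 1137 (by decide +kernel) ?_
    refine jn 1153 (by decide +kernel) ?_
    refine jn 1176 (by decide +kernel) ?_
    refine jn 1195 (by decide +kernel) ?_
    refine jn 1228 (by decide +kernel) ?_
    refine jn 1243 (by decide +kernel) ?_
    refine jn 1260 (by decide +kernel) ?_
    refine jn 1279 (by decide +kernel) ?_
    refine jn 1374 (by decide +kernel) ?_
    refine jn 1492 (by decide +kernel) ?_
    refine jn 1517 (by decide +kernel) ?_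
    refine jn 1526 (by decide +kernel) ?_
    refine jn 1541 (by decide +kernel) ?_
    refine jn 1565 (by decide +kernel) ?_
    refine jn 1585 (by decide +kernel) ?_
    refine jn 1610 (by decide +kernel) ?_
    refine jn 1624 (by decide +kernel) ?_
    refine jn 1645 (by decide +kernel) ?_
    refine jn 1681 (by decide +kernel) ?_
    refine jn 1709 (by decide +kernel) ?_
    refine jn 1817 (by decide +kernel) ?_
    refine jn 1869 (by decide +kernel) ?_
    refine jn 1950 (by decide +kernel) ?_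
    refine jn 2016 (by decide +kernel) ?_
    refine jn 2064 (by decide +kernel) ?_
    refine jn 2141 (by decide +kernel) ?_
    refine jn 2225 (by decide +kernel) ?_
    refine jn 2301 (by decide +kernel) ?_
    refine jn 2379 (by decide +kernel) ?_
    refine jn 2569 (by decide +kernel) ?_
    refine jn 2704 (by decide +kernel) ?_
    refine jn 2851 (by decide +kernel) ?_
    refine jn 3010 (by decide +kernel) ?_
    refine jn 3143 (by decide +kernel) ?_
    refine jn 3375 (by decide +kernel) ?_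
    refine jn 3558 (by decide +kernel) ?_
    refine jn 3738 (by decide +kernel) ?_
    refine jn 3918 (by decide +kernel) ?_
    refine jn 4038 (by decide +kernel) ?_
    refine jn 4384 (by decide +kernel) ?_
    refine jn 4601 (by decide +kernel) ?_
    refine jn 4736 (by decide +kernel) ?_
    refine jn 5061 (by decide +kernel) ?_
    refine jn 5205 (by decide +kernel) ?_
    refine jn 5325 (by decide +kernel) ?_
    refine jn 5419 (by decide +kernel) ?_
    refine jn 5787 (by decide +kernel) ?_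
    refine jn 5962 (by decide +kernel) ?_
    refine jn 6274 (by decide +kernel) ?_
    refine jn 6576 (by decide +kernel) ?_
    refine jn 7000 (by decide +kernel) ?_
    exact je (by decide +kernel)

end Pool.Agent.MP_2339ce_nt.NR
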