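import Pool.Agent.MP_2339ce_nt.Q2.NC.L3
import Pool.Agent.MP_2339ce_nt.Q2.NC.L5
import Pool.Agent.MP_2339ce_nt.Q2.NC.L7
import Pool.Agent.MP_2339ce_nt.Q2.CkI

/-! Block NR: runs. -/

set_option autoImplicit false
set_option maxRecDepth 100000

noncomputable section

namespace Pool.Agent.MP_2339ce_nt.NR

open Q2.Top

def T36_0 : Ph :=
  (.na 444 187 (.na 274 137 (.na 142 113 (.na 61 96 (.na 31 88 (.na 15 86 (.nx 14 1664512 (.nr 13
  524289 (.nr 1 83 .s1 (.nx 3 128 (.nr 2 690 (.l1 (.ls 17 17 200)) (.l1 .sk)) (.nx 4 129 (.l1 .sk)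
  (.nx 7 20644 (.lg 0 false 3 79 79 16 0 720) (.nr 12 32769 (.nr 10 513 (.lg 0 true 3 61 61 16 0
  144) (.nx 11 104033 (.lg 2 true 1 67 67 16 13055 144) .out)) .out))))) .out) .out) (.nx 30
  1664512 (.nr 29 524289 (.nr 16 86 .s1 (.nx 24 20644 (.nx 18 128 (.nr 17 706 (.l1 (.ls 17 23 193))
  (.l1 .sk)) (.nx 19 129 (.l1 .sk) (.lg 0 false 5 83 83 23 0 720))) (.nr 28 32769 (.nr 26 513 (.lg
  0 true 2 61 61 19 0 144) (.nx 27 104033 (.lg 2 true 1 71 71 13 13055 144) .out)) .out))) .out)
  .out)) (.na 44 89 (.nx 43 1664512 (.nr 42 524289 (.nr 32 88 .s1 (.nx 35 129 (.nx 34 128 (.nr 33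
  714 (.l1 (.ls 29 29 189)) (.l1 .sk)) (.l1 .sk)) (.nx 37 20644 (.lg 0 false 2 89 89 29 0 7920)
  (.nr 41 32769 (.nr 39 513 (.lg 0 true 2 71 71 29 0 1584) (.nx 40 104033 (.lg 2 false 1 73 73 23
  13055 1584) .out)) .out)))) .out) .out) (.na 60 91 (.nx 59 1664512 (.nr 58 524289 (.nr 45 89 .s1
  (.nx 53 20644 (.nx 47 128 (.nr 46 730 (.l1 (.ls 17 17 187)) (.l1 .sk)) (.nx 48 129 (.l1 .sk) (.lg
  0 false 5 79 79 17 0 720))) (.nr 57 32769 (.nr 55 513 (.lg 0 true 2 59 59 16 0 144) (.nx 56
  104033 (.lg 2 true 1 67 67 16 13055 144) .out)) .out))) .out) .out) .ne))) (.na 102 102 (.na 75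
  97 (.nx 74 1664512 (.nr 73 1048577 (.nr 62 96 .s1 (.nx 64 128 (.nr 63 778 (.l1 (.ls 29 29 173))
  (.l1 .sk)) (.nx 65 129 (.l1 .sk) (.nx 69 20644 (.nx 67 13005 (.lg 0 false 2 83 89 31 0 144) (.nr
  68 65537 (.lg 0 false 1 73 73 29 0 144) .out)) (.nr 72 32769 (.nr 70 513 (.lg 0 true 1 71 71 29 0
  144) (.nx 71 104033 (.lg 1 true 1 73 79 29 13055 144) .out)) .out))))) .out) .out) (.na 89 99
  (.nx 88 1664512 (.nr 87 1048577 (.nr 76 97 .s1 (.nx 82 13005 (.nx 78 128 (.nr 77 794 (.l1 (.ls 17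
  17 171)) (.l1 .sk)) (.nx 79 129 (.l1 .sk) (.lg 0 false 3 79 79 16 0 720))) (.nr 86 65537 (.nr 84
  513 (.lg 0 true 2 59 59 16 0 144) (.nx 85 104033 (.lg 2 true 1 73 73 16 41365 144) .out)) .out)))
  .out) .out) (.nx 101 1664512 (.nr 100 1048577 (.nr 90 99 .s1 (.nx 93 129 (.nx 92 128 (.nr 91 818
  (.l1 (.ls 23 23 168)) (.l1 .sk)) (.l1 .sk)) (.nx 95 13005 (.lg 0 false 2 83 83 23 0 1584) (.nr 99
  65537 (.nr 97 513 (.lg 0 true 2 67 67 23 0 1584) (.nx 98 104033 (.lg 1 false 1 83 83 19 41365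
  1584) .out)) .out)))) .out) .out))) (.na 115 107 (.nx 114 1664512 (.nr 113 1048577 (.nr 103 102
  .s1 (.nx 106 129 (.nx 105 128 (.nr 104 858 (.l1 (.ls 16 31 163)) (.l1 .sk)) (.l1 .sk)) (.nx 108
  13005 (.lg 0 false 2 89 89 31 0 720) (.nr 112 65537 (.nr 110 513 (.lg 0 true 2 67 67 31 0 144)
  (.nx 111 104033 (.lg 1 false 1 89 89 29 41365 720) .out)) .out)))) .out) .out) (.na 129 108 (.nx
  128 1664512 (.nr 127 1048577 (.nr 116 107 .s1 (.nx 119 129 (.nx 118 128 (.nr 117 866 (.l1 (.ls 19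
  17 156)) (.l1 .sk)) (.l1 .sk)) (.nx 122 20644 (.lg 0 false 3 83 83 16 0 720) (.nr 126 32769 (.nr
  124 513 (.lg 0 true 2 59 59 16 0 144) (.nx 125 104033 (.lg 2 true 1 61 61 16 13055 144) .out))
  .out)))) .out) .out) (.nx 141 1664512 (.nr 140 1048577 (.nr 130 108 .s1 (.nx 133 129 (.nx 132 128
  (.nr 131 906 (.l1 (.ls 23 29 154)) (.l1 .sk)) (.l1 .sk)) (.nx 135 13005 (.lg 0 false 2 83 83 29 0
  720) (.nr 139 65537 (.nr 137 513 (.lg 0 true 2 67 67 29 0 144) (.nx 138 104033 (.lg 1 false 1 83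
  83 23 41365 720) .out)) .out)))) .out) .out))))) (.na 210 128 (.na 169 118 (.na 156 114 (.nx 155
  1664512 (.nr 154 1048577 (.nr 143 113 .s1 (.nx 145 128 (.nr 144 914 (.l1 (.ls 17 17 147)) (.l1
  .sk)) (.nx 146 129 (.l1 .sk) (.nx 149 20644 (.lg 0 false 3 79 79 16 0 720) (.nr 153 32769 (.nr
  151 513 (.lg 0 true 2 59 59 16 0 144) (.nx 152 104033 (.lg 2 true 1 61 61 16 13055 144) .out))
  .out))))) .out) .out) (.nx 168 1664512 (.nr 167 1048577 (.nr 157 114 .s1 (.nx 159 128 (.nr 158
  946 (.l1 (.ls 17 31 146)) (.l1 .sk)) (.nx 160 129 (.l1 .sk) (.nx 162 13005 (.lg 0 false 2 83 83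
  31 0 144) (.nr 166 65537 (.nr 164 513 (.lg 0 true 2 67 67 31 0 144) (.nx 165 104033 (.lg 1 false
  1 83 83 31 41365 144) .out)) .out))))) .out) .out)) (.na 183 121 (.nx 182 1664512 (.nr 181
  1048577 (.nr 170 118 .s1 (.nx 176 20644 (.nx 172 128 (.nr 171 970 (.l1 (.ls 17 23 141)) (.l1
  .sk)) (.nx 173 129 (.l1 .sk) (.lg 0 false 3 83 83 23 0 720))) (.nr 180 32769 (.nr 178 513 (.lg 0
  true 2 61 61 19 0 144) (.nx 179 104033 (.lg 2 true 1 67 67 19 13055 144) .out)) .out))) .out)
  .out) (.na 198 123 (.nx 197 1664512 (.nr 196 1048577 (.nr 184 121 .s1 (.nx 192 20644 (.nx 186 128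
  (.nr 185 986 (.l1 (.ls 17 17 138)) (.l1 .sk)) (.nx 187 129 (.l1 .sk) (.lg 0 false 5 79 79 19 0
  7920))) (.nr 195 32769 (.nr 193 513 (.lg 0 false 1 67 67 17 0 1584) (.nx 194 104033 (.lg 2 true 1
  67 67 17 13055 1584) .out)) .out))) .out) .out) (.nx 209 1664512 (.nr 208 1048577 (.nr 199 123
  .s1 (.nx 201 128 (.nr 200 1026 (.l1 (.ls 23 19 136)) (.l1 .sk)) (.nx 202 129 (.l1 .sk) (.nx 204
  13005 (.lg 0 false 2 89 89 19 0 720) (.nr 207 65537 (.nr 205 513 (.lg 0 true 1 71 71 17 0 144)
  (.nx 206 104033 (.lg 1 false 1 83 83 17 41365 720) .out)) .out))))) .out) .out)))) (.na 242 132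
  (.na 221 129 (.nx 220 1664512 (.nr 219 1048577 (.nr 211 128 .s1 (.nx 217 104033 (.nx 213 128 (.nr
  212 1034 (.l1 (.ls 31 23 130)) (.l1 .sk)) (.nx 214 129 (.l1 .sk) (.nr 215 65537 (.lg 0 true 1 89
  89 23 0 720) (.nx 216 13005 (.lg 0 false 1 89 97 23 0 720) .out)))) (.nr 218 1025 (.lg 0 true 1
  73 73 23 0 144) .out))) .out) .out) (.na 232 131 (.nx 231 832257 (.nr 230 1048577 (.nr 222 129
  .s1 (.nx 226 13005 (.nx 223 257 (.l1 (.ls 73 29 515)) (.nr 225 741457 (.lg 0 false 2 83 83 19 0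
  144) .out)) (.nr 229 16385 (.nr 227 1025 (.lg 0 true 1 67 67 19 0 144) (.nx 228 104033 (.lg 2
  false 1 61 61 19 10403 144) .out)) .out))) .out) .out) (.nx 241 832257 (.nr 240 1048577 (.nr 233
  131 .s1 (.nx 236 13005 (.nx 234 257 (.l1 (.ls 67 19 507)) (.nr 235 741457 (.lg 0 true 1 79 79 16
  0 144) .out)) (.nr 239 16385 (.nr 237 1025 (.lg 0 false 1 67 67 16 0 1584) (.nx 238 104033 (.lg 2
  true 1 59 59 16 10403 144) .out)) .out))) .out) .out))) (.na 252 134 (.nx 251 832257 (.nr 250
  1048577 (.nr 243 132 .s1 (.nx 244 257 (.l1 (.ls 79 41 503)) (.nr 249 741457 (.nx 245 13005 (.lg 0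
  false 1 89 89 31 0 7920) (.nr 248 16385 (.nx 246 104033 (.lg 0 true 1 79 83 31 0 7920) (.nr 247
  1025 (.lg 0 true 1 73 73 31 0 1584) .out)) .out)) .out))) .out) .out) (.na 263 136 (.nx 262
  832257 (.nr 261 1048577 (.nr 253 134 .s1 (.nx 257 13005 (.nx 254 257 (.l1 (.ls 61 29 495)) (.nr
  256 741457 (.lg 0 false 2 73 73 23 0 144) .out)) (.nr 260 16385 (.nr 258 1025 (.lg 0 false 1 67
  67 19 0 144) (.nx 259 104033 (.lg 2 true 1 53 53 19 10403 144) .out)) .out))) .out) .out) (.nx
  273 832257 (.nr 272 1048577 (.nr 264 136 .s1 (.nx 268 13005 (.nx 265 257 (.l1 (.ls 73 31 488))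
  (.nr 267 741457 (.lg 0 false 2 79 83 29 0 144) .out)) (.nr 271 16385 (.nr 269 1025 (.lg 0 true 1
  67 67 29 0 144) (.nx 270 104033 (.lg 2 false 1 61 61 29 10403 144) .out)) .out))) .out)
  .out)))))) (.na 360 164 (.na 317 151 (.na 295 144 (.na 284 139 (.nx 283 832257 (.nr 282 1048577
  (.nr 275 137 .s1 (.nx 276 257 (.l1 (.ls 67 19 485)) (.nr 281 741457 (.nx 277 13005 (.lg 0 true 1
  79 79 16 0 144) (.nr 280 16385 (.nr 278 1025 (.lg 0 false 1 67 67 16 0 720) (.nx 279 104033 (.lg
  2 true 1 53 53 16 10403 144) .out)) .out)) .out))) .out) .out) (.nx 294 832257 (.nr 293 1048577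
  (.nr 285 139 .s1 (.nx 286 257 (.l1 (.ls 61 19 478)) (.nr 292 741457 (.nx 288 13005 (.lg 0 false 2
  71 71 16 0 144) (.nr 291 16385 (.nr 289 1025 (.lg 0 false 1 61 61 16 0 144) (.nx 290 104033 (.lg
  2 true 1 53 53 16 10403 144) .out)) .out)) .out))) .out) .out)) (.na 305 146 (.nx 304 832257 (.nr
  303 1048577 (.nr 296 144 .s1 (.nx 297 257 (.l1 (.ls 73 37 461)) (.nr 302 741457 (.nx 300 104033
  (.nx 298 13005 (.lg 0 false 1 83 83 31 0 144) (.nr 299 16385 (.lg 0 true 1 73 79 31 0 1584)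
  .out)) (.nr 301 1025 (.lg 0 true 1 71 71 31 0 144) .out)) .out))) .out) .out) (.na 316 149 (.nx
  315 832257 (.nr 314 1048577 (.nr 306 146 .s1 (.nx 307 257 (.l1 (.ls 61 29 455)) (.nr 313 741457
  (.nx 309 13005 (.lg 0 false 2 71 71 23 0 144) (.nr 312 16385 (.nr 310 1025 (.lg 0 false 1 61 61
  19 0 144) (.nx 311 104033 (.lg 2 true 1 47 47 19 10403 144) .out)) .out)) .out))) .out) .out)
  (.lg 0 false 1 0 0 16 0 24)))) (.na 339 157 (.na 318 152 (.lg 0 false 1 0 0 16 0 24) (.na 329 153
  (.nx 328 832257 (.nr 327 1048577 (.nr 319 152 .s1 (.nx 323 13005 (.nx 320 257 (.l1 (.ls 73 31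
  437)) (.nr 322 741457 (.lg 0 false 2 83 83 29 0 720) .out)) (.nr 326 16385 (.nr 324 1025 (.lg 0
  true 1 67 67 29 0 144) (.nx 325 104033 (.lg 2 false 1 61 61 29 10403 144) .out)) .out))) .out)
  .out) (.nx 338 832257 (.nr 337 1048577 (.nr 330 153 .s1 (.nx 333 13005 (.nx 331 257 (.l1 (.ls 73
  29 434)) (.nr 332 741457 (.lg 0 true 1 89 89 23 0 7920) .out)) (.nr 336 16385 (.nr 334 1025 (.lg
  0 true 1 67 67 23 0 144) (.nx 335 104033 (.lg 2 true 1 61 61 23 10403 144) .out)) .out))) .out)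
  .out))) (.na 340 162 (.lg 0 false 1 0 0 16 0 24) (.na 350 163 (.nx 349 832257 (.nr 348 1048577
  (.nr 341 162 .s1 (.nx 342 257 (.l1 (.ls 67 31 410)) (.nr 347 741457 (.nx 343 13005 (.lg 0 true 1
  79 79 23 0 720) (.nr 346 16385 (.nr 344 1025 (.lg 0 false 1 61 61 23 0 720) (.nx 345 104033 (.lg
  2 false 1 53 53 23 10403 720) .out)) .out)) .out))) .out) .out) (.nx 359 832257 (.nr 358 1048577
  (.nr 351 163 .s1 (.nx 352 257 (.l1 (.ls 67 19 408)) (.nr 357 741457 (.nx 353 13005 (.lg 0 true 1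
  79 79 16 0 720) (.nr 356 16385 (.nr 354 1025 (.lg 0 false 1 61 61 16 0 144) (.nx 355 104033 (.lg
  2 true 1 53 53 16 10403 144) .out)) .out)) .out))) .out) .out))))) (.na 402 176 (.na 381 171 (.na
  370 166 (.nx 369 832257 (.nr 368 1048577 (.nr 361 164 .s1 (.nx 364 13005 (.nx 362 257 (.l1 (.ls
  71 29 405)) (.nr 363 741457 (.lg 0 false 1 83 83 23 0 144) .out)) (.nr 367 16385 (.nr 365 1025
  (.lg 0 true 1 67 67 23 0 144) (.nx 366 104033 (.lg 2 false 1 61 61 23 10403 144) .out)) .out)))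
  .out) .out) (.na 380 167 (.nx 379 832257 (.nr 378 1048577 (.nr 371 166 .s1 (.nx 374 13005 (.nx
  372 257 (.l1 (.ls 61 29 400)) (.nr 373 741457 (.lg 0 true 1 83 83 19 0 1584) .out)) (.nr 377
  16385 (.nr 375 1025 (.lg 0 false 1 61 61 19 0 1584) (.nx 376 104033 (.lg 2 true 1 53 53 19 10403
  144) .out)) .out))) .out) .out) (.lg 0 false 1 0 0 16 0 24))) (.na 391 172 (.nx 390 832257 (.nr
  389 1048577 (.nr 382 171 .s1 (.nx 385 13005 (.nx 383 257 (.l1 (.ls 71 29 389)) (.nr 384 741457
  (.lg 0 false 1 79 79 17 0 144) .out)) (.nr 388 16385 (.nr 386 1025 (.lg 0 true 1 61 61 17 0 144)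
  (.nx 387 104033 (.lg 2 false 1 59 59 17 10403 144) .out)) .out))) .out) .out) (.na 401 173 (.nx
  400 832257 (.nr 399 1048577 (.nr 392 172 .s1 (.nx 393 257 (.l1 (.ls 73 29 387)) (.nr 398 741457
  (.nx 394 13005 (.lg 0 false 1 83 83 23 0 144) (.nr 397 16385 (.nr 395 1025 (.lg 0 true 1 67 67 23
  0 144) (.nx 396 104033 (.lg 2 false 1 61 61 23 10403 144) .out)) .out)) .out))) .out) .out) (.lg
  0 false 1 0 0 16 0 24)))) (.na 432 179 (.na 412 177 (.nx 411 832257 (.nr 410 1048577 (.nr 403 176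
  .s1 (.nx 406 13005 (.nx 404 257 (.l1 (.ls 73 31 378)) (.nr 405 741457 (.lg 0 false 1 83 83 31 0
  1584) .out)) (.nr 409 16385 (.nx 407 104033 (.lg 0 true 1 73 73 31 0 1584) (.nr 408 1025 (.lg 0
  true 1 67 71 31 0 1584) .out)) .out))) .out) .out) (.na 422 178 (.nx 421 832257 (.nr 420 1048577
  (.nr 413 177 .s1 (.nx 416 13005 (.nx 414 406 (.l1 (.ls 73 29 934)) (.nr 415 741457 (.lg 0 false 1
  83 83 19 0 144) .out)) (.nr 419 16385 (.nr 417 1025 (.lg 0 true 1 67 67 19 0 144) (.nx 418 104033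
  (.lg 2 false 1 61 61 19 10403 144) .out)) .out))) .out) .out) (.nx 431 832257 (.nr 430 1048577
  (.nr 423 178 .s1 (.nx 424 257 (.l1 (.ls 61 29 374)) (.nr 429 741457 (.nx 425 13005 (.lg 0 true 1
  73 73 19 0 144) (.nr 428 16385 (.nr 426 1025 (.lg 0 false 1 61 61 19 0 720) (.nx 427 104033 (.lg
  2 true 1 47 47 19 10403 144) .out)) .out)) .out))) .out) .out))) (.na 442 181 (.nx 441 832257
  (.nr 440 1048577 (.nr 433 179 .s1 (.nx 434 257 (.l1 (.ls 59 19 371)) (.nr 439 741457 (.nx 435
  13005 (.lg 0 true 1 73 73 16 0 144) (.nr 438 16385 (.nr 436 1025 (.lg 0 false 1 59 59 16 0 144)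
  (.nx 437 104033 (.lg 2 false 1 47 47 16 10403 144) .out)) .out)) .out))) .out) .out) (.na 443 182
  (.lg 0 false 1 0 0 16 0 24) .ne)))))) (.na 606 241 (.na 523 211 (.na 481 197 (.na 455 192 (.na
  454 191 (.nx 453 832257 (.nr 452 1048577 (.nr 445 187 .s1 (.nx 446 257 (.l1 (.ls 79 29 356)) (.nr
  451 741457 (.nx 447 13005 (.lg 0 true 1 89 89 23 0 7920) (.nr 450 16385 (.nr 448 1025 (.lg 0 true
  1 67 67 23 0 1584) (.nx 449 104033 (.lg 2 true 1 61 61 23 10403 1584) .out)) .out)) .out))) .out)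
  .out) (.lg 0 false 1 0 0 16 0 24)) (.na 465 193 (.nx 464 832257 (.nr 463 1048577 (.nr 456 192 .s1
  (.nx 457 257 (.l1 (.ls 79 31 347)) (.nr 462 741457 (.nx 460 104033 (.nx 458 13005 (.lg 0 false 1
  83 89 37 0 720) (.nr 459 16385 (.lg 0 true 1 73 83 37 0 720) .out)) (.nr 461 1025 (.lg 0 true 1
  67 73 37 0 720) .out)) .out))) .out) .out) (.na 473 194 (.nx 472 832257 (.nr 471 1048577 (.nr 466
  193 .s1 (.nx 467 257 (.l1 (.ls 61 19 345)) (.nr 470 741457 (.nr 468 16385 (.lg 0 false 1 79 79 16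
  0 720) (.nx 469 13005 (.lg 0 true 1 73 73 16 0 720) .out)) .out))) .out) .out) (.nx 480 832257
  (.nr 479 1048577 (.nr 474 194 .s1 (.nx 475 257 (.l1 (.ls 61 29 343)) (.nr 478 741457 (.nr 476
  16385 (.lg 0 false 1 79 79 19 0 144) (.nx 477 13005 (.lg 0 true 1 73 73 19 0 144) .out)) .out)))
  .out) .out)))) (.na 493 201 (.na 482 198 (.lg 0 false 1 0 0 16 0 24) (.na 492 199 (.nx 491 832257
  (.nr 490 1048577 (.nr 483 198 .s1 (.nx 484 257 (.l1 (.ls 71 37 336)) (.nr 489 741457 (.nx 485
  13005 (.lg 0 true 1 83 83 31 0 7920) (.nr 488 16385 (.nr 486 1025 (.lg 0 true 1 61 61 31 0 1584)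
  (.nx 487 104033 (.lg 2 false 1 59 59 31 10403 1584) .out)) .out)) .out))) .out) .out) (.lg 0
  false 1 0 0 16 0 24))) (.na 503 204 (.nx 502 832257 (.nr 501 1048577 (.nr 494 201 .s1 (.nx 497
  13005 (.nx 495 257 (.l1 (.ls 61 23 331)) (.nr 496 741457 (.lg 0 false 1 79 79 19 0 144) .out))
  (.nr 500 16385 (.nr 498 1025 (.lg 0 true 1 59 59 19 0 144) (.nx 499 104033 (.lg 2 false 1 53 53
  19 10403 144) .out)) .out))) .out) .out) (.na 513 209 (.nx 512 832257 (.nr 511 1048577 (.nr 504
  204 .s1 (.nx 509 104033 (.nx 505 257 (.l1 (.ls 73 37 326)) (.nr 508 741457 (.nx 506 13005 (.lg 0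
  false 1 83 83 37 0 144) (.nr 507 16385 (.lg 0 true 1 71 73 37 0 144) .out)) .out)) (.nr 510 1025
  (.lg 0 true 1 67 67 37 0 144) .out))) .out) .out) (.nx 522 832257 (.nr 521 1048577 (.nr 514 209
  .s1 (.nx 517 13005 (.nx 515 257 (.l1 (.ls 71 29 319)) (.nr 516 741457 (.lg 0 false 1 79 79 17 0
  1584) .out)) (.nr 520 16385 (.nr 518 1025 (.lg 0 true 1 61 61 17 0 1584) (.nx 519 104033 (.lg 2
  false 1 59 59 17 10403 1584) .out)) .out))) .out) .out))))) (.na 568 227 (.na 549 219 (.na 531
  214 (.nx 530 832257 (.nr 529 1048577 (.nr 524 211 .s1 (.nx 525 257 (.l1 (.ls 59 19 316)) (.nr 528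
  741457 (.nr 526 16385 (.lg 0 false 1 73 73 16 0 144) (.nx 527 13005 (.lg 0 true 1 71 71 16 0 144)
  .out)) .out))) .out) .out) (.na 539 216 (.nx 538 832257 (.nr 537 1048577 (.nr 532 214 .s1 (.nx
  533 257 (.l1 (.ls 59 29 311)) (.nr 536 741457 (.nr 534 16385 (.lg 0 false 1 73 73 23 0 144) (.nx
  535 13005 (.lg 0 true 1 71 71 23 0 144) .out)) .out))) .out) .out) (.nx 548 832257 (.nr 547
  1048577 (.nr 540 216 .s1 (.nx 541 257 (.l1 (.ls 67 31 308)) (.nr 546 741457 (.nx 542 13005 (.lg 0
  false 1 73 73 29 0 144) (.nr 545 16385 (.nr 543 1025 (.lg 0 true 1 59 59 29 0 144) (.nx 544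
  104033 (.lg 2 false 1 53 53 29 10403 144) .out)) .out)) .out))) .out) .out))) (.na 559 223 (.nx
  558 832257 (.nr 557 1048577 (.nr 550 219 .s1 (.nx 551 257 (.l1 (.ls 67 23 304)) (.nr 556 741457
  (.nx 552 13005 (.lg 0 false 1 79 79 19 0 144) (.nr 555 16385 (.nr 553 1025 (.lg 0 true 1 59 59 19
  0 144) (.nx 554 104033 (.lg 2 false 1 53 53 19 10403 144) .out)) .out)) .out))) .out) .out) (.na
  560 226 (.lg 0 false 1 0 0 16 0 24) (.nx 567 832257 (.nr 566 1048577 (.nr 561 226 .s1 (.nx 562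
  257 (.l1 (.ls 59 29 295)) (.nr 565 741457 (.nr 563 16385 (.lg 0 false 1 73 73 23 0 144) (.nx 564
  13005 (.lg 0 true 1 71 71 23 0 144) .out)) .out))) .out) .out)))) (.na 587 233 (.na 576 228 (.nx
  575 832257 (.nr 574 1048577 (.nr 569 227 .s1 (.nx 570 257 (.l1 (.ls 67 19 293)) (.nr 573 741457
  (.nr 571 16385 (.lg 0 false 1 79 79 17 0 720) (.nx 572 13005 (.lg 0 true 1 73 73 17 0 720) .out))
  .out))) .out) .out) (.na 586 229 (.nx 585 832257 (.nr 584 1048577 (.nr 577 228 .s1 (.nx 582
  104033 (.nx 580 13005 (.nx 578 257 (.l1 (.ls 79 37 292)) (.nr 579 741457 (.lg 0 false 1 89 89 37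
  0 720) .out)) (.nr 581 16385 (.lg 0 true 1 73 79 37 0 720) .out)) (.nr 583 1025 (.lg 0 true 1 71
  71 37 0 720) .out))) .out) .out) (.lg 0 false 1 0 0 16 0 24))) (.na 595 236 (.nx 594 832257 (.nr
  593 1048577 (.nr 588 233 .s1 (.nx 589 257 (.l1 (.ls 67 19 286)) (.nr 592 741457 (.nr 590 16385
  (.lg 0 false 1 79 79 17 0 720) (.nx 591 13005 (.lg 0 true 1 73 73 17 0 720) .out)) .out))) .out)
  .out) (.na 605 239 (.nx 604 832257 (.nr 603 1048577 (.nr 596 236 .s1 (.nx 597 257 (.l1 (.ls 53 29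
  282)) (.nr 602 741457 (.nx 598 13005 (.lg 0 false 1 79 79 23 0 144) (.nr 601 16385 (.nr 599 1025
  (.lg 0 true 1 61 61 23 0 144) (.nx 600 104033 (.lg 2 false 1 53 53 23 10403 144) .out)) .out))
  .out))) .out) .out) (.lg 0 false 1 0 0 16 0 24)))))) (.na 3471 1449 (.na 650 251 (.na 622 243
  (.na 614 242 (.nx 613 832257 (.nr 612 1048577 (.nr 607 241 .s1 (.nx 608 257 (.l1 (.ls 59 19 277))
  (.nr 611 741457 (.nr 609 16385 (.lg 0 false 1 73 73 17 0 1584) (.nx 610 13005 (.lg 0 true 1 71 71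
  17 0 144) .out)) .out))) .out) .out) (.nx 621 832257 (.nr 620 1048577 (.nr 615 242 .s1 (.nx 616
  257 (.l1 (.ls 67 31 275)) (.nr 619 741457 (.nr 617 16385 (.lg 0 false 1 79 79 29 0 7920) (.nx 618
  13005 (.lg 0 true 1 73 73 29 0 1584) .out)) .out))) .out) .out)) (.na 630 246 (.nx 629 832257
  (.nr 628 1048577 (.nr 623 243 .s1 (.nx 624 257 (.l1 (.ls 67 23 274)) (.nr 627 741457 (.nr 625
  16385 (.lg 0 false 1 73 73 19 0 144) (.nx 626 13005 (.lg 0 true 1 73 73 19 0 144) .out)) .out)))
  .out) .out) (.na 640 249 (.nx 639 832257 (.nr 638 1048577 (.nr 631 246 .s1 (.nx 634 13005 (.nx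
  632 257 (.l1 (.ls 67 31 271)) (.nr 633 741457 (.lg 0 false 1 73 73 31 0 144) .out)) (.nr 637
  16385 (.nr 635 1025 (.lg 0 true 1 61 61 31 0 144) (.nx 636 104033 (.lg 2 false 1 53 53 31 10403
  144) .out)) .out))) .out) .out) (.nx 649 832257 (.nr 648 1048577 (.nr 641 249 .s1 (.nx 642 257
  (.l1 (.ls 61 23 268)) (.nr 647 741457 (.nx 643 13005 (.lg 0 false 1 73 73 23 0 144) (.nr 646
  16385 (.nr 644 1025 (.lg 0 true 1 59 59 23 0 144) (.nx 645 104033 (.lg 2 false 1 53 53 23 10403
  144) .out)) .out)) .out))) .out) .out)))) (.na 1379 512 (.na 658 256 (.nx 657 832257 (.nr 656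
  1048577 (.nr 651 251 .s1 (.nx 652 257 (.l1 (.ls 53 19 266)) (.nr 655 741457 (.nr 653 16385 (.lg 0
  false 1 71 71 17 0 144) (.nx 654 13005 (.lg 0 true 1 71 71 17 0 144) .out)) .out))) .out) .out)
  (.na 659 257 (.lg 0 false 1 0 0 16 0 24) (.nx 1378 832257 (.nr 1377 1482912 (.nr 660 257 .s1 (.nx
  789 129 (.nx 788 128 (.nr 787 4105 (.lx (.lp 29 19 129)) (.l1 .sk)) (.l1 .sk)) (.nx 865 205 (.lx
  (.lp 71 19 129)) (.nr 1376 1048577 (.nr 1120 32769 (.la (.lg 0 true 1 79 79 23 0)) (.nx 1375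
  10323 (.la (.lg 0 false 1 71 71 23 0)) .out)) .out)))) .out) .out))) (.na 2015 725 (.nx 2014
  832257 (.nr 2013 1482912 (.nr 1380 512 .s1 (.nx 1508 128 (.nr 1507 5812 (.lx (.lp 31 19 182))
  (.l1 .sk)) (.nx 1509 129 (.l1 .sk) (.nx 1585 205 (.lx (.lp 71 19 182)) (.nr 2012 1048577 (.nx
  1798 10323 (.la (.lg 0 false 1 67 67 29 0)) (.nr 2011 32769 (.la (.lg 2 true 1 61 61 29 104033))
  .out)) .out))))) .out) .out) (.na 2617 1024 (.nx 2616 10323 (.nr 2615 1048577 (.nr 2016 725 .s1
  (.nx 2315 2049 (.la (.ls 61 41 5793)) (.nr 2614 16385 (.la (.lg 0 true 1 37 37 29 0)) .out)))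
  .out) .out) (.nx 3470 10323 (.nr 3469 1048577 (.nr 2618 1024 .s1 (.nx 3043 2582 (.la (.ls 61 41
  6513)) (.nr 3468 16385 (.la (.ls 37 53 97559)) .out))) .out) .out))))) (.na 11450 16384 (.na 6514
  4096 (.na 4202 2048 (.nx 4201 2582 (.nr 4200 524289 (.nr 3472 1449 .s1 (.nx 3600 128 (.nr 3599
  16417 (.lx (.lp 29 29 513)) (.l1 .sk)) (.nx 3601 129 (.l1 .sk) (.la (.ls 53 37 4592))))) .out)
  .out) (.na 5183 2897 (.nx 5182 3252 (.nr 5181 524289 (.nr 4203 2048 .s1 (.nx 4331 128 (.nr 4330
  23222 (.lx (.lp 37 29 725)) (.l1 .sk)) (.nx 4332 129 (.l1 .sk) (.la (.ls 53 41 5158))))) .out)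
  .out) (.nx 6513 2582 (.nr 6512 262145 (.nr 5184 2897 .s1 (.nx 5312 128 (.nr 5311 32833 (.lx (.lp
  29 29 1025)) (.l1 .sk)) (.nx 5313 129 (.l1 .sk) (.la (.ls 47 37 2298))))) .out) .out))) (.na 8861
  5793 (.nx 8860 2582 (.nr 8859 262145 (.nr 6515 4096 .s1 (.nx 7161 647 (.lx (.lp 43 37 1449)) (.nr
  8858 65537 (.la (.ls 37 37 1528)) .out))) .out) .out) (.na 10155 8192 (.nx 10154 1292 (.nr 10153
  65537 (.nr 8862 5793 .s1 (.lx (.lp 31 37 2049))) .out) .out) (.nx 11449 1292 (.nr 11448 131073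
  (.nr 10156 8192 .s1 (.nx 10360 205 (.lx (.lp 31 41 4097)) (.nr 11447 65537 (.lx (.lp 29 41 4097))
  .out))) .out) .out)))) (.na 14801 131072 (.na 12745 32768 (.nx 12744 1292 (.nr 12743 262145 (.nr
  11451 16384 .s1 (.nx 11655 205 (.lx (.lp 37 43 8193)) (.nr 12742 131073 (.lx (.lp 31 43 8193))
  .out))) .out) .out) (.na 13773 65536 (.nx 13772 1025 (.nr 13771 262145 (.nr 12746 32768 .s1 (.nx
  12950 205 (.lx (.lp 16 0 16385)) (.nr 13770 131073 (.lx (.lp 29 47 16385)) .out))) .out) .out)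
  (.nx 14800 1025 (.nr 14799 262145 (.nr 13774 65536 .s1 (.nx 14097 324 (.lx (.lp 23 53 32769))
  (.nr 14798 131073 (.lx (.lp 23 53 32769)) .out))) .out) .out))) (.na 14803 262144 (.nx 14802 324
  (.l1 .sk) .out) (.na 14805 524289 (.nx 14804 205 (.l1 .sk) .out) .out)))))))

def T36_1 : Ph :=
  (.na 879 145 (.na 659 61 (.na 503 23 (.na 335 8 (.na 208 4 (.na 125 2 (.nx 124 660563 (.nr 123
  1482912 (.nx 2 64 (.nr 1 9 (.lg 0 true 1 31 31 5 0 48) (.l1 .sk)) (.nx 3 65 (.l1 .sk) (.nr 89
  38969 (.nr 81 16385 (.nx 24 6021 (.lg 0 false 21 83 83 11 0 1008) (.nr 80 13779 (.nx 58 104033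
  (.nr 45 682 (.lg 0 true 21 83 83 11 0 1008) (.lg 2 false 13 89 97 9 4882 3120)) (.nr 79 78 (.lg 0
  true 21 79 79 11 0 1008) .out)) .out)) (.nx 88 1292 (.lg 0 false 7 89 89 9 0 5040) .out)) (.nx
  122 205 (.nr 100 110219 (.lg 0 false 11 79 79 9 0 528) (.nx 121 103 (.lg 0 false 21 79 79 11 0
  1008) .out)) .out)))) .out) .out) (.na 207 3 (.nx 206 660563 (.nr 205 623489 (.nx 127 64 (.nr 126
  16 (.lg 0 true 1 29 29 5 0 240) (.l1 .sk)) (.nx 128 65 (.l1 .sk) (.nr 181 27556 (.nx 139 8193
  (.lg 0 true 11 83 83 9 0 2640) (.nr 160 307 (.lg 0 true 21 79 79 11 0 1008) (.nx 180 104033 (.nx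
  167 16385 (.lg 1 true 7 83 83 9 6905 1680) (.nr 179 9743 (.nr 174 2445 (.lg 2 true 7 79 79 9
  10844 1680) (.lg 2 false 5 71 71 9 1362 240)) .out)) .out))) (.nx 204 647 (.nr 192 131073 (.lg 0
  false 11 79 79 9 0 2640) (.nx 203 103 (.lg 0 false 11 67 67 9 0 528) .out)) .out)))) .out) .out)
  .ne)) (.na 275 5 (.nx 274 660563 (.nr 273 1246976 (.nx 246 6503 (.nx 210 64 (.nr 209 28 (.lg 0
  true 1 23 23 9 0 240) (.l1 .sk)) (.nx 211 65 (.l1 .sk) (.nr 234 440873 (.nr 222 55110 (.lg 0
  false 11 83 83 13 0 528) (.nx 233 647 (.lg 0 false 11 83 89 13 0 2640) .out)) (.nx 245 103 (.lg 0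
  false 11 71 71 13 0 528) .out)))) (.nr 272 19485 (.nx 264 330282 (.nr 257 618 (.lg 0 true 11 79
  79 13 0 528) (.nr 259 2458 (.lg 2 false 2 83 83 9 17102 1680) (.lg 2 false 5 83 89 11 6158
  1680))) (.nr 271 78 (.lg 0 true 7 71 71 11 0 336) .out)) .out)) .out) .out) (.na 334 6 (.nx 333
  660563 (.nr 332 1482912 (.nx 278 65 (.nx 277 64 (.nr 276 34 (.lg 0 false 1 23 23 9 0 240) (.l1
  .sk)) (.l1 .sk)) (.nx 324 330282 (.nr 310 185365 (.nx 293 6503 (.nr 285 65537 (.lg 0 false 7 83
  83 16 0 1680) (.nx 292 647 (.lg 0 false 7 79 79 16 0 1680) .out)) (.nr 309 23172 (.nr 300 659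
  (.lg 0 true 7 79 79 16 0 1680) (.nr 302 1344 (.lg 2 true 2 71 71 11 16038 240) (.lg 2 false 7 79
  83 16 7864 1680))) .out)) (.nx 323 103 (.lg 0 false 13 71 71 16 0 3120) .out)) (.nr 331 78 (.lg 0
  true 7 71 71 16 0 1680) .out))) .out) .out) .ne))) (.na 416 13 (.na 382 9 (.nx 381 660563 (.nr
  380 623489 (.nr 336 1 .s1 (.nx 339 65 (.nx 338 64 (.nr 337 51 (.l1 (.ls 19 29 514)) (.l1 .sk))
  (.l1 .sk)) (.nx 340 103 (.l1 (.ls 79 31 801)) (.nr 379 131073 (.nx 347 3836 (.lg 0 false 7 83 83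
  13 0 5040) (.nr 378 110219 (.nr 370 38969 (.nr 358 537 (.lg 0 true 11 73 73 13 0 528) (.nx 369
  330282 (.lg 2 true 11 73 73 13 20843 528) .out)) (.nx 377 41287 (.lg 0 false 7 101 103 13 0
  65520) .out)) .out)) .out)))) .out) .out) (.na 383 10 .ne (.nx 415 660563 (.nr 414 623489 (.nr
  384 7 .s1 (.nx 392 2582 (.nx 388 103 (.nx 386 64 (.nr 385 74 (.l1 (.ls 23 31 412)) (.l1 .sk))
  (.nx 387 65 (.l1 .sk) (.l1 (.ls 79 31 641)))) (.nr 391 131073 (.lg 0 true 3 83 83 13 0 720)
  .out)) (.nr 413 77937 (.nr 399 154 (.lg 0 true 7 71 71 13 0 1680) (.nx 412 41287 (.nr 401 2671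
  (.lg 2 false 2 67 67 11 8580 240) (.nr 408 46342 (.lg 0 false 7 89 89 13 0 5040) (.nx 411 6503
  (.lg 0 false 3 83 83 13 0 720) .out))) .out)) .out))) .out) .out))) (.na 463 17 (.na 443 16 (.nx
  442 660563 (.nr 441 623489 (.nr 417 11 .s1 (.nx 421 103 (.nx 419 64 (.nr 418 91 (.lg 0 true 1 19
  19 9 0 3120) (.l1 .sk)) (.nx 420 65 (.l1 .sk) (.l1 (.ls 79 23 494)))) (.nr 440 131073 (.nx 428
  6503 (.lg 0 false 7 83 83 16 0 21840) (.nr 439 46342 (.nr 435 154 (.lg 0 true 7 67 67 16 0 4368)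
  (.nx 438 41287 (.lg 1 true 3 89 89 11 14616 9360) .out)) .out)) .out))) .out) .out) (.nx 462
  660563 (.nr 461 623489 (.nr 444 14 .s1 (.nx 446 64 (.nr 445 97 (.l1 (.ls 23 23 258)) (.l1 .sk))
  (.nx 447 65 (.l1 .sk) (.nx 448 103 (.l1 (.ls 79 29 402)) (.nr 460 131073 (.nx 451 6503 (.lg 0
  false 3 83 83 13 0 144) (.nr 459 46342 (.nr 456 257 (.lg 0 true 5 71 71 17 0 240) (.nx 458 41287
  (.nx 457 13620 (.lg 1 false 1 79 79 11 14616 48) (.lg 1 false 1 83 83 11 6979 240)) .out)) .out))
  .out))))) .out) .out)) (.na 485 20 (.nx 484 660563 (.nr 483 623489 (.nr 464 16 .s1 (.nx 465 103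
  (.l1 (.ls 79 23 627)) (.nr 482 131073 (.nr 478 46342 (.nx 472 41287 (.lg 0 true 7 83 83 16 0 336)
  (.nr 477 257 (.lg 0 true 5 71 71 16 0 240) .out)) (.nx 481 6503 (.lg 0 false 3 89 89 16 0 720)
  .out)) .out))) .out) .out) (.nx 502 660563 (.nr 501 623489 (.nr 486 19 .s1 (.nx 489 65 (.nx 488
  64 (.nr 487 131 (.l1 (.ls 19 29 207)) (.l1 .sk)) (.l1 .sk)) (.nx 490 103 (.l1 (.ls 79 29 322))
  (.nr 500 131073 (.nx 493 6503 (.lg 0 false 3 83 83 19 0 720) (.nr 499 46342 (.nr 496 257 (.lg 0
  true 3 71 71 19 0 720) (.nx 498 41287 (.nx 497 12041 (.lg 1 false 1 73 73 13 14616 240) (.lg 1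
  false 1 83 83 13 7894 240)) .out)) .out)) .out)))) .out) .out))))) (.na 580 37 (.na 536 29 (.na
  504 25 .ne (.na 520 26 (.nx 519 660563 (.nr 518 131073 (.nr 505 24 .s1 (.nx 511 6503 (.nx 507 64
  (.nr 506 148 (.l1 (.ls 17 17 166)) (.l1 .sk)) (.nx 508 65 (.l1 .sk) (.lg 0 false 3 79 79 16 0
  720))) (.nr 517 32769 (.nr 514 257 (.lg 0 true 3 67 67 16 0 720) (.nx 516 41287 (.lg 1 true 2 73
  73 16 10341 240) .out)) .out))) .out) .out) (.nx 535 660563 (.nr 534 131073 (.nr 521 25 .s1 (.nx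
  527 6503 (.nx 523 64 (.nr 522 165 (.l1 (.ls 17 29 160)) (.l1 .sk)) (.nx 524 65 (.l1 .sk) (.lg 0
  false 3 79 79 11 0 1872))) (.nr 533 32769 (.nr 530 257 (.lg 0 true 3 61 61 11 0 1872) (.nx 532
  41287 (.lg 1 true 2 73 73 11 10341 624) .out)) .out))) .out) .out))) (.na 566 33 (.na 551 32 (.nx
  550 660563 (.nr 549 131073 (.nr 537 28 .s1 (.nx 543 6503 (.nx 539 64 (.nr 538 182 (.l1 (.ls 16 16
  144)) (.l1 .sk)) (.nx 540 65 (.l1 .sk) (.lg 0 false 3 79 79 16 0 144))) (.nr 548 32769 (.nr 546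
  257 (.lg 0 true 3 67 67 16 0 144) (.nx 547 41287 (.lg 1 false 1 79 79 13 10341 48) .out)) .out)))
  .out) .out) (.nx 565 660563 (.nr 564 262145 (.nr 552 31 .s1 (.nx 558 6503 (.nx 554 64 (.nr 553
  188 (.l1 (.ls 19 19 130)) (.l1 .sk)) (.nx 555 65 (.l1 .sk) (.lg 0 false 3 83 83 19 0 720))) (.nr
  563 32769 (.nr 561 257 (.lg 0 true 3 67 67 19 0 144) (.nx 562 41287 (.lg 1 false 1 79 79 13 10341
  240) .out)) .out))) .out) .out)) (.na 567 34 .ne (.nx 579 82572 (.nr 578 262145 (.nr 568 34 .s1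
  (.nx 570 64 (.nr 569 210 (.l1 (.ls 16 23 123)) (.l1 .sk)) (.nx 571 65 (.l1 .sk) (.nr 574 32769
  (.lg 0 true 3 83 83 13 0 144) (.nx 577 2582 (.lg 0 false 3 73 73 13 0 144) .out))))) .out)
  .out)))) (.na 616 50 (.na 593 40 (.nx 592 82572 (.nr 591 262145 (.nr 581 37 .s1 (.nx 583 64 (.nr
  582 228 (.l1 (.ls 16 16 113)) (.l1 .sk)) (.nx 584 65 (.l1 .sk) (.nr 587 32769 (.lg 0 true 3 83 83
  16 0 720) (.nx 590 2582 (.lg 0 false 3 73 73 16 0 144) .out))))) .out) .out) (.na 605 41 (.nx 604
  82572 (.nr 603 262145 (.nr 594 40 .s1 (.nx 596 64 (.nr 595 233 (.l1 (.ls 19 23 105)) (.l1 .sk))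
  (.nx 597 65 (.l1 .sk) (.nr 601 32769 (.nx 599 41287 (.lg 0 true 2 79 79 19 0 240) (.nr 600 154
  (.lg 0 true 1 47 47 19 0 240) .out)) (.nx 602 2582 (.lg 0 false 1 73 73 19 0 240) .out))))) .out)
  .out) (.nx 615 82572 (.nr 614 262145 (.nr 606 41 .s1 (.nx 609 65 (.nx 608 64 (.nr 607 284 (.l1
  (.ls 16 16 102)) (.l1 .sk)) (.l1 .sk)) (.nr 612 32769 (.lg 0 true 3 83 83 16 0 720) (.nx 613 2582
  (.lg 0 true 1 79 79 16 0 240) .out)))) .out) .out))) (.na 638 53 (.na 627 52 (.nx 626 82572 (.nr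
  625 262145 (.nr 617 50 .s1 (.nx 620 65 (.nx 619 64 (.nr 618 296 (.l1 (.ls 16 23 84)) (.l1 .sk))
  (.l1 .sk)) (.nr 623 32769 (.lg 0 true 3 79 79 19 0 720) (.nx 624 2582 (.lg 0 true 1 73 73 13 0
  240) .out)))) .out) .out) (.nx 637 82572 (.nr 636 262145 (.nr 628 52 .s1 (.nx 631 65 (.nx 630 64
  (.nr 629 301 (.l1 (.ls 23 23 81)) (.l1 .sk)) (.l1 .sk)) (.nr 634 32769 (.nx 632 41287 (.lg 0
  false 1 83 83 19 0 3120) (.nr 633 154 (.lg 0 true 1 47 47 19 0 624) .out)) (.nx 635 2582 (.lg 0
  false 1 79 79 19 0 624) .out)))) .out) .out)) (.na 649 58 (.nx 648 82572 (.nr 647 262145 (.nr 639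
  53 .s1 (.nx 642 65 (.nx 641 64 (.nr 640 330 (.l1 (.ls 16 16 80)) (.l1 .sk)) (.l1 .sk)) (.nr 645
  32769 (.lg 0 true 3 79 79 16 0 144) (.nx 646 2582 (.lg 0 true 1 79 79 16 0 720) .out)))) .out)
  .out) (.nx 658 82572 (.nr 657 262145 (.nr 650 58 .s1 (.nx 652 64 (.nr 651 347 (.l1 (.ls 16 19
  73)) (.l1 .sk)) (.nx 653 65 (.l1 .sk) (.nr 655 32769 (.lg 0 false 2 79 79 13 0 240) (.nx 656 2582
  (.lg 0 true 1 73 73 13 0 240) .out))))) .out) .out)))))) (.na 787 104 (.na 719 80 (.na 689 68
  (.na 669 64 (.nx 668 82572 (.nr 667 262145 (.nr 660 61 .s1 (.nx 663 65 (.nx 662 64 (.nr 661 364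
  (.l1 (.ls 16 16 70)) (.l1 .sk)) (.l1 .sk)) (.nr 665 32769 (.lg 0 true 2 79 79 16 0 48) (.nx 666
  2582 (.lg 0 true 1 73 73 16 0 240) .out)))) .out) .out) (.na 679 65 (.nx 678 82572 (.nr 677
  524289 (.nr 670 64 .s1 (.nx 675 41287 (.nx 671 647 (.l1 (.ls 73 43 6543)) (.nr 674 262145 (.nx
  672 6503 (.lg 0 false 1 83 83 19 0 720) (.nr 673 65537 (.lg 1 true 1 79 79 19 20662 720) .out))
  .out)) (.nr 676 257 (.lg 0 true 1 47 53 19 0 48) .out))) .out) .out) (.nx 688 82572 (.nr 687
  524289 (.nr 680 65 .s1 (.nx 681 647 (.l1 (.ls 73 43 6443)) (.nr 686 262145 (.nx 684 41287 (.nx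
  682 6503 (.lg 0 true 1 83 83 17 0 3120) (.nr 683 65537 (.lg 1 false 1 79 79 17 20662 3120) .out))
  (.nr 685 257 (.lg 0 true 1 47 47 17 0 3120) .out)) .out))) .out) .out))) (.na 699 73 (.nx 698
  82572 (.nr 697 524289 (.nr 690 68 .s1 (.nx 695 41287 (.nx 691 647 (.l1 (.ls 73 47 6159)) (.nr 694
  262145 (.nx 692 6503 (.lg 0 true 1 83 83 13 0 240) (.nr 693 65537 (.lg 1 false 1 79 79 13 20662
  240) .out)) .out)) (.nr 696 257 (.lg 0 true 1 47 47 13 0 48) .out))) .out) .out) (.na 709 74 (.nx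
  708 82572 (.nr 707 524289 (.nr 700 73 .s1 (.nx 701 647 (.l1 (.ls 67 37 5737)) (.nr 706 262145
  (.nx 704 41287 (.lg 0 false 3 89 89 16 0 720) (.nr 705 257 (.lg 0 true 1 41 41 16 0 48) .out))
  .out))) .out) .out) (.nx 718 82572 (.nr 717 524289 (.nr 710 74 .s1 (.nx 711 647 (.l1 (.ls 71 47
  5659)) (.nr 716 262145 (.nx 714 41287 (.lg 0 false 3 89 89 19 0 720) (.nr 715 257 (.lg 0 true 1
  43 43 13 0 48) .out)) .out))) .out) .out)))) (.na 749 89 (.na 729 82 (.nx 728 82572 (.nr 727
  524289 (.nr 720 80 .s1 (.nx 721 647 (.l1 (.ls 73 47 5235)) (.nr 726 262145 (.nx 722 6503 (.lg 0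
  false 1 83 83 23 0 240) (.nr 725 65537 (.nx 723 41287 (.lg 1 true 1 79 79 23 20662 240) (.nr 724
  257 (.lg 0 true 1 47 53 23 0 240) .out)) .out)) .out))) .out) .out) (.na 739 85 (.nx 738 82572
  (.nr 737 524289 (.nr 730 82 .s1 (.nx 731 647 (.l1 (.ls 71 47 5107)) (.nr 736 262145 (.nx 734
  41287 (.lg 0 false 3 83 83 19 0 720) (.nr 735 257 (.lg 0 true 1 43 43 13 0 720) .out)) .out)))
  .out) .out) (.nx 748 82572 (.nr 747 524289 (.nr 740 85 .s1 (.nx 741 647 (.l1 (.ls 73 41 4927))
  (.nr 746 262145 (.nx 744 41287 (.nx 742 6503 (.lg 0 true 1 79 79 16 0 240) (.nr 743 65537 (.lg 1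
  true 1 73 73 16 20662 240) .out)) (.nr 745 257 (.lg 0 true 1 47 47 16 0 240) .out)) .out))) .out)
  .out))) (.na 769 100 (.na 759 97 (.nx 758 82572 (.nr 757 524289 (.nr 750 89 .s1 (.nx 751 647 (.l1
  (.ls 61 37 4706)) (.nr 756 262145 (.nx 754 41287 (.lg 0 false 3 79 79 16 0 720) (.nr 755 257 (.lg
  0 true 1 37 37 16 0 48) .out)) .out))) .out) .out) (.nx 768 82572 (.nr 767 524289 (.nr 760 97 .s1
  (.nx 761 647 (.l1 (.ls 61 31 4318)) (.nr 766 262145 (.nx 764 41287 (.lg 0 false 3 79 79 16 0 720)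
  (.nr 765 257 (.lg 0 true 1 31 31 16 0 48) .out)) .out))) .out) .out)) (.na 777 101 (.nx 776 82572
  (.nr 775 524289 (.nr 770 100 .s1 (.nx 773 6503 (.nx 771 647 (.l1 (.ls 71 43 4189)) (.nr 772
  262145 (.lg 0 false 1 73 73 23 0 240) .out)) (.nr 774 65537 (.lg 1 false 1 79 79 23 26424 720)
  .out))) .out) .out) (.nx 786 82572 (.nr 785 524289 (.nr 778 101 .s1 (.nx 779 647 (.l1 (.ls 61 31
  4147)) (.nr 784 262145 (.nx 782 41287 (.lg 0 false 3 79 79 16 0 720) (.nr 783 257 (.lg 0 true 1
  31 31 16 0 48) .out)) .out))) .out) .out))))) (.na 850 128 (.na 815 113 (.na 795 106 (.nx 794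
  82572 (.nr 793 524289 (.nr 788 104 .s1 (.nx 789 647 (.l1 (.ls 71 43 4028)) (.nr 792 262145 (.nx
  790 6503 (.lg 0 false 1 73 73 23 0 624) (.nr 791 65537 (.lg 1 false 1 79 79 23 25407 624) .out))
  .out))) .out) .out) (.na 805 109 (.nx 804 82572 (.nr 803 524289 (.nr 796 106 .s1 (.nx 797 647
  (.l1 (.ls 67 41 3952)) (.nr 802 262145 (.nx 800 41287 (.lg 0 false 3 79 79 23 0 144) (.nr 801 257
  (.lg 0 true 1 31 31 19 0 48) .out)) .out))) .out) .out) (.nx 814 82572 (.nr 813 524289 (.nr 806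
  109 .s1 (.nx 811 41287 (.nx 807 647 (.l1 (.ls 61 31 3843)) (.nr 810 262145 (.lg 0 false 3 79 79
  16 0 720) .out)) (.nr 812 257 (.lg 0 true 1 37 37 16 0 720) .out))) .out) .out))) (.na 833 122
  (.na 825 116 (.nx 824 82572 (.nr 823 524289 (.nr 816 113 .s1 (.nx 817 647 (.l1 (.ls 61 31 3707))
  (.nr 822 262145 (.nx 820 41287 (.lg 0 false 3 79 79 16 0 720) (.nr 821 257 (.lg 0 true 1 31 31 16
  0 240) .out)) .out))) .out) .out) (.nx 832 82572 (.nr 831 524289 (.nr 826 116 .s1 (.nx 829 6503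
  (.nx 827 647 (.l1 (.ls 71 43 3611)) (.nr 828 262145 (.lg 0 false 1 73 73 19 0 48) .out)) (.nr 830
  65537 (.lg 1 true 1 79 79 19 22779 48) .out))) .out) .out)) (.na 842 125 (.nx 841 82572 (.nr 840
  524289 (.nr 834 122 .s1 (.nx 835 647 (.l1 (.ls 59 41 3434)) (.nr 839 262145 (.nx 837 41287 (.lg 0
  false 2 79 79 19 0 48) (.nr 838 257 (.lg 0 true 1 31 31 19 0 240) .out)) .out))) .out) .out) (.nx
  849 82572 (.nr 848 524289 (.nr 843 125 .s1 (.nx 844 647 (.l1 (.ls 61 37 3351)) (.nr 847 262145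
  (.lg 0 false 3 79 79 17 0 720) .out))) .out) .out)))) (.na 865 131 (.na 858 129 (.nx 857 82572
  (.nr 856 1048577 (.nr 851 128 .s1 (.nx 854 16385 (.nx 852 647 (.l1 (.ls 73 41 3273)) (.nr 853
  262145 (.lg 0 false 1 79 83 23 0 240) .out)) (.nr 855 131073 (.lg 1 true 1 73 73 23 20643 240)
  .out))) .out) .out) (.na 859 130 .ne (.nx 864 41287 (.nr 863 1048577 (.nr 860 130 .s1 (.nx 861
  647 (.l1 (.ls 73 47 3223)) (.nr 862 131073 (.lg 0 true 1 83 83 29 0 3120) .out))) .out) .out)))
  (.na 872 137 (.na 866 136 (.lg 0 false 1 0 0 16 0 24) (.nx 871 41287 (.nr 870 1048577 (.nr 867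
  136 .s1 (.nx 868 647 (.l1 (.ls 73 43 3081)) (.nr 869 131073 (.lg 0 true 1 83 83 29 0 48) .out)))
  .out) .out)) (.na 878 139 (.nx 877 41287 (.nr 876 1048577 (.nr 873 137 .s1 (.nx 874 647 (.l1 (.ls
  67 31 3058)) (.nr 875 131073 (.lg 0 true 1 73 73 16 0 240) .out))) .out) .out) (.lg 0 false 1 0 0
  16 0 24))))))) (.na 1006 212 (.na 942 178 (.na 910 160 (.na 897 149 (.na 885 146 (.nx 884 41287
  (.nr 883 1048577 (.nr 880 145 .s1 (.nx 881 647 (.l1 (.ls 73 41 2889)) (.nr 882 131073 (.lg 0 true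
  1 83 83 17 0 720) .out))) .out) .out) (.na 891 148 (.nx 890 41287 (.nr 889 1048577 (.nr 886 146
  .s1 (.nx 887 647 (.l1 (.ls 67 41 2870)) (.nr 888 131073 (.lg 0 true 1 79 79 19 0 240) .out)))
  .out) .out) (.nx 896 41287 (.nr 895 1048577 (.nr 892 148 .s1 (.nx 893 647 (.l1 (.ls 73 43 2831))
  (.nr 894 131073 (.lg 0 true 1 83 83 23 0 240) .out))) .out) .out))) (.na 903 151 (.nx 902 41287
  (.nr 901 1048577 (.nr 898 149 .s1 (.nx 899 647 (.l1 (.ls 61 31 2812)) (.nr 900 131073 (.lg 0 true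
  1 73 73 16 0 240) .out))) .out) .out) (.na 904 157 (.lg 0 false 1 0 0 16 0 24) (.nx 909 41287
  (.nr 908 1048577 (.nr 905 157 .s1 (.nx 906 647 (.l1 (.ls 61 31 2669)) (.nr 907 131073 (.lg 0 true
  1 73 73 16 0 240) .out))) .out) .out)))) (.na 923 167 (.na 916 163 (.nx 915 41287 (.nr 914
  1048577 (.nr 911 160 .s1 (.nx 912 647 (.l1 (.ls 73 43 2619)) (.nr 913 131073 (.lg 0 false 1 79 83
  29 0 240) .out))) .out) .out) (.na 917 164 (.lg 0 false 1 0 0 16 0 24) (.nx 922 41287 (.nr 921
  1048577 (.nr 918 164 .s1 (.nx 919 647 (.l1 (.ls 73 37 2555)) (.nr 920 131073 (.lg 0 false 1 79 79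
  23 0 48) .out))) .out) .out))) (.na 930 170 (.na 924 169 (.lg 0 false 1 0 0 16 0 24) (.nx 929
  41287 (.nr 928 1048577 (.nr 925 169 .s1 (.nx 926 647 (.l1 (.ls 67 37 2479)) (.nr 927 131073 (.lg
  0 true 1 73 73 17 0 3120) .out))) .out) .out)) (.na 936 173 (.nx 935 41287 (.nr 934 1048577 (.nr
  931 170 .s1 (.nx 932 647 (.l1 (.ls 73 43 2465)) (.nr 933 131073 (.lg 0 false 1 79 79 31 0 240)
  .out))) .out) .out) (.nx 941 41287 (.nr 940 1048577 (.nr 937 173 .s1 (.nx 938 647 (.l1 (.ls 61 31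
  2422)) (.nr 939 131073 (.lg 0 true 1 71 71 16 0 240) .out))) .out) .out))))) (.na 974 197 (.na
  955 185 (.na 948 179 (.nx 947 41287 (.nr 946 1048577 (.nr 943 178 .s1 (.nx 944 647 (.l1 (.ls 61
  41 2354)) (.nr 945 131073 (.lg 0 true 1 71 71 19 0 48) .out))) .out) .out) (.na 949 181 (.lg 0
  false 1 0 0 16 0 24) (.nx 954 41287 (.nr 953 1048577 (.nr 950 181 .s1 (.nx 951 647 (.l1 (.ls 61
  31 2315)) (.nr 952 131073 (.lg 0 true 1 71 71 16 0 48) .out))) .out) .out))) (.na 962 193 (.na
  961 191 (.nx 960 41287 (.nr 959 1048577 (.nr 956 185 .s1 (.nx 957 647 (.l1 (.ls 73 31 2265)) (.nr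
  958 131073 (.lg 0 false 1 79 79 19 0 240) .out))) .out) .out) (.lg 0 false 1 0 0 16 0 24)) (.na
  968 194 (.nx 967 41287 (.nr 966 1048577 (.nr 963 193 .s1 (.nx 964 647 (.l1 (.ls 61 29 2171)) (.nr
  965 131073 (.lg 0 true 1 71 71 16 0 240) .out))) .out) .out) (.nx 973 41287 (.nr 972 1048577 (.nr
  969 194 .s1 (.nx 970 647 (.l1 (.ls 61 41 2160)) (.nr 971 131073 (.lg 0 true 1 67 67 19 0 48)
  .out))) .out) .out)))) (.na 987 202 (.na 980 199 (.nx 979 41287 (.nr 978 1048577 (.nr 975 197 .s1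
  (.nx 976 647 (.l1 (.ls 61 29 2127)) (.nr 977 131073 (.lg 0 true 1 71 71 16 0 48) .out))) .out)
  .out) (.na 981 200 (.lg 0 false 1 0 0 16 0 24) (.nx 986 41287 (.nr 985 1048577 (.nr 982 200 .s1
  (.nx 983 647 (.l1 (.ls 67 41 2096)) (.nr 984 131073 (.lg 0 false 1 73 73 29 0 240) .out))) .out)
  .out))) (.na 999 208 (.na 993 205 (.nx 992 41287 (.nr 991 1048577 (.nr 988 202 .s1 (.nx 989 647
  (.l1 (.ls 61 37 2075)) (.nr 990 131073 (.lg 0 true 1 71 71 23 0 240) .out))) .out) .out) (.nx 998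
  41287 (.nr 997 1048577 (.nr 994 205 .s1 (.nx 995 647 (.l1 (.ls 71 31 2044)) (.nr 996 131073 (.lg
  0 false 1 79 79 19 0 240) .out))) .out) .out)) (.na 1005 211 (.nx 1004 41287 (.nr 1003 1048577
  (.nr 1000 208 .s1 (.nx 1001 647 (.l1 (.ls 73 41 2015)) (.nr 1002 131073 (.lg 0 false 1 83 83 31 0
  9360) .out))) .out) .out) (.lg 0 false 1 0 0 16 0 24)))))) (.na 1069 251 (.na 1032 229 (.na 1024
  223 (.na 1012 218 (.nx 1011 41287 (.nr 1010 1048577 (.nr 1007 212 .s1 (.nx 1008 647 (.l1 (.ls 71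
  37 1977)) (.nr 1009 131073 (.lg 0 false 1 79 79 23 0 240) .out))) .out) .out) (.na 1018 221 (.nx
  1017 41287 (.nr 1016 1048577 (.nr 1013 218 .s1 (.nx 1014 647 (.l1 (.ls 61 37 1923)) (.nr 1015
  131073 (.lg 0 true 1 67 67 23 0 48) .out))) .out) .out) (.nx 1023 41287 (.nr 1022 1048577 (.nr
  1019 221 .s1 (.nx 1020 647 (.l1 (.ls 73 37 1897)) (.nr 1021 131073 (.lg 0 false 1 79 79 23 0 624)
  .out))) .out) .out))) (.na 1025 226 (.lg 0 false 1 0 0 16 0 24) (.na 1031 227 (.nx 1030 41287
  (.nr 1029 1048577 (.nr 1026 226 .s1 (.nx 1027 647 (.l1 (.ls 61 37 1855)) (.nr 1028 131073 (.lg 0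
  true 1 71 71 23 0 720) .out))) .out) .out) (.lg 0 false 1 0 0 16 0 24)))) (.na 1050 239 (.na 1038
  232 (.nx 1037 41287 (.nr 1036 1048577 (.nr 1033 229 .s1 (.nx 1034 647 (.l1 (.ls 59 29 1830)) (.nr
  1035 131073 (.lg 0 true 1 67 67 17 0 48) .out))) .out) .out) (.na 1044 233 (.nx 1043 41287 (.nr
  1042 1048577 (.nr 1039 232 .s1 (.nx 1040 647 (.l1 (.ls 71 41 1807)) (.nr 1041 131073 (.lg 0 false
  1 73 73 23 0 48) .out))) .out) .out) (.nx 1049 41287 (.nr 1048 1048577 (.nr 1045 233 .s1 (.nx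
  1046 647 (.l1 (.ls 61 29 1799)) (.nr 1047 131073 (.lg 0 true 1 67 67 17 0 48) .out))) .out)
  .out))) (.na 1057 244 (.na 1051 241 (.lg 0 false 1 0 0 16 0 24) (.nx 1056 41287 (.nr 1055 1048577
  (.nr 1052 241 .s1 (.nx 1053 647 (.l1 (.ls 61 29 1739)) (.nr 1054 131073 (.lg 0 true 1 67 67 17 0
  48) .out))) .out) .out)) (.na 1063 250 (.nx 1062 41287 (.nr 1061 1048577 (.nr 1058 244 .s1 (.nx
  1059 647 (.l1 (.ls 59 37 1718)) (.nr 1060 131073 (.lg 0 false 1 73 73 23 0 48) .out))) .out)
  .out) (.nx 1068 41287 (.nr 1067 1048577 (.nr 1064 250 .s1 (.nx 1065 647 (.l1 (.ls 61 41 1677))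
  (.nr 1066 131073 (.lg 0 true 1 67 67 29 0 240) .out))) .out) .out))))) (.na 2454 2048 (.na 1394
  512 (.na 1070 256 (.lg 0 false 1 0 0 16 0 24) (.na 1071 257 (.lg 0 false 1 0 0 16 0 24) (.nx 1393
  41287 (.nr 1392 262145 (.nr 1072 257 .s1 (.nx 1136 64 (.nr 1135 2908 (.lx (.lp 37 17 129)) (.l1
  .sk)) (.nx 1137 65 (.l1 .sk) (.la (.lg 0 false 1 71 71 23 0))))) .out) .out))) (.na 1935 1024
  (.na 1675 725 (.nx 1674 41287 (.nr 1673 262145 (.nr 1395 512 .s1 (.nx 1459 64 (.nr 1458 4118 (.lx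
  (.lp 37 19 182)) (.l1 .sk)) (.nx 1460 65 (.l1 .sk) (.la (.lg 0 false 1 67 67 29 0))))) .out)
  .out) (.nx 1934 257 (.nr 1933 65537 (.nr 1676 725 .s1 (.nx 1804 129 (.lx (.lp 43 19 257)) (.nr
  1932 8193 (.lx (.lp 31 23 257)) .out))) .out) .out)) (.na 2195 1449 (.nx 2194 257 (.nr 2193 65537
  (.nr 1936 1024 .s1 (.nx 2064 129 (.lx (.lp 53 23 363)) (.nr 2192 8193 (.lx (.lp 37 23 363))
  .out))) .out) .out) (.nx 2453 257 (.nr 2452 16385 (.nr 2196 1449 .s1 (.lx (.lp 41 29 513))) .out)
  .out)))) (.na 3231 5793 (.na 2713 2897 (.nx 2712 257 (.nr 2711 32769 (.nr 2455 2048 .s1 (.lx (.lp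
  41 29 725))) .out) .out) (.na 2972 4096 (.nx 2971 257 (.nr 2970 32769 (.nr 2714 2897 .s1 (.lx
  (.lp 29 31 1025))) .out) .out) (.nx 3230 257 (.nr 3229 32769 (.nr 2973 4096 .s1 (.lx (.lp 19 31
  1449))) .out) .out))) (.na 3441 16384 (.na 3336 8192 (.nx 3335 103 (.nr 3334 32769 (.nr 3232 5793
  .s1 (.lx (.lp 16 0 2049))) .out) .out) (.nx 3440 103 (.nr 3439 32769 (.nr 3337 8192 .s1 (.lx (.lp
  16 0 4097))) .out) .out)) (.na 3443 32769 (.nx 3442 103 (.l1 .sk) .out) .out)))))))

def T36_2 : Ph :=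
  (.na 185 122 (.na 129 32 (.na 86 14 (.na 61 3 (.na 1 2 .ne (.nx 60 330282 (.nr 59 623489 (.nx 3
  27 (.nr 2 10 (.lg 0 true 1 23 23 5 0 13104) (.l1 .sk)) (.nx 4 28 (.l1 .sk) (.nr 43 65537 (.nr 37
  9743 (.nx 11 2551 (.lg 0 true 7 73 73 9 0 1008) (.nr 31 154 (.lg 0 true 20 71 71 11 0 720) (.nx
  36 20644 (.lg 1 false 5 83 83 9 1810 720) .out))) (.nx 42 324 (.lg 0 false 5 73 73 9 0 720)
  .out)) (.nx 58 52 (.lg 0 false 15 71 71 9 0 720) .out)))) .out) .out)) (.na 62 6 .ne (.na 85 7
  (.nx 84 330282 (.nr 83 27556 (.nr 63 4 .s1 (.nx 65 27 (.nr 64 26 (.lg 0 false 1 0 17 7 0 720720)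
  (.l1 .sk)) (.nx 66 28 (.l1 .sk) (.nx 71 3252 (.lg 0 true 5 73 73 11 0 720) (.nr 82 154 (.lg 0
  true 11 71 71 13 0 1584) .out))))) .out) .out) .ne))) (.na 103 18 (.na 102 16 (.nx 101 330282
  (.nr 100 77937 (.nr 87 14 .s1 (.nr 90 154 (.nx 88 101 (.l1 (.ls 29 37 731)) (.lg 0 false 2 73 73
  13 0 5040)) (.nx 92 28 (.nx 91 27 (.l1 .sk) (.l1 .sk)) (.nx 99 20644 (.nx 94 4237 (.lg 0 true 2
  83 83 13 0 5040) (.nr 98 27556 (.lg 1 false 4 61 61 13 2374 1008) .out)) .out)))) .out) .out)
  .ne) (.na 120 23 (.nx 119 330282 (.nr 118 131073 (.nr 104 18 .s1 (.nx 112 3252 (.nx 106 27 (.nr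
  105 86 (.l1 (.ls 17 19 43)) (.l1 .sk)) (.nx 107 28 (.l1 .sk) (.lg 0 false 5 73 73 19 0 720)))
  (.nr 117 27556 (.nr 115 154 (.lg 0 true 3 61 61 19 0 144) (.nx 116 20644 (.lg 1 false 1 71 71 13
  3093 144) .out)) .out))) .out) .out) (.na 121 26 .ne (.nx 128 41287 (.nr 127 131073 (.nr 122 26
  .s1 (.nx 123 324 (.l1 (.ls 71 43 4040)) (.nr 126 32769 (.nx 124 3252 (.lg 0 true 1 73 73 11 0
  1872) (.nr 125 257 (.lg 0 false 1 61 61 11 0 1872) .out)) .out))) .out) .out))))) (.na 154 64
  (.na 136 42 (.na 130 38 .ne (.nx 135 41287 (.nr 134 262145 (.nr 131 38 .s1 (.nx 132 324 (.l1 (.ls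
  71 43 2765)) (.nr 133 4097 (.lg 0 false 1 73 73 13 0 144) .out))) .out) .out)) (.na 142 54 (.nx
  141 41287 (.nr 140 262145 (.nr 137 42 .s1 (.nx 138 324 (.l1 (.ls 67 47 2502)) (.nr 139 4097 (.lg
  0 false 1 71 71 19 0 1008) .out))) .out) .out) (.na 148 62 (.nx 147 41287 (.nr 146 262145 (.nr
  143 54 .s1 (.nx 144 324 (.l1 (.ls 71 43 1946)) (.nr 145 4097 (.lg 0 false 1 67 67 19 0 144)
  .out))) .out) .out) (.nx 153 41287 (.nr 152 262145 (.nr 149 62 .s1 (.nx 150 324 (.l1 (.ls 67 41
  1696)) (.nr 151 4097 (.lg 0 false 1 67 67 13 0 144) .out))) .out) .out)))) (.na 167 86 (.na 155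
  74 .ne (.na 161 78 (.nx 160 20644 (.nr 159 524289 (.nr 156 74 .s1 (.nx 157 324 (.l1 (.ls 71 31
  1421)) (.nr 158 65537 (.lg 0 true 1 79 79 13 0 144) .out))) .out) .out) (.nx 166 20644 (.nr 165
  524289 (.nr 162 78 .s1 (.nx 163 324 (.l1 (.ls 67 43 1348)) (.nr 164 65537 (.lg 0 true 1 73 73 23
  0 1872) .out))) .out) .out))) (.na 173 98 (.nx 172 20644 (.nr 171 524289 (.nr 168 86 .s1 (.nx 169
  324 (.l1 (.ls 71 37 1223)) (.nr 170 65537 (.lg 0 true 1 79 79 13 0 144) .out))) .out) .out) (.na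
  179 114 (.nx 178 20644 (.nr 177 524289 (.nr 174 98 .s1 (.nx 175 324 (.l1 (.ls 67 37 1074)) (.nr
  176 65537 (.lg 0 true 1 71 71 19 0 1008) .out))) .out) .out) (.nx 184 20644 (.nr 183 524289 (.nr
  180 114 .s1 (.nx 181 324 (.l1 (.ls 67 41 923)) (.nr 182 65537 (.lg 0 true 1 73 73 29 0 144)
  .out))) .out) .out)))))) (.na 241 218 (.na 210 158 (.na 197 128 (.na 191 126 (.nx 190 20644 (.nr
  189 524289 (.nr 186 122 .s1 (.nx 187 324 (.l1 (.ls 59 31 863)) (.nr 188 65537 (.lg 0 true 1 71 71
  19 0 144) .out))) .out) .out) (.nx 196 20644 (.nr 195 524289 (.nr 192 126 .s1 (.nx 193 324 (.l1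
  (.ls 73 41 836)) (.nr 194 65537 (.lg 0 false 1 79 79 31 0 5040) .out))) .out) .out)) (.na 198 134
  .ne (.na 204 146 (.nx 203 20644 (.nr 202 16385 (.nr 199 134 .s1 (.nx 200 365 (.l1 (.ls 41 31
  997)) (.nr 201 1025 (.lg 2 true 1 29 29 19 2080 5040) .out))) .out) .out) (.nx 209 20644 (.nr 208
  16385 (.nr 205 146 .s1 (.nx 206 365 (.l1 (.ls 41 31 915)) (.nr 207 1025 (.lg 2 true 1 29 29 19
  1909 5040) .out))) .out) .out)))) (.na 223 186 (.na 216 162 (.nx 215 20644 (.nr 214 16385 (.nr
  211 158 .s1 (.nx 212 365 (.l1 (.ls 37 31 846)) (.nr 213 1025 (.lg 2 true 1 19 19 19 1764 144)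
  .out))) .out) .out) (.na 217 182 (.lg 0 false 1 0 0 16 0 24) (.nx 222 20644 (.nr 221 16385 (.nr
  218 182 .s1 (.nx 219 365 (.l1 (.ls 43 41 735)) (.nr 220 1025 (.lg 2 true 1 31 31 31 1532 13104)
  .out))) .out) .out))) (.na 229 194 (.nx 228 20644 (.nr 227 16385 (.nr 224 186 .s1 (.nx 225 365
  (.l1 (.ls 29 41 719)) (.nr 226 1025 (.lg 2 false 1 19 19 29 1499 720) .out))) .out) .out) (.na
  235 206 (.nx 234 20644 (.nr 233 16385 (.nr 230 194 .s1 (.nx 231 365 (.l1 (.ls 37 31 689)) (.nr
  232 1025 (.lg 2 true 1 23 23 19 1437 5040) .out))) .out) .out) (.nx 240 20644 (.nr 239 16385 (.nr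
  236 206 .s1 (.nx 237 365 (.l1 (.ls 37 31 649)) (.nr 238 1025 (.lg 2 false 1 19 19 23 1353 720)
  .out))) .out) .out))))) (.na 266 257 (.na 253 234 (.na 247 222 (.nx 246 20644 (.nr 245 16385 (.nr
  242 218 .s1 (.nx 243 365 (.l1 (.ls 31 31 614)) (.nr 244 1025 (.lg 2 true 1 17 17 23 1279 1008)
  .out))) .out) .out) (.nx 252 20644 (.nr 251 16385 (.nr 248 222 .s1 (.nx 249 365 (.l1 (.ls 31 31
  603)) (.nr 250 1025 (.lg 2 true 1 17 17 29 1256 1008) .out))) .out) .out)) (.na 259 254 (.nx 258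
  20644 (.nr 257 16385 (.nr 254 234 .s1 (.nx 255 365 (.l1 (.ls 47 41 572)) (.nr 256 1025 (.lg 2
  true 1 29 31 37 1191 9360) .out))) .out) .out) (.na 265 256 (.nx 264 20644 (.nr 263 16385 (.nr
  260 254 .s1 (.nx 261 365 (.l1 (.ls 37 31 527)) (.nr 262 1025 (.lg 2 true 1 19 19 23 1098 65520)
  .out))) .out) .out) .ne))) (.na 1737 2048 (.na 552 512 (.nx 551 20644 (.nr 550 4097 (.nr 267 257
  .s1 (.nx 294 27 (.nr 293 1899 (.lx (.lp 16 0 129)) (.l1 .sk)) (.nx 295 28 (.l1 .sk) (.la (.lg 0
  true 1 41 41 23 0))))) .out) .out) (.na 1632 1024 (.nx 1631 20644 (.nr 1630 8193 (.nr 553 512 .s1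
  (.nx 1117 915 (.nx 604 52 (.lx (.lp 16 0 257)) (.nr 1116 4097 (.la (.ls 31 31 1632)) .out)) (.nr
  1629 2049 (.la (.lg 2 false 1 16 16 29 828)) .out))) .out) .out) (.nx 1736 103 (.nr 1735 8193
  (.nr 1633 1024 .s1 (.lx (.lp 16 19 513))) .out) .out))) (.na 1821 4096 (.nx 1820 82 (.nr 1819
  8193 (.nr 1738 2048 .s1 (.lx (.lp 16 0 1025))) .out) .out) (.na 1905 8193 (.nx 1904 82 (.nr 1903
  16385 (.nr 1822 4096 .s1 (.lx (.lp 16 0 2049))) .out) .out) .out))))))

theorem c36 :
    OkQ ckI L7 128 83 1099511627776 0 34359738368 1 1099511627776 ∧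
    OkQ ckI L5 64 1 1099511627776 0 34359738368 1 1099511627776 ∧
    OkQ ckI L3 27 1 1099511627776 0 34359738368 1 1099511627776 := by
  refine ⟨?_, ?_, ?_⟩
  · refine fin 144 14806 T36_0 ?_
    refine jn 11 (by decide +kernel) ?_
    refine jn 26 (by decide +kernel) ?_
    refine jn 37 (by decide +kernel) ?_
    refine jn 40 (by decide +kernel) ?_
    refine jn 56 (by decide +kernel) ?_
    refine jn 65 (by decide +kernel) ?_
    refine jn 66 (by decide +kernel) ?_
    refine jn 67 (by decide +kernel) ?_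
    refine jn 69 (by decide +kernel) ?_
    refine jn 70 (by decide +kernel) ?_
    refine jn 75 (by decide +kernel) ?_
    refine jn 85 (by decide +kernel) ?_
    refine jn 95 (by decide +kernel) ?_
    refine jn 98 (by decide +kernel) ?_
    refine jn 108 (by decide +kernel) ?_
    refine jn 111 (by decide +kernel) ?_
    refine jn 125 (by decide +kernel) ?_
    refine jn 135 (by decide +kernel) ?_
    refine jn 138 (by decide +kernel) ?_
    refine jn 152 (by decide +kernel) ?_
    refine jn 162 (by decide +kernel) ?_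
    refine jn 165 (by decide +kernel) ?_
    refine jn 179 (by decide +kernel) ?_
    refine jn 194 (by decide +kernel) ?_
    refine jn 205 (by decide +kernel) ?_
    refine jn 214 (by decide +kernel) ?_
    refine jn 215 (by decide +kernel) ?_
    refine jn 218 (by decide +kernel) ?_
    refine jn 227 (by decide +kernel) ?_
    refine jn 238 (by decide +kernel) ?_
    refine jn 245 (by decide +kernel) ?_
    refine jn 247 (by decide +kernel) ?_
    refine jn 264 (by decide +kernel) ?_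
    refine jn 269 (by decide +kernel) ?_
    refine jn 279 (by decide +kernel) ?_
    refine jn 296 (by decide +kernel) ?_
    refine jn 298 (by decide +kernel) ?_
    refine jn 301 (by decide +kernel) ?_
    refine jn 319 (by decide +kernel) ?_
    refine jn 324 (by decide +kernel) ?_
    refine jn 332 (by decide +kernel) ?_
    refine jn 343 (by decide +kernel) ?_
    refine jn 354 (by decide +kernel) ?_
    refine jn 365 (by decide +kernel) ?_
    refine jn 376 (by decide +kernel) ?_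
    refine jn 386 (by decide +kernel) ?_
    refine jn 395 (by decide +kernel) ?_
    refine jn 405 (by decide +kernel) ?_
    refine jn 408 (by decide +kernel) ?_
    refine jn 417 (by decide +kernel) ?_
    refine jn 427 (by decide +kernel) ?_
    refine jn 447 (by decide +kernel) ?_
    refine jn 456 (by decide +kernel) ?_
    refine jn 457 (by decide +kernel) ?_
    refine jn 458 (by decide +kernel) ?_
    refine jn 459 (by decide +kernel) ?_
    refine jn 460 (by decide +kernel) ?_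
    refine jn 461 (by decide +kernel) ?_
    refine jn 477 (by decide +kernel) ?_
    refine jn 486 (by decide +kernel) ?_
    refine jn 498 (by decide +kernel) ?_
    refine jn 506 (by decide +kernel) ?_
    refine jn 510 (by decide +kernel) ?_
    refine jn 519 (by decide +kernel) ?_
    refine jn 535 (by decide +kernel) ?_
    refine jn 544 (by decide +kernel) ?_
    refine jn 554 (by decide +kernel) ?_
    refine jn 572 (by decide +kernel) ?_
    refine jn 579 (by decide +kernel) ?_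
    refine jn 583 (by decide +kernel) ?_
    refine jn 598 (by decide +kernel) ?_
    refine jn 610 (by decide +kernel) ?_
    refine jn 626 (by decide +kernel) ?_
    refine jn 636 (by decide +kernel) ?_
    refine jn 645 (by decide +kernel) ?_
    refine jn 677 (by decide +kernel) ?_
    refine jn 735 (by decide +kernel) ?_
    refine jn 803 (by decide +kernel) ?_
    refine jn 853 (by decide +kernel) ?_
    refine jn 866 (by decide +kernel) ?_
    refine jn 872 (by decide +kernel) ?_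
    refine jn 873 (by decide +kernel) ?_
    refine jn 876 (by decide +kernel) ?_
    refine jn 880 (by decide +kernel) ?_
    refine jn 881 (by decide +kernel) ?_
    refine jn 891 (by decide +kernel) ?_
    refine jn 896 (by decide +kernel) ?_
    refine jn 897 (by decide +kernel) ?_
    refine jn 900 (by decide +kernel) ?_
    refine jn 905 (by decide +kernel) ?_
    refine jn 912 (by decide +kernel) ?_
    refine jn 913 (by decide +kernel) ?_
    refine jn 921 (by decide +kernel) ?_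
    refine jn 931 (by decide +kernel) ?_
    refine jn 934 (by decide +kernel) ?_
    refine jn 939 (by decide +kernel) ?_
    refine jn 945 (by decide +kernel) ?_
    refine jn 950 (by decide +kernel) ?_
    refine jn 955 (by decide +kernel) ?_
    refine jn 960 (by decide +kernel) ?_
    refine jn 961 (by decide +kernel) ?_
    refine jn 964 (by decide +kernel) ?_
    refine jn 969 (by decide +kernel) ?_
    refine jn 977 (by decide +kernel) ?_
    refine jn 987 (by decide +kernel) ?_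
    refine jn 992 (by decide +kernel) ?_
    refine jn 993 (by decide +kernel) ?_
    refine jn 996 (by decide +kernel) ?_
    refine jn 1004 (by decide +kernel) ?_
    refine jn 1009 (by decide +kernel) ?_
    refine jn 1016 (by decide +kernel) ?_
    refine jn 1017 (by decide +kernel) ?_
    refine jn 1025 (by decide +kernel) ?_
    refine jn 1027 (by decide +kernel) ?_
    refine jn 1039 (by decide +kernel) ?_
    refine jn 1041 (by decide +kernel) ?_
    refine jn 1055 (by decide +kernel) ?_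
    refine jn 1060 (by decide +kernel) ?_
    refine jn 1064 (by decide +kernel) ?_
    refine jn 1065 (by decide +kernel) ?_
    refine jn 1075 (by decide +kernel) ?_
    refine jn 1081 (by decide +kernel) ?_
    refine jn 1092 (by decide +kernel) ?_
    refine jn 1097 (by decide +kernel) ?_
    refine jn 1100 (by decide +kernel) ?_
    refine jn 1106 (by decide +kernel) ?_
    refine jn 1120 (by decide +kernel) ?_
    refine jn 1127 (by decide +kernel) ?_
    refine jn 1130 (by decide +kernel) ?_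
    refine jn 1135 (by decide +kernel) ?_
    refine jn 1136 (by decide +kernel) ?_
    refine jn 1146 (by decide +kernel) ?_
    refine jn 1151 (by decide +kernel) ?_
    refine jn 1152 (by decide +kernel) ?_
    refine jn 1160 (by decide +kernel) ?_
    refine jn 1167 (by decide +kernel) ?_
    refine jn 1169 (by decide +kernel) ?_
    refine jn 1184 (by decide +kernel) ?_
    refine jn 1187 (by decide +kernel) ?_
    refine jn 1194 (by decide +kernel) ?_
    refine jn 1202 (by decide +kernel) ?_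
    refine jn 1207 (by decide +kernel) ?_
    refine jn 1215 (by decide +kernel) ?_
    refine jn 1216 (by decide +kernel) ?_
    refine jn 1221 (by decide +kernel) ?_
    refine jn 1232 (by decide +kernel) ?_
    refine jn 1247 (by decide +kernel) ?_
    refine jn 1248 (by decide +kernel) ?_
    refine jn 1256 (by decide +kernel) ?_
    refine jn 1259 (by decide +kernel) ?_
    refine jn 1265 (by decide +kernel) ?_
    refine jn 1271 (by decide +kernel) ?_
    refine jn 1272 (by decide +kernel) ?_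
    refine jn 1281 (by decide +kernel) ?_
    refine jn 1291 (by decide +kernel) ?_
    refine jn 1296 (by decide +kernel) ?_
    refine jn 1312 (by decide +kernel) ?_
    refine jn 1317 (by decide +kernel) ?_
    refine jn 1320 (by decide +kernel) ?_
    refine jn 1330 (by decide +kernel) ?_
    refine jn 1345 (by decide +kernel) ?_
    refine jn 1352 (by decide +kernel) ?_
    refine jn 1355 (by decide +kernel) ?_
    refine jn 1362 (by decide +kernel) ?_
    refine jn 1441 (by decide +kernel) ?_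
    refine jn 1580 (by decide +kernel) ?_
    refine jn 1589 (by decide +kernel) ?_
    refine jn 1594 (by decide +kernel) ?_
    refine jn 1601 (by decide +kernel) ?_
    refine jn 1602 (by decide +kernel) ?_
    refine jn 1610 (by decide +kernel) ?_
    refine jn 1617 (by decide +kernel) ?_
    refine jn 1621 (by decide +kernel) ?_
    refine jn 1634 (by decide +kernel) ?_
    refine jn 1636 (by decide +kernel) ?_
    refine jn 1649 (by decide +kernel) ?_
    refine jn 1650 (by decide +kernel) ?_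
    refine jn 1655 (by decide +kernel) ?_
    refine jn 1666 (by decide +kernel) ?_
    refine jn 1676 (by decide +kernel) ?_
    refine jn 1681 (by decide +kernel) ?_
    refine jn 1685 (by decide +kernel) ?_
    refine jn 1687 (by decide +kernel) ?_
    refine jn 1700 (by decide +kernel) ?_
    refine jn 1706 (by decide +kernel) ?_
    refine jn 1716 (by decide +kernel) ?_
    refine jn 1722 (by decide +kernel) ?_
    refine jn 1729 (by decide +kernel) ?_
    refine jn 1732 (by decide +kernel) ?_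
    refine jn 1747 (by decide +kernel) ?_
    refine jn 1756 (by decide +kernel) ?_
    refine jn 1761 (by decide +kernel) ?_
    refine jn 1767 (by decide +kernel) ?_
    refine jn 1777 (by decide +kernel) ?_
    refine jn 1778 (by decide +kernel) ?_
    refine jn 1785 (by decide +kernel) ?_
    refine jn 1796 (by decide +kernel) ?_
    refine jn 1800 (by decide +kernel) ?_
    refine jn 1802 (by decide +kernel) ?_
    refine jn 1807 (by decide +kernel) ?_
    refine jn 1814 (by decide +kernel) ?_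
    refine jn 1815 (by decide +kernel) ?_
    refine jn 1822 (by decide +kernel) ?_
    refine jn 1830 (by decide +kernel) ?_
    refine jn 1833 (by decide +kernel) ?_
    refine jn 1842 (by decide +kernel) ?_
    refine jn 1847 (by decide +kernel) ?_
    refine jn 1848 (by decide +kernel) ?_
    refine jn 1855 (by decide +kernel) ?_
    refine jn 1862 (by decide +kernel) ?_
    refine jn 1863 (by decide +kernel) ?_
    refine jn 1868 (by decide +kernel) ?_
    refine jn 1873 (by decide +kernel) ?_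
    refine jn 1885 (by decide +kernel) ?_
    refine jn 1894 (by decide +kernel) ?_
    refine jn 1898 (by decide +kernel) ?_
    refine jn 1900 (by decide +kernel) ?_
    refine jn 1912 (by decide +kernel) ?_
    refine jn 1913 (by decide +kernel) ?_
    refine jn 1919 (by decide +kernel) ?_
    refine jn 1928 (by decide +kernel) ?_
    refine jn 1932 (by decide +kernel) ?_
    refine jn 1935 (by decide +kernel) ?_
    refine jn 1942 (by decide +kernel) ?_
    refine jn 1943 (by decide +kernel) ?_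
    refine jn 1950 (by decide +kernel) ?_
    refine jn 1964 (by decide +kernel) ?_
    refine jn 1969 (by decide +kernel) ?_
    refine jn 1974 (by decide +kernel) ?_
    refine jn 1980 (by decide +kernel) ?_
    refine jn 1985 (by decide +kernel) ?_
    refine jn 1990 (by decide +kernel) ?_
    refine jn 1991 (by decide +kernel) ?_
    refine jn 1998 (by decide +kernel) ?_
    refine jn 2008 (by decide +kernel) ?_
    refine jn 2022 (by decide +kernel) ?_
    refine jn 2049 (by decide +kernel) ?_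
    refine jn 2078 (by decide +kernel) ?_
    refine jn 2102 (by decide +kernel) ?_
    refine jn 2125 (by decide +kernel) ?_
    refine jn 2153 (by decide +kernel) ?_
    refine jn 2182 (by decide +kernel) ?_
    refine jn 2203 (by decide +kernel) ?_
    refine jn 2220 (by decide +kernel) ?_
    refine jn 2255 (by decide +kernel) ?_
    refine jn 2275 (by decide +kernel) ?_
    refine jn 2308 (by decide +kernel) ?_
    refine jn 2329 (by decide +kernel) ?_
    refine jn 2345 (by decide +kernel) ?_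
    refine jn 2369 (by decide +kernel) ?_
    refine jn 2391 (by decide +kernel) ?_
    refine jn 2406 (by decide +kernel) ?_
    refine jn 2407 (by decide +kernel) ?_
    refine jn 2426 (by decide +kernel) ?_
    refine jn 2446 (by decide +kernel) ?_
    refine jn 2463 (by decide +kernel) ?_
    refine jn 2488 (by decide +kernel) ?_
    refine jn 2502 (by decide +kernel) ?_
    refine jn 2503 (by decide +kernel) ?_
    refine jn 2527 (by decide +kernel) ?_
    refine jn 2553 (by decide +kernel) ?_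
    refine jn 2562 (by decide +kernel) ?_
    refine jn 2583 (by decide +kernel) ?_
    refine jn 2601 (by decide +kernel) ?_
    refine jn 2635 (by decide +kernel) ?_
    refine jn 2653 (by decide +kernel) ?_
    refine jn 2678 (by decide +kernel) ?_
    refine jn 2701 (by decide +kernel) ?_
    refine jn 2731 (by decide +kernel) ?_
    refine jn 2750 (by decide +kernel) ?_
    refine jn 2773 (by decide +kernel) ?_
    refine jn 2810 (by decide +kernel) ?_
    refine jn 2828 (by decide +kernel) ?_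
    refine jn 2860 (by decide +kernel) ?_
    refine jn 2890 (by decide +kernel) ?_
    refine jn 2915 (by decide +kernel) ?_
    refine jn 2950 (by decide +kernel) ?_
    refine jn 2976 (by decide +kernel) ?_
    refine jn 3005 (by decide +kernel) ?_
    refine jn 3035 (by decide +kernel) ?_
    refine jn 3051 (by decide +kernel) ?_
    refine jn 3068 (by decide +kernel) ?_
    refine jn 3081 (by decide +kernel) ?_
    refine jn 3093 (by decide +kernel) ?_
    refine jn 3107 (by decide +kernel) ?_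
    refine jn 3113 (by decide +kernel) ?_
    refine jn 3141 (by decide +kernel) ?_
    refine jn 3156 (by decide +kernel) ?_
    refine jn 3171 (by decide +kernel) ?_
    refine jn 3177 (by decide +kernel) ?_
    refine jn 3190 (by decide +kernel) ?_
    refine jn 3212 (by decide +kernel) ?_
    refine jn 3235 (by decide +kernel) ?_
    refine jn 3246 (by decide +kernel) ?_
    refine jn 3270 (by decide +kernel) ?_
    refine jn 3292 (by decide +kernel) ?_
    refine jn 3311 (by decide +kernel) ?_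
    refine jn 3323 (by decide +kernel) ?_
    refine jn 3347 (by decide +kernel) ?_
    refine jn 3372 (by decide +kernel) ?_
    refine jn 3387 (by decide +kernel) ?_
    refine jn 3406 (by decide +kernel) ?_
    refine jn 3427 (by decide +kernel) ?_
    refine jn 3435 (by decide +kernel) ?_
    refine jn 3452 (by decide +kernel) ?_
    refine jn 3599 (by decide +kernel) ?_
    refine jn 3635 (by decide +kernel) ?_
    refine jn 3679 (by decide +kernel) ?_
    refine jn 3715 (by decide +kernel) ?_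
    refine jn 3753 (by decide +kernel) ?_
    refine jn 3784 (by decide +kernel) ?_
    refine jn 3819 (by decide +kernel) ?_
    refine jn 3849 (by decide +kernel) ?_
    refine jn 3880 (by decide +kernel) ?_
    refine jn 3913 (by decide +kernel) ?_
    refine jn 3956 (by decide +kernel) ?_
    refine jn 3980 (by decide +kernel) ?_
    refine jn 4029 (by decide +kernel) ?_
    refine jn 4075 (by decide +kernel) ?_
    refine jn 4108 (by decide +kernel) ?_
    refine jn 4144 (by decide +kernel) ?_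
    refine jn 4190 (by decide +kernel) ?_
    refine jn 4340 (by decide +kernel) ?_
    refine jn 4375 (by decide +kernel) ?_
    refine jn 4396 (by decide +kernel) ?_
    refine jn 4408 (by decide +kernel) ?_
    refine jn 4450 (by decide +kernel) ?_
    refine jn 4477 (by decide +kernel) ?_
    refine jn 4527 (by decide +kernel) ?_
    refine jn 4560 (by decide +kernel) ?_
    refine jn 4605 (by decide +kernel) ?_
    refine jn 4642 (by decide +kernel) ?_
    refine jn 4690 (by decide +kernel) ?_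
    refine jn 4725 (by decide +kernel) ?_
    refine jn 4765 (by decide +kernel) ?_
    refine jn 4802 (by decide +kernel) ?_
    refine jn 4855 (by decide +kernel) ?_
    refine jn 4887 (by decide +kernel) ?_
    refine jn 4926 (by decide +kernel) ?_
    refine jn 4978 (by decide +kernel) ?_
    refine jn 5020 (by decide +kernel) ?_
    refine jn 5048 (by decide +kernel) ?_
    refine jn 5101 (by decide +kernel) ?_
    refine jn 5132 (by decide +kernel) ?_
    refine jn 5182 (by decide +kernel) ?_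
    refine jn 5350 (by decide +kernel) ?_
    refine jn 5404 (by decide +kernel) ?_
    refine jn 5448 (by decide +kernel) ?_
    refine jn 5504 (by decide +kernel) ?_
    refine jn 5555 (by decide +kernel) ?_
    refine jn 5610 (by decide +kernel) ?_
    refine jn 5665 (by decide +kernel) ?_
    refine jn 5698 (by decide +kernel) ?_
    refine jn 5760 (by decide +kernel) ?_
    refine jn 5798 (by decide +kernel) ?_
    refine jn 5859 (by decide +kernel) ?_
    refine jn 5908 (by decide +kernel) ?_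
    refine jn 5963 (by decide +kernel) ?_
    refine jn 6024 (by decide +kernel) ?_
    refine jn 6064 (by decide +kernel) ?_
    refine jn 6100 (by decide +kernel) ?_
    refine jn 6159 (by decide +kernel) ?_
    refine jn 6209 (by decide +kernel) ?_
    refine jn 6275 (by decide +kernel) ?_
    refine jn 6323 (by decide +kernel) ?_
    refine jn 6377 (by decide +kernel) ?_
    refine jn 6432 (by decide +kernel) ?_
    refine jn 6499 (by decide +kernel) ?_
    refine jn 6840 (by decide +kernel) ?_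
    refine jn 6986 (by decide +kernel) ?_
    refine jn 7098 (by decide +kernel) ?_
    refine jn 7177 (by decide +kernel) ?_
    refine jn 7247 (by decide +kernel) ?_
    refine jn 7304 (by decide +kernel) ?_
    refine jn 7362 (by decide +kernel) ?_
    refine jn 7449 (by decide +kernel) ?_
    refine jn 7522 (by decide +kernel) ?_
    refine jn 7586 (by decide +kernel) ?_
    refine jn 7666 (by decide +kernel) ?_
    refine jn 7724 (by decide +kernel) ?_
    refine jn 7799 (by decide +kernel) ?_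
    refine jn 7882 (by decide +kernel) ?_
    refine jn 7961 (by decide +kernel) ?_
    refine jn 8028 (by decide +kernel) ?_
    refine jn 8103 (by decide +kernel) ?_
    refine jn 8193 (by decide +kernel) ?_
    refine jn 8253 (by decide +kernel) ?_
    refine jn 8324 (by decide +kernel) ?_
    refine jn 8394 (by decide +kernel) ?_
    refine jn 8477 (by decide +kernel) ?_
    refine jn 8543 (by decide +kernel) ?_
    refine jn 8616 (by decide +kernel) ?_
    refine jn 8704 (by decide +kernel) ?_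
    refine jn 8768 (by decide +kernel) ?_
    refine jn 8852 (by decide +kernel) ?_
    refine jn 9176 (by decide +kernel) ?_
    refine jn 9361 (by decide +kernel) ?_
    refine jn 9481 (by decide +kernel) ?_
    refine jn 9563 (by decide +kernel) ?_
    refine jn 9663 (by decide +kernel) ?_
    refine jn 9755 (by decide +kernel) ?_
    refine jn 9831 (by decide +kernel) ?_
    refine jn 9899 (by decide +kernel) ?_
    refine jn 9957 (by decide +kernel) ?_
    refine jn 10007 (by decide +kernel) ?_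
    refine jn 10063 (by decide +kernel) ?_
    refine jn 10113 (by decide +kernel) ?_
    refine jn 10156 (by decide +kernel) ?_
    refine jn 10415 (by decide +kernel) ?_
    refine jn 10530 (by decide +kernel) ?_
    refine jn 10639 (by decide +kernel) ?_
    refine jn 10715 (by decide +kernel) ?_
    refine jn 10811 (by decide +kernel) ?_
    refine jn 10867 (by decide +kernel) ?_
    refine jn 10932 (by decide +kernel) ?_
    refine jn 10999 (by decide +kernel) ?_
    refine jn 11059 (by decide +kernel) ?_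
    refine jn 11119 (by decide +kernel) ?_
    refine jn 11170 (by decide +kernel) ?_
    refine jn 11214 (by decide +kernel) ?_
    refine jn 11252 (by decide +kernel) ?_
    refine jn 11295 (by decide +kernel) ?_
    refine jn 11336 (by decide +kernel) ?_
    refine jn 11360 (by decide +kernel) ?_
    refine jn 11395 (by decide +kernel) ?_
    refine jn 11431 (by decide +kernel) ?_
    refine jn 11654 (by decide +kernel) ?_
    refine jn 11804 (by decide +kernel) ?_
    refine jn 11955 (by decide +kernel) ?_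
    refine jn 12061 (by decide +kernel) ?_
    refine jn 12172 (by decide +kernel) ?_
    refine jn 12243 (by decide +kernel) ?_
    refine jn 12357 (by decide +kernel) ?_
    refine jn 12452 (by decide +kernel) ?_
    refine jn 12502 (by decide +kernel) ?_
    refine jn 12550 (by decide +kernel) ?_
    refine jn 12606 (by decide +kernel) ?_
    refine jn 12666 (by decide +kernel) ?_
    refine jn 12723 (by decide +kernel) ?_
    refine jn 13009 (by decide +kernel) ?_
    refine jn 13179 (by decide +kernel) ?_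
    refine jn 13325 (by decide +kernel) ?_
    refine jn 13420 (by decide +kernel) ?_
    refine jn 13530 (by decide +kernel) ?_
    refine jn 13645 (by decide +kernel) ?_
    refine jn 13751 (by decide +kernel) ?_
    refine jn 14134 (by decide +kernel) ?_
    refine jn 14319 (by decide +kernel) ?_
    refine jn 14410 (by decide +kernel) ?_
    refine jn 14549 (by decide +kernel) ?_
    refine jn 14704 (by decide +kernel) ?_
    exact je (by decide +kernel)
  · refine fin 48 3444 T36_1 ?_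
    refine jn 4 (by decide +kernel) ?_
    refine jn 5 (by decide +kernel) ?_
    refine jn 7 (by decide +kernel) ?_
    refine jn 8 (by decide +kernel) ?_
    refine jn 9 (by decide +kernel) ?_
    refine jn 11 (by decide +kernel) ?_
    refine jn 12 (by decide +kernel) ?_
    refine jn 14 (by decide +kernel) ?_
    refine jn 16 (by decide +kernel) ?_
    refine jn 17 (by decide +kernel) ?_
    refine jn 19 (by decide +kernel) ?_
    refine jn 20 (by decide +kernel) ?_
    refine jn 22 (by decide +kernel) ?_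
    refine jn 23 (by decide +kernel) ?_
    refine jn 24 (by decide +kernel) ?_
    refine jn 26 (by decide +kernel) ?_
    refine jn 29 (by decide +kernel) ?_
    refine jn 31 (by decide +kernel) ?_
    refine jn 33 (by decide +kernel) ?_
    refine jn 36 (by decide +kernel) ?_
    refine jn 39 (by decide +kernel) ?_
    refine jn 42 (by decide +kernel) ?_
    refine jn 45 (by decide +kernel) ?_
    refine jn 58 (by decide +kernel) ?_
    refine jn 65 (by decide +kernel) ?_
    refine jn 72 (by decide +kernel) ?_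
    refine jn 79 (by decide +kernel) ?_
    refine jn 121 (by decide +kernel) ?_
    refine jn 129 (by decide +kernel) ?_
    refine jn 131 (by decide +kernel) ?_
    refine jn 133 (by decide +kernel) ?_
    refine jn 134 (by decide +kernel) ?_
    refine jn 135 (by decide +kernel) ?_
    refine jn 137 (by decide +kernel) ?_
    refine jn 139 (by decide +kernel) ?_
    refine jn 144 (by decide +kernel) ?_
    refine jn 149 (by decide +kernel) ?_
    refine jn 155 (by decide +kernel) ?_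
    refine jn 160 (by decide +kernel) ?_
    refine jn 174 (by decide +kernel) ?_
    refine jn 203 (by decide +kernel) ?_
    refine jn 211 (by decide +kernel) ?_
    refine jn 212 (by decide +kernel) ?_
    refine jn 213 (by decide +kernel) ?_
    refine jn 214 (by decide +kernel) ?_
    refine jn 215 (by decide +kernel) ?_
    refine jn 216 (by decide +kernel) ?_
    refine jn 217 (by decide +kernel) ?_
    refine jn 218 (by decide +kernel) ?_
    refine jn 219 (by decide +kernel) ?_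
    refine jn 220 (by decide +kernel) ?_
    refine jn 221 (by decide +kernel) ?_
    refine jn 222 (by decide +kernel) ?_
    refine jn 233 (by decide +kernel) ?_
    refine jn 245 (by decide +kernel) ?_
    refine jn 247 (by decide +kernel) ?_
    refine jn 248 (by decide +kernel) ?_
    refine jn 249 (by decide +kernel) ?_
    refine jn 250 (by decide +kernel) ?_
    refine jn 251 (by decide +kernel) ?_
    refine jn 252 (by decide +kernel) ?_
    refine jn 253 (by decide +kernel) ?_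
    refine jn 254 (by decide +kernel) ?_
    refine jn 255 (by decide +kernel) ?_
    refine jn 256 (by decide +kernel) ?_
    refine jn 257 (by decide +kernel) ?_
    refine jn 259 (by decide +kernel) ?_
    refine jn 264 (by decide +kernel) ?_
    refine jn 269 (by decide +kernel) ?_
    refine jn 278 (by decide +kernel) ?_
    refine jn 279 (by decide +kernel) ?_
    refine jn 280 (by decide +kernel) ?_
    refine jn 281 (by decide +kernel) ?_
    refine jn 282 (by decide +kernel) ?_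
    refine jn 283 (by decide +kernel) ?_
    refine jn 284 (by decide +kernel) ?_
    refine jn 285 (by decide +kernel) ?_
    refine jn 293 (by decide +kernel) ?_
    refine jn 294 (by decide +kernel) ?_
    refine jn 295 (by decide +kernel) ?_
    refine jn 296 (by decide +kernel) ?_
    refine jn 297 (by decide +kernel) ?_
    refine jn 298 (by decide +kernel) ?_
    refine jn 299 (by decide +kernel) ?_
    refine jn 300 (by decide +kernel) ?_
    refine jn 302 (by decide +kernel) ?_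
    refine jn 309 (by decide +kernel) ?_
    refine jn 323 (by decide +kernel) ?_
    refine jn 331 (by decide +kernel) ?_
    refine jn 340 (by decide +kernel) ?_
    refine jn 341 (by decide +kernel) ?_
    refine jn 342 (by decide +kernel) ?_
    refine jn 343 (by decide +kernel) ?_
    refine jn 345 (by decide +kernel) ?_
    refine jn 346 (by decide +kernel) ?_
    refine jn 347 (by decide +kernel) ?_
    refine jn 349 (by decide +kernel) ?_
    refine jn 351 (by decide +kernel) ?_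
    refine jn 353 (by decide +kernel) ?_
    refine jn 355 (by decide +kernel) ?_
    refine jn 357 (by decide +kernel) ?_
    refine jn 358 (by decide +kernel) ?_
    refine jn 359 (by decide +kernel) ?_
    refine jn 360 (by decide +kernel) ?_
    refine jn 361 (by decide +kernel) ?_
    refine jn 362 (by decide +kernel) ?_
    refine jn 363 (by decide +kernel) ?_
    refine jn 364 (by decide +kernel) ?_
    refine jn 365 (by decide +kernel) ?_
    refine jn 366 (by decide +kernel) ?_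
    refine jn 367 (by decide +kernel) ?_
    refine jn 368 (by decide +kernel) ?_
    refine jn 369 (by decide +kernel) ?_
    refine jn 384 (by decide +kernel) ?_
    refine jn 388 (by decide +kernel) ?_
    refine jn 389 (by decide +kernel) ?_
    refine jn 390 (by decide +kernel) ?_
    refine jn 391 (by decide +kernel) ?_
    refine jn 394 (by decide +kernel) ?_
    refine jn 396 (by decide +kernel) ?_
    refine jn 398 (by decide +kernel) ?_
    refine jn 399 (by decide +kernel) ?_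
    refine jn 400 (by decide +kernel) ?_
    refine jn 401 (by decide +kernel) ?_
    refine jn 402 (by decide +kernel) ?_
    refine jn 403 (by decide +kernel) ?_
    refine jn 404 (by decide +kernel) ?_
    refine jn 405 (by decide +kernel) ?_
    refine jn 406 (by decide +kernel) ?_
    refine jn 407 (by decide +kernel) ?_
    refine jn 408 (by decide +kernel) ?_
    refine jn 421 (by decide +kernel) ?_
    refine jn 424 (by decide +kernel) ?_
    refine jn 427 (by decide +kernel) ?_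
    refine jn 428 (by decide +kernel) ?_
    refine jn 431 (by decide +kernel) ?_
    refine jn 435 (by decide +kernel) ?_
    refine jn 447 (by decide +kernel) ?_
    refine jn 448 (by decide +kernel) ?_
    refine jn 449 (by decide +kernel) ?_
    refine jn 450 (by decide +kernel) ?_
    refine jn 451 (by decide +kernel) ?_
    refine jn 452 (by decide +kernel) ?_
    refine jn 453 (by decide +kernel) ?_
    refine jn 454 (by decide +kernel) ?_
    refine jn 455 (by decide +kernel) ?_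
    refine jn 456 (by decide +kernel) ?_
    refine jn 457 (by decide +kernel) ?_
    refine jn 464 (by decide +kernel) ?_
    refine jn 465 (by decide +kernel) ?_
    refine jn 466 (by decide +kernel) ?_
    refine jn 467 (by decide +kernel) ?_
    refine jn 468 (by decide +kernel) ?_
    refine jn 469 (by decide +kernel) ?_
    refine jn 470 (by decide +kernel) ?_
    refine jn 471 (by decide +kernel) ?_
    refine jn 472 (by decide +kernel) ?_
    refine jn 477 (by decide +kernel) ?_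
    refine jn 489 (by decide +kernel) ?_
    refine jn 490 (by decide +kernel) ?_
    refine jn 491 (by decide +kernel) ?_
    refine jn 492 (by decide +kernel) ?_
    refine jn 493 (by decide +kernel) ?_
    refine jn 494 (by decide +kernel) ?_
    refine jn 495 (by decide +kernel) ?_
    refine jn 496 (by decide +kernel) ?_
    refine jn 498 (by decide +kernel) ?_
    refine jn 511 (by decide +kernel) ?_
    refine jn 514 (by decide +kernel) ?_
    refine jn 524 (by decide +kernel) ?_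
    refine jn 527 (by decide +kernel) ?_
    refine jn 530 (by decide +kernel) ?_
    refine jn 540 (by decide +kernel) ?_
    refine jn 543 (by decide +kernel) ?_
    refine jn 547 (by decide +kernel) ?_
    refine jn 555 (by decide +kernel) ?_
    refine jn 556 (by decide +kernel) ?_
    refine jn 557 (by decide +kernel) ?_
    refine jn 558 (by decide +kernel) ?_
    refine jn 559 (by decide +kernel) ?_
    refine jn 560 (by decide +kernel) ?_
    refine jn 561 (by decide +kernel) ?_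
    refine jn 571 (by decide +kernel) ?_
    refine jn 574 (by decide +kernel) ?_
    refine jn 584 (by decide +kernel) ?_
    refine jn 587 (by decide +kernel) ?_
    refine jn 597 (by decide +kernel) ?_
    refine jn 598 (by decide +kernel) ?_
    refine jn 599 (by decide +kernel) ?_
    refine jn 609 (by decide +kernel) ?_
    refine jn 613 (by decide +kernel) ?_
    refine jn 624 (by decide +kernel) ?_
    refine jn 631 (by decide +kernel) ?_
    refine jn 632 (by decide +kernel) ?_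
    refine jn 642 (by decide +kernel) ?_
    refine jn 646 (by decide +kernel) ?_
    refine jn 656 (by decide +kernel) ?_
    refine jn 666 (by decide +kernel) ?_
    refine jn 670 (by decide +kernel) ?_
    refine jn 671 (by decide +kernel) ?_
    refine jn 672 (by decide +kernel) ?_
    refine jn 673 (by decide +kernel) ?_
    refine jn 680 (by decide +kernel) ?_
    refine jn 682 (by decide +kernel) ?_
    refine jn 685 (by decide +kernel) ?_
    refine jn 692 (by decide +kernel) ?_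
    refine jn 696 (by decide +kernel) ?_
    refine jn 705 (by decide +kernel) ?_
    refine jn 715 (by decide +kernel) ?_
    refine jn 720 (by decide +kernel) ?_
    refine jn 721 (by decide +kernel) ?_
    refine jn 722 (by decide +kernel) ?_
    refine jn 723 (by decide +kernel) ?_
    refine jn 734 (by decide +kernel) ?_
    refine jn 742 (by decide +kernel) ?_
    refine jn 750 (by decide +kernel) ?_
    refine jn 760 (by decide +kernel) ?_
    refine jn 770 (by decide +kernel) ?_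
    refine jn 773 (by decide +kernel) ?_
    refine jn 782 (by decide +kernel) ?_
    refine jn 790 (by decide +kernel) ?_
    refine jn 800 (by decide +kernel) ?_
    refine jn 816 (by decide +kernel) ?_
    refine jn 826 (by decide +kernel) ?_
    refine jn 830 (by decide +kernel) ?_
    refine jn 847 (by decide +kernel) ?_
    refine jn 852 (by decide +kernel) ?_
    refine jn 853 (by decide +kernel) ?_
    refine jn 855 (by decide +kernel) ?_
    refine jn 867 (by decide +kernel) ?_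
    refine jn 875 (by decide +kernel) ?_
    refine jn 888 (by decide +kernel) ?_
    refine jn 900 (by decide +kernel) ?_
    refine jn 911 (by decide +kernel) ?_
    refine jn 912 (by decide +kernel) ?_
    refine jn 913 (by decide +kernel) ?_
    refine jn 927 (by decide +kernel) ?_
    refine jn 939 (by decide +kernel) ?_
    refine jn 956 (by decide +kernel) ?_
    refine jn 965 (by decide +kernel) ?_
    refine jn 982 (by decide +kernel) ?_
    refine jn 990 (by decide +kernel) ?_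
    refine jn 1000 (by decide +kernel) ?_
    refine jn 1002 (by decide +kernel) ?_
    refine jn 1015 (by decide +kernel) ?_
    refine jn 1028 (by decide +kernel) ?_
    refine jn 1041 (by decide +kernel) ?_
    refine jn 1060 (by decide +kernel) ?_
    refine jn 1137 (by decide +kernel) ?_
    refine jn 1140 (by decide +kernel) ?_
    refine jn 1141 (by decide +kernel) ?_
    refine jn 1152 (by decide +kernel) ?_
    refine jn 1153 (by decide +kernel) ?_
    refine jn 1169 (by decide +kernel) ?_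
    refine jn 1172 (by decide +kernel) ?_
    refine jn 1176 (by decide +kernel) ?_
    refine jn 1185 (by decide +kernel) ?_
    refine jn 1194 (by decide +kernel) ?_
    refine jn 1200 (by decide +kernel) ?_
    refine jn 1201 (by decide +kernel) ?_
    refine jn 1217 (by decide +kernel) ?_
    refine jn 1220 (by decide +kernel) ?_
    refine jn 1221 (by decide +kernel) ?_
    refine jn 1236 (by decide +kernel) ?_
    refine jn 1245 (by decide +kernel) ?_
    refine jn 1253 (by decide +kernel) ?_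
    refine jn 1268 (by decide +kernel) ?_
    refine jn 1277 (by decide +kernel) ?_
    refine jn 1280 (by decide +kernel) ?_
    refine jn 1281 (by decide +kernel) ?_
    refine jn 1290 (by decide +kernel) ?_
    refine jn 1296 (by decide +kernel) ?_
    refine jn 1301 (by decide +kernel) ?_
    refine jn 1305 (by decide +kernel) ?_
    refine jn 1322 (by decide +kernel) ?_
    refine jn 1329 (by decide +kernel) ?_
    refine jn 1338 (by decide +kernel) ?_
    refine jn 1344 (by decide +kernel) ?_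
    refine jn 1358 (by decide +kernel) ?_
    refine jn 1368 (by decide +kernel) ?_
    refine jn 1380 (by decide +kernel) ?_
    refine jn 1395 (by decide +kernel) ?_
    refine jn 1468 (by decide +kernel) ?_
    refine jn 1469 (by decide +kernel) ?_
    refine jn 1486 (by decide +kernel) ?_
    refine jn 1492 (by decide +kernel) ?_
    refine jn 1493 (by decide +kernel) ?_
    refine jn 1505 (by decide +kernel) ?_
    refine jn 1517 (by decide +kernel) ?_
    refine jn 1528 (by decide +kernel) ?_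
    refine jn 1532 (by decide +kernel) ?_
    refine jn 1540 (by decide +kernel) ?_
    refine jn 1544 (by decide +kernel) ?_
    refine jn 1561 (by decide +kernel) ?_
    refine jn 1576 (by decide +kernel) ?_
    refine jn 1588 (by decide +kernel) ?_
    refine jn 1589 (by decide +kernel) ?_
    refine jn 1604 (by decide +kernel) ?_
    refine jn 1621 (by decide +kernel) ?_
    refine jn 1628 (by decide +kernel) ?_
    refine jn 1637 (by decide +kernel) ?_
    refine jn 1646 (by decide +kernel) ?_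
    refine jn 1660 (by decide +kernel) ?_
    refine jn 1804 (by decide +kernel) ?_
    refine jn 1936 (by decide +kernel) ?_
    refine jn 2149 (by decide +kernel) ?_
    refine jn 2452 (by decide +kernel) ?_
    refine jn 2714 (by decide +kernel) ?_
    refine jn 3210 (by decide +kernel) ?_
    exact je (by decide +kernel)
  · refine fin 72 1906 T36_2 ?_
    refine jn 4 (by decide +kernel) ?_
    refine jn 5 (by decide +kernel) ?_
    refine jn 6 (by decide +kernel) ?_
    refine jn 7 (by decide +kernel) ?_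
    refine jn 8 (by decide +kernel) ?_
    refine jn 9 (by decide +kernel) ?_
    refine jn 10 (by decide +kernel) ?_
    refine jn 11 (by decide +kernel) ?_
    refine jn 15 (by decide +kernel) ?_
    refine jn 18 (by decide +kernel) ?_
    refine jn 21 (by decide +kernel) ?_
    refine jn 25 (by decide +kernel) ?_
    refine jn 29 (by decide +kernel) ?_
    refine jn 31 (by decide +kernel) ?_
    refine jn 42 (by decide +kernel) ?_
    refine jn 66 (by decide +kernel) ?_
    refine jn 67 (by decide +kernel) ?_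
    refine jn 69 (by decide +kernel) ?_
    refine jn 70 (by decide +kernel) ?_
    refine jn 71 (by decide +kernel) ?_
    refine jn 79 (by decide +kernel) ?_
    refine jn 87 (by decide +kernel) ?_
    refine jn 88 (by decide +kernel) ?_
    refine jn 89 (by decide +kernel) ?_
    refine jn 90 (by decide +kernel) ?_
    refine jn 92 (by decide +kernel) ?_
    refine jn 93 (by decide +kernel) ?_
    refine jn 94 (by decide +kernel) ?_
    refine jn 95 (by decide +kernel) ?_
    refine jn 96 (by decide +kernel) ?_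
    refine jn 97 (by decide +kernel) ?_
    refine jn 98 (by decide +kernel) ?_
    refine jn 107 (by decide +kernel) ?_
    refine jn 108 (by decide +kernel) ?_
    refine jn 109 (by decide +kernel) ?_
    refine jn 110 (by decide +kernel) ?_
    refine jn 111 (by decide +kernel) ?_
    refine jn 112 (by decide +kernel) ?_
    refine jn 113 (by decide +kernel) ?_
    refine jn 114 (by decide +kernel) ?_
    refine jn 115 (by decide +kernel) ?_
    refine jn 122 (by decide +kernel) ?_
    refine jn 124 (by decide +kernel) ?_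
    refine jn 131 (by decide +kernel) ?_
    refine jn 133 (by decide +kernel) ?_
    refine jn 139 (by decide +kernel) ?_
    refine jn 144 (by decide +kernel) ?_
    refine jn 149 (by decide +kernel) ?_
    refine jn 158 (by decide +kernel) ?_
    refine jn 170 (by decide +kernel) ?_
    refine jn 182 (by decide +kernel) ?_
    refine jn 193 (by decide +kernel) ?_
    refine jn 201 (by decide +kernel) ?_
    refine jn 225 (by decide +kernel) ?_
    refine jn 254 (by decide +kernel) ?_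
    refine jn 304 (by decide +kernel) ?_
    refine jn 352 (by decide +kernel) ?_
    refine jn 400 (by decide +kernel) ?_
    refine jn 440 (by decide +kernel) ?_
    refine jn 512 (by decide +kernel) ?_
    refine jn 651 (by decide +kernel) ?_
    refine jn 866 (by decide +kernel) ?_
    refine jn 1070 (by decide +kernel) ?_
    refine jn 1207 (by decide +kernel) ?_
    refine jn 1339 (by decide +kernel) ?_
    refine jn 1483 (by decide +kernel) ?_
    refine jn 1630 (by decide +kernel) ?_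
    exact je (by decide +kernel)

end Pool.Agent.MP_2339ce_nt.NR
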