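import Pool.Agent.MP_2339ce_nt.Q2.NC.L3
import Pool.Agent.MP_2339ce_nt.Q2.NC.L8
import Pool.Agent.MP_2339ce_nt.Q2.CkI

/-! Block NR: runs. -/

set_option autoImplicit false
set_option maxRecDepth 100000

noncomputable section

namespace Pool.Agent.MP_2339ce_nt.NR

open Q2.Top

def T70_0 : Ph :=
  (.na 809 83 (.na 525 45 (.na 322 26 (.na 187 18 (.na 89 15 (.na 48 13 (.nx 47 1664512 (.nr 46
  623489 (.nx 3 157 (.nx 2 156 (.nr 1 115 (.lg 0 true 1 31 31 13 0 9360) (.l1 .sk)) (.l1 .sk)) (.nr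
  40 155873 (.nx 14 29192 (.lg 0 false 11 97 103 23 0 720720) (.nr 39 110219 (.nx 33 524289 (.nr 21
  829 (.lg 0 true 7 83 83 19 0 13104) (.nx 32 416129 (.lg 2 false 11 97 103 23 46009 720720) .out))
  (.nr 38 65 (.lg 0 true 5 71 71 17 0 9360) .out)) .out)) (.nx 45 1292 (.lg 0 false 5 83 83 17 0
  9360) .out))) .out) .out) (.nx 88 1664512 (.nr 87 623489 (.nr 49 4 .s1 (.nx 52 157 (.nx 51 156
  (.nr 50 133 (.lg 0 true 1 23 23 9 0 312) (.l1 .sk)) (.l1 .sk)) (.nr 79 155873 (.nx 59 29192 (.lg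
  0 false 7 89 89 16 0 32760) (.nr 78 110219 (.nr 70 829 (.lg 0 true 11 73 73 16 0 3432) (.nx 77
  416129 (.lg 2 false 7 97 97 16 46009 32760) .out)) .out)) (.nx 86 1292 (.lg 0 false 7 73 73 16 0
  2184) .out)))) .out) .out)) (.na 132 16 (.nx 131 1664512 (.nr 130 623489 (.nr 90 9 .s1 (.nx 92
  156 (.nr 91 141 (.lg 0 false 1 29 29 16 0 51480) (.l1 .sk)) (.nx 93 157 (.l1 .sk) (.nr 122 155873
  (.nx 100 29192 (.lg 0 false 7 97 101 17 0 360360) (.nr 121 110219 (.nx 115 524289 (.nr 107 829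
  (.lg 0 true 7 79 79 17 0 32760) (.nx 114 416129 (.lg 2 false 7 101 103 17 46009 720720) .out))
  (.nr 120 65 (.lg 0 true 5 67 67 16 0 4680) .out)) .out)) (.nx 129 1292 (.lg 0 false 7 79 83 17 0
  32760) .out))))) .out) .out) (.na 186 17 (.nx 185 1664512 (.nr 184 1048577 (.nr 133 11 .s1 (.nx
  136 157 (.nx 135 156 (.nr 134 150 (.lg 0 true 1 37 37 11 0 9360) (.l1 .sk)) (.l1 .sk)) (.nx 179
  524289 (.nx 137 257 (.l1 (.ls 89 41 2590)) (.nr 178 623489 (.nr 175 370729 (.nr 172 220437 (.nx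
  144 13005 (.lg 0 false 7 97 101 19 0 720720) (.nr 171 110219 (.nr 168 92683 (.nr 157 46342 (.nr
  149 829 (.lg 0 true 5 79 83 17 0 3120) (.nx 156 416129 (.lg 2 true 7 83 83 19 43508 4368) .out))
  (.nx 167 208065 (.nx 164 131073 (.lg 0 true 7 101 107 19 0 720720) (.nr 166 55110 (.lg 0 true 2
  101 103 13 0 720720) .out)) .out)) (.nx 170 65537 (.lg 0 true 2 101 103 13 0 720720) .out))
  .out)) (.nx 174 1627 (.lg 0 false 2 89 89 13 0 9360) .out)) (.nx 177 647 (.lg 0 false 2 79 79 13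
  0 624) .out)) .out)) (.nr 183 129 (.lg 0 true 4 73 73 13 0 624) .out)))) .out) .out) .ne))) (.na
  259 23 (.na 188 20 (.lg 0 false 1 0 0 7 0 24) (.na 222 22 (.nx 221 1664512 (.nr 220 1048577 (.nr
  189 16 .s1 (.nx 193 257 (.nx 191 156 (.nr 190 195 (.lg 0 false 1 31 31 13 0 9360) (.l1 .sk)) (.nx
  192 157 (.l1 .sk) (.l1 (.ls 89 41 2073)))) (.nr 219 623489 (.nr 216 220437 (.nx 211 262145 (.nx
  200 23171 (.lg 0 false 7 97 101 23 0 65520) (.nr 210 92683 (.nr 202 1854 (.lg 0 true 2 83 83 17 0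
  3120) (.nx 204 41287 (.lg 1 false 2 89 97 17 48755 9360) (.nr 209 77937 (.nr 206 46342 (.lg 2
  false 2 89 97 17 13704 9360) (.nx 208 165142 (.lg 2 false 2 89 97 17 23016 9360) .out)) .out)))
  .out)) (.nr 215 217 (.lg 0 true 4 73 73 19 0 3120) .out)) (.nx 218 1627 (.lg 0 false 2 89 89 17 0
  3120) .out)) .out))) .out) .out) (.nx 258 1664512 (.nr 257 1048577 (.nr 223 19 .s1 (.nx 225 156
  (.nr 224 204 (.lg 0 false 1 29 29 9 0 102960) (.l1 .sk)) (.nx 226 157 (.l1 .sk) (.nx 227 257 (.l1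
  (.ls 83 41 1884)) (.nr 256 623489 (.nx 240 23171 (.nr 234 220437 (.lg 0 false 7 97 101 19 0
  720720) (.nx 239 1627 (.lg 0 false 5 79 79 19 0 34320) .out)) (.nr 255 92683 (.nr 247 634 (.lg 0
  true 7 79 79 19 0 48048) (.nx 254 262145 (.lg 2 false 7 97 101 19 48755 720720) .out)) .out))
  .out))))) .out) .out))) (.na 260 24 .ne (.na 291 25 (.nx 290 1664512 (.nr 289 1048577 (.nr 261 21
  .s1 (.nx 264 157 (.nx 263 156 (.nr 262 221 (.lg 0 false 1 23 23 13 0 9360) (.l1 .sk)) (.l1 .sk))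
  (.nx 273 20644 (.nx 265 257 (.l1 (.ls 83 41 1728)) (.nr 272 311745 (.lg 0 false 7 89 97 23 0
  65520) .out)) (.nr 288 77937 (.nr 280 513 (.lg 0 true 7 73 73 23 0 13104) (.nx 287 165142 (.lg 2
  false 7 89 97 23 46031 65520) .out)) .out)))) .out) .out) (.nx 321 1664512 (.nr 320 1048577 (.nr
  292 22 .s1 (.nx 296 257 (.nx 294 156 (.nr 293 230 (.lg 0 false 1 23 23 16 0 4680) (.l1 .sk)) (.nx
  295 157 (.l1 .sk) (.l1 (.ls 79 31 1659)))) (.nr 319 311745 (.nx 303 20644 (.lg 0 false 7 89 89 16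
  0 32760) (.nr 318 77937 (.nr 310 513 (.lg 0 true 7 73 73 16 0 10920) (.nx 317 165142 (.lg 2 false
  7 83 89 16 46031 32760) .out)) .out)) .out))) .out) .out))))) (.na 425 36 (.na 349 30 (.na 348 27
  (.nx 347 1664512 (.nr 346 1048577 (.nr 323 23 .s1 (.nx 332 20644 (.nx 324 257 (.l1 (.ls 79 43
  2543)) (.nr 331 311745 (.lg 0 false 7 89 89 11 0 4368) .out)) (.nr 345 77937 (.nr 339 513 (.lg 0
  true 7 71 71 11 0 4368) (.nx 344 165142 (.lg 2 false 5 83 83 11 46031 3120) .out)) .out))) .out)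
  .out) (.lg 0 false 1 0 0 7 0 24)) (.na 376 32 (.nx 375 1664512 (.nr 374 1048577 (.nr 350 28 .s1
  (.nx 353 157 (.nx 352 156 (.nr 351 283 (.l1 (.ls 29 41 814)) (.l1 .sk)) (.l1 .sk)) (.nx 362 20644
  (.nx 354 257 (.l1 (.ls 83 43 1383)) (.nr 361 311745 (.lg 0 false 7 89 97 29 0 65520) .out)) (.nr
  373 77937 (.nr 369 513 (.lg 0 true 7 73 73 29 0 65520) (.nx 372 165142 (.lg 2 false 3 97 97 23
  46031 9360) .out)) .out)))) .out) .out) (.na 403 33 (.nx 402 1664512 (.nr 401 1048577 (.nr 377 30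
  .s1 (.nx 398 208065 (.nx 379 156 (.nr 378 292 (.l1 (.ls 37 31 763)) (.l1 .sk)) (.nx 380 157 (.l1
  .sk) (.nx 381 257 (.l1 (.ls 89 37 1296)) (.nr 397 440873 (.nx 389 20644 (.nx 386 10323 (.lg 0
  false 5 83 97 19 0 9360) (.nr 388 110219 (.lg 0 false 2 89 97 13 0 9360) .out)) (.nr 396 77937
  (.nr 390 1307 (.lg 0 false 1 83 83 13 0 9360) (.nx 395 165142 (.nx 392 65537 (.lg 1 false 2 89 97
  13 46031 9360) (.nr 394 55110 (.lg 1 true 2 89 89 13 10262 9360) .out)) .out)) .out)) .out))))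
  (.nr 400 217 (.lg 0 true 2 73 73 19 0 624) .out))) .out) .out) (.nx 424 1664512 (.nr 423 881745
  (.nr 404 31 .s1 (.nx 407 157 (.nx 406 156 (.nr 405 319 (.l1 (.ls 29 31 740)) (.l1 .sk)) (.l1
  .sk)) (.nx 408 257 (.l1 (.ls 79 37 1257)) (.nr 422 440873 (.nx 413 20644 (.lg 0 false 5 89 97 19
  0 51480) (.nr 421 46342 (.nr 418 319 (.lg 0 true 5 71 71 19 0 51480) (.nx 420 104033 (.lg 2 true
  2 89 89 16 27408 20592) .out)) .out)) .out)))) .out) .out)))) (.na 468 41 (.na 426 39 (.lg 0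
  false 1 0 0 7 0 24) (.na 448 40 (.nx 447 1664512 (.nr 446 881745 (.nr 427 37 .s1 (.nx 428 257
  (.l1 (.ls 71 37 1696)) (.nr 445 440873 (.nx 435 20644 (.lg 0 false 7 83 83 17 0 32760) (.nr 444
  46342 (.nr 440 354 (.lg 0 true 5 61 61 17 0 4680) (.nx 443 104033 (.lg 2 true 3 73 73 16 27408
  4680) .out)) .out)) .out))) .out) .out) (.nx 467 1664512 (.nr 466 881745 (.nr 449 39 .s1 (.nx 451
  156 (.nr 450 363 (.l1 (.ls 31 31 611)) (.l1 .sk)) (.nx 452 157 (.l1 .sk) (.nx 453 257 (.l1 (.ls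
  83 37 1038)) (.nr 465 440873 (.nx 462 104033 (.nr 459 110219 (.nr 456 32769 (.lg 0 false 3 83 83
  23 0 9360) (.nx 458 26009 (.lg 0 false 2 97 101 19 0 720720) .out)) (.nx 461 10323 (.lg 0 false 2
  97 101 19 0 102960) .out)) (.nr 464 257 (.lg 0 true 2 73 73 19 0 3120) .out)) .out))))) .out)
  .out))) (.na 487 43 (.nx 486 1664512 (.nr 485 881745 (.nr 469 40 .s1 (.nx 470 257 (.l1 (.ls 73 29
  1613)) (.nr 484 440873 (.nx 477 20644 (.lg 0 false 7 89 97 16 0 32760) (.nr 483 46342 (.nr 480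
  257 (.lg 0 true 3 67 67 16 0 936) (.nx 482 104033 (.lg 2 false 2 83 83 16 31575 624) .out))
  .out)) .out))) .out) .out) (.na 506 44 (.nx 505 1664512 (.nr 504 881745 (.nr 488 42 .s1 (.nx 489
  257 (.l1 (.ls 73 29 1539)) (.nr 503 440873 (.nx 496 20644 (.lg 0 false 7 89 89 16 0 32760) (.nr
  502 46342 (.nr 499 257 (.lg 0 true 3 67 67 16 0 936) (.nx 501 104033 (.lg 2 false 2 83 83 16
  31575 624) .out)) .out)) .out))) .out) .out) (.nx 524 1664512 (.nr 523 881745 (.nr 507 43 .s1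
  (.nx 511 257 (.nx 509 156 (.nr 508 398 (.l1 (.ls 31 31 556)) (.l1 .sk)) (.nx 510 157 (.l1 .sk)
  (.l1 (.ls 83 37 943)))) (.nr 522 440873 (.nx 516 26009 (.nr 513 110219 (.lg 0 false 2 97 97 23 0
  102960) (.nx 515 10323 (.lg 0 false 2 97 101 23 0 102960) .out)) (.nr 521 32769 (.nr 519 398 (.lg
  0 true 3 79 79 23 0 20592) (.nx 520 104033 (.lg 2 true 1 89 89 19 20389 6864) .out)) .out))
  .out))) .out) .out)))))) (.na 671 64 (.na 586 52 (.na 527 47 (.na 526 46 (.lg 0 false 1 0 0 16 0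
  24) .ne) (.na 544 48 (.nx 543 1664512 (.nr 542 881745 (.nr 528 46 .s1 (.nx 529 257 (.l1 (.ls 73
  29 1408)) (.nr 541 623489 (.nx 534 20644 (.lg 0 false 5 89 97 16 0 4680) (.nr 540 46342 (.nr 537
  257 (.lg 0 true 3 67 67 16 0 936) (.nx 539 104033 (.lg 2 true 2 83 83 16 31575 624) .out)) .out))
  .out))) .out) .out) (.na 567 50 (.nx 566 1664512 (.nr 565 881745 (.nr 545 47 .s1 (.nx 557 13005
  (.nx 547 156 (.nr 546 443 (.l1 (.ls 31 37 509)) (.l1 .sk)) (.nx 548 157 (.l1 .sk) (.nx 549 257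
  (.l1 (.ls 79 37 865)) (.nr 556 623489 (.lg 0 false 7 89 101 31 0 720720) .out)))) (.nr 564 110219
  (.nr 560 257 (.lg 0 true 3 71 71 29 0 1872) (.nx 563 104033 (.nr 561 32769 (.lg 2 true 1 89 89 19
  31575 1872) (.nx 562 26009 (.lg 0 true 1 89 89 19 0 1872) .out)) .out)) .out))) .out) .out) (.nx
  585 1664512 (.nr 584 881745 (.nr 568 49 .s1 (.nx 569 257 (.l1 (.ls 73 41 1323)) (.nr 583 623489
  (.nx 576 20644 (.lg 0 false 7 83 89 23 0 21840) (.nr 582 46342 (.nr 579 257 (.lg 0 true 3 67 67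
  19 0 9360) (.nx 581 104033 (.lg 2 false 2 79 79 19 31575 3120) .out)) .out)) .out))) .out)
  .out)))) (.na 622 59 (.na 603 54 (.nx 602 1664512 (.nr 601 881745 (.nr 587 51 .s1 (.nx 588 257
  (.l1 (.ls 73 41 1273)) (.nr 600 623489 (.nx 593 20644 (.lg 0 false 5 83 89 23 0 9360) (.nr 599
  46342 (.nr 596 257 (.lg 0 true 3 61 61 23 0 1872) (.nx 598 104033 (.lg 2 false 2 79 79 19 31575
  624) .out)) .out)) .out))) .out) .out) (.na 604 55 (.lg 0 false 1 0 0 16 0 24) (.nx 621 1664512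
  (.nr 620 881745 (.nr 605 54 .s1 (.nx 608 157 (.nx 607 156 (.nr 606 522 (.l1 (.ls 29 29 445)) (.l1
  .sk)) (.l1 .sk)) (.nx 613 13005 (.nx 609 257 (.l1 (.ls 79 31 755)) (.nr 612 623489 (.lg 0 false 3
  89 97 19 0 51480) .out)) (.nr 619 110219 (.nr 617 32769 (.nr 615 257 (.lg 0 true 2 71 71 17 0
  34320) (.nx 616 104033 (.lg 2 true 1 83 83 17 31575 17160) .out)) (.nx 618 26009 (.lg 0 false 1
  83 83 17 0 17160) .out)) .out)))) .out) .out))) (.na 639 60 (.nx 638 1664512 (.nr 637 881745 (.nr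
  623 58 .s1 (.nx 632 20644 (.nx 624 257 (.l1 (.ls 73 23 1122)) (.nr 631 623489 (.lg 0 false 7 89
  97 17 0 360360) .out)) (.nr 636 46342 (.nr 634 257 (.lg 0 true 2 67 67 16 0 624) (.nx 635 104033
  (.lg 2 true 1 83 83 16 31575 312) .out)) .out))) .out) .out) (.na 656 61 (.nx 655 1664512 (.nr
  654 881745 (.nr 640 59 .s1 (.nx 643 157 (.nx 642 156 (.nr 641 540 (.l1 (.ls 31 37 408)) (.l1
  .sk)) (.l1 .sk)) (.nx 647 13005 (.nx 644 257 (.l1 (.ls 79 41 693)) (.nr 646 623489 (.lg 0 false 2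
  97 97 29 0 9360) .out)) (.nr 653 110219 (.nr 651 32769 (.nr 649 257 (.lg 0 true 2 71 71 29 0
  9360) (.nx 650 104033 (.lg 2 false 1 83 83 23 31575 9360) .out)) (.nx 652 26009 (.lg 0 true 1 89
  89 23 0 9360) .out)) .out)))) .out) .out) (.nx 670 1664512 (.nr 669 881745 (.nr 657 60 .s1 (.nx
  664 20644 (.nx 658 257 (.l1 (.ls 73 23 1085)) (.nr 663 623489 (.lg 0 false 5 89 89 16 0 4680)
  .out)) (.nr 668 46342 (.nr 666 257 (.lg 0 true 2 67 67 16 0 624) (.nx 667 104033 (.lg 2 true 1 83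
  83 16 31575 312) .out)) .out))) .out) .out))))) (.na 734 75 (.na 703 66 (.na 688 65 (.nx 687
  1664512 (.nr 686 881745 (.nr 672 63 .s1 (.nx 675 157 (.nx 674 156 (.nr 673 575 (.l1 (.ls 31 29
  383)) (.l1 .sk)) (.l1 .sk)) (.nx 681 26009 (.nx 676 257 (.l1 (.ls 83 31 649)) (.nr 680 623489
  (.nr 677 110219 (.lg 0 false 1 97 97 19 0 9360) (.nx 679 13005 (.lg 0 false 2 89 101 23 0 9360)
  .out)) .out)) (.nr 685 32769 (.nr 683 513 (.lg 0 true 2 73 73 23 0 624) (.nx 684 104033 (.lg 1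
  true 1 89 89 19 15818 9360) .out)) .out)))) .out) .out) (.nx 702 1664512 (.nr 701 524289 (.nr 689
  64 .s1 (.nx 691 156 (.nr 690 584 (.l1 (.ls 19 29 377)) (.l1 .sk)) (.nx 692 157 (.l1 .sk) (.nx 695
  20644 (.lg 0 false 3 83 83 17 0 4680) (.nr 700 32769 (.nr 698 513 (.lg 0 true 3 67 67 17 0 4680)
  (.nx 699 104033 (.lg 2 true 1 73 73 16 19408 1560) .out)) .out))))) .out) .out)) (.na 718 71 (.nx
  717 1664512 (.nr 716 524289 (.nr 704 65 .s1 (.nx 710 20644 (.nx 706 156 (.nr 705 628 (.l1 (.ls 29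
  37 371)) (.l1 .sk)) (.nx 707 157 (.l1 .sk) (.lg 0 false 3 89 89 29 0 102960))) (.nr 715 32769
  (.nr 713 513 (.lg 0 true 3 71 71 29 0 20592) (.nx 714 104033 (.lg 2 true 1 79 79 23 19408 102960)
  .out)) .out))) .out) .out) (.na 733 72 (.nx 732 1664512 (.nr 731 524289 (.nr 719 70 .s1 (.nx 725
  20644 (.nx 721 156 (.nr 720 637 (.l1 (.ls 19 19 345)) (.l1 .sk)) (.nx 722 157 (.l1 .sk) (.lg 0
  false 3 89 89 16 0 4680))) (.nr 730 32769 (.nr 728 513 (.lg 0 true 3 61 61 16 0 936) (.nx 729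
  104033 (.lg 2 true 1 73 73 16 19408 312) .out)) .out))) .out) .out) (.lg 0 false 1 0 0 16 0
  24)))) (.na 780 80 (.na 749 78 (.nx 748 1664512 (.nr 747 524289 (.nr 735 74 .s1 (.nx 737 156 (.nr
  736 690 (.l1 (.ls 23 29 327)) (.l1 .sk)) (.nx 738 157 (.l1 .sk) (.nx 741 20644 (.lg 0 false 3 83
  83 19 0 4680) (.nr 746 32769 (.nr 744 513 (.lg 0 true 3 67 67 19 0 4680) (.nx 745 104033 (.lg 2
  true 1 73 73 17 19408 4680) .out)) .out))))) .out) .out) (.na 765 79 (.nx 764 1664512 (.nr 763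
  524289 (.nr 750 77 .s1 (.nx 753 157 (.nx 752 156 (.nr 751 699 (.l1 (.ls 17 37 314)) (.l1 .sk))
  (.l1 .sk)) (.nx 760 104033 (.lg 0 false 7 89 89 29 0 65520) (.nr 762 513 (.lg 0 false 2 67 67 23
  0 9360) .out)))) .out) .out) (.nx 779 1664512 (.nr 778 524289 (.nr 766 79 .s1 (.nx 769 157 (.nx
  768 156 (.nr 767 708 (.l1 (.ls 19 19 311)) (.l1 .sk)) (.l1 .sk)) (.nx 772 20644 (.lg 0 false 3 89
  89 16 0 4680) (.nr 777 32769 (.nr 775 513 (.lg 0 true 3 61 61 16 0 936) (.nx 776 104033 (.lg 2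
  true 1 71 71 16 19408 312) .out)) .out)))) .out) .out))) (.na 793 81 (.nx 792 1664512 (.nr 791
  524289 (.nr 781 80 .s1 (.nx 784 157 (.nx 783 156 (.nr 782 717 (.l1 (.ls 37 29 307)) (.l1 .sk))
  (.l1 .sk)) (.nr 789 65537 (.nx 785 20644 (.lg 0 false 1 83 83 23 0 3120) (.nr 788 32769 (.nr 786
  513 (.lg 0 true 1 73 73 23 0 3120) (.nx 787 104033 (.lg 1 true 1 89 89 23 19408 9360) .out))
  .out)) (.nx 790 13005 (.lg 0 false 1 97 97 23 0 9360) .out)))) .out) .out) (.na 794 82 (.lg 0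
  false 1 0 0 16 0 24) (.nx 808 1664512 (.nr 807 524289 (.nr 795 82 .s1 (.nx 801 20644 (.nx 797 156
  (.nr 796 735 (.l1 (.ls 23 29 299)) (.l1 .sk)) (.nx 798 157 (.l1 .sk) (.lg 0 false 3 89 89 19 0
  1872))) (.nr 806 32769 (.nr 804 513 (.lg 0 true 3 71 71 19 0 1872) (.nx 805 104033 (.lg 2 true 1
  79 79 13 19408 624) .out)) .out))) .out) .out))))))) (.na 1041 128 (.na 920 104 (.na 864 91 (.na
  837 88 (.na 824 86 (.nx 823 1664512 (.nr 822 524289 (.nr 810 83 .s1 (.nx 812 156 (.nr 811 761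
  (.l1 (.ls 19 17 296)) (.l1 .sk)) (.nx 813 157 (.l1 .sk) (.nx 816 20644 (.lg 0 false 3 79 79 16 0
  936) (.nr 821 32769 (.nr 819 513 (.lg 0 true 3 61 61 16 0 936) (.nx 820 104033 (.lg 2 true 1 67
  67 16 19408 312) .out)) .out))))) .out) .out) (.nx 836 1664512 (.nr 835 524289 (.nr 825 86 .s1
  (.nx 827 156 (.nr 826 779 (.l1 (.ls 23 29 285)) (.l1 .sk)) (.nx 828 157 (.l1 .sk) (.nx 831 20644
  (.lg 0 false 3 89 89 19 0 9360) (.nr 834 32769 (.nr 832 513 (.lg 0 false 1 73 73 13 0 624) (.nx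
  833 104033 (.lg 2 true 1 73 73 13 19408 624) .out)) .out))))) .out) .out)) (.na 850 89 (.nx 849
  1664512 (.nr 848 524289 (.nr 838 88 .s1 (.nx 843 20644 (.nx 840 156 (.nr 839 788 (.l1 (.ls 31 29
  279)) (.l1 .sk)) (.nx 841 157 (.l1 .sk) (.lg 0 false 2 97 97 29 0 102960))) (.nr 847 32769 (.nr
  845 513 (.lg 0 true 2 71 71 29 0 6864) (.nx 846 104033 (.lg 2 true 1 79 79 23 19408 6864) .out))
  .out))) .out) .out) (.na 863 90 (.nx 862 1664512 (.nr 861 524289 (.nr 851 89 .s1 (.nx 857 20644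
  (.nx 853 156 (.nr 852 797 (.l1 (.ls 19 17 276)) (.l1 .sk)) (.nx 854 157 (.l1 .sk) (.lg 0 false 3
  83 83 16 0 4680))) (.nr 860 32769 (.nr 858 513 (.lg 0 false 1 71 71 16 0 4680) (.nx 859 104033
  (.lg 2 true 1 71 71 16 19408 312) .out)) .out))) .out) .out) (.lg 0 false 1 0 0 16 0 24)))) (.na
  893 99 (.na 865 94 .ne (.na 880 96 (.nx 879 1664512 (.nr 878 1048577 (.nr 866 94 .s1 (.nx 875
  104033 (.nx 868 156 (.nr 867 850 (.l1 (.ls 23 23 261)) (.l1 .sk)) (.nx 869 157 (.l1 .sk) (.nr 871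
  65537 (.lg 0 true 2 83 83 19 0 624) (.nx 874 13005 (.lg 0 false 3 89 89 19 0 9360) .out)))) (.nr
  877 513 (.lg 0 true 2 67 67 19 0 624) .out))) .out) .out) (.nx 892 1664512 (.nr 891 1048577 (.nr
  881 96 .s1 (.nx 883 156 (.nr 882 876 (.l1 (.ls 37 31 256)) (.l1 .sk)) (.nx 884 157 (.l1 .sk) (.nx
  886 13005 (.lg 0 false 2 89 97 29 0 9360) (.nr 890 65537 (.nr 888 513 (.lg 0 true 2 73 73 31 0
  9360) (.nx 889 104033 (.lg 1 false 1 97 97 23 61468 9360) .out)) .out))))) .out) .out))) (.na 894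
  100 (.lg 0 false 1 0 0 16 0 24) (.na 907 103 (.nx 906 1664512 (.nr 905 1048577 (.nr 895 100 .s1
  (.nx 897 156 (.nr 896 912 (.l1 (.ls 31 29 246)) (.l1 .sk)) (.nx 898 157 (.l1 .sk) (.nx 902 104033
  (.nx 900 13005 (.lg 0 false 2 89 89 29 0 3120) (.nr 901 65537 (.lg 0 false 1 89 89 23 0 3120)
  .out)) (.nr 904 513 (.lg 0 true 2 71 71 29 0 3120) .out))))) .out) .out) (.nx 919 1664512 (.nr
  918 1048577 (.nr 908 103 .s1 (.nx 911 157 (.nx 910 156 (.nr 909 920 (.l1 (.ls 19 17 239)) (.l1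
  .sk)) (.l1 .sk)) (.nx 914 20644 (.lg 0 false 3 83 83 16 0 936) (.nr 917 32769 (.nr 915 513 (.lg 0
  false 1 67 67 16 0 312) (.nx 916 104033 (.lg 2 true 1 67 67 16 19408 312) .out)) .out)))) .out)
  .out))))) (.na 964 120 (.na 936 110 (.na 935 108 (.nx 934 1664512 (.nr 933 1048577 (.nr 921 104
  .s1 (.nx 924 157 (.nx 923 156 (.nr 922 956 (.l1 (.ls 23 29 236)) (.l1 .sk)) (.l1 .sk)) (.nr 929
  65537 (.nx 926 104033 (.lg 0 true 2 79 79 23 0 624) (.nr 928 513 (.lg 0 true 2 61 61 23 0 624)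
  .out)) (.nx 932 13005 (.lg 0 false 3 83 83 29 0 9360) .out)))) .out) .out) (.lg 0 false 1 0 0 16
  0 24)) (.na 949 117 (.nx 948 1664512 (.nr 947 1048577 (.nr 937 110 .s1 (.nx 944 104033 (.nx 942
  13005 (.nx 939 156 (.nr 938 1035 (.l1 (.ls 31 31 224)) (.l1 .sk)) (.nx 940 157 (.l1 .sk) (.lg 0
  false 2 97 97 31 0 102960))) (.nr 943 65537 (.lg 0 false 1 97 97 29 0 102960) .out)) (.nr 946 513
  (.lg 0 true 2 71 71 31 0 34320) .out))) .out) .out) (.na 950 118 (.lg 0 false 1 0 0 16 0 24) (.nx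
  963 1664512 (.nr 962 1048577 (.nr 951 118 .s1 (.nx 953 156 (.nr 952 1062 (.l1 (.ls 19 23 209))
  (.l1 .sk)) (.nx 954 157 (.l1 .sk) (.nx 957 20644 (.lg 0 false 3 89 89 23 0 1872) (.nr 961 32769
  (.nr 959 513 (.lg 0 true 2 61 61 19 0 624) (.nx 960 104033 (.lg 2 true 1 71 71 19 19408 624)
  .out)) .out))))) .out) .out)))) (.na 1002 123 (.na 976 121 (.nx 975 1664512 (.nr 974 1048577 (.nr
  965 120 .s1 (.nx 968 157 (.nx 967 156 (.nr 966 1071 (.l1 (.ls 29 31 205)) (.l1 .sk)) (.l1 .sk))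
  (.nx 970 13005 (.lg 0 false 2 89 89 31 0 9360) (.nr 973 65537 (.nx 971 104033 (.lg 0 false 1 89
  89 29 0 9360) (.nr 972 513 (.lg 0 true 1 71 71 29 0 9360) .out)) .out)))) .out) .out) (.na 989
  122 (.nx 988 1664512 (.nr 987 1048577 (.nr 977 121 .s1 (.nx 980 157 (.nx 979 156 (.nr 978 1080
  (.l1 (.ls 23 19 204)) (.l1 .sk)) (.l1 .sk)) (.nx 983 20644 (.lg 0 false 3 83 83 19 0 51480) (.nr
  986 32769 (.nr 984 513 (.lg 0 false 1 71 71 17 0 51480) (.nx 985 104033 (.lg 2 true 1 67 67 17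
  19408 3432) .out)) .out)))) .out) .out) (.nx 1001 1664512 (.nr 1000 1048577 (.nr 990 122 .s1 (.nx
  992 156 (.nr 991 1088 (.l1 (.ls 19 23 202)) (.l1 .sk)) (.nx 993 157 (.l1 .sk) (.nx 996 20644 (.lg
  0 false 3 89 89 23 0 1872) (.nr 999 32769 (.nr 997 513 (.lg 0 false 1 73 73 19 0 9360) (.nx 998
  104033 (.lg 2 true 1 71 71 19 19408 624) .out)) .out))))) .out) .out))) (.na 1015 125 (.nx 1014
  1664512 (.nr 1013 1048577 (.nr 1003 123 .s1 (.nx 1009 20644 (.nx 1005 156 (.nr 1004 1106 (.l1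
  (.ls 19 19 200)) (.l1 .sk)) (.nx 1006 157 (.l1 .sk) (.lg 0 false 3 83 83 19 0 936))) (.nr 1012
  32769 (.nr 1010 513 (.lg 0 false 1 71 71 17 0 4680) (.nx 1011 104033 (.lg 2 true 1 71 71 17 19408
  4680) .out)) .out))) .out) .out) (.na 1028 127 (.nx 1027 1664512 (.nr 1026 1048577 (.nr 1016 125
  .s1 (.nx 1019 157 (.nx 1018 156 (.nr 1017 1124 (.l1 (.ls 19 19 197)) (.l1 .sk)) (.l1 .sk)) (.nx
  1022 20644 (.lg 0 false 3 79 79 17 0 4680) (.nr 1025 32769 (.nr 1023 513 (.lg 0 false 1 67 67 16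
  0 1560) (.nx 1024 104033 (.lg 2 true 1 67 67 16 19408 1560) .out)) .out)))) .out) .out) (.nx 1040
  1664512 (.nr 1039 1048577 (.nr 1029 127 .s1 (.nx 1032 157 (.nx 1031 156 (.nr 1030 1133 (.l1 (.ls
  17 17 194)) (.l1 .sk)) (.l1 .sk)) (.nx 1035 20644 (.lg 0 false 3 79 79 17 0 936) (.nr 1038 32769
  (.nr 1036 513 (.lg 2 false 1 61 61 16 1022299 312) (.nx 1037 104033 (.lg 2 true 1 61 61 16 19408
  312) .out)) .out)))) .out) .out)))))) (.na 1136 144 (.na 1084 135 (.na 1062 130 (.na 1052 129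
  (.nx 1051 1664512 (.nr 1050 1048577 (.nr 1042 128 .s1 (.nx 1046 13005 (.nx 1044 156 (.nr 1043
  1142 (.l1 (.ls 37 23 193)) (.l1 .sk)) (.nx 1045 157 (.l1 .sk) (.lg 0 false 1 101 103 29 0
  720720))) (.nr 1049 65537 (.nr 1047 1025 (.lg 0 true 1 79 79 23 0 624) (.nx 1048 104033 (.lg 2
  false 1 97 101 23 61468 720720) .out)) .out))) .out) .out) (.nx 1061 832257 (.nr 1060 1048577
  (.nr 1053 129 .s1 (.nx 1056 13005 (.nx 1054 257 (.l1 (.ls 71 29 515)) (.nr 1055 741457 (.lg 0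
  true 1 89 89 17 0 4680) .out)) (.nr 1059 16385 (.nr 1057 1025 (.lg 0 false 1 71 71 17 0 4680)
  (.nx 1058 104033 (.lg 2 true 1 61 61 17 15478 4680) .out)) .out))) .out) .out)) (.na 1072 131
  (.nx 1071 832257 (.nr 1070 1048577 (.nr 1063 130 .s1 (.nx 1066 13005 (.nx 1064 257 (.l1 (.ls 71
  37 511)) (.nr 1065 741457 (.lg 0 true 1 83 83 29 0 3120) .out)) (.nr 1069 16385 (.nr 1067 1025
  (.lg 0 false 1 67 67 29 0 3120) (.nx 1068 104033 (.lg 2 false 1 61 61 29 15478 9360) .out))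
  .out))) .out) .out) (.na 1073 132 (.lg 0 false 1 0 0 16 0 24) (.nx 1083 832257 (.nr 1082 1048577
  (.nr 1074 132 .s1 (.nx 1075 257 (.l1 (.ls 79 41 503)) (.nr 1081 741457 (.nx 1077 13005 (.lg 0
  false 2 89 89 31 0 102960) (.nr 1080 16385 (.nr 1078 1025 (.lg 0 true 1 71 71 31 0 20592) (.nx
  1079 104033 (.lg 2 false 1 67 67 31 15478 20592) .out)) .out)) .out))) .out) .out)))) (.na 1105
  141 (.na 1085 137 (.lg 0 false 1 0 0 16 0 24) (.na 1095 139 (.nx 1094 832257 (.nr 1093 1048577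
  (.nr 1086 137 .s1 (.nx 1089 13005 (.nx 1087 257 (.l1 (.ls 67 19 485)) (.nr 1088 741457 (.lg 0
  true 1 79 79 16 0 312) .out)) (.nr 1092 16385 (.nr 1090 1025 (.lg 0 false 1 61 61 16 0 312) (.nx
  1091 104033 (.lg 2 true 1 59 59 16 15478 312) .out)) .out))) .out) .out) (.nx 1104 832257 (.nr
  1103 1048577 (.nr 1096 139 .s1 (.nx 1097 257 (.l1 (.ls 67 19 478)) (.nr 1102 741457 (.nx 1098
  13005 (.lg 0 true 1 79 79 16 0 312) (.nr 1101 16385 (.nr 1099 1025 (.lg 0 false 1 61 61 16 0 312)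
  (.nx 1100 104033 (.lg 2 false 1 59 59 16 15478 312) .out)) .out)) .out))) .out) .out))) (.na 1115
  142 (.nx 1114 832257 (.nr 1113 1048577 (.nr 1106 141 .s1 (.nx 1109 13005 (.nx 1107 257 (.l1 (.ls
  71 23 471)) (.nr 1108 741457 (.lg 0 true 1 83 83 17 0 4680) .out)) (.nr 1112 16385 (.nr 1110 1025
  (.lg 0 false 1 67 67 17 0 936) (.nx 1111 104033 (.lg 2 false 1 61 61 17 15478 4680) .out))
  .out))) .out) .out) (.na 1126 143 (.nx 1125 832257 (.nr 1124 1048577 (.nr 1116 142 .s1 (.nx 1120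
  13005 (.nx 1117 257 (.l1 (.ls 67 29 468)) (.nr 1119 741457 (.lg 0 false 2 79 79 23 0 624) .out))
  (.nr 1123 16385 (.nr 1121 1025 (.lg 0 false 1 71 71 19 0 624) (.nx 1122 104033 (.lg 2 false 1 59
  59 19 15478 624) .out)) .out))) .out) .out) (.nx 1135 832257 (.nr 1134 1048577 (.nr 1127 143 .s1
  (.nx 1130 13005 (.nx 1128 257 (.l1 (.ls 67 29 464)) (.nr 1129 741457 (.lg 0 true 1 83 83 19 0
  51480) .out)) (.nr 1133 16385 (.nr 1131 1025 (.lg 0 false 1 67 67 19 0 3432) (.nx 1132 104033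
  (.lg 2 false 1 59 59 19 15478 3432) .out)) .out))) .out) .out))))) (.na 1168 157 (.na 1147 150
  (.na 1137 149 (.lg 0 false 1 0 0 16 0 24) (.nx 1146 832257 (.nr 1145 1048577 (.nr 1138 149 .s1
  (.nx 1139 257 (.l1 (.ls 67 19 446)) (.nr 1144 741457 (.nx 1140 13005 (.lg 0 true 1 79 79 16 0
  312) (.nr 1143 16385 (.nr 1141 1025 (.lg 0 false 1 61 61 16 0 312) (.nx 1142 104033 (.lg 2 true 1
  59 59 16 15478 312) .out)) .out)) .out))) .out) .out)) (.na 1157 151 (.nx 1156 832257 (.nr 1155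
  1048577 (.nr 1148 150 .s1 (.nx 1151 13005 (.nx 1149 257 (.l1 (.ls 71 37 443)) (.nr 1150 741457
  (.lg 0 true 1 83 83 29 0 9360) .out)) (.nr 1154 16385 (.nr 1152 1025 (.lg 0 false 1 71 71 29 0
  102960) (.nx 1153 104033 (.lg 2 false 1 61 61 29 15478 9360) .out)) .out))) .out) .out) (.na 1158
  156 (.lg 0 false 1 0 0 16 0 24) (.nx 1167 832257 (.nr 1166 1048577 (.nr 1159 156 .s1 (.nx 1162
  13005 (.nx 1160 257 (.l1 (.ls 71 37 426)) (.nr 1161 741457 (.lg 0 true 1 83 83 29 0 9360) .out))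
  (.nr 1165 16385 (.nr 1163 1025 (.lg 0 false 1 67 67 29 0 9360) (.nx 1164 104033 (.lg 2 false 1 59
  59 29 15478 1872) .out)) .out))) .out) .out)))) (.na 1199 162 (.na 1178 158 (.nx 1177 832257 (.nr
  1176 1048577 (.nr 1169 157 .s1 (.nx 1170 257 (.l1 (.ls 67 19 423)) (.nr 1175 741457 (.nx 1171
  13005 (.lg 0 true 1 79 79 16 0 4680) (.nr 1174 16385 (.nr 1172 1025 (.lg 0 false 1 61 61 16 0
  312) (.nx 1173 104033 (.lg 2 false 1 53 53 16 15478 312) .out)) .out)) .out))) .out) .out) (.na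
  1189 160 (.nx 1188 832257 (.nr 1187 1048577 (.nr 1179 158 .s1 (.nx 1180 257 (.l1 (.ls 71 29 421))
  (.nr 1186 741457 (.nx 1182 13005 (.lg 0 false 2 73 73 23 0 624) (.nr 1185 16385 (.nr 1183 1025
  (.lg 0 false 1 67 67 19 0 624) (.nx 1184 104033 (.lg 2 true 1 59 59 19 15478 624) .out)) .out))
  .out))) .out) .out) (.nx 1198 832257 (.nr 1197 1048577 (.nr 1190 160 .s1 (.nx 1193 13005 (.nx
  1191 257 (.l1 (.ls 83 31 415)) (.nr 1192 741457 (.lg 0 false 1 89 97 29 0 9360) .out)) (.nr 1196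
  16385 (.nr 1194 1025 (.lg 0 true 1 73 73 31 0 3120) (.nx 1195 104033 (.lg 1 true 1 79 83 29 15478
  9360) .out)) .out))) .out) .out))) (.na 1200 163 (.lg 0 false 1 0 0 16 0 24) (.na 1201 164 (.lg 0
  false 1 0 0 16 0 24) (.nx 1210 832257 (.nr 1209 1048577 (.nr 1202 164 .s1 (.nx 1205 13005 (.nx
  1203 257 (.l1 (.ls 73 29 405)) (.nr 1204 741457 (.lg 0 true 1 89 89 23 0 9360) .out)) (.nr 1208
  16385 (.nr 1206 1025 (.lg 0 true 1 67 67 23 0 624) (.nx 1207 104033 (.lg 2 false 1 67 67 23 15478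
  624) .out)) .out))) .out) .out))))))))

def T70_1 : Ph :=
  (.na 623 131 (.na 447 54 (.na 343 23 (.na 231 8 (.na 169 4 (.na 84 2 (.nx 83 330282 (.nr 82
  311745 (.nx 3 24 (.nx 2 23 (.nr 1 5 (.lg 0 true 1 29 29 5 0 43056) (.l1 .sk)) (.l1 .sk)) (.nr 58
  4872 (.nx 11 1467 (.lg 0 true 8 71 71 9 0 3312) (.nx 22 20644 (.nr 18 309 (.lg 0 false 7 73 73 9
  0 23184) (.lg 2 true 4 79 79 7 883 3312)) (.nr 57 78 (.lg 0 true 35 73 73 13 0 57960) .out)))
  (.nx 81 324 (.nr 65 38969 (.lg 0 false 7 79 79 9 0 11592) (.nx 80 52 (.lg 0 false 15 73 73 9 0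
  8280) .out)) .out))) .out) .out) (.na 144 3 (.nx 143 330282 (.nr 142 623489 (.nx 86 23 (.nr 85 10
  (.lg 0 true 1 29 29 5 0 16560) (.l1 .sk)) (.nx 87 24 (.l1 .sk) (.nx 101 52 (.nr 88 202142 (.l1
  (.ls 83 31 1067)) (.lg 0 false 13 73 73 9 0 43056)) (.nr 141 65537 (.nr 133 9743 (.nx 106 1629
  (.lg 0 true 5 79 79 9 0 16560) (.nr 127 154 (.lg 0 true 21 79 79 11 0 23184) (.nx 132 20644 (.lg
  2 true 5 83 83 9 1587 16560) .out))) (.nx 140 324 (.lg 0 false 7 79 79 9 0 23184) .out)) .out))))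
  .out) .out) (.nx 168 330282 (.nr 167 13779 (.nx 146 23 (.nr 145 13 (.lg 0 true 1 19 19 5 0 16560)
  (.l1 .sk)) (.nx 147 24 (.l1 .sk) (.nx 151 2851 (.lg 0 true 4 79 79 7 0 3312) (.nr 162 217 (.lg 0
  true 11 79 79 16 0 18216) (.nx 166 20644 (.lg 1 true 4 83 83 7 1281 16560) .out))))) .out)
  .out))) (.na 211 6 (.na 210 5 (.nx 209 330282 (.nr 208 1246976 (.nx 197 20644 (.nx 171 23 (.nr
  170 17 (.lg 0 true 1 16 16 9 0 3312) (.l1 .sk)) (.nx 172 24 (.l1 .sk) (.nx 191 3252 (.nr 177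
  19485 (.lg 0 true 5 79 79 11 0 16560) (.nx 190 52 (.lg 0 false 13 73 73 11 0 43056) .out)) (.nr
  196 2437 (.lg 0 false 5 79 79 11 0 16560) .out)))) (.nr 207 109 (.lg 0 true 10 71 71 13 0 16560)
  .out)) .out) .out) .ne) (.na 230 7 (.nx 229 330282 (.nr 228 27556 (.nr 212 4 .s1 (.nx 220 3252
  (.nx 214 23 (.nr 213 24 (.lg 0 true 1 16 16 7 0 43056) (.l1 .sk)) (.nx 215 24 (.l1 .sk) (.lg 0
  true 5 73 73 13 0 16560))) (.nr 227 154 (.lg 0 true 7 71 71 13 0 23184) .out))) .out) .out)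
  .ne))) (.na 276 12 (.na 255 9 (.nx 254 330282 (.nr 253 77937 (.nr 232 7 .s1 (.nx 235 24 (.nx 234
  23 (.nr 233 31 (.l1 (.ls 19 13 69)) (.l1 .sk)) (.l1 .sk)) (.nx 242 1919 (.lg 0 false 7 79 79 13 0
  23184) (.nr 252 38969 (.nr 249 217 (.lg 0 true 7 73 73 13 0 23184) (.nx 251 20644 (.nx 250 6294
  (.lg 1 true 1 83 83 11 5376 16560) (.lg 1 false 1 83 83 11 1639 16560)) .out)) .out)))) .out)
  .out) (.na 275 10 (.nx 274 330282 (.nr 273 77937 (.nr 256 8 .s1 (.nx 264 4237 (.nx 258 23 (.nr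
  257 34 (.l1 (.ls 16 16 61)) (.l1 .sk)) (.nx 259 24 (.l1 .sk) (.lg 0 false 5 79 79 16 0 8280)))
  (.nr 272 38969 (.nr 269 217 (.lg 0 true 5 71 71 16 0 8280) (.nx 271 20644 (.lg 1 true 2 73 73 16
  2435 3312) .out)) .out))) .out) .out) .ne)) (.na 314 16 (.na 297 13 (.nx 296 330282 (.nr 295
  77937 (.nr 277 12 .s1 (.nx 285 2851 (.nr 281 2983 (.nx 279 1292 (.nx 278 585 (.l1 (.ls 59 59
  28521)) (.l1 (.ls 59 67 110589))) (.nx 280 1919 (.l1 (.ls 59 71 167777)) (.l1 (.ls 61 73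
  370473)))) (.nx 283 24 (.nx 282 23 (.l1 .sk) (.l1 .sk)) (.lg 0 false 2 97 97 13 0 16560))) (.nr
  294 27556 (.nr 290 154 (.lg 0 true 5 71 71 19 0 16560) (.nx 293 20644 (.lg 1 false 3 71 71 19
  2560 16560) .out)) .out))) .out) .out) (.nx 313 330282 (.nr 312 77937 (.nr 298 13 .s1 (.nx 301 24
  (.nx 300 23 (.nr 299 55 (.l1 (.ls 17 16 43)) (.l1 .sk)) (.l1 .sk)) (.nx 305 2851 (.lg 0 false 4
  79 79 16 0 43056) (.nr 311 27556 (.nr 309 154 (.lg 0 true 4 67 67 16 0 43056) (.nx 310 20644 (.lg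
  1 false 1 83 83 9 2560 215280) .out)) .out)))) .out) .out)) (.na 331 18 (.nx 330 330282 (.nr 329
  131073 (.nr 315 16 .s1 (.nx 317 23 (.nr 316 62 (.l1 (.ls 17 13 36)) (.l1 .sk)) (.nx 318 24 (.l1
  .sk) (.nx 323 1757 (.lg 0 false 5 79 79 17 0 16560) (.nr 328 32769 (.nr 326 154 (.lg 0 true 3 67
  67 13 0 3312) (.nx 327 20644 (.lg 1 false 1 83 83 11 4938 3312) .out)) .out))))) .out) .out) (.nx
  342 330282 (.nr 341 131073 (.nr 332 18 .s1 (.nx 337 2049 (.nx 334 23 (.nr 333 79 (.l1 (.ls 16 19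
  32)) (.l1 .sk)) (.nx 335 24 (.l1 .sk) (.lg 0 true 2 79 79 13 0 16560))) (.nr 340 32769 (.nr 338
  154 (.lg 0 false 1 73 73 13 0 3312) (.nx 339 20644 (.lg 1 false 1 79 79 13 4235 16560) .out))
  .out))) .out) .out))))) (.na 403 33 (.na 371 27 (.na 352 24 (.nx 351 41287 (.nr 350 131073 (.nr
  344 23 .s1 (.nx 345 324 (.l1 (.ls 67 41 4567)) (.nr 349 32769 (.lg 0 false 4 79 79 13 0 3312)
  .out))) .out) .out) (.na 363 26 (.nx 362 41287 (.nr 361 131073 (.nr 353 24 .s1 (.nx 355 23 (.nr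
  354 90 (.l1 (.ls 29 17 25)) (.l1 .sk)) (.nx 356 24 (.l1 .sk) (.nx 359 3252 (.nr 357 32769 (.lg 0
  true 1 73 73 19 0 3312) (.nx 358 324 (.lg 0 false 1 73 73 19 0 3312) .out)) (.nr 360 257 (.lg 0
  false 1 61 61 19 0 3312) .out))))) .out) .out) (.nx 370 41287 (.nr 369 131073 (.nr 364 26 .s1
  (.nx 365 324 (.l1 (.ls 71 43 4040)) (.nr 368 32769 (.nx 366 3252 (.lg 0 true 1 79 79 11 0 43056)
  (.nr 367 257 (.lg 0 false 1 61 61 11 0 43056) .out)) .out))) .out) .out))) (.na 387 31 (.na 379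
  29 (.nx 378 41287 (.nr 377 131073 (.nr 372 27 .s1 (.nx 375 3252 (.nx 373 324 (.l1 (.ls 67 41
  3890)) (.nr 374 32769 (.lg 0 true 1 73 73 16 0 16560) .out)) (.nr 376 257 (.lg 0 false 1 59 59 16
  0 1656) .out))) .out) .out) (.nx 386 41287 (.nr 385 131073 (.nr 380 29 .s1 (.nx 381 324 (.l1 (.ls
  71 37 3622)) (.nr 384 32769 (.nx 382 3252 (.lg 0 true 1 73 73 13 0 3312) (.nr 383 257 (.lg 0
  false 1 59 59 13 0 1656) .out)) .out))) .out) .out)) (.na 395 32 (.nx 394 41287 (.nr 393 131073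
  (.nr 388 31 .s1 (.nx 391 3252 (.nx 389 324 (.l1 (.ls 67 29 3389)) (.nr 390 32769 (.lg 0 true 1 73
  73 13 0 3312) .out)) (.nr 392 257 (.lg 0 false 1 59 59 13 0 1656) .out))) .out) .out) (.nx 402
  41287 (.nr 401 262145 (.nr 396 32 .s1 (.nx 397 324 (.l1 (.ls 79 41 3283)) (.nr 400 32769 (.nr 398
  4097 (.lg 0 false 1 79 79 13 0 16560) (.nx 399 3252 (.lg 0 false 1 73 73 13 0 3312) .out))
  .out))) .out) .out)))) (.na 422 46 (.na 410 39 (.na 404 36 .ne (.nx 409 41287 (.nr 408 262145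
  (.nr 405 36 .s1 (.nx 406 324 (.l1 (.ls 73 43 2918)) (.nr 407 4097 (.lg 0 false 1 71 71 19 0 3312)
  .out))) .out) .out)) (.na 416 41 (.nx 415 41287 (.nr 414 262145 (.nr 411 39 .s1 (.nx 412 324 (.l1
  (.ls 73 41 2694)) (.nr 413 4097 (.lg 0 false 1 73 73 17 0 21528) .out))) .out) .out) (.nx 421
  41287 (.nr 420 262145 (.nr 417 41 .s1 (.nx 418 324 (.l1 (.ls 71 31 2563)) (.nr 419 4097 (.lg 0
  false 1 71 71 16 0 1656) .out))) .out) .out))) (.na 435 48 (.na 429 47 (.nx 428 41287 (.nr 427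
  262145 (.nr 423 46 .s1 (.nx 424 324 (.l1 (.ls 61 43 2285)) (.nr 426 4097 (.lg 0 false 2 61 61 13
  0 3312) .out))) .out) .out) (.nx 434 41287 (.nr 433 262145 (.nr 430 47 .s1 (.nx 431 324 (.l1 (.ls
  71 29 2236)) (.nr 432 4097 (.lg 0 false 1 73 73 16 0 1656) .out))) .out) .out)) (.na 441 52 (.nx
  440 41287 (.nr 439 262145 (.nr 436 48 .s1 (.nx 437 324 (.l1 (.ls 79 43 2189)) (.nr 438 4097 (.lg
  0 false 1 73 73 23 0 3312) .out))) .out) .out) (.nx 446 41287 (.nr 445 262145 (.nr 442 52 .s1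
  (.nx 443 324 (.l1 (.ls 73 41 2021)) (.nr 444 4097 (.lg 0 false 1 73 73 19 0 43056) .out))) .out)
  .out)))))) (.na 534 92 (.na 488 71 (.na 465 62 (.na 453 58 (.nx 452 41287 (.nr 451 262145 (.nr
  448 54 .s1 (.nx 449 324 (.l1 (.ls 67 43 1946)) (.nr 450 4097 (.lg 0 false 1 67 67 19 0 3312)
  .out))) .out) .out) (.na 459 59 (.nx 458 41287 (.nr 457 262145 (.nr 454 58 .s1 (.nx 455 324 (.l1
  (.ls 71 41 1812)) (.nr 456 4097 (.lg 0 false 1 73 73 13 0 16560) .out))) .out) .out) (.nx 464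
  41287 (.nr 463 262145 (.nr 460 59 .s1 (.nx 461 324 (.l1 (.ls 67 29 1782)) (.nr 462 4097 (.lg 0
  false 1 71 71 16 0 3312) .out))) .out) .out))) (.na 479 65 (.na 471 64 (.nx 470 41287 (.nr 469
  262145 (.nr 466 62 .s1 (.nx 467 324 (.l1 (.ls 71 41 1696)) (.nr 468 4097 (.lg 0 false 1 73 73 13
  0 16560) .out))) .out) .out) (.nx 478 41287 (.nr 477 524289 (.nr 472 64 .s1 (.nx 473 324 (.l1
  (.ls 73 37 1643)) (.nr 476 65537 (.nx 474 3252 (.lg 0 true 1 71 71 17 0 3312) (.nr 475 4097 (.lg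
  0 true 1 71 71 17 0 3312) .out)) .out))) .out) .out)) (.na 480 69 .ne (.nx 487 20644 (.nr 486
  524289 (.nr 481 69 .s1 (.nx 484 3252 (.nx 482 324 (.l1 (.ls 67 37 1524)) (.nr 483 65537 (.lg 0
  true 1 61 61 16 0 3312) .out)) (.nr 485 257 (.lg 0 true 1 37 37 16 0 3312) .out))) .out) .out))))
  (.na 508 78 (.na 494 72 (.nx 493 20644 (.nr 492 524289 (.nr 489 71 .s1 (.nx 490 324 (.l1 (.ls 67
  29 1481)) (.nr 491 65537 (.lg 0 true 1 79 79 16 0 3312) .out))) .out) .out) (.na 502 73 (.nx 501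
  20644 (.nr 500 524289 (.nr 495 72 .s1 (.nx 496 324 (.l1 (.ls 83 41 1460)) (.nr 499 65537 (.nx 497
  3252 (.lg 0 false 1 73 73 29 0 3312) (.nr 498 257 (.lg 0 true 1 47 53 29 0 16560) .out)) .out)))
  .out) .out) (.nx 507 20644 (.nr 506 524289 (.nr 503 73 .s1 (.nx 504 324 (.l1 (.ls 71 29 1441))
  (.nr 505 65537 (.lg 0 true 1 83 83 16 0 1656) .out))) .out) .out))) (.na 522 82 (.na 516 81 (.nx
  515 20644 (.nr 514 524289 (.nr 509 78 .s1 (.nx 510 324 (.l1 (.ls 79 43 1348)) (.nr 513 65537 (.nx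
  511 3252 (.lg 0 true 1 73 73 29 0 215280) (.nr 512 257 (.lg 0 true 1 47 47 29 0 215280) .out))
  .out))) .out) .out) (.nx 521 20644 (.nr 520 524289 (.nr 517 81 .s1 (.nx 518 324 (.l1 (.ls 67 31
  1298)) (.nr 519 65537 (.lg 0 true 1 73 73 16 0 3312) .out))) .out) .out)) (.na 528 87 (.nx 527
  20644 (.nr 526 524289 (.nr 523 82 .s1 (.nx 524 324 (.l1 (.ls 73 37 1283)) (.nr 525 65537 (.lg 0
  true 1 83 83 13 0 16560) .out))) .out) .out) (.nx 533 20644 (.nr 532 524289 (.nr 529 87 .s1 (.nx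
  530 324 (.l1 (.ls 73 37 1209)) (.nr 531 65537 (.lg 0 true 1 83 83 17 0 1656) .out))) .out)
  .out))))) (.na 580 116 (.na 552 96 (.na 540 93 (.nx 539 20644 (.nr 538 524289 (.nr 535 92 .s1
  (.nx 536 324 (.l1 (.ls 71 41 1144)) (.nr 537 65537 (.lg 0 true 1 79 79 17 0 16560) .out))) .out)
  .out) (.na 546 94 (.nx 545 20644 (.nr 544 524289 (.nr 541 93 .s1 (.nx 542 324 (.l1 (.ls 73 29
  1131)) (.nr 543 65537 (.lg 0 true 1 83 83 17 0 1656) .out))) .out) .out) (.nx 551 20644 (.nr 550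
  524289 (.nr 547 94 .s1 (.nx 548 324 (.l1 (.ls 71 37 1119)) (.nr 549 65537 (.lg 0 true 1 79 79 17
  0 3312) .out))) .out) .out))) (.na 566 104 (.na 560 101 (.nx 559 20644 (.nr 558 524289 (.nr 553
  96 .s1 (.nx 554 324 (.l1 (.ls 73 41 1096)) (.nr 557 65537 (.nx 555 3252 (.lg 0 false 1 71 71 29 0
  3312) (.nr 556 257 (.lg 0 true 1 41 43 29 0 3312) .out)) .out))) .out) .out) (.nx 565 20644 (.nr
  564 524289 (.nr 561 101 .s1 (.nx 562 324 (.l1 (.ls 67 23 1042)) (.nr 563 65537 (.lg 0 true 1 71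
  71 16 0 1656) .out))) .out) .out)) (.na 574 108 (.nx 573 20644 (.nr 572 524289 (.nr 567 104 .s1
  (.nx 570 3252 (.nx 568 324 (.l1 (.ls 79 37 1012)) (.nr 569 65537 (.lg 0 false 1 71 71 29 0 43056)
  .out)) (.nr 571 257 (.lg 0 true 1 41 47 29 0 43056) .out))) .out) .out) (.nx 579 20644 (.nr 578
  524289 (.nr 575 108 .s1 (.nx 576 324 (.l1 (.ls 73 41 974)) (.nr 577 65537 (.lg 0 true 1 79 79 23
  0 16560) .out))) .out) .out)))) (.na 604 124 (.na 592 118 (.na 586 117 (.nx 585 20644 (.nr 584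
  524289 (.nr 581 116 .s1 (.nx 582 324 (.l1 (.ls 73 37 907)) (.nr 583 65537 (.lg 0 true 1 79 79 19
  0 3312) .out))) .out) .out) (.nx 591 20644 (.nr 590 524289 (.nr 587 117 .s1 (.nx 588 324 (.l1
  (.ls 73 31 900)) (.nr 589 65537 (.lg 0 true 1 79 79 19 0 21528) .out))) .out) .out)) (.na 598 123
  (.nx 597 20644 (.nr 596 524289 (.nr 593 118 .s1 (.nx 594 324 (.l1 (.ls 53 31 892)) (.nr 595 65537
  (.lg 0 true 1 79 79 19 0 16560) .out))) .out) .out) (.nx 603 20644 (.nr 602 524289 (.nr 599 123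
  .s1 (.nx 600 324 (.l1 (.ls 73 29 856)) (.nr 601 65537 (.lg 0 false 1 79 79 17 0 1656) .out)))
  .out) .out))) (.na 616 128 (.na 610 127 (.nx 609 20644 (.nr 608 524289 (.nr 605 124 .s1 (.nx 606
  324 (.l1 (.ls 73 29 849)) (.nr 607 65537 (.lg 0 true 1 79 79 19 0 3312) .out))) .out) .out) (.nx
  615 20644 (.nr 614 524289 (.nr 611 127 .s1 (.nx 612 324 (.l1 (.ls 67 23 829)) (.nr 613 65537 (.lg
  0 true 1 71 71 16 0 1656) .out))) .out) .out)) (.na 622 129 (.nx 621 20644 (.nr 620 524289 (.nr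
  617 128 .s1 (.nx 618 324 (.l1 (.ls 73 31 823)) (.nr 619 65537 (.lg 0 true 1 79 79 19 0 16560)
  .out))) .out) .out) .ne)))))) (.na 772 199 (.na 692 164 (.na 660 146 (.na 636 139 (.na 629 137
  (.nx 628 20644 (.nr 627 16385 (.nr 624 131 .s1 (.nx 625 324 (.l1 (.ls 41 23 804)) (.nr 626 1025
  (.lg 2 true 1 31 31 16 1813 23184) .out))) .out) .out) (.na 630 138 (.lg 0 false 1 0 0 16 0 24)
  (.nx 635 20644 (.nr 634 16385 (.nr 631 138 .s1 (.nx 632 324 (.l1 (.ls 43 41 763)) (.nr 633 1025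
  (.lg 2 true 1 29 29 19 1721 3312) .out))) .out) .out))) (.na 648 142 (.na 642 141 (.nx 641 20644
  (.nr 640 16385 (.nr 637 139 .s1 (.nx 638 324 (.l1 (.ls 37 23 758)) (.nr 639 1025 (.lg 2 true 1 29
  29 16 1708 3312) .out))) .out) .out) (.nx 647 20644 (.nr 646 16385 (.nr 643 141 .s1 (.nx 644 324
  (.l1 (.ls 41 29 747)) (.nr 645 1025 (.lg 0 true 1 43 43 19 0 3312) .out))) .out) .out)) (.na 654
  144 (.nx 653 20644 (.nr 652 16385 (.nr 649 142 .s1 (.nx 650 324 (.l1 (.ls 43 31 742)) (.nr 651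
  1025 (.lg 2 true 1 29 29 19 1672 3312) .out))) .out) .out) (.nx 659 20644 (.nr 658 16385 (.nr 655
  144 .s1 (.nx 656 324 (.l1 (.ls 47 37 731)) (.nr 657 1025 (.lg 0 true 1 47 53 31 0 3312) .out)))
  .out) .out)))) (.na 673 156 (.na 666 149 (.nx 665 20644 (.nr 664 16385 (.nr 661 146 .s1 (.nx 662
  324 (.l1 (.ls 37 31 722)) (.nr 663 1025 (.lg 2 true 1 29 29 19 1627 3312) .out))) .out) .out)
  (.na 667 151 (.lg 0 false 1 0 0 16 0 24) (.nx 672 20644 (.nr 671 16385 (.nr 668 151 .s1 (.nx 669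
  324 (.l1 (.ls 37 23 698)) (.nr 670 1025 (.lg 2 false 1 29 29 16 1573 3312) .out))) .out) .out)))
  (.na 680 162 (.na 679 157 (.nx 678 20644 (.nr 677 16385 (.nr 674 156 .s1 (.nx 675 324 (.l1 (.ls
  53 41 675)) (.nr 676 1025 (.lg 0 true 1 53 59 37 0 43056) .out))) .out) .out) (.lg 0 false 1 0 0
  16 0 24)) (.na 686 163 (.nx 685 20644 (.nr 684 16385 (.nr 681 162 .s1 (.nx 682 324 (.l1 (.ls 41
  37 650)) (.nr 683 1025 (.lg 2 true 1 29 29 23 1466 215280) .out))) .out) .out) (.nx 691 20644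
  (.nr 690 16385 (.nr 687 163 .s1 (.nx 688 324 (.l1 (.ls 41 23 647)) (.nr 689 1025 (.lg 2 true 1 29
  29 16 1457 115920) .out))) .out) .out))))) (.na 734 181 (.na 710 173 (.na 698 167 (.nx 697 20644
  (.nr 696 16385 (.nr 693 164 .s1 (.nx 694 324 (.l1 (.ls 37 31 643)) (.nr 695 1025 (.lg 2 true 1 19
  29 23 1448 3312) .out))) .out) .out) (.na 704 169 (.nx 703 20644 (.nr 702 16385 (.nr 699 167 .s1
  (.nx 700 324 (.l1 (.ls 41 23 631)) (.nr 701 1025 (.lg 2 true 1 29 29 16 1422 16560) .out))) .out)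
  .out) (.nx 709 20644 (.nr 708 16385 (.nr 705 169 .s1 (.nx 706 324 (.l1 (.ls 37 29 624)) (.nr 707
  1025 (.lg 2 true 1 29 29 17 1405 43056) .out))) .out) .out))) (.na 722 177 (.na 716 174 (.nx 715
  20644 (.nr 714 16385 (.nr 711 173 .s1 (.nx 712 324 (.l1 (.ls 41 23 609)) (.nr 713 1025 (.lg 2
  true 1 29 29 16 1373 115920) .out))) .out) .out) (.nx 721 20644 (.nr 720 16385 (.nr 717 174 .s1
  (.nx 718 324 (.l1 (.ls 43 41 606)) (.nr 719 1025 (.lg 2 true 1 19 31 23 1365 3312) .out))) .out)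
  .out)) (.na 728 179 (.nx 727 20644 (.nr 726 16385 (.nr 723 177 .s1 (.nx 724 324 (.l1 (.ls 43 29
  596)) (.nr 725 1025 (.lg 2 false 1 31 31 19 1342 115920) .out))) .out) .out) (.nx 733 20644 (.nr
  732 16385 (.nr 729 179 .s1 (.nx 730 324 (.l1 (.ls 37 23 589)) (.nr 731 1025 (.lg 2 false 1 19 19
  16 1327 3312) .out))) .out) .out)))) (.na 753 191 (.na 741 186 (.na 735 184 (.lg 0 false 1 0 0 16
  0 24) (.nx 740 20644 (.nr 739 16385 (.nr 736 184 .s1 (.nx 737 324 (.l1 (.ls 41 37 573)) (.nr 738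
  1025 (.lg 2 false 1 19 29 19 1291 3312) .out))) .out) .out)) (.na 747 188 (.nx 746 20644 (.nr 745
  16385 (.nr 742 186 .s1 (.nx 743 324 (.l1 (.ls 29 41 567)) (.nr 744 1025 (.lg 2 true 1 19 29 29
  1277 3312) .out))) .out) .out) (.nx 752 20644 (.nr 751 16385 (.nr 748 188 .s1 (.nx 749 324 (.l1
  (.ls 43 31 561)) (.nr 750 1025 (.lg 2 true 1 19 29 23 1263 16560) .out))) .out) .out))) (.na 760
  193 (.na 754 192 (.lg 0 false 1 0 0 16 0 24) (.nx 759 20644 (.nr 758 16385 (.nr 755 192 .s1 (.nx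
  756 324 (.l1 (.ls 53 37 549)) (.nr 757 1025 (.lg 0 true 1 47 53 31 0 16560) .out))) .out) .out))
  (.na 766 197 (.nx 765 20644 (.nr 764 16385 (.nr 761 193 .s1 (.nx 762 324 (.l1 (.ls 37 19 546))
  (.nr 763 1025 (.lg 2 true 1 19 19 16 1231 16560) .out))) .out) .out) (.nx 771 20644 (.nr 770
  16385 (.nr 767 197 .s1 (.nx 768 324 (.l1 (.ls 37 19 535)) (.nr 769 1025 (.lg 2 true 1 19 19 16
  1206 16560) .out))) .out) .out)))))) (.na 841 236 (.na 809 219 (.na 785 208 (.na 773 202 (.lg 0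
  false 1 0 0 16 0 24) (.na 779 207 (.nx 778 20644 (.nr 777 16385 (.nr 774 202 .s1 (.nx 775 324
  (.l1 (.ls 41 31 522)) (.nr 776 1025 (.lg 2 true 1 17 17 23 1176 16560) .out))) .out) .out) (.nx
  784 20644 (.nr 783 16385 (.nr 780 207 .s1 (.nx 781 324 (.l1 (.ls 41 31 510)) (.nr 782 1025 (.lg 2
  false 1 19 19 19 1147 16560) .out))) .out) .out))) (.na 797 213 (.na 791 211 (.nx 790 20644 (.nr
  789 16385 (.nr 786 208 .s1 (.nx 787 324 (.l1 (.ls 53 31 507)) (.nr 788 1025 (.lg 2 false 1 31 41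
  31 1142 1506960) .out))) .out) .out) (.nx 796 20644 (.nr 795 16385 (.nr 792 211 .s1 (.nx 793 324
  (.l1 (.ls 31 19 500)) (.nr 794 1025 (.lg 2 false 1 17 17 16 1126 3312) .out))) .out) .out)) (.na
  803 216 (.nx 802 20644 (.nr 801 16385 (.nr 798 213 .s1 (.nx 799 324 (.l1 (.ls 43 29 495)) (.nr
  800 1025 (.lg 2 false 1 19 29 19 1115 16560) .out))) .out) .out) (.nx 808 20644 (.nr 807 16385
  (.nr 804 216 .s1 (.nx 805 324 (.l1 (.ls 43 37 488)) (.nr 806 1025 (.lg 0 true 1 41 47 31 0 3312)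
  .out))) .out) .out)))) (.na 822 229 (.na 815 223 (.nx 814 20644 (.nr 813 16385 (.nr 810 219 .s1
  (.nx 811 324 (.l1 (.ls 41 29 482)) (.nr 812 1025 (.lg 2 true 1 19 29 19 1085 23184) .out))) .out)
  .out) (.na 821 227 (.nx 820 20644 (.nr 819 16385 (.nr 816 223 .s1 (.nx 817 324 (.l1 (.ls 37 19
  473)) (.nr 818 1025 (.lg 2 true 1 17 17 16 1065 16560) .out))) .out) .out) (.lg 0 false 1 0 0 16
  0 24))) (.na 829 233 (.na 823 232 (.lg 0 false 1 0 0 16 0 24) (.nx 828 20644 (.nr 827 16385 (.nr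
  824 232 .s1 (.nx 825 324 (.l1 (.ls 53 31 455)) (.nr 826 1025 (.lg 2 true 1 19 37 23 1024 16560)
  .out))) .out) .out)) (.na 835 234 (.nx 834 20644 (.nr 833 16385 (.nr 830 233 .s1 (.nx 831 324
  (.l1 (.ls 53 19 453)) (.nr 832 1025 (.lg 2 true 1 19 19 17 1019 115920) .out))) .out) .out) (.nx
  840 20644 (.nr 839 16385 (.nr 836 234 .s1 (.nx 837 324 (.l1 (.ls 41 41 451)) (.nr 838 1025 (.lg 2
  true 1 19 29 37 1015 43056) .out))) .out) .out))))) (.na 873 254 (.na 854 243 (.na 847 239 (.nx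
  846 20644 (.nr 845 16385 (.nr 842 236 .s1 (.nx 843 324 (.l1 (.ls 41 29 447)) (.nr 844 1025 (.lg 2
  true 1 19 19 23 1006 3312) .out))) .out) .out) (.na 853 241 (.nx 852 20644 (.nr 851 16385 (.nr
  848 239 .s1 (.nx 849 324 (.l1 (.ls 29 19 442)) (.nr 850 1025 (.lg 2 true 1 16 16 17 994 3312)
  .out))) .out) .out) (.lg 0 false 1 0 0 16 0 24))) (.na 866 248 (.na 860 246 (.nx 859 20644 (.nr
  858 16385 (.nr 855 243 .s1 (.nx 856 324 (.l1 (.ls 41 23 434)) (.nr 857 1025 (.lg 2 false 1 17 17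
  19 977 115920) .out))) .out) .out) (.nx 865 20644 (.nr 864 16385 (.nr 861 246 .s1 (.nx 862 324
  (.l1 (.ls 37 37 429)) (.nr 863 1025 (.lg 2 true 1 17 19 31 966 3312) .out))) .out) .out)) (.na
  872 251 (.nx 871 20644 (.nr 870 16385 (.nr 867 248 .s1 (.nx 868 324 (.l1 (.ls 29 29 426)) (.nr
  869 1025 (.lg 2 true 1 19 29 29 958 16560) .out))) .out) .out) (.lg 0 false 1 0 0 16 0 24))))
  (.na 2247 1024 (.na 885 257 (.na 879 256 (.nx 878 20644 (.nr 877 16385 (.nr 874 254 .s1 (.nx 875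
  324 (.l1 (.ls 31 29 416)) (.nr 876 1025 (.lg 2 true 1 16 16 23 935 23184) .out))) .out) .out)
  (.nx 884 20644 (.nr 883 16385 (.nr 880 256 .s1 (.nx 881 324 (.l1 (.ls 37 29 413)) (.nr 882 2049
  (.lg 2 true 1 19 29 29 1695 3312) .out))) .out) .out)) (.na 1167 512 (.nx 1166 20644 (.nr 1165
  4097 (.nr 886 257 .s1 (.nx 910 24 (.nx 909 23 (.nr 908 1756 (.lx (.lp 16 0 129)) (.l1 .sk)) (.l1
  .sk)) (.la (.lg 0 true 1 47 47 23 0)))) .out) .out) (.nx 2246 20644 (.nr 2245 8193 (.nr 1168 512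
  .s1 (.nx 1732 915 (.nx 1219 52 (.lx (.lp 41 19 257)) (.nr 1731 4097 (.la (.ls 37 31 1632)) .out))
  (.nr 2244 2049 (.la (.lg 2 false 1 16 16 29 600)) .out))) .out) .out))) (.na 2436 4096 (.na 2352
  2048 (.nx 2351 103 (.nr 2350 8193 (.nr 2248 1024 .s1 (.lx (.lp 41 29 513))) .out) .out) (.nx 2435
  82 (.nr 2434 8193 (.nr 2353 2048 .s1 (.lx (.lp 16 0 1025))) .out) .out)) (.na 2520 8193 (.nx 2519
  82 (.nr 2518 16385 (.nr 2437 4096 .s1 (.lx (.lp 41 29 2049))) .out) .out) .out)))))))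

theorem c70 :
    OkQ ckI L8 156 12 165 0 34359738368 1 1099511627776 ∧
    OkQ ckI L3 23 1 1099511627776 0 34359738368 1 1099511627776 := by
  refine ⟨?_, ?_⟩
  · refine fin 312 1211 T70_0 ?_
    refine jn 6 (by decide +kernel) ?_
    refine jn 10 (by decide +kernel) ?_
    refine jn 13 (by decide +kernel) ?_
    refine jn 16 (by decide +kernel) ?_
    refine jn 21 (by decide +kernel) ?_
    refine jn 31 (by decide +kernel) ?_
    refine jn 38 (by decide +kernel) ?_
    refine jn 52 (by decide +kernel) ?_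
    refine jn 59 (by decide +kernel) ?_
    refine jn 77 (by decide +kernel) ?_
    refine jn 93 (by decide +kernel) ?_
    refine jn 96 (by decide +kernel) ?_
    refine jn 99 (by decide +kernel) ?_
    refine jn 100 (by decide +kernel) ?_
    refine jn 106 (by decide +kernel) ?_
    refine jn 114 (by decide +kernel) ?_
    refine jn 129 (by decide +kernel) ?_
    refine jn 136 (by decide +kernel) ?_
    refine jn 137 (by decide +kernel) ?_
    refine jn 138 (by decide +kernel) ?_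
    refine jn 139 (by decide +kernel) ?_
    refine jn 140 (by decide +kernel) ?_
    refine jn 141 (by decide +kernel) ?_
    refine jn 142 (by decide +kernel) ?_
    refine jn 143 (by decide +kernel) ?_
    refine jn 144 (by decide +kernel) ?_
    refine jn 145 (by decide +kernel) ?_
    refine jn 146 (by decide +kernel) ?_
    refine jn 147 (by decide +kernel) ?_
    refine jn 148 (by decide +kernel) ?_
    refine jn 149 (by decide +kernel) ?_
    refine jn 150 (by decide +kernel) ?_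
    refine jn 151 (by decide +kernel) ?_
    refine jn 152 (by decide +kernel) ?_
    refine jn 153 (by decide +kernel) ?_
    refine jn 154 (by decide +kernel) ?_
    refine jn 155 (by decide +kernel) ?_
    refine jn 156 (by decide +kernel) ?_
    refine jn 162 (by decide +kernel) ?_
    refine jn 166 (by decide +kernel) ?_
    refine jn 174 (by decide +kernel) ?_
    refine jn 181 (by decide +kernel) ?_
    refine jn 183 (by decide +kernel) ?_
    refine jn 192 (by decide +kernel) ?_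
    refine jn 193 (by decide +kernel) ?_
    refine jn 194 (by decide +kernel) ?_
    refine jn 195 (by decide +kernel) ?_
    refine jn 196 (by decide +kernel) ?_
    refine jn 197 (by decide +kernel) ?_
    refine jn 198 (by decide +kernel) ?_
    refine jn 199 (by decide +kernel) ?_
    refine jn 200 (by decide +kernel) ?_
    refine jn 201 (by decide +kernel) ?_
    refine jn 202 (by decide +kernel) ?_
    refine jn 204 (by decide +kernel) ?_
    refine jn 206 (by decide +kernel) ?_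
    refine jn 212 (by decide +kernel) ?_
    refine jn 214 (by decide +kernel) ?_
    refine jn 218 (by decide +kernel) ?_
    refine jn 231 (by decide +kernel) ?_
    refine jn 239 (by decide +kernel) ?_
    refine jn 247 (by decide +kernel) ?_
    refine jn 254 (by decide +kernel) ?_
    refine jn 270 (by decide +kernel) ?_
    refine jn 273 (by decide +kernel) ?_
    refine jn 280 (by decide +kernel) ?_
    refine jn 287 (by decide +kernel) ?_
    refine jn 301 (by decide +kernel) ?_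
    refine jn 303 (by decide +kernel) ?_
    refine jn 310 (by decide +kernel) ?_
    refine jn 317 (by decide +kernel) ?_
    refine jn 339 (by decide +kernel) ?_
    refine jn 354 (by decide +kernel) ?_
    refine jn 361 (by decide +kernel) ?_
    refine jn 369 (by decide +kernel) ?_
    refine jn 377 (by decide +kernel) ?_
    refine jn 380 (by decide +kernel) ?_
    refine jn 381 (by decide +kernel) ?_
    refine jn 382 (by decide +kernel) ?_
    refine jn 383 (by decide +kernel) ?_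
    refine jn 384 (by decide +kernel) ?_
    refine jn 385 (by decide +kernel) ?_
    refine jn 386 (by decide +kernel) ?_
    refine jn 388 (by decide +kernel) ?_
    refine jn 389 (by decide +kernel) ?_
    refine jn 390 (by decide +kernel) ?_
    refine jn 394 (by decide +kernel) ?_
    refine jn 399 (by decide +kernel) ?_
    refine jn 400 (by decide +kernel) ?_
    refine jn 413 (by decide +kernel) ?_
    refine jn 418 (by decide +kernel) ?_
    refine jn 435 (by decide +kernel) ?_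
    refine jn 452 (by decide +kernel) ?_
    refine jn 453 (by decide +kernel) ?_
    refine jn 454 (by decide +kernel) ?_
    refine jn 455 (by decide +kernel) ?_
    refine jn 456 (by decide +kernel) ?_
    refine jn 461 (by decide +kernel) ?_
    refine jn 464 (by decide +kernel) ?_
    refine jn 477 (by decide +kernel) ?_
    refine jn 482 (by decide +kernel) ?_
    refine jn 496 (by decide +kernel) ?_
    refine jn 501 (by decide +kernel) ?_
    refine jn 511 (by decide +kernel) ?_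
    refine jn 512 (by decide +kernel) ?_
    refine jn 515 (by decide +kernel) ?_
    refine jn 519 (by decide +kernel) ?_
    refine jn 528 (by decide +kernel) ?_
    refine jn 534 (by decide +kernel) ?_
    refine jn 539 (by decide +kernel) ?_
    refine jn 549 (by decide +kernel) ?_
    refine jn 552 (by decide +kernel) ?_
    refine jn 556 (by decide +kernel) ?_
    refine jn 559 (by decide +kernel) ?_
    refine jn 560 (by decide +kernel) ?_
    refine jn 562 (by decide +kernel) ?_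
    refine jn 576 (by decide +kernel) ?_
    refine jn 581 (by decide +kernel) ?_
    refine jn 593 (by decide +kernel) ?_
    refine jn 598 (by decide +kernel) ?_
    refine jn 609 (by decide +kernel) ?_
    refine jn 612 (by decide +kernel) ?_
    refine jn 615 (by decide +kernel) ?_
    refine jn 618 (by decide +kernel) ?_
    refine jn 631 (by decide +kernel) ?_
    refine jn 640 (by decide +kernel) ?_
    refine jn 646 (by decide +kernel) ?_
    refine jn 649 (by decide +kernel) ?_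
    refine jn 652 (by decide +kernel) ?_
    refine jn 663 (by decide +kernel) ?_
    refine jn 672 (by decide +kernel) ?_
    refine jn 675 (by decide +kernel) ?_
    refine jn 676 (by decide +kernel) ?_
    refine jn 677 (by decide +kernel) ?_
    refine jn 679 (by decide +kernel) ?_
    refine jn 681 (by decide +kernel) ?_
    refine jn 682 (by decide +kernel) ?_
    refine jn 683 (by decide +kernel) ?_
    refine jn 684 (by decide +kernel) ?_
    refine jn 698 (by decide +kernel) ?_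
    refine jn 710 (by decide +kernel) ?_
    refine jn 720 (by decide +kernel) ?_
    refine jn 728 (by decide +kernel) ?_
    refine jn 744 (by decide +kernel) ?_
    refine jn 762 (by decide +kernel) ?_
    refine jn 775 (by decide +kernel) ?_
    refine jn 784 (by decide +kernel) ?_
    refine jn 785 (by decide +kernel) ?_
    refine jn 786 (by decide +kernel) ?_
    refine jn 787 (by decide +kernel) ?_
    refine jn 796 (by decide +kernel) ?_
    refine jn 805 (by decide +kernel) ?_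
    refine jn 819 (by decide +kernel) ?_
    refine jn 832 (by decide +kernel) ?_
    refine jn 843 (by decide +kernel) ?_
    refine jn 846 (by decide +kernel) ?_
    refine jn 859 (by decide +kernel) ?_
    refine jn 874 (by decide +kernel) ?_
    refine jn 884 (by decide +kernel) ?_
    refine jn 886 (by decide +kernel) ?_
    refine jn 888 (by decide +kernel) ?_
    refine jn 900 (by decide +kernel) ?_
    refine jn 904 (by decide +kernel) ?_
    refine jn 916 (by decide +kernel) ?_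
    refine jn 932 (by decide +kernel) ?_
    refine jn 943 (by decide +kernel) ?_
    refine jn 957 (by decide +kernel) ?_
    refine jn 970 (by decide +kernel) ?_
    refine jn 978 (by decide +kernel) ?_
    refine jn 985 (by decide +kernel) ?_
    refine jn 998 (by decide +kernel) ?_
    refine jn 1011 (by decide +kernel) ?_
    refine jn 1024 (by decide +kernel) ?_
    refine jn 1037 (by decide +kernel) ?_
    refine jn 1045 (by decide +kernel) ?_
    refine jn 1046 (by decide +kernel) ?_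
    refine jn 1047 (by decide +kernel) ?_
    refine jn 1048 (by decide +kernel) ?_
    refine jn 1058 (by decide +kernel) ?_
    refine jn 1068 (by decide +kernel) ?_
    refine jn 1078 (by decide +kernel) ?_
    refine jn 1090 (by decide +kernel) ?_
    refine jn 1100 (by decide +kernel) ?_
    refine jn 1116 (by decide +kernel) ?_
    refine jn 1122 (by decide +kernel) ?_
    refine jn 1137 (by decide +kernel) ?_
    refine jn 1150 (by decide +kernel) ?_
    refine jn 1161 (by decide +kernel) ?_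
    refine jn 1172 (by decide +kernel) ?_
    refine jn 1184 (by decide +kernel) ?_
    refine jn 1191 (by decide +kernel) ?_
    refine jn 1192 (by decide +kernel) ?_
    refine jn 1194 (by decide +kernel) ?_
    refine jn 1204 (by decide +kernel) ?_
    exact je (by decide +kernel)
  · refine fin 1656 2521 T70_1 ?_
    refine jn 3 (by decide +kernel) ?_
    refine jn 4 (by decide +kernel) ?_
    refine jn 5 (by decide +kernel) ?_
    refine jn 6 (by decide +kernel) ?_
    refine jn 7 (by decide +kernel) ?_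
    refine jn 8 (by decide +kernel) ?_
    refine jn 9 (by decide +kernel) ?_
    refine jn 10 (by decide +kernel) ?_
    refine jn 11 (by decide +kernel) ?_
    refine jn 12 (by decide +kernel) ?_
    refine jn 13 (by decide +kernel) ?_
    refine jn 14 (by decide +kernel) ?_
    refine jn 16 (by decide +kernel) ?_
    refine jn 17 (by decide +kernel) ?_
    refine jn 18 (by decide +kernel) ?_
    refine jn 22 (by decide +kernel) ?_
    refine jn 26 (by decide +kernel) ?_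
    refine jn 30 (by decide +kernel) ?_
    refine jn 37 (by decide +kernel) ?_
    refine jn 43 (by decide +kernel) ?_
    refine jn 50 (by decide +kernel) ?_
    refine jn 56 (by decide +kernel) ?_
    refine jn 80 (by decide +kernel) ?_
    refine jn 87 (by decide +kernel) ?_
    refine jn 101 (by decide +kernel) ?_
    refine jn 102 (by decide +kernel) ?_
    refine jn 103 (by decide +kernel) ?_
    refine jn 104 (by decide +kernel) ?_
    refine jn 105 (by decide +kernel) ?_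
    refine jn 106 (by decide +kernel) ?_
    refine jn 110 (by decide +kernel) ?_
    refine jn 113 (by decide +kernel) ?_
    refine jn 117 (by decide +kernel) ?_
    refine jn 120 (by decide +kernel) ?_
    refine jn 125 (by decide +kernel) ?_
    refine jn 127 (by decide +kernel) ?_
    refine jn 132 (by decide +kernel) ?_
    refine jn 147 (by decide +kernel) ?_
    refine jn 148 (by decide +kernel) ?_
    refine jn 149 (by decide +kernel) ?_
    refine jn 150 (by decide +kernel) ?_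
    refine jn 151 (by decide +kernel) ?_
    refine jn 152 (by decide +kernel) ?_
    refine jn 153 (by decide +kernel) ?_
    refine jn 154 (by decide +kernel) ?_
    refine jn 155 (by decide +kernel) ?_
    refine jn 156 (by decide +kernel) ?_
    refine jn 157 (by decide +kernel) ?_
    refine jn 158 (by decide +kernel) ?_
    refine jn 159 (by decide +kernel) ?_
    refine jn 160 (by decide +kernel) ?_
    refine jn 161 (by decide +kernel) ?_
    refine jn 162 (by decide +kernel) ?_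
    refine jn 165 (by decide +kernel) ?_
    refine jn 172 (by decide +kernel) ?_
    refine jn 173 (by decide +kernel) ?_
    refine jn 174 (by decide +kernel) ?_
    refine jn 175 (by decide +kernel) ?_
    refine jn 176 (by decide +kernel) ?_
    refine jn 177 (by decide +kernel) ?_
    refine jn 190 (by decide +kernel) ?_
    refine jn 191 (by decide +kernel) ?_
    refine jn 192 (by decide +kernel) ?_
    refine jn 193 (by decide +kernel) ?_
    refine jn 194 (by decide +kernel) ?_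
    refine jn 195 (by decide +kernel) ?_
    refine jn 196 (by decide +kernel) ?_
    refine jn 198 (by decide +kernel) ?_
    refine jn 200 (by decide +kernel) ?_
    refine jn 201 (by decide +kernel) ?_
    refine jn 203 (by decide +kernel) ?_
    refine jn 205 (by decide +kernel) ?_
    refine jn 207 (by decide +kernel) ?_
    refine jn 215 (by decide +kernel) ?_
    refine jn 216 (by decide +kernel) ?_
    refine jn 217 (by decide +kernel) ?_
    refine jn 218 (by decide +kernel) ?_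
    refine jn 219 (by decide +kernel) ?_
    refine jn 220 (by decide +kernel) ?_
    refine jn 221 (by decide +kernel) ?_
    refine jn 222 (by decide +kernel) ?_
    refine jn 223 (by decide +kernel) ?_
    refine jn 224 (by decide +kernel) ?_
    refine jn 226 (by decide +kernel) ?_
    refine jn 227 (by decide +kernel) ?_
    refine jn 235 (by decide +kernel) ?_
    refine jn 236 (by decide +kernel) ?_
    refine jn 237 (by decide +kernel) ?_
    refine jn 238 (by decide +kernel) ?_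
    refine jn 239 (by decide +kernel) ?_
    refine jn 240 (by decide +kernel) ?_
    refine jn 241 (by decide +kernel) ?_
    refine jn 242 (by decide +kernel) ?_
    refine jn 243 (by decide +kernel) ?_
    refine jn 244 (by decide +kernel) ?_
    refine jn 245 (by decide +kernel) ?_
    refine jn 246 (by decide +kernel) ?_
    refine jn 247 (by decide +kernel) ?_
    refine jn 248 (by decide +kernel) ?_
    refine jn 249 (by decide +kernel) ?_
    refine jn 250 (by decide +kernel) ?_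
    refine jn 251 (by decide +kernel) ?_
    refine jn 260 (by decide +kernel) ?_
    refine jn 261 (by decide +kernel) ?_
    refine jn 262 (by decide +kernel) ?_
    refine jn 263 (by decide +kernel) ?_
    refine jn 264 (by decide +kernel) ?_
    refine jn 266 (by decide +kernel) ?_
    refine jn 267 (by decide +kernel) ?_
    refine jn 269 (by decide +kernel) ?_
    refine jn 277 (by decide +kernel) ?_
    refine jn 278 (by decide +kernel) ?_
    refine jn 279 (by decide +kernel) ?_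
    refine jn 280 (by decide +kernel) ?_
    refine jn 281 (by decide +kernel) ?_
    refine jn 285 (by decide +kernel) ?_
    refine jn 286 (by decide +kernel) ?_
    refine jn 287 (by decide +kernel) ?_
    refine jn 288 (by decide +kernel) ?_
    refine jn 289 (by decide +kernel) ?_
    refine jn 290 (by decide +kernel) ?_
    refine jn 291 (by decide +kernel) ?_
    refine jn 292 (by decide +kernel) ?_
    refine jn 293 (by decide +kernel) ?_
    refine jn 302 (by decide +kernel) ?_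
    refine jn 303 (by decide +kernel) ?_
    refine jn 304 (by decide +kernel) ?_
    refine jn 305 (by decide +kernel) ?_
    refine jn 307 (by decide +kernel) ?_
    refine jn 309 (by decide +kernel) ?_
    refine jn 318 (by decide +kernel) ?_
    refine jn 319 (by decide +kernel) ?_
    refine jn 320 (by decide +kernel) ?_
    refine jn 321 (by decide +kernel) ?_
    refine jn 322 (by decide +kernel) ?_
    refine jn 323 (by decide +kernel) ?_
    refine jn 324 (by decide +kernel) ?_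
    refine jn 325 (by decide +kernel) ?_
    refine jn 326 (by decide +kernel) ?_
    refine jn 327 (by decide +kernel) ?_
    refine jn 335 (by decide +kernel) ?_
    refine jn 336 (by decide +kernel) ?_
    refine jn 337 (by decide +kernel) ?_
    refine jn 338 (by decide +kernel) ?_
    refine jn 349 (by decide +kernel) ?_
    refine jn 356 (by decide +kernel) ?_
    refine jn 357 (by decide +kernel) ?_
    refine jn 359 (by decide +kernel) ?_
    refine jn 360 (by decide +kernel) ?_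
    refine jn 366 (by decide +kernel) ?_
    refine jn 372 (by decide +kernel) ?_
    refine jn 374 (by decide +kernel) ?_
    refine jn 380 (by decide +kernel) ?_
    refine jn 382 (by decide +kernel) ?_
    refine jn 388 (by decide +kernel) ?_
    refine jn 390 (by decide +kernel) ?_
    refine jn 396 (by decide +kernel) ?_
    refine jn 397 (by decide +kernel) ?_
    refine jn 398 (by decide +kernel) ?_
    refine jn 405 (by decide +kernel) ?_
    refine jn 406 (by decide +kernel) ?_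
    refine jn 407 (by decide +kernel) ?_
    refine jn 411 (by decide +kernel) ?_
    refine jn 412 (by decide +kernel) ?_
    refine jn 413 (by decide +kernel) ?_
    refine jn 419 (by decide +kernel) ?_
    refine jn 432 (by decide +kernel) ?_
    refine jn 436 (by decide +kernel) ?_
    refine jn 437 (by decide +kernel) ?_
    refine jn 438 (by decide +kernel) ?_
    refine jn 443 (by decide +kernel) ?_
    refine jn 444 (by decide +kernel) ?_
    refine jn 454 (by decide +kernel) ?_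
    refine jn 460 (by decide +kernel) ?_
    refine jn 467 (by decide +kernel) ?_
    refine jn 472 (by decide +kernel) ?_
    refine jn 473 (by decide +kernel) ?_
    refine jn 474 (by decide +kernel) ?_
    refine jn 483 (by decide +kernel) ?_
    refine jn 495 (by decide +kernel) ?_
    refine jn 496 (by decide +kernel) ?_
    refine jn 497 (by decide +kernel) ?_
    refine jn 498 (by decide +kernel) ?_
    refine jn 509 (by decide +kernel) ?_
    refine jn 511 (by decide +kernel) ?_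
    refine jn 523 (by decide +kernel) ?_
    refine jn 529 (by decide +kernel) ?_
    refine jn 531 (by decide +kernel) ?_
    refine jn 542 (by decide +kernel) ?_
    refine jn 549 (by decide +kernel) ?_
    refine jn 553 (by decide +kernel) ?_
    refine jn 554 (by decide +kernel) ?_
    refine jn 555 (by decide +kernel) ?_
    refine jn 563 (by decide +kernel) ?_
    refine jn 567 (by decide +kernel) ?_
    refine jn 568 (by decide +kernel) ?_
    refine jn 569 (by decide +kernel) ?_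
    refine jn 577 (by decide +kernel) ?_
    refine jn 587 (by decide +kernel) ?_
    refine jn 593 (by decide +kernel) ?_
    refine jn 601 (by decide +kernel) ?_
    refine jn 613 (by decide +kernel) ?_
    refine jn 626 (by decide +kernel) ?_
    refine jn 645 (by decide +kernel) ?_
    refine jn 656 (by decide +kernel) ?_
    refine jn 663 (by decide +kernel) ?_
    refine jn 675 (by decide +kernel) ?_
    refine jn 683 (by decide +kernel) ?_
    refine jn 707 (by decide +kernel) ?_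
    refine jn 725 (by decide +kernel) ?_
    refine jn 744 (by decide +kernel) ?_
    refine jn 756 (by decide +kernel) ?_
    refine jn 769 (by decide +kernel) ?_
    refine jn 787 (by decide +kernel) ?_
    refine jn 799 (by decide +kernel) ?_
    refine jn 806 (by decide +kernel) ?_
    refine jn 825 (by decide +kernel) ?_
    refine jn 838 (by decide +kernel) ?_
    refine jn 863 (by decide +kernel) ?_
    refine jn 876 (by decide +kernel) ?_
    refine jn 922 (by decide +kernel) ?_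
    refine jn 932 (by decide +kernel) ?_
    refine jn 941 (by decide +kernel) ?_
    refine jn 952 (by decide +kernel) ?_
    refine jn 965 (by decide +kernel) ?_
    refine jn 966 (by decide +kernel) ?_
    refine jn 981 (by decide +kernel) ?_
    refine jn 991 (by decide +kernel) ?_
    refine jn 1001 (by decide +kernel) ?_
    refine jn 1004 (by decide +kernel) ?_
    refine jn 1021 (by decide +kernel) ?_
    refine jn 1025 (by decide +kernel) ?_
    refine jn 1029 (by decide +kernel) ?_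
    refine jn 1034 (by decide +kernel) ?_
    refine jn 1046 (by decide +kernel) ?_
    refine jn 1062 (by decide +kernel) ?_
    refine jn 1070 (by decide +kernel) ?_
    refine jn 1085 (by decide +kernel) ?_
    refine jn 1096 (by decide +kernel) ?_
    refine jn 1117 (by decide +kernel) ?_
    refine jn 1121 (by decide +kernel) ?_
    refine jn 1131 (by decide +kernel) ?_
    refine jn 1145 (by decide +kernel) ?_
    refine jn 1152 (by decide +kernel) ?_
    refine jn 1168 (by decide +kernel) ?_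
    refine jn 1259 (by decide +kernel) ?_
    refine jn 1294 (by decide +kernel) ?_
    refine jn 1341 (by decide +kernel) ?_
    refine jn 1401 (by decide +kernel) ?_
    refine jn 1446 (by decide +kernel) ?_
    refine jn 1495 (by decide +kernel) ?_
    refine jn 1551 (by decide +kernel) ?_
    refine jn 1616 (by decide +kernel) ?_
    refine jn 1674 (by decide +kernel) ?_
    refine jn 1732 (by decide +kernel) ?_
    refine jn 1767 (by decide +kernel) ?_
    refine jn 1788 (by decide +kernel) ?_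
    refine jn 1811 (by decide +kernel) ?_
    refine jn 1844 (by decide +kernel) ?_
    refine jn 1859 (by decide +kernel) ?_
    refine jn 1888 (by decide +kernel) ?_
    refine jn 1916 (by decide +kernel) ?_
    refine jn 1928 (by decide +kernel) ?_
    refine jn 1964 (by decide +kernel) ?_
    refine jn 1982 (by decide +kernel) ?_
    refine jn 2027 (by decide +kernel) ?_
    refine jn 2052 (by decide +kernel) ?_
    refine jn 2084 (by decide +kernel) ?_
    refine jn 2128 (by decide +kernel) ?_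
    refine jn 2156 (by decide +kernel) ?_
    refine jn 2181 (by decide +kernel) ?_
    refine jn 2213 (by decide +kernel) ?_
    refine jn 2318 (by decide +kernel) ?_
    exact je (by decide +kernel)

end Pool.Agent.MP_2339ce_nt.NR
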