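import Pool.Agent.MP_2339ce_nt.Q2.NC.L3
import Pool.Agent.MP_2339ce_nt.Q2.NC.L8
import Pool.Agent.MP_2339ce_nt.Q2.NC.L9
import Pool.Agent.MP_2339ce_nt.Q2.CkI

/-! Block NR: runs. -/

set_option autoImplicit false
set_option maxRecDepth 100000

noncomputable section

namespace Pool.Agent.MP_2339ce_nt.NR

open Q2.Top

def T75_0 : Ph :=
  (.na 655 5 (.na 299 3 (.na 298 2 (.nx 297 1321124 (.nr 296 881745 (.nx 273 660563 (.nx 103 17696
  (.nx 3 153 (.nx 2 152 (.nr 1 13 (.lg 0 false 1 47 47 5 0 1368) (.l1 .sk)) (.l1 .sk)) (.nr 80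
  92683 (.lg 0 false 77 101 109 16 0 13693680) (.nx 102 257 (.lg 0 false 22 89 89 11 0 30096)
  .out))) (.nr 272 77937 (.nr 136 695 (.lg 0 true 33 101 103 13 0 1053360) (.nr 163 4097 (.nr 149
  1219 (.lg 2 true 13 89 89 9 72235 17784) (.nx 162 524289 (.lg 2 true 13 101 103 9 32688 1244880)
  .out)) (.nx 271 416129 (.nx 229 32769 (.nx 196 24081 (.lg 1 false 33 101 109 13 50979 13693680)
  (.lg 1 false 33 101 109 13 37462 13693680)) (.nr 270 55110 (.nr 256 38969 (.nr 242 23172 (.lg 2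
  false 13 103 109 9 8223 13693680) (.nx 255 262145 (.lg 2 false 13 107 109 9 13792 13693680)
  .out)) (.nx 269 104033 (.lg 2 true 13 107 109 9 19482 13693680) .out)) .out)) .out))) .out)) (.nr
  295 129 (.lg 0 true 22 89 89 11 0 30096) .out)) .out) .out) .ne) (.na 486 4 (.nx 485 6658044 (.nr
  484 1482912 (.nx 302 153 (.nx 301 152 (.nr 300 33 (.lg 0 true 1 41 41 5 0 19152) (.l1 .sk)) (.l1
  .sk)) (.nr 473 131073 (.nx 431 524289 (.nx 357 27236 (.lg 0 false 55 97 107 17 0 13693680) (.nr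
  372 364 (.lg 0 true 15 83 83 16 0 6840) (.nx 430 262145 (.nr 382 2904 (.nr 377 1453 (.lg 2 true 5
  89 89 7 54734 6840) (.lg 2 true 5 83 89 7 13712 95760)) (.nx 412 82572 (.nx 402 57052 (.nx 392
  39420 (.lg 1 false 10 101 103 16 55660 1244880) (.lg 1 false 10 103 107 16 38456 13693680)) (.lg
  1 false 10 103 107 16 26571 13693680)) (.nr 429 110219 (.nx 417 104033 (.lg 1 true 5 103 107 7
  15442 1244880) (.nr 428 65537 (.lg 2 false 11 103 107 16 7295 13693680) .out)) .out))) .out)))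
  (.nr 472 129 (.nx 446 1664512 (.lg 0 true 15 83 83 16 0 6840) (.nr 471 13 (.lg 0 true 25 79 79 7
  0 6840) .out)) .out)) (.nx 483 257 (.lg 0 false 10 83 83 16 0 13680) .out))) .out) .out) (.nx 654
  13316087 (.nr 653 1246976 (.nx 488 152 (.nr 487 42 (.lg 0 true 1 41 41 9 0 95760) (.l1 .sk)) (.nx
  489 153 (.l1 .sk) (.nx 518 15141 (.nr 500 110219 (.lg 0 false 11 103 103 13 0 1053360) (.nx 517
  1627 (.nr 505 155873 (.lg 0 false 5 89 97 11 0 95760) (.nx 516 257 (.lg 0 false 11 83 83 13 0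
  30096) .out)) .out)) (.nr 652 131073 (.nx 603 1664512 (.nx 591 416129 (.nr 529 729 (.lg 0 true 11
  89 89 13 0 30096) (.nx 541 26007 (.nr 540 110219 (.lg 1 false 11 103 109 13 84212 13693680) .out)
  (.nx 563 52015 (.nx 552 36779 (.lg 1 false 11 101 107 13 58290 13693680) (.lg 1 false 11 101 107
  13 41218 13693680)) (.nr 568 2909 (.lg 2 true 5 89 97 11 43383 95760) (.nx 579 104033 (.lg 1 true
  11 103 107 13 29145 13693680) (.nr 590 92683 (.lg 2 false 11 101 107 13 10872 1053360) .out))))))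
  (.nr 602 183 (.lg 0 true 11 89 89 13 0 30096) .out)) (.nr 651 21 (.nx 625 6658044 (.lg 0 true 22
  83 83 11 0 30096) (.lg 0 true 26 83 83 11 0 35568)) .out)) .out)))) .out) .out))) (.na 756 8 (.na
  656 7 .ne (.nx 755 13316087 (.nr 754 262145 (.nx 659 153 (.nx 658 152 (.nr 657 69 (.lg 0 false 1
  31 31 9 0 19152) (.l1 .sk)) (.l1 .sk)) (.nx 723 1664512 (.nx 680 26007 (.nr 674 110219 (.lg 0
  false 15 97 103 16 0 1244880) (.nx 679 1627 (.lg 0 false 5 89 89 16 0 47880) .out)) (.nr 722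
  131073 (.nr 695 626 (.lg 0 true 15 83 89 16 0 47880) (.nx 721 524289 (.nx 700 52015 (.lg 1 false
  5 103 103 16 58290 1244880) (.nx 705 73561 (.lg 1 false 5 101 103 16 29145 1244880) (.nr 710 5389
  (.lg 2 true 5 89 97 16 63652 95760) (.nx 715 131073 (.lg 1 true 5 101 103 16 20608 1244880) (.nr
  720 77937 (.lg 2 false 5 97 101 16 7394 95760) .out))))) .out)) .out)) (.nr 753 47 (.lg 0 true 30
  83 83 16 0 95760) .out))) .out) .out)) (.na 858 9 (.nx 857 13316087 (.nr 856 623489 (.nx 781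
  26007 (.nx 758 152 (.nr 757 78 (.lg 0 true 1 31 31 9 0 2736) (.l1 .sk)) (.nx 759 153 (.l1 .sk)
  (.nr 769 110219 (.lg 0 false 10 101 103 13 0 1244880) (.nx 780 2582 (.nr 774 311745 (.lg 0 false
  5 89 89 13 0 13680) (.nx 779 814 (.lg 0 false 5 83 83 13 0 13680) .out)) .out)))) (.nr 855 131073
  (.nr 827 727 (.nx 796 1664512 (.lg 0 true 15 83 89 13 0 13680) (.nr 826 55 (.lg 0 true 30 79 79
  13 0 13680) .out)) (.nx 854 660563 (.nx 832 56180 (.lg 1 false 5 103 103 13 58290 1244880) (.nr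
  837 5806 (.lg 2 true 5 97 97 13 69055 95760) (.nx 848 131073 (.nx 842 82572 (.lg 1 false 5 101
  103 13 26984 1244880) (.nr 847 110219 (.lg 1 true 5 97 101 13 15442 95760) .out)) (.nr 853 65537
  (.lg 2 false 5 89 97 13 8647 13680) .out)))) .out)) .out)) .out) .out) (.nx 935 13316087 (.nr 934
  623489 (.nx 860 152 (.nr 859 87 (.lg 0 true 1 31 31 7 0 13680) (.l1 .sk)) (.nx 861 153 (.l1 .sk)
  (.nr 926 131073 (.nx 872 30928 (.lg 0 false 11 97 101 16 0 150480) (.nr 906 745 (.nx 883 1664512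
  (.lg 0 true 11 83 83 16 0 15048) (.nr 905 65 (.lg 0 true 22 83 83 16 0 30096) .out)) (.nx 925
  524289 (.nr 907 1527 (.lg 2 false 1 83 83 7 53485 13680) (.nx 914 46340 (.lg 1 false 7 89 97 16
  49015 95760) (.lg 2 false 11 103 107 16 32714 13693680))) .out))) (.nx 933 1627 (.lg 0 false 7 83
  89 16 0 9576) .out)))) .out) .out))))

def T75_1 : Ph :=
  (.na 813 140 (.na 491 83 (.na 281 53 (.na 165 36 (.na 111 32 (.na 34 29 (.nx 33 2097153 (.nr 32
  1048577 (.nr 1 24 .s1 (.nx 4 217 (.nx 3 216 (.nr 2 302 (.lg 0 false 1 31 31 13 0 1008) (.l1 .sk))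
  (.l1 .sk)) (.nx 5 324 (.l1 (.ls 83 41 2070)) (.nr 31 524289 (.nr 29 370729 (.nr 23 131073 (.nx 10
  52017 (.lg 0 false 5 89 97 23 0 5040) (.nr 22 92683 (.nx 18 524289 (.nr 12 885 (.lg 0 true 2 79
  79 19 0 1008) (.nx 17 330282 (.lg 2 false 5 97 103 23 41663 720720) .out)) (.nr 21 129 (.lg 0
  true 3 71 71 19 0 1008) .out)) .out)) (.nx 28 20644 (.nx 26 13005 (.lg 0 false 3 89 101 19 0
  5040) (.nr 27 185365 (.lg 0 true 1 89 89 13 0 5040) .out)) .out)) (.nx 30 1292 (.lg 0 false 1 79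
  79 13 0 1008) .out)) .out)))) .out) .out) (.na 76 31 (.nx 75 2097153 (.nr 74 1048577 (.nr 35 26
  .s1 (.nx 38 217 (.nx 37 216 (.nr 36 323 (.lg 0 false 1 31 31 13 0 5040) (.l1 .sk)) (.l1 .sk))
  (.nx 39 324 (.l1 (.ls 83 31 1999)) (.nr 73 524289 (.nr 67 185365 (.nx 61 330282 (.nx 44 52017
  (.lg 0 false 5 97 97 16 0 5040) (.nr 60 92683 (.nr 49 22647 (.lg 0 true 5 89 89 16 0 360) (.nr 54
  65537 (.lg 2 true 5 73 73 16 29489 360) (.nx 59 262145 (.lg 0 true 5 97 101 16 0 5040) .out)))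
  .out)) (.nr 66 257 (.lg 0 true 5 71 71 16 0 360) .out)) (.nx 72 13005 (.lg 0 false 5 97 97 16 0
  5040) .out)) .out)))) .out) .out) (.nx 110 2097153 (.nr 109 1048577 (.nr 77 28 .s1 (.nx 81 324
  (.nx 79 216 (.nr 78 333 (.lg 0 true 1 23 23 13 0 720) (.l1 .sk)) (.nx 80 217 (.l1 .sk) (.l1 (.ls
  79 29 1870)))) (.nr 108 524289 (.nx 96 52017 (.nr 88 185365 (.lg 0 false 7 89 101 16 0 5040) (.nx
  95 13005 (.lg 0 false 7 89 97 16 0 5040) .out)) (.nr 107 92683 (.nr 103 957 (.lg 0 true 7 79 79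
  16 0 504) (.nx 106 330282 (.lg 2 false 3 97 97 16 41663 720) .out)) .out)) .out))) .out) .out)))
  (.na 112 33 .ne (.na 141 35 (.nx 140 2097153 (.nr 139 881745 (.nr 113 30 .s1 (.nx 116 217 (.nx
  115 216 (.nr 114 364 (.lg 0 true 1 29 29 16 0 55440) (.l1 .sk)) (.l1 .sk)) (.nx 129 32769 (.nx
  117 324 (.l1 (.ls 73 37 1757)) (.nr 128 623489 (.nr 122 155873 (.lg 0 false 5 89 89 19 0 55440)
  (.nx 127 13005 (.lg 0 false 5 83 89 19 0 3960) .out)) .out)) (.nr 138 65537 (.nr 134 364 (.lg 0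
  true 5 71 71 19 0 3960) (.nx 137 208065 (.lg 2 false 3 97 97 17 61734 55440) .out)) .out))))
  .out) .out) (.nx 164 2097153 (.nr 163 881745 (.nr 142 32 .s1 (.nx 145 217 (.nx 144 216 (.nr 143
  375 (.lg 0 false 1 31 31 16 0 5040) (.l1 .sk)) (.l1 .sk)) (.nx 146 324 (.l1 (.ls 79 37 1656))
  (.nr 162 623489 (.nr 158 155873 (.nx 149 32769 (.lg 0 false 3 89 97 17 0 5040) (.nr 157 65537
  (.nr 154 1097 (.nx 150 262145 (.lg 0 false 1 79 79 16 0 5040) (.nr 153 217 (.lg 0 true 3 71 71 17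
  0 2520) .out)) (.nx 156 208065 (.lg 2 false 2 89 97 17 46810 5040) .out)) .out)) (.nx 161 13005
  (.lg 0 false 3 89 97 17 0 5040) .out)) .out)))) .out) .out)))) (.na 234 45 (.na 192 40 (.nx 191
  2097153 (.nr 190 881745 (.nr 166 33 .s1 (.nx 169 217 (.nx 168 216 (.nr 167 416 (.lg 0 true 1 31
  37 19 0 5040) (.l1 .sk)) (.l1 .sk)) (.nx 170 324 (.l1 (.ls 83 41 1610)) (.nr 189 623489 (.nx 175
  13005 (.lg 0 false 5 89 101 29 0 5040) (.nr 188 155873 (.nx 177 26009 (.lg 0 false 2 89 97 23 0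
  5040) (.nr 187 77937 (.nr 185 55110 (.nr 183 27556 (.nr 181 1186 (.nx 178 262145 (.lg 0 true 1 79
  79 19 0 144) (.nr 180 217 (.lg 0 true 2 73 73 23 0 144) .out)) (.nx 182 208065 (.lg 2 false 1 89
  97 19 24910 5040) .out)) (.nx 184 131073 (.lg 2 true 1 97 101 19 49624 5040) .out)) (.nx 186
  52017 (.lg 0 true 1 89 97 19 0 5040) .out)) .out)) .out)) .out)))) .out) .out) (.na 213 44 (.nx
  212 2097153 (.nr 211 881745 (.nr 193 38 .s1 (.nx 204 32769 (.nx 195 216 (.nr 194 458 (.lg 0 false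
  1 31 31 19 0 720) (.l1 .sk)) (.nx 196 217 (.l1 .sk) (.nx 197 324 (.l1 (.ls 79 41 1450)) (.nr 203
  623489 (.nr 199 155873 (.lg 0 false 2 97 101 19 0 55440) (.nx 202 13005 (.lg 0 false 3 97 101 23
  0 55440) .out)) .out)))) (.nr 210 65537 (.nr 207 458 (.lg 0 true 3 73 73 23 0 720) (.nx 209
  208065 (.lg 2 false 2 97 101 19 49064 55440) .out)) .out))) .out) .out) (.nx 233 2097153 (.nr 232
  881745 (.nr 214 42 .s1 (.nx 217 217 (.nx 216 216 (.nr 215 468 (.l1 (.ls 31 37 1063)) (.l1 .sk))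
  (.l1 .sk)) (.nx 225 32769 (.nx 218 324 (.l1 (.ls 83 41 1318)) (.nr 224 623489 (.nr 220 155873
  (.lg 0 false 2 97 101 23 0 55440) (.nx 223 13005 (.lg 0 false 3 97 101 23 0 55440) .out)) .out))
  (.nr 231 65537 (.nr 228 468 (.lg 0 true 3 79 79 23 0 1584) (.nx 230 208065 (.lg 2 false 2 97 101
  23 48015 55440) .out)) .out)))) .out) .out))) (.na 258 46 (.nx 257 2097153 (.nr 256 881745 (.nr
  235 43 .s1 (.nx 238 217 (.nx 237 216 (.nr 236 479 (.l1 (.ls 31 31 1039)) (.l1 .sk)) (.l1 .sk))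
  (.nx 253 262145 (.nx 247 32769 (.nx 239 324 (.l1 (.ls 79 37 1289)) (.nr 246 623489 (.nr 241
  155873 (.lg 0 false 2 97 97 19 0 7920) (.nx 245 13005 (.nr 243 524289 (.lg 0 false 2 97 101 19 0
  55440) (.nx 244 8192 .out (.lg 0 false 1 83 83 17 0 360))) .out)) .out)) (.nr 252 65537 (.nr 248
  1319 (.lg 0 true 1 73 73 17 0 360) (.nx 251 208065 (.nr 249 27556 (.lg 2 false 1 83 83 17 19771
  360) (.nx 250 131073 (.lg 2 true 1 97 97 17 46810 7920) .out)) .out)) .out)) (.nr 255 217 (.lg 0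
  true 2 73 73 19 0 720) .out)))) .out) .out) (.na 259 49 .ne (.nx 280 2097153 (.nr 279 881745 (.nr
  260 47 .s1 (.nx 264 324 (.nx 262 216 (.nr 261 552 (.l1 (.ls 23 29 955)) (.l1 .sk)) (.nx 263 217
  (.l1 .sk) (.l1 (.ls 73 29 1184)))) (.nr 278 741457 (.nx 269 26009 (.lg 0 false 5 89 97 17 0 5040)
  (.nr 277 65537 (.nr 274 552 (.lg 0 true 5 71 71 17 0 2520) (.nx 276 208065 (.lg 2 true 2 89 89 16
  58977 5040) .out)) .out)) .out))) .out) .out))))) (.na 403 64 (.na 344 59 (.na 302 55 (.nx 301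
  2097153 (.nr 300 881745 (.nr 282 51 .s1 (.nx 291 32769 (.nx 283 324 (.l1 (.ls 73 29 1983)) (.nr
  290 741457 (.lg 0 false 7 89 97 16 0 5040) .out)) (.nr 299 46342 (.nr 296 573 (.lg 0 true 5 71 71
  16 0 360) (.nx 298 208065 (.lg 2 false 2 79 79 16 39217 144) .out)) .out))) .out) .out) (.na 325
  56 (.nx 324 2097153 (.nr 323 881745 (.nr 303 54 .s1 (.nx 320 208065 (.nx 306 217 (.nx 305 216
  (.nr 304 583 (.l1 (.ls 31 31 851)) (.l1 .sk)) (.l1 .sk)) (.nx 307 324 (.l1 (.ls 79 31 1055)) (.nr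
  319 741457 (.nr 315 155873 (.nx 309 32769 (.lg 0 true 2 89 89 17 0 55440) (.nr 314 46342 (.nr 311
  27556 (.lg 0 false 2 89 89 17 0 55440) (.nx 313 131073 (.lg 2 false 2 73 73 17 33145 7920) .out))
  .out)) (.nx 318 16385 (.lg 0 false 3 97 101 19 0 55440) .out)) .out))) (.nr 322 257 (.lg 0 true 2
  73 73 17 0 7920) .out))) .out) .out) (.nx 343 2097153 (.nr 342 881745 (.nr 326 55 .s1 (.nx 329
  217 (.nx 328 216 (.nr 327 614 (.l1 (.ls 31 37 836)) (.l1 .sk)) (.l1 .sk)) (.nx 336 32769 (.nx 330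
  324 (.l1 (.ls 79 37 1036)) (.nr 335 741457 (.nr 332 155873 (.lg 0 false 2 97 97 23 0 55440) (.nx
  334 16385 (.lg 0 false 2 97 101 23 0 55440) .out)) .out)) (.nr 341 46342 (.nr 339 614 (.lg 0 true
  3 73 73 23 0 1008) (.nx 340 208065 (.lg 2 true 1 89 89 19 36598 1008) .out)) .out)))) .out)
  .out))) (.na 365 60 (.nx 364 2097153 (.nr 363 881745 (.nr 345 58 .s1 (.nx 354 32769 (.nx 346 324
  (.l1 (.ls 73 29 1782)) (.nr 353 741457 (.lg 0 false 7 89 97 17 0 5040) .out)) (.nr 362 46342 (.nr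
  359 625 (.lg 0 true 5 71 71 16 0 360) (.nx 361 208065 (.lg 2 false 2 79 79 16 35954 144) .out))
  .out))) .out) .out) (.na 384 63 (.nx 383 2097153 (.nr 382 881745 (.nr 366 59 .s1 (.nx 369 217
  (.nx 368 216 (.nr 367 656 (.l1 (.ls 31 41 780)) (.l1 .sk)) (.l1 .sk)) (.nx 376 32769 (.nx 370 324
  (.l1 (.ls 79 41 967)) (.nr 375 741457 (.nr 372 155873 (.lg 0 false 2 83 89 29 0 720) (.nx 374
  16385 (.lg 0 false 2 89 89 29 0 720) .out)) .out)) (.nr 381 46342 (.nr 379 656 (.lg 0 true 3 73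
  73 31 0 720) (.nx 380 208065 (.lg 2 true 1 83 83 23 34255 720) .out)) .out)))) .out) .out) (.nx
  402 2097153 (.nr 401 881745 (.nr 385 62 .s1 (.nx 388 217 (.nx 387 216 (.nr 386 666 (.l1 (.ls 31
  31 743)) (.l1 .sk)) (.l1 .sk)) (.nx 398 208065 (.nx 389 324 (.l1 (.ls 79 31 921)) (.nr 397 741457
  (.nx 394 32769 (.nr 391 155873 (.lg 0 false 2 89 97 23 0 5040) (.nx 393 16385 (.lg 0 false 2 97
  97 23 0 5040) .out)) (.nr 396 46342 (.nr 395 1689 (.lg 0 true 1 73 73 19 0 504) (.lg 2 false 1 89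
  89 19 33145 5040)) .out)) .out)) (.nr 400 257 (.lg 0 true 2 71 71 23 0 1008) .out)))) .out)
  .out)))) (.na 438 75 (.na 404 72 .ne (.na 421 73 (.nx 420 2097153 (.nr 419 2097153 (.nr 405 71
  .s1 (.nx 407 216 (.nr 406 760 (.l1 (.ls 31 37 650)) (.l1 .sk)) (.nx 408 217 (.l1 .sk) (.nx 414
  32769 (.nx 412 20644 (.nx 409 324 (.l1 (.ls 83 37 806)) (.nr 411 1048577 (.lg 0 false 2 97 101 29
  0 5040) .out)) (.nr 413 65537 (.lg 0 false 1 79 79 23 0 144) .out)) (.nr 418 32769 (.nr 416 513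
  (.lg 0 true 2 73 73 29 0 144) (.nx 417 131073 (.lg 2 false 1 79 79 23 27595 144) .out)) .out)))))
  .out) .out) (.nx 437 2097153 (.nr 436 2097153 (.nr 422 72 .s1 (.nx 432 131073 (.nx 429 20644 (.nx
  423 324 (.l1 (.ls 71 29 1441)) (.nr 428 1048577 (.lg 0 false 5 83 89 16 0 360) .out)) (.nr 431
  65537 (.lg 0 true 2 89 89 16 0 720) .out)) (.nr 435 513 (.lg 0 true 3 61 61 16 0 72) .out)))
  .out) .out))) (.na 473 79 (.na 453 77 (.nx 452 2097153 (.nr 451 2097153 (.nr 439 74 .s1 (.nx 440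
  324 (.l1 (.ls 73 37 1402)) (.nr 450 1048577 (.nr 446 65537 (.nx 442 131073 (.lg 0 false 2 83 83
  17 0 720) (.nr 445 513 (.lg 0 true 3 61 61 19 0 360) .out)) (.nx 449 20644 (.lg 0 false 3 83 83
  19 0 360) .out)) .out))) .out) .out) (.nx 472 2097153 (.nr 471 2097153 (.nr 454 76 .s1 (.nx 457
  217 (.nx 456 216 (.nr 455 822 (.l1 (.ls 31 29 608)) (.l1 .sk)) (.l1 .sk)) (.nx 466 32769 (.nx 464
  20644 (.nx 458 324 (.l1 (.ls 83 31 754)) (.nr 463 1048577 (.lg 0 false 5 89 97 23 0 55440) .out))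
  (.nr 465 65537 (.lg 0 false 1 79 79 17 0 5544) .out)) (.nr 470 32769 (.nr 468 513 (.lg 0 true 2
  73 73 19 0 11088) (.nx 469 131073 (.lg 2 false 1 79 79 17 27595 5544) .out)) .out)))) .out)
  .out)) (.na 490 81 (.nx 489 2097153 (.nr 488 2097153 (.nr 474 78 .s1 (.nx 484 131073 (.nx 481
  20644 (.nx 475 324 (.l1 (.ls 73 29 1331)) (.nr 480 1048577 (.lg 0 false 5 73 89 17 0 360) .out))
  (.nr 483 65537 (.lg 0 true 2 83 83 16 0 144) .out)) (.nr 487 513 (.lg 0 true 3 61 61 16 0 72)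
  .out))) .out) .out) (.lg 0 false 1 0 0 16 0 24)))))) (.na 678 108 (.na 576 97 (.na 542 88 (.na
  507 84 (.nx 506 2097153 (.nr 505 2097153 (.nr 492 82 .s1 (.nx 499 32769 (.nx 493 324 (.l1 (.ls 73
  29 1267)) (.nr 498 1048577 (.lg 0 false 5 97 97 17 0 5040) .out)) (.nr 504 32769 (.nr 502 513
  (.lg 0 true 3 61 61 16 0 72) (.nx 503 131073 (.lg 2 true 1 71 71 16 27595 72) .out)) .out)))
  .out) .out) (.na 525 87 (.nx 524 2097153 (.nr 523 2097153 (.nr 508 83 .s1 (.nx 511 217 (.nx 510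
  216 (.nr 509 906 (.l1 (.ls 31 41 558)) (.l1 .sk)) (.l1 .sk)) (.nx 512 324 (.l1 (.ls 83 41 692))
  (.nr 522 1048577 (.nx 517 32769 (.nx 515 20644 (.lg 0 false 3 89 97 31 0 5040) (.nr 516 65537
  (.lg 0 false 1 79 79 29 0 5040) .out)) (.nr 521 32769 (.nr 519 513 (.lg 0 true 2 71 71 31 0 1008)
  (.nx 520 131073 (.lg 2 true 1 79 79 29 27595 5040) .out)) .out)) .out)))) .out) .out) (.nx 541
  2097153 (.nr 540 2097153 (.nr 526 86 .s1 (.nx 536 131073 (.nx 533 20644 (.nx 527 324 (.l1 (.ls 79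
  37 1209)) (.nr 532 1048577 (.lg 0 false 5 83 83 19 0 360) .out)) (.nr 535 65537 (.lg 0 true 2 83
  83 17 0 144) .out)) (.nr 539 513 (.lg 0 true 3 61 61 17 0 72) .out))) .out) .out))) (.na 559 91
  (.nx 558 2097153 (.nr 557 2097153 (.nr 543 87 .s1 (.nx 546 217 (.nx 545 216 (.nr 544 947 (.l1
  (.ls 31 31 533)) (.l1 .sk)) (.l1 .sk)) (.nx 550 20644 (.nx 547 324 (.l1 (.ls 83 37 660)) (.nr 549
  1048577 (.lg 0 false 2 97 97 29 0 7920) .out)) (.nr 556 65537 (.nx 551 32769 (.lg 0 false 1 79 79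
  23 0 1584) (.nr 555 32769 (.nr 553 513 (.lg 0 true 2 71 71 29 0 1584) (.nx 554 131073 (.lg 2 true
  1 79 79 23 27595 1584) .out)) .out)) .out)))) .out) .out) (.na 560 93 .ne (.nx 575 2097153 (.nr
  574 2097153 (.nr 561 92 .s1 (.nx 568 20644 (.nx 562 324 (.l1 (.ls 73 29 1131)) (.nr 567 1048577
  (.lg 0 false 5 83 83 19 0 360) .out)) (.nr 573 65537 (.nx 570 131073 (.lg 0 true 2 83 83 17 0
  144) (.nr 572 513 (.lg 0 true 2 67 67 17 0 144) .out)) .out))) .out) .out)))) (.na 624 101 (.na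
  592 99 (.nx 591 2097153 (.nr 590 2097153 (.nr 577 96 .s1 (.nx 587 131073 (.nx 584 20644 (.nx 578
  324 (.l1 (.ls 73 23 1085)) (.nr 583 1048577 (.lg 0 false 5 79 83 17 0 5040) .out)) (.nr 586 65537
  (.lg 0 true 2 79 79 16 0 144) .out)) (.nr 589 513 (.lg 0 true 2 61 61 16 0 144) .out))) .out)
  .out) (.na 609 100 (.nx 608 2097153 (.nr 607 2097153 (.nr 593 98 .s1 (.nx 596 217 (.nx 595 216
  (.nr 594 1041 (.l1 (.ls 37 29 474)) (.l1 .sk)) (.l1 .sk)) (.nx 597 324 (.l1 (.ls 83 31 587)) (.nr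
  606 1048577 (.nx 603 131073 (.nx 599 20644 (.lg 0 false 2 97 101 23 0 55440) (.nr 602 65537 (.nr
  600 32769 (.lg 0 true 1 97 97 23 0 55440) (.nx 601 32769 (.lg 0 false 1 79 79 23 0 55440) .out))
  .out)) (.nr 605 513 (.lg 0 true 2 73 73 23 0 1584) .out)) .out)))) .out) .out) (.nx 623 2097153
  (.nr 622 2097153 (.nr 610 99 .s1 (.nx 619 131073 (.nx 612 216 (.nr 611 1051 (.l1 (.ls 31 31 469))
  (.l1 .sk)) (.nx 613 217 (.l1 .sk) (.nx 614 324 (.l1 (.ls 79 31 581)) (.nr 618 1048577 (.nx 616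
  20644 (.lg 0 false 2 89 89 29 0 720) (.nr 617 65537 (.lg 0 false 1 89 89 23 0 720) .out))
  .out)))) (.nr 621 513 (.lg 0 true 2 71 71 29 0 720) .out))) .out) .out))) (.na 652 105 (.na 638
  103 (.nx 637 2097153 (.nr 636 2097153 (.nr 625 100 .s1 (.nx 626 324 (.l1 (.ls 71 23 1042)) (.nr
  635 1048577 (.nr 631 65537 (.nx 628 131073 (.lg 0 true 2 79 79 16 0 720) (.nr 630 513 (.lg 0 true
  2 61 61 16 0 144) .out)) (.nx 634 20644 (.lg 0 false 3 83 83 16 0 720) .out)) .out))) .out) .out)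
  (.nx 651 2097153 (.nr 650 2097153 (.nr 639 102 .s1 (.nx 647 131073 (.nx 640 324 (.l1 (.ls 71 23
  1022)) (.nr 646 1048577 (.nr 642 65537 (.lg 0 true 2 79 79 16 0 144) (.nx 645 20644 (.lg 0 false
  3 79 79 16 0 72) .out)) .out)) (.nr 649 513 (.lg 0 true 2 61 61 16 0 144) .out))) .out) .out))
  (.na 664 107 (.nx 663 2097153 (.nr 662 2097153 (.nr 653 104 .s1 (.nx 654 324 (.l1 (.ls 79 37
  1002)) (.nr 661 1048577 (.nx 658 131073 (.nx 656 20644 (.lg 0 false 2 89 97 29 0 5040) (.nr 657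
  65537 (.lg 0 false 1 89 89 23 0 5040) .out)) (.nr 660 513 (.lg 0 true 2 71 71 29 0 5040) .out))
  .out))) .out) .out) (.nx 677 2097153 (.nr 676 2097153 (.nr 665 106 .s1 (.nx 673 131073 (.nx 666
  324 (.l1 (.ls 71 23 984)) (.nr 672 1048577 (.nr 668 65537 (.lg 0 true 2 79 79 16 0 144) (.nx 671
  20644 (.lg 0 false 3 79 79 16 0 72) .out)) .out)) (.nr 675 513 (.lg 0 true 2 61 61 16 0 144)
  .out))) .out) .out))))) (.na 756 127 (.na 716 121 (.na 692 116 (.nx 691 2097153 (.nr 690 2097153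
  (.nr 679 107 .s1 (.nx 682 217 (.nx 681 216 (.nr 680 1207 (.l1 (.ls 31 31 434)) (.l1 .sk)) (.l1
  .sk)) (.nx 688 131073 (.nx 686 20644 (.nx 683 324 (.l1 (.ls 79 37 538)) (.nr 685 1048577 (.lg 0
  false 2 89 97 31 0 720) .out)) (.nr 687 65537 (.lg 0 true 1 89 89 29 0 720) .out)) (.nr 689 513
  (.lg 0 true 1 67 67 29 0 144) .out)))) .out) .out) (.na 704 120 (.nx 703 2097153 (.nr 702 2097153
  (.nr 693 116 .s1 (.nx 699 131073 (.nx 694 324 (.l1 (.ls 79 37 907)) (.nr 698 1048577 (.nx 696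
  20644 (.lg 0 false 2 89 97 23 0 720) (.nr 697 65537 (.lg 0 false 1 89 89 19 0 720) .out)) .out))
  (.nr 701 513 (.lg 0 true 2 67 67 23 0 144) .out))) .out) .out) (.nx 715 2097153 (.nr 714 2097153
  (.nr 705 120 .s1 (.nx 706 324 (.l1 (.ls 83 41 877)) (.nr 713 1048577 (.nx 710 131073 (.nx 708
  20644 (.lg 0 false 2 97 97 31 0 55440) (.nr 709 65537 (.lg 0 false 1 97 97 29 0 55440) .out))
  (.nr 712 513 (.lg 0 true 2 71 71 31 0 720) .out)) .out))) .out) .out))) (.na 730 124 (.nx 729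
  2097153 (.nr 728 2097153 (.nr 717 121 .s1 (.nx 725 131073 (.nx 718 324 (.l1 (.ls 73 29 870)) (.nr
  724 1048577 (.nr 720 65537 (.lg 0 true 2 79 79 17 0 1584) (.nx 723 20644 (.lg 0 false 3 79 79 19
  0 792) .out)) .out)) (.nr 727 513 (.lg 0 true 2 61 61 17 0 1584) .out))) .out) .out) (.na 742 125
  (.nx 741 2097153 (.nr 740 2097153 (.nr 731 124 .s1 (.nx 737 131073 (.nx 735 20644 (.nx 732 324
  (.l1 (.ls 83 29 849)) (.nr 734 1048577 (.lg 0 false 2 97 97 23 0 5040) .out)) (.nr 736 65537 (.lg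
  0 false 1 89 89 19 0 144) .out)) (.nr 739 513 (.lg 0 true 2 67 67 23 0 144) .out))) .out) .out)
  (.nx 755 2097153 (.nr 754 2097153 (.nr 743 125 .s1 (.nx 751 131073 (.nx 744 324 (.l1 (.ls 73 29
  842)) (.nr 750 1048577 (.nr 746 65537 (.lg 0 true 2 79 79 17 0 720) (.nx 749 20644 (.lg 0 false 3
  83 83 17 0 5040) .out)) .out)) (.nr 753 513 (.lg 0 true 2 61 61 17 0 720) .out))) .out) .out))))
  (.na 785 132 (.na 770 128 (.nx 769 2097153 (.nr 768 2097153 (.nr 757 127 .s1 (.nx 758 324 (.l1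
  (.ls 71 23 829)) (.nr 767 1048577 (.nx 764 131073 (.nr 760 65537 (.lg 0 true 2 79 79 16 0 144)
  (.nx 763 20644 (.lg 0 false 3 79 79 17 0 72) .out)) (.nr 766 513 (.lg 0 true 2 59 59 16 0 144)
  .out)) .out))) .out) .out) (.na 771 131 .ne (.nx 784 1048577 (.nr 783 1482912 (.nr 772 131 .s1
  (.nx 775 217 (.nx 774 216 (.nr 773 1374 (.l1 (.ls 19 19 359)) (.l1 .sk)) (.l1 .sk)) (.nr 779
  65537 (.nx 777 131073 (.lg 0 true 2 73 73 16 0 144) (.nr 778 1025 (.lg 0 false 1 67 67 16 0 72)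
  .out)) (.nx 782 16385 (.lg 0 false 3 79 79 17 0 72) .out)))) .out) .out))) (.na 811 137 (.na 797
  135 (.nx 796 1048577 (.nr 795 1482912 (.nr 786 132 .s1 (.nx 789 217 (.nx 788 216 (.nr 787 1405
  (.l1 (.ls 31 37 356)) (.l1 .sk)) (.l1 .sk)) (.nr 792 65537 (.nx 790 131073 (.lg 0 false 1 97 97
  31 0 55440) (.nr 791 1025 (.lg 0 true 1 71 71 31 0 1584) .out)) (.nx 794 16385 (.lg 0 false 2 97
  97 31 0 55440) .out)))) .out) .out) (.nx 810 1048577 (.nr 809 1482912 (.nr 798 135 .s1 (.nx 801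
  217 (.nx 800 216 (.nr 799 1426 (.l1 (.ls 31 29 348)) (.l1 .sk)) (.l1 .sk)) (.nx 803 16385 (.lg 0
  false 2 89 97 29 0 5040) (.nr 808 65537 (.nx 804 32769 (.lg 0 false 1 73 73 23 0 360) (.nr 807
  16385 (.nr 805 1025 (.lg 0 true 1 71 71 23 0 360) (.nx 806 131073 (.lg 2 false 1 67 67 23 13811
  360) .out)) .out)) .out)))) .out) .out)) (.na 812 139 (.lg 0 false 1 0 0 16 0 24) (.lg 0 false 1
  0 0 16 0 24))))))) (.na 1054 200 (.na 931 173 (.na 891 157 (.na 852 149 (.na 827 145 (.nx 826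
  1048577 (.nr 825 1482912 (.nr 814 140 .s1 (.nx 823 131073 (.nx 816 216 (.nr 815 1509 (.l1 (.ls 37
  37 336)) (.l1 .sk)) (.nx 817 217 (.l1 .sk) (.nx 819 16385 (.lg 0 false 2 89 97 37 0 5040) (.nr
  822 65537 (.nr 820 16385 (.lg 0 true 1 83 83 31 0 5040) (.nx 821 32769 (.lg 0 false 1 79 79 31 0
  5040) .out)) .out)))) (.nr 824 1025 (.lg 0 true 1 73 73 31 0 5040) .out))) .out) .out) (.na 839
  147 (.nx 838 1048577 (.nr 837 1482912 (.nr 828 145 .s1 (.nx 831 217 (.nx 830 216 (.nr 829 1530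
  (.l1 (.ls 23 19 324)) (.l1 .sk)) (.l1 .sk)) (.nx 835 131073 (.nx 833 16385 (.lg 0 false 2 89 89
  19 0 720) (.nr 834 65537 (.lg 0 false 1 89 89 17 0 360) .out)) (.nr 836 1025 (.lg 0 true 1 71 71
  17 0 360) .out)))) .out) .out) (.nx 851 1048577 (.nr 850 1482912 (.nr 840 147 .s1 (.nx 848 131073
  (.nx 842 216 (.nr 841 1551 (.l1 (.ls 23 29 320)) (.l1 .sk)) (.nx 843 217 (.l1 .sk) (.nr 844 65537
  (.lg 0 false 1 79 79 19 0 504) (.nx 847 16385 (.lg 0 false 3 79 79 23 0 504) .out)))) (.nr 849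
  1025 (.lg 0 false 1 67 67 19 0 5040) .out))) .out) .out))) (.na 866 151 (.nx 865 1048577 (.nr 864
  1482912 (.nr 853 149 .s1 (.nx 862 131073 (.nx 855 216 (.nr 854 1571 (.l1 (.ls 19 19 316)) (.l1
  .sk)) (.nx 856 217 (.l1 .sk) (.nr 858 65537 (.lg 0 true 2 73 73 16 0 144) (.nx 861 16385 (.lg 0
  false 3 73 73 17 0 72) .out)))) (.nr 863 1025 (.lg 0 false 1 61 61 16 0 72) .out))) .out) .out)
  (.na 879 155 (.nx 878 1048577 (.nr 877 1482912 (.nr 867 151 .s1 (.nx 869 216 (.nr 868 1613 (.l1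
  (.ls 19 19 311)) (.l1 .sk)) (.nx 870 217 (.l1 .sk) (.nx 875 131073 (.nr 871 65537 (.lg 0 false 1
  79 79 16 0 720) (.nx 874 16385 (.lg 0 false 3 73 73 17 0 72) .out)) (.nr 876 1025 (.lg 0 false 1
  61 61 16 0 72) .out))))) .out) .out) (.nx 890 1048577 (.nr 889 1482912 (.nr 880 155 .s1 (.nx 887
  131073 (.nx 882 216 (.nr 881 1634 (.l1 (.ls 29 19 304)) (.l1 .sk)) (.nx 883 217 (.l1 .sk) (.nr
  884 65537 (.lg 0 false 1 89 89 17 0 360) (.nx 886 16385 (.lg 0 false 2 97 97 19 0 55440) .out))))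
  (.nr 888 1025 (.lg 0 true 1 71 71 17 0 360) .out))) .out) .out)))) (.na 906 165 (.na 892 159 (.lg
  0 false 1 0 0 16 0 24) (.na 905 163 (.nx 904 1048577 (.nr 903 1482912 (.nr 893 159 .s1 (.nx 896
  217 (.nx 895 216 (.nr 894 1696 (.l1 (.ls 19 23 296)) (.l1 .sk)) (.l1 .sk)) (.nx 901 131073 (.nr
  897 65537 (.lg 0 false 1 83 83 17 0 72) (.nx 900 16385 (.lg 0 false 3 79 79 19 0 72) .out)) (.nr
  902 1025 (.lg 0 false 1 67 67 17 0 72) .out)))) .out) .out) (.lg 0 false 1 0 0 16 0 24))) (.na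
  918 167 (.nx 917 1048577 (.nr 916 1482912 (.nr 907 165 .s1 (.nx 910 217 (.nx 909 216 (.nr 908
  1738 (.l1 (.ls 29 31 285)) (.l1 .sk)) (.l1 .sk)) (.nx 912 16385 (.lg 0 false 2 89 89 29 0 7920)
  (.nr 915 65537 (.nx 913 131073 (.lg 0 false 1 83 83 29 0 3960) (.nr 914 1025 (.lg 0 true 1 67 67
  29 0 3960) .out)) .out)))) .out) .out) (.na 919 168 (.lg 0 false 1 0 0 16 0 24) (.nx 930 1048577
  (.nr 929 1482912 (.nr 920 168 .s1 (.nx 927 131073 (.nx 922 216 (.nr 921 1800 (.l1 (.ls 29 37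
  280)) (.l1 .sk)) (.nx 923 217 (.l1 .sk) (.nx 925 16385 (.lg 0 false 2 83 83 37 0 1008) (.nr 926
  65537 (.lg 0 false 1 83 83 31 0 5040) .out)))) (.nr 928 1025 (.lg 0 true 1 67 67 31 0 1008)
  .out))) .out) .out))))) (.na 993 182 (.na 969 179 (.na 944 175 (.nx 943 1048577 (.nr 942 1482912
  (.nr 932 173 .s1 (.nx 935 217 (.nx 934 216 (.nr 933 1821 (.l1 (.ls 19 17 272)) (.l1 .sk)) (.l1
  .sk)) (.nx 938 32769 (.lg 0 false 3 79 79 17 0 72) (.nr 941 16385 (.nr 939 1025 (.lg 0 false 1 61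
  61 16 0 72) (.nx 940 131073 (.lg 2 true 1 47 47 16 13811 72) .out)) .out)))) .out) .out) (.na 956
  177 (.nx 955 1048577 (.nr 954 1482912 (.nr 945 175 .s1 (.nx 947 216 (.nr 946 1842 (.l1 (.ls 29 23
  269)) (.l1 .sk)) (.nx 948 217 (.l1 .sk) (.nr 951 65537 (.nx 949 131073 (.lg 0 false 1 83 83 19 0
  2520) (.nr 950 1025 (.lg 0 true 1 67 67 19 0 2520) .out)) (.nx 953 16385 (.lg 0 false 2 83 89 23
  0 5040) .out))))) .out) .out) (.nx 968 1048577 (.nr 967 1482912 (.nr 957 177 .s1 (.nx 960 217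
  (.nx 959 216 (.nr 958 1863 (.l1 (.ls 19 23 266)) (.l1 .sk)) (.l1 .sk)) (.nx 963 32769 (.lg 0
  false 3 83 83 19 0 72) (.nr 966 16385 (.nr 964 1025 (.lg 0 false 1 67 67 17 0 72) (.nx 965 131073
  (.lg 2 false 1 59 59 17 13811 72) .out)) .out)))) .out) .out))) (.na 981 180 (.nx 980 1048577
  (.nr 979 1482912 (.nr 970 179 .s1 (.nx 977 131073 (.nx 975 16385 (.nx 972 216 (.nr 971 1873 (.l1
  (.ls 19 17 263)) (.l1 .sk)) (.nx 973 217 (.l1 .sk) (.lg 0 false 2 73 73 17 0 144))) (.nr 976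
  65537 (.lg 0 false 1 73 73 16 0 72) .out)) (.nr 978 1025 (.lg 0 false 1 61 61 16 0 720) .out)))
  .out) .out) (.na 992 181 (.nx 991 1048577 (.nr 990 1482912 (.nr 982 180 .s1 (.nx 984 216 (.nr 983
  1884 (.l1 (.ls 41 37 262)) (.l1 .sk)) (.nx 985 217 (.l1 .sk) (.nx 988 131073 (.nr 986 65537 (.lg
  0 true 1 89 97 37 0 5040) (.nx 987 16385 (.lg 0 false 1 97 101 37 0 55440) .out)) (.nr 989 1025
  (.lg 0 true 1 71 73 37 0 720) .out))))) .out) .out) (.lg 0 false 1 0 0 16 0 24)))) (.na 1006 193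
  (.na 994 189 .ne (.na 1005 191 (.nx 1004 1048577 (.nr 1003 1048577 (.nr 995 189 .s1 (.nx 997 216
  (.nr 996 1988 (.l1 (.ls 31 29 249)) (.l1 .sk)) (.nx 998 217 (.l1 .sk) (.nx 1001 131073 (.nr 999
  65537 (.lg 0 true 1 83 89 23 0 5040) (.nx 1000 16385 (.lg 0 false 1 89 89 23 0 5040) .out)) (.nr
  1002 1025 (.lg 0 true 1 67 67 23 0 504) .out))))) .out) .out) (.lg 0 false 1 0 0 16 0 24))) (.na
  1030 197 (.na 1018 196 (.nx 1017 1048577 (.nr 1016 1048577 (.nr 1007 193 .s1 (.nx 1009 216 (.nr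
  1008 2040 (.l1 (.ls 17 17 244)) (.l1 .sk)) (.nx 1010 217 (.l1 .sk) (.nx 1012 32769 (.lg 0 false 2
  79 79 17 0 144) (.nr 1015 16385 (.nr 1013 1025 (.lg 0 false 1 59 59 16 0 72) (.nx 1014 131073
  (.lg 2 true 1 47 47 16 13811 72) .out)) .out))))) .out) .out) (.nx 1029 1048577 (.nr 1028 1048577
  (.nr 1019 196 .s1 (.nx 1026 131073 (.nx 1021 216 (.nr 1020 2050 (.l1 (.ls 29 29 241)) (.l1 .sk))
  (.nx 1022 217 (.l1 .sk) (.nr 1023 65537 (.lg 0 false 1 83 83 29 0 5040) (.nx 1025 16385 (.lg 0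
  false 2 83 83 31 0 5040) .out)))) (.nr 1027 1025 (.lg 0 true 1 61 61 29 0 1008) .out))) .out)
  .out)) (.na 1042 199 (.nx 1041 1048577 (.nr 1040 1048577 (.nr 1031 197 .s1 (.nx 1036 32769 (.nx
  1033 216 (.nr 1032 2071 (.l1 (.ls 37 17 239)) (.l1 .sk)) (.nx 1034 217 (.l1 .sk) (.lg 0 false 2
  79 79 17 0 144))) (.nr 1039 16385 (.nr 1037 1025 (.lg 0 false 1 61 61 16 0 72) (.nx 1038 131073
  (.lg 2 false 1 53 53 16 13811 72) .out)) .out))) .out) .out) (.nx 1053 1048577 (.nr 1052 1048577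
  (.nr 1043 199 .s1 (.nx 1046 217 (.nx 1045 216 (.nr 1044 2081 (.l1 (.ls 19 17 237)) (.l1 .sk))
  (.l1 .sk)) (.nx 1048 32769 (.lg 0 false 2 79 79 17 0 144) (.nr 1051 16385 (.nr 1049 1025 (.lg 0
  false 1 61 61 16 0 72) (.nx 1050 131073 (.lg 2 true 1 47 47 16 13811 72) .out)) .out)))) .out)
  .out)))))) (.na 1176 232 (.na 1110 219 (.na 1077 212 (.na 1065 203 (.nx 1064 1048577 (.nr 1063
  1048577 (.nr 1055 200 .s1 (.nx 1058 217 (.nx 1057 216 (.nr 1056 2113 (.l1 (.ls 29 29 236)) (.l1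
  .sk)) (.l1 .sk)) (.nr 1061 65537 (.nx 1059 131073 (.lg 0 true 1 79 79 29 0 720) (.nr 1060 1025
  (.lg 0 true 1 61 61 29 0 720) .out)) (.nx 1062 16385 (.lg 0 false 1 83 83 29 0 720) .out))))
  .out) .out) (.na 1076 211 (.nx 1075 1048577 (.nr 1074 1048577 (.nr 1066 203 .s1 (.nx 1069 217
  (.nx 1068 216 (.nr 1067 2196 (.l1 (.ls 23 19 232)) (.l1 .sk)) (.l1 .sk)) (.nr 1072 65537 (.nx
  1070 131073 (.lg 0 false 1 83 83 19 0 504) (.nr 1071 1025 (.lg 0 true 1 67 67 19 0 504) .out))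
  (.nx 1073 16385 (.lg 0 false 1 83 83 19 0 504) .out)))) .out) .out) (.lg 0 false 1 0 0 16 0 24)))
  (.na 1088 216 (.nx 1087 1048577 (.nr 1086 1048577 (.nr 1078 212 .s1 (.nx 1084 131073 (.nx 1080
  216 (.nr 1079 2248 (.l1 (.ls 29 29 223)) (.l1 .sk)) (.nx 1081 217 (.l1 .sk) (.nr 1082 65537 (.lg
  0 true 1 83 83 23 0 144) (.nx 1083 16385 (.lg 0 false 1 83 83 23 0 144) .out)))) (.nr 1085 1025
  (.lg 0 true 1 67 67 23 0 144) .out))) .out) .out) (.na 1099 217 (.nx 1098 1048577 (.nr 1097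
  1048577 (.nr 1089 216 .s1 (.nx 1092 217 (.nx 1091 216 (.nr 1090 2258 (.l1 (.ls 31 31 218)) (.l1
  .sk)) (.l1 .sk)) (.nr 1095 65537 (.nx 1093 131073 (.lg 0 true 1 89 89 31 0 5040) (.nr 1094 1025
  (.lg 0 true 1 67 67 31 0 144) .out)) (.nx 1096 16385 (.lg 0 false 1 89 89 31 0 5040) .out))))
  .out) .out) (.nx 1109 1048577 (.nr 1108 1048577 (.nr 1100 217 .s1 (.nx 1102 216 (.nr 1101 2279
  (.l1 (.ls 29 19 218)) (.l1 .sk)) (.nx 1103 217 (.l1 .sk) (.nx 1106 131073 (.nr 1104 65537 (.lg 0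
  false 1 83 83 19 0 504) (.nx 1105 16385 (.lg 0 false 1 83 83 19 0 504) .out)) (.nr 1107 1025 (.lg
  0 true 1 67 67 19 0 504) .out))))) .out) .out)))) (.na 1143 225 (.na 1122 220 (.nx 1121 1048577
  (.nr 1120 1048577 (.nr 1111 219 .s1 (.nx 1116 32769 (.nx 1113 216 (.nr 1112 2289 (.l1 (.ls 19 23
  216)) (.l1 .sk)) (.nx 1114 217 (.l1 .sk) (.lg 0 false 2 83 83 19 0 144))) (.nr 1119 16385 (.nr
  1117 1025 (.lg 0 false 1 59 59 19 0 72) (.nx 1118 131073 (.lg 2 false 1 47 47 19 13811 72) .out))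
  .out))) .out) .out) (.na 1133 223 (.nx 1132 1048577 (.nr 1131 1048577 (.nr 1123 220 .s1 (.nx 1125
  216 (.nr 1124 2321 (.l1 (.ls 37 31 215)) (.l1 .sk)) (.nx 1126 217 (.l1 .sk) (.nr 1129 65537 (.nx
  1127 131073 (.lg 0 true 1 83 89 37 0 7920) (.nr 1128 1025 (.lg 0 true 1 71 71 37 0 7920) .out))
  (.nx 1130 16385 (.lg 0 false 1 89 89 37 0 7920) .out))))) .out) .out) (.nx 1142 1048577 (.nr 1141
  1048577 (.nr 1134 223 .s1 (.nx 1139 32769 (.nx 1136 216 (.nr 1135 2341 (.l1 (.ls 19 17 212)) (.l1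
  .sk)) (.nx 1137 217 (.l1 .sk) (.lg 0 false 2 79 79 17 0 144))) (.nr 1140 16385 (.lg 0 false 1 79
  79 16 0 72) .out))) .out) .out))) (.na 1164 229 (.na 1154 227 (.nx 1153 1048577 (.nr 1152 1048577
  (.nr 1144 225 .s1 (.nx 1146 216 (.nr 1145 2362 (.l1 (.ls 31 23 210)) (.l1 .sk)) (.nx 1147 217
  (.l1 .sk) (.nr 1150 65537 (.nx 1148 131073 (.lg 0 true 1 83 83 29 0 5040) (.nr 1149 1025 (.lg 0
  true 1 67 67 29 0 360) .out)) (.nx 1151 16385 (.lg 0 false 1 83 83 29 0 360) .out))))) .out)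
  .out) (.nx 1163 1048577 (.nr 1162 1048577 (.nr 1155 227 .s1 (.nx 1158 217 (.nx 1157 216 (.nr 1156
  2383 (.l1 (.ls 17 17 208)) (.l1 .sk)) (.l1 .sk)) (.nx 1160 32769 (.lg 0 false 2 73 73 17 0 144)
  (.nr 1161 16385 (.lg 0 false 1 73 73 17 0 72) .out)))) .out) .out)) (.na 1165 231 (.lg 0 false 1
  0 0 16 0 24) (.nx 1175 1048577 (.nr 1174 1048577 (.nr 1166 231 .s1 (.nx 1168 216 (.nr 1167 2414
  (.l1 (.ls 31 29 204)) (.l1 .sk)) (.nx 1169 217 (.l1 .sk) (.nx 1172 131073 (.nr 1170 65537 (.lg 0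
  false 1 83 83 29 0 55440) (.nx 1171 16385 (.lg 0 false 1 83 83 29 0 5544) .out)) (.nr 1173 1025
  (.lg 0 true 1 61 61 29 0 5544) .out))))) .out) .out))))) (.na 1220 243 (.na 1199 237 (.na 1187
  233 (.nx 1186 1048577 (.nr 1185 1048577 (.nr 1177 232 .s1 (.nx 1180 217 (.nx 1179 216 (.nr 1178
  2425 (.l1 (.ls 23 23 204)) (.l1 .sk)) (.l1 .sk)) (.nx 1183 131073 (.nr 1181 65537 (.lg 0 false 1
  83 83 23 0 144) (.nx 1182 16385 (.lg 0 false 1 83 83 23 0 144) .out)) (.nr 1184 1025 (.lg 0 true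
  1 67 67 23 0 144) .out)))) .out) .out) (.na 1188 236 (.lg 0 false 1 0 0 16 0 24) (.nx 1198
  1048577 (.nr 1197 1048577 (.nr 1189 236 .s1 (.nx 1192 217 (.nx 1191 216 (.nr 1190 2466 (.l1 (.ls
  29 23 200)) (.l1 .sk)) (.l1 .sk)) (.nr 1195 65537 (.nx 1193 131073 (.lg 0 true 1 83 83 23 0 144)
  (.nr 1194 1025 (.lg 0 true 1 67 67 23 0 144) .out)) (.nx 1196 16385 (.lg 0 false 1 83 83 23 0
  144) .out)))) .out) .out))) (.na 1209 239 (.nx 1208 1048577 (.nr 1207 1048577 (.nr 1200 237 .s1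
  (.nx 1203 217 (.nx 1202 216 (.nr 1201 2487 (.l1 (.ls 19 23 199)) (.l1 .sk)) (.l1 .sk)) (.nx 1205
  32769 (.lg 0 false 2 83 83 19 0 144) (.nr 1206 16385 (.lg 0 false 1 83 83 19 0 72) .out)))) .out)
  .out) (.na 1210 241 (.lg 0 false 1 0 0 16 0 24) (.nx 1219 1048577 (.nr 1218 1048577 (.nr 1211 241
  .s1 (.nx 1216 32769 (.nx 1213 216 (.nr 1212 2529 (.l1 (.ls 19 17 196)) (.l1 .sk)) (.nx 1214 217
  (.l1 .sk) (.lg 0 false 2 73 73 17 0 144))) (.nr 1217 16385 (.lg 0 false 1 73 73 17 0 72) .out)))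
  .out) .out)))) (.na 1243 249 (.na 1221 245 (.lg 0 false 1 0 0 16 0 24) (.na 1232 248 (.nx 1231
  1048577 (.nr 1230 1048577 (.nr 1222 245 .s1 (.nx 1225 217 (.nx 1224 216 (.nr 1223 2581 (.l1 (.ls
  29 23 193)) (.l1 .sk)) (.l1 .sk)) (.nr 1228 65537 (.nx 1226 131073 (.lg 0 true 1 79 79 23 0 2520)
  (.nr 1227 1025 (.lg 0 true 1 61 61 23 0 2520) .out)) (.nx 1229 16385 (.lg 0 false 1 79 79 23 0
  2520) .out)))) .out) .out) (.nx 1242 1048577 (.nr 1241 1048577 (.nr 1233 248 .s1 (.nx 1236 217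
  (.nx 1235 216 (.nr 1234 2591 (.l1 (.ls 23 23 191)) (.l1 .sk)) (.l1 .sk)) (.nx 1239 131073 (.nr
  1237 65537 (.lg 0 true 1 79 79 23 0 144) (.nx 1238 16385 (.lg 0 false 1 79 79 23 0 144) .out))
  (.nr 1240 1025 (.lg 0 true 1 61 61 23 0 144) .out)))) .out) .out))) (.na 1262 252 (.na 1253 251
  (.nx 1252 1048577 (.nr 1251 1048577 (.nr 1244 249 .s1 (.nx 1246 216 (.nr 1245 2612 (.l1 (.ls 19
  23 190)) (.l1 .sk)) (.nx 1247 217 (.l1 .sk) (.nx 1249 32769 (.lg 0 false 2 73 73 23 0 144) (.nr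
  1250 16385 (.lg 0 false 1 73 73 19 0 72) .out))))) .out) .out) (.nx 1261 1048577 (.nr 1260
  1048577 (.nr 1254 251 .s1 (.nx 1256 216 (.nr 1255 2622 (.l1 (.ls 19 17 188)) (.l1 .sk)) (.nx 1257
  217 (.l1 .sk) (.nx 1258 32769 (.lg 0 true 1 83 83 17 0 5040) (.nr 1259 16385 (.lg 0 false 1 73 73
  17 0 72) .out))))) .out) .out)) (.na 1273 256 (.nx 1272 1048577 (.nr 1271 1048577 (.nr 1263 252
  .s1 (.nx 1266 217 (.nx 1265 216 (.nr 1264 2664 (.l1 (.ls 41 31 188)) (.l1 .sk)) (.l1 .sk)) (.nx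
  1269 131073 (.nr 1267 65537 (.lg 0 true 1 89 97 41 0 55440) (.nx 1268 16385 (.lg 0 false 1 89 101
  41 0 55440) .out)) (.nr 1270 1025 (.lg 0 true 1 71 73 41 0 1008) .out)))) .out) .out) .ne)))))))

def T75_2 : Ph :=
  (.na 313 116 (.na 218 36 (.na 144 12 (.na 102 5 (.na 60 3 (.na 1 2 .ne (.nx 59 330282 (.nr 58
  623489 (.nx 3 20 (.nr 2 9 (.lg 0 true 1 23 23 5 0 65520) (.l1 .sk)) (.nx 4 21 (.l1 .sk) (.nx 27
  726 (.nr 15 65537 (.lg 0 false 11 79 79 9 0 7920) (.nx 26 52 (.lg 0 false 11 71 71 9 0 7920)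
  .out)) (.nr 57 9743 (.nr 49 154 (.lg 0 true 22 73 73 11 0 7920) (.nx 56 20644 (.lg 2 false 7 83
  83 9 2692 5040) .out)) .out)))) .out) .out)) (.na 61 4 .ne (.nx 101 330282 (.nr 100 1246976 (.nx
  76 52 (.nx 63 20 (.nr 62 16 (.lg 0 true 1 17 17 9 0 720) (.l1 .sk)) (.nx 64 21 (.l1 .sk) (.nr 65
  311749 (.l1 (.ls 83 29 568)) (.lg 0 false 11 73 73 13 0 7920)))) (.nr 99 19485 (.nx 87 20644 (.nx
  83 3252 (.lg 0 false 7 79 79 11 0 5040) (.nr 86 2437 (.lg 0 false 3 79 79 9 0 720) .out)) (.nr 98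
  109 (.lg 0 true 11 71 71 13 0 7920) .out)) .out)) .out) .out))) (.na 126 7 (.na 103 6 .ne (.nx
  125 330282 (.nr 124 27556 (.nr 104 5 .s1 (.nr 118 323 (.nx 105 201 (.l1 (.ls 41 47 6736)) (.nr
  116 154 (.lg 0 true 11 71 71 17 0 7920) (.nx 117 3252 (.lg 2 true 1 43 43 7 343 720) .out))) (.nx
  120 21 (.nx 119 20 (.l1 .sk) (.l1 .sk)) (.nx 123 3252 (.lg 0 true 3 83 83 13 0 5040) .out))))
  .out) .out)) (.na 127 10 .ne (.nx 143 330282 (.nr 142 77937 (.nr 128 9 .s1 (.nx 134 1919 (.nx 130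
  20 (.nr 129 39 (.lg 0 true 1 0 16 9 0 720720) (.l1 .sk)) (.nx 131 21 (.l1 .sk) (.lg 0 true 3 73
  73 11 0 720))) (.nr 141 27556 (.nr 137 154 (.lg 0 false 3 67 67 11 0 720) (.nx 140 20644 (.lg 1
  false 3 67 67 11 2875 720) .out)) .out))) .out) .out)))) (.na 186 20 (.na 173 16 (.na 159 14 (.nx
  158 330282 (.nr 157 77937 (.nr 145 12 .s1 (.nx 148 21 (.nx 147 20 (.nr 146 45 (.l1 (.ls 19 19
  36)) (.l1 .sk)) (.l1 .sk)) (.nx 150 1919 (.lg 0 true 2 79 79 13 0 720) (.nr 156 27556 (.nr 154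
  154 (.lg 0 true 4 67 67 19 0 720) (.nx 155 20644 (.lg 1 false 1 83 83 13 2875 720) .out))
  .out)))) .out) .out) (.nx 172 330282 (.nr 171 77937 (.nr 160 14 .s1 (.nx 165 2851 (.nx 162 20
  (.nr 161 52 (.l1 (.ls 17 13 31)) (.l1 .sk)) (.nx 163 21 (.l1 .sk) (.lg 0 true 2 79 79 13 0
  5040))) (.nr 170 27556 (.nr 168 154 (.lg 0 true 3 67 67 13 0 5040) (.nx 169 20644 (.lg 1 false 1
  79 79 11 1935 5040) .out)) .out))) .out) .out)) (.na 174 18 .ne (.nx 185 330282 (.nr 184 131073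
  (.nr 175 18 .s1 (.nx 177 20 (.nr 176 64 (.l1 (.ls 16 13 25)) (.l1 .sk)) (.nx 178 21 (.l1 .sk)
  (.nx 180 2049 (.lg 0 true 2 73 73 13 0 720) (.nr 183 32769 (.nr 181 154 (.lg 0 false 1 71 71 13 0
  720) (.nx 182 20644 (.lg 1 false 1 73 73 13 3202 720) .out)) .out))))) .out) .out))) (.na 201 28
  (.na 200 23 (.nx 199 330282 (.nr 198 131073 (.nr 187 20 .s1 (.nx 189 20 (.nr 188 74 (.l1 (.ls 16
  13 22)) (.l1 .sk)) (.nx 190 21 (.l1 .sk) (.nx 192 3252 (.lg 0 true 2 79 79 13 0 5040) (.nr 197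
  27556 (.nr 195 154 (.lg 0 true 3 61 61 13 0 720) (.nx 196 20644 (.lg 1 false 1 71 71 13 1697
  5040) .out)) .out))))) .out) .out) .ne) (.na 209 30 (.nx 208 41287 (.nr 207 131073 (.nr 202 28
  .s1 (.nx 205 3252 (.nx 203 324 (.l1 (.ls 73 43 3752)) (.nr 204 32769 (.lg 0 true 1 73 73 13 0
  5040) .out)) (.nr 206 257 (.lg 0 false 1 61 61 13 0 5040) .out))) .out) .out) (.na 217 32 (.nx
  216 41287 (.nr 215 131073 (.nr 210 30 .s1 (.nx 211 324 (.l1 (.ls 67 47 3502)) (.nr 214 32769 (.nx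
  212 3252 (.lg 0 true 1 73 73 19 0 5040) (.nr 213 257 (.lg 0 false 1 59 59 19 0 720) .out))
  .out))) .out) .out) .ne))))) (.na 262 82 (.na 237 54 (.na 230 46 (.na 224 42 (.nx 223 41287 (.nr
  222 262145 (.nr 219 36 .s1 (.nx 220 324 (.l1 (.ls 73 43 2918)) (.nr 221 4097 (.lg 0 false 1 73 73
  19 0 5040) .out))) .out) .out) (.nx 229 41287 (.nr 228 262145 (.nr 225 42 .s1 (.nx 226 324 (.l1
  (.ls 73 47 2502)) (.nr 227 4097 (.lg 0 false 1 73 73 23 0 5040) .out))) .out) .out)) (.na 236 50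
  (.nx 235 41287 (.nr 234 262145 (.nr 231 46 .s1 (.nx 232 324 (.l1 (.ls 71 43 2285)) (.nr 233 4097
  (.lg 0 false 1 73 73 13 0 720) .out))) .out) .out) (.lg 0 false 1 0 0 16 0 24))) (.na 249 60 (.na
  243 58 (.nx 242 41287 (.nr 241 262145 (.nr 238 54 .s1 (.nx 239 324 (.l1 (.ls 67 43 1946)) (.nr
  240 4097 (.lg 0 false 1 71 71 19 0 720) .out))) .out) .out) (.nx 248 41287 (.nr 247 262145 (.nr
  244 58 .s1 (.nx 245 324 (.l1 (.ls 71 41 1812)) (.nr 246 4097 (.lg 0 false 1 71 71 13 0 720)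
  .out))) .out) .out)) (.na 255 64 (.nx 254 41287 (.nr 253 262145 (.nr 250 60 .s1 (.nx 251 324 (.l1
  (.ls 71 43 1752)) (.nr 252 4097 (.lg 0 false 1 71 71 23 0 720) .out))) .out) .out) (.na 256 70
  .ne (.nx 261 20644 (.nr 260 524289 (.nr 257 70 .s1 (.nx 258 324 (.l1 (.ls 71 43 1502)) (.nr 259
  65537 (.lg 0 true 1 79 79 23 0 5040) .out))) .out) .out))))) (.na 288 92 (.na 276 86 (.na 268 84
  (.nx 267 20644 (.nr 266 524289 (.nr 263 82 .s1 (.nx 264 324 (.l1 (.ls 73 37 1283)) (.nr 265 65537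
  (.lg 0 true 1 83 83 13 0 5040) .out))) .out) .out) (.nx 275 20644 (.nr 274 524289 (.nr 269 84 .s1
  (.nx 272 3252 (.nx 270 324 (.l1 (.ls 79 43 1252)) (.nr 271 65537 (.lg 0 false 1 73 73 31 0 5040)
  .out)) (.nr 273 257 (.lg 0 true 1 43 47 31 0 5040) .out))) .out) .out)) (.na 282 90 (.nx 281
  20644 (.nr 280 524289 (.nr 277 86 .s1 (.nx 278 324 (.l1 (.ls 71 37 1223)) (.nr 279 65537 (.lg 0
  true 1 79 79 13 0 720) .out))) .out) .out) (.nx 287 20644 (.nr 286 524289 (.nr 283 90 .s1 (.nx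
  284 324 (.l1 (.ls 67 43 1169)) (.nr 285 65537 (.lg 0 true 1 73 73 23 0 5040) .out))) .out)
  .out))) (.na 300 98 (.na 294 94 (.nx 293 20644 (.nr 292 524289 (.nr 289 92 .s1 (.nx 290 324 (.l1
  (.ls 73 41 1144)) (.nr 291 65537 (.lg 0 true 1 83 83 19 0 5040) .out))) .out) .out) (.nx 299
  20644 (.nr 298 524289 (.nr 295 94 .s1 (.nx 296 324 (.l1 (.ls 71 37 1119)) (.nr 297 65537 (.lg 0
  true 1 79 79 17 0 720) .out))) .out) .out)) (.na 306 100 (.nx 305 20644 (.nr 304 524289 (.nr 301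
  98 .s1 (.nx 302 324 (.l1 (.ls 71 37 1074)) (.nr 303 65537 (.lg 0 true 1 73 73 19 0 5040) .out)))
  .out) .out) (.na 307 108 (.lg 0 false 1 0 0 16 0 24) (.nx 312 20644 (.nr 311 524289 (.nr 308 108
  .s1 (.nx 309 324 (.l1 (.ls 71 41 974)) (.nr 310 65537 (.lg 0 false 1 73 73 23 0 720) .out)))
  .out) .out))))))) (.na 405 202 (.na 351 162 (.na 332 134 (.na 325 126 (.na 319 122 (.nx 318 20644
  (.nr 317 524289 (.nr 314 116 .s1 (.nx 315 324 (.l1 (.ls 73 37 907)) (.nr 316 65537 (.lg 0 true 1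
  79 79 19 0 720) .out))) .out) .out) (.nx 324 20644 (.nr 323 524289 (.nr 320 122 .s1 (.nx 321 324
  (.l1 (.ls 59 31 863)) (.nr 322 65537 (.lg 0 true 1 73 73 19 0 720) .out))) .out) .out)) (.na 331
  128 (.nx 330 20644 (.nr 329 524289 (.nr 326 126 .s1 (.nx 327 324 (.l1 (.ls 73 41 836)) (.nr 328
  65537 (.lg 0 true 1 79 79 31 0 5040) .out))) .out) .out) .ne)) (.na 344 140 (.na 338 138 (.nx 337
  20644 (.nr 336 16385 (.nr 333 134 .s1 (.nx 334 324 (.l1 (.ls 41 31 786)) (.nr 335 1025 (.lg 2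
  true 1 29 29 19 1541 5040) .out))) .out) .out) (.nx 343 20644 (.nr 342 16385 (.nr 339 138 .s1
  (.nx 340 324 (.l1 (.ls 47 41 763)) (.nr 341 1025 (.lg 2 true 1 37 37 31 1496 720) .out))) .out)
  .out)) (.na 350 150 (.nx 349 20644 (.nr 348 16385 (.nr 345 140 .s1 (.nx 346 324 (.l1 (.ls 47 41
  752)) (.nr 347 1025 (.lg 2 true 1 31 31 29 1475 5040) .out))) .out) .out) (.lg 0 false 1 0 0 16 0
  24)))) (.na 375 174 (.na 363 166 (.na 357 164 (.nx 356 20644 (.nr 355 16385 (.nr 352 162 .s1 (.nx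
  353 324 (.l1 (.ls 41 37 650)) (.nr 354 1025 (.lg 2 true 1 23 23 23 1275 5040) .out))) .out) .out)
  (.nx 362 20644 (.nr 361 16385 (.nr 358 164 .s1 (.nx 359 324 (.l1 (.ls 37 31 643)) (.nr 360 1025
  (.lg 2 true 1 29 29 23 1259 720) .out))) .out) .out)) (.na 369 172 (.nx 368 20644 (.nr 367 16385
  (.nr 364 166 .s1 (.nx 365 324 (.l1 (.ls 37 31 635)) (.nr 366 1025 (.lg 2 true 1 19 19 19 1244
  720) .out))) .out) .out) (.nx 374 20644 (.nr 373 16385 (.nr 370 172 .s1 (.nx 371 324 (.l1 (.ls 41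
  31 613)) (.nr 372 1025 (.lg 2 true 1 23 23 23 1201 720) .out))) .out) .out))) (.na 387 180 (.na
  381 178 (.nx 380 20644 (.nr 379 16385 (.nr 376 174 .s1 (.nx 377 324 (.l1 (.ls 47 41 606)) (.nr
  378 1025 (.lg 2 false 1 23 31 23 1187 5040) .out))) .out) .out) (.nx 386 20644 (.nr 385 16385
  (.nr 382 178 .s1 (.nx 383 324 (.l1 (.ls 37 31 592)) (.nr 384 1025 (.lg 2 false 1 19 19 19 1160
  720) .out))) .out) .out)) (.na 393 188 (.nx 392 20644 (.nr 391 16385 (.nr 388 180 .s1 (.nx 389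
  324 (.l1 (.ls 43 41 586)) (.nr 390 1025 (.lg 2 false 1 29 29 31 1147 5040) .out))) .out) .out)
  (.na 399 196 (.nx 398 20644 (.nr 397 16385 (.nr 394 188 .s1 (.nx 395 324 (.l1 (.ls 43 31 561))
  (.nr 396 1025 (.lg 2 true 1 29 29 23 1099 5040) .out))) .out) .out) (.nx 404 20644 (.nr 403 16385
  (.nr 400 196 .s1 (.nx 401 324 (.l1 (.ls 43 31 538)) (.nr 402 1025 (.lg 2 true 1 23 23 29 1054
  5040) .out))) .out) .out)))))) (.na 454 252 (.na 429 218 (.na 417 210 (.na 411 206 (.nx 410 20644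
  (.nr 409 16385 (.nr 406 202 .s1 (.nx 407 324 (.l1 (.ls 37 31 522)) (.nr 408 1025 (.lg 2 true 1 19
  19 23 1022 5040) .out))) .out) .out) (.nx 416 20644 (.nr 415 16385 (.nr 412 206 .s1 (.nx 413 324
  (.l1 (.ls 37 31 512)) (.nr 414 1025 (.lg 2 false 1 17 17 23 1003 720) .out))) .out) .out)) (.na
  423 214 (.nx 422 20644 (.nr 421 16385 (.nr 418 210 .s1 (.nx 419 324 (.l1 (.ls 43 41 502)) (.nr
  420 1025 (.lg 2 false 1 23 23 37 984 5040) .out))) .out) .out) (.nx 428 20644 (.nr 427 16385 (.nr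
  424 214 .s1 (.nx 425 324 (.l1 (.ls 37 29 493)) (.nr 426 1025 (.lg 2 false 1 17 17 23 965 720)
  .out))) .out) .out))) (.na 441 244 (.na 435 230 (.nx 434 20644 (.nr 433 16385 (.nr 430 218 .s1
  (.nx 431 324 (.l1 (.ls 37 29 484)) (.nr 432 1025 (.lg 2 false 1 17 17 23 947 5040) .out))) .out)
  .out) (.nx 440 20644 (.nr 439 16385 (.nr 436 230 .s1 (.nx 437 324 (.l1 (.ls 19 37 459)) (.nr 438
  1025 (.lg 2 true 1 17 17 31 898 5040) .out))) .out) .out)) (.na 447 246 (.nx 446 20644 (.nr 445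
  16385 (.nr 442 244 .s1 (.nx 443 324 (.l1 (.ls 41 29 433)) (.nr 444 1025 (.lg 2 true 1 19 23 23
  847 5040) .out))) .out) .out) (.na 453 250 (.nx 452 20644 (.nr 451 16385 (.nr 448 246 .s1 (.nx
  449 324 (.l1 (.ls 37 37 429)) (.nr 450 1025 (.lg 2 true 1 19 19 31 840 5040) .out))) .out) .out)
  (.lg 0 false 1 0 0 16 0 24))))) (.na 746 512 (.na 466 256 (.na 460 254 (.nx 459 20644 (.nr 458
  16385 (.nr 455 252 .s1 (.nx 456 324 (.l1 (.ls 47 37 419)) (.nr 457 1025 (.lg 2 true 1 23 31 37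
  820 55440) .out))) .out) .out) (.nx 465 20644 (.nr 464 16385 (.nr 461 254 .s1 (.nx 462 324 (.l1
  (.ls 37 29 416)) (.nr 463 1025 (.lg 2 true 1 17 17 23 813 5040) .out))) .out) .out)) (.na 467 257
  .ne (.nx 745 20644 (.nr 744 4097 (.nr 468 257 .s1 (.nx 489 21 (.nx 488 20 (.nr 487 1640 (.lx (.lp
  16 16 129)) (.l1 .sk)) (.l1 .sk)) (.la (.lg 0 true 1 43 43 23 0)))) .out) .out))) (.na 1931 2048
  (.na 1826 1024 (.nx 1825 20644 (.nr 1824 8193 (.nr 747 512 .s1 (.nx 1311 915 (.nx 798 52 (.lx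
  (.lp 37 19 257)) (.nr 1310 4097 (.la (.ls 31 31 1632)) .out)) (.nr 1823 2049 (.la (.lg 2 false 1
  16 16 29 453)) .out))) .out) .out) (.nx 1930 103 (.nr 1929 8193 (.nr 1827 1024 .s1 (.lx (.lp 31
  23 513))) .out) .out)) (.na 2015 4096 (.nx 2014 82 (.nr 2013 8193 (.nr 1932 2048 .s1 (.lx (.lp 31
  29 1025))) .out) .out) (.na 2099 8193 (.nx 2098 82 (.nr 2097 16385 (.nr 2016 4096 .s1 (.lx (.lp
  29 31 2049))) .out) .out) .out)))))))

theorem c75 :
    OkQ ckI L8 152 1 10 0 34359738368 1 1099511627776 ∧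
    OkQ ckI L9 216 28 257 0 34359738368 1 1099511627776 ∧
    OkQ ckI L3 20 1 1099511627776 0 34359738368 1 1099511627776 := by
  refine ⟨?_, ?_, ?_⟩
  · refine fin 1368 936 T75_0 ?_
    refine jn 7 (by decide +kernel) ?_
    refine jn 12 (by decide +kernel) ?_
    refine jn 16 (by decide +kernel) ?_
    refine jn 21 (by decide +kernel) ?_
    refine jn 26 (by decide +kernel) ?_
    refine jn 30 (by decide +kernel) ?_
    refine jn 35 (by decide +kernel) ?_
    refine jn 40 (by decide +kernel) ?_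
    refine jn 45 (by decide +kernel) ?_
    refine jn 49 (by decide +kernel) ?_
    refine jn 54 (by decide +kernel) ?_
    refine jn 58 (by decide +kernel) ?_
    refine jn 63 (by decide +kernel) ?_
    refine jn 68 (by decide +kernel) ?_
    refine jn 72 (by decide +kernel) ?_
    refine jn 78 (by decide +kernel) ?_
    refine jn 102 (by decide +kernel) ?_
    refine jn 110 (by decide +kernel) ?_
    refine jn 118 (by decide +kernel) ?_
    refine jn 125 (by decide +kernel) ?_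
    refine jn 132 (by decide +kernel) ?_
    refine jn 136 (by decide +kernel) ?_
    refine jn 149 (by decide +kernel) ?_
    refine jn 162 (by decide +kernel) ?_
    refine jn 190 (by decide +kernel) ?_
    refine jn 196 (by decide +kernel) ?_
    refine jn 222 (by decide +kernel) ?_
    refine jn 229 (by decide +kernel) ?_
    refine jn 242 (by decide +kernel) ?_
    refine jn 255 (by decide +kernel) ?_
    refine jn 267 (by decide +kernel) ?_
    refine jn 289 (by decide +kernel) ?_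
    refine jn 295 (by decide +kernel) ?_
    refine jn 302 (by decide +kernel) ?_
    refine jn 304 (by decide +kernel) ?_
    refine jn 306 (by decide +kernel) ?_
    refine jn 308 (by decide +kernel) ?_
    refine jn 311 (by decide +kernel) ?_
    refine jn 313 (by decide +kernel) ?_
    refine jn 316 (by decide +kernel) ?_
    refine jn 319 (by decide +kernel) ?_
    refine jn 321 (by decide +kernel) ?_
    refine jn 324 (by decide +kernel) ?_
    refine jn 325 (by decide +kernel) ?_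
    refine jn 329 (by decide +kernel) ?_
    refine jn 332 (by decide +kernel) ?_
    refine jn 334 (by decide +kernel) ?_
    refine jn 335 (by decide +kernel) ?_
    refine jn 339 (by decide +kernel) ?_
    refine jn 341 (by decide +kernel) ?_
    refine jn 344 (by decide +kernel) ?_
    refine jn 346 (by decide +kernel) ?_
    refine jn 349 (by decide +kernel) ?_
    refine jn 351 (by decide +kernel) ?_
    refine jn 353 (by decide +kernel) ?_
    refine jn 356 (by decide +kernel) ?_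
    refine jn 357 (by decide +kernel) ?_
    refine jn 359 (by decide +kernel) ?_
    refine jn 361 (by decide +kernel) ?_
    refine jn 363 (by decide +kernel) ?_
    refine jn 365 (by decide +kernel) ?_
    refine jn 367 (by decide +kernel) ?_
    refine jn 369 (by decide +kernel) ?_
    refine jn 371 (by decide +kernel) ?_
    refine jn 372 (by decide +kernel) ?_
    refine jn 377 (by decide +kernel) ?_
    refine jn 382 (by decide +kernel) ?_
    refine jn 392 (by decide +kernel) ?_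
    refine jn 402 (by decide +kernel) ?_
    refine jn 412 (by decide +kernel) ?_
    refine jn 417 (by decide +kernel) ?_
    refine jn 426 (by decide +kernel) ?_
    refine jn 435 (by decide +kernel) ?_
    refine jn 442 (by decide +kernel) ?_
    refine jn 446 (by decide +kernel) ?_
    refine jn 471 (by decide +kernel) ?_
    refine jn 483 (by decide +kernel) ?_
    refine jn 489 (by decide +kernel) ?_
    refine jn 490 (by decide +kernel) ?_
    refine jn 491 (by decide +kernel) ?_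
    refine jn 492 (by decide +kernel) ?_
    refine jn 493 (by decide +kernel) ?_
    refine jn 494 (by decide +kernel) ?_
    refine jn 495 (by decide +kernel) ?_
    refine jn 496 (by decide +kernel) ?_
    refine jn 497 (by decide +kernel) ?_
    refine jn 498 (by decide +kernel) ?_
    refine jn 499 (by decide +kernel) ?_
    refine jn 500 (by decide +kernel) ?_
    refine jn 516 (by decide +kernel) ?_
    refine jn 520 (by decide +kernel) ?_
    refine jn 522 (by decide +kernel) ?_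
    refine jn 524 (by decide +kernel) ?_
    refine jn 526 (by decide +kernel) ?_
    refine jn 528 (by decide +kernel) ?_
    refine jn 529 (by decide +kernel) ?_
    refine jn 540 (by decide +kernel) ?_
    refine jn 552 (by decide +kernel) ?_
    refine jn 563 (by decide +kernel) ?_
    refine jn 568 (by decide +kernel) ?_
    refine jn 578 (by decide +kernel) ?_
    refine jn 586 (by decide +kernel) ?_
    refine jn 590 (by decide +kernel) ?_
    refine jn 598 (by decide +kernel) ?_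
    refine jn 602 (by decide +kernel) ?_
    refine jn 625 (by decide +kernel) ?_
    refine jn 651 (by decide +kernel) ?_
    refine jn 659 (by decide +kernel) ?_
    refine jn 662 (by decide +kernel) ?_
    refine jn 664 (by decide +kernel) ?_
    refine jn 667 (by decide +kernel) ?_
    refine jn 669 (by decide +kernel) ?_
    refine jn 672 (by decide +kernel) ?_
    refine jn 674 (by decide +kernel) ?_
    refine jn 683 (by decide +kernel) ?_
    refine jn 688 (by decide +kernel) ?_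
    refine jn 693 (by decide +kernel) ?_
    refine jn 695 (by decide +kernel) ?_
    refine jn 705 (by decide +kernel) ?_
    refine jn 715 (by decide +kernel) ?_
    refine jn 720 (by decide +kernel) ?_
    refine jn 753 (by decide +kernel) ?_
    refine jn 761 (by decide +kernel) ?_
    refine jn 763 (by decide +kernel) ?_
    refine jn 765 (by decide +kernel) ?_
    refine jn 767 (by decide +kernel) ?_
    refine jn 769 (by decide +kernel) ?_
    refine jn 779 (by decide +kernel) ?_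
    refine jn 786 (by decide +kernel) ?_
    refine jn 791 (by decide +kernel) ?_
    refine jn 796 (by decide +kernel) ?_
    refine jn 826 (by decide +kernel) ?_
    refine jn 832 (by decide +kernel) ?_
    refine jn 842 (by decide +kernel) ?_
    refine jn 853 (by decide +kernel) ?_
    refine jn 864 (by decide +kernel) ?_
    refine jn 866 (by decide +kernel) ?_
    refine jn 868 (by decide +kernel) ?_
    refine jn 870 (by decide +kernel) ?_
    refine jn 874 (by decide +kernel) ?_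
    refine jn 879 (by decide +kernel) ?_
    refine jn 905 (by decide +kernel) ?_
    refine jn 914 (by decide +kernel) ?_
    refine jn 924 (by decide +kernel) ?_
    refine jn 933 (by decide +kernel) ?_
    exact je (by decide +kernel)
  · refine fin 72 1274 T75_1 ?_
    refine jn 5 (by decide +kernel) ?_
    refine jn 6 (by decide +kernel) ?_
    refine jn 7 (by decide +kernel) ?_
    refine jn 8 (by decide +kernel) ?_
    refine jn 9 (by decide +kernel) ?_
    refine jn 10 (by decide +kernel) ?_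
    refine jn 11 (by decide +kernel) ?_
    refine jn 12 (by decide +kernel) ?_
    refine jn 16 (by decide +kernel) ?_
    refine jn 18 (by decide +kernel) ?_
    refine jn 21 (by decide +kernel) ?_
    refine jn 27 (by decide +kernel) ?_
    refine jn 39 (by decide +kernel) ?_
    refine jn 40 (by decide +kernel) ?_
    refine jn 41 (by decide +kernel) ?_
    refine jn 42 (by decide +kernel) ?_
    refine jn 43 (by decide +kernel) ?_
    refine jn 44 (by decide +kernel) ?_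
    refine jn 45 (by decide +kernel) ?_
    refine jn 46 (by decide +kernel) ?_
    refine jn 47 (by decide +kernel) ?_
    refine jn 48 (by decide +kernel) ?_
    refine jn 49 (by decide +kernel) ?_
    refine jn 50 (by decide +kernel) ?_
    refine jn 51 (by decide +kernel) ?_
    refine jn 52 (by decide +kernel) ?_
    refine jn 53 (by decide +kernel) ?_
    refine jn 54 (by decide +kernel) ?_
    refine jn 66 (by decide +kernel) ?_
    refine jn 81 (by decide +kernel) ?_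
    refine jn 88 (by decide +kernel) ?_
    refine jn 96 (by decide +kernel) ?_
    refine jn 103 (by decide +kernel) ?_
    refine jn 117 (by decide +kernel) ?_
    refine jn 122 (by decide +kernel) ?_
    refine jn 134 (by decide +kernel) ?_
    refine jn 145 (by decide +kernel) ?_
    refine jn 146 (by decide +kernel) ?_
    refine jn 147 (by decide +kernel) ?_
    refine jn 148 (by decide +kernel) ?_
    refine jn 149 (by decide +kernel) ?_
    refine jn 150 (by decide +kernel) ?_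
    refine jn 153 (by decide +kernel) ?_
    refine jn 156 (by decide +kernel) ?_
    refine jn 161 (by decide +kernel) ?_
    refine jn 169 (by decide +kernel) ?_
    refine jn 170 (by decide +kernel) ?_
    refine jn 171 (by decide +kernel) ?_
    refine jn 172 (by decide +kernel) ?_
    refine jn 173 (by decide +kernel) ?_
    refine jn 174 (by decide +kernel) ?_
    refine jn 175 (by decide +kernel) ?_
    refine jn 177 (by decide +kernel) ?_
    refine jn 178 (by decide +kernel) ?_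
    refine jn 179 (by decide +kernel) ?_
    refine jn 180 (by decide +kernel) ?_
    refine jn 182 (by decide +kernel) ?_
    refine jn 186 (by decide +kernel) ?_
    refine jn 197 (by decide +kernel) ?_
    refine jn 198 (by decide +kernel) ?_
    refine jn 199 (by decide +kernel) ?_
    refine jn 204 (by decide +kernel) ?_
    refine jn 206 (by decide +kernel) ?_
    refine jn 207 (by decide +kernel) ?_
    refine jn 209 (by decide +kernel) ?_
    refine jn 218 (by decide +kernel) ?_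
    refine jn 219 (by decide +kernel) ?_
    refine jn 220 (by decide +kernel) ?_
    refine jn 225 (by decide +kernel) ?_
    refine jn 228 (by decide +kernel) ?_
    refine jn 230 (by decide +kernel) ?_
    refine jn 239 (by decide +kernel) ?_
    refine jn 240 (by decide +kernel) ?_
    refine jn 241 (by decide +kernel) ?_
    refine jn 243 (by decide +kernel) ?_
    refine jn 247 (by decide +kernel) ?_
    refine jn 248 (by decide +kernel) ?_
    refine jn 249 (by decide +kernel) ?_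
    refine jn 253 (by decide +kernel) ?_
    refine jn 255 (by decide +kernel) ?_
    refine jn 269 (by decide +kernel) ?_
    refine jn 276 (by decide +kernel) ?_
    refine jn 290 (by decide +kernel) ?_
    refine jn 298 (by decide +kernel) ?_
    refine jn 307 (by decide +kernel) ?_
    refine jn 308 (by decide +kernel) ?_
    refine jn 309 (by decide +kernel) ?_
    refine jn 310 (by decide +kernel) ?_
    refine jn 311 (by decide +kernel) ?_
    refine jn 312 (by decide +kernel) ?_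
    refine jn 313 (by decide +kernel) ?_
    refine jn 322 (by decide +kernel) ?_
    refine jn 330 (by decide +kernel) ?_
    refine jn 332 (by decide +kernel) ?_
    refine jn 336 (by decide +kernel) ?_
    refine jn 339 (by decide +kernel) ?_
    refine jn 346 (by decide +kernel) ?_
    refine jn 353 (by decide +kernel) ?_
    refine jn 361 (by decide +kernel) ?_
    refine jn 370 (by decide +kernel) ?_
    refine jn 372 (by decide +kernel) ?_
    refine jn 376 (by decide +kernel) ?_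
    refine jn 379 (by decide +kernel) ?_
    refine jn 385 (by decide +kernel) ?_
    refine jn 389 (by decide +kernel) ?_
    refine jn 390 (by decide +kernel) ?_
    refine jn 391 (by decide +kernel) ?_
    refine jn 393 (by decide +kernel) ?_
    refine jn 395 (by decide +kernel) ?_
    refine jn 396 (by decide +kernel) ?_
    refine jn 400 (by decide +kernel) ?_
    refine jn 409 (by decide +kernel) ?_
    refine jn 410 (by decide +kernel) ?_
    refine jn 411 (by decide +kernel) ?_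
    refine jn 414 (by decide +kernel) ?_
    refine jn 416 (by decide +kernel) ?_
    refine jn 417 (by decide +kernel) ?_
    refine jn 431 (by decide +kernel) ?_
    refine jn 442 (by decide +kernel) ?_
    refine jn 449 (by decide +kernel) ?_
    refine jn 461 (by decide +kernel) ?_
    refine jn 465 (by decide +kernel) ?_
    refine jn 468 (by decide +kernel) ?_
    refine jn 480 (by decide +kernel) ?_
    refine jn 492 (by decide +kernel) ?_
    refine jn 502 (by decide +kernel) ?_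
    refine jn 512 (by decide +kernel) ?_
    refine jn 515 (by decide +kernel) ?_
    refine jn 519 (by decide +kernel) ?_
    refine jn 532 (by decide +kernel) ?_
    refine jn 543 (by decide +kernel) ?_
    refine jn 549 (by decide +kernel) ?_
    refine jn 553 (by decide +kernel) ?_
    refine jn 567 (by decide +kernel) ?_
    refine jn 583 (by decide +kernel) ?_
    refine jn 593 (by decide +kernel) ?_
    refine jn 597 (by decide +kernel) ?_
    refine jn 599 (by decide +kernel) ?_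
    refine jn 601 (by decide +kernel) ?_
    refine jn 605 (by decide +kernel) ?_
    refine jn 616 (by decide +kernel) ?_
    refine jn 621 (by decide +kernel) ?_
    refine jn 634 (by decide +kernel) ?_
    refine jn 645 (by decide +kernel) ?_
    refine jn 656 (by decide +kernel) ?_
    refine jn 660 (by decide +kernel) ?_
    refine jn 671 (by decide +kernel) ?_
    refine jn 683 (by decide +kernel) ?_
    refine jn 685 (by decide +kernel) ?_
    refine jn 689 (by decide +kernel) ?_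
    refine jn 697 (by decide +kernel) ?_
    refine jn 708 (by decide +kernel) ?_
    refine jn 712 (by decide +kernel) ?_
    refine jn 723 (by decide +kernel) ?_
    refine jn 734 (by decide +kernel) ?_
    refine jn 739 (by decide +kernel) ?_
    refine jn 749 (by decide +kernel) ?_
    refine jn 763 (by decide +kernel) ?_
    refine jn 778 (by decide +kernel) ?_
    refine jn 790 (by decide +kernel) ?_
    refine jn 794 (by decide +kernel) ?_
    refine jn 803 (by decide +kernel) ?_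
    refine jn 805 (by decide +kernel) ?_
    refine jn 817 (by decide +kernel) ?_
    refine jn 819 (by decide +kernel) ?_
    refine jn 821 (by decide +kernel) ?_
    refine jn 833 (by decide +kernel) ?_
    refine jn 844 (by decide +kernel) ?_
    refine jn 861 (by decide +kernel) ?_
    refine jn 874 (by decide +kernel) ?_
    refine jn 886 (by decide +kernel) ?_
    refine jn 900 (by decide +kernel) ?_
    refine jn 913 (by decide +kernel) ?_
    refine jn 925 (by decide +kernel) ?_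
    refine jn 938 (by decide +kernel) ?_
    refine jn 950 (by decide +kernel) ?_
    refine jn 963 (by decide +kernel) ?_
    refine jn 976 (by decide +kernel) ?_
    refine jn 985 (by decide +kernel) ?_
    refine jn 986 (by decide +kernel) ?_
    refine jn 987 (by decide +kernel) ?_
    refine jn 989 (by decide +kernel) ?_
    refine jn 1000 (by decide +kernel) ?_
    refine jn 1013 (by decide +kernel) ?_
    refine jn 1025 (by decide +kernel) ?_
    refine jn 1038 (by decide +kernel) ?_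
    refine jn 1055 (by decide +kernel) ?_
    refine jn 1060 (by decide +kernel) ?_
    refine jn 1071 (by decide +kernel) ?_
    refine jn 1083 (by decide +kernel) ?_
    refine jn 1093 (by decide +kernel) ?_
    refine jn 1096 (by decide +kernel) ?_
    refine jn 1105 (by decide +kernel) ?_
    refine jn 1118 (by decide +kernel) ?_
    refine jn 1127 (by decide +kernel) ?_
    refine jn 1130 (by decide +kernel) ?_
    refine jn 1144 (by decide +kernel) ?_
    refine jn 1149 (by decide +kernel) ?_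
    refine jn 1161 (by decide +kernel) ?_
    refine jn 1171 (by decide +kernel) ?_
    refine jn 1182 (by decide +kernel) ?_
    refine jn 1194 (by decide +kernel) ?_
    refine jn 1206 (by decide +kernel) ?_
    refine jn 1226 (by decide +kernel) ?_
    refine jn 1237 (by decide +kernel) ?_
    refine jn 1250 (by decide +kernel) ?_
    refine jn 1263 (by decide +kernel) ?_
    refine jn 1266 (by decide +kernel) ?_
    refine jn 1267 (by decide +kernel) ?_
    refine jn 1268 (by decide +kernel) ?_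
    exact je (by decide +kernel)
  · refine fin 360 2100 T75_2 ?_
    refine jn 5 (by decide +kernel) ?_
    refine jn 7 (by decide +kernel) ?_
    refine jn 11 (by decide +kernel) ?_
    refine jn 13 (by decide +kernel) ?_
    refine jn 15 (by decide +kernel) ?_
    refine jn 27 (by decide +kernel) ?_
    refine jn 30 (by decide +kernel) ?_
    refine jn 33 (by decide +kernel) ?_
    refine jn 36 (by decide +kernel) ?_
    refine jn 39 (by decide +kernel) ?_
    refine jn 43 (by decide +kernel) ?_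
    refine jn 47 (by decide +kernel) ?_
    refine jn 49 (by decide +kernel) ?_
    refine jn 56 (by decide +kernel) ?_
    refine jn 64 (by decide +kernel) ?_
    refine jn 65 (by decide +kernel) ?_
    refine jn 76 (by decide +kernel) ?_
    refine jn 77 (by decide +kernel) ?_
    refine jn 78 (by decide +kernel) ?_
    refine jn 79 (by decide +kernel) ?_
    refine jn 80 (by decide +kernel) ?_
    refine jn 81 (by decide +kernel) ?_
    refine jn 82 (by decide +kernel) ?_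
    refine jn 83 (by decide +kernel) ?_
    refine jn 84 (by decide +kernel) ?_
    refine jn 85 (by decide +kernel) ?_
    refine jn 86 (by decide +kernel) ?_
    refine jn 89 (by decide +kernel) ?_
    refine jn 90 (by decide +kernel) ?_
    refine jn 92 (by decide +kernel) ?_
    refine jn 94 (by decide +kernel) ?_
    refine jn 96 (by decide +kernel) ?_
    refine jn 98 (by decide +kernel) ?_
    refine jn 104 (by decide +kernel) ?_
    refine jn 105 (by decide +kernel) ?_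
    refine jn 106 (by decide +kernel) ?_
    refine jn 107 (by decide +kernel) ?_
    refine jn 108 (by decide +kernel) ?_
    refine jn 109 (by decide +kernel) ?_
    refine jn 110 (by decide +kernel) ?_
    refine jn 111 (by decide +kernel) ?_
    refine jn 112 (by decide +kernel) ?_
    refine jn 113 (by decide +kernel) ?_
    refine jn 114 (by decide +kernel) ?_
    refine jn 115 (by decide +kernel) ?_
    refine jn 116 (by decide +kernel) ?_
    refine jn 120 (by decide +kernel) ?_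
    refine jn 121 (by decide +kernel) ?_
    refine jn 122 (by decide +kernel) ?_
    refine jn 123 (by decide +kernel) ?_
    refine jn 134 (by decide +kernel) ?_
    refine jn 137 (by decide +kernel) ?_
    refine jn 148 (by decide +kernel) ?_
    refine jn 149 (by decide +kernel) ?_
    refine jn 150 (by decide +kernel) ?_
    refine jn 151 (by decide +kernel) ?_
    refine jn 152 (by decide +kernel) ?_
    refine jn 153 (by decide +kernel) ?_
    refine jn 154 (by decide +kernel) ?_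
    refine jn 155 (by decide +kernel) ?_
    refine jn 163 (by decide +kernel) ?_
    refine jn 164 (by decide +kernel) ?_
    refine jn 165 (by decide +kernel) ?_
    refine jn 166 (by decide +kernel) ?_
    refine jn 167 (by decide +kernel) ?_
    refine jn 169 (by decide +kernel) ?_
    refine jn 178 (by decide +kernel) ?_
    refine jn 179 (by decide +kernel) ?_
    refine jn 180 (by decide +kernel) ?_
    refine jn 181 (by decide +kernel) ?_
    refine jn 190 (by decide +kernel) ?_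
    refine jn 191 (by decide +kernel) ?_
    refine jn 192 (by decide +kernel) ?_
    refine jn 195 (by decide +kernel) ?_
    refine jn 202 (by decide +kernel) ?_
    refine jn 203 (by decide +kernel) ?_
    refine jn 204 (by decide +kernel) ?_
    refine jn 205 (by decide +kernel) ?_
    refine jn 206 (by decide +kernel) ?_
    refine jn 212 (by decide +kernel) ?_
    refine jn 219 (by decide +kernel) ?_
    refine jn 220 (by decide +kernel) ?_
    refine jn 221 (by decide +kernel) ?_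
    refine jn 225 (by decide +kernel) ?_
    refine jn 226 (by decide +kernel) ?_
    refine jn 227 (by decide +kernel) ?_
    refine jn 233 (by decide +kernel) ?_
    refine jn 244 (by decide +kernel) ?_
    refine jn 250 (by decide +kernel) ?_
    refine jn 251 (by decide +kernel) ?_
    refine jn 252 (by decide +kernel) ?_
    refine jn 265 (by decide +kernel) ?_
    refine jn 269 (by decide +kernel) ?_
    refine jn 270 (by decide +kernel) ?_
    refine jn 271 (by decide +kernel) ?_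
    refine jn 277 (by decide +kernel) ?_
    refine jn 285 (by decide +kernel) ?_
    refine jn 291 (by decide +kernel) ?_
    refine jn 303 (by decide +kernel) ?_
    refine jn 310 (by decide +kernel) ?_
    refine jn 320 (by decide +kernel) ?_
    refine jn 328 (by decide +kernel) ?_
    refine jn 346 (by decide +kernel) ?_
    refine jn 360 (by decide +kernel) ?_
    refine jn 378 (by decide +kernel) ?_
    refine jn 396 (by decide +kernel) ?_
    refine jn 419 (by decide +kernel) ?_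
    refine jn 443 (by decide +kernel) ?_
    refine jn 456 (by decide +kernel) ?_
    refine jn 490 (by decide +kernel) ?_
    refine jn 508 (by decide +kernel) ?_
    refine jn 514 (by decide +kernel) ?_
    refine jn 554 (by decide +kernel) ?_
    refine jn 566 (by decide +kernel) ?_
    refine jn 588 (by decide +kernel) ?_
    refine jn 634 (by decide +kernel) ?_
    refine jn 644 (by decide +kernel) ?_
    refine jn 654 (by decide +kernel) ?_
    refine jn 692 (by decide +kernel) ?_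
    refine jn 724 (by decide +kernel) ?_
    refine jn 747 (by decide +kernel) ?_
    refine jn 866 (by decide +kernel) ?_
    refine jn 940 (by decide +kernel) ?_
    refine jn 1052 (by decide +kernel) ?_
    refine jn 1156 (by decide +kernel) ?_
    refine jn 1264 (by decide +kernel) ?_
    refine jn 1339 (by decide +kernel) ?_
    refine jn 1403 (by decide +kernel) ?_
    refine jn 1469 (by decide +kernel) ?_
    refine jn 1565 (by decide +kernel) ?_
    refine jn 1645 (by decide +kernel) ?_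
    refine jn 1737 (by decide +kernel) ?_
    refine jn 1826 (by decide +kernel) ?_
    exact je (by decide +kernel)

end Pool.Agent.MP_2339ce_nt.NR
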