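import Pool.Agent.MP_2339ce_nt.Q2.NC.L3
import Pool.Agent.MP_2339ce_nt.Q2.NC.L9
import Pool.Agent.MP_2339ce_nt.Q2.NC.L10
import Pool.Agent.MP_2339ce_nt.Q2.CkI

/-! Block NR: runs. -/

set_option autoImplicit false
set_option maxRecDepth 100000

noncomputable section

namespace Pool.Agent.MP_2339ce_nt.NR

open Q2.Top

def T86_0 : Ph :=
  (.na 529 187 (.na 304 121 (.na 146 82 (.na 66 64 (.na 45 54 (.na 23 53 (.nx 22 2642247 (.nr 21
  881745 (.nr 1 44 .s1 (.nx 4 238 (.nx 3 237 (.nr 2 578 (.lg 0 false 1 29 29 13 0 625680) (.l1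
  .sk)) (.l1 .sk)) (.nx 11 32769 (.lg 0 false 7 101 103 19 0 4379760) (.nr 20 92683 (.nr 16 578
  (.lg 0 true 5 73 73 19 0 18960) (.nx 19 262145 (.lg 2 false 3 101 101 13 79638 625680) .out))
  .out)))) .out) .out) (.nx 44 2642247 (.nr 43 881745 (.nr 24 51 .s1 (.nx 32 32769 (.nx 26 237 (.nr
  25 589 (.lg 0 false 1 17 17 16 0 62568) (.l1 .sk)) (.nx 27 238 (.l1 .sk) (.lg 0 false 5 97 97 16
  0 9480))) (.nr 42 92683 (.nr 37 589 (.lg 0 true 5 67 67 16 0 9480) (.nx 41 262145 (.lg 2 false 4
  97 97 16 79638 125136) .out)) .out))) .out) .out)) (.na 46 58 (.lg 0 false 1 0 0 16 0 24) (.nx 65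
  2642247 (.nr 64 881745 (.nr 47 56 .s1 (.nx 50 238 (.nx 49 237 (.nr 48 698 (.lg 0 false 1 29 29 13
  0 875952) (.l1 .sk)) (.l1 .sk)) (.nx 55 41287 (.lg 0 false 5 101 103 19 0 398160) (.nr 63 77937
  (.nr 60 698 (.lg 0 true 5 71 71 19 0 18960) (.nx 62 262145 (.lg 2 false 2 89 89 13 53177 3792)
  .out)) .out)))) .out) .out))) (.na 91 69 (.na 67 66 .ne (.nx 90 2642247 (.nr 89 2097153 (.nr 68
  65 .s1 (.nx 71 238 (.nx 70 237 (.nr 69 752 (.l1 (.ls 29 41 854)) (.l1 .sk)) (.l1 .sk)) (.nx 72
  408 (.l1 (.ls 83 43 1666)) (.nr 88 1048577 (.nx 79 32769 (.lg 0 false 7 97 101 31 0 4379760) (.nr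
  87 65537 (.nr 84 752 (.lg 0 true 5 71 71 31 0 625680) (.nx 86 416129 (.lg 2 false 2 89 89 29
  65574 125136) .out)) .out)) .out)))) .out) .out)) (.na 108 73 (.nx 107 2642247 (.nr 106 2097153
  (.nr 92 68 .s1 (.nx 98 32769 (.nx 93 408 (.l1 (.ls 83 41 2415)) (.nr 97 1048577 (.lg 0 false 4
  101 103 17 0 398160) .out)) (.nr 105 65537 (.nr 102 796 (.lg 0 true 4 73 73 17 0 11376) (.nx 104
  416129 (.lg 2 true 2 89 89 17 61949 11376) .out)) .out))) .out) .out) (.na 127 78 (.nx 126
  2642247 (.nr 125 2097153 (.nr 109 72 .s1 (.nx 110 408 (.l1 (.ls 71 29 2283)) (.nr 124 1048577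
  (.nx 115 32769 (.lg 0 false 5 97 97 16 0 28440) (.nr 123 65537 (.nr 120 850 (.lg 0 true 5 61 61
  16 0 9480) (.nx 122 416129 (.lg 2 false 2 83 83 16 58014 3792) .out)) .out)) .out))) .out) .out)
  (.nx 145 2642247 (.nr 144 2097153 (.nr 128 77 .s1 (.nx 129 408 (.l1 (.ls 83 47 2137)) (.nr 143
  1048577 (.nx 134 32769 (.lg 0 false 5 97 97 31 0 5176080) (.nr 142 65537 (.nr 139 894 (.lg 0 true
  5 71 71 31 0 739440) (.nx 141 416129 (.lg 2 false 2 83 83 29 56373 147888) .out)) .out)) .out)))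
  .out) .out))))) (.na 237 102 (.na 183 87 (.na 165 86 (.nx 164 2642247 (.nr 163 2097153 (.nr 147
  81 .s1 (.nx 154 32769 (.nx 148 408 (.l1 (.ls 73 37 2033)) (.nr 153 1048577 (.lg 0 false 5 97 97
  23 0 18960) .out)) (.nr 162 65537 (.nr 159 938 (.lg 0 true 5 71 71 23 0 18960) (.nx 161 416129
  (.lg 2 false 2 83 83 19 56373 3792) .out)) .out))) .out) .out) (.nx 182 2642247 (.nr 181 2097153
  (.nr 166 85 .s1 (.nx 173 32769 (.nx 167 408 (.l1 (.ls 83 37 1938)) (.nr 172 1048577 (.lg 0 false
  5 97 97 23 0 18960) .out)) (.nr 180 65537 (.nr 177 948 (.lg 0 true 4 71 71 23 0 3792) (.nx 179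
  416129 (.lg 2 false 2 83 83 19 56373 3792) .out)) .out))) .out) .out)) (.na 202 91 (.nx 201
  2642247 (.nr 200 2097153 (.nr 184 86 .s1 (.nx 191 32769 (.nx 185 408 (.l1 (.ls 73 37 1916)) (.nr
  190 1048577 (.lg 0 false 5 89 89 19 0 28440) .out)) (.nr 199 65537 (.nr 196 992 (.lg 0 true 5 67
  67 19 0 28440) (.nx 198 416129 (.lg 2 false 2 83 83 17 56373 11376) .out)) .out))) .out) .out)
  (.na 220 98 (.nx 219 2642247 (.nr 218 2097153 (.nr 203 90 .s1 (.nx 212 28085 (.nx 205 237 (.nr
  204 1068 (.l1 (.ls 31 29 620)) (.l1 .sk)) (.nx 206 238 (.l1 .sk) (.nx 207 408 (.l1 (.ls 83 31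
  1209)) (.nr 211 1482912 (.lg 0 false 4 101 103 23 0 5176080) .out)))) (.nr 217 65537 (.nr 215
  1068 (.lg 0 true 3 73 73 23 0 517608) (.nx 216 416129 (.lg 2 true 1 97 97 19 65774 2588040)
  .out)) .out))) .out) .out) (.nx 236 2642247 (.nr 235 2097153 (.nr 221 97 .s1 (.nx 222 408 (.l1
  (.ls 71 41 1701)) (.nr 234 1482912 (.nx 227 28085 (.lg 0 false 5 89 89 29 0 132720) (.nr 233
  65537 (.nr 230 1112 (.lg 0 true 3 67 67 23 0 79632) (.nx 232 416129 (.lg 2 false 2 73 73 23 65774
  26544) .out)) .out)) .out))) .out) .out)))) (.na 271 106 (.na 254 103 (.nx 253 2642247 (.nr 252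
  2097153 (.nr 238 101 .s1 (.nx 245 28085 (.nx 239 408 (.l1 (.ls 73 43 1634)) (.nr 244 1482912 (.lg
  0 false 5 97 97 31 0 56880) .out)) (.nr 251 65537 (.nr 248 513 (.lg 0 true 3 61 61 31 0 11376)
  (.nx 250 416129 (.lg 2 true 2 83 83 29 96124 11376) .out)) .out))) .out) .out) (.nx 270 2642247
  (.nr 269 2097153 (.nr 255 102 .s1 (.nx 262 28085 (.nx 256 408 (.l1 (.ls 67 29 1619)) (.nr 261
  1482912 (.lg 0 false 5 73 83 17 0 9480) .out)) (.nr 268 65537 (.nr 265 513 (.lg 0 true 3 59 59 16
  0 5688) (.nx 267 416129 (.lg 2 true 2 73 73 16 96124 3792) .out)) .out))) .out) .out)) (.na 287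
  117 (.nx 286 2642247 (.nr 285 2097153 (.nr 272 105 .s1 (.nx 279 28085 (.nx 273 408 (.l1 (.ls 83
  37 1573)) (.nr 278 1482912 (.lg 0 false 5 97 101 23 0 398160) .out)) (.nr 284 65537 (.nr 281 513
  (.lg 0 true 2 67 67 19 0 3792) (.nx 283 416129 (.lg 2 true 2 83 83 19 96124 3792) .out)) .out)))
  .out) .out) (.na 288 119 (.lg 0 false 1 0 0 16 0 24) (.nx 303 2642247 (.nr 302 2097153 (.nr 289
  119 .s1 (.nx 295 26009 (.nx 290 408 (.l1 (.ls 89 37 1401)) (.nr 294 1482912 (.lg 0 false 4 97 97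
  29 0 26544) .out)) (.nr 301 65537 (.nx 296 68102 (.lg 0 true 1 83 83 16 0 13272) (.nx 298 416129
  (.nr 297 3848 (.lg 0 true 1 83 83 16 0 13272) (.lg 2 false 1 83 83 16 27125 13272)) (.nr 300 513
  (.lg 0 true 2 71 71 23 0 26544) .out))) .out))) .out) .out)))))) (.na 413 153 (.na 353 138 (.na
  336 126 (.na 320 123 (.nx 319 2642247 (.nr 318 2097153 (.nr 305 121 .s1 (.nx 306 408 (.l1 (.ls 73
  31 1378)) (.nr 317 1482912 (.nx 310 28085 (.lg 0 false 4 89 89 19 0 41712) (.nr 316 65537 (.nr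
  314 1341 (.lg 0 true 4 67 67 19 0 41712) (.nx 315 416129 (.lg 2 false 1 83 83 17 65774 20856)
  .out)) .out)) .out))) .out) .out) (.nx 335 2642247 (.nr 334 2097153 (.nr 321 123 .s1 (.nx 322 408
  (.l1 (.ls 71 31 1356)) (.nr 333 1482912 (.nx 327 28085 (.lg 0 false 5 83 89 23 0 28440) (.nr 332
  65537 (.nr 330 1373 (.lg 0 true 3 67 67 19 0 5688) (.nx 331 416129 (.lg 2 false 1 83 83 17 65774
  62568) .out)) .out)) .out))) .out) .out)) (.na 337 128 (.lg 0 false 1 0 0 16 0 24) (.na 338 137
  .ne (.nx 352 1321124 (.nr 351 2097153 (.nr 339 137 .s1 (.nx 342 238 (.nx 341 237 (.nr 340 1504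
  (.l1 (.ls 16 19 412)) (.l1 .sk)) (.l1 .sk)) (.nx 347 41287 (.lg 0 false 5 73 83 17 0 9480) (.nr
  350 16385 (.nr 348 1025 (.lg 0 false 1 61 61 16 0 5688) (.nx 349 165142 (.lg 2 false 1 53 53 16
  19093 5688) .out)) .out)))) .out) .out)))) (.na 382 146 (.na 368 139 (.nx 367 1321124 (.nr 366
  2097153 (.nr 354 138 .s1 (.nx 362 41287 (.nx 356 237 (.nr 355 1515 (.l1 (.ls 19 37 410)) (.l1
  .sk)) (.nx 357 238 (.l1 .sk) (.lg 0 false 5 97 97 37 0 56880))) (.nr 365 16385 (.nr 363 1025 (.lg
  0 false 1 71 71 19 0 11376) (.nx 364 165142 (.lg 2 false 1 61 61 19 19093 11376) .out)) .out)))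
  .out) .out) (.nx 381 1321124 (.nr 380 2097153 (.nr 369 139 .s1 (.nx 372 238 (.nx 371 237 (.nr 370
  1591 (.l1 (.ls 19 19 407)) (.l1 .sk)) (.l1 .sk)) (.nx 376 26009 (.lg 0 false 4 89 89 17 0 398160)
  (.nr 379 65537 (.nx 377 165142 (.lg 0 false 1 83 83 16 0 1896) (.nr 378 1025 (.lg 0 false 1 61 61
  16 0 1896) .out)) .out)))) .out) .out)) (.na 398 149 (.nx 397 1321124 (.nr 396 2097153 (.nr 383
  146 .s1 (.nx 386 238 (.nx 385 237 (.nr 384 1624 (.l1 (.ls 23 29 387)) (.l1 .sk)) (.l1 .sk)) (.nx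
  394 165142 (.nx 391 26009 (.lg 0 false 5 97 97 29 0 398160) (.nr 393 65537 (.lg 0 true 2 83 83 23
  0 3792) .out)) (.nr 395 1025 (.lg 0 false 1 67 67 19 0 3792) .out)))) .out) .out) (.na 412 151
  (.nx 411 1321124 (.nr 410 2097153 (.nr 399 149 .s1 (.nx 401 237 (.nr 400 1646 (.l1 (.ls 17 19
  379)) (.l1 .sk)) (.nx 402 238 (.l1 .sk) (.nx 406 41287 (.lg 0 false 4 89 89 17 0 3792) (.nr 409
  16385 (.nr 407 1025 (.lg 0 false 1 61 61 16 0 1896) (.nx 408 165142 (.lg 2 false 1 53 53 16 19093
  1896) .out)) .out))))) .out) .out) (.lg 0 false 1 0 0 16 0 24))))) (.na 459 167 (.na 426 158 (.na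
  414 154 (.lg 0 false 1 0 0 16 0 24) (.nx 425 1321124 (.nr 424 2097153 (.nr 415 154 .s1 (.nx 418
  238 (.nx 417 237 (.nr 416 1722 (.l1 (.ls 31 37 367)) (.l1 .sk)) (.l1 .sk)) (.nx 420 26009 (.lg 0
  false 2 103 103 31 0 4379760) (.nr 423 65537 (.nx 421 165142 (.lg 0 false 1 101 101 31 0 4379760)
  (.nr 422 1025 (.lg 0 true 1 71 71 31 0 291984) .out)) .out)))) .out) .out)) (.na 443 162 (.nx 442
  1321124 (.nr 441 2097153 (.nr 427 158 .s1 (.nx 430 238 (.nx 429 237 (.nr 428 1766 (.l1 (.ls 16 29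
  358)) (.l1 .sk)) (.l1 .sk)) (.nx 435 41287 (.lg 0 false 5 83 83 23 0 56880) (.nr 440 16385 (.lg 0
  true 5 67 67 23 0 18960) .out)))) .out) .out) (.na 444 166 (.lg 0 false 1 0 0 16 0 24) (.nx 458
  1321124 (.nr 457 2097153 (.nr 445 166 .s1 (.nx 453 41287 (.nx 447 237 (.nr 446 1820 (.l1 (.ls 19
  29 341)) (.l1 .sk)) (.nx 448 238 (.l1 .sk) (.lg 0 false 5 73 97 29 0 18960))) (.nr 456 16385 (.nr
  454 1025 (.lg 0 false 1 67 67 19 0 3792) (.nx 455 165142 (.lg 2 false 1 53 53 19 19093 3792)
  .out)) .out))) .out) .out)))) (.na 488 174 (.na 474 169 (.nx 473 1321124 (.nr 472 2097153 (.nr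
  460 167 .s1 (.nx 468 41287 (.nx 462 237 (.nr 461 1842 (.l1 (.ls 17 19 339)) (.l1 .sk)) (.nx 463
  238 (.l1 .sk) (.lg 0 false 5 73 83 19 0 9480))) (.nr 471 16385 (.nr 469 1025 (.lg 0 false 1 61 61
  16 0 1896) (.nx 470 165142 (.lg 2 false 1 53 53 16 19093 1896) .out)) .out))) .out) .out) (.nx
  487 1321124 (.nr 486 2097153 (.nr 475 169 .s1 (.nx 482 41287 (.nx 477 237 (.nr 476 1897 (.l1 (.ls
  23 23 335)) (.l1 .sk)) (.nx 478 238 (.l1 .sk) (.lg 0 false 4 97 97 19 0 5176080))) (.nr 485 16385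
  (.nr 483 1025 (.lg 0 false 1 67 67 17 0 24648) (.nx 484 165142 (.lg 2 false 1 59 59 17 19093
  24648) .out)) .out))) .out) .out)) (.na 503 181 (.nx 502 1321124 (.nr 501 2097153 (.nr 489 174
  .s1 (.nx 497 41287 (.nx 491 237 (.nr 490 1973 (.l1 (.ls 23 37 325)) (.l1 .sk)) (.nx 492 238 (.l1
  .sk) (.lg 0 false 5 101 101 37 0 4379760))) (.nr 500 16385 (.nr 498 1025 (.lg 0 false 1 71 71 23
  0 11376) (.nx 499 165142 (.lg 2 false 1 61 61 23 19093 11376) .out)) .out))) .out) .out) (.na 517
  182 (.nx 516 1321124 (.nr 515 2097153 (.nr 504 181 .s1 (.nx 507 238 (.nx 506 237 (.nr 505 1984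
  (.l1 (.ls 17 19 313)) (.l1 .sk)) (.l1 .sk)) (.nx 511 41287 (.lg 0 false 4 89 89 19 0 398160) (.nr
  514 16385 (.nr 512 1025 (.lg 0 false 1 61 61 16 0 199080) (.nx 513 165142 (.lg 2 false 1 47 47 16
  19093 1896) .out)) .out)))) .out) .out) (.nx 528 1321124 (.nr 527 1482912 (.nr 518 182 .s1 (.nx
  520 237 (.nr 519 2038 (.l1 (.ls 29 37 311)) (.l1 .sk)) (.nx 521 238 (.l1 .sk) (.nx 523 26009 (.lg
  0 false 2 97 97 37 0 1035216) (.nr 526 65537 (.nx 524 165142 (.lg 0 true 1 89 89 31 0 345072)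
  (.nr 525 1025 (.lg 0 true 1 67 67 31 0 345072) .out)) .out))))) .out) .out))))))) (.na 728 256
  (.na 635 229 (.na 570 199 (.na 554 197 (.na 541 194 (.nx 540 1321124 (.nr 539 1482912 (.nr 530
  187 .s1 (.nx 537 165142 (.nx 532 237 (.nr 531 2115 (.l1 (.ls 16 29 303)) (.l1 .sk)) (.nx 533 238
  (.l1 .sk) (.nx 535 26009 (.lg 0 false 2 97 97 29 0 41712) (.nr 536 65537 (.lg 0 true 1 83 83 23 0
  20856) .out)))) (.nr 538 1025 (.lg 0 true 1 61 61 23 0 20856) .out))) .out) .out) (.nx 553
  1321124 (.nr 552 1482912 (.nr 542 194 .s1 (.nx 545 238 (.nx 544 237 (.nr 543 2147 (.l1 (.ls 19 29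
  292)) (.l1 .sk)) (.l1 .sk)) (.nx 548 41287 (.lg 0 false 3 83 83 29 0 11376) (.nr 551 16385 (.nr
  549 1025 (.lg 0 false 1 61 61 19 0 3792) (.nx 550 165142 (.lg 2 false 1 53 53 19 19093 3792)
  .out)) .out)))) .out) .out)) (.na 569 198 (.nx 568 1321124 (.nr 567 1482912 (.nr 555 197 .s1 (.nx
  558 238 (.nx 557 237 (.nr 556 2158 (.l1 (.ls 16 19 288)) (.l1 .sk)) (.l1 .sk)) (.nx 563 41287
  (.lg 0 false 5 73 83 19 0 199080) (.nr 566 16385 (.nr 564 1025 (.lg 0 false 1 59 59 16 0 1896)
  (.nx 565 165142 (.lg 2 false 1 47 47 16 19093 1896) .out)) .out)))) .out) .out) (.lg 0 false 1 0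
  0 16 0 24))) (.na 596 206 (.na 584 203 (.nx 583 1321124 (.nr 582 1482912 (.nr 571 199 .s1 (.nx
  573 237 (.nr 572 2213 (.l1 (.ls 17 19 285)) (.l1 .sk)) (.nx 574 238 (.l1 .sk) (.nx 578 41287 (.lg
  0 false 4 73 83 19 0 56880) (.nr 581 16385 (.nr 579 1025 (.lg 0 false 1 59 59 16 0 1896) (.nx 580
  165142 (.lg 2 true 1 47 47 16 19093 1896) .out)) .out))))) .out) .out) (.nx 595 1321124 (.nr 594
  1482912 (.nr 585 203 .s1 (.nx 588 238 (.nx 587 237 (.nr 586 2245 (.l1 (.ls 23 19 279)) (.l1 .sk))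
  (.l1 .sk)) (.nx 590 26009 (.lg 0 false 2 97 97 23 0 79632) (.nr 593 65537 (.nx 591 165142 (.lg 0
  true 1 83 83 19 0 13272) (.nr 592 1025 (.lg 0 true 1 61 61 19 0 13272) .out)) .out)))) .out)
  .out)) (.na 609 219 (.nx 608 1321124 (.nr 607 1482912 (.nr 597 206 .s1 (.nx 599 237 (.nr 598 2387
  (.l1 (.ls 19 29 275)) (.l1 .sk)) (.nx 600 238 (.l1 .sk) (.nx 603 41287 (.lg 0 false 3 89 89 29 0
  56880) (.nr 606 16385 (.nr 604 1025 (.lg 0 false 1 61 61 23 0 3792) (.nx 605 165142 (.lg 2 false
  1 53 53 23 19093 3792) .out)) .out))))) .out) .out) (.na 623 226 (.nx 622 1321124 (.nr 621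
  1482912 (.nr 610 219 .s1 (.nx 613 238 (.nx 612 237 (.nr 611 2463 (.l1 (.ls 19 23 259)) (.l1 .sk))
  (.l1 .sk)) (.nx 617 41287 (.lg 0 false 4 89 89 23 0 11376) (.nr 620 16385 (.nr 618 1025 (.lg 0
  false 1 59 59 19 0 5688) (.nx 619 165142 (.lg 2 true 1 47 47 19 19093 5688) .out)) .out)))) .out)
  .out) (.nx 634 1321124 (.nr 633 1482912 (.nr 624 226 .s1 (.nx 627 238 (.nx 626 237 (.nr 625 2496
  (.l1 (.ls 23 29 251)) (.l1 .sk)) (.l1 .sk)) (.nx 629 41287 (.lg 0 false 2 83 83 23 0 3792) (.nr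
  632 16385 (.nr 630 1025 (.lg 0 false 1 61 61 23 0 3792) (.nx 631 165142 (.lg 2 false 1 53 53 23
  19093 3792) .out)) .out)))) .out) .out))))) (.na 676 242 (.na 648 233 (.na 636 231 (.lg 0 false 1
  0 0 16 0 24) (.nx 647 1321124 (.nr 646 1482912 (.nr 637 231 .s1 (.nx 644 165142 (.nx 642 26009
  (.nx 639 237 (.nr 638 2540 (.l1 (.ls 31 31 246)) (.l1 .sk)) (.nx 640 238 (.l1 .sk) (.lg 0 false 2
  97 97 31 0 4379760))) (.nr 643 65537 (.lg 0 false 1 89 89 29 0 2189880) .out)) (.nr 645 1025 (.lg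
  0 true 1 61 61 29 0 437976) .out))) .out) .out)) (.na 663 234 (.nx 662 1321124 (.nr 661 1482912
  (.nr 649 233 .s1 (.nx 657 41287 (.nx 651 237 (.nr 650 2550 (.l1 (.ls 16 17 244)) (.l1 .sk)) (.nx
  652 238 (.l1 .sk) (.lg 0 false 5 73 73 19 0 9480))) (.nr 660 16385 (.nr 658 1025 (.lg 0 false 1
  59 59 17 0 1896) (.nx 659 165142 (.lg 2 false 1 47 47 17 19093 1896) .out)) .out))) .out) .out)
  (.na 664 238 (.lg 0 false 1 0 0 16 0 24) (.nx 675 1321124 (.nr 674 1482912 (.nr 665 238 .s1 (.nx
  672 165142 (.nx 667 237 (.nr 666 2638 (.l1 (.ls 16 31 239)) (.l1 .sk)) (.nx 668 238 (.l1 .sk)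
  (.nx 670 26009 (.lg 0 false 2 89 89 37 0 26544) (.nr 671 65537 (.lg 0 true 1 83 83 31 0 26544)
  .out)))) (.nr 673 1025 (.lg 0 true 1 61 61 31 0 26544) .out))) .out) .out)))) (.na 701 249 (.na
  689 246 (.nx 688 1321124 (.nr 687 1482912 (.nr 677 242 .s1 (.nx 680 238 (.nx 679 237 (.nr 678
  2681 (.l1 (.ls 19 31 235)) (.l1 .sk)) (.l1 .sk)) (.nx 685 41287 (.lg 0 false 5 73 83 31 0 208560)
  (.nr 686 16385 (.lg 0 false 1 83 83 29 0 125136) .out)))) .out) .out) (.nx 700 1321124 (.nr 699
  1482912 (.nr 690 246 .s1 (.nx 693 238 (.nx 692 237 (.nr 691 2714 (.l1 (.ls 23 31 231)) (.l1 .sk))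
  (.l1 .sk)) (.nx 695 41287 (.lg 0 false 2 89 89 31 0 11376) (.nr 698 16385 (.nr 696 1025 (.lg 0
  false 1 67 67 29 0 11376) (.nx 697 165142 (.lg 2 true 1 59 59 29 19093 398160) .out)) .out))))
  .out) .out)) (.na 715 251 (.nx 714 1321124 (.nr 713 1482912 (.nr 702 249 .s1 (.nx 704 237 (.nr
  703 2736 (.l1 (.ls 19 23 228)) (.l1 .sk)) (.nx 705 238 (.l1 .sk) (.nx 709 41287 (.lg 0 false 4 73
  73 23 0 11376) (.nr 712 16385 (.nr 710 1025 (.lg 0 false 1 59 59 19 0 28440) (.nx 711 165142 (.lg
  2 false 1 47 47 19 19093 5688) .out)) .out))))) .out) .out) (.na 716 254 (.lg 0 false 1 0 0 16 0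
  24) (.nx 727 1321124 (.nr 726 1482912 (.nr 717 254 .s1 (.nx 719 237 (.nr 718 2790 (.l1 (.ls 19 29
  224)) (.l1 .sk)) (.nx 720 238 (.l1 .sk) (.nx 722 41287 (.lg 0 false 2 83 83 23 0 3792) (.nr 725
  16385 (.nr 723 1025 (.lg 0 false 1 59 59 23 0 3792) (.nx 724 165142 (.lg 2 false 1 47 47 23 19093
  3792) .out)) .out))))) .out) .out)))))) (.na 8563 5793 (.na 2753 1024 (.na 1053 363 (.na 729 257
  .ne (.nx 1052 1321124 (.nr 1051 1482912 (.nr 730 257 .s1 (.nx 837 237 (.nr 836 3956 (.la (.ls 41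
  19 221)) (.l1 .sk)) (.nx 838 238 (.l1 .sk) (.nr 944 32769 (.la (.lg 0 true 2 73 73 23 0)) (.nx
  1050 26009 (.la (.lg 0 false 2 73 73 23 0)) .out))))) .out) .out)) (.na 1506 512 (.nx 1505
  1321124 (.nr 1504 1482912 (.nr 1054 363 .s1 (.nx 1205 238 (.nx 1204 237 (.nr 1203 5580 (.la (.ls
  43 19 157)) (.l1 .sk)) (.l1 .sk)) (.nr 1354 32769 (.la (.lg 0 true 2 73 73 23 0)) (.nx 1503 26009
  (.la (.lg 0 false 2 73 73 23 0)) .out)))) .out) .out) (.na 2151 725 (.nx 2150 1321124 (.nr 2149
  1482912 (.nr 1507 512 .s1 (.nx 1721 237 (.nr 1720 7901 (.la (.ls 41 23 182)) (.l1 .sk)) (.nx 1722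
  238 (.l1 .sk) (.nr 1935 32769 (.la (.lg 0 false 1 71 71 23 0)) (.nx 2148 26009 (.la (.lg 0 true 1
  71 71 23 0)) .out))))) .out) .out) (.nx 2752 20644 (.nr 2751 2097153 (.nr 2152 725 .s1 (.nx 2451
  2049 (.la (.ls 67 37 5793)) (.nr 2750 262145 (.la (.lg 0 false 1 53 53 29 0)) .out))) .out)
  .out)))) (.na 4809 2048 (.na 3607 1449 (.nx 3606 20644 (.nr 3605 2097153 (.nr 2754 1024 .s1 (.nx
  3179 3252 (.la (.ls 61 41 10330)) (.nr 3604 131073 (.la (.lg 0 false 1 43 43 29 0)) .out))) .out)
  .out) (.nx 4808 13005 (.nr 4807 2097153 (.nr 3608 1449 .s1 (.nx 4207 3252 (.la (.ls 97 41 7301))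
  (.nr 4806 16385 (.la (.lg 0 false 1 23 23 31 0)) .out))) .out) .out)) (.na 5661 2897 (.nx 5660
  13005 (.nr 5659 2097153 (.nr 4810 2048 .s1 (.la (.ls 59 53 82586))) .out) .out) (.na 6863 4096
  (.nx 6862 4097 (.nr 6861 1048577 (.nr 5662 2897 .s1 (.la (.ls 73 41 5797))) .out) .out) (.nx 8562
  5162 (.nr 8561 1048577 (.nr 6864 4096 .s1 (.la (.ls 71 41 6508))) .out) .out))))) (.na 21327
  65536 (.na 15172 11586 (.na 11370 8192 (.nx 11369 2049 (.nr 11368 524289 (.nr 8564 5793 .s1 (.nx
  8969 406 (.lx (.lp 59 37 2049)) (.la (.ls 59 37 2049)))) .out) .out) (.nx 15171 2049 (.nr 15170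
  524289 (.nr 11371 8192 .s1 (.nx 11776 406 (.lx (.lp 59 37 2897)) (.la (.ls 53 41 2897)))) .out)
  .out)) (.na 17223 16384 (.nx 17222 2049 (.nr 17221 131073 (.nr 15173 11586 .s1 (.lx (.lp 43 41
  4097))) .out) .out) (.na 19275 32768 (.nx 19274 2049 (.nr 19273 262145 (.nr 17224 16384 .s1 (.nx
  17547 324 (.lx (.lp 43 41 8193)) (.nr 19272 131073 (.lx (.lp 41 43 8193)) .out))) .out) .out)
  (.nx 21326 2049 (.nr 21325 524289 (.nr 19276 32768 .s1 (.nx 19599 324 (.lx (.lp 47 47 16385))
  (.nr 21324 262145 (.lx (.lp 43 47 16385)) .out))) .out) .out)))) (.na 24587 262144 (.na 22957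
  131072 (.nx 22956 1627 (.nr 22955 524289 (.nr 21328 65536 .s1 (.nx 21651 324 (.lx (.lp 16 0
  32769)) (.nr 22954 262145 (.lx (.lp 41 53 32769)) .out))) .out) .out) (.nx 24586 1627 (.nr 24585
  524289 (.nr 22958 131072 .s1 (.nx 23470 513 (.lx (.lp 16 53 65537)) (.nr 24584 262145 (.lx (.lp
  37 59 65537)) .out))) .out) .out)) (.na 25102 524288 (.nx 25101 513 (.nr 25100 1048577 (.nr 24588
  262144 .s1 (.lx (.lp 16 0 131073))) .out) .out) (.na 25104 1048577 (.nx 25103 324 (.l1 .sk) .out)
  .out)))))))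

def T86_1 : Ph :=
  (.na 527 9 (.na 385 6 (.na 220 5 (.nx 219 16777217 (.nr 218 1246976 (.nx 3 201 (.nx 2 200 (.nr 1
  49 (.lg 0 true 1 37 37 9 0 720) (.l1 .sk)) (.l1 .sk)) (.nx 46 29707 (.nr 24 155873 (.lg 0 false
  21 97 103 13 0 55440) (.nx 37 324 (.lg 0 false 13 79 83 13 0 9360) (.nx 38 16384 .out (.nr 45
  185365 (.lg 0 false 7 97 101 11 0 55440) .out)))) (.nr 217 220437 (.nx 150 524289 (.nr 59 729
  (.lg 0 true 13 83 89 13 0 9360) (.nx 86 65536 (.nr 85 185365 (.nx 72 44123 (.lg 1 false 13 97 103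
  13 124933 102960) (.lg 1 false 13 97 103 13 84114 102960)) .out) (.nr 93 2909 (.lg 2 true 7 89 97
  11 71919 55440) (.nx 106 92682 (.lg 1 false 13 97 103 13 67334 102960) (.nx 127 165142 (.nx 119
  131073 (.lg 1 false 13 97 103 13 47612 102960) (.nr 126 155873 (.lg 1 true 7 101 103 11 23815
  55440) .out)) (.nr 149 131073 (.nx 134 208065 (.lg 1 true 7 97 101 11 15899 55440) (.nr 148 55110
  (.nr 141 11603 (.lg 2 true 7 89 97 11 18023 55440) (.lg 2 false 7 89 101 11 5317 55440)) .out))
  .out)))))) (.nr 216 183 (.nr 202 32 (.lg 0 true 52 83 83 13 0 9360) (.nx 215 2097153 (.lg 0 true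
  13 83 83 13 0 9360) .out)) .out)) .out))) .out) .out) (.nx 384 16777217 (.nr 383 1482912 (.nx 223
  201 (.nx 222 200 (.nr 221 59 (.lg 0 true 1 31 31 9 0 360) (.l1 .sk)) (.l1 .sk)) (.nx 329 660563
  (.nx 255 41285 (.nr 236 155873 (.lg 0 false 13 103 107 16 0 720720) (.nx 254 2049 (.nx 249 324
  (.lg 0 false 13 73 73 16 0 4680) (.nx 250 645 .out (.nr 253 185365 (.lg 0 true 3 73 73 9 0 360)
  .out))) .out)) (.nr 328 220437 (.nr 268 956 (.lg 0 true 13 83 83 16 0 4680) (.nr 275 4213 (.lg 2
  true 7 83 83 11 69097 2520) (.nx 314 165142 (.nx 288 76448 (.lg 1 false 13 101 103 16 106887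
  720720) (.nx 301 112360 (.lg 1 false 13 101 103 16 57723 720720) (.lg 1 true 13 101 103 16 39274
  720720))) (.nr 327 131073 (.lg 2 false 13 101 103 16 15899 720720) .out)))) .out)) (.nr 382 217
  (.nr 368 37 (.lg 0 true 39 73 73 11 0 4680) (.nx 381 2097153 (.lg 0 true 13 73 73 16 0 4680)
  .out)) .out))) .out) .out)) (.na 386 8 .ne (.nx 526 16777217 (.nr 525 1048577 (.nx 491 2097153
  (.nx 388 200 (.nr 387 89 (.lg 0 true 1 31 31 9 0 720) (.l1 .sk)) (.nx 389 201 (.l1 .sk) (.nx 483
  1048577 (.nx 415 26007 (.nr 410 623489 (.nr 402 155873 (.lg 0 false 13 101 103 13 0 720720) (.nx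
  409 2049 (.lg 0 false 7 89 89 13 0 5040) .out)) (.nx 414 324 (.lg 0 false 4 73 73 11 0 720)
  .out)) (.nr 482 220437 (.nr 428 971 (.lg 0 true 13 83 89 13 0 9360) (.nx 442 52015 (.nr 441
  185365 (.lg 1 false 13 101 107 13 142707 720720) .out) (.nx 455 112360 (.lg 1 false 13 101 107 13
  84837 720720) (.nr 458 3732 (.lg 2 true 3 89 89 11 107990 720) (.nx 471 208065 (.lg 1 true 13 97
  107 13 39274 720720) (.nr 481 110219 (.nr 474 14343 (.lg 2 true 3 89 89 11 28097 720) (.lg 2
  false 7 89 97 13 10614 5040)) .out)))))) .out)) (.nr 490 129 (.lg 0 true 7 73 73 13 0 5040)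
  .out)))) (.nr 524 55 (.lg 0 true 33 79 79 13 0 7920) .out)) .out) .out))) (.na 641 11 (.na 640 10
  (.nx 639 16777217 (.nr 638 1048577 (.nx 611 2097153 (.nx 530 201 (.nx 529 200 (.nr 528 100 (.lg 0
  true 1 31 31 7 0 720) (.l1 .sk)) (.l1 .sk)) (.nx 531 257 (.l1 (.ls 83 37 2852)) (.nr 610 623489
  (.nx 552 41285 (.nr 544 185365 (.lg 0 false 13 97 101 16 0 9360) (.nx 551 2049 (.lg 0 false 7 83
  89 16 0 5040) .out)) (.nr 609 220437 (.nr 567 764 (.nx 559 1048577 (.lg 0 true 7 83 83 16 0 2520)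
  (.nr 566 154 (.lg 0 true 7 73 73 16 0 2520) .out)) (.nx 608 832257 (.nr 574 7077 (.lg 2 true 7 83
  89 16 108935 5040) (.nx 587 92682 (.lg 1 false 13 101 107 16 106887 720720) (.nx 600 208065 (.lg
  1 true 13 101 107 16 47612 720720) (.nr 607 110219 (.lg 2 false 7 89 97 16 11761 5040) .out))))
  .out)) .out)) .out))) (.nr 637 65 (.lg 0 true 26 79 79 16 0 9360) .out)) .out) .out) .ne) (.na
  713 12 (.nx 712 2097153 (.nr 711 1048577 (.nx 644 201 (.nx 643 200 (.nr 642 120 (.lg 0 false 1 31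
  31 9 0 7920) (.l1 .sk)) (.l1 .sk)) (.nx 703 660563 (.nx 661 26007 (.nx 645 257 (.l1 (.ls 83 31
  2334)) (.nr 660 623489 (.nr 652 155873 (.lg 0 false 7 101 101 16 0 55440) (.nx 659 1292 (.lg 0
  false 7 83 83 16 0 27720) .out)) .out)) (.nr 702 220437 (.nr 671 7143 (.nr 668 925 (.lg 0 true 7
  83 83 16 0 27720) (.lg 2 true 3 89 89 9 71413 7920)) (.nx 694 208065 (.nx 679 52015 (.nr 678
  185365 (.lg 1 false 7 101 103 16 142707 720720) .out) (.nx 686 104033 (.lg 1 false 7 101 103 16
  84837 720720) (.nr 693 185365 (.lg 1 true 7 101 103 16 35675 720720) .out))) (.nr 701 65537 (.lg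
  2 false 7 83 89 16 9248 55440) .out))) .out)) (.nr 710 65 (.lg 0 true 7 71 71 16 0 27720) .out)))
  .out) .out) (.na 785 15 (.nx 784 2097153 (.nr 783 1048577 (.nx 775 660563 (.nx 715 200 (.nr 714
  150 (.lg 0 true 1 37 37 13 0 720) (.l1 .sk)) (.nx 716 201 (.l1 .sk) (.nx 717 257 (.l1 (.ls 89 43
  2140)) (.nr 774 623489 (.nx 731 32768 (.nr 724 155873 (.lg 0 false 7 97 101 23 0 5040) (.nx 730
  8193 (.nx 727 1292 (.lg 0 false 3 89 89 19 0 720) (.nx 728 5160 .out (.nr 729 185365 (.lg 0 true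
  1 89 89 13 0 720) .out))) .out)) (.nr 773 185365 (.nr 740 4395 (.nr 738 1138 (.lg 0 true 7 83 83
  23 0 5040) (.lg 2 true 2 83 89 13 58046 720)) (.nr 741 8636 (.lg 2 false 1 83 83 13 15030 720)
  (.nx 748 48160 (.lg 1 false 7 97 107 23 113262 720720) (.nx 755 70783 (.lg 1 false 7 97 107 23
  77063 720720) (.nx 762 104033 (.lg 1 false 7 97 103 23 52433 720720) (.nr 772 155873 (.nx 769
  208065 (.lg 1 true 7 101 107 23 30005 720720) (.nr 771 65537 (.lg 2 false 2 89 97 13 7649 720)
  .out)) .out)))))) .out)) .out)))) (.nr 782 65 (.lg 0 true 7 71 73 23 0 5040) .out)) .out) .out)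
  (.nx 856 2097153 (.nr 855 1048577 (.nr 786 6 .s1 (.nx 790 257 (.nx 788 200 (.nr 787 160 (.lg 0
  true 1 31 31 16 0 7920) (.l1 .sk)) (.nx 789 201 (.l1 .sk) (.l1 (.ls 83 37 1712)))) (.nr 854
  623489 (.nr 837 155873 (.nx 831 660563 (.nr 817 65537 (.nx 797 20001 (.lg 0 false 7 83 83 17 0
  2520) (.nr 804 1188 (.lg 0 true 7 79 79 17 0 2520) (.lg 2 false 13 79 79 17 65736 4680))) (.nx
  830 208065 (.lg 0 true 13 101 107 17 0 720720) .out)) (.nr 836 65 (.lg 0 true 5 67 67 16 0 360)
  .out)) (.nx 853 104033 (.nx 844 1292 (.lg 0 false 7 79 79 17 0 2520) (.nx 845 5160 .out (.nr 852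
  185365 (.lg 0 true 7 89 101 17 0 55440) .out))) .out)) .out))) .out) .out)))))

def T86_2 : Ph :=
  (.na 465 133 (.na 354 49 (.na 273 21 (.na 185 10 (.na 133 5 (.na 67 2 (.nx 66 330282 (.nr 65
  311745 (.nx 48 20644 (.nx 2 21 (.nr 1 5 (.lg 0 true 1 23 23 5 0 2520) (.l1 .sk)) (.nx 3 22 (.l1
  .sk) (.nx 30 689 (.nr 16 38969 (.lg 0 true 13 79 79 9 0 32760) (.nx 29 52 (.lg 0 false 13 71 71 9
  0 2184) .out)) (.nr 47 4872 (.nr 43 309 (.lg 0 false 13 67 67 9 0 2184) (.lg 2 true 4 83 83 7
  1568 5040)) .out)))) (.nr 64 78 (.lg 0 true 16 73 73 9 0 336) .out)) .out) .out) (.na 132 3 (.nx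
  131 330282 (.nr 130 623489 (.nx 70 22 (.nx 69 21 (.nr 68 9 (.lg 0 true 1 23 23 5 0 5040) (.l1
  .sk)) (.l1 .sk)) (.nx 97 726 (.nr 83 65537 (.lg 0 false 13 79 79 9 0 4368) (.nx 96 52 (.lg 0
  false 13 71 71 9 0 4368) .out)) (.nr 129 9743 (.nr 123 154 (.lg 0 true 26 73 73 11 0 4368) (.nx
  128 20644 (.lg 2 true 5 83 83 9 2968 1680) .out)) .out))) .out) .out) .ne)) (.na 161 6 (.nx 160
  330282 (.nr 159 23172 (.nr 134 3 .s1 (.nx 136 21 (.nr 135 20 (.l1 (.ls 19 16 91)) (.l1 .sk)) (.nx
  137 22 (.l1 .sk) (.nr 148 129 (.lg 0 true 11 67 67 16 0 9240) (.nx 158 20644 (.nr 153 2898 (.nx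
  149 324 (.lg 0 true 1 67 67 9 0 27720) (.lg 2 true 4 61 61 13 1990 1680)) (.nx 157 3252 (.lg 0
  false 4 89 89 13 0 55440) .out)) .out))))) .out) .out) (.na 184 7 (.nx 183 330282 (.nr 182 27556
  (.nr 162 4 .s1 (.nx 165 22 (.nx 164 21 (.nr 163 23 (.lg 0 true 1 0 16 7 0 55440) (.l1 .sk)) (.l1
  .sk)) (.nx 170 3252 (.lg 0 true 5 73 73 11 0 5040) (.nr 181 154 (.lg 0 true 11 71 71 13 0 11088)
  .out)))) .out) .out) .ne))) (.na 240 15 (.na 202 11 (.nx 201 330282 (.nr 200 77937 (.nr 186 9 .s1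
  (.nx 191 1919 (.nx 188 21 (.nr 187 36 (.l1 (.ls 17 17 47)) (.l1 .sk)) (.nx 189 22 (.l1 .sk) (.lg
  0 true 2 83 83 11 0 5040))) (.nr 199 27556 (.nr 196 154 (.lg 0 true 5 67 67 13 0 1680) (.nx 198
  20644 (.lg 1 false 2 79 79 11 3170 5040) .out)) .out))) .out) .out) (.na 223 14 (.nx 222 330282
  (.nr 221 77937 (.nr 203 11 .s1 (.nr 209 154 (.nx 204 69 (.l1 (.ls 29 23 435)) (.lg 0 true 5 67 67
  16 0 9240)) (.nx 211 22 (.nx 210 21 (.l1 .sk) (.l1 .sk)) (.nx 220 20644 (.nx 215 2851 (.lg 0
  false 4 79 79 16 0 3696) (.nr 219 27556 (.lg 1 false 4 67 67 16 2134 55440) .out)) .out)))) .out)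
  .out) (.nx 239 330282 (.nr 238 77937 (.nr 224 14 .s1 (.nx 227 22 (.nx 226 21 (.nr 225 49 (.lg 0
  false 1 0 16 11 0 720720) (.l1 .sk)) (.l1 .sk)) (.nx 230 2851 (.lg 0 true 3 73 73 13 0 5040) (.nr
  237 27556 (.nr 234 154 (.lg 0 true 4 59 59 13 0 336) (.nx 236 20644 (.lg 1 false 2 67 67 11 2134
  1008) .out)) .out)))) .out) .out))) (.na 258 17 (.na 257 16 (.nx 256 330282 (.nr 255 77937 (.nr
  241 15 .s1 (.nx 243 21 (.nr 242 53 (.l1 (.ls 16 16 32)) (.l1 .sk)) (.nx 244 22 (.l1 .sk) (.nx 248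
  2851 (.lg 0 false 4 73 73 16 0 5040) (.nr 254 27556 (.nr 252 154 (.lg 0 true 4 67 67 16 0 5040)
  (.nx 253 20644 (.lg 1 false 1 73 73 16 2134 2520) .out)) .out))))) .out) .out) .ne) (.na 272 18
  (.nx 271 330282 (.nr 270 131073 (.nr 259 17 .s1 (.nx 262 22 (.nx 261 21 (.nr 260 59 (.l1 (.ls 16
  16 28)) (.l1 .sk)) (.l1 .sk)) (.nx 266 3252 (.lg 0 false 4 79 79 16 0 336) (.nr 269 27556 (.nr
  267 154 (.lg 0 false 1 73 73 11 0 168) (.nx 268 20644 (.lg 1 false 1 73 73 11 1871 504) .out))
  .out)))) .out) .out) (.lg 0 false 1 0 0 7 0 24))))) (.na 316 32 (.na 299 27 (.na 286 22 (.nx 285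
  330282 (.nr 284 131073 (.nr 274 21 .s1 (.nx 281 20644 (.nx 276 21 (.nr 275 73 (.lg 0 true 1 16 16
  16 0 720720) (.l1 .sk)) (.nx 277 22 (.l1 .sk) (.lg 0 true 4 83 83 16 0 5040))) (.nr 283 154 (.lg
  0 false 2 67 67 16 0 5040) .out))) .out) .out) (.na 298 23 (.nx 297 330282 (.nr 296 131073 (.nr
  287 22 .s1 (.nx 289 21 (.nr 288 76 (.l1 (.ls 17 13 23)) (.l1 .sk)) (.nx 290 22 (.l1 .sk) (.nx 292
  2049 (.lg 0 true 2 79 79 13 0 3696) (.nr 295 32769 (.nr 293 154 (.lg 0 false 1 73 73 9 0 3696)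
  (.nx 294 20644 (.lg 1 false 1 79 79 9 3530 55440) .out)) .out))))) .out) .out) .ne)) (.na 300 30
  (.lg 0 false 1 0 0 7 0 24) (.na 308 31 (.nx 307 41287 (.nr 306 131073 (.nr 301 30 .s1 (.nx 304
  3252 (.nx 302 324 (.l1 (.ls 71 47 3502)) (.nr 303 32769 (.lg 0 true 1 73 73 19 0 5040) .out))
  (.nr 305 257 (.lg 0 false 1 59 59 19 0 5040) .out))) .out) .out) (.nx 315 41287 (.nr 314 131073
  (.nr 309 31 .s1 (.nx 312 3252 (.nx 310 324 (.l1 (.ls 67 29 3389)) (.nr 311 32769 (.lg 0 true 1 73
  73 13 0 2520) .out)) (.nr 313 257 (.lg 0 false 1 59 59 13 0 168) .out))) .out) .out)))) (.na 329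
  37 (.na 317 33 .ne (.na 323 34 (.nx 322 41287 (.nr 321 262145 (.nr 318 33 .s1 (.nx 319 324 (.l1
  (.ls 71 41 3184)) (.nr 320 4097 (.lg 0 false 1 73 73 16 0 27720) .out))) .out) .out) (.nx 328
  41287 (.nr 327 262145 (.nr 324 34 .s1 (.nx 325 324 (.l1 (.ls 73 43 3090)) (.nr 326 4097 (.lg 0
  false 1 79 79 13 0 5040) .out))) .out) .out))) (.na 341 42 (.na 335 38 (.nx 334 41287 (.nr 333
  262145 (.nr 330 37 .s1 (.nx 331 324 (.l1 (.ls 71 31 2840)) (.nr 332 4097 (.lg 0 false 1 73 73 16
  0 168) .out))) .out) .out) (.nx 340 41287 (.nr 339 262145 (.nr 336 38 .s1 (.nx 337 324 (.l1 (.ls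
  73 43 2765)) (.nr 338 4097 (.lg 0 false 1 73 73 13 0 336) .out))) .out) .out)) (.na 348 46 (.nx
  347 41287 (.nr 346 262145 (.nr 342 42 .s1 (.nx 343 324 (.l1 (.ls 67 47 2502)) (.nr 345 4097 (.lg
  0 false 2 67 67 19 0 5040) .out))) .out) .out) (.nx 353 41287 (.nr 352 262145 (.nr 349 46 .s1
  (.nx 350 324 (.l1 (.ls 71 43 2285)) (.nr 351 4097 (.lg 0 false 1 73 73 13 0 5040) .out))) .out)
  .out)))))) (.na 407 85 (.na 370 66 (.na 362 62 (.na 355 50 (.lg 0 false 1 0 0 16 0 24) (.na 361
  54 (.nx 360 41287 (.nr 359 262145 (.nr 356 50 .s1 (.nx 357 324 (.l1 (.ls 71 41 2102)) (.nr 358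
  4097 (.lg 0 false 1 71 71 13 0 1680) .out))) .out) .out) (.lg 0 false 1 0 0 16 0 24))) (.na 368
  63 (.nx 367 41287 (.nr 366 262145 (.nr 363 62 .s1 (.nx 364 324 (.l1 (.ls 71 41 1696)) (.nr 365
  4097 (.lg 0 false 1 71 71 13 0 336) .out))) .out) .out) (.na 369 64 (.lg 0 false 1 0 0 16 0 24)
  .ne))) (.na 388 74 (.na 376 69 (.nx 375 20644 (.nr 374 524289 (.nr 371 66 .s1 (.nx 372 324 (.l1
  (.ls 73 43 1593)) (.nr 373 65537 (.lg 0 true 1 83 83 23 0 55440) .out))) .out) .out) (.na 382 70
  (.nx 381 20644 (.nr 380 524289 (.nr 377 69 .s1 (.nx 378 324 (.l1 (.ls 71 37 1524)) (.nr 379 65537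
  (.lg 0 true 1 79 79 16 0 504) .out))) .out) .out) (.nx 387 20644 (.nr 386 524289 (.nr 383 70 .s1
  (.nx 384 324 (.l1 (.ls 71 43 1502)) (.nr 385 65537 (.lg 0 true 1 79 79 23 0 5040) .out))) .out)
  .out))) (.na 400 81 (.na 394 75 (.nx 393 20644 (.nr 392 524289 (.nr 389 74 .s1 (.nx 390 324 (.l1
  (.ls 71 31 1421)) (.nr 391 65537 (.lg 0 true 1 79 79 13 0 336) .out))) .out) .out) (.nx 399 20644
  (.nr 398 524289 (.nr 395 75 .s1 (.nx 396 324 (.l1 (.ls 71 37 1402)) (.nr 397 65537 (.lg 0 true 1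
  79 79 17 0 2520) .out))) .out) .out)) (.na 401 82 (.lg 0 false 1 0 0 16 0 24) (.nx 406 20644 (.nr
  405 524289 (.nr 402 82 .s1 (.nx 403 324 (.l1 (.ls 71 37 1283)) (.nr 404 65537 (.lg 0 true 1 79 79
  13 0 336) .out))) .out) .out))))) (.na 433 107 (.na 420 98 (.na 413 90 (.nx 412 20644 (.nr 411
  524289 (.nr 408 85 .s1 (.nx 409 324 (.l1 (.ls 73 31 1238)) (.nr 410 65537 (.lg 0 true 1 79 79 16
  0 840) .out))) .out) .out) (.na 414 95 (.lg 0 false 1 0 0 16 0 24) (.nx 419 20644 (.nr 418 524289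
  (.nr 415 95 .s1 (.nx 416 324 (.l1 (.ls 71 31 1108)) (.nr 417 65537 (.lg 0 true 1 79 79 17 0 840)
  .out))) .out) .out))) (.na 421 101 (.lg 0 false 1 0 0 16 0 24) (.na 427 102 (.nx 426 20644 (.nr
  425 524289 (.nr 422 101 .s1 (.nx 423 324 (.l1 (.ls 67 23 1042)) (.nr 424 65537 (.lg 0 true 1 71
  71 16 0 168) .out))) .out) .out) (.nx 432 20644 (.nr 431 524289 (.nr 428 102 .s1 (.nx 429 324
  (.l1 (.ls 71 43 1032)) (.nr 430 65537 (.lg 0 true 1 79 79 29 0 5040) .out))) .out) .out)))) (.na
  451 114 (.na 439 110 (.nx 438 20644 (.nr 437 524289 (.nr 434 107 .s1 (.nx 435 324 (.l1 (.ls 61 23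
  984)) (.nr 436 65537 (.lg 0 true 1 71 71 16 0 168) .out))) .out) .out) (.na 445 111 (.nx 444
  20644 (.nr 443 524289 (.nr 440 110 .s1 (.nx 441 324 (.l1 (.ls 73 41 957)) (.nr 442 65537 (.lg 0
  true 1 79 79 29 0 18480) .out))) .out) .out) (.nx 450 20644 (.nr 449 524289 (.nr 446 111 .s1 (.nx
  447 324 (.l1 (.ls 67 29 948)) (.nr 448 65537 (.lg 0 true 1 73 73 17 0 2520) .out))) .out) .out)))
  (.na 463 126 (.na 457 123 (.nx 456 20644 (.nr 455 524289 (.nr 452 114 .s1 (.nx 453 324 (.l1 (.ls
  71 41 923)) (.nr 454 65537 (.lg 0 true 1 79 79 29 0 5040) .out))) .out) .out) (.nx 462 20644 (.nr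
  461 524289 (.nr 458 123 .s1 (.nx 459 324 (.l1 (.ls 67 29 856)) (.nr 460 65537 (.lg 0 true 1 73 73
  17 0 2520) .out))) .out) .out)) (.na 464 128 (.lg 0 false 1 0 0 16 0 24) .ne)))))) (.na 586 209
  (.na 528 175 (.na 496 154 (.na 483 142 (.na 471 138 (.nx 470 20644 (.nr 469 16385 (.nr 466 133
  .s1 (.nx 467 324 (.l1 (.ls 41 31 792)) (.nr 468 1025 (.lg 2 false 1 29 29 17 1630 2520) .out)))
  .out) .out) (.na 477 139 (.nx 476 20644 (.nr 475 16385 (.nr 472 138 .s1 (.nx 473 324 (.l1 (.ls 47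
  41 763)) (.nr 474 1025 (.lg 2 true 1 31 31 19 1571 1008) .out))) .out) .out) (.nx 482 20644 (.nr
  481 16385 (.nr 478 139 .s1 (.nx 479 324 (.l1 (.ls 37 23 758)) (.nr 480 1025 (.lg 2 true 1 23 23
  16 1560 2520) .out))) .out) .out))) (.na 489 149 (.nx 488 20644 (.nr 487 16385 (.nr 484 142 .s1
  (.nx 485 324 (.l1 (.ls 41 31 742)) (.nr 486 1025 (.lg 2 true 1 23 23 19 1527 5040) .out))) .out)
  .out) (.na 490 150 (.lg 0 false 1 0 0 16 0 24) (.nx 495 20644 (.nr 494 16385 (.nr 491 150 .s1
  (.nx 492 324 (.l1 (.ls 41 41 702)) (.nr 493 1025 (.lg 2 false 1 23 23 29 1446 5040) .out))) .out)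
  .out)))) (.na 514 162 (.na 502 155 (.nx 501 20644 (.nr 500 16385 (.nr 497 154 .s1 (.nx 498 324
  (.l1 (.ls 43 41 684)) (.nr 499 1025 (.lg 2 false 1 29 29 29 1408 55440) .out))) .out) .out) (.na
  508 161 (.nx 507 20644 (.nr 506 16385 (.nr 503 155 .s1 (.nx 504 324 (.l1 (.ls 47 29 680)) (.nr
  505 1025 (.lg 2 false 1 29 29 17 1399 2520) .out))) .out) .out) (.nx 513 20644 (.nr 512 16385
  (.nr 509 161 .s1 (.nx 510 324 (.l1 (.ls 41 31 655)) (.nr 511 1025 (.lg 2 true 1 23 23 17 1347
  2520) .out))) .out) .out))) (.na 521 170 (.na 515 165 (.lg 0 false 1 0 0 16 0 24) (.nx 520 20644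
  (.nr 519 16385 (.nr 516 165 .s1 (.nx 517 324 (.l1 (.ls 47 37 639)) (.nr 518 1025 (.lg 2 true 1 31
  31 29 1314 55440) .out))) .out) .out)) (.na 527 171 (.nx 526 20644 (.nr 525 16385 (.nr 522 170
  .s1 (.nx 523 324 (.l1 (.ls 47 37 620)) (.nr 524 1025 (.lg 2 true 1 37 37 31 1276 55440) .out)))
  .out) .out) (.lg 0 false 1 0 0 16 0 24))))) (.na 559 191 (.na 541 186 (.na 534 178 (.nx 533 20644
  (.nr 532 16385 (.nr 529 175 .s1 (.nx 530 324 (.l1 (.ls 37 29 602)) (.nr 531 1025 (.lg 2 false 1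
  19 19 19 1239 2520) .out))) .out) .out) (.na 540 181 (.nx 539 20644 (.nr 538 16385 (.nr 535 178
  .s1 (.nx 536 324 (.l1 (.ls 41 31 592)) (.nr 537 1025 (.lg 2 true 1 23 23 19 1218 55440) .out)))
  .out) .out) (.lg 0 false 1 0 0 16 0 24))) (.na 547 187 (.nx 546 20644 (.nr 545 16385 (.nr 542 186
  .s1 (.nx 543 324 (.l1 (.ls 29 41 567)) (.nr 544 1025 (.lg 2 false 1 19 19 29 1166 5040) .out)))
  .out) .out) (.na 553 190 (.nx 552 20644 (.nr 551 16385 (.nr 548 187 .s1 (.nx 549 324 (.l1 (.ls 47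
  29 564)) (.nr 550 1025 (.lg 2 false 1 31 31 23 1160 27720) .out))) .out) .out) (.nx 558 20644
  (.nr 557 16385 (.nr 554 190 .s1 (.nx 555 324 (.l1 (.ls 47 37 555)) (.nr 556 1025 (.lg 2 false 1
  31 31 31 1141 5040) .out))) .out) .out)))) (.na 572 198 (.na 565 193 (.nx 564 20644 (.nr 563
  16385 (.nr 560 191 .s1 (.nx 561 324 (.l1 (.ls 31 19 552)) (.nr 562 1025 (.lg 2 true 1 17 17 16
  1135 2520) .out))) .out) .out) (.na 571 197 (.nx 570 20644 (.nr 569 16385 (.nr 566 193 .s1 (.nx
  567 324 (.l1 (.ls 37 19 546)) (.nr 568 1025 (.lg 2 true 1 19 19 16 1124 27720) .out))) .out)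
  .out) (.lg 0 false 1 0 0 16 0 24))) (.na 579 206 (.na 573 202 (.lg 0 false 1 0 0 16 0 24) (.nx
  578 20644 (.nr 577 16385 (.nr 574 202 .s1 (.nx 575 324 (.l1 (.ls 37 31 522)) (.nr 576 1025 (.lg 2
  true 1 19 19 23 1074 5040) .out))) .out) .out)) (.na 585 207 (.nx 584 20644 (.nr 583 16385 (.nr
  580 206 .s1 (.nx 581 324 (.l1 (.ls 37 31 512)) (.nr 582 1025 (.lg 2 false 1 19 19 23 1053 5040)
  .out))) .out) .out) (.lg 0 false 1 0 0 16 0 24)))))) (.na 649 242 (.na 622 223 (.na 604 214 (.na
  592 210 (.nx 591 20644 (.nr 590 16385 (.nr 587 209 .s1 (.nx 588 324 (.l1 (.ls 43 29 505)) (.nr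
  589 1025 (.lg 2 true 1 29 29 17 1038 27720) .out))) .out) .out) (.na 598 213 (.nx 597 20644 (.nr
  596 16385 (.nr 593 210 .s1 (.nx 594 324 (.l1 (.ls 41 41 502)) (.nr 595 1025 (.lg 2 true 1 19 19
  31 1033 5040) .out))) .out) .out) (.nx 603 20644 (.nr 602 16385 (.nr 599 213 .s1 (.nx 600 324
  (.l1 (.ls 37 29 495)) (.nr 601 1025 (.lg 2 true 1 17 17 19 1018 2520) .out))) .out) .out))) (.na
  610 218 (.nx 609 20644 (.nr 608 16385 (.nr 605 214 .s1 (.nx 606 324 (.l1 (.ls 37 29 493)) (.nr
  607 1025 (.lg 2 false 1 19 19 23 1013 55440) .out))) .out) .out) (.na 616 222 (.nx 615 20644 (.nr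
  614 16385 (.nr 611 218 .s1 (.nx 612 324 (.l1 (.ls 37 29 484)) (.nr 613 1025 (.lg 2 false 1 19 19
  23 995 5040) .out))) .out) .out) (.nx 621 20644 (.nr 620 16385 (.nr 617 222 .s1 (.nx 618 324 (.l1
  (.ls 31 31 475)) (.nr 619 1025 (.lg 2 false 1 19 19 29 977 55440) .out))) .out) .out)))) (.na 630
  230 (.na 628 225 (.nx 627 20644 (.nr 626 16385 (.nr 623 223 .s1 (.nx 624 324 (.l1 (.ls 31 19
  473)) (.nr 625 1025 (.lg 2 false 1 17 17 16 973 2520) .out))) .out) .out) (.na 629 229 (.lg 0
  false 1 0 0 16 0 24) (.lg 0 false 1 0 0 16 0 24))) (.na 642 239 (.na 636 238 (.nx 635 20644 (.nr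
  634 16385 (.nr 631 230 .s1 (.nx 632 324 (.l1 (.ls 43 37 459)) (.nr 633 1025 (.lg 2 false 1 19 29
  31 943 5040) .out))) .out) .out) (.nx 641 20644 (.nr 640 16385 (.nr 637 238 .s1 (.nx 638 324 (.l1
  (.ls 41 37 444)) (.nr 639 1025 (.lg 2 true 1 19 19 31 911 5040) .out))) .out) .out)) (.na 648 241
  (.nx 647 20644 (.nr 646 16385 (.nr 643 239 .s1 (.nx 644 324 (.l1 (.ls 31 19 442)) (.nr 645 1025
  (.lg 2 true 1 16 16 17 907 2520) .out))) .out) .out) (.lg 0 false 1 0 0 16 0 24))))) (.na 675 256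
  (.na 662 250 (.na 655 245 (.nx 654 20644 (.nr 653 16385 (.nr 650 242 .s1 (.nx 651 324 (.l1 (.ls
  41 31 436)) (.nr 652 1025 (.lg 2 true 1 19 19 29 896 55440) .out))) .out) .out) (.na 656 246 (.lg
  0 false 1 0 0 16 0 24) (.nx 661 20644 (.nr 660 16385 (.nr 657 246 .s1 (.nx 658 324 (.l1 (.ls 37
  37 429)) (.nr 659 1025 (.lg 2 true 1 17 17 29 882 5040) .out))) .out) .out))) (.na 668 251 (.nx
  667 20644 (.nr 666 16385 (.nr 663 250 .s1 (.nx 664 324 (.l1 (.ls 37 31 422)) (.nr 665 1025 (.lg 2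
  true 1 17 17 29 868 5040) .out))) .out) .out) (.na 669 255 (.lg 0 false 1 0 0 16 0 24) (.nx 674
  20644 (.nr 673 16385 (.nr 670 255 .s1 (.nx 671 324 (.l1 (.ls 43 31 414)) (.nr 672 1025 (.lg 2
  true 1 23 23 29 851 2520) .out))) .out) .out)))) (.na 2030 1024 (.na 676 257 .ne (.na 1190 512
  (.nx 1189 20644 (.nr 1188 4097 (.nr 677 257 .s1 (.nx 932 324 (.la (.ls 41 23 411)) (.nr 1187 2049
  (.la (.lg 2 false 1 19 19 23 1411)) .out))) .out) .out) (.nx 2029 20644 (.nr 2028 8193 (.nr 1191
  512 .s1 (.nx 1515 324 (.nx 1242 52 (.lx (.lp 16 0 257)) (.nr 1514 4097 (.lx (.lp 37 19 257))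
  .out)) (.nr 2027 2049 (.la (.lg 2 true 1 16 16 29 1411)) .out))) .out) .out))) (.na 2219 4096
  (.na 2135 2048 (.nx 2134 103 (.nr 2133 8193 (.nr 2031 1024 .s1 (.lx (.lp 16 23 513))) .out) .out)
  (.nx 2218 82 (.nr 2217 8193 (.nr 2136 2048 .s1 (.lx (.lp 16 0 1025))) .out) .out)) (.na 2303 8193
  (.nx 2302 82 (.nr 2301 16385 (.nr 2220 4096 .s1 (.lx (.lp 16 29 2049))) .out) .out) .out)))))))

theorem c86 :
    OkQ ckI L10 237 46 1099511627776 0 34359738368 1 1099511627776 ∧
    OkQ ckI L9 200 4 16 0 34359738368 1 1099511627776 ∧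
    OkQ ckI L3 21 1 1099511627776 0 34359738368 1 1099511627776 := by
  refine ⟨?_, ?_, ?_⟩
  · refine fin 1896 25105 T86_0 ?_
    refine jn 11 (by decide +kernel) ?_
    refine jn 19 (by decide +kernel) ?_
    refine jn 32 (by decide +kernel) ?_
    refine jn 41 (by decide +kernel) ?_
    refine jn 55 (by decide +kernel) ?_
    refine jn 62 (by decide +kernel) ?_
    refine jn 79 (by decide +kernel) ?_
    refine jn 86 (by decide +kernel) ?_
    refine jn 97 (by decide +kernel) ?_
    refine jn 104 (by decide +kernel) ?_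
    refine jn 115 (by decide +kernel) ?_
    refine jn 122 (by decide +kernel) ?_
    refine jn 139 (by decide +kernel) ?_
    refine jn 153 (by decide +kernel) ?_
    refine jn 161 (by decide +kernel) ?_
    refine jn 172 (by decide +kernel) ?_
    refine jn 179 (by decide +kernel) ?_
    refine jn 196 (by decide +kernel) ?_
    refine jn 207 (by decide +kernel) ?_
    refine jn 211 (by decide +kernel) ?_
    refine jn 215 (by decide +kernel) ?_
    refine jn 227 (by decide +kernel) ?_
    refine jn 238 (by decide +kernel) ?_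
    refine jn 248 (by decide +kernel) ?_
    refine jn 261 (by decide +kernel) ?_
    refine jn 278 (by decide +kernel) ?_
    refine jn 289 (by decide +kernel) ?_
    refine jn 290 (by decide +kernel) ?_
    refine jn 291 (by decide +kernel) ?_
    refine jn 292 (by decide +kernel) ?_
    refine jn 293 (by decide +kernel) ?_
    refine jn 294 (by decide +kernel) ?_
    refine jn 295 (by decide +kernel) ?_
    refine jn 296 (by decide +kernel) ?_
    refine jn 298 (by decide +kernel) ?_
    refine jn 310 (by decide +kernel) ?_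
    refine jn 327 (by decide +kernel) ?_
    refine jn 347 (by decide +kernel) ?_
    refine jn 362 (by decide +kernel) ?_
    refine jn 377 (by decide +kernel) ?_
    refine jn 393 (by decide +kernel) ?_
    refine jn 407 (by decide +kernel) ?_
    refine jn 420 (by decide +kernel) ?_
    refine jn 435 (by decide +kernel) ?_
    refine jn 454 (by decide +kernel) ?_
    refine jn 469 (by decide +kernel) ?_
    refine jn 483 (by decide +kernel) ?_
    refine jn 498 (by decide +kernel) ?_
    refine jn 512 (by decide +kernel) ?_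
    refine jn 524 (by decide +kernel) ?_
    refine jn 535 (by decide +kernel) ?_
    refine jn 548 (by decide +kernel) ?_
    refine jn 564 (by decide +kernel) ?_
    refine jn 580 (by decide +kernel) ?_
    refine jn 591 (by decide +kernel) ?_
    refine jn 604 (by decide +kernel) ?_
    refine jn 619 (by decide +kernel) ?_
    refine jn 636 (by decide +kernel) ?_
    refine jn 643 (by decide +kernel) ?_
    refine jn 658 (by decide +kernel) ?_
    refine jn 671 (by decide +kernel) ?_
    refine jn 686 (by decide +kernel) ?_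
    refine jn 702 (by decide +kernel) ?_
    refine jn 711 (by decide +kernel) ?_
    refine jn 735 (by decide +kernel) ?_
    refine jn 795 (by decide +kernel) ?_
    refine jn 839 (by decide +kernel) ?_
    refine jn 844 (by decide +kernel) ?_
    refine jn 858 (by decide +kernel) ?_
    refine jn 867 (by decide +kernel) ?_
    refine jn 868 (by decide +kernel) ?_
    refine jn 879 (by decide +kernel) ?_
    refine jn 880 (by decide +kernel) ?_
    refine jn 881 (by decide +kernel) ?_
    refine jn 899 (by decide +kernel) ?_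
    refine jn 903 (by decide +kernel) ?_
    refine jn 912 (by decide +kernel) ?_
    refine jn 919 (by decide +kernel) ?_
    refine jn 927 (by decide +kernel) ?_
    refine jn 938 (by decide +kernel) ?_
    refine jn 939 (by decide +kernel) ?_
    refine jn 945 (by decide +kernel) ?_
    refine jn 950 (by decide +kernel) ?_
    refine jn 964 (by decide +kernel) ?_
    refine jn 973 (by decide +kernel) ?_
    refine jn 980 (by decide +kernel) ?_
    refine jn 985 (by decide +kernel) ?_
    refine jn 986 (by decide +kernel) ?_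
    refine jn 996 (by decide +kernel) ?_
    refine jn 1009 (by decide +kernel) ?_
    refine jn 1021 (by decide +kernel) ?_
    refine jn 1033 (by decide +kernel) ?_
    refine jn 1044 (by decide +kernel) ?_
    refine jn 1049 (by decide +kernel) ?_
    refine jn 1097 (by decide +kernel) ?_
    refine jn 1180 (by decide +kernel) ?_
    refine jn 1216 (by decide +kernel) ?_
    refine jn 1219 (by decide +kernel) ?_
    refine jn 1221 (by decide +kernel) ?_
    refine jn 1233 (by decide +kernel) ?_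
    refine jn 1235 (by decide +kernel) ?_
    refine jn 1240 (by decide +kernel) ?_
    refine jn 1248 (by decide +kernel) ?_
    refine jn 1253 (by decide +kernel) ?_
    refine jn 1264 (by decide +kernel) ?_
    refine jn 1284 (by decide +kernel) ?_
    refine jn 1299 (by decide +kernel) ?_
    refine jn 1308 (by decide +kernel) ?_
    refine jn 1316 (by decide +kernel) ?_
    refine jn 1340 (by decide +kernel) ?_
    refine jn 1348 (by decide +kernel) ?_
    refine jn 1354 (by decide +kernel) ?_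
    refine jn 1368 (by decide +kernel) ?_
    refine jn 1380 (by decide +kernel) ?_
    refine jn 1384 (by decide +kernel) ?_
    refine jn 1397 (by decide +kernel) ?_
    refine jn 1412 (by decide +kernel) ?_
    refine jn 1433 (by decide +kernel) ?_
    refine jn 1453 (by decide +kernel) ?_
    refine jn 1464 (by decide +kernel) ?_
    refine jn 1469 (by decide +kernel) ?_
    refine jn 1492 (by decide +kernel) ?_
    refine jn 1498 (by decide +kernel) ?_
    refine jn 1561 (by decide +kernel) ?_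
    refine jn 1626 (by decide +kernel) ?_
    refine jn 1709 (by decide +kernel) ?_
    refine jn 1743 (by decide +kernel) ?_
    refine jn 1749 (by decide +kernel) ?_
    refine jn 1756 (by decide +kernel) ?_
    refine jn 1764 (by decide +kernel) ?_
    refine jn 1788 (by decide +kernel) ?_
    refine jn 1793 (by decide +kernel) ?_
    refine jn 1808 (by decide +kernel) ?_
    refine jn 1812 (by decide +kernel) ?_
    refine jn 1829 (by decide +kernel) ?_
    refine jn 1843 (by decide +kernel) ?_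
    refine jn 1873 (by decide +kernel) ?_
    refine jn 1884 (by decide +kernel) ?_
    refine jn 1893 (by decide +kernel) ?_
    refine jn 1907 (by decide +kernel) ?_
    refine jn 1924 (by decide +kernel) ?_
    refine jn 1944 (by decide +kernel) ?_
    refine jn 1960 (by decide +kernel) ?_
    refine jn 1969 (by decide +kernel) ?_
    refine jn 1977 (by decide +kernel) ?_
    refine jn 2001 (by decide +kernel) ?_
    refine jn 2006 (by decide +kernel) ?_
    refine jn 2021 (by decide +kernel) ?_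
    refine jn 2025 (by decide +kernel) ?_
    refine jn 2042 (by decide +kernel) ?_
    refine jn 2056 (by decide +kernel) ?_
    refine jn 2086 (by decide +kernel) ?_
    refine jn 2101 (by decide +kernel) ?_
    refine jn 2109 (by decide +kernel) ?_
    refine jn 2122 (by decide +kernel) ?_
    refine jn 2141 (by decide +kernel) ?_
    refine jn 2186 (by decide +kernel) ?_
    refine jn 2234 (by decide +kernel) ?_
    refine jn 2296 (by decide +kernel) ?_
    refine jn 2344 (by decide +kernel) ?_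
    refine jn 2393 (by decide +kernel) ?_
    refine jn 2445 (by decide +kernel) ?_
    refine jn 2468 (by decide +kernel) ?_
    refine jn 2483 (by decide +kernel) ?_
    refine jn 2492 (by decide +kernel) ?_
    refine jn 2517 (by decide +kernel) ?_
    refine jn 2549 (by decide +kernel) ?_
    refine jn 2584 (by decide +kernel) ?_
    refine jn 2595 (by decide +kernel) ?_
    refine jn 2624 (by decide +kernel) ?_
    refine jn 2629 (by decide +kernel) ?_
    refine jn 2648 (by decide +kernel) ?_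
    refine jn 2672 (by decide +kernel) ?_
    refine jn 2692 (by decide +kernel) ?_
    refine jn 2723 (by decide +kernel) ?_
    refine jn 2728 (by decide +kernel) ?_
    refine jn 2761 (by decide +kernel) ?_
    refine jn 2807 (by decide +kernel) ?_
    refine jn 2848 (by decide +kernel) ?_
    refine jn 2892 (by decide +kernel) ?_
    refine jn 2941 (by decide +kernel) ?_
    refine jn 2983 (by decide +kernel) ?_
    refine jn 3056 (by decide +kernel) ?_
    refine jn 3108 (by decide +kernel) ?_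
    refine jn 3149 (by decide +kernel) ?_
    refine jn 3193 (by decide +kernel) ?_
    refine jn 3221 (by decide +kernel) ?_
    refine jn 3234 (by decide +kernel) ?_
    refine jn 3264 (by decide +kernel) ?_
    refine jn 3281 (by decide +kernel) ?_
    refine jn 3317 (by decide +kernel) ?_
    refine jn 3344 (by decide +kernel) ?_
    refine jn 3369 (by decide +kernel) ?_
    refine jn 3396 (by decide +kernel) ?_
    refine jn 3429 (by decide +kernel) ?_
    refine jn 3481 (by decide +kernel) ?_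
    refine jn 3508 (by decide +kernel) ?_
    refine jn 3536 (by decide +kernel) ?_
    refine jn 3553 (by decide +kernel) ?_
    refine jn 3589 (by decide +kernel) ?_
    refine jn 3636 (by decide +kernel) ?_
    refine jn 3686 (by decide +kernel) ?_
    refine jn 3753 (by decide +kernel) ?_
    refine jn 3825 (by decide +kernel) ?_
    refine jn 3881 (by decide +kernel) ?_
    refine jn 3930 (by decide +kernel) ?_
    refine jn 3967 (by decide +kernel) ?_
    refine jn 4045 (by decide +kernel) ?_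
    refine jn 4101 (by decide +kernel) ?_
    refine jn 4161 (by decide +kernel) ?_
    refine jn 4220 (by decide +kernel) ?_
    refine jn 4260 (by decide +kernel) ?_
    refine jn 4305 (by decide +kernel) ?_
    refine jn 4347 (by decide +kernel) ?_
    refine jn 4417 (by decide +kernel) ?_
    refine jn 4452 (by decide +kernel) ?_
    refine jn 4507 (by decide +kernel) ?_
    refine jn 4529 (by decide +kernel) ?_
    refine jn 4552 (by decide +kernel) ?_
    refine jn 4589 (by decide +kernel) ?_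
    refine jn 4651 (by decide +kernel) ?_
    refine jn 4676 (by decide +kernel) ?_
    refine jn 4749 (by decide +kernel) ?_
    refine jn 4781 (by decide +kernel) ?_
    refine jn 4820 (by decide +kernel) ?_
    refine jn 4848 (by decide +kernel) ?_
    refine jn 4869 (by decide +kernel) ?_
    refine jn 4899 (by decide +kernel) ?_
    refine jn 4933 (by decide +kernel) ?_
    refine jn 4965 (by decide +kernel) ?_
    refine jn 4993 (by decide +kernel) ?_
    refine jn 5011 (by decide +kernel) ?_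
    refine jn 5028 (by decide +kernel) ?_
    refine jn 5060 (by decide +kernel) ?_
    refine jn 5103 (by decide +kernel) ?_
    refine jn 5125 (by decide +kernel) ?_
    refine jn 5144 (by decide +kernel) ?_
    refine jn 5171 (by decide +kernel) ?_
    refine jn 5208 (by decide +kernel) ?_
    refine jn 5248 (by decide +kernel) ?_
    refine jn 5279 (by decide +kernel) ?_
    refine jn 5296 (by decide +kernel) ?_
    refine jn 5359 (by decide +kernel) ?_
    refine jn 5380 (by decide +kernel) ?_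
    refine jn 5411 (by decide +kernel) ?_
    refine jn 5440 (by decide +kernel) ?_
    refine jn 5468 (by decide +kernel) ?_
    refine jn 5520 (by decide +kernel) ?_
    refine jn 5548 (by decide +kernel) ?_
    refine jn 5577 (by decide +kernel) ?_
    refine jn 5616 (by decide +kernel) ?_
    refine jn 5682 (by decide +kernel) ?_
    refine jn 5739 (by decide +kernel) ?_
    refine jn 5794 (by decide +kernel) ?_
    refine jn 5848 (by decide +kernel) ?_
    refine jn 5928 (by decide +kernel) ?_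
    refine jn 6004 (by decide +kernel) ?_
    refine jn 6067 (by decide +kernel) ?_
    refine jn 6134 (by decide +kernel) ?_
    refine jn 6216 (by decide +kernel) ?_
    refine jn 6307 (by decide +kernel) ?_
    refine jn 6399 (by decide +kernel) ?_
    refine jn 6483 (by decide +kernel) ?_
    refine jn 6571 (by decide +kernel) ?_
    refine jn 6663 (by decide +kernel) ?_
    refine jn 6727 (by decide +kernel) ?_
    refine jn 6799 (by decide +kernel) ?_
    refine jn 6894 (by decide +kernel) ?_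
    refine jn 6954 (by decide +kernel) ?_
    refine jn 7030 (by decide +kernel) ?_
    refine jn 7114 (by decide +kernel) ?_
    refine jn 7191 (by decide +kernel) ?_
    refine jn 7266 (by decide +kernel) ?_
    refine jn 7354 (by decide +kernel) ?_
    refine jn 7462 (by decide +kernel) ?_
    refine jn 7557 (by decide +kernel) ?_
    refine jn 7627 (by decide +kernel) ?_
    refine jn 7707 (by decide +kernel) ?_
    refine jn 7801 (by decide +kernel) ?_
    refine jn 7877 (by decide +kernel) ?_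
    refine jn 7959 (by decide +kernel) ?_
    refine jn 8046 (by decide +kernel) ?_
    refine jn 8135 (by decide +kernel) ?_
    refine jn 8236 (by decide +kernel) ?_
    refine jn 8326 (by decide +kernel) ?_
    refine jn 8395 (by decide +kernel) ?_
    refine jn 8489 (by decide +kernel) ?_
    refine jn 8564 (by decide +kernel) ?_
    refine jn 8987 (by decide +kernel) ?_
    refine jn 9118 (by decide +kernel) ?_
    refine jn 9235 (by decide +kernel) ?_
    refine jn 9357 (by decide +kernel) ?_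
    refine jn 9490 (by decide +kernel) ?_
    refine jn 9618 (by decide +kernel) ?_
    refine jn 9757 (by decide +kernel) ?_
    refine jn 9887 (by decide +kernel) ?_
    refine jn 10015 (by decide +kernel) ?_
    refine jn 10163 (by decide +kernel) ?_
    refine jn 10310 (by decide +kernel) ?_
    refine jn 10490 (by decide +kernel) ?_
    refine jn 10638 (by decide +kernel) ?_
    refine jn 10778 (by decide +kernel) ?_
    refine jn 10942 (by decide +kernel) ?_
    refine jn 11069 (by decide +kernel) ?_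
    refine jn 11219 (by decide +kernel) ?_
    refine jn 11371 (by decide +kernel) ?_
    refine jn 11806 (by decide +kernel) ?_
    refine jn 11970 (by decide +kernel) ?_
    refine jn 12133 (by decide +kernel) ?_
    refine jn 12313 (by decide +kernel) ?_
    refine jn 12462 (by decide +kernel) ?_
    refine jn 12645 (by decide +kernel) ?_
    refine jn 12821 (by decide +kernel) ?_
    refine jn 13002 (by decide +kernel) ?_
    refine jn 13189 (by decide +kernel) ?_
    refine jn 13346 (by decide +kernel) ?_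
    refine jn 13495 (by decide +kernel) ?_
    refine jn 13650 (by decide +kernel) ?_
    refine jn 13818 (by decide +kernel) ?_
    refine jn 13986 (by decide +kernel) ?_
    refine jn 14153 (by decide +kernel) ?_
    refine jn 14325 (by decide +kernel) ?_
    refine jn 14506 (by decide +kernel) ?_
    refine jn 14690 (by decide +kernel) ?_
    refine jn 14875 (by decide +kernel) ?_
    refine jn 15047 (by decide +kernel) ?_
    refine jn 15274 (by decide +kernel) ?_
    refine jn 15748 (by decide +kernel) ?_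
    refine jn 15970 (by decide +kernel) ?_
    refine jn 16146 (by decide +kernel) ?_
    refine jn 16289 (by decide +kernel) ?_
    refine jn 16405 (by decide +kernel) ?_
    refine jn 16496 (by decide +kernel) ?_
    refine jn 16608 (by decide +kernel) ?_
    refine jn 16683 (by decide +kernel) ?_
    refine jn 16762 (by decide +kernel) ?_
    refine jn 16833 (by decide +kernel) ?_
    refine jn 16907 (by decide +kernel) ?_
    refine jn 16974 (by decide +kernel) ?_
    refine jn 17029 (by decide +kernel) ?_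
    refine jn 17091 (by decide +kernel) ?_
    refine jn 17143 (by decide +kernel) ?_
    refine jn 17196 (by decide +kernel) ?_
    refine jn 17464 (by decide +kernel) ?_
    refine jn 17758 (by decide +kernel) ?_
    refine jn 17938 (by decide +kernel) ?_
    refine jn 18046 (by decide +kernel) ?_
    refine jn 18156 (by decide +kernel) ?_
    refine jn 18264 (by decide +kernel) ?_
    refine jn 18353 (by decide +kernel) ?_
    refine jn 18440 (by decide +kernel) ?_
    refine jn 18509 (by decide +kernel) ?_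
    refine jn 18586 (by decide +kernel) ?_
    refine jn 18663 (by decide +kernel) ?_
    refine jn 18726 (by decide +kernel) ?_
    refine jn 18782 (by decide +kernel) ?_
    refine jn 18837 (by decide +kernel) ?_
    refine jn 18881 (by decide +kernel) ?_
    refine jn 18932 (by decide +kernel) ?_
    refine jn 18987 (by decide +kernel) ?_
    refine jn 19041 (by decide +kernel) ?_
    refine jn 19084 (by decide +kernel) ?_
    refine jn 19133 (by decide +kernel) ?_
    refine jn 19177 (by decide +kernel) ?_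
    refine jn 19220 (by decide +kernel) ?_
    refine jn 19259 (by decide +kernel) ?_
    refine jn 19564 (by decide +kernel) ?_
    refine jn 19890 (by decide +kernel) ?_
    refine jn 20124 (by decide +kernel) ?_
    refine jn 20286 (by decide +kernel) ?_
    refine jn 20408 (by decide +kernel) ?_
    refine jn 20551 (by decide +kernel) ?_
    refine jn 20672 (by decide +kernel) ?_
    refine jn 20781 (by decide +kernel) ?_
    refine jn 20882 (by decide +kernel) ?_
    refine jn 20958 (by decide +kernel) ?_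
    refine jn 21030 (by decide +kernel) ?_
    refine jn 21112 (by decide +kernel) ?_
    refine jn 21182 (by decide +kernel) ?_
    refine jn 21252 (by decide +kernel) ?_
    refine jn 21320 (by decide +kernel) ?_
    refine jn 21952 (by decide +kernel) ?_
    refine jn 22159 (by decide +kernel) ?_
    refine jn 22386 (by decide +kernel) ?_
    refine jn 22586 (by decide +kernel) ?_
    refine jn 22753 (by decide +kernel) ?_
    refine jn 22909 (by decide +kernel) ?_
    refine jn 23519 (by decide +kernel) ?_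
    refine jn 23892 (by decide +kernel) ?_
    refine jn 24132 (by decide +kernel) ?_
    refine jn 24356 (by decide +kernel) ?_
    refine jn 24553 (by decide +kernel) ?_
    exact je (by decide +kernel)
  · refine fin 360 857 T86_1 ?_
    refine jn 4 (by decide +kernel) ?_
    refine jn 6 (by decide +kernel) ?_
    refine jn 8 (by decide +kernel) ?_
    refine jn 10 (by decide +kernel) ?_
    refine jn 12 (by decide +kernel) ?_
    refine jn 14 (by decide +kernel) ?_
    refine jn 16 (by decide +kernel) ?_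
    refine jn 17 (by decide +kernel) ?_
    refine jn 19 (by decide +kernel) ?_
    refine jn 21 (by decide +kernel) ?_
    refine jn 23 (by decide +kernel) ?_
    refine jn 24 (by decide +kernel) ?_
    refine jn 37 (by decide +kernel) ?_
    refine jn 46 (by decide +kernel) ?_
    refine jn 48 (by decide +kernel) ?_
    refine jn 51 (by decide +kernel) ?_
    refine jn 53 (by decide +kernel) ?_
    refine jn 56 (by decide +kernel) ?_
    refine jn 59 (by decide +kernel) ?_
    refine jn 69 (by decide +kernel) ?_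
    refine jn 79 (by decide +kernel) ?_
    refine jn 85 (by decide +kernel) ?_
    refine jn 93 (by decide +kernel) ?_
    refine jn 103 (by decide +kernel) ?_
    refine jn 106 (by decide +kernel) ?_
    refine jn 116 (by decide +kernel) ?_
    refine jn 126 (by decide +kernel) ?_
    refine jn 134 (by decide +kernel) ?_
    refine jn 141 (by decide +kernel) ?_
    refine jn 148 (by decide +kernel) ?_
    refine jn 150 (by decide +kernel) ?_
    refine jn 155 (by decide +kernel) ?_
    refine jn 202 (by decide +kernel) ?_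
    refine jn 215 (by decide +kernel) ?_
    refine jn 230 (by decide +kernel) ?_
    refine jn 236 (by decide +kernel) ?_
    refine jn 255 (by decide +kernel) ?_
    refine jn 268 (by decide +kernel) ?_
    refine jn 288 (by decide +kernel) ?_
    refine jn 314 (by decide +kernel) ?_
    refine jn 368 (by decide +kernel) ?_
    refine jn 387 (by decide +kernel) ?_
    refine jn 391 (by decide +kernel) ?_
    refine jn 394 (by decide +kernel) ?_
    refine jn 396 (by decide +kernel) ?_
    refine jn 399 (by decide +kernel) ?_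
    refine jn 402 (by decide +kernel) ?_
    refine jn 414 (by decide +kernel) ?_
    refine jn 419 (by decide +kernel) ?_
    refine jn 424 (by decide +kernel) ?_
    refine jn 428 (by decide +kernel) ?_
    refine jn 441 (by decide +kernel) ?_
    refine jn 455 (by decide +kernel) ?_
    refine jn 458 (by decide +kernel) ?_
    refine jn 471 (by decide +kernel) ?_
    refine jn 481 (by decide +kernel) ?_
    refine jn 490 (by decide +kernel) ?_
    refine jn 524 (by decide +kernel) ?_
    refine jn 533 (by decide +kernel) ?_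
    refine jn 536 (by decide +kernel) ?_
    refine jn 538 (by decide +kernel) ?_
    refine jn 540 (by decide +kernel) ?_
    refine jn 543 (by decide +kernel) ?_
    refine jn 551 (by decide +kernel) ?_
    refine jn 556 (by decide +kernel) ?_
    refine jn 559 (by decide +kernel) ?_
    refine jn 566 (by decide +kernel) ?_
    refine jn 574 (by decide +kernel) ?_
    refine jn 587 (by decide +kernel) ?_
    refine jn 600 (by decide +kernel) ?_
    refine jn 607 (by decide +kernel) ?_
    refine jn 637 (by decide +kernel) ?_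
    refine jn 645 (by decide +kernel) ?_
    refine jn 648 (by decide +kernel) ?_
    refine jn 651 (by decide +kernel) ?_
    refine jn 659 (by decide +kernel) ?_
    refine jn 665 (by decide +kernel) ?_
    refine jn 668 (by decide +kernel) ?_
    refine jn 678 (by decide +kernel) ?_
    refine jn 686 (by decide +kernel) ?_
    refine jn 694 (by decide +kernel) ?_
    refine jn 703 (by decide +kernel) ?_
    refine jn 710 (by decide +kernel) ?_
    refine jn 716 (by decide +kernel) ?_
    refine jn 717 (by decide +kernel) ?_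
    refine jn 718 (by decide +kernel) ?_
    refine jn 719 (by decide +kernel) ?_
    refine jn 720 (by decide +kernel) ?_
    refine jn 721 (by decide +kernel) ?_
    refine jn 722 (by decide +kernel) ?_
    refine jn 723 (by decide +kernel) ?_
    refine jn 724 (by decide +kernel) ?_
    refine jn 727 (by decide +kernel) ?_
    refine jn 731 (by decide +kernel) ?_
    refine jn 732 (by decide +kernel) ?_
    refine jn 733 (by decide +kernel) ?_
    refine jn 734 (by decide +kernel) ?_
    refine jn 735 (by decide +kernel) ?_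
    refine jn 736 (by decide +kernel) ?_
    refine jn 737 (by decide +kernel) ?_
    refine jn 738 (by decide +kernel) ?_
    refine jn 740 (by decide +kernel) ?_
    refine jn 741 (by decide +kernel) ?_
    refine jn 747 (by decide +kernel) ?_
    refine jn 748 (by decide +kernel) ?_
    refine jn 754 (by decide +kernel) ?_
    refine jn 755 (by decide +kernel) ?_
    refine jn 760 (by decide +kernel) ?_
    refine jn 762 (by decide +kernel) ?_
    refine jn 767 (by decide +kernel) ?_
    refine jn 769 (by decide +kernel) ?_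
    refine jn 771 (by decide +kernel) ?_
    refine jn 778 (by decide +kernel) ?_
    refine jn 782 (by decide +kernel) ?_
    refine jn 790 (by decide +kernel) ?_
    refine jn 791 (by decide +kernel) ?_
    refine jn 792 (by decide +kernel) ?_
    refine jn 794 (by decide +kernel) ?_
    refine jn 795 (by decide +kernel) ?_
    refine jn 796 (by decide +kernel) ?_
    refine jn 797 (by decide +kernel) ?_
    refine jn 801 (by decide +kernel) ?_
    refine jn 804 (by decide +kernel) ?_
    refine jn 805 (by decide +kernel) ?_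
    refine jn 806 (by decide +kernel) ?_
    refine jn 807 (by decide +kernel) ?_
    refine jn 808 (by decide +kernel) ?_
    refine jn 809 (by decide +kernel) ?_
    refine jn 810 (by decide +kernel) ?_
    refine jn 811 (by decide +kernel) ?_
    refine jn 812 (by decide +kernel) ?_
    refine jn 813 (by decide +kernel) ?_
    refine jn 814 (by decide +kernel) ?_
    refine jn 815 (by decide +kernel) ?_
    refine jn 816 (by decide +kernel) ?_
    refine jn 817 (by decide +kernel) ?_
    refine jn 829 (by decide +kernel) ?_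
    refine jn 836 (by decide +kernel) ?_
    refine jn 852 (by decide +kernel) ?_
    exact je (by decide +kernel)
  · refine fin 168 2304 T86_2 ?_
    refine jn 3 (by decide +kernel) ?_
    refine jn 4 (by decide +kernel) ?_
    refine jn 5 (by decide +kernel) ?_
    refine jn 6 (by decide +kernel) ?_
    refine jn 7 (by decide +kernel) ?_
    refine jn 8 (by decide +kernel) ?_
    refine jn 9 (by decide +kernel) ?_
    refine jn 10 (by decide +kernel) ?_
    refine jn 11 (by decide +kernel) ?_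
    refine jn 12 (by decide +kernel) ?_
    refine jn 13 (by decide +kernel) ?_
    refine jn 14 (by decide +kernel) ?_
    refine jn 15 (by decide +kernel) ?_
    refine jn 29 (by decide +kernel) ?_
    refine jn 31 (by decide +kernel) ?_
    refine jn 33 (by decide +kernel) ?_
    refine jn 34 (by decide +kernel) ?_
    refine jn 35 (by decide +kernel) ?_
    refine jn 36 (by decide +kernel) ?_
    refine jn 37 (by decide +kernel) ?_
    refine jn 38 (by decide +kernel) ?_
    refine jn 39 (by decide +kernel) ?_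
    refine jn 40 (by decide +kernel) ?_
    refine jn 42 (by decide +kernel) ?_
    refine jn 43 (by decide +kernel) ?_
    refine jn 47 (by decide +kernel) ?_
    refine jn 51 (by decide +kernel) ?_
    refine jn 54 (by decide +kernel) ?_
    refine jn 57 (by decide +kernel) ?_
    refine jn 60 (by decide +kernel) ?_
    refine jn 64 (by decide +kernel) ?_
    refine jn 72 (by decide +kernel) ?_
    refine jn 74 (by decide +kernel) ?_
    refine jn 77 (by decide +kernel) ?_
    refine jn 80 (by decide +kernel) ?_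
    refine jn 82 (by decide +kernel) ?_
    refine jn 96 (by decide +kernel) ?_
    refine jn 100 (by decide +kernel) ?_
    refine jn 104 (by decide +kernel) ?_
    refine jn 108 (by decide +kernel) ?_
    refine jn 111 (by decide +kernel) ?_
    refine jn 114 (by decide +kernel) ?_
    refine jn 118 (by decide +kernel) ?_
    refine jn 121 (by decide +kernel) ?_
    refine jn 123 (by decide +kernel) ?_
    refine jn 128 (by decide +kernel) ?_
    refine jn 137 (by decide +kernel) ?_
    refine jn 138 (by decide +kernel) ?_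
    refine jn 139 (by decide +kernel) ?_
    refine jn 140 (by decide +kernel) ?_
    refine jn 141 (by decide +kernel) ?_
    refine jn 142 (by decide +kernel) ?_
    refine jn 143 (by decide +kernel) ?_
    refine jn 144 (by decide +kernel) ?_
    refine jn 145 (by decide +kernel) ?_
    refine jn 146 (by decide +kernel) ?_
    refine jn 147 (by decide +kernel) ?_
    refine jn 148 (by decide +kernel) ?_
    refine jn 149 (by decide +kernel) ?_
    refine jn 150 (by decide +kernel) ?_
    refine jn 151 (by decide +kernel) ?_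
    refine jn 152 (by decide +kernel) ?_
    refine jn 153 (by decide +kernel) ?_
    refine jn 165 (by decide +kernel) ?_
    refine jn 168 (by decide +kernel) ?_
    refine jn 170 (by decide +kernel) ?_
    refine jn 177 (by decide +kernel) ?_
    refine jn 189 (by decide +kernel) ?_
    refine jn 190 (by decide +kernel) ?_
    refine jn 191 (by decide +kernel) ?_
    refine jn 192 (by decide +kernel) ?_
    refine jn 193 (by decide +kernel) ?_
    refine jn 194 (by decide +kernel) ?_
    refine jn 195 (by decide +kernel) ?_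
    refine jn 196 (by decide +kernel) ?_
    refine jn 203 (by decide +kernel) ?_
    refine jn 204 (by decide +kernel) ?_
    refine jn 205 (by decide +kernel) ?_
    refine jn 206 (by decide +kernel) ?_
    refine jn 207 (by decide +kernel) ?_
    refine jn 208 (by decide +kernel) ?_
    refine jn 209 (by decide +kernel) ?_
    refine jn 211 (by decide +kernel) ?_
    refine jn 212 (by decide +kernel) ?_
    refine jn 213 (by decide +kernel) ?_
    refine jn 214 (by decide +kernel) ?_
    refine jn 215 (by decide +kernel) ?_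
    refine jn 216 (by decide +kernel) ?_
    refine jn 217 (by decide +kernel) ?_
    refine jn 218 (by decide +kernel) ?_
    refine jn 219 (by decide +kernel) ?_
    refine jn 230 (by decide +kernel) ?_
    refine jn 236 (by decide +kernel) ?_
    refine jn 246 (by decide +kernel) ?_
    refine jn 248 (by decide +kernel) ?_
    refine jn 250 (by decide +kernel) ?_
    refine jn 252 (by decide +kernel) ?_
    refine jn 262 (by decide +kernel) ?_
    refine jn 264 (by decide +kernel) ?_
    refine jn 266 (by decide +kernel) ?_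
    refine jn 267 (by decide +kernel) ?_
    refine jn 281 (by decide +kernel) ?_
    refine jn 290 (by decide +kernel) ?_
    refine jn 292 (by decide +kernel) ?_
    refine jn 293 (by decide +kernel) ?_
    refine jn 301 (by decide +kernel) ?_
    refine jn 303 (by decide +kernel) ?_
    refine jn 309 (by decide +kernel) ?_
    refine jn 311 (by decide +kernel) ?_
    refine jn 318 (by decide +kernel) ?_
    refine jn 319 (by decide +kernel) ?_
    refine jn 324 (by decide +kernel) ?_
    refine jn 326 (by decide +kernel) ?_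
    refine jn 332 (by decide +kernel) ?_
    refine jn 338 (by decide +kernel) ?_
    refine jn 350 (by decide +kernel) ?_
    refine jn 356 (by decide +kernel) ?_
    refine jn 362 (by decide +kernel) ?_
    refine jn 371 (by decide +kernel) ?_
    refine jn 377 (by decide +kernel) ?_
    refine jn 385 (by decide +kernel) ?_
    refine jn 397 (by decide +kernel) ?_
    refine jn 408 (by decide +kernel) ?_
    refine jn 410 (by decide +kernel) ?_
    refine jn 417 (by decide +kernel) ?_
    refine jn 430 (by decide +kernel) ?_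
    refine jn 442 (by decide +kernel) ?_
    refine jn 454 (by decide +kernel) ?_
    refine jn 474 (by decide +kernel) ?_
    refine jn 499 (by decide +kernel) ?_
    refine jn 517 (by decide +kernel) ?_
    refine jn 535 (by decide +kernel) ?_
    refine jn 554 (by decide +kernel) ?_
    refine jn 576 (by decide +kernel) ?_
    refine jn 605 (by decide +kernel) ?_
    refine jn 632 (by decide +kernel) ?_
    refine jn 664 (by decide +kernel) ?_
    refine jn 723 (by decide +kernel) ?_
    refine jn 793 (by decide +kernel) ?_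
    refine jn 882 (by decide +kernel) ?_
    refine jn 952 (by decide +kernel) ?_
    refine jn 996 (by decide +kernel) ?_
    refine jn 1028 (by decide +kernel) ?_
    refine jn 1058 (by decide +kernel) ?_
    refine jn 1101 (by decide +kernel) ?_
    refine jn 1150 (by decide +kernel) ?_
    refine jn 1283 (by decide +kernel) ?_
    refine jn 1404 (by decide +kernel) ?_
    refine jn 1466 (by decide +kernel) ?_
    refine jn 1515 (by decide +kernel) ?_
    refine jn 1558 (by decide +kernel) ?_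
    refine jn 1609 (by decide +kernel) ?_
    refine jn 1676 (by decide +kernel) ?_
    refine jn 1721 (by decide +kernel) ?_
    refine jn 1789 (by decide +kernel) ?_
    refine jn 1862 (by decide +kernel) ?_
    refine jn 1914 (by decide +kernel) ?_
    refine jn 1985 (by decide +kernel) ?_
    refine jn 2220 (by decide +kernel) ?_
    exact je (by decide +kernel)

end Pool.Agent.MP_2339ce_nt.NR
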