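import Pool.Agent.MP_2339ce_nt.Q2.NC.L3
import Pool.Agent.MP_2339ce_nt.Q2.NC.L6
import Pool.Agent.MP_2339ce_nt.Q2.NC.L9
import Pool.Agent.MP_2339ce_nt.Q2.CkI

/-! Block NR: runs. -/

set_option autoImplicit false
set_option maxRecDepth 100000

noncomputable section

namespace Pool.Agent.MP_2339ce_nt.NR

open Q2.Top

def T97_0 : Ph :=
  (.na 971 133 (.na 720 49 (.na 556 22 (.na 436 12 (.na 334 6 (.na 184 2 (.nx 183 1321124 (.nr 182
  311745 (.nx 48 9156 (.nx 2 117 (.nr 1 11 (.lg 0 false 1 43 43 5 0 936) (.l1 .sk)) (.nx 3 118 (.l1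
  .sk) (.nr 31 46342 (.lg 0 false 28 101 103 11 0 720720) (.nx 47 205 (.lg 0 false 16 83 83 9 0
  1872) .out)))) (.nr 181 38969 (.nx 143 330282 (.nr 92 1724 (.nr 76 432 (.lg 0 true 28 89 89 11 0
  13104) (.lg 2 true 16 97 101 9 44726 720720)) (.nx 142 165142 (.nx 108 16385 (.lg 1 false 16 101
  103 9 29221 720720) (.nr 141 27556 (.nr 124 13779 (.lg 2 false 16 97 103 9 5805 720720) (.nx 140
  82572 (.lg 2 false 16 101 107 9 11561 720720) .out)) .out)) .out)) (.nr 180 109 (.nx 159 660563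
  (.lg 0 true 16 83 83 9 0 1872) (.nr 179 13 (.lg 0 true 20 73 73 9 0 9360) .out)) .out)) .out))
  .out) .out) (.na 333 3 (.nx 332 3329023 (.nr 331 623489 (.nx 187 118 (.nx 186 117 (.nr 185 21
  (.lg 0 true 1 37 37 5 0 1872) (.l1 .sk)) (.l1 .sk)) (.nr 315 77937 (.nx 294 1321124 (.nx 228
  20644 (.nr 222 65537 (.lg 0 false 35 97 101 13 0 65520) (.nx 227 1292 (.lg 0 false 5 79 79 9 0
  9360) .out)) (.nr 293 46342 (.nr 263 257 (.lg 0 true 35 83 83 13 0 65520) (.nx 292 165142 (.nr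
  270 2276 (.lg 2 true 7 89 89 9 37591 13104) (.nx 280 41287 (.lg 1 true 10 97 101 9 15404 9360)
  (.nr 291 32769 (.lg 2 false 11 89 97 9 5452 20592) .out))) .out)) .out)) (.nr 314 9 (.lg 0 true
  20 71 71 9 0 9360) .out)) (.nx 330 205 (.lg 0 false 15 79 79 9 0 9360) .out))) .out) .out) .ne))
  (.na 383 7 (.nx 382 1321124 (.nr 381 220437 (.nx 337 118 (.nx 336 117 (.nr 335 53 (.lg 0 false 1
  31 31 7 0 1872) (.l1 .sk)) (.l1 .sk)) (.nr 373 55110 (.nx 348 13943 (.lg 0 false 11 97 97 13 0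
  720720) (.nr 359 501 (.lg 0 true 11 83 83 13 0 20592) (.nx 372 416129 (.nr 361 977 (.lg 2 false 2
  79 79 7 48590 65520) (.lg 2 false 11 97 101 13 27112 720720)) .out))) (.nx 380 1292 (.lg 0 false
  7 83 83 13 0 13104) .out))) .out) .out) (.na 384 11 .ne (.nx 435 1321124 (.nr 434 623489 (.nr 385
  3 .s1 (.nx 388 118 (.nx 387 117 (.nr 386 92 (.lg 0 true 1 31 31 9 0 360360) (.l1 .sk)) (.l1 .sk))
  (.nx 398 6845 (.nr 392 77937 (.lg 0 true 4 97 97 16 0 720720) (.nx 397 814 (.lg 0 false 5 89 89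
  16 0 360360) .out)) (.nr 433 65537 (.nr 423 32769 (.nx 417 330282 (.nr 403 766 (.lg 0 true 5 79
  79 16 0 51480) (.nx 416 165142 (.nr 408 13461 (.lg 2 false 5 73 73 16 13578 51480) (.lg 0 true 8
  101 101 16 0 720720)) .out)) (.nr 422 65 (.lg 0 true 5 71 71 16 0 51480) .out)) (.nx 432 65537
  (.nx 427 26009 (.lg 0 false 4 97 101 16 0 720720) (.nr 431 46342 (.lg 0 true 4 97 101 16 0
  720720) .out)) .out)) .out)))) .out) .out)))) (.na 469 17 (.na 437 14 .ne (.na 468 16 (.nx 467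
  1321124 (.nr 466 623489 (.nr 438 9 .s1 (.nx 460 330282 (.nx 440 117 (.nr 439 123 (.lg 0 true 1 29
  29 11 0 65520) (.l1 .sk)) (.nx 441 118 (.l1 .sk) (.nx 442 324 (.l1 (.ls 89 47 6506)) (.nr 459
  220437 (.nx 449 26009 (.nr 447 92683 (.lg 0 false 5 97 101 13 0 65520) (.nx 448 814 (.lg 0 true 1
  83 83 11 0 13104) .out)) (.nr 458 46342 (.nr 454 766 (.lg 0 true 5 79 79 13 0 65520) (.nx 457
  165142 (.lg 2 false 3 97 97 13 12613 65520) .out)) .out)) .out)))) (.nr 465 65 (.lg 0 true 5 71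
  71 13 0 65520) .out))) .out) .out) .ne)) (.na 498 18 (.nx 497 1321124 (.nr 496 1048577 (.nr 470
  14 .s1 (.nx 473 118 (.nx 472 117 (.nr 471 138 (.lg 0 true 1 23 23 11 0 6552) (.l1 .sk)) (.l1
  .sk)) (.nx 474 205 (.l1 (.ls 83 31 1656)) (.nr 495 623489 (.nx 475 324 (.l1 (.ls 79 37 3706))
  (.nr 494 220437 (.nx 482 16385 (.nr 480 131073 (.lg 0 false 5 97 97 16 0 32760) (.nx 481 814 (.lg
  0 true 1 73 73 11 0 6552) .out)) (.nr 493 46342 (.nr 487 498 (.lg 0 true 5 79 79 16 0 4680) (.nx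
  492 165142 (.lg 2 false 5 89 89 16 19408 32760) .out)) .out)) .out)) .out)))) .out) .out) (.na
  527 21 (.nx 526 1321124 (.nr 525 1048577 (.nr 499 15 .s1 (.nx 503 205 (.nx 501 117 (.nr 500 161
  (.lg 0 true 1 31 31 13 0 144144) (.l1 .sk)) (.nx 502 118 (.l1 .sk) (.l1 (.ls 89 41 1564)))) (.nr
  524 623489 (.nx 504 324 (.l1 (.ls 83 43 3500)) (.nr 523 220437 (.nr 521 131073 (.nx 509 16385
  (.lg 0 false 5 97 97 19 0 65520) (.nr 520 46342 (.nr 514 498 (.lg 0 true 5 79 79 19 0 9360) (.nx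
  519 165142 (.lg 2 false 5 89 97 19 19408 65520) .out)) .out)) (.nx 522 814 (.lg 0 true 1 79 79 13
  0 13104) .out)) .out)) .out))) .out) .out) (.nx 555 1321124 (.nr 554 1048577 (.nr 528 19 .s1 (.nx
  530 117 (.nr 529 169 (.l1 (.ls 29 31 654)) (.l1 .sk)) (.nx 531 118 (.l1 .sk) (.nx 532 205 (.l1
  (.ls 83 37 1341)) (.nr 553 623489 (.nx 533 324 (.l1 (.ls 83 41 3000)) (.nr 552 220437 (.nx 537
  8193 (.lg 0 false 4 89 89 17 0 13104) (.nr 551 65537 (.nr 548 32769 (.nr 542 498 (.lg 0 true 5 79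
  79 17 0 32760) (.nx 547 165142 (.lg 2 true 5 73 73 17 27475 32760) .out)) (.nx 550 26009 (.lg 0
  true 2 89 89 16 0 13104) .out)) .out)) .out)) .out))))) .out) .out))))) (.na 627 33 (.na 604 27
  (.na 580 23 (.nx 579 1321124 (.nr 578 1048577 (.nr 557 20 .s1 (.nx 559 117 (.nr 558 176 (.lg 0
  false 1 23 23 9 0 20592) (.l1 .sk)) (.nx 560 118 (.l1 .sk) (.nx 561 205 (.l1 (.ls 83 41 1280))
  (.nr 577 623489 (.nx 562 324 (.l1 (.ls 79 43 2864)) (.nr 576 220437 (.nx 567 16385 (.lg 0 false 5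
  97 97 19 0 102960) (.nr 575 46342 (.nr 572 498 (.lg 0 true 5 79 79 19 0 102960) (.nx 574 165142
  (.lg 2 true 2 89 89 13 19408 20592) .out)) .out)) .out)) .out))))) .out) .out) (.na 581 26 .ne
  (.nx 603 1321124 (.nr 602 1048577 (.nr 582 24 .s1 (.nx 591 16385 (.nx 583 205 (.l1 (.ls 79 41
  1619)) (.nr 590 185365 (.lg 0 false 7 83 83 11 0 65520) .out)) (.nr 601 38969 (.nr 598 513 (.lg 0
  true 7 71 71 11 0 13104) (.nx 600 82572 (.lg 2 true 2 79 79 11 16328 1872) .out)) .out))) .out)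
  .out))) (.na 605 31 (.lg 0 false 1 0 0 7 0 24) (.na 626 32 (.nx 625 1321124 (.nr 624 1048577 (.nr
  606 30 .s1 (.nx 610 205 (.nx 608 117 (.nr 607 246 (.l1 (.ls 23 19 444)) (.l1 .sk)) (.nx 609 118
  (.l1 .sk) (.l1 (.ls 83 23 909)))) (.nr 623 185365 (.nx 614 16385 (.lg 0 false 4 97 97 16 0 65520)
  (.nr 622 38969 (.nr 619 513 (.lg 0 true 5 73 73 16 0 4680) (.nx 621 82572 (.lg 2 true 2 89 89 16
  16328 65520) .out)) .out)) .out))) .out) .out) .ne))) (.na 683 42 (.na 645 34 (.nx 644 1321124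
  (.nr 643 370729 (.nr 628 32 .s1 (.nx 630 117 (.nr 629 261 (.l1 (.ls 19 29 417)) (.l1 .sk)) (.nx
  631 118 (.l1 .sk) (.nx 636 13005 (.lg 0 false 5 83 83 19 0 51480) (.nr 642 23172 (.nr 640 261
  (.lg 0 true 4 67 67 17 0 20592) (.nx 641 82572 (.lg 2 true 1 79 79 16 18508 10296) .out))
  .out))))) .out) .out) (.na 665 38 (.nx 664 1321124 (.nr 663 370729 (.nr 646 33 .s1 (.nx 648 117
  (.nr 647 292 (.lg 0 false 1 23 23 13 0 1872) (.l1 .sk)) (.nx 649 118 (.l1 .sk) (.nx 654 13005
  (.lg 0 false 5 97 97 13 0 9360) (.nr 662 23172 (.nr 659 292 (.lg 0 true 5 73 73 13 0 9360) (.nx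
  661 82572 (.lg 2 true 2 83 83 13 16543 1872) .out)) .out))))) .out) .out) (.nx 682 1321124 (.nr
  681 370729 (.nr 666 37 .s1 (.nx 674 13005 (.nx 668 117 (.nr 667 322 (.lg 0 false 1 23 23 13 0
  13104) (.l1 .sk)) (.nx 669 118 (.l1 .sk) (.lg 0 false 5 89 89 17 0 9360))) (.nr 680 23172 (.nr
  678 322 (.lg 0 true 4 71 71 17 0 1872) (.nx 679 82572 (.lg 2 true 1 83 83 13 15002 13104) .out))
  .out))) .out) .out))) (.na 701 46 (.nx 700 1321124 (.nr 699 370729 (.nr 684 41 .s1 (.nx 687 118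
  (.nx 686 117 (.nr 685 353 (.l1 (.ls 23 37 328)) (.l1 .sk)) (.l1 .sk)) (.nx 692 13005 (.lg 0 false
  5 89 89 29 0 65520) (.nr 698 23172 (.nr 696 353 (.lg 0 true 4 67 67 29 0 13104) (.nx 697 82572
  (.lg 2 true 1 79 79 19 13685 13104) .out)) .out)))) .out) .out) (.na 702 47 .ne (.nx 719 1321124
  (.nr 718 311745 (.nr 703 46 .s1 (.nx 711 10323 (.nx 705 117 (.nr 704 376 (.l1 (.ls 17 17 294))
  (.l1 .sk)) (.nx 706 118 (.l1 .sk) (.lg 0 false 5 79 79 16 0 4680))) (.nr 717 23172 (.nr 715 376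
  (.lg 0 true 4 67 67 16 0 1872) (.nx 716 82572 (.lg 2 true 1 73 73 16 15443 936) .out)) .out)))
  .out) .out)))))) (.na 848 94 (.na 798 63 (.na 755 58 (.na 737 53 (.nx 736 1321124 (.nr 735 311745
  (.nr 721 48 .s1 (.nx 723 117 (.nr 722 407 (.l1 (.ls 23 19 282)) (.l1 .sk)) (.nx 724 118 (.l1 .sk)
  (.nx 728 10323 (.lg 0 false 4 83 83 16 0 65520) (.nr 734 23172 (.nr 732 407 (.lg 0 true 4 71 71
  16 0 13104) (.nx 733 82572 (.lg 2 true 1 73 73 16 15443 6552) .out)) .out))))) .out) .out) (.na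
  754 54 (.nx 753 1321124 (.nr 752 311745 (.nr 738 52 .s1 (.nx 741 118 (.nx 740 117 (.nr 739 414
  (.l1 (.ls 19 17 261)) (.l1 .sk)) (.l1 .sk)) (.nx 746 10323 (.lg 0 false 5 83 83 16 0 32760) (.nr
  751 23172 (.nr 749 414 (.lg 0 true 3 67 67 16 0 936) (.nx 750 82572 (.lg 2 true 1 79 79 16 15443
  6552) .out)) .out)))) .out) .out) (.lg 0 false 1 0 0 16 0 24))) (.na 769 59 (.nx 768 1321124 (.nr
  767 311745 (.nr 756 57 .s1 (.nx 761 10323 (.nx 758 117 (.nr 757 453 (.l1 (.ls 19 23 239)) (.l1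
  .sk)) (.nx 759 118 (.l1 .sk) (.lg 0 true 2 83 83 13 0 1872))) (.nr 766 23172 (.nr 764 453 (.lg 0
  true 3 67 67 19 0 1872) (.nx 765 82572 (.lg 2 true 1 73 73 13 15443 1872) .out)) .out))) .out)
  .out) (.na 784 62 (.nx 783 1321124 (.nr 782 311745 (.nr 770 59 .s1 (.nx 772 117 (.nr 771 476 (.l1
  (.ls 23 17 235)) (.l1 .sk)) (.nx 773 118 (.l1 .sk) (.nx 777 20644 (.lg 0 true 4 83 83 16 0 1872)
  (.nr 781 13779 (.nx 778 82572 (.lg 0 false 1 83 83 16 0 936) (.nr 780 217 (.lg 0 true 2 67 67 16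
  0 1872) .out)) .out))))) .out) .out) (.nx 797 1321124 (.nr 796 311745 (.nr 785 62 .s1 (.nx 793
  82572 (.nx 787 117 (.nr 786 483 (.l1 (.ls 19 23 223)) (.l1 .sk)) (.nx 788 118 (.l1 .sk) (.nr 790
  23172 (.lg 0 false 2 83 83 17 0 1872) (.nx 792 10323 (.lg 0 false 2 83 83 17 0 1872) .out))))
  (.nr 795 217 (.lg 0 true 2 61 61 17 0 1872) .out))) .out) .out)))) (.na 822 78 (.na 809 64 (.nx
  808 1321124 (.nr 807 311745 (.nr 799 63 .s1 (.nx 802 118 (.nx 801 117 (.nr 800 491 (.l1 (.ls 29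
  23 220)) (.l1 .sk)) (.l1 .sk)) (.nr 805 23172 (.nx 803 82572 (.lg 0 false 1 83 83 19 0 6552) (.nr
  804 217 (.lg 0 true 1 67 67 19 0 6552) .out)) (.nx 806 10323 (.lg 0 false 1 89 89 19 0 6552)
  .out)))) .out) .out) (.na 810 66 .ne (.nx 821 1321124 (.nr 820 524289 (.nr 811 66 .s1 (.nx 813
  117 (.nr 812 598 (.l1 (.ls 31 31 210)) (.l1 .sk)) (.nx 814 118 (.l1 .sk) (.nx 816 8193 (.lg 0
  true 2 89 89 29 0 720720) (.nr 819 8193 (.nr 817 513 (.lg 0 false 1 83 83 23 0 720720) (.nx 818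
  82572 (.lg 2 false 1 67 67 23 9417 20592) .out)) .out))))) .out) .out))) (.na 836 81 (.nx 835
  1321124 (.nr 834 524289 (.nr 823 78 .s1 (.nx 826 118 (.nx 825 117 (.nr 824 621 (.lg 0 false 1 0
  16 23 0 144144) (.l1 .sk)) (.l1 .sk)) (.nr 831 8193 (.lg 0 true 5 73 73 29 0 9360) (.nx 833 8193
  (.lg 0 true 2 73 73 23 0 1872) .out)))) .out) .out) (.na 837 91 (.lg 0 false 1 0 0 16 0 24) (.nx
  847 1321124 (.nr 846 524289 (.nr 838 91 .s1 (.nx 841 118 (.nx 840 117 (.nr 839 721 (.l1 (.ls 23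
  19 153)) (.l1 .sk)) (.l1 .sk)) (.nx 842 8193 (.lg 0 true 1 83 83 17 0 6552) (.nr 845 8193 (.nr
  843 513 (.lg 0 false 1 71 71 17 0 6552) (.nx 844 82572 (.lg 2 false 1 59 59 17 9417 6552) .out))
  .out)))) .out) .out))))) (.na 914 114 (.na 881 102 (.na 859 98 (.nx 858 1321124 (.nr 857 524289
  (.nr 849 94 .s1 (.nx 853 8193 (.nx 851 117 (.nr 850 752 (.l1 (.ls 29 23 148)) (.l1 .sk)) (.nx 852
  118 (.l1 .sk) (.lg 0 true 1 89 89 17 0 1872))) (.nr 856 8193 (.nr 854 513 (.lg 0 false 1 79 79 17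
  0 65520) (.nx 855 82572 (.lg 2 false 1 61 61 17 9417 1872) .out)) .out))) .out) .out) (.na 870
  101 (.nx 869 1321124 (.nr 868 524289 (.nr 860 98 .s1 (.nx 863 118 (.nx 862 117 (.nr 861 775 (.l1
  (.ls 23 29 142)) (.l1 .sk)) (.l1 .sk)) (.nx 864 8193 (.lg 0 true 1 83 83 19 0 13104) (.nr 867
  8193 (.nr 865 513 (.lg 0 false 1 71 71 19 0 13104) (.nx 866 82572 (.lg 2 false 1 59 59 19 9417
  13104) .out)) .out)))) .out) .out) (.nx 880 1321124 (.nr 879 524289 (.nr 871 101 .s1 (.nx 875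
  8193 (.nx 873 117 (.nr 872 782 (.l1 (.ls 19 16 138)) (.l1 .sk)) (.nx 874 118 (.l1 .sk) (.lg 0
  true 1 83 83 16 0 32760))) (.nr 878 8193 (.nr 876 513 (.lg 0 false 1 71 71 16 0 32760) (.nx 877
  82572 (.lg 2 true 1 53 53 16 9417 936) .out)) .out))) .out) .out))) (.na 892 106 (.nx 891 1321124
  (.nr 890 524289 (.nr 882 102 .s1 (.nx 884 117 (.nr 883 813 (.l1 (.ls 16 31 137)) (.l1 .sk)) (.nx
  885 118 (.l1 .sk) (.nx 886 8193 (.lg 0 true 1 89 89 29 0 13104) (.nr 889 8193 (.nr 887 513 (.lg 0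
  false 1 73 73 29 0 13104) (.nx 888 82572 (.lg 2 false 1 61 61 29 9417 13104) .out)) .out)))))
  .out) .out) (.na 903 113 (.nx 902 1321124 (.nr 901 524289 (.nr 893 106 .s1 (.nx 897 8193 (.nx 895
  117 (.nr 894 867 (.l1 (.ls 23 23 132)) (.l1 .sk)) (.nx 896 118 (.l1 .sk) (.lg 0 true 1 89 89 19 0
  1872))) (.nr 900 8193 (.nr 898 513 (.lg 0 false 1 73 73 19 0 1872) (.nx 899 82572 (.lg 2 false 1
  61 61 19 9417 1872) .out)) .out))) .out) .out) (.nx 913 1321124 (.nr 912 524289 (.nr 904 113 .s1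
  (.nx 907 118 (.nx 906 117 (.nr 905 874 (.l1 (.ls 16 16 124)) (.l1 .sk)) (.l1 .sk)) (.nx 908 8193
  (.lg 0 true 1 73 73 16 0 936) (.nr 911 8193 (.nr 909 513 (.lg 0 false 1 61 61 16 0 936) (.nx 910
  82572 (.lg 2 false 1 47 47 16 9417 936) .out)) .out)))) .out) .out)))) (.na 948 122 (.na 925 117
  (.nx 924 1321124 (.nr 923 524289 (.nr 915 114 .s1 (.nx 919 8193 (.nx 917 117 (.nr 916 897 (.l1
  (.ls 17 31 123)) (.l1 .sk)) (.nx 918 118 (.l1 .sk) (.lg 0 true 1 89 89 29 0 9360))) (.nr 922 8193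
  (.nr 920 513 (.lg 2 false 1 71 71 29 677946 9360) (.nx 921 82572 (.lg 2 true 1 59 59 29 9417
  1872) .out)) .out))) .out) .out) (.na 937 118 (.nx 936 1321124 (.nr 935 524289 (.nr 926 117 .s1
  (.nx 930 8193 (.nx 928 117 (.nr 927 905 (.l1 (.ls 19 23 119)) (.l1 .sk)) (.nx 929 118 (.l1 .sk)
  (.lg 0 true 1 79 79 19 0 936))) (.nr 934 8193 (.nr 932 905 (.lg 0 true 2 67 67 23 0 1872) (.nx
  933 82572 (.lg 2 true 1 53 53 19 6943 936) .out)) .out))) .out) .out) (.nx 947 1321124 (.nr 946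
  524289 (.nr 938 118 .s1 (.nx 942 8193 (.nx 940 117 (.nr 939 936 (.l1 (.ls 19 23 119)) (.l1 .sk))
  (.nx 941 118 (.l1 .sk) (.lg 0 true 1 83 83 19 0 1872))) (.nr 945 8193 (.nr 943 513 (.lg 2 false 1
  67 67 19 654965 1872) (.nx 944 82572 (.lg 2 true 1 59 59 19 9417 1872) .out)) .out))) .out)
  .out))) (.na 959 126 (.nx 958 1321124 (.nr 957 524289 (.nr 949 122 .s1 (.nx 953 8193 (.nx 951 117
  (.nr 950 966 (.l1 (.ls 19 23 115)) (.l1 .sk)) (.nx 952 118 (.l1 .sk) (.lg 0 true 1 83 83 19 0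
  1872))) (.nr 956 8193 (.nr 954 513 (.lg 2 false 1 71 71 19 633490 144144) (.nx 955 82572 (.lg 2
  false 1 53 53 19 9417 1872) .out)) .out))) .out) .out) (.na 970 128 (.nx 969 1321124 (.nr 968
  524289 (.nr 960 126 .s1 (.nx 964 8193 (.nx 962 117 (.nr 961 982 (.l1 (.ls 37 31 111)) (.l1 .sk))
  (.nx 963 118 (.l1 .sk) (.lg 0 false 1 89 89 31 0 65520))) (.nr 967 8193 (.nx 965 82572 (.lg 0
  true 1 79 79 31 0 65520) (.nr 966 513 (.lg 0 true 1 71 71 31 0 13104) .out)) .out))) .out) .out)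
  .ne)))))) (.na 1121 213 (.na 1046 177 (.na 1005 154 (.na 988 142 (.na 979 134 (.nx 978 660563
  (.nr 977 1048577 (.nr 972 133 .s1 (.nx 973 205 (.l1 (.ls 79 29 318)) (.nr 976 524289 (.nr 974
  8193 (.lg 0 false 1 83 83 17 0 6552) (.nx 975 6503 (.lg 0 true 1 83 83 17 0 6552) .out)) .out)))
  .out) .out) (.na 987 139 (.nx 986 660563 (.nr 985 1048577 (.nr 980 134 .s1 (.nx 981 205 (.l1 (.ls
  61 29 316)) (.nr 984 524289 (.nr 982 8193 (.lg 0 false 1 89 89 19 0 65520) (.nx 983 6503 (.lg 0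
  true 1 83 83 19 0 1872) .out)) .out))) .out) .out) (.lg 0 false 1 0 0 16 0 24))) (.na 996 143
  (.nx 995 660563 (.nr 994 1048577 (.nr 989 142 .s1 (.nx 990 205 (.l1 (.ls 67 29 298)) (.nr 993
  524289 (.nr 991 8193 (.lg 0 false 1 83 83 19 0 20592) (.nx 992 6503 (.lg 0 true 1 79 79 19 0
  1872) .out)) .out))) .out) .out) (.na 1004 149 (.nx 1003 660563 (.nr 1002 1048577 (.nr 997 143
  .s1 (.nx 998 205 (.l1 (.ls 67 23 296)) (.nr 1001 524289 (.nr 999 8193 (.lg 0 false 1 79 79 19 0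
  72072) (.nx 1000 6503 (.lg 0 true 1 73 73 19 0 72072) .out)) .out))) .out) .out) (.lg 0 false 1 0
  0 16 0 24)))) (.na 1022 166 (.na 1013 159 (.nx 1012 660563 (.nr 1011 1048577 (.nr 1006 154 .s1
  (.nx 1007 205 (.l1 (.ls 79 31 275)) (.nr 1010 524289 (.nr 1008 8193 (.lg 0 false 1 89 89 31 0
  720720) (.nx 1009 6503 (.lg 0 true 1 89 89 31 0 720720) .out)) .out))) .out) .out) (.na 1021 162
  (.nx 1020 660563 (.nr 1019 1048577 (.nr 1014 159 .s1 (.nx 1015 205 (.l1 (.ls 71 23 267)) (.nr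
  1018 524289 (.nr 1016 8193 (.lg 0 false 1 79 79 17 0 4680) (.nx 1017 6503 (.lg 0 true 1 73 73 17
  0 936) .out)) .out))) .out) .out) (.lg 0 false 1 0 0 16 0 24))) (.na 1030 171 (.nx 1029 660563
  (.nr 1028 1048577 (.nr 1023 166 .s1 (.nx 1024 205 (.l1 (.ls 71 29 256)) (.nr 1027 524289 (.nr
  1025 8193 (.lg 0 false 1 83 83 19 0 1872) (.nx 1026 6503 (.lg 0 true 1 73 73 19 0 1872) .out))
  .out))) .out) .out) (.na 1038 174 (.nx 1037 660563 (.nr 1036 1048577 (.nr 1031 171 .s1 (.nx 1032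
  205 (.l1 (.ls 79 29 248)) (.nr 1035 524289 (.nr 1033 8193 (.lg 0 true 1 83 83 23 0 936) (.nx 1034
  6503 (.lg 0 false 1 83 83 23 0 936) .out)) .out))) .out) .out) (.nx 1045 660563 (.nr 1044 1048577
  (.nr 1039 174 .s1 (.nx 1040 205 (.l1 (.ls 73 37 244)) (.nr 1043 524289 (.nr 1041 8193 (.lg 0
  false 1 83 83 23 0 65520) (.nx 1042 6503 (.lg 0 true 1 79 79 23 0 1872) .out)) .out))) .out)
  .out))))) (.na 1087 193 (.na 1070 186 (.na 1054 181 (.nx 1053 660563 (.nr 1052 1048577 (.nr 1047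
  177 .s1 (.nx 1048 205 (.l1 (.ls 53 23 240)) (.nr 1051 524289 (.nr 1049 8193 (.lg 0 false 1 73 73
  17 0 936) (.nx 1050 6503 (.lg 0 true 1 73 73 17 0 10296) .out)) .out))) .out) .out) (.na 1062 182
  (.nx 1061 660563 (.nr 1060 1048577 (.nr 1055 181 .s1 (.nx 1056 205 (.l1 (.ls 67 17 235)) (.nr
  1059 524289 (.nr 1057 8193 (.lg 0 false 1 73 73 16 0 936) (.nx 1058 6503 (.lg 0 true 1 71 71 16 0
  936) .out)) .out))) .out) .out) (.nx 1069 660563 (.nr 1068 1048577 (.nr 1063 182 .s1 (.nx 1064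
  205 (.l1 (.ls 67 31 233)) (.nr 1067 524289 (.nr 1065 8193 (.lg 0 false 1 79 79 29 0 13104) (.nx
  1066 6503 (.lg 0 true 1 73 73 29 0 13104) .out)) .out))) .out) .out))) (.na 1078 187 (.nx 1077
  660563 (.nr 1076 1048577 (.nr 1071 186 .s1 (.nx 1072 205 (.l1 (.ls 83 29 228)) (.nr 1075 524289
  (.nr 1073 8193 (.lg 0 false 1 83 83 29 0 1872) (.nx 1074 6503 (.lg 0 true 1 79 79 29 0 1872)
  .out)) .out))) .out) .out) (.na 1086 191 (.nx 1085 660563 (.nr 1084 1048577 (.nr 1079 187 .s1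
  (.nx 1080 205 (.l1 (.ls 73 23 227)) (.nr 1083 524289 (.nr 1081 8193 (.lg 0 true 1 79 79 23 0
  10296) (.nx 1082 6503 (.lg 0 false 1 73 73 23 0 10296) .out)) .out))) .out) .out) (.lg 0 false 1
  0 0 16 0 24)))) (.na 1097 202 (.na 1088 197 (.lg 0 false 1 0 0 16 0 24) (.na 1089 198 (.lg 0
  false 1 0 0 16 0 24) (.nx 1096 660563 (.nr 1095 1048577 (.nr 1090 198 .s1 (.nx 1091 205 (.l1 (.ls
  73 37 215)) (.nr 1094 524289 (.nr 1092 8193 (.lg 0 true 1 83 83 37 0 20592) (.nx 1093 6503 (.lg 0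
  false 1 79 79 37 0 20592) .out)) .out))) .out) .out))) (.na 1105 203 (.nx 1104 660563 (.nr 1103
  1048577 (.nr 1098 202 .s1 (.nx 1099 205 (.l1 (.ls 67 23 211)) (.nr 1102 524289 (.nr 1100 8193
  (.lg 0 false 1 73 73 23 0 1872) (.nx 1101 6503 (.lg 0 true 1 71 71 23 0 1872) .out)) .out)))
  .out) .out) (.na 1113 209 (.nx 1112 660563 (.nr 1111 1048577 (.nr 1106 203 .s1 (.nx 1107 205 (.l1
  (.ls 73 19 210)) (.nr 1110 524289 (.nr 1108 8193 (.lg 0 true 1 79 79 19 0 6552) (.nx 1109 6503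
  (.lg 0 false 1 73 73 19 0 6552) .out)) .out))) .out) .out) (.nx 1120 660563 (.nr 1119 1048577
  (.nr 1114 209 .s1 (.nx 1115 205 (.l1 (.ls 73 17 204)) (.nr 1118 524289 (.nr 1116 8193 (.lg 0 true
  1 79 79 17 0 10296) (.nx 1117 6503 (.lg 0 false 1 79 79 17 0 10296) .out)) .out))) .out)
  .out)))))) (.na 1695 512 (.na 1162 239 (.na 1145 229 (.na 1129 223 (.nx 1128 660563 (.nr 1127
  1048577 (.nr 1122 213 .s1 (.nx 1123 205 (.l1 (.ls 61 19 200)) (.nr 1126 524289 (.nr 1124 8193
  (.lg 0 false 1 73 73 19 0 936) (.nx 1125 6503 (.lg 0 true 1 73 73 19 0 6552) .out)) .out))) .out)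
  .out) (.na 1137 226 (.nx 1136 660563 (.nr 1135 1048577 (.nr 1130 223 .s1 (.nx 1131 205 (.l1 (.ls
  59 17 191)) (.nr 1134 524289 (.nr 1132 8193 (.lg 0 false 1 71 71 16 0 6552) (.nx 1133 6503 (.lg 0
  true 1 67 67 16 0 936) .out)) .out))) .out) .out) (.nx 1144 660563 (.nr 1143 1048577 (.nr 1138
  226 .s1 (.nx 1139 205 (.l1 (.ls 67 23 188)) (.nr 1142 524289 (.nr 1140 8193 (.lg 0 false 1 73 73
  23 0 9360) (.nx 1141 6503 (.lg 0 true 1 71 71 23 0 9360) .out)) .out))) .out) .out))) (.na 1146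
  234 (.lg 0 false 1 0 0 16 0 24) (.na 1154 238 (.nx 1153 660563 (.nr 1152 1048577 (.nr 1147 234
  .s1 (.nx 1148 205 (.l1 (.ls 73 37 182)) (.nr 1151 524289 (.nr 1149 8193 (.lg 0 false 1 79 79 31 0
  65520) (.nx 1150 6503 (.lg 0 true 1 73 73 31 0 65520) .out)) .out))) .out) .out) (.nx 1161 660563
  (.nr 1160 1048577 (.nr 1155 238 .s1 (.nx 1156 205 (.l1 (.ls 73 31 179)) (.nr 1159 524289 (.nr
  1157 8193 (.lg 0 false 1 79 79 31 0 13104) (.nx 1158 6503 (.lg 0 true 1 79 79 31 0 13104) .out))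
  .out))) .out) .out)))) (.na 1179 251 (.na 1170 241 (.nx 1169 660563 (.nr 1168 1048577 (.nr 1163
  239 .s1 (.nx 1164 205 (.l1 (.ls 61 17 178)) (.nr 1167 524289 (.nr 1165 8193 (.lg 0 false 1 71 71
  17 0 936) (.nx 1166 6503 (.lg 0 true 1 67 67 17 0 936) .out)) .out))) .out) .out) (.na 1171 242
  (.lg 0 false 1 0 0 16 0 24) (.nx 1178 660563 (.nr 1177 1048577 (.nr 1172 242 .s1 (.nx 1173 205
  (.l1 (.ls 67 29 176)) (.nr 1176 524289 (.nr 1174 8193 (.lg 0 false 1 73 73 29 0 144144) (.nx 1175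
  6503 (.lg 0 true 1 71 71 29 0 20592) .out)) .out))) .out) .out))) (.na 1180 256 (.lg 0 false 1 0
  0 16 0 24) (.na 1181 257 .ne (.nx 1694 82572 (.nr 1693 1048577 (.nr 1182 257 .s1 (.nx 1437 647
  (.la (.ls 71 31 1631)) (.nr 1692 262145 (.la (.lg 0 true 1 73 73 23 0)) .out))) .out) .out)))))
  (.na 5077 4096 (.na 2855 1449 (.na 2125 725 (.nx 2124 82572 (.nr 2123 1048577 (.nr 1696 512 .s1
  (.nx 1909 647 (.la (.ls 71 29 820)) (.nr 2122 262145 (.la (.lg 0 false 1 73 73 29 0)) .out)))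
  .out) .out) (.na 2427 1024 (.nx 2426 3252 (.nr 2425 262145 (.nr 2126 725 .s1 (.la (.ls 53 43
  14589))) .out) .out) (.nx 2854 3252 (.nr 2853 262145 (.nr 2428 1024 .s1 (.la (.ls 53 41 10330)))
  .out) .out))) (.na 3457 2048 (.nx 3456 1627 (.nr 3455 131073 (.nr 2856 1449 .s1 (.la (.ls 47 31
  1829))) .out) .out) (.na 4427 2897 (.nx 4426 1627 (.nr 4425 131073 (.nr 3458 2048 .s1 (.nx 3575
  117 (.nr 3574 22206 (.lx (.lp 16 29 725)) (.l1 .sk)) (.nx 3576 118 (.l1 .sk) (.la (.ls 47 31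
  1288))))) .out) .out) (.nx 5076 647 (.nr 5075 65537 (.nr 4428 2897 .s1 (.nx 4590 163 (.lx (.lp 53
  29 1025)) (.nr 5074 32769 (.lx (.lp 41 31 1025)) .out))) .out) .out)))) (.na 7026 32768 (.na 5727
  8192 (.nx 5726 647 (.nr 5725 65537 (.nr 5078 4096 .s1 (.nx 5240 163 (.lx (.lp 16 0 2049)) (.nr
  5724 32769 (.lx (.lp 41 37 2049)) .out))) .out) .out) (.na 6376 16384 (.nx 6375 647 (.nr 6374
  65537 (.nr 5728 8192 .s1 (.lx (.lp 41 41 4097))) .out) .out) (.nx 7025 647 (.nr 7024 131073 (.nr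
  6377 16384 .s1 (.nx 6539 163 (.lx (.lp 16 0 8193)) (.nr 7023 65537 (.lx (.lp 37 43 8193)) .out)))
  .out) .out))) (.na 7352 65536 (.nx 7351 324 (.nr 7350 131073 (.nr 7027 32768 .s1 (.lx (.lp 16 41
  16385))) .out) .out) (.na 7678 131073 (.nx 7677 324 (.nr 7676 262145 (.nr 7353 65536 .s1 (.lx
  (.lp 16 47 32769))) .out) .out) .out)))))))

def T97_1 : Ph :=
  (.na 1017 202 (.na 866 121 (.na 774 64 (.na 729 23 (.na 691 3 (.na 385 2 (.nx 384 2097153 (.nr
  383 881745 (.nx 2 193 (.nr 1 14 (.lg 0 false 1 41 41 5 0 24) (.l1 .sk)) (.nx 3 194 (.l1 .sk) (.nr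
  345 131073 (.nx 309 1048577 (.nx 63 32769 (.lg 0 false 60 103 109 16 0 720720) (.nr 308 110219
  (.nr 143 1724 (.nr 123 901 (.lg 0 true 60 83 97 16 0 720) (.lg 2 true 20 83 89 11 112306 1680))
  (.nx 307 832257 (.nr 163 5794 (.lg 2 true 20 89 97 11 46586 1680) (.nx 306 660563 (.nx 223 52017
  (.lg 1 false 60 97 107 16 62755 720720) (.nr 305 77937 (.nr 259 38969 (.lg 2 false 36 101 107 16
  14022 720720) (.nx 304 330282 (.lg 2 false 45 101 107 16 27975 720720) .out)) .out)) .out))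
  .out)) .out)) (.nr 344 129 (.lg 0 true 35 79 79 13 0 840) .out)) (.nx 382 8193 (.nx 365 324 (.lg
  0 false 20 79 79 11 0 240) (.nx 366 4096 .out (.nr 381 155873 (.lg 0 false 15 101 103 9 0 720720)
  .out))) .out)))) .out) .out) (.nx 690 3329023 (.nr 689 623489 (.nx 388 194 (.nx 387 193 (.nr 386
  27 (.lg 0 false 1 41 41 5 0 48) (.l1 .sk)) (.l1 .sk)) (.nr 675 220437 (.nx 479 41287 (.lg 0 false
  91 97 107 13 0 720720) (.nr 674 155873 (.nr 569 3446 (.nr 555 1025 (.nx 518 1048577 (.lg 0 true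
  39 89 97 13 0 102960) (.nr 554 129 (.nx 539 2097153 (.lg 0 true 21 79 79 11 0 1008) (.nr 553 9
  (.lg 0 true 14 67 67 9 0 336) .out)) .out)) (.nx 568 832257 (.lg 2 true 13 89 97 9 78354 34320)
  .out)) (.nx 673 524289 (.nr 576 6051 (.lg 2 true 7 83 83 9 14682 336) (.nx 597 58387 (.lg 1 false
  21 97 101 11 70402 55440) (.nx 618 82572 (.lg 1 false 21 97 103 11 49783 55440) (.nr 672 131073
  (.nr 631 38969 (.lg 2 false 13 101 103 9 8834 720720) (.nx 671 262145 (.nr 644 77937 (.lg 2 false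
  13 103 103 9 17623 720720) (.nx 670 208065 (.lg 2 false 26 101 103 11 29608 720720) .out)) .out))
  .out)))) .out)) .out)) (.nx 688 324 (.lg 0 false 13 79 79 9 0 624) .out))) .out) .out)) (.na 692
  22 .ne (.nx 728 2097153 (.nr 727 1048577 (.nr 693 18 .s1 (.nx 696 194 (.nx 695 193 (.nr 694 226
  (.lg 0 true 1 23 23 9 0 2640) (.l1 .sk)) (.l1 .sk)) (.nx 709 41286 (.nx 697 324 (.l1 (.ls 79 43
  3063)) (.nr 708 623489 (.nr 704 262145 (.lg 0 false 7 97 101 19 0 55440) (.nx 707 2049 (.lg 0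
  false 3 79 79 13 0 1584) .out)) .out)) (.nr 726 155873 (.nr 716 751 (.lg 0 true 7 79 79 19 0
  3696) (.nx 725 416129 (.lg 2 false 9 89 101 23 70404 55440) .out)) .out)))) .out) .out))) (.na
  753 46 (.na 730 38 .ne (.nx 752 2097153 (.nr 751 881745 (.nr 731 36 .s1 (.nx 740 26009 (.nx 732
  324 (.l1 (.ls 73 43 2765)) (.nr 739 623489 (.lg 0 false 7 89 97 17 0 5040) .out)) (.nr 750 77937
  (.nr 747 453 (.lg 0 true 7 71 71 17 0 336) (.nx 749 208065 (.lg 2 true 2 89 89 13 55949 240)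
  .out)) .out))) .out) .out)) (.na 754 47 .ne (.nx 773 2097153 (.nr 772 881745 (.nr 755 45 .s1 (.nx
  756 324 (.l1 (.ls 73 29 2236)) (.nr 771 741457 (.nx 763 26009 (.lg 0 false 7 89 97 16 0 2520)
  (.nr 770 65537 (.nr 767 630 (.lg 0 true 4 71 71 16 0 48) (.nx 769 208065 (.lg 2 false 2 83 83 16
  47069 48) .out)) .out)) .out))) .out) .out)))) (.na 810 94 (.na 792 79 (.na 775 71 .ne (.nx 791
  2097153 (.nr 790 2097153 (.nr 776 70 .s1 (.nx 783 20644 (.nx 777 324 (.l1 (.ls 67 29 1481)) (.nr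
  782 1048577 (.lg 0 false 5 83 83 16 0 120) .out)) (.nr 789 65537 (.nr 786 513 (.lg 0 true 3 59 59
  16 0 72) (.nx 788 131073 (.lg 2 false 2 79 79 16 59302 48) .out)) .out))) .out) .out)) (.na 809
  91 (.nx 808 2097153 (.nr 807 2097153 (.nr 793 78 .s1 (.nx 794 324 (.l1 (.ls 71 29 1331)) (.nr 806
  1048577 (.nx 799 20644 (.lg 0 false 5 73 83 17 0 120) (.nr 805 65537 (.nr 802 513 (.lg 0 true 3
  59 59 16 0 72) (.nx 804 131073 (.lg 2 false 2 73 73 16 59302 48) .out)) .out)) .out))) .out)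
  .out) .ne)) (.na 838 101 (.na 825 97 (.nx 824 2097153 (.nr 823 2097153 (.nr 811 93 .s1 (.nx 818
  32769 (.nx 812 324 (.l1 (.ls 71 37 1119)) (.nr 817 1048577 (.lg 0 false 5 83 83 23 0 240) .out))
  (.nr 822 32769 (.nr 820 513 (.lg 0 true 2 59 59 19 0 48) (.nx 821 131073 (.lg 2 true 1 67 67 17
  24657 48) .out)) .out))) .out) .out) (.nx 837 2097153 (.nr 836 2097153 (.nr 826 97 .s1 (.nx 833
  131073 (.nx 827 324 (.l1 (.ls 71 23 1085)) (.nr 832 1048577 (.nx 830 32769 (.lg 0 true 3 83 83 16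
  0 3960) (.nr 831 32769 (.lg 0 false 1 73 73 16 0 24) .out)) .out)) (.nr 835 513 (.lg 0 true 2 61
  61 16 0 48) .out))) .out) .out)) (.na 853 103 (.nx 852 2097153 (.nr 851 2097153 (.nr 839 101 .s1
  (.nx 846 32769 (.nx 840 324 (.l1 (.ls 67 23 1042)) (.nr 845 1048577 (.lg 0 false 5 79 79 17 0
  3960) .out)) (.nr 850 32769 (.nr 848 513 (.lg 0 true 2 59 59 16 0 48) (.nx 849 131073 (.lg 2 true
  1 61 61 16 24657 24) .out)) .out))) .out) .out) (.nx 865 2097153 (.nr 864 2097153 (.nr 854 103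
  .s1 (.nx 859 20644 (.nx 855 324 (.l1 (.ls 67 23 1022)) (.nr 858 1048577 (.lg 0 false 3 79 79 16 0
  360) .out)) (.nr 863 65537 (.nr 861 513 (.lg 0 true 2 59 59 16 0 48) (.nx 862 131073 (.lg 2 true
  1 73 73 16 59302 120) .out)) .out))) .out) .out))))) (.na 936 158 (.na 896 137 (.na 894 128 (.na
  881 127 (.nx 880 2097153 (.nr 879 2097153 (.nr 867 121 .s1 (.nx 874 32769 (.nx 868 324 (.l1 (.ls
  67 29 870)) (.nr 873 1048577 (.lg 0 false 5 73 79 19 0 1320) .out)) (.nr 878 32769 (.nr 876 513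
  (.lg 0 true 2 53 53 17 0 528) (.nx 877 131073 (.lg 2 true 1 61 61 17 24657 264) .out)) .out)))
  .out) .out) (.nx 893 2097153 (.nr 892 2097153 (.nr 882 127 .s1 (.nx 887 32769 (.nx 883 324 (.l1
  (.ls 67 23 829)) (.nr 886 1048577 (.lg 0 false 3 79 79 17 0 360) .out)) (.nr 891 32769 (.nr 889
  513 (.lg 0 true 2 53 53 16 0 48) (.nx 890 131073 (.lg 2 true 1 59 59 16 24657 24) .out)) .out)))
  .out) .out)) (.na 895 131 .ne (.lg 0 false 1 0 0 16 0 24))) (.na 922 151 (.na 909 142 (.nx 908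
  1048577 (.nr 907 1482912 (.nr 897 137 .s1 (.nx 900 194 (.nx 899 193 (.nr 898 1397 (.l1 (.ls 16 17
  274)) (.l1 .sk)) (.l1 .sk)) (.nx 903 16385 (.lg 0 false 3 73 73 17 0 72) (.nr 906 65537 (.nx 904
  131073 (.lg 0 false 1 73 73 16 0 24) (.nr 905 1025 (.lg 0 false 1 61 61 16 0 360) .out)) .out))))
  .out) .out) (.nx 921 1048577 (.nr 920 1482912 (.nr 910 142 .s1 (.nx 916 32769 (.nx 912 193 (.nr
  911 1486 (.l1 (.ls 17 29 265)) (.l1 .sk)) (.nx 913 194 (.l1 .sk) (.lg 0 false 3 89 89 23 0 720)))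
  (.nr 919 16385 (.nr 917 1025 (.lg 0 false 1 71 71 19 0 720) (.nx 918 131073 (.lg 2 true 1 53 53
  19 12341 48) .out)) .out))) .out) .out)) (.na 923 157 (.lg 0 false 1 0 0 16 0 24) (.nx 935
  1048577 (.nr 934 1482912 (.nr 924 157 .s1 (.nx 930 32769 (.nx 926 193 (.nr 925 1555 (.l1 (.ls 16
  17 240)) (.l1 .sk)) (.nx 927 194 (.l1 .sk) (.lg 0 false 3 79 79 17 0 360))) (.nr 933 16385 (.nr
  931 1025 (.lg 0 false 1 59 59 16 0 120) (.nx 932 131073 (.lg 2 false 1 43 43 16 12341 24) .out))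
  .out))) .out) .out)))) (.na 976 191 (.na 962 167 (.na 949 163 (.nx 948 1048577 (.nr 947 1482912
  (.nr 937 158 .s1 (.nx 943 32769 (.nx 939 193 (.nr 938 1604 (.l1 (.ls 16 23 238)) (.l1 .sk)) (.nx
  940 194 (.l1 .sk) (.lg 0 false 3 83 83 23 0 720))) (.nr 946 16385 (.nr 944 1025 (.lg 0 false 1 61
  61 19 0 240) (.nx 945 131073 (.lg 2 true 1 47 47 19 12341 48) .out)) .out))) .out) .out) (.nx 961
  1048577 (.nr 960 1482912 (.nr 950 163 .s1 (.nx 953 194 (.nx 952 193 (.nr 951 1643 (.l1 (.ls 16 17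
  231)) (.l1 .sk)) (.l1 .sk)) (.nx 956 32769 (.lg 0 false 3 79 79 17 0 72) (.nr 959 16385 (.nr 957
  1025 (.lg 0 false 1 59 59 16 0 24) (.nx 958 131073 (.lg 2 true 1 43 43 16 12341 24) .out))
  .out)))) .out) .out)) (.na 975 182 (.nx 974 1048577 (.nr 973 1482912 (.nr 963 167 .s1 (.nx 965
  193 (.nr 964 1791 (.l1 (.ls 16 17 226)) (.l1 .sk)) (.nx 966 194 (.l1 .sk) (.nx 969 32769 (.lg 0
  false 3 79 79 17 0 72) (.nr 972 16385 (.nr 970 1025 (.lg 0 false 1 59 59 16 0 24) (.nx 971 131073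
  (.lg 2 true 1 47 47 16 12341 24) .out)) .out))))) .out) .out) .ne)) (.na 990 194 (.na 977 193
  (.lg 0 false 1 0 0 16 0 24) (.nx 989 1048577 (.nr 988 1048577 (.nr 978 193 .s1 (.nx 980 193 (.nr
  979 1909 (.l1 (.ls 16 17 195)) (.l1 .sk)) (.nx 981 194 (.l1 .sk) (.nx 984 32769 (.lg 0 true 3 67
  67 17 0 72) (.nr 987 16385 (.lg 0 false 3 61 61 17 0 72) .out))))) .out) .out)) (.na 1003 197
  (.nx 1002 1048577 (.nr 1001 1048577 (.nr 991 194 .s1 (.nx 994 194 (.nx 993 193 (.nr 992 1938 (.l1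
  (.ls 16 23 195)) (.l1 .sk)) (.l1 .sk)) (.nx 997 32769 (.lg 0 false 3 73 73 29 0 144) (.nr 1000
  16385 (.nr 998 1025 (.lg 0 false 1 59 59 19 0 48) (.nx 999 131073 (.lg 2 true 1 43 43 19 12341
  48) .out)) .out)))) .out) .out) (.na 1016 199 (.nx 1015 1048577 (.nr 1014 1048577 (.nr 1004 197
  .s1 (.nx 1010 32769 (.nx 1006 193 (.nr 1005 1958 (.l1 (.ls 16 17 192)) (.l1 .sk)) (.nx 1007 194
  (.l1 .sk) (.lg 0 false 3 73 73 17 0 360))) (.nr 1013 16385 (.nr 1011 1025 (.lg 0 false 1 53 53 16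
  0 24) (.nx 1012 131073 (.lg 2 false 1 43 43 16 12341 24) .out)) .out))) .out) .out) (.lg 0 false
  1 0 0 16 0 24))))))) (.na 1919 512 (.na 1099 239 (.na 1065 223 (.na 1043 209 (.na 1030 206 (.nx
  1029 1048577 (.nr 1028 1048577 (.nr 1018 202 .s1 (.nx 1024 32769 (.nx 1020 193 (.nr 1019 2027
  (.l1 (.ls 17 23 187)) (.l1 .sk)) (.nx 1021 194 (.l1 .sk) (.lg 0 false 3 79 79 29 0 720))) (.nr
  1027 16385 (.nr 1025 1025 (.lg 0 false 1 59 59 23 0 48) (.nx 1026 131073 (.lg 2 true 1 47 47 23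
  12341 48) .out)) .out))) .out) .out) (.nx 1042 1048577 (.nr 1041 1048577 (.nr 1031 206 .s1 (.nx
  1037 32769 (.nx 1033 193 (.nr 1032 2056 (.l1 (.ls 16 23 183)) (.l1 .sk)) (.nx 1034 194 (.l1 .sk)
  (.lg 0 false 3 71 71 29 0 144))) (.nr 1040 16385 (.nr 1038 1025 (.lg 0 false 1 53 53 23 0 48)
  (.nx 1039 131073 (.lg 2 true 1 43 43 23 12341 48) .out)) .out))) .out) .out)) (.na 1054 218 (.nx
  1053 1048577 (.nr 1052 1048577 (.nr 1044 209 .s1 (.nx 1046 193 (.nr 1045 2145 (.l1 (.ls 17 17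
  181)) (.l1 .sk)) (.nx 1047 194 (.l1 .sk) (.nx 1050 131073 (.nr 1048 65537 (.lg 0 true 1 79 79 17
  0 264) (.nx 1049 16385 (.lg 0 false 1 79 79 17 0 264) .out)) (.nr 1051 1025 (.lg 0 true 1 61 61
  17 0 264) .out))))) .out) .out) (.nx 1064 1048577 (.nr 1063 1048577 (.nr 1055 218 .s1 (.nx 1057
  193 (.nr 1056 2194 (.l1 (.ls 19 23 173)) (.l1 .sk)) (.nx 1058 194 (.l1 .sk) (.nx 1061 32769 (.lg
  0 false 3 73 73 29 0 144) (.nr 1062 16385 (.lg 0 false 1 79 79 23 0 48) .out))))) .out) .out)))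
  (.na 1087 229 (.na 1076 227 (.nx 1075 1048577 (.nr 1074 1048577 (.nr 1066 223 .s1 (.nx 1072 32769
  (.nx 1068 193 (.nr 1067 2233 (.l1 (.ls 17 17 170)) (.l1 .sk)) (.nx 1069 194 (.l1 .sk) (.lg 0
  false 3 73 73 19 0 360))) (.nr 1073 16385 (.lg 0 false 1 73 73 16 0 24) .out))) .out) .out) (.nx
  1086 1048577 (.nr 1085 1048577 (.nr 1077 227 .s1 (.nx 1079 193 (.nr 1078 2253 (.l1 (.ls 16 17
  167)) (.l1 .sk)) (.nx 1080 194 (.l1 .sk) (.nx 1083 32769 (.lg 0 false 3 71 71 19 0 360) (.nr 1084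
  16385 (.lg 0 false 1 73 73 17 0 360) .out))))) .out) .out)) (.na 1098 233 (.nx 1097 1048577 (.nr
  1096 1048577 (.nr 1088 229 .s1 (.nx 1094 32769 (.nx 1090 193 (.nr 1089 2292 (.l1 (.ls 16 17 165))
  (.l1 .sk)) (.nx 1091 194 (.l1 .sk) (.lg 0 false 3 71 71 19 0 72))) (.nr 1095 16385 (.lg 0 false 1
  71 71 17 0 264) .out))) .out) .out) (.lg 0 false 1 0 0 16 0 24)))) (.na 1132 254 (.na 1111 242
  (.na 1100 241 (.lg 0 false 1 0 0 16 0 24) (.nx 1110 1048577 (.nr 1109 1048577 (.nr 1101 241 .s1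
  (.nx 1104 194 (.nx 1103 193 (.nr 1102 2381 (.l1 (.ls 16 17 157)) (.l1 .sk)) (.l1 .sk)) (.nx 1107
  32769 (.lg 0 false 3 71 71 19 0 72) (.nr 1108 16385 (.lg 0 false 1 71 71 17 0 72) .out)))) .out)
  .out)) (.na 1121 251 (.nx 1120 1048577 (.nr 1119 1048577 (.nr 1112 242 .s1 (.nx 1115 194 (.nx
  1114 193 (.nr 1113 2469 (.l1 (.ls 17 29 156)) (.l1 .sk)) (.l1 .sk)) (.nx 1117 32769 (.lg 0 false
  2 73 73 29 0 528) (.nr 1118 16385 (.lg 0 false 1 73 73 29 0 528) .out)))) .out) .out) (.nx 1131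
  1048577 (.nr 1130 1048577 (.nr 1122 251 .s1 (.nx 1125 194 (.nx 1124 193 (.nr 1123 2499 (.l1 (.ls
  16 17 151)) (.l1 .sk)) (.l1 .sk)) (.nx 1128 32769 (.lg 0 false 3 67 67 19 0 72) (.nr 1129 16385
  (.lg 0 false 1 71 71 17 0 264) .out)))) .out) .out))) (.na 1144 257 (.na 1143 256 (.nx 1142
  1048577 (.nr 1141 1048577 (.nr 1133 254 .s1 (.nx 1136 194 (.nx 1135 193 (.nr 1134 2519 (.l1 (.ls
  16 23 149)) (.l1 .sk)) (.l1 .sk)) (.nx 1139 32769 (.lg 0 false 3 71 71 29 0 144) (.nr 1140 16385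
  (.lg 0 false 1 71 71 23 0 48) .out)))) .out) .out) .ne) (.na 1467 363 (.nx 1466 1048577 (.nr 1465
  1482912 (.nr 1145 257 .s1 (.nx 1251 257 (.la (.ls 71 19 259)) (.nr 1464 1048577 (.nr 1357 32769
  (.la (.lg 0 true 2 71 71 23 0)) (.nx 1463 20644 (.la (.lg 0 true 1 71 71 19 0)) .out)) .out)))
  .out) .out) (.nx 1918 1048577 (.nr 1917 1482912 (.nr 1468 363 .s1 (.nx 1617 257 (.la (.ls 71 19
  184)) (.nr 1916 1048577 (.nx 1766 20644 (.la (.lg 0 true 1 67 67 23 0)) (.nr 1915 32769 (.la (.lg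
  2 false 1 61 61 23 278754)) .out)) .out))) .out) .out))))) (.na 10739 8192 (.na 4195 2048 (.na
  3165 1024 (.na 2563 725 (.nx 2562 1048577 (.nr 2561 1482912 (.nr 1920 512 .s1 (.nx 2347 20644
  (.nx 2133 257 (.la (.ls 71 23 182)) (.nr 2346 1048577 (.la (.lg 0 true 1 61 61 23 0)) .out)) (.nr
  2560 32769 (.la (.lg 2 false 1 53 53 23 197633)) .out))) .out) .out) (.nx 3164 13005 (.nr 3163
  1048577 (.nr 2564 725 .s1 (.nx 2863 3252 (.la (.ls 53 43 14589)) (.nr 3162 32769 (.la (.lg 0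
  false 1 31 31 29 0)) .out))) .out) .out)) (.na 3593 1449 (.nx 3592 13005 (.nr 3591 1048577 (.nr
  3166 1024 .s1 (.la (.ls 53 59 165169))) .out) .out) (.nx 4194 8193 (.nr 4193 1048577 (.nr 3594
  1449 .s1 (.la (.ls 47 47 46328))) .out) .out))) (.na 6249 4096 (.na 5047 2897 (.nx 5046 8193 (.nr
  5045 1048577 (.nr 4196 2048 .s1 (.la (.ls 43 47 32779))) .out) .out) (.nx 6248 3252 (.nr 6247
  524289 (.nr 5048 2897 .s1 (.la (.ls 53 37 3653))) .out) .out)) (.na 8143 5793 (.nx 8142 3252 (.nr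
  8141 524289 (.nr 6250 4096 .s1 (.nx 6443 193 (.nr 6442 56982 (.lx (.lp 16 0 1449)) (.l1 .sk))
  (.nx 6444 194 (.l1 .sk) (.la (.ls 47 37 2575))))) .out) .out) (.nx 10738 1292 (.nr 10737 262145
  (.nr 8144 5793 .s1 (.nx 8337 193 (.nr 8336 80579 (.lx (.lp 16 0 2049)) (.l1 .sk)) (.nx 8338 194
  (.l1 .sk) (.la (.ls 29 37 2049))))) .out) .out)))) (.na 15915 65536 (.na 13327 16384 (.na 12033
  11586 (.nx 12032 1292 (.nr 12031 262145 (.nr 10740 8192 .s1 (.lx (.lp 41 37 2897))) .out) .out)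
  (.nx 13326 1292 (.nr 13325 131073 (.nr 12034 11586 .s1 (.lx (.lp 19 41 4097))) .out) .out)) (.na
  14621 32768 (.nx 14620 1292 (.nr 14619 262145 (.nr 13328 16384 .s1 (.lx (.lp 23 43 8193))) .out)
  .out) (.nx 15914 1292 (.nr 15913 262145 (.nr 14622 32768 .s1 (.lx (.lp 17 47 16385))) .out)
  .out))) (.na 17724 262144 (.na 17209 131072 (.nx 17208 1292 (.nr 17207 524289 (.nr 15916 65536
  .s1 (.lx (.lp 17 53 32769))) .out) .out) (.nx 17723 513 (.nr 17722 524289 (.nr 17210 131072 .s1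
  (.lx (.lp 16 0 65537))) .out) .out)) (.na 18239 524288 (.nx 18238 513 (.nr 18237 1048577 (.nr
  17725 262144 .s1 (.lx (.lp 16 0 131073))) .out) .out) (.na 18241 1048577 (.nx 18240 257 (.l1 .sk)
  .out) .out)))))))

def T97_2 : Ph :=
  (.na 483 137 (.na 357 58 (.na 287 23 (.na 199 8 (.na 145 4 (.na 88 2 (.nx 87 330282 (.nr 86
  311745 (.nx 3 29 (.nx 2 28 (.nr 1 6 (.lg 0 true 1 23 23 5 0 504) (.l1 .sk)) (.l1 .sk)) (.nr 70
  38969 (.nx 39 20644 (.nr 28 4872 (.nx 18 1916 (.lg 0 true 15 67 67 9 0 2520) (.nr 23 309 (.lg 0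
  false 5 73 73 9 0 2520) (.lg 2 true 5 73 73 9 1003 840))) (.nx 38 324 (.lg 0 false 10 79 79 9 0
  1680) .out)) (.nr 69 78 (.lg 0 true 30 73 73 11 0 5040) .out)) (.nx 85 52 (.lg 0 false 15 71 71 9
  0 2520) .out))) .out) .out) (.na 144 3 (.nx 143 330282 (.nr 142 623489 (.nx 91 29 (.nx 90 28 (.nr
  89 11 (.lg 0 true 1 29 29 5 0 55440) (.l1 .sk)) (.l1 .sk)) (.nx 105 52 (.nr 92 202142 (.l1 (.ls
  79 31 934)) (.lg 0 false 13 71 71 9 0 4368)) (.nr 141 65537 (.nr 134 9743 (.nx 110 1794 (.lg 0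
  true 5 73 73 9 0 1680) (.nr 128 154 (.lg 0 true 18 73 73 11 0 1008) (.nx 133 20644 (.lg 2 true 5
  79 79 9 2136 1680) .out))) (.nx 140 324 (.lg 0 false 6 79 79 9 0 1008) .out)) .out))) .out) .out)
  .ne)) (.na 179 5 (.nx 178 330282 (.nr 177 1246976 (.nx 166 20644 (.nx 160 3252 (.nx 154 52 (.nx
  147 28 (.nr 146 19 (.lg 0 true 1 17 17 9 0 336) (.l1 .sk)) (.nx 148 29 (.l1 .sk) (.nr 149 623493
  (.l1 (.ls 83 29 468)) (.lg 0 false 5 67 67 11 0 1680)))) (.nr 159 19485 (.lg 0 true 5 73 73 11 0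
  1680) .out)) (.nr 165 2437 (.lg 0 true 5 73 73 11 0 1680) .out)) (.nr 176 109 (.lg 0 true 10 71
  71 13 0 1680) .out)) .out) .out) (.na 180 7 .ne (.nx 198 330282 (.nr 197 32769 (.nr 181 5 .s1
  (.nx 184 29 (.nx 183 28 (.nr 182 30 (.lg 0 true 1 0 16 9 0 55440) (.l1 .sk)) (.l1 .sk)) (.nx 187
  3252 (.lg 0 true 3 73 73 11 0 2520) (.nr 196 183 (.lg 0 true 9 61 61 16 0 504) .out)))) .out)
  .out)))) (.na 242 14 (.na 222 9 (.nx 221 330282 (.nr 220 77937 (.nr 200 7 .s1 (.nr 207 2007 (.nx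
  201 393 (.l1 (.ls 47 53 19309)) (.nr 204 217 (.lg 0 false 3 73 73 11 0 5040) (.nx 206 20644 (.lg
  2 false 2 59 59 11 2033 336) .out))) (.nx 209 29 (.nx 208 28 (.l1 .sk) (.l1 .sk)) (.nx 219 20644
  (.nr 215 38969 (.lg 0 true 6 89 89 13 0 5040) (.nx 218 1292 (.lg 0 false 3 79 79 11 0 1008)
  .out)) .out)))) .out) .out) (.na 223 11 .ne (.nx 241 330282 (.nr 240 77937 (.nr 224 10 .s1 (.nx
  232 4237 (.nx 226 28 (.nr 225 53 (.l1 (.ls 16 16 74)) (.l1 .sk)) (.nx 227 29 (.l1 .sk) (.lg 0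
  false 5 73 73 16 0 9240))) (.nr 239 27556 (.nr 237 154 (.lg 0 true 5 61 61 16 0 9240) (.nx 238
  20644 (.lg 1 false 1 79 79 9 2553 3696) .out)) .out))) .out) .out))) (.na 257 16 (.nx 256 330282
  (.nr 255 77937 (.nr 243 13 .s1 (.nx 246 29 (.nx 245 28 (.nr 244 61 (.lg 0 true 1 0 16 11 0
  720720) (.l1 .sk)) (.l1 .sk)) (.nx 251 20644 (.lg 0 true 5 83 83 13 0 1680) (.nr 254 154 (.lg 0
  false 3 61 61 13 0 1008) .out)))) .out) .out) (.na 274 22 (.nx 273 330282 (.nr 272 131073 (.nr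
  258 16 .s1 (.nx 266 3252 (.nx 260 28 (.nr 259 83 (.l1 (.ls 19 13 51)) (.l1 .sk)) (.nx 261 29 (.l1
  .sk) (.lg 0 false 5 73 73 17 0 1680))) (.nr 271 27556 (.nr 269 154 (.lg 0 true 3 61 61 13 0 1008)
  (.nx 270 20644 (.lg 1 false 1 73 73 11 3326 336) .out)) .out))) .out) .out) (.nx 286 330282 (.nr
  285 131073 (.nr 275 22 .s1 (.nx 281 3252 (.nx 277 28 (.nr 276 87 (.l1 (.ls 17 17 38)) (.l1 .sk))
  (.nx 278 29 (.l1 .sk) (.lg 0 false 3 79 79 13 0 11088))) (.nr 284 27556 (.nr 282 154 (.lg 0 false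
  1 73 73 9 0 18480) (.nx 283 20644 (.lg 1 false 1 73 73 9 3326 18480) .out)) .out))) .out)
  .out))))) (.na 326 43 (.na 311 32 (.na 295 28 (.nx 294 41287 (.nr 293 131073 (.nr 288 23 .s1 (.nx
  289 324 (.l1 (.ls 67 41 4567)) (.nr 292 32769 (.nx 290 3252 (.lg 0 true 1 73 73 11 0 840) (.nr
  291 257 (.lg 0 false 1 59 59 11 0 168) .out)) .out))) .out) .out) (.na 303 29 (.nx 302 41287 (.nr
  301 131073 (.nr 296 28 .s1 (.nx 297 324 (.l1 (.ls 67 43 3752)) (.nr 300 32769 (.nx 298 3252 (.lg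
  0 true 1 71 71 13 0 336) (.nr 299 257 (.lg 0 false 1 59 59 13 0 336) .out)) .out))) .out) .out)
  (.nx 310 41287 (.nr 309 131073 (.nr 304 29 .s1 (.nx 307 3252 (.nx 305 324 (.l1 (.ls 61 37 3622))
  (.nr 306 32769 (.lg 0 true 1 71 71 13 0 168) .out)) (.nr 308 257 (.lg 0 false 1 53 53 13 0 168)
  .out))) .out) .out))) (.na 319 33 (.nx 318 41287 (.nr 317 262145 (.nr 312 32 .s1 (.nx 313 324
  (.l1 (.ls 79 41 3283)) (.nr 316 32769 (.nx 314 3252 (.lg 0 false 1 71 71 13 0 336) (.nr 315 4097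
  (.lg 0 false 1 73 73 13 0 336) .out)) .out))) .out) .out) (.na 320 37 .ne (.nx 325 41287 (.nr 324
  262145 (.nr 321 37 .s1 (.nx 322 324 (.l1 (.ls 71 31 2840)) (.nr 323 4097 (.lg 0 false 1 73 73 16
  0 2520) .out))) .out) .out)))) (.na 344 49 (.na 332 44 (.nx 331 41287 (.nr 330 262145 (.nr 327 43
  .s1 (.nx 328 324 (.l1 (.ls 67 31 2444)) (.nr 329 4097 (.lg 0 false 1 71 71 16 0 840) .out)))
  .out) .out) (.na 338 46 (.nx 337 41287 (.nr 336 262145 (.nr 333 44 .s1 (.nx 334 324 (.l1 (.ls 73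
  43 2388)) (.nr 335 4097 (.lg 0 false 1 71 71 19 0 3696) .out))) .out) .out) (.nx 343 41287 (.nr
  342 262145 (.nr 339 46 .s1 (.nx 340 324 (.l1 (.ls 71 43 2285)) (.nr 341 4097 (.lg 0 false 1 71 71
  13 0 336) .out))) .out) .out))) (.na 345 53 (.lg 0 false 1 0 0 16 0 24) (.na 351 56 (.nx 350
  41287 (.nr 349 262145 (.nr 346 53 .s1 (.nx 347 324 (.l1 (.ls 67 29 1983)) (.nr 348 4097 (.lg 0
  false 1 71 71 16 0 168) .out))) .out) .out) (.nx 356 41287 (.nr 355 262145 (.nr 352 56 .s1 (.nx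
  353 324 (.l1 (.ls 61 41 1877)) (.nr 354 4097 (.lg 0 true 1 61 61 17 0 336) .out))) .out)
  .out)))))) (.na 421 106 (.na 390 77 (.na 372 67 (.na 363 64 (.nx 362 41287 (.nr 361 262145 (.nr
  358 58 .s1 (.nx 359 324 (.l1 (.ls 67 41 1812)) (.nr 360 4097 (.lg 0 false 1 71 71 13 0 1680)
  .out))) .out) .out) (.na 371 65 (.nx 370 41287 (.nr 369 524289 (.nr 364 64 .s1 (.nx 367 3252 (.nx
  365 324 (.l1 (.ls 79 37 1643)) (.nr 366 65537 (.lg 0 false 1 73 73 19 0 336) .out)) (.nr 368 4097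
  (.lg 0 true 1 71 71 19 0 336) .out))) .out) .out) .ne)) (.na 378 71 (.nx 377 20644 (.nr 376
  524289 (.nr 373 67 .s1 (.nx 374 324 (.l1 (.ls 61 29 1569)) (.nr 375 65537 (.lg 0 true 1 79 79 16
  0 840) .out))) .out) .out) (.na 384 74 (.nx 383 20644 (.nr 382 524289 (.nr 379 71 .s1 (.nx 380
  324 (.l1 (.ls 61 29 1481)) (.nr 381 65537 (.lg 0 true 1 73 73 16 0 168) .out))) .out) .out) (.nx
  389 20644 (.nr 388 524289 (.nr 385 74 .s1 (.nx 386 324 (.l1 (.ls 71 31 1421)) (.nr 387 65537 (.lg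
  0 true 1 79 79 13 0 336) .out))) .out) .out)))) (.na 408 88 (.na 396 79 (.nx 395 20644 (.nr 394
  524289 (.nr 391 77 .s1 (.nx 392 324 (.l1 (.ls 67 31 1366)) (.nr 393 65537 (.lg 0 true 1 73 73 17
  0 1848) .out))) .out) .out) (.na 402 86 (.nx 401 20644 (.nr 400 524289 (.nr 397 79 .s1 (.nx 398
  324 (.l1 (.ls 61 29 1331)) (.nr 399 65537 (.lg 0 true 1 71 71 16 0 168) .out))) .out) .out) (.nx
  407 20644 (.nr 406 524289 (.nr 403 86 .s1 (.nx 404 324 (.l1 (.ls 67 37 1223)) (.nr 405 65537 (.lg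
  0 true 1 79 79 13 0 3696) .out))) .out) .out))) (.na 414 92 (.nx 413 20644 (.nr 412 524289 (.nr
  409 88 .s1 (.nx 410 324 (.l1 (.ls 73 41 1195)) (.nr 411 65537 (.lg 0 true 1 79 79 23 0 18480)
  .out))) .out) .out) (.na 420 98 (.nx 419 20644 (.nr 418 524289 (.nr 415 92 .s1 (.nx 416 324 (.l1
  (.ls 73 41 1144)) (.nr 417 65537 (.lg 0 true 1 83 83 19 0 1680) .out))) .out) .out) (.lg 0 false
  1 0 0 16 0 24))))) (.na 457 121 (.na 439 112 (.na 427 107 (.nx 426 20644 (.nr 425 524289 (.nr 422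
  106 .s1 (.nx 423 324 (.l1 (.ls 67 31 993)) (.nr 424 65537 (.lg 0 true 1 73 73 19 0 336) .out)))
  .out) .out) (.na 433 109 (.nx 432 20644 (.nr 431 524289 (.nr 428 107 .s1 (.nx 429 324 (.l1 (.ls
  61 23 984)) (.nr 430 65537 (.lg 0 true 1 71 71 16 0 2520) .out))) .out) .out) (.nx 438 20644 (.nr
  437 524289 (.nr 434 109 .s1 (.nx 435 324 (.l1 (.ls 59 23 966)) (.nr 436 65537 (.lg 0 true 1 67 67
  16 0 168) .out))) .out) .out))) (.na 445 113 (.nx 444 20644 (.nr 443 524289 (.nr 440 112 .s1 (.nx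
  441 324 (.l1 (.ls 71 37 940)) (.nr 442 65537 (.lg 0 false 1 73 73 23 0 336) .out))) .out) .out)
  (.na 451 116 (.nx 450 20644 (.nr 449 524289 (.nr 446 113 .s1 (.nx 447 324 (.l1 (.ls 61 23 931))
  (.nr 448 65537 (.lg 0 true 1 71 71 16 0 840) .out))) .out) .out) (.nx 456 20644 (.nr 455 524289
  (.nr 452 116 .s1 (.nx 453 324 (.l1 (.ls 71 37 907)) (.nr 454 65537 (.lg 0 false 1 73 73 19 0 336)
  .out))) .out) .out)))) (.na 475 129 (.na 463 127 (.nx 462 20644 (.nr 461 524289 (.nr 458 121 .s1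
  (.nx 459 324 (.l1 (.ls 61 29 870)) (.nr 460 65537 (.lg 0 true 1 67 67 17 0 1848) .out))) .out)
  .out) (.na 469 128 (.nx 468 20644 (.nr 467 524289 (.nr 464 127 .s1 (.nx 465 324 (.l1 (.ls 61 23
  829)) (.nr 466 65537 (.lg 0 true 1 67 67 16 0 168) .out))) .out) .out) (.nx 474 20644 (.nr 473
  524289 (.nr 470 128 .s1 (.nx 471 324 (.l1 (.ls 73 31 823)) (.nr 472 65537 (.lg 0 true 1 79 83 23
  0 1680) .out))) .out) .out))) (.na 476 131 .ne (.na 477 134 (.lg 0 false 1 0 0 16 0 24) (.nx 482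
  20644 (.nr 481 16385 (.nr 478 134 .s1 (.nx 479 393 (.l1 (.ls 41 37 1155)) (.nr 480 1025 (.lg 2
  false 1 29 29 19 2157 3696) .out))) .out) .out))))))) (.na 592 211 (.na 540 172 (.na 514 154 (.na
  496 148 (.na 489 139 (.nx 488 20644 (.nr 487 16385 (.nr 484 137 .s1 (.nx 485 393 (.l1 (.ls 37 23
  1130)) (.nr 486 1025 (.lg 2 true 1 23 23 16 2110 840) .out))) .out) .out) (.na 490 142 (.lg 0
  false 1 0 0 16 0 24) (.nx 495 20644 (.nr 494 16385 (.nr 491 142 .s1 (.nx 492 393 (.l1 (.ls 41 37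
  1090)) (.nr 493 1025 (.lg 2 true 1 23 23 19 2036 336) .out))) .out) .out))) (.na 502 149 (.nx 501
  20644 (.nr 500 16385 (.nr 497 148 .s1 (.nx 498 324 (.l1 (.ls 31 31 712)) (.nr 499 1025 (.lg 0
  true 1 47 47 23 0 336) .out))) .out) .out) (.na 508 151 (.nx 507 20644 (.nr 506 16385 (.nr 503
  149 .s1 (.nx 504 393 (.l1 (.ls 31 23 1039)) (.nr 505 1025 (.lg 2 false 1 19 19 16 1940 168)
  .out))) .out) .out) (.nx 513 20644 (.nr 512 16385 (.nr 509 151 .s1 (.nx 510 393 (.l1 (.ls 31 23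
  1025)) (.nr 511 1025 (.lg 2 true 1 19 19 16 1915 168) .out))) .out) .out)))) (.na 527 161 (.na
  520 157 (.nx 519 20644 (.nr 518 16385 (.nr 515 154 .s1 (.nx 516 393 (.l1 (.ls 41 41 1005)) (.nr
  517 1025 (.lg 2 false 1 23 23 29 1877 3696) .out))) .out) .out) (.na 521 158 (.lg 0 false 1 0 0
  16 0 24) (.nx 526 20644 (.nr 525 16385 (.nr 522 158 .s1 (.nx 523 393 (.l1 (.ls 37 31 980)) (.nr
  524 1025 (.lg 2 true 1 23 23 19 1830 1680) .out))) .out) .out))) (.na 533 163 (.nx 532 20644 (.nr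
  531 16385 (.nr 528 161 .s1 (.nx 529 393 (.l1 (.ls 37 31 962)) (.nr 530 1025 (.lg 2 true 1 19 19
  17 1796 168) .out))) .out) .out) (.na 539 167 (.nx 538 20644 (.nr 537 16385 (.nr 534 163 .s1 (.nx
  535 393 (.l1 (.ls 37 23 950)) (.nr 536 1025 (.lg 2 true 1 23 23 16 1774 9240) .out))) .out) .out)
  (.lg 0 false 1 0 0 16 0 24))))) (.na 566 191 (.na 553 179 (.na 546 173 (.nx 545 20644 (.nr 544
  16385 (.nr 541 172 .s1 (.nx 542 393 (.l1 (.ls 41 31 900)) (.nr 543 1025 (.lg 2 false 1 29 29 23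
  1681 1680) .out))) .out) .out) (.na 547 176 (.lg 0 false 1 0 0 16 0 24) (.nx 552 20644 (.nr 551
  16385 (.nr 548 176 .s1 (.nx 549 324 (.l1 (.ls 47 37 599)) (.nr 550 1025 (.lg 0 true 1 43 47 31 0
  3696) .out))) .out) .out))) (.na 559 181 (.nx 558 20644 (.nr 557 16385 (.nr 554 179 .s1 (.nx 555
  393 (.l1 (.ls 31 23 865)) (.nr 556 1025 (.lg 2 false 1 17 17 16 1615 168) .out))) .out) .out)
  (.na 560 184 (.lg 0 false 1 0 0 16 0 24) (.nx 565 20644 (.nr 564 16385 (.nr 561 184 .s1 (.nx 562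
  393 (.l1 (.ls 43 37 842)) (.nr 563 1025 (.lg 2 true 1 19 29 19 1571 336) .out))) .out) .out))))
  (.na 579 197 (.na 572 193 (.nx 571 20644 (.nr 570 16385 (.nr 567 191 .s1 (.nx 568 393 (.l1 (.ls
  29 23 811)) (.nr 569 1025 (.lg 2 true 1 16 16 16 1514 168) .out))) .out) .out) (.na 578 196 (.nx
  577 20644 (.nr 576 16385 (.nr 573 193 .s1 (.nx 574 393 (.l1 (.ls 31 23 803)) (.nr 575 1025 (.lg 2
  true 1 17 17 16 1498 840) .out))) .out) .out) (.lg 0 false 1 0 0 16 0 24))) (.na 585 199 (.nx 584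
  20644 (.nr 583 16385 (.nr 580 197 .s1 (.nx 581 393 (.l1 (.ls 31 23 787)) (.nr 582 1025 (.lg 2
  true 1 17 17 16 1468 840) .out))) .out) .out) (.na 586 203 (.lg 0 false 1 0 0 16 0 24) (.nx 591
  20644 (.nr 590 16385 (.nr 587 203 .s1 (.nx 588 393 (.l1 (.ls 23 23 763)) (.nr 589 1025 (.lg 2
  true 1 17 17 17 1424 840) .out))) .out) .out)))))) (.na 649 241 (.na 623 226 (.na 610 218 (.na
  598 212 (.nx 597 20644 (.nr 596 16385 (.nr 593 211 .s1 (.nx 594 393 (.l1 (.ls 29 23 734)) (.nr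
  595 1025 (.lg 2 false 1 17 17 16 1370 1848) .out))) .out) .out) (.na 604 214 (.nx 603 20644 (.nr
  602 16385 (.nr 599 212 .s1 (.nx 600 393 (.l1 (.ls 41 31 731)) (.nr 601 1025 (.lg 2 false 1 23 23
  23 1364 1680) .out))) .out) .out) (.nx 609 20644 (.nr 608 16385 (.nr 605 214 .s1 (.nx 606 393
  (.l1 (.ls 31 31 724)) (.nr 607 1025 (.lg 2 false 1 16 16 23 1351 336) .out))) .out) .out))) (.na
  616 223 (.nx 615 20644 (.nr 614 16385 (.nr 611 218 .s1 (.nx 612 393 (.l1 (.ls 37 31 711)) (.nr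
  613 1025 (.lg 2 false 1 19 19 23 1326 18480) .out))) .out) .out) (.na 617 224 (.lg 0 false 1 0 0
  16 0 24) (.nx 622 20644 (.nr 621 16385 (.nr 618 224 .s1 (.nx 619 393 (.l1 (.ls 41 37 692)) (.nr
  620 1025 (.lg 2 false 1 19 23 29 1291 336) .out))) .out) .out)))) (.na 631 232 (.na 629 227 (.nx
  628 20644 (.nr 627 16385 (.nr 624 226 .s1 (.nx 625 393 (.l1 (.ls 31 31 686)) (.nr 626 1025 (.lg 2
  true 1 17 17 23 1279 336) .out))) .out) .out) (.na 630 229 (.lg 0 false 1 0 0 16 0 24) (.lg 0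
  false 1 0 0 16 0 24))) (.na 637 233 (.nx 636 20644 (.nr 635 16385 (.nr 632 232 .s1 (.nx 633 393
  (.l1 (.ls 23 37 668)) (.nr 634 1025 (.lg 2 true 1 19 23 23 1246 1680) .out))) .out) .out) (.na
  643 239 (.nx 642 20644 (.nr 641 16385 (.nr 638 233 .s1 (.nx 639 393 (.l1 (.ls 37 23 665)) (.nr
  640 1025 (.lg 2 true 1 17 17 17 1241 9240) .out))) .out) .out) (.nx 648 20644 (.nr 647 16385 (.nr
  644 239 .s1 (.nx 645 393 (.l1 (.ls 29 23 649)) (.nr 646 1025 (.lg 2 true 1 16 16 17 1210 168)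
  .out))) .out) .out))))) (.na 675 257 (.na 657 253 (.na 650 242 (.lg 0 false 1 0 0 16 0 24) (.na
  656 251 (.nx 655 20644 (.nr 654 16385 (.nr 651 242 .s1 (.nx 652 393 (.l1 (.ls 41 37 641)) (.nr
  653 1025 (.lg 2 true 1 19 19 29 1195 18480) .out))) .out) .out) (.lg 0 false 1 0 0 16 0 24)))
  (.na 663 254 (.nx 662 20644 (.nr 661 16385 (.nr 658 253 .s1 (.nx 659 393 (.l1 (.ls 43 31 613))
  (.nr 660 1025 (.lg 2 true 1 19 19 19 1143 9240) .out))) .out) .out) (.na 669 256 (.nx 668 20644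
  (.nr 667 16385 (.nr 664 254 .s1 (.nx 665 393 (.l1 (.ls 29 31 611)) (.nr 666 1025 (.lg 2 true 1 16
  16 23 1138 336) .out))) .out) .out) (.nx 674 20644 (.nr 673 16385 (.nr 670 256 .s1 (.nx 671 324
  (.l1 (.ls 43 29 413)) (.nr 672 2049 (.lg 0 true 1 43 53 29 0 336) .out))) .out) .out)))) (.na
  2147 2048 (.na 962 512 (.nx 961 20644 (.nr 960 4097 (.nr 676 257 .s1 (.nx 704 28 (.nr 703 1934
  (.lx (.lp 16 0 129)) (.l1 .sk)) (.nx 705 29 (.l1 .sk) (.la (.lg 0 true 1 41 41 23 0))))) .out)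
  .out) (.na 2042 1024 (.nx 2041 20644 (.nr 2040 8193 (.nr 963 512 .s1 (.nx 1527 915 (.nx 1014 52
  (.lx (.lp 37 17 257)) (.nr 1526 4097 (.la (.ls 29 31 1632)) .out)) (.nr 2039 2049 (.la (.lg 2
  false 1 16 16 29 891)) .out))) .out) .out) (.nx 2146 103 (.nr 2145 8193 (.nr 2043 1024 .s1 (.lx
  (.lp 37 23 513))) .out) .out))) (.na 2231 4096 (.nx 2230 82 (.nr 2229 8193 (.nr 2148 2048 .s1
  (.lx (.lp 41 23 1025))) .out) .out) (.na 2315 8193 (.nx 2314 82 (.nr 2313 16385 (.nr 2232 4096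
  .s1 (.lx (.lp 17 29 2049))) .out) .out) .out)))))))

theorem c97 :
    OkQ ckI L6 117 1 1099511627776 0 34359738368 1 1099511627776 ∧
    OkQ ckI L9 193 1 1099511627776 0 34359738368 1 1099511627776 ∧
    OkQ ckI L3 28 1 1099511627776 0 34359738368 1 1099511627776 := by
  refine ⟨?_, ?_, ?_⟩
  · refine fin 936 7679 T97_0 ?_
    refine jn 6 (by decide +kernel) ?_
    refine jn 8 (by decide +kernel) ?_
    refine jn 10 (by decide +kernel) ?_
    refine jn 12 (by decide +kernel) ?_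
    refine jn 14 (by decide +kernel) ?_
    refine jn 16 (by decide +kernel) ?_
    refine jn 19 (by decide +kernel) ?_
    refine jn 21 (by decide +kernel) ?_
    refine jn 23 (by decide +kernel) ?_
    refine jn 26 (by decide +kernel) ?_
    refine jn 28 (by decide +kernel) ?_
    refine jn 30 (by decide +kernel) ?_
    refine jn 47 (by decide +kernel) ?_
    refine jn 52 (by decide +kernel) ?_
    refine jn 56 (by decide +kernel) ?_
    refine jn 59 (by decide +kernel) ?_
    refine jn 64 (by decide +kernel) ?_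
    refine jn 68 (by decide +kernel) ?_
    refine jn 72 (by decide +kernel) ?_
    refine jn 76 (by decide +kernel) ?_
    refine jn 92 (by decide +kernel) ?_
    refine jn 108 (by decide +kernel) ?_
    refine jn 124 (by decide +kernel) ?_
    refine jn 140 (by decide +kernel) ?_
    refine jn 155 (by decide +kernel) ?_
    refine jn 159 (by decide +kernel) ?_
    refine jn 179 (by decide +kernel) ?_
    refine jn 192 (by decide +kernel) ?_
    refine jn 198 (by decide +kernel) ?_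
    refine jn 203 (by decide +kernel) ?_
    refine jn 205 (by decide +kernel) ?_
    refine jn 210 (by decide +kernel) ?_
    refine jn 215 (by decide +kernel) ?_
    refine jn 220 (by decide +kernel) ?_
    refine jn 227 (by decide +kernel) ?_
    refine jn 238 (by decide +kernel) ?_
    refine jn 247 (by decide +kernel) ?_
    refine jn 257 (by decide +kernel) ?_
    refine jn 263 (by decide +kernel) ?_
    refine jn 270 (by decide +kernel) ?_
    refine jn 291 (by decide +kernel) ?_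
    refine jn 314 (by decide +kernel) ?_
    refine jn 337 (by decide +kernel) ?_
    refine jn 344 (by decide +kernel) ?_
    refine jn 348 (by decide +kernel) ?_
    refine jn 359 (by decide +kernel) ?_
    refine jn 372 (by decide +kernel) ?_
    refine jn 388 (by decide +kernel) ?_
    refine jn 389 (by decide +kernel) ?_
    refine jn 390 (by decide +kernel) ?_
    refine jn 391 (by decide +kernel) ?_
    refine jn 397 (by decide +kernel) ?_
    refine jn 400 (by decide +kernel) ?_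
    refine jn 402 (by decide +kernel) ?_
    refine jn 403 (by decide +kernel) ?_
    refine jn 404 (by decide +kernel) ?_
    refine jn 405 (by decide +kernel) ?_
    refine jn 406 (by decide +kernel) ?_
    refine jn 407 (by decide +kernel) ?_
    refine jn 408 (by decide +kernel) ?_
    refine jn 409 (by decide +kernel) ?_
    refine jn 410 (by decide +kernel) ?_
    refine jn 411 (by decide +kernel) ?_
    refine jn 412 (by decide +kernel) ?_
    refine jn 413 (by decide +kernel) ?_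
    refine jn 414 (by decide +kernel) ?_
    refine jn 415 (by decide +kernel) ?_
    refine jn 416 (by decide +kernel) ?_
    refine jn 422 (by decide +kernel) ?_
    refine jn 431 (by decide +kernel) ?_
    refine jn 442 (by decide +kernel) ?_
    refine jn 444 (by decide +kernel) ?_
    refine jn 446 (by decide +kernel) ?_
    refine jn 448 (by decide +kernel) ?_
    refine jn 453 (by decide +kernel) ?_
    refine jn 457 (by decide +kernel) ?_
    refine jn 471 (by decide +kernel) ?_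
    refine jn 475 (by decide +kernel) ?_
    refine jn 479 (by decide +kernel) ?_
    refine jn 481 (by decide +kernel) ?_
    refine jn 487 (by decide +kernel) ?_
    refine jn 500 (by decide +kernel) ?_
    refine jn 503 (by decide +kernel) ?_
    refine jn 504 (by decide +kernel) ?_
    refine jn 505 (by decide +kernel) ?_
    refine jn 507 (by decide +kernel) ?_
    refine jn 508 (by decide +kernel) ?_
    refine jn 509 (by decide +kernel) ?_
    refine jn 511 (by decide +kernel) ?_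
    refine jn 513 (by decide +kernel) ?_
    refine jn 514 (by decide +kernel) ?_
    refine jn 519 (by decide +kernel) ?_
    refine jn 532 (by decide +kernel) ?_
    refine jn 533 (by decide +kernel) ?_
    refine jn 535 (by decide +kernel) ?_
    refine jn 537 (by decide +kernel) ?_
    refine jn 542 (by decide +kernel) ?_
    refine jn 543 (by decide +kernel) ?_
    refine jn 544 (by decide +kernel) ?_
    refine jn 545 (by decide +kernel) ?_
    refine jn 546 (by decide +kernel) ?_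
    refine jn 547 (by decide +kernel) ?_
    refine jn 561 (by decide +kernel) ?_
    refine jn 562 (by decide +kernel) ?_
    refine jn 567 (by decide +kernel) ?_
    refine jn 572 (by decide +kernel) ?_
    refine jn 590 (by decide +kernel) ?_
    refine jn 606 (by decide +kernel) ?_
    refine jn 614 (by decide +kernel) ?_
    refine jn 619 (by decide +kernel) ?_
    refine jn 631 (by decide +kernel) ?_
    refine jn 636 (by decide +kernel) ?_
    refine jn 641 (by decide +kernel) ?_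
    refine jn 654 (by decide +kernel) ?_
    refine jn 659 (by decide +kernel) ?_
    refine jn 669 (by decide +kernel) ?_
    refine jn 674 (by decide +kernel) ?_
    refine jn 679 (by decide +kernel) ?_
    refine jn 692 (by decide +kernel) ?_
    refine jn 697 (by decide +kernel) ?_
    refine jn 711 (by decide +kernel) ?_
    refine jn 716 (by decide +kernel) ?_
    refine jn 728 (by decide +kernel) ?_
    refine jn 733 (by decide +kernel) ?_
    refine jn 749 (by decide +kernel) ?_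
    refine jn 761 (by decide +kernel) ?_
    refine jn 769 (by decide +kernel) ?_
    refine jn 773 (by decide +kernel) ?_
    refine jn 774 (by decide +kernel) ?_
    refine jn 775 (by decide +kernel) ?_
    refine jn 776 (by decide +kernel) ?_
    refine jn 777 (by decide +kernel) ?_
    refine jn 786 (by decide +kernel) ?_
    refine jn 792 (by decide +kernel) ?_
    refine jn 802 (by decide +kernel) ?_
    refine jn 803 (by decide +kernel) ?_
    refine jn 804 (by decide +kernel) ?_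
    refine jn 816 (by decide +kernel) ?_
    refine jn 831 (by decide +kernel) ?_
    refine jn 843 (by decide +kernel) ?_
    refine jn 854 (by decide +kernel) ?_
    refine jn 866 (by decide +kernel) ?_
    refine jn 877 (by decide +kernel) ?_
    refine jn 888 (by decide +kernel) ?_
    refine jn 899 (by decide +kernel) ?_
    refine jn 916 (by decide +kernel) ?_
    refine jn 921 (by decide +kernel) ?_
    refine jn 932 (by decide +kernel) ?_
    refine jn 944 (by decide +kernel) ?_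
    refine jn 955 (by decide +kernel) ?_
    refine jn 964 (by decide +kernel) ?_
    refine jn 966 (by decide +kernel) ?_
    refine jn 975 (by decide +kernel) ?_
    refine jn 991 (by decide +kernel) ?_
    refine jn 1000 (by decide +kernel) ?_
    refine jn 1009 (by decide +kernel) ?_
    refine jn 1026 (by decide +kernel) ?_
    refine jn 1034 (by decide +kernel) ?_
    refine jn 1050 (by decide +kernel) ?_
    refine jn 1066 (by decide +kernel) ?_
    refine jn 1081 (by decide +kernel) ?_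
    refine jn 1092 (by decide +kernel) ?_
    refine jn 1101 (by decide +kernel) ?_
    refine jn 1109 (by decide +kernel) ?_
    refine jn 1117 (by decide +kernel) ?_
    refine jn 1133 (by decide +kernel) ?_
    refine jn 1150 (by decide +kernel) ?_
    refine jn 1161 (by decide +kernel) ?_
    refine jn 1175 (by decide +kernel) ?_
    refine jn 1214 (by decide +kernel) ?_
    refine jn 1256 (by decide +kernel) ?_
    refine jn 1291 (by decide +kernel) ?_
    refine jn 1351 (by decide +kernel) ?_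
    refine jn 1394 (by decide +kernel) ?_
    refine jn 1441 (by decide +kernel) ?_
    refine jn 1442 (by decide +kernel) ?_
    refine jn 1451 (by decide +kernel) ?_
    refine jn 1462 (by decide +kernel) ?_
    refine jn 1474 (by decide +kernel) ?_
    refine jn 1486 (by decide +kernel) ?_
    refine jn 1487 (by decide +kernel) ?_
    refine jn 1499 (by decide +kernel) ?_
    refine jn 1511 (by decide +kernel) ?_
    refine jn 1521 (by decide +kernel) ?_
    refine jn 1522 (by decide +kernel) ?_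
    refine jn 1526 (by decide +kernel) ?_
    refine jn 1537 (by decide +kernel) ?_
    refine jn 1543 (by decide +kernel) ?_
    refine jn 1554 (by decide +kernel) ?_
    refine jn 1563 (by decide +kernel) ?_
    refine jn 1579 (by decide +kernel) ?_
    refine jn 1586 (by decide +kernel) ?_
    refine jn 1598 (by decide +kernel) ?_
    refine jn 1607 (by decide +kernel) ?_
    refine jn 1614 (by decide +kernel) ?_
    refine jn 1626 (by decide +kernel) ?_
    refine jn 1642 (by decide +kernel) ?_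
    refine jn 1649 (by decide +kernel) ?_
    refine jn 1674 (by decide +kernel) ?_
    refine jn 1681 (by decide +kernel) ?_
    refine jn 1730 (by decide +kernel) ?_
    refine jn 1793 (by decide +kernel) ?_
    refine jn 1857 (by decide +kernel) ?_
    refine jn 1906 (by decide +kernel) ?_
    refine jn 1919 (by decide +kernel) ?_
    refine jn 1935 (by decide +kernel) ?_
    refine jn 1940 (by decide +kernel) ?_
    refine jn 1946 (by decide +kernel) ?_
    refine jn 1955 (by decide +kernel) ?_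
    refine jn 1975 (by decide +kernel) ?_
    refine jn 2000 (by decide +kernel) ?_
    refine jn 2006 (by decide +kernel) ?_
    refine jn 2023 (by decide +kernel) ?_
    refine jn 2036 (by decide +kernel) ?_
    refine jn 2043 (by decide +kernel) ?_
    refine jn 2055 (by decide +kernel) ?_
    refine jn 2070 (by decide +kernel) ?_
    refine jn 2075 (by decide +kernel) ?_
    refine jn 2083 (by decide +kernel) ?_
    refine jn 2090 (by decide +kernel) ?_
    refine jn 2091 (by decide +kernel) ?_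
    refine jn 2119 (by decide +kernel) ?_
    refine jn 2148 (by decide +kernel) ?_
    refine jn 2199 (by decide +kernel) ?_
    refine jn 2234 (by decide +kernel) ?_
    refine jn 2264 (by decide +kernel) ?_
    refine jn 2324 (by decide +kernel) ?_
    refine jn 2379 (by decide +kernel) ?_
    refine jn 2408 (by decide +kernel) ?_
    refine jn 2458 (by decide +kernel) ?_
    refine jn 2482 (by decide +kernel) ?_
    refine jn 2506 (by decide +kernel) ?_
    refine jn 2545 (by decide +kernel) ?_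
    refine jn 2582 (by decide +kernel) ?_
    refine jn 2647 (by decide +kernel) ?_
    refine jn 2686 (by decide +kernel) ?_
    refine jn 2746 (by decide +kernel) ?_
    refine jn 2790 (by decide +kernel) ?_
    refine jn 2827 (by decide +kernel) ?_
    refine jn 2901 (by decide +kernel) ?_
    refine jn 2980 (by decide +kernel) ?_
    refine jn 3045 (by decide +kernel) ?_
    refine jn 3130 (by decide +kernel) ?_
    refine jn 3209 (by decide +kernel) ?_
    refine jn 3300 (by decide +kernel) ?_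
    refine jn 3373 (by decide +kernel) ?_
    refine jn 3450 (by decide +kernel) ?_
    refine jn 3641 (by decide +kernel) ?_
    refine jn 3730 (by decide +kernel) ?_
    refine jn 3806 (by decide +kernel) ?_
    refine jn 3917 (by decide +kernel) ?_
    refine jn 4006 (by decide +kernel) ?_
    refine jn 4102 (by decide +kernel) ?_
    refine jn 4211 (by decide +kernel) ?_
    refine jn 4342 (by decide +kernel) ?_
    refine jn 4428 (by decide +kernel) ?_
    refine jn 4751 (by decide +kernel) ?_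
    refine jn 4920 (by decide +kernel) ?_
    refine jn 5046 (by decide +kernel) ?_
    refine jn 5313 (by decide +kernel) ?_
    refine jn 5473 (by decide +kernel) ?_
    refine jn 5590 (by decide +kernel) ?_
    refine jn 5665 (by decide +kernel) ?_
    refine jn 5864 (by decide +kernel) ?_
    refine jn 6082 (by decide +kernel) ?_
    refine jn 6264 (by decide +kernel) ?_
    refine jn 6355 (by decide +kernel) ?_
    refine jn 6738 (by decide +kernel) ?_
    refine jn 6907 (by decide +kernel) ?_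
    refine jn 7343 (by decide +kernel) ?_
    exact je (by decide +kernel)
  · refine fin 24 18242 T97_1 ?_
    refine jn 8 (by decide +kernel) ?_
    refine jn 11 (by decide +kernel) ?_
    refine jn 16 (by decide +kernel) ?_
    refine jn 20 (by decide +kernel) ?_
    refine jn 25 (by decide +kernel) ?_
    refine jn 28 (by decide +kernel) ?_
    refine jn 34 (by decide +kernel) ?_
    refine jn 40 (by decide +kernel) ?_
    refine jn 43 (by decide +kernel) ?_
    refine jn 48 (by decide +kernel) ?_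
    refine jn 53 (by decide +kernel) ?_
    refine jn 56 (by decide +kernel) ?_
    refine jn 60 (by decide +kernel) ?_
    refine jn 63 (by decide +kernel) ?_
    refine jn 72 (by decide +kernel) ?_
    refine jn 81 (by decide +kernel) ?_
    refine jn 91 (by decide +kernel) ?_
    refine jn 101 (by decide +kernel) ?_
    refine jn 111 (by decide +kernel) ?_
    refine jn 121 (by decide +kernel) ?_
    refine jn 123 (by decide +kernel) ?_
    refine jn 143 (by decide +kernel) ?_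
    refine jn 163 (by decide +kernel) ?_
    refine jn 186 (by decide +kernel) ?_
    refine jn 210 (by decide +kernel) ?_
    refine jn 223 (by decide +kernel) ?_
    refine jn 245 (by decide +kernel) ?_
    refine jn 259 (by decide +kernel) ?_
    refine jn 279 (by decide +kernel) ?_
    refine jn 299 (by decide +kernel) ?_
    refine jn 324 (by decide +kernel) ?_
    refine jn 344 (by decide +kernel) ?_
    refine jn 365 (by decide +kernel) ?_
    refine jn 388 (by decide +kernel) ?_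
    refine jn 395 (by decide +kernel) ?_
    refine jn 403 (by decide +kernel) ?_
    refine jn 413 (by decide +kernel) ?_
    refine jn 421 (by decide +kernel) ?_
    refine jn 430 (by decide +kernel) ?_
    refine jn 438 (by decide +kernel) ?_
    refine jn 446 (by decide +kernel) ?_
    refine jn 456 (by decide +kernel) ?_
    refine jn 464 (by decide +kernel) ?_
    refine jn 472 (by decide +kernel) ?_
    refine jn 479 (by decide +kernel) ?_
    refine jn 491 (by decide +kernel) ?_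
    refine jn 504 (by decide +kernel) ?_
    refine jn 516 (by decide +kernel) ?_
    refine jn 518 (by decide +kernel) ?_
    refine jn 539 (by decide +kernel) ?_
    refine jn 568 (by decide +kernel) ?_
    refine jn 576 (by decide +kernel) ?_
    refine jn 597 (by decide +kernel) ?_
    refine jn 618 (by decide +kernel) ?_
    refine jn 644 (by decide +kernel) ?_
    refine jn 667 (by decide +kernel) ?_
    refine jn 688 (by decide +kernel) ?_
    refine jn 701 (by decide +kernel) ?_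
    refine jn 707 (by decide +kernel) ?_
    refine jn 716 (by decide +kernel) ?_
    refine jn 725 (by decide +kernel) ?_
    refine jn 739 (by decide +kernel) ?_
    refine jn 749 (by decide +kernel) ?_
    refine jn 763 (by decide +kernel) ?_
    refine jn 769 (by decide +kernel) ?_
    refine jn 786 (by decide +kernel) ?_
    refine jn 799 (by decide +kernel) ?_
    refine jn 817 (by decide +kernel) ?_
    refine jn 827 (by decide +kernel) ?_
    refine jn 828 (by decide +kernel) ?_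
    refine jn 829 (by decide +kernel) ?_
    refine jn 830 (by decide +kernel) ?_
    refine jn 845 (by decide +kernel) ?_
    refine jn 858 (by decide +kernel) ?_
    refine jn 873 (by decide +kernel) ?_
    refine jn 886 (by decide +kernel) ?_
    refine jn 904 (by decide +kernel) ?_
    refine jn 918 (by decide +kernel) ?_
    refine jn 932 (by decide +kernel) ?_
    refine jn 945 (by decide +kernel) ?_
    refine jn 960 (by decide +kernel) ?_
    refine jn 971 (by decide +kernel) ?_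
    refine jn 998 (by decide +kernel) ?_
    refine jn 1012 (by decide +kernel) ?_
    refine jn 1031 (by decide +kernel) ?_
    refine jn 1045 (by decide +kernel) ?_
    refine jn 1051 (by decide +kernel) ?_
    refine jn 1072 (by decide +kernel) ?_
    refine jn 1084 (by decide +kernel) ?_
    refine jn 1107 (by decide +kernel) ?_
    refine jn 1118 (by decide +kernel) ?_
    refine jn 1139 (by decide +kernel) ?_
    refine jn 1251 (by decide +kernel) ?_
    refine jn 1265 (by decide +kernel) ?_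
    refine jn 1277 (by decide +kernel) ?_
    refine jn 1308 (by decide +kernel) ?_
    refine jn 1328 (by decide +kernel) ?_
    refine jn 1353 (by decide +kernel) ?_
    refine jn 1363 (by decide +kernel) ?_
    refine jn 1383 (by decide +kernel) ?_
    refine jn 1417 (by decide +kernel) ?_
    refine jn 1437 (by decide +kernel) ?_
    refine jn 1462 (by decide +kernel) ?_
    refine jn 1617 (by decide +kernel) ?_
    refine jn 1663 (by decide +kernel) ?_
    refine jn 1673 (by decide +kernel) ?_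
    refine jn 1700 (by decide +kernel) ?_
    refine jn 1717 (by decide +kernel) ?_
    refine jn 1757 (by decide +kernel) ?_
    refine jn 1792 (by decide +kernel) ?_
    refine jn 1821 (by decide +kernel) ?_
    refine jn 1834 (by decide +kernel) ?_
    refine jn 1849 (by decide +kernel) ?_
    refine jn 1861 (by decide +kernel) ?_
    refine jn 1905 (by decide +kernel) ?_
    refine jn 2022 (by decide +kernel) ?_
    refine jn 2138 (by decide +kernel) ?_
    refine jn 2175 (by decide +kernel) ?_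
    refine jn 2214 (by decide +kernel) ?_
    refine jn 2255 (by decide +kernel) ?_
    refine jn 2298 (by decide +kernel) ?_
    refine jn 2343 (by decide +kernel) ?_
    refine jn 2361 (by decide +kernel) ?_
    refine jn 2412 (by decide +kernel) ?_
    refine jn 2449 (by decide +kernel) ?_
    refine jn 2482 (by decide +kernel) ?_
    refine jn 2544 (by decide +kernel) ?_
    refine jn 2582 (by decide +kernel) ?_
    refine jn 2702 (by decide +kernel) ?_
    refine jn 2776 (by decide +kernel) ?_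
    refine jn 2877 (by decide +kernel) ?_
    refine jn 2976 (by decide +kernel) ?_
    refine jn 3024 (by decide +kernel) ?_
    refine jn 3091 (by decide +kernel) ?_
    refine jn 3173 (by decide +kernel) ?_
    refine jn 3229 (by decide +kernel) ?_
    refine jn 3323 (by decide +kernel) ?_
    refine jn 3355 (by decide +kernel) ?_
    refine jn 3428 (by decide +kernel) ?_
    refine jn 3496 (by decide +kernel) ?_
    refine jn 3623 (by decide +kernel) ?_
    refine jn 3676 (by decide +kernel) ?_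
    refine jn 3763 (by decide +kernel) ?_
    refine jn 3866 (by decide +kernel) ?_
    refine jn 3931 (by decide +kernel) ?_
    refine jn 4027 (by decide +kernel) ?_
    refine jn 4139 (by decide +kernel) ?_
    refine jn 4270 (by decide +kernel) ?_
    refine jn 4366 (by decide +kernel) ?_
    refine jn 4470 (by decide +kernel) ?_
    refine jn 4606 (by decide +kernel) ?_
    refine jn 4741 (by decide +kernel) ?_
    refine jn 4841 (by decide +kernel) ?_
    refine jn 4999 (by decide +kernel) ?_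
    refine jn 5153 (by decide +kernel) ?_
    refine jn 5324 (by decide +kernel) ?_
    refine jn 5528 (by decide +kernel) ?_
    refine jn 5708 (by decide +kernel) ?_
    refine jn 5894 (by decide +kernel) ?_
    refine jn 6125 (by decide +kernel) ?_
    refine jn 6475 (by decide +kernel) ?_
    refine jn 6685 (by decide +kernel) ?_
    refine jn 6946 (by decide +kernel) ?_
    refine jn 7174 (by decide +kernel) ?_
    refine jn 7371 (by decide +kernel) ?_
    refine jn 7590 (by decide +kernel) ?_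
    refine jn 7825 (by decide +kernel) ?_
    refine jn 8041 (by decide +kernel) ?_
    refine jn 8483 (by decide +kernel) ?_
    refine jn 8879 (by decide +kernel) ?_
    refine jn 9218 (by decide +kernel) ?_
    refine jn 9579 (by decide +kernel) ?_
    refine jn 9963 (by decide +kernel) ?_
    refine jn 10316 (by decide +kernel) ?_
    refine jn 10685 (by decide +kernel) ?_
    refine jn 11233 (by decide +kernel) ?_
    refine jn 11503 (by decide +kernel) ?_
    refine jn 11690 (by decide +kernel) ?_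
    refine jn 11835 (by decide +kernel) ?_
    refine jn 11945 (by decide +kernel) ?_
    refine jn 12150 (by decide +kernel) ?_
    refine jn 12665 (by decide +kernel) ?_
    refine jn 12925 (by decide +kernel) ?_
    refine jn 13101 (by decide +kernel) ?_
    refine jn 13254 (by decide +kernel) ?_
    refine jn 13631 (by decide +kernel) ?_
    refine jn 13965 (by decide +kernel) ?_
    refine jn 14167 (by decide +kernel) ?_
    refine jn 14331 (by decide +kernel) ?_
    refine jn 14460 (by decide +kernel) ?_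
    refine jn 14576 (by decide +kernel) ?_
    refine jn 15027 (by decide +kernel) ?_
    refine jn 15378 (by decide +kernel) ?_
    refine jn 15612 (by decide +kernel) ?_
    refine jn 15802 (by decide +kernel) ?_
    refine jn 16276 (by decide +kernel) ?_
    refine jn 16750 (by decide +kernel) ?_
    refine jn 17030 (by decide +kernel) ?_
    refine jn 17210 (by decide +kernel) ?_
    exact je (by decide +kernel)
  · refine fin 168 2316 T97_2 ?_
    refine jn 3 (by decide +kernel) ?_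
    refine jn 4 (by decide +kernel) ?_
    refine jn 5 (by decide +kernel) ?_
    refine jn 6 (by decide +kernel) ?_
    refine jn 7 (by decide +kernel) ?_
    refine jn 8 (by decide +kernel) ?_
    refine jn 9 (by decide +kernel) ?_
    refine jn 10 (by decide +kernel) ?_
    refine jn 11 (by decide +kernel) ?_
    refine jn 12 (by decide +kernel) ?_
    refine jn 13 (by decide +kernel) ?_
    refine jn 14 (by decide +kernel) ?_
    refine jn 15 (by decide +kernel) ?_
    refine jn 16 (by decide +kernel) ?_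
    refine jn 17 (by decide +kernel) ?_
    refine jn 18 (by decide +kernel) ?_
    refine jn 19 (by decide +kernel) ?_
    refine jn 20 (by decide +kernel) ?_
    refine jn 21 (by decide +kernel) ?_
    refine jn 22 (by decide +kernel) ?_
    refine jn 23 (by decide +kernel) ?_
    refine jn 28 (by decide +kernel) ?_
    refine jn 39 (by decide +kernel) ?_
    refine jn 43 (by decide +kernel) ?_
    refine jn 48 (by decide +kernel) ?_
    refine jn 52 (by decide +kernel) ?_
    refine jn 56 (by decide +kernel) ?_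
    refine jn 62 (by decide +kernel) ?_
    refine jn 69 (by decide +kernel) ?_
    refine jn 91 (by decide +kernel) ?_
    refine jn 105 (by decide +kernel) ?_
    refine jn 106 (by decide +kernel) ?_
    refine jn 107 (by decide +kernel) ?_
    refine jn 108 (by decide +kernel) ?_
    refine jn 109 (by decide +kernel) ?_
    refine jn 110 (by decide +kernel) ?_
    refine jn 113 (by decide +kernel) ?_
    refine jn 116 (by decide +kernel) ?_
    refine jn 120 (by decide +kernel) ?_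
    refine jn 124 (by decide +kernel) ?_
    refine jn 128 (by decide +kernel) ?_
    refine jn 133 (by decide +kernel) ?_
    refine jn 148 (by decide +kernel) ?_
    refine jn 149 (by decide +kernel) ?_
    refine jn 154 (by decide +kernel) ?_
    refine jn 155 (by decide +kernel) ?_
    refine jn 156 (by decide +kernel) ?_
    refine jn 157 (by decide +kernel) ?_
    refine jn 158 (by decide +kernel) ?_
    refine jn 159 (by decide +kernel) ?_
    refine jn 160 (by decide +kernel) ?_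
    refine jn 161 (by decide +kernel) ?_
    refine jn 162 (by decide +kernel) ?_
    refine jn 163 (by decide +kernel) ?_
    refine jn 164 (by decide +kernel) ?_
    refine jn 165 (by decide +kernel) ?_
    refine jn 168 (by decide +kernel) ?_
    refine jn 169 (by decide +kernel) ?_
    refine jn 171 (by decide +kernel) ?_
    refine jn 173 (by decide +kernel) ?_
    refine jn 175 (by decide +kernel) ?_
    refine jn 184 (by decide +kernel) ?_
    refine jn 186 (by decide +kernel) ?_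
    refine jn 191 (by decide +kernel) ?_
    refine jn 196 (by decide +kernel) ?_
    refine jn 200 (by decide +kernel) ?_
    refine jn 201 (by decide +kernel) ?_
    refine jn 202 (by decide +kernel) ?_
    refine jn 203 (by decide +kernel) ?_
    refine jn 204 (by decide +kernel) ?_
    refine jn 205 (by decide +kernel) ?_
    refine jn 206 (by decide +kernel) ?_
    refine jn 209 (by decide +kernel) ?_
    refine jn 210 (by decide +kernel) ?_
    refine jn 211 (by decide +kernel) ?_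
    refine jn 212 (by decide +kernel) ?_
    refine jn 213 (by decide +kernel) ?_
    refine jn 214 (by decide +kernel) ?_
    refine jn 215 (by decide +kernel) ?_
    refine jn 227 (by decide +kernel) ?_
    refine jn 229 (by decide +kernel) ?_
    refine jn 230 (by decide +kernel) ?_
    refine jn 232 (by decide +kernel) ?_
    refine jn 234 (by decide +kernel) ?_
    refine jn 236 (by decide +kernel) ?_
    refine jn 238 (by decide +kernel) ?_
    refine jn 251 (by decide +kernel) ?_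
    refine jn 261 (by decide +kernel) ?_
    refine jn 262 (by decide +kernel) ?_
    refine jn 263 (by decide +kernel) ?_
    refine jn 264 (by decide +kernel) ?_
    refine jn 265 (by decide +kernel) ?_
    refine jn 266 (by decide +kernel) ?_
    refine jn 267 (by decide +kernel) ?_
    refine jn 268 (by decide +kernel) ?_
    refine jn 269 (by decide +kernel) ?_
    refine jn 270 (by decide +kernel) ?_
    refine jn 280 (by decide +kernel) ?_
    refine jn 281 (by decide +kernel) ?_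
    refine jn 282 (by decide +kernel) ?_
    refine jn 288 (by decide +kernel) ?_
    refine jn 289 (by decide +kernel) ?_
    refine jn 290 (by decide +kernel) ?_
    refine jn 296 (by decide +kernel) ?_
    refine jn 298 (by decide +kernel) ?_
    refine jn 304 (by decide +kernel) ?_
    refine jn 306 (by decide +kernel) ?_
    refine jn 312 (by decide +kernel) ?_
    refine jn 313 (by decide +kernel) ?_
    refine jn 314 (by decide +kernel) ?_
    refine jn 315 (by decide +kernel) ?_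
    refine jn 323 (by decide +kernel) ?_
    refine jn 329 (by decide +kernel) ?_
    refine jn 333 (by decide +kernel) ?_
    refine jn 334 (by decide +kernel) ?_
    refine jn 335 (by decide +kernel) ?_
    refine jn 341 (by decide +kernel) ?_
    refine jn 352 (by decide +kernel) ?_
    refine jn 358 (by decide +kernel) ?_
    refine jn 364 (by decide +kernel) ?_
    refine jn 365 (by decide +kernel) ?_
    refine jn 366 (by decide +kernel) ?_
    refine jn 367 (by decide +kernel) ?_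
    refine jn 368 (by decide +kernel) ?_
    refine jn 381 (by decide +kernel) ?_
    refine jn 393 (by decide +kernel) ?_
    refine jn 405 (by decide +kernel) ?_
    refine jn 411 (by decide +kernel) ?_
    refine jn 417 (by decide +kernel) ?_
    refine jn 434 (by decide +kernel) ?_
    refine jn 442 (by decide +kernel) ?_
    refine jn 454 (by decide +kernel) ?_
    refine jn 470 (by decide +kernel) ?_
    refine jn 471 (by decide +kernel) ?_
    refine jn 472 (by decide +kernel) ?_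
    refine jn 498 (by decide +kernel) ?_
    refine jn 517 (by decide +kernel) ?_
    refine jn 542 (by decide +kernel) ?_
    refine jn 549 (by decide +kernel) ?_
    refine jn 561 (by decide +kernel) ?_
    refine jn 582 (by decide +kernel) ?_
    refine jn 611 (by decide +kernel) ?_
    refine jn 632 (by decide +kernel) ?_
    refine jn 658 (by decide +kernel) ?_
    refine jn 671 (by decide +kernel) ?_
    refine jn 707 (by decide +kernel) ?_
    refine jn 729 (by decide +kernel) ?_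
    refine jn 750 (by decide +kernel) ?_
    refine jn 767 (by decide +kernel) ?_
    refine jn 792 (by decide +kernel) ?_
    refine jn 800 (by decide +kernel) ?_
    refine jn 801 (by decide +kernel) ?_
    refine jn 816 (by decide +kernel) ?_
    refine jn 821 (by decide +kernel) ?_
    refine jn 854 (by decide +kernel) ?_
    refine jn 876 (by decide +kernel) ?_
    refine jn 896 (by decide +kernel) ?_
    refine jn 911 (by decide +kernel) ?_
    refine jn 921 (by decide +kernel) ?_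
    refine jn 947 (by decide +kernel) ?_
    refine jn 1028 (by decide +kernel) ?_
    refine jn 1106 (by decide +kernel) ?_
    refine jn 1190 (by decide +kernel) ?_
    refine jn 1253 (by decide +kernel) ?_
    refine jn 1350 (by decide +kernel) ?_
    refine jn 1430 (by decide +kernel) ?_
    refine jn 1523 (by decide +kernel) ?_
    refine jn 1527 (by decide +kernel) ?_
    refine jn 1528 (by decide +kernel) ?_
    refine jn 1586 (by decide +kernel) ?_
    refine jn 1634 (by decide +kernel) ?_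
    refine jn 1689 (by decide +kernel) ?_
    refine jn 1719 (by decide +kernel) ?_
    refine jn 1749 (by decide +kernel) ?_
    refine jn 1778 (by decide +kernel) ?_
    refine jn 1838 (by decide +kernel) ?_
    refine jn 1887 (by decide +kernel) ?_
    refine jn 1941 (by decide +kernel) ?_
    refine jn 1983 (by decide +kernel) ?_
    refine jn 2041 (by decide +kernel) ?_
    exact je (by decide +kernel)

end Pool.Agent.MP_2339ce_nt.NR
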