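import Pool.Agent.MP_2339ce_nt.Q2.NC.C35
import Pool.Agent.MP_2339ce_nt.Q2.NC.C36
import Pool.Agent.MP_2339ce_nt.Q2.NC.C44
import Pool.Agent.MP_2339ce_nt.Q2.NC.C70
import Pool.Agent.MP_2339ce_nt.Q2.NC.C75
import Pool.Agent.MP_2339ce_nt.Q2.NC.C86
import Pool.Agent.MP_2339ce_nt.Q2.NC.C97
import Pool.Agent.MP_2339ce_nt.Q2.NC.C126
import Pool.Agent.MP_2339ce_nt.Q2.NC.C141
import Pool.Agent.MP_2339ce_nt.Q2.NC.C142
import Pool.Agent.MP_2339ce_nt.Q2.NC.C144

/-! Block NR: the runs for `17 ≤ N ≤ 31`. -/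

set_option autoImplicit false
set_option maxRecDepth 100000

noncomputable section

namespace Pool.Agent.MP_2339ce_nt.NR

open Q2.Top

theorem q17 : OkQ ckI L3 17 1 1099511627776 0 34359738368 1 1099511627776 :=
  c144.1

theorem q19 : OkQ ckI L3 19 1 1099511627776 0 34359738368 1 1099511627776 :=
  c35.2.2

theorem q20 : OkQ ckI L3 20 1 1099511627776 0 34359738368 1 1099511627776 :=
  c75.2.2

theorem q21 : OkQ ckI L3 21 1 1099511627776 0 34359738368 1 1099511627776 :=
  c86.2.2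

theorem q23 : OkQ ckI L3 23 1 1099511627776 0 34359738368 1 1099511627776 :=
  c70.2

theorem q24 : OkQ ckI L3 24 1 1099511627776 0 34359738368 1 1099511627776 :=
  c141.2.2

theorem q25 : OkQ ckI L3 25 1 1099511627776 0 34359738368 1 1099511627776 :=
  c44.2.2

theorem q27 : OkQ ckI L3 27 1 1099511627776 0 34359738368 1 1099511627776 :=
  c36.2.2

theorem q28 : OkQ ckI L3 28 1 1099511627776 0 34359738368 1 1099511627776 :=
  c97.2.2

theorem q29 : OkQ ckI L3 29 1 1099511627776 0 34359738368 1 1099511627776 :=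
  c142.2.2

theorem q31 : OkQ ckI L3 31 1 1099511627776 0 34359738368 1 1099511627776 :=
  c126.1

end Pool.Agent.MP_2339ce_nt.NR
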