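import Pool.Agent.MP_2339ce_nt.Q2.NC.L4
import Pool.Agent.MP_2339ce_nt.Q2.NC.L6
import Pool.Agent.MP_2339ce_nt.Q2.CkI

/-! Block NR: runs. -/

set_option autoImplicit false
set_option maxRecDepth 100000

noncomputable section

namespace Pool.Agent.MP_2339ce_nt.NR

open Q2.Top

def T139_0 : Ph :=
  (.na 540 8 (.na 343 4 (.na 194 2 (.nx 193 1321124 (.nr 192 311745 (.nx 165 660563 (.nx 3 113 (.nx
  2 112 (.nr 1 11 (.lg 0 true 1 41 41 5 0 1680) (.l1 .sk)) (.l1 .sk)) (.nx 56 12041 (.nr 42 46342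
  (.lg 0 false 39 97 101 16 0 65520) (.nx 55 205 (.lg 0 false 13 83 83 9 0 4368) .out)) (.nr 164
  38969 (.nx 150 330282 (.nr 95 432 (.lg 0 true 39 83 89 16 0 65520) (.nx 108 16385 (.lg 1 false 13
  101 103 9 20358 720720) (.nr 149 27556 (.nr 121 1724 (.lg 2 true 13 89 97 9 42815 21840) (.nx 148
  165142 (.nr 134 13779 (.lg 2 false 13 89 97 9 5365 21840) (.nx 147 82572 (.lg 2 false 13 97 101 9
  10592 21840) .out)) .out)) .out))) (.nr 163 109 (.lg 0 true 13 83 83 9 0 4368) .out)) .out)))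
  (.nr 191 13 (.lg 0 true 26 73 73 9 0 4368) .out)) .out) .out) (.na 342 3 (.nx 341 3329023 (.nr
  340 623489 (.nx 196 112 (.nr 195 20 (.lg 0 true 1 37 37 5 0 1008) (.l1 .sk)) (.nx 197 113 (.l1
  .sk) (.nr 324 77937 (.nr 318 65537 (.nx 297 1321124 (.nx 212 9555 (.lg 0 false 15 97 97 9 0 5040)
  (.nr 242 257 (.lg 0 true 30 83 83 11 0 5040) (.nx 296 165142 (.nx 257 20644 (.lg 1 false 15 97
  101 9 43095 55440) (.nr 295 46342 (.nx 272 41287 (.lg 1 true 15 89 97 9 14114 5040) (.nr 294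
  32769 (.nr 283 2276 (.lg 2 true 11 83 83 9 35985 3696) (.lg 2 false 11 89 89 9 4996 3696)) .out))
  .out)) .out))) (.nr 317 9 (.lg 0 true 20 67 67 9 0 1680) .out)) (.nx 323 1292 (.lg 0 false 5 79
  79 9 0 1680) .out)) (.nx 339 205 (.lg 0 false 15 73 73 9 0 5040) .out)))) .out) .out) .ne)) (.na
  466 5 (.nx 465 10568985 (.nr 464 1246976 (.nx 346 113 (.nx 345 112 (.nr 344 36 (.lg 0 true 1 31
  31 9 0 336) (.l1 .sk)) (.l1 .sk)) (.nr 454 155873 (.nr 448 65537 (.nx 414 1321124 (.nx 359 14596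
  (.lg 0 false 13 97 101 13 0 240240) (.nx 400 330282 (.nr 372 694 (.lg 0 true 13 83 83 13 0 4368)
  (.nx 385 41287 (.lg 1 false 13 97 103 13 28211 720720) (.nr 399 55110 (.nr 390 2635 (.lg 2 true 5
  79 83 11 26651 1680) (.lg 2 false 9 97 101 13 8389 55440)) .out))) (.nr 413 183 (.lg 0 true 13 79
  83 13 0 4368) .out))) (.nr 447 21 (.lg 0 true 33 79 79 11 0 11088) .out)) (.nx 453 1292 (.lg 0
  false 5 83 89 11 0 1680) .out)) (.nx 463 205 (.lg 0 false 9 79 79 13 0 1008) .out))) .out) .out)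
  (.na 467 7 .ne (.nx 539 10568985 (.nr 538 262145 (.nx 471 408 (.nx 469 112 (.nr 468 60 (.lg 0
  true 1 23 23 9 0 336) (.l1 .sk)) (.nx 470 113 (.l1 .sk) (.l1 (.ls 79 47 21959)))) (.nr 537 65537
  (.nx 481 15169 (.lg 0 false 10 83 83 16 0 1680) (.nx 510 1321124 (.nr 496 596 (.lg 0 true 15 79
  79 16 0 5040) (.nx 509 262145 (.lg 2 false 13 89 97 16 27146 48048) .out)) (.nr 536 47 (.lg 0
  true 26 71 71 11 0 4368) .out))) .out)) .out) .out)))) (.na 670 12 (.na 612 9 (.nx 611 10568985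
  (.nr 610 623489 (.nx 543 113 (.nx 542 112 (.nr 541 67 (.lg 0 true 1 23 23 9 0 336) (.l1 .sk))
  (.l1 .sk)) (.nx 584 1321124 (.nx 554 13620 (.nr 548 77937 (.lg 0 false 5 89 89 13 0 1680) (.nx
  553 814 (.lg 0 false 5 83 83 13 0 1680) .out)) (.nr 583 65537 (.nr 569 364 (.lg 0 true 15 73 79
  13 0 5040) (.nx 582 208065 (.nx 574 41287 (.lg 1 false 5 89 89 13 30233 1680) (.nr 581 46342 (.nr
  576 2504 (.lg 2 false 2 79 79 11 32010 336) (.lg 2 false 5 83 83 13 7058 1680)) .out)) .out))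
  .out)) (.nr 609 55 (.lg 0 true 25 73 73 13 0 1680) .out))) .out) .out) (.na 613 11 .ne (.nx 669
  1321124 (.nr 668 623489 (.nr 614 4 .s1 (.nx 617 113 (.nx 616 112 (.nr 615 90 (.l1 (.ls 29 29
  1143)) (.l1 .sk)) (.l1 .sk)) (.nx 627 6503 (.nr 620 77937 (.lg 0 true 3 89 89 9 0 55440) (.nx 626
  814 (.lg 0 false 6 83 83 16 0 11088) .out)) (.nr 667 65537 (.nr 640 766 (.nx 633 330282 (.lg 0
  true 6 79 79 16 0 11088) (.nr 639 65 (.lg 0 true 6 71 71 16 0 11088) .out)) (.nx 666 165142 (.nr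
  658 32769 (.nr 645 13461 (.lg 2 false 5 73 73 16 13092 18480) (.lg 0 true 13 97 101 16 0 720720))
  (.nx 665 65537 (.nx 661 26009 (.lg 0 false 3 97 97 9 0 55440) (.nr 664 46342 (.lg 0 true 3 97 97
  9 0 55440) .out)) .out)) .out)) .out)))) .out) .out))) (.na 671 14 .ne (.na 711 16 (.nx 710
  1321124 (.nr 709 623489 (.nr 672 10 .s1 (.nx 676 324 (.nx 674 112 (.nr 673 120 (.l1 (.ls 17 37
  898)) (.l1 .sk)) (.nx 675 113 (.l1 .sk) (.l1 (.ls 73 47 6589)))) (.nr 708 220437 (.nx 684 14046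
  (.nx 677 814 (.l1 (.ls 73 61 39833)) (.nr 683 92683 (.lg 0 false 6 83 83 13 0 5040) .out)) (.nr
  707 65537 (.nr 697 374 (.lg 0 true 13 71 71 17 0 4368) (.nx 706 165142 (.lg 2 false 9 83 83 13
  29316 5040) .out)) .out)) .out))) .out) .out) (.nx 747 1321124 (.nr 746 1048577 (.nr 712 13 .s1
  (.nx 715 113 (.nx 714 112 (.nr 713 128 (.l1 (.ls 29 31 786)) (.l1 .sk)) (.l1 .sk)) (.nx 724 6503
  (.nx 718 324 (.nx 716 205 (.l1 (.ls 89 37 1831)) (.nr 717 623489 (.l1 (.ls 83 41 3937)) .out))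
  (.nr 723 220437 (.nr 721 131073 (.lg 0 false 3 89 89 13 0 5040) (.nx 722 814 (.lg 0 false 1 73 73
  11 0 336) .out)) .out)) (.nr 745 77937 (.nx 741 165142 (.nr 727 766 (.lg 0 true 3 73 73 13 0
  1008) (.nr 729 13461 (.lg 2 false 2 73 73 13 13092 336) (.nx 732 26009 (.lg 0 false 3 101 103 13
  0 720720) (.nr 740 46342 (.nr 734 27556 (.lg 2 true 2 71 71 13 6673 336) (.nx 739 104033 (.nx 737
  65537 (.lg 0 true 3 97 103 13 0 720720) (.nr 738 32769 (.lg 0 false 1 97 97 11 0 5040) .out))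
  .out)) .out)))) (.nr 744 183 (.lg 0 true 3 73 73 13 0 1008) .out)) .out)))) .out) .out)))))

def T139_1 : Ph :=
  (.na 573 151 (.na 370 76 (.na 225 38 (.na 140 23 (.na 70 17 (.na 27 12 (.nx 26 660563 (.nr 25
  623489 (.nr 1 10 .s1 (.nx 13 6503 (.nx 3 32 (.nr 2 49 (.l1 (.ls 17 17 96)) (.l1 .sk)) (.nx 4 33
  (.l1 .sk) (.nx 5 103 (.l1 (.ls 83 29 868)) (.nr 12 131073 (.lg 0 false 7 89 89 16 0 55440)
  .out)))) (.nr 24 46342 (.nr 20 154 (.lg 0 true 7 71 71 16 0 11088) (.nx 23 41287 (.lg 1 true 3 79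
  79 9 4290 1584) .out)) .out))) .out) .out) (.na 51 16 (.nx 50 660563 (.nr 49 623489 (.nr 28 11
  .s1 (.nx 32 103 (.nx 30 32 (.nr 29 65 (.l1 (.ls 19 23 88)) (.l1 .sk)) (.nx 31 33 (.l1 .sk) (.l1
  (.ls 79 37 796)))) (.nr 48 131073 (.nx 39 6503 (.nx 37 3512 (.lg 0 false 5 79 79 19 0 720) (.nr
  38 77937 (.lg 1 true 1 73 73 13 11369 144) .out)) (.nr 47 46342 (.nr 44 154 (.lg 0 true 5 67 67
  19 0 720) (.nx 46 41287 (.lg 1 true 2 79 79 13 4290 144) .out)) .out)) .out))) .out) .out) (.nx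
  69 660563 (.nr 68 623489 (.nr 52 15 .s1 (.nx 62 9411 (.nx 54 32 (.nr 53 69 (.l1 (.ls 23 13 66))
  (.l1 .sk)) (.nx 55 33 (.l1 .sk) (.nx 56 103 (.l1 (.ls 83 31 598)) (.nr 61 131073 (.nx 59 2582
  (.lg 0 false 3 79 79 13 0 144) (.nr 60 77937 (.lg 1 true 1 79 79 11 15464 144) .out)) .out))))
  (.nr 67 46342 (.nr 65 257 (.lg 0 true 3 73 73 13 0 144) (.nx 66 41287 (.lg 1 false 1 83 83 11
  2571 7920) .out)) .out))) .out) .out))) (.na 106 19 (.na 88 18 (.nx 87 660563 (.nr 86 623489 (.nr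
  71 17 .s1 (.nx 72 103 (.l1 (.ls 79 23 627)) (.nr 85 131073 (.nx 77 6503 (.lg 0 false 5 83 83 16 0
  720) (.nr 84 46342 (.nr 82 257 (.lg 0 true 5 71 71 16 0 720) (.nx 83 41287 (.lg 1 false 1 79 79
  11 3652 144) .out)) .out)) .out))) .out) .out) (.nx 105 660563 (.nr 104 623489 (.nr 89 18 .s1
  (.nx 96 6503 (.nx 90 103 (.l1 (.ls 73 37 592)) (.nr 95 131073 (.lg 0 false 5 79 79 19 0 720)
  .out)) (.nr 103 46342 (.nr 101 257 (.lg 0 true 5 61 61 19 0 720) (.nx 102 41287 (.lg 1 false 1 73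
  73 13 3652 144) .out)) .out))) .out) .out)) (.na 122 22 (.nx 121 660563 (.nr 120 623489 (.nr 107
  19 .s1 (.nx 108 103 (.l1 (.ls 79 23 561)) (.nr 119 131073 (.nx 111 6503 (.lg 0 false 3 83 83 16 0
  144) (.nr 118 46342 (.nr 116 257 (.lg 0 true 5 71 71 16 0 720) (.nx 117 41287 (.lg 1 false 1 83
  83 11 3652 720) .out)) .out)) .out))) .out) .out) (.nx 139 660563 (.nr 138 623489 (.nr 123 22 .s1
  (.nx 130 6503 (.nx 124 103 (.l1 (.ls 73 31 485)) (.nr 129 131073 (.lg 0 false 5 79 79 19 0 7920)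
  .out)) (.nr 137 46342 (.nr 135 257 (.lg 0 true 5 67 67 19 0 7920) (.nx 136 41287 (.lg 1 false 1
  79 79 9 3652 1584) .out)) .out))) .out) .out)))) (.na 172 32 (.na 141 24 .ne (.na 155 27 (.nx 154
  660563 (.nr 153 131073 (.nr 142 24 .s1 (.nx 147 6503 (.nx 144 32 (.nr 143 109 (.l1 (.ls 19 19
  45)) (.l1 .sk)) (.nx 145 33 (.l1 .sk) (.lg 0 false 2 83 83 19 0 720))) (.nr 152 32769 (.nr 150
  257 (.lg 0 true 3 67 67 23 0 144) (.nx 151 41287 (.lg 1 false 1 73 73 13 2583 720) .out)) .out)))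
  .out) .out) (.nx 171 660563 (.nr 170 131073 (.nr 156 27 .s1 (.nx 158 32 (.nr 157 129 (.l1 (.ls 16
  16 40)) (.l1 .sk)) (.nx 159 33 (.l1 .sk) (.nx 164 6503 (.lg 0 false 5 73 73 16 0 720) (.nr 169
  32769 (.nr 167 257 (.lg 0 true 3 61 61 16 0 144) (.nx 168 41287 (.lg 1 false 1 71 71 16 2583 144)
  .out)) .out))))) .out) .out))) (.na 200 34 (.na 188 33 (.nx 187 660563 (.nr 186 262145 (.nr 173
  32 .s1 (.nx 175 32 (.nr 174 133 (.l1 (.ls 17 13 34)) (.l1 .sk)) (.nx 176 33 (.l1 .sk) (.nx 180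
  6503 (.nx 178 2582 (.lg 0 false 2 73 73 13 0 144) (.nr 179 55110 (.lg 1 true 1 67 67 13 10937
  144) .out)) (.nr 185 32769 (.nr 183 257 (.lg 0 true 3 61 61 19 0 144) (.nx 184 41287 (.lg 1 true
  1 71 71 13 2583 144) .out)) .out))))) .out) .out) (.nx 199 82572 (.nr 198 262145 (.nr 189 33 .s1
  (.nx 192 33 (.nx 191 32 (.nr 190 137 (.l1 (.ls 19 17 34)) (.l1 .sk)) (.l1 .sk)) (.nx 194 2582
  (.lg 0 false 2 79 79 17 0 1584) (.nr 197 32769 (.nr 195 154 (.lg 0 false 1 59 59 16 0 1584) (.nx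
  196 41287 (.lg 1 false 1 79 79 16 6506 1584) .out)) .out)))) .out) .out)) (.na 213 36 (.nx 212
  82572 (.nr 211 262145 (.nr 201 34 .s1 (.nx 204 33 (.nx 203 32 (.nr 202 146 (.l1 (.ls 16 13 33))
  (.l1 .sk)) (.l1 .sk)) (.nx 207 2582 (.lg 0 false 3 73 73 13 0 144) (.nr 210 32769 (.nr 208 154
  (.lg 0 false 1 59 59 13 0 720) (.nx 209 41287 (.lg 1 false 1 79 79 13 6506 720) .out)) .out))))
  .out) .out) (.nx 224 82572 (.nr 223 262145 (.nr 214 36 .s1 (.nx 217 33 (.nx 216 32 (.nr 215 154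
  (.l1 (.ls 19 19 31)) (.l1 .sk)) (.l1 .sk)) (.nx 219 2582 (.lg 0 false 2 79 79 23 0 144) (.nr 222
  32769 (.nr 220 154 (.lg 0 true 1 53 53 19 0 144) (.nx 221 41287 (.lg 1 false 1 79 79 19 6506 720)
  .out)) .out)))) .out) .out))))) (.na 302 57 (.na 258 44 (.na 236 41 (.nx 235 82572 (.nr 234
  262145 (.nr 226 38 .s1 (.nx 230 2582 (.nx 228 32 (.nr 227 166 (.l1 (.ls 16 13 29)) (.l1 .sk))
  (.nx 229 33 (.l1 .sk) (.lg 0 true 1 79 79 13 0 144))) (.nr 233 32769 (.nr 231 154 (.lg 0 false 1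
  53 53 13 0 144) (.nx 232 41287 (.lg 1 false 1 73 73 13 6506 144) .out)) .out))) .out) .out) (.na
  247 43 (.nx 246 82572 (.nr 245 262145 (.nr 237 41 .s1 (.nx 240 33 (.nx 239 32 (.nr 238 174 (.l1
  (.ls 16 16 27)) (.l1 .sk)) (.l1 .sk)) (.nx 241 2582 (.lg 0 true 1 83 83 16 0 720) (.nr 244 32769
  (.nr 242 154 (.lg 0 false 1 59 59 16 0 720) (.nx 243 41287 (.lg 1 false 1 79 79 16 6506 720)
  .out)) .out)))) .out) .out) (.nx 257 82572 (.nr 256 262145 (.nr 248 43 .s1 (.nx 250 32 (.nr 249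
  178 (.l1 (.ls 16 16 26)) (.l1 .sk)) (.nx 251 33 (.l1 .sk) (.nx 252 2582 (.lg 0 true 1 79 79 16 0
  144) (.nr 255 32769 (.nr 253 154 (.lg 0 false 1 53 53 16 0 144) (.nx 254 41287 (.lg 1 false 1 73
  73 16 6506 144) .out)) .out))))) .out) .out))) (.na 280 51 (.na 269 48 (.nx 268 82572 (.nr 267
  262145 (.nr 259 44 .s1 (.nx 262 33 (.nx 261 32 (.nr 260 194 (.l1 (.ls 23 17 26)) (.l1 .sk)) (.l1
  .sk)) (.nx 263 2582 (.lg 0 true 1 83 83 19 0 7920) (.nr 266 32769 (.nr 264 154 (.lg 0 true 1 53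
  53 19 0 1584) (.nx 265 41287 (.lg 1 false 1 79 79 19 6506 7920) .out)) .out)))) .out) .out) (.nx
  279 82572 (.nr 278 262145 (.nr 270 48 .s1 (.nx 272 32 (.nr 271 206 (.l1 (.ls 23 19 24)) (.l1
  .sk)) (.nx 273 33 (.l1 .sk) (.nx 274 2582 (.lg 0 false 1 79 79 23 0 144) (.nr 277 32769 (.nr 275
  154 (.lg 0 true 1 53 53 23 0 144) (.nx 276 41287 (.lg 1 true 1 73 73 23 6506 144) .out))
  .out))))) .out) .out)) (.na 291 54 (.nx 290 82572 (.nr 289 262145 (.nr 281 51 .s1 (.nx 285 2582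
  (.nx 283 32 (.nr 282 218 (.l1 (.ls 16 16 23)) (.l1 .sk)) (.nx 284 33 (.l1 .sk) (.lg 0 true 1 83
  83 16 0 720))) (.nr 288 32769 (.nr 286 154 (.lg 0 true 1 53 53 16 0 144) (.nx 287 41287 (.lg 1
  false 1 73 73 16 6506 144) .out)) .out))) .out) .out) (.nx 301 82572 (.nr 300 262145 (.nr 292 54
  .s1 (.nx 294 32 (.nr 293 230 (.l1 (.ls 16 19 21)) (.l1 .sk)) (.nx 295 33 (.l1 .sk) (.nx 296 2582
  (.lg 0 true 1 73 73 19 0 720) (.nr 299 32769 (.nr 297 154 (.lg 0 false 1 43 43 19 0 144) (.nx 298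
  41287 (.lg 1 false 1 71 71 19 6506 720) .out)) .out))))) .out) .out)))) (.na 334 67 (.na 323 64
  (.na 313 59 (.nx 312 82572 (.nr 311 262145 (.nr 303 57 .s1 (.nx 305 32 (.nr 304 238 (.l1 (.ls 17
  16 20)) (.l1 .sk)) (.nx 306 33 (.l1 .sk) (.nx 307 2582 (.lg 0 true 1 79 79 16 0 144) (.nr 310
  32769 (.nr 308 154 (.lg 0 true 1 47 47 16 0 144) (.nx 309 41287 (.lg 1 false 1 73 73 16 6506 144)
  .out)) .out))))) .out) .out) (.nx 322 82572 (.nr 321 262145 (.nr 314 59 .s1 (.nx 317 33 (.nx 316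
  32 (.nr 315 258 (.l1 (.ls 16 16 20)) (.l1 .sk)) (.l1 .sk)) (.nr 319 32769 (.lg 0 false 2 83 83 16
  0 720) (.nx 320 2582 (.lg 0 true 1 79 79 16 0 720) .out)))) .out) .out)) (.na 324 66 .ne (.nx 333
  82572 (.nr 332 524289 (.nr 325 66 .s1 (.nx 328 6503 (.nx 326 647 (.l1 (.ls 73 53 6345)) (.nr 327
  262145 (.lg 0 true 1 83 83 29 0 7920) .out)) (.nr 331 65537 (.nr 329 257 (.lg 0 true 1 53 53 29 0
  1584) (.nx 330 41287 (.lg 1 true 1 71 71 29 5163 1584) .out)) .out))) .out) .out))) (.na 352 72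
  (.na 342 68 (.nx 341 82572 (.nr 340 524289 (.nr 335 67 .s1 (.nx 338 6503 (.nx 336 647 (.l1 (.ls
  71 37 6250)) (.nr 337 262145 (.lg 0 true 1 79 79 16 0 144) .out)) (.nr 339 65537 (.lg 1 false 1
  79 79 16 19719 144) .out))) .out) .out) (.nx 351 82572 (.nr 350 524289 (.nr 343 68 .s1 (.nx 346
  6503 (.nx 344 647 (.l1 (.ls 73 47 6159)) (.nr 345 262145 (.lg 0 true 1 83 83 13 0 144) .out))
  (.nr 349 65537 (.nr 347 257 (.lg 0 true 1 53 53 13 0 144) (.nx 348 41287 (.lg 1 true 1 71 71 13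
  5163 144) .out)) .out))) .out) .out)) (.na 362 73 (.nx 361 82572 (.nr 360 524289 (.nr 353 72 .s1
  (.nx 356 6503 (.nx 354 647 (.l1 (.ls 71 47 5817)) (.nr 355 262145 (.lg 0 true 1 79 79 23 0 144)
  .out)) (.nr 359 65537 (.nr 357 257 (.lg 0 true 1 47 47 23 0 144) (.nx 358 41287 (.lg 1 true 1 67
  67 23 5163 144) .out)) .out))) .out) .out) (.nx 369 82572 (.nr 368 524289 (.nr 363 73 .s1 (.nx
  366 6503 (.nx 364 647 (.l1 (.ls 61 37 5737)) (.nr 365 262145 (.lg 0 true 1 79 79 16 0 144) .out))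
  (.nr 367 65537 (.lg 1 false 1 79 79 16 18098 144) .out))) .out) .out)))))) (.na 486 114 (.na 428
  96 (.na 396 83 (.na 380 81 (.nx 379 82572 (.nr 378 524289 (.nr 371 76 .s1 (.nx 374 6503 (.nx 372
  647 (.l1 (.ls 73 47 5511)) (.nr 373 262145 (.lg 0 true 1 83 83 17 0 720) .out)) (.nr 377 65537
  (.nr 375 257 (.lg 0 true 1 53 53 17 0 144) (.nx 376 41287 (.lg 1 true 1 71 71 17 5163 144) .out))
  .out))) .out) .out) (.na 388 82 (.nx 387 82572 (.nr 386 524289 (.nr 381 81 .s1 (.nx 382 647 (.l1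
  (.ls 67 41 5171)) (.nr 385 262145 (.nx 383 6503 (.lg 0 true 1 73 73 16 0 720) (.nr 384 65537 (.lg
  1 false 1 73 73 16 16311 720) .out)) .out))) .out) .out) (.nx 395 82572 (.nr 394 524289 (.nr 389
  82 .s1 (.nx 390 647 (.l1 (.ls 71 47 5107)) (.nr 393 262145 (.nx 391 6503 (.lg 0 true 1 79 79 13 0
  1584) (.nr 392 65537 (.lg 1 false 1 73 73 13 16112 144) .out)) .out))) .out) .out))) (.na 412 88
  (.na 404 86 (.nx 403 82572 (.nr 402 524289 (.nr 397 83 .s1 (.nx 398 647 (.l1 (.ls 67 37 5046))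
  (.nr 401 262145 (.nx 399 6503 (.lg 0 true 1 73 73 16 0 1584) (.nr 400 65537 (.lg 1 false 1 73 73
  16 15918 1584) .out)) .out))) .out) .out) (.nx 411 82572 (.nr 410 524289 (.nr 405 86 .s1 (.nx 408
  6503 (.nx 406 647 (.l1 (.ls 71 41 4870)) (.nr 407 262145 (.lg 0 true 1 79 79 13 0 720) .out))
  (.nr 409 65537 (.lg 1 false 1 79 79 13 15363 720) .out))) .out) .out)) (.na 420 89 (.nx 419 82572
  (.nr 418 524289 (.nr 413 88 .s1 (.nx 416 6503 (.nx 414 647 (.l1 (.ls 71 47 4759)) (.nr 415 262145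
  (.lg 0 false 1 73 73 23 0 1584) .out)) (.nr 417 65537 (.lg 1 false 1 73 73 23 15014 1584) .out)))
  .out) .out) (.nx 427 82572 (.nr 426 524289 (.nr 421 89 .s1 (.nx 422 647 (.l1 (.ls 67 37 4706))
  (.nr 425 262145 (.nx 423 6503 (.lg 0 true 1 73 73 16 0 720) (.nr 424 65537 (.lg 1 false 1 71 71
  16 14845 144) .out)) .out))) .out) .out)))) (.na 454 102 (.na 438 97 (.nx 437 82572 (.nr 436
  524289 (.nr 429 96 .s1 (.nx 432 6503 (.nx 430 647 (.l1 (.ls 73 47 4363)) (.nr 431 262145 (.lg 0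
  false 1 79 83 29 0 720) .out)) (.nr 435 65537 (.nr 433 257 (.lg 0 true 1 47 53 29 0 720) (.nx 434
  41287 (.lg 1 true 1 71 71 29 5163 720) .out)) .out))) .out) .out) (.na 446 99 (.nx 445 82572 (.nr
  444 524289 (.nr 439 97 .s1 (.nx 442 6503 (.nx 440 647 (.l1 (.ls 67 31 4318)) (.nr 441 262145 (.lg
  0 true 1 73 73 16 0 144) .out)) (.nr 443 65537 (.lg 1 false 1 71 71 16 13621 144) .out))) .out)
  .out) (.nx 453 82572 (.nr 452 524289 (.nr 447 99 .s1 (.nx 448 647 (.l1 (.ls 73 43 4231)) (.nr 451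
  262145 (.nx 449 6503 (.lg 0 false 1 79 79 19 0 1584) (.nr 450 65537 (.lg 1 false 1 79 79 19 13345
  7920) .out)) .out))) .out) .out))) (.na 470 108 (.na 462 107 (.nx 461 82572 (.nr 460 524289 (.nr
  455 102 .s1 (.nx 458 6503 (.nx 456 647 (.l1 (.ls 71 53 4107)) (.nr 457 262145 (.lg 0 false 1 73
  73 29 0 144) .out)) (.nr 459 65537 (.lg 1 false 1 73 73 29 12953 144) .out))) .out) .out) (.nx
  469 82572 (.nr 468 524289 (.nr 463 107 .s1 (.nx 464 647 (.l1 (.ls 61 31 3915)) (.nr 467 262145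
  (.nx 465 6503 (.lg 0 true 1 71 71 16 0 144) (.nr 466 65537 (.lg 1 false 1 67 67 16 12348 144)
  .out)) .out))) .out) .out)) (.na 478 113 (.nx 477 82572 (.nr 476 524289 (.nr 471 108 .s1 (.nx 474
  6503 (.nx 472 647 (.l1 (.ls 67 47 3879)) (.nr 473 262145 (.lg 0 false 1 71 71 23 0 144) .out))
  (.nr 475 65537 (.lg 1 true 1 71 71 23 12233 144) .out))) .out) .out) (.nx 485 82572 (.nr 484
  524289 (.nr 479 113 .s1 (.nx 482 6503 (.nx 480 647 (.l1 (.ls 61 31 3707)) (.nr 481 262145 (.lg 0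
  true 1 71 71 16 0 144) .out)) (.nr 483 65537 (.lg 1 false 1 67 67 16 11692 144) .out))) .out)
  .out))))) (.na 530 132 (.na 509 123 (.na 494 118 (.nx 493 82572 (.nr 492 524289 (.nr 487 114 .s1
  (.nx 490 6503 (.nx 488 647 (.l1 (.ls 73 47 3675)) (.nr 489 262145 (.lg 0 false 1 79 79 31 0 144)
  .out)) (.nr 491 65537 (.lg 1 true 1 73 73 31 11590 144) .out))) .out) .out) (.na 502 121 (.nx 501
  82572 (.nr 500 524289 (.nr 495 118 .s1 (.nx 498 6503 (.nx 496 647 (.l1 (.ls 67 41 3550)) (.nr 497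
  262145 (.lg 0 true 1 71 71 19 0 144) .out)) (.nr 499 65537 (.lg 1 false 1 71 71 19 11197 144)
  .out))) .out) .out) (.nx 508 82572 (.nr 507 524289 (.nr 503 121 .s1 (.nx 504 2051 (.l1 (.ls 67 47
  34768)) (.nr 506 262145 (.lg 1 true 2 79 79 17 65465 7920) .out))) .out) .out))) (.na 518 129
  (.na 517 128 (.nx 516 82572 (.nr 515 524289 (.nr 510 123 .s1 (.nx 511 647 (.l1 (.ls 71 37 3406))
  (.nr 514 262145 (.nx 512 6503 (.lg 0 false 1 73 73 17 0 144) (.nr 513 65537 (.lg 1 true 1 71 71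
  17 10742 144) .out)) .out))) .out) .out) .ne) (.na 524 131 (.nx 523 41287 (.nr 522 1048577 (.nr
  519 129 .s1 (.nx 520 647 (.l1 (.ls 73 37 3248)) (.nr 521 131073 (.lg 0 true 1 83 83 19 0 720)
  .out))) .out) .out) (.nx 529 41287 (.nr 528 1048577 (.nr 525 131 .s1 (.nx 526 647 (.l1 (.ls 67 31
  3198)) (.nr 527 131073 (.lg 0 true 1 79 79 16 0 720) .out))) .out) .out)))) (.na 554 139 (.na 542
  136 (.na 536 134 (.nx 535 41287 (.nr 534 1048577 (.nr 531 132 .s1 (.nx 532 647 (.l1 (.ls 79 47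
  3174)) (.nr 533 131073 (.lg 0 false 1 89 89 31 0 11088) .out))) .out) .out) (.nx 541 41287 (.nr
  540 1048577 (.nr 537 134 .s1 (.nx 538 647 (.l1 (.ls 61 41 3126)) (.nr 539 131073 (.lg 0 true 1 83
  83 19 0 720) .out))) .out) .out)) (.na 548 137 (.nx 547 41287 (.nr 546 1048577 (.nr 543 136 .s1
  (.nx 544 647 (.l1 (.ls 73 43 3081)) (.nr 545 131073 (.lg 0 true 1 83 83 29 0 720) .out))) .out)
  .out) (.nx 553 41287 (.nr 552 1048577 (.nr 549 137 .s1 (.nx 550 647 (.l1 (.ls 67 31 3058)) (.nr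
  551 131073 (.lg 0 true 1 73 73 16 0 144) .out))) .out) .out))) (.na 566 146 (.na 560 144 (.nx 559
  41287 (.nr 558 1048577 (.nr 555 139 .s1 (.nx 556 647 (.l1 (.ls 67 31 3014)) (.nr 557 131073 (.lg
  0 true 1 79 79 16 0 720) .out))) .out) .out) (.nx 565 41287 (.nr 564 1048577 (.nr 561 144 .s1
  (.nx 562 647 (.l1 (.ls 73 43 2910)) (.nr 563 131073 (.lg 0 false 1 83 83 31 0 720) .out))) .out)
  .out)) (.na 572 149 (.nx 571 41287 (.nr 570 1048577 (.nr 567 146 .s1 (.nx 568 647 (.l1 (.ls 67 41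
  2870)) (.nr 569 131073 (.lg 0 true 1 83 83 19 0 720) .out))) .out) .out) (.lg 0 false 1 0 0 16 0
  24))))))) (.na 707 216 (.na 637 178 (.na 605 166 (.na 586 157 (.na 574 152 (.lg 0 false 1 0 0 16
  0 24) (.na 580 153 (.nx 579 41287 (.nr 578 1048577 (.nr 575 152 .s1 (.nx 576 647 (.l1 (.ls 73 43
  2757)) (.nr 577 131073 (.lg 0 false 1 79 79 29 0 144) .out))) .out) .out) (.nx 585 41287 (.nr 584
  1048577 (.nr 581 153 .s1 (.nx 582 647 (.l1 (.ls 73 41 2739)) (.nr 583 131073 (.lg 0 false 1 79 79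
  23 0 144) .out))) .out) .out))) (.na 593 163 (.na 587 162 (.lg 0 false 1 0 0 16 0 24) (.nx 592
  41287 (.nr 591 1048577 (.nr 588 162 .s1 (.nx 589 647 (.l1 (.ls 67 43 2587)) (.nr 590 131073 (.lg
  0 true 1 73 73 23 0 144) .out))) .out) .out)) (.na 599 164 (.nx 598 41287 (.nr 597 1048577 (.nr
  594 163 .s1 (.nx 595 647 (.l1 (.ls 67 31 2571)) (.nr 596 131073 (.lg 0 true 1 73 73 16 0 144)
  .out))) .out) .out) (.nx 604 41287 (.nr 603 1048577 (.nr 600 164 .s1 (.nx 601 647 (.l1 (.ls 73 37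
  2555)) (.nr 602 131073 (.lg 0 true 1 83 83 23 0 720) .out))) .out) .out)))) (.na 618 172 (.na 611
  167 (.nx 610 41287 (.nr 609 1048577 (.nr 606 166 .s1 (.nx 607 647 (.l1 (.ls 67 41 2524)) (.nr 608
  131073 (.lg 0 true 1 73 73 19 0 720) .out))) .out) .out) (.na 612 171 (.lg 0 false 1 0 0 16 0 24)
  (.nx 617 41287 (.nr 616 1048577 (.nr 613 171 .s1 (.nx 614 647 (.l1 (.ls 73 41 2451)) (.nr 615
  131073 (.lg 0 true 1 83 83 17 0 7920) .out))) .out) .out))) (.na 625 176 (.na 624 173 (.nx 623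
  41287 (.nr 622 1048577 (.nr 619 172 .s1 (.nx 620 647 (.l1 (.ls 71 41 2436)) (.nr 621 131073 (.lg
  0 false 1 79 79 23 0 144) .out))) .out) .out) (.lg 0 false 1 0 0 16 0 24)) (.na 631 177 (.nx 630
  41287 (.nr 629 1048577 (.nr 626 176 .s1 (.nx 627 647 (.l1 (.ls 79 43 2381)) (.nr 628 131073 (.lg
  0 false 1 89 89 31 0 7920) .out))) .out) .out) (.nx 636 41287 (.nr 635 1048577 (.nr 632 177 .s1
  (.nx 633 647 (.l1 (.ls 71 37 2368)) (.nr 634 131073 (.lg 0 false 1 79 79 19 0 144) .out))) .out)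
  .out))))) (.na 669 197 (.na 650 187 (.na 643 179 (.nx 642 41287 (.nr 641 1048577 (.nr 638 178 .s1
  (.nx 639 647 (.l1 (.ls 61 41 2354)) (.nr 640 131073 (.lg 0 true 1 71 71 19 0 144) .out))) .out)
  .out) (.na 649 181 (.nx 648 41287 (.nr 647 1048577 (.nr 644 179 .s1 (.nx 645 647 (.l1 (.ls 67 31
  2341)) (.nr 646 131073 (.lg 0 true 1 73 73 16 0 720) .out))) .out) .out) (.lg 0 false 1 0 0 16 0
  24))) (.na 657 193 (.na 656 191 (.nx 655 41287 (.nr 654 1048577 (.nr 651 187 .s1 (.nx 652 647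
  (.l1 (.ls 73 37 2241)) (.nr 653 131073 (.lg 0 false 1 79 79 23 0 1584) .out))) .out) .out) (.lg 0
  false 1 0 0 16 0 24)) (.na 663 194 (.nx 662 41287 (.nr 661 1048577 (.nr 658 193 .s1 (.nx 659 647
  (.l1 (.ls 61 29 2171)) (.nr 660 131073 (.lg 0 true 1 71 71 16 0 144) .out))) .out) .out) (.nx 668
  41287 (.nr 667 1048577 (.nr 664 194 .s1 (.nx 665 647 (.l1 (.ls 61 41 2160)) (.nr 666 131073 (.lg
  0 true 1 71 71 19 0 144) .out))) .out) .out)))) (.na 683 204 (.na 676 199 (.na 670 198 (.lg 0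
  false 1 0 0 16 0 24) (.nx 675 41287 (.nr 674 1048577 (.nr 671 198 .s1 (.nx 672 647 (.l1 (.ls 71
  47 2117)) (.nr 673 131073 (.lg 0 false 1 73 73 31 0 1584) .out))) .out) .out)) (.na 677 201 (.lg
  0 false 1 0 0 16 0 24) (.nx 682 41287 (.nr 681 1048577 (.nr 678 201 .s1 (.nx 679 647 (.l1 (.ls 61
  37 2085)) (.nr 680 131073 (.lg 0 false 1 79 79 19 0 144) .out))) .out) .out))) (.na 695 211 (.na
  689 209 (.nx 688 41287 (.nr 687 1048577 (.nr 684 204 .s1 (.nx 685 647 (.l1 (.ls 79 47 2055)) (.nr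
  686 131073 (.lg 0 false 1 89 89 37 0 7920) .out))) .out) .out) (.nx 694 41287 (.nr 693 1048577
  (.nr 690 209 .s1 (.nx 691 647 (.l1 (.ls 73 37 2005)) (.nr 692 131073 (.lg 0 true 1 83 83 17 0
  7920) .out))) .out) .out)) (.na 701 214 (.nx 700 41287 (.nr 699 1048577 (.nr 696 211 .s1 (.nx 697
  647 (.l1 (.ls 67 29 1986)) (.nr 698 131073 (.lg 0 true 1 73 73 16 0 720) .out))) .out) .out) (.nx
  706 41287 (.nr 705 1048577 (.nr 702 214 .s1 (.nx 703 647 (.l1 (.ls 67 37 1959)) (.nr 704 131073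
  (.lg 0 true 1 71 71 23 0 144) .out))) .out) .out)))))) (.na 776 249 (.na 739 233 (.na 720 226
  (.na 713 219 (.nx 712 41287 (.nr 711 1048577 (.nr 708 216 .s1 (.nx 709 647 (.l1 (.ls 71 43 1941))
  (.nr 710 131073 (.lg 0 false 1 73 73 29 0 144) .out))) .out) .out) (.na 719 223 (.nx 718 41287
  (.nr 717 1048577 (.nr 714 219 .s1 (.nx 715 647 (.l1 (.ls 71 37 1914)) (.nr 716 131073 (.lg 0
  false 1 79 79 19 0 720) .out))) .out) .out) (.lg 0 false 1 0 0 16 0 24))) (.na 732 228 (.na 726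
  227 (.nx 725 41287 (.nr 724 1048577 (.nr 721 226 .s1 (.nx 722 647 (.l1 (.ls 67 37 1855)) (.nr 723
  131073 (.lg 0 true 1 71 71 23 0 144) .out))) .out) .out) (.nx 731 41287 (.nr 730 1048577 (.nr 727
  227 .s1 (.nx 728 647 (.l1 (.ls 61 29 1847)) (.nr 729 131073 (.lg 0 true 1 67 67 17 0 144) .out)))
  .out) .out)) (.na 738 229 (.nx 737 41287 (.nr 736 1048577 (.nr 733 228 .s1 (.nx 734 647 (.l1 (.ls
  73 43 1839)) (.nr 735 131073 (.lg 0 false 1 79 79 37 0 144) .out))) .out) .out) (.lg 0 false 1 0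
  0 16 0 24)))) (.na 752 241 (.na 745 236 (.nx 744 41287 (.nr 743 1048577 (.nr 740 233 .s1 (.nx 741
  647 (.l1 (.ls 61 29 1799)) (.nr 742 131073 (.lg 0 true 1 67 67 17 0 144) .out))) .out) .out) (.na
  751 239 (.nx 750 41287 (.nr 749 1048577 (.nr 746 236 .s1 (.nx 747 647 (.l1 (.ls 73 37 1776)) (.nr
  748 131073 (.lg 0 false 1 79 79 23 0 144) .out))) .out) .out) (.lg 0 false 1 0 0 16 0 24))) (.na
  764 243 (.na 758 242 (.nx 757 41287 (.nr 756 1048577 (.nr 753 241 .s1 (.nx 754 647 (.l1 (.ls 61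
  29 1739)) (.nr 755 131073 (.lg 0 true 1 71 71 17 0 720) .out))) .out) .out) (.nx 763 41287 (.nr
  762 1048577 (.nr 759 242 .s1 (.nx 760 647 (.l1 (.ls 61 41 1732)) (.nr 761 131073 (.lg 0 true 1 71
  71 29 0 1584) .out))) .out) .out)) (.na 770 246 (.nx 769 41287 (.nr 768 1048577 (.nr 765 243 .s1
  (.nx 766 647 (.l1 (.ls 59 31 1725)) (.nr 767 131073 (.lg 0 true 1 67 67 19 0 144) .out))) .out)
  .out) (.nx 775 41287 (.nr 774 1048577 (.nr 771 246 .s1 (.nx 772 647 (.l1 (.ls 71 43 1704)) (.nr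
  773 131073 (.lg 0 false 1 79 79 31 0 720) .out))) .out) .out))))) (.na 1849 1449 (.na 789 257
  (.na 782 251 (.nx 781 41287 (.nr 780 1048577 (.nr 777 249 .s1 (.nx 778 647 (.l1 (.ls 67 31 1684))
  (.nr 779 131073 (.lg 0 false 1 73 73 23 0 720) .out))) .out) .out) (.na 788 256 (.nx 787 41287
  (.nr 786 1048577 (.nr 783 251 .s1 (.nx 784 647 (.l1 (.ls 67 29 1670)) (.nr 785 131073 (.lg 0 true
  1 71 71 17 0 720) .out))) .out) .out) .ne)) (.na 1329 725 (.na 1080 512 (.nx 1079 41287 (.nr 1078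
  262145 (.nr 790 257 .s1 (.nx 823 33 (.nx 822 32 (.nr 821 2065 (.lx (.lp 16 0 129)) (.l1 .sk))
  (.l1 .sk)) (.la (.lg 0 false 1 71 71 23 0)))) .out) .out) (.nx 1328 41287 (.nr 1327 262145 (.nr
  1081 512 .s1 (.nx 1113 32 (.nr 1112 2923 (.lx (.lp 16 0 182)) (.l1 .sk)) (.nx 1114 33 (.l1 .sk)
  (.la (.lg 0 false 1 67 67 29 0))))) .out) .out)) (.na 1589 1024 (.nx 1588 257 (.nr 1587 65537
  (.nr 1330 725 .s1 (.nx 1458 129 (.lx (.lp 43 23 257)) (.nr 1586 8193 (.lx (.lp 29 23 257))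
  .out))) .out) .out) (.nx 1848 257 (.nr 1847 65537 (.nr 1590 1024 .s1 (.nx 1718 129 (.lx (.lp 41
  23 363)) (.nr 1846 8193 (.lx (.lp 29 29 363)) .out))) .out) .out)))) (.na 2885 5793 (.na 2367
  2897 (.na 2108 2048 (.nx 2107 257 (.nr 2106 16385 (.nr 1850 1449 .s1 (.lx (.lp 29 29 513))) .out)
  .out) (.nx 2366 257 (.nr 2365 32769 (.nr 2109 2048 .s1 (.lx (.lp 31 31 725))) .out) .out)) (.na
  2626 4096 (.nx 2625 257 (.nr 2624 32769 (.nr 2368 2897 .s1 (.lx (.lp 31 31 1025))) .out) .out)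
  (.nx 2884 257 (.nr 2883 32769 (.nr 2627 4096 .s1 (.lx (.lp 29 37 1449))) .out) .out))) (.na 3095
  16384 (.na 2990 8192 (.nx 2989 103 (.nr 2988 32769 (.nr 2886 5793 .s1 (.lx (.lp 16 0 2049)))
  .out) .out) (.nx 3094 103 (.nr 3093 32769 (.nr 2991 8192 .s1 (.lx (.lp 31 37 4097))) .out) .out))
  (.na 3097 32769 (.nx 3096 103 (.l1 .sk) .out) .out)))))))

def T139_2 : Ph :=
  (.na 550 157 (.na 348 81 (.na 200 43 (.na 99 24 (.na 36 17 (.na 35 16 (.nx 34 1321124 (.nr 33
  623489 (.nr 1 9 .s1 (.nx 4 73 (.nx 3 72 (.nr 2 96 (.lg 0 true 1 17 17 13 0 144) (.l1 .sk)) (.l1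
  .sk)) (.nr 27 92683 (.nx 21 330282 (.nx 9 9557 (.lg 0 false 5 83 83 17 0 720) (.nr 20 65537 (.nr
  14 374 (.lg 0 true 5 71 71 17 0 720) (.nx 19 165142 (.lg 2 false 5 89 89 17 17796 5040) .out))
  .out)) (.nr 26 65 (.lg 0 true 5 61 61 17 0 720) .out)) (.nx 32 814 (.lg 0 false 5 79 79 17 0 720)
  .out)))) .out) .out) .ne) (.na 65 19 (.nx 64 1321124 (.nr 63 1048577 (.nr 37 15 .s1 (.nx 43 324
  (.nx 41 205 (.nx 39 72 (.nr 38 115 (.lg 0 false 1 17 17 11 0 144) (.l1 .sk)) (.nx 40 73 (.l1 .sk)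
  (.l1 (.ls 79 31 2161)))) (.nr 42 623489 (.l1 (.ls 73 37 3706)) .out)) (.nr 62 220437 (.nx 48
  10323 (.lg 0 false 5 89 89 16 0 720) (.nr 61 55110 (.nr 55 498 (.lg 0 true 7 73 73 16 0 504) (.nx
  60 165142 (.lg 2 false 5 83 83 16 13857 360) .out)) .out)) .out))) .out) .out) (.na 98 23 (.nx 97
  1321124 (.nr 96 1048577 (.nr 66 18 .s1 (.nx 68 72 (.nr 67 139 (.l1 (.ls 17 17 275)) (.l1 .sk))
  (.nx 69 73 (.l1 .sk) (.nx 72 324 (.nx 70 205 (.l1 (.ls 83 31 1934)) (.nr 71 623489 (.l1 (.ls 79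
  37 3316)) .out)) (.nr 95 220437 (.nx 77 5162 (.lg 0 false 5 83 83 16 0 360) (.nr 94 92683 (.nr 90
  32769 (.nr 84 498 (.lg 0 true 7 73 73 16 0 504) (.nx 89 165142 (.lg 2 true 5 71 71 16 16493 360)
  .out)) (.nx 93 26009 (.lg 0 false 3 97 97 16 0 720) .out)) .out)) .out))))) .out) .out) .ne)))
  (.na 149 33 (.na 125 27 (.nx 124 1321124 (.nr 123 1048577 (.nr 100 23 .s1 (.nx 102 72 (.nr 101
  163 (.l1 (.ls 19 29 218)) (.l1 .sk)) (.nx 103 73 (.l1 .sk) (.nx 104 205 (.l1 (.ls 79 41 1532))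
  (.nr 122 185365 (.nx 111 16385 (.lg 0 false 7 89 89 23 0 55440) (.nr 121 38969 (.nr 118 513 (.lg
  0 true 7 73 73 23 0 1008) (.nx 120 82572 (.lg 1 true 2 79 79 13 6177 144) .out)) .out)) .out)))))
  .out) .out) (.na 148 32 (.nx 147 1321124 (.nr 146 1048577 (.nr 126 26 .s1 (.nx 128 72 (.nr 127
  193 (.l1 (.ls 19 19 194)) (.l1 .sk)) (.nx 129 73 (.l1 .sk) (.nx 142 165142 (.nx 138 16385 (.nx
  130 205 (.l1 (.ls 79 31 1362)) (.nr 137 185365 (.nx 135 6503 (.lg 0 false 5 73 79 17 0 720) (.nr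
  136 92683 (.lg 1 true 1 79 79 16 36974 144) .out)) .out)) (.nr 141 38969 (.nr 139 513 (.lg 0
  false 1 67 67 16 0 72) (.nx 140 82572 (.lg 1 false 1 79 79 16 6177 144) .out)) .out)) (.nr 145
  183 (.lg 0 true 3 67 67 17 0 72) .out))))) .out) .out) .ne)) (.na 168 36 (.nx 167 1321124 (.nr
  166 370729 (.nr 150 32 .s1 (.nx 153 73 (.nx 152 72 (.nr 151 217 (.l1 (.ls 17 23 160)) (.l1 .sk))
  (.l1 .sk)) (.nx 158 13005 (.lg 0 false 5 83 83 19 0 3960) (.nr 165 23172 (.nr 163 612 (.lg 0 true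
  5 71 71 19 0 3960) (.nx 164 82572 (.lg 2 true 1 71 71 16 4858 792) .out)) .out)))) .out) .out)
  (.na 184 41 (.nx 183 1321124 (.nr 182 370729 (.nr 169 35 .s1 (.nx 172 73 (.nx 171 72 (.nr 170 247
  (.l1 (.ls 29 29 146)) (.l1 .sk)) (.l1 .sk)) (.nx 179 82572 (.nx 174 6503 (.lg 0 false 2 89 89 23
  0 720) (.nr 178 77937 (.nx 175 13005 (.lg 1 false 1 79 79 19 31096 720) (.nr 177 23172 (.nr 176
  1844 (.lg 0 true 1 73 73 19 0 720) (.lg 2 false 1 73 73 19 4633 144)) .out)) .out)) (.nr 181 217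
  (.lg 0 true 2 71 71 23 0 144) .out)))) .out) .out) (.nx 199 1321124 (.nr 198 370729 (.nr 185 41
  .s1 (.nx 187 72 (.nr 186 259 (.l1 (.ls 17 16 129)) (.l1 .sk)) (.nx 188 73 (.l1 .sk) (.nx 191 8193
  (.lg 0 false 3 83 83 16 0 72) (.nr 197 55110 (.nr 194 217 (.lg 0 true 3 61 61 16 0 72) (.nx 196
  82572 (.lg 1 false 2 83 83 16 17459 720) .out)) .out))))) .out) .out))))) (.na 276 64 (.na 231 51
  (.na 217 44 (.nx 216 1321124 (.nr 215 370729 (.nr 201 43 .s1 (.nx 209 13005 (.nx 203 72 (.nr 202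
  265 (.l1 (.ls 16 16 123)) (.l1 .sk)) (.nx 204 73 (.l1 .sk) (.lg 0 false 5 83 83 16 0 720))) (.nr
  214 23172 (.nr 212 265 (.lg 0 true 3 61 61 16 0 72) (.nx 213 82572 (.lg 2 true 1 73 73 16 11218
  144) .out)) .out))) .out) .out) (.na 230 46 (.nx 229 1321124 (.nr 228 370729 (.nr 218 44 .s1 (.nx
  221 73 (.nx 220 72 (.nr 219 277 (.l1 (.ls 29 23 120)) (.l1 .sk)) (.l1 .sk)) (.nx 223 8193 (.lg 0
  false 2 89 89 23 0 7920) (.nr 227 55110 (.nr 225 217 (.lg 0 true 2 71 71 23 0 1584) (.nx 226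
  82572 (.lg 1 false 1 89 89 19 17459 7920) .out)) .out)))) .out) .out) .ne)) (.na 245 57 (.nx 244
  1321124 (.nr 243 311745 (.nr 232 51 .s1 (.nx 235 73 (.nx 234 72 (.nr 233 344 (.l1 (.ls 16 16
  104)) (.l1 .sk)) (.l1 .sk)) (.nx 237 10323 (.lg 0 true 2 83 83 16 0 720) (.nr 242 23172 (.nr 240
  344 (.lg 0 true 3 67 67 16 0 72) (.nx 241 82572 (.lg 2 true 1 71 71 16 8642 72) .out)) .out))))
  .out) .out) (.na 262 59 (.nx 261 1321124 (.nr 260 311745 (.nr 246 57 .s1 (.nx 249 73 (.nx 248 72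
  (.nr 247 356 (.l1 (.ls 16 17 93)) (.l1 .sk)) (.l1 .sk)) (.nx 254 10323 (.lg 0 false 5 73 73 17 0
  360) (.nr 259 23172 (.nr 257 356 (.lg 0 true 3 61 61 17 0 72) (.nx 258 82572 (.lg 2 true 1 67 67
  16 8350 72) .out)) .out)))) .out) .out) (.nx 275 1321124 (.nr 274 311745 (.nr 263 59 .s1 (.nx 268
  10323 (.nx 265 72 (.nr 264 386 (.l1 (.ls 16 16 90)) (.l1 .sk)) (.nx 266 73 (.l1 .sk) (.lg 0 true
  2 83 83 16 0 720))) (.nr 273 23172 (.nr 271 386 (.lg 0 true 3 61 61 16 0 72) (.nx 272 82572 (.lg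
  2 true 1 71 71 16 7702 720) .out)) .out))) .out) .out)))) (.na 307 72 (.na 277 67 .ne (.na 294 68
  (.nx 293 1321124 (.nr 292 524289 (.nr 278 67 .s1 (.nx 286 8193 (.nx 280 72 (.nr 279 410 (.l1 (.ls
  16 16 80)) (.l1 .sk)) (.nx 281 73 (.l1 .sk) (.lg 0 false 5 79 79 16 0 720))) (.nr 291 8193 (.nr
  289 513 (.lg 0 true 3 59 59 16 0 72) (.nx 290 82572 (.lg 2 true 1 53 53 16 5795 144) .out))
  .out))) .out) .out) (.nx 306 1321124 (.nr 305 524289 (.nr 295 68 .s1 (.nx 297 72 (.nr 296 434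
  (.l1 (.ls 16 23 79)) (.l1 .sk)) (.nx 298 73 (.l1 .sk) (.nx 300 8193 (.lg 0 false 2 83 83 23 0
  144) (.nr 304 8193 (.nr 302 513 (.lg 0 true 2 71 71 23 0 144) (.nx 303 82572 (.lg 2 false 1 61 61
  13 5795 144) .out)) .out))))) .out) .out))) (.na 318 73 (.nx 317 1321124 (.nr 316 524289 (.nr 308
  72 .s1 (.nx 311 73 (.nx 310 72 (.nr 309 440 (.l1 (.ls 23 23 74)) (.l1 .sk)) (.l1 .sk)) (.nx 314
  82572 (.nr 312 8193 (.lg 0 true 1 73 73 23 0 144) (.nx 313 8193 (.lg 0 false 1 89 89 23 0 144)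
  .out)) (.nr 315 513 (.lg 0 true 1 71 71 23 0 144) .out)))) .out) .out) (.na 335 76 (.nx 334
  1321124 (.nr 333 524289 (.nr 319 73 .s1 (.nx 322 73 (.nx 321 72 (.nr 320 458 (.l1 (.ls 16 16 74))
  (.l1 .sk)) (.l1 .sk)) (.nx 327 8193 (.lg 0 false 5 71 71 16 0 360) (.nr 332 8193 (.nr 330 513
  (.lg 0 true 3 59 59 16 0 72) (.nx 331 82572 (.lg 2 true 1 47 47 16 5795 72) .out)) .out)))) .out)
  .out) (.nx 347 1321124 (.nr 346 524289 (.nr 336 76 .s1 (.nx 341 8193 (.nx 338 72 (.nr 337 488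
  (.l1 (.ls 17 17 71)) (.l1 .sk)) (.nx 339 73 (.l1 .sk) (.lg 0 false 2 83 83 23 0 144))) (.nr 345
  8193 (.nr 343 513 (.lg 0 true 2 71 71 23 0 144) (.nx 344 82572 (.lg 2 false 1 61 61 17 5795 144)
  .out)) .out))) .out) .out)))))) (.na 464 123 (.na 397 97 (.na 372 88 (.na 359 83 (.nx 358 1321124
  (.nr 357 524289 (.nr 349 81 .s1 (.nx 355 82572 (.nx 351 72 (.nr 350 500 (.l1 (.ls 23 17 66)) (.l1
  .sk)) (.nx 352 73 (.l1 .sk) (.nx 353 8193 (.lg 0 false 1 89 89 19 0 720) (.nr 354 8193 (.lg 0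
  true 1 79 79 17 0 720) .out)))) (.nr 356 513 (.lg 0 true 1 71 71 17 0 72) .out))) .out) .out)
  (.nx 371 1321124 (.nr 370 524289 (.nr 360 83 .s1 (.nx 365 8193 (.nx 362 72 (.nr 361 530 (.l1 (.ls
  16 16 65)) (.l1 .sk)) (.nx 363 73 (.l1 .sk) (.lg 0 false 2 71 71 16 0 144))) (.nr 369 8193 (.nr
  367 513 (.lg 0 true 2 59 59 16 0 144) (.nx 368 82572 (.lg 2 true 1 47 47 16 5795 144) .out))
  .out))) .out) .out)) (.na 385 89 (.nx 384 1321124 (.nr 383 524289 (.nr 373 88 .s1 (.nx 375 72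
  (.nr 374 536 (.l1 (.ls 19 23 61)) (.l1 .sk)) (.nx 376 73 (.l1 .sk) (.nx 378 8193 (.lg 0 false 2
  79 79 29 0 1584) (.nr 382 8193 (.nr 380 513 (.lg 0 true 2 67 67 29 0 1584) (.nx 381 82572 (.lg 2
  true 1 59 59 23 5795 1584) .out)) .out))))) .out) .out) (.na 396 91 (.nx 395 1321124 (.nr 394
  524289 (.nr 386 89 .s1 (.nx 389 73 (.nx 388 72 (.nr 387 548 (.l1 (.ls 17 16 61)) (.l1 .sk)) (.l1
  .sk)) (.nx 390 8193 (.lg 0 true 1 79 79 16 0 72) (.nr 393 8193 (.nr 391 513 (.lg 2 false 1 61 61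
  16 534388 72) (.nx 392 82572 (.lg 2 false 1 47 47 16 5795 72) .out)) .out)))) .out) .out) .ne)))
  (.na 431 108 (.na 409 99 (.nx 408 1321124 (.nr 407 524289 (.nr 398 97 .s1 (.nx 400 72 (.nr 399
  597 (.l1 (.ls 16 16 56)) (.l1 .sk)) (.nx 401 73 (.l1 .sk) (.nx 402 8193 (.lg 0 true 1 73 73 16 0
  72) (.nr 406 8193 (.nr 404 597 (.lg 0 true 2 59 59 16 0 144) (.nx 405 82572 (.lg 2 false 1 43 43
  16 4980 72) .out)) .out))))) .out) .out) (.na 420 107 (.nx 419 1321124 (.nr 418 524289 (.nr 410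
  99 .s1 (.nx 414 8193 (.nx 412 72 (.nr 411 645 (.l1 (.ls 23 19 55)) (.l1 .sk)) (.nx 413 73 (.l1
  .sk) (.lg 0 false 1 83 83 23 0 792))) (.nr 417 8193 (.nx 415 82572 (.lg 0 true 1 73 73 23 0 792)
  (.nr 416 513 (.lg 0 true 1 67 67 23 0 792) .out)) .out))) .out) .out) (.nx 430 1321124 (.nr 429
  524289 (.nr 421 107 .s1 (.nx 424 73 (.nx 423 72 (.nr 422 651 (.l1 (.ls 16 16 51)) (.l1 .sk)) (.l1
  .sk)) (.nx 425 8193 (.lg 0 true 1 73 73 16 0 72) (.nr 428 8193 (.nr 426 513 (.lg 2 false 1 59 59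
  16 444491 72) (.nx 427 82572 (.lg 2 false 1 43 43 16 5795 72) .out)) .out)))) .out) .out))) (.na
  442 113 (.nx 441 1321124 (.nr 440 524289 (.nr 432 108 .s1 (.nx 436 8193 (.nx 434 72 (.nr 433 681
  (.l1 (.ls 29 23 50)) (.l1 .sk)) (.nx 435 73 (.l1 .sk) (.lg 0 false 1 83 83 29 0 144))) (.nr 439
  8193 (.nr 437 513 (.lg 0 true 1 71 71 31 0 144) (.nx 438 82572 (.lg 1 true 1 71 71 29 5795 144)
  .out)) .out))) .out) .out) (.na 453 121 (.nx 452 1321124 (.nr 451 524289 (.nr 443 113 .s1 (.nx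
  447 8193 (.nx 445 72 (.nr 444 729 (.l1 (.ls 16 16 48)) (.l1 .sk)) (.nx 446 73 (.l1 .sk) (.lg 0
  true 1 73 73 16 0 144))) (.nr 450 8193 (.nr 448 513 (.lg 2 false 1 53 53 16 420890 72) (.nx 449
  82572 (.lg 2 false 1 43 43 16 5795 72) .out)) .out))) .out) .out) (.nx 463 1321124 (.nr 462
  524289 (.nr 454 121 .s1 (.nx 456 72 (.nr 455 741 (.l1 (.ls 19 16 45)) (.l1 .sk)) (.nx 457 73 (.l1
  .sk) (.nx 458 8193 (.lg 0 true 1 79 79 17 0 792) (.nr 461 8193 (.nr 459 513 (.lg 2 false 1 59 59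
  17 393062 792) (.nx 460 82572 (.lg 2 true 1 47 47 17 5795 792) .out)) .out))))) .out) .out)))))
  (.na 512 137 (.na 484 131 (.na 475 128 (.nx 474 1321124 (.nr 473 524289 (.nr 465 123 .s1 (.nx 469
  8193 (.nx 467 72 (.nr 466 771 (.l1 (.ls 16 17 45)) (.l1 .sk)) (.nx 468 73 (.l1 .sk) (.lg 0 true 1
  79 79 17 0 72))) (.nr 472 8193 (.nr 470 513 (.lg 2 false 1 59 59 17 386671 72) (.nx 471 82572
  (.lg 2 false 1 47 47 17 5795 72) .out)) .out))) .out) .out) (.na 476 129 .ne (.nx 483 660563 (.nr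
  482 1048577 (.nr 477 129 .s1 (.nx 478 205 (.l1 (.ls 71 23 328)) (.nr 481 524289 (.nr 479 8193
  (.lg 0 false 1 79 79 17 0 72) (.nx 480 6503 (.lg 0 true 1 79 79 17 0 720) .out)) .out))) .out)
  .out))) (.na 492 132 (.nx 491 660563 (.nr 490 1048577 (.nr 485 131 .s1 (.nx 486 205 (.l1 (.ls 79
  19 323)) (.nr 489 524289 (.nr 487 8193 (.lg 0 false 1 73 73 16 0 72) (.nx 488 6503 (.lg 0 true 1
  73 73 16 0 720) .out)) .out))) .out) .out) (.na 502 136 (.nx 501 660563 (.nr 500 1048577 (.nr 493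
  132 .s1 (.nx 496 6503 (.nx 494 205 (.l1 (.ls 71 37 321)) (.nr 495 524289 (.lg 0 false 1 73 73 31
  0 1584) .out)) (.nr 499 8193 (.nr 497 1025 (.lg 0 true 1 67 67 31 0 1584) (.nx 498 82572 (.lg 2
  true 1 47 47 31 3295 1584) .out)) .out))) .out) .out) (.nx 511 660563 (.nr 510 1048577 (.nr 503
  136 .s1 (.nx 506 6503 (.nx 504 205 (.l1 (.ls 73 31 312)) (.nr 505 524289 (.lg 0 false 1 79 79 29
  0 144) .out)) (.nr 509 8193 (.nr 507 1025 (.lg 0 true 1 67 67 29 0 144) (.nx 508 82572 (.lg 2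
  false 1 53 53 29 3295 144) .out)) .out))) .out) .out)))) (.na 529 151 (.na 520 139 (.nx 519
  660563 (.nr 518 1048577 (.nr 513 137 .s1 (.nx 514 205 (.l1 (.ls 61 19 309)) (.nr 517 524289 (.nr
  515 8193 (.lg 0 false 1 71 71 16 0 72) (.nx 516 6503 (.lg 0 true 1 71 71 16 0 144) .out)) .out)))
  .out) .out) (.na 528 149 (.nx 527 660563 (.nr 526 1048577 (.nr 521 139 .s1 (.nx 522 205 (.l1 (.ls
  67 19 305)) (.nr 525 524289 (.nr 523 8193 (.lg 0 false 1 73 73 16 0 72) (.nx 524 6503 (.lg 0 true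
  1 71 71 16 0 72) .out)) .out))) .out) .out) (.lg 0 false 1 0 0 16 0 24))) (.na 530 152 (.lg 0
  false 1 0 0 16 0 24) (.na 540 153 (.nx 539 660563 (.nr 538 1048577 (.nr 531 152 .s1 (.nx 534 6503
  (.nx 532 205 (.l1 (.ls 73 31 279)) (.nr 533 524289 (.lg 0 false 1 79 79 29 0 144) .out)) (.nr 537
  8193 (.nr 535 1025 (.lg 0 true 1 67 67 29 0 144) (.nx 536 82572 (.lg 2 false 1 47 47 29 3295 144)
  .out)) .out))) .out) .out) (.nx 549 660563 (.nr 548 1048577 (.nr 541 153 .s1 (.nx 542 205 (.l1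
  (.ls 71 29 277)) (.nr 547 524289 (.nx 543 6503 (.lg 0 false 1 73 73 23 0 72) (.nr 546 8193 (.nr
  544 1025 (.lg 0 true 1 67 67 23 0 72) (.nx 545 82572 (.lg 2 false 1 47 53 23 3295 144) .out))
  .out)) .out))) .out) .out))))))) (.na 680 228 (.na 612 191 (.na 578 172 (.na 559 164 (.na 551 163
  (.lg 0 false 1 0 0 16 0 24) (.nx 558 660563 (.nr 557 1048577 (.nr 552 163 .s1 (.nx 555 6503 (.nx
  553 205 (.l1 (.ls 61 17 260)) (.nr 554 524289 (.lg 0 true 1 71 71 16 0 72) .out)) (.nr 556 8193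
  (.lg 0 false 1 71 71 16 0 72) .out))) .out) .out)) (.na 569 167 (.nx 568 660563 (.nr 567 1048577
  (.nr 560 164 .s1 (.nx 561 205 (.l1 (.ls 73 29 259)) (.nr 566 524289 (.nx 562 6503 (.lg 0 false 1
  73 73 23 0 144) (.nr 565 8193 (.nr 563 1025 (.lg 0 true 1 67 67 23 0 144) (.nx 564 82572 (.lg 2
  false 1 47 47 23 3295 144) .out)) .out)) .out))) .out) .out) (.na 570 171 (.lg 0 false 1 0 0 16 0
  24) (.nx 577 660563 (.nr 576 1048577 (.nr 571 171 .s1 (.nx 572 205 (.l1 (.ls 73 29 248)) (.nr 575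
  524289 (.nr 573 8193 (.lg 0 true 1 79 79 23 0 72) (.nx 574 6503 (.lg 0 false 1 79 79 23 0 72)
  .out)) .out))) .out) .out)))) (.na 595 179 (.na 586 173 (.nx 585 660563 (.nr 584 1048577 (.nr 579
  172 .s1 (.nx 580 205 (.l1 (.ls 71 29 247)) (.nr 583 524289 (.nr 581 8193 (.lg 0 true 1 73 73 23 0
  144) (.nx 582 6503 (.lg 0 false 1 73 73 23 0 144) .out)) .out))) .out) .out) (.na 587 177 (.lg 0
  false 1 0 0 16 0 24) (.nx 594 660563 (.nr 593 1048577 (.nr 588 177 .s1 (.nx 589 205 (.l1 (.ls 53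
  23 240)) (.nr 592 524289 (.nr 590 8193 (.lg 0 false 1 73 73 17 0 144) (.nx 591 6503 (.lg 0 true 1
  71 71 17 0 144) .out)) .out))) .out) .out))) (.na 603 181 (.nx 602 660563 (.nr 601 1048577 (.nr
  596 179 .s1 (.nx 597 205 (.l1 (.ls 71 17 237)) (.nr 600 524289 (.nr 598 8193 (.lg 0 false 1 71 71
  16 0 72) (.nx 599 6503 (.lg 0 true 1 71 71 16 0 720) .out)) .out))) .out) .out) (.na 604 187 (.lg
  0 false 1 0 0 16 0 24) (.nx 611 660563 (.nr 610 1048577 (.nr 605 187 .s1 (.nx 606 205 (.l1 (.ls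
  71 23 227)) (.nr 609 524289 (.nr 607 8193 (.lg 0 true 1 73 73 23 0 792) (.nx 608 6503 (.lg 0
  false 1 73 73 23 0 792) .out)) .out))) .out) .out))))) (.na 639 209 (.na 622 199 (.na 613 193
  (.lg 0 false 1 0 0 16 0 24) (.na 621 197 (.nx 620 660563 (.nr 619 1048577 (.nr 614 193 .s1 (.nx
  615 205 (.l1 (.ls 59 17 220)) (.nr 618 524289 (.nr 616 8193 (.lg 0 false 1 71 71 16 0 144) (.nx
  617 6503 (.lg 0 true 1 67 67 16 0 144) .out)) .out))) .out) .out) (.lg 0 false 1 0 0 16 0 24)))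
  (.na 623 201 (.lg 0 false 1 0 0 16 0 24) (.na 631 204 (.nx 630 660563 (.nr 629 1048577 (.nr 624
  201 .s1 (.nx 625 205 (.l1 (.ls 61 23 212)) (.nr 628 524289 (.nr 626 8193 (.lg 0 false 1 73 73 19
  0 72) (.nx 627 6503 (.lg 0 true 1 73 73 19 0 720) .out)) .out))) .out) .out) (.nx 638 660563 (.nr
  637 1048577 (.nr 632 204 .s1 (.nx 635 6503 (.nx 633 205 (.l1 (.ls 71 37 209)) (.nr 634 524289
  (.lg 0 false 1 73 73 31 0 144) .out)) (.nr 636 8193 (.lg 0 true 1 73 73 31 0 144) .out))) .out)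
  .out)))) (.na 663 219 (.na 647 211 (.nx 646 660563 (.nr 645 1048577 (.nr 640 209 .s1 (.nx 641 205
  (.l1 (.ls 71 17 204)) (.nr 644 524289 (.nr 642 8193 (.lg 0 true 1 73 73 17 0 792) (.nx 643 6503
  (.lg 0 false 1 73 73 17 0 792) .out)) .out))) .out) .out) (.na 655 216 (.nx 654 660563 (.nr 653
  1048577 (.nr 648 211 .s1 (.nx 649 205 (.l1 (.ls 67 17 202)) (.nr 652 524289 (.nr 650 8193 (.lg 0
  false 1 71 71 16 0 72) (.nx 651 6503 (.lg 0 true 1 67 67 16 0 72) .out)) .out))) .out) .out) (.nx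
  662 660563 (.nr 661 1048577 (.nr 656 216 .s1 (.nx 659 6503 (.nx 657 205 (.l1 (.ls 73 31 197))
  (.nr 658 524289 (.lg 0 false 1 73 79 31 0 720) .out)) (.nr 660 8193 (.lg 0 true 1 79 79 37 0 720)
  .out))) .out) .out))) (.na 671 223 (.nx 670 660563 (.nr 669 1048577 (.nr 664 219 .s1 (.nx 665 205
  (.l1 (.ls 71 19 194)) (.nr 668 524289 (.nr 666 8193 (.lg 0 false 1 73 73 19 0 72) (.nx 667 6503
  (.lg 0 true 1 67 67 19 0 72) .out)) .out))) .out) .out) (.na 672 227 (.lg 0 false 1 0 0 16 0 24)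
  (.nx 679 660563 (.nr 678 1048577 (.nr 673 227 .s1 (.nx 674 205 (.l1 (.ls 59 17 188)) (.nr 677
  524289 (.nr 675 8193 (.lg 0 false 1 67 67 17 0 144) (.nx 676 6503 (.lg 0 true 1 61 61 17 0 72)
  .out)) .out))) .out) .out)))))) (.na 1253 512 (.na 706 241 (.na 689 233 (.na 688 229 (.nx 687
  660563 (.nr 686 1048577 (.nr 681 228 .s1 (.nx 682 205 (.l1 (.ls 67 37 187)) (.nr 685 524289 (.nr
  683 8193 (.lg 0 true 1 73 73 37 0 144) (.nx 684 6503 (.lg 0 false 1 71 71 37 0 144) .out))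
  .out))) .out) .out) (.lg 0 false 1 0 0 16 0 24)) (.na 697 236 (.nx 696 660563 (.nr 695 1048577
  (.nr 690 233 .s1 (.nx 691 205 (.l1 (.ls 59 17 183)) (.nr 694 524289 (.nr 692 8193 (.lg 0 false 1
  67 67 17 0 72) (.nx 693 6503 (.lg 0 true 1 61 61 17 0 72) .out)) .out))) .out) .out) (.na 705 239
  (.nx 704 660563 (.nr 703 1048577 (.nr 698 236 .s1 (.nx 699 205 (.l1 (.ls 53 23 181)) (.nr 702
  524289 (.nr 700 8193 (.lg 0 true 1 73 73 23 0 144) (.nx 701 6503 (.lg 0 false 1 73 73 23 0 144)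
  .out)) .out))) .out) .out) (.lg 0 false 1 0 0 16 0 24)))) (.na 730 251 (.na 714 243 (.nx 713
  660563 (.nr 712 1048577 (.nr 707 241 .s1 (.nx 708 205 (.l1 (.ls 67 17 177)) (.nr 711 524289 (.nr
  709 8193 (.lg 0 false 1 67 67 17 0 72) (.nx 710 6503 (.lg 0 true 1 67 67 17 0 720) .out)) .out)))
  .out) .out) (.na 722 249 (.nx 721 660563 (.nr 720 1048577 (.nr 715 243 .s1 (.nx 718 6503 (.nx 716
  205 (.l1 (.ls 67 19 175)) (.nr 717 524289 (.lg 0 false 1 73 73 29 0 144) .out)) (.nr 719 8193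
  (.lg 2 true 1 61 61 23 97862 72) .out))) .out) .out) (.nx 729 660563 (.nr 728 1048577 (.nr 723
  249 .s1 (.nx 724 205 (.l1 (.ls 67 19 171)) (.nr 727 524289 (.nr 725 8193 (.lg 0 false 1 67 67 19
  0 72) (.nx 726 6503 (.lg 0 true 1 67 67 19 0 720) .out)) .out))) .out) .out))) (.na 738 256 (.nx
  737 660563 (.nr 736 1048577 (.nr 731 251 .s1 (.nx 732 205 (.l1 (.ls 71 17 170)) (.nr 735 524289
  (.nr 733 8193 (.lg 0 false 1 67 67 17 0 72) (.nx 734 6503 (.lg 0 true 1 67 67 17 0 72) .out))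
  .out))) .out) .out) (.na 739 257 .ne (.nx 1252 82572 (.nr 1251 1048577 (.nr 740 257 .s1 (.nx 995
  647 (.la (.ls 71 31 1631)) (.nr 1250 262145 (.la (.lg 0 false 1 73 73 23 0)) .out))) .out)
  .out))))) (.na 4837 4096 (.na 2587 1449 (.na 1756 725 (.nx 1755 82572 (.nr 1754 1048577 (.nr 1254
  512 .s1 (.nx 1327 73 (.nx 1326 72 (.nr 1325 4366 (.lx (.lp 37 17 182)) (.l1 .sk)) (.l1 .sk)) (.nx
  1540 647 (.la (.ls 67 29 810)) (.nr 1753 262145 (.la (.lg 0 false 1 71 71 29 0)) .out)))) .out)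
  .out) (.na 2058 1024 (.nx 2057 3252 (.nr 2056 262145 (.nr 1757 725 .s1 (.la (.ls 53 43 14589)))
  .out) .out) (.nx 2586 3252 (.nr 2585 262145 (.nr 2059 1024 .s1 (.nx 2160 101 (.nr 2159 131073
  (.lx (.lp 19 0 363)) .out) (.la (.ls 53 41 10320)))) .out) .out))) (.na 3262 2048 (.nx 3261 1627
  (.nr 3260 131073 (.nr 2588 1449 .s1 (.nx 2660 72 (.nr 2659 12331 (.lx (.lp 16 0 513)) (.l1 .sk))
  (.nx 2661 73 (.l1 .sk) (.la (.ls 47 31 1826))))) .out) .out) (.na 4187 2897 (.nx 4186 1627 (.nr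
  4185 131073 (.nr 3263 2048 .s1 (.nx 3335 72 (.nr 3334 17443 (.lx (.lp 16 0 725)) (.l1 .sk)) (.nx
  3336 73 (.l1 .sk) (.la (.ls 43 31 1292))))) .out) .out) (.nx 4836 647 (.nr 4835 65537 (.nr 4188
  2897 .s1 (.nx 4350 163 (.lx (.lp 41 29 1025)) (.nr 4834 32769 (.lx (.lp 41 31 1025)) .out)))
  .out) .out)))) (.na 6786 32768 (.na 5487 8192 (.nx 5486 647 (.nr 5485 65537 (.nr 4838 4096 .s1
  (.nx 5000 163 (.lx (.lp 41 31 2049)) (.nr 5484 32769 (.lx (.lp 37 37 2049)) .out))) .out) .out)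
  (.na 6136 16384 (.nx 6135 647 (.nr 6134 65537 (.nr 5488 8192 .s1 (.lx (.lp 37 41 4097))) .out)
  .out) (.nx 6785 647 (.nr 6784 131073 (.nr 6137 16384 .s1 (.nx 6299 163 (.lx (.lp 19 41 8193))
  (.nr 6783 65537 (.lx (.lp 31 43 8193)) .out))) .out) .out))) (.na 7112 65536 (.nx 7111 324 (.nr
  7110 131073 (.nr 6787 32768 .s1 (.lx (.lp 29 47 16385))) .out) .out) (.na 7438 131073 (.nx 7437
  324 (.nr 7436 262145 (.nr 7113 65536 .s1 (.lx (.lp 43 47 32769))) .out) .out) .out)))))))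

theorem c139 :
    OkQ ckI L6 112 1 17 0 34359738368 1 1099511627776 ∧
    OkQ ckI L4 32 11 1099511627776 0 34359738368 1 1099511627776 ∧
    OkQ ckI L6 72 12 1099511627776 0 34359738368 1 1099511627776 := by
  refine ⟨?_, ?_, ?_⟩
  · refine fin 336 748 T139_0 ?_
    refine jn 7 (by decide +kernel) ?_
    refine jn 8 (by decide +kernel) ?_
    refine jn 10 (by decide +kernel) ?_
    refine jn 11 (by decide +kernel) ?_
    refine jn 13 (by decide +kernel) ?_
    refine jn 17 (by decide +kernel) ?_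
    refine jn 20 (by decide +kernel) ?_
    refine jn 23 (by decide +kernel) ?_
    refine jn 26 (by decide +kernel) ?_
    refine jn 29 (by decide +kernel) ?_
    refine jn 33 (by decide +kernel) ?_
    refine jn 35 (by decide +kernel) ?_
    refine jn 37 (by decide +kernel) ?_
    refine jn 38 (by decide +kernel) ?_
    refine jn 55 (by decide +kernel) ?_
    refine jn 61 (by decide +kernel) ?_
    refine jn 66 (by decide +kernel) ?_
    refine jn 72 (by decide +kernel) ?_
    refine jn 77 (by decide +kernel) ?_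
    refine jn 82 (by decide +kernel) ?_
    refine jn 87 (by decide +kernel) ?_
    refine jn 92 (by decide +kernel) ?_
    refine jn 95 (by decide +kernel) ?_
    refine jn 108 (by decide +kernel) ?_
    refine jn 121 (by decide +kernel) ?_
    refine jn 134 (by decide +kernel) ?_
    refine jn 148 (by decide +kernel) ?_
    refine jn 150 (by decide +kernel) ?_
    refine jn 163 (by decide +kernel) ?_
    refine jn 191 (by decide +kernel) ?_
    refine jn 200 (by decide +kernel) ?_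
    refine jn 202 (by decide +kernel) ?_
    refine jn 206 (by decide +kernel) ?_
    refine jn 208 (by decide +kernel) ?_
    refine jn 211 (by decide +kernel) ?_
    refine jn 212 (by decide +kernel) ?_
    refine jn 219 (by decide +kernel) ?_
    refine jn 228 (by decide +kernel) ?_
    refine jn 238 (by decide +kernel) ?_
    refine jn 242 (by decide +kernel) ?_
    refine jn 257 (by decide +kernel) ?_
    refine jn 272 (by decide +kernel) ?_
    refine jn 283 (by decide +kernel) ?_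
    refine jn 317 (by decide +kernel) ?_
    refine jn 339 (by decide +kernel) ?_
    refine jn 346 (by decide +kernel) ?_
    refine jn 347 (by decide +kernel) ?_
    refine jn 348 (by decide +kernel) ?_
    refine jn 349 (by decide +kernel) ?_
    refine jn 350 (by decide +kernel) ?_
    refine jn 351 (by decide +kernel) ?_
    refine jn 352 (by decide +kernel) ?_
    refine jn 353 (by decide +kernel) ?_
    refine jn 354 (by decide +kernel) ?_
    refine jn 355 (by decide +kernel) ?_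
    refine jn 357 (by decide +kernel) ?_
    refine jn 358 (by decide +kernel) ?_
    refine jn 359 (by decide +kernel) ?_
    refine jn 361 (by decide +kernel) ?_
    refine jn 363 (by decide +kernel) ?_
    refine jn 365 (by decide +kernel) ?_
    refine jn 367 (by decide +kernel) ?_
    refine jn 369 (by decide +kernel) ?_
    refine jn 371 (by decide +kernel) ?_
    refine jn 372 (by decide +kernel) ?_
    refine jn 383 (by decide +kernel) ?_
    refine jn 385 (by decide +kernel) ?_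
    refine jn 390 (by decide +kernel) ?_
    refine jn 399 (by decide +kernel) ?_
    refine jn 405 (by decide +kernel) ?_
    refine jn 412 (by decide +kernel) ?_
    refine jn 414 (by decide +kernel) ?_
    refine jn 447 (by decide +kernel) ?_
    refine jn 463 (by decide +kernel) ?_
    refine jn 471 (by decide +kernel) ?_
    refine jn 480 (by decide +kernel) ?_
    refine jn 481 (by decide +kernel) ?_
    refine jn 496 (by decide +kernel) ?_
    refine jn 536 (by decide +kernel) ?_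
    refine jn 544 (by decide +kernel) ?_
    refine jn 545 (by decide +kernel) ?_
    refine jn 546 (by decide +kernel) ?_
    refine jn 547 (by decide +kernel) ?_
    refine jn 553 (by decide +kernel) ?_
    refine jn 558 (by decide +kernel) ?_
    refine jn 562 (by decide +kernel) ?_
    refine jn 566 (by decide +kernel) ?_
    refine jn 569 (by decide +kernel) ?_
    refine jn 574 (by decide +kernel) ?_
    refine jn 576 (by decide +kernel) ?_
    refine jn 584 (by decide +kernel) ?_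
    refine jn 609 (by decide +kernel) ?_
    refine jn 617 (by decide +kernel) ?_
    refine jn 618 (by decide +kernel) ?_
    refine jn 619 (by decide +kernel) ?_
    refine jn 620 (by decide +kernel) ?_
    refine jn 627 (by decide +kernel) ?_
    refine jn 629 (by decide +kernel) ?_
    refine jn 631 (by decide +kernel) ?_
    refine jn 633 (by decide +kernel) ?_
    refine jn 639 (by decide +kernel) ?_
    refine jn 640 (by decide +kernel) ?_
    refine jn 641 (by decide +kernel) ?_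
    refine jn 642 (by decide +kernel) ?_
    refine jn 643 (by decide +kernel) ?_
    refine jn 644 (by decide +kernel) ?_
    refine jn 645 (by decide +kernel) ?_
    refine jn 646 (by decide +kernel) ?_
    refine jn 648 (by decide +kernel) ?_
    refine jn 649 (by decide +kernel) ?_
    refine jn 651 (by decide +kernel) ?_
    refine jn 653 (by decide +kernel) ?_
    refine jn 654 (by decide +kernel) ?_
    refine jn 655 (by decide +kernel) ?_
    refine jn 657 (by decide +kernel) ?_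
    refine jn 661 (by decide +kernel) ?_
    refine jn 676 (by decide +kernel) ?_
    refine jn 683 (by decide +kernel) ?_
    refine jn 697 (by decide +kernel) ?_
    refine jn 715 (by decide +kernel) ?_
    refine jn 716 (by decide +kernel) ?_
    refine jn 717 (by decide +kernel) ?_
    refine jn 718 (by decide +kernel) ?_
    refine jn 719 (by decide +kernel) ?_
    refine jn 720 (by decide +kernel) ?_
    refine jn 721 (by decide +kernel) ?_
    refine jn 724 (by decide +kernel) ?_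
    refine jn 725 (by decide +kernel) ?_
    refine jn 726 (by decide +kernel) ?_
    refine jn 727 (by decide +kernel) ?_
    refine jn 728 (by decide +kernel) ?_
    refine jn 729 (by decide +kernel) ?_
    refine jn 732 (by decide +kernel) ?_
    refine jn 733 (by decide +kernel) ?_
    refine jn 734 (by decide +kernel) ?_
    refine jn 738 (by decide +kernel) ?_
    refine jn 742 (by decide +kernel) ?_
    refine jn 743 (by decide +kernel) ?_
    refine jn 744 (by decide +kernel) ?_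
    exact je (by decide +kernel)
  · refine fin 144 3098 T139_1 ?_
    refine jn 4 (by decide +kernel) ?_
    refine jn 5 (by decide +kernel) ?_
    refine jn 7 (by decide +kernel) ?_
    refine jn 10 (by decide +kernel) ?_
    refine jn 12 (by decide +kernel) ?_
    refine jn 16 (by decide +kernel) ?_
    refine jn 19 (by decide +kernel) ?_
    refine jn 23 (by decide +kernel) ?_
    refine jn 31 (by decide +kernel) ?_
    refine jn 32 (by decide +kernel) ?_
    refine jn 33 (by decide +kernel) ?_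
    refine jn 34 (by decide +kernel) ?_
    refine jn 35 (by decide +kernel) ?_
    refine jn 36 (by decide +kernel) ?_
    refine jn 37 (by decide +kernel) ?_
    refine jn 38 (by decide +kernel) ?_
    refine jn 39 (by decide +kernel) ?_
    refine jn 40 (by decide +kernel) ?_
    refine jn 41 (by decide +kernel) ?_
    refine jn 42 (by decide +kernel) ?_
    refine jn 43 (by decide +kernel) ?_
    refine jn 44 (by decide +kernel) ?_
    refine jn 45 (by decide +kernel) ?_
    refine jn 46 (by decide +kernel) ?_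
    refine jn 55 (by decide +kernel) ?_
    refine jn 56 (by decide +kernel) ?_
    refine jn 57 (by decide +kernel) ?_
    refine jn 58 (by decide +kernel) ?_
    refine jn 59 (by decide +kernel) ?_
    refine jn 60 (by decide +kernel) ?_
    refine jn 62 (by decide +kernel) ?_
    refine jn 63 (by decide +kernel) ?_
    refine jn 64 (by decide +kernel) ?_
    refine jn 65 (by decide +kernel) ?_
    refine jn 66 (by decide +kernel) ?_
    refine jn 72 (by decide +kernel) ?_
    refine jn 76 (by decide +kernel) ?_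
    refine jn 79 (by decide +kernel) ?_
    refine jn 82 (by decide +kernel) ?_
    refine jn 89 (by decide +kernel) ?_
    refine jn 92 (by decide +kernel) ?_
    refine jn 95 (by decide +kernel) ?_
    refine jn 99 (by decide +kernel) ?_
    refine jn 102 (by decide +kernel) ?_
    refine jn 108 (by decide +kernel) ?_
    refine jn 110 (by decide +kernel) ?_
    refine jn 113 (by decide +kernel) ?_
    refine jn 116 (by decide +kernel) ?_
    refine jn 124 (by decide +kernel) ?_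
    refine jn 128 (by decide +kernel) ?_
    refine jn 130 (by decide +kernel) ?_
    refine jn 135 (by decide +kernel) ?_
    refine jn 145 (by decide +kernel) ?_
    refine jn 146 (by decide +kernel) ?_
    refine jn 147 (by decide +kernel) ?_
    refine jn 148 (by decide +kernel) ?_
    refine jn 149 (by decide +kernel) ?_
    refine jn 150 (by decide +kernel) ?_
    refine jn 157 (by decide +kernel) ?_
    refine jn 164 (by decide +kernel) ?_
    refine jn 167 (by decide +kernel) ?_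
    refine jn 176 (by decide +kernel) ?_
    refine jn 177 (by decide +kernel) ?_
    refine jn 178 (by decide +kernel) ?_
    refine jn 179 (by decide +kernel) ?_
    refine jn 181 (by decide +kernel) ?_
    refine jn 182 (by decide +kernel) ?_
    refine jn 183 (by decide +kernel) ?_
    refine jn 192 (by decide +kernel) ?_
    refine jn 193 (by decide +kernel) ?_
    refine jn 194 (by decide +kernel) ?_
    refine jn 195 (by decide +kernel) ?_
    refine jn 196 (by decide +kernel) ?_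
    refine jn 207 (by decide +kernel) ?_
    refine jn 209 (by decide +kernel) ?_
    refine jn 217 (by decide +kernel) ?_
    refine jn 218 (by decide +kernel) ?_
    refine jn 219 (by decide +kernel) ?_
    refine jn 220 (by decide +kernel) ?_
    refine jn 221 (by decide +kernel) ?_
    refine jn 230 (by decide +kernel) ?_
    refine jn 240 (by decide +kernel) ?_
    refine jn 242 (by decide +kernel) ?_
    refine jn 252 (by decide +kernel) ?_
    refine jn 262 (by decide +kernel) ?_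
    refine jn 263 (by decide +kernel) ?_
    refine jn 264 (by decide +kernel) ?_
    refine jn 270 (by decide +kernel) ?_
    refine jn 273 (by decide +kernel) ?_
    refine jn 274 (by decide +kernel) ?_
    refine jn 275 (by decide +kernel) ?_
    refine jn 276 (by decide +kernel) ?_
    refine jn 284 (by decide +kernel) ?_
    refine jn 285 (by decide +kernel) ?_
    refine jn 286 (by decide +kernel) ?_
    refine jn 296 (by decide +kernel) ?_
    refine jn 306 (by decide +kernel) ?_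
    refine jn 307 (by decide +kernel) ?_
    refine jn 308 (by decide +kernel) ?_
    refine jn 317 (by decide +kernel) ?_
    refine jn 320 (by decide +kernel) ?_
    refine jn 326 (by decide +kernel) ?_
    refine jn 328 (by decide +kernel) ?_
    refine jn 330 (by decide +kernel) ?_
    refine jn 339 (by decide +kernel) ?_
    refine jn 344 (by decide +kernel) ?_
    refine jn 346 (by decide +kernel) ?_
    refine jn 348 (by decide +kernel) ?_
    refine jn 355 (by decide +kernel) ?_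
    refine jn 358 (by decide +kernel) ?_
    refine jn 367 (by decide +kernel) ?_
    refine jn 373 (by decide +kernel) ?_
    refine jn 381 (by decide +kernel) ?_
    refine jn 384 (by decide +kernel) ?_
    refine jn 392 (by decide +kernel) ?_
    refine jn 400 (by decide +kernel) ?_
    refine jn 409 (by decide +kernel) ?_
    refine jn 415 (by decide +kernel) ?_
    refine jn 423 (by decide +kernel) ?_
    refine jn 429 (by decide +kernel) ?_
    refine jn 430 (by decide +kernel) ?_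
    refine jn 431 (by decide +kernel) ?_
    refine jn 433 (by decide +kernel) ?_
    refine jn 434 (by decide +kernel) ?_
    refine jn 447 (by decide +kernel) ?_
    refine jn 449 (by decide +kernel) ?_
    refine jn 455 (by decide +kernel) ?_
    refine jn 457 (by decide +kernel) ?_
    refine jn 465 (by decide +kernel) ?_
    refine jn 473 (by decide +kernel) ?_
    refine jn 481 (by decide +kernel) ?_
    refine jn 489 (by decide +kernel) ?_
    refine jn 497 (by decide +kernel) ?_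
    refine jn 506 (by decide +kernel) ?_
    refine jn 513 (by decide +kernel) ?_
    refine jn 525 (by decide +kernel) ?_
    refine jn 531 (by decide +kernel) ?_
    refine jn 532 (by decide +kernel) ?_
    refine jn 533 (by decide +kernel) ?_
    refine jn 545 (by decide +kernel) ?_
    refine jn 560 (by decide +kernel) ?_
    refine jn 562 (by decide +kernel) ?_
    refine jn 563 (by decide +kernel) ?_
    refine jn 577 (by decide +kernel) ?_
    refine jn 590 (by decide +kernel) ?_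
    refine jn 602 (by decide +kernel) ?_
    refine jn 615 (by decide +kernel) ?_
    refine jn 626 (by decide +kernel) ?_
    refine jn 627 (by decide +kernel) ?_
    refine jn 628 (by decide +kernel) ?_
    refine jn 640 (by decide +kernel) ?_
    refine jn 653 (by decide +kernel) ?_
    refine jn 671 (by decide +kernel) ?_
    refine jn 680 (by decide +kernel) ?_
    refine jn 686 (by decide +kernel) ?_
    refine jn 698 (by decide +kernel) ?_
    refine jn 710 (by decide +kernel) ?_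
    refine jn 723 (by decide +kernel) ?_
    refine jn 734 (by decide +kernel) ?_
    refine jn 742 (by decide +kernel) ?_
    refine jn 755 (by decide +kernel) ?_
    refine jn 773 (by decide +kernel) ?_
    refine jn 785 (by decide +kernel) ?_
    refine jn 828 (by decide +kernel) ?_
    refine jn 830 (by decide +kernel) ?_
    refine jn 831 (by decide +kernel) ?_
    refine jn 838 (by decide +kernel) ?_
    refine jn 839 (by decide +kernel) ?_
    refine jn 849 (by decide +kernel) ?_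
    refine jn 854 (by decide +kernel) ?_
    refine jn 855 (by decide +kernel) ?_
    refine jn 858 (by decide +kernel) ?_
    refine jn 870 (by decide +kernel) ?_
    refine jn 871 (by decide +kernel) ?_
    refine jn 879 (by decide +kernel) ?_
    refine jn 889 (by decide +kernel) ?_
    refine jn 892 (by decide +kernel) ?_
    refine jn 898 (by decide +kernel) ?_
    refine jn 905 (by decide +kernel) ?_
    refine jn 910 (by decide +kernel) ?_
    refine jn 918 (by decide +kernel) ?_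
    refine jn 919 (by decide +kernel) ?_
    refine jn 922 (by decide +kernel) ?_
    refine jn 929 (by decide +kernel) ?_
    refine jn 940 (by decide +kernel) ?_
    refine jn 952 (by decide +kernel) ?_
    refine jn 954 (by decide +kernel) ?_
    refine jn 962 (by decide +kernel) ?_
    refine jn 967 (by decide +kernel) ?_
    refine jn 974 (by decide +kernel) ?_
    refine jn 975 (by decide +kernel) ?_
    refine jn 984 (by decide +kernel) ?_
    refine jn 994 (by decide +kernel) ?_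
    refine jn 998 (by decide +kernel) ?_
    refine jn 999 (by decide +kernel) ?_
    refine jn 1015 (by decide +kernel) ?_
    refine jn 1019 (by decide +kernel) ?_
    refine jn 1022 (by decide +kernel) ?_
    refine jn 1023 (by decide +kernel) ?_
    refine jn 1033 (by decide +kernel) ?_
    refine jn 1048 (by decide +kernel) ?_
    refine jn 1055 (by decide +kernel) ?_
    refine jn 1058 (by decide +kernel) ?_
    refine jn 1064 (by decide +kernel) ?_
    refine jn 1115 (by decide +kernel) ?_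
    refine jn 1118 (by decide +kernel) ?_
    refine jn 1123 (by decide +kernel) ?_
    refine jn 1130 (by decide +kernel) ?_
    refine jn 1131 (by decide +kernel) ?_
    refine jn 1138 (by decide +kernel) ?_
    refine jn 1146 (by decide +kernel) ?_
    refine jn 1149 (by decide +kernel) ?_
    refine jn 1163 (by decide +kernel) ?_
    refine jn 1164 (by decide +kernel) ?_
    refine jn 1173 (by decide +kernel) ?_
    refine jn 1181 (by decide +kernel) ?_
    refine jn 1189 (by decide +kernel) ?_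
    refine jn 1203 (by decide +kernel) ?_
    refine jn 1210 (by decide +kernel) ?_
    refine jn 1214 (by decide +kernel) ?_
    refine jn 1219 (by decide +kernel) ?_
    refine jn 1229 (by decide +kernel) ?_
    refine jn 1235 (by decide +kernel) ?_
    refine jn 1245 (by decide +kernel) ?_
    refine jn 1251 (by decide +kernel) ?_
    refine jn 1258 (by decide +kernel) ?_
    refine jn 1259 (by decide +kernel) ?_
    refine jn 1266 (by decide +kernel) ?_
    refine jn 1280 (by decide +kernel) ?_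
    refine jn 1286 (by decide +kernel) ?_
    refine jn 1290 (by decide +kernel) ?_
    refine jn 1296 (by decide +kernel) ?_
    refine jn 1308 (by decide +kernel) ?_
    refine jn 1314 (by decide +kernel) ?_
    refine jn 1325 (by decide +kernel) ?_
    refine jn 1458 (by decide +kernel) ?_
    refine jn 1590 (by decide +kernel) ?_
    refine jn 1816 (by decide +kernel) ?_
    refine jn 2093 (by decide +kernel) ?_
    refine jn 2365 (by decide +kernel) ?_
    refine jn 2627 (by decide +kernel) ?_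
    refine jn 3093 (by decide +kernel) ?_
    exact je (by decide +kernel)
  · refine fin 72 7439 T139_2 ?_
    refine jn 5 (by decide +kernel) ?_
    refine jn 6 (by decide +kernel) ?_
    refine jn 8 (by decide +kernel) ?_
    refine jn 9 (by decide +kernel) ?_
    refine jn 12 (by decide +kernel) ?_
    refine jn 14 (by decide +kernel) ?_
    refine jn 19 (by decide +kernel) ?_
    refine jn 26 (by decide +kernel) ?_
    refine jn 40 (by decide +kernel) ?_
    refine jn 43 (by decide +kernel) ?_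
    refine jn 47 (by decide +kernel) ?_
    refine jn 51 (by decide +kernel) ?_
    refine jn 55 (by decide +kernel) ?_
    refine jn 64 (by decide +kernel) ?_
    refine jn 72 (by decide +kernel) ?_
    refine jn 74 (by decide +kernel) ?_
    refine jn 76 (by decide +kernel) ?_
    refine jn 79 (by decide +kernel) ?_
    refine jn 83 (by decide +kernel) ?_
    refine jn 84 (by decide +kernel) ?_
    refine jn 85 (by decide +kernel) ?_
    refine jn 86 (by decide +kernel) ?_
    refine jn 87 (by decide +kernel) ?_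
    refine jn 88 (by decide +kernel) ?_
    refine jn 89 (by decide +kernel) ?_
    refine jn 104 (by decide +kernel) ?_
    refine jn 110 (by decide +kernel) ?_
    refine jn 111 (by decide +kernel) ?_
    refine jn 118 (by decide +kernel) ?_
    refine jn 129 (by decide +kernel) ?_
    refine jn 130 (by decide +kernel) ?_
    refine jn 131 (by decide +kernel) ?_
    refine jn 132 (by decide +kernel) ?_
    refine jn 133 (by decide +kernel) ?_
    refine jn 134 (by decide +kernel) ?_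
    refine jn 135 (by decide +kernel) ?_
    refine jn 136 (by decide +kernel) ?_
    refine jn 138 (by decide +kernel) ?_
    refine jn 139 (by decide +kernel) ?_
    refine jn 142 (by decide +kernel) ?_
    refine jn 144 (by decide +kernel) ?_
    refine jn 151 (by decide +kernel) ?_
    refine jn 158 (by decide +kernel) ?_
    refine jn 164 (by decide +kernel) ?_
    refine jn 172 (by decide +kernel) ?_
    refine jn 173 (by decide +kernel) ?_
    refine jn 174 (by decide +kernel) ?_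
    refine jn 175 (by decide +kernel) ?_
    refine jn 176 (by decide +kernel) ?_
    refine jn 177 (by decide +kernel) ?_
    refine jn 180 (by decide +kernel) ?_
    refine jn 181 (by decide +kernel) ?_
    refine jn 191 (by decide +kernel) ?_
    refine jn 196 (by decide +kernel) ?_
    refine jn 209 (by decide +kernel) ?_
    refine jn 213 (by decide +kernel) ?_
    refine jn 221 (by decide +kernel) ?_
    refine jn 222 (by decide +kernel) ?_
    refine jn 223 (by decide +kernel) ?_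
    refine jn 225 (by decide +kernel) ?_
    refine jn 235 (by decide +kernel) ?_
    refine jn 240 (by decide +kernel) ?_
    refine jn 254 (by decide +kernel) ?_
    refine jn 266 (by decide +kernel) ?_
    refine jn 271 (by decide +kernel) ?_
    refine jn 286 (by decide +kernel) ?_
    refine jn 298 (by decide +kernel) ?_
    refine jn 300 (by decide +kernel) ?_
    refine jn 302 (by decide +kernel) ?_
    refine jn 311 (by decide +kernel) ?_
    refine jn 312 (by decide +kernel) ?_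
    refine jn 315 (by decide +kernel) ?_
    refine jn 330 (by decide +kernel) ?_
    refine jn 341 (by decide +kernel) ?_
    refine jn 343 (by decide +kernel) ?_
    refine jn 352 (by decide +kernel) ?_
    refine jn 353 (by decide +kernel) ?_
    refine jn 354 (by decide +kernel) ?_
    refine jn 356 (by decide +kernel) ?_
    refine jn 368 (by decide +kernel) ?_
    refine jn 378 (by decide +kernel) ?_
    refine jn 381 (by decide +kernel) ?_
    refine jn 392 (by decide +kernel) ?_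
    refine jn 405 (by decide +kernel) ?_
    refine jn 414 (by decide +kernel) ?_
    refine jn 416 (by decide +kernel) ?_
    refine jn 427 (by decide +kernel) ?_
    refine jn 435 (by decide +kernel) ?_
    refine jn 436 (by decide +kernel) ?_
    refine jn 437 (by decide +kernel) ?_
    refine jn 447 (by decide +kernel) ?_
    refine jn 459 (by decide +kernel) ?_
    refine jn 471 (by decide +kernel) ?_
    refine jn 487 (by decide +kernel) ?_
    refine jn 495 (by decide +kernel) ?_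
    refine jn 505 (by decide +kernel) ?_
    refine jn 516 (by decide +kernel) ?_
    refine jn 533 (by decide +kernel) ?_
    refine jn 542 (by decide +kernel) ?_
    refine jn 544 (by decide +kernel) ?_
    refine jn 556 (by decide +kernel) ?_
    refine jn 563 (by decide +kernel) ?_
    refine jn 573 (by decide +kernel) ?_
    refine jn 582 (by decide +kernel) ?_
    refine jn 599 (by decide +kernel) ?_
    refine jn 608 (by decide +kernel) ?_
    refine jn 627 (by decide +kernel) ?_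
    refine jn 636 (by decide +kernel) ?_
    refine jn 643 (by decide +kernel) ?_
    refine jn 657 (by decide +kernel) ?_
    refine jn 659 (by decide +kernel) ?_
    refine jn 662 (by decide +kernel) ?_
    refine jn 676 (by decide +kernel) ?_
    refine jn 689 (by decide +kernel) ?_
    refine jn 700 (by decide +kernel) ?_
    refine jn 710 (by decide +kernel) ?_
    refine jn 717 (by decide +kernel) ?_
    refine jn 718 (by decide +kernel) ?_
    refine jn 719 (by decide +kernel) ?_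
    refine jn 734 (by decide +kernel) ?_
    refine jn 780 (by decide +kernel) ?_
    refine jn 807 (by decide +kernel) ?_
    refine jn 815 (by decide +kernel) ?_
    refine jn 862 (by decide +kernel) ?_
    refine jn 891 (by decide +kernel) ?_
    refine jn 940 (by decide +kernel) ?_
    refine jn 995 (by decide +kernel) ?_
    refine jn 1005 (by decide +kernel) ?_
    refine jn 1019 (by decide +kernel) ?_
    refine jn 1029 (by decide +kernel) ?_
    refine jn 1035 (by decide +kernel) ?_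
    refine jn 1036 (by decide +kernel) ?_
    refine jn 1061 (by decide +kernel) ?_
    refine jn 1062 (by decide +kernel) ?_
    refine jn 1063 (by decide +kernel) ?_
    refine jn 1070 (by decide +kernel) ?_
    refine jn 1082 (by decide +kernel) ?_
    refine jn 1091 (by decide +kernel) ?_
    refine jn 1101 (by decide +kernel) ?_
    refine jn 1117 (by decide +kernel) ?_
    refine jn 1126 (by decide +kernel) ?_
    refine jn 1134 (by decide +kernel) ?_
    refine jn 1135 (by decide +kernel) ?_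
    refine jn 1149 (by decide +kernel) ?_
    refine jn 1166 (by decide +kernel) ?_
    refine jn 1187 (by decide +kernel) ?_
    refine jn 1190 (by decide +kernel) ?_
    refine jn 1195 (by decide +kernel) ?_
    refine jn 1197 (by decide +kernel) ?_
    refine jn 1205 (by decide +kernel) ?_
    refine jn 1222 (by decide +kernel) ?_
    refine jn 1230 (by decide +kernel) ?_
    refine jn 1328 (by decide +kernel) ?_
    refine jn 1376 (by decide +kernel) ?_
    refine jn 1432 (by decide +kernel) ?_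
    refine jn 1479 (by decide +kernel) ?_
    refine jn 1540 (by decide +kernel) ?_
    refine jn 1544 (by decide +kernel) ?_
    refine jn 1552 (by decide +kernel) ?_
    refine jn 1564 (by decide +kernel) ?_
    refine jn 1576 (by decide +kernel) ?_
    refine jn 1589 (by decide +kernel) ?_
    refine jn 1599 (by decide +kernel) ?_
    refine jn 1612 (by decide +kernel) ?_
    refine jn 1629 (by decide +kernel) ?_
    refine jn 1640 (by decide +kernel) ?_
    refine jn 1641 (by decide +kernel) ?_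
    refine jn 1661 (by decide +kernel) ?_
    refine jn 1676 (by decide +kernel) ?_
    refine jn 1677 (by decide +kernel) ?_
    refine jn 1685 (by decide +kernel) ?_
    refine jn 1696 (by decide +kernel) ?_
    refine jn 1712 (by decide +kernel) ?_
    refine jn 1713 (by decide +kernel) ?_
    refine jn 1736 (by decide +kernel) ?_
    refine jn 1751 (by decide +kernel) ?_
    refine jn 1763 (by decide +kernel) ?_
    refine jn 1785 (by decide +kernel) ?_
    refine jn 1824 (by decide +kernel) ?_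
    refine jn 1841 (by decide +kernel) ?_
    refine jn 1881 (by decide +kernel) ?_
    refine jn 1923 (by decide +kernel) ?_
    refine jn 1945 (by decide +kernel) ?_
    refine jn 1996 (by decide +kernel) ?_
    refine jn 2004 (by decide +kernel) ?_
    refine jn 2011 (by decide +kernel) ?_
    refine jn 2049 (by decide +kernel) ?_
    refine jn 2187 (by decide +kernel) ?_
    refine jn 2243 (by decide +kernel) ?_
    refine jn 2289 (by decide +kernel) ?_
    refine jn 2324 (by decide +kernel) ?_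
    refine jn 2360 (by decide +kernel) ?_
    refine jn 2387 (by decide +kernel) ?_
    refine jn 2433 (by decide +kernel) ?_
    refine jn 2497 (by decide +kernel) ?_
    refine jn 2533 (by decide +kernel) ?_
    refine jn 2585 (by decide +kernel) ?_
    refine jn 2719 (by decide +kernel) ?_
    refine jn 2784 (by decide +kernel) ?_
    refine jn 2869 (by decide +kernel) ?_
    refine jn 2943 (by decide +kernel) ?_
    refine jn 3021 (by decide +kernel) ?_
    refine jn 3089 (by decide +kernel) ?_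
    refine jn 3156 (by decide +kernel) ?_
    refine jn 3219 (by decide +kernel) ?_
    refine jn 3372 (by decide +kernel) ?_
    refine jn 3457 (by decide +kernel) ?_
    refine jn 3547 (by decide +kernel) ?_
    refine jn 3625 (by decide +kernel) ?_
    refine jn 3700 (by decide +kernel) ?_
    refine jn 3796 (by decide +kernel) ?_
    refine jn 3884 (by decide +kernel) ?_
    refine jn 3961 (by decide +kernel) ?_
    refine jn 4051 (by decide +kernel) ?_
    refine jn 4160 (by decide +kernel) ?_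
    refine jn 4475 (by decide +kernel) ?_
    refine jn 4638 (by decide +kernel) ?_
    refine jn 4757 (by decide +kernel) ?_
    refine jn 4838 (by decide +kernel) ?_
    refine jn 5127 (by decide +kernel) ?_
    refine jn 5265 (by decide +kernel) ?_
    refine jn 5360 (by decide +kernel) ?_
    refine jn 5429 (by decide +kernel) ?_
    refine jn 5673 (by decide +kernel) ?_
    refine jn 5867 (by decide +kernel) ?_
    refine jn 5989 (by decide +kernel) ?_
    refine jn 6109 (by decide +kernel) ?_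
    refine jn 6406 (by decide +kernel) ?_
    refine jn 6604 (by decide +kernel) ?_
    refine jn 6783 (by decide +kernel) ?_
    refine jn 7383 (by decide +kernel) ?_
    exact je (by decide +kernel)

end Pool.Agent.MP_2339ce_nt.NR
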