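import Pool.Agent.MP_2339ce_nt.Q2.NC.C122
import Pool.Agent.MP_2339ce_nt.Q2.NC.C139

/-! Block NR: the runs for `32 ≤ N ≤ 32`. -/

set_option autoImplicit false
set_option maxRecDepth 100000

noncomputable section

namespace Pool.Agent.MP_2339ce_nt.NR

open Q2.Top

theorem q32 : OkQ ckI L4 32 1 1099511627776 0 34359738368 1 1099511627776 :=
  qa 11 c122.2.2 (c139.2.1)

end Pool.Agent.MP_2339ce_nt.NR
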