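import Pool.Agent.MP_2339ce_nt.Q2.NC.L5
import Pool.Agent.MP_2339ce_nt.Q2.NC.L6
import Pool.Agent.MP_2339ce_nt.Q2.NC.L8
import Pool.Agent.MP_2339ce_nt.Q2.CkI

/-! Block NR: runs. -/

set_option autoImplicit false
set_option maxRecDepth 100000

noncomputable section

namespace Pool.Agent.MP_2339ce_nt.NR

open Q2.Top

def T107_0 : Ph :=
  (.na 613 11 (.na 415 5 (.na 311 3 (.na 188 2 (.nx 187 1321124 (.nr 186 311745 (.nx 3 80 (.nx 2 79
  (.nr 1 9 (.lg 0 true 1 31 31 5 0 1896) (.l1 .sk)) (.l1 .sk)) (.nr 164 46342 (.nx 142 660563 (.nx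
  120 330282 (.nx 31 6503 (.lg 0 false 28 97 97 11 0 132720) (.nr 119 38969 (.nr 59 432 (.lg 0 true
  28 83 83 11 0 26544) (.nx 80 16385 (.lg 1 false 21 103 107 11 18739 56936880) (.nr 118 27556 (.nr
  89 1724 (.lg 2 true 9 97 97 9 30200 56880) (.nx 117 165142 (.lg 2 false 28 97 103 11 5264
  18978960) .out)) .out))) .out)) (.nr 141 109 (.lg 0 true 21 73 83 11 0 39816) .out)) (.nr 163 13
  (.lg 0 true 21 71 71 9 0 39816) .out)) (.nx 185 205 (.lg 0 false 21 73 83 11 0 39816) .out)))
  .out) .out) (.nx 310 3329023 (.nr 309 623489 (.nx 290 1321124 (.nx 190 79 (.nr 189 17 (.lg 0 true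
  1 31 31 5 0 18960) (.l1 .sk)) (.nx 191 80 (.l1 .sk) (.nr 278 77937 (.nr 274 65537 (.nx 212 9555
  (.lg 0 false 21 97 101 11 0 398160) (.nr 245 257 (.lg 0 true 33 89 89 13 0 125136) (.nx 273
  165142 (.nr 252 1100 (.lg 2 true 7 73 73 9 25382 26544) (.nx 263 20644 (.lg 1 false 11 103 107 9
  21431 56936880) (.nr 272 46342 (.lg 2 false 9 101 103 9 7018 398160) .out))) .out))) (.nx 277
  1292 (.lg 0 true 3 89 89 7 0 56880) .out)) (.nx 289 205 (.lg 0 false 11 83 83 9 0 41712) .out))))
  (.nr 308 9 (.lg 0 true 18 67 67 9 0 11376) .out)) .out) .out)) (.na 312 4 .ne (.nx 414 10568985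
  (.nr 413 1246976 (.nx 314 79 (.nr 313 31 (.lg 0 true 1 31 31 9 0 625680) (.l1 .sk)) (.nx 315 80
  (.l1 .sk) (.nr 405 155873 (.nx 330 10321 (.nr 322 55110 (.lg 0 true 7 101 103 11 0 4379760) (.nx
  329 1292 (.lg 0 false 7 97 101 11 0 4379760) .out)) (.nr 404 65537 (.nx 373 1321124 (.nx 359
  330282 (.nr 343 694 (.lg 0 true 13 73 83 13 0 49296) (.nx 350 20642 (.lg 1 false 7 97 103 11
  19840 4379760) (.nr 352 1352 (.lg 2 true 2 83 83 9 18799 3792) (.lg 2 false 7 103 109 11 9920
  56936880)))) (.nr 372 183 (.lg 0 true 13 73 83 13 0 49296) .out)) (.nr 403 21 (.lg 0 true 30 73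
  83 11 0 56880) .out)) .out)) (.nx 412 205 (.lg 0 false 7 83 83 11 0 26544) .out)))) .out) .out)))
  (.na 505 8 (.na 504 6 (.nx 503 10568985 (.nr 502 1482912 (.nx 418 80 (.nx 417 79 (.nr 416 37 (.lg
  0 true 1 29 29 9 0 56880) (.l1 .sk)) (.l1 .sk)) (.nr 489 65537 (.nx 460 1321124 (.nx 430 10321
  (.lg 0 false 12 89 97 16 0 56880) (.nr 442 422 (.lg 0 true 12 89 89 16 0 56880) (.nx 459 262145
  (.nr 446 3130 (.lg 2 true 4 83 83 13 24538 18960) (.nx 450 23170 (.lg 1 false 4 101 103 13 19840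
  4379760) (.nx 454 52017 (.lg 1 true 4 101 103 13 8838 4379760) (.nr 458 38969 (.lg 2 false 4 89
  89 13 3309 18960) .out)))) .out))) (.nr 488 24 (.lg 0 true 28 73 73 16 0 132720) .out)) (.nx 501
  205 (.lg 0 false 12 73 83 16 0 56880) .out))) .out) .out) .ne) (.na 567 9 (.nx 566 10568985 (.nr
  565 623489 (.nx 507 79 (.nr 506 57 (.lg 0 true 1 29 29 11 0 18960) (.l1 .sk)) (.nx 508 80 (.l1
  .sk) (.nr 561 220437 (.nr 557 77937 (.nx 535 1321124 (.nx 515 9411 (.lg 0 false 7 89 89 13 0
  132720) (.nr 534 65537 (.nr 522 364 (.lg 0 true 7 83 83 13 0 26544) (.nx 533 208065 (.nx 525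
  19712 (.lg 1 false 3 89 97 13 21759 56880) (.nx 528 41287 (.lg 1 true 3 89 97 13 10388 56880)
  (.nr 532 46342 (.nr 530 2504 (.lg 2 true 2 73 83 11 22579 18960) (.lg 2 false 2 89 89 11 3509
  18960)) .out))) .out)) .out)) (.nr 556 55 (.lg 0 true 21 73 89 13 0 398160) .out)) (.nx 560 814
  (.lg 0 false 3 89 89 13 0 56880) .out)) (.nx 564 408 (.lg 0 false 3 89 89 13 0 56880) .out))))
  .out) .out) (.na 568 10 .ne (.nx 612 1321124 (.nr 611 623489 (.nr 569 5 .s1 (.nx 572 80 (.nx 571
  79 (.nr 570 69 (.lg 0 true 1 19 19 11 0 18960) (.l1 .sk)) (.l1 .sk)) (.nx 587 20644 (.nr 579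
  77937 (.lg 0 false 7 89 97 13 0 132720) (.nx 586 814 (.lg 0 false 7 73 83 13 0 132720) .out))
  (.nr 610 55110 (.nx 602 330282 (.nr 594 766 (.lg 0 true 7 73 73 13 0 132720) (.nx 601 165142 (.lg
  2 false 7 73 89 13 8516 132720) .out)) (.nr 609 65 (.lg 0 true 7 67 67 13 0 132720) .out))
  .out)))) .out) .out))))) (.na 716 19 (.na 651 13 (.na 650 12 (.nx 649 1321124 (.nr 648 623489
  (.nr 614 7 .s1 (.nx 617 80 (.nx 616 79 (.nr 615 76 (.lg 0 false 1 23 23 9 0 208560) (.l1 .sk))
  (.l1 .sk)) (.nr 640 77937 (.nx 624 20644 (.lg 0 false 7 97 97 16 0 1459920) (.nr 639 55110 (.nr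
  634 766 (.nx 628 330282 (.lg 0 true 4 73 73 16 0 41712) (.nr 633 65 (.lg 0 true 5 67 67 16 0
  104280) .out)) (.nx 638 165142 (.lg 2 false 4 89 89 16 8516 208560) .out)) .out)) (.nx 647 814
  (.lg 0 false 7 73 83 16 0 145992) .out)))) .out) .out) .ne) (.na 686 16 (.nx 685 1321124 (.nr 684
  623489 (.nr 652 10 .s1 (.nx 678 330282 (.nx 654 79 (.nr 653 101 (.lg 0 false 1 23 23 9 0 739440)
  (.l1 .sk)) (.nx 655 80 (.l1 .sk) (.nx 656 324 (.l1 (.ls 83 41 7585)) (.nr 677 220437 (.nr 673
  92683 (.nx 663 20644 (.lg 0 false 7 97 101 16 0 5176080) (.nr 672 55110 (.nr 667 766 (.lg 0 true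
  4 73 73 16 0 49296) (.nx 671 165142 (.lg 2 false 4 89 89 16 8516 246480) .out)) .out)) (.nx 676
  814 (.lg 0 false 3 71 71 11 0 73944) .out)) .out)))) (.nr 683 65 (.lg 0 true 5 61 61 16 0 123240)
  .out))) .out) .out) (.na 715 17 (.nx 714 1321124 (.nr 713 1048577 (.nr 687 14 .s1 (.nx 709 165142
  (.nx 699 8193 (.nx 689 79 (.nr 688 107 (.l1 (.ls 23 29 393)) (.l1 .sk)) (.nx 690 80 (.l1 .sk)
  (.nr 693 131073 (.lg 0 false 3 97 97 13 0 56880) (.nx 698 814 (.nr 694 220437 (.lg 0 false 1 83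
  83 11 0 3792) (.nx 697 324 (.lg 0 false 3 73 83 13 0 11376) .out)) .out)))) (.nr 708 65537 (.nr
  702 1569 (.lg 0 true 3 73 83 13 0 11376) (.nx 705 26009 (.lg 1 false 3 89 97 13 24993 56880) (.nr
  707 46342 (.lg 2 false 2 89 89 13 5570 132720) .out))) .out)) (.nr 712 183 (.lg 0 true 3 73 73 13
  0 11376) .out))) .out) .out) .ne))) (.na 769 22 (.na 743 20 (.nx 742 1321124 (.nr 741 1048577
  (.nr 717 17 .s1 (.nx 723 324 (.nx 719 79 (.nr 718 126 (.l1 (.ls 17 17 331)) (.l1 .sk)) (.nx 720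
  80 (.l1 .sk) (.nx 721 205 (.l1 (.ls 83 31 1878)) (.nr 722 623489 (.l1 (.ls 83 37 3316)) .out))))
  (.nr 740 220437 (.nx 727 10323 (.lg 0 false 4 97 97 16 0 18960) (.nr 739 55110 (.nr 734 498 (.lg
  0 true 7 73 73 16 0 13272) (.nx 738 165142 (.lg 2 false 4 89 89 16 16684 3792) .out)) .out))
  .out))) .out) .out) (.nx 768 1321124 (.nr 767 1048577 (.nr 744 18 .s1 (.nx 747 80 (.nx 746 79
  (.nr 745 139 (.l1 (.ls 23 29 315)) (.l1 .sk)) (.l1 .sk)) (.nx 763 165142 (.nx 748 205 (.l1 (.ls
  89 41 1784)) (.nr 762 623489 (.nx 749 324 (.l1 (.ls 83 43 3150)) (.nr 761 220437 (.nx 754 10323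
  (.nr 752 131073 (.lg 0 false 3 89 97 19 0 56880) (.nx 753 814 (.lg 0 false 1 71 71 13 0 18960)
  .out)) (.nr 760 55110 (.nr 757 1360 (.lg 0 true 3 73 73 19 0 56880) (.nx 758 20644 (.lg 1 false 1
  89 89 13 16684 18960) (.nr 759 38969 (.lg 2 true 1 89 89 13 5903 18960) .out))) .out)) .out))
  .out)) (.nr 766 183 (.lg 0 true 3 71 71 19 0 56880) .out)))) .out) .out)) (.na 795 23 (.nx 794
  1321124 (.nr 793 1048577 (.nr 770 21 .s1 (.nx 772 79 (.nr 771 145 (.l1 (.ls 19 29 286)) (.l1
  .sk)) (.nx 773 80 (.l1 .sk) (.nx 774 324 (.l1 (.ls 83 43 4483)) (.nr 792 220437 (.nx 781 10323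
  (.lg 0 false 7 89 97 19 0 4379760) (.nr 791 55110 (.nr 788 498 (.lg 0 true 7 73 73 19 0 291984)
  (.nx 790 165142 (.lg 2 true 2 89 89 13 16684 208560) .out)) .out)) .out))))) .out) .out) (.na 816
  25 (.nx 815 1321124 (.nr 814 1048577 (.nr 796 22 .s1 (.nx 799 80 (.nx 798 79 (.nr 797 158 (.l1
  (.ls 17 17 274)) (.l1 .sk)) (.l1 .sk)) (.nx 800 205 (.l1 (.ls 83 31 1551)) (.nr 813 185365 (.nx
  804 10323 (.lg 0 false 4 89 89 16 0 3792) (.nr 812 55110 (.nr 808 513 (.lg 0 true 4 73 73 16 0
  3792) (.nx 811 82572 (.lg 1 true 3 97 97 16 16684 56880) .out)) .out)) .out)))) .out) .out) (.nx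
  835 1321124 (.nr 834 1048577 (.nr 817 24 .s1 (.nx 826 16385 (.nx 819 79 (.nr 818 164 (.l1 (.ls 17
  19 252)) (.l1 .sk)) (.nx 820 80 (.l1 .sk) (.nx 821 205 (.l1 (.ls 73 31 1428)) (.nr 825 185365
  (.lg 0 false 4 89 89 16 0 18960) .out)))) (.nr 833 38969 (.nr 830 513 (.lg 0 true 4 71 71 16 0
  18960) (.nx 832 82572 (.lg 2 false 2 73 73 16 7437 18960) .out)) .out))) .out) .out))))))

def T107_1 : Ph :=
  (.na 588 178 (.na 346 101 (.na 178 69 (.na 90 51 (.na 38 42 (.na 19 39 (.nx 18 1664512 (.nr 17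
  881745 (.nr 1 32 .s1 (.nx 2 257 (.l1 (.ls 73 41 1945)) (.nr 16 440873 (.nx 7 20644 (.lg 0 true 5
  89 89 13 0 85680) (.nr 15 46342 (.nr 12 342 (.lg 0 true 5 67 67 13 0 12240) (.nx 14 104033 (.lg 2
  true 2 79 79 13 26362 2448) .out)) .out)) .out))) .out) .out) (.nx 37 1664512 (.nr 36 881745 (.nr
  20 37 .s1 (.nx 21 257 (.l1 (.ls 73 37 1696)) (.nr 35 440873 (.nx 26 20644 (.lg 0 false 5 89 89 19
  0 79560) (.nr 34 46342 (.nr 31 368 (.lg 0 true 5 71 71 19 0 79560) (.nx 33 104033 (.lg 2 true 2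
  83 83 17 26362 31824) .out)) .out)) .out))) .out) .out)) (.na 56 46 (.nx 55 1664512 (.nr 54
  881745 (.nr 39 41 .s1 (.nx 40 257 (.l1 (.ls 83 43 1575)) (.nr 53 440873 (.nx 45 20644 (.lg 0
  false 5 97 97 29 0 85680) (.nr 52 46342 (.nr 49 257 (.lg 0 true 4 71 71 29 0 17136) (.nx 51
  104033 (.lg 2 true 2 89 89 23 30968 85680) .out)) .out)) .out))) .out) .out) (.na 73 49 (.nx 72
  1664512 (.nr 71 881745 (.nr 57 45 .s1 (.nx 64 20644 (.nx 58 257 (.l1 (.ls 79 41 1438)) (.nr 63
  623489 (.lg 0 false 5 97 97 19 0 12240) .out)) (.nr 70 46342 (.nr 67 257 (.lg 0 true 3 67 67 13 0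
  2448) (.nx 69 104033 (.lg 2 true 2 83 83 13 30968 2448) .out)) .out))) .out) .out) (.nx 89
  1664512 (.nr 88 881745 (.nr 74 48 .s1 (.nx 81 20644 (.nx 75 257 (.l1 (.ls 73 31 1350)) (.nr 80
  623489 (.lg 0 false 5 89 89 17 0 42840) .out)) (.nr 87 46342 (.nr 84 257 (.lg 0 true 3 61 61 16 0
  8568) (.nx 86 104033 (.lg 2 true 2 83 83 16 30968 17136) .out)) .out))) .out) .out)))) (.na 143
  62 (.na 108 53 (.nx 107 1664512 (.nr 106 881745 (.nr 91 50 .s1 (.nx 98 26009 (.nx 92 257 (.l1
  (.ls 67 37 1298)) (.nr 97 623489 (.lg 0 true 5 83 83 16 0 6120) .out)) (.nr 105 32769 (.nr 102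
  465 (.lg 0 true 4 61 61 16 0 2448) (.nx 104 104033 (.lg 2 true 2 71 71 16 17116 2448) .out))
  .out))) .out) .out) (.na 125 54 (.nx 124 1664512 (.nr 123 881745 (.nr 109 52 .s1 (.nx 115 20644
  (.nx 110 257 (.l1 (.ls 79 29 1249)) (.nr 114 623489 (.lg 0 false 4 97 97 16 0 12240) .out)) (.nr
  122 46342 (.nr 119 473 (.lg 0 true 4 73 73 16 0 2448) (.nx 121 104033 (.lg 2 false 2 83 83 16
  26362 2448) .out)) .out))) .out) .out) (.nx 142 1664512 (.nr 141 881745 (.nr 126 53 .s1 (.nx 127
  257 (.l1 (.ls 83 41 1226)) (.nr 140 623489 (.nx 134 20644 (.nx 132 13005 (.lg 0 false 5 89 97 29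
  0 85680) (.nr 133 110219 (.lg 1 true 1 79 79 19 99339 2448) .out)) (.nr 139 46342 (.nr 136 257
  (.lg 0 true 2 71 71 29 0 2448) (.nx 138 104033 (.lg 1 true 2 83 83 23 30968 2448) .out)) .out))
  .out))) .out) .out))) (.na 160 64 (.nx 159 1664512 (.nr 158 881745 (.nr 144 61 .s1 (.nx 145 257
  (.l1 (.ls 83 37 1068)) (.nr 157 623489 (.nx 150 20644 (.lg 0 false 5 97 97 19 0 85680) (.nr 156
  46342 (.nr 154 561 (.lg 0 true 4 73 73 19 0 2448) (.nx 155 104033 (.lg 2 true 1 89 89 13 26362
  2448) .out)) .out)) .out))) .out) .out) (.na 161 66 .ne (.nx 177 1664512 (.nr 176 524289 (.nr 162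
  65 .s1 (.nx 165 154 (.nx 164 153 (.nr 163 605 (.l1 (.ls 29 37 357)) (.l1 .sk)) (.l1 .sk)) (.nx
  170 20644 (.lg 0 false 5 89 89 31 0 134640) (.nr 175 32769 (.nr 173 513 (.lg 0 true 3 67 67 29 0
  26928) (.nx 174 104033 (.lg 2 true 1 79 79 23 18667 26928) .out)) .out)))) .out) .out))))) (.na
  259 81 (.na 212 77 (.na 195 71 (.nx 194 1664512 (.nr 193 524289 (.nr 179 68 .s1 (.nx 187 20644
  (.nx 181 153 (.nr 180 622 (.l1 (.ls 19 19 342)) (.l1 .sk)) (.nx 182 154 (.l1 .sk) (.lg 0 false 5
  89 89 19 0 42840))) (.nr 192 32769 (.nr 190 513 (.lg 0 true 3 67 67 17 0 1224) (.nx 191 104033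
  (.lg 2 true 1 79 79 16 18667 8568) .out)) .out))) .out) .out) (.nx 211 1664512 (.nr 210 524289
  (.nr 196 70 .s1 (.nx 199 154 (.nx 198 153 (.nr 197 675 (.l1 (.ls 19 19 332)) (.l1 .sk)) (.l1
  .sk)) (.nx 204 20644 (.lg 0 false 5 89 89 16 0 6120) (.nr 209 32769 (.nr 207 513 (.lg 0 true 3 61
  61 16 0 1224) (.nx 208 104033 (.lg 2 true 1 79 79 16 18667 94248) .out)) .out)))) .out) .out))
  (.na 227 78 (.nx 226 1664512 (.nr 225 524289 (.nr 213 77 .s1 (.nx 222 104033 (.nx 220 20644 (.nx
  215 153 (.nr 214 684 (.l1 (.ls 37 23 307)) (.l1 .sk)) (.nx 216 154 (.l1 .sk) (.lg 0 false 4 89 89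
  23 0 188496))) (.nr 221 32769 (.lg 0 false 1 89 89 17 0 471240) .out)) (.nr 224 513 (.lg 0 true 2
  79 79 19 0 188496) .out))) .out) .out) (.na 242 79 (.nx 241 1664512 (.nr 240 524289 (.nr 228 78
  .s1 (.nx 234 20644 (.nx 230 153 (.nr 229 692 (.l1 (.ls 31 37 303)) (.l1 .sk)) (.nx 231 154 (.l1
  .sk) (.lg 0 false 3 97 97 29 0 1113840))) (.nr 239 32769 (.nr 237 513 (.lg 0 true 3 71 71 29 0
  31824) (.nx 238 104033 (.lg 2 true 1 79 79 23 18667 31824) .out)) .out))) .out) .out) (.nx 258
  1664512 (.nr 257 524289 (.nr 243 79 .s1 (.nx 251 20644 (.nx 245 153 (.nr 244 710 (.l1 (.ls 19 17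
  299)) (.l1 .sk)) (.nx 246 154 (.l1 .sk) (.lg 0 false 5 73 83 17 0 6120))) (.nr 256 32769 (.nr 254
  513 (.lg 0 true 3 61 61 16 0 1224) (.nx 255 104033 (.lg 2 true 1 71 71 16 18667 1224) .out))
  .out))) .out) .out)))) (.na 303 93 (.na 272 89 (.nx 271 1664512 (.nr 270 524289 (.nr 260 81 .s1
  (.nx 263 154 (.nx 262 153 (.nr 261 780 (.l1 (.ls 29 23 291)) (.l1 .sk)) (.l1 .sk)) (.nx 268
  104033 (.nr 266 65537 (.nr 264 32769 (.lg 0 true 1 83 83 17 0 1224) (.nx 265 20644 (.lg 0 true 1
  73 79 17 0 1224) .out)) (.nx 267 13005 (.lg 0 false 1 89 89 19 0 1224) .out)) (.nr 269 513 (.lg 0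
  true 1 71 71 17 0 1224) .out)))) .out) .out) (.na 287 91 (.nx 286 1664512 (.nr 285 524289 (.nr
  273 89 .s1 (.nx 276 154 (.nx 275 153 (.nr 274 798 (.l1 (.ls 16 17 266)) (.l1 .sk)) (.l1 .sk))
  (.nx 281 20644 (.lg 0 false 5 73 79 17 0 6120) (.nr 284 32769 (.nr 282 513 (.lg 0 false 1 67 67
  16 0 1224) (.nx 283 104033 (.lg 2 true 1 67 67 16 18667 1224) .out)) .out)))) .out) .out) (.nx
  302 1664512 (.nr 301 1048577 (.nr 288 91 .s1 (.nx 291 154 (.nx 290 153 (.nr 289 815 (.l1 (.ls 31
  23 260)) (.l1 .sk)) (.l1 .sk)) (.nx 296 20644 (.lg 0 false 5 89 97 29 0 556920) (.nr 300 32769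
  (.nr 298 513 (.lg 0 true 2 73 73 19 0 222768) (.nx 299 104033 (.lg 2 true 1 79 79 19 18667
  111384) .out)) .out)))) .out) .out))) (.na 317 98 (.nx 316 1664512 (.nr 315 1048577 (.nr 304 93
  .s1 (.nx 311 20644 (.nx 306 153 (.nr 305 859 (.l1 (.ls 23 23 254)) (.l1 .sk)) (.nx 307 154 (.l1
  .sk) (.lg 0 false 4 89 89 19 0 2448))) (.nr 314 32769 (.nr 312 513 (.lg 0 false 1 73 73 16 0
  1224) (.nx 313 104033 (.lg 2 true 1 73 73 16 18667 1224) .out)) .out))) .out) .out) (.na 332 99
  (.nx 331 1664512 (.nr 330 1048577 (.nr 318 98 .s1 (.nx 321 154 (.nx 320 153 (.nr 319 868 (.l1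
  (.ls 29 29 241)) (.l1 .sk)) (.l1 .sk)) (.nx 326 20644 (.lg 0 false 5 89 89 29 0 85680) (.nr 329
  32769 (.nr 327 513 (.lg 0 false 1 73 73 19 0 17136) (.nx 328 104033 (.lg 2 true 1 73 73 19 18667
  85680) .out)) .out)))) .out) .out) (.nx 345 1664512 (.nr 344 1048577 (.nr 333 99 .s1 (.nx 336 154
  (.nx 335 153 (.nr 334 885 (.l1 (.ls 31 23 239)) (.l1 .sk)) (.l1 .sk)) (.nx 338 13005 (.lg 0 false
  2 97 101 23 0 188496) (.nr 343 65537 (.nx 341 104033 (.nr 339 32769 (.lg 0 true 1 89 89 23 0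
  94248) (.nx 340 20644 (.lg 0 false 1 73 73 23 0 94248) .out)) (.nr 342 513 (.lg 0 true 1 71 71 23
  0 13464) .out)) .out)))) .out) .out)))))) (.na 479 142 (.na 420 121 (.na 379 106 (.na 362 102
  (.nx 361 1664512 (.nr 360 1048577 (.nr 347 101 .s1 (.nx 350 154 (.nx 349 153 (.nr 348 894 (.l1
  (.ls 19 17 234)) (.l1 .sk)) (.l1 .sk)) (.nx 355 20644 (.lg 0 false 5 83 83 17 0 6120) (.nr 359
  32769 (.nr 357 513 (.lg 0 true 2 61 61 16 0 2448) (.nx 358 104033 (.lg 2 true 1 71 71 16 18667
  1224) .out)) .out)))) .out) .out) (.nx 378 1664512 (.nr 377 1048577 (.nr 363 102 .s1 (.nx 366 154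
  (.nx 365 153 (.nr 364 929 (.l1 (.ls 16 37 232)) (.l1 .sk)) (.l1 .sk)) (.nx 371 20644 (.lg 0 false
  5 79 79 31 0 12240) (.nr 376 32769 (.nr 373 513 (.lg 0 false 2 67 67 29 0 12240) (.nx 375 104033
  (.lg 2 true 2 61 61 29 18667 2448) .out)) .out)))) .out) .out)) (.na 394 107 (.nx 393 1664512
  (.nr 392 1048577 (.nr 380 106 .s1 (.nx 388 20644 (.nx 382 153 (.nr 381 938 (.l1 (.ls 19 23 223))
  (.l1 .sk)) (.nx 383 154 (.l1 .sk) (.lg 0 false 5 89 89 23 0 85680))) (.nr 391 32769 (.nr 389 513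
  (.lg 0 false 1 73 73 19 0 17136) (.nx 390 104033 (.lg 2 true 1 73 73 19 18667 17136) .out))
  .out))) .out) .out) (.na 408 117 (.nx 407 1664512 (.nr 406 1048577 (.nr 395 107 .s1 (.nx 402
  20644 (.nx 397 153 (.nr 396 1025 (.l1 (.ls 23 17 221)) (.l1 .sk)) (.nx 398 154 (.l1 .sk) (.lg 0
  false 4 83 83 17 0 2448))) (.nr 405 32769 (.nr 403 513 (.lg 0 false 1 71 71 16 0 1224) (.nx 404
  104033 (.lg 2 true 1 71 71 16 18667 1224) .out)) .out))) .out) .out) (.nx 419 1664512 (.nr 418
  1048577 (.nr 409 117 .s1 (.nx 412 154 (.nx 411 153 (.nr 410 1060 (.l1 (.ls 37 23 203)) (.l1 .sk))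
  (.l1 .sk)) (.nr 415 65537 (.nx 413 104033 (.lg 0 true 1 97 101 23 0 556920) (.nr 414 513 (.lg 0
  true 1 71 71 23 0 15912) .out)) (.nx 417 13005 (.lg 0 false 2 97 101 29 0 1113840) .out)))) .out)
  .out)))) (.na 448 131 (.na 435 126 (.nx 434 1664512 (.nr 433 1048577 (.nr 421 121 .s1 (.nx 424
  154 (.nx 423 153 (.nr 422 1104 (.l1 (.ls 19 19 196)) (.l1 .sk)) (.l1 .sk)) (.nx 429 20644 (.lg 0
  false 5 79 79 19 0 67320) (.nr 432 32769 (.nr 430 513 (.lg 0 false 1 67 67 17 0 13464) (.nx 431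
  104033 (.lg 2 true 1 67 67 17 18667 13464) .out)) .out)))) .out) .out) (.na 447 128 (.nx 446
  1664512 (.nr 445 1048577 (.nr 436 126 .s1 (.nx 439 154 (.nx 438 153 (.nr 437 1122 (.l1 (.ls 31 31
  188)) (.l1 .sk)) (.l1 .sk)) (.nx 443 104033 (.nr 440 65537 (.lg 0 true 1 97 97 31 0 188496) (.nx
  442 13005 (.lg 0 false 2 89 97 37 0 188496) .out)) (.nr 444 513 (.lg 0 true 1 71 71 31 0 17136)
  .out)))) .out) .out) .ne)) (.na 458 138 (.nx 457 832257 (.nr 456 1048577 (.nr 449 131 .s1 (.nx
  450 257 (.l1 (.ls 67 19 507)) (.nr 455 741457 (.nx 451 13005 (.lg 0 true 1 83 83 16 0 8568) (.nr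
  454 16385 (.nr 452 1025 (.lg 0 false 1 67 67 16 0 8568) (.nx 453 104033 (.lg 2 true 1 59 59 16
  14885 1224) .out)) .out)) .out))) .out) .out) (.na 469 139 (.nx 468 832257 (.nr 467 1048577 (.nr
  459 138 .s1 (.nx 463 13005 (.nx 460 257 (.l1 (.ls 73 41 481)) (.nr 462 741457 (.lg 0 false 2 83
  83 31 0 2448) .out)) (.nr 466 16385 (.nr 464 1025 (.lg 0 false 1 73 73 19 0 2448) (.nx 465 104033
  (.lg 2 true 1 67 67 19 14885 2448) .out)) .out))) .out) .out) (.nx 478 832257 (.nr 477 1048577
  (.nr 470 139 .s1 (.nx 473 13005 (.nx 471 257 (.l1 (.ls 67 19 478)) (.nr 472 741457 (.lg 0 true 1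
  79 79 16 0 1224) .out)) (.nr 476 16385 (.nr 474 1025 (.lg 0 false 1 67 67 16 0 8568) (.nx 475
  104033 (.lg 2 false 1 59 59 16 14885 8568) .out)) .out))) .out) .out))))) (.na 539 157 (.na 509
  149 (.na 489 143 (.nx 488 832257 (.nr 487 1048577 (.nr 480 142 .s1 (.nx 483 13005 (.nx 481 257
  (.l1 (.ls 67 29 468)) (.nr 482 741457 (.lg 0 true 1 97 97 19 0 85680) .out)) (.nr 486 16385 (.nr
  484 1025 (.lg 0 false 1 73 73 19 0 2448) (.nx 485 104033 (.lg 2 true 1 61 61 19 14885 2448)
  .out)) .out))) .out) .out) (.na 499 147 (.nx 498 832257 (.nr 497 1048577 (.nr 490 143 .s1 (.nx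
  491 257 (.l1 (.ls 79 29 464)) (.nr 496 741457 (.nx 492 13005 (.lg 0 true 1 89 89 19 0 875160)
  (.nr 495 16385 (.nr 493 1025 (.lg 0 true 1 71 71 19 0 175032) (.nx 494 104033 (.lg 2 false 1 67
  67 19 14885 175032) .out)) .out)) .out))) .out) .out) (.nx 508 832257 (.nr 507 1048577 (.nr 500
  147 .s1 (.nx 503 13005 (.nx 501 257 (.l1 (.ls 71 29 452)) (.nr 502 741457 (.lg 0 true 1 83 83 19
  0 42840) .out)) (.nr 506 16385 (.nr 504 1025 (.lg 0 false 1 67 67 19 0 42840) (.nx 505 104033
  (.lg 2 false 1 59 59 19 14885 8568) .out)) .out))) .out) .out))) (.na 519 153 (.nx 518 832257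
  (.nr 517 1048577 (.nr 510 149 .s1 (.nx 513 13005 (.nx 511 257 (.l1 (.ls 67 19 446)) (.nr 512
  741457 (.lg 0 true 1 79 79 16 0 1224) .out)) (.nr 516 16385 (.nr 514 1025 (.lg 0 false 1 61 61 16
  0 1224) (.nx 515 104033 (.lg 2 true 1 59 59 16 14885 1224) .out)) .out))) .out) .out) (.na 529
  154 (.nx 528 832257 (.nr 527 1048577 (.nr 520 153 .s1 (.nx 521 257 (.l1 (.ls 71 29 434)) (.nr 526
  741457 (.nx 522 13005 (.lg 0 true 1 83 83 23 0 42840) (.nr 525 16385 (.nr 523 1025 (.lg 0 false 1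
  71 71 23 0 42840) (.nx 524 104033 (.lg 2 false 1 59 59 23 14885 1224) .out)) .out)) .out))) .out)
  .out) (.nx 538 832257 (.nr 537 1048577 (.nr 530 154 .s1 (.nx 531 257 (.l1 (.ls 79 37 431)) (.nr
  536 741457 (.nx 532 13005 (.lg 0 true 1 89 89 31 0 188496) (.nr 535 16385 (.nr 533 1025 (.lg 0
  true 1 71 71 31 0 188496) (.nx 534 104033 (.lg 2 false 1 67 67 31 14885 188496) .out)) .out))
  .out))) .out) .out)))) (.na 569 163 (.na 549 158 (.nx 548 832257 (.nr 547 1048577 (.nr 540 157
  .s1 (.nx 541 257 (.l1 (.ls 67 19 423)) (.nr 546 741457 (.nx 542 13005 (.lg 0 true 1 83 83 16 0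
  6120) (.nr 545 16385 (.nr 543 1025 (.lg 0 false 1 67 67 16 0 6120) (.nx 544 104033 (.lg 2 true 1
  59 59 16 14885 1224) .out)) .out)) .out))) .out) .out) (.na 559 162 (.nx 558 832257 (.nr 557
  1048577 (.nr 550 158 .s1 (.nx 553 13005 (.nx 551 257 (.l1 (.ls 71 29 421)) (.nr 552 741457 (.lg 0
  true 1 89 89 19 0 12240) .out)) (.nr 556 16385 (.nr 554 1025 (.lg 0 false 1 67 67 19 0 12240)
  (.nx 555 104033 (.lg 2 true 1 59 59 19 14885 2448) .out)) .out))) .out) .out) (.nx 568 832257
  (.nr 567 1048577 (.nr 560 162 .s1 (.nx 565 104033 (.nx 563 13005 (.nx 561 257 (.l1 (.ls 79 31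
  410)) (.nr 562 741457 (.lg 0 false 1 97 97 31 0 85680) .out)) (.nr 564 16385 (.lg 0 true 1 83 83
  29 0 85680) .out)) (.nr 566 1025 (.lg 0 true 1 73 73 29 0 2448) .out))) .out) .out))) (.na 579
  167 (.nx 578 832257 (.nr 577 1048577 (.nr 570 163 .s1 (.nx 573 13005 (.nx 571 257 (.l1 (.ls 71 19
  408)) (.nr 572 741457 (.lg 0 true 1 83 83 16 0 42840) .out)) (.nr 576 16385 (.nr 574 1025 (.lg 0
  false 1 67 67 16 0 1224) (.nx 575 104033 (.lg 2 true 1 59 59 16 14885 1224) .out)) .out))) .out)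
  .out) (.na 587 173 (.nx 586 832257 (.nr 585 1048577 (.nr 580 167 .s1 (.nx 581 257 (.l1 (.ls 67 19
  398)) (.nr 584 741457 (.nr 582 16385 (.lg 0 false 1 83 83 16 0 42840) (.nx 583 13005 (.lg 0 true
  1 79 79 16 0 1224) .out)) .out))) .out) .out) (.lg 0 false 1 0 0 16 0 24))))))) (.na 765 239 (.na
  661 207 (.na 616 187 (.na 597 181 (.na 596 179 (.nx 595 832257 (.nr 594 1048577 (.nr 589 178 .s1
  (.nx 590 257 (.l1 (.ls 71 29 374)) (.nr 593 741457 (.nr 591 16385 (.lg 0 false 1 89 89 19 0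
  12240) (.nx 592 13005 (.lg 0 true 1 89 89 19 0 12240) .out)) .out))) .out) .out) (.lg 0 false 1 0
  0 16 0 24)) (.na 598 182 (.lg 0 false 1 0 0 16 0 24) (.na 608 186 (.nx 607 832257 (.nr 606
  1048577 (.nr 599 182 .s1 (.nx 600 257 (.l1 (.ls 79 37 365)) (.nr 605 741457 (.nx 601 13005 (.lg 0
  true 1 97 97 31 0 12252240) (.nr 604 16385 (.nr 602 1025 (.lg 0 true 1 71 71 31 0 222768) (.nx
  603 104033 (.lg 2 true 1 71 71 31 14885 222768) .out)) .out)) .out))) .out) .out) (.nx 615 832257
  (.nr 614 1048577 (.nr 609 186 .s1 (.nx 610 257 (.l1 (.ls 67 37 358)) (.nr 613 741457 (.nr 611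
  16385 (.lg 0 false 1 83 83 29 0 2448) (.nx 612 13005 (.lg 0 true 1 83 83 29 0 2448) .out))
  .out))) .out) .out)))) (.na 635 198 (.na 624 189 (.nx 623 832257 (.nr 622 1048577 (.nr 617 187
  .s1 (.nx 618 257 (.l1 (.ls 71 29 356)) (.nr 621 741457 (.nr 619 16385 (.lg 0 false 1 83 83 16 0
  13464) (.nx 620 13005 (.lg 0 true 1 83 83 16 0 471240) .out)) .out))) .out) .out) (.na 634 197
  (.nx 633 832257 (.nr 632 1048577 (.nr 625 189 .s1 (.nx 628 13005 (.nx 626 257 (.l1 (.ls 79 29
  352)) (.nr 627 741457 (.lg 0 false 1 83 89 23 0 8568) .out)) (.nr 631 16385 (.nr 629 1025 (.lg 0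
  true 1 71 71 29 0 8568) (.nx 630 104033 (.lg 1 true 1 73 73 23 14885 8568) .out)) .out))) .out)
  .out) (.lg 0 false 1 0 0 16 0 24))) (.na 645 199 (.nx 644 832257 (.nr 643 1048577 (.nr 636 198
  .s1 (.nx 637 257 (.l1 (.ls 79 37 336)) (.nr 642 741457 (.nx 638 13005 (.lg 0 false 1 89 89 37 0
  26928) (.nr 641 16385 (.nx 639 104033 (.lg 0 true 1 79 79 37 0 26928) (.nr 640 1025 (.lg 0 true 1
  73 73 37 0 26928) .out)) .out)) .out))) .out) .out) (.na 653 202 (.nx 652 832257 (.nr 651 1048577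
  (.nr 646 199 .s1 (.nx 647 257 (.l1 (.ls 59 19 334)) (.nr 650 741457 (.nr 648 16385 (.lg 0 false 1
  73 73 16 0 1224) (.nx 649 13005 (.lg 0 true 1 73 73 16 0 1224) .out)) .out))) .out) .out) (.nx
  660 832257 (.nr 659 1048577 (.nr 654 202 .s1 (.nx 655 257 (.l1 (.ls 79 29 329)) (.nr 658 741457
  (.nr 656 16385 (.lg 0 false 1 83 83 23 0 2448) (.nx 657 13005 (.lg 0 true 1 83 83 23 0 85680)
  .out)) .out))) .out) .out))))) (.na 713 227 (.na 687 214 (.na 671 211 (.nx 670 832257 (.nr 669
  1048577 (.nr 662 207 .s1 (.nx 667 104033 (.nx 665 13005 (.nx 663 257 (.l1 (.ls 79 19 322)) (.nr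
  664 741457 (.lg 0 false 1 89 89 19 0 6120) .out)) (.nr 666 16385 (.lg 0 true 1 79 79 19 0 6120)
  .out)) (.nr 668 1025 (.lg 0 true 1 71 71 19 0 1224) .out))) .out) .out) (.na 679 213 (.nx 678
  832257 (.nr 677 1048577 (.nr 672 211 .s1 (.nx 675 13005 (.nx 673 257 (.l1 (.ls 61 19 316)) (.nr
  674 741457 (.lg 0 true 1 79 79 16 0 8568) .out)) (.nr 676 16385 (.lg 0 false 1 79 79 16 0 8568)
  .out))) .out) .out) (.nx 686 832257 (.nr 685 1048577 (.nr 680 213 .s1 (.nx 681 257 (.l1 (.ls 67
  23 313)) (.nr 684 741457 (.nr 682 16385 (.lg 0 false 1 83 83 19 0 6120) (.nx 683 13005 (.lg 0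
  true 1 79 79 19 0 1224) .out)) .out))) .out) .out))) (.na 695 217 (.nx 694 832257 (.nr 693
  1048577 (.nr 688 214 .s1 (.nx 689 257 (.l1 (.ls 67 29 311)) (.nr 692 741457 (.nr 690 16385 (.lg 0
  false 1 79 79 23 0 2448) (.nx 691 13005 (.lg 0 true 1 79 79 23 0 26928) .out)) .out))) .out)
  .out) (.na 705 221 (.nx 704 832257 (.nr 703 1048577 (.nr 696 217 .s1 (.nx 697 257 (.l1 (.ls 73 23
  307)) (.nr 702 741457 (.nx 698 13005 (.lg 0 true 1 83 83 19 0 42840) (.nr 701 16385 (.nr 699 1025
  (.lg 0 true 1 67 67 19 0 8568) (.nx 700 104033 (.lg 2 false 1 61 61 19 14885 8568) .out)) .out))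
  .out))) .out) .out) (.nx 712 832257 (.nr 711 1048577 (.nr 706 221 .s1 (.nx 707 257 (.l1 (.ls 61
  29 301)) (.nr 710 741457 (.nr 708 16385 (.lg 0 false 1 79 79 19 0 15912) (.nx 709 13005 (.lg 0
  true 1 73 73 19 0 15912) .out)) .out))) .out) .out)))) (.na 739 234 (.na 721 229 (.nx 720 832257
  (.nr 719 1048577 (.nr 714 227 .s1 (.nx 715 257 (.l1 (.ls 67 19 293)) (.nr 718 741457 (.nr 716
  16385 (.lg 0 false 1 79 79 17 0 6120) (.nx 717 13005 (.lg 0 true 1 73 73 17 0 1224) .out))
  .out))) .out) .out) (.na 729 231 (.nx 728 832257 (.nr 727 1048577 (.nr 722 229 .s1 (.nx 723 257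
  (.l1 (.ls 61 19 291)) (.nr 726 741457 (.nr 724 16385 (.lg 0 false 1 73 73 17 0 1224) (.nx 725
  13005 (.lg 0 true 1 73 73 17 0 1224) .out)) .out))) .out) .out) (.nx 738 832257 (.nr 737 1048577
  (.nr 730 231 .s1 (.nx 733 13005 (.nx 731 257 (.l1 (.ls 71 31 288)) (.nr 732 741457 (.lg 0 false 1
  79 79 29 0 94248) .out)) (.nr 736 16385 (.nr 734 1025 (.lg 0 true 1 61 61 29 0 94248) (.nx 735
  104033 (.lg 2 false 1 61 61 29 14885 94248) .out)) .out))) .out) .out))) (.na 749 237 (.nx 748
  832257 (.nr 747 1048577 (.nr 740 234 .s1 (.nx 745 104033 (.nx 741 257 (.l1 (.ls 73 37 285)) (.nr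
  744 741457 (.nx 742 13005 (.lg 0 false 1 83 83 37 0 31824) (.nr 743 16385 (.lg 0 true 1 73 73 37
  0 31824) .out)) .out)) (.nr 746 1025 (.lg 0 true 1 67 67 37 0 31824) .out))) .out) .out) (.na 757
  238 (.nx 756 832257 (.nr 755 1048577 (.nr 750 237 .s1 (.nx 751 257 (.l1 (.ls 73 23 281)) (.nr 754
  741457 (.nr 752 16385 (.lg 0 false 1 83 83 19 0 1224) (.nx 753 13005 (.lg 0 true 1 83 83 19 0
  1224) .out)) .out))) .out) .out) (.nx 764 832257 (.nr 763 1048577 (.nr 758 238 .s1 (.nx 759 257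
  (.l1 (.ls 71 37 280)) (.nr 762 741457 (.nr 760 16385 (.lg 0 false 1 83 83 31 0 85680) (.nx 761
  13005 (.lg 0 true 1 79 79 31 0 85680) .out)) .out))) .out) .out)))))) (.na 3607 1449 (.na 786 253
  (.na 767 242 (.na 766 241 (.lg 0 false 1 0 0 16 0 24) (.lg 0 false 1 0 0 16 0 24)) (.na 775 243
  (.nx 774 832257 (.nr 773 1048577 (.nr 768 242 .s1 (.nx 769 257 (.l1 (.ls 71 31 275)) (.nr 772
  741457 (.nr 770 16385 (.lg 0 false 1 83 83 29 0 134640) (.nx 771 13005 (.lg 0 true 1 79 79 29 0
  26928) .out)) .out))) .out) .out) (.na 785 251 (.nx 784 832257 (.nr 783 1048577 (.nr 776 243 .s1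
  (.nx 777 257 (.l1 (.ls 73 23 274)) (.nr 782 741457 (.nx 778 13005 (.lg 0 false 1 83 89 29 0
  42840) (.nr 781 16385 (.nr 779 1025 (.lg 2 true 1 59 59 23 262007 1224) (.nx 780 104033 (.lg 2
  true 1 59 61 23 14885 1224) .out)) .out)) .out))) .out) .out) (.lg 0 false 1 0 0 16 0 24)))) (.na
  1515 512 (.na 794 256 (.nx 793 832257 (.nr 792 1048577 (.nr 787 253 .s1 (.nx 788 257 (.l1 (.ls 79
  19 264)) (.nr 791 741457 (.nr 789 16385 (.lg 0 false 1 89 89 19 0 471240) (.nx 790 13005 (.lg 0
  true 1 89 89 19 0 471240) .out)) .out))) .out) .out) (.na 795 257 .ne (.nx 1514 832257 (.nr 1513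
  1482912 (.nr 796 257 .s1 (.nx 950 154 (.nx 949 153 (.nr 948 4486 (.lx (.lp 43 19 129)) (.l1 .sk))
  (.l1 .sk)) (.nx 1001 205 (.lx (.lp 83 17 129)) (.nr 1512 1048577 (.nr 1256 32769 (.la (.lg 0
  false 1 79 79 23 0)) (.nx 1511 10323 (.la (.lg 0 true 1 73 73 23 0)) .out)) .out)))) .out)
  .out))) (.na 2151 725 (.nx 2150 832257 (.nr 2149 1482912 (.nr 1516 512 .s1 (.nx 1670 154 (.nx
  1669 153 (.nr 1668 6352 (.lx (.lp 47 19 182)) (.l1 .sk)) (.l1 .sk)) (.nx 1721 205 (.lx (.lp 41 0
  182)) (.nr 2148 1048577 (.nx 1934 22297 (.la (.lg 0 false 1 73 73 29 0)) (.nr 2147 32769 (.la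
  (.lg 2 false 1 67 67 29 124351)) .out)) .out)))) .out) .out) (.na 2753 1024 (.nx 2752 10323 (.nr
  2751 1048577 (.nr 2152 725 .s1 (.nx 2451 2049 (.la (.ls 71 41 5793)) (.nr 2750 16385 (.la (.lg 0
  true 1 41 41 29 0)) .out))) .out) .out) (.nx 3606 10323 (.nr 3605 1048577 (.nr 2754 1024 .s1 (.nx
  3179 2582 (.la (.ls 67 41 6513)) (.nr 3604 16385 (.la (.lg 0 false 1 37 37 31 0)) .out))) .out)
  .out))))) (.na 11020 16384 (.na 6417 4096 (.na 4209 2048 (.nx 4208 2582 (.nr 4207 524289 (.nr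
  3608 1449 .s1 (.la (.ls 61 37 4603))) .out) .out) (.na 5061 2897 (.nx 5060 3252 (.nr 5059 524289
  (.nr 4210 2048 .s1 (.la (.ls 61 41 5166))) .out) .out) (.nx 6416 2582 (.nr 6415 262145 (.nr 5062
  2897 .s1 (.nx 5215 153 (.nr 5214 35885 (.lx (.lp 47 29 1025)) (.l1 .sk)) (.nx 5216 154 (.l1 .sk)
  (.la (.ls 59 37 2296))))) .out) .out))) (.na 8431 5793 (.nx 8430 2582 (.nr 8429 262145 (.nr 6418
  4096 .s1 (.nx 6732 315 (.lx (.lp 61 31 1449)) (.la (.ls 53 37 1606)))) .out) .out) (.na 9725 8192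
  (.nx 9724 1292 (.nr 9723 65537 (.nr 8432 5793 .s1 (.lx (.lp 47 37 2049))) .out) .out) (.nx 11019
  1292 (.nr 11018 131073 (.nr 9726 8192 .s1 (.nx 9930 205 (.lx (.lp 53 37 4097)) (.nr 11017 65537
  (.lx (.lp 43 41 4097)) .out))) .out) .out)))) (.na 14371 131072 (.na 12315 32768 (.nx 12314 1292
  (.nr 12313 262145 (.nr 11021 16384 .s1 (.nx 11225 205 (.lx (.lp 47 43 8193)) (.nr 12312 131073
  (.lx (.lp 47 43 8193)) .out))) .out) .out) (.na 13343 65536 (.nx 13342 1025 (.nr 13341 262145
  (.nr 12316 32768 .s1 (.nx 12520 205 (.lx (.lp 16 0 16385)) (.nr 13340 131073 (.lx (.lp 43 47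
  16385)) .out))) .out) .out) (.nx 14370 1025 (.nr 14369 262145 (.nr 13344 65536 .s1 (.nx 13667 324
  (.lx (.lp 16 47 32769)) (.nr 14368 131073 (.lx (.lp 41 53 32769)) .out))) .out) .out))) (.na
  14373 262144 (.nx 14372 324 (.l1 .sk) .out) (.na 14375 524289 (.nx 14374 205 (.l1 .sk) .out)
  .out)))))))

def T107_2 : Ph :=
  (.na 476 128 (.na 333 36 (.na 224 12 (.na 138 5 (.na 72 3 (.na 1 2 .ne (.nx 71 660563 (.nr 70
  623489 (.nx 4 37 (.nx 3 36 (.nr 2 12 (.lg 0 true 1 23 23 5 0 720) (.l1 .sk)) (.l1 .sk)) (.nx 55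
  104033 (.nr 40 131073 (.nr 32 27556 (.nx 18 4882 (.lg 0 false 14 83 83 9 0 5040) (.nr 25 613 (.lg
  0 false 7 83 83 9 0 5040) (.lg 2 false 7 89 89 9 3663 5040))) (.nx 39 647 (.lg 0 false 7 83 83 9
  0 1008) .out)) (.nx 54 103 (.lg 0 false 14 73 73 9 0 1008) .out)) (.nr 69 154 (.lg 0 true 14 79
  79 9 0 1008) .out))) .out) .out)) (.na 73 4 .ne (.nx 137 660563 (.nr 136 1246976 (.nx 128 330282
  (.nx 111 6503 (.nx 75 36 (.nr 74 21 (.lg 0 true 1 19 19 9 0 720) (.l1 .sk)) (.nx 76 37 (.l1 .sk)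
  (.nr 87 55110 (.lg 0 false 11 89 89 13 0 7920) (.nx 110 647 (.nr 98 440873 (.lg 0 false 11 83 89
  13 0 7920) (.nx 109 103 (.lg 0 false 11 73 73 13 0 1584) .out)) .out)))) (.nr 127 19485 (.nr 122
  618 (.lg 0 true 11 79 79 13 0 1584) (.nr 124 2458 (.lg 2 false 2 79 79 9 9620 144) (.lg 2 false 3
  83 83 9 2419 144))) .out)) (.nr 135 78 (.lg 0 true 7 73 73 11 0 1008) .out)) .out) .out))) (.na
  189 7 (.na 139 6 .ne (.nx 188 660563 (.nr 187 220437 (.nr 140 1 .s1 (.nx 143 37 (.nx 142 36 (.nr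
  141 30 (.l1 (.ls 16 29 218)) (.l1 .sk)) (.l1 .sk)) (.nx 150 649 (.lg 0 false 7 73 73 13 0 1008)
  (.nr 186 77937 (.nr 161 338 (.lg 0 true 11 73 73 13 0 1584) (.nx 185 330282 (.nr 166 3052 (.lg 2
  false 5 67 67 11 17589 720) (.nx 173 6503 (.lg 0 false 7 89 89 13 0 5040) (.nr 184 27556 (.lg 2
  true 11 61 61 13 2750 1584) .out))) .out)) .out)))) .out) .out)) (.na 190 10 .ne (.nx 223 660563
  (.nr 222 623489 (.nr 191 9 .s1 (.nx 193 36 (.nr 192 51 (.l1 (.ls 19 23 132)) (.l1 .sk)) (.nx 194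
  37 (.l1 .sk) (.nx 195 103 (.l1 (.ls 83 37 927)) (.nr 221 131073 (.nr 202 154 (.lg 0 true 7 71 71
  13 0 5040) (.nx 220 41287 (.nr 205 2671 (.nx 203 649 (.lg 0 true 1 61 61 11 0 720) (.lg 2 false 2
  67 67 11 4826 720)) (.nr 212 46342 (.lg 0 true 7 89 89 13 0 5040) (.nx 219 6503 (.lg 0 false 7 83
  89 13 0 5040) .out))) .out)) .out))))) .out) .out)))) (.na 290 23 (.na 251 18 (.na 250 16 (.nx
  249 660563 (.nr 248 623489 (.nr 225 11 .s1 (.nx 228 37 (.nx 227 36 (.nr 226 69 (.l1 (.ls 17 23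
  110)) (.l1 .sk)) (.l1 .sk)) (.nx 237 6503 (.nx 229 103 (.l1 (.ls 79 37 773)) (.nr 236 131073 (.lg
  0 false 7 83 83 19 0 1008) .out)) (.nr 247 46342 (.nr 244 154 (.lg 0 true 7 67 67 19 0 1008) (.nx
  246 41287 (.lg 1 false 2 83 83 13 4826 720) .out)) .out)))) .out) .out) .ne) (.na 272 20 (.nx 271
  660563 (.nr 270 623489 (.nr 252 17 .s1 (.nx 256 103 (.nx 254 36 (.nr 253 86 (.l1 (.ls 19 23 74))
  (.l1 .sk)) (.nx 255 37 (.l1 .sk) (.l1 (.ls 79 37 516)))) (.nr 269 131073 (.nx 261 6503 (.lg 0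
  false 5 79 83 19 0 720) (.nr 268 46342 (.nr 266 257 (.lg 0 true 5 71 71 19 0 720) (.nx 267 41287
  (.lg 1 false 1 83 83 13 4622 720) .out)) .out)) .out))) .out) .out) (.nx 289 660563 (.nr 288
  623489 (.nr 273 20 .s1 (.nx 276 37 (.nx 275 36 (.nr 274 99 (.l1 (.ls 23 19 67)) (.l1 .sk)) (.l1
  .sk)) (.nx 282 6503 (.nx 280 2582 (.nx 277 103 (.l1 (.ls 83 31 465)) (.nr 279 131073 (.lg 0 false
  2 79 79 17 0 720) .out)) (.nr 281 77937 (.lg 1 true 1 79 79 13 19573 720) .out)) (.nr 287 46342
  (.nr 285 257 (.lg 0 true 3 71 71 19 0 720) (.nx 286 41287 (.lg 1 false 1 83 83 13 4622 720)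
  .out)) .out)))) .out) .out))) (.na 306 30 (.na 291 26 .ne (.nx 305 660563 (.nr 304 131073 (.nr
  292 26 .s1 (.nx 297 6503 (.nx 294 36 (.nr 293 129 (.l1 (.ls 17 19 52)) (.l1 .sk)) (.nx 295 37
  (.l1 .sk) (.lg 0 true 2 83 83 11 0 9360))) (.nr 303 32769 (.nr 301 257 (.lg 0 true 4 67 67 19 0
  1872) (.nx 302 41287 (.lg 1 false 1 73 73 11 3270 9360) .out)) .out))) .out) .out)) (.na 320 32
  (.nx 319 660563 (.nr 318 131073 (.nr 307 30 .s1 (.nx 309 36 (.nr 308 137 (.l1 (.ls 16 23 46))
  (.l1 .sk)) (.nx 310 37 (.l1 .sk) (.nx 312 6503 (.lg 0 true 2 79 79 19 0 720) (.nr 317 32769 (.nr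
  315 257 (.lg 0 true 3 61 61 23 0 720) (.nx 316 41287 (.lg 1 false 1 71 71 19 3270 720) .out))
  .out))))) .out) .out) (.na 321 34 .ne (.nx 332 82572 (.nr 331 262145 (.nr 322 34 .s1 (.nx 324 36
  (.nr 323 154 (.l1 (.ls 16 13 41)) (.l1 .sk)) (.nx 325 37 (.l1 .sk) (.nx 327 2582 (.lg 0 true 2 79
  79 13 0 720) (.nr 330 32769 (.nr 328 154 (.lg 0 false 1 59 59 13 0 144) (.nx 329 41287 (.lg 1
  false 1 79 79 13 8235 144) .out)) .out))))) .out) .out)))))) (.na 408 78 (.na 368 58 (.na 356 52
  (.na 345 50 (.nx 344 82572 (.nr 343 262145 (.nr 334 36 .s1 (.nx 336 36 (.nr 335 214 (.l1 (.ls 23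
  19 38)) (.l1 .sk)) (.nx 337 37 (.l1 .sk) (.nx 339 2582 (.lg 0 false 2 79 79 23 0 144) (.nr 342
  32769 (.nr 340 154 (.lg 0 true 1 59 59 19 0 144) (.nx 341 41287 (.lg 1 true 1 83 83 19 8235 720)
  .out)) .out))))) .out) .out) (.nx 355 82572 (.nr 354 262145 (.nr 346 50 .s1 (.nx 348 36 (.nr 347
  223 (.l1 (.ls 16 17 28)) (.l1 .sk)) (.nx 349 37 (.l1 .sk) (.nx 350 2582 (.lg 0 true 1 79 79 13 0
  720) (.nr 353 32769 (.nr 351 154 (.lg 0 true 1 47 47 13 0 720) (.nx 352 41287 (.lg 1 false 1 73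
  73 13 8235 720) .out)) .out))))) .out) .out)) (.na 367 54 (.nx 366 82572 (.nr 365 262145 (.nr 357
  52 .s1 (.nx 360 37 (.nx 359 36 (.nr 358 231 (.l1 (.ls 23 11 27)) (.l1 .sk)) (.l1 .sk)) (.nx 361
  2582 (.lg 0 true 1 83 83 19 0 9360) (.nr 364 32769 (.nr 362 154 (.lg 0 true 1 53 53 19 0 1872)
  (.nx 363 41287 (.lg 1 false 1 79 79 19 8235 1872) .out)) .out)))) .out) .out) (.lg 0 false 1 0 0
  16 0 24))) (.na 389 64 (.na 378 60 (.nx 377 82572 (.nr 376 262145 (.nr 369 58 .s1 (.nx 371 36
  (.nr 370 257 (.l1 (.ls 16 13 25)) (.l1 .sk)) (.nx 372 37 (.l1 .sk) (.nr 374 32769 (.lg 0 false 2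
  79 79 13 0 144) (.nx 375 2582 (.lg 0 true 1 73 73 13 0 144) .out))))) .out) .out) (.nx 388 82572
  (.nr 387 262145 (.nr 379 60 .s1 (.nx 381 36 (.nr 380 274 (.l1 (.ls 19 23 24)) (.l1 .sk)) (.nx 382
  37 (.l1 .sk) (.nx 383 2582 (.lg 0 true 1 79 79 23 0 720) (.nr 386 32769 (.nr 384 154 (.lg 0 true
  1 47 47 23 0 720) (.nx 385 41287 (.lg 1 false 1 73 73 23 8235 720) .out)) .out))))) .out) .out))
  (.na 390 68 .ne (.na 400 74 (.nx 399 82572 (.nr 398 524289 (.nr 391 68 .s1 (.nx 394 6503 (.nx 392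
  647 (.l1 (.ls 73 47 6159)) (.nr 393 262145 (.lg 0 true 1 83 83 13 0 144) .out)) (.nr 397 65537
  (.nr 395 257 (.lg 0 true 1 53 53 13 0 144) (.nx 396 41287 (.lg 1 true 1 73 73 13 6535 144) .out))
  .out))) .out) .out) (.nx 407 82572 (.nr 406 524289 (.nr 401 74 .s1 (.nx 404 6503 (.nx 402 647
  (.l1 (.ls 71 47 5659)) (.nr 403 262145 (.lg 0 true 1 79 79 13 0 144) .out)) (.nr 405 65537 (.lg 1
  false 1 79 79 13 20086 144) .out))) .out) .out))))) (.na 442 102 (.na 424 90 (.na 416 82 (.nx 415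
  82572 (.nr 414 524289 (.nr 409 78 .s1 (.nx 412 6503 (.nx 410 647 (.l1 (.ls 71 53 5369)) (.nr 411
  262145 (.lg 0 true 1 79 79 23 0 9360) .out)) (.nr 413 65537 (.lg 1 false 1 79 79 23 19056 9360)
  .out))) .out) .out) (.nx 423 82572 (.nr 422 524289 (.nr 417 82 .s1 (.nx 420 6503 (.nx 418 647
  (.l1 (.ls 71 47 5107)) (.nr 419 262145 (.lg 0 true 1 79 79 13 0 720) .out)) (.nr 421 65537 (.lg 1
  false 1 79 79 13 18126 720) .out))) .out) .out)) (.na 434 100 (.nx 433 82572 (.nr 432 524289 (.nr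
  425 90 .s1 (.nx 426 647 (.l1 (.ls 73 53 4654)) (.nr 431 262145 (.nx 429 41287 (.nx 427 6503 (.lg
  0 false 1 83 83 29 0 720) (.nr 428 65537 (.lg 1 true 1 73 73 29 8258 720) .out)) (.nr 430 257
  (.lg 0 true 1 47 47 29 0 720) .out)) .out))) .out) .out) (.nx 441 82572 (.nr 440 524289 (.nr 435
  100 .s1 (.nx 438 6503 (.nx 436 647 (.l1 (.ls 71 43 4189)) (.nr 437 262145 (.lg 0 false 1 73 73 23
  0 720) .out)) (.nr 439 65537 (.lg 1 false 1 73 73 23 14863 720) .out))) .out) .out))) (.na 458
  108 (.na 450 106 (.nx 449 82572 (.nr 448 524289 (.nr 443 102 .s1 (.nx 444 647 (.l1 (.ls 71 53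
  4107)) (.nr 447 262145 (.nx 445 6503 (.lg 0 true 1 73 73 29 0 144) (.nr 446 65537 (.lg 1 false 1
  73 73 29 14572 720) .out)) .out))) .out) .out) (.nx 457 82572 (.nr 456 524289 (.nr 451 106 .s1
  (.nx 454 6503 (.nx 452 647 (.l1 (.ls 71 41 3952)) (.nr 453 262145 (.lg 0 true 1 73 73 19 0 720)
  .out)) (.nr 455 65537 (.lg 1 false 1 73 73 19 14022 720) .out))) .out) .out)) (.na 459 116 (.lg 0
  false 1 0 0 16 0 24) (.na 467 122 (.nx 466 82572 (.nr 465 524289 (.nr 460 116 .s1 (.nx 461 647
  (.l1 (.ls 73 43 3611)) (.nr 464 262145 (.nx 462 6503 (.lg 0 false 1 79 79 19 0 144) (.nr 463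
  65537 (.lg 1 false 1 79 79 19 12813 720) .out)) .out))) .out) .out) (.nx 475 82572 (.nr 474
  524289 (.nr 468 122 .s1 (.nx 471 37 (.nx 470 36 (.nr 469 547 (.l1 (.ls 16 13 33)) (.l1 .sk)) (.l1
  .sk)) (.nx 472 6503 (.lg 0 true 1 79 79 19 0 144) (.nr 473 65537 (.lg 1 false 1 71 71 19 12183
  144) .out)))) .out) .out))))))) (.na 574 226 (.na 520 174 (.na 495 150 (.na 483 146 (.na 477 130
  .ne (.nx 482 41287 (.nr 481 1048577 (.nr 478 130 .s1 (.nx 479 647 (.l1 (.ls 79 47 3223)) (.nr 480
  131073 (.lg 0 true 1 89 89 29 0 9360) .out))) .out) .out)) (.na 489 148 (.nx 488 41287 (.nr 487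
  1048577 (.nr 484 146 .s1 (.nx 485 647 (.l1 (.ls 67 41 2870)) (.nr 486 131073 (.lg 0 true 1 79 79
  19 0 144) .out))) .out) .out) (.nx 494 41287 (.nr 493 1048577 (.nr 490 148 .s1 (.nx 491 647 (.l1
  (.ls 73 43 2831)) (.nr 492 131073 (.lg 0 true 1 83 83 23 0 144) .out))) .out) .out))) (.na 507
  162 (.na 501 156 (.nx 500 41287 (.nr 499 1048577 (.nr 496 150 .s1 (.nx 497 647 (.l1 (.ls 67 47
  2793)) (.nr 498 131073 (.lg 0 true 1 79 79 29 0 720) .out))) .out) .out) (.nx 506 41287 (.nr 505
  1048577 (.nr 502 156 .s1 (.nx 503 647 (.l1 (.ls 73 47 2686)) (.nr 504 131073 (.lg 0 true 1 83 83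
  31 0 9360) .out))) .out) .out)) (.na 508 164 (.lg 0 false 1 0 0 16 0 24) (.na 514 170 (.nx 513
  41287 (.nr 512 1048577 (.nr 509 164 .s1 (.nx 510 647 (.l1 (.ls 73 37 2555)) (.nr 511 131073 (.lg
  0 true 1 83 83 23 0 720) .out))) .out) .out) (.nx 519 41287 (.nr 518 1048577 (.nr 515 170 .s1
  (.nx 516 647 (.l1 (.ls 73 43 2465)) (.nr 517 131073 (.lg 0 true 1 83 83 31 0 720) .out))) .out)
  .out))))) (.na 544 202 (.na 532 180 (.na 526 178 (.nx 525 41287 (.nr 524 1048577 (.nr 521 174 .s1
  (.nx 522 647 (.l1 (.ls 71 47 2408)) (.nr 523 131073 (.lg 0 true 1 79 79 23 0 720) .out))) .out)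
  .out) (.nx 531 41287 (.nr 530 1048577 (.nr 527 178 .s1 (.nx 528 647 (.l1 (.ls 67 41 2354)) (.nr
  529 131073 (.lg 0 true 1 73 73 19 0 720) .out))) .out) .out)) (.na 538 194 (.nx 537 41287 (.nr
  536 1048577 (.nr 533 180 .s1 (.nx 534 647 (.l1 (.ls 79 47 2328)) (.nr 535 131073 (.lg 0 false 1
  79 83 37 0 720) .out))) .out) .out) (.nx 543 41287 (.nr 542 1048577 (.nr 539 194 .s1 (.nx 540 647
  (.l1 (.ls 67 41 2160)) (.nr 541 131073 (.lg 0 true 1 71 71 19 0 144) .out))) .out) .out))) (.na
  556 212 (.na 550 204 (.nx 549 41287 (.nr 548 1048577 (.nr 545 202 .s1 (.nx 546 647 (.l1 (.ls 61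
  37 2075)) (.nr 547 131073 (.lg 0 true 1 71 71 23 0 144) .out))) .out) .out) (.nx 555 41287 (.nr
  554 1048577 (.nr 551 204 .s1 (.nx 552 647 (.l1 (.ls 73 47 2055)) (.nr 553 131073 (.lg 0 false 1
  79 79 31 0 720) .out))) .out) .out)) (.na 562 218 (.nx 561 41287 (.nr 560 1048577 (.nr 557 212
  .s1 (.nx 558 647 (.l1 (.ls 71 37 1977)) (.nr 559 131073 (.lg 0 false 1 79 79 23 0 144) .out)))
  .out) .out) (.na 568 222 (.nx 567 41287 (.nr 566 1048577 (.nr 563 218 .s1 (.nx 564 647 (.l1 (.ls
  67 37 1923)) (.nr 565 131073 (.lg 0 true 1 71 71 23 0 144) .out))) .out) .out) (.nx 573 41287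
  (.nr 572 1048577 (.nr 569 222 .s1 (.nx 570 647 (.l1 (.ls 67 47 1888)) (.nr 571 131073 (.lg 0 true
  1 73 73 29 0 144) .out))) .out) .out)))))) (.na 1413 1024 (.na 598 250 (.na 586 244 (.na 580 234
  (.nx 579 41287 (.nr 578 1048577 (.nr 575 226 .s1 (.nx 576 647 (.l1 (.ls 61 37 1855)) (.nr 577
  131073 (.lg 0 true 1 71 71 23 0 720) .out))) .out) .out) (.nx 585 41287 (.nr 584 1048577 (.nr 581
  234 .s1 (.nx 582 647 (.l1 (.ls 73 43 1791)) (.nr 583 131073 (.lg 0 false 1 83 83 37 0 9360)
  .out))) .out) .out)) (.na 592 246 (.nx 591 41287 (.nr 590 1048577 (.nr 587 244 .s1 (.nx 588 647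
  (.l1 (.ls 59 37 1718)) (.nr 589 131073 (.lg 0 false 1 79 79 23 0 144) .out))) .out) .out) (.nx
  597 41287 (.nr 596 1048577 (.nr 593 246 .s1 (.nx 594 647 (.l1 (.ls 67 43 1704)) (.nr 595 131073
  (.lg 0 true 1 73 73 29 0 720) .out))) .out) .out))) (.na 605 257 (.na 604 256 (.nx 603 41287 (.nr
  602 1048577 (.nr 599 250 .s1 (.nx 600 647 (.l1 (.ls 61 41 1677)) (.nr 601 131073 (.lg 0 true 1 71
  71 29 0 720) .out))) .out) .out) .ne) (.na 900 512 (.nx 899 41287 (.nr 898 262145 (.nr 606 257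
  .s1 (.nx 642 36 (.nr 641 2188 (.lx (.lp 41 17 129)) (.l1 .sk)) (.nx 643 37 (.l1 .sk) (.la (.lg 0
  false 1 73 73 23 0))))) .out) .out) (.na 1153 725 (.nx 1152 41287 (.nr 1151 262145 (.nr 901 512
  .s1 (.nx 937 36 (.nr 936 3098 (.lx (.lp 16 0 182)) (.l1 .sk)) (.nx 938 37 (.l1 .sk) (.la (.lg 0
  false 1 67 67 29 0))))) .out) .out) (.nx 1412 257 (.nr 1411 65537 (.nr 1154 725 .s1 (.nx 1282 129
  (.lx (.lp 59 23 257)) (.nr 1410 8193 (.lx (.lp 41 23 257)) .out))) .out) .out))))) (.na 2450 4096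
  (.na 1932 2048 (.na 1673 1449 (.nx 1672 257 (.nr 1671 65537 (.nr 1414 1024 .s1 (.nx 1542 129 (.lx
  (.lp 17 0 363)) (.nr 1670 8193 (.lx (.lp 41 23 363)) .out))) .out) .out) (.nx 1931 257 (.nr 1930
  16385 (.nr 1674 1449 .s1 (.lx (.lp 41 29 513))) .out) .out)) (.na 2191 2897 (.nx 2190 257 (.nr
  2189 32769 (.nr 1933 2048 .s1 (.lx (.lp 43 29 725))) .out) .out) (.nx 2449 257 (.nr 2448 32769
  (.nr 2192 2897 .s1 (.lx (.lp 43 31 1025))) .out) .out))) (.na 2814 8192 (.na 2709 5793 (.nx 2708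
  257 (.nr 2707 32769 (.nr 2451 4096 .s1 (.lx (.lp 37 31 1449))) .out) .out) (.nx 2813 103 (.nr
  2812 32769 (.nr 2710 5793 .s1 (.lx (.lp 41 31 2049))) .out) .out)) (.na 2919 16384 (.nx 2918 103
  (.nr 2917 32769 (.nr 2815 8192 .s1 (.lx (.lp 16 0 4097))) .out) .out) (.na 2921 32769 (.nx 2920
  103 (.l1 .sk) .out) .out)))))))

theorem c107 :
    OkQ ckI L6 79 1 26 0 34359738368 1 1099511627776 ∧
    OkQ ckI L8 153 34 1099511627776 0 34359738368 1 1099511627776 ∧
    OkQ ckI L5 36 1 1099511627776 0 34359738368 1 1099511627776 := by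
  refine ⟨?_, ?_, ?_⟩
  · refine fin 1896 836 T107_0 ?_
    refine jn 5 (by decide +kernel) ?_
    refine jn 8 (by decide +kernel) ?_
    refine jn 9 (by decide +kernel) ?_
    refine jn 11 (by decide +kernel) ?_
    refine jn 12 (by decide +kernel) ?_
    refine jn 14 (by decide +kernel) ?_
    refine jn 16 (by decide +kernel) ?_
    refine jn 18 (by decide +kernel) ?_
    refine jn 20 (by decide +kernel) ?_
    refine jn 22 (by decide +kernel) ?_
    refine jn 23 (by decide +kernel) ?_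
    refine jn 25 (by decide +kernel) ?_
    refine jn 26 (by decide +kernel) ?_
    refine jn 28 (by decide +kernel) ?_
    refine jn 30 (by decide +kernel) ?_
    refine jn 31 (by decide +kernel) ?_
    refine jn 34 (by decide +kernel) ?_
    refine jn 37 (by decide +kernel) ?_
    refine jn 40 (by decide +kernel) ?_
    refine jn 43 (by decide +kernel) ?_
    refine jn 46 (by decide +kernel) ?_
    refine jn 50 (by decide +kernel) ?_
    refine jn 53 (by decide +kernel) ?_
    refine jn 56 (by decide +kernel) ?_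
    refine jn 59 (by decide +kernel) ?_
    refine jn 80 (by decide +kernel) ?_
    refine jn 89 (by decide +kernel) ?_
    refine jn 111 (by decide +kernel) ?_
    refine jn 128 (by decide +kernel) ?_
    refine jn 141 (by decide +kernel) ?_
    refine jn 163 (by decide +kernel) ?_
    refine jn 185 (by decide +kernel) ?_
    refine jn 194 (by decide +kernel) ?_
    refine jn 198 (by decide +kernel) ?_
    refine jn 202 (by decide +kernel) ?_
    refine jn 205 (by decide +kernel) ?_
    refine jn 209 (by decide +kernel) ?_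
    refine jn 214 (by decide +kernel) ?_
    refine jn 223 (by decide +kernel) ?_
    refine jn 232 (by decide +kernel) ?_
    refine jn 240 (by decide +kernel) ?_
    refine jn 245 (by decide +kernel) ?_
    refine jn 252 (by decide +kernel) ?_
    refine jn 272 (by decide +kernel) ?_
    refine jn 289 (by decide +kernel) ?_
    refine jn 308 (by decide +kernel) ?_
    refine jn 315 (by decide +kernel) ?_
    refine jn 316 (by decide +kernel) ?_
    refine jn 317 (by decide +kernel) ?_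
    refine jn 318 (by decide +kernel) ?_
    refine jn 319 (by decide +kernel) ?_
    refine jn 320 (by decide +kernel) ?_
    refine jn 321 (by decide +kernel) ?_
    refine jn 322 (by decide +kernel) ?_
    refine jn 330 (by decide +kernel) ?_
    refine jn 331 (by decide +kernel) ?_
    refine jn 332 (by decide +kernel) ?_
    refine jn 334 (by decide +kernel) ?_
    refine jn 335 (by decide +kernel) ?_
    refine jn 337 (by decide +kernel) ?_
    refine jn 338 (by decide +kernel) ?_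
    refine jn 340 (by decide +kernel) ?_
    refine jn 341 (by decide +kernel) ?_
    refine jn 342 (by decide +kernel) ?_
    refine jn 343 (by decide +kernel) ?_
    refine jn 350 (by decide +kernel) ?_
    refine jn 352 (by decide +kernel) ?_
    refine jn 359 (by decide +kernel) ?_
    refine jn 364 (by decide +kernel) ?_
    refine jn 370 (by decide +kernel) ?_
    refine jn 403 (by decide +kernel) ?_
    refine jn 412 (by decide +kernel) ?_
    refine jn 418 (by decide +kernel) ?_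
    refine jn 419 (by decide +kernel) ?_
    refine jn 420 (by decide +kernel) ?_
    refine jn 421 (by decide +kernel) ?_
    refine jn 422 (by decide +kernel) ?_
    refine jn 423 (by decide +kernel) ?_
    refine jn 424 (by decide +kernel) ?_
    refine jn 425 (by decide +kernel) ?_
    refine jn 426 (by decide +kernel) ?_
    refine jn 427 (by decide +kernel) ?_
    refine jn 428 (by decide +kernel) ?_
    refine jn 429 (by decide +kernel) ?_
    refine jn 430 (by decide +kernel) ?_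
    refine jn 433 (by decide +kernel) ?_
    refine jn 436 (by decide +kernel) ?_
    refine jn 439 (by decide +kernel) ?_
    refine jn 442 (by decide +kernel) ?_
    refine jn 446 (by decide +kernel) ?_
    refine jn 454 (by decide +kernel) ?_
    refine jn 458 (by decide +kernel) ?_
    refine jn 488 (by decide +kernel) ?_
    refine jn 501 (by decide +kernel) ?_
    refine jn 508 (by decide +kernel) ?_
    refine jn 509 (by decide +kernel) ?_
    refine jn 510 (by decide +kernel) ?_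
    refine jn 511 (by decide +kernel) ?_
    refine jn 512 (by decide +kernel) ?_
    refine jn 513 (by decide +kernel) ?_
    refine jn 514 (by decide +kernel) ?_
    refine jn 515 (by decide +kernel) ?_
    refine jn 516 (by decide +kernel) ?_
    refine jn 517 (by decide +kernel) ?_
    refine jn 518 (by decide +kernel) ?_
    refine jn 519 (by decide +kernel) ?_
    refine jn 520 (by decide +kernel) ?_
    refine jn 521 (by decide +kernel) ?_
    refine jn 522 (by decide +kernel) ?_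
    refine jn 525 (by decide +kernel) ?_
    refine jn 528 (by decide +kernel) ?_
    refine jn 529 (by decide +kernel) ?_
    refine jn 530 (by decide +kernel) ?_
    refine jn 531 (by decide +kernel) ?_
    refine jn 532 (by decide +kernel) ?_
    refine jn 535 (by decide +kernel) ?_
    refine jn 538 (by decide +kernel) ?_
    refine jn 541 (by decide +kernel) ?_
    refine jn 556 (by decide +kernel) ?_
    refine jn 564 (by decide +kernel) ?_
    refine jn 572 (by decide +kernel) ?_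
    refine jn 573 (by decide +kernel) ?_
    refine jn 575 (by decide +kernel) ?_
    refine jn 577 (by decide +kernel) ?_
    refine jn 578 (by decide +kernel) ?_
    refine jn 579 (by decide +kernel) ?_
    refine jn 587 (by decide +kernel) ?_
    refine jn 590 (by decide +kernel) ?_
    refine jn 593 (by decide +kernel) ?_
    refine jn 594 (by decide +kernel) ?_
    refine jn 601 (by decide +kernel) ?_
    refine jn 609 (by decide +kernel) ?_
    refine jn 617 (by decide +kernel) ?_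
    refine jn 619 (by decide +kernel) ?_
    refine jn 621 (by decide +kernel) ?_
    refine jn 623 (by decide +kernel) ?_
    refine jn 624 (by decide +kernel) ?_
    refine jn 626 (by decide +kernel) ?_
    refine jn 628 (by decide +kernel) ?_
    refine jn 633 (by decide +kernel) ?_
    refine jn 638 (by decide +kernel) ?_
    refine jn 655 (by decide +kernel) ?_
    refine jn 656 (by decide +kernel) ?_
    refine jn 659 (by decide +kernel) ?_
    refine jn 662 (by decide +kernel) ?_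
    refine jn 663 (by decide +kernel) ?_
    refine jn 666 (by decide +kernel) ?_
    refine jn 671 (by decide +kernel) ?_
    refine jn 683 (by decide +kernel) ?_
    refine jn 690 (by decide +kernel) ?_
    refine jn 691 (by decide +kernel) ?_
    refine jn 692 (by decide +kernel) ?_
    refine jn 693 (by decide +kernel) ?_
    refine jn 697 (by decide +kernel) ?_
    refine jn 699 (by decide +kernel) ?_
    refine jn 700 (by decide +kernel) ?_
    refine jn 701 (by decide +kernel) ?_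
    refine jn 702 (by decide +kernel) ?_
    refine jn 705 (by decide +kernel) ?_
    refine jn 707 (by decide +kernel) ?_
    refine jn 710 (by decide +kernel) ?_
    refine jn 711 (by decide +kernel) ?_
    refine jn 712 (by decide +kernel) ?_
    refine jn 723 (by decide +kernel) ?_
    refine jn 727 (by decide +kernel) ?_
    refine jn 732 (by decide +kernel) ?_
    refine jn 738 (by decide +kernel) ?_
    refine jn 747 (by decide +kernel) ?_
    refine jn 748 (by decide +kernel) ?_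
    refine jn 749 (by decide +kernel) ?_
    refine jn 750 (by decide +kernel) ?_
    refine jn 751 (by decide +kernel) ?_
    refine jn 752 (by decide +kernel) ?_
    refine jn 754 (by decide +kernel) ?_
    refine jn 755 (by decide +kernel) ?_
    refine jn 756 (by decide +kernel) ?_
    refine jn 757 (by decide +kernel) ?_
    refine jn 759 (by decide +kernel) ?_
    refine jn 765 (by decide +kernel) ?_
    refine jn 766 (by decide +kernel) ?_
    refine jn 774 (by decide +kernel) ?_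
    refine jn 781 (by decide +kernel) ?_
    refine jn 788 (by decide +kernel) ?_
    refine jn 799 (by decide +kernel) ?_
    refine jn 800 (by decide +kernel) ?_
    refine jn 804 (by decide +kernel) ?_
    refine jn 808 (by decide +kernel) ?_
    refine jn 820 (by decide +kernel) ?_
    refine jn 821 (by decide +kernel) ?_
    refine jn 825 (by decide +kernel) ?_
    refine jn 830 (by decide +kernel) ?_
    exact je (by decide +kernel)
  · refine fin 1224 14376 T107_1 ?_
    refine jn 14 (by decide +kernel) ?_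
    refine jn 26 (by decide +kernel) ?_
    refine jn 33 (by decide +kernel) ?_
    refine jn 45 (by decide +kernel) ?_
    refine jn 51 (by decide +kernel) ?_
    refine jn 63 (by decide +kernel) ?_
    refine jn 69 (by decide +kernel) ?_
    refine jn 80 (by decide +kernel) ?_
    refine jn 86 (by decide +kernel) ?_
    refine jn 104 (by decide +kernel) ?_
    refine jn 114 (by decide +kernel) ?_
    refine jn 121 (by decide +kernel) ?_
    refine jn 129 (by decide +kernel) ?_
    refine jn 132 (by decide +kernel) ?_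
    refine jn 134 (by decide +kernel) ?_
    refine jn 136 (by decide +kernel) ?_
    refine jn 150 (by decide +kernel) ?_
    refine jn 155 (by decide +kernel) ?_
    refine jn 173 (by decide +kernel) ?_
    refine jn 187 (by decide +kernel) ?_
    refine jn 197 (by decide +kernel) ?_
    refine jn 207 (by decide +kernel) ?_
    refine jn 216 (by decide +kernel) ?_
    refine jn 217 (by decide +kernel) ?_
    refine jn 218 (by decide +kernel) ?_
    refine jn 219 (by decide +kernel) ?_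
    refine jn 220 (by decide +kernel) ?_
    refine jn 221 (by decide +kernel) ?_
    refine jn 234 (by decide +kernel) ?_
    refine jn 246 (by decide +kernel) ?_
    refine jn 254 (by decide +kernel) ?_
    refine jn 263 (by decide +kernel) ?_
    refine jn 264 (by decide +kernel) ?_
    refine jn 267 (by decide +kernel) ?_
    refine jn 269 (by decide +kernel) ?_
    refine jn 283 (by decide +kernel) ?_
    refine jn 296 (by decide +kernel) ?_
    refine jn 299 (by decide +kernel) ?_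
    refine jn 313 (by decide +kernel) ?_
    refine jn 327 (by decide +kernel) ?_
    refine jn 336 (by decide +kernel) ?_
    refine jn 338 (by decide +kernel) ?_
    refine jn 340 (by decide +kernel) ?_
    refine jn 355 (by decide +kernel) ?_
    refine jn 373 (by decide +kernel) ?_
    refine jn 389 (by decide +kernel) ?_
    refine jn 403 (by decide +kernel) ?_
    refine jn 412 (by decide +kernel) ?_
    refine jn 413 (by decide +kernel) ?_
    refine jn 417 (by decide +kernel) ?_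
    refine jn 431 (by decide +kernel) ?_
    refine jn 440 (by decide +kernel) ?_
    refine jn 444 (by decide +kernel) ?_
    refine jn 456 (by decide +kernel) ?_
    refine jn 465 (by decide +kernel) ?_
    refine jn 480 (by decide +kernel) ?_
    refine jn 485 (by decide +kernel) ?_
    refine jn 493 (by decide +kernel) ?_
    refine jn 505 (by decide +kernel) ?_
    refine jn 520 (by decide +kernel) ?_
    refine jn 524 (by decide +kernel) ?_
    refine jn 533 (by decide +kernel) ?_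
    refine jn 544 (by decide +kernel) ?_
    refine jn 560 (by decide +kernel) ?_
    refine jn 562 (by decide +kernel) ?_
    refine jn 566 (by decide +kernel) ?_
    refine jn 580 (by decide +kernel) ?_
    refine jn 592 (by decide +kernel) ?_
    refine jn 602 (by decide +kernel) ?_
    refine jn 612 (by decide +kernel) ?_
    refine jn 625 (by decide +kernel) ?_
    refine jn 627 (by decide +kernel) ?_
    refine jn 630 (by decide +kernel) ?_
    refine jn 639 (by decide +kernel) ?_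
    refine jn 649 (by decide +kernel) ?_
    refine jn 664 (by decide +kernel) ?_
    refine jn 668 (by decide +kernel) ?_
    refine jn 683 (by decide +kernel) ?_
    refine jn 698 (by decide +kernel) ?_
    refine jn 709 (by decide +kernel) ?_
    refine jn 725 (by decide +kernel) ?_
    refine jn 735 (by decide +kernel) ?_
    refine jn 743 (by decide +kernel) ?_
    refine jn 753 (by decide +kernel) ?_
    refine jn 771 (by decide +kernel) ?_
    refine jn 778 (by decide +kernel) ?_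
    refine jn 779 (by decide +kernel) ?_
    refine jn 789 (by decide +kernel) ?_
    refine jn 825 (by decide +kernel) ?_
    refine jn 920 (by decide +kernel) ?_
    refine jn 1006 (by decide +kernel) ?_
    refine jn 1017 (by decide +kernel) ?_
    refine jn 1022 (by decide +kernel) ?_
    refine jn 1030 (by decide +kernel) ?_
    refine jn 1038 (by decide +kernel) ?_
    refine jn 1043 (by decide +kernel) ?_
    refine jn 1050 (by decide +kernel) ?_
    refine jn 1062 (by decide +kernel) ?_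
    refine jn 1070 (by decide +kernel) ?_
    refine jn 1085 (by decide +kernel) ?_
    refine jn 1093 (by decide +kernel) ?_
    refine jn 1111 (by decide +kernel) ?_
    refine jn 1117 (by decide +kernel) ?_
    refine jn 1122 (by decide +kernel) ?_
    refine jn 1123 (by decide +kernel) ?_
    refine jn 1142 (by decide +kernel) ?_
    refine jn 1153 (by decide +kernel) ?_
    refine jn 1158 (by decide +kernel) ?_
    refine jn 1165 (by decide +kernel) ?_
    refine jn 1173 (by decide +kernel) ?_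
    refine jn 1177 (by decide +kernel) ?_
    refine jn 1185 (by decide +kernel) ?_
    refine jn 1198 (by decide +kernel) ?_
    refine jn 1205 (by decide +kernel) ?_
    refine jn 1218 (by decide +kernel) ?_
    refine jn 1227 (by decide +kernel) ?_
    refine jn 1230 (by decide +kernel) ?_
    refine jn 1231 (by decide +kernel) ?_
    refine jn 1245 (by decide +kernel) ?_
    refine jn 1251 (by decide +kernel) ?_
    refine jn 1266 (by decide +kernel) ?_
    refine jn 1276 (by decide +kernel) ?_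
    refine jn 1285 (by decide +kernel) ?_
    refine jn 1293 (by decide +kernel) ?_
    refine jn 1302 (by decide +kernel) ?_
    refine jn 1317 (by decide +kernel) ?_
    refine jn 1325 (by decide +kernel) ?_
    refine jn 1340 (by decide +kernel) ?_
    refine jn 1356 (by decide +kernel) ?_
    refine jn 1370 (by decide +kernel) ?_
    refine jn 1377 (by decide +kernel) ?_
    refine jn 1378 (by decide +kernel) ?_
    refine jn 1397 (by decide +kernel) ?_
    refine jn 1410 (by decide +kernel) ?_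
    refine jn 1418 (by decide +kernel) ?_
    refine jn 1425 (by decide +kernel) ?_
    refine jn 1432 (by decide +kernel) ?_
    refine jn 1440 (by decide +kernel) ?_
    refine jn 1457 (by decide +kernel) ?_
    refine jn 1461 (by decide +kernel) ?_
    refine jn 1476 (by decide +kernel) ?_
    refine jn 1485 (by decide +kernel) ?_
    refine jn 1486 (by decide +kernel) ?_
    refine jn 1500 (by decide +kernel) ?_
    refine jn 1508 (by decide +kernel) ?_
    refine jn 1634 (by decide +kernel) ?_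
    refine jn 1738 (by decide +kernel) ?_
    refine jn 1755 (by decide +kernel) ?_
    refine jn 1767 (by decide +kernel) ?_
    refine jn 1771 (by decide +kernel) ?_
    refine jn 1780 (by decide +kernel) ?_
    refine jn 1802 (by decide +kernel) ?_
    refine jn 1803 (by decide +kernel) ?_
    refine jn 1806 (by decide +kernel) ?_
    refine jn 1822 (by decide +kernel) ?_
    refine jn 1830 (by decide +kernel) ?_
    refine jn 1831 (by decide +kernel) ?_
    refine jn 1846 (by decide +kernel) ?_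
    refine jn 1860 (by decide +kernel) ?_
    refine jn 1891 (by decide +kernel) ?_
    refine jn 1896 (by decide +kernel) ?_
    refine jn 1902 (by decide +kernel) ?_
    refine jn 1903 (by decide +kernel) ?_
    refine jn 1911 (by decide +kernel) ?_
    refine jn 1915 (by decide +kernel) ?_
    refine jn 1920 (by decide +kernel) ?_
    refine jn 1934 (by decide +kernel) ?_
    refine jn 1956 (by decide +kernel) ?_
    refine jn 1968 (by decide +kernel) ?_
    refine jn 1980 (by decide +kernel) ?_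
    refine jn 1984 (by decide +kernel) ?_
    refine jn 1993 (by decide +kernel) ?_
    refine jn 2015 (by decide +kernel) ?_
    refine jn 2019 (by decide +kernel) ?_
    refine jn 2035 (by decide +kernel) ?_
    refine jn 2043 (by decide +kernel) ?_
    refine jn 2045 (by decide +kernel) ?_
    refine jn 2064 (by decide +kernel) ?_
    refine jn 2083 (by decide +kernel) ?_
    refine jn 2108 (by decide +kernel) ?_
    refine jn 2113 (by decide +kernel) ?_
    refine jn 2115 (by decide +kernel) ?_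
    refine jn 2116 (by decide +kernel) ?_
    refine jn 2124 (by decide +kernel) ?_
    refine jn 2129 (by decide +kernel) ?_
    refine jn 2136 (by decide +kernel) ?_
    refine jn 2156 (by decide +kernel) ?_
    refine jn 2176 (by decide +kernel) ?_
    refine jn 2214 (by decide +kernel) ?_
    refine jn 2256 (by decide +kernel) ?_
    refine jn 2286 (by decide +kernel) ?_
    refine jn 2318 (by decide +kernel) ?_
    refine jn 2344 (by decide +kernel) ?_
    refine jn 2390 (by decide +kernel) ?_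
    refine jn 2433 (by decide +kernel) ?_
    refine jn 2459 (by decide +kernel) ?_
    refine jn 2483 (by decide +kernel) ?_
    refine jn 2512 (by decide +kernel) ?_
    refine jn 2545 (by decide +kernel) ?_
    refine jn 2555 (by decide +kernel) ?_
    refine jn 2569 (by decide +kernel) ?_
    refine jn 2595 (by decide +kernel) ?_
    refine jn 2617 (by decide +kernel) ?_
    refine jn 2627 (by decide +kernel) ?_
    refine jn 2644 (by decide +kernel) ?_
    refine jn 2680 (by decide +kernel) ?_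
    refine jn 2700 (by decide +kernel) ?_
    refine jn 2732 (by decide +kernel) ?_
    refine jn 2781 (by decide +kernel) ?_
    refine jn 2801 (by decide +kernel) ?_
    refine jn 2844 (by decide +kernel) ?_
    refine jn 2872 (by decide +kernel) ?_
    refine jn 2911 (by decide +kernel) ?_
    refine jn 2967 (by decide +kernel) ?_
    refine jn 3008 (by decide +kernel) ?_
    refine jn 3047 (by decide +kernel) ?_
    refine jn 3103 (by decide +kernel) ?_
    refine jn 3143 (by decide +kernel) ?_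
    refine jn 3184 (by decide +kernel) ?_
    refine jn 3208 (by decide +kernel) ?_
    refine jn 3209 (by decide +kernel) ?_
    refine jn 3249 (by decide +kernel) ?_
    refine jn 3282 (by decide +kernel) ?_
    refine jn 3289 (by decide +kernel) ?_
    refine jn 3293 (by decide +kernel) ?_
    refine jn 3324 (by decide +kernel) ?_
    refine jn 3349 (by decide +kernel) ?_
    refine jn 3388 (by decide +kernel) ?_
    refine jn 3406 (by decide +kernel) ?_
    refine jn 3441 (by decide +kernel) ?_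
    refine jn 3456 (by decide +kernel) ?_
    refine jn 3478 (by decide +kernel) ?_
    refine jn 3521 (by decide +kernel) ?_
    refine jn 3541 (by decide +kernel) ?_
    refine jn 3557 (by decide +kernel) ?_
    refine jn 3584 (by decide +kernel) ?_
    refine jn 3626 (by decide +kernel) ?_
    refine jn 3677 (by decide +kernel) ?_
    refine jn 3721 (by decide +kernel) ?_
    refine jn 3776 (by decide +kernel) ?_
    refine jn 3818 (by decide +kernel) ?_
    refine jn 3860 (by decide +kernel) ?_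
    refine jn 3892 (by decide +kernel) ?_
    refine jn 3941 (by decide +kernel) ?_
    refine jn 3978 (by decide +kernel) ?_
    refine jn 4025 (by decide +kernel) ?_
    refine jn 4085 (by decide +kernel) ?_
    refine jn 4148 (by decide +kernel) ?_
    refine jn 4213 (by decide +kernel) ?_
    refine jn 4255 (by decide +kernel) ?_
    refine jn 4295 (by decide +kernel) ?_
    refine jn 4349 (by decide +kernel) ?_
    refine jn 4389 (by decide +kernel) ?_
    refine jn 4455 (by decide +kernel) ?_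
    refine jn 4508 (by decide +kernel) ?_
    refine jn 4564 (by decide +kernel) ?_
    refine jn 4619 (by decide +kernel) ?_
    refine jn 4664 (by decide +kernel) ?_
    refine jn 4716 (by decide +kernel) ?_
    refine jn 4779 (by decide +kernel) ?_
    refine jn 4835 (by decide +kernel) ?_
    refine jn 4884 (by decide +kernel) ?_
    refine jn 4931 (by decide +kernel) ?_
    refine jn 4988 (by decide +kernel) ?_
    refine jn 5044 (by decide +kernel) ?_
    refine jn 5246 (by decide +kernel) ?_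
    refine jn 5322 (by decide +kernel) ?_
    refine jn 5388 (by decide +kernel) ?_
    refine jn 5460 (by decide +kernel) ?_
    refine jn 5540 (by decide +kernel) ?_
    refine jn 5622 (by decide +kernel) ?_
    refine jn 5693 (by decide +kernel) ?_
    refine jn 5765 (by decide +kernel) ?_
    refine jn 5856 (by decide +kernel) ?_
    refine jn 5925 (by decide +kernel) ?_
    refine jn 6016 (by decide +kernel) ?_
    refine jn 6092 (by decide +kernel) ?_
    refine jn 6180 (by decide +kernel) ?_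
    refine jn 6248 (by decide +kernel) ?_
    refine jn 6332 (by decide +kernel) ?_
    refine jn 6418 (by decide +kernel) ?_
    refine jn 6739 (by decide +kernel) ?_
    refine jn 6810 (by decide +kernel) ?_
    refine jn 6902 (by decide +kernel) ?_
    refine jn 6983 (by decide +kernel) ?_
    refine jn 7059 (by decide +kernel) ?_
    refine jn 7145 (by decide +kernel) ?_
    refine jn 7225 (by decide +kernel) ?_
    refine jn 7353 (by decide +kernel) ?_
    refine jn 7442 (by decide +kernel) ?_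
    refine jn 7534 (by decide +kernel) ?_
    refine jn 7613 (by decide +kernel) ?_
    refine jn 7694 (by decide +kernel) ?_
    refine jn 7774 (by decide +kernel) ?_
    refine jn 7873 (by decide +kernel) ?_
    refine jn 7982 (by decide +kernel) ?_
    refine jn 8058 (by decide +kernel) ?_
    refine jn 8147 (by decide +kernel) ?_
    refine jn 8234 (by decide +kernel) ?_
    refine jn 8319 (by decide +kernel) ?_
    refine jn 8430 (by decide +kernel) ?_
    refine jn 8782 (by decide +kernel) ?_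
    refine jn 8962 (by decide +kernel) ?_
    refine jn 9115 (by decide +kernel) ?_
    refine jn 9214 (by decide +kernel) ?_
    refine jn 9316 (by decide +kernel) ?_
    refine jn 9413 (by decide +kernel) ?_
    refine jn 9486 (by decide +kernel) ?_
    refine jn 9554 (by decide +kernel) ?_
    refine jn 9637 (by decide +kernel) ?_
    refine jn 9704 (by decide +kernel) ?_
    refine jn 9976 (by decide +kernel) ?_
    refine jn 10188 (by decide +kernel) ?_
    refine jn 10298 (by decide +kernel) ?_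
    refine jn 10414 (by decide +kernel) ?_
    refine jn 10492 (by decide +kernel) ?_
    refine jn 10560 (by decide +kernel) ?_
    refine jn 10630 (by decide +kernel) ?_
    refine jn 10695 (by decide +kernel) ?_
    refine jn 10760 (by decide +kernel) ?_
    refine jn 10814 (by decide +kernel) ?_
    refine jn 10858 (by decide +kernel) ?_
    refine jn 10910 (by decide +kernel) ?_
    refine jn 10958 (by decide +kernel) ?_
    refine jn 11000 (by decide +kernel) ?_
    refine jn 11225 (by decide +kernel) ?_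
    refine jn 11530 (by decide +kernel) ?_
    refine jn 11703 (by decide +kernel) ?_
    refine jn 11833 (by decide +kernel) ?_
    refine jn 11954 (by decide +kernel) ?_
    refine jn 12041 (by decide +kernel) ?_
    refine jn 12127 (by decide +kernel) ?_
    refine jn 12193 (by decide +kernel) ?_
    refine jn 12267 (by decide +kernel) ?_
    refine jn 12690 (by decide +kernel) ?_
    refine jn 12907 (by decide +kernel) ?_
    refine jn 13085 (by decide +kernel) ?_
    refine jn 13274 (by decide +kernel) ?_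
    refine jn 13667 (by decide +kernel) ?_
    refine jn 14035 (by decide +kernel) ?_
    refine jn 14246 (by decide +kernel) ?_
    exact je (by decide +kernel)
  · refine fin 72 2922 T107_2 ?_
    refine jn 7 (by decide +kernel) ?_
    refine jn 8 (by decide +kernel) ?_
    refine jn 9 (by decide +kernel) ?_
    refine jn 12 (by decide +kernel) ?_
    refine jn 14 (by decide +kernel) ?_
    refine jn 15 (by decide +kernel) ?_
    refine jn 16 (by decide +kernel) ?_
    refine jn 18 (by decide +kernel) ?_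
    refine jn 20 (by decide +kernel) ?_
    refine jn 21 (by decide +kernel) ?_
    refine jn 22 (by decide +kernel) ?_
    refine jn 23 (by decide +kernel) ?_
    refine jn 25 (by decide +kernel) ?_
    refine jn 39 (by decide +kernel) ?_
    refine jn 61 (by decide +kernel) ?_
    refine jn 69 (by decide +kernel) ?_
    refine jn 76 (by decide +kernel) ?_
    refine jn 77 (by decide +kernel) ?_
    refine jn 78 (by decide +kernel) ?_
    refine jn 79 (by decide +kernel) ?_
    refine jn 80 (by decide +kernel) ?_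
    refine jn 81 (by decide +kernel) ?_
    refine jn 82 (by decide +kernel) ?_
    refine jn 83 (by decide +kernel) ?_
    refine jn 84 (by decide +kernel) ?_
    refine jn 85 (by decide +kernel) ?_
    refine jn 86 (by decide +kernel) ?_
    refine jn 87 (by decide +kernel) ?_
    refine jn 98 (by decide +kernel) ?_
    refine jn 109 (by decide +kernel) ?_
    refine jn 112 (by decide +kernel) ?_
    refine jn 113 (by decide +kernel) ?_
    refine jn 114 (by decide +kernel) ?_
    refine jn 115 (by decide +kernel) ?_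
    refine jn 116 (by decide +kernel) ?_
    refine jn 117 (by decide +kernel) ?_
    refine jn 118 (by decide +kernel) ?_
    refine jn 119 (by decide +kernel) ?_
    refine jn 120 (by decide +kernel) ?_
    refine jn 121 (by decide +kernel) ?_
    refine jn 122 (by decide +kernel) ?_
    refine jn 124 (by decide +kernel) ?_
    refine jn 127 (by decide +kernel) ?_
    refine jn 134 (by decide +kernel) ?_
    refine jn 148 (by decide +kernel) ?_
    refine jn 150 (by decide +kernel) ?_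
    refine jn 155 (by decide +kernel) ?_
    refine jn 161 (by decide +kernel) ?_
    refine jn 162 (by decide +kernel) ?_
    refine jn 163 (by decide +kernel) ?_
    refine jn 164 (by decide +kernel) ?_
    refine jn 165 (by decide +kernel) ?_
    refine jn 173 (by decide +kernel) ?_
    refine jn 174 (by decide +kernel) ?_
    refine jn 175 (by decide +kernel) ?_
    refine jn 176 (by decide +kernel) ?_
    refine jn 177 (by decide +kernel) ?_
    refine jn 178 (by decide +kernel) ?_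
    refine jn 179 (by decide +kernel) ?_
    refine jn 180 (by decide +kernel) ?_
    refine jn 181 (by decide +kernel) ?_
    refine jn 182 (by decide +kernel) ?_
    refine jn 183 (by decide +kernel) ?_
    refine jn 184 (by decide +kernel) ?_
    refine jn 194 (by decide +kernel) ?_
    refine jn 195 (by decide +kernel) ?_
    refine jn 196 (by decide +kernel) ?_
    refine jn 197 (by decide +kernel) ?_
    refine jn 198 (by decide +kernel) ?_
    refine jn 199 (by decide +kernel) ?_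
    refine jn 200 (by decide +kernel) ?_
    refine jn 201 (by decide +kernel) ?_
    refine jn 202 (by decide +kernel) ?_
    refine jn 203 (by decide +kernel) ?_
    refine jn 204 (by decide +kernel) ?_
    refine jn 205 (by decide +kernel) ?_
    refine jn 206 (by decide +kernel) ?_
    refine jn 207 (by decide +kernel) ?_
    refine jn 208 (by decide +kernel) ?_
    refine jn 209 (by decide +kernel) ?_
    refine jn 210 (by decide +kernel) ?_
    refine jn 211 (by decide +kernel) ?_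
    refine jn 212 (by decide +kernel) ?_
    refine jn 228 (by decide +kernel) ?_
    refine jn 229 (by decide +kernel) ?_
    refine jn 232 (by decide +kernel) ?_
    refine jn 234 (by decide +kernel) ?_
    refine jn 236 (by decide +kernel) ?_
    refine jn 240 (by decide +kernel) ?_
    refine jn 243 (by decide +kernel) ?_
    refine jn 246 (by decide +kernel) ?_
    refine jn 255 (by decide +kernel) ?_
    refine jn 256 (by decide +kernel) ?_
    refine jn 257 (by decide +kernel) ?_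
    refine jn 258 (by decide +kernel) ?_
    refine jn 259 (by decide +kernel) ?_
    refine jn 260 (by decide +kernel) ?_
    refine jn 261 (by decide +kernel) ?_
    refine jn 263 (by decide +kernel) ?_
    refine jn 264 (by decide +kernel) ?_
    refine jn 266 (by decide +kernel) ?_
    refine jn 276 (by decide +kernel) ?_
    refine jn 277 (by decide +kernel) ?_
    refine jn 278 (by decide +kernel) ?_
    refine jn 279 (by decide +kernel) ?_
    refine jn 280 (by decide +kernel) ?_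
    refine jn 281 (by decide +kernel) ?_
    refine jn 282 (by decide +kernel) ?_
    refine jn 283 (by decide +kernel) ?_
    refine jn 284 (by decide +kernel) ?_
    refine jn 285 (by decide +kernel) ?_
    refine jn 286 (by decide +kernel) ?_
    refine jn 297 (by decide +kernel) ?_
    refine jn 301 (by decide +kernel) ?_
    refine jn 310 (by decide +kernel) ?_
    refine jn 312 (by decide +kernel) ?_
    refine jn 316 (by decide +kernel) ?_
    refine jn 327 (by decide +kernel) ?_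
    refine jn 329 (by decide +kernel) ?_
    refine jn 337 (by decide +kernel) ?_
    refine jn 338 (by decide +kernel) ?_
    refine jn 339 (by decide +kernel) ?_
    refine jn 340 (by decide +kernel) ?_
    refine jn 341 (by decide +kernel) ?_
    refine jn 352 (by decide +kernel) ?_
    refine jn 360 (by decide +kernel) ?_
    refine jn 361 (by decide +kernel) ?_
    refine jn 362 (by decide +kernel) ?_
    refine jn 372 (by decide +kernel) ?_
    refine jn 375 (by decide +kernel) ?_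
    refine jn 383 (by decide +kernel) ?_
    refine jn 385 (by decide +kernel) ?_
    refine jn 392 (by decide +kernel) ?_
    refine jn 394 (by decide +kernel) ?_
    refine jn 396 (by decide +kernel) ?_
    refine jn 405 (by decide +kernel) ?_
    refine jn 413 (by decide +kernel) ?_
    refine jn 421 (by decide +kernel) ?_
    refine jn 425 (by decide +kernel) ?_
    refine jn 426 (by decide +kernel) ?_
    refine jn 427 (by decide +kernel) ?_
    refine jn 428 (by decide +kernel) ?_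
    refine jn 437 (by decide +kernel) ?_
    refine jn 445 (by decide +kernel) ?_
    refine jn 455 (by decide +kernel) ?_
    refine jn 463 (by decide +kernel) ?_
    refine jn 478 (by decide +kernel) ?_
    refine jn 484 (by decide +kernel) ?_
    refine jn 492 (by decide +kernel) ?_
    refine jn 504 (by decide +kernel) ?_
    refine jn 515 (by decide +kernel) ?_
    refine jn 523 (by decide +kernel) ?_
    refine jn 533 (by decide +kernel) ?_
    refine jn 534 (by decide +kernel) ?_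
    refine jn 535 (by decide +kernel) ?_
    refine jn 551 (by decide +kernel) ?_
    refine jn 559 (by decide +kernel) ?_
    refine jn 577 (by decide +kernel) ?_
    refine jn 583 (by decide +kernel) ?_
    refine jn 595 (by decide +kernel) ?_
    refine jn 646 (by decide +kernel) ?_
    refine jn 647 (by decide +kernel) ?_
    refine jn 678 (by decide +kernel) ?_
    refine jn 686 (by decide +kernel) ?_
    refine jn 692 (by decide +kernel) ?_
    refine jn 700 (by decide +kernel) ?_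
    refine jn 726 (by decide +kernel) ?_
    refine jn 727 (by decide +kernel) ?_
    refine jn 742 (by decide +kernel) ?_
    refine jn 756 (by decide +kernel) ?_
    refine jn 774 (by decide +kernel) ?_
    refine jn 780 (by decide +kernel) ?_
    refine jn 796 (by decide +kernel) ?_
    refine jn 824 (by decide +kernel) ?_
    refine jn 830 (by decide +kernel) ?_
    refine jn 838 (by decide +kernel) ?_
    refine jn 854 (by decide +kernel) ?_
    refine jn 855 (by decide +kernel) ?_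
    refine jn 886 (by decide +kernel) ?_
    refine jn 940 (by decide +kernel) ?_
    refine jn 956 (by decide +kernel) ?_
    refine jn 974 (by decide +kernel) ?_
    refine jn 1004 (by decide +kernel) ?_
    refine jn 1006 (by decide +kernel) ?_
    refine jn 1008 (by decide +kernel) ?_
    refine jn 1032 (by decide +kernel) ?_
    refine jn 1038 (by decide +kernel) ?_
    refine jn 1039 (by decide +kernel) ?_
    refine jn 1062 (by decide +kernel) ?_
    refine jn 1092 (by decide +kernel) ?_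
    refine jn 1102 (by decide +kernel) ?_
    refine jn 1124 (by decide +kernel) ?_
    refine jn 1154 (by decide +kernel) ?_
    refine jn 1376 (by decide +kernel) ?_
    refine jn 1673 (by decide +kernel) ?_
    refine jn 1933 (by decide +kernel) ?_
    refine jn 2377 (by decide +kernel) ?_
    refine jn 2917 (by decide +kernel) ?_
    exact je (by decide +kernel)

end Pool.Agent.MP_2339ce_nt.NR
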