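import Pool.Agent.MP_2339ce_nt.Q2.NC.L5
import Pool.Agent.MP_2339ce_nt.Q2.NC.L8
import Pool.Agent.MP_2339ce_nt.Q2.NC.L9
import Pool.Agent.MP_2339ce_nt.Q2.CkI

/-! Block NR: runs. -/

set_option autoImplicit false
set_option maxRecDepth 100000

noncomputable section

namespace Pool.Agent.MP_2339ce_nt.NR

open Q2.Top

def T109_0 : Ph :=
  (.na 921 162 (.na 705 58 (.na 548 22 (.na 465 7 (.na 309 3 (.na 1 2 .ne (.nx 308 3329023 (.nr 307
  623489 (.nx 4 220 (.nx 3 219 (.nr 2 28 (.lg 0 false 1 41 41 5 0 3504) (.l1 .sk)) (.l1 .sk)) (.nx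
  292 2097153 (.nr 278 220437 (.nx 251 832257 (.nx 95 41287 (.lg 0 false 91 101 109 13 0 52612560)
  (.nr 250 155873 (.nr 121 1025 (.lg 0 true 26 97 101 11 0 683280) (.nr 134 3446 (.lg 2 true 13 101
  103 9 88910 4782960) (.nx 249 524289 (.nx 160 58387 (.lg 1 false 26 103 107 11 90664 52612560)
  (.nx 186 82572 (.lg 1 false 26 103 109 11 64111 52612560) (.nr 248 131073 (.nr 234 110219 (.nr
  193 6051 (.lg 2 true 7 97 97 9 16660 367920) (.nr 206 38969 (.lg 2 false 13 103 107 9 11382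
  52612560) (.nx 233 262145 (.nr 219 77937 (.lg 2 false 13 107 109 9 22699 52612560) (.nx 232
  208065 (.lg 2 false 13 107 109 9 32074 52612560) .out)) .out))) (.nx 247 131073 (.lg 2 true 13
  107 109 9 38130 52612560) .out)) .out))) .out))) .out)) (.nr 277 257 (.lg 0 true 26 89 89 11 0
  45552) .out)) (.nx 291 324 (.lg 0 false 13 79 79 9 0 45552) .out)) (.nr 306 9 (.lg 0 true 14 67
  67 9 0 24528) .out))) .out) .out)) (.na 310 6 .ne (.nx 464 16777217 (.nr 463 1048577 (.nx 314 257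
  (.nx 312 219 (.nr 311 72 (.lg 0 true 1 37 37 7 0 578160) (.l1 .sk)) (.nx 313 220 (.l1 .sk) (.l1
  (.ls 89 43 2944)))) (.nr 462 623489 (.nx 411 1048577 (.nx 338 41285 (.nx 315 324 (.l1 (.ls 83 47
  6490)) (.nr 337 370729 (.nr 329 155873 (.lg 0 false 14 103 107 13 0 4047120) (.nx 336 2049 (.lg 0
  false 7 89 89 13 0 73584) .out)) .out)) (.nr 410 220437 (.nr 352 1026 (.lg 0 true 14 89 89 13 0
  73584) (.nx 409 660563 (.nr 359 8201 (.lg 2 true 7 89 89 13 70499 73584) (.nx 401 208065 (.nx 373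
  76448 (.lg 1 false 14 103 107 13 128171 52612560) (.nx 387 112360 (.lg 1 false 14 101 103 13
  69217 4047120) (.lg 1 true 14 103 107 13 47094 52612560))) (.nr 408 77937 (.lg 2 false 7 97 97 13
  9008 73584) .out))) .out)) .out)) (.nr 461 129 (.nr 446 44 (.lg 0 true 35 79 79 13 0 367920) (.nx
  460 2097153 (.lg 0 true 14 71 71 13 0 73584) .out)) .out)) .out)) .out) .out))) (.na 546 12 (.na
  466 10 .ne (.nx 545 2097153 (.nr 544 1048577 (.nx 469 220 (.nx 468 219 (.nr 467 125 (.lg 0 true 1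
  31 31 11 0 52560) (.l1 .sk)) (.l1 .sk)) (.nx 536 660563 (.nx 492 52015 (.nx 470 257 (.l1 (.ls 89
  41 1767)) (.nr 491 623489 (.nr 483 185365 (.lg 0 false 13 103 109 19 0 52612560) (.nx 490 1292
  (.lg 0 false 7 83 89 13 0 122640) .out)) .out)) (.nr 535 220437 (.nr 499 951 (.lg 0 true 7 83 83
  13 0 122640) (.nr 506 7240 (.lg 2 true 7 83 97 13 76059 367920) (.nx 519 104033 (.lg 1 false 13
  101 109 19 101731 52612560) (.nr 534 185365 (.nx 526 208065 (.lg 1 true 7 101 103 13 42779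
  367920) (.nr 533 65537 (.lg 2 false 7 89 97 13 9991 367920) .out)) .out)))) .out)) (.nr 543 65
  (.lg 0 true 7 71 71 13 0 122640) .out))) .out) .out)) (.na 547 18 .ne (.lg 0 false 1 0 0 7 0
  24)))) (.na 620 34 (.na 584 30 (.na 583 23 (.nx 582 2097153 (.nr 581 1048577 (.nr 549 17 .s1 (.nx
  552 220 (.nx 551 219 (.nr 550 241 (.lg 0 true 1 29 29 9 0 578160) (.l1 .sk)) (.l1 .sk)) (.nx 553
  324 (.l1 (.ls 83 43 2574)) (.nr 580 623489 (.nr 576 262145 (.nx 560 44498 (.lg 0 false 7 101 103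
  19 0 4047120) (.nr 575 155873 (.nr 567 751 (.lg 0 true 7 83 83 19 0 269808) (.nx 574 416129 (.lg
  2 false 7 101 103 19 84121 4047120) .out)) .out)) (.nx 579 2049 (.lg 0 false 3 83 83 13 0 115632)
  .out)) .out)))) .out) .out) .ne) (.na 619 32 (.nx 618 2097153 (.nr 617 1048577 (.nr 585 27 .s1
  (.nx 605 52017 (.nx 587 219 (.nr 586 335 (.lg 0 false 1 23 23 19 0 52560) (.l1 .sk)) (.nx 588 220
  (.l1 .sk) (.nx 589 324 (.l1 (.ls 83 43 1888)) (.nr 604 524289 (.nr 596 185365 (.lg 0 false 7 89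
  97 29 0 367920) (.nx 603 13005 (.lg 0 false 7 83 97 29 0 367920) .out)) .out)))) (.nr 616 92683
  (.nr 612 962 (.lg 0 true 7 71 83 29 0 367920) (.nx 615 330282 (.lg 2 false 3 97 97 23 42830
  52560) .out)) .out))) .out) .out) .ne)) (.na 683 46 (.na 651 38 (.nx 650 2097153 (.nr 649 881745
  (.nr 621 31 .s1 (.nx 623 219 (.nr 622 398 (.lg 0 false 1 29 29 13 0 52560) (.l1 .sk)) (.nx 624
  220 (.l1 .sk) (.nx 633 26009 (.nx 625 324 (.l1 (.ls 79 41 1667)) (.nr 632 623489 (.lg 0 false 7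
  101 101 23 0 367920) .out)) (.nr 648 77937 (.nr 640 398 (.lg 0 true 7 71 71 23 0 24528) (.nx 647
  208065 (.lg 2 false 7 89 101 23 72062 367920) .out)) .out))))) .out) .out) (.nx 682 2097153 (.nr
  681 881745 (.nr 652 36 .s1 (.nx 656 324 (.nx 654 219 (.nr 653 482 (.l1 (.ls 29 41 1265)) (.l1
  .sk)) (.nx 655 220 (.l1 .sk) (.l1 (.ls 83 41 1491)))) (.nr 680 623489 (.nr 672 77937 (.nx 666
  208065 (.nx 663 131073 (.lg 0 false 7 89 89 17 0 24528) (.nr 665 27556 (.lg 0 false 2 89 89 13 0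
  3504) .out)) (.nr 671 257 (.lg 0 true 5 67 67 17 0 17520) .out)) (.nx 679 26009 (.lg 0 false 7
  101 103 17 0 4047120) .out)) .out))) .out) .out)) (.na 684 50 .ne (.na 704 54 (.nx 703 2097153
  (.nr 702 881745 (.nr 685 48 .s1 (.nx 694 32769 (.nx 686 324 (.l1 (.ls 71 41 2102)) (.nr 693
  741457 (.lg 0 false 7 97 101 23 0 4047120) .out)) (.nr 701 46342 (.nr 698 566 (.lg 0 true 4 67 67
  23 0 17520) (.nx 700 208065 (.lg 2 false 2 83 83 19 40253 17520) .out)) .out))) .out) .out) (.lg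
  0 false 1 0 0 16 0 24)))))) (.na 808 110 (.na 762 90 (.na 727 66 (.na 726 64 (.nx 725 2097153
  (.nr 724 881745 (.nr 706 57 .s1 (.nx 715 32769 (.nx 707 324 (.l1 (.ls 79 41 1812)) (.nr 714
  741457 (.lg 0 false 7 97 101 23 0 367920) .out)) (.nr 723 46342 (.nr 720 671 (.lg 0 true 5 71 71
  19 0 17520) (.nx 722 208065 (.lg 2 false 2 83 83 13 34075 3504) .out)) .out))) .out) .out) .ne)
  (.na 745 74 (.nx 744 2097153 (.nr 743 2097153 (.nr 728 65 .s1 (.nx 737 32769 (.nx 729 324 (.l1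
  (.ls 83 43 1593)) (.nr 736 1048577 (.lg 0 false 7 97 101 31 0 4047120) .out)) (.nr 742 32769 (.nr
  740 513 (.lg 0 true 3 67 67 29 0 115632) (.nx 741 131073 (.lg 2 true 1 83 83 23 27978 578160)
  .out)) .out))) .out) .out) (.nx 761 2097153 (.nr 760 2097153 (.nr 746 73 .s1 (.nx 747 324 (.l1
  (.ls 83 31 1421)) (.nr 759 1048577 (.nx 752 20644 (.lg 0 false 5 89 89 23 0 17520) (.nr 758 65537
  (.nx 754 131073 (.lg 0 true 2 89 89 19 0 3504) (.nr 757 513 (.lg 0 true 3 67 67 19 0 10512)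
  .out)) .out)) .out))) .out) .out))) (.na 764 94 (.na 763 91 (.lg 0 false 1 0 0 16 0 24) .ne) (.na
  780 102 (.nx 779 2097153 (.nr 778 2097153 (.nr 765 93 .s1 (.nx 766 324 (.l1 (.ls 79 37 1119))
  (.nr 777 1048577 (.nx 774 131073 (.nx 771 20644 (.lg 0 false 5 89 89 23 0 17520) (.nr 773 65537
  (.lg 0 true 2 83 83 19 0 3504) .out)) (.nr 776 513 (.lg 0 true 2 61 61 19 0 3504) .out)) .out)))
  .out) .out) (.na 794 106 (.nx 793 2097153 (.nr 792 2097153 (.nr 781 101 .s1 (.nx 789 131073 (.nx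
  782 324 (.l1 (.ls 79 43 1032)) (.nr 788 1048577 (.nr 784 65537 (.lg 0 false 2 89 89 29 0 52560)
  (.nx 787 20644 (.lg 0 false 3 89 89 31 0 52560) .out)) .out)) (.nr 791 513 (.lg 0 true 2 61 61 29
  0 10512) .out))) .out) .out) (.nx 807 2097153 (.nr 806 2097153 (.nr 795 105 .s1 (.nx 803 131073
  (.nx 796 324 (.l1 (.ls 79 31 993)) (.nr 802 1048577 (.nx 799 20644 (.lg 0 false 3 89 89 23 0
  10512) (.nr 801 65537 (.lg 0 true 2 83 83 19 0 3504) .out)) .out)) (.nr 805 513 (.lg 0 true 2 59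
  59 19 0 3504) .out))) .out) .out))))) (.na 865 128 (.na 837 118 (.na 823 114 (.nx 822 2097153
  (.nr 821 2097153 (.nr 809 110 .s1 (.nx 818 131073 (.nx 810 324 (.l1 (.ls 89 41 957)) (.nr 817
  1048577 (.nx 813 20644 (.lg 0 false 3 97 97 31 0 578160) (.nr 816 65537 (.nr 814 32769 (.lg 0
  false 1 83 83 29 0 192720) (.nx 815 32769 (.lg 0 false 1 71 71 29 0 192720) .out)) .out)) .out))
  (.nr 820 513 (.lg 0 true 2 71 71 31 0 192720) .out))) .out) .out) (.nx 836 2097153 (.nr 835
  2097153 (.nr 824 114 .s1 (.nx 825 324 (.l1 (.ls 79 41 923)) (.nr 834 1048577 (.nr 830 65537 (.nx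
  827 131073 (.lg 0 true 2 83 83 31 0 10512) (.nr 829 513 (.lg 0 true 2 61 61 31 0 10512) .out))
  (.nx 833 20644 (.lg 0 false 3 89 89 31 0 10512) .out)) .out))) .out) .out)) (.na 851 122 (.nx 850
  2097153 (.nr 849 2097153 (.nr 838 118 .s1 (.nx 839 324 (.l1 (.ls 79 31 892)) (.nr 848 1048577
  (.nr 844 65537 (.nx 841 131073 (.lg 0 true 2 83 83 19 0 3504) (.nr 843 513 (.lg 0 true 2 61 61 19
  0 3504) .out)) (.nx 847 20644 (.lg 0 false 3 89 89 23 0 52560) .out)) .out))) .out) .out) (.nx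
  864 2097153 (.nr 863 2097153 (.nr 852 122 .s1 (.nx 860 131073 (.nx 853 324 (.l1 (.ls 79 31 863))
  (.nr 859 1048577 (.nr 855 65537 (.lg 0 true 2 83 83 19 0 3504) (.nx 858 20644 (.lg 0 false 3 89
  89 23 0 52560) .out)) .out)) (.nr 862 513 (.lg 0 true 2 59 59 19 0 3504) .out))) .out) .out)))
  (.na 880 146 (.na 866 134 .ne (.nx 879 1048577 (.nr 878 1482912 (.nr 867 134 .s1 (.nx 869 219
  (.nr 868 1530 (.l1 (.ls 19 29 360)) (.l1 .sk)) (.nx 870 220 (.l1 .sk) (.nx 876 131073 (.nr 872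
  65537 (.lg 0 true 2 79 79 23 0 3504) (.nx 875 16385 (.lg 0 false 3 83 83 23 0 10512) .out)) (.nr
  877 1025 (.lg 0 false 1 67 67 19 0 3504) .out))))) .out) .out)) (.na 896 150 (.nx 895 1048577
  (.nr 894 1482912 (.nr 881 146 .s1 (.nx 884 220 (.nx 883 219 (.nr 882 1572 (.l1 (.ls 16 29 331))
  (.l1 .sk)) (.l1 .sk)) (.nx 891 32769 (.lg 0 false 7 71 71 23 0 24528) (.nr 893 16385 (.lg 0 false
  2 79 79 19 0 52560) .out)))) .out) .out) (.na 909 158 (.nx 908 1048577 (.nr 907 1482912 (.nr 897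
  150 .s1 (.nx 900 220 (.nx 899 219 (.nr 898 1656 (.l1 (.ls 23 37 322)) (.l1 .sk)) (.l1 .sk)) (.nx
  905 131073 (.nr 901 65537 (.lg 0 false 1 83 83 29 0 52560) (.nx 904 16385 (.lg 0 false 3 83 83 31
  0 52560) .out)) (.nr 906 1025 (.lg 0 false 1 67 67 29 0 52560) .out)))) .out) .out) (.nx 920
  1048577 (.nr 919 1482912 (.nr 910 158 .s1 (.nx 912 219 (.nr 911 1698 (.l1 (.ls 17 29 306)) (.l1
  .sk)) (.nx 913 220 (.l1 .sk) (.nx 917 131073 (.nr 914 65537 (.lg 0 false 1 83 83 19 0 3504) (.nx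
  916 16385 (.lg 0 false 2 83 83 23 0 3504) .out)) (.nr 918 1025 (.lg 0 false 1 61 61 19 0 52560)
  .out))))) .out) .out))))))) (.na 1432 363 (.na 997 214 (.na 959 182 (.na 934 170 (.na 922 166
  (.lg 0 false 1 0 0 16 0 24) (.nx 933 1048577 (.nr 932 1482912 (.nr 923 166 .s1 (.nx 926 220 (.nx
  925 219 (.nr 924 1781 (.l1 (.ls 19 29 291)) (.l1 .sk)) (.l1 .sk)) (.nx 930 131073 (.nr 927 65537
  (.lg 0 false 1 83 83 19 0 3504) (.nx 929 16385 (.lg 0 false 2 83 83 23 0 3504) .out)) (.nr 931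
  1025 (.lg 0 false 1 61 61 19 0 3504) .out)))) .out) .out)) (.na 946 174 (.nx 945 1048577 (.nr 944
  1482912 (.nr 935 170 .s1 (.nx 942 131073 (.nx 937 219 (.nr 936 1823 (.l1 (.ls 16 31 285)) (.l1
  .sk)) (.nx 938 220 (.l1 .sk) (.nx 940 16385 (.lg 0 false 2 97 97 31 0 17520) (.nr 941 65537 (.lg
  0 true 1 89 89 31 0 17520) .out)))) (.nr 943 1025 (.lg 0 true 1 67 67 31 0 17520) .out))) .out)
  .out) (.nx 958 1048577 (.nr 957 1482912 (.nr 947 174 .s1 (.nx 955 131073 (.nx 953 16385 (.nx 949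
  219 (.nr 948 1907 (.l1 (.ls 19 37 278)) (.l1 .sk)) (.nx 950 220 (.l1 .sk) (.lg 0 false 3 83 83 37
  0 10512))) (.nr 954 65537 (.lg 0 false 1 83 83 23 0 10512) .out)) (.nr 956 1025 (.lg 0 false 1 67
  67 23 0 52560) .out))) .out) .out))) (.na 972 194 (.na 960 190 .ne (.nx 971 1048577 (.nr 970
  1048577 (.nr 961 190 .s1 (.nx 968 131073 (.nx 963 219 (.nr 962 2033 (.l1 (.ls 17 31 255)) (.l1
  .sk)) (.nx 964 220 (.l1 .sk) (.nr 965 65537 (.lg 0 false 1 89 89 31 0 52560) (.nx 967 16385 (.lg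
  0 false 2 89 89 37 0 52560) .out)))) (.nr 969 1025 (.lg 0 true 1 61 61 31 0 17520) .out))) .out)
  .out)) (.na 984 198 (.nx 983 1048577 (.nr 982 1048577 (.nr 973 194 .s1 (.nx 975 219 (.nr 974 2075
  (.l1 (.ls 19 29 250)) (.l1 .sk)) (.nx 976 220 (.l1 .sk) (.nx 978 32769 (.lg 0 false 2 79 79 23 0
  3504) (.nr 981 16385 (.nr 979 1025 (.lg 0 false 1 61 61 19 0 52560) (.nx 980 131073 (.lg 2 false
  1 47 47 19 14003 3504) .out)) .out))))) .out) .out) (.na 985 202 (.lg 0 false 1 0 0 16 0 24) (.nx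
  996 1048577 (.nr 995 1048577 (.nr 986 202 .s1 (.nx 989 220 (.nx 988 219 (.nr 987 2242 (.l1 (.ls
  19 29 240)) (.l1 .sk)) (.l1 .sk)) (.nx 991 32769 (.lg 0 false 2 79 79 23 0 3504) (.nr 994 16385
  (.nr 992 1025 (.lg 0 false 1 59 59 23 0 3504) (.nx 993 131073 (.lg 2 true 1 47 47 23 14003 3504)
  .out)) .out)))) .out) .out))))) (.na 1039 242 (.na 1019 222 (.na 1009 218 (.nx 1008 1048577 (.nr
  1007 1048577 (.nr 998 214 .s1 (.nx 1001 220 (.nx 1000 219 (.nr 999 2284 (.l1 (.ls 19 29 227))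
  (.l1 .sk)) (.l1 .sk)) (.nx 1003 32769 (.lg 0 false 2 79 79 23 0 3504) (.nr 1006 16385 (.nr 1004
  1025 (.lg 0 false 1 59 59 23 0 3504) (.nx 1005 131073 (.lg 2 false 1 47 47 23 14003 3504) .out))
  .out)))) .out) .out) (.nx 1018 1048577 (.nr 1017 1048577 (.nr 1010 218 .s1 (.nx 1012 219 (.nr
  1011 2326 (.l1 (.ls 17 29 223)) (.l1 .sk)) (.nx 1013 220 (.l1 .sk) (.nx 1015 32769 (.lg 0 false 2
  79 79 23 0 3504) (.nr 1016 16385 (.lg 0 false 1 79 79 23 0 3504) .out))))) .out) .out)) (.na 1029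
  226 (.nx 1028 1048577 (.nr 1027 1048577 (.nr 1020 222 .s1 (.nx 1022 219 (.nr 1021 2368 (.l1 (.ls
  23 31 219)) (.l1 .sk)) (.nx 1023 220 (.l1 .sk) (.nx 1025 32769 (.lg 0 false 2 89 89 31 0 52560)
  (.nr 1026 16385 (.lg 0 false 1 89 89 29 0 52560) .out))))) .out) .out) (.nx 1038 1048577 (.nr
  1037 1048577 (.nr 1030 226 .s1 (.nx 1032 219 (.nr 1031 2536 (.l1 (.ls 19 23 215)) (.l1 .sk)) (.nx
  1033 220 (.l1 .sk) (.nx 1035 32769 (.lg 0 false 2 79 79 23 0 3504) (.nr 1036 16385 (.lg 0 false 1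
  83 83 23 0 3504) .out))))) .out) .out))) (.na 1059 254 (.na 1049 250 (.nx 1048 1048577 (.nr 1047
  1048577 (.nr 1040 242 .s1 (.nx 1043 220 (.nx 1042 219 (.nr 1041 2620 (.l1 (.ls 19 29 201)) (.l1
  .sk)) (.l1 .sk)) (.nx 1045 32769 (.lg 0 false 2 79 79 29 0 38544) (.nr 1046 16385 (.lg 0 false 1
  83 83 29 0 578160) .out)))) .out) .out) (.nx 1058 1048577 (.nr 1057 1048577 (.nr 1050 250 .s1
  (.nx 1053 220 (.nx 1052 219 (.nr 1051 2661 (.l1 (.ls 19 29 194)) (.l1 .sk)) (.l1 .sk)) (.nx 1055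
  32769 (.lg 0 false 2 79 79 29 0 17520) (.nr 1056 16385 (.lg 0 false 1 79 79 29 0 17520) .out))))
  .out) .out)) (.na 1069 256 (.nx 1068 1048577 (.nr 1067 1048577 (.nr 1060 254 .s1 (.nx 1065 32769
  (.nx 1062 219 (.nr 1061 2682 (.l1 (.ls 19 23 191)) (.l1 .sk)) (.nx 1063 220 (.l1 .sk) (.lg 0
  false 2 79 79 23 0 3504))) (.nr 1066 16385 (.lg 0 false 1 79 79 23 0 3504) .out))) .out) .out)
  (.na 1070 257 .ne (.nx 1431 1048577 (.nr 1430 1482912 (.nr 1071 257 .s1 (.nx 1178 219 (.nr 1177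
  3803 (.la (.ls 41 19 189)) (.l1 .sk)) (.nx 1179 220 (.l1 .sk) (.nx 1216 257 (.lx (.lp 43 16 91))
  (.nr 1429 1048577 (.nr 1322 32769 (.la (.lg 0 true 2 79 79 23 0)) (.nx 1428 20644 (.la (.lg 0
  false 2 71 71 23 0)) .out)) .out))))) .out) .out)))))) (.na 11076 8192 (.na 4062 1449 (.na 2606
  725 (.na 1923 512 (.nx 1922 1048577 (.nr 1921 1482912 (.nr 1433 363 .s1 (.nx 1583 219 (.nr 1582
  5364 (.la (.ls 41 19 135)) (.l1 .sk)) (.nx 1584 220 (.l1 .sk) (.nx 1621 257 (.lx (.lp 83 17 129))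
  (.nr 1920 1048577 (.nr 1770 32769 (.la (.lg 0 false 1 79 79 23 0)) (.nx 1919 20644 (.la (.lg 0
  true 1 79 79 23 0)) .out)) .out))))) .out) .out) (.nx 2605 1048577 (.nr 2604 1482912 (.nr 1924
  512 .s1 (.nx 2139 220 (.nx 2138 219 (.nr 2137 7596 (.la (.ls 41 23 182)) (.l1 .sk)) (.l1 .sk))
  (.nx 2176 257 (.lx (.lp 41 16 182)) (.nr 2603 1048577 (.nr 2389 32769 (.la (.lg 0 false 1 79 79
  23 0)) (.nx 2602 20644 (.la (.lg 0 false 1 67 67 23 0)) .out)) .out)))) .out) .out)) (.na 3208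
  1024 (.nx 3207 13005 (.nr 3206 1048577 (.nr 2607 725 .s1 (.nx 2906 2049 (.la (.ls 97 37 5793))
  (.nr 3205 65537 (.la (.lg 0 false 1 41 41 29 0)) .out))) .out) .out) (.nx 4061 13005 (.nr 4060
  1048577 (.nr 3209 1024 .s1 (.nx 3634 3252 (.la (.ls 59 41 10330)) (.nr 4059 32769 (.la (.lg 0
  false 1 31 31 31 0)) .out))) .out) .out))) (.na 5516 2897 (.na 4664 2048 (.nx 4663 8193 (.nr 4662
  1048577 (.nr 4063 1449 .s1 (.la (.ls 59 47 46328))) .out) .out) (.nx 5515 8193 (.nr 5514 1048577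
  (.nr 4665 2048 .s1 (.la (.ls 53 47 32779))) .out) .out)) (.na 6718 4096 (.nx 6717 3252 (.nr 6716
  524289 (.nr 5517 2897 .s1 (.la (.ls 61 37 3653))) .out) .out) (.na 8418 5793 (.nx 8417 3252 (.nr
  8416 524289 (.nr 6719 4096 .s1 (.la (.ls 59 37 2584))) .out) .out) (.nx 11075 1292 (.nr 11074
  262145 (.nr 8419 5793 .s1 (.nx 8675 256 (.nr 8674 131073 (.lx (.lp 43 31 2049)) .out) (.la (.ls
  47 37 2049)))) .out) .out))))) (.na 16253 65536 (.na 13664 16384 (.na 12370 11586 (.nx 12369 1292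
  (.nr 12368 262145 (.nr 11077 8192 .s1 (.lx (.lp 47 41 2897))) .out) .out) (.nx 13663 1292 (.nr
  13662 131073 (.nr 12371 11586 .s1 (.lx (.lp 41 41 4097))) .out) .out)) (.na 14959 32768 (.nx
  14958 1292 (.nr 14957 262145 (.nr 13665 16384 .s1 (.nx 13921 257 (.lx (.lp 16 0 8193)) (.nr 14956
  131073 (.lx (.lp 41 43 8193)) .out))) .out) .out) (.nx 16252 1292 (.nr 16251 262145 (.nr 14960
  32768 .s1 (.lx (.lp 41 47 16385))) .out) .out))) (.na 18062 262144 (.na 17547 131072 (.nx 17546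
  1292 (.nr 17545 524289 (.nr 16254 65536 .s1 (.lx (.lp 41 53 32769))) .out) .out) (.nx 18061 513
  (.nr 18060 524289 (.nr 17548 131072 .s1 (.lx (.lp 16 0 65537))) .out) .out)) (.na 18577 524288
  (.nx 18576 513 (.nr 18575 1048577 (.nr 18063 262144 .s1 (.lx (.lp 16 0 131073))) .out) .out) (.na
  18579 1048577 (.nx 18578 257 (.l1 .sk) .out) .out)))))))

def T109_1 : Ph :=
  (.na 724 14 (.na 535 7 (.na 215 3 (.na 1 2 .ne (.nx 214 3329023 (.nr 213 623489 (.nx 4 154 (.nx 3
  153 (.nr 2 24 (.lg 0 false 1 43 43 5 0 2448) (.l1 .sk)) (.l1 .sk)) (.nx 169 416129 (.nx 58 17448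
  (.nr 30 92683 (.lg 0 false 26 103 107 11 0 12252240) (.nx 43 257 (.lg 0 false 13 83 83 9 0 31824)
  (.nx 44 5160 .out (.nr 57 131073 (.lg 0 false 13 103 107 9 0 12252240) .out)))) (.nr 168 131073
  (.nr 71 450 (.lg 0 true 13 89 89 9 0 31824) (.nx 98 32769 (.nx 84 26009 (.lg 1 false 13 103 107 9
  88032 12252240) (.nr 97 110219 (.lg 1 false 13 103 107 9 49671 12252240) .out)) (.nr 167 92683
  (.nr 125 27556 (.nr 111 2437 (.lg 2 true 13 97 101 9 70742 1113840) (.nx 124 330282 (.lg 2 false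
  13 101 107 9 10368 12252240) .out)) (.nx 166 165142 (.nr 152 77937 (.nr 138 55110 (.lg 2 false 13
  103 107 9 19740 12252240) (.nx 151 131073 (.lg 2 true 13 103 107 9 27893 12252240) .out)) (.nx
  165 82572 (.lg 2 true 13 103 107 9 33160 12252240) .out)) .out)) .out))) .out)) (.nr 212 257 (.nx
  195 1664512 (.lg 0 true 26 89 97 11 0 31824) (.nr 211 9 (.lg 0 true 16 71 71 9 0 2448) .out))
  .out))) .out) .out)) (.na 405 4 (.nx 404 6658044 (.nr 403 1482912 (.nx 217 153 (.nr 216 33 (.lg 0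
  true 1 37 37 5 0 1224) (.l1 .sk)) (.nx 218 154 (.l1 .sk) (.nr 386 131073 (.nx 246 27236 (.lg 0
  false 28 103 107 16 0 12252240) (.nx 350 1048577 (.nr 274 364 (.lg 0 true 28 83 83 16 0 17136)
  (.nx 349 262145 (.nr 281 2904 (.lg 2 true 7 89 89 7 55094 42840) (.nx 309 57052 (.lg 1 false 28
  101 107 16 56395 12252240) (.nx 337 104033 (.lg 1 true 28 101 107 16 26922 12252240) (.nr 348
  65537 (.lg 2 false 11 97 101 7 7391 67320) .out)))) .out)) (.nr 385 33 (.lg 0 true 35 79 79 7 0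
  42840) .out))) (.nx 402 257 (.lg 0 false 16 79 79 16 0 2448) .out)))) .out) .out) (.na 406 6 .ne
  (.nx 534 13316087 (.nr 533 623489 (.nx 486 832257 (.nx 408 153 (.nr 407 61 (.lg 0 true 1 37 37 7
  0 188496) (.l1 .sk)) (.nx 409 154 (.l1 .sk) (.nx 410 205 (.l1 (.ls 83 43 3054)) (.nr 485 370729
  (.nx 436 28089 (.nr 425 131073 (.lg 0 false 15 101 103 13 0 942480) (.nx 435 1627 (.lg 0 false 10
  83 83 13 0 12240) .out)) (.nr 484 155873 (.nr 451 1026 (.lg 0 true 15 89 89 13 0 12240) (.nx 483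
  660563 (.nx 462 52015 (.nr 461 131073 (.lg 1 false 10 101 101 13 54682 942480) .out) (.nr 467
  8201 (.lg 2 false 5 97 97 11 49253 942480) (.nx 477 131073 (.lg 1 true 10 101 103 13 35110
  942480) (.nr 482 65537 (.lg 2 true 5 97 97 11 6162 942480) .out)))) .out)) .out)) .out)))) (.nr
  532 129 (.nr 521 41 (.lg 0 true 35 79 79 13 0 85680) (.nx 531 1664512 (.lg 0 true 10 71 71 13 0
  12240) .out)) .out)) .out) .out)))) (.na 628 11 (.na 627 8 (.nx 626 13316087 (.nr 625 262145 (.nx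
  538 154 (.nx 537 153 (.nr 536 69 (.lg 0 true 1 31 31 9 0 42840) (.l1 .sk)) (.l1 .sk)) (.nx 598
  1664512 (.nx 554 26007 (.nr 549 110219 (.lg 0 false 11 97 101 16 0 471240) (.nx 553 1627 (.lg 0
  false 4 97 97 13 0 85680) .out)) (.nr 597 131073 (.nr 565 626 (.lg 0 true 11 89 89 16 0 94248)
  (.nx 596 524289 (.nx 576 52015 (.lg 1 false 11 97 103 16 59060 6126120) (.nr 584 46342 (.nr 580
  5389 (.lg 2 true 4 97 97 13 64071 85680) (.lg 2 false 4 97 101 13 10463 85680)) (.nx 595 416129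
  (.lg 2 false 11 101 107 16 29529 6126120) .out))) .out)) .out)) (.nr 624 47 (.lg 0 true 26 83 83
  16 0 222768) .out))) .out) .out) .ne) (.na 672 12 (.nx 671 1664512 (.nr 670 623489 (.nx 631 154
  (.nx 630 153 (.nr 629 105 (.lg 0 true 1 29 29 9 0 13464) (.l1 .sk)) (.l1 .sk)) (.nx 662 524289
  (.nx 644 26007 (.nr 636 110219 (.lg 0 false 5 97 101 16 0 67320) (.nx 643 2582 (.nx 641 1292 (.lg
  0 false 5 83 83 16 0 67320) (.nr 642 131073 (.lg 0 true 1 79 79 9 0 13464) .out)) .out)) (.nr 661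
  131073 (.nr 649 1621 (.lg 0 true 5 83 83 16 0 67320) (.nx 660 416129 (.nx 654 65537 (.lg 1 false
  5 103 107 16 59060 12252240) (.nr 659 110219 (.lg 2 false 5 97 101 16 19712 67320) .out)) .out))
  .out)) (.nr 669 65 (.lg 0 true 7 71 71 16 0 94248) .out))) .out) .out) (.na 673 13 .ne (.nx 723
  1664512 (.nr 722 623489 (.nr 674 5 .s1 (.nx 686 13003 (.nx 676 153 (.nr 675 123 (.lg 0 true 1 37
  37 9 0 556920) (.l1 .sk)) (.nx 677 154 (.l1 .sk) (.nr 681 155873 (.lg 0 true 4 103 103 16 0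
  12252240) (.nx 685 1292 (.lg 0 false 4 89 89 16 0 31824) .out)))) (.nr 721 110219 (.nr 716 77937
  (.nr 706 46342 (.nr 697 829 (.nx 691 524289 (.lg 0 true 5 83 83 16 0 79560) (.nr 696 65 (.lg 0
  true 5 71 71 16 0 79560) .out)) (.nx 705 416129 (.lg 2 true 8 83 83 16 41854 31824) .out)) (.nx
  715 208065 (.nx 710 131073 (.lg 0 true 4 107 107 16 0 12252240) (.nr 714 55110 (.lg 0 true 4 97
  101 16 0 1113840) .out)) .out)) (.nx 720 82572 (.lg 0 true 4 103 107 16 0 12252240) .out))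
  .out))) .out) .out))))) (.na 879 22 (.na 766 17 (.na 765 16 (.nx 764 1664512 (.nr 763 623489 (.nr
  725 7 .s1 (.nx 757 524289 (.nx 727 153 (.nr 726 140 (.lg 0 true 1 29 29 11 0 17136) (.l1 .sk))
  (.nx 728 154 (.l1 .sk) (.nr 751 155873 (.nx 733 19482 (.lg 0 false 5 101 101 13 0 85680) (.nr 750
  110219 (.nr 738 1621 (.lg 0 true 5 89 89 13 0 85680) (.nx 749 416129 (.nx 743 65537 (.lg 1 false
  5 103 107 13 66312 12252240) (.nr 748 92683 (.lg 2 false 5 97 101 13 19639 85680) .out)) .out))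
  .out)) (.nx 756 1292 (.lg 0 false 5 83 83 13 0 85680) .out)))) (.nr 762 65 (.lg 0 true 5 71 71 13
  0 85680) .out))) .out) .out) .ne) (.na 811 18 (.nx 810 1664512 (.nr 809 1048577 (.nr 767 12 .s1
  (.nx 770 154 (.nx 769 153 (.nr 768 158 (.l1 (.ls 19 31 1379)) (.l1 .sk)) (.l1 .sk)) (.nx 787
  23171 (.nx 771 257 (.l1 (.ls 73 37 2493)) (.nr 786 623489 (.nr 778 220437 (.lg 0 false 7 89 89 16
  0 8568) (.nx 785 1627 (.lg 0 false 7 73 73 16 0 8568) .out)) .out)) (.nr 808 92683 (.nr 800 634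
  (.lg 0 true 13 73 73 16 0 15912) (.nx 807 262145 (.lg 2 false 7 89 89 16 46896 8568) .out))
  .out)))) .out) .out) (.na 848 21 (.nx 847 1664512 (.nr 846 1048577 (.nr 812 14 .s1 (.nx 840
  262145 (.nx 814 153 (.nr 813 184 (.lg 0 false 1 31 31 13 0 12240) (.l1 .sk)) (.nx 815 154 (.l1
  .sk) (.nx 828 23171 (.nx 816 257 (.l1 (.ls 89 43 2354)) (.nr 827 623489 (.nr 823 220437 (.lg 0
  false 7 97 101 23 0 85680) (.nx 826 1627 (.lg 0 false 3 89 89 19 0 12240) .out)) .out)) (.nr 839
  92683 (.nr 831 1854 (.lg 0 true 3 83 83 19 0 2448) (.nx 833 41287 (.lg 1 false 2 97 97 13 46896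
  12240) (.nr 838 77937 (.lg 2 false 5 89 97 19 22139 12240) .out))) .out)))) (.nr 845 217 (.lg 0
  true 5 79 79 19 0 12240) .out))) .out) .out) (.nx 878 1664512 (.nr 877 1048577 (.nr 849 17 .s1
  (.nx 852 154 (.nx 851 153 (.nr 850 193 (.lg 0 false 1 23 23 16 0 8568) (.l1 .sk)) (.l1 .sk)) (.nx
  865 23171 (.nx 853 257 (.l1 (.ls 79 37 2018)) (.nr 864 623489 (.nr 858 220437 (.lg 0 false 5 97
  97 17 0 42840) (.nx 863 1627 (.lg 0 false 5 79 79 17 0 42840) .out)) .out)) (.nr 876 92683 (.nr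
  870 634 (.lg 0 true 5 79 79 17 0 42840) (.nx 875 262145 (.lg 2 false 5 89 97 17 46896 42840)
  .out)) .out)))) .out) .out)))) (.na 913 26 (.na 912 23 (.nx 911 1664512 (.nr 910 1048577 (.nr 880
  19 .s1 (.nx 882 153 (.nr 881 202 (.lg 0 true 1 31 31 9 0 942480) (.l1 .sk)) (.nx 883 154 (.l1
  .sk) (.nx 884 257 (.l1 (.ls 89 41 1927)) (.nr 909 623489 (.nr 903 220437 (.nx 889 23171 (.lg 0
  false 5 101 101 19 0 942480) (.nr 902 92683 (.nr 896 634 (.lg 0 true 7 83 83 19 0 188496) (.nx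
  901 262145 (.lg 2 false 5 101 103 19 46896 942480) .out)) .out)) (.nx 908 1627 (.lg 0 false 5 83
  83 19 0 134640) .out)) .out))))) .out) .out) .ne) (.na 938 27 (.nx 937 1664512 (.nr 936 1048577
  (.nr 914 23 .s1 (.nx 917 154 (.nx 916 153 (.nr 915 237 (.lg 0 true 1 23 23 11 0 31824) (.l1 .sk))
  (.l1 .sk)) (.nx 924 20644 (.nx 918 257 (.l1 (.ls 83 41 1631)) (.nr 923 311745 (.lg 0 false 5 97
  97 19 0 159120) .out)) (.nr 935 77937 (.nr 929 513 (.lg 0 true 5 79 79 19 0 159120) (.nx 934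
  165142 (.lg 2 false 5 97 101 19 44276 1113840) .out)) .out)))) .out) .out) (.na 973 32 (.nx 972
  1664512 (.nr 971 1048577 (.nr 939 25 .s1 (.nx 942 154 (.nx 941 153 (.nr 940 281 (.l1 (.ls 37 29
  869)) (.l1 .sk)) (.l1 .sk)) (.nx 966 208065 (.nx 964 165142 (.nx 953 20644 (.nx 943 257 (.l1 (.ls
  97 31 1570)) (.nr 952 311745 (.nr 947 110219 (.lg 0 false 4 89 89 16 0 2448) (.nx 951 8193 (.lg 0
  false 4 97 103 16 0 12252240) .out)) .out)) (.nr 963 77937 (.nr 957 8487 (.lg 0 true 4 83 89 17 0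
  2448) (.nr 961 55110 (.lg 2 false 4 79 79 16 31334 2448) (.nx 962 65537 (.lg 0 false 1 107 107 16
  0 12252240) .out))) .out)) (.nr 965 513 (.lg 0 false 1 73 73 16 0 471240) .out)) (.nr 970 217
  (.lg 0 true 4 73 79 17 0 2448) .out)))) .out) .out) .ne)))))

def T109_2 : Ph :=
  (.na 611 143 (.na 386 70 (.na 229 33 (.na 133 20 (.na 53 13 (.na 1 10 .ne (.na 28 11 (.nx 27
  660563 (.nr 26 623489 (.nr 2 7 .s1 (.nx 4 55 (.nr 3 58 (.l1 (.ls 17 29 305)) (.l1 .sk)) (.nx 5 56
  (.l1 .sk) (.nx 6 103 (.l1 (.ls 79 37 750)) (.nr 25 131073 (.nx 13 6503 (.lg 0 false 7 83 83 13 0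
  18480) (.nr 24 46342 (.nr 20 154 (.lg 0 true 7 67 67 13 0 18480) (.nx 23 41287 (.lg 1 false 3 83
  83 11 10793 7920) .out)) .out)) .out))))) .out) .out) (.nx 52 660563 (.nr 51 623489 (.nr 29 9 .s1
  (.nx 30 103 (.l1 (.ls 73 29 967)) (.nr 50 131073 (.nx 37 6503 (.lg 0 false 7 79 79 16 0 9240)
  (.nr 49 46342 (.nr 44 154 (.lg 0 true 7 67 67 16 0 9240) (.nx 48 41287 (.lg 1 false 4 79 79 9
  10793 2640) .out)) .out)) .out))) .out) .out))) (.na 96 16 (.na 74 14 (.nx 73 660563 (.nr 72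
  623489 (.nr 54 11 .s1 (.nx 56 55 (.nr 55 74 (.l1 (.ls 23 19 235)) (.l1 .sk)) (.nx 57 56 (.l1 .sk)
  (.nx 58 103 (.l1 (.ls 83 23 577)) (.nr 71 131073 (.nx 62 6503 (.lg 0 false 4 89 89 16 0 34320)
  (.nr 70 46342 (.nr 66 154 (.lg 0 true 4 71 71 16 0 34320) (.nx 69 41287 (.lg 1 true 3 97 97 11
  10793 720720) .out)) .out)) .out))))) .out) .out) (.nx 95 660563 (.nr 94 623489 (.nr 75 12 .s1
  (.nx 83 6503 (.nx 79 103 (.nx 77 55 (.nr 76 84 (.l1 (.ls 23 29 219)) (.l1 .sk)) (.nx 78 56 (.l1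
  .sk) (.l1 (.ls 83 31 536)))) (.nr 82 131073 (.lg 0 true 3 89 89 13 0 55440) .out)) (.nr 93 46342
  (.nr 89 154 (.lg 0 true 6 71 71 13 0 55440) (.nx 92 41287 (.lg 1 true 3 89 89 13 10793 55440)
  .out)) .out))) .out) .out)) (.na 115 17 (.nx 114 660563 (.nr 113 623489 (.nr 97 15 .s1 (.nx 100
  56 (.nx 99 55 (.nr 98 90 (.l1 (.ls 29 23 192)) (.l1 .sk)) (.l1 .sk)) (.nx 101 103 (.l1 (.ls 83 29
  470)) (.nr 112 131073 (.nx 104 6503 (.lg 0 false 3 89 89 13 0 7920) (.nr 111 46342 (.nr 107 257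
  (.lg 0 true 3 73 73 13 0 7920) (.nx 110 41287 (.lg 1 true 3 89 97 13 10793 55440) .out)) .out))
  .out)))) .out) .out) (.nx 132 660563 (.nr 131 623489 (.nr 116 16 .s1 (.nx 117 103 (.l1 (.ls 83 23
  627)) (.nr 130 131073 (.nx 121 6503 (.lg 0 false 4 89 89 16 0 2640) (.nr 129 46342 (.nr 125 257
  (.lg 0 true 4 73 73 16 0 2640) (.nx 128 41287 (.lg 1 true 3 83 83 16 10793 3960) .out)) .out))
  .out))) .out) .out)))) (.na 168 26 (.na 166 23 (.na 150 22 (.nx 149 660563 (.nr 148 623489 (.nr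
  134 19 .s1 (.nx 139 6503 (.nx 135 103 (.l1 (.ls 79 31 533)) (.nr 138 131073 (.lg 0 true 3 89 89
  13 0 55440) .out)) (.nr 147 46342 (.nr 143 257 (.lg 0 true 4 71 71 17 0 2640) (.nx 146 41287 (.lg
  1 true 3 83 83 13 10793 55440) .out)) .out))) .out) .out) (.nx 165 660563 (.nr 164 623489 (.nr
  151 21 .s1 (.nx 152 103 (.l1 (.ls 73 31 485)) (.nr 163 131073 (.nx 155 6503 (.lg 0 true 3 79 79
  13 0 7920) (.nr 162 46342 (.nr 158 257 (.lg 0 false 3 71 71 13 0 55440) (.nx 161 41287 (.lg 1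
  false 3 73 73 13 10793 7920) .out)) .out)) .out))) .out) .out)) (.na 167 25 .ne (.lg 0 false 1 0
  0 7 0 24))) (.na 199 31 (.na 183 28 (.nx 182 660563 (.nr 181 131073 (.nr 169 25 .s1 (.nx 172 56
  (.nx 171 55 (.nr 170 148 (.l1 (.ls 23 23 119)) (.l1 .sk)) (.l1 .sk)) (.nx 175 6503 (.lg 0 false 3
  83 83 11 0 102960) (.nr 180 32769 (.nr 178 257 (.lg 0 true 3 71 71 11 0 102960) (.nx 179 41287
  (.lg 1 false 1 89 89 11 7635 720720) .out)) .out)))) .out) .out) (.nx 198 660563 (.nr 197 131073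
  (.nr 184 28 .s1 (.nr 188 257 (.nx 185 200 (.l1 (.ls 37 41 1431)) (.lg 0 true 3 73 73 19 0 55440))
  (.nx 190 56 (.nx 189 55 (.l1 .sk) (.l1 .sk)) (.nx 196 41287 (.nr 193 32769 (.lg 0 false 3 83 83
  19 0 55440) (.nx 195 6503 (.lg 0 false 2 89 97 19 0 55440) .out)) .out)))) .out) .out)) (.na 214
  32 (.nx 213 660563 (.nr 212 131073 (.nr 200 31 .s1 (.nx 203 56 (.nx 202 55 (.nr 201 169 (.l1 (.ls
  17 16 100)) (.l1 .sk)) (.l1 .sk)) (.nx 206 6503 (.lg 0 false 3 83 83 16 0 3960) (.nr 211 32769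
  (.nr 209 257 (.lg 0 true 3 67 67 16 0 3960) (.nx 210 41287 (.lg 1 false 1 83 83 13 7635 2640)
  .out)) .out)))) .out) .out) (.nx 228 660563 (.nr 227 262145 (.nr 215 32 .s1 (.nx 218 56 (.nx 217
  55 (.nr 216 174 (.l1 (.ls 23 19 97)) (.l1 .sk)) (.l1 .sk)) (.nx 221 6503 (.lg 0 false 3 83 89 19
  0 7920) (.nr 226 32769 (.nr 224 257 (.lg 0 true 3 71 71 19 0 7920) (.nx 225 41287 (.lg 1 false 1
  79 79 13 7635 2640) .out)) .out)))) .out) .out))))) (.na 301 52 (.na 267 43 (.na 241 35 (.na 230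
  34 .ne (.nx 240 82572 (.nr 239 262145 (.nr 231 34 .s1 (.nx 233 55 (.nr 232 185 (.l1 (.ls 16 23
  91)) (.l1 .sk)) (.nx 234 56 (.l1 .sk) (.nr 237 32769 (.lg 0 false 3 97 97 13 0 55440) (.nx 238
  2582 (.lg 0 true 1 89 89 13 0 18480) .out))))) .out) .out)) (.na 254 40 (.nx 253 82572 (.nr 252
  262145 (.nr 242 35 .s1 (.nx 244 55 (.nr 243 211 (.l1 (.ls 23 17 89)) (.l1 .sk)) (.nx 245 56 (.l1
  .sk) (.nr 248 32769 (.lg 0 true 3 89 89 16 0 55440) (.nx 251 2582 (.lg 0 false 3 79 79 16 0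
  27720) .out))))) .out) .out) (.nx 266 82572 (.nr 265 262145 (.nr 255 40 .s1 (.nx 258 56 (.nx 257
  55 (.nr 256 227 (.l1 (.ls 23 19 78)) (.l1 .sk)) (.l1 .sk)) (.nx 263 41287 (.nr 260 32769 (.lg 0
  true 2 83 83 19 0 2640) (.nx 262 2582 (.lg 0 false 2 79 83 19 0 2640) .out)) (.nr 264 154 (.lg 0
  true 1 53 53 19 0 2640) .out)))) .out) .out))) (.na 289 49 (.na 278 44 (.nx 277 82572 (.nr 276
  262145 (.nr 268 43 .s1 (.nx 271 56 (.nx 270 55 (.nr 269 232 (.l1 (.ls 17 16 73)) (.l1 .sk)) (.l1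
  .sk)) (.nr 274 32769 (.lg 0 true 3 89 89 16 0 3960) (.nx 275 2582 (.lg 0 true 1 83 83 16 0 1320)
  .out)))) .out) .out) (.nx 288 82572 (.nr 287 262145 (.nr 279 44 .s1 (.nx 282 56 (.nx 281 55 (.nr
  280 259 (.l1 (.ls 19 23 71)) (.l1 .sk)) (.l1 .sk)) (.nr 285 32769 (.lg 0 true 3 83 83 19 0 7920)
  (.nx 286 2582 (.lg 0 true 1 83 83 13 0 2640) .out)))) .out) .out)) (.na 300 50 (.nx 299 82572
  (.nr 298 262145 (.nr 290 49 .s1 (.nx 292 55 (.nr 291 264 (.l1 (.ls 17 16 64)) (.l1 .sk)) (.nx 293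
  56 (.l1 .sk) (.nr 296 32769 (.lg 0 true 3 83 83 16 0 27720) (.nx 297 2582 (.lg 0 true 1 79 79 16
  0 18480) .out))))) .out) .out) (.lg 0 false 1 0 0 16 0 24)))) (.na 345 62 (.na 324 56 (.na 312 55
  (.nx 311 82572 (.nr 310 262145 (.nr 302 52 .s1 (.nx 304 55 (.nr 303 290 (.l1 (.ls 29 19 61)) (.l1
  .sk)) (.nx 305 56 (.l1 .sk) (.nr 308 32769 (.nx 306 41287 (.lg 0 false 1 89 89 19 0 34320) (.nr
  307 154 (.lg 0 true 1 53 53 19 0 34320) .out)) (.nx 309 2582 (.lg 0 true 1 83 83 19 0 34320)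
  .out))))) .out) .out) (.nx 323 82572 (.nr 322 262145 (.nr 313 55 .s1 (.nx 315 55 (.nr 314 295
  (.lg 0 true 1 0 16 16 0 720720) (.l1 .sk)) (.nx 316 56 (.l1 .sk) (.nr 319 32769 (.lg 0 false 3 73
  73 16 0 3960) (.nx 321 2582 (.lg 0 true 2 71 71 16 0 2640) .out))))) .out) .out)) (.na 335 59
  (.nx 334 82572 (.nr 333 262145 (.nr 325 56 .s1 (.nx 327 55 (.nr 326 311 (.l1 (.ls 31 19 57)) (.l1
  .sk)) (.nx 328 56 (.l1 .sk) (.nx 331 41287 (.nr 329 32769 (.lg 0 false 1 89 89 23 0 18480) (.nx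
  330 2582 (.lg 0 false 1 89 89 23 0 18480) .out)) (.nr 332 154 (.lg 0 true 1 53 59 23 0 18480)
  .out))))) .out) .out) (.nx 344 82572 (.nr 343 262145 (.nr 336 59 .s1 (.nx 339 56 (.nx 338 55 (.nr
  337 327 (.l1 (.ls 16 16 54)) (.l1 .sk)) (.l1 .sk)) (.nr 341 32769 (.lg 0 false 2 83 83 16 0 2640)
  (.nx 342 2582 (.lg 0 true 1 79 79 16 0 2640) .out)))) .out) .out))) (.na 366 65 (.na 356 64 (.nx
  355 82572 (.nr 354 262145 (.nr 346 62 .s1 (.nx 348 55 (.nr 347 338 (.l1 (.ls 19 17 51)) (.l1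
  .sk)) (.nx 349 56 (.l1 .sk) (.nr 352 32769 (.lg 0 true 3 83 83 19 0 7920) (.nx 353 2582 (.lg 0
  true 1 83 83 13 0 55440) .out))))) .out) .out) (.nx 365 82572 (.nr 364 524289 (.nr 357 64 .s1
  (.nx 360 6503 (.nx 358 647 (.l1 (.ls 79 43 6543)) (.nr 359 262145 (.lg 0 true 1 89 89 17 0 55440)
  .out)) (.nr 363 65537 (.nx 361 41287 (.lg 1 false 1 79 79 17 17741 2640) (.nr 362 257 (.lg 0 true
  1 53 53 17 0 2640) .out)) .out))) .out) .out)) (.na 376 68 (.nx 375 82572 (.nr 374 524289 (.nr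
  367 65 .s1 (.nx 372 41287 (.nx 368 647 (.l1 (.ls 73 43 6443)) (.nr 371 262145 (.lg 0 false 3 89
  89 17 0 51480) .out)) (.nr 373 257 (.lg 0 false 1 47 47 16 0 17160) .out))) .out) .out) (.nx 385
  82572 (.nr 384 524289 (.nr 377 68 .s1 (.nx 378 647 (.l1 (.ls 79 47 6159)) (.nr 383 262145 (.nx
  381 41287 (.nx 379 6503 (.lg 0 true 1 89 89 13 0 2640) (.nr 380 65537 (.lg 1 false 1 79 79 13
  16697 2640) .out)) (.nr 382 257 (.lg 0 true 1 53 53 13 0 2640) .out)) .out))) .out) .out))))))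
  (.na 533 112 (.na 466 88 (.na 426 80 (.na 406 73 (.na 396 71 (.nx 395 82572 (.nr 394 524289 (.nr
  387 70 .s1 (.nx 392 41287 (.nx 388 647 (.l1 (.ls 73 53 5983)) (.nr 391 262145 (.lg 0 false 3 89
  89 29 0 55440) .out)) (.nr 393 257 (.lg 0 false 1 47 47 23 0 18480) .out))) .out) .out) (.nx 405
  82572 (.nr 404 524289 (.nr 397 71 .s1 (.nx 398 647 (.l1 (.ls 67 37 5898)) (.nr 403 262145 (.nx
  401 41287 (.lg 0 false 3 97 97 16 0 55440) (.nr 402 257 (.lg 0 true 1 43 43 16 0 1320) .out))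
  .out))) .out) .out)) (.na 416 77 (.nx 415 82572 (.nr 414 524289 (.nr 407 73 .s1 (.nx 408 647 (.l1
  (.ls 71 37 5737)) (.nr 413 262145 (.nx 411 41287 (.lg 0 false 3 89 89 16 0 3960) (.nr 412 257
  (.lg 0 true 1 43 43 16 0 1320) .out)) .out))) .out) .out) (.nx 425 82572 (.nr 424 524289 (.nr 417
  77 .s1 (.nx 418 647 (.l1 (.ls 71 43 5439)) (.nr 423 262145 (.nx 421 41287 (.lg 0 false 3 89 89 19
  0 55440) (.nr 422 257 (.lg 0 true 1 43 43 17 0 18480) .out)) .out))) .out) .out))) (.na 446 85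
  (.na 436 83 (.nx 435 82572 (.nr 434 524289 (.nr 427 80 .s1 (.nx 432 41287 (.nx 430 6503 (.nx 428
  647 (.l1 (.ls 73 47 5235)) (.nr 429 262145 (.lg 0 true 1 83 83 23 0 7920) .out)) (.nr 431 65537
  (.lg 1 false 1 73 73 23 15257 2640) .out)) (.nr 433 257 (.lg 0 true 1 47 47 23 0 2640) .out)))
  .out) .out) (.nx 445 82572 (.nr 444 524289 (.nr 437 83 .s1 (.nx 442 41287 (.nx 438 647 (.l1 (.ls
  71 37 5046)) (.nr 441 262145 (.lg 0 false 3 89 89 16 0 3960) .out)) (.nr 443 257 (.lg 0 true 1 43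
  43 16 0 18480) .out))) .out) .out)) (.na 456 86 (.nx 455 82572 (.nr 454 524289 (.nr 447 85 .s1
  (.nx 452 41287 (.nx 448 647 (.l1 (.ls 71 41 4927)) (.nr 451 262145 (.lg 0 false 3 89 89 16 0
  3960) .out)) (.nr 453 257 (.lg 0 true 1 43 43 16 0 1320) .out))) .out) .out) (.nx 465 82572 (.nr
  464 524289 (.nr 457 86 .s1 (.nx 458 647 (.l1 (.ls 73 41 4870)) (.nr 463 262145 (.nx 461 41287
  (.lg 0 false 3 89 89 19 0 7920) (.nr 462 257 (.lg 0 false 1 47 47 13 0 2640) .out)) .out))) .out)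
  .out)))) (.na 504 100 (.na 486 91 (.na 476 89 (.nx 475 82572 (.nr 474 524289 (.nr 467 88 .s1 (.nx
  468 647 (.l1 (.ls 73 47 4759)) (.nr 473 262145 (.nx 469 6503 (.lg 0 true 1 79 79 23 0 2640) (.nr
  472 65537 (.nx 470 41287 (.lg 1 false 1 73 73 23 15257 2640) (.nr 471 257 (.lg 0 true 1 47 47 23
  0 2640) .out)) .out)) .out))) .out) .out) (.nx 485 82572 (.nr 484 524289 (.nr 477 89 .s1 (.nx 482
  41287 (.nx 478 647 (.l1 (.ls 71 37 4706)) (.nr 481 262145 (.lg 0 false 3 83 83 16 0 3960) .out))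
  (.nr 483 257 (.lg 0 true 1 41 41 16 0 1320) .out))) .out) .out)) (.na 494 98 (.nx 493 82572 (.nr
  492 524289 (.nr 487 91 .s1 (.nx 488 647 (.l1 (.ls 79 41 4603)) (.nr 491 262145 (.nx 489 6503 (.lg
  0 true 1 83 83 19 0 120120) (.nr 490 65537 (.lg 1 false 1 83 83 19 24954 120120) .out)) .out)))
  .out) .out) (.nx 503 82572 (.nr 502 524289 (.nr 495 98 .s1 (.nx 496 647 (.l1 (.ls 71 43 4274))
  (.nr 501 262145 (.nx 499 41287 (.lg 0 false 3 83 83 23 0 55440) (.nr 500 257 (.lg 0 true 1 43 43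
  19 0 55440) .out)) .out))) .out) .out))) (.na 515 107 (.na 505 104 (.lg 0 false 1 0 0 16 0 24)
  (.nx 514 82572 (.nr 513 524289 (.nr 506 104 .s1 (.nx 509 6503 (.nx 507 647 (.l1 (.ls 83 43 4028))
  (.nr 508 262145 (.lg 0 false 1 89 89 29 0 240240) .out)) (.nr 512 65537 (.nx 510 41287 (.lg 1
  true 1 83 83 29 15257 240240) (.nr 511 257 (.lg 0 true 1 53 59 29 0 240240) .out)) .out))) .out)
  .out)) (.na 525 110 (.nx 524 82572 (.nr 523 524289 (.nr 516 107 .s1 (.nx 517 647 (.l1 (.ls 67 31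
  3915)) (.nr 522 262145 (.nx 520 41287 (.lg 0 false 3 79 79 16 0 3960) (.nr 521 257 (.lg 0 true 1
  37 37 16 0 1320) .out)) .out))) .out) .out) (.nx 532 82572 (.nr 531 524289 (.nr 526 110 .s1 (.nx
  527 647 (.l1 (.ls 61 47 3808)) (.nr 530 262145 (.lg 0 true 3 79 79 29 0 7920) .out))) .out)
  .out))))) (.na 583 129 (.na 558 124 (.na 549 119 (.na 541 118 (.nx 540 82572 (.nr 539 524289 (.nr
  534 112 .s1 (.nx 537 6503 (.nx 535 647 (.l1 (.ls 79 43 3740)) (.nr 536 262145 (.lg 0 false 1 83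
  83 29 0 18480) .out)) (.nr 538 65537 (.lg 1 true 1 83 83 29 20275 18480) .out))) .out) .out) (.nx
  548 82572 (.nr 547 524289 (.nr 542 118 .s1 (.nx 543 647 (.l1 (.ls 73 41 3550)) (.nr 546 262145
  (.lg 0 false 3 97 97 23 0 55440) .out))) .out) .out)) (.na 557 121 (.nx 556 82572 (.nr 555 524289
  (.nr 550 119 .s1 (.nx 553 6503 (.nx 551 647 (.l1 (.ls 73 41 3520)) (.nr 552 262145 (.lg 0 true 1
  83 83 16 0 18480) .out)) (.nr 554 65537 (.lg 1 false 1 83 83 16 19082 18480) .out))) .out) .out)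
  (.lg 0 false 1 0 0 16 0 24))) (.na 567 127 (.na 566 125 (.nx 565 82572 (.nr 564 524289 (.nr 559
  124 .s1 (.nx 562 6503 (.nx 560 647 (.l1 (.ls 73 43 3378)) (.nr 561 262145 (.lg 0 false 1 79 79 19
  0 2640) .out)) (.nr 563 65537 (.lg 1 false 1 79 79 19 18313 2640) .out))) .out) .out) (.lg 0
  false 1 0 0 16 0 24)) (.na 575 128 (.nx 574 82572 (.nr 573 524289 (.nr 568 127 .s1 (.nx 569 647
  (.l1 (.ls 67 31 3299)) (.nr 572 262145 (.lg 0 false 3 89 89 17 0 55440) .out))) .out) .out) (.nx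
  582 82572 (.nr 581 1048577 (.nr 576 128 .s1 (.nx 579 6503 (.nx 577 647 (.l1 (.ls 73 41 3273))
  (.nr 578 262145 (.lg 0 false 1 73 73 19 0 2640) .out)) (.nr 580 131073 (.lg 1 false 1 79 79 19
  30501 2640) .out))) .out) .out)))) (.na 597 137 (.na 590 131 (.na 584 130 .ne (.nx 589 41287 (.nr
  588 1048577 (.nr 585 130 .s1 (.nx 586 647 (.l1 (.ls 73 47 3223)) (.nr 587 131073 (.lg 0 true 1 83
  83 29 0 34320) .out))) .out) .out)) (.na 591 136 (.lg 0 false 1 0 0 16 0 24) (.nx 596 41287 (.nr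
  595 1048577 (.nr 592 136 .s1 (.nx 593 647 (.l1 (.ls 83 43 3081)) (.nr 594 131073 (.lg 0 false 1
  97 97 29 0 7920) .out))) .out) .out))) (.na 599 140 (.na 598 139 (.lg 0 false 1 0 0 16 0 24) (.lg
  0 false 1 0 0 16 0 24)) (.na 605 142 (.nx 604 41287 (.nr 603 1048577 (.nr 600 140 .s1 (.nx 601
  647 (.l1 (.ls 79 47 2993)) (.nr 602 131073 (.lg 0 true 1 83 83 29 0 18480) .out))) .out) .out)
  (.nx 610 41287 (.nr 609 1048577 (.nr 606 142 .s1 (.nx 607 647 (.l1 (.ls 67 41 2950)) (.nr 608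
  131073 (.lg 0 true 1 83 83 19 0 2640) .out))) .out) .out))))))) (.na 762 215 (.na 681 175 (.na
  638 160 (.na 624 151 (.na 617 146 (.nx 616 41287 (.nr 615 1048577 (.nr 612 143 .s1 (.nx 613 647
  (.l1 (.ls 71 41 2930)) (.nr 614 131073 (.lg 0 true 1 79 79 19 0 17160) .out))) .out) .out) (.na
  623 149 (.nx 622 41287 (.nr 621 1048577 (.nr 618 146 .s1 (.nx 619 647 (.l1 (.ls 71 41 2870)) (.nr
  620 131073 (.lg 0 true 1 83 83 19 0 18480) .out))) .out) .out) (.lg 0 false 1 0 0 16 0 24))) (.na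
  631 155 (.na 625 154 (.lg 0 false 1 0 0 16 0 24) (.nx 630 41287 (.nr 629 1048577 (.nr 626 154 .s1
  (.nx 627 647 (.l1 (.ls 73 47 2721)) (.nr 628 131073 (.lg 0 true 1 83 83 29 0 55440) .out))) .out)
  .out)) (.na 637 157 (.nx 636 41287 (.nr 635 1048577 (.nr 632 155 .s1 (.nx 633 647 (.l1 (.ls 71 41
  2703)) (.nr 634 131073 (.lg 0 true 1 79 79 17 0 1320) .out))) .out) .out) (.lg 0 false 1 0 0 16 0
  24)))) (.na 657 169 (.na 645 166 (.na 644 163 (.nx 643 41287 (.nr 642 1048577 (.nr 639 160 .s1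
  (.nx 640 647 (.l1 (.ls 73 43 2619)) (.nr 641 131073 (.lg 0 true 1 83 83 29 0 18480) .out))) .out)
  .out) (.lg 0 false 1 0 0 16 0 24)) (.na 651 167 (.nx 650 41287 (.nr 649 1048577 (.nr 646 166 .s1
  (.nx 647 647 (.l1 (.ls 71 41 2524)) (.nr 648 131073 (.lg 0 true 1 83 83 19 0 18480) .out))) .out)
  .out) (.nx 656 41287 (.nr 655 1048577 (.nr 652 167 .s1 (.nx 653 647 (.l1 (.ls 71 31 2509)) (.nr
  654 131073 (.lg 0 true 1 79 79 16 0 18480) .out))) .out) .out))) (.na 669 172 (.na 663 170 (.nx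
  662 41287 (.nr 661 1048577 (.nr 658 169 .s1 (.nx 659 647 (.l1 (.ls 71 37 2479)) (.nr 660 131073
  (.lg 0 true 1 79 79 17 0 17160) .out))) .out) .out) (.nx 668 41287 (.nr 667 1048577 (.nr 664 170
  .s1 (.nx 665 647 (.l1 (.ls 73 43 2465)) (.nr 666 131073 (.lg 0 true 1 83 83 29 0 55440) .out)))
  .out) .out)) (.na 675 173 (.nx 674 41287 (.nr 673 1048577 (.nr 670 172 .s1 (.nx 671 647 (.l1 (.ls
  79 41 2436)) (.nr 672 131073 (.lg 0 true 1 83 83 23 0 2640) .out))) .out) .out) (.nx 680 41287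
  (.nr 679 1048577 (.nr 676 173 .s1 (.nx 677 647 (.l1 (.ls 67 31 2422)) (.nr 678 131073 (.lg 0 true
  1 73 73 16 0 1320) .out))) .out) .out))))) (.na 724 193 (.na 700 181 (.na 688 178 (.na 682 176
  (.lg 0 false 1 0 0 16 0 24) (.nx 687 41287 (.nr 686 1048577 (.nr 683 176 .s1 (.nx 684 647 (.l1
  (.ls 73 43 2381)) (.nr 685 131073 (.lg 0 true 1 83 83 29 0 18480) .out))) .out) .out)) (.na 694
  179 (.nx 693 41287 (.nr 692 1048577 (.nr 689 178 .s1 (.nx 690 647 (.l1 (.ls 67 41 2354)) (.nr 691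
  131073 (.lg 0 true 1 73 73 19 0 2640) .out))) .out) .out) (.nx 699 41287 (.nr 698 1048577 (.nr
  695 179 .s1 (.nx 696 647 (.l1 (.ls 67 31 2341)) (.nr 697 131073 (.lg 0 true 1 73 73 16 0 1320)
  .out))) .out) .out))) (.na 712 187 (.na 706 182 (.nx 705 41287 (.nr 704 1048577 (.nr 701 181 .s1
  (.nx 702 647 (.l1 (.ls 67 31 2315)) (.nr 703 131073 (.lg 0 true 1 73 73 16 0 1320) .out))) .out)
  .out) (.nx 711 41287 (.nr 710 1048577 (.nr 707 182 .s1 (.nx 708 647 (.l1 (.ls 79 43 2303)) (.nr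
  709 131073 (.lg 0 true 1 83 83 31 0 240240) .out))) .out) .out)) (.na 718 191 (.nx 717 41287 (.nr
  716 1048577 (.nr 713 187 .s1 (.nx 714 647 (.l1 (.ls 71 37 2241)) (.nr 715 131073 (.lg 0 true 1 79
  79 16 0 1320) .out))) .out) .out) (.nx 723 41287 (.nr 722 1048577 (.nr 719 191 .s1 (.nx 720 647
  (.l1 (.ls 67 29 2194)) (.nr 721 131073 (.lg 0 true 1 73 73 16 0 1320) .out))) .out) .out)))) (.na
  748 200 (.na 736 197 (.na 730 196 (.nx 729 41287 (.nr 728 1048577 (.nr 725 193 .s1 (.nx 726 647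
  (.l1 (.ls 67 29 2171)) (.nr 727 131073 (.lg 0 true 1 73 73 16 0 2640) .out))) .out) .out) (.nx
  735 41287 (.nr 734 1048577 (.nr 731 196 .s1 (.nx 732 647 (.l1 (.ls 73 41 2138)) (.nr 733 131073
  (.lg 0 false 1 79 79 29 0 18480) .out))) .out) .out)) (.na 742 199 (.nx 741 41287 (.nr 740
  1048577 (.nr 737 197 .s1 (.nx 738 647 (.l1 (.ls 67 29 2127)) (.nr 739 131073 (.lg 0 true 1 73 73
  16 0 1320) .out))) .out) .out) (.nx 747 41287 (.nr 746 1048577 (.nr 743 199 .s1 (.nx 744 647 (.l1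
  (.ls 67 29 2106)) (.nr 745 131073 (.lg 0 true 1 73 73 16 0 1320) .out))) .out) .out))) (.na 755
  211 (.na 749 208 (.lg 0 false 1 0 0 16 0 24) (.nx 754 41287 (.nr 753 1048577 (.nr 750 208 .s1
  (.nx 751 647 (.l1 (.ls 83 41 2015)) (.nr 752 131073 (.lg 0 false 1 89 89 31 0 34320) .out)))
  .out) .out)) (.na 756 214 (.lg 0 false 1 0 0 16 0 24) (.nx 761 41287 (.nr 760 1048577 (.nr 757
  214 .s1 (.nx 758 647 (.l1 (.ls 67 37 1959)) (.nr 759 131073 (.lg 0 true 1 73 73 23 0 2640)
  .out))) .out) .out)))))) (.na 838 250 (.na 805 233 (.na 786 223 (.na 774 220 (.na 768 217 (.nx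
  767 41287 (.nr 766 1048577 (.nr 763 215 .s1 (.nx 764 647 (.l1 (.ls 71 31 1950)) (.nr 765 131073
  (.lg 0 true 1 73 73 17 0 1320) .out))) .out) .out) (.nx 773 41287 (.nr 772 1048577 (.nr 769 217
  .s1 (.nx 770 647 (.l1 (.ls 79 29 1932)) (.nr 771 131073 (.lg 0 true 1 83 83 19 0 9240) .out)))
  .out) .out)) (.na 780 221 (.nx 779 41287 (.nr 778 1048577 (.nr 775 220 .s1 (.nx 776 647 (.l1 (.ls
  67 43 1905)) (.nr 777 131073 (.lg 0 true 1 73 73 29 0 2640) .out))) .out) .out) (.nx 785 41287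
  (.nr 784 1048577 (.nr 781 221 .s1 (.nx 782 647 (.l1 (.ls 73 37 1897)) (.nr 783 131073 (.lg 0 true
  1 83 83 23 0 34320) .out))) .out) .out))) (.na 793 227 (.na 787 224 (.lg 0 false 1 0 0 16 0 24)
  (.nx 792 41287 (.nr 791 1048577 (.nr 788 224 .s1 (.nx 789 647 (.l1 (.ls 79 41 1871)) (.nr 790
  131073 (.lg 0 false 1 83 89 31 0 55440) .out))) .out) .out)) (.na 799 229 (.nx 798 41287 (.nr 797
  1048577 (.nr 794 227 .s1 (.nx 795 647 (.l1 (.ls 61 29 1847)) (.nr 796 131073 (.lg 0 true 1 71 71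
  17 0 2640) .out))) .out) .out) (.nx 804 41287 (.nr 803 1048577 (.nr 800 229 .s1 (.nx 801 647 (.l1
  (.ls 67 29 1830)) (.nr 802 131073 (.lg 0 true 1 71 71 17 0 1320) .out))) .out) .out)))) (.na 824
  241 (.na 817 238 (.na 811 236 (.nx 810 41287 (.nr 809 1048577 (.nr 806 233 .s1 (.nx 807 647 (.l1
  (.ls 67 29 1799)) (.nr 808 131073 (.lg 0 true 1 71 71 17 0 1320) .out))) .out) .out) (.nx 816
  41287 (.nr 815 1048577 (.nr 812 236 .s1 (.nx 813 647 (.l1 (.ls 73 37 1776)) (.nr 814 131073 (.lg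
  0 false 1 83 83 23 0 2640) .out))) .out) .out)) (.na 823 239 (.nx 822 41287 (.nr 821 1048577 (.nr
  818 238 .s1 (.nx 819 647 (.l1 (.ls 79 43 1761)) (.nr 820 131073 (.lg 0 true 1 83 83 31 0 18480)
  .out))) .out) .out) (.lg 0 false 1 0 0 16 0 24))) (.na 826 245 (.na 825 242 (.lg 0 false 1 0 0 16
  0 24) (.lg 0 false 1 0 0 16 0 24)) (.na 832 248 (.nx 831 41287 (.nr 830 1048577 (.nr 827 245 .s1
  (.nx 828 647 (.l1 (.ls 67 37 1711)) (.nr 829 131073 (.lg 0 true 1 73 73 19 0 18480) .out))) .out)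
  .out) (.nx 837 41287 (.nr 836 1048577 (.nr 833 248 .s1 (.nx 834 647 (.l1 (.ls 79 41 1690)) (.nr
  835 131073 (.lg 0 false 1 83 83 29 0 2640) .out))) .out) .out))))) (.na 1964 1449 (.na 857 257
  (.na 845 254 (.na 839 251 (.lg 0 false 1 0 0 16 0 24) (.nx 844 41287 (.nr 843 1048577 (.nr 840
  251 .s1 (.nx 841 647 (.l1 (.ls 67 29 1670)) (.nr 842 131073 (.lg 0 true 1 71 71 17 0 1320)
  .out))) .out) .out)) (.na 851 256 (.nx 850 41287 (.nr 849 1048577 (.nr 846 254 .s1 (.nx 847 647
  (.l1 (.ls 67 37 1651)) (.nr 848 131073 (.lg 0 true 1 71 71 23 0 2640) .out))) .out) .out) (.nx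
  856 41287 (.nr 855 1048577 (.nr 852 256 .s1 (.nx 853 647 (.l1 (.ls 71 37 1638)) (.nr 854 262145
  (.lg 0 false 1 79 79 29 0 2640) .out))) .out) .out))) (.na 1443 725 (.na 1171 512 (.nx 1170 41287
  (.nr 1169 262145 (.nr 858 257 .s1 (.nx 913 55 (.nr 912 2698 (.lx (.lp 43 17 129)) (.l1 .sk)) (.nx
  914 56 (.l1 .sk) (.la (.lg 0 false 1 73 73 23 0))))) .out) .out) (.nx 1442 41287 (.nr 1441 262145
  (.nr 1172 512 .s1 (.nx 1227 55 (.nr 1226 3820 (.lx (.lp 41 19 182)) (.l1 .sk)) (.nx 1228 56 (.l1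
  .sk) (.la (.lg 0 false 1 71 71 29 0))))) .out) .out)) (.na 1704 1024 (.nx 1703 257 (.nr 1702
  65537 (.nr 1444 725 .s1 (.nx 1500 56 (.nx 1499 55 (.nr 1498 5395 (.lx (.lp 41 23 257)) (.l1 .sk))
  (.l1 .sk)) (.nx 1573 129 (.lx (.lp 59 23 257)) (.nr 1701 8193 (.lx (.lp 43 23 257)) .out))))
  .out) .out) (.nx 1963 257 (.nr 1962 65537 (.nr 1705 1024 .s1 (.nx 1833 129 (.lx (.lp 47 23 363))
  (.nr 1961 8193 (.lx (.lp 41 23 363)) .out))) .out) .out)))) (.na 3000 5793 (.na 2482 2897 (.na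
  2223 2048 (.nx 2222 257 (.nr 2221 16385 (.nr 1965 1449 .s1 (.lx (.lp 43 29 513))) .out) .out)
  (.nx 2481 257 (.nr 2480 32769 (.nr 2224 2048 .s1 (.lx (.lp 43 29 725))) .out) .out)) (.na 2741
  4096 (.nx 2740 257 (.nr 2739 32769 (.nr 2483 2897 .s1 (.lx (.lp 43 31 1025))) .out) .out) (.nx
  2999 257 (.nr 2998 32769 (.nr 2742 4096 .s1 (.lx (.lp 41 31 1449))) .out) .out))) (.na 3210 16384
  (.na 3105 8192 (.nx 3104 103 (.nr 3103 32769 (.nr 3001 5793 .s1 (.lx (.lp 16 29 2049))) .out)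
  .out) (.nx 3209 103 (.nr 3208 32769 (.nr 3106 8192 .s1 (.lx (.lp 16 0 4097))) .out) .out)) (.na
  3212 32769 (.nx 3211 103 (.l1 .sk) .out) .out)))))))

theorem c109 :
    OkQ ckI L9 219 1 1099511627776 0 34359738368 1 1099511627776 ∧
    OkQ ckI L8 153 1 34 0 34359738368 1 1099511627776 ∧
    OkQ ckI L5 55 9 1099511627776 0 34359738368 1 1099511627776 := by
  refine ⟨?_, ?_, ?_⟩
  · refine fin 1752 18580 T109_0 ?_
    refine jn 12 (by decide +kernel) ?_
    refine jn 21 (by decide +kernel) ?_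
    refine jn 29 (by decide +kernel) ?_
    refine jn 37 (by decide +kernel) ?_
    refine jn 46 (by decide +kernel) ?_
    refine jn 52 (by decide +kernel) ?_
    refine jn 61 (by decide +kernel) ?_
    refine jn 69 (by decide +kernel) ?_
    refine jn 76 (by decide +kernel) ?_
    refine jn 83 (by decide +kernel) ?_
    refine jn 91 (by decide +kernel) ?_
    refine jn 101 (by decide +kernel) ?_
    refine jn 112 (by decide +kernel) ?_
    refine jn 121 (by decide +kernel) ?_
    refine jn 134 (by decide +kernel) ?_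
    refine jn 159 (by decide +kernel) ?_
    refine jn 182 (by decide +kernel) ?_
    refine jn 193 (by decide +kernel) ?_
    refine jn 219 (by decide +kernel) ?_
    refine jn 234 (by decide +kernel) ?_
    refine jn 251 (by decide +kernel) ?_
    refine jn 275 (by decide +kernel) ?_
    refine jn 291 (by decide +kernel) ?_
    refine jn 313 (by decide +kernel) ?_
    refine jn 323 (by decide +kernel) ?_
    refine jn 329 (by decide +kernel) ?_
    refine jn 338 (by decide +kernel) ?_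
    refine jn 352 (by decide +kernel) ?_
    refine jn 373 (by decide +kernel) ?_
    refine jn 401 (by decide +kernel) ?_
    refine jn 446 (by decide +kernel) ?_
    refine jn 469 (by decide +kernel) ?_
    refine jn 473 (by decide +kernel) ?_
    refine jn 477 (by decide +kernel) ?_
    refine jn 481 (by decide +kernel) ?_
    refine jn 483 (by decide +kernel) ?_
    refine jn 494 (by decide +kernel) ?_
    refine jn 498 (by decide +kernel) ?_
    refine jn 506 (by decide +kernel) ?_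
    refine jn 519 (by decide +kernel) ?_
    refine jn 526 (by decide +kernel) ?_
    refine jn 535 (by decide +kernel) ?_
    refine jn 543 (by decide +kernel) ?_
    refine jn 557 (by decide +kernel) ?_
    refine jn 560 (by decide +kernel) ?_
    refine jn 567 (by decide +kernel) ?_
    refine jn 574 (by decide +kernel) ?_
    refine jn 589 (by decide +kernel) ?_
    refine jn 595 (by decide +kernel) ?_
    refine jn 603 (by decide +kernel) ?_
    refine jn 612 (by decide +kernel) ?_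
    refine jn 625 (by decide +kernel) ?_
    refine jn 632 (by decide +kernel) ?_
    refine jn 640 (by decide +kernel) ?_
    refine jn 647 (by decide +kernel) ?_
    refine jn 656 (by decide +kernel) ?_
    refine jn 657 (by decide +kernel) ?_
    refine jn 658 (by decide +kernel) ?_
    refine jn 659 (by decide +kernel) ?_
    refine jn 660 (by decide +kernel) ?_
    refine jn 661 (by decide +kernel) ?_
    refine jn 662 (by decide +kernel) ?_
    refine jn 663 (by decide +kernel) ?_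
    refine jn 671 (by decide +kernel) ?_
    refine jn 685 (by decide +kernel) ?_
    refine jn 693 (by decide +kernel) ?_
    refine jn 700 (by decide +kernel) ?_
    refine jn 714 (by decide +kernel) ?_
    refine jn 722 (by decide +kernel) ?_
    refine jn 736 (by decide +kernel) ?_
    refine jn 746 (by decide +kernel) ?_
    refine jn 754 (by decide +kernel) ?_
    refine jn 771 (by decide +kernel) ?_
    refine jn 784 (by decide +kernel) ?_
    refine jn 799 (by decide +kernel) ?_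
    refine jn 810 (by decide +kernel) ?_
    refine jn 811 (by decide +kernel) ?_
    refine jn 812 (by decide +kernel) ?_
    refine jn 813 (by decide +kernel) ?_
    refine jn 814 (by decide +kernel) ?_
    refine jn 824 (by decide +kernel) ?_
    refine jn 833 (by decide +kernel) ?_
    refine jn 847 (by decide +kernel) ?_
    refine jn 858 (by decide +kernel) ?_
    refine jn 875 (by decide +kernel) ?_
    refine jn 893 (by decide +kernel) ?_
    refine jn 906 (by decide +kernel) ?_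
    refine jn 918 (by decide +kernel) ?_
    refine jn 931 (by decide +kernel) ?_
    refine jn 941 (by decide +kernel) ?_
    refine jn 954 (by decide +kernel) ?_
    refine jn 967 (by decide +kernel) ?_
    refine jn 979 (by decide +kernel) ?_
    refine jn 993 (by decide +kernel) ?_
    refine jn 1011 (by decide +kernel) ?_
    refine jn 1026 (by decide +kernel) ?_
    refine jn 1045 (by decide +kernel) ?_
    refine jn 1056 (by decide +kernel) ?_
    refine jn 1071 (by decide +kernel) ?_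
    refine jn 1221 (by decide +kernel) ?_
    refine jn 1249 (by decide +kernel) ?_
    refine jn 1277 (by decide +kernel) ?_
    refine jn 1289 (by decide +kernel) ?_
    refine jn 1293 (by decide +kernel) ?_
    refine jn 1317 (by decide +kernel) ?_
    refine jn 1327 (by decide +kernel) ?_
    refine jn 1355 (by decide +kernel) ?_
    refine jn 1383 (by decide +kernel) ?_
    refine jn 1399 (by decide +kernel) ?_
    refine jn 1427 (by decide +kernel) ?_
    refine jn 1516 (by decide +kernel) ?_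
    refine jn 1624 (by decide +kernel) ?_
    refine jn 1632 (by decide +kernel) ?_
    refine jn 1652 (by decide +kernel) ?_
    refine jn 1676 (by decide +kernel) ?_
    refine jn 1696 (by decide +kernel) ?_
    refine jn 1728 (by decide +kernel) ?_
    refine jn 1756 (by decide +kernel) ?_
    refine jn 1773 (by decide +kernel) ?_
    refine jn 1781 (by decide +kernel) ?_
    refine jn 1809 (by decide +kernel) ?_
    refine jn 1845 (by decide +kernel) ?_
    refine jn 1877 (by decide +kernel) ?_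
    refine jn 1905 (by decide +kernel) ?_
    refine jn 1974 (by decide +kernel) ?_
    refine jn 2082 (by decide +kernel) ?_
    refine jn 2194 (by decide +kernel) ?_
    refine jn 2226 (by decide +kernel) ?_
    refine jn 2242 (by decide +kernel) ?_
    refine jn 2270 (by decide +kernel) ?_
    refine jn 2302 (by decide +kernel) ?_
    refine jn 2310 (by decide +kernel) ?_
    refine jn 2334 (by decide +kernel) ?_
    refine jn 2386 (by decide +kernel) ?_
    refine jn 2415 (by decide +kernel) ?_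
    refine jn 2447 (by decide +kernel) ?_
    refine jn 2467 (by decide +kernel) ?_
    refine jn 2487 (by decide +kernel) ?_
    refine jn 2519 (by decide +kernel) ?_
    refine jn 2547 (by decide +kernel) ?_
    refine jn 2599 (by decide +kernel) ?_
    refine jn 2672 (by decide +kernel) ?_
    refine jn 2760 (by decide +kernel) ?_
    refine jn 2868 (by decide +kernel) ?_
    refine jn 2927 (by decide +kernel) ?_
    refine jn 2995 (by decide +kernel) ?_
    refine jn 3051 (by decide +kernel) ?_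
    refine jn 3107 (by decide +kernel) ?_
    refine jn 3163 (by decide +kernel) ?_
    refine jn 3219 (by decide +kernel) ?_
    refine jn 3287 (by decide +kernel) ?_
    refine jn 3351 (by decide +kernel) ?_
    refine jn 3439 (by decide +kernel) ?_
    refine jn 3507 (by decide +kernel) ?_
    refine jn 3595 (by decide +kernel) ?_
    refine jn 3684 (by decide +kernel) ?_
    refine jn 3732 (by decide +kernel) ?_
    refine jn 3792 (by decide +kernel) ?_
    refine jn 3864 (by decide +kernel) ?_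
    refine jn 3920 (by decide +kernel) ?_
    refine jn 4008 (by decide +kernel) ?_
    refine jn 4064 (by decide +kernel) ?_
    refine jn 4128 (by decide +kernel) ?_
    refine jn 4212 (by decide +kernel) ?_
    refine jn 4296 (by decide +kernel) ?_
    refine jn 4368 (by decide +kernel) ?_
    refine jn 4416 (by decide +kernel) ?_
    refine jn 4472 (by decide +kernel) ?_
    refine jn 4528 (by decide +kernel) ?_
    refine jn 4584 (by decide +kernel) ?_
    refine jn 4662 (by decide +kernel) ?_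
    refine jn 4743 (by decide +kernel) ?_
    refine jn 4835 (by decide +kernel) ?_
    refine jn 4923 (by decide +kernel) ?_
    refine jn 4987 (by decide +kernel) ?_
    refine jn 5099 (by decide +kernel) ?_
    refine jn 5183 (by decide +kernel) ?_
    refine jn 5275 (by decide +kernel) ?_
    refine jn 5363 (by decide +kernel) ?_
    refine jn 5435 (by decide +kernel) ?_
    refine jn 5507 (by decide +kernel) ?_
    refine jn 5622 (by decide +kernel) ?_
    refine jn 5774 (by decide +kernel) ?_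
    refine jn 5896 (by decide +kernel) ?_
    refine jn 6062 (by decide +kernel) ?_
    refine jn 6250 (by decide +kernel) ?_
    refine jn 6366 (by decide +kernel) ?_
    refine jn 6514 (by decide +kernel) ?_
    refine jn 6658 (by decide +kernel) ?_
    refine jn 6825 (by decide +kernel) ?_
    refine jn 6985 (by decide +kernel) ?_
    refine jn 7137 (by decide +kernel) ?_
    refine jn 7293 (by decide +kernel) ?_
    refine jn 7473 (by decide +kernel) ?_
    refine jn 7633 (by decide +kernel) ?_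
    refine jn 7837 (by decide +kernel) ?_
    refine jn 7997 (by decide +kernel) ?_
    refine jn 8133 (by decide +kernel) ?_
    refine jn 8273 (by decide +kernel) ?_
    refine jn 8561 (by decide +kernel) ?_
    refine jn 8924 (by decide +kernel) ?_
    refine jn 9176 (by decide +kernel) ?_
    refine jn 9444 (by decide +kernel) ?_
    refine jn 9752 (by decide +kernel) ?_
    refine jn 10038 (by decide +kernel) ?_
    refine jn 10312 (by decide +kernel) ?_
    refine jn 10616 (by decide +kernel) ?_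
    refine jn 10909 (by decide +kernel) ?_
    refine jn 11244 (by decide +kernel) ?_
    refine jn 11657 (by decide +kernel) ?_
    refine jn 11867 (by decide +kernel) ?_
    refine jn 12030 (by decide +kernel) ?_
    refine jn 12153 (by decide +kernel) ?_
    refine jn 12257 (by decide +kernel) ?_
    refine jn 12353 (by decide +kernel) ?_
    refine jn 12795 (by decide +kernel) ?_
    refine jn 13119 (by decide +kernel) ?_
    refine jn 13331 (by decide +kernel) ?_
    refine jn 13501 (by decide +kernel) ?_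
    refine jn 13631 (by decide +kernel) ?_
    refine jn 14083 (by decide +kernel) ?_
    refine jn 14343 (by decide +kernel) ?_
    refine jn 14493 (by decide +kernel) ?_
    refine jn 14621 (by decide +kernel) ?_
    refine jn 14741 (by decide +kernel) ?_
    refine jn 14839 (by decide +kernel) ?_
    refine jn 14945 (by decide +kernel) ?_
    refine jn 15491 (by decide +kernel) ?_
    refine jn 15710 (by decide +kernel) ?_
    refine jn 15939 (by decide +kernel) ?_
    refine jn 16102 (by decide +kernel) ?_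
    refine jn 16235 (by decide +kernel) ?_
    refine jn 16912 (by decide +kernel) ?_
    refine jn 17207 (by decide +kernel) ?_
    refine jn 17469 (by decide +kernel) ?_
    refine jn 18063 (by decide +kernel) ?_
    exact je (by decide +kernel)
  · refine fin 1224 974 T109_1 ?_
    refine jn 8 (by decide +kernel) ?_
    refine jn 13 (by decide +kernel) ?_
    refine jn 17 (by decide +kernel) ?_
    refine jn 21 (by decide +kernel) ?_
    refine jn 26 (by decide +kernel) ?_
    refine jn 43 (by decide +kernel) ?_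
    refine jn 61 (by decide +kernel) ?_
    refine jn 66 (by decide +kernel) ?_
    refine jn 71 (by decide +kernel) ?_
    refine jn 97 (by decide +kernel) ?_
    refine jn 111 (by decide +kernel) ?_
    refine jn 124 (by decide +kernel) ?_
    refine jn 138 (by decide +kernel) ?_
    refine jn 165 (by decide +kernel) ?_
    refine jn 191 (by decide +kernel) ?_
    refine jn 211 (by decide +kernel) ?_
    refine jn 225 (by decide +kernel) ?_
    refine jn 232 (by decide +kernel) ?_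
    refine jn 239 (by decide +kernel) ?_
    refine jn 246 (by decide +kernel) ?_
    refine jn 257 (by decide +kernel) ?_
    refine jn 270 (by decide +kernel) ?_
    refine jn 281 (by decide +kernel) ?_
    refine jn 309 (by decide +kernel) ?_
    refine jn 337 (by decide +kernel) ?_
    refine jn 385 (by decide +kernel) ?_
    refine jn 402 (by decide +kernel) ?_
    refine jn 417 (by decide +kernel) ?_
    refine jn 425 (by decide +kernel) ?_
    refine jn 436 (by decide +kernel) ?_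
    refine jn 451 (by decide +kernel) ?_
    refine jn 467 (by decide +kernel) ?_
    refine jn 482 (by decide +kernel) ?_
    refine jn 521 (by decide +kernel) ?_
    refine jn 538 (by decide +kernel) ?_
    refine jn 540 (by decide +kernel) ?_
    refine jn 542 (by decide +kernel) ?_
    refine jn 544 (by decide +kernel) ?_
    refine jn 546 (by decide +kernel) ?_
    refine jn 548 (by decide +kernel) ?_
    refine jn 553 (by decide +kernel) ?_
    refine jn 558 (by decide +kernel) ?_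
    refine jn 562 (by decide +kernel) ?_
    refine jn 565 (by decide +kernel) ?_
    refine jn 576 (by decide +kernel) ?_
    refine jn 580 (by decide +kernel) ?_
    refine jn 584 (by decide +kernel) ?_
    refine jn 595 (by decide +kernel) ?_
    refine jn 624 (by decide +kernel) ?_
    refine jn 633 (by decide +kernel) ?_
    refine jn 634 (by decide +kernel) ?_
    refine jn 636 (by decide +kernel) ?_
    refine jn 644 (by decide +kernel) ?_
    refine jn 647 (by decide +kernel) ?_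
    refine jn 654 (by decide +kernel) ?_
    refine jn 659 (by decide +kernel) ?_
    refine jn 669 (by decide +kernel) ?_
    refine jn 677 (by decide +kernel) ?_
    refine jn 678 (by decide +kernel) ?_
    refine jn 679 (by decide +kernel) ?_
    refine jn 680 (by decide +kernel) ?_
    refine jn 685 (by decide +kernel) ?_
    refine jn 689 (by decide +kernel) ?_
    refine jn 691 (by decide +kernel) ?_
    refine jn 696 (by decide +kernel) ?_
    refine jn 697 (by decide +kernel) ?_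
    refine jn 698 (by decide +kernel) ?_
    refine jn 699 (by decide +kernel) ?_
    refine jn 700 (by decide +kernel) ?_
    refine jn 701 (by decide +kernel) ?_
    refine jn 702 (by decide +kernel) ?_
    refine jn 703 (by decide +kernel) ?_
    refine jn 704 (by decide +kernel) ?_
    refine jn 705 (by decide +kernel) ?_
    refine jn 714 (by decide +kernel) ?_
    refine jn 728 (by decide +kernel) ?_
    refine jn 731 (by decide +kernel) ?_
    refine jn 733 (by decide +kernel) ?_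
    refine jn 737 (by decide +kernel) ?_
    refine jn 743 (by decide +kernel) ?_
    refine jn 750 (by decide +kernel) ?_
    refine jn 762 (by decide +kernel) ?_
    refine jn 785 (by decide +kernel) ?_
    refine jn 807 (by decide +kernel) ?_
    refine jn 816 (by decide +kernel) ?_
    refine jn 818 (by decide +kernel) ?_
    refine jn 820 (by decide +kernel) ?_
    refine jn 822 (by decide +kernel) ?_
    refine jn 826 (by decide +kernel) ?_
    refine jn 830 (by decide +kernel) ?_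
    refine jn 833 (by decide +kernel) ?_
    refine jn 838 (by decide +kernel) ?_
    refine jn 845 (by decide +kernel) ?_
    refine jn 856 (by decide +kernel) ?_
    refine jn 863 (by decide +kernel) ?_
    refine jn 870 (by decide +kernel) ?_
    refine jn 875 (by decide +kernel) ?_
    refine jn 887 (by decide +kernel) ?_
    refine jn 889 (by decide +kernel) ?_
    refine jn 896 (by decide +kernel) ?_
    refine jn 901 (by decide +kernel) ?_
    refine jn 918 (by decide +kernel) ?_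
    refine jn 923 (by decide +kernel) ?_
    refine jn 929 (by decide +kernel) ?_
    refine jn 939 (by decide +kernel) ?_
    refine jn 943 (by decide +kernel) ?_
    refine jn 944 (by decide +kernel) ?_
    refine jn 945 (by decide +kernel) ?_
    refine jn 946 (by decide +kernel) ?_
    refine jn 947 (by decide +kernel) ?_
    refine jn 951 (by decide +kernel) ?_
    refine jn 953 (by decide +kernel) ?_
    refine jn 954 (by decide +kernel) ?_
    refine jn 955 (by decide +kernel) ?_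
    refine jn 956 (by decide +kernel) ?_
    refine jn 957 (by decide +kernel) ?_
    refine jn 958 (by decide +kernel) ?_
    refine jn 959 (by decide +kernel) ?_
    refine jn 960 (by decide +kernel) ?_
    refine jn 961 (by decide +kernel) ?_
    refine jn 965 (by decide +kernel) ?_
    refine jn 969 (by decide +kernel) ?_
    exact je (by decide +kernel)
  · refine fin 1320 3213 T109_2 ?_
    refine jn 13 (by decide +kernel) ?_
    refine jn 23 (by decide +kernel) ?_
    refine jn 37 (by decide +kernel) ?_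
    refine jn 48 (by decide +kernel) ?_
    refine jn 58 (by decide +kernel) ?_
    refine jn 60 (by decide +kernel) ?_
    refine jn 62 (by decide +kernel) ?_
    refine jn 64 (by decide +kernel) ?_
    refine jn 66 (by decide +kernel) ?_
    refine jn 78 (by decide +kernel) ?_
    refine jn 79 (by decide +kernel) ?_
    refine jn 80 (by decide +kernel) ?_
    refine jn 81 (by decide +kernel) ?_
    refine jn 83 (by decide +kernel) ?_
    refine jn 86 (by decide +kernel) ?_
    refine jn 89 (by decide +kernel) ?_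
    refine jn 100 (by decide +kernel) ?_
    refine jn 101 (by decide +kernel) ?_
    refine jn 102 (by decide +kernel) ?_
    refine jn 103 (by decide +kernel) ?_
    refine jn 104 (by decide +kernel) ?_
    refine jn 105 (by decide +kernel) ?_
    refine jn 106 (by decide +kernel) ?_
    refine jn 107 (by decide +kernel) ?_
    refine jn 110 (by decide +kernel) ?_
    refine jn 117 (by decide +kernel) ?_
    refine jn 120 (by decide +kernel) ?_
    refine jn 123 (by decide +kernel) ?_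
    refine jn 125 (by decide +kernel) ?_
    refine jn 135 (by decide +kernel) ?_
    refine jn 137 (by decide +kernel) ?_
    refine jn 139 (by decide +kernel) ?_
    refine jn 143 (by decide +kernel) ?_
    refine jn 155 (by decide +kernel) ?_
    refine jn 172 (by decide +kernel) ?_
    refine jn 175 (by decide +kernel) ?_
    refine jn 179 (by decide +kernel) ?_
    refine jn 185 (by decide +kernel) ?_
    refine jn 186 (by decide +kernel) ?_
    refine jn 187 (by decide +kernel) ?_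
    refine jn 188 (by decide +kernel) ?_
    refine jn 190 (by decide +kernel) ?_
    refine jn 191 (by decide +kernel) ?_
    refine jn 192 (by decide +kernel) ?_
    refine jn 193 (by decide +kernel) ?_
    refine jn 203 (by decide +kernel) ?_
    refine jn 206 (by decide +kernel) ?_
    refine jn 210 (by decide +kernel) ?_
    refine jn 218 (by decide +kernel) ?_
    refine jn 219 (by decide +kernel) ?_
    refine jn 220 (by decide +kernel) ?_
    refine jn 221 (by decide +kernel) ?_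
    refine jn 222 (by decide +kernel) ?_
    refine jn 223 (by decide +kernel) ?_
    refine jn 224 (by decide +kernel) ?_
    refine jn 234 (by decide +kernel) ?_
    refine jn 237 (by decide +kernel) ?_
    refine jn 245 (by decide +kernel) ?_
    refine jn 248 (by decide +kernel) ?_
    refine jn 258 (by decide +kernel) ?_
    refine jn 259 (by decide +kernel) ?_
    refine jn 260 (by decide +kernel) ?_
    refine jn 264 (by decide +kernel) ?_
    refine jn 275 (by decide +kernel) ?_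
    refine jn 286 (by decide +kernel) ?_
    refine jn 297 (by decide +kernel) ?_
    refine jn 305 (by decide +kernel) ?_
    refine jn 306 (by decide +kernel) ?_
    refine jn 319 (by decide +kernel) ?_
    refine jn 328 (by decide +kernel) ?_
    refine jn 329 (by decide +kernel) ?_
    refine jn 331 (by decide +kernel) ?_
    refine jn 339 (by decide +kernel) ?_
    refine jn 342 (by decide +kernel) ?_
    refine jn 353 (by decide +kernel) ?_
    refine jn 358 (by decide +kernel) ?_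
    refine jn 360 (by decide +kernel) ?_
    refine jn 362 (by decide +kernel) ?_
    refine jn 371 (by decide +kernel) ?_
    refine jn 378 (by decide +kernel) ?_
    refine jn 379 (by decide +kernel) ?_
    refine jn 382 (by decide +kernel) ?_
    refine jn 393 (by decide +kernel) ?_
    refine jn 402 (by decide +kernel) ?_
    refine jn 412 (by decide +kernel) ?_
    refine jn 422 (by decide +kernel) ?_
    refine jn 429 (by decide +kernel) ?_
    refine jn 437 (by decide +kernel) ?_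
    refine jn 443 (by decide +kernel) ?_
    refine jn 454 (by decide +kernel) ?_
    refine jn 465 (by decide +kernel) ?_
    refine jn 469 (by decide +kernel) ?_
    refine jn 477 (by decide +kernel) ?_
    refine jn 487 (by decide +kernel) ?_
    refine jn 489 (by decide +kernel) ?_
    refine jn 499 (by decide +kernel) ?_
    refine jn 506 (by decide +kernel) ?_
    refine jn 507 (by decide +kernel) ?_
    refine jn 508 (by decide +kernel) ?_
    refine jn 510 (by decide +kernel) ?_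
    refine jn 520 (by decide +kernel) ?_
    refine jn 534 (by decide +kernel) ?_
    refine jn 535 (by decide +kernel) ?_
    refine jn 536 (by decide +kernel) ?_
    refine jn 538 (by decide +kernel) ?_
    refine jn 550 (by decide +kernel) ?_
    refine jn 554 (by decide +kernel) ?_
    refine jn 563 (by decide +kernel) ?_
    refine jn 578 (by decide +kernel) ?_
    refine jn 587 (by decide +kernel) ?_
    refine jn 593 (by decide +kernel) ?_
    refine jn 594 (by decide +kernel) ?_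
    refine jn 606 (by decide +kernel) ?_
    refine jn 614 (by decide +kernel) ?_
    refine jn 628 (by decide +kernel) ?_
    refine jn 641 (by decide +kernel) ?_
    refine jn 658 (by decide +kernel) ?_
    refine jn 670 (by decide +kernel) ?_
    refine jn 678 (by decide +kernel) ?_
    refine jn 691 (by decide +kernel) ?_
    refine jn 707 (by decide +kernel) ?_
    refine jn 715 (by decide +kernel) ?_
    refine jn 731 (by decide +kernel) ?_
    refine jn 739 (by decide +kernel) ?_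
    refine jn 751 (by decide +kernel) ?_
    refine jn 756 (by decide +kernel) ?_
    refine jn 769 (by decide +kernel) ?_
    refine jn 777 (by decide +kernel) ?_
    refine jn 788 (by decide +kernel) ?_
    refine jn 790 (by decide +kernel) ?_
    refine jn 808 (by decide +kernel) ?_
    refine jn 820 (by decide +kernel) ?_
    refine jn 834 (by decide +kernel) ?_
    refine jn 842 (by decide +kernel) ?_
    refine jn 854 (by decide +kernel) ?_
    refine jn 917 (by decide +kernel) ?_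
    refine jn 926 (by decide +kernel) ?_
    refine jn 929 (by decide +kernel) ?_
    refine jn 930 (by decide +kernel) ?_
    refine jn 937 (by decide +kernel) ?_
    refine jn 938 (by decide +kernel) ?_
    refine jn 943 (by decide +kernel) ?_
    refine jn 949 (by decide +kernel) ?_
    refine jn 952 (by decide +kernel) ?_
    refine jn 964 (by decide +kernel) ?_
    refine jn 967 (by decide +kernel) ?_
    refine jn 977 (by decide +kernel) ?_
    refine jn 989 (by decide +kernel) ?_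
    refine jn 995 (by decide +kernel) ?_
    refine jn 998 (by decide +kernel) ?_
    refine jn 1001 (by decide +kernel) ?_
    refine jn 1002 (by decide +kernel) ?_
    refine jn 1012 (by decide +kernel) ?_
    refine jn 1019 (by decide +kernel) ?_
    refine jn 1021 (by decide +kernel) ?_
    refine jn 1022 (by decide +kernel) ?_
    refine jn 1036 (by decide +kernel) ?_
    refine jn 1043 (by decide +kernel) ?_
    refine jn 1049 (by decide +kernel) ?_
    refine jn 1051 (by decide +kernel) ?_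
    refine jn 1060 (by decide +kernel) ?_
    refine jn 1072 (by decide +kernel) ?_
    refine jn 1073 (by decide +kernel) ?_
    refine jn 1076 (by decide +kernel) ?_
    refine jn 1087 (by decide +kernel) ?_
    refine jn 1097 (by decide +kernel) ?_
    refine jn 1102 (by decide +kernel) ?_
    refine jn 1105 (by decide +kernel) ?_
    refine jn 1106 (by decide +kernel) ?_
    refine jn 1114 (by decide +kernel) ?_
    refine jn 1129 (by decide +kernel) ?_
    refine jn 1130 (by decide +kernel) ?_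
    refine jn 1133 (by decide +kernel) ?_
    refine jn 1147 (by decide +kernel) ?_
    refine jn 1153 (by decide +kernel) ?_
    refine jn 1154 (by decide +kernel) ?_
    refine jn 1160 (by decide +kernel) ?_
    refine jn 1168 (by decide +kernel) ?_
    refine jn 1236 (by decide +kernel) ?_
    refine jn 1237 (by decide +kernel) ?_
    refine jn 1243 (by decide +kernel) ?_
    refine jn 1255 (by decide +kernel) ?_
    refine jn 1260 (by decide +kernel) ?_
    refine jn 1263 (by decide +kernel) ?_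
    refine jn 1275 (by decide +kernel) ?_
    refine jn 1276 (by decide +kernel) ?_
    refine jn 1282 (by decide +kernel) ?_
    refine jn 1284 (by decide +kernel) ?_
    refine jn 1288 (by decide +kernel) ?_
    refine jn 1300 (by decide +kernel) ?_
    refine jn 1306 (by decide +kernel) ?_
    refine jn 1315 (by decide +kernel) ?_
    refine jn 1329 (by decide +kernel) ?_
    refine jn 1332 (by decide +kernel) ?_
    refine jn 1336 (by decide +kernel) ?_
    refine jn 1347 (by decide +kernel) ?_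
    refine jn 1356 (by decide +kernel) ?_
    refine jn 1377 (by decide +kernel) ?_
    refine jn 1380 (by decide +kernel) ?_
    refine jn 1389 (by decide +kernel) ?_
    refine jn 1393 (by decide +kernel) ?_
    refine jn 1398 (by decide +kernel) ?_
    refine jn 1404 (by decide +kernel) ?_
    refine jn 1408 (by decide +kernel) ?_
    refine jn 1425 (by decide +kernel) ?_
    refine jn 1428 (by decide +kernel) ?_
    refine jn 1432 (by decide +kernel) ?_
    refine jn 1444 (by decide +kernel) ?_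
    refine jn 1631 (by decide +kernel) ?_
    refine jn 1833 (by decide +kernel) ?_
    refine jn 2107 (by decide +kernel) ?_
    refine jn 2376 (by decide +kernel) ?_
    refine jn 2681 (by decide +kernel) ?_
    refine jn 3001 (by decide +kernel) ?_
    exact je (by decide +kernel)

end Pool.Agent.MP_2339ce_nt.NR
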