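import Pool.Agent.MP_2339ce_nt.Q2.NC.L5
import Pool.Agent.MP_2339ce_nt.Q2.NC.L8
import Pool.Agent.MP_2339ce_nt.Q2.NC.L9
import Pool.Agent.MP_2339ce_nt.Q2.CkI

/-! Block NR: runs. -/

set_option autoImplicit false
set_option maxRecDepth 100000

noncomputable section

namespace Pool.Agent.MP_2339ce_nt.NR

open Q2.Top

def T115_0 : Ph :=
  (.na 513 46 (.na 317 27 (.na 212 17 (.na 116 13 (.na 55 12 (.nx 54 1664512 (.nr 53 623489 (.nx 2
  140 (.nr 1 100 (.lg 0 true 1 29 29 9 0 27720) (.l1 .sk)) (.nx 3 141 (.l1 .sk) (.nx 45 524289 (.nr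
  38 131073 (.nx 16 35390 (.lg 0 false 13 89 101 16 0 360360) (.nr 24 829 (.lg 0 true 8 83 83 16 0
  55440) (.nx 37 416129 (.lg 2 false 13 97 103 16 36336 720720) .out))) (.nx 44 1292 (.lg 0 false 6
  89 89 16 0 55440) .out)) (.nr 52 65 (.lg 0 true 7 71 71 16 0 27720) .out)))) .out) .out) (.nx 115
  1664512 (.nr 114 623489 (.nr 56 3 .s1 (.nx 58 140 (.nr 57 109 (.lg 0 false 1 37 37 13 0 5040)
  (.l1 .sk)) (.nx 59 141 (.l1 .sk) (.nr 70 829 (.nx 65 524289 (.lg 0 true 6 83 83 23 0 5040) (.nr
  69 65 (.lg 0 true 4 79 79 19 0 5040) .out)) (.nx 113 416129 (.nr 72 3171 (.nx 71 10323 (.lg 0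
  false 1 83 83 13 0 5040) (.lg 2 false 1 89 89 13 35138 5040)) (.nr 107 155873 (.nr 98 92683 (.nr
  82 46342 (.nx 75 19482 (.lg 0 false 3 101 107 19 0 720720) (.nr 78 23702 (.lg 2 true 3 79 79 19
  11994 5040) (.lg 2 false 4 83 83 19 23383 5040))) (.nx 97 208065 (.nx 93 131073 (.lg 0 true 11
  101 109 29 0 720720) (.nr 96 55110 (.lg 0 true 3 101 103 19 0 720720) .out)) .out)) (.nx 106
  65537 (.nx 101 10323 (.lg 0 false 3 101 103 19 0 720720) (.nx 102 13003 .out (.nr 105 110219 (.lg
  0 true 3 101 103 19 0 720720) .out))) .out)) (.nx 112 1292 (.nr 109 370729 (.lg 0 false 2 97 97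
  13 0 5040) (.nx 111 647 (.lg 0 false 2 89 89 13 0 5040) .out)) .out))) .out))))) .out) .out))
  (.na 164 15 (.nx 163 1664512 (.nr 162 623489 (.nr 117 6 .s1 (.nx 119 140 (.nr 118 126 (.lg 0 true
  1 29 29 9 0 32760) (.l1 .sk)) (.nx 120 141 (.l1 .sk) (.nx 137 29192 (.nr 131 155873 (.lg 0 false
  11 89 101 16 0 360360) (.nx 136 1292 (.lg 0 false 5 83 83 16 0 32760) .out)) (.nr 161 110219 (.nr
  149 829 (.nx 143 524289 (.lg 0 true 6 83 83 16 0 65520) (.nr 148 65 (.lg 0 true 5 71 71 16 0
  32760) .out)) (.nx 160 416129 (.lg 2 false 11 97 103 16 37050 720720) .out)) .out))))) .out)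
  .out) (.na 211 16 (.nx 210 1664512 (.nr 209 623489 (.nr 165 10 .s1 (.nx 168 141 (.nx 167 140 (.nr
  166 134 (.lg 0 true 1 23 23 16 0 2520) (.l1 .sk)) (.l1 .sk)) (.nx 203 524289 (.nx 185 29192 (.nr
  179 155873 (.lg 0 false 11 83 97 17 0 27720) (.nx 184 1292 (.lg 0 false 5 79 79 16 0 2520) .out))
  (.nr 202 110219 (.nr 190 829 (.lg 0 true 5 79 79 16 0 2520) (.nx 201 416129 (.lg 2 false 11 83 97
  17 37050 27720) .out)) .out)) (.nr 208 65 (.lg 0 true 5 67 67 16 0 2520) .out)))) .out) .out)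
  .ne))) (.na 282 21 (.na 249 20 (.nx 248 1664512 (.nr 247 1048577 (.nr 213 13 .s1 (.nx 241 262145
  (.nx 215 140 (.nr 214 168 (.lg 0 false 1 29 29 11 0 2520) (.l1 .sk)) (.nx 216 141 (.l1 .sk) (.nx
  217 257 (.l1 (.ls 83 37 2718)) (.nr 240 623489 (.nr 236 220437 (.nx 225 13005 (.lg 0 false 8 89
  97 16 0 5040) (.nr 235 92683 (.nr 228 1854 (.lg 0 true 3 79 79 16 0 2520) (.nx 231 41287 (.lg 1
  false 3 101 101 16 69951 5040) (.nr 234 77937 (.lg 2 false 3 97 97 16 18533 2520) .out))) .out))
  (.nx 239 1627 (.lg 0 false 3 83 83 16 0 2520) .out)) .out)))) (.nr 246 217 (.lg 0 true 5 73 73 16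
  0 2520) .out))) .out) .out) (.nx 281 1664512 (.nr 280 1048577 (.nr 250 17 .s1 (.nx 254 257 (.nx
  252 140 (.nr 251 176 (.lg 0 false 1 23 23 13 0 5040) (.l1 .sk)) (.nx 253 141 (.l1 .sk) (.l1 (.ls
  83 41 2311)))) (.nr 279 623489 (.nr 275 220437 (.nx 268 262145 (.nx 257 13005 (.lg 0 false 3 97
  97 13 0 5040) (.nr 267 92683 (.nr 260 1854 (.lg 0 true 3 79 79 13 0 5040) (.nx 263 41287 (.lg 1
  false 3 97 97 13 69951 5040) (.nr 266 77937 (.lg 2 false 3 89 89 13 18533 5040) .out))) .out))
  (.nr 274 217 (.lg 0 true 6 73 73 19 0 5040) .out)) (.nx 278 1627 (.lg 0 false 3 79 79 13 0 5040)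
  .out)) .out))) .out) .out)) (.na 315 23 (.nx 314 1664512 (.nr 313 1048577 (.nr 283 18 .s1 (.nx
  286 141 (.nx 285 140 (.nr 284 193 (.lg 0 true 1 23 23 16 0 2520) (.l1 .sk)) (.l1 .sk)) (.nx 300
  23171 (.nx 287 257 (.l1 (.ls 83 37 2201)) (.nr 299 623489 (.nr 295 220437 (.lg 0 false 8 89 97 17
  0 5040) (.nx 298 1627 (.lg 0 false 3 79 79 16 0 2520) .out)) .out)) (.nr 312 92683 (.nr 308 634
  (.lg 0 true 8 79 79 17 0 5040) (.nx 311 262145 (.lg 2 false 3 97 97 16 39260 2520) .out))
  .out)))) .out) .out) (.na 316 25 .ne (.lg 0 false 1 0 0 7 0 24))))) (.na 415 35 (.na 368 29 (.na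
  342 28 (.nx 341 1664512 (.nr 340 1048577 (.nr 318 25 .s1 (.nx 321 141 (.nx 320 140 (.nr 319 235
  (.lg 0 false 1 19 19 16 0 2520) (.l1 .sk)) (.l1 .sk)) (.nx 330 20644 (.nx 322 257 (.l1 (.ls 79 31
  1712)) (.nr 329 311745 (.nr 325 110219 (.lg 0 false 3 83 83 16 0 2520) (.nx 328 8193 (.lg 0 false
  3 83 83 16 0 2520) .out)) .out)) (.nr 339 77937 (.nr 335 513 (.lg 0 true 5 73 73 16 0 2520) (.nx
  338 165142 (.lg 2 false 3 89 89 16 37066 2520) .out)) .out)))) .out) .out) (.nx 367 1664512 (.nr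
  366 1048577 (.nr 343 26 .s1 (.nx 347 257 (.nx 345 140 (.nr 344 243 (.lg 0 true 1 23 23 13 0 5040)
  (.l1 .sk)) (.nx 346 141 (.l1 .sk) (.l1 (.ls 83 41 1651)))) (.nr 365 311745 (.nr 361 110219 (.nx
  350 20644 (.lg 0 false 3 89 89 19 0 5040) (.nr 360 77937 (.nr 356 513 (.lg 0 true 6 73 73 19 0
  5040) (.nx 359 165142 (.lg 2 false 3 89 89 19 37066 5040) .out)) .out)) (.nx 364 8193 (.lg 0
  false 3 83 83 19 0 5040) .out)) .out))) .out) .out)) (.na 393 32 (.nx 392 1664512 (.nr 391
  1048577 (.nr 369 27 .s1 (.nx 372 141 (.nx 371 140 (.nr 370 268 (.l1 (.ls 23 23 678)) (.l1 .sk))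
  (.l1 .sk)) (.nx 381 20644 (.nx 373 257 (.l1 (.ls 83 23 1595)) (.nr 380 311745 (.nr 376 110219
  (.lg 0 false 3 89 89 16 0 2520) (.nx 379 8193 (.lg 0 false 3 89 89 16 0 2520) .out)) .out)) (.nr
  390 77937 (.nr 386 513 (.lg 0 true 5 79 79 16 0 2520) (.nx 389 165142 (.lg 2 false 3 97 97 16
  37066 2520) .out)) .out)))) .out) .out) (.na 394 33 .ne (.nx 414 1664512 (.nr 413 881745 (.nr 395
  31 .s1 (.nx 397 140 (.nr 396 294 (.l1 (.ls 31 31 596)) (.l1 .sk)) (.nx 398 141 (.l1 .sk) (.nx 399
  257 (.l1 (.ls 83 37 1402)) (.nr 412 440873 (.nr 408 110219 (.nx 401 26009 (.lg 0 false 2 101 101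
  17 0 55440) (.nr 407 32769 (.nx 403 104033 (.nr 402 754 (.lg 0 false 1 73 73 16 0 27720) (.lg 2
  true 1 89 89 16 12401 27720)) (.nr 406 257 (.lg 0 true 3 73 73 19 0 27720) .out)) .out)) (.nx 411
  10323 (.lg 0 false 3 89 97 19 0 27720) .out)) .out))))) .out) .out)))) (.na 460 39 (.na 438 36
  (.nx 437 1664512 (.nr 436 881745 (.nr 416 33 .s1 (.nx 417 257 (.l1 (.ls 71 37 1890)) (.nr 435
  440873 (.nx 425 20644 (.lg 0 false 8 83 83 17 0 5040) (.nr 434 46342 (.nr 430 302 (.lg 0 true 5
  61 61 16 0 2520) (.nx 433 104033 (.lg 2 true 3 71 71 16 24114 2520) .out)) .out)) .out))) .out)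
  .out) (.nx 459 1664512 (.nr 458 881745 (.nr 439 35 .s1 (.nx 441 140 (.nr 440 327 (.l1 (.ls 37 37
  547)) (.l1 .sk)) (.nx 442 141 (.l1 .sk) (.nx 454 104033 (.nx 449 26009 (.nx 443 257 (.l1 (.ls 89
  41 1285)) (.nr 448 440873 (.nr 445 110219 (.lg 0 true 2 89 89 23 0 5040) (.nx 447 10323 (.lg 0
  false 2 97 101 23 0 55440) .out)) .out)) (.nr 453 32769 (.nr 451 13040 (.lg 0 true 2 89 89 23 0
  5040) (.lg 2 true 2 71 71 23 12401 5040)) .out)) (.nr 457 257 (.lg 0 true 3 73 73 23 0 5040)
  .out))))) .out) .out)) (.na 479 44 (.nx 478 1664512 (.nr 477 881745 (.nr 461 38 .s1 (.nx 465 257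
  (.nx 463 140 (.nr 462 369 (.l1 (.ls 31 29 505)) (.l1 .sk)) (.nx 464 141 (.l1 .sk) (.l1 (.ls 83 37
  1186)))) (.nr 476 440873 (.nx 468 10323 (.lg 0 false 3 89 97 19 0 32760) (.nr 475 110219 (.nr 473
  32769 (.nr 471 257 (.lg 0 true 3 73 73 19 0 32760) (.nx 472 104033 (.lg 2 true 1 89 89 17 31244
  32760) .out)) (.nx 474 26009 (.lg 0 true 1 97 97 17 0 32760) .out)) .out)) .out))) .out) .out)
  (.na 498 45 (.nx 497 1664512 (.nr 496 881745 (.nr 480 43 .s1 (.nx 488 10323 (.nx 482 140 (.nr 481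
  377 (.l1 (.ls 37 31 448)) (.l1 .sk)) (.nx 483 141 (.l1 .sk) (.nx 484 257 (.l1 (.ls 83 37 1052))
  (.nr 487 440873 (.lg 0 false 3 89 97 23 0 55440) .out)))) (.nr 495 110219 (.nr 491 257 (.lg 0
  true 3 73 73 23 0 55440) (.nx 494 104033 (.nr 492 32769 (.lg 2 true 1 97 97 19 31244 55440) (.nx
  493 26009 (.lg 0 true 1 97 97 19 0 55440) .out)) .out)) .out))) .out) .out) (.nx 512 1664512 (.nr
  511 881745 (.nr 499 44 .s1 (.nx 504 20644 (.nx 500 257 (.l1 (.ls 73 37 1470)) (.nr 503 440873
  (.lg 0 false 3 89 89 17 0 2520) .out)) (.nr 510 46342 (.nr 507 257 (.lg 0 true 3 67 67 17 0 2520)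
  (.nx 509 104033 (.lg 2 true 2 83 83 17 28336 5040) .out)) .out))) .out) .out)))))) (.na 629 68
  (.na 568 55 (.na 529 49 (.na 514 47 .ne (.nx 528 1664512 (.nr 527 881745 (.nr 515 46 .s1 (.nx 520
  20644 (.nx 516 257 (.l1 (.ls 79 29 1408)) (.nr 519 623489 (.lg 0 false 3 97 97 16 0 2520) .out))
  (.nr 526 46342 (.nr 523 257 (.lg 0 true 3 67 67 16 0 2520) (.nx 525 104033 (.lg 2 true 2 89 89 16
  28336 5040) .out)) .out))) .out) .out)) (.na 530 51 (.lg 0 false 1 0 0 16 0 24) (.na 549 52 (.nx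
  548 1664512 (.nr 547 881745 (.nr 531 50 .s1 (.nx 535 257 (.nx 533 140 (.nr 532 436 (.l1 (.ls 31
  29 387)) (.l1 .sk)) (.nx 534 141 (.l1 .sk) (.l1 (.ls 83 31 908)))) (.nr 546 623489 (.nx 538 13005
  (.lg 0 false 3 89 97 19 0 2520) (.nr 545 110219 (.nr 543 32769 (.nr 541 257 (.lg 0 true 3 71 71
  19 0 2520) (.nx 542 104033 (.lg 2 true 1 89 89 16 28336 2520) .out)) (.nx 544 26009 (.lg 0 true 1
  89 89 16 0 2520) .out)) .out)) .out))) .out) .out) (.nx 567 1664512 (.nr 566 881745 (.nr 550 51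
  .s1 (.nx 552 140 (.nr 551 461 (.l1 (.ls 37 31 379)) (.l1 .sk)) (.nx 553 141 (.l1 .sk) (.nx 554
  257 (.l1 (.ls 83 37 890)) (.nr 565 623489 (.nx 557 13005 (.lg 0 false 3 97 101 23 0 720720) (.nr
  564 110219 (.nr 560 257 (.lg 0 true 3 73 73 23 0 65520) (.nx 563 104033 (.nr 561 32769 (.lg 2
  true 1 89 89 19 28336 65520) (.nx 562 26009 (.lg 0 true 1 97 97 19 0 65520) .out)) .out)) .out))
  .out))))) .out) .out)))) (.na 599 63 (.na 582 60 (.nx 581 1664512 (.nr 580 881745 (.nr 569 54 .s1
  (.nx 570 257 (.l1 (.ls 79 31 1203)) (.nr 579 623489 (.nx 573 20644 (.lg 0 false 3 89 89 17 0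
  27720) (.nr 578 46342 (.nr 576 503 (.lg 0 true 3 71 71 17 0 27720) (.nx 577 104033 (.lg 2 true 1
  83 83 16 22067 27720) .out)) .out)) .out))) .out) .out) (.nx 598 1664512 (.nr 597 881745 (.nr 583
  59 .s1 (.nx 586 141 (.nx 585 140 (.nr 584 528 (.l1 (.ls 31 37 329)) (.l1 .sk)) (.l1 .sk)) (.nx
  587 257 (.l1 (.ls 79 41 772)) (.nr 596 623489 (.nx 589 13005 (.lg 0 false 2 97 97 29 0 5040) (.nr
  595 110219 (.nr 593 32769 (.nr 591 257 (.lg 0 true 2 71 71 29 0 5040) (.nx 592 104033 (.lg 2 true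
  1 83 83 23 28336 5040) .out)) (.nx 594 26009 (.lg 0 true 1 83 83 23 0 5040) .out)) .out))
  .out)))) .out) .out)) (.na 613 64 (.nx 612 1664512 (.nr 611 881745 (.nr 600 62 .s1 (.nx 601 257
  (.l1 (.ls 73 31 1051)) (.nr 610 623489 (.nx 604 20644 (.lg 0 false 3 89 89 19 0 2520) (.nr 609
  46342 (.nr 607 537 (.lg 0 true 3 67 67 19 0 2520) (.nx 608 104033 (.lg 2 true 1 79 79 17 22067
  2520) .out)) .out)) .out))) .out) .out) (.na 614 65 .ne (.nx 628 1664512 (.nr 627 524289 (.nr 615
  64 .s1 (.nx 618 141 (.nx 617 140 (.nr 616 570 (.l1 (.ls 23 23 304)) (.l1 .sk)) (.l1 .sk)) (.nx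
  621 20644 (.lg 0 false 3 89 89 17 0 32760) (.nr 626 32769 (.nr 624 513 (.lg 0 true 3 67 67 17 0
  32760) (.nx 625 104033 (.lg 2 true 1 73 73 16 15623 32760) .out)) .out)))) .out) .out))))) (.na
  690 79 (.na 659 73 (.na 644 71 (.nx 643 1664512 (.nr 642 524289 (.nr 630 67 .s1 (.nx 632 140 (.nr
  631 595 (.l1 (.ls 37 31 291)) (.l1 .sk)) (.nx 633 141 (.l1 .sk) (.nx 636 20644 (.lg 0 false 3 97
  101 29 0 5040) (.nr 641 32769 (.nr 639 513 (.lg 0 true 3 73 73 29 0 5040) (.nx 640 104033 (.lg 2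
  true 1 83 83 13 15623 5040) .out)) .out))))) .out) .out) (.nx 658 1664512 (.nr 657 524289 (.nr
  645 71 .s1 (.nx 651 20644 (.nx 647 140 (.nr 646 612 (.l1 (.ls 19 17 279)) (.l1 .sk)) (.nx 648 141
  (.l1 .sk) (.lg 0 false 3 89 89 16 0 2520))) (.nr 656 32769 (.nr 654 513 (.lg 0 true 3 61 61 16 0
  2520) (.nx 655 104033 (.lg 2 true 1 73 73 16 15623 2520) .out)) .out))) .out) .out)) (.na 674 75
  (.nx 673 1664512 (.nr 672 524289 (.nr 660 73 .s1 (.nx 666 20644 (.nx 662 140 (.nr 661 629 (.l1
  (.ls 19 17 271)) (.l1 .sk)) (.nx 663 141 (.l1 .sk) (.lg 0 false 3 89 89 16 0 2520))) (.nr 671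
  32769 (.nr 669 513 (.lg 0 true 3 61 61 16 0 2520) (.nx 670 104033 (.lg 2 true 1 73 73 16 15623
  2520) .out)) .out))) .out) .out) (.na 675 77 (.lg 0 false 1 0 0 16 0 24) (.nx 689 1664512 (.nr
  688 524289 (.nr 676 77 .s1 (.nx 682 20644 (.nx 678 140 (.nr 677 663 (.l1 (.ls 23 23 257)) (.l1
  .sk)) (.nx 679 141 (.l1 .sk) (.lg 0 false 3 83 83 19 0 27720))) (.nr 687 32769 (.nr 685 513 (.lg
  0 true 3 67 67 19 0 27720) (.nx 686 104033 (.lg 2 true 1 73 73 17 15623 27720) .out)) .out)))
  .out) .out)))) (.na 735 84 (.na 705 81 (.nx 704 1664512 (.nr 703 524289 (.nr 691 79 .s1 (.nx 697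
  20644 (.nx 693 140 (.nr 692 679 (.l1 (.ls 19 17 251)) (.l1 .sk)) (.nx 694 141 (.l1 .sk) (.lg 0
  false 3 89 89 16 0 2520))) (.nr 702 32769 (.nr 700 513 (.lg 0 true 3 61 61 16 0 2520) (.nx 701
  104033 (.lg 2 true 1 71 71 16 15623 2520) .out)) .out))) .out) .out) (.na 720 83 (.nx 719 1664512
  (.nr 718 524289 (.nr 706 81 .s1 (.nx 708 140 (.nr 707 696 (.l1 (.ls 19 19 244)) (.l1 .sk)) (.nx
  709 141 (.l1 .sk) (.nx 712 20644 (.lg 0 false 3 83 83 17 0 2520) (.nr 717 32769 (.nr 715 513 (.lg
  0 true 3 61 61 17 0 2520) (.nx 716 104033 (.lg 2 true 1 71 71 16 15623 2520) .out)) .out)))))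
  .out) .out) (.nx 734 1664512 (.nr 733 524289 (.nr 721 83 .s1 (.nx 723 140 (.nr 722 704 (.l1 (.ls
  19 17 239)) (.l1 .sk)) (.nx 724 141 (.l1 .sk) (.nx 727 20644 (.lg 0 false 3 79 79 16 0 2520) (.nr
  732 32769 (.nr 730 513 (.lg 0 true 3 61 61 16 0 2520) (.nx 731 104033 (.lg 2 true 1 71 71 16
  15623 2520) .out)) .out))))) .out) .out))) (.na 748 85 (.nx 747 1664512 (.nr 746 524289 (.nr 736
  84 .s1 (.nx 738 140 (.nr 737 713 (.l1 (.ls 31 31 236)) (.l1 .sk)) (.nx 739 141 (.l1 .sk) (.nx 741
  20644 (.lg 0 false 2 89 97 31 0 5040) (.nr 745 32769 (.nr 743 513 (.lg 0 true 2 71 71 31 0 5040)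
  (.nx 744 104033 (.lg 2 true 1 73 73 29 15623 5040) .out)) .out))))) .out) .out) (.na 761 87 (.nx
  760 1664512 (.nr 759 524289 (.nr 749 85 .s1 (.nx 751 140 (.nr 750 730 (.l1 (.ls 16 23 233)) (.l1
  .sk)) (.nx 752 141 (.l1 .sk) (.nx 755 20644 (.lg 0 false 3 83 83 16 0 2520) (.nr 758 32769 (.nr
  756 513 (.lg 0 false 1 79 79 16 0 27720) (.nx 757 104033 (.lg 2 true 1 73 73 16 15623 2520)
  .out)) .out))))) .out) .out) (.nx 773 1664512 (.nr 772 524289 (.nr 762 87 .s1 (.nx 765 141 (.nx
  764 140 (.nr 763 763 (.l1 (.ls 23 19 228)) (.l1 .sk)) (.l1 .sk)) (.nx 767 20644 (.lg 0 false 2 97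
  97 19 0 5040) (.nr 771 32769 (.nr 769 513 (.lg 0 true 2 73 73 19 0 5040) (.nx 770 104033 (.lg 2
  true 1 79 79 17 15623 2520) .out)) .out)))) .out) .out)))))))

def T115_1 : Ph :=
  (.na 397 2 (.nx 396 2097153 (.nr 395 881745 (.nx 2 200 (.nr 1 15 (.lg 0 false 1 47 47 5 0 720)
  (.l1 .sk)) (.nx 3 201 (.l1 .sk) (.nr 372 311745 (.nr 343 131073 (.nx 80 32769 (.lg 0 false 77 101
  109 16 0 720720) (.nr 342 110219 (.nx 308 1048577 (.nr 119 901 (.lg 0 true 39 97 101 16 0 9360)
  (.nx 152 41286 (.lg 1 false 33 101 107 13 67394 720720) (.nx 185 52017 (.lg 1 false 33 101 107 13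
  53491 720720) (.nr 307 77937 (.nr 198 1724 (.lg 2 true 13 97 101 9 116380 65520) (.nx 306 832257
  (.nr 211 3160 (.lg 2 true 13 97 101 9 48275 65520) (.nr 224 5794 (.lg 2 true 13 97 101 9 26338
  65520) (.nx 305 660563 (.nr 271 55110 (.nr 237 27556 (.lg 2 false 13 103 107 9 11401 720720) (.nx
  270 524289 (.lg 2 false 33 101 107 13 21267 720720) .out)) (.nx 304 208065 (.lg 2 true 33 101 107
  13 30044 720720) .out)) .out))) .out)) .out)))) (.nr 341 129 (.lg 0 true 33 83 89 13 0 3960)
  .out)) .out)) (.nx 371 8193 (.nx 356 324 (.lg 0 false 13 83 83 9 0 4680) (.nx 357 4096 .out (.nr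
  370 155873 (.lg 0 false 13 101 103 9 0 720720) .out))) .out)) (.nx 394 257 (.lg 0 false 22 83 83
  11 0 7920) .out)))) .out) .out) (.na 398 3 .ne (.nx 649 6658044 (.nr 648 1482912 (.nx 626 2097153
  (.nx 400 200 (.nr 399 38 (.lg 0 true 1 37 37 5 0 360) (.l1 .sk)) (.nx 401 201 (.l1 .sk) (.nx 459
  25600 (.nr 422 131073 (.lg 0 false 21 101 103 16 0 55440) (.nx 435 324 (.lg 0 false 13 79 83 16 0
  4680) (.nx 436 6501 .out (.nr 458 185365 (.nx 444 10321 (.nr 443 155873 (.lg 0 false 7 89 97 13 0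
  5040) .out) (.lg 0 false 14 97 103 16 0 55440)) .out)))) (.nr 625 220437 (.nx 610 1321124 (.nr
  485 748 (.nx 473 660563 (.lg 0 true 14 89 89 16 0 5040) (.nr 484 129 (.lg 0 true 11 79 79 16 0
  3960) .out)) (.nx 609 524289 (.nr 492 3167 (.lg 2 true 7 89 97 13 70093 5040) (.nx 507 32768 (.nr
  506 185365 (.lg 1 false 14 97 103 16 144976 55440) .out) (.nr 514 13397 (.lg 2 true 7 89 97 13
  16555 5040) (.nx 528 41285 (.lg 1 false 14 97 103 16 134669 55440) (.nx 542 52017 (.lg 1 false 14
  97 103 16 106887 55440) (.nr 608 185365 (.nx 592 165142 (.nx 584 131073 (.nx 556 70783 (.lg 1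
  false 14 101 107 16 71349 720720) (.nx 570 96321 (.lg 1 false 14 101 107 16 52433 720720) (.lg 1
  false 14 101 107 16 38531 720720))) (.nr 591 155873 (.lg 1 true 7 103 107 13 23815 720720) .out))
  (.nr 607 92683 (.nx 599 208065 (.lg 1 true 7 101 103 13 11249 55440) (.nr 606 38969 (.lg 2 false
  7 89 97 13 3914 5040) .out)) .out)) .out)))))) .out)) (.nr 624 33 (.lg 0 true 14 71 73 16 0 5040)
  .out)) .out)))) (.nr 647 13 (.lg 0 true 21 73 73 7 0 2520) .out)) .out) .out)))

def T115_2 : Ph :=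
  (.na 349 5 (.na 219 3 (.na 141 2 (.nx 140 660563 (.nr 139 1482912 (.nx 76 4097 (.nx 2 48 (.nr 1 8
  (.lg 0 true 1 31 31 5 0 1008) (.l1 .sk)) (.nx 3 49 (.l1 .sk) (.nr 29 38969 (.nr 18 16385 (.lg 0
  true 15 83 83 9 0 5040) (.nx 28 1292 (.lg 0 false 10 89 89 9 0 5040) .out)) (.nx 75 205 (.nr 39
  110219 (.lg 0 false 10 79 79 9 0 240) (.nx 74 103 (.lg 0 false 35 79 79 13 0 1680) .out))
  .out)))) (.nr 138 13779 (.nx 112 104033 (.nr 101 682 (.nr 96 331 (.lg 0 true 20 73 73 11 0 240)
  (.lg 2 true 5 73 73 9 7544 240)) (.lg 2 false 11 89 97 9 3889 11088)) (.nr 137 78 (.lg 0 true 25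
  79 79 11 0 240) .out)) .out)) .out) .out) (.nx 218 660563 (.nr 217 623489 (.nx 144 49 (.nx 143 48
  (.nr 142 14 (.lg 0 true 1 31 31 5 0 5040) (.l1 .sk)) (.l1 .sk)) (.nr 203 131073 (.nr 191 27556
  (.nx 155 5253 (.lg 0 true 11 83 83 9 0 528) (.nx 177 104033 (.nr 166 613 (.lg 0 true 11 79 79 9 0
  528) (.lg 2 false 11 97 97 9 6055 55440)) (.nr 190 154 (.lg 0 true 13 79 79 9 0 624) .out))) (.nx
  202 647 (.lg 0 false 11 83 83 9 0 528) .out)) (.nx 216 103 (.lg 0 false 13 73 73 9 0 624) .out)))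
  .out) .out)) (.na 291 4 (.nx 290 660563 (.nr 289 881745 (.nx 277 330282 (.nx 221 48 (.nr 220 19
  (.lg 0 true 1 23 23 5 0 144) (.l1 .sk)) (.nx 222 49 (.l1 .sk) (.nr 265 311745 (.nr 253 38969 (.nx
  229 3800 (.lg 0 true 7 83 83 7 0 5040) (.nr 242 716 (.lg 0 true 13 83 83 13 0 1872) (.lg 2 false
  11 89 97 7 11830 7920))) (.nx 264 647 (.lg 0 false 11 83 83 7 0 1584) .out)) (.nx 276 103 (.lg 0
  false 11 71 71 7 0 1584) .out)))) (.nr 288 78 (.lg 0 true 11 71 71 7 0 1584) .out)) .out) .out)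
  (.nx 348 660563 (.nr 347 1246976 (.nx 294 49 (.nx 293 48 (.nr 292 24 (.lg 0 true 1 19 19 9 0 144)
  (.l1 .sk)) (.l1 .sk)) (.nr 328 55110 (.nx 304 6503 (.lg 0 false 10 83 83 13 0 720) (.nr 327 19485
  (.nx 321 330282 (.nr 316 2458 (.nr 314 618 (.lg 0 true 10 79 79 13 0 240) (.lg 2 false 2 79 79 9
  12827 144)) (.lg 2 false 5 79 83 11 3461 720)) (.nr 326 78 (.lg 0 true 5 71 71 11 0 240) .out))
  .out)) (.nx 346 647 (.nr 338 440873 (.lg 0 false 10 79 83 13 0 240) (.nx 345 103 (.lg 0 false 7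
  71 71 11 0 336) .out)) .out))) .out) .out))) (.na 384 7 (.na 350 6 .ne (.nx 383 660563 (.nr 382
  220437 (.nx 353 49 (.nx 352 48 (.nr 351 34 (.lg 0 true 1 19 19 7 0 13104) (.l1 .sk)) (.l1 .sk))
  (.nr 376 77937 (.nx 358 6503 (.lg 0 true 5 83 83 11 0 5040) (.nr 375 27556 (.nr 369 704 (.lg 0
  true 11 79 79 13 0 1584) (.nx 374 330282 (.lg 2 true 5 89 89 11 11260 5040) .out)) .out)) (.nx
  381 647 (.lg 0 false 5 73 73 11 0 720) .out))) .out) .out)) (.na 432 8 (.nx 431 660563 (.nr 430
  262145 (.nr 385 2 .s1 (.nx 388 49 (.nx 387 48 (.nr 386 39 (.l1 (.ls 19 19 332)) (.l1 .sk)) (.l1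
  .sk)) (.nx 424 330282 (.nr 401 1142 (.nx 389 1153 (.lg 0 true 1 61 61 9 0 336) (.nr 400 584 (.nx
  391 4601 (.nr 390 152 (.lg 0 false 1 59 59 9 0 336) (.lg 2 false 1 53 53 9 727 336)) (.lg 0 true
  9 79 79 16 0 1008)) (.lg 2 false 1 73 73 9 13574 336))) (.nr 418 92683 (.nx 406 6503 (.lg 0 false
  5 97 101 16 0 5040) (.nr 417 32769 (.lg 2 true 11 71 71 16 6942 3696) .out)) (.nx 423 647 (.lg 0
  false 5 79 83 16 0 1680) .out))) (.nr 429 78 (.lg 0 true 5 71 71 16 0 1680) .out)))) .out) .out)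
  (.nx 480 660563 (.nr 479 623489 (.nr 433 5 .s1 (.nx 437 103 (.nx 435 48 (.nr 434 44 (.l1 (.ls 19
  23 290)) (.l1 .sk)) (.nx 436 49 (.l1 .sk) (.l1 (.ls 83 31 1029)))) (.nr 478 131073 (.nx 442 2582
  (.lg 0 false 5 83 83 13 0 240) (.nr 477 110219 (.nr 465 38969 (.nr 453 537 (.lg 0 true 11 79 79
  13 0 528) (.nx 464 330282 (.lg 2 true 11 73 73 13 17412 528) .out)) (.nx 476 41287 (.lg 0 false
  11 101 107 13 0 720720) .out)) .out)) .out))) .out) .out))))

theorem c115 :
    OkQ ckI L8 140 11 91 0 34359738368 1 1099511627776 ∧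
    OkQ ckI L9 200 1 4 0 34359738368 1 1099511627776 ∧
    OkQ ckI L5 48 1 9 0 34359738368 1 1099511627776 := by
  refine ⟨?_, ?_, ?_⟩
  · refine fin 2520 774 T115_0 ?_
    refine jn 6 (by decide +kernel) ?_
    refine jn 9 (by decide +kernel) ?_
    refine jn 12 (by decide +kernel) ?_
    refine jn 15 (by decide +kernel) ?_
    refine jn 16 (by decide +kernel) ?_
    refine jn 21 (by decide +kernel) ?_
    refine jn 24 (by decide +kernel) ?_
    refine jn 33 (by decide +kernel) ?_
    refine jn 44 (by decide +kernel) ?_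
    refine jn 52 (by decide +kernel) ?_
    refine jn 59 (by decide +kernel) ?_
    refine jn 60 (by decide +kernel) ?_
    refine jn 61 (by decide +kernel) ?_
    refine jn 62 (by decide +kernel) ?_
    refine jn 63 (by decide +kernel) ?_
    refine jn 64 (by decide +kernel) ?_
    refine jn 65 (by decide +kernel) ?_
    refine jn 68 (by decide +kernel) ?_
    refine jn 70 (by decide +kernel) ?_
    refine jn 71 (by decide +kernel) ?_
    refine jn 72 (by decide +kernel) ?_
    refine jn 75 (by decide +kernel) ?_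
    refine jn 76 (by decide +kernel) ?_
    refine jn 77 (by decide +kernel) ?_
    refine jn 78 (by decide +kernel) ?_
    refine jn 79 (by decide +kernel) ?_
    refine jn 80 (by decide +kernel) ?_
    refine jn 81 (by decide +kernel) ?_
    refine jn 82 (by decide +kernel) ?_
    refine jn 86 (by decide +kernel) ?_
    refine jn 90 (by decide +kernel) ?_
    refine jn 93 (by decide +kernel) ?_
    refine jn 98 (by decide +kernel) ?_
    refine jn 101 (by decide +kernel) ?_
    refine jn 105 (by decide +kernel) ?_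
    refine jn 111 (by decide +kernel) ?_
    refine jn 123 (by decide +kernel) ?_
    refine jn 127 (by decide +kernel) ?_
    refine jn 131 (by decide +kernel) ?_
    refine jn 139 (by decide +kernel) ?_
    refine jn 143 (by decide +kernel) ?_
    refine jn 149 (by decide +kernel) ?_
    refine jn 159 (by decide +kernel) ?_
    refine jn 168 (by decide +kernel) ?_
    refine jn 172 (by decide +kernel) ?_
    refine jn 176 (by decide +kernel) ?_
    refine jn 179 (by decide +kernel) ?_
    refine jn 187 (by decide +kernel) ?_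
    refine jn 190 (by decide +kernel) ?_
    refine jn 200 (by decide +kernel) ?_
    refine jn 208 (by decide +kernel) ?_
    refine jn 220 (by decide +kernel) ?_
    refine jn 225 (by decide +kernel) ?_
    refine jn 228 (by decide +kernel) ?_
    refine jn 234 (by decide +kernel) ?_
    refine jn 246 (by decide +kernel) ?_
    refine jn 254 (by decide +kernel) ?_
    refine jn 257 (by decide +kernel) ?_
    refine jn 260 (by decide +kernel) ?_
    refine jn 266 (by decide +kernel) ?_
    refine jn 274 (by decide +kernel) ?_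
    refine jn 287 (by decide +kernel) ?_
    refine jn 292 (by decide +kernel) ?_
    refine jn 298 (by decide +kernel) ?_
    refine jn 307 (by decide +kernel) ?_
    refine jn 311 (by decide +kernel) ?_
    refine jn 322 (by decide +kernel) ?_
    refine jn 325 (by decide +kernel) ?_
    refine jn 335 (by decide +kernel) ?_
    refine jn 346 (by decide +kernel) ?_
    refine jn 350 (by decide +kernel) ?_
    refine jn 356 (by decide +kernel) ?_
    refine jn 364 (by decide +kernel) ?_
    refine jn 376 (by decide +kernel) ?_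
    refine jn 386 (by decide +kernel) ?_
    refine jn 398 (by decide +kernel) ?_
    refine jn 399 (by decide +kernel) ?_
    refine jn 400 (by decide +kernel) ?_
    refine jn 401 (by decide +kernel) ?_
    refine jn 402 (by decide +kernel) ?_
    refine jn 403 (by decide +kernel) ?_
    refine jn 406 (by decide +kernel) ?_
    refine jn 413 (by decide +kernel) ?_
    refine jn 430 (by decide +kernel) ?_
    refine jn 442 (by decide +kernel) ?_
    refine jn 443 (by decide +kernel) ?_
    refine jn 444 (by decide +kernel) ?_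
    refine jn 445 (by decide +kernel) ?_
    refine jn 449 (by decide +kernel) ?_
    refine jn 450 (by decide +kernel) ?_
    refine jn 451 (by decide +kernel) ?_
    refine jn 452 (by decide +kernel) ?_
    refine jn 453 (by decide +kernel) ?_
    refine jn 457 (by decide +kernel) ?_
    refine jn 465 (by decide +kernel) ?_
    refine jn 467 (by decide +kernel) ?_
    refine jn 468 (by decide +kernel) ?_
    refine jn 470 (by decide +kernel) ?_
    refine jn 471 (by decide +kernel) ?_
    refine jn 472 (by decide +kernel) ?_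
    refine jn 483 (by decide +kernel) ?_
    refine jn 484 (by decide +kernel) ?_
    refine jn 486 (by decide +kernel) ?_
    refine jn 488 (by decide +kernel) ?_
    refine jn 490 (by decide +kernel) ?_
    refine jn 491 (by decide +kernel) ?_
    refine jn 493 (by decide +kernel) ?_
    refine jn 503 (by decide +kernel) ?_
    refine jn 509 (by decide +kernel) ?_
    refine jn 519 (by decide +kernel) ?_
    refine jn 525 (by decide +kernel) ?_
    refine jn 535 (by decide +kernel) ?_
    refine jn 537 (by decide +kernel) ?_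
    refine jn 538 (by decide +kernel) ?_
    refine jn 541 (by decide +kernel) ?_
    refine jn 544 (by decide +kernel) ?_
    refine jn 554 (by decide +kernel) ?_
    refine jn 557 (by decide +kernel) ?_
    refine jn 560 (by decide +kernel) ?_
    refine jn 562 (by decide +kernel) ?_
    refine jn 576 (by decide +kernel) ?_
    refine jn 587 (by decide +kernel) ?_
    refine jn 589 (by decide +kernel) ?_
    refine jn 591 (by decide +kernel) ?_
    refine jn 594 (by decide +kernel) ?_
    refine jn 607 (by decide +kernel) ?_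
    refine jn 621 (by decide +kernel) ?_
    refine jn 630 (by decide +kernel) ?_
    refine jn 636 (by decide +kernel) ?_
    refine jn 639 (by decide +kernel) ?_
    refine jn 651 (by decide +kernel) ?_
    refine jn 666 (by decide +kernel) ?_
    refine jn 682 (by decide +kernel) ?_
    refine jn 697 (by decide +kernel) ?_
    refine jn 712 (by decide +kernel) ?_
    refine jn 727 (by decide +kernel) ?_
    refine jn 739 (by decide +kernel) ?_
    refine jn 741 (by decide +kernel) ?_
    refine jn 744 (by decide +kernel) ?_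
    refine jn 757 (by decide +kernel) ?_
    refine jn 767 (by decide +kernel) ?_
    refine jn 770 (by decide +kernel) ?_
    exact je (by decide +kernel)
  · refine fin 360 650 T115_1 ?_
    refine jn 7 (by decide +kernel) ?_
    refine jn 12 (by decide +kernel) ?_
    refine jn 16 (by decide +kernel) ?_
    refine jn 21 (by decide +kernel) ?_
    refine jn 26 (by decide +kernel) ?_
    refine jn 30 (by decide +kernel) ?_
    refine jn 35 (by decide +kernel) ?_
    refine jn 40 (by decide +kernel) ?_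
    refine jn 45 (by decide +kernel) ?_
    refine jn 49 (by decide +kernel) ?_
    refine jn 54 (by decide +kernel) ?_
    refine jn 58 (by decide +kernel) ?_
    refine jn 63 (by decide +kernel) ?_
    refine jn 68 (by decide +kernel) ?_
    refine jn 72 (by decide +kernel) ?_
    refine jn 78 (by decide +kernel) ?_
    refine jn 80 (by decide +kernel) ?_
    refine jn 90 (by decide +kernel) ?_
    refine jn 98 (by decide +kernel) ?_
    refine jn 107 (by decide +kernel) ?_
    refine jn 116 (by decide +kernel) ?_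
    refine jn 119 (by decide +kernel) ?_
    refine jn 140 (by decide +kernel) ?_
    refine jn 152 (by decide +kernel) ?_
    refine jn 173 (by decide +kernel) ?_
    refine jn 198 (by decide +kernel) ?_
    refine jn 211 (by decide +kernel) ?_
    refine jn 224 (by decide +kernel) ?_
    refine jn 237 (by decide +kernel) ?_
    refine jn 256 (by decide +kernel) ?_
    refine jn 270 (by decide +kernel) ?_
    refine jn 288 (by decide +kernel) ?_
    refine jn 304 (by decide +kernel) ?_
    refine jn 333 (by decide +kernel) ?_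
    refine jn 341 (by decide +kernel) ?_
    refine jn 370 (by decide +kernel) ?_
    refine jn 394 (by decide +kernel) ?_
    refine jn 402 (by decide +kernel) ?_
    refine jn 403 (by decide +kernel) ?_
    refine jn 404 (by decide +kernel) ?_
    refine jn 405 (by decide +kernel) ?_
    refine jn 406 (by decide +kernel) ?_
    refine jn 407 (by decide +kernel) ?_
    refine jn 409 (by decide +kernel) ?_
    refine jn 410 (by decide +kernel) ?_
    refine jn 411 (by decide +kernel) ?_
    refine jn 412 (by decide +kernel) ?_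
    refine jn 413 (by decide +kernel) ?_
    refine jn 414 (by decide +kernel) ?_
    refine jn 416 (by decide +kernel) ?_
    refine jn 417 (by decide +kernel) ?_
    refine jn 418 (by decide +kernel) ?_
    refine jn 419 (by decide +kernel) ?_
    refine jn 420 (by decide +kernel) ?_
    refine jn 421 (by decide +kernel) ?_
    refine jn 435 (by decide +kernel) ?_
    refine jn 444 (by decide +kernel) ?_
    refine jn 457 (by decide +kernel) ?_
    refine jn 461 (by decide +kernel) ?_
    refine jn 463 (by decide +kernel) ?_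
    refine jn 465 (by decide +kernel) ?_
    refine jn 467 (by decide +kernel) ?_
    refine jn 469 (by decide +kernel) ?_
    refine jn 471 (by decide +kernel) ?_
    refine jn 473 (by decide +kernel) ?_
    refine jn 479 (by decide +kernel) ?_
    refine jn 484 (by decide +kernel) ?_
    refine jn 492 (by decide +kernel) ?_
    refine jn 502 (by decide +kernel) ?_
    refine jn 507 (by decide +kernel) ?_
    refine jn 514 (by decide +kernel) ?_
    refine jn 524 (by decide +kernel) ?_
    refine jn 528 (by decide +kernel) ?_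
    refine jn 538 (by decide +kernel) ?_
    refine jn 542 (by decide +kernel) ?_
    refine jn 550 (by decide +kernel) ?_
    refine jn 556 (by decide +kernel) ?_
    refine jn 564 (by decide +kernel) ?_
    refine jn 570 (by decide +kernel) ?_
    refine jn 578 (by decide +kernel) ?_
    refine jn 584 (by decide +kernel) ?_
    refine jn 590 (by decide +kernel) ?_
    refine jn 599 (by decide +kernel) ?_
    refine jn 606 (by decide +kernel) ?_
    refine jn 620 (by decide +kernel) ?_
    refine jn 647 (by decide +kernel) ?_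
    exact je (by decide +kernel)
  · refine fin 48 481 T115_2 ?_
    refine jn 3 (by decide +kernel) ?_
    refine jn 4 (by decide +kernel) ?_
    refine jn 5 (by decide +kernel) ?_
    refine jn 6 (by decide +kernel) ?_
    refine jn 7 (by decide +kernel) ?_
    refine jn 8 (by decide +kernel) ?_
    refine jn 9 (by decide +kernel) ?_
    refine jn 10 (by decide +kernel) ?_
    refine jn 11 (by decide +kernel) ?_
    refine jn 12 (by decide +kernel) ?_
    refine jn 13 (by decide +kernel) ?_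
    refine jn 14 (by decide +kernel) ?_
    refine jn 15 (by decide +kernel) ?_
    refine jn 16 (by decide +kernel) ?_
    refine jn 17 (by decide +kernel) ?_
    refine jn 28 (by decide +kernel) ?_
    refine jn 74 (by decide +kernel) ?_
    refine jn 78 (by decide +kernel) ?_
    refine jn 80 (by decide +kernel) ?_
    refine jn 82 (by decide +kernel) ?_
    refine jn 84 (by decide +kernel) ?_
    refine jn 86 (by decide +kernel) ?_
    refine jn 88 (by decide +kernel) ?_
    refine jn 90 (by decide +kernel) ?_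
    refine jn 92 (by decide +kernel) ?_
    refine jn 94 (by decide +kernel) ?_
    refine jn 96 (by decide +kernel) ?_
    refine jn 101 (by decide +kernel) ?_
    refine jn 112 (by decide +kernel) ?_
    refine jn 120 (by decide +kernel) ?_
    refine jn 129 (by decide +kernel) ?_
    refine jn 137 (by decide +kernel) ?_
    refine jn 144 (by decide +kernel) ?_
    refine jn 145 (by decide +kernel) ?_
    refine jn 147 (by decide +kernel) ?_
    refine jn 149 (by decide +kernel) ?_
    refine jn 151 (by decide +kernel) ?_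
    refine jn 153 (by decide +kernel) ?_
    refine jn 155 (by decide +kernel) ?_
    refine jn 158 (by decide +kernel) ?_
    refine jn 161 (by decide +kernel) ?_
    refine jn 164 (by decide +kernel) ?_
    refine jn 166 (by decide +kernel) ?_
    refine jn 180 (by decide +kernel) ?_
    refine jn 190 (by decide +kernel) ?_
    refine jn 216 (by decide +kernel) ?_
    refine jn 224 (by decide +kernel) ?_
    refine jn 225 (by decide +kernel) ?_
    refine jn 227 (by decide +kernel) ?_
    refine jn 229 (by decide +kernel) ?_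
    refine jn 234 (by decide +kernel) ?_
    refine jn 238 (by decide +kernel) ?_
    refine jn 242 (by decide +kernel) ?_
    refine jn 264 (by decide +kernel) ?_
    refine jn 288 (by decide +kernel) ?_
    refine jn 294 (by decide +kernel) ?_
    refine jn 295 (by decide +kernel) ?_
    refine jn 296 (by decide +kernel) ?_
    refine jn 297 (by decide +kernel) ?_
    refine jn 298 (by decide +kernel) ?_
    refine jn 299 (by decide +kernel) ?_
    refine jn 300 (by decide +kernel) ?_
    refine jn 301 (by decide +kernel) ?_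
    refine jn 302 (by decide +kernel) ?_
    refine jn 303 (by decide +kernel) ?_
    refine jn 304 (by decide +kernel) ?_
    refine jn 305 (by decide +kernel) ?_
    refine jn 306 (by decide +kernel) ?_
    refine jn 307 (by decide +kernel) ?_
    refine jn 308 (by decide +kernel) ?_
    refine jn 309 (by decide +kernel) ?_
    refine jn 310 (by decide +kernel) ?_
    refine jn 311 (by decide +kernel) ?_
    refine jn 312 (by decide +kernel) ?_
    refine jn 313 (by decide +kernel) ?_
    refine jn 314 (by decide +kernel) ?_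
    refine jn 316 (by decide +kernel) ?_
    refine jn 321 (by decide +kernel) ?_
    refine jn 326 (by decide +kernel) ?_
    refine jn 345 (by decide +kernel) ?_
    refine jn 356 (by decide +kernel) ?_
    refine jn 362 (by decide +kernel) ?_
    refine jn 369 (by decide +kernel) ?_
    refine jn 381 (by decide +kernel) ?_
    refine jn 388 (by decide +kernel) ?_
    refine jn 389 (by decide +kernel) ?_
    refine jn 390 (by decide +kernel) ?_
    refine jn 391 (by decide +kernel) ?_
    refine jn 393 (by decide +kernel) ?_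
    refine jn 395 (by decide +kernel) ?_
    refine jn 397 (by decide +kernel) ?_
    refine jn 399 (by decide +kernel) ?_
    refine jn 400 (by decide +kernel) ?_
    refine jn 401 (by decide +kernel) ?_
    refine jn 406 (by decide +kernel) ?_
    refine jn 407 (by decide +kernel) ?_
    refine jn 408 (by decide +kernel) ?_
    refine jn 409 (by decide +kernel) ?_
    refine jn 410 (by decide +kernel) ?_
    refine jn 411 (by decide +kernel) ?_
    refine jn 412 (by decide +kernel) ?_
    refine jn 413 (by decide +kernel) ?_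
    refine jn 414 (by decide +kernel) ?_
    refine jn 415 (by decide +kernel) ?_
    refine jn 416 (by decide +kernel) ?_
    refine jn 417 (by decide +kernel) ?_
    refine jn 424 (by decide +kernel) ?_
    refine jn 429 (by decide +kernel) ?_
    refine jn 436 (by decide +kernel) ?_
    refine jn 437 (by decide +kernel) ?_
    refine jn 438 (by decide +kernel) ?_
    refine jn 439 (by decide +kernel) ?_
    refine jn 440 (by decide +kernel) ?_
    refine jn 441 (by decide +kernel) ?_
    refine jn 442 (by decide +kernel) ?_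
    refine jn 444 (by decide +kernel) ?_
    refine jn 446 (by decide +kernel) ?_
    refine jn 448 (by decide +kernel) ?_
    refine jn 450 (by decide +kernel) ?_
    refine jn 452 (by decide +kernel) ?_
    refine jn 453 (by decide +kernel) ?_
    refine jn 454 (by decide +kernel) ?_
    refine jn 455 (by decide +kernel) ?_
    refine jn 456 (by decide +kernel) ?_
    refine jn 457 (by decide +kernel) ?_
    refine jn 458 (by decide +kernel) ?_
    refine jn 459 (by decide +kernel) ?_
    refine jn 460 (by decide +kernel) ?_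
    refine jn 461 (by decide +kernel) ?_
    refine jn 462 (by decide +kernel) ?_
    refine jn 463 (by decide +kernel) ?_
    refine jn 464 (by decide +kernel) ?_
    refine jn 476 (by decide +kernel) ?_
    exact je (by decide +kernel)

end Pool.Agent.MP_2339ce_nt.NR
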