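import Pool.Agent.MP_2339ce_nt.Q2.NC.L5
import Pool.Agent.MP_2339ce_nt.Q2.NC.L6
import Pool.Agent.MP_2339ce_nt.Q2.NC.L8
import Pool.Agent.MP_2339ce_nt.Q2.CkI

/-! Block NR: runs. -/

set_option autoImplicit false
set_option maxRecDepth 100000

noncomputable section

namespace Pool.Agent.MP_2339ce_nt.NR

open Q2.Top

def T118_0 : Ph :=
  (.na 504 9 (.na 377 5 (.na 231 3 (.na 142 2 (.nx 141 660563 (.nr 140 1482912 (.nx 2 47 (.nr 1 7
  (.lg 0 true 1 37 37 5 0 236880) (.l1 .sk)) (.nx 3 48 (.l1 .sk) (.nr 83 16385 (.nx 54 104033 (.nx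
  16 4097 (.lg 0 true 13 89 89 9 0 43992) (.nr 53 13779 (.nr 40 682 (.nr 36 331 (.lg 0 true 20 79
  79 11 0 33840) (.lg 2 false 4 79 79 7 7387 6768)) (.lg 2 false 13 101 101 9 3728 3079440)) .out))
  (.nr 82 78 (.lg 0 true 28 83 83 11 0 47376) .out)) (.nx 139 1292 (.nr 96 38969 (.lg 0 false 13 97
  101 9 0 3079440) (.nx 138 205 (.nr 109 110219 (.lg 0 false 13 83 83 9 0 43992) (.nx 137 103 (.lg
  0 false 28 83 89 11 0 236880) .out)) .out)) .out)))) .out) .out) (.nx 230 660563 (.nr 229 623489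
  (.nx 145 48 (.nx 144 47 (.nr 143 13 (.lg 0 true 1 23 23 5 0 6768) (.l1 .sk)) (.l1 .sk)) (.nr 213
  131073 (.nx 197 104033 (.nr 186 27556 (.nx 160 5158 (.lg 0 false 15 83 83 9 0 33840) (.nr 175 613
  (.lg 0 true 15 79 79 9 0 33840) (.nx 180 16385 (.lg 1 false 5 89 89 9 5912 33840) (.nr 185 9743
  (.lg 2 true 5 89 89 9 3989 33840) .out)))) (.nx 196 647 (.lg 0 false 10 83 83 9 0 33840) .out))
  (.nr 212 154 (.lg 0 true 15 79 79 9 0 33840) .out)) (.nx 228 103 (.lg 0 false 15 73 73 9 0 33840)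
  .out))) .out) .out)) (.na 312 4 (.nx 311 660563 (.nr 310 881745 (.nx 233 47 (.nr 232 19 (.lg 0
  true 1 23 23 5 0 47376) (.l1 .sk)) (.nx 234 48 (.l1 .sk) (.nx 299 330282 (.nr 288 311745 (.nr 277
  38969 (.nx 239 3694 (.lg 0 true 5 89 89 7 0 16920) (.nr 259 716 (.lg 0 true 20 83 83 16 0 33840)
  (.nr 261 1500 (.lg 2 false 2 83 83 7 10841 47376) (.nx 266 8259 (.lg 1 false 5 89 97 7 11668
  236880) (.lg 2 false 11 89 101 16 5219 521136))))) (.nx 287 647 (.lg 0 false 10 89 97 16 0
  236880) .out)) (.nx 298 103 (.lg 0 false 10 79 79 16 0 33840) .out)) (.nr 309 78 (.lg 0 true 10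
  79 79 16 0 33840) .out)))) .out) .out) (.nx 376 660563 (.nr 375 1246976 (.nx 315 48 (.nx 314 47
  (.nr 313 24 (.lg 0 true 1 23 23 9 0 236880) (.l1 .sk)) (.l1 .sk)) (.nr 351 55110 (.nx 326 6503
  (.lg 0 false 11 97 97 13 0 2605680) (.nr 350 19485 (.nx 343 330282 (.nr 340 2458 (.nr 337 618
  (.lg 0 true 11 83 83 13 0 74448) (.lg 2 true 3 83 83 9 12560 6768)) (.lg 2 false 3 97 97 9 3318
  236880)) (.nr 349 78 (.lg 0 true 6 73 73 11 0 6768) .out)) .out)) (.nx 374 647 (.nr 362 440873
  (.lg 0 false 11 97 97 13 0 2605680) (.nx 373 103 (.lg 0 false 11 79 79 13 0 74448) .out)) .out)))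
  .out) .out))) (.na 424 7 (.na 378 6 .ne (.nx 423 660563 (.nr 422 220437 (.nx 381 48 (.nx 380 47
  (.nr 379 34 (.lg 0 true 1 23 23 7 0 236880) (.l1 .sk)) (.l1 .sk)) (.nx 398 6503 (.nr 392 77937
  (.lg 0 false 11 89 89 17 0 74448) (.nx 397 647 (.lg 0 false 5 83 83 13 0 33840) .out)) (.nr 421
  27556 (.nx 415 330282 (.nr 410 1466 (.nr 409 704 (.lg 0 true 11 83 83 17 0 74448) (.lg 2 false 1
  79 79 7 11026 6768)) (.lg 2 false 5 83 89 13 5295 33840)) (.nr 420 78 (.lg 0 true 5 73 73 13 0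
  33840) .out)) .out))) .out) .out)) (.na 463 8 (.nx 462 660563 (.nr 461 262145 (.nr 425 2 .s1 (.nx
  428 48 (.nx 427 47 (.nr 426 39 (.lg 0 true 1 17 17 9 0 47376) (.l1 .sk)) (.l1 .sk)) (.nx 439 6503
  (.nr 433 92683 (.lg 0 true 5 89 89 16 0 118440) (.nx 438 647 (.lg 0 false 5 79 79 16 0 118440)
  .out)) (.nr 460 32769 (.nx 454 330282 (.nr 450 1142 (.lg 0 true 11 79 83 16 0 260568) (.lg 2
  false 4 89 89 13 6797 47376)) (.nr 459 78 (.lg 0 true 5 71 71 16 0 118440) .out)) .out)))) .out)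
  .out) (.nx 503 660563 (.nr 502 623489 (.nr 464 5 .s1 (.nx 467 48 (.nx 466 47 (.nr 465 44 (.lg 0
  false 1 23 23 11 0 47376) (.l1 .sk)) (.l1 .sk)) (.nx 470 103 (.nr 468 370729 (.l1 (.ls 83 31
  1041)) (.lg 0 false 2 73 73 11 0 6768)) (.nr 501 131073 (.nx 475 3836 (.lg 0 false 5 89 89 13 0
  33840) (.nr 500 110219 (.nr 485 537 (.lg 0 true 10 79 83 19 0 33840) (.nx 499 330282 (.nx 495
  41287 (.nx 490 12585 (.lg 1 false 5 89 101 13 31754 236880) (.lg 1 true 5 89 101 13 9678 236880))
  (.nr 498 38969 (.nr 496 2242 (.lg 2 false 1 83 83 11 14454 6768) (.nr 497 9347 (.lg 2 true 1 83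
  83 11 3462 6768) (.lg 2 true 1 89 89 11 1044 47376))) .out)) .out)) .out)) .out)))) .out)
  .out)))) (.na 585 16 (.na 537 12 (.na 536 10 (.nx 535 660563 (.nr 534 623489 (.nr 505 6 .s1 (.nx
  517 3836 (.nx 509 103 (.nx 507 47 (.nr 506 49 (.lg 0 false 1 17 17 7 0 33840) (.l1 .sk)) (.nx 508
  48 (.l1 .sk) (.l1 (.ls 83 29 925)))) (.nr 516 131073 (.lg 0 false 7 89 89 16 0 236880) .out))
  (.nr 533 110219 (.nr 524 217 (.lg 0 true 7 73 73 16 0 23688) (.nx 532 41287 (.nx 528 12585 (.lg 1
  false 4 89 89 16 31754 33840) (.lg 1 true 4 89 89 16 9678 33840)) .out)) .out))) .out) .out) .ne)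
  (.na 562 14 (.nx 561 660563 (.nr 560 623489 (.nr 538 10 .s1 (.nx 541 48 (.nx 540 47 (.nr 539 68
  (.l1 (.ls 19 29 187)) (.l1 .sk)) (.l1 .sk)) (.nx 542 103 (.l1 (.ls 83 37 695)) (.nr 559 131073
  (.nx 547 6503 (.lg 0 false 5 89 89 19 0 33840) (.nr 558 46342 (.nr 552 154 (.lg 0 true 5 71 71 19
  0 33840) (.nx 557 41287 (.lg 1 true 5 83 89 19 7880 33840) .out)) .out)) .out)))) .out) .out)
  (.nx 584 660563 (.nr 583 623489 (.nr 563 13 .s1 (.nx 567 103 (.nx 565 47 (.nr 564 78 (.l1 (.ls 19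
  23 160)) (.l1 .sk)) (.nx 566 48 (.l1 .sk) (.l1 (.ls 83 31 596)))) (.nr 582 131073 (.nx 572 6503
  (.lg 0 false 5 89 89 13 0 236880) (.nr 581 46342 (.nr 577 154 (.lg 0 true 5 71 71 13 0 236880)
  (.nx 580 41287 (.lg 1 true 3 89 89 13 7880 236880) .out)) .out)) .out))) .out) .out))) (.na 623
  18 (.na 604 17 (.nx 603 660563 (.nr 602 623489 (.nr 586 15 .s1 (.nx 596 9411 (.nx 588 47 (.nr 587
  83 (.l1 (.ls 23 19 141)) (.l1 .sk)) (.nx 589 48 (.l1 .sk) (.nx 590 103 (.l1 (.ls 89 29 522)) (.nr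
  595 131073 (.nx 593 3512 (.lg 0 false 3 83 83 13 0 6768) (.nr 594 77937 (.lg 1 true 1 89 89 11
  24529 33840) .out)) .out)))) (.nr 601 46342 (.nr 599 257 (.lg 0 true 3 73 73 13 0 6768) (.nx 600
  41287 (.lg 1 false 1 89 89 11 5445 33840) .out)) .out))) .out) .out) (.nx 622 660563 (.nr 621
  623489 (.nr 605 16 .s1 (.nx 612 6503 (.nx 606 103 (.l1 (.ls 83 23 627)) (.nr 611 131073 (.lg 0
  false 5 83 83 16 0 16920) .out)) (.nr 620 46342 (.nr 617 257 (.lg 0 true 5 71 71 16 0 16920) (.nx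
  619 41287 (.lg 1 false 2 89 89 11 7880 47376) .out)) .out))) .out) .out)) (.na 642 21 (.nx 641
  660563 (.nr 640 623489 (.nr 624 17 .s1 (.nx 625 103 (.l1 (.ls 79 37 592)) (.nr 639 131073 (.nx
  630 6503 (.lg 0 false 5 83 83 19 0 236880) (.nr 638 46342 (.nr 635 257 (.lg 0 true 5 71 71 19 0
  33840) (.nx 637 41287 (.lg 1 false 2 83 83 13 7880 47376) .out)) .out)) .out))) .out) .out) (.na
  661 23 (.nx 660 660563 (.nr 659 623489 (.nr 643 20 .s1 (.nx 647 103 (.nx 645 47 (.nr 644 112 (.l1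
  (.ls 23 19 108)) (.l1 .sk)) (.nx 646 48 (.l1 .sk) (.l1 (.ls 89 29 398)))) (.nr 658 131073 (.nx
  651 6503 (.lg 0 false 4 89 89 17 0 236880) (.nr 657 46342 (.nr 655 257 (.lg 0 true 4 73 73 17 0
  47376) (.nx 656 41287 (.lg 1 false 1 97 97 16 7880 236880) .out)) .out)) .out))) .out) .out)
  .ne)))))

def T118_1 : Ph :=
  (.na 911 179 (.na 741 83 (.na 629 26 (.na 540 14 (.na 498 3 (.na 283 2 (.nx 282 1321124 (.nr 281
  881745 (.nx 109 24081 (.nx 2 157 (.nr 1 13 (.lg 0 false 1 41 41 5 0 120) (.l1 .sk)) (.nx 3 158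
  (.l1 .sk) (.nr 87 92683 (.lg 0 false 84 97 107 16 0 720720) (.nx 108 257 (.lg 0 false 21 83 83 11
  0 2520) .out)))) (.nr 280 77937 (.nx 251 660563 (.nr 137 695 (.lg 0 true 28 89 97 11 0 1680) (.nx
  165 32769 (.lg 1 false 28 101 107 11 39969 720720) (.nr 250 55110 (.nr 184 2437 (.nr 174 1219
  (.lg 2 true 9 83 83 9 74611 360) (.nx 183 524289 (.lg 2 true 9 83 89 9 33763 360) .out)) (.nx 249
  416129 (.nr 220 38969 (.lg 2 false 36 101 107 16 14716 720720) (.nx 248 104033 (.lg 2 true 28 97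
  103 11 20787 240240) .out)) .out)) .out))) (.nr 279 129 (.lg 0 true 28 79 83 11 0 1680) .out))
  .out)) .out) .out) (.nx 497 3329023 (.nr 496 623489 (.nx 286 158 (.nx 285 157 (.nr 284 24 (.lg 0
  true 1 37 37 5 0 48) (.l1 .sk)) (.l1 .sk)) (.nx 357 26009 (.nr 341 131073 (.lg 0 false 55 97 103
  13 0 720720) (.nx 356 257 (.lg 0 false 15 73 73 9 0 720) .out)) (.nr 495 110219 (.nx 476 1664512
  (.nx 445 416129 (.nr 381 2437 (.nr 372 791 (.lg 0 true 15 89 89 9 0 5040) (.lg 2 true 9 83 89 9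
  41298 1008)) (.nx 444 330282 (.nx 396 32769 (.lg 1 false 15 89 97 9 52304 5040) (.nr 443 92683
  (.nr 401 4468 (.lg 2 true 5 83 83 9 10639 1680) (.nx 416 60679 (.lg 1 false 15 103 103 9 34918
  720720) (.nx 431 104033 (.lg 1 true 15 101 103 9 18857 720720) (.nr 442 65537 (.lg 2 false 11 103
  103 9 7783 720720) .out)))) .out)) .out)) (.nr 475 257 (.lg 0 true 30 83 83 11 0 5040) .out))
  (.nr 494 9 (.lg 0 true 18 67 67 9 0 144) .out)) .out))) .out) .out)) (.na 499 13 .ne (.nx 539
  1664512 (.nr 538 623489 (.nr 500 4 .s1 (.nx 502 157 (.nr 501 124 (.lg 0 true 1 19 19 9 0 312)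
  (.l1 .sk)) (.nx 503 158 (.l1 .sk) (.nx 532 524289 (.nr 526 155873 (.nx 508 29192 (.lg 0 false 5
  89 89 16 0 1560) (.nr 525 110219 (.nr 513 1621 (.lg 0 true 5 73 73 16 0 1560) (.nx 524 416129
  (.nx 518 65537 (.lg 1 false 5 83 89 16 46601 1560) (.nr 523 92683 (.lg 2 false 5 83 89 16 20152
  1560) .out)) .out)) .out)) (.nx 531 1292 (.lg 0 false 5 73 73 16 0 1560) .out)) (.nr 537 65 (.lg
  0 true 5 61 61 16 0 1560) .out))))) .out) .out))) (.na 586 17 (.na 585 16 (.nx 584 1664512 (.nr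
  583 623489 (.nr 541 7 .s1 (.nx 577 524289 (.nx 561 29192 (.nx 543 157 (.nr 542 142 (.lg 0 false 1
  29 29 11 0 1680) (.l1 .sk)) (.nx 544 158 (.l1 .sk) (.nr 555 155873 (.lg 0 false 11 89 97 19 0
  18480) (.nx 560 1292 (.lg 0 false 5 79 79 13 0 1680) .out)))) (.nr 576 110219 (.nr 566 829 (.lg 0
  true 5 73 73 13 0 1680) (.nx 575 416129 (.lg 2 false 9 89 101 19 46601 65520) .out)) .out)) (.nr
  582 65 (.lg 0 true 5 67 67 13 0 1680) .out))) .out) .out) .ne) (.na 628 23 (.nx 627 1664512 (.nr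
  626 1048577 (.nr 587 12 .s1 (.nx 620 262145 (.nx 589 157 (.nr 588 204 (.lg 0 false 1 23 23 11 0
  168) (.l1 .sk)) (.nx 590 158 (.l1 .sk) (.nx 591 257 (.l1 (.ls 73 37 2419)) (.nr 619 623489 (.nr
  613 220437 (.nx 602 41287 (.nr 596 92683 (.lg 0 false 5 89 89 16 0 840) (.nx 601 13005 (.lg 0
  false 5 83 83 16 0 120) .out)) (.nr 612 77937 (.nr 607 1854 (.lg 0 true 5 73 73 16 0 120) (.lg 2
  false 5 83 89 16 23312 840)) .out)) (.nx 618 1627 (.lg 0 false 5 73 73 16 0 120) .out)) .out))))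
  (.nr 625 217 (.lg 0 true 5 67 67 16 0 120) .out))) .out) .out) .ne))) (.na 692 49 (.na 654 34
  (.na 653 32 (.nx 652 1664512 (.nr 651 1048577 (.nr 630 23 .s1 (.nx 633 158 (.nx 632 157 (.nr 631
  284 (.lg 0 false 1 23 23 11 0 21840) (.l1 .sk)) (.l1 .sk)) (.nx 634 257 (.l1 (.ls 79 41 1583))
  (.nr 650 311745 (.nx 641 41287 (.nr 637 110219 (.lg 0 false 3 97 97 11 0 65520) (.nx 640 8193
  (.lg 0 false 3 89 89 11 0 65520) .out)) (.nr 649 65537 (.nr 646 513 (.lg 0 true 5 73 73 19 0
  3120) (.nx 648 165142 (.lg 2 true 2 89 89 11 25271 21840) .out)) .out)) .out)))) .out) .out) .ne)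
  (.na 675 46 (.nx 674 1664512 (.nr 673 881745 (.nr 655 32 .s1 (.nx 656 257 (.l1 (.ls 79 41 1945))
  (.nr 672 440873 (.nx 663 20644 (.lg 0 false 7 89 97 23 0 5040) (.nr 671 46342 (.nr 668 257 (.lg 0
  true 5 67 67 13 0 240) (.nx 670 104033 (.lg 2 true 2 83 83 13 31777 240) .out)) .out)) .out)))
  .out) .out) (.nx 691 1664512 (.nr 690 881745 (.nr 676 45 .s1 (.nx 677 257 (.l1 (.ls 73 41 1438))
  (.nr 689 623489 (.nx 682 20644 (.lg 0 false 5 89 89 19 0 240) (.nr 688 46342 (.nr 685 257 (.lg 0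
  true 3 67 67 13 0 144) (.nx 687 104033 (.lg 2 false 2 79 79 13 31777 48) .out)) .out)) .out)))
  .out) .out))) (.na 709 74 (.na 708 64 (.nx 707 1664512 (.nr 706 881745 (.nr 693 48 .s1 (.nx 694
  257 (.l1 (.ls 71 31 1350)) (.nr 705 623489 (.nx 698 20644 (.lg 0 false 4 83 83 16 0 1680) (.nr
  704 46342 (.nr 701 257 (.lg 0 true 3 61 61 16 0 504) (.nx 703 104033 (.lg 2 false 2 73 73 16
  31777 336) .out)) .out)) .out))) .out) .out) .ne) (.na 724 79 (.nx 723 1664512 (.nr 722 524289
  (.nr 710 73 .s1 (.nx 716 20644 (.nx 712 157 (.nr 711 701 (.l1 (.ls 19 29 336)) (.l1 .sk)) (.nx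
  713 158 (.l1 .sk) (.lg 0 false 3 83 83 19 0 144))) (.nr 721 32769 (.nr 719 513 (.lg 0 true 3 67
  67 19 0 144) (.nx 720 104033 (.lg 2 true 1 73 73 13 19658 48) .out)) .out))) .out) .out) (.nx 740
  1664512 (.nr 739 524289 (.nr 725 79 .s1 (.nr 733 32769 (.nx 726 1755 (.l1 (.ls 47 47 38990)) (.nx
  729 104033 (.lg 0 false 3 67 67 16 0 72) (.nr 732 513 (.lg 0 true 3 61 61 16 0 72) .out))) (.nx
  735 158 (.nx 734 157 (.l1 .sk) (.l1 .sk)) (.nx 738 20644 (.lg 0 false 3 83 83 16 0 72) .out))))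
  .out) .out))))) (.na 833 131 (.na 787 109 (.na 770 91 (.na 756 86 (.nx 755 1664512 (.nr 754
  524289 (.nr 742 83 .s1 (.nx 745 158 (.nx 744 157 (.nr 743 764 (.l1 (.ls 16 17 299)) (.l1 .sk))
  (.l1 .sk)) (.nx 748 20644 (.lg 0 false 3 73 73 16 0 72) (.nr 753 32769 (.nr 751 513 (.lg 0 true 3
  53 53 16 0 72) (.nx 752 104033 (.lg 2 true 1 61 61 16 19658 24) .out)) .out)))) .out) .out) (.nx
  769 1664512 (.nr 768 524289 (.nr 757 86 .s1 (.nx 759 157 (.nr 758 808 (.l1 (.ls 19 29 289)) (.l1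
  .sk)) (.nx 760 158 (.l1 .sk) (.nx 763 20644 (.lg 0 false 3 83 83 19 0 144) (.nr 767 32769 (.nr
  765 513 (.lg 0 true 2 61 61 19 0 48) (.nx 766 104033 (.lg 2 true 1 71 71 13 19658 48) .out))
  .out))))) .out) .out)) (.na 771 98 .ne (.nx 786 1664512 (.nr 785 1048577 (.nr 772 98 .s1 (.nx 775
  158 (.nx 774 157 (.nr 773 968 (.l1 (.ls 17 29 254)) (.l1 .sk)) (.l1 .sk)) (.nx 780 20644 (.lg 0
  false 5 79 79 29 0 1680) (.nr 784 32769 (.nr 782 513 (.lg 0 true 2 59 59 23 0 336) (.nx 783
  104033 (.lg 2 true 1 67 67 19 19658 336) .out)) .out)))) .out) .out))) (.na 816 118 (.na 800 113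
  (.nx 799 1664512 (.nr 798 1048577 (.nr 788 109 .s1 (.nx 794 20644 (.nx 790 157 (.nr 789 1003 (.l1
  (.ls 16 17 229)) (.l1 .sk)) (.nx 791 158 (.l1 .sk) (.lg 0 false 3 73 73 16 0 72))) (.nr 797 32769
  (.nr 795 513 (.lg 0 false 1 61 61 16 0 24) (.nx 796 104033 (.lg 2 true 1 59 59 16 19658 24)
  .out)) .out))) .out) .out) (.nx 815 1664512 (.nr 814 1048577 (.nr 801 113 .s1 (.nx 809 20644 (.nx
  803 157 (.nr 802 1048 (.l1 (.ls 16 17 221)) (.l1 .sk)) (.nx 804 158 (.l1 .sk) (.lg 0 false 5 71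
  73 17 0 120))) (.nr 813 32769 (.nr 811 513 (.lg 0 true 2 53 53 16 0 48) (.nx 812 104033 (.lg 2
  true 1 59 59 16 19658 24) .out)) .out))) .out) .out)) (.na 832 128 (.nx 831 1664512 (.nr 830
  1048577 (.nr 817 118 .s1 (.nx 825 20644 (.nx 819 157 (.nr 818 1136 (.l1 (.ls 16 23 211)) (.l1
  .sk)) (.nx 820 158 (.l1 .sk) (.lg 0 false 5 79 79 23 0 240))) (.nr 829 32769 (.nr 827 513 (.lg 0
  true 2 53 53 19 0 48) (.nx 828 104033 (.lg 2 true 1 67 67 19 19658 48) .out)) .out))) .out) .out)
  .ne))) (.na 876 163 (.na 857 158 (.na 845 157 (.nx 844 832257 (.nr 843 1048577 (.nr 834 131 .s1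
  (.nx 839 13005 (.nx 835 257 (.l1 (.ls 61 19 507)) (.nr 838 741457 (.lg 0 false 3 73 73 17 0 2520)
  .out)) (.nr 842 16385 (.nr 840 1025 (.lg 0 false 1 61 61 16 0 840) (.nx 841 104033 (.lg 2 true 1
  53 53 16 15678 840) .out)) .out))) .out) .out) (.nx 856 832257 (.nr 855 1048577 (.nr 846 157 .s1
  (.nx 847 257 (.l1 (.ls 47 19 423)) (.nr 854 741457 (.nr 850 16385 (.lg 0 false 3 61 61 16 0 72)
  (.nx 853 13005 (.lg 0 true 3 61 61 16 0 72) .out)) .out))) .out) .out)) (.na 866 161 (.nx 865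
  832257 (.nr 864 1048577 (.nr 858 158 .s1 (.nx 859 257 (.l1 (.ls 59 29 421)) (.nr 863 741457 (.nr
  861 16385 (.lg 0 true 2 71 71 23 0 48) (.nx 862 13005 (.lg 0 true 1 79 79 19 0 336) .out))
  .out))) .out) .out) (.nx 875 832257 (.nr 874 1048577 (.nr 867 161 .s1 (.nx 870 13005 (.nx 868 257
  (.l1 (.ls 71 19 413)) (.nr 869 741457 (.lg 0 false 1 79 79 17 0 168) .out)) (.nr 873 16385 (.nr
  871 1025 (.lg 0 true 1 61 61 17 0 168) (.nx 872 104033 (.lg 2 true 1 61 61 17 15678 168) .out))
  .out))) .out) .out))) (.na 895 173 (.na 886 166 (.nx 885 832257 (.nr 884 1048577 (.nr 877 163 .s1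
  (.nx 880 13005 (.nx 878 257 (.l1 (.ls 59 19 408)) (.nr 879 741457 (.lg 0 true 1 71 71 16 0 24)
  .out)) (.nr 883 16385 (.nr 881 1025 (.lg 0 false 1 59 59 16 0 168) (.nx 882 104033 (.lg 2 false 1
  47 47 16 15678 168) .out)) .out))) .out) .out) (.nx 894 832257 (.nr 893 1048577 (.nr 887 166 .s1
  (.nx 888 257 (.l1 (.ls 79 29 400)) (.nr 892 741457 (.nr 890 16385 (.lg 0 true 2 73 73 23 0 48)
  (.nx 891 13005 (.lg 0 true 1 83 83 19 0 1680) .out)) .out))) .out) .out)) (.na 903 178 (.nx 902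
  832257 (.nr 901 1048577 (.nr 896 173 .s1 (.nx 897 257 (.l1 (.ls 59 19 384)) (.nr 900 741457 (.nr
  898 16385 (.lg 0 false 1 73 73 16 0 504) (.nx 899 13005 (.lg 0 true 1 71 71 16 0 24) .out))
  .out))) .out) .out) (.nx 910 832257 (.nr 909 1048577 (.nr 904 178 .s1 (.nx 905 257 (.l1 (.ls 61
  29 374)) (.nr 908 741457 (.nr 906 16385 (.lg 0 false 1 73 73 19 0 48) (.nx 907 13005 (.lg 0 true
  1 73 73 19 0 48) .out)) .out))) .out) .out)))))) (.na 1031 256 (.na 977 218 (.na 945 202 (.na 929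
  191 (.na 919 182 (.nx 918 832257 (.nr 917 1048577 (.nr 912 179 .s1 (.nx 913 257 (.l1 (.ls 59 19
  371)) (.nr 916 741457 (.nr 914 16385 (.lg 0 false 1 73 73 16 0 840) (.nx 915 13005 (.lg 0 true 1
  71 71 16 0 24) .out)) .out))) .out) .out) (.nx 928 832257 (.nr 927 1048577 (.nr 920 182 .s1 (.nx
  921 257 (.l1 (.ls 71 37 365)) (.nr 926 741457 (.nx 922 13005 (.lg 0 false 1 79 79 31 0 4368) (.nr
  925 16385 (.nr 923 1025 (.lg 0 true 1 61 61 31 0 4368) (.nx 924 104033 (.lg 2 false 1 61 61 31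
  15678 4368) .out)) .out)) .out))) .out) .out)) (.na 937 193 (.nx 936 832257 (.nr 935 1048577 (.nr
  930 191 .s1 (.nx 931 257 (.l1 (.ls 73 19 348)) (.nr 934 741457 (.nr 932 16385 (.lg 0 false 1 73
  73 16 0 24) (.nx 933 13005 (.lg 0 true 1 73 73 16 0 24) .out)) .out))) .out) .out) (.nx 944
  832257 (.nr 943 1048577 (.nr 938 193 .s1 (.nx 939 257 (.l1 (.ls 59 19 345)) (.nr 942 741457 (.nr
  940 16385 (.lg 0 false 1 71 71 16 0 24) (.nx 941 13005 (.lg 0 true 1 71 71 16 0 24) .out))
  .out))) .out) .out))) (.na 961 211 (.na 953 206 (.nx 952 832257 (.nr 951 1048577 (.nr 946 202 .s1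
  (.nx 947 257 (.l1 (.ls 59 29 329)) (.nr 950 741457 (.nr 948 16385 (.lg 0 false 1 73 73 23 0 48)
  (.nx 949 13005 (.lg 0 true 1 71 71 23 0 48) .out)) .out))) .out) .out) (.nx 960 832257 (.nr 959
  1048577 (.nr 954 206 .s1 (.nx 955 257 (.l1 (.ls 73 29 323)) (.nr 958 741457 (.nr 956 16385 (.lg 0
  false 1 73 73 23 0 48) (.nx 957 13005 (.lg 0 true 1 73 73 23 0 48) .out)) .out))) .out) .out))
  (.na 969 214 (.nx 968 832257 (.nr 967 1048577 (.nr 962 211 .s1 (.nx 963 257 (.l1 (.ls 59 19 316))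
  (.nr 966 741457 (.nr 964 16385 (.lg 0 false 1 71 71 16 0 120) (.nx 965 13005 (.lg 0 true 1 71 71
  16 0 120) .out)) .out))) .out) .out) (.nx 976 832257 (.nr 975 1048577 (.nr 970 214 .s1 (.nx 971
  257 (.l1 (.ls 73 29 311)) (.nr 974 741457 (.nr 972 16385 (.lg 0 false 1 79 79 23 0 48) (.nx 973
  13005 (.lg 0 true 1 73 73 23 0 48) .out)) .out))) .out) .out)))) (.na 1011 227 (.na 995 223 (.na
  985 221 (.nx 984 832257 (.nr 983 1048577 (.nr 978 218 .s1 (.nx 979 257 (.l1 (.ls 59 29 305)) (.nr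
  982 741457 (.nr 980 16385 (.lg 0 false 1 73 73 23 0 144) (.nx 981 13005 (.lg 0 true 1 71 71 23 0
  144) .out)) .out))) .out) .out) (.nx 994 832257 (.nr 993 1048577 (.nr 986 221 .s1 (.nx 987 257
  (.l1 (.ls 71 29 301)) (.nr 992 741457 (.nx 988 13005 (.lg 0 false 1 79 79 23 0 312) (.nr 991
  16385 (.nr 989 1025 (.lg 0 true 1 61 61 23 0 312) (.nx 990 104033 (.lg 2 true 1 59 59 23 15678
  312) .out)) .out)) .out))) .out) .out)) (.na 1003 226 (.nx 1002 832257 (.nr 1001 1048577 (.nr 996
  223 .s1 (.nx 997 257 (.l1 (.ls 53 19 299)) (.nr 1000 741457 (.nr 998 16385 (.lg 0 false 1 71 71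
  16 0 72) (.nx 999 13005 (.lg 0 true 1 67 67 16 0 24) .out)) .out))) .out) .out) (.nx 1010 832257
  (.nr 1009 1048577 (.nr 1004 226 .s1 (.nx 1005 257 (.l1 (.ls 71 29 295)) (.nr 1008 741457 (.nr
  1006 16385 (.lg 0 false 1 73 73 23 0 48) (.nx 1007 13005 (.lg 0 true 1 73 73 23 0 1680) .out))
  .out))) .out) .out))) (.na 1029 239 (.na 1019 238 (.nx 1018 832257 (.nr 1017 1048577 (.nr 1012
  227 .s1 (.nx 1013 257 (.l1 (.ls 53 19 293)) (.nr 1016 741457 (.nx 1014 13005 (.lg 0 true 1 67 67
  17 0 24) (.nr 1015 16385 (.lg 0 false 1 71 71 17 0 24) .out)) .out))) .out) .out) (.nx 1028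
  832257 (.nr 1027 1048577 (.nr 1020 238 .s1 (.nx 1021 257 (.l1 (.ls 67 37 280)) (.nr 1026 741457
  (.nx 1022 13005 (.lg 0 false 1 73 73 31 0 336) (.nr 1025 16385 (.nr 1023 1025 (.lg 0 true 1 59 59
  31 0 336) (.nx 1024 104033 (.lg 2 true 1 59 59 31 15678 336) .out)) .out)) .out))) .out) .out))
  (.na 1030 241 (.lg 0 false 1 0 0 16 0 24) (.lg 0 false 1 0 0 16 0 24))))) (.na 6123 4096 (.na
  3039 1024 (.na 1802 512 (.na 1032 257 .ne (.nx 1801 832257 (.nr 1800 1482912 (.nr 1033 257 .s1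
  (.nx 1288 1627 (.la (.ls 67 41 10303)) (.nr 1799 524289 (.nr 1543 32769 (.la (.lg 0 false 1 71 71
  23 0)) (.nx 1798 10323 (.la (.lg 0 false 1 59 59 23 0)) .out)) .out))) .out) .out)) (.na 2437 725
  (.nx 2436 832257 (.nr 2435 1482912 (.nr 1803 512 .s1 (.nx 2221 22297 (.nx 2007 205 (.lx (.lp 41 0
  182)) (.nr 2220 1048577 (.la (.lg 0 false 1 61 61 29 0)) .out)) (.nr 2434 32769 (.la (.lg 2 true
  1 53 53 29 127602)) .out))) .out) .out) (.nx 3038 10323 (.nr 3037 1048577 (.nr 2438 725 .s1 (.nx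
  2737 2049 (.la (.ls 59 41 5793)) (.nr 3036 16385 (.la (.lg 0 true 1 29 29 29 0)) .out))) .out)
  .out))) (.na 4069 2048 (.na 3467 1449 (.nx 3466 10323 (.nr 3465 1048577 (.nr 3040 1024 .s1 (.la
  (.ls 53 53 104069))) .out) .out) (.nx 4068 2582 (.nr 4067 524289 (.nr 3468 1449 .s1 (.la (.ls 67
  37 4603))) .out) .out)) (.na 4921 2897 (.nx 4920 3252 (.nr 4919 524289 (.nr 4070 2048 .s1 (.la
  (.ls 67 37 5166))) .out) .out) (.nx 6122 2582 (.nr 6121 262145 (.nr 4922 2897 .s1 (.la (.ls 53 37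
  2304))) .out) .out)))) (.na 13130 32768 (.na 10540 8192 (.na 7981 5793 (.nx 7980 2582 (.nr 7979
  262145 (.nr 6124 4096 .s1 (.nx 6281 157 (.nr 6280 51409 (.lx (.lp 16 0 1449)) (.l1 .sk)) (.nx
  6282 158 (.l1 .sk) (.la (.ls 47 37 1624))))) .out) .out) (.nx 10539 1292 (.nr 10538 65537 (.nr
  7982 5793 .s1 (.nx 8138 157 (.lx (.lp 16 29 2049)) (.nx 8139 158 (.l1 .sk) (.la (.ls 37 37
  2049))))) .out) .out)) (.na 11835 16384 (.nx 11834 1292 (.nr 11833 131073 (.nr 10541 8192 .s1
  (.nx 10745 205 (.lx (.lp 16 0 4097)) (.nr 11832 65537 (.lx (.lp 37 41 4097)) .out))) .out) .out)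
  (.nx 13129 1292 (.nr 13128 262145 (.nr 11836 16384 .s1 (.nx 12040 205 (.lx (.lp 16 0 8193)) (.nr
  13127 131073 (.lx (.lp 37 43 8193)) .out))) .out) .out))) (.na 15185 131072 (.na 14158 65536 (.nx
  14157 1025 (.nr 14156 262145 (.nr 13131 32768 .s1 (.nx 13335 205 (.lx (.lp 16 0 16385)) (.nr
  14155 131073 (.lx (.lp 37 47 16385)) .out))) .out) .out) (.nx 15184 1025 (.nr 15183 262145 (.nr
  14159 65536 .s1 (.lx (.lp 31 53 32769))) .out) .out)) (.na 15187 262144 (.nx 15186 324 (.l1 .sk)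
  .out) (.na 15189 524289 (.nx 15188 205 (.l1 .sk) .out) .out)))))))

def T118_2 : Ph :=
  (.na 569 162 (.na 337 90 (.na 175 54 (.na 86 45 (.na 37 38 (.na 1 34 .ne (.na 19 35 (.nx 18
  1321124 (.nr 17 370729 (.nr 2 33 .s1 (.nx 4 89 (.nr 3 234 (.l1 (.ls 16 29 235)) (.l1 .sk)) (.nx 5
  90 (.l1 .sk) (.nx 10 13005 (.lg 0 false 5 83 97 13 0 64080) (.nr 16 23172 (.nr 13 234 (.lg 0 true
  3 67 67 13 0 12816) (.nx 15 82572 (.lg 2 true 2 73 73 13 15703 12816) .out)) .out))))) .out)
  .out) (.nx 36 1321124 (.nr 35 370729 (.nr 20 34 .s1 (.nx 22 89 (.nr 21 255 (.l1 (.ls 29 23 229))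
  (.l1 .sk)) (.nx 23 90 (.l1 .sk) (.nx 27 6503 (.lg 0 false 4 83 83 19 0 448560) (.nr 34 77937 (.nr
  30 255 (.lg 0 true 3 71 71 17 0 224280) (.nx 33 82572 (.nr 31 23172 (.lg 2 true 1 79 79 16 14410
  224280) (.nx 32 13005 (.lg 0 false 1 83 83 16 0 224280) .out)) .out)) .out))))) .out) .out)))
  (.na 53 42 (.nx 52 1321124 (.nr 51 370729 (.nr 38 37 .s1 (.nx 44 13005 (.nx 40 89 (.nr 39 281
  (.l1 (.ls 17 29 211)) (.l1 .sk)) (.nx 41 90 (.l1 .sk) (.lg 0 false 3 97 97 13 0 448560))) (.nr 50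
  23172 (.nr 47 217 (.lg 0 true 3 67 67 13 0 12816) (.nx 49 82572 (.lg 2 true 2 79 79 13 16933
  448560) .out)) .out))) .out) .out) (.na 69 43 (.nx 68 1321124 (.nr 67 370729 (.nr 54 41 .s1 (.nx
  57 90 (.nx 56 89 (.nr 55 288 (.l1 (.ls 29 31 191)) (.l1 .sk)) (.l1 .sk)) (.nx 59 6503 (.lg 0
  false 2 97 97 29 0 448560) (.nr 66 77937 (.nr 62 288 (.lg 0 true 3 71 71 29 0 89712) (.nx 65
  82572 (.nr 63 23172 (.lg 2 true 1 79 79 23 14168 448560) (.nx 64 13005 (.lg 0 true 1 83 83 23 0
  448560) .out)) .out)) .out)))) .out) .out) (.nx 85 1321124 (.nr 84 370729 (.nr 70 42 .s1 (.nx 72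
  89 (.nr 71 301 (.l1 (.ls 17 17 187)) (.l1 .sk)) (.nx 73 90 (.l1 .sk) (.nx 77 13005 (.lg 0 false 4
  83 83 16 0 12816) (.nr 83 23172 (.nr 81 301 (.lg 0 true 4 67 67 16 0 12816) (.nx 82 82572 (.lg 2
  true 1 73 73 16 12208 6408) .out)) .out))))) .out) .out)))) (.na 132 50 (.na 102 46 (.nx 101
  1321124 (.nr 100 370729 (.nr 87 45 .s1 (.nx 90 90 (.nx 89 89 (.nr 88 308 (.l1 (.ls 23 23 179))
  (.l1 .sk)) (.l1 .sk)) (.nr 97 77937 (.nx 94 82572 (.nx 92 20644 (.lg 0 true 2 79 79 19 0 448560)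
  (.nr 93 13779 (.lg 0 false 1 83 83 17 0 224280) .out)) (.nr 96 217 (.lg 0 true 2 71 71 19 0
  64080) .out)) (.nx 99 6503 (.lg 0 false 2 83 97 19 0 448560) .out)))) .out) .out) (.na 117 49
  (.nx 116 1321124 (.nr 115 311745 (.nr 103 46 .s1 (.nx 109 10323 (.nx 105 89 (.nr 104 328 (.l1
  (.ls 19 19 175)) (.l1 .sk)) (.nx 106 90 (.l1 .sk) (.lg 0 false 3 83 83 13 0 12816))) (.nr 114
  23172 (.nr 112 328 (.lg 0 true 3 67 67 13 0 12816) (.nx 113 82572 (.lg 2 true 1 79 79 13 11203
  448560) .out)) .out))) .out) .out) (.nx 131 1321124 (.nr 130 311745 (.nr 118 49 .s1 (.nx 124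
  10323 (.nx 120 89 (.nr 119 335 (.l1 (.ls 17 17 164)) (.l1 .sk)) (.nx 121 90 (.l1 .sk) (.lg 0
  false 3 73 73 16 0 44856))) (.nr 129 23172 (.nr 127 335 (.lg 0 true 3 61 61 16 0 44856) (.nx 128
  82572 (.lg 2 true 1 67 67 16 10969 44856) .out)) .out))) .out) .out))) (.na 147 51 (.nx 146
  1321124 (.nr 145 311745 (.nr 133 50 .s1 (.nx 139 10323 (.nx 135 89 (.nr 134 342 (.l1 (.ls 19 23
  161)) (.l1 .sk)) (.nx 136 90 (.l1 .sk) (.lg 0 false 3 79 79 19 0 64080))) (.nr 144 23172 (.nr 142
  342 (.lg 0 true 3 61 61 19 0 64080) (.nx 143 82572 (.lg 2 true 1 71 71 13 10745 64080) .out))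
  .out))) .out) .out) (.na 160 53 (.nx 159 1321124 (.nr 158 311745 (.nr 148 51 .s1 (.nx 153 10323
  (.nx 150 89 (.nr 149 355 (.l1 (.ls 16 23 158)) (.l1 .sk)) (.nx 151 90 (.l1 .sk) (.lg 0 false 2 97
  97 16 0 64080))) (.nr 157 23172 (.nr 155 355 (.lg 0 true 2 71 71 16 0 12816) (.nx 156 82572 (.lg
  2 true 1 73 73 16 10351 6408) .out)) .out))) .out) .out) (.nx 174 1321124 (.nr 173 311745 (.nr
  161 53 .s1 (.nx 167 10323 (.nx 163 89 (.nr 162 362 (.l1 (.ls 17 16 152)) (.l1 .sk)) (.nx 164 90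
  (.l1 .sk) (.lg 0 false 3 83 83 16 0 224280))) (.nr 172 23172 (.nr 170 362 (.lg 0 true 3 67 67 16
  0 6408) (.nx 171 82572 (.lg 2 true 1 73 73 16 10151 224280) .out)) .out))) .out) .out))))) (.na
  246 70 (.na 217 62 (.na 189 57 (.nx 188 1321124 (.nr 187 311745 (.nr 176 54 .s1 (.nx 181 10323
  (.nx 178 89 (.nr 177 382 (.l1 (.ls 17 29 149)) (.l1 .sk)) (.nx 179 90 (.l1 .sk) (.lg 0 true 2 79
  79 19 0 64080))) (.nr 186 23172 (.nr 184 382 (.lg 0 true 3 61 61 23 0 12816) (.nx 185 82572 (.lg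
  2 true 1 67 67 19 9619 12816) .out)) .out))) .out) .out) (.na 202 59 (.nx 201 1321124 (.nr 200
  311745 (.nr 190 57 .s1 (.nx 193 90 (.nx 192 89 (.nr 191 395 (.l1 (.ls 17 17 141)) (.l1 .sk)) (.l1
  .sk)) (.nx 195 10323 (.lg 0 false 2 83 97 17 0 12816) (.nr 199 23172 (.nr 197 395 (.lg 0 true 2
  73 73 17 0 12816) (.nx 198 82572 (.lg 2 false 1 71 71 16 9303 6408) .out)) .out)))) .out) .out)
  (.nx 216 1321124 (.nr 215 311745 (.nr 203 59 .s1 (.nx 206 90 (.nx 205 89 (.nr 204 415 (.l1 (.ls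
  17 16 137)) (.l1 .sk)) (.l1 .sk)) (.nx 209 10323 (.lg 0 false 3 79 79 16 0 6408) (.nr 214 23172
  (.nr 212 415 (.lg 0 true 3 67 67 16 0 6408) (.nx 213 82572 (.lg 2 true 1 71 71 16 8925 6408)
  .out)) .out)))) .out) .out))) (.na 232 64 (.nx 231 1321124 (.nr 230 311745 (.nr 218 62 .s1 (.nx
  224 10323 (.nx 220 89 (.nr 219 429 (.l1 (.ls 17 19 130)) (.l1 .sk)) (.nx 221 90 (.l1 .sk) (.lg 0
  false 3 79 79 19 0 12816))) (.nr 229 23172 (.nr 227 429 (.lg 0 true 3 67 67 19 0 12816) (.nx 228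
  82572 (.lg 2 true 1 71 71 13 8925 12816) .out)) .out))) .out) .out) (.na 233 69 .ne (.nx 245
  1321124 (.nr 244 524289 (.nr 234 69 .s1 (.nx 239 8193 (.nx 236 89 (.nr 235 469 (.l1 (.ls 19 17
  117)) (.l1 .sk)) (.nx 237 90 (.l1 .sk) (.lg 0 false 2 83 83 17 0 12816))) (.nr 243 8193 (.nr 241
  513 (.lg 0 true 2 71 71 17 0 12816) (.nx 242 82572 (.lg 2 true 1 61 61 17 7163 6408) .out))
  .out))) .out) .out)))) (.na 283 83 (.na 259 75 (.nx 258 1321124 (.nr 257 524289 (.nr 247 70 .s1
  (.nx 249 89 (.nr 248 502 (.l1 (.ls 29 29 116)) (.l1 .sk)) (.nx 250 90 (.l1 .sk) (.nx 252 8193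
  (.lg 0 false 2 83 83 29 0 448560) (.nr 256 8193 (.nr 254 513 (.lg 0 true 2 71 71 29 0 448560)
  (.nx 255 82572 (.lg 2 false 1 67 67 23 7163 448560) .out)) .out))))) .out) .out) (.na 272 81 (.nx
  271 1321124 (.nr 270 524289 (.nr 260 75 .s1 (.nx 265 8193 (.nx 262 89 (.nr 261 542 (.l1 (.ls 23
  19 108)) (.l1 .sk)) (.nx 263 90 (.l1 .sk) (.lg 0 false 2 83 83 19 0 64080))) (.nr 269 8193 (.nr
  267 513 (.lg 0 true 2 71 71 19 0 64080) (.nx 268 82572 (.lg 2 false 1 59 59 17 7163 32040) .out))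
  .out))) .out) .out) (.nx 282 1321124 (.nr 281 524289 (.nr 273 81 .s1 (.nx 275 89 (.nr 274 556
  (.l1 (.ls 16 17 100)) (.l1 .sk)) (.nx 276 90 (.l1 .sk) (.nx 277 8193 (.lg 0 true 1 79 79 16 0
  6408) (.nr 280 8193 (.nr 278 556 (.lg 0 false 1 67 67 16 0 6408) (.nx 279 82572 (.lg 2 true 1 47
  47 16 6609 6408) .out)) .out))))) .out) .out))) (.na 309 86 (.na 296 85 (.nx 295 1321124 (.nr 294
  524289 (.nr 284 83 .s1 (.nx 286 89 (.nr 285 569 (.l1 (.ls 16 16 98)) (.l1 .sk)) (.nx 287 90 (.l1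
  .sk) (.nx 290 8193 (.lg 0 false 3 71 71 16 0 6408) (.nr 293 8193 (.nr 291 569 (.lg 0 false 1 67
  67 16 0 6408) (.nx 292 82572 (.lg 2 true 1 47 47 16 6458 6408) .out)) .out))))) .out) .out) (.nx
  308 1321124 (.nr 307 524289 (.nr 297 85 .s1 (.nx 300 90 (.nx 299 89 (.nr 298 576 (.l1 (.ls 16 16
  96)) (.l1 .sk)) (.l1 .sk)) (.nx 302 8193 (.lg 0 false 2 83 83 16 0 64080) (.nr 306 8193 (.nr 304
  513 (.lg 0 true 2 71 71 16 0 64080) (.nx 305 82572 (.lg 2 false 1 61 61 16 7163 32040) .out))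
  .out)))) .out) .out)) (.na 322 89 (.nx 321 1321124 (.nr 320 524289 (.nr 310 86 .s1 (.nx 313 90
  (.nx 312 89 (.nr 311 596 (.l1 (.ls 17 19 95)) (.l1 .sk)) (.l1 .sk)) (.nx 316 8193 (.lg 0 false 3
  79 79 19 0 12816) (.nr 319 8193 (.nr 317 596 (.lg 0 false 1 73 73 13 0 64080) (.nx 318 82572 (.lg
  2 true 1 59 59 13 6166 12816) .out)) .out)))) .out) .out) (.nx 336 1321124 (.nr 335 524289 (.nr
  323 89 .s1 (.nx 325 89 (.nr 324 602 (.l1 (.ls 16 16 91)) (.l1 .sk)) (.nx 326 90 (.l1 .sk) (.nr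
  331 8193 (.lg 0 true 5 67 67 16 0 32040) (.nx 334 8193 (.lg 0 true 3 61 61 16 0 6408) .out)))))
  .out) .out)))))) (.na 479 128 (.na 400 106 (.na 364 98 (.na 350 91 (.nx 349 1321124 (.nr 348
  524289 (.nr 338 90 .s1 (.nx 341 90 (.nx 340 89 (.nr 339 609 (.l1 (.ls 29 29 91)) (.l1 .sk)) (.l1
  .sk)) (.nx 343 8193 (.lg 0 false 2 83 83 31 0 64080) (.nr 347 8193 (.nr 345 513 (.lg 0 true 2 71
  71 31 0 64080) (.nx 346 82572 (.lg 2 true 1 61 61 29 7163 64080) .out)) .out)))) .out) .out) (.na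
  351 93 .ne (.nx 363 1321124 (.nr 362 524289 (.nr 352 93 .s1 (.nx 357 8193 (.nx 354 89 (.nr 353
  656 (.l1 (.ls 19 17 88)) (.l1 .sk)) (.nx 355 90 (.l1 .sk) (.lg 0 false 2 83 83 19 0 64080))) (.nr
  361 8193 (.nr 359 513 (.lg 0 true 2 67 67 19 0 12816) (.nx 360 82572 (.lg 2 false 1 59 59 17 7163
  6408) .out)) .out))) .out) .out))) (.na 376 102 (.nx 375 1321124 (.nr 374 524289 (.nr 365 98 .s1
  (.nx 367 89 (.nr 366 683 (.l1 (.ls 19 23 83)) (.l1 .sk)) (.nx 368 90 (.l1 .sk) (.nx 370 8193 (.lg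
  0 false 2 73 73 23 0 89712) (.nr 373 8193 (.nr 371 513 (.lg 2 false 1 67 67 19 599899 448560)
  (.nx 372 82572 (.lg 2 false 1 53 53 19 7163 89712) .out)) .out))))) .out) .out) (.na 389 103 (.nx
  388 1321124 (.nr 387 524289 (.nr 377 102 .s1 (.nx 382 8193 (.nx 379 89 (.nr 378 689 (.l1 (.ls 16
  29 80)) (.l1 .sk)) (.nx 380 90 (.l1 .sk) (.lg 0 false 2 83 83 31 0 448560))) (.nr 386 8193 (.nr
  384 513 (.lg 0 true 2 67 67 31 0 12816) (.nx 385 82572 (.lg 2 false 1 61 61 29 7163 448560)
  .out)) .out))) .out) .out) (.nx 399 1321124 (.nr 398 524289 (.nr 390 103 .s1 (.nx 393 90 (.nx 392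
  89 (.nr 391 710 (.l1 (.ls 16 16 79)) (.l1 .sk)) (.l1 .sk)) (.nx 394 8193 (.lg 0 true 1 73 73 16 0
  6408) (.nr 397 8193 (.nr 395 513 (.lg 2 false 1 59 59 16 570777 32040) (.nx 396 82572 (.lg 2 true
  1 47 47 16 7163 32040) .out)) .out)))) .out) .out)))) (.na 434 115 (.na 412 109 (.nx 411 1321124
  (.nr 410 524289 (.nr 401 106 .s1 (.nx 406 8193 (.nx 403 89 (.nr 402 730 (.l1 (.ls 17 19 77)) (.l1
  .sk)) (.nx 404 90 (.l1 .sk) (.lg 0 false 2 73 73 19 0 12816))) (.nr 409 8193 (.nr 407 513 (.lg 2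
  false 1 67 67 19 554623 448560) (.nx 408 82572 (.lg 2 true 1 53 53 19 7163 12816) .out)) .out)))
  .out) .out) (.na 423 114 (.nx 422 1321124 (.nr 421 524289 (.nr 413 109 .s1 (.nx 417 8193 (.nx 415
  89 (.nr 414 763 (.l1 (.ls 17 16 75)) (.l1 .sk)) (.nx 416 90 (.l1 .sk) (.lg 0 true 1 79 79 16 0
  224280))) (.nr 420 8193 (.nr 418 513 (.lg 2 false 1 59 59 16 539358 6408) (.nx 419 82572 (.lg 2
  true 1 47 47 16 7163 6408) .out)) .out))) .out) .out) (.nx 433 1321124 (.nr 432 524289 (.nr 424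
  114 .s1 (.nx 428 8193 (.nx 426 89 (.nr 425 770 (.l1 (.ls 17 29 72)) (.l1 .sk)) (.nx 427 90 (.l1
  .sk) (.lg 0 true 1 83 83 31 0 12816))) (.nr 431 8193 (.nr 429 513 (.lg 2 true 1 61 61 31 515702
  12816) (.nx 430 82572 (.lg 2 true 1 59 59 31 7163 12816) .out)) .out))) .out) .out))) (.na 457
  125 (.na 445 118 (.nx 444 1321124 (.nr 443 524289 (.nr 435 115 .s1 (.nx 437 89 (.nr 436 790 (.l1
  (.ls 19 17 71)) (.l1 .sk)) (.nx 438 90 (.l1 .sk) (.nx 439 8193 (.lg 0 true 1 83 83 17 0 32040)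
  (.nr 442 8193 (.nr 440 513 (.lg 2 true 1 61 61 17 511218 32040) (.nx 441 82572 (.lg 2 false 1 59
  59 17 7163 224280) .out)) .out))))) .out) .out) (.nx 456 1321124 (.nr 455 524289 (.nr 446 118 .s1
  (.nx 451 8193 (.nx 448 89 (.nr 447 837 (.l1 (.ls 17 19 70)) (.l1 .sk)) (.nx 449 90 (.l1 .sk) (.lg
  0 false 2 73 73 19 0 12816))) (.nr 454 8193 (.nr 452 513 (.lg 2 false 1 61 61 19 498221 12816)
  (.nx 453 82572 (.lg 2 true 1 47 47 19 7163 12816) .out)) .out))) .out) .out)) (.na 468 126 (.nx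
  467 1321124 (.nr 466 524289 (.nr 458 125 .s1 (.nx 462 8193 (.nx 460 89 (.nr 459 843 (.l1 (.ls 16
  17 66)) (.l1 .sk)) (.nx 461 90 (.l1 .sk) (.lg 0 true 1 73 73 16 0 32040))) (.nr 465 8193 (.nr 463
  513 (.lg 2 false 1 59 59 16 470321 32040) (.nx 464 82572 (.lg 2 false 1 47 47 16 7163 32040)
  .out)) .out))) .out) .out) (.nx 478 1321124 (.nr 477 524289 (.nr 469 126 .s1 (.nx 473 8193 (.nx
  471 89 (.nr 470 857 (.l1 (.ls 23 29 65)) (.l1 .sk)) (.nx 472 90 (.l1 .sk) (.lg 0 false 1 79 79 31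
  0 89712))) (.nr 476 8193 (.nr 474 513 (.lg 2 true 1 59 59 31 466588 89712) (.nx 475 82572 (.lg 2
  false 1 53 53 31 7163 89712) .out)) .out))) .out) .out))))) (.na 512 146 (.na 491 135 (.na 480
  131 .ne (.na 481 133 (.lg 0 false 1 0 0 16 0 24) (.nx 490 660563 (.nr 489 1048577 (.nr 482 133
  .s1 (.nx 485 6503 (.nx 483 205 (.l1 (.ls 73 29 318)) (.nr 484 524289 (.lg 0 false 1 79 79 17 0
  44856) .out)) (.nr 488 8193 (.nr 486 1025 (.lg 0 true 1 67 67 17 0 44856) (.nx 487 82572 (.lg 2
  false 1 53 53 17 5045 44856) .out)) .out))) .out) .out))) (.na 501 138 (.nx 500 660563 (.nr 499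
  1048577 (.nr 492 135 .s1 (.nx 493 205 (.l1 (.ls 67 29 314)) (.nr 498 524289 (.nx 494 6503 (.lg 0
  false 1 71 71 19 0 32040) (.nr 497 8193 (.nr 495 1025 (.lg 0 true 1 61 61 19 0 32040) (.nx 496
  82572 (.lg 2 false 1 47 47 19 5045 32040) .out)) .out)) .out))) .out) .out) (.na 511 139 (.nx 510
  660563 (.nr 509 1048577 (.nr 502 138 .s1 (.nx 505 6503 (.nx 503 205 (.l1 (.ls 73 37 307)) (.nr
  504 524289 (.lg 0 false 1 79 79 31 0 12816) .out)) (.nr 508 8193 (.nr 506 1025 (.lg 0 true 1 67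
  67 31 0 12816) (.nx 507 82572 (.lg 2 false 1 53 53 31 5045 12816) .out)) .out))) .out) .out) (.lg
  0 false 1 0 0 16 0 24)))) (.na 531 150 (.na 520 147 (.nx 519 660563 (.nr 518 1048577 (.nr 513 146
  .s1 (.nx 516 6503 (.nx 514 205 (.l1 (.ls 67 29 290)) (.nr 515 524289 (.lg 0 true 1 73 73 19 0
  12816) .out)) (.nr 517 8193 (.lg 0 false 1 79 79 19 0 12816) .out))) .out) .out) (.na 530 149
  (.nx 529 660563 (.nr 528 1048577 (.nr 521 147 .s1 (.nx 524 6503 (.nx 522 205 (.l1 (.ls 71 29
  288)) (.nr 523 524289 (.lg 0 false 1 73 73 23 0 44856) .out)) (.nr 527 8193 (.nr 525 1025 (.lg 0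
  true 1 61 61 23 0 44856) (.nx 526 82572 (.lg 2 false 1 47 47 23 5045 44856) .out)) .out))) .out)
  .out) (.lg 0 false 1 0 0 16 0 24))) (.na 551 155 (.na 541 153 (.nx 540 660563 (.nr 539 1048577
  (.nr 532 150 .s1 (.nx 533 205 (.l1 (.ls 73 37 283)) (.nr 538 524289 (.nx 534 6503 (.lg 0 false 1
  79 79 31 0 64080) (.nr 537 8193 (.nr 535 1025 (.lg 0 true 1 67 67 31 0 64080) (.nx 536 82572 (.lg
  2 false 1 53 53 31 5045 448560) .out)) .out)) .out))) .out) .out) (.nx 550 660563 (.nr 549
  1048577 (.nr 542 153 .s1 (.nx 545 6503 (.nx 543 205 (.l1 (.ls 71 29 277)) (.nr 544 524289 (.lg 0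
  false 1 73 73 23 0 6408) .out)) (.nr 548 8193 (.nr 546 1025 (.lg 0 true 1 61 61 23 0 6408) (.nx
  547 82572 (.lg 2 false 1 47 47 23 5045 6408) .out)) .out))) .out) .out)) (.na 561 157 (.nx 560
  660563 (.nr 559 1048577 (.nr 552 155 .s1 (.nx 555 6503 (.nx 553 205 (.l1 (.ls 73 19 274)) (.nr
  554 524289 (.lg 0 false 1 79 79 17 0 32040) .out)) (.nr 558 8193 (.nr 556 1025 (.lg 0 true 1 67
  67 17 0 32040) (.nx 557 82572 (.lg 2 false 1 53 53 17 5045 32040) .out)) .out))) .out) .out) (.nx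
  568 660563 (.nr 567 1048577 (.nr 562 157 .s1 (.nx 565 6503 (.nx 563 205 (.l1 (.ls 67 17 270))
  (.nr 564 524289 (.lg 0 true 1 71 71 16 0 6408) .out)) (.nr 566 8193 (.lg 0 false 1 73 73 16 0
  224280) .out))) .out) .out))))))) (.na 736 227 (.na 646 186 (.na 610 173 (.na 593 167 (.na 577
  163 (.nx 576 660563 (.nr 575 1048577 (.nr 570 162 .s1 (.nx 571 205 (.l1 (.ls 67 31 262)) (.nr 574
  524289 (.nr 572 8193 (.lg 0 false 1 73 73 23 0 12816) (.nx 573 6503 (.lg 0 true 1 71 71 23 0
  12816) .out)) .out))) .out) .out) (.na 585 166 (.nx 584 660563 (.nr 583 1048577 (.nr 578 163 .s1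
  (.nx 579 205 (.l1 (.ls 61 17 260)) (.nr 582 524289 (.nr 580 8193 (.lg 0 false 1 73 73 16 0 32040)
  (.nx 581 6503 (.lg 0 true 1 71 71 16 0 32040) .out)) .out))) .out) .out) (.nx 592 660563 (.nr 591
  1048577 (.nr 586 166 .s1 (.nx 587 205 (.l1 (.ls 61 29 256)) (.nr 590 524289 (.nr 588 8193 (.lg 0
  false 1 73 73 19 0 64080) (.nx 589 6503 (.lg 0 true 1 71 71 19 0 64080) .out)) .out))) .out)
  .out))) (.na 594 170 (.lg 0 false 1 0 0 16 0 24) (.na 602 171 (.nx 601 660563 (.nr 600 1048577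
  (.nr 595 170 .s1 (.nx 596 205 (.l1 (.ls 73 31 250)) (.nr 599 524289 (.nr 597 8193 (.lg 0 false 1
  83 83 31 0 64080) (.nx 598 6503 (.lg 0 false 1 79 79 31 0 64080) .out)) .out))) .out) .out) (.nx
  609 660563 (.nr 608 1048577 (.nr 603 171 .s1 (.nx 604 205 (.l1 (.ls 71 29 248)) (.nr 607 524289
  (.nr 605 8193 (.lg 0 true 1 73 73 17 0 6408) (.nx 606 6503 (.lg 0 false 1 73 73 17 0 6408) .out))
  .out))) .out) .out)))) (.na 634 178 (.na 618 175 (.nx 617 660563 (.nr 616 1048577 (.nr 611 173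
  .s1 (.nx 612 205 (.l1 (.ls 61 17 245)) (.nr 615 524289 (.nr 613 8193 (.lg 0 false 1 71 71 16 0
  32040) (.nx 614 6503 (.lg 0 true 1 67 67 16 0 32040) .out)) .out))) .out) .out) (.na 626 177 (.nx
  625 660563 (.nr 624 1048577 (.nr 619 175 .s1 (.nx 620 205 (.l1 (.ls 71 23 243)) (.nr 623 524289
  (.nr 621 8193 (.lg 0 true 1 73 73 19 0 224280) (.nx 622 6503 (.lg 0 false 1 73 73 19 0 224280)
  .out)) .out))) .out) .out) (.nx 633 660563 (.nr 632 1048577 (.nr 627 177 .s1 (.nx 628 205 (.l1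
  (.ls 53 23 240)) (.nr 631 524289 (.nr 629 8193 (.lg 0 true 1 73 73 19 0 6408) (.nx 630 6503 (.lg
  0 false 1 73 73 19 0 6408) .out)) .out))) .out) .out))) (.na 644 179 (.nx 643 660563 (.nr 642
  1048577 (.nr 635 178 .s1 (.nx 636 205 (.l1 (.ls 61 29 239)) (.nr 641 524289 (.nr 638 8193 (.lg 0
  false 2 67 67 19 0 448560) (.nx 640 6503 (.lg 0 true 2 61 61 19 0 12816) .out)) .out))) .out)
  .out) (.na 645 181 (.lg 0 false 1 0 0 16 0 24) (.lg 0 false 1 0 0 16 0 24))))) (.na 680 206 (.na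
  670 194 (.na 654 189 (.nx 653 660563 (.nr 652 1048577 (.nr 647 186 .s1 (.nx 648 205 (.l1 (.ls 73
  29 228)) (.nr 651 524289 (.nr 649 8193 (.lg 0 true 1 79 79 29 0 12816) (.nx 650 6503 (.lg 0 false
  1 73 73 29 0 12816) .out)) .out))) .out) .out) (.na 662 190 (.nx 661 660563 (.nr 660 1048577 (.nr
  655 189 .s1 (.nx 656 205 (.l1 (.ls 71 23 225)) (.nr 659 524289 (.nr 657 8193 (.lg 0 true 1 73 73
  23 0 44856) (.nx 658 6503 (.lg 0 false 1 73 73 23 0 44856) .out)) .out))) .out) .out) (.nx 669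
  660563 (.nr 668 1048577 (.nr 663 190 .s1 (.nx 664 205 (.l1 (.ls 73 31 224)) (.nr 667 524289 (.nr
  665 8193 (.lg 0 true 1 79 79 31 0 64080) (.nx 666 6503 (.lg 0 false 1 73 73 31 0 64080) .out))
  .out))) .out) .out))) (.na 678 197 (.nx 677 660563 (.nr 676 1048577 (.nr 671 194 .s1 (.nx 672 205
  (.l1 (.ls 61 23 219)) (.nr 675 524289 (.nr 673 8193 (.lg 0 false 1 73 73 19 0 64080) (.nx 674
  6503 (.lg 0 true 1 71 71 19 0 64080) .out)) .out))) .out) .out) (.na 679 199 (.lg 0 false 1 0 0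
  16 0 24) (.lg 0 false 1 0 0 16 0 24)))) (.na 704 211 (.na 688 207 (.nx 687 660563 (.nr 686
  1048577 (.nr 681 206 .s1 (.nx 682 205 (.l1 (.ls 61 23 207)) (.nr 685 524289 (.nr 683 8193 (.lg 0
  false 1 71 71 23 0 12816) (.nx 684 6503 (.lg 0 true 1 67 67 23 0 12816) .out)) .out))) .out)
  .out) (.na 696 210 (.nx 695 660563 (.nr 694 1048577 (.nr 689 207 .s1 (.nx 690 205 (.l1 (.ls 71 19
  206)) (.nr 693 524289 (.nr 691 8193 (.lg 0 true 1 73 73 19 0 6408) (.nx 692 6503 (.lg 0 false 1
  73 73 19 0 6408) .out)) .out))) .out) .out) (.nx 703 660563 (.nr 702 1048577 (.nr 697 210 .s1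
  (.nx 698 205 (.l1 (.ls 73 37 203)) (.nr 701 524289 (.nr 699 8193 (.lg 0 true 1 83 83 41 0 448560)
  (.nx 700 6503 (.lg 0 false 1 79 79 41 0 448560) .out)) .out))) .out) .out))) (.na 720 218 (.na
  712 217 (.nx 711 660563 (.nr 710 1048577 (.nr 705 211 .s1 (.nx 706 205 (.l1 (.ls 61 17 202)) (.nr
  709 524289 (.nr 707 8193 (.lg 0 false 1 71 71 16 0 6408) (.nx 708 6503 (.lg 0 true 1 67 67 16 0
  6408) .out)) .out))) .out) .out) (.nx 719 660563 (.nr 718 1048577 (.nr 713 217 .s1 (.nx 714 205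
  (.l1 (.ls 71 19 196)) (.nr 717 524289 (.nr 715 8193 (.lg 0 true 1 73 73 19 0 44856) (.nx 716 6503
  (.lg 0 false 1 71 71 19 0 44856) .out)) .out))) .out) .out)) (.na 728 219 (.nx 727 660563 (.nr
  726 1048577 (.nr 721 218 .s1 (.nx 722 205 (.l1 (.ls 67 23 195)) (.nr 725 524289 (.nr 723 8193
  (.lg 0 false 1 71 71 23 0 12816) (.nx 724 6503 (.lg 0 true 1 71 71 23 0 448560) .out)) .out)))
  .out) .out) (.nx 735 660563 (.nr 734 1048577 (.nr 729 219 .s1 (.nx 730 205 (.l1 (.ls 67 19 194))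
  (.nr 733 524289 (.nr 731 8193 (.lg 0 true 1 71 71 19 0 6408) (.nx 732 6503 (.lg 0 false 1 67 67
  19 0 6408) .out)) .out))) .out) .out)))))) (.na 805 257 (.na 763 243 (.na 746 238 (.na 737 229
  (.lg 0 false 1 0 0 16 0 24) (.na 738 230 (.lg 0 false 1 0 0 16 0 24) (.nx 745 660563 (.nr 744
  1048577 (.nr 739 230 .s1 (.nx 740 205 (.l1 (.ls 71 31 185)) (.nr 743 524289 (.nr 741 8193 (.lg 0
  true 1 73 73 31 0 64080) (.nx 742 6503 (.lg 0 false 1 73 73 31 0 64080) .out)) .out))) .out)
  .out))) (.na 754 239 (.nx 753 660563 (.nr 752 1048577 (.nr 747 238 .s1 (.nx 748 205 (.l1 (.ls 73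
  31 179)) (.nr 751 524289 (.nr 749 8193 (.lg 0 false 1 79 79 31 0 448560) (.nx 750 6503 (.lg 0
  false 1 73 73 31 0 89712) .out)) .out))) .out) .out) (.na 762 241 (.nx 761 660563 (.nr 760
  1048577 (.nr 755 239 .s1 (.nx 756 205 (.l1 (.ls 59 17 178)) (.nr 759 524289 (.nr 757 8193 (.lg 0
  false 1 67 67 17 0 6408) (.nx 758 6503 (.lg 0 true 1 61 61 17 0 6408) .out)) .out))) .out) .out)
  (.lg 0 false 1 0 0 16 0 24)))) (.na 787 250 (.na 771 245 (.nx 770 660563 (.nr 769 1048577 (.nr
  764 243 .s1 (.nx 765 205 (.l1 (.ls 59 19 175)) (.nr 768 524289 (.nr 766 8193 (.lg 0 false 1 67 67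
  19 0 32040) (.nx 767 6503 (.lg 0 true 1 61 61 19 0 6408) .out)) .out))) .out) .out) (.na 779 249
  (.nx 778 660563 (.nr 777 1048577 (.nr 772 245 .s1 (.nx 773 205 (.l1 (.ls 67 23 174)) (.nr 776
  524289 (.nr 774 8193 (.lg 0 true 1 71 71 23 0 224280) (.nx 775 6503 (.lg 0 false 1 71 71 23 0
  224280) .out)) .out))) .out) .out) (.nx 786 660563 (.nr 785 1048577 (.nr 780 249 .s1 (.nx 781 205
  (.l1 (.ls 67 19 171)) (.nr 784 524289 (.nr 782 8193 (.lg 0 true 1 71 71 23 0 6408) (.nx 783 6503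
  (.lg 0 false 1 67 67 23 0 6408) .out)) .out))) .out) .out))) (.na 796 254 (.na 795 251 (.nx 794
  660563 (.nr 793 1048577 (.nr 788 250 .s1 (.nx 789 205 (.l1 (.ls 59 29 171)) (.nr 792 524289 (.nr
  790 8193 (.lg 0 false 1 71 71 29 0 64080) (.nx 791 6503 (.lg 0 true 1 67 67 29 0 64080) .out))
  .out))) .out) .out) (.lg 0 false 1 0 0 16 0 24)) (.na 804 256 (.nx 803 660563 (.nr 802 1048577
  (.nr 797 254 .s1 (.nx 798 205 (.l1 (.ls 61 23 168)) (.nr 801 524289 (.nr 799 8193 (.lg 0 false 1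
  71 71 23 0 64080) (.nx 800 6503 (.lg 0 true 1 67 67 23 0 64080) .out)) .out))) .out) .out)
  .ne)))) (.na 4023 2897 (.na 2051 1024 (.na 1319 512 (.nx 1318 82572 (.nr 1317 1048577 (.nr 806
  257 .s1 (.nx 1061 647 (.la (.ls 71 31 1631)) (.nr 1316 262145 (.la (.lg 0 false 1 73 73 23 0))
  .out))) .out) .out) (.na 1749 725 (.nx 1748 82572 (.nr 1747 1048577 (.nr 1320 512 .s1 (.nx 1533
  647 (.la (.ls 71 29 820)) (.nr 1746 262145 (.la (.lg 0 false 1 71 71 29 0)) .out))) .out) .out)
  (.nx 2050 3252 (.nr 2049 262145 (.nr 1750 725 .s1 (.la (.ls 53 43 14589))) .out) .out))) (.na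
  2479 1449 (.nx 2478 3252 (.nr 2477 262145 (.nr 2052 1024 .s1 (.la (.ls 53 41 10330))) .out) .out)
  (.na 3081 2048 (.nx 3080 1627 (.nr 3079 131073 (.nr 2480 1449 .s1 (.la (.ls 47 31 1829))) .out)
  .out) (.nx 4022 1627 (.nr 4021 131073 (.nr 3082 2048 .s1 (.nx 3171 89 (.nr 3170 19380 (.lx (.lp
  37 29 725)) (.l1 .sk)) (.nx 3172 90 (.l1 .sk) (.la (.ls 43 31 1291))))) .out) .out)))) (.na 5972
  16384 (.na 4673 4096 (.nx 4672 647 (.nr 4671 65537 (.nr 4024 2897 .s1 (.nx 4186 163 (.lx (.lp 43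
  31 1025)) (.nr 4670 32769 (.lx (.lp 37 31 1025)) .out))) .out) .out) (.na 5323 8192 (.nx 5322 647
  (.nr 5321 65537 (.nr 4674 4096 .s1 (.nx 4836 163 (.lx (.lp 41 37 2049)) (.nr 5320 32769 (.lx (.lp
  37 37 2049)) .out))) .out) .out) (.nx 5971 647 (.nr 5970 65537 (.nr 5324 8192 .s1 (.lx (.lp 37 41
  4097))) .out) .out))) (.na 6948 65536 (.na 6622 32768 (.nx 6621 647 (.nr 6620 131073 (.nr 5973
  16384 .s1 (.nx 6135 163 (.lx (.lp 16 37 8193)) (.nr 6619 65537 (.lx (.lp 31 43 8193)) .out)))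
  .out) .out) (.nx 6947 324 (.nr 6946 131073 (.nr 6623 32768 .s1 (.lx (.lp 16 43 16385))) .out)
  .out)) (.na 7274 131073 (.nx 7273 324 (.nr 7272 262145 (.nr 6949 65536 .s1 (.lx (.lp 16 47
  32769))) .out) .out) .out)))))))

theorem c118 :
    OkQ ckI L5 47 1 24 0 34359738368 1 1099511627776 ∧
    OkQ ckI L8 157 1 1099511627776 0 34359738368 1 1099511627776 ∧
    OkQ ckI L6 89 32 1099511627776 0 34359738368 1 1099511627776 := by
  refine ⟨?_, ?_, ?_⟩
  · refine fin 3384 662 T118_0 ?_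
    refine jn 3 (by decide +kernel) ?_
    refine jn 4 (by decide +kernel) ?_
    refine jn 5 (by decide +kernel) ?_
    refine jn 6 (by decide +kernel) ?_
    refine jn 7 (by decide +kernel) ?_
    refine jn 8 (by decide +kernel) ?_
    refine jn 9 (by decide +kernel) ?_
    refine jn 10 (by decide +kernel) ?_
    refine jn 11 (by decide +kernel) ?_
    refine jn 12 (by decide +kernel) ?_
    refine jn 13 (by decide +kernel) ?_
    refine jn 14 (by decide +kernel) ?_
    refine jn 15 (by decide +kernel) ?_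
    refine jn 16 (by decide +kernel) ?_
    refine jn 18 (by decide +kernel) ?_
    refine jn 20 (by decide +kernel) ?_
    refine jn 23 (by decide +kernel) ?_
    refine jn 25 (by decide +kernel) ?_
    refine jn 27 (by decide +kernel) ?_
    refine jn 29 (by decide +kernel) ?_
    refine jn 31 (by decide +kernel) ?_
    refine jn 33 (by decide +kernel) ?_
    refine jn 35 (by decide +kernel) ?_
    refine jn 36 (by decide +kernel) ?_
    refine jn 40 (by decide +kernel) ?_
    refine jn 53 (by decide +kernel) ?_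
    refine jn 63 (by decide +kernel) ?_
    refine jn 71 (by decide +kernel) ?_
    refine jn 81 (by decide +kernel) ?_
    refine jn 96 (by decide +kernel) ?_
    refine jn 137 (by decide +kernel) ?_
    refine jn 148 (by decide +kernel) ?_
    refine jn 151 (by decide +kernel) ?_
    refine jn 153 (by decide +kernel) ?_
    refine jn 156 (by decide +kernel) ?_
    refine jn 157 (by decide +kernel) ?_
    refine jn 160 (by decide +kernel) ?_
    refine jn 164 (by decide +kernel) ?_
    refine jn 168 (by decide +kernel) ?_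
    refine jn 172 (by decide +kernel) ?_
    refine jn 175 (by decide +kernel) ?_
    refine jn 185 (by decide +kernel) ?_
    refine jn 203 (by decide +kernel) ?_
    refine jn 212 (by decide +kernel) ?_
    refine jn 234 (by decide +kernel) ?_
    refine jn 235 (by decide +kernel) ?_
    refine jn 236 (by decide +kernel) ?_
    refine jn 237 (by decide +kernel) ?_
    refine jn 238 (by decide +kernel) ?_
    refine jn 239 (by decide +kernel) ?_
    refine jn 240 (by decide +kernel) ?_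
    refine jn 241 (by decide +kernel) ?_
    refine jn 242 (by decide +kernel) ?_
    refine jn 243 (by decide +kernel) ?_
    refine jn 245 (by decide +kernel) ?_
    refine jn 246 (by decide +kernel) ?_
    refine jn 247 (by decide +kernel) ?_
    refine jn 248 (by decide +kernel) ?_
    refine jn 249 (by decide +kernel) ?_
    refine jn 250 (by decide +kernel) ?_
    refine jn 251 (by decide +kernel) ?_
    refine jn 252 (by decide +kernel) ?_
    refine jn 253 (by decide +kernel) ?_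
    refine jn 255 (by decide +kernel) ?_
    refine jn 256 (by decide +kernel) ?_
    refine jn 257 (by decide +kernel) ?_
    refine jn 258 (by decide +kernel) ?_
    refine jn 259 (by decide +kernel) ?_
    refine jn 261 (by decide +kernel) ?_
    refine jn 266 (by decide +kernel) ?_
    refine jn 273 (by decide +kernel) ?_
    refine jn 277 (by decide +kernel) ?_
    refine jn 287 (by decide +kernel) ?_
    refine jn 298 (by decide +kernel) ?_
    refine jn 304 (by decide +kernel) ?_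
    refine jn 309 (by decide +kernel) ?_
    refine jn 315 (by decide +kernel) ?_
    refine jn 316 (by decide +kernel) ?_
    refine jn 317 (by decide +kernel) ?_
    refine jn 318 (by decide +kernel) ?_
    refine jn 319 (by decide +kernel) ?_
    refine jn 320 (by decide +kernel) ?_
    refine jn 321 (by decide +kernel) ?_
    refine jn 322 (by decide +kernel) ?_
    refine jn 323 (by decide +kernel) ?_
    refine jn 324 (by decide +kernel) ?_
    refine jn 325 (by decide +kernel) ?_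
    refine jn 326 (by decide +kernel) ?_
    refine jn 327 (by decide +kernel) ?_
    refine jn 328 (by decide +kernel) ?_
    refine jn 329 (by decide +kernel) ?_
    refine jn 330 (by decide +kernel) ?_
    refine jn 331 (by decide +kernel) ?_
    refine jn 332 (by decide +kernel) ?_
    refine jn 333 (by decide +kernel) ?_
    refine jn 334 (by decide +kernel) ?_
    refine jn 335 (by decide +kernel) ?_
    refine jn 336 (by decide +kernel) ?_
    refine jn 337 (by decide +kernel) ?_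
    refine jn 340 (by decide +kernel) ?_
    refine jn 343 (by decide +kernel) ?_
    refine jn 348 (by decide +kernel) ?_
    refine jn 362 (by decide +kernel) ?_
    refine jn 373 (by decide +kernel) ?_
    refine jn 383 (by decide +kernel) ?_
    refine jn 384 (by decide +kernel) ?_
    refine jn 385 (by decide +kernel) ?_
    refine jn 386 (by decide +kernel) ?_
    refine jn 387 (by decide +kernel) ?_
    refine jn 388 (by decide +kernel) ?_
    refine jn 389 (by decide +kernel) ?_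
    refine jn 391 (by decide +kernel) ?_
    refine jn 397 (by decide +kernel) ?_
    refine jn 400 (by decide +kernel) ?_
    refine jn 402 (by decide +kernel) ?_
    refine jn 404 (by decide +kernel) ?_
    refine jn 406 (by decide +kernel) ?_
    refine jn 408 (by decide +kernel) ?_
    refine jn 410 (by decide +kernel) ?_
    refine jn 415 (by decide +kernel) ?_
    refine jn 420 (by decide +kernel) ?_
    refine jn 428 (by decide +kernel) ?_
    refine jn 429 (by decide +kernel) ?_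
    refine jn 430 (by decide +kernel) ?_
    refine jn 431 (by decide +kernel) ?_
    refine jn 432 (by decide +kernel) ?_
    refine jn 433 (by decide +kernel) ?_
    refine jn 439 (by decide +kernel) ?_
    refine jn 442 (by decide +kernel) ?_
    refine jn 444 (by decide +kernel) ?_
    refine jn 446 (by decide +kernel) ?_
    refine jn 449 (by decide +kernel) ?_
    refine jn 450 (by decide +kernel) ?_
    refine jn 454 (by decide +kernel) ?_
    refine jn 459 (by decide +kernel) ?_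
    refine jn 467 (by decide +kernel) ?_
    refine jn 468 (by decide +kernel) ?_
    refine jn 470 (by decide +kernel) ?_
    refine jn 471 (by decide +kernel) ?_
    refine jn 472 (by decide +kernel) ?_
    refine jn 473 (by decide +kernel) ?_
    refine jn 474 (by decide +kernel) ?_
    refine jn 475 (by decide +kernel) ?_
    refine jn 476 (by decide +kernel) ?_
    refine jn 477 (by decide +kernel) ?_
    refine jn 478 (by decide +kernel) ?_
    refine jn 479 (by decide +kernel) ?_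
    refine jn 480 (by decide +kernel) ?_
    refine jn 481 (by decide +kernel) ?_
    refine jn 482 (by decide +kernel) ?_
    refine jn 483 (by decide +kernel) ?_
    refine jn 484 (by decide +kernel) ?_
    refine jn 485 (by decide +kernel) ?_
    refine jn 488 (by decide +kernel) ?_
    refine jn 490 (by decide +kernel) ?_
    refine jn 494 (by decide +kernel) ?_
    refine jn 495 (by decide +kernel) ?_
    refine jn 496 (by decide +kernel) ?_
    refine jn 497 (by decide +kernel) ?_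
    refine jn 506 (by decide +kernel) ?_
    refine jn 509 (by decide +kernel) ?_
    refine jn 511 (by decide +kernel) ?_
    refine jn 514 (by decide +kernel) ?_
    refine jn 516 (by decide +kernel) ?_
    refine jn 519 (by decide +kernel) ?_
    refine jn 521 (by decide +kernel) ?_
    refine jn 523 (by decide +kernel) ?_
    refine jn 524 (by decide +kernel) ?_
    refine jn 532 (by decide +kernel) ?_
    refine jn 541 (by decide +kernel) ?_
    refine jn 542 (by decide +kernel) ?_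
    refine jn 543 (by decide +kernel) ?_
    refine jn 544 (by decide +kernel) ?_
    refine jn 545 (by decide +kernel) ?_
    refine jn 546 (by decide +kernel) ?_
    refine jn 547 (by decide +kernel) ?_
    refine jn 548 (by decide +kernel) ?_
    refine jn 549 (by decide +kernel) ?_
    refine jn 550 (by decide +kernel) ?_
    refine jn 551 (by decide +kernel) ?_
    refine jn 552 (by decide +kernel) ?_
    refine jn 555 (by decide +kernel) ?_
    refine jn 557 (by decide +kernel) ?_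
    refine jn 567 (by decide +kernel) ?_
    refine jn 569 (by decide +kernel) ?_
    refine jn 571 (by decide +kernel) ?_
    refine jn 572 (by decide +kernel) ?_
    refine jn 575 (by decide +kernel) ?_
    refine jn 577 (by decide +kernel) ?_
    refine jn 589 (by decide +kernel) ?_
    refine jn 590 (by decide +kernel) ?_
    refine jn 591 (by decide +kernel) ?_
    refine jn 592 (by decide +kernel) ?_
    refine jn 593 (by decide +kernel) ?_
    refine jn 594 (by decide +kernel) ?_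
    refine jn 596 (by decide +kernel) ?_
    refine jn 597 (by decide +kernel) ?_
    refine jn 598 (by decide +kernel) ?_
    refine jn 599 (by decide +kernel) ?_
    refine jn 600 (by decide +kernel) ?_
    refine jn 606 (by decide +kernel) ?_
    refine jn 609 (by decide +kernel) ?_
    refine jn 612 (by decide +kernel) ?_
    refine jn 616 (by decide +kernel) ?_
    refine jn 619 (by decide +kernel) ?_
    refine jn 627 (by decide +kernel) ?_
    refine jn 630 (by decide +kernel) ?_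
    refine jn 634 (by decide +kernel) ?_
    refine jn 637 (by decide +kernel) ?_
    refine jn 646 (by decide +kernel) ?_
    refine jn 647 (by decide +kernel) ?_
    refine jn 648 (by decide +kernel) ?_
    refine jn 649 (by decide +kernel) ?_
    refine jn 650 (by decide +kernel) ?_
    refine jn 651 (by decide +kernel) ?_
    refine jn 652 (by decide +kernel) ?_
    refine jn 653 (by decide +kernel) ?_
    refine jn 654 (by decide +kernel) ?_
    refine jn 655 (by decide +kernel) ?_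
    refine jn 656 (by decide +kernel) ?_
    exact je (by decide +kernel)
  · refine fin 24 15190 T118_1 ?_
    refine jn 8 (by decide +kernel) ?_
    refine jn 14 (by decide +kernel) ?_
    refine jn 18 (by decide +kernel) ?_
    refine jn 23 (by decide +kernel) ?_
    refine jn 28 (by decide +kernel) ?_
    refine jn 32 (by decide +kernel) ?_
    refine jn 35 (by decide +kernel) ?_
    refine jn 41 (by decide +kernel) ?_
    refine jn 46 (by decide +kernel) ?_
    refine jn 51 (by decide +kernel) ?_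
    refine jn 56 (by decide +kernel) ?_
    refine jn 60 (by decide +kernel) ?_
    refine jn 65 (by decide +kernel) ?_
    refine jn 70 (by decide +kernel) ?_
    refine jn 74 (by decide +kernel) ?_
    refine jn 77 (by decide +kernel) ?_
    refine jn 83 (by decide +kernel) ?_
    refine jn 108 (by decide +kernel) ?_
    refine jn 115 (by decide +kernel) ?_
    refine jn 121 (by decide +kernel) ?_
    refine jn 127 (by decide +kernel) ?_
    refine jn 134 (by decide +kernel) ?_
    refine jn 137 (by decide +kernel) ?_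
    refine jn 165 (by decide +kernel) ?_
    refine jn 183 (by decide +kernel) ?_
    refine jn 204 (by decide +kernel) ?_
    refine jn 220 (by decide +kernel) ?_
    refine jn 248 (by decide +kernel) ?_
    refine jn 268 (by decide +kernel) ?_
    refine jn 279 (by decide +kernel) ?_
    refine jn 292 (by decide +kernel) ?_
    refine jn 299 (by decide +kernel) ?_
    refine jn 307 (by decide +kernel) ?_
    refine jn 314 (by decide +kernel) ?_
    refine jn 321 (by decide +kernel) ?_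
    refine jn 329 (by decide +kernel) ?_
    refine jn 337 (by decide +kernel) ?_
    refine jn 341 (by decide +kernel) ?_
    refine jn 361 (by decide +kernel) ?_
    refine jn 367 (by decide +kernel) ?_
    refine jn 372 (by decide +kernel) ?_
    refine jn 396 (by decide +kernel) ?_
    refine jn 416 (by decide +kernel) ?_
    refine jn 442 (by decide +kernel) ?_
    refine jn 465 (by decide +kernel) ?_
    refine jn 475 (by decide +kernel) ?_
    refine jn 501 (by decide +kernel) ?_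
    refine jn 505 (by decide +kernel) ?_
    refine jn 507 (by decide +kernel) ?_
    refine jn 508 (by decide +kernel) ?_
    refine jn 512 (by decide +kernel) ?_
    refine jn 518 (by decide +kernel) ?_
    refine jn 531 (by decide +kernel) ?_
    refine jn 544 (by decide +kernel) ?_
    refine jn 548 (by decide +kernel) ?_
    refine jn 553 (by decide +kernel) ?_
    refine jn 555 (by decide +kernel) ?_
    refine jn 563 (by decide +kernel) ?_
    refine jn 566 (by decide +kernel) ?_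
    refine jn 575 (by decide +kernel) ?_
    refine jn 590 (by decide +kernel) ?_
    refine jn 593 (by decide +kernel) ?_
    refine jn 595 (by decide +kernel) ?_
    refine jn 601 (by decide +kernel) ?_
    refine jn 607 (by decide +kernel) ?_
    refine jn 618 (by decide +kernel) ?_
    refine jn 625 (by decide +kernel) ?_
    refine jn 634 (by decide +kernel) ?_
    refine jn 637 (by decide +kernel) ?_
    refine jn 646 (by decide +kernel) ?_
    refine jn 656 (by decide +kernel) ?_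
    refine jn 663 (by decide +kernel) ?_
    refine jn 668 (by decide +kernel) ?_
    refine jn 677 (by decide +kernel) ?_
    refine jn 682 (by decide +kernel) ?_
    refine jn 687 (by decide +kernel) ?_
    refine jn 698 (by decide +kernel) ?_
    refine jn 703 (by decide +kernel) ?_
    refine jn 719 (by decide +kernel) ?_
    refine jn 726 (by decide +kernel) ?_
    refine jn 727 (by decide +kernel) ?_
    refine jn 728 (by decide +kernel) ?_
    refine jn 729 (by decide +kernel) ?_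
    refine jn 748 (by decide +kernel) ?_
    refine jn 763 (by decide +kernel) ?_
    refine jn 780 (by decide +kernel) ?_
    refine jn 794 (by decide +kernel) ?_
    refine jn 809 (by decide +kernel) ?_
    refine jn 825 (by decide +kernel) ?_
    refine jn 838 (by decide +kernel) ?_
    refine jn 853 (by decide +kernel) ?_
    refine jn 869 (by decide +kernel) ?_
    refine jn 879 (by decide +kernel) ?_
    refine jn 891 (by decide +kernel) ?_
    refine jn 907 (by decide +kernel) ?_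
    refine jn 922 (by decide +kernel) ?_
    refine jn 933 (by decide +kernel) ?_
    refine jn 949 (by decide +kernel) ?_
    refine jn 965 (by decide +kernel) ?_
    refine jn 981 (by decide +kernel) ?_
    refine jn 990 (by decide +kernel) ?_
    refine jn 1007 (by decide +kernel) ?_
    refine jn 1022 (by decide +kernel) ?_
    refine jn 1035 (by decide +kernel) ?_
    refine jn 1078 (by decide +kernel) ?_
    refine jn 1125 (by decide +kernel) ?_
    refine jn 1198 (by decide +kernel) ?_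
    refine jn 1275 (by decide +kernel) ?_
    refine jn 1290 (by decide +kernel) ?_
    refine jn 1293 (by decide +kernel) ?_
    refine jn 1320 (by decide +kernel) ?_
    refine jn 1333 (by decide +kernel) ?_
    refine jn 1348 (by decide +kernel) ?_
    refine jn 1357 (by decide +kernel) ?_
    refine jn 1380 (by decide +kernel) ?_
    refine jn 1398 (by decide +kernel) ?_
    refine jn 1417 (by decide +kernel) ?_
    refine jn 1453 (by decide +kernel) ?_
    refine jn 1485 (by decide +kernel) ?_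
    refine jn 1497 (by decide +kernel) ?_
    refine jn 1530 (by decide +kernel) ?_
    refine jn 1545 (by decide +kernel) ?_
    refine jn 1557 (by decide +kernel) ?_
    refine jn 1587 (by decide +kernel) ?_
    refine jn 1600 (by decide +kernel) ?_
    refine jn 1612 (by decide +kernel) ?_
    refine jn 1639 (by decide +kernel) ?_
    refine jn 1669 (by decide +kernel) ?_
    refine jn 1708 (by decide +kernel) ?_
    refine jn 1747 (by decide +kernel) ?_
    refine jn 1767 (by decide +kernel) ?_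
    refine jn 1803 (by decide +kernel) ?_
    refine jn 2013 (by decide +kernel) ?_
    refine jn 2037 (by decide +kernel) ?_
    refine jn 2054 (by decide +kernel) ?_
    refine jn 2072 (by decide +kernel) ?_
    refine jn 2093 (by decide +kernel) ?_
    refine jn 2102 (by decide +kernel) ?_
    refine jn 2121 (by decide +kernel) ?_
    refine jn 2136 (by decide +kernel) ?_
    refine jn 2186 (by decide +kernel) ?_
    refine jn 2213 (by decide +kernel) ?_
    refine jn 2223 (by decide +kernel) ?_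
    refine jn 2251 (by decide +kernel) ?_
    refine jn 2268 (by decide +kernel) ?_
    refine jn 2286 (by decide +kernel) ?_
    refine jn 2307 (by decide +kernel) ?_
    refine jn 2323 (by decide +kernel) ?_
    refine jn 2346 (by decide +kernel) ?_
    refine jn 2383 (by decide +kernel) ?_
    refine jn 2416 (by decide +kernel) ?_
    refine jn 2434 (by decide +kernel) ?_
    refine jn 2510 (by decide +kernel) ?_
    refine jn 2639 (by decide +kernel) ?_
    refine jn 2737 (by decide +kernel) ?_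
    refine jn 2790 (by decide +kernel) ?_
    refine jn 2845 (by decide +kernel) ?_
    refine jn 2938 (by decide +kernel) ?_
    refine jn 3001 (by decide +kernel) ?_
    refine jn 3073 (by decide +kernel) ?_
    refine jn 3130 (by decide +kernel) ?_
    refine jn 3178 (by decide +kernel) ?_
    refine jn 3202 (by decide +kernel) ?_
    refine jn 3250 (by decide +kernel) ?_
    refine jn 3295 (by decide +kernel) ?_
    refine jn 3359 (by decide +kernel) ?_
    refine jn 3395 (by decide +kernel) ?_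
    refine jn 3430 (by decide +kernel) ?_
    refine jn 3485 (by decide +kernel) ?_
    refine jn 3613 (by decide +kernel) ?_
    refine jn 3737 (by decide +kernel) ?_
    refine jn 3892 (by decide +kernel) ?_
    refine jn 4006 (by decide +kernel) ?_
    refine jn 4121 (by decide +kernel) ?_
    refine jn 4265 (by decide +kernel) ?_
    refine jn 4396 (by decide +kernel) ?_
    refine jn 4540 (by decide +kernel) ?_
    refine jn 4708 (by decide +kernel) ?_
    refine jn 4804 (by decide +kernel) ?_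
    refine jn 4963 (by decide +kernel) ?_
    refine jn 5126 (by decide +kernel) ?_
    refine jn 5287 (by decide +kernel) ?_
    refine jn 5462 (by decide +kernel) ?_
    refine jn 5639 (by decide +kernel) ?_
    refine jn 5827 (by decide +kernel) ?_
    refine jn 5992 (by decide +kernel) ?_
    refine jn 6280 (by decide +kernel) ?_
    refine jn 6484 (by decide +kernel) ?_
    refine jn 6686 (by decide +kernel) ?_
    refine jn 6912 (by decide +kernel) ?_
    refine jn 7120 (by decide +kernel) ?_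
    refine jn 7308 (by decide +kernel) ?_
    refine jn 7545 (by decide +kernel) ?_
    refine jn 7767 (by decide +kernel) ?_
    refine jn 7982 (by decide +kernel) ?_
    refine jn 8372 (by decide +kernel) ?_
    refine jn 8717 (by decide +kernel) ?_
    refine jn 9017 (by decide +kernel) ?_
    refine jn 9344 (by decide +kernel) ?_
    refine jn 9689 (by decide +kernel) ?_
    refine jn 10040 (by decide +kernel) ?_
    refine jn 10295 (by decide +kernel) ?_
    refine jn 10541 (by decide +kernel) ?_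
    refine jn 10985 (by decide +kernel) ?_
    refine jn 11165 (by decide +kernel) ?_
    refine jn 11289 (by decide +kernel) ?_
    refine jn 11391 (by decide +kernel) ?_
    refine jn 11482 (by decide +kernel) ?_
    refine jn 11568 (by decide +kernel) ?_
    refine jn 11642 (by decide +kernel) ?_
    refine jn 11709 (by decide +kernel) ?_
    refine jn 11771 (by decide +kernel) ?_
    refine jn 11827 (by decide +kernel) ?_
    refine jn 12298 (by decide +kernel) ?_
    refine jn 12545 (by decide +kernel) ?_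
    refine jn 12700 (by decide +kernel) ?_
    refine jn 12854 (by decide +kernel) ?_
    refine jn 12977 (by decide +kernel) ?_
    refine jn 13070 (by decide +kernel) ?_
    refine jn 13465 (by decide +kernel) ?_
    refine jn 13791 (by decide +kernel) ?_
    refine jn 14039 (by decide +kernel) ?_
    refine jn 14571 (by decide +kernel) ?_
    refine jn 14947 (by decide +kernel) ?_
    exact je (by decide +kernel)
  · refine fin 6408 7275 T118_2 ?_
    refine jn 10 (by decide +kernel) ?_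
    refine jn 15 (by decide +kernel) ?_
    refine jn 23 (by decide +kernel) ?_
    refine jn 24 (by decide +kernel) ?_
    refine jn 25 (by decide +kernel) ?_
    refine jn 26 (by decide +kernel) ?_
    refine jn 27 (by decide +kernel) ?_
    refine jn 28 (by decide +kernel) ?_
    refine jn 29 (by decide +kernel) ?_
    refine jn 30 (by decide +kernel) ?_
    refine jn 32 (by decide +kernel) ?_
    refine jn 44 (by decide +kernel) ?_
    refine jn 49 (by decide +kernel) ?_
    refine jn 57 (by decide +kernel) ?_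
    refine jn 58 (by decide +kernel) ?_
    refine jn 59 (by decide +kernel) ?_
    refine jn 61 (by decide +kernel) ?_
    refine jn 62 (by decide +kernel) ?_
    refine jn 64 (by decide +kernel) ?_
    refine jn 77 (by decide +kernel) ?_
    refine jn 82 (by decide +kernel) ?_
    refine jn 90 (by decide +kernel) ?_
    refine jn 91 (by decide +kernel) ?_
    refine jn 92 (by decide +kernel) ?_
    refine jn 93 (by decide +kernel) ?_
    refine jn 96 (by decide +kernel) ?_
    refine jn 109 (by decide +kernel) ?_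
    refine jn 113 (by decide +kernel) ?_
    refine jn 127 (by decide +kernel) ?_
    refine jn 139 (by decide +kernel) ?_
    refine jn 143 (by decide +kernel) ?_
    refine jn 151 (by decide +kernel) ?_
    refine jn 152 (by decide +kernel) ?_
    refine jn 153 (by decide +kernel) ?_
    refine jn 155 (by decide +kernel) ?_
    refine jn 167 (by decide +kernel) ?_
    refine jn 171 (by decide +kernel) ?_
    refine jn 184 (by decide +kernel) ?_
    refine jn 193 (by decide +kernel) ?_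
    refine jn 195 (by decide +kernel) ?_
    refine jn 197 (by decide +kernel) ?_
    refine jn 209 (by decide +kernel) ?_
    refine jn 219 (by decide +kernel) ?_
    refine jn 227 (by decide +kernel) ?_
    refine jn 237 (by decide +kernel) ?_
    refine jn 239 (by decide +kernel) ?_
    refine jn 241 (by decide +kernel) ?_
    refine jn 250 (by decide +kernel) ?_
    refine jn 252 (by decide +kernel) ?_
    refine jn 254 (by decide +kernel) ?_
    refine jn 263 (by decide +kernel) ?_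
    refine jn 265 (by decide +kernel) ?_
    refine jn 267 (by decide +kernel) ?_
    refine jn 278 (by decide +kernel) ?_
    refine jn 291 (by decide +kernel) ?_
    refine jn 302 (by decide +kernel) ?_
    refine jn 305 (by decide +kernel) ?_
    refine jn 318 (by decide +kernel) ?_
    refine jn 341 (by decide +kernel) ?_
    refine jn 343 (by decide +kernel) ?_
    refine jn 346 (by decide +kernel) ?_
    refine jn 357 (by decide +kernel) ?_
    refine jn 360 (by decide +kernel) ?_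
    refine jn 372 (by decide +kernel) ?_
    refine jn 382 (by decide +kernel) ?_
    refine jn 385 (by decide +kernel) ?_
    refine jn 396 (by decide +kernel) ?_
    refine jn 408 (by decide +kernel) ?_
    refine jn 419 (by decide +kernel) ?_
    refine jn 428 (by decide +kernel) ?_
    refine jn 430 (by decide +kernel) ?_
    refine jn 439 (by decide +kernel) ?_
    refine jn 441 (by decide +kernel) ?_
    refine jn 453 (by decide +kernel) ?_
    refine jn 469 (by decide +kernel) ?_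
    refine jn 474 (by decide +kernel) ?_
    refine jn 484 (by decide +kernel) ?_
    refine jn 494 (by decide +kernel) ?_
    refine jn 504 (by decide +kernel) ?_
    refine jn 515 (by decide +kernel) ?_
    refine jn 525 (by decide +kernel) ?_
    refine jn 535 (by decide +kernel) ?_
    refine jn 546 (by decide +kernel) ?_
    refine jn 556 (by decide +kernel) ?_
    refine jn 566 (by decide +kernel) ?_
    refine jn 581 (by decide +kernel) ?_
    refine jn 597 (by decide +kernel) ?_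
    refine jn 606 (by decide +kernel) ?_
    refine jn 621 (by decide +kernel) ?_
    refine jn 630 (by decide +kernel) ?_
    refine jn 649 (by decide +kernel) ?_
    refine jn 658 (by decide +kernel) ?_
    refine jn 666 (by decide +kernel) ?_
    refine jn 684 (by decide +kernel) ?_
    refine jn 692 (by decide +kernel) ?_
    refine jn 699 (by decide +kernel) ?_
    refine jn 708 (by decide +kernel) ?_
    refine jn 721 (by decide +kernel) ?_
    refine jn 731 (by decide +kernel) ?_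
    refine jn 742 (by decide +kernel) ?_
    refine jn 755 (by decide +kernel) ?_
    refine jn 767 (by decide +kernel) ?_
    refine jn 780 (by decide +kernel) ?_
    refine jn 790 (by decide +kernel) ?_
    refine jn 807 (by decide +kernel) ?_
    refine jn 834 (by decide +kernel) ?_
    refine jn 851 (by decide +kernel) ?_
    refine jn 867 (by decide +kernel) ?_
    refine jn 894 (by decide +kernel) ?_
    refine jn 911 (by decide +kernel) ?_
    refine jn 948 (by decide +kernel) ?_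
    refine jn 980 (by decide +kernel) ?_
    refine jn 1010 (by decide +kernel) ?_
    refine jn 1035 (by decide +kernel) ?_
    refine jn 1062 (by decide +kernel) ?_
    refine jn 1070 (by decide +kernel) ?_
    refine jn 1073 (by decide +kernel) ?_
    refine jn 1081 (by decide +kernel) ?_
    refine jn 1089 (by decide +kernel) ?_
    refine jn 1090 (by decide +kernel) ?_
    refine jn 1099 (by decide +kernel) ?_
    refine jn 1106 (by decide +kernel) ?_
    refine jn 1113 (by decide +kernel) ?_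
    refine jn 1118 (by decide +kernel) ?_
    refine jn 1119 (by decide +kernel) ?_
    refine jn 1120 (by decide +kernel) ?_
    refine jn 1126 (by decide +kernel) ?_
    refine jn 1127 (by decide +kernel) ?_
    refine jn 1131 (by decide +kernel) ?_
    refine jn 1149 (by decide +kernel) ?_
    refine jn 1150 (by decide +kernel) ?_
    refine jn 1158 (by decide +kernel) ?_
    refine jn 1161 (by decide +kernel) ?_
    refine jn 1162 (by decide +kernel) ?_
    refine jn 1175 (by decide +kernel) ?_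
    refine jn 1182 (by decide +kernel) ?_
    refine jn 1185 (by decide +kernel) ?_
    refine jn 1191 (by decide +kernel) ?_
    refine jn 1203 (by decide +kernel) ?_
    refine jn 1205 (by decide +kernel) ?_
    refine jn 1217 (by decide +kernel) ?_
    refine jn 1223 (by decide +kernel) ?_
    refine jn 1235 (by decide +kernel) ?_
    refine jn 1241 (by decide +kernel) ?_
    refine jn 1245 (by decide +kernel) ?_
    refine jn 1254 (by decide +kernel) ?_
    refine jn 1263 (by decide +kernel) ?_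
    refine jn 1269 (by decide +kernel) ?_
    refine jn 1270 (by decide +kernel) ?_
    refine jn 1281 (by decide +kernel) ?_
    refine jn 1287 (by decide +kernel) ?_
    refine jn 1289 (by decide +kernel) ?_
    refine jn 1294 (by decide +kernel) ?_
    refine jn 1302 (by decide +kernel) ?_
    refine jn 1314 (by decide +kernel) ?_
    refine jn 1323 (by decide +kernel) ?_
    refine jn 1362 (by decide +kernel) ?_
    refine jn 1398 (by decide +kernel) ?_
    refine jn 1441 (by decide +kernel) ?_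
    refine jn 1473 (by decide +kernel) ?_
    refine jn 1525 (by decide +kernel) ?_
    refine jn 1540 (by decide +kernel) ?_
    refine jn 1546 (by decide +kernel) ?_
    refine jn 1548 (by decide +kernel) ?_
    refine jn 1551 (by decide +kernel) ?_
    refine jn 1559 (by decide +kernel) ?_
    refine jn 1579 (by decide +kernel) ?_
    refine jn 1591 (by decide +kernel) ?_
    refine jn 1592 (by decide +kernel) ?_
    refine jn 1602 (by decide +kernel) ?_
    refine jn 1610 (by decide +kernel) ?_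
    refine jn 1616 (by decide +kernel) ?_
    refine jn 1622 (by decide +kernel) ?_
    refine jn 1639 (by decide +kernel) ?_
    refine jn 1646 (by decide +kernel) ?_
    refine jn 1651 (by decide +kernel) ?_
    refine jn 1654 (by decide +kernel) ?_
    refine jn 1666 (by decide +kernel) ?_
    refine jn 1667 (by decide +kernel) ?_
    refine jn 1672 (by decide +kernel) ?_
    refine jn 1675 (by decide +kernel) ?_
    refine jn 1686 (by decide +kernel) ?_
    refine jn 1696 (by decide +kernel) ?_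
    refine jn 1707 (by decide +kernel) ?_
    refine jn 1711 (by decide +kernel) ?_
    refine jn 1720 (by decide +kernel) ?_
    refine jn 1735 (by decide +kernel) ?_
    refine jn 1738 (by decide +kernel) ?_
    refine jn 1742 (by decide +kernel) ?_
    refine jn 1756 (by decide +kernel) ?_
    refine jn 1775 (by decide +kernel) ?_
    refine jn 1790 (by decide +kernel) ?_
    refine jn 1807 (by decide +kernel) ?_
    refine jn 1823 (by decide +kernel) ?_
    refine jn 1835 (by decide +kernel) ?_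
    refine jn 1855 (by decide +kernel) ?_
    refine jn 1892 (by decide +kernel) ?_
    refine jn 1910 (by decide +kernel) ?_
    refine jn 1928 (by decide +kernel) ?_
    refine jn 1955 (by decide +kernel) ?_
    refine jn 1975 (by decide +kernel) ?_
    refine jn 1995 (by decide +kernel) ?_
    refine jn 2028 (by decide +kernel) ?_
    refine jn 2057 (by decide +kernel) ?_
    refine jn 2078 (by decide +kernel) ?_
    refine jn 2099 (by decide +kernel) ?_
    refine jn 2118 (by decide +kernel) ?_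
    refine jn 2141 (by decide +kernel) ?_
    refine jn 2169 (by decide +kernel) ?_
    refine jn 2199 (by decide +kernel) ?_
    refine jn 2225 (by decide +kernel) ?_
    refine jn 2255 (by decide +kernel) ?_
    refine jn 2287 (by decide +kernel) ?_
    refine jn 2318 (by decide +kernel) ?_
    refine jn 2345 (by decide +kernel) ?_
    refine jn 2375 (by decide +kernel) ?_
    refine jn 2423 (by decide +kernel) ?_
    refine jn 2455 (by decide +kernel) ?_
    refine jn 2490 (by decide +kernel) ?_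
    refine jn 2537 (by decide +kernel) ?_
    refine jn 2581 (by decide +kernel) ?_
    refine jn 2624 (by decide +kernel) ?_
    refine jn 2673 (by decide +kernel) ?_
    refine jn 2737 (by decide +kernel) ?_
    refine jn 2777 (by decide +kernel) ?_
    refine jn 2821 (by decide +kernel) ?_
    refine jn 2884 (by decide +kernel) ?_
    refine jn 2932 (by decide +kernel) ?_
    refine jn 2969 (by decide +kernel) ?_
    refine jn 3026 (by decide +kernel) ?_
    refine jn 3079 (by decide +kernel) ?_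
    refine jn 3207 (by decide +kernel) ?_
    refine jn 3278 (by decide +kernel) ?_
    refine jn 3317 (by decide +kernel) ?_
    refine jn 3374 (by decide +kernel) ?_
    refine jn 3422 (by decide +kernel) ?_
    refine jn 3486 (by decide +kernel) ?_
    refine jn 3546 (by decide +kernel) ?_
    refine jn 3602 (by decide +kernel) ?_
    refine jn 3669 (by decide +kernel) ?_
    refine jn 3721 (by decide +kernel) ?_
    refine jn 3778 (by decide +kernel) ?_
    refine jn 3839 (by decide +kernel) ?_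
    refine jn 3914 (by decide +kernel) ?_
    refine jn 3986 (by decide +kernel) ?_
    refine jn 4172 (by decide +kernel) ?_
    refine jn 4348 (by decide +kernel) ?_
    refine jn 4482 (by decide +kernel) ?_
    refine jn 4580 (by decide +kernel) ?_
    refine jn 4667 (by decide +kernel) ?_
    refine jn 4893 (by decide +kernel) ?_
    refine jn 4997 (by decide +kernel) ?_
    refine jn 5088 (by decide +kernel) ?_
    refine jn 5167 (by decide +kernel) ?_
    refine jn 5223 (by decide +kernel) ?_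
    refine jn 5293 (by decide +kernel) ?_
    refine jn 5590 (by decide +kernel) ?_
    refine jn 5748 (by decide +kernel) ?_
    refine jn 5847 (by decide +kernel) ?_
    refine jn 5930 (by decide +kernel) ?_
    refine jn 6211 (by decide +kernel) ?_
    refine jn 6423 (by decide +kernel) ?_
    refine jn 6529 (by decide +kernel) ?_
    refine jn 6623 (by decide +kernel) ?_
    exact je (by decide +kernel)

end Pool.Agent.MP_2339ce_nt.NR
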