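import Pool.Agent.MP_2339ce_nt.Q2.NC.L5
import Pool.Agent.MP_2339ce_nt.Q2.NC.L6
import Pool.Agent.MP_2339ce_nt.Q2.NC.L9
import Pool.Agent.MP_2339ce_nt.Q2.CkI

/-! Block NR: runs. -/

set_option autoImplicit false
set_option maxRecDepth 100000

noncomputable section

namespace Pool.Agent.MP_2339ce_nt.NR

open Q2.Top

def T123_0 : Ph :=
  (.na 493 52 (.na 296 28 (.na 126 16 (.na 75 12 (.na 1 11 .ne (.nx 74 2097153 (.nr 73 1048577 (.nx
  65 660563 (.nx 4 209 (.nx 3 208 (.nr 2 122 (.lg 0 true 1 31 31 9 0 48048) (.l1 .sk)) (.l1 .sk))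
  (.nx 5 257 (.l1 (.ls 83 31 2036)) (.nr 64 623489 (.nx 26 52015 (.nr 20 185365 (.lg 0 false 15 101
  103 16 0 720720) (.nx 25 1292 (.lg 0 false 5 83 83 16 0 34320) .out)) (.nr 63 220437 (.nr 31 936
  (.lg 0 true 5 83 83 16 0 34320) (.nr 36 7182 (.lg 2 true 5 89 89 16 73396 240240) (.nx 51 104033
  (.lg 1 false 15 97 103 16 91763 720720) (.nr 62 185365 (.nx 56 208065 (.lg 1 true 5 103 103 16
  38588 720720) (.nr 61 65537 (.lg 2 false 5 89 97 16 9566 240240) .out)) .out)))) .out)) .out)))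
  (.nr 72 65 (.lg 0 true 7 71 71 16 0 48048) .out)) .out) .out)) (.na 76 13 .ne (.nx 125 2097153
  (.nr 124 1048577 (.nx 116 660563 (.nx 78 208 (.nr 77 163 (.lg 0 true 1 31 31 9 0 624) (.l1 .sk))
  (.nx 79 209 (.l1 .sk) (.nx 80 257 (.l1 (.ls 79 31 1723)) (.nr 115 623489 (.nr 107 185365 (.nx 89
  70783 (.lg 0 false 9 103 103 16 0 720720) (.nr 98 1203 (.lg 0 true 9 79 79 16 0 1872) (.lg 2
  false 9 101 103 16 57107 720720))) (.nx 114 1292 (.lg 0 false 7 73 73 16 0 4368) .out)) .out))))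
  (.nr 123 65 (.lg 0 true 7 61 61 11 0 4368) .out)) .out) .out))) (.na 249 19 (.na 185 17 (.nx 184
  2097153 (.nr 183 1048577 (.nr 127 7 .s1 (.nx 129 208 (.nr 128 173 (.lg 0 true 1 31 31 11 0 624)
  (.l1 .sk)) (.nx 130 209 (.l1 .sk) (.nr 180 623489 (.nx 174 660563 (.nx 141 10323 (.nr 135 262145
  (.lg 0 false 5 89 97 17 0 34320) (.nx 140 2049 (.lg 0 false 5 83 89 17 0 34320) .out)) (.nr 173
  185365 (.nx 146 32768 (.lg 0 false 5 101 107 17 0 720720) (.nr 151 1251 (.lg 0 true 5 83 83 17 0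
  3120) (.nx 156 70783 (.lg 1 false 5 101 107 17 122510 720720) (.nr 158 4682 (.lg 2 true 2 79 83
  13 54915 624) (.nr 159 9057 (.lg 2 true 1 79 79 11 14673 624) (.nx 164 104033 (.lg 1 false 5 97
  103 17 56714 720720) (.nr 172 155873 (.nx 169 208065 (.lg 1 true 5 101 107 17 32455 720720) (.nr
  171 77937 (.lg 2 false 2 89 97 13 8125 6864) .out)) .out))))))) .out)) (.nr 179 129 (.lg 0 true 5
  73 73 17 0 3120) .out)) (.nx 182 324 (.lg 0 false 2 71 71 13 0 624) .out))))) .out) .out) (.nx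
  248 2097153 (.nr 247 1048577 (.nr 186 10 .s1 (.nx 190 324 (.nx 188 208 (.nr 187 194 (.lg 0 false
  1 41 41 11 0 720720) (.l1 .sk)) (.nx 189 209 (.l1 .sk) (.l1 (.ls 89 37 3608)))) (.nr 246 623489
  (.nr 242 262145 (.nx 235 660563 (.nx 196 21633 (.lg 0 false 6 103 103 16 0 720720) (.nr 234
  155873 (.nr 202 751 (.lg 0 true 6 83 83 16 0 1872) (.nx 233 416129 (.nr 211 55110 (.lg 2 false 9
  83 83 16 57627 1872) (.nx 232 330282 (.nx 228 262145 (.nr 217 92683 (.lg 0 true 6 103 107 16 0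
  720720) (.nx 227 165142 (.nr 223 131073 (.lg 0 true 6 103 107 16 0 720720) (.nx 226 82572 (.lg 0
  true 3 103 103 16 0 720720) .out)) .out)) (.nr 231 65537 (.lg 0 true 3 101 101 16 0 720720)
  .out)) .out)) .out)) .out)) (.nr 241 129 (.lg 0 true 6 73 73 16 0 1872) .out)) (.nx 245 2049 (.lg
  0 false 3 89 89 16 0 1872) .out)) .out))) .out) .out)) (.na 295 23 (.nx 294 2097153 (.nr 293
  1048577 (.nr 250 13 .s1 (.nx 254 324 (.nx 252 208 (.nr 251 235 (.lg 0 true 1 31 31 11 0 1872)
  (.l1 .sk)) (.nx 253 209 (.l1 .sk) (.l1 (.ls 83 37 3229)))) (.nr 292 623489 (.nx 286 416129 (.nr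
  276 185365 (.nx 259 42264 (.lg 0 false 5 101 101 16 0 9360) (.nr 275 155873 (.nr 264 2200 (.lg 0
  true 5 83 83 16 0 3120) (.nx 269 82572 (.lg 1 false 5 97 101 16 79888 9360) (.nr 274 131073 (.lg
  2 false 5 97 101 16 34393 3120) .out))) .out)) (.nx 285 10323 (.nr 279 262145 (.lg 0 false 3 89
  89 16 0 1872) (.nx 284 2049 (.lg 0 false 5 83 83 16 0 3120) .out)) .out)) (.nr 291 257 (.lg 0
  true 5 73 73 16 0 3120) .out)) .out))) .out) .out) .ne))) (.na 427 33 (.na 370 31 (.na 339 29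
  (.nx 338 2097153 (.nr 337 1048577 (.nr 297 25 .s1 (.nx 333 330282 (.nx 300 209 (.nx 299 208 (.nr
  298 296 (.l1 (.ls 37 41 1548)) (.l1 .sk)) (.l1 .sk)) (.nx 301 324 (.l1 (.ls 89 41 2192)) (.nr 332
  524289 (.nr 330 370729 (.nr 308 22256 (.nx 304 104033 (.lg 0 false 3 89 89 19 0 13104) (.nr 307
  7558 (.lg 0 true 3 89 89 19 0 13104) (.lg 2 false 1 79 79 13 4672 4368))) (.nr 324 131073 (.nx
  311 52017 (.lg 0 false 3 101 103 19 0 720720) (.nr 323 92683 (.nr 316 65537 (.lg 2 true 5 79 79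
  23 27342 21840) (.nx 322 262145 (.nr 319 77937 (.lg 0 true 3 101 103 19 0 720720) (.nx 321 104033
  (.lg 0 true 2 97 101 19 0 720720) .out)) .out)) .out)) (.nx 329 20644 (.nx 327 13005 (.lg 0 false
  3 101 103 19 0 720720) (.nr 328 185365 (.lg 0 true 1 101 101 13 0 720720) .out)) .out))) (.nx 331
  1292 (.lg 0 false 1 79 79 13 0 4368) .out)) .out))) (.nr 336 257 (.lg 0 true 3 79 79 19 0 13104)
  .out))) .out) .out) (.nx 369 2097153 (.nr 368 1048577 (.nr 340 26 .s1 (.nx 343 209 (.nx 342 208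
  (.nr 341 317 (.lg 0 false 1 23 23 13 0 624) (.l1 .sk)) (.l1 .sk)) (.nx 344 324 (.l1 (.ls 79 31
  2116)) (.nr 367 524289 (.nr 361 185365 (.nx 349 52017 (.lg 0 false 5 97 101 16 0 21840) (.nr 360
  92683 (.nr 354 920 (.lg 0 true 5 79 79 16 0 3120) (.nx 359 330282 (.lg 2 false 5 89 89 16 38631
  3120) .out)) .out)) (.nx 366 13005 (.lg 0 false 5 89 89 16 0 3120) .out)) .out)))) .out) .out))
  (.na 401 32 (.nx 400 2097153 (.nr 399 1048577 (.nr 371 28 .s1 (.nx 373 208 (.nr 372 327 (.lg 0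
  false 1 23 23 13 0 4368) (.l1 .sk)) (.nx 374 209 (.l1 .sk) (.nx 375 324 (.l1 (.ls 79 29 1980))
  (.nr 398 524289 (.nx 386 52017 (.nr 380 185365 (.lg 0 false 5 97 101 16 0 21840) (.nx 385 13005
  (.lg 0 false 5 97 97 16 0 21840) .out)) (.nr 397 92683 (.nr 391 943 (.lg 0 true 5 79 79 16 0
  3120) (.nx 396 330282 (.lg 2 false 5 89 97 16 38631 21840) .out)) .out)) .out))))) .out) .out)
  (.nx 426 2097153 (.nr 425 1048577 (.nr 402 29 .s1 (.nx 406 324 (.nx 404 208 (.nr 403 337 (.lg 0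
  false 1 31 31 13 0 21840) (.l1 .sk)) (.nx 405 209 (.l1 .sk) (.l1 (.ls 83 37 1918)))) (.nr 424
  623489 (.nr 418 131073 (.nx 409 52017 (.lg 0 false 3 101 101 19 0 65520) (.nr 417 92683 (.nx 413
  330282 (.nr 411 966 (.lg 0 true 2 73 73 13 0 624) (.lg 2 false 2 97 101 13 38631 21840)) (.nr 416
  257 (.lg 0 true 3 73 73 19 0 1872) .out)) .out)) (.nx 423 20644 (.nx 421 13005 (.lg 0 false 3 97
  101 19 0 65520) (.nr 422 185365 (.lg 0 true 1 89 89 13 0 21840) .out)) .out)) .out))) .out)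
  .out))) (.na 452 46 (.na 428 44 .ne (.nx 451 2097153 (.nr 450 881745 (.nr 429 42 .s1 (.nx 432 209
  (.nx 431 208 (.nr 430 470 (.l1 (.ls 31 37 986)) (.l1 .sk)) (.l1 .sk)) (.nx 439 13005 (.nx 433 324
  (.l1 (.ls 79 41 1396)) (.nr 438 623489 (.lg 0 false 5 89 97 29 0 102960) .out)) (.nr 449 155873
  (.nx 442 32769 (.lg 0 false 3 83 89 23 0 20592) (.nr 448 65537 (.nr 445 470 (.lg 0 true 3 73 73
  23 0 20592) (.nx 447 208065 (.lg 2 false 2 89 89 23 46040 6864) .out)) .out)) .out)))) .out)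
  .out)) (.na 453 47 .ne (.na 474 49 (.nx 473 2097153 (.nr 472 881745 (.nr 454 45 .s1 (.nx 463
  26009 (.nx 455 324 (.l1 (.ls 79 29 2236)) (.nr 462 741457 (.lg 0 false 7 89 97 16 0 21840) .out))
  (.nr 471 65537 (.nr 468 501 (.lg 0 true 5 73 73 16 0 3120) (.nx 470 208065 (.lg 2 true 2 89 89 16
  54682 3120) .out)) .out))) .out) .out) (.nx 492 2097153 (.nr 491 881745 (.nr 475 47 .s1 (.nx 482
  26009 (.nx 476 324 (.l1 (.ls 73 31 2145)) (.nr 481 741457 (.lg 0 false 5 97 97 17 0 240240)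
  .out)) (.nr 490 65537 (.nr 487 531 (.lg 0 true 5 71 71 17 0 21840) (.nx 489 208065 (.lg 2 true 2
  83 83 16 54682 4368) .out)) .out))) .out) .out)))))) (.na 628 71 (.na 573 61 (.na 532 56 (.na 513
  53 (.nx 512 2097153 (.nr 511 881745 (.nr 494 50 .s1 (.nx 495 324 (.l1 (.ls 73 41 2021)) (.nr 510
  741457 (.nx 501 26009 (.lg 0 false 6 89 97 23 0 65520) (.nr 509 65537 (.nr 506 541 (.lg 0 true 5
  71 71 23 0 3120) (.nx 508 208065 (.lg 2 true 2 83 83 19 54682 21840) .out)) .out)) .out))) .out)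
  .out) (.nx 531 2097153 (.nr 530 881745 (.nr 514 52 .s1 (.nx 515 324 (.l1 (.ls 79 29 1983)) (.nr
  529 741457 (.nx 525 208065 (.nx 521 32769 (.lg 0 false 6 101 101 16 0 65520) (.nr 524 46342 (.lg
  0 false 3 89 89 16 0 1872) .out)) (.nr 528 257 (.lg 0 true 3 71 71 16 0 1872) .out)) .out)))
  .out) .out)) (.na 554 59 (.nx 553 2097153 (.nr 552 881745 (.nr 533 55 .s1 (.nx 536 209 (.nx 535
  208 (.nr 534 603 (.l1 (.ls 29 37 775)) (.l1 .sk)) (.l1 .sk)) (.nx 546 32769 (.nx 543 16385 (.nx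
  537 324 (.l1 (.ls 73 37 1097)) (.nr 542 741457 (.lg 0 false 5 83 97 29 0 21840) .out)) (.nr 545
  155873 (.lg 0 false 2 83 83 23 0 4368) .out)) (.nr 551 46342 (.nr 549 603 (.lg 0 true 3 73 73 23
  0 13104) (.nx 550 208065 (.lg 2 true 1 83 83 19 35886 4368) .out)) .out)))) .out) .out) (.nx 572
  2097153 (.nr 571 881745 (.nr 555 58 .s1 (.nx 556 324 (.l1 (.ls 73 29 1782)) (.nr 570 741457 (.nx
  561 32769 (.lg 0 false 5 97 97 16 0 21840) (.nr 569 46342 (.nr 566 623 (.lg 0 true 5 71 71 16 0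
  3120) (.nx 568 208065 (.lg 2 false 2 79 79 16 34734 624) .out)) .out)) .out))) .out) .out))) (.na
  593 67 (.na 592 64 (.nx 591 2097153 (.nr 590 881745 (.nr 574 60 .s1 (.nx 575 324 (.l1 (.ls 73 29
  1723)) (.nr 589 741457 (.nx 580 32769 (.lg 0 false 5 89 97 16 0 3120) (.nr 588 46342 (.nr 585 654
  (.lg 0 true 5 71 71 16 0 3120) (.nx 587 208065 (.lg 2 false 2 79 79 16 33087 624) .out)) .out))
  .out))) .out) .out) .ne) (.na 609 68 (.nx 608 2097153 (.nr 607 2097153 (.nr 594 66 .s1 (.nx 603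
  131073 (.nx 595 324 (.l1 (.ls 83 29 1569)) (.nr 602 1048577 (.nr 598 65537 (.lg 0 true 3 97 97 16
  0 65520) (.nx 601 20644 (.lg 0 false 3 101 101 16 0 65520) .out)) .out)) (.nr 606 513 (.lg 0 true
  3 71 71 16 0 1872) .out))) .out) .out) (.nx 627 2097153 (.nr 626 2097153 (.nr 610 67 .s1 (.nx 614
  324 (.nx 612 208 (.nr 611 725 (.l1 (.ls 31 37 639)) (.l1 .sk)) (.nx 613 209 (.l1 .sk) (.l1 (.ls
  83 37 904)))) (.nr 625 1048577 (.nx 617 20644 (.lg 0 false 3 101 101 29 0 9360) (.nr 624 65537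
  (.nx 618 32769 (.lg 0 true 1 83 83 13 0 3120) (.nr 623 32769 (.nr 621 513 (.lg 0 true 3 73 73 29
  0 1872) (.nx 622 131073 (.lg 2 true 1 83 83 13 26573 3120) .out)) .out)) .out)) .out))) .out)
  .out)))) (.na 702 88 (.na 667 77 (.na 646 76 (.nx 645 2097153 (.nr 644 2097153 (.nr 629 70 .s1
  (.nx 630 324 (.l1 (.ls 79 29 1481)) (.nr 643 1048577 (.nx 639 131073 (.nx 635 20644 (.lg 0 false
  5 89 89 16 0 3120) (.nr 638 65537 (.lg 0 true 3 89 89 16 0 1872) .out)) (.nr 642 513 (.lg 0 true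
  3 67 67 16 0 1872) .out)) .out))) .out) .out) (.nx 666 2097153 (.nr 665 2097153 (.nr 647 75 .s1
  (.nx 650 209 (.nx 649 208 (.nr 648 787 (.l1 (.ls 17 37 572)) (.l1 .sk)) (.l1 .sk)) (.nx 651 324
  (.l1 (.ls 83 37 809)) (.nr 664 1048577 (.nx 656 20644 (.lg 0 false 5 89 97 31 0 21840) (.nr 663
  65537 (.nx 657 32769 (.lg 0 false 1 79 79 17 0 624) (.nr 662 32769 (.nr 660 513 (.lg 0 true 3 73
  73 29 0 1872) (.nx 661 131073 (.lg 2 true 1 79 79 17 26573 624) .out)) .out)) .out)) .out))))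
  .out) .out)) (.na 686 83 (.nx 685 2097153 (.nr 684 2097153 (.nr 668 76 .s1 (.nx 672 324 (.nx 670
  208 (.nr 669 848 (.l1 (.ls 37 29 564)) (.l1 .sk)) (.nx 671 209 (.l1 .sk) (.l1 (.ls 89 31 799))))
  (.nr 683 1048577 (.nx 677 32769 (.nx 675 20644 (.lg 0 false 3 101 101 23 0 720720) (.nr 676 65537
  (.lg 0 true 1 83 83 17 0 240240) .out)) (.nr 682 32769 (.nr 680 513 (.lg 0 true 3 73 73 23 0
  144144) (.nx 681 131073 (.lg 2 true 1 83 83 17 26573 48048) .out)) .out)) .out))) .out) .out)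
  (.nx 701 2097153 (.nr 700 2097153 (.nr 687 82 .s1 (.nx 688 324 (.l1 (.ls 79 29 1267)) (.nr 699
  1048577 (.nr 695 65537 (.nx 691 131073 (.lg 0 true 3 89 89 16 0 1872) (.nr 694 513 (.lg 0 true 3
  67 67 16 0 1872) .out)) (.nx 698 20644 (.lg 0 false 3 97 97 16 0 1872) .out)) .out))) .out)
  .out))) (.na 733 101 (.na 717 91 (.nx 716 2097153 (.nr 715 2097153 (.nr 703 87 .s1 (.nx 704 324
  (.l1 (.ls 83 41 1195)) (.nr 714 1048577 (.nx 707 20644 (.lg 0 false 3 97 101 29 0 720720) (.nr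
  713 65537 (.nx 708 32769 (.lg 0 true 1 83 83 23 0 240240) (.nr 712 32769 (.nr 710 513 (.lg 0 true
  2 73 73 29 0 6864) (.nx 711 131073 (.lg 2 true 1 79 79 23 26573 6864) .out)) .out)) .out))
  .out))) .out) .out) (.nx 732 2097153 (.nr 731 2097153 (.nr 718 90 .s1 (.nx 719 324 (.l1 (.ls 73
  31 1156)) (.nr 730 1048577 (.nx 724 32769 (.lg 0 false 5 89 89 23 0 21840) (.nr 729 32769 (.nr
  727 513 (.lg 0 true 3 61 61 19 0 13104) (.nx 728 131073 (.lg 2 true 1 73 73 17 26573 4368) .out))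
  .out)) .out))) .out) .out)) (.na 748 104 (.nx 747 2097153 (.nr 746 2097153 (.nr 734 100 .s1 (.nx
  735 324 (.l1 (.ls 73 23 1042)) (.nr 745 1048577 (.nx 740 32769 (.lg 0 false 5 83 89 17 0 21840)
  (.nr 744 32769 (.nr 742 513 (.lg 0 true 2 61 61 16 0 624) (.nx 743 131073 (.lg 2 true 1 71 71 16
  26573 4368) .out)) .out)) .out))) .out) .out) (.na 763 112 (.nx 762 2097153 (.nr 761 2097153 (.nr
  749 103 .s1 (.nx 756 32769 (.nx 750 324 (.l1 (.ls 73 37 1012)) (.nr 755 1048577 (.lg 0 false 5 83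
  83 29 0 3120) .out)) (.nr 760 32769 (.nr 758 513 (.lg 0 true 2 59 59 23 0 624) (.nx 759 131073
  (.lg 2 true 1 71 71 23 26573 624) .out)) .out))) .out) .out) (.nx 779 2097153 (.nr 778 2097153
  (.nr 764 112 .s1 (.nx 766 208 (.nr 765 1154 (.l1 (.ls 37 31 389)) (.l1 .sk)) (.nx 767 209 (.l1
  .sk) (.nx 772 20644 (.nx 768 324 (.l1 (.ls 89 31 550)) (.nr 771 1048577 (.lg 0 false 3 97 103 31
  0 720720) .out)) (.nr 777 65537 (.nr 775 32769 (.nx 773 131073 (.lg 0 true 1 89 97 29 0 21840)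
  (.nr 774 513 (.lg 0 true 1 73 73 29 0 4368) .out)) (.nx 776 32769 (.lg 0 false 1 79 79 29 0
  21840) .out)) .out))))) .out) .out)))))))

def T123_1 : Ph :=
  (.na 739 12 (.na 553 6 (.na 329 3 (.na 203 2 (.nx 202 1321124 (.nr 201 311745 (.nx 71 16385 (.nx
  2 124 (.nr 1 12 (.lg 0 true 1 41 41 5 0 744) (.l1 .sk)) (.nx 3 125 (.l1 .sk) (.nr 42 38969 (.lg 0
  false 39 97 101 16 0 1015560) (.nx 70 6503 (.nx 55 205 (.lg 0 false 13 79 79 9 0 9672) (.nx 56
  1290 .out (.nr 69 46342 (.lg 0 false 13 89 97 9 0 338520) .out))) .out)))) (.nr 200 27556 (.nr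
  186 13779 (.nx 137 330282 (.nr 123 1724 (.nr 110 432 (.lg 0 true 39 83 83 16 0 29016) (.lg 2 true
  13 89 97 9 47402 338520)) (.nx 136 165142 (.lg 2 false 13 89 97 9 6524 338520) .out)) (.nr 185
  109 (.nx 158 660563 (.lg 0 true 21 79 83 11 0 15624) (.nr 184 13 (.lg 0 true 26 73 73 9 0 19344)
  .out)) .out)) (.nx 199 82572 (.lg 2 false 13 103 107 9 12989 7447440) .out)) .out)) .out) .out)
  (.nx 328 3329023 (.nr 327 623489 (.nx 205 124 (.nr 204 21 (.lg 0 false 1 41 41 5 0 7440) (.l1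
  .sk)) (.nx 206 125 (.l1 .sk) (.nr 313 77937 (.nr 309 65537 (.nx 227 20644 (.lg 0 false 21 101 103
  11 0 156240) (.nr 308 46342 (.nx 289 1321124 (.nr 260 257 (.lg 0 true 33 89 89 13 0 245520) (.nx
  288 165142 (.nr 269 1100 (.lg 2 true 9 83 83 9 39840 22320) (.nr 278 27556 (.lg 2 false 9 97 101
  9 10309 22320) (.nx 287 65537 (.lg 2 false 9 103 107 9 17305 22342320) .out))) .out)) (.nr 307 9
  (.lg 0 true 18 71 71 9 0 4464) .out)) .out)) (.nx 312 1292 (.lg 0 true 3 83 83 7 0 22320) .out))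
  (.nx 326 205 (.lg 0 false 13 79 79 9 0 19344) .out)))) .out) .out)) (.na 330 4 .ne (.na 457 5
  (.nx 456 10568985 (.nr 455 1246976 (.nx 332 124 (.nr 331 38 (.lg 0 true 1 37 37 9 0 1488) (.l1
  .sk)) (.nx 333 125 (.l1 .sk) (.nr 443 155873 (.nr 437 65537 (.nx 344 20642 (.lg 0 false 11 101
  103 13 0 1718640) (.nx 383 330282 (.nr 355 694 (.lg 0 true 11 89 89 13 0 16368) (.nx 366 41287
  (.lg 1 false 11 101 107 13 24456 22342320) (.nr 382 55110 (.nr 371 2635 (.lg 2 true 5 83 89 11
  29507 52080) (.lg 2 false 11 101 107 13 10286 22342320)) .out))) (.nr 436 183 (.nx 394 1321124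
  (.lg 0 true 11 83 83 13 0 16368) (.nr 435 21 (.nx 405 2642247 (.lg 0 true 11 73 73 11 0 16368)
  (.lg 0 true 30 83 83 11 0 22320)) .out)) .out))) (.nx 442 1292 (.lg 0 false 5 89 97 11 0 156240)
  .out)) (.nx 454 205 (.lg 0 false 11 79 83 13 0 16368) .out)))) .out) .out) (.nx 552 10568985 (.nr
  551 1482912 (.nx 460 125 (.nx 459 124 (.nr 458 47 (.lg 0 true 1 23 23 9 0 3720) (.l1 .sk)) (.l1
  .sk)) (.nr 539 65537 (.nx 512 1321124 (.nx 473 23170 (.lg 0 false 13 89 97 16 0 145080) (.nx 498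
  262145 (.nr 483 3130 (.nr 480 824 (.lg 0 true 7 79 79 16 0 26040) (.lg 2 true 3 83 83 11 19725
  11160)) (.nx 490 52017 (.lg 1 true 7 97 101 16 21788 156240) (.nr 497 38969 (.lg 2 false 7 83 89
  16 5778 26040) .out))) (.nr 511 217 (.lg 0 true 13 79 79 16 0 48360) .out))) (.nr 538 24 (.lg 0
  true 26 79 79 16 0 96720) .out)) (.nx 550 205 (.lg 0 false 11 73 73 16 0 40920) .out))) .out)
  .out)))) (.na 622 8 (.na 554 7 .ne (.nx 621 10568985 (.nr 620 262145 (.nx 557 125 (.nx 556 124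
  (.nr 555 63 (.lg 0 true 1 23 23 9 0 26040) (.l1 .sk)) (.l1 .sk)) (.nr 616 65537 (.nx 591 1321124
  (.nx 568 32769 (.lg 0 false 11 89 97 16 0 286440) (.nr 590 55110 (.nr 579 596 (.lg 0 true 11 83
  83 16 0 57288) (.nx 589 262145 (.nr 580 1163 (.lg 2 false 1 79 79 9 27271 26040) (.lg 2 false 9
  89 97 16 13976 78120)) .out)) .out)) (.nr 615 47 (.lg 0 true 24 79 79 16 0 31248) .out)) (.nx 619
  408 (.lg 0 false 3 73 73 11 0 15624) .out))) .out) .out)) (.na 697 9 (.nx 696 10568985 (.nr 695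
  623489 (.nx 668 1321124 (.nx 644 15060 (.nx 624 124 (.nr 623 71 (.lg 0 false 1 23 23 9 0 1488)
  (.l1 .sk)) (.nx 625 125 (.l1 .sk) (.nr 636 77937 (.lg 0 false 11 89 97 13 0 572880) (.nx 643 814
  (.lg 0 false 7 83 83 13 0 52080) .out)))) (.nr 667 65537 (.nr 655 364 (.lg 0 true 11 79 79 13 0
  16368) (.nx 666 208065 (.lg 2 false 11 97 101 13 35440 572880) .out)) .out)) (.nr 694 55 (.lg 0
  true 26 79 79 13 0 19344) .out)) .out) .out) (.na 698 10 .ne (.nx 738 1321124 (.nr 737 623489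
  (.nx 701 125 (.nx 700 124 (.nr 699 95 (.lg 0 false 1 23 23 11 0 7440) (.l1 .sk)) (.l1 .sk)) (.nx
  717 26009 (.nr 710 77937 (.lg 0 false 9 89 97 17 0 156240) (.nx 716 814 (.lg 0 false 6 89 89 13 0
  156240) .out)) (.nr 736 46342 (.nr 731 766 (.nx 723 330282 (.lg 0 true 6 83 83 13 0 156240) (.nr
  730 65 (.lg 0 true 7 71 71 13 0 52080) .out)) (.nx 735 165142 (.lg 2 false 4 89 97 13 13736
  52080) .out)) .out))) .out) .out))))) (.na 839 20 (.na 776 16 (.na 740 14 .ne (.nx 775 1321124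
  (.nr 774 623489 (.nr 741 9 .s1 (.nx 744 125 (.nx 743 124 (.nr 742 126 (.lg 0 true 1 23 23 11 0
  156240) (.l1 .sk)) (.l1 .sk)) (.nx 756 26009 (.nx 745 324 (.l1 (.ls 83 47 6385)) (.nr 755 220437
  (.nr 751 92683 (.lg 0 false 6 97 97 13 0 156240) (.nx 754 814 (.lg 0 false 3 73 73 13 0 31248)
  .out)) .out)) (.nr 773 46342 (.nx 767 330282 (.nr 761 766 (.lg 0 true 5 79 79 13 0 52080) (.nx
  766 165142 (.lg 2 false 5 83 89 13 13736 52080) .out)) (.nr 772 65 (.lg 0 true 5 67 67 13 0
  52080) .out)) .out)))) .out) .out)) (.na 805 17 (.nx 804 1321124 (.nr 803 1048577 (.nr 777 12 .s1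
  (.nx 779 124 (.nr 778 134 (.lg 0 true 1 29 29 11 0 7440) (.l1 .sk)) (.nx 780 125 (.l1 .sk) (.nx
  793 26009 (.nx 781 205 (.l1 (.ls 83 37 1653)) (.nr 792 623489 (.nx 782 324 (.l1 (.ls 83 41 3937))
  (.nr 791 220437 (.nr 789 131073 (.nr 785 65537 (.lg 0 false 3 97 97 13 0 22320) (.nx 788 8193
  (.lg 0 false 3 89 97 13 0 22320) .out)) (.nx 790 814 (.lg 0 false 1 73 73 11 0 1488) .out))
  .out)) .out)) (.nr 802 46342 (.nx 798 165142 (.nr 796 766 (.lg 0 true 3 73 73 13 0 4464) (.lg 2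
  false 2 89 89 13 13736 7440)) (.nr 801 183 (.lg 0 true 3 73 73 13 0 4464) .out)) .out))))) .out)
  .out) (.na 806 19 .ne (.nx 838 1321124 (.nr 837 1048577 (.nr 807 16 .s1 (.nx 811 205 (.nx 809 124
  (.nr 808 158 (.lg 0 false 1 19 19 11 0 3720) (.l1 .sk)) (.nx 810 125 (.l1 .sk) (.l1 (.ls 79 31
  1392)))) (.nr 836 623489 (.nx 812 324 (.l1 (.ls 79 37 3316)) (.nr 835 220437 (.nx 821 16385 (.nr
  819 131073 (.lg 0 false 7 83 89 16 0 26040) (.nx 820 814 (.lg 0 true 1 71 71 11 0 744) .out))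
  (.nr 834 46342 (.nr 828 498 (.lg 0 true 7 73 73 16 0 5208) (.nx 833 165142 (.lg 2 false 5 79 83
  16 21803 3720) .out)) .out)) .out)) .out))) .out) .out)))) (.na 867 25 (.na 866 23 (.nx 865
  1321124 (.nr 864 1048577 (.nr 840 17 .s1 (.nx 846 324 (.nx 844 205 (.nx 842 124 (.nr 841 182 (.lg
  0 false 1 29 29 13 0 7440) (.l1 .sk)) (.nx 843 125 (.l1 .sk) (.l1 (.ls 89 41 1323)))) (.nr 845
  623489 (.l1 (.ls 83 43 3150)) .out)) (.nr 863 220437 (.nr 861 131073 (.nx 857 165142 (.nx 853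
  26009 (.nr 849 65537 (.lg 0 false 3 97 97 19 0 22320) (.nx 852 8193 (.lg 0 false 3 89 97 19 0
  156240) .out)) (.nr 856 32769 (.nr 855 1360 (.lg 0 true 2 79 79 17 0 7440) (.lg 2 true 1 89 89 13
  9724 7440)) .out)) (.nr 860 183 (.lg 0 true 3 73 73 19 0 22320) .out)) (.nx 862 814 (.lg 0 false
  1 73 73 13 0 7440) .out)) .out))) .out) .out) .ne) (.na 887 28 (.nx 886 1321124 (.nr 885 1048577
  (.nr 868 23 .s1 (.nx 870 124 (.nr 869 221 (.l1 (.ls 17 23 618)) (.l1 .sk)) (.nx 871 125 (.l1 .sk)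
  (.nx 872 205 (.l1 (.ls 73 29 1059)) (.nr 884 185365 (.nx 875 16385 (.lg 0 false 3 89 89 16 0
  78120) (.nr 883 38969 (.nr 880 513 (.lg 0 true 5 71 71 16 0 3720) (.nx 882 82572 (.lg 2 true 2 83
  83 16 18344 52080) .out)) .out)) .out))))) .out) .out) (.na 904 31 (.nx 903 1321124 (.nr 902
  1048577 (.nr 888 26 .s1 (.nx 892 205 (.nx 890 124 (.nr 889 245 (.l1 (.ls 29 31 552)) (.l1 .sk))
  (.nx 891 125 (.l1 .sk) (.l1 (.ls 83 37 945)))) (.nr 901 185365 (.nx 895 16385 (.lg 0 false 3 97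
  101 19 0 156240) (.nr 900 38969 (.nr 898 513 (.lg 0 true 3 79 79 19 0 31248) (.nx 899 82572 (.lg
  2 true 1 97 97 13 18344 52080) .out)) .out)) .out))) .out) .out) (.nx 920 1321124 (.nr 919
  1048577 (.nr 905 29 .s1 (.nx 910 16385 (.nx 906 205 (.l1 (.ls 71 29 1358)) (.nr 909 185365 (.lg 0
  true 3 83 83 16 0 78120) .out)) (.nr 918 38969 (.nr 915 513 (.lg 0 true 5 61 61 16 0 3720) (.nx
  917 82572 (.lg 2 true 2 79 79 13 18344 52080) .out)) .out))) .out) .out))))))

def T123_2 : Ph :=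
  (.na 715 137 (.na 527 51 (.na 354 19 (.na 284 9 (.na 202 6 (.na 127 2 (.nx 126 660563 (.nr 125
  1482912 (.nx 3 34 (.nx 2 33 (.nr 1 6 (.lg 0 true 1 23 23 5 0 264) (.l1 .sk)) (.l1 .sk)) (.nr 78
  38969 (.nx 23 1898 (.lg 0 false 20 83 83 11 0 2640) (.nr 77 16385 (.nx 56 104033 (.nr 43 331 (.lg
  0 true 20 73 73 11 0 2640) (.lg 2 false 13 97 97 9 5186 72072)) (.nr 76 78 (.lg 0 true 20 79 79
  11 0 2640) .out)) .out)) (.nx 124 205 (.nr 88 110219 (.lg 0 false 10 79 79 9 0 2640) (.nx 123 103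
  (.lg 0 false 35 79 83 13 0 9240) .out)) .out))) .out) .out) (.na 201 3 (.nx 200 660563 (.nr 199
  623489 (.nx 130 34 (.nx 129 33 (.nr 128 11 (.lg 0 true 1 23 23 5 0 528) (.l1 .sk)) (.l1 .sk))
  (.nr 177 27556 (.nx 143 4876 (.lg 0 false 13 83 83 9 0 6864) (.nx 163 104033 (.nr 156 613 (.lg 0
  true 13 79 79 9 0 6864) (.lg 2 false 7 97 97 9 3082 55440)) (.nr 176 154 (.lg 0 true 13 79 79 9 0
  6864) .out))) (.nx 198 647 (.nr 184 131073 (.lg 0 false 7 83 83 9 0 3696) (.nx 197 103 (.lg 0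
  false 13 79 79 9 0 6864) .out)) .out))) .out) .out) .ne)) (.na 241 7 (.nx 240 660563 (.nr 239
  220437 (.nr 203 2 .s1 (.nx 217 6503 (.nx 205 33 (.nr 204 29 (.lg 0 false 1 0 16 7 0 11088) (.l1
  .sk)) (.nx 206 34 (.l1 .sk) (.nr 211 77937 (.lg 0 true 5 89 89 11 0 7920) (.nx 216 647 (.lg 0
  false 5 73 73 11 0 7920) .out)))) (.nr 238 27556 (.nr 232 704 (.lg 0 true 15 79 79 13 0 7920)
  (.nx 237 330282 (.lg 2 true 5 83 83 11 7741 7920) .out)) .out))) .out) .out) (.na 283 8 (.nx 282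
  660563 (.nr 281 262145 (.nr 242 5 .s1 (.nx 276 330282 (.nx 244 33 (.nr 243 33 (.l1 (.ls 19 17
  158)) (.l1 .sk)) (.nx 245 34 (.l1 .sk) (.nx 250 647 (.lg 0 false 5 79 79 16 0 9240) (.nr 275
  92683 (.nr 262 2236 (.nr 260 584 (.nx 252 6503 (.nr 251 152 (.lg 0 false 1 61 61 9 0 27720) (.lg
  2 false 1 53 53 9 706 1848)) (.lg 0 true 8 79 79 16 0 3696)) (.lg 2 false 2 73 73 11 9332 3696))
  (.nx 266 6503 (.lg 0 false 4 97 101 13 0 55440) (.nr 274 32769 (.lg 2 true 8 67 67 16 2747 3696)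
  .out))) .out)))) (.nr 280 78 (.lg 0 true 4 71 71 13 0 3696) .out))) .out) .out) .ne))) (.na 310
  14 (.na 285 10 (.lg 0 false 1 0 0 7 0 24) (.na 286 11 .ne (.nx 309 660563 (.nr 308 623489 (.nr
  287 10 .s1 (.nx 288 103 (.l1 (.ls 73 29 967)) (.nr 307 131073 (.nx 293 6503 (.lg 0 true 5 83 83 9
  0 27720) (.nr 306 46342 (.nr 300 154 (.lg 0 true 7 61 61 16 0 1848) (.nx 305 41287 (.lg 1 true 5
  71 71 9 4424 3960) .out)) .out)) .out))) .out) .out))) (.na 333 17 (.na 332 16 (.nx 331 660563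
  (.nr 330 623489 (.nr 311 13 .s1 (.nx 321 6503 (.nx 313 33 (.nr 312 66 (.l1 (.ls 17 19 80)) (.l1
  .sk)) (.nx 314 34 (.l1 .sk) (.nx 315 103 (.l1 (.ls 79 37 678)) (.nr 320 131073 (.lg 0 false 5 83
  83 13 0 18480) .out)))) (.nr 329 46342 (.nr 326 154 (.lg 0 true 5 67 67 13 0 18480) (.nx 328
  41287 (.lg 1 false 2 79 79 13 4424 11088) .out)) .out))) .out) .out) .ne) (.na 353 18 (.nx 352
  660563 (.nr 351 623489 (.nr 334 17 .s1 (.nx 340 6503 (.nx 335 103 (.l1 (.ls 83 23 627)) (.nr 339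
  131073 (.lg 0 true 4 83 83 16 0 528) .out)) (.nr 350 46342 (.nr 344 257 (.lg 0 true 4 73 73 16 0
  528) (.nx 349 41287 (.lg 1 false 5 67 67 16 3884 3960) .out)) .out))) .out) .out) (.lg 0 false 1
  0 0 7 0 24))))) (.na 449 38 (.na 407 23 (.na 372 21 (.nx 371 660563 (.nr 370 623489 (.nr 355 19
  .s1 (.nx 356 103 (.l1 (.ls 73 23 561)) (.nr 369 131073 (.nx 361 6503 (.lg 0 false 5 79 79 16 0
  1320) (.nr 368 46342 (.nr 366 257 (.lg 0 true 5 67 67 16 0 1320) (.nx 367 41287 (.lg 1 false 1 79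
  79 11 3884 792) .out)) .out)) .out))) .out) .out) (.na 390 22 (.nx 389 660563 (.nr 388 623489
  (.nr 373 21 .s1 (.nx 374 103 (.l1 (.ls 73 29 508)) (.nr 387 131073 (.nx 379 6503 (.lg 0 false 5
  79 79 17 0 27720) (.nr 386 46342 (.nr 384 257 (.lg 0 true 5 67 67 17 0 27720) (.nx 385 41287 (.lg
  1 false 1 73 73 16 3884 5544) .out)) .out)) .out))) .out) .out) (.nx 406 660563 (.nr 405 623489
  (.nr 391 22 .s1 (.nx 396 6503 (.nx 392 103 (.l1 (.ls 73 31 485)) (.nr 395 131073 (.lg 0 true 3 79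
  79 13 0 1584) .out)) (.nr 404 46342 (.nr 401 257 (.lg 0 true 5 61 61 13 0 2640) (.nx 403 41287
  (.lg 1 false 2 71 71 9 3884 1584) .out)) .out))) .out) .out))) (.na 425 33 (.na 424 32 (.nx 423
  660563 (.nr 422 131073 (.nr 408 23 .s1 (.nx 415 6503 (.nx 410 33 (.nr 409 131 (.l1 (.ls 17 16
  50)) (.l1 .sk)) (.nx 411 34 (.l1 .sk) (.lg 0 false 4 79 79 16 0 528))) (.nr 421 32769 (.nr 419
  257 (.lg 0 true 4 67 67 16 0 528) (.nx 420 41287 (.lg 1 false 1 79 79 11 2747 3960) .out))
  .out))) .out) .out) .ne) (.na 438 34 (.nx 437 82572 (.nr 436 262145 (.nr 426 33 .s1 (.nx 429 34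
  (.nx 428 33 (.nr 427 140 (.l1 (.ls 16 17 35)) (.l1 .sk)) (.l1 .sk)) (.nr 433 32769 (.lg 0 false 4
  79 79 16 0 7920) (.nx 435 2582 (.lg 0 true 2 73 73 16 0 7920) .out)))) .out) .out) (.nx 448 82572
  (.nr 447 262145 (.nr 439 34 .s1 (.nx 443 2582 (.nx 441 33 (.nr 440 156 (.l1 (.ls 16 13 35)) (.l1
  .sk)) (.nx 442 34 (.l1 .sk) (.lg 0 true 1 83 83 13 0 528))) (.nr 446 32769 (.nr 444 154 (.lg 0
  false 1 59 59 13 0 528) (.nx 445 41287 (.lg 1 false 1 79 79 13 6919 1584) .out)) .out))) .out)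
  .out)))) (.na 483 43 (.na 461 41 (.nx 460 82572 (.nr 459 262145 (.nr 450 38 .s1 (.nx 453 34 (.nx
  452 33 (.nr 451 168 (.l1 (.ls 17 13 31)) (.l1 .sk)) (.l1 .sk)) (.nx 455 2582 (.lg 0 true 2 83 83
  13 0 55440) (.nr 458 32769 (.nr 456 154 (.lg 0 false 1 61 61 13 0 528) (.nx 457 41287 (.lg 1
  false 1 83 83 13 6919 55440) .out)) .out)))) .out) .out) (.na 472 42 (.nx 471 82572 (.nr 470
  262145 (.nr 462 41 .s1 (.nx 466 2582 (.nx 464 33 (.nr 463 172 (.l1 (.ls 16 16 29)) (.l1 .sk))
  (.nx 465 34 (.l1 .sk) (.lg 0 true 1 79 79 16 0 264))) (.nr 469 32769 (.nr 467 154 (.lg 0 false 1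
  53 53 16 0 264) (.nx 468 41287 (.lg 1 false 1 73 73 16 6919 792) .out)) .out))) .out) .out) (.nx
  482 82572 (.nr 481 262145 (.nr 473 42 .s1 (.nx 475 33 (.nr 474 176 (.l1 (.ls 19 23 28)) (.l1
  .sk)) (.nx 476 34 (.l1 .sk) (.nx 477 2582 (.lg 0 true 1 83 83 19 0 55440) (.nr 480 32769 (.nr 478
  154 (.lg 0 false 1 59 59 19 0 55440) (.nx 479 41287 (.lg 1 false 1 79 79 19 6919 55440) .out))
  .out))))) .out) .out))) (.na 505 47 (.na 494 46 (.nx 493 82572 (.nr 492 262145 (.nr 484 43 .s1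
  (.nx 487 34 (.nx 486 33 (.nr 485 189 (.l1 (.ls 16 16 28)) (.l1 .sk)) (.l1 .sk)) (.nx 488 2582
  (.lg 0 true 1 83 83 16 0 264) (.nr 491 32769 (.nr 489 154 (.lg 0 false 1 53 53 16 0 264) (.nx 490
  41287 (.lg 1 false 1 79 79 16 6919 27720) .out)) .out)))) .out) .out) (.nx 504 82572 (.nr 503
  262145 (.nr 495 46 .s1 (.nx 497 33 (.nr 496 193 (.l1 (.ls 16 13 26)) (.l1 .sk)) (.nx 498 34 (.l1
  .sk) (.nx 499 2582 (.lg 0 true 1 83 83 13 0 11088) (.nr 502 32769 (.nr 500 154 (.lg 0 false 1 53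
  53 13 0 528) (.nx 501 41287 (.lg 1 false 1 79 79 13 6919 11088) .out)) .out))))) .out) .out))
  (.na 516 49 (.nx 515 82572 (.nr 514 262145 (.nr 506 47 .s1 (.nx 508 33 (.nr 507 201 (.l1 (.ls 16
  16 26)) (.l1 .sk)) (.nx 509 34 (.l1 .sk) (.nx 510 2582 (.lg 0 true 1 79 79 16 0 264) (.nr 513
  32769 (.nr 511 154 (.lg 0 true 1 53 53 16 0 3960) (.nx 512 41287 (.lg 1 false 1 73 73 16 6919
  3960) .out)) .out))))) .out) .out) (.nx 526 82572 (.nr 525 262145 (.nr 517 49 .s1 (.nx 519 33
  (.nr 518 209 (.l1 (.ls 16 16 25)) (.l1 .sk)) (.nx 520 34 (.l1 .sk) (.nx 521 2582 (.lg 0 true 1 73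
  73 16 0 1848) (.nr 524 32769 (.nr 522 154 (.lg 0 true 1 43 43 16 0 1848) (.nx 523 41287 (.lg 1
  false 1 71 71 16 6919 5544) .out)) .out))))) .out) .out)))))) (.na 622 87 (.na 571 71 (.na 549 58
  (.na 538 54 (.nx 537 82572 (.nr 536 262145 (.nr 528 51 .s1 (.nx 531 34 (.nx 530 33 (.nr 529 221
  (.l1 (.ls 16 16 24)) (.l1 .sk)) (.l1 .sk)) (.nx 532 2582 (.lg 0 true 1 73 73 16 0 792) (.nr 535
  32769 (.nr 533 154 (.lg 0 false 1 47 47 16 0 792) (.nx 534 41287 (.lg 1 false 1 71 71 16 6919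
  792) .out)) .out)))) .out) .out) (.na 539 57 (.lg 0 false 1 0 0 16 0 24) (.nx 548 82572 (.nr 547
  262145 (.nr 540 57 .s1 (.nx 543 34 (.nx 542 33 (.nr 541 238 (.l1 (.ls 16 16 22)) (.l1 .sk)) (.l1
  .sk)) (.nr 545 32769 (.lg 0 false 2 83 83 16 0 1584) (.nx 546 2582 (.lg 0 true 1 79 79 16 0 792)
  .out)))) .out) .out))) (.na 560 64 (.na 559 63 (.nx 558 82572 (.nr 557 262145 (.nr 550 58 .s1
  (.nx 552 33 (.nr 551 258 (.l1 (.ls 17 13 21)) (.l1 .sk)) (.nx 553 34 (.l1 .sk) (.nr 555 32769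
  (.lg 0 false 2 83 83 13 0 528) (.nx 556 2582 (.lg 0 true 1 79 79 13 0 528) .out))))) .out) .out)
  (.lg 0 false 1 0 0 16 0 24)) (.na 561 66 .ne (.nx 570 82572 (.nr 569 524289 (.nr 562 66 .s1 (.nx
  563 647 (.l1 (.ls 67 53 6345)) (.nr 568 262145 (.lg 1 true 5 83 83 29 220814 55440) .out))) .out)
  .out)))) (.na 595 79 (.na 579 74 (.nx 578 82572 (.nr 577 524289 (.nr 572 71 .s1 (.nx 575 6503
  (.nx 573 647 (.l1 (.ls 67 37 5898)) (.nr 574 262145 (.lg 0 true 1 79 79 16 0 264) .out)) (.nr 576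
  65537 (.lg 1 false 1 79 79 16 19190 792) .out))) .out) .out) (.na 587 77 (.nx 586 82572 (.nr 585
  524289 (.nr 580 74 .s1 (.nx 581 647 (.l1 (.ls 73 47 5659)) (.nr 584 262145 (.nx 582 6503 (.lg 0
  true 1 83 83 13 0 11088) (.nr 583 65537 (.lg 1 false 1 83 83 13 18412 11088) .out)) .out))) .out)
  .out) (.nx 594 82572 (.nr 593 524289 (.nr 588 77 .s1 (.nx 591 6503 (.nx 589 647 (.l1 (.ls 67 43
  5439)) (.nr 590 262145 (.lg 0 true 1 73 73 17 0 1848) .out)) (.nr 592 65537 (.lg 1 false 1 79 79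
  17 17694 27720) .out))) .out) .out))) (.na 606 82 (.na 605 81 (.nx 604 82572 (.nr 603 524289 (.nr
  596 79 .s1 (.nx 601 6503 (.nx 598 33 (.nr 597 332 (.l1 (.ls 16 16 21)) (.l1 .sk)) (.nx 599 34
  (.l1 .sk) (.lg 0 false 2 71 71 16 0 528))) (.nr 602 65537 (.lg 1 false 1 79 79 16 17247 792)
  .out))) .out) .out) (.lg 0 false 1 0 0 16 0 24)) (.na 614 86 (.nx 613 82572 (.nr 612 524289 (.nr
  607 82 .s1 (.nx 610 6503 (.nx 608 647 (.l1 (.ls 73 47 5107)) (.nr 609 262145 (.lg 0 true 1 83 83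
  13 0 7920) .out)) (.nr 611 65537 (.lg 1 false 1 83 83 13 16616 7920) .out))) .out) .out) (.nx 621
  82572 (.nr 620 524289 (.nr 615 86 .s1 (.nx 616 647 (.l1 (.ls 71 41 4870)) (.nr 619 262145 (.nx
  617 6503 (.lg 0 true 1 79 79 13 0 1584) (.nr 618 65537 (.lg 1 false 1 79 79 13 15843 1584) .out))
  .out))) .out) .out))))) (.na 680 118 (.na 647 98 (.na 630 94 (.nx 629 82572 (.nr 628 524289 (.nr
  623 87 .s1 (.nx 624 647 (.l1 (.ls 73 43 4814)) (.nr 627 262145 (.nx 625 6503 (.lg 0 true 1 83 83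
  16 0 27720) (.nr 626 65537 (.lg 1 false 1 79 79 16 15661 792) .out)) .out))) .out) .out) (.na 638
  97 (.nx 637 82572 (.nr 636 524289 (.nr 631 94 .s1 (.nx 632 647 (.l1 (.ls 71 43 4456)) (.nr 635
  262145 (.nx 633 6503 (.lg 0 true 1 79 79 17 0 11088) (.nr 634 65537 (.lg 1 false 1 79 79 17 14495
  11088) .out)) .out))) .out) .out) (.nx 646 82572 (.nr 645 524289 (.nr 639 97 .s1 (.nx 642 34 (.nx
  641 33 (.nr 640 402 (.l1 (.ls 16 16 25)) (.l1 .sk)) (.l1 .sk)) (.nx 643 6503 (.lg 0 true 1 79 79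
  16 0 264) (.nr 644 65537 (.lg 1 false 1 73 73 16 14046 27720) .out)))) .out) .out))) (.na 663 111
  (.na 655 102 (.nx 654 82572 (.nr 653 524289 (.nr 648 98 .s1 (.nx 651 6503 (.nx 649 647 (.l1 (.ls
  71 43 4274)) (.nr 650 262145 (.lg 0 true 1 79 79 19 0 55440) .out)) (.nr 652 65537 (.lg 1 false 1
  79 79 19 13903 55440) .out))) .out) .out) (.nx 662 82572 (.nr 661 524289 (.nr 656 102 .s1 (.nx
  657 647 (.l1 (.ls 73 53 4107)) (.nr 660 262145 (.nx 658 6503 (.lg 0 true 1 83 83 29 0 55440) (.nr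
  659 65537 (.lg 1 false 1 79 79 29 13358 55440) .out)) .out))) .out) .out)) (.na 671 114 (.nx 670
  82572 (.nr 669 524289 (.nr 664 111 .s1 (.nx 667 6503 (.nx 665 647 (.l1 (.ls 67 41 3774)) (.nr 666
  262145 (.lg 0 true 1 73 73 17 0 792) .out)) (.nr 668 65537 (.lg 1 false 1 71 71 17 12275 792)
  .out))) .out) .out) (.nx 679 82572 (.nr 678 524289 (.nr 672 114 .s1 (.nx 676 6503 (.nx 674 33
  (.nr 673 483 (.l1 (.ls 16 17 30)) (.l1 .sk)) (.nx 675 34 (.l1 .sk) (.lg 0 true 1 79 79 29 0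
  1584))) (.nr 677 65537 (.lg 1 false 1 71 71 29 11952 1584) .out))) .out) .out)))) (.na 698 126
  (.na 689 119 (.nx 688 82572 (.nr 687 524289 (.nr 681 118 .s1 (.nx 685 6503 (.nx 683 33 (.nr 682
  488 (.l1 (.ls 17 13 30)) (.l1 .sk)) (.nx 684 34 (.l1 .sk) (.lg 0 true 1 83 83 19 0 528))) (.nr
  686 65537 (.lg 1 false 1 73 73 19 11547 1584) .out))) .out) .out) (.na 697 121 (.nx 696 82572
  (.nr 695 524289 (.nr 690 119 .s1 (.nx 693 6503 (.nx 691 647 (.l1 (.ls 71 41 3520)) (.nr 692
  262145 (.lg 0 false 1 73 73 16 0 1848) .out)) (.nr 694 65537 (.lg 1 false 1 73 73 16 11450 5544)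
  .out))) .out) .out) (.lg 0 false 1 0 0 16 0 24))) (.na 708 128 (.na 699 127 (.lg 0 false 1 0 0 16
  0 24) (.nx 707 82572 (.nr 706 524289 (.nr 700 127 .s1 (.nx 703 34 (.nx 702 33 (.nr 701 524 (.l1
  (.ls 16 16 33)) (.l1 .sk)) (.l1 .sk)) (.nx 704 6503 (.lg 0 true 1 73 73 16 0 264) (.nr 705 65537
  (.lg 1 false 1 67 67 16 10728 792) .out)))) .out) .out)) (.na 709 129 .ne (.nx 714 41287 (.nr 713
  1048577 (.nr 710 129 .s1 (.nx 711 647 (.l1 (.ls 71 37 3248)) (.nr 712 131073 (.lg 0 true 1 83 83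
  17 0 5544) .out))) .out) .out))))))) (.na 838 209 (.na 779 171 (.na 752 151 (.na 728 141 (.na 716
  138 (.lg 0 false 1 0 0 16 0 24) (.na 722 139 (.nx 721 41287 (.nr 720 1048577 (.nr 717 138 .s1
  (.nx 718 647 (.l1 (.ls 73 47 3036)) (.nr 719 131073 (.lg 0 true 1 83 83 19 0 7920) .out))) .out)
  .out) (.nx 727 41287 (.nr 726 1048577 (.nr 723 139 .s1 (.nx 724 647 (.l1 (.ls 61 31 3014)) (.nr
  725 131073 (.lg 0 true 1 73 73 16 0 5544) .out))) .out) .out))) (.na 740 147 (.na 734 142 (.nx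
  733 41287 (.nr 732 1048577 (.nr 729 141 .s1 (.nx 730 647 (.l1 (.ls 71 37 2971)) (.nr 731 131073
  (.lg 0 true 1 79 79 17 0 792) .out))) .out) .out) (.nx 739 41287 (.nr 738 1048577 (.nr 735 142
  .s1 (.nx 736 647 (.l1 (.ls 67 41 2950)) (.nr 737 131073 (.lg 0 true 1 83 83 19 0 7920) .out)))
  .out) .out)) (.na 746 149 (.nx 745 41287 (.nr 744 1048577 (.nr 741 147 .s1 (.nx 742 647 (.l1 (.ls
  71 41 2850)) (.nr 743 131073 (.lg 0 true 1 79 79 19 0 27720) .out))) .out) .out) (.nx 751 41287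
  (.nr 750 1048577 (.nr 747 149 .s1 (.nx 748 647 (.l1 (.ls 61 31 2812)) (.nr 749 131073 (.lg 0 true
  1 71 71 16 0 264) .out))) .out) .out)))) (.na 765 158 (.na 758 153 (.nx 757 41287 (.nr 756
  1048577 (.nr 753 151 .s1 (.nx 754 647 (.l1 (.ls 67 31 2775)) (.nr 755 131073 (.lg 0 true 1 73 73
  16 0 5544) .out))) .out) .out) (.na 759 154 (.lg 0 false 1 0 0 16 0 24) (.nx 764 41287 (.nr 763
  1048577 (.nr 760 154 .s1 (.nx 761 647 (.l1 (.ls 71 47 2721)) (.nr 762 131073 (.lg 0 true 1 79 79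
  29 0 11088) .out))) .out) .out))) (.na 777 162 (.na 771 161 (.nx 770 41287 (.nr 769 1048577 (.nr
  766 158 .s1 (.nx 767 647 (.l1 (.ls 71 41 2652)) (.nr 768 131073 (.lg 0 true 1 83 83 19 0 528)
  .out))) .out) .out) (.nx 776 41287 (.nr 775 1048577 (.nr 772 161 .s1 (.nx 773 647 (.l1 (.ls 73 41
  2603)) (.nr 774 131073 (.lg 0 true 1 83 83 17 0 5544) .out))) .out) .out)) (.na 778 167 (.lg 0
  false 1 0 0 16 0 24) (.lg 0 false 1 0 0 16 0 24))))) (.na 816 193 (.na 792 177 (.na 780 173 (.lg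
  0 false 1 0 0 16 0 24) (.na 786 174 (.nx 785 41287 (.nr 784 1048577 (.nr 781 173 .s1 (.nx 782 647
  (.l1 (.ls 61 31 2422)) (.nr 783 131073 (.lg 0 true 1 71 71 16 0 264) .out))) .out) .out) (.nx 791
  41287 (.nr 790 1048577 (.nr 787 174 .s1 (.nx 788 647 (.l1 (.ls 71 47 2408)) (.nr 789 131073 (.lg
  0 true 1 79 79 23 0 1584) .out))) .out) .out))) (.na 804 181 (.na 798 179 (.nx 797 41287 (.nr 796
  1048577 (.nr 793 177 .s1 (.nx 794 647 (.l1 (.ls 71 37 2368)) (.nr 795 131073 (.lg 0 true 1 79 79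
  17 0 3960) .out))) .out) .out) (.nx 803 41287 (.nr 802 1048577 (.nr 799 179 .s1 (.nx 800 647 (.l1
  (.ls 61 31 2341)) (.nr 801 131073 (.lg 0 true 1 71 71 16 0 5544) .out))) .out) .out)) (.na 810
  191 (.nx 809 41287 (.nr 808 1048577 (.nr 805 181 .s1 (.nx 806 647 (.l1 (.ls 61 31 2315)) (.nr 807
  131073 (.lg 0 true 1 71 71 16 0 264) .out))) .out) .out) (.nx 815 41287 (.nr 814 1048577 (.nr 811
  191 .s1 (.nx 812 647 (.l1 (.ls 61 29 2194)) (.nr 813 131073 (.lg 0 true 1 71 71 16 0 792) .out)))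
  .out) .out)))) (.na 824 199 (.na 817 194 (.lg 0 false 1 0 0 16 0 24) (.na 823 198 (.nx 822 41287
  (.nr 821 1048577 (.nr 818 194 .s1 (.nx 819 647 (.l1 (.ls 61 41 2160)) (.nr 820 131073 (.lg 0 true
  1 71 71 19 0 528) .out))) .out) .out) (.lg 0 false 1 0 0 16 0 24))) (.na 831 203 (.na 825 202
  (.lg 0 false 1 0 0 16 0 24) (.nx 830 41287 (.nr 829 1048577 (.nr 826 202 .s1 (.nx 827 647 (.l1
  (.ls 67 37 2075)) (.nr 828 131073 (.lg 0 true 1 73 73 23 0 528) .out))) .out) .out)) (.na 837 207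
  (.nx 836 41287 (.nr 835 1048577 (.nr 832 203 .s1 (.nx 833 647 (.l1 (.ls 73 37 2065)) (.nr 834
  131073 (.lg 0 false 1 79 79 19 0 1848) .out))) .out) .out) (.lg 0 false 1 0 0 16 0 24)))))) (.na
  897 254 (.na 875 237 (.na 856 222 (.na 844 211 (.nx 843 41287 (.nr 842 1048577 (.nr 839 209 .s1
  (.nx 840 647 (.l1 (.ls 67 37 2005)) (.nr 841 131073 (.lg 0 true 1 71 71 17 0 264) .out))) .out)
  .out) (.na 850 213 (.nx 849 41287 (.nr 848 1048577 (.nr 845 211 .s1 (.nx 846 647 (.l1 (.ls 59 29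
  1986)) (.nr 847 131073 (.lg 0 true 1 67 67 16 0 264) .out))) .out) .out) (.nx 855 41287 (.nr 854
  1048577 (.nr 851 213 .s1 (.nx 852 647 (.l1 (.ls 67 37 1968)) (.nr 853 131073 (.lg 0 true 1 73 73
  19 0 792) .out))) .out) .out))) (.na 863 231 (.na 862 223 (.nx 861 41287 (.nr 860 1048577 (.nr
  857 222 .s1 (.nx 858 647 (.l1 (.ls 71 47 1888)) (.nr 859 131073 (.lg 0 true 1 79 79 29 0 7920)
  .out))) .out) .out) (.lg 0 false 1 0 0 16 0 24)) (.na 869 233 (.nx 868 41287 (.nr 867 1048577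
  (.nr 864 231 .s1 (.nx 865 647 (.l1 (.ls 61 41 1815)) (.nr 866 131073 (.lg 0 true 1 71 71 29 0
  5544) .out))) .out) .out) (.nx 874 41287 (.nr 873 1048577 (.nr 870 233 .s1 (.nx 871 647 (.l1 (.ls
  61 29 1799)) (.nr 872 131073 (.lg 0 true 1 71 71 17 0 3960) .out))) .out) .out)))) (.na 888 241
  (.na 881 238 (.nx 880 41287 (.nr 879 1048577 (.nr 876 237 .s1 (.nx 877 647 (.l1 (.ls 61 31 1769))
  (.nr 878 131073 (.lg 0 true 1 71 71 19 0 792) .out))) .out) .out) (.na 887 239 (.nx 886 41287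
  (.nr 885 1048577 (.nr 882 238 .s1 (.nx 883 647 (.l1 (.ls 79 43 1761)) (.nr 884 131073 (.lg 0 true
  1 83 83 31 0 3696) .out))) .out) .out) (.lg 0 false 1 0 0 16 0 24))) (.na 890 243 (.na 889 242
  (.lg 0 false 1 0 0 16 0 24) (.lg 0 false 1 0 0 16 0 24)) (.na 891 246 (.lg 0 false 1 0 0 16 0 24)
  (.nx 896 41287 (.nr 895 1048577 (.nr 892 246 .s1 (.nx 893 647 (.l1 (.ls 67 43 1704)) (.nr 894
  131073 (.lg 0 true 1 73 73 29 0 1584) .out))) .out) .out))))) (.na 2223 2048 (.na 1196 512 (.na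
  903 256 (.nx 902 41287 (.nr 901 1048577 (.nr 898 254 .s1 (.nx 899 647 (.l1 (.ls 61 37 1651)) (.nr
  900 131073 (.lg 0 true 1 67 67 23 0 528) .out))) .out) .out) (.na 904 257 .ne (.nx 1195 41287
  (.nr 1194 262145 (.nr 905 257 .s1 (.nx 938 33 (.nr 937 2096 (.lx (.lp 16 0 129)) (.l1 .sk)) (.nx
  939 34 (.l1 .sk) (.la (.lg 0 true 1 71 71 23 0))))) .out) .out))) (.na 1705 1024 (.na 1446 725
  (.nx 1445 41287 (.nr 1444 262145 (.nr 1197 512 .s1 (.nx 1230 33 (.nr 1229 2968 (.lx (.lp 16 16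
  182)) (.l1 .sk)) (.nx 1231 34 (.l1 .sk) (.la (.lg 0 true 1 61 61 23 0))))) .out) .out) (.nx 1704
  257 (.nr 1703 65537 (.nr 1447 725 .s1 (.lx (.lp 53 23 257))) .out) .out)) (.na 1964 1449 (.nx
  1963 257 (.nr 1962 65537 (.nr 1706 1024 .s1 (.lx (.lp 47 23 363))) .out) .out) (.nx 2222 257 (.nr
  2221 16385 (.nr 1965 1449 .s1 (.lx (.lp 37 29 513))) .out) .out)))) (.na 3000 5793 (.na 2482 2897
  (.nx 2481 257 (.nr 2480 32769 (.nr 2224 2048 .s1 (.lx (.lp 41 29 725))) .out) .out) (.na 2741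
  4096 (.nx 2740 257 (.nr 2739 32769 (.nr 2483 2897 .s1 (.lx (.lp 41 31 1025))) .out) .out) (.nx
  2999 257 (.nr 2998 32769 (.nr 2742 4096 .s1 (.lx (.lp 37 31 1449))) .out) .out))) (.na 3210 16384
  (.na 3105 8192 (.nx 3104 103 (.nr 3103 32769 (.nr 3001 5793 .s1 (.lx (.lp 16 29 2049))) .out)
  .out) (.nx 3209 103 (.nr 3208 32769 (.nr 3106 8192 .s1 (.lx (.lp 16 0 4097))) .out) .out)) (.na
  3212 32769 (.nx 3211 103 (.l1 .sk) .out) .out)))))))

theorem c123 :
    OkQ ckI L9 208 9 113 0 34359738368 1 1099511627776 ∧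
    OkQ ckI L6 124 1 32 0 34359738368 1 1099511627776 ∧
    OkQ ckI L5 33 1 1099511627776 0 34359738368 1 1099511627776 := by
  refine ⟨?_, ?_, ?_⟩
  · refine fin 624 780 T123_0 ?_
    refine jn 7 (by decide +kernel) ?_
    refine jn 11 (by decide +kernel) ?_
    refine jn 16 (by decide +kernel) ?_
    refine jn 19 (by decide +kernel) ?_
    refine jn 25 (by decide +kernel) ?_
    refine jn 30 (by decide +kernel) ?_
    refine jn 36 (by decide +kernel) ?_
    refine jn 51 (by decide +kernel) ?_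
    refine jn 61 (by decide +kernel) ?_
    refine jn 72 (by decide +kernel) ?_
    refine jn 89 (by decide +kernel) ?_
    refine jn 107 (by decide +kernel) ?_
    refine jn 127 (by decide +kernel) ?_
    refine jn 130 (by decide +kernel) ?_
    refine jn 131 (by decide +kernel) ?_
    refine jn 132 (by decide +kernel) ?_
    refine jn 133 (by decide +kernel) ?_
    refine jn 134 (by decide +kernel) ?_
    refine jn 135 (by decide +kernel) ?_
    refine jn 140 (by decide +kernel) ?_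
    refine jn 144 (by decide +kernel) ?_
    refine jn 146 (by decide +kernel) ?_
    refine jn 147 (by decide +kernel) ?_
    refine jn 148 (by decide +kernel) ?_
    refine jn 149 (by decide +kernel) ?_
    refine jn 150 (by decide +kernel) ?_
    refine jn 151 (by decide +kernel) ?_
    refine jn 156 (by decide +kernel) ?_
    refine jn 159 (by decide +kernel) ?_
    refine jn 164 (by decide +kernel) ?_
    refine jn 169 (by decide +kernel) ?_
    refine jn 171 (by decide +kernel) ?_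
    refine jn 177 (by decide +kernel) ?_
    refine jn 182 (by decide +kernel) ?_
    refine jn 190 (by decide +kernel) ?_
    refine jn 192 (by decide +kernel) ?_
    refine jn 193 (by decide +kernel) ?_
    refine jn 195 (by decide +kernel) ?_
    refine jn 196 (by decide +kernel) ?_
    refine jn 201 (by decide +kernel) ?_
    refine jn 202 (by decide +kernel) ?_
    refine jn 203 (by decide +kernel) ?_
    refine jn 204 (by decide +kernel) ?_
    refine jn 205 (by decide +kernel) ?_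
    refine jn 206 (by decide +kernel) ?_
    refine jn 207 (by decide +kernel) ?_
    refine jn 208 (by decide +kernel) ?_
    refine jn 209 (by decide +kernel) ?_
    refine jn 210 (by decide +kernel) ?_
    refine jn 211 (by decide +kernel) ?_
    refine jn 223 (by decide +kernel) ?_
    refine jn 231 (by decide +kernel) ?_
    refine jn 241 (by decide +kernel) ?_
    refine jn 254 (by decide +kernel) ?_
    refine jn 258 (by decide +kernel) ?_
    refine jn 259 (by decide +kernel) ?_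
    refine jn 264 (by decide +kernel) ?_
    refine jn 274 (by decide +kernel) ?_
    refine jn 284 (by decide +kernel) ?_
    refine jn 291 (by decide +kernel) ?_
    refine jn 301 (by decide +kernel) ?_
    refine jn 302 (by decide +kernel) ?_
    refine jn 303 (by decide +kernel) ?_
    refine jn 304 (by decide +kernel) ?_
    refine jn 305 (by decide +kernel) ?_
    refine jn 306 (by decide +kernel) ?_
    refine jn 307 (by decide +kernel) ?_
    refine jn 311 (by decide +kernel) ?_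
    refine jn 312 (by decide +kernel) ?_
    refine jn 313 (by decide +kernel) ?_
    refine jn 314 (by decide +kernel) ?_
    refine jn 315 (by decide +kernel) ?_
    refine jn 316 (by decide +kernel) ?_
    refine jn 321 (by decide +kernel) ?_
    refine jn 328 (by decide +kernel) ?_
    refine jn 336 (by decide +kernel) ?_
    refine jn 349 (by decide +kernel) ?_
    refine jn 354 (by decide +kernel) ?_
    refine jn 366 (by decide +kernel) ?_
    refine jn 380 (by decide +kernel) ?_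
    refine jn 391 (by decide +kernel) ?_
    refine jn 403 (by decide +kernel) ?_
    refine jn 406 (by decide +kernel) ?_
    refine jn 407 (by decide +kernel) ?_
    refine jn 408 (by decide +kernel) ?_
    refine jn 409 (by decide +kernel) ?_
    refine jn 411 (by decide +kernel) ?_
    refine jn 413 (by decide +kernel) ?_
    refine jn 416 (by decide +kernel) ?_
    refine jn 422 (by decide +kernel) ?_
    refine jn 433 (by decide +kernel) ?_
    refine jn 436 (by decide +kernel) ?_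
    refine jn 438 (by decide +kernel) ?_
    refine jn 442 (by decide +kernel) ?_
    refine jn 445 (by decide +kernel) ?_
    refine jn 447 (by decide +kernel) ?_
    refine jn 462 (by decide +kernel) ?_
    refine jn 470 (by decide +kernel) ?_
    refine jn 481 (by decide +kernel) ?_
    refine jn 489 (by decide +kernel) ?_
    refine jn 501 (by decide +kernel) ?_
    refine jn 508 (by decide +kernel) ?_
    refine jn 515 (by decide +kernel) ?_
    refine jn 517 (by decide +kernel) ?_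
    refine jn 518 (by decide +kernel) ?_
    refine jn 520 (by decide +kernel) ?_
    refine jn 521 (by decide +kernel) ?_
    refine jn 522 (by decide +kernel) ?_
    refine jn 523 (by decide +kernel) ?_
    refine jn 524 (by decide +kernel) ?_
    refine jn 537 (by decide +kernel) ?_
    refine jn 541 (by decide +kernel) ?_
    refine jn 545 (by decide +kernel) ?_
    refine jn 549 (by decide +kernel) ?_
    refine jn 556 (by decide +kernel) ?_
    refine jn 566 (by decide +kernel) ?_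
    refine jn 580 (by decide +kernel) ?_
    refine jn 587 (by decide +kernel) ?_
    refine jn 601 (by decide +kernel) ?_
    refine jn 614 (by decide +kernel) ?_
    refine jn 617 (by decide +kernel) ?_
    refine jn 621 (by decide +kernel) ?_
    refine jn 635 (by decide +kernel) ?_
    refine jn 647 (by decide +kernel) ?_
    refine jn 651 (by decide +kernel) ?_
    refine jn 656 (by decide +kernel) ?_
    refine jn 660 (by decide +kernel) ?_
    refine jn 672 (by decide +kernel) ?_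
    refine jn 675 (by decide +kernel) ?_
    refine jn 680 (by decide +kernel) ?_
    refine jn 691 (by decide +kernel) ?_
    refine jn 703 (by decide +kernel) ?_
    refine jn 707 (by decide +kernel) ?_
    refine jn 710 (by decide +kernel) ?_
    refine jn 724 (by decide +kernel) ?_
    refine jn 740 (by decide +kernel) ?_
    refine jn 755 (by decide +kernel) ?_
    refine jn 764 (by decide +kernel) ?_
    refine jn 768 (by decide +kernel) ?_
    refine jn 769 (by decide +kernel) ?_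
    refine jn 770 (by decide +kernel) ?_
    refine jn 771 (by decide +kernel) ?_
    refine jn 774 (by decide +kernel) ?_
    exact je (by decide +kernel)
  · refine fin 744 921 T123_1 ?_
    refine jn 5 (by decide +kernel) ?_
    refine jn 8 (by decide +kernel) ?_
    refine jn 10 (by decide +kernel) ?_
    refine jn 11 (by decide +kernel) ?_
    refine jn 14 (by decide +kernel) ?_
    refine jn 17 (by decide +kernel) ?_
    refine jn 20 (by decide +kernel) ?_
    refine jn 23 (by decide +kernel) ?_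
    refine jn 26 (by decide +kernel) ?_
    refine jn 29 (by decide +kernel) ?_
    refine jn 32 (by decide +kernel) ?_
    refine jn 35 (by decide +kernel) ?_
    refine jn 37 (by decide +kernel) ?_
    refine jn 40 (by decide +kernel) ?_
    refine jn 55 (by decide +kernel) ?_
    refine jn 71 (by decide +kernel) ?_
    refine jn 76 (by decide +kernel) ?_
    refine jn 81 (by decide +kernel) ?_
    refine jn 86 (by decide +kernel) ?_
    refine jn 91 (by decide +kernel) ?_
    refine jn 96 (by decide +kernel) ?_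
    refine jn 101 (by decide +kernel) ?_
    refine jn 106 (by decide +kernel) ?_
    refine jn 110 (by decide +kernel) ?_
    refine jn 123 (by decide +kernel) ?_
    refine jn 136 (by decide +kernel) ?_
    refine jn 151 (by decide +kernel) ?_
    refine jn 158 (by decide +kernel) ?_
    refine jn 184 (by decide +kernel) ?_
    refine jn 199 (by decide +kernel) ?_
    refine jn 209 (by decide +kernel) ?_
    refine jn 213 (by decide +kernel) ?_
    refine jn 216 (by decide +kernel) ?_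
    refine jn 220 (by decide +kernel) ?_
    refine jn 224 (by decide +kernel) ?_
    refine jn 227 (by decide +kernel) ?_
    refine jn 237 (by decide +kernel) ?_
    refine jn 248 (by decide +kernel) ?_
    refine jn 259 (by decide +kernel) ?_
    refine jn 260 (by decide +kernel) ?_
    refine jn 269 (by decide +kernel) ?_
    refine jn 287 (by decide +kernel) ?_
    refine jn 307 (by decide +kernel) ?_
    refine jn 326 (by decide +kernel) ?_
    refine jn 333 (by decide +kernel) ?_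
    refine jn 334 (by decide +kernel) ?_
    refine jn 335 (by decide +kernel) ?_
    refine jn 336 (by decide +kernel) ?_
    refine jn 337 (by decide +kernel) ?_
    refine jn 338 (by decide +kernel) ?_
    refine jn 339 (by decide +kernel) ?_
    refine jn 340 (by decide +kernel) ?_
    refine jn 341 (by decide +kernel) ?_
    refine jn 342 (by decide +kernel) ?_
    refine jn 343 (by decide +kernel) ?_
    refine jn 344 (by decide +kernel) ?_
    refine jn 346 (by decide +kernel) ?_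
    refine jn 348 (by decide +kernel) ?_
    refine jn 350 (by decide +kernel) ?_
    refine jn 352 (by decide +kernel) ?_
    refine jn 354 (by decide +kernel) ?_
    refine jn 355 (by decide +kernel) ?_
    refine jn 366 (by decide +kernel) ?_
    refine jn 371 (by decide +kernel) ?_
    refine jn 380 (by decide +kernel) ?_
    refine jn 387 (by decide +kernel) ?_
    refine jn 393 (by decide +kernel) ?_
    refine jn 405 (by decide +kernel) ?_
    refine jn 435 (by decide +kernel) ?_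
    refine jn 454 (by decide +kernel) ?_
    refine jn 460 (by decide +kernel) ?_
    refine jn 461 (by decide +kernel) ?_
    refine jn 462 (by decide +kernel) ?_
    refine jn 463 (by decide +kernel) ?_
    refine jn 464 (by decide +kernel) ?_
    refine jn 466 (by decide +kernel) ?_
    refine jn 467 (by decide +kernel) ?_
    refine jn 469 (by decide +kernel) ?_
    refine jn 470 (by decide +kernel) ?_
    refine jn 471 (by decide +kernel) ?_
    refine jn 472 (by decide +kernel) ?_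
    refine jn 473 (by decide +kernel) ?_
    refine jn 475 (by decide +kernel) ?_
    refine jn 477 (by decide +kernel) ?_
    refine jn 479 (by decide +kernel) ?_
    refine jn 480 (by decide +kernel) ?_
    refine jn 483 (by decide +kernel) ?_
    refine jn 490 (by decide +kernel) ?_
    refine jn 497 (by decide +kernel) ?_
    refine jn 503 (by decide +kernel) ?_
    refine jn 509 (by decide +kernel) ?_
    refine jn 538 (by decide +kernel) ?_
    refine jn 550 (by decide +kernel) ?_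
    refine jn 557 (by decide +kernel) ?_
    refine jn 559 (by decide +kernel) ?_
    refine jn 561 (by decide +kernel) ?_
    refine jn 563 (by decide +kernel) ?_
    refine jn 564 (by decide +kernel) ?_
    refine jn 566 (by decide +kernel) ?_
    refine jn 568 (by decide +kernel) ?_
    refine jn 572 (by decide +kernel) ?_
    refine jn 576 (by decide +kernel) ?_
    refine jn 579 (by decide +kernel) ?_
    refine jn 580 (by decide +kernel) ?_
    refine jn 589 (by decide +kernel) ?_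
    refine jn 615 (by decide +kernel) ?_
    refine jn 625 (by decide +kernel) ?_
    refine jn 627 (by decide +kernel) ?_
    refine jn 630 (by decide +kernel) ?_
    refine jn 632 (by decide +kernel) ?_
    refine jn 635 (by decide +kernel) ?_
    refine jn 643 (by decide +kernel) ?_
    refine jn 647 (by decide +kernel) ?_
    refine jn 651 (by decide +kernel) ?_
    refine jn 655 (by decide +kernel) ?_
    refine jn 663 (by decide +kernel) ?_
    refine jn 668 (by decide +kernel) ?_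
    refine jn 694 (by decide +kernel) ?_
    refine jn 703 (by decide +kernel) ?_
    refine jn 705 (by decide +kernel) ?_
    refine jn 707 (by decide +kernel) ?_
    refine jn 709 (by decide +kernel) ?_
    refine jn 716 (by decide +kernel) ?_
    refine jn 720 (by decide +kernel) ?_
    refine jn 723 (by decide +kernel) ?_
    refine jn 730 (by decide +kernel) ?_
    refine jn 735 (by decide +kernel) ?_
    refine jn 745 (by decide +kernel) ?_
    refine jn 748 (by decide +kernel) ?_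
    refine jn 751 (by decide +kernel) ?_
    refine jn 759 (by decide +kernel) ?_
    refine jn 761 (by decide +kernel) ?_
    refine jn 767 (by decide +kernel) ?_
    refine jn 778 (by decide +kernel) ?_
    refine jn 780 (by decide +kernel) ?_
    refine jn 781 (by decide +kernel) ?_
    refine jn 782 (by decide +kernel) ?_
    refine jn 783 (by decide +kernel) ?_
    refine jn 784 (by decide +kernel) ?_
    refine jn 785 (by decide +kernel) ?_
    refine jn 790 (by decide +kernel) ?_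
    refine jn 793 (by decide +kernel) ?_
    refine jn 794 (by decide +kernel) ?_
    refine jn 795 (by decide +kernel) ?_
    refine jn 796 (by decide +kernel) ?_
    refine jn 797 (by decide +kernel) ?_
    refine jn 798 (by decide +kernel) ?_
    refine jn 799 (by decide +kernel) ?_
    refine jn 800 (by decide +kernel) ?_
    refine jn 801 (by decide +kernel) ?_
    refine jn 812 (by decide +kernel) ?_
    refine jn 817 (by decide +kernel) ?_
    refine jn 820 (by decide +kernel) ?_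
    refine jn 827 (by decide +kernel) ?_
    refine jn 833 (by decide +kernel) ?_
    refine jn 843 (by decide +kernel) ?_
    refine jn 844 (by decide +kernel) ?_
    refine jn 846 (by decide +kernel) ?_
    refine jn 847 (by decide +kernel) ?_
    refine jn 848 (by decide +kernel) ?_
    refine jn 849 (by decide +kernel) ?_
    refine jn 853 (by decide +kernel) ?_
    refine jn 854 (by decide +kernel) ?_
    refine jn 855 (by decide +kernel) ?_
    refine jn 856 (by decide +kernel) ?_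
    refine jn 859 (by decide +kernel) ?_
    refine jn 860 (by decide +kernel) ?_
    refine jn 872 (by decide +kernel) ?_
    refine jn 875 (by decide +kernel) ?_
    refine jn 880 (by decide +kernel) ?_
    refine jn 891 (by decide +kernel) ?_
    refine jn 892 (by decide +kernel) ?_
    refine jn 893 (by decide +kernel) ?_
    refine jn 894 (by decide +kernel) ?_
    refine jn 895 (by decide +kernel) ?_
    refine jn 896 (by decide +kernel) ?_
    refine jn 897 (by decide +kernel) ?_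
    refine jn 898 (by decide +kernel) ?_
    refine jn 899 (by decide +kernel) ?_
    refine jn 917 (by decide +kernel) ?_
    exact je (by decide +kernel)
  · refine fin 264 3213 T123_2 ?_
    refine jn 5 (by decide +kernel) ?_
    refine jn 6 (by decide +kernel) ?_
    refine jn 7 (by decide +kernel) ?_
    refine jn 10 (by decide +kernel) ?_
    refine jn 11 (by decide +kernel) ?_
    refine jn 13 (by decide +kernel) ?_
    refine jn 15 (by decide +kernel) ?_
    refine jn 16 (by decide +kernel) ?_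
    refine jn 17 (by decide +kernel) ?_
    refine jn 20 (by decide +kernel) ?_
    refine jn 21 (by decide +kernel) ?_
    refine jn 23 (by decide +kernel) ?_
    refine jn 24 (by decide +kernel) ?_
    refine jn 26 (by decide +kernel) ?_
    refine jn 28 (by decide +kernel) ?_
    refine jn 30 (by decide +kernel) ?_
    refine jn 31 (by decide +kernel) ?_
    refine jn 33 (by decide +kernel) ?_
    refine jn 34 (by decide +kernel) ?_
    refine jn 36 (by decide +kernel) ?_
    refine jn 38 (by decide +kernel) ?_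
    refine jn 40 (by decide +kernel) ?_
    refine jn 42 (by decide +kernel) ?_
    refine jn 48 (by decide +kernel) ?_
    refine jn 56 (by decide +kernel) ?_
    refine jn 64 (by decide +kernel) ?_
    refine jn 72 (by decide +kernel) ?_
    refine jn 76 (by decide +kernel) ?_
    refine jn 123 (by decide +kernel) ?_
    refine jn 132 (by decide +kernel) ?_
    refine jn 133 (by decide +kernel) ?_
    refine jn 134 (by decide +kernel) ?_
    refine jn 136 (by decide +kernel) ?_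
    refine jn 138 (by decide +kernel) ?_
    refine jn 139 (by decide +kernel) ?_
    refine jn 140 (by decide +kernel) ?_
    refine jn 142 (by decide +kernel) ?_
    refine jn 143 (by decide +kernel) ?_
    refine jn 146 (by decide +kernel) ?_
    refine jn 149 (by decide +kernel) ?_
    refine jn 152 (by decide +kernel) ?_
    refine jn 155 (by decide +kernel) ?_
    refine jn 163 (by decide +kernel) ?_
    refine jn 172 (by decide +kernel) ?_
    refine jn 176 (by decide +kernel) ?_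
    refine jn 197 (by decide +kernel) ?_
    refine jn 208 (by decide +kernel) ?_
    refine jn 211 (by decide +kernel) ?_
    refine jn 225 (by decide +kernel) ?_
    refine jn 232 (by decide +kernel) ?_
    refine jn 245 (by decide +kernel) ?_
    refine jn 246 (by decide +kernel) ?_
    refine jn 247 (by decide +kernel) ?_
    refine jn 248 (by decide +kernel) ?_
    refine jn 249 (by decide +kernel) ?_
    refine jn 250 (by decide +kernel) ?_
    refine jn 251 (by decide +kernel) ?_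
    refine jn 252 (by decide +kernel) ?_
    refine jn 254 (by decide +kernel) ?_
    refine jn 256 (by decide +kernel) ?_
    refine jn 258 (by decide +kernel) ?_
    refine jn 260 (by decide +kernel) ?_
    refine jn 261 (by decide +kernel) ?_
    refine jn 262 (by decide +kernel) ?_
    refine jn 266 (by decide +kernel) ?_
    refine jn 267 (by decide +kernel) ?_
    refine jn 268 (by decide +kernel) ?_
    refine jn 269 (by decide +kernel) ?_
    refine jn 270 (by decide +kernel) ?_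
    refine jn 271 (by decide +kernel) ?_
    refine jn 272 (by decide +kernel) ?_
    refine jn 273 (by decide +kernel) ?_
    refine jn 274 (by decide +kernel) ?_
    refine jn 280 (by decide +kernel) ?_
    refine jn 293 (by decide +kernel) ?_
    refine jn 305 (by decide +kernel) ?_
    refine jn 315 (by decide +kernel) ?_
    refine jn 317 (by decide +kernel) ?_
    refine jn 319 (by decide +kernel) ?_
    refine jn 322 (by decide +kernel) ?_
    refine jn 325 (by decide +kernel) ?_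
    refine jn 328 (by decide +kernel) ?_
    refine jn 335 (by decide +kernel) ?_
    refine jn 336 (by decide +kernel) ?_
    refine jn 337 (by decide +kernel) ?_
    refine jn 338 (by decide +kernel) ?_
    refine jn 339 (by decide +kernel) ?_
    refine jn 343 (by decide +kernel) ?_
    refine jn 344 (by decide +kernel) ?_
    refine jn 345 (by decide +kernel) ?_
    refine jn 346 (by decide +kernel) ?_
    refine jn 347 (by decide +kernel) ?_
    refine jn 348 (by decide +kernel) ?_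
    refine jn 349 (by decide +kernel) ?_
    refine jn 358 (by decide +kernel) ?_
    refine jn 361 (by decide +kernel) ?_
    refine jn 365 (by decide +kernel) ?_
    refine jn 373 (by decide +kernel) ?_
    refine jn 377 (by decide +kernel) ?_
    refine jn 379 (by decide +kernel) ?_
    refine jn 384 (by decide +kernel) ?_
    refine jn 395 (by decide +kernel) ?_
    refine jn 411 (by decide +kernel) ?_
    refine jn 414 (by decide +kernel) ?_
    refine jn 415 (by decide +kernel) ?_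
    refine jn 419 (by decide +kernel) ?_
    refine jn 435 (by decide +kernel) ?_
    refine jn 443 (by decide +kernel) ?_
    refine jn 445 (by decide +kernel) ?_
    refine jn 455 (by decide +kernel) ?_
    refine jn 462 (by decide +kernel) ?_
    refine jn 467 (by decide +kernel) ?_
    refine jn 477 (by decide +kernel) ?_
    refine jn 487 (by decide +kernel) ?_
    refine jn 489 (by decide +kernel) ?_
    refine jn 499 (by decide +kernel) ?_
    refine jn 510 (by decide +kernel) ?_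
    refine jn 521 (by decide +kernel) ?_
    refine jn 532 (by decide +kernel) ?_
    refine jn 543 (by decide +kernel) ?_
    refine jn 546 (by decide +kernel) ?_
    refine jn 556 (by decide +kernel) ?_
    refine jn 574 (by decide +kernel) ?_
    refine jn 582 (by decide +kernel) ?_
    refine jn 590 (by decide +kernel) ?_
    refine jn 602 (by decide +kernel) ?_
    refine jn 611 (by decide +kernel) ?_
    refine jn 618 (by decide +kernel) ?_
    refine jn 626 (by decide +kernel) ?_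
    refine jn 640 (by decide +kernel) ?_
    refine jn 650 (by decide +kernel) ?_
    refine jn 659 (by decide +kernel) ?_
    refine jn 676 (by decide +kernel) ?_
    refine jn 686 (by decide +kernel) ?_
    refine jn 694 (by decide +kernel) ?_
    refine jn 712 (by decide +kernel) ?_
    refine jn 725 (by decide +kernel) ?_
    refine jn 737 (by decide +kernel) ?_
    refine jn 753 (by decide +kernel) ?_
    refine jn 762 (by decide +kernel) ?_
    refine jn 774 (by decide +kernel) ?_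
    refine jn 792 (by decide +kernel) ?_
    refine jn 805 (by decide +kernel) ?_
    refine jn 820 (by decide +kernel) ?_
    refine jn 834 (by decide +kernel) ?_
    refine jn 853 (by decide +kernel) ?_
    refine jn 872 (by decide +kernel) ?_
    refine jn 884 (by decide +kernel) ?_
    refine jn 940 (by decide +kernel) ?_
    refine jn 953 (by decide +kernel) ?_
    refine jn 964 (by decide +kernel) ?_
    refine jn 971 (by decide +kernel) ?_
    refine jn 983 (by decide +kernel) ?_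
    refine jn 985 (by decide +kernel) ?_
    refine jn 995 (by decide +kernel) ?_
    refine jn 1004 (by decide +kernel) ?_
    refine jn 1011 (by decide +kernel) ?_
    refine jn 1028 (by decide +kernel) ?_
    refine jn 1043 (by decide +kernel) ?_
    refine jn 1064 (by decide +kernel) ?_
    refine jn 1076 (by decide +kernel) ?_
    refine jn 1088 (by decide +kernel) ?_
    refine jn 1100 (by decide +kernel) ?_
    refine jn 1115 (by decide +kernel) ?_
    refine jn 1129 (by decide +kernel) ?_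
    refine jn 1144 (by decide +kernel) ?_
    refine jn 1153 (by decide +kernel) ?_
    refine jn 1175 (by decide +kernel) ?_
    refine jn 1184 (by decide +kernel) ?_
    refine jn 1237 (by decide +kernel) ?_
    refine jn 1242 (by decide +kernel) ?_
    refine jn 1262 (by decide +kernel) ?_
    refine jn 1272 (by decide +kernel) ?_
    refine jn 1281 (by decide +kernel) ?_
    refine jn 1293 (by decide +kernel) ?_
    refine jn 1301 (by decide +kernel) ?_
    refine jn 1312 (by decide +kernel) ?_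
    refine jn 1325 (by decide +kernel) ?_
    refine jn 1333 (by decide +kernel) ?_
    refine jn 1348 (by decide +kernel) ?_
    refine jn 1365 (by decide +kernel) ?_
    refine jn 1377 (by decide +kernel) ?_
    refine jn 1398 (by decide +kernel) ?_
    refine jn 1416 (by decide +kernel) ?_
    refine jn 1433 (by decide +kernel) ?_
    refine jn 1447 (by decide +kernel) ?_
    refine jn 1706 (by decide +kernel) ?_
    refine jn 1965 (by decide +kernel) ?_
    refine jn 2361 (by decide +kernel) ?_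
    refine jn 2739 (by decide +kernel) ?_
    exact je (by decide +kernel)

end Pool.Agent.MP_2339ce_nt.NR
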