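import Pool.Agent.MP_2339ce_nt.Q2.NC.L5
import Pool.Agent.MP_2339ce_nt.Q2.NC.L8
import Pool.Agent.MP_2339ce_nt.Q2.CkI

/-! Block NR: runs. -/

set_option autoImplicit false
set_option maxRecDepth 100000

noncomputable section

namespace Pool.Agent.MP_2339ce_nt.NR

open Q2.Top

def T124_0 : Ph :=
  (.na 536 166 (.na 317 91 (.na 169 59 (.na 85 46 (.na 24 34 (.na 1 33 .ne (.nx 23 1664512 (.nr 22
  881745 (.nr 2 31 .s1 (.nx 17 104033 (.nx 14 26009 (.nx 4 149 (.nr 3 294 (.l1 (.ls 29 31 675))
  (.l1 .sk)) (.nx 5 150 (.l1 .sk) (.nx 6 257 (.l1 (.ls 79 37 1322)) (.nr 13 440873 (.nx 10 10323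
  (.lg 0 false 4 89 97 19 0 7920) (.nr 12 110219 (.lg 0 false 2 89 97 17 0 7920) .out)) .out))))
  (.nr 16 32769 (.nr 15 1937 (.lg 0 false 1 73 73 16 0 3960) (.lg 2 true 1 83 83 16 14050 792))
  .out)) (.nr 21 257 (.lg 0 true 4 71 73 19 0 1584) .out))) .out) .out)) (.na 48 37 (.nx 47 1664512
  (.nr 46 881745 (.nr 25 32 .s1 (.nx 29 257 (.nx 27 149 (.nr 26 320 (.lg 0 false 1 23 23 13 0 720)
  (.l1 .sk)) (.nx 28 150 (.l1 .sk) (.l1 (.ls 73 41 1283)))) (.nr 45 440873 (.nx 36 20644 (.lg 0
  false 7 89 97 23 0 5040) (.nr 44 46342 (.nr 41 320 (.lg 0 true 5 71 71 13 0 720) (.nx 43 104033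
  (.lg 2 true 2 83 83 13 25000 720) .out)) .out)) .out))) .out) .out) (.na 68 43 (.nx 67 1664512
  (.nr 66 881745 (.nr 49 35 .s1 (.nx 53 257 (.nx 51 149 (.nr 50 372 (.l1 (.ls 19 19 603)) (.l1
  .sk)) (.nx 52 150 (.l1 .sk) (.l1 (.ls 73 23 1180)))) (.nr 65 440873 (.nx 57 20644 (.lg 0 false 4
  89 97 16 0 720) (.nr 64 46342 (.nr 61 257 (.lg 0 true 4 67 67 16 0 144) (.nx 63 104033 (.lg 2
  true 2 83 83 16 30158 144) .out)) .out)) .out))) .out) .out) (.nx 84 1664512 (.nr 83 881745 (.nr
  69 42 .s1 (.nx 75 20644 (.nx 70 257 (.l1 (.ls 73 29 1539)) (.nr 74 440873 (.lg 0 false 4 89 89 16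
  0 720) .out)) (.nr 82 46342 (.nr 79 257 (.lg 0 true 4 67 67 16 0 144) (.nx 81 104033 (.lg 2 true
  2 83 83 16 30158 720) .out)) .out))) .out) .out)))) (.na 123 53 (.na 104 50 (.nx 103 1664512 (.nr
  102 881745 (.nr 86 45 .s1 (.nx 95 20644 (.nx 87 257 (.l1 (.ls 79 41 1438)) (.nr 94 623489 (.lg 0
  false 7 97 97 19 0 55440) .out)) (.nr 101 46342 (.nr 98 257 (.lg 0 true 3 67 67 13 0 144) (.nx
  100 104033 (.lg 2 true 2 83 83 13 30158 144) .out)) .out))) .out) .out) (.nx 122 1664512 (.nr 121
  881745 (.nr 105 49 .s1 (.nx 114 20644 (.nx 106 257 (.l1 (.ls 73 41 1323)) (.nr 113 623489 (.lg 0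
  false 7 83 83 23 0 5040) .out)) (.nr 120 46342 (.nr 117 257 (.lg 0 true 3 61 61 19 0 720) (.nx
  119 104033 (.lg 2 false 2 73 73 19 30158 720) .out)) .out))) .out) .out)) (.na 139 54 (.nx 138
  1664512 (.nr 137 881745 (.nr 124 52 .s1 (.nx 125 257 (.l1 (.ls 73 29 1249)) (.nr 136 623489 (.nx
  129 20644 (.lg 0 false 4 89 89 16 0 144) (.nr 135 46342 (.nr 133 467 (.lg 0 true 4 67 67 16 0
  144) (.nx 134 104033 (.lg 2 true 1 83 83 16 25000 3960) .out)) .out)) .out))) .out) .out) (.na
  156 58 (.nx 155 1664512 (.nr 154 881745 (.nr 140 53 .s1 (.nx 141 257 (.l1 (.ls 71 41 1226)) (.nr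
  153 623489 (.nx 146 20644 (.lg 0 false 5 83 83 23 0 720) (.nr 152 46342 (.nr 149 257 (.lg 0 true
  3 61 61 23 0 144) (.nx 151 104033 (.lg 2 false 2 73 73 19 30158 144) .out)) .out)) .out))) .out)
  .out) (.nx 168 1664512 (.nr 167 881745 (.nr 157 57 .s1 (.nx 162 20644 (.nx 158 257 (.l1 (.ls 79
  41 1141)) (.nr 161 623489 (.lg 0 false 3 97 97 19 0 720) .out)) (.nr 166 46342 (.nr 164 257 (.lg
  0 true 2 67 67 13 0 144) (.nx 165 104033 (.lg 2 true 1 83 83 13 30158 144) .out)) .out))) .out)
  .out))))) (.na 230 75 (.na 185 66 (.na 184 64 (.nx 183 1664512 (.nr 182 881745 (.nr 170 58 .s1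
  (.nx 176 20644 (.nx 171 257 (.l1 (.ls 73 23 1122)) (.nr 175 623489 (.lg 0 false 4 89 89 16 0 720)
  .out)) (.nr 181 46342 (.nr 178 257 (.lg 0 true 2 67 67 16 0 144) (.nx 180 104033 (.lg 2 false 2
  79 79 16 30158 144) .out)) .out))) .out) .out) .ne) (.na 200 69 (.nx 199 1664512 (.nr 198 524289
  (.nr 186 65 .s1 (.nx 189 150 (.nx 188 149 (.nr 187 597 (.l1 (.ls 29 37 339)) (.l1 .sk)) (.l1
  .sk)) (.nx 191 13005 (.lg 0 false 2 89 89 29 0 7920) (.nr 197 65537 (.nx 192 20644 (.lg 0 false 1
  73 73 29 0 1584) (.nr 196 32769 (.nr 194 513 (.lg 0 true 2 71 71 29 0 1584) (.nx 195 104033 (.lg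
  2 true 1 79 79 29 17701 1584) .out)) .out)) .out)))) .out) .out) (.na 215 74 (.nx 214 1664512
  (.nr 213 524289 (.nr 201 68 .s1 (.nx 208 20644 (.nx 203 149 (.nr 202 640 (.l1 (.ls 19 19 324))
  (.l1 .sk)) (.nx 204 150 (.l1 .sk) (.lg 0 false 4 89 97 19 0 7920))) (.nr 212 32769 (.nr 210 513
  (.lg 0 true 2 71 71 17 0 144) (.nx 211 104033 (.lg 2 false 1 73 73 17 17701 72) .out)) .out)))
  .out) .out) (.nx 229 1664512 (.nr 228 524289 (.nr 216 73 .s1 (.nx 222 20644 (.nx 218 149 (.nr 217
  649 (.l1 (.ls 19 29 303)) (.l1 .sk)) (.nx 219 150 (.l1 .sk) (.lg 0 false 3 83 83 19 0 144))) (.nr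
  227 32769 (.nr 225 513 (.lg 0 true 3 67 67 19 0 144) (.nx 226 104033 (.lg 2 true 1 73 73 13 17701
  144) .out)) .out))) .out) .out)))) (.na 276 85 (.na 245 79 (.nx 244 1664512 (.nr 243 524289 (.nr
  231 75 .s1 (.nx 238 20644 (.nx 233 149 (.nr 232 683 (.l1 (.ls 29 29 299)) (.l1 .sk)) (.nx 234 150
  (.l1 .sk) (.lg 0 false 4 83 83 23 0 720))) (.nr 242 32769 (.nx 239 104033 (.lg 0 false 1 83 83 17
  0 3960) (.nr 241 513 (.lg 0 true 2 71 71 19 0 720) .out)) .out))) .out) .out) (.na 260 81 (.nx
  259 1664512 (.nr 258 524289 (.nr 246 79 .s1 (.nx 252 20644 (.nx 248 149 (.nr 247 701 (.l1 (.ls 17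
  17 284)) (.l1 .sk)) (.nx 249 150 (.l1 .sk) (.lg 0 false 3 73 73 16 0 72))) (.nr 257 32769 (.nr
  255 513 (.lg 0 true 3 59 59 16 0 72) (.nx 256 104033 (.lg 2 true 1 67 67 16 17701 72) .out))
  .out))) .out) .out) (.nx 275 1664512 (.nr 274 524289 (.nr 261 81 .s1 (.nx 268 20644 (.nx 263 149
  (.nr 262 735 (.l1 (.ls 17 23 277)) (.l1 .sk)) (.nx 264 150 (.l1 .sk) (.lg 0 false 4 79 79 19 0
  720))) (.nr 273 32769 (.nr 271 513 (.lg 0 true 3 59 59 17 0 72) (.nx 272 104033 (.lg 2 true 1 67
  67 16 17701 72) .out)) .out))) .out) .out))) (.na 290 86 (.nx 289 1664512 (.nr 288 524289 (.nr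
  277 85 .s1 (.nx 283 20644 (.nx 279 149 (.nr 278 744 (.l1 (.ls 16 23 264)) (.l1 .sk)) (.nx 280 150
  (.l1 .sk) (.lg 0 false 3 83 89 23 0 360))) (.nr 287 32769 (.nr 285 513 (.lg 0 true 2 71 71 16 0
  720) (.nx 286 104033 (.lg 2 false 1 73 73 16 17701 360) .out)) .out))) .out) .out) (.na 304 90
  (.nx 303 1664512 (.nr 302 524289 (.nr 291 86 .s1 (.nx 297 20644 (.nx 293 149 (.nr 292 779 (.l1
  (.ls 19 23 261)) (.l1 .sk)) (.nx 294 150 (.l1 .sk) (.lg 0 false 3 83 83 19 0 144))) (.nr 301
  32769 (.nr 299 513 (.lg 0 true 2 67 67 19 0 144) (.nx 300 104033 (.lg 2 true 1 73 73 13 17701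
  144) .out)) .out))) .out) .out) (.nx 316 1664512 (.nr 315 524289 (.nr 305 90 .s1 (.nx 308 150
  (.nx 307 149 (.nr 306 787 (.l1 (.ls 29 31 249)) (.l1 .sk)) (.l1 .sk)) (.nx 310 20644 (.lg 0 false
  2 89 89 31 0 7920) (.nr 314 32769 (.nr 312 513 (.lg 0 true 2 67 67 31 0 720) (.nx 313 104033 (.lg
  2 true 1 73 73 29 17701 720) .out)) .out)))) .out) .out)))))) (.na 423 138 (.na 370 113 (.na 331
  106 (.na 318 102 .ne (.nx 330 1664512 (.nr 329 1048577 (.nr 319 102 .s1 (.nx 322 150 (.nx 321 149
  (.nr 320 917 (.l1 (.ls 16 31 220)) (.l1 .sk)) (.l1 .sk)) (.nx 326 104033 (.nx 324 13005 (.lg 0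
  false 2 89 89 31 0 720) (.nr 325 65537 (.lg 0 false 1 89 89 29 0 720) .out)) (.nr 328 513 (.lg 0
  true 2 71 71 31 0 144) .out)))) .out) .out)) (.na 345 110 (.nx 344 1664512 (.nr 343 1048577 (.nr
  332 106 .s1 (.nx 338 20644 (.nx 334 149 (.nr 333 951 (.l1 (.ls 17 23 212)) (.l1 .sk)) (.nx 335
  150 (.l1 .sk) (.lg 0 false 3 83 83 23 0 144))) (.nr 342 32769 (.nr 340 513 (.lg 0 true 2 61 61 19
  0 144) (.nx 341 104033 (.lg 2 true 1 71 71 19 17701 720) .out)) .out))) .out) .out) (.na 358 111
  (.nx 357 1664512 (.nr 356 1048577 (.nr 346 110 .s1 (.nx 348 149 (.nr 347 960 (.l1 (.ls 31 31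
  204)) (.l1 .sk)) (.nx 349 150 (.l1 .sk) (.nx 351 13005 (.lg 0 false 2 89 89 31 0 7920) (.nr 355
  65537 (.nx 352 104033 (.lg 0 false 1 89 89 29 0 7920) (.nr 354 513 (.lg 0 true 2 71 71 31 0 7920)
  .out)) .out))))) .out) .out) (.nx 369 1664512 (.nr 368 1048577 (.nr 359 111 .s1 (.nx 362 150 (.nx
  361 149 (.nr 360 977 (.l1 (.ls 19 19 203)) (.l1 .sk)) (.l1 .sk)) (.nx 366 104033 (.nx 364 13005
  (.lg 0 false 2 89 89 19 0 720) (.nr 365 65537 (.lg 0 true 1 83 83 17 0 360) .out)) (.nr 367 513
  (.lg 0 true 1 67 67 17 0 72) .out)))) .out) .out)))) (.na 398 122 (.na 384 118 (.nx 383 1664512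
  (.nr 382 1048577 (.nr 371 113 .s1 (.nx 378 20644 (.nx 373 149 (.nr 372 1021 (.l1 (.ls 17 17 199))
  (.l1 .sk)) (.nx 374 150 (.l1 .sk) (.lg 0 false 4 79 79 17 0 720))) (.nr 381 32769 (.nr 379 513
  (.lg 0 false 1 61 61 16 0 72) (.nx 380 104033 (.lg 2 true 1 61 61 16 17701 360) .out)) .out)))
  .out) .out) (.nx 397 1664512 (.nr 396 1048577 (.nr 385 118 .s1 (.nx 391 20644 (.nx 387 149 (.nr
  386 1055 (.l1 (.ls 17 23 191)) (.l1 .sk)) (.nx 388 150 (.l1 .sk) (.lg 0 false 3 83 83 23 0 720)))
  (.nr 395 32769 (.nr 393 513 (.lg 0 true 2 61 61 19 0 144) (.nx 394 104033 (.lg 2 true 1 71 71 19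
  17701 720) .out)) .out))) .out) .out)) (.na 411 128 (.nx 410 1664512 (.nr 409 1048577 (.nr 399
  122 .s1 (.nx 402 150 (.nx 401 149 (.nr 400 1107 (.l1 (.ls 19 23 184)) (.l1 .sk)) (.l1 .sk)) (.nx
  405 20644 (.lg 0 false 3 83 83 23 0 720) (.nr 408 32769 (.nr 406 513 (.lg 0 false 1 71 71 19 0
  720) (.nx 407 104033 (.lg 2 true 1 67 67 19 17701 144) .out)) .out)))) .out) .out) (.na 412 129
  .ne (.nx 422 832257 (.nr 421 1048577 (.nr 413 129 .s1 (.nx 417 13005 (.nx 414 257 (.l1 (.ls 71 29
  515)) (.nr 416 741457 (.lg 0 false 2 83 83 19 0 144) .out)) (.nr 420 16385 (.nr 418 1025 (.lg 0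
  true 1 67 67 19 0 72) (.nx 419 104033 (.lg 2 true 1 61 61 19 14114 72) .out)) .out))) .out)
  .out))))) (.na 474 149 (.na 444 142 (.na 434 139 (.nx 433 832257 (.nr 432 1048577 (.nr 424 138
  .s1 (.nx 425 257 (.l1 (.ls 73 41 481)) (.nr 431 741457 (.nx 427 13005 (.lg 0 false 2 83 83 37 0
  720) (.nr 430 16385 (.nr 428 1025 (.lg 0 true 1 67 67 31 0 144) (.nx 429 104033 (.lg 2 false 1 67
  67 31 14114 144) .out)) .out)) .out))) .out) .out) (.nx 443 832257 (.nr 442 1048577 (.nr 435 139
  .s1 (.nx 436 257 (.l1 (.ls 61 19 478)) (.nr 441 741457 (.nx 437 13005 (.lg 0 true 1 79 79 16 0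
  360) (.nr 440 16385 (.nr 438 1025 (.lg 0 false 1 61 61 16 0 360) (.nx 439 104033 (.lg 2 true 1 53
  53 16 14114 72) .out)) .out)) .out))) .out) .out)) (.na 454 145 (.nx 453 832257 (.nr 452 1048577
  (.nr 445 142 .s1 (.nx 446 257 (.l1 (.ls 67 29 468)) (.nr 451 741457 (.nx 447 13005 (.lg 0 true 1
  83 83 19 0 144) (.nr 450 16385 (.nr 448 1025 (.lg 0 false 1 71 71 19 0 720) (.nx 449 104033 (.lg
  2 true 1 59 59 19 14114 144) .out)) .out)) .out))) .out) .out) (.na 464 146 (.nx 463 832257 (.nr
  462 1048577 (.nr 455 145 .s1 (.nx 456 257 (.l1 (.ls 73 23 458)) (.nr 461 741457 (.nx 457 13005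
  (.lg 0 false 1 83 83 17 0 360) (.nr 460 16385 (.nr 458 1025 (.lg 0 true 1 67 67 17 0 360) (.nx
  459 104033 (.lg 2 false 1 61 61 17 14114 360) .out)) .out)) .out))) .out) .out) (.nx 473 832257
  (.nr 472 1048577 (.nr 465 146 .s1 (.nx 466 257 (.l1 (.ls 67 29 455)) (.nr 471 741457 (.nx 467
  13005 (.lg 0 true 1 83 83 19 0 144) (.nr 470 16385 (.nr 468 1025 (.lg 0 false 1 67 67 19 0 720)
  (.nx 469 104033 (.lg 2 true 1 53 53 19 14114 144) .out)) .out)) .out))) .out) .out)))) (.na 506
  159 (.na 485 150 (.nx 484 832257 (.nr 483 1048577 (.nr 475 149 .s1 (.nx 476 257 (.l1 (.ls 59 19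
  446)) (.nr 482 741457 (.nr 479 16385 (.lg 0 false 3 67 67 16 0 72) (.nx 481 13005 (.lg 0 true 2
  71 71 16 0 144) .out)) .out))) .out) .out) (.na 496 158 (.nx 495 832257 (.nr 494 1048577 (.nr 486
  150 .s1 (.nx 490 13005 (.nx 487 257 (.l1 (.ls 71 37 443)) (.nr 489 741457 (.lg 0 false 2 79 79 31
  0 720) .out)) (.nr 493 16385 (.nr 491 1025 (.lg 0 true 1 67 67 31 0 720) (.nx 492 104033 (.lg 2
  false 1 61 61 31 14114 720) .out)) .out))) .out) .out) (.nx 505 832257 (.nr 504 1048577 (.nr 497
  158 .s1 (.nx 500 13005 (.nx 498 257 (.l1 (.ls 67 29 421)) (.nr 499 741457 (.lg 0 true 1 83 83 19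
  0 720) .out)) (.nr 503 16385 (.nr 501 1025 (.lg 0 false 1 61 61 19 0 720) (.nx 502 104033 (.lg 2
  true 1 53 53 19 14114 144) .out)) .out))) .out) .out))) (.na 516 162 (.nx 515 832257 (.nr 514
  1048577 (.nr 507 159 .s1 (.nx 510 13005 (.nx 508 257 (.l1 (.ls 71 23 418)) (.nr 509 741457 (.lg 0
  false 1 79 79 19 0 72) .out)) (.nr 513 16385 (.nr 511 1025 (.lg 0 true 1 67 67 19 0 72) (.nx 512
  104033 (.lg 2 false 1 61 61 19 14114 72) .out)) .out))) .out) .out) (.na 526 165 (.nx 525 832257
  (.nr 524 1048577 (.nr 517 162 .s1 (.nx 518 257 (.l1 (.ls 67 31 410)) (.nr 523 741457 (.nx 519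
  13005 (.lg 0 true 1 79 79 23 0 720) (.nr 522 16385 (.nr 520 1025 (.lg 0 false 1 61 61 23 0 720)
  (.nx 521 104033 (.lg 2 false 1 53 53 23 14114 144) .out)) .out)) .out))) .out) .out) (.nx 535
  832257 (.nr 534 1048577 (.nr 527 165 .s1 (.nx 532 104033 (.nx 530 13005 (.nx 528 257 (.l1 (.ls 79
  31 403)) (.nr 529 741457 (.lg 0 false 1 89 89 29 0 3960) .out)) (.nr 531 16385 (.lg 0 true 1 73
  79 29 0 3960) .out)) (.nr 533 1025 (.lg 0 true 1 71 71 29 0 3960) .out))) .out) .out))))))) (.na
  692 241 (.na 590 198 (.na 576 182 (.na 555 174 (.na 545 170 (.nx 544 832257 (.nr 543 1048577 (.nr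
  537 166 .s1 (.nx 538 257 (.l1 (.ls 67 29 400)) (.nr 542 741457 (.nr 540 16385 (.lg 0 true 2 73 73
  23 0 144) (.nx 541 13005 (.lg 0 true 1 83 83 19 0 720) .out)) .out))) .out) .out) (.nx 554 832257
  (.nr 553 1048577 (.nr 546 170 .s1 (.nx 549 13005 (.nx 547 257 (.l1 (.ls 73 37 391)) (.nr 548
  741457 (.lg 0 true 1 83 83 31 0 720) .out)) (.nr 552 16385 (.nr 550 1025 (.lg 0 true 1 67 67 31 0
  720) (.nx 551 104033 (.lg 2 false 1 61 61 31 14114 720) .out)) .out))) .out) .out)) (.na 565 177
  (.nx 564 832257 (.nr 563 1048577 (.nr 556 174 .s1 (.nx 559 13005 (.nx 557 257 (.l1 (.ls 73 37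
  382)) (.nr 558 741457 (.lg 0 false 1 83 83 23 0 144) .out)) (.nr 562 16385 (.nr 560 1025 (.lg 0
  true 1 67 67 23 0 144) (.nx 561 104033 (.lg 2 false 1 61 61 23 14114 144) .out)) .out))) .out)
  .out) (.na 575 181 (.nx 574 832257 (.nr 573 1048577 (.nr 566 177 .s1 (.nx 569 13005 (.nx 567 257
  (.l1 (.ls 71 23 376)) (.nr 568 741457 (.lg 0 false 1 79 79 19 0 72) .out)) (.nr 572 16385 (.nr
  570 1025 (.lg 0 true 1 61 61 19 0 72) (.nx 571 104033 (.lg 2 false 1 53 53 19 14114 72) .out))
  .out))) .out) .out) (.lg 0 false 1 0 0 16 0 24)))) (.na 587 191 (.na 577 187 .ne (.nx 586 832257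
  (.nr 585 1048577 (.nr 578 187 .s1 (.nx 579 257 (.l1 (.ls 73 29 356)) (.nr 584 741457 (.nx 580
  13005 (.lg 0 true 1 83 83 23 0 3960) (.nr 583 16385 (.nr 581 1025 (.lg 0 true 1 67 67 23 0 792)
  (.nx 582 104033 (.lg 2 true 1 61 61 23 14114 792) .out)) .out)) .out))) .out) .out)) (.na 588 193
  (.lg 0 false 1 0 0 16 0 24) (.na 589 197 (.lg 0 false 1 0 0 16 0 24) (.lg 0 false 1 0 0 16 0
  24))))) (.na 640 223 (.na 610 213 (.na 600 207 (.nx 599 832257 (.nr 598 1048577 (.nr 591 198 .s1
  (.nx 592 257 (.l1 (.ls 73 37 336)) (.nr 597 741457 (.nx 593 13005 (.lg 0 true 1 83 83 31 0 7920)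
  (.nr 596 16385 (.nr 594 1025 (.lg 0 true 1 67 67 31 0 1584) (.nx 595 104033 (.lg 2 false 1 61 61
  31 14114 1584) .out)) .out)) .out))) .out) .out) (.nx 609 832257 (.nr 608 1048577 (.nr 601 207
  .s1 (.nx 604 13005 (.nx 602 257 (.l1 (.ls 71 19 322)) (.nr 603 741457 (.lg 0 false 1 79 79 19 0
  72) .out)) (.nr 607 16385 (.nr 605 1025 (.lg 0 true 1 61 61 19 0 72) (.nx 606 104033 (.lg 2 false
  1 59 59 19 14114 72) .out)) .out))) .out) .out)) (.na 620 219 (.nx 619 832257 (.nr 618 1048577
  (.nr 611 213 .s1 (.nx 614 13005 (.nx 612 257 (.l1 (.ls 67 23 313)) (.nr 613 741457 (.lg 0 false 1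
  79 79 19 0 72) .out)) (.nr 617 16385 (.nr 615 1025 (.lg 0 true 1 59 59 19 0 72) (.nx 616 104033
  (.lg 2 false 1 53 53 19 14114 72) .out)) .out))) .out) .out) (.na 630 222 (.nx 629 832257 (.nr
  628 1048577 (.nr 621 219 .s1 (.nx 624 13005 (.nx 622 257 (.l1 (.ls 67 23 304)) (.nr 623 741457
  (.lg 0 false 1 79 79 19 0 72) .out)) (.nr 627 16385 (.nr 625 1025 (.lg 0 true 1 59 59 19 0 72)
  (.nx 626 104033 (.lg 2 true 1 53 53 19 14114 72) .out)) .out))) .out) .out) (.nx 639 832257 (.nr
  638 1048577 (.nr 631 222 .s1 (.nx 634 13005 (.nx 632 257 (.l1 (.ls 73 31 300)) (.nr 633 741457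
  (.lg 0 false 1 79 79 31 0 144) .out)) (.nr 637 16385 (.nr 635 1025 (.lg 0 true 1 67 67 31 0 144)
  (.nx 636 104033 (.lg 2 true 1 61 61 31 14114 144) .out)) .out))) .out) .out)))) (.na 666 229 (.na
  648 225 (.nx 647 832257 (.nr 646 1048577 (.nr 641 223 .s1 (.nx 642 257 (.l1 (.ls 59 19 299)) (.nr
  645 741457 (.nr 643 16385 (.lg 0 false 1 71 71 16 0 72) (.nx 644 13005 (.lg 0 true 1 71 71 16 0
  360) .out)) .out))) .out) .out) (.na 658 226 (.nx 657 832257 (.nr 656 1048577 (.nr 649 225 .s1
  (.nx 652 13005 (.nx 650 257 (.l1 (.ls 61 29 296)) (.nr 651 741457 (.lg 0 false 1 73 73 23 0 360)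
  .out)) (.nr 655 16385 (.nr 653 1025 (.lg 0 true 1 59 59 23 0 360) (.nx 654 104033 (.lg 2 true 1
  53 53 23 14114 360) .out)) .out))) .out) .out) (.nx 665 832257 (.nr 664 1048577 (.nr 659 226 .s1
  (.nx 660 257 (.l1 (.ls 61 29 295)) (.nr 663 741457 (.nr 661 16385 (.lg 0 false 1 73 73 23 0 144)
  (.nx 662 13005 (.lg 0 true 1 73 73 23 0 720) .out)) .out))) .out) .out))) (.na 674 230 (.nx 673
  832257 (.nr 672 1048577 (.nr 667 229 .s1 (.nx 668 257 (.l1 (.ls 61 19 291)) (.nr 671 741457 (.nr
  669 16385 (.lg 0 false 1 73 73 17 0 72) (.nx 670 13005 (.lg 0 true 1 71 71 17 0 72) .out))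
  .out))) .out) .out) (.na 684 239 (.nx 683 832257 (.nr 682 1048577 (.nr 675 230 .s1 (.nx 678 13005
  (.nx 676 257 (.l1 (.ls 71 37 290)) (.nr 677 741457 (.lg 0 false 1 79 79 31 0 720) .out)) (.nr 681
  16385 (.nr 679 1025 (.lg 0 true 1 61 61 31 0 720) (.nx 680 104033 (.lg 2 false 1 61 61 31 14114
  720) .out)) .out))) .out) .out) (.nx 691 832257 (.nr 690 1048577 (.nr 685 239 .s1 (.nx 688 13005
  (.nx 686 257 (.l1 (.ls 59 19 279)) (.nr 687 741457 (.lg 0 true 1 71 71 17 0 360) .out)) (.nr 689
  16385 (.lg 0 false 1 71 71 17 0 72) .out))) .out) .out)))))) (.na 4135 2048 (.na 720 256 (.na 701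
  250 (.na 693 242 (.lg 0 false 1 0 0 16 0 24) (.nx 700 832257 (.nr 699 1048577 (.nr 694 242 .s1
  (.nx 695 257 (.l1 (.ls 67 31 275)) (.nr 698 741457 (.nr 696 16385 (.lg 0 false 1 79 79 29 0 7920)
  (.nx 697 13005 (.lg 0 true 1 73 73 29 0 1584) .out)) .out))) .out) .out)) (.na 709 251 (.nx 708
  832257 (.nr 707 1048577 (.nr 702 250 .s1 (.nx 703 257 (.l1 (.ls 67 31 267)) (.nr 706 741457 (.nr
  704 16385 (.lg 0 false 1 79 79 29 0 720) (.nx 705 13005 (.lg 0 true 1 73 73 29 0 720) .out))
  .out))) .out) .out) (.na 710 255 (.lg 0 false 1 0 0 16 0 24) (.nx 719 832257 (.nr 718 1048577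
  (.nr 711 255 .s1 (.nx 712 257 (.l1 (.ls 73 31 262)) (.nr 717 741457 (.nx 715 104033 (.nx 713
  13005 (.lg 0 false 1 83 83 31 0 360) (.nr 714 16385 (.lg 0 true 1 71 73 31 0 360) .out)) (.nr 716
  1025 (.lg 0 true 1 67 67 31 0 360) .out)) .out))) .out) .out)))) (.na 2077 725 (.na 721 257 .ne
  (.na 1441 512 (.nx 1440 832257 (.nr 1439 1482912 (.nr 722 257 .s1 (.nx 872 150 (.nx 871 149 (.nr
  870 4427 (.lx (.lp 37 19 129)) (.l1 .sk)) (.l1 .sk)) (.nx 927 205 (.lx (.lp 79 19 129)) (.nr 1438
  1048577 (.nr 1182 32769 (.la (.lg 0 true 1 73 73 23 0)) (.nx 1437 10323 (.la (.lg 0 false 1 71 71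
  23 0)) .out)) .out)))) .out) .out) (.nx 2076 832257 (.nr 2075 1482912 (.nr 1442 512 .s1 (.nx 1592
  150 (.nx 1591 149 (.nr 1590 6269 (.lx (.lp 37 19 182)) (.l1 .sk)) (.l1 .sk)) (.nx 1647 205 (.lx
  (.lp 73 19 182)) (.nr 2074 1048577 (.nx 1860 22297 (.la (.lg 0 false 1 71 71 29 0)) (.nr 2073
  32769 (.la (.lg 2 true 1 61 61 29 121100)) .out)) .out)))) .out) .out))) (.na 2679 1024 (.nx 2678
  10323 (.nr 2677 1048577 (.nr 2078 725 .s1 (.nx 2377 2049 (.la (.ls 61 37 5793)) (.nr 2676 16385
  (.la (.lg 0 true 1 37 37 29 0)) .out))) .out) .out) (.na 3533 1449 (.nx 3532 10323 (.nr 3531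
  1048577 (.nr 2680 1024 .s1 (.nx 3105 2582 (.la (.ls 61 41 6513)) (.nr 3530 16385 (.la (.lg 0
  false 1 31 31 31 0)) .out))) .out) .out) (.nx 4134 2582 (.nr 4133 524289 (.nr 3534 1449 .s1 (.la
  (.ls 53 37 4603))) .out) .out))))) (.na 10928 16384 (.na 6489 4096 (.na 5137 2897 (.nx 5136 3252
  (.nr 5135 524289 (.nr 4136 2048 .s1 (.nx 4285 149 (.nr 4284 25048 (.lx (.lp 41 29 725)) (.l1
  .sk)) (.nx 4286 150 (.l1 .sk) (.la (.ls 53 41 5155))))) .out) .out) (.nx 6488 2582 (.nr 6487
  262145 (.nr 5138 2897 .s1 (.nx 5287 149 (.nr 5286 35414 (.lx (.lp 41 29 1025)) (.l1 .sk)) (.nx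
  5288 150 (.l1 .sk) (.la (.ls 47 37 2296))))) .out) .out)) (.na 8339 5793 (.nx 8338 2582 (.nr 8337
  262145 (.nr 6490 4096 .s1 (.nx 6639 149 (.nr 6638 50086 (.lx (.lp 37 37 1449)) (.l1 .sk)) (.nx
  6640 150 (.l1 .sk) (.la (.ls 43 37 1625))))) .out) .out) (.na 9633 8192 (.nx 9632 1292 (.nr 9631
  65537 (.nr 8340 5793 .s1 (.lx (.lp 37 37 2049))) .out) .out) (.nx 10927 1292 (.nr 10926 131073
  (.nr 9634 8192 .s1 (.nx 9838 205 (.lx (.lp 41 41 4097)) (.nr 10925 65537 (.lx (.lp 37 41 4097))
  .out))) .out) .out)))) (.na 14279 131072 (.na 12223 32768 (.nx 12222 1292 (.nr 12221 262145 (.nr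
  10929 16384 .s1 (.nx 11133 205 (.lx (.lp 41 43 8193)) (.nr 12220 131073 (.lx (.lp 37 43 8193))
  .out))) .out) .out) (.na 13251 65536 (.nx 13250 1025 (.nr 13249 262145 (.nr 12224 32768 .s1 (.nx
  12428 205 (.lx (.lp 16 0 16385)) (.nr 13248 131073 (.lx (.lp 31 47 16385)) .out))) .out) .out)
  (.nx 14278 1025 (.nr 14277 262145 (.nr 13252 65536 .s1 (.nx 13575 324 (.lx (.lp 16 47 32769))
  (.nr 14276 131073 (.lx (.lp 29 53 32769)) .out))) .out) .out))) (.na 14281 262144 (.nx 14280 324
  (.l1 .sk) .out) (.na 14283 524289 (.nx 14282 205 (.l1 .sk) .out) .out)))))))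

def T124_1 : Ph :=
  (.na 388 6 (.na 207 3 (.na 143 2 (.nx 142 660563 (.nr 141 1482912 (.nx 64 1292 (.nx 2 39 (.nr 1 7
  (.lg 0 true 1 37 37 5 0 9360) (.l1 .sk)) (.nx 3 40 (.l1 .sk) (.nr 35 110219 (.nr 23 38969 (.lg 0
  false 20 83 83 11 0 3120) (.nx 34 205 (.lg 0 false 11 79 79 9 0 3432) .out)) (.nx 63 103 (.lg 0
  false 28 83 83 11 0 4368) .out)))) (.nr 140 16385 (.nx 111 104033 (.nr 84 331 (.lg 0 true 20 79
  79 11 0 3120) (.nx 95 4097 (.lg 1 false 11 97 97 9 9672 102960) (.nr 110 13779 (.nr 99 682 (.lg 2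
  false 4 73 73 7 6129 624) (.lg 2 false 11 97 101 9 2975 720720)) .out))) (.nr 139 78 (.lg 0 true
  28 79 79 11 0 4368) .out)) .out)) .out) .out) (.nx 206 660563 (.nr 205 623489 (.nx 146 40 (.nx
  145 39 (.nr 144 12 (.lg 0 true 1 31 31 5 0 102960) (.l1 .sk)) (.l1 .sk)) (.nx 190 104033 (.nr 167
  27556 (.nx 153 5182 (.lg 0 true 7 89 89 9 0 4368) (.nr 160 613 (.lg 0 false 7 83 83 9 0 4368)
  (.lg 2 false 7 101 101 9 4051 720720))) (.nx 189 647 (.nr 174 131073 (.lg 0 false 7 89 89 9 0
  4368) (.nx 188 103 (.lg 0 false 14 79 79 9 0 4368) .out)) .out)) (.nr 204 154 (.lg 0 true 14 83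
  83 9 0 4368) .out))) .out) .out)) (.na 282 4 (.nx 281 660563 (.nr 280 881745 (.nx 210 40 (.nx 209
  39 (.nr 208 17 (.lg 0 true 1 29 29 5 0 102960) (.l1 .sk)) (.l1 .sk)) (.nr 265 311745 (.nr 250
  38969 (.nx 238 330282 (.nx 217 3759 (.lg 0 true 7 83 83 7 0 6552) (.nr 231 716 (.lg 0 true 14 83
  83 13 0 13104) (.lg 2 false 7 101 101 7 8996 65520))) (.nr 249 78 (.lg 0 true 11 71 71 7 0 10296)
  .out)) (.nx 264 647 (.lg 0 false 14 89 89 13 0 65520) .out)) (.nx 279 103 (.lg 0 false 14 73 73
  13 0 13104) .out))) .out) .out) (.na 337 5 (.nx 336 660563 (.nr 335 1246976 (.nx 285 40 (.nx 284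
  39 (.nr 283 22 (.lg 0 true 1 23 23 9 0 9360) (.l1 .sk)) (.l1 .sk)) (.nr 327 440873 (.nx 300 6503
  (.nr 292 55110 (.lg 0 true 7 89 89 11 0 4368) (.nx 299 647 (.lg 0 false 7 89 89 11 0 4368) .out))
  (.nr 326 19485 (.nx 318 330282 (.nr 311 618 (.lg 0 true 11 83 83 13 0 6864) (.nr 313 2458 (.lg 2
  false 2 83 83 9 10422 9360) (.lg 2 false 5 83 83 11 2621 9360))) (.nr 325 78 (.lg 0 true 7 73 73
  11 0 4368) .out)) .out)) (.nx 334 103 (.lg 0 false 7 73 73 11 0 4368) .out))) .out) .out) (.nx
  387 660563 (.nr 386 1482912 (.nx 340 40 (.nx 339 39 (.nr 338 26 (.lg 0 true 1 23 23 9 0 9360)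
  (.l1 .sk)) (.l1 .sk)) (.nx 378 330282 (.nx 360 6503 (.nr 347 65537 (.lg 0 false 7 89 89 16 0
  10920) (.nx 359 647 (.nr 351 185365 (.lg 0 false 4 83 83 13 0 3120) (.nx 358 103 (.lg 0 false 7
  73 73 16 0 10920) .out)) .out)) (.nr 377 23172 (.nr 373 2739 (.nr 371 659 (.lg 0 true 11 79 79 16
  0 17160) (.lg 2 false 2 83 83 11 9774 9360)) (.lg 2 false 4 83 83 13 2715 3120)) .out)) (.nr 385
  78 (.lg 0 true 7 71 71 16 0 10920) .out))) .out) .out)))) (.na 431 8 (.na 430 7 (.nx 429 660563
  (.nr 428 220437 (.nx 391 40 (.nx 390 39 (.nr 389 31 (.l1 (.ls 17 29 256)) (.l1 .sk)) (.l1 .sk))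
  (.nx 410 6503 (.nr 402 77937 (.lg 0 false 11 89 89 13 0 102960) (.nx 409 647 (.lg 0 false 7 79 79
  13 0 13104) .out)) (.nr 427 27556 (.nr 421 704 (.lg 0 true 11 83 83 13 0 20592) (.nx 426 330282
  (.lg 2 false 5 89 89 11 9149 9360) .out)) .out))) .out) .out) .ne) (.na 475 9 (.nx 474 660563
  (.nr 473 623489 (.nr 432 6 .s1 (.nx 438 103 (.nx 434 39 (.nr 433 40 (.l1 (.ls 29 23 193)) (.l1
  .sk)) (.nx 435 40 (.l1 .sk) (.nr 436 370729 (.l1 (.ls 89 37 1129)) (.lg 0 false 2 73 73 11 0
  624)))) (.nr 472 131073 (.nr 469 110219 (.nx 465 330282 (.nr 457 38969 (.nr 450 2242 (.nx 439 761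
  (.lg 0 true 1 61 61 11 0 624) (.nr 448 537 (.nx 441 8470 (.nr 440 263 (.lg 0 false 1 67 67 11 0
  624) (.lg 2 true 1 53 53 11 629 624)) (.lg 0 true 7 79 79 13 0 4368)) (.lg 2 false 2 73 73 11
  11994 624))) (.nx 452 5700 (.lg 0 false 2 101 103 11 0 720720) (.lg 2 true 5 73 73 13 5205
  3120))) (.nx 464 41287 (.lg 0 false 7 101 107 13 0 720720) .out)) (.nr 468 129 (.lg 0 true 3 79
  79 13 0 1872) .out)) (.nx 470 406 .out (.nx 471 2582 (.lg 0 true 1 97 97 11 0 9360) .out)))
  .out))) .out) .out) (.na 476 10 (.lg 0 false 1 0 0 7 0 24) (.nx 501 660563 (.nr 500 623489 (.nr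
  477 8 .s1 (.nx 480 40 (.nx 479 39 (.nr 478 49 (.lg 0 true 1 17 17 11 0 9360) (.l1 .sk)) (.l1
  .sk)) (.nx 489 6503 (.nx 481 103 (.l1 (.ls 83 37 903)) (.nr 488 131073 (.lg 0 false 7 89 89 13 0
  21840) .out)) (.nr 499 46342 (.nr 496 154 (.lg 0 true 7 71 71 13 0 21840) (.nx 498 41287 (.lg 1
  false 2 89 89 11 5425 9360) .out)) .out)))) .out) .out)))))

def T124_2 : Ph :=
  (.na 123 257 (.na 55 239 (.na 24 232 (.na 8 227 (.nx 7 832257 (.nr 6 1048577 (.nr 1 223 .s1 (.nx
  2 257 (.l1 (.ls 79 19 299)) (.nr 5 741457 (.nr 3 16385 (.lg 0 false 1 73 73 16 0 24) (.nx 4 13005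
  (.lg 0 true 1 71 71 16 0 24) .out)) .out))) .out) .out) (.na 16 229 (.nx 15 832257 (.nr 14
  1048577 (.nr 9 227 .s1 (.nx 10 257 (.l1 (.ls 59 19 293)) (.nr 13 741457 (.nr 11 16385 (.lg 0
  false 1 71 71 17 0 24) (.nx 12 13005 (.lg 0 true 1 67 67 17 0 24) .out)) .out))) .out) .out) (.nx
  23 832257 (.nr 22 1048577 (.nr 17 229 .s1 (.nx 18 257 (.l1 (.ls 73 19 291)) (.nr 21 741457 (.nr
  19 16385 (.lg 0 false 1 73 73 17 0 24) (.nx 20 13005 (.lg 0 true 1 71 71 17 0 24) .out)) .out)))
  .out) .out))) (.na 35 235 (.na 34 233 (.nx 33 832257 (.nr 32 1048577 (.nr 25 232 .s1 (.nx 30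
  104033 (.nx 26 257 (.l1 (.ls 73 23 287)) (.nr 29 741457 (.nx 27 13005 (.lg 0 false 1 83 83 23 0
  48) (.nr 28 16385 (.lg 0 true 1 73 73 23 0 48) .out)) .out)) (.nr 31 1025 (.lg 0 true 1 67 67 23
  0 48) .out))) .out) .out) (.lg 0 false 1 0 0 16 0 24)) (.na 45 236 (.nx 44 832257 (.nr 43 1048577
  (.nr 36 235 .s1 (.nx 39 13005 (.nx 37 257 (.l1 (.ls 67 19 284)) (.nr 38 741457 (.lg 0 false 1 73
  73 19 0 120) .out)) (.nr 42 16385 (.nr 40 1025 (.lg 0 true 1 59 59 19 0 120) (.nx 41 104033 (.lg
  2 true 1 53 53 19 14497 120) .out)) .out))) .out) .out) (.nx 54 832257 (.nr 53 1048577 (.nr 46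
  236 .s1 (.nx 49 13005 (.nx 47 257 (.l1 (.ls 53 29 282)) (.nr 48 741457 (.lg 0 false 1 79 79 23 0
  240) .out)) (.nr 52 16385 (.nr 50 1025 (.lg 0 true 1 61 61 23 0 48) (.nx 51 104033 (.lg 2 true 1
  53 53 23 14497 240) .out)) .out))) .out) .out)))) (.na 89 250 (.na 71 242 (.na 63 241 (.nx 62
  832257 (.nr 61 1048577 (.nr 56 239 .s1 (.nx 57 257 (.l1 (.ls 79 19 279)) (.nr 60 741457 (.nr 58
  16385 (.lg 0 false 1 73 73 17 0 24) (.nx 59 13005 (.lg 0 true 1 71 71 17 0 24) .out)) .out)))
  .out) .out) (.nx 70 832257 (.nr 69 1048577 (.nr 64 241 .s1 (.nx 65 257 (.l1 (.ls 71 19 277)) (.nr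
  68 741457 (.nr 66 16385 (.lg 0 false 1 71 71 17 0 24) (.nx 67 13005 (.lg 0 true 1 67 67 17 0 24)
  .out)) .out))) .out) .out)) (.na 79 248 (.nx 78 832257 (.nr 77 1048577 (.nr 72 242 .s1 (.nx 73
  257 (.l1 (.ls 61 31 275)) (.nr 76 741457 (.nr 74 16385 (.lg 0 false 1 73 73 29 0 2640) (.nx 75
  13005 (.lg 0 true 1 73 73 29 0 2640) .out)) .out))) .out) .out) (.nx 88 832257 (.nr 87 1048577
  (.nr 80 248 .s1 (.nx 85 104033 (.nx 83 13005 (.nx 81 257 (.l1 (.ls 73 29 269)) (.nr 82 741457
  (.lg 0 false 1 83 83 29 0 720) .out)) (.nr 84 16385 (.lg 0 true 1 73 73 29 0 720) .out)) (.nr 86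
  1025 (.lg 0 true 1 61 67 29 0 48) .out))) .out) .out))) (.na 105 254 (.na 97 251 (.nx 96 832257
  (.nr 95 1048577 (.nr 90 250 .s1 (.nx 91 257 (.l1 (.ls 61 31 267)) (.nr 94 741457 (.nr 92 16385
  (.lg 0 false 1 73 73 29 0 240) (.nx 93 13005 (.lg 0 true 1 71 71 29 0 240) .out)) .out))) .out)
  .out) (.nx 104 832257 (.nr 103 1048577 (.nr 98 251 .s1 (.nx 99 257 (.l1 (.ls 71 19 266)) (.nr 102
  741457 (.nr 100 16385 (.lg 0 false 1 71 71 17 0 24) (.nx 101 13005 (.lg 0 true 1 71 71 17 0 240)
  .out)) .out))) .out) .out)) (.na 113 256 (.nx 112 832257 (.nr 111 1048577 (.nr 106 254 .s1 (.nx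
  107 257 (.l1 (.ls 61 29 263)) (.nr 110 741457 (.nr 108 16385 (.lg 0 false 1 71 71 23 0 48) (.nx
  109 13005 (.lg 0 true 1 71 71 23 0 240) .out)) .out))) .out) .out) (.nx 122 832257 (.nr 121
  1482912 (.nr 114 256 .s1 (.nx 117 13005 (.nx 115 205 (.l1 (.ls 79 23 167)) (.nr 116 1048577 (.lg
  0 false 1 73 73 29 0 48) .out)) (.nr 120 32769 (.nr 118 2049 (.lg 0 true 1 61 61 29 0 48) (.nx
  119 104033 (.lg 2 true 1 61 61 29 28860 48) .out)) .out))) .out) .out))))) (.na 7908 5793 (.na
  2935 1449 (.na 1479 725 (.na 843 512 (.nx 842 832257 (.nr 841 1482912 (.nr 124 257 .s1 (.nx 275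
  151 (.nr 274 4457 (.lx (.lp 43 19 129)) (.l1 .sk)) (.nx 276 152 (.l1 .sk) (.nx 329 205 (.lx (.lp
  83 19 129)) (.nr 840 1048577 (.nr 584 32769 (.la (.lg 0 true 1 73 73 23 0)) (.nx 839 10323 (.la
  (.lg 0 false 1 71 71 23 0)) .out)) .out))))) .out) .out) (.nx 1478 832257 (.nr 1477 1482912 (.nr
  844 512 .s1 (.nx 995 151 (.nr 994 6311 (.lx (.lp 43 23 182)) (.l1 .sk)) (.nx 996 152 (.l1 .sk)
  (.nx 1049 205 (.lx (.lp 83 19 182)) (.nr 1476 1048577 (.nx 1262 22297 (.la (.lg 0 false 1 71 71
  29 0)) (.nr 1475 32769 (.la (.lg 2 true 1 59 59 29 122726)) .out)) .out))))) .out) .out)) (.na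
  2081 1024 (.nx 2080 10323 (.nr 2079 1048577 (.nr 1480 725 .s1 (.nx 1779 2049 (.la (.ls 67 41
  5793)) (.nr 2078 16385 (.la (.lg 0 false 1 31 37 29 0)) .out))) .out) .out) (.nx 2934 10323 (.nr
  2933 1048577 (.nr 2082 1024 .s1 (.nx 2507 2582 (.la (.ls 67 41 6513)) (.nr 2932 16385 (.la (.ls
  31 53 97559)) .out))) .out) .out))) (.na 4541 2897 (.na 3537 2048 (.nx 3536 2582 (.nr 3535 524289
  (.nr 2936 1449 .s1 (.la (.ls 59 37 4603))) .out) .out) (.nx 4540 3252 (.nr 4539 524289 (.nr 3538
  2048 .s1 (.nx 3689 151 (.nr 3688 25215 (.lx (.lp 43 29 725)) (.l1 .sk)) (.nx 3690 152 (.l1 .sk)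
  (.la (.ls 61 41 5155))))) .out) .out)) (.na 5895 4096 (.nx 5894 2582 (.nr 5893 262145 (.nr 4542
  2897 .s1 (.nx 4693 151 (.nr 4692 35650 (.lx (.lp 43 31 1025)) (.l1 .sk)) (.nx 4694 152 (.l1 .sk)
  (.la (.ls 53 37 2296))))) .out) .out) (.nx 7907 2582 (.nr 7906 262145 (.nr 5896 4096 .s1 (.nx
  6209 313 (.nx 6047 151 (.nr 6046 50420 (.lx (.lp 43 31 1449)) (.l1 .sk)) (.nx 6048 152 (.l1 .sk)
  (.lx (.lp 53 31 1449)))) (.la (.ls 53 37 1606)))) .out) .out)))) (.na 12820 65536 (.na 10497
  16384 (.na 9202 8192 (.nx 9201 1292 (.nr 9200 65537 (.nr 7909 5793 .s1 (.lx (.lp 43 37 2049)))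
  .out) .out) (.nx 10496 1292 (.nr 10495 131073 (.nr 9203 8192 .s1 (.nx 9407 205 (.lx (.lp 43 37
  4097)) (.nr 10494 65537 (.lx (.lp 43 41 4097)) .out))) .out) .out)) (.na 11792 32768 (.nx 11791
  1292 (.nr 11790 262145 (.nr 10498 16384 .s1 (.nx 10702 205 (.lx (.lp 41 41 8193)) (.nr 11789
  131073 (.lx (.lp 43 43 8193)) .out))) .out) .out) (.nx 12819 1025 (.nr 12818 262145 (.nr 11793
  32768 .s1 (.nx 11997 205 (.lx (.lp 16 0 16385)) (.nr 12817 131073 (.lx (.lp 41 47 16385)) .out)))
  .out) .out))) (.na 13850 262144 (.na 13848 131072 (.nx 13847 1025 (.nr 13846 262145 (.nr 12821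
  65536 .s1 (.nx 13144 324 (.lx (.lp 43 47 32769)) (.nr 13845 131073 (.lx (.lp 37 53 32769))
  .out))) .out) .out) (.nx 13849 324 (.l1 .sk) .out)) (.na 13852 524289 (.nx 13851 205 (.l1 .sk)
  .out) .out)))))

theorem c124 :
    OkQ ckI L8 149 32 1099511627776 0 34359738368 1 1099511627776 ∧
    OkQ ckI L5 39 1 11 0 34359738368 1 1099511627776 ∧
    OkQ ckI L8 151 223 1099511627776 0 34359738368 1 1099511627776 := by
  refine ⟨?_, ?_, ?_⟩
  · refine fin 72 14284 T124_0 ?_
    refine jn 6 (by decide +kernel) ?_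
    refine jn 8 (by decide +kernel) ?_
    refine jn 10 (by decide +kernel) ?_
    refine jn 12 (by decide +kernel) ?_
    refine jn 15 (by decide +kernel) ?_
    refine jn 19 (by decide +kernel) ?_
    refine jn 21 (by decide +kernel) ?_
    refine jn 36 (by decide +kernel) ?_
    refine jn 43 (by decide +kernel) ?_
    refine jn 57 (by decide +kernel) ?_
    refine jn 63 (by decide +kernel) ?_
    refine jn 74 (by decide +kernel) ?_
    refine jn 81 (by decide +kernel) ?_
    refine jn 94 (by decide +kernel) ?_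
    refine jn 100 (by decide +kernel) ?_
    refine jn 113 (by decide +kernel) ?_
    refine jn 119 (by decide +kernel) ?_
    refine jn 129 (by decide +kernel) ?_
    refine jn 134 (by decide +kernel) ?_
    refine jn 146 (by decide +kernel) ?_
    refine jn 151 (by decide +kernel) ?_
    refine jn 164 (by decide +kernel) ?_
    refine jn 175 (by decide +kernel) ?_
    refine jn 186 (by decide +kernel) ?_
    refine jn 191 (by decide +kernel) ?_
    refine jn 194 (by decide +kernel) ?_
    refine jn 204 (by decide +kernel) ?_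
    refine jn 207 (by decide +kernel) ?_
    refine jn 208 (by decide +kernel) ?_
    refine jn 210 (by decide +kernel) ?_
    refine jn 222 (by decide +kernel) ?_
    refine jn 232 (by decide +kernel) ?_
    refine jn 234 (by decide +kernel) ?_
    refine jn 235 (by decide +kernel) ?_
    refine jn 236 (by decide +kernel) ?_
    refine jn 237 (by decide +kernel) ?_
    refine jn 238 (by decide +kernel) ?_
    refine jn 239 (by decide +kernel) ?_
    refine jn 252 (by decide +kernel) ?_
    refine jn 268 (by decide +kernel) ?_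
    refine jn 280 (by decide +kernel) ?_
    refine jn 283 (by decide +kernel) ?_
    refine jn 286 (by decide +kernel) ?_
    refine jn 300 (by decide +kernel) ?_
    refine jn 310 (by decide +kernel) ?_
    refine jn 313 (by decide +kernel) ?_
    refine jn 324 (by decide +kernel) ?_
    refine jn 328 (by decide +kernel) ?_
    refine jn 341 (by decide +kernel) ?_
    refine jn 352 (by decide +kernel) ?_
    refine jn 364 (by decide +kernel) ?_
    refine jn 371 (by decide +kernel) ?_
    refine jn 380 (by decide +kernel) ?_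
    refine jn 394 (by decide +kernel) ?_
    refine jn 407 (by decide +kernel) ?_
    refine jn 418 (by decide +kernel) ?_
    refine jn 427 (by decide +kernel) ?_
    refine jn 437 (by decide +kernel) ?_
    refine jn 448 (by decide +kernel) ?_
    refine jn 458 (by decide +kernel) ?_
    refine jn 469 (by decide +kernel) ?_
    refine jn 489 (by decide +kernel) ?_
    refine jn 499 (by decide +kernel) ?_
    refine jn 509 (by decide +kernel) ?_
    refine jn 519 (by decide +kernel) ?_
    refine jn 529 (by decide +kernel) ?_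
    refine jn 533 (by decide +kernel) ?_
    refine jn 548 (by decide +kernel) ?_
    refine jn 558 (by decide +kernel) ?_
    refine jn 568 (by decide +kernel) ?_
    refine jn 580 (by decide +kernel) ?_
    refine jn 593 (by decide +kernel) ?_
    refine jn 603 (by decide +kernel) ?_
    refine jn 613 (by decide +kernel) ?_
    refine jn 623 (by decide +kernel) ?_
    refine jn 633 (by decide +kernel) ?_
    refine jn 644 (by decide +kernel) ?_
    refine jn 654 (by decide +kernel) ?_
    refine jn 670 (by decide +kernel) ?_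
    refine jn 680 (by decide +kernel) ?_
    refine jn 697 (by decide +kernel) ?_
    refine jn 712 (by decide +kernel) ?_
    refine jn 714 (by decide +kernel) ?_
    refine jn 752 (by decide +kernel) ?_
    refine jn 833 (by decide +kernel) ?_
    refine jn 909 (by decide +kernel) ?_
    refine jn 931 (by decide +kernel) ?_
    refine jn 940 (by decide +kernel) ?_
    refine jn 948 (by decide +kernel) ?_
    refine jn 960 (by decide +kernel) ?_
    refine jn 968 (by decide +kernel) ?_
    refine jn 975 (by decide +kernel) ?_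
    refine jn 976 (by decide +kernel) ?_
    refine jn 988 (by decide +kernel) ?_
    refine jn 989 (by decide +kernel) ?_
    refine jn 1000 (by decide +kernel) ?_
    refine jn 1001 (by decide +kernel) ?_
    refine jn 1024 (by decide +kernel) ?_
    refine jn 1036 (by decide +kernel) ?_
    refine jn 1043 (by decide +kernel) ?_
    refine jn 1068 (by decide +kernel) ?_
    refine jn 1084 (by decide +kernel) ?_
    refine jn 1087 (by decide +kernel) ?_
    refine jn 1096 (by decide +kernel) ?_
    refine jn 1108 (by decide +kernel) ?_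
    refine jn 1119 (by decide +kernel) ?_
    refine jn 1124 (by decide +kernel) ?_
    refine jn 1144 (by decide +kernel) ?_
    refine jn 1156 (by decide +kernel) ?_
    refine jn 1165 (by decide +kernel) ?_
    refine jn 1168 (by decide +kernel) ?_
    refine jn 1176 (by decide +kernel) ?_
    refine jn 1180 (by decide +kernel) ?_
    refine jn 1183 (by decide +kernel) ?_
    refine jn 1187 (by decide +kernel) ?_
    refine jn 1203 (by decide +kernel) ?_
    refine jn 1215 (by decide +kernel) ?_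
    refine jn 1227 (by decide +kernel) ?_
    refine jn 1231 (by decide +kernel) ?_
    refine jn 1244 (by decide +kernel) ?_
    refine jn 1255 (by decide +kernel) ?_
    refine jn 1259 (by decide +kernel) ?_
    refine jn 1279 (by decide +kernel) ?_
    refine jn 1291 (by decide +kernel) ?_
    refine jn 1299 (by decide +kernel) ?_
    refine jn 1323 (by decide +kernel) ?_
    refine jn 1339 (by decide +kernel) ?_
    refine jn 1346 (by decide +kernel) ?_
    refine jn 1355 (by decide +kernel) ?_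
    refine jn 1372 (by decide +kernel) ?_
    refine jn 1379 (by decide +kernel) ?_
    refine jn 1399 (by decide +kernel) ?_
    refine jn 1411 (by decide +kernel) ?_
    refine jn 1420 (by decide +kernel) ?_
    refine jn 1426 (by decide +kernel) ?_
    refine jn 1435 (by decide +kernel) ?_
    refine jn 1488 (by decide +kernel) ?_
    refine jn 1657 (by decide +kernel) ?_
    refine jn 1665 (by decide +kernel) ?_
    refine jn 1684 (by decide +kernel) ?_
    refine jn 1690 (by decide +kernel) ?_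
    refine jn 1696 (by decide +kernel) ?_
    refine jn 1697 (by decide +kernel) ?_
    refine jn 1710 (by decide +kernel) ?_
    refine jn 1721 (by decide +kernel) ?_
    refine jn 1729 (by decide +kernel) ?_
    refine jn 1745 (by decide +kernel) ?_
    refine jn 1757 (by decide +kernel) ?_
    refine jn 1769 (by decide +kernel) ?_
    refine jn 1776 (by decide +kernel) ?_
    refine jn 1790 (by decide +kernel) ?_
    refine jn 1801 (by decide +kernel) ?_
    refine jn 1806 (by decide +kernel) ?_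
    refine jn 1813 (by decide +kernel) ?_
    refine jn 1825 (by decide +kernel) ?_
    refine jn 1844 (by decide +kernel) ?_
    refine jn 1870 (by decide +kernel) ?_
    refine jn 1878 (by decide +kernel) ?_
    refine jn 1897 (by decide +kernel) ?_
    refine jn 1903 (by decide +kernel) ?_
    refine jn 1909 (by decide +kernel) ?_
    refine jn 1913 (by decide +kernel) ?_
    refine jn 1925 (by decide +kernel) ?_
    refine jn 1938 (by decide +kernel) ?_
    refine jn 1945 (by decide +kernel) ?_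
    refine jn 1961 (by decide +kernel) ?_
    refine jn 1973 (by decide +kernel) ?_
    refine jn 1986 (by decide +kernel) ?_
    refine jn 1993 (by decide +kernel) ?_
    refine jn 2005 (by decide +kernel) ?_
    refine jn 2015 (by decide +kernel) ?_
    refine jn 2025 (by decide +kernel) ?_
    refine jn 2035 (by decide +kernel) ?_
    refine jn 2038 (by decide +kernel) ?_
    refine jn 2058 (by decide +kernel) ?_
    refine jn 2100 (by decide +kernel) ?_
    refine jn 2139 (by decide +kernel) ?_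
    refine jn 2168 (by decide +kernel) ?_
    refine jn 2218 (by decide +kernel) ?_
    refine jn 2244 (by decide +kernel) ?_
    refine jn 2286 (by decide +kernel) ?_
    refine jn 2343 (by decide +kernel) ?_
    refine jn 2377 (by decide +kernel) ?_
    refine jn 2402 (by decide +kernel) ?_
    refine jn 2438 (by decide +kernel) ?_
    refine jn 2463 (by decide +kernel) ?_
    refine jn 2494 (by decide +kernel) ?_
    refine jn 2522 (by decide +kernel) ?_
    refine jn 2537 (by decide +kernel) ?_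
    refine jn 2559 (by decide +kernel) ?_
    refine jn 2606 (by decide +kernel) ?_
    refine jn 2642 (by decide +kernel) ?_
    refine jn 2655 (by decide +kernel) ?_
    refine jn 2714 (by decide +kernel) ?_
    refine jn 2766 (by decide +kernel) ?_
    refine jn 2791 (by decide +kernel) ?_
    refine jn 2841 (by decide +kernel) ?_
    refine jn 2877 (by decide +kernel) ?_
    refine jn 2919 (by decide +kernel) ?_
    refine jn 2946 (by decide +kernel) ?_
    refine jn 2990 (by decide +kernel) ?_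
    refine jn 3018 (by decide +kernel) ?_
    refine jn 3075 (by decide +kernel) ?_
    refine jn 3116 (by decide +kernel) ?_
    refine jn 3154 (by decide +kernel) ?_
    refine jn 3191 (by decide +kernel) ?_
    refine jn 3203 (by decide +kernel) ?_
    refine jn 3231 (by decide +kernel) ?_
    refine jn 3254 (by decide +kernel) ?_
    refine jn 3276 (by decide +kernel) ?_
    refine jn 3302 (by decide +kernel) ?_
    refine jn 3328 (by decide +kernel) ?_
    refine jn 3347 (by decide +kernel) ?_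
    refine jn 3371 (by decide +kernel) ?_
    refine jn 3395 (by decide +kernel) ?_
    refine jn 3426 (by decide +kernel) ?_
    refine jn 3455 (by decide +kernel) ?_
    refine jn 3500 (by decide +kernel) ?_
    refine jn 3526 (by decide +kernel) ?_
    refine jn 3574 (by decide +kernel) ?_
    refine jn 3615 (by decide +kernel) ?_
    refine jn 3668 (by decide +kernel) ?_
    refine jn 3715 (by decide +kernel) ?_
    refine jn 3764 (by decide +kernel) ?_
    refine jn 3815 (by decide +kernel) ?_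
    refine jn 3867 (by decide +kernel) ?_
    refine jn 3924 (by decide +kernel) ?_
    refine jn 3972 (by decide +kernel) ?_
    refine jn 4026 (by decide +kernel) ?_
    refine jn 4086 (by decide +kernel) ?_
    refine jn 4136 (by decide +kernel) ?_
    refine jn 4312 (by decide +kernel) ?_
    refine jn 4371 (by decide +kernel) ?_
    refine jn 4428 (by decide +kernel) ?_
    refine jn 4495 (by decide +kernel) ?_
    refine jn 4560 (by decide +kernel) ?_
    refine jn 4628 (by decide +kernel) ?_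
    refine jn 4676 (by decide +kernel) ?_
    refine jn 4724 (by decide +kernel) ?_
    refine jn 4771 (by decide +kernel) ?_
    refine jn 4848 (by decide +kernel) ?_
    refine jn 4911 (by decide +kernel) ?_
    refine jn 4988 (by decide +kernel) ?_
    refine jn 5049 (by decide +kernel) ?_
    refine jn 5120 (by decide +kernel) ?_
    refine jn 5321 (by decide +kernel) ?_
    refine jn 5385 (by decide +kernel) ?_
    refine jn 5453 (by decide +kernel) ?_
    refine jn 5554 (by decide +kernel) ?_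
    refine jn 5624 (by decide +kernel) ?_
    refine jn 5733 (by decide +kernel) ?_
    refine jn 5805 (by decide +kernel) ?_
    refine jn 5897 (by decide +kernel) ?_
    refine jn 5990 (by decide +kernel) ?_
    refine jn 6082 (by decide +kernel) ?_
    refine jn 6149 (by decide +kernel) ?_
    refine jn 6233 (by decide +kernel) ?_
    refine jn 6306 (by decide +kernel) ?_
    refine jn 6393 (by decide +kernel) ?_
    refine jn 6461 (by decide +kernel) ?_
    refine jn 6654 (by decide +kernel) ?_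
    refine jn 6753 (by decide +kernel) ?_
    refine jn 6846 (by decide +kernel) ?_
    refine jn 6929 (by decide +kernel) ?_
    refine jn 7014 (by decide +kernel) ?_
    refine jn 7110 (by decide +kernel) ?_
    refine jn 7195 (by decide +kernel) ?_
    refine jn 7317 (by decide +kernel) ?_
    refine jn 7387 (by decide +kernel) ?_
    refine jn 7474 (by decide +kernel) ?_
    refine jn 7566 (by decide +kernel) ?_
    refine jn 7650 (by decide +kernel) ?_
    refine jn 7758 (by decide +kernel) ?_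
    refine jn 7842 (by decide +kernel) ?_
    refine jn 7947 (by decide +kernel) ?_
    refine jn 8034 (by decide +kernel) ?_
    refine jn 8133 (by decide +kernel) ?_
    refine jn 8226 (by decide +kernel) ?_
    refine jn 8337 (by decide +kernel) ?_
    refine jn 8726 (by decide +kernel) ?_
    refine jn 8925 (by decide +kernel) ?_
    refine jn 9055 (by decide +kernel) ?_
    refine jn 9160 (by decide +kernel) ?_
    refine jn 9269 (by decide +kernel) ?_
    refine jn 9356 (by decide +kernel) ?_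
    refine jn 9436 (by decide +kernel) ?_
    refine jn 9500 (by decide +kernel) ?_
    refine jn 9561 (by decide +kernel) ?_
    refine jn 9618 (by decide +kernel) ?_
    refine jn 9914 (by decide +kernel) ?_
    refine jn 10048 (by decide +kernel) ?_
    refine jn 10177 (by decide +kernel) ?_
    refine jn 10264 (by decide +kernel) ?_
    refine jn 10354 (by decide +kernel) ?_
    refine jn 10430 (by decide +kernel) ?_
    refine jn 10487 (by decide +kernel) ?_
    refine jn 10562 (by decide +kernel) ?_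
    refine jn 10623 (by decide +kernel) ?_
    refine jn 10674 (by decide +kernel) ?_
    refine jn 10734 (by decide +kernel) ?_
    refine jn 10780 (by decide +kernel) ?_
    refine jn 10827 (by decide +kernel) ?_
    refine jn 10870 (by decide +kernel) ?_
    refine jn 10912 (by decide +kernel) ?_
    refine jn 11199 (by decide +kernel) ?_
    refine jn 11388 (by decide +kernel) ?_
    refine jn 11538 (by decide +kernel) ?_
    refine jn 11657 (by decide +kernel) ?_
    refine jn 11762 (by decide +kernel) ?_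
    refine jn 11850 (by decide +kernel) ?_
    refine jn 11935 (by decide +kernel) ?_
    refine jn 12005 (by decide +kernel) ?_
    refine jn 12084 (by decide +kernel) ?_
    refine jn 12159 (by decide +kernel) ?_
    refine jn 12224 (by decide +kernel) ?_
    refine jn 12747 (by decide +kernel) ?_
    refine jn 12940 (by decide +kernel) ?_
    refine jn 13112 (by decide +kernel) ?_
    refine jn 13218 (by decide +kernel) ?_
    refine jn 13815 (by decide +kernel) ?_
    refine jn 14042 (by decide +kernel) ?_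
    refine jn 14234 (by decide +kernel) ?_
    exact je (by decide +kernel)
  · refine fin 312 502 T124_1 ?_
    refine jn 5 (by decide +kernel) ?_
    refine jn 7 (by decide +kernel) ?_
    refine jn 9 (by decide +kernel) ?_
    refine jn 11 (by decide +kernel) ?_
    refine jn 12 (by decide +kernel) ?_
    refine jn 14 (by decide +kernel) ?_
    refine jn 15 (by decide +kernel) ?_
    refine jn 17 (by decide +kernel) ?_
    refine jn 19 (by decide +kernel) ?_
    refine jn 21 (by decide +kernel) ?_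
    refine jn 22 (by decide +kernel) ?_
    refine jn 23 (by decide +kernel) ?_
    refine jn 63 (by decide +kernel) ?_
    refine jn 65 (by decide +kernel) ?_
    refine jn 66 (by decide +kernel) ?_
    refine jn 67 (by decide +kernel) ?_
    refine jn 68 (by decide +kernel) ?_
    refine jn 70 (by decide +kernel) ?_
    refine jn 71 (by decide +kernel) ?_
    refine jn 72 (by decide +kernel) ?_
    refine jn 73 (by decide +kernel) ?_
    refine jn 74 (by decide +kernel) ?_
    refine jn 76 (by decide +kernel) ?_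
    refine jn 78 (by decide +kernel) ?_
    refine jn 80 (by decide +kernel) ?_
    refine jn 81 (by decide +kernel) ?_
    refine jn 83 (by decide +kernel) ?_
    refine jn 84 (by decide +kernel) ?_
    refine jn 95 (by decide +kernel) ?_
    refine jn 99 (by decide +kernel) ?_
    refine jn 110 (by decide +kernel) ?_
    refine jn 120 (by decide +kernel) ?_
    refine jn 128 (by decide +kernel) ?_
    refine jn 137 (by decide +kernel) ?_
    refine jn 146 (by decide +kernel) ?_
    refine jn 147 (by decide +kernel) ?_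
    refine jn 148 (by decide +kernel) ?_
    refine jn 149 (by decide +kernel) ?_
    refine jn 150 (by decide +kernel) ?_
    refine jn 151 (by decide +kernel) ?_
    refine jn 152 (by decide +kernel) ?_
    refine jn 153 (by decide +kernel) ?_
    refine jn 154 (by decide +kernel) ?_
    refine jn 155 (by decide +kernel) ?_
    refine jn 158 (by decide +kernel) ?_
    refine jn 159 (by decide +kernel) ?_
    refine jn 160 (by decide +kernel) ?_
    refine jn 174 (by decide +kernel) ?_
    refine jn 196 (by decide +kernel) ?_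
    refine jn 204 (by decide +kernel) ?_
    refine jn 212 (by decide +kernel) ?_
    refine jn 214 (by decide +kernel) ?_
    refine jn 216 (by decide +kernel) ?_
    refine jn 217 (by decide +kernel) ?_
    refine jn 222 (by decide +kernel) ?_
    refine jn 227 (by decide +kernel) ?_
    refine jn 231 (by decide +kernel) ?_
    refine jn 238 (by decide +kernel) ?_
    refine jn 249 (by decide +kernel) ?_
    refine jn 279 (by decide +kernel) ?_
    refine jn 285 (by decide +kernel) ?_
    refine jn 286 (by decide +kernel) ?_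
    refine jn 287 (by decide +kernel) ?_
    refine jn 288 (by decide +kernel) ?_
    refine jn 289 (by decide +kernel) ?_
    refine jn 290 (by decide +kernel) ?_
    refine jn 291 (by decide +kernel) ?_
    refine jn 292 (by decide +kernel) ?_
    refine jn 299 (by decide +kernel) ?_
    refine jn 301 (by decide +kernel) ?_
    refine jn 302 (by decide +kernel) ?_
    refine jn 303 (by decide +kernel) ?_
    refine jn 304 (by decide +kernel) ?_
    refine jn 305 (by decide +kernel) ?_
    refine jn 306 (by decide +kernel) ?_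
    refine jn 307 (by decide +kernel) ?_
    refine jn 308 (by decide +kernel) ?_
    refine jn 309 (by decide +kernel) ?_
    refine jn 310 (by decide +kernel) ?_
    refine jn 311 (by decide +kernel) ?_
    refine jn 313 (by decide +kernel) ?_
    refine jn 318 (by decide +kernel) ?_
    refine jn 324 (by decide +kernel) ?_
    refine jn 334 (by decide +kernel) ?_
    refine jn 340 (by decide +kernel) ?_
    refine jn 341 (by decide +kernel) ?_
    refine jn 342 (by decide +kernel) ?_
    refine jn 343 (by decide +kernel) ?_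
    refine jn 344 (by decide +kernel) ?_
    refine jn 345 (by decide +kernel) ?_
    refine jn 346 (by decide +kernel) ?_
    refine jn 347 (by decide +kernel) ?_
    refine jn 358 (by decide +kernel) ?_
    refine jn 361 (by decide +kernel) ?_
    refine jn 363 (by decide +kernel) ?_
    refine jn 365 (by decide +kernel) ?_
    refine jn 366 (by decide +kernel) ?_
    refine jn 368 (by decide +kernel) ?_
    refine jn 370 (by decide +kernel) ?_
    refine jn 371 (by decide +kernel) ?_
    refine jn 373 (by decide +kernel) ?_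
    refine jn 377 (by decide +kernel) ?_
    refine jn 384 (by decide +kernel) ?_
    refine jn 395 (by decide +kernel) ?_
    refine jn 401 (by decide +kernel) ?_
    refine jn 414 (by decide +kernel) ?_
    refine jn 421 (by decide +kernel) ?_
    refine jn 435 (by decide +kernel) ?_
    refine jn 436 (by decide +kernel) ?_
    refine jn 438 (by decide +kernel) ?_
    refine jn 439 (by decide +kernel) ?_
    refine jn 440 (by decide +kernel) ?_
    refine jn 441 (by decide +kernel) ?_
    refine jn 442 (by decide +kernel) ?_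
    refine jn 443 (by decide +kernel) ?_
    refine jn 444 (by decide +kernel) ?_
    refine jn 445 (by decide +kernel) ?_
    refine jn 446 (by decide +kernel) ?_
    refine jn 447 (by decide +kernel) ?_
    refine jn 448 (by decide +kernel) ?_
    refine jn 449 (by decide +kernel) ?_
    refine jn 450 (by decide +kernel) ?_
    refine jn 452 (by decide +kernel) ?_
    refine jn 453 (by decide +kernel) ?_
    refine jn 454 (by decide +kernel) ?_
    refine jn 455 (by decide +kernel) ?_
    refine jn 456 (by decide +kernel) ?_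
    refine jn 457 (by decide +kernel) ?_
    refine jn 459 (by decide +kernel) ?_
    refine jn 461 (by decide +kernel) ?_
    refine jn 463 (by decide +kernel) ?_
    refine jn 465 (by decide +kernel) ?_
    refine jn 466 (by decide +kernel) ?_
    refine jn 467 (by decide +kernel) ?_
    refine jn 468 (by decide +kernel) ?_
    refine jn 480 (by decide +kernel) ?_
    refine jn 481 (by decide +kernel) ?_
    refine jn 484 (by decide +kernel) ?_
    refine jn 486 (by decide +kernel) ?_
    refine jn 488 (by decide +kernel) ?_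
    refine jn 491 (by decide +kernel) ?_
    refine jn 493 (by decide +kernel) ?_
    refine jn 496 (by decide +kernel) ?_
    exact je (by decide +kernel)
  · refine fin 24 13853 T124_2 ?_
    refine jn 12 (by decide +kernel) ?_
    refine jn 26 (by decide +kernel) ?_
    refine jn 27 (by decide +kernel) ?_
    refine jn 31 (by decide +kernel) ?_
    refine jn 41 (by decide +kernel) ?_
    refine jn 51 (by decide +kernel) ?_
    refine jn 67 (by decide +kernel) ?_
    refine jn 81 (by decide +kernel) ?_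
    refine jn 83 (by decide +kernel) ?_
    refine jn 86 (by decide +kernel) ?_
    refine jn 101 (by decide +kernel) ?_
    refine jn 116 (by decide +kernel) ?_
    refine jn 140 (by decide +kernel) ?_
    refine jn 188 (by decide +kernel) ?_
    refine jn 247 (by decide +kernel) ?_
    refine jn 323 (by decide +kernel) ?_
    refine jn 344 (by decide +kernel) ?_
    refine jn 345 (by decide +kernel) ?_
    refine jn 350 (by decide +kernel) ?_
    refine jn 362 (by decide +kernel) ?_
    refine jn 367 (by decide +kernel) ?_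
    refine jn 368 (by decide +kernel) ?_
    refine jn 369 (by decide +kernel) ?_
    refine jn 376 (by decide +kernel) ?_
    refine jn 377 (by decide +kernel) ?_
    refine jn 383 (by decide +kernel) ?_
    refine jn 391 (by decide +kernel) ?_
    refine jn 392 (by decide +kernel) ?_
    refine jn 393 (by decide +kernel) ?_
    refine jn 406 (by decide +kernel) ?_
    refine jn 412 (by decide +kernel) ?_
    refine jn 413 (by decide +kernel) ?_
    refine jn 416 (by decide +kernel) ?_
    refine jn 417 (by decide +kernel) ?_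
    refine jn 424 (by decide +kernel) ?_
    refine jn 425 (by decide +kernel) ?_
    refine jn 446 (by decide +kernel) ?_
    refine jn 448 (by decide +kernel) ?_
    refine jn 449 (by decide +kernel) ?_
    refine jn 452 (by decide +kernel) ?_
    refine jn 453 (by decide +kernel) ?_
    refine jn 460 (by decide +kernel) ?_
    refine jn 472 (by decide +kernel) ?_
    refine jn 473 (by decide +kernel) ?_
    refine jn 484 (by decide +kernel) ?_
    refine jn 497 (by decide +kernel) ?_
    refine jn 511 (by decide +kernel) ?_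
    refine jn 512 (by decide +kernel) ?_
    refine jn 513 (by decide +kernel) ?_
    refine jn 530 (by decide +kernel) ?_
    refine jn 536 (by decide +kernel) ?_
    refine jn 542 (by decide +kernel) ?_
    refine jn 544 (by decide +kernel) ?_
    refine jn 545 (by decide +kernel) ?_
    refine jn 550 (by decide +kernel) ?_
    refine jn 557 (by decide +kernel) ?_
    refine jn 565 (by decide +kernel) ?_
    refine jn 568 (by decide +kernel) ?_
    refine jn 572 (by decide +kernel) ?_
    refine jn 580 (by decide +kernel) ?_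
    refine jn 599 (by decide +kernel) ?_
    refine jn 601 (by decide +kernel) ?_
    refine jn 616 (by decide +kernel) ?_
    refine jn 622 (by decide +kernel) ?_
    refine jn 623 (by decide +kernel) ?_
    refine jn 629 (by decide +kernel) ?_
    refine jn 631 (by decide +kernel) ?_
    refine jn 634 (by decide +kernel) ?_
    refine jn 640 (by decide +kernel) ?_
    refine jn 647 (by decide +kernel) ?_
    refine jn 650 (by decide +kernel) ?_
    refine jn 667 (by decide +kernel) ?_
    refine jn 668 (by decide +kernel) ?_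
    refine jn 671 (by decide +kernel) ?_
    refine jn 673 (by decide +kernel) ?_
    refine jn 679 (by decide +kernel) ?_
    refine jn 697 (by decide +kernel) ?_
    refine jn 703 (by decide +kernel) ?_
    refine jn 707 (by decide +kernel) ?_
    refine jn 710 (by decide +kernel) ?_
    refine jn 724 (by decide +kernel) ?_
    refine jn 728 (by decide +kernel) ?_
    refine jn 745 (by decide +kernel) ?_
    refine jn 757 (by decide +kernel) ?_
    refine jn 767 (by decide +kernel) ?_
    refine jn 768 (by decide +kernel) ?_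
    refine jn 788 (by decide +kernel) ?_
    refine jn 791 (by decide +kernel) ?_
    refine jn 799 (by decide +kernel) ?_
    refine jn 802 (by decide +kernel) ?_
    refine jn 811 (by decide +kernel) ?_
    refine jn 818 (by decide +kernel) ?_
    refine jn 823 (by decide +kernel) ?_
    refine jn 829 (by decide +kernel) ?_
    refine jn 874 (by decide +kernel) ?_
    refine jn 996 (by decide +kernel) ?_
    refine jn 1052 (by decide +kernel) ?_
    refine jn 1058 (by decide +kernel) ?_
    refine jn 1078 (by decide +kernel) ?_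
    refine jn 1081 (by decide +kernel) ?_
    refine jn 1084 (by decide +kernel) ?_
    refine jn 1088 (by decide +kernel) ?_
    refine jn 1100 (by decide +kernel) ?_
    refine jn 1114 (by decide +kernel) ?_
    refine jn 1117 (by decide +kernel) ?_
    refine jn 1126 (by decide +kernel) ?_
    refine jn 1129 (by decide +kernel) ?_
    refine jn 1141 (by decide +kernel) ?_
    refine jn 1145 (by decide +kernel) ?_
    refine jn 1150 (by decide +kernel) ?_
    refine jn 1157 (by decide +kernel) ?_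
    refine jn 1162 (by decide +kernel) ?_
    refine jn 1172 (by decide +kernel) ?_
    refine jn 1177 (by decide +kernel) ?_
    refine jn 1180 (by decide +kernel) ?_
    refine jn 1186 (by decide +kernel) ?_
    refine jn 1199 (by decide +kernel) ?_
    refine jn 1217 (by decide +kernel) ?_
    refine jn 1218 (by decide +kernel) ?_
    refine jn 1225 (by decide +kernel) ?_
    refine jn 1231 (by decide +kernel) ?_
    refine jn 1238 (by decide +kernel) ?_
    refine jn 1241 (by decide +kernel) ?_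
    refine jn 1259 (by decide +kernel) ?_
    refine jn 1267 (by decide +kernel) ?_
    refine jn 1277 (by decide +kernel) ?_
    refine jn 1294 (by decide +kernel) ?_
    refine jn 1297 (by decide +kernel) ?_
    refine jn 1301 (by decide +kernel) ?_
    refine jn 1313 (by decide +kernel) ?_
    refine jn 1327 (by decide +kernel) ?_
    refine jn 1330 (by decide +kernel) ?_
    refine jn 1339 (by decide +kernel) ?_
    refine jn 1342 (by decide +kernel) ?_
    refine jn 1354 (by decide +kernel) ?_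
    refine jn 1358 (by decide +kernel) ?_
    refine jn 1363 (by decide +kernel) ?_
    refine jn 1370 (by decide +kernel) ?_
    refine jn 1375 (by decide +kernel) ?_
    refine jn 1385 (by decide +kernel) ?_
    refine jn 1390 (by decide +kernel) ?_
    refine jn 1393 (by decide +kernel) ?_
    refine jn 1399 (by decide +kernel) ?_
    refine jn 1412 (by decide +kernel) ?_
    refine jn 1430 (by decide +kernel) ?_
    refine jn 1431 (by decide +kernel) ?_
    refine jn 1438 (by decide +kernel) ?_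
    refine jn 1442 (by decide +kernel) ?_
    refine jn 1448 (by decide +kernel) ?_
    refine jn 1454 (by decide +kernel) ?_
    refine jn 1472 (by decide +kernel) ?_
    refine jn 1503 (by decide +kernel) ?_
    refine jn 1515 (by decide +kernel) ?_
    refine jn 1530 (by decide +kernel) ?_
    refine jn 1569 (by decide +kernel) ?_
    refine jn 1591 (by decide +kernel) ?_
    refine jn 1635 (by decide +kernel) ?_
    refine jn 1663 (by decide +kernel) ?_
    refine jn 1692 (by decide +kernel) ?_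
    refine jn 1716 (by decide +kernel) ?_
    refine jn 1747 (by decide +kernel) ?_
    refine jn 1779 (by decide +kernel) ?_
    refine jn 1797 (by decide +kernel) ?_
    refine jn 1809 (by decide +kernel) ?_
    refine jn 1814 (by decide +kernel) ?_
    refine jn 1815 (by decide +kernel) ?_
    refine jn 1830 (by decide +kernel) ?_
    refine jn 1854 (by decide +kernel) ?_
    refine jn 1878 (by decide +kernel) ?_
    refine jn 1890 (by decide +kernel) ?_
    refine jn 1914 (by decide +kernel) ?_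
    refine jn 1934 (by decide +kernel) ?_
    refine jn 1935 (by decide +kernel) ?_
    refine jn 1968 (by decide +kernel) ?_
    refine jn 1989 (by decide +kernel) ?_
    refine jn 1998 (by decide +kernel) ?_
    refine jn 2010 (by decide +kernel) ?_
    refine jn 2024 (by decide +kernel) ?_
    refine jn 2048 (by decide +kernel) ?_
    refine jn 2070 (by decide +kernel) ?_
    refine jn 2103 (by decide +kernel) ?_
    refine jn 2140 (by decide +kernel) ?_
    refine jn 2160 (by decide +kernel) ?_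
    refine jn 2200 (by decide +kernel) ?_
    refine jn 2233 (by decide +kernel) ?_
    refine jn 2263 (by decide +kernel) ?_
    refine jn 2298 (by decide +kernel) ?_
    refine jn 2328 (by decide +kernel) ?_
    refine jn 2356 (by decide +kernel) ?_
    refine jn 2412 (by decide +kernel) ?_
    refine jn 2433 (by decide +kernel) ?_
    refine jn 2464 (by decide +kernel) ?_
    refine jn 2507 (by decide +kernel) ?_
    refine jn 2528 (by decide +kernel) ?_
    refine jn 2556 (by decide +kernel) ?_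
    refine jn 2576 (by decide +kernel) ?_
    refine jn 2585 (by decide +kernel) ?_
    refine jn 2612 (by decide +kernel) ?_
    refine jn 2637 (by decide +kernel) ?_
    refine jn 2654 (by decide +kernel) ?_
    refine jn 2667 (by decide +kernel) ?_
    refine jn 2691 (by decide +kernel) ?_
    refine jn 2712 (by decide +kernel) ?_
    refine jn 2727 (by decide +kernel) ?_
    refine jn 2759 (by decide +kernel) ?_
    refine jn 2775 (by decide +kernel) ?_
    refine jn 2807 (by decide +kernel) ?_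
    refine jn 2843 (by decide +kernel) ?_
    refine jn 2847 (by decide +kernel) ?_
    refine jn 2864 (by decide +kernel) ?_
    refine jn 2885 (by decide +kernel) ?_
    refine jn 2922 (by decide +kernel) ?_
    refine jn 2962 (by decide +kernel) ?_
    refine jn 2991 (by decide +kernel) ?_
    refine jn 3018 (by decide +kernel) ?_
    refine jn 3052 (by decide +kernel) ?_
    refine jn 3094 (by decide +kernel) ?_
    refine jn 3141 (by decide +kernel) ?_
    refine jn 3184 (by decide +kernel) ?_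
    refine jn 3220 (by decide +kernel) ?_
    refine jn 3264 (by decide +kernel) ?_
    refine jn 3316 (by decide +kernel) ?_
    refine jn 3356 (by decide +kernel) ?_
    refine jn 3390 (by decide +kernel) ?_
    refine jn 3427 (by decide +kernel) ?_
    refine jn 3474 (by decide +kernel) ?_
    refine jn 3519 (by decide +kernel) ?_
    refine jn 3699 (by decide +kernel) ?_
    refine jn 3744 (by decide +kernel) ?_
    refine jn 3795 (by decide +kernel) ?_
    refine jn 3842 (by decide +kernel) ?_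
    refine jn 3893 (by decide +kernel) ?_
    refine jn 3941 (by decide +kernel) ?_
    refine jn 3983 (by decide +kernel) ?_
    refine jn 4017 (by decide +kernel) ?_
    refine jn 4067 (by decide +kernel) ?_
    refine jn 4107 (by decide +kernel) ?_
    refine jn 4152 (by decide +kernel) ?_
    refine jn 4196 (by decide +kernel) ?_
    refine jn 4238 (by decide +kernel) ?_
    refine jn 4290 (by decide +kernel) ?_
    refine jn 4362 (by decide +kernel) ?_
    refine jn 4392 (by decide +kernel) ?_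
    refine jn 4434 (by decide +kernel) ?_
    refine jn 4485 (by decide +kernel) ?_
    refine jn 4542 (by decide +kernel) ?_
    refine jn 4711 (by decide +kernel) ?_
    refine jn 4769 (by decide +kernel) ?_
    refine jn 4837 (by decide +kernel) ?_
    refine jn 4895 (by decide +kernel) ?_
    refine jn 4976 (by decide +kernel) ?_
    refine jn 5015 (by decide +kernel) ?_
    refine jn 5071 (by decide +kernel) ?_
    refine jn 5137 (by decide +kernel) ?_
    refine jn 5197 (by decide +kernel) ?_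
    refine jn 5257 (by decide +kernel) ?_
    refine jn 5314 (by decide +kernel) ?_
    refine jn 5386 (by decide +kernel) ?_
    refine jn 5455 (by decide +kernel) ?_
    refine jn 5512 (by decide +kernel) ?_
    refine jn 5581 (by decide +kernel) ?_
    refine jn 5627 (by decide +kernel) ?_
    refine jn 5690 (by decide +kernel) ?_
    refine jn 5765 (by decide +kernel) ?_
    refine jn 5821 (by decide +kernel) ?_
    refine jn 5896 (by decide +kernel) ?_
    refine jn 6186 (by decide +kernel) ?_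
    refine jn 6269 (by decide +kernel) ?_
    refine jn 6332 (by decide +kernel) ?_
    refine jn 6413 (by decide +kernel) ?_
    refine jn 6489 (by decide +kernel) ?_
    refine jn 6560 (by decide +kernel) ?_
    refine jn 6645 (by decide +kernel) ?_
    refine jn 6701 (by decide +kernel) ?_
    refine jn 6783 (by decide +kernel) ?_
    refine jn 6845 (by decide +kernel) ?_
    refine jn 6933 (by decide +kernel) ?_
    refine jn 6998 (by decide +kernel) ?_
    refine jn 7089 (by decide +kernel) ?_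
    refine jn 7145 (by decide +kernel) ?_
    refine jn 7217 (by decide +kernel) ?_
    refine jn 7281 (by decide +kernel) ?_
    refine jn 7341 (by decide +kernel) ?_
    refine jn 7434 (by decide +kernel) ?_
    refine jn 7523 (by decide +kernel) ?_
    refine jn 7589 (by decide +kernel) ?_
    refine jn 7652 (by decide +kernel) ?_
    refine jn 7724 (by decide +kernel) ?_
    refine jn 7805 (by decide +kernel) ?_
    refine jn 7898 (by decide +kernel) ?_
    refine jn 8116 (by decide +kernel) ?_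
    refine jn 8403 (by decide +kernel) ?_
    refine jn 8509 (by decide +kernel) ?_
    refine jn 8653 (by decide +kernel) ?_
    refine jn 8731 (by decide +kernel) ?_
    refine jn 8821 (by decide +kernel) ?_
    refine jn 8908 (by decide +kernel) ?_
    refine jn 8983 (by decide +kernel) ?_
    refine jn 9043 (by decide +kernel) ?_
    refine jn 9085 (by decide +kernel) ?_
    refine jn 9143 (by decide +kernel) ?_
    refine jn 9203 (by decide +kernel) ?_
    refine jn 9553 (by decide +kernel) ?_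
    refine jn 9661 (by decide +kernel) ?_
    refine jn 9765 (by decide +kernel) ?_
    refine jn 9837 (by decide +kernel) ?_
    refine jn 9909 (by decide +kernel) ?_
    refine jn 9979 (by decide +kernel) ?_
    refine jn 10046 (by decide +kernel) ?_
    refine jn 10107 (by decide +kernel) ?_
    refine jn 10157 (by decide +kernel) ?_
    refine jn 10207 (by decide +kernel) ?_
    refine jn 10259 (by decide +kernel) ?_
    refine jn 10307 (by decide +kernel) ?_
    refine jn 10346 (by decide +kernel) ?_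
    refine jn 10385 (by decide +kernel) ?_
    refine jn 10432 (by decide +kernel) ?_
    refine jn 10481 (by decide +kernel) ?_
    refine jn 10725 (by decide +kernel) ?_
    refine jn 10968 (by decide +kernel) ?_
    refine jn 11106 (by decide +kernel) ?_
    refine jn 11206 (by decide +kernel) ?_
    refine jn 11306 (by decide +kernel) ?_
    refine jn 11396 (by decide +kernel) ?_
    refine jn 11474 (by decide +kernel) ?_
    refine jn 11548 (by decide +kernel) ?_
    refine jn 11597 (by decide +kernel) ?_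
    refine jn 11648 (by decide +kernel) ?_
    refine jn 11719 (by decide +kernel) ?_
    refine jn 11786 (by decide +kernel) ?_
    refine jn 12210 (by decide +kernel) ?_
    refine jn 12415 (by decide +kernel) ?_
    refine jn 12581 (by decide +kernel) ?_
    refine jn 12686 (by decide +kernel) ?_
    refine jn 12793 (by decide +kernel) ?_
    refine jn 13174 (by decide +kernel) ?_
    refine jn 13535 (by decide +kernel) ?_
    refine jn 13669 (by decide +kernel) ?_
    refine jn 13812 (by decide +kernel) ?_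
    exact je (by decide +kernel)

end Pool.Agent.MP_2339ce_nt.NR
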