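import Pool.Agent.MP_2339ce_nt.Q2.NC.L5
import Pool.Agent.MP_2339ce_nt.Q2.NC.L6
import Pool.Agent.MP_2339ce_nt.Q2.NC.L9
import Pool.Agent.MP_2339ce_nt.Q2.CkI

/-! Block NR: runs. -/

set_option autoImplicit false
set_option maxRecDepth 100000

noncomputable section

namespace Pool.Agent.MP_2339ce_nt.NR

open Q2.Top

def T131_0 : Ph :=
  (.na 854 149 (.na 633 71 (.na 484 23 (.na 371 9 (.na 180 4 (.na 179 2 (.nx 178 1321124 (.nr 177
  311745 (.nx 151 660563 (.nx 3 89 (.nx 2 88 (.nr 1 10 (.lg 0 true 1 37 37 5 0 528) (.l1 .sk)) (.l1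
  .sk)) (.nr 135 46342 (.nx 119 330282 (.nx 38 8848 (.lg 0 false 35 89 97 13 0 18480) (.nr 118
  38969 (.nr 73 432 (.lg 0 true 35 83 83 13 0 9240) (.nr 82 1724 (.lg 2 true 9 89 89 9 33640 792)
  (.nx 117 165142 (.nx 97 16385 (.lg 1 false 15 101 103 9 17093 720720) (.nr 116 27556 (.nr 106
  19485 (.lg 2 false 9 103 103 9 4626 720720) (.nx 115 65537 (.lg 2 false 9 101 103 9 6533 720720)
  .out)) .out)) .out))) .out)) (.nr 134 109 (.lg 0 true 15 79 79 9 0 3960) .out)) (.nx 150 205 (.lg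
  0 false 15 83 83 9 0 3960) .out))) (.nr 176 13 (.lg 0 true 25 71 71 9 0 1320) .out)) .out) .out)
  .ne) (.na 303 5 (.nx 302 10568985 (.nr 301 1246976 (.nx 182 88 (.nr 181 32 (.lg 0 true 1 29 29 9
  0 1584) (.l1 .sk)) (.nx 183 89 (.l1 .sk) (.nr 290 155873 (.nx 259 1321124 (.nx 204 10321 (.nr 198
  55110 (.lg 0 false 15 83 89 13 0 7920) (.nx 203 1292 (.lg 0 false 5 89 89 11 0 7920) .out)) (.nr
  258 65537 (.nx 242 330282 (.nr 219 694 (.lg 0 true 15 79 79 13 0 7920) (.nx 224 20642 (.lg 1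
  false 5 89 97 11 24621 7920) (.nx 229 41287 (.lg 1 true 5 89 97 11 12311 7920) (.nr 241 55110
  (.nr 234 2635 (.lg 2 true 5 79 83 11 20941 2640) (.lg 2 false 7 97 101 11 5516 55440)) .out))))
  (.nr 257 183 (.lg 0 true 15 79 79 13 0 7920) .out)) .out)) (.nr 289 21 (.lg 0 true 30 79 79 11 0
  7920) .out)) (.nx 300 205 (.lg 0 false 10 79 79 13 0 2640) .out)))) .out) .out) (.na 304 8 .ne
  (.nx 370 10568985 (.nr 369 623489 (.nx 307 89 (.nx 306 88 (.nr 305 60 (.lg 0 true 1 23 23 9 0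
  2640) (.l1 .sk)) (.l1 .sk)) (.nr 361 77937 (.nx 314 9411 (.lg 0 false 7 89 89 13 0 18480) (.nr
  360 65537 (.nx 333 1321124 (.nr 323 364 (.lg 0 true 9 79 79 13 0 1584) (.nx 332 208065 (.lg 2
  false 9 97 101 13 27002 55440) .out)) (.nr 359 55 (.lg 0 true 26 79 79 13 0 6864) .out)) .out))
  (.nx 368 814 (.lg 0 false 7 83 89 13 0 18480) .out))) .out) .out)))) (.na 416 13 (.na 372 11 .ne
  (.na 415 12 (.nx 414 1321124 (.nr 413 623489 (.nr 373 6 .s1 (.nx 376 89 (.nx 375 88 (.nr 374 80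
  (.lg 0 true 1 17 17 9 0 528) (.l1 .sk)) (.l1 .sk)) (.nx 389 14046 (.nx 377 324 (.l1 (.ls 79 41
  8826)) (.nr 388 220437 (.nr 382 77937 (.lg 0 true 5 79 79 9 0 1320) (.nx 387 814 (.lg 0 false 5
  61 61 9 0 1320) .out)) .out)) (.nr 412 65537 (.nr 404 374 (.lg 0 true 15 71 71 16 0 3960) (.nx
  411 165142 (.lg 2 false 7 83 83 16 19429 3696) .out)) .out)))) .out) .out) .ne)) (.na 456 16 (.nx
  455 1321124 (.nr 454 623489 (.nr 417 10 .s1 (.nx 420 89 (.nx 419 88 (.nr 418 107 (.l1 (.ls 23 23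
  598)) (.l1 .sk)) (.l1 .sk)) (.nx 421 324 (.l1 (.ls 83 41 7468)) (.nr 453 220437 (.nr 428 374 (.lg
  0 true 7 79 79 16 0 24024) (.nx 452 165142 (.nr 431 6576 (.nx 429 3873 (.lg 0 true 1 73 73 9 0
  3432) (.lg 2 false 2 79 79 11 19429 6864)) (.nr 448 92683 (.nx 438 26009 (.lg 0 false 7 97 103 16
  0 720720) (.nr 447 46342 (.nr 443 27556 (.lg 2 true 5 67 67 16 4116 17160) (.nx 446 104033 (.lg 0
  true 3 101 101 11 0 102960) .out)) .out)) (.nx 451 814 (.lg 0 false 3 73 73 11 0 10296) .out)))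
  .out)) .out)))) .out) .out) (.na 457 19 .ne (.nx 483 1321124 (.nr 482 1048577 (.nr 458 17 .s1
  (.nx 461 89 (.nx 460 88 (.nr 459 153 (.l1 (.ls 17 17 410)) (.l1 .sk)) (.l1 .sk)) (.nx 462 205
  (.l1 (.ls 79 31 1797)) (.nr 481 623489 (.nx 463 324 (.l1 (.ls 73 37 3316)) (.nr 480 220437 (.nx
  468 10323 (.lg 0 false 5 89 89 16 0 2640) (.nr 479 55110 (.nr 473 498 (.lg 0 true 5 73 73 16 0
  1320) (.nx 478 165142 (.lg 2 false 5 83 89 16 20705 2640) .out)) .out)) .out)) .out)))) .out)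
  .out))))) (.na 569 44 (.na 533 31 (.na 514 29 (.nx 513 1321124 (.nr 512 1048577 (.nr 485 22 .s1
  (.nx 489 205 (.nx 487 88 (.nr 486 193 (.l1 (.ls 19 19 339)) (.l1 .sk)) (.nx 488 89 (.l1 .sk) (.l1
  (.ls 83 31 1485)))) (.nr 511 185365 (.nr 504 32769 (.nx 496 82572 (.lg 0 false 7 79 79 16 0 1848)
  (.nr 503 513 (.lg 0 true 7 73 79 16 0 1848) .out)) (.nx 510 26009 (.nx 507 10323 (.lg 0 false 3
  97 97 16 0 7920) (.nr 509 55110 (.lg 0 false 2 83 83 13 0 528) .out)) .out)) .out))) .out) .out)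
  (.nx 532 1321124 (.nr 531 1048577 (.nr 515 28 .s1 (.nx 522 16385 (.nx 516 205 (.l1 (.ls 79 23
  1452)) (.nr 521 185365 (.lg 0 false 5 89 89 16 0 2640) .out)) (.nr 530 38969 (.nr 527 513 (.lg 0
  true 5 73 73 16 0 1320) (.nx 529 82572 (.lg 1 true 2 79 79 16 9230 528) .out)) .out))) .out)
  .out)) (.na 553 32 (.nx 552 1321124 (.nr 551 1048577 (.nr 534 30 .s1 (.nx 541 16385 (.nx 535 205
  (.l1 (.ls 79 29 1358)) (.nr 540 185365 (.lg 0 false 5 83 83 16 0 1320) .out)) (.nr 550 38969 (.nr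
  546 513 (.lg 0 true 5 71 71 16 0 1320) (.nx 549 82572 (.lg 1 true 3 79 79 16 9230 1584) .out))
  .out))) .out) .out) (.na 554 43 .ne (.nx 568 1321124 (.nr 567 370729 (.nr 555 42 .s1 (.nx 558 89
  (.nx 557 88 (.nr 556 293 (.l1 (.ls 17 17 183)) (.l1 .sk)) (.l1 .sk)) (.nx 561 13005 (.lg 0 false
  3 89 89 16 0 792) (.nr 566 23172 (.nr 564 293 (.lg 0 true 3 67 67 16 0 792) (.nx 565 82572 (.lg 2
  true 1 73 73 16 12400 264) .out)) .out)))) .out) .out)))) (.na 602 52 (.na 586 46 (.nx 585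
  1321124 (.nr 584 370729 (.nr 570 43 .s1 (.nx 578 13005 (.nx 572 88 (.nr 571 306 (.l1 (.ls 16 29
  178)) (.l1 .sk)) (.nx 573 89 (.l1 .sk) (.lg 0 false 5 79 79 23 0 2640))) (.nr 583 23172 (.nr 581
  306 (.lg 0 true 3 61 61 19 0 1584) (.nx 582 82572 (.lg 2 true 1 71 71 13 11874 528) .out))
  .out))) .out) .out) (.na 587 47 .ne (.nx 601 1321124 (.nr 600 311745 (.nr 588 47 .s1 (.nx 590 88
  (.nr 589 346 (.l1 (.ls 17 17 167)) (.l1 .sk)) (.nx 591 89 (.l1 .sk) (.nx 594 10323 (.lg 0 false 3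
  83 83 16 0 792) (.nr 599 23172 (.nr 597 346 (.lg 0 true 3 67 67 16 0 792) (.nx 598 82572 (.lg 2
  true 1 73 73 16 10501 2640) .out)) .out))))) .out) .out))) (.na 617 61 (.nx 616 1321124 (.nr 615
  311745 (.nr 603 52 .s1 (.nx 605 88 (.nr 604 406 (.l1 (.ls 29 29 151)) (.l1 .sk)) (.nx 606 89 (.l1
  .sk) (.nx 609 10323 (.lg 0 false 3 89 89 23 0 102960) (.nr 614 23172 (.nr 612 406 (.lg 0 true 3
  73 73 23 0 20592) (.nx 613 82572 (.lg 2 true 1 73 73 19 8949 6864) .out)) .out))))) .out) .out)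
  (.na 632 64 (.nx 631 1321124 (.nr 630 311745 (.nr 618 61 .s1 (.nx 624 10323 (.nx 620 88 (.nr 619
  426 (.l1 (.ls 16 16 129)) (.l1 .sk)) (.nx 621 89 (.l1 .sk) (.lg 0 false 3 79 79 16 0 792))) (.nr
  629 23172 (.nr 627 426 (.lg 0 true 3 61 61 16 0 792) (.nx 628 82572 (.lg 2 true 1 67 67 16 8725
  264) .out)) .out))) .out) .out) .ne))))) (.na 764 107 (.na 704 91 (.na 662 83 (.na 648 76 (.nx
  647 1321124 (.nr 646 524289 (.nr 634 71 .s1 (.nx 640 8193 (.nx 636 88 (.nr 635 506 (.l1 (.ls 16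
  16 112)) (.l1 .sk)) (.nx 637 89 (.l1 .sk) (.lg 0 false 3 79 79 16 0 792))) (.nr 645 8193 (.nr 643
  513 (.lg 0 true 3 61 61 16 0 792) (.nx 644 82572 (.lg 2 true 1 53 53 16 7083 264) .out)) .out)))
  .out) .out) (.nx 661 1321124 (.nr 660 524289 (.nr 649 76 .s1 (.nx 651 88 (.nr 650 553 (.l1 (.ls
  17 17 104)) (.l1 .sk)) (.nx 652 89 (.l1 .sk) (.nx 655 8193 (.lg 0 false 3 83 83 29 0 1584) (.nr
  659 8193 (.nr 657 513 (.lg 0 true 2 71 71 23 0 528) (.nx 658 82572 (.lg 2 true 1 61 61 17 7083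
  528) .out)) .out))))) .out) .out)) (.na 676 88 (.nx 675 1321124 (.nr 674 524289 (.nr 663 83 .s1
  (.nx 669 8193 (.nx 665 88 (.nr 664 586 (.l1 (.ls 17 16 96)) (.l1 .sk)) (.nx 666 89 (.l1 .sk) (.lg
  0 false 3 73 73 16 0 792))) (.nr 673 8193 (.nr 671 586 (.lg 0 true 2 61 61 16 0 528) (.nx 672
  82572 (.lg 2 true 1 47 47 16 6200 264) .out)) .out))) .out) .out) (.na 690 89 (.nx 689 1321124
  (.nr 688 524289 (.nr 677 88 .s1 (.nx 680 89 (.nx 679 88 (.nr 678 592 (.l1 (.ls 17 23 90)) (.l1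
  .sk)) (.l1 .sk)) (.nx 683 8193 (.lg 0 false 3 73 73 23 0 1584) (.nr 687 8193 (.nr 685 513 (.lg 0
  true 2 61 61 23 0 528) (.nx 686 82572 (.lg 2 true 1 53 53 19 7083 528) .out)) .out)))) .out)
  .out) (.nx 703 1321124 (.nr 702 524289 (.nr 691 89 .s1 (.nx 694 89 (.nx 693 88 (.nr 692 606 (.l1
  (.ls 16 16 90)) (.l1 .sk)) (.l1 .sk)) (.nx 697 8193 (.lg 0 false 3 71 71 16 0 792) (.nr 701 8193
  (.nr 699 513 (.lg 0 true 2 59 59 16 0 528) (.nx 700 82572 (.lg 2 true 1 47 47 16 7083 264) .out))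
  .out)))) .out) .out)))) (.na 729 101 (.na 705 92 .ne (.na 718 97 (.nx 717 1321124 (.nr 716 524289
  (.nr 706 92 .s1 (.nx 709 89 (.nx 708 88 (.nr 707 646 (.l1 (.ls 19 19 87)) (.l1 .sk)) (.l1 .sk))
  (.nx 711 8193 (.lg 0 false 2 89 89 19 0 2640) (.nr 715 8193 (.nr 713 513 (.lg 0 true 2 71 71 19 0
  528) (.nx 714 82572 (.lg 2 true 1 61 61 19 7083 528) .out)) .out)))) .out) .out) (.nx 728 1321124
  (.nr 727 524289 (.nr 719 97 .s1 (.nx 722 89 (.nx 721 88 (.nr 720 672 (.l1 (.ls 17 16 82)) (.l1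
  .sk)) (.l1 .sk)) (.nx 723 8193 (.lg 0 true 1 79 79 16 0 264) (.nr 726 8193 (.nr 724 513 (.lg 2
  false 1 61 61 16 599273 264) (.nx 725 82572 (.lg 2 false 1 47 47 16 7083 264) .out)) .out))))
  .out) .out))) (.na 741 103 (.nx 740 1321124 (.nr 739 524289 (.nr 730 101 .s1 (.nx 733 89 (.nx 732
  88 (.nr 731 686 (.l1 (.ls 16 16 79)) (.l1 .sk)) (.l1 .sk)) (.nx 734 8193 (.lg 0 true 1 73 73 16 0
  264) (.nr 738 8193 (.nr 736 513 (.lg 0 true 2 59 59 16 0 528) (.nx 737 82572 (.lg 2 true 1 47 47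
  16 7083 528) .out)) .out)))) .out) .out) (.na 752 104 (.nx 751 1321124 (.nr 750 524289 (.nr 742
  103 .s1 (.nx 745 89 (.nx 744 88 (.nr 743 692 (.l1 (.ls 17 16 78)) (.l1 .sk)) (.l1 .sk)) (.nx 746
  8193 (.lg 0 true 1 83 83 16 0 7920) (.nr 749 8193 (.nr 747 513 (.lg 2 false 1 61 61 16 564364
  2640) (.nx 748 82572 (.lg 2 true 1 47 47 16 7083 264) .out)) .out)))) .out) .out) (.nx 763
  1321124 (.nr 762 524289 (.nr 753 104 .s1 (.nx 756 89 (.nx 755 88 (.nr 754 712 (.l1 (.ls 23 23
  77)) (.l1 .sk)) (.l1 .sk)) (.nx 757 8193 (.lg 0 true 1 83 83 23 0 6864) (.nr 761 8193 (.nr 759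
  513 (.lg 0 true 2 67 67 29 0 6864) (.nx 760 82572 (.lg 2 false 1 59 59 23 7083 6864) .out))
  .out)))) .out) .out))))) (.na 810 124 (.na 787 113 (.na 775 109 (.nx 774 1321124 (.nr 773 524289
  (.nr 765 107 .s1 (.nx 767 88 (.nr 766 726 (.l1 (.ls 17 16 75)) (.l1 .sk)) (.nx 768 89 (.l1 .sk)
  (.nx 769 8193 (.lg 0 true 1 79 79 16 0 264) (.nr 772 8193 (.nr 770 513 (.lg 2 false 1 59 59 16
  543266 264) (.nx 771 82572 (.lg 2 false 1 47 47 16 7083 264) .out)) .out))))) .out) .out) (.nx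
  786 1321124 (.nr 785 524289 (.nr 776 109 .s1 (.nx 780 8193 (.nx 778 88 (.nr 777 752 (.l1 (.ls 16
  16 74)) (.l1 .sk)) (.nx 779 89 (.l1 .sk) (.lg 0 true 1 73 73 16 0 528))) (.nr 784 8193 (.nr 782
  513 (.lg 0 true 2 53 53 16 0 528) (.nx 783 82572 (.lg 2 true 1 43 43 16 7083 264) .out)) .out)))
  .out) .out)) (.na 798 116 (.nx 797 1321124 (.nr 796 524289 (.nr 788 113 .s1 (.nx 792 8193 (.nx
  790 88 (.nr 789 772 (.l1 (.ls 17 16 71)) (.l1 .sk)) (.nx 791 89 (.l1 .sk) (.lg 0 true 1 79 79 16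
  0 264))) (.nr 795 8193 (.nr 793 513 (.lg 2 false 1 59 59 16 514420 264) (.nx 794 82572 (.lg 2
  false 1 47 47 16 7083 264) .out)) .out))) .out) .out) (.na 809 121 (.nx 808 1321124 (.nr 807
  524289 (.nr 799 116 .s1 (.nx 803 8193 (.nx 801 88 (.nr 800 805 (.l1 (.ls 19 19 69)) (.l1 .sk))
  (.nx 802 89 (.l1 .sk) (.lg 0 true 1 83 83 19 0 528))) (.nr 806 8193 (.nr 804 513 (.lg 2 true 1 61
  61 19 501116 528) (.nx 805 82572 (.lg 2 false 1 59 59 19 7083 528) .out)) .out))) .out) .out)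
  (.lg 0 false 1 0 0 16 0 24)))) (.na 830 137 (.na 821 128 (.nx 820 1321124 (.nr 819 524289 (.nr
  811 124 .s1 (.nx 815 8193 (.nx 813 88 (.nr 812 852 (.l1 (.ls 19 19 65)) (.l1 .sk)) (.nx 814 89
  (.l1 .sk) (.lg 0 false 1 79 79 19 0 528))) (.nr 818 8193 (.nr 816 513 (.lg 2 true 1 61 61 19
  468786 528) (.nx 817 82572 (.lg 2 false 1 59 59 19 7083 528) .out)) .out))) .out) .out) (.na 822
  131 .ne (.nx 829 660563 (.nr 828 1048577 (.nr 823 131 .s1 (.nx 824 205 (.l1 (.ls 61 19 323)) (.nr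
  827 524289 (.nr 825 8193 (.lg 0 false 1 73 73 16 0 264) (.nx 826 6503 (.lg 0 true 1 71 71 16 0
  264) .out)) .out))) .out) .out))) (.na 838 139 (.nx 837 660563 (.nr 836 1048577 (.nr 831 137 .s1
  (.nx 832 205 (.l1 (.ls 67 19 309)) (.nr 835 524289 (.nr 833 8193 (.lg 0 false 1 73 73 16 0 264)
  (.nx 834 6503 (.lg 0 true 1 71 71 16 0 264) .out)) .out))) .out) .out) (.na 846 143 (.nx 845
  660563 (.nr 844 1048577 (.nr 839 139 .s1 (.nx 840 205 (.l1 (.ls 61 19 305)) (.nr 843 524289 (.nr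
  841 8193 (.lg 0 false 1 73 73 16 0 264) (.nx 842 6503 (.lg 0 true 1 71 71 16 0 264) .out))
  .out))) .out) .out) (.nx 853 660563 (.nr 852 1048577 (.nr 847 143 .s1 (.nx 848 205 (.l1 (.ls 67
  23 296)) (.nr 851 524289 (.nr 849 8193 (.lg 0 false 1 79 79 19 0 34320) (.nx 850 6503 (.lg 0 true
  1 73 73 19 0 3432) .out)) .out))) .out) .out))))))) (.na 976 232 (.na 902 184 (.na 875 167 (.na
  863 152 (.na 862 151 (.nx 861 660563 (.nr 860 1048577 (.nr 855 149 .s1 (.nx 856 205 (.l1 (.ls 61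
  19 285)) (.nr 859 524289 (.nr 857 8193 (.lg 0 false 1 73 73 16 0 1584) (.nx 858 6503 (.lg 0 true
  1 71 71 16 0 264) .out)) .out))) .out) .out) (.lg 0 false 1 0 0 16 0 24)) (.na 873 157 (.nx 872
  660563 (.nr 871 1048577 (.nr 864 152 .s1 (.nx 867 6503 (.nx 865 205 (.l1 (.ls 73 31 279)) (.nr
  866 524289 (.lg 0 false 1 79 79 29 0 528) .out)) (.nr 870 8193 (.nr 868 1025 (.lg 0 true 1 67 67
  29 0 528) (.nx 869 82572 (.lg 2 false 1 53 53 29 4932 528) .out)) .out))) .out) .out) (.na 874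
  163 (.lg 0 false 1 0 0 16 0 24) (.lg 0 false 1 0 0 16 0 24)))) (.na 892 173 (.na 876 169 (.lg 0
  false 1 0 0 16 0 24) (.na 884 172 (.nx 883 660563 (.nr 882 1048577 (.nr 877 169 .s1 (.nx 878 205
  (.l1 (.ls 61 19 251)) (.nr 881 524289 (.nr 879 8193 (.lg 0 false 1 73 73 17 0 6864) (.nx 880 6503
  (.lg 0 true 1 71 71 17 0 3432) .out)) .out))) .out) .out) (.nx 891 660563 (.nr 890 1048577 (.nr
  885 172 .s1 (.nx 886 205 (.l1 (.ls 73 29 247)) (.nr 889 524289 (.nr 887 8193 (.lg 0 true 1 79 79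
  23 0 528) (.nx 888 6503 (.lg 0 false 1 79 79 23 0 528) .out)) .out))) .out) .out))) (.na 900 179
  (.nx 899 660563 (.nr 898 1048577 (.nr 893 173 .s1 (.nx 894 205 (.l1 (.ls 73 17 245)) (.nr 897
  524289 (.nr 895 8193 (.lg 0 false 1 71 71 16 0 264) (.nx 896 6503 (.lg 0 true 1 71 71 16 0 2640)
  .out)) .out))) .out) .out) (.na 901 181 (.lg 0 false 1 0 0 16 0 24) (.lg 0 false 1 0 0 16 0
  24))))) (.na 935 199 (.na 918 191 (.na 910 188 (.nx 909 660563 (.nr 908 1048577 (.nr 903 184 .s1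
  (.nx 904 205 (.l1 (.ls 71 29 231)) (.nr 907 524289 (.nr 905 8193 (.lg 0 true 1 79 79 19 0 528)
  (.nx 906 6503 (.lg 0 false 1 73 73 19 0 528) .out)) .out))) .out) .out) (.nx 917 660563 (.nr 916
  1048577 (.nr 911 188 .s1 (.nx 912 205 (.l1 (.ls 73 23 226)) (.nr 915 524289 (.nr 913 8193 (.lg 0
  true 1 79 79 23 0 528) (.nx 914 6503 (.lg 0 false 1 79 79 23 0 528) .out)) .out))) .out) .out))
  (.na 926 193 (.nx 925 660563 (.nr 924 1048577 (.nr 919 191 .s1 (.nx 920 205 (.l1 (.ls 59 17 223))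
  (.nr 923 524289 (.nr 921 8193 (.lg 0 false 1 71 71 16 0 528) (.nx 922 6503 (.lg 0 true 1 67 67 16
  0 528) .out)) .out))) .out) .out) (.na 927 197 (.lg 0 false 1 0 0 16 0 24) (.nx 934 660563 (.nr
  933 1048577 (.nr 928 197 .s1 (.nx 929 205 (.l1 (.ls 73 17 216)) (.nr 932 524289 (.nr 930 8193
  (.lg 0 false 1 71 71 16 0 264) (.nx 931 6503 (.lg 0 true 1 71 71 16 0 2640) .out)) .out))) .out)
  .out)))) (.na 959 223 (.na 943 209 (.nx 942 660563 (.nr 941 1048577 (.nr 936 199 .s1 (.nx 937 205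
  (.l1 (.ls 59 17 214)) (.nr 940 524289 (.nr 938 8193 (.lg 0 false 1 67 67 16 0 264) (.nx 939 6503
  (.lg 0 true 1 67 67 16 0 528) .out)) .out))) .out) .out) (.na 951 211 (.nx 950 660563 (.nr 949
  1048577 (.nr 944 209 .s1 (.nx 945 205 (.l1 (.ls 61 17 204)) (.nr 948 524289 (.nr 946 8193 (.lg 0
  false 1 73 73 17 0 528) (.nx 947 6503 (.lg 0 true 1 71 71 17 0 528) .out)) .out))) .out) .out)
  (.nx 958 660563 (.nr 957 1048577 (.nr 952 211 .s1 (.nx 953 205 (.l1 (.ls 61 17 202)) (.nr 956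
  524289 (.nr 954 8193 (.lg 0 false 1 71 71 16 0 264) (.nx 955 6503 (.lg 0 true 1 67 67 16 0 264)
  .out)) .out))) .out) .out))) (.na 967 227 (.nx 966 660563 (.nr 965 1048577 (.nr 960 223 .s1 (.nx
  961 205 (.l1 (.ls 73 17 191)) (.nr 964 524289 (.nr 962 8193 (.lg 0 false 1 71 71 16 0 264) (.nx
  963 6503 (.lg 0 true 1 67 67 16 0 264) .out)) .out))) .out) .out) (.na 975 229 (.nx 974 660563
  (.nr 973 1048577 (.nr 968 227 .s1 (.nx 969 205 (.l1 (.ls 71 17 188)) (.nr 972 524289 (.nx 970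
  6503 (.lg 0 true 1 67 67 17 0 264) (.nr 971 8193 (.lg 0 false 1 71 71 17 0 2640) .out)) .out)))
  .out) .out) (.lg 0 false 1 0 0 16 0 24)))))) (.na 1535 512 (.na 995 247 (.na 985 239 (.na 984 233
  (.nx 983 660563 (.nr 982 1048577 (.nr 977 232 .s1 (.nx 978 205 (.l1 (.ls 73 23 184)) (.nr 981
  524289 (.nr 979 8193 (.lg 0 true 1 79 79 23 0 528) (.nx 980 6503 (.lg 0 false 1 73 73 23 0 528)
  .out)) .out))) .out) .out) (.lg 0 false 1 0 0 16 0 24)) (.na 986 241 (.lg 0 false 1 0 0 16 0 24)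
  (.na 987 244 (.lg 0 false 1 0 0 16 0 24) (.nx 994 660563 (.nr 993 1048577 (.nr 988 244 .s1 (.nx
  989 205 (.l1 (.ls 59 23 175)) (.nr 992 524289 (.nr 990 8193 (.lg 0 true 1 73 73 23 0 528) (.nx
  991 6503 (.lg 0 false 1 73 73 23 0 528) .out)) .out))) .out) .out)))) (.na 1012 253 (.na 1003 248
  (.nx 1002 660563 (.nr 1001 1048577 (.nr 996 247 .s1 (.nx 997 205 (.l1 (.ls 83 17 173)) (.nr 1000
  524289 (.nr 998 8193 (.lg 0 true 1 79 79 17 0 3432) (.nx 999 6503 (.lg 0 false 1 73 73 17 0 3432)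
  .out)) .out))) .out) .out) (.na 1011 251 (.nx 1010 660563 (.nr 1009 1048577 (.nr 1004 248 .s1
  (.nx 1005 205 (.l1 (.ls 79 23 172)) (.nr 1008 524289 (.nr 1006 8193 (.lg 0 true 1 73 73 23 0 528)
  (.nx 1007 6503 (.lg 0 false 1 73 73 23 0 528) .out)) .out))) .out) .out) (.lg 0 false 1 0 0 16 0
  24))) (.na 1020 256 (.nx 1019 660563 (.nr 1018 1048577 (.nr 1013 253 .s1 (.nx 1014 205 (.l1 (.ls
  79 19 169)) (.nr 1017 524289 (.nr 1015 8193 (.lg 0 false 1 73 73 19 0 2640) (.nx 1016 6503 (.lg 0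
  true 1 71 71 19 0 2640) .out)) .out))) .out) .out) (.na 1021 257 .ne (.nx 1534 82572 (.nr 1533
  1048577 (.nr 1022 257 .s1 (.nx 1277 647 (.la (.ls 67 29 1631)) (.nr 1532 262145 (.la (.lg 0 true
  1 73 73 23 0)) .out))) .out) .out))))) (.na 4988 4096 (.na 2796 1449 (.na 1965 725 (.nx 1964
  82572 (.nr 1963 1048577 (.nr 1536 512 .s1 (.nx 1749 5162 (.la (.ls 61 53 52046)) (.nr 1962 16385
  (.la (.lg 2 true 1 41 41 29 12358)) .out))) .out) .out) (.na 2267 1024 (.nx 2266 3252 (.nr 2265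
  262145 (.nr 1966 725 .s1 (.la (.ls 47 43 14589))) .out) .out) (.nx 2795 3252 (.nr 2794 262145
  (.nr 2268 1024 .s1 (.nx 2369 101 (.nr 2368 131073 (.lx (.lp 19 0 363)) .out) (.la (.ls 47 41
  10320)))) .out) .out))) (.na 3398 2048 (.nx 3397 1627 (.nr 3396 131073 (.nr 2797 1449 .s1 (.la
  (.ls 43 31 1829))) .out) .out) (.na 4339 2897 (.nx 4338 1627 (.nr 4337 131073 (.nr 3399 2048 .s1
  (.nx 3487 88 (.nr 3486 19272 (.lx (.lp 41 29 725)) (.l1 .sk)) (.nx 3488 89 (.l1 .sk) (.la (.ls 47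
  31 1291))))) .out) .out) (.nx 4987 647 (.nr 4986 65537 (.nr 4340 2897 .s1 (.lx (.lp 43 31 1025)))
  .out) .out)))) (.na 6937 32768 (.na 5638 8192 (.nx 5637 647 (.nr 5636 65537 (.nr 4989 4096 .s1
  (.nx 5151 163 (.lx (.lp 43 31 2049)) (.nr 5635 32769 (.lx (.lp 37 37 2049)) .out))) .out) .out)
  (.na 6287 16384 (.nx 6286 647 (.nr 6285 65537 (.nr 5639 8192 .s1 (.lx (.lp 37 41 4097))) .out)
  .out) (.nx 6936 647 (.nr 6935 131073 (.nr 6288 16384 .s1 (.nx 6450 163 (.lx (.lp 41 41 8193))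
  (.nr 6934 65537 (.lx (.lp 31 43 8193)) .out))) .out) .out))) (.na 7263 65536 (.nx 7262 324 (.nr
  7261 131073 (.nr 6938 32768 .s1 (.lx (.lp 17 43 16385))) .out) .out) (.na 7589 131073 (.nx 7588
  324 (.nr 7587 262145 (.nr 7264 65536 .s1 (.lx (.lp 19 47 32769))) .out) .out) .out)))))))

def T131_1 : Ph :=
  (.na 509 157 (.na 308 89 (.na 174 54 (.na 92 37 (.na 49 32 (.na 17 27 (.nx 16 660563 (.nr 15
  131073 (.nr 1 24 .s1 (.nx 4 48 (.nx 3 47 (.nr 2 132 (.l1 (.ls 31 23 95)) (.l1 .sk)) (.l1 .sk))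
  (.nr 13 55110 (.nx 10 41287 (.nr 6 12426 (.lg 0 false 2 83 83 23 0 6768) (.nx 7 6503 (.lg 0 false
  1 97 101 19 0 236880) (.nr 9 32769 (.lg 2 true 2 73 73 23 5575 6768) .out))) (.nr 12 257 (.lg 0
  true 2 79 79 23 0 6768) .out)) (.nx 14 2582 (.lg 0 false 1 97 97 19 0 236880) .out)))) .out)
  .out) (.na 34 28 (.nx 33 660563 (.nr 32 131073 (.nr 18 27 .s1 (.nx 25 6503 (.nx 20 47 (.nr 19 137
  (.l1 (.ls 16 17 84)) (.l1 .sk)) (.nx 21 48 (.l1 .sk) (.lg 0 false 4 73 73 16 0 6768))) (.nr 31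
  32769 (.nr 29 257 (.lg 0 true 4 61 61 16 0 6768) (.nx 30 41287 (.lg 1 false 1 73 73 16 5575 3384)
  .out)) .out))) .out) .out) (.nx 48 660563 (.nr 47 131073 (.nr 35 28 .s1 (.nx 41 6503 (.nx 37 47
  (.nr 36 156 (.l1 (.ls 23 23 81)) (.l1 .sk)) (.nx 38 48 (.l1 .sk) (.lg 0 false 3 83 83 19 0
  47376))) (.nr 46 32769 (.nr 44 257 (.lg 0 true 3 71 71 19 0 47376) (.nx 45 41287 (.lg 1 false 1
  83 83 13 5575 47376) .out)) .out))) .out) .out))) (.na 66 34 (.na 65 33 (.nx 64 660563 (.nr 63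
  262145 (.nr 50 32 .s1 (.nx 55 2582 (.nx 52 47 (.nr 51 161 (.l1 (.ls 19 17 72)) (.l1 .sk)) (.nx 53
  48 (.l1 .sk) (.lg 0 false 2 79 79 13 0 6768))) (.nr 62 55110 (.nx 56 6503 (.lg 1 true 1 73 73 13
  23600 6768) (.nr 61 32769 (.nr 59 257 (.lg 0 true 3 71 71 19 0 6768) (.nx 60 41287 (.lg 1 false 1
  83 83 13 5575 47376) .out)) .out)) .out))) .out) .out) .ne) (.na 80 36 (.nx 79 82572 (.nr 78
  262145 (.nr 67 34 .s1 (.nx 70 48 (.nx 69 47 (.nr 68 176 (.l1 (.ls 16 13 67)) (.l1 .sk)) (.l1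
  .sk)) (.nx 73 2582 (.lg 0 false 3 79 79 13 0 6768) (.nr 77 32769 (.nr 74 154 (.lg 0 false 1 61 61
  13 0 6768) (.nx 76 41287 (.lg 1 false 2 83 83 13 14041 6768) .out)) .out)))) .out) .out) (.nx 91
  82572 (.nr 90 262145 (.nr 81 36 .s1 (.nx 84 48 (.nx 83 47 (.nr 82 181 (.l1 (.ls 23 23 64)) (.l1
  .sk)) (.l1 .sk)) (.nx 86 2582 (.lg 0 false 2 83 83 23 0 6768) (.nr 89 32769 (.nr 87 154 (.lg 0
  true 1 59 59 19 0 6768) (.nx 88 41287 (.lg 1 false 1 89 89 19 14041 6768) .out)) .out)))) .out)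
  .out)))) (.na 132 48 (.na 105 42 (.nx 104 82572 (.nr 103 262145 (.nr 93 37 .s1 (.nx 96 48 (.nx 95
  47 (.nr 94 205 (.l1 (.ls 16 16 62)) (.l1 .sk)) (.l1 .sk)) (.nr 101 32769 (.lg 0 true 5 83 83 16 0
  16920) (.nx 102 2582 (.lg 0 true 1 83 83 16 0 6768) .out)))) .out) .out) (.na 118 47 (.nx 117
  82572 (.nr 116 262145 (.nr 106 42 .s1 (.nx 109 48 (.nx 108 47 (.nr 107 229 (.l1 (.ls 19 23 55))
  (.l1 .sk)) (.l1 .sk)) (.nr 113 32769 (.nx 111 41287 (.lg 0 true 2 83 83 29 0 47376) (.nr 112 154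
  (.lg 0 true 1 53 53 23 0 47376) .out)) (.nx 115 2582 (.lg 0 false 2 83 83 29 0 47376) .out))))
  .out) .out) (.nx 131 82572 (.nr 130 262145 (.nr 119 47 .s1 (.nx 121 47 (.nr 120 234 (.l1 (.ls 16
  16 49)) (.l1 .sk)) (.nx 122 48 (.l1 .sk) (.nr 126 32769 (.lg 0 true 4 71 71 16 0 6768) (.nx 129
  2582 (.lg 0 true 3 61 61 16 0 3384) .out))))) .out) .out))) (.na 153 51 (.na 143 49 (.nx 142
  82572 (.nr 141 262145 (.nr 133 48 .s1 (.nx 136 48 (.nx 135 47 (.nr 134 239 (.l1 (.ls 23 19 49))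
  (.l1 .sk)) (.l1 .sk)) (.nx 139 41287 (.nr 137 32769 (.lg 0 false 1 83 83 23 0 6768) (.nx 138 2582
  (.lg 0 false 1 83 83 23 0 6768) .out)) (.nr 140 154 (.lg 0 true 1 43 59 23 0 6768) .out)))) .out)
  .out) (.nx 152 82572 (.nr 151 262145 (.nr 144 49 .s1 (.nx 146 47 (.nr 145 249 (.l1 (.ls 17 16
  48)) (.l1 .sk)) (.nx 147 48 (.l1 .sk) (.nr 149 32769 (.lg 0 false 2 89 89 16 0 236880) (.nx 150
  2582 (.lg 0 true 1 79 79 16 0 23688) .out))))) .out) .out)) (.na 164 53 (.nx 163 82572 (.nr 162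
  262145 (.nr 154 51 .s1 (.nx 160 41287 (.nx 156 47 (.nr 155 259 (.l1 (.ls 16 16 46)) (.l1 .sk))
  (.nx 157 48 (.l1 .sk) (.nr 158 32769 (.lg 0 false 1 89 89 16 0 33840) (.nx 159 2582 (.lg 0 false
  1 79 79 16 0 3384) .out)))) (.nr 161 154 (.lg 0 true 1 53 53 16 0 3384) .out))) .out) .out) (.nx
  173 82572 (.nr 172 262145 (.nr 165 53 .s1 (.nx 167 47 (.nr 166 264 (.l1 (.ls 16 16 44)) (.l1
  .sk)) (.nx 168 48 (.l1 .sk) (.nr 170 32769 (.lg 0 false 2 89 89 16 0 47376) (.nx 171 2582 (.lg 0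
  true 1 79 79 16 0 3384) .out))))) .out) .out))))) (.na 237 68 (.na 205 61 (.na 184 56 (.nx 183
  82572 (.nr 182 262145 (.nr 175 54 .s1 (.nx 178 48 (.nx 177 47 (.nr 176 273 (.l1 (.ls 17 19 43))
  (.l1 .sk)) (.l1 .sk)) (.nr 180 32769 (.lg 0 false 2 83 83 19 0 33840) (.nx 181 2582 (.lg 0 true 1
  79 79 19 0 33840) .out)))) .out) .out) (.na 195 59 (.nx 194 82572 (.nr 193 262145 (.nr 185 56 .s1
  (.nx 191 41287 (.nx 187 47 (.nr 186 288 (.l1 (.ls 31 19 42)) (.l1 .sk)) (.nx 188 48 (.l1 .sk)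
  (.nr 189 32769 (.lg 0 false 1 97 97 23 0 236880) (.nx 190 2582 (.lg 0 false 1 89 89 23 0 236880)
  .out)))) (.nr 192 154 (.lg 0 true 1 59 61 23 0 236880) .out))) .out) .out) (.nx 204 82572 (.nr
  203 262145 (.nr 196 59 .s1 (.nx 199 48 (.nx 198 47 (.nr 197 298 (.l1 (.ls 16 16 40)) (.l1 .sk))
  (.l1 .sk)) (.nr 201 32769 (.lg 0 false 2 89 89 16 0 236880) (.nx 202 2582 (.lg 0 true 1 79 79 16
  0 3384) .out)))) .out) .out))) (.na 226 64 (.na 215 63 (.nx 214 82572 (.nr 213 262145 (.nr 206 61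
  .s1 (.nx 209 48 (.nx 208 47 (.nr 207 307 (.l1 (.ls 16 16 39)) (.l1 .sk)) (.l1 .sk)) (.nr 211
  32769 (.lg 0 false 2 83 83 16 0 6768) (.nx 212 2582 (.lg 0 true 1 79 79 16 0 3384) .out)))) .out)
  .out) (.nx 225 82572 (.nr 224 262145 (.nr 216 63 .s1 (.nx 222 41287 (.nx 218 47 (.nr 217 312 (.l1
  (.ls 17 17 38)) (.l1 .sk)) (.nx 219 48 (.l1 .sk) (.nr 220 32769 (.lg 0 false 1 83 83 17 0 47376)
  (.nx 221 2582 (.lg 0 false 1 73 73 17 0 23688) .out)))) (.nr 223 154 (.lg 0 true 1 43 43 17 0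
  47376) .out))) .out) .out)) (.na 236 65 (.nx 235 82572 (.nr 234 524289 (.nr 227 64 .s1 (.nx 230
  6503 (.nx 228 647 (.l1 (.ls 79 43 6543)) (.nr 229 262145 (.lg 0 true 1 89 89 17 0 236880) .out))
  (.nr 233 65537 (.nr 231 257 (.lg 0 true 1 59 59 17 0 6768) (.nx 232 41287 (.lg 1 true 1 79 79 17
  11140 6768) .out)) .out))) .out) .out) .ne))) (.na 274 79 (.na 256 72 (.na 247 71 (.nx 246 82572
  (.nr 245 524289 (.nr 238 68 .s1 (.nx 239 647 (.l1 (.ls 79 47 6159)) (.nr 244 262145 (.nx 240 6503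
  (.lg 0 true 1 83 83 13 0 6768) (.nr 243 65537 (.nr 241 257 (.lg 0 true 1 59 59 13 0 6768) (.nx
  242 41287 (.lg 1 false 1 79 79 13 11140 6768) .out)) .out)) .out))) .out) .out) (.nx 255 82572
  (.nr 254 524289 (.nr 248 71 .s1 (.nx 251 6503 (.nx 249 647 (.l1 (.ls 67 37 5898)) (.nr 250 262145
  (.lg 0 true 1 83 83 16 0 3384) .out)) (.nr 253 65537 (.lg 1 true 2 83 83 16 27331 6768) .out)))
  .out) .out)) (.na 266 74 (.nx 265 82572 (.nr 264 524289 (.nr 257 72 .s1 (.nx 258 647 (.l1 (.ls 79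
  47 5817)) (.nr 263 262145 (.nx 259 6503 (.lg 0 false 1 83 83 29 0 6768) (.nr 262 65537 (.nr 260
  257 (.lg 0 true 1 59 59 29 0 6768) (.nx 261 41287 (.lg 1 true 1 73 79 29 11140 6768) .out))
  .out)) .out))) .out) .out) (.nx 273 82572 (.nr 272 524289 (.nr 267 74 .s1 (.nx 268 647 (.l1 (.ls
  73 47 5659)) (.nr 271 262145 (.nx 269 6503 (.lg 0 true 1 89 89 13 0 236880) (.nr 270 65537 (.lg 1
  false 1 89 89 13 26223 236880) .out)) .out))) .out) .out))) (.na 290 83 (.na 282 81 (.nx 281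
  82572 (.nr 280 524289 (.nr 275 79 .s1 (.nx 278 6503 (.nx 276 647 (.l1 (.ls 71 37 5301)) (.nr 277
  262145 (.lg 0 true 1 83 83 16 0 33840) .out)) (.nr 279 65537 (.lg 1 false 1 83 83 16 24563 3384)
  .out))) .out) .out) (.nx 289 82572 (.nr 288 524289 (.nr 283 81 .s1 (.nx 286 6503 (.nx 284 647
  (.l1 (.ls 71 41 5171)) (.nr 285 262145 (.lg 0 true 1 79 79 16 0 3384) .out)) (.nr 287 65537 (.lg
  1 false 1 79 79 16 23957 3384) .out))) .out) .out)) (.na 298 84 (.nx 297 82572 (.nr 296 524289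
  (.nr 291 83 .s1 (.nx 292 647 (.l1 (.ls 67 37 5046)) (.nr 295 262145 (.nx 293 6503 (.lg 0 true 1
  73 73 16 0 3384) (.nr 294 65537 (.lg 1 false 1 73 73 16 23379 3384) .out)) .out))) .out) .out)
  (.nx 307 82572 (.nr 306 524289 (.nr 299 84 .s1 (.nx 304 41287 (.nx 300 647 (.l1 (.ls 83 53 4986))
  (.nr 303 262145 (.nx 301 6503 (.lg 0 false 1 89 89 31 0 236880) (.nr 302 65537 (.lg 1 true 1 83
  83 31 11551 236880) .out)) .out)) (.nr 305 257 (.lg 0 true 1 43 59 31 0 236880) .out))) .out)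
  .out)))))) (.na 435 126 (.na 367 103 (.na 334 97 (.na 316 94 (.nx 315 82572 (.nr 314 524289 (.nr
  309 89 .s1 (.nx 310 647 (.l1 (.ls 71 37 4706)) (.nr 313 262145 (.nx 311 6503 (.lg 0 true 1 79 79
  16 0 33840) (.nr 312 65537 (.lg 1 false 1 79 79 16 21803 33840) .out)) .out))) .out) .out) (.na
  324 96 (.nx 323 82572 (.nr 322 524289 (.nr 317 94 .s1 (.nx 318 647 (.l1 (.ls 67 43 4456)) (.nr
  321 262145 (.lg 0 true 3 83 83 19 0 236880) .out))) .out) .out) (.nx 333 82572 (.nr 332 524289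
  (.nr 325 96 .s1 (.nx 330 41287 (.nx 326 647 (.l1 (.ls 79 47 4363)) (.nr 329 262145 (.nx 327 6503
  (.lg 0 false 1 83 89 29 0 33840) (.nr 328 65537 (.lg 1 true 1 79 79 29 11140 33840) .out)) .out))
  (.nr 331 257 (.lg 0 true 1 43 59 29 0 33840) .out))) .out) .out))) (.na 350 101 (.na 342 98 (.nx
  341 82572 (.nr 340 524289 (.nr 335 97 .s1 (.nx 338 6503 (.nx 336 647 (.l1 (.ls 67 31 4318)) (.nr
  337 262145 (.lg 0 true 1 73 73 16 0 3384) .out)) (.nr 339 65537 (.lg 1 false 1 73 73 16 20005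
  3384) .out))) .out) .out) (.nx 349 82572 (.nr 348 524289 (.nr 343 98 .s1 (.nx 346 6503 (.nx 344
  647 (.l1 (.ls 71 43 4274)) (.nr 345 262145 (.lg 0 true 1 79 79 19 0 47376) .out)) (.nr 347 65537
  (.lg 1 false 1 79 79 19 19801 47376) .out))) .out) .out)) (.na 359 102 (.nx 358 82572 (.nr 357
  524289 (.nr 351 101 .s1 (.nx 355 41287 (.nx 352 647 (.l1 (.ls 71 31 4147)) (.nr 354 262145 (.lg 0
  true 2 89 89 16 0 236880) .out)) (.nr 356 257 (.lg 0 true 1 41 41 16 0 236880) .out))) .out)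
  .out) (.nx 366 82572 (.nr 365 524289 (.nr 360 102 .s1 (.nx 361 647 (.l1 (.ls 73 53 4107)) (.nr
  364 262145 (.nx 362 6503 (.lg 0 true 1 83 83 29 0 47376) (.nr 363 65537 (.lg 1 false 1 83 83 29
  19024 47376) .out)) .out))) .out) .out)))) (.na 399 112 (.na 383 108 (.na 375 106 (.nx 374 82572
  (.nr 373 524289 (.nr 368 103 .s1 (.nx 371 6503 (.nx 369 647 (.l1 (.ls 61 31 4067)) (.nr 370
  262145 (.lg 0 true 1 71 71 16 0 6768) .out)) (.nr 372 65537 (.lg 1 false 1 71 71 16 18840 6768)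
  .out))) .out) .out) (.nx 382 82572 (.nr 381 524289 (.nr 376 106 .s1 (.nx 379 6503 (.nx 377 647
  (.l1 (.ls 73 41 3952)) (.nr 378 262145 (.lg 0 true 1 79 79 19 0 6768) .out)) (.nr 380 65537 (.lg
  1 false 1 79 79 19 18307 6768) .out))) .out) .out)) (.na 391 111 (.nx 390 82572 (.nr 389 524289
  (.nr 384 108 .s1 (.nx 387 6503 (.nx 385 647 (.l1 (.ls 73 47 3879)) (.nr 386 262145 (.lg 0 false 1
  73 73 23 0 6768) .out)) (.nr 388 65537 (.lg 1 false 1 79 79 23 17968 47376) .out))) .out) .out)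
  (.nx 398 82572 (.nr 397 524289 (.nr 392 111 .s1 (.nx 395 6503 (.nx 393 647 (.l1 (.ls 73 41 3774))
  (.nr 394 262145 (.lg 0 false 1 79 79 17 0 3384) .out)) (.nr 396 65537 (.lg 1 true 1 79 79 17
  17482 3384) .out))) .out) .out))) (.na 418 119 (.na 409 118 (.nx 408 82572 (.nr 407 524289 (.nr
  400 112 .s1 (.nx 405 41287 (.nx 403 6503 (.nx 401 647 (.l1 (.ls 79 43 3740)) (.nr 402 262145 (.lg
  0 false 1 83 83 29 0 47376) .out)) (.nr 404 65537 (.lg 1 true 1 73 79 29 11140 47376) .out)) (.nr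
  406 257 (.lg 0 true 1 43 53 29 0 47376) .out))) .out) .out) (.nx 417 82572 (.nr 416 524289 (.nr
  410 118 .s1 (.nx 411 647 (.l1 (.ls 71 41 3550)) (.nr 415 262145 (.nx 413 41287 (.lg 0 false 2 83
  83 19 0 6768) (.nr 414 257 (.lg 0 true 1 31 31 19 0 6768) .out)) .out))) .out) .out)) (.na 426
  122 (.nx 425 82572 (.nr 424 524289 (.nr 419 119 .s1 (.nx 422 6503 (.nx 420 647 (.l1 (.ls 79 41
  3520)) (.nr 421 262145 (.lg 0 true 1 83 83 16 0 23688) .out)) (.nr 423 65537 (.lg 1 false 1 83 83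
  16 16307 23688) .out))) .out) .out) (.nx 434 82572 (.nr 433 524289 (.nr 427 122 .s1 (.nx 428 647
  (.l1 (.ls 59 41 3434)) (.nr 432 262145 (.nx 430 41287 (.lg 0 true 2 89 89 19 0 47376) (.nr 431
  257 (.lg 0 true 1 31 31 19 0 47376) .out)) .out))) .out) .out))))) (.na 466 141 (.na 452 131 (.na
  443 128 (.nx 442 82572 (.nr 441 524289 (.nr 436 126 .s1 (.nx 439 6503 (.nx 437 647 (.l1 (.ls 73
  47 3325)) (.nr 438 262145 (.lg 0 false 1 79 79 31 0 47376) .out)) (.nr 440 65537 (.lg 1 false 1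
  79 79 31 15401 236880) .out))) .out) .out) (.na 451 129 (.nx 450 82572 (.nr 449 1048577 (.nr 444
  128 .s1 (.nx 445 647 (.l1 (.ls 73 41 3273)) (.nr 448 262145 (.nx 446 6503 (.lg 0 false 1 73 73 19
  0 6768) (.nr 447 131073 (.lg 1 true 1 73 73 19 22272 6768) .out)) .out))) .out) .out) .ne)) (.na
  464 137 (.na 458 136 (.nx 457 41287 (.nr 456 1048577 (.nr 453 131 .s1 (.nx 454 647 (.l1 (.ls 71
  31 3198)) (.nr 455 131073 (.lg 0 true 1 79 79 16 0 3384) .out))) .out) .out) (.nx 463 41287 (.nr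
  462 1048577 (.nr 459 136 .s1 (.nx 460 647 (.l1 (.ls 83 43 3081)) (.nr 461 131073 (.lg 0 false 1
  97 101 29 0 236880) .out))) .out) .out)) (.na 465 139 (.lg 0 false 1 0 0 16 0 24) (.lg 0 false 1
  0 0 16 0 24)))) (.na 490 148 (.na 478 144 (.na 472 142 (.nx 471 41287 (.nr 470 1048577 (.nr 467
  141 .s1 (.nx 468 647 (.l1 (.ls 71 37 2971)) (.nr 469 131073 (.lg 0 true 1 79 79 17 0 3384)
  .out))) .out) .out) (.nx 477 41287 (.nr 476 1048577 (.nr 473 142 .s1 (.nx 474 647 (.l1 (.ls 67 41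
  2950)) (.nr 475 131073 (.lg 0 true 1 83 83 19 0 6768) .out))) .out) .out)) (.na 484 147 (.nx 483
  41287 (.nr 482 1048577 (.nr 479 144 .s1 (.nx 480 647 (.l1 (.ls 83 43 2910)) (.nr 481 131073 (.lg
  0 false 1 97 97 31 0 236880) .out))) .out) .out) (.nx 489 41287 (.nr 488 1048577 (.nr 485 147 .s1
  (.nx 486 647 (.l1 (.ls 73 41 2850)) (.nr 487 131073 (.lg 0 false 1 79 79 23 0 23688) .out)))
  .out) .out))) (.na 502 151 (.na 496 149 (.nx 495 41287 (.nr 494 1048577 (.nr 491 148 .s1 (.nx 492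
  647 (.l1 (.ls 79 43 2831)) (.nr 493 131073 (.lg 0 false 1 83 83 23 0 6768) .out))) .out) .out)
  (.nx 501 41287 (.nr 500 1048577 (.nr 497 149 .s1 (.nx 498 647 (.l1 (.ls 67 31 2812)) (.nr 499
  131073 (.lg 0 true 1 79 79 16 0 33840) .out))) .out) .out)) (.na 503 153 (.lg 0 false 1 0 0 16 0
  24) (.nx 508 41287 (.nr 507 1048577 (.nr 504 153 .s1 (.nx 505 647 (.l1 (.ls 73 41 2739)) (.nr 506
  131073 (.lg 0 false 1 83 83 23 0 3384) .out))) .out) .out))))))) (.na 648 216 (.na 573 188 (.na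
  541 168 (.na 527 162 (.na 515 158 (.nx 514 41287 (.nr 513 1048577 (.nr 510 157 .s1 (.nx 511 647
  (.l1 (.ls 67 31 2669)) (.nr 512 131073 (.lg 0 true 1 73 73 16 0 3384) .out))) .out) .out) (.na
  521 159 (.nx 520 41287 (.nr 519 1048577 (.nr 516 158 .s1 (.nx 517 647 (.l1 (.ls 71 41 2652)) (.nr
  518 131073 (.lg 0 true 1 83 83 19 0 47376) .out))) .out) .out) (.nx 526 41287 (.nr 525 1048577
  (.nr 522 159 .s1 (.nx 523 647 (.l1 (.ls 79 37 2635)) (.nr 524 131073 (.lg 0 false 1 83 83 19 0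
  3384) .out))) .out) .out))) (.na 534 166 (.na 533 163 (.nx 532 41287 (.nr 531 1048577 (.nr 528
  162 .s1 (.nx 529 647 (.l1 (.ls 67 43 2587)) (.nr 530 131073 (.lg 0 true 1 73 73 23 0 6768)
  .out))) .out) .out) (.lg 0 false 1 0 0 16 0 24)) (.na 540 167 (.nx 539 41287 (.nr 538 1048577
  (.nr 535 166 .s1 (.nx 536 647 (.l1 (.ls 71 41 2524)) (.nr 537 131073 (.lg 0 true 1 83 83 19 0
  33840) .out))) .out) .out) (.lg 0 false 1 0 0 16 0 24)))) (.na 559 178 (.na 547 173 (.nx 546
  41287 (.nr 545 1048577 (.nr 542 168 .s1 (.nx 543 647 (.l1 (.ls 83 47 2494)) (.nr 544 131073 (.lg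
  0 false 1 83 97 41 0 47376) .out))) .out) .out) (.na 553 177 (.nx 552 41287 (.nr 551 1048577 (.nr
  548 173 .s1 (.nx 549 647 (.l1 (.ls 61 31 2422)) (.nr 550 131073 (.lg 0 true 1 73 73 16 0 6768)
  .out))) .out) .out) (.nx 558 41287 (.nr 557 1048577 (.nr 554 177 .s1 (.nx 555 647 (.l1 (.ls 73 37
  2368)) (.nr 556 131073 (.lg 0 false 1 83 83 19 0 3384) .out))) .out) .out))) (.na 566 181 (.na
  565 179 (.nx 564 41287 (.nr 563 1048577 (.nr 560 178 .s1 (.nx 561 647 (.l1 (.ls 67 41 2354)) (.nr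
  562 131073 (.lg 0 true 1 73 73 19 0 6768) .out))) .out) .out) (.lg 0 false 1 0 0 16 0 24)) (.na
  567 183 (.lg 0 false 1 0 0 16 0 24) (.nx 572 41287 (.nr 571 1048577 (.nr 568 183 .s1 (.nx 569 647
  (.l1 (.ls 73 37 2290)) (.nr 570 131073 (.lg 0 false 1 79 79 19 0 3384) .out))) .out) .out)))))
  (.na 610 197 (.na 591 192 (.na 579 189 (.nx 578 41287 (.nr 577 1048577 (.nr 574 188 .s1 (.nx 575
  647 (.l1 (.ls 67 41 2229)) (.nr 576 131073 (.lg 0 true 1 73 73 19 0 6768) .out))) .out) .out)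
  (.na 585 191 (.nx 584 41287 (.nr 583 1048577 (.nr 580 189 .s1 (.nx 581 647 (.l1 (.ls 73 41 2217))
  (.nr 582 131073 (.lg 0 true 1 83 83 23 0 236880) .out))) .out) .out) (.nx 590 41287 (.nr 589
  1048577 (.nr 586 191 .s1 (.nx 587 647 (.l1 (.ls 67 29 2194)) (.nr 588 131073 (.lg 0 true 1 73 73
  16 0 33840) .out))) .out) .out))) (.na 598 194 (.na 597 193 (.nx 596 41287 (.nr 595 1048577 (.nr
  592 192 .s1 (.nx 593 647 (.l1 (.ls 79 43 2183)) (.nr 594 131073 (.lg 0 false 1 83 89 31 0 47376)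
  .out))) .out) .out) (.lg 0 false 1 0 0 16 0 24)) (.na 604 196 (.nx 603 41287 (.nr 602 1048577
  (.nr 599 194 .s1 (.nx 600 647 (.l1 (.ls 67 41 2160)) (.nr 601 131073 (.lg 0 true 1 73 73 19 0
  33840) .out))) .out) .out) (.nx 609 41287 (.nr 608 1048577 (.nr 605 196 .s1 (.nx 606 647 (.l1
  (.ls 73 41 2138)) (.nr 607 131073 (.lg 0 true 1 83 83 29 0 236880) .out))) .out) .out)))) (.na
  629 206 (.na 617 202 (.na 616 199 (.nx 615 41287 (.nr 614 1048577 (.nr 611 197 .s1 (.nx 612 647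
  (.l1 (.ls 67 29 2127)) (.nr 613 131073 (.lg 0 true 1 73 73 16 0 3384) .out))) .out) .out) (.lg 0
  false 1 0 0 16 0 24)) (.na 623 204 (.nx 622 41287 (.nr 621 1048577 (.nr 618 202 .s1 (.nx 619 647
  (.l1 (.ls 67 37 2075)) (.nr 620 131073 (.lg 0 false 1 71 71 23 0 6768) .out))) .out) .out) (.nx
  628 41287 (.nr 627 1048577 (.nr 624 204 .s1 (.nx 625 647 (.l1 (.ls 83 47 2055)) (.nr 626 131073
  (.lg 0 false 1 89 97 37 0 236880) .out))) .out) .out))) (.na 636 212 (.na 635 211 (.nx 634 41287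
  (.nr 633 1048577 (.nr 630 206 .s1 (.nx 631 647 (.l1 (.ls 71 37 2035)) (.nr 632 131073 (.lg 0 true
  1 79 79 23 0 236880) .out))) .out) .out) (.lg 0 false 1 0 0 16 0 24)) (.na 642 213 (.nx 641 41287
  (.nr 640 1048577 (.nr 637 212 .s1 (.nx 638 647 (.l1 (.ls 73 37 1977)) (.nr 639 131073 (.lg 0
  false 1 79 79 23 0 6768) .out))) .out) .out) (.nx 647 41287 (.nr 646 1048577 (.nr 643 213 .s1
  (.nx 644 647 (.l1 (.ls 67 37 1968)) (.nr 645 131073 (.lg 0 false 1 79 79 19 0 3384) .out))) .out)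
  .out)))))) (.na 718 251 (.na 670 236 (.na 661 224 (.na 654 222 (.nx 653 41287 (.nr 652 1048577
  (.nr 649 216 .s1 (.nx 650 647 (.l1 (.ls 79 43 1941)) (.nr 651 131073 (.lg 0 false 1 89 89 31 0
  236880) .out))) .out) .out) (.na 660 223 (.nx 659 41287 (.nr 658 1048577 (.nr 655 222 .s1 (.nx
  656 647 (.l1 (.ls 73 47 1888)) (.nr 657 131073 (.lg 0 false 1 79 79 31 0 6768) .out))) .out)
  .out) (.lg 0 false 1 0 0 16 0 24))) (.na 668 229 (.na 667 227 (.nx 666 41287 (.nr 665 1048577
  (.nr 662 224 .s1 (.nx 663 647 (.l1 (.ls 79 41 1871)) (.nr 664 131073 (.lg 0 false 1 83 89 31 0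
  236880) .out))) .out) .out) (.lg 0 false 1 0 0 16 0 24)) (.na 669 233 (.lg 0 false 1 0 0 16 0 24)
  (.lg 0 false 1 0 0 16 0 24)))) (.na 694 241 (.na 682 238 (.na 676 237 (.nx 675 41287 (.nr 674
  1048577 (.nr 671 236 .s1 (.nx 672 647 (.l1 (.ls 73 37 1776)) (.nr 673 131073 (.lg 0 false 1 83 83
  23 0 33840) .out))) .out) .out) (.nx 681 41287 (.nr 680 1048577 (.nr 677 237 .s1 (.nx 678 647
  (.l1 (.ls 71 31 1769)) (.nr 679 131073 (.lg 0 false 1 73 73 19 0 3384) .out))) .out) .out)) (.na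
  688 239 (.nx 687 41287 (.nr 686 1048577 (.nr 683 238 .s1 (.nx 684 647 (.l1 (.ls 73 43 1761)) (.nr
  685 131073 (.lg 0 false 1 79 79 31 0 47376) .out))) .out) .out) (.nx 693 41287 (.nr 692 1048577
  (.nr 689 239 .s1 (.nx 690 647 (.l1 (.ls 67 29 1754)) (.nr 691 131073 (.lg 0 true 1 71 71 17 0
  3384) .out))) .out) .out))) (.na 706 244 (.na 700 243 (.nx 699 41287 (.nr 698 1048577 (.nr 695
  241 .s1 (.nx 696 647 (.l1 (.ls 67 29 1739)) (.nr 697 131073 (.lg 0 true 1 73 73 17 0 3384)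
  .out))) .out) .out) (.nx 705 41287 (.nr 704 1048577 (.nr 701 243 .s1 (.nx 702 647 (.l1 (.ls 61 31
  1725)) (.nr 703 131073 (.lg 0 true 1 71 71 19 0 6768) .out))) .out) .out)) (.na 712 249 (.nx 711
  41287 (.nr 710 1048577 (.nr 707 244 .s1 (.nx 708 647 (.l1 (.ls 59 37 1718)) (.nr 709 131073 (.lg
  0 false 1 83 83 23 0 6768) .out))) .out) .out) (.nx 717 41287 (.nr 716 1048577 (.nr 713 249 .s1
  (.nx 714 647 (.l1 (.ls 71 31 1684)) (.nr 715 131073 (.lg 0 false 1 73 73 23 0 3384) .out))) .out)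
  .out))))) (.na 1826 1449 (.na 736 257 (.na 724 252 (.nx 723 41287 (.nr 722 1048577 (.nr 719 251
  .s1 (.nx 720 647 (.l1 (.ls 67 29 1670)) (.nr 721 131073 (.lg 0 true 1 71 71 17 0 3384) .out)))
  .out) .out) (.na 730 256 (.nx 729 41287 (.nr 728 1048577 (.nr 725 252 .s1 (.nx 726 647 (.l1 (.ls
  79 43 1664)) (.nr 727 131073 (.lg 0 false 1 83 83 37 0 47376) .out))) .out) .out) (.nx 735 41287
  (.nr 734 1048577 (.nr 731 256 .s1 (.nx 732 647 (.l1 (.ls 73 37 1638)) (.nr 733 262145 (.lg 0 true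
  1 83 83 29 0 236880) .out))) .out) .out))) (.na 1306 725 (.na 1042 512 (.nx 1041 41287 (.nr 1040
  262145 (.nr 737 257 .s1 (.nx 784 47 (.nr 783 2496 (.lx (.lp 41 17 129)) (.l1 .sk)) (.nx 785 48
  (.l1 .sk) (.la (.lg 0 false 1 79 79 23 0))))) .out) .out) (.nx 1305 41287 (.nr 1304 262145 (.nr
  1043 512 .s1 (.nx 1090 47 (.nr 1089 3534 (.lx (.lp 16 0 182)) (.l1 .sk)) (.nx 1091 48 (.l1 .sk)
  (.la (.lg 0 false 1 71 71 29 0))))) .out) .out)) (.na 1566 1024 (.nx 1565 257 (.nr 1564 65537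
  (.nr 1307 725 .s1 (.nx 1435 129 (.lx (.lp 59 23 257)) (.nr 1563 8193 (.lx (.lp 37 23 257))
  .out))) .out) .out) (.nx 1825 257 (.nr 1824 65537 (.nr 1567 1024 .s1 (.nx 1695 129 (.lx (.lp 59
  23 363)) (.nr 1823 8193 (.lx (.lp 37 29 363)) .out))) .out) .out)))) (.na 2865 5793 (.na 2345
  2897 (.na 2085 2048 (.nx 2084 257 (.nr 2083 16385 (.nr 1827 1449 .s1 (.lx (.lp 41 29 513))) .out)
  .out) (.nx 2344 257 (.nr 2343 32769 (.nr 2086 2048 .s1 (.nx 2188 103 (.lx (.lp 41 29 725)) (.nr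
  2342 16385 (.lx (.lp 37 31 725)) .out))) .out) .out)) (.na 2605 4096 (.nx 2604 257 (.nr 2603
  32769 (.nr 2346 2897 .s1 (.nx 2448 103 (.lx (.lp 43 29 1025)) (.nr 2602 16385 (.lx (.lp 31 31
  1025)) .out))) .out) .out) (.nx 2864 257 (.nr 2863 32769 (.nr 2606 4096 .s1 (.nx 2708 103 (.lx
  (.lp 16 0 1449)) (.nr 2862 16385 (.lx (.lp 31 37 1449)) .out))) .out) .out))) (.na 3075 16384
  (.na 2970 8192 (.nx 2969 103 (.nr 2968 32769 (.nr 2866 5793 .s1 (.lx (.lp 37 31 2049))) .out)
  .out) (.nx 3074 103 (.nr 3073 32769 (.nr 2971 8192 .s1 (.lx (.lp 16 0 4097))) .out) .out)) (.na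
  3077 32769 (.nx 3076 103 (.l1 .sk) .out) .out)))))))

def T131_2 : Ph :=
  (.na 293 212 (.na 166 167 (.na 83 136 (.na 55 124 (.na 27 119 (.na 14 116 (.nx 13 2097153 (.nr 12
  2097153 (.nr 1 113 .s1 (.nx 6 20644 (.nx 2 324 (.l1 (.ls 73 23 931)) (.nr 5 1048577 (.lg 0 false
  3 83 83 16 0 1872) .out)) (.nr 11 65537 (.nx 8 131073 (.lg 0 true 2 79 79 16 0 624) (.nr 10 513
  (.lg 0 true 2 61 61 16 0 624) .out)) .out))) .out) .out) (.nx 26 2097153 (.nr 25 2097153 (.nr 15
  116 .s1 (.nx 22 131073 (.nx 16 324 (.l1 (.ls 83 37 907)) (.nr 21 1048577 (.nx 19 20644 (.lg 0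
  false 3 97 101 23 0 144144) (.nr 20 65537 (.lg 0 false 1 101 101 19 0 144144) .out)) .out)) (.nr
  24 513 (.lg 0 true 2 71 71 23 0 624) .out))) .out) .out)) (.na 40 121 (.nx 39 2097153 (.nr 38
  2097153 (.nr 28 119 .s1 (.nx 35 131073 (.nx 29 324 (.l1 (.ls 83 31 885)) (.nr 34 1048577 (.nx 32
  20644 (.lg 0 false 3 89 97 23 0 13104) (.nr 33 65537 (.lg 0 false 1 89 89 16 0 4368) .out))
  .out)) (.nr 37 513 (.lg 0 true 2 71 71 23 0 4368) .out))) .out) .out) (.nx 54 2097153 (.nr 53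
  2097153 (.nr 41 121 .s1 (.nx 48 32769 (.nx 42 324 (.l1 (.ls 73 29 870)) (.nr 47 1048577 (.lg 0
  false 5 83 83 19 0 34320) .out)) (.nr 52 32769 (.nr 50 513 (.lg 0 true 2 59 59 17 0 6864) (.nx 51
  131073 (.lg 2 true 1 71 71 17 26573 6864) .out)) .out))) .out) .out))) (.na 69 131 (.na 68 128
  (.nx 67 2097153 (.nr 66 2097153 (.nr 56 124 .s1 (.nx 63 131073 (.nx 57 324 (.l1 (.ls 79 29 849))
  (.nr 62 1048577 (.nx 60 20644 (.lg 0 false 3 83 89 29 0 1872) (.nr 61 65537 (.lg 0 false 1 89 89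
  19 0 624) .out)) .out)) (.nr 65 513 (.lg 0 true 2 67 67 23 0 624) .out))) .out) .out) .ne) (.na
  70 133 (.lg 0 false 1 0 0 16 0 24) (.nx 82 1048577 (.nr 81 1482912 (.nr 71 133 .s1 (.nx 79 131073
  (.nx 73 208 (.nr 72 1389 (.l1 (.ls 17 29 328)) (.l1 .sk)) (.nx 74 209 (.l1 .sk) (.nx 77 16385
  (.lg 0 false 3 97 97 23 0 65520) (.nr 78 65537 (.lg 0 false 1 97 97 17 0 21840) .out)))) (.nr 80
  1025 (.lg 0 true 1 71 71 17 0 4368) .out))) .out) .out)))) (.na 111 149 (.na 97 139 (.na 96 137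
  (.nx 95 1048577 (.nr 94 1482912 (.nr 84 136 .s1 (.nx 86 208 (.nr 85 1399 (.l1 (.ls 16 31 321))
  (.l1 .sk)) (.nx 87 209 (.l1 .sk) (.nx 90 16385 (.lg 0 false 3 89 89 31 0 13104) (.nr 93 65537
  (.nx 91 131073 (.lg 0 false 1 89 89 29 0 13104) (.nr 92 1025 (.lg 0 true 1 71 71 29 0 624) .out))
  .out))))) .out) .out) (.lg 0 false 1 0 0 16 0 24)) (.na 98 143 (.lg 0 false 1 0 0 16 0 24) (.nx
  110 1048577 (.nr 109 1482912 (.nr 99 143 .s1 (.nx 102 209 (.nx 101 208 (.nr 100 1522 (.l1 (.ls 31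
  29 305)) (.l1 .sk)) (.l1 .sk)) (.nx 105 32769 (.lg 0 false 3 89 89 23 0 20592) (.nr 108 16385
  (.nr 106 1025 (.lg 0 false 1 73 73 19 0 720720) (.nx 107 131073 (.lg 2 true 1 61 61 19 13300
  240240) .out)) .out)))) .out) .out))) (.na 127 152 (.na 112 151 (.lg 0 false 1 0 0 16 0 24) (.nx
  126 1048577 (.nr 125 1482912 (.nr 113 151 .s1 (.nx 115 208 (.nr 114 1552 (.l1 (.ls 19 19 289))
  (.l1 .sk)) (.nx 116 209 (.l1 .sk) (.nx 121 32769 (.lg 0 false 5 83 83 19 0 21840) (.nr 124 16385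
  (.nr 122 1025 (.lg 0 false 1 67 67 16 0 4368) (.nx 123 131073 (.lg 2 false 1 53 53 16 13300 624)
  .out)) .out))))) .out) .out)) (.na 140 157 (.nx 139 1048577 (.nr 138 1482912 (.nr 128 152 .s1
  (.nx 131 209 (.nx 130 208 (.nr 129 1603 (.l1 (.ls 17 31 287)) (.l1 .sk)) (.l1 .sk)) (.nx 134
  16385 (.lg 0 false 3 89 97 31 0 9360) (.nr 137 65537 (.nx 135 131073 (.lg 0 false 1 89 89 29 0
  624) (.nr 136 1025 (.lg 0 true 1 71 71 29 0 624) .out)) .out)))) .out) .out) (.na 153 163 (.nx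
  152 1048577 (.nr 151 1482912 (.nr 141 157 .s1 (.nx 147 32769 (.nx 143 208 (.nr 142 1665 (.l1 (.ls
  23 17 278)) (.l1 .sk)) (.nx 144 209 (.l1 .sk) (.lg 0 false 3 89 89 17 0 65520))) (.nr 150 16385
  (.nr 148 1025 (.lg 0 false 1 67 67 16 0 624) (.nx 149 131073 (.lg 2 true 1 53 53 16 13300 624)
  .out)) .out))) .out) .out) (.nx 165 1048577 (.nr 164 1482912 (.nr 154 163 .s1 (.nx 157 209 (.nx
  156 208 (.nr 155 1706 (.l1 (.ls 23 17 268)) (.l1 .sk)) (.l1 .sk)) (.nx 160 32769 (.lg 0 false 3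
  83 83 17 0 1872) (.nr 163 16385 (.nr 161 1025 (.lg 0 false 1 67 67 16 0 624) (.nx 162 131073 (.lg
  2 true 1 53 53 16 13300 624) .out)) .out)))) .out) .out)))))) (.na 243 191 (.na 204 179 (.na 180
  173 (.na 179 169 (.nx 178 1048577 (.nr 177 1482912 (.nr 167 167 .s1 (.nx 173 32769 (.nx 169 208
  (.nr 168 1726 (.l1 (.ls 23 17 262)) (.l1 .sk)) (.nx 170 209 (.l1 .sk) (.lg 0 false 3 83 83 17 0
  1872))) (.nr 176 16385 (.nr 174 1025 (.lg 0 false 1 67 67 16 0 624) (.nx 175 131073 (.lg 2 false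
  1 53 53 16 13300 624) .out)) .out))) .out) .out) (.lg 0 false 1 0 0 16 0 24)) (.na 193 176 (.nx
  192 1048577 (.nr 191 1482912 (.nr 181 173 .s1 (.nx 184 209 (.nx 183 208 (.nr 182 1797 (.l1 (.ls
  19 17 253)) (.l1 .sk)) (.l1 .sk)) (.nx 187 32769 (.lg 0 false 3 83 83 17 0 9360) (.nr 190 16385
  (.nr 188 1025 (.lg 0 false 1 61 61 16 0 624) (.nx 189 131073 (.lg 2 true 1 53 53 16 13300 624)
  .out)) .out)))) .out) .out) (.nx 203 1048577 (.nr 202 1482912 (.nr 194 176 .s1 (.nx 200 131073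
  (.nx 196 208 (.nr 195 1828 (.l1 (.ls 37 29 248)) (.l1 .sk)) (.nx 197 209 (.l1 .sk) (.nr 198 65537
  (.lg 0 true 1 83 89 31 0 6864) (.nx 199 16385 (.lg 0 false 1 97 97 31 0 48048) .out)))) (.nr 201
  1025 (.lg 0 true 1 71 71 31 0 6864) .out))) .out) .out))) (.na 218 182 (.na 205 181 (.lg 0 false
  1 0 0 16 0 24) (.nx 217 1048577 (.nr 216 1482912 (.nr 206 181 .s1 (.nx 212 32769 (.nx 208 208
  (.nr 207 1859 (.l1 (.ls 19 17 242)) (.l1 .sk)) (.nx 209 209 (.l1 .sk) (.lg 0 false 3 79 79 17 0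
  1872))) (.nr 215 16385 (.lg 0 true 3 73 73 17 0 1872) .out))) .out) .out)) (.na 219 187 .ne (.na
  231 188 (.nx 230 1048577 (.nr 229 1048577 (.nr 220 187 .s1 (.nr 224 65537 (.nx 222 131073 (.nx
  221 324 (.l1 (.ls 59 29 564)) (.lg 0 false 1 89 89 23 0 34320)) (.nr 223 1025 (.lg 0 true 1 71 71
  23 0 6864) .out)) (.nx 226 209 (.nx 225 208 (.l1 .sk) (.l1 .sk)) (.nx 228 16385 (.lg 0 false 2 89
  89 29 0 34320) .out)))) .out) .out) (.nx 242 1048577 (.nr 241 1048577 (.nr 232 188 .s1 (.nx 235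
  209 (.nx 234 208 (.nr 233 1951 (.l1 (.ls 31 29 233)) (.l1 .sk)) (.l1 .sk)) (.nx 239 131073 (.nr
  236 65537 (.lg 0 false 1 89 89 23 0 624) (.nx 238 16385 (.lg 0 false 2 83 89 29 0 624) .out))
  (.nr 240 1025 (.lg 0 true 1 67 67 23 0 624) .out)))) .out) .out))))) (.na 257 199 (.na 245 196
  (.na 244 193 (.lg 0 false 1 0 0 16 0 24) (.lg 0 false 1 0 0 16 0 24)) (.na 256 197 (.nx 255
  1048577 (.nr 254 1048577 (.nr 246 196 .s1 (.nx 252 131073 (.nx 248 208 (.nr 247 2012 (.l1 (.ls 29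
  29 223)) (.l1 .sk)) (.nx 249 209 (.l1 .sk) (.nr 250 65537 (.lg 0 true 1 79 79 29 0 4368) (.nx 251
  16385 (.lg 0 false 1 83 83 29 0 4368) .out)))) (.nr 253 1025 (.lg 0 true 1 61 61 29 0 4368)
  .out))) .out) .out) (.lg 0 false 1 0 0 16 0 24))) (.na 270 208 (.na 258 203 (.lg 0 false 1 0 0 16
  0 24) (.nx 269 1048577 (.nr 268 1048577 (.nr 259 203 .s1 (.nx 262 209 (.nx 261 208 (.nr 260 2124
  (.l1 (.ls 23 19 216)) (.l1 .sk)) (.l1 .sk)) (.nr 265 65537 (.nx 263 131073 (.lg 0 false 1 89 89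
  19 0 4368) (.nr 264 1025 (.lg 0 true 1 71 71 19 0 4368) .out)) (.nx 267 16385 (.lg 0 false 2 89
  89 23 0 4368) .out)))) .out) .out)) (.na 281 209 (.nx 280 1048577 (.nr 279 1048577 (.nr 271 208
  .s1 (.nx 273 208 (.nr 272 2134 (.l1 (.ls 29 29 210)) (.l1 .sk)) (.nx 274 209 (.l1 .sk) (.nr 277
  65537 (.nx 275 131073 (.lg 0 false 1 83 83 29 0 9360) (.nr 276 1025 (.lg 0 true 1 61 61 29 0 624)
  .out)) (.nx 278 16385 (.lg 0 false 1 83 83 29 0 624) .out))))) .out) .out) (.na 292 211 (.nx 291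
  1048577 (.nr 290 1048577 (.nr 282 209 .s1 (.nx 288 131073 (.nx 284 208 (.nr 283 2155 (.l1 (.ls 17
  17 210)) (.l1 .sk)) (.nx 285 209 (.l1 .sk) (.nr 286 65537 (.lg 0 false 1 83 83 17 0 6864) (.nx
  287 16385 (.lg 0 false 1 83 83 17 0 6864) .out)))) (.nr 289 1025 (.lg 0 true 1 67 67 17 0 6864)
  .out))) .out) .out) (.lg 0 false 1 0 0 16 0 24))))))) (.na 922 363 (.na 384 236 (.na 339 224 (.na
  315 221 (.na 304 217 (.nx 303 1048577 (.nr 302 1048577 (.nr 294 212 .s1 (.nx 300 131073 (.nx 296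
  208 (.nr 295 2216 (.l1 (.ls 29 23 207)) (.l1 .sk)) (.nx 297 209 (.l1 .sk) (.nr 298 65537 (.lg 0
  true 1 83 83 23 0 3120) (.nx 299 16385 (.lg 0 false 1 83 83 23 0 624) .out)))) (.nr 301 1025 (.lg
  0 true 1 67 67 23 0 624) .out))) .out) .out) (.nx 314 1048577 (.nr 313 1048577 (.nr 305 217 .s1
  (.nx 311 131073 (.nx 307 208 (.nr 306 2257 (.l1 (.ls 29 19 202)) (.l1 .sk)) (.nx 308 209 (.l1
  .sk) (.nr 309 65537 (.lg 0 false 1 89 89 19 0 65520) (.nx 310 16385 (.lg 0 true 1 97 97 19 0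
  65520) .out)))) (.nr 312 1025 (.lg 0 true 1 67 67 19 0 4368) .out))) .out) .out)) (.na 328 223
  (.nx 327 1048577 (.nr 326 1048577 (.nr 316 221 .s1 (.nx 319 209 (.nx 318 208 (.nr 317 2277 (.l1
  (.ls 16 23 198)) (.l1 .sk)) (.l1 .sk)) (.nx 322 32769 (.lg 0 false 3 79 79 29 0 1872) (.nr 325
  16385 (.nr 323 1025 (.lg 0 false 1 61 61 19 0 4368) (.nx 324 131073 (.lg 2 false 1 53 53 19 13300
  4368) .out)) .out)))) .out) .out) (.nx 338 1048577 (.nr 337 1048577 (.nr 329 223 .s1 (.nx 335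
  32769 (.nx 331 208 (.nr 330 2288 (.l1 (.ls 19 17 197)) (.l1 .sk)) (.nx 332 209 (.l1 .sk) (.lg 0
  false 3 79 79 19 0 1872))) (.nr 336 16385 (.lg 0 false 1 79 79 16 0 624) .out))) .out) .out)))
  (.na 361 229 (.na 350 227 (.nx 349 1048577 (.nr 348 1048577 (.nr 340 224 .s1 (.nx 346 131073 (.nx
  342 208 (.nr 341 2318 (.l1 (.ls 31 29 196)) (.l1 .sk)) (.nx 343 209 (.l1 .sk) (.nr 344 65537 (.lg
  0 true 1 83 89 31 0 13104) (.nx 345 16385 (.lg 0 false 1 89 89 31 0 13104) .out)))) (.nr 347 1025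
  (.lg 0 true 1 67 71 31 0 4368) .out))) .out) .out) (.nx 360 1048577 (.nr 359 1048577 (.nr 351 227
  .s1 (.nx 354 209 (.nx 353 208 (.nr 352 2339 (.l1 (.ls 23 17 193)) (.l1 .sk)) (.l1 .sk)) (.nx 357
  32769 (.lg 0 false 3 79 79 19 0 1872) (.nr 358 16385 (.lg 0 false 1 79 79 17 0 624) .out))))
  .out) .out)) (.na 362 232 (.lg 0 false 1 0 0 16 0 24) (.na 373 233 (.nx 372 1048577 (.nr 371
  1048577 (.nr 363 232 .s1 (.nx 365 208 (.nr 364 2379 (.l1 (.ls 23 23 189)) (.l1 .sk)) (.nx 366 209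
  (.l1 .sk) (.nr 369 65537 (.nx 367 131073 (.lg 0 false 1 83 83 23 0 624) (.nr 368 1025 (.lg 0 true
  1 67 67 23 0 624) .out)) (.nx 370 16385 (.lg 0 false 1 83 83 23 0 624) .out))))) .out) .out) (.nx
  383 1048577 (.nr 382 1048577 (.nr 374 233 .s1 (.nx 377 209 (.nx 376 208 (.nr 375 2410 (.l1 (.ls
  23 17 188)) (.l1 .sk)) (.l1 .sk)) (.nx 380 32769 (.lg 0 false 3 79 79 19 0 9360) (.nr 381 16385
  (.lg 0 false 1 79 79 17 0 624) .out)))) .out) .out))))) (.na 418 247 (.na 406 241 (.na 395 239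
  (.nx 394 1048577 (.nr 393 1048577 (.nr 385 236 .s1 (.nx 388 209 (.nx 387 208 (.nr 386 2441 (.l1
  (.ls 23 23 186)) (.l1 .sk)) (.l1 .sk)) (.nr 391 65537 (.nx 389 131073 (.lg 0 true 1 79 79 23 0
  624) (.nr 390 1025 (.lg 0 true 1 61 61 23 0 624) .out)) (.nx 392 16385 (.lg 0 false 1 83 83 23 0
  624) .out)))) .out) .out) (.nx 405 1048577 (.nr 404 1048577 (.nr 396 239 .s1 (.nx 399 209 (.nx
  398 208 (.nr 397 2461 (.l1 (.ls 17 17 184)) (.l1 .sk)) (.l1 .sk)) (.nx 402 32769 (.lg 0 false 3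
  73 73 19 0 1872) (.nr 403 16385 (.lg 0 false 1 73 73 17 0 624) .out)))) .out) .out)) (.na 407 244
  (.lg 0 false 1 0 0 16 0 24) (.nx 417 1048577 (.nr 416 1048577 (.nr 408 244 .s1 (.nx 410 208 (.nr
  409 2522 (.l1 (.ls 29 23 180)) (.l1 .sk)) (.nx 411 209 (.l1 .sk) (.nx 414 131073 (.nr 412 65537
  (.lg 0 true 1 83 83 23 0 624) (.nx 413 16385 (.lg 0 false 1 83 83 23 0 624) .out)) (.nr 415 1025
  (.lg 0 true 1 61 61 23 0 624) .out))))) .out) .out))) (.na 440 251 (.na 429 248 (.nx 428 1048577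
  (.nr 427 1048577 (.nr 419 247 .s1 (.nx 425 32769 (.nx 421 208 (.nr 420 2533 (.l1 (.ls 17 17 178))
  (.l1 .sk)) (.nx 422 209 (.l1 .sk) (.lg 0 false 3 83 83 29 0 1872))) (.nr 426 16385 (.lg 0 false 1
  83 83 17 0 34320) .out))) .out) .out) (.nx 439 1048577 (.nr 438 1048577 (.nr 430 248 .s1 (.nx 436
  131073 (.nx 432 208 (.nr 431 2563 (.l1 (.ls 29 23 177)) (.l1 .sk)) (.nx 433 209 (.l1 .sk) (.nr
  434 65537 (.lg 0 true 1 83 83 23 0 624) (.nx 435 16385 (.lg 0 false 1 83 83 23 0 624) .out))))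
  (.nr 437 1025 (.lg 0 true 1 67 67 23 0 624) .out))) .out) .out)) (.na 441 256 (.lg 0 false 1 0 0
  16 0 24) (.na 442 257 .ne (.nx 921 1048577 (.nr 920 1482912 (.nr 443 257 .s1 (.nx 551 209 (.nx
  550 208 (.nr 549 3707 (.la (.ls 37 19 171)) (.l1 .sk)) (.l1 .sk)) (.nx 599 257 (.lx (.lp 83 17
  91)) (.nr 919 1048577 (.nx 705 20644 (.la (.lg 0 false 1 79 79 23 0)) (.nr 918 32769 (.nx 811
  131073 (.la (.lg 0 true 1 71 71 23 0)) (.nr 917 2049 (.la (.lg 0 true 1 61 61 23 0)) .out))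
  .out)) .out)))) .out) .out)))))) (.na 9638 8192 (.na 3568 1449 (.na 2112 725 (.na 1424 512 (.nx
  1423 1048577 (.nr 1422 1482912 (.nr 923 363 .s1 (.nx 1073 208 (.nr 1072 5228 (.la (.ls 37 19
  129)) (.l1 .sk)) (.nx 1074 209 (.l1 .sk) (.nx 1122 257 (.lx (.lp 73 19 129)) (.nr 1421 1048577
  (.nr 1271 32769 (.la (.lg 0 true 1 79 79 23 0)) (.nx 1420 20644 (.la (.lg 0 false 1 73 73 23 0))
  .out)) .out))))) .out) .out) (.nx 2111 1048577 (.nr 2110 1482912 (.nr 1425 512 .s1 (.nx 1682 257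
  (.nx 1633 208 (.nr 1632 7403 (.lx (.lp 37 19 182)) (.l1 .sk)) (.nx 1634 209 (.l1 .sk) (.lx (.lp
  79 19 182)))) (.nr 2109 1048577 (.nr 1895 32769 (.la (.lg 0 true 1 73 73 29 0)) (.nx 2108 20644
  (.la (.lg 0 false 1 71 71 29 0)) .out)) .out))) .out) .out)) (.na 2714 1024 (.nx 2713 13005 (.nr
  2712 1048577 (.nr 2113 725 .s1 (.nx 2412 2049 (.la (.ls 67 41 5793)) (.nr 2711 65537 (.la (.lg 0
  false 1 47 47 29 0)) .out))) .out) .out) (.nx 3567 13005 (.nr 3566 1048577 (.nr 2715 1024 .s1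
  (.nx 3140 3252 (.la (.ls 61 41 10330)) (.nr 3565 32769 (.la (.lg 0 false 1 41 41 31 0)) .out)))
  .out) .out))) (.na 5022 2897 (.na 4170 2048 (.nx 4169 8193 (.nr 4168 1048577 (.nr 3569 1449 .s1
  (.la (.ls 61 47 46328))) .out) .out) (.nx 5021 8193 (.nr 5020 1048577 (.nr 4171 2048 .s1 (.la
  (.ls 61 47 32779))) .out) .out)) (.na 6433 4096 (.nx 6432 3252 (.nr 6431 524289 (.nr 5023 2897
  .s1 (.nx 5231 208 (.nr 5230 41822 (.lx (.lp 43 31 1025)) (.l1 .sk)) (.nx 5232 209 (.l1 .sk) (.la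
  (.ls 53 37 3638))))) .out) .out) (.na 8342 5793 (.nx 8341 3252 (.nr 8340 524289 (.nr 6434 4096
  .s1 (.nx 6642 208 (.nr 6641 59149 (.lx (.lp 41 31 1449)) (.l1 .sk)) (.nx 6643 209 (.l1 .sk) (.la
  (.ls 53 37 2574))))) .out) .out) (.nx 9637 1292 (.nr 9636 262145 (.nr 8343 5793 .s1 (.nx 8551 208
  (.nr 8550 83643 (.lx (.lp 43 37 2049)) (.l1 .sk)) (.nx 8552 209 (.l1 .sk) (.nx 9157 814 (.lx (.lp
  53 37 2049)) (.nr 9635 65537 (.lx (.lp 41 37 2049)) .out))))) .out) .out))))) (.na 14816 65536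
  (.na 12227 16384 (.na 10933 11586 (.nx 10932 1292 (.nr 10931 262145 (.nr 9639 8192 .s1 (.nx 10452
  814 (.lx (.lp 47 41 2897)) (.nr 10930 131073 (.lx (.lp 41 41 2897)) .out))) .out) .out) (.nx
  12226 1292 (.nr 12225 131073 (.nr 10934 11586 .s1 (.lx (.lp 41 41 4097))) .out) .out)) (.na 13522
  32768 (.nx 13521 1292 (.nr 13520 262145 (.nr 12228 16384 .s1 (.nx 12484 257 (.lx (.lp 31 41
  8193)) (.nr 13519 131073 (.lx (.lp 41 43 8193)) .out))) .out) .out) (.nx 14815 1292 (.nr 14814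
  262145 (.nr 13523 32768 .s1 (.lx (.lp 41 47 16385))) .out) .out))) (.na 16626 262144 (.na 16111
  131072 (.nx 16110 1292 (.nr 16109 524289 (.nr 14817 65536 .s1 (.nx 15073 257 (.lx (.lp 16 0
  32769)) (.nr 16108 262145 (.lx (.lp 37 53 32769)) .out))) .out) .out) (.nx 16625 513 (.nr 16624
  524289 (.nr 16112 131072 .s1 (.lx (.lp 41 59 65537))) .out) .out)) (.na 17141 524288 (.nx 17140
  513 (.nr 17139 1048577 (.nr 16627 262144 .s1 (.lx (.lp 16 0 131073))) .out) .out) (.na 17143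
  1048577 (.nx 17142 257 (.l1 .sk) .out) .out)))))))

theorem c131 :
    OkQ ckI L6 88 1 1099511627776 0 34359738368 1 1099511627776 ∧
    OkQ ckI L5 47 24 1099511627776 0 34359738368 1 1099511627776 ∧
    OkQ ckI L9 208 113 1099511627776 0 34359738368 1 1099511627776 := by
  refine ⟨?_, ?_, ?_⟩
  · refine fin 264 7590 T131_0 ?_
    refine jn 6 (by decide +kernel) ?_
    refine jn 8 (by decide +kernel) ?_
    refine jn 11 (by decide +kernel) ?_
    refine jn 14 (by decide +kernel) ?_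
    refine jn 16 (by decide +kernel) ?_
    refine jn 20 (by decide +kernel) ?_
    refine jn 21 (by decide +kernel) ?_
    refine jn 23 (by decide +kernel) ?_
    refine jn 26 (by decide +kernel) ?_
    refine jn 29 (by decide +kernel) ?_
    refine jn 31 (by decide +kernel) ?_
    refine jn 34 (by decide +kernel) ?_
    refine jn 36 (by decide +kernel) ?_
    refine jn 38 (by decide +kernel) ?_
    refine jn 42 (by decide +kernel) ?_
    refine jn 46 (by decide +kernel) ?_
    refine jn 50 (by decide +kernel) ?_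
    refine jn 54 (by decide +kernel) ?_
    refine jn 58 (by decide +kernel) ?_
    refine jn 63 (by decide +kernel) ?_
    refine jn 68 (by decide +kernel) ?_
    refine jn 71 (by decide +kernel) ?_
    refine jn 73 (by decide +kernel) ?_
    refine jn 82 (by decide +kernel) ?_
    refine jn 97 (by decide +kernel) ?_
    refine jn 106 (by decide +kernel) ?_
    refine jn 126 (by decide +kernel) ?_
    refine jn 134 (by decide +kernel) ?_
    refine jn 151 (by decide +kernel) ?_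
    refine jn 176 (by decide +kernel) ?_
    refine jn 183 (by decide +kernel) ?_
    refine jn 184 (by decide +kernel) ?_
    refine jn 185 (by decide +kernel) ?_
    refine jn 186 (by decide +kernel) ?_
    refine jn 188 (by decide +kernel) ?_
    refine jn 189 (by decide +kernel) ?_
    refine jn 190 (by decide +kernel) ?_
    refine jn 191 (by decide +kernel) ?_
    refine jn 192 (by decide +kernel) ?_
    refine jn 193 (by decide +kernel) ?_
    refine jn 195 (by decide +kernel) ?_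
    refine jn 196 (by decide +kernel) ?_
    refine jn 197 (by decide +kernel) ?_
    refine jn 198 (by decide +kernel) ?_
    refine jn 204 (by decide +kernel) ?_
    refine jn 206 (by decide +kernel) ?_
    refine jn 208 (by decide +kernel) ?_
    refine jn 210 (by decide +kernel) ?_
    refine jn 212 (by decide +kernel) ?_
    refine jn 214 (by decide +kernel) ?_
    refine jn 216 (by decide +kernel) ?_
    refine jn 218 (by decide +kernel) ?_
    refine jn 224 (by decide +kernel) ?_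
    refine jn 229 (by decide +kernel) ?_
    refine jn 234 (by decide +kernel) ?_
    refine jn 241 (by decide +kernel) ?_
    refine jn 248 (by decide +kernel) ?_
    refine jn 254 (by decide +kernel) ?_
    refine jn 257 (by decide +kernel) ?_
    refine jn 289 (by decide +kernel) ?_
    refine jn 300 (by decide +kernel) ?_
    refine jn 307 (by decide +kernel) ?_
    refine jn 308 (by decide +kernel) ?_
    refine jn 310 (by decide +kernel) ?_
    refine jn 311 (by decide +kernel) ?_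
    refine jn 312 (by decide +kernel) ?_
    refine jn 313 (by decide +kernel) ?_
    refine jn 314 (by decide +kernel) ?_
    refine jn 317 (by decide +kernel) ?_
    refine jn 320 (by decide +kernel) ?_
    refine jn 323 (by decide +kernel) ?_
    refine jn 330 (by decide +kernel) ?_
    refine jn 333 (by decide +kernel) ?_
    refine jn 359 (by decide +kernel) ?_
    refine jn 376 (by decide +kernel) ?_
    refine jn 382 (by decide +kernel) ?_
    refine jn 404 (by decide +kernel) ?_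
    refine jn 420 (by decide +kernel) ?_
    refine jn 421 (by decide +kernel) ?_
    refine jn 423 (by decide +kernel) ?_
    refine jn 425 (by decide +kernel) ?_
    refine jn 427 (by decide +kernel) ?_
    refine jn 428 (by decide +kernel) ?_
    refine jn 429 (by decide +kernel) ?_
    refine jn 430 (by decide +kernel) ?_
    refine jn 431 (by decide +kernel) ?_
    refine jn 438 (by decide +kernel) ?_
    refine jn 439 (by decide +kernel) ?_
    refine jn 440 (by decide +kernel) ?_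
    refine jn 441 (by decide +kernel) ?_
    refine jn 442 (by decide +kernel) ?_
    refine jn 443 (by decide +kernel) ?_
    refine jn 458 (by decide +kernel) ?_
    refine jn 463 (by decide +kernel) ?_
    refine jn 468 (by decide +kernel) ?_
    refine jn 473 (by decide +kernel) ?_
    refine jn 485 (by decide +kernel) ?_
    refine jn 489 (by decide +kernel) ?_
    refine jn 490 (by decide +kernel) ?_
    refine jn 491 (by decide +kernel) ?_
    refine jn 492 (by decide +kernel) ?_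
    refine jn 493 (by decide +kernel) ?_
    refine jn 494 (by decide +kernel) ?_
    refine jn 495 (by decide +kernel) ?_
    refine jn 496 (by decide +kernel) ?_
    refine jn 503 (by decide +kernel) ?_
    refine jn 515 (by decide +kernel) ?_
    refine jn 521 (by decide +kernel) ?_
    refine jn 527 (by decide +kernel) ?_
    refine jn 535 (by decide +kernel) ?_
    refine jn 540 (by decide +kernel) ?_
    refine jn 546 (by decide +kernel) ?_
    refine jn 561 (by decide +kernel) ?_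
    refine jn 565 (by decide +kernel) ?_
    refine jn 578 (by decide +kernel) ?_
    refine jn 582 (by decide +kernel) ?_
    refine jn 597 (by decide +kernel) ?_
    refine jn 606 (by decide +kernel) ?_
    refine jn 608 (by decide +kernel) ?_
    refine jn 609 (by decide +kernel) ?_
    refine jn 612 (by decide +kernel) ?_
    refine jn 624 (by decide +kernel) ?_
    refine jn 640 (by decide +kernel) ?_
    refine jn 652 (by decide +kernel) ?_
    refine jn 655 (by decide +kernel) ?_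
    refine jn 657 (by decide +kernel) ?_
    refine jn 671 (by decide +kernel) ?_
    refine jn 685 (by decide +kernel) ?_
    refine jn 699 (by decide +kernel) ?_
    refine jn 711 (by decide +kernel) ?_
    refine jn 714 (by decide +kernel) ?_
    refine jn 725 (by decide +kernel) ?_
    refine jn 737 (by decide +kernel) ?_
    refine jn 748 (by decide +kernel) ?_
    refine jn 757 (by decide +kernel) ?_
    refine jn 760 (by decide +kernel) ?_
    refine jn 771 (by decide +kernel) ?_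
    refine jn 789 (by decide +kernel) ?_
    refine jn 799 (by decide +kernel) ?_
    refine jn 803 (by decide +kernel) ?_
    refine jn 805 (by decide +kernel) ?_
    refine jn 816 (by decide +kernel) ?_
    refine jn 826 (by decide +kernel) ?_
    refine jn 842 (by decide +kernel) ?_
    refine jn 858 (by decide +kernel) ?_
    refine jn 868 (by decide +kernel) ?_
    refine jn 880 (by decide +kernel) ?_
    refine jn 888 (by decide +kernel) ?_
    refine jn 905 (by decide +kernel) ?_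
    refine jn 914 (by decide +kernel) ?_
    refine jn 931 (by decide +kernel) ?_
    refine jn 947 (by decide +kernel) ?_
    refine jn 963 (by decide +kernel) ?_
    refine jn 979 (by decide +kernel) ?_
    refine jn 991 (by decide +kernel) ?_
    refine jn 1004 (by decide +kernel) ?_
    refine jn 1013 (by decide +kernel) ?_
    refine jn 1049 (by decide +kernel) ?_
    refine jn 1112 (by decide +kernel) ?_
    refine jn 1168 (by decide +kernel) ?_
    refine jn 1228 (by decide +kernel) ?_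
    refine jn 1297 (by decide +kernel) ?_
    refine jn 1304 (by decide +kernel) ?_
    refine jn 1319 (by decide +kernel) ?_
    refine jn 1331 (by decide +kernel) ?_
    refine jn 1352 (by decide +kernel) ?_
    refine jn 1364 (by decide +kernel) ?_
    refine jn 1373 (by decide +kernel) ?_
    refine jn 1387 (by decide +kernel) ?_
    refine jn 1397 (by decide +kernel) ?_
    refine jn 1408 (by decide +kernel) ?_
    refine jn 1423 (by decide +kernel) ?_
    refine jn 1432 (by decide +kernel) ?_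
    refine jn 1453 (by decide +kernel) ?_
    refine jn 1457 (by decide +kernel) ?_
    refine jn 1472 (by decide +kernel) ?_
    refine jn 1493 (by decide +kernel) ?_
    refine jn 1511 (by decide +kernel) ?_
    refine jn 1548 (by decide +kernel) ?_
    refine jn 1572 (by decide +kernel) ?_
    refine jn 1583 (by decide +kernel) ?_
    refine jn 1596 (by decide +kernel) ?_
    refine jn 1623 (by decide +kernel) ?_
    refine jn 1671 (by decide +kernel) ?_
    refine jn 1700 (by decide +kernel) ?_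
    refine jn 1737 (by decide +kernel) ?_
    refine jn 1761 (by decide +kernel) ?_
    refine jn 1788 (by decide +kernel) ?_
    refine jn 1805 (by decide +kernel) ?_
    refine jn 1826 (by decide +kernel) ?_
    refine jn 1854 (by decide +kernel) ?_
    refine jn 1904 (by decide +kernel) ?_
    refine jn 1938 (by decide +kernel) ?_
    refine jn 1985 (by decide +kernel) ?_
    refine jn 2049 (by decide +kernel) ?_
    refine jn 2082 (by decide +kernel) ?_
    refine jn 2134 (by decide +kernel) ?_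
    refine jn 2202 (by decide +kernel) ?_
    refine jn 2253 (by decide +kernel) ?_
    refine jn 2424 (by decide +kernel) ?_
    refine jn 2478 (by decide +kernel) ?_
    refine jn 2541 (by decide +kernel) ?_
    refine jn 2621 (by decide +kernel) ?_
    refine jn 2708 (by decide +kernel) ?_
    refine jn 2762 (by decide +kernel) ?_
    refine jn 2840 (by decide +kernel) ?_
    refine jn 2952 (by decide +kernel) ?_
    refine jn 3069 (by decide +kernel) ?_
    refine jn 3191 (by decide +kernel) ?_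
    refine jn 3296 (by decide +kernel) ?_
    refine jn 3399 (by decide +kernel) ?_
    refine jn 3601 (by decide +kernel) ?_
    refine jn 3704 (by decide +kernel) ?_
    refine jn 3839 (by decide +kernel) ?_
    refine jn 3964 (by decide +kernel) ?_
    refine jn 4108 (by decide +kernel) ?_
    refine jn 4244 (by decide +kernel) ?_
    refine jn 4572 (by decide +kernel) ?_
    refine jn 4817 (by decide +kernel) ?_
    refine jn 4953 (by decide +kernel) ?_
    refine jn 5278 (by decide +kernel) ?_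
    refine jn 5417 (by decide +kernel) ?_
    refine jn 5550 (by decide +kernel) ?_
    refine jn 5639 (by decide +kernel) ?_
    refine jn 6024 (by decide +kernel) ?_
    refine jn 6180 (by decide +kernel) ?_
    refine jn 6482 (by decide +kernel) ?_
    refine jn 6803 (by decide +kernel) ?_
    refine jn 6938 (by decide +kernel) ?_
    exact je (by decide +kernel)
  · refine fin 3384 3078 T131_1 ?_
    refine jn 4 (by decide +kernel) ?_
    refine jn 5 (by decide +kernel) ?_
    refine jn 6 (by decide +kernel) ?_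
    refine jn 7 (by decide +kernel) ?_
    refine jn 8 (by decide +kernel) ?_
    refine jn 9 (by decide +kernel) ?_
    refine jn 10 (by decide +kernel) ?_
    refine jn 11 (by decide +kernel) ?_
    refine jn 12 (by decide +kernel) ?_
    refine jn 21 (by decide +kernel) ?_
    refine jn 25 (by decide +kernel) ?_
    refine jn 29 (by decide +kernel) ?_
    refine jn 38 (by decide +kernel) ?_
    refine jn 39 (by decide +kernel) ?_
    refine jn 40 (by decide +kernel) ?_
    refine jn 41 (by decide +kernel) ?_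
    refine jn 42 (by decide +kernel) ?_
    refine jn 43 (by decide +kernel) ?_
    refine jn 44 (by decide +kernel) ?_
    refine jn 51 (by decide +kernel) ?_
    refine jn 53 (by decide +kernel) ?_
    refine jn 54 (by decide +kernel) ?_
    refine jn 55 (by decide +kernel) ?_
    refine jn 56 (by decide +kernel) ?_
    refine jn 57 (by decide +kernel) ?_
    refine jn 58 (by decide +kernel) ?_
    refine jn 59 (by decide +kernel) ?_
    refine jn 70 (by decide +kernel) ?_
    refine jn 73 (by decide +kernel) ?_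
    refine jn 76 (by decide +kernel) ?_
    refine jn 84 (by decide +kernel) ?_
    refine jn 85 (by decide +kernel) ?_
    refine jn 86 (by decide +kernel) ?_
    refine jn 87 (by decide +kernel) ?_
    refine jn 88 (by decide +kernel) ?_
    refine jn 101 (by decide +kernel) ?_
    refine jn 109 (by decide +kernel) ?_
    refine jn 110 (by decide +kernel) ?_
    refine jn 111 (by decide +kernel) ?_
    refine jn 115 (by decide +kernel) ?_
    refine jn 133 (by decide +kernel) ?_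
    refine jn 136 (by decide +kernel) ?_
    refine jn 137 (by decide +kernel) ?_
    refine jn 139 (by decide +kernel) ?_
    refine jn 140 (by decide +kernel) ?_
    refine jn 150 (by decide +kernel) ?_
    refine jn 157 (by decide +kernel) ?_
    refine jn 158 (by decide +kernel) ?_
    refine jn 168 (by decide +kernel) ?_
    refine jn 171 (by decide +kernel) ?_
    refine jn 181 (by decide +kernel) ?_
    refine jn 188 (by decide +kernel) ?_
    refine jn 189 (by decide +kernel) ?_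
    refine jn 191 (by decide +kernel) ?_
    refine jn 199 (by decide +kernel) ?_
    refine jn 202 (by decide +kernel) ?_
    refine jn 212 (by decide +kernel) ?_
    refine jn 219 (by decide +kernel) ?_
    refine jn 220 (by decide +kernel) ?_
    refine jn 227 (by decide +kernel) ?_
    refine jn 228 (by decide +kernel) ?_
    refine jn 230 (by decide +kernel) ?_
    refine jn 232 (by decide +kernel) ?_
    refine jn 239 (by decide +kernel) ?_
    refine jn 240 (by decide +kernel) ?_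
    refine jn 242 (by decide +kernel) ?_
    refine jn 253 (by decide +kernel) ?_
    refine jn 257 (by decide +kernel) ?_
    refine jn 258 (by decide +kernel) ?_
    refine jn 259 (by decide +kernel) ?_
    refine jn 260 (by decide +kernel) ?_
    refine jn 261 (by decide +kernel) ?_
    refine jn 270 (by decide +kernel) ?_
    refine jn 279 (by decide +kernel) ?_
    refine jn 287 (by decide +kernel) ?_
    refine jn 294 (by decide +kernel) ?_
    refine jn 299 (by decide +kernel) ?_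
    refine jn 300 (by decide +kernel) ?_
    refine jn 301 (by decide +kernel) ?_
    refine jn 302 (by decide +kernel) ?_
    refine jn 311 (by decide +kernel) ?_
    refine jn 325 (by decide +kernel) ?_
    refine jn 326 (by decide +kernel) ?_
    refine jn 327 (by decide +kernel) ?_
    refine jn 328 (by decide +kernel) ?_
    refine jn 337 (by decide +kernel) ?_
    refine jn 347 (by decide +kernel) ?_
    refine jn 360 (by decide +kernel) ?_
    refine jn 362 (by decide +kernel) ?_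
    refine jn 370 (by decide +kernel) ?_
    refine jn 380 (by decide +kernel) ?_
    refine jn 387 (by decide +kernel) ?_
    refine jn 392 (by decide +kernel) ?_
    refine jn 395 (by decide +kernel) ?_
    refine jn 400 (by decide +kernel) ?_
    refine jn 401 (by decide +kernel) ?_
    refine jn 402 (by decide +kernel) ?_
    refine jn 404 (by decide +kernel) ?_
    refine jn 414 (by decide +kernel) ?_
    refine jn 423 (by decide +kernel) ?_
    refine jn 436 (by decide +kernel) ?_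
    refine jn 440 (by decide +kernel) ?_
    refine jn 447 (by decide +kernel) ?_
    refine jn 459 (by decide +kernel) ?_
    refine jn 460 (by decide +kernel) ?_
    refine jn 461 (by decide +kernel) ?_
    refine jn 475 (by decide +kernel) ?_
    refine jn 480 (by decide +kernel) ?_
    refine jn 481 (by decide +kernel) ?_
    refine jn 491 (by decide +kernel) ?_
    refine jn 499 (by decide +kernel) ?_
    refine jn 512 (by decide +kernel) ?_
    refine jn 524 (by decide +kernel) ?_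
    refine jn 542 (by decide +kernel) ?_
    refine jn 543 (by decide +kernel) ?_
    refine jn 544 (by decide +kernel) ?_
    refine jn 556 (by decide +kernel) ?_
    refine jn 570 (by decide +kernel) ?_
    refine jn 582 (by decide +kernel) ?_
    refine jn 593 (by decide +kernel) ?_
    refine jn 594 (by decide +kernel) ?_
    refine jn 607 (by decide +kernel) ?_
    refine jn 624 (by decide +kernel) ?_
    refine jn 626 (by decide +kernel) ?_
    refine jn 639 (by decide +kernel) ?_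
    refine jn 649 (by decide +kernel) ?_
    refine jn 651 (by decide +kernel) ?_
    refine jn 662 (by decide +kernel) ?_
    refine jn 664 (by decide +kernel) ?_
    refine jn 679 (by decide +kernel) ?_
    refine jn 691 (by decide +kernel) ?_
    refine jn 709 (by decide +kernel) ?_
    refine jn 721 (by decide +kernel) ?_
    refine jn 727 (by decide +kernel) ?_
    refine jn 787 (by decide +kernel) ?_
    refine jn 791 (by decide +kernel) ?_
    refine jn 797 (by decide +kernel) ?_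
    refine jn 800 (by decide +kernel) ?_
    refine jn 801 (by decide +kernel) ?_
    refine jn 812 (by decide +kernel) ?_
    refine jn 816 (by decide +kernel) ?_
    refine jn 817 (by decide +kernel) ?_
    refine jn 822 (by decide +kernel) ?_
    refine jn 824 (by decide +kernel) ?_
    refine jn 825 (by decide +kernel) ?_
    refine jn 834 (by decide +kernel) ?_
    refine jn 837 (by decide +kernel) ?_
    refine jn 844 (by decide +kernel) ?_
    refine jn 852 (by decide +kernel) ?_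
    refine jn 859 (by decide +kernel) ?_
    refine jn 861 (by decide +kernel) ?_
    refine jn 864 (by decide +kernel) ?_
    refine jn 865 (by decide +kernel) ?_
    refine jn 875 (by decide +kernel) ?_
    refine jn 882 (by decide +kernel) ?_
    refine jn 885 (by decide +kernel) ?_
    refine jn 894 (by decide +kernel) ?_
    refine jn 904 (by decide +kernel) ?_
    refine jn 907 (by decide +kernel) ?_
    refine jn 912 (by decide +kernel) ?_
    refine jn 916 (by decide +kernel) ?_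
    refine jn 920 (by decide +kernel) ?_
    refine jn 921 (by decide +kernel) ?_
    refine jn 929 (by decide +kernel) ?_
    refine jn 936 (by decide +kernel) ?_
    refine jn 937 (by decide +kernel) ?_
    refine jn 951 (by decide +kernel) ?_
    refine jn 952 (by decide +kernel) ?_
    refine jn 954 (by decide +kernel) ?_
    refine jn 959 (by decide +kernel) ?_
    refine jn 960 (by decide +kernel) ?_
    refine jn 967 (by decide +kernel) ?_
    refine jn 972 (by decide +kernel) ?_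
    refine jn 975 (by decide +kernel) ?_
    refine jn 976 (by decide +kernel) ?_
    refine jn 985 (by decide +kernel) ?_
    refine jn 999 (by decide +kernel) ?_
    refine jn 1000 (by decide +kernel) ?_
    refine jn 1002 (by decide +kernel) ?_
    refine jn 1004 (by decide +kernel) ?_
    refine jn 1005 (by decide +kernel) ?_
    refine jn 1010 (by decide +kernel) ?_
    refine jn 1016 (by decide +kernel) ?_
    refine jn 1025 (by decide +kernel) ?_
    refine jn 1031 (by decide +kernel) ?_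
    refine jn 1032 (by decide +kernel) ?_
    refine jn 1033 (by decide +kernel) ?_
    refine jn 1098 (by decide +kernel) ?_
    refine jn 1103 (by decide +kernel) ?_
    refine jn 1113 (by decide +kernel) ?_
    refine jn 1121 (by decide +kernel) ?_
    refine jn 1123 (by decide +kernel) ?_
    refine jn 1128 (by decide +kernel) ?_
    refine jn 1143 (by decide +kernel) ?_
    refine jn 1147 (by decide +kernel) ?_
    refine jn 1152 (by decide +kernel) ?_
    refine jn 1156 (by decide +kernel) ?_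
    refine jn 1167 (by decide +kernel) ?_
    refine jn 1170 (by decide +kernel) ?_
    refine jn 1171 (by decide +kernel) ?_
    refine jn 1175 (by decide +kernel) ?_
    refine jn 1191 (by decide +kernel) ?_
    refine jn 1193 (by decide +kernel) ?_
    refine jn 1198 (by decide +kernel) ?_
    refine jn 1208 (by decide +kernel) ?_
    refine jn 1215 (by decide +kernel) ?_
    refine jn 1218 (by decide +kernel) ?_
    refine jn 1227 (by decide +kernel) ?_
    refine jn 1237 (by decide +kernel) ?_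
    refine jn 1243 (by decide +kernel) ?_
    refine jn 1251 (by decide +kernel) ?_
    refine jn 1252 (by decide +kernel) ?_
    refine jn 1265 (by decide +kernel) ?_
    refine jn 1285 (by decide +kernel) ?_
    refine jn 1287 (by decide +kernel) ?_
    refine jn 1290 (by decide +kernel) ?_
    refine jn 1293 (by decide +kernel) ?_
    refine jn 1296 (by decide +kernel) ?_
    refine jn 1302 (by decide +kernel) ?_
    refine jn 1425 (by decide +kernel) ?_
    refine jn 1523 (by decide +kernel) ?_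
    refine jn 1681 (by decide +kernel) ?_
    refine jn 1797 (by decide +kernel) ?_
    refine jn 1993 (by decide +kernel) ?_
    refine jn 2086 (by decide +kernel) ?_
    refine jn 2300 (by decide +kernel) ?_
    refine jn 2504 (by decide +kernel) ?_
    refine jn 2764 (by decide +kernel) ?_
    refine jn 2971 (by decide +kernel) ?_
    exact je (by decide +kernel)
  · refine fin 624 17144 T131_2 ?_
    refine jn 10 (by decide +kernel) ?_
    refine jn 20 (by decide +kernel) ?_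
    refine jn 32 (by decide +kernel) ?_
    refine jn 37 (by decide +kernel) ?_
    refine jn 51 (by decide +kernel) ?_
    refine jn 61 (by decide +kernel) ?_
    refine jn 77 (by decide +kernel) ?_
    refine jn 84 (by decide +kernel) ?_
    refine jn 91 (by decide +kernel) ?_
    refine jn 106 (by decide +kernel) ?_
    refine jn 122 (by decide +kernel) ?_
    refine jn 134 (by decide +kernel) ?_
    refine jn 147 (by decide +kernel) ?_
    refine jn 161 (by decide +kernel) ?_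
    refine jn 175 (by decide +kernel) ?_
    refine jn 189 (by decide +kernel) ?_
    refine jn 198 (by decide +kernel) ?_
    refine jn 201 (by decide +kernel) ?_
    refine jn 215 (by decide +kernel) ?_
    refine jn 223 (by decide +kernel) ?_
    refine jn 236 (by decide +kernel) ?_
    refine jn 245 (by decide +kernel) ?_
    refine jn 251 (by decide +kernel) ?_
    refine jn 264 (by decide +kernel) ?_
    refine jn 275 (by decide +kernel) ?_
    refine jn 286 (by decide +kernel) ?_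
    refine jn 298 (by decide +kernel) ?_
    refine jn 309 (by decide +kernel) ?_
    refine jn 322 (by decide +kernel) ?_
    refine jn 336 (by decide +kernel) ?_
    refine jn 344 (by decide +kernel) ?_
    refine jn 347 (by decide +kernel) ?_
    refine jn 364 (by decide +kernel) ?_
    refine jn 370 (by decide +kernel) ?_
    refine jn 389 (by decide +kernel) ?_
    refine jn 403 (by decide +kernel) ?_
    refine jn 413 (by decide +kernel) ?_
    refine jn 426 (by decide +kernel) ?_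
    refine jn 435 (by decide +kernel) ?_
    refine jn 467 (by decide +kernel) ?_
    refine jn 505 (by decide +kernel) ?_
    refine jn 538 (by decide +kernel) ?_
    refine jn 599 (by decide +kernel) ?_
    refine jn 611 (by decide +kernel) ?_
    refine jn 614 (by decide +kernel) ?_
    refine jn 615 (by decide +kernel) ?_
    refine jn 631 (by decide +kernel) ?_
    refine jn 646 (by decide +kernel) ?_
    refine jn 647 (by decide +kernel) ?_
    refine jn 650 (by decide +kernel) ?_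
    refine jn 651 (by decide +kernel) ?_
    refine jn 665 (by decide +kernel) ?_
    refine jn 673 (by decide +kernel) ?_
    refine jn 679 (by decide +kernel) ?_
    refine jn 685 (by decide +kernel) ?_
    refine jn 694 (by decide +kernel) ?_
    refine jn 701 (by decide +kernel) ?_
    refine jn 716 (by decide +kernel) ?_
    refine jn 720 (by decide +kernel) ?_
    refine jn 725 (by decide +kernel) ?_
    refine jn 752 (by decide +kernel) ?_
    refine jn 756 (by decide +kernel) ?_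
    refine jn 761 (by decide +kernel) ?_
    refine jn 777 (by decide +kernel) ?_
    refine jn 785 (by decide +kernel) ?_
    refine jn 800 (by decide +kernel) ?_
    refine jn 809 (by decide +kernel) ?_
    refine jn 825 (by decide +kernel) ?_
    refine jn 826 (by decide +kernel) ?_
    refine jn 831 (by decide +kernel) ?_
    refine jn 858 (by decide +kernel) ?_
    refine jn 862 (by decide +kernel) ?_
    refine jn 867 (by decide +kernel) ?_
    refine jn 883 (by decide +kernel) ?_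
    refine jn 891 (by decide +kernel) ?_
    refine jn 906 (by decide +kernel) ?_
    refine jn 915 (by decide +kernel) ?_
    refine jn 964 (by decide +kernel) ?_
    refine jn 1024 (by decide +kernel) ?_
    refine jn 1044 (by decide +kernel) ?_
    refine jn 1074 (by decide +kernel) ?_
    refine jn 1130 (by decide +kernel) ?_
    refine jn 1135 (by decide +kernel) ?_
    refine jn 1138 (by decide +kernel) ?_
    refine jn 1151 (by decide +kernel) ?_
    refine jn 1163 (by decide +kernel) ?_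
    refine jn 1175 (by decide +kernel) ?_
    refine jn 1186 (by decide +kernel) ?_
    refine jn 1192 (by decide +kernel) ?_
    refine jn 1222 (by decide +kernel) ?_
    refine jn 1223 (by decide +kernel) ?_
    refine jn 1228 (by decide +kernel) ?_
    refine jn 1235 (by decide +kernel) ?_
    refine jn 1238 (by decide +kernel) ?_
    refine jn 1247 (by decide +kernel) ?_
    refine jn 1255 (by decide +kernel) ?_
    refine jn 1256 (by decide +kernel) ?_
    refine jn 1272 (by decide +kernel) ?_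
    refine jn 1281 (by decide +kernel) ?_
    refine jn 1287 (by decide +kernel) ?_
    refine jn 1300 (by decide +kernel) ?_
    refine jn 1312 (by decide +kernel) ?_
    refine jn 1324 (by decide +kernel) ?_
    refine jn 1335 (by decide +kernel) ?_
    refine jn 1360 (by decide +kernel) ?_
    refine jn 1372 (by decide +kernel) ?_
    refine jn 1377 (by decide +kernel) ?_
    refine jn 1384 (by decide +kernel) ?_
    refine jn 1387 (by decide +kernel) ?_
    refine jn 1396 (by decide +kernel) ?_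
    refine jn 1404 (by decide +kernel) ?_
    refine jn 1405 (by decide +kernel) ?_
    refine jn 1480 (by decide +kernel) ?_
    refine jn 1623 (by decide +kernel) ?_
    refine jn 1691 (by decide +kernel) ?_
    refine jn 1702 (by decide +kernel) ?_
    refine jn 1703 (by decide +kernel) ?_
    refine jn 1714 (by decide +kernel) ?_
    refine jn 1721 (by decide +kernel) ?_
    refine jn 1739 (by decide +kernel) ?_
    refine jn 1751 (by decide +kernel) ?_
    refine jn 1757 (by decide +kernel) ?_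
    refine jn 1774 (by decide +kernel) ?_
    refine jn 1778 (by decide +kernel) ?_
    refine jn 1781 (by decide +kernel) ?_
    refine jn 1786 (by decide +kernel) ?_
    refine jn 1789 (by decide +kernel) ?_
    refine jn 1807 (by decide +kernel) ?_
    refine jn 1819 (by decide +kernel) ?_
    refine jn 1831 (by decide +kernel) ?_
    refine jn 1841 (by decide +kernel) ?_
    refine jn 1853 (by decide +kernel) ?_
    refine jn 1862 (by decide +kernel) ?_
    refine jn 1894 (by decide +kernel) ?_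
    refine jn 1904 (by decide +kernel) ?_
    refine jn 1915 (by decide +kernel) ?_
    refine jn 1916 (by decide +kernel) ?_
    refine jn 1927 (by decide +kernel) ?_
    refine jn 1934 (by decide +kernel) ?_
    refine jn 1952 (by decide +kernel) ?_
    refine jn 1966 (by decide +kernel) ?_
    refine jn 1972 (by decide +kernel) ?_
    refine jn 1991 (by decide +kernel) ?_
    refine jn 1994 (by decide +kernel) ?_
    refine jn 2002 (by decide +kernel) ?_
    refine jn 2020 (by decide +kernel) ?_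
    refine jn 2032 (by decide +kernel) ?_
    refine jn 2047 (by decide +kernel) ?_
    refine jn 2056 (by decide +kernel) ?_
    refine jn 2074 (by decide +kernel) ?_
    refine jn 2090 (by decide +kernel) ?_
    refine jn 2127 (by decide +kernel) ?_
    refine jn 2172 (by decide +kernel) ?_
    refine jn 2200 (by decide +kernel) ?_
    refine jn 2236 (by decide +kernel) ?_
    refine jn 2281 (by decide +kernel) ?_
    refine jn 2319 (by decide +kernel) ?_
    refine jn 2355 (by decide +kernel) ?_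
    refine jn 2391 (by decide +kernel) ?_
    refine jn 2430 (by decide +kernel) ?_
    refine jn 2439 (by decide +kernel) ?_
    refine jn 2468 (by decide +kernel) ?_
    refine jn 2480 (by decide +kernel) ?_
    refine jn 2498 (by decide +kernel) ?_
    refine jn 2516 (by decide +kernel) ?_
    refine jn 2526 (by decide +kernel) ?_
    refine jn 2544 (by decide +kernel) ?_
    refine jn 2568 (by decide +kernel) ?_
    refine jn 2586 (by decide +kernel) ?_
    refine jn 2600 (by decide +kernel) ?_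
    refine jn 2618 (by decide +kernel) ?_
    refine jn 2634 (by decide +kernel) ?_
    refine jn 2648 (by decide +kernel) ?_
    refine jn 2670 (by decide +kernel) ?_
    refine jn 2688 (by decide +kernel) ?_
    refine jn 2719 (by decide +kernel) ?_
    refine jn 2763 (by decide +kernel) ?_
    refine jn 2799 (by decide +kernel) ?_
    refine jn 2832 (by decide +kernel) ?_
    refine jn 2898 (by decide +kernel) ?_
    refine jn 2923 (by decide +kernel) ?_
    refine jn 2950 (by decide +kernel) ?_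
    refine jn 2988 (by decide +kernel) ?_
    refine jn 3019 (by decide +kernel) ?_
    refine jn 3055 (by decide +kernel) ?_
    refine jn 3120 (by decide +kernel) ?_
    refine jn 3165 (by decide +kernel) ?_
    refine jn 3188 (by decide +kernel) ?_
    refine jn 3209 (by decide +kernel) ?_
    refine jn 3237 (by decide +kernel) ?_
    refine jn 3260 (by decide +kernel) ?_
    refine jn 3287 (by decide +kernel) ?_
    refine jn 3348 (by decide +kernel) ?_
    refine jn 3349 (by decide +kernel) ?_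
    refine jn 3389 (by decide +kernel) ?_
    refine jn 3408 (by decide +kernel) ?_
    refine jn 3425 (by decide +kernel) ?_
    refine jn 3440 (by decide +kernel) ?_
    refine jn 3465 (by decide +kernel) ?_
    refine jn 3488 (by decide +kernel) ?_
    refine jn 3539 (by decide +kernel) ?_
    refine jn 3573 (by decide +kernel) ?_
    refine jn 3583 (by decide +kernel) ?_
    refine jn 3604 (by decide +kernel) ?_
    refine jn 3616 (by decide +kernel) ?_
    refine jn 3636 (by decide +kernel) ?_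
    refine jn 3667 (by decide +kernel) ?_
    refine jn 3691 (by decide +kernel) ?_
    refine jn 3732 (by decide +kernel) ?_
    refine jn 3744 (by decide +kernel) ?_
    refine jn 3772 (by decide +kernel) ?_
    refine jn 3793 (by decide +kernel) ?_
    refine jn 3831 (by decide +kernel) ?_
    refine jn 3852 (by decide +kernel) ?_
    refine jn 3889 (by decide +kernel) ?_
    refine jn 3928 (by decide +kernel) ?_
    refine jn 3972 (by decide +kernel) ?_
    refine jn 4003 (by decide +kernel) ?_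
    refine jn 4023 (by decide +kernel) ?_
    refine jn 4036 (by decide +kernel) ?_
    refine jn 4059 (by decide +kernel) ?_
    refine jn 4092 (by decide +kernel) ?_
    refine jn 4111 (by decide +kernel) ?_
    refine jn 4179 (by decide +kernel) ?_
    refine jn 4207 (by decide +kernel) ?_
    refine jn 4251 (by decide +kernel) ?_
    refine jn 4267 (by decide +kernel) ?_
    refine jn 4290 (by decide +kernel) ?_
    refine jn 4332 (by decide +kernel) ?_
    refine jn 4384 (by decide +kernel) ?_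
    refine jn 4411 (by decide +kernel) ?_
    refine jn 4447 (by decide +kernel) ?_
    refine jn 4479 (by decide +kernel) ?_
    refine jn 4522 (by decide +kernel) ?_
    refine jn 4564 (by decide +kernel) ?_
    refine jn 4587 (by decide +kernel) ?_
    refine jn 4626 (by decide +kernel) ?_
    refine jn 4671 (by decide +kernel) ?_
    refine jn 4695 (by decide +kernel) ?_
    refine jn 4731 (by decide +kernel) ?_
    refine jn 4762 (by decide +kernel) ?_
    refine jn 4795 (by decide +kernel) ?_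
    refine jn 4822 (by decide +kernel) ?_
    refine jn 4855 (by decide +kernel) ?_
    refine jn 4896 (by decide +kernel) ?_
    refine jn 4956 (by decide +kernel) ?_
    refine jn 5014 (by decide +kernel) ?_
    refine jn 5244 (by decide +kernel) ?_
    refine jn 5318 (by decide +kernel) ?_
    refine jn 5379 (by decide +kernel) ?_
    refine jn 5483 (by decide +kernel) ?_
    refine jn 5559 (by decide +kernel) ?_
    refine jn 5622 (by decide +kernel) ?_
    refine jn 5682 (by decide +kernel) ?_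
    refine jn 5778 (by decide +kernel) ?_
    refine jn 5828 (by decide +kernel) ?_
    refine jn 5907 (by decide +kernel) ?_
    refine jn 5976 (by decide +kernel) ?_
    refine jn 6063 (by decide +kernel) ?_
    refine jn 6143 (by decide +kernel) ?_
    refine jn 6212 (by decide +kernel) ?_
    refine jn 6302 (by decide +kernel) ?_
    refine jn 6386 (by decide +kernel) ?_
    refine jn 6605 (by decide +kernel) ?_
    refine jn 6716 (by decide +kernel) ?_
    refine jn 6803 (by decide +kernel) ?_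
    refine jn 6878 (by decide +kernel) ?_
    refine jn 6968 (by decide +kernel) ?_
    refine jn 7063 (by decide +kernel) ?_
    refine jn 7156 (by decide +kernel) ?_
    refine jn 7243 (by decide +kernel) ?_
    refine jn 7339 (by decide +kernel) ?_
    refine jn 7435 (by decide +kernel) ?_
    refine jn 7543 (by decide +kernel) ?_
    refine jn 7634 (by decide +kernel) ?_
    refine jn 7715 (by decide +kernel) ?_
    refine jn 7783 (by decide +kernel) ?_
    refine jn 7868 (by decide +kernel) ?_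
    refine jn 7963 (by decide +kernel) ?_
    refine jn 8038 (by decide +kernel) ?_
    refine jn 8143 (by decide +kernel) ?_
    refine jn 8240 (by decide +kernel) ?_
    refine jn 8343 (by decide +kernel) ?_
    refine jn 8677 (by decide +kernel) ?_
    refine jn 8893 (by decide +kernel) ?_
    refine jn 9043 (by decide +kernel) ?_
    refine jn 9157 (by decide +kernel) ?_
    refine jn 9265 (by decide +kernel) ?_
    refine jn 9359 (by decide +kernel) ?_
    refine jn 9451 (by decide +kernel) ?_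
    refine jn 9523 (by decide +kernel) ?_
    refine jn 9599 (by decide +kernel) ?_
    refine jn 9813 (by decide +kernel) ?_
    refine jn 10110 (by decide +kernel) ?_
    refine jn 10296 (by decide +kernel) ?_
    refine jn 10472 (by decide +kernel) ?_
    refine jn 10623 (by decide +kernel) ?_
    refine jn 10720 (by decide +kernel) ?_
    refine jn 10801 (by decide +kernel) ?_
    refine jn 10891 (by decide +kernel) ?_
    refine jn 11222 (by decide +kernel) ?_
    refine jn 11498 (by decide +kernel) ?_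
    refine jn 11709 (by decide +kernel) ?_
    refine jn 11880 (by decide +kernel) ?_
    refine jn 12010 (by decide +kernel) ?_
    refine jn 12133 (by decide +kernel) ?_
    refine jn 12219 (by decide +kernel) ?_
    refine jn 12649 (by decide +kernel) ?_
    refine jn 12834 (by decide +kernel) ?_
    refine jn 12940 (by decide +kernel) ?_
    refine jn 13075 (by decide +kernel) ?_
    refine jn 13188 (by decide +kernel) ?_
    refine jn 13275 (by decide +kernel) ?_
    refine jn 13359 (by decide +kernel) ?_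
    refine jn 13429 (by decide +kernel) ?_
    refine jn 13516 (by decide +kernel) ?_
    refine jn 13923 (by decide +kernel) ?_
    refine jn 14207 (by decide +kernel) ?_
    refine jn 14342 (by decide +kernel) ?_
    refine jn 14473 (by decide +kernel) ?_
    refine jn 14585 (by decide +kernel) ?_
    refine jn 14690 (by decide +kernel) ?_
    refine jn 14817 (by decide +kernel) ?_
    refine jn 15413 (by decide +kernel) ?_
    refine jn 15706 (by decide +kernel) ?_
    refine jn 15895 (by decide +kernel) ?_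
    refine jn 16029 (by decide +kernel) ?_
    refine jn 16112 (by decide +kernel) ?_
    refine jn 16627 (by decide +kernel) ?_
    exact je (by decide +kernel)

end Pool.Agent.MP_2339ce_nt.NR
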