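import Pool.Agent.MP_2339ce_nt.Q2.NC.L5
import Pool.Agent.MP_2339ce_nt.Q2.NC.L8
import Pool.Agent.MP_2339ce_nt.Q2.CkI

/-! Block NR: runs. -/

set_option autoImplicit false
set_option maxRecDepth 100000

noncomputable section

namespace Pool.Agent.MP_2339ce_nt.NR

open Q2.Top

def T135_0 : Ph :=
  (.na 680 147 (.na 432 72 (.na 273 42 (.na 150 23 (.na 76 16 (.na 26 12 (.na 1 11 .ne (.nx 25
  660563 (.nr 24 623489 (.nr 2 8 .s1 (.nx 6 103 (.nx 4 63 (.nr 3 68 (.lg 0 true 1 19 19 9 0 11088)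
  (.l1 .sk)) (.nx 5 64 (.l1 .sk) (.l1 (.ls 79 23 595)))) (.nr 23 131073 (.nx 11 6503 (.lg 0 false 5
  89 89 16 0 55440) (.nr 22 46342 (.nr 16 154 (.lg 0 true 5 71 71 16 0 27720) (.nx 21 41287 (.lg 1
  true 5 89 89 16 14163 55440) .out)) .out)) .out))) .out) .out)) (.na 54 14 (.nx 53 660563 (.nr 52
  623489 (.nr 27 10 .s1 (.nx 30 64 (.nx 29 63 (.nr 28 79 (.l1 (.ls 23 31 333)) (.l1 .sk)) (.l1
  .sk)) (.nx 31 103 (.l1 (.ls 83 37 545)) (.nr 51 131073 (.nr 45 46342 (.nr 36 154 (.lg 0 true 5 71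
  71 17 0 5040) (.nx 44 41287 (.nr 39 2671 (.nx 37 2582 (.lg 0 true 1 71 71 13 0 5040) (.lg 2 false
  2 67 67 13 8446 1008)) (.lg 0 true 5 89 89 17 0 5040)) .out)) (.nx 50 6503 (.lg 0 false 5 83 89
  17 0 5040) .out)) .out)))) .out) .out) (.nx 75 660563 (.nr 74 623489 (.nr 55 12 .s1 (.nx 62 6503
  (.nx 56 103 (.l1 (.ls 73 37 760)) (.nr 61 131073 (.lg 0 true 5 79 79 13 0 5040) .out)) (.nr 73
  46342 (.nr 67 154 (.lg 0 true 5 67 67 13 0 5040) (.nx 72 41287 (.lg 1 false 5 79 79 13 14163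
  5040) .out)) .out))) .out) .out))) (.na 118 21 (.na 98 18 (.nx 97 660563 (.nr 96 623489 (.nr 77
  14 .s1 (.nx 79 63 (.nr 78 102 (.l1 (.ls 23 23 251)) (.l1 .sk)) (.nx 80 64 (.l1 .sk) (.nx 81 103
  (.l1 (.ls 79 29 410)) (.nr 95 131073 (.nx 86 6503 (.lg 0 false 5 83 83 17 0 5040) (.nr 94 46342
  (.nr 91 257 (.lg 0 true 5 71 71 17 0 5040) (.nx 93 41287 (.nx 92 13620 (.lg 1 true 1 83 83 11
  14163 1008) (.lg 1 false 1 89 89 11 6762 1008)) .out)) .out)) .out))))) .out) .out) (.nx 117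
  660563 (.nr 116 623489 (.nr 99 17 .s1 (.nx 107 6503 (.nx 101 63 (.nr 100 119 (.l1 (.ls 29 29
  223)) (.l1 .sk)) (.nx 102 64 (.l1 .sk) (.nx 103 103 (.l1 (.ls 83 31 364)) (.nr 106 131073 (.lg 0
  false 3 89 89 19 0 5040) .out)))) (.nr 115 46342 (.nr 112 257 (.lg 0 true 5 71 73 19 0 5040) (.nx
  114 41287 (.lg 1 true 2 89 89 13 14163 5040) .out)) .out))) .out) .out)) (.na 134 22 (.nx 133
  660563 (.nr 132 623489 (.nr 119 20 .s1 (.nx 120 103 (.l1 (.ls 71 29 508)) (.nr 131 131073 (.nx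
  125 41287 (.lg 0 true 5 89 89 16 0 5040) (.nr 130 257 (.lg 0 true 5 61 61 16 0 2520) .out))
  .out))) .out) .out) (.nx 149 660563 (.nr 148 623489 (.nr 135 21 .s1 (.nx 136 103 (.l1 (.ls 79 31
  485)) (.nr 147 131073 (.nx 138 6503 (.lg 0 true 2 89 89 13 0 55440) (.nr 146 46342 (.nr 143 257
  (.lg 0 true 5 71 71 19 0 55440) (.nx 145 41287 (.lg 1 false 2 89 89 13 14163 55440) .out)) .out))
  .out))) .out) .out)))) (.na 201 29 (.na 185 27 (.na 168 24 (.nx 167 660563 (.nr 166 131073 (.nr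
  151 22 .s1 (.nx 158 6503 (.nx 153 63 (.nr 152 136 (.l1 (.ls 19 17 175)) (.l1 .sk)) (.nx 154 64
  (.l1 .sk) (.lg 0 false 4 83 83 16 0 1008))) (.nr 165 32769 (.nr 162 257 (.lg 0 true 4 71 71 16 0
  1008) (.nx 164 41287 (.lg 1 false 2 83 83 13 10021 1008) .out)) .out))) .out) .out) (.nx 184
  660563 (.nr 183 131073 (.nr 169 23 .s1 (.nx 172 64 (.nx 171 63 (.nr 170 152 (.l1 (.ls 23 29 168))
  (.l1 .sk)) (.l1 .sk)) (.nx 177 6503 (.lg 0 false 5 79 83 23 0 5040) (.nr 182 32769 (.nr 180 257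
  (.lg 0 true 3 71 71 23 0 1008) (.nx 181 41287 (.lg 1 false 1 83 83 13 10021 1008) .out)) .out))))
  .out) .out)) (.na 186 28 (.lg 0 false 1 0 0 7 0 24) (.nx 200 660563 (.nr 199 131073 (.nr 187 27
  .s1 (.nx 192 6503 (.nx 189 63 (.nr 188 164 (.l1 (.ls 19 23 144)) (.l1 .sk)) (.nx 190 64 (.l1 .sk)
  (.lg 0 true 2 83 83 13 0 5040))) (.nr 198 32769 (.nr 195 257 (.lg 0 true 3 67 67 19 0 1008) (.nx
  197 41287 (.lg 1 false 2 79 79 13 10021 5040) .out)) .out))) .out) .out))) (.na 237 33 (.na 219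
  32 (.nx 218 660563 (.nr 217 131073 (.nr 202 28 .s1 (.nx 209 6503 (.nx 204 63 (.nr 203 181 (.l1
  (.ls 17 16 139)) (.l1 .sk)) (.nx 205 64 (.l1 .sk) (.lg 0 false 4 79 79 16 0 1008))) (.nr 216
  32769 (.nr 213 257 (.lg 0 true 4 67 67 16 0 1008) (.nx 215 41287 (.lg 1 false 2 79 79 16 10021
  1008) .out)) .out))) .out) .out) (.nx 236 660563 (.nr 235 262145 (.nr 220 32 .s1 (.nr 224 257
  (.nx 221 219 (.l1 (.ls 31 37 1501)) (.lg 0 true 3 71 71 19 0 1008)) (.nx 226 64 (.nx 225 63 (.l1
  .sk) (.l1 .sk)) (.nx 234 41287 (.nr 229 32769 (.lg 0 false 3 79 79 19 0 1008) (.nx 233 6503 (.nx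
  231 2582 (.lg 0 false 2 83 89 13 0 5040) (.nr 232 55110 (.lg 0 false 1 79 79 13 0 5040) .out))
  .out)) .out)))) .out) .out)) (.na 249 36 (.nx 248 82572 (.nr 247 262145 (.nr 238 33 .s1 (.nx 241
  64 (.nx 240 63 (.nr 239 203 (.l1 (.ls 23 19 123)) (.l1 .sk)) (.l1 .sk)) (.nr 245 32769 (.lg 0
  true 4 89 89 17 0 55440) (.nx 246 2582 (.lg 0 true 1 89 89 16 0 55440) .out)))) .out) .out) (.na
  261 37 (.nx 260 82572 (.nr 259 262145 (.nr 250 36 .s1 (.nx 252 63 (.nr 251 209 (.l1 (.ls 29 23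
  113)) (.l1 .sk)) (.nx 253 64 (.l1 .sk) (.nr 257 32769 (.nx 254 10324 (.lg 0 true 1 79 79 19 0
  1008) (.nr 255 209 (.lg 0 true 1 61 61 19 0 1008) (.nx 256 41287 (.lg 1 true 1 79 79 19 6312
  1008) .out))) (.nx 258 2582 (.lg 0 false 1 83 83 19 0 1008) .out))))) .out) .out) (.nx 272 82572
  (.nr 271 262145 (.nr 262 37 .s1 (.nx 265 64 (.nx 264 63 (.nr 263 237 (.l1 (.ls 17 16 110)) (.l1
  .sk)) (.l1 .sk)) (.nr 269 32769 (.lg 0 true 4 89 89 16 0 5040) (.nx 270 2582 (.lg 0 true 1 83 83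
  16 0 504) .out)))) .out) .out)))))) (.na 342 56 (.na 319 48 (.na 297 44 (.na 285 43 (.nx 284
  82572 (.nr 283 262145 (.nr 274 42 .s1 (.nx 277 64 (.nx 276 63 (.nr 275 243 (.l1 (.ls 16 29 97))
  (.l1 .sk)) (.l1 .sk)) (.nr 280 32769 (.lg 0 false 3 79 79 23 0 5040) (.nx 282 2582 (.lg 0 true 2
  71 71 19 0 1008) .out)))) .out) .out) (.nx 296 82572 (.nr 295 262145 (.nr 286 43 .s1 (.nx 289 64
  (.nx 288 63 (.nr 287 248 (.l1 (.ls 17 16 95)) (.l1 .sk)) (.l1 .sk)) (.nr 293 32769 (.lg 0 true 4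
  83 83 16 0 5040) (.nx 294 2582 (.lg 0 true 1 83 83 16 0 504) .out)))) .out) .out)) (.na 309 46
  (.nx 308 82572 (.nr 307 262145 (.nr 298 44 .s1 (.nx 300 63 (.nr 299 260 (.l1 (.ls 23 23 93)) (.l1
  .sk)) (.nx 301 64 (.l1 .sk) (.nr 305 32769 (.nx 303 41287 (.lg 0 true 2 83 83 23 0 11088) (.nr
  304 154 (.lg 0 true 1 53 53 19 0 11088) .out)) (.nx 306 2582 (.lg 0 true 1 83 83 19 0 11088)
  .out))))) .out) .out) (.nx 318 82572 (.nr 317 262145 (.nr 310 46 .s1 (.nx 312 63 (.nr 311 271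
  (.l1 (.ls 17 19 89)) (.l1 .sk)) (.nx 313 64 (.l1 .sk) (.nr 315 32769 (.lg 0 false 2 83 83 13 0
  1008) (.nx 316 2582 (.lg 0 true 1 83 83 13 0 1008) .out))))) .out) .out))) (.na 331 53 (.na 330
  49 (.nx 329 82572 (.nr 328 262145 (.nr 320 48 .s1 (.nx 322 63 (.nr 321 276 (.l1 (.ls 23 23 85))
  (.l1 .sk)) (.nx 323 64 (.l1 .sk) (.nx 326 41287 (.nr 324 32769 (.lg 0 false 1 83 83 19 0 5040)
  (.nx 325 2582 (.lg 0 false 1 79 79 19 0 1008) .out)) (.nr 327 154 (.lg 0 true 1 53 53 19 0 5040)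
  .out))))) .out) .out) (.lg 0 false 1 0 0 16 0 24)) (.na 341 54 (.nx 340 82572 (.nr 339 262145
  (.nr 332 53 .s1 (.nx 334 63 (.nr 333 305 (.l1 (.ls 17 16 77)) (.l1 .sk)) (.nx 335 64 (.l1 .sk)
  (.nr 337 32769 (.lg 0 false 2 89 89 16 0 5040) (.nx 338 2582 (.lg 0 true 1 79 79 16 0 504)
  .out))))) .out) .out) (.lg 0 false 1 0 0 16 0 24)))) (.na 384 65 (.na 363 63 (.na 353 58 (.nx 352
  82572 (.nr 351 262145 (.nr 343 56 .s1 (.nx 349 41287 (.nx 345 63 (.nr 344 327 (.l1 (.ls 19 23
  73)) (.l1 .sk)) (.nx 346 64 (.l1 .sk) (.nr 347 32769 (.lg 0 false 1 79 79 19 0 1008) (.nx 348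
  2582 (.lg 0 false 1 73 73 19 0 1008) .out)))) (.nr 350 154 (.lg 0 true 1 47 47 19 0 1008) .out)))
  .out) .out) (.nx 362 82572 (.nr 361 262145 (.nr 354 58 .s1 (.nx 356 63 (.nr 355 355 (.l1 (.ls 19
  19 71)) (.l1 .sk)) (.nx 357 64 (.l1 .sk) (.nr 359 32769 (.lg 0 false 2 89 89 13 0 1008) (.nx 360
  2582 (.lg 0 true 1 83 83 13 0 55440) .out))))) .out) .out)) (.na 374 64 (.nx 373 82572 (.nr 372
  262145 (.nr 364 63 .s1 (.nx 366 63 (.nr 365 361 (.l1 (.ls 19 19 65)) (.l1 .sk)) (.nx 367 64 (.l1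
  .sk) (.nx 370 41287 (.nr 368 32769 (.lg 0 false 1 79 79 17 0 504) (.nx 369 2582 (.lg 0 true 1 73
  73 17 0 504) .out)) (.nr 371 154 (.lg 0 true 1 43 43 17 0 504) .out))))) .out) .out) (.nx 383
  82572 (.nr 382 524289 (.nr 375 64 .s1 (.nx 378 6503 (.nx 376 647 (.l1 (.ls 73 43 6543)) (.nr 377
  262145 (.lg 0 true 1 83 83 17 0 1008) .out)) (.nr 381 65537 (.nx 379 41287 (.lg 1 false 1 79 79
  17 20321 1008) (.nr 380 257 (.lg 0 true 1 47 47 17 0 1008) .out)) .out))) .out) .out))) (.na 397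
  67 (.na 385 66 .ne (.nx 396 82572 (.nr 395 524289 (.nr 386 66 .s1 (.nx 393 41287 (.nx 387 647
  (.l1 (.ls 71 53 6345)) (.nr 392 262145 (.lg 0 false 5 83 89 31 0 55440) .out)) (.nr 394 257 (.lg
  0 false 1 47 47 23 0 11088) .out))) .out) .out)) (.na 408 69 (.nx 407 82572 (.nr 406 524289 (.nr
  398 67 .s1 (.nx 399 647 (.l1 (.ls 73 37 6250)) (.nr 405 262145 (.nx 403 41287 (.lg 0 false 4 89
  89 16 0 5040) (.nr 404 257 (.lg 0 false 1 43 43 16 0 504) .out)) .out))) .out) .out) (.na 420 71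
  (.nx 419 82572 (.nr 418 524289 (.nr 409 69 .s1 (.nx 410 647 (.l1 (.ls 71 43 6069)) (.nr 417
  262145 (.nx 415 41287 (.lg 0 false 5 83 83 19 0 2520) (.nr 416 257 (.lg 0 true 1 43 43 16 0 504)
  .out)) .out))) .out) .out) (.nx 431 82572 (.nr 430 524289 (.nr 421 71 .s1 (.nx 422 647 (.l1 (.ls
  67 37 5898)) (.nr 429 262145 (.nx 427 41287 (.lg 0 false 5 89 89 16 0 5040) (.nr 428 257 (.lg 0
  true 1 41 41 16 0 504) .out)) .out))) .out) .out))))))) (.na 568 111 (.na 503 88 (.na 475 81 (.na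
  455 77 (.na 443 74 (.nx 442 82572 (.nr 441 524289 (.nr 433 72 .s1 (.nx 435 647 (.nx 434 203 (.l1
  (.ls 83 37 575)) (.l1 (.ls 83 47 5244))) (.nr 440 262145 (.nx 438 41287 (.nx 436 6503 (.lg 0
  false 1 89 89 29 0 5040) (.nr 437 65537 (.lg 1 true 1 83 89 29 20021 5040) .out)) (.nr 439 257
  (.lg 0 true 1 53 61 29 0 5040) .out)) .out))) .out) .out) (.nx 454 82572 (.nr 453 524289 (.nr 444
  74 .s1 (.nx 451 41287 (.nx 445 647 (.l1 (.ls 71 47 5659)) (.nr 450 262145 (.lg 0 false 5 83 89 23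
  0 5040) .out)) (.nr 452 257 (.lg 0 true 1 43 43 13 0 1008) .out))) .out) .out)) (.na 466 79 (.nx
  465 82572 (.nr 464 524289 (.nr 456 77 .s1 (.nx 457 647 (.l1 (.ls 71 43 5439)) (.nr 463 262145
  (.nx 461 41287 (.lg 0 false 4 89 89 19 0 55440) (.nr 462 257 (.lg 0 true 1 43 43 17 0 5544)
  .out)) .out))) .out) .out) (.nx 474 82572 (.nr 473 524289 (.nr 467 79 .s1 (.nx 468 647 (.l1 (.ls
  67 37 5301)) (.nr 472 262145 (.nx 469 6503 (.lg 0 true 1 79 79 16 0 1008) (.nr 471 65537 (.lg 1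
  true 2 73 73 16 32925 1008) .out)) .out))) .out) .out))) (.na 484 86 (.na 476 84 (.lg 0 false 1 0
  0 16 0 24) (.nx 483 82572 (.nr 482 524289 (.nr 477 84 .s1 (.nx 480 6503 (.nx 478 647 (.l1 (.ls 67
  53 4986)) (.nr 479 262145 (.lg 0 true 1 73 73 23 0 1008) .out)) (.nr 481 65537 (.lg 1 false 1 79
  79 23 30965 1008) .out))) .out) .out)) (.na 492 87 (.nx 491 82572 (.nr 490 524289 (.nr 485 86 .s1
  (.nx 488 6503 (.nx 486 647 (.l1 (.ls 71 41 4870)) (.nr 487 262145 (.lg 0 true 1 79 79 13 0 1008)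
  .out)) (.nr 489 65537 (.lg 1 false 1 83 83 13 30245 1008) .out))) .out) .out) (.nx 502 82572 (.nr
  501 524289 (.nr 493 87 .s1 (.nx 494 647 (.l1 (.ls 71 43 4814)) (.nr 500 262145 (.nx 498 41287
  (.lg 0 false 4 83 89 19 0 5040) (.nr 499 257 (.lg 0 false 1 43 43 16 0 504) .out)) .out))) .out)
  .out)))) (.na 530 99 (.na 521 96 (.na 513 92 (.nx 512 82572 (.nr 511 524289 (.nr 504 88 .s1 (.nx
  509 41287 (.nx 507 6503 (.nx 505 647 (.l1 (.ls 83 47 4759)) (.nr 506 262145 (.lg 0 false 1 89 89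
  29 0 55440) .out)) (.nr 508 65537 (.lg 1 true 1 83 83 29 20021 55440) .out)) (.nr 510 257 (.lg 0
  true 1 53 59 29 0 55440) .out))) .out) .out) (.nx 520 82572 (.nr 519 524289 (.nr 514 92 .s1 (.nx
  517 6503 (.nx 515 647 (.l1 (.ls 79 47 4553)) (.nr 516 262145 (.lg 0 true 1 83 83 19 0 5040)
  .out)) (.nr 518 65537 (.lg 1 false 1 89 89 19 28272 5040) .out))) .out) .out)) (.na 529 98 (.nx
  528 82572 (.nr 527 524289 (.nr 522 96 .s1 (.nx 525 6503 (.nx 523 647 (.l1 (.ls 71 47 4363)) (.nr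
  524 262145 (.lg 0 false 1 73 73 23 0 1008) .out)) (.nr 526 65537 (.lg 1 false 1 79 79 23 27094
  1008) .out))) .out) .out) (.lg 0 false 1 0 0 16 0 24))) (.na 549 107 (.na 540 106 (.nx 539 82572
  (.nr 538 524289 (.nr 531 99 .s1 (.nx 536 41287 (.nx 534 6503 (.nx 532 647 (.l1 (.ls 73 43 4231))
  (.nr 533 262145 (.lg 0 false 1 79 79 23 0 5544) .out)) (.nr 535 65537 (.lg 1 true 1 79 79 23
  20021 11088) .out)) (.nr 537 257 (.lg 0 true 1 47 47 23 0 5544) .out))) .out) .out) (.nx 548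
  82572 (.nr 547 524289 (.nr 541 106 .s1 (.nx 545 41287 (.nx 542 647 (.l1 (.ls 71 41 3952)) (.nr
  544 262145 (.lg 0 false 2 83 83 19 0 1008) .out)) (.nr 546 257 (.lg 0 true 1 37 37 19 0 1008)
  .out))) .out) .out)) (.na 558 108 (.nx 557 82572 (.nr 556 524289 (.nr 550 107 .s1 (.nx 551 647
  (.l1 (.ls 67 31 3915)) (.nr 555 262145 (.nx 553 41287 (.lg 0 true 2 83 83 16 0 1008) (.nr 554 257
  (.lg 0 true 1 37 37 16 0 504) .out)) .out))) .out) .out) (.na 559 109 (.lg 0 false 1 0 0 16 0 24)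
  (.nx 567 82572 (.nr 566 524289 (.nr 560 109 .s1 (.nx 561 647 (.l1 (.ls 61 31 3843)) (.nr 565
  262145 (.nx 563 41287 (.lg 0 false 2 79 79 16 0 1008) (.nr 564 257 (.lg 0 true 1 37 37 16 0 1008)
  .out)) .out))) .out) .out)))))) (.na 636 129 (.na 602 121 (.na 585 113 (.na 577 112 (.nx 576
  82572 (.nr 575 524289 (.nr 569 111 .s1 (.nx 573 41287 (.nx 570 647 (.l1 (.ls 67 41 3774)) (.nr
  572 262145 (.lg 0 false 2 83 83 17 0 1008) .out)) (.nr 574 257 (.lg 0 true 1 41 41 17 0 1008)
  .out))) .out) .out) (.nx 584 82572 (.nr 583 524289 (.nr 578 112 .s1 (.nx 579 647 (.l1 (.ls 73 43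
  3740)) (.nr 582 262145 (.nx 580 6503 (.lg 0 true 1 79 79 23 0 5040) (.nr 581 65537 (.lg 1 false 1
  79 79 23 23224 5040) .out)) .out))) .out) .out)) (.na 594 116 (.nx 593 82572 (.nr 592 524289 (.nr
  586 113 .s1 (.nx 587 647 (.l1 (.ls 67 31 3707)) (.nr 591 262145 (.nx 589 41287 (.lg 0 true 2 83
  83 16 0 1008) (.nr 590 257 (.lg 0 true 1 37 37 16 0 504) .out)) .out))) .out) .out) (.nx 601
  82572 (.nr 600 524289 (.nr 595 116 .s1 (.nx 598 6503 (.nx 596 647 (.l1 (.ls 73 43 3611)) (.nr 597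
  262145 (.lg 0 false 1 79 79 19 0 1008) .out)) (.nr 599 65537 (.lg 1 false 1 79 79 19 22423 1008)
  .out))) .out) .out))) (.na 619 127 (.na 611 126 (.nx 610 82572 (.nr 609 524289 (.nr 603 121 .s1
  (.nx 604 647 (.l1 (.ls 67 37 3462)) (.nr 608 262145 (.nx 606 41287 (.lg 0 false 2 79 79 17 0
  11088) (.nr 607 257 (.lg 0 true 1 37 37 17 0 11088) .out)) .out))) .out) .out) (.nx 618 82572
  (.nr 617 524289 (.nr 612 126 .s1 (.nx 615 6503 (.nx 613 647 (.l1 (.ls 67 47 3325)) (.nr 614
  262145 (.lg 0 true 1 71 71 29 0 1008) .out)) (.nr 616 65537 (.lg 1 false 1 71 71 29 20643 1008)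
  .out))) .out) .out)) (.na 628 128 (.nx 627 82572 (.nr 626 524289 (.nr 620 127 .s1 (.nx 624 41287
  (.nx 621 647 (.l1 (.ls 67 31 3299)) (.nr 623 262145 (.lg 0 false 2 79 79 16 0 1008) .out)) (.nr
  625 257 (.lg 0 true 1 37 37 16 0 5040) .out))) .out) .out) (.nx 635 82572 (.nr 634 1048577 (.nr
  629 128 .s1 (.nx 632 16385 (.nx 630 647 (.l1 (.ls 73 41 3273)) (.nr 631 262145 (.lg 0 true 1 83
  83 19 0 5040) .out)) (.nr 633 131073 (.lg 1 true 1 73 73 19 20321 1008) .out))) .out) .out))))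
  (.na 655 137 (.na 643 132 (.na 642 131 (.nx 641 41287 (.nr 640 1048577 (.nr 637 129 .s1 (.nx 638
  647 (.l1 (.ls 71 37 3248)) (.nr 639 131073 (.lg 0 true 1 83 83 17 0 504) .out))) .out) .out) (.lg
  0 false 1 0 0 16 0 24)) (.na 649 134 (.nx 648 41287 (.nr 647 1048577 (.nr 644 132 .s1 (.nx 645
  647 (.l1 (.ls 79 47 3174)) (.nr 646 131073 (.lg 0 true 1 89 89 31 0 55440) .out))) .out) .out)
  (.nx 654 41287 (.nr 653 1048577 (.nr 650 134 .s1 (.nx 651 647 (.l1 (.ls 61 41 3126)) (.nr 652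
  131073 (.lg 0 true 1 83 83 19 0 1008) .out))) .out) .out))) (.na 667 139 (.na 661 138 (.nx 660
  41287 (.nr 659 1048577 (.nr 656 137 .s1 (.nx 657 647 (.l1 (.ls 71 31 3058)) (.nr 658 131073 (.lg
  0 true 1 79 79 16 0 504) .out))) .out) .out) (.nx 666 41287 (.nr 665 1048577 (.nr 662 138 .s1
  (.nx 663 647 (.l1 (.ls 73 47 3036)) (.nr 664 131073 (.lg 0 true 1 83 83 19 0 5040) .out))) .out)
  .out)) (.na 668 142 (.lg 0 false 1 0 0 16 0 24) (.na 674 144 (.nx 673 41287 (.nr 672 1048577 (.nr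
  669 142 .s1 (.nx 670 647 (.l1 (.ls 67 41 2950)) (.nr 671 131073 (.lg 0 true 1 83 83 19 0 1008)
  .out))) .out) .out) (.nx 679 41287 (.nr 678 1048577 (.nr 675 144 .s1 (.nx 676 647 (.l1 (.ls 79 43
  2910)) (.nr 677 131073 (.lg 0 false 1 83 89 31 0 1008) .out))) .out) .out)))))))) (.na 839 214
  (.na 757 179 (.na 718 161 (.na 699 154 (.na 687 149 (.na 681 148 (.lg 0 false 1 0 0 16 0 24) (.nx
  686 41287 (.nr 685 1048577 (.nr 682 148 .s1 (.nx 683 647 (.l1 (.ls 79 43 2831)) (.nr 684 131073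
  (.lg 0 true 1 89 89 23 0 5040) .out))) .out) .out)) (.na 693 151 (.nx 692 41287 (.nr 691 1048577
  (.nr 688 149 .s1 (.nx 689 647 (.l1 (.ls 67 31 2812)) (.nr 690 131073 (.lg 0 true 1 73 73 16 0
  1008) .out))) .out) .out) (.nx 698 41287 (.nr 697 1048577 (.nr 694 151 .s1 (.nx 695 647 (.l1 (.ls
  67 31 2775)) (.nr 696 131073 (.lg 0 true 1 73 73 16 0 504) .out))) .out) .out))) (.na 706 158
  (.na 705 157 (.nx 704 41287 (.nr 703 1048577 (.nr 700 154 .s1 (.nx 701 647 (.l1 (.ls 71 47 2721))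
  (.nr 702 131073 (.lg 0 true 1 79 79 29 0 11088) .out))) .out) .out) (.lg 0 false 1 0 0 16 0 24))
  (.na 712 159 (.nx 711 41287 (.nr 710 1048577 (.nr 707 158 .s1 (.nx 708 647 (.l1 (.ls 71 41 2652))
  (.nr 709 131073 (.lg 0 true 1 83 83 19 0 5040) .out))) .out) .out) (.nx 717 41287 (.nr 716
  1048577 (.nr 713 159 .s1 (.nx 714 647 (.l1 (.ls 71 37 2635)) (.nr 715 131073 (.lg 0 true 1 79 79
  17 0 1008) .out))) .out) .out)))) (.na 732 168 (.na 725 163 (.na 724 162 (.nx 723 41287 (.nr 722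
  1048577 (.nr 719 161 .s1 (.nx 720 647 (.l1 (.ls 71 41 2603)) (.nr 721 131073 (.lg 0 true 1 79 79
  17 0 1008) .out))) .out) .out) (.lg 0 false 1 0 0 16 0 24)) (.na 731 167 (.nx 730 41287 (.nr 729
  1048577 (.nr 726 163 .s1 (.nx 727 647 (.l1 (.ls 67 31 2571)) (.nr 728 131073 (.lg 0 true 1 73 73
  16 0 504) .out))) .out) .out) (.lg 0 false 1 0 0 16 0 24))) (.na 744 173 (.na 738 172 (.nx 737
  41287 (.nr 736 1048577 (.nr 733 168 .s1 (.nx 734 647 (.l1 (.ls 73 47 2494)) (.nr 735 131073 (.lg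
  0 true 1 83 83 31 0 1008) .out))) .out) .out) (.nx 743 41287 (.nr 742 1048577 (.nr 739 172 .s1
  (.nx 740 647 (.l1 (.ls 79 41 2436)) (.nr 741 131073 (.lg 0 true 1 83 83 23 0 1008) .out))) .out)
  .out)) (.na 745 174 (.lg 0 false 1 0 0 16 0 24) (.na 751 176 (.nx 750 41287 (.nr 749 1048577 (.nr
  746 174 .s1 (.nx 747 647 (.l1 (.ls 71 47 2408)) (.nr 748 131073 (.lg 0 true 1 79 79 23 0 1008)
  .out))) .out) .out) (.nx 756 41287 (.nr 755 1048577 (.nr 752 176 .s1 (.nx 753 647 (.l1 (.ls 79 43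
  2381)) (.nr 754 131073 (.lg 0 false 1 83 89 31 0 11088) .out))) .out) .out)))))) (.na 790 197
  (.na 771 191 (.na 764 184 (.na 763 181 (.nx 762 41287 (.nr 761 1048577 (.nr 758 179 .s1 (.nx 759
  647 (.l1 (.ls 67 31 2341)) (.nr 760 131073 (.lg 0 true 1 73 73 16 0 11088) .out))) .out) .out)
  (.lg 0 false 1 0 0 16 0 24)) (.na 770 189 (.nx 769 41287 (.nr 768 1048577 (.nr 765 184 .s1 (.nx
  766 647 (.l1 (.ls 79 43 2278)) (.nr 767 131073 (.lg 0 false 1 83 89 31 0 1008) .out))) .out)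
  .out) (.lg 0 false 1 0 0 16 0 24))) (.na 783 193 (.na 777 192 (.nx 776 41287 (.nr 775 1048577
  (.nr 772 191 .s1 (.nx 773 647 (.l1 (.ls 61 29 2194)) (.nr 774 131073 (.lg 0 true 1 71 71 16 0
  1008) .out))) .out) .out) (.nx 782 41287 (.nr 781 1048577 (.nr 778 192 .s1 (.nx 779 647 (.l1 (.ls
  73 43 2183)) (.nr 780 131073 (.lg 0 true 1 79 79 29 0 5040) .out))) .out) .out)) (.na 789 196
  (.nx 788 41287 (.nr 787 1048577 (.nr 784 193 .s1 (.nx 785 647 (.l1 (.ls 67 29 2171)) (.nr 786
  131073 (.lg 0 true 1 73 73 16 0 5040) .out))) .out) .out) (.lg 0 false 1 0 0 16 0 24)))) (.na 809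
  203 (.na 802 199 (.na 796 198 (.nx 795 41287 (.nr 794 1048577 (.nr 791 197 .s1 (.nx 792 647 (.l1
  (.ls 67 29 2127)) (.nr 793 131073 (.lg 0 true 1 73 73 16 0 5040) .out))) .out) .out) (.nx 801
  41287 (.nr 800 1048577 (.nr 797 198 .s1 (.nx 798 647 (.l1 (.ls 79 47 2117)) (.nr 799 131073 (.lg
  0 false 1 89 89 37 0 55440) .out))) .out) .out)) (.na 803 201 (.lg 0 false 1 0 0 16 0 24) (.nx
  808 41287 (.nr 807 1048577 (.nr 804 201 .s1 (.nx 805 647 (.l1 (.ls 61 37 2085)) (.nr 806 131073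
  (.lg 0 true 1 73 73 19 0 504) .out))) .out) .out))) (.na 821 211 (.na 815 207 (.nx 814 41287 (.nr
  813 1048577 (.nr 810 203 .s1 (.nx 811 647 (.l1 (.ls 71 37 2065)) (.nr 812 131073 (.lg 0 true 1 79
  79 17 0 5040) .out))) .out) .out) (.nx 820 41287 (.nr 819 1048577 (.nr 816 207 .s1 (.nx 817 647
  (.l1 (.ls 79 41 2025)) (.nr 818 131073 (.lg 0 false 1 89 89 19 0 5040) .out))) .out) .out)) (.na
  827 212 (.nx 826 41287 (.nr 825 1048577 (.nr 822 211 .s1 (.nx 823 647 (.l1 (.ls 61 29 1986)) (.nr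
  824 131073 (.lg 0 true 1 71 71 16 0 1008) .out))) .out) .out) (.na 833 213 (.nx 832 41287 (.nr
  831 1048577 (.nr 828 212 .s1 (.nx 829 647 (.l1 (.ls 79 37 1977)) (.nr 830 131073 (.lg 0 true 1 83
  83 23 0 1008) .out))) .out) .out) (.nx 838 41287 (.nr 837 1048577 (.nr 834 213 .s1 (.nx 835 647
  (.l1 (.ls 67 37 1968)) (.nr 836 131073 (.lg 0 true 1 73 73 19 0 504) .out))) .out) .out)))))))
  (.na 911 251 (.na 872 229 (.na 858 223 (.na 846 218 (.na 845 216 (.nx 844 41287 (.nr 843 1048577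
  (.nr 840 214 .s1 (.nx 841 647 (.l1 (.ls 67 37 1959)) (.nr 842 131073 (.lg 0 true 1 71 71 23 0
  1008) .out))) .out) .out) (.lg 0 false 1 0 0 16 0 24)) (.na 852 222 (.nx 851 41287 (.nr 850
  1048577 (.nr 847 218 .s1 (.nx 848 647 (.l1 (.ls 67 37 1923)) (.nr 849 131073 (.lg 0 true 1 73 73
  23 0 5040) .out))) .out) .out) (.nx 857 41287 (.nr 856 1048577 (.nr 853 222 .s1 (.nx 854 647 (.l1
  (.ls 71 47 1888)) (.nr 855 131073 (.lg 0 true 1 79 79 29 0 5040) .out))) .out) .out))) (.na 865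
  226 (.na 859 224 (.lg 0 false 1 0 0 16 0 24) (.nx 864 41287 (.nr 863 1048577 (.nr 860 224 .s1
  (.nx 861 647 (.l1 (.ls 71 41 1871)) (.nr 862 131073 (.lg 0 false 1 73 73 29 0 1008) .out))) .out)
  .out)) (.na 871 227 (.nx 870 41287 (.nr 869 1048577 (.nr 866 226 .s1 (.nx 867 647 (.l1 (.ls 61 37
  1855)) (.nr 868 131073 (.lg 0 true 1 71 71 23 0 1008) .out))) .out) .out) (.lg 0 false 1 0 0 16 0
  24)))) (.na 891 237 (.na 879 232 (.na 873 231 (.lg 0 false 1 0 0 16 0 24) (.nx 878 41287 (.nr 877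
  1048577 (.nr 874 231 .s1 (.nx 875 647 (.l1 (.ls 67 41 1815)) (.nr 876 131073 (.lg 0 true 1 71 71
  29 0 5544) .out))) .out) .out)) (.na 885 233 (.nx 884 41287 (.nr 883 1048577 (.nr 880 232 .s1
  (.nx 881 647 (.l1 (.ls 79 41 1807)) (.nr 882 131073 (.lg 0 false 1 89 89 23 0 5040) .out))) .out)
  .out) (.nx 890 41287 (.nr 889 1048577 (.nr 886 233 .s1 (.nx 887 647 (.l1 (.ls 67 29 1799)) (.nr
  888 131073 (.lg 0 true 1 71 71 17 0 504) .out))) .out) .out))) (.na 903 241 (.na 897 239 (.nx 896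
  41287 (.nr 895 1048577 (.nr 892 237 .s1 (.nx 893 647 (.l1 (.ls 67 31 1769)) (.nr 894 131073 (.lg
  0 true 1 71 71 19 0 504) .out))) .out) .out) (.nx 902 41287 (.nr 901 1048577 (.nr 898 239 .s1
  (.nx 899 647 (.l1 (.ls 61 29 1754)) (.nr 900 131073 (.lg 0 true 1 71 71 17 0 504) .out))) .out)
  .out)) (.na 904 242 (.lg 0 false 1 0 0 16 0 24) (.na 910 243 (.nx 909 41287 (.nr 908 1048577 (.nr
  905 242 .s1 (.nx 906 647 (.l1 (.ls 71 41 1732)) (.nr 907 131073 (.lg 0 true 1 73 73 29 0 55440)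
  .out))) .out) .out) (.lg 0 false 1 0 0 16 0 24)))))) (.na 1798 1024 (.na 930 256 (.na 918 253
  (.na 912 252 (.lg 0 false 1 0 0 16 0 24) (.nx 917 41287 (.nr 916 1048577 (.nr 913 252 .s1 (.nx
  914 647 (.l1 (.ls 73 43 1664)) (.nr 915 131073 (.lg 0 false 1 83 83 37 0 5040) .out))) .out)
  .out)) (.na 924 254 (.nx 923 41287 (.nr 922 1048577 (.nr 919 253 .s1 (.nx 920 647 (.l1 (.ls 73 37
  1657)) (.nr 921 131073 (.lg 0 true 1 83 83 19 0 55440) .out))) .out) .out) (.nx 929 41287 (.nr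
  928 1048577 (.nr 925 254 .s1 (.nx 926 647 (.l1 (.ls 61 37 1651)) (.nr 927 131073 (.lg 0 true 1 71
  71 23 0 1008) .out))) .out) .out))) (.na 1258 512 (.na 936 257 (.nx 935 41287 (.nr 934 1048577
  (.nr 931 256 .s1 (.nx 932 647 (.l1 (.ls 71 37 1638)) (.nr 933 262145 (.lg 0 false 1 79 79 29 0
  1008) .out))) .out) .out) (.nx 1257 41287 (.nr 1256 262145 (.nr 937 257 .s1 (.nx 1001 64 (.nx
  1000 63 (.nr 999 2886 (.lx (.lp 37 17 129)) (.l1 .sk)) (.l1 .sk)) (.la (.lg 0 false 1 73 73 23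
  0)))) .out) .out)) (.na 1538 725 (.nx 1537 41287 (.nr 1536 262145 (.nr 1259 512 .s1 (.nx 1323 64
  (.nx 1322 63 (.nr 1321 4086 (.lx (.lp 16 17 182)) (.l1 .sk)) (.l1 .sk)) (.la (.lg 0 false 1 71 71
  29 0)))) .out) .out) (.nx 1797 257 (.nr 1796 65537 (.nr 1539 725 .s1 (.nx 1667 129 (.lx (.lp 53
  23 257)) (.nr 1795 8193 (.lx (.lp 41 23 257)) .out))) .out) .out)))) (.na 2835 4096 (.na 2317
  2048 (.na 2058 1449 (.nx 2057 257 (.nr 2056 65537 (.nr 1799 1024 .s1 (.nx 1927 129 (.lx (.lp 47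
  23 363)) (.nr 2055 8193 (.lx (.lp 37 23 363)) .out))) .out) .out) (.nx 2316 257 (.nr 2315 16385
  (.nr 2059 1449 .s1 (.lx (.lp 41 29 513))) .out) .out)) (.na 2576 2897 (.nx 2575 257 (.nr 2574
  32769 (.nr 2318 2048 .s1 (.lx (.lp 41 29 725))) .out) .out) (.nx 2834 257 (.nr 2833 32769 (.nr
  2577 2897 .s1 (.lx (.lp 41 31 1025))) .out) .out))) (.na 3199 8192 (.na 3094 5793 (.nx 3093 257
  (.nr 3092 32769 (.nr 2836 4096 .s1 (.lx (.lp 31 31 1449))) .out) .out) (.nx 3198 103 (.nr 3197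
  32769 (.nr 3095 5793 .s1 (.lx (.lp 23 31 2049))) .out) .out)) (.na 3304 16384 (.nx 3303 103 (.nr
  3302 32769 (.nr 3200 8192 .s1 (.lx (.lp 16 0 4097))) .out) .out) (.na 3306 32769 (.nx 3305 103
  (.l1 .sk) .out) .out))))))))

def T135_1 : Ph :=
  (.na 564 10 (.na 238 4 (.na 1 2 .ne (.na 237 3 (.nx 236 3329023 (.nr 235 623489 (.nx 218 1664512
  (.nx 95 32769 (.nx 4 181 (.nx 3 180 (.nr 2 26 (.lg 0 true 1 41 41 5 0 720) (.l1 .sk)) (.l1 .sk))
  (.nr 81 131073 (.lg 0 false 77 89 103 13 0 55440) (.nx 94 257 (.lg 0 false 13 73 73 9 0 9360)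
  .out))) (.nr 217 92683 (.nx 190 416129 (.nr 108 450 (.lg 0 true 13 83 83 9 0 9360) (.nx 121 44591
  (.lg 1 false 13 97 101 9 45910 65520) (.nr 148 27556 (.nr 134 2437 (.lg 2 true 13 89 89 9 83226
  9360) (.nx 147 330282 (.lg 2 false 13 89 97 9 12198 9360) .out)) (.nx 189 165142 (.nr 175 77937
  (.nr 161 55110 (.lg 2 false 13 101 103 9 20088 720720) (.nx 174 131073 (.lg 2 true 13 101 103 9
  28381 720720) .out)) (.nx 188 82572 (.lg 2 true 13 101 103 9 33738 720720) .out)) .out)))) (.nr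
  216 257 (.lg 0 true 26 83 83 11 0 9360) .out)) .out)) (.nr 234 9 (.lg 0 true 16 67 67 9 0 720)
  .out)) .out) .out) .ne)) (.na 437 6 (.na 436 5 (.nx 435 13316087 (.nr 434 1246976 (.nx 273 26007
  (.nx 241 181 (.nx 240 180 (.nr 239 46 (.lg 0 true 1 37 37 9 0 720) (.l1 .sk)) (.l1 .sk)) (.nr 254
  110219 (.lg 0 false 13 103 107 13 0 720720) (.nx 272 1627 (.nr 258 155873 (.lg 0 false 4 89 89 11
  0 5040) (.nx 271 257 (.lg 0 false 13 79 83 13 0 65520) .out)) .out))) (.nr 433 131073 (.nx 370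
  416129 (.nr 290 2909 (.nr 286 729 (.lg 0 true 13 89 89 13 0 65520) (.lg 2 true 4 89 97 11 51374
  5040)) (.nx 303 36779 (.lg 1 false 13 97 107 13 81761 720720) (.nx 356 131073 (.nx 342 104033
  (.nx 316 52015 (.lg 1 false 13 97 107 13 57814 720720) (.nx 329 73561 (.lg 1 false 13 97 107 13
  40879 720720) (.lg 1 true 13 97 103 13 28906 720720))) (.nr 355 92683 (.lg 1 true 13 97 103 13
  14461 720720) .out)) (.nr 369 55110 (.nr 358 5810 (.lg 2 false 2 89 89 9 12875 5040) (.lg 2 false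
  11 89 101 13 6834 55440)) .out)))) (.nr 432 183 (.nx 383 1664512 (.lg 0 true 13 83 83 13 0 9360)
  (.nr 431 21 (.nx 405 6658044 (.lg 0 true 22 79 79 11 0 7920) (.lg 0 true 26 79 79 11 0 9360))
  .out)) .out)) .out)) .out) .out) .ne) (.na 563 7 (.nx 562 13316087 (.nr 561 623489 (.nx 515
  832257 (.nx 439 180 (.nr 438 66 (.lg 0 true 1 31 31 7 0 720) (.l1 .sk)) (.nx 440 181 (.l1 .sk)
  (.nx 441 205 (.l1 (.ls 79 41 1547)) (.nr 514 370729 (.nx 464 38224 (.nr 452 131073 (.lg 0 false
  11 101 103 13 0 55440) (.nx 463 1627 (.lg 0 false 11 83 83 13 0 7920) .out)) (.nr 513 155873 (.nr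
  475 1026 (.lg 0 true 11 83 83 13 0 7920) (.nx 512 660563 (.nr 482 8201 (.lg 2 true 7 89 89 13
  57945 5040) (.nx 504 131073 (.nx 493 73561 (.lg 1 false 11 97 101 13 66139 55440) (.lg 1 true 11
  97 101 13 34368 55440)) (.nr 511 65537 (.lg 2 false 7 89 89 13 8123 5040) .out))) .out)) .out))
  .out)))) (.nr 560 129 (.nr 548 42 (.lg 0 true 33 73 73 13 0 7920) (.nx 559 1664512 (.lg 0 true 11
  71 71 13 0 7920) .out)) .out)) .out) .out) .ne))) (.na 725 16 (.na 617 12 (.nx 616 1664512 (.nr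
  615 623489 (.nx 567 181 (.nx 566 180 (.nr 565 114 (.lg 0 true 1 31 31 9 0 5040) (.l1 .sk)) (.l1
  .sk)) (.nr 603 131073 (.nx 578 48160 (.lg 0 false 11 97 101 13 0 55440) (.nr 591 829 (.lg 0 true
  13 79 79 13 0 9360) (.nx 602 416129 (.lg 2 false 11 97 101 13 45177 55440) .out))) (.nx 614 1292
  (.lg 0 false 11 79 79 13 0 7920) .out))) .out) .out) (.na 668 14 (.nx 667 1664512 (.nr 666 623489
  (.nx 619 180 (.nr 618 133 (.lg 0 true 1 29 29 13 0 720) (.l1 .sk)) (.nx 620 181 (.l1 .sk) (.nr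
  658 155873 (.nx 651 524289 (.nx 631 32584 (.lg 0 false 11 89 97 23 0 7920) (.nr 650 110219 (.nr
  638 829 (.lg 0 true 7 79 79 19 0 5040) (.nx 649 416129 (.lg 2 false 11 97 103 23 54889 720720)
  .out)) .out)) (.nr 657 65 (.lg 0 true 6 67 67 19 0 720) .out)) (.nx 665 1292 (.lg 0 false 7 79 83
  19 0 5040) .out)))) .out) .out) (.nx 724 1664512 (.nr 723 623489 (.nr 669 5 .s1 (.nx 671 180 (.nr
  670 152 (.lg 0 true 1 31 31 11 0 5040) (.l1 .sk)) (.nx 672 181 (.l1 .sk) (.nr 718 155873 (.nx 712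
  524289 (.nr 708 110219 (.nr 692 46342 (.nx 675 16201 (.lg 0 true 3 89 89 13 0 5040) (.nr 680 829
  (.lg 0 true 5 79 79 13 0 5040) (.nx 691 416129 (.lg 2 false 11 79 79 19 46521 55440) .out))) (.nx
  707 208065 (.nx 703 131073 (.lg 0 true 11 101 107 19 0 720720) (.nr 706 55110 (.lg 0 true 3 89 89
  13 0 5040) .out)) .out)) (.nx 711 10323 (.lg 0 false 3 89 89 13 0 5040) .out)) (.nr 717 65 (.lg 0
  true 5 71 71 13 0 5040) .out)) (.nx 722 1292 (.lg 0 false 4 83 83 13 0 5040) .out))))) .out)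
  .out))) (.na 769 20 (.na 726 18 .ne (.nx 768 1664512 (.nr 767 1048577 (.nr 727 13 .s1 (.nx 731
  257 (.nx 729 180 (.nr 728 190 (.lg 0 true 1 31 31 13 0 5040) (.l1 .sk)) (.nx 730 181 (.l1 .sk)
  (.l1 (.ls 89 41 1852)))) (.nr 766 623489 (.nr 762 220437 (.nx 738 16201 (.lg 0 false 7 89 97 23 0
  5040) (.nr 761 92683 (.nx 756 262145 (.nr 753 77937 (.nr 746 46342 (.nr 739 634 (.lg 0 false 1 83
  83 13 0 5040) (.lg 2 false 7 79 79 23 46521 5040)) (.nx 752 165142 (.nx 749 82572 (.lg 0 true 3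
  97 101 19 0 55440) (.nr 751 55110 (.lg 0 true 2 97 97 13 0 5040) .out)) .out)) (.nx 755 41287
  (.lg 0 true 2 89 89 13 0 5040) .out)) (.nr 760 217 (.lg 0 true 4 73 73 19 0 720) .out)) .out))
  (.nx 765 1627 (.lg 0 false 3 89 89 19 0 5040) .out)) .out))) .out) .out)) (.na 808 23 (.nx 807
  1664512 (.nr 806 1048577 (.nr 770 15 .s1 (.nx 772 180 (.nr 771 219 (.lg 0 true 1 29 29 13 0 720)
  (.l1 .sk)) (.nx 773 181 (.l1 .sk) (.nx 774 257 (.l1 (.ls 79 41 1667)) (.nr 805 623489 (.nx 789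
  41287 (.nr 781 92683 (.lg 0 false 7 83 89 19 0 5040) (.nx 788 13005 (.nr 784 220437 (.lg 0 false
  3 89 89 13 0 720) (.nx 787 1627 (.lg 0 false 3 79 79 13 0 720) .out)) .out)) (.nr 804 77937 (.nr
  796 639 (.lg 0 true 7 79 79 19 0 5040) (.nx 803 262145 (.lg 2 false 7 83 89 19 36922 5040) .out))
  .out)) .out))))) .out) .out) .ne))))

def T135_2 : Ph :=
  (.na 260 5 (.na 204 3 (.na 135 2 (.nx 134 660563 (.nr 133 1482912 (.nx 108 104033 (.nx 66 4097
  (.nx 2 55 (.nr 1 8 (.lg 0 true 1 41 41 5 0 55440) (.l1 .sk)) (.nx 3 56 (.l1 .sk) (.nr 28 38969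
  (.nr 15 16385 (.lg 0 true 12 89 89 9 0 55440) (.nx 27 1292 (.lg 0 false 12 89 97 9 0 55440)
  .out)) (.nx 65 205 (.nr 40 110219 (.lg 0 false 12 83 83 9 0 55440) (.nx 64 103 (.lg 0 false 24 83
  83 11 0 7920) .out)) .out)))) (.nr 107 13779 (.nr 94 682 (.nr 90 331 (.lg 0 true 24 83 83 11 0
  55440) (.lg 2 false 4 79 79 7 8644 18480)) (.lg 2 false 13 101 103 9 5108 720720)) .out)) (.nr
  132 78 (.lg 0 true 24 83 83 11 0 7920) .out)) .out) .out) (.nx 203 660563 (.nr 202 623489 (.nx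
  137 55 (.nr 136 14 (.lg 0 true 1 31 31 5 0 2640) (.l1 .sk)) (.nx 138 56 (.l1 .sk) (.nr 188 131073
  (.nr 178 27556 (.nx 147 4979 (.lg 0 true 9 89 89 9 0 7920) (.nr 168 307 (.lg 0 true 21 89 89 11 0
  55440) (.nx 177 104033 (.lg 2 false 9 101 103 9 9319 720720) .out))) (.nx 187 647 (.lg 0 false 9
  89 89 9 0 7920) .out)) (.nx 201 103 (.lg 0 false 13 73 73 9 0 34320) .out)))) .out) .out)) (.na
  205 4 .ne (.nx 259 660563 (.nr 258 1246976 (.nx 208 56 (.nx 207 55 (.nr 206 26 (.lg 0 true 1 29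
  29 9 0 2640) (.l1 .sk)) (.l1 .sk)) (.nr 250 440873 (.nr 242 55110 (.nx 215 6503 (.lg 0 false 7 89
  89 11 0 18480) (.nr 241 19485 (.nx 233 330282 (.nr 226 2458 (.nr 224 618 (.lg 0 true 9 83 83 13 0
  7920) (.lg 2 false 2 83 83 9 14698 2640)) (.lg 2 false 7 83 89 11 4546 18480)) (.nr 240 78 (.lg 0
  true 7 73 73 11 0 18480) .out)) .out)) (.nx 249 647 (.lg 0 false 7 89 89 11 0 18480) .out)) (.nx
  257 103 (.lg 0 false 7 73 73 11 0 18480) .out))) .out) .out))) (.na 320 7 (.na 319 6 (.nx 318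
  660563 (.nr 317 1482912 (.nx 294 6503 (.nx 262 55 (.nr 261 31 (.l1 (.ls 17 23 607)) (.l1 .sk))
  (.nx 263 56 (.l1 .sk) (.nx 273 103 (.nr 264 741457 (.l1 (.ls 83 31 1497)) (.lg 0 false 9 67 67 13
  0 3960)) (.nr 293 185365 (.nr 285 65537 (.lg 0 false 12 83 83 16 0 7920) (.nx 292 647 (.lg 0
  false 7 73 73 11 0 9240) .out)) .out)))) (.nr 316 23172 (.nr 306 659 (.lg 0 true 12 83 83 16 0
  7920) (.nx 315 330282 (.lg 2 false 9 89 89 13 13783 55440) .out)) .out)) .out) .out) .ne) (.na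
  359 8 (.nx 358 660563 (.nr 357 262145 (.nx 352 330282 (.nx 322 55 (.nr 321 42 (.lg 0 true 1 23 23
  9 0 18480) (.l1 .sk)) (.nx 323 56 (.l1 .sk) (.nr 347 92683 (.nx 332 6503 (.lg 0 false 9 83 89 16
  0 27720) (.nr 346 32769 (.nr 341 584 (.lg 0 true 9 79 79 16 0 27720) (.nr 342 1142 (.lg 2 false 1
  73 73 9 15553 9240) (.lg 2 false 4 89 89 13 7954 18480))) .out)) (.nx 351 647 (.lg 0 false 4 83
  83 13 0 18480) .out)))) (.nr 356 78 (.lg 0 true 4 71 71 13 0 18480) .out)) .out) .out) (.nx 396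
  660563 (.nr 395 623489 (.nr 360 4 .s1 (.nx 391 330282 (.nx 363 56 (.nx 362 55 (.nr 361 47 (.l1
  (.ls 31 29 381)) (.l1 .sk)) (.l1 .sk)) (.nx 364 103 (.l1 (.ls 97 31 937)) (.nr 390 131073 (.nr
  387 110219 (.nr 367 537 (.lg 0 false 3 83 83 13 0 7920) (.nr 370 2242 (.nx 368 1513 (.lg 0 true 1
  73 73 11 0 2640) (.lg 2 false 2 79 79 11 16914 18480)) (.nr 380 38969 (.nx 373 8470 (.lg 0 false
  3 101 103 13 0 720720) (.lg 2 true 7 73 73 13 6969 18480)) (.nx 386 41287 (.lg 0 false 6 103 107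
  13 0 720720) .out)))) (.nx 388 406 .out (.nx 389 2582 (.lg 0 true 1 101 101 11 0 720720) .out)))
  .out))) (.nr 394 129 (.lg 0 true 3 79 79 13 0 7920) .out))) .out) .out))))

theorem c135 :
    OkQ ckI L5 63 10 1099511627776 0 34359738368 1 1099511627776 ∧
    OkQ ckI L8 180 1 28 0 34359738368 1 1099511627776 ∧
    OkQ ckI L5 55 1 9 0 34359738368 1 1099511627776 := by
  refine ⟨?_, ?_, ?_⟩
  · refine fin 504 3307 T135_0 ?_
    refine jn 6 (by decide +kernel) ?_
    refine jn 8 (by decide +kernel) ?_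
    refine jn 10 (by decide +kernel) ?_
    refine jn 11 (by decide +kernel) ?_
    refine jn 13 (by decide +kernel) ?_
    refine jn 15 (by decide +kernel) ?_
    refine jn 21 (by decide +kernel) ?_
    refine jn 31 (by decide +kernel) ?_
    refine jn 32 (by decide +kernel) ?_
    refine jn 33 (by decide +kernel) ?_
    refine jn 34 (by decide +kernel) ?_
    refine jn 35 (by decide +kernel) ?_
    refine jn 36 (by decide +kernel) ?_
    refine jn 37 (by decide +kernel) ?_
    refine jn 38 (by decide +kernel) ?_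
    refine jn 39 (by decide +kernel) ?_
    refine jn 40 (by decide +kernel) ?_
    refine jn 41 (by decide +kernel) ?_
    refine jn 42 (by decide +kernel) ?_
    refine jn 43 (by decide +kernel) ?_
    refine jn 44 (by decide +kernel) ?_
    refine jn 56 (by decide +kernel) ?_
    refine jn 62 (by decide +kernel) ?_
    refine jn 72 (by decide +kernel) ?_
    refine jn 80 (by decide +kernel) ?_
    refine jn 81 (by decide +kernel) ?_
    refine jn 82 (by decide +kernel) ?_
    refine jn 83 (by decide +kernel) ?_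
    refine jn 84 (by decide +kernel) ?_
    refine jn 85 (by decide +kernel) ?_
    refine jn 86 (by decide +kernel) ?_
    refine jn 87 (by decide +kernel) ?_
    refine jn 88 (by decide +kernel) ?_
    refine jn 89 (by decide +kernel) ?_
    refine jn 90 (by decide +kernel) ?_
    refine jn 91 (by decide +kernel) ?_
    refine jn 93 (by decide +kernel) ?_
    refine jn 103 (by decide +kernel) ?_
    refine jn 104 (by decide +kernel) ?_
    refine jn 105 (by decide +kernel) ?_
    refine jn 106 (by decide +kernel) ?_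
    refine jn 109 (by decide +kernel) ?_
    refine jn 110 (by decide +kernel) ?_
    refine jn 112 (by decide +kernel) ?_
    refine jn 115 (by decide +kernel) ?_
    refine jn 130 (by decide +kernel) ?_
    refine jn 136 (by decide +kernel) ?_
    refine jn 138 (by decide +kernel) ?_
    refine jn 143 (by decide +kernel) ?_
    refine jn 154 (by decide +kernel) ?_
    refine jn 158 (by decide +kernel) ?_
    refine jn 162 (by decide +kernel) ?_
    refine jn 172 (by decide +kernel) ?_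
    refine jn 173 (by decide +kernel) ?_
    refine jn 174 (by decide +kernel) ?_
    refine jn 175 (by decide +kernel) ?_
    refine jn 176 (by decide +kernel) ?_
    refine jn 177 (by decide +kernel) ?_
    refine jn 178 (by decide +kernel) ?_
    refine jn 179 (by decide +kernel) ?_
    refine jn 180 (by decide +kernel) ?_
    refine jn 181 (by decide +kernel) ?_
    refine jn 192 (by decide +kernel) ?_
    refine jn 195 (by decide +kernel) ?_
    refine jn 205 (by decide +kernel) ?_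
    refine jn 209 (by decide +kernel) ?_
    refine jn 215 (by decide +kernel) ?_
    refine jn 221 (by decide +kernel) ?_
    refine jn 222 (by decide +kernel) ?_
    refine jn 223 (by decide +kernel) ?_
    refine jn 224 (by decide +kernel) ?_
    refine jn 226 (by decide +kernel) ?_
    refine jn 227 (by decide +kernel) ?_
    refine jn 228 (by decide +kernel) ?_
    refine jn 229 (by decide +kernel) ?_
    refine jn 232 (by decide +kernel) ?_
    refine jn 245 (by decide +kernel) ?_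
    refine jn 253 (by decide +kernel) ?_
    refine jn 254 (by decide +kernel) ?_
    refine jn 255 (by decide +kernel) ?_
    refine jn 256 (by decide +kernel) ?_
    refine jn 265 (by decide +kernel) ?_
    refine jn 269 (by decide +kernel) ?_
    refine jn 282 (by decide +kernel) ?_
    refine jn 294 (by decide +kernel) ?_
    refine jn 301 (by decide +kernel) ?_
    refine jn 302 (by decide +kernel) ?_
    refine jn 303 (by decide +kernel) ?_
    refine jn 313 (by decide +kernel) ?_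
    refine jn 316 (by decide +kernel) ?_
    refine jn 323 (by decide +kernel) ?_
    refine jn 324 (by decide +kernel) ?_
    refine jn 335 (by decide +kernel) ?_
    refine jn 338 (by decide +kernel) ?_
    refine jn 346 (by decide +kernel) ?_
    refine jn 347 (by decide +kernel) ?_
    refine jn 359 (by decide +kernel) ?_
    refine jn 368 (by decide +kernel) ?_
    refine jn 375 (by decide +kernel) ?_
    refine jn 376 (by decide +kernel) ?_
    refine jn 378 (by decide +kernel) ?_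
    refine jn 380 (by decide +kernel) ?_
    refine jn 392 (by decide +kernel) ?_
    refine jn 403 (by decide +kernel) ?_
    refine jn 415 (by decide +kernel) ?_
    refine jn 427 (by decide +kernel) ?_
    refine jn 433 (by decide +kernel) ?_
    refine jn 434 (by decide +kernel) ?_
    refine jn 435 (by decide +kernel) ?_
    refine jn 436 (by decide +kernel) ?_
    refine jn 437 (by decide +kernel) ?_
    refine jn 439 (by decide +kernel) ?_
    refine jn 452 (by decide +kernel) ?_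
    refine jn 462 (by decide +kernel) ?_
    refine jn 471 (by decide +kernel) ?_
    refine jn 481 (by decide +kernel) ?_
    refine jn 489 (by decide +kernel) ?_
    refine jn 499 (by decide +kernel) ?_
    refine jn 504 (by decide +kernel) ?_
    refine jn 505 (by decide +kernel) ?_
    refine jn 506 (by decide +kernel) ?_
    refine jn 507 (by decide +kernel) ?_
    refine jn 508 (by decide +kernel) ?_
    refine jn 514 (by decide +kernel) ?_
    refine jn 516 (by decide +kernel) ?_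
    refine jn 522 (by decide +kernel) ?_
    refine jn 524 (by decide +kernel) ?_
    refine jn 531 (by decide +kernel) ?_
    refine jn 532 (by decide +kernel) ?_
    refine jn 534 (by decide +kernel) ?_
    refine jn 536 (by decide +kernel) ?_
    refine jn 546 (by decide +kernel) ?_
    refine jn 563 (by decide +kernel) ?_
    refine jn 578 (by decide +kernel) ?_
    refine jn 581 (by decide +kernel) ?_
    refine jn 595 (by decide +kernel) ?_
    refine jn 599 (by decide +kernel) ?_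
    refine jn 614 (by decide +kernel) ?_
    refine jn 623 (by decide +kernel) ?_
    refine jn 631 (by decide +kernel) ?_
    refine jn 639 (by decide +kernel) ?_
    refine jn 650 (by decide +kernel) ?_
    refine jn 658 (by decide +kernel) ?_
    refine jn 671 (by decide +kernel) ?_
    refine jn 675 (by decide +kernel) ?_
    refine jn 676 (by decide +kernel) ?_
    refine jn 677 (by decide +kernel) ?_
    refine jn 690 (by decide +kernel) ?_
    refine jn 707 (by decide +kernel) ?_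
    refine jn 719 (by decide +kernel) ?_
    refine jn 733 (by decide +kernel) ?_
    refine jn 741 (by decide +kernel) ?_
    refine jn 752 (by decide +kernel) ?_
    refine jn 754 (by decide +kernel) ?_
    refine jn 766 (by decide +kernel) ?_
    refine jn 767 (by decide +kernel) ?_
    refine jn 780 (by decide +kernel) ?_
    refine jn 797 (by decide +kernel) ?_
    refine jn 799 (by decide +kernel) ?_
    refine jn 816 (by decide +kernel) ?_
    refine jn 818 (by decide +kernel) ?_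
    refine jn 830 (by decide +kernel) ?_
    refine jn 849 (by decide +kernel) ?_
    refine jn 862 (by decide +kernel) ?_
    refine jn 880 (by decide +kernel) ?_
    refine jn 882 (by decide +kernel) ?_
    refine jn 900 (by decide +kernel) ?_
    refine jn 915 (by decide +kernel) ?_
    refine jn 927 (by decide +kernel) ?_
    refine jn 969 (by decide +kernel) ?_
    refine jn 1005 (by decide +kernel) ?_
    refine jn 1007 (by decide +kernel) ?_
    refine jn 1008 (by decide +kernel) ?_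
    refine jn 1009 (by decide +kernel) ?_
    refine jn 1020 (by decide +kernel) ?_
    refine jn 1025 (by decide +kernel) ?_
    refine jn 1032 (by decide +kernel) ?_
    refine jn 1033 (by decide +kernel) ?_
    refine jn 1040 (by decide +kernel) ?_
    refine jn 1041 (by decide +kernel) ?_
    refine jn 1052 (by decide +kernel) ?_
    refine jn 1061 (by decide +kernel) ?_
    refine jn 1063 (by decide +kernel) ?_
    refine jn 1066 (by decide +kernel) ?_
    refine jn 1075 (by decide +kernel) ?_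
    refine jn 1080 (by decide +kernel) ?_
    refine jn 1088 (by decide +kernel) ?_
    refine jn 1089 (by decide +kernel) ?_
    refine jn 1096 (by decide +kernel) ?_
    refine jn 1097 (by decide +kernel) ?_
    refine jn 1112 (by decide +kernel) ?_
    refine jn 1115 (by decide +kernel) ?_
    refine jn 1125 (by decide +kernel) ?_
    refine jn 1130 (by decide +kernel) ?_
    refine jn 1133 (by decide +kernel) ?_
    refine jn 1140 (by decide +kernel) ?_
    refine jn 1141 (by decide +kernel) ?_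
    refine jn 1151 (by decide +kernel) ?_
    refine jn 1158 (by decide +kernel) ?_
    refine jn 1166 (by decide +kernel) ?_
    refine jn 1168 (by decide +kernel) ?_
    refine jn 1170 (by decide +kernel) ?_
    refine jn 1180 (by decide +kernel) ?_
    refine jn 1188 (by decide +kernel) ?_
    refine jn 1192 (by decide +kernel) ?_
    refine jn 1196 (by decide +kernel) ?_
    refine jn 1206 (by decide +kernel) ?_
    refine jn 1208 (by decide +kernel) ?_
    refine jn 1213 (by decide +kernel) ?_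
    refine jn 1221 (by decide +kernel) ?_
    refine jn 1227 (by decide +kernel) ?_
    refine jn 1233 (by decide +kernel) ?_
    refine jn 1243 (by decide +kernel) ?_
    refine jn 1248 (by decide +kernel) ?_
    refine jn 1249 (by decide +kernel) ?_
    refine jn 1323 (by decide +kernel) ?_
    refine jn 1333 (by decide +kernel) ?_
    refine jn 1339 (by decide +kernel) ?_
    refine jn 1340 (by decide +kernel) ?_
    refine jn 1348 (by decide +kernel) ?_
    refine jn 1359 (by decide +kernel) ?_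
    refine jn 1363 (by decide +kernel) ?_
    refine jn 1364 (by decide +kernel) ?_
    refine jn 1379 (by decide +kernel) ?_
    refine jn 1380 (by decide +kernel) ?_
    refine jn 1387 (by decide +kernel) ?_
    refine jn 1388 (by decide +kernel) ?_
    refine jn 1403 (by decide +kernel) ?_
    refine jn 1407 (by decide +kernel) ?_
    refine jn 1414 (by decide +kernel) ?_
    refine jn 1420 (by decide +kernel) ?_
    refine jn 1427 (by decide +kernel) ?_
    refine jn 1442 (by decide +kernel) ?_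
    refine jn 1444 (by decide +kernel) ?_
    refine jn 1449 (by decide +kernel) ?_
    refine jn 1452 (by decide +kernel) ?_
    refine jn 1463 (by decide +kernel) ?_
    refine jn 1470 (by decide +kernel) ?_
    refine jn 1478 (by decide +kernel) ?_
    refine jn 1485 (by decide +kernel) ?_
    refine jn 1499 (by decide +kernel) ?_
    refine jn 1504 (by decide +kernel) ?_
    refine jn 1507 (by decide +kernel) ?_
    refine jn 1512 (by decide +kernel) ?_
    refine jn 1520 (by decide +kernel) ?_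
    refine jn 1528 (by decide +kernel) ?_
    refine jn 1646 (by decide +kernel) ?_
    refine jn 1769 (by decide +kernel) ?_
    refine jn 1987 (by decide +kernel) ?_
    refine jn 2187 (by decide +kernel) ?_
    refine jn 2313 (by decide +kernel) ?_
    refine jn 2563 (by decide +kernel) ?_
    refine jn 2810 (by decide +kernel) ?_
    refine jn 3197 (by decide +kernel) ?_
    exact je (by decide +kernel)
  · refine fin 360 809 T135_1 ?_
    refine jn 12 (by decide +kernel) ?_
    refine jn 19 (by decide +kernel) ?_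
    refine jn 27 (by decide +kernel) ?_
    refine jn 35 (by decide +kernel) ?_
    refine jn 43 (by decide +kernel) ?_
    refine jn 51 (by decide +kernel) ?_
    refine jn 60 (by decide +kernel) ?_
    refine jn 68 (by decide +kernel) ?_
    refine jn 75 (by decide +kernel) ?_
    refine jn 81 (by decide +kernel) ?_
    refine jn 98 (by decide +kernel) ?_
    refine jn 105 (by decide +kernel) ?_
    refine jn 108 (by decide +kernel) ?_
    refine jn 121 (by decide +kernel) ?_
    refine jn 134 (by decide +kernel) ?_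
    refine jn 147 (by decide +kernel) ?_
    refine jn 174 (by decide +kernel) ?_
    refine jn 202 (by decide +kernel) ?_
    refine jn 216 (by decide +kernel) ?_
    refine jn 234 (by decide +kernel) ?_
    refine jn 241 (by decide +kernel) ?_
    refine jn 242 (by decide +kernel) ?_
    refine jn 243 (by decide +kernel) ?_
    refine jn 244 (by decide +kernel) ?_
    refine jn 245 (by decide +kernel) ?_
    refine jn 246 (by decide +kernel) ?_
    refine jn 247 (by decide +kernel) ?_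
    refine jn 248 (by decide +kernel) ?_
    refine jn 249 (by decide +kernel) ?_
    refine jn 251 (by decide +kernel) ?_
    refine jn 253 (by decide +kernel) ?_
    refine jn 254 (by decide +kernel) ?_
    refine jn 271 (by decide +kernel) ?_
    refine jn 275 (by decide +kernel) ?_
    refine jn 278 (by decide +kernel) ?_
    refine jn 280 (by decide +kernel) ?_
    refine jn 282 (by decide +kernel) ?_
    refine jn 284 (by decide +kernel) ?_
    refine jn 286 (by decide +kernel) ?_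
    refine jn 290 (by decide +kernel) ?_
    refine jn 303 (by decide +kernel) ?_
    refine jn 316 (by decide +kernel) ?_
    refine jn 329 (by decide +kernel) ?_
    refine jn 342 (by decide +kernel) ?_
    refine jn 355 (by decide +kernel) ?_
    refine jn 358 (by decide +kernel) ?_
    refine jn 369 (by decide +kernel) ?_
    refine jn 376 (by decide +kernel) ?_
    refine jn 383 (by decide +kernel) ?_
    refine jn 405 (by decide +kernel) ?_
    refine jn 431 (by decide +kernel) ?_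
    refine jn 447 (by decide +kernel) ?_
    refine jn 452 (by decide +kernel) ?_
    refine jn 464 (by decide +kernel) ?_
    refine jn 475 (by decide +kernel) ?_
    refine jn 493 (by decide +kernel) ?_
    refine jn 511 (by decide +kernel) ?_
    refine jn 548 (by decide +kernel) ?_
    refine jn 567 (by decide +kernel) ?_
    refine jn 578 (by decide +kernel) ?_
    refine jn 591 (by decide +kernel) ?_
    refine jn 614 (by decide +kernel) ?_
    refine jn 623 (by decide +kernel) ?_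
    refine jn 627 (by decide +kernel) ?_
    refine jn 629 (by decide +kernel) ?_
    refine jn 631 (by decide +kernel) ?_
    refine jn 636 (by decide +kernel) ?_
    refine jn 638 (by decide +kernel) ?_
    refine jn 648 (by decide +kernel) ?_
    refine jn 657 (by decide +kernel) ?_
    refine jn 672 (by decide +kernel) ?_
    refine jn 673 (by decide +kernel) ?_
    refine jn 674 (by decide +kernel) ?_
    refine jn 675 (by decide +kernel) ?_
    refine jn 678 (by decide +kernel) ?_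
    refine jn 680 (by decide +kernel) ?_
    refine jn 681 (by decide +kernel) ?_
    refine jn 682 (by decide +kernel) ?_
    refine jn 683 (by decide +kernel) ?_
    refine jn 684 (by decide +kernel) ?_
    refine jn 685 (by decide +kernel) ?_
    refine jn 686 (by decide +kernel) ?_
    refine jn 687 (by decide +kernel) ?_
    refine jn 688 (by decide +kernel) ?_
    refine jn 689 (by decide +kernel) ?_
    refine jn 690 (by decide +kernel) ?_
    refine jn 691 (by decide +kernel) ?_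
    refine jn 703 (by decide +kernel) ?_
    refine jn 711 (by decide +kernel) ?_
    refine jn 722 (by decide +kernel) ?_
    refine jn 731 (by decide +kernel) ?_
    refine jn 732 (by decide +kernel) ?_
    refine jn 733 (by decide +kernel) ?_
    refine jn 734 (by decide +kernel) ?_
    refine jn 735 (by decide +kernel) ?_
    refine jn 736 (by decide +kernel) ?_
    refine jn 737 (by decide +kernel) ?_
    refine jn 738 (by decide +kernel) ?_
    refine jn 739 (by decide +kernel) ?_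
    refine jn 740 (by decide +kernel) ?_
    refine jn 741 (by decide +kernel) ?_
    refine jn 742 (by decide +kernel) ?_
    refine jn 743 (by decide +kernel) ?_
    refine jn 744 (by decide +kernel) ?_
    refine jn 745 (by decide +kernel) ?_
    refine jn 746 (by decide +kernel) ?_
    refine jn 751 (by decide +kernel) ?_
    refine jn 756 (by decide +kernel) ?_
    refine jn 760 (by decide +kernel) ?_
    refine jn 773 (by decide +kernel) ?_
    refine jn 777 (by decide +kernel) ?_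
    refine jn 781 (by decide +kernel) ?_
    refine jn 787 (by decide +kernel) ?_
    refine jn 796 (by decide +kernel) ?_
    refine jn 803 (by decide +kernel) ?_
    exact je (by decide +kernel)
  · refine fin 1320 397 T135_2 ?_
    refine jn 3 (by decide +kernel) ?_
    refine jn 4 (by decide +kernel) ?_
    refine jn 5 (by decide +kernel) ?_
    refine jn 6 (by decide +kernel) ?_
    refine jn 7 (by decide +kernel) ?_
    refine jn 8 (by decide +kernel) ?_
    refine jn 9 (by decide +kernel) ?_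
    refine jn 10 (by decide +kernel) ?_
    refine jn 11 (by decide +kernel) ?_
    refine jn 12 (by decide +kernel) ?_
    refine jn 13 (by decide +kernel) ?_
    refine jn 14 (by decide +kernel) ?_
    refine jn 15 (by decide +kernel) ?_
    refine jn 64 (by decide +kernel) ?_
    refine jn 69 (by decide +kernel) ?_
    refine jn 71 (by decide +kernel) ?_
    refine jn 74 (by decide +kernel) ?_
    refine jn 77 (by decide +kernel) ?_
    refine jn 80 (by decide +kernel) ?_
    refine jn 83 (by decide +kernel) ?_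
    refine jn 86 (by decide +kernel) ?_
    refine jn 89 (by decide +kernel) ?_
    refine jn 90 (by decide +kernel) ?_
    refine jn 94 (by decide +kernel) ?_
    refine jn 107 (by decide +kernel) ?_
    refine jn 116 (by decide +kernel) ?_
    refine jn 126 (by decide +kernel) ?_
    refine jn 132 (by decide +kernel) ?_
    refine jn 138 (by decide +kernel) ?_
    refine jn 139 (by decide +kernel) ?_
    refine jn 140 (by decide +kernel) ?_
    refine jn 141 (by decide +kernel) ?_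
    refine jn 142 (by decide +kernel) ?_
    refine jn 143 (by decide +kernel) ?_
    refine jn 144 (by decide +kernel) ?_
    refine jn 145 (by decide +kernel) ?_
    refine jn 146 (by decide +kernel) ?_
    refine jn 150 (by decide +kernel) ?_
    refine jn 156 (by decide +kernel) ?_
    refine jn 162 (by decide +kernel) ?_
    refine jn 168 (by decide +kernel) ?_
    refine jn 177 (by decide +kernel) ?_
    refine jn 201 (by decide +kernel) ?_
    refine jn 208 (by decide +kernel) ?_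
    refine jn 209 (by decide +kernel) ?_
    refine jn 210 (by decide +kernel) ?_
    refine jn 211 (by decide +kernel) ?_
    refine jn 212 (by decide +kernel) ?_
    refine jn 213 (by decide +kernel) ?_
    refine jn 214 (by decide +kernel) ?_
    refine jn 215 (by decide +kernel) ?_
    refine jn 216 (by decide +kernel) ?_
    refine jn 217 (by decide +kernel) ?_
    refine jn 218 (by decide +kernel) ?_
    refine jn 219 (by decide +kernel) ?_
    refine jn 220 (by decide +kernel) ?_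
    refine jn 221 (by decide +kernel) ?_
    refine jn 222 (by decide +kernel) ?_
    refine jn 223 (by decide +kernel) ?_
    refine jn 224 (by decide +kernel) ?_
    refine jn 226 (by decide +kernel) ?_
    refine jn 233 (by decide +kernel) ?_
    refine jn 239 (by decide +kernel) ?_
    refine jn 249 (by decide +kernel) ?_
    refine jn 261 (by decide +kernel) ?_
    refine jn 273 (by decide +kernel) ?_
    refine jn 280 (by decide +kernel) ?_
    refine jn 285 (by decide +kernel) ?_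
    refine jn 301 (by decide +kernel) ?_
    refine jn 306 (by decide +kernel) ?_
    refine jn 323 (by decide +kernel) ?_
    refine jn 324 (by decide +kernel) ?_
    refine jn 325 (by decide +kernel) ?_
    refine jn 327 (by decide +kernel) ?_
    refine jn 328 (by decide +kernel) ?_
    refine jn 330 (by decide +kernel) ?_
    refine jn 331 (by decide +kernel) ?_
    refine jn 332 (by decide +kernel) ?_
    refine jn 334 (by decide +kernel) ?_
    refine jn 336 (by decide +kernel) ?_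
    refine jn 338 (by decide +kernel) ?_
    refine jn 340 (by decide +kernel) ?_
    refine jn 342 (by decide +kernel) ?_
    refine jn 346 (by decide +kernel) ?_
    refine jn 356 (by decide +kernel) ?_
    refine jn 363 (by decide +kernel) ?_
    refine jn 364 (by decide +kernel) ?_
    refine jn 365 (by decide +kernel) ?_
    refine jn 366 (by decide +kernel) ?_
    refine jn 367 (by decide +kernel) ?_
    refine jn 368 (by decide +kernel) ?_
    refine jn 369 (by decide +kernel) ?_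
    refine jn 370 (by decide +kernel) ?_
    refine jn 373 (by decide +kernel) ?_
    refine jn 374 (by decide +kernel) ?_
    refine jn 375 (by decide +kernel) ?_
    refine jn 376 (by decide +kernel) ?_
    refine jn 377 (by decide +kernel) ?_
    refine jn 378 (by decide +kernel) ?_
    refine jn 379 (by decide +kernel) ?_
    refine jn 380 (by decide +kernel) ?_
    refine jn 382 (by decide +kernel) ?_
    refine jn 383 (by decide +kernel) ?_
    refine jn 385 (by decide +kernel) ?_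
    refine jn 389 (by decide +kernel) ?_
    refine jn 392 (by decide +kernel) ?_
    refine jn 393 (by decide +kernel) ?_
    refine jn 394 (by decide +kernel) ?_
    exact je (by decide +kernel)

end Pool.Agent.MP_2339ce_nt.NR
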