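import Pool.Agent.MP_2339ce_nt.Q2.NC.L5
import Pool.Agent.MP_2339ce_nt.Q2.NC.L6
import Pool.Agent.MP_2339ce_nt.Q2.NC.L9
import Pool.Agent.MP_2339ce_nt.Q2.CkI

/-! Block NR: runs. -/

set_option autoImplicit false
set_option maxRecDepth 100000

noncomputable section

namespace Pool.Agent.MP_2339ce_nt.NR

open Q2.Top

def T138_0 : Ph :=
  (.na 469 7 (.na 335 3 (.na 205 2 (.nx 204 1321124 (.nr 203 311745 (.nx 176 660563 (.nx 153 330282
  (.nx 61 8848 (.nx 2 81 (.nr 1 10 (.lg 0 true 1 37 37 5 0 360) (.l1 .sk)) (.nx 3 82 (.l1 .sk) (.nr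
  47 46342 (.lg 0 false 44 89 97 16 0 7920) (.nx 60 205 (.lg 0 false 13 83 83 9 0 4680) .out))))
  (.nr 152 38969 (.nr 105 432 (.lg 0 true 44 83 83 16 0 7920) (.nx 116 16385 (.lg 1 false 11 103
  103 9 14480 720720) (.nr 151 27556 (.nr 139 19485 (.nr 127 1724 (.lg 2 true 11 89 89 9 30964
  27720) (.nx 138 165142 (.lg 2 false 11 97 97 9 3918 27720) .out)) (.nx 150 65537 (.lg 2 false 11
  89 97 9 5534 27720) .out)) .out))) .out)) (.nr 175 109 (.lg 0 true 22 83 83 11 0 7920) .out))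
  (.nr 202 13 (.lg 0 true 26 73 73 9 0 1872) .out)) .out) .out) (.nx 334 3329023 (.nr 333 623489
  (.nx 207 81 (.nr 206 17 (.lg 0 true 1 31 31 5 0 144) (.l1 .sk)) (.nx 208 82 (.l1 .sk) (.nx 316
  1321124 (.nr 301 77937 (.nx 227 6501 (.nr 219 55110 (.lg 0 false 11 97 97 9 0 7920) (.nx 226 1292
  (.lg 0 false 7 83 83 9 0 5040) .out)) (.nr 300 65537 (.nr 262 257 (.lg 0 true 35 79 83 13 0 5040)
  (.nx 299 165142 (.nx 273 14045 (.lg 1 false 11 101 103 9 33115 720720) (.nr 280 1100 (.lg 2 true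
  7 79 79 9 26025 1008) (.nx 287 20644 (.lg 1 false 7 97 97 9 15327 5040) (.nr 298 46342 (.lg 2
  false 11 101 103 9 7378 720720) .out)))) .out)) .out)) (.nx 315 205 (.lg 0 false 14 79 79 9 0
  1008) .out)) (.nr 332 9 (.lg 0 true 16 67 67 9 0 144) .out)))) .out) .out)) (.na 336 5 .ne (.na
  427 6 (.nx 426 10568985 (.nr 425 1482912 (.nx 338 81 (.nr 337 38 (.lg 0 false 1 23 23 9 0 360)
  (.l1 .sk)) (.nx 339 82 (.l1 .sk) (.nr 413 65537 (.nx 372 262145 (.nx 350 15464 (.lg 0 false 11 83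
  89 16 0 3960) (.nr 361 824 (.lg 0 true 11 79 79 16 0 3960) (.lg 2 false 11 89 101 16 13921
  360360))) (.nr 412 217 (.nx 383 1321124 (.lg 0 true 11 79 79 16 0 3960) (.nr 411 24 (.lg 0 true
  28 79 79 16 0 5040) .out)) .out)) (.nx 424 205 (.lg 0 false 11 73 79 16 0 3960) .out)))) .out)
  .out) (.nx 468 1321124 (.nr 467 220437 (.nx 430 82 (.nx 429 81 (.nr 428 44 (.lg 0 true 1 23 23 7
  0 720) (.l1 .sk)) (.l1 .sk)) (.nx 441 5160 (.lg 0 false 11 89 89 13 0 7920) (.nr 466 55110 (.nr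
  454 501 (.lg 0 true 13 79 79 13 0 1872) (.nx 465 416129 (.lg 2 false 11 97 101 13 35092 55440)
  .out)) .out))) .out) .out)))) (.na 588 12 (.na 470 9 .ne (.na 543 10 (.nx 542 10568985 (.nr 541
  623489 (.nr 471 1 .s1 (.nx 474 82 (.nx 473 81 (.nr 472 64 (.lg 0 true 1 23 23 13 0 360) (.l1
  .sk)) (.l1 .sk)) (.nr 504 364 (.nr 496 65 (.lg 0 true 22 79 79 16 0 1584) (.nx 503 1321124 (.lg 0
  true 7 79 79 16 0 504) .out)) (.nx 540 165142 (.nr 506 709 (.nx 505 3281 (.lg 0 false 1 59 59 13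
  0 360) (.lg 2 false 1 67 67 13 18375 72)) (.nx 515 6503 (.nr 510 77937 (.lg 0 false 4 83 89 16 0
  720) (.nx 514 814 (.lg 0 false 4 83 83 16 0 720) .out)) (.nr 539 65537 (.nr 519 19988 (.lg 2 true
  4 73 73 16 10125 720) (.nr 526 38969 (.lg 0 true 7 97 103 16 0 65520) (.nx 538 82572 (.nr 533
  55110 (.lg 0 true 7 97 103 16 0 65520) (.nx 537 26009 (.lg 0 true 4 79 89 16 0 720) .out))
  .out))) .out))) .out)))) .out) .out) (.nx 587 1321124 (.nr 586 623489 (.nr 544 5 .s1 (.nx 546 81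
  (.nr 545 77 (.lg 0 false 1 23 23 11 0 720) (.l1 .sk)) (.nx 547 82 (.l1 .sk) (.nr 578 77937 (.nx
  570 330282 (.nx 554 20644 (.lg 0 false 7 89 89 13 0 5040) (.nr 569 55110 (.nr 561 766 (.lg 0 true
  7 79 79 13 0 5040) (.nx 568 165142 (.lg 2 false 7 79 83 13 8771 5040) .out)) .out)) (.nr 577 65
  (.lg 0 true 7 67 67 13 0 5040) .out)) (.nx 585 814 (.lg 0 false 7 79 83 13 0 5040) .out)))))
  .out) .out))) (.na 589 13 .ne (.na 622 15 (.nx 621 1321124 (.nr 620 623489 (.nr 590 10 .s1 (.nx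
  614 330282 (.nx 592 81 (.nr 591 96 (.lg 0 false 1 19 19 9 0 4680) (.l1 .sk)) (.nx 593 82 (.l1
  .sk) (.nr 608 92683 (.nx 597 9557 (.lg 0 false 4 89 89 16 0 9360) (.nr 607 65537 (.nr 602 374
  (.lg 0 true 5 71 71 16 0 4680) (.nx 606 165142 (.lg 2 false 4 97 101 16 22525 65520) .out))
  .out)) (.nx 613 814 (.lg 0 false 5 79 79 16 0 4680) .out)))) (.nr 619 65 (.lg 0 true 5 67 67 16 0
  4680) .out))) .out) .out) (.nx 658 1321124 (.nr 657 623489 (.nr 623 13 .s1 (.nx 626 82 (.nx 625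
  81 (.nr 624 102 (.l1 (.ls 19 29 440)) (.l1 .sk)) (.l1 .sk)) (.nx 632 3281 (.nx 627 324 (.l1 (.ls
  83 43 6553)) (.nr 631 220437 (.lg 0 false 4 79 79 16 0 720) .out)) (.nr 656 92683 (.nr 654 65537
  (.nr 641 374 (.nx 636 330282 (.lg 0 true 4 71 71 16 0 720) (.nr 640 65 (.lg 0 true 4 61 61 16 0
  720) .out)) (.nx 653 165142 (.nr 648 32769 (.lg 2 true 7 73 73 17 32850 2520) (.nx 652 65537 (.lg
  0 true 4 101 103 16 0 720720) .out)) .out)) (.nx 655 6503 (.lg 0 true 1 79 79 16 0 360) .out))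
  .out)))) .out) .out)))))

def T138_1 : Ph :=
  (.na 589 174 (.na 335 91 (.na 171 58 (.na 92 29 (.na 49 22 (.na 1 18 .ne (.nx 48 2097153 (.nr 47
  1048577 (.nr 2 12 .s1 (.nx 6 324 (.nx 4 197 (.nr 3 219 (.lg 0 true 1 23 23 13 0 144) (.l1 .sk))
  (.nx 5 198 (.l1 .sk) (.l1 (.ls 79 43 3657)))) (.nr 46 623489 (.nr 34 185365 (.nx 28 416129 (.nx
  11 41286 (.lg 0 false 5 97 97 19 0 720) (.nr 27 155873 (.nr 16 2200 (.lg 0 true 5 79 79 19 0 720)
  (.nx 21 82572 (.lg 1 false 5 89 89 19 73355 720) (.nr 26 131073 (.lg 2 false 5 89 97 19 30849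
  5040) .out))) .out)) (.nr 33 257 (.lg 0 true 5 71 71 19 0 720) .out)) (.nx 45 10323 (.nr 39
  262145 (.lg 0 false 5 79 83 19 0 720) (.nx 44 2049 (.lg 0 false 5 79 79 19 0 720) .out)) .out))
  .out))) .out) .out)) (.na 91 23 (.nx 90 2097153 (.nr 89 1048577 (.nr 50 17 .s1 (.nx 54 324 (.nx
  52 197 (.nr 51 229 (.lg 0 true 1 23 23 9 0 1584) (.l1 .sk)) (.nx 53 198 (.l1 .sk) (.l1 (.ls 79 43
  2992)))) (.nr 88 623489 (.nx 82 416129 (.nx 65 41286 (.nr 59 262145 (.lg 0 false 5 97 101 19 0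
  7920) (.nx 64 2049 (.lg 0 false 5 79 79 19 0 7920) .out)) (.nr 81 155873 (.nr 70 2200 (.lg 0 true
  5 79 79 19 0 7920) (.nx 75 82572 (.lg 1 false 5 89 89 19 73355 7920) (.nr 80 131073 (.lg 2 false
  5 89 97 19 30849 7920) .out))) .out)) (.nr 87 257 (.lg 0 true 5 71 71 19 0 7920) .out)) .out)))
  .out) .out) .ne)) (.na 126 41 (.na 125 32 (.nx 124 2097153 (.nr 123 1048577 (.nr 93 26 .s1 (.nx
  96 198 (.nx 95 197 (.nr 94 318 (.lg 0 true 1 19 19 13 0 360) (.l1 .sk)) (.l1 .sk)) (.nx 110 52017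
  (.nx 97 324 (.l1 (.ls 79 31 2271)) (.nr 109 524289 (.nr 104 185365 (.lg 0 false 7 89 97 16 0
  2520) (.nx 108 13005 (.lg 0 false 4 89 89 16 0 720) .out)) .out)) (.nr 122 92683 (.nr 117 923
  (.lg 0 true 7 79 79 16 0 2520) (.nx 121 330282 (.lg 2 false 4 89 89 16 35247 720) .out)) .out))))
  .out) .out) .ne) (.na 149 46 (.nx 148 2097153 (.nr 147 881745 (.nr 127 39 .s1 (.nx 128 324 (.l1
  (.ls 73 31 2563)) (.nr 146 623489 (.nx 135 26009 (.lg 0 false 7 83 89 16 0 2520) (.nr 145 77937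
  (.nr 140 457 (.lg 0 true 5 67 67 16 0 360) (.nx 144 208065 (.lg 2 false 4 83 89 16 58295 720)
  .out)) .out)) .out))) .out) .out) (.na 150 54 .ne (.nx 170 2097153 (.nr 169 881745 (.nr 151 53
  .s1 (.nx 152 324 (.l1 (.ls 71 43 1946)) (.nr 168 741457 (.nx 159 26009 (.lg 0 false 7 83 89 29 0
  5040) (.nr 167 65537 (.nr 164 577 (.lg 0 true 5 67 67 23 0 720) (.nx 166 208065 (.lg 2 false 2 79
  79 19 49044 144) .out)) .out)) .out))) .out) .out))))) (.na 250 67 (.na 210 62 (.na 190 61 (.nx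
  189 2097153 (.nr 188 881745 (.nr 172 57 .s1 (.nx 179 26009 (.nx 173 324 (.l1 (.ls 71 41 1812))
  (.nr 178 741457 (.lg 0 false 5 83 89 19 0 720) .out)) (.nr 187 65537 (.nr 184 607 (.lg 0 true 5
  67 67 19 0 720) (.nx 186 208065 (.lg 2 false 2 79 79 13 49044 144) .out)) .out))) .out) .out)
  (.nx 209 2097153 (.nr 208 881745 (.nr 191 60 .s1 (.nx 192 324 (.l1 (.ls 73 29 1723)) (.nr 207
  741457 (.nx 199 26009 (.lg 0 false 7 89 97 17 0 27720) (.nr 206 65537 (.nr 203 616 (.lg 0 true 4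
  71 71 16 0 144) (.nx 205 208065 (.lg 2 false 2 83 83 16 49044 144) .out)) .out)) .out))) .out)
  .out)) (.na 229 64 (.nx 228 2097153 (.nr 227 881745 (.nr 211 61 .s1 (.nx 218 32769 (.nx 212 324
  (.l1 (.ls 71 41 1696)) (.nr 217 741457 (.lg 0 false 5 89 89 19 0 720) .out)) (.nr 226 46342 (.nr
  223 636 (.lg 0 true 5 67 67 19 0 720) (.nx 225 208065 (.lg 2 false 2 73 73 17 32224 144) .out))
  .out))) .out) .out) (.na 230 66 .ne (.nx 249 2097153 (.nr 248 2097153 (.nr 231 65 .s1 (.nx 234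
  198 (.nx 233 197 (.nr 232 666 (.l1 (.ls 31 41 591)) (.l1 .sk)) (.l1 .sk)) (.nx 235 324 (.l1 (.ls
  83 41 999)) (.nr 247 1048577 (.nx 240 20644 (.lg 0 false 5 89 101 37 0 55440) (.nr 246 65537 (.nr
  242 513 (.lg 0 true 2 73 73 29 0 1584) (.nx 245 131073 (.nr 243 32769 (.lg 2 true 1 83 83 29
  30988 1584) (.nx 244 32769 (.lg 0 false 1 79 79 29 0 7920) .out)) .out)) .out)) .out)))) .out)
  .out)))) (.na 284 74 (.na 268 71 (.nx 267 2097153 (.nr 266 2097153 (.nr 251 66 .s1 (.nx 258 20644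
  (.nx 252 324 (.l1 (.ls 73 29 1569)) (.nr 257 1048577 (.lg 0 false 5 83 83 16 0 360) .out)) (.nr
  265 65537 (.nr 262 513 (.lg 0 true 4 61 61 16 0 144) (.nx 264 131073 (.lg 2 false 2 83 83 16
  61789 144) .out)) .out))) .out) .out) (.nx 283 2097153 (.nr 282 2097153 (.nr 269 70 .s1 (.nx 275
  20644 (.nx 270 324 (.l1 (.ls 73 29 1481)) (.nr 274 1048577 (.lg 0 false 4 89 89 16 0 144) .out))
  (.nr 281 65537 (.nr 278 513 (.lg 0 true 3 61 61 16 0 72) (.nx 280 131073 (.lg 2 false 2 83 83 16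
  61789 144) .out)) .out))) .out) .out)) (.na 301 82 (.nx 300 2097153 (.nr 299 2097153 (.nr 285 73
  .s1 (.nx 286 324 (.l1 (.ls 79 31 1421)) (.nr 298 1048577 (.nx 291 20644 (.lg 0 false 5 89 89 23 0
  720) (.nr 297 65537 (.nr 294 513 (.lg 0 true 3 67 67 19 0 144) (.nx 296 131073 (.lg 2 true 2 83
  83 19 61789 144) .out)) .out)) .out))) .out) .out) (.na 318 87 (.nx 317 2097153 (.nr 316 2097153
  (.nr 302 81 .s1 (.nx 309 20644 (.nx 303 324 (.l1 (.ls 73 37 1283)) (.nr 308 1048577 (.lg 0 false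
  5 83 83 23 0 720) .out)) (.nr 315 65537 (.nr 312 513 (.lg 0 true 3 61 61 19 0 144) (.nx 314
  131073 (.lg 2 true 2 79 79 19 61789 144) .out)) .out))) .out) .out) (.nx 334 2097153 (.nr 333
  2097153 (.nr 319 86 .s1 (.nx 320 324 (.l1 (.ls 79 37 1209)) (.nr 332 1048577 (.nx 325 20644 (.lg
  0 false 5 79 89 23 0 360) (.nr 331 65537 (.nr 327 513 (.lg 0 true 2 71 71 19 0 144) (.nx 330
  131073 (.nr 328 32769 (.lg 2 false 1 73 73 17 30988 72) (.nx 329 32769 (.lg 0 false 1 71 71 17 0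
  72) .out)) .out)) .out)) .out))) .out) .out)))))) (.na 455 134 (.na 398 109 (.na 353 99 (.na 336
  93 .ne (.nx 352 2097153 (.nr 351 2097153 (.nr 337 92 .s1 (.nx 338 324 (.l1 (.ls 79 29 1131)) (.nr
  350 1048577 (.nx 343 20644 (.lg 0 false 5 83 89 23 0 3960) (.nr 349 65537 (.nr 347 32769 (.nr 345
  513 (.lg 0 true 2 67 67 19 0 144) (.nx 346 131073 (.lg 2 false 1 73 73 17 30988 72) .out)) (.nx
  348 32769 (.lg 0 false 1 71 71 17 0 72) .out)) .out)) .out))) .out) .out)) (.na 369 103 (.nx 368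
  2097153 (.nr 367 2097153 (.nr 354 99 .s1 (.nx 355 324 (.l1 (.ls 79 37 1063)) (.nr 366 1048577
  (.nx 359 20644 (.lg 0 false 4 83 83 29 0 7920) (.nr 365 65537 (.nx 362 131073 (.nr 360 32769 (.lg
  0 false 1 79 79 19 0 3960) (.nx 361 32769 (.lg 0 false 1 71 71 19 0 792) .out)) (.nr 364 513 (.lg
  0 true 2 71 71 23 0 1584) .out)) .out)) .out))) .out) .out) (.na 384 106 (.nx 383 2097153 (.nr
  382 2097153 (.nr 370 103 .s1 (.nx 377 32769 (.nx 371 324 (.l1 (.ls 67 23 1022)) (.nr 376 1048577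
  (.lg 0 false 5 73 79 17 0 360) .out)) (.nr 381 32769 (.nr 379 513 (.lg 0 true 2 59 59 16 0 144)
  (.nx 380 131073 (.lg 2 true 1 61 61 16 25168 72) .out)) .out))) .out) .out) (.nx 397 2097153 (.nr
  396 2097153 (.nr 385 106 .s1 (.nx 390 20644 (.nx 386 324 (.l1 (.ls 73 31 993)) (.nr 389 1048577
  (.lg 0 false 3 83 83 23 0 144) .out)) (.nr 395 65537 (.nr 392 513 (.lg 0 true 2 61 61 19 0 144)
  (.nx 394 131073 (.lg 2 false 2 79 79 19 61789 144) .out)) .out))) .out) .out)))) (.na 425 122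
  (.na 412 121 (.nx 411 2097153 (.nr 410 2097153 (.nr 399 109 .s1 (.nx 405 32769 (.nx 400 324 (.l1
  (.ls 71 23 966)) (.nr 404 1048577 (.lg 0 false 4 83 83 17 0 720) .out)) (.nr 409 32769 (.nr 407
  513 (.lg 0 true 2 61 61 16 0 144) (.nx 408 131073 (.lg 2 true 1 67 67 16 25168 72) .out)) .out)))
  .out) .out) (.nx 424 2097153 (.nr 423 2097153 (.nr 413 121 .s1 (.nx 419 32769 (.nx 414 324 (.l1
  (.ls 71 29 870)) (.nr 418 1048577 (.lg 0 false 4 83 83 19 0 7920) .out)) (.nr 422 32769 (.nr 420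
  513 (.lg 0 false 1 67 67 17 0 3960) (.nx 421 131073 (.lg 2 true 1 67 67 17 25168 3960) .out))
  .out))) .out) .out)) (.na 440 128 (.nx 439 2097153 (.nr 438 2097153 (.nr 426 122 .s1 (.nx 427 324
  (.l1 (.ls 73 31 863)) (.nr 437 1048577 (.nx 432 32769 (.lg 0 false 5 83 83 23 0 720) (.nr 436
  32769 (.nr 434 513 (.lg 0 true 2 61 61 19 0 144) (.nx 435 131073 (.lg 2 true 1 71 71 19 25168
  144) .out)) .out)) .out))) .out) .out) (.na 441 131 .ne (.nx 454 1048577 (.nr 453 1482912 (.nr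
  442 131 .s1 (.nx 444 197 (.nr 443 1332 (.l1 (.ls 17 19 299)) (.l1 .sk)) (.nx 445 198 (.l1 .sk)
  (.nx 449 32769 (.lg 0 false 4 79 83 17 0 720) (.nr 452 16385 (.nr 450 1025 (.lg 0 false 1 61 61
  16 0 72) (.nx 451 131073 (.lg 2 true 1 53 53 16 12596 72) .out)) .out))))) .out) .out))))) (.na
  528 158 (.na 484 142 (.na 469 137 (.nx 468 1048577 (.nr 467 1482912 (.nr 456 134 .s1 (.nx 459 198
  (.nx 458 197 (.nr 457 1362 (.l1 (.ls 19 29 292)) (.l1 .sk)) (.l1 .sk)) (.nx 465 131073 (.nr 461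
  65537 (.lg 0 true 2 79 79 23 0 144) (.nx 464 16385 (.lg 0 false 3 83 83 23 0 144) .out)) (.nr 466
  1025 (.lg 0 false 1 71 71 19 0 720) .out)))) .out) .out) (.nx 483 1048577 (.nr 482 1482912 (.nr
  470 137 .s1 (.nx 472 197 (.nr 471 1412 (.l1 (.ls 16 17 286)) (.l1 .sk)) (.nx 473 198 (.l1 .sk)
  (.nx 478 32769 (.lg 0 false 5 73 79 17 0 360) (.nr 481 16385 (.nr 479 1025 (.lg 0 false 1 61 61
  16 0 792) (.nx 480 131073 (.lg 2 true 1 53 53 16 12596 72) .out)) .out))))) .out) .out)) (.na 499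
  151 (.nx 498 1048577 (.nr 497 1482912 (.nr 485 142 .s1 (.nx 493 32769 (.nx 487 197 (.nr 486 1501
  (.l1 (.ls 17 29 276)) (.l1 .sk)) (.nx 488 198 (.l1 .sk) (.lg 0 false 5 83 83 29 0 720))) (.nr 496
  16385 (.nr 494 1025 (.lg 0 false 1 61 61 19 0 144) (.nx 495 131073 (.lg 2 true 1 53 53 19 12596
  144) .out)) .out))) .out) .out) (.na 513 157 (.nx 512 1048577 (.nr 511 1482912 (.nr 500 151 .s1
  (.nx 507 32769 (.nx 502 197 (.nr 501 1561 (.l1 (.ls 17 17 260)) (.l1 .sk)) (.nx 503 198 (.l1 .sk)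
  (.lg 0 false 4 83 83 17 0 720))) (.nr 510 16385 (.nr 508 1025 (.lg 0 false 1 61 61 16 0 360) (.nx
  509 131073 (.lg 2 false 1 47 47 16 12596 72) .out)) .out))) .out) .out) (.nx 527 1048577 (.nr 526
  1482912 (.nr 514 157 .s1 (.nx 517 198 (.nx 516 197 (.nr 515 1571 (.l1 (.ls 16 17 250)) (.l1 .sk))
  (.l1 .sk)) (.nx 522 32769 (.lg 0 false 5 73 79 19 0 360) (.nr 525 16385 (.nr 523 1025 (.lg 0
  false 1 59 59 16 0 72) (.nx 524 131073 (.lg 2 false 1 47 47 16 12596 72) .out)) .out)))) .out)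
  .out)))) (.na 558 163 (.na 543 162 (.nx 542 1048577 (.nr 541 1482912 (.nr 529 158 .s1 (.nx 531
  197 (.nr 530 1610 (.l1 (.ls 17 29 248)) (.l1 .sk)) (.nx 532 198 (.l1 .sk) (.nx 537 32769 (.lg 0
  false 5 73 83 29 0 720) (.nr 540 16385 (.nr 538 1025 (.lg 0 false 1 61 61 19 0 144) (.nx 539
  131073 (.lg 2 true 1 53 53 19 12596 144) .out)) .out))))) .out) .out) (.nx 557 1048577 (.nr 556
  1482912 (.nr 544 162 .s1 (.nx 552 32769 (.nx 546 197 (.nr 545 1620 (.l1 (.ls 17 31 242)) (.l1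
  .sk)) (.nx 547 198 (.l1 .sk) (.lg 0 false 5 73 79 31 0 720))) (.nr 555 16385 (.nr 553 1025 (.lg 0
  false 1 61 61 23 0 144) (.nx 554 131073 (.lg 2 true 1 53 53 23 12596 144) .out)) .out))) .out)
  .out)) (.na 559 167 (.lg 0 false 1 0 0 16 0 24) (.na 574 173 (.nx 573 1048577 (.nr 572 1482912
  (.nr 560 167 .s1 (.nx 563 198 (.nx 562 197 (.nr 561 1720 (.l1 (.ls 16 17 235)) (.l1 .sk)) (.l1
  .sk)) (.nx 568 32769 (.lg 0 false 5 73 73 19 0 360) (.nr 571 16385 (.nr 569 1025 (.lg 0 false 1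
  59 59 16 0 72) (.nx 570 131073 (.lg 2 false 1 47 47 16 12596 72) .out)) .out)))) .out) .out) (.nx
  588 1048577 (.nr 587 1482912 (.nr 575 173 .s1 (.nx 578 198 (.nx 577 197 (.nr 576 1730 (.l1 (.ls
  16 17 227)) (.l1 .sk)) (.l1 .sk)) (.nx 583 32769 (.lg 0 false 5 73 73 19 0 360) (.nr 586 16385
  (.nr 584 1025 (.lg 0 false 1 59 59 16 0 72) (.nx 585 131073 (.lg 2 true 1 47 47 16 12596 72)
  .out)) .out)))) .out) .out))))))) (.na 805 256 (.na 699 206 (.na 639 194 (.na 615 182 (.na 601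
  179 (.nx 600 1048577 (.nr 599 1482912 (.nr 590 174 .s1 (.nx 597 131073 (.nx 592 197 (.nr 591 1779
  (.l1 (.ls 23 37 226)) (.l1 .sk)) (.nx 593 198 (.l1 .sk) (.nr 594 65537 (.lg 0 false 1 89 89 23 0
  720) (.nx 596 16385 (.lg 0 false 2 89 89 37 0 720) .out)))) (.nr 598 1025 (.lg 0 true 1 67 67 23
  0 144) .out))) .out) .out) (.nx 614 1048577 (.nr 613 1482912 (.nr 602 179 .s1 (.nx 604 197 (.nr
  603 1809 (.l1 (.ls 17 17 219)) (.l1 .sk)) (.nx 605 198 (.l1 .sk) (.nx 609 32769 (.lg 0 false 4 79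
  79 19 0 720) (.nr 612 16385 (.nr 610 1025 (.lg 0 false 1 59 59 16 0 72) (.nx 611 131073 (.lg 2
  false 1 47 47 16 12596 72) .out)) .out))))) .out) .out)) (.na 616 183 .ne (.na 627 186 (.nx 626
  1048577 (.nr 625 1048577 (.nr 617 183 .s1 (.nx 623 131073 (.nx 619 197 (.nr 618 1849 (.l1 (.ls 17
  23 215)) (.l1 .sk)) (.nx 620 198 (.l1 .sk) (.nr 621 65537 (.lg 0 true 1 79 79 19 0 72) (.nx 622
  16385 (.lg 0 false 1 79 79 19 0 72) .out)))) (.nr 624 1025 (.lg 0 true 1 59 59 19 0 72) .out)))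
  .out) .out) (.nx 638 1048577 (.nr 637 1048577 (.nr 628 186 .s1 (.nx 631 198 (.nx 630 197 (.nr 629
  1928 (.l1 (.ls 29 29 211)) (.l1 .sk)) (.l1 .sk)) (.nx 635 131073 (.nr 632 65537 (.lg 0 true 1 83
  83 29 0 144) (.nx 634 16385 (.lg 0 false 2 83 89 29 0 720) .out)) (.nr 636 1025 (.lg 0 true 1 67
  67 29 0 144) .out)))) .out) .out)))) (.na 663 199 (.na 652 198 (.nx 651 1048577 (.nr 650 1048577
  (.nr 640 194 .s1 (.nx 642 197 (.nr 641 1968 (.l1 (.ls 17 23 203)) (.l1 .sk)) (.nx 643 198 (.l1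
  .sk) (.nx 646 32769 (.lg 0 false 3 79 79 29 0 720) (.nr 649 16385 (.nr 647 1025 (.lg 0 false 1 61
  61 19 0 720) (.nx 648 131073 (.lg 2 true 1 47 47 19 12596 144) .out)) .out))))) .out) .out) (.nx
  662 1048577 (.nr 661 1048577 (.nr 653 198 .s1 (.nx 659 131073 (.nx 655 197 (.nr 654 1978 (.l1
  (.ls 23 37 199)) (.l1 .sk)) (.nx 656 198 (.l1 .sk) (.nr 657 65537 (.lg 0 true 1 79 79 31 0 1584)
  (.nx 658 16385 (.lg 0 false 1 79 79 31 0 1584) .out)))) (.nr 660 1025 (.lg 0 true 1 61 61 31 0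
  1584) .out))) .out) .out)) (.na 676 201 (.nx 675 1048577 (.nr 674 1048577 (.nr 664 199 .s1 (.nx
  666 197 (.nr 665 1998 (.l1 (.ls 17 17 198)) (.l1 .sk)) (.nx 667 198 (.l1 .sk) (.nx 670 32769 (.lg
  0 false 3 73 73 17 0 360) (.nr 673 16385 (.nr 671 1025 (.lg 0 false 1 59 59 16 0 360) (.nx 672
  131073 (.lg 2 true 1 47 47 16 12596 72) .out)) .out))))) .out) .out) (.na 687 202 (.nx 686
  1048577 (.nr 685 1048577 (.nr 677 201 .s1 (.nx 679 197 (.nr 678 2008 (.l1 (.ls 19 19 196)) (.l1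
  .sk)) (.nx 680 198 (.l1 .sk) (.nx 683 131073 (.nr 681 65537 (.lg 0 true 1 79 79 19 0 360) (.nx
  682 16385 (.lg 0 false 1 79 79 19 0 72) .out)) (.nr 684 1025 (.lg 0 true 1 59 59 19 0 72)
  .out))))) .out) .out) (.nx 698 1048577 (.nr 697 1048577 (.nr 688 202 .s1 (.nx 690 197 (.nr 689
  2048 (.l1 (.ls 16 23 195)) (.l1 .sk)) (.nx 691 198 (.l1 .sk) (.nx 693 32769 (.lg 0 false 2 73 73
  23 0 144) (.nr 696 16385 (.nr 694 1025 (.lg 0 false 1 59 59 23 0 144) (.nx 695 131073 (.lg 2 true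
  1 47 47 23 12596 144) .out)) .out))))) .out) .out))))) (.na 756 233 (.na 725 218 (.na 712 211
  (.nx 711 1048577 (.nr 710 1048577 (.nr 700 206 .s1 (.nx 703 198 (.nx 702 197 (.nr 701 2097 (.l1
  (.ls 19 23 191)) (.l1 .sk)) (.l1 .sk)) (.nx 706 32769 (.lg 0 false 3 79 79 29 0 720) (.nr 709
  16385 (.nr 707 1025 (.lg 0 false 1 61 61 23 0 720) (.nx 708 131073 (.lg 2 false 1 47 47 23 12596
  144) .out)) .out)))) .out) .out) (.nx 724 1048577 (.nr 723 1048577 (.nr 713 211 .s1 (.nx 715 197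
  (.nr 714 2167 (.l1 (.ls 17 17 186)) (.l1 .sk)) (.nx 716 198 (.l1 .sk) (.nx 719 32769 (.lg 0 false
  3 73 73 17 0 360) (.nr 722 16385 (.nr 720 1025 (.lg 0 false 1 59 59 16 0 360) (.nx 721 131073
  (.lg 2 true 1 47 47 16 12596 360) .out)) .out))))) .out) .out)) (.na 735 222 (.nx 734 1048577
  (.nr 733 1048577 (.nr 726 218 .s1 (.nx 729 198 (.nx 728 197 (.nr 727 2207 (.l1 (.ls 16 23 181))
  (.l1 .sk)) (.l1 .sk)) (.nx 731 32769 (.lg 0 false 2 73 73 23 0 144) (.nr 732 16385 (.lg 0 false 1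
  73 73 23 0 144) .out)))) .out) .out) (.na 746 227 (.nx 745 1048577 (.nr 744 1048577 (.nr 736 222
  .s1 (.nx 742 131073 (.nx 738 197 (.nr 737 2256 (.l1 (.ls 19 31 177)) (.l1 .sk)) (.nx 739 198 (.l1
  .sk) (.nr 740 65537 (.lg 0 true 1 79 79 31 0 144) (.nx 741 16385 (.lg 0 false 1 79 79 31 0 144)
  .out)))) (.nr 743 1025 (.lg 0 true 1 61 61 31 0 144) .out))) .out) .out) (.nx 755 1048577 (.nr
  754 1048577 (.nr 747 227 .s1 (.nx 752 32769 (.nx 749 197 (.nr 748 2316 (.l1 (.ls 16 17 173)) (.l1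
  .sk)) (.nx 750 198 (.l1 .sk) (.lg 0 false 2 73 73 17 0 144))) (.nr 753 16385 (.lg 0 false 1 73 73
  17 0 72) .out))) .out) .out)))) (.na 776 242 (.na 765 237 (.nx 764 1048577 (.nr 763 1048577 (.nr
  757 233 .s1 (.nx 760 198 (.nx 759 197 (.nr 758 2356 (.l1 (.ls 16 17 169)) (.l1 .sk)) (.l1 .sk))
  (.nx 761 32769 (.lg 0 true 1 73 73 17 0 72) (.nr 762 16385 (.lg 0 false 1 71 71 17 0 72) .out))))
  .out) .out) (.nx 775 1048577 (.nr 774 1048577 (.nr 766 237 .s1 (.nx 768 197 (.nr 767 2405 (.l1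
  (.ls 19 19 166)) (.l1 .sk)) (.nx 769 198 (.l1 .sk) (.nx 772 131073 (.nr 770 65537 (.lg 0 true 1
  71 71 19 0 72) (.nx 771 16385 (.lg 0 false 1 73 73 19 0 72) .out)) (.nr 773 1025 (.lg 0 true 1 53
  53 19 0 72) .out))))) .out) .out)) (.na 785 243 (.nx 784 1048577 (.nr 783 1048577 (.nr 777 242
  .s1 (.nx 781 32769 (.nx 779 197 (.nr 778 2415 (.l1 (.ls 19 29 163)) (.l1 .sk)) (.nx 780 198 (.l1
  .sk) (.lg 0 true 1 83 83 29 0 1584))) (.nr 782 16385 (.lg 0 false 1 79 79 29 0 1584) .out)))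
  .out) .out) (.na 794 246 (.nx 793 1048577 (.nr 792 1048577 (.nr 786 243 .s1 (.nx 789 198 (.nx 788
  197 (.nr 787 2445 (.l1 (.ls 16 19 162)) (.l1 .sk)) (.l1 .sk)) (.nx 790 32769 (.lg 0 true 1 73 73
  19 0 72) (.nr 791 16385 (.lg 0 false 1 71 71 19 0 72) .out)))) .out) .out) (.nx 804 1048577 (.nr
  803 1048577 (.nr 795 246 .s1 (.nx 798 198 (.nx 797 197 (.nr 796 2544 (.l1 (.ls 23 29 160)) (.l1
  .sk)) (.l1 .sk)) (.nr 801 65537 (.nx 799 131073 (.lg 0 true 1 79 79 31 0 144) (.nr 800 1025 (.lg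
  0 true 1 61 61 31 0 144) .out)) (.nx 802 16385 (.lg 0 false 1 83 83 31 0 144) .out)))) .out)
  .out)))))) (.na 8645 5793 (.na 3039 1024 (.na 1297 363 (.na 806 257 .ne (.nx 1296 1048577 (.nr
  1295 1482912 (.nr 807 257 .s1 (.nx 1081 20644 (.nx 974 257 (.nx 914 197 (.nr 913 3608 (.la (.ls
  23 19 154)) (.l1 .sk)) (.nx 915 198 (.l1 .sk) (.lx (.lp 73 17 91)))) (.nr 1080 1048577 (.la (.lg
  0 true 1 73 73 19 0)) .out)) (.nr 1294 32769 (.nr 1187 2049 (.la (.lg 0 true 1 59 59 19 0)) (.nx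
  1293 131073 (.la (.lg 2 false 1 53 53 19 30988)) .out)) .out))) .out) .out)) (.na 1749 512 (.nx
  1748 1048577 (.nr 1747 1482912 (.nr 1298 363 .s1 (.nx 1597 20644 (.nx 1447 257 (.la (.ls 71 19
  184)) (.nr 1596 1048577 (.la (.lg 0 true 1 71 71 23 0)) .out)) (.nr 1746 32769 (.la (.lg 2 true 1
  67 67 23 284532)) .out))) .out) .out) (.na 2437 725 (.nx 2436 1048577 (.nr 2435 1482912 (.nr 1750
  512 .s1 (.nx 1948 198 (.nx 1947 197 (.nr 1946 7205 (.lx (.lp 29 19 182)) (.l1 .sk)) (.l1 .sk))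
  (.nx 2007 257 (.lx (.lp 71 17 182)) (.nr 2434 1048577 (.nx 2220 20644 (.la (.lg 0 false 1 67 67
  29 0)) (.nr 2433 32769 (.la (.lg 2 false 1 61 61 29 201729)) .out)) .out)))) .out) .out) (.nx
  3038 13005 (.nr 3037 1048577 (.nr 2438 725 .s1 (.nx 2737 2049 (.la (.ls 59 37 5793)) (.nr 3036
  65537 (.la (.lg 0 false 1 41 41 29 0)) .out))) .out) .out)))) (.na 4495 2048 (.na 3893 1449 (.nx
  3892 13005 (.nr 3891 1048577 (.nr 3040 1024 .s1 (.nx 3465 3252 (.la (.ls 59 41 10330)) (.nr 3890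
  32769 (.la (.lg 0 false 1 31 31 31 0)) .out))) .out) .out) (.nx 4494 8193 (.nr 4493 1048577 (.nr
  3894 1449 .s1 (.la (.ls 53 47 46328))) .out) .out)) (.na 5347 2897 (.nx 5346 8193 (.nr 5345
  1048577 (.nr 4496 2048 .s1 (.la (.ls 53 47 32779))) .out) .out) (.na 6747 4096 (.nx 6746 3252
  (.nr 6745 524289 (.nr 5348 2897 .s1 (.nx 5545 197 (.nr 5544 40704 (.lx (.lp 29 29 1025)) (.l1
  .sk)) (.nx 5546 198 (.l1 .sk) (.la (.ls 43 37 3639))))) .out) .out) (.nx 8644 3252 (.nr 8643
  524289 (.nr 6748 4096 .s1 (.nx 6945 197 (.nr 6944 57567 (.lx (.lp 37 31 1449)) (.l1 .sk)) (.nx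
  6946 198 (.l1 .sk) (.la (.ls 43 37 2575))))) .out) .out))))) (.na 15117 65536 (.na 11234 11586
  (.na 9940 8192 (.nx 9939 1292 (.nr 9938 262145 (.nr 8646 5793 .s1 (.nx 9459 814 (.lx (.lp 43 37
  2049)) (.nr 9937 65537 (.lx (.lp 29 37 2049)) .out))) .out) .out) (.nx 11233 1292 (.nr 11232
  262145 (.nr 9941 8192 .s1 (.lx (.lp 41 41 2897))) .out) .out)) (.na 12528 16384 (.nx 12527 1292
  (.nr 12526 131073 (.nr 11235 11586 .s1 (.lx (.lp 29 41 4097))) .out) .out) (.na 13823 32768 (.nx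
  13822 1292 (.nr 13821 262145 (.nr 12529 16384 .s1 (.nx 12785 257 (.lx (.lp 37 41 8193)) (.nr
  13820 131073 (.lx (.lp 29 43 8193)) .out))) .out) .out) (.nx 15116 1292 (.nr 15115 262145 (.nr
  13824 32768 .s1 (.lx (.lp 29 47 16385))) .out) .out)))) (.na 16927 262144 (.na 16412 131072 (.nx
  16411 1292 (.nr 16410 524289 (.nr 15118 65536 .s1 (.nx 15374 257 (.lx (.lp 16 0 32769)) (.nr
  16409 262145 (.lx (.lp 19 53 32769)) .out))) .out) .out) (.nx 16926 513 (.nr 16925 524289 (.nr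
  16413 131072 .s1 (.lx (.lp 16 53 65537))) .out) .out)) (.na 17442 524288 (.nx 17441 513 (.nr
  17440 1048577 (.nr 16928 262144 .s1 (.lx (.lp 16 0 131073))) .out) .out) (.na 17444 1048577 (.nx
  17443 257 (.l1 .sk) .out) .out)))))))

def T138_2 : Ph :=
  (.na 551 152 (.na 336 75 (.na 198 40 (.na 115 25 (.na 49 20 (.na 28 16 (.nx 27 660563 (.nr 26
  623489 (.nr 1 14 .s1 (.nx 3 56 (.nr 2 85 (.l1 (.ls 29 23 212)) (.l1 .sk)) (.nx 4 57 (.l1 .sk)
  (.nx 5 103 (.l1 (.ls 83 29 493)) (.nr 25 131073 (.nr 22 77937 (.nx 18 41287 (.nr 16 46342 (.lg 0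
  false 11 83 83 19 0 27720) (.nx 17 6503 (.lg 0 true 1 97 97 16 0 5040) .out)) (.nr 21 154 (.lg 0
  true 3 73 73 16 0 2520) .out)) (.nx 23 406 .out (.nx 24 2582 (.lg 0 true 1 89 89 16 0 5040)
  .out))) .out))))) .out) .out) (.na 29 19 .ne (.nx 48 660563 (.nr 47 623489 (.nr 30 18 .s1 (.nx 33
  57 (.nx 32 56 (.nr 31 107 (.l1 (.ls 17 16 168)) (.l1 .sk)) (.l1 .sk)) (.nx 38 6503 (.nx 34 103
  (.l1 (.ls 79 17 390)) (.nr 37 131073 (.lg 0 false 3 83 83 16 0 504) .out)) (.nr 46 46342 (.nr 43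
  257 (.lg 0 true 5 71 71 16 0 2520) (.nx 45 41287 (.lg 1 false 2 89 89 11 11189 5040) .out))
  .out)))) .out) .out))) (.na 83 23 (.na 67 21 (.nx 66 660563 (.nr 65 623489 (.nr 50 19 .s1 (.nx 53
  57 (.nx 52 56 (.nr 51 112 (.l1 (.ls 29 23 159)) (.l1 .sk)) (.l1 .sk)) (.nx 54 103 (.l1 (.ls 83 31
  371)) (.nr 64 131073 (.nx 57 6503 (.lg 0 false 3 89 89 19 0 5040) (.nr 63 46342 (.nr 60 257 (.lg
  0 true 3 73 73 19 0 5040) (.nx 62 41287 (.lg 1 true 2 89 89 17 11189 5040) .out)) .out)) .out))))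
  .out) .out) (.nx 82 660563 (.nr 81 623489 (.nr 68 20 .s1 (.nx 72 6503 (.nx 69 103 (.l1 (.ls 79 29
  508)) (.nr 71 131073 (.lg 0 true 2 89 89 16 0 5040) .out)) (.nr 80 46342 (.nr 77 257 (.lg 0 true
  5 67 67 17 0 2520) (.nx 79 41287 (.lg 1 false 2 83 83 16 11189 5040) .out)) .out))) .out) .out))
  (.na 101 24 (.nx 100 660563 (.nr 99 131073 (.nr 84 22 .s1 (.nx 90 6503 (.nx 86 56 (.nr 85 128
  (.l1 (.ls 17 16 139)) (.l1 .sk)) (.nx 87 57 (.l1 .sk) (.lg 0 false 3 83 83 16 0 504))) (.nr 98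
  32769 (.nr 95 257 (.lg 0 true 5 71 71 16 0 2520) (.nx 97 41287 (.lg 1 false 2 83 83 13 7916 5040)
  .out)) .out))) .out) .out) (.nx 114 660563 (.nr 113 131073 (.nr 102 23 .s1 (.nx 104 56 (.nr 103
  133 (.l1 (.ls 29 29 133)) (.l1 .sk)) (.nx 105 57 (.l1 .sk) (.nx 107 6503 (.lg 0 false 2 89 89 19
  0 5040) (.nr 112 32769 (.nr 110 257 (.lg 0 true 3 73 73 23 0 1008) (.nx 111 41287 (.lg 1 false 1
  89 89 13 7916 5040) .out)) .out))))) .out) .out)))) (.na 159 32 (.na 130 27 (.nx 129 660563 (.nr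
  128 131073 (.nr 116 24 .s1 (.nx 122 6503 (.nx 118 56 (.nr 117 144 (.l1 (.ls 19 17 128)) (.l1
  .sk)) (.nx 119 57 (.l1 .sk) (.lg 0 false 3 79 79 16 0 2520))) (.nr 127 32769 (.nr 125 257 (.lg 0
  true 3 67 67 16 0 2520) (.nx 126 41287 (.lg 1 false 1 83 83 16 7916 5040) .out)) .out))) .out)
  .out) (.na 144 28 (.nx 143 660563 (.nr 142 131073 (.nr 131 26 .s1 (.nx 133 56 (.nr 132 149 (.l1
  (.ls 19 17 119)) (.l1 .sk)) (.nx 134 57 (.l1 .sk) (.nx 136 6503 (.lg 0 true 2 83 83 16 0 5040)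
  (.nr 141 32769 (.nr 139 257 (.lg 0 true 3 67 67 16 0 504) (.nx 140 41287 (.lg 1 false 1 83 83 16
  7916 5040) .out)) .out))))) .out) .out) (.nx 158 660563 (.nr 157 131073 (.nr 145 27 .s1 (.nx 147
  56 (.nr 146 170 (.l1 (.ls 19 23 114)) (.l1 .sk)) (.nx 148 57 (.l1 .sk) (.nx 151 6503 (.lg 0 false
  3 79 79 19 0 1008) (.nr 156 32769 (.nr 154 257 (.lg 0 true 3 67 67 19 0 1008) (.nx 155 41287 (.lg
  1 false 1 79 79 13 7916 1008) .out)) .out))))) .out) .out))) (.na 172 36 (.na 160 35 .ne (.nx 171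
  82572 (.nr 170 262145 (.nr 161 35 .s1 (.nx 164 57 (.nx 163 56 (.nr 162 192 (.l1 (.ls 19 17 92))
  (.l1 .sk)) (.l1 .sk)) (.nr 168 32769 (.nx 166 41287 (.lg 0 false 2 83 83 16 0 5040) (.nr 167 154
  (.lg 0 false 1 53 53 16 0 2520) .out)) (.nx 169 2582 (.lg 0 true 1 83 83 16 0 2520) .out))))
  .out) .out)) (.na 185 39 (.nx 184 82572 (.nr 183 262145 (.nr 173 36 .s1 (.nx 175 56 (.nr 174 208
  (.l1 (.ls 23 23 90)) (.l1 .sk)) (.nx 176 57 (.l1 .sk) (.nr 180 32769 (.nx 178 41287 (.lg 0 true 2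
  83 83 23 0 5040) (.nr 179 154 (.lg 0 true 1 53 53 19 0 1008) .out)) (.nx 182 2582 (.lg 0 false 2
  83 83 23 0 5040) .out))))) .out) .out) (.nx 197 82572 (.nr 196 262145 (.nr 186 39 .s1 (.nx 188 56
  (.nr 187 213 (.l1 (.ls 29 19 83)) (.l1 .sk)) (.nx 189 57 (.l1 .sk) (.nr 193 32769 (.nx 191 41287
  (.lg 0 true 2 89 89 17 0 65520) (.nr 192 154 (.lg 0 true 1 53 53 17 0 6552) .out)) (.nx 195 2582
  (.lg 0 false 2 83 83 17 0 13104) .out))))) .out) .out))))) (.na 265 60 (.na 223 52 (.na 211 45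
  (.nx 210 82572 (.nr 209 262145 (.nr 199 40 .s1 (.nx 201 56 (.nr 200 240 (.l1 (.ls 29 23 81)) (.l1
  .sk)) (.nx 202 57 (.l1 .sk) (.nr 206 32769 (.nx 204 41287 (.lg 0 true 2 89 89 19 0 5040) (.nr 205
  154 (.lg 0 true 1 59 59 19 0 5040) .out)) (.nx 208 2582 (.lg 0 false 2 83 83 19 0 5040) .out)))))
  .out) .out) (.na 222 49 (.nx 221 82572 (.nr 220 262145 (.nr 212 45 .s1 (.nx 214 56 (.nr 213 261
  (.l1 (.ls 23 17 72)) (.l1 .sk)) (.nx 215 57 (.l1 .sk) (.nx 218 41287 (.nr 216 32769 (.lg 0 false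
  1 83 83 17 0 2520) (.nx 217 2582 (.lg 0 false 1 79 79 17 0 2520) .out)) (.nr 219 154 (.lg 0 true
  1 53 53 17 0 2520) .out))))) .out) .out) (.lg 0 false 1 0 0 16 0 24))) (.na 244 57 (.na 234 56
  (.nx 233 82572 (.nr 232 262145 (.nr 224 52 .s1 (.nx 226 56 (.nr 225 298 (.l1 (.ls 29 19 63)) (.l1
  .sk)) (.nx 227 57 (.l1 .sk) (.nr 230 32769 (.nx 228 41287 (.lg 0 false 1 89 89 19 0 65520) (.nr
  229 154 (.lg 0 true 1 53 53 19 0 13104) .out)) (.nx 231 2582 (.lg 0 true 1 83 83 19 0 65520)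
  .out))))) .out) .out) (.nx 243 82572 (.nr 242 262145 (.nr 235 56 .s1 (.nx 237 56 (.nr 236 303
  (.l1 (.ls 19 19 58)) (.l1 .sk)) (.nx 238 57 (.l1 .sk) (.nr 240 32769 (.lg 0 false 2 83 83 19 0
  5040) (.nx 241 2582 (.lg 0 true 1 79 79 17 0 5040) .out))))) .out) .out)) (.na 255 59 (.nx 254
  82572 (.nr 253 262145 (.nr 245 57 .s1 (.nx 248 57 (.nx 247 56 (.nr 246 314 (.l1 (.ls 17 16 58))
  (.l1 .sk)) (.l1 .sk)) (.nx 251 41287 (.nr 249 32769 (.lg 0 false 1 83 83 16 0 504) (.nx 250 2582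
  (.lg 0 false 1 79 79 16 0 504) .out)) (.nr 252 154 (.lg 0 true 1 53 53 16 0 504) .out)))) .out)
  .out) (.nx 264 82572 (.nr 263 262145 (.nr 256 59 .s1 (.nx 259 57 (.nx 258 56 (.nr 257 319 (.l1
  (.ls 17 16 56)) (.l1 .sk)) (.l1 .sk)) (.nr 261 32769 (.lg 0 false 2 83 83 16 0 1008) (.nx 262
  2582 (.lg 0 true 1 79 79 16 0 504) .out)))) .out) .out)))) (.na 297 65 (.na 286 63 (.na 276 61
  (.nx 275 82572 (.nr 274 262145 (.nr 266 60 .s1 (.nx 269 57 (.nx 268 56 (.nr 267 325 (.l1 (.ls 31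
  23 55)) (.l1 .sk)) (.l1 .sk)) (.nx 272 41287 (.nr 270 32769 (.lg 0 false 1 89 89 29 0 5040) (.nx
  271 2582 (.lg 0 false 1 83 83 29 0 5040) .out)) (.nr 273 154 (.lg 0 true 1 53 59 29 0 5040)
  .out)))) .out) .out) (.nx 285 82572 (.nr 284 262145 (.nr 277 61 .s1 (.nx 280 57 (.nx 279 56 (.nr
  278 335 (.l1 (.ls 17 16 54)) (.l1 .sk)) (.l1 .sk)) (.nr 282 32769 (.lg 0 false 2 83 83 16 0 1008)
  (.nx 283 2582 (.lg 0 true 1 79 79 16 0 504) .out)))) .out) .out)) (.na 296 64 (.nx 295 82572 (.nr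
  294 262145 (.nr 287 63 .s1 (.nx 290 57 (.nx 289 56 (.nr 288 341 (.l1 (.ls 17 17 52)) (.l1 .sk))
  (.l1 .sk)) (.nr 292 32769 (.lg 0 false 2 79 79 17 0 1008) (.nx 293 2582 (.lg 0 true 1 73 73 17 0
  5040) .out)))) .out) .out) .ne)) (.na 317 71 (.na 307 69 (.nx 306 82572 (.nr 305 524289 (.nr 298
  65 .s1 (.nx 303 41287 (.nx 299 647 (.l1 (.ls 79 43 6443)) (.nr 302 262145 (.nx 300 6503 (.lg 0
  true 1 89 89 17 0 65520) (.nr 301 65537 (.lg 1 false 1 83 83 17 17786 65520) .out)) .out)) (.nr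
  304 257 (.lg 0 true 1 53 53 17 0 32760) .out))) .out) .out) (.nx 316 82572 (.nr 315 524289 (.nr
  308 69 .s1 (.nx 313 41287 (.nx 309 647 (.l1 (.ls 79 43 6069)) (.nr 312 262145 (.nx 310 6503 (.lg
  0 true 1 89 89 17 0 5040) (.nr 311 65537 (.lg 1 false 1 83 83 17 16755 5040) .out)) .out)) (.nr
  314 257 (.lg 0 true 1 53 53 17 0 504) .out))) .out) .out)) (.na 326 72 (.nx 325 82572 (.nr 324
  524289 (.nr 318 71 .s1 (.nx 321 6503 (.nx 319 647 (.l1 (.ls 67 37 5898)) (.nr 320 262145 (.lg 0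
  true 1 83 83 16 0 5040) .out)) (.nr 323 65537 (.lg 1 false 2 83 83 16 32564 5040) .out))) .out)
  .out) (.nx 335 82572 (.nr 334 524289 (.nr 327 72 .s1 (.nx 332 41287 (.nx 328 647 (.l1 (.ls 73 47
  5817)) (.nr 331 262145 (.nx 329 6503 (.lg 0 true 1 83 83 23 0 5040) (.nr 330 65537 (.lg 1 false 1
  73 73 23 16057 1008) .out)) .out)) (.nr 333 257 (.lg 0 true 1 47 47 23 0 1008) .out))) .out)
  .out)))))) (.na 464 115 (.na 398 92 (.na 364 81 (.na 346 76 (.nx 345 82572 (.nr 344 524289 (.nr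
  337 75 .s1 (.nx 342 41287 (.nx 338 647 (.l1 (.ls 73 43 5584)) (.nr 341 262145 (.nx 339 6503 (.lg
  0 true 1 83 83 17 0 5040) (.nr 340 65537 (.lg 1 false 1 79 79 17 15817 5040) .out)) .out)) (.nr
  343 257 (.lg 0 true 1 47 47 17 0 2520) .out))) .out) .out) (.na 356 79 (.nx 355 82572 (.nr 354
  524289 (.nr 347 76 .s1 (.nx 352 41287 (.nx 350 6503 (.nx 348 647 (.l1 (.ls 79 47 5511)) (.nr 349
  262145 (.lg 0 true 1 89 89 17 0 5040) .out)) (.nr 351 65537 (.lg 1 false 1 79 79 17 15817 1008)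
  .out)) (.nr 353 257 (.lg 0 true 1 53 53 17 0 1008) .out))) .out) .out) (.nx 363 82572 (.nr 362
  524289 (.nr 357 79 .s1 (.nx 360 6503 (.nx 358 647 (.l1 (.ls 71 37 5301)) (.nr 359 262145 (.lg 0
  true 1 83 83 16 0 504) .out)) (.nr 361 65537 (.lg 1 false 1 89 89 16 29267 5040) .out))) .out)
  .out))) (.na 380 84 (.na 372 83 (.nx 371 82572 (.nr 370 524289 (.nr 365 81 .s1 (.nx 366 647 (.l1
  (.ls 67 41 5171)) (.nr 369 262145 (.nx 367 6503 (.lg 0 true 1 73 73 16 0 504) (.nr 368 65537 (.lg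
  1 false 1 79 79 16 28544 1008) .out)) .out))) .out) .out) (.nx 379 82572 (.nr 378 524289 (.nr 373
  83 .s1 (.nx 376 6503 (.nx 374 647 (.l1 (.ls 67 37 5046)) (.nr 375 262145 (.lg 0 true 1 73 73 16 0
  504) .out)) (.nr 377 65537 (.lg 1 false 1 83 83 16 27856 5040) .out))) .out) .out)) (.na 390 91
  (.nx 389 82572 (.nr 388 524289 (.nr 381 84 .s1 (.nx 382 647 (.l1 (.ls 73 53 4986)) (.nr 387
  262145 (.nx 383 6503 (.lg 0 true 1 83 83 29 0 5040) (.nr 386 65537 (.nx 384 41287 (.lg 1 false 1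
  73 73 29 15817 1008) (.nr 385 257 (.lg 0 true 1 47 47 29 0 1008) .out)) .out)) .out))) .out)
  .out) (.nx 397 82572 (.nr 396 524289 (.nr 391 91 .s1 (.nx 392 647 (.l1 (.ls 71 41 4603)) (.nr 395
  262145 (.nx 393 6503 (.lg 0 true 1 79 79 17 0 65520) (.nr 394 65537 (.lg 1 false 1 79 79 17 25407
  13104) .out)) .out))) .out) .out)))) (.na 431 104 (.na 414 100 (.na 406 95 (.nx 405 82572 (.nr
  404 524289 (.nr 399 92 .s1 (.nx 402 6503 (.nx 400 647 (.l1 (.ls 79 47 4553)) (.nr 401 262145 (.lg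
  0 true 1 83 83 19 0 1008) .out)) (.nr 403 65537 (.lg 1 false 1 89 89 19 25131 5040) .out))) .out)
  .out) (.nx 413 82572 (.nr 412 524289 (.nr 407 95 .s1 (.nx 410 6503 (.nx 408 647 (.l1 (.ls 79 41
  4409)) (.nr 409 262145 (.lg 0 true 1 83 83 17 0 2520) .out)) (.nr 411 65537 (.lg 1 false 1 89 89
  17 24338 5040) .out))) .out) .out)) (.na 422 101 (.nx 421 82572 (.nr 420 524289 (.nr 415 100 .s1
  (.nx 418 6503 (.nx 416 647 (.l1 (.ls 73 43 4189)) (.nr 417 262145 (.lg 0 true 1 79 79 23 0 5040)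
  .out)) (.nr 419 65537 (.lg 1 false 1 83 83 23 23121 5040) .out))) .out) .out) (.nx 430 82572 (.nr
  429 524289 (.nr 423 101 .s1 (.nx 427 41287 (.nx 424 647 (.l1 (.ls 67 31 4147)) (.nr 426 262145
  (.lg 0 true 2 83 83 16 0 5040) .out)) (.nr 428 257 (.lg 0 true 1 41 41 16 0 5040) .out))) .out)
  .out))) (.na 447 108 (.na 439 105 (.nx 438 82572 (.nr 437 524289 (.nr 432 104 .s1 (.nx 433 647
  (.l1 (.ls 73 43 4028)) (.nr 436 262145 (.nx 434 6503 (.lg 0 true 1 83 83 23 0 65520) (.nr 435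
  65537 (.lg 1 false 1 83 83 23 22231 65520) .out)) .out))) .out) .out) (.nx 446 82572 (.nr 445
  524289 (.nr 440 105 .s1 (.nx 441 647 (.l1 (.ls 73 43 3989)) (.nr 444 262145 (.nx 442 6503 (.lg 0
  false 1 73 73 23 0 2520) (.nr 443 65537 (.lg 1 false 1 79 79 23 22020 5040) .out)) .out))) .out)
  .out)) (.na 455 113 (.nx 454 82572 (.nr 453 524289 (.nr 448 108 .s1 (.nx 451 6503 (.nx 449 647
  (.l1 (.ls 73 47 3879)) (.nr 450 262145 (.lg 0 false 1 79 79 23 0 1008) .out)) (.nr 452 65537 (.lg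
  1 false 1 79 79 23 21408 1008) .out))) .out) .out) (.nx 463 82572 (.nr 462 524289 (.nr 456 113
  .s1 (.nx 457 647 (.l1 (.ls 67 31 3707)) (.nr 461 262145 (.nx 459 41287 (.lg 0 true 2 83 83 16 0
  5040) (.nr 460 257 (.lg 0 true 1 37 37 16 0 504) .out)) .out))) .out) .out))))) (.na 513 133 (.na
  488 125 (.na 472 117 (.nx 471 82572 (.nr 470 524289 (.nr 465 115 .s1 (.nx 466 647 (.l1 (.ls 73 41
  3643)) (.nr 469 262145 (.nx 467 6503 (.lg 0 true 1 79 79 17 0 2520) (.nr 468 65537 (.lg 1 false 1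
  83 83 17 20105 5040) .out)) .out))) .out) .out) (.na 480 120 (.nx 479 82572 (.nr 478 524289 (.nr
  473 117 .s1 (.nx 476 6503 (.nx 474 647 (.l1 (.ls 73 41 3580)) (.nr 475 262145 (.lg 0 false 1 79
  79 19 0 6552) .out)) (.nr 477 65537 (.lg 1 false 1 79 79 19 19761 13104) .out))) .out) .out) (.nx
  487 82572 (.nr 486 524289 (.nr 481 120 .s1 (.nx 482 647 (.l1 (.ls 79 47 3491)) (.nr 485 262145
  (.nx 483 6503 (.lg 0 false 1 83 83 31 0 5040) (.nr 484 65537 (.lg 1 true 1 83 83 31 19267 5040)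
  .out)) .out))) .out) .out))) (.na 506 128 (.na 497 127 (.nx 496 82572 (.nr 495 524289 (.nr 489
  125 .s1 (.nx 490 647 (.l1 (.ls 67 37 3351)) (.nr 494 262145 (.nx 492 41287 (.lg 0 true 2 83 83 17
  0 5040) (.nr 493 257 (.lg 0 true 1 37 37 16 0 5040) .out)) .out))) .out) .out) (.nx 505 82572
  (.nr 504 524289 (.nr 498 127 .s1 (.nx 499 647 (.l1 (.ls 61 31 3299)) (.nr 503 262145 (.nx 501
  41287 (.lg 0 false 2 79 79 16 0 1008) (.nr 502 257 (.lg 0 true 1 37 37 16 0 5040) .out)) .out)))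
  .out) .out)) (.na 507 131 .ne (.nx 512 41287 (.nr 511 1048577 (.nr 508 131 .s1 (.nx 509 647 (.l1
  (.ls 71 31 3198)) (.nr 510 131073 (.lg 0 true 1 79 79 16 0 504) .out))) .out) .out)))) (.na 537
  140 (.na 525 137 (.na 519 135 (.nx 518 41287 (.nr 517 1048577 (.nr 514 133 .s1 (.nx 515 647 (.l1
  (.ls 71 41 3150)) (.nr 516 131073 (.lg 0 true 1 83 83 17 0 5040) .out))) .out) .out) (.nx 524
  41287 (.nr 523 1048577 (.nr 520 135 .s1 (.nx 521 647 (.l1 (.ls 73 41 3103)) (.nr 522 131073 (.lg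
  0 true 1 83 83 19 0 5040) .out))) .out) .out)) (.na 531 139 (.nx 530 41287 (.nr 529 1048577 (.nr
  526 137 .s1 (.nx 527 647 (.l1 (.ls 67 31 3058)) (.nr 528 131073 (.lg 0 true 1 79 79 16 0 5040)
  .out))) .out) .out) (.nx 536 41287 (.nr 535 1048577 (.nr 532 139 .s1 (.nx 533 647 (.l1 (.ls 71 31
  3014)) (.nr 534 131073 (.lg 0 true 1 79 79 16 0 504) .out))) .out) .out))) (.na 544 149 (.na 543
  147 (.nx 542 41287 (.nr 541 1048577 (.nr 538 140 .s1 (.nx 539 647 (.l1 (.ls 73 47 2993)) (.nr 540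
  131073 (.lg 0 true 1 83 83 29 0 5040) .out))) .out) .out) (.lg 0 false 1 0 0 16 0 24)) (.na 545
  151 (.lg 0 false 1 0 0 16 0 24) (.nx 550 41287 (.nr 549 1048577 (.nr 546 151 .s1 (.nx 547 647
  (.l1 (.ls 67 31 2775)) (.nr 548 131073 (.lg 0 true 1 73 73 16 0 504) .out))) .out) .out)))))))
  (.na 690 223 (.na 620 181 (.na 583 169 (.na 569 161 (.na 557 156 (.nx 556 41287 (.nr 555 1048577
  (.nr 552 152 .s1 (.nx 553 647 (.l1 (.ls 79 43 2757)) (.nr 554 131073 (.lg 0 true 1 89 89 29 0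
  5040) .out))) .out) .out) (.na 563 157 (.nx 562 41287 (.nr 561 1048577 (.nr 558 156 .s1 (.nx 559
  647 (.l1 (.ls 83 47 2686)) (.nr 560 131073 (.lg 0 false 1 89 97 37 0 65520) .out))) .out) .out)
  (.nx 568 41287 (.nr 567 1048577 (.nr 564 157 .s1 (.nx 565 647 (.l1 (.ls 67 31 2669)) (.nr 566
  131073 (.lg 0 true 1 73 73 16 0 504) .out))) .out) .out))) (.na 576 167 (.na 575 163 (.nx 574
  41287 (.nr 573 1048577 (.nr 570 161 .s1 (.nx 571 647 (.l1 (.ls 71 41 2603)) (.nr 572 131073 (.lg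
  0 true 1 79 79 17 0 504) .out))) .out) .out) (.lg 0 false 1 0 0 16 0 24)) (.na 577 168 (.lg 0
  false 1 0 0 16 0 24) (.nx 582 41287 (.nr 581 1048577 (.nr 578 168 .s1 (.nx 579 647 (.l1 (.ls 73
  47 2494)) (.nr 580 131073 (.lg 0 false 1 79 79 31 0 1008) .out))) .out) .out)))) (.na 601 175
  (.na 589 171 (.nx 588 41287 (.nr 587 1048577 (.nr 584 169 .s1 (.nx 585 647 (.l1 (.ls 71 37 2479))
  (.nr 586 131073 (.lg 0 true 1 79 79 17 0 6552) .out))) .out) .out) (.na 595 173 (.nx 594 41287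
  (.nr 593 1048577 (.nr 590 171 .s1 (.nx 591 647 (.l1 (.ls 73 41 2451)) (.nr 592 131073 (.lg 0 true
  1 83 83 17 0 504) .out))) .out) .out) (.nx 600 41287 (.nr 599 1048577 (.nr 596 173 .s1 (.nx 597
  647 (.l1 (.ls 67 31 2422)) (.nr 598 131073 (.lg 0 true 1 73 73 16 0 504) .out))) .out) .out)))
  (.na 613 179 (.na 607 177 (.nx 606 41287 (.nr 605 1048577 (.nr 602 175 .s1 (.nx 603 647 (.l1 (.ls
  67 37 2395)) (.nr 604 131073 (.lg 0 true 1 73 73 19 0 2520) .out))) .out) .out) (.nx 612 41287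
  (.nr 611 1048577 (.nr 608 177 .s1 (.nx 609 647 (.l1 (.ls 73 37 2368)) (.nr 610 131073 (.lg 0
  false 1 83 83 19 0 504) .out))) .out) .out)) (.na 614 180 (.lg 0 false 1 0 0 16 0 24) (.nx 619
  41287 (.nr 618 1048577 (.nr 615 180 .s1 (.nx 616 647 (.l1 (.ls 79 47 2328)) (.nr 617 131073 (.lg
  0 false 1 83 89 37 0 5040) .out))) .out) .out))))) (.na 662 196 (.na 638 189 (.na 626 183 (.nx
  625 41287 (.nr 624 1048577 (.nr 621 181 .s1 (.nx 622 647 (.l1 (.ls 67 31 2315)) (.nr 623 131073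
  (.lg 0 true 1 73 73 16 0 504) .out))) .out) .out) (.na 632 184 (.nx 631 41287 (.nr 630 1048577
  (.nr 627 183 .s1 (.nx 628 647 (.l1 (.ls 73 37 2290)) (.nr 629 131073 (.lg 0 false 1 83 83 19 0
  504) .out))) .out) .out) (.nx 637 41287 (.nr 636 1048577 (.nr 633 184 .s1 (.nx 634 647 (.l1 (.ls
  73 43 2278)) (.nr 635 131073 (.lg 0 true 1 83 83 19 0 5040) .out))) .out) .out))) (.na 650 193
  (.na 644 191 (.nx 643 41287 (.nr 642 1048577 (.nr 639 189 .s1 (.nx 640 647 (.l1 (.ls 67 41 2217))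
  (.nr 641 131073 (.lg 0 true 1 73 73 19 0 504) .out))) .out) .out) (.nx 649 41287 (.nr 648 1048577
  (.nr 645 191 .s1 (.nx 646 647 (.l1 (.ls 67 29 2194)) (.nr 647 131073 (.lg 0 true 1 73 73 16 0
  504) .out))) .out) .out)) (.na 656 195 (.nx 655 41287 (.nr 654 1048577 (.nr 651 193 .s1 (.nx 652
  647 (.l1 (.ls 67 29 2171)) (.nr 653 131073 (.lg 0 true 1 73 73 16 0 5040) .out))) .out) .out)
  (.nx 661 41287 (.nr 660 1048577 (.nr 657 195 .s1 (.nx 658 647 (.l1 (.ls 79 41 2149)) (.nr 659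
  131073 (.lg 0 false 1 89 89 31 0 65520) .out))) .out) .out)))) (.na 671 207 (.na 664 199 (.na 663
  197 (.lg 0 false 1 0 0 16 0 24) (.lg 0 false 1 0 0 16 0 24)) (.na 665 200 (.lg 0 false 1 0 0 16 0
  24) (.nx 670 41287 (.nr 669 1048577 (.nr 666 200 .s1 (.nx 667 647 (.l1 (.ls 73 41 2096)) (.nr 668
  131073 (.lg 0 false 1 79 79 29 0 5040) .out))) .out) .out))) (.na 678 213 (.na 677 211 (.nx 676
  41287 (.nr 675 1048577 (.nr 672 207 .s1 (.nx 673 647 (.l1 (.ls 73 41 2025)) (.nr 674 131073 (.lg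
  0 false 1 79 79 19 0 504) .out))) .out) .out) (.lg 0 false 1 0 0 16 0 24)) (.na 684 216 (.nx 683
  41287 (.nr 682 1048577 (.nr 679 213 .s1 (.nx 680 647 (.l1 (.ls 67 37 1968)) (.nr 681 131073 (.lg
  0 false 1 79 79 19 0 504) .out))) .out) .out) (.nx 689 41287 (.nr 688 1048577 (.nr 685 216 .s1
  (.nx 686 647 (.l1 (.ls 71 43 1941)) (.nr 687 131073 (.lg 0 false 1 79 79 29 0 5040) .out))) .out)
  .out)))))) (.na 765 251 (.na 727 237 (.na 703 228 (.na 691 225 (.lg 0 false 1 0 0 16 0 24) (.na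
  697 227 (.nx 696 41287 (.nr 695 1048577 (.nr 692 225 .s1 (.nx 693 647 (.l1 (.ls 71 37 1863)) (.nr
  694 131073 (.lg 0 true 1 79 79 23 0 5040) .out))) .out) .out) (.nx 702 41287 (.nr 701 1048577
  (.nr 698 227 .s1 (.nx 699 647 (.l1 (.ls 67 29 1847)) (.nr 700 131073 (.lg 0 true 1 71 71 17 0
  504) .out))) .out) .out))) (.na 715 233 (.na 709 229 (.nx 708 41287 (.nr 707 1048577 (.nr 704 228
  .s1 (.nx 705 647 (.l1 (.ls 79 43 1839)) (.nr 706 131073 (.lg 0 false 1 83 89 37 0 5040) .out)))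
  .out) .out) (.nx 714 41287 (.nr 713 1048577 (.nr 710 229 .s1 (.nx 711 647 (.l1 (.ls 67 29 1830))
  (.nr 712 131073 (.lg 0 true 1 71 71 17 0 504) .out))) .out) .out)) (.na 721 236 (.nx 720 41287
  (.nr 719 1048577 (.nr 716 233 .s1 (.nx 717 647 (.l1 (.ls 67 29 1799)) (.nr 718 131073 (.lg 0 true
  1 71 71 17 0 504) .out))) .out) .out) (.nx 726 41287 (.nr 725 1048577 (.nr 722 236 .s1 (.nx 723
  647 (.l1 (.ls 73 37 1776)) (.nr 724 131073 (.lg 0 false 1 79 79 23 0 1008) .out))) .out) .out))))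
  (.na 746 244 (.na 739 241 (.na 733 239 (.nx 732 41287 (.nr 731 1048577 (.nr 728 237 .s1 (.nx 729
  647 (.l1 (.ls 71 31 1769)) (.nr 730 131073 (.lg 0 false 1 73 73 19 0 504) .out))) .out) .out)
  (.nx 738 41287 (.nr 737 1048577 (.nr 734 239 .s1 (.nx 735 647 (.l1 (.ls 61 29 1754)) (.nr 736
  131073 (.lg 0 true 1 71 71 17 0 504) .out))) .out) .out)) (.na 740 243 (.lg 0 false 1 0 0 16 0
  24) (.nx 745 41287 (.nr 744 1048577 (.nr 741 243 .s1 (.nx 742 647 (.l1 (.ls 67 31 1725)) (.nr 743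
  131073 (.lg 0 true 1 71 71 19 0 504) .out))) .out) .out))) (.na 753 247 (.na 752 245 (.nx 751
  41287 (.nr 750 1048577 (.nr 747 244 .s1 (.nx 748 647 (.l1 (.ls 59 37 1718)) (.nr 749 131073 (.lg
  0 true 1 83 83 23 0 5040) .out))) .out) .out) (.lg 0 false 1 0 0 16 0 24)) (.na 759 249 (.nx 758
  41287 (.nr 757 1048577 (.nr 754 247 .s1 (.nx 755 647 (.l1 (.ls 73 37 1697)) (.nr 756 131073 (.lg
  0 false 1 79 79 17 0 6552) .out))) .out) .out) (.nx 764 41287 (.nr 763 1048577 (.nr 760 249 .s1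
  (.nx 761 647 (.l1 (.ls 71 31 1684)) (.nr 762 131073 (.lg 0 false 1 73 73 23 0 504) .out))) .out)
  .out))))) (.na 1886 1449 (.na 778 257 (.na 771 252 (.nx 770 41287 (.nr 769 1048577 (.nr 766 251
  .s1 (.nx 767 647 (.l1 (.ls 67 29 1670)) (.nr 768 131073 (.lg 0 true 1 71 71 17 0 504) .out)))
  .out) .out) (.na 777 256 (.nx 776 41287 (.nr 775 1048577 (.nr 772 252 .s1 (.nx 773 647 (.l1 (.ls
  71 43 1664)) (.nr 774 131073 (.lg 0 false 1 73 73 37 0 1008) .out))) .out) .out) .ne)) (.na 1366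
  725 (.na 1093 512 (.nx 1092 41287 (.nr 1091 262145 (.nr 779 257 .s1 (.nx 836 57 (.nx 835 56 (.nr
  834 2722 (.lx (.lp 41 17 129)) (.l1 .sk)) (.l1 .sk)) (.la (.lg 0 false 1 73 73 23 0)))) .out)
  .out) (.nx 1365 41287 (.nr 1364 262145 (.nr 1094 512 .s1 (.nx 1151 57 (.nx 1150 56 (.nr 1149 3854
  (.lx (.lp 37 19 182)) (.l1 .sk)) (.l1 .sk)) (.la (.lg 0 false 1 71 71 29 0)))) .out) .out)) (.na
  1626 1024 (.nx 1625 257 (.nr 1624 65537 (.nr 1367 725 .s1 (.nx 1495 129 (.lx (.lp 53 23 257))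
  (.nr 1623 8193 (.lx (.lp 37 23 257)) .out))) .out) .out) (.nx 1885 257 (.nr 1884 65537 (.nr 1627
  1024 .s1 (.nx 1755 129 (.lx (.lp 53 23 363)) (.nr 1883 8193 (.lx (.lp 37 23 363)) .out))) .out)
  .out)))) (.na 2924 5793 (.na 2405 2897 (.na 2145 2048 (.nx 2144 257 (.nr 2143 16385 (.nr 1887
  1449 .s1 (.lx (.lp 37 29 513))) .out) .out) (.nx 2404 257 (.nr 2403 32769 (.nr 2146 2048 .s1 (.nx
  2248 103 (.lx (.lp 41 29 725)) (.nr 2402 16385 (.lx (.lp 31 31 725)) .out))) .out) .out)) (.na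
  2665 4096 (.nx 2664 257 (.nr 2663 32769 (.nr 2406 2897 .s1 (.nx 2508 103 (.lx (.lp 41 31 1025))
  (.nr 2662 16385 (.lx (.lp 31 31 1025)) .out))) .out) .out) (.nx 2923 257 (.nr 2922 32769 (.nr
  2666 4096 .s1 (.lx (.lp 37 31 1449))) .out) .out))) (.na 3134 16384 (.na 3029 8192 (.nx 3028 103
  (.nr 3027 32769 (.nr 2925 5793 .s1 (.lx (.lp 31 37 2049))) .out) .out) (.nx 3133 103 (.nr 3132
  32769 (.nr 3030 8192 .s1 (.lx (.lp 16 0 4097))) .out) .out)) (.na 3136 32769 (.nx 3135 103 (.l1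
  .sk) .out) .out)))))))

theorem c138 :
    OkQ ckI L6 81 1 16 0 34359738368 1 1099511627776 ∧
    OkQ ckI L9 197 10 1099511627776 0 34359738368 1 1099511627776 ∧
    OkQ ckI L5 56 15 1099511627776 0 34359738368 1 1099511627776 := by
  refine ⟨?_, ?_, ?_⟩
  · refine fin 72 659 T138_0 ?_
    refine jn 7 (by decide +kernel) ?_
    refine jn 10 (by decide +kernel) ?_
    refine jn 12 (by decide +kernel) ?_
    refine jn 16 (by decide +kernel) ?_
    refine jn 18 (by decide +kernel) ?_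
    refine jn 20 (by decide +kernel) ?_
    refine jn 22 (by decide +kernel) ?_
    refine jn 27 (by decide +kernel) ?_
    refine jn 30 (by decide +kernel) ?_
    refine jn 32 (by decide +kernel) ?_
    refine jn 34 (by decide +kernel) ?_
    refine jn 38 (by decide +kernel) ?_
    refine jn 40 (by decide +kernel) ?_
    refine jn 42 (by decide +kernel) ?_
    refine jn 44 (by decide +kernel) ?_
    refine jn 60 (by decide +kernel) ?_
    refine jn 65 (by decide +kernel) ?_
    refine jn 69 (by decide +kernel) ?_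
    refine jn 73 (by decide +kernel) ?_
    refine jn 77 (by decide +kernel) ?_
    refine jn 81 (by decide +kernel) ?_
    refine jn 85 (by decide +kernel) ?_
    refine jn 89 (by decide +kernel) ?_
    refine jn 93 (by decide +kernel) ?_
    refine jn 97 (by decide +kernel) ?_
    refine jn 102 (by decide +kernel) ?_
    refine jn 105 (by decide +kernel) ?_
    refine jn 116 (by decide +kernel) ?_
    refine jn 127 (by decide +kernel) ?_
    refine jn 138 (by decide +kernel) ?_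
    refine jn 162 (by decide +kernel) ?_
    refine jn 175 (by decide +kernel) ?_
    refine jn 202 (by decide +kernel) ?_
    refine jn 210 (by decide +kernel) ?_
    refine jn 212 (by decide +kernel) ?_
    refine jn 215 (by decide +kernel) ?_
    refine jn 217 (by decide +kernel) ?_
    refine jn 219 (by decide +kernel) ?_
    refine jn 233 (by decide +kernel) ?_
    refine jn 241 (by decide +kernel) ?_
    refine jn 249 (by decide +kernel) ?_
    refine jn 258 (by decide +kernel) ?_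
    refine jn 262 (by decide +kernel) ?_
    refine jn 273 (by decide +kernel) ?_
    refine jn 280 (by decide +kernel) ?_
    refine jn 298 (by decide +kernel) ?_
    refine jn 332 (by decide +kernel) ?_
    refine jn 339 (by decide +kernel) ?_
    refine jn 340 (by decide +kernel) ?_
    refine jn 341 (by decide +kernel) ?_
    refine jn 342 (by decide +kernel) ?_
    refine jn 343 (by decide +kernel) ?_
    refine jn 344 (by decide +kernel) ?_
    refine jn 345 (by decide +kernel) ?_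
    refine jn 346 (by decide +kernel) ?_
    refine jn 347 (by decide +kernel) ?_
    refine jn 348 (by decide +kernel) ?_
    refine jn 349 (by decide +kernel) ?_
    refine jn 350 (by decide +kernel) ?_
    refine jn 352 (by decide +kernel) ?_
    refine jn 354 (by decide +kernel) ?_
    refine jn 356 (by decide +kernel) ?_
    refine jn 358 (by decide +kernel) ?_
    refine jn 360 (by decide +kernel) ?_
    refine jn 361 (by decide +kernel) ?_
    refine jn 368 (by decide +kernel) ?_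
    refine jn 374 (by decide +kernel) ?_
    refine jn 380 (by decide +kernel) ?_
    refine jn 411 (by decide +kernel) ?_
    refine jn 424 (by decide +kernel) ?_
    refine jn 438 (by decide +kernel) ?_
    refine jn 447 (by decide +kernel) ?_
    refine jn 454 (by decide +kernel) ?_
    refine jn 465 (by decide +kernel) ?_
    refine jn 475 (by decide +kernel) ?_
    refine jn 476 (by decide +kernel) ?_
    refine jn 477 (by decide +kernel) ?_
    refine jn 478 (by decide +kernel) ?_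
    refine jn 479 (by decide +kernel) ?_
    refine jn 480 (by decide +kernel) ?_
    refine jn 496 (by decide +kernel) ?_
    refine jn 498 (by decide +kernel) ?_
    refine jn 499 (by decide +kernel) ?_
    refine jn 500 (by decide +kernel) ?_
    refine jn 501 (by decide +kernel) ?_
    refine jn 503 (by decide +kernel) ?_
    refine jn 505 (by decide +kernel) ?_
    refine jn 506 (by decide +kernel) ?_
    refine jn 514 (by decide +kernel) ?_
    refine jn 515 (by decide +kernel) ?_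
    refine jn 516 (by decide +kernel) ?_
    refine jn 517 (by decide +kernel) ?_
    refine jn 518 (by decide +kernel) ?_
    refine jn 519 (by decide +kernel) ?_
    refine jn 525 (by decide +kernel) ?_
    refine jn 533 (by decide +kernel) ?_
    refine jn 547 (by decide +kernel) ?_
    refine jn 549 (by decide +kernel) ?_
    refine jn 550 (by decide +kernel) ?_
    refine jn 551 (by decide +kernel) ?_
    refine jn 553 (by decide +kernel) ?_
    refine jn 554 (by decide +kernel) ?_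
    refine jn 558 (by decide +kernel) ?_
    refine jn 561 (by decide +kernel) ?_
    refine jn 568 (by decide +kernel) ?_
    refine jn 577 (by decide +kernel) ?_
    refine jn 593 (by decide +kernel) ?_
    refine jn 595 (by decide +kernel) ?_
    refine jn 597 (by decide +kernel) ?_
    refine jn 600 (by decide +kernel) ?_
    refine jn 602 (by decide +kernel) ?_
    refine jn 606 (by decide +kernel) ?_
    refine jn 619 (by decide +kernel) ?_
    refine jn 626 (by decide +kernel) ?_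
    refine jn 627 (by decide +kernel) ?_
    refine jn 629 (by decide +kernel) ?_
    refine jn 631 (by decide +kernel) ?_
    refine jn 634 (by decide +kernel) ?_
    refine jn 636 (by decide +kernel) ?_
    refine jn 641 (by decide +kernel) ?_
    refine jn 642 (by decide +kernel) ?_
    refine jn 643 (by decide +kernel) ?_
    refine jn 644 (by decide +kernel) ?_
    refine jn 645 (by decide +kernel) ?_
    refine jn 646 (by decide +kernel) ?_
    refine jn 647 (by decide +kernel) ?_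
    refine jn 648 (by decide +kernel) ?_
    exact je (by decide +kernel)
  · refine fin 72 17445 T138_1 ?_
    refine jn 8 (by decide +kernel) ?_
    refine jn 11 (by decide +kernel) ?_
    refine jn 16 (by decide +kernel) ?_
    refine jn 26 (by decide +kernel) ?_
    refine jn 33 (by decide +kernel) ?_
    refine jn 44 (by decide +kernel) ?_
    refine jn 54 (by decide +kernel) ?_
    refine jn 59 (by decide +kernel) ?_
    refine jn 70 (by decide +kernel) ?_
    refine jn 80 (by decide +kernel) ?_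
    refine jn 94 (by decide +kernel) ?_
    refine jn 97 (by decide +kernel) ?_
    refine jn 104 (by decide +kernel) ?_
    refine jn 117 (by decide +kernel) ?_
    refine jn 128 (by decide +kernel) ?_
    refine jn 135 (by decide +kernel) ?_
    refine jn 144 (by decide +kernel) ?_
    refine jn 159 (by decide +kernel) ?_
    refine jn 166 (by decide +kernel) ?_
    refine jn 178 (by decide +kernel) ?_
    refine jn 186 (by decide +kernel) ?_
    refine jn 199 (by decide +kernel) ?_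
    refine jn 205 (by decide +kernel) ?_
    refine jn 217 (by decide +kernel) ?_
    refine jn 225 (by decide +kernel) ?_
    refine jn 238 (by decide +kernel) ?_
    refine jn 240 (by decide +kernel) ?_
    refine jn 242 (by decide +kernel) ?_
    refine jn 244 (by decide +kernel) ?_
    refine jn 262 (by decide +kernel) ?_
    refine jn 274 (by decide +kernel) ?_
    refine jn 285 (by decide +kernel) ?_
    refine jn 294 (by decide +kernel) ?_
    refine jn 308 (by decide +kernel) ?_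
    refine jn 319 (by decide +kernel) ?_
    refine jn 320 (by decide +kernel) ?_
    refine jn 325 (by decide +kernel) ?_
    refine jn 328 (by decide +kernel) ?_
    refine jn 338 (by decide +kernel) ?_
    refine jn 343 (by decide +kernel) ?_
    refine jn 346 (by decide +kernel) ?_
    refine jn 355 (by decide +kernel) ?_
    refine jn 356 (by decide +kernel) ?_
    refine jn 357 (by decide +kernel) ?_
    refine jn 358 (by decide +kernel) ?_
    refine jn 359 (by decide +kernel) ?_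
    refine jn 360 (by decide +kernel) ?_
    refine jn 367 (by decide +kernel) ?_
    refine jn 380 (by decide +kernel) ?_
    refine jn 394 (by decide +kernel) ?_
    refine jn 408 (by decide +kernel) ?_
    refine jn 421 (by decide +kernel) ?_
    refine jn 435 (by decide +kernel) ?_
    refine jn 451 (by decide +kernel) ?_
    refine jn 466 (by decide +kernel) ?_
    refine jn 480 (by decide +kernel) ?_
    refine jn 495 (by decide +kernel) ?_
    refine jn 509 (by decide +kernel) ?_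
    refine jn 524 (by decide +kernel) ?_
    refine jn 539 (by decide +kernel) ?_
    refine jn 554 (by decide +kernel) ?_
    refine jn 570 (by decide +kernel) ?_
    refine jn 585 (by decide +kernel) ?_
    refine jn 596 (by decide +kernel) ?_
    refine jn 610 (by decide +kernel) ?_
    refine jn 622 (by decide +kernel) ?_
    refine jn 634 (by decide +kernel) ?_
    refine jn 647 (by decide +kernel) ?_
    refine jn 658 (by decide +kernel) ?_
    refine jn 672 (by decide +kernel) ?_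
    refine jn 682 (by decide +kernel) ?_
    refine jn 695 (by decide +kernel) ?_
    refine jn 713 (by decide +kernel) ?_
    refine jn 727 (by decide +kernel) ?_
    refine jn 741 (by decide +kernel) ?_
    refine jn 753 (by decide +kernel) ?_
    refine jn 771 (by decide +kernel) ?_
    refine jn 782 (by decide +kernel) ?_
    refine jn 799 (by decide +kernel) ?_
    refine jn 829 (by decide +kernel) ?_
    refine jn 909 (by decide +kernel) ?_
    refine jn 980 (by decide +kernel) ?_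
    refine jn 996 (by decide +kernel) ?_
    refine jn 1014 (by decide +kernel) ?_
    refine jn 1030 (by decide +kernel) ?_
    refine jn 1035 (by decide +kernel) ?_
    refine jn 1050 (by decide +kernel) ?_
    refine jn 1075 (by decide +kernel) ?_
    refine jn 1086 (by decide +kernel) ?_
    refine jn 1103 (by decide +kernel) ?_
    refine jn 1121 (by decide +kernel) ?_
    refine jn 1138 (by decide +kernel) ?_
    refine jn 1157 (by decide +kernel) ?_
    refine jn 1183 (by decide +kernel) ?_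
    refine jn 1204 (by decide +kernel) ?_
    refine jn 1221 (by decide +kernel) ?_
    refine jn 1237 (by decide +kernel) ?_
    refine jn 1257 (by decide +kernel) ?_
    refine jn 1288 (by decide +kernel) ?_
    refine jn 1344 (by decide +kernel) ?_
    refine jn 1450 (by decide +kernel) ?_
    refine jn 1477 (by decide +kernel) ?_
    refine jn 1486 (by decide +kernel) ?_
    refine jn 1493 (by decide +kernel) ?_
    refine jn 1523 (by decide +kernel) ?_
    refine jn 1541 (by decide +kernel) ?_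
    refine jn 1555 (by decide +kernel) ?_
    refine jn 1561 (by decide +kernel) ?_
    refine jn 1600 (by decide +kernel) ?_
    refine jn 1627 (by decide +kernel) ?_
    refine jn 1632 (by decide +kernel) ?_
    refine jn 1641 (by decide +kernel) ?_
    refine jn 1656 (by decide +kernel) ?_
    refine jn 1673 (by decide +kernel) ?_
    refine jn 1688 (by decide +kernel) ?_
    refine jn 1700 (by decide +kernel) ?_
    refine jn 1705 (by decide +kernel) ?_
    refine jn 1711 (by decide +kernel) ?_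
    refine jn 1750 (by decide +kernel) ?_
    refine jn 1946 (by decide +kernel) ?_
    refine jn 2016 (by decide +kernel) ?_
    refine jn 2032 (by decide +kernel) ?_
    refine jn 2052 (by decide +kernel) ?_
    refine jn 2064 (by decide +kernel) ?_
    refine jn 2078 (by decide +kernel) ?_
    refine jn 2094 (by decide +kernel) ?_
    refine jn 2109 (by decide +kernel) ?_
    refine jn 2121 (by decide +kernel) ?_
    refine jn 2138 (by decide +kernel) ?_
    refine jn 2149 (by decide +kernel) ?_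
    refine jn 2169 (by decide +kernel) ?_
    refine jn 2206 (by decide +kernel) ?_
    refine jn 2227 (by decide +kernel) ?_
    refine jn 2230 (by decide +kernel) ?_
    refine jn 2245 (by decide +kernel) ?_
    refine jn 2265 (by decide +kernel) ?_
    refine jn 2277 (by decide +kernel) ?_
    refine jn 2291 (by decide +kernel) ?_
    refine jn 2307 (by decide +kernel) ?_
    refine jn 2322 (by decide +kernel) ?_
    refine jn 2334 (by decide +kernel) ?_
    refine jn 2347 (by decide +kernel) ?_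
    refine jn 2362 (by decide +kernel) ?_
    refine jn 2382 (by decide +kernel) ?_
    refine jn 2419 (by decide +kernel) ?_
    refine jn 2451 (by decide +kernel) ?_
    refine jn 2527 (by decide +kernel) ?_
    refine jn 2596 (by decide +kernel) ?_
    refine jn 2647 (by decide +kernel) ?_
    refine jn 2734 (by decide +kernel) ?_
    refine jn 2755 (by decide +kernel) ?_
    refine jn 2809 (by decide +kernel) ?_
    refine jn 2834 (by decide +kernel) ?_
    refine jn 2885 (by decide +kernel) ?_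
    refine jn 2914 (by decide +kernel) ?_
    refine jn 2933 (by decide +kernel) ?_
    refine jn 2969 (by decide +kernel) ?_
    refine jn 3014 (by decide +kernel) ?_
    refine jn 3079 (by decide +kernel) ?_
    refine jn 3127 (by decide +kernel) ?_
    refine jn 3186 (by decide +kernel) ?_
    refine jn 3250 (by decide +kernel) ?_
    refine jn 3334 (by decide +kernel) ?_
    refine jn 3401 (by decide +kernel) ?_
    refine jn 3472 (by decide +kernel) ?_
    refine jn 3515 (by decide +kernel) ?_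
    refine jn 3548 (by decide +kernel) ?_
    refine jn 3590 (by decide +kernel) ?_
    refine jn 3635 (by decide +kernel) ?_
    refine jn 3675 (by decide +kernel) ?_
    refine jn 3735 (by decide +kernel) ?_
    refine jn 3794 (by decide +kernel) ?_
    refine jn 3839 (by decide +kernel) ?_
    refine jn 3879 (by decide +kernel) ?_
    refine jn 3952 (by decide +kernel) ?_
    refine jn 4004 (by decide +kernel) ?_
    refine jn 4054 (by decide +kernel) ?_
    refine jn 4102 (by decide +kernel) ?_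
    refine jn 4143 (by decide +kernel) ?_
    refine jn 4191 (by decide +kernel) ?_
    refine jn 4227 (by decide +kernel) ?_
    refine jn 4276 (by decide +kernel) ?_
    refine jn 4329 (by decide +kernel) ?_
    refine jn 4374 (by decide +kernel) ?_
    refine jn 4411 (by decide +kernel) ?_
    refine jn 4458 (by decide +kernel) ?_
    refine jn 4491 (by decide +kernel) ?_
    refine jn 4547 (by decide +kernel) ?_
    refine jn 4602 (by decide +kernel) ?_
    refine jn 4638 (by decide +kernel) ?_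
    refine jn 4669 (by decide +kernel) ?_
    refine jn 4746 (by decide +kernel) ?_
    refine jn 4797 (by decide +kernel) ?_
    refine jn 4854 (by decide +kernel) ?_
    refine jn 4921 (by decide +kernel) ?_
    refine jn 5002 (by decide +kernel) ?_
    refine jn 5082 (by decide +kernel) ?_
    refine jn 5145 (by decide +kernel) ?_
    refine jn 5182 (by decide +kernel) ?_
    refine jn 5251 (by decide +kernel) ?_
    refine jn 5319 (by decide +kernel) ?_
    refine jn 5488 (by decide +kernel) ?_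
    refine jn 5683 (by decide +kernel) ?_
    refine jn 5791 (by decide +kernel) ?_
    refine jn 5906 (by decide +kernel) ?_
    refine jn 5975 (by decide +kernel) ?_
    refine jn 6092 (by decide +kernel) ?_
    refine jn 6192 (by decide +kernel) ?_
    refine jn 6272 (by decide +kernel) ?_
    refine jn 6402 (by decide +kernel) ?_
    refine jn 6530 (by decide +kernel) ?_
    refine jn 6631 (by decide +kernel) ?_
    refine jn 6745 (by decide +kernel) ?_
    refine jn 7044 (by decide +kernel) ?_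
    refine jn 7173 (by decide +kernel) ?_
    refine jn 7308 (by decide +kernel) ?_
    refine jn 7432 (by decide +kernel) ?_
    refine jn 7552 (by decide +kernel) ?_
    refine jn 7716 (by decide +kernel) ?_
    refine jn 7839 (by decide +kernel) ?_
    refine jn 7944 (by decide +kernel) ?_
    refine jn 8064 (by decide +kernel) ?_
    refine jn 8196 (by decide +kernel) ?_
    refine jn 8308 (by decide +kernel) ?_
    refine jn 8441 (by decide +kernel) ?_
    refine jn 8556 (by decide +kernel) ?_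
    refine jn 8781 (by decide +kernel) ?_
    refine jn 9145 (by decide +kernel) ?_
    refine jn 9365 (by decide +kernel) ?_
    refine jn 9513 (by decide +kernel) ?_
    refine jn 9619 (by decide +kernel) ?_
    refine jn 9712 (by decide +kernel) ?_
    refine jn 9796 (by decide +kernel) ?_
    refine jn 9878 (by decide +kernel) ?_
    refine jn 10005 (by decide +kernel) ?_
    refine jn 10459 (by decide +kernel) ?_
    refine jn 10677 (by decide +kernel) ?_
    refine jn 10843 (by decide +kernel) ?_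
    refine jn 10986 (by decide +kernel) ?_
    refine jn 11102 (by decide +kernel) ?_
    refine jn 11200 (by decide +kernel) ?_
    refine jn 11590 (by decide +kernel) ?_
    refine jn 11921 (by decide +kernel) ?_
    refine jn 12133 (by decide +kernel) ?_
    refine jn 12301 (by decide +kernel) ?_
    refine jn 12425 (by decide +kernel) ?_
    refine jn 12529 (by decide +kernel) ?_
    refine jn 12973 (by decide +kernel) ?_
    refine jn 13178 (by decide +kernel) ?_
    refine jn 13330 (by decide +kernel) ?_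
    refine jn 13470 (by decide +kernel) ?_
    refine jn 13599 (by decide +kernel) ?_
    refine jn 13688 (by decide +kernel) ?_
    refine jn 13782 (by decide +kernel) ?_
    refine jn 14214 (by decide +kernel) ?_
    refine jn 14503 (by decide +kernel) ?_
    refine jn 14715 (by decide +kernel) ?_
    refine jn 14847 (by decide +kernel) ?_
    refine jn 15010 (by decide +kernel) ?_
    refine jn 15118 (by decide +kernel) ?_
    refine jn 15772 (by decide +kernel) ?_
    refine jn 16052 (by decide +kernel) ?_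
    refine jn 16242 (by decide +kernel) ?_
    refine jn 16413 (by decide +kernel) ?_
    refine jn 17440 (by decide +kernel) ?_
    exact je (by decide +kernel)
  · refine fin 504 3137 T138_2 ?_
    refine jn 4 (by decide +kernel) ?_
    refine jn 5 (by decide +kernel) ?_
    refine jn 6 (by decide +kernel) ?_
    refine jn 7 (by decide +kernel) ?_
    refine jn 8 (by decide +kernel) ?_
    refine jn 9 (by decide +kernel) ?_
    refine jn 10 (by decide +kernel) ?_
    refine jn 11 (by decide +kernel) ?_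
    refine jn 12 (by decide +kernel) ?_
    refine jn 13 (by decide +kernel) ?_
    refine jn 14 (by decide +kernel) ?_
    refine jn 15 (by decide +kernel) ?_
    refine jn 16 (by decide +kernel) ?_
    refine jn 18 (by decide +kernel) ?_
    refine jn 19 (by decide +kernel) ?_
    refine jn 20 (by decide +kernel) ?_
    refine jn 21 (by decide +kernel) ?_
    refine jn 34 (by decide +kernel) ?_
    refine jn 36 (by decide +kernel) ?_
    refine jn 38 (by decide +kernel) ?_
    refine jn 42 (by decide +kernel) ?_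
    refine jn 45 (by decide +kernel) ?_
    refine jn 53 (by decide +kernel) ?_
    refine jn 54 (by decide +kernel) ?_
    refine jn 55 (by decide +kernel) ?_
    refine jn 56 (by decide +kernel) ?_
    refine jn 57 (by decide +kernel) ?_
    refine jn 58 (by decide +kernel) ?_
    refine jn 59 (by decide +kernel) ?_
    refine jn 60 (by decide +kernel) ?_
    refine jn 62 (by decide +kernel) ?_
    refine jn 69 (by decide +kernel) ?_
    refine jn 71 (by decide +kernel) ?_
    refine jn 76 (by decide +kernel) ?_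
    refine jn 79 (by decide +kernel) ?_
    refine jn 87 (by decide +kernel) ?_
    refine jn 90 (by decide +kernel) ?_
    refine jn 95 (by decide +kernel) ?_
    refine jn 105 (by decide +kernel) ?_
    refine jn 106 (by decide +kernel) ?_
    refine jn 107 (by decide +kernel) ?_
    refine jn 108 (by decide +kernel) ?_
    refine jn 109 (by decide +kernel) ?_
    refine jn 110 (by decide +kernel) ?_
    refine jn 111 (by decide +kernel) ?_
    refine jn 122 (by decide +kernel) ?_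
    refine jn 125 (by decide +kernel) ?_
    refine jn 134 (by decide +kernel) ?_
    refine jn 136 (by decide +kernel) ?_
    refine jn 140 (by decide +kernel) ?_
    refine jn 151 (by decide +kernel) ?_
    refine jn 155 (by decide +kernel) ?_
    refine jn 166 (by decide +kernel) ?_
    refine jn 176 (by decide +kernel) ?_
    refine jn 177 (by decide +kernel) ?_
    refine jn 178 (by decide +kernel) ?_
    refine jn 182 (by decide +kernel) ?_
    refine jn 189 (by decide +kernel) ?_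
    refine jn 190 (by decide +kernel) ?_
    refine jn 191 (by decide +kernel) ?_
    refine jn 195 (by decide +kernel) ?_
    refine jn 202 (by decide +kernel) ?_
    refine jn 203 (by decide +kernel) ?_
    refine jn 204 (by decide +kernel) ?_
    refine jn 208 (by decide +kernel) ?_
    refine jn 215 (by decide +kernel) ?_
    refine jn 216 (by decide +kernel) ?_
    refine jn 225 (by decide +kernel) ?_
    refine jn 227 (by decide +kernel) ?_
    refine jn 228 (by decide +kernel) ?_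
    refine jn 238 (by decide +kernel) ?_
    refine jn 241 (by decide +kernel) ?_
    refine jn 248 (by decide +kernel) ?_
    refine jn 249 (by decide +kernel) ?_
    refine jn 259 (by decide +kernel) ?_
    refine jn 262 (by decide +kernel) ?_
    refine jn 269 (by decide +kernel) ?_
    refine jn 270 (by decide +kernel) ?_
    refine jn 272 (by decide +kernel) ?_
    refine jn 280 (by decide +kernel) ?_
    refine jn 283 (by decide +kernel) ?_
    refine jn 293 (by decide +kernel) ?_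
    refine jn 299 (by decide +kernel) ?_
    refine jn 300 (by decide +kernel) ?_
    refine jn 304 (by decide +kernel) ?_
    refine jn 310 (by decide +kernel) ?_
    refine jn 314 (by decide +kernel) ?_
    refine jn 323 (by decide +kernel) ?_
    refine jn 329 (by decide +kernel) ?_
    refine jn 333 (by decide +kernel) ?_
    refine jn 339 (by decide +kernel) ?_
    refine jn 343 (by decide +kernel) ?_
    refine jn 349 (by decide +kernel) ?_
    refine jn 353 (by decide +kernel) ?_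
    refine jn 361 (by decide +kernel) ?_
    refine jn 368 (by decide +kernel) ?_
    refine jn 377 (by decide +kernel) ?_
    refine jn 383 (by decide +kernel) ?_
    refine jn 391 (by decide +kernel) ?_
    refine jn 398 (by decide +kernel) ?_
    refine jn 401 (by decide +kernel) ?_
    refine jn 407 (by decide +kernel) ?_
    refine jn 409 (by decide +kernel) ?_
    refine jn 415 (by decide +kernel) ?_
    refine jn 417 (by decide +kernel) ?_
    refine jn 426 (by decide +kernel) ?_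
    refine jn 434 (by decide +kernel) ?_
    refine jn 440 (by decide +kernel) ?_
    refine jn 442 (by decide +kernel) ?_
    refine jn 448 (by decide +kernel) ?_
    refine jn 451 (by decide +kernel) ?_
    refine jn 459 (by decide +kernel) ?_
    refine jn 467 (by decide +kernel) ?_
    refine jn 475 (by decide +kernel) ?_
    refine jn 481 (by decide +kernel) ?_
    refine jn 482 (by decide +kernel) ?_
    refine jn 483 (by decide +kernel) ?_
    refine jn 484 (by decide +kernel) ?_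
    refine jn 501 (by decide +kernel) ?_
    refine jn 516 (by decide +kernel) ?_
    refine jn 526 (by decide +kernel) ?_
    refine jn 534 (by decide +kernel) ?_
    refine jn 546 (by decide +kernel) ?_
    refine jn 554 (by decide +kernel) ?_
    refine jn 559 (by decide +kernel) ?_
    refine jn 560 (by decide +kernel) ?_
    refine jn 577 (by decide +kernel) ?_
    refine jn 586 (by decide +kernel) ?_
    refine jn 598 (by decide +kernel) ?_
    refine jn 610 (by decide +kernel) ?_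
    refine jn 617 (by decide +kernel) ?_
    refine jn 629 (by decide +kernel) ?_
    refine jn 641 (by decide +kernel) ?_
    refine jn 657 (by decide +kernel) ?_
    refine jn 659 (by decide +kernel) ?_
    refine jn 674 (by decide +kernel) ?_
    refine jn 687 (by decide +kernel) ?_
    refine jn 700 (by decide +kernel) ?_
    refine jn 706 (by decide +kernel) ?_
    refine jn 724 (by decide +kernel) ?_
    refine jn 736 (by decide +kernel) ?_
    refine jn 749 (by decide +kernel) ?_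
    refine jn 762 (by decide +kernel) ?_
    refine jn 774 (by decide +kernel) ?_
    refine jn 839 (by decide +kernel) ?_
    refine jn 840 (by decide +kernel) ?_
    refine jn 852 (by decide +kernel) ?_
    refine jn 855 (by decide +kernel) ?_
    refine jn 856 (by decide +kernel) ?_
    refine jn 862 (by decide +kernel) ?_
    refine jn 864 (by decide +kernel) ?_
    refine jn 865 (by decide +kernel) ?_
    refine jn 878 (by decide +kernel) ?_
    refine jn 879 (by decide +kernel) ?_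
    refine jn 880 (by decide +kernel) ?_
    refine jn 886 (by decide +kernel) ?_
    refine jn 891 (by decide +kernel) ?_
    refine jn 892 (by decide +kernel) ?_
    refine jn 903 (by decide +kernel) ?_
    refine jn 911 (by decide +kernel) ?_
    refine jn 918 (by decide +kernel) ?_
    refine jn 924 (by decide +kernel) ?_
    refine jn 925 (by decide +kernel) ?_
    refine jn 934 (by decide +kernel) ?_
    refine jn 939 (by decide +kernel) ?_
    refine jn 940 (by decide +kernel) ?_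
    refine jn 954 (by decide +kernel) ?_
    refine jn 959 (by decide +kernel) ?_
    refine jn 960 (by decide +kernel) ?_
    refine jn 974 (by decide +kernel) ?_
    refine jn 978 (by decide +kernel) ?_
    refine jn 983 (by decide +kernel) ?_
    refine jn 990 (by decide +kernel) ?_
    refine jn 994 (by decide +kernel) ?_
    refine jn 998 (by decide +kernel) ?_
    refine jn 999 (by decide +kernel) ?_
    refine jn 1006 (by decide +kernel) ?_
    refine jn 1028 (by decide +kernel) ?_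
    refine jn 1034 (by decide +kernel) ?_
    refine jn 1035 (by decide +kernel) ?_
    refine jn 1036 (by decide +kernel) ?_
    refine jn 1039 (by decide +kernel) ?_
    refine jn 1040 (by decide +kernel) ?_
    refine jn 1047 (by decide +kernel) ?_
    refine jn 1050 (by decide +kernel) ?_
    refine jn 1054 (by decide +kernel) ?_
    refine jn 1066 (by decide +kernel) ?_
    refine jn 1079 (by decide +kernel) ?_
    refine jn 1084 (by decide +kernel) ?_
    refine jn 1087 (by decide +kernel) ?_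
    refine jn 1152 (by decide +kernel) ?_
    refine jn 1159 (by decide +kernel) ?_
    refine jn 1162 (by decide +kernel) ?_
    refine jn 1168 (by decide +kernel) ?_
    refine jn 1179 (by decide +kernel) ?_
    refine jn 1182 (by decide +kernel) ?_
    refine jn 1188 (by decide +kernel) ?_
    refine jn 1191 (by decide +kernel) ?_
    refine jn 1192 (by decide +kernel) ?_
    refine jn 1204 (by decide +kernel) ?_
    refine jn 1208 (by decide +kernel) ?_
    refine jn 1218 (by decide +kernel) ?_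
    refine jn 1224 (by decide +kernel) ?_
    refine jn 1230 (by decide +kernel) ?_
    refine jn 1243 (by decide +kernel) ?_
    refine jn 1260 (by decide +kernel) ?_
    refine jn 1270 (by decide +kernel) ?_
    refine jn 1278 (by decide +kernel) ?_
    refine jn 1283 (by decide +kernel) ?_
    refine jn 1294 (by decide +kernel) ?_
    refine jn 1304 (by decide +kernel) ?_
    refine jn 1315 (by decide +kernel) ?_
    refine jn 1323 (by decide +kernel) ?_
    refine jn 1324 (by decide +kernel) ?_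
    refine jn 1331 (by decide +kernel) ?_
    refine jn 1339 (by decide +kernel) ?_
    refine jn 1347 (by decide +kernel) ?_
    refine jn 1356 (by decide +kernel) ?_
    refine jn 1448 (by decide +kernel) ?_
    refine jn 1562 (by decide +kernel) ?_
    refine jn 1720 (by decide +kernel) ?_
    refine jn 1843 (by decide +kernel) ?_
    refine jn 2066 (by decide +kernel) ?_
    refine jn 2248 (by decide +kernel) ?_
    refine jn 2402 (by decide +kernel) ?_
    refine jn 2630 (by decide +kernel) ?_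
    refine jn 2919 (by decide +kernel) ?_
    exact je (by decide +kernel)

end Pool.Agent.MP_2339ce_nt.NR
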