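import Pool.Agent.MP_2339ce_nt.Q2.NC.L5
import Pool.Agent.MP_2339ce_nt.Q2.NC.L6
import Pool.Agent.MP_2339ce_nt.Q2.NC.L10
import Pool.Agent.MP_2339ce_nt.Q2.CkI

/-! Block NR: runs. -/

set_option autoImplicit false
set_option maxRecDepth 100000

noncomputable section

namespace Pool.Agent.MP_2339ce_nt.NR

open Q2.Top

def T140_0 : Ph :=
  (.na 806 16 (.na 518 6 (.na 1 2 .ne (.na 517 3 (.nx 516 3329023 (.nr 515 1763489 (.nx 504 2642247
  (.nx 483 1321124 (.nx 4 228 (.nx 3 227 (.nr 2 29 (.lg 0 true 1 41 41 5 0 1008) (.l1 .sk)) (.l1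
  .sk)) (.nx 112 36780 (.nr 69 262145 (.lg 0 false 65 101 107 13 0 720720) (.nx 95 408 (.lg 0 false
  26 83 83 11 0 13104) (.nx 96 26007 .out (.nr 111 311745 (.lg 0 false 15 97 101 9 0 55440)
  .out)))) (.nr 482 311745 (.nr 177 941 (.lg 0 true 65 83 97 13 0 65520) (.nx 481 1048577 (.nr 190
  3446 (.lg 2 true 13 97 97 9 126476 13104) (.nx 480 832257 (.nx 387 165142 (.nx 255 52017 (.lg 1
  false 65 97 107 13 218541 720720) (.nr 386 262145 (.nx 320 82572 (.lg 1 false 65 97 107 13 129957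
  720720) (.nr 385 220437 (.lg 1 true 65 97 107 13 68854 720720) .out)) .out)) (.nr 479 155873 (.nr
  400 12637 (.lg 2 true 13 89 97 9 27412 13104) (.nx 465 262145 (.lg 1 true 65 97 103 13 24354
  720720) (.nr 478 92683 (.lg 2 false 13 103 103 9 9132 720720) .out))) .out)) .out)) .out))
  .out))) (.nr 503 154 (.lg 0 true 20 83 83 11 0 5040) .out)) (.nr 514 9 (.lg 0 true 10 67 67 9 0
  720) .out)) .out) .out) .ne)) (.na 715 7 (.nx 714 21137969 (.nr 713 1048577 (.nx 521 228 (.nx 520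
  227 (.nr 519 74 (.lg 0 true 1 37 37 7 0 720) (.l1 .sk)) (.l1 .sk)) (.nr 705 623489 (.nx 663
  2642247 (.nx 651 832257 (.nx 542 36608 (.nr 534 220437 (.lg 0 false 13 103 107 19 0 720720) (.nx
  541 814 (.lg 0 false 7 83 83 13 0 1008) .out)) (.nr 650 311745 (.nr 560 3451 (.nr 553 941 (.lg 0
  true 11 83 89 17 0 7920) (.lg 2 true 7 83 89 13 100384 5040)) (.nx 572 52015 (.nr 571 220437 (.lg
  1 false 11 101 103 17 155305 720720) .out) (.nx 586 82570 (.nr 585 262145 (.lg 1 false 13 101 107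
  19 129962 720720) .out) (.nx 635 330282 (.nx 627 262145 (.nx 619 208065 (.nx 608 152899 (.nx 597
  112360 (.lg 1 false 11 101 107 17 97346 720720) (.lg 1 false 11 101 107 17 71537 720720)) (.lg 1
  true 11 101 107 17 52570 720720)) (.nr 626 262145 (.lg 1 true 7 101 107 13 32490 720720) .out))
  (.nr 634 131073 (.lg 1 true 7 89 101 13 12905 5040) .out)) (.nr 649 46342 (.nr 642 12646 (.lg 2
  true 7 83 89 13 27373 5040) (.lg 2 false 7 83 89 13 7470 5040)) .out))))) .out)) (.nr 662 257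
  (.lg 0 true 11 83 83 17 0 1584) .out)) (.nr 704 28 (.nx 676 5284493 (.lg 0 true 13 73 73 13 0
  1872) (.lg 0 true 28 79 79 13 0 1008)) .out)) (.nx 712 324 (.lg 0 false 7 73 73 13 0 5040)
  .out))) .out) .out) (.na 716 14 .ne (.nx 805 2642247 (.nr 804 1246976 (.nx 720 324 (.nx 718 227
  (.nr 717 170 (.lg 0 true 1 31 31 11 0 5040) (.l1 .sk)) (.nx 719 228 (.l1 .sk) (.l1 (.ls 83 43
  3788)))) (.nr 803 1048577 (.nx 721 408 (.l1 (.ls 83 43 4395)) (.nr 802 741457 (.nx 740 41285 (.nr
  734 220437 (.lg 0 false 13 97 103 19 0 720720) (.nx 739 1627 (.lg 0 false 5 83 83 13 0 5040)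
  .out)) (.nr 801 311745 (.nx 793 660563 (.nr 745 1237 (.lg 0 true 5 83 83 13 0 5040) (.nx 759
  82570 (.nr 758 262145 (.lg 1 false 13 97 103 19 163740 720720) .out) (.nx 772 165142 (.lg 1 false
  13 97 103 19 97346 720720) (.nr 792 262145 (.nr 775 9004 (.lg 2 true 3 83 83 13 60610 1008) (.nx
  788 330282 (.lg 1 true 13 97 103 19 40934 720720) (.nr 791 77937 (.lg 2 false 3 89 89 13 8327
  5040) .out))) .out)))) (.nr 800 65 (.lg 0 true 7 71 71 13 0 1008) .out)) .out)) .out)) .out))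
  .out) .out)))) (.na 910 23 (.na 807 18 .ne (.na 861 22 (.nx 860 2642247 (.nr 859 1246976 (.nr 808
  10 .s1 (.nx 810 227 (.nr 809 235 (.lg 0 true 1 29 29 13 0 144) (.l1 .sk)) (.nx 811 228 (.l1 .sk)
  (.nx 812 408 (.l1 (.ls 83 47 6363)) (.nr 858 741457 (.nr 852 311745 (.nx 846 660563 (.nr 840
  220437 (.nx 817 51691 (.lg 0 false 5 101 103 19 0 55440) (.nr 822 1726 (.lg 0 true 5 79 79 19 0
  720) (.nx 839 524289 (.nx 827 103707 (.lg 1 false 5 97 101 19 109988 55440) (.nx 832 208065 (.lg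
  1 true 5 97 101 19 54822 55440) (.nr 838 155873 (.nr 833 4475 (.lg 2 false 1 73 73 13 34477 144)
  (.lg 2 false 5 89 97 19 19330 5040)) .out))) .out))) (.nx 845 13005 (.lg 0 false 5 83 83 19 0
  720) .out)) (.nr 851 129 (.lg 0 true 5 67 67 19 0 720) .out)) (.nx 857 1627 (.lg 0 false 5 79 79
  19 0 720) .out)) .out))))) .out) .out) (.nx 909 2642247 (.nr 908 1246976 (.nr 862 17 .s1 (.nx 865
  228 (.nx 864 227 (.nr 863 245 (.lg 0 false 1 29 29 9 0 1584) (.l1 .sk)) (.l1 .sk)) (.nx 866 408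
  (.l1 (.ls 79 47 5206)) (.nr 907 741457 (.nr 901 311745 (.nx 895 660563 (.nr 889 220437 (.nx 871
  51691 (.lg 0 false 5 97 101 19 0 7920) (.nr 876 1726 (.lg 0 true 5 79 79 19 0 7920) (.nx 888
  524289 (.nx 881 103707 (.lg 1 false 5 89 97 19 109988 7920) (.lg 2 false 7 101 103 19 54822
  720720)) .out))) (.nx 894 13005 (.lg 0 false 5 83 83 19 0 7920) .out)) (.nr 900 129 (.lg 0 true 5
  67 67 19 0 7920) .out)) (.nx 906 1627 (.lg 0 false 5 79 79 19 0 7920) .out)) .out)))) .out)
  .out))) (.na 911 38 .ne (.na 941 42 (.nx 940 2642247 (.nr 939 881745 (.nr 912 35 .s1 (.nx 916 408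
  (.nx 914 227 (.nr 913 448 (.lg 0 true 1 23 23 13 0 144) (.l1 .sk)) (.nx 915 228 (.l1 .sk) (.l1
  (.ls 73 43 3015)))) (.nr 938 623489 (.nx 927 65537 (.nr 921 185365 (.lg 0 false 5 97 97 17 0
  5040) (.nx 926 16385 (.lg 0 false 5 89 89 17 0 720) .out)) (.nr 937 77937 (.nx 931 262145 (.nr
  928 1214 (.lg 0 false 1 73 73 13 0 144) (.lg 2 false 3 83 83 13 30729 144)) (.nr 936 257 (.lg 0
  true 5 67 67 17 0 720) .out)) .out)) .out))) .out) .out) (.nx 969 2642247 (.nr 968 881745 (.nr
  942 40 .s1 (.nx 946 408 (.nx 944 227 (.nr 943 491 (.lg 0 false 1 29 29 23 0 1008) (.l1 .sk)) (.nx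
  945 228 (.l1 .sk) (.l1 (.ls 79 47 2728)))) (.nr 967 623489 (.nr 961 185365 (.nx 951 65537 (.lg 0
  false 5 89 97 31 0 5040) (.nr 960 77937 (.nx 954 262145 (.nr 952 1306 (.lg 0 false 1 73 73 23 0
  1008) (.lg 2 false 2 83 89 29 30729 1008)) (.nr 959 257 (.lg 0 true 5 71 71 31 0 5040) .out))
  .out)) (.nx 966 16385 (.lg 0 false 5 83 97 31 0 5040) .out)) .out))) .out) .out)))))

def T140_1 : Ph :=
  (.na 645 149 (.na 401 85 (.na 244 46 (.na 135 33 (.na 83 27 (.na 56 24 (.na 30 23 (.nx 29 1321124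
  (.nr 28 1048577 (.nr 1 17 .s1 (.nx 5 205 (.nx 3 120 (.nr 2 179 (.lg 0 true 1 23 23 13 0 720) (.l1
  .sk)) (.nx 4 121 (.l1 .sk) (.l1 (.ls 79 41 1372)))) (.nr 27 623489 (.nx 6 324 (.l1 (.ls 73 43
  3150)) (.nr 26 220437 (.nx 15 16385 (.nr 13 131073 (.lg 0 false 7 83 89 19 0 5040) (.nx 14 814
  (.lg 0 true 1 71 71 13 0 240) .out)) (.nr 25 46342 (.nr 22 498 (.lg 0 true 7 73 73 19 0 1680)
  (.nx 24 165142 (.lg 2 true 2 89 89 13 20418 720) .out)) .out)) .out)) .out))) .out) .out) (.nx 55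
  1321124 (.nr 54 1048577 (.nr 31 21 .s1 (.nx 35 205 (.nx 33 120 (.nr 32 186 (.lg 0 false 1 23 23
  11 0 720) (.l1 .sk)) (.nx 34 121 (.l1 .sk) (.l1 (.ls 79 29 1193)))) (.nr 53 185365 (.nx 42 16385
  (.lg 0 false 7 89 89 16 0 5040) (.nr 52 38969 (.nr 49 513 (.lg 0 true 7 73 73 16 0 840) (.nx 51
  82572 (.lg 2 true 2 83 83 13 17178 240) .out)) .out)) .out))) .out) .out)) (.na 82 25 (.nx 81
  1321124 (.nr 80 1048577 (.nr 57 22 .s1 (.nx 61 205 (.nx 59 120 (.nr 58 194 (.lg 0 true 1 23 23 13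
  0 720) (.l1 .sk)) (.nx 60 121 (.l1 .sk) (.l1 (.ls 83 41 1144)))) (.nr 79 185365 (.nx 68 16385
  (.lg 0 false 7 83 89 23 0 5040) (.nr 78 38969 (.nr 75 513 (.lg 0 true 7 73 73 23 0 5040) (.nx 77
  82572 (.lg 2 true 2 83 83 13 17178 720) .out)) .out)) .out))) .out) .out) (.lg 0 false 1 0 0 7 0
  24))) (.na 110 31 (.na 84 29 (.lg 0 false 1 0 0 7 0 24) (.nx 109 1321124 (.nr 108 1048577 (.nr 85
  27 .s1 (.nx 88 121 (.nx 87 120 (.nr 86 241 (.lg 0 false 1 19 19 13 0 720) (.l1 .sk)) (.l1 .sk))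
  (.nx 97 16385 (.nx 89 205 (.l1 (.ls 79 23 947)) (.nr 96 185365 (.lg 0 false 7 83 89 16 0 5040)
  .out)) (.nr 107 38969 (.nr 104 513 (.lg 0 true 7 71 73 16 0 840) (.nx 106 82572 (.lg 2 true 2 83
  83 16 17178 240) .out)) .out)))) .out) .out)) (.na 134 32 (.nx 133 1321124 (.nr 132 1048577 (.nr
  111 30 .s1 (.nx 127 82572 (.nx 113 120 (.nr 112 249 (.l1 (.ls 19 19 467)) (.l1 .sk)) (.nx 114 121
  (.l1 .sk) (.nx 123 26009 (.nx 115 205 (.l1 (.ls 79 23 886)) (.nr 122 185365 (.lg 0 false 7 83 83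
  16 0 840) .out)) (.nr 126 32769 (.lg 0 false 3 79 79 16 0 360) .out)))) (.nr 131 513 (.lg 0 true
  4 73 73 16 0 240) .out))) .out) .out) .ne))) (.na 192 40 (.na 156 37 (.na 155 36 (.nx 154 1321124
  (.nr 153 370729 (.nr 136 32 .s1 (.nx 138 120 (.nr 137 280 (.l1 (.ls 23 29 439)) (.l1 .sk)) (.nx
  139 121 (.l1 .sk) (.nx 146 13005 (.lg 0 false 7 83 89 19 0 55440) (.nr 152 23172 (.nr 149 217
  (.lg 0 true 3 67 67 17 0 3960) (.nx 151 82572 (.lg 2 true 2 79 79 16 22831 7920) .out)) .out)))))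
  .out) .out) (.lg 0 false 1 0 0 7 0 24)) (.na 176 39 (.nx 175 1321124 (.nr 174 370729 (.nr 157 36
  .s1 (.nx 167 13005 (.nx 159 120 (.nr 158 303 (.l1 (.ls 19 19 392)) (.l1 .sk)) (.nx 160 121 (.l1
  .sk) (.lg 0 false 7 83 89 16 0 5040))) (.nr 173 23172 (.nr 171 303 (.lg 0 true 4 67 67 16 0 240)
  (.nx 172 82572 (.lg 2 true 1 79 79 16 16351 120) .out)) .out))) .out) .out) (.nx 191 1321124 (.nr
  190 370729 (.nr 177 38 .s1 (.nx 183 13005 (.nx 179 120 (.nr 178 311 (.l1 (.ls 23 29 372)) (.l1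
  .sk)) (.nx 180 121 (.l1 .sk) (.lg 0 false 3 89 89 17 0 4680))) (.nr 189 23172 (.nr 186 217 (.lg 0
  true 3 67 67 17 0 4680) (.nx 188 82572 (.lg 2 true 2 79 79 17 22831 9360) .out)) .out))) .out)
  .out))) (.na 227 44 (.na 212 43 (.nx 211 1321124 (.nr 210 370729 (.nr 193 39 .s1 (.nx 203 13005
  (.nx 195 120 (.nr 194 334 (.l1 (.ls 19 31 362)) (.l1 .sk)) (.nx 196 121 (.l1 .sk) (.lg 0 false 7
  79 83 23 0 5040))) (.nr 209 23172 (.nr 207 334 (.lg 0 true 4 61 61 19 0 240) (.nx 208 82572 (.lg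
  2 true 1 73 73 13 14834 720) .out)) .out))) .out) .out) (.nx 226 1321124 (.nr 225 370729 (.nr 213
  42 .s1 (.nx 219 13005 (.nx 215 120 (.nr 214 342 (.l1 (.ls 17 19 337)) (.l1 .sk)) (.nx 216 121
  (.l1 .sk) (.lg 0 false 3 89 89 16 0 720))) (.nr 224 23172 (.nr 222 342 (.lg 0 true 3 67 67 16 0
  360) (.nx 223 82572 (.lg 2 true 1 73 73 16 14487 120) .out)) .out))) .out) .out)) (.na 243 45
  (.nx 242 1321124 (.nr 241 370729 (.nr 228 43 .s1 (.nx 238 82572 (.nx 230 120 (.nr 229 350 (.l1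
  (.ls 29 31 330)) (.l1 .sk)) (.nx 231 121 (.l1 .sk) (.nx 236 20644 (.nr 233 77937 (.lg 0 false 2
  83 83 23 0 2640) (.nx 235 6503 (.lg 0 false 2 89 89 23 0 7920) .out)) (.nr 237 13779 (.lg 0 false
  1 89 89 19 0 7920) .out)))) (.nr 240 217 (.lg 0 true 2 71 71 23 0 2640) .out))) .out) .out) (.lg
  0 false 1 0 0 16 0 24))))) (.na 327 65 (.na 285 55 (.na 260 51 (.na 245 47 .ne (.nx 259 1321124
  (.nr 258 311745 (.nr 246 46 .s1 (.nx 252 10323 (.nx 248 120 (.nr 247 396 (.l1 (.ls 19 17 309))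
  (.l1 .sk)) (.nx 249 121 (.l1 .sk) (.lg 0 false 3 83 83 16 0 360))) (.nr 257 23172 (.nr 255 217
  (.lg 0 true 3 61 61 16 0 360) (.nx 256 82572 (.lg 2 true 1 79 79 16 22831 120) .out)) .out)))
  .out) .out)) (.na 272 52 (.nx 271 1321124 (.nr 270 311745 (.nr 261 50 .s1 (.nx 264 121 (.nx 263
  120 (.nr 262 404 (.l1 (.ls 16 29 285)) (.l1 .sk)) (.l1 .sk)) (.nx 266 10323 (.lg 0 true 2 83 83
  16 0 720) (.nr 269 23172 (.nr 267 217 (.lg 0 false 1 73 73 16 0 720) (.nx 268 82572 (.lg 2 true 1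
  79 79 16 22831 720) .out)) .out)))) .out) .out) (.nx 284 1321124 (.nr 283 311745 (.nr 273 51 .s1
  (.nx 276 121 (.nx 275 120 (.nr 274 427 (.l1 (.ls 31 29 279)) (.l1 .sk)) (.l1 .sk)) (.nx 278 10323
  (.lg 0 false 2 89 89 23 0 3120) (.nr 282 23172 (.nx 279 82572 (.lg 0 false 1 89 89 19 0 3120)
  (.nr 281 217 (.lg 0 true 2 67 67 23 0 3120) .out)) .out)))) .out) .out))) (.na 313 60 (.na 299 59
  (.nx 298 1321124 (.nr 297 311745 (.nr 286 54 .s1 (.nx 289 121 (.nx 288 120 (.nr 287 458 (.l1 (.ls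
  19 23 264)) (.l1 .sk)) (.l1 .sk)) (.nx 291 10323 (.lg 0 true 2 83 83 17 0 7920) (.nr 296 23172
  (.nr 294 458 (.lg 0 true 3 67 67 17 0 3960) (.nx 295 82572 (.lg 2 true 1 73 73 16 16247 7920)
  .out)) .out)))) .out) .out) (.nx 312 1321124 (.nr 311 311745 (.nr 300 58 .s1 (.nx 303 121 (.nx
  302 120 (.nr 301 466 (.l1 (.ls 17 17 247)) (.l1 .sk)) (.l1 .sk)) (.nr 308 23172 (.nx 305 82572
  (.lg 0 true 2 79 79 16 0 240) (.nr 307 217 (.lg 0 true 2 61 61 16 0 240) .out)) (.nx 310 10323
  (.lg 0 false 2 83 83 16 0 240) .out)))) .out) .out)) (.na 326 64 (.nx 325 1321124 (.nr 324 311745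
  (.nr 314 59 .s1 (.nx 319 10323 (.nx 316 120 (.nr 315 497 (.l1 (.ls 23 31 242)) (.l1 .sk)) (.nx
  317 121 (.l1 .sk) (.lg 0 true 2 83 83 23 0 720))) (.nr 323 23172 (.nr 321 217 (.lg 0 true 2 61 61
  23 0 720) (.nx 322 82572 (.lg 2 true 1 73 73 23 22831 720) .out)) .out))) .out) .out) .ne))) (.na
  385 72 (.na 357 68 (.na 342 67 (.nx 341 1321124 (.nr 340 524289 (.nr 328 65 .s1 (.nx 330 120 (.nr
  329 520 (.l1 (.ls 19 23 224)) (.l1 .sk)) (.nx 331 121 (.l1 .sk) (.nx 334 8193 (.lg 0 false 3 79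
  79 17 0 4680) (.nr 339 8193 (.nr 337 513 (.lg 0 true 3 67 67 17 0 4680) (.nx 338 82572 (.lg 2
  false 1 59 59 16 9658 1560) .out)) .out))))) .out) .out) (.nx 356 1321124 (.nr 355 524289 (.nr
  343 67 .s1 (.nx 349 8193 (.nx 345 120 (.nr 344 528 (.l1 (.ls 19 17 217)) (.l1 .sk)) (.nx 346 121
  (.l1 .sk) (.lg 0 false 3 83 83 16 0 360))) (.nr 354 8193 (.nr 352 513 (.lg 0 true 3 61 61 16 0
  360) (.nx 353 82572 (.lg 2 false 1 59 59 16 9658 120) .out)) .out))) .out) .out)) (.na 370 69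
  (.nx 369 1321124 (.nr 368 524289 (.nr 358 68 .s1 (.nx 361 121 (.nx 360 120 (.nr 359 536 (.l1 (.ls
  16 29 214)) (.l1 .sk)) (.l1 .sk)) (.nx 363 8193 (.lg 0 false 2 89 89 23 0 720) (.nr 367 8193 (.nr
  365 513 (.lg 0 true 2 71 71 23 0 240) (.nx 366 82572 (.lg 2 false 1 67 67 13 9658 240) .out))
  .out)))) .out) .out) (.nx 384 1321124 (.nr 383 524289 (.nr 371 69 .s1 (.nx 374 121 (.nx 373 120
  (.nr 372 559 (.l1 (.ls 19 19 211)) (.l1 .sk)) (.l1 .sk)) (.nx 377 8193 (.lg 0 false 3 79 79 17 0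
  360) (.nr 382 8193 (.nr 380 513 (.lg 0 true 3 67 67 17 0 360) (.nx 381 82572 (.lg 2 false 1 61 61
  16 9658 720) .out)) .out)))) .out) .out))) (.na 387 79 (.na 386 75 (.lg 0 false 1 0 0 16 0 24)
  (.lg 0 false 1 0 0 16 0 24)) (.na 400 81 (.nx 399 1321124 (.nr 398 524289 (.nr 388 79 .s1 (.nx
  391 121 (.nx 390 120 (.nr 389 629 (.l1 (.ls 17 17 185)) (.l1 .sk)) (.l1 .sk)) (.nx 393 8193 (.lg
  0 false 2 79 79 16 0 240) (.nr 397 8193 (.nr 395 513 (.lg 0 true 2 61 61 16 0 240) (.nx 396 82572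
  (.lg 2 false 1 53 53 16 9658 120) .out)) .out)))) .out) .out) (.lg 0 false 1 0 0 16 0 24))))))
  (.na 536 120 (.na 464 101 (.na 438 92 (.na 424 88 (.na 413 87 (.nx 412 1321124 (.nr 411 524289
  (.nr 402 85 .s1 (.nx 405 121 (.nx 404 120 (.nr 403 676 (.l1 (.ls 16 23 172)) (.l1 .sk)) (.l1
  .sk)) (.nx 406 8193 (.lg 0 true 1 83 83 16 0 120) (.nr 410 8193 (.nr 408 513 (.lg 0 true 2 61 61
  16 0 240) (.nx 409 82572 (.lg 2 false 1 59 59 16 9658 120) .out)) .out)))) .out) .out) (.nx 423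
  1321124 (.nr 422 524289 (.nr 414 87 .s1 (.nx 417 121 (.nx 416 120 (.nr 415 683 (.l1 (.ls 19 19
  168)) (.l1 .sk)) (.l1 .sk)) (.nx 418 8193 (.lg 0 true 1 89 89 16 0 720) (.nr 421 8193 (.nr 419
  513 (.lg 0 false 1 73 73 16 0 720) (.nx 420 82572 (.lg 2 false 1 59 59 16 9658 360) .out))
  .out)))) .out) .out)) (.na 437 91 (.nx 436 1321124 (.nr 435 524289 (.nr 425 88 .s1 (.nx 427 120
  (.nr 426 707 (.l1 (.ls 29 29 166)) (.l1 .sk)) (.nx 428 121 (.l1 .sk) (.nx 430 8193 (.lg 0 false 2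
  83 83 29 0 2640) (.nr 434 8193 (.nr 432 513 (.lg 0 true 2 71 71 29 0 2640) (.nx 433 82572 (.lg 2
  true 1 61 61 23 9658 2640) .out)) .out))))) .out) .out) .ne)) (.na 462 99 (.na 451 93 (.nx 450
  1321124 (.nr 449 524289 (.nr 439 92 .s1 (.nx 444 8193 (.nx 441 120 (.nr 440 722 (.l1 (.ls 19 19
  159)) (.l1 .sk)) (.nx 442 121 (.l1 .sk) (.lg 0 false 2 83 83 19 0 240))) (.nr 448 8193 (.nr 446
  513 (.lg 0 true 2 71 71 19 0 240) (.nx 447 82572 (.lg 2 true 1 61 61 19 9658 240) .out)) .out)))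
  .out) .out) (.nx 461 1321124 (.nr 460 524289 (.nr 452 93 .s1 (.nx 456 8193 (.nx 454 120 (.nr 453
  769 (.l1 (.ls 19 19 157)) (.l1 .sk)) (.nx 455 121 (.l1 .sk) (.lg 0 true 1 83 83 16 0 360))) (.nr
  459 8193 (.nr 457 513 (.lg 0 false 1 71 71 16 0 360) (.nx 458 82572 (.lg 2 false 1 59 59 16 9658
  360) .out)) .out))) .out) .out)) (.na 463 100 (.lg 0 false 1 0 0 16 0 24) (.lg 0 false 1 0 0 16 0
  24)))) (.na 501 113 (.na 489 108 (.na 476 104 (.nx 475 1321124 (.nr 474 524289 (.nr 465 101 .s1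
  (.nx 467 120 (.nr 466 808 (.l1 (.ls 19 17 145)) (.l1 .sk)) (.nx 468 121 (.l1 .sk) (.nx 469 8193
  (.lg 0 true 1 79 79 16 0 120) (.nr 473 8193 (.nr 471 513 (.lg 0 true 2 59 59 16 0 240) (.nx 472
  82572 (.lg 2 true 1 53 53 16 9658 120) .out)) .out))))) .out) .out) (.nx 488 1321124 (.nr 487
  524289 (.nr 477 104 .s1 (.nx 480 121 (.nx 479 120 (.nr 478 839 (.l1 (.ls 29 29 141)) (.l1 .sk))
  (.l1 .sk)) (.nx 482 8193 (.lg 0 false 2 83 83 29 0 3120) (.nr 486 8193 (.nr 484 513 (.lg 0 true 2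
  67 67 29 0 3120) (.nx 485 82572 (.lg 2 true 1 61 61 23 9658 3120) .out)) .out)))) .out) .out))
  (.na 490 111 (.lg 0 false 1 0 0 16 0 24) (.nx 500 1321124 (.nr 499 524289 (.nr 491 111 .s1 (.nx
  493 120 (.nr 492 878 (.l1 (.ls 17 19 132)) (.l1 .sk)) (.nx 494 121 (.l1 .sk) (.nx 495 8193 (.lg 0
  true 1 83 83 17 0 720) (.nr 498 8193 (.nr 496 513 (.lg 0 false 1 71 71 17 0 720) (.nx 497 82572
  (.lg 2 false 1 59 59 17 9658 720) .out)) .out))))) .out) .out))) (.na 523 116 (.na 512 115 (.nx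
  511 1321124 (.nr 510 524289 (.nr 502 113 .s1 (.nx 505 121 (.nx 504 120 (.nr 503 893 (.l1 (.ls 17
  16 130)) (.l1 .sk)) (.l1 .sk)) (.nx 506 8193 (.lg 0 true 1 73 73 16 0 120) (.nr 509 8193 (.nr 507
  513 (.lg 0 false 1 61 61 16 0 120) (.nx 508 82572 (.lg 2 false 1 47 47 16 9658 120) .out))
  .out)))) .out) .out) (.nx 522 1321124 (.nr 521 524289 (.nr 513 115 .s1 (.nx 517 8193 (.nx 515 120
  (.nr 514 901 (.l1 (.ls 19 17 128)) (.l1 .sk)) (.nx 516 121 (.l1 .sk) (.lg 0 true 1 83 83 16 0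
  120))) (.nr 520 8193 (.nr 518 513 (.lg 2 false 1 67 67 16 689283 120) (.nx 519 82572 (.lg 2 false
  1 59 59 16 9658 120) .out)) .out))) .out) .out)) (.na 535 117 (.nx 534 1321124 (.nr 533 524289
  (.nr 524 116 .s1 (.nx 527 121 (.nx 526 120 (.nr 525 909 (.l1 (.ls 23 23 127)) (.l1 .sk)) (.l1
  .sk)) (.nx 528 8193 (.lg 0 true 1 83 83 19 0 240) (.nr 532 8193 (.nr 530 909 (.lg 0 true 2 73 73
  23 0 240) (.nx 531 82572 (.lg 2 true 1 61 61 19 7306 240) .out)) .out)))) .out) .out) (.lg 0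
  false 1 0 0 16 0 24))))) (.na 595 135 (.na 570 128 (.na 558 124 (.na 547 121 (.nx 546 1321124
  (.nr 545 524289 (.nr 537 120 .s1 (.nx 539 120 (.nr 538 940 (.l1 (.ls 19 31 122)) (.l1 .sk)) (.nx
  540 121 (.l1 .sk) (.nx 541 8193 (.lg 0 true 1 79 79 29 0 720) (.nr 544 8193 (.nr 542 513 (.lg 2
  false 1 61 61 29 660562 720) (.nx 543 82572 (.lg 2 true 1 53 53 29 9658 720) .out)) .out)))))
  .out) .out) (.nx 557 1321124 (.nr 556 524289 (.nr 548 121 .s1 (.nx 552 8193 (.nx 550 120 (.nr 549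
  963 (.l1 (.ls 17 17 122)) (.l1 .sk)) (.nx 551 121 (.l1 .sk) (.lg 0 true 1 79 79 17 0 1320))) (.nr
  555 8193 (.nr 553 513 (.lg 2 false 1 61 61 17 655103 1320) (.nx 554 82572 (.lg 2 true 1 53 53 17
  9658 7920) .out)) .out))) .out) .out)) (.na 569 125 (.nx 568 1321124 (.nr 567 524289 (.nr 559 124
  .s1 (.nx 563 8193 (.nx 561 120 (.nr 560 971 (.l1 (.ls 23 23 119)) (.l1 .sk)) (.nx 562 121 (.l1
  .sk) (.lg 0 false 1 79 79 19 0 240))) (.nr 566 8193 (.nr 564 513 (.lg 0 true 1 67 67 19 0 240)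
  (.nx 565 82572 (.lg 2 true 1 59 59 19 9658 240) .out)) .out))) .out) .out) (.lg 0 false 1 0 0 16
  0 24))) (.na 579 131 (.na 571 129 .ne (.nx 578 660563 (.nr 577 1048577 (.nr 572 129 .s1 (.nx 573
  205 (.l1 (.ls 71 23 328)) (.nr 576 524289 (.nr 574 8193 (.lg 0 false 1 83 83 17 0 720) (.nx 575
  6503 (.lg 0 true 1 79 79 17 0 720) .out)) .out))) .out) .out)) (.na 587 132 (.nx 586 660563 (.nr
  585 1048577 (.nr 580 131 .s1 (.nx 581 205 (.l1 (.ls 61 19 323)) (.nr 584 524289 (.nr 582 8193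
  (.lg 0 false 1 73 73 16 0 120) (.nx 583 6503 (.lg 0 true 1 71 71 16 0 120) .out)) .out))) .out)
  .out) (.nx 594 660563 (.nr 593 1048577 (.nr 588 132 .s1 (.nx 589 205 (.l1 (.ls 73 37 321)) (.nr
  592 524289 (.nr 590 8193 (.lg 0 false 1 83 83 31 0 7920) (.nx 591 6503 (.lg 0 false 1 79 79 31 0
  7920) .out)) .out))) .out) .out)))) (.na 613 141 (.na 604 137 (.na 596 136 (.lg 0 false 1 0 0 16
  0 24) (.nx 603 660563 (.nr 602 1048577 (.nr 597 136 .s1 (.nx 598 205 (.l1 (.ls 73 31 312)) (.nr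
  601 524289 (.nr 599 8193 (.lg 0 false 1 83 83 29 0 240) (.nx 600 6503 (.lg 0 false 1 79 79 29 0
  240) .out)) .out))) .out) .out)) (.na 612 139 (.nx 611 660563 (.nr 610 1048577 (.nr 605 137 .s1
  (.nx 606 205 (.l1 (.ls 67 19 309)) (.nr 609 524289 (.nr 607 8193 (.lg 0 false 1 73 73 16 0 120)
  (.nx 608 6503 (.lg 0 true 1 73 73 16 0 120) .out)) .out))) .out) .out) (.lg 0 false 1 0 0 16 0
  24))) (.na 629 145 (.na 621 143 (.nx 620 660563 (.nr 619 1048577 (.nr 614 141 .s1 (.nx 615 205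
  (.l1 (.ls 71 23 301)) (.nr 618 524289 (.nr 616 8193 (.lg 0 false 1 83 83 17 0 720) (.nx 617 6503
  (.lg 0 true 1 79 79 17 0 720) .out)) .out))) .out) .out) (.nx 628 660563 (.nr 627 1048577 (.nr
  622 143 .s1 (.nx 623 205 (.l1 (.ls 73 23 296)) (.nr 626 524289 (.nr 624 8193 (.lg 0 false 1 83 83
  19 0 17160) (.nx 625 6503 (.lg 0 false 1 79 79 19 0 17160) .out)) .out))) .out) .out)) (.na 637
  148 (.nx 636 660563 (.nr 635 1048577 (.nr 630 145 .s1 (.nx 631 205 (.l1 (.ls 71 19 292)) (.nr 634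
  524289 (.nr 632 8193 (.lg 0 false 1 79 79 17 0 120) (.nx 633 6503 (.lg 0 true 1 73 73 17 0 120)
  .out)) .out))) .out) .out) (.nx 644 660563 (.nr 643 1048577 (.nr 638 148 .s1 (.nx 639 205 (.l1
  (.ls 73 29 286)) (.nr 642 524289 (.nr 640 8193 (.lg 0 false 1 83 83 23 0 240) (.nx 641 6503 (.lg
  0 false 1 79 79 23 0 240) .out)) .out))) .out) .out))))))) (.na 824 220 (.na 745 184 (.na 702 167
  (.na 670 156 (.na 661 153 (.na 653 151 (.nx 652 660563 (.nr 651 1048577 (.nr 646 149 .s1 (.nx 647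
  205 (.l1 (.ls 61 19 285)) (.nr 650 524289 (.nr 648 8193 (.lg 0 false 1 73 73 16 0 120) (.nx 649
  6503 (.lg 0 true 1 71 71 16 0 120) .out)) .out))) .out) .out) (.nx 660 660563 (.nr 659 1048577
  (.nr 654 151 .s1 (.nx 655 205 (.l1 (.ls 67 17 281)) (.nr 658 524289 (.nr 656 8193 (.lg 0 false 1
  73 73 16 0 120) (.nx 657 6503 (.lg 0 true 1 71 71 16 0 120) .out)) .out))) .out) .out)) (.na 662
  155 (.lg 0 false 1 0 0 16 0 24) (.nx 669 660563 (.nr 668 1048577 (.nr 663 155 .s1 (.nx 664 205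
  (.l1 (.ls 67 19 274)) (.nr 667 524289 (.nr 665 8193 (.lg 0 false 1 79 79 17 0 720) (.nx 666 6503
  (.lg 0 true 1 73 73 17 0 120) .out)) .out))) .out) .out))) (.na 686 163 (.na 678 157 (.nx 677
  660563 (.nr 676 1048577 (.nr 671 156 .s1 (.nx 672 205 (.l1 (.ls 73 37 272)) (.nr 675 524289 (.nr
  673 8193 (.lg 0 false 1 83 83 31 0 9360) (.nx 674 6503 (.lg 0 false 1 79 79 31 0 9360) .out))
  .out))) .out) .out) (.nx 685 660563 (.nr 684 1048577 (.nr 679 157 .s1 (.nx 680 205 (.l1 (.ls 67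
  17 270)) (.nr 683 524289 (.nr 681 8193 (.lg 0 false 1 73 73 16 0 120) (.nx 682 6503 (.lg 0 true 1
  71 71 16 0 120) .out)) .out))) .out) .out)) (.na 694 165 (.nx 693 660563 (.nr 692 1048577 (.nr
  687 163 .s1 (.nx 688 205 (.l1 (.ls 61 17 260)) (.nr 691 524289 (.nx 689 6503 (.lg 0 true 1 71 71
  16 0 120) (.nr 690 8193 (.lg 0 false 1 71 71 16 0 120) .out)) .out))) .out) .out) (.nx 701 660563
  (.nr 700 1048577 (.nr 695 165 .s1 (.nx 696 205 (.l1 (.ls 71 29 257)) (.nr 699 524289 (.nr 697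
  8193 (.lg 0 false 1 79 79 23 0 7920) (.nx 698 6503 (.lg 0 true 1 73 73 23 0 3960) .out)) .out)))
  .out) .out)))) (.na 727 177 (.na 718 172 (.na 710 169 (.nx 709 660563 (.nr 708 1048577 (.nr 703
  167 .s1 (.nx 704 205 (.l1 (.ls 67 17 254)) (.nr 707 524289 (.nr 705 8193 (.lg 0 false 1 73 73 16
  0 120) (.nx 706 6503 (.lg 0 true 1 71 71 16 0 120) .out)) .out))) .out) .out) (.nx 717 660563
  (.nr 716 1048577 (.nr 711 169 .s1 (.nx 712 205 (.l1 (.ls 67 19 251)) (.nr 715 524289 (.nr 713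
  8193 (.lg 0 false 1 73 73 17 0 1560) (.nx 714 6503 (.lg 0 true 1 71 71 17 0 1560) .out)) .out)))
  .out) .out)) (.na 726 173 (.nx 725 660563 (.nr 724 1048577 (.nr 719 172 .s1 (.nx 720 205 (.l1
  (.ls 73 29 247)) (.nr 723 524289 (.nr 721 8193 (.lg 0 true 1 79 79 23 0 240) (.nx 722 6503 (.lg 0
  false 1 79 79 23 0 240) .out)) .out))) .out) .out) (.lg 0 false 1 0 0 16 0 24))) (.na 743 180
  (.na 735 179 (.nx 734 660563 (.nr 733 1048577 (.nr 728 177 .s1 (.nx 729 205 (.l1 (.ls 53 23 240))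
  (.nr 732 524289 (.nr 730 8193 (.lg 0 false 1 79 79 17 0 720) (.nx 731 6503 (.lg 0 true 1 73 73 17
  0 720) .out)) .out))) .out) .out) (.nx 742 660563 (.nr 741 1048577 (.nr 736 179 .s1 (.nx 737 205
  (.l1 (.ls 67 17 237)) (.nr 740 524289 (.nr 738 8193 (.lg 0 false 1 71 71 16 0 120) (.nx 739 6503
  (.lg 0 true 1 71 71 16 0 120) .out)) .out))) .out) .out)) (.na 744 181 (.lg 0 false 1 0 0 16 0
  24) (.lg 0 false 1 0 0 16 0 24))))) (.na 788 199 (.na 777 191 (.na 761 187 (.na 753 185 (.nx 752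
  660563 (.nr 751 1048577 (.nr 746 184 .s1 (.nx 747 205 (.l1 (.ls 73 29 231)) (.nr 750 524289 (.nr
  748 8193 (.lg 0 true 1 79 79 19 0 240) (.nx 749 6503 (.lg 0 false 1 73 73 19 0 240) .out))
  .out))) .out) .out) (.nx 760 660563 (.nr 759 1048577 (.nr 754 185 .s1 (.nx 755 205 (.l1 (.ls 83
  19 230)) (.nr 758 524289 (.nr 756 8193 (.lg 0 false 1 73 73 17 0 120) (.nx 757 6503 (.lg 0 true 1
  73 73 17 0 120) .out)) .out))) .out) .out)) (.na 769 188 (.nx 768 660563 (.nr 767 1048577 (.nr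
  762 187 .s1 (.nx 763 205 (.l1 (.ls 73 23 227)) (.nr 766 524289 (.nr 764 8193 (.lg 0 true 1 79 79
  23 0 1320) (.nx 765 6503 (.lg 0 false 1 73 73 23 0 1320) .out)) .out))) .out) .out) (.nx 776
  660563 (.nr 775 1048577 (.nr 770 188 .s1 (.nx 771 205 (.l1 (.ls 73 23 226)) (.nr 774 524289 (.nr
  772 8193 (.lg 0 true 1 79 79 23 0 240) (.nx 773 6503 (.lg 0 false 1 73 73 23 0 240) .out))
  .out))) .out) .out))) (.na 779 195 (.na 778 193 (.lg 0 false 1 0 0 16 0 24) (.lg 0 false 1 0 0 16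
  0 24)) (.na 787 197 (.nx 786 660563 (.nr 785 1048577 (.nr 780 195 .s1 (.nx 781 205 (.l1 (.ls 67
  29 218)) (.nr 784 524289 (.nr 782 8193 (.lg 0 false 1 73 73 23 0 4680) (.nx 783 6503 (.lg 0 true
  1 71 71 23 0 4680) .out)) .out))) .out) .out) (.lg 0 false 1 0 0 16 0 24)))) (.na 813 207 (.na
  797 201 (.na 796 200 (.nx 795 660563 (.nr 794 1048577 (.nr 789 199 .s1 (.nx 790 205 (.l1 (.ls 73
  17 214)) (.nr 793 524289 (.nr 791 8193 (.lg 0 false 1 71 71 16 0 120) (.nx 792 6503 (.lg 0 true 1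
  67 67 16 0 120) .out)) .out))) .out) .out) (.lg 0 false 1 0 0 16 0 24)) (.na 805 204 (.nx 804
  660563 (.nr 803 1048577 (.nr 798 201 .s1 (.nx 799 205 (.l1 (.ls 61 23 212)) (.nr 802 524289 (.nr
  800 8193 (.lg 0 false 1 73 73 19 0 720) (.nx 801 6503 (.lg 0 true 1 71 71 19 0 360) .out))
  .out))) .out) .out) (.nx 812 660563 (.nr 811 1048577 (.nr 806 204 .s1 (.nx 807 205 (.l1 (.ls 73
  37 209)) (.nr 810 524289 (.nr 808 8193 (.lg 0 true 1 79 79 31 0 720) (.nx 809 6503 (.lg 0 false 1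
  79 79 31 0 720) .out)) .out))) .out) .out))) (.na 815 215 (.na 814 211 (.lg 0 false 1 0 0 16 0
  24) (.lg 0 false 1 0 0 16 0 24)) (.na 823 216 (.nx 822 660563 (.nr 821 1048577 (.nr 816 215 .s1
  (.nx 817 205 (.l1 (.ls 67 19 198)) (.nr 820 524289 (.nr 818 8193 (.lg 0 false 1 73 73 17 0 120)
  (.nx 819 6503 (.lg 0 true 1 71 71 17 0 120) .out)) .out))) .out) .out) (.lg 0 false 1 0 0 16 0
  24)))))) (.na 910 253 (.na 860 235 (.na 842 227 (.na 840 223 (.na 832 221 (.nx 831 660563 (.nr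
  830 1048577 (.nr 825 220 .s1 (.nx 828 6503 (.nx 826 205 (.l1 (.ls 71 31 194)) (.nr 827 524289
  (.lg 0 false 1 73 73 31 0 2640) .out)) (.nr 829 8193 (.lg 0 true 1 73 73 31 0 2640) .out))) .out)
  .out) (.nx 839 660563 (.nr 838 1048577 (.nr 833 221 .s1 (.nx 834 205 (.l1 (.ls 73 23 193)) (.nr
  837 524289 (.nr 835 8193 (.lg 0 true 1 79 79 23 0 1560) (.nx 836 6503 (.lg 0 false 1 73 73 23 0
  1560) .out)) .out))) .out) .out)) (.na 841 225 (.lg 0 false 1 0 0 16 0 24) (.lg 0 false 1 0 0 16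
  0 24))) (.na 844 232 (.na 843 229 (.lg 0 false 1 0 0 16 0 24) (.lg 0 false 1 0 0 16 0 24)) (.na
  852 233 (.nx 851 660563 (.nr 850 1048577 (.nr 845 232 .s1 (.nx 846 205 (.l1 (.ls 71 23 184)) (.nr
  849 524289 (.nx 847 6503 (.lg 0 false 1 73 73 23 0 240) (.nr 848 8193 (.lg 0 true 1 73 73 23 0
  240) .out)) .out))) .out) .out) (.nx 859 660563 (.nr 858 1048577 (.nr 853 233 .s1 (.nx 854 205
  (.l1 (.ls 61 17 183)) (.nr 857 524289 (.nr 855 8193 (.lg 0 false 1 67 67 17 0 120) (.nx 856 6503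
  (.lg 0 true 1 67 67 17 0 120) .out)) .out))) .out) .out)))) (.na 885 241 (.na 876 237 (.na 868
  236 (.nx 867 660563 (.nr 866 1048577 (.nr 861 235 .s1 (.nx 862 205 (.l1 (.ls 43 19 181)) (.nr 865
  524289 (.nr 863 8193 (.lg 0 false 1 73 73 17 0 720) (.nx 864 6503 (.lg 0 true 1 71 71 17 0 120)
  .out)) .out))) .out) .out) (.nx 875 660563 (.nr 874 1048577 (.nr 869 236 .s1 (.nx 870 205 (.l1
  (.ls 53 23 181)) (.nr 873 524289 (.nr 871 8193 (.lg 0 true 1 73 73 23 0 240) (.nx 872 6503 (.lg 0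
  false 1 73 73 23 0 240) .out)) .out))) .out) .out)) (.na 884 239 (.nx 883 660563 (.nr 882 1048577
  (.nr 877 237 .s1 (.nx 878 205 (.l1 (.ls 61 19 180)) (.nr 881 524289 (.nr 879 8193 (.lg 0 false 1
  71 71 19 0 360) (.nx 880 6503 (.lg 0 true 1 67 67 19 0 360) .out)) .out))) .out) .out) (.lg 0
  false 1 0 0 16 0 24))) (.na 894 248 (.na 893 243 (.nx 892 660563 (.nr 891 1048577 (.nr 886 241
  .s1 (.nx 887 205 (.l1 (.ls 71 17 177)) (.nr 890 524289 (.nr 888 8193 (.lg 0 false 1 67 67 17 0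
  120) (.nx 889 6503 (.lg 0 true 1 67 67 17 0 120) .out)) .out))) .out) .out) (.lg 0 false 1 0 0 16
  0 24)) (.na 902 251 (.nx 901 660563 (.nr 900 1048577 (.nr 895 248 .s1 (.nx 896 205 (.l1 (.ls 73
  23 172)) (.nr 899 524289 (.nr 897 8193 (.lg 0 true 1 73 73 23 0 240) (.nx 898 6503 (.lg 0 false 1
  73 73 23 0 240) .out)) .out))) .out) .out) (.nx 909 660563 (.nr 908 1048577 (.nr 903 251 .s1 (.nx
  904 205 (.l1 (.ls 73 17 170)) (.nr 907 524289 (.nr 905 8193 (.lg 0 false 1 67 67 17 0 120) (.nx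
  906 6503 (.lg 0 true 1 67 67 17 0 120) .out)) .out))) .out) .out))))) (.na 3203 2048 (.na 1441
  512 (.na 926 256 (.na 918 255 (.nx 917 660563 (.nr 916 1048577 (.nr 911 253 .s1 (.nx 912 205 (.l1
  (.ls 71 19 169)) (.nr 915 524289 (.nr 913 8193 (.lg 0 true 1 73 73 19 0 1320) (.nx 914 6503 (.lg
  0 false 1 73 73 19 0 1320) .out)) .out))) .out) .out) (.nx 925 660563 (.nr 924 1048577 (.nr 919
  255 .s1 (.nx 920 205 (.l1 (.ls 73 29 167)) (.nr 923 524289 (.nx 921 6503 (.lg 0 true 1 71 71 29 0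
  360) (.nr 922 8193 (.lg 0 false 1 73 73 29 0 720) .out)) .out))) .out) .out)) (.na 927 257 .ne
  (.nx 1440 82572 (.nr 1439 1048577 (.nr 928 257 .s1 (.nx 1183 647 (.la (.ls 71 29 1631)) (.nr 1438
  262145 (.la (.lg 0 true 1 73 73 23 0)) .out))) .out) .out))) (.na 2173 1024 (.na 1871 725 (.nx
  1870 82572 (.nr 1869 1048577 (.nr 1442 512 .s1 (.nx 1655 647 (.la (.ls 83 29 820)) (.nr 1868
  262145 (.la (.lg 0 false 1 71 71 29 0)) .out))) .out) .out) (.nx 2172 3252 (.nr 2171 262145 (.nr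
  1872 725 .s1 (.la (.ls 53 43 14589))) .out) .out)) (.na 2601 1449 (.nx 2600 3252 (.nr 2599 262145
  (.nr 2174 1024 .s1 (.la (.ls 47 41 10330))) .out) .out) (.nx 3202 1627 (.nr 3201 131073 (.nr 2602
  1449 .s1 (.la (.ls 59 31 1829))) .out) .out)))) (.na 6125 16384 (.na 4826 4096 (.na 4176 2897
  (.nx 4175 1627 (.nr 4174 131073 (.nr 3204 2048 .s1 (.nx 3324 120 (.nr 3323 22487 (.lx (.lp 41 29
  725)) (.l1 .sk)) (.nx 3325 121 (.l1 .sk) (.la (.ls 47 31 1288))))) .out) .out) (.nx 4825 647 (.nr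
  4824 65537 (.nr 4177 2897 .s1 (.nx 4339 163 (.lx (.lp 47 31 1025)) (.nr 4823 32769 (.lx (.lp 41
  31 1025)) .out))) .out) .out)) (.na 5476 8192 (.nx 5475 647 (.nr 5474 65537 (.nr 4827 4096 .s1
  (.nx 4989 163 (.lx (.lp 43 37 2049)) (.nr 5473 32769 (.lx (.lp 41 37 2049)) .out))) .out) .out)
  (.nx 6124 647 (.nr 6123 65537 (.nr 5477 8192 .s1 (.lx (.lp 41 41 4097))) .out) .out))) (.na 7101
  65536 (.na 6775 32768 (.nx 6774 647 (.nr 6773 131073 (.nr 6126 16384 .s1 (.nx 6288 163 (.lx (.lp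
  16 0 8193)) (.nr 6772 65537 (.lx (.lp 37 43 8193)) .out))) .out) .out) (.nx 7100 324 (.nr 7099
  131073 (.nr 6776 32768 .s1 (.lx (.lp 37 47 16385))) .out) .out)) (.na 7427 131073 (.nx 7426 324
  (.nr 7425 262145 (.nr 7102 65536 .s1 (.lx (.lp 31 53 32769))) .out) .out) .out)))))))

def T140_2 : Ph :=
  (.na 328 7 (.na 211 4 (.na 134 2 (.nx 133 660563 (.nr 132 1482912 (.nx 3 57 (.nx 2 56 (.nr 1 8
  (.lg 0 true 1 41 41 5 0 65520) (.l1 .sk)) (.l1 .sk)) (.nr 74 16385 (.nx 51 104033 (.nx 14 4097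
  (.lg 0 true 11 89 89 9 0 5544) (.nr 50 13779 (.nr 39 682 (.nr 36 331 (.lg 0 true 22 83 83 11 0
  11088) (.lg 2 false 3 83 83 7 8801 5040)) (.lg 2 false 11 101 103 9 5296 720720)) .out)) (.nr 73
  78 (.lg 0 true 22 83 83 11 0 11088) .out)) (.nx 131 1292 (.nr 97 110219 (.nr 85 38969 (.lg 0
  false 11 97 97 9 0 55440) (.nx 96 205 (.lg 0 false 11 83 83 9 0 5544) .out)) (.nx 130 103 (.lg 0
  false 33 79 83 13 0 5544) .out)) .out))) .out) .out) (.na 135 3 .ne (.nx 210 660563 (.nr 209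
  881745 (.nx 138 57 (.nx 137 56 (.nr 136 20 (.lg 0 true 1 29 29 5 0 5040) (.l1 .sk)) (.l1 .sk))
  (.nr 185 38969 (.nx 149 9652 (.lg 0 false 11 89 89 16 0 5544) (.nx 173 330282 (.nr 162 1500 (.nr
  160 716 (.lg 0 true 11 83 83 16 0 5544) (.lg 2 false 2 83 83 7 12917 5040)) (.lg 2 false 11 89
  101 16 6341 55440)) (.nr 184 78 (.lg 0 true 11 73 73 16 0 5544) .out))) (.nx 208 647 (.nr 196
  311745 (.lg 0 false 11 89 97 16 0 55440) (.nx 207 103 (.lg 0 false 11 73 73 16 0 5544) .out))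
  .out))) .out) .out))) (.na 276 5 (.nx 275 660563 (.nr 274 1246976 (.nx 214 57 (.nx 213 56 (.nr
  212 26 (.lg 0 true 1 29 29 9 0 5040) (.l1 .sk)) (.l1 .sk)) (.nx 267 330282 (.nx 249 6503 (.nr 237
  440873 (.nr 225 55110 (.lg 0 false 11 89 97 13 0 55440) (.nx 236 647 (.lg 0 false 11 89 97 13 0
  55440) .out)) (.nx 248 103 (.lg 0 false 11 73 79 13 0 11088) .out)) (.nr 266 19485 (.nr 260 618
  (.lg 0 true 11 83 83 13 0 11088) (.nr 263 2458 (.lg 2 true 3 83 83 9 14965 5040) (.lg 2 false 3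
  97 97 9 4713 5040))) .out)) (.nr 273 78 (.lg 0 true 6 73 73 11 0 1008) .out))) .out) .out) (.na
  327 6 (.nx 326 660563 (.nr 325 1482912 (.nx 279 57 (.nx 278 56 (.nr 277 32 (.lg 0 true 1 29 29 9
  0 5040) (.l1 .sk)) (.l1 .sk)) (.nr 313 185365 (.nr 309 65537 (.nx 290 6503 (.lg 0 false 11 89 89
  16 0 55440) (.nr 308 23172 (.nr 301 659 (.lg 0 true 11 83 83 16 0 27720) (.nx 307 330282 (.nr 304
  2739 (.lg 2 true 3 79 79 11 14034 2520) (.lg 2 false 3 89 89 11 5602 5040)) .out)) .out)) (.nx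
  312 647 (.lg 0 false 3 83 83 11 0 2520) .out)) (.nx 324 103 (.lg 0 false 11 73 73 16 0 27720)
  .out))) .out) .out) .ne))) (.na 452 10 (.na 370 8 (.nx 369 660563 (.nr 368 262145 (.nx 348 6503
  (.nx 330 56 (.nr 329 42 (.l1 (.ls 17 23 450)) (.l1 .sk)) (.nx 331 57 (.l1 .sk) (.nr 342 92683
  (.lg 0 false 11 83 83 16 0 5544) (.nx 347 647 (.lg 0 false 5 73 73 11 0 2520) .out)))) (.nr 367
  32769 (.nr 361 1142 (.lg 0 true 13 79 79 16 0 6552) (.nx 366 330282 (.lg 2 false 5 83 83 11 8098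
  2520) .out)) .out)) .out) .out) (.na 414 9 (.nx 413 660563 (.nr 412 623489 (.nr 371 3 .s1 (.nx
  375 103 (.nx 373 56 (.nr 372 48 (.lg 0 true 1 23 23 9 0 5040) (.l1 .sk)) (.nx 374 57 (.l1 .sk)
  (.l1 (.ls 83 31 923)))) (.nr 411 131073 (.nx 386 8470 (.lg 0 false 11 89 97 13 0 55440) (.nr 410
  110219 (.nr 397 537 (.lg 0 true 11 79 79 13 0 11088) (.nx 409 330282 (.nx 400 18700 (.lg 1 false
  3 89 89 11 20416 5040) (.nr 402 4577 (.lg 2 false 2 83 83 11 17222 5040) (.nx 405 41287 (.lg 1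
  true 3 89 89 11 9247 5040) (.nr 408 38969 (.lg 2 false 3 79 79 11 2021 1008) .out)))) .out))
  .out)) .out))) .out) .out) (.nx 451 660563 (.nr 450 623489 (.nr 415 6 .s1 (.nx 419 103 (.nx 417
  56 (.nr 416 53 (.l1 (.ls 19 23 351)) (.l1 .sk)) (.nx 418 57 (.l1 .sk) (.l1 (.ls 83 29 820))))
  (.nr 449 131073 (.nr 430 217 (.lg 0 true 11 71 71 16 0 5544) (.nx 448 41287 (.nr 444 110219 (.nr
  433 4112 (.nx 431 1569 (.lg 0 true 1 71 71 7 0 504) (.lg 2 false 2 71 71 16 5328 5040)) (.lg 0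
  false 11 101 103 16 0 720720)) (.nx 445 406 .out (.nx 447 2582 (.lg 0 false 2 79 79 16 0 1008)
  .out))) .out)) .out))) .out) .out))) (.na 453 12 .ne (.na 478 13 (.nx 477 660563 (.nr 476 623489
  (.nr 454 10 .s1 (.nx 467 9411 (.nx 456 56 (.nr 455 69 (.l1 (.ls 29 31 264)) (.l1 .sk)) (.nx 457
  57 (.l1 .sk) (.nx 458 103 (.l1 (.ls 89 37 616)) (.nr 466 131073 (.nx 463 3512 (.lg 0 false 5 83
  89 19 0 5040) (.nr 465 77937 (.lg 1 false 2 89 89 13 34827 5040) .out)) .out)))) (.nr 475 46342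
  (.nr 472 154 (.lg 0 true 5 73 73 19 0 5040) (.nx 474 41287 (.lg 1 true 2 89 97 13 7731 5040)
  .out)) .out))) .out) .out) (.nx 500 660563 (.nr 499 623489 (.nr 479 11 .s1 (.nx 483 103 (.nx 481
  56 (.nr 480 80 (.lg 0 false 1 23 23 9 0 65520) (.l1 .sk)) (.nx 482 57 (.l1 .sk) (.l1 (.ls 83 23
  569)))) (.nr 498 131073 (.nx 488 6503 (.lg 0 false 5 89 89 16 0 32760) (.nr 497 46342 (.nr 493
  154 (.lg 0 true 5 71 71 16 0 32760) (.nx 496 41287 (.lg 1 true 3 89 89 11 11189 13104) .out))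
  .out)) .out))) .out) .out)))))

theorem c140 :
    OkQ ckI L10 227 1 46 0 34359738368 1 1099511627776 ∧
    OkQ ckI L6 120 20 1099511627776 0 34359738368 1 1099511627776 ∧
    OkQ ckI L5 56 1 15 0 34359738368 1 1099511627776 := by
  refine ⟨?_, ?_, ?_⟩
  · refine fin 72 970 T140_0 ?_
    refine jn 12 (by decide +kernel) ?_
    refine jn 20 (by decide +kernel) ?_
    refine jn 26 (by decide +kernel) ?_
    refine jn 37 (by decide +kernel) ?_
    refine jn 47 (by decide +kernel) ?_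
    refine jn 55 (by decide +kernel) ?_
    refine jn 63 (by decide +kernel) ?_
    refine jn 69 (by decide +kernel) ?_
    refine jn 95 (by decide +kernel) ?_
    refine jn 119 (by decide +kernel) ?_
    refine jn 133 (by decide +kernel) ?_
    refine jn 148 (by decide +kernel) ?_
    refine jn 163 (by decide +kernel) ?_
    refine jn 177 (by decide +kernel) ?_
    refine jn 190 (by decide +kernel) ?_
    refine jn 216 (by decide +kernel) ?_
    refine jn 245 (by decide +kernel) ?_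
    refine jn 255 (by decide +kernel) ?_
    refine jn 278 (by decide +kernel) ?_
    refine jn 306 (by decide +kernel) ?_
    refine jn 320 (by decide +kernel) ?_
    refine jn 343 (by decide +kernel) ?_
    refine jn 367 (by decide +kernel) ?_
    refine jn 385 (by decide +kernel) ?_
    refine jn 400 (by decide +kernel) ?_
    refine jn 424 (by decide +kernel) ?_
    refine jn 449 (by decide +kernel) ?_
    refine jn 465 (by decide +kernel) ?_
    refine jn 478 (by decide +kernel) ?_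
    refine jn 503 (by decide +kernel) ?_
    refine jn 521 (by decide +kernel) ?_
    refine jn 523 (by decide +kernel) ?_
    refine jn 525 (by decide +kernel) ?_
    refine jn 527 (by decide +kernel) ?_
    refine jn 529 (by decide +kernel) ?_
    refine jn 531 (by decide +kernel) ?_
    refine jn 533 (by decide +kernel) ?_
    refine jn 541 (by decide +kernel) ?_
    refine jn 545 (by decide +kernel) ?_
    refine jn 549 (by decide +kernel) ?_
    refine jn 553 (by decide +kernel) ?_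
    refine jn 560 (by decide +kernel) ?_
    refine jn 571 (by decide +kernel) ?_
    refine jn 581 (by decide +kernel) ?_
    refine jn 586 (by decide +kernel) ?_
    refine jn 596 (by decide +kernel) ?_
    refine jn 606 (by decide +kernel) ?_
    refine jn 615 (by decide +kernel) ?_
    refine jn 619 (by decide +kernel) ?_
    refine jn 626 (by decide +kernel) ?_
    refine jn 635 (by decide +kernel) ?_
    refine jn 642 (by decide +kernel) ?_
    refine jn 657 (by decide +kernel) ?_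
    refine jn 662 (by decide +kernel) ?_
    refine jn 704 (by decide +kernel) ?_
    refine jn 719 (by decide +kernel) ?_
    refine jn 721 (by decide +kernel) ?_
    refine jn 726 (by decide +kernel) ?_
    refine jn 731 (by decide +kernel) ?_
    refine jn 739 (by decide +kernel) ?_
    refine jn 745 (by decide +kernel) ?_
    refine jn 758 (by decide +kernel) ?_
    refine jn 772 (by decide +kernel) ?_
    refine jn 775 (by decide +kernel) ?_
    refine jn 788 (by decide +kernel) ?_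
    refine jn 800 (by decide +kernel) ?_
    refine jn 812 (by decide +kernel) ?_
    refine jn 816 (by decide +kernel) ?_
    refine jn 817 (by decide +kernel) ?_
    refine jn 822 (by decide +kernel) ?_
    refine jn 832 (by decide +kernel) ?_
    refine jn 838 (by decide +kernel) ?_
    refine jn 851 (by decide +kernel) ?_
    refine jn 866 (by decide +kernel) ?_
    refine jn 871 (by decide +kernel) ?_
    refine jn 876 (by decide +kernel) ?_
    refine jn 888 (by decide +kernel) ?_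
    refine jn 900 (by decide +kernel) ?_
    refine jn 916 (by decide +kernel) ?_
    refine jn 921 (by decide +kernel) ?_
    refine jn 931 (by decide +kernel) ?_
    refine jn 945 (by decide +kernel) ?_
    refine jn 946 (by decide +kernel) ?_
    refine jn 948 (by decide +kernel) ?_
    refine jn 950 (by decide +kernel) ?_
    refine jn 951 (by decide +kernel) ?_
    refine jn 952 (by decide +kernel) ?_
    refine jn 954 (by decide +kernel) ?_
    refine jn 959 (by decide +kernel) ?_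
    refine jn 966 (by decide +kernel) ?_
    exact je (by decide +kernel)
  · refine fin 120 7428 T140_1 ?_
    refine jn 6 (by decide +kernel) ?_
    refine jn 12 (by decide +kernel) ?_
    refine jn 18 (by decide +kernel) ?_
    refine jn 22 (by decide +kernel) ?_
    refine jn 34 (by decide +kernel) ?_
    refine jn 40 (by decide +kernel) ?_
    refine jn 42 (by decide +kernel) ?_
    refine jn 49 (by decide +kernel) ?_
    refine jn 61 (by decide +kernel) ?_
    refine jn 67 (by decide +kernel) ?_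
    refine jn 68 (by decide +kernel) ?_
    refine jn 75 (by decide +kernel) ?_
    refine jn 89 (by decide +kernel) ?_
    refine jn 96 (by decide +kernel) ?_
    refine jn 104 (by decide +kernel) ?_
    refine jn 115 (by decide +kernel) ?_
    refine jn 116 (by decide +kernel) ?_
    refine jn 117 (by decide +kernel) ?_
    refine jn 118 (by decide +kernel) ?_
    refine jn 119 (by decide +kernel) ?_
    refine jn 120 (by decide +kernel) ?_
    refine jn 121 (by decide +kernel) ?_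
    refine jn 122 (by decide +kernel) ?_
    refine jn 123 (by decide +kernel) ?_
    refine jn 124 (by decide +kernel) ?_
    refine jn 125 (by decide +kernel) ?_
    refine jn 126 (by decide +kernel) ?_
    refine jn 136 (by decide +kernel) ?_
    refine jn 146 (by decide +kernel) ?_
    refine jn 151 (by decide +kernel) ?_
    refine jn 167 (by decide +kernel) ?_
    refine jn 172 (by decide +kernel) ?_
    refine jn 183 (by decide +kernel) ?_
    refine jn 188 (by decide +kernel) ?_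
    refine jn 203 (by decide +kernel) ?_
    refine jn 208 (by decide +kernel) ?_
    refine jn 219 (by decide +kernel) ?_
    refine jn 223 (by decide +kernel) ?_
    refine jn 231 (by decide +kernel) ?_
    refine jn 232 (by decide +kernel) ?_
    refine jn 233 (by decide +kernel) ?_
    refine jn 237 (by decide +kernel) ?_
    refine jn 240 (by decide +kernel) ?_
    refine jn 252 (by decide +kernel) ?_
    refine jn 256 (by decide +kernel) ?_
    refine jn 267 (by decide +kernel) ?_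
    refine jn 276 (by decide +kernel) ?_
    refine jn 277 (by decide +kernel) ?_
    refine jn 278 (by decide +kernel) ?_
    refine jn 279 (by decide +kernel) ?_
    refine jn 281 (by decide +kernel) ?_
    refine jn 294 (by decide +kernel) ?_
    refine jn 305 (by decide +kernel) ?_
    refine jn 319 (by decide +kernel) ?_
    refine jn 334 (by decide +kernel) ?_
    refine jn 349 (by decide +kernel) ?_
    refine jn 359 (by decide +kernel) ?_
    refine jn 363 (by decide +kernel) ?_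
    refine jn 365 (by decide +kernel) ?_
    refine jn 377 (by decide +kernel) ?_
    refine jn 393 (by decide +kernel) ?_
    refine jn 406 (by decide +kernel) ?_
    refine jn 418 (by decide +kernel) ?_
    refine jn 428 (by decide +kernel) ?_
    refine jn 430 (by decide +kernel) ?_
    refine jn 433 (by decide +kernel) ?_
    refine jn 444 (by decide +kernel) ?_
    refine jn 447 (by decide +kernel) ?_
    refine jn 458 (by decide +kernel) ?_
    refine jn 472 (by decide +kernel) ?_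
    refine jn 482 (by decide +kernel) ?_
    refine jn 485 (by decide +kernel) ?_
    refine jn 497 (by decide +kernel) ?_
    refine jn 514 (by decide +kernel) ?_
    refine jn 519 (by decide +kernel) ?_
    refine jn 530 (by decide +kernel) ?_
    refine jn 542 (by decide +kernel) ?_
    refine jn 554 (by decide +kernel) ?_
    refine jn 564 (by decide +kernel) ?_
    refine jn 575 (by decide +kernel) ?_
    refine jn 590 (by decide +kernel) ?_
    refine jn 600 (by decide +kernel) ?_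
    refine jn 616 (by decide +kernel) ?_
    refine jn 625 (by decide +kernel) ?_
    refine jn 640 (by decide +kernel) ?_
    refine jn 649 (by decide +kernel) ?_
    refine jn 666 (by decide +kernel) ?_
    refine jn 674 (by decide +kernel) ?_
    refine jn 690 (by decide +kernel) ?_
    refine jn 706 (by decide +kernel) ?_
    refine jn 721 (by decide +kernel) ?_
    refine jn 731 (by decide +kernel) ?_
    refine jn 748 (by decide +kernel) ?_
    refine jn 757 (by decide +kernel) ?_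
    refine jn 765 (by decide +kernel) ?_
    refine jn 773 (by decide +kernel) ?_
    refine jn 792 (by decide +kernel) ?_
    refine jn 808 (by decide +kernel) ?_
    refine jn 819 (by decide +kernel) ?_
    refine jn 829 (by decide +kernel) ?_
    refine jn 836 (by decide +kernel) ?_
    refine jn 848 (by decide +kernel) ?_
    refine jn 864 (by decide +kernel) ?_
    refine jn 875 (by decide +kernel) ?_
    refine jn 889 (by decide +kernel) ?_
    refine jn 899 (by decide +kernel) ?_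
    refine jn 914 (by decide +kernel) ?_
    refine jn 934 (by decide +kernel) ?_
    refine jn 960 (by decide +kernel) ?_
    refine jn 990 (by decide +kernel) ?_
    refine jn 1024 (by decide +kernel) ?_
    refine jn 1066 (by decide +kernel) ?_
    refine jn 1106 (by decide +kernel) ?_
    refine jn 1143 (by decide +kernel) ?_
    refine jn 1183 (by decide +kernel) ?_
    refine jn 1189 (by decide +kernel) ?_
    refine jn 1194 (by decide +kernel) ?_
    refine jn 1197 (by decide +kernel) ?_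
    refine jn 1203 (by decide +kernel) ?_
    refine jn 1221 (by decide +kernel) ?_
    refine jn 1225 (by decide +kernel) ?_
    refine jn 1233 (by decide +kernel) ?_
    refine jn 1242 (by decide +kernel) ?_
    refine jn 1261 (by decide +kernel) ?_
    refine jn 1266 (by decide +kernel) ?_
    refine jn 1270 (by decide +kernel) ?_
    refine jn 1274 (by decide +kernel) ?_
    refine jn 1289 (by decide +kernel) ?_
    refine jn 1299 (by decide +kernel) ?_
    refine jn 1303 (by decide +kernel) ?_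
    refine jn 1315 (by decide +kernel) ?_
    refine jn 1319 (by decide +kernel) ?_
    refine jn 1329 (by decide +kernel) ?_
    refine jn 1333 (by decide +kernel) ?_
    refine jn 1335 (by decide +kernel) ?_
    refine jn 1355 (by decide +kernel) ?_
    refine jn 1366 (by decide +kernel) ?_
    refine jn 1373 (by decide +kernel) ?_
    refine jn 1386 (by decide +kernel) ?_
    refine jn 1397 (by decide +kernel) ?_
    refine jn 1399 (by decide +kernel) ?_
    refine jn 1410 (by decide +kernel) ?_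
    refine jn 1419 (by decide +kernel) ?_
    refine jn 1431 (by decide +kernel) ?_
    refine jn 1447 (by decide +kernel) ?_
    refine jn 1485 (by decide +kernel) ?_
    refine jn 1531 (by decide +kernel) ?_
    refine jn 1577 (by decide +kernel) ?_
    refine jn 1621 (by decide +kernel) ?_
    refine jn 1659 (by decide +kernel) ?_
    refine jn 1663 (by decide +kernel) ?_
    refine jn 1670 (by decide +kernel) ?_
    refine jn 1679 (by decide +kernel) ?_
    refine jn 1691 (by decide +kernel) ?_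
    refine jn 1698 (by decide +kernel) ?_
    refine jn 1704 (by decide +kernel) ?_
    refine jn 1708 (by decide +kernel) ?_
    refine jn 1715 (by decide +kernel) ?_
    refine jn 1723 (by decide +kernel) ?_
    refine jn 1740 (by decide +kernel) ?_
    refine jn 1748 (by decide +kernel) ?_
    refine jn 1760 (by decide +kernel) ?_
    refine jn 1772 (by decide +kernel) ?_
    refine jn 1786 (by decide +kernel) ?_
    refine jn 1792 (by decide +kernel) ?_
    refine jn 1802 (by decide +kernel) ?_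
    refine jn 1810 (by decide +kernel) ?_
    refine jn 1819 (by decide +kernel) ?_
    refine jn 1838 (by decide +kernel) ?_
    refine jn 1848 (by decide +kernel) ?_
    refine jn 1858 (by decide +kernel) ?_
    refine jn 1878 (by decide +kernel) ?_
    refine jn 1892 (by decide +kernel) ?_
    refine jn 1906 (by decide +kernel) ?_
    refine jn 1936 (by decide +kernel) ?_
    refine jn 1962 (by decide +kernel) ?_
    refine jn 2004 (by decide +kernel) ?_
    refine jn 2031 (by decide +kernel) ?_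
    refine jn 2046 (by decide +kernel) ?_
    refine jn 2082 (by decide +kernel) ?_
    refine jn 2111 (by decide +kernel) ?_
    refine jn 2150 (by decide +kernel) ?_
    refine jn 2167 (by decide +kernel) ?_
    refine jn 2198 (by decide +kernel) ?_
    refine jn 2234 (by decide +kernel) ?_
    refine jn 2261 (by decide +kernel) ?_
    refine jn 2289 (by decide +kernel) ?_
    refine jn 2315 (by decide +kernel) ?_
    refine jn 2346 (by decide +kernel) ?_
    refine jn 2371 (by decide +kernel) ?_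
    refine jn 2399 (by decide +kernel) ?_
    refine jn 2437 (by decide +kernel) ?_
    refine jn 2486 (by decide +kernel) ?_
    refine jn 2514 (by decide +kernel) ?_
    refine jn 2565 (by decide +kernel) ?_
    refine jn 2606 (by decide +kernel) ?_
    refine jn 2660 (by decide +kernel) ?_
    refine jn 2717 (by decide +kernel) ?_
    refine jn 2760 (by decide +kernel) ?_
    refine jn 2829 (by decide +kernel) ?_
    refine jn 2880 (by decide +kernel) ?_
    refine jn 2954 (by decide +kernel) ?_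
    refine jn 3013 (by decide +kernel) ?_
    refine jn 3068 (by decide +kernel) ?_
    refine jn 3116 (by decide +kernel) ?_
    refine jn 3170 (by decide +kernel) ?_
    refine jn 3273 (by decide +kernel) ?_
    refine jn 3385 (by decide +kernel) ?_
    refine jn 3465 (by decide +kernel) ?_
    refine jn 3521 (by decide +kernel) ?_
    refine jn 3597 (by decide +kernel) ?_
    refine jn 3681 (by decide +kernel) ?_
    refine jn 3742 (by decide +kernel) ?_
    refine jn 3828 (by decide +kernel) ?_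
    refine jn 3884 (by decide +kernel) ?_
    refine jn 3948 (by decide +kernel) ?_
    refine jn 4037 (by decide +kernel) ?_
    refine jn 4104 (by decide +kernel) ?_
    refine jn 4177 (by decide +kernel) ?_
    refine jn 4447 (by decide +kernel) ?_
    refine jn 4597 (by decide +kernel) ?_
    refine jn 4736 (by decide +kernel) ?_
    refine jn 4827 (by decide +kernel) ?_
    refine jn 5051 (by decide +kernel) ?_
    refine jn 5176 (by decide +kernel) ?_
    refine jn 5265 (by decide +kernel) ?_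
    refine jn 5331 (by decide +kernel) ?_
    refine jn 5414 (by decide +kernel) ?_
    refine jn 5529 (by decide +kernel) ?_
    refine jn 5816 (by decide +kernel) ?_
    refine jn 5915 (by decide +kernel) ?_
    refine jn 6000 (by decide +kernel) ?_
    refine jn 6087 (by decide +kernel) ?_
    refine jn 6349 (by decide +kernel) ?_
    refine jn 6598 (by decide +kernel) ?_
    refine jn 6731 (by decide +kernel) ?_
    refine jn 7099 (by decide +kernel) ?_
    exact je (by decide +kernel)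
  · refine fin 504 501 T140_2 ?_
    refine jn 3 (by decide +kernel) ?_
    refine jn 4 (by decide +kernel) ?_
    refine jn 5 (by decide +kernel) ?_
    refine jn 6 (by decide +kernel) ?_
    refine jn 7 (by decide +kernel) ?_
    refine jn 8 (by decide +kernel) ?_
    refine jn 9 (by decide +kernel) ?_
    refine jn 10 (by decide +kernel) ?_
    refine jn 11 (by decide +kernel) ?_
    refine jn 12 (by decide +kernel) ?_
    refine jn 13 (by decide +kernel) ?_
    refine jn 14 (by decide +kernel) ?_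
    refine jn 16 (by decide +kernel) ?_
    refine jn 19 (by decide +kernel) ?_
    refine jn 22 (by decide +kernel) ?_
    refine jn 25 (by decide +kernel) ?_
    refine jn 27 (by decide +kernel) ?_
    refine jn 30 (by decide +kernel) ?_
    refine jn 33 (by decide +kernel) ?_
    refine jn 36 (by decide +kernel) ?_
    refine jn 39 (by decide +kernel) ?_
    refine jn 50 (by decide +kernel) ?_
    refine jn 59 (by decide +kernel) ?_
    refine jn 68 (by decide +kernel) ?_
    refine jn 73 (by decide +kernel) ?_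
    refine jn 96 (by decide +kernel) ?_
    refine jn 130 (by decide +kernel) ?_
    refine jn 138 (by decide +kernel) ?_
    refine jn 139 (by decide +kernel) ?_
    refine jn 140 (by decide +kernel) ?_
    refine jn 141 (by decide +kernel) ?_
    refine jn 142 (by decide +kernel) ?_
    refine jn 143 (by decide +kernel) ?_
    refine jn 144 (by decide +kernel) ?_
    refine jn 145 (by decide +kernel) ?_
    refine jn 146 (by decide +kernel) ?_
    refine jn 147 (by decide +kernel) ?_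
    refine jn 148 (by decide +kernel) ?_
    refine jn 149 (by decide +kernel) ?_
    refine jn 150 (by decide +kernel) ?_
    refine jn 151 (by decide +kernel) ?_
    refine jn 152 (by decide +kernel) ?_
    refine jn 153 (by decide +kernel) ?_
    refine jn 154 (by decide +kernel) ?_
    refine jn 155 (by decide +kernel) ?_
    refine jn 156 (by decide +kernel) ?_
    refine jn 157 (by decide +kernel) ?_
    refine jn 158 (by decide +kernel) ?_
    refine jn 159 (by decide +kernel) ?_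
    refine jn 160 (by decide +kernel) ?_
    refine jn 162 (by decide +kernel) ?_
    refine jn 169 (by decide +kernel) ?_
    refine jn 173 (by decide +kernel) ?_
    refine jn 178 (by decide +kernel) ?_
    refine jn 184 (by decide +kernel) ?_
    refine jn 196 (by decide +kernel) ?_
    refine jn 207 (by decide +kernel) ?_
    refine jn 214 (by decide +kernel) ?_
    refine jn 215 (by decide +kernel) ?_
    refine jn 216 (by decide +kernel) ?_
    refine jn 217 (by decide +kernel) ?_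
    refine jn 218 (by decide +kernel) ?_
    refine jn 219 (by decide +kernel) ?_
    refine jn 220 (by decide +kernel) ?_
    refine jn 221 (by decide +kernel) ?_
    refine jn 222 (by decide +kernel) ?_
    refine jn 223 (by decide +kernel) ?_
    refine jn 224 (by decide +kernel) ?_
    refine jn 225 (by decide +kernel) ?_
    refine jn 236 (by decide +kernel) ?_
    refine jn 248 (by decide +kernel) ?_
    refine jn 249 (by decide +kernel) ?_
    refine jn 250 (by decide +kernel) ?_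
    refine jn 252 (by decide +kernel) ?_
    refine jn 254 (by decide +kernel) ?_
    refine jn 255 (by decide +kernel) ?_
    refine jn 256 (by decide +kernel) ?_
    refine jn 257 (by decide +kernel) ?_
    refine jn 258 (by decide +kernel) ?_
    refine jn 259 (by decide +kernel) ?_
    refine jn 260 (by decide +kernel) ?_
    refine jn 263 (by decide +kernel) ?_
    refine jn 266 (by decide +kernel) ?_
    refine jn 272 (by decide +kernel) ?_
    refine jn 279 (by decide +kernel) ?_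
    refine jn 280 (by decide +kernel) ?_
    refine jn 281 (by decide +kernel) ?_
    refine jn 283 (by decide +kernel) ?_
    refine jn 284 (by decide +kernel) ?_
    refine jn 285 (by decide +kernel) ?_
    refine jn 286 (by decide +kernel) ?_
    refine jn 288 (by decide +kernel) ?_
    refine jn 289 (by decide +kernel) ?_
    refine jn 290 (by decide +kernel) ?_
    refine jn 292 (by decide +kernel) ?_
    refine jn 294 (by decide +kernel) ?_
    refine jn 296 (by decide +kernel) ?_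
    refine jn 298 (by decide +kernel) ?_
    refine jn 300 (by decide +kernel) ?_
    refine jn 301 (by decide +kernel) ?_
    refine jn 304 (by decide +kernel) ?_
    refine jn 307 (by decide +kernel) ?_
    refine jn 324 (by decide +kernel) ?_
    refine jn 339 (by decide +kernel) ?_
    refine jn 347 (by decide +kernel) ?_
    refine jn 358 (by decide +kernel) ?_
    refine jn 366 (by decide +kernel) ?_
    refine jn 375 (by decide +kernel) ?_
    refine jn 377 (by decide +kernel) ?_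
    refine jn 380 (by decide +kernel) ?_
    refine jn 382 (by decide +kernel) ?_
    refine jn 385 (by decide +kernel) ?_
    refine jn 386 (by decide +kernel) ?_
    refine jn 389 (by decide +kernel) ?_
    refine jn 392 (by decide +kernel) ?_
    refine jn 395 (by decide +kernel) ?_
    refine jn 397 (by decide +kernel) ?_
    refine jn 402 (by decide +kernel) ?_
    refine jn 408 (by decide +kernel) ?_
    refine jn 419 (by decide +kernel) ?_
    refine jn 420 (by decide +kernel) ?_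
    refine jn 421 (by decide +kernel) ?_
    refine jn 423 (by decide +kernel) ?_
    refine jn 424 (by decide +kernel) ?_
    refine jn 425 (by decide +kernel) ?_
    refine jn 427 (by decide +kernel) ?_
    refine jn 429 (by decide +kernel) ?_
    refine jn 430 (by decide +kernel) ?_
    refine jn 431 (by decide +kernel) ?_
    refine jn 432 (by decide +kernel) ?_
    refine jn 433 (by decide +kernel) ?_
    refine jn 434 (by decide +kernel) ?_
    refine jn 435 (by decide +kernel) ?_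
    refine jn 436 (by decide +kernel) ?_
    refine jn 437 (by decide +kernel) ?_
    refine jn 438 (by decide +kernel) ?_
    refine jn 439 (by decide +kernel) ?_
    refine jn 440 (by decide +kernel) ?_
    refine jn 441 (by decide +kernel) ?_
    refine jn 442 (by decide +kernel) ?_
    refine jn 443 (by decide +kernel) ?_
    refine jn 444 (by decide +kernel) ?_
    refine jn 457 (by decide +kernel) ?_
    refine jn 458 (by decide +kernel) ?_
    refine jn 459 (by decide +kernel) ?_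
    refine jn 460 (by decide +kernel) ?_
    refine jn 461 (by decide +kernel) ?_
    refine jn 462 (by decide +kernel) ?_
    refine jn 463 (by decide +kernel) ?_
    refine jn 464 (by decide +kernel) ?_
    refine jn 465 (by decide +kernel) ?_
    refine jn 467 (by decide +kernel) ?_
    refine jn 468 (by decide +kernel) ?_
    refine jn 469 (by decide +kernel) ?_
    refine jn 470 (by decide +kernel) ?_
    refine jn 471 (by decide +kernel) ?_
    refine jn 472 (by decide +kernel) ?_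
    refine jn 474 (by decide +kernel) ?_
    refine jn 483 (by decide +kernel) ?_
    refine jn 486 (by decide +kernel) ?_
    refine jn 488 (by decide +kernel) ?_
    refine jn 491 (by decide +kernel) ?_
    refine jn 493 (by decide +kernel) ?_
    exact je (by decide +kernel)

end Pool.Agent.MP_2339ce_nt.NR
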