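import Pool.Agent.MP_2339ce_nt.Q2.NC.L5
import Pool.Agent.MP_2339ce_nt.Q2.NC.L6
import Pool.Agent.MP_2339ce_nt.Q2.CkI

/-! Block NR: runs. -/

set_option autoImplicit false
set_option maxRecDepth 100000

noncomputable section

namespace Pool.Agent.MP_2339ce_nt.NR

open Q2.Top

def T143_0 : Ph :=
  (.na 828 149 (.na 653 50 (.na 544 22 (.na 416 6 (.na 321 3 (.na 188 2 (.nx 187 1321124 (.nr 186
  311745 (.nx 3 86 (.nx 2 85 (.nr 1 10 (.lg 0 true 1 37 37 5 0 2040) (.l1 .sk)) (.l1 .sk)) (.nr 164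
  46342 (.nx 142 660563 (.nx 120 330282 (.nx 31 6503 (.lg 0 false 28 89 97 11 0 28560) (.nr 119
  38969 (.nr 83 1724 (.nr 70 432 (.lg 0 true 39 83 83 16 0 79560) (.lg 2 true 13 83 89 9 32494
  26520)) (.nx 118 165142 (.nx 104 16385 (.lg 1 false 21 97 103 11 21697 471240) (.nr 117 27556
  (.lg 2 false 13 101 103 9 6095 2042040) .out)) .out)) .out)) (.nr 141 109 (.lg 0 true 21 83 83 11
  0 42840) .out)) (.nr 163 13 (.lg 0 true 21 71 71 9 0 42840) .out)) (.nx 185 205 (.lg 0 false 21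
  79 83 11 0 42840) .out))) .out) .out) (.nx 320 3329023 (.nr 319 623489 (.nx 300 1321124 (.nx 190
  85 (.nr 189 18 (.lg 0 true 1 37 37 5 0 12240) (.l1 .sk)) (.nx 191 86 (.l1 .sk) (.nx 234 9555 (.nr
  212 77937 (.lg 0 false 21 97 101 11 0 85680) (.nx 233 205 (.lg 0 false 21 79 83 11 0 85680)
  .out)) (.nr 299 65537 (.nr 255 257 (.lg 0 true 21 89 89 11 0 85680) (.nx 298 165142 (.nx 276
  20644 (.lg 1 false 21 89 101 11 24812 85680) (.nr 297 46342 (.nr 283 1100 (.lg 2 true 7 79 79 9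
  27310 28560) (.lg 2 false 14 97 101 9 8125 28560)) .out)) .out)) .out)))) (.nr 318 9 (.lg 0 true
  18 71 71 9 0 12240) .out)) .out) .out)) (.na 322 5 .ne (.nx 415 10568985 (.nr 414 1482912 (.nx
  324 85 (.nr 323 39 (.lg 0 true 1 23 23 9 0 2040) (.l1 .sk)) (.nx 325 86 (.l1 .sk) (.nr 400 65537
  (.nx 371 1321124 (.nx 338 15464 (.lg 0 false 13 83 89 16 0 26520) (.nr 359 422 (.lg 0 true 21 79
  79 16 0 42840) (.nx 370 262145 (.nr 361 824 (.lg 2 false 2 71 71 9 26401 4080) (.lg 2 false 9 89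
  89 13 15331 6120)) .out))) (.nr 399 24 (.lg 0 true 28 71 71 11 0 28560) .out)) (.nx 413 205 (.lg
  0 false 13 71 71 16 0 26520) .out)))) .out) .out))) (.na 460 11 (.na 417 10 .ne (.nx 459 1321124
  (.nr 458 623489 (.nr 418 4 .s1 (.nx 422 324 (.nx 420 85 (.nr 419 72 (.l1 (.ls 19 37 725)) (.l1
  .sk)) (.nx 421 86 (.l1 .sk) (.l1 (.ls 79 47 9761)))) (.nr 457 220437 (.nr 453 77937 (.nx 429 9557
  (.lg 0 false 7 83 83 13 0 28560) (.nr 452 65537 (.nr 442 374 (.lg 0 true 13 73 73 13 0 53040)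
  (.nx 451 165142 (.lg 2 false 9 89 89 13 24807 12240) .out)) .out)) (.nx 456 814 (.lg 0 true 3 73
  73 11 0 12240) .out)) .out))) .out) .out)) (.na 513 12 (.nx 512 1321124 (.nr 511 623489 (.nr 461
  7 .s1 (.nx 504 330282 (.nx 463 85 (.nr 462 78 (.l1 (.ls 29 29 659)) (.l1 .sk)) (.nx 464 86 (.l1
  .sk) (.nr 482 27556 (.nx 467 3613 (.lg 0 true 3 79 79 9 0 67320) (.nr 474 374 (.lg 0 true 7 73 73
  16 0 157080) (.nx 481 165142 (.lg 2 true 7 79 79 16 27641 157080) .out))) (.nx 503 104033 (.nx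
  494 26009 (.nr 486 77937 (.lg 0 false 4 103 107 16 0 12252240) (.nx 493 814 (.lg 0 false 7 83 83
  16 0 157080) .out)) (.nr 502 46342 (.nx 498 65537 (.lg 0 true 4 97 101 16 0 134640) (.nr 501
  32769 (.lg 0 true 3 89 89 9 0 67320) .out)) .out)) .out)))) (.nr 510 65 (.lg 0 true 6 73 73 16 0
  134640) .out))) .out) .out) (.na 514 17 .ne (.nx 543 1321124 (.nr 542 1048577 (.nr 515 15 .s1
  (.nx 518 86 (.nx 517 85 (.nr 516 144 (.l1 (.ls 16 23 427)) (.l1 .sk)) (.l1 .sk)) (.nx 527 10323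
  (.nx 519 324 (.l1 (.ls 79 41 5743)) (.nr 526 220437 (.lg 0 false 7 79 79 16 0 14280) .out)) (.nr
  541 55110 (.nr 536 498 (.lg 0 true 9 71 71 16 0 6120) (.nx 540 165142 (.lg 2 true 4 79 79 11
  19317 4080) .out)) .out)))) .out) .out))))) (.na 587 34 (.na 571 31 (.na 570 23 (.nx 569 1321124
  (.nr 568 1048577 (.nr 545 20 .s1 (.nx 548 86 (.nx 547 85 (.nr 546 151 (.l1 (.ls 23 31 331)) (.l1
  .sk)) (.l1 .sk)) (.nx 557 10323 (.nx 549 324 (.l1 (.ls 83 43 4438)) (.nr 556 220437 (.lg 0 false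
  7 89 89 19 0 314160) .out)) (.nr 567 55110 (.nr 564 498 (.lg 0 true 7 79 79 19 0 314160) (.nx 566
  165142 (.lg 2 true 2 89 89 13 19317 44880) .out)) .out)))) .out) .out) .ne) (.na 586 32 (.nx 585
  1321124 (.nr 584 1048577 (.nr 572 30 .s1 (.nx 573 205 (.l1 (.ls 79 29 1358)) (.nr 583 185365 (.nx
  576 16385 (.lg 0 false 3 89 89 16 0 6120) (.nr 582 38969 (.nr 580 513 (.lg 0 true 4 73 73 16 0
  4080) (.nx 581 82572 (.lg 2 true 1 79 79 13 8611 2040) .out)) .out)) .out))) .out) .out) .ne))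
  (.na 619 43 (.na 603 37 (.nx 602 1321124 (.nr 601 370729 (.nr 588 33 .s1 (.nx 594 13005 (.nx 590
  85 (.nr 589 242 (.lg 0 false 1 0 16 11 0 942480) (.l1 .sk)) (.nx 591 86 (.l1 .sk) (.lg 0 true 3
  83 83 13 0 12240))) (.nr 600 23172 (.nr 597 217 (.lg 0 false 3 67 67 13 0 12240) (.nx 599 82572
  (.lg 2 true 2 71 71 13 16172 4080) .out)) .out))) .out) .out) (.nx 618 1321124 (.nr 617 370729
  (.nr 604 36 .s1 (.nx 607 86 (.nx 606 85 (.nr 605 282 (.l1 (.ls 16 17 198)) (.l1 .sk)) (.l1 .sk))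
  (.nx 611 13005 (.lg 0 false 4 89 89 16 0 4080) (.nr 616 23172 (.nr 614 217 (.lg 0 true 3 67 67 16
  0 6120) (.nx 615 82572 (.lg 2 true 1 79 79 16 16172 2040) .out)) .out)))) .out) .out)) (.na 637
  46 (.nx 636 1321124 (.nr 635 370729 (.nr 620 43 .s1 (.nr 628 13779 (.nx 624 82572 (.nx 621 2047
  (.l1 (.ls 53 59 97449)) (.lg 0 false 3 73 73 16 0 6120)) (.nr 627 217 (.lg 0 true 3 67 67 16 0
  6120) .out)) (.nx 630 86 (.nx 629 85 (.l1 .sk) (.l1 .sk)) (.nx 634 20644 (.lg 0 false 4 89 89 16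
  0 4080) .out)))) .out) .out) (.na 638 47 .ne (.nx 652 1321124 (.nr 651 311745 (.nr 639 47 .s1
  (.nx 641 85 (.nr 640 327 (.l1 (.ls 16 16 156)) (.l1 .sk)) (.nx 642 86 (.l1 .sk) (.nx 645 10323
  (.lg 0 false 3 83 83 16 0 6120) (.nr 650 23172 (.nr 648 327 (.lg 0 true 3 67 67 16 0 6120) (.nx
  649 82572 (.lg 2 true 1 73 73 16 10732 22440) .out)) .out))))) .out) .out)))))) (.na 740 97 (.na
  685 79 (.na 669 64 (.na 654 62 (.lg 0 false 1 0 0 16 0 24) (.nx 668 1321124 (.nr 667 311745 (.nr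
  655 62 .s1 (.nx 657 85 (.nr 656 419 (.l1 (.ls 16 19 119)) (.l1 .sk)) (.nx 658 86 (.l1 .sk) (.nx
  661 10323 (.lg 0 false 3 83 83 19 0 12240) (.nr 666 23172 (.nr 664 419 (.lg 0 true 3 67 67 19 0
  12240) (.nx 665 82572 (.lg 2 true 1 71 71 13 8376 4080) .out)) .out))))) .out) .out)) (.na 670 74
  .ne (.nx 684 1321124 (.nr 683 524289 (.nr 671 74 .s1 (.nx 673 85 (.nr 672 517 (.l1 (.ls 23 19
  100)) (.l1 .sk)) (.nx 674 86 (.l1 .sk) (.nx 677 8193 (.lg 0 false 3 83 83 19 0 12240) (.nr 682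
  8193 (.nr 680 517 (.lg 0 true 3 71 71 19 0 12240) (.nx 681 82572 (.lg 2 true 1 61 61 13 6788
  4080) .out)) .out))))) .out) .out))) (.na 713 86 (.na 700 85 (.nx 699 1321124 (.nr 698 524289
  (.nr 686 79 .s1 (.nx 689 86 (.nx 688 85 (.nr 687 556 (.l1 (.ls 16 16 94)) (.l1 .sk)) (.l1 .sk))
  (.nx 692 8193 (.lg 0 false 3 73 73 16 0 6120) (.nr 697 8193 (.nr 695 556 (.lg 0 true 3 61 61 16 0
  6120) (.nx 696 82572 (.lg 2 true 1 47 47 16 6312 2040) .out)) .out)))) .out) .out) (.nx 712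
  1321124 (.nr 711 524289 (.nr 701 85 .s1 (.nx 704 86 (.nx 703 85 (.nr 702 563 (.l1 (.ls 16 16 87))
  (.l1 .sk)) (.l1 .sk)) (.nr 707 8193 (.lg 0 false 3 73 73 16 0 6120) (.nx 710 8193 (.lg 0 true 3
  71 71 16 0 6120) .out)))) .out) .out)) (.na 726 91 (.nx 725 1321124 (.nr 724 524289 (.nr 714 86
  .s1 (.nx 717 86 (.nx 716 85 (.nr 715 595 (.l1 (.ls 16 19 87)) (.l1 .sk)) (.l1 .sk)) (.nx 720 8193
  (.lg 0 false 3 79 79 19 0 12240) (.nr 723 8193 (.nr 721 513 (.lg 0 false 1 73 73 13 0 4080) (.nx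
  722 82572 (.lg 2 true 1 59 59 13 6841 4080) .out)) .out)))) .out) .out) (.na 727 94 .ne (.nx 739
  1321124 (.nr 738 524289 (.nr 728 94 .s1 (.nx 734 8193 (.nx 730 85 (.nr 729 635 (.l1 (.ls 16 19
  79)) (.l1 .sk)) (.nx 731 86 (.l1 .sk) (.lg 0 false 3 79 79 19 0 12240))) (.nr 737 8193 (.nr 735
  513 (.lg 2 false 1 71 71 17 597317 28560) (.nx 736 82572 (.lg 2 true 1 59 59 17 6841 4080) .out))
  .out))) .out) .out))))) (.na 795 128 (.na 762 110 (.na 751 101 (.nx 750 1321124 (.nr 749 524289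
  (.nr 741 97 .s1 (.nx 744 86 (.nx 743 85 (.nr 742 661 (.l1 (.ls 16 16 77)) (.l1 .sk)) (.l1 .sk))
  (.nx 745 8193 (.lg 0 true 1 79 79 16 0 6120) (.nr 748 8193 (.nr 746 513 (.lg 2 false 1 61 61 16
  578843 2040) (.nx 747 82572 (.lg 2 true 1 47 47 16 6841 2040) .out)) .out)))) .out) .out) (.nx
  761 1321124 (.nr 760 524289 (.nr 752 101 .s1 (.nx 756 8193 (.nx 754 85 (.nr 753 720 (.l1 (.ls 16
  16 74)) (.l1 .sk)) (.nx 755 86 (.l1 .sk) (.lg 0 true 1 79 79 16 0 2040))) (.nr 759 8193 (.nr 757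
  513 (.lg 2 false 1 61 61 16 555919 2040) (.nx 758 82572 (.lg 2 true 1 47 47 16 6841 2040) .out))
  .out))) .out) .out)) (.na 773 113 (.nx 772 1321124 (.nr 771 524289 (.nr 763 110 .s1 (.nx 766 86
  (.nx 765 85 (.nr 764 739 (.l1 (.ls 19 29 68)) (.l1 .sk)) (.l1 .sk)) (.nx 767 8193 (.lg 0 true 1
  83 83 23 0 134640) (.nr 770 8193 (.nr 768 513 (.lg 2 false 1 67 67 23 510435 44880) (.nx 769
  82572 (.lg 2 false 1 53 53 23 6841 44880) .out)) .out)))) .out) .out) (.na 784 127 (.nx 783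
  1321124 (.nr 782 524289 (.nr 774 113 .s1 (.nx 777 86 (.nx 776 85 (.nr 775 831 (.l1 (.ls 16 16
  66)) (.l1 .sk)) (.l1 .sk)) (.nx 778 8193 (.lg 0 true 1 79 79 16 0 22440) (.nr 781 8193 (.nr 779
  513 (.lg 2 false 1 59 59 16 496883 2040) (.nx 780 82572 (.lg 2 false 1 47 47 16 6841 2040) .out))
  .out)))) .out) .out) (.nx 794 1321124 (.nr 793 524289 (.nr 785 127 .s1 (.nx 788 86 (.nx 787 85
  (.nr 786 837 (.l1 (.ls 16 16 59)) (.l1 .sk)) (.l1 .sk)) (.nx 789 8193 (.lg 0 true 1 73 73 16 0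
  2040) (.nr 792 8193 (.nr 790 513 (.lg 2 false 1 53 53 16 442109 2040) (.nx 791 82572 (.lg 2 true
  1 43 43 16 6841 2040) .out)) .out)))) .out) .out)))) (.na 804 139 (.na 796 134 .ne (.nx 803
  660563 (.nr 802 1048577 (.nr 797 134 .s1 (.nx 798 205 (.l1 (.ls 61 29 316)) (.nr 801 524289 (.nr
  799 8193 (.lg 0 false 1 83 83 19 0 4080) (.nx 800 6503 (.lg 0 true 1 79 79 19 0 4080) .out))
  .out))) .out) .out)) (.na 812 142 (.nx 811 660563 (.nr 810 1048577 (.nr 805 139 .s1 (.nx 806 205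
  (.l1 (.ls 67 19 305)) (.nr 809 524289 (.nr 807 8193 (.lg 0 false 1 73 73 16 0 2040) (.nx 808 6503
  (.lg 0 true 1 73 73 16 0 2040) .out)) .out))) .out) .out) (.na 820 146 (.nx 819 660563 (.nr 818
  1048577 (.nr 813 142 .s1 (.nx 814 205 (.l1 (.ls 67 29 298)) (.nr 817 524289 (.nr 815 8193 (.lg 0
  false 1 83 83 19 0 12240) (.nx 816 6503 (.lg 0 true 1 79 79 19 0 4080) .out)) .out))) .out) .out)
  (.nx 827 660563 (.nr 826 1048577 (.nr 821 146 .s1 (.nx 822 205 (.l1 (.ls 71 29 290)) (.nr 825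
  524289 (.nr 823 8193 (.lg 0 false 1 83 83 19 0 4080) (.nx 824 6503 (.lg 0 true 1 79 79 19 0 4080)
  .out)) .out))) .out) .out))))))) (.na 961 241 (.na 888 193 (.na 860 170 (.na 844 158 (.na 836 155
  (.nx 835 660563 (.nr 834 1048577 (.nr 829 149 .s1 (.nx 830 205 (.l1 (.ls 61 19 285)) (.nr 833
  524289 (.nr 831 8193 (.lg 0 false 1 73 73 16 0 2040) (.nx 832 6503 (.lg 0 true 1 71 71 16 0 2040)
  .out)) .out))) .out) .out) (.nx 843 660563 (.nr 842 1048577 (.nr 837 155 .s1 (.nx 838 205 (.l1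
  (.ls 71 19 274)) (.nr 841 524289 (.nr 839 8193 (.lg 0 false 1 79 79 17 0 2040) (.nx 840 6503 (.lg
  0 true 1 79 79 17 0 6120) .out)) .out))) .out) .out)) (.na 852 166 (.nx 851 660563 (.nr 850
  1048577 (.nr 845 158 .s1 (.nx 846 205 (.l1 (.ls 67 29 268)) (.nr 849 524289 (.nr 847 8193 (.lg 0
  false 1 83 83 19 0 4080) (.nx 848 6503 (.lg 0 true 1 79 79 19 0 4080) .out)) .out))) .out) .out)
  (.nx 859 660563 (.nr 858 1048577 (.nr 853 166 .s1 (.nx 854 205 (.l1 (.ls 67 29 256)) (.nr 857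
  524289 (.nr 855 8193 (.lg 0 false 1 73 73 19 0 4080) (.nx 856 6503 (.lg 0 true 1 73 73 19 0 4080)
  .out)) .out))) .out) .out))) (.na 878 181 (.na 870 178 (.nx 869 660563 (.nr 868 1048577 (.nr 861
  170 .s1 (.nx 862 205 (.l1 (.ls 59 31 250)) (.nr 867 524289 (.nr 864 8193 (.lg 0 false 2 67 67 29
  0 4080) (.nx 866 6503 (.lg 0 true 2 61 61 29 0 4080) .out)) .out))) .out) .out) (.nx 877 660563
  (.nr 876 1048577 (.nr 871 178 .s1 (.nx 872 205 (.l1 (.ls 71 29 239)) (.nr 875 524289 (.nr 873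
  8193 (.lg 0 false 1 79 79 19 0 12240) (.nx 874 6503 (.lg 0 true 1 73 73 19 0 12240) .out))
  .out))) .out) .out)) (.na 879 187 (.lg 0 false 1 0 0 16 0 24) (.na 887 191 (.nx 886 660563 (.nr
  885 1048577 (.nr 880 187 .s1 (.nx 881 205 (.l1 (.ls 67 23 227)) (.nr 884 524289 (.nr 882 8193
  (.lg 0 false 1 73 73 16 0 67320) (.nx 883 6503 (.lg 0 true 1 71 71 16 0 22440) .out)) .out)))
  .out) .out) (.lg 0 false 1 0 0 16 0 24))))) (.na 928 223 (.na 904 197 (.na 896 194 (.nx 895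
  660563 (.nr 894 1048577 (.nr 889 193 .s1 (.nx 890 205 (.l1 (.ls 61 17 220)) (.nr 893 524289 (.nr
  891 8193 (.lg 0 false 1 71 71 16 0 2040) (.nx 892 6503 (.lg 0 true 1 71 71 16 0 2040) .out))
  .out))) .out) .out) (.nx 903 660563 (.nr 902 1048577 (.nr 897 194 .s1 (.nx 898 205 (.l1 (.ls 61
  23 219)) (.nr 901 524289 (.nr 899 8193 (.lg 0 false 1 73 73 19 0 4080) (.nx 900 6503 (.lg 0 true
  1 71 71 19 0 4080) .out)) .out))) .out) .out)) (.na 912 202 (.nx 911 660563 (.nr 910 1048577 (.nr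
  905 197 .s1 (.nx 906 205 (.l1 (.ls 61 17 216)) (.nr 909 524289 (.nr 907 8193 (.lg 0 false 1 73 73
  16 0 2040) (.nx 908 6503 (.lg 0 true 1 71 71 16 0 2040) .out)) .out))) .out) .out) (.na 920 206
  (.nx 919 660563 (.nr 918 1048577 (.nr 913 202 .s1 (.nx 914 205 (.l1 (.ls 61 23 211)) (.nr 917
  524289 (.nr 915 8193 (.lg 0 false 1 73 73 23 0 4080) (.nx 916 6503 (.lg 0 true 1 71 71 23 0 4080)
  .out)) .out))) .out) .out) (.nx 927 660563 (.nr 926 1048577 (.nr 921 206 .s1 (.nx 922 205 (.l1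
  (.ls 67 23 207)) (.nr 925 524289 (.nr 923 8193 (.lg 0 false 1 73 73 23 0 4080) (.nx 924 6503 (.lg
  0 true 1 73 73 23 0 44880) .out)) .out))) .out) .out)))) (.na 944 229 (.na 936 226 (.nx 935
  660563 (.nr 934 1048577 (.nr 929 223 .s1 (.nx 930 205 (.l1 (.ls 61 17 191)) (.nr 933 524289 (.nr
  931 8193 (.lg 0 false 1 71 71 16 0 2040) (.nx 932 6503 (.lg 0 true 1 67 67 16 0 2040) .out))
  .out))) .out) .out) (.nx 943 660563 (.nr 942 1048577 (.nr 937 226 .s1 (.nx 938 205 (.l1 (.ls 61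
  23 188)) (.nr 941 524289 (.nr 939 8193 (.lg 0 false 1 71 71 23 0 4080) (.nx 940 6503 (.lg 0 true
  1 67 67 23 0 4080) .out)) .out))) .out) .out)) (.na 952 235 (.nx 951 660563 (.nr 950 1048577 (.nr
  945 229 .s1 (.nx 946 205 (.l1 (.ls 59 17 186)) (.nr 949 524289 (.nr 947 8193 (.lg 0 false 1 71 71
  17 0 2040) (.nx 948 6503 (.lg 0 true 1 67 67 17 0 2040) .out)) .out))) .out) .out) (.na 960 239
  (.nx 959 660563 (.nr 958 1048577 (.nr 953 235 .s1 (.nx 954 1292 (.l1 (.ls 67 41 7106)) (.nr 957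
  262145 (.nr 955 8193 (.lg 0 false 1 73 73 17 0 2040) (.nx 956 6503 (.lg 0 true 1 67 67 17 0 2040)
  .out)) .out))) .out) .out) (.lg 0 false 1 0 0 16 0 24)))))) (.na 2227 1024 (.na 972 254 (.na 970
  250 (.na 962 242 (.lg 0 false 1 0 0 16 0 24) (.nx 969 660563 (.nr 968 1048577 (.nr 963 242 .s1
  (.nx 964 205 (.l1 (.ls 67 29 176)) (.nr 967 524289 (.nr 965 8193 (.lg 0 false 1 73 73 29 0 44880)
  (.nx 966 6503 (.lg 0 true 1 71 71 29 0 44880) .out)) .out))) .out) .out)) (.na 971 251 (.lg 0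
  false 1 0 0 16 0 24) (.lg 0 false 1 0 0 16 0 24))) (.na 981 257 (.na 980 256 (.nx 979 660563 (.nr
  978 1048577 (.nr 973 254 .s1 (.nx 974 205 (.l1 (.ls 61 23 168)) (.nr 977 524289 (.nr 975 8193
  (.lg 0 false 1 71 71 23 0 4080) (.nx 976 6503 (.lg 0 true 1 71 71 23 0 12240) .out)) .out)))
  .out) .out) .ne) (.na 1495 512 (.nx 1494 82572 (.nr 1493 1048577 (.nr 982 257 .s1 (.nx 1237 647
  (.la (.ls 67 29 1631)) (.nr 1492 262145 (.la (.lg 0 true 1 73 73 19 0)) .out))) .out) .out) (.na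
  1925 725 (.nx 1924 82572 (.nr 1923 1048577 (.nr 1496 512 .s1 (.nx 1709 5162 (.la (.ls 61 47
  52046)) (.nr 1922 16385 (.la (.lg 2 true 1 37 37 23 11528)) .out))) .out) .out) (.nx 2226 3252
  (.nr 2225 262145 (.nr 1926 725 .s1 (.la (.ls 47 43 14589))) .out) .out))))) (.na 5579 8192 (.na
  3343 2048 (.na 2655 1449 (.nx 2654 3252 (.nr 2653 262145 (.nr 2228 1024 .s1 (.la (.ls 47 41
  10330))) .out) .out) (.nx 3342 1627 (.nr 3341 131073 (.nr 2656 1449 .s1 (.nx 2741 85 (.nr 2740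
  13391 (.lx (.lp 16 0 513)) (.l1 .sk)) (.nx 2742 86 (.l1 .sk) (.la (.ls 41 31 1824))))) .out)
  .out)) (.na 4281 2897 (.nx 4280 1627 (.nr 4279 131073 (.nr 3344 2048 .s1 (.nx 3429 85 (.nr 3428
  18942 (.lx (.lp 16 0 725)) (.l1 .sk)) (.nx 3430 86 (.l1 .sk) (.la (.ls 41 31 1291))))) .out)
  .out) (.na 4930 4096 (.nx 4929 647 (.nr 4928 65537 (.nr 4282 2897 .s1 (.lx (.lp 37 31 1025)))
  .out) .out) (.nx 5578 647 (.nr 5577 65537 (.nr 4931 4096 .s1 (.lx (.lp 31 37 2049))) .out)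
  .out)))) (.na 6877 32768 (.na 6228 16384 (.nx 6227 647 (.nr 6226 65537 (.nr 5580 8192 .s1 (.lx
  (.lp 29 41 4097))) .out) .out) (.nx 6876 647 (.nr 6875 131073 (.nr 6229 16384 .s1 (.lx (.lp 29 43
  8193))) .out) .out)) (.na 7203 65536 (.nx 7202 324 (.nr 7201 131073 (.nr 6878 32768 .s1 (.lx (.lp
  16 41 16385))) .out) .out) (.na 7529 131073 (.nx 7528 324 (.nr 7527 262145 (.nr 7204 65536 .s1
  (.lx (.lp 16 0 32769))) .out) .out) .out)))))))

def T143_1 : Ph :=
  (.na 592 146 (.na 375 67 (.na 228 36 (.na 129 21 (.na 62 14 (.na 2 12 (.na 1 10 (.lg 0 false 1 0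
  0 7 0 24) .ne) (.na 26 13 (.nx 25 660563 (.nr 24 623489 (.nr 3 10 .s1 (.nx 6 49 (.nx 5 48 (.nr 4
  64 (.lg 0 true 1 17 17 13 0 5040) (.l1 .sk)) (.l1 .sk)) (.nx 7 103 (.l1 (.ls 79 37 687)) (.nr 23
  131073 (.nx 12 6503 (.lg 0 false 5 83 83 17 0 720) (.nr 22 46342 (.nr 19 154 (.lg 0 true 7 67 67
  19 0 1008) (.nx 21 41287 (.lg 1 false 2 89 89 13 8219 5040) .out)) .out)) .out)))) .out) .out)
  (.nx 61 660563 (.nr 60 623489 (.nr 27 12 .s1 (.nx 29 48 (.nr 28 69 (.l1 (.ls 19 19 180)) (.l1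
  .sk)) (.nx 30 49 (.l1 .sk) (.nx 31 103 (.l1 (.ls 83 23 634)) (.nr 59 131073 (.nr 38 154 (.lg 0
  true 7 67 67 16 0 4368) (.nx 58 41287 (.nr 52 46342 (.nr 41 2671 (.nx 39 1153 (.lg 0 true 1 61 61
  9 0 624) (.lg 2 false 2 61 61 11 6435 624)) (.lg 0 false 11 83 83 16 0 6864)) (.nx 57 6503 (.lg 0
  false 5 89 89 16 0 65520) .out)) .out)) .out))))) .out) .out))) (.na 109 18 (.na 87 16 (.nx 86
  660563 (.nr 85 623489 (.nr 63 13 .s1 (.nx 66 49 (.nx 65 48 (.nr 64 79 (.l1 (.ls 17 23 167)) (.l1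
  .sk)) (.l1 .sk)) (.nx 73 6503 (.nx 67 103 (.l1 (.ls 73 31 589)) (.nr 72 131073 (.lg 0 false 5 83
  83 13 0 1680) .out)) (.nr 84 46342 (.nr 78 154 (.lg 0 true 5 67 67 13 0 1680) (.nx 83 41287 (.lg
  1 true 5 79 79 13 8219 5040) .out)) .out)))) .out) .out) (.nx 108 660563 (.nr 107 623489 (.nr 88
  15 .s1 (.nx 92 103 (.nx 90 48 (.nr 89 89 (.l1 (.ls 19 19 146)) (.l1 .sk)) (.nx 91 49 (.l1 .sk)
  (.l1 (.ls 79 29 516)))) (.nr 106 131073 (.nx 97 6503 (.lg 0 false 5 79 79 17 0 240) (.nr 105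
  46342 (.nr 102 257 (.lg 0 true 5 67 67 17 0 240) (.nx 104 41287 (.nx 103 13620 (.lg 1 true 1 73
  73 11 8219 144) (.lg 1 false 1 79 79 11 3924 144)) .out)) .out)) .out))) .out) .out)) (.na 110 19
  (.lg 0 false 1 0 0 7 0 24) (.nx 128 660563 (.nr 127 623489 (.nr 111 18 .s1 (.nx 118 6503 (.nx 112
  103 (.l1 (.ls 79 23 561)) (.nr 117 131073 (.lg 0 false 5 83 83 16 0 240) .out)) (.nr 126 46342
  (.nr 123 257 (.lg 0 true 5 71 71 16 0 240) (.nx 125 41287 (.lg 1 true 2 79 79 11 8219 144) .out))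
  .out))) .out) .out)))) (.na 184 27 (.na 149 24 (.na 148 23 (.nx 147 660563 (.nr 146 623489 (.nr
  130 20 .s1 (.nx 137 6503 (.nx 131 103 (.l1 (.ls 73 29 508)) (.nr 136 131073 (.lg 0 false 5 79 79
  17 0 5040) .out)) (.nr 145 46342 (.nr 142 257 (.lg 0 true 5 67 67 17 0 5040) (.nx 144 41287 (.lg
  1 false 2 79 79 16 8219 1008) .out)) .out))) .out) .out) .ne) (.na 166 26 (.nx 165 660563 (.nr
  164 131073 (.nr 150 23 .s1 (.nx 158 6503 (.nx 152 48 (.nr 151 128 (.l1 (.ls 16 23 98)) (.l1 .sk))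
  (.nx 153 49 (.l1 .sk) (.lg 0 false 5 73 73 19 0 720))) (.nr 163 32769 (.nr 161 257 (.lg 0 true 3
  61 61 19 0 144) (.nx 162 41287 (.lg 1 false 1 73 73 13 5814 144) .out)) .out))) .out) .out) (.nx
  183 660563 (.nr 182 131073 (.nr 167 26 .s1 (.nx 175 6503 (.nx 169 48 (.nr 168 133 (.l1 (.ls 17 23
  91)) (.l1 .sk)) (.nx 170 49 (.l1 .sk) (.lg 0 false 5 79 79 19 0 3120))) (.nr 181 32769 (.nr 179
  257 (.lg 0 true 4 67 67 19 0 624) (.nx 180 41287 (.lg 1 false 1 79 79 11 5814 1872) .out))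
  .out))) .out) .out))) (.na 198 31 (.na 185 28 (.lg 0 false 1 0 0 7 0 24) (.nx 197 660563 (.nr 196
  131073 (.nr 186 28 .s1 (.nx 191 6503 (.nx 188 48 (.nr 187 153 (.l1 (.ls 23 23 85)) (.l1 .sk))
  (.nx 189 49 (.l1 .sk) (.lg 0 false 2 83 83 19 0 5040))) (.nr 195 32769 (.nr 193 257 (.lg 0 true 2
  67 67 19 0 336) (.nx 194 41287 (.lg 1 false 1 83 83 13 5814 5040) .out)) .out))) .out) .out))
  (.na 212 32 (.nx 211 660563 (.nr 210 131073 (.nr 199 31 .s1 (.nx 204 6503 (.nx 201 48 (.nr 200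
  158 (.l1 (.ls 16 16 77)) (.l1 .sk)) (.nx 202 49 (.l1 .sk) (.lg 0 true 2 79 79 16 0 144))) (.nr
  209 32769 (.nr 207 257 (.lg 0 true 3 67 67 16 0 144) (.nx 208 41287 (.lg 1 false 1 79 79 13 5814
  144) .out)) .out))) .out) .out) (.na 227 33 (.nx 226 660563 (.nr 225 262145 (.nr 213 32 .s1 (.nx
  216 49 (.nx 215 48 (.nr 214 163 (.l1 (.ls 19 19 74)) (.l1 .sk)) (.l1 .sk)) (.nx 218 2582 (.lg 0
  false 2 79 79 13 0 48) (.nr 224 55110 (.nx 219 6503 (.lg 1 true 1 73 73 13 24615 720) (.nr 223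
  32769 (.nr 221 257 (.lg 0 true 2 67 67 13 0 48) (.nx 222 41287 (.lg 1 false 1 79 79 13 5814 720)
  .out)) .out)) .out)))) .out) .out) .ne))))) (.na 307 52 (.na 266 42 (.na 241 38 (.na 229 37 (.lg
  0 false 1 0 0 7 0 24) (.nx 240 82572 (.nr 239 262145 (.nr 230 37 .s1 (.nx 233 49 (.nx 232 48 (.nr
  231 188 (.l1 (.ls 17 16 65)) (.l1 .sk)) (.l1 .sk)) (.nr 237 32769 (.nx 235 41287 (.lg 0 false 2
  83 83 16 0 48) (.nr 236 154 (.lg 0 false 1 53 53 16 0 48) .out)) (.nx 238 2582 (.lg 0 true 1 83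
  83 16 0 48) .out)))) .out) .out)) (.na 253 39 (.nx 252 82572 (.nr 251 262145 (.nr 242 38 .s1 (.nx
  245 49 (.nx 244 48 (.nr 243 192 (.l1 (.ls 16 17 63)) (.l1 .sk)) (.l1 .sk)) (.nr 249 32769 (.nx
  247 41287 (.lg 0 false 2 79 79 13 0 48) (.nr 248 154 (.lg 0 true 1 47 47 13 0 48) .out)) (.nx 250
  2582 (.lg 0 true 1 79 79 13 0 48) .out)))) .out) .out) (.nx 265 82572 (.nr 264 262145 (.nr 254 39
  .s1 (.nx 257 49 (.nx 256 48 (.nr 255 207 (.l1 (.ls 16 17 62)) (.l1 .sk)) (.l1 .sk)) (.nr 262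
  32769 (.lg 0 true 5 79 79 19 0 9360) (.nx 263 2582 (.lg 0 true 1 79 79 16 0 1872) .out)))) .out)
  .out))) (.na 286 48 (.na 276 43 (.nx 275 82572 (.nr 274 262145 (.nr 267 42 .s1 (.nx 269 48 (.nr
  268 212 (.l1 (.ls 19 23 57)) (.l1 .sk)) (.nx 270 49 (.l1 .sk) (.nr 272 32769 (.lg 0 false 2 83 83
  23 0 5040) (.nx 273 2582 (.lg 0 true 1 79 79 19 0 1008) .out))))) .out) .out) (.nx 285 82572 (.nr
  284 262145 (.nr 277 43 .s1 (.nx 279 48 (.nr 278 237 (.l1 (.ls 17 16 56)) (.l1 .sk)) (.nx 280 49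
  (.l1 .sk) (.nr 282 32769 (.lg 0 false 2 89 89 16 0 5040) (.nx 283 2582 (.lg 0 true 1 83 83 16 0
  5040) .out))))) .out) .out)) (.na 297 49 (.nx 296 82572 (.nr 295 262145 (.nr 287 48 .s1 (.nx 289
  48 (.nr 288 242 (.l1 (.ls 23 19 50)) (.l1 .sk)) (.nx 290 49 (.l1 .sk) (.nx 293 41287 (.nr 291
  32769 (.lg 0 false 1 89 89 19 0 5040) (.nx 292 2582 (.lg 0 false 1 79 79 19 0 144) .out)) (.nr
  294 154 (.lg 0 true 1 53 53 19 0 5040) .out))))) .out) .out) (.nx 306 82572 (.nr 305 262145 (.nr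
  298 49 .s1 (.nx 301 49 (.nx 300 48 (.nr 299 256 (.l1 (.ls 16 16 50)) (.l1 .sk)) (.l1 .sk)) (.nr
  303 32769 (.lg 0 false 2 79 79 16 0 1008) (.nx 304 2582 (.lg 0 true 1 73 73 16 0 1008) .out))))
  .out) .out)))) (.na 340 61 (.na 319 56 (.na 318 54 (.nx 317 82572 (.nr 316 262145 (.nr 308 52 .s1
  (.nx 310 48 (.nr 309 266 (.l1 (.ls 23 19 47)) (.l1 .sk)) (.nx 311 49 (.l1 .sk) (.nx 314 41287
  (.nr 312 32769 (.lg 0 false 1 83 83 19 0 624) (.nx 313 2582 (.lg 0 false 1 79 79 19 0 624) .out))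
  (.nr 315 154 (.lg 0 true 1 47 47 19 0 624) .out))))) .out) .out) (.lg 0 false 1 0 0 16 0 24))
  (.na 330 57 (.nx 329 82572 (.nr 328 262145 (.nr 320 56 .s1 (.nx 323 49 (.nx 322 48 (.nr 321 281
  (.l1 (.ls 19 19 44)) (.l1 .sk)) (.l1 .sk)) (.nx 326 41287 (.nr 324 32769 (.lg 0 false 1 79 79 19
  0 336) (.nx 325 2582 (.lg 0 false 1 73 73 19 0 336) .out)) (.nr 327 154 (.lg 0 true 1 43 43 19 0
  336) .out)))) .out) .out) (.nx 339 82572 (.nr 338 262145 (.nr 331 57 .s1 (.nx 333 48 (.nr 332 301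
  (.l1 (.ls 17 16 43)) (.l1 .sk)) (.nx 334 49 (.l1 .sk) (.nr 336 32769 (.lg 0 false 2 89 89 16 0
  5040) (.nx 337 2582 (.lg 0 true 1 79 79 16 0 144) .out))))) .out) .out))) (.na 360 63 (.na 350 62
  (.nx 349 82572 (.nr 348 262145 (.nr 341 61 .s1 (.nx 343 48 (.nr 342 306 (.l1 (.ls 16 16 40)) (.l1
  .sk)) (.nx 344 49 (.l1 .sk) (.nr 346 32769 (.lg 0 true 2 79 79 16 0 48) (.nx 347 2582 (.lg 0 true
  1 73 73 16 0 1008) .out))))) .out) .out) (.nx 359 82572 (.nr 358 262145 (.nr 351 62 .s1 (.nx 354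
  49 (.nx 353 48 (.nr 352 311 (.l1 (.ls 29 13 40)) (.l1 .sk)) (.l1 .sk)) (.nr 356 32769 (.lg 0
  false 2 83 83 17 0 48) (.nx 357 2582 (.lg 0 true 1 79 79 13 0 48) .out)))) .out) .out)) (.na 361
  64 (.lg 0 false 1 0 0 16 0 24) (.na 374 65 (.nx 373 82572 (.nr 372 524289 (.nr 362 64 .s1 (.nx
  368 6503 (.nx 364 48 (.nr 363 321 (.l1 (.ls 23 13 38)) (.l1 .sk)) (.nx 365 49 (.l1 .sk) (.nr 366
  262145 (.lg 0 false 1 83 83 19 0 1008) (.nx 367 647 (.lg 0 false 1 71 71 19 0 48) .out)))) (.nr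
  371 65537 (.nr 369 257 (.lg 0 true 1 59 59 19 0 1008) (.nx 370 41287 (.lg 1 true 1 79 79 19 11620
  1008) .out)) .out))) .out) .out) .ne)))))) (.na 504 108 (.na 428 84 (.na 401 76 (.na 385 73 (.na
  384 72 (.nx 383 82572 (.nr 382 524289 (.nr 376 67 .s1 (.nx 377 647 (.l1 (.ls 71 37 6250)) (.nr
  381 262145 (.nx 378 6503 (.lg 0 true 1 79 79 16 0 48) (.nr 380 65537 (.lg 1 true 2 79 79 16 29579
  144) .out)) .out))) .out) .out) (.lg 0 false 1 0 0 16 0 24)) (.na 393 74 (.nx 392 82572 (.nr 391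
  524289 (.nr 386 73 .s1 (.nx 387 647 (.l1 (.ls 67 37 5737)) (.nr 390 262145 (.nx 388 6503 (.lg 0
  true 1 83 83 16 0 720) (.nr 389 65537 (.lg 1 false 1 83 83 16 27147 144) .out)) .out))) .out)
  .out) (.nx 400 82572 (.nr 399 524289 (.nr 394 74 .s1 (.nx 397 6503 (.nx 395 647 (.l1 (.ls 67 47
  5659)) (.nr 396 262145 (.lg 0 true 1 79 79 13 0 144) .out)) (.nr 398 65537 (.lg 1 false 1 79 79
  13 26781 144) .out))) .out) .out))) (.na 419 79 (.na 411 78 (.nx 410 82572 (.nr 409 524289 (.nr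
  402 76 .s1 (.nx 407 41287 (.nx 405 6503 (.nx 403 647 (.l1 (.ls 73 47 5511)) (.nr 404 262145 (.lg
  0 true 1 83 83 17 0 1008) .out)) (.nr 406 65537 (.lg 1 false 1 73 73 17 13038 1008) .out)) (.nr
  408 257 (.lg 0 true 1 47 47 17 0 48) .out))) .out) .out) (.nx 418 82572 (.nr 417 524289 (.nr 412
  78 .s1 (.nx 413 647 (.l1 (.ls 71 53 5369)) (.nr 416 262145 (.nx 414 6503 (.lg 0 true 1 79 79 23 0
  1872) (.nr 415 65537 (.lg 1 false 1 83 83 23 25407 65520) .out)) .out))) .out) .out)) (.na 427 81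
  (.nx 426 82572 (.nr 425 524289 (.nr 420 79 .s1 (.nx 423 6503 (.nx 421 647 (.l1 (.ls 61 37 5301))
  (.nr 422 262145 (.lg 0 true 1 79 79 16 0 1008) .out)) (.nr 424 65537 (.lg 1 false 1 79 79 16
  25086 144) .out))) .out) .out) (.lg 0 false 1 0 0 16 0 24)))) (.na 464 96 (.na 446 91 (.na 438 86
  (.nx 437 82572 (.nr 436 524289 (.nr 429 84 .s1 (.nx 430 647 (.l1 (.ls 73 53 4986)) (.nr 435
  262145 (.nx 431 6503 (.lg 0 true 1 79 79 29 0 1008) (.nr 434 65537 (.nx 432 41287 (.lg 1 true 1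
  71 71 29 11797 1008) (.nr 433 257 (.lg 0 true 1 47 47 29 0 1008) .out)) .out)) .out))) .out)
  .out) (.nx 445 82572 (.nr 444 524289 (.nr 439 86 .s1 (.nx 440 647 (.l1 (.ls 67 41 4870)) (.nr 443
  262145 (.nx 441 6503 (.lg 0 true 1 73 73 13 0 48) (.nr 442 65537 (.lg 1 false 1 79 79 13 23044
  144) .out)) .out))) .out) .out)) (.na 456 93 (.nx 455 82572 (.nr 454 524289 (.nr 447 91 .s1 (.nx
  448 647 (.l1 (.ls 73 41 4603)) (.nr 453 262145 (.nx 451 41287 (.nx 449 6503 (.lg 0 false 1 79 79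
  19 0 4368) (.nr 450 65537 (.lg 1 false 1 73 73 19 11620 13104) .out)) (.nr 452 257 (.lg 0 true 1
  47 47 19 0 13104) .out)) .out))) .out) .out) (.nx 463 82572 (.nr 462 524289 (.nr 457 93 .s1 (.nx
  460 6503 (.nx 458 647 (.l1 (.ls 71 43 4504)) (.nr 459 262145 (.lg 0 true 1 79 79 16 0 5040)
  .out)) (.nr 461 65537 (.lg 1 false 1 79 79 16 21309 144) .out))) .out) .out))) (.na 480 98 (.na
  472 97 (.nx 471 82572 (.nr 470 524289 (.nr 465 96 .s1 (.nx 466 647 (.l1 (.ls 71 47 4363)) (.nr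
  469 262145 (.nx 467 6503 (.lg 0 false 1 73 73 23 0 144) (.nr 468 65537 (.lg 1 true 1 73 73 23
  20643 144) .out)) .out))) .out) .out) (.nx 479 82572 (.nr 478 524289 (.nr 473 97 .s1 (.nx 474 647
  (.l1 (.ls 67 31 4318)) (.nr 477 262145 (.nx 475 6503 (.lg 0 true 1 73 73 16 0 48) (.nr 476 65537
  (.lg 1 false 1 73 73 16 20431 144) .out)) .out))) .out) .out)) (.na 488 103 (.nx 487 82572 (.nr
  486 524289 (.nr 481 98 .s1 (.nx 484 6503 (.nx 482 647 (.l1 (.ls 67 43 4274)) (.nr 483 262145 (.lg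
  0 true 1 73 73 19 0 336) .out)) (.nr 485 65537 (.lg 1 false 1 73 73 19 20222 1008) .out))) .out)
  .out) (.na 496 104 (.nx 495 82572 (.nr 494 524289 (.nr 489 103 .s1 (.nx 490 647 (.l1 (.ls 67 31
  4067)) (.nr 493 262145 (.nx 491 6503 (.lg 0 true 1 71 71 16 0 48) (.nr 492 65537 (.lg 1 false 1
  73 73 16 19241 144) .out)) .out))) .out) .out) (.nx 503 82572 (.nr 502 524289 (.nr 497 104 .s1
  (.nx 500 6503 (.nx 498 647 (.l1 (.ls 71 43 4028)) (.nr 499 262145 (.lg 0 false 1 73 73 23 0 624)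
  .out)) (.nr 501 65537 (.lg 1 false 1 79 79 23 19056 13104) .out))) .out) .out)))))) (.na 555 127
  (.na 529 114 (.na 513 111 (.na 505 109 (.lg 0 false 1 0 0 16 0 24) (.nx 512 82572 (.nr 511 524289
  (.nr 506 109 .s1 (.nx 509 6503 (.nx 507 647 (.l1 (.ls 61 31 3843)) (.nr 508 262145 (.lg 0 true 1
  67 67 16 0 48) .out)) (.nr 510 65537 (.lg 1 false 1 71 71 16 18181 144) .out))) .out) .out)) (.na
  521 112 (.nx 520 82572 (.nr 519 524289 (.nr 514 111 .s1 (.nx 517 6503 (.nx 515 647 (.l1 (.ls 67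
  41 3774)) (.nr 516 262145 (.lg 0 true 1 73 73 17 0 1008) .out)) (.nr 518 65537 (.lg 1 false 1 73
  73 17 17854 1008) .out))) .out) .out) (.nx 528 82572 (.nr 527 524289 (.nr 522 112 .s1 (.nx 525
  6503 (.nx 523 647 (.l1 (.ls 73 43 3740)) (.nr 524 262145 (.lg 0 false 1 83 83 29 0 5040) .out))
  (.nr 526 65537 (.lg 1 true 1 83 83 29 17694 5040) .out))) .out) .out))) (.na 538 122 (.na 537 117
  (.nx 536 82572 (.nr 535 524289 (.nr 530 114 .s1 (.nx 533 6503 (.nx 531 647 (.l1 (.ls 67 47 3675))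
  (.nr 532 262145 (.lg 0 true 1 73 73 29 0 144) .out)) (.nr 534 65537 (.lg 1 false 1 73 73 29 17384
  144) .out))) .out) .out) (.lg 0 false 1 0 0 16 0 24)) (.na 546 124 (.nx 545 82572 (.nr 544 524289
  (.nr 539 122 .s1 (.nx 542 6503 (.nx 540 647 (.l1 (.ls 59 41 3434)) (.nr 541 262145 (.lg 0 true 1
  73 73 19 0 720) .out)) (.nr 543 65537 (.lg 1 false 1 73 73 19 16244 720) .out))) .out) .out) (.na
  554 126 (.nx 553 82572 (.nr 552 524289 (.nr 547 124 .s1 (.nx 550 6503 (.nx 548 647 (.l1 (.ls 71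
  43 3378)) (.nr 549 262145 (.lg 0 false 1 73 73 19 0 48) .out)) (.nr 551 65537 (.lg 1 true 1 73 73
  19 15982 144) .out))) .out) .out) (.lg 0 false 1 0 0 16 0 24))))) (.na 572 133 (.na 565 129 (.na
  564 128 (.nx 563 82572 (.nr 562 524289 (.nr 556 127 .s1 (.nx 557 647 (.l1 (.ls 61 31 3299)) (.nr
  561 262145 (.nx 559 41287 (.lg 0 false 2 73 73 16 0 48) (.nr 560 257 (.lg 0 true 1 37 37 16 0
  5040) .out)) .out))) .out) .out) (.lg 0 false 1 0 0 16 0 24)) (.na 571 131 (.nx 570 41287 (.nr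
  569 1048577 (.nr 566 129 .s1 (.nx 567 647 (.l1 (.ls 71 37 3248)) (.nr 568 131073 (.lg 0 true 1 79
  79 17 0 144) .out))) .out) .out) (.lg 0 false 1 0 0 16 0 24))) (.na 584 137 (.na 578 134 (.nx 577
  41287 (.nr 576 1048577 (.nr 573 133 .s1 (.nx 574 647 (.l1 (.ls 79 41 3150)) (.nr 575 131073 (.lg
  0 true 1 89 89 17 0 5040) .out))) .out) .out) (.nx 583 41287 (.nr 582 1048577 (.nr 579 134 .s1
  (.nx 580 647 (.l1 (.ls 61 41 3126)) (.nr 581 131073 (.lg 0 true 1 79 79 19 0 48) .out))) .out)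
  .out)) (.na 585 139 (.lg 0 false 1 0 0 16 0 24) (.na 591 144 (.nx 590 41287 (.nr 589 1048577 (.nr
  586 139 .s1 (.nx 587 647 (.l1 (.ls 67 31 3014)) (.nr 588 131073 (.lg 0 true 1 73 73 16 0 48)
  .out))) .out) .out) (.lg 0 false 1 0 0 16 0 24)))))))) (.na 751 216 (.na 669 179 (.na 635 158
  (.na 611 151 (.na 604 148 (.na 598 147 (.nx 597 41287 (.nr 596 1048577 (.nr 593 146 .s1 (.nx 594
  647 (.l1 (.ls 67 41 2870)) (.nr 595 131073 (.lg 0 true 1 79 79 19 0 48) .out))) .out) .out) (.nx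
  603 41287 (.nr 602 1048577 (.nr 599 147 .s1 (.nx 600 647 (.l1 (.ls 71 41 2850)) (.nr 601 131073
  (.lg 0 true 1 79 79 19 0 5040) .out))) .out) .out)) (.na 610 149 (.nx 609 41287 (.nr 608 1048577
  (.nr 605 148 .s1 (.nx 606 647 (.l1 (.ls 73 43 2831)) (.nr 607 131073 (.lg 0 true 1 89 89 23 0
  5040) .out))) .out) .out) (.lg 0 false 1 0 0 16 0 24))) (.na 623 156 (.na 617 152 (.nx 616 41287
  (.nr 615 1048577 (.nr 612 151 .s1 (.nx 613 647 (.l1 (.ls 61 31 2775)) (.nr 614 131073 (.lg 0 true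
  1 73 73 16 0 144) .out))) .out) .out) (.nx 622 41287 (.nr 621 1048577 (.nr 618 152 .s1 (.nx 619
  647 (.l1 (.ls 73 43 2757)) (.nr 620 131073 (.lg 0 false 1 83 83 29 0 48) .out))) .out) .out))
  (.na 629 157 (.nx 628 41287 (.nr 627 1048577 (.nr 624 156 .s1 (.nx 625 647 (.l1 (.ls 73 47 2686))
  (.nr 626 131073 (.lg 0 false 1 79 79 31 0 1872) .out))) .out) .out) (.nx 634 41287 (.nr 633
  1048577 (.nr 630 157 .s1 (.nx 631 647 (.l1 (.ls 67 31 2669)) (.nr 632 131073 (.lg 0 true 1 73 73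
  16 0 720) .out))) .out) .out)))) (.na 649 168 (.na 642 163 (.na 641 162 (.nx 640 41287 (.nr 639
  1048577 (.nr 636 158 .s1 (.nx 637 647 (.l1 (.ls 67 41 2652)) (.nr 638 131073 (.lg 0 true 1 79 79
  19 0 720) .out))) .out) .out) (.lg 0 false 1 0 0 16 0 24)) (.na 648 167 (.nx 647 41287 (.nr 646
  1048577 (.nr 643 163 .s1 (.nx 644 647 (.l1 (.ls 67 31 2571)) (.nr 645 131073 (.lg 0 true 1 73 73
  16 0 48) .out))) .out) .out) (.lg 0 false 1 0 0 16 0 24))) (.na 661 171 (.na 655 169 (.nx 654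
  41287 (.nr 653 1048577 (.nr 650 168 .s1 (.nx 651 647 (.l1 (.ls 73 47 2494)) (.nr 652 131073 (.lg
  0 true 1 83 83 31 0 5040) .out))) .out) .out) (.nx 660 41287 (.nr 659 1048577 (.nr 656 169 .s1
  (.nx 657 647 (.l1 (.ls 67 37 2479)) (.nr 658 131073 (.lg 0 true 1 73 73 17 0 624) .out))) .out)
  .out)) (.na 662 172 (.lg 0 false 1 0 0 16 0 24) (.na 668 173 (.nx 667 41287 (.nr 666 1048577 (.nr
  663 172 .s1 (.nx 664 647 (.l1 (.ls 73 41 2436)) (.nr 665 131073 (.lg 0 true 1 83 83 23 0 720)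
  .out))) .out) .out) (.lg 0 false 1 0 0 16 0 24)))))) (.na 702 193 (.na 688 186 (.na 676 182 (.na
  670 181 (.lg 0 false 1 0 0 16 0 24) (.nx 675 41287 (.nr 674 1048577 (.nr 671 181 .s1 (.nx 672 647
  (.l1 (.ls 61 31 2315)) (.nr 673 131073 (.lg 0 true 1 71 71 16 0 48) .out))) .out) .out)) (.na 682
  183 (.nx 681 41287 (.nr 680 1048577 (.nr 677 182 .s1 (.nx 678 647 (.l1 (.ls 73 43 2303)) (.nr 679
  131073 (.lg 0 true 1 83 83 31 0 65520) .out))) .out) .out) (.nx 687 41287 (.nr 686 1048577 (.nr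
  683 183 .s1 (.nx 684 647 (.l1 (.ls 59 37 2290)) (.nr 685 131073 (.lg 0 true 1 79 79 17 0 144)
  .out))) .out) .out))) (.na 695 191 (.na 694 189 (.nx 693 41287 (.nr 692 1048577 (.nr 689 186 .s1
  (.nx 690 647 (.l1 (.ls 67 47 2253)) (.nr 691 131073 (.lg 0 true 1 73 73 29 0 144) .out))) .out)
  .out) (.lg 0 false 1 0 0 16 0 24)) (.na 696 192 (.lg 0 false 1 0 0 16 0 24) (.nx 701 41287 (.nr
  700 1048577 (.nr 697 192 .s1 (.nx 698 647 (.l1 (.ls 73 43 2183)) (.nr 699 131073 (.lg 0 false 1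
  79 83 31 0 720) .out))) .out) .out)))) (.na 721 199 (.na 714 196 (.na 708 194 (.nx 707 41287 (.nr
  706 1048577 (.nr 703 193 .s1 (.nx 704 647 (.l1 (.ls 61 29 2171)) (.nr 705 131073 (.lg 0 true 1 71
  71 16 0 48) .out))) .out) .out) (.nx 713 41287 (.nr 712 1048577 (.nr 709 194 .s1 (.nx 710 647
  (.l1 (.ls 61 41 2160)) (.nr 711 131073 (.lg 0 true 1 71 71 19 0 48) .out))) .out) .out)) (.na 720
  197 (.nx 719 41287 (.nr 718 1048577 (.nr 715 196 .s1 (.nx 716 647 (.l1 (.ls 71 41 2138)) (.nr 717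
  131073 (.lg 0 false 1 73 73 29 0 336) .out))) .out) .out) (.lg 0 false 1 0 0 16 0 24))) (.na 733
  206 (.na 727 201 (.nx 726 41287 (.nr 725 1048577 (.nr 722 199 .s1 (.nx 723 647 (.l1 (.ls 61 29
  2106)) (.nr 724 131073 (.lg 0 true 1 67 67 16 0 48) .out))) .out) .out) (.nx 732 41287 (.nr 731
  1048577 (.nr 728 201 .s1 (.nx 729 647 (.l1 (.ls 61 37 2085)) (.nr 730 131073 (.lg 0 true 1 73 73
  19 0 144) .out))) .out) .out)) (.na 739 208 (.nx 738 41287 (.nr 737 1048577 (.nr 734 206 .s1 (.nx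
  735 647 (.l1 (.ls 61 37 2035)) (.nr 736 131073 (.lg 0 true 1 67 67 23 0 48) .out))) .out) .out)
  (.na 745 211 (.nx 744 41287 (.nr 743 1048577 (.nr 740 208 .s1 (.nx 741 647 (.l1 (.ls 73 41 2015))
  (.nr 742 131073 (.lg 0 false 1 89 89 31 0 65520) .out))) .out) .out) (.nx 750 41287 (.nr 749
  1048577 (.nr 746 211 .s1 (.nx 747 647 (.l1 (.ls 61 29 1986)) (.nr 748 131073 (.lg 0 true 1 71 71
  16 0 1008) .out))) .out) .out))))))) (.na 823 247 (.na 789 228 (.na 770 222 (.na 758 218 (.na 752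
  217 (.lg 0 false 1 0 0 16 0 24) (.nx 757 41287 (.nr 756 1048577 (.nr 753 217 .s1 (.nx 754 647
  (.l1 (.ls 73 29 1932)) (.nr 755 131073 (.lg 0 false 1 79 79 19 0 336) .out))) .out) .out)) (.na
  764 219 (.nx 763 41287 (.nr 762 1048577 (.nr 759 218 .s1 (.nx 760 647 (.l1 (.ls 67 37 1923)) (.nr
  761 131073 (.lg 0 true 1 71 71 23 0 48) .out))) .out) .out) (.nx 769 41287 (.nr 768 1048577 (.nr
  765 219 .s1 (.nx 766 647 (.l1 (.ls 61 37 1914)) (.nr 767 131073 (.lg 0 true 1 73 73 19 0 144)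
  .out))) .out) .out))) (.na 782 224 (.na 776 223 (.nx 775 41287 (.nr 774 1048577 (.nr 771 222 .s1
  (.nx 772 647 (.l1 (.ls 71 47 1888)) (.nr 773 131073 (.lg 0 true 1 73 73 29 0 144) .out))) .out)
  .out) (.nx 781 41287 (.nr 780 1048577 (.nr 777 223 .s1 (.nx 778 647 (.l1 (.ls 67 29 1880)) (.nr
  779 131073 (.lg 0 true 1 71 71 16 0 48) .out))) .out) .out)) (.na 788 227 (.nx 787 41287 (.nr 786
  1048577 (.nr 783 224 .s1 (.nx 784 647 (.l1 (.ls 73 41 1871)) (.nr 785 131073 (.lg 0 false 1 79 83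
  31 0 1008) .out))) .out) .out) (.lg 0 false 1 0 0 16 0 24)))) (.na 803 237 (.na 801 233 (.na 795
  229 (.nx 794 41287 (.nr 793 1048577 (.nr 790 228 .s1 (.nx 791 647 (.l1 (.ls 73 43 1839)) (.nr 792
  131073 (.lg 0 false 1 79 79 37 0 144) .out))) .out) .out) (.nx 800 41287 (.nr 799 1048577 (.nr
  796 229 .s1 (.nx 797 647 (.l1 (.ls 61 29 1830)) (.nr 798 131073 (.lg 0 true 1 67 67 17 0 48)
  .out))) .out) .out)) (.na 802 234 (.lg 0 false 1 0 0 16 0 24) (.lg 0 false 1 0 0 16 0 24))) (.na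
  810 241 (.na 809 239 (.nx 808 41287 (.nr 807 1048577 (.nr 804 237 .s1 (.nx 805 647 (.l1 (.ls 67
  31 1769)) (.nr 806 131073 (.lg 0 true 1 71 71 19 0 144) .out))) .out) .out) (.lg 0 false 1 0 0 16
  0 24)) (.na 816 243 (.nx 815 41287 (.nr 814 1048577 (.nr 811 241 .s1 (.nx 812 647 (.l1 (.ls 59 29
  1739)) (.nr 813 131073 (.lg 0 true 1 67 67 17 0 144) .out))) .out) .out) (.na 817 244 (.lg 0
  false 1 0 0 16 0 24) (.nx 822 41287 (.nr 821 1048577 (.nr 818 244 .s1 (.nx 819 647 (.l1 (.ls 59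
  37 1718)) (.nr 820 131073 (.lg 0 false 1 73 73 23 0 48) .out))) .out) .out)))))) (.na 1676 1024
  (.na 837 254 (.na 835 251 (.na 829 248 (.nx 828 41287 (.nr 827 1048577 (.nr 824 247 .s1 (.nx 825
  647 (.l1 (.ls 73 37 1697)) (.nr 826 131073 (.lg 0 false 1 79 79 17 0 624) .out))) .out) .out)
  (.nx 834 41287 (.nr 833 1048577 (.nr 830 248 .s1 (.nx 831 647 (.l1 (.ls 71 41 1690)) (.nr 832
  131073 (.lg 0 false 1 73 73 23 0 48) .out))) .out) .out)) (.na 836 252 (.lg 0 false 1 0 0 16 0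
  24) (.lg 0 false 1 0 0 16 0 24))) (.na 844 257 (.na 843 256 (.nx 842 41287 (.nr 841 1048577 (.nr
  838 254 .s1 (.nx 839 647 (.l1 (.ls 59 37 1651)) (.nr 840 131073 (.lg 0 true 1 67 67 23 0 48)
  .out))) .out) .out) (.lg 0 false 1 0 0 16 0 24)) (.na 1151 512 (.nx 1150 41287 (.nr 1149 262145
  (.nr 845 257 .s1 (.nx 894 49 (.nx 893 48 (.nr 892 2522 (.lx (.lp 41 17 129)) (.l1 .sk)) (.l1
  .sk)) (.la (.lg 0 false 1 71 71 23 0)))) .out) .out) (.na 1416 725 (.nx 1415 41287 (.nr 1414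
  262145 (.nr 1152 512 .s1 (.nx 1200 48 (.nr 1199 3571 (.lx (.lp 16 17 182)) (.l1 .sk)) (.nx 1201
  49 (.l1 .sk) (.la (.lg 0 false 1 67 67 29 0))))) .out) .out) (.nx 1675 257 (.nr 1674 65537 (.nr
  1417 725 .s1 (.nx 1545 129 (.lx (.lp 59 23 257)) (.nr 1673 8193 (.lx (.lp 41 23 257)) .out)))
  .out) .out))))) (.na 2713 4096 (.na 2195 2048 (.na 1936 1449 (.nx 1935 257 (.nr 1934 65537 (.nr
  1677 1024 .s1 (.nx 1805 129 (.lx (.lp 53 23 363)) (.nr 1933 8193 (.lx (.lp 37 23 363)) .out)))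
  .out) .out) (.nx 2194 257 (.nr 2193 16385 (.nr 1937 1449 .s1 (.lx (.lp 37 29 513))) .out) .out))
  (.na 2454 2897 (.nx 2453 257 (.nr 2452 32769 (.nr 2196 2048 .s1 (.lx (.lp 41 29 725))) .out)
  .out) (.nx 2712 257 (.nr 2711 32769 (.nr 2455 2897 .s1 (.lx (.lp 41 31 1025))) .out) .out))) (.na
  3077 8192 (.na 2972 5793 (.nx 2971 257 (.nr 2970 32769 (.nr 2714 4096 .s1 (.lx (.lp 41 31 1449)))
  .out) .out) (.nx 3076 103 (.nr 3075 32769 (.nr 2973 5793 .s1 (.lx (.lp 41 31 2049))) .out) .out))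
  (.na 3182 16384 (.nx 3181 103 (.nr 3180 32769 (.nr 3078 8192 .s1 (.lx (.lp 16 0 4097))) .out)
  .out) (.na 3184 32769 (.nx 3183 103 (.l1 .sk) .out) .out))))))))

def T143_2 : Ph :=
  (.na 512 158 (.na 322 88 (.na 172 49 (.na 84 32 (.na 23 23 (.na 1 22 .ne (.nx 22 1321124 (.nr 21
  1048577 (.nr 2 20 .s1 (.nx 5 113 (.nx 4 112 (.nr 3 173 (.l1 (.ls 19 31 573)) (.l1 .sk)) (.l1
  .sk)) (.nx 6 324 (.l1 (.ls 79 43 4194)) (.nr 20 220437 (.nx 11 16385 (.lg 0 false 5 89 89 19 0
  18480) (.nr 19 46342 (.nr 16 498 (.lg 0 true 5 73 73 19 0 18480) (.nx 18 165142 (.lg 2 true 2 83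
  83 13 18571 3696) .out)) .out)) .out)))) .out) .out)) (.na 45 28 (.nx 44 1321124 (.nr 43 1048577
  (.nr 24 21 .s1 (.nx 26 112 (.nr 25 210 (.l1 (.ls 19 19 548)) (.l1 .sk)) (.nx 27 113 (.l1 .sk)
  (.nx 34 16385 (.nx 28 205 (.l1 (.ls 79 31 1275)) (.nr 33 185365 (.lg 0 false 5 89 89 16 0 1680)
  .out)) (.nr 42 38969 (.nr 39 513 (.lg 0 true 5 73 73 16 0 1680) (.nx 41 82572 (.lg 2 true 2 83 83
  13 14961 336) .out)) .out))))) .out) .out) (.na 64 29 (.nx 63 1321124 (.nr 62 1048577 (.nr 46 26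
  .s1 (.nx 47 205 (.l1 (.ls 73 41 1503)) (.nr 61 185365 (.nx 52 16385 (.lg 0 false 5 83 83 19 0
  1680) (.nr 60 38969 (.nr 57 513 (.lg 0 true 5 71 71 19 0 1680) (.nx 59 82572 (.lg 2 false 2 79 79
  13 14961 336) .out)) .out)) .out))) .out) .out) (.nx 83 1321124 (.nr 82 1048577 (.nr 65 28 .s1
  (.nx 76 82572 (.nx 66 205 (.l1 (.ls 83 23 1452)) (.nr 75 185365 (.nr 71 32769 (.lg 0 false 5 79
  79 16 0 1680) (.nx 74 26009 (.lg 0 false 3 101 101 16 0 55440) .out)) .out)) (.nr 81 513 (.lg 0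
  true 5 79 79 16 0 1680) .out))) .out) .out)))) (.na 125 43 (.na 107 33 (.nx 106 1321124 (.nr 105
  1048577 (.nr 85 31 .s1 (.nx 95 10323 (.nx 87 112 (.nr 86 248 (.l1 (.ls 23 29 394)) (.l1 .sk))
  (.nx 88 113 (.l1 .sk) (.nx 89 205 (.l1 (.ls 79 31 917)) (.nr 94 370729 (.lg 0 false 5 79 83 19 0
  1680) .out)))) (.nr 104 55110 (.nr 100 513 (.lg 0 true 5 71 71 19 0 1680) (.nx 103 82572 (.nx 101
  26009 (.lg 1 false 1 79 79 13 33554 336) (.nr 102 32769 (.lg 1 true 1 79 79 13 9014 336) .out))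
  .out)) .out))) .out) .out) (.na 108 37 .ne (.nx 124 1321124 (.nr 123 370729 (.nr 109 36 .s1 (.nx
  111 112 (.nr 110 323 (.l1 (.ls 19 19 342)) (.l1 .sk)) (.nx 112 113 (.l1 .sk) (.nx 117 13005 (.lg
  0 false 5 89 89 16 0 1680) (.nr 122 23172 (.nr 120 323 (.lg 0 true 3 71 71 16 0 1008) (.nx 121
  82572 (.lg 2 true 1 79 79 16 14316 336) .out)) .out))))) .out) .out))) (.na 142 44 (.nx 141
  1321124 (.nr 140 370729 (.nr 126 42 .s1 (.nx 134 13005 (.nx 128 112 (.nr 127 330 (.l1 (.ls 17 17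
  294)) (.l1 .sk)) (.nx 129 113 (.l1 .sk) (.lg 0 false 5 83 83 16 0 1680))) (.nr 139 23172 (.nr 137
  330 (.lg 0 true 3 67 67 16 0 1008) (.nx 138 82572 (.lg 2 true 1 73 73 16 14013 336) .out))
  .out))) .out) .out) (.na 157 46 (.nx 156 1321124 (.nr 155 370729 (.nr 143 43 .s1 (.nx 149 13005
  (.nx 145 112 (.nr 144 345 (.l1 (.ls 29 29 288)) (.l1 .sk)) (.nx 146 113 (.l1 .sk) (.lg 0 false 3
  97 97 23 0 55440))) (.nr 154 23172 (.nr 152 345 (.lg 0 true 3 73 73 23 0 11088) (.nx 153 82572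
  (.lg 2 true 1 79 79 19 13403 3696) .out)) .out))) .out) .out) (.nx 171 1321124 (.nr 170 311745
  (.nr 158 45 .s1 (.nx 161 113 (.nx 160 112 (.nr 159 368 (.l1 (.ls 19 29 275)) (.l1 .sk)) (.l1
  .sk)) (.nx 164 10323 (.lg 0 false 3 83 83 13 0 1008) (.nr 169 23172 (.nr 167 368 (.lg 0 true 3 67
  67 13 0 1008) (.nx 168 82572 (.lg 2 true 1 73 73 13 14148 336) .out)) .out)))) .out) .out)))))
  (.na 232 67 (.na 203 58 (.na 173 53 (.lg 0 false 1 0 0 16 0 24) (.na 188 56 (.nx 187 1321124 (.nr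
  186 311745 (.nr 174 52 .s1 (.nx 180 10323 (.nx 176 112 (.nr 175 420 (.l1 (.ls 16 17 239)) (.l1
  .sk)) (.nx 177 113 (.l1 .sk) (.lg 0 false 3 79 79 16 0 1008))) (.nr 185 23172 (.nr 183 420 (.lg 0
  true 3 67 67 16 0 1008) (.nx 184 82572 (.lg 2 true 1 73 73 16 14148 336) .out)) .out))) .out)
  .out) (.nx 202 1321124 (.nr 201 311745 (.nr 189 55 .s1 (.nx 192 113 (.nx 191 112 (.nr 190 435
  (.l1 (.ls 19 29 226)) (.l1 .sk)) (.l1 .sk)) (.nx 195 10323 (.lg 0 false 3 79 79 23 0 1008) (.nr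
  200 23172 (.nr 198 435 (.lg 0 true 3 67 67 23 0 1008) (.nx 199 82572 (.lg 2 true 1 71 71 17 14148
  1680) .out)) .out)))) .out) .out))) (.na 218 64 (.nx 217 1321124 (.nr 216 311745 (.nr 204 58 .s1
  (.nx 207 113 (.nx 206 112 (.nr 205 480 (.l1 (.ls 17 23 219)) (.l1 .sk)) (.l1 .sk)) (.nx 210 10323
  (.lg 0 false 3 79 79 19 0 1008) (.nr 215 23172 (.nr 213 480 (.lg 0 true 3 67 67 19 0 1008) (.nx
  214 82572 (.lg 2 true 1 71 71 13 14148 336) .out)) .out)))) .out) .out) (.na 231 65 (.nx 230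
  1321124 (.nr 229 524289 (.nr 219 64 .s1 (.nx 221 112 (.nr 220 488 (.l1 (.ls 29 23 198)) (.l1
  .sk)) (.nx 222 113 (.l1 .sk) (.nx 227 82572 (.nr 225 46342 (.nx 223 20644 (.lg 0 false 1 83 83 19
  0 1680) (.nr 224 13779 (.lg 0 true 1 83 83 19 0 1680) .out)) (.nx 226 8193 (.lg 0 false 1 89 89
  19 0 1680) .out)) (.nr 228 513 (.lg 0 true 1 73 73 19 0 336) .out))))) .out) .out) .ne))) (.na
  277 77 (.na 247 71 (.nx 246 1321124 (.nr 245 524289 (.nr 233 67 .s1 (.nx 235 112 (.nr 234 533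
  (.l1 (.ls 16 17 190)) (.l1 .sk)) (.nx 236 113 (.l1 .sk) (.nx 239 8193 (.lg 0 false 3 79 79 16 0
  1008) (.nr 244 8193 (.nr 242 513 (.lg 0 true 3 61 61 16 0 1008) (.nx 243 82572 (.lg 2 false 1 59
  59 16 9014 336) .out)) .out))))) .out) .out) (.na 262 74 (.nx 261 1321124 (.nr 260 524289 (.nr
  248 71 .s1 (.nx 251 113 (.nx 250 112 (.nr 249 555 (.l1 (.ls 17 17 179)) (.l1 .sk)) (.l1 .sk))
  (.nx 254 8193 (.lg 0 false 3 83 83 16 0 5040) (.nr 259 8193 (.nr 257 513 (.lg 0 true 3 61 61 16 0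
  1008) (.nx 258 82572 (.lg 2 true 1 59 59 16 9014 336) .out)) .out)))) .out) .out) (.nx 276
  1321124 (.nr 275 524289 (.nr 263 74 .s1 (.nx 266 113 (.nx 265 112 (.nr 264 578 (.l1 (.ls 19 23
  172)) (.l1 .sk)) (.l1 .sk)) (.nx 269 8193 (.lg 0 false 3 79 79 19 0 1008) (.nr 274 8193 (.nr 272
  578 (.lg 0 true 3 67 67 19 0 1008) (.nx 273 82572 (.lg 2 false 1 59 59 13 8001 336) .out))
  .out)))) .out) .out))) (.na 292 79 (.nx 291 1321124 (.nr 290 524289 (.nr 278 77 .s1 (.nx 281 113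
  (.nx 280 112 (.nr 279 593 (.l1 (.ls 17 19 165)) (.l1 .sk)) (.l1 .sk)) (.nx 284 8193 (.lg 0 false
  3 73 73 19 0 11088) (.nr 289 8193 (.nr 287 593 (.lg 0 true 3 61 61 19 0 11088) (.nx 288 82572
  (.lg 2 false 1 59 59 17 7798 3696) .out)) .out)))) .out) .out) (.na 307 86 (.nx 306 1321124 (.nr
  305 524289 (.nr 293 79 .s1 (.nx 299 8193 (.nx 295 112 (.nr 294 645 (.l1 (.ls 19 17 161)) (.l1
  .sk)) (.nx 296 113 (.l1 .sk) (.lg 0 false 3 73 73 16 0 1008))) (.nr 304 8193 (.nr 302 645 (.lg 0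
  true 3 61 61 16 0 1008) (.nx 303 82572 (.lg 2 true 1 53 53 16 7170 336) .out)) .out))) .out)
  .out) (.nx 321 1321124 (.nr 320 524289 (.nr 308 86 .s1 (.nx 314 8193 (.nx 310 112 (.nr 309 660
  (.l1 (.ls 17 23 148)) (.l1 .sk)) (.nx 311 113 (.l1 .sk) (.lg 0 false 3 79 79 19 0 1008))) (.nr
  319 8193 (.nr 317 660 (.lg 0 true 3 67 67 19 0 1008) (.nx 318 82572 (.lg 2 true 1 59 59 13 7007
  336) .out)) .out))) .out) .out)))))) (.na 440 128 (.na 374 109 (.na 349 98 (.na 335 91 (.nx 334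
  1321124 (.nr 333 524289 (.nr 323 88 .s1 (.nx 328 8193 (.nx 325 112 (.nr 324 683 (.l1 (.ls 23 29
  145)) (.l1 .sk)) (.nx 326 113 (.l1 .sk) (.lg 0 false 2 83 83 29 0 3696))) (.nr 332 8193 (.nr 330
  513 (.lg 0 true 2 67 67 29 0 3696) (.nx 331 82572 (.lg 2 true 1 61 61 23 9014 3696) .out))
  .out))) .out) .out) (.na 336 92 .ne (.nx 348 1321124 (.nr 347 524289 (.nr 337 92 .s1 (.nx 342
  8193 (.nx 339 112 (.nr 338 735 (.l1 (.ls 19 19 139)) (.l1 .sk)) (.nx 340 113 (.l1 .sk) (.lg 0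
  false 2 83 83 19 0 336))) (.nr 346 8193 (.nr 344 513 (.lg 0 true 2 67 67 19 0 336) (.nx 345 82572
  (.lg 2 true 1 61 61 19 9014 336) .out)) .out))) .out) .out))) (.na 350 106 (.lg 0 false 1 0 0 16
  0 24) (.na 363 107 (.nx 362 1321124 (.nr 361 524289 (.nr 351 106 .s1 (.nx 354 113 (.nx 353 112
  (.nr 352 803 (.l1 (.ls 19 23 121)) (.l1 .sk)) (.l1 .sk)) (.nx 357 8193 (.lg 0 false 3 79 79 23 0
  1008) (.nr 360 8193 (.nr 358 513 (.lg 2 false 1 67 67 19 697953 336) (.nx 359 82572 (.lg 2 false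
  1 59 59 19 9014 336) .out)) .out)))) .out) .out) (.nx 373 1321124 (.nr 372 524289 (.nr 364 107
  .s1 (.nx 368 8193 (.nx 366 112 (.nr 365 818 (.l1 (.ls 16 16 120)) (.l1 .sk)) (.nx 367 113 (.l1
  .sk) (.lg 0 true 1 73 73 16 0 336))) (.nr 371 8193 (.nr 369 513 (.lg 0 false 1 61 61 16 0 336)
  (.nx 370 82572 (.lg 2 false 1 47 47 16 9014 336) .out)) .out))) .out) .out)))) (.na 407 116 (.na
  385 112 (.nx 384 1321124 (.nr 383 524289 (.nr 375 109 .s1 (.nx 379 8193 (.nx 377 112 (.nr 376 840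
  (.l1 (.ls 17 16 118)) (.l1 .sk)) (.nx 378 113 (.l1 .sk) (.lg 0 true 1 79 79 16 0 1680))) (.nr 382
  8193 (.nr 380 513 (.lg 0 false 1 67 67 16 0 1680) (.nx 381 82572 (.lg 2 true 1 47 47 16 9014 336)
  .out)) .out))) .out) .out) (.na 396 113 (.nx 395 1321124 (.nr 394 524289 (.nr 386 112 .s1 (.nx
  390 8193 (.nx 388 112 (.nr 387 848 (.l1 (.ls 19 23 114)) (.l1 .sk)) (.nx 389 113 (.l1 .sk) (.lg 0
  false 1 73 73 23 0 336))) (.nr 393 8193 (.nr 391 513 (.lg 0 true 1 61 61 23 0 336) (.nx 392 82572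
  (.lg 2 true 1 53 53 23 9014 336) .out)) .out))) .out) .out) (.nx 406 1321124 (.nr 405 524289 (.nr
  397 113 .s1 (.nx 401 8193 (.nx 399 112 (.nr 398 870 (.l1 (.ls 16 16 114)) (.l1 .sk)) (.nx 400 113
  (.l1 .sk) (.lg 0 true 1 73 73 16 0 336))) (.nr 404 8193 (.nr 402 513 (.lg 0 false 1 61 61 16 0
  336) (.nx 403 82572 (.lg 2 false 1 47 47 16 9014 336) .out)) .out))) .out) .out))) (.na 418 121
  (.nx 417 1321124 (.nr 416 524289 (.nr 408 116 .s1 (.nx 410 112 (.nr 409 908 (.l1 (.ls 23 19 111))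
  (.l1 .sk)) (.nx 411 113 (.l1 .sk) (.nx 412 8193 (.lg 0 true 1 83 83 19 0 1680) (.nr 415 8193 (.nr
  413 513 (.lg 2 true 1 61 61 19 637784 336) (.nx 414 82572 (.lg 2 true 1 59 59 19 9014 336) .out))
  .out))))) .out) .out) (.na 429 127 (.nx 428 1321124 (.nr 427 524289 (.nr 419 121 .s1 (.nx 423
  8193 (.nx 421 112 (.nr 420 953 (.l1 (.ls 19 17 106)) (.l1 .sk)) (.nx 422 113 (.l1 .sk) (.lg 0
  true 1 79 79 17 0 3696))) (.nr 426 8193 (.nr 424 513 (.lg 2 false 1 61 61 17 611430 18480) (.nx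
  425 82572 (.lg 2 false 1 53 53 17 9014 18480) .out)) .out))) .out) .out) (.nx 439 1321124 (.nr
  438 524289 (.nr 430 127 .s1 (.nx 433 113 (.nx 432 112 (.nr 431 960 (.l1 (.ls 16 16 101)) (.l1
  .sk)) (.l1 .sk)) (.nx 434 8193 (.lg 0 true 1 73 73 16 0 336) (.nr 437 8193 (.nr 435 513 (.lg 2
  false 1 59 59 16 582543 336) (.nx 436 82572 (.lg 2 true 1 47 47 16 9014 336) .out)) .out))))
  .out) .out))))) (.na 469 142 (.na 452 134 (.na 450 129 (.nx 449 1321124 (.nr 448 1048577 (.nr 441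
  128 .s1 (.nx 444 8193 (.nx 442 205 (.l1 (.ls 83 29 331)) (.nr 443 524289 (.lg 0 false 1 89 89 23
  0 11088) .out)) (.nr 447 8193 (.nr 445 1025 (.lg 0 true 1 73 73 29 0 336) (.nx 446 82572 (.lg 1
  true 1 71 73 23 6359 336) .out)) .out))) .out) .out) (.na 451 131 .ne (.lg 0 false 1 0 0 16 0
  24))) (.na 460 137 (.nx 459 660563 (.nr 458 1048577 (.nr 453 134 .s1 (.nx 454 205 (.l1 (.ls 61 29
  316)) (.nr 457 524289 (.nr 455 8193 (.lg 0 false 1 83 83 19 0 1680) (.nx 456 6503 (.lg 0 true 1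
  79 79 19 0 1680) .out)) .out))) .out) .out) (.na 468 139 (.nx 467 660563 (.nr 466 1048577 (.nr
  461 137 .s1 (.nx 462 205 (.l1 (.ls 61 19 309)) (.nr 465 524289 (.nr 463 8193 (.lg 0 false 1 73 73
  16 0 336) (.nx 464 6503 (.lg 0 true 1 71 71 16 0 336) .out)) .out))) .out) .out) (.lg 0 false 1 0
  0 16 0 24)))) (.na 495 151 (.na 477 148 (.nx 476 660563 (.nr 475 1048577 (.nr 470 142 .s1 (.nx
  471 205 (.l1 (.ls 61 29 298)) (.nr 474 524289 (.nr 472 8193 (.lg 0 false 1 79 79 19 0 1008) (.nx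
  473 6503 (.lg 0 true 1 73 73 19 0 336) .out)) .out))) .out) .out) (.na 487 149 (.nx 486 660563
  (.nr 485 1048577 (.nr 478 148 .s1 (.nx 481 6503 (.nx 479 205 (.l1 (.ls 73 29 286)) (.nr 480
  524289 (.lg 0 false 1 79 79 23 0 336) .out)) (.nr 484 8193 (.nr 482 1025 (.lg 0 true 1 67 67 23 0
  336) (.nx 483 82572 (.lg 2 false 1 53 53 23 8011 336) .out)) .out))) .out) .out) (.nx 494 660563
  (.nr 493 1048577 (.nr 488 149 .s1 (.nx 489 205 (.l1 (.ls 67 19 285)) (.nr 492 524289 (.nr 490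
  8193 (.lg 0 false 1 73 73 16 0 336) (.nx 491 6503 (.lg 0 true 1 73 73 16 0 1680) .out)) .out)))
  .out) .out))) (.na 503 154 (.nx 502 660563 (.nr 501 1048577 (.nr 496 151 .s1 (.nx 497 205 (.l1
  (.ls 71 17 281)) (.nr 500 524289 (.nr 498 8193 (.lg 0 false 1 79 79 16 0 5040) (.nx 499 6503 (.lg
  0 true 1 73 73 16 0 336) .out)) .out))) .out) .out) (.na 511 157 (.nx 510 660563 (.nr 509 1048577
  (.nr 504 154 .s1 (.nx 505 205 (.l1 (.ls 67 31 275)) (.nr 508 524289 (.nr 506 8193 (.lg 0 false 1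
  79 79 29 0 18480) (.nx 507 6503 (.lg 0 true 1 73 73 29 0 18480) .out)) .out))) .out) .out) (.lg 0
  false 1 0 0 16 0 24))))))) (.na 654 227 (.na 579 193 (.na 545 173 (.na 528 163 (.na 520 161 (.nx
  519 660563 (.nr 518 1048577 (.nr 513 158 .s1 (.nx 514 205 (.l1 (.ls 61 29 268)) (.nr 517 524289
  (.nr 515 8193 (.lg 0 false 1 79 79 19 0 3696) (.nx 516 6503 (.lg 0 true 1 71 71 19 0 336) .out))
  .out))) .out) .out) (.nx 527 660563 (.nr 526 1048577 (.nr 521 161 .s1 (.nx 522 205 (.l1 (.ls 79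
  19 264)) (.nr 525 524289 (.nr 523 8193 (.lg 0 false 1 79 79 17 0 336) (.nx 524 6503 (.lg 0 true 1
  79 79 17 0 18480) .out)) .out))) .out) .out)) (.na 536 167 (.nx 535 660563 (.nr 534 1048577 (.nr
  529 163 .s1 (.nx 532 6503 (.nx 530 205 (.l1 (.ls 59 17 260)) (.nr 531 524289 (.lg 0 true 1 71 71
  16 0 336) .out)) (.nr 533 8193 (.lg 0 false 1 71 71 16 0 336) .out))) .out) .out) (.na 537 172
  (.lg 0 false 1 0 0 16 0 24) (.nx 544 660563 (.nr 543 1048577 (.nr 538 172 .s1 (.nx 539 205 (.l1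
  (.ls 71 29 247)) (.nr 542 524289 (.nr 540 8193 (.lg 0 true 1 79 79 23 0 336) (.nx 541 6503 (.lg 0
  false 1 73 73 23 0 336) .out)) .out))) .out) .out)))) (.na 562 181 (.na 546 176 (.lg 0 false 1 0
  0 16 0 24) (.na 554 179 (.nx 553 660563 (.nr 552 1048577 (.nr 547 176 .s1 (.nx 548 205 (.l1 (.ls
  79 29 241)) (.nr 551 524289 (.nr 549 8193 (.lg 0 true 1 83 83 31 0 18480) (.nx 550 6503 (.lg 0
  false 1 83 83 31 0 18480) .out)) .out))) .out) .out) (.nx 561 660563 (.nr 560 1048577 (.nr 555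
  179 .s1 (.nx 556 205 (.l1 (.ls 67 17 237)) (.nr 559 524289 (.nr 557 8193 (.lg 0 false 1 73 73 16
  0 1680) (.nx 558 6503 (.lg 0 true 1 71 71 16 0 1680) .out)) .out))) .out) .out))) (.na 563 184
  (.lg 0 false 1 0 0 16 0 24) (.na 571 191 (.nx 570 660563 (.nr 569 1048577 (.nr 564 184 .s1 (.nx
  565 205 (.l1 (.ls 73 29 231)) (.nr 568 524289 (.nr 566 8193 (.lg 0 true 1 79 79 19 0 336) (.nx
  567 6503 (.lg 0 false 1 73 73 19 0 336) .out)) .out))) .out) .out) (.nx 578 660563 (.nr 577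
  1048577 (.nr 572 191 .s1 (.nx 573 205 (.l1 (.ls 71 17 223)) (.nr 576 524289 (.nr 574 8193 (.lg 0
  false 1 73 73 16 0 336) (.nx 575 6503 (.lg 0 true 1 71 71 16 0 336) .out)) .out))) .out)
  .out))))) (.na 613 212 (.na 596 199 (.na 587 196 (.nx 586 660563 (.nr 585 1048577 (.nr 580 193
  .s1 (.nx 581 205 (.l1 (.ls 59 17 220)) (.nr 584 524289 (.nr 582 8193 (.lg 0 false 1 71 71 16 0
  336) (.nx 583 6503 (.lg 0 true 1 67 67 16 0 336) .out)) .out))) .out) .out) (.na 588 197 (.lg 0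
  false 1 0 0 16 0 24) (.nx 595 660563 (.nr 594 1048577 (.nr 589 197 .s1 (.nx 590 205 (.l1 (.ls 59
  17 216)) (.nr 593 524289 (.nr 591 8193 (.lg 0 false 1 71 71 16 0 336) (.nx 592 6503 (.lg 0 true 1
  67 67 16 0 336) .out)) .out))) .out) .out))) (.na 597 203 (.lg 0 false 1 0 0 16 0 24) (.na 605
  211 (.nx 604 660563 (.nr 603 1048577 (.nr 598 203 .s1 (.nx 599 205 (.l1 (.ls 61 19 210)) (.nr 602
  524289 (.nr 600 8193 (.lg 0 false 1 73 73 17 0 336) (.nx 601 6503 (.lg 0 true 1 71 71 17 0 336)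
  .out)) .out))) .out) .out) (.nx 612 660563 (.nr 611 1048577 (.nr 606 211 .s1 (.nx 607 205 (.l1
  (.ls 61 17 202)) (.nr 610 524289 (.nr 608 8193 (.lg 0 false 1 71 71 16 0 336) (.nx 609 6503 (.lg
  0 true 1 71 71 16 0 1680) .out)) .out))) .out) .out)))) (.na 637 223 (.na 621 214 (.nx 620 660563
  (.nr 619 1048577 (.nr 614 212 .s1 (.nx 615 205 (.l1 (.ls 47 23 201)) (.nr 618 524289 (.nr 616
  8193 (.lg 0 true 1 73 73 23 0 336) (.nx 617 6503 (.lg 0 false 1 71 71 23 0 336) .out)) .out)))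
  .out) .out) (.na 629 218 (.nx 628 660563 (.nr 627 1048577 (.nr 622 214 .s1 (.nx 623 205 (.l1 (.ls
  67 23 199)) (.nr 626 524289 (.nr 624 8193 (.lg 0 false 1 73 73 23 0 5040) (.nx 625 6503 (.lg 0
  true 1 71 71 23 0 5040) .out)) .out))) .out) .out) (.nx 636 660563 (.nr 635 1048577 (.nr 630 218
  .s1 (.nx 631 205 (.l1 (.ls 61 23 195)) (.nr 634 524289 (.nr 632 8193 (.lg 0 false 1 71 71 23 0
  1008) (.nx 633 6503 (.lg 0 true 1 67 67 23 0 336) .out)) .out))) .out) .out))) (.na 638 224 (.lg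
  0 false 1 0 0 16 0 24) (.na 646 226 (.nx 645 660563 (.nr 644 1048577 (.nr 639 224 .s1 (.nx 640
  205 (.l1 (.ls 71 29 190)) (.nr 643 524289 (.nr 641 8193 (.lg 0 true 1 73 73 29 0 336) (.nx 642
  6503 (.lg 0 false 1 71 71 29 0 336) .out)) .out))) .out) .out) (.nx 653 660563 (.nr 652 1048577
  (.nr 647 226 .s1 (.nx 648 205 (.l1 (.ls 67 23 188)) (.nr 651 524289 (.nr 649 8193 (.lg 0 false 1
  71 71 23 0 336) (.nx 650 6503 (.lg 0 true 1 71 71 23 0 1680) .out)) .out))) .out) .out)))))) (.na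
  1230 512 (.na 681 242 (.na 664 233 (.na 655 229 (.lg 0 false 1 0 0 16 0 24) (.na 656 232 (.lg 0
  false 1 0 0 16 0 24) (.nx 663 660563 (.nr 662 1048577 (.nr 657 232 .s1 (.nx 658 205 (.l1 (.ls 71
  23 184)) (.nr 661 524289 (.nr 659 8193 (.lg 0 true 1 73 73 23 0 336) (.nx 660 6503 (.lg 0 false 1
  71 71 23 0 336) .out)) .out))) .out) .out))) (.na 672 239 (.nx 671 660563 (.nr 670 1048577 (.nr
  665 233 .s1 (.nx 666 205 (.l1 (.ls 59 17 183)) (.nr 669 524289 (.nr 667 8193 (.lg 0 false 1 67 67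
  17 0 336) (.nx 668 6503 (.lg 0 true 1 67 67 17 0 336) .out)) .out))) .out) .out) (.na 680 241
  (.nx 679 660563 (.nr 678 1048577 (.nr 673 239 .s1 (.nx 674 205 (.l1 (.ls 61 17 178)) (.nr 677
  524289 (.nr 675 8193 (.lg 0 false 1 71 71 17 0 1680) (.nx 676 6503 (.lg 0 true 1 67 67 17 0 336)
  .out)) .out))) .out) .out) (.lg 0 false 1 0 0 16 0 24)))) (.na 698 254 (.na 689 251 (.nx 688
  660563 (.nr 687 1048577 (.nr 682 242 .s1 (.nx 683 205 (.l1 (.ls 61 29 176)) (.nr 686 524289 (.nr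
  684 8193 (.lg 0 false 1 71 71 29 0 3696) (.nx 685 6503 (.lg 0 true 1 67 67 29 0 3696) .out))
  .out))) .out) .out) (.na 690 253 (.lg 0 false 1 0 0 16 0 24) (.nx 697 660563 (.nr 696 1048577
  (.nr 691 253 .s1 (.nx 692 205 (.l1 (.ls 71 19 169)) (.nr 695 524289 (.nr 693 8193 (.lg 0 true 1
  73 73 19 0 3696) (.nx 694 6503 (.lg 0 false 1 73 73 19 0 3696) .out)) .out))) .out) .out))) (.na
  706 256 (.nx 705 660563 (.nr 704 1048577 (.nr 699 254 .s1 (.nx 700 205 (.l1 (.ls 67 23 168)) (.nr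
  703 524289 (.nr 701 8193 (.lg 0 false 1 71 71 23 0 5040) (.nx 702 6503 (.lg 0 true 1 67 67 23 0
  336) .out)) .out))) .out) .out) (.na 716 257 (.nx 715 660563 (.nr 714 1048577 (.nr 707 256 .s1
  (.nx 708 1292 (.l1 (.ls 79 43 6523)) (.nr 713 262145 (.nx 711 82572 (.nr 709 16385 (.lg 0 true 1
  71 79 31 0 1680) (.nx 710 6503 (.lg 0 false 1 71 79 31 0 1680) .out)) (.nr 712 1025 (.lg 0 true 1
  61 71 31 0 1680) .out)) .out))) .out) .out) (.nx 1229 82572 (.nr 1228 1048577 (.nr 717 257 .s1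
  (.nx 972 647 (.la (.ls 71 29 1631)) (.nr 1227 262145 (.la (.lg 0 true 1 73 73 23 0)) .out)))
  .out) .out))))) (.na 4720 4096 (.na 2390 1449 (.na 1660 725 (.nx 1659 82572 (.nr 1658 1048577
  (.nr 1231 512 .s1 (.nx 1444 647 (.la (.ls 71 29 820)) (.nr 1657 262145 (.la (.lg 0 false 1 71 71
  29 0)) .out))) .out) .out) (.na 1962 1024 (.nx 1961 3252 (.nr 1960 262145 (.nr 1661 725 .s1 (.la
  (.ls 53 43 14589))) .out) .out) (.nx 2389 3252 (.nr 2388 262145 (.nr 1963 1024 .s1 (.la (.ls 59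
  41 10330))) .out) .out))) (.na 3105 2048 (.nx 3104 1627 (.nr 3103 131073 (.nr 2391 1449 .s1 (.nx
  2503 112 (.nr 2502 15361 (.lx (.lp 29 23 513)) (.l1 .sk)) (.nx 2504 113 (.l1 .sk) (.la (.ls 43 31
  1821))))) .out) .out) (.na 4070 2897 (.nx 4069 1627 (.nr 4068 131073 (.nr 3106 2048 .s1 (.nx 3218
  112 (.nr 3217 21728 (.lx (.lp 37 29 725)) (.l1 .sk)) (.nx 3219 113 (.l1 .sk) (.la (.ls 43 31
  1289))))) .out) .out) (.nx 4719 647 (.nr 4718 65537 (.nr 4071 2897 .s1 (.nx 4233 163 (.lx (.lp 16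
  29 1025)) (.nr 4717 32769 (.lx (.lp 31 31 1025)) .out))) .out) .out)))) (.na 6669 32768 (.na 5370
  8192 (.nx 5369 647 (.nr 5368 65537 (.nr 4721 4096 .s1 (.nx 4883 163 (.lx (.lp 29 29 2049)) (.nr
  5367 32769 (.lx (.lp 31 37 2049)) .out))) .out) .out) (.na 6019 16384 (.nx 6018 647 (.nr 6017
  65537 (.nr 5371 8192 .s1 (.lx (.lp 29 41 4097))) .out) .out) (.nx 6668 647 (.nr 6667 131073 (.nr
  6020 16384 .s1 (.nx 6182 163 (.lx (.lp 16 0 8193)) (.nr 6666 65537 (.lx (.lp 23 43 8193)) .out)))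
  .out) .out))) (.na 6995 65536 (.nx 6994 324 (.nr 6993 131073 (.nr 6670 32768 .s1 (.lx (.lp 17 43
  16385))) .out) .out) (.na 7321 131073 (.nx 7320 324 (.nr 7319 262145 (.nr 6996 65536 .s1 (.lx
  (.lp 16 43 32769))) .out) .out) .out)))))))

def T143_3 : Ph :=
  (.na 475 138 (.na 344 50 (.na 239 12 (.na 133 6 (.na 1 2 .ne (.na 132 3 (.nx 131 3329023 (.nr 130
  623489 (.nx 4 100 (.nx 3 99 (.nr 2 19 (.lg 0 true 1 37 37 5 0 7920) (.l1 .sk)) (.l1 .sk)) (.nr
  115 77937 (.nr 107 65537 (.nx 18 9555 (.lg 0 false 14 101 101 9 0 55440) (.nx 90 1321124 (.nr 53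
  257 (.lg 0 true 35 83 89 13 0 55440) (.nx 89 165142 (.nr 60 1100 (.lg 2 true 7 83 83 9 31808
  11088) (.nx 74 20644 (.lg 1 false 14 97 101 9 33665 55440) (.nr 88 46342 (.lg 2 false 14 101 103
  9 11025 720720) .out))) .out)) (.nr 106 9 (.lg 0 true 16 71 71 9 0 1584) .out))) (.nx 114 1292
  (.lg 0 false 7 83 83 9 0 55440) .out)) (.nx 129 205 (.lg 0 false 14 79 79 9 0 11088) .out)))
  .out) .out) .ne)) (.na 183 7 (.nx 182 1321124 (.nr 181 220437 (.nx 135 99 (.nr 134 49 (.lg 0 true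
  1 29 29 7 0 7920) (.l1 .sk)) (.nx 136 100 (.l1 .sk) (.nr 173 55110 (.nx 149 16932 (.lg 0 false 13
  89 89 13 0 102960) (.nr 162 501 (.lg 0 true 13 79 79 13 0 20592) (.nx 172 416129 (.nr 165 1905
  (.lg 2 false 3 79 79 7 41115 7920) (.lg 2 false 7 97 97 13 15980 55440)) .out))) (.nx 180 1292
  (.lg 0 false 7 79 79 13 0 11088) .out)))) .out) .out) (.na 184 10 .ne (.nx 238 1321124 (.nr 237
  623489 (.nr 185 2 .s1 (.nx 188 100 (.nx 187 99 (.nr 186 85 (.lg 0 true 1 29 29 11 0 7920) (.l1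
  .sk)) (.l1 .sk)) (.nx 229 330282 (.nr 195 766 (.lg 0 true 7 79 79 13 0 55440) (.nx 228 165142
  (.nr 201 13461 (.nx 197 6503 (.lg 0 true 2 83 83 11 0 7920) (.lg 2 true 4 73 73 13 10672 7920))
  (.nx 216 26009 (.nr 208 77937 (.lg 0 false 7 97 101 13 0 55440) (.nx 215 814 (.lg 0 false 7 83 89
  13 0 55440) .out)) (.nr 227 46342 (.nr 223 32769 (.lg 0 true 7 97 101 13 0 55440) (.nx 226 65537
  (.lg 0 true 3 97 97 13 0 7920) .out)) .out))) .out)) (.nr 236 65 (.lg 0 true 7 73 73 13 0 55440)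
  .out)))) .out) .out)))) (.na 301 23 (.na 240 18 .ne (.na 274 22 (.nx 273 1321124 (.nr 272 1048577
  (.nr 241 16 .s1 (.nx 247 324 (.nx 243 99 (.nr 242 155 (.l1 (.ls 29 37 547)) (.l1 .sk)) (.nx 244
  100 (.l1 .sk) (.nx 245 205 (.l1 (.ls 89 41 1782)) (.nr 246 623489 (.l1 (.ls 83 43 3500)) .out))))
  (.nr 271 220437 (.nr 254 498 (.lg 0 true 7 79 79 23 0 11088) (.nx 270 165142 (.nr 256 3707 (.nx
  255 5162 (.lg 0 false 1 71 71 13 0 7920) (.lg 2 false 1 79 79 13 16415 55440)) (.nr 268 131073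
  (.nx 259 10323 (.lg 0 false 3 97 97 19 0 7920) (.nr 267 55110 (.nr 264 32769 (.lg 2 true 5 73 73
  19 15604 7920) (.nx 266 26009 (.lg 0 false 2 89 89 13 0 7920) .out)) .out)) (.nx 269 814 (.lg 0
  true 1 79 79 13 0 7920) .out))) .out)) .out))) .out) .out) (.nx 300 1321124 (.nr 299 1048577 (.nr
  275 20 .s1 (.nx 287 16385 (.nx 277 99 (.nr 276 162 (.lg 0 false 1 19 19 9 0 7920) (.l1 .sk)) (.nx
  278 100 (.l1 .sk) (.nx 279 324 (.l1 (.ls 79 43 4320)) (.nr 286 220437 (.lg 0 false 7 83 83 17 0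
  11088) .out)))) (.nr 298 46342 (.nr 294 498 (.lg 0 true 7 71 71 17 0 11088) (.nx 297 165142 (.lg
  2 true 3 79 79 13 16415 7920) .out)) .out))) .out) .out))) (.na 328 32 (.na 302 30 .ne (.nx 327
  1321124 (.nr 326 1048577 (.nr 303 29 .s1 (.nx 306 100 (.nx 305 99 (.nr 304 226 (.l1 (.ls 23 37
  329)) (.l1 .sk)) (.l1 .sk)) (.nx 315 16385 (.nx 307 205 (.l1 (.ls 79 41 1070)) (.nr 314 185365
  (.lg 0 false 7 83 89 29 0 55440) .out)) (.nr 325 38969 (.nr 322 513 (.lg 0 true 7 73 73 29 0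
  55440) (.nx 324 82572 (.lg 2 true 2 79 79 19 11685 7920) .out)) .out)))) .out) .out)) (.na 329 46
  .ne (.nx 343 1321124 (.nr 342 311745 (.nr 330 45 .s1 (.nx 333 100 (.nx 332 99 (.nr 331 353 (.l1
  (.ls 19 19 216)) (.l1 .sk)) (.l1 .sk)) (.nx 335 10323 (.lg 0 true 2 89 89 13 0 7920) (.nr 341
  23172 (.nr 339 353 (.lg 0 true 4 71 71 19 0 1584) (.nx 340 82572 (.lg 2 true 1 79 79 13 11579
  1584) .out)) .out)))) .out) .out))))) (.na 421 91 (.na 384 64 (.na 357 54 (.nx 356 1321124 (.nr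
  355 311745 (.nr 345 50 .s1 (.nr 350 13779 (.nx 346 2580 (.l1 (.ls 53 67 133130)) (.nx 348 82572
  (.lg 0 false 2 73 73 19 0 7920) (.nr 349 217 (.lg 0 false 1 73 73 13 0 7920) .out))) (.nx 352 100
  (.nx 351 99 (.l1 .sk) (.l1 .sk)) (.nx 354 20644 (.lg 0 true 2 89 89 19 0 7920) .out)))) .out)
  .out) (.na 370 62 (.nx 369 1321124 (.nr 368 311745 (.nr 358 54 .s1 (.nx 361 100 (.nx 360 99 (.nr
  359 438 (.l1 (.ls 31 29 184)) (.l1 .sk)) (.l1 .sk)) (.nx 363 8193 (.lg 0 false 2 83 83 23 0 1584)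
  (.nr 367 46342 (.nr 365 217 (.lg 0 true 2 67 67 29 0 1584) (.nx 366 82572 (.lg 1 false 1 89 89 19
  27780 7920) .out)) .out)))) .out) .out) (.nx 383 1321124 (.nr 382 311745 (.nr 371 62 .s1 (.nx 376
  10323 (.nx 373 99 (.nr 372 452 (.l1 (.ls 23 23 161)) (.l1 .sk)) (.nx 374 100 (.l1 .sk) (.lg 0
  true 2 89 89 17 0 7920))) (.nr 381 23172 (.nr 379 452 (.lg 0 true 3 71 71 19 0 1584) (.nx 380
  82572 (.lg 2 true 1 73 73 13 11048 7920) .out)) .out))) .out) .out))) (.na 398 74 (.na 385 66 .ne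
  (.nx 397 1321124 (.nr 396 524289 (.nr 386 66 .s1 (.nx 389 100 (.nx 388 99 (.nr 387 522 (.l1 (.ls
  16 31 151)) (.l1 .sk)) (.l1 .sk)) (.nx 391 8193 (.lg 0 true 2 79 79 23 0 7920) (.nr 395 8193 (.nr
  393 522 (.lg 0 false 2 67 67 23 0 1584) (.nx 394 82572 (.lg 2 false 1 61 61 23 7831 55440) .out))
  .out)))) .out) .out)) (.na 410 90 (.nx 409 1321124 (.nr 408 524289 (.nr 399 74 .s1 (.nx 404 8193
  (.nx 401 99 (.nr 400 635 (.l1 (.ls 23 23 135)) (.l1 .sk)) (.nx 402 100 (.l1 .sk) (.lg 0 true 2 83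
  83 19 0 1584))) (.nr 407 8193 (.nr 405 513 (.lg 0 false 1 79 79 13 0 7920) (.nx 406 82572 (.lg 2
  false 1 61 61 13 7968 1584) .out)) .out))) .out) .out) (.nx 420 1321124 (.nr 419 524289 (.nr 411
  90 .s1 (.nx 414 100 (.nx 413 99 (.nr 412 642 (.l1 (.ls 31 29 111)) (.l1 .sk)) (.l1 .sk)) (.nx 417
  82572 (.nx 415 8193 (.lg 0 false 1 89 89 29 0 7920) (.nr 416 8193 (.lg 0 true 1 79 79 29 0 7920)
  .out)) (.nr 418 513 (.lg 0 true 1 71 71 29 0 7920) .out)))) .out) .out)))) (.na 444 110 (.na 422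
  94 .ne (.na 433 106 (.nx 432 1321124 (.nr 431 524289 (.nr 423 94 .s1 (.nx 426 100 (.nx 425 99
  (.nr 424 748 (.l1 (.ls 19 19 107)) (.l1 .sk)) (.l1 .sk)) (.nx 427 8193 (.lg 0 true 1 89 89 17 0
  1584) (.nr 430 8193 (.nr 428 513 (.lg 0 false 1 73 73 17 0 1584) (.nx 429 82572 (.lg 2 false 1 61
  61 17 7968 1584) .out)) .out)))) .out) .out) (.nx 443 1321124 (.nr 442 524289 (.nr 434 106 .s1
  (.nx 438 8193 (.nx 436 99 (.nr 435 776 (.l1 (.ls 19 19 95)) (.l1 .sk)) (.nx 437 100 (.l1 .sk)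
  (.lg 0 true 1 89 89 19 0 7920))) (.nr 441 8193 (.nr 439 513 (.lg 2 false 1 71 71 19 616940 7920)
  (.nx 440 82572 (.lg 2 false 1 59 59 19 7968 1584) .out)) .out))) .out) .out))) (.na 466 128 (.na
  455 118 (.nx 454 1321124 (.nr 453 524289 (.nr 445 110 .s1 (.nx 449 8193 (.nx 447 99 (.nr 446 833
  (.l1 (.ls 19 29 92)) (.l1 .sk)) (.nx 448 100 (.l1 .sk) (.lg 0 true 1 83 83 23 0 7920))) (.nr 452
  8193 (.nr 450 513 (.lg 2 false 1 61 61 23 594506 7920) (.nx 451 82572 (.lg 2 false 1 53 53 23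
  7968 7920) .out)) .out))) .out) .out) (.nx 465 1321124 (.nr 464 524289 (.nr 456 118 .s1 (.nx 459
  100 (.nx 458 99 (.nr 457 903 (.l1 (.ls 19 19 86)) (.l1 .sk)) (.l1 .sk)) (.nx 460 8193 (.lg 0 true
  1 83 83 19 0 7920) (.nr 463 8193 (.nr 461 513 (.lg 2 false 1 67 67 19 554201 7920) (.nx 462 82572
  (.lg 2 true 1 59 59 19 7968 7920) .out)) .out)))) .out) .out)) (.na 467 134 .ne (.nx 474 660563
  (.nr 473 1048577 (.nr 468 134 .s1 (.nx 469 205 (.l1 (.ls 61 29 316)) (.nr 472 524289 (.nr 470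
  8193 (.lg 0 false 1 83 83 19 0 7920) (.nx 471 6503 (.lg 0 true 1 79 79 19 0 1584) .out)) .out)))
  .out) .out)))))) (.na 580 256 (.na 531 198 (.na 499 162 (.na 483 142 (.nx 482 660563 (.nr 481
  1048577 (.nr 476 138 .s1 (.nx 477 205 (.l1 (.ls 71 37 307)) (.nr 480 524289 (.nr 478 8193 (.lg 0
  false 1 83 83 19 0 7920) (.nx 479 6503 (.lg 0 true 1 79 79 19 0 1584) .out)) .out))) .out) .out)
  (.na 491 150 (.nx 490 660563 (.nr 489 1048577 (.nr 484 142 .s1 (.nx 485 205 (.l1 (.ls 67 29 298))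
  (.nr 488 524289 (.nr 486 8193 (.lg 0 false 1 83 83 19 0 7920) (.nx 487 6503 (.lg 0 true 1 79 79
  19 0 7920) .out)) .out))) .out) .out) (.nx 498 660563 (.nr 497 1048577 (.nr 492 150 .s1 (.nx 493
  205 (.l1 (.ls 71 37 283)) (.nr 496 524289 (.nr 494 8193 (.lg 0 false 1 79 79 29 0 7920) (.nx 495
  6503 (.lg 0 true 1 73 73 29 0 7920) .out)) .out))) .out) .out))) (.na 515 186 (.na 507 178 (.nx
  506 660563 (.nr 505 1048577 (.nr 500 162 .s1 (.nx 501 205 (.l1 (.ls 73 31 262)) (.nr 504 524289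
  (.nr 502 8193 (.lg 0 true 1 83 83 29 0 7920) (.nx 503 6503 (.lg 0 false 1 83 83 31 0 7920) .out))
  .out))) .out) .out) (.nx 514 660563 (.nr 513 1048577 (.nr 508 178 .s1 (.nx 509 205 (.l1 (.ls 67
  29 239)) (.nr 512 524289 (.nr 510 8193 (.lg 0 false 1 79 79 19 0 7920) (.nx 511 6503 (.lg 0 true
  1 73 73 19 0 7920) .out)) .out))) .out) .out)) (.na 523 194 (.nx 522 660563 (.nr 521 1048577 (.nr
  516 186 .s1 (.nx 517 205 (.l1 (.ls 71 29 228)) (.nr 520 524289 (.nr 518 8193 (.lg 0 false 1 79 79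
  29 0 1584) (.nx 519 6503 (.lg 0 true 1 73 73 29 0 1584) .out)) .out))) .out) .out) (.nx 530
  660563 (.nr 529 1048577 (.nr 524 194 .s1 (.nx 525 205 (.l1 (.ls 61 23 219)) (.nr 528 524289 (.nr
  526 8193 (.lg 0 false 1 73 73 19 0 7920) (.nx 527 6503 (.lg 0 true 1 71 71 19 0 7920) .out))
  .out))) .out) .out)))) (.na 555 226 (.na 539 206 (.nx 538 660563 (.nr 537 1048577 (.nr 532 198
  .s1 (.nx 535 6503 (.nx 533 205 (.l1 (.ls 71 37 215)) (.nr 534 524289 (.lg 0 true 1 73 73 31 0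
  7920) .out)) (.nr 536 8193 (.lg 0 false 1 73 73 31 0 1584) .out))) .out) .out) (.na 547 222 (.nx
  546 660563 (.nr 545 1048577 (.nr 540 206 .s1 (.nx 541 205 (.l1 (.ls 67 23 207)) (.nr 544 524289
  (.nr 542 8193 (.lg 0 false 1 73 73 23 0 7920) (.nx 543 6503 (.lg 0 true 1 71 71 23 0 1584) .out))
  .out))) .out) .out) (.nx 554 660563 (.nr 553 1048577 (.nr 548 222 .s1 (.nx 549 205 (.l1 (.ls 67
  31 192)) (.nr 552 524289 (.nr 550 8193 (.lg 0 false 1 73 73 29 0 1584) (.nx 551 6503 (.lg 0 true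
  1 73 73 29 0 7920) .out)) .out))) .out) .out))) (.na 571 242 (.na 563 230 (.nx 562 660563 (.nr
  561 1048577 (.nr 556 226 .s1 (.nx 557 205 (.l1 (.ls 61 23 188)) (.nr 560 524289 (.nr 558 8193
  (.lg 0 false 1 73 73 23 0 7920) (.nx 559 6503 (.lg 0 true 1 71 71 23 0 7920) .out)) .out))) .out)
  .out) (.nx 570 660563 (.nr 569 1048577 (.nr 564 230 .s1 (.nx 565 205 (.l1 (.ls 73 31 185)) (.nr
  568 524289 (.nr 566 8193 (.lg 0 false 1 79 79 31 0 7920) (.nx 567 6503 (.lg 0 true 1 79 79 31 0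
  7920) .out)) .out))) .out) .out)) (.na 572 250 (.lg 0 false 1 0 0 16 0 24) (.nx 579 660563 (.nr
  578 1048577 (.nr 573 250 .s1 (.nx 574 205 (.l1 (.ls 61 29 171)) (.nr 577 524289 (.nr 575 8193
  (.lg 0 false 1 73 73 29 0 7920) (.nx 576 6503 (.lg 0 true 1 71 71 29 0 7920) .out)) .out))) .out)
  .out))))) (.na 3709 2897 (.na 1525 725 (.na 581 257 .ne (.na 1095 512 (.nx 1094 82572 (.nr 1093
  1048577 (.nr 582 257 .s1 (.nx 837 647 (.la (.ls 73 29 1631)) (.nr 1092 262145 (.la (.lg 0 true 1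
  79 79 23 0)) .out))) .out) .out) (.nx 1524 82572 (.nr 1523 1048577 (.nr 1096 512 .s1 (.nx 1309
  647 (.la (.ls 71 29 820)) (.nr 1522 262145 (.la (.lg 0 false 1 71 71 29 0)) .out))) .out) .out)))
  (.na 2255 1449 (.na 1827 1024 (.nx 1826 3252 (.nr 1825 262145 (.nr 1526 725 .s1 (.la (.ls 61 43
  14589))) .out) .out) (.nx 2254 3252 (.nr 2253 262145 (.nr 1828 1024 .s1 (.la (.ls 59 41 10330)))
  .out) .out)) (.na 2857 2048 (.nx 2856 1627 (.nr 2855 131073 (.nr 2256 1449 .s1 (.la (.ls 47 31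
  1829))) .out) .out) (.nx 3708 1627 (.nr 3707 131073 (.nr 2858 2048 .s1 (.la (.ls 47 31 1295)))
  .out) .out)))) (.na 5657 16384 (.na 4358 4096 (.nx 4357 647 (.nr 4356 65537 (.nr 3710 2897 .s1
  (.lx (.lp 43 31 1025))) .out) .out) (.na 5008 8192 (.nx 5007 647 (.nr 5006 65537 (.nr 4359 4096
  .s1 (.nx 4521 163 (.lx (.lp 16 0 2049)) (.nr 5005 32769 (.lx (.lp 41 37 2049)) .out))) .out)
  .out) (.nx 5656 647 (.nr 5655 65537 (.nr 5009 8192 .s1 (.lx (.lp 37 41 4097))) .out) .out))) (.na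
  6632 65536 (.na 6306 32768 (.nx 6305 647 (.nr 6304 131073 (.nr 5658 16384 .s1 (.lx (.lp 41 41
  8193))) .out) .out) (.nx 6631 324 (.nr 6630 131073 (.nr 6307 32768 .s1 (.lx (.lp 16 0 16385)))
  .out) .out)) (.na 6958 131073 (.nx 6957 324 (.nr 6956 262145 (.nr 6633 65536 .s1 (.lx (.lp 16 0
  32769))) .out) .out) .out))))))

theorem c143 :
    OkQ ckI L6 85 1 1099511627776 0 34359738368 1 1099511627776 ∧
    OkQ ckI L5 48 9 1099511627776 0 34359738368 1 1099511627776 ∧
    OkQ ckI L6 112 17 1099511627776 0 34359738368 1 1099511627776 ∧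
    OkQ ckI L6 99 1 1099511627776 0 34359738368 1 1099511627776 := by
  refine ⟨?_, ?_, ?_, ?_⟩
  · refine fin 2040 7530 T143_0 ?_
    refine jn 5 (by decide +kernel) ?_
    refine jn 8 (by decide +kernel) ?_
    refine jn 10 (by decide +kernel) ?_
    refine jn 12 (by decide +kernel) ?_
    refine jn 14 (by decide +kernel) ?_
    refine jn 16 (by decide +kernel) ?_
    refine jn 18 (by decide +kernel) ?_
    refine jn 19 (by decide +kernel) ?_
    refine jn 22 (by decide +kernel) ?_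
    refine jn 24 (by decide +kernel) ?_
    refine jn 26 (by decide +kernel) ?_
    refine jn 28 (by decide +kernel) ?_
    refine jn 30 (by decide +kernel) ?_
    refine jn 31 (by decide +kernel) ?_
    refine jn 35 (by decide +kernel) ?_
    refine jn 39 (by decide +kernel) ?_
    refine jn 43 (by decide +kernel) ?_
    refine jn 47 (by decide +kernel) ?_
    refine jn 51 (by decide +kernel) ?_
    refine jn 55 (by decide +kernel) ?_
    refine jn 59 (by decide +kernel) ?_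
    refine jn 64 (by decide +kernel) ?_
    refine jn 68 (by decide +kernel) ?_
    refine jn 70 (by decide +kernel) ?_
    refine jn 83 (by decide +kernel) ?_
    refine jn 104 (by decide +kernel) ?_
    refine jn 117 (by decide +kernel) ?_
    refine jn 134 (by decide +kernel) ?_
    refine jn 141 (by decide +kernel) ?_
    refine jn 163 (by decide +kernel) ?_
    refine jn 185 (by decide +kernel) ?_
    refine jn 191 (by decide +kernel) ?_
    refine jn 194 (by decide +kernel) ?_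
    refine jn 197 (by decide +kernel) ?_
    refine jn 200 (by decide +kernel) ?_
    refine jn 205 (by decide +kernel) ?_
    refine jn 208 (by decide +kernel) ?_
    refine jn 212 (by decide +kernel) ?_
    refine jn 233 (by decide +kernel) ?_
    refine jn 242 (by decide +kernel) ?_
    refine jn 251 (by decide +kernel) ?_
    refine jn 255 (by decide +kernel) ?_
    refine jn 276 (by decide +kernel) ?_
    refine jn 283 (by decide +kernel) ?_
    refine jn 297 (by decide +kernel) ?_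
    refine jn 318 (by decide +kernel) ?_
    refine jn 331 (by decide +kernel) ?_
    refine jn 337 (by decide +kernel) ?_
    refine jn 347 (by decide +kernel) ?_
    refine jn 359 (by decide +kernel) ?_
    refine jn 370 (by decide +kernel) ?_
    refine jn 399 (by decide +kernel) ?_
    refine jn 421 (by decide +kernel) ?_
    refine jn 429 (by decide +kernel) ?_
    refine jn 442 (by decide +kernel) ?_
    refine jn 456 (by decide +kernel) ?_
    refine jn 464 (by decide +kernel) ?_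
    refine jn 465 (by decide +kernel) ?_
    refine jn 466 (by decide +kernel) ?_
    refine jn 467 (by decide +kernel) ?_
    refine jn 469 (by decide +kernel) ?_
    refine jn 471 (by decide +kernel) ?_
    refine jn 473 (by decide +kernel) ?_
    refine jn 474 (by decide +kernel) ?_
    refine jn 475 (by decide +kernel) ?_
    refine jn 476 (by decide +kernel) ?_
    refine jn 477 (by decide +kernel) ?_
    refine jn 478 (by decide +kernel) ?_
    refine jn 479 (by decide +kernel) ?_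
    refine jn 480 (by decide +kernel) ?_
    refine jn 481 (by decide +kernel) ?_
    refine jn 493 (by decide +kernel) ?_
    refine jn 501 (by decide +kernel) ?_
    refine jn 510 (by decide +kernel) ?_
    refine jn 526 (by decide +kernel) ?_
    refine jn 540 (by decide +kernel) ?_
    refine jn 549 (by decide +kernel) ?_
    refine jn 556 (by decide +kernel) ?_
    refine jn 564 (by decide +kernel) ?_
    refine jn 572 (by decide +kernel) ?_
    refine jn 576 (by decide +kernel) ?_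
    refine jn 581 (by decide +kernel) ?_
    refine jn 599 (by decide +kernel) ?_
    refine jn 611 (by decide +kernel) ?_
    refine jn 615 (by decide +kernel) ?_
    refine jn 621 (by decide +kernel) ?_
    refine jn 622 (by decide +kernel) ?_
    refine jn 623 (by decide +kernel) ?_
    refine jn 624 (by decide +kernel) ?_
    refine jn 630 (by decide +kernel) ?_
    refine jn 632 (by decide +kernel) ?_
    refine jn 634 (by decide +kernel) ?_
    refine jn 648 (by decide +kernel) ?_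
    refine jn 661 (by decide +kernel) ?_
    refine jn 677 (by decide +kernel) ?_
    refine jn 692 (by decide +kernel) ?_
    refine jn 710 (by decide +kernel) ?_
    refine jn 722 (by decide +kernel) ?_
    refine jn 736 (by decide +kernel) ?_
    refine jn 747 (by decide +kernel) ?_
    refine jn 758 (by decide +kernel) ?_
    refine jn 769 (by decide +kernel) ?_
    refine jn 780 (by decide +kernel) ?_
    refine jn 799 (by decide +kernel) ?_
    refine jn 808 (by decide +kernel) ?_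
    refine jn 824 (by decide +kernel) ?_
    refine jn 840 (by decide +kernel) ?_
    refine jn 856 (by decide +kernel) ?_
    refine jn 874 (by decide +kernel) ?_
    refine jn 892 (by decide +kernel) ?_
    refine jn 908 (by decide +kernel) ?_
    refine jn 924 (by decide +kernel) ?_
    refine jn 940 (by decide +kernel) ?_
    refine jn 956 (by decide +kernel) ?_
    refine jn 976 (by decide +kernel) ?_
    refine jn 1099 (by decide +kernel) ?_
    refine jn 1183 (by decide +kernel) ?_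
    refine jn 1257 (by decide +kernel) ?_
    refine jn 1290 (by decide +kernel) ?_
    refine jn 1321 (by decide +kernel) ?_
    refine jn 1350 (by decide +kernel) ?_
    refine jn 1363 (by decide +kernel) ?_
    refine jn 1374 (by decide +kernel) ?_
    refine jn 1395 (by decide +kernel) ?_
    refine jn 1410 (by decide +kernel) ?_
    refine jn 1426 (by decide +kernel) ?_
    refine jn 1446 (by decide +kernel) ?_
    refine jn 1465 (by decide +kernel) ?_
    refine jn 1511 (by decide +kernel) ?_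
    refine jn 1598 (by decide +kernel) ?_
    refine jn 1639 (by decide +kernel) ?_
    refine jn 1666 (by decide +kernel) ?_
    refine jn 1714 (by decide +kernel) ?_
    refine jn 1762 (by decide +kernel) ?_
    refine jn 1826 (by decide +kernel) ?_
    refine jn 1871 (by decide +kernel) ?_
    refine jn 1916 (by decide +kernel) ?_
    refine jn 1995 (by decide +kernel) ?_
    refine jn 2066 (by decide +kernel) ?_
    refine jn 2147 (by decide +kernel) ?_
    refine jn 2228 (by decide +kernel) ?_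
    refine jn 2330 (by decide +kernel) ?_
    refine jn 2442 (by decide +kernel) ?_
    refine jn 2537 (by decide +kernel) ?_
    refine jn 2645 (by decide +kernel) ?_
    refine jn 2846 (by decide +kernel) ?_
    refine jn 3031 (by decide +kernel) ?_
    refine jn 3223 (by decide +kernel) ?_
    refine jn 3477 (by decide +kernel) ?_
    refine jn 3628 (by decide +kernel) ?_
    refine jn 3796 (by decide +kernel) ?_
    refine jn 3991 (by decide +kernel) ?_
    refine jn 4200 (by decide +kernel) ?_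
    refine jn 4570 (by decide +kernel) ?_
    refine jn 4800 (by decide +kernel) ?_
    refine jn 4931 (by decide +kernel) ?_
    refine jn 5292 (by decide +kernel) ?_
    refine jn 5448 (by decide +kernel) ?_
    refine jn 5561 (by decide +kernel) ?_
    refine jn 5962 (by decide +kernel) ?_
    refine jn 6160 (by decide +kernel) ?_
    refine jn 6607 (by decide +kernel) ?_
    refine jn 6850 (by decide +kernel) ?_
    exact je (by decide +kernel)
  · refine fin 48 3185 T143_1 ?_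
    refine jn 7 (by decide +kernel) ?_
    refine jn 9 (by decide +kernel) ?_
    refine jn 11 (by decide +kernel) ?_
    refine jn 12 (by decide +kernel) ?_
    refine jn 15 (by decide +kernel) ?_
    refine jn 17 (by decide +kernel) ?_
    refine jn 21 (by decide +kernel) ?_
    refine jn 31 (by decide +kernel) ?_
    refine jn 32 (by decide +kernel) ?_
    refine jn 33 (by decide +kernel) ?_
    refine jn 34 (by decide +kernel) ?_
    refine jn 35 (by decide +kernel) ?_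
    refine jn 37 (by decide +kernel) ?_
    refine jn 38 (by decide +kernel) ?_
    refine jn 39 (by decide +kernel) ?_
    refine jn 40 (by decide +kernel) ?_
    refine jn 41 (by decide +kernel) ?_
    refine jn 42 (by decide +kernel) ?_
    refine jn 43 (by decide +kernel) ?_
    refine jn 44 (by decide +kernel) ?_
    refine jn 45 (by decide +kernel) ?_
    refine jn 46 (by decide +kernel) ?_
    refine jn 47 (by decide +kernel) ?_
    refine jn 48 (by decide +kernel) ?_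
    refine jn 49 (by decide +kernel) ?_
    refine jn 50 (by decide +kernel) ?_
    refine jn 51 (by decide +kernel) ?_
    refine jn 52 (by decide +kernel) ?_
    refine jn 66 (by decide +kernel) ?_
    refine jn 67 (by decide +kernel) ?_
    refine jn 70 (by decide +kernel) ?_
    refine jn 72 (by decide +kernel) ?_
    refine jn 76 (by decide +kernel) ?_
    refine jn 78 (by decide +kernel) ?_
    refine jn 89 (by decide +kernel) ?_
    refine jn 91 (by decide +kernel) ?_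
    refine jn 92 (by decide +kernel) ?_
    refine jn 93 (by decide +kernel) ?_
    refine jn 94 (by decide +kernel) ?_
    refine jn 95 (by decide +kernel) ?_
    refine jn 96 (by decide +kernel) ?_
    refine jn 97 (by decide +kernel) ?_
    refine jn 98 (by decide +kernel) ?_
    refine jn 99 (by decide +kernel) ?_
    refine jn 100 (by decide +kernel) ?_
    refine jn 101 (by decide +kernel) ?_
    refine jn 102 (by decide +kernel) ?_
    refine jn 103 (by decide +kernel) ?_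
    refine jn 111 (by decide +kernel) ?_
    refine jn 114 (by decide +kernel) ?_
    refine jn 117 (by decide +kernel) ?_
    refine jn 122 (by decide +kernel) ?_
    refine jn 125 (by decide +kernel) ?_
    refine jn 133 (by decide +kernel) ?_
    refine jn 136 (by decide +kernel) ?_
    refine jn 142 (by decide +kernel) ?_
    refine jn 153 (by decide +kernel) ?_
    refine jn 157 (by decide +kernel) ?_
    refine jn 158 (by decide +kernel) ?_
    refine jn 161 (by decide +kernel) ?_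
    refine jn 170 (by decide +kernel) ?_
    refine jn 175 (by decide +kernel) ?_
    refine jn 179 (by decide +kernel) ?_
    refine jn 189 (by decide +kernel) ?_
    refine jn 190 (by decide +kernel) ?_
    refine jn 191 (by decide +kernel) ?_
    refine jn 192 (by decide +kernel) ?_
    refine jn 193 (by decide +kernel) ?_
    refine jn 202 (by decide +kernel) ?_
    refine jn 204 (by decide +kernel) ?_
    refine jn 208 (by decide +kernel) ?_
    refine jn 216 (by decide +kernel) ?_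
    refine jn 217 (by decide +kernel) ?_
    refine jn 218 (by decide +kernel) ?_
    refine jn 219 (by decide +kernel) ?_
    refine jn 220 (by decide +kernel) ?_
    refine jn 221 (by decide +kernel) ?_
    refine jn 233 (by decide +kernel) ?_
    refine jn 235 (by decide +kernel) ?_
    refine jn 245 (by decide +kernel) ?_
    refine jn 247 (by decide +kernel) ?_
    refine jn 257 (by decide +kernel) ?_
    refine jn 262 (by decide +kernel) ?_
    refine jn 272 (by decide +kernel) ?_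
    refine jn 282 (by decide +kernel) ?_
    refine jn 290 (by decide +kernel) ?_
    refine jn 291 (by decide +kernel) ?_
    refine jn 301 (by decide +kernel) ?_
    refine jn 304 (by decide +kernel) ?_
    refine jn 311 (by decide +kernel) ?_
    refine jn 312 (by decide +kernel) ?_
    refine jn 323 (by decide +kernel) ?_
    refine jn 324 (by decide +kernel) ?_
    refine jn 336 (by decide +kernel) ?_
    refine jn 347 (by decide +kernel) ?_
    refine jn 357 (by decide +kernel) ?_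
    refine jn 365 (by decide +kernel) ?_
    refine jn 366 (by decide +kernel) ?_
    refine jn 368 (by decide +kernel) ?_
    refine jn 369 (by decide +kernel) ?_
    refine jn 370 (by decide +kernel) ?_
    refine jn 380 (by decide +kernel) ?_
    refine jn 389 (by decide +kernel) ?_
    refine jn 398 (by decide +kernel) ?_
    refine jn 404 (by decide +kernel) ?_
    refine jn 408 (by decide +kernel) ?_
    refine jn 415 (by decide +kernel) ?_
    refine jn 424 (by decide +kernel) ?_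
    refine jn 431 (by decide +kernel) ?_
    refine jn 439 (by decide +kernel) ?_
    refine jn 442 (by decide +kernel) ?_
    refine jn 449 (by decide +kernel) ?_
    refine jn 457 (by decide +kernel) ?_
    refine jn 465 (by decide +kernel) ?_
    refine jn 467 (by decide +kernel) ?_
    refine jn 475 (by decide +kernel) ?_
    refine jn 485 (by decide +kernel) ?_
    refine jn 497 (by decide +kernel) ?_
    refine jn 500 (by decide +kernel) ?_
    refine jn 508 (by decide +kernel) ?_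
    refine jn 518 (by decide +kernel) ?_
    refine jn 522 (by decide +kernel) ?_
    refine jn 523 (by decide +kernel) ?_
    refine jn 524 (by decide +kernel) ?_
    refine jn 526 (by decide +kernel) ?_
    refine jn 539 (by decide +kernel) ?_
    refine jn 547 (by decide +kernel) ?_
    refine jn 551 (by decide +kernel) ?_
    refine jn 568 (by decide +kernel) ?_
    refine jn 579 (by decide +kernel) ?_
    refine jn 588 (by decide +kernel) ?_
    refine jn 601 (by decide +kernel) ?_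
    refine jn 612 (by decide +kernel) ?_
    refine jn 620 (by decide +kernel) ?_
    refine jn 632 (by decide +kernel) ?_
    refine jn 649 (by decide +kernel) ?_
    refine jn 658 (by decide +kernel) ?_
    refine jn 673 (by decide +kernel) ?_
    refine jn 685 (by decide +kernel) ?_
    refine jn 697 (by decide +kernel) ?_
    refine jn 699 (by decide +kernel) ?_
    refine jn 715 (by decide +kernel) ?_
    refine jn 724 (by decide +kernel) ?_
    refine jn 740 (by decide +kernel) ?_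
    refine jn 742 (by decide +kernel) ?_
    refine jn 755 (by decide +kernel) ?_
    refine jn 773 (by decide +kernel) ?_
    refine jn 784 (by decide +kernel) ?_
    refine jn 790 (by decide +kernel) ?_
    refine jn 798 (by decide +kernel) ?_
    refine jn 818 (by decide +kernel) ?_
    refine jn 826 (by decide +kernel) ?_
    refine jn 840 (by decide +kernel) ?_
    refine jn 896 (by decide +kernel) ?_
    refine jn 903 (by decide +kernel) ?_
    refine jn 905 (by decide +kernel) ?_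
    refine jn 910 (by decide +kernel) ?_
    refine jn 915 (by decide +kernel) ?_
    refine jn 929 (by decide +kernel) ?_
    refine jn 933 (by decide +kernel) ?_
    refine jn 939 (by decide +kernel) ?_
    refine jn 941 (by decide +kernel) ?_
    refine jn 942 (by decide +kernel) ?_
    refine jn 949 (by decide +kernel) ?_
    refine jn 951 (by decide +kernel) ?_
    refine jn 964 (by decide +kernel) ?_
    refine jn 973 (by decide +kernel) ?_
    refine jn 974 (by decide +kernel) ?_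
    refine jn 981 (by decide +kernel) ?_
    refine jn 999 (by decide +kernel) ?_
    refine jn 1001 (by decide +kernel) ?_
    refine jn 1003 (by decide +kernel) ?_
    refine jn 1010 (by decide +kernel) ?_
    refine jn 1023 (by decide +kernel) ?_
    refine jn 1029 (by decide +kernel) ?_
    refine jn 1036 (by decide +kernel) ?_
    refine jn 1040 (by decide +kernel) ?_
    refine jn 1049 (by decide +kernel) ?_
    refine jn 1053 (by decide +kernel) ?_
    refine jn 1054 (by decide +kernel) ?_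
    refine jn 1064 (by decide +kernel) ?_
    refine jn 1071 (by decide +kernel) ?_
    refine jn 1076 (by decide +kernel) ?_
    refine jn 1085 (by decide +kernel) ?_
    refine jn 1086 (by decide +kernel) ?_
    refine jn 1095 (by decide +kernel) ?_
    refine jn 1108 (by decide +kernel) ?_
    refine jn 1119 (by decide +kernel) ?_
    refine jn 1126 (by decide +kernel) ?_
    refine jn 1133 (by decide +kernel) ?_
    refine jn 1142 (by decide +kernel) ?_
    refine jn 1152 (by decide +kernel) ?_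
    refine jn 1212 (by decide +kernel) ?_
    refine jn 1221 (by decide +kernel) ?_
    refine jn 1225 (by decide +kernel) ?_
    refine jn 1232 (by decide +kernel) ?_
    refine jn 1242 (by decide +kernel) ?_
    refine jn 1248 (by decide +kernel) ?_
    refine jn 1266 (by decide +kernel) ?_
    refine jn 1275 (by decide +kernel) ?_
    refine jn 1281 (by decide +kernel) ?_
    refine jn 1286 (by decide +kernel) ?_
    refine jn 1293 (by decide +kernel) ?_
    refine jn 1297 (by decide +kernel) ?_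
    refine jn 1302 (by decide +kernel) ?_
    refine jn 1313 (by decide +kernel) ?_
    refine jn 1317 (by decide +kernel) ?_
    refine jn 1322 (by decide +kernel) ?_
    refine jn 1340 (by decide +kernel) ?_
    refine jn 1350 (by decide +kernel) ?_
    refine jn 1361 (by decide +kernel) ?_
    refine jn 1363 (by decide +kernel) ?_
    refine jn 1375 (by decide +kernel) ?_
    refine jn 1377 (by decide +kernel) ?_
    refine jn 1387 (by decide +kernel) ?_
    refine jn 1410 (by decide +kernel) ?_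
    refine jn 1413 (by decide +kernel) ?_
    refine jn 1578 (by decide +kernel) ?_
    refine jn 1677 (by decide +kernel) ?_
    refine jn 1933 (by decide +kernel) ?_
    refine jn 2196 (by decide +kernel) ?_
    refine jn 2455 (by decide +kernel) ?_
    refine jn 2714 (by decide +kernel) ?_
    refine jn 3180 (by decide +kernel) ?_
    exact je (by decide +kernel)
  · refine fin 336 7322 T143_2 ?_
    refine jn 6 (by decide +kernel) ?_
    refine jn 11 (by decide +kernel) ?_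
    refine jn 16 (by decide +kernel) ?_
    refine jn 27 (by decide +kernel) ?_
    refine jn 28 (by decide +kernel) ?_
    refine jn 33 (by decide +kernel) ?_
    refine jn 39 (by decide +kernel) ?_
    refine jn 47 (by decide +kernel) ?_
    refine jn 52 (by decide +kernel) ?_
    refine jn 57 (by decide +kernel) ?_
    refine jn 66 (by decide +kernel) ?_
    refine jn 67 (by decide +kernel) ?_
    refine jn 68 (by decide +kernel) ?_
    refine jn 69 (by decide +kernel) ?_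
    refine jn 70 (by decide +kernel) ?_
    refine jn 71 (by decide +kernel) ?_
    refine jn 81 (by decide +kernel) ?_
    refine jn 89 (by decide +kernel) ?_
    refine jn 91 (by decide +kernel) ?_
    refine jn 93 (by decide +kernel) ?_
    refine jn 94 (by decide +kernel) ?_
    refine jn 97 (by decide +kernel) ?_
    refine jn 99 (by decide +kernel) ?_
    refine jn 101 (by decide +kernel) ?_
    refine jn 112 (by decide +kernel) ?_
    refine jn 117 (by decide +kernel) ?_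
    refine jn 121 (by decide +kernel) ?_
    refine jn 134 (by decide +kernel) ?_
    refine jn 138 (by decide +kernel) ?_
    refine jn 147 (by decide +kernel) ?_
    refine jn 148 (by decide +kernel) ?_
    refine jn 149 (by decide +kernel) ?_
    refine jn 151 (by decide +kernel) ?_
    refine jn 152 (by decide +kernel) ?_
    refine jn 161 (by decide +kernel) ?_
    refine jn 167 (by decide +kernel) ?_
    refine jn 180 (by decide +kernel) ?_
    refine jn 189 (by decide +kernel) ?_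
    refine jn 198 (by decide +kernel) ?_
    refine jn 210 (by decide +kernel) ?_
    refine jn 219 (by decide +kernel) ?_
    refine jn 222 (by decide +kernel) ?_
    refine jn 223 (by decide +kernel) ?_
    refine jn 224 (by decide +kernel) ?_
    refine jn 227 (by decide +kernel) ?_
    refine jn 228 (by decide +kernel) ?_
    refine jn 242 (by decide +kernel) ?_
    refine jn 257 (by decide +kernel) ?_
    refine jn 272 (by decide +kernel) ?_
    refine jn 287 (by decide +kernel) ?_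
    refine jn 302 (by decide +kernel) ?_
    refine jn 317 (by decide +kernel) ?_
    refine jn 328 (by decide +kernel) ?_
    refine jn 331 (by decide +kernel) ?_
    refine jn 342 (by decide +kernel) ?_
    refine jn 345 (by decide +kernel) ?_
    refine jn 359 (by decide +kernel) ?_
    refine jn 376 (by decide +kernel) ?_
    refine jn 387 (by decide +kernel) ?_
    refine jn 391 (by decide +kernel) ?_
    refine jn 403 (by decide +kernel) ?_
    refine jn 412 (by decide +kernel) ?_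
    refine jn 414 (by decide +kernel) ?_
    refine jn 425 (by decide +kernel) ?_
    refine jn 441 (by decide +kernel) ?_
    refine jn 442 (by decide +kernel) ?_
    refine jn 443 (by decide +kernel) ?_
    refine jn 444 (by decide +kernel) ?_
    refine jn 445 (by decide +kernel) ?_
    refine jn 455 (by decide +kernel) ?_
    refine jn 464 (by decide +kernel) ?_
    refine jn 480 (by decide +kernel) ?_
    refine jn 491 (by decide +kernel) ?_
    refine jn 507 (by decide +kernel) ?_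
    refine jn 524 (by decide +kernel) ?_
    refine jn 540 (by decide +kernel) ?_
    refine jn 548 (by decide +kernel) ?_
    refine jn 549 (by decide +kernel) ?_
    refine jn 558 (by decide +kernel) ?_
    refine jn 567 (by decide +kernel) ?_
    refine jn 583 (by decide +kernel) ?_
    refine jn 601 (by decide +kernel) ?_
    refine jn 616 (by decide +kernel) ?_
    refine jn 625 (by decide +kernel) ?_
    refine jn 641 (by decide +kernel) ?_
    refine jn 650 (by decide +kernel) ?_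
    refine jn 660 (by decide +kernel) ?_
    refine jn 676 (by decide +kernel) ?_
    refine jn 694 (by decide +kernel) ?_
    refine jn 707 (by decide +kernel) ?_
    refine jn 708 (by decide +kernel) ?_
    refine jn 709 (by decide +kernel) ?_
    refine jn 710 (by decide +kernel) ?_
    refine jn 712 (by decide +kernel) ?_
    refine jn 762 (by decide +kernel) ?_
    refine jn 807 (by decide +kernel) ?_
    refine jn 846 (by decide +kernel) ?_
    refine jn 905 (by decide +kernel) ?_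
    refine jn 944 (by decide +kernel) ?_
    refine jn 978 (by decide +kernel) ?_
    refine jn 989 (by decide +kernel) ?_
    refine jn 999 (by decide +kernel) ?_
    refine jn 1011 (by decide +kernel) ?_
    refine jn 1016 (by decide +kernel) ?_
    refine jn 1023 (by decide +kernel) ?_
    refine jn 1032 (by decide +kernel) ?_
    refine jn 1037 (by decide +kernel) ?_
    refine jn 1052 (by decide +kernel) ?_
    refine jn 1062 (by decide +kernel) ?_
    refine jn 1067 (by decide +kernel) ?_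
    refine jn 1073 (by decide +kernel) ?_
    refine jn 1083 (by decide +kernel) ?_
    refine jn 1086 (by decide +kernel) ?_
    refine jn 1097 (by decide +kernel) ?_
    refine jn 1109 (by decide +kernel) ?_
    refine jn 1122 (by decide +kernel) ?_
    refine jn 1139 (by decide +kernel) ?_
    refine jn 1146 (by decide +kernel) ?_
    refine jn 1163 (by decide +kernel) ?_
    refine jn 1167 (by decide +kernel) ?_
    refine jn 1179 (by decide +kernel) ?_
    refine jn 1181 (by decide +kernel) ?_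
    refine jn 1193 (by decide +kernel) ?_
    refine jn 1206 (by decide +kernel) ?_
    refine jn 1221 (by decide +kernel) ?_
    refine jn 1231 (by decide +kernel) ?_
    refine jn 1276 (by decide +kernel) ?_
    refine jn 1336 (by decide +kernel) ?_
    refine jn 1407 (by decide +kernel) ?_
    refine jn 1444 (by decide +kernel) ?_
    refine jn 1445 (by decide +kernel) ?_
    refine jn 1468 (by decide +kernel) ?_
    refine jn 1480 (by decide +kernel) ?_
    refine jn 1489 (by decide +kernel) ?_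
    refine jn 1501 (by decide +kernel) ?_
    refine jn 1524 (by decide +kernel) ?_
    refine jn 1528 (by decide +kernel) ?_
    refine jn 1536 (by decide +kernel) ?_
    refine jn 1549 (by decide +kernel) ?_
    refine jn 1566 (by decide +kernel) ?_
    refine jn 1576 (by decide +kernel) ?_
    refine jn 1591 (by decide +kernel) ?_
    refine jn 1605 (by decide +kernel) ?_
    refine jn 1620 (by decide +kernel) ?_
    refine jn 1633 (by decide +kernel) ?_
    refine jn 1636 (by decide +kernel) ?_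
    refine jn 1637 (by decide +kernel) ?_
    refine jn 1672 (by decide +kernel) ?_
    refine jn 1694 (by decide +kernel) ?_
    refine jn 1745 (by decide +kernel) ?_
    refine jn 1784 (by decide +kernel) ?_
    refine jn 1814 (by decide +kernel) ?_
    refine jn 1855 (by decide +kernel) ?_
    refine jn 1895 (by decide +kernel) ?_
    refine jn 1948 (by decide +kernel) ?_
    refine jn 1963 (by decide +kernel) ?_
    refine jn 1975 (by decide +kernel) ?_
    refine jn 2021 (by decide +kernel) ?_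
    refine jn 2075 (by decide +kernel) ?_
    refine jn 2126 (by decide +kernel) ?_
    refine jn 2171 (by decide +kernel) ?_
    refine jn 2215 (by decide +kernel) ?_
    refine jn 2266 (by decide +kernel) ?_
    refine jn 2320 (by decide +kernel) ?_
    refine jn 2366 (by decide +kernel) ?_
    refine jn 2529 (by decide +kernel) ?_
    refine jn 2598 (by decide +kernel) ?_
    refine jn 2683 (by decide +kernel) ?_
    refine jn 2764 (by decide +kernel) ?_
    refine jn 2847 (by decide +kernel) ?_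
    refine jn 2911 (by decide +kernel) ?_
    refine jn 2991 (by decide +kernel) ?_
    refine jn 3079 (by decide +kernel) ?_
    refine jn 3219 (by decide +kernel) ?_
    refine jn 3282 (by decide +kernel) ?_
    refine jn 3378 (by decide +kernel) ?_
    refine jn 3468 (by decide +kernel) ?_
    refine jn 3569 (by decide +kernel) ?_
    refine jn 3657 (by decide +kernel) ?_
    refine jn 3749 (by decide +kernel) ?_
    refine jn 3854 (by decide +kernel) ?_
    refine jn 3965 (by decide +kernel) ?_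
    refine jn 4043 (by decide +kernel) ?_
    refine jn 4392 (by decide +kernel) ?_
    refine jn 4575 (by decide +kernel) ?_
    refine jn 4717 (by decide +kernel) ?_
    refine jn 5043 (by decide +kernel) ?_
    refine jn 5180 (by decide +kernel) ?_
    refine jn 5275 (by decide +kernel) ?_
    refine jn 5358 (by decide +kernel) ?_
    refine jn 5738 (by decide +kernel) ?_
    refine jn 5896 (by decide +kernel) ?_
    refine jn 6020 (by decide +kernel) ?_
    refine jn 6484 (by decide +kernel) ?_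
    refine jn 6647 (by decide +kernel) ?_
    exact je (by decide +kernel)
  · refine fin 792 6959 T143_3 ?_
    refine jn 4 (by decide +kernel) ?_
    refine jn 7 (by decide +kernel) ?_
    refine jn 10 (by decide +kernel) ?_
    refine jn 11 (by decide +kernel) ?_
    refine jn 14 (by decide +kernel) ?_
    refine jn 17 (by decide +kernel) ?_
    refine jn 22 (by decide +kernel) ?_
    refine jn 30 (by decide +kernel) ?_
    refine jn 38 (by decide +kernel) ?_
    refine jn 49 (by decide +kernel) ?_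
    refine jn 53 (by decide +kernel) ?_
    refine jn 60 (by decide +kernel) ?_
    refine jn 74 (by decide +kernel) ?_
    refine jn 88 (by decide +kernel) ?_
    refine jn 106 (by decide +kernel) ?_
    refine jn 129 (by decide +kernel) ?_
    refine jn 144 (by decide +kernel) ?_
    refine jn 153 (by decide +kernel) ?_
    refine jn 162 (by decide +kernel) ?_
    refine jn 172 (by decide +kernel) ?_
    refine jn 188 (by decide +kernel) ?_
    refine jn 189 (by decide +kernel) ?_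
    refine jn 190 (by decide +kernel) ?_
    refine jn 191 (by decide +kernel) ?_
    refine jn 192 (by decide +kernel) ?_
    refine jn 193 (by decide +kernel) ?_
    refine jn 194 (by decide +kernel) ?_
    refine jn 195 (by decide +kernel) ?_
    refine jn 197 (by decide +kernel) ?_
    refine jn 198 (by decide +kernel) ?_
    refine jn 199 (by decide +kernel) ?_
    refine jn 200 (by decide +kernel) ?_
    refine jn 201 (by decide +kernel) ?_
    refine jn 215 (by decide +kernel) ?_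
    refine jn 216 (by decide +kernel) ?_
    refine jn 217 (by decide +kernel) ?_
    refine jn 218 (by decide +kernel) ?_
    refine jn 219 (by decide +kernel) ?_
    refine jn 220 (by decide +kernel) ?_
    refine jn 221 (by decide +kernel) ?_
    refine jn 222 (by decide +kernel) ?_
    refine jn 223 (by decide +kernel) ?_
    refine jn 236 (by decide +kernel) ?_
    refine jn 245 (by decide +kernel) ?_
    refine jn 247 (by decide +kernel) ?_
    refine jn 248 (by decide +kernel) ?_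
    refine jn 249 (by decide +kernel) ?_
    refine jn 250 (by decide +kernel) ?_
    refine jn 251 (by decide +kernel) ?_
    refine jn 252 (by decide +kernel) ?_
    refine jn 253 (by decide +kernel) ?_
    refine jn 254 (by decide +kernel) ?_
    refine jn 255 (by decide +kernel) ?_
    refine jn 256 (by decide +kernel) ?_
    refine jn 259 (by decide +kernel) ?_
    refine jn 260 (by decide +kernel) ?_
    refine jn 261 (by decide +kernel) ?_
    refine jn 262 (by decide +kernel) ?_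
    refine jn 263 (by decide +kernel) ?_
    refine jn 264 (by decide +kernel) ?_
    refine jn 278 (by decide +kernel) ?_
    refine jn 294 (by decide +kernel) ?_
    refine jn 307 (by decide +kernel) ?_
    refine jn 314 (by decide +kernel) ?_
    refine jn 322 (by decide +kernel) ?_
    refine jn 335 (by decide +kernel) ?_
    refine jn 340 (by decide +kernel) ?_
    refine jn 346 (by decide +kernel) ?_
    refine jn 347 (by decide +kernel) ?_
    refine jn 348 (by decide +kernel) ?_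
    refine jn 352 (by decide +kernel) ?_
    refine jn 353 (by decide +kernel) ?_
    refine jn 354 (by decide +kernel) ?_
    refine jn 361 (by decide +kernel) ?_
    refine jn 362 (by decide +kernel) ?_
    refine jn 363 (by decide +kernel) ?_
    refine jn 365 (by decide +kernel) ?_
    refine jn 376 (by decide +kernel) ?_
    refine jn 387 (by decide +kernel) ?_
    refine jn 404 (by decide +kernel) ?_
    refine jn 414 (by decide +kernel) ?_
    refine jn 415 (by decide +kernel) ?_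
    refine jn 418 (by decide +kernel) ?_
    refine jn 429 (by decide +kernel) ?_
    refine jn 440 (by decide +kernel) ?_
    refine jn 451 (by decide +kernel) ?_
    refine jn 462 (by decide +kernel) ?_
    refine jn 478 (by decide +kernel) ?_
    refine jn 487 (by decide +kernel) ?_
    refine jn 501 (by decide +kernel) ?_
    refine jn 502 (by decide +kernel) ?_
    refine jn 511 (by decide +kernel) ?_
    refine jn 527 (by decide +kernel) ?_
    refine jn 542 (by decide +kernel) ?_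
    refine jn 558 (by decide +kernel) ?_
    refine jn 567 (by decide +kernel) ?_
    refine jn 595 (by decide +kernel) ?_
    refine jn 655 (by decide +kernel) ?_
    refine jn 771 (by decide +kernel) ?_
    refine jn 850 (by decide +kernel) ?_
    refine jn 851 (by decide +kernel) ?_
    refine jn 890 (by decide +kernel) ?_
    refine jn 898 (by decide +kernel) ?_
    refine jn 934 (by decide +kernel) ?_
    refine jn 950 (by decide +kernel) ?_
    refine jn 978 (by decide +kernel) ?_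
    refine jn 994 (by decide +kernel) ?_
    refine jn 1026 (by decide +kernel) ?_
    refine jn 1038 (by decide +kernel) ?_
    refine jn 1066 (by decide +kernel) ?_
    refine jn 1082 (by decide +kernel) ?_
    refine jn 1142 (by decide +kernel) ?_
    refine jn 1266 (by decide +kernel) ?_
    refine jn 1327 (by decide +kernel) ?_
    refine jn 1347 (by decide +kernel) ?_
    refine jn 1379 (by decide +kernel) ?_
    refine jn 1391 (by decide +kernel) ?_
    refine jn 1423 (by decide +kernel) ?_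
    refine jn 1463 (by decide +kernel) ?_
    refine jn 1475 (by decide +kernel) ?_
    refine jn 1503 (by decide +kernel) ?_
    refine jn 1567 (by decide +kernel) ?_
    refine jn 1611 (by decide +kernel) ?_
    refine jn 1643 (by decide +kernel) ?_
    refine jn 1735 (by decide +kernel) ?_
    refine jn 1819 (by decide +kernel) ?_
    refine jn 1914 (by decide +kernel) ?_
    refine jn 2010 (by decide +kernel) ?_
    refine jn 2090 (by decide +kernel) ?_
    refine jn 2208 (by decide +kernel) ?_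
    refine jn 2348 (by decide +kernel) ?_
    refine jn 2481 (by decide +kernel) ?_
    refine jn 2629 (by decide +kernel) ?_
    refine jn 2805 (by decide +kernel) ?_
    refine jn 2944 (by decide +kernel) ?_
    refine jn 3152 (by decide +kernel) ?_
    refine jn 3320 (by decide +kernel) ?_
    refine jn 3492 (by decide +kernel) ?_
    refine jn 3688 (by decide +kernel) ?_
    refine jn 4100 (by decide +kernel) ?_
    refine jn 4283 (by decide +kernel) ?_
    refine jn 4615 (by decide +kernel) ?_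
    refine jn 4816 (by decide +kernel) ?_
    refine jn 4925 (by decide +kernel) ?_
    refine jn 5075 (by decide +kernel) ?_
    refine jn 5450 (by decide +kernel) ?_
    refine jn 5609 (by decide +kernel) ?_
    refine jn 6058 (by decide +kernel) ?_
    refine jn 6307 (by decide +kernel) ?_
    exact je (by decide +kernel)

end Pool.Agent.MP_2339ce_nt.NR
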