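import Pool.Agent.MP_2339ce_nt.Q2.NC.L5
import Pool.Agent.MP_2339ce_nt.Q2.NC.L8
import Pool.Agent.MP_2339ce_nt.Q2.NC.L9
import Pool.Agent.MP_2339ce_nt.Q2.CkI

/-! Block NR: runs. -/

set_option autoImplicit false
set_option maxRecDepth 100000

noncomputable section

namespace Pool.Agent.MP_2339ce_nt.NR

open Q2.Top

def T33_0 : Ph :=
  (.na 645 16 (.na 427 9 (.na 147 7 (.na 1 6 .ne (.nx 146 16777217 (.nr 145 1048577 (.nx 4 189 (.nx
  3 188 (.nr 2 67 (.lg 0 true 1 31 31 7 0 47376) (.l1 .sk)) (.l1 .sk)) (.nr 139 370729 (.nr 133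
  220437 (.nx 20 31114 (.nr 14 155873 (.lg 0 false 10 103 107 13 0 3079440) (.nx 19 2049 (.lg 0
  false 5 89 89 13 0 236880) .out)) (.nx 91 660563 (.nr 30 1026 (.lg 0 true 10 89 89 13 0 33840)
  (.nx 72 165142 (.nx 62 112360 (.nx 52 76448 (.nx 36 41285 (.nr 35 155873 (.lg 1 false 5 101 101
  13 88641 236880) .out) (.nx 42 52015 (.nr 41 185365 (.lg 1 false 5 101 101 13 79427 236880) .out)
  (.lg 1 false 10 101 107 13 74958 3079440))) (.lg 1 false 10 101 107 13 51001 3079440)) (.lg 1
  true 10 101 107 13 34701 3079440)) (.nr 90 185365 (.nx 77 208065 (.lg 1 true 5 103 103 13 19857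
  3079440) (.nr 89 77937 (.nr 82 4102 (.lg 2 true 5 89 97 13 60520 236880) (.nr 84 8201 (.lg 2
  false 2 89 89 7 15138 47376) (.lg 2 false 5 97 101 13 7572 236880))) .out)) .out))) (.nr 132 257
  (.nx 101 2097153 (.lg 0 true 10 83 83 13 0 33840) (.nr 131 28 (.lg 0 true 30 83 83 13 0 33840)
  .out)) .out))) (.nx 138 814 (.lg 0 false 5 83 83 13 0 33840) .out)) (.nx 144 324 (.lg 0 false 5
  79 79 13 0 33840) .out))) .out) .out)) (.na 287 8 (.nx 286 16777217 (.nr 285 1246976 (.nx 150 189
  (.nx 149 188 (.nr 148 77 (.lg 0 true 1 31 31 9 0 118440) (.l1 .sk)) (.l1 .sk)) (.nx 179 32768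
  (.nr 167 262145 (.nr 161 155873 (.lg 0 false 11 101 103 16 0 1302840) (.nx 166 2049 (.lg 0 false
  5 89 89 16 0 118440) .out)) (.nx 178 814 (.nr 172 440873 (.lg 0 false 5 83 83 16 0 118440) (.nx
  177 257 (.lg 0 false 5 73 73 16 0 118440) .out)) .out)) (.nr 284 220437 (.nr 233 642 (.nx 190
  1048577 (.lg 0 true 11 89 89 16 0 1302840) (.nr 232 129 (.nr 223 47 (.lg 0 true 33 83 83 16 0
  260568) (.nx 231 2097153 (.lg 0 true 8 79 79 16 0 47376) .out)) .out)) (.nx 283 832257 (.nx 267
  208065 (.nx 256 121357 (.nx 245 65536 (.nr 244 185365 (.lg 1 false 11 103 109 16 100072 33873840)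
  .out) (.lg 1 false 11 103 107 16 59493 33873840)) (.lg 1 true 11 103 109 16 32128 33873840)) (.nr
  282 110219 (.nr 277 12496 (.nr 272 2833 (.lg 2 true 5 89 89 16 121857 118440) (.lg 2 true 5 89 97
  16 27615 118440)) (.lg 2 false 5 97 101 16 9378 118440)) .out)) .out)) .out))) .out) .out) (.nx
  426 16777217 (.nr 425 1048577 (.nx 289 188 (.nr 288 87 (.lg 0 false 1 31 31 9 0 236880) (.l1
  .sk)) (.nx 290 189 (.l1 .sk) (.nx 379 1048577 (.nx 319 26007 (.nr 301 155873 (.lg 0 false 11 101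
  103 13 0 2605680) (.nx 318 2049 (.nr 312 623489 (.lg 0 false 11 89 101 13 0 2605680) (.nx 317 324
  (.lg 0 false 5 73 73 13 0 33840) .out)) .out)) (.nr 378 220437 (.nr 330 971 (.lg 0 true 11 89 89
  13 0 74448) (.nx 353 112360 (.nx 342 52015 (.nr 341 185365 (.lg 1 false 11 101 107 13 126088
  2605680) .out) (.lg 1 false 11 101 107 13 74958 2605680)) (.nr 361 14343 (.nr 358 3732 (.lg 2
  true 5 89 89 13 101511 236880) (.lg 2 true 3 97 97 11 26412 236880)) (.nx 372 208065 (.lg 1 true
  11 101 107 13 34701 2605680) (.nr 377 110219 (.lg 2 false 5 97 101 13 9378 236880) .out)))))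
  .out)) (.nr 424 129 (.nx 390 2097153 (.lg 0 true 11 73 79 13 0 74448) (.nr 423 55 (.lg 0 true 33
  83 83 13 0 74448) .out)) .out)))) .out) .out))) (.na 532 12 (.na 531 10 (.nx 530 16777217 (.nr
  529 1048577 (.nx 430 189 (.nx 429 188 (.nr 428 97 (.lg 0 true 1 23 23 7 0 3384) (.l1 .sk)) (.l1
  .sk)) (.nx 448 29192 (.nx 431 257 (.l1 (.ls 83 37 3372)) (.nr 447 623489 (.nr 441 185365 (.lg 0
  false 10 101 103 16 0 236880) (.nx 446 2049 (.lg 0 false 5 89 89 16 0 16920) .out)) .out)) (.nr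
  528 220437 (.nx 502 2097153 (.nx 496 1048577 (.nr 458 764 (.lg 0 true 10 83 83 16 0 33840) (.nx
  495 832257 (.nr 463 7077 (.lg 2 true 5 89 89 16 102399 16920) (.nx 489 208065 (.nx 474 61857 (.nx
  469 41285 (.nr 468 185365 (.lg 1 false 5 101 101 16 112331 236880) .out) (.lg 1 false 5 103 103
  16 94440 2605680)) (.nx 484 138866 (.nx 479 92682 (.lg 1 false 5 103 103 16 63032 2605680) (.lg 1
  true 5 103 103 16 42068 2605680)) (.lg 1 true 5 103 103 16 28077 2605680))) (.nr 494 110219 (.lg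
  2 false 5 97 101 16 11055 118440) .out))) .out)) (.nr 501 154 (.lg 0 true 5 73 73 16 0 16920)
  .out)) (.nr 527 65 (.lg 0 true 25 79 79 16 0 16920) .out)) .out))) .out) .out) .ne) (.na 598 14
  (.nx 597 2097153 (.nr 596 1048577 (.nx 534 188 (.nr 533 136 (.lg 0 true 1 37 37 13 0 6768) (.l1
  .sk)) (.nx 535 189 (.l1 .sk) (.nr 593 623489 (.nr 587 185365 (.nx 548 48160 (.lg 0 false 13 101
  107 29 0 3079440) (.nx 579 660563 (.nr 553 1066 (.lg 0 true 5 89 89 19 0 33840) (.nr 555 4207
  (.lg 2 true 2 97 97 13 58249 236880) (.nx 566 104033 (.lg 1 false 11 97 107 29 68089 2605680)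
  (.nr 578 155873 (.nx 573 208065 (.lg 1 true 7 97 103 23 26511 236880) (.nr 577 65537 (.nr 575
  16606 (.lg 2 true 2 97 97 13 14760 236880) (.lg 2 false 2 97 101 13 5583 236880)) .out)) .out))))
  (.nr 586 65 (.lg 0 true 7 73 79 23 0 236880) .out))) (.nx 592 1292 (.lg 0 false 5 89 97 19 0
  236880) .out)) (.nx 595 257 (.lg 0 false 2 73 73 13 0 6768) .out)))) .out) .out) (.nx 644 2097153
  (.nr 643 1048577 (.nr 599 3 .s1 (.nx 603 257 (.nx 601 188 (.nr 600 155 (.lg 0 false 1 23 23 11 0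
  47376) (.l1 .sk)) (.nx 602 189 (.l1 .sk) (.l1 (.ls 83 41 2169)))) (.nr 642 623489 (.nx 636 660563
  (.nr 630 185365 (.nx 614 48160 (.lg 0 false 11 97 101 19 0 521136) (.nr 619 2277 (.lg 0 true 5 89
  89 13 0 236880) (.nx 624 104033 (.lg 1 false 5 97 101 13 68089 236880) (.nr 629 155873 (.lg 2
  false 5 101 103 13 27270 236880) .out)))) (.nx 635 1292 (.lg 0 false 5 83 83 13 0 236880) .out))
  (.nr 641 65 (.lg 0 true 5 67 67 13 0 236880) .out)) .out))) .out) .out)))) (.na 832 23 (.na 746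
  18 (.na 703 17 (.nx 702 2097153 (.nr 701 1048577 (.nr 646 9 .s1 (.nx 695 660563 (.nx 649 189 (.nx
  648 188 (.nr 647 165 (.lg 0 false 1 31 31 11 0 6768) (.l1 .sk)) (.l1 .sk)) (.nx 663 10323 (.nr
  654 262145 (.lg 0 false 5 97 97 17 0 33840) (.nx 662 2049 (.nr 659 623489 (.lg 0 false 5 83 89 17
  0 33840) (.nx 661 324 (.lg 0 false 2 73 73 13 0 6768) .out)) .out)) (.nr 694 185365 (.nx 668
  32768 (.lg 0 false 5 101 103 17 0 236880) (.nr 674 4585 (.nr 673 1212 (.lg 0 true 5 83 83 17 0
  33840) (.lg 2 false 1 89 89 11 51232 6768)) (.nx 679 70783 (.lg 1 false 5 101 107 17 100072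
  3079440) (.nx 684 104033 (.lg 1 false 5 97 103 17 46327 3079440) (.nr 693 155873 (.nx 689 208065
  (.lg 1 true 5 97 103 17 26511 236880) (.nr 692 77937 (.nr 690 8915 (.lg 2 false 1 83 83 11 13543
  6768) (.lg 2 false 2 97 97 13 6965 47376)) .out)) .out))))) .out))) (.nr 700 129 (.lg 0 true 5 73
  73 17 0 33840) .out))) .out) .out) (.nx 745 2097153 (.nr 744 1048577 (.nr 704 11 .s1 (.nx 707 189
  (.nx 706 188 (.nr 705 175 (.lg 0 false 1 29 29 11 0 16920) (.l1 .sk)) (.l1 .sk)) (.nx 724 41286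
  (.nx 708 324 (.l1 (.ls 83 37 4076)) (.nr 723 623489 (.nr 719 262145 (.lg 0 false 11 97 103 16 0
  186120) (.nx 722 2049 (.lg 0 false 3 83 83 16 0 3384) .out)) .out)) (.nr 743 155873 (.nr 731 751
  (.lg 0 true 7 83 83 16 0 23688) (.nx 742 416129 (.lg 2 false 11 103 109 16 66801 33873840) .out))
  .out)))) .out) .out)) (.na 787 21 (.nx 786 2097153 (.nr 785 1048577 (.nr 747 12 .s1 (.nx 769
  41286 (.nx 749 188 (.nr 748 204 (.lg 0 false 1 29 29 13 0 33840) (.l1 .sk)) (.nx 750 189 (.l1
  .sk) (.nx 751 324 (.l1 (.ls 83 47 3850)) (.nr 768 623489 (.nr 758 185365 (.lg 0 false 7 97 101 19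
  0 236880) (.nx 767 10323 (.nr 761 262145 (.lg 0 false 3 89 89 13 0 33840) (.nx 766 2049 (.lg 0
  false 5 83 83 19 0 33840) .out)) .out)) .out)))) (.nr 784 155873 (.nr 776 751 (.lg 0 true 7 83 83
  19 0 47376) (.nx 783 416129 (.lg 2 false 7 101 103 19 66801 2605680) .out)) .out))) .out) .out)
  (.nx 831 2097153 (.nr 830 1048577 (.nr 788 16 .s1 (.nx 792 324 (.nx 790 188 (.nr 789 223 (.lg 0
  true 1 29 29 16 0 23688) (.l1 .sk)) (.nx 791 189 (.l1 .sk) (.l1 (.ls 83 41 3300)))) (.nr 829
  623489 (.nr 823 262145 (.nx 800 41286 (.nr 797 185365 (.lg 0 false 5 97 101 19 0 118440) (.nx 799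
  10323 (.lg 0 false 2 89 97 17 0 47376) .out)) (.nr 822 155873 (.nx 816 416129 (.nr 805 2200 (.lg
  0 true 5 79 83 19 0 118440) (.nx 810 82572 (.lg 1 false 5 89 101 19 66801 236880) (.nr 815 131073
  (.lg 2 false 5 89 101 19 28093 118440) .out))) (.nr 821 257 (.lg 0 true 5 73 79 19 0 118440)
  .out)) .out)) (.nx 828 2049 (.lg 0 false 5 79 83 19 0 118440) .out)) .out))) .out) .out))) (.na
  871 27 (.na 833 24 .ne (.nx 870 2097153 (.nr 869 1048577 (.nr 834 20 .s1 (.nx 838 324 (.nx 836
  188 (.nr 835 262 (.lg 0 true 1 29 29 13 0 6768) (.l1 .sk)) (.nx 837 189 (.l1 .sk) (.l1 (.ls 83 43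
  2888)))) (.nr 868 524289 (.nr 866 370729 (.nx 860 330282 (.nx 843 20644 (.lg 0 false 5 97 101 23
  0 33840) (.nr 859 131073 (.nr 848 1650 (.lg 0 true 5 79 79 23 0 33840) (.nx 853 52017 (.lg 1
  false 5 97 103 23 112367 2605680) (.nr 858 92683 (.lg 2 false 5 97 103 23 31552 2605680) .out)))
  .out)) (.nr 865 257 (.lg 0 true 5 73 73 23 0 33840) .out)) (.nx 867 1292 (.lg 0 false 1 79 79 13
  0 6768) .out)) .out))) .out) .out)) (.na 904 28 (.nx 903 2097153 (.nr 902 1048577 (.nr 872 24 .s1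
  (.nx 890 41287 (.nx 874 188 (.nr 873 272 (.lg 0 true 1 23 23 16 0 236880) (.l1 .sk)) (.nx 875 189
  (.l1 .sk) (.nx 876 324 (.l1 (.ls 79 37 2568)) (.nr 889 524289 (.nr 887 370729 (.lg 0 false 11 89
  101 17 0 1302840) (.nx 888 1292 (.lg 0 true 1 73 73 16 0 3384) .out)) .out)))) (.nr 901 110219
  (.nr 895 814 (.lg 0 true 5 79 79 16 0 16920) (.nx 900 330282 (.lg 2 false 5 89 97 16 47258
  118440) .out)) .out))) .out) .out) (.nx 936 2097153 (.nr 935 1048577 (.nr 905 25 .s1 (.nx 931
  524289 (.nx 919 20644 (.nx 907 188 (.nr 906 311 (.lg 0 true 1 31 31 13 0 236880) (.l1 .sk)) (.nx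
  908 189 (.l1 .sk) (.nx 909 324 (.l1 (.ls 89 43 2476)) (.nr 918 524289 (.nr 912 185365 (.lg 0
  false 3 97 101 19 0 236880) (.nx 917 13005 (.nr 915 370729 (.lg 0 false 3 97 101 19 0 236880)
  (.nx 916 1292 (.lg 0 false 1 79 79 13 0 47376) .out)) .out)) .out)))) (.nr 930 131073 (.nr 922
  906 (.lg 0 true 3 79 79 19 0 47376) (.nx 929 330282 (.nx 925 52017 (.lg 1 false 3 97 101 19
  112367 236880) (.nr 928 92683 (.lg 2 false 3 97 101 19 34268 236880) .out)) .out)) .out)) (.nr
  934 129 (.lg 0 true 3 73 73 19 0 47376) .out))) .out) .out)))))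

def T33_1 : Ph :=
  (.na 575 46 (.na 372 27 (.na 238 19 (.na 109 16 (.na 68 15 (.nx 67 1664512 (.nr 66 623489 (.nr 1
  4 .s1 (.nx 3 135 (.nr 2 123 (.lg 0 false 1 29 29 13 0 720) (.l1 .sk)) (.nx 4 136 (.l1 .sk) (.nx
  19 10323 (.nr 11 155873 (.lg 0 false 7 89 89 19 0 5040) (.nx 18 1292 (.lg 0 false 7 83 83 19 0
  5040) .out)) (.nr 65 110219 (.nr 57 77937 (.nr 45 46342 (.nr 33 829 (.nx 26 524289 (.lg 0 true 7
  79 79 19 0 5040) (.nr 32 65 (.lg 0 true 6 71 71 17 0 720) .out)) (.nx 44 416129 (.lg 2 true 11 79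
  79 23 41029 7920) .out)) (.nx 56 208065 (.nx 52 131073 (.lg 0 true 7 101 103 19 0 720720) (.nr 55
  55110 (.lg 0 true 3 89 89 13 0 720) .out)) .out)) (.nx 64 82572 (.lg 0 true 7 97 103 19 0 720720)
  .out)) .out))))) .out) .out) (.nx 108 1664512 (.nr 107 623489 (.nr 69 10 .s1 (.nx 71 135 (.nr 70
  132 (.lg 0 true 1 19 19 16 0 720) (.l1 .sk)) (.nx 72 136 (.l1 .sk) (.nr 99 155873 (.nx 79 29192
  (.lg 0 false 7 89 89 16 0 5040) (.nr 98 110219 (.nr 90 829 (.lg 0 true 11 73 73 16 0 3960) (.nx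
  97 416129 (.lg 2 false 7 89 89 16 34449 5040) .out)) .out)) (.nx 106 1292 (.lg 0 false 7 71 71 16
  0 2520) .out))))) .out) .out)) (.na 168 17 (.nx 167 1664512 (.nr 166 1048577 (.nr 110 12 .s1 (.nx
  162 524289 (.nx 113 136 (.nx 112 135 (.nr 111 140 (.lg 0 true 1 31 31 11 0 720) (.l1 .sk)) (.l1
  .sk)) (.nr 120 829 (.lg 0 true 7 73 73 19 0 5040) (.nx 161 416129 (.nr 122 3171 (.nx 121 10323
  (.lg 0 false 1 71 71 11 0 720) (.lg 2 false 1 79 79 11 33883 720)) (.nx 138 13005 (.nr 135 623489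
  (.nr 129 220437 (.lg 0 false 7 83 101 19 0 5040) (.nx 134 1627 (.nr 131 370729 (.lg 0 false 2 83
  83 13 0 720) (.nx 133 647 (.lg 0 false 2 79 79 13 0 720) .out)) .out)) (.nx 137 257 (.lg 0 false
  2 73 73 13 0 720) .out)) (.nr 160 110219 (.nr 145 46342 (.nr 141 23702 (.lg 2 true 3 73 73 13
  16704 720) (.lg 2 false 4 79 79 13 32568 720)) (.nx 159 208065 (.nx 156 131073 (.lg 0 true 11 97
  107 23 0 720720) (.nr 158 55110 (.lg 0 true 2 89 97 13 0 5040) .out)) .out)) .out))) .out))) (.nr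
  165 129 (.lg 0 true 3 73 73 13 0 720) .out))) .out) .out) (.na 201 18 (.nx 200 1664512 (.nr 199
  1048577 (.nr 169 13 .s1 (.nx 173 257 (.nx 171 135 (.nr 170 148 (.lg 0 false 1 23 23 11 0 720)
  (.l1 .sk)) (.nx 172 136 (.l1 .sk) (.l1 (.ls 83 37 2800)))) (.nr 198 623489 (.nr 193 220437 (.nx
  180 23171 (.lg 0 false 7 97 97 16 0 5040) (.nr 192 92683 (.nr 187 634 (.lg 0 true 7 79 79 16 0
  2520) (.nx 191 262145 (.lg 2 false 4 97 97 16 36504 720) .out)) .out)) (.nx 197 1627 (.lg 0 false
  4 79 79 16 0 720) .out)) .out))) .out) .out) (.nx 237 1664512 (.nr 236 1048577 (.nr 202 14 .s1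
  (.nx 205 136 (.nx 204 135 (.nr 203 156 (.lg 0 false 1 23 23 13 0 720) (.l1 .sk)) (.l1 .sk)) (.nx
  228 262145 (.nx 206 257 (.l1 (.ls 83 43 2644)) (.nr 227 623489 (.nx 217 23171 (.nr 213 220437
  (.lg 0 false 7 89 97 23 0 5040) (.nx 216 1627 (.lg 0 false 3 79 83 19 0 720) .out)) (.nr 226
  92683 (.nr 220 1854 (.lg 0 true 3 79 79 19 0 720) (.nx 222 41287 (.lg 1 false 2 83 89 13 36504
  720) (.nr 225 77937 (.lg 2 false 3 83 89 19 17232 720) .out))) .out)) .out)) (.nr 235 217 (.lg 0
  true 7 71 73 23 0 5040) .out)))) .out) .out)))) (.na 306 23 (.na 271 20 (.nx 270 1664512 (.nr 269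
  1048577 (.nr 239 16 .s1 (.nx 242 136 (.nx 241 135 (.nr 240 165 (.lg 0 false 1 23 23 11 0 720)
  (.l1 .sk)) (.l1 .sk)) (.nx 243 257 (.l1 (.ls 83 37 2505)) (.nr 268 623489 (.nr 263 220437 (.nx
  250 23171 (.lg 0 false 7 89 97 16 0 5040) (.nr 262 92683 (.nr 257 634 (.lg 0 true 7 79 79 16 0
  2520) (.nx 261 262145 (.lg 2 false 4 97 101 16 36504 5040) .out)) .out)) (.nx 267 1627 (.lg 0
  false 4 79 79 16 0 720) .out)) .out)))) .out) .out) (.nx 305 1664512 (.nr 304 1048577 (.nr 272 17
  .s1 (.nx 274 135 (.nr 273 189 (.lg 0 true 1 19 19 13 0 720) (.l1 .sk)) (.nx 275 136 (.l1 .sk)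
  (.nx 276 257 (.l1 (.ls 79 41 2380)) (.nr 303 623489 (.nr 299 220437 (.nx 283 23171 (.lg 0 false 7
  89 89 19 0 5040) (.nr 298 92683 (.nr 290 634 (.lg 0 true 7 73 73 19 0 5040) (.nx 297 262145 (.lg
  2 false 7 83 89 19 36504 5040) .out)) .out)) (.nx 302 1627 (.lg 0 false 3 79 79 13 0 720) .out))
  .out))))) .out) .out)) (.na 336 24 (.nx 335 1664512 (.nr 334 1048577 (.nr 307 20 .s1 (.nx 310 136
  (.nx 309 135 (.nr 308 198 (.lg 0 true 1 23 23 11 0 720) (.l1 .sk)) (.l1 .sk)) (.nx 321 20644 (.nx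
  311 257 (.l1 (.ls 83 31 2070)) (.nr 320 311745 (.nr 315 110219 (.lg 0 false 4 89 89 16 0 720)
  (.nx 319 8193 (.lg 0 false 4 89 89 16 0 720) .out)) .out)) (.nr 333 77937 (.nr 328 513 (.lg 0
  true 7 79 79 16 0 2520) (.nx 332 165142 (.lg 2 false 4 97 97 16 34463 5040) .out)) .out)))) .out)
  .out) (.na 371 25 (.nx 370 1664512 (.nr 369 1048577 (.nr 337 22 .s1 (.nx 340 136 (.nx 339 135
  (.nr 338 206 (.l1 (.ls 29 37 762)) (.l1 .sk)) (.l1 .sk)) (.nx 352 20644 (.nx 341 257 (.l1 (.ls 83
  43 1984)) (.nr 351 311745 (.nr 348 110219 (.lg 0 false 7 79 83 29 0 5040) (.nx 350 8193 (.lg 0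
  false 2 89 97 19 0 720) .out)) .out)) (.nr 368 77937 (.nr 365 55110 (.nx 361 208065 (.nx 359
  165142 (.nr 355 8487 (.lg 0 true 3 83 83 23 0 720) (.lg 2 true 4 73 73 23 24387 720)) (.nr 360
  513 (.lg 0 true 1 67 67 13 0 720) .out)) (.nr 364 217 (.lg 0 true 3 73 73 23 0 720) .out)) (.nx
  367 65537 (.lg 0 true 2 89 89 19 0 720) .out)) .out)))) .out) .out) (.lg 0 false 1 0 0 7 0
  24))))) (.na 472 34 (.na 421 31 (.na 397 30 (.nx 396 1664512 (.nr 395 1048577 (.nr 373 25 .s1
  (.nx 375 135 (.nr 374 247 (.l1 (.ls 23 29 677)) (.l1 .sk)) (.nx 376 136 (.l1 .sk) (.nx 377 257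
  (.l1 (.ls 79 31 1764)) (.nr 394 311745 (.nx 384 20644 (.lg 0 false 7 83 97 17 0 5040) (.nr 393
  77937 (.nr 388 513 (.lg 0 true 4 73 73 16 0 720) (.nx 392 165142 (.lg 2 false 4 83 89 16 34463
  720) .out)) .out)) .out))))) .out) .out) (.nx 420 1664512 (.nr 419 1048577 (.nr 398 28 .s1 (.nx
  407 20644 (.nx 399 257 (.l1 (.ls 73 47 2204)) (.nr 406 311745 (.lg 0 false 7 83 83 23 0 5040)
  .out)) (.nr 418 77937 (.nr 414 513 (.lg 0 true 7 67 67 23 0 5040) (.nx 417 165142 (.lg 2 true 3
  79 79 19 34463 720) .out)) .out))) .out) .out)) (.na 443 32 (.nx 442 1664512 (.nr 441 1048577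
  (.nr 422 29 .s1 (.nx 425 136 (.nx 424 135 (.nr 423 264 (.l1 (.ls 19 19 590)) (.l1 .sk)) (.l1
  .sk)) (.nx 426 257 (.l1 (.ls 79 29 1536)) (.nr 440 311745 (.nx 430 20644 (.lg 0 false 4 89 89 16
  0 720) (.nr 439 77937 (.nr 434 513 (.lg 0 true 4 73 73 16 0 720) (.nx 438 165142 (.lg 2 false 4
  89 89 16 34463 720) .out)) .out)) .out)))) .out) .out) (.na 471 33 (.nx 470 1664512 (.nr 469
  1048577 (.nr 444 30 .s1 (.nx 446 135 (.nr 445 272 (.l1 (.ls 29 31 572)) (.l1 .sk)) (.nx 447 136
  (.l1 .sk) (.nx 459 20644 (.nx 448 257 (.l1 (.ls 83 37 1489)) (.nr 458 440873 (.nx 455 10323 (.lg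
  0 false 7 83 89 23 0 5040) (.nr 457 110219 (.lg 0 false 2 83 89 13 0 720) .out)) .out)) (.nr 468
  77937 (.nx 464 208065 (.nr 460 1307 (.lg 0 false 1 79 79 13 0 720) (.nx 463 165142 (.nx 461 41287
  (.lg 1 true 1 89 89 13 34463 720) (.nr 462 65537 (.lg 2 true 1 89 89 13 14495 720) .out)) .out))
  (.nr 467 217 (.lg 0 true 3 71 71 19 0 720) .out)) .out))))) .out) .out) .ne))) (.na 517 38 (.na
  492 36 (.nx 491 1664512 (.nr 490 881745 (.nr 473 32 .s1 (.nx 482 20644 (.nx 474 257 (.l1 (.ls 79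
  41 1945)) (.nr 481 440873 (.lg 0 false 7 89 97 23 0 5040) .out)) (.nr 489 46342 (.nr 486 297 (.lg
  0 true 4 71 71 13 0 720) (.nx 488 104033 (.lg 2 true 2 83 83 13 23644 720) .out)) .out))) .out)
  .out) (.nx 516 1664512 (.nr 515 881745 (.nr 493 35 .s1 (.nx 496 136 (.nx 495 135 (.nr 494 313
  (.l1 (.ls 29 37 509)) (.l1 .sk)) (.l1 .sk)) (.nx 507 20644 (.nx 505 10323 (.nx 497 257 (.l1 (.ls
  83 41 1323)) (.nr 504 440873 (.lg 0 false 7 79 89 31 0 5040) .out)) (.nr 506 110219 (.lg 0 false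
  1 89 89 19 0 720) .out)) (.nr 514 46342 (.nx 511 104033 (.nr 508 2011 (.lg 0 true 1 73 73 19 0
  720) (.nx 509 26009 (.lg 1 false 1 73 79 19 20516 720) (.nr 510 32769 (.lg 2 false 1 83 83 19
  11529 720) .out))) (.nr 513 257 (.lg 0 true 2 73 73 23 0 720) .out)) .out)))) .out) .out)) (.na
  537 40 (.nx 536 1664512 (.nr 535 881745 (.nr 518 37 .s1 (.nx 519 257 (.l1 (.ls 79 41 1741)) (.nr
  534 440873 (.nx 526 20644 (.lg 0 false 7 89 97 17 0 5040) (.nr 533 46342 (.nr 530 330 (.lg 0 true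
  4 71 71 17 0 720) (.nx 532 104033 (.lg 2 true 2 83 83 13 21280 720) .out)) .out)) .out))) .out)
  .out) (.na 556 45 (.nx 555 1664512 (.nr 554 881745 (.nr 538 39 .s1 (.nx 541 136 (.nx 540 135 (.nr
  539 371 (.l1 (.ls 29 31 458)) (.l1 .sk)) (.l1 .sk)) (.nx 542 257 (.l1 (.ls 79 37 1191)) (.nr 553
  440873 (.nx 545 10323 (.lg 0 false 3 83 89 23 0 720) (.nr 552 110219 (.nr 550 32769 (.nr 548 257
  (.lg 0 true 3 71 71 23 0 720) (.nx 549 104033 (.lg 2 true 1 89 89 19 29048 5040) .out)) (.nx 551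
  26009 (.lg 0 false 1 89 89 19 0 720) .out)) .out)) .out)))) .out) .out) (.nx 574 1664512 (.nr 573
  881745 (.nr 557 44 .s1 (.nx 560 136 (.nx 559 135 (.nr 558 379 (.l1 (.ls 23 29 407)) (.l1 .sk))
  (.l1 .sk)) (.nx 561 257 (.l1 (.ls 73 31 1059)) (.nr 572 440873 (.nx 565 20644 (.lg 0 false 4 83
  89 19 0 720) (.nr 571 46342 (.nr 569 379 (.lg 0 true 4 67 67 19 0 720) (.nx 570 104033 (.lg 2
  true 1 79 79 16 20516 360) .out)) .out)) .out)))) .out) .out)))))) (.na 730 62 (.na 650 53 (.na
  611 48 (.na 594 47 (.nx 593 1664512 (.nr 592 881745 (.nr 576 45 .s1 (.nx 585 20644 (.nx 577 257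
  (.l1 (.ls 79 41 1438)) (.nr 584 623489 (.lg 0 false 7 89 97 19 0 5040) .out)) (.nr 591 46342 (.nr
  588 257 (.lg 0 true 3 67 67 13 0 720) (.nx 590 104033 (.lg 2 true 2 83 83 13 27324 720) .out))
  .out))) .out) .out) (.nx 610 1664512 (.nr 609 881745 (.nr 595 46 .s1 (.nx 596 257 (.l1 (.ls 73 29
  1408)) (.nr 608 623489 (.nx 600 20644 (.lg 0 false 4 89 89 16 0 720) (.nr 607 46342 (.nr 604 395
  (.lg 0 true 4 67 67 16 0 720) (.nx 606 104033 (.lg 2 false 2 79 79 16 20516 720) .out)) .out))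
  .out))) .out) .out)) (.na 633 50 (.nx 632 1664512 (.nr 631 881745 (.nr 612 47 .s1 (.nx 615 136
  (.nx 614 135 (.nr 613 412 (.l1 (.ls 23 31 382)) (.l1 .sk)) (.l1 .sk)) (.nx 616 257 (.l1 (.ls 73
  41 993)) (.nr 630 623489 (.nx 623 13005 (.lg 0 false 7 79 89 31 0 5040) (.nr 629 110219 (.nr 625
  257 (.lg 0 true 2 67 67 23 0 720) (.nx 628 104033 (.nr 626 32769 (.lg 2 true 1 83 83 19 27324
  720) (.nx 627 26009 (.lg 0 false 1 83 83 19 0 720) .out)) .out)) .out)) .out)))) .out) .out) (.na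
  634 51 (.lg 0 false 1 0 0 16 0 24) (.nx 649 1664512 (.nr 648 881745 (.nr 635 50 .s1 (.nx 641
  20644 (.nx 636 257 (.l1 (.ls 73 37 1298)) (.nr 640 623489 (.lg 0 false 4 89 89 16 0 720) .out))
  (.nr 647 46342 (.nr 645 437 (.lg 0 true 4 67 67 16 0 720) (.nx 646 104033 (.lg 2 true 1 83 83 16
  20516 360) .out)) .out))) .out) .out)))) (.na 682 57 (.na 666 54 (.nx 665 1664512 (.nr 664 881745
  (.nr 651 52 .s1 (.nx 657 20644 (.nx 652 257 (.l1 (.ls 73 29 1249)) (.nr 656 623489 (.lg 0 false 4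
  89 89 16 0 720) .out)) (.nr 663 46342 (.nr 661 445 (.lg 0 true 4 71 71 16 0 720) (.nx 662 104033
  (.lg 2 true 1 83 83 16 20516 720) .out)) .out))) .out) .out) (.nx 681 1664512 (.nr 680 881745
  (.nr 667 53 .s1 (.nx 672 13005 (.nx 668 257 (.l1 (.ls 79 41 1226)) (.nr 671 623489 (.lg 0 false 3
  89 89 23 0 720) .out)) (.nr 679 110219 (.nr 677 32769 (.nr 675 257 (.lg 0 true 3 67 67 23 0 720)
  (.nx 676 104033 (.lg 2 true 1 79 79 19 27324 720) .out)) (.nx 678 26009 (.lg 0 true 1 83 83 19 0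
  720) .out)) .out))) .out) .out)) (.na 698 60 (.nx 697 1664512 (.nr 696 881745 (.nr 683 56 .s1
  (.nx 689 20644 (.nx 684 257 (.l1 (.ls 73 37 1161)) (.nr 688 623489 (.lg 0 false 4 83 89 17 0 720)
  .out)) (.nr 695 46342 (.nr 693 494 (.lg 0 true 4 67 67 17 0 720) (.nx 694 104033 (.lg 2 true 1 79
  79 16 20516 360) .out)) .out))) .out) .out) (.na 715 61 (.nx 714 1664512 (.nr 713 881745 (.nr 699
  59 .s1 (.nx 700 257 (.l1 (.ls 71 41 1103)) (.nr 712 623489 (.nx 707 20644 (.lg 0 false 7 79 83 31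
  0 5040) (.nr 711 46342 (.nr 709 257 (.lg 0 true 2 61 61 23 0 720) (.nx 710 104033 (.lg 2 true 1
  79 79 23 27324 720) .out)) .out)) .out))) .out) .out) (.nx 729 1664512 (.nr 728 881745 (.nr 716
  60 .s1 (.nx 717 257 (.l1 (.ls 73 23 1085)) (.nr 727 623489 (.nx 721 20644 (.lg 0 false 4 89 89 16
  0 720) (.nr 726 46342 (.nr 723 257 (.lg 0 true 2 67 67 16 0 720) (.nx 725 104033 (.lg 2 false 2
  79 79 16 27324 720) .out)) .out)) .out))) .out) .out))))) (.na 795 72 (.na 762 65 (.na 748 64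
  (.nx 747 1664512 (.nr 746 881745 (.nr 731 61 .s1 (.nx 740 20644 (.nx 732 257 (.l1 (.ls 73 37
  1068)) (.nr 739 623489 (.lg 0 false 7 83 89 23 0 5040) .out)) (.nr 745 46342 (.nr 743 527 (.lg 0
  true 3 67 67 19 0 720) (.nx 744 104033 (.lg 2 true 1 79 79 13 20516 720) .out)) .out))) .out)
  .out) (.nx 761 1664512 (.nr 760 881745 (.nr 749 63 .s1 (.nx 750 257 (.l1 (.ls 73 31 1035)) (.nr
  759 623489 (.nx 752 13005 (.lg 0 false 2 89 89 19 0 720) (.nr 758 110219 (.nx 753 26009 (.lg 1
  false 1 79 79 17 77328 720) (.nr 757 32769 (.nr 755 513 (.lg 0 true 2 71 71 19 0 720) (.nx 756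
  104033 (.lg 2 true 1 73 73 17 13689 720) .out)) .out)) .out)) .out))) .out) .out)) (.na 763 68
  .ne (.na 779 69 (.nx 778 1664512 (.nr 777 524289 (.nr 764 68 .s1 (.nx 774 104033 (.nr 767 32769
  (.nx 765 645 (.l1 (.ls 61 47 6121)) (.lg 0 false 2 79 79 23 0 720)) (.nx 769 136 (.nx 768 135
  (.l1 .sk) (.l1 .sk)) (.nx 773 20644 (.nx 771 13005 (.lg 0 false 2 89 97 23 0 720) (.nr 772 65537
  (.lg 0 false 1 73 73 13 0 720) .out)) .out))) (.nr 776 513 (.lg 0 true 2 73 73 23 0 720) .out)))
  .out) .out) (.nx 794 1664512 (.nr 793 524289 (.nr 780 69 .s1 (.nx 783 136 (.nx 782 135 (.nr 781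
  593 (.l1 (.ls 17 19 267)) (.l1 .sk)) (.l1 .sk)) (.nx 787 20644 (.lg 0 false 4 83 83 17 0 720)
  (.nr 792 32769 (.nr 790 513 (.lg 0 true 3 61 61 17 0 360) (.nx 791 104033 (.lg 2 true 1 71 71 16
  14525 360) .out)) .out)))) .out) .out)))) (.na 809 76 (.na 808 75 (.nx 807 1664512 (.nr 806
  524289 (.nr 796 72 .s1 (.nx 799 136 (.nx 798 135 (.nr 797 618 (.l1 (.ls 37 31 256)) (.l1 .sk))
  (.l1 .sk)) (.nr 804 65537 (.nx 800 20644 (.lg 0 false 1 83 83 29 0 720) (.nr 803 32769 (.nr 801
  513 (.lg 0 true 1 79 79 29 0 720) (.nx 802 104033 (.lg 1 true 1 83 89 29 14525 720) .out)) .out))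
  (.nx 805 13005 (.lg 0 false 1 97 101 29 0 5040) .out)))) .out) .out) (.lg 0 false 1 0 0 16 0 24))
  (.na 822 79 (.nx 821 1664512 (.nr 820 524289 (.nr 810 76 .s1 (.nx 812 135 (.nr 811 651 (.l1 (.ls
  17 29 242)) (.l1 .sk)) (.nx 813 136 (.l1 .sk) (.nx 815 20644 (.lg 0 false 2 89 97 23 0 720) (.nr
  819 32769 (.nr 817 513 (.lg 0 true 2 73 73 23 0 720) (.nx 818 104033 (.lg 2 true 1 79 79 17 14525
  720) .out)) .out))))) .out) .out) (.na 838 80 (.nx 837 1664512 (.nr 836 524289 (.nr 823 79 .s1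
  (.nx 830 20644 (.nx 825 135 (.nr 824 659 (.l1 (.ls 19 17 233)) (.l1 .sk)) (.nx 826 136 (.l1 .sk)
  (.lg 0 false 4 83 83 16 0 720))) (.nr 835 32769 (.nr 833 513 (.lg 0 true 3 61 61 16 0 360) (.nx
  834 104033 (.lg 2 true 1 71 71 16 14525 360) .out)) .out))) .out) .out) (.nx 850 1664512 (.nr 849
  524289 (.nr 839 80 .s1 (.nx 844 20644 (.nx 841 135 (.nr 840 667 (.l1 (.ls 29 29 230)) (.l1 .sk))
  (.nx 842 136 (.l1 .sk) (.lg 0 false 2 83 89 23 0 720))) (.nr 848 32769 (.nr 846 513 (.lg 0 true 2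
  71 71 23 0 720) (.nx 847 104033 (.lg 2 true 1 73 73 23 14525 720) .out)) .out))) .out)
  .out)))))))

def T33_2 : Ph :=
  (.na 204 194 (.na 140 64 (.na 89 26 (.na 67 3 (.na 1 2 .ne (.nx 66 660563 (.nr 65 623489 (.nx 4
  44 (.nx 3 43 (.nr 2 13 (.lg 0 true 1 23 23 5 0 10320) (.l1 .sk)) (.l1 .sk)) (.nr 42 27556 (.nx 11
  3893 (.lg 0 true 7 89 89 9 0 72240) (.nr 32 307 (.lg 0 true 21 83 83 11 0 43344) (.nx 41 104033
  (.lg 2 false 9 97 97 9 7286 30960) .out))) (.nx 64 647 (.nr 49 131073 (.lg 0 false 7 89 89 9 0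
  72240) (.nx 63 103 (.lg 0 false 14 73 73 9 0 14448) .out)) .out))) .out) .out)) (.na 68 22 .ne
  (.na 88 23 (.nx 87 660563 (.nr 86 623489 (.nr 69 22 .s1 (.nx 70 103 (.l1 (.ls 83 31 485)) (.nr 85
  131073 (.nx 73 6503 (.lg 0 true 3 83 83 13 0 340560) (.nr 84 46342 (.nr 78 257 (.lg 0 true 5 71
  71 19 0 113520) (.nx 83 41287 (.lg 1 false 5 67 67 19 6595 113520) .out)) .out)) .out))) .out)
  .out) .ne))) (.na 105 34 (.na 104 32 (.nx 103 660563 (.nr 102 131073 (.nr 90 26 .s1 (.nx 96 6503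
  (.nx 92 43 (.nr 91 150 (.l1 (.ls 16 19 74)) (.l1 .sk)) (.nx 93 44 (.l1 .sk) (.lg 0 false 3 79 79
  11 0 80496))) (.nr 101 32769 (.nr 99 257 (.lg 0 true 3 67 67 11 0 80496) (.nx 100 41287 (.lg 1
  false 1 79 79 11 4666 26832) .out)) .out))) .out) .out) .ne) (.na 119 46 (.nx 118 82572 (.nr 117
  262145 (.nr 106 34 .s1 (.nx 109 44 (.nx 108 43 (.nr 107 215 (.l1 (.ls 16 13 57)) (.l1 .sk)) (.l1
  .sk)) (.nx 112 2582 (.lg 0 false 3 73 73 13 0 6192) (.nr 116 32769 (.nr 113 154 (.lg 0 false 1 59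
  59 13 0 2064) (.nx 115 41287 (.lg 1 true 2 73 73 13 11751 2064) .out)) .out)))) .out) .out) (.na
  130 62 (.nx 129 82572 (.nr 128 262145 (.nr 120 46 .s1 (.nx 122 43 (.nr 121 290 (.l1 (.ls 16 13
  43)) (.l1 .sk)) (.nx 123 44 (.l1 .sk) (.nr 126 32769 (.lg 0 true 3 83 83 13 0 6192) (.nx 127 2582
  (.lg 0 true 1 83 83 13 0 2064) .out))))) .out) .out) (.nx 139 82572 (.nr 138 262145 (.nr 131 62
  .s1 (.nx 134 44 (.nx 133 43 (.nr 132 299 (.l1 (.ls 16 13 32)) (.l1 .sk)) (.l1 .sk)) (.nr 136
  32769 (.lg 0 false 2 83 83 17 0 10320) (.nx 137 2582 (.lg 0 true 1 79 79 13 0 10320) .out))))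
  .out) .out))))) (.na 177 118 (.na 149 86 (.na 141 82 .ne (.nx 148 82572 (.nr 147 524289 (.nr 142
  82 .s1 (.nx 143 647 (.l1 (.ls 73 47 5107)) (.nr 146 262145 (.nx 144 6503 (.lg 0 true 1 83 83 13 0
  2064) (.nr 145 65537 (.lg 1 false 1 83 83 13 21650 2064) .out)) .out))) .out) .out)) (.na 159 94
  (.nx 158 82572 (.nr 157 524289 (.nr 150 86 .s1 (.nx 151 647 (.l1 (.ls 61 41 4870)) (.nr 156
  262145 (.lg 0 false 5 79 79 19 0 10320) .out))) .out) .out) (.na 169 106 (.nx 168 82572 (.nr 167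
  524289 (.nr 160 94 .s1 (.nx 161 647 (.l1 (.ls 71 43 4456)) (.nr 166 262145 (.nx 164 41287 (.lg 0
  false 3 83 83 19 0 6192) (.nr 165 257 (.lg 0 true 1 37 37 17 0 2064) .out)) .out))) .out) .out)
  (.nx 176 82572 (.nr 175 524289 (.nr 170 106 .s1 (.nx 173 6503 (.nx 171 647 (.l1 (.ls 67 41 3952))
  (.nr 172 262145 (.lg 0 true 1 73 73 19 0 2064) .out)) (.nr 174 65537 (.lg 1 false 1 73 73 19
  16749 2064) .out))) .out) .out)))) (.na 186 134 (.na 185 128 (.nx 184 82572 (.nr 183 524289 (.nr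
  178 118 .s1 (.nx 181 6503 (.nx 179 647 (.l1 (.ls 71 41 3550)) (.nr 180 262145 (.lg 0 true 1 79 79
  19 0 10320) .out)) (.nr 182 65537 (.lg 1 false 1 73 73 19 15045 10320) .out))) .out) .out) .ne)
  (.na 192 158 (.nx 191 41287 (.nr 190 1048577 (.nr 187 134 .s1 (.nx 188 647 (.l1 (.ls 61 41 3126))
  (.nr 189 131073 (.lg 0 true 1 83 83 19 0 2064) .out))) .out) .out) (.na 198 166 (.nx 197 41287
  (.nr 196 1048577 (.nr 193 158 .s1 (.nx 194 647 (.l1 (.ls 71 41 2652)) (.nr 195 131073 (.lg 0 true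
  1 83 83 19 0 2064) .out))) .out) .out) (.nx 203 41287 (.nr 202 1048577 (.nr 199 166 .s1 (.nx 200
  647 (.l1 (.ls 67 41 2524)) (.nr 201 131073 (.lg 0 true 1 73 73 19 0 6192) .out))) .out)
  .out)))))) (.na 809 725 (.na 234 242 (.na 216 206 (.na 210 202 (.nx 209 41287 (.nr 208 1048577
  (.nr 205 194 .s1 (.nx 206 647 (.l1 (.ls 67 41 2160)) (.nr 207 131073 (.lg 0 true 1 73 73 19 0
  6192) .out))) .out) .out) (.nx 215 41287 (.nr 214 1048577 (.nr 211 202 .s1 (.nx 212 647 (.l1 (.ls
  67 37 2075)) (.nr 213 131073 (.lg 0 true 1 73 73 23 0 2064) .out))) .out) .out)) (.na 222 214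
  (.nx 221 41287 (.nr 220 1048577 (.nr 217 206 .s1 (.nx 218 647 (.l1 (.ls 61 37 2035)) (.nr 219
  131073 (.lg 0 true 1 71 71 23 0 2064) .out))) .out) .out) (.na 228 218 (.nx 227 41287 (.nr 226
  1048577 (.nr 223 214 .s1 (.nx 224 647 (.l1 (.ls 67 37 1959)) (.nr 225 131073 (.lg 0 true 1 71 71
  23 0 2064) .out))) .out) .out) (.nx 233 41287 (.nr 232 1048577 (.nr 229 218 .s1 (.nx 230 647 (.l1
  (.ls 67 37 1923)) (.nr 231 131073 (.lg 0 true 1 73 73 23 0 10320) .out))) .out) .out)))) (.na 246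
  256 (.na 240 254 (.nx 239 41287 (.nr 238 1048577 (.nr 235 242 .s1 (.nx 236 647 (.l1 (.ls 67 41
  1732)) (.nr 237 131073 (.lg 0 true 1 73 73 29 0 113520) .out))) .out) .out) (.nx 245 41287 (.nr
  244 1048577 (.nr 241 254 .s1 (.nx 242 647 (.l1 (.ls 61 37 1651)) (.nr 243 131073 (.lg 0 true 1 67
  67 23 0 2064) .out))) .out) .out)) (.na 247 257 .ne (.na 549 512 (.nx 548 41287 (.nr 547 262145
  (.nr 248 257 .s1 (.nx 291 43 (.nr 290 2388 (.lx (.lp 16 0 129)) (.l1 .sk)) (.nx 292 44 (.l1 .sk)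
  (.la (.lg 0 true 1 71 71 19 0))))) .out) .out) (.nx 808 41287 (.nr 807 262145 (.nr 550 512 .s1
  (.nx 594 44 (.nx 593 43 (.nr 592 3382 (.lx (.lp 16 0 182)) (.l1 .sk)) (.l1 .sk)) (.la (.lg 0 true
  1 67 67 23 0)))) .out) .out))))) (.na 2147 4096 (.na 1370 1449 (.na 1111 1024 (.nx 1110 257 (.nr
  1109 65537 (.nr 810 725 .s1 (.la (.ls 59 23 257))) .out) .out) (.nx 1369 257 (.nr 1368 65537 (.nr
  1112 1024 .s1 (.lx (.lp 17 0 363))) .out) .out)) (.na 1629 2048 (.nx 1628 257 (.nr 1627 16385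
  (.nr 1371 1449 .s1 (.lx (.lp 41 23 513))) .out) .out) (.na 1888 2897 (.nx 1887 257 (.nr 1886
  32769 (.nr 1630 2048 .s1 (.lx (.lp 47 23 725))) .out) .out) (.nx 2146 257 (.nr 2145 32769 (.nr
  1889 2897 .s1 (.lx (.lp 16 0 1025))) .out) .out)))) (.na 2511 8192 (.na 2406 5793 (.nx 2405 257
  (.nr 2404 32769 (.nr 2148 4096 .s1 (.lx (.lp 16 0 1449))) .out) .out) (.nx 2510 103 (.nr 2509
  32769 (.nr 2407 5793 .s1 (.lx (.lp 16 0 2049))) .out) .out)) (.na 2616 16384 (.nx 2615 103 (.nr
  2614 32769 (.nr 2512 8192 .s1 (.lx (.lp 16 0 4097))) .out) .out) (.na 2618 32769 (.nx 2617 103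
  (.l1 .sk) .out) .out))))))

theorem c33 :
    OkQ ckI L9 188 5 32 0 34359738368 1 1099511627776 ∧
    OkQ ckI L8 135 12 81 0 34359738368 1 1099511627776 ∧
    OkQ ckI L5 43 1 1099511627776 0 34359738368 1 1099511627776 := by
  refine ⟨?_, ?_, ?_⟩
  · refine fin 3384 937 T33_0 ?_
    refine jn 4 (by decide +kernel) ?_
    refine jn 5 (by decide +kernel) ?_
    refine jn 7 (by decide +kernel) ?_
    refine jn 8 (by decide +kernel) ?_
    refine jn 9 (by decide +kernel) ?_
    refine jn 10 (by decide +kernel) ?_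
    refine jn 12 (by decide +kernel) ?_
    refine jn 13 (by decide +kernel) ?_
    refine jn 14 (by decide +kernel) ?_
    refine jn 22 (by decide +kernel) ?_
    refine jn 25 (by decide +kernel) ?_
    refine jn 28 (by decide +kernel) ?_
    refine jn 30 (by decide +kernel) ?_
    refine jn 41 (by decide +kernel) ?_
    refine jn 52 (by decide +kernel) ?_
    refine jn 62 (by decide +kernel) ?_
    refine jn 72 (by decide +kernel) ?_
    refine jn 82 (by decide +kernel) ?_
    refine jn 89 (by decide +kernel) ?_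
    refine jn 100 (by decide +kernel) ?_
    refine jn 131 (by decide +kernel) ?_
    refine jn 144 (by decide +kernel) ?_
    refine jn 150 (by decide +kernel) ?_
    refine jn 152 (by decide +kernel) ?_
    refine jn 154 (by decide +kernel) ?_
    refine jn 156 (by decide +kernel) ?_
    refine jn 158 (by decide +kernel) ?_
    refine jn 160 (by decide +kernel) ?_
    refine jn 161 (by decide +kernel) ?_
    refine jn 177 (by decide +kernel) ?_
    refine jn 183 (by decide +kernel) ?_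
    refine jn 187 (by decide +kernel) ?_
    refine jn 190 (by decide +kernel) ?_
    refine jn 223 (by decide +kernel) ?_
    refine jn 231 (by decide +kernel) ?_
    refine jn 244 (by decide +kernel) ?_
    refine jn 256 (by decide +kernel) ?_
    refine jn 267 (by decide +kernel) ?_
    refine jn 272 (by decide +kernel) ?_
    refine jn 282 (by decide +kernel) ?_
    refine jn 292 (by decide +kernel) ?_
    refine jn 295 (by decide +kernel) ?_
    refine jn 297 (by decide +kernel) ?_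
    refine jn 299 (by decide +kernel) ?_
    refine jn 301 (by decide +kernel) ?_
    refine jn 312 (by decide +kernel) ?_
    refine jn 322 (by decide +kernel) ?_
    refine jn 326 (by decide +kernel) ?_
    refine jn 330 (by decide +kernel) ?_
    refine jn 341 (by decide +kernel) ?_
    refine jn 353 (by decide +kernel) ?_
    refine jn 361 (by decide +kernel) ?_
    refine jn 372 (by decide +kernel) ?_
    refine jn 379 (by decide +kernel) ?_
    refine jn 390 (by decide +kernel) ?_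
    refine jn 423 (by decide +kernel) ?_
    refine jn 431 (by decide +kernel) ?_
    refine jn 434 (by decide +kernel) ?_
    refine jn 436 (by decide +kernel) ?_
    refine jn 439 (by decide +kernel) ?_
    refine jn 446 (by decide +kernel) ?_
    refine jn 452 (by decide +kernel) ?_
    refine jn 456 (by decide +kernel) ?_
    refine jn 458 (by decide +kernel) ?_
    refine jn 468 (by decide +kernel) ?_
    refine jn 479 (by decide +kernel) ?_
    refine jn 489 (by decide +kernel) ?_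
    refine jn 501 (by decide +kernel) ?_
    refine jn 527 (by decide +kernel) ?_
    refine jn 535 (by decide +kernel) ?_
    refine jn 536 (by decide +kernel) ?_
    refine jn 537 (by decide +kernel) ?_
    refine jn 538 (by decide +kernel) ?_
    refine jn 539 (by decide +kernel) ?_
    refine jn 540 (by decide +kernel) ?_
    refine jn 541 (by decide +kernel) ?_
    refine jn 542 (by decide +kernel) ?_
    refine jn 543 (by decide +kernel) ?_
    refine jn 544 (by decide +kernel) ?_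
    refine jn 545 (by decide +kernel) ?_
    refine jn 546 (by decide +kernel) ?_
    refine jn 547 (by decide +kernel) ?_
    refine jn 548 (by decide +kernel) ?_
    refine jn 549 (by decide +kernel) ?_
    refine jn 550 (by decide +kernel) ?_
    refine jn 551 (by decide +kernel) ?_
    refine jn 552 (by decide +kernel) ?_
    refine jn 553 (by decide +kernel) ?_
    refine jn 555 (by decide +kernel) ?_
    refine jn 559 (by decide +kernel) ?_
    refine jn 563 (by decide +kernel) ?_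
    refine jn 566 (by decide +kernel) ?_
    refine jn 570 (by decide +kernel) ?_
    refine jn 573 (by decide +kernel) ?_
    refine jn 575 (by decide +kernel) ?_
    refine jn 577 (by decide +kernel) ?_
    refine jn 582 (by decide +kernel) ?_
    refine jn 586 (by decide +kernel) ?_
    refine jn 592 (by decide +kernel) ?_
    refine jn 603 (by decide +kernel) ?_
    refine jn 608 (by decide +kernel) ?_
    refine jn 611 (by decide +kernel) ?_
    refine jn 614 (by decide +kernel) ?_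
    refine jn 619 (by decide +kernel) ?_
    refine jn 629 (by decide +kernel) ?_
    refine jn 641 (by decide +kernel) ?_
    refine jn 649 (by decide +kernel) ?_
    refine jn 650 (by decide +kernel) ?_
    refine jn 651 (by decide +kernel) ?_
    refine jn 652 (by decide +kernel) ?_
    refine jn 653 (by decide +kernel) ?_
    refine jn 654 (by decide +kernel) ?_
    refine jn 661 (by decide +kernel) ?_
    refine jn 666 (by decide +kernel) ?_
    refine jn 668 (by decide +kernel) ?_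
    refine jn 669 (by decide +kernel) ?_
    refine jn 670 (by decide +kernel) ?_
    refine jn 671 (by decide +kernel) ?_
    refine jn 672 (by decide +kernel) ?_
    refine jn 673 (by decide +kernel) ?_
    refine jn 674 (by decide +kernel) ?_
    refine jn 679 (by decide +kernel) ?_
    refine jn 684 (by decide +kernel) ?_
    refine jn 689 (by decide +kernel) ?_
    refine jn 692 (by decide +kernel) ?_
    refine jn 698 (by decide +kernel) ?_
    refine jn 705 (by decide +kernel) ?_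
    refine jn 712 (by decide +kernel) ?_
    refine jn 718 (by decide +kernel) ?_
    refine jn 722 (by decide +kernel) ?_
    refine jn 731 (by decide +kernel) ?_
    refine jn 742 (by decide +kernel) ?_
    refine jn 751 (by decide +kernel) ?_
    refine jn 755 (by decide +kernel) ?_
    refine jn 758 (by decide +kernel) ?_
    refine jn 766 (by decide +kernel) ?_
    refine jn 776 (by decide +kernel) ?_
    refine jn 783 (by decide +kernel) ?_
    refine jn 791 (by decide +kernel) ?_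
    refine jn 792 (by decide +kernel) ?_
    refine jn 793 (by decide +kernel) ?_
    refine jn 794 (by decide +kernel) ?_
    refine jn 795 (by decide +kernel) ?_
    refine jn 796 (by decide +kernel) ?_
    refine jn 797 (by decide +kernel) ?_
    refine jn 800 (by decide +kernel) ?_
    refine jn 802 (by decide +kernel) ?_
    refine jn 804 (by decide +kernel) ?_
    refine jn 805 (by decide +kernel) ?_
    refine jn 810 (by decide +kernel) ?_
    refine jn 814 (by decide +kernel) ?_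
    refine jn 818 (by decide +kernel) ?_
    refine jn 821 (by decide +kernel) ?_
    refine jn 828 (by decide +kernel) ?_
    refine jn 838 (by decide +kernel) ?_
    refine jn 839 (by decide +kernel) ?_
    refine jn 840 (by decide +kernel) ?_
    refine jn 841 (by decide +kernel) ?_
    refine jn 842 (by decide +kernel) ?_
    refine jn 843 (by decide +kernel) ?_
    refine jn 845 (by decide +kernel) ?_
    refine jn 847 (by decide +kernel) ?_
    refine jn 848 (by decide +kernel) ?_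
    refine jn 853 (by decide +kernel) ?_
    refine jn 857 (by decide +kernel) ?_
    refine jn 862 (by decide +kernel) ?_
    refine jn 865 (by decide +kernel) ?_
    refine jn 876 (by decide +kernel) ?_
    refine jn 885 (by decide +kernel) ?_
    refine jn 888 (by decide +kernel) ?_
    refine jn 895 (by decide +kernel) ?_
    refine jn 906 (by decide +kernel) ?_
    refine jn 909 (by decide +kernel) ?_
    refine jn 910 (by decide +kernel) ?_
    refine jn 911 (by decide +kernel) ?_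
    refine jn 912 (by decide +kernel) ?_
    refine jn 916 (by decide +kernel) ?_
    refine jn 920 (by decide +kernel) ?_
    refine jn 921 (by decide +kernel) ?_
    refine jn 922 (by decide +kernel) ?_
    refine jn 925 (by decide +kernel) ?_
    refine jn 928 (by decide +kernel) ?_
    refine jn 934 (by decide +kernel) ?_
    exact je (by decide +kernel)
  · refine fin 360 851 T33_1 ?_
    refine jn 4 (by decide +kernel) ?_
    refine jn 6 (by decide +kernel) ?_
    refine jn 8 (by decide +kernel) ?_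
    refine jn 10 (by decide +kernel) ?_
    refine jn 11 (by decide +kernel) ?_
    refine jn 19 (by decide +kernel) ?_
    refine jn 22 (by decide +kernel) ?_
    refine jn 25 (by decide +kernel) ?_
    refine jn 32 (by decide +kernel) ?_
    refine jn 33 (by decide +kernel) ?_
    refine jn 34 (by decide +kernel) ?_
    refine jn 35 (by decide +kernel) ?_
    refine jn 36 (by decide +kernel) ?_
    refine jn 37 (by decide +kernel) ?_
    refine jn 38 (by decide +kernel) ?_
    refine jn 39 (by decide +kernel) ?_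
    refine jn 40 (by decide +kernel) ?_
    refine jn 41 (by decide +kernel) ?_
    refine jn 42 (by decide +kernel) ?_
    refine jn 43 (by decide +kernel) ?_
    refine jn 44 (by decide +kernel) ?_
    refine jn 55 (by decide +kernel) ?_
    refine jn 70 (by decide +kernel) ?_
    refine jn 79 (by decide +kernel) ?_
    refine jn 97 (by decide +kernel) ?_
    refine jn 113 (by decide +kernel) ?_
    refine jn 114 (by decide +kernel) ?_
    refine jn 115 (by decide +kernel) ?_
    refine jn 116 (by decide +kernel) ?_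
    refine jn 117 (by decide +kernel) ?_
    refine jn 118 (by decide +kernel) ?_
    refine jn 119 (by decide +kernel) ?_
    refine jn 120 (by decide +kernel) ?_
    refine jn 121 (by decide +kernel) ?_
    refine jn 122 (by decide +kernel) ?_
    refine jn 127 (by decide +kernel) ?_
    refine jn 131 (by decide +kernel) ?_
    refine jn 137 (by decide +kernel) ?_
    refine jn 138 (by decide +kernel) ?_
    refine jn 139 (by decide +kernel) ?_
    refine jn 140 (by decide +kernel) ?_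
    refine jn 141 (by decide +kernel) ?_
    refine jn 142 (by decide +kernel) ?_
    refine jn 143 (by decide +kernel) ?_
    refine jn 144 (by decide +kernel) ?_
    refine jn 145 (by decide +kernel) ?_
    refine jn 149 (by decide +kernel) ?_
    refine jn 153 (by decide +kernel) ?_
    refine jn 156 (by decide +kernel) ?_
    refine jn 162 (by decide +kernel) ?_
    refine jn 165 (by decide +kernel) ?_
    refine jn 173 (by decide +kernel) ?_
    refine jn 178 (by decide +kernel) ?_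
    refine jn 180 (by decide +kernel) ?_
    refine jn 186 (by decide +kernel) ?_
    refine jn 191 (by decide +kernel) ?_
    refine jn 205 (by decide +kernel) ?_
    refine jn 206 (by decide +kernel) ?_
    refine jn 208 (by decide +kernel) ?_
    refine jn 210 (by decide +kernel) ?_
    refine jn 212 (by decide +kernel) ?_
    refine jn 216 (by decide +kernel) ?_
    refine jn 219 (by decide +kernel) ?_
    refine jn 222 (by decide +kernel) ?_
    refine jn 225 (by decide +kernel) ?_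
    refine jn 232 (by decide +kernel) ?_
    refine jn 240 (by decide +kernel) ?_
    refine jn 246 (by decide +kernel) ?_
    refine jn 250 (by decide +kernel) ?_
    refine jn 257 (by decide +kernel) ?_
    refine jn 267 (by decide +kernel) ?_
    refine jn 276 (by decide +kernel) ?_
    refine jn 281 (by decide +kernel) ?_
    refine jn 283 (by decide +kernel) ?_
    refine jn 290 (by decide +kernel) ?_
    refine jn 297 (by decide +kernel) ?_
    refine jn 311 (by decide +kernel) ?_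
    refine jn 315 (by decide +kernel) ?_
    refine jn 321 (by decide +kernel) ?_
    refine jn 328 (by decide +kernel) ?_
    refine jn 337 (by decide +kernel) ?_
    refine jn 340 (by decide +kernel) ?_
    refine jn 341 (by decide +kernel) ?_
    refine jn 342 (by decide +kernel) ?_
    refine jn 343 (by decide +kernel) ?_
    refine jn 344 (by decide +kernel) ?_
    refine jn 345 (by decide +kernel) ?_
    refine jn 346 (by decide +kernel) ?_
    refine jn 347 (by decide +kernel) ?_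
    refine jn 348 (by decide +kernel) ?_
    refine jn 352 (by decide +kernel) ?_
    refine jn 353 (by decide +kernel) ?_
    refine jn 354 (by decide +kernel) ?_
    refine jn 355 (by decide +kernel) ?_
    refine jn 356 (by decide +kernel) ?_
    refine jn 357 (by decide +kernel) ?_
    refine jn 358 (by decide +kernel) ?_
    refine jn 359 (by decide +kernel) ?_
    refine jn 363 (by decide +kernel) ?_
    refine jn 364 (by decide +kernel) ?_
    refine jn 376 (by decide +kernel) ?_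
    refine jn 377 (by decide +kernel) ?_
    refine jn 380 (by decide +kernel) ?_
    refine jn 383 (by decide +kernel) ?_
    refine jn 386 (by decide +kernel) ?_
    refine jn 388 (by decide +kernel) ?_
    refine jn 392 (by decide +kernel) ?_
    refine jn 414 (by decide +kernel) ?_
    refine jn 426 (by decide +kernel) ?_
    refine jn 430 (by decide +kernel) ?_
    refine jn 434 (by decide +kernel) ?_
    refine jn 447 (by decide +kernel) ?_
    refine jn 448 (by decide +kernel) ?_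
    refine jn 450 (by decide +kernel) ?_
    refine jn 452 (by decide +kernel) ?_
    refine jn 454 (by decide +kernel) ?_
    refine jn 455 (by decide +kernel) ?_
    refine jn 457 (by decide +kernel) ?_
    refine jn 459 (by decide +kernel) ?_
    refine jn 460 (by decide +kernel) ?_
    refine jn 462 (by decide +kernel) ?_
    refine jn 467 (by decide +kernel) ?_
    refine jn 481 (by decide +kernel) ?_
    refine jn 488 (by decide +kernel) ?_
    refine jn 496 (by decide +kernel) ?_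
    refine jn 497 (by decide +kernel) ?_
    refine jn 498 (by decide +kernel) ?_
    refine jn 499 (by decide +kernel) ?_
    refine jn 500 (by decide +kernel) ?_
    refine jn 501 (by decide +kernel) ?_
    refine jn 502 (by decide +kernel) ?_
    refine jn 503 (by decide +kernel) ?_
    refine jn 504 (by decide +kernel) ?_
    refine jn 506 (by decide +kernel) ?_
    refine jn 507 (by decide +kernel) ?_
    refine jn 508 (by decide +kernel) ?_
    refine jn 509 (by decide +kernel) ?_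
    refine jn 510 (by decide +kernel) ?_
    refine jn 512 (by decide +kernel) ?_
    refine jn 513 (by decide +kernel) ?_
    refine jn 526 (by decide +kernel) ?_
    refine jn 532 (by decide +kernel) ?_
    refine jn 542 (by decide +kernel) ?_
    refine jn 544 (by decide +kernel) ?_
    refine jn 545 (by decide +kernel) ?_
    refine jn 547 (by decide +kernel) ?_
    refine jn 548 (by decide +kernel) ?_
    refine jn 549 (by decide +kernel) ?_
    refine jn 561 (by decide +kernel) ?_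
    refine jn 565 (by decide +kernel) ?_
    refine jn 569 (by decide +kernel) ?_
    refine jn 577 (by decide +kernel) ?_
    refine jn 584 (by decide +kernel) ?_
    refine jn 590 (by decide +kernel) ?_
    refine jn 600 (by decide +kernel) ?_
    refine jn 606 (by decide +kernel) ?_
    refine jn 616 (by decide +kernel) ?_
    refine jn 619 (by decide +kernel) ?_
    refine jn 622 (by decide +kernel) ?_
    refine jn 623 (by decide +kernel) ?_
    refine jn 625 (by decide +kernel) ?_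
    refine jn 627 (by decide +kernel) ?_
    refine jn 640 (by decide +kernel) ?_
    refine jn 646 (by decide +kernel) ?_
    refine jn 656 (by decide +kernel) ?_
    refine jn 662 (by decide +kernel) ?_
    refine jn 671 (by decide +kernel) ?_
    refine jn 675 (by decide +kernel) ?_
    refine jn 678 (by decide +kernel) ?_
    refine jn 689 (by decide +kernel) ?_
    refine jn 694 (by decide +kernel) ?_
    refine jn 709 (by decide +kernel) ?_
    refine jn 721 (by decide +kernel) ?_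
    refine jn 731 (by decide +kernel) ?_
    refine jn 739 (by decide +kernel) ?_
    refine jn 749 (by decide +kernel) ?_
    refine jn 752 (by decide +kernel) ?_
    refine jn 755 (by decide +kernel) ?_
    refine jn 764 (by decide +kernel) ?_
    refine jn 765 (by decide +kernel) ?_
    refine jn 766 (by decide +kernel) ?_
    refine jn 767 (by decide +kernel) ?_
    refine jn 772 (by decide +kernel) ?_
    refine jn 781 (by decide +kernel) ?_
    refine jn 790 (by decide +kernel) ?_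
    refine jn 796 (by decide +kernel) ?_
    refine jn 799 (by decide +kernel) ?_
    refine jn 800 (by decide +kernel) ?_
    refine jn 801 (by decide +kernel) ?_
    refine jn 802 (by decide +kernel) ?_
    refine jn 805 (by decide +kernel) ?_
    refine jn 815 (by decide +kernel) ?_
    refine jn 817 (by decide +kernel) ?_
    refine jn 830 (by decide +kernel) ?_
    refine jn 842 (by decide +kernel) ?_
    refine jn 844 (by decide +kernel) ?_
    refine jn 847 (by decide +kernel) ?_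
    exact je (by decide +kernel)
  · refine fin 1032 2619 T33_2 ?_
    refine jn 4 (by decide +kernel) ?_
    refine jn 5 (by decide +kernel) ?_
    refine jn 6 (by decide +kernel) ?_
    refine jn 7 (by decide +kernel) ?_
    refine jn 8 (by decide +kernel) ?_
    refine jn 9 (by decide +kernel) ?_
    refine jn 10 (by decide +kernel) ?_
    refine jn 13 (by decide +kernel) ?_
    refine jn 18 (by decide +kernel) ?_
    refine jn 23 (by decide +kernel) ?_
    refine jn 28 (by decide +kernel) ?_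
    refine jn 32 (by decide +kernel) ?_
    refine jn 41 (by decide +kernel) ?_
    refine jn 63 (by decide +kernel) ?_
    refine jn 70 (by decide +kernel) ?_
    refine jn 71 (by decide +kernel) ?_
    refine jn 72 (by decide +kernel) ?_
    refine jn 73 (by decide +kernel) ?_
    refine jn 77 (by decide +kernel) ?_
    refine jn 78 (by decide +kernel) ?_
    refine jn 79 (by decide +kernel) ?_
    refine jn 80 (by decide +kernel) ?_
    refine jn 81 (by decide +kernel) ?_
    refine jn 82 (by decide +kernel) ?_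
    refine jn 83 (by decide +kernel) ?_
    refine jn 96 (by decide +kernel) ?_
    refine jn 99 (by decide +kernel) ?_
    refine jn 112 (by decide +kernel) ?_
    refine jn 115 (by decide +kernel) ?_
    refine jn 127 (by decide +kernel) ?_
    refine jn 137 (by decide +kernel) ?_
    refine jn 145 (by decide +kernel) ?_
    refine jn 164 (by decide +kernel) ?_
    refine jn 175 (by decide +kernel) ?_
    refine jn 189 (by decide +kernel) ?_
    refine jn 205 (by decide +kernel) ?_
    refine jn 219 (by decide +kernel) ?_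
    refine jn 237 (by decide +kernel) ?_
    refine jn 321 (by decide +kernel) ?_
    refine jn 373 (by decide +kernel) ?_
    refine jn 409 (by decide +kernel) ?_
    refine jn 429 (by decide +kernel) ?_
    refine jn 493 (by decide +kernel) ?_
    refine jn 541 (by decide +kernel) ?_
    refine jn 644 (by decide +kernel) ?_
    refine jn 680 (by decide +kernel) ?_
    refine jn 716 (by decide +kernel) ?_
    refine jn 788 (by decide +kernel) ?_
    refine jn 1059 (by decide +kernel) ?_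
    refine jn 1557 (by decide +kernel) ?_
    refine jn 1889 (by decide +kernel) ?_
    refine jn 2614 (by decide +kernel) ?_
    exact je (by decide +kernel)

end Pool.Agent.MP_2339ce_nt.NR
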