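import Pool.Agent.MP_2339ce_nt.Q2.NC.L5
import Pool.Agent.MP_2339ce_nt.Q2.NC.L6
import Pool.Agent.MP_2339ce_nt.Q2.NC.L8
import Pool.Agent.MP_2339ce_nt.Q2.CkI

/-! Block NR: runs. -/

set_option autoImplicit false
set_option maxRecDepth 100000

noncomputable section

namespace Pool.Agent.MP_2339ce_nt.NR

open Q2.Top

def T76_0 : Ph :=
  (.na 1058 139 (.na 812 67 (.na 648 32 (.na 508 7 (.na 337 3 (.na 197 2 (.nx 196 1321124 (.nr 195
  311745 (.nx 3 114 (.nx 2 113 (.nr 1 11 (.lg 0 true 1 37 37 5 0 8136) (.l1 .sk)) (.l1 .sk)) (.nr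
  174 46342 (.nx 38 12041 (.lg 0 false 35 89 97 13 0 284760) (.nr 173 38969 (.nx 126 330282 (.nr 73
  432 (.lg 0 true 35 79 83 13 0 284760) (.nx 93 16385 (.lg 1 false 20 83 89 11 20724 81360) (.nr
  125 27556 (.nr 104 1219 (.lg 2 true 11 83 83 9 43197 89496) (.nx 124 208065 (.lg 2 false 20 101
  107 11 10782 81441360) .out)) .out))) (.nr 172 109 (.nx 146 660563 (.lg 0 true 20 79 79 11 0
  81360) (.nr 171 13 (.lg 0 true 25 67 67 9 0 40680) .out)) .out)) .out)) (.nx 194 205 (.lg 0 false
  20 79 79 11 0 81360) .out))) .out) .out) (.nx 336 3329023 (.nr 335 623489 (.nx 200 114 (.nx 199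
  113 (.nr 198 20 (.lg 0 true 1 37 37 5 0 81360) (.l1 .sk)) (.l1 .sk)) (.nr 320 77937 (.nr 312
  65537 (.nx 293 1321124 (.nx 221 14045 (.lg 0 false 21 89 97 11 0 569520) (.nr 256 257 (.lg 0 true
  35 79 83 13 0 569520) (.nx 292 165142 (.nr 263 1100 (.lg 2 true 7 79 79 9 36306 113904) (.nx 270
  20644 (.lg 1 false 7 97 97 9 29844 569520) (.nr 291 46342 (.lg 2 false 21 97 103 11 14368
  6264720) .out))) .out))) (.nr 311 9 (.lg 0 true 18 67 67 9 0 16272) .out)) (.nx 319 1292 (.lg 0
  false 7 79 79 9 0 569520) .out)) (.nx 334 205 (.lg 0 false 14 73 73 9 0 113904) .out))) .out)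
  .out)) (.na 465 4 (.nx 464 6658044 (.nr 463 881745 (.nx 340 114 (.nx 339 113 (.nr 338 29 (.lg 0
  true 1 31 31 5 0 40680) (.l1 .sk)) (.l1 .sk)) (.nx 436 1321124 (.nx 369 13003 (.nr 351 55110 (.lg
  0 false 11 89 97 16 0 447480) (.nx 368 1292 (.nx 362 205 (.lg 0 false 11 79 79 16 0 447480) (.nx
  363 406 .out (.nr 367 110219 (.lg 0 false 4 83 89 7 0 81360) .out))) .out)) (.nr 435 65537 (.nx
  423 416129 (.nr 380 364 (.lg 0 true 11 79 79 16 0 89496) (.nx 422 208065 (.nr 388 3220 (.nr 384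
  1557 (.lg 2 true 4 83 83 7 32296 16272) (.lg 2 true 4 79 79 7 7551 16272)) (.nx 399 28090 (.lg 1
  false 11 97 103 16 32236 40720680) (.nx 410 52017 (.lg 1 true 11 97 103 16 14922 40720680) (.nr
  421 38969 (.lg 2 false 11 83 97 16 4797 3132360) .out)))) .out)) (.nr 434 109 (.lg 0 true 11 79
  79 16 0 89496) .out)) .out)) (.nr 462 13 (.lg 0 true 26 79 79 7 0 211536) .out))) .out) .out)
  (.na 466 6 .ne (.nx 507 1321124 (.nr 506 220437 (.nx 468 113 (.nr 467 52 (.lg 0 true 1 23 23 7 0
  16272) (.l1 .sk)) (.nx 469 114 (.l1 .sk) (.nr 500 55110 (.nx 474 13267 (.lg 0 true 5 89 89 13 0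
  81360) (.nr 484 501 (.lg 0 true 10 83 83 13 0 81360) (.nx 499 416129 (.nx 489 27567 (.lg 1 false
  5 89 89 13 26577 81360) (.nr 494 1905 (.lg 2 true 5 79 79 13 46929 81360) (.lg 2 false 5 89 97 13
  12790 81360))) .out))) (.nx 505 1292 (.lg 0 false 5 83 83 13 0 81360) .out)))) .out) .out))))
  (.na 571 18 (.na 509 9 .ne (.na 570 10 (.nx 569 10568985 (.nr 568 623489 (.nx 523 13005 (.nx 511
  113 (.nr 510 75 (.lg 0 true 1 19 19 7 0 8136) (.l1 .sk)) (.nx 512 114 (.l1 .sk) (.nr 517 77937
  (.lg 0 false 5 83 83 16 0 40680) (.nx 522 814 (.lg 0 false 5 79 79 16 0 40680) .out)))) (.nr 567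
  65537 (.nr 554 364 (.nx 533 1321124 (.lg 0 true 10 73 73 16 0 81360) (.nr 553 65 (.lg 0 true 20
  73 73 16 0 81360) .out)) (.nx 566 165142 (.nr 555 709 (.lg 2 false 1 67 67 7 25634 8136) (.nx 560
  26009 (.lg 1 false 5 79 83 16 32231 40680) (.nr 565 55110 (.lg 2 false 5 83 89 16 13557 40680)
  .out))) .out)) .out)) .out) .out) .ne)) (.na 600 23 (.nx 599 1321124 (.nr 598 1048577 (.nr 572 15
  .s1 (.nx 575 114 (.nx 574 113 (.nr 573 173 (.lg 0 false 1 23 23 13 0 81360) (.l1 .sk)) (.l1 .sk))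
  (.nx 586 16385 (.nx 578 324 (.nx 576 205 (.l1 (.ls 79 41 1615)) (.nr 577 623489 (.l1 (.ls 79 43
  3500)) .out)) (.nr 585 220437 (.nr 583 131073 (.lg 0 false 5 83 89 19 0 81360) (.nx 584 814 (.lg
  0 true 1 73 73 13 0 81360) .out)) .out)) (.nr 597 46342 (.nr 593 498 (.lg 0 true 7 73 73 19 0
  113904) (.nx 596 165142 (.lg 2 false 3 89 89 13 18736 569520) .out)) .out)))) .out) .out) (.na
  626 26 (.nx 625 1321124 (.nr 624 1048577 (.nr 601 21 .s1 (.nx 604 114 (.nx 603 113 (.nr 602 196
  (.l1 (.ls 19 19 558)) (.l1 .sk)) (.l1 .sk)) (.nx 605 205 (.l1 (.ls 79 31 1265)) (.nr 623 185365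
  (.nx 612 16385 (.lg 0 false 7 83 89 16 0 284760) (.nr 622 38969 (.nr 619 513 (.lg 0 true 7 73 73
  16 0 56952) (.nx 621 82572 (.lg 2 true 2 83 83 13 15229 16272) .out)) .out)) .out)))) .out) .out)
  (.nx 647 1321124 (.nr 646 1048577 (.nr 627 24 .s1 (.nx 631 205 (.nx 629 113 (.nr 628 241 (.lg 0
  false 1 19 19 11 0 211536) (.l1 .sk)) (.nx 630 114 (.l1 .sk) (.l1 (.ls 73 37 1119)))) (.nr 645
  185365 (.nx 636 16385 (.lg 0 false 5 83 83 19 0 1057680) (.nr 644 38969 (.nr 641 513 (.lg 0 true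
  5 71 71 19 0 1057680) (.nx 643 82572 (.lg 2 true 2 79 79 11 15229 211536) .out)) .out)) .out)))
  .out) .out))))) (.na 733 47 (.na 682 41 (.na 649 38 .ne (.na 664 39 (.nx 663 1321124 (.nr 662
  370729 (.nr 650 37 .s1 (.nx 653 114 (.nx 652 113 (.nr 651 294 (.l1 (.ls 17 31 339)) (.l1 .sk))
  (.l1 .sk)) (.nx 656 13005 (.lg 0 false 3 89 89 13 0 81360) (.nr 661 23172 (.nr 659 294 (.lg 0
  true 3 67 67 13 0 16272) (.nx 660 82572 (.lg 2 true 1 79 79 13 15869 16272) .out)) .out)))) .out)
  .out) (.nx 681 1321124 (.nr 680 370729 (.nr 665 38 .s1 (.nx 668 114 (.nx 667 113 (.nr 666 309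
  (.l1 (.ls 23 29 330)) (.l1 .sk)) (.l1 .sk)) (.nx 673 13005 (.lg 0 false 5 83 89 23 0 528840) (.nr
  679 23172 (.nr 677 309 (.lg 0 true 4 67 71 19 0 211536) (.nx 678 82572 (.lg 2 true 1 79 79 17
  15099 105768) .out)) .out)))) .out) .out))) (.na 700 43 (.nx 699 1321124 (.nr 698 370729 (.nr 683
  40 .s1 (.nx 686 114 (.nx 685 113 (.nr 684 324 (.l1 (.ls 16 17 314)) (.l1 .sk)) (.l1 .sk)) (.nx
  691 13005 (.lg 0 false 5 79 79 16 0 40680) (.nr 697 23172 (.nr 695 324 (.lg 0 true 4 61 61 16 0
  16272) (.nx 696 82572 (.lg 2 true 1 73 73 16 14400 8136) .out)) .out)))) .out) .out) (.na 716 46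
  (.nx 715 1321124 (.nr 714 370729 (.nr 701 42 .s1 (.nx 703 113 (.nr 702 347 (.l1 (.ls 17 17 299))
  (.l1 .sk)) (.nx 704 114 (.l1 .sk) (.nx 708 13005 (.lg 0 false 4 89 89 16 0 81360) (.nr 713 23172
  (.nr 711 347 (.lg 0 true 3 61 61 16 0 8136) (.nx 712 82572 (.lg 2 true 1 73 73 16 13445 40680)
  .out)) .out))))) .out) .out) (.nx 732 1321124 (.nr 731 311745 (.nr 717 45 .s1 (.nx 725 10323 (.nx
  719 113 (.nr 718 354 (.l1 (.ls 17 29 280)) (.l1 .sk)) (.nx 720 114 (.l1 .sk) (.lg 0 false 5 83 83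
  19 0 81360))) (.nr 730 23172 (.nr 728 354 (.lg 0 true 3 67 67 13 0 16272) (.nx 729 82572 (.lg 2
  true 1 79 79 13 14402 16272) .out)) .out))) .out) .out)))) (.na 781 57 (.na 750 53 (.nx 749
  1321124 (.nr 748 311745 (.nr 734 46 .s1 (.nx 736 113 (.nr 735 400 (.l1 (.ls 17 17 274)) (.l1
  .sk)) (.nx 737 114 (.l1 .sk) (.nx 741 10323 (.lg 0 false 4 83 83 16 0 81360) (.nr 747 23172 (.nr
  745 400 (.lg 0 true 4 67 67 16 0 16272) (.nx 746 82572 (.lg 2 true 1 73 73 16 14402 40680) .out))
  .out))))) .out) .out) (.na 765 54 (.nx 764 1321124 (.nr 763 311745 (.nr 751 52 .s1 (.nx 754 114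
  (.nx 753 113 (.nr 752 407 (.l1 (.ls 17 17 243)) (.l1 .sk)) (.l1 .sk)) (.nx 757 10323 (.lg 0 false
  3 79 79 16 0 40680) (.nr 762 23172 (.nr 760 407 (.lg 0 true 3 61 61 16 0 8136) (.nx 761 82572
  (.lg 2 true 1 73 73 16 14402 8136) .out)) .out)))) .out) .out) (.nx 780 1321124 (.nr 779 311745
  (.nr 766 53 .s1 (.nx 774 10323 (.nx 768 113 (.nr 767 430 (.l1 (.ls 17 31 239)) (.l1 .sk)) (.nx
  769 114 (.l1 .sk) (.lg 0 false 5 73 73 23 0 81360))) (.nr 778 23172 (.nr 776 217 (.lg 0 true 2 59
  59 19 0 16272) (.nx 777 82572 (.lg 2 true 1 71 71 19 21500 16272) .out)) .out))) .out) .out)))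
  (.na 796 61 (.nx 795 1321124 (.nr 794 311745 (.nr 782 57 .s1 (.nr 787 13779 (.nx 783 912 (.l1
  (.ls 53 47 14594)) (.nx 784 82572 (.lg 0 false 1 79 79 16 0 8136) (.nr 786 217 (.lg 0 true 2 67
  67 17 0 16272) .out))) (.nx 789 114 (.nx 788 113 (.l1 .sk) (.l1 .sk)) (.nx 793 20644 (.nx 791
  8193 (.lg 0 false 2 89 89 17 0 81360) (.nr 792 46342 (.lg 0 true 1 73 73 16 0 40680) .out))
  .out)))) .out) .out) (.na 811 64 (.nx 810 1321124 (.nr 809 311745 (.nr 797 61 .s1 (.nx 800 114
  (.nx 799 113 (.nr 798 483 (.l1 (.ls 16 17 212)) (.l1 .sk)) (.l1 .sk)) (.nx 803 10323 (.lg 0 false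
  3 73 73 16 0 8136) (.nr 808 23172 (.nr 806 483 (.lg 0 true 3 59 59 16 0 8136) (.nx 807 82572 (.lg
  2 true 1 67 67 16 14402 8136) .out)) .out)))) .out) .out) .ne))))) (.na 958 107 (.na 897 86 (.na
  855 79 (.na 827 71 (.nx 826 1321124 (.nr 825 524289 (.nr 813 67 .s1 (.nx 819 8193 (.nx 815 113
  (.nr 814 535 (.l1 (.ls 17 17 193)) (.l1 .sk)) (.nx 816 114 (.l1 .sk) (.lg 0 false 3 79 79 16 0
  40680))) (.nr 824 8193 (.nr 822 535 (.lg 0 true 3 61 61 16 0 8136) (.nx 823 82572 (.lg 2 false 1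
  53 53 16 8721 8136) .out)) .out))) .out) .out) (.na 842 78 (.nx 841 1321124 (.nr 840 524289 (.nr
  828 71 .s1 (.nx 830 113 (.nr 829 588 (.l1 (.ls 16 17 182)) (.l1 .sk)) (.nx 831 114 (.l1 .sk) (.nx
  834 8193 (.lg 0 false 3 73 73 16 0 8136) (.nr 839 8193 (.nr 837 513 (.lg 0 true 3 59 59 16 0
  8136) (.nx 838 82572 (.lg 2 false 1 53 53 16 9095 8136) .out)) .out))))) .out) .out) (.nx 854
  1321124 (.nr 853 524289 (.nr 843 78 .s1 (.nx 845 113 (.nr 844 596 (.l1 (.ls 29 31 166)) (.l1
  .sk)) (.nx 846 114 (.l1 .sk) (.nx 848 8193 (.lg 0 false 2 83 89 31 0 1057680) (.nr 852 8193 (.nr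
  850 513 (.lg 0 true 2 71 71 31 0 211536) (.nx 851 82572 (.lg 2 true 1 67 67 29 9095 211536)
  .out)) .out))))) .out) .out))) (.na 870 81 (.nx 869 1321124 (.nr 868 524289 (.nr 856 79 .s1 (.nx
  859 114 (.nx 858 113 (.nr 857 611 (.l1 (.ls 16 17 164)) (.l1 .sk)) (.l1 .sk)) (.nx 862 8193 (.lg
  0 false 3 71 71 16 0 8136) (.nr 867 8193 (.nr 865 611 (.lg 0 true 3 59 59 16 0 8136) (.nx 866
  82572 (.lg 2 false 1 47 47 16 7636 8136) .out)) .out)))) .out) .out) (.na 883 82 (.nx 882 1321124
  (.nr 881 524289 (.nr 871 81 .s1 (.nx 876 8193 (.nx 873 113 (.nr 872 618 (.l1 (.ls 16 19 160))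
  (.l1 .sk)) (.nx 874 114 (.l1 .sk) (.lg 0 false 2 73 73 17 0 16272))) (.nr 880 8193 (.nr 878 513
  (.lg 0 true 2 59 59 17 0 16272) (.nx 879 82572 (.lg 2 false 1 53 53 16 9095 8136) .out)) .out)))
  .out) .out) (.nx 896 1321124 (.nr 895 524289 (.nr 884 82 .s1 (.nx 887 114 (.nx 886 113 (.nr 885
  648 (.l1 (.ls 17 23 158)) (.l1 .sk)) (.l1 .sk)) (.nx 890 8193 (.lg 0 false 3 79 79 19 0 81360)
  (.nr 894 8193 (.nr 892 513 (.lg 0 true 2 61 61 19 0 16272) (.nx 893 82572 (.lg 2 false 1 59 59 13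
  9095 16272) .out)) .out)))) .out) .out)))) (.na 924 97 (.na 911 91 (.nx 910 1321124 (.nr 909
  524289 (.nr 898 86 .s1 (.nx 900 113 (.nr 899 686 (.l1 (.ls 16 23 151)) (.l1 .sk)) (.nx 901 114
  (.l1 .sk) (.nx 904 8193 (.lg 0 false 3 73 73 19 0 16272) (.nr 908 8193 (.nr 906 513 (.lg 0 true 2
  61 61 19 0 16272) (.nx 907 82572 (.lg 2 true 1 59 59 13 9095 16272) .out)) .out))))) .out) .out)
  (.na 912 94 .ne (.nx 923 1321124 (.nr 922 524289 (.nr 913 94 .s1 (.nx 916 114 (.nx 915 113 (.nr
  914 731 (.l1 (.ls 16 23 138)) (.l1 .sk)) (.l1 .sk)) (.nx 917 8193 (.lg 0 true 1 83 83 17 0 16272)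
  (.nr 921 8193 (.nr 919 513 (.lg 0 true 2 61 61 19 0 16272) (.nx 920 82572 (.lg 2 false 1 59 59 17
  9095 16272) .out)) .out)))) .out) .out))) (.na 935 103 (.nx 934 1321124 (.nr 933 524289 (.nr 925
  97 .s1 (.nx 928 114 (.nx 927 113 (.nr 926 776 (.l1 (.ls 17 16 134)) (.l1 .sk)) (.l1 .sk)) (.nx
  929 8193 (.lg 0 true 1 79 79 16 0 40680) (.nr 932 8193 (.nr 930 513 (.lg 0 false 1 67 67 16 0
  40680) (.nx 931 82572 (.lg 2 true 1 53 53 16 9095 40680) .out)) .out)))) .out) .out) (.na 946 106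
  (.nx 945 1321124 (.nr 944 524289 (.nr 936 103 .s1 (.nx 938 113 (.nr 937 799 (.l1 (.ls 16 16 126))
  (.l1 .sk)) (.nx 939 114 (.l1 .sk) (.nx 940 8193 (.lg 0 true 1 73 73 16 0 40680) (.nr 943 8193
  (.nr 941 513 (.lg 0 false 1 61 61 16 0 40680) (.nx 942 82572 (.lg 2 false 1 47 47 16 9095 8136)
  .out)) .out))))) .out) .out) (.nx 957 1321124 (.nr 956 524289 (.nr 947 106 .s1 (.nx 950 114 (.nx
  949 113 (.nr 948 806 (.l1 (.ls 16 23 123)) (.l1 .sk)) (.l1 .sk)) (.nx 951 8193 (.lg 0 true 1 79
  79 19 0 16272) (.nr 955 8193 (.nr 953 513 (.lg 0 true 2 59 59 19 0 16272) (.nx 954 82572 (.lg 2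
  true 1 53 53 19 9095 16272) .out)) .out)))) .out) .out))))) (.na 1027 128 (.na 994 117 (.na 969
  113 (.nx 968 1321124 (.nr 967 524289 (.nr 959 107 .s1 (.nx 963 8193 (.nx 961 113 (.nr 960 852
  (.l1 (.ls 16 16 122)) (.l1 .sk)) (.nx 962 114 (.l1 .sk) (.lg 0 true 1 73 73 16 0 40680))) (.nr
  966 8193 (.nr 964 513 (.lg 0 false 1 61 61 16 0 40680) (.nx 965 82572 (.lg 2 false 1 43 43 16
  9095 8136) .out)) .out))) .out) .out) (.na 983 114 (.nx 982 1321124 (.nr 981 524289 (.nr 970 113
  .s1 (.nx 972 113 (.nr 971 859 (.l1 (.ls 16 16 115)) (.l1 .sk)) (.nx 973 114 (.l1 .sk) (.nr 977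
  8193 (.lg 0 true 4 67 67 16 0 16272) (.nx 980 8193 (.lg 0 true 3 61 61 16 0 8136) .out))))) .out)
  .out) (.nx 993 1321124 (.nr 992 524289 (.nr 984 114 .s1 (.nx 987 114 (.nx 986 113 (.nr 985 882
  (.l1 (.ls 17 31 115)) (.l1 .sk)) (.l1 .sk)) (.nx 988 8193 (.lg 0 false 1 79 79 31 0 16272) (.nr
  991 8193 (.nx 989 82572 (.lg 0 true 1 71 71 31 0 16272) (.nr 990 513 (.lg 0 true 1 61 61 31 0
  16272) .out)) .out)))) .out) .out))) (.na 1005 118 (.nx 1004 1321124 (.nr 1003 524289 (.nr 995
  117 .s1 (.nx 997 113 (.nr 996 889 (.l1 (.ls 19 23 112)) (.l1 .sk)) (.nx 998 114 (.l1 .sk) (.nx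
  999 8193 (.lg 0 false 1 73 73 19 0 105768) (.nr 1002 8193 (.nr 1000 513 (.lg 0 true 1 61 61 19 0
  105768) (.nx 1001 82572 (.lg 2 true 1 53 53 19 9095 105768) .out)) .out))))) .out) .out) (.na
  1016 122 (.nx 1015 1321124 (.nr 1014 524289 (.nr 1006 118 .s1 (.nx 1010 8193 (.nx 1008 113 (.nr
  1007 920 (.l1 (.ls 17 19 111)) (.l1 .sk)) (.nx 1009 114 (.l1 .sk) (.lg 0 true 1 83 83 19 0
  81360))) (.nr 1013 8193 (.nr 1011 513 (.lg 2 false 1 61 61 19 632573 16272) (.nx 1012 82572 (.lg
  2 true 1 47 47 19 9095 16272) .out)) .out))) .out) .out) (.nx 1026 1321124 (.nr 1025 524289 (.nr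
  1017 122 .s1 (.nx 1019 113 (.nr 1018 965 (.l1 (.ls 19 19 107)) (.l1 .sk)) (.nx 1020 114 (.l1 .sk)
  (.nx 1021 8193 (.lg 0 true 1 83 83 19 0 81360) (.nr 1024 8193 (.nr 1022 513 (.lg 2 false 1 67 67
  19 611833 16272) (.nx 1023 82572 (.lg 2 false 1 53 53 19 9095 16272) .out)) .out))))) .out)
  .out)))) (.na 1039 134 (.na 1028 129 .ne (.na 1038 131 (.nx 1037 660563 (.nr 1036 1048577 (.nr
  1029 129 .s1 (.nx 1032 6503 (.nx 1030 205 (.l1 (.ls 71 23 328)) (.nr 1031 524289 (.lg 0 false 1
  73 73 19 0 8136) .out)) (.nr 1035 8193 (.nr 1033 1025 (.lg 0 true 1 61 61 19 0 8136) (.nx 1034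
  82572 (.lg 2 false 1 53 53 19 8156 8136) .out)) .out))) .out) .out) (.lg 0 false 1 0 0 16 0 24)))
  (.na 1047 137 (.nx 1046 660563 (.nr 1045 1048577 (.nr 1040 134 .s1 (.nx 1041 205 (.l1 (.ls 61 29
  316)) (.nr 1044 524289 (.nr 1042 8193 (.lg 0 false 1 79 79 19 0 16272) (.nx 1043 6503 (.lg 0 true
  1 73 73 19 0 16272) .out)) .out))) .out) .out) (.na 1048 138 (.lg 0 false 1 0 0 16 0 24) (.nx
  1057 660563 (.nr 1056 1048577 (.nr 1049 138 .s1 (.nx 1052 6503 (.nx 1050 205 (.l1 (.ls 73 37
  307)) (.nr 1051 524289 (.lg 0 false 1 79 79 31 0 16272) .out)) (.nr 1055 8193 (.nr 1053 1025 (.lg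
  0 true 1 67 67 31 0 16272) (.nx 1054 82572 (.lg 2 false 1 59 59 31 8156 16272) .out)) .out)))
  .out) .out))))))) (.na 1222 218 (.na 1140 177 (.na 1099 159 (.na 1075 151 (.na 1059 142 (.lg 0
  false 1 0 0 16 0 24) (.na 1067 149 (.nx 1066 660563 (.nr 1065 1048577 (.nr 1060 142 .s1 (.nx 1061
  205 (.l1 (.ls 67 29 298)) (.nr 1064 524289 (.nr 1062 8193 (.lg 0 false 1 79 79 19 0 16272) (.nx
  1063 6503 (.lg 0 true 1 79 79 19 0 81360) .out)) .out))) .out) .out) (.nx 1074 660563 (.nr 1073
  1048577 (.nr 1068 149 .s1 (.nx 1069 205 (.l1 (.ls 59 19 285)) (.nr 1072 524289 (.nr 1070 8193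
  (.lg 0 false 1 71 71 16 0 105768) (.nx 1071 6503 (.lg 0 true 1 67 67 16 0 8136) .out)) .out)))
  .out) .out))) (.na 1083 157 (.nx 1082 660563 (.nr 1081 1048577 (.nr 1076 151 .s1 (.nx 1077 205
  (.l1 (.ls 59 17 281)) (.nr 1080 524289 (.nx 1078 6503 (.lg 0 true 1 71 71 16 0 8136) (.nr 1079
  8193 (.lg 0 false 1 71 71 16 0 8136) .out)) .out))) .out) .out) (.na 1091 158 (.nx 1090 660563
  (.nr 1089 1048577 (.nr 1084 157 .s1 (.nx 1085 205 (.l1 (.ls 61 17 270)) (.nr 1088 524289 (.nr
  1086 8193 (.lg 0 false 1 71 71 16 0 8136) (.nx 1087 6503 (.lg 0 true 1 71 71 16 0 40680) .out))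
  .out))) .out) .out) (.nx 1098 660563 (.nr 1097 1048577 (.nr 1092 158 .s1 (.nx 1093 205 (.l1 (.ls
  67 29 268)) (.nr 1096 524289 (.nr 1094 8193 (.lg 0 false 1 79 79 19 0 81360) (.nx 1095 6503 (.lg
  0 true 1 71 71 19 0 16272) .out)) .out))) .out) .out)))) (.na 1116 167 (.na 1107 162 (.nx 1106
  660563 (.nr 1105 1048577 (.nr 1100 159 .s1 (.nx 1101 205 (.l1 (.ls 67 23 267)) (.nr 1104 524289
  (.nr 1102 8193 (.lg 0 true 1 73 73 19 0 8136) (.nx 1103 6503 (.lg 0 false 1 71 71 19 0 8136)
  .out)) .out))) .out) .out) (.na 1115 163 (.nx 1114 660563 (.nr 1113 1048577 (.nr 1108 162 .s1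
  (.nx 1109 205 (.l1 (.ls 67 31 262)) (.nr 1112 524289 (.nr 1110 8193 (.lg 0 false 1 73 73 23 0
  81360) (.nx 1111 6503 (.lg 0 true 1 71 71 23 0 16272) .out)) .out))) .out) .out) (.lg 0 false 1 0
  0 16 0 24))) (.na 1124 169 (.nx 1123 660563 (.nr 1122 1048577 (.nr 1117 167 .s1 (.nx 1118 205
  (.l1 (.ls 61 17 254)) (.nr 1121 524289 (.nr 1119 8193 (.lg 0 false 1 71 71 16 0 8136) (.nx 1120
  6503 (.lg 0 true 1 71 71 16 0 40680) .out)) .out))) .out) .out) (.na 1132 171 (.nx 1131 660563
  (.nr 1130 1048577 (.nr 1125 169 .s1 (.nx 1126 205 (.l1 (.ls 61 19 251)) (.nr 1129 524289 (.nr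
  1127 8193 (.lg 0 false 1 71 71 17 0 105768) (.nx 1128 6503 (.lg 0 true 1 71 71 17 0 105768)
  .out)) .out))) .out) .out) (.nx 1139 660563 (.nr 1138 1048577 (.nr 1133 171 .s1 (.nx 1134 205
  (.l1 (.ls 67 29 248)) (.nr 1137 524289 (.nr 1135 8193 (.lg 0 true 1 73 73 17 0 8136) (.nx 1136
  6503 (.lg 0 false 1 71 71 17 0 8136) .out)) .out))) .out) .out))))) (.na 1174 199 (.na 1157 191
  (.na 1148 181 (.nx 1147 660563 (.nr 1146 1048577 (.nr 1141 177 .s1 (.nx 1142 205 (.l1 (.ls 53 23
  240)) (.nr 1145 524289 (.nr 1143 8193 (.lg 0 true 1 79 79 19 0 8136) (.nx 1144 6503 (.lg 0 false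
  1 73 73 19 0 8136) .out)) .out))) .out) .out) (.na 1149 183 (.lg 0 false 1 0 0 16 0 24) (.nx 1156
  660563 (.nr 1155 1048577 (.nr 1150 183 .s1 (.nx 1151 205 (.l1 (.ls 59 23 232)) (.nr 1154 524289
  (.nr 1152 8193 (.lg 0 true 1 73 73 19 0 8136) (.nx 1153 6503 (.lg 0 false 1 73 73 19 0 8136)
  .out)) .out))) .out) .out))) (.na 1165 193 (.nx 1164 660563 (.nr 1163 1048577 (.nr 1158 191 .s1
  (.nx 1159 205 (.l1 (.ls 53 17 223)) (.nr 1162 524289 (.nr 1160 8193 (.lg 0 false 1 67 67 16 0
  8136) (.nx 1161 6503 (.lg 0 true 1 61 61 16 0 8136) .out)) .out))) .out) .out) (.na 1166 194 (.lg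
  0 false 1 0 0 16 0 24) (.nx 1173 660563 (.nr 1172 1048577 (.nr 1167 194 .s1 (.nx 1168 205 (.l1
  (.ls 59 23 219)) (.nr 1171 524289 (.nr 1169 8193 (.lg 0 false 1 71 71 19 0 16272) (.nx 1170 6503
  (.lg 0 true 1 67 67 19 0 16272) .out)) .out))) .out) .out)))) (.na 1198 207 (.na 1182 201 (.nx
  1181 660563 (.nr 1180 1048577 (.nr 1175 199 .s1 (.nx 1176 205 (.l1 (.ls 59 17 214)) (.nr 1179
  524289 (.nr 1177 8193 (.lg 0 false 1 71 71 16 0 8136) (.nx 1178 6503 (.lg 0 true 1 67 67 16 0
  8136) .out)) .out))) .out) .out) (.na 1190 206 (.nx 1189 660563 (.nr 1188 1048577 (.nr 1183 201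
  .s1 (.nx 1184 205 (.l1 (.ls 61 23 212)) (.nr 1187 524289 (.nr 1185 8193 (.lg 0 true 1 71 71 19 0
  8136) (.nx 1186 6503 (.lg 0 false 1 71 71 19 0 8136) .out)) .out))) .out) .out) (.nx 1197 660563
  (.nr 1196 1048577 (.nr 1191 206 .s1 (.nx 1192 205 (.l1 (.ls 59 23 207)) (.nr 1195 524289 (.nr
  1193 8193 (.lg 0 false 1 71 71 23 0 16272) (.nx 1194 6503 (.lg 0 true 1 67 67 23 0 16272) .out))
  .out))) .out) .out))) (.na 1206 213 (.nx 1205 660563 (.nr 1204 1048577 (.nr 1199 207 .s1 (.nx
  1200 205 (.l1 (.ls 71 19 206)) (.nr 1203 524289 (.nr 1201 8193 (.lg 0 true 1 73 73 19 0 8136)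
  (.nx 1202 6503 (.lg 0 false 1 73 73 19 0 8136) .out)) .out))) .out) .out) (.na 1214 214 (.nx 1213
  660563 (.nr 1212 1048577 (.nr 1207 213 .s1 (.nx 1208 205 (.l1 (.ls 67 19 200)) (.nr 1211 524289
  (.nr 1209 8193 (.lg 0 true 1 73 73 19 0 8136) (.nx 1210 6503 (.lg 0 false 1 71 71 19 0 8136)
  .out)) .out))) .out) .out) (.nx 1221 660563 (.nr 1220 1048577 (.nr 1215 214 .s1 (.nx 1216 205
  (.l1 (.ls 59 23 199)) (.nr 1219 524289 (.nr 1217 8193 (.lg 0 false 1 71 71 23 0 16272) (.nx 1218
  6503 (.lg 0 true 1 67 67 23 0 16272) .out)) .out))) .out) .out)))))) (.na 1805 512 (.na 1265 239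
  (.na 1248 227 (.na 1230 223 (.nx 1229 660563 (.nr 1228 1048577 (.nr 1223 218 .s1 (.nx 1224 205
  (.l1 (.ls 61 23 195)) (.nr 1227 524289 (.nr 1225 8193 (.lg 0 false 1 71 71 23 0 81360) (.nx 1226
  6503 (.lg 0 true 1 67 67 23 0 16272) .out)) .out))) .out) .out) (.na 1238 226 (.nx 1237 660563
  (.nr 1236 1048577 (.nr 1231 223 .s1 (.nx 1232 205 (.l1 (.ls 61 17 191)) (.nr 1235 524289 (.nr
  1233 8193 (.lg 0 false 1 67 67 16 0 8136) (.nx 1234 6503 (.lg 0 true 1 67 67 16 0 40680) .out))
  .out))) .out) .out) (.nx 1247 660563 (.nr 1246 1048577 (.nr 1239 226 .s1 (.nx 1243 6503 (.nx 1240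
  205 (.l1 (.ls 53 23 188)) (.nr 1242 524289 (.lg 0 true 2 53 53 23 0 16272) .out)) (.nr 1245 8193
  (.lg 0 false 2 59 59 23 0 16272) .out))) .out) .out))) (.na 1249 233 (.lg 0 false 1 0 0 16 0 24)
  (.na 1257 234 (.nx 1256 660563 (.nr 1255 1048577 (.nr 1250 233 .s1 (.nx 1251 205 (.l1 (.ls 59 17
  183)) (.nr 1254 524289 (.nr 1252 8193 (.lg 0 false 1 67 67 17 0 8136) (.nx 1253 6503 (.lg 0 true
  1 67 67 17 0 40680) .out)) .out))) .out) .out) (.nx 1264 660563 (.nr 1263 1048577 (.nr 1258 234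
  .s1 (.nx 1259 205 (.l1 (.ls 67 37 182)) (.nr 1262 524289 (.nr 1260 8193 (.lg 0 true 1 73 73 37 0
  211536) (.nx 1261 6503 (.lg 0 false 1 71 71 37 0 211536) .out)) .out))) .out) .out)))) (.na 1282
  247 (.na 1266 241 (.lg 0 false 1 0 0 16 0 24) (.na 1274 246 (.nx 1273 660563 (.nr 1272 1048577
  (.nr 1267 241 .s1 (.nx 1268 205 (.l1 (.ls 59 17 177)) (.nr 1271 524289 (.nr 1269 8193 (.lg 0
  false 1 67 67 17 0 8136) (.nx 1270 6503 (.lg 0 true 1 61 61 17 0 8136) .out)) .out))) .out) .out)
  (.nx 1281 660563 (.nr 1280 1048577 (.nr 1275 246 .s1 (.nx 1276 205 (.l1 (.ls 67 31 173)) (.nr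
  1279 524289 (.nr 1277 8193 (.lg 0 true 1 71 71 31 0 16272) (.nx 1278 6503 (.lg 0 false 1 71 71 31
  0 16272) .out)) .out))) .out) .out))) (.na 1290 256 (.nx 1289 660563 (.nr 1288 1048577 (.nr 1283
  247 .s1 (.nx 1284 205 (.l1 (.ls 71 17 173)) (.nr 1287 524289 (.nr 1285 8193 (.lg 0 true 1 73 73
  17 0 105768) (.nx 1286 6503 (.lg 0 false 1 73 73 17 0 105768) .out)) .out))) .out) .out) (.na
  1291 257 .ne (.nx 1804 82572 (.nr 1803 1048577 (.nr 1292 257 .s1 (.nx 1547 647 (.la (.ls 67 31
  1631)) (.nr 1802 262145 (.la (.lg 0 true 1 71 71 23 0)) .out))) .out) .out))))) (.na 5297 4096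
  (.na 2965 1449 (.na 2235 725 (.nx 2234 82572 (.nr 2233 1048577 (.nr 1806 512 .s1 (.nx 2019 647
  (.la (.ls 61 29 820)) (.nr 2232 262145 (.la (.lg 0 true 1 67 67 29 0)) .out))) .out) .out) (.na
  2537 1024 (.nx 2536 3252 (.nr 2535 262145 (.nr 2236 725 .s1 (.la (.ls 47 43 14589))) .out) .out)
  (.nx 2964 3252 (.nr 2963 262145 (.nr 2538 1024 .s1 (.la (.ls 47 41 10330))) .out) .out))) (.na
  3681 2048 (.nx 3680 1627 (.nr 3679 131073 (.nr 2966 1449 .s1 (.nx 3079 113 (.nr 3078 15429 (.lx
  (.lp 23 23 513)) (.l1 .sk)) (.nx 3080 114 (.l1 .sk) (.la (.ls 41 31 1820))))) .out) .out) (.na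
  4647 2897 (.nx 4646 1627 (.nr 4645 131073 (.nr 3682 2048 .s1 (.nx 3795 113 (.nr 3794 21825 (.lx
  (.lp 29 29 725)) (.l1 .sk)) (.nx 3796 114 (.l1 .sk) (.la (.ls 41 31 1289))))) .out) .out) (.nx
  5296 647 (.nr 5295 65537 (.nr 4648 2897 .s1 (.nx 4810 163 (.lx (.lp 37 29 1025)) (.nr 5294 32769
  (.lx (.lp 29 31 1025)) .out))) .out) .out)))) (.na 7246 32768 (.na 5947 8192 (.nx 5946 647 (.nr
  5945 65537 (.nr 5298 4096 .s1 (.nx 5460 163 (.lx (.lp 23 31 2049)) (.nr 5944 32769 (.lx (.lp 23
  37 2049)) .out))) .out) .out) (.na 6596 16384 (.nx 6595 647 (.nr 6594 65537 (.nr 5948 8192 .s1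
  (.lx (.lp 23 41 4097))) .out) .out) (.nx 7245 647 (.nr 7244 131073 (.nr 6597 16384 .s1 (.nx 6759
  163 (.lx (.lp 16 0 8193)) (.nr 7243 65537 (.lx (.lp 19 43 8193)) .out))) .out) .out))) (.na 7572
  65536 (.nx 7571 324 (.nr 7570 131073 (.nr 7247 32768 .s1 (.lx (.lp 16 43 16385))) .out) .out)
  (.na 7898 131073 (.nx 7897 324 (.nr 7896 262145 (.nr 7573 65536 .s1 (.lx (.lp 16 47 32769)))
  .out) .out) .out)))))))

def T76_1 : Ph :=
  (.na 222 229 (.na 111 193 (.na 61 178 (.na 30 172 (.na 19 167 (.na 10 166 (.nx 9 832257 (.nr 8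
  1048577 (.nr 1 165 .s1 (.nx 4 13005 (.nx 2 257 (.l1 (.ls 73 31 403)) (.nr 3 741457 (.lg 0 true 1
  83 83 29 0 51480) .out)) (.nr 7 16385 (.nr 5 1025 (.lg 0 true 1 67 67 29 0 51480) (.nx 6 104033
  (.lg 2 true 1 67 67 29 15478 51480) .out)) .out))) .out) .out) (.nx 18 832257 (.nr 17 1048577
  (.nr 11 166 .s1 (.nx 12 257 (.l1 (.ls 79 29 400)) (.nr 16 741457 (.nr 14 16385 (.lg 0 true 2 73
  73 23 0 624) (.nx 15 13005 (.lg 0 true 1 83 83 19 0 624) .out)) .out))) .out) .out)) (.na 29 169
  (.nx 28 832257 (.nr 27 1048577 (.nr 20 167 .s1 (.nx 23 13005 (.nx 21 257 (.l1 (.ls 61 19 398))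
  (.nr 22 741457 (.lg 0 true 1 73 73 16 0 312) .out)) (.nr 26 16385 (.nr 24 1025 (.lg 0 false 1 61
  61 16 0 4680) (.nx 25 104033 (.lg 2 false 1 53 53 16 15478 312) .out)) .out))) .out) .out) (.lg 0
  false 1 0 0 16 0 24))) (.na 41 176 (.na 40 173 (.nx 39 832257 (.nr 38 1048577 (.nr 31 172 .s1
  (.nx 34 13005 (.nx 32 257 (.l1 (.ls 79 29 387)) (.nr 33 741457 (.lg 0 false 1 83 83 23 0 624)
  .out)) (.nr 37 16385 (.nr 35 1025 (.lg 0 true 1 67 67 23 0 624) (.nx 36 104033 (.lg 2 true 1 67
  67 23 15478 624) .out)) .out))) .out) .out) (.lg 0 false 1 0 0 16 0 24)) (.na 51 177 (.nx 50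
  832257 (.nr 49 1048577 (.nr 42 176 .s1 (.nx 47 104033 (.nx 43 257 (.l1 (.ls 79 31 378)) (.nr 46
  741457 (.nx 44 13005 (.lg 0 false 1 97 97 31 0 102960) (.nr 45 16385 (.lg 0 true 1 79 83 31 0
  102960) .out)) .out)) (.nr 48 1025 (.lg 0 true 1 71 71 31 0 6864) .out))) .out) .out) (.nx 60
  832257 (.nr 59 1048577 (.nr 52 177 .s1 (.nx 55 13005 (.nx 53 257 (.l1 (.ls 53 23 376)) (.nr 54
  741457 (.lg 0 true 1 83 83 17 0 4680) .out)) (.nr 58 16385 (.nr 56 1025 (.lg 0 false 1 67 67 17 0
  4680) (.nx 57 104033 (.lg 2 false 1 59 59 17 15478 936) .out)) .out))) .out) .out)))) (.na 79 182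
  (.na 70 180 (.na 69 179 (.nx 68 832257 (.nr 67 1048577 (.nr 62 178 .s1 (.nx 63 257 (.l1 (.ls 67
  29 374)) (.nr 66 741457 (.nr 64 16385 (.lg 0 false 1 79 79 19 0 624) (.nx 65 13005 (.lg 0 true 1
  79 79 19 0 624) .out)) .out))) .out) .out) (.lg 0 false 1 0 0 16 0 24)) (.na 71 181 (.lg 0 false
  1 0 0 16 0 24) (.nx 78 832257 (.nr 77 1048577 (.nr 72 181 .s1 (.nx 73 257 (.l1 (.ls 67 19 367))
  (.nr 76 741457 (.nr 74 16385 (.lg 0 false 1 79 79 16 0 4680) (.nx 75 13005 (.lg 0 true 1 73 73 16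
  0 312) .out)) .out))) .out) .out))) (.na 90 188 (.na 80 183 .ne (.nx 89 832257 (.nr 88 1048577
  (.nr 81 183 .s1 (.nx 84 13005 (.nx 82 257 (.l1 (.ls 59 23 363)) (.nr 83 741457 (.lg 0 true 1 83
  83 17 0 51480) .out)) (.nr 87 16385 (.nr 85 1025 (.lg 0 false 1 67 67 17 0 936) (.nx 86 104033
  (.lg 2 false 1 53 53 17 15478 936) .out)) .out))) .out) .out)) (.na 100 191 (.nx 99 832257 (.nr
  98 1048577 (.nr 91 188 .s1 (.nx 92 257 (.l1 (.ls 73 29 354)) (.nr 97 741457 (.nx 93 13005 (.lg 0
  false 1 83 83 23 0 624) (.nr 96 16385 (.nr 94 1025 (.lg 0 true 1 67 67 23 0 624) (.nx 95 104033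
  (.lg 2 false 1 61 61 23 15478 624) .out)) .out)) .out))) .out) .out) (.na 101 192 (.lg 0 false 1
  0 0 16 0 24) (.nx 110 832257 (.nr 109 1048577 (.nr 102 192 .s1 (.nx 103 257 (.l1 (.ls 79 31 347))
  (.nr 108 741457 (.nx 106 104033 (.nx 104 13005 (.lg 0 false 1 89 89 31 0 9360) (.nr 105 16385
  (.lg 0 true 1 79 79 31 0 9360) .out)) (.nr 107 1025 (.lg 0 true 1 71 71 31 0 1872) .out)) .out)))
  .out) .out)))))) (.na 165 208 (.na 129 199 (.na 120 197 (.na 112 195 (.lg 0 false 1 0 0 16 0 24)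
  (.nx 119 832257 (.nr 118 1048577 (.nr 113 195 .s1 (.nx 114 257 (.l1 (.ls 61 31 341)) (.nr 117
  741457 (.nr 115 16385 (.lg 0 false 1 79 79 23 0 4680) (.nx 116 13005 (.lg 0 true 1 73 73 23 0
  4680) .out)) .out))) .out) .out)) (.na 128 198 (.nx 127 832257 (.nr 126 1048577 (.nr 121 197 .s1
  (.nx 122 257 (.l1 (.ls 61 19 338)) (.nr 125 741457 (.nr 123 16385 (.lg 0 false 1 73 73 16 0 312)
  (.nx 124 13005 (.lg 0 true 1 73 73 16 0 4680) .out)) .out))) .out) .out) (.lg 0 false 1 0 0 16 0
  24))) (.na 147 205 (.na 137 200 (.nx 136 832257 (.nr 135 1048577 (.nr 130 199 .s1 (.nx 131 257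
  (.l1 (.ls 73 19 334)) (.nr 134 741457 (.nx 132 13005 (.lg 0 true 1 73 73 16 0 312) (.nr 133 16385
  (.lg 0 false 1 73 73 16 0 312) .out)) .out))) .out) .out) (.nx 146 832257 (.nr 145 1048577 (.nr
  138 200 .s1 (.nx 141 13005 (.nx 139 257 (.l1 (.ls 71 31 333)) (.nr 140 741457 (.lg 0 false 1 79
  79 29 0 3120) .out)) (.nr 144 16385 (.nr 142 1025 (.lg 0 true 1 61 61 29 0 3120) (.nx 143 104033
  (.lg 2 false 1 61 61 29 15478 3120) .out)) .out))) .out) .out)) (.na 157 206 (.nx 156 832257 (.nr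
  155 1048577 (.nr 148 205 .s1 (.nx 151 13005 (.nx 149 257 (.l1 (.ls 73 23 325)) (.nr 150 741457
  (.lg 0 false 1 83 83 19 0 1560) .out)) (.nr 154 16385 (.nr 152 1025 (.lg 0 true 1 67 67 19 0
  1560) (.nx 153 104033 (.lg 2 false 1 61 61 19 15478 1560) .out)) .out))) .out) .out) (.nx 164
  832257 (.nr 163 1048577 (.nr 158 206 .s1 (.nx 161 13005 (.nx 159 257 (.l1 (.ls 67 29 323)) (.nr
  160 741457 (.lg 0 true 1 79 79 23 0 9360) .out)) (.nr 162 16385 (.lg 0 false 1 79 79 23 0 624)
  .out))) .out) .out)))) (.na 201 216 (.na 183 213 (.na 175 211 (.nx 174 832257 (.nr 173 1048577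
  (.nr 166 208 .s1 (.nx 169 13005 (.nx 167 257 (.l1 (.ls 71 31 320)) (.nr 168 741457 (.lg 0 false 1
  79 79 29 0 624) .out)) (.nr 172 16385 (.nr 170 1025 (.lg 0 true 1 61 61 29 0 624) (.nx 171 104033
  (.lg 2 false 1 59 59 29 15478 624) .out)) .out))) .out) .out) (.nx 182 832257 (.nr 181 1048577
  (.nr 176 211 .s1 (.nx 177 257 (.l1 (.ls 61 19 316)) (.nr 180 741457 (.nr 178 16385 (.lg 0 false 1
  73 73 16 0 312) (.nx 179 13005 (.lg 0 true 1 73 73 16 0 4680) .out)) .out))) .out) .out)) (.na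
  191 215 (.nx 190 832257 (.nr 189 1048577 (.nr 184 213 .s1 (.nx 185 257 (.l1 (.ls 61 23 313)) (.nr
  188 741457 (.nx 186 13005 (.lg 0 true 1 79 79 19 0 936) (.nr 187 16385 (.lg 0 false 1 83 83 19 0
  936) .out)) .out))) .out) .out) (.nx 200 832257 (.nr 199 1048577 (.nr 192 215 .s1 (.nx 193 257
  (.l1 (.ls 73 23 310)) (.nr 198 741457 (.nx 194 13005 (.lg 0 false 1 83 83 19 0 1560) (.nr 197
  16385 (.nr 195 1025 (.lg 0 true 1 67 67 19 0 1560) (.nx 196 104033 (.lg 2 true 1 61 61 19 15478
  1560) .out)) .out)) .out))) .out) .out))) (.na 212 223 (.na 202 220 (.lg 0 false 1 0 0 16 0 24)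
  (.nx 211 832257 (.nr 210 1048577 (.nr 203 220 .s1 (.nx 206 13005 (.nx 204 257 (.l1 (.ls 79 37
  303)) (.nr 205 741457 (.lg 0 false 1 89 89 37 0 34320) .out)) (.nr 209 16385 (.nx 207 104033 (.lg
  0 true 1 79 79 37 0 34320) (.nr 208 1025 (.lg 0 true 1 71 71 37 0 34320) .out)) .out))) .out)
  .out)) (.na 213 225 (.lg 0 false 1 0 0 16 0 24) (.na 214 227 (.lg 0 false 1 0 0 16 0 24) (.nx 221
  832257 (.nr 220 1048577 (.nr 215 227 .s1 (.nx 216 257 (.l1 (.ls 79 19 293)) (.nr 219 741457 (.nx
  217 13005 (.lg 0 true 1 73 73 17 0 312) (.nr 218 16385 (.lg 0 false 1 73 73 17 0 312) .out))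
  .out))) .out) .out))))))) (.na 324 256 (.na 271 241 (.na 235 236 (.na 224 234 (.na 223 233 (.lg 0
  false 1 0 0 16 0 24) (.lg 0 false 1 0 0 16 0 24)) (.na 225 235 (.lg 0 false 1 0 0 16 0 24) (.nx
  234 832257 (.nr 233 1048577 (.nr 226 235 .s1 (.nx 229 13005 (.nx 227 257 (.l1 (.ls 73 19 284))
  (.nr 228 741457 (.lg 0 false 1 79 79 19 0 1560) .out)) (.nr 232 16385 (.nr 230 1025 (.lg 0 true 1
  61 61 19 0 1560) (.nx 231 104033 (.lg 2 true 1 61 61 19 15478 1560) .out)) .out))) .out) .out)))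
  (.na 253 239 (.na 245 237 (.nx 244 832257 (.nr 243 1048577 (.nr 236 236 .s1 (.nx 239 13005 (.nx
  237 257 (.l1 (.ls 53 29 282)) (.nr 238 741457 (.lg 0 false 1 83 83 23 0 624) .out)) (.nr 242
  16385 (.nr 240 1025 (.lg 0 true 1 67 67 23 0 624) (.nx 241 104033 (.lg 2 true 1 61 61 23 15478
  624) .out)) .out))) .out) .out) (.nx 252 832257 (.nr 251 1048577 (.nr 246 237 .s1 (.nx 247 257
  (.l1 (.ls 61 23 281)) (.nr 250 741457 (.nr 248 16385 (.lg 0 false 1 79 79 19 0 936) (.nx 249
  13005 (.lg 0 true 1 79 79 19 0 4680) .out)) .out))) .out) .out)) (.na 261 240 (.nx 260 832257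
  (.nr 259 1048577 (.nr 254 239 .s1 (.nx 255 257 (.l1 (.ls 61 19 279)) (.nr 258 741457 (.nr 256
  16385 (.lg 0 false 1 73 73 17 0 4680) (.nx 257 13005 (.lg 0 true 1 71 71 17 0 312) .out)) .out)))
  .out) .out) (.nx 270 832257 (.nr 269 1048577 (.nr 262 240 .s1 (.nx 267 104033 (.nx 263 257 (.l1
  (.ls 79 37 278)) (.nr 266 741457 (.nx 264 13005 (.lg 0 false 1 89 89 37 0 9360) (.nr 265 16385
  (.lg 0 true 1 73 79 37 0 9360) .out)) .out)) (.nr 268 1025 (.lg 0 true 1 71 71 37 0 9360) .out)))
  .out) .out)))) (.na 291 246 (.na 280 243 (.na 272 242 (.lg 0 false 1 0 0 16 0 24) (.nx 279 832257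
  (.nr 278 1048577 (.nr 273 242 .s1 (.nx 274 257 (.l1 (.ls 67 31 275)) (.nr 277 741457 (.nr 275
  16385 (.lg 0 false 1 79 79 29 0 6864) (.nx 276 13005 (.lg 0 true 1 79 79 29 0 102960) .out))
  .out))) .out) .out)) (.na 281 244 (.lg 0 false 1 0 0 16 0 24) (.nx 290 832257 (.nr 289 1048577
  (.nr 282 244 .s1 (.nx 285 13005 (.nx 283 257 (.l1 (.ls 59 29 273)) (.nr 284 741457 (.lg 0 false 1
  79 79 23 0 624) .out)) (.nr 288 16385 (.nr 286 1025 (.lg 0 true 1 61 61 23 0 624) (.nx 287 104033
  (.lg 2 false 1 59 59 23 15478 624) .out)) .out))) .out) .out))) (.na 307 250 (.na 299 249 (.nx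
  298 832257 (.nr 297 1048577 (.nr 292 246 .s1 (.nx 293 257 (.l1 (.ls 71 31 271)) (.nr 296 741457
  (.nr 294 16385 (.lg 0 false 1 83 83 29 0 1872) (.nx 295 13005 (.lg 0 true 1 79 79 29 0 1872)
  .out)) .out))) .out) .out) (.nx 306 832257 (.nr 305 1048577 (.nr 300 249 .s1 (.nx 301 257 (.l1
  (.ls 61 23 268)) (.nr 304 741457 (.nr 302 16385 (.lg 0 false 1 73 73 19 0 936) (.nx 303 13005
  (.lg 0 true 1 73 73 19 0 936) .out)) .out))) .out) .out)) (.na 315 251 (.nx 314 832257 (.nr 313
  1048577 (.nr 308 250 .s1 (.nx 311 13005 (.nx 309 257 (.l1 (.ls 67 31 267)) (.nr 310 741457 (.lg 0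
  true 1 73 73 29 0 3120) .out)) (.nr 312 16385 (.lg 0 false 1 79 79 29 0 9360) .out))) .out) .out)
  (.na 316 254 (.lg 0 false 1 0 0 16 0 24) (.nx 323 832257 (.nr 322 1048577 (.nr 317 254 .s1 (.nx
  318 257 (.l1 (.ls 73 29 263)) (.nr 321 741457 (.nx 319 13005 (.lg 0 true 1 73 73 23 0 624) (.nr
  320 16385 (.lg 0 false 1 79 79 23 0 9360) .out)) .out))) .out) .out)))))) (.na 5959 4096 (.na
  2292 1024 (.na 1054 512 (.na 334 257 (.nx 333 832257 (.nr 332 1482912 (.nr 325 256 .s1 (.nx 328
  13005 (.nx 326 205 (.l1 (.ls 79 23 167)) (.nr 327 1048577 (.lg 0 false 1 89 89 31 0 9360) .out))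
  (.nr 331 32769 (.nx 329 104033 (.lg 0 true 1 79 83 29 0 9360) (.nr 330 2049 (.lg 0 true 1 71 73
  29 0 624) .out)) .out))) .out) .out) (.nx 1053 832257 (.nr 1052 1482912 (.nr 335 257 .s1 (.nx 492
  157 (.nx 491 156 (.nr 490 4530 (.lx (.lp 43 19 129)) (.l1 .sk)) (.l1 .sk)) (.nx 540 205 (.lx (.lp
  89 17 129)) (.nr 1051 1048577 (.nr 795 32769 (.la (.lg 0 true 1 79 79 23 0)) (.nx 1050 10323 (.la
  (.lg 0 false 1 73 73 23 0)) .out)) .out)))) .out) .out)) (.na 1690 725 (.nx 1689 832257 (.nr 1688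
  1482912 (.nr 1055 512 .s1 (.nx 1212 157 (.nx 1211 156 (.nr 1210 6414 (.lx (.lp 47 19 182)) (.l1
  .sk)) (.l1 .sk)) (.nx 1474 22297 (.nx 1260 205 (.lx (.lp 83 19 182)) (.nr 1473 1048577 (.la (.lg
  0 false 1 73 73 29 0)) .out)) (.nr 1687 32769 (.la (.lg 2 true 1 67 67 29 126790)) .out)))) .out)
  .out) (.nx 2291 10323 (.nr 2290 1048577 (.nr 1691 725 .s1 (.nx 1990 2049 (.la (.ls 71 37 5793))
  (.nr 2289 16385 (.la (.lg 0 false 1 41 41 29 0)) .out))) .out) .out))) (.na 3748 2048 (.na 3146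
  1449 (.nx 3145 10323 (.nr 3144 1048577 (.nr 2293 1024 .s1 (.nx 2718 2582 (.la (.ls 71 41 6513))
  (.nr 3143 16385 (.la (.lg 0 false 1 31 37 31 0)) .out))) .out) .out) (.nx 3747 2582 (.nr 3746
  524289 (.nr 3147 1449 .s1 (.la (.ls 67 37 4603))) .out) .out)) (.na 4600 2897 (.nx 4599 3252 (.nr
  4598 524289 (.nr 3749 2048 .s1 (.la (.ls 61 37 5166))) .out) .out) (.nx 5958 2582 (.nr 5957
  262145 (.nr 4601 2897 .s1 (.nx 4758 157 (.nx 4757 156 (.nr 4756 36234 (.lx (.lp 53 31 1025)) (.l1
  .sk)) (.l1 .sk)) (.la (.ls 59 37 2295)))) .out) .out)))) (.na 11700 32768 (.na 9110 8192 (.na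
  7816 5793 (.nx 7815 2582 (.nr 7814 262145 (.nr 5960 4096 .s1 (.nx 6117 157 (.nx 6116 156 (.nr
  6115 51245 (.lx (.lp 47 31 1449)) (.l1 .sk)) (.l1 .sk)) (.la (.ls 53 37 1624)))) .out) .out) (.nx
  9109 1292 (.nr 9108 65537 (.nr 7817 5793 .s1 (.lx (.lp 47 37 2049))) .out) .out)) (.na 10405
  16384 (.nx 10404 1292 (.nr 10403 131073 (.nr 9111 8192 .s1 (.nx 9315 205 (.lx (.lp 47 41 4097))
  (.nr 10402 65537 (.lx (.lp 43 41 4097)) .out))) .out) .out) (.nx 11699 1292 (.nr 11698 262145
  (.nr 10406 16384 .s1 (.nx 10610 205 (.lx (.lp 16 41 8193)) (.nr 11697 131073 (.lx (.lp 43 43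
  8193)) .out))) .out) .out))) (.na 13756 131072 (.na 12728 65536 (.nx 12727 1025 (.nr 12726 262145
  (.nr 11701 32768 .s1 (.nx 11905 205 (.lx (.lp 16 0 16385)) (.nr 12725 131073 (.lx (.lp 43 47
  16385)) .out))) .out) .out) (.nx 13755 1025 (.nr 13754 262145 (.nr 12729 65536 .s1 (.nx 13052 324
  (.lx (.lp 41 47 32769)) (.nr 13753 131073 (.lx (.lp 41 53 32769)) .out))) .out) .out)) (.na 13758
  262144 (.nx 13757 324 (.l1 .sk) .out) (.na 13760 524289 (.nx 13759 205 (.l1 .sk) .out)
  .out)))))))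

def T76_2 : Ph :=
  (.na 382 128 (.na 255 44 (.na 178 22 (.na 89 4 (.na 1 2 .ne (.na 88 3 (.nx 87 660563 (.nr 86
  623489 (.nx 70 104033 (.nx 3 52 (.nr 2 14 (.lg 0 true 1 29 29 5 0 4368) (.l1 .sk)) (.nx 4 53 (.l1
  .sk) (.nr 43 27556 (.nx 19 8034 (.lg 0 false 15 89 89 9 0 65520) (.nr 34 613 (.lg 0 true 15 79 79
  9 0 9360) (.lg 2 false 9 89 97 9 4647 13104))) (.nx 69 647 (.nr 53 131073 (.lg 0 false 10 83 83 9
  0 21840) (.nx 68 103 (.lg 0 false 15 73 73 9 0 9360) .out)) .out)))) (.nr 85 154 (.lg 0 true 15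
  79 79 9 0 9360) .out)) .out) .out) .ne)) (.na 149 14 (.na 148 5 (.nx 147 660563 (.nr 146 1246976
  (.nx 138 330282 (.nx 91 52 (.nr 90 25 (.lg 0 true 1 31 31 9 0 65520) (.l1 .sk)) (.nx 92 53 (.l1
  .sk) (.nx 119 6503 (.nr 111 440873 (.nr 103 55110 (.lg 0 false 11 89 89 13 0 6864) (.nx 110 647
  (.lg 0 false 7 97 97 11 0 65520) .out)) (.nx 118 103 (.lg 0 false 7 79 79 11 0 4368) .out)) (.nr
  137 19485 (.nr 130 618 (.lg 0 true 11 83 83 13 0 6864) (.nr 132 2458 (.lg 2 false 2 83 83 9 13896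
  624) (.lg 2 false 5 83 89 11 4063 3120))) .out)))) (.nr 145 78 (.lg 0 true 7 73 73 11 0 4368)
  .out)) .out) .out) .ne) (.na 177 16 (.nx 176 660563 (.nr 175 623489 (.nr 150 13 .s1 (.nx 154 103
  (.nx 152 52 (.nr 151 82 (.l1 (.ls 23 29 196)) (.l1 .sk)) (.nx 153 53 (.l1 .sk) (.l1 (.ls 83 31
  560)))) (.nr 174 131073 (.nr 160 154 (.lg 0 true 6 71 71 13 0 13104) (.nx 173 41287 (.nr 163 2671
  (.nx 161 1353 (.lg 0 false 1 61 61 11 0 4368) (.lg 2 false 2 67 67 13 6971 4368)) (.nr 169 46342
  (.lg 0 true 6 89 89 13 0 13104) (.nx 172 6503 (.lg 0 false 3 97 97 13 0 720720) .out))) .out))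
  .out))) .out) .out) .ne))) (.na 215 28 (.na 198 23 (.nx 197 660563 (.nr 196 623489 (.nr 179 21
  .s1 (.nx 180 103 (.l1 (.ls 79 31 485)) (.nr 195 131073 (.nx 185 6503 (.lg 0 false 5 83 83 19 0
  102960) (.nr 194 46342 (.nr 190 257 (.lg 0 true 5 71 71 19 0 34320) (.nx 193 41287 (.lg 1 true 3
  79 79 13 9647 20592) .out)) .out)) .out))) .out) .out) (.na 199 26 .ne (.nx 214 660563 (.nr 213
  131073 (.nr 200 25 .s1 (.nx 202 52 (.nr 201 144 (.lg 0 true 1 0 16 11 0 720720) (.l1 .sk)) (.nx
  203 53 (.l1 .sk) (.nx 206 6503 (.lg 0 true 3 79 79 11 0 65520) (.nr 212 32769 (.nr 209 257 (.lg 0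
  false 3 71 71 11 0 65520) (.nx 211 41287 (.lg 1 false 2 71 71 11 6825 624) .out)) .out))))) .out)
  .out))) (.na 231 34 (.na 230 32 (.nx 229 660563 (.nr 228 131073 (.nr 216 28 .s1 (.nx 218 52 (.nr
  217 164 (.l1 (.ls 23 23 99)) (.l1 .sk)) (.nx 219 53 (.l1 .sk) (.nx 222 6503 (.lg 0 false 3 83 83
  19 0 13104) (.nr 227 32769 (.nr 225 257 (.lg 0 true 3 71 71 19 0 13104) (.nx 226 41287 (.lg 1
  false 1 83 83 13 6825 4368) .out)) .out))))) .out) .out) .ne) (.na 244 38 (.nx 243 82572 (.nr 242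
  262145 (.nr 232 34 .s1 (.nx 235 53 (.nx 234 52 (.nr 233 195 (.l1 (.ls 16 13 82)) (.l1 .sk)) (.l1
  .sk)) (.nr 238 32769 (.lg 0 true 3 89 89 13 0 9360) (.nx 241 2582 (.lg 0 false 3 79 79 13 0 1872)
  .out)))) .out) .out) (.nx 254 82572 (.nr 253 262145 (.nr 245 38 .s1 (.nx 248 53 (.nx 247 52 (.nr
  246 226 (.l1 (.ls 16 17 74)) (.l1 .sk)) (.l1 .sk)) (.nr 251 32769 (.lg 0 true 3 83 83 13 0 1872)
  (.nx 252 2582 (.lg 0 true 1 83 83 13 0 4368) .out)))) .out) .out))))) (.na 320 94 (.na 289 62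
  (.na 267 52 (.nx 266 82572 (.nr 265 262145 (.nr 256 44 .s1 (.nx 259 53 (.nx 258 52 (.nr 257 267
  (.l1 (.ls 29 19 64)) (.l1 .sk)) (.l1 .sk)) (.nx 263 41287 (.nr 261 32769 (.lg 0 true 2 89 89 23 0
  240240) (.nx 262 2582 (.lg 0 true 1 89 89 19 0 240240) .out)) (.nr 264 154 (.lg 0 true 1 59 59 19
  0 240240) .out)))) .out) .out) (.na 278 58 (.nx 277 82572 (.nr 276 262145 (.nr 268 52 .s1 (.nx
  271 53 (.nx 270 52 (.nr 269 298 (.l1 (.ls 16 19 54)) (.l1 .sk)) (.l1 .sk)) (.nr 274 32769 (.lg 0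
  true 3 79 79 23 0 1872) (.nx 275 2582 (.lg 0 true 1 73 73 11 0 624) .out)))) .out) .out) (.nx 288
  82572 (.nr 287 262145 (.nr 279 58 .s1 (.nx 281 52 (.nr 280 318 (.l1 (.ls 17 13 49)) (.l1 .sk))
  (.nx 282 53 (.l1 .sk) (.nr 285 32769 (.lg 0 true 3 83 83 19 0 1872) (.nx 286 2582 (.lg 0 true 1
  79 79 13 0 624) .out))))) .out) .out))) (.na 300 68 (.na 299 64 (.nx 298 82572 (.nr 297 262145
  (.nr 290 62 .s1 (.nx 292 52 (.nr 291 328 (.l1 (.ls 16 13 46)) (.l1 .sk)) (.nx 293 53 (.l1 .sk)
  (.nr 295 32769 (.lg 0 false 2 79 79 17 0 624) (.nx 296 2582 (.lg 0 true 1 73 73 13 0 624)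
  .out))))) .out) .out) .ne) (.na 310 76 (.nx 309 82572 (.nr 308 524289 (.nr 301 68 .s1 (.nx 306
  41287 (.nx 302 647 (.l1 (.ls 79 47 6159)) (.nr 305 262145 (.nx 303 6503 (.lg 0 true 1 89 89 13 0
  13104) (.nr 304 65537 (.lg 1 false 1 79 79 13 15787 624) .out)) .out)) (.nr 307 257 (.lg 0 true 1
  53 53 13 0 624) .out))) .out) .out) (.nx 319 82572 (.nr 318 524289 (.nr 311 76 .s1 (.nx 314 6503
  (.nx 312 647 (.l1 (.ls 79 47 5511)) (.nr 313 262145 (.lg 0 true 1 89 89 17 0 9360) .out)) (.nr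
  317 65537 (.nx 315 41287 (.lg 1 false 1 79 79 17 14125 624) (.nr 316 257 (.lg 0 true 1 53 53 17 0
  624) .out)) .out))) .out) .out)))) (.na 350 116 (.na 330 98 (.nx 329 82572 (.nr 328 524289 (.nr
  321 94 .s1 (.nx 326 41287 (.nx 322 647 (.l1 (.ls 73 43 4456)) (.nr 325 262145 (.lg 0 false 3 89
  89 19 0 1872) .out)) (.nr 327 257 (.lg 0 true 1 41 41 17 0 624) .out))) .out) .out) (.na 340 106
  (.nx 339 82572 (.nr 338 524289 (.nr 331 98 .s1 (.nx 336 41287 (.nx 332 647 (.l1 (.ls 67 43 4274))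
  (.nr 335 262145 (.lg 0 false 3 83 83 23 0 13104) .out)) (.nr 337 257 (.lg 0 true 1 41 41 19 0
  4368) .out))) .out) .out) (.nx 349 82572 (.nr 348 524289 (.nr 341 106 .s1 (.nx 346 41287 (.nx 342
  647 (.l1 (.ls 71 41 3952)) (.nr 345 262145 (.lg 0 false 3 83 83 23 0 1872) .out)) (.nr 347 257
  (.lg 0 true 1 37 37 19 0 3120) .out))) .out) .out))) (.na 366 122 (.na 358 118 (.nx 357 82572
  (.nr 356 524289 (.nr 351 116 .s1 (.nx 354 6503 (.nx 352 647 (.l1 (.ls 73 43 3611)) (.nr 353
  262145 (.lg 0 false 1 79 79 19 0 624) .out)) (.nr 355 65537 (.lg 1 true 1 79 79 19 18508 624)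
  .out))) .out) .out) (.nx 365 82572 (.nr 364 524289 (.nr 359 118 .s1 (.nx 362 6503 (.nx 360 647
  (.l1 (.ls 67 41 3550)) (.nr 361 262145 (.lg 0 true 1 73 73 19 0 624) .out)) (.nr 363 65537 (.lg 1
  false 1 73 73 19 18194 624) .out))) .out) .out)) (.na 374 124 (.nx 373 82572 (.nr 372 524289 (.nr
  367 122 .s1 (.nx 368 647 (.l1 (.ls 59 41 3434)) (.nr 371 262145 (.lg 0 false 3 89 89 23 0 1872)
  .out))) .out) .out) (.nx 381 82572 (.nr 380 524289 (.nr 375 124 .s1 (.nx 376 647 (.l1 (.ls 73 43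
  3378)) (.nr 379 262145 (.nx 377 6503 (.lg 0 false 1 79 79 19 0 624) (.nr 378 65537 (.lg 1 true 1
  79 79 19 17314 624) .out)) .out))) .out) .out)))))) (.na 461 244 (.na 419 196 (.na 395 154 (.na
  383 134 .ne (.na 389 142 (.nx 388 41287 (.nr 387 1048577 (.nr 384 134 .s1 (.nx 385 647 (.l1 (.ls
  61 41 3126)) (.nr 386 131073 (.lg 0 true 1 83 83 19 0 3120) .out))) .out) .out) (.nx 394 41287
  (.nr 393 1048577 (.nr 390 142 .s1 (.nx 391 647 (.l1 (.ls 67 41 2950)) (.nr 392 131073 (.lg 0 true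
  1 83 83 19 0 4368) .out))) .out) .out))) (.na 407 182 (.na 401 166 (.nx 400 41287 (.nr 399
  1048577 (.nr 396 154 .s1 (.nx 397 647 (.l1 (.ls 79 47 2721)) (.nr 398 131073 (.lg 0 true 1 89 89
  31 0 240240) .out))) .out) .out) (.nx 406 41287 (.nr 405 1048577 (.nr 402 166 .s1 (.nx 403 647
  (.l1 (.ls 71 41 2524)) (.nr 404 131073 (.lg 0 true 1 83 83 19 0 624) .out))) .out) .out)) (.na
  413 188 (.nx 412 41287 (.nr 411 1048577 (.nr 408 182 .s1 (.nx 409 647 (.l1 (.ls 67 43 2303)) (.nr
  410 131073 (.lg 0 true 1 73 73 29 0 4368) .out))) .out) .out) (.nx 418 41287 (.nr 417 1048577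
  (.nr 414 188 .s1 (.nx 415 647 (.l1 (.ls 73 41 2229)) (.nr 416 131073 (.lg 0 false 1 79 79 23 0
  624) .out))) .out) .out)))) (.na 437 226 (.na 425 202 (.nx 424 41287 (.nr 423 1048577 (.nr 420
  196 .s1 (.nx 421 647 (.l1 (.ls 73 41 2138)) (.nr 422 131073 (.lg 0 false 1 79 79 29 0 4368)
  .out))) .out) .out) (.na 431 212 (.nx 430 41287 (.nr 429 1048577 (.nr 426 202 .s1 (.nx 427 647
  (.l1 (.ls 61 37 2075)) (.nr 428 131073 (.lg 0 true 1 71 71 23 0 624) .out))) .out) .out) (.nx 436
  41287 (.nr 435 1048577 (.nr 432 212 .s1 (.nx 433 647 (.l1 (.ls 73 37 1977)) (.nr 434 131073 (.lg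
  0 false 1 79 79 23 0 624) .out))) .out) .out))) (.na 449 238 (.na 443 236 (.nx 442 41287 (.nr 441
  1048577 (.nr 438 226 .s1 (.nx 439 647 (.l1 (.ls 67 37 1855)) (.nr 440 131073 (.lg 0 true 1 73 73
  23 0 21840) .out))) .out) .out) (.nx 448 41287 (.nr 447 1048577 (.nr 444 236 .s1 (.nx 445 647
  (.l1 (.ls 73 37 1776)) (.nr 446 131073 (.lg 0 true 1 83 83 23 0 21840) .out))) .out) .out)) (.na
  455 242 (.nx 454 41287 (.nr 453 1048577 (.nr 450 238 .s1 (.nx 451 647 (.l1 (.ls 73 43 1761)) (.nr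
  452 131073 (.lg 0 false 1 79 79 31 0 4368) .out))) .out) .out) (.nx 460 41287 (.nr 459 1048577
  (.nr 456 242 .s1 (.nx 457 647 (.l1 (.ls 67 41 1732)) (.nr 458 131073 (.lg 0 true 1 71 71 29 0
  6864) .out))) .out) .out))))) (.na 1825 2048 (.na 779 512 (.na 467 256 (.nx 466 41287 (.nr 465
  1048577 (.nr 462 244 .s1 (.nx 463 647 (.l1 (.ls 59 37 1718)) (.nr 464 131073 (.lg 0 false 1 79 79
  23 0 624) .out))) .out) .out) (.na 468 257 .ne (.nx 778 41287 (.nr 777 262145 (.nr 469 257 .s1
  (.nx 522 53 (.nx 521 52 (.nr 520 2624 (.lx (.lp 43 17 129)) (.l1 .sk)) (.l1 .sk)) (.la (.lg 0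
  false 1 73 73 23 0)))) .out) .out))) (.na 1307 1024 (.na 1048 725 (.nx 1047 41287 (.nr 1046
  262145 (.nr 780 512 .s1 (.nx 833 53 (.nx 832 52 (.nr 831 3715 (.lx (.lp 16 16 182)) (.l1 .sk))
  (.l1 .sk)) (.la (.lg 0 false 1 67 67 29 0)))) .out) .out) (.nx 1306 257 (.nr 1305 65537 (.nr 1049
  725 .s1 (.lx (.lp 61 23 257))) .out) .out)) (.na 1566 1449 (.nx 1565 257 (.nr 1564 65537 (.nr
  1308 1024 .s1 (.lx (.lp 59 23 363))) .out) .out) (.nx 1824 257 (.nr 1823 16385 (.nr 1567 1449 .s1
  (.lx (.lp 43 23 513))) .out) .out)))) (.na 2602 5793 (.na 2084 2897 (.nx 2083 257 (.nr 2082 32769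
  (.nr 1826 2048 .s1 (.lx (.lp 47 29 725))) .out) .out) (.na 2343 4096 (.nx 2342 257 (.nr 2341
  32769 (.nr 2085 2897 .s1 (.lx (.lp 43 31 1025))) .out) .out) (.nx 2601 257 (.nr 2600 32769 (.nr
  2344 4096 .s1 (.lx (.lp 47 31 1449))) .out) .out))) (.na 2812 16384 (.na 2707 8192 (.nx 2706 103
  (.nr 2705 32769 (.nr 2603 5793 .s1 (.lx (.lp 16 0 2049))) .out) .out) (.nx 2811 103 (.nr 2810
  32769 (.nr 2708 8192 .s1 (.lx (.lp 16 0 4097))) .out) .out)) (.na 2814 32769 (.nx 2813 103 (.l1
  .sk) .out) .out))))))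

theorem c76 :
    OkQ ckI L6 113 1 1099511627776 0 34359738368 1 1099511627776 ∧
    OkQ ckI L8 156 165 1099511627776 0 34359738368 1 1099511627776 ∧
    OkQ ckI L5 52 1 1099511627776 0 34359738368 1 1099511627776 := by
  refine ⟨?_, ?_, ?_⟩
  · refine fin 8136 7899 T76_0 ?_
    refine jn 6 (by decide +kernel) ?_
    refine jn 10 (by decide +kernel) ?_
    refine jn 11 (by decide +kernel) ?_
    refine jn 12 (by decide +kernel) ?_
    refine jn 15 (by decide +kernel) ?_
    refine jn 16 (by decide +kernel) ?_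
    refine jn 18 (by decide +kernel) ?_
    refine jn 21 (by decide +kernel) ?_
    refine jn 25 (by decide +kernel) ?_
    refine jn 26 (by decide +kernel) ?_
    refine jn 29 (by decide +kernel) ?_
    refine jn 30 (by decide +kernel) ?_
    refine jn 31 (by decide +kernel) ?_
    refine jn 35 (by decide +kernel) ?_
    refine jn 36 (by decide +kernel) ?_
    refine jn 38 (by decide +kernel) ?_
    refine jn 42 (by decide +kernel) ?_
    refine jn 46 (by decide +kernel) ?_
    refine jn 51 (by decide +kernel) ?_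
    refine jn 56 (by decide +kernel) ?_
    refine jn 61 (by decide +kernel) ?_
    refine jn 66 (by decide +kernel) ?_
    refine jn 71 (by decide +kernel) ?_
    refine jn 73 (by decide +kernel) ?_
    refine jn 93 (by decide +kernel) ?_
    refine jn 104 (by decide +kernel) ?_
    refine jn 123 (by decide +kernel) ?_
    refine jn 135 (by decide +kernel) ?_
    refine jn 146 (by decide +kernel) ?_
    refine jn 158 (by decide +kernel) ?_
    refine jn 194 (by decide +kernel) ?_
    refine jn 203 (by decide +kernel) ?_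
    refine jn 206 (by decide +kernel) ?_
    refine jn 208 (by decide +kernel) ?_
    refine jn 213 (by decide +kernel) ?_
    refine jn 215 (by decide +kernel) ?_
    refine jn 220 (by decide +kernel) ?_
    refine jn 225 (by decide +kernel) ?_
    refine jn 233 (by decide +kernel) ?_
    refine jn 242 (by decide +kernel) ?_
    refine jn 253 (by decide +kernel) ?_
    refine jn 256 (by decide +kernel) ?_
    refine jn 270 (by decide +kernel) ?_
    refine jn 291 (by decide +kernel) ?_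
    refine jn 311 (by decide +kernel) ?_
    refine jn 334 (by decide +kernel) ?_
    refine jn 340 (by decide +kernel) ?_
    refine jn 341 (by decide +kernel) ?_
    refine jn 342 (by decide +kernel) ?_
    refine jn 343 (by decide +kernel) ?_
    refine jn 344 (by decide +kernel) ?_
    refine jn 345 (by decide +kernel) ?_
    refine jn 346 (by decide +kernel) ?_
    refine jn 347 (by decide +kernel) ?_
    refine jn 348 (by decide +kernel) ?_
    refine jn 349 (by decide +kernel) ?_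
    refine jn 350 (by decide +kernel) ?_
    refine jn 362 (by decide +kernel) ?_
    refine jn 369 (by decide +kernel) ?_
    refine jn 370 (by decide +kernel) ?_
    refine jn 371 (by decide +kernel) ?_
    refine jn 372 (by decide +kernel) ?_
    refine jn 373 (by decide +kernel) ?_
    refine jn 374 (by decide +kernel) ?_
    refine jn 375 (by decide +kernel) ?_
    refine jn 376 (by decide +kernel) ?_
    refine jn 377 (by decide +kernel) ?_
    refine jn 378 (by decide +kernel) ?_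
    refine jn 379 (by decide +kernel) ?_
    refine jn 380 (by decide +kernel) ?_
    refine jn 384 (by decide +kernel) ?_
    refine jn 388 (by decide +kernel) ?_
    refine jn 399 (by decide +kernel) ?_
    refine jn 410 (by decide +kernel) ?_
    refine jn 419 (by decide +kernel) ?_
    refine jn 427 (by decide +kernel) ?_
    refine jn 433 (by decide +kernel) ?_
    refine jn 462 (by decide +kernel) ?_
    refine jn 469 (by decide +kernel) ?_
    refine jn 470 (by decide +kernel) ?_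
    refine jn 471 (by decide +kernel) ?_
    refine jn 472 (by decide +kernel) ?_
    refine jn 473 (by decide +kernel) ?_
    refine jn 474 (by decide +kernel) ?_
    refine jn 477 (by decide +kernel) ?_
    refine jn 480 (by decide +kernel) ?_
    refine jn 483 (by decide +kernel) ?_
    refine jn 484 (by decide +kernel) ?_
    refine jn 489 (by decide +kernel) ?_
    refine jn 494 (by decide +kernel) ?_
    refine jn 499 (by decide +kernel) ?_
    refine jn 512 (by decide +kernel) ?_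
    refine jn 513 (by decide +kernel) ?_
    refine jn 514 (by decide +kernel) ?_
    refine jn 515 (by decide +kernel) ?_
    refine jn 516 (by decide +kernel) ?_
    refine jn 522 (by decide +kernel) ?_
    refine jn 526 (by decide +kernel) ?_
    refine jn 530 (by decide +kernel) ?_
    refine jn 533 (by decide +kernel) ?_
    refine jn 553 (by decide +kernel) ?_
    refine jn 560 (by decide +kernel) ?_
    refine jn 565 (by decide +kernel) ?_
    refine jn 578 (by decide +kernel) ?_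
    refine jn 582 (by decide +kernel) ?_
    refine jn 588 (by decide +kernel) ?_
    refine jn 593 (by decide +kernel) ?_
    refine jn 604 (by decide +kernel) ?_
    refine jn 609 (by decide +kernel) ?_
    refine jn 612 (by decide +kernel) ?_
    refine jn 619 (by decide +kernel) ?_
    refine jn 631 (by decide +kernel) ?_
    refine jn 636 (by decide +kernel) ?_
    refine jn 641 (by decide +kernel) ?_
    refine jn 656 (by decide +kernel) ?_
    refine jn 660 (by decide +kernel) ?_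
    refine jn 668 (by decide +kernel) ?_
    refine jn 670 (by decide +kernel) ?_
    refine jn 672 (by decide +kernel) ?_
    refine jn 673 (by decide +kernel) ?_
    refine jn 675 (by decide +kernel) ?_
    refine jn 677 (by decide +kernel) ?_
    refine jn 683 (by decide +kernel) ?_
    refine jn 691 (by decide +kernel) ?_
    refine jn 696 (by decide +kernel) ?_
    refine jn 708 (by decide +kernel) ?_
    refine jn 712 (by decide +kernel) ?_
    refine jn 725 (by decide +kernel) ?_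
    refine jn 729 (by decide +kernel) ?_
    refine jn 741 (by decide +kernel) ?_
    refine jn 746 (by decide +kernel) ?_
    refine jn 760 (by decide +kernel) ?_
    refine jn 774 (by decide +kernel) ?_
    refine jn 782 (by decide +kernel) ?_
    refine jn 783 (by decide +kernel) ?_
    refine jn 784 (by decide +kernel) ?_
    refine jn 788 (by decide +kernel) ?_
    refine jn 791 (by decide +kernel) ?_
    refine jn 792 (by decide +kernel) ?_
    refine jn 806 (by decide +kernel) ?_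
    refine jn 822 (by decide +kernel) ?_
    refine jn 837 (by decide +kernel) ?_
    refine jn 848 (by decide +kernel) ?_
    refine jn 850 (by decide +kernel) ?_
    refine jn 862 (by decide +kernel) ?_
    refine jn 876 (by decide +kernel) ?_
    refine jn 890 (by decide +kernel) ?_
    refine jn 904 (by decide +kernel) ?_
    refine jn 919 (by decide +kernel) ?_
    refine jn 931 (by decide +kernel) ?_
    refine jn 948 (by decide +kernel) ?_
    refine jn 963 (by decide +kernel) ?_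
    refine jn 980 (by decide +kernel) ?_
    refine jn 989 (by decide +kernel) ?_
    refine jn 999 (by decide +kernel) ?_
    refine jn 1010 (by decide +kernel) ?_
    refine jn 1022 (by decide +kernel) ?_
    refine jn 1033 (by decide +kernel) ?_
    refine jn 1043 (by decide +kernel) ?_
    refine jn 1053 (by decide +kernel) ?_
    refine jn 1063 (by decide +kernel) ?_
    refine jn 1079 (by decide +kernel) ?_
    refine jn 1095 (by decide +kernel) ?_
    refine jn 1103 (by decide +kernel) ?_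
    refine jn 1120 (by decide +kernel) ?_
    refine jn 1135 (by decide +kernel) ?_
    refine jn 1144 (by decide +kernel) ?_
    refine jn 1153 (by decide +kernel) ?_
    refine jn 1170 (by decide +kernel) ?_
    refine jn 1185 (by decide +kernel) ?_
    refine jn 1199 (by decide +kernel) ?_
    refine jn 1202 (by decide +kernel) ?_
    refine jn 1215 (by decide +kernel) ?_
    refine jn 1226 (by decide +kernel) ?_
    refine jn 1245 (by decide +kernel) ?_
    refine jn 1260 (by decide +kernel) ?_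
    refine jn 1275 (by decide +kernel) ?_
    refine jn 1285 (by decide +kernel) ?_
    refine jn 1326 (by decide +kernel) ?_
    refine jn 1356 (by decide +kernel) ?_
    refine jn 1393 (by decide +kernel) ?_
    refine jn 1449 (by decide +kernel) ?_
    refine jn 1509 (by decide +kernel) ?_
    refine jn 1547 (by decide +kernel) ?_
    refine jn 1548 (by decide +kernel) ?_
    refine jn 1553 (by decide +kernel) ?_
    refine jn 1572 (by decide +kernel) ?_
    refine jn 1581 (by decide +kernel) ?_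
    refine jn 1589 (by decide +kernel) ?_
    refine jn 1599 (by decide +kernel) ?_
    refine jn 1607 (by decide +kernel) ?_
    refine jn 1611 (by decide +kernel) ?_
    refine jn 1624 (by decide +kernel) ?_
    refine jn 1632 (by decide +kernel) ?_
    refine jn 1641 (by decide +kernel) ?_
    refine jn 1644 (by decide +kernel) ?_
    refine jn 1649 (by decide +kernel) ?_
    refine jn 1659 (by decide +kernel) ?_
    refine jn 1677 (by decide +kernel) ?_
    refine jn 1692 (by decide +kernel) ?_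
    refine jn 1709 (by decide +kernel) ?_
    refine jn 1716 (by decide +kernel) ?_
    refine jn 1727 (by decide +kernel) ?_
    refine jn 1737 (by decide +kernel) ?_
    refine jn 1764 (by decide +kernel) ?_
    refine jn 1772 (by decide +kernel) ?_
    refine jn 1781 (by decide +kernel) ?_
    refine jn 1791 (by decide +kernel) ?_
    refine jn 1820 (by decide +kernel) ?_
    refine jn 1892 (by decide +kernel) ?_
    refine jn 1948 (by decide +kernel) ?_
    refine jn 2020 (by decide +kernel) ?_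
    refine jn 2028 (by decide +kernel) ?_
    refine jn 2040 (by decide +kernel) ?_
    refine jn 2049 (by decide +kernel) ?_
    refine jn 2076 (by decide +kernel) ?_
    refine jn 2100 (by decide +kernel) ?_
    refine jn 2105 (by decide +kernel) ?_
    refine jn 2114 (by decide +kernel) ?_
    refine jn 2125 (by decide +kernel) ?_
    refine jn 2138 (by decide +kernel) ?_
    refine jn 2149 (by decide +kernel) ?_
    refine jn 2176 (by decide +kernel) ?_
    refine jn 2190 (by decide +kernel) ?_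
    refine jn 2213 (by decide +kernel) ?_
    refine jn 2232 (by decide +kernel) ?_
    refine jn 2282 (by decide +kernel) ?_
    refine jn 2320 (by decide +kernel) ?_
    refine jn 2364 (by decide +kernel) ?_
    refine jn 2408 (by decide +kernel) ?_
    refine jn 2453 (by decide +kernel) ?_
    refine jn 2492 (by decide +kernel) ?_
    refine jn 2527 (by decide +kernel) ?_
    refine jn 2567 (by decide +kernel) ?_
    refine jn 2601 (by decide +kernel) ?_
    refine jn 2656 (by decide +kernel) ?_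
    refine jn 2708 (by decide +kernel) ?_
    refine jn 2748 (by decide +kernel) ?_
    refine jn 2800 (by decide +kernel) ?_
    refine jn 2873 (by decide +kernel) ?_
    refine jn 2936 (by decide +kernel) ?_
    refine jn 3100 (by decide +kernel) ?_
    refine jn 3173 (by decide +kernel) ?_
    refine jn 3254 (by decide +kernel) ?_
    refine jn 3352 (by decide +kernel) ?_
    refine jn 3452 (by decide +kernel) ?_
    refine jn 3533 (by decide +kernel) ?_
    refine jn 3618 (by decide +kernel) ?_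
    refine jn 3796 (by decide +kernel) ?_
    refine jn 3909 (by decide +kernel) ?_
    refine jn 3997 (by decide +kernel) ?_
    refine jn 4085 (by decide +kernel) ?_
    refine jn 4194 (by decide +kernel) ?_
    refine jn 4299 (by decide +kernel) ?_
    refine jn 4426 (by decide +kernel) ?_
    refine jn 4529 (by decide +kernel) ?_
    refine jn 4622 (by decide +kernel) ?_
    refine jn 4915 (by decide +kernel) ?_
    refine jn 5132 (by decide +kernel) ?_
    refine jn 5275 (by decide +kernel) ?_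
    refine jn 5575 (by decide +kernel) ?_
    refine jn 5732 (by decide +kernel) ?_
    refine jn 5839 (by decide +kernel) ?_
    refine jn 5937 (by decide +kernel) ?_
    refine jn 6254 (by decide +kernel) ?_
    refine jn 6455 (by decide +kernel) ?_
    refine jn 6570 (by decide +kernel) ?_
    refine jn 6995 (by decide +kernel) ?_
    refine jn 7206 (by decide +kernel) ?_
    refine jn 7878 (by decide +kernel) ?_
    exact je (by decide +kernel)
  · refine fin 312 13761 T76_1 ?_
    refine jn 5 (by decide +kernel) ?_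
    refine jn 15 (by decide +kernel) ?_
    refine jn 31 (by decide +kernel) ?_
    refine jn 35 (by decide +kernel) ?_
    refine jn 44 (by decide +kernel) ?_
    refine jn 48 (by decide +kernel) ?_
    refine jn 64 (by decide +kernel) ?_
    refine jn 75 (by decide +kernel) ?_
    refine jn 93 (by decide +kernel) ?_
    refine jn 103 (by decide +kernel) ?_
    refine jn 104 (by decide +kernel) ?_
    refine jn 107 (by decide +kernel) ?_
    refine jn 124 (by decide +kernel) ?_
    refine jn 140 (by decide +kernel) ?_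
    refine jn 150 (by decide +kernel) ?_
    refine jn 160 (by decide +kernel) ?_
    refine jn 170 (by decide +kernel) ?_
    refine jn 179 (by decide +kernel) ?_
    refine jn 194 (by decide +kernel) ?_
    refine jn 204 (by decide +kernel) ?_
    refine jn 205 (by decide +kernel) ?_
    refine jn 208 (by decide +kernel) ?_
    refine jn 228 (by decide +kernel) ?_
    refine jn 238 (by decide +kernel) ?_
    refine jn 249 (by decide +kernel) ?_
    refine jn 264 (by decide +kernel) ?_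
    refine jn 268 (by decide +kernel) ?_
    refine jn 284 (by decide +kernel) ?_
    refine jn 295 (by decide +kernel) ?_
    refine jn 310 (by decide +kernel) ?_
    refine jn 320 (by decide +kernel) ?_
    refine jn 327 (by decide +kernel) ?_
    refine jn 329 (by decide +kernel) ?_
    refine jn 340 (by decide +kernel) ?_
    refine jn 377 (by decide +kernel) ?_
    refine jn 424 (by decide +kernel) ?_
    refine jn 479 (by decide +kernel) ?_
    refine jn 532 (by decide +kernel) ?_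
    refine jn 543 (by decide +kernel) ?_
    refine jn 547 (by decide +kernel) ?_
    refine jn 557 (by decide +kernel) ?_
    refine jn 560 (by decide +kernel) ?_
    refine jn 565 (by decide +kernel) ?_
    refine jn 567 (by decide +kernel) ?_
    refine jn 576 (by decide +kernel) ?_
    refine jn 581 (by decide +kernel) ?_
    refine jn 588 (by decide +kernel) ?_
    refine jn 595 (by decide +kernel) ?_
    refine jn 599 (by decide +kernel) ?_
    refine jn 603 (by decide +kernel) ?_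
    refine jn 604 (by decide +kernel) ?_
    refine jn 613 (by decide +kernel) ?_
    refine jn 617 (by decide +kernel) ?_
    refine jn 627 (by decide +kernel) ?_
    refine jn 635 (by decide +kernel) ?_
    refine jn 636 (by decide +kernel) ?_
    refine jn 638 (by decide +kernel) ?_
    refine jn 642 (by decide +kernel) ?_
    refine jn 649 (by decide +kernel) ?_
    refine jn 658 (by decide +kernel) ?_
    refine jn 664 (by decide +kernel) ?_
    refine jn 667 (by decide +kernel) ?_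
    refine jn 668 (by decide +kernel) ?_
    refine jn 678 (by decide +kernel) ?_
    refine jn 683 (by decide +kernel) ?_
    refine jn 684 (by decide +kernel) ?_
    refine jn 694 (by decide +kernel) ?_
    refine jn 698 (by decide +kernel) ?_
    refine jn 700 (by decide +kernel) ?_
    refine jn 712 (by decide +kernel) ?_
    refine jn 714 (by decide +kernel) ?_
    refine jn 723 (by decide +kernel) ?_
    refine jn 728 (by decide +kernel) ?_
    refine jn 734 (by decide +kernel) ?_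
    refine jn 744 (by decide +kernel) ?_
    refine jn 754 (by decide +kernel) ?_
    refine jn 756 (by decide +kernel) ?_
    refine jn 762 (by decide +kernel) ?_
    refine jn 763 (by decide +kernel) ?_
    refine jn 764 (by decide +kernel) ?_
    refine jn 775 (by decide +kernel) ?_
    refine jn 783 (by decide +kernel) ?_
    refine jn 791 (by decide +kernel) ?_
    refine jn 798 (by decide +kernel) ?_
    refine jn 805 (by decide +kernel) ?_
    refine jn 815 (by decide +kernel) ?_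
    refine jn 820 (by decide +kernel) ?_
    refine jn 824 (by decide +kernel) ?_
    refine jn 836 (by decide +kernel) ?_
    refine jn 843 (by decide +kernel) ?_
    refine jn 851 (by decide +kernel) ?_
    refine jn 855 (by decide +kernel) ?_
    refine jn 858 (by decide +kernel) ?_
    refine jn 859 (by decide +kernel) ?_
    refine jn 868 (by decide +kernel) ?_
    refine jn 872 (by decide +kernel) ?_
    refine jn 890 (by decide +kernel) ?_
    refine jn 891 (by decide +kernel) ?_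
    refine jn 894 (by decide +kernel) ?_
    refine jn 901 (by decide +kernel) ?_
    refine jn 911 (by decide +kernel) ?_
    refine jn 919 (by decide +kernel) ?_
    refine jn 922 (by decide +kernel) ?_
    refine jn 923 (by decide +kernel) ?_
    refine jn 936 (by decide +kernel) ?_
    refine jn 939 (by decide +kernel) ?_
    refine jn 950 (by decide +kernel) ?_
    refine jn 954 (by decide +kernel) ?_
    refine jn 964 (by decide +kernel) ?_
    refine jn 969 (by decide +kernel) ?_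
    refine jn 978 (by decide +kernel) ?_
    refine jn 985 (by decide +kernel) ?_
    refine jn 992 (by decide +kernel) ?_
    refine jn 1009 (by decide +kernel) ?_
    refine jn 1012 (by decide +kernel) ?_
    refine jn 1018 (by decide +kernel) ?_
    refine jn 1022 (by decide +kernel) ?_
    refine jn 1030 (by decide +kernel) ?_
    refine jn 1039 (by decide +kernel) ?_
    refine jn 1062 (by decide +kernel) ?_
    refine jn 1140 (by decide +kernel) ?_
    refine jn 1233 (by decide +kernel) ?_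
    refine jn 1260 (by decide +kernel) ?_
    refine jn 1261 (by decide +kernel) ?_
    refine jn 1265 (by decide +kernel) ?_
    refine jn 1271 (by decide +kernel) ?_
    refine jn 1276 (by decide +kernel) ?_
    refine jn 1281 (by decide +kernel) ?_
    refine jn 1295 (by decide +kernel) ?_
    refine jn 1298 (by decide +kernel) ?_
    refine jn 1304 (by decide +kernel) ?_
    refine jn 1310 (by decide +kernel) ?_
    refine jn 1316 (by decide +kernel) ?_
    refine jn 1320 (by decide +kernel) ?_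
    refine jn 1338 (by decide +kernel) ?_
    refine jn 1344 (by decide +kernel) ?_
    refine jn 1349 (by decide +kernel) ?_
    refine jn 1358 (by decide +kernel) ?_
    refine jn 1365 (by decide +kernel) ?_
    refine jn 1373 (by decide +kernel) ?_
    refine jn 1380 (by decide +kernel) ?_
    refine jn 1383 (by decide +kernel) ?_
    refine jn 1388 (by decide +kernel) ?_
    refine jn 1389 (by decide +kernel) ?_
    refine jn 1401 (by decide +kernel) ?_
    refine jn 1408 (by decide +kernel) ?_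
    refine jn 1412 (by decide +kernel) ?_
    refine jn 1419 (by decide +kernel) ?_
    refine jn 1429 (by decide +kernel) ?_
    refine jn 1436 (by decide +kernel) ?_
    refine jn 1443 (by decide +kernel) ?_
    refine jn 1452 (by decide +kernel) ?_
    refine jn 1453 (by decide +kernel) ?_
    refine jn 1458 (by decide +kernel) ?_
    refine jn 1463 (by decide +kernel) ?_
    refine jn 1472 (by decide +kernel) ?_
    refine jn 1474 (by decide +kernel) ?_
    refine jn 1475 (by decide +kernel) ?_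
    refine jn 1479 (by decide +kernel) ?_
    refine jn 1485 (by decide +kernel) ?_
    refine jn 1490 (by decide +kernel) ?_
    refine jn 1495 (by decide +kernel) ?_
    refine jn 1509 (by decide +kernel) ?_
    refine jn 1512 (by decide +kernel) ?_
    refine jn 1518 (by decide +kernel) ?_
    refine jn 1524 (by decide +kernel) ?_
    refine jn 1530 (by decide +kernel) ?_
    refine jn 1534 (by decide +kernel) ?_
    refine jn 1549 (by decide +kernel) ?_
    refine jn 1555 (by decide +kernel) ?_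
    refine jn 1562 (by decide +kernel) ?_
    refine jn 1567 (by decide +kernel) ?_
    refine jn 1572 (by decide +kernel) ?_
    refine jn 1577 (by decide +kernel) ?_
    refine jn 1586 (by decide +kernel) ?_
    refine jn 1590 (by decide +kernel) ?_
    refine jn 1595 (by decide +kernel) ?_
    refine jn 1602 (by decide +kernel) ?_
    refine jn 1603 (by decide +kernel) ?_
    refine jn 1612 (by decide +kernel) ?_
    refine jn 1621 (by decide +kernel) ?_
    refine jn 1626 (by decide +kernel) ?_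
    refine jn 1633 (by decide +kernel) ?_
    refine jn 1643 (by decide +kernel) ?_
    refine jn 1650 (by decide +kernel) ?_
    refine jn 1657 (by decide +kernel) ?_
    refine jn 1666 (by decide +kernel) ?_
    refine jn 1667 (by decide +kernel) ?_
    refine jn 1670 (by decide +kernel) ?_
    refine jn 1674 (by decide +kernel) ?_
    refine jn 1679 (by decide +kernel) ?_
    refine jn 1687 (by decide +kernel) ?_
    refine jn 1718 (by decide +kernel) ?_
    refine jn 1734 (by decide +kernel) ?_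
    refine jn 1754 (by decide +kernel) ?_
    refine jn 1786 (by decide +kernel) ?_
    refine jn 1797 (by decide +kernel) ?_
    refine jn 1818 (by decide +kernel) ?_
    refine jn 1845 (by decide +kernel) ?_
    refine jn 1861 (by decide +kernel) ?_
    refine jn 1893 (by decide +kernel) ?_
    refine jn 1914 (by decide +kernel) ?_
    refine jn 1941 (by decide +kernel) ?_
    refine jn 1962 (by decide +kernel) ?_
    refine jn 1992 (by decide +kernel) ?_
    refine jn 2016 (by decide +kernel) ?_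
    refine jn 2032 (by decide +kernel) ?_
    refine jn 2045 (by decide +kernel) ?_
    refine jn 2059 (by decide +kernel) ?_
    refine jn 2085 (by decide +kernel) ?_
    refine jn 2090 (by decide +kernel) ?_
    refine jn 2097 (by decide +kernel) ?_
    refine jn 2109 (by decide +kernel) ?_
    refine jn 2125 (by decide +kernel) ?_
    refine jn 2144 (by decide +kernel) ?_
    refine jn 2145 (by decide +kernel) ?_
    refine jn 2146 (by decide +kernel) ?_
    refine jn 2170 (by decide +kernel) ?_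
    refine jn 2187 (by decide +kernel) ?_
    refine jn 2206 (by decide +kernel) ?_
    refine jn 2216 (by decide +kernel) ?_
    refine jn 2225 (by decide +kernel) ?_
    refine jn 2233 (by decide +kernel) ?_
    refine jn 2248 (by decide +kernel) ?_
    refine jn 2262 (by decide +kernel) ?_
    refine jn 2292 (by decide +kernel) ?_
    refine jn 2308 (by decide +kernel) ?_
    refine jn 2332 (by decide +kernel) ?_
    refine jn 2365 (by decide +kernel) ?_
    refine jn 2387 (by decide +kernel) ?_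
    refine jn 2411 (by decide +kernel) ?_
    refine jn 2449 (by decide +kernel) ?_
    refine jn 2469 (by decide +kernel) ?_
    refine jn 2498 (by decide +kernel) ?_
    refine jn 2525 (by decide +kernel) ?_
    refine jn 2549 (by decide +kernel) ?_
    refine jn 2562 (by decide +kernel) ?_
    refine jn 2589 (by decide +kernel) ?_
    refine jn 2615 (by decide +kernel) ?_
    refine jn 2645 (by decide +kernel) ?_
    refine jn 2677 (by decide +kernel) ?_
    refine jn 2684 (by decide +kernel) ?_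
    refine jn 2705 (by decide +kernel) ?_
    refine jn 2718 (by decide +kernel) ?_
    refine jn 2726 (by decide +kernel) ?_
    refine jn 2749 (by decide +kernel) ?_
    refine jn 2757 (by decide +kernel) ?_
    refine jn 2780 (by decide +kernel) ?_
    refine jn 2795 (by decide +kernel) ?_
    refine jn 2818 (by decide +kernel) ?_
    refine jn 2830 (by decide +kernel) ?_
    refine jn 2851 (by decide +kernel) ?_
    refine jn 2874 (by decide +kernel) ?_
    refine jn 2888 (by decide +kernel) ?_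
    refine jn 2907 (by decide +kernel) ?_
    refine jn 2924 (by decide +kernel) ?_
    refine jn 2944 (by decide +kernel) ?_
    refine jn 2962 (by decide +kernel) ?_
    refine jn 2974 (by decide +kernel) ?_
    refine jn 2975 (by decide +kernel) ?_
    refine jn 2994 (by decide +kernel) ?_
    refine jn 3013 (by decide +kernel) ?_
    refine jn 3029 (by decide +kernel) ?_
    refine jn 3047 (by decide +kernel) ?_
    refine jn 3070 (by decide +kernel) ?_
    refine jn 3091 (by decide +kernel) ?_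
    refine jn 3102 (by decide +kernel) ?_
    refine jn 3103 (by decide +kernel) ?_
    refine jn 3114 (by decide +kernel) ?_
    refine jn 3130 (by decide +kernel) ?_
    refine jn 3162 (by decide +kernel) ?_
    refine jn 3200 (by decide +kernel) ?_
    refine jn 3230 (by decide +kernel) ?_
    refine jn 3260 (by decide +kernel) ?_
    refine jn 3290 (by decide +kernel) ?_
    refine jn 3334 (by decide +kernel) ?_
    refine jn 3358 (by decide +kernel) ?_
    refine jn 3383 (by decide +kernel) ?_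
    refine jn 3418 (by decide +kernel) ?_
    refine jn 3458 (by decide +kernel) ?_
    refine jn 3477 (by decide +kernel) ?_
    refine jn 3510 (by decide +kernel) ?_
    refine jn 3547 (by decide +kernel) ?_
    refine jn 3586 (by decide +kernel) ?_
    refine jn 3618 (by decide +kernel) ?_
    refine jn 3647 (by decide +kernel) ?_
    refine jn 3688 (by decide +kernel) ?_
    refine jn 3719 (by decide +kernel) ?_
    refine jn 3751 (by decide +kernel) ?_
    refine jn 3779 (by decide +kernel) ?_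
    refine jn 3813 (by decide +kernel) ?_
    refine jn 3846 (by decide +kernel) ?_
    refine jn 3887 (by decide +kernel) ?_
    refine jn 3918 (by decide +kernel) ?_
    refine jn 3952 (by decide +kernel) ?_
    refine jn 3977 (by decide +kernel) ?_
    refine jn 4022 (by decide +kernel) ?_
    refine jn 4061 (by decide +kernel) ?_
    refine jn 4089 (by decide +kernel) ?_
    refine jn 4121 (by decide +kernel) ?_
    refine jn 4163 (by decide +kernel) ?_
    refine jn 4199 (by decide +kernel) ?_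
    refine jn 4233 (by decide +kernel) ?_
    refine jn 4261 (by decide +kernel) ?_
    refine jn 4286 (by decide +kernel) ?_
    refine jn 4318 (by decide +kernel) ?_
    refine jn 4345 (by decide +kernel) ?_
    refine jn 4385 (by decide +kernel) ?_
    refine jn 4432 (by decide +kernel) ?_
    refine jn 4458 (by decide +kernel) ?_
    refine jn 4499 (by decide +kernel) ?_
    refine jn 4527 (by decide +kernel) ?_
    refine jn 4561 (by decide +kernel) ?_
    refine jn 4601 (by decide +kernel) ?_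
    refine jn 4789 (by decide +kernel) ?_
    refine jn 4835 (by decide +kernel) ?_
    refine jn 4884 (by decide +kernel) ?_
    refine jn 4929 (by decide +kernel) ?_
    refine jn 4978 (by decide +kernel) ?_
    refine jn 5026 (by decide +kernel) ?_
    refine jn 5064 (by decide +kernel) ?_
    refine jn 5132 (by decide +kernel) ?_
    refine jn 5170 (by decide +kernel) ?_
    refine jn 5215 (by decide +kernel) ?_
    refine jn 5264 (by decide +kernel) ?_
    refine jn 5309 (by decide +kernel) ?_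
    refine jn 5373 (by decide +kernel) ?_
    refine jn 5404 (by decide +kernel) ?_
    refine jn 5454 (by decide +kernel) ?_
    refine jn 5506 (by decide +kernel) ?_
    refine jn 5555 (by decide +kernel) ?_
    refine jn 5617 (by decide +kernel) ?_
    refine jn 5664 (by decide +kernel) ?_
    refine jn 5708 (by decide +kernel) ?_
    refine jn 5763 (by decide +kernel) ?_
    refine jn 5807 (by decide +kernel) ?_
    refine jn 5861 (by decide +kernel) ?_
    refine jn 5924 (by decide +kernel) ?_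
    refine jn 6117 (by decide +kernel) ?_
    refine jn 6149 (by decide +kernel) ?_
    refine jn 6196 (by decide +kernel) ?_
    refine jn 6245 (by decide +kernel) ?_
    refine jn 6293 (by decide +kernel) ?_
    refine jn 6352 (by decide +kernel) ?_
    refine jn 6409 (by decide +kernel) ?_
    refine jn 6469 (by decide +kernel) ?_
    refine jn 6525 (by decide +kernel) ?_
    refine jn 6565 (by decide +kernel) ?_
    refine jn 6617 (by decide +kernel) ?_
    refine jn 6682 (by decide +kernel) ?_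
    refine jn 6740 (by decide +kernel) ?_
    refine jn 6785 (by decide +kernel) ?_
    refine jn 6840 (by decide +kernel) ?_
    refine jn 6901 (by decide +kernel) ?_
    refine jn 6957 (by decide +kernel) ?_
    refine jn 7013 (by decide +kernel) ?_
    refine jn 7072 (by decide +kernel) ?_
    refine jn 7123 (by decide +kernel) ?_
    refine jn 7185 (by decide +kernel) ?_
    refine jn 7234 (by decide +kernel) ?_
    refine jn 7295 (by decide +kernel) ?_
    refine jn 7343 (by decide +kernel) ?_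
    refine jn 7405 (by decide +kernel) ?_
    refine jn 7464 (by decide +kernel) ?_
    refine jn 7525 (by decide +kernel) ?_
    refine jn 7581 (by decide +kernel) ?_
    refine jn 7643 (by decide +kernel) ?_
    refine jn 7687 (by decide +kernel) ?_
    refine jn 7741 (by decide +kernel) ?_
    refine jn 7809 (by decide +kernel) ?_
    refine jn 8060 (by decide +kernel) ?_
    refine jn 8256 (by decide +kernel) ?_
    refine jn 8400 (by decide +kernel) ?_
    refine jn 8485 (by decide +kernel) ?_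
    refine jn 8576 (by decide +kernel) ?_
    refine jn 8659 (by decide +kernel) ?_
    refine jn 8728 (by decide +kernel) ?_
    refine jn 8796 (by decide +kernel) ?_
    refine jn 8852 (by decide +kernel) ?_
    refine jn 8914 (by decide +kernel) ?_
    refine jn 8960 (by decide +kernel) ?_
    refine jn 9007 (by decide +kernel) ?_
    refine jn 9064 (by decide +kernel) ?_
    refine jn 9108 (by decide +kernel) ?_
    refine jn 9384 (by decide +kernel) ?_
    refine jn 9494 (by decide +kernel) ?_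
    refine jn 9594 (by decide +kernel) ?_
    refine jn 9674 (by decide +kernel) ?_
    refine jn 9746 (by decide +kernel) ?_
    refine jn 9804 (by decide +kernel) ?_
    refine jn 9882 (by decide +kernel) ?_
    refine jn 9934 (by decide +kernel) ?_
    refine jn 9986 (by decide +kernel) ?_
    refine jn 10034 (by decide +kernel) ?_
    refine jn 10078 (by decide +kernel) ?_
    refine jn 10126 (by decide +kernel) ?_
    refine jn 10173 (by decide +kernel) ?_
    refine jn 10214 (by decide +kernel) ?_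
    refine jn 10256 (by decide +kernel) ?_
    refine jn 10284 (by decide +kernel) ?_
    refine jn 10317 (by decide +kernel) ?_
    refine jn 10358 (by decide +kernel) ?_
    refine jn 10384 (by decide +kernel) ?_
    refine jn 10610 (by decide +kernel) ?_
    refine jn 10805 (by decide +kernel) ?_
    refine jn 10913 (by decide +kernel) ?_
    refine jn 11001 (by decide +kernel) ?_
    refine jn 11092 (by decide +kernel) ?_
    refine jn 11164 (by decide +kernel) ?_
    refine jn 11249 (by decide +kernel) ?_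
    refine jn 11321 (by decide +kernel) ?_
    refine jn 11381 (by decide +kernel) ?_
    refine jn 11460 (by decide +kernel) ?_
    refine jn 11521 (by decide +kernel) ?_
    refine jn 11575 (by decide +kernel) ?_
    refine jn 11630 (by decide +kernel) ?_
    refine jn 11688 (by decide +kernel) ?_
    refine jn 11983 (by decide +kernel) ?_
    refine jn 12140 (by decide +kernel) ?_
    refine jn 12244 (by decide +kernel) ?_
    refine jn 12340 (by decide +kernel) ?_
    refine jn 12424 (by decide +kernel) ?_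
    refine jn 12512 (by decide +kernel) ?_
    refine jn 12580 (by decide +kernel) ?_
    refine jn 12686 (by decide +kernel) ?_
    refine jn 13052 (by decide +kernel) ?_
    refine jn 13240 (by decide +kernel) ?_
    refine jn 13357 (by decide +kernel) ?_
    refine jn 13489 (by decide +kernel) ?_
    refine jn 13637 (by decide +kernel) ?_
    exact je (by decide +kernel)
  · refine fin 312 2815 T76_2 ?_
    refine jn 5 (by decide +kernel) ?_
    refine jn 6 (by decide +kernel) ?_
    refine jn 8 (by decide +kernel) ?_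
    refine jn 9 (by decide +kernel) ?_
    refine jn 13 (by decide +kernel) ?_
    refine jn 15 (by decide +kernel) ?_
    refine jn 17 (by decide +kernel) ?_
    refine jn 18 (by decide +kernel) ?_
    refine jn 19 (by decide +kernel) ?_
    refine jn 23 (by decide +kernel) ?_
    refine jn 28 (by decide +kernel) ?_
    refine jn 33 (by decide +kernel) ?_
    refine jn 43 (by decide +kernel) ?_
    refine jn 68 (by decide +kernel) ?_
    refine jn 79 (by decide +kernel) ?_
    refine jn 85 (by decide +kernel) ?_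
    refine jn 92 (by decide +kernel) ?_
    refine jn 93 (by decide +kernel) ?_
    refine jn 94 (by decide +kernel) ?_
    refine jn 95 (by decide +kernel) ?_
    refine jn 96 (by decide +kernel) ?_
    refine jn 97 (by decide +kernel) ?_
    refine jn 98 (by decide +kernel) ?_
    refine jn 99 (by decide +kernel) ?_
    refine jn 100 (by decide +kernel) ?_
    refine jn 101 (by decide +kernel) ?_
    refine jn 102 (by decide +kernel) ?_
    refine jn 110 (by decide +kernel) ?_
    refine jn 119 (by decide +kernel) ?_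
    refine jn 120 (by decide +kernel) ?_
    refine jn 121 (by decide +kernel) ?_
    refine jn 123 (by decide +kernel) ?_
    refine jn 124 (by decide +kernel) ?_
    refine jn 126 (by decide +kernel) ?_
    refine jn 127 (by decide +kernel) ?_
    refine jn 128 (by decide +kernel) ?_
    refine jn 129 (by decide +kernel) ?_
    refine jn 130 (by decide +kernel) ?_
    refine jn 132 (by decide +kernel) ?_
    refine jn 137 (by decide +kernel) ?_
    refine jn 143 (by decide +kernel) ?_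
    refine jn 153 (by decide +kernel) ?_
    refine jn 155 (by decide +kernel) ?_
    refine jn 156 (by decide +kernel) ?_
    refine jn 157 (by decide +kernel) ?_
    refine jn 158 (by decide +kernel) ?_
    refine jn 160 (by decide +kernel) ?_
    refine jn 161 (by decide +kernel) ?_
    refine jn 162 (by decide +kernel) ?_
    refine jn 163 (by decide +kernel) ?_
    refine jn 164 (by decide +kernel) ?_
    refine jn 165 (by decide +kernel) ?_
    refine jn 166 (by decide +kernel) ?_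
    refine jn 167 (by decide +kernel) ?_
    refine jn 168 (by decide +kernel) ?_
    refine jn 169 (by decide +kernel) ?_
    refine jn 180 (by decide +kernel) ?_
    refine jn 185 (by decide +kernel) ?_
    refine jn 190 (by decide +kernel) ?_
    refine jn 206 (by decide +kernel) ?_
    refine jn 219 (by decide +kernel) ?_
    refine jn 220 (by decide +kernel) ?_
    refine jn 221 (by decide +kernel) ?_
    refine jn 222 (by decide +kernel) ?_
    refine jn 223 (by decide +kernel) ?_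
    refine jn 224 (by decide +kernel) ?_
    refine jn 225 (by decide +kernel) ?_
    refine jn 235 (by decide +kernel) ?_
    refine jn 238 (by decide +kernel) ?_
    refine jn 248 (by decide +kernel) ?_
    refine jn 252 (by decide +kernel) ?_
    refine jn 259 (by decide +kernel) ?_
    refine jn 260 (by decide +kernel) ?_
    refine jn 261 (by decide +kernel) ?_
    refine jn 271 (by decide +kernel) ?_
    refine jn 275 (by decide +kernel) ?_
    refine jn 286 (by decide +kernel) ?_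
    refine jn 296 (by decide +kernel) ?_
    refine jn 303 (by decide +kernel) ?_
    refine jn 307 (by decide +kernel) ?_
    refine jn 313 (by decide +kernel) ?_
    refine jn 316 (by decide +kernel) ?_
    refine jn 331 (by decide +kernel) ?_
    refine jn 341 (by decide +kernel) ?_
    refine jn 351 (by decide +kernel) ?_
    refine jn 355 (by decide +kernel) ?_
    refine jn 371 (by decide +kernel) ?_
    refine jn 378 (by decide +kernel) ?_
    refine jn 392 (by decide +kernel) ?_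
    refine jn 404 (by decide +kernel) ?_
    refine jn 416 (by decide +kernel) ?_
    refine jn 428 (by decide +kernel) ?_
    refine jn 440 (by decide +kernel) ?_
    refine jn 452 (by decide +kernel) ?_
    refine jn 464 (by decide +kernel) ?_
    refine jn 533 (by decide +kernel) ?_
    refine jn 549 (by decide +kernel) ?_
    refine jn 567 (by decide +kernel) ?_
    refine jn 573 (by decide +kernel) ?_
    refine jn 574 (by decide +kernel) ?_
    refine jn 599 (by decide +kernel) ?_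
    refine jn 629 (by decide +kernel) ?_
    refine jn 669 (by decide +kernel) ?_
    refine jn 683 (by decide +kernel) ?_
    refine jn 707 (by decide +kernel) ?_
    refine jn 719 (by decide +kernel) ?_
    refine jn 741 (by decide +kernel) ?_
    refine jn 743 (by decide +kernel) ?_
    refine jn 780 (by decide +kernel) ?_
    refine jn 853 (by decide +kernel) ?_
    refine jn 859 (by decide +kernel) ?_
    refine jn 893 (by decide +kernel) ?_
    refine jn 935 (by decide +kernel) ?_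
    refine jn 959 (by decide +kernel) ?_
    refine jn 973 (by decide +kernel) ?_
    refine jn 989 (by decide +kernel) ?_
    refine jn 1007 (by decide +kernel) ?_
    refine jn 1045 (by decide +kernel) ?_
    refine jn 1262 (by decide +kernel) ?_
    refine jn 1567 (by decide +kernel) ?_
    refine jn 2051 (by decide +kernel) ?_
    refine jn 2588 (by decide +kernel) ?_
    exact je (by decide +kernel)

end Pool.Agent.MP_2339ce_nt.NR
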