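import Pool.Agent.MP_2339ce_nt.Q2.NC.L5
import Pool.Agent.MP_2339ce_nt.Q2.NC.L6
import Pool.Agent.MP_2339ce_nt.Q2.NC.L9
import Pool.Agent.MP_2339ce_nt.Q2.CkI

/-! Block NR: runs. -/

set_option autoImplicit false
set_option maxRecDepth 100000

noncomputable section

namespace Pool.Agent.MP_2339ce_nt.NR

open Q2.Top

def T88_0 : Ph :=
  (.na 719 126 (.na 507 42 (.na 363 16 (.na 253 5 (.na 136 3 (.na 1 2 .ne (.nx 135 3329023 (.nr 134
  623489 (.nx 115 1321124 (.nx 3 68 (.nr 2 16 (.lg 0 true 1 37 37 5 0 12240) (.l1 .sk)) (.nx 4 69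
  (.l1 .sk) (.nr 100 77937 (.nx 33 6501 (.nr 25 55110 (.lg 0 false 21 89 97 11 0 85680) (.nx 32
  1292 (.lg 0 false 7 89 89 9 0 85680) .out)) (.nr 99 65537 (.nr 68 257 (.lg 0 true 35 83 89 13 0
  85680) (.nx 98 165142 (.nr 75 1100 (.lg 2 true 7 83 83 9 21848 17136) (.nx 86 20644 (.lg 1 false
  11 103 107 9 23334 12252240) (.nr 97 46342 (.lg 2 false 11 97 101 9 5198 134640) .out))) .out))
  .out)) (.nx 114 205 (.lg 0 false 14 83 83 9 0 17136) .out)))) (.nr 133 9 (.lg 0 true 18 71 71 9 0
  2448) .out)) .out) .out)) (.na 137 4 .ne (.nx 252 10568985 (.nr 251 1246976 (.nx 204 330282 (.nx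
  140 69 (.nx 139 68 (.nr 138 29 (.lg 0 true 1 31 31 9 0 188496) (.l1 .sk)) (.l1 .sk)) (.nx 167
  7101 (.nr 150 55110 (.lg 0 false 10 97 97 13 0 942480) (.nx 166 1292 (.nr 155 155873 (.lg 0 false
  5 97 97 11 0 12240) (.nx 165 205 (.lg 0 false 10 89 89 13 0 12240) .out)) .out)) (.nr 203 65537
  (.nr 182 694 (.lg 0 true 15 83 83 13 0 12240) (.nr 187 5134 (.lg 2 true 5 97 97 11 16181 942480)
  (.nx 192 14596 (.lg 1 false 5 101 101 11 21362 942480) (.nx 197 41287 (.lg 1 true 5 101 103 11
  10393 942480) (.nr 202 55110 (.lg 2 false 5 101 101 11 3090 942480) .out))))) .out))) (.nr 250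
  183 (.nr 239 29 (.lg 0 true 35 83 83 13 0 85680) (.nx 249 1321124 (.lg 0 true 10 83 83 13 0
  12240) .out)) .out)) .out) .out))) (.na 288 7 (.na 254 6 .ne (.nx 287 1321124 (.nr 286 220437
  (.nx 256 68 (.nr 255 41 (.lg 0 false 1 23 23 7 0 2448) (.l1 .sk)) (.nx 257 69 (.l1 .sk) (.nr 280
  55110 (.nx 262 11394 (.lg 0 true 5 97 97 13 0 12240) (.nr 272 501 (.lg 0 true 10 89 89 13 0
  12240) (.nx 279 416129 (.nr 274 1905 (.lg 2 false 2 83 83 7 28241 2448) (.lg 2 false 5 101 103 13
  11197 942480)) .out))) (.nx 285 1292 (.lg 0 false 5 89 89 13 0 12240) .out)))) .out) .out)) (.na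
  289 12 .ne (.na 329 14 (.nx 328 1321124 (.nr 327 623489 (.nr 290 9 .s1 (.nx 293 69 (.nx 292 68
  (.nr 291 82 (.lg 0 true 1 31 31 13 0 12240) (.l1 .sk)) (.l1 .sk)) (.nx 321 330282 (.nx 307 6503
  (.nr 300 92683 (.lg 0 false 7 83 89 23 0 85680) (.nx 306 814 (.nr 302 220437 (.lg 0 false 2 83 83
  13 0 2448) (.nx 305 324 (.lg 0 false 3 83 83 19 0 12240) .out)) .out)) (.nr 320 65537 (.nr 312
  374 (.lg 0 true 5 73 73 19 0 12240) (.nx 319 165142 (.nx 315 26009 (.nx 314 14046 (.lg 1 false 2
  89 97 13 23327 12240) (.lg 1 false 1 97 97 13 10800 12240)) (.nr 318 46342 (.nr 316 1569 (.lg 2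
  false 1 79 79 13 15013 2448) (.lg 2 false 2 89 89 13 4126 12240)) .out)) .out)) .out)) (.nr 326
  65 (.lg 0 true 5 71 73 19 0 12240) .out)))) .out) .out) (.nx 362 1321124 (.nr 361 623489 (.nr 330
  12 .s1 (.nx 344 9557 (.nx 332 68 (.nr 331 94 (.lg 0 false 1 19 19 11 0 17136) (.l1 .sk)) (.nx 333
  69 (.l1 .sk) (.nr 338 92683 (.lg 0 false 5 89 89 13 0 85680) (.nx 343 814 (.lg 0 false 5 83 83 13
  0 85680) .out)))) (.nr 360 65537 (.nr 354 374 (.lg 0 true 10 79 79 19 0 85680) (.nx 359 165142
  (.lg 2 false 5 89 97 13 15872 85680) .out)) .out))) .out) .out))))) (.na 427 26 (.na 399 22 (.na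
  364 18 .ne (.nx 398 1321124 (.nr 397 1048577 (.nr 365 17 .s1 (.nx 371 324 (.nx 367 68 (.nr 366
  129 (.l1 (.ls 29 31 259)) (.l1 .sk)) (.nx 368 69 (.l1 .sk) (.nx 369 205 (.l1 (.ls 89 43 2073))
  (.nr 370 623489 (.l1 (.ls 83 43 3500)) .out)))) (.nr 396 220437 (.nr 378 498 (.lg 0 true 7 79 79
  19 0 17136) (.nx 395 165142 (.nr 381 10107 (.nx 379 2313 (.lg 0 true 1 73 73 13 0 2448) (.lg 2
  false 2 73 73 13 11275 2448)) (.nx 386 10323 (.lg 0 false 5 97 101 19 0 942480) (.nr 394 55110
  (.nr 391 32769 (.lg 2 true 5 71 71 19 7355 12240) (.nx 393 26009 (.lg 0 true 2 97 97 13 0 942480)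
  .out)) .out))) .out)) .out))) .out) .out)) (.na 426 23 (.nx 425 1321124 (.nr 424 1048577 (.nr 400
  21 .s1 (.nx 404 205 (.nx 402 68 (.nr 401 135 (.l1 (.ls 29 29 213)) (.l1 .sk)) (.nx 403 69 (.l1
  .sk) (.l1 (.ls 89 41 1696)))) (.nr 423 623489 (.nx 405 324 (.l1 (.ls 83 43 2864)) (.nr 422 220437
  (.nx 410 10323 (.lg 0 false 5 97 97 19 0 134640) (.nr 421 55110 (.nr 417 498 (.lg 0 true 7 79 79
  19 0 188496) (.nx 420 165142 (.lg 2 false 3 89 89 13 12359 26928) .out)) .out)) .out)) .out)))
  .out) .out) .ne)) (.na 468 32 (.na 449 28 (.nx 448 1321124 (.nr 447 1048577 (.nr 428 25 .s1 (.nx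
  431 69 (.nx 430 68 (.nr 429 164 (.l1 (.ls 23 29 180)) (.l1 .sk)) (.l1 .sk)) (.nx 432 205 (.l1
  (.ls 83 41 1436)) (.nr 446 185365 (.nx 437 16385 (.lg 0 false 5 89 89 19 0 159120) (.nr 445 38969
  (.nr 442 513 (.lg 0 true 5 79 79 19 0 159120) (.nx 444 82572 (.lg 1 false 2 83 83 11 5509 31824)
  .out)) .out)) .out)))) .out) .out) (.nx 467 1321124 (.nr 466 1048577 (.nr 450 27 .s1 (.nx 460
  16385 (.nx 452 68 (.nr 451 188 (.l1 (.ls 31 29 168)) (.l1 .sk)) (.nx 453 69 (.l1 .sk) (.nx 454
  205 (.l1 (.ls 97 41 1333)) (.nr 459 185365 (.nx 457 6503 (.lg 0 false 3 89 97 19 0 85680) (.nr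
  458 92683 (.lg 1 true 1 97 97 13 32979 85680) .out)) .out)))) (.nr 465 38969 (.nr 463 513 (.lg 0
  true 3 83 83 19 0 17136) (.nx 464 82572 (.lg 1 false 1 97 97 13 5509 85680) .out)) .out))) .out)
  .out)) (.na 469 34 .ne (.na 489 36 (.nx 488 1321124 (.nr 487 370729 (.nr 470 33 .s1 (.nx 473 69
  (.nx 472 68 (.nr 471 211 (.lg 0 true 1 0 16 11 0 2450448) (.l1 .sk)) (.l1 .sk)) (.nx 478 13005
  (.lg 0 true 5 83 83 13 0 12240) (.nr 486 23172 (.nr 483 612 (.lg 0 true 5 67 67 13 0 12240) (.nx
  485 82572 (.lg 2 true 2 67 67 13 4588 2448) .out)) .out)))) .out) .out) (.nx 506 1321124 (.nr 505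
  370729 (.nr 490 36 .s1 (.nx 493 69 (.nx 492 68 (.nr 491 246 (.l1 (.ls 29 29 131)) (.l1 .sk)) (.l1
  .sk)) (.nx 498 8193 (.lg 0 false 5 83 89 29 0 12240) (.nr 504 55110 (.nr 501 217 (.lg 0 true 3 71
  71 23 0 2448) (.nx 503 82572 (.lg 1 true 2 89 89 23 15572 17136) .out)) .out)))) .out) .out))))))
  (.na 627 78 (.na 568 54 (.na 538 46 (.na 521 44 (.nx 520 1321124 (.nr 519 370729 (.nr 508 42 .s1
  (.nx 513 8193 (.nx 510 68 (.nr 509 258 (.l1 (.ls 31 29 113)) (.l1 .sk)) (.nx 511 69 (.l1 .sk)
  (.lg 0 false 2 97 97 29 0 85680))) (.nr 518 55110 (.nr 516 217 (.lg 0 true 3 73 73 29 0 17136)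
  (.nx 517 82572 (.lg 1 false 1 97 97 23 15572 85680) .out)) .out))) .out) .out) (.nx 537 1321124
  (.nr 536 370729 (.nr 522 44 .s1 (.nx 530 8193 (.nx 524 68 (.nr 523 270 (.l1 (.ls 29 23 108)) (.l1
  .sk)) (.nx 525 69 (.l1 .sk) (.lg 0 false 5 83 89 29 0 134640))) (.nr 535 55110 (.nr 533 217 (.lg
  0 true 3 71 71 23 0 26928) (.nx 534 82572 (.lg 1 false 1 89 89 19 15572 26928) .out)) .out)))
  .out) .out)) (.na 555 52 (.nx 554 1321124 (.nr 553 311745 (.nr 539 46 .s1 (.nx 547 10323 (.nx 541
  68 (.nr 540 305 (.l1 (.ls 19 19 103)) (.l1 .sk)) (.nx 542 69 (.l1 .sk) (.lg 0 false 5 89 89 19 0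
  85680))) (.nr 552 23172 (.nr 550 305 (.lg 0 true 3 67 67 13 0 2448) (.nx 551 82572 (.lg 2 true 1
  79 79 13 9205 17136) .out)) .out))) .out) .out) (.nx 567 1321124 (.nr 566 311745 (.nr 556 52 .s1
  (.nx 559 69 (.nx 558 68 (.nr 557 316 (.l1 (.ls 31 23 91)) (.l1 .sk)) (.l1 .sk)) (.nx 561 8193
  (.lg 0 false 2 97 97 23 0 1113840) (.nr 565 46342 (.nr 563 217 (.lg 0 true 2 73 73 23 0 31824)
  (.nx 564 82572 (.lg 1 false 1 97 97 19 13098 1113840) .out)) .out)))) .out) .out))) (.na 598 64
  (.na 585 62 (.nx 584 1321124 (.nr 583 311745 (.nr 569 54 .s1 (.nx 577 10323 (.nx 571 68 (.nr 570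
  363 (.l1 (.ls 19 23 88)) (.l1 .sk)) (.nx 572 69 (.l1 .sk) (.lg 0 false 5 79 79 23 0 12240))) (.nr
  582 23172 (.nr 580 363 (.lg 0 true 3 67 67 23 0 2448) (.nx 581 82572 (.lg 2 true 1 71 71 19 7735
  2448) .out)) .out))) .out) .out) (.nx 597 1321124 (.nr 596 311745 (.nr 586 62 .s1 (.nx 592 10323
  (.nx 588 68 (.nr 587 375 (.l1 (.ls 23 19 77)) (.l1 .sk)) (.nx 589 69 (.l1 .sk) (.lg 0 false 3 83
  83 19 0 2448))) (.nr 595 23172 (.nr 593 217 (.lg 2 false 1 73 73 13 724488 2448) (.nx 594 82572
  (.lg 2 true 1 79 79 13 12938 2448) .out)) .out))) .out) .out)) (.na 599 66 .ne (.na 612 68 (.nx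
  611 1321124 (.nr 610 524289 (.nr 600 66 .s1 (.nx 605 8193 (.nx 602 68 (.nr 601 398 (.l1 (.ls 29
  29 73)) (.l1 .sk)) (.nx 603 69 (.l1 .sk) (.lg 0 false 2 89 89 29 0 188496))) (.nr 609 8193 (.nr
  607 513 (.lg 0 true 2 73 73 29 0 26928) (.nx 608 82572 (.lg 2 true 1 67 67 29 5473 26928) .out))
  .out))) .out) .out) (.nx 626 1321124 (.nr 625 524289 (.nr 613 68 .s1 (.nx 619 8193 (.nx 615 68
  (.nr 614 457 (.l1 (.ls 19 23 70)) (.l1 .sk)) (.nx 616 69 (.l1 .sk) (.lg 0 false 3 79 79 23 0
  2448))) (.nr 624 8193 (.nr 622 513 (.lg 0 true 3 67 67 23 0 2448) (.nx 623 82572 (.lg 2 true 1 59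
  59 13 5473 2448) .out)) .out))) .out) .out))))) (.na 664 98 (.na 651 91 (.na 640 84 (.nx 639
  1321124 (.nr 638 524289 (.nr 628 78 .s1 (.nx 633 8193 (.nx 630 68 (.nr 629 492 (.l1 (.ls 31 29
  62)) (.l1 .sk)) (.nx 631 69 (.l1 .sk) (.lg 0 false 2 89 89 31 0 31824))) (.nr 637 8193 (.nr 635
  513 (.lg 0 true 2 73 73 31 0 31824) (.nx 636 82572 (.lg 2 false 1 67 67 29 5473 31824) .out))
  .out))) .out) .out) (.nx 650 1321124 (.nr 649 524289 (.nr 641 84 .s1 (.nx 647 82572 (.nx 643 68
  (.nr 642 533 (.l1 (.ls 31 29 58)) (.l1 .sk)) (.nx 644 69 (.l1 .sk) (.nx 645 8193 (.lg 0 false 1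
  97 97 31 0 17136) (.nr 646 8193 (.lg 0 true 1 83 83 31 0 17136) .out)))) (.nr 648 513 (.lg 0 true
  1 73 73 31 0 17136) .out))) .out) .out)) (.na 652 92 .ne (.nx 663 1321124 (.nr 662 524289 (.nr
  653 92 .s1 (.nx 655 68 (.nr 654 574 (.l1 (.ls 19 19 53)) (.l1 .sk)) (.nx 656 69 (.l1 .sk) (.nx
  658 8193 (.lg 0 false 2 89 89 19 0 2448) (.nr 661 8193 (.nr 659 513 (.lg 2 false 1 73 73 19
  488242 2448) (.nx 660 82572 (.lg 2 false 1 67 67 19 5473 2448) .out)) .out))))) .out) .out)))
  (.na 686 106 (.na 675 102 (.nx 674 1321124 (.nr 673 524289 (.nr 665 98 .s1 (.nx 668 69 (.nx 667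
  68 (.nr 666 597 (.l1 (.ls 23 19 50)) (.l1 .sk)) (.l1 .sk)) (.nx 669 8193 (.lg 0 true 1 89 89 19 0
  85680) (.nr 672 8193 (.nr 670 513 (.lg 2 false 1 67 67 19 458350 17136) (.nx 671 82572 (.lg 2
  true 1 59 59 19 5473 85680) .out)) .out)))) .out) .out) (.nx 685 1321124 (.nr 684 524289 (.nr 676
  102 .s1 (.nx 679 69 (.nx 678 68 (.nr 677 621 (.l1 (.ls 29 29 48)) (.l1 .sk)) (.l1 .sk)) (.nx 680
  8193 (.lg 0 true 1 89 89 29 0 85680) (.nr 683 8193 (.nr 681 513 (.lg 2 false 1 67 67 29 440375
  2448) (.nx 682 82572 (.lg 2 true 1 53 53 29 5473 2448) .out)) .out)))) .out) .out)) (.na 697 108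
  (.nx 696 1321124 (.nr 695 524289 (.nr 687 106 .s1 (.nx 690 69 (.nx 689 68 (.nr 688 633 (.l1 (.ls
  16 19 46)) (.l1 .sk)) (.l1 .sk)) (.nx 691 8193 (.lg 0 true 1 89 89 19 0 2448) (.nr 694 8193 (.nr
  692 513 (.lg 2 false 1 67 67 19 423757 2448) (.nx 693 82572 (.lg 2 true 1 59 59 19 5473 2448)
  .out)) .out)))) .out) .out) (.na 708 124 (.nx 707 1321124 (.nr 706 524289 (.nr 698 108 .s1 (.nx
  702 8193 (.nx 700 68 (.nr 699 726 (.l1 (.ls 31 23 45)) (.l1 .sk)) (.nx 701 69 (.l1 .sk) (.lg 0
  true 1 89 89 23 0 85680))) (.nr 705 8193 (.nr 703 513 (.lg 2 true 1 61 61 23 415910 2448) (.nx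
  704 82572 (.lg 2 true 1 61 61 23 5473 85680) .out)) .out))) .out) .out) (.nx 718 1321124 (.nr 717
  524289 (.nr 709 124 .s1 (.nx 713 8193 (.nx 711 68 (.nr 710 738 (.l1 (.ls 19 19 40)) (.l1 .sk))
  (.nx 712 69 (.l1 .sk) (.lg 0 true 1 83 83 19 0 2448))) (.nr 716 8193 (.nr 714 513 (.lg 2 true 1
  61 61 19 362244 2448) (.nx 715 82572 (.lg 2 false 1 59 59 19 5473 2448) .out)) .out))) .out)
  .out))))))) (.na 867 234 (.na 795 178 (.na 751 142 (.na 731 132 (.na 730 128 (.nx 729 1321124
  (.nr 728 524289 (.nr 720 126 .s1 (.nx 724 8193 (.nx 722 68 (.nr 721 750 (.l1 (.ls 23 29 39)) (.l1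
  .sk)) (.nx 723 69 (.l1 .sk) (.lg 0 true 1 83 83 31 0 17136))) (.nr 727 8193 (.nr 725 513 (.lg 2
  true 1 61 61 31 356494 17136) (.nx 726 82572 (.lg 2 false 1 59 59 31 5473 17136) .out)) .out)))
  .out) .out) .ne) (.na 741 138 (.nx 740 660563 (.nr 739 1048577 (.nr 732 132 .s1 (.nx 735 6503
  (.nx 733 205 (.l1 (.ls 89 37 321)) (.nr 734 524289 (.lg 0 false 1 89 89 31 0 26928) .out)) (.nr
  738 8193 (.nr 736 1025 (.lg 0 true 1 79 79 31 0 26928) (.nx 737 82572 (.lg 2 false 1 59 61 31
  2938 26928) .out)) .out))) .out) .out) (.nx 750 660563 (.nr 749 1048577 (.nr 742 138 .s1 (.nx 743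
  205 (.l1 (.ls 79 37 307)) (.nr 748 524289 (.nx 744 6503 (.lg 0 true 1 89 89 31 0 12240) (.nr 747
  8193 (.nr 745 1025 (.lg 0 true 1 71 71 31 0 2448) (.nx 746 82572 (.lg 2 false 1 53 53 31 2938
  2448) .out)) .out)) .out))) .out) .out))) (.na 769 156 (.na 759 154 (.nx 758 660563 (.nr 757
  1048577 (.nr 752 142 .s1 (.nx 753 205 (.l1 (.ls 67 29 298)) (.nr 756 524289 (.nr 754 8193 (.lg 0
  false 1 83 83 19 0 2448) (.nx 755 6503 (.lg 0 true 1 83 83 19 0 12240) .out)) .out))) .out) .out)
  (.nx 768 660563 (.nr 767 1048577 (.nr 760 154 .s1 (.nx 763 6503 (.nx 761 205 (.l1 (.ls 79 31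
  275)) (.nr 762 524289 (.lg 0 true 1 83 83 31 0 188496) .out)) (.nr 766 8193 (.nr 764 1025 (.lg 0
  true 1 71 71 31 0 188496) (.nx 765 82572 (.lg 2 false 1 53 53 31 2938 188496) .out)) .out)))
  .out) .out)) (.na 779 158 (.nx 778 660563 (.nr 777 1048577 (.nr 770 156 .s1 (.nx 773 6503 (.nx
  771 205 (.l1 (.ls 79 37 272)) (.nr 772 524289 (.lg 0 false 1 83 83 37 0 31824) .out)) (.nr 776
  8193 (.nr 774 1025 (.lg 0 true 1 73 73 37 0 31824) (.nx 775 82572 (.lg 2 false 1 53 59 37 2938
  31824) .out)) .out))) .out) .out) (.na 787 162 (.nx 786 660563 (.nr 785 1048577 (.nr 780 158 .s1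
  (.nx 781 205 (.l1 (.ls 73 29 268)) (.nr 784 524289 (.nr 782 8193 (.lg 0 false 1 89 89 19 0 2448)
  (.nx 783 6503 (.lg 0 true 1 83 83 19 0 2448) .out)) .out))) .out) .out) (.nx 794 660563 (.nr 793
  1048577 (.nr 788 162 .s1 (.nx 789 205 (.l1 (.ls 71 31 262)) (.nr 792 524289 (.nr 790 8193 (.lg 0
  false 1 79 79 23 0 2448) (.nx 791 6503 (.lg 0 true 1 73 73 23 0 2448) .out)) .out))) .out)
  .out))))) (.na 827 198 (.na 811 186 (.na 803 182 (.nx 802 660563 (.nr 801 1048577 (.nr 796 178
  .s1 (.nx 799 6503 (.nx 797 205 (.l1 (.ls 79 29 239)) (.nr 798 524289 (.lg 0 true 1 73 73 19 0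
  2448) .out)) (.nr 800 8193 (.lg 0 false 1 79 79 19 0 2448) .out))) .out) .out) (.nx 810 660563
  (.nr 809 1048577 (.nr 804 182 .s1 (.nx 805 205 (.l1 (.ls 79 31 233)) (.nr 808 524289 (.nr 806
  8193 (.lg 0 false 1 89 89 31 0 1113840) (.nx 807 6503 (.lg 0 true 1 83 83 31 0 1113840) .out))
  .out))) .out) .out)) (.na 819 196 (.nx 818 660563 (.nr 817 1048577 (.nr 812 186 .s1 (.nx 813 205
  (.l1 (.ls 73 29 228)) (.nr 816 524289 (.nr 814 8193 (.lg 0 false 1 83 83 29 0 17136) (.nx 815
  6503 (.lg 0 false 1 79 79 29 0 2448) .out)) .out))) .out) .out) (.nx 826 660563 (.nr 825 1048577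
  (.nr 820 196 .s1 (.nx 821 205 (.l1 (.ls 71 29 217)) (.nr 824 524289 (.nr 822 8193 (.lg 0 false 1
  79 79 29 0 17136) (.nx 823 6503 (.lg 0 false 1 73 73 29 0 17136) .out)) .out))) .out) .out)))
  (.na 843 204 (.na 835 202 (.nx 834 660563 (.nr 833 1048577 (.nr 828 198 .s1 (.nx 829 205 (.l1
  (.ls 73 37 215)) (.nr 832 524289 (.nr 830 8193 (.lg 0 false 1 83 83 31 0 134640) (.nx 831 6503
  (.lg 0 false 1 79 79 31 0 26928) .out)) .out))) .out) .out) (.nx 842 660563 (.nr 841 1048577 (.nr
  836 202 .s1 (.nx 837 205 (.l1 (.ls 73 23 211)) (.nr 840 524289 (.nr 838 8193 (.lg 0 false 1 79 79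
  23 0 2448) (.nx 839 6503 (.lg 0 true 1 73 73 23 0 2448) .out)) .out))) .out) .out)) (.na 851 212
  (.nx 850 660563 (.nr 849 1048577 (.nr 844 204 .s1 (.nx 845 205 (.l1 (.ls 71 37 209)) (.nr 848
  524289 (.nr 846 8193 (.lg 0 true 1 73 73 31 0 2448) (.nx 847 6503 (.lg 0 false 1 73 73 31 0 2448)
  .out)) .out))) .out) .out) (.na 859 214 (.nx 858 660563 (.nr 857 1048577 (.nr 852 212 .s1 (.nx
  853 205 (.l1 (.ls 79 23 201)) (.nr 856 524289 (.nr 854 8193 (.lg 0 false 1 83 83 23 0 12240) (.nx
  855 6503 (.lg 0 false 1 79 79 23 0 2448) .out)) .out))) .out) .out) (.nx 866 660563 (.nr 865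
  1048577 (.nr 860 214 .s1 (.nx 861 205 (.l1 (.ls 67 23 199)) (.nr 864 524289 (.nr 862 8193 (.lg 0
  false 1 73 73 23 0 17136) (.nx 863 6503 (.lg 0 true 1 71 71 23 0 2448) .out)) .out))) .out)
  .out)))))) (.na 2675 1449 (.na 899 256 (.na 883 242 (.na 875 238 (.nx 874 660563 (.nr 873 1048577
  (.nr 868 234 .s1 (.nx 869 205 (.l1 (.ls 73 37 182)) (.nr 872 524289 (.nr 870 8193 (.lg 0 true 1
  79 79 37 0 31824) (.nx 871 6503 (.lg 0 false 1 73 73 37 0 31824) .out)) .out))) .out) .out) (.nx
  882 660563 (.nr 881 1048577 (.nr 876 238 .s1 (.nx 877 205 (.l1 (.ls 71 31 179)) (.nr 880 524289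
  (.nr 878 8193 (.lg 0 false 1 79 79 31 0 942480) (.nx 879 6503 (.lg 0 true 1 73 73 31 0 17136)
  .out)) .out))) .out) .out)) (.na 891 252 (.nx 890 660563 (.nr 889 1048577 (.nr 884 242 .s1 (.nx
  885 205 (.l1 (.ls 73 29 176)) (.nr 888 524289 (.nr 886 8193 (.lg 0 false 1 79 79 29 0 26928) (.nx
  887 6503 (.lg 0 true 1 73 73 29 0 26928) .out)) .out))) .out) .out) (.nx 898 660563 (.nr 897
  1048577 (.nr 892 252 .s1 (.nx 893 205 (.l1 (.ls 79 31 169)) (.nr 896 524289 (.nr 894 8193 (.lg 0
  true 1 83 83 37 0 17136) (.nx 895 6503 (.lg 0 false 1 83 83 37 0 85680) .out)) .out))) .out)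
  .out))) (.na 1414 512 (.na 900 257 .ne (.nx 1413 82572 (.nr 1412 1048577 (.nr 901 257 .s1 (.nx
  1156 647 (.la (.ls 79 31 1631)) (.nr 1411 262145 (.la (.lg 0 false 1 83 83 23 0)) .out))) .out)
  .out)) (.na 1844 725 (.nx 1843 82572 (.nr 1842 1048577 (.nr 1415 512 .s1 (.nx 1628 647 (.la (.ls
  97 29 820)) (.nr 1841 262145 (.la (.lg 0 false 1 73 73 29 0)) .out))) .out) .out) (.na 2146 1024
  (.nx 2145 3252 (.nr 2144 262145 (.nr 1845 725 .s1 (.la (.ls 61 43 14589))) .out) .out) (.nx 2674
  3252 (.nr 2673 262145 (.nr 2147 1024 .s1 (.nx 2248 101 (.nr 2247 131073 (.lx (.lp 19 0 363))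
  .out) (.la (.ls 61 41 10320)))) .out) .out))))) (.na 5567 8192 (.na 4267 2897 (.na 3346 2048 (.nx
  3345 1627 (.nr 3344 131073 (.nr 2676 1449 .s1 (.nx 2744 68 (.nr 2743 11986 (.lx (.lp 16 0 513))
  (.l1 .sk)) (.nx 2745 69 (.l1 .sk) (.la (.ls 67 31 1826))))) .out) .out) (.nx 4266 1627 (.nr 4265
  131073 (.nr 3347 2048 .s1 (.nx 3415 68 (.nr 3414 16955 (.lx (.lp 16 0 725)) (.l1 .sk)) (.nx 3416
  69 (.l1 .sk) (.la (.ls 61 31 1293))))) .out) .out)) (.na 4917 4096 (.nx 4916 647 (.nr 4915 65537
  (.nr 4268 2897 .s1 (.nx 4430 163 (.lx (.lp 59 29 1025)) (.nr 4914 32769 (.lx (.lp 53 31 1025))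
  .out))) .out) .out) (.nx 5566 647 (.nr 5565 65537 (.nr 4918 4096 .s1 (.nx 5080 163 (.lx (.lp 53
  31 2049)) (.nr 5564 32769 (.lx (.lp 47 37 2049)) .out))) .out) .out))) (.na 6866 32768 (.na 6216
  16384 (.nx 6215 647 (.nr 6214 65537 (.nr 5568 8192 .s1 (.lx (.lp 47 41 4097))) .out) .out) (.nx
  6865 647 (.nr 6864 131073 (.nr 6217 16384 .s1 (.nx 6379 163 (.lx (.lp 53 41 8193)) (.nr 6863
  65537 (.lx (.lp 47 43 8193)) .out))) .out) .out)) (.na 7192 65536 (.nx 7191 324 (.nr 7190 131073
  (.nr 6867 32768 .s1 (.lx (.lp 47 47 16385))) .out) .out) (.na 7518 131073 (.nx 7517 324 (.nr 7516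
  262145 (.nr 7193 65536 .s1 (.lx (.lp 47 47 32769))) .out) .out) .out)))))))

def T88_1 : Ph :=
  (.na 8437 8192 (.na 2596 1449 (.na 1140 725 (.na 452 512 (.nx 451 1048577 (.nr 450 1482912 (.nr 1
  363 .s1 (.nx 150 257 (.la (.ls 79 23 184)) (.nr 449 1048577 (.nx 299 20644 (.la (.lg 0 false 1 79
  79 23 0)) (.nr 448 32769 (.la (.lg 2 true 1 73 73 23 271533)) .out)) .out))) .out) .out) (.nx
  1139 1048577 (.nr 1138 1482912 (.nr 453 512 .s1 (.nx 641 188 (.nr 640 7039 (.lx (.lp 41 23 182))
  (.l1 .sk)) (.nx 642 189 (.l1 .sk) (.nx 710 257 (.lx (.lp 83 19 182)) (.nr 1137 1048577 (.nx 923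
  20644 (.la (.lg 0 false 1 73 73 29 0)) (.nr 1136 32769 (.la (.lg 2 true 1 71 71 29 192513))
  .out)) .out))))) .out) .out)) (.na 1742 1024 (.nx 1741 13005 (.nr 1740 1048577 (.nr 1141 725 .s1
  (.nx 1440 2049 (.la (.ls 71 41 5793)) (.nr 1739 65537 (.la (.lg 0 false 1 43 53 29 0)) .out)))
  .out) .out) (.nx 2595 13005 (.nr 2594 1048577 (.nr 1743 1024 .s1 (.nx 2168 3252 (.la (.ls 71 41
  10330)) (.nr 2593 32769 (.la (.lg 0 false 1 37 41 31 0)) .out))) .out) .out))) (.na 4050 2897
  (.na 3198 2048 (.nx 3197 8193 (.nr 3196 1048577 (.nr 2597 1449 .s1 (.la (.ls 67 47 46328))) .out)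
  .out) (.nx 4049 8193 (.nr 4048 1048577 (.nr 3199 2048 .s1 (.la (.ls 61 47 32779))) .out) .out))
  (.na 5252 4096 (.nx 5251 3252 (.nr 5250 524289 (.nr 4051 2897 .s1 (.la (.ls 59 37 3653))) .out)
  .out) (.na 7141 5793 (.nx 7140 3252 (.nr 7139 524289 (.nr 5253 4096 .s1 (.nx 5442 189 (.nx 5441
  188 (.nr 5440 56241 (.lx (.lp 43 31 1449)) (.l1 .sk)) (.l1 .sk)) (.la (.ls 59 37 2576)))) .out)
  .out) (.nx 8436 1292 (.nr 8435 262145 (.nr 7142 5793 .s1 (.nx 7956 814 (.nx 7398 256 (.nr 7397
  131073 (.lx (.lp 43 37 2049)) .out) (.lx (.lp 59 37 2049))) (.nr 8434 65537 (.lx (.lp 41 37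
  2049)) .out))) .out) .out))))) (.na 13616 65536 (.na 11026 16384 (.na 9732 11586 (.nx 9731 1292
  (.nr 9730 262145 (.nr 8438 8192 .s1 (.nx 9251 814 (.lx (.lp 53 41 2897)) (.nr 9729 131073 (.lx
  (.lp 41 41 2897)) .out))) .out) .out) (.nx 11025 1292 (.nr 11024 131073 (.nr 9733 11586 .s1 (.lx
  (.lp 41 41 4097))) .out) .out)) (.na 12321 32768 (.nx 12320 1292 (.nr 12319 262145 (.nr 11027
  16384 .s1 (.nx 11283 257 (.lx (.lp 53 43 8193)) (.nr 12318 131073 (.lx (.lp 41 43 8193)) .out)))
  .out) .out) (.nx 13615 1292 (.nr 13614 262145 (.nr 12322 32768 .s1 (.nx 12967 645 (.nx 12578 257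
  (.lx (.lp 16 43 16385)) (.nr 12966 131073 (.lx (.lp 37 47 16385)) .out)) (.lx (.lp 41 47
  16385)))) .out) .out))) (.na 15426 262144 (.na 14911 131072 (.nx 14910 1292 (.nr 14909 524289
  (.nr 13617 65536 .s1 (.nx 13873 257 (.lx (.lp 16 0 32769)) (.nr 14908 262145 (.lx (.lp 37 53
  32769)) .out))) .out) .out) (.nx 15425 513 (.nr 15424 524289 (.nr 14912 131072 .s1 (.lx (.lp 29
  59 65537))) .out) .out)) (.na 15941 524288 (.nx 15940 513 (.nr 15939 1048577 (.nr 15427 262144
  .s1 (.lx (.lp 16 0 131073))) .out) .out) (.na 15943 1048577 (.nx 15942 257 (.l1 .sk) .out)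
  .out)))))

def T88_2 : Ph :=
  (.na 581 142 (.na 416 65 (.na 310 26 (.na 245 13 (.na 219 3 (.na 135 2 (.nx 134 660563 (.nr 133
  1482912 (.nx 104 104033 (.nx 69 4097 (.nx 2 61 (.nr 1 8 (.lg 0 true 1 31 31 5 0 51240) (.l1 .sk))
  (.nx 3 62 (.l1 .sk) (.nr 15 16385 (.lg 0 true 12 89 89 9 0 8784) (.nx 68 1292 (.nr 27 38969 (.lg
  0 false 12 89 97 9 0 307440) (.nx 67 205 (.nr 38 110219 (.lg 0 false 11 79 79 9 0 16104) (.nx 66
  103 (.lg 0 false 28 83 83 11 0 20496) .out)) .out)) .out)))) (.nr 103 13779 (.nr 94 682 (.nr 90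
  331 (.lg 0 true 21 79 79 11 0 30744) (.lg 2 false 4 79 79 7 9587 2928)) (.lg 2 false 9 101 101 9
  6286 153720)) .out)) (.nr 132 78 (.lg 0 true 28 79 79 11 0 20496) .out)) .out) .out) (.nx 218
  660563 (.nr 217 623489 (.nx 138 62 (.nx 137 61 (.nr 136 15 (.lg 0 true 1 29 29 5 0 2928) (.l1
  .sk)) (.l1 .sk)) (.nr 193 27556 (.nx 151 7934 (.lg 0 false 13 89 89 9 0 38064) (.nr 172 307 (.lg
  0 true 21 83 83 11 0 61488) (.nx 192 104033 (.nx 179 16385 (.lg 1 true 7 97 97 9 6477 1127280)
  (.nr 191 9743 (.nr 186 2445 (.lg 2 true 7 83 83 9 10336 20496) (.lg 2 false 5 79 79 9 1298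
  14640)) .out)) .out))) (.nx 216 647 (.nr 202 131073 (.lg 0 false 9 83 83 9 0 8784) (.nx 215 103
  (.lg 0 false 13 73 73 9 0 38064) .out)) .out))) .out) .out)) (.na 220 10 .ne (.nx 244 660563 (.nr
  243 623489 (.nr 221 7 .s1 (.nx 224 62 (.nx 223 61 (.nr 222 72 (.lg 0 false 1 19 19 11 0 102480)
  (.l1 .sk)) (.l1 .sk)) (.nx 225 103 (.l1 (.ls 83 37 679)) (.nr 242 131073 (.nx 231 6503 (.lg 0
  false 6 97 97 13 0 307440) (.nr 241 46342 (.nr 237 154 (.lg 0 true 6 73 73 13 0 43920) (.nx 240
  41287 (.lg 1 true 3 97 97 13 13277 307440) .out)) .out)) .out)))) .out) .out))) (.na 290 16 (.na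
  268 14 (.nx 267 660563 (.nr 266 623489 (.nr 246 11 .s1 (.nx 249 62 (.nx 248 61 (.nr 247 78 (.lg 0
  true 1 23 23 9 0 21981960) (.l1 .sk)) (.l1 .sk)) (.nx 256 6503 (.nx 250 103 (.l1 (.ls 83 23 523))
  (.nr 255 131073 (.lg 0 false 5 89 89 16 0 95160) .out)) (.nr 265 46342 (.nr 261 154 (.lg 0 true 5
  71 71 16 0 95160) (.nx 264 41287 (.lg 1 true 3 89 89 11 13277 57096) .out)) .out)))) .out) .out)
  (.nx 289 660563 (.nr 288 623489 (.nr 269 12 .s1 (.nx 272 62 (.nx 271 61 (.nr 270 89 (.lg 0 false
  1 19 19 11 0 307440) (.l1 .sk)) (.l1 .sk)) (.nx 277 6503 (.nx 273 103 (.l1 (.ls 83 31 486)) (.nr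
  276 131073 (.lg 0 true 3 97 97 13 0 307440) .out)) (.nr 287 46342 (.nr 283 154 (.lg 0 true 6 71
  71 13 0 61488) (.nx 286 41287 (.lg 1 true 3 97 97 13 13277 307440) .out)) .out)))) .out) .out))
  (.na 291 22 .ne (.na 309 23 (.nx 308 660563 (.nr 307 623489 (.nr 292 21 .s1 (.nx 297 6503 (.nx
  293 103 (.l1 (.ls 83 31 485)) (.nr 296 131073 (.lg 0 false 3 83 83 13 0 96624) .out)) (.nr 306
  46342 (.nr 302 257 (.lg 0 true 5 71 71 19 0 161040) (.nx 305 41287 (.lg 1 true 3 83 83 13 13277
  96624) .out)) .out))) .out) .out) .ne)))) (.na 370 49 (.na 344 32 (.na 326 31 (.nx 325 660563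
  (.nr 324 131073 (.nr 311 25 .s1 (.nx 314 62 (.nx 313 61 (.nr 312 172 (.l1 (.ls 19 23 146)) (.l1
  .sk)) (.l1 .sk)) (.nx 317 6503 (.lg 0 false 3 83 83 11 0 114192) (.nr 323 32769 (.nr 320 257 (.lg
  0 true 3 71 71 11 0 114192) (.nx 322 41287 (.lg 1 true 2 79 79 11 9394 38064) .out)) .out))))
  .out) .out) (.nx 343 660563 (.nr 342 131073 (.nr 327 31 .s1 (.nx 329 61 (.nr 328 178 (.l1 (.ls 17
  16 123)) (.l1 .sk)) (.nx 330 62 (.l1 .sk) (.nr 338 32769 (.nx 334 41287 (.lg 0 false 4 79 79 16 0
  2928) (.nr 337 257 (.lg 0 true 3 71 71 16 0 4392) .out)) (.nx 341 6503 (.lg 0 false 3 83 83 16 0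
  4392) .out))))) .out) .out)) (.na 345 35 .ne (.na 359 46 (.nx 358 82572 (.nr 357 262145 (.nr 346
  35 .s1 (.nx 355 41287 (.nx 348 61 (.nr 347 255 (.l1 (.ls 23 19 109)) (.l1 .sk)) (.nx 349 62 (.l1
  .sk) (.nr 352 32769 (.lg 0 true 3 89 89 17 0 1690920) (.nx 354 2582 (.lg 0 false 2 89 89 17 0
  102480) .out)))) (.nr 356 154 (.lg 0 true 1 53 53 16 0 51240) .out))) .out) .out) (.nx 369 82572
  (.nr 368 262145 (.nr 360 46 .s1 (.nx 362 61 (.nr 361 272 (.l1 (.ls 17 19 83)) (.l1 .sk)) (.nx 363
  62 (.l1 .sk) (.nr 366 32769 (.lg 0 true 3 89 89 13 0 8784) (.nx 367 2582 (.lg 0 true 1 89 89 13 0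
  2928) .out))))) .out) .out)))) (.na 392 61 (.na 381 50 (.nx 380 82572 (.nr 379 262145 (.nr 371 49
  .s1 (.nx 374 62 (.nx 373 61 (.nr 372 278 (.l1 (.ls 17 16 78)) (.l1 .sk)) (.l1 .sk)) (.nr 377
  32769 (.lg 0 true 3 83 83 16 0 153720) (.nx 378 2582 (.lg 0 true 1 79 79 16 0 10248) .out))))
  .out) .out) (.nx 391 82572 (.nr 390 262145 (.nr 382 50 .s1 (.nx 385 62 (.nx 384 61 (.nr 383 339
  (.l1 (.ls 17 19 77)) (.l1 .sk)) (.l1 .sk)) (.nr 388 32769 (.lg 0 true 3 83 83 19 0 43920) (.nx
  389 2582 (.lg 0 true 1 79 79 13 0 14640) .out)))) .out) .out)) (.na 405 62 (.nx 404 82572 (.nr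
  403 262145 (.nr 393 61 .s1 (.nx 396 62 (.nx 395 61 (.nr 394 344 (.l1 (.ls 16 16 63)) (.l1 .sk))
  (.l1 .sk)) (.nr 399 32769 (.lg 0 false 3 71 71 16 0 4392) (.nx 402 2582 (.lg 0 true 3 59 59 16 0
  4392) .out)))) .out) .out) (.na 415 64 (.nx 414 82572 (.nr 413 262145 (.nr 406 62 .s1 (.nx 409 62
  (.nx 408 61 (.nr 407 355 (.l1 (.ls 16 19 63)) (.l1 .sk)) (.l1 .sk)) (.nr 411 32769 (.lg 0 false 2
  83 83 17 0 2928) (.nx 412 2582 (.lg 0 true 1 79 79 13 0 2928) .out)))) .out) .out) .ne))))) (.na
  516 110 (.na 466 82 (.na 436 70 (.na 426 67 (.nx 425 82572 (.nr 424 524289 (.nr 417 65 .s1 (.nx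
  422 41287 (.nx 418 647 (.l1 (.ls 79 43 6443)) (.nr 421 262145 (.nx 419 6503 (.lg 0 true 1 83 83
  17 0 95160) (.nr 420 65537 (.lg 1 false 1 79 79 17 19374 95160) .out)) .out)) (.nr 423 257 (.lg 0
  true 1 47 47 17 0 95160) .out))) .out) .out) (.nx 435 82572 (.nr 434 524289 (.nr 427 67 .s1 (.nx
  428 647 (.l1 (.ls 73 37 6250)) (.nr 433 262145 (.nx 431 41287 (.lg 0 false 3 89 89 16 0 4392)
  (.nr 432 257 (.lg 0 true 1 41 41 16 0 1464) .out)) .out))) .out) .out)) (.na 446 77 (.nx 445
  82572 (.nr 444 524289 (.nr 437 70 .s1 (.nx 438 647 (.l1 (.ls 79 53 5983)) (.nr 443 262145 (.nx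
  439 6503 (.lg 0 true 1 89 89 23 0 102480) (.nr 442 65537 (.nx 440 41287 (.lg 1 false 1 83 83 23
  18769 102480) (.nr 441 257 (.lg 0 true 1 47 47 23 0 102480) .out)) .out)) .out))) .out) .out)
  (.na 456 79 (.nx 455 82572 (.nr 454 524289 (.nr 447 77 .s1 (.nx 448 647 (.l1 (.ls 79 43 5439))
  (.nr 453 262145 (.nx 449 6503 (.lg 0 false 1 83 83 17 0 112728) (.nr 452 65537 (.nx 450 41287
  (.lg 1 true 1 79 79 17 18769 112728) (.nr 451 257 (.lg 0 true 1 47 47 17 0 112728) .out)) .out))
  .out))) .out) .out) (.nx 465 82572 (.nr 464 524289 (.nr 457 79 .s1 (.nx 462 41287 (.nx 458 647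
  (.l1 (.ls 67 37 5301)) (.nr 461 262145 (.lg 0 false 3 89 89 16 0 4392) .out)) (.nr 463 257 (.lg 0
  true 1 37 37 16 0 1464) .out))) .out) .out)))) (.na 486 97 (.na 476 86 (.nx 475 82572 (.nr 474
  524289 (.nr 467 82 .s1 (.nx 468 647 (.l1 (.ls 73 47 5107)) (.nr 473 262145 (.nx 471 41287 (.lg 0
  false 3 89 89 19 0 8784) (.nr 472 257 (.lg 0 true 1 41 41 13 0 2928) .out)) .out))) .out) .out)
  (.nx 485 82572 (.nr 484 524289 (.nr 477 86 .s1 (.nx 478 647 (.l1 (.ls 73 41 4870)) (.nr 483
  262145 (.nx 481 41287 (.lg 0 false 3 89 89 19 0 8784) (.nr 482 257 (.lg 0 false 1 43 43 13 0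
  2928) .out)) .out))) .out) .out)) (.na 496 98 (.nx 495 82572 (.nr 494 524289 (.nr 487 97 .s1 (.nx
  488 647 (.l1 (.ls 67 31 4318)) (.nr 493 262145 (.nx 491 41287 (.lg 0 false 3 83 83 16 0 4392)
  (.nr 492 257 (.lg 0 true 1 37 37 16 0 1464) .out)) .out))) .out) .out) (.na 506 109 (.nx 505
  82572 (.nr 504 524289 (.nr 497 98 .s1 (.nx 498 647 (.l1 (.ls 71 43 4274)) (.nr 503 262145 (.nx
  501 41287 (.lg 0 false 3 89 89 23 0 307440) (.nr 502 257 (.lg 0 true 1 37 37 19 0 20496) .out))
  .out))) .out) .out) (.nx 515 82572 (.nr 514 524289 (.nr 507 109 .s1 (.nx 508 647 (.l1 (.ls 67 31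
  3843)) (.nr 513 262145 (.nx 511 41287 (.lg 0 false 3 83 83 16 0 153720) (.nr 512 257 (.lg 0 true
  1 31 31 16 0 51240) .out)) .out))) .out) .out))))) (.na 559 125 (.na 534 115 (.na 524 113 (.nx
  523 82572 (.nr 522 524289 (.nr 517 110 .s1 (.nx 520 6503 (.nx 518 647 (.l1 (.ls 73 47 3808)) (.nr
  519 262145 (.lg 0 false 1 79 79 29 0 161040) .out)) (.nr 521 65537 (.lg 1 false 1 83 83 29 22895
  161040) .out))) .out) .out) (.nx 533 82572 (.nr 532 524289 (.nr 525 113 .s1 (.nx 530 41287 (.nx
  526 647 (.l1 (.ls 67 31 3707)) (.nr 529 262145 (.lg 0 false 3 79 79 16 0 4392) .out)) (.nr 531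
  257 (.lg 0 true 1 31 31 16 0 1464) .out))) .out) .out)) (.na 542 118 (.nx 541 82572 (.nr 540
  524289 (.nr 535 115 .s1 (.nx 538 6503 (.nx 536 647 (.l1 (.ls 73 41 3643)) (.nr 537 262145 (.lg 0
  false 1 79 79 17 0 7320) .out)) (.nr 539 65537 (.lg 1 true 1 79 79 17 21900 7320) .out))) .out)
  .out) (.na 551 122 (.nx 550 82572 (.nr 549 524289 (.nr 543 118 .s1 (.nx 544 647 (.l1 (.ls 71 41
  3550)) (.nr 548 262145 (.nx 546 41287 (.lg 0 false 2 83 83 19 0 2928) (.nr 547 257 (.lg 0 true 1
  31 31 19 0 2928) .out)) .out))) .out) .out) (.nx 558 82572 (.nr 557 524289 (.nr 552 122 .s1 (.nx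
  553 647 (.l1 (.ls 67 41 3434)) (.nr 556 262145 (.lg 0 true 3 79 79 19 0 8784) .out))) .out)
  .out)))) (.na 568 130 (.na 567 128 (.nx 566 82572 (.nr 565 524289 (.nr 560 125 .s1 (.nx 561 647
  (.l1 (.ls 67 37 3351)) (.nr 564 262145 (.lg 0 false 3 83 83 17 0 21960) .out))) .out) .out) .ne)
  (.na 574 131 (.nx 573 41287 (.nr 572 1048577 (.nr 569 130 .s1 (.nx 570 647 (.l1 (.ls 83 47 3223))
  (.nr 571 131073 (.lg 0 true 1 101 101 29 0 43963920) .out))) .out) .out) (.na 575 134 (.lg 0
  false 1 0 0 16 0 24) (.nx 580 41287 (.nr 579 1048577 (.nr 576 134 .s1 (.nx 577 647 (.l1 (.ls 73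
  41 3126)) (.nr 578 131073 (.lg 0 true 1 83 83 19 0 2928) .out))) .out) .out))))))) (.na 676 227
  (.na 626 179 (.na 606 158 (.na 593 146 (.na 587 143 (.nx 586 41287 (.nr 585 1048577 (.nr 582 142
  .s1 (.nx 583 647 (.l1 (.ls 67 41 2950)) (.nr 584 131073 (.lg 0 true 1 83 83 19 0 14640) .out)))
  .out) .out) (.nx 592 41287 (.nr 591 1048577 (.nr 588 143 .s1 (.nx 589 647 (.l1 (.ls 79 41 2930))
  (.nr 590 131073 (.lg 0 true 1 89 89 19 0 7327320) .out))) .out) .out)) (.na 599 154 (.nx 598
  41287 (.nr 597 1048577 (.nr 594 146 .s1 (.nx 595 647 (.l1 (.ls 71 41 2870)) (.nr 596 131073 (.lg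
  0 true 1 83 83 19 0 2928) .out))) .out) .out) (.na 605 157 (.nx 604 41287 (.nr 603 1048577 (.nr
  600 154 .s1 (.nx 601 647 (.l1 (.ls 79 47 2721)) (.nr 602 131073 (.lg 0 true 1 89 89 31 0 1127280)
  .out))) .out) .out) (.lg 0 false 1 0 0 16 0 24)))) (.na 618 163 (.na 612 161 (.nx 611 41287 (.nr
  610 1048577 (.nr 607 158 .s1 (.nx 608 647 (.l1 (.ls 71 41 2652)) (.nr 609 131073 (.lg 0 true 1 83
  83 19 0 2928) .out))) .out) .out) (.nx 617 41287 (.nr 616 1048577 (.nr 613 161 .s1 (.nx 614 647
  (.l1 (.ls 79 41 2603)) (.nr 615 131073 (.lg 0 true 1 89 89 17 0 51240) .out))) .out) .out)) (.na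
  619 173 (.lg 0 false 1 0 0 16 0 24) (.na 620 175 (.lg 0 false 1 0 0 16 0 24) (.nx 625 41287 (.nr
  624 1048577 (.nr 621 175 .s1 (.nx 622 647 (.l1 (.ls 73 37 2395)) (.nr 623 131073 (.lg 0 false 1
  83 83 19 0 51240) .out))) .out) .out))))) (.na 646 205 (.na 633 191 (.na 627 182 (.lg 0 false 1 0
  0 16 0 24) (.nx 632 41287 (.nr 631 1048577 (.nr 628 182 .s1 (.nx 629 647 (.l1 (.ls 79 43 2303))
  (.nr 630 131073 (.lg 0 false 1 83 83 31 0 266448) .out))) .out) .out)) (.na 639 193 (.nx 638
  41287 (.nr 637 1048577 (.nr 634 191 .s1 (.nx 635 647 (.l1 (.ls 67 29 2194)) (.nr 636 131073 (.lg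
  0 true 1 71 71 16 0 1464) .out))) .out) .out) (.na 640 194 (.lg 0 false 1 0 0 16 0 24) (.nx 645
  41287 (.nr 644 1048577 (.nr 641 194 .s1 (.nx 642 647 (.l1 (.ls 67 41 2160)) (.nr 643 131073 (.lg
  0 true 1 73 73 19 0 2928) .out))) .out) .out)))) (.na 658 218 (.na 652 211 (.nx 651 41287 (.nr
  650 1048577 (.nr 647 205 .s1 (.nx 648 647 (.l1 (.ls 73 31 2044)) (.nr 649 131073 (.lg 0 false 1
  79 79 19 0 7320) .out))) .out) .out) (.nx 657 41287 (.nr 656 1048577 (.nr 653 211 .s1 (.nx 654
  647 (.l1 (.ls 67 29 1986)) (.nr 655 131073 (.lg 0 true 1 73 73 16 0 1464) .out))) .out) .out))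
  (.na 664 223 (.nx 663 41287 (.nr 662 1048577 (.nr 659 218 .s1 (.nx 660 647 (.l1 (.ls 67 37 1923))
  (.nr 661 131073 (.lg 0 true 1 73 73 23 0 2928) .out))) .out) .out) (.na 670 226 (.nx 669 41287
  (.nr 668 1048577 (.nr 665 223 .s1 (.nx 666 647 (.l1 (.ls 67 29 1880)) (.nr 667 131073 (.lg 0 true
  1 71 71 16 0 1464) .out))) .out) .out) (.nx 675 41287 (.nr 674 1048577 (.nr 671 226 .s1 (.nx 672
  647 (.l1 (.ls 67 37 1855)) (.nr 673 131073 (.lg 0 true 1 73 73 23 0 14640) .out))) .out)
  .out)))))) (.na 1312 725 (.na 701 250 (.na 688 239 (.na 682 230 (.nx 681 41287 (.nr 680 1048577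
  (.nr 677 227 .s1 (.nx 678 647 (.l1 (.ls 59 29 1847)) (.nr 679 131073 (.lg 0 true 1 71 71 17 0
  1464) .out))) .out) .out) (.nx 687 41287 (.nr 686 1048577 (.nr 683 230 .s1 (.nx 684 647 (.l1 (.ls
  79 43 1823)) (.nr 685 131073 (.lg 0 false 1 83 83 31 0 14640) .out))) .out) .out)) (.na 689 241
  (.lg 0 false 1 0 0 16 0 24) (.na 695 242 (.nx 694 41287 (.nr 693 1048577 (.nr 690 241 .s1 (.nx
  691 647 (.l1 (.ls 67 29 1739)) (.nr 692 131073 (.lg 0 true 1 71 71 17 0 1464) .out))) .out) .out)
  (.nx 700 41287 (.nr 699 1048577 (.nr 696 242 .s1 (.nx 697 647 (.l1 (.ls 71 41 1732)) (.nr 698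
  131073 (.lg 0 true 1 73 73 29 0 32208) .out))) .out) .out)))) (.na 713 256 (.na 707 253 (.nx 706
  41287 (.nr 705 1048577 (.nr 702 250 .s1 (.nx 703 647 (.l1 (.ls 67 41 1677)) (.nr 704 131073 (.lg
  0 true 1 73 73 29 0 14640) .out))) .out) .out) (.nx 712 41287 (.nr 711 1048577 (.nr 708 253 .s1
  (.nx 709 647 (.l1 (.ls 73 37 1657)) (.nr 710 131073 (.lg 0 false 1 79 79 19 0 16104) .out)))
  .out) .out)) (.na 714 257 .ne (.na 1034 512 (.nx 1033 41287 (.nr 1032 262145 (.nr 715 257 .s1
  (.nx 777 62 (.nx 776 61 (.nr 775 2840 (.lx (.lp 43 17 129)) (.l1 .sk)) (.l1 .sk)) (.la (.lg 0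
  false 1 73 73 23 0)))) .out) .out) (.nx 1311 41287 (.nr 1310 262145 (.nr 1035 512 .s1 (.nx 1096
  61 (.nr 1095 4021 (.lx (.lp 16 0 182)) (.l1 .sk)) (.nx 1097 62 (.l1 .sk) (.la (.lg 0 false 1 67
  67 23 0))))) .out) .out))))) (.na 2609 4096 (.na 1832 1449 (.na 1572 1024 (.nx 1571 257 (.nr 1570
  65537 (.nr 1313 725 .s1 (.nx 1441 129 (.lx (.lp 17 17 257)) (.nr 1569 8193 (.lx (.lp 43 23 257))
  .out))) .out) .out) (.nx 1831 257 (.nr 1830 65537 (.nr 1573 1024 .s1 (.nx 1675 103 (.lx (.lp 17 0
  363)) (.nr 1829 16385 (.lx (.lp 43 23 363)) .out))) .out) .out)) (.na 2091 2048 (.nx 2090 257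
  (.nr 2089 16385 (.nr 1833 1449 .s1 (.lx (.lp 41 29 513))) .out) .out) (.na 2350 2897 (.nx 2349
  257 (.nr 2348 32769 (.nr 2092 2048 .s1 (.lx (.lp 47 29 725))) .out) .out) (.nx 2608 257 (.nr 2607
  32769 (.nr 2351 2897 .s1 (.lx (.lp 43 31 1025))) .out) .out)))) (.na 2973 8192 (.na 2868 5793
  (.nx 2867 257 (.nr 2866 32769 (.nr 2610 4096 .s1 (.lx (.lp 43 31 1449))) .out) .out) (.nx 2972
  103 (.nr 2971 32769 (.nr 2869 5793 .s1 (.lx (.lp 16 0 2049))) .out) .out)) (.na 3078 16384 (.nx
  3077 103 (.nr 3076 32769 (.nr 2974 8192 .s1 (.lx (.lp 16 0 4097))) .out) .out) (.na 3080 32769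
  (.nx 3079 103 (.l1 .sk) .out) .out)))))))

theorem c88 :
    OkQ ckI L6 68 1 1099511627776 0 34359738368 1 1099511627776 ∧
    OkQ ckI L9 188 363 1099511627776 0 34359738368 1 1099511627776 ∧
    OkQ ckI L5 61 1 1099511627776 0 34359738368 1 1099511627776 := by
  refine ⟨?_, ?_, ?_⟩
  · refine fin 1224 7519 T88_0 ?_
    refine jn 7 (by decide +kernel) ?_
    refine jn 11 (by decide +kernel) ?_
    refine jn 14 (by decide +kernel) ?_
    refine jn 18 (by decide +kernel) ?_
    refine jn 22 (by decide +kernel) ?_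
    refine jn 25 (by decide +kernel) ?_
    refine jn 40 (by decide +kernel) ?_
    refine jn 48 (by decide +kernel) ?_
    refine jn 56 (by decide +kernel) ?_
    refine jn 66 (by decide +kernel) ?_
    refine jn 68 (by decide +kernel) ?_
    refine jn 75 (by decide +kernel) ?_
    refine jn 86 (by decide +kernel) ?_
    refine jn 97 (by decide +kernel) ?_
    refine jn 133 (by decide +kernel) ?_
    refine jn 140 (by decide +kernel) ?_
    refine jn 141 (by decide +kernel) ?_
    refine jn 142 (by decide +kernel) ?_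
    refine jn 143 (by decide +kernel) ?_
    refine jn 144 (by decide +kernel) ?_
    refine jn 145 (by decide +kernel) ?_
    refine jn 146 (by decide +kernel) ?_
    refine jn 147 (by decide +kernel) ?_
    refine jn 148 (by decide +kernel) ?_
    refine jn 149 (by decide +kernel) ?_
    refine jn 150 (by decide +kernel) ?_
    refine jn 165 (by decide +kernel) ?_
    refine jn 169 (by decide +kernel) ?_
    refine jn 170 (by decide +kernel) ?_
    refine jn 172 (by decide +kernel) ?_
    refine jn 174 (by decide +kernel) ?_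
    refine jn 176 (by decide +kernel) ?_
    refine jn 178 (by decide +kernel) ?_
    refine jn 180 (by decide +kernel) ?_
    refine jn 182 (by decide +kernel) ?_
    refine jn 187 (by decide +kernel) ?_
    refine jn 197 (by decide +kernel) ?_
    refine jn 202 (by decide +kernel) ?_
    refine jn 204 (by decide +kernel) ?_
    refine jn 210 (by decide +kernel) ?_
    refine jn 239 (by decide +kernel) ?_
    refine jn 249 (by decide +kernel) ?_
    refine jn 257 (by decide +kernel) ?_
    refine jn 258 (by decide +kernel) ?_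
    refine jn 259 (by decide +kernel) ?_
    refine jn 260 (by decide +kernel) ?_
    refine jn 261 (by decide +kernel) ?_
    refine jn 262 (by decide +kernel) ?_
    refine jn 265 (by decide +kernel) ?_
    refine jn 268 (by decide +kernel) ?_
    refine jn 271 (by decide +kernel) ?_
    refine jn 272 (by decide +kernel) ?_
    refine jn 274 (by decide +kernel) ?_
    refine jn 279 (by decide +kernel) ?_
    refine jn 293 (by decide +kernel) ?_
    refine jn 294 (by decide +kernel) ?_
    refine jn 295 (by decide +kernel) ?_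
    refine jn 296 (by decide +kernel) ?_
    refine jn 297 (by decide +kernel) ?_
    refine jn 298 (by decide +kernel) ?_
    refine jn 299 (by decide +kernel) ?_
    refine jn 300 (by decide +kernel) ?_
    refine jn 305 (by decide +kernel) ?_
    refine jn 307 (by decide +kernel) ?_
    refine jn 308 (by decide +kernel) ?_
    refine jn 309 (by decide +kernel) ?_
    refine jn 310 (by decide +kernel) ?_
    refine jn 311 (by decide +kernel) ?_
    refine jn 312 (by decide +kernel) ?_
    refine jn 314 (by decide +kernel) ?_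
    refine jn 315 (by decide +kernel) ?_
    refine jn 316 (by decide +kernel) ?_
    refine jn 318 (by decide +kernel) ?_
    refine jn 324 (by decide +kernel) ?_
    refine jn 326 (by decide +kernel) ?_
    refine jn 333 (by decide +kernel) ?_
    refine jn 335 (by decide +kernel) ?_
    refine jn 337 (by decide +kernel) ?_
    refine jn 343 (by decide +kernel) ?_
    refine jn 349 (by decide +kernel) ?_
    refine jn 354 (by decide +kernel) ?_
    refine jn 359 (by decide +kernel) ?_
    refine jn 369 (by decide +kernel) ?_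
    refine jn 373 (by decide +kernel) ?_
    refine jn 375 (by decide +kernel) ?_
    refine jn 378 (by decide +kernel) ?_
    refine jn 379 (by decide +kernel) ?_
    refine jn 380 (by decide +kernel) ?_
    refine jn 381 (by decide +kernel) ?_
    refine jn 386 (by decide +kernel) ?_
    refine jn 387 (by decide +kernel) ?_
    refine jn 388 (by decide +kernel) ?_
    refine jn 389 (by decide +kernel) ?_
    refine jn 390 (by decide +kernel) ?_
    refine jn 391 (by decide +kernel) ?_
    refine jn 404 (by decide +kernel) ?_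
    refine jn 405 (by decide +kernel) ?_
    refine jn 410 (by decide +kernel) ?_
    refine jn 416 (by decide +kernel) ?_
    refine jn 420 (by decide +kernel) ?_
    refine jn 432 (by decide +kernel) ?_
    refine jn 437 (by decide +kernel) ?_
    refine jn 442 (by decide +kernel) ?_
    refine jn 453 (by decide +kernel) ?_
    refine jn 454 (by decide +kernel) ?_
    refine jn 455 (by decide +kernel) ?_
    refine jn 456 (by decide +kernel) ?_
    refine jn 457 (by decide +kernel) ?_
    refine jn 458 (by decide +kernel) ?_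
    refine jn 461 (by decide +kernel) ?_
    refine jn 462 (by decide +kernel) ?_
    refine jn 463 (by decide +kernel) ?_
    refine jn 478 (by decide +kernel) ?_
    refine jn 493 (by decide +kernel) ?_
    refine jn 494 (by decide +kernel) ?_
    refine jn 496 (by decide +kernel) ?_
    refine jn 497 (by decide +kernel) ?_
    refine jn 498 (by decide +kernel) ?_
    refine jn 500 (by decide +kernel) ?_
    refine jn 501 (by decide +kernel) ?_
    refine jn 503 (by decide +kernel) ?_
    refine jn 511 (by decide +kernel) ?_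
    refine jn 512 (by decide +kernel) ?_
    refine jn 513 (by decide +kernel) ?_
    refine jn 515 (by decide +kernel) ?_
    refine jn 517 (by decide +kernel) ?_
    refine jn 527 (by decide +kernel) ?_
    refine jn 529 (by decide +kernel) ?_
    refine jn 530 (by decide +kernel) ?_
    refine jn 532 (by decide +kernel) ?_
    refine jn 534 (by decide +kernel) ?_
    refine jn 547 (by decide +kernel) ?_
    refine jn 551 (by decide +kernel) ?_
    refine jn 559 (by decide +kernel) ?_
    refine jn 560 (by decide +kernel) ?_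
    refine jn 561 (by decide +kernel) ?_
    refine jn 563 (by decide +kernel) ?_
    refine jn 572 (by decide +kernel) ?_
    refine jn 580 (by decide +kernel) ?_
    refine jn 592 (by decide +kernel) ?_
    refine jn 600 (by decide +kernel) ?_
    refine jn 605 (by decide +kernel) ?_
    refine jn 607 (by decide +kernel) ?_
    refine jn 619 (by decide +kernel) ?_
    refine jn 631 (by decide +kernel) ?_
    refine jn 633 (by decide +kernel) ?_
    refine jn 635 (by decide +kernel) ?_
    refine jn 644 (by decide +kernel) ?_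
    refine jn 645 (by decide +kernel) ?_
    refine jn 646 (by decide +kernel) ?_
    refine jn 648 (by decide +kernel) ?_
    refine jn 658 (by decide +kernel) ?_
    refine jn 659 (by decide +kernel) ?_
    refine jn 670 (by decide +kernel) ?_
    refine jn 681 (by decide +kernel) ?_
    refine jn 692 (by decide +kernel) ?_
    refine jn 702 (by decide +kernel) ?_
    refine jn 704 (by decide +kernel) ?_
    refine jn 714 (by decide +kernel) ?_
    refine jn 724 (by decide +kernel) ?_
    refine jn 726 (by decide +kernel) ?_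
    refine jn 734 (by decide +kernel) ?_
    refine jn 736 (by decide +kernel) ?_
    refine jn 744 (by decide +kernel) ?_
    refine jn 755 (by decide +kernel) ?_
    refine jn 764 (by decide +kernel) ?_
    refine jn 772 (by decide +kernel) ?_
    refine jn 774 (by decide +kernel) ?_
    refine jn 783 (by decide +kernel) ?_
    refine jn 798 (by decide +kernel) ?_
    refine jn 807 (by decide +kernel) ?_
    refine jn 815 (by decide +kernel) ?_
    refine jn 823 (by decide +kernel) ?_
    refine jn 831 (by decide +kernel) ?_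
    refine jn 846 (by decide +kernel) ?_
    refine jn 855 (by decide +kernel) ?_
    refine jn 870 (by decide +kernel) ?_
    refine jn 879 (by decide +kernel) ?_
    refine jn 893 (by decide +kernel) ?_
    refine jn 895 (by decide +kernel) ?_
    refine jn 938 (by decide +kernel) ?_
    refine jn 962 (by decide +kernel) ?_
    refine jn 1008 (by decide +kernel) ?_
    refine jn 1040 (by decide +kernel) ?_
    refine jn 1086 (by decide +kernel) ?_
    refine jn 1130 (by decide +kernel) ?_
    refine jn 1175 (by decide +kernel) ?_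
    refine jn 1176 (by decide +kernel) ?_
    refine jn 1185 (by decide +kernel) ?_
    refine jn 1197 (by decide +kernel) ?_
    refine jn 1207 (by decide +kernel) ?_
    refine jn 1208 (by decide +kernel) ?_
    refine jn 1217 (by decide +kernel) ?_
    refine jn 1223 (by decide +kernel) ?_
    refine jn 1233 (by decide +kernel) ?_
    refine jn 1255 (by decide +kernel) ?_
    refine jn 1263 (by decide +kernel) ?_
    refine jn 1271 (by decide +kernel) ?_
    refine jn 1273 (by decide +kernel) ?_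
    refine jn 1295 (by decide +kernel) ?_
    refine jn 1297 (by decide +kernel) ?_
    refine jn 1313 (by decide +kernel) ?_
    refine jn 1325 (by decide +kernel) ?_
    refine jn 1333 (by decide +kernel) ?_
    refine jn 1353 (by decide +kernel) ?_
    refine jn 1361 (by decide +kernel) ?_
    refine jn 1367 (by decide +kernel) ?_
    refine jn 1373 (by decide +kernel) ?_
    refine jn 1383 (by decide +kernel) ?_
    refine jn 1405 (by decide +kernel) ?_
    refine jn 1451 (by decide +kernel) ?_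
    refine jn 1499 (by decide +kernel) ?_
    refine jn 1555 (by decide +kernel) ?_
    refine jn 1630 (by decide +kernel) ?_
    refine jn 1658 (by decide +kernel) ?_
    refine jn 1664 (by decide +kernel) ?_
    refine jn 1674 (by decide +kernel) ?_
    refine jn 1688 (by decide +kernel) ?_
    refine jn 1702 (by decide +kernel) ?_
    refine jn 1704 (by decide +kernel) ?_
    refine jn 1710 (by decide +kernel) ?_
    refine jn 1714 (by decide +kernel) ?_
    refine jn 1728 (by decide +kernel) ?_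
    refine jn 1750 (by decide +kernel) ?_
    refine jn 1758 (by decide +kernel) ?_
    refine jn 1760 (by decide +kernel) ?_
    refine jn 1768 (by decide +kernel) ?_
    refine jn 1792 (by decide +kernel) ?_
    refine jn 1803 (by decide +kernel) ?_
    refine jn 1822 (by decide +kernel) ?_
    refine jn 1862 (by decide +kernel) ?_
    refine jn 1902 (by decide +kernel) ?_
    refine jn 1948 (by decide +kernel) ?_
    refine jn 1972 (by decide +kernel) ?_
    refine jn 1988 (by decide +kernel) ?_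
    refine jn 2028 (by decide +kernel) ?_
    refine jn 2044 (by decide +kernel) ?_
    refine jn 2068 (by decide +kernel) ?_
    refine jn 2098 (by decide +kernel) ?_
    refine jn 2138 (by decide +kernel) ?_
    refine jn 2314 (by decide +kernel) ?_
    refine jn 2340 (by decide +kernel) ?_
    refine jn 2380 (by decide +kernel) ?_
    refine jn 2436 (by decide +kernel) ?_
    refine jn 2498 (by decide +kernel) ?_
    refine jn 2562 (by decide +kernel) ?_
    refine jn 2610 (by decide +kernel) ?_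
    refine jn 2646 (by decide +kernel) ?_
    refine jn 2780 (by decide +kernel) ?_
    refine jn 2860 (by decide +kernel) ?_
    refine jn 2950 (by decide +kernel) ?_
    refine jn 3012 (by decide +kernel) ?_
    refine jn 3090 (by decide +kernel) ?_
    refine jn 3190 (by decide +kernel) ?_
    refine jn 3254 (by decide +kernel) ?_
    refine jn 3342 (by decide +kernel) ?_
    refine jn 3486 (by decide +kernel) ?_
    refine jn 3594 (by decide +kernel) ?_
    refine jn 3694 (by decide +kernel) ?_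
    refine jn 3786 (by decide +kernel) ?_
    refine jn 3894 (by decide +kernel) ?_
    refine jn 3974 (by decide +kernel) ?_
    refine jn 4110 (by decide +kernel) ?_
    refine jn 4196 (by decide +kernel) ?_
    refine jn 4430 (by decide +kernel) ?_
    refine jn 4669 (by decide +kernel) ?_
    refine jn 4793 (by decide +kernel) ?_
    refine jn 4892 (by decide +kernel) ?_
    refine jn 5167 (by decide +kernel) ?_
    refine jn 5307 (by decide +kernel) ?_
    refine jn 5413 (by decide +kernel) ?_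
    refine jn 5491 (by decide +kernel) ?_
    refine jn 5559 (by decide +kernel) ?_
    refine jn 5873 (by decide +kernel) ?_
    refine jn 6015 (by decide +kernel) ?_
    refine jn 6106 (by decide +kernel) ?_
    refine jn 6202 (by decide +kernel) ?_
    refine jn 6541 (by decide +kernel) ?_
    refine jn 6746 (by decide +kernel) ?_
    refine jn 6867 (by decide +kernel) ?_
    refine jn 7193 (by decide +kernel) ?_
    exact je (by decide +kernel)
  · refine fin 3384 15944 T88_1 ?_
    refine jn 32 (by decide +kernel) ?_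
    refine jn 82 (by decide +kernel) ?_
    refine jn 124 (by decide +kernel) ?_
    refine jn 158 (by decide +kernel) ?_
    refine jn 165 (by decide +kernel) ?_
    refine jn 170 (by decide +kernel) ?_
    refine jn 171 (by decide +kernel) ?_
    refine jn 172 (by decide +kernel) ?_
    refine jn 180 (by decide +kernel) ?_
    refine jn 188 (by decide +kernel) ?_
    refine jn 195 (by decide +kernel) ?_
    refine jn 199 (by decide +kernel) ?_
    refine jn 210 (by decide +kernel) ?_
    refine jn 213 (by decide +kernel) ?_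
    refine jn 218 (by decide +kernel) ?_
    refine jn 219 (by decide +kernel) ?_
    refine jn 226 (by decide +kernel) ?_
    refine jn 231 (by decide +kernel) ?_
    refine jn 234 (by decide +kernel) ?_
    refine jn 235 (by decide +kernel) ?_
    refine jn 236 (by decide +kernel) ?_
    refine jn 258 (by decide +kernel) ?_
    refine jn 261 (by decide +kernel) ?_
    refine jn 263 (by decide +kernel) ?_
    refine jn 264 (by decide +kernel) ?_
    refine jn 269 (by decide +kernel) ?_
    refine jn 275 (by decide +kernel) ?_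
    refine jn 284 (by decide +kernel) ?_
    refine jn 289 (by decide +kernel) ?_
    refine jn 291 (by decide +kernel) ?_
    refine jn 302 (by decide +kernel) ?_
    refine jn 307 (by decide +kernel) ?_
    refine jn 312 (by decide +kernel) ?_
    refine jn 314 (by decide +kernel) ?_
    refine jn 315 (by decide +kernel) ?_
    refine jn 319 (by decide +kernel) ?_
    refine jn 320 (by decide +kernel) ?_
    refine jn 321 (by decide +kernel) ?_
    refine jn 328 (by decide +kernel) ?_
    refine jn 329 (by decide +kernel) ?_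
    refine jn 330 (by decide +kernel) ?_
    refine jn 337 (by decide +kernel) ?_
    refine jn 340 (by decide +kernel) ?_
    refine jn 344 (by decide +kernel) ?_
    refine jn 345 (by decide +kernel) ?_
    refine jn 349 (by decide +kernel) ?_
    refine jn 359 (by decide +kernel) ?_
    refine jn 360 (by decide +kernel) ?_
    refine jn 362 (by decide +kernel) ?_
    refine jn 363 (by decide +kernel) ?_
    refine jn 367 (by decide +kernel) ?_
    refine jn 368 (by decide +kernel) ?_
    refine jn 375 (by decide +kernel) ?_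
    refine jn 377 (by decide +kernel) ?_
    refine jn 380 (by decide +kernel) ?_
    refine jn 383 (by decide +kernel) ?_
    refine jn 384 (by decide +kernel) ?_
    refine jn 385 (by decide +kernel) ?_
    refine jn 395 (by decide +kernel) ?_
    refine jn 407 (by decide +kernel) ?_
    refine jn 408 (by decide +kernel) ?_
    refine jn 410 (by decide +kernel) ?_
    refine jn 412 (by decide +kernel) ?_
    refine jn 413 (by decide +kernel) ?_
    refine jn 414 (by decide +kernel) ?_
    refine jn 418 (by decide +kernel) ?_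
    refine jn 423 (by decide +kernel) ?_
    refine jn 424 (by decide +kernel) ?_
    refine jn 427 (by decide +kernel) ?_
    refine jn 433 (by decide +kernel) ?_
    refine jn 434 (by decide +kernel) ?_
    refine jn 438 (by decide +kernel) ?_
    refine jn 440 (by decide +kernel) ?_
    refine jn 470 (by decide +kernel) ?_
    refine jn 544 (by decide +kernel) ?_
    refine jn 604 (by decide +kernel) ?_
    refine jn 709 (by decide +kernel) ?_
    refine jn 710 (by decide +kernel) ?_
    refine jn 711 (by decide +kernel) ?_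
    refine jn 719 (by decide +kernel) ?_
    refine jn 724 (by decide +kernel) ?_
    refine jn 736 (by decide +kernel) ?_
    refine jn 742 (by decide +kernel) ?_
    refine jn 743 (by decide +kernel) ?_
    refine jn 762 (by decide +kernel) ?_
    refine jn 766 (by decide +kernel) ?_
    refine jn 774 (by decide +kernel) ?_
    refine jn 775 (by decide +kernel) ?_
    refine jn 786 (by decide +kernel) ?_
    refine jn 789 (by decide +kernel) ?_
    refine jn 790 (by decide +kernel) ?_
    refine jn 794 (by decide +kernel) ?_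
    refine jn 810 (by decide +kernel) ?_
    refine jn 811 (by decide +kernel) ?_
    refine jn 816 (by decide +kernel) ?_
    refine jn 826 (by decide +kernel) ?_
    refine jn 830 (by decide +kernel) ?_
    refine jn 834 (by decide +kernel) ?_
    refine jn 837 (by decide +kernel) ?_
    refine jn 846 (by decide +kernel) ?_
    refine jn 857 (by decide +kernel) ?_
    refine jn 862 (by decide +kernel) ?_
    refine jn 870 (by decide +kernel) ?_
    refine jn 871 (by decide +kernel) ?_
    refine jn 884 (by decide +kernel) ?_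
    refine jn 904 (by decide +kernel) ?_
    refine jn 906 (by decide +kernel) ?_
    refine jn 907 (by decide +kernel) ?_
    refine jn 912 (by decide +kernel) ?_
    refine jn 915 (by decide +kernel) ?_
    refine jn 921 (by decide +kernel) ?_
    refine jn 923 (by decide +kernel) ?_
    refine jn 924 (by decide +kernel) ?_
    refine jn 932 (by decide +kernel) ?_
    refine jn 935 (by decide +kernel) ?_
    refine jn 942 (by decide +kernel) ?_
    refine jn 949 (by decide +kernel) ?_
    refine jn 953 (by decide +kernel) ?_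
    refine jn 955 (by decide +kernel) ?_
    refine jn 956 (by decide +kernel) ?_
    refine jn 965 (by decide +kernel) ?_
    refine jn 977 (by decide +kernel) ?_
    refine jn 979 (by decide +kernel) ?_
    refine jn 984 (by decide +kernel) ?_
    refine jn 987 (by decide +kernel) ?_
    refine jn 988 (by decide +kernel) ?_
    refine jn 993 (by decide +kernel) ?_
    refine jn 999 (by decide +kernel) ?_
    refine jn 1002 (by decide +kernel) ?_
    refine jn 1003 (by decide +kernel) ?_
    refine jn 1007 (by decide +kernel) ?_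
    refine jn 1017 (by decide +kernel) ?_
    refine jn 1023 (by decide +kernel) ?_
    refine jn 1024 (by decide +kernel) ?_
    refine jn 1028 (by decide +kernel) ?_
    refine jn 1030 (by decide +kernel) ?_
    refine jn 1039 (by decide +kernel) ?_
    refine jn 1043 (by decide +kernel) ?_
    refine jn 1047 (by decide +kernel) ?_
    refine jn 1050 (by decide +kernel) ?_
    refine jn 1058 (by decide +kernel) ?_
    refine jn 1064 (by decide +kernel) ?_
    refine jn 1070 (by decide +kernel) ?_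
    refine jn 1073 (by decide +kernel) ?_
    refine jn 1077 (by decide +kernel) ?_
    refine jn 1083 (by decide +kernel) ?_
    refine jn 1084 (by decide +kernel) ?_
    refine jn 1094 (by decide +kernel) ?_
    refine jn 1103 (by decide +kernel) ?_
    refine jn 1117 (by decide +kernel) ?_
    refine jn 1119 (by decide +kernel) ?_
    refine jn 1120 (by decide +kernel) ?_
    refine jn 1123 (by decide +kernel) ?_
    refine jn 1125 (by decide +kernel) ?_
    refine jn 1128 (by decide +kernel) ?_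
    refine jn 1132 (by decide +kernel) ?_
    refine jn 1148 (by decide +kernel) ?_
    refine jn 1172 (by decide +kernel) ?_
    refine jn 1184 (by decide +kernel) ?_
    refine jn 1187 (by decide +kernel) ?_
    refine jn 1205 (by decide +kernel) ?_
    refine jn 1232 (by decide +kernel) ?_
    refine jn 1249 (by decide +kernel) ?_
    refine jn 1278 (by decide +kernel) ?_
    refine jn 1304 (by decide +kernel) ?_
    refine jn 1312 (by decide +kernel) ?_
    refine jn 1325 (by decide +kernel) ?_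
    refine jn 1360 (by decide +kernel) ?_
    refine jn 1380 (by decide +kernel) ?_
    refine jn 1410 (by decide +kernel) ?_
    refine jn 1424 (by decide +kernel) ?_
    refine jn 1447 (by decide +kernel) ?_
    refine jn 1462 (by decide +kernel) ?_
    refine jn 1471 (by decide +kernel) ?_
    refine jn 1481 (by decide +kernel) ?_
    refine jn 1483 (by decide +kernel) ?_
    refine jn 1484 (by decide +kernel) ?_
    refine jn 1499 (by decide +kernel) ?_
    refine jn 1509 (by decide +kernel) ?_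
    refine jn 1523 (by decide +kernel) ?_
    refine jn 1531 (by decide +kernel) ?_
    refine jn 1532 (by decide +kernel) ?_
    refine jn 1548 (by decide +kernel) ?_
    refine jn 1564 (by decide +kernel) ?_
    refine jn 1577 (by decide +kernel) ?_
    refine jn 1582 (by decide +kernel) ?_
    refine jn 1603 (by decide +kernel) ?_
    refine jn 1611 (by decide +kernel) ?_
    refine jn 1612 (by decide +kernel) ?_
    refine jn 1632 (by decide +kernel) ?_
    refine jn 1652 (by decide +kernel) ?_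
    refine jn 1663 (by decide +kernel) ?_
    refine jn 1669 (by decide +kernel) ?_
    refine jn 1687 (by decide +kernel) ?_
    refine jn 1697 (by decide +kernel) ?_
    refine jn 1711 (by decide +kernel) ?_
    refine jn 1723 (by decide +kernel) ?_
    refine jn 1724 (by decide +kernel) ?_
    refine jn 1748 (by decide +kernel) ?_
    refine jn 1765 (by decide +kernel) ?_
    refine jn 1787 (by decide +kernel) ?_
    refine jn 1807 (by decide +kernel) ?_
    refine jn 1825 (by decide +kernel) ?_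
    refine jn 1851 (by decide +kernel) ?_
    refine jn 1871 (by decide +kernel) ?_
    refine jn 1875 (by decide +kernel) ?_
    refine jn 1901 (by decide +kernel) ?_
    refine jn 1922 (by decide +kernel) ?_
    refine jn 1945 (by decide +kernel) ?_
    refine jn 1965 (by decide +kernel) ?_
    refine jn 1991 (by decide +kernel) ?_
    refine jn 2015 (by decide +kernel) ?_
    refine jn 2042 (by decide +kernel) ?_
    refine jn 2063 (by decide +kernel) ?_
    refine jn 2067 (by decide +kernel) ?_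
    refine jn 2103 (by decide +kernel) ?_
    refine jn 2137 (by decide +kernel) ?_
    refine jn 2152 (by decide +kernel) ?_
    refine jn 2168 (by decide +kernel) ?_
    refine jn 2180 (by decide +kernel) ?_
    refine jn 2186 (by decide +kernel) ?_
    refine jn 2203 (by decide +kernel) ?_
    refine jn 2215 (by decide +kernel) ?_
    refine jn 2232 (by decide +kernel) ?_
    refine jn 2233 (by decide +kernel) ?_
    refine jn 2253 (by decide +kernel) ?_
    refine jn 2273 (by decide +kernel) ?_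
    refine jn 2286 (by decide +kernel) ?_
    refine jn 2296 (by decide +kernel) ?_
    refine jn 2297 (by decide +kernel) ?_
    refine jn 2320 (by decide +kernel) ?_
    refine jn 2328 (by decide +kernel) ?_
    refine jn 2337 (by decide +kernel) ?_
    refine jn 2356 (by decide +kernel) ?_
    refine jn 2370 (by decide +kernel) ?_
    refine jn 2382 (by decide +kernel) ?_
    refine jn 2402 (by decide +kernel) ?_
    refine jn 2416 (by decide +kernel) ?_
    refine jn 2427 (by decide +kernel) ?_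
    refine jn 2445 (by decide +kernel) ?_
    refine jn 2466 (by decide +kernel) ?_
    refine jn 2476 (by decide +kernel) ?_
    refine jn 2488 (by decide +kernel) ?_
    refine jn 2489 (by decide +kernel) ?_
    refine jn 2516 (by decide +kernel) ?_
    refine jn 2543 (by decide +kernel) ?_
    refine jn 2560 (by decide +kernel) ?_
    refine jn 2572 (by decide +kernel) ?_
    refine jn 2573 (by decide +kernel) ?_
    refine jn 2591 (by decide +kernel) ?_
    refine jn 2614 (by decide +kernel) ?_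
    refine jn 2637 (by decide +kernel) ?_
    refine jn 2652 (by decide +kernel) ?_
    refine jn 2661 (by decide +kernel) ?_
    refine jn 2684 (by decide +kernel) ?_
    refine jn 2685 (by decide +kernel) ?_
    refine jn 2702 (by decide +kernel) ?_
    refine jn 2716 (by decide +kernel) ?_
    refine jn 2724 (by decide +kernel) ?_
    refine jn 2746 (by decide +kernel) ?_
    refine jn 2764 (by decide +kernel) ?_
    refine jn 2780 (by decide +kernel) ?_
    refine jn 2781 (by decide +kernel) ?_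
    refine jn 2800 (by decide +kernel) ?_
    refine jn 2810 (by decide +kernel) ?_
    refine jn 2840 (by decide +kernel) ?_
    refine jn 2849 (by decide +kernel) ?_
    refine jn 2861 (by decide +kernel) ?_
    refine jn 2876 (by decide +kernel) ?_
    refine jn 2889 (by decide +kernel) ?_
    refine jn 2904 (by decide +kernel) ?_
    refine jn 2924 (by decide +kernel) ?_
    refine jn 2936 (by decide +kernel) ?_
    refine jn 2940 (by decide +kernel) ?_
    refine jn 2941 (by decide +kernel) ?_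
    refine jn 2971 (by decide +kernel) ?_
    refine jn 2989 (by decide +kernel) ?_
    refine jn 3009 (by decide +kernel) ?_
    refine jn 3032 (by decide +kernel) ?_
    refine jn 3037 (by decide +kernel) ?_
    refine jn 3052 (by decide +kernel) ?_
    refine jn 3060 (by decide +kernel) ?_
    refine jn 3082 (by decide +kernel) ?_
    refine jn 3100 (by decide +kernel) ?_
    refine jn 3122 (by decide +kernel) ?_
    refine jn 3136 (by decide +kernel) ?_
    refine jn 3155 (by decide +kernel) ?_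
    refine jn 3170 (by decide +kernel) ?_
    refine jn 3190 (by decide +kernel) ?_
    refine jn 3214 (by decide +kernel) ?_
    refine jn 3233 (by decide +kernel) ?_
    refine jn 3253 (by decide +kernel) ?_
    refine jn 3278 (by decide +kernel) ?_
    refine jn 3293 (by decide +kernel) ?_
    refine jn 3314 (by decide +kernel) ?_
    refine jn 3327 (by decide +kernel) ?_
    refine jn 3328 (by decide +kernel) ?_
    refine jn 3350 (by decide +kernel) ?_
    refine jn 3377 (by decide +kernel) ?_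
    refine jn 3407 (by decide +kernel) ?_
    refine jn 3420 (by decide +kernel) ?_
    refine jn 3443 (by decide +kernel) ?_
    refine jn 3455 (by decide +kernel) ?_
    refine jn 3458 (by decide +kernel) ?_
    refine jn 3479 (by decide +kernel) ?_
    refine jn 3503 (by decide +kernel) ?_
    refine jn 3515 (by decide +kernel) ?_
    refine jn 3525 (by decide +kernel) ?_
    refine jn 3554 (by decide +kernel) ?_
    refine jn 3575 (by decide +kernel) ?_
    refine jn 3599 (by decide +kernel) ?_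
    refine jn 3619 (by decide +kernel) ?_
    refine jn 3632 (by decide +kernel) ?_
    refine jn 3663 (by decide +kernel) ?_
    refine jn 3684 (by decide +kernel) ?_
    refine jn 3707 (by decide +kernel) ?_
    refine jn 3739 (by decide +kernel) ?_
    refine jn 3753 (by decide +kernel) ?_
    refine jn 3785 (by decide +kernel) ?_
    refine jn 3807 (by decide +kernel) ?_
    refine jn 3832 (by decide +kernel) ?_
    refine jn 3839 (by decide +kernel) ?_
    refine jn 3840 (by decide +kernel) ?_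
    refine jn 3872 (by decide +kernel) ?_
    refine jn 3902 (by decide +kernel) ?_
    refine jn 3924 (by decide +kernel) ?_
    refine jn 3955 (by decide +kernel) ?_
    refine jn 3983 (by decide +kernel) ?_
    refine jn 3999 (by decide +kernel) ?_
    refine jn 4013 (by decide +kernel) ?_
    refine jn 4042 (by decide +kernel) ?_
    refine jn 4082 (by decide +kernel) ?_
    refine jn 4122 (by decide +kernel) ?_
    refine jn 4162 (by decide +kernel) ?_
    refine jn 4197 (by decide +kernel) ?_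
    refine jn 4227 (by decide +kernel) ?_
    refine jn 4265 (by decide +kernel) ?_
    refine jn 4298 (by decide +kernel) ?_
    refine jn 4345 (by decide +kernel) ?_
    refine jn 4386 (by decide +kernel) ?_
    refine jn 4418 (by decide +kernel) ?_
    refine jn 4450 (by decide +kernel) ?_
    refine jn 4481 (by decide +kernel) ?_
    refine jn 4528 (by decide +kernel) ?_
    refine jn 4563 (by decide +kernel) ?_
    refine jn 4610 (by decide +kernel) ?_
    refine jn 4646 (by decide +kernel) ?_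
    refine jn 4697 (by decide +kernel) ?_
    refine jn 4735 (by decide +kernel) ?_
    refine jn 4777 (by decide +kernel) ?_
    refine jn 4822 (by decide +kernel) ?_
    refine jn 4862 (by decide +kernel) ?_
    refine jn 4917 (by decide +kernel) ?_
    refine jn 4946 (by decide +kernel) ?_
    refine jn 4977 (by decide +kernel) ?_
    refine jn 5027 (by decide +kernel) ?_
    refine jn 5063 (by decide +kernel) ?_
    refine jn 5120 (by decide +kernel) ?_
    refine jn 5165 (by decide +kernel) ?_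
    refine jn 5186 (by decide +kernel) ?_
    refine jn 5228 (by decide +kernel) ?_
    refine jn 5442 (by decide +kernel) ?_
    refine jn 5490 (by decide +kernel) ?_
    refine jn 5535 (by decide +kernel) ?_
    refine jn 5588 (by decide +kernel) ?_
    refine jn 5630 (by decide +kernel) ?_
    refine jn 5674 (by decide +kernel) ?_
    refine jn 5718 (by decide +kernel) ?_
    refine jn 5770 (by decide +kernel) ?_
    refine jn 5819 (by decide +kernel) ?_
    refine jn 5864 (by decide +kernel) ?_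
    refine jn 5912 (by decide +kernel) ?_
    refine jn 5958 (by decide +kernel) ?_
    refine jn 6007 (by decide +kernel) ?_
    refine jn 6062 (by decide +kernel) ?_
    refine jn 6099 (by decide +kernel) ?_
    refine jn 6154 (by decide +kernel) ?_
    refine jn 6203 (by decide +kernel) ?_
    refine jn 6258 (by decide +kernel) ?_
    refine jn 6302 (by decide +kernel) ?_
    refine jn 6349 (by decide +kernel) ?_
    refine jn 6407 (by decide +kernel) ?_
    refine jn 6458 (by decide +kernel) ?_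
    refine jn 6517 (by decide +kernel) ?_
    refine jn 6564 (by decide +kernel) ?_
    refine jn 6614 (by decide +kernel) ?_
    refine jn 6664 (by decide +kernel) ?_
    refine jn 6718 (by decide +kernel) ?_
    refine jn 6755 (by decide +kernel) ?_
    refine jn 6812 (by decide +kernel) ?_
    refine jn 6863 (by decide +kernel) ?_
    refine jn 6920 (by decide +kernel) ?_
    refine jn 6992 (by decide +kernel) ?_
    refine jn 7025 (by decide +kernel) ?_
    refine jn 7060 (by decide +kernel) ?_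
    refine jn 7128 (by decide +kernel) ?_
    refine jn 7345 (by decide +kernel) ?_
    refine jn 7486 (by decide +kernel) ?_
    refine jn 7602 (by decide +kernel) ?_
    refine jn 7738 (by decide +kernel) ?_
    refine jn 7802 (by decide +kernel) ?_
    refine jn 7834 (by decide +kernel) ?_
    refine jn 7899 (by decide +kernel) ?_
    refine jn 7956 (by decide +kernel) ?_
    refine jn 8022 (by decide +kernel) ?_
    refine jn 8106 (by decide +kernel) ?_
    refine jn 8177 (by decide +kernel) ?_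
    refine jn 8229 (by decide +kernel) ?_
    refine jn 8292 (by decide +kernel) ?_
    refine jn 8348 (by decide +kernel) ?_
    refine jn 8401 (by decide +kernel) ?_
    refine jn 8430 (by decide +kernel) ?_
    refine jn 8787 (by decide +kernel) ?_
    refine jn 8921 (by decide +kernel) ?_
    refine jn 9057 (by decide +kernel) ?_
    refine jn 9194 (by decide +kernel) ?_
    refine jn 9257 (by decide +kernel) ?_
    refine jn 9346 (by decide +kernel) ?_
    refine jn 9418 (by decide +kernel) ?_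
    refine jn 9480 (by decide +kernel) ?_
    refine jn 9529 (by decide +kernel) ?_
    refine jn 9592 (by decide +kernel) ?_
    refine jn 9649 (by decide +kernel) ?_
    refine jn 9697 (by decide +kernel) ?_
    refine jn 10022 (by decide +kernel) ?_
    refine jn 10172 (by decide +kernel) ?_
    refine jn 10321 (by decide +kernel) ?_
    refine jn 10432 (by decide +kernel) ?_
    refine jn 10552 (by decide +kernel) ?_
    refine jn 10628 (by decide +kernel) ?_
    refine jn 10736 (by decide +kernel) ?_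
    refine jn 10825 (by decide +kernel) ?_
    refine jn 10940 (by decide +kernel) ?_
    refine jn 11020 (by decide +kernel) ?_
    refine jn 11320 (by decide +kernel) ?_
    refine jn 11406 (by decide +kernel) ?_
    refine jn 11514 (by decide +kernel) ?_
    refine jn 11631 (by decide +kernel) ?_
    refine jn 11713 (by decide +kernel) ?_
    refine jn 11790 (by decide +kernel) ?_
    refine jn 11846 (by decide +kernel) ?_
    refine jn 11897 (by decide +kernel) ?_
    refine jn 11982 (by decide +kernel) ?_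
    refine jn 12048 (by decide +kernel) ?_
    refine jn 12096 (by decide +kernel) ?_
    refine jn 12154 (by decide +kernel) ?_
    refine jn 12204 (by decide +kernel) ?_
    refine jn 12257 (by decide +kernel) ?_
    refine jn 12302 (by decide +kernel) ?_
    refine jn 12611 (by decide +kernel) ?_
    refine jn 12747 (by decide +kernel) ?_
    refine jn 12814 (by decide +kernel) ?_
    refine jn 12917 (by decide +kernel) ?_
    refine jn 13013 (by decide +kernel) ?_
    refine jn 13115 (by decide +kernel) ?_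
    refine jn 13182 (by decide +kernel) ?_
    refine jn 13266 (by decide +kernel) ?_
    refine jn 13326 (by decide +kernel) ?_
    refine jn 13398 (by decide +kernel) ?_
    refine jn 13464 (by decide +kernel) ?_
    refine jn 13520 (by decide +kernel) ?_
    refine jn 13614 (by decide +kernel) ?_
    refine jn 14055 (by decide +kernel) ?_
    refine jn 14196 (by decide +kernel) ?_
    refine jn 14280 (by decide +kernel) ?_
    refine jn 14380 (by decide +kernel) ?_
    refine jn 14452 (by decide +kernel) ?_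
    refine jn 14527 (by decide +kernel) ?_
    refine jn 14686 (by decide +kernel) ?_
    refine jn 14771 (by decide +kernel) ?_
    refine jn 14844 (by decide +kernel) ?_
    refine jn 14912 (by decide +kernel) ?_
    refine jn 15427 (by decide +kernel) ?_
    exact je (by decide +kernel)
  · refine fin 1464 3081 T88_2 ?_
    refine jn 3 (by decide +kernel) ?_
    refine jn 4 (by decide +kernel) ?_
    refine jn 5 (by decide +kernel) ?_
    refine jn 6 (by decide +kernel) ?_
    refine jn 7 (by decide +kernel) ?_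
    refine jn 8 (by decide +kernel) ?_
    refine jn 9 (by decide +kernel) ?_
    refine jn 10 (by decide +kernel) ?_
    refine jn 11 (by decide +kernel) ?_
    refine jn 12 (by decide +kernel) ?_
    refine jn 13 (by decide +kernel) ?_
    refine jn 14 (by decide +kernel) ?_
    refine jn 27 (by decide +kernel) ?_
    refine jn 66 (by decide +kernel) ?_
    refine jn 72 (by decide +kernel) ?_
    refine jn 73 (by decide +kernel) ?_
    refine jn 75 (by decide +kernel) ?_
    refine jn 77 (by decide +kernel) ?_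
    refine jn 79 (by decide +kernel) ?_
    refine jn 81 (by decide +kernel) ?_
    refine jn 84 (by decide +kernel) ?_
    refine jn 86 (by decide +kernel) ?_
    refine jn 87 (by decide +kernel) ?_
    refine jn 89 (by decide +kernel) ?_
    refine jn 94 (by decide +kernel) ?_
    refine jn 103 (by decide +kernel) ?_
    refine jn 112 (by decide +kernel) ?_
    refine jn 120 (by decide +kernel) ?_
    refine jn 128 (by decide +kernel) ?_
    refine jn 132 (by decide +kernel) ?_
    refine jn 140 (by decide +kernel) ?_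
    refine jn 142 (by decide +kernel) ?_
    refine jn 143 (by decide +kernel) ?_
    refine jn 146 (by decide +kernel) ?_
    refine jn 147 (by decide +kernel) ?_
    refine jn 149 (by decide +kernel) ?_
    refine jn 151 (by decide +kernel) ?_
    refine jn 156 (by decide +kernel) ?_
    refine jn 161 (by decide +kernel) ?_
    refine jn 167 (by decide +kernel) ?_
    refine jn 172 (by decide +kernel) ?_
    refine jn 186 (by decide +kernel) ?_
    refine jn 215 (by decide +kernel) ?_
    refine jn 225 (by decide +kernel) ?_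
    refine jn 227 (by decide +kernel) ?_
    refine jn 229 (by decide +kernel) ?_
    refine jn 231 (by decide +kernel) ?_
    refine jn 233 (by decide +kernel) ?_
    refine jn 235 (by decide +kernel) ?_
    refine jn 237 (by decide +kernel) ?_
    refine jn 247 (by decide +kernel) ?_
    refine jn 250 (by decide +kernel) ?_
    refine jn 253 (by decide +kernel) ?_
    refine jn 255 (by decide +kernel) ?_
    refine jn 258 (by decide +kernel) ?_
    refine jn 261 (by decide +kernel) ?_
    refine jn 272 (by decide +kernel) ?_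
    refine jn 273 (by decide +kernel) ?_
    refine jn 274 (by decide +kernel) ?_
    refine jn 275 (by decide +kernel) ?_
    refine jn 276 (by decide +kernel) ?_
    refine jn 280 (by decide +kernel) ?_
    refine jn 283 (by decide +kernel) ?_
    refine jn 292 (by decide +kernel) ?_
    refine jn 293 (by decide +kernel) ?_
    refine jn 296 (by decide +kernel) ?_
    refine jn 302 (by decide +kernel) ?_
    refine jn 314 (by decide +kernel) ?_
    refine jn 317 (by decide +kernel) ?_
    refine jn 320 (by decide +kernel) ?_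
    refine jn 330 (by decide +kernel) ?_
    refine jn 331 (by decide +kernel) ?_
    refine jn 332 (by decide +kernel) ?_
    refine jn 333 (by decide +kernel) ?_
    refine jn 334 (by decide +kernel) ?_
    refine jn 341 (by decide +kernel) ?_
    refine jn 349 (by decide +kernel) ?_
    refine jn 350 (by decide +kernel) ?_
    refine jn 351 (by decide +kernel) ?_
    refine jn 352 (by decide +kernel) ?_
    refine jn 356 (by decide +kernel) ?_
    refine jn 367 (by decide +kernel) ?_
    refine jn 378 (by decide +kernel) ?_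
    refine jn 389 (by decide +kernel) ?_
    refine jn 411 (by decide +kernel) ?_
    refine jn 417 (by decide +kernel) ?_
    refine jn 418 (by decide +kernel) ?_
    refine jn 419 (by decide +kernel) ?_
    refine jn 423 (by decide +kernel) ?_
    refine jn 432 (by decide +kernel) ?_
    refine jn 439 (by decide +kernel) ?_
    refine jn 441 (by decide +kernel) ?_
    refine jn 449 (by decide +kernel) ?_
    refine jn 451 (by decide +kernel) ?_
    refine jn 463 (by decide +kernel) ?_
    refine jn 472 (by decide +kernel) ?_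
    refine jn 482 (by decide +kernel) ?_
    refine jn 497 (by decide +kernel) ?_
    refine jn 507 (by decide +kernel) ?_
    refine jn 517 (by decide +kernel) ?_
    refine jn 521 (by decide +kernel) ?_
    refine jn 535 (by decide +kernel) ?_
    refine jn 539 (by decide +kernel) ?_
    refine jn 556 (by decide +kernel) ?_
    refine jn 571 (by decide +kernel) ?_
    refine jn 584 (by decide +kernel) ?_
    refine jn 594 (by decide +kernel) ?_
    refine jn 602 (by decide +kernel) ?_
    refine jn 615 (by decide +kernel) ?_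
    refine jn 628 (by decide +kernel) ?_
    refine jn 636 (by decide +kernel) ?_
    refine jn 649 (by decide +kernel) ?_
    refine jn 667 (by decide +kernel) ?_
    refine jn 685 (by decide +kernel) ?_
    refine jn 704 (by decide +kernel) ?_
    refine jn 775 (by decide +kernel) ?_
    refine jn 795 (by decide +kernel) ?_
    refine jn 806 (by decide +kernel) ?_
    refine jn 807 (by decide +kernel) ?_
    refine jn 821 (by decide +kernel) ?_
    refine jn 825 (by decide +kernel) ?_
    refine jn 830 (by decide +kernel) ?_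
    refine jn 842 (by decide +kernel) ?_
    refine jn 858 (by decide +kernel) ?_
    refine jn 875 (by decide +kernel) ?_
    refine jn 902 (by decide +kernel) ?_
    refine jn 905 (by decide +kernel) ?_
    refine jn 914 (by decide +kernel) ?_
    refine jn 930 (by decide +kernel) ?_
    refine jn 939 (by decide +kernel) ?_
    refine jn 954 (by decide +kernel) ?_
    refine jn 971 (by decide +kernel) ?_
    refine jn 981 (by decide +kernel) ?_
    refine jn 1010 (by decide +kernel) ?_
    refine jn 1022 (by decide +kernel) ?_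
    refine jn 1032 (by decide +kernel) ?_
    refine jn 1130 (by decide +kernel) ?_
    refine jn 1139 (by decide +kernel) ?_
    refine jn 1160 (by decide +kernel) ?_
    refine jn 1175 (by decide +kernel) ?_
    refine jn 1187 (by decide +kernel) ?_
    refine jn 1199 (by decide +kernel) ?_
    refine jn 1222 (by decide +kernel) ?_
    refine jn 1247 (by decide +kernel) ?_
    refine jn 1267 (by decide +kernel) ?_
    refine jn 1291 (by decide +kernel) ?_
    refine jn 1441 (by decide +kernel) ?_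
    refine jn 1675 (by decide +kernel) ?_
    refine jn 1833 (by decide +kernel) ?_
    refine jn 2260 (by decide +kernel) ?_
    refine jn 2610 (by decide +kernel) ?_
    exact je (by decide +kernel)

end Pool.Agent.MP_2339ce_nt.NR
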