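import Pool.Agent.MP_2339ce_nt.Q2.NC.L5
import Pool.Agent.MP_2339ce_nt.Q2.NC.L8
import Pool.Agent.MP_2339ce_nt.Q2.NC.L9
import Pool.Agent.MP_2339ce_nt.Q2.CkI

/-! Block NR: runs. -/

set_option autoImplicit false
set_option maxRecDepth 100000

noncomputable section

namespace Pool.Agent.MP_2339ce_nt.NR

open Q2.Top

def T96_0 : Ph :=
  (.na 820 9 (.na 474 4 (.na 298 2 (.nx 297 1321124 (.nr 296 881745 (.nx 3 169 (.nx 2 168 (.nr 1 14
  (.lg 0 true 1 41 41 5 0 168) (.l1 .sk)) (.l1 .sk)) (.nx 106 32769 (.nr 68 77937 (.lg 0 false 65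
  101 107 16 0 720720) (.nx 105 13005 (.nx 89 2580 (.nx 88 257 (.lg 0 false 20 83 83 11 0 1680)
  .out) (.nr 104 92683 (.lg 0 false 15 101 103 9 0 720720) .out)) .out)) (.nr 295 55110 (.nx 269
  660563 (.nr 174 1219 (.nr 161 695 (.lg 0 true 55 89 97 16 0 55440) (.lg 2 true 13 89 89 9 79838
  13104)) (.nx 268 524289 (.nr 187 2437 (.lg 2 true 13 89 97 9 36129 13104) (.nx 267 416129 (.nr
  211 23172 (.nr 198 4097 (.lg 2 true 11 89 89 9 14344 11088) (.lg 2 false 13 103 107 9 10052
  720720)) (.nx 266 262145 (.lg 2 false 55 97 107 16 23806 720720) .out)) .out)) .out)) (.nr 294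
  129 (.lg 0 true 25 79 83 11 0 840) .out)) .out))) .out) .out) (.na 299 3 .ne (.nx 473 6658044
  (.nr 472 1482912 (.nx 438 1048577 (.nx 302 169 (.nx 301 168 (.nr 300 35 (.lg 0 true 1 37 37 5 0
  504) (.l1 .sk)) (.l1 .sk)) (.nr 415 131073 (.nx 324 28609 (.lg 0 false 22 101 107 16 0 720720)
  (.nr 346 364 (.lg 0 true 22 83 83 16 0 11088) (.nx 414 262145 (.nx 357 40733 (.lg 1 false 11 101
  103 7 64739 720720) (.nr 368 2904 (.lg 2 true 11 89 89 7 60495 55440) (.nx 402 104033 (.nx 379
  57994 (.lg 1 false 11 101 103 7 45470 720720) (.nx 390 82572 (.lg 1 false 11 101 103 7 31936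
  720720) (.nr 401 110219 (.lg 1 true 11 101 101 7 18866 720720) .out))) (.nr 413 65537 (.lg 2
  false 11 97 101 7 8913 55440) .out)))) .out))) (.nx 437 257 (.lg 0 false 22 79 79 16 0 11088)
  .out))) (.nr 471 33 (.lg 0 true 33 79 79 7 0 5544) .out)) .out) .out))) (.na 633 7 (.na 632 5
  (.nx 631 13316087 (.nr 630 1246976 (.nx 477 169 (.nx 476 168 (.nr 475 45 (.lg 0 true 1 31 31 9 0
  336) (.l1 .sk)) (.l1 .sk)) (.nx 506 26007 (.nr 488 110219 (.lg 0 false 11 101 103 13 0 144144)
  (.nx 505 1627 (.nr 493 155873 (.lg 0 false 5 83 83 11 0 1680) (.nx 504 257 (.lg 0 false 11 79 79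
  13 0 3696) .out)) .out)) (.nr 629 131073 (.nx 583 416129 (.nr 527 5810 (.nr 522 2909 (.nr 517 729
  (.lg 0 true 11 83 83 13 0 3696) (.lg 2 true 5 89 89 11 47950 5040)) (.lg 2 true 5 83 83 11 12017
  5040)) (.nx 577 131073 (.nx 571 104033 (.nx 538 36779 (.lg 1 false 11 97 103 13 71216 144144)
  (.nx 560 73561 (.nx 549 52015 (.lg 1 false 11 97 103 13 50358 144144) (.lg 1 false 11 97 103 13
  35607 144144)) (.lg 1 true 11 97 103 13 25178 144144))) (.nr 576 92683 (.lg 1 true 5 97 101 11
  12596 65520) .out)) (.nr 582 55110 (.lg 2 false 5 97 101 11 6017 65520) .out))) (.nr 628 183 (.nx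
  594 1664512 (.lg 0 true 11 83 83 13 0 3696) (.nr 627 21 (.lg 0 true 33 79 79 11 0 11088) .out))
  .out)) .out))) .out) .out) .ne) (.na 729 8 (.nx 728 13316087 (.nr 727 262145 (.nx 636 169 (.nx
  635 168 (.nr 634 73 (.lg 0 true 1 31 31 9 0 5040) (.l1 .sk)) (.l1 .sk)) (.nx 653 26007 (.nr 647
  110219 (.lg 0 false 11 97 97 16 0 55440) (.nx 652 1627 (.lg 0 false 5 73 73 11 0 840) .out)) (.nr
  726 131073 (.nx 698 1664512 (.nx 686 524289 (.nr 664 1284 (.lg 0 true 11 79 79 16 0 1848) (.nx
  675 52015 (.lg 1 false 11 97 97 16 71216 55440) (.lg 2 false 11 101 103 16 35607 55440))) (.nr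
  697 306 (.lg 0 true 11 73 73 16 0 1848) .out)) (.nr 725 47 (.lg 0 true 27 71 71 11 0 504) .out))
  .out))) .out) .out) (.nx 819 13316087 (.nr 818 623489 (.nx 731 168 (.nr 730 82 (.lg 0 true 1 31
  31 9 0 5040) (.l1 .sk)) (.nx 732 169 (.l1 .sk) (.nr 806 131073 (.nx 783 1664512 (.nx 743 38224
  (.lg 0 false 11 101 103 13 0 720720) (.nr 754 727 (.lg 0 true 11 83 89 13 0 3696) (.nx 782 660563
  (.nr 759 2905 (.lg 2 true 5 83 83 13 76324 5040) (.nx 770 82572 (.lg 1 false 11 97 103 13 48454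
  720720) (.nr 781 110219 (.lg 2 false 11 97 103 13 19101 720720) .out))) .out))) (.nr 805 55 (.lg
  0 true 22 79 79 13 0 3696) .out)) (.nx 817 1627 (.lg 0 false 11 83 97 13 0 55440) .out)))) .out)
  .out)))) (.na 870 13 (.na 821 10 (.lg 0 false 1 0 0 7 0 24) (.na 822 12 .ne (.nx 869 1664512 (.nr
  868 623489 (.nx 862 524289 (.nx 824 168 (.nr 823 119 (.lg 0 true 1 31 31 13 0 5040) (.l1 .sk))
  (.nx 825 169 (.l1 .sk) (.nr 856 155873 (.nx 838 30412 (.lg 0 false 13 89 101 23 0 65520) (.nr 855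
  110219 (.nr 843 829 (.lg 0 true 5 79 79 17 0 5040) (.nx 854 416129 (.lg 2 false 11 97 103 23
  51224 55440) .out)) .out)) (.nx 861 1292 (.lg 0 false 5 83 83 17 0 5040) .out)))) (.nr 867 65
  (.lg 0 true 5 71 71 17 0 5040) .out)) .out) .out))) (.na 936 17 (.na 935 16 (.nx 934 1664512 (.nr
  933 623489 (.nr 871 2 .s1 (.nx 891 14113 (.nx 873 168 (.nr 872 147 (.lg 0 true 1 37 37 9 0 65520)
  (.l1 .sk)) (.nx 874 169 (.l1 .sk) (.nr 885 155873 (.lg 0 false 11 89 97 16 0 720720) (.nx 890
  1292 (.lg 0 false 5 83 83 16 0 10920) .out)))) (.nr 932 110219 (.nr 914 46342 (.nr 902 829 (.nx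
  896 524289 (.lg 0 true 5 79 79 16 0 10920) (.nr 901 65 (.lg 0 true 5 67 67 16 0 10920) .out))
  (.nx 913 416129 (.lg 2 false 11 79 79 16 46509 24024) .out)) (.nx 931 208065 (.nx 925 131073 (.lg
  0 true 11 101 107 16 0 720720) (.nr 930 55110 (.lg 0 true 5 89 97 16 0 65520) .out)) .out))
  .out))) .out) .out) .ne) (.na 995 21 (.nx 994 1664512 (.nr 993 1048577 (.nr 937 12 .s1 (.nx 941
  257 (.nx 939 168 (.nr 938 193 (.lg 0 true 1 31 31 11 0 5040) (.l1 .sk)) (.nx 940 169 (.l1 .sk)
  (.l1 (.ls 83 31 2208)))) (.nr 992 623489 (.nx 958 14113 (.nr 952 220437 (.lg 0 false 11 89 97 16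
  0 55440) (.nx 957 1627 (.lg 0 false 5 83 83 16 0 840) .out)) (.nr 991 92683 (.nr 981 46342 (.nr
  969 634 (.lg 0 true 11 79 79 16 0 1848) (.nx 980 262145 (.lg 2 true 11 79 79 16 46509 1848)
  .out)) (.nx 990 165142 (.nx 986 82572 (.lg 0 true 5 101 103 16 0 65520) (.nr 989 55110 (.lg 0
  true 3 97 97 16 0 5040) .out)) .out)) .out)) .out))) .out) .out) (.nx 1030 1664512 (.nr 1029
  1048577 (.nr 996 17 .s1 (.nx 1012 24138 (.nx 1000 257 (.nx 998 168 (.nr 997 211 (.l1 (.ls 17 37
  1346)) (.l1 .sk)) (.nx 999 169 (.l1 .sk) (.l1 (.ls 71 37 1788)))) (.nr 1011 623489 (.nr 1005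
  220437 (.lg 0 true 5 89 89 16 0 5040) (.nx 1010 1627 (.lg 0 false 5 71 71 16 0 2520) .out))
  .out)) (.nr 1028 92683 (.nr 1022 634 (.lg 0 true 10 71 71 17 0 5040) (.nx 1027 262145 (.lg 2
  false 5 89 89 16 54286 5040) .out)) .out))) .out) .out)))))

def T96_1 : Ph :=
  (.na 705 3 (.na 384 2 (.nx 383 2097153 (.nr 382 881745 (.nx 3 210 (.nx 2 209 (.nr 1 15 (.lg 0
  false 1 53 53 5 0 15048) (.l1 .sk)) (.l1 .sk)) (.nr 361 311745 (.nr 332 131073 (.nx 55 32769 (.lg
  0 false 52 107 113 16 0 13693680) (.nr 331 110219 (.nr 156 1724 (.nx 127 1048577 (.nr 107 901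
  (.lg 0 true 52 101 107 16 0 13693680) (.lg 2 true 20 97 103 11 121617 1053360)) (.nr 155 129 (.lg
  0 true 28 97 97 11 0 210672) .out)) (.nx 330 832257 (.nr 169 3160 (.lg 2 true 13 101 103 9 50448
  6846840) (.nx 221 52017 (.lg 1 false 52 103 109 16 73602 13693680) (.nr 329 77937 (.nr 276 38969
  (.nr 255 27556 (.nr 234 5794 (.lg 2 true 13 103 107 9 27523 13693680) (.nx 254 660563 (.lg 2
  false 20 103 109 11 11914 13693680) .out)) (.nx 275 524289 (.lg 2 true 20 103 109 11 16450
  13693680) .out)) (.nx 328 330282 (.lg 2 false 52 101 109 16 32812 13693680) .out)) .out))) .out))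
  .out)) (.nx 360 8193 (.nx 345 324 (.lg 0 false 13 89 89 9 0 195624) (.nx 346 4096 .out (.nr 359
  155873 (.lg 0 false 13 103 107 9 0 13693680) .out))) .out)) (.nx 381 257 (.lg 0 false 20 89 89 11
  0 150480) .out))) .out) .out) (.nx 704 3329023 (.nr 703 623489 (.nx 387 210 (.nx 386 209 (.nr 385
  28 (.lg 0 true 1 47 47 5 0 30096) (.l1 .sk)) (.l1 .sk)) (.nx 472 30029 (.nr 422 155873 (.lg 0
  false 35 103 109 13 0 13693680) (.nx 435 324 (.lg 0 false 13 89 89 9 0 391248) (.nx 436 10321
  .out (.nr 471 220437 (.nx 450 16384 (.nr 449 185365 (.lg 0 false 13 101 103 9 0 13693680) .out)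
  (.lg 0 false 21 103 107 11 0 13693680)) .out)))) (.nr 702 220437 (.nx 665 1048577 (.nr 507 1025
  (.lg 0 true 35 97 103 13 0 1053360) (.nx 664 832257 (.nx 542 41287 (.lg 1 false 35 101 109 13
  160482 13693680) (.nr 663 155873 (.nr 555 3446 (.lg 2 true 13 101 103 9 84850 13693680) (.nx 662
  524289 (.nr 562 6051 (.lg 2 true 7 97 97 9 15900 1053360) (.nx 583 58387 (.lg 1 false 21 103 107
  11 82568 13693680) (.nx 604 82572 (.lg 1 false 21 103 109 11 58386 13693680) (.nr 661 131073 (.nr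
  639 77937 (.nr 617 38969 (.lg 2 false 13 103 107 9 10363 13693680) (.nx 638 262145 (.lg 2 false
  21 103 109 11 20670 13693680) .out)) (.nx 660 208065 (.lg 2 false 21 103 109 11 34725 13693680)
  .out)) .out)))) .out)) .out)) .out)) (.nr 701 129 (.nx 686 2097153 (.lg 0 true 21 89 89 11 0
  210672) (.nr 700 9 (.lg 0 true 14 73 73 9 0 210672) .out)) .out)) .out))) .out) .out)) (.na 706 5
  .ne (.nx 890 16777217 (.nr 889 1482912 (.nx 709 210 (.nx 708 209 (.nr 707 60 (.lg 0 true 1 41 41
  9 0 75240) (.l1 .sk)) (.l1 .sk)) (.nx 744 41285 (.nr 725 155873 (.lg 0 false 16 103 109 16 0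
  13693680) (.nx 743 2049 (.nx 738 324 (.lg 0 false 13 79 83 16 0 978120) (.nx 739 645 .out (.nr
  742 185365 (.lg 0 false 3 83 83 11 0 75240) .out))) .out)) (.nr 888 220437 (.nx 834 660563 (.nr
  757 956 (.lg 0 true 13 89 97 16 0 978120) (.nx 797 112360 (.nx 784 76448 (.nx 771 52015 (.nr 770
  185365 (.lg 1 false 13 97 103 16 98174 6846840) .out) (.lg 1 false 13 101 107 16 92648 6846840))
  (.lg 1 false 13 101 107 16 63037 6846840)) (.nr 805 8843 (.nr 801 4213 (.lg 2 true 4 101 101 13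
  72206 150480) (.lg 2 true 4 89 97 13 16385 150480)) (.nx 818 165142 (.lg 1 true 13 101 103 16
  42890 6846840) (.nr 833 131073 (.nx 825 208065 (.lg 1 true 7 97 101 16 17363 526680) (.nr 832
  77937 (.lg 2 false 7 97 101 16 8203 526680) .out)) .out))))) (.nr 887 217 (.nr 873 37 (.lg 0 true
  39 83 83 16 0 978120) (.nx 886 2097153 (.lg 0 true 13 83 89 16 0 978120) .out)) .out)) .out)))
  .out) .out)))

def T96_2 : Ph :=
  (.na 711 146 (.na 536 61 (.na 394 22 (.na 341 9 (.na 297 4 (.na 131 2 (.nx 130 660563 (.nr 129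
  1482912 (.nx 68 4097 (.nx 2 57 (.nr 1 8 (.lg 0 true 1 31 31 5 0 456) (.l1 .sk)) (.nx 3 58 (.l1
  .sk) (.nr 19 16385 (.lg 0 false 16 83 83 9 0 912) (.nx 67 1292 (.nr 26 38969 (.lg 0 false 7 97 97
  9 0 47880) (.nx 66 205 (.nr 37 110219 (.lg 0 false 11 79 79 9 0 5016) (.nx 65 103 (.lg 0 false 28
  83 83 11 0 6384) .out)) .out)) .out)))) (.nr 128 13779 (.nx 99 104033 (.nr 84 331 (.lg 0 true 16
  79 79 9 0 912) (.nr 88 682 (.lg 2 false 4 79 79 7 8958 912) (.lg 2 false 11 97 97 9 5487 75240)))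
  (.nr 127 78 (.lg 0 true 28 79 79 11 0 6384) .out)) .out)) .out) .out) (.na 225 3 (.nx 224 660563
  (.nr 223 623489 (.nx 133 57 (.nr 132 15 (.lg 0 true 1 29 29 5 0 2736) (.l1 .sk)) (.nx 134 58 (.l1
  .sk) (.nr 209 131073 (.nr 198 27556 (.nx 144 5160 (.lg 0 true 10 83 83 9 0 4560) (.nr 179 307
  (.lg 0 true 35 79 79 13 0 31920) (.nx 197 104033 (.nr 184 2445 (.lg 2 false 5 83 83 9 9658 13680)
  (.nx 191 16385 (.lg 1 true 7 89 89 9 8695 19152) (.nr 196 9743 (.lg 2 false 5 73 73 9 1213 4560)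
  .out))) .out))) (.nx 208 647 (.lg 0 false 10 83 83 9 0 4560) .out)) (.nx 222 103 (.lg 0 false 13
  71 71 9 0 11856) .out)))) .out) .out) (.nx 296 660563 (.nr 295 881745 (.nx 228 58 (.nx 227 57
  (.nr 226 21 (.lg 0 true 1 23 23 5 0 1368) (.l1 .sk)) (.l1 .sk)) (.nr 281 311745 (.nr 270 38969
  (.nx 238 5466 (.lg 0 false 10 83 83 7 0 13680) (.nr 258 716 (.lg 0 true 20 83 83 16 0 13680) (.nx
  269 330282 (.lg 2 false 11 97 101 7 13147 105336) .out))) (.nx 280 647 (.lg 0 false 10 83 83 7 0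
  13680) .out)) (.nx 294 103 (.lg 0 false 13 71 71 13 0 17784) .out))) .out) .out))) (.na 298 6 .ne
  (.na 340 7 (.nx 339 660563 (.nr 338 220437 (.nx 301 58 (.nx 300 57 (.nr 299 37 (.lg 0 true 1 23
  23 7 0 2736) (.l1 .sk)) (.l1 .sk)) (.nx 316 6503 (.nr 308 77937 (.lg 0 true 7 89 89 13 0 95760)
  (.nx 315 647 (.lg 0 false 7 79 79 13 0 19152) .out)) (.nr 337 27556 (.nr 329 704 (.lg 0 true 13
  83 83 13 0 35568) (.nx 336 330282 (.lg 2 false 7 89 89 13 13371 95760) .out)) .out))) .out) .out)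
  .ne))) (.na 374 16 (.na 342 10 (.lg 0 false 1 0 0 7 0 24) (.na 343 11 .ne (.nx 373 660563 (.nr
  372 623489 (.nr 344 9 .s1 (.nx 348 103 (.nx 346 57 (.nr 345 86 (.l1 (.ls 23 19 298)) (.l1 .sk))
  (.nx 347 58 (.l1 .sk) (.l1 (.ls 83 29 661)))) (.nr 371 131073 (.nr 355 154 (.lg 0 true 7 71 71 16
  0 35112) (.nx 370 41287 (.nr 358 2671 (.nx 356 1625 (.lg 0 true 1 67 67 9 0 5016) (.lg 2 false 2
  71 71 9 7641 10032)) (.nr 365 46342 (.lg 0 true 7 89 89 16 0 35112) (.nx 369 6503 (.lg 0 false 4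
  97 97 16 0 150480) .out))) .out)) .out))) .out) .out))) (.na 375 18 .ne (.na 376 19 (.lg 0 false
  1 0 0 7 0 24) (.nx 393 660563 (.nr 392 623489 (.nr 377 18 .s1 (.nx 386 41287 (.nx 378 103 (.l1
  (.ls 71 23 561)) (.nr 385 131073 (.lg 0 false 7 89 89 16 0 47880) .out)) (.nr 391 257 (.lg 0 true
  5 61 61 13 0 2280) .out))) .out) .out))))) (.na 466 33 (.na 433 29 (.na 413 23 (.nx 412 660563
  (.nr 411 623489 (.nr 395 21 .s1 (.nx 396 103 (.l1 (.ls 79 31 485)) (.nr 410 131073 (.nx 401 6503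
  (.lg 0 false 5 79 79 19 0 50160) (.nr 409 46342 (.nr 406 257 (.lg 0 true 5 67 67 19 0 50160) (.nx
  408 41287 (.lg 1 false 2 83 83 13 11592 30096) .out)) .out)) .out))) .out) .out) (.na 432 27 (.nx
  431 660563 (.nr 430 131073 (.nr 414 22 .s1 (.nx 422 6503 (.nx 416 57 (.nr 415 145 (.l1 (.ls 16 16
  144)) (.l1 .sk)) (.nx 417 58 (.l1 .sk) (.lg 0 false 5 79 79 16 0 2280))) (.nr 429 32769 (.nr 427
  257 (.lg 0 true 5 67 67 16 0 2280) (.nx 428 41287 (.lg 1 false 1 83 83 11 8201 1368) .out))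
  .out))) .out) .out) (.lg 0 false 1 0 0 7 0 24))) (.na 451 31 (.nx 450 660563 (.nr 449 131073 (.nr
  434 29 .s1 (.nr 439 257 (.nx 435 205 (.l1 (.ls 23 23 1452)) (.lg 0 true 4 67 67 16 0 912)) (.nx
  441 58 (.nx 440 57 (.l1 .sk) (.l1 .sk)) (.nx 448 41287 (.nr 445 32769 (.lg 0 false 4 79 79 16 0
  912) (.nx 447 6503 (.lg 0 false 2 83 83 16 0 912) .out)) .out)))) .out) .out) (.na 465 32 (.nx
  464 660563 (.nr 463 131073 (.nr 452 31 .s1 (.nx 457 6503 (.nx 454 57 (.nr 453 172 (.l1 (.ls 16 16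
  107)) (.l1 .sk)) (.nx 455 58 (.l1 .sk) (.lg 0 true 2 83 83 16 0 912))) (.nr 462 32769 (.nr 460
  257 (.lg 0 true 3 67 67 16 0 1368) (.nx 461 41287 (.lg 1 false 1 83 83 13 8201 6840) .out))
  .out))) .out) .out) .ne))) (.na 505 46 (.na 479 38 (.nx 478 82572 (.nr 477 262145 (.nr 467 33 .s1
  (.nx 470 58 (.nx 469 57 (.nr 468 204 (.l1 (.ls 16 19 101)) (.l1 .sk)) (.l1 .sk)) (.nr 475 32769
  (.lg 0 true 5 79 79 19 0 75240) (.nx 476 2582 (.lg 0 true 1 79 79 16 0 15048) .out)))) .out)
  .out) (.na 493 41 (.nx 492 82572 (.nr 491 262145 (.nr 480 38 .s1 (.nx 483 58 (.nx 482 57 (.nr 481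
  220 (.lg 0 false 1 16 16 13 0 2738736) (.l1 .sk)) (.l1 .sk)) (.nr 488 32769 (.lg 0 false 5 73 73
  13 0 4560) (.nx 490 2582 (.lg 0 true 2 71 71 13 0 912) .out)))) .out) .out) (.nx 504 82572 (.nr
  503 262145 (.nr 494 41 .s1 (.nx 496 57 (.nr 495 247 (.l1 (.ls 16 16 82)) (.l1 .sk)) (.nx 497 58
  (.l1 .sk) (.nr 501 32769 (.lg 0 true 4 89 89 16 0 13680) (.nx 502 2582 (.lg 0 true 1 79 79 16 0
  456) .out))))) .out) .out))) (.na 525 54 (.na 515 53 (.nx 514 82572 (.nr 513 262145 (.nr 506 46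
  .s1 (.nx 508 57 (.nr 507 285 (.l1 (.ls 17 19 73)) (.l1 .sk)) (.nx 509 58 (.l1 .sk) (.nr 511 32769
  (.lg 0 false 2 89 89 13 0 13680) (.nx 512 2582 (.lg 0 true 1 83 83 13 0 912) .out))))) .out)
  .out) (.nx 524 82572 (.nr 523 262145 (.nr 516 53 .s1 (.nx 518 57 (.nr 517 290 (.l1 (.ls 16 16
  64)) (.l1 .sk)) (.nx 519 58 (.l1 .sk) (.nr 521 32769 (.lg 0 false 2 83 83 16 0 912) (.nx 522 2582
  (.lg 0 true 1 79 79 16 0 1368) .out))))) .out) .out)) (.na 526 58 (.lg 0 false 1 0 0 16 0 24)
  (.nx 535 82572 (.nr 534 262145 (.nr 527 58 .s1 (.nx 530 58 (.nx 529 57 (.nr 528 328 (.l1 (.ls 16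
  17 59)) (.l1 .sk)) (.l1 .sk)) (.nr 532 32769 (.lg 0 false 2 79 79 13 0 912) (.nx 533 2582 (.lg 0
  true 1 73 73 13 0 912) .out)))) .out) .out)))))) (.na 640 99 (.na 588 73 (.na 557 66 (.na 546 62
  (.nx 545 82572 (.nr 544 262145 (.nr 537 61 .s1 (.nx 539 57 (.nr 538 333 (.l1 (.ls 16 16 56)) (.l1
  .sk)) (.nx 540 58 (.l1 .sk) (.nr 542 32769 (.lg 0 false 2 83 83 16 0 912) (.nx 543 2582 (.lg 0
  true 1 73 73 16 0 456) .out))))) .out) .out) (.na 556 64 (.nx 555 82572 (.nr 554 262145 (.nr 547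
  62 .s1 (.nx 550 58 (.nx 549 57 (.nr 548 344 (.l1 (.ls 16 17 55)) (.l1 .sk)) (.l1 .sk)) (.nr 552
  32769 (.lg 0 false 2 83 83 17 0 912) (.nx 553 2582 (.lg 0 true 1 79 79 13 0 30096) .out)))) .out)
  .out) .ne)) (.na 566 67 (.nx 565 82572 (.nr 564 524289 (.nr 558 66 .s1 (.nx 559 647 (.l1 (.ls 73
  53 6345)) (.nr 563 262145 (.nx 560 6503 (.lg 0 true 1 89 89 23 0 150480) (.nr 562 65537 (.lg 1
  false 2 83 83 29 35657 30096) .out)) .out))) .out) .out) (.na 578 69 (.nx 577 82572 (.nr 576
  524289 (.nr 567 67 .s1 (.nx 574 41287 (.nx 568 647 (.l1 (.ls 71 37 6250)) (.nr 573 262145 (.lg 0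
  false 5 83 89 16 0 6840) .out)) (.nr 575 257 (.lg 0 true 1 41 41 16 0 456) .out))) .out) .out)
  (.nx 587 82572 (.nr 586 524289 (.nr 579 69 .s1 (.nx 582 6503 (.nx 580 647 (.l1 (.ls 71 43 6069))
  (.nr 581 262145 (.lg 0 true 1 83 83 16 0 6840) .out)) (.nr 585 65537 (.nx 583 41287 (.lg 1 false
  1 73 73 16 17054 1368) (.nr 584 257 (.lg 0 false 1 47 47 16 0 6840) .out)) .out))) .out) .out))))
  (.na 616 87 (.na 600 82 (.nx 599 82572 (.nr 598 524289 (.nr 589 73 .s1 (.nx 596 41287 (.nx 590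
  647 (.l1 (.ls 67 37 5737)) (.nr 595 262145 (.lg 0 false 5 83 83 16 0 2280) .out)) (.nr 597 257
  (.lg 0 true 1 41 41 16 0 15048) .out))) .out) .out) (.na 608 83 (.nx 607 82572 (.nr 606 524289
  (.nr 601 82 .s1 (.nx 604 6503 (.nx 602 647 (.l1 (.ls 71 47 5107)) (.nr 603 262145 (.lg 0 true 1
  79 79 13 0 2736) .out)) (.nr 605 65537 (.lg 1 false 1 83 83 13 28699 2736) .out))) .out) .out)
  (.nx 615 82572 (.nr 614 524289 (.nr 609 83 .s1 (.nx 612 6503 (.nx 610 647 (.l1 (.ls 61 37 5046))
  (.nr 611 262145 (.lg 0 true 1 71 71 16 0 456) .out)) (.nr 613 65537 (.lg 1 false 1 73 73 16 28354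
  1368) .out))) .out) .out))) (.na 624 93 (.nx 623 82572 (.nr 622 524289 (.nr 617 87 .s1 (.nx 620
  6503 (.nx 618 647 (.l1 (.ls 67 43 4814)) (.nr 619 262145 (.lg 0 true 1 73 73 16 0 1368) .out))
  (.nr 621 65537 (.lg 1 false 1 79 79 16 27050 1368) .out))) .out) .out) (.na 632 94 (.nx 631 82572
  (.nr 630 524289 (.nr 625 93 .s1 (.nx 628 6503 (.nx 626 647 (.l1 (.ls 71 43 4504)) (.nr 627 262145
  (.lg 0 true 1 73 73 16 0 1368) .out)) (.nr 629 65537 (.lg 1 false 1 79 79 16 25305 1368) .out)))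
  .out) .out) (.nx 639 82572 (.nr 638 524289 (.nr 633 94 .s1 (.nx 636 6503 (.nx 634 647 (.l1 (.ls
  73 43 4456)) (.nr 635 262145 (.lg 0 true 1 83 83 17 0 13680) .out)) (.nr 637 65537 (.lg 1 false 1
  83 83 17 25036 2736) .out))) .out) .out))))) (.na 684 128 (.na 658 122 (.na 641 106 (.lg 0 false
  1 0 0 16 0 24) (.na 650 114 (.nx 649 82572 (.nr 648 524289 (.nr 642 106 .s1 (.nx 646 41287 (.nx
  643 647 (.l1 (.ls 71 41 3952)) (.nr 645 262145 (.lg 0 false 2 89 89 19 0 912) .out)) (.nr 647 257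
  (.lg 0 true 1 41 41 19 0 912) .out))) .out) .out) (.nx 657 82572 (.nr 656 524289 (.nr 651 114 .s1
  (.nx 652 647 (.l1 (.ls 61 47 3675)) (.nr 655 262145 (.lg 0 true 3 79 79 29 0 2736) .out))) .out)
  .out))) (.na 667 123 (.nx 666 82572 (.nr 665 524289 (.nr 659 122 .s1 (.nx 663 41287 (.nx 660 647
  (.l1 (.ls 59 41 3434)) (.nr 662 262145 (.lg 0 false 2 79 79 19 0 912) .out)) (.nr 664 257 (.lg 0
  true 1 31 31 19 0 912) .out))) .out) .out) (.na 676 127 (.nx 675 82572 (.nr 674 524289 (.nr 668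
  123 .s1 (.nx 669 647 (.l1 (.ls 67 37 3406)) (.nr 673 262145 (.nx 671 41287 (.lg 0 false 2 83 83
  17 0 2736) (.nr 672 257 (.lg 0 true 1 31 31 17 0 1368) .out)) .out))) .out) .out) (.nx 683 82572
  (.nr 682 524289 (.nr 677 127 .s1 (.nx 680 6503 (.nx 678 647 (.l1 (.ls 61 31 3299)) (.nr 679
  262145 (.lg 0 true 1 67 67 16 0 1368) .out)) (.nr 681 65537 (.lg 1 false 1 67 67 16 18530 1368)
  .out))) .out) .out)))) (.na 697 137 (.na 685 131 .ne (.na 691 134 (.nx 690 41287 (.nr 689 1048577
  (.nr 686 131 .s1 (.nx 687 647 (.l1 (.ls 67 31 3198)) (.nr 688 131073 (.lg 0 true 1 73 73 16 0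
  456) .out))) .out) .out) (.nx 696 41287 (.nr 695 1048577 (.nr 692 134 .s1 (.nx 693 647 (.l1 (.ls
  61 41 3126)) (.nr 694 131073 (.lg 0 true 1 83 83 19 0 912) .out))) .out) .out))) (.na 704 139
  (.na 698 138 (.lg 0 false 1 0 0 16 0 24) (.nx 703 41287 (.nr 702 1048577 (.nr 699 138 .s1 (.nx
  700 647 (.l1 (.ls 71 47 3036)) (.nr 701 131073 (.lg 0 true 1 79 79 19 0 2736) .out))) .out)
  .out)) (.na 705 141 (.lg 0 false 1 0 0 16 0 24) (.nx 710 41287 (.nr 709 1048577 (.nr 706 141 .s1
  (.nx 707 647 (.l1 (.ls 73 37 2971)) (.nr 708 131073 (.lg 0 true 1 83 83 17 0 6840) .out))) .out)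
  .out))))))) (.na 816 223 (.na 763 178 (.na 742 162 (.na 724 157 (.na 717 149 (.nx 716 41287 (.nr
  715 1048577 (.nr 712 146 .s1 (.nx 713 647 (.l1 (.ls 71 41 2870)) (.nr 714 131073 (.lg 0 true 1 83
  83 19 0 13680) .out))) .out) .out) (.na 718 151 (.lg 0 false 1 0 0 16 0 24) (.nx 723 41287 (.nr
  722 1048577 (.nr 719 151 .s1 (.nx 720 647 (.l1 (.ls 67 31 2775)) (.nr 721 131073 (.lg 0 true 1 73
  73 16 0 6840) .out))) .out) .out))) (.na 730 158 (.nx 729 41287 (.nr 728 1048577 (.nr 725 157 .s1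
  (.nx 726 647 (.l1 (.ls 67 31 2669)) (.nr 727 131073 (.lg 0 true 1 73 73 16 0 1368) .out))) .out)
  .out) (.na 736 159 (.nx 735 41287 (.nr 734 1048577 (.nr 731 158 .s1 (.nx 732 647 (.l1 (.ls 67 41
  2652)) (.nr 733 131073 (.lg 0 true 1 79 79 19 0 912) .out))) .out) .out) (.nx 741 41287 (.nr 740
  1048577 (.nr 737 159 .s1 (.nx 738 647 (.l1 (.ls 71 37 2635)) (.nr 739 131073 (.lg 0 true 1 79 79
  17 0 6840) .out))) .out) .out)))) (.na 750 171 (.na 743 163 (.lg 0 false 1 0 0 16 0 24) (.na 744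
  166 (.lg 0 false 1 0 0 16 0 24) (.nx 749 41287 (.nr 748 1048577 (.nr 745 166 .s1 (.nx 746 647
  (.l1 (.ls 67 41 2524)) (.nr 747 131073 (.lg 0 true 1 73 73 19 0 912) .out))) .out) .out))) (.na
  751 173 (.lg 0 false 1 0 0 16 0 24) (.na 757 174 (.nx 756 41287 (.nr 755 1048577 (.nr 752 173 .s1
  (.nx 753 647 (.l1 (.ls 61 31 2422)) (.nr 754 131073 (.lg 0 true 1 71 71 16 0 1368) .out))) .out)
  .out) (.nx 762 41287 (.nr 761 1048577 (.nr 758 174 .s1 (.nx 759 647 (.l1 (.ls 71 47 2408)) (.nr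
  760 131073 (.lg 0 true 1 79 79 23 0 2736) .out))) .out) .out))))) (.na 789 193 (.na 771 183 (.na
  769 179 (.nx 768 41287 (.nr 767 1048577 (.nr 764 178 .s1 (.nx 765 647 (.l1 (.ls 67 41 2354)) (.nr
  766 131073 (.lg 0 true 1 73 73 19 0 2736) .out))) .out) .out) (.na 770 181 (.lg 0 false 1 0 0 16
  0 24) (.lg 0 false 1 0 0 16 0 24))) (.na 777 186 (.nx 776 41287 (.nr 775 1048577 (.nr 772 183 .s1
  (.nx 773 647 (.l1 (.ls 59 37 2290)) (.nr 774 131073 (.lg 0 true 1 73 73 17 0 1368) .out))) .out)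
  .out) (.na 783 191 (.nx 782 41287 (.nr 781 1048577 (.nr 778 186 .s1 (.nx 779 647 (.l1 (.ls 73 47
  2253)) (.nr 780 131073 (.lg 0 true 1 79 79 29 0 2736) .out))) .out) .out) (.nx 788 41287 (.nr 787
  1048577 (.nr 784 191 .s1 (.nx 785 647 (.l1 (.ls 61 29 2194)) (.nr 786 131073 (.lg 0 true 1 71 71
  16 0 456) .out))) .out) .out)))) (.na 792 201 (.na 790 197 (.lg 0 false 1 0 0 16 0 24) (.na 791
  198 (.lg 0 false 1 0 0 16 0 24) (.lg 0 false 1 0 0 16 0 24))) (.na 804 211 (.na 798 206 (.nx 797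
  41287 (.nr 796 1048577 (.nr 793 201 .s1 (.nx 794 647 (.l1 (.ls 61 37 2085)) (.nr 795 131073 (.lg
  0 true 1 73 73 19 0 6840) .out))) .out) .out) (.nx 803 41287 (.nr 802 1048577 (.nr 799 206 .s1
  (.nx 800 647 (.l1 (.ls 67 37 2035)) (.nr 801 131073 (.lg 0 true 1 73 73 23 0 912) .out))) .out)
  .out)) (.na 810 219 (.nx 809 41287 (.nr 808 1048577 (.nr 805 211 .s1 (.nx 806 647 (.l1 (.ls 61 29
  1986)) (.nr 807 131073 (.lg 0 true 1 71 71 16 0 456) .out))) .out) .out) (.nx 815 41287 (.nr 814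
  1048577 (.nr 811 219 .s1 (.nx 812 647 (.l1 (.ls 67 37 1914)) (.nr 813 131073 (.lg 0 true 1 73 73
  19 0 1368) .out))) .out) .out)))))) (.na 873 256 (.na 842 242 (.na 829 229 (.na 822 226 (.nx 821
  41287 (.nr 820 1048577 (.nr 817 223 .s1 (.nx 818 647 (.l1 (.ls 59 29 1880)) (.nr 819 131073 (.lg
  0 true 1 67 67 16 0 456) .out))) .out) .out) (.na 828 227 (.nx 827 41287 (.nr 826 1048577 (.nr
  823 226 .s1 (.nx 824 647 (.l1 (.ls 67 37 1855)) (.nr 825 131073 (.lg 0 true 1 71 71 23 0 912)
  .out))) .out) .out) (.lg 0 false 1 0 0 16 0 24))) (.na 835 233 (.nx 834 41287 (.nr 833 1048577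
  (.nr 830 229 .s1 (.nx 831 647 (.l1 (.ls 61 29 1830)) (.nr 832 131073 (.lg 0 true 1 71 71 17 0
  6840) .out))) .out) .out) (.na 836 237 (.lg 0 false 1 0 0 16 0 24) (.nx 841 41287 (.nr 840
  1048577 (.nr 837 237 .s1 (.nx 838 647 (.l1 (.ls 61 31 1769)) (.nr 839 131073 (.lg 0 true 1 71 71
  19 0 1368) .out))) .out) .out)))) (.na 855 251 (.na 848 243 (.nx 847 41287 (.nr 846 1048577 (.nr
  843 242 .s1 (.nx 844 647 (.l1 (.ls 67 41 1732)) (.nr 845 131073 (.lg 0 true 1 71 71 29 0 10032)
  .out))) .out) .out) (.na 849 246 (.lg 0 false 1 0 0 16 0 24) (.nx 854 41287 (.nr 853 1048577 (.nr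
  850 246 .s1 (.nx 851 647 (.l1 (.ls 71 43 1704)) (.nr 852 131073 (.lg 0 true 1 79 79 29 0 2736)
  .out))) .out) .out))) (.na 861 253 (.nx 860 41287 (.nr 859 1048577 (.nr 856 251 .s1 (.nx 857 647
  (.l1 (.ls 61 29 1670)) (.nr 858 131073 (.lg 0 true 1 67 67 17 0 456) .out))) .out) .out) (.na 867
  254 (.nx 866 41287 (.nr 865 1048577 (.nr 862 253 .s1 (.nx 863 647 (.l1 (.ls 71 37 1657)) (.nr 864
  131073 (.lg 0 false 1 73 73 19 0 5016) .out))) .out) .out) (.nx 872 41287 (.nr 871 1048577 (.nr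
  868 254 .s1 (.nx 869 647 (.l1 (.ls 61 37 1651)) (.nr 870 131073 (.lg 0 true 1 71 71 23 0 912)
  .out))) .out) .out))))) (.na 2241 2048 (.na 1464 725 (.na 874 257 .ne (.na 1190 512 (.nx 1189
  41287 (.nr 1188 262145 (.nr 875 257 .s1 (.nx 932 57 (.nr 931 2746 (.lx (.lp 41 17 129)) (.l1
  .sk)) (.nx 933 58 (.l1 .sk) (.la (.lg 0 true 1 71 71 23 0))))) .out) .out) (.nx 1463 41287 (.nr
  1462 262145 (.nr 1191 512 .s1 (.nx 1248 57 (.nr 1247 3888 (.lx (.lp 16 16 182)) (.l1 .sk)) (.nx
  1249 58 (.l1 .sk) (.la (.lg 0 true 1 61 61 23 0))))) .out) .out))) (.na 1723 1024 (.nx 1722 257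
  (.nr 1721 65537 (.nr 1465 725 .s1 (.lx (.lp 53 23 257))) .out) .out) (.na 1982 1449 (.nx 1981 257
  (.nr 1980 65537 (.nr 1724 1024 .s1 (.lx (.lp 17 19 363))) .out) .out) (.nx 2240 257 (.nr 2239
  16385 (.nr 1983 1449 .s1 (.lx (.lp 41 23 513))) .out) .out)))) (.na 3018 5793 (.na 2500 2897 (.nx
  2499 257 (.nr 2498 32769 (.nr 2242 2048 .s1 (.lx (.lp 41 29 725))) .out) .out) (.na 2759 4096
  (.nx 2758 257 (.nr 2757 32769 (.nr 2501 2897 .s1 (.lx (.lp 41 29 1025))) .out) .out) (.nx 3017
  257 (.nr 3016 32769 (.nr 2760 4096 .s1 (.lx (.lp 37 31 1449))) .out) .out))) (.na 3228 16384 (.na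
  3123 8192 (.nx 3122 103 (.nr 3121 32769 (.nr 3019 5793 .s1 (.lx (.lp 16 0 2049))) .out) .out)
  (.nx 3227 103 (.nr 3226 32769 (.nr 3124 8192 .s1 (.lx (.lp 16 0 4097))) .out) .out)) (.na 3230
  32769 (.nx 3229 103 (.l1 .sk) .out) .out)))))))

theorem c96 :
    OkQ ckI L8 168 1 23 0 34359738368 1 1099511627776 ∧
    OkQ ckI L9 209 1 6 0 34359738368 1 1099511627776 ∧
    OkQ ckI L5 57 1 1099511627776 0 34359738368 1 1099511627776 := by
  refine ⟨?_, ?_, ?_⟩
  · refine fin 168 1031 T96_0 ?_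
    refine jn 6 (by decide +kernel) ?_
    refine jn 11 (by decide +kernel) ?_
    refine jn 15 (by decide +kernel) ?_
    refine jn 17 (by decide +kernel) ?_
    refine jn 21 (by decide +kernel) ?_
    refine jn 26 (by decide +kernel) ?_
    refine jn 30 (by decide +kernel) ?_
    refine jn 33 (by decide +kernel) ?_
    refine jn 38 (by decide +kernel) ?_
    refine jn 41 (by decide +kernel) ?_
    refine jn 44 (by decide +kernel) ?_
    refine jn 49 (by decide +kernel) ?_
    refine jn 54 (by decide +kernel) ?_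
    refine jn 56 (by decide +kernel) ?_
    refine jn 60 (by decide +kernel) ?_
    refine jn 65 (by decide +kernel) ?_
    refine jn 88 (by decide +kernel) ?_
    refine jn 104 (by decide +kernel) ?_
    refine jn 114 (by decide +kernel) ?_
    refine jn 122 (by decide +kernel) ?_
    refine jn 131 (by decide +kernel) ?_
    refine jn 138 (by decide +kernel) ?_
    refine jn 147 (by decide +kernel) ?_
    refine jn 156 (by decide +kernel) ?_
    refine jn 161 (by decide +kernel) ?_
    refine jn 174 (by decide +kernel) ?_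
    refine jn 187 (by decide +kernel) ?_
    refine jn 198 (by decide +kernel) ?_
    refine jn 211 (by decide +kernel) ?_
    refine jn 231 (by decide +kernel) ?_
    refine jn 250 (by decide +kernel) ?_
    refine jn 266 (by decide +kernel) ?_
    refine jn 287 (by decide +kernel) ?_
    refine jn 294 (by decide +kernel) ?_
    refine jn 308 (by decide +kernel) ?_
    refine jn 314 (by decide +kernel) ?_
    refine jn 320 (by decide +kernel) ?_
    refine jn 324 (by decide +kernel) ?_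
    refine jn 334 (by decide +kernel) ?_
    refine jn 346 (by decide +kernel) ?_
    refine jn 368 (by decide +kernel) ?_
    refine jn 390 (by decide +kernel) ?_
    refine jn 413 (by decide +kernel) ?_
    refine jn 437 (by decide +kernel) ?_
    refine jn 471 (by decide +kernel) ?_
    refine jn 477 (by decide +kernel) ?_
    refine jn 478 (by decide +kernel) ?_
    refine jn 479 (by decide +kernel) ?_
    refine jn 480 (by decide +kernel) ?_
    refine jn 481 (by decide +kernel) ?_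
    refine jn 482 (by decide +kernel) ?_
    refine jn 483 (by decide +kernel) ?_
    refine jn 484 (by decide +kernel) ?_
    refine jn 485 (by decide +kernel) ?_
    refine jn 486 (by decide +kernel) ?_
    refine jn 487 (by decide +kernel) ?_
    refine jn 488 (by decide +kernel) ?_
    refine jn 504 (by decide +kernel) ?_
    refine jn 508 (by decide +kernel) ?_
    refine jn 510 (by decide +kernel) ?_
    refine jn 512 (by decide +kernel) ?_
    refine jn 514 (by decide +kernel) ?_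
    refine jn 516 (by decide +kernel) ?_
    refine jn 517 (by decide +kernel) ?_
    refine jn 522 (by decide +kernel) ?_
    refine jn 527 (by decide +kernel) ?_
    refine jn 538 (by decide +kernel) ?_
    refine jn 549 (by decide +kernel) ?_
    refine jn 560 (by decide +kernel) ?_
    refine jn 571 (by decide +kernel) ?_
    refine jn 582 (by decide +kernel) ?_
    refine jn 590 (by decide +kernel) ?_
    refine jn 594 (by decide +kernel) ?_
    refine jn 627 (by decide +kernel) ?_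
    refine jn 644 (by decide +kernel) ?_
    refine jn 652 (by decide +kernel) ?_
    refine jn 664 (by decide +kernel) ?_
    refine jn 686 (by decide +kernel) ?_
    refine jn 725 (by decide +kernel) ?_
    refine jn 733 (by decide +kernel) ?_
    refine jn 736 (by decide +kernel) ?_
    refine jn 738 (by decide +kernel) ?_
    refine jn 741 (by decide +kernel) ?_
    refine jn 743 (by decide +kernel) ?_
    refine jn 748 (by decide +kernel) ?_
    refine jn 753 (by decide +kernel) ?_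
    refine jn 759 (by decide +kernel) ?_
    refine jn 770 (by decide +kernel) ?_
    refine jn 781 (by decide +kernel) ?_
    refine jn 805 (by decide +kernel) ?_
    refine jn 817 (by decide +kernel) ?_
    refine jn 828 (by decide +kernel) ?_
    refine jn 832 (by decide +kernel) ?_
    refine jn 836 (by decide +kernel) ?_
    refine jn 838 (by decide +kernel) ?_
    refine jn 842 (by decide +kernel) ?_
    refine jn 843 (by decide +kernel) ?_
    refine jn 853 (by decide +kernel) ?_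
    refine jn 861 (by decide +kernel) ?_
    refine jn 867 (by decide +kernel) ?_
    refine jn 876 (by decide +kernel) ?_
    refine jn 879 (by decide +kernel) ?_
    refine jn 882 (by decide +kernel) ?_
    refine jn 884 (by decide +kernel) ?_
    refine jn 890 (by decide +kernel) ?_
    refine jn 894 (by decide +kernel) ?_
    refine jn 896 (by decide +kernel) ?_
    refine jn 901 (by decide +kernel) ?_
    refine jn 902 (by decide +kernel) ?_
    refine jn 903 (by decide +kernel) ?_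
    refine jn 904 (by decide +kernel) ?_
    refine jn 905 (by decide +kernel) ?_
    refine jn 906 (by decide +kernel) ?_
    refine jn 907 (by decide +kernel) ?_
    refine jn 908 (by decide +kernel) ?_
    refine jn 909 (by decide +kernel) ?_
    refine jn 910 (by decide +kernel) ?_
    refine jn 911 (by decide +kernel) ?_
    refine jn 912 (by decide +kernel) ?_
    refine jn 913 (by decide +kernel) ?_
    refine jn 925 (by decide +kernel) ?_
    refine jn 940 (by decide +kernel) ?_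
    refine jn 943 (by decide +kernel) ?_
    refine jn 946 (by decide +kernel) ?_
    refine jn 949 (by decide +kernel) ?_
    refine jn 951 (by decide +kernel) ?_
    refine jn 957 (by decide +kernel) ?_
    refine jn 964 (by decide +kernel) ?_
    refine jn 969 (by decide +kernel) ?_
    refine jn 970 (by decide +kernel) ?_
    refine jn 971 (by decide +kernel) ?_
    refine jn 972 (by decide +kernel) ?_
    refine jn 973 (by decide +kernel) ?_
    refine jn 974 (by decide +kernel) ?_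
    refine jn 975 (by decide +kernel) ?_
    refine jn 976 (by decide +kernel) ?_
    refine jn 977 (by decide +kernel) ?_
    refine jn 978 (by decide +kernel) ?_
    refine jn 979 (by decide +kernel) ?_
    refine jn 980 (by decide +kernel) ?_
    refine jn 989 (by decide +kernel) ?_
    refine jn 1010 (by decide +kernel) ?_
    refine jn 1027 (by decide +kernel) ?_
    exact je (by decide +kernel)
  · refine fin 15048 891 T96_1 ?_
    refine jn 6 (by decide +kernel) ?_
    refine jn 11 (by decide +kernel) ?_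
    refine jn 16 (by decide +kernel) ?_
    refine jn 19 (by decide +kernel) ?_
    refine jn 24 (by decide +kernel) ?_
    refine jn 28 (by decide +kernel) ?_
    refine jn 30 (by decide +kernel) ?_
    refine jn 34 (by decide +kernel) ?_
    refine jn 39 (by decide +kernel) ?_
    refine jn 42 (by decide +kernel) ?_
    refine jn 45 (by decide +kernel) ?_
    refine jn 50 (by decide +kernel) ?_
    refine jn 54 (by decide +kernel) ?_
    refine jn 55 (by decide +kernel) ?_
    refine jn 65 (by decide +kernel) ?_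
    refine jn 76 (by decide +kernel) ?_
    refine jn 87 (by decide +kernel) ?_
    refine jn 99 (by decide +kernel) ?_
    refine jn 107 (by decide +kernel) ?_
    refine jn 127 (by decide +kernel) ?_
    refine jn 153 (by decide +kernel) ?_
    refine jn 169 (by decide +kernel) ?_
    refine jn 184 (by decide +kernel) ?_
    refine jn 199 (by decide +kernel) ?_
    refine jn 215 (by decide +kernel) ?_
    refine jn 234 (by decide +kernel) ?_
    refine jn 254 (by decide +kernel) ?_
    refine jn 275 (by decide +kernel) ?_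
    refine jn 292 (by decide +kernel) ?_
    refine jn 308 (by decide +kernel) ?_
    refine jn 324 (by decide +kernel) ?_
    refine jn 345 (by decide +kernel) ?_
    refine jn 381 (by decide +kernel) ?_
    refine jn 392 (by decide +kernel) ?_
    refine jn 398 (by decide +kernel) ?_
    refine jn 404 (by decide +kernel) ?_
    refine jn 410 (by decide +kernel) ?_
    refine jn 416 (by decide +kernel) ?_
    refine jn 422 (by decide +kernel) ?_
    refine jn 449 (by decide +kernel) ?_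
    refine jn 471 (by decide +kernel) ?_
    refine jn 484 (by decide +kernel) ?_
    refine jn 496 (by decide +kernel) ?_
    refine jn 507 (by decide +kernel) ?_
    refine jn 532 (by decide +kernel) ?_
    refine jn 542 (by decide +kernel) ?_
    refine jn 562 (by decide +kernel) ?_
    refine jn 580 (by decide +kernel) ?_
    refine jn 597 (by decide +kernel) ?_
    refine jn 617 (by decide +kernel) ?_
    refine jn 638 (by decide +kernel) ?_
    refine jn 652 (by decide +kernel) ?_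
    refine jn 665 (by decide +kernel) ?_
    refine jn 686 (by decide +kernel) ?_
    refine jn 709 (by decide +kernel) ?_
    refine jn 711 (by decide +kernel) ?_
    refine jn 713 (by decide +kernel) ?_
    refine jn 715 (by decide +kernel) ?_
    refine jn 717 (by decide +kernel) ?_
    refine jn 719 (by decide +kernel) ?_
    refine jn 721 (by decide +kernel) ?_
    refine jn 723 (by decide +kernel) ?_
    refine jn 725 (by decide +kernel) ?_
    refine jn 738 (by decide +kernel) ?_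
    refine jn 747 (by decide +kernel) ?_
    refine jn 750 (by decide +kernel) ?_
    refine jn 753 (by decide +kernel) ?_
    refine jn 757 (by decide +kernel) ?_
    refine jn 770 (by decide +kernel) ?_
    refine jn 783 (by decide +kernel) ?_
    refine jn 793 (by decide +kernel) ?_
    refine jn 801 (by decide +kernel) ?_
    refine jn 805 (by decide +kernel) ?_
    refine jn 816 (by decide +kernel) ?_
    refine jn 825 (by decide +kernel) ?_
    refine jn 832 (by decide +kernel) ?_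
    refine jn 834 (by decide +kernel) ?_
    refine jn 841 (by decide +kernel) ?_
    refine jn 886 (by decide +kernel) ?_
    exact je (by decide +kernel)
  · refine fin 456 3231 T96_2 ?_
    refine jn 4 (by decide +kernel) ?_
    refine jn 5 (by decide +kernel) ?_
    refine jn 6 (by decide +kernel) ?_
    refine jn 7 (by decide +kernel) ?_
    refine jn 8 (by decide +kernel) ?_
    refine jn 9 (by decide +kernel) ?_
    refine jn 10 (by decide +kernel) ?_
    refine jn 11 (by decide +kernel) ?_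
    refine jn 12 (by decide +kernel) ?_
    refine jn 13 (by decide +kernel) ?_
    refine jn 14 (by decide +kernel) ?_
    refine jn 15 (by decide +kernel) ?_
    refine jn 16 (by decide +kernel) ?_
    refine jn 17 (by decide +kernel) ?_
    refine jn 18 (by decide +kernel) ?_
    refine jn 19 (by decide +kernel) ?_
    refine jn 65 (by decide +kernel) ?_
    refine jn 70 (by decide +kernel) ?_
    refine jn 72 (by decide +kernel) ?_
    refine jn 74 (by decide +kernel) ?_
    refine jn 76 (by decide +kernel) ?_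
    refine jn 78 (by decide +kernel) ?_
    refine jn 80 (by decide +kernel) ?_
    refine jn 82 (by decide +kernel) ?_
    refine jn 84 (by decide +kernel) ?_
    refine jn 88 (by decide +kernel) ?_
    refine jn 99 (by decide +kernel) ?_
    refine jn 107 (by decide +kernel) ?_
    refine jn 115 (by decide +kernel) ?_
    refine jn 125 (by decide +kernel) ?_
    refine jn 134 (by decide +kernel) ?_
    refine jn 136 (by decide +kernel) ?_
    refine jn 137 (by decide +kernel) ?_
    refine jn 139 (by decide +kernel) ?_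
    refine jn 141 (by decide +kernel) ?_
    refine jn 142 (by decide +kernel) ?_
    refine jn 144 (by decide +kernel) ?_
    refine jn 150 (by decide +kernel) ?_
    refine jn 156 (by decide +kernel) ?_
    refine jn 163 (by decide +kernel) ?_
    refine jn 170 (by decide +kernel) ?_
    refine jn 178 (by decide +kernel) ?_
    refine jn 184 (by decide +kernel) ?_
    refine jn 196 (by decide +kernel) ?_
    refine jn 222 (by decide +kernel) ?_
    refine jn 231 (by decide +kernel) ?_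
    refine jn 234 (by decide +kernel) ?_
    refine jn 237 (by decide +kernel) ?_
    refine jn 238 (by decide +kernel) ?_
    refine jn 245 (by decide +kernel) ?_
    refine jn 252 (by decide +kernel) ?_
    refine jn 258 (by decide +kernel) ?_
    refine jn 269 (by decide +kernel) ?_
    refine jn 294 (by decide +kernel) ?_
    refine jn 305 (by decide +kernel) ?_
    refine jn 315 (by decide +kernel) ?_
    refine jn 327 (by decide +kernel) ?_
    refine jn 336 (by decide +kernel) ?_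
    refine jn 348 (by decide +kernel) ?_
    refine jn 350 (by decide +kernel) ?_
    refine jn 351 (by decide +kernel) ?_
    refine jn 352 (by decide +kernel) ?_
    refine jn 353 (by decide +kernel) ?_
    refine jn 354 (by decide +kernel) ?_
    refine jn 355 (by decide +kernel) ?_
    refine jn 356 (by decide +kernel) ?_
    refine jn 357 (by decide +kernel) ?_
    refine jn 358 (by decide +kernel) ?_
    refine jn 359 (by decide +kernel) ?_
    refine jn 360 (by decide +kernel) ?_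
    refine jn 361 (by decide +kernel) ?_
    refine jn 362 (by decide +kernel) ?_
    refine jn 363 (by decide +kernel) ?_
    refine jn 364 (by decide +kernel) ?_
    refine jn 365 (by decide +kernel) ?_
    refine jn 378 (by decide +kernel) ?_
    refine jn 391 (by decide +kernel) ?_
    refine jn 399 (by decide +kernel) ?_
    refine jn 401 (by decide +kernel) ?_
    refine jn 406 (by decide +kernel) ?_
    refine jn 417 (by decide +kernel) ?_
    refine jn 421 (by decide +kernel) ?_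
    refine jn 422 (by decide +kernel) ?_
    refine jn 427 (by decide +kernel) ?_
    refine jn 435 (by decide +kernel) ?_
    refine jn 438 (by decide +kernel) ?_
    refine jn 441 (by decide +kernel) ?_
    refine jn 442 (by decide +kernel) ?_
    refine jn 443 (by decide +kernel) ?_
    refine jn 444 (by decide +kernel) ?_
    refine jn 445 (by decide +kernel) ?_
    refine jn 455 (by decide +kernel) ?_
    refine jn 457 (by decide +kernel) ?_
    refine jn 461 (by decide +kernel) ?_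
    refine jn 470 (by decide +kernel) ?_
    refine jn 475 (by decide +kernel) ?_
    refine jn 490 (by decide +kernel) ?_
    refine jn 501 (by decide +kernel) ?_
    refine jn 511 (by decide +kernel) ?_
    refine jn 522 (by decide +kernel) ?_
    refine jn 533 (by decide +kernel) ?_
    refine jn 543 (by decide +kernel) ?_
    refine jn 553 (by decide +kernel) ?_
    refine jn 562 (by decide +kernel) ?_
    refine jn 573 (by decide +kernel) ?_
    refine jn 583 (by decide +kernel) ?_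
    refine jn 595 (by decide +kernel) ?_
    refine jn 605 (by decide +kernel) ?_
    refine jn 613 (by decide +kernel) ?_
    refine jn 625 (by decide +kernel) ?_
    refine jn 633 (by decide +kernel) ?_
    refine jn 638 (by decide +kernel) ?_
    refine jn 655 (by decide +kernel) ?_
    refine jn 671 (by decide +kernel) ?_
    refine jn 688 (by decide +kernel) ?_
    refine jn 701 (by decide +kernel) ?_
    refine jn 714 (by decide +kernel) ?_
    refine jn 731 (by decide +kernel) ?_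
    refine jn 745 (by decide +kernel) ?_
    refine jn 758 (by decide +kernel) ?_
    refine jn 772 (by decide +kernel) ?_
    refine jn 786 (by decide +kernel) ?_
    refine jn 805 (by decide +kernel) ?_
    refine jn 819 (by decide +kernel) ?_
    refine jn 839 (by decide +kernel) ?_
    refine jn 858 (by decide +kernel) ?_
    refine jn 870 (by decide +kernel) ?_
    refine jn 943 (by decide +kernel) ?_
    refine jn 958 (by decide +kernel) ?_
    refine jn 983 (by decide +kernel) ?_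
    refine jn 990 (by decide +kernel) ?_
    refine jn 995 (by decide +kernel) ?_
    refine jn 1015 (by decide +kernel) ?_
    refine jn 1022 (by decide +kernel) ?_
    refine jn 1039 (by decide +kernel) ?_
    refine jn 1057 (by decide +kernel) ?_
    refine jn 1073 (by decide +kernel) ?_
    refine jn 1095 (by decide +kernel) ?_
    refine jn 1114 (by decide +kernel) ?_
    refine jn 1123 (by decide +kernel) ?_
    refine jn 1133 (by decide +kernel) ?_
    refine jn 1147 (by decide +kernel) ?_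
    refine jn 1158 (by decide +kernel) ?_
    refine jn 1179 (by decide +kernel) ?_
    refine jn 1191 (by decide +kernel) ?_
    refine jn 1258 (by decide +kernel) ?_
    refine jn 1275 (by decide +kernel) ?_
    refine jn 1299 (by decide +kernel) ?_
    refine jn 1324 (by decide +kernel) ?_
    refine jn 1351 (by decide +kernel) ?_
    refine jn 1364 (by decide +kernel) ?_
    refine jn 1378 (by decide +kernel) ?_
    refine jn 1406 (by decide +kernel) ?_
    refine jn 1415 (by decide +kernel) ?_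
    refine jn 1435 (by decide +kernel) ?_
    refine jn 1455 (by decide +kernel) ?_
    refine jn 1707 (by decide +kernel) ?_
    refine jn 2179 (by decide +kernel) ?_
    refine jn 2501 (by decide +kernel) ?_
    refine jn 3019 (by decide +kernel) ?_
    exact je (by decide +kernel)

end Pool.Agent.MP_2339ce_nt.NR
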