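import Pool.Agent.MP_2339ce_nt.Q2.NC.C7
import Pool.Agent.MP_2339ce_nt.Q2.NC.C25
import Pool.Agent.MP_2339ce_nt.Q2.NC.C33
import Pool.Agent.MP_2339ce_nt.Q2.NC.C36
import Pool.Agent.MP_2339ce_nt.Q2.NC.C37
import Pool.Agent.MP_2339ce_nt.Q2.NC.C47
import Pool.Agent.MP_2339ce_nt.Q2.NC.C58
import Pool.Agent.MP_2339ce_nt.Q2.NC.C71
import Pool.Agent.MP_2339ce_nt.Q2.NC.C76
import Pool.Agent.MP_2339ce_nt.Q2.NC.C84
import Pool.Agent.MP_2339ce_nt.Q2.NC.C88
import Pool.Agent.MP_2339ce_nt.Q2.NC.C89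
import Pool.Agent.MP_2339ce_nt.Q2.NC.C96
import Pool.Agent.MP_2339ce_nt.Q2.NC.C99
import Pool.Agent.MP_2339ce_nt.Q2.NC.C107
import Pool.Agent.MP_2339ce_nt.Q2.NC.C109
import Pool.Agent.MP_2339ce_nt.Q2.NC.C111
import Pool.Agent.MP_2339ce_nt.Q2.NC.C115
import Pool.Agent.MP_2339ce_nt.Q2.NC.C118
import Pool.Agent.MP_2339ce_nt.Q2.NC.C123
import Pool.Agent.MP_2339ce_nt.Q2.NC.C124
import Pool.Agent.MP_2339ce_nt.Q2.NC.C129
import Pool.Agent.MP_2339ce_nt.Q2.NC.C131
import Pool.Agent.MP_2339ce_nt.Q2.NC.C132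
import Pool.Agent.MP_2339ce_nt.Q2.NC.C135
import Pool.Agent.MP_2339ce_nt.Q2.NC.C136
import Pool.Agent.MP_2339ce_nt.Q2.NC.C138
import Pool.Agent.MP_2339ce_nt.Q2.NC.C140
import Pool.Agent.MP_2339ce_nt.Q2.NC.C143

/-! Block NR: the runs for `33 ≤ N ≤ 64`. -/

set_option autoImplicit false
set_option maxRecDepth 100000

noncomputable section

namespace Pool.Agent.MP_2339ce_nt.NR

open Q2.Top

theorem q33 : OkQ ckI L5 33 1 1099511627776 0 34359738368 1 1099511627776 :=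
  c123.2.2

theorem q35 : OkQ ckI L5 35 1 1099511627776 0 34359738368 1 1099511627776 :=
  c84.2.2

theorem q36 : OkQ ckI L5 36 1 1099511627776 0 34359738368 1 1099511627776 :=
  c107.2.2

theorem q37 : OkQ ckI L5 37 1 1099511627776 0 34359738368 1 1099511627776 :=
  c37.2.2

theorem q39 : OkQ ckI L5 39 1 1099511627776 0 34359738368 1 1099511627776 :=
  qa 11 c124.2.1 (c129.2.1)

theorem q40 : OkQ ckI L5 40 1 1099511627776 0 34359738368 1 1099511627776 :=
  c111.1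

theorem q41 : OkQ ckI L5 41 1 1099511627776 0 34359738368 1 1099511627776 :=
  c25.1

theorem q43 : OkQ ckI L5 43 1 1099511627776 0 34359738368 1 1099511627776 :=
  c33.2.2

theorem q44 : OkQ ckI L5 44 1 1099511627776 0 34359738368 1 1099511627776 :=
  c47.2.1

theorem q45 : OkQ ckI L5 45 1 1099511627776 0 34359738368 1 1099511627776 :=
  c136.2.1

theorem q47 : OkQ ckI L5 47 1 1099511627776 0 34359738368 1 1099511627776 :=
  qa 24 c118.1 (c131.2.1)

theorem q48 : OkQ ckI L5 48 1 1099511627776 0 34359738368 1 1099511627776 :=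
  qa 9 c115.2.2 (c143.2.1)

theorem q49 : OkQ ckI L5 49 1 1099511627776 0 34359738368 1 1099511627776 :=
  c99.2.2

theorem q51 : OkQ ckI L5 51 1 1099511627776 0 34359738368 1 1099511627776 :=
  c58.2.2

theorem q52 : OkQ ckI L5 52 1 1099511627776 0 34359738368 1 1099511627776 :=
  c76.2.2

theorem q53 : OkQ ckI L5 53 1 1099511627776 0 34359738368 1 1099511627776 :=
  c89.2.2

theorem q55 : OkQ ckI L5 55 1 1099511627776 0 34359738368 1 1099511627776 :=
  qa 9 c135.2.2 (c109.2.2)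

theorem q56 : OkQ ckI L5 56 1 1099511627776 0 34359738368 1 1099511627776 :=
  qa 15 c140.2.2 (c138.2.2)

theorem q57 : OkQ ckI L5 57 1 1099511627776 0 34359738368 1 1099511627776 :=
  c96.2.2

theorem q59 : OkQ ckI L5 59 1 1099511627776 0 34359738368 1 1099511627776 :=
  c71.2.2

theorem q60 : OkQ ckI L5 60 1 1099511627776 0 34359738368 1 1099511627776 :=
  c7.2

theorem q61 : OkQ ckI L5 61 1 1099511627776 0 34359738368 1 1099511627776 :=
  c88.2.2

theorem q63 : OkQ ckI L5 63 1 1099511627776 0 34359738368 1 1099511627776 :=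
  qa 10 c132.2.2 (c135.1)

theorem q64 : OkQ ckI L5 64 1 1099511627776 0 34359738368 1 1099511627776 :=
  c36.2.1

end Pool.Agent.MP_2339ce_nt.NR
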