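import Pool.Agent.MP_2339ce_nt.Q2.NC.L6
import Pool.Agent.MP_2339ce_nt.Q2.NC.L8
import Pool.Agent.MP_2339ce_nt.Q2.CkI

/-! Block NR: runs. -/

set_option autoImplicit false
set_option maxRecDepth 100000

noncomputable section

namespace Pool.Agent.MP_2339ce_nt.NR

open Q2.Top

def T104_0 : Ph :=
  (.na 383 164 (.na 204 100 (.na 105 74 (.na 57 60 (.na 21 50 (.na 20 46 (.nx 19 1664512 (.nr 18
  881745 (.nr 1 43 .s1 (.nx 12 26009 (.nx 9 10323 (.nx 5 257 (.nx 3 164 (.nr 2 417 (.l1 (.ls 31 37
  614)) (.l1 .sk)) (.nx 4 165 (.l1 .sk) (.l1 (.ls 89 37 885)))) (.nr 8 440873 (.lg 0 false 3 97 101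
  23 0 2273040) .out)) (.nr 11 110219 (.lg 0 false 2 97 101 23 0 2273040) .out)) (.nr 17 32769 (.nr
  15 417 (.lg 0 true 3 79 79 23 0 64944) (.nx 16 104033 (.lg 2 true 1 97 97 19 20458 2273040)
  .out)) .out))) .out) .out) .ne) (.na 40 54 (.nx 39 1664512 (.nr 38 881745 (.nr 22 49 .s1 (.nx 31
  20644 (.nx 23 257 (.l1 (.ls 79 41 1323)) (.nr 30 623489 (.lg 0 false 7 89 97 23 0 206640) .out))
  (.nr 37 46342 (.nr 34 257 (.lg 0 true 3 67 67 19 0 29520) (.nx 36 104033 (.lg 2 true 2 83 83 19
  33194 29520) .out)) .out))) .out) .out) (.nx 56 1664512 (.nr 55 881745 (.nr 41 53 .s1 (.nx 42 257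
  (.l1 (.ls 79 41 1226)) (.nr 54 623489 (.nx 47 20644 (.lg 0 false 5 89 97 23 0 206640) (.nr 53
  46342 (.nr 50 257 (.lg 0 true 3 67 67 23 0 5904) (.nx 52 104033 (.lg 2 true 2 83 83 19 33194
  206640) .out)) .out)) .out))) .out) .out))) (.na 76 66 (.na 75 64 (.nx 74 1664512 (.nr 73 881745
  (.nr 58 59 .s1 (.nx 60 164 (.nr 59 581 (.l1 (.ls 37 37 451)) (.l1 .sk)) (.nx 61 165 (.l1 .sk)
  (.nx 70 104033 (.nx 62 257 (.l1 (.ls 89 41 650)) (.nr 69 623489 (.nr 66 110219 (.nx 63 26009 (.lg
  0 false 1 103 103 29 0 2273040) (.nr 65 32769 (.nr 64 4363 (.lg 0 true 1 83 83 29 0 29520) (.lg 2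
  false 1 89 89 29 17029 29520)) .out)) (.nx 68 13005 (.lg 0 false 2 101 107 31 0 2273040) .out))
  .out)) (.nr 72 257 (.lg 0 true 2 73 79 31 0 29520) .out))))) .out) .out) .ne) (.na 91 70 (.nx 90
  1664512 (.nr 89 524289 (.nr 77 65 .s1 (.nx 80 165 (.nx 79 164 (.nr 78 635 (.l1 (.ls 31 37 410))
  (.l1 .sk)) (.l1 .sk)) (.nx 84 20644 (.nx 82 13005 (.lg 0 false 2 97 97 29 0 64944) (.nr 83 65537
  (.lg 0 true 1 83 83 29 0 64944) .out)) (.nr 88 32769 (.nr 86 513 (.lg 0 true 2 73 73 29 0 64944)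
  (.nx 87 104033 (.lg 2 true 1 83 83 29 21454 64944) .out)) .out)))) .out) .out) (.nx 104 1664512
  (.nr 103 524289 (.nr 92 69 .s1 (.nx 95 165 (.nx 94 164 (.nr 93 672 (.l1 (.ls 31 37 387)) (.l1
  .sk)) (.l1 .sk)) (.nx 98 20644 (.lg 0 false 3 97 101 29 0 206640) (.nr 102 32769 (.nr 100 513
  (.lg 0 true 2 73 73 29 0 206640) (.nx 101 104033 (.lg 2 true 1 83 83 23 21454 206640) .out))
  .out)))) .out) .out)))) (.na 163 90 (.na 134 82 (.na 120 76 (.nx 119 1664512 (.nr 118 524289 (.nr
  106 73 .s1 (.nx 109 165 (.nx 108 164 (.nr 107 690 (.l1 (.ls 19 29 366)) (.l1 .sk)) (.l1 .sk))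
  (.nx 112 20644 (.lg 0 false 3 89 89 19 0 5904) (.nr 117 32769 (.nr 115 513 (.lg 0 true 3 71 71 19
  0 5904) (.nx 116 104033 (.lg 2 true 1 79 79 13 21454 5904) .out)) .out)))) .out) .out) (.nx 133
  1664512 (.nr 132 524289 (.nr 121 75 .s1 (.nx 124 165 (.nx 123 164 (.nr 122 744 (.l1 (.ls 17 31
  356)) (.l1 .sk)) (.l1 .sk)) (.nx 127 20644 (.lg 0 false 3 97 101 29 0 29520) (.nr 131 32769 (.nr
  129 513 (.lg 0 true 2 73 73 23 0 5904) (.nx 130 104033 (.lg 2 true 1 83 83 17 21454 5904) .out))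
  .out)))) .out) .out)) (.na 150 84 (.nx 149 1664512 (.nr 148 524289 (.nr 135 81 .s1 (.nx 141 20644
  (.nx 137 164 (.nr 136 762 (.lg 0 true 1 0 16 13 0 2273040) (.l1 .sk)) (.nx 138 165 (.l1 .sk) (.lg
  0 true 3 79 79 17 0 5904))) (.nr 147 32769 (.nr 144 513 (.lg 0 false 3 61 61 17 0 5904) (.nx 146
  104033 (.lg 2 true 2 67 67 13 21454 5904) .out)) .out))) .out) .out) (.nx 162 1664512 (.nr 161
  524289 (.nr 151 84 .s1 (.nx 154 165 (.nx 153 164 (.nr 152 817 (.l1 (.ls 37 37 323)) (.l1 .sk))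
  (.l1 .sk)) (.nx 159 104033 (.nr 155 32769 (.lg 0 true 1 97 97 31 0 206640) (.nx 158 20644 (.nx
  156 13005 (.lg 0 false 1 101 101 31 0 206640) (.nr 157 65537 (.lg 0 false 1 79 83 31 0 206640)
  .out)) .out)) (.nr 160 513 (.lg 0 true 1 79 79 31 0 41328) .out)))) .out) .out))) (.na 177 94
  (.na 176 91 (.nx 175 1664512 (.nr 174 524289 (.nr 164 90 .s1 (.nx 166 164 (.nr 165 826 (.l1 (.ls
  29 37 301)) (.l1 .sk)) (.nx 167 165 (.l1 .sk) (.nx 169 20644 (.lg 0 false 2 89 97 31 0 29520)
  (.nr 173 32769 (.nr 171 513 (.lg 0 true 2 71 71 31 0 29520) (.nx 172 104033 (.lg 2 true 1 79 79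
  29 21454 29520) .out)) .out))))) .out) .out) .ne) (.na 191 98 (.nx 190 1664512 (.nr 189 1048577
  (.nr 178 94 .s1 (.nx 184 20644 (.nx 180 164 (.nr 179 889 (.l1 (.ls 23 29 289)) (.l1 .sk)) (.nx
  181 165 (.l1 .sk) (.lg 0 false 3 97 97 19 0 5904))) (.nr 188 32769 (.nr 186 513 (.lg 0 true 2 71
  71 19 0 5904) (.nx 187 104033 (.lg 2 true 1 79 79 17 21454 5904) .out)) .out))) .out) .out) (.nx
  203 1664512 (.nr 202 1048577 (.nr 192 98 .s1 (.nx 194 164 (.nr 193 907 (.l1 (.ls 23 29 277)) (.l1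
  .sk)) (.nx 195 165 (.l1 .sk) (.nx 198 20644 (.lg 0 false 3 89 89 23 0 206640) (.nr 201 32769 (.nr
  199 513 (.lg 0 false 1 73 73 19 0 206640) (.nx 200 104033 (.lg 2 true 1 73 73 19 21454 206640)
  .out)) .out))))) .out) .out))))) (.na 293 134 (.na 257 122 (.na 231 110 (.na 218 108 (.nx 217
  1664512 (.nr 216 1048577 (.nr 205 100 .s1 (.nx 213 104033 (.nx 207 164 (.nr 206 980 (.l1 (.ls 29
  29 271)) (.l1 .sk)) (.nx 208 165 (.l1 .sk) (.nx 211 13005 (.lg 0 false 3 89 97 29 0 206640) (.nr
  212 65537 (.lg 0 false 1 97 97 23 0 206640) .out)))) (.nr 215 513 (.lg 0 true 2 71 71 29 0 29520)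
  .out))) .out) .out) (.nx 230 1664512 (.nr 229 1048577 (.nr 219 108 .s1 (.nx 226 104033 (.nx 221
  164 (.nr 220 998 (.l1 (.ls 29 31 252)) (.l1 .sk)) (.nx 222 165 (.l1 .sk) (.nx 224 13005 (.lg 0
  false 2 89 89 29 0 5904) (.nr 225 65537 (.lg 0 false 1 97 97 23 0 206640) .out)))) (.nr 228 513
  (.lg 0 true 2 71 71 29 0 5904) .out))) .out) .out)) (.na 244 114 (.nx 243 1664512 (.nr 242
  1048577 (.nr 232 110 .s1 (.nx 234 164 (.nr 233 1034 (.l1 (.ls 31 31 247)) (.l1 .sk)) (.nx 235 165
  (.l1 .sk) (.nr 239 65537 (.nx 236 104033 (.lg 0 false 1 101 101 29 0 2273040) (.nr 238 513 (.lg 0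
  true 2 73 73 31 0 324720) .out)) (.nx 241 13005 (.lg 0 false 2 97 97 31 0 2273040) .out)))))
  .out) .out) (.nx 256 1664512 (.nr 255 1048577 (.nr 245 114 .s1 (.nx 248 165 (.nx 247 164 (.nr 246
  1107 (.l1 (.ls 17 37 238)) (.l1 .sk)) (.l1 .sk)) (.nr 252 65537 (.nx 249 104033 (.lg 0 false 1
  101 101 31 0 206640) (.nr 251 513 (.lg 0 true 2 73 73 31 0 5904) .out)) (.nx 254 13005 (.lg 0
  false 2 101 101 31 0 206640) .out)))) .out) .out))) (.na 282 128 (.na 270 126 (.nx 269 1664512
  (.nr 268 1048577 (.nr 258 122 .s1 (.nx 264 20644 (.nx 260 164 (.nr 259 1143 (.l1 (.ls 19 23 223))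
  (.l1 .sk)) (.nx 261 165 (.l1 .sk) (.lg 0 false 3 89 89 23 0 5904))) (.nr 267 32769 (.nr 265 513
  (.lg 0 false 1 73 73 19 0 5904) (.nx 266 104033 (.lg 2 true 1 73 73 19 21454 5904) .out)) .out)))
  .out) .out) (.nx 281 1664512 (.nr 280 1048577 (.nr 271 126 .s1 (.nx 278 104033 (.nx 273 164 (.nr
  272 1161 (.l1 (.ls 29 31 216)) (.l1 .sk)) (.nx 274 165 (.l1 .sk) (.nr 275 65537 (.lg 0 false 1 89
  89 31 0 41328) (.nx 277 13005 (.lg 0 false 2 89 89 31 0 41328) .out)))) (.nr 279 513 (.lg 0 true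
  1 71 71 31 0 41328) .out))) .out) .out)) (.na 283 132 .ne (.nx 292 832257 (.nr 291 1048577 (.nr
  284 132 .s1 (.nx 289 104033 (.nx 285 257 (.l1 (.ls 83 41 503)) (.nr 288 741457 (.nx 286 13005
  (.lg 0 false 1 101 101 31 0 324720) (.nr 287 16385 (.lg 0 true 1 83 89 31 0 324720) .out)) .out))
  (.nr 290 1025 (.lg 0 true 1 79 79 31 0 64944) .out))) .out) .out)))) (.na 333 148 (.na 313 142
  (.na 303 140 (.nx 302 832257 (.nr 301 1048577 (.nr 294 134 .s1 (.nx 297 13449 (.nx 295 257 (.l1
  (.ls 61 29 495)) (.nr 296 741457 (.lg 0 true 1 89 89 19 0 5904) .out)) (.nr 300 16385 (.nr 298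
  1025 (.lg 0 false 1 73 73 19 0 29520) (.nx 299 104033 (.lg 2 false 1 67 67 19 16549 5904) .out))
  .out))) .out) .out) (.nx 312 832257 (.nr 311 1048577 (.nr 304 140 .s1 (.nx 307 13005 (.nx 305 257
  (.l1 (.ls 83 37 474)) (.nr 306 741457 (.lg 0 false 1 97 101 31 0 206640) .out)) (.nr 310 16385
  (.nx 308 104033 (.lg 0 true 1 83 89 31 0 206640) (.nr 309 1025 (.lg 0 true 1 79 79 31 0 206640)
  .out)) .out))) .out) .out)) (.na 323 146 (.nx 322 832257 (.nr 321 1048577 (.nr 314 142 .s1 (.nx
  317 13449 (.nx 315 257 (.l1 (.ls 67 29 468)) (.nr 316 741457 (.lg 0 true 1 97 97 19 0 206640)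
  .out)) (.nr 320 16385 (.nr 318 1025 (.lg 0 false 1 73 73 19 0 206640) (.nx 319 104033 (.lg 2 true
  1 61 61 19 16549 5904) .out)) .out))) .out) .out) (.nx 332 832257 (.nr 331 1048577 (.nr 324 146
  .s1 (.nx 327 13449 (.nx 325 257 (.l1 (.ls 71 29 455)) (.nr 326 741457 (.lg 0 true 1 89 89 19 0
  5904) .out)) (.nr 330 16385 (.nr 328 1025 (.lg 0 false 1 73 73 19 0 29520) (.nx 329 104033 (.lg 2
  false 1 61 61 19 16549 29520) .out)) .out))) .out) .out))) (.na 355 154 (.na 344 150 (.nx 343
  832257 (.nr 342 1048577 (.nr 334 148 .s1 (.nx 335 257 (.l1 (.ls 79 29 449)) (.nr 341 741457 (.nx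
  337 13449 (.lg 0 false 2 89 89 23 0 5904) (.nr 340 16385 (.nr 338 1025 (.lg 0 true 1 73 73 23 0
  5904) (.nx 339 104033 (.lg 2 true 1 71 71 23 16549 5904) .out)) .out)) .out))) .out) .out) (.nx
  354 832257 (.nr 353 1048577 (.nr 345 150 .s1 (.nx 346 257 (.l1 (.ls 73 37 443)) (.nr 352 741457
  (.nx 348 13449 (.lg 0 false 2 83 83 31 0 29520) (.nr 351 16385 (.nr 349 1025 (.lg 0 true 1 71 71
  31 0 29520) (.nx 350 104033 (.lg 2 true 1 67 67 31 16549 29520) .out)) .out)) .out))) .out)
  .out)) (.na 366 158 (.nx 365 832257 (.nr 364 1048577 (.nr 356 154 .s1 (.nx 360 13449 (.nx 357 257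
  (.l1 (.ls 79 37 431)) (.nr 359 741457 (.lg 0 false 2 89 89 31 0 454608) .out)) (.nr 363 16385
  (.nr 361 1025 (.lg 0 true 1 73 73 31 0 454608) (.nx 362 104033 (.lg 2 false 1 71 71 31 16549
  454608) .out)) .out))) .out) .out) (.na 375 162 (.nx 374 832257 (.nr 373 1048577 (.nr 367 158 .s1
  (.nx 368 257 (.l1 (.ls 71 29 421)) (.nr 372 741457 (.nr 370 16385 (.lg 0 true 2 83 83 23 0 5904)
  (.nx 371 13005 (.lg 0 true 1 89 89 19 0 5904) .out)) .out))) .out) .out) (.nx 382 832257 (.nr 381
  1048577 (.nr 376 162 .s1 (.nx 377 257 (.l1 (.ls 71 31 410)) (.nr 380 741457 (.nr 378 16385 (.lg 0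
  false 1 83 83 23 0 5904) (.nx 379 13005 (.lg 0 true 1 83 83 23 0 29520) .out)) .out))) .out)
  .out))))))) (.na 534 256 (.na 452 220 (.na 412 190 (.na 401 182 (.na 391 180 (.nx 390 832257 (.nr
  389 1048577 (.nr 384 164 .s1 (.nx 385 257 (.l1 (.ls 71 29 405)) (.nr 388 741457 (.nr 386 16385
  (.lg 0 false 1 89 89 19 0 206640) (.nx 387 13005 (.lg 0 true 1 83 83 19 0 5904) .out)) .out)))
  .out) .out) (.nx 400 832257 (.nr 399 1048577 (.nr 392 180 .s1 (.nx 397 104033 (.nx 395 13005 (.nx
  393 257 (.l1 (.ls 83 37 369)) (.nr 394 741457 (.lg 0 false 1 97 97 37 0 206640) .out)) (.nr 396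
  16385 (.lg 0 true 1 83 83 37 0 206640) .out)) (.nr 398 1025 (.lg 0 true 1 73 73 37 0 29520)
  .out))) .out) .out)) (.na 402 188 .ne (.nx 411 832257 (.nr 410 1048577 (.nr 403 188 .s1 (.nx 406
  13449 (.nx 404 257 (.l1 (.ls 79 29 354)) (.nr 405 741457 (.lg 0 true 1 89 89 23 0 29520) .out))
  (.nr 409 16385 (.nr 407 1025 (.lg 0 true 1 71 71 23 0 5904) (.nx 408 104033 (.lg 2 false 1 67 67
  23 16549 5904) .out)) .out))) .out) .out))) (.na 432 198 (.na 422 196 (.nx 421 832257 (.nr 420
  1048577 (.nr 413 190 .s1 (.nx 414 257 (.l1 (.ls 79 37 350)) (.nr 419 741457 (.nx 415 13449 (.lg 0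
  true 1 89 89 31 0 29520) (.nr 418 16385 (.nr 416 1025 (.lg 0 true 1 71 71 31 0 29520) (.nx 417
  104033 (.lg 2 false 1 67 67 31 16549 29520) .out)) .out)) .out))) .out) .out) (.nx 431 832257
  (.nr 430 1048577 (.nr 423 196 .s1 (.nx 426 13449 (.nx 424 257 (.l1 (.ls 73 31 339)) (.nr 425
  741457 (.lg 0 true 1 89 89 29 0 206640) .out)) (.nr 429 16385 (.nr 427 1025 (.lg 0 true 1 67 67
  29 0 41328) (.nx 428 104033 (.lg 2 true 1 67 67 29 16549 41328) .out)) .out))) .out) .out)) (.na
  442 210 (.nx 441 832257 (.nr 440 1048577 (.nr 433 198 .s1 (.nx 436 13449 (.nx 434 257 (.l1 (.ls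
  79 37 336)) (.nr 435 741457 (.lg 0 true 1 89 89 31 0 2273040) .out)) (.nr 439 16385 (.nr 437 1025
  (.lg 0 true 1 71 71 31 0 64944) (.nx 438 104033 (.lg 2 true 1 67 67 31 16549 64944) .out))
  .out))) .out) .out) (.nx 451 832257 (.nr 450 1048577 (.nr 443 210 .s1 (.nx 444 257 (.l1 (.ls 83
  41 317)) (.nr 449 741457 (.nx 447 104033 (.nx 445 13005 (.lg 0 false 1 97 97 41 0 206640) (.nr
  446 16385 (.lg 0 true 1 79 83 41 0 206640) .out)) (.nr 448 1025 (.lg 0 true 1 73 73 41 0 206640)
  .out)) .out))) .out) .out)))) (.na 490 242 (.na 472 226 (.na 462 222 (.nx 461 832257 (.nr 460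
  1048577 (.nr 453 220 .s1 (.nx 454 257 (.l1 (.ls 83 37 303)) (.nr 459 741457 (.nx 455 13005 (.lg 0
  false 1 89 97 37 0 324720) (.nr 458 16385 (.nx 456 104033 (.lg 0 true 1 79 83 37 0 324720) (.nr
  457 1025 (.lg 0 true 1 73 73 37 0 324720) .out)) .out)) .out))) .out) .out) (.nx 471 832257 (.nr
  470 1048577 (.nr 463 222 .s1 (.nx 466 13449 (.nx 464 257 (.l1 (.ls 79 31 300)) (.nr 465 741457
  (.lg 0 true 1 89 89 31 0 206640) .out)) (.nr 469 16385 (.nr 467 1025 (.lg 0 true 1 71 71 31 0
  5904) (.nx 468 104033 (.lg 2 true 1 67 67 31 16549 5904) .out)) .out))) .out) .out)) (.na 480 228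
  (.nx 479 832257 (.nr 478 1048577 (.nr 473 226 .s1 (.nx 474 257 (.l1 (.ls 79 29 295)) (.nr 477
  741457 (.nr 475 16385 (.lg 0 false 1 83 83 23 0 5904) (.nx 476 13005 (.lg 0 true 1 79 79 23 0
  5904) .out)) .out))) .out) .out) (.nx 489 832257 (.nr 488 1048577 (.nr 481 228 .s1 (.nx 484 13005
  (.nx 482 257 (.l1 (.ls 83 37 292)) (.nr 483 741457 (.lg 0 false 1 89 89 37 0 5904) .out)) (.nr
  487 16385 (.nx 485 104033 (.lg 0 true 1 83 83 37 0 206640) (.nr 486 1025 (.lg 0 true 1 71 73 37 0
  5904) .out)) .out))) .out) .out))) (.na 508 246 (.na 498 244 (.nx 497 832257 (.nr 496 1048577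
  (.nr 491 242 .s1 (.nx 492 257 (.l1 (.ls 71 31 275)) (.nr 495 741457 (.nr 493 16385 (.lg 0 false 1
  83 83 29 0 64944) (.nx 494 13005 (.lg 0 true 1 83 83 29 0 2273040) .out)) .out))) .out) .out)
  (.nx 507 832257 (.nr 506 1048577 (.nr 499 244 .s1 (.nx 500 257 (.l1 (.ls 59 29 273)) (.nr 505
  741457 (.nx 501 13449 (.lg 0 false 1 83 83 23 0 5904) (.nr 504 16385 (.nr 502 1025 (.lg 0 true 1
  67 67 23 0 5904) (.nx 503 104033 (.lg 2 false 1 59 59 23 16549 5904) .out)) .out)) .out))) .out)
  .out)) (.na 516 250 (.nx 515 832257 (.nr 514 1048577 (.nr 509 246 .s1 (.nx 512 13005 (.nx 510 257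
  (.l1 (.ls 67 31 271)) (.nr 511 741457 (.lg 0 true 1 73 73 29 0 5904) .out)) (.nr 513 16385 (.lg 0
  false 1 79 79 29 0 29520) .out))) .out) .out) (.na 524 252 (.nx 523 832257 (.nr 522 1048577 (.nr
  517 250 .s1 (.nx 518 257 (.l1 (.ls 71 31 267)) (.nr 521 741457 (.nr 519 16385 (.lg 0 false 1 83
  83 29 0 206640) (.nx 520 13005 (.lg 0 true 1 79 79 29 0 29520) .out)) .out))) .out) .out) (.nx
  533 832257 (.nr 532 1048577 (.nr 525 252 .s1 (.nx 528 13005 (.nx 526 257 (.l1 (.ls 79 37 265))
  (.nr 527 741457 (.lg 0 false 1 89 89 37 0 206640) .out)) (.nr 531 16385 (.nx 529 104033 (.lg 0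
  true 1 79 79 37 0 206640) (.nr 530 1025 (.lg 0 true 1 71 71 37 0 41328) .out)) .out))) .out)
  .out)))))) (.na 6260 4096 (.na 2585 1024 (.na 1347 512 (.na 535 257 .ne (.nx 1346 832257 (.nr
  1345 1482912 (.nr 536 257 .s1 (.nx 793 165 (.nx 792 164 (.nr 791 4644 (.la (.ls 47 19 129)) (.l1
  .sk)) (.l1 .sk)) (.nx 833 205 (.lx (.lp 89 17 129)) (.nr 1344 1048577 (.nr 1088 32769 (.la (.lg 0
  true 1 83 83 23 0)) (.nx 1343 10323 (.la (.lg 0 false 1 79 79 23 0)) .out)) .out)))) .out) .out))
  (.na 1983 725 (.nx 1982 832257 (.nr 1981 1482912 (.nr 1348 512 .s1 (.nx 1513 165 (.nx 1512 164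
  (.nr 1511 6576 (.lx (.lp 47 19 182)) (.l1 .sk)) (.l1 .sk)) (.nx 1553 205 (.lx (.lp 83 19 182))
  (.nr 1980 1048577 (.nr 1766 32769 (.la (.lg 0 true 1 79 79 29 0)) (.nx 1979 10323 (.la (.lg 0
  false 1 73 73 29 0)) .out)) .out)))) .out) .out) (.nx 2584 10323 (.nr 2583 1048577 (.nr 1984 725
  .s1 (.nx 2283 2049 (.la (.ls 73 41 5793)) (.nr 2582 16385 (.la (.lg 0 false 1 37 43 31 0))
  .out))) .out) .out))) (.na 4041 2048 (.na 3439 1449 (.nx 3438 10323 (.nr 3437 1048577 (.nr 2586
  1024 .s1 (.nx 3011 2582 (.la (.ls 71 41 6513)) (.nr 3436 16385 (.la (.lg 0 false 1 31 37 31 0))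
  .out))) .out) .out) (.nx 4040 2582 (.nr 4039 524289 (.nr 3440 1449 .s1 (.la (.ls 67 37 4603)))
  .out) .out)) (.na 4893 2897 (.nx 4892 3252 (.nr 4891 524289 (.nr 4042 2048 .s1 (.la (.ls 67 41
  5166))) .out) .out) (.nx 6259 2582 (.nr 6258 262145 (.nr 4894 2897 .s1 (.nx 5058 164 (.nr 5057
  37148 (.lx (.lp 47 29 1025)) (.l1 .sk)) (.nx 5059 165 (.l1 .sk) (.la (.ls 61 37 2294))))) .out)
  .out)))) (.na 12010 32768 (.na 9419 8192 (.na 8125 5793 (.nx 8124 2582 (.nr 8123 262145 (.nr 6261
  4096 .s1 (.nx 6425 164 (.nr 6424 52538 (.lx (.lp 53 31 1449)) (.l1 .sk)) (.nx 6426 165 (.l1 .sk)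
  (.la (.ls 61 37 1623))))) .out) .out) (.nx 9418 1292 (.nr 9417 65537 (.nr 8126 5793 .s1 (.lx (.lp
  47 37 2049))) .out) .out)) (.na 10714 16384 (.nx 10713 1292 (.nr 10712 131073 (.nr 9420 8192 .s1
  (.nx 9624 205 (.lx (.lp 59 37 4097)) (.nr 10711 65537 (.lx (.lp 47 41 4097)) .out))) .out) .out)
  (.nx 12009 1292 (.nr 12008 262145 (.nr 10715 16384 .s1 (.nx 10919 205 (.lx (.lp 16 37 8193)) (.nr
  12007 131073 (.nx 11037 322 (.nr 11036 65537 (.lx (.lp 43 43 8193)) .out) (.lx (.lp 47 43 8193)))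
  .out))) .out) .out))) (.na 14066 131072 (.na 13038 65536 (.nx 13037 1025 (.nr 13036 262145 (.nr
  12011 32768 .s1 (.nx 12215 205 (.lx (.lp 16 0 16385)) (.nr 13035 131073 (.lx (.lp 43 47 16385))
  .out))) .out) .out) (.nx 14065 1025 (.nr 14064 262145 (.nr 13039 65536 .s1 (.nx 13362 324 (.lx
  (.lp 47 53 32769)) (.nr 14063 131073 (.lx (.lp 43 53 32769)) .out))) .out) .out)) (.na 14068
  262144 (.nx 14067 324 (.l1 .sk) .out) (.na 14070 524289 (.nx 14069 205 (.l1 .sk) .out)
  .out)))))))

def T104_1 : Ph :=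
  (.na 799 7 (.na 480 4 (.na 286 2 (.nx 285 1321124 (.nr 284 881745 (.nx 250 660563 (.nx 3 161 (.nx
  2 160 (.nr 1 13 (.lg 0 false 1 43 43 5 0 240) (.l1 .sk)) (.l1 .sk)) (.nr 216 92683 (.nx 36 13005
  (.lg 0 false 33 103 107 13 0 720720) (.nr 215 77937 (.nr 90 2437 (.nr 80 1219 (.nr 69 695 (.lg 0
  true 33 97 101 13 0 55440) (.lg 2 true 11 89 89 9 76037 18480)) (.nx 89 524289 (.lg 2 true 9 97
  97 9 34408 5040) .out)) (.nx 214 416129 (.nr 99 12635 (.lg 2 true 9 103 107 9 13661 720720) (.nx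
  213 330282 (.nx 165 32769 (.nx 132 24081 (.lg 0 false 33 101 107 13 0 720720) (.lg 1 false 33 97
  107 13 41513 720720)) (.nr 212 55110 (.nr 174 23172 (.lg 2 false 9 103 103 9 9114 720720) (.nx
  211 262145 (.nr 192 38969 (.lg 2 false 18 101 103 11 15285 720720) (.nx 210 104033 (.lg 2 true 18
  103 107 11 21590 720720) .out)) .out)) .out)) .out)) .out)) .out)) (.nx 249 257 (.lg 0 false 33
  83 89 13 0 55440) .out))) (.nr 283 129 (.lg 0 true 33 83 89 13 0 55440) .out)) .out) .out) (.na
  479 3 (.nx 478 3329023 (.nr 477 623489 (.nx 289 161 (.nx 288 160 (.nr 287 24 (.lg 0 true 1 41 41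
  5 0 240) (.l1 .sk)) (.l1 .sk)) (.nx 458 1664512 (.nx 436 832257 (.nx 342 26009 (.nr 328 131073
  (.lg 0 false 39 101 107 13 0 720720) (.nx 341 257 (.lg 0 false 13 79 79 9 0 3120) .out)) (.nr 435
  110219 (.nr 363 450 (.lg 0 true 21 89 89 11 0 5040) (.nx 434 416129 (.nx 376 32769 (.lg 1 false
  13 101 103 9 54323 720720) (.nr 433 92683 (.nr 385 2437 (.lg 2 true 9 89 89 9 73979 720) (.nx 432
  330282 (.nr 394 27556 (.lg 2 false 9 101 103 9 10843 720720) (.nx 431 165142 (.nr 412 65537 (.lg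
  2 false 18 101 103 11 25663 720720) (.nx 430 104033 (.lg 2 true 18 101 103 11 36267 720720)
  .out)) .out)) .out)) .out)) .out)) .out)) (.nr 457 129 (.lg 0 true 21 83 83 11 0 5040) .out))
  (.nr 476 9 (.lg 0 true 18 71 71 9 0 720) .out))) .out) .out) .ne)) (.na 649 5 (.nx 648 13316087
  (.nr 647 1246976 (.nx 482 160 (.nr 481 43 (.lg 0 true 1 37 37 9 0 720) (.l1 .sk)) (.nx 483 161
  (.l1 .sk) (.nx 597 1664512 (.nr 585 155873 (.nx 573 416129 (.nx 508 26007 (.nr 504 110219 (.lg 0
  false 21 101 103 13 0 720720) (.nx 507 1627 (.lg 0 false 3 89 89 9 0 720) .out)) (.nr 572 131073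
  (.nr 519 729 (.lg 0 true 11 83 83 13 0 2640) (.nr 528 5810 (.nr 526 2909 (.lg 2 true 7 83 89 11
  45666 1680) (.lg 2 true 2 83 83 9 11444 240)) (.nx 556 104033 (.nx 535 36779 (.lg 1 false 7 101
  103 11 64591 720720) (.nx 542 52015 (.lg 1 false 7 101 103 11 45673 720720) (.nx 549 73561 (.lg 1
  false 7 101 103 11 32295 720720) (.lg 1 true 7 101 103 11 22836 720720)))) (.nr 571 92683 (.nx
  563 131073 (.lg 1 true 7 101 103 11 11424 720720) (.nr 570 55110 (.lg 2 false 7 101 103 11 5730
  720720) .out)) .out)))) .out)) (.nr 584 183 (.lg 0 true 11 83 83 13 0 2640) .out)) (.nx 596 257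
  (.lg 0 false 11 79 79 13 0 2640) .out)) (.nr 646 21 (.nx 618 6658044 (.lg 0 true 21 79 79 11 0
  5040) (.lg 0 true 28 79 79 11 0 1680)) .out)))) .out) .out) (.na 798 6 (.nx 797 13316087 (.nr 796
  1482912 (.nx 679 26007 (.nx 651 160 (.nr 650 53 (.lg 0 true 1 31 31 9 0 240) (.l1 .sk)) (.nx 652
  161 (.l1 .sk) (.nr 665 110219 (.lg 0 false 13 101 101 16 0 65520) (.nx 678 257 (.lg 0 false 13 73
  73 16 0 3120) .out)))) (.nr 795 155873 (.nx 743 832257 (.nr 692 956 (.lg 0 true 13 83 83 16 0
  3120) (.nx 742 660563 (.nr 699 8843 (.lg 2 true 7 89 89 11 55278 1680) (.nx 722 82572 (.nx 711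
  41285 (.nr 710 131073 (.lg 1 false 11 97 101 16 64591 55440) .out) (.lg 1 false 11 101 103 16
  48378 720720)) (.nr 741 131073 (.nx 733 131073 (.lg 1 true 11 97 101 16 20344 55440) (.nr 740
  46342 (.lg 2 false 7 83 83 11 5976 1680) .out)) .out))) .out)) (.nr 794 129 (.nr 782 35 (.lg 0
  true 39 73 73 11 0 9360) (.nx 793 1664512 (.lg 0 true 11 71 71 16 0 2640) .out)) .out)) .out))
  .out) .out) .ne))) (.na 986 10 (.na 891 8 (.nx 890 13316087 (.nr 889 262145 (.nx 817 26007 (.nx
  801 160 (.nr 800 71 (.lg 0 true 1 31 31 9 0 1680) (.l1 .sk)) (.nx 802 161 (.l1 .sk) (.nr 813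
  110219 (.lg 0 false 11 97 101 16 0 18480) (.nx 816 1627 (.lg 0 false 3 89 89 11 0 5040) .out))))
  (.nr 888 131073 (.nx 861 1664512 (.nr 828 626 (.lg 0 true 11 89 89 16 0 18480) (.nx 860 524289
  (.nx 837 52015 (.lg 1 false 9 101 103 16 64591 720720) (.nr 841 2630 (.lg 2 true 4 83 83 13 67002
  1680) (.nr 850 77937 (.lg 2 false 9 89 101 16 19219 5040) (.nx 859 131073 (.lg 2 false 9 101 103
  16 32295 720720) .out)))) .out)) (.nr 887 47 (.lg 0 true 26 79 79 16 0 21840) .out)) .out)) .out)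
  .out) (.na 985 9 (.nx 984 13316087 (.nr 983 623489 (.nx 956 1664512 (.nx 915 26007 (.nx 893 160
  (.nr 892 80 (.lg 0 true 1 31 31 9 0 1680) (.l1 .sk)) (.nx 894 161 (.l1 .sk) (.nr 903 110219 (.lg
  0 false 9 97 101 13 0 5040) (.nx 914 2582 (.nx 912 1627 (.lg 0 false 9 83 89 13 0 5040) (.nr 913
  131073 (.lg 0 true 1 79 79 9 0 1680) .out)) .out)))) (.nr 955 131073 (.nr 928 727 (.lg 0 true 13
  83 89 13 0 21840) (.nx 954 660563 (.nr 932 2905 (.lg 2 true 4 83 83 11 72690 1680) (.nx 941 56180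
  (.lg 1 false 9 101 103 13 64591 720720) (.nx 944 82572 (.lg 1 false 3 103 103 11 29901 720720)
  (.nr 953 110219 (.lg 2 false 9 101 103 13 18192 720720) .out)))) .out)) .out)) (.nr 982 55 (.lg 0
  true 26 79 79 13 0 3120) .out)) .out) .out) .ne)) (.na 1037 11 (.nx 1036 1664512 (.nr 1035 623489
  (.nx 988 160 (.nr 987 98 (.lg 0 true 1 23 23 9 0 240) (.l1 .sk)) (.nx 989 161 (.l1 .sk) (.nr 1027
  131073 (.nx 1002 35390 (.lg 0 false 13 83 89 13 0 3120) (.nr 1017 829 (.nx 1009 524289 (.lg 0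
  true 7 73 73 13 0 1680) (.nr 1016 65 (.lg 0 true 7 61 61 13 0 1680) .out)) (.nx 1026 416129 (.lg
  2 false 9 89 97 13 47466 720) .out))) (.nx 1034 1292 (.lg 0 false 7 73 73 13 0 1680) .out))))
  .out) .out) (.na 1088 12 (.nx 1087 1664512 (.nr 1086 623489 (.nx 1039 160 (.nr 1038 107 (.lg 0
  false 1 29 29 9 0 2640) (.l1 .sk)) (.nx 1040 161 (.l1 .sk) (.nr 1078 131073 (.nx 1047 26007 (.lg
  0 false 7 97 97 16 0 18480) (.nr 1062 1621 (.nx 1054 524289 (.lg 0 true 7 83 83 16 0 18480) (.nr
  1061 65 (.lg 0 true 7 71 71 16 0 18480) .out)) (.nx 1077 416129 (.nx 1069 65537 (.lg 1 false 7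
  101 103 16 64591 720720) (.nr 1076 110219 (.lg 2 false 7 97 101 16 21559 240240) .out)) .out)))
  (.nx 1085 1292 (.lg 0 false 7 83 83 16 0 18480) .out)))) .out) .out) .ne))))

def T104_2 : Ph :=
  (.na 816 157 (.na 644 62 (.na 537 29 (.na 456 6 (.na 330 3 (.na 205 2 (.nx 204 1321124 (.nr 203
  311745 (.nx 156 330282 (.nx 3 94 (.nx 2 93 (.nr 1 10 (.lg 0 true 1 37 37 5 0 2232) (.l1 .sk))
  (.l1 .sk)) (.nx 59 8848 (.nr 38 46342 (.lg 0 false 35 89 97 13 0 78120) (.nx 58 205 (.lg 0 false
  20 79 79 11 0 7440) .out)) (.nr 155 38969 (.nr 94 432 (.lg 0 true 35 83 83 13 0 26040) (.nx 114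
  16385 (.lg 1 false 20 89 97 11 19093 22320) (.nr 154 27556 (.nr 125 1219 (.lg 2 true 11 83 83 9
  35552 8184) (.nx 153 208065 (.lg 2 false 28 97 103 11 7937 2031120) .out)) .out))) .out))) (.nr
  202 109 (.nx 176 660563 (.lg 0 true 20 79 79 11 0 7440) (.nr 201 13 (.lg 0 true 25 67 67 9 0
  3720) .out)) .out)) .out) .out) (.nx 329 3329023 (.nr 328 623489 (.nx 207 93 (.nr 206 19 (.lg 0
  true 1 37 37 5 0 1488) (.l1 .sk)) (.nx 208 94 (.l1 .sk) (.nr 308 65537 (.nx 289 1321124 (.nx 230
  9555 (.lg 0 false 22 97 101 11 0 245520) (.nr 256 257 (.lg 0 true 26 83 83 11 0 19344) (.nx 288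
  165142 (.nr 263 1100 (.lg 2 true 7 79 79 9 29880 10416) (.nx 274 20644 (.lg 1 false 11 101 103 9
  29706 1718640) (.nr 287 46342 (.lg 2 false 13 101 103 9 9728 2031120) .out))) .out))) (.nr 307 9
  (.lg 0 true 18 71 71 9 0 4464) .out)) (.nx 327 1292 (.nr 313 77937 (.lg 0 false 5 79 79 9 0 7440)
  (.nx 326 205 (.lg 0 false 13 79 79 9 0 19344) .out)) .out)))) .out) .out)) (.na 455 4 (.nx 454
  6658044 (.nr 453 881745 (.nx 332 93 (.nr 331 26 (.lg 0 true 1 37 37 5 0 859320) (.l1 .sk)) (.nx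
  333 94 (.l1 .sk) (.nx 417 832257 (.nr 403 110219 (.nx 354 13003 (.nr 346 55110 (.lg 0 false 13 97
  97 13 0 145080) (.nx 353 1292 (.lg 0 false 7 83 83 7 0 78120) .out)) (.nr 402 65537 (.nr 370 364
  (.lg 0 true 16 79 79 16 0 4464) (.nx 401 208065 (.nr 374 1557 (.lg 2 false 4 83 83 7 26580 22320)
  (.nx 387 41287 (.lg 1 true 13 89 97 13 21828 145080) (.nr 400 55110 (.lg 2 false 13 89 97 13 6214
  145080) .out))) .out)) .out)) (.nx 416 205 (.lg 0 false 13 73 73 13 0 29016) .out)) (.nr 452 33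
  (.lg 0 true 35 73 73 7 0 78120) .out)))) .out) .out) .ne)) (.na 500 17 (.na 499 7 (.nx 498
  1321124 (.nr 497 220437 (.nx 459 94 (.nx 458 93 (.nr 457 47 (.lg 0 false 1 19 19 7 0 4464) (.l1
  .sk)) (.l1 .sk)) (.nr 489 55110 (.nx 466 11394 (.lg 0 true 7 83 83 13 0 31248) (.nr 479 501 (.lg
  0 true 13 79 79 13 0 58032) (.nx 488 416129 (.nr 481 977 (.lg 2 false 2 73 73 7 38623 4464) (.lg
  2 false 7 97 97 13 20953 31248)) .out))) (.nx 496 1292 (.lg 0 false 7 79 79 13 0 31248) .out)))
  .out) .out) .ne) (.na 535 18 (.nx 534 1321124 (.nr 533 1048577 (.nr 501 15 .s1 (.nx 504 94 (.nx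
  503 93 (.nr 502 123 (.l1 (.ls 16 23 511)) (.l1 .sk)) (.l1 .sk)) (.nx 507 324 (.nx 505 205 (.l1
  (.ls 83 31 1955)) (.nr 506 623489 (.l1 (.ls 79 37 3706)) .out)) (.nr 532 220437 (.nx 511 5162
  (.lg 0 false 4 83 83 16 0 1488) (.nr 531 92683 (.nr 526 32769 (.nr 518 498 (.lg 0 true 7 79 79 16
  0 5208) (.nx 525 165142 (.lg 2 true 7 73 73 16 27534 5208) .out)) (.nx 530 26009 (.lg 0 false 4
  97 97 16 0 22320) .out)) .out)) .out)))) .out) .out) (.na 536 23 (.lg 0 false 1 0 0 7 0 24)
  .ne)))) (.na 595 46 (.na 575 32 (.na 556 31 (.nx 555 1321124 (.nr 554 1048577 (.nr 538 28 .s1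
  (.nx 539 205 (.l1 (.ls 73 23 1452)) (.nr 553 185365 (.nx 544 16385 (.lg 0 false 5 83 83 16 0
  11160) (.nr 552 38969 (.nr 549 513 (.lg 0 true 5 71 71 16 0 3720) (.nx 551 82572 (.lg 1 false 2
  83 83 16 10310 4464) .out)) .out)) .out))) .out) .out) (.nx 574 1321124 (.nr 573 1048577 (.nr 557
  30 .s1 (.nx 558 205 (.l1 (.ls 71 29 1358)) (.nr 572 185365 (.nx 563 16385 (.lg 0 false 5 73 73 16
  0 3720) (.nr 571 38969 (.nr 568 513 (.lg 0 true 5 61 61 16 0 3720) (.nx 570 82572 (.lg 2 true 2
  71 71 13 10310 1488) .out)) .out)) .out))) .out) .out)) (.na 576 34 .ne (.nx 594 1321124 (.nr 593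
  370729 (.nr 577 33 .s1 (.nx 579 93 (.nr 578 315 (.l1 (.ls 16 29 257)) (.l1 .sk)) (.nx 580 94 (.l1
  .sk) (.nx 585 13005 (.lg 0 false 5 89 89 13 0 22320) (.nr 592 23172 (.nr 590 315 (.lg 0 true 5 67
  67 13 0 7440) (.nx 591 82572 (.lg 2 true 1 79 79 13 12190 1488) .out)) .out))))) .out) .out)))
  (.na 612 51 (.na 596 47 .ne (.nx 611 1321124 (.nr 610 311745 (.nr 597 47 .s1 (.nr 603 13779 (.nx
  600 82572 (.nx 598 2580 (.l1 (.ls 53 59 141628)) (.lg 0 false 2 79 79 16 0 1488)) (.nr 602 217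
  (.lg 0 true 2 71 71 16 0 1488) .out)) (.nx 605 94 (.nx 604 93 (.l1 .sk) (.l1 .sk)) (.nx 609 20644
  (.lg 0 false 4 89 89 16 0 1488) .out)))) .out) .out)) (.na 629 54 (.nx 628 1321124 (.nr 627
  311745 (.nr 613 51 .s1 (.nx 615 93 (.nr 614 370 (.l1 (.ls 16 23 172)) (.l1 .sk)) (.nx 616 94 (.l1
  .sk) (.nx 621 10323 (.lg 0 false 5 79 79 16 0 11160) (.nr 626 23172 (.nr 624 370 (.lg 0 true 3 67
  67 16 0 2232) (.nx 625 82572 (.lg 2 true 1 73 73 16 10378 2232) .out)) .out))))) .out) .out) (.na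
  630 58 (.lg 0 false 1 0 0 16 0 24) (.nx 643 1321124 (.nr 642 311745 (.nr 631 58 .s1 (.nx 634 94
  (.nx 633 93 (.nr 632 424 (.l1 (.ls 17 23 152)) (.l1 .sk)) (.l1 .sk)) (.nx 636 10323 (.lg 0 true 2
  89 89 13 0 22320) (.nr 641 23172 (.nr 639 424 (.lg 0 true 3 71 71 19 0 4464) (.nx 640 82572 (.lg
  2 true 1 73 73 13 9747 1488) .out)) .out)))) .out) .out)))))) (.na 727 102 (.na 675 86 (.na 661
  79 (.na 660 64 (.nx 659 1321124 (.nr 658 311745 (.nr 645 62 .s1 (.nx 647 93 (.nr 646 438 (.l1
  (.ls 16 23 142)) (.l1 .sk)) (.nx 648 94 (.l1 .sk) (.nx 655 82572 (.lg 0 false 7 83 83 19 0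
  156240) (.nr 657 217 (.lg 0 false 2 61 61 13 0 22320) .out))))) .out) .out) .ne) (.na 674 81 (.nx
  673 1321124 (.nr 672 524289 (.nr 662 79 .s1 (.nx 665 94 (.nx 664 93 (.nr 663 554 (.l1 (.ls 16 16
  112)) (.l1 .sk)) (.l1 .sk)) (.nx 667 8193 (.lg 0 false 2 79 79 16 0 1488) (.nr 671 8193 (.nr 669
  513 (.lg 0 true 2 61 61 16 0 1488) (.nx 670 82572 (.lg 2 true 1 53 53 16 7485 744) .out))
  .out)))) .out) .out) (.lg 0 false 1 0 0 16 0 24))) (.na 689 93 (.na 688 91 (.nx 687 1321124 (.nr
  686 524289 (.nr 676 86 .s1 (.nx 679 94 (.nx 678 93 (.nr 677 623 (.l1 (.ls 16 19 103)) (.l1 .sk))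
  (.l1 .sk)) (.nx 681 8193 (.lg 0 false 2 79 79 19 0 1488) (.nr 685 8193 (.nr 683 513 (.lg 0 true 2
  61 61 19 0 1488) (.nx 684 82572 (.lg 2 false 1 59 59 13 7485 1488) .out)) .out)))) .out) .out)
  .ne) (.na 703 94 (.nx 702 1321124 (.nr 701 524289 (.nr 690 93 .s1 (.nx 692 93 (.nr 691 643 (.l1
  (.ls 16 17 95)) (.l1 .sk)) (.nx 693 94 (.l1 .sk) (.nr 698 8193 (.lg 0 true 5 71 71 17 0 11160)
  (.nx 700 8193 (.lg 0 true 2 73 73 16 0 22320) .out))))) .out) .out) (.na 715 97 (.nx 714 1321124
  (.nr 713 524289 (.nr 704 94 .s1 (.nx 707 94 (.nx 706 93 (.nr 705 664 (.l1 (.ls 16 19 95)) (.l1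
  .sk)) (.l1 .sk)) (.nx 708 8193 (.lg 0 true 1 83 83 17 0 4464) (.nr 712 8193 (.nr 710 513 (.lg 0
  true 2 61 61 19 0 1488) (.nx 711 82572 (.lg 2 false 1 59 59 17 7485 1488) .out)) .out)))) .out)
  .out) (.nx 726 1321124 (.nr 725 524289 (.nr 716 97 .s1 (.nx 718 93 (.nr 717 698 (.l1 (.ls 16 16
  92)) (.l1 .sk)) (.nx 719 94 (.l1 .sk) (.nx 720 8193 (.lg 0 true 1 79 79 16 0 11160) (.nr 724 8193
  (.nr 722 513 (.lg 0 true 2 59 59 16 0 1488) (.nx 723 82572 (.lg 2 false 1 47 47 16 7485 744)
  .out)) .out))))) .out) .out))))) (.na 783 128 (.na 750 109 (.na 738 106 (.nx 737 1321124 (.nr 736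
  524289 (.nr 728 102 .s1 (.nx 731 94 (.nx 730 93 (.nr 729 725 (.l1 (.ls 16 29 87)) (.l1 .sk)) (.l1
  .sk)) (.nx 732 8193 (.lg 0 true 1 89 89 29 0 22320) (.nr 735 8193 (.nr 733 513 (.lg 2 false 1 71
  71 29 602278 22320) (.nx 734 82572 (.lg 2 true 1 59 59 29 7485 4464) .out)) .out)))) .out) .out)
  (.nx 749 1321124 (.nr 748 524289 (.nr 739 106 .s1 (.nx 741 93 (.nr 740 746 (.l1 (.ls 16 19 84))
  (.l1 .sk)) (.nx 742 94 (.l1 .sk) (.nx 743 8193 (.lg 0 true 1 83 83 19 0 4464) (.nr 747 8193 (.nr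
  745 513 (.lg 0 true 2 59 59 19 0 1488) (.nx 746 82572 (.lg 2 true 1 53 53 19 7485 1488) .out))
  .out))))) .out) .out)) (.na 761 118 (.nx 760 1321124 (.nr 759 524289 (.nr 751 109 .s1 (.nx 753 93
  (.nr 752 807 (.l1 (.ls 16 16 82)) (.l1 .sk)) (.nx 754 94 (.l1 .sk) (.nx 755 8193 (.lg 0 true 1 73
  73 16 0 2232) (.nr 758 8193 (.nr 756 513 (.lg 2 false 1 59 59 16 563599 2232) (.nx 757 82572 (.lg
  2 true 1 47 47 16 7485 2232) .out)) .out))))) .out) .out) (.na 772 127 (.nx 771 1321124 (.nr 770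
  524289 (.nr 762 118 .s1 (.nx 765 94 (.nx 764 93 (.nr 763 869 (.l1 (.ls 16 19 76)) (.l1 .sk)) (.l1
  .sk)) (.nx 766 8193 (.lg 0 true 1 83 83 19 0 1488) (.nr 769 8193 (.nr 767 513 (.lg 2 false 1 67
  67 19 520613 22320) (.nx 768 82572 (.lg 2 true 1 59 59 19 7485 22320) .out)) .out)))) .out) .out)
  (.nx 782 1321124 (.nr 781 524289 (.nr 773 127 .s1 (.nx 777 8193 (.nx 775 93 (.nr 774 876 (.l1
  (.ls 16 16 71)) (.l1 .sk)) (.nx 776 94 (.l1 .sk) (.lg 0 true 1 73 73 16 0 744))) (.nr 780 8193
  (.nr 778 513 (.lg 2 true 1 53 53 16 483719 744) (.nx 779 82572 (.lg 2 true 1 47 47 16 7485 11160)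
  .out)) .out))) .out) .out)))) (.na 792 131 (.na 784 129 .ne (.nx 791 660563 (.nr 790 1048577 (.nr
  785 129 .s1 (.nx 786 205 (.l1 (.ls 67 23 328)) (.nr 789 524289 (.nr 787 8193 (.lg 0 false 1 79 79
  17 0 2232) (.nx 788 6503 (.lg 0 true 1 79 79 17 0 2232) .out)) .out))) .out) .out)) (.na 800 141
  (.nx 799 660563 (.nr 798 1048577 (.nr 793 131 .s1 (.nx 794 205 (.l1 (.ls 61 19 323)) (.nr 797
  524289 (.nr 795 8193 (.lg 0 false 1 73 73 16 0 2232) (.nx 796 6503 (.lg 0 true 1 71 71 16 0 2232)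
  .out)) .out))) .out) .out) (.na 808 142 (.nx 807 660563 (.nr 806 1048577 (.nr 801 141 .s1 (.nx
  802 205 (.l1 (.ls 61 23 301)) (.nr 805 524289 (.nr 803 8193 (.lg 0 false 1 73 73 17 0 2232) (.nx
  804 6503 (.lg 0 true 1 73 73 17 0 2232) .out)) .out))) .out) .out) (.nx 815 660563 (.nr 814
  1048577 (.nr 809 142 .s1 (.nx 810 205 (.l1 (.ls 67 29 298)) (.nr 813 524289 (.nr 811 8193 (.lg 0
  false 1 83 83 19 0 1488) (.nx 812 6503 (.lg 0 true 1 79 79 19 0 1488) .out)) .out))) .out)
  .out))))))) (.na 935 237 (.na 867 179 (.na 841 163 (.na 832 159 (.na 824 158 (.nx 823 660563 (.nr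
  822 1048577 (.nr 817 157 .s1 (.nx 818 205 (.l1 (.ls 67 17 270)) (.nr 821 524289 (.nr 819 8193
  (.lg 0 false 1 73 73 16 0 744) (.nx 820 6503 (.lg 0 true 1 71 71 16 0 744) .out)) .out))) .out)
  .out) (.nx 831 660563 (.nr 830 1048577 (.nr 825 158 .s1 (.nx 826 205 (.l1 (.ls 71 29 268)) (.nr
  829 524289 (.nr 827 8193 (.lg 0 false 1 79 79 19 0 1488) (.nx 828 6503 (.lg 0 true 1 79 79 19 0
  22320) .out)) .out))) .out) .out)) (.na 840 162 (.nx 839 660563 (.nr 838 1048577 (.nr 833 159 .s1
  (.nx 834 205 (.l1 (.ls 47 23 267)) (.nr 837 524289 (.nr 835 8193 (.lg 0 false 1 79 79 17 0 2232)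
  (.nx 836 6503 (.lg 0 true 1 73 73 17 0 2232) .out)) .out))) .out) .out) (.lg 0 false 1 0 0 16 0
  24))) (.na 843 174 (.na 842 173 (.lg 0 false 1 0 0 16 0 24) (.lg 0 false 1 0 0 16 0 24)) (.na 851
  177 (.nx 850 660563 (.nr 849 1048577 (.nr 844 174 .s1 (.nx 845 205 (.l1 (.ls 67 37 244)) (.nr 848
  524289 (.nr 846 8193 (.lg 0 false 1 79 79 23 0 4464) (.nx 847 6503 (.lg 0 true 1 73 73 23 0 4464)
  .out)) .out))) .out) .out) (.na 859 178 (.nx 858 660563 (.nr 857 1048577 (.nr 852 177 .s1 (.nx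
  855 6503 (.nx 853 205 (.l1 (.ls 53 23 240)) (.nr 854 524289 (.lg 0 true 1 73 73 17 0 2232) .out))
  (.nr 856 8193 (.lg 0 false 1 79 79 17 0 11160) .out))) .out) .out) (.nx 866 660563 (.nr 865
  1048577 (.nr 860 178 .s1 (.nx 861 205 (.l1 (.ls 71 29 239)) (.nr 864 524289 (.nr 862 8193 (.lg 0
  false 1 73 73 19 0 1488) (.nx 863 6503 (.lg 0 true 1 71 71 19 0 1488) .out)) .out))) .out)
  .out))))) (.na 902 211 (.na 878 191 (.na 868 186 (.lg 0 false 1 0 0 16 0 24) (.nx 877 660563 (.nr
  876 1048577 (.nr 869 186 .s1 (.nx 870 205 (.l1 (.ls 59 29 228)) (.nr 875 524289 (.nr 872 8193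
  (.lg 0 false 2 67 67 29 0 4464) (.nx 874 6503 (.lg 0 true 2 61 61 29 0 4464) .out)) .out))) .out)
  .out)) (.na 886 193 (.nx 885 660563 (.nr 884 1048577 (.nr 879 191 .s1 (.nx 880 205 (.l1 (.ls 61
  17 223)) (.nr 883 524289 (.nr 881 8193 (.lg 0 false 1 71 71 16 0 2232) (.nx 882 6503 (.lg 0 true
  1 67 67 16 0 744) .out)) .out))) .out) .out) (.na 894 194 (.nx 893 660563 (.nr 892 1048577 (.nr
  887 193 .s1 (.nx 888 205 (.l1 (.ls 73 17 220)) (.nr 891 524289 (.nr 889 8193 (.lg 0 false 1 71 71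
  16 0 744) (.nx 890 6503 (.lg 0 true 1 71 71 16 0 11160) .out)) .out))) .out) .out) (.nx 901
  660563 (.nr 900 1048577 (.nr 895 194 .s1 (.nx 896 205 (.l1 (.ls 61 23 219)) (.nr 899 524289 (.nr
  897 8193 (.lg 0 false 1 71 71 19 0 1488) (.nx 898 6503 (.lg 0 true 1 71 71 19 0 4464) .out))
  .out))) .out) .out)))) (.na 911 218 (.na 903 214 (.lg 0 false 1 0 0 16 0 24) (.nx 910 660563 (.nr
  909 1048577 (.nr 904 214 .s1 (.nx 907 6503 (.nx 905 205 (.l1 (.ls 61 23 199)) (.nr 906 524289
  (.lg 0 true 1 67 67 23 0 1488) .out)) (.nr 908 8193 (.lg 0 false 1 71 71 23 0 4464) .out))) .out)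
  .out)) (.na 919 223 (.nx 918 660563 (.nr 917 1048577 (.nr 912 218 .s1 (.nx 913 205 (.l1 (.ls 61
  23 195)) (.nr 916 524289 (.nr 914 8193 (.lg 0 false 1 71 71 23 0 1488) (.nx 915 6503 (.lg 0 true
  1 67 67 23 0 1488) .out)) .out))) .out) .out) (.na 927 227 (.nx 926 660563 (.nr 925 1048577 (.nr
  920 223 .s1 (.nx 921 205 (.l1 (.ls 71 17 191)) (.nr 924 524289 (.nr 922 8193 (.lg 0 false 1 71 71
  16 0 11160) (.nx 923 6503 (.lg 0 true 1 67 67 16 0 744) .out)) .out))) .out) .out) (.nx 934
  660563 (.nr 933 1048577 (.nr 928 227 .s1 (.nx 929 205 (.l1 (.ls 61 17 188)) (.nr 932 524289 (.nr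
  930 8193 (.lg 0 false 1 67 67 17 0 744) (.nx 931 6503 (.lg 0 true 1 67 67 17 0 11160) .out))
  .out))) .out) .out)))))) (.na 2201 1024 (.na 946 254 (.na 944 241 (.na 943 239 (.nx 942 660563
  (.nr 941 1048577 (.nr 936 237 .s1 (.nx 937 205 (.l1 (.ls 59 19 180)) (.nr 940 524289 (.nr 938
  8193 (.lg 0 false 1 71 71 19 0 11160) (.nx 939 6503 (.lg 0 true 1 67 67 19 0 11160) .out))
  .out))) .out) .out) (.lg 0 false 1 0 0 16 0 24)) (.na 945 243 (.lg 0 false 1 0 0 16 0 24) (.lg 0
  false 1 0 0 16 0 24))) (.na 955 257 (.na 954 256 (.nx 953 660563 (.nr 952 1048577 (.nr 947 254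
  .s1 (.nx 948 205 (.l1 (.ls 59 23 168)) (.nr 951 524289 (.nr 949 8193 (.lg 0 false 1 67 67 23 0
  1488) (.nx 950 6503 (.lg 0 true 1 67 67 23 0 4464) .out)) .out))) .out) .out) .ne) (.na 1469 512
  (.nx 1468 82572 (.nr 1467 1048577 (.nr 956 257 .s1 (.nx 1211 647 (.la (.ls 61 29 1631)) (.nr 1466
  262145 (.la (.lg 0 true 1 71 71 23 0)) .out))) .out) .out) (.na 1899 725 (.nx 1898 82572 (.nr
  1897 1048577 (.nr 1470 512 .s1 (.nx 1683 5162 (.la (.ls 59 47 52046)) (.nr 1896 16385 (.la (.lg 2
  true 1 37 37 23 13806)) .out))) .out) .out) (.nx 2200 3252 (.nr 2199 262145 (.nr 1900 725 .s1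
  (.la (.ls 47 43 14589))) .out) .out))))) (.na 5569 8192 (.na 3325 2048 (.na 2629 1449 (.nx 2628
  3252 (.nr 2627 262145 (.nr 2202 1024 .s1 (.la (.ls 43 41 10330))) .out) .out) (.nx 3324 1627 (.nr
  3323 131073 (.nr 2630 1449 .s1 (.nx 2723 93 (.nr 2722 14004 (.lx (.lp 16 19 513)) (.l1 .sk)) (.nx
  2724 94 (.l1 .sk) (.la (.ls 43 31 1823))))) .out) .out)) (.na 4271 2897 (.nx 4270 1627 (.nr 4269
  131073 (.nr 3326 2048 .s1 (.nx 3419 93 (.nr 3418 19809 (.lx (.lp 16 0 725)) (.l1 .sk)) (.nx 3420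
  94 (.l1 .sk) (.la (.ls 43 31 1291))))) .out) .out) (.na 4920 4096 (.nx 4919 647 (.nr 4918 65537
  (.nr 4272 2897 .s1 (.lx (.lp 41 31 1025))) .out) .out) (.nx 5568 647 (.nr 5567 65537 (.nr 4921
  4096 .s1 (.lx (.lp 41 37 2049))) .out) .out)))) (.na 6867 32768 (.na 6218 16384 (.nx 6217 647
  (.nr 6216 65537 (.nr 5570 8192 .s1 (.lx (.lp 19 41 4097))) .out) .out) (.nx 6866 647 (.nr 6865
  131073 (.nr 6219 16384 .s1 (.lx (.lp 19 43 8193))) .out) .out)) (.na 7193 65536 (.nx 7192 324
  (.nr 7191 131073 (.nr 6868 32768 .s1 (.lx (.lp 16 0 16385))) .out) .out) (.na 7519 131073 (.nx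
  7518 324 (.nr 7517 262145 (.nr 7194 65536 .s1 (.lx (.lp 16 0 32769))) .out) .out) .out)))))))

theorem c104 :
    OkQ ckI L8 164 44 1099511627776 0 34359738368 1 1099511627776 ∧
    OkQ ckI L8 160 1 13 0 34359738368 1 1099511627776 ∧
    OkQ ckI L6 93 1 1099511627776 0 34359738368 1 1099511627776 := by
  refine ⟨?_, ?_, ?_⟩
  · refine fin 2952 14071 T104_0 ?_
    refine jn 5 (by decide +kernel) ?_
    refine jn 7 (by decide +kernel) ?_
    refine jn 8 (by decide +kernel) ?_
    refine jn 12 (by decide +kernel) ?_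
    refine jn 15 (by decide +kernel) ?_
    refine jn 22 (by decide +kernel) ?_
    refine jn 30 (by decide +kernel) ?_
    refine jn 36 (by decide +kernel) ?_
    refine jn 47 (by decide +kernel) ?_
    refine jn 52 (by decide +kernel) ?_
    refine jn 61 (by decide +kernel) ?_
    refine jn 62 (by decide +kernel) ?_
    refine jn 63 (by decide +kernel) ?_
    refine jn 64 (by decide +kernel) ?_
    refine jn 65 (by decide +kernel) ?_
    refine jn 68 (by decide +kernel) ?_
    refine jn 71 (by decide +kernel) ?_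
    refine jn 72 (by decide +kernel) ?_
    refine jn 82 (by decide +kernel) ?_
    refine jn 86 (by decide +kernel) ?_
    refine jn 95 (by decide +kernel) ?_
    refine jn 98 (by decide +kernel) ?_
    refine jn 100 (by decide +kernel) ?_
    refine jn 112 (by decide +kernel) ?_
    refine jn 122 (by decide +kernel) ?_
    refine jn 127 (by decide +kernel) ?_
    refine jn 129 (by decide +kernel) ?_
    refine jn 144 (by decide +kernel) ?_
    refine jn 154 (by decide +kernel) ?_
    refine jn 155 (by decide +kernel) ?_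
    refine jn 157 (by decide +kernel) ?_
    refine jn 160 (by decide +kernel) ?_
    refine jn 169 (by decide +kernel) ?_
    refine jn 172 (by decide +kernel) ?_
    refine jn 187 (by decide +kernel) ?_
    refine jn 200 (by decide +kernel) ?_
    refine jn 211 (by decide +kernel) ?_
    refine jn 215 (by decide +kernel) ?_
    refine jn 225 (by decide +kernel) ?_
    refine jn 236 (by decide +kernel) ?_
    refine jn 241 (by decide +kernel) ?_
    refine jn 251 (by decide +kernel) ?_
    refine jn 264 (by decide +kernel) ?_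
    refine jn 275 (by decide +kernel) ?_
    refine jn 279 (by decide +kernel) ?_
    refine jn 286 (by decide +kernel) ?_
    refine jn 290 (by decide +kernel) ?_
    refine jn 299 (by decide +kernel) ?_
    refine jn 306 (by decide +kernel) ?_
    refine jn 309 (by decide +kernel) ?_
    refine jn 319 (by decide +kernel) ?_
    refine jn 334 (by decide +kernel) ?_
    refine jn 338 (by decide +kernel) ?_
    refine jn 348 (by decide +kernel) ?_
    refine jn 359 (by decide +kernel) ?_
    refine jn 370 (by decide +kernel) ?_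
    refine jn 379 (by decide +kernel) ?_
    refine jn 392 (by decide +kernel) ?_
    refine jn 394 (by decide +kernel) ?_
    refine jn 398 (by decide +kernel) ?_
    refine jn 408 (by decide +kernel) ?_
    refine jn 416 (by decide +kernel) ?_
    refine jn 425 (by decide +kernel) ?_
    refine jn 435 (by decide +kernel) ?_
    refine jn 444 (by decide +kernel) ?_
    refine jn 445 (by decide +kernel) ?_
    refine jn 448 (by decide +kernel) ?_
    refine jn 455 (by decide +kernel) ?_
    refine jn 457 (by decide +kernel) ?_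
    refine jn 468 (by decide +kernel) ?_
    refine jn 482 (by decide +kernel) ?_
    refine jn 483 (by decide +kernel) ?_
    refine jn 486 (by decide +kernel) ?_
    refine jn 501 (by decide +kernel) ?_
    refine jn 511 (by decide +kernel) ?_
    refine jn 520 (by decide +kernel) ?_
    refine jn 527 (by decide +kernel) ?_
    refine jn 530 (by decide +kernel) ?_
    refine jn 579 (by decide +kernel) ?_
    refine jn 609 (by decide +kernel) ?_
    refine jn 657 (by decide +kernel) ?_
    refine jn 681 (by decide +kernel) ?_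
    refine jn 699 (by decide +kernel) ?_
    refine jn 700 (by decide +kernel) ?_
    refine jn 741 (by decide +kernel) ?_
    refine jn 771 (by decide +kernel) ?_
    refine jn 842 (by decide +kernel) ?_
    refine jn 844 (by decide +kernel) ?_
    refine jn 846 (by decide +kernel) ?_
    refine jn 858 (by decide +kernel) ?_
    refine jn 860 (by decide +kernel) ?_
    refine jn 868 (by decide +kernel) ?_
    refine jn 870 (by decide +kernel) ?_
    refine jn 876 (by decide +kernel) ?_
    refine jn 877 (by decide +kernel) ?_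
    refine jn 884 (by decide +kernel) ?_
    refine jn 885 (by decide +kernel) ?_
    refine jn 906 (by decide +kernel) ?_
    refine jn 907 (by decide +kernel) ?_
    refine jn 922 (by decide +kernel) ?_
    refine jn 934 (by decide +kernel) ?_
    refine jn 946 (by decide +kernel) ?_
    refine jn 956 (by decide +kernel) ?_
    refine jn 957 (by decide +kernel) ?_
    refine jn 972 (by decide +kernel) ?_
    refine jn 974 (by decide +kernel) ?_
    refine jn 986 (by decide +kernel) ?_
    refine jn 996 (by decide +kernel) ?_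
    refine jn 997 (by decide +kernel) ?_
    refine jn 1014 (by decide +kernel) ?_
    refine jn 1020 (by decide +kernel) ?_
    refine jn 1026 (by decide +kernel) ?_
    refine jn 1030 (by decide +kernel) ?_
    refine jn 1038 (by decide +kernel) ?_
    refine jn 1046 (by decide +kernel) ?_
    refine jn 1054 (by decide +kernel) ?_
    refine jn 1060 (by decide +kernel) ?_
    refine jn 1066 (by decide +kernel) ?_
    refine jn 1076 (by decide +kernel) ?_
    refine jn 1099 (by decide +kernel) ?_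
    refine jn 1113 (by decide +kernel) ?_
    refine jn 1123 (by decide +kernel) ?_
    refine jn 1131 (by decide +kernel) ?_
    refine jn 1139 (by decide +kernel) ?_
    refine jn 1147 (by decide +kernel) ?_
    refine jn 1161 (by decide +kernel) ?_
    refine jn 1165 (by decide +kernel) ?_
    refine jn 1181 (by decide +kernel) ?_
    refine jn 1197 (by decide +kernel) ?_
    refine jn 1209 (by decide +kernel) ?_
    refine jn 1211 (by decide +kernel) ?_
    refine jn 1213 (by decide +kernel) ?_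
    refine jn 1227 (by decide +kernel) ?_
    refine jn 1233 (by decide +kernel) ?_
    refine jn 1249 (by decide +kernel) ?_
    refine jn 1251 (by decide +kernel) ?_
    refine jn 1252 (by decide +kernel) ?_
    refine jn 1275 (by decide +kernel) ?_
    refine jn 1283 (by decide +kernel) ?_
    refine jn 1293 (by decide +kernel) ?_
    refine jn 1301 (by decide +kernel) ?_
    refine jn 1313 (by decide +kernel) ?_
    refine jn 1321 (by decide +kernel) ?_
    refine jn 1331 (by decide +kernel) ?_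
    refine jn 1423 (by decide +kernel) ?_
    refine jn 1553 (by decide +kernel) ?_
    refine jn 1573 (by decide +kernel) ?_
    refine jn 1579 (by decide +kernel) ?_
    refine jn 1581 (by decide +kernel) ?_
    refine jn 1591 (by decide +kernel) ?_
    refine jn 1605 (by decide +kernel) ?_
    refine jn 1611 (by decide +kernel) ?_
    refine jn 1615 (by decide +kernel) ?_
    refine jn 1629 (by decide +kernel) ?_
    refine jn 1635 (by decide +kernel) ?_
    refine jn 1651 (by decide +kernel) ?_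
    refine jn 1671 (by decide +kernel) ?_
    refine jn 1699 (by decide +kernel) ?_
    refine jn 1701 (by decide +kernel) ?_
    refine jn 1702 (by decide +kernel) ?_
    refine jn 1711 (by decide +kernel) ?_
    refine jn 1725 (by decide +kernel) ?_
    refine jn 1727 (by decide +kernel) ?_
    refine jn 1739 (by decide +kernel) ?_
    refine jn 1747 (by decide +kernel) ?_
    refine jn 1763 (by decide +kernel) ?_
    refine jn 1786 (by decide +kernel) ?_
    refine jn 1794 (by decide +kernel) ?_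
    refine jn 1808 (by decide +kernel) ?_
    refine jn 1824 (by decide +kernel) ?_
    refine jn 1842 (by decide +kernel) ?_
    refine jn 1858 (by decide +kernel) ?_
    refine jn 1884 (by decide +kernel) ?_
    refine jn 1914 (by decide +kernel) ?_
    refine jn 1915 (by decide +kernel) ?_
    refine jn 1924 (by decide +kernel) ?_
    refine jn 1938 (by decide +kernel) ?_
    refine jn 1946 (by decide +kernel) ?_
    refine jn 1954 (by decide +kernel) ?_
    refine jn 1964 (by decide +kernel) ?_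
    refine jn 1985 (by decide +kernel) ?_
    refine jn 2005 (by decide +kernel) ?_
    refine jn 2037 (by decide +kernel) ?_
    refine jn 2063 (by decide +kernel) ?_
    refine jn 2097 (by decide +kernel) ?_
    refine jn 2137 (by decide +kernel) ?_
    refine jn 2183 (by decide +kernel) ?_
    refine jn 2207 (by decide +kernel) ?_
    refine jn 2249 (by decide +kernel) ?_
    refine jn 2288 (by decide +kernel) ?_
    refine jn 2298 (by decide +kernel) ?_
    refine jn 2314 (by decide +kernel) ?_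
    refine jn 2328 (by decide +kernel) ?_
    refine jn 2354 (by decide +kernel) ?_
    refine jn 2362 (by decide +kernel) ?_
    refine jn 2394 (by decide +kernel) ?_
    refine jn 2410 (by decide +kernel) ?_
    refine jn 2436 (by decide +kernel) ?_
    refine jn 2464 (by decide +kernel) ?_
    refine jn 2482 (by decide +kernel) ?_
    refine jn 2483 (by decide +kernel) ?_
    refine jn 2508 (by decide +kernel) ?_
    refine jn 2538 (by decide +kernel) ?_
    refine jn 2560 (by decide +kernel) ?_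
    refine jn 2600 (by decide +kernel) ?_
    refine jn 2656 (by decide +kernel) ?_
    refine jn 2692 (by decide +kernel) ?_
    refine jn 2710 (by decide +kernel) ?_
    refine jn 2782 (by decide +kernel) ?_
    refine jn 2822 (by decide +kernel) ?_
    refine jn 2878 (by decide +kernel) ?_
    refine jn 2902 (by decide +kernel) ?_
    refine jn 2934 (by decide +kernel) ?_
    refine jn 2974 (by decide +kernel) ?_
    refine jn 3021 (by decide +kernel) ?_
    refine jn 3037 (by decide +kernel) ?_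
    refine jn 3069 (by decide +kernel) ?_
    refine jn 3097 (by decide +kernel) ?_
    refine jn 3127 (by decide +kernel) ?_
    refine jn 3128 (by decide +kernel) ?_
    refine jn 3175 (by decide +kernel) ?_
    refine jn 3207 (by decide +kernel) ?_
    refine jn 3241 (by decide +kernel) ?_
    refine jn 3247 (by decide +kernel) ?_
    refine jn 3253 (by decide +kernel) ?_
    refine jn 3309 (by decide +kernel) ?_
    refine jn 3327 (by decide +kernel) ?_
    refine jn 3343 (by decide +kernel) ?_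
    refine jn 3373 (by decide +kernel) ?_
    refine jn 3397 (by decide +kernel) ?_
    refine jn 3421 (by decide +kernel) ?_
    refine jn 3451 (by decide +kernel) ?_
    refine jn 3493 (by decide +kernel) ?_
    refine jn 3547 (by decide +kernel) ?_
    refine jn 3587 (by decide +kernel) ?_
    refine jn 3619 (by decide +kernel) ?_
    refine jn 3682 (by decide +kernel) ?_
    refine jn 3723 (by decide +kernel) ?_
    refine jn 3781 (by decide +kernel) ?_
    refine jn 3853 (by decide +kernel) ?_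
    refine jn 3909 (by decide +kernel) ?_
    refine jn 3979 (by decide +kernel) ?_
    refine jn 4025 (by decide +kernel) ?_
    refine jn 4070 (by decide +kernel) ?_
    refine jn 4104 (by decide +kernel) ?_
    refine jn 4160 (by decide +kernel) ?_
    refine jn 4214 (by decide +kernel) ?_
    refine jn 4264 (by decide +kernel) ?_
    refine jn 4312 (by decide +kernel) ?_
    refine jn 4382 (by decide +kernel) ?_
    refine jn 4424 (by decide +kernel) ?_
    refine jn 4494 (by decide +kernel) ?_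
    refine jn 4550 (by decide +kernel) ?_
    refine jn 4624 (by decide +kernel) ?_
    refine jn 4678 (by decide +kernel) ?_
    refine jn 4726 (by decide +kernel) ?_
    refine jn 4772 (by decide +kernel) ?_
    refine jn 4840 (by decide +kernel) ?_
    refine jn 4894 (by decide +kernel) ?_
    refine jn 5102 (by decide +kernel) ?_
    refine jn 5168 (by decide +kernel) ?_
    refine jn 5264 (by decide +kernel) ?_
    refine jn 5326 (by decide +kernel) ?_
    refine jn 5444 (by decide +kernel) ?_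
    refine jn 5488 (by decide +kernel) ?_
    refine jn 5564 (by decide +kernel) ?_
    refine jn 5636 (by decide +kernel) ?_
    refine jn 5726 (by decide +kernel) ?_
    refine jn 5822 (by decide +kernel) ?_
    refine jn 5894 (by decide +kernel) ?_
    refine jn 5974 (by decide +kernel) ?_
    refine jn 6102 (by decide +kernel) ?_
    refine jn 6152 (by decide +kernel) ?_
    refine jn 6214 (by decide +kernel) ?_
    refine jn 6423 (by decide +kernel) ?_
    refine jn 6510 (by decide +kernel) ?_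
    refine jn 6574 (by decide +kernel) ?_
    refine jn 6664 (by decide +kernel) ?_
    refine jn 6744 (by decide +kernel) ?_
    refine jn 6860 (by decide +kernel) ?_
    refine jn 6950 (by decide +kernel) ?_
    refine jn 7006 (by decide +kernel) ?_
    refine jn 7080 (by decide +kernel) ?_
    refine jn 7174 (by decide +kernel) ?_
    refine jn 7264 (by decide +kernel) ?_
    refine jn 7342 (by decide +kernel) ?_
    refine jn 7454 (by decide +kernel) ?_
    refine jn 7526 (by decide +kernel) ?_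
    refine jn 7622 (by decide +kernel) ?_
    refine jn 7710 (by decide +kernel) ?_
    refine jn 7800 (by decide +kernel) ?_
    refine jn 7880 (by decide +kernel) ?_
    refine jn 7980 (by decide +kernel) ?_
    refine jn 8062 (by decide +kernel) ?_
    refine jn 8307 (by decide +kernel) ?_
    refine jn 8479 (by decide +kernel) ?_
    refine jn 8619 (by decide +kernel) ?_
    refine jn 8751 (by decide +kernel) ?_
    refine jn 8852 (by decide +kernel) ?_
    refine jn 8957 (by decide +kernel) ?_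
    refine jn 9039 (by decide +kernel) ?_
    refine jn 9096 (by decide +kernel) ?_
    refine jn 9165 (by decide +kernel) ?_
    refine jn 9236 (by decide +kernel) ?_
    refine jn 9291 (by decide +kernel) ?_
    refine jn 9323 (by decide +kernel) ?_
    refine jn 9376 (by decide +kernel) ?_
    refine jn 9420 (by decide +kernel) ?_
    refine jn 9700 (by decide +kernel) ?_
    refine jn 9824 (by decide +kernel) ?_
    refine jn 9913 (by decide +kernel) ?_
    refine jn 9981 (by decide +kernel) ?_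
    refine jn 10046 (by decide +kernel) ?_
    refine jn 10101 (by decide +kernel) ?_
    refine jn 10163 (by decide +kernel) ?_
    refine jn 10233 (by decide +kernel) ?_
    refine jn 10296 (by decide +kernel) ?_
    refine jn 10347 (by decide +kernel) ?_
    refine jn 10385 (by decide +kernel) ?_
    refine jn 10449 (by decide +kernel) ?_
    refine jn 10493 (by decide +kernel) ?_
    refine jn 10548 (by decide +kernel) ?_
    refine jn 10595 (by decide +kernel) ?_
    refine jn 10630 (by decide +kernel) ?_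
    refine jn 10670 (by decide +kernel) ?_
    refine jn 10703 (by decide +kernel) ?_
    refine jn 10988 (by decide +kernel) ?_
    refine jn 11107 (by decide +kernel) ?_
    refine jn 11221 (by decide +kernel) ?_
    refine jn 11319 (by decide +kernel) ?_
    refine jn 11408 (by decide +kernel) ?_
    refine jn 11523 (by decide +kernel) ?_
    refine jn 11612 (by decide +kernel) ?_
    refine jn 11659 (by decide +kernel) ?_
    refine jn 11733 (by decide +kernel) ?_
    refine jn 11783 (by decide +kernel) ?_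
    refine jn 11834 (by decide +kernel) ?_
    refine jn 11899 (by decide +kernel) ?_
    refine jn 11955 (by decide +kernel) ?_
    refine jn 12011 (by decide +kernel) ?_
    refine jn 12372 (by decide +kernel) ?_
    refine jn 12504 (by decide +kernel) ?_
    refine jn 12624 (by decide +kernel) ?_
    refine jn 12728 (by decide +kernel) ?_
    refine jn 12840 (by decide +kernel) ?_
    refine jn 12935 (by decide +kernel) ?_
    refine jn 13032 (by decide +kernel) ?_
    refine jn 13416 (by decide +kernel) ?_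
    refine jn 13580 (by decide +kernel) ?_
    refine jn 13726 (by decide +kernel) ?_
    refine jn 13880 (by decide +kernel) ?_
    refine jn 13972 (by decide +kernel) ?_
    exact je (by decide +kernel)
  · refine fin 240 1089 T104_1 ?_
    refine jn 7 (by decide +kernel) ?_
    refine jn 9 (by decide +kernel) ?_
    refine jn 13 (by decide +kernel) ?_
    refine jn 17 (by decide +kernel) ?_
    refine jn 19 (by decide +kernel) ?_
    refine jn 20 (by decide +kernel) ?_
    refine jn 22 (by decide +kernel) ?_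
    refine jn 26 (by decide +kernel) ?_
    refine jn 29 (by decide +kernel) ?_
    refine jn 31 (by decide +kernel) ?_
    refine jn 33 (by decide +kernel) ?_
    refine jn 39 (by decide +kernel) ?_
    refine jn 45 (by decide +kernel) ?_
    refine jn 51 (by decide +kernel) ?_
    refine jn 56 (by decide +kernel) ?_
    refine jn 62 (by decide +kernel) ?_
    refine jn 68 (by decide +kernel) ?_
    refine jn 80 (by decide +kernel) ?_
    refine jn 99 (by decide +kernel) ?_
    refine jn 117 (by decide +kernel) ?_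
    refine jn 132 (by decide +kernel) ?_
    refine jn 160 (by decide +kernel) ?_
    refine jn 174 (by decide +kernel) ?_
    refine jn 192 (by decide +kernel) ?_
    refine jn 208 (by decide +kernel) ?_
    refine jn 249 (by decide +kernel) ?_
    refine jn 269 (by decide +kernel) ?_
    refine jn 283 (by decide +kernel) ?_
    refine jn 294 (by decide +kernel) ?_
    refine jn 300 (by decide +kernel) ?_
    refine jn 305 (by decide +kernel) ?_
    refine jn 312 (by decide +kernel) ?_
    refine jn 317 (by decide +kernel) ?_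
    refine jn 323 (by decide +kernel) ?_
    refine jn 328 (by decide +kernel) ?_
    refine jn 348 (by decide +kernel) ?_
    refine jn 357 (by decide +kernel) ?_
    refine jn 363 (by decide +kernel) ?_
    refine jn 376 (by decide +kernel) ?_
    refine jn 385 (by decide +kernel) ?_
    refine jn 394 (by decide +kernel) ?_
    refine jn 412 (by decide +kernel) ?_
    refine jn 430 (by decide +kernel) ?_
    refine jn 457 (by decide +kernel) ?_
    refine jn 481 (by decide +kernel) ?_
    refine jn 485 (by decide +kernel) ?_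
    refine jn 486 (by decide +kernel) ?_
    refine jn 488 (by decide +kernel) ?_
    refine jn 489 (by decide +kernel) ?_
    refine jn 491 (by decide +kernel) ?_
    refine jn 492 (by decide +kernel) ?_
    refine jn 494 (by decide +kernel) ?_
    refine jn 495 (by decide +kernel) ?_
    refine jn 497 (by decide +kernel) ?_
    refine jn 498 (by decide +kernel) ?_
    refine jn 499 (by decide +kernel) ?_
    refine jn 500 (by decide +kernel) ?_
    refine jn 502 (by decide +kernel) ?_
    refine jn 503 (by decide +kernel) ?_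
    refine jn 507 (by decide +kernel) ?_
    refine jn 510 (by decide +kernel) ?_
    refine jn 512 (by decide +kernel) ?_
    refine jn 514 (by decide +kernel) ?_
    refine jn 516 (by decide +kernel) ?_
    refine jn 518 (by decide +kernel) ?_
    refine jn 519 (by decide +kernel) ?_
    refine jn 526 (by decide +kernel) ?_
    refine jn 535 (by decide +kernel) ?_
    refine jn 542 (by decide +kernel) ?_
    refine jn 549 (by decide +kernel) ?_
    refine jn 556 (by decide +kernel) ?_
    refine jn 563 (by decide +kernel) ?_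
    refine jn 570 (by decide +kernel) ?_
    refine jn 579 (by decide +kernel) ?_
    refine jn 584 (by decide +kernel) ?_
    refine jn 596 (by decide +kernel) ?_
    refine jn 618 (by decide +kernel) ?_
    refine jn 646 (by decide +kernel) ?_
    refine jn 658 (by decide +kernel) ?_
    refine jn 664 (by decide +kernel) ?_
    refine jn 678 (by decide +kernel) ?_
    refine jn 690 (by decide +kernel) ?_
    refine jn 699 (by decide +kernel) ?_
    refine jn 722 (by decide +kernel) ?_
    refine jn 740 (by decide +kernel) ?_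
    refine jn 782 (by decide +kernel) ?_
    refine jn 802 (by decide +kernel) ?_
    refine jn 804 (by decide +kernel) ?_
    refine jn 806 (by decide +kernel) ?_
    refine jn 808 (by decide +kernel) ?_
    refine jn 810 (by decide +kernel) ?_
    refine jn 812 (by decide +kernel) ?_
    refine jn 816 (by decide +kernel) ?_
    refine jn 821 (by decide +kernel) ?_
    refine jn 825 (by decide +kernel) ?_
    refine jn 828 (by decide +kernel) ?_
    refine jn 837 (by decide +kernel) ?_
    refine jn 841 (by decide +kernel) ?_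
    refine jn 850 (by decide +kernel) ?_
    refine jn 859 (by decide +kernel) ?_
    refine jn 887 (by decide +kernel) ?_
    refine jn 896 (by decide +kernel) ?_
    refine jn 898 (by decide +kernel) ?_
    refine jn 900 (by decide +kernel) ?_
    refine jn 902 (by decide +kernel) ?_
    refine jn 903 (by decide +kernel) ?_
    refine jn 913 (by decide +kernel) ?_
    refine jn 920 (by decide +kernel) ?_
    refine jn 925 (by decide +kernel) ?_
    refine jn 928 (by decide +kernel) ?_
    refine jn 932 (by decide +kernel) ?_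
    refine jn 944 (by decide +kernel) ?_
    refine jn 953 (by decide +kernel) ?_
    refine jn 982 (by decide +kernel) ?_
    refine jn 1000 (by decide +kernel) ?_
    refine jn 1009 (by decide +kernel) ?_
    refine jn 1026 (by decide +kernel) ?_
    refine jn 1040 (by decide +kernel) ?_
    refine jn 1042 (by decide +kernel) ?_
    refine jn 1044 (by decide +kernel) ?_
    refine jn 1046 (by decide +kernel) ?_
    refine jn 1047 (by decide +kernel) ?_
    refine jn 1051 (by decide +kernel) ?_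
    refine jn 1054 (by decide +kernel) ?_
    refine jn 1061 (by decide +kernel) ?_
    refine jn 1069 (by decide +kernel) ?_
    refine jn 1076 (by decide +kernel) ?_
    exact je (by decide +kernel)
  · refine fin 744 7520 T104_2 ?_
    refine jn 5 (by decide +kernel) ?_
    refine jn 6 (by decide +kernel) ?_
    refine jn 10 (by decide +kernel) ?_
    refine jn 11 (by decide +kernel) ?_
    refine jn 15 (by decide +kernel) ?_
    refine jn 16 (by decide +kernel) ?_
    refine jn 19 (by decide +kernel) ?_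
    refine jn 24 (by decide +kernel) ?_
    refine jn 26 (by decide +kernel) ?_
    refine jn 27 (by decide +kernel) ?_
    refine jn 31 (by decide +kernel) ?_
    refine jn 33 (by decide +kernel) ?_
    refine jn 36 (by decide +kernel) ?_
    refine jn 37 (by decide +kernel) ?_
    refine jn 58 (by decide +kernel) ?_
    refine jn 63 (by decide +kernel) ?_
    refine jn 67 (by decide +kernel) ?_
    refine jn 71 (by decide +kernel) ?_
    refine jn 75 (by decide +kernel) ?_
    refine jn 80 (by decide +kernel) ?_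
    refine jn 85 (by decide +kernel) ?_
    refine jn 89 (by decide +kernel) ?_
    refine jn 93 (by decide +kernel) ?_
    refine jn 94 (by decide +kernel) ?_
    refine jn 114 (by decide +kernel) ?_
    refine jn 125 (by decide +kernel) ?_
    refine jn 145 (by decide +kernel) ?_
    refine jn 162 (by decide +kernel) ?_
    refine jn 176 (by decide +kernel) ?_
    refine jn 188 (by decide +kernel) ?_
    refine jn 210 (by decide +kernel) ?_
    refine jn 214 (by decide +kernel) ?_
    refine jn 218 (by decide +kernel) ?_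
    refine jn 221 (by decide +kernel) ?_
    refine jn 225 (by decide +kernel) ?_
    refine jn 229 (by decide +kernel) ?_
    refine jn 235 (by decide +kernel) ?_
    refine jn 242 (by decide +kernel) ?_
    refine jn 250 (by decide +kernel) ?_
    refine jn 256 (by decide +kernel) ?_
    refine jn 263 (by decide +kernel) ?_
    refine jn 274 (by decide +kernel) ?_
    refine jn 287 (by decide +kernel) ?_
    refine jn 307 (by decide +kernel) ?_
    refine jn 326 (by decide +kernel) ?_
    refine jn 336 (by decide +kernel) ?_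
    refine jn 340 (by decide +kernel) ?_
    refine jn 344 (by decide +kernel) ?_
    refine jn 353 (by decide +kernel) ?_
    refine jn 361 (by decide +kernel) ?_
    refine jn 368 (by decide +kernel) ?_
    refine jn 374 (by decide +kernel) ?_
    refine jn 387 (by decide +kernel) ?_
    refine jn 400 (by decide +kernel) ?_
    refine jn 452 (by decide +kernel) ?_
    refine jn 463 (by decide +kernel) ?_
    refine jn 470 (by decide +kernel) ?_
    refine jn 479 (by decide +kernel) ?_
    refine jn 488 (by decide +kernel) ?_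
    refine jn 505 (by decide +kernel) ?_
    refine jn 507 (by decide +kernel) ?_
    refine jn 509 (by decide +kernel) ?_
    refine jn 511 (by decide +kernel) ?_
    refine jn 515 (by decide +kernel) ?_
    refine jn 518 (by decide +kernel) ?_
    refine jn 519 (by decide +kernel) ?_
    refine jn 520 (by decide +kernel) ?_
    refine jn 521 (by decide +kernel) ?_
    refine jn 522 (by decide +kernel) ?_
    refine jn 523 (by decide +kernel) ?_
    refine jn 524 (by decide +kernel) ?_
    refine jn 525 (by decide +kernel) ?_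
    refine jn 539 (by decide +kernel) ?_
    refine jn 544 (by decide +kernel) ?_
    refine jn 549 (by decide +kernel) ?_
    refine jn 563 (by decide +kernel) ?_
    refine jn 580 (by decide +kernel) ?_
    refine jn 585 (by decide +kernel) ?_
    refine jn 591 (by decide +kernel) ?_
    refine jn 598 (by decide +kernel) ?_
    refine jn 599 (by decide +kernel) ?_
    refine jn 600 (by decide +kernel) ?_
    refine jn 605 (by decide +kernel) ?_
    refine jn 607 (by decide +kernel) ?_
    refine jn 609 (by decide +kernel) ?_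
    refine jn 624 (by decide +kernel) ?_
    refine jn 636 (by decide +kernel) ?_
    refine jn 646 (by decide +kernel) ?_
    refine jn 667 (by decide +kernel) ?_
    refine jn 681 (by decide +kernel) ?_
    refine jn 700 (by decide +kernel) ?_
    refine jn 711 (by decide +kernel) ?_
    refine jn 723 (by decide +kernel) ?_
    refine jn 734 (by decide +kernel) ?_
    refine jn 746 (by decide +kernel) ?_
    refine jn 757 (by decide +kernel) ?_
    refine jn 768 (by decide +kernel) ?_
    refine jn 787 (by decide +kernel) ?_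
    refine jn 796 (by decide +kernel) ?_
    refine jn 812 (by decide +kernel) ?_
    refine jn 828 (by decide +kernel) ?_
    refine jn 847 (by decide +kernel) ?_
    refine jn 863 (by decide +kernel) ?_
    refine jn 882 (by decide +kernel) ?_
    refine jn 898 (by decide +kernel) ?_
    refine jn 915 (by decide +kernel) ?_
    refine jn 931 (by decide +kernel) ?_
    refine jn 950 (by decide +kernel) ?_
    refine jn 1020 (by decide +kernel) ?_
    refine jn 1125 (by decide +kernel) ?_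
    refine jn 1212 (by decide +kernel) ?_
    refine jn 1225 (by decide +kernel) ?_
    refine jn 1236 (by decide +kernel) ?_
    refine jn 1256 (by decide +kernel) ?_
    refine jn 1275 (by decide +kernel) ?_
    refine jn 1308 (by decide +kernel) ?_
    refine jn 1336 (by decide +kernel) ?_
    refine jn 1351 (by decide +kernel) ?_
    refine jn 1371 (by decide +kernel) ?_
    refine jn 1385 (by decide +kernel) ?_
    refine jn 1408 (by decide +kernel) ?_
    refine jn 1421 (by decide +kernel) ?_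
    refine jn 1447 (by decide +kernel) ?_
    refine jn 1485 (by decide +kernel) ?_
    refine jn 1521 (by decide +kernel) ?_
    refine jn 1549 (by decide +kernel) ?_
    refine jn 1617 (by decide +kernel) ?_
    refine jn 1698 (by decide +kernel) ?_
    refine jn 1744 (by decide +kernel) ?_
    refine jn 1812 (by decide +kernel) ?_
    refine jn 1869 (by decide +kernel) ?_
    refine jn 1953 (by decide +kernel) ?_
    refine jn 2017 (by decide +kernel) ?_
    refine jn 2104 (by decide +kernel) ?_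
    refine jn 2193 (by decide +kernel) ?_
    refine jn 2320 (by decide +kernel) ?_
    refine jn 2402 (by decide +kernel) ?_
    refine jn 2516 (by decide +kernel) ?_
    refine jn 2630 (by decide +kernel) ?_
    refine jn 2858 (by decide +kernel) ?_
    refine jn 3001 (by decide +kernel) ?_
    refine jn 3164 (by decide +kernel) ?_
    refine jn 3326 (by decide +kernel) ?_
    refine jn 3590 (by decide +kernel) ?_
    refine jn 3778 (by decide +kernel) ?_
    refine jn 3974 (by decide +kernel) ?_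
    refine jn 4175 (by decide +kernel) ?_
    refine jn 4601 (by decide +kernel) ?_
    refine jn 4819 (by decide +kernel) ?_
    refine jn 5081 (by decide +kernel) ?_
    refine jn 5322 (by decide +kernel) ?_
    refine jn 5463 (by decide +kernel) ?_
    refine jn 5567 (by decide +kernel) ?_
    refine jn 6002 (by decide +kernel) ?_
    refine jn 6193 (by decide +kernel) ?_
    refine jn 6691 (by decide +kernel) ?_
    refine jn 6868 (by decide +kernel) ?_
    exact je (by decide +kernel)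

end Pool.Agent.MP_2339ce_nt.NR
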