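import Pool.Agent.MP_2339ce_nt.Q2.NC.L6
import Pool.Agent.MP_2339ce_nt.Q2.NC.L8
import Pool.Agent.MP_2339ce_nt.Q2.NC.L9
import Pool.Agent.MP_2339ce_nt.Q2.CkI

/-! Block NR: runs. -/

set_option autoImplicit false
set_option maxRecDepth 100000

noncomputable section

namespace Pool.Agent.MP_2339ce_nt.NR

open Q2.Top

def T106_0 : Ph :=
  (.na 628 73 (.na 384 39 (.na 210 23 (.na 88 16 (.na 1 12 .ne (.na 47 13 (.nx 46 1664512 (.nr 45
  623489 (.nx 4 153 (.nx 3 152 (.nr 2 113 (.lg 0 true 1 37 37 13 0 2736) (.l1 .sk)) (.l1 .sk)) (.nr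
  39 155873 (.nx 9 19482 (.lg 0 false 5 97 101 19 0 13680) (.nr 38 110219 (.nr 20 829 (.nx 14
  524289 (.lg 0 true 5 83 83 19 0 13680) (.nr 19 65 (.lg 0 true 5 73 73 19 0 13680) .out)) (.nx 37
  416129 (.nx 30 82572 (.nx 25 43739 (.lg 1 false 5 103 107 19 65448 13693680) (.lg 1 true 5 101
  107 19 29151 13693680)) (.nr 36 77937 (.nr 31 3171 (.lg 2 false 1 89 89 13 38150 2736) (.lg 2
  false 5 89 101 19 10925 13680)) .out)) .out)) .out)) (.nx 44 1292 (.lg 0 false 5 83 89 19 0
  13680) .out))) .out) .out) (.nx 87 1664512 (.nr 86 623489 (.nr 48 5 .s1 (.nx 62 29192 (.nx 50 152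
  (.nr 49 140 (.lg 0 true 1 31 31 9 0 248976) (.l1 .sk)) (.nx 51 153 (.l1 .sk) (.nr 56 155873 (.lg
  0 false 5 103 103 16 0 1244880) (.nx 61 1292 (.lg 0 false 5 83 83 16 0 88920) .out)))) (.nr 85
  110219 (.nr 73 1621 (.nx 67 524289 (.lg 0 true 5 83 83 16 0 88920) (.nr 72 65 (.lg 0 true 5 67 67
  16 0 88920) .out)) (.nx 84 416129 (.nx 78 65537 (.lg 1 false 5 97 101 16 43678 1244880) (.nr 83
  92683 (.lg 2 false 5 101 101 16 19511 1244880) .out)) .out)) .out))) .out) .out))) (.na 131 19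
  (.na 89 17 .ne (.nx 130 1664512 (.nr 129 1048577 (.nr 90 12 .s1 (.nx 93 153 (.nx 92 152 (.nr 91
  166 (.lg 0 true 1 31 31 11 0 19152) (.l1 .sk)) (.l1 .sk)) (.nx 94 257 (.l1 (.ls 83 37 2511)) (.nr
  128 623489 (.nr 122 220437 (.nr 116 92683 (.nx 110 262145 (.nx 99 41287 (.lg 0 false 5 101 101 16
  0 95760) (.nr 109 77937 (.nr 104 1854 (.lg 0 true 5 83 83 16 0 6840) (.lg 2 false 5 97 101 16
  21850 95760)) .out)) (.nr 115 217 (.lg 0 true 5 73 73 16 0 6840) .out)) (.nx 121 13005 (.lg 0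
  false 5 97 101 16 0 95760) .out)) (.nx 127 1627 (.lg 0 false 5 83 83 16 0 6840) .out)) .out))))
  .out) .out)) (.na 174 21 (.nx 173 1664512 (.nr 172 1048577 (.nr 132 15 .s1 (.nx 136 257 (.nx 134
  152 (.nr 133 183 (.l1 (.ls 17 31 1218)) (.l1 .sk)) (.nx 135 153 (.l1 .sk) (.l1 (.ls 79 31
  2247)))) (.nr 171 623489 (.nr 163 220437 (.nx 143 23171 (.lg 0 false 7 89 89 16 0 9576) (.nr 162
  92683 (.nr 154 634 (.lg 0 true 11 73 73 16 0 15048) (.nx 161 262145 (.lg 2 false 7 97 97 16 46285
  95760) .out)) .out)) (.nx 170 1627 (.lg 0 false 7 73 73 16 0 9576) .out)) .out))) .out) .out)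
  (.nx 209 1664512 (.nr 208 1048577 (.nr 175 18 .s1 (.nx 179 257 (.nx 177 152 (.nr 176 201 (.lg 0
  false 1 37 37 16 0 95760) (.l1 .sk)) (.nx 178 153 (.l1 .sk) (.l1 (.ls 89 37 2033)))) (.nr 207
  623489 (.nr 204 220437 (.nx 184 13005 (.lg 0 false 5 89 97 19 0 47880) (.nr 203 92683 (.nr 201
  77937 (.nx 197 262145 (.nr 185 634 (.lg 0 false 1 83 83 16 0 9576) (.nr 190 46342 (.lg 2 true 5
  83 83 19 41301 47880) (.nx 196 165142 (.nx 193 82572 (.lg 0 true 3 103 107 17 0 13693680) (.nr
  195 55110 (.lg 0 true 2 97 101 17 0 95760) .out)) .out))) (.nr 200 217 (.lg 0 true 3 79 79 17 0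
  9576) .out)) (.nx 202 41287 (.lg 0 false 1 101 101 16 0 95760) .out)) .out)) (.nx 206 1627 (.lg 0
  false 2 97 97 17 0 95760) .out)) .out))) .out) .out)))) (.na 316 29 (.na 261 27 (.na 235 24 (.nx
  234 1664512 (.nr 233 1048577 (.nr 211 20 .s1 (.nx 214 153 (.nx 213 152 (.nr 212 210 (.lg 0 true 1
  29 29 11 0 2736) (.l1 .sk)) (.l1 .sk)) (.nx 221 20644 (.nx 215 257 (.l1 (.ls 83 31 1856)) (.nr
  220 311745 (.lg 0 false 5 101 101 16 0 13680) .out)) (.nr 232 77937 (.nr 226 513 (.lg 0 true 5 79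
  79 16 0 6840) (.nx 231 165142 (.lg 2 false 5 97 101 16 43699 13680) .out)) .out)))) .out) .out)
  (.nx 260 1664512 (.nr 259 1048577 (.nr 236 21 .s1 (.nx 255 208065 (.nx 247 20644 (.nx 240 257
  (.nx 238 152 (.nr 237 236 (.lg 0 false 1 37 37 13 0 95760) (.l1 .sk)) (.nx 239 153 (.l1 .sk) (.l1
  (.ls 89 41 1779)))) (.nr 246 311745 (.nr 243 110219 (.lg 0 false 3 97 101 23 0 95760) (.nx 245
  8193 (.lg 0 false 2 97 101 19 0 95760) .out)) .out)) (.nr 254 77937 (.nr 248 1307 (.lg 0 false 1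
  89 89 13 0 95760) (.nx 253 165142 (.nx 250 41287 (.lg 1 false 2 97 101 19 43699 95760) (.nr 252
  65537 (.lg 2 false 2 97 101 19 18380 95760) .out)) .out)) .out)) (.nr 258 217 (.lg 0 true 3 79 79
  23 0 2736) .out))) .out) .out)) (.na 286 28 (.nx 285 1664512 (.nr 284 1048577 (.nr 262 25 .s1
  (.nx 265 153 (.nx 264 152 (.nr 263 245 (.lg 0 true 1 23 23 16 0 19152) (.l1 .sk)) (.l1 .sk)) (.nx
  272 20644 (.nx 266 257 (.l1 (.ls 79 31 1582)) (.nr 271 311745 (.lg 0 false 5 89 89 16 0 6840)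
  .out)) (.nr 283 77937 (.nr 277 513 (.lg 0 true 5 73 73 16 0 6840) (.nx 282 165142 (.lg 2 false 5
  89 97 16 43699 95760) .out)) .out)))) .out) .out) (.nx 315 1664512 (.nr 314 1048577 (.nr 287 26
  .s1 (.nx 291 257 (.nx 289 152 (.nr 288 253 (.lg 0 false 1 31 31 13 0 19152) (.l1 .sk)) (.nx 290
  153 (.l1 .sk) (.l1 (.ls 89 41 1525)))) (.nr 313 311745 (.nx 307 208065 (.nr 301 110219 (.nx 296
  41287 (.lg 0 false 5 89 97 23 0 95760) (.nr 300 65537 (.nr 297 1307 (.lg 0 false 1 83 83 13 0
  19152) (.nx 299 165142 (.lg 2 false 2 89 97 19 18380 19152) .out)) .out)) (.nx 306 8193 (.lg 0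
  false 5 83 97 23 0 95760) .out)) (.nr 312 217 (.lg 0 true 5 73 73 23 0 95760) .out)) .out)))
  .out) .out))) (.na 342 36 (.na 341 32 (.nx 340 1664512 (.nr 339 1048577 (.nr 317 27 .s1 (.nx 329
  20644 (.nx 319 152 (.nr 318 280 (.lg 0 false 1 31 31 13 0 95760) (.l1 .sk)) (.nx 320 153 (.l1
  .sk) (.nx 321 257 (.l1 (.ls 83 23 1473)) (.nr 328 311745 (.lg 0 false 7 97 101 16 0 95760)
  .out)))) (.nr 338 77937 (.nr 334 513 (.lg 0 true 5 79 79 16 0 6840) (.nx 337 165142 (.lg 2 false
  3 101 101 16 43699 95760) .out)) .out))) .out) .out) .ne) (.na 362 37 (.nx 361 1664512 (.nr 360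
  881745 (.nr 343 34 .s1 (.nx 345 152 (.nr 344 323 (.l1 (.ls 31 37 644)) (.l1 .sk)) (.nx 346 153
  (.l1 .sk) (.nx 347 257 (.l1 (.ls 83 41 1187)) (.nr 359 440873 (.nx 355 104033 (.nr 352 110219
  (.nx 349 26009 (.lg 0 false 2 97 101 23 0 95760) (.nr 351 32769 (.nr 350 2049 (.lg 0 false 1 79
  79 19 0 2736) (.lg 2 true 1 89 89 19 14623 2736)) .out)) (.nx 354 10323 (.lg 0 false 2 97 101 23
  0 95760) .out)) (.nr 358 257 (.lg 0 true 3 73 73 23 0 2736) .out)) .out))))) .out) .out) (.nx 383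
  1664512 (.nr 382 881745 (.nr 363 35 .s1 (.nx 366 153 (.nx 365 152 (.nr 364 341 (.lg 0 false 1 17
  17 16 0 2736) (.l1 .sk)) (.l1 .sk)) (.nx 373 20644 (.nx 367 257 (.l1 (.ls 73 23 1155)) (.nr 372
  440873 (.lg 0 false 5 97 97 16 0 13680) .out)) (.nr 381 46342 (.nr 378 341 (.lg 0 true 5 71 71 16
  0 6840) (.nx 380 104033 (.lg 2 true 2 83 83 16 26018 2736) .out)) .out)))) .out) .out))))) (.na
  514 57 (.na 440 51 (.na 406 47 (.na 405 46 (.nx 404 1664512 (.nr 403 881745 (.nr 385 38 .s1 (.nx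
  399 104033 (.nx 389 257 (.nx 387 152 (.nr 386 402 (.l1 (.ls 37 31 595)) (.l1 .sk)) (.nx 388 153
  (.l1 .sk) (.l1 (.ls 89 37 1096)))) (.nr 398 440873 (.nr 395 110219 (.nx 391 26009 (.lg 0 true 2
  97 97 17 0 1244880) (.nr 394 32769 (.nr 392 13589 (.lg 0 false 1 101 101 17 0 1244880) (.lg 2
  true 2 73 73 17 14623 35568)) .out)) (.nx 397 10323 (.lg 0 false 2 101 103 17 0 1244880) .out))
  .out)) (.nr 402 257 (.lg 0 true 3 73 73 19 0 17784) .out))) .out) .out) .ne) (.na 423 49 (.nx 422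
  1664512 (.nr 421 881745 (.nr 407 46 .s1 (.nx 414 20644 (.nx 408 257 (.l1 (.ls 79 29 1408)) (.nr
  413 623489 (.lg 0 false 5 97 97 16 0 13680) .out)) (.nr 420 46342 (.nr 417 257 (.lg 0 true 3 67
  67 16 0 1368) (.nx 419 104033 (.lg 2 true 2 83 83 16 30765 2736) .out)) .out))) .out) .out) (.nx
  439 1664512 (.nr 438 881745 (.nr 424 48 .s1 (.nx 425 257 (.l1 (.ls 79 31 1350)) (.nr 437 623489
  (.nx 430 20644 (.lg 0 false 5 97 97 17 0 95760) (.nr 436 46342 (.nr 433 257 (.lg 0 true 3 67 67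
  16 0 9576) (.nx 435 104033 (.lg 2 true 2 83 83 16 30765 19152) .out)) .out)) .out))) .out)
  .out))) (.na 478 53 (.na 459 52 (.nx 458 1664512 (.nr 457 881745 (.nr 441 50 .s1 (.nx 443 152
  (.nr 442 454 (.l1 (.ls 31 29 456)) (.l1 .sk)) (.nx 444 153 (.l1 .sk) (.nx 445 257 (.l1 (.ls 83 31
  839)) (.nr 456 623489 (.nx 448 13005 (.lg 0 false 3 97 101 19 0 13680) (.nr 455 110219 (.nr 453
  32769 (.nr 451 257 (.lg 0 true 3 71 71 19 0 1368) (.nx 452 104033 (.lg 2 true 1 89 89 16 30765
  13680) .out)) (.nx 454 26009 (.lg 0 true 1 97 97 16 0 13680) .out)) .out)) .out))))) .out) .out)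
  (.nx 477 1664512 (.nr 476 881745 (.nr 460 51 .s1 (.nx 462 152 (.nr 461 463 (.l1 (.ls 31 31 447))
  (.l1 .sk)) (.nx 463 153 (.l1 .sk) (.nx 464 257 (.l1 (.ls 83 37 823)) (.nr 475 623489 (.nx 469
  20644 (.lg 0 false 5 97 101 29 0 1244880) (.nr 474 46342 (.nr 472 257 (.lg 0 true 3 71 71 23 0
  35568) (.nx 473 104033 (.lg 2 true 1 97 97 19 30765 248976) .out)) .out)) .out))))) .out) .out))
  (.na 495 56 (.nx 494 1664512 (.nr 493 881745 (.nr 479 52 .s1 (.nx 480 257 (.l1 (.ls 73 29 1249))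
  (.nr 492 623489 (.nx 485 20644 (.lg 0 false 5 97 97 16 0 95760) (.nr 491 46342 (.nr 488 257 (.lg
  0 true 3 61 61 16 0 1368) (.nx 490 104033 (.lg 2 true 2 83 83 16 30765 19152) .out)) .out))
  .out))) .out) .out) (.nx 513 1664512 (.nr 512 881745 (.nr 496 55 .s1 (.nx 504 13005 (.nx 500 257
  (.nx 498 152 (.nr 497 498 (.l1 (.ls 31 31 415)) (.l1 .sk)) (.nx 499 153 (.l1 .sk) (.l1 (.ls 83 37
  764)))) (.nr 503 623489 (.lg 0 false 3 97 97 23 0 95760) .out)) (.nr 511 110219 (.nr 509 32769
  (.nr 507 257 (.lg 0 true 3 71 71 23 0 19152) (.nx 508 104033 (.lg 2 true 1 89 89 19 30765 19152)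
  .out)) (.nx 510 26009 (.lg 0 true 1 89 89 19 0 95760) .out)) .out))) .out) .out)))) (.na 564 67
  (.na 545 63 (.na 531 59 (.nx 530 1664512 (.nr 529 881745 (.nr 515 56 .s1 (.nx 516 257 (.l1 (.ls
  71 37 1161)) (.nr 528 623489 (.nx 521 20644 (.lg 0 false 5 83 83 17 0 6840) (.nr 527 46342 (.nr
  524 257 (.lg 0 true 3 61 61 17 0 1368) (.nx 526 104033 (.lg 2 true 2 79 79 16 30765 2736) .out))
  .out)) .out))) .out) .out) (.nx 544 1664512 (.nr 543 881745 (.nr 532 58 .s1 (.nx 533 257 (.l1
  (.ls 79 23 1122)) (.nr 542 623489 (.nx 536 20644 (.lg 0 false 3 101 101 16 0 95760) (.nr 541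
  46342 (.nr 538 257 (.lg 0 true 2 71 71 16 0 2736) (.nx 540 104033 (.lg 2 false 2 83 83 16 30765
  2736) .out)) .out)) .out))) .out) .out)) (.na 563 64 (.nx 562 1664512 (.nr 561 881745 (.nr 546 62
  .s1 (.nx 549 153 (.nx 548 152 (.nr 547 559 (.l1 (.ls 29 29 369)) (.l1 .sk)) (.l1 .sk)) (.nx 550
  257 (.l1 (.ls 73 31 679)) (.nr 560 623489 (.nx 555 20644 (.lg 0 false 5 89 97 23 0 95760) (.nr
  559 46342 (.nr 557 257 (.lg 0 true 2 67 67 19 0 19152) (.nx 558 104033 (.lg 2 true 1 83 83 17
  30765 9576) .out)) .out)) .out)))) .out) .out) .ne)) (.na 597 69 (.na 581 68 (.nx 580 1664512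
  (.nr 579 524289 (.nr 565 66 .s1 (.nx 568 153 (.nx 567 152 (.nr 566 594 (.l1 (.ls 17 19 347)) (.l1
  .sk)) (.l1 .sk)) (.nx 573 20644 (.lg 0 false 5 89 89 16 0 6840) (.nr 578 32769 (.nr 576 513 (.lg
  0 true 3 67 67 16 0 1368) (.nx 577 104033 (.lg 2 true 1 79 79 16 18423 1368) .out)) .out))))
  .out) .out) (.nx 596 1664512 (.nr 595 524289 (.nr 582 67 .s1 (.nx 585 153 (.nx 584 152 (.nr 583
  603 (.l1 (.ls 16 31 342)) (.l1 .sk)) (.l1 .sk)) (.nx 590 20644 (.lg 0 false 5 83 97 29 0 13680)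
  (.nr 594 32769 (.nr 592 513 (.lg 0 true 2 73 73 23 0 2736) (.nx 593 104033 (.lg 2 true 1 79 79 13
  18423 2736) .out)) .out)))) .out) .out)) (.na 612 72 (.nx 611 1664512 (.nr 610 524289 (.nr 598 68
  .s1 (.nx 601 153 (.nx 600 152 (.nr 599 629 (.l1 (.ls 17 19 337)) (.l1 .sk)) (.l1 .sk)) (.nx 603
  13005 (.lg 0 false 2 97 97 17 0 2736) (.nr 609 65537 (.nx 604 20644 (.lg 0 false 1 79 79 17 0
  1368) (.nr 608 32769 (.nr 606 513 (.lg 0 true 2 73 73 17 0 2736) (.nx 607 104033 (.lg 2 false 1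
  79 79 17 18423 1368) .out)) .out)) .out)))) .out) .out) (.nx 627 1664512 (.nr 626 524289 (.nr 613
  71 .s1 (.nx 616 153 (.nx 615 152 (.nr 614 638 (.l1 (.ls 29 31 323)) (.l1 .sk)) (.l1 .sk)) (.nx
  621 20644 (.lg 0 false 5 83 89 31 0 13680) (.nr 625 32769 (.nr 623 513 (.lg 0 true 2 71 71 29 0
  2736) (.nx 624 104033 (.lg 2 true 1 79 79 23 18423 2736) .out)) .out)))) .out) .out)))))) (.na
  837 128 (.na 731 104 (.na 675 84 (.na 645 76 (.nx 644 1664512 (.nr 643 524289 (.nr 629 72 .s1
  (.nx 637 20644 (.nx 631 152 (.nr 630 664 (.l1 (.ls 17 19 319)) (.l1 .sk)) (.nx 632 153 (.l1 .sk)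
  (.lg 0 false 5 89 89 16 0 6840))) (.nr 642 32769 (.nr 640 513 (.lg 0 true 3 61 61 16 0 1368) (.nx
  641 104033 (.lg 2 true 1 79 79 16 18423 19152) .out)) .out))) .out) .out) (.na 660 81 (.nx 659
  1664512 (.nr 658 524289 (.nr 646 75 .s1 (.nx 652 20644 (.nx 648 152 (.nr 647 708 (.l1 (.ls 29 31
  306)) (.l1 .sk)) (.nx 649 153 (.l1 .sk) (.lg 0 false 3 83 83 17 0 2736))) (.nr 657 32769 (.nr 655
  513 (.lg 0 true 3 67 67 17 0 2736) (.nx 656 104033 (.lg 2 true 1 73 73 13 18423 2736) .out))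
  .out))) .out) .out) (.nx 674 1664512 (.nr 673 524289 (.nr 661 81 .s1 (.nx 664 153 (.nx 663 152
  (.nr 662 734 (.l1 (.ls 23 23 288)) (.l1 .sk)) (.l1 .sk)) (.nx 667 20644 (.lg 0 false 3 89 89 17 0
  95760) (.nr 672 32769 (.nr 670 513 (.lg 0 true 3 67 67 17 0 1368) (.nx 671 104033 (.lg 2 true 1
  71 71 16 18423 1368) .out)) .out)))) .out) .out))) (.na 701 91 (.na 688 87 (.nx 687 1664512 (.nr
  686 524289 (.nr 676 84 .s1 (.nx 679 153 (.nx 678 152 (.nr 677 760 (.l1 (.ls 41 37 278)) (.l1
  .sk)) (.l1 .sk)) (.nx 682 20644 (.nr 680 65537 (.lg 0 false 1 89 89 31 0 95760) (.nx 681 13005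
  (.lg 0 false 1 101 101 31 0 95760) .out)) (.nr 685 32769 (.nr 683 513 (.lg 0 true 1 79 79 31 0
  19152) (.nx 684 104033 (.lg 1 true 1 89 97 31 18423 95760) .out)) .out)))) .out) .out) (.nx 700
  1664512 (.nr 699 524289 (.nr 689 87 .s1 (.nx 692 153 (.nx 691 152 (.nr 690 795 (.l1 (.ls 23 23
  268)) (.l1 .sk)) (.l1 .sk)) (.nx 694 20644 (.lg 0 false 2 97 97 19 0 19152) (.nr 698 32769 (.nr
  696 513 (.lg 0 true 2 73 73 19 0 2736) (.nx 697 104033 (.lg 2 true 1 79 79 17 18423 1368) .out))
  .out)))) .out) .out)) (.na 715 92 (.nx 714 1664512 (.nr 713 1048577 (.nr 702 91 .s1 (.nx 710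
  104033 (.nx 704 152 (.nr 703 804 (.l1 (.ls 37 23 256)) (.l1 .sk)) (.nx 705 153 (.l1 .sk) (.nx 708
  13005 (.lg 0 false 3 97 101 23 0 1244880) (.nr 709 65537 (.lg 0 false 1 101 101 19 0 1244880)
  .out)))) (.nr 712 513 (.lg 0 true 2 73 73 19 0 248976) .out))) .out) .out) (.nx 730 1664512 (.nr
  729 1048577 (.nr 716 92 .s1 (.nx 718 152 (.nr 717 909 (.l1 (.ls 17 29 254)) (.l1 .sk)) (.nx 719
  153 (.l1 .sk) (.nx 724 20644 (.lg 0 false 5 89 97 31 0 13680) (.nr 728 32769 (.nr 726 513 (.lg 0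
  true 2 71 71 19 0 2736) (.nx 727 104033 (.lg 2 true 1 79 79 19 18423 2736) .out)) .out))))) .out)
  .out)))) (.na 786 111 (.na 760 108 (.na 745 107 (.nx 744 1664512 (.nr 743 1048577 (.nr 732 104
  .s1 (.nx 740 104033 (.nx 738 13005 (.nx 734 152 (.nr 733 935 (.l1 (.ls 37 29 225)) (.l1 .sk))
  (.nx 735 153 (.l1 .sk) (.lg 0 false 3 97 97 29 0 1244880))) (.nr 739 65537 (.lg 0 false 1 101 101
  23 0 1244880) .out)) (.nr 742 513 (.lg 0 true 2 73 73 29 0 35568) .out))) .out) .out) (.nx 759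
  1664512 (.nr 758 1048577 (.nr 746 107 .s1 (.nx 749 153 (.nx 748 152 (.nr 747 943 (.l1 (.ls 16 17
  218)) (.l1 .sk)) (.l1 .sk)) (.nx 754 20644 (.lg 0 false 5 79 79 17 0 6840) (.nr 757 32769 (.nr
  755 513 (.lg 0 false 1 67 67 16 0 2736) (.nx 756 104033 (.lg 2 true 1 67 67 16 18423 1368) .out))
  .out)))) .out) .out)) (.na 773 109 (.nx 772 1664512 (.nr 771 1048577 (.nr 761 108 .s1 (.nx 764
  153 (.nx 763 152 (.nr 762 952 (.l1 (.ls 29 29 216)) (.l1 .sk)) (.l1 .sk)) (.nx 768 104033 (.nx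
  766 13005 (.lg 0 false 2 89 89 29 0 19152) (.nr 767 65537 (.lg 0 false 1 89 89 23 0 19152) .out))
  (.nr 770 513 (.lg 0 true 2 67 67 29 0 2736) .out)))) .out) .out) (.nx 785 1664512 (.nr 784
  1048577 (.nr 774 109 .s1 (.nx 780 20644 (.nx 776 152 (.nr 775 970 (.l1 (.ls 41 17 214)) (.l1
  .sk)) (.nx 777 153 (.l1 .sk) (.lg 0 false 3 83 83 16 0 1368))) (.nr 783 32769 (.nr 781 513 (.lg 0
  false 1 73 73 16 0 95760) (.nx 782 104033 (.lg 2 true 1 71 71 16 18423 1368) .out)) .out))) .out)
  .out))) (.na 812 117 (.na 799 116 (.nx 798 1664512 (.nr 797 1048577 (.nr 787 111 .s1 (.nx 790 153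
  (.nx 789 152 (.nr 788 1013 (.l1 (.ls 31 19 211)) (.l1 .sk)) (.l1 .sk)) (.nr 794 65537 (.nx 791
  104033 (.lg 0 false 1 101 101 17 0 95760) (.nr 793 513 (.lg 0 true 2 73 73 19 0 2736) .out)) (.nx
  796 13005 (.lg 0 false 2 97 97 19 0 2736) .out)))) .out) .out) (.nx 811 1664512 (.nr 810 1048577
  (.nr 800 116 .s1 (.nx 803 153 (.nx 802 152 (.nr 801 1022 (.l1 (.ls 23 23 202)) (.l1 .sk)) (.l1
  .sk)) (.nr 807 65537 (.nx 804 104033 (.lg 0 false 1 101 101 19 0 95760) (.nr 806 513 (.lg 0 true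
  2 73 73 23 0 2736) .out)) (.nx 809 13005 (.lg 0 false 2 101 101 23 0 95760) .out)))) .out) .out))
  (.na 825 119 (.nx 824 1664512 (.nr 823 1048577 (.nr 813 117 .s1 (.nx 816 153 (.nx 815 152 (.nr
  814 1040 (.l1 (.ls 29 23 200)) (.l1 .sk)) (.l1 .sk)) (.nx 820 104033 (.nx 818 13005 (.lg 0 false
  2 89 89 23 0 35568) (.nr 819 65537 (.lg 0 false 1 89 89 19 0 35568) .out)) (.nr 822 513 (.lg 0
  true 2 67 67 23 0 35568) .out)))) .out) .out) (.nx 836 1664512 (.nr 835 1048577 (.nr 826 119 .s1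
  (.nx 828 152 (.nr 827 1118 (.l1 (.ls 16 23 197)) (.l1 .sk)) (.nx 829 153 (.l1 .sk) (.nr 832 65537
  (.nx 830 104033 (.lg 0 false 1 97 97 16 0 95760) (.nr 831 513 (.lg 0 true 1 71 71 16 0 9576)
  .out)) (.nx 834 13005 (.lg 0 false 2 97 97 23 0 95760) .out))))) .out) .out))))) (.na 893 148
  (.na 860 137 (.na 839 133 (.na 838 131 .ne (.lg 0 false 1 0 0 16 0 24)) (.na 849 136 (.nx 848
  832257 (.nr 847 1048577 (.nr 840 133 .s1 (.nx 841 257 (.l1 (.ls 71 29 499)) (.nr 846 741457 (.nx
  842 13005 (.lg 0 true 1 83 83 17 0 9576) (.nr 845 16385 (.nr 843 1025 (.lg 0 false 1 67 67 17 0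
  9576) (.nx 844 104033 (.lg 2 true 1 61 61 17 14690 19152) .out)) .out)) .out))) .out) .out) (.nx
  859 832257 (.nr 858 1048577 (.nr 850 136 .s1 (.nx 854 13005 (.nx 851 257 (.l1 (.ls 83 31 488))
  (.nr 853 741457 (.lg 0 false 2 97 97 29 0 95760) .out)) (.nr 857 16385 (.nr 855 1025 (.lg 0 true
  1 73 73 29 0 2736) (.nx 856 104033 (.lg 2 false 1 71 71 29 14690 2736) .out)) .out))) .out)
  .out))) (.na 871 141 (.na 870 139 (.nx 869 832257 (.nr 868 1048577 (.nr 861 137 .s1 (.nx 864
  13005 (.nx 862 257 (.l1 (.ls 67 19 485)) (.nr 863 741457 (.lg 0 true 1 83 83 16 0 1368) .out))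
  (.nr 867 16385 (.nr 865 1025 (.lg 0 false 1 67 67 16 0 1368) (.nx 866 104033 (.lg 2 true 1 59 59
  16 14690 1368) .out)) .out))) .out) .out) (.lg 0 false 1 0 0 16 0 24)) (.na 882 147 (.nx 881
  832257 (.nr 880 1048577 (.nr 872 141 .s1 (.nx 876 13005 (.nx 873 257 (.l1 (.ls 79 23 471)) (.nr
  875 741457 (.lg 0 false 2 89 89 19 0 2736) .out)) (.nr 879 16385 (.nr 877 1025 (.lg 0 true 1 71
  71 19 0 1368) (.nx 878 104033 (.lg 2 false 1 67 67 19 14690 1368) .out)) .out))) .out) .out) (.nx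
  892 832257 (.nr 891 1048577 (.nr 883 147 .s1 (.nx 884 257 (.l1 (.ls 71 29 452)) (.nr 890 741457
  (.nx 886 13005 (.lg 0 false 2 83 83 23 0 19152) (.nr 889 16385 (.nr 887 1025 (.lg 0 true 1 67 67
  23 0 9576) (.nx 888 104033 (.lg 2 true 1 61 61 23 14690 9576) .out)) .out)) .out))) .out)
  .out)))) (.na 916 153 (.na 905 151 (.na 904 149 (.nx 903 832257 (.nr 902 1048577 (.nr 894 148 .s1
  (.nx 895 257 (.l1 (.ls 79 29 449)) (.nr 901 741457 (.nx 897 13005 (.lg 0 false 2 89 89 23 0 2736)
  (.nr 900 16385 (.nr 898 1025 (.lg 0 true 1 71 71 23 0 2736) (.nx 899 104033 (.lg 2 false 1 71 71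
  23 14690 2736) .out)) .out)) .out))) .out) .out) (.lg 0 false 1 0 0 16 0 24)) (.na 906 152 (.lg 0
  false 1 0 0 16 0 24) (.nx 915 832257 (.nr 914 1048577 (.nr 907 152 .s1 (.nx 910 13005 (.nx 908
  257 (.l1 (.ls 67 31 437)) (.nr 909 741457 (.lg 0 true 1 79 79 17 0 2736) .out)) (.nr 913 16385
  (.nr 911 1025 (.lg 0 false 1 61 61 17 0 2736) (.nx 912 104033 (.lg 2 true 1 59 59 17 14690 2736)
  .out)) .out))) .out) .out))) (.na 936 157 (.na 926 156 (.nx 925 832257 (.nr 924 1048577 (.nr 917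
  153 .s1 (.nx 920 13005 (.nx 918 257 (.l1 (.ls 73 29 434)) (.nr 919 741457 (.lg 0 false 1 83 83 23
  0 1368) .out)) (.nr 923 16385 (.nr 921 1025 (.lg 0 true 1 67 67 23 0 1368) (.nx 922 104033 (.lg 2
  false 1 67 67 23 14690 1368) .out)) .out))) .out) .out) (.nx 935 832257 (.nr 934 1048577 (.nr 927
  156 .s1 (.nx 932 104033 (.nx 930 13005 (.nx 928 257 (.l1 (.ls 83 37 426)) (.nr 929 741457 (.lg 0
  false 1 97 97 37 0 177840) .out)) (.nr 931 16385 (.lg 0 true 1 83 83 37 0 177840) .out)) (.nr 933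
  1025 (.lg 0 true 1 73 73 37 0 35568) .out))) .out) .out)) (.na 937 159 (.lg 0 false 1 0 0 16 0
  24) (.nx 946 832257 (.nr 945 1048577 (.nr 938 159 .s1 (.nx 939 257 (.l1 (.ls 79 23 418)) (.nr 944
  741457 (.nx 940 13005 (.lg 0 false 1 89 89 19 0 1368) (.nr 943 16385 (.nr 941 1025 (.lg 0 true 1
  71 71 19 0 1368) (.nx 942 104033 (.lg 2 false 1 67 67 19 14690 1368) .out)) .out)) .out))) .out)
  .out)))))))

def T106_1 : Ph :=
  (.na 3748 2048 (.na 44 256 (.na 33 251 (.na 11 247 (.nx 10 1048577 (.nr 9 1048577 (.nr 1 244 .s1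
  (.nx 3 192 (.nr 2 2424 (.l1 (.ls 23 23 154)) (.l1 .sk)) (.nx 4 193 (.l1 .sk) (.nr 7 65537 (.nx 5
  131073 (.lg 0 true 1 79 79 23 0 48) (.nr 6 1025 (.lg 0 true 1 59 59 23 0 48) .out)) (.nx 8 16385
  (.lg 0 false 1 79 79 23 0 48) .out))))) .out) .out) (.na 22 248 (.nx 21 1048577 (.nr 20 1048577
  (.nr 12 247 .s1 (.nx 18 131073 (.nx 14 192 (.nr 13 2434 (.l1 (.ls 17 17 152)) (.l1 .sk)) (.nx 15
  193 (.l1 .sk) (.nr 16 65537 (.lg 0 false 1 83 83 17 0 13104) (.nx 17 16385 (.lg 0 false 1 83 83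
  17 0 624) .out)))) (.nr 19 1025 (.lg 0 true 1 61 61 17 0 624) .out))) .out) .out) (.nx 32 1048577
  (.nr 31 1048577 (.nr 23 248 .s1 (.nx 25 192 (.nr 24 2463 (.l1 (.ls 19 23 151)) (.l1 .sk)) (.nx 26
  193 (.l1 .sk) (.nr 29 65537 (.nx 27 131073 (.lg 0 true 1 79 79 23 0 48) (.nr 28 1025 (.lg 0 true
  1 61 61 23 0 48) .out)) (.nx 30 16385 (.lg 0 false 1 79 79 23 0 48) .out))))) .out) .out))) (.na
  34 252 (.lg 0 false 1 0 0 16 0 24) (.na 35 254 (.lg 0 false 1 0 0 16 0 24) (.nx 43 1048577 (.nr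
  42 1048577 (.nr 36 254 .s1 (.nx 40 32769 (.nx 38 192 (.nr 37 2512 (.l1 (.ls 19 23 148)) (.l1
  .sk)) (.nx 39 193 (.l1 .sk) (.lg 0 true 1 83 83 23 0 5040))) (.nr 41 16385 (.lg 0 false 1 73 73
  23 0 48) .out))) .out) .out)))) (.na 1002 512 (.na 54 257 (.nx 53 1048577 (.nr 52 1482912 (.nr 45
  256 .s1 (.nx 50 131073 (.nx 46 257 (.l1 (.ls 79 29 261)) (.nr 49 1048577 (.nr 47 65537 (.lg 0
  true 1 83 89 31 0 5040) (.nx 48 20644 (.lg 0 false 1 97 101 31 0 55440) .out)) .out)) (.nr 51
  2049 (.lg 0 true 1 73 79 31 0 5040) .out))) .out) .out) (.na 550 363 (.nx 549 1048577 (.nr 548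
  1482912 (.nr 55 257 .s1 (.nx 227 257 (.nx 162 192 (.nr 161 3562 (.la (.ls 31 19 146)) (.l1 .sk))
  (.nx 163 193 (.l1 .sk) (.lx (.lp 83 17 91)))) (.nr 547 1048577 (.nx 333 20644 (.la (.lg 0 false 1
  73 73 19 0)) (.nr 546 32769 (.nr 439 2049 (.la (.lg 0 true 1 59 59 19 0)) (.nx 545 131073 (.la
  (.lg 2 false 1 59 59 19 29430)) .out)) .out)) .out))) .out) .out) (.nx 1001 1048577 (.nr 1000
  1482912 (.nr 551 363 .s1 (.nx 850 20644 (.nx 700 257 (.la (.ls 73 23 184)) (.nr 849 1048577 (.la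
  (.lg 0 false 1 73 73 23 0)) .out)) (.nr 999 32769 (.la (.lg 2 true 1 71 71 23 277310)) .out)))
  .out) .out))) (.na 2292 1024 (.na 1690 725 (.nx 1689 1048577 (.nr 1688 1482912 (.nr 1003 512 .s1
  (.nx 1195 192 (.nr 1194 7113 (.lx (.lp 41 19 182)) (.l1 .sk)) (.nx 1196 193 (.l1 .sk) (.nx 1474
  20644 (.nx 1260 257 (.lx (.lp 41 19 182)) (.nr 1473 1048577 (.la (.lg 0 false 1 67 67 29 0))
  .out)) (.nr 1687 32769 (.la (.lg 2 true 1 61 61 29 196609)) .out))))) .out) .out) (.nx 2291 13005
  (.nr 2290 1048577 (.nr 1691 725 .s1 (.nx 1990 2049 (.la (.ls 67 37 5793)) (.nr 2289 65537 (.la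
  (.lg 0 false 1 47 47 29 0)) .out))) .out) .out)) (.na 3146 1449 (.nx 3145 13005 (.nr 3144 1048577
  (.nr 2293 1024 .s1 (.nx 2718 3252 (.la (.ls 61 41 10330)) (.nr 3143 32769 (.la (.lg 0 false 1 37
  37 31 0)) .out))) .out) .out) (.nx 3747 8193 (.nr 3746 1048577 (.nr 3147 1449 .s1 (.la (.ls 61 47
  46328))) .out) .out))))) (.na 11773 16384 (.na 7888 5793 (.na 4600 2897 (.nx 4599 8193 (.nr 4598
  1048577 (.nr 3749 2048 .s1 (.la (.ls 59 47 32779))) .out) .out) (.na 5995 4096 (.nx 5994 3252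
  (.nr 5993 524289 (.nr 4601 2897 .s1 (.nx 4794 193 (.nx 4793 192 (.nr 4792 40185 (.lx (.lp 41 31
  1025)) (.l1 .sk)) (.l1 .sk)) (.la (.ls 59 37 3640)))) .out) .out) (.nx 7887 3252 (.nr 7886 524289
  (.nr 5996 4096 .s1 (.nx 6189 193 (.nx 6188 192 (.nr 6187 56834 (.lx (.lp 53 31 1449)) (.l1 .sk))
  (.l1 .sk)) (.la (.ls 53 37 2575)))) .out) .out))) (.na 9184 8192 (.nx 9183 1292 (.nr 9182 262145
  (.nr 7889 5793 .s1 (.nx 8082 193 (.nx 8081 192 (.nr 8080 80370 (.lx (.lp 43 37 2049)) (.l1 .sk))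
  (.l1 .sk)) (.nx 8703 814 (.lx (.lp 53 37 2049)) (.nr 9181 65537 (.lx (.lp 41 37 2049)) .out))))
  .out) .out) (.na 10479 11586 (.nx 10478 1292 (.nr 10477 262145 (.nr 9185 8192 .s1 (.nx 9998 814
  (.lx (.lp 47 41 2897)) (.nr 10476 131073 (.lx (.lp 43 41 2897)) .out))) .out) .out) (.nx 11772
  1292 (.nr 11771 131073 (.nr 10480 11586 .s1 (.lx (.lp 43 41 4097))) .out) .out)))) (.na 15658
  131072 (.na 13068 32768 (.nx 13067 1292 (.nr 13066 262145 (.nr 11774 16384 .s1 (.nx 12030 257
  (.lx (.lp 47 41 8193)) (.nr 13065 131073 (.lx (.lp 41 43 8193)) .out))) .out) .out) (.na 14363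
  65536 (.nx 14362 1292 (.nr 14361 262145 (.nr 13069 32768 .s1 (.nx 13325 257 (.lx (.lp 16 43
  16385)) (.nx 13714 645 (.nr 13713 131073 (.lx (.lp 37 47 16385)) .out) (.lx (.lp 41 47 16385)))))
  .out) .out) (.nx 15657 1292 (.nr 15656 524289 (.nr 14364 65536 .s1 (.nx 14620 257 (.lx (.lp 16 0
  32769)) (.nr 15655 262145 (.lx (.lp 41 53 32769)) .out))) .out) .out))) (.na 16688 524288 (.na
  16173 262144 (.nx 16172 513 (.nr 16171 524289 (.nr 15659 131072 .s1 (.lx (.lp 37 53 65537)))
  .out) .out) (.nx 16687 513 (.nr 16686 1048577 (.nr 16174 262144 .s1 (.lx (.lp 16 0 131073)))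
  .out) .out)) (.na 16690 1048577 (.nx 16689 257 (.l1 .sk) .out) .out)))))

def T106_2 : Ph :=
  (.na 565 159 (.na 342 81 (.na 199 41 (.na 108 27 (.na 60 23 (.na 1 17 .ne (.na 31 18 (.nx 30
  1321124 (.nr 29 1048577 (.nr 2 15 .s1 (.nx 5 82 (.nx 4 81 (.nr 3 115 (.lg 0 false 1 23 23 11 0
  9360) (.l1 .sk)) (.l1 .sk)) (.nx 8 324 (.nx 6 205 (.l1 (.ls 79 31 2079)) (.nr 7 623489 (.l1 (.ls
  79 37 3706)) .out)) (.nr 28 220437 (.nx 15 10323 (.lg 0 false 7 83 89 16 0 2520) (.nr 27 55110
  (.nr 22 498 (.lg 0 true 7 73 73 16 0 504) (.nx 26 165142 (.lg 2 false 4 83 89 16 17540 720)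
  .out)) .out)) .out)))) .out) .out) (.nx 59 1321124 (.nr 58 1048577 (.nr 32 16 .s1 (.nx 38 324
  (.nx 36 205 (.nx 34 81 (.nr 33 147 (.l1 (.ls 23 31 367)) (.l1 .sk)) (.nx 35 82 (.l1 .sk) (.l1
  (.ls 83 43 1964)))) (.nr 37 623489 (.l1 (.ls 79 43 3500)) .out)) (.nr 57 220437 (.nx 47 16385
  (.nr 45 131073 (.lg 0 false 7 83 89 23 0 5040) (.nx 46 814 (.lg 0 true 1 73 73 13 0 720) .out))
  (.nr 56 46342 (.nx 50 165142 (.nr 48 1360 (.lg 0 false 1 83 83 13 0 720) (.lg 2 false 2 83 83 13
  9295 720)) (.nr 55 183 (.lg 0 true 5 71 71 19 0 720) .out)) .out)) .out))) .out) .out))) (.na 61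
  25 .ne (.na 83 26 (.nx 82 1321124 (.nr 81 1048577 (.nr 62 24 .s1 (.nx 66 205 (.nx 64 81 (.nr 63
  166 (.l1 (.ls 17 19 265)) (.l1 .sk)) (.nx 65 82 (.l1 .sk) (.l1 (.ls 73 31 1415)))) (.nr 80 185365
  (.nx 70 16385 (.lg 0 false 4 83 83 16 0 720) (.nr 79 38969 (.nr 77 513 (.lg 0 true 7 71 71 16 0
  2520) (.nx 78 82572 (.lg 2 true 1 79 79 16 7819 360) .out)) .out)) .out))) .out) .out) (.nx 107
  1321124 (.nr 106 1048577 (.nr 84 25 .s1 (.nx 87 82 (.nx 86 81 (.nr 85 173 (.l1 (.ls 23 29 255))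
  (.l1 .sk)) (.l1 .sk)) (.nx 88 205 (.l1 (.ls 83 41 1360)) (.nr 105 185365 (.nx 95 16385 (.lg 0
  false 7 83 89 19 0 65520) (.nr 104 38969 (.nr 102 513 (.lg 0 true 7 73 73 19 0 13104) (.nx 103
  82572 (.lg 2 true 1 83 83 11 7819 9360) .out)) .out)) .out)))) .out) .out)))) (.na 147 34 (.na
  127 30 (.nx 126 1321124 (.nr 125 1048577 (.nr 109 26 .s1 (.nx 113 205 (.nx 111 81 (.nr 110 192
  (.l1 (.ls 19 19 245)) (.l1 .sk)) (.nx 112 82 (.l1 .sk) (.l1 (.ls 73 31 1310)))) (.nr 124 185365
  (.nx 117 16385 (.lg 0 false 4 83 89 16 0 720) (.nr 123 38969 (.nr 121 513 (.lg 0 true 4 71 71 16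
  0 144) (.nx 122 82572 (.lg 1 false 1 83 83 16 7819 360) .out)) .out)) .out))) .out) .out) (.na
  146 32 (.nx 145 1321124 (.nr 144 1048577 (.nr 128 29 .s1 (.nx 133 16385 (.nx 129 205 (.l1 (.ls 79
  43 1403)) (.nr 132 185365 (.lg 0 false 3 83 83 23 0 720) .out)) (.nr 143 38969 (.nr 140 513 (.lg
  0 true 7 71 71 29 0 5040) (.nx 142 82572 (.lg 1 true 2 79 79 19 7819 720) .out)) .out))) .out)
  .out) .ne)) (.na 165 37 (.nx 164 1321124 (.nr 163 370729 (.nr 148 33 .s1 (.nx 156 13005 (.nx 150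
  81 (.nr 149 237 (.l1 (.ls 16 29 195)) (.l1 .sk)) (.nx 151 82 (.l1 .sk) (.lg 0 false 5 89 89 13 0
  720))) (.nr 162 23172 (.nr 160 237 (.lg 0 true 4 67 67 13 0 144) (.nx 161 82572 (.lg 2 true 1 83
  83 13 14111 5040) .out)) .out))) .out) .out) (.na 182 39 (.nx 181 1321124 (.nr 180 370729 (.nr
  166 36 .s1 (.nx 169 82 (.nx 168 81 (.nr 167 249 (.l1 (.ls 17 17 180)) (.l1 .sk)) (.l1 .sk)) (.nx
  173 13005 (.lg 0 false 4 89 89 16 0 720) (.nr 179 23172 (.nr 177 249 (.lg 0 true 4 67 67 16 0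
  144) (.nx 178 82572 (.lg 2 false 1 73 73 16 13431 72) .out)) .out)))) .out) .out) (.nx 198
  1321124 (.nr 197 370729 (.nr 183 38 .s1 (.nx 186 82 (.nx 185 81 (.nr 184 262 (.l1 (.ls 17 23
  171)) (.l1 .sk)) (.l1 .sk)) (.nx 190 13005 (.lg 0 false 4 83 83 17 0 9360) (.nr 196 23172 (.nr
  194 262 (.lg 0 true 4 61 61 17 0 1872) (.nx 195 82572 (.lg 2 true 1 73 73 16 12764 4680) .out))
  .out)))) .out) .out))))) (.na 274 58 (.na 231 50 (.na 215 45 (.nx 214 1321124 (.nr 213 370729
  (.nr 200 41 .s1 (.nx 203 82 (.nx 202 81 (.nr 201 288 (.l1 (.ls 17 16 163)) (.l1 .sk)) (.l1 .sk))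
  (.nx 207 20644 (.lg 0 true 4 83 83 16 0 144) (.nr 212 13779 (.nx 208 82572 (.lg 0 false 1 83 83
  16 0 360) (.nr 211 217 (.lg 0 true 3 67 67 16 0 72) .out)) .out)))) .out) .out) (.na 230 46 (.nx
  229 1321124 (.nr 228 370729 (.nr 216 45 .s1 (.nx 219 82 (.nx 218 81 (.nr 217 294 (.l1 (.ls 23 19
  148)) (.l1 .sk)) (.l1 .sk)) (.nx 221 6503 (.lg 0 false 2 83 83 19 0 720) (.nr 227 77937 (.nx 222
  20644 (.lg 1 false 1 79 79 17 39360 360) (.nr 226 13779 (.nx 223 82572 (.lg 0 true 1 79 79 17 0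
  360) (.nr 225 217 (.lg 0 true 2 71 71 19 0 720) .out)) .out)) .out)))) .out) .out) .ne)) (.na 245
  51 (.nx 244 1321124 (.nr 243 311745 (.nr 232 50 .s1 (.nx 237 10323 (.nx 234 81 (.nr 233 326 (.l1
  (.ls 19 23 134)) (.l1 .sk)) (.nx 235 82 (.l1 .sk) (.lg 0 true 2 83 83 19 0 720))) (.nr 242 23172
  (.nr 240 326 (.lg 0 true 3 61 61 19 0 720) (.nx 241 82572 (.lg 2 true 1 71 71 13 10259 720)
  .out)) .out))) .out) .out) (.na 261 54 (.nx 260 1321124 (.nr 259 311745 (.nr 246 51 .s1 (.nx 253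
  10323 (.nx 248 81 (.nr 247 345 (.l1 (.ls 16 23 131)) (.l1 .sk)) (.nx 249 82 (.l1 .sk) (.lg 0
  false 4 79 79 16 0 144))) (.nr 258 23172 (.nr 256 345 (.lg 0 true 3 61 61 16 0 72) (.nx 257 82572
  (.lg 2 true 1 71 71 16 9694 360) .out)) .out))) .out) .out) (.nx 273 1321124 (.nr 272 311745 (.nr
  262 54 .s1 (.nx 267 10323 (.nx 264 81 (.nr 263 371 (.l1 (.ls 19 29 124)) (.l1 .sk)) (.nx 265 82
  (.l1 .sk) (.lg 0 false 2 83 83 23 0 720))) (.nr 271 23172 (.nr 269 217 (.lg 0 true 2 61 61 23 0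
  144) (.nx 270 82572 (.lg 2 true 1 73 73 19 15411 720) .out)) .out))) .out) .out)))) (.na 302 73
  (.na 288 64 (.nx 287 1321124 (.nr 286 311745 (.nr 275 58 .s1 (.nx 280 10323 (.nx 277 81 (.nr 276
  409 (.l1 (.ls 17 19 116)) (.l1 .sk)) (.nx 278 82 (.l1 .sk) (.lg 0 true 2 83 83 13 0 720))) (.nr
  285 23172 (.nr 283 409 (.lg 0 true 3 67 67 19 0 144) (.nx 284 82572 (.lg 2 true 1 71 71 13 8177
  144) .out)) .out))) .out) .out) (.na 289 65 .ne (.nx 301 1321124 (.nr 300 524289 (.nr 290 65 .s1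
  (.nx 292 81 (.nr 291 466 (.l1 (.ls 23 19 103)) (.l1 .sk)) (.nx 293 82 (.l1 .sk) (.nx 295 8193
  (.lg 0 false 2 89 89 19 0 9360) (.nr 299 8193 (.nr 297 513 (.lg 0 true 2 71 71 19 0 9360) (.nx
  298 82572 (.lg 2 false 1 61 61 17 6519 4680) .out)) .out))))) .out) .out))) (.na 318 74 (.nx 317
  1321124 (.nr 316 524289 (.nr 303 73 .s1 (.nx 306 82 (.nx 305 81 (.nr 304 473 (.l1 (.ls 16 16 92))
  (.l1 .sk)) (.l1 .sk)) (.nx 310 8193 (.lg 0 false 4 71 79 16 0 144) (.nr 315 8193 (.nr 313 513
  (.lg 0 true 3 61 61 16 0 72) (.nx 314 82572 (.lg 2 true 1 53 53 16 6519 72) .out)) .out)))) .out)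
  .out) (.na 330 78 (.nx 329 1321124 (.nr 328 524289 (.nr 319 74 .s1 (.nx 324 8193 (.nx 321 81 (.nr
  320 498 (.l1 (.ls 17 19 91)) (.l1 .sk)) (.nx 322 82 (.l1 .sk) (.lg 0 false 2 79 79 19 0 144)))
  (.nr 327 8193 (.nr 325 513 (.lg 0 false 1 73 73 13 0 720) (.nx 326 82572 (.lg 2 false 1 59 59 13
  6519 144) .out)) .out))) .out) .out) (.nx 341 1321124 (.nr 340 524289 (.nr 331 78 .s1 (.nx 333 81
  (.nr 332 518 (.l1 (.ls 19 29 87)) (.l1 .sk)) (.nx 334 82 (.l1 .sk) (.nx 336 8193 (.lg 0 false 2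
  79 79 29 0 1872) (.nr 339 8193 (.nr 337 513 (.lg 0 false 1 73 73 23 0 9360) (.nx 338 82572 (.lg 2
  true 1 59 59 23 6519 1872) .out)) .out))))) .out) .out)))))) (.na 466 113 (.na 399 97 (.na 376 89
  (.na 353 82 (.nx 352 1321124 (.nr 351 524289 (.nr 343 81 .s1 (.nx 346 82 (.nx 345 81 (.nr 344 524
  (.l1 (.ls 29 17 83)) (.l1 .sk)) (.l1 .sk)) (.nx 347 8193 (.lg 0 false 1 83 89 19 0 360) (.nr 350
  8193 (.nx 348 82572 (.lg 0 true 1 73 79 19 0 360) (.nr 349 513 (.lg 0 true 1 71 71 19 0 72)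
  .out)) .out)))) .out) .out) (.na 365 87 (.nx 364 1321124 (.nr 363 524289 (.nr 354 82 .s1 (.nx 357
  82 (.nx 356 81 (.nr 355 556 (.l1 (.ls 17 19 83)) (.l1 .sk)) (.l1 .sk)) (.nx 358 8193 (.lg 0 true
  1 83 83 13 0 144) (.nr 362 8193 (.nr 360 556 (.lg 0 true 2 61 61 19 0 144) (.nx 361 82572 (.lg 2
  true 1 59 59 13 6015 144) .out)) .out)))) .out) .out) (.nx 375 1321124 (.nr 374 524289 (.nr 366
  87 .s1 (.nx 368 81 (.nr 367 569 (.l1 (.ls 16 17 78)) (.l1 .sk)) (.nx 369 82 (.l1 .sk) (.nx 370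
  8193 (.lg 0 true 1 83 83 16 0 360) (.nr 373 8193 (.nr 371 569 (.lg 0 false 1 71 71 16 0 360) (.nx
  372 82572 (.lg 2 true 1 53 53 16 5878 360) .out)) .out))))) .out) .out))) (.na 387 90 (.nx 386
  1321124 (.nr 385 524289 (.nr 377 89 .s1 (.nx 380 82 (.nx 379 81 (.nr 378 575 (.l1 (.ls 16 16 76))
  (.l1 .sk)) (.l1 .sk)) (.nx 381 8193 (.lg 0 true 1 79 79 16 0 360) (.nr 384 8193 (.nr 382 513 (.lg
  2 false 1 61 61 16 601186 360) (.nx 383 82572 (.lg 2 false 1 47 47 16 6519 72) .out)) .out))))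
  .out) .out) (.na 398 91 (.nx 397 1321124 (.nr 396 524289 (.nr 388 90 .s1 (.nx 390 81 (.nr 389 581
  (.l1 (.ls 29 29 75)) (.l1 .sk)) (.nx 391 82 (.l1 .sk) (.nx 394 82572 (.nx 392 8193 (.lg 0 false 1
  89 89 29 0 720) (.nr 393 8193 (.lg 0 true 1 79 79 29 0 720) .out)) (.nr 395 513 (.lg 0 true 1 71
  71 29 0 720) .out))))) .out) .out) .ne))) (.na 433 106 (.na 411 101 (.nx 410 1321124 (.nr 409
  524289 (.nr 400 97 .s1 (.nx 402 81 (.nr 401 645 (.l1 (.ls 16 16 70)) (.l1 .sk)) (.nx 403 82 (.l1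
  .sk) (.nx 404 8193 (.lg 0 true 1 79 79 16 0 360) (.nr 408 8193 (.nr 406 513 (.lg 0 true 2 59 59
  16 0 144) (.nx 407 82572 (.lg 2 true 1 47 47 16 6519 72) .out)) .out))))) .out) .out) (.na 422
  102 (.nx 421 1321124 (.nr 420 524289 (.nr 412 101 .s1 (.nx 416 8193 (.nx 414 81 (.nr 413 652 (.l1
  (.ls 16 16 67)) (.l1 .sk)) (.nx 415 82 (.l1 .sk) (.lg 0 true 1 73 73 16 0 360))) (.nr 419 8193
  (.nr 417 513 (.lg 2 false 1 59 59 16 529758 360) (.nx 418 82572 (.lg 2 true 1 43 43 16 6519 72)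
  .out)) .out))) .out) .out) (.nx 432 1321124 (.nr 431 524289 (.nr 423 102 .s1 (.nx 427 8193 (.nx
  425 81 (.nr 424 677 (.l1 (.ls 16 29 67)) (.l1 .sk)) (.nx 426 82 (.l1 .sk) (.lg 0 true 1 83 83 29
  0 720))) (.nr 430 8193 (.nr 428 513 (.lg 2 false 1 67 67 29 524564 720) (.nx 429 82572 (.lg 2
  true 1 53 53 29 6519 144) .out)) .out))) .out) .out))) (.na 444 109 (.nx 443 1321124 (.nr 442
  524289 (.nr 434 106 .s1 (.nx 436 81 (.nr 435 696 (.l1 (.ls 17 19 64)) (.l1 .sk)) (.nx 437 82 (.l1
  .sk) (.nx 438 8193 (.lg 0 true 1 83 83 19 0 144) (.nr 441 8193 (.nr 439 513 (.lg 2 false 1 67 67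
  19 504770 144) (.nx 440 82572 (.lg 2 true 1 59 59 19 6519 144) .out)) .out))))) .out) .out) (.na
  455 111 (.nx 454 1321124 (.nr 453 524289 (.nr 445 109 .s1 (.nx 449 8193 (.nx 447 81 (.nr 446 709
  (.l1 (.ls 16 16 63)) (.l1 .sk)) (.nx 448 82 (.l1 .sk) (.lg 0 true 1 73 73 16 0 360))) (.nr 452
  8193 (.nr 450 513 (.lg 2 false 1 53 53 16 490877 72) (.nx 451 82572 (.lg 2 true 1 43 43 16 6519
  360) .out)) .out))) .out) .out) (.nx 465 1321124 (.nr 464 524289 (.nr 456 111 .s1 (.nx 459 82
  (.nx 458 81 (.nr 457 722 (.l1 (.ls 16 17 62)) (.l1 .sk)) (.l1 .sk)) (.nx 460 8193 (.lg 0 true 1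
  79 79 17 0 360) (.nr 463 8193 (.nr 461 513 (.lg 2 false 1 61 61 17 482032 2520) (.nx 462 82572
  (.lg 2 true 1 47 47 17 6519 72) .out)) .out)))) .out) .out))))) (.na 520 137 (.na 499 128 (.na
  477 122 (.nx 476 1321124 (.nr 475 524289 (.nr 467 113 .s1 (.nx 471 8193 (.nx 469 81 (.nr 468 779
  (.l1 (.ls 16 16 61)) (.l1 .sk)) (.nx 470 82 (.l1 .sk) (.lg 0 true 1 73 73 16 0 72))) (.nr 474
  8193 (.nr 472 513 (.lg 2 false 1 59 59 16 473501 72) (.nx 473 82572 (.lg 2 false 1 47 47 16 6519
  72) .out)) .out))) .out) .out) (.na 488 123 (.nx 487 1321124 (.nr 486 524289 (.nr 478 122 .s1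
  (.nx 481 82 (.nx 480 81 (.nr 479 786 (.l1 (.ls 16 19 56)) (.l1 .sk)) (.l1 .sk)) (.nx 482 8193
  (.lg 0 true 1 79 79 19 0 144) (.nr 485 8193 (.nr 483 513 (.lg 2 false 1 61 61 19 438570 720) (.nx
  484 82572 (.lg 2 false 1 47 47 19 6519 720) .out)) .out)))) .out) .out) (.nx 498 1321124 (.nr 497
  524289 (.nr 489 123 .s1 (.nx 492 82 (.nx 491 81 (.nr 490 818 (.l1 (.ls 16 17 56)) (.l1 .sk)) (.l1
  .sk)) (.nx 493 8193 (.lg 0 true 1 73 73 17 0 72) (.nr 496 8193 (.nr 494 513 (.lg 2 false 1 59 59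
  17 435005 360) (.nx 495 82572 (.lg 2 false 1 47 47 17 6519 360) .out)) .out)))) .out) .out)))
  (.na 500 130 .ne (.na 510 135 (.nx 509 660563 (.nr 508 1048577 (.nr 501 130 .s1 (.nx 502 205 (.l1
  (.ls 73 37 326)) (.nr 507 524289 (.nx 503 6503 (.lg 0 false 1 79 79 29 0 9360) (.nr 506 8193 (.nr
  504 1025 (.lg 0 true 1 67 67 29 0 9360) (.nx 505 82572 (.lg 2 false 1 53 53 29 4175 9360) .out))
  .out)) .out))) .out) .out) (.nx 519 660563 (.nr 518 1048577 (.nr 511 135 .s1 (.nx 512 205 (.l1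
  (.ls 73 29 314)) (.nr 517 524289 (.nx 513 6503 (.lg 0 false 1 79 79 23 0 360) (.nr 516 8193 (.nr
  514 1025 (.lg 0 true 1 67 67 23 0 360) (.nx 515 82572 (.lg 2 true 1 53 53 23 4175 360) .out))
  .out)) .out))) .out) .out)))) (.na 546 150 (.na 528 145 (.nx 527 660563 (.nr 526 1048577 (.nr 521
  137 .s1 (.nx 522 205 (.l1 (.ls 61 19 309)) (.nr 525 524289 (.nr 523 8193 (.lg 0 false 1 71 71 16
  0 72) (.nx 524 6503 (.lg 0 true 1 71 71 16 0 360) .out)) .out))) .out) .out) (.na 538 146 (.nx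
  537 660563 (.nr 536 1048577 (.nr 529 145 .s1 (.nx 532 6503 (.nx 530 205 (.l1 (.ls 73 19 292))
  (.nr 531 524289 (.lg 0 false 1 79 79 17 0 360) .out)) (.nr 535 8193 (.nr 533 1025 (.lg 0 true 1
  67 67 17 0 360) (.nx 534 82572 (.lg 2 false 1 53 53 17 4175 360) .out)) .out))) .out) .out) (.nx
  545 660563 (.nr 544 1048577 (.nr 539 146 .s1 (.nx 540 205 (.l1 (.ls 67 29 290)) (.nr 543 524289
  (.nr 541 8193 (.lg 0 false 1 83 83 19 0 720) (.nx 542 6503 (.lg 0 true 1 79 79 19 0 720) .out))
  .out))) .out) .out))) (.na 554 151 (.nx 553 660563 (.nr 552 1048577 (.nr 547 150 .s1 (.nx 548 205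
  (.l1 (.ls 67 37 283)) (.nr 551 524289 (.nr 549 8193 (.lg 0 false 1 73 73 29 0 720) (.nx 550 6503
  (.lg 0 true 1 73 73 29 0 720) .out)) .out))) .out) .out) (.na 555 153 (.lg 0 false 1 0 0 16 0 24)
  (.nx 564 660563 (.nr 563 1048577 (.nr 556 153 .s1 (.nx 559 6503 (.nx 557 205 (.l1 (.ls 73 29
  277)) (.nr 558 524289 (.lg 0 false 1 79 79 23 0 72) .out)) (.nr 562 8193 (.nr 560 1025 (.lg 0
  true 1 67 67 23 0 72) (.nx 561 82572 (.lg 2 false 1 47 53 23 4175 72) .out)) .out))) .out)
  .out))))))) (.na 717 226 (.na 642 193 (.na 608 174 (.na 584 169 (.na 573 162 (.nx 572 660563 (.nr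
  571 1048577 (.nr 566 159 .s1 (.nx 567 205 (.l1 (.ls 47 23 267)) (.nr 570 524289 (.nr 568 8193
  (.lg 0 false 1 73 73 17 0 72) (.nx 569 6503 (.lg 0 true 1 73 73 17 0 360) .out)) .out))) .out)
  .out) (.na 583 167 (.nx 582 660563 (.nr 581 1048577 (.nr 574 162 .s1 (.nx 579 82572 (.nx 577 6503
  (.nx 575 205 (.l1 (.ls 79 31 262)) (.nr 576 524289 (.lg 0 false 1 79 83 31 0 720) .out)) (.nr 578
  8193 (.lg 0 true 1 71 73 31 0 720) .out)) (.nr 580 1025 (.lg 0 true 1 67 71 31 0 144) .out)))
  .out) .out) (.lg 0 false 1 0 0 16 0 24))) (.na 592 170 (.nx 591 660563 (.nr 590 1048577 (.nr 585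
  169 .s1 (.nx 586 205 (.l1 (.ls 71 19 251)) (.nr 589 524289 (.nr 587 8193 (.lg 0 false 1 73 73 17
  0 936) (.nx 588 6503 (.lg 0 true 1 73 73 17 0 4680) .out)) .out))) .out) .out) (.na 600 173 (.nx
  599 660563 (.nr 598 1048577 (.nr 593 170 .s1 (.nx 594 205 (.l1 (.ls 73 31 250)) (.nr 597 524289
  (.nr 595 8193 (.lg 0 true 1 79 79 31 0 720) (.nx 596 6503 (.lg 0 false 1 73 73 31 0 720) .out))
  .out))) .out) .out) (.nx 607 660563 (.nr 606 1048577 (.nr 601 173 .s1 (.nx 602 205 (.l1 (.ls 61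
  17 245)) (.nr 605 524289 (.nx 603 6503 (.lg 0 true 1 67 67 16 0 72) (.nr 604 8193 (.lg 0 false 1
  71 71 16 0 360) .out)) .out))) .out) .out)))) (.na 625 183 (.na 616 178 (.nx 615 660563 (.nr 614
  1048577 (.nr 609 174 .s1 (.nx 612 6503 (.nx 610 205 (.l1 (.ls 71 37 244)) (.nr 611 524289 (.lg 0
  true 1 73 73 23 0 144) .out)) (.nr 613 8193 (.lg 0 false 1 79 79 23 0 720) .out))) .out) .out)
  (.na 624 179 (.nx 623 660563 (.nr 622 1048577 (.nr 617 178 .s1 (.nx 618 205 (.l1 (.ls 61 29 239))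
  (.nr 621 524289 (.nr 619 8193 (.lg 0 false 1 73 73 19 0 720) (.nx 620 6503 (.lg 0 true 1 71 71 19
  0 720) .out)) .out))) .out) .out) (.lg 0 false 1 0 0 16 0 24))) (.na 633 185 (.nx 632 660563 (.nr
  631 1048577 (.nr 626 183 .s1 (.nx 627 205 (.l1 (.ls 59 23 232)) (.nr 630 524289 (.nr 628 8193
  (.lg 0 false 1 73 73 17 0 72) (.nx 629 6503 (.lg 0 true 1 73 73 17 0 360) .out)) .out))) .out)
  .out) (.na 641 191 (.nx 640 660563 (.nr 639 1048577 (.nr 634 185 .s1 (.nx 635 205 (.l1 (.ls 71 19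
  230)) (.nr 638 524289 (.nr 636 8193 (.lg 0 true 1 73 73 19 0 360) (.nx 637 6503 (.lg 0 false 1 73
  73 19 0 360) .out)) .out))) .out) .out) (.lg 0 false 1 0 0 16 0 24))))) (.na 683 211 (.na 666 199
  (.na 650 194 (.nx 649 660563 (.nr 648 1048577 (.nr 643 193 .s1 (.nx 644 205 (.l1 (.ls 59 17 220))
  (.nr 647 524289 (.nr 645 8193 (.lg 0 false 1 71 71 16 0 360) (.nx 646 6503 (.lg 0 true 1 67 67 16
  0 360) .out)) .out))) .out) .out) (.na 658 197 (.nx 657 660563 (.nr 656 1048577 (.nr 651 194 .s1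
  (.nx 652 205 (.l1 (.ls 67 23 219)) (.nr 655 524289 (.nr 653 8193 (.lg 0 false 1 73 73 19 0 720)
  (.nx 654 6503 (.lg 0 true 1 71 71 19 0 720) .out)) .out))) .out) .out) (.nx 665 660563 (.nr 664
  1048577 (.nr 659 197 .s1 (.nx 660 205 (.l1 (.ls 59 17 216)) (.nr 663 524289 (.nr 661 8193 (.lg 0
  false 1 71 71 16 0 360) (.nx 662 6503 (.lg 0 true 1 67 67 16 0 360) .out)) .out))) .out) .out)))
  (.na 667 202 (.lg 0 false 1 0 0 16 0 24) (.na 675 205 (.nx 674 660563 (.nr 673 1048577 (.nr 668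
  202 .s1 (.nx 669 205 (.l1 (.ls 67 23 211)) (.nr 672 524289 (.nr 670 8193 (.lg 0 false 1 73 73 23
  0 720) (.nx 671 6503 (.lg 0 true 1 71 71 23 0 720) .out)) .out))) .out) .out) (.nx 682 660563
  (.nr 681 1048577 (.nr 676 205 .s1 (.nx 677 205 (.l1 (.ls 71 19 207)) (.nr 680 524289 (.nr 678
  8193 (.lg 0 true 1 73 73 19 0 360) (.nx 679 6503 (.lg 0 false 1 73 73 19 0 360) .out)) .out)))
  .out) .out)))) (.na 700 222 (.na 684 218 (.lg 0 false 1 0 0 16 0 24) (.na 692 219 (.nx 691 660563
  (.nr 690 1048577 (.nr 685 218 .s1 (.nx 686 205 (.l1 (.ls 61 23 195)) (.nr 689 524289 (.nr 687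
  8193 (.lg 0 false 1 71 71 23 0 144) (.nx 688 6503 (.lg 0 true 1 67 67 23 0 144) .out)) .out)))
  .out) .out) (.nx 699 660563 (.nr 698 1048577 (.nr 693 219 .s1 (.nx 694 205 (.l1 (.ls 59 19 194))
  (.nr 697 524289 (.nr 695 8193 (.lg 0 false 1 67 67 19 0 72) (.nx 696 6503 (.lg 0 true 1 67 67 19
  0 360) .out)) .out))) .out) .out))) (.na 708 223 (.nx 707 660563 (.nr 706 1048577 (.nr 701 222
  .s1 (.nx 702 205 (.l1 (.ls 67 31 192)) (.nr 705 524289 (.nr 703 8193 (.lg 0 false 1 73 73 29 0
  720) (.nx 704 6503 (.lg 0 true 1 71 71 29 0 144) .out)) .out))) .out) .out) (.na 709 225 (.lg 0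
  false 1 0 0 16 0 24) (.nx 716 660563 (.nr 715 1048577 (.nr 710 225 .s1 (.nx 711 205 (.l1 (.ls 71
  23 189)) (.nr 714 524289 (.nr 712 8193 (.lg 0 true 1 73 73 29 0 360) (.nx 713 6503 (.lg 0 false 1
  73 73 29 0 360) .out)) .out))) .out) .out)))))) (.na 785 257 (.na 758 243 (.na 741 234 (.na 725
  229 (.nx 724 660563 (.nr 723 1048577 (.nr 718 226 .s1 (.nx 719 205 (.l1 (.ls 61 23 188)) (.nr 722
  524289 (.nr 720 8193 (.lg 0 false 1 71 71 23 0 720) (.nx 721 6503 (.lg 0 true 1 67 67 23 0 720)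
  .out)) .out))) .out) .out) (.na 733 233 (.nx 732 660563 (.nr 731 1048577 (.nr 726 229 .s1 (.nx
  727 205 (.l1 (.ls 59 17 186)) (.nr 730 524289 (.nr 728 8193 (.lg 0 false 1 67 67 17 0 360) (.nx
  729 6503 (.lg 0 true 1 61 61 17 0 72) .out)) .out))) .out) .out) (.nx 740 660563 (.nr 739 1048577
  (.nr 734 233 .s1 (.nx 735 205 (.l1 (.ls 59 17 183)) (.nr 738 524289 (.nr 736 8193 (.lg 0 false 1
  67 67 17 0 72) (.nx 737 6503 (.lg 0 true 1 67 67 17 0 360) .out)) .out))) .out) .out))) (.na 749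
  239 (.nx 748 660563 (.nr 747 1048577 (.nr 742 234 .s1 (.nx 743 205 (.l1 (.ls 73 37 182)) (.nr 746
  524289 (.nr 744 8193 (.lg 0 true 1 79 79 37 0 1872) (.nx 745 6503 (.lg 0 false 1 73 73 37 0 1872)
  .out)) .out))) .out) .out) (.na 750 241 (.lg 0 false 1 0 0 16 0 24) (.nx 757 660563 (.nr 756
  1048577 (.nr 751 241 .s1 (.nx 752 205 (.l1 (.ls 59 17 177)) (.nr 755 524289 (.nr 753 8193 (.lg 0
  false 1 67 67 17 0 360) (.nx 754 6503 (.lg 0 true 1 61 61 17 0 360) .out)) .out))) .out) .out))))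
  (.na 775 251 (.na 759 246 (.lg 0 false 1 0 0 16 0 24) (.na 767 250 (.nx 766 660563 (.nr 765
  1048577 (.nr 760 246 .s1 (.nx 761 205 (.l1 (.ls 71 31 173)) (.nr 764 524289 (.nr 762 8193 (.lg 0
  false 1 73 73 29 0 720) (.nx 763 6503 (.lg 0 true 1 71 71 29 0 144) .out)) .out))) .out) .out)
  (.nx 774 660563 (.nr 773 1048577 (.nr 768 250 .s1 (.nx 769 205 (.l1 (.ls 61 29 171)) (.nr 772
  524289 (.nr 770 8193 (.lg 0 false 1 71 71 29 0 720) (.nx 771 6503 (.lg 0 true 1 67 67 29 0 720)
  .out)) .out))) .out) .out))) (.na 776 255 (.lg 0 false 1 0 0 16 0 24) (.na 784 256 (.nx 783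
  660563 (.nr 782 1048577 (.nr 777 255 .s1 (.nx 778 205 (.l1 (.ls 67 29 167)) (.nr 781 524289 (.nr
  779 8193 (.lg 0 true 1 73 73 29 0 360) (.nx 780 6503 (.lg 0 false 1 71 71 29 0 360) .out))
  .out))) .out) .out) .ne)))) (.na 4241 2897 (.na 2113 1024 (.na 1299 512 (.nx 1298 82572 (.nr 1297
  1048577 (.nr 786 257 .s1 (.nx 1041 647 (.la (.ls 71 31 1631)) (.nr 1296 262145 (.la (.lg 0 true 1
  73 73 23 0)) .out))) .out) .out) (.na 1811 725 (.nx 1810 82572 (.nr 1809 1048577 (.nr 1300 512
  .s1 (.nx 1382 82 (.nx 1381 81 (.nr 1380 4629 (.lx (.lp 29 17 182)) (.l1 .sk)) (.l1 .sk)) (.nx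
  1595 647 (.la (.ls 67 29 807)) (.nr 1808 262145 (.la (.lg 0 false 1 67 67 29 0)) .out)))) .out)
  .out) (.nx 2112 3252 (.nr 2111 262145 (.nr 1812 725 .s1 (.la (.ls 53 43 14589))) .out) .out)))
  (.na 2623 1449 (.nx 2622 3252 (.nr 2621 262145 (.nr 2114 1024 .s1 (.nx 2195 81 (.nr 2194 9250
  (.lx (.lp 41 23 363)) (.l1 .sk)) (.nx 2196 82 (.l1 .sk) (.la (.ls 53 41 10324))))) .out) .out)
  (.na 3307 2048 (.nx 3306 1627 (.nr 3305 131073 (.nr 2624 1449 .s1 (.nx 2705 81 (.nr 2704 13074
  (.lx (.lp 37 23 513)) (.l1 .sk)) (.nx 2706 82 (.l1 .sk) (.la (.ls 47 31 1825))))) .out) .out)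
  (.nx 4240 1627 (.nr 4239 131073 (.nr 3308 2048 .s1 (.nx 3389 81 (.nr 3388 18494 (.lx (.lp 31 29
  725)) (.l1 .sk)) (.nx 3390 82 (.l1 .sk) (.la (.ls 43 31 1292))))) .out) .out)))) (.na 6190 16384
  (.na 4891 4096 (.nx 4890 647 (.nr 4889 65537 (.nr 4242 2897 .s1 (.nx 4404 163 (.lx (.lp 43 29
  1025)) (.nr 4888 32769 (.lx (.lp 37 31 1025)) .out))) .out) .out) (.na 5541 8192 (.nx 5540 647
  (.nr 5539 65537 (.nr 4892 4096 .s1 (.nx 5054 163 (.lx (.lp 47 31 2049)) (.nr 5538 32769 (.lx (.lp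
  37 37 2049)) .out))) .out) .out) (.nx 6189 647 (.nr 6188 65537 (.nr 5542 8192 .s1 (.lx (.lp 41 41
  4097))) .out) .out))) (.na 7166 65536 (.na 6840 32768 (.nx 6839 647 (.nr 6838 131073 (.nr 6191
  16384 .s1 (.nx 6353 163 (.lx (.lp 16 0 8193)) (.nr 6837 65537 (.lx (.lp 31 43 8193)) .out)))
  .out) .out) (.nx 7165 324 (.nr 7164 131073 (.nr 6841 32768 .s1 (.lx (.lp 16 43 16385))) .out)
  .out)) (.na 7492 131073 (.nx 7491 324 (.nr 7490 262145 (.nr 7167 65536 .s1 (.lx (.lp 16 47
  32769))) .out) .out) .out)))))))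

theorem c106 :
    OkQ ckI L8 152 10 161 0 34359738368 1 1099511627776 ∧
    OkQ ckI L9 192 244 1099511627776 0 34359738368 1 1099511627776 ∧
    OkQ ckI L6 81 16 1099511627776 0 34359738368 1 1099511627776 := by
  refine ⟨?_, ?_, ?_⟩
  · refine fin 1368 947 T106_0 ?_
    refine jn 4 (by decide +kernel) ?_
    refine jn 5 (by decide +kernel) ?_
    refine jn 6 (by decide +kernel) ?_
    refine jn 7 (by decide +kernel) ?_
    refine jn 8 (by decide +kernel) ?_
    refine jn 9 (by decide +kernel) ?_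
    refine jn 10 (by decide +kernel) ?_
    refine jn 11 (by decide +kernel) ?_
    refine jn 12 (by decide +kernel) ?_
    refine jn 13 (by decide +kernel) ?_
    refine jn 14 (by decide +kernel) ?_
    refine jn 17 (by decide +kernel) ?_
    refine jn 19 (by decide +kernel) ?_
    refine jn 25 (by decide +kernel) ?_
    refine jn 30 (by decide +kernel) ?_
    refine jn 31 (by decide +kernel) ?_
    refine jn 34 (by decide +kernel) ?_
    refine jn 36 (by decide +kernel) ?_
    refine jn 44 (by decide +kernel) ?_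
    refine jn 53 (by decide +kernel) ?_
    refine jn 55 (by decide +kernel) ?_
    refine jn 61 (by decide +kernel) ?_
    refine jn 66 (by decide +kernel) ?_
    refine jn 72 (by decide +kernel) ?_
    refine jn 83 (by decide +kernel) ?_
    refine jn 96 (by decide +kernel) ?_
    refine jn 99 (by decide +kernel) ?_
    refine jn 104 (by decide +kernel) ?_
    refine jn 115 (by decide +kernel) ?_
    refine jn 127 (by decide +kernel) ?_
    refine jn 143 (by decide +kernel) ?_
    refine jn 161 (by decide +kernel) ?_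
    refine jn 178 (by decide +kernel) ?_
    refine jn 179 (by decide +kernel) ?_
    refine jn 180 (by decide +kernel) ?_
    refine jn 181 (by decide +kernel) ?_
    refine jn 182 (by decide +kernel) ?_
    refine jn 183 (by decide +kernel) ?_
    refine jn 184 (by decide +kernel) ?_
    refine jn 185 (by decide +kernel) ?_
    refine jn 186 (by decide +kernel) ?_
    refine jn 187 (by decide +kernel) ?_
    refine jn 188 (by decide +kernel) ?_
    refine jn 189 (by decide +kernel) ?_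
    refine jn 190 (by decide +kernel) ?_
    refine jn 195 (by decide +kernel) ?_
    refine jn 199 (by decide +kernel) ?_
    refine jn 200 (by decide +kernel) ?_
    refine jn 206 (by decide +kernel) ?_
    refine jn 215 (by decide +kernel) ?_
    refine jn 220 (by decide +kernel) ?_
    refine jn 226 (by decide +kernel) ?_
    refine jn 236 (by decide +kernel) ?_
    refine jn 240 (by decide +kernel) ?_
    refine jn 241 (by decide +kernel) ?_
    refine jn 242 (by decide +kernel) ?_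
    refine jn 243 (by decide +kernel) ?_
    refine jn 247 (by decide +kernel) ?_
    refine jn 248 (by decide +kernel) ?_
    refine jn 250 (by decide +kernel) ?_
    refine jn 252 (by decide +kernel) ?_
    refine jn 258 (by decide +kernel) ?_
    refine jn 266 (by decide +kernel) ?_
    refine jn 271 (by decide +kernel) ?_
    refine jn 277 (by decide +kernel) ?_
    refine jn 288 (by decide +kernel) ?_
    refine jn 291 (by decide +kernel) ?_
    refine jn 292 (by decide +kernel) ?_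
    refine jn 293 (by decide +kernel) ?_
    refine jn 294 (by decide +kernel) ?_
    refine jn 295 (by decide +kernel) ?_
    refine jn 296 (by decide +kernel) ?_
    refine jn 297 (by decide +kernel) ?_
    refine jn 299 (by decide +kernel) ?_
    refine jn 306 (by decide +kernel) ?_
    refine jn 310 (by decide +kernel) ?_
    refine jn 320 (by decide +kernel) ?_
    refine jn 321 (by decide +kernel) ?_
    refine jn 328 (by decide +kernel) ?_
    refine jn 334 (by decide +kernel) ?_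
    refine jn 346 (by decide +kernel) ?_
    refine jn 347 (by decide +kernel) ?_
    refine jn 348 (by decide +kernel) ?_
    refine jn 349 (by decide +kernel) ?_
    refine jn 350 (by decide +kernel) ?_
    refine jn 354 (by decide +kernel) ?_
    refine jn 358 (by decide +kernel) ?_
    refine jn 372 (by decide +kernel) ?_
    refine jn 380 (by decide +kernel) ?_
    refine jn 389 (by decide +kernel) ?_
    refine jn 390 (by decide +kernel) ?_
    refine jn 391 (by decide +kernel) ?_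
    refine jn 392 (by decide +kernel) ?_
    refine jn 393 (by decide +kernel) ?_
    refine jn 394 (by decide +kernel) ?_
    refine jn 399 (by decide +kernel) ?_
    refine jn 402 (by decide +kernel) ?_
    refine jn 413 (by decide +kernel) ?_
    refine jn 419 (by decide +kernel) ?_
    refine jn 430 (by decide +kernel) ?_
    refine jn 435 (by decide +kernel) ?_
    refine jn 445 (by decide +kernel) ?_
    refine jn 448 (by decide +kernel) ?_
    refine jn 451 (by decide +kernel) ?_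
    refine jn 454 (by decide +kernel) ?_
    refine jn 464 (by decide +kernel) ?_
    refine jn 467 (by decide +kernel) ?_
    refine jn 469 (by decide +kernel) ?_
    refine jn 472 (by decide +kernel) ?_
    refine jn 476 (by decide +kernel) ?_
    refine jn 485 (by decide +kernel) ?_
    refine jn 490 (by decide +kernel) ?_
    refine jn 500 (by decide +kernel) ?_
    refine jn 503 (by decide +kernel) ?_
    refine jn 507 (by decide +kernel) ?_
    refine jn 510 (by decide +kernel) ?_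
    refine jn 524 (by decide +kernel) ?_
    refine jn 536 (by decide +kernel) ?_
    refine jn 543 (by decide +kernel) ?_
    refine jn 553 (by decide +kernel) ?_
    refine jn 555 (by decide +kernel) ?_
    refine jn 557 (by decide +kernel) ?_
    refine jn 568 (by decide +kernel) ?_
    refine jn 576 (by decide +kernel) ?_
    refine jn 585 (by decide +kernel) ?_
    refine jn 589 (by decide +kernel) ?_
    refine jn 592 (by decide +kernel) ?_
    refine jn 601 (by decide +kernel) ?_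
    refine jn 603 (by decide +kernel) ?_
    refine jn 606 (by decide +kernel) ?_
    refine jn 616 (by decide +kernel) ?_
    refine jn 620 (by decide +kernel) ?_
    refine jn 623 (by decide +kernel) ?_
    refine jn 637 (by decide +kernel) ?_
    refine jn 652 (by decide +kernel) ?_
    refine jn 667 (by decide +kernel) ?_
    refine jn 676 (by decide +kernel) ?_
    refine jn 679 (by decide +kernel) ?_
    refine jn 680 (by decide +kernel) ?_
    refine jn 682 (by decide +kernel) ?_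
    refine jn 683 (by decide +kernel) ?_
    refine jn 684 (by decide +kernel) ?_
    refine jn 694 (by decide +kernel) ?_
    refine jn 697 (by decide +kernel) ?_
    refine jn 708 (by decide +kernel) ?_
    refine jn 712 (by decide +kernel) ?_
    refine jn 724 (by decide +kernel) ?_
    refine jn 727 (by decide +kernel) ?_
    refine jn 738 (by decide +kernel) ?_
    refine jn 742 (by decide +kernel) ?_
    refine jn 756 (by decide +kernel) ?_
    refine jn 767 (by decide +kernel) ?_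
    refine jn 780 (by decide +kernel) ?_
    refine jn 791 (by decide +kernel) ?_
    refine jn 796 (by decide +kernel) ?_
    refine jn 806 (by decide +kernel) ?_
    refine jn 818 (by decide +kernel) ?_
    refine jn 822 (by decide +kernel) ?_
    refine jn 831 (by decide +kernel) ?_
    refine jn 843 (by decide +kernel) ?_
    refine jn 853 (by decide +kernel) ?_
    refine jn 863 (by decide +kernel) ?_
    refine jn 875 (by decide +kernel) ?_
    refine jn 886 (by decide +kernel) ?_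
    refine jn 897 (by decide +kernel) ?_
    refine jn 909 (by decide +kernel) ?_
    refine jn 919 (by decide +kernel) ?_
    refine jn 927 (by decide +kernel) ?_
    refine jn 929 (by decide +kernel) ?_
    refine jn 933 (by decide +kernel) ?_
    refine jn 941 (by decide +kernel) ?_
    exact je (by decide +kernel)
  · refine fin 48 16691 T106_1 ?_
    refine jn 8 (by decide +kernel) ?_
    refine jn 17 (by decide +kernel) ?_
    refine jn 28 (by decide +kernel) ?_
    refine jn 41 (by decide +kernel) ?_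
    refine jn 46 (by decide +kernel) ?_
    refine jn 47 (by decide +kernel) ?_
    refine jn 48 (by decide +kernel) ?_
    refine jn 51 (by decide +kernel) ?_
    refine jn 94 (by decide +kernel) ?_
    refine jn 114 (by decide +kernel) ?_
    refine jn 160 (by decide +kernel) ?_
    refine jn 229 (by decide +kernel) ?_
    refine jn 236 (by decide +kernel) ?_
    refine jn 238 (by decide +kernel) ?_
    refine jn 243 (by decide +kernel) ?_
    refine jn 248 (by decide +kernel) ?_
    refine jn 262 (by decide +kernel) ?_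
    refine jn 266 (by decide +kernel) ?_
    refine jn 271 (by decide +kernel) ?_
    refine jn 274 (by decide +kernel) ?_
    refine jn 275 (by decide +kernel) ?_
    refine jn 282 (by decide +kernel) ?_
    refine jn 284 (by decide +kernel) ?_
    refine jn 296 (by decide +kernel) ?_
    refine jn 306 (by decide +kernel) ?_
    refine jn 307 (by decide +kernel) ?_
    refine jn 314 (by decide +kernel) ?_
    refine jn 331 (by decide +kernel) ?_
    refine jn 335 (by decide +kernel) ?_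
    refine jn 342 (by decide +kernel) ?_
    refine jn 347 (by decide +kernel) ?_
    refine jn 354 (by decide +kernel) ?_
    refine jn 370 (by decide +kernel) ?_
    refine jn 377 (by decide +kernel) ?_
    refine jn 380 (by decide +kernel) ?_
    refine jn 381 (by decide +kernel) ?_
    refine jn 390 (by decide +kernel) ?_
    refine jn 407 (by decide +kernel) ?_
    refine jn 412 (by decide +kernel) ?_
    refine jn 413 (by decide +kernel) ?_
    refine jn 425 (by decide +kernel) ?_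
    refine jn 441 (by decide +kernel) ?_
    refine jn 450 (by decide +kernel) ?_
    refine jn 459 (by decide +kernel) ?_
    refine jn 474 (by decide +kernel) ?_
    refine jn 483 (by decide +kernel) ?_
    refine jn 486 (by decide +kernel) ?_
    refine jn 491 (by decide +kernel) ?_
    refine jn 498 (by decide +kernel) ?_
    refine jn 518 (by decide +kernel) ?_
    refine jn 520 (by decide +kernel) ?_
    refine jn 543 (by decide +kernel) ?_
    refine jn 574 (by decide +kernel) ?_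
    refine jn 624 (by decide +kernel) ?_
    refine jn 675 (by decide +kernel) ?_
    refine jn 701 (by decide +kernel) ?_
    refine jn 702 (by decide +kernel) ?_
    refine jn 710 (by decide +kernel) ?_
    refine jn 721 (by decide +kernel) ?_
    refine jn 723 (by decide +kernel) ?_
    refine jn 729 (by decide +kernel) ?_
    refine jn 736 (by decide +kernel) ?_
    refine jn 740 (by decide +kernel) ?_
    refine jn 749 (by decide +kernel) ?_
    refine jn 753 (by decide +kernel) ?_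
    refine jn 754 (by decide +kernel) ?_
    refine jn 764 (by decide +kernel) ?_
    refine jn 771 (by decide +kernel) ?_
    refine jn 775 (by decide +kernel) ?_
    refine jn 783 (by decide +kernel) ?_
    refine jn 785 (by decide +kernel) ?_
    refine jn 786 (by decide +kernel) ?_
    refine jn 795 (by decide +kernel) ?_
    refine jn 808 (by decide +kernel) ?_
    refine jn 819 (by decide +kernel) ?_
    refine jn 826 (by decide +kernel) ?_
    refine jn 833 (by decide +kernel) ?_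
    refine jn 838 (by decide +kernel) ?_
    refine jn 848 (by decide +kernel) ?_
    refine jn 851 (by decide +kernel) ?_
    refine jn 852 (by decide +kernel) ?_
    refine jn 859 (by decide +kernel) ?_
    refine jn 866 (by decide +kernel) ?_
    refine jn 871 (by decide +kernel) ?_
    refine jn 873 (by decide +kernel) ?_
    refine jn 879 (by decide +kernel) ?_
    refine jn 885 (by decide +kernel) ?_
    refine jn 889 (by decide +kernel) ?_
    refine jn 896 (by decide +kernel) ?_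
    refine jn 903 (by decide +kernel) ?_
    refine jn 904 (by decide +kernel) ?_
    refine jn 909 (by decide +kernel) ?_
    refine jn 920 (by decide +kernel) ?_
    refine jn 923 (by decide +kernel) ?_
    refine jn 926 (by decide +kernel) ?_
    refine jn 933 (by decide +kernel) ?_
    refine jn 935 (by decide +kernel) ?_
    refine jn 936 (by decide +kernel) ?_
    refine jn 944 (by decide +kernel) ?_
    refine jn 950 (by decide +kernel) ?_
    refine jn 958 (by decide +kernel) ?_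
    refine jn 968 (by decide +kernel) ?_
    refine jn 974 (by decide +kernel) ?_
    refine jn 976 (by decide +kernel) ?_
    refine jn 983 (by decide +kernel) ?_
    refine jn 986 (by decide +kernel) ?_
    refine jn 995 (by decide +kernel) ?_
    refine jn 999 (by decide +kernel) ?_
    refine jn 1118 (by decide +kernel) ?_
    refine jn 1264 (by decide +kernel) ?_
    refine jn 1271 (by decide +kernel) ?_
    refine jn 1280 (by decide +kernel) ?_
    refine jn 1281 (by decide +kernel) ?_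
    refine jn 1291 (by decide +kernel) ?_
    refine jn 1301 (by decide +kernel) ?_
    refine jn 1307 (by decide +kernel) ?_
    refine jn 1325 (by decide +kernel) ?_
    refine jn 1332 (by decide +kernel) ?_
    refine jn 1337 (by decide +kernel) ?_
    refine jn 1340 (by decide +kernel) ?_
    refine jn 1345 (by decide +kernel) ?_
    refine jn 1352 (by decide +kernel) ?_
    refine jn 1356 (by decide +kernel) ?_
    refine jn 1361 (by decide +kernel) ?_
    refine jn 1372 (by decide +kernel) ?_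
    refine jn 1373 (by decide +kernel) ?_
    refine jn 1380 (by decide +kernel) ?_
    refine jn 1391 (by decide +kernel) ?_
    refine jn 1400 (by decide +kernel) ?_
    refine jn 1410 (by decide +kernel) ?_
    refine jn 1420 (by decide +kernel) ?_
    refine jn 1422 (by decide +kernel) ?_
    refine jn 1434 (by decide +kernel) ?_
    refine jn 1436 (by decide +kernel) ?_
    refine jn 1439 (by decide +kernel) ?_
    refine jn 1457 (by decide +kernel) ?_
    refine jn 1471 (by decide +kernel) ?_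
    refine jn 1478 (by decide +kernel) ?_
    refine jn 1485 (by decide +kernel) ?_
    refine jn 1494 (by decide +kernel) ?_
    refine jn 1498 (by decide +kernel) ?_
    refine jn 1505 (by decide +kernel) ?_
    refine jn 1510 (by decide +kernel) ?_
    refine jn 1518 (by decide +kernel) ?_
    refine jn 1528 (by decide +kernel) ?_
    refine jn 1541 (by decide +kernel) ?_
    refine jn 1550 (by decide +kernel) ?_
    refine jn 1554 (by decide +kernel) ?_
    refine jn 1559 (by decide +kernel) ?_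
    refine jn 1566 (by decide +kernel) ?_
    refine jn 1570 (by decide +kernel) ?_
    refine jn 1576 (by decide +kernel) ?_
    refine jn 1586 (by decide +kernel) ?_
    refine jn 1588 (by decide +kernel) ?_
    refine jn 1594 (by decide +kernel) ?_
    refine jn 1603 (by decide +kernel) ?_
    refine jn 1614 (by decide +kernel) ?_
    refine jn 1624 (by decide +kernel) ?_
    refine jn 1634 (by decide +kernel) ?_
    refine jn 1636 (by decide +kernel) ?_
    refine jn 1641 (by decide +kernel) ?_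
    refine jn 1650 (by decide +kernel) ?_
    refine jn 1653 (by decide +kernel) ?_
    refine jn 1671 (by decide +kernel) ?_
    refine jn 1685 (by decide +kernel) ?_
    refine jn 1698 (by decide +kernel) ?_
    refine jn 1728 (by decide +kernel) ?_
    refine jn 1742 (by decide +kernel) ?_
    refine jn 1764 (by decide +kernel) ?_
    refine jn 1790 (by decide +kernel) ?_
    refine jn 1810 (by decide +kernel) ?_
    refine jn 1838 (by decide +kernel) ?_
    refine jn 1862 (by decide +kernel) ?_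
    refine jn 1880 (by decide +kernel) ?_
    refine jn 1914 (by decide +kernel) ?_
    refine jn 1942 (by decide +kernel) ?_
    refine jn 1972 (by decide +kernel) ?_
    refine jn 1993 (by decide +kernel) ?_
    refine jn 2004 (by decide +kernel) ?_
    refine jn 2022 (by decide +kernel) ?_
    refine jn 2033 (by decide +kernel) ?_
    refine jn 2034 (by decide +kernel) ?_
    refine jn 2049 (by decide +kernel) ?_
    refine jn 2061 (by decide +kernel) ?_
    refine jn 2076 (by decide +kernel) ?_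
    refine jn 2089 (by decide +kernel) ?_
    refine jn 2097 (by decide +kernel) ?_
    refine jn 2098 (by decide +kernel) ?_
    refine jn 2119 (by decide +kernel) ?_
    refine jn 2136 (by decide +kernel) ?_
    refine jn 2148 (by decide +kernel) ?_
    refine jn 2161 (by decide +kernel) ?_
    refine jn 2162 (by decide +kernel) ?_
    refine jn 2179 (by decide +kernel) ?_
    refine jn 2196 (by decide +kernel) ?_
    refine jn 2213 (by decide +kernel) ?_
    refine jn 2232 (by decide +kernel) ?_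
    refine jn 2243 (by decide +kernel) ?_
    refine jn 2257 (by decide +kernel) ?_
    refine jn 2276 (by decide +kernel) ?_
    refine jn 2296 (by decide +kernel) ?_
    refine jn 2320 (by decide +kernel) ?_
    refine jn 2351 (by decide +kernel) ?_
    refine jn 2368 (by decide +kernel) ?_
    refine jn 2398 (by decide +kernel) ?_
    refine jn 2428 (by decide +kernel) ?_
    refine jn 2452 (by decide +kernel) ?_
    refine jn 2477 (by decide +kernel) ?_
    refine jn 2495 (by decide +kernel) ?_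
    refine jn 2521 (by decide +kernel) ?_
    refine jn 2542 (by decide +kernel) ?_
    refine jn 2573 (by decide +kernel) ?_
    refine jn 2608 (by decide +kernel) ?_
    refine jn 2621 (by decide +kernel) ?_
    refine jn 2656 (by decide +kernel) ?_
    refine jn 2696 (by decide +kernel) ?_
    refine jn 2723 (by decide +kernel) ?_
    refine jn 2733 (by decide +kernel) ?_
    refine jn 2758 (by decide +kernel) ?_
    refine jn 2774 (by decide +kernel) ?_
    refine jn 2786 (by decide +kernel) ?_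
    refine jn 2800 (by decide +kernel) ?_
    refine jn 2818 (by decide +kernel) ?_
    refine jn 2848 (by decide +kernel) ?_
    refine jn 2865 (by decide +kernel) ?_
    refine jn 2878 (by decide +kernel) ?_
    refine jn 2898 (by decide +kernel) ?_
    refine jn 2910 (by decide +kernel) ?_
    refine jn 2911 (by decide +kernel) ?_
    refine jn 2942 (by decide +kernel) ?_
    refine jn 2956 (by decide +kernel) ?_
    refine jn 2968 (by decide +kernel) ?_
    refine jn 2996 (by decide +kernel) ?_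
    refine jn 3018 (by decide +kernel) ?_
    refine jn 3038 (by decide +kernel) ?_
    refine jn 3039 (by decide +kernel) ?_
    refine jn 3066 (by decide +kernel) ?_
    refine jn 3083 (by decide +kernel) ?_
    refine jn 3111 (by decide +kernel) ?_
    refine jn 3138 (by decide +kernel) ?_
    refine jn 3154 (by decide +kernel) ?_
    refine jn 3159 (by decide +kernel) ?_
    refine jn 3176 (by decide +kernel) ?_
    refine jn 3190 (by decide +kernel) ?_
    refine jn 3217 (by decide +kernel) ?_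
    refine jn 3236 (by decide +kernel) ?_
    refine jn 3252 (by decide +kernel) ?_
    refine jn 3270 (by decide +kernel) ?_
    refine jn 3294 (by decide +kernel) ?_
    refine jn 3310 (by decide +kernel) ?_
    refine jn 3332 (by decide +kernel) ?_
    refine jn 3349 (by decide +kernel) ?_
    refine jn 3362 (by decide +kernel) ?_
    refine jn 3367 (by decide +kernel) ?_
    refine jn 3396 (by decide +kernel) ?_
    refine jn 3424 (by decide +kernel) ?_
    refine jn 3439 (by decide +kernel) ?_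
    refine jn 3452 (by decide +kernel) ?_
    refine jn 3474 (by decide +kernel) ?_
    refine jn 3488 (by decide +kernel) ?_
    refine jn 3490 (by decide +kernel) ?_
    refine jn 3491 (by decide +kernel) ?_
    refine jn 3512 (by decide +kernel) ?_
    refine jn 3536 (by decide +kernel) ?_
    refine jn 3560 (by decide +kernel) ?_
    refine jn 3580 (by decide +kernel) ?_
    refine jn 3609 (by decide +kernel) ?_
    refine jn 3632 (by decide +kernel) ?_
    refine jn 3654 (by decide +kernel) ?_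
    refine jn 3679 (by decide +kernel) ?_
    refine jn 3684 (by decide +kernel) ?_
    refine jn 3717 (by decide +kernel) ?_
    refine jn 3739 (by decide +kernel) ?_
    refine jn 3765 (by decide +kernel) ?_
    refine jn 3778 (by decide +kernel) ?_
    refine jn 3810 (by decide +kernel) ?_
    refine jn 3829 (by decide +kernel) ?_
    refine jn 3845 (by decide +kernel) ?_
    refine jn 3869 (by decide +kernel) ?_
    refine jn 3889 (by decide +kernel) ?_
    refine jn 3913 (by decide +kernel) ?_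
    refine jn 3937 (by decide +kernel) ?_
    refine jn 3964 (by decide +kernel) ?_
    refine jn 3988 (by decide +kernel) ?_
    refine jn 4017 (by decide +kernel) ?_
    refine jn 4043 (by decide +kernel) ?_
    refine jn 4062 (by decide +kernel) ?_
    refine jn 4080 (by decide +kernel) ?_
    refine jn 4109 (by decide +kernel) ?_
    refine jn 4129 (by decide +kernel) ?_
    refine jn 4150 (by decide +kernel) ?_
    refine jn 4173 (by decide +kernel) ?_
    refine jn 4197 (by decide +kernel) ?_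
    refine jn 4213 (by decide +kernel) ?_
    refine jn 4229 (by decide +kernel) ?_
    refine jn 4252 (by decide +kernel) ?_
    refine jn 4288 (by decide +kernel) ?_
    refine jn 4312 (by decide +kernel) ?_
    refine jn 4344 (by decide +kernel) ?_
    refine jn 4372 (by decide +kernel) ?_
    refine jn 4390 (by decide +kernel) ?_
    refine jn 4417 (by decide +kernel) ?_
    refine jn 4449 (by decide +kernel) ?_
    refine jn 4468 (by decide +kernel) ?_
    refine jn 4499 (by decide +kernel) ?_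
    refine jn 4534 (by decide +kernel) ?_
    refine jn 4570 (by decide +kernel) ?_
    refine jn 4593 (by decide +kernel) ?_
    refine jn 4715 (by decide +kernel) ?_
    refine jn 4825 (by decide +kernel) ?_
    refine jn 4873 (by decide +kernel) ?_
    refine jn 4925 (by decide +kernel) ?_
    refine jn 4973 (by decide +kernel) ?_
    refine jn 5019 (by decide +kernel) ?_
    refine jn 5069 (by decide +kernel) ?_
    refine jn 5108 (by decide +kernel) ?_
    refine jn 5158 (by decide +kernel) ?_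
    refine jn 5211 (by decide +kernel) ?_
    refine jn 5240 (by decide +kernel) ?_
    refine jn 5293 (by decide +kernel) ?_
    refine jn 5354 (by decide +kernel) ?_
    refine jn 5389 (by decide +kernel) ?_
    refine jn 5438 (by decide +kernel) ?_
    refine jn 5489 (by decide +kernel) ?_
    refine jn 5541 (by decide +kernel) ?_
    refine jn 5588 (by decide +kernel) ?_
    refine jn 5649 (by decide +kernel) ?_
    refine jn 5693 (by decide +kernel) ?_
    refine jn 5753 (by decide +kernel) ?_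
    refine jn 5801 (by decide +kernel) ?_
    refine jn 5849 (by decide +kernel) ?_
    refine jn 5889 (by decide +kernel) ?_
    refine jn 5948 (by decide +kernel) ?_
    refine jn 5996 (by decide +kernel) ?_
    refine jn 6216 (by decide +kernel) ?_
    refine jn 6259 (by decide +kernel) ?_
    refine jn 6321 (by decide +kernel) ?_
    refine jn 6369 (by decide +kernel) ?_
    refine jn 6426 (by decide +kernel) ?_
    refine jn 6470 (by decide +kernel) ?_
    refine jn 6527 (by decide +kernel) ?_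
    refine jn 6594 (by decide +kernel) ?_
    refine jn 6654 (by decide +kernel) ?_
    refine jn 6711 (by decide +kernel) ?_
    refine jn 6774 (by decide +kernel) ?_
    refine jn 6821 (by decide +kernel) ?_
    refine jn 6875 (by decide +kernel) ?_
    refine jn 6929 (by decide +kernel) ?_
    refine jn 6974 (by decide +kernel) ?_
    refine jn 7031 (by decide +kernel) ?_
    refine jn 7086 (by decide +kernel) ?_
    refine jn 7146 (by decide +kernel) ?_
    refine jn 7194 (by decide +kernel) ?_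
    refine jn 7262 (by decide +kernel) ?_
    refine jn 7319 (by decide +kernel) ?_
    refine jn 7381 (by decide +kernel) ?_
    refine jn 7436 (by decide +kernel) ?_
    refine jn 7485 (by decide +kernel) ?_
    refine jn 7537 (by decide +kernel) ?_
    refine jn 7602 (by decide +kernel) ?_
    refine jn 7666 (by decide +kernel) ?_
    refine jn 7722 (by decide +kernel) ?_
    refine jn 7787 (by decide +kernel) ?_
    refine jn 7861 (by decide +kernel) ?_
    refine jn 7956 (by decide +kernel) ?_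
    refine jn 8210 (by decide +kernel) ?_
    refine jn 8401 (by decide +kernel) ?_
    refine jn 8521 (by decide +kernel) ?_
    refine jn 8609 (by decide +kernel) ?_
    refine jn 8708 (by decide +kernel) ?_
    refine jn 8808 (by decide +kernel) ?_
    refine jn 8873 (by decide +kernel) ?_
    refine jn 8962 (by decide +kernel) ?_
    refine jn 9021 (by decide +kernel) ?_
    refine jn 9076 (by decide +kernel) ?_
    refine jn 9145 (by decide +kernel) ?_
    refine jn 9304 (by decide +kernel) ?_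
    refine jn 9629 (by decide +kernel) ?_
    refine jn 9805 (by decide +kernel) ?_
    refine jn 9934 (by decide +kernel) ?_
    refine jn 10028 (by decide +kernel) ?_
    refine jn 10115 (by decide +kernel) ?_
    refine jn 10200 (by decide +kernel) ?_
    refine jn 10283 (by decide +kernel) ?_
    refine jn 10360 (by decide +kernel) ?_
    refine jn 10431 (by decide +kernel) ?_
    refine jn 10591 (by decide +kernel) ?_
    refine jn 10943 (by decide +kernel) ?_
    refine jn 11160 (by decide +kernel) ?_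
    refine jn 11301 (by decide +kernel) ?_
    refine jn 11431 (by decide +kernel) ?_
    refine jn 11534 (by decide +kernel) ?_
    refine jn 11637 (by decide +kernel) ?_
    refine jn 11721 (by decide +kernel) ?_
    refine jn 11978 (by decide +kernel) ?_
    refine jn 12213 (by decide +kernel) ?_
    refine jn 12345 (by decide +kernel) ?_
    refine jn 12453 (by decide +kernel) ?_
    refine jn 12571 (by decide +kernel) ?_
    refine jn 12653 (by decide +kernel) ?_
    refine jn 12728 (by decide +kernel) ?_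
    refine jn 12801 (by decide +kernel) ?_
    refine jn 12871 (by decide +kernel) ?_
    refine jn 12934 (by decide +kernel) ?_
    refine jn 12999 (by decide +kernel) ?_
    refine jn 13051 (by decide +kernel) ?_
    refine jn 13412 (by decide +kernel) ?_
    refine jn 13595 (by decide +kernel) ?_
    refine jn 13740 (by decide +kernel) ?_
    refine jn 13890 (by decide +kernel) ?_
    refine jn 13995 (by decide +kernel) ?_
    refine jn 14094 (by decide +kernel) ?_
    refine jn 14186 (by decide +kernel) ?_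
    refine jn 14283 (by decide +kernel) ?_
    refine jn 14347 (by decide +kernel) ?_
    refine jn 14785 (by decide +kernel) ?_
    refine jn 15023 (by decide +kernel) ?_
    refine jn 15187 (by decide +kernel) ?_
    refine jn 15339 (by decide +kernel) ?_
    refine jn 15461 (by decide +kernel) ?_
    refine jn 15609 (by decide +kernel) ?_
    refine jn 16079 (by decide +kernel) ?_
    exact je (by decide +kernel)
  · refine fin 72 7493 T106_2 ?_
    refine jn 7 (by decide +kernel) ?_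
    refine jn 13 (by decide +kernel) ?_
    refine jn 17 (by decide +kernel) ?_
    refine jn 22 (by decide +kernel) ?_
    refine jn 32 (by decide +kernel) ?_
    refine jn 35 (by decide +kernel) ?_
    refine jn 36 (by decide +kernel) ?_
    refine jn 38 (by decide +kernel) ?_
    refine jn 40 (by decide +kernel) ?_
    refine jn 42 (by decide +kernel) ?_
    refine jn 44 (by decide +kernel) ?_
    refine jn 46 (by decide +kernel) ?_
    refine jn 47 (by decide +kernel) ?_
    refine jn 48 (by decide +kernel) ?_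
    refine jn 50 (by decide +kernel) ?_
    refine jn 54 (by decide +kernel) ?_
    refine jn 65 (by decide +kernel) ?_
    refine jn 66 (by decide +kernel) ?_
    refine jn 70 (by decide +kernel) ?_
    refine jn 77 (by decide +kernel) ?_
    refine jn 88 (by decide +kernel) ?_
    refine jn 95 (by decide +kernel) ?_
    refine jn 102 (by decide +kernel) ?_
    refine jn 112 (by decide +kernel) ?_
    refine jn 113 (by decide +kernel) ?_
    refine jn 115 (by decide +kernel) ?_
    refine jn 117 (by decide +kernel) ?_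
    refine jn 119 (by decide +kernel) ?_
    refine jn 121 (by decide +kernel) ?_
    refine jn 129 (by decide +kernel) ?_
    refine jn 132 (by decide +kernel) ?_
    refine jn 140 (by decide +kernel) ?_
    refine jn 151 (by decide +kernel) ?_
    refine jn 156 (by decide +kernel) ?_
    refine jn 161 (by decide +kernel) ?_
    refine jn 173 (by decide +kernel) ?_
    refine jn 178 (by decide +kernel) ?_
    refine jn 190 (by decide +kernel) ?_
    refine jn 195 (by decide +kernel) ?_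
    refine jn 203 (by decide +kernel) ?_
    refine jn 204 (by decide +kernel) ?_
    refine jn 205 (by decide +kernel) ?_
    refine jn 206 (by decide +kernel) ?_
    refine jn 207 (by decide +kernel) ?_
    refine jn 211 (by decide +kernel) ?_
    refine jn 219 (by decide +kernel) ?_
    refine jn 220 (by decide +kernel) ?_
    refine jn 221 (by decide +kernel) ?_
    refine jn 222 (by decide +kernel) ?_
    refine jn 223 (by decide +kernel) ?_
    refine jn 224 (by decide +kernel) ?_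
    refine jn 225 (by decide +kernel) ?_
    refine jn 240 (by decide +kernel) ?_
    refine jn 253 (by decide +kernel) ?_
    refine jn 257 (by decide +kernel) ?_
    refine jn 267 (by decide +kernel) ?_
    refine jn 270 (by decide +kernel) ?_
    refine jn 283 (by decide +kernel) ?_
    refine jn 293 (by decide +kernel) ?_
    refine jn 295 (by decide +kernel) ?_
    refine jn 297 (by decide +kernel) ?_
    refine jn 310 (by decide +kernel) ?_
    refine jn 324 (by decide +kernel) ?_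
    refine jn 336 (by decide +kernel) ?_
    refine jn 343 (by decide +kernel) ?_
    refine jn 346 (by decide +kernel) ?_
    refine jn 347 (by decide +kernel) ?_
    refine jn 348 (by decide +kernel) ?_
    refine jn 349 (by decide +kernel) ?_
    refine jn 361 (by decide +kernel) ?_
    refine jn 372 (by decide +kernel) ?_
    refine jn 383 (by decide +kernel) ?_
    refine jn 392 (by decide +kernel) ?_
    refine jn 395 (by decide +kernel) ?_
    refine jn 407 (by decide +kernel) ?_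
    refine jn 418 (by decide +kernel) ?_
    refine jn 429 (by decide +kernel) ?_
    refine jn 440 (by decide +kernel) ?_
    refine jn 451 (by decide +kernel) ?_
    refine jn 462 (by decide +kernel) ?_
    refine jn 473 (by decide +kernel) ?_
    refine jn 489 (by decide +kernel) ?_
    refine jn 501 (by decide +kernel) ?_
    refine jn 504 (by decide +kernel) ?_
    refine jn 513 (by decide +kernel) ?_
    refine jn 515 (by decide +kernel) ?_
    refine jn 531 (by decide +kernel) ?_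
    refine jn 542 (by decide +kernel) ?_
    refine jn 557 (by decide +kernel) ?_
    refine jn 560 (by decide +kernel) ?_
    refine jn 569 (by decide +kernel) ?_
    refine jn 576 (by decide +kernel) ?_
    refine jn 579 (by decide +kernel) ?_
    refine jn 587 (by decide +kernel) ?_
    refine jn 596 (by decide +kernel) ?_
    refine jn 611 (by decide +kernel) ?_
    refine jn 620 (by decide +kernel) ?_
    refine jn 636 (by decide +kernel) ?_
    refine jn 646 (by decide +kernel) ?_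
    refine jn 662 (by decide +kernel) ?_
    refine jn 678 (by decide +kernel) ?_
    refine jn 688 (by decide +kernel) ?_
    refine jn 704 (by decide +kernel) ?_
    refine jn 713 (by decide +kernel) ?_
    refine jn 729 (by decide +kernel) ?_
    refine jn 744 (by decide +kernel) ?_
    refine jn 754 (by decide +kernel) ?_
    refine jn 771 (by decide +kernel) ?_
    refine jn 786 (by decide +kernel) ?_
    refine jn 812 (by decide +kernel) ?_
    refine jn 847 (by decide +kernel) ?_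
    refine jn 882 (by decide +kernel) ?_
    refine jn 919 (by decide +kernel) ?_
    refine jn 967 (by decide +kernel) ?_
    refine jn 1014 (by decide +kernel) ?_
    refine jn 1045 (by decide +kernel) ?_
    refine jn 1049 (by decide +kernel) ?_
    refine jn 1054 (by decide +kernel) ?_
    refine jn 1058 (by decide +kernel) ?_
    refine jn 1074 (by decide +kernel) ?_
    refine jn 1082 (by decide +kernel) ?_
    refine jn 1089 (by decide +kernel) ?_
    refine jn 1090 (by decide +kernel) ?_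
    refine jn 1097 (by decide +kernel) ?_
    refine jn 1109 (by decide +kernel) ?_
    refine jn 1117 (by decide +kernel) ?_
    refine jn 1122 (by decide +kernel) ?_
    refine jn 1135 (by decide +kernel) ?_
    refine jn 1146 (by decide +kernel) ?_
    refine jn 1153 (by decide +kernel) ?_
    refine jn 1154 (by decide +kernel) ?_
    refine jn 1161 (by decide +kernel) ?_
    refine jn 1173 (by decide +kernel) ?_
    refine jn 1181 (by decide +kernel) ?_
    refine jn 1194 (by decide +kernel) ?_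
    refine jn 1209 (by decide +kernel) ?_
    refine jn 1219 (by decide +kernel) ?_
    refine jn 1226 (by decide +kernel) ?_
    refine jn 1234 (by decide +kernel) ?_
    refine jn 1242 (by decide +kernel) ?_
    refine jn 1255 (by decide +kernel) ?_
    refine jn 1269 (by decide +kernel) ?_
    refine jn 1289 (by decide +kernel) ?_
    refine jn 1294 (by decide +kernel) ?_
    refine jn 1400 (by decide +kernel) ?_
    refine jn 1455 (by decide +kernel) ?_
    refine jn 1511 (by decide +kernel) ?_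
    refine jn 1567 (by decide +kernel) ?_
    refine jn 1604 (by decide +kernel) ?_
    refine jn 1613 (by decide +kernel) ?_
    refine jn 1626 (by decide +kernel) ?_
    refine jn 1632 (by decide +kernel) ?_
    refine jn 1640 (by decide +kernel) ?_
    refine jn 1661 (by decide +kernel) ?_
    refine jn 1668 (by decide +kernel) ?_
    refine jn 1669 (by decide +kernel) ?_
    refine jn 1689 (by decide +kernel) ?_
    refine jn 1698 (by decide +kernel) ?_
    refine jn 1709 (by decide +kernel) ?_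
    refine jn 1733 (by decide +kernel) ?_
    refine jn 1740 (by decide +kernel) ?_
    refine jn 1749 (by decide +kernel) ?_
    refine jn 1757 (by decide +kernel) ?_
    refine jn 1768 (by decide +kernel) ?_
    refine jn 1780 (by decide +kernel) ?_
    refine jn 1785 (by decide +kernel) ?_
    refine jn 1792 (by decide +kernel) ?_
    refine jn 1832 (by decide +kernel) ?_
    refine jn 1870 (by decide +kernel) ?_
    refine jn 1888 (by decide +kernel) ?_
    refine jn 1897 (by decide +kernel) ?_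
    refine jn 1909 (by decide +kernel) ?_
    refine jn 1953 (by decide +kernel) ?_
    refine jn 1985 (by decide +kernel) ?_
    refine jn 2006 (by decide +kernel) ?_
    refine jn 2052 (by decide +kernel) ?_
    refine jn 2086 (by decide +kernel) ?_
    refine jn 2114 (by decide +kernel) ?_
    refine jn 2238 (by decide +kernel) ?_
    refine jn 2270 (by decide +kernel) ?_
    refine jn 2297 (by decide +kernel) ?_
    refine jn 2337 (by decide +kernel) ?_
    refine jn 2373 (by decide +kernel) ?_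
    refine jn 2422 (by decide +kernel) ?_
    refine jn 2477 (by decide +kernel) ?_
    refine jn 2498 (by decide +kernel) ?_
    refine jn 2546 (by decide +kernel) ?_
    refine jn 2566 (by decide +kernel) ?_
    refine jn 2618 (by decide +kernel) ?_
    refine jn 2770 (by decide +kernel) ?_
    refine jn 2823 (by decide +kernel) ?_
    refine jn 2894 (by decide +kernel) ?_
    refine jn 2962 (by decide +kernel) ?_
    refine jn 3022 (by decide +kernel) ?_
    refine jn 3118 (by decide +kernel) ?_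
    refine jn 3202 (by decide +kernel) ?_
    refine jn 3255 (by decide +kernel) ?_
    refine jn 3388 (by decide +kernel) ?_
    refine jn 3448 (by decide +kernel) ?_
    refine jn 3528 (by decide +kernel) ?_
    refine jn 3599 (by decide +kernel) ?_
    refine jn 3672 (by decide +kernel) ?_
    refine jn 3747 (by decide +kernel) ?_
    refine jn 3829 (by decide +kernel) ?_
    refine jn 3928 (by decide +kernel) ?_
    refine jn 4003 (by decide +kernel) ?_
    refine jn 4084 (by decide +kernel) ?_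
    refine jn 4159 (by decide +kernel) ?_
    refine jn 4237 (by decide +kernel) ?_
    refine jn 4593 (by decide +kernel) ?_
    refine jn 4757 (by decide +kernel) ?_
    refine jn 4873 (by decide +kernel) ?_
    refine jn 5129 (by decide +kernel) ?_
    refine jn 5285 (by decide +kernel) ?_
    refine jn 5385 (by decide +kernel) ?_
    refine jn 5467 (by decide +kernel) ?_
    refine jn 5537 (by decide +kernel) ?_
    refine jn 5908 (by decide +kernel) ?_
    refine jn 6056 (by decide +kernel) ?_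
    refine jn 6162 (by decide +kernel) ?_
    refine jn 6545 (by decide +kernel) ?_
    refine jn 6700 (by decide +kernel) ?_
    refine jn 6841 (by decide +kernel) ?_
    exact je (by decide +kernel)

end Pool.Agent.MP_2339ce_nt.NR
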