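import Pool.Agent.MP_2339ce_nt.Q2.NC.L6
import Pool.Agent.MP_2339ce_nt.Q2.NC.L9
import Pool.Agent.MP_2339ce_nt.Q2.CkI

/-! Block NR: runs. -/

set_option autoImplicit false
set_option maxRecDepth 100000

noncomputable section

namespace Pool.Agent.MP_2339ce_nt.NR

open Q2.Top

def T112_0 : Ph :=
  (.na 428 38 (.na 261 23 (.na 143 17 (.na 85 15 (.na 55 13 (.nx 54 1321124 (.nr 53 623489 (.nr 1 8
  .s1 (.nx 4 96 (.nx 3 95 (.nr 2 90 (.lg 0 true 1 37 37 13 0 150480) (.l1 .sk)) (.l1 .sk)) (.nx 48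
  330282 (.nx 18 6503 (.nr 11 92683 (.lg 0 false 7 89 89 23 0 95760) (.nx 17 814 (.nr 13 220437
  (.lg 0 false 2 89 89 13 0 13680) (.nx 16 324 (.lg 0 false 3 83 83 19 0 13680) .out)) .out)) (.nr
  47 65537 (.nr 44 46342 (.nr 25 374 (.lg 0 true 7 73 79 23 0 95760) (.nx 43 165142 (.nr 32 27556
  (.lg 2 true 7 83 83 23 20974 95760) (.nx 42 104033 (.nx 39 65537 (.lg 0 true 7 97 107 23 0
  13693680) (.nr 41 32769 (.lg 0 true 2 97 101 13 0 150480) .out)) .out)) .out)) (.nx 46 26009 (.lg
  0 true 2 103 107 13 0 13693680) .out)) .out)) (.nr 52 65 (.lg 0 true 4 73 73 19 0 13680) .out))))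
  .out) .out) (.nx 84 1321124 (.nr 83 623489 (.nr 56 9 .s1 (.nx 58 95 (.nr 57 104 (.lg 0 false 1 29
  29 9 0 177840) (.l1 .sk)) (.nx 59 96 (.l1 .sk) (.nx 60 324 (.l1 (.ls 89 41 7369)) (.nr 82 220437
  (.nr 80 92683 (.nx 74 330282 (.nx 64 20644 (.lg 0 false 4 101 101 16 0 177840) (.nr 73 55110 (.nr
  68 766 (.lg 0 true 4 83 83 16 0 177840) (.nx 72 165142 (.lg 2 false 4 97 97 16 12068 177840)
  .out)) .out)) (.nr 79 65 (.lg 0 true 5 71 71 16 0 88920) .out)) (.nx 81 814 (.lg 0 true 1 89 89 9
  0 177840) .out)) .out))))) .out) .out)) (.na 114 16 (.nx 113 1321124 (.nr 112 623489 (.nr 86 12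
  .s1 (.nx 107 330282 (.nx 88 95 (.nr 87 111 (.lg 0 false 1 23 23 16 0 13680) (.l1 .sk)) (.nx 89 96
  (.l1 .sk) (.nx 97 20644 (.nx 90 324 (.l1 (.ls 83 43 6387)) (.nr 96 220437 (.nr 94 92683 (.lg 0
  false 4 97 97 16 0 13680) (.nx 95 814 (.lg 0 true 1 83 83 16 0 13680) .out)) .out)) (.nr 106
  55110 (.nr 101 766 (.lg 0 true 4 79 79 16 0 13680) (.nx 105 165142 (.lg 2 false 4 89 89 16 12068
  13680) .out)) .out)))) (.nr 111 65 (.lg 0 true 4 67 67 16 0 13680) .out))) .out) .out) (.nx 142
  1321124 (.nr 141 1048577 (.nr 115 13 .s1 (.nx 121 324 (.nx 117 95 (.nr 116 118 (.lg 0 true 1 31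
  31 11 0 13680) (.l1 .sk)) (.nx 118 96 (.l1 .sk) (.nx 119 205 (.l1 (.ls 97 37 2053)) (.nr 120
  623489 (.l1 (.ls 89 41 3937)) .out)))) (.nr 140 220437 (.nr 138 131073 (.nx 134 165142 (.nx 124
  8193 (.lg 0 false 3 89 97 13 0 13680) (.nr 133 65537 (.nr 127 1569 (.lg 0 true 3 83 83 13 0
  13680) (.nx 130 26009 (.lg 1 false 3 89 97 13 36151 13680) (.nr 132 46342 (.lg 2 false 2 89 97 13
  8057 13680) .out))) .out)) (.nr 137 183 (.lg 0 true 3 79 79 13 0 13680) .out)) (.nx 139 814 (.lg
  0 false 1 79 79 11 0 13680) .out)) .out))) .out) .out))) (.na 177 19 (.na 144 18 .ne (.nx 176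
  1321124 (.nr 175 1048577 (.nr 145 16 .s1 (.nx 159 10323 (.nx 147 95 (.nr 146 131 (.lg 0 false 1
  23 23 13 0 13680) (.l1 .sk)) (.nx 148 96 (.l1 .sk) (.nx 151 324 (.nx 149 205 (.l1 (.ls 83 41
  1825)) (.nr 150 623489 (.l1 (.ls 83 43 3500)) .out)) (.nr 158 220437 (.lg 0 false 7 89 97 19 0
  95760) .out)))) (.nr 174 55110 (.nr 166 498 (.lg 0 true 7 79 79 19 0 95760) (.nx 173 165142 (.lg
  2 false 7 83 89 19 24133 95760) .out)) .out))) .out) .out)) (.na 205 20 (.nx 204 1321124 (.nr 203
  1048577 (.nr 178 17 .s1 (.nx 190 10323 (.nx 180 95 (.nr 179 138 (.l1 (.ls 16 17 477)) (.l1 .sk))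
  (.nx 181 96 (.l1 .sk) (.nx 182 324 (.l1 (.ls 79 41 5043)) (.nr 189 220437 (.lg 0 false 7 83 83 16
  0 47880) .out)))) (.nr 202 55110 (.nr 197 498 (.lg 0 true 7 71 71 16 0 47880) (.nx 201 165142
  (.lg 2 true 4 83 83 11 24133 13680) .out)) .out))) .out) .out) (.na 232 22 (.nx 231 1321124 (.nr
  230 1048577 (.nr 206 18 .s1 (.nx 209 96 (.nx 208 95 (.nr 207 152 (.l1 (.ls 29 31 454)) (.l1 .sk))
  (.l1 .sk)) (.nx 212 324 (.nx 210 205 (.l1 (.ls 83 41 1643)) (.nr 211 623489 (.l1 (.ls 83 43
  3150)) .out)) (.nr 229 220437 (.nx 217 10323 (.nr 215 131073 (.lg 0 false 3 89 89 13 0 13680)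
  (.nx 216 814 (.lg 0 true 1 73 73 13 0 13680) .out)) (.nr 228 55110 (.nr 224 498 (.lg 0 true 7 79
  79 19 0 95760) (.nx 227 165142 (.lg 2 false 3 97 97 13 24133 95760) .out)) .out)) .out)))) .out)
  .out) (.nx 260 1321124 (.nr 259 1048577 (.nr 233 20 .s1 (.nx 235 95 (.nr 234 159 (.l1 (.ls 31 31
  413)) (.l1 .sk)) (.nx 236 96 (.l1 .sk) (.nx 237 205 (.l1 (.ls 89 41 1494)) (.nr 258 623489 (.nx
  238 324 (.l1 (.ls 83 43 2864)) (.nr 257 220437 (.nx 245 10323 (.lg 0 false 7 89 97 19 0 1053360)
  (.nr 256 55110 (.nr 252 498 (.lg 0 true 7 83 83 19 0 1053360) (.nx 255 165142 (.lg 2 false 3 97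
  97 13 24133 150480) .out)) .out)) .out)) .out))))) .out) .out))))) (.na 330 30 (.na 283 25 (.na
  262 24 .ne (.nx 282 1321124 (.nr 281 1048577 (.nr 263 22 .s1 (.nx 272 10323 (.nx 270 6503 (.nx
  265 95 (.nr 264 173 (.l1 (.ls 37 31 379)) (.l1 .sk)) (.nx 266 96 (.l1 .sk) (.nx 267 205 (.l1 (.ls
  97 41 1370)) (.nr 269 185365 (.lg 0 false 2 97 97 23 0 13680) .out)))) (.nr 271 92683 (.lg 1
  false 1 89 89 19 64385 13680) .out)) (.nr 280 55110 (.nx 277 165142 (.nr 273 513 (.lg 0 false 1
  79 79 19 0 13680) (.nx 276 82572 (.nx 274 26009 (.lg 1 false 1 97 97 19 24133 13680) (.nr 275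
  32769 (.lg 1 true 1 97 101 19 7646 13680) .out)) .out)) (.nr 279 183 (.lg 0 true 2 79 79 23 0
  13680) .out)) .out))) .out) .out)) (.na 284 26 (.lg 0 false 1 0 0 7 0 24) (.na 310 27 (.nx 309
  1321124 (.nr 308 1048577 (.nr 285 25 .s1 (.nx 288 96 (.nx 287 95 (.nr 286 187 (.l1 (.ls 29 31
  350)) (.l1 .sk)) (.l1 .sk)) (.nx 297 16385 (.nx 289 205 (.l1 (.ls 89 41 1264)) (.nr 296 185365
  (.lg 0 false 7 89 97 19 0 1244880) .out)) (.nr 307 38969 (.nr 304 513 (.lg 0 true 7 79 79 19 0
  1244880) (.nx 306 82572 (.lg 2 true 2 83 83 11 10759 177840) .out)) .out)))) .out) .out) (.nx 329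
  1321124 (.nr 328 1048577 (.nr 311 26 .s1 (.nx 315 205 (.nx 313 95 (.nr 312 208 (.l1 (.ls 23 23
  337)) (.l1 .sk)) (.nx 314 96 (.l1 .sk) (.l1 (.ls 83 31 1218)))) (.nr 327 185365 (.nx 319 16385
  (.lg 0 false 4 89 89 16 0 13680) (.nr 326 38969 (.nr 323 513 (.lg 0 true 4 73 73 16 0 13680) (.nx
  325 82572 (.lg 2 true 2 83 83 16 10759 13680) .out)) .out)) .out))) .out) .out)))) (.na 375 33
  (.na 356 32 (.nx 355 1321124 (.nr 354 1048577 (.nr 331 29 .s1 (.nx 333 95 (.nr 332 221 (.l1 (.ls
  29 37 303)) (.l1 .sk)) (.nx 334 96 (.l1 .sk) (.nx 335 205 (.l1 (.ls 83 41 1096)) (.nr 353 185365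
  (.nx 342 16385 (.lg 0 false 7 83 89 29 0 95760) (.nr 352 38969 (.nr 349 513 (.lg 0 true 7 73 73
  29 0 95760) (.nx 351 82572 (.lg 2 false 2 79 79 19 10759 13680) .out)) .out)) .out))))) .out)
  .out) (.nx 374 1321124 (.nr 373 1048577 (.nr 357 31 .s1 (.nx 360 96 (.nx 359 95 (.nr 358 228 (.l1
  (.ls 31 23 285)) (.l1 .sk)) (.l1 .sk)) (.nx 361 205 (.l1 (.ls 89 31 1028)) (.nr 372 370729 (.nx
  364 6503 (.lg 0 false 3 89 89 19 0 13680) (.nr 371 92683 (.nx 365 16385 (.lg 1 true 1 89 89 13
  64385 13680) (.nr 370 38969 (.nr 368 513 (.lg 0 true 3 79 79 19 0 13680) (.nx 369 82572 (.lg 1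
  false 1 97 97 13 10759 150480) .out)) .out)) .out)) .out)))) .out) .out)) (.na 394 36 (.nx 393
  1321124 (.nr 392 370729 (.nr 376 32 .s1 (.nx 378 95 (.nr 377 249 (.l1 (.ls 31 23 276)) (.l1 .sk))
  (.nx 379 96 (.l1 .sk) (.nx 383 6503 (.lg 0 false 4 89 97 19 0 150480) (.nr 391 77937 (.nr 389
  23172 (.nr 387 249 (.lg 0 true 4 73 73 19 0 150480) (.nx 388 82572 (.lg 2 true 1 89 89 16 16147
  75240) .out)) (.nx 390 13005 (.lg 0 true 1 89 89 16 0 75240) .out)) .out))))) .out) .out) (.na
  411 37 (.nx 410 1321124 (.nr 409 370729 (.nr 395 35 .s1 (.nx 398 96 (.nx 397 95 (.nr 396 256 (.l1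
  (.ls 31 31 253)) (.l1 .sk)) (.l1 .sk)) (.nx 401 6503 (.lg 0 false 3 89 89 23 0 13680) (.nr 408
  77937 (.nr 404 256 (.lg 0 true 3 73 73 23 0 13680) (.nx 407 82572 (.nr 405 23172 (.lg 2 true 1 83
  83 19 16147 13680) (.nx 406 13005 (.lg 0 true 1 89 89 19 0 13680) .out)) .out)) .out)))) .out)
  .out) (.nx 427 1321124 (.nr 426 370729 (.nr 412 36 .s1 (.nx 419 13005 (.nx 414 95 (.nr 413 263
  (.l1 (.ls 23 17 246)) (.l1 .sk)) (.nx 415 96 (.l1 .sk) (.lg 0 false 4 97 97 16 0 13680))) (.nr
  425 23172 (.nr 423 263 (.lg 0 true 4 71 71 16 0 13680) (.nx 424 82572 (.lg 2 true 1 83 83 16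
  14914 6840) .out)) .out))) .out) .out)))))) (.na 565 54 (.na 518 46 (.na 468 40 (.na 449 39 (.nx
  448 1321124 (.nr 447 370729 (.nr 429 37 .s1 (.nx 432 96 (.nx 431 95 (.nr 430 270 (.lg 0 false 1 0
  16 13 0 1956240) (.l1 .sk)) (.l1 .sk)) (.nx 439 13005 (.lg 0 false 7 83 83 13 0 95760) (.nr 446
  23172 (.nr 443 270 (.lg 0 true 4 61 61 13 0 13680) (.nx 445 82572 (.lg 2 true 2 71 71 13 14527
  13680) .out)) .out)))) .out) .out) (.nx 467 1321124 (.nr 466 370729 (.nr 450 38 .s1 (.nx 457 6503
  (.nx 452 95 (.nr 451 277 (.l1 (.ls 31 23 234)) (.l1 .sk)) (.nx 453 96 (.l1 .sk) (.lg 0 false 4 83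
  89 19 0 177840))) (.nr 465 77937 (.nr 461 277 (.lg 0 true 4 73 73 19 0 177840) (.nx 464 82572
  (.nr 462 23172 (.lg 2 true 1 83 83 17 16147 88920) (.nx 463 13005 (.lg 0 false 1 83 83 17 0
  88920) .out)) .out)) .out))) .out) .out)) (.na 485 44 (.nx 484 1321124 (.nr 483 370729 (.nr 469
  39 .s1 (.nx 472 96 (.nx 471 95 (.nr 470 304 (.l1 (.ls 31 29 228)) (.l1 .sk)) (.l1 .sk)) (.nx 475
  6503 (.lg 0 false 3 89 89 23 0 13680) (.nr 482 77937 (.nr 480 23172 (.nr 478 217 (.lg 0 true 3 71
  71 23 0 13680) (.nx 479 82572 (.lg 2 true 1 83 83 19 18075 13680) .out)) (.nx 481 13005 (.lg 0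
  false 1 83 83 19 0 13680) .out)) .out)))) .out) .out) (.na 502 45 (.nx 501 1321124 (.nr 500
  370729 (.nr 486 43 .s1 (.nx 489 96 (.nx 488 95 (.nr 487 311 (.l1 (.ls 31 29 208)) (.l1 .sk)) (.l1
  .sk)) (.nx 492 6503 (.lg 0 false 3 89 89 23 0 150480) (.nr 499 77937 (.nr 495 217 (.lg 0 true 3
  73 73 23 0 150480) (.nx 498 82572 (.nr 496 23172 (.lg 2 true 1 89 89 19 18075 150480) (.nx 497
  13005 (.lg 0 true 1 89 89 19 0 150480) .out)) .out)) .out)))) .out) .out) (.nx 517 1321124 (.nr
  516 370729 (.nr 503 44 .s1 (.nx 505 95 (.nr 504 318 (.l1 (.ls 23 23 203)) (.l1 .sk)) (.nx 506 96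
  (.l1 .sk) (.nx 510 13005 (.lg 0 false 4 83 83 19 0 13680) (.nr 515 23172 (.nr 513 318 (.lg 0 true
  3 67 67 17 0 6840) (.nx 514 82572 (.lg 2 true 1 73 73 16 12334 6840) .out)) .out))))) .out)
  .out)))) (.na 534 50 (.na 519 48 .ne (.nx 533 1321124 (.nr 532 311745 (.nr 520 48 .s1 (.nx 529
  82572 (.nx 523 96 (.nx 522 95 (.nr 521 346 (.l1 (.ls 41 29 191)) (.l1 .sk)) (.l1 .sk)) (.nr 527
  46342 (.nx 525 20644 (.lg 0 true 2 83 83 29 0 13680) (.nr 526 13779 (.lg 0 true 1 97 97 23 0
  13680) .out)) (.nx 528 8193 (.lg 0 false 1 101 101 23 0 13680) .out))) (.nr 531 217 (.lg 0 true 2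
  73 79 29 0 13680) .out))) .out) .out)) (.na 535 52 (.lg 0 false 1 0 0 16 0 24) (.na 549 53 (.nx
  548 1321124 (.nr 547 311745 (.nr 536 52 .s1 (.nx 539 96 (.nx 538 95 (.nr 537 367 (.l1 (.ls 31 29
  176)) (.l1 .sk)) (.l1 .sk)) (.nx 541 10323 (.lg 0 false 2 97 97 23 0 177840) (.nr 546 23172 (.nr
  544 367 (.lg 0 true 3 73 73 23 0 177840) (.nx 545 82572 (.lg 2 true 1 79 79 19 10688 177840)
  .out)) .out)))) .out) .out) (.nx 564 1321124 (.nr 563 311745 (.nr 550 53 .s1 (.nx 557 10323 (.nx
  552 95 (.nr 551 374 (.l1 (.ls 23 17 173)) (.l1 .sk)) (.nx 553 96 (.l1 .sk) (.lg 0 false 4 83 83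
  16 0 13680))) (.nr 562 23172 (.nr 560 374 (.lg 0 true 3 71 71 16 0 6840) (.nx 561 82572 (.lg 2
  true 1 73 73 16 10488 6840) .out)) .out))) .out) .out))))) (.na 638 64 (.na 594 57 (.na 579 55
  (.nx 578 1321124 (.nr 577 311745 (.nr 566 54 .s1 (.nx 571 10323 (.nx 568 95 (.nr 567 380 (.l1
  (.ls 23 29 170)) (.l1 .sk)) (.nx 569 96 (.l1 .sk) (.lg 0 true 2 83 83 19 0 13680))) (.nr 576
  23172 (.nr 574 380 (.lg 0 true 3 71 71 23 0 13680) (.nx 575 82572 (.lg 2 true 1 73 73 19 10322
  13680) .out)) .out))) .out) .out) (.nx 593 1321124 (.nr 592 311745 (.nr 580 55 .s1 (.nx 583 96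
  (.nx 582 95 (.nr 581 394 (.l1 (.ls 29 19 167)) (.l1 .sk)) (.l1 .sk)) (.nx 586 10323 (.lg 0 false
  3 83 83 17 0 75240) (.nr 591 23172 (.nr 589 394 (.lg 0 true 3 67 67 17 0 75240) (.nx 590 82572
  (.lg 2 true 1 73 73 16 10172 75240) .out)) .out)))) .out) .out)) (.na 610 60 (.nx 609 1321124
  (.nr 608 311745 (.nr 595 57 .s1 (.nx 598 96 (.nx 597 95 (.nr 596 415 (.l1 (.ls 23 17 161)) (.l1
  .sk)) (.l1 .sk)) (.nx 602 10323 (.lg 0 false 4 79 79 17 0 13680) (.nr 607 23172 (.nr 605 415 (.lg
  0 true 3 67 67 17 0 6840) (.nx 606 82572 (.lg 2 true 1 71 71 16 10172 6840) .out)) .out)))) .out)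
  .out) (.na 623 61 (.nx 622 1321124 (.nr 621 311745 (.nr 611 60 .s1 (.nx 613 95 (.nr 612 422 (.l1
  (.ls 29 31 153)) (.l1 .sk)) (.nx 614 96 (.l1 .sk) (.nx 616 10323 (.lg 0 false 2 89 89 29 0 13680)
  (.nr 620 23172 (.nr 618 422 (.lg 0 true 2 71 71 29 0 13680) (.nx 619 82572 (.lg 2 true 1 73 73 23
  10172 13680) .out)) .out))))) .out) .out) (.nx 637 1321124 (.nr 636 311745 (.nr 624 61 .s1 (.nx
  630 10323 (.nx 626 95 (.nr 625 443 (.l1 (.ls 23 16 150)) (.l1 .sk)) (.nx 627 96 (.l1 .sk) (.lg 0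
  false 3 83 83 16 0 6840))) (.nr 635 23172 (.nr 633 443 (.lg 0 true 3 71 71 16 0 6840) (.nx 634
  82572 (.lg 2 true 1 73 73 16 10172 6840) .out)) .out))) .out) .out)))) (.na 668 66 (.na 652 65
  (.nx 651 1321124 (.nr 650 524289 (.nr 639 64 .s1 (.nx 645 10323 (.nx 641 95 (.nr 640 450 (.l1
  (.ls 31 23 144)) (.l1 .sk)) (.nx 642 96 (.l1 .sk) (.lg 0 false 3 89 89 23 0 13680))) (.nr 649
  23172 (.nr 647 513 (.lg 0 true 2 73 73 19 0 13680) (.nx 648 82572 (.lg 2 true 1 73 73 17 10172
  13680) .out)) .out))) .out) .out) (.nx 667 1321124 (.nr 666 524289 (.nr 653 65 .s1 (.nx 660 8193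
  (.nx 655 95 (.nr 654 456 (.l1 (.ls 29 19 141)) (.l1 .sk)) (.nx 656 96 (.l1 .sk) (.lg 0 false 4 83
  83 19 0 177840))) (.nr 665 8193 (.nr 663 513 (.lg 0 true 3 71 71 17 0 88920) (.nx 664 82572 (.lg
  2 true 1 67 67 16 7646 88920) .out)) .out))) .out) .out)) (.na 681 67 (.nx 680 1321124 (.nr 679
  524289 (.nr 669 66 .s1 (.nx 672 96 (.nx 671 95 (.nr 670 463 (.l1 (.ls 31 31 139)) (.l1 .sk)) (.l1
  .sk)) (.nx 674 8193 (.lg 0 false 2 97 97 29 0 150480) (.nr 678 8193 (.nr 676 513 (.lg 0 true 2 73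
  73 29 0 150480) (.nx 677 82572 (.lg 2 true 1 71 71 29 7646 150480) .out)) .out)))) .out) .out)
  (.na 697 72 (.nx 696 1321124 (.nr 695 524289 (.nr 682 67 .s1 (.nx 684 95 (.nr 683 498 (.l1 (.ls
  23 16 137)) (.l1 .sk)) (.nx 685 96 (.l1 .sk) (.nx 689 8193 (.lg 0 false 4 83 83 16 0 13680) (.nr
  694 8193 (.nr 692 513 (.lg 0 true 3 71 71 16 0 6840) (.nx 693 82572 (.lg 2 false 1 67 67 16 7646
  6840) .out)) .out))))) .out) .out) (.nx 707 1321124 (.nr 706 524289 (.nr 698 72 .s1 (.nx 704
  82572 (.nx 700 95 (.nr 699 512 (.l1 (.ls 37 29 128)) (.l1 .sk)) (.nx 701 96 (.l1 .sk) (.nr 702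
  8193 (.lg 0 true 1 83 83 29 0 13680) (.nx 703 8193 (.lg 0 false 1 97 97 29 0 13680) .out)))) (.nr
  705 513 (.lg 0 true 1 79 79 29 0 13680) .out))) .out) .out)))))))

def T112_1 : Ph :=
  (.na 448 3 (.na 447 2 (.nx 446 2097153 (.nr 445 881745 (.nx 3 205 (.nx 2 204 (.nr 1 15 (.lg 0
  false 1 43 43 5 0 408) (.l1 .sk)) (.l1 .sk)) (.nx 126 32769 (.nr 80 131073 (.lg 0 false 77 103
  109 16 0 12252240) (.nx 125 8193 (.nr 108 311745 (.nx 93 324 (.lg 0 false 13 79 79 9 0 5304) (.nx
  94 4096 .out (.nr 107 155873 (.lg 0 false 13 97 101 9 0 79560) .out))) (.nx 124 257 (.lg 0 false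
  16 79 79 9 0 816) .out)) .out)) (.nr 444 110219 (.nx 408 1048577 (.nr 216 1724 (.nr 203 901 (.lg
  0 true 77 89 101 16 0 471240) (.lg 2 true 13 97 97 9 118707 79560)) (.nx 407 832257 (.nx 293
  52017 (.lg 1 false 77 101 109 16 70119 12252240) (.nr 406 77937 (.nr 306 3160 (.lg 2 true 13 97
  97 9 49241 79560) (.nr 334 27556 (.nr 317 5794 (.lg 2 true 11 97 101 9 26864 67320) (.nx 333
  660563 (.lg 2 false 16 103 107 9 11629 12252240) .out)) (.nx 405 524289 (.nr 369 55110 (.lg 2
  false 35 103 109 13 22128 12252240) (.nx 404 208065 (.lg 2 true 35 103 109 13 31259 12252240)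
  .out)) .out))) .out)) .out)) (.nr 443 129 (.lg 0 true 35 83 89 13 0 42840) .out)) .out))) .out)
  .out) .ne) (.na 693 4 (.nx 692 6658044 (.nr 691 1482912 (.nx 651 1321124 (.nx 637 660563 (.nx 450
  204 (.nr 449 38 (.lg 0 false 1 41 41 5 0 6120) (.l1 .sk)) (.nx 451 205 (.l1 .sk) (.nx 503 32768
  (.nr 486 185365 (.lg 0 false 35 103 109 16 0 12252240) (.nx 502 324 (.lg 0 false 16 79 79 16 0
  2448) .out)) (.nr 636 220437 (.nr 519 748 (.lg 0 true 16 89 89 16 0 12240) (.nx 635 524289 (.nr
  526 3167 (.lg 2 true 7 89 89 7 71494 42840) (.nr 533 13397 (.lg 2 true 7 97 97 7 16886 42840)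
  (.nx 627 208065 (.nx 613 165142 (.nx 559 52017 (.lg 1 false 26 101 109 16 140112 12252240) (.nr
  612 185365 (.nx 598 131073 (.nx 572 70783 (.lg 1 false 13 103 107 13 74233 12252240) (.nx 585
  96321 (.lg 1 false 13 103 107 13 54552 12252240) (.lg 1 false 13 103 107 13 40089 12252240)))
  (.nr 611 155873 (.lg 1 true 13 103 107 13 24778 12252240) .out)) .out)) (.nr 626 92683 (.lg 1
  true 13 101 103 13 11704 12252240) .out)) (.nr 634 38969 (.lg 2 false 7 89 89 7 3992 42840)
  .out)))) .out)) .out)))) (.nr 650 129 (.lg 0 true 13 79 79 13 0 15912) .out)) (.nr 690 33 (.lg 0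
  true 39 79 79 7 0 15912) .out)) .out) .out) (.nx 910 16777217 (.nr 909 1246976 (.nx 695 204 (.nr
  694 49 (.lg 0 true 1 41 41 9 0 816) (.l1 .sk)) (.nx 696 205 (.l1 .sk) (.nx 721 16384 (.nr 709
  155873 (.lg 0 false 13 103 109 13 0 12252240) (.nx 720 324 (.lg 0 false 11 83 83 13 0 8976)
  .out)) (.nr 908 220437 (.nx 735 30501 (.nr 734 185365 (.lg 0 false 13 103 109 13 0 12252240)
  .out) (.nx 843 524289 (.nr 758 11603 (.nr 753 2909 (.nr 746 729 (.lg 0 true 11 89 89 13 0 8976)
  (.lg 2 true 7 89 97 11 73358 85680)) (.lg 2 true 5 97 101 11 18384 85680)) (.nx 798 92682 (.nx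
  785 65536 (.nr 784 185365 (.nx 771 44709 (.lg 1 false 13 103 107 13 126599 12252240) (.lg 1 false
  13 103 107 13 86367 12252240)) .out) (.lg 1 false 13 103 109 13 70056 12252240)) (.nx 835 208065
  (.nx 811 131073 (.lg 1 false 13 103 109 13 49537 12252240) (.nr 834 155873 (.nx 822 165142 (.lg 1
  true 11 103 109 13 24778 12252240) (.nr 833 131073 (.lg 1 true 11 101 107 13 16542 12252240)
  .out)) .out)) (.nr 842 55110 (.lg 2 false 7 97 101 11 5532 85680) .out)))) (.nr 907 183 (.nr 895
  32 (.lg 0 true 52 83 83 13 0 10608) (.nx 906 2097153 (.lg 0 true 11 83 83 13 0 8976) .out))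
  .out))) .out)))) .out) .out)))

def T112_2 : Ph :=
  (.na 447 8 (.na 328 3 (.na 176 2 (.nx 175 1321124 (.nr 174 311745 (.nx 3 128 (.nx 2 127 (.nr 1 12
  (.lg 0 false 1 43 43 5 0 91440) (.l1 .sk)) (.l1 .sk)) (.nx 149 660563 (.nx 58 16385 (.nr 31 38969
  (.lg 0 false 28 97 101 11 0 640080) (.nx 57 6503 (.nx 43 205 (.lg 0 false 12 79 79 9 0 18288)
  (.nx 44 1290 .out (.nr 56 46342 (.lg 0 false 12 83 89 9 0 91440) .out))) .out)) (.nr 148 27556
  (.nr 119 1219 (.nx 97 330282 (.nr 86 432 (.lg 0 true 28 83 83 11 0 42672) (.lg 2 true 11 89 89 9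
  48549 335280)) (.nr 118 109 (.lg 0 true 21 79 79 11 0 64008) .out)) (.nx 147 208065 (.lg 2 false
  28 101 107 11 13626 91531440) .out)) .out)) (.nr 173 13 (.lg 0 true 24 71 71 9 0 18288) .out)))
  .out) .out) (.nx 327 3329023 (.nr 326 623489 (.nx 178 127 (.nr 177 22 (.lg 0 true 1 31 31 5 0
  6096) (.l1 .sk)) (.nx 179 128 (.l1 .sk) (.nr 310 77937 (.nx 220 20644 (.nr 214 65537 (.lg 0 false
  35 89 97 13 0 2346960) (.nx 219 1292 (.lg 0 false 5 73 73 9 0 30480) .out)) (.nr 309 46342 (.nx
  290 1321124 (.nr 255 257 (.lg 0 true 35 79 79 13 0 213360) (.nx 289 165142 (.nr 264 2276 (.lg 2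
  true 9 83 83 9 40804 18288) (.nx 279 41287 (.lg 1 true 15 89 97 9 18154 1005840) (.nr 288 32769
  (.lg 2 false 9 89 89 9 6426 201168) .out))) .out)) (.nr 308 9 (.lg 0 true 18 67 67 9 0 18288)
  .out)) .out)) (.nx 325 205 (.lg 0 false 15 73 73 9 0 91440) .out)))) .out) .out)) (.na 329 4 .ne
  (.na 446 5 (.nx 445 10568985 (.nr 444 1246976 (.nx 410 1321124 (.nx 332 128 (.nx 331 127 (.nr 330
  39 (.lg 0 true 1 31 31 9 0 30480) (.l1 .sk)) (.l1 .sk)) (.nx 398 330282 (.nr 388 155873 (.nr 380
  65537 (.nx 345 20642 (.lg 0 false 13 89 97 13 0 396240) (.nr 361 2635 (.nr 356 694 (.lg 0 true 11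
  79 83 13 0 335280) (.lg 2 true 5 79 83 11 30221 213360)) (.nx 370 41287 (.lg 1 false 9 97 103 13
  25655 7040880) (.nr 379 55110 (.lg 2 false 9 89 101 13 10790 640080) .out)))) (.nx 387 1292 (.lg
  0 false 7 79 83 11 0 213360) .out)) (.nx 397 205 (.lg 0 false 9 73 73 13 0 18288) .out)) (.nr 409
  183 (.lg 0 true 11 79 79 13 0 67056) .out))) (.nr 443 21 (.lg 0 true 33 79 79 11 0 201168) .out))
  .out) .out) .ne))) (.na 539 12 (.na 505 9 (.nx 504 10568985 (.nr 503 623489 (.nx 450 128 (.nx 449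
  127 (.nr 448 71 (.lg 0 false 1 31 31 11 0 18288) (.l1 .sk)) (.l1 .sk)) (.nr 497 77937 (.nx 455
  15498 (.lg 0 false 5 89 89 13 0 30480) (.nr 496 65537 (.nx 480 1321124 (.nx 474 660563 (.nr 460
  364 (.lg 0 true 5 73 73 13 0 30480) (.nx 473 208065 (.nr 462 1316 (.lg 2 true 2 73 73 11 36298
  6096) (.nx 467 41287 (.lg 1 false 5 101 107 13 34170 91531440) (.nr 472 46342 (.lg 2 false 5 97
  103 13 10040 91531440) .out))) .out)) (.nr 479 109 (.lg 0 true 5 73 73 13 0 30480) .out)) (.nr
  495 55 (.lg 0 true 15 79 79 13 0 91440) .out)) .out)) (.nx 502 814 (.lg 0 false 5 83 89 13 0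
  91440) .out))) .out) .out) (.na 506 11 .ne (.nx 538 1321124 (.nr 537 623489 (.nx 508 127 (.nr 507
  96 (.lg 0 false 1 29 29 9 0 335280) (.l1 .sk)) (.nx 509 128 (.l1 .sk) (.nr 532 77937 (.nx 526
  330282 (.nx 516 26009 (.lg 0 false 7 89 97 16 0 2346960) (.nr 525 46342 (.nr 520 766 (.lg 0 true
  4 73 73 16 0 67056) (.nx 524 165142 (.lg 2 false 4 89 89 16 14409 2346960) .out)) .out)) (.nr 531
  65 (.lg 0 true 5 67 67 16 0 167640) .out)) (.nx 536 814 (.lg 0 false 4 79 79 16 0 67056) .out))))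
  .out) .out))) (.na 540 13 .ne (.na 574 16 (.nx 573 1321124 (.nr 572 623489 (.nr 541 7 .s1 (.nx
  545 324 (.nx 543 127 (.nr 542 128 (.lg 0 true 1 23 23 9 0 871728) (.l1 .sk)) (.nx 544 128 (.l1
  .sk) (.l1 (.ls 79 41 6817)))) (.nr 571 220437 (.nx 565 330282 (.nr 561 92683 (.nx 550 26009 (.lg
  0 false 5 97 97 16 0 4358640) (.nr 560 46342 (.nr 555 766 (.lg 0 true 5 73 73 16 0 198120) (.nx
  559 165142 (.lg 2 false 4 83 83 16 14409 79248) .out)) .out)) (.nx 564 814 (.lg 0 false 3 71 71
  11 0 118872) .out)) (.nr 570 65 (.lg 0 true 5 61 61 16 0 198120) .out)) .out))) .out) .out) (.nx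
  606 1321124 (.nr 605 1048577 (.nr 575 12 .s1 (.nx 579 205 (.nx 577 127 (.nr 576 136 (.lg 0 true 1
  29 29 11 0 30480) (.l1 .sk)) (.nx 578 128 (.l1 .sk) (.l1 (.ls 83 37 1605)))) (.nr 604 623489 (.nx
  600 165142 (.nx 580 324 (.l1 (.ls 79 41 3937)) (.nr 599 220437 (.nr 597 131073 (.nx 591 26009
  (.nr 587 65537 (.lg 0 false 7 83 89 19 0 213360) (.nx 590 8193 (.lg 0 false 3 83 89 13 0 91440)
  .out)) (.nr 596 46342 (.nr 594 766 (.lg 0 true 3 73 73 13 0 91440) (.lg 2 false 2 83 89 13 14409
  30480)) .out)) (.nx 598 814 (.lg 0 false 1 71 71 11 0 6096) .out)) .out)) (.nr 603 183 (.lg 0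
  true 3 73 73 13 0 18288) .out)) .out))) .out) .out)))))

theorem c112 :
    OkQ ckI L6 95 12 74 0 34359738368 1 1099511627776 ∧
    OkQ ckI L9 204 1 5 0 34359738368 1 1099511627776 ∧
    OkQ ckI L6 127 1 17 0 34359738368 1 1099511627776 := by
  refine ⟨?_, ?_, ?_⟩
  · refine fin 6840 708 T112_0 ?_
    refine jn 4 (by decide +kernel) ?_
    refine jn 5 (by decide +kernel) ?_
    refine jn 6 (by decide +kernel) ?_
    refine jn 7 (by decide +kernel) ?_
    refine jn 8 (by decide +kernel) ?_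
    refine jn 9 (by decide +kernel) ?_
    refine jn 10 (by decide +kernel) ?_
    refine jn 11 (by decide +kernel) ?_
    refine jn 16 (by decide +kernel) ?_
    refine jn 18 (by decide +kernel) ?_
    refine jn 19 (by decide +kernel) ?_
    refine jn 20 (by decide +kernel) ?_
    refine jn 21 (by decide +kernel) ?_
    refine jn 22 (by decide +kernel) ?_
    refine jn 23 (by decide +kernel) ?_
    refine jn 24 (by decide +kernel) ?_
    refine jn 25 (by decide +kernel) ?_
    refine jn 26 (by decide +kernel) ?_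
    refine jn 27 (by decide +kernel) ?_
    refine jn 28 (by decide +kernel) ?_
    refine jn 29 (by decide +kernel) ?_
    refine jn 30 (by decide +kernel) ?_
    refine jn 31 (by decide +kernel) ?_
    refine jn 32 (by decide +kernel) ?_
    refine jn 38 (by decide +kernel) ?_
    refine jn 41 (by decide +kernel) ?_
    refine jn 49 (by decide +kernel) ?_
    refine jn 51 (by decide +kernel) ?_
    refine jn 57 (by decide +kernel) ?_
    refine jn 60 (by decide +kernel) ?_
    refine jn 62 (by decide +kernel) ?_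
    refine jn 64 (by decide +kernel) ?_
    refine jn 67 (by decide +kernel) ?_
    refine jn 72 (by decide +kernel) ?_
    refine jn 79 (by decide +kernel) ?_
    refine jn 89 (by decide +kernel) ?_
    refine jn 90 (by decide +kernel) ?_
    refine jn 92 (by decide +kernel) ?_
    refine jn 94 (by decide +kernel) ?_
    refine jn 97 (by decide +kernel) ?_
    refine jn 101 (by decide +kernel) ?_
    refine jn 111 (by decide +kernel) ?_
    refine jn 118 (by decide +kernel) ?_
    refine jn 119 (by decide +kernel) ?_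
    refine jn 120 (by decide +kernel) ?_
    refine jn 121 (by decide +kernel) ?_
    refine jn 122 (by decide +kernel) ?_
    refine jn 123 (by decide +kernel) ?_
    refine jn 124 (by decide +kernel) ?_
    refine jn 125 (by decide +kernel) ?_
    refine jn 126 (by decide +kernel) ?_
    refine jn 127 (by decide +kernel) ?_
    refine jn 130 (by decide +kernel) ?_
    refine jn 132 (by decide +kernel) ?_
    refine jn 135 (by decide +kernel) ?_
    refine jn 136 (by decide +kernel) ?_
    refine jn 137 (by decide +kernel) ?_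
    refine jn 149 (by decide +kernel) ?_
    refine jn 155 (by decide +kernel) ?_
    refine jn 161 (by decide +kernel) ?_
    refine jn 166 (by decide +kernel) ?_
    refine jn 173 (by decide +kernel) ?_
    refine jn 189 (by decide +kernel) ?_
    refine jn 201 (by decide +kernel) ?_
    refine jn 212 (by decide +kernel) ?_
    refine jn 215 (by decide +kernel) ?_
    refine jn 222 (by decide +kernel) ?_
    refine jn 227 (by decide +kernel) ?_
    refine jn 238 (by decide +kernel) ?_
    refine jn 245 (by decide +kernel) ?_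
    refine jn 252 (by decide +kernel) ?_
    refine jn 263 (by decide +kernel) ?_
    refine jn 266 (by decide +kernel) ?_
    refine jn 267 (by decide +kernel) ?_
    refine jn 268 (by decide +kernel) ?_
    refine jn 269 (by decide +kernel) ?_
    refine jn 270 (by decide +kernel) ?_
    refine jn 271 (by decide +kernel) ?_
    refine jn 272 (by decide +kernel) ?_
    refine jn 273 (by decide +kernel) ?_
    refine jn 274 (by decide +kernel) ?_
    refine jn 275 (by decide +kernel) ?_
    refine jn 277 (by decide +kernel) ?_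
    refine jn 278 (by decide +kernel) ?_
    refine jn 279 (by decide +kernel) ?_
    refine jn 289 (by decide +kernel) ?_
    refine jn 296 (by decide +kernel) ?_
    refine jn 304 (by decide +kernel) ?_
    refine jn 315 (by decide +kernel) ?_
    refine jn 319 (by decide +kernel) ?_
    refine jn 323 (by decide +kernel) ?_
    refine jn 335 (by decide +kernel) ?_
    refine jn 342 (by decide +kernel) ?_
    refine jn 349 (by decide +kernel) ?_
    refine jn 360 (by decide +kernel) ?_
    refine jn 361 (by decide +kernel) ?_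
    refine jn 362 (by decide +kernel) ?_
    refine jn 363 (by decide +kernel) ?_
    refine jn 364 (by decide +kernel) ?_
    refine jn 365 (by decide +kernel) ?_
    refine jn 366 (by decide +kernel) ?_
    refine jn 368 (by decide +kernel) ?_
    refine jn 379 (by decide +kernel) ?_
    refine jn 380 (by decide +kernel) ?_
    refine jn 381 (by decide +kernel) ?_
    refine jn 382 (by decide +kernel) ?_
    refine jn 383 (by decide +kernel) ?_
    refine jn 385 (by decide +kernel) ?_
    refine jn 386 (by decide +kernel) ?_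
    refine jn 387 (by decide +kernel) ?_
    refine jn 388 (by decide +kernel) ?_
    refine jn 398 (by decide +kernel) ?_
    refine jn 399 (by decide +kernel) ?_
    refine jn 400 (by decide +kernel) ?_
    refine jn 401 (by decide +kernel) ?_
    refine jn 402 (by decide +kernel) ?_
    refine jn 403 (by decide +kernel) ?_
    refine jn 404 (by decide +kernel) ?_
    refine jn 406 (by decide +kernel) ?_
    refine jn 419 (by decide +kernel) ?_
    refine jn 424 (by decide +kernel) ?_
    refine jn 445 (by decide +kernel) ?_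
    refine jn 454 (by decide +kernel) ?_
    refine jn 456 (by decide +kernel) ?_
    refine jn 457 (by decide +kernel) ?_
    refine jn 459 (by decide +kernel) ?_
    refine jn 461 (by decide +kernel) ?_
    refine jn 463 (by decide +kernel) ?_
    refine jn 472 (by decide +kernel) ?_
    refine jn 473 (by decide +kernel) ?_
    refine jn 474 (by decide +kernel) ?_
    refine jn 475 (by decide +kernel) ?_
    refine jn 477 (by decide +kernel) ?_
    refine jn 478 (by decide +kernel) ?_
    refine jn 479 (by decide +kernel) ?_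
    refine jn 489 (by decide +kernel) ?_
    refine jn 491 (by decide +kernel) ?_
    refine jn 492 (by decide +kernel) ?_
    refine jn 494 (by decide +kernel) ?_
    refine jn 495 (by decide +kernel) ?_
    refine jn 497 (by decide +kernel) ?_
    refine jn 510 (by decide +kernel) ?_
    refine jn 514 (by decide +kernel) ?_
    refine jn 523 (by decide +kernel) ?_
    refine jn 524 (by decide +kernel) ?_
    refine jn 525 (by decide +kernel) ?_
    refine jn 526 (by decide +kernel) ?_
    refine jn 529 (by decide +kernel) ?_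
    refine jn 530 (by decide +kernel) ?_
    refine jn 531 (by decide +kernel) ?_
    refine jn 539 (by decide +kernel) ?_
    refine jn 540 (by decide +kernel) ?_
    refine jn 541 (by decide +kernel) ?_
    refine jn 544 (by decide +kernel) ?_
    refine jn 553 (by decide +kernel) ?_
    refine jn 560 (by decide +kernel) ?_
    refine jn 571 (by decide +kernel) ?_
    refine jn 575 (by decide +kernel) ?_
    refine jn 589 (by decide +kernel) ?_
    refine jn 602 (by decide +kernel) ?_
    refine jn 611 (by decide +kernel) ?_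
    refine jn 616 (by decide +kernel) ?_
    refine jn 618 (by decide +kernel) ?_
    refine jn 630 (by decide +kernel) ?_
    refine jn 639 (by decide +kernel) ?_
    refine jn 642 (by decide +kernel) ?_
    refine jn 645 (by decide +kernel) ?_
    refine jn 647 (by decide +kernel) ?_
    refine jn 660 (by decide +kernel) ?_
    refine jn 670 (by decide +kernel) ?_
    refine jn 674 (by decide +kernel) ?_
    refine jn 676 (by decide +kernel) ?_
    refine jn 689 (by decide +kernel) ?_
    refine jn 698 (by decide +kernel) ?_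
    refine jn 701 (by decide +kernel) ?_
    refine jn 702 (by decide +kernel) ?_
    refine jn 703 (by decide +kernel) ?_
    refine jn 705 (by decide +kernel) ?_
    exact je (by decide +kernel)
  · refine fin 408 911 T112_1 ?_
    refine jn 8 (by decide +kernel) ?_
    refine jn 11 (by decide +kernel) ?_
    refine jn 16 (by decide +kernel) ?_
    refine jn 20 (by decide +kernel) ?_
    refine jn 25 (by decide +kernel) ?_
    refine jn 30 (by decide +kernel) ?_
    refine jn 33 (by decide +kernel) ?_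
    refine jn 39 (by decide +kernel) ?_
    refine jn 43 (by decide +kernel) ?_
    refine jn 48 (by decide +kernel) ?_
    refine jn 53 (by decide +kernel) ?_
    refine jn 57 (by decide +kernel) ?_
    refine jn 62 (by decide +kernel) ?_
    refine jn 66 (by decide +kernel) ?_
    refine jn 72 (by decide +kernel) ?_
    refine jn 75 (by decide +kernel) ?_
    refine jn 80 (by decide +kernel) ?_
    refine jn 107 (by decide +kernel) ?_
    refine jn 124 (by decide +kernel) ?_
    refine jn 135 (by decide +kernel) ?_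
    refine jn 145 (by decide +kernel) ?_
    refine jn 155 (by decide +kernel) ?_
    refine jn 165 (by decide +kernel) ?_
    refine jn 175 (by decide +kernel) ?_
    refine jn 185 (by decide +kernel) ?_
    refine jn 196 (by decide +kernel) ?_
    refine jn 203 (by decide +kernel) ?_
    refine jn 216 (by decide +kernel) ?_
    refine jn 233 (by decide +kernel) ?_
    refine jn 252 (by decide +kernel) ?_
    refine jn 268 (by decide +kernel) ?_
    refine jn 287 (by decide +kernel) ?_
    refine jn 293 (by decide +kernel) ?_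
    refine jn 317 (by decide +kernel) ?_
    refine jn 333 (by decide +kernel) ?_
    refine jn 355 (by decide +kernel) ?_
    refine jn 369 (by decide +kernel) ?_
    refine jn 387 (by decide +kernel) ?_
    refine jn 404 (by decide +kernel) ?_
    refine jn 431 (by decide +kernel) ?_
    refine jn 443 (by decide +kernel) ?_
    refine jn 458 (by decide +kernel) ?_
    refine jn 466 (by decide +kernel) ?_
    refine jn 474 (by decide +kernel) ?_
    refine jn 482 (by decide +kernel) ?_
    refine jn 502 (by decide +kernel) ?_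
    refine jn 513 (by decide +kernel) ?_
    refine jn 519 (by decide +kernel) ?_
    refine jn 533 (by decide +kernel) ?_
    refine jn 559 (by decide +kernel) ?_
    refine jn 572 (by decide +kernel) ?_
    refine jn 585 (by decide +kernel) ?_
    refine jn 611 (by decide +kernel) ?_
    refine jn 634 (by decide +kernel) ?_
    refine jn 650 (by decide +kernel) ?_
    refine jn 690 (by decide +kernel) ?_
    refine jn 697 (by decide +kernel) ?_
    refine jn 698 (by decide +kernel) ?_
    refine jn 700 (by decide +kernel) ?_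
    refine jn 701 (by decide +kernel) ?_
    refine jn 702 (by decide +kernel) ?_
    refine jn 704 (by decide +kernel) ?_
    refine jn 706 (by decide +kernel) ?_
    refine jn 708 (by decide +kernel) ?_
    refine jn 709 (by decide +kernel) ?_
    refine jn 720 (by decide +kernel) ?_
    refine jn 727 (by decide +kernel) ?_
    refine jn 733 (by decide +kernel) ?_
    refine jn 736 (by decide +kernel) ?_
    refine jn 738 (by decide +kernel) ?_
    refine jn 740 (by decide +kernel) ?_
    refine jn 742 (by decide +kernel) ?_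
    refine jn 745 (by decide +kernel) ?_
    refine jn 746 (by decide +kernel) ?_
    refine jn 753 (by decide +kernel) ?_
    refine jn 758 (by decide +kernel) ?_
    refine jn 767 (by decide +kernel) ?_
    refine jn 771 (by decide +kernel) ?_
    refine jn 780 (by decide +kernel) ?_
    refine jn 785 (by decide +kernel) ?_
    refine jn 793 (by decide +kernel) ?_
    refine jn 798 (by decide +kernel) ?_
    refine jn 806 (by decide +kernel) ?_
    refine jn 811 (by decide +kernel) ?_
    refine jn 822 (by decide +kernel) ?_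
    refine jn 833 (by decide +kernel) ?_
    refine jn 842 (by decide +kernel) ?_
    refine jn 843 (by decide +kernel) ?_
    refine jn 848 (by decide +kernel) ?_
    refine jn 895 (by decide +kernel) ?_
    refine jn 906 (by decide +kernel) ?_
    exact je (by decide +kernel)
  · refine fin 3048 607 T112_2 ?_
    refine jn 5 (by decide +kernel) ?_
    refine jn 8 (by decide +kernel) ?_
    refine jn 9 (by decide +kernel) ?_
    refine jn 12 (by decide +kernel) ?_
    refine jn 14 (by decide +kernel) ?_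
    refine jn 16 (by decide +kernel) ?_
    refine jn 18 (by decide +kernel) ?_
    refine jn 19 (by decide +kernel) ?_
    refine jn 22 (by decide +kernel) ?_
    refine jn 23 (by decide +kernel) ?_
    refine jn 26 (by decide +kernel) ?_
    refine jn 28 (by decide +kernel) ?_
    refine jn 30 (by decide +kernel) ?_
    refine jn 43 (by decide +kernel) ?_
    refine jn 61 (by decide +kernel) ?_
    refine jn 65 (by decide +kernel) ?_
    refine jn 69 (by decide +kernel) ?_
    refine jn 73 (by decide +kernel) ?_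
    refine jn 78 (by decide +kernel) ?_
    refine jn 82 (by decide +kernel) ?_
    refine jn 86 (by decide +kernel) ?_
    refine jn 97 (by decide +kernel) ?_
    refine jn 109 (by decide +kernel) ?_
    refine jn 118 (by decide +kernel) ?_
    refine jn 138 (by decide +kernel) ?_
    refine jn 147 (by decide +kernel) ?_
    refine jn 173 (by decide +kernel) ?_
    refine jn 185 (by decide +kernel) ?_
    refine jn 187 (by decide +kernel) ?_
    refine jn 192 (by decide +kernel) ?_
    refine jn 197 (by decide +kernel) ?_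
    refine jn 202 (by decide +kernel) ?_
    refine jn 207 (by decide +kernel) ?_
    refine jn 212 (by decide +kernel) ?_
    refine jn 219 (by decide +kernel) ?_
    refine jn 229 (by decide +kernel) ?_
    refine jn 238 (by decide +kernel) ?_
    refine jn 249 (by decide +kernel) ?_
    refine jn 255 (by decide +kernel) ?_
    refine jn 264 (by decide +kernel) ?_
    refine jn 279 (by decide +kernel) ?_
    refine jn 308 (by decide +kernel) ?_
    refine jn 332 (by decide +kernel) ?_
    refine jn 333 (by decide +kernel) ?_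
    refine jn 334 (by decide +kernel) ?_
    refine jn 335 (by decide +kernel) ?_
    refine jn 336 (by decide +kernel) ?_
    refine jn 337 (by decide +kernel) ?_
    refine jn 338 (by decide +kernel) ?_
    refine jn 339 (by decide +kernel) ?_
    refine jn 340 (by decide +kernel) ?_
    refine jn 341 (by decide +kernel) ?_
    refine jn 342 (by decide +kernel) ?_
    refine jn 343 (by decide +kernel) ?_
    refine jn 344 (by decide +kernel) ?_
    refine jn 345 (by decide +kernel) ?_
    refine jn 347 (by decide +kernel) ?_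
    refine jn 349 (by decide +kernel) ?_
    refine jn 351 (by decide +kernel) ?_
    refine jn 353 (by decide +kernel) ?_
    refine jn 355 (by decide +kernel) ?_
    refine jn 356 (by decide +kernel) ?_
    refine jn 361 (by decide +kernel) ?_
    refine jn 370 (by decide +kernel) ?_
    refine jn 379 (by decide +kernel) ?_
    refine jn 397 (by decide +kernel) ?_
    refine jn 403 (by decide +kernel) ?_
    refine jn 408 (by decide +kernel) ?_
    refine jn 443 (by decide +kernel) ?_
    refine jn 450 (by decide +kernel) ?_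
    refine jn 451 (by decide +kernel) ?_
    refine jn 452 (by decide +kernel) ?_
    refine jn 453 (by decide +kernel) ?_
    refine jn 454 (by decide +kernel) ?_
    refine jn 455 (by decide +kernel) ?_
    refine jn 456 (by decide +kernel) ?_
    refine jn 457 (by decide +kernel) ?_
    refine jn 458 (by decide +kernel) ?_
    refine jn 459 (by decide +kernel) ?_
    refine jn 460 (by decide +kernel) ?_
    refine jn 461 (by decide +kernel) ?_
    refine jn 462 (by decide +kernel) ?_
    refine jn 467 (by decide +kernel) ?_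
    refine jn 469 (by decide +kernel) ?_
    refine jn 471 (by decide +kernel) ?_
    refine jn 474 (by decide +kernel) ?_
    refine jn 476 (by decide +kernel) ?_
    refine jn 479 (by decide +kernel) ?_
    refine jn 480 (by decide +kernel) ?_
    refine jn 484 (by decide +kernel) ?_
    refine jn 495 (by decide +kernel) ?_
    refine jn 502 (by decide +kernel) ?_
    refine jn 511 (by decide +kernel) ?_
    refine jn 513 (by decide +kernel) ?_
    refine jn 515 (by decide +kernel) ?_
    refine jn 516 (by decide +kernel) ?_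
    refine jn 519 (by decide +kernel) ?_
    refine jn 524 (by decide +kernel) ?_
    refine jn 531 (by decide +kernel) ?_
    refine jn 544 (by decide +kernel) ?_
    refine jn 545 (by decide +kernel) ?_
    refine jn 548 (by decide +kernel) ?_
    refine jn 550 (by decide +kernel) ?_
    refine jn 554 (by decide +kernel) ?_
    refine jn 559 (by decide +kernel) ?_
    refine jn 570 (by decide +kernel) ?_
    refine jn 578 (by decide +kernel) ?_
    refine jn 579 (by decide +kernel) ?_
    refine jn 580 (by decide +kernel) ?_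
    refine jn 581 (by decide +kernel) ?_
    refine jn 582 (by decide +kernel) ?_
    refine jn 583 (by decide +kernel) ?_
    refine jn 584 (by decide +kernel) ?_
    refine jn 585 (by decide +kernel) ?_
    refine jn 586 (by decide +kernel) ?_
    refine jn 587 (by decide +kernel) ?_
    refine jn 591 (by decide +kernel) ?_
    refine jn 592 (by decide +kernel) ?_
    refine jn 593 (by decide +kernel) ?_
    refine jn 594 (by decide +kernel) ?_
    refine jn 596 (by decide +kernel) ?_
    refine jn 601 (by decide +kernel) ?_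
    refine jn 602 (by decide +kernel) ?_
    refine jn 603 (by decide +kernel) ?_
    exact je (by decide +kernel)

end Pool.Agent.MP_2339ce_nt.NR
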