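import Pool.Agent.MP_2339ce_nt.Q2.NC.L6
import Pool.Agent.MP_2339ce_nt.Q2.NC.L8
import Pool.Agent.MP_2339ce_nt.Q2.NC.L9
import Pool.Agent.MP_2339ce_nt.Q2.CkI

/-! Block NR: runs. -/

set_option autoImplicit false
set_option maxRecDepth 100000

noncomputable section

namespace Pool.Agent.MP_2339ce_nt.NR

open Q2.Top

def T120_0 : Ph :=
  (.na 222 227 (.na 105 191 (.na 48 177 (.na 12 168 (.na 10 163 (.nx 9 832257 (.nr 8 1048577 (.nr 1
  161 .s1 (.nx 2 257 (.l1 (.ls 79 19 413)) (.nr 7 741457 (.nx 3 13005 (.lg 0 true 1 97 97 17 0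
  95760) (.nr 6 16385 (.nr 4 1025 (.lg 0 true 1 71 71 17 0 9576) (.nx 5 104033 (.lg 2 false 1 67 67
  17 14690 9576) .out)) .out)) .out))) .out) .out) (.na 11 167 (.lg 0 false 1 0 0 16 0 24) (.lg 0
  false 1 0 0 16 0 24))) (.na 30 171 (.na 22 169 (.nx 21 832257 (.nr 20 1048577 (.nr 13 168 .s1
  (.nx 18 104033 (.nx 14 257 (.l1 (.ls 79 37 396)) (.nr 17 741457 (.nx 15 13005 (.lg 0 false 1 89
  89 37 0 19152) (.nr 16 16385 (.lg 0 true 1 79 79 37 0 19152) .out)) .out)) (.nr 19 1025 (.lg 0
  true 1 73 73 37 0 19152) .out))) .out) .out) (.nx 29 832257 (.nr 28 1048577 (.nr 23 169 .s1 (.nx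
  24 257 (.l1 (.ls 71 23 393)) (.nr 27 741457 (.nr 25 16385 (.lg 0 false 1 89 89 17 0 17784) (.nx
  26 13005 (.lg 0 true 1 83 83 17 0 17784) .out)) .out))) .out) .out)) (.na 40 173 (.nx 39 832257
  (.nr 38 1048577 (.nr 31 171 .s1 (.nx 34 13005 (.nx 32 257 (.l1 (.ls 83 29 389)) (.nr 33 741457
  (.lg 0 true 1 83 83 17 0 1368) .out)) (.nr 37 16385 (.nr 35 1025 (.lg 0 false 1 67 67 17 0 1368)
  (.nx 36 104033 (.lg 2 true 1 59 59 17 14690 1368) .out)) .out))) .out) .out) (.nx 47 832257 (.nr
  46 1048577 (.nr 41 173 .s1 (.nx 42 257 (.l1 (.ls 61 19 384)) (.nr 45 741457 (.nr 43 16385 (.lg 0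
  false 1 79 79 16 0 2736) (.nx 44 13005 (.lg 0 true 1 73 73 16 0 1368) .out)) .out))) .out)
  .out)))) (.na 74 182 (.na 58 179 (.nx 57 832257 (.nr 56 1048577 (.nr 49 177 .s1 (.nx 50 257 (.l1
  (.ls 73 23 376)) (.nr 55 741457 (.nx 51 13005 (.lg 0 false 1 83 83 19 0 1368) (.nr 54 16385 (.nr
  52 1025 (.lg 0 true 1 67 67 19 0 1368) (.nx 53 104033 (.lg 2 true 1 67 67 19 14690 2736) .out))
  .out)) .out))) .out) .out) (.na 66 181 (.nx 65 832257 (.nr 64 1048577 (.nr 59 179 .s1 (.nx 60 257
  (.l1 (.ls 83 19 371)) (.nr 63 741457 (.nr 61 16385 (.lg 0 false 1 83 83 16 0 1368) (.nx 62 13005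
  (.lg 0 true 1 83 83 16 0 95760) .out)) .out))) .out) .out) (.nx 73 832257 (.nr 72 1048577 (.nr 67
  181 .s1 (.nx 68 257 (.l1 (.ls 83 19 367)) (.nr 71 741457 (.nr 69 16385 (.lg 0 false 1 83 83 16 0
  1368) (.nx 70 13005 (.lg 0 true 1 79 79 16 0 1368) .out)) .out))) .out) .out))) (.na 85 188 (.na
  75 184 .ne (.nx 84 832257 (.nr 83 1048577 (.nr 76 184 .s1 (.nx 79 13005 (.nx 77 257 (.l1 (.ls 73
  31 361)) (.nr 78 741457 (.lg 0 true 1 89 89 19 0 13680) .out)) (.nr 82 16385 (.nr 80 1025 (.lg 0
  true 1 67 67 19 0 2736) (.nx 81 104033 (.lg 2 true 1 67 67 19 14690 2736) .out)) .out))) .out)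
  .out)) (.na 95 189 (.nx 94 832257 (.nr 93 1048577 (.nr 86 188 .s1 (.nx 89 13005 (.nx 87 257 (.l1
  (.ls 73 29 354)) (.nr 88 741457 (.lg 0 false 1 83 83 23 0 2736) .out)) (.nr 92 16385 (.nr 90 1025
  (.lg 0 true 1 67 67 23 0 2736) (.nx 91 104033 (.lg 2 false 1 67 67 23 14690 2736) .out)) .out)))
  .out) .out) (.nx 104 832257 (.nr 103 1048577 (.nr 96 189 .s1 (.nx 97 257 (.l1 (.ls 73 29 352))
  (.nr 102 741457 (.nx 98 13005 (.lg 0 true 1 89 89 23 0 95760) (.nr 101 16385 (.nr 99 1025 (.lg 0
  true 1 67 67 23 0 9576) (.nx 100 104033 (.lg 2 true 1 61 61 23 14690 9576) .out)) .out)) .out)))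
  .out) .out))))) (.na 153 204 (.na 124 197 (.na 113 193 (.nx 112 832257 (.nr 111 1048577 (.nr 106
  191 .s1 (.nx 107 257 (.l1 (.ls 67 19 348)) (.nr 110 741457 (.nr 108 16385 (.lg 0 false 1 79 79 16
  0 1368) (.nx 109 13005 (.lg 0 true 1 79 79 16 0 13680) .out)) .out))) .out) .out) (.na 114 196
  (.lg 0 false 1 0 0 16 0 24) (.nx 123 832257 (.nr 122 1048577 (.nr 115 196 .s1 (.nx 118 13005 (.nx
  116 257 (.l1 (.ls 73 31 339)) (.nr 117 741457 (.lg 0 true 1 83 83 29 0 95760) .out)) (.nr 121
  16385 (.nr 119 1025 (.lg 0 true 1 67 67 29 0 19152) (.nx 120 104033 (.lg 2 true 1 61 61 29 14690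
  19152) .out)) .out))) .out) .out))) (.na 133 201 (.na 125 199 (.lg 0 false 1 0 0 16 0 24) (.nx
  132 832257 (.nr 131 1048577 (.nr 126 199 .s1 (.nx 127 257 (.l1 (.ls 83 19 334)) (.nr 130 741457
  (.nr 128 16385 (.lg 0 false 1 83 83 16 0 1368) (.nx 129 13005 (.lg 0 true 1 79 79 16 0 1368)
  .out)) .out))) .out) .out)) (.na 143 203 (.nx 142 832257 (.nr 141 1048577 (.nr 134 201 .s1 (.nx
  135 257 (.l1 (.ls 61 23 331)) (.nr 140 741457 (.nx 136 13005 (.lg 0 false 1 83 83 19 0 1368) (.nr
  139 16385 (.nr 137 1025 (.lg 0 true 1 67 67 19 0 1368) (.nx 138 104033 (.lg 2 false 1 59 59 19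
  14690 1368) .out)) .out)) .out))) .out) .out) (.nx 152 832257 (.nr 151 1048577 (.nr 144 203 .s1
  (.nx 147 13005 (.nx 145 257 (.l1 (.ls 73 23 328)) (.nr 146 741457 (.lg 0 true 1 89 89 19 0 19152)
  .out)) (.nr 150 16385 (.nr 148 1025 (.lg 0 true 1 67 67 19 0 9576) (.nx 149 104033 (.lg 2 false 1
  67 67 19 14690 9576) .out)) .out))) .out) .out)))) (.na 191 216 (.na 173 211 (.na 163 207 (.nx
  162 832257 (.nr 161 1048577 (.nr 154 204 .s1 (.nx 159 104033 (.nx 155 257 (.l1 (.ls 83 37 326))
  (.nr 158 741457 (.nx 156 13005 (.lg 0 false 1 97 97 37 0 2736) (.nr 157 16385 (.lg 0 true 1 79 83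
  37 0 2736) .out)) .out)) (.nr 160 1025 (.lg 0 true 1 73 73 37 0 2736) .out))) .out) .out) (.nx
  172 832257 (.nr 171 1048577 (.nr 164 207 .s1 (.nx 167 13005 (.nx 165 257 (.l1 (.ls 71 19 322))
  (.nr 166 741457 (.lg 0 false 1 79 79 19 0 1368) .out)) (.nr 170 16385 (.nr 168 1025 (.lg 0 true 1
  61 61 19 0 1368) (.nx 169 104033 (.lg 2 true 1 61 61 19 14690 1368) .out)) .out))) .out) .out))
  (.na 181 212 (.nx 180 832257 (.nr 179 1048577 (.nr 174 211 .s1 (.nx 175 257 (.l1 (.ls 73 19 316))
  (.nr 178 741457 (.nr 176 16385 (.lg 0 false 1 79 79 16 0 1368) (.nx 177 13005 (.lg 0 true 1 79 79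
  16 0 1368) .out)) .out))) .out) .out) (.nx 190 832257 (.nr 189 1048577 (.nr 182 212 .s1 (.nx 185
  13005 (.nx 183 257 (.l1 (.ls 73 29 314)) (.nr 184 741457 (.lg 0 false 1 83 83 23 0 2736) .out))
  (.nr 188 16385 (.nr 186 1025 (.lg 0 true 1 67 67 23 0 2736) (.nx 187 104033 (.lg 2 false 1 61 61
  23 14690 2736) .out)) .out))) .out) .out))) (.na 211 221 (.na 201 219 (.nx 200 832257 (.nr 199
  1048577 (.nr 192 216 .s1 (.nx 193 257 (.l1 (.ls 73 31 308)) (.nr 198 741457 (.nx 194 13005 (.lg 0
  false 1 79 79 29 0 2736) (.nr 197 16385 (.nr 195 1025 (.lg 0 true 1 67 67 29 0 2736) (.nx 196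
  104033 (.lg 2 false 1 61 61 29 14690 2736) .out)) .out)) .out))) .out) .out) (.nx 210 832257 (.nr
  209 1048577 (.nr 202 219 .s1 (.nx 205 13005 (.nx 203 257 (.l1 (.ls 71 23 304)) (.nr 204 741457
  (.lg 0 false 1 83 83 19 0 1368) .out)) (.nr 208 16385 (.nr 206 1025 (.lg 0 true 1 61 61 19 0
  1368) (.nx 207 104033 (.lg 2 false 1 59 59 19 14690 1368) .out)) .out))) .out) .out)) (.na 221
  223 (.nx 220 832257 (.nr 219 1048577 (.nr 212 221 .s1 (.nx 215 13005 (.nx 213 257 (.l1 (.ls 79 29
  301)) (.nr 214 741457 (.lg 0 true 1 97 97 23 0 1244880) .out)) (.nr 218 16385 (.nr 216 1025 (.lg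
  0 true 1 71 71 23 0 17784) (.nx 217 104033 (.lg 2 false 1 67 67 23 14690 17784) .out)) .out)))
  .out) .out) (.lg 0 false 1 0 0 16 0 24)))))) (.na 1130 512 (.na 277 241 (.na 241 232 (.na 230 228
  (.nx 229 832257 (.nr 228 1048577 (.nr 223 227 .s1 (.nx 226 13005 (.nx 224 257 (.l1 (.ls 61 19
  293)) (.nr 225 741457 (.lg 0 true 1 73 73 17 0 1368) .out)) (.nr 227 16385 (.lg 0 false 1 79 79
  17 0 19152) .out))) .out) .out) (.na 240 229 (.nx 239 832257 (.nr 238 1048577 (.nr 231 228 .s1
  (.nx 234 13005 (.nx 232 257 (.l1 (.ls 71 37 292)) (.nr 233 741457 (.lg 0 false 1 79 79 37 0 2736)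
  .out)) (.nr 237 16385 (.nr 235 1025 (.lg 0 true 1 61 61 37 0 2736) (.nx 236 104033 (.lg 2 true 1
  61 61 37 14690 19152) .out)) .out))) .out) .out) (.lg 0 false 1 0 0 16 0 24))) (.na 259 236 (.na
  251 233 (.nx 250 832257 (.nr 249 1048577 (.nr 242 232 .s1 (.nx 245 13005 (.nx 243 257 (.l1 (.ls
  73 23 287)) (.nr 244 741457 (.lg 0 true 1 83 83 23 0 2736) .out)) (.nr 248 16385 (.nr 246 1025
  (.lg 0 true 1 67 67 23 0 2736) (.nx 247 104033 (.lg 2 true 1 61 61 23 14690 2736) .out)) .out)))
  .out) .out) (.nx 258 832257 (.nr 257 1048577 (.nr 252 233 .s1 (.nx 253 257 (.l1 (.ls 59 19 286))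
  (.nr 256 741457 (.nr 254 16385 (.lg 0 false 1 73 73 17 0 2736) (.nx 255 13005 (.lg 0 true 1 71 71
  17 0 1368) .out)) .out))) .out) .out)) (.na 269 239 (.nx 268 832257 (.nr 267 1048577 (.nr 260 236
  .s1 (.nx 263 13005 (.nx 261 257 (.l1 (.ls 53 29 282)) (.nr 262 741457 (.lg 0 false 1 83 83 23 0
  2736) .out)) (.nr 266 16385 (.nr 264 1025 (.lg 0 true 1 67 67 23 0 2736) (.nx 265 104033 (.lg 2
  true 1 61 61 23 14690 2736) .out)) .out))) .out) .out) (.nx 276 832257 (.nr 275 1048577 (.nr 270
  239 .s1 (.nx 271 257 (.l1 (.ls 79 19 279)) (.nr 274 741457 (.nr 272 16385 (.lg 0 false 1 79 79 17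
  0 1368) (.nx 273 13005 (.lg 0 true 1 73 73 17 0 1368) .out)) .out))) .out) .out)))) (.na 294 251
  (.na 278 243 (.lg 0 false 1 0 0 16 0 24) (.na 286 247 (.nx 285 832257 (.nr 284 1048577 (.nr 279
  243 .s1 (.nx 280 257 (.l1 (.ls 61 23 274)) (.nr 283 741457 (.nr 281 16385 (.lg 0 false 1 73 73 19
  0 1368) (.nx 282 13005 (.lg 0 true 1 73 73 19 0 2736) .out)) .out))) .out) .out) (.nx 293 832257
  (.nr 292 1048577 (.nr 287 247 .s1 (.nx 288 257 (.l1 (.ls 61 29 270)) (.nr 291 741457 (.nx 289
  13005 (.lg 0 true 1 73 73 17 0 17784) (.nr 290 16385 (.lg 0 false 1 79 79 17 0 35568) .out))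
  .out))) .out) .out))) (.na 305 256 (.na 295 252 (.lg 0 false 1 0 0 16 0 24) (.nx 304 832257 (.nr
  303 1048577 (.nr 296 252 .s1 (.nx 297 257 (.l1 (.ls 79 37 265)) (.nr 302 741457 (.nx 300 104033
  (.nx 298 13005 (.lg 0 false 1 83 89 37 0 19152) (.nr 299 16385 (.lg 0 true 1 73 79 37 0 19152)
  .out)) (.nr 301 1025 (.lg 0 true 1 67 71 37 0 19152) .out)) .out))) .out) .out)) (.na 306 257 .ne
  (.nx 1129 832257 (.nr 1128 1482912 (.nr 307 257 .s1 (.nx 564 153 (.nx 563 152 (.nr 562 4471 (.la
  (.ls 43 19 129)) (.l1 .sk)) (.l1 .sk)) (.nx 616 205 (.lx (.lp 89 19 129)) (.nr 1127 1048577 (.nr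
  871 32769 (.la (.lg 0 true 1 79 79 23 0)) (.nx 1126 10323 (.la (.lg 0 false 1 73 73 23 0)) .out))
  .out)))) .out) .out))))) (.na 8037 5793 (.na 3222 1449 (.na 1766 725 (.nx 1765 832257 (.nr 1764
  1482912 (.nr 1131 512 .s1 (.nx 1284 153 (.nx 1283 152 (.nr 1282 6331 (.lx (.lp 43 19 182)) (.l1
  .sk)) (.l1 .sk)) (.nx 1550 22297 (.nx 1336 205 (.lx (.lp 83 19 182)) (.nr 1549 1048577 (.la (.lg
  0 false 1 73 73 29 0)) .out)) (.nr 1763 32769 (.la (.lg 2 true 1 67 67 29 123539)) .out)))) .out)
  .out) (.na 2368 1024 (.nx 2367 10323 (.nr 2366 1048577 (.nr 1767 725 .s1 (.nx 2066 2049 (.la (.ls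
  67 41 5793)) (.nr 2365 16385 (.la (.lg 0 true 1 41 41 29 0)) .out))) .out) .out) (.nx 3221 10323
  (.nr 3220 1048577 (.nr 2369 1024 .s1 (.nx 2794 2582 (.la (.ls 67 41 6513)) (.nr 3219 16385 (.la
  (.lg 0 false 1 31 37 31 0)) .out))) .out) .out))) (.na 4829 2897 (.na 3824 2048 (.nx 3823 2582
  (.nr 3822 524289 (.nr 3223 1449 .s1 (.la (.ls 59 37 4603))) .out) .out) (.nx 4828 3252 (.nr 4827
  524289 (.nr 3825 2048 .s1 (.nx 3977 152 (.nr 3976 25298 (.lx (.lp 43 29 725)) (.l1 .sk)) (.nx
  3978 153 (.l1 .sk) (.la (.ls 59 41 5155))))) .out) .out)) (.na 6184 4096 (.nx 6183 2582 (.nr 6182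
  262145 (.nr 4830 2897 .s1 (.nx 4982 152 (.nr 4981 35767 (.lx (.lp 47 31 1025)) (.l1 .sk)) (.nx
  4983 153 (.l1 .sk) (.la (.ls 53 37 2296))))) .out) .out) (.nx 8036 2582 (.nr 8035 262145 (.nr
  6185 4096 .s1 (.nx 6338 153 (.nx 6337 152 (.nr 6336 50586 (.lx (.lp 43 37 1449)) (.l1 .sk)) (.l1
  .sk)) (.la (.ls 53 37 1624)))) .out) .out)))) (.na 12949 65536 (.na 10626 16384 (.na 9331 8192
  (.nx 9330 1292 (.nr 9329 65537 (.nr 8038 5793 .s1 (.lx (.lp 43 37 2049))) .out) .out) (.nx 10625
  1292 (.nr 10624 131073 (.nr 9332 8192 .s1 (.nx 9536 205 (.lx (.lp 47 41 4097)) (.nr 10623 65537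
  (.lx (.lp 43 41 4097)) .out))) .out) .out)) (.na 11921 32768 (.nx 11920 1292 (.nr 11919 262145
  (.nr 10627 16384 .s1 (.nx 10831 205 (.lx (.lp 16 41 8193)) (.nr 11918 131073 (.lx (.lp 43 43
  8193)) .out))) .out) .out) (.nx 12948 1025 (.nr 12947 262145 (.nr 11922 32768 .s1 (.nx 12126 205
  (.lx (.lp 16 0 16385)) (.nr 12946 131073 (.lx (.lp 41 47 16385)) .out))) .out) .out))) (.na 13979
  262144 (.na 13977 131072 (.nx 13976 1025 (.nr 13975 262145 (.nr 12950 65536 .s1 (.nx 13273 324
  (.lx (.lp 41 47 32769)) (.nr 13974 131073 (.lx (.lp 37 53 32769)) .out))) .out) .out) (.nx 13978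
  324 (.l1 .sk) .out)) (.na 13981 524289 (.nx 13980 205 (.l1 .sk) .out) .out))))))

def T120_1 : Ph :=
  (.na 8897 8192 (.na 2645 1449 (.na 1189 725 (.na 501 512 (.nx 500 1048577 (.nr 499 1482912 (.nr 1
  363 .s1 (.nx 151 209 (.nr 150 5241 (.la (.ls 43 19 129)) (.l1 .sk)) (.nx 152 210 (.l1 .sk) (.nx
  199 257 (.lx (.lp 83 19 129)) (.nr 498 1048577 (.nr 348 32769 (.la (.lg 0 true 1 83 83 23 0))
  (.nx 497 20644 (.la (.lg 0 false 1 79 79 23 0)) .out)) .out))))) .out) .out) (.nx 1188 1048577
  (.nr 1187 1482912 (.nr 502 512 .s1 (.nx 712 210 (.nx 711 209 (.nr 710 7421 (.lx (.lp 47 23 182))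
  (.l1 .sk)) (.l1 .sk)) (.nx 759 257 (.lx (.lp 83 19 182)) (.nr 1186 1048577 (.nr 972 32769 (.la
  (.lg 0 true 1 79 79 29 0)) (.nx 1185 20644 (.la (.lg 0 false 1 73 73 29 0)) .out)) .out)))) .out)
  .out)) (.na 1791 1024 (.nx 1790 13005 (.nr 1789 1048577 (.nr 1190 725 .s1 (.nx 1489 2049 (.la
  (.ls 71 41 5793)) (.nr 1788 65537 (.la (.lg 0 false 1 53 53 29 0)) .out))) .out) .out) (.nx 2644
  13005 (.nr 2643 1048577 (.nr 1792 1024 .s1 (.nx 2217 3252 (.la (.ls 71 41 10330)) (.nr 2642 32769
  (.la (.lg 0 false 1 43 43 31 0)) .out))) .out) .out))) (.na 4699 2897 (.na 3847 2048 (.nx 3846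
  8193 (.nr 3845 1048577 (.nr 2646 1449 .s1 (.nx 3245 3252 (.la (.ls 67 41 7301)) (.nr 3844 4097
  (.la (.ls 29 47 39029)) .out))) .out) .out) (.nx 4698 8193 (.nr 4697 1048577 (.nr 3848 2048 .s1
  (.la (.ls 67 47 32779))) .out) .out)) (.na 5901 4096 (.nx 5900 3252 (.nr 5899 524289 (.nr 4700
  2897 .s1 (.la (.ls 61 37 3653))) .out) .out) (.na 7601 5793 (.nx 7600 3252 (.nr 7599 524289 (.nr
  5902 4096 .s1 (.la (.ls 59 37 2584))) .out) .out) (.nx 8896 1292 (.nr 8895 262145 (.nr 7602 5793
  .s1 (.nx 7811 209 (.nr 7810 83844 (.lx (.lp 47 37 2049)) (.l1 .sk)) (.nx 7812 210 (.l1 .sk) (.nx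
  8416 814 (.lx (.lp 59 37 2049)) (.nr 8894 65537 (.lx (.lp 47 37 2049)) .out))))) .out) .out)))))
  (.na 14076 65536 (.na 11487 16384 (.na 10193 11586 (.nx 10192 1292 (.nr 10191 262145 (.nr 8898
  8192 .s1 (.nx 9107 209 (.nr 9106 118581 (.lx (.lp 47 41 2897)) (.l1 .sk)) (.nx 9108 210 (.l1 .sk)
  (.nx 9712 814 (.lx (.lp 59 41 2897)) (.nr 10190 131073 (.lx (.lp 47 41 2897)) .out))))) .out)
  .out) (.nx 11486 1292 (.nr 11485 131073 (.nr 10194 11586 .s1 (.lx (.lp 47 41 4097))) .out) .out))
  (.na 12782 32768 (.nx 12781 1292 (.nr 12780 262145 (.nr 11488 16384 .s1 (.nx 11744 257 (.lx (.lp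
  53 43 8193)) (.nr 12779 131073 (.lx (.lp 43 43 8193)) .out))) .out) .out) (.nx 14075 1292 (.nr
  14074 262145 (.nr 12783 32768 .s1 (.lx (.lp 47 47 16385))) .out) .out))) (.na 15886 262144 (.na
  15371 131072 (.nx 15370 1292 (.nr 15369 524289 (.nr 14077 65536 .s1 (.nx 14333 257 (.lx (.lp 16 0
  32769)) (.nr 15368 262145 (.lx (.lp 43 53 32769)) .out))) .out) .out) (.nx 15885 513 (.nr 15884
  524289 (.nr 15372 131072 .s1 (.lx (.lp 16 53 65537))) .out) .out)) (.na 16401 524288 (.nx 16400
  513 (.nr 16399 1048577 (.nr 15887 262144 .s1 (.lx (.lp 16 0 131073))) .out) .out) (.na 16403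
  1048577 (.nx 16402 257 (.l1 .sk) .out) .out)))))

def T120_2 : Ph :=
  (.na 582 163 (.na 361 92 (.na 203 56 (.na 103 34 (.na 64 29 (.na 23 26 (.nx 22 1321124 (.nr 21
  1048577 (.nr 1 21 .s1 (.nx 3 103 (.nr 2 187 (.l1 (.ls 17 19 464)) (.l1 .sk)) (.nx 4 104 (.l1 .sk)
  (.nx 5 205 (.l1 (.ls 79 31 1359)) (.nr 20 185365 (.nx 9 16385 (.lg 0 false 4 89 89 16 0 24720)
  (.nr 19 38969 (.nr 16 513 (.lg 0 true 7 71 73 16 0 17304) (.nx 18 82572 (.lg 2 false 2 79 79 13
  12650 4944) .out)) .out)) .out))))) .out) .out) (.na 45 28 (.nx 44 1321124 (.nr 43 1048577 (.nr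
  24 24 .s1 (.nx 34 16385 (.nx 26 103 (.nr 25 202 (.l1 (.ls 17 31 411)) (.l1 .sk)) (.nx 27 104 (.l1
  .sk) (.nx 28 205 (.l1 (.ls 73 41 1203)) (.nr 33 185365 (.lg 0 false 5 83 83 19 0 321360) .out))))
  (.nr 42 38969 (.nr 39 513 (.lg 0 true 5 71 71 19 0 321360) (.nx 41 82572 (.lg 2 false 2 73 73 11
  12650 64272) .out)) .out))) .out) .out) (.nx 63 1321124 (.nr 62 1048577 (.nr 46 27 .s1 (.nx 54
  10323 (.nx 48 103 (.nr 47 209 (.l1 (.ls 23 31 381)) (.l1 .sk)) (.nx 49 104 (.l1 .sk) (.nx 50 205
  (.l1 (.ls 79 37 1117)) (.nr 53 185365 (.lg 0 false 3 89 89 19 0 519120) .out)))) (.nr 61 55110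
  (.nr 57 513 (.lg 0 true 3 73 73 19 0 103824) (.nx 60 82572 (.nx 58 26009 (.lg 1 true 1 83 83 13
  28373 173040) (.nr 59 32769 (.lg 1 false 1 83 83 13 8290 173040) .out)) .out)) .out))) .out)
  .out))) (.na 83 32 (.nx 82 1321124 (.nr 81 1048577 (.nr 65 28 .s1 (.nx 72 16385 (.nx 66 205 (.l1
  (.ls 79 23 1452)) (.nr 71 185365 (.lg 0 false 5 83 83 16 0 12360) .out)) (.nr 80 38969 (.nr 77
  513 (.lg 0 true 5 71 71 16 0 12360) (.nx 79 82572 (.lg 2 false 2 79 79 16 12650 4944) .out))
  .out))) .out) .out) (.na 102 33 (.nx 101 1321124 (.nr 100 1048577 (.nr 84 31 .s1 (.nx 86 103 (.nr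
  85 238 (.l1 (.ls 23 29 334)) (.l1 .sk)) (.nx 87 104 (.l1 .sk) (.nx 88 205 (.l1 (.ls 79 31 978))
  (.nr 99 370729 (.nx 91 10323 (.lg 0 false 3 89 97 19 0 519120) (.nr 98 55110 (.nr 94 513 (.lg 0
  true 3 73 73 19 0 14832) (.nx 97 82572 (.nx 95 26009 (.lg 1 true 1 83 83 13 28373 173040) (.nr 96
  32769 (.lg 1 false 1 83 83 13 8290 173040) .out)) .out)) .out)) .out))))) .out) .out) .ne))) (.na
  153 46 (.na 120 38 (.nx 119 1321124 (.nr 118 370729 (.nr 104 33 .s1 (.nx 107 104 (.nx 106 103
  (.nr 105 274 (.l1 (.ls 16 31 315)) (.l1 .sk)) (.l1 .sk)) (.nx 112 13005 (.lg 0 false 5 83 83 13 0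
  24720) (.nr 117 23172 (.nr 115 274 (.lg 0 true 3 67 67 13 0 14832) (.nx 116 82572 (.lg 2 true 1
  79 79 13 15520 34608) .out)) .out)))) .out) .out) (.na 135 41 (.nx 134 1321124 (.nr 133 370729
  (.nr 121 37 .s1 (.nx 124 104 (.nx 123 103 (.nr 122 295 (.l1 (.ls 17 29 282)) (.l1 .sk)) (.l1
  .sk)) (.nx 127 13005 (.lg 0 false 3 89 89 13 0 519120) (.nr 132 23172 (.nr 130 217 (.lg 0 true 3
  67 67 13 0 14832) (.nx 131 82572 (.lg 2 true 1 79 79 13 19597 4944) .out)) .out)))) .out) .out)
  (.nx 152 1321124 (.nr 151 370729 (.nr 136 40 .s1 (.nx 138 103 (.nr 137 331 (.l1 (.ls 16 17 261))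
  (.l1 .sk)) (.nx 139 104 (.l1 .sk) (.nx 144 13005 (.lg 0 false 5 79 79 16 0 12360) (.nr 150 23172
  (.nr 148 331 (.lg 0 true 4 61 61 16 0 4944) (.nx 149 82572 (.lg 2 true 1 73 73 16 12848 34608)
  .out)) .out))))) .out) .out))) (.na 170 49 (.nx 169 1321124 (.nr 168 311745 (.nr 154 45 .s1 (.nx
  157 104 (.nx 156 103 (.nr 155 353 (.l1 (.ls 16 19 233)) (.l1 .sk)) (.l1 .sk)) (.nx 162 10323 (.lg
  0 false 5 79 79 19 0 173040) (.nr 167 23172 (.nr 165 353 (.lg 0 true 3 67 67 13 0 14832) (.nx 166
  82572 (.lg 2 true 1 73 73 13 12047 34608) .out)) .out)))) .out) .out) (.na 186 52 (.nx 185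
  1321124 (.nr 184 311745 (.nr 171 48 .s1 (.nx 177 10323 (.nx 173 103 (.nr 172 374 (.l1 (.ls 16 19
  219)) (.l1 .sk)) (.nx 174 104 (.l1 .sk) (.lg 0 false 3 73 73 16 0 51912))) (.nr 183 23172 (.nr
  181 374 (.lg 0 true 4 61 61 16 0 34608) (.nx 182 82572 (.lg 2 true 1 67 67 16 11961 17304) .out))
  .out))) .out) .out) (.nx 202 1321124 (.nr 201 311745 (.nr 187 52 .s1 (.nr 193 13779 (.nx 190
  82572 (.nx 188 2580 (.l1 (.ls 59 67 128010)) (.lg 0 false 2 79 79 23 0 64272)) (.nr 192 217 (.lg
  0 true 2 67 67 23 0 64272) .out)) (.nx 195 104 (.nx 194 103 (.l1 .sk) (.l1 .sk)) (.nx 200 20644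
  (.nx 198 10323 (.lg 0 false 3 89 97 23 0 6748560) (.nr 199 23172 (.lg 0 false 1 67 67 19 0 64272)
  .out)) .out)))) .out) .out))))) (.na 276 68 (.na 246 61 (.na 216 58 (.nx 215 1321124 (.nr 214
  311745 (.nr 204 56 .s1 (.nx 207 104 (.nx 206 103 (.nr 205 418 (.l1 (.ls 29 29 192)) (.l1 .sk))
  (.l1 .sk)) (.nr 212 46342 (.nx 210 82572 (.nx 208 20644 (.lg 0 false 1 83 83 23 0 103824) (.nr
  209 13779 (.lg 0 true 1 83 83 23 0 103824) .out)) (.nr 211 217 (.lg 0 true 1 67 67 23 0 34608)
  .out)) (.nx 213 8193 (.lg 0 false 1 97 97 23 0 1349712) .out)))) .out) .out) (.na 231 59 (.nx 230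
  1321124 (.nr 229 311745 (.nr 217 58 .s1 (.nx 220 104 (.nx 219 103 (.nr 218 425 (.l1 (.ls 17 23
  185)) (.l1 .sk)) (.l1 .sk)) (.nx 223 10323 (.lg 0 false 3 79 79 19 0 14832) (.nr 228 23172 (.nr
  226 425 (.lg 0 true 3 67 67 19 0 14832) (.nx 227 82572 (.lg 2 true 1 71 71 13 11961 24720) .out))
  .out)))) .out) .out) (.nx 245 1321124 (.nr 244 311745 (.nr 232 59 .s1 (.nx 235 104 (.nx 234 103
  (.nr 233 439 (.l1 (.ls 16 17 182)) (.l1 .sk)) (.l1 .sk)) (.nx 238 10323 (.lg 0 false 3 79 79 16 0
  7416) (.nr 243 23172 (.nr 241 439 (.lg 0 true 3 61 61 16 0 7416) (.nx 242 82572 (.lg 2 true 1 67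
  67 16 11961 2472) .out)) .out)))) .out) .out))) (.na 261 64 (.nx 260 1321124 (.nr 259 311745 (.nr
  247 61 .s1 (.nx 249 103 (.nr 248 461 (.l1 (.ls 16 17 176)) (.l1 .sk)) (.nx 250 104 (.l1 .sk) (.nx
  253 10323 (.lg 0 false 3 73 73 16 0 7416) (.nr 258 23172 (.nr 256 461 (.lg 0 true 3 59 59 16 0
  7416) (.nx 257 82572 (.lg 2 true 1 67 67 16 11961 2472) .out)) .out))))) .out) .out) (.na 275 65
  (.nx 274 1321124 (.nr 273 524289 (.nr 262 64 .s1 (.nx 264 103 (.nr 263 468 (.l1 (.ls 19 23 168))
  (.l1 .sk)) (.nx 265 104 (.l1 .sk) (.nx 268 10323 (.lg 0 false 3 79 79 23 0 14832) (.nr 272 23172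
  (.nr 270 513 (.lg 0 true 2 67 67 19 0 4944) (.nx 271 82572 (.lg 2 false 1 67 67 17 11961 4944)
  .out)) .out))))) .out) .out) .ne))) (.na 318 82 (.na 290 76 (.nx 289 1321124 (.nr 288 524289 (.nr
  277 68 .s1 (.nx 279 103 (.nr 278 547 (.l1 (.ls 16 29 159)) (.l1 .sk)) (.nx 280 104 (.l1 .sk) (.nx
  283 8193 (.lg 0 false 3 83 89 29 0 74160) (.nr 287 8193 (.nr 285 513 (.lg 0 true 2 71 71 23 0
  4944) (.nx 286 82572 (.lg 2 true 1 61 61 13 8290 4944) .out)) .out))))) .out) .out) (.na 303 79
  (.nx 302 1321124 (.nr 301 524289 (.nr 291 76 .s1 (.nx 293 103 (.nr 292 569 (.l1 (.ls 17 29 142))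
  (.l1 .sk)) (.nx 294 104 (.l1 .sk) (.nx 296 8193 (.lg 0 false 2 79 79 23 0 4944) (.nr 300 8193
  (.nr 298 513 (.lg 0 true 2 67 67 23 0 4944) (.nx 299 82572 (.lg 2 true 1 61 61 17 8290 4944)
  .out)) .out))))) .out) .out) (.nx 317 1321124 (.nr 316 524289 (.nr 304 79 .s1 (.nx 310 8193 (.nx
  306 103 (.nr 305 590 (.l1 (.ls 16 16 137)) (.l1 .sk)) (.nx 307 104 (.l1 .sk) (.lg 0 false 3 71 71
  16 0 7416))) (.nr 315 8193 (.nr 313 590 (.lg 0 true 3 59 59 16 0 7416) (.nx 314 82572 (.lg 2 true
  1 47 47 16 7208 4944) .out)) .out))) .out) .out))) (.na 333 83 (.nx 332 1321124 (.nr 331 524289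
  (.nr 319 82 .s1 (.nx 325 8193 (.nx 321 103 (.nr 320 598 (.l1 (.ls 16 23 132)) (.l1 .sk)) (.nx 322
  104 (.l1 .sk) (.lg 0 false 3 79 79 19 0 74160))) (.nr 330 8193 (.nr 328 598 (.lg 0 true 3 67 67
  19 0 14832) (.nx 329 82572 (.lg 2 true 1 53 53 13 7112 4944) .out)) .out))) .out) .out) (.na 348
  91 (.nx 347 1321124 (.nr 346 524289 (.nr 334 83 .s1 (.nx 336 103 (.nr 335 655 (.l1 (.ls 16 16
  130)) (.l1 .sk)) (.nx 337 104 (.l1 .sk) (.nx 340 8193 (.lg 0 false 3 71 71 16 0 7416) (.nr 345
  8193 (.nr 343 655 (.lg 0 true 3 59 59 16 0 7416) (.nx 344 82572 (.lg 2 false 1 47 47 16 6493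
  2472) .out)) .out))))) .out) .out) (.nx 360 1321124 (.nr 359 524289 (.nr 349 91 .s1 (.nx 351 103
  (.nr 350 662 (.l1 (.ls 23 19 119)) (.l1 .sk)) (.nx 352 104 (.l1 .sk) (.nx 354 8193 (.lg 0 false 2
  79 79 19 0 449904) (.nr 358 8193 (.nr 356 513 (.lg 0 true 2 67 67 19 0 449904) (.nx 357 82572
  (.lg 2 false 1 59 59 19 8290 224952) .out)) .out))))) .out) .out)))))) (.na 501 129 (.na 436 112
  (.na 400 103 (.na 374 97 (.nx 373 1321124 (.nr 372 524289 (.nr 362 92 .s1 (.nx 364 103 (.nr 363
  698 (.l1 (.ls 19 19 118)) (.l1 .sk)) (.nx 365 104 (.l1 .sk) (.nx 367 8193 (.lg 0 false 2 83 83 19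
  0 4944) (.nr 371 8193 (.nr 369 513 (.lg 0 true 2 71 71 19 0 4944) (.nx 370 82572 (.lg 2 false 1
  61 61 19 8290 4944) .out)) .out))))) .out) .out) (.na 388 98 (.nx 387 1321124 (.nr 386 524289
  (.nr 375 97 .s1 (.nx 381 8193 (.nx 377 103 (.nr 376 705 (.l1 (.ls 17 16 112)) (.l1 .sk)) (.nx 378
  104 (.l1 .sk) (.lg 0 false 3 71 71 16 0 7416))) (.nr 385 8193 (.nr 383 513 (.lg 0 true 2 59 59 16
  0 4944) (.nx 384 82572 (.lg 2 true 1 47 47 16 8290 2472) .out)) .out))) .out) .out) (.nx 399
  1321124 (.nr 398 524289 (.nr 389 98 .s1 (.nx 392 104 (.nx 391 103 (.nr 390 741 (.l1 (.ls 17 23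
  111)) (.l1 .sk)) (.l1 .sk)) (.nx 393 8193 (.lg 0 true 1 79 79 19 0 173040) (.nr 397 8193 (.nr 395
  513 (.lg 0 true 2 59 59 23 0 34608) (.nx 396 82572 (.lg 2 true 1 47 47 19 8290 34608) .out))
  .out)))) .out) .out))) (.na 413 104 (.nx 412 1321124 (.nr 411 524289 (.nr 401 103 .s1 (.nx 404
  104 (.nx 403 103 (.nr 402 749 (.l1 (.ls 16 16 105)) (.l1 .sk)) (.l1 .sk)) (.nr 408 8193 (.lg 0
  true 4 67 67 16 0 4944) (.nx 410 8193 (.lg 0 true 2 67 67 16 0 4944) .out)))) .out) .out) (.na
  424 107 (.nx 423 1321124 (.nr 422 524289 (.nr 414 104 .s1 (.nx 417 104 (.nx 416 103 (.nr 415 770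
  (.l1 (.ls 29 23 105)) (.l1 .sk)) (.l1 .sk)) (.nx 418 8193 (.lg 0 false 1 83 83 29 0 64272) (.nr
  421 8193 (.nx 419 82572 (.lg 0 true 1 73 73 29 0 64272) (.nr 420 513 (.lg 0 true 1 71 71 29 0
  64272) .out)) .out)))) .out) .out) (.nx 435 1321124 (.nr 434 524289 (.nr 425 107 .s1 (.nx 429
  8193 (.nx 427 103 (.nr 426 806 (.l1 (.ls 16 16 102)) (.l1 .sk)) (.nx 428 104 (.l1 .sk) (.lg 0
  true 1 73 73 16 0 2472))) (.nr 433 8193 (.nr 431 513 (.lg 0 true 2 59 59 16 0 4944) (.nx 432
  82572 (.lg 2 false 1 47 47 16 8290 24720) .out)) .out))) .out) .out)))) (.na 469 119 (.na 447 116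
  (.nx 446 1321124 (.nr 445 524289 (.nr 437 112 .s1 (.nx 443 82572 (.nx 439 103 (.nr 438 835 (.l1
  (.ls 31 23 97)) (.l1 .sk)) (.nx 440 104 (.l1 .sk) (.nx 441 8193 (.lg 0 false 1 83 83 29 0 173040)
  (.nr 442 8193 (.lg 0 true 1 73 79 29 0 173040) .out)))) (.nr 444 513 (.lg 0 true 1 71 71 29 0
  34608) .out))) .out) .out) (.na 458 118 (.nx 457 1321124 (.nr 456 524289 (.nr 448 116 .s1 (.nx
  450 103 (.nr 449 849 (.l1 (.ls 17 19 94)) (.l1 .sk)) (.nx 451 104 (.l1 .sk) (.nx 452 8193 (.lg 0
  false 1 79 79 19 0 4944) (.nr 455 8193 (.nr 453 513 (.lg 0 true 1 61 61 19 0 4944) (.nx 454 82572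
  (.lg 2 true 1 59 59 19 8290 34608) .out)) .out))))) .out) .out) (.nx 468 1321124 (.nr 467 524289
  (.nr 459 118 .s1 (.nx 462 104 (.nx 461 103 (.nr 460 857 (.l1 (.ls 16 19 92)) (.l1 .sk)) (.l1
  .sk)) (.nx 463 8193 (.lg 0 true 1 79 79 19 0 4944) (.nr 466 8193 (.nr 464 513 (.lg 2 false 1 61
  61 19 576593 4944) (.nx 465 82572 (.lg 2 true 1 47 47 19 8290 4944) .out)) .out)))) .out) .out)))
  (.na 480 122 (.nx 479 1321124 (.nr 478 524289 (.nr 470 119 .s1 (.nx 474 8193 (.nx 472 103 (.nr
  471 878 (.l1 (.ls 16 16 92)) (.l1 .sk)) (.nx 473 104 (.l1 .sk) (.lg 0 false 1 79 79 16 0 17304)))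
  (.nr 477 8193 (.nr 475 513 (.lg 2 true 1 61 61 16 571747 17304) (.nx 476 82572 (.lg 2 true 1 59
  59 16 8290 34608) .out)) .out))) .out) .out) (.na 491 128 (.nx 490 1321124 (.nr 489 524289 (.nr
  481 122 .s1 (.nx 483 103 (.nr 482 921 (.l1 (.ls 17 19 89)) (.l1 .sk)) (.nx 484 104 (.l1 .sk) (.nx
  485 8193 (.lg 0 true 1 79 79 19 0 4944) (.nr 488 8193 (.nr 486 513 (.lg 2 false 1 61 61 19 557688
  173040) (.nx 487 82572 (.lg 2 false 1 47 47 19 8290 173040) .out)) .out))))) .out) .out) (.nx 500
  1321124 (.nr 499 1048577 (.nr 492 128 .s1 (.nx 495 8193 (.nx 493 205 (.l1 (.ls 71 29 331)) (.nr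
  494 524289 (.lg 0 false 1 73 73 19 0 4944) .out)) (.nr 498 8193 (.nr 496 1025 (.lg 0 true 1 67 67
  19 0 4944) (.nx 497 82572 (.lg 2 true 1 47 47 19 5372 4944) .out)) .out))) .out) .out))))) (.na
  546 149 (.na 520 136 (.na 502 131 .ne (.na 510 133 (.nx 509 660563 (.nr 508 1048577 (.nr 503 131
  .s1 (.nx 504 205 (.l1 (.ls 59 19 323)) (.nr 507 524289 (.nr 505 8193 (.lg 0 false 1 71 71 16 0
  4944) (.nx 506 6503 (.lg 0 true 1 67 67 16 0 2472) .out)) .out))) .out) .out) (.nx 519 660563
  (.nr 518 1048577 (.nr 511 133 .s1 (.nx 514 6503 (.nx 512 205 (.l1 (.ls 73 29 318)) (.nr 513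
  524289 (.lg 0 false 1 79 79 17 0 17304) .out)) (.nr 517 8193 (.nr 515 1025 (.lg 0 true 1 67 67 17
  0 17304) (.nx 516 82572 (.lg 2 false 1 53 53 17 6768 17304) .out)) .out))) .out) .out))) (.na 530
  137 (.nx 529 660563 (.nr 528 1048577 (.nr 521 136 .s1 (.nx 522 205 (.l1 (.ls 79 31 312)) (.nr 527
  524289 (.nx 525 82572 (.nx 523 6503 (.lg 0 false 1 83 83 29 0 34608) (.nr 524 8193 (.lg 0 true 1
  73 73 29 0 34608) .out)) (.nr 526 1025 (.lg 0 true 1 71 71 29 0 4944) .out)) .out))) .out) .out)
  (.na 538 139 (.nx 537 660563 (.nr 536 1048577 (.nr 531 137 .s1 (.nx 532 205 (.l1 (.ls 79 19 309))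
  (.nr 535 524289 (.nr 533 8193 (.lg 0 false 1 79 79 16 0 519120) (.nx 534 6503 (.lg 0 true 1 71 71
  16 0 2472) .out)) .out))) .out) .out) (.nx 545 660563 (.nr 544 1048577 (.nr 539 139 .s1 (.nx 540
  205 (.l1 (.ls 59 19 305)) (.nr 543 524289 (.nr 541 8193 (.lg 0 false 1 71 71 16 0 2472) (.nx 542
  6503 (.lg 0 true 1 71 71 16 0 2472) .out)) .out))) .out) .out)))) (.na 565 157 (.na 554 151 (.nx
  553 660563 (.nr 552 1048577 (.nr 547 149 .s1 (.nx 548 205 (.l1 (.ls 59 19 285)) (.nr 551 524289
  (.nr 549 8193 (.lg 0 false 1 67 67 16 0 2472) (.nx 550 6503 (.lg 0 true 1 67 67 16 0 4944) .out))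
  .out))) .out) .out) (.na 555 152 (.lg 0 false 1 0 0 16 0 24) (.nx 564 660563 (.nr 563 1048577
  (.nr 556 152 .s1 (.nx 559 6503 (.nx 557 205 (.l1 (.ls 79 31 279)) (.nr 558 524289 (.lg 0 false 1
  83 83 29 0 24720) .out)) (.nr 562 8193 (.nx 560 82572 (.lg 0 true 1 73 73 29 0 24720) (.nr 561
  1025 (.lg 0 true 1 71 71 29 0 4944) .out)) .out))) .out) .out))) (.na 566 158 (.lg 0 false 1 0 0
  16 0 24) (.na 574 161 (.nx 573 660563 (.nr 572 1048577 (.nr 567 158 .s1 (.nx 568 205 (.l1 (.ls 73
  29 268)) (.nr 571 524289 (.nr 569 8193 (.lg 0 false 1 79 79 19 0 4944) (.nx 570 6503 (.lg 0 true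
  1 71 71 19 0 4944) .out)) .out))) .out) .out) (.nx 581 660563 (.nr 580 1048577 (.nr 575 161 .s1
  (.nx 576 205 (.l1 (.ls 71 19 264)) (.nr 579 524289 (.nr 577 8193 (.lg 0 true 1 73 73 17 0 17304)
  (.nx 578 6503 (.lg 0 false 1 73 73 17 0 17304) .out)) .out))) .out) .out))))))) (.na 727 227 (.na
  650 194 (.na 623 179 (.na 606 167 (.na 590 164 (.nx 589 660563 (.nr 588 1048577 (.nr 583 163 .s1
  (.nx 584 205 (.l1 (.ls 73 17 260)) (.nr 587 524289 (.nr 585 8193 (.lg 0 false 1 71 71 16 0 2472)
  (.nx 586 6503 (.lg 0 true 1 67 67 16 0 2472) .out)) .out))) .out) .out) (.na 598 166 (.nx 597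
  660563 (.nr 596 1048577 (.nr 591 164 .s1 (.nx 592 205 (.l1 (.ls 71 29 259)) (.nr 595 524289 (.nr
  593 8193 (.lg 0 true 1 79 79 23 0 4944) (.nx 594 6503 (.lg 0 false 1 73 73 23 0 4944) .out))
  .out))) .out) .out) (.nx 605 660563 (.nr 604 1048577 (.nr 599 166 .s1 (.nx 600 205 (.l1 (.ls 59
  29 256)) (.nr 603 524289 (.nr 601 8193 (.lg 0 false 1 71 71 19 0 4944) (.nx 602 6503 (.lg 0 true
  1 67 67 19 0 4944) .out)) .out))) .out) .out))) (.na 614 169 (.nx 613 660563 (.nr 612 1048577
  (.nr 607 167 .s1 (.nx 608 205 (.l1 (.ls 73 17 254)) (.nr 611 524289 (.nr 609 8193 (.lg 0 false 1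
  71 71 16 0 2472) (.nx 610 6503 (.lg 0 true 1 67 67 16 0 2472) .out)) .out))) .out) .out) (.na 622
  173 (.nx 621 660563 (.nr 620 1048577 (.nr 615 169 .s1 (.nx 616 205 (.l1 (.ls 61 19 251)) (.nr 619
  524289 (.nr 617 8193 (.lg 0 false 1 73 73 17 0 32136) (.nx 618 6503 (.lg 0 true 1 71 71 17 0
  32136) .out)) .out))) .out) .out) (.lg 0 false 1 0 0 16 0 24)))) (.na 640 184 (.na 631 181 (.nx
  630 660563 (.nr 629 1048577 (.nr 624 179 .s1 (.nx 625 205 (.l1 (.ls 59 17 237)) (.nr 628 524289
  (.nr 626 8193 (.lg 0 false 1 71 71 16 0 34608) (.nx 627 6503 (.lg 0 true 1 67 67 16 0 2472)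
  .out)) .out))) .out) .out) (.na 632 182 (.lg 0 false 1 0 0 16 0 24) (.nx 639 660563 (.nr 638
  1048577 (.nr 633 182 .s1 (.nx 634 205 (.l1 (.ls 73 31 233)) (.nr 637 524289 (.nr 635 8193 (.lg 0
  true 1 79 79 31 0 449904) (.nx 636 6503 (.lg 0 false 1 73 73 31 0 449904) .out)) .out))) .out)
  .out))) (.na 648 191 (.nx 647 660563 (.nr 646 1048577 (.nr 641 184 .s1 (.nx 642 205 (.l1 (.ls 73
  29 231)) (.nr 645 524289 (.nr 643 8193 (.lg 0 true 1 79 79 31 0 4944) (.nx 644 6503 (.lg 0 false
  1 73 79 31 0 4944) .out)) .out))) .out) .out) (.na 649 193 (.lg 0 false 1 0 0 16 0 24) (.lg 0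
  false 1 0 0 16 0 24))))) (.na 686 208 (.na 667 199 (.na 658 196 (.nx 657 660563 (.nr 656 1048577
  (.nr 651 194 .s1 (.nx 652 205 (.l1 (.ls 59 23 219)) (.nr 655 524289 (.nx 653 6503 (.lg 0 true 1
  67 67 19 0 4944) (.nr 654 8193 (.lg 0 false 1 67 67 19 0 4944) .out)) .out))) .out) .out) (.na
  666 197 (.nx 665 660563 (.nr 664 1048577 (.nr 659 196 .s1 (.nx 660 205 (.l1 (.ls 67 29 217)) (.nr
  663 524289 (.nr 661 8193 (.lg 0 true 1 71 71 29 0 34608) (.nx 662 6503 (.lg 0 false 1 71 71 29 0
  34608) .out)) .out))) .out) .out) (.lg 0 false 1 0 0 16 0 24))) (.na 668 203 (.lg 0 false 1 0 0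
  16 0 24) (.na 676 206 (.nx 675 660563 (.nr 674 1048577 (.nr 669 203 .s1 (.nx 670 205 (.l1 (.ls 71
  19 210)) (.nr 673 524289 (.nr 671 8193 (.lg 0 true 1 73 73 19 0 17304) (.nx 672 6503 (.lg 0 false
  1 73 73 19 0 17304) .out)) .out))) .out) .out) (.nx 685 660563 (.nr 684 1048577 (.nr 677 206 .s1
  (.nx 678 205 (.l1 (.ls 53 23 207)) (.nr 683 524289 (.nr 680 8193 (.lg 0 false 2 59 59 23 0 4944)
  (.nx 682 6503 (.lg 0 true 2 59 59 23 0 34608) .out)) .out))) .out) .out)))) (.na 703 221 (.na 694
  211 (.nx 693 660563 (.nr 692 1048577 (.nr 687 208 .s1 (.nx 688 205 (.l1 (.ls 73 29 205)) (.nr 691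
  524289 (.nr 689 8193 (.lg 0 true 1 79 79 31 0 321360) (.nx 690 6503 (.lg 0 false 1 79 79 31 0
  321360) .out)) .out))) .out) .out) (.na 695 214 (.lg 0 false 1 0 0 16 0 24) (.nx 702 660563 (.nr
  701 1048577 (.nr 696 214 .s1 (.nx 697 205 (.l1 (.ls 59 23 199)) (.nr 700 524289 (.nr 698 8193
  (.lg 0 false 1 67 67 23 0 4944) (.nx 699 6503 (.lg 0 true 1 67 67 23 0 103824) .out)) .out)))
  .out) .out))) (.na 711 223 (.nx 710 660563 (.nr 709 1048577 (.nr 704 221 .s1 (.nx 705 205 (.l1
  (.ls 67 23 193)) (.nr 708 524289 (.nr 706 8193 (.lg 0 true 1 73 73 23 0 32136) (.nx 707 6503 (.lg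
  0 false 1 71 71 23 0 32136) .out)) .out))) .out) .out) (.na 719 224 (.nx 718 660563 (.nr 717
  1048577 (.nr 712 223 .s1 (.nx 713 205 (.l1 (.ls 73 17 191)) (.nr 716 524289 (.nr 714 8193 (.lg 0
  false 1 67 67 16 0 2472) (.nx 715 6503 (.lg 0 true 1 67 67 16 0 2472) .out)) .out))) .out) .out)
  (.nx 726 660563 (.nr 725 1048577 (.nr 720 224 .s1 (.nx 721 205 (.l1 (.ls 71 29 190)) (.nr 724
  524289 (.nr 722 8193 (.lg 0 true 1 79 79 31 0 34608) (.nx 723 6503 (.lg 0 false 1 73 73 31 0
  34608) .out)) .out))) .out) .out)))))) (.na 795 257 (.na 761 239 (.na 744 233 (.na 728 229 (.lg 0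
  false 1 0 0 16 0 24) (.na 736 232 (.nx 735 660563 (.nr 734 1048577 (.nr 729 229 .s1 (.nx 730 205
  (.l1 (.ls 53 17 186)) (.nr 733 524289 (.nr 731 8193 (.lg 0 false 1 61 61 17 0 2472) (.nx 732 6503
  (.lg 0 true 1 61 61 17 0 4944) .out)) .out))) .out) .out) (.nx 743 660563 (.nr 742 1048577 (.nr
  737 232 .s1 (.nx 738 205 (.l1 (.ls 79 23 184)) (.nr 741 524289 (.nr 739 8193 (.lg 0 true 1 79 79
  23 0 4944) (.nx 740 6503 (.lg 0 false 1 79 79 23 0 4944) .out)) .out))) .out) .out))) (.na 745
  236 (.lg 0 false 1 0 0 16 0 24) (.na 753 238 (.nx 752 660563 (.nr 751 1048577 (.nr 746 236 .s1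
  (.nx 747 205 (.l1 (.ls 53 23 181)) (.nr 750 524289 (.nr 748 8193 (.lg 0 true 1 71 71 23 0 4944)
  (.nx 749 6503 (.lg 0 false 1 71 71 23 0 4944) .out)) .out))) .out) .out) (.nx 760 660563 (.nr 759
  1048577 (.nr 754 238 .s1 (.nx 755 205 (.l1 (.ls 73 31 179)) (.nr 758 524289 (.nx 756 6503 (.lg 0
  false 1 73 73 31 0 34608) (.nr 757 8193 (.lg 0 true 1 73 73 31 0 34608) .out)) .out))) .out)
  .out)))) (.na 778 247 (.na 769 241 (.nx 768 660563 (.nr 767 1048577 (.nr 762 239 .s1 (.nx 763 205
  (.l1 (.ls 53 17 178)) (.nr 766 524289 (.nr 764 8193 (.lg 0 false 1 67 67 17 0 34608) (.nx 765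
  6503 (.lg 0 true 1 61 61 17 0 2472) .out)) .out))) .out) .out) (.na 770 244 (.lg 0 false 1 0 0 16
  0 24) (.nx 777 660563 (.nr 776 1048577 (.nr 771 244 .s1 (.nx 772 205 (.l1 (.ls 59 23 175)) (.nr
  775 524289 (.nx 773 6503 (.lg 0 false 1 71 71 23 0 4944) (.nr 774 8193 (.lg 0 true 1 71 71 23 0
  4944) .out)) .out))) .out) .out))) (.na 786 251 (.nx 785 660563 (.nr 784 1048577 (.nr 779 247 .s1
  (.nx 780 205 (.l1 (.ls 83 17 173)) (.nr 783 524289 (.nr 781 8193 (.lg 0 true 1 73 73 17 0 32136)
  (.nx 782 6503 (.lg 0 false 1 71 71 17 0 32136) .out)) .out))) .out) .out) (.na 787 256 (.lg 0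
  false 1 0 0 16 0 24) (.nx 794 660563 (.nr 793 1048577 (.nr 788 256 .s1 (.nx 789 1292 (.l1 (.ls 67
  43 6523)) (.nr 792 262145 (.nr 790 16385 (.lg 0 true 1 73 73 29 0 34608) (.nx 791 6503 (.lg 0
  false 1 61 61 29 0 4944) .out)) .out))) .out) .out))))) (.na 4235 2897 (.na 2145 1024 (.na 1309
  512 (.nx 1308 82572 (.nr 1307 1048577 (.nr 796 257 .s1 (.nx 1051 647 (.la (.ls 73 31 1631)) (.nr
  1306 262145 (.la (.lg 0 false 1 73 73 23 0)) .out))) .out) .out) (.na 1843 725 (.nx 1842 82572
  (.nr 1841 1048577 (.nr 1310 512 .s1 (.nx 1627 647 (.nx 1413 103 (.nr 1412 5216 (.lx (.lp 43 19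
  182)) (.l1 .sk)) (.nx 1414 104 (.l1 .sk) (.la (.ls 79 29 799)))) (.nr 1840 262145 (.la (.lg 0
  false 1 67 67 29 0)) .out))) .out) .out) (.nx 2144 3252 (.nr 2143 262145 (.nr 1844 725 .s1 (.la
  (.ls 53 43 14589))) .out) .out))) (.na 2573 1449 (.nx 2572 3252 (.nr 2571 262145 (.nr 2146 1024
  .s1 (.la (.ls 53 41 10330))) .out) .out) (.na 3279 2048 (.nx 3278 1627 (.nr 3277 131073 (.nr 2574
  1449 .s1 (.nx 2677 103 (.nr 2676 14733 (.lx (.lp 43 29 513)) (.l1 .sk)) (.nx 2678 104 (.l1 .sk)
  (.la (.ls 53 31 1822))))) .out) .out) (.nx 4234 1627 (.nr 4233 131073 (.nr 3280 2048 .s1 (.nx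
  3383 103 (.nr 3382 20841 (.lx (.lp 47 29 725)) (.l1 .sk)) (.nx 3384 104 (.l1 .sk) (.la (.ls 53 31
  1290))))) .out) .out)))) (.na 6184 16384 (.na 4885 4096 (.nx 4884 647 (.nr 4883 65537 (.nr 4236
  2897 .s1 (.nx 4398 163 (.lx (.lp 47 31 1025)) (.nr 4882 32769 (.lx (.lp 43 31 1025)) .out)))
  .out) .out) (.na 5535 8192 (.nx 5534 647 (.nr 5533 65537 (.nr 4886 4096 .s1 (.nx 5048 163 (.lx
  (.lp 47 31 2049)) (.nr 5532 32769 (.lx (.lp 43 37 2049)) .out))) .out) .out) (.nx 6183 647 (.nr
  6182 65537 (.nr 5536 8192 .s1 (.lx (.lp 43 41 4097))) .out) .out))) (.na 7160 65536 (.na 6834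
  32768 (.nx 6833 647 (.nr 6832 131073 (.nr 6185 16384 .s1 (.nx 6347 163 (.lx (.lp 16 0 8193)) (.nr
  6831 65537 (.lx (.lp 41 43 8193)) .out))) .out) .out) (.nx 7159 324 (.nr 7158 131073 (.nr 6835
  32768 .s1 (.lx (.lp 43 47 16385))) .out) .out)) (.na 7486 131073 (.nx 7485 324 (.nr 7484 262145
  (.nr 7161 65536 .s1 (.lx (.lp 43 47 32769))) .out) .out) .out)))))))

theorem c120 :
    OkQ ckI L8 152 161 1099511627776 0 34359738368 1 1099511627776 ∧
    OkQ ckI L9 209 363 1099511627776 0 34359738368 1 1099511627776 ∧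
    OkQ ckI L6 103 23 1099511627776 0 34359738368 1 1099511627776 := by
  refine ⟨?_, ?_, ?_⟩
  · refine fin 1368 13982 T120_0 ?_
    refine jn 4 (by decide +kernel) ?_
    refine jn 15 (by decide +kernel) ?_
    refine jn 19 (by decide +kernel) ?_
    refine jn 33 (by decide +kernel) ?_
    refine jn 44 (by decide +kernel) ?_
    refine jn 52 (by decide +kernel) ?_
    refine jn 62 (by decide +kernel) ?_
    refine jn 78 (by decide +kernel) ?_
    refine jn 88 (by decide +kernel) ?_
    refine jn 98 (by decide +kernel) ?_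
    refine jn 109 (by decide +kernel) ?_
    refine jn 119 (by decide +kernel) ?_
    refine jn 129 (by decide +kernel) ?_
    refine jn 138 (by decide +kernel) ?_
    refine jn 149 (by decide +kernel) ?_
    refine jn 156 (by decide +kernel) ?_
    refine jn 160 (by decide +kernel) ?_
    refine jn 169 (by decide +kernel) ?_
    refine jn 184 (by decide +kernel) ?_
    refine jn 194 (by decide +kernel) ?_
    refine jn 204 (by decide +kernel) ?_
    refine jn 214 (by decide +kernel) ?_
    refine jn 225 (by decide +kernel) ?_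
    refine jn 235 (by decide +kernel) ?_
    refine jn 246 (by decide +kernel) ?_
    refine jn 257 (by decide +kernel) ?_
    refine jn 265 (by decide +kernel) ?_
    refine jn 282 (by decide +kernel) ?_
    refine jn 298 (by decide +kernel) ?_
    refine jn 301 (by decide +kernel) ?_
    refine jn 326 (by decide +kernel) ?_
    refine jn 362 (by decide +kernel) ?_
    refine jn 383 (by decide +kernel) ?_
    refine jn 411 (by decide +kernel) ?_
    refine jn 447 (by decide +kernel) ?_
    refine jn 478 (by decide +kernel) ?_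
    refine jn 513 (by decide +kernel) ?_
    refine jn 527 (by decide +kernel) ?_
    refine jn 554 (by decide +kernel) ?_
    refine jn 581 (by decide +kernel) ?_
    refine jn 618 (by decide +kernel) ?_
    refine jn 620 (by decide +kernel) ?_
    refine jn 627 (by decide +kernel) ?_
    refine jn 630 (by decide +kernel) ?_
    refine jn 632 (by decide +kernel) ?_
    refine jn 633 (by decide +kernel) ?_
    refine jn 635 (by decide +kernel) ?_
    refine jn 636 (by decide +kernel) ?_
    refine jn 652 (by decide +kernel) ?_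
    refine jn 658 (by decide +kernel) ?_
    refine jn 670 (by decide +kernel) ?_
    refine jn 671 (by decide +kernel) ?_
    refine jn 672 (by decide +kernel) ?_
    refine jn 680 (by decide +kernel) ?_
    refine jn 683 (by decide +kernel) ?_
    refine jn 688 (by decide +kernel) ?_
    refine jn 692 (by decide +kernel) ?_
    refine jn 707 (by decide +kernel) ?_
    refine jn 708 (by decide +kernel) ?_
    refine jn 716 (by decide +kernel) ?_
    refine jn 717 (by decide +kernel) ?_
    refine jn 723 (by decide +kernel) ?_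
    refine jn 724 (by decide +kernel) ?_
    refine jn 732 (by decide +kernel) ?_
    refine jn 736 (by decide +kernel) ?_
    refine jn 750 (by decide +kernel) ?_
    refine jn 758 (by decide +kernel) ?_
    refine jn 767 (by decide +kernel) ?_
    refine jn 770 (by decide +kernel) ?_
    refine jn 780 (by decide +kernel) ?_
    refine jn 783 (by decide +kernel) ?_
    refine jn 795 (by decide +kernel) ?_
    refine jn 800 (by decide +kernel) ?_
    refine jn 803 (by decide +kernel) ?_
    refine jn 804 (by decide +kernel) ?_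
    refine jn 818 (by decide +kernel) ?_
    refine jn 827 (by decide +kernel) ?_
    refine jn 828 (by decide +kernel) ?_
    refine jn 835 (by decide +kernel) ?_
    refine jn 836 (by decide +kernel) ?_
    refine jn 840 (by decide +kernel) ?_
    refine jn 842 (by decide +kernel) ?_
    refine jn 852 (by decide +kernel) ?_
    refine jn 863 (by decide +kernel) ?_
    refine jn 866 (by decide +kernel) ?_
    refine jn 870 (by decide +kernel) ?_
    refine jn 875 (by decide +kernel) ?_
    refine jn 882 (by decide +kernel) ?_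
    refine jn 887 (by decide +kernel) ?_
    refine jn 890 (by decide +kernel) ?_
    refine jn 891 (by decide +kernel) ?_
    refine jn 910 (by decide +kernel) ?_
    refine jn 921 (by decide +kernel) ?_
    refine jn 926 (by decide +kernel) ?_
    refine jn 927 (by decide +kernel) ?_
    refine jn 937 (by decide +kernel) ?_
    refine jn 943 (by decide +kernel) ?_
    refine jn 947 (by decide +kernel) ?_
    refine jn 962 (by decide +kernel) ?_
    refine jn 965 (by decide +kernel) ?_
    refine jn 971 (by decide +kernel) ?_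
    refine jn 973 (by decide +kernel) ?_
    refine jn 978 (by decide +kernel) ?_
    refine jn 981 (by decide +kernel) ?_
    refine jn 990 (by decide +kernel) ?_
    refine jn 1005 (by decide +kernel) ?_
    refine jn 1013 (by decide +kernel) ?_
    refine jn 1022 (by decide +kernel) ?_
    refine jn 1025 (by decide +kernel) ?_
    refine jn 1037 (by decide +kernel) ?_
    refine jn 1042 (by decide +kernel) ?_
    refine jn 1055 (by decide +kernel) ?_
    refine jn 1058 (by decide +kernel) ?_
    refine jn 1070 (by decide +kernel) ?_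
    refine jn 1077 (by decide +kernel) ?_
    refine jn 1083 (by decide +kernel) ?_
    refine jn 1090 (by decide +kernel) ?_
    refine jn 1091 (by decide +kernel) ?_
    refine jn 1097 (by decide +kernel) ?_
    refine jn 1117 (by decide +kernel) ?_
    refine jn 1121 (by decide +kernel) ?_
    refine jn 1131 (by decide +kernel) ?_
    refine jn 1284 (by decide +kernel) ?_
    refine jn 1337 (by decide +kernel) ?_
    refine jn 1353 (by decide +kernel) ?_
    refine jn 1356 (by decide +kernel) ?_
    refine jn 1361 (by decide +kernel) ?_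
    refine jn 1372 (by decide +kernel) ?_
    refine jn 1376 (by decide +kernel) ?_
    refine jn 1387 (by decide +kernel) ?_
    refine jn 1388 (by decide +kernel) ?_
    refine jn 1389 (by decide +kernel) ?_
    refine jn 1408 (by decide +kernel) ?_
    refine jn 1412 (by decide +kernel) ?_
    refine jn 1417 (by decide +kernel) ?_
    refine jn 1433 (by decide +kernel) ?_
    refine jn 1435 (by decide +kernel) ?_
    refine jn 1436 (by decide +kernel) ?_
    refine jn 1441 (by decide +kernel) ?_
    refine jn 1453 (by decide +kernel) ?_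
    refine jn 1460 (by decide +kernel) ?_
    refine jn 1461 (by decide +kernel) ?_
    refine jn 1468 (by decide +kernel) ?_
    refine jn 1471 (by decide +kernel) ?_
    refine jn 1483 (by decide +kernel) ?_
    refine jn 1487 (by decide +kernel) ?_
    refine jn 1491 (by decide +kernel) ?_
    refine jn 1505 (by decide +kernel) ?_
    refine jn 1513 (by decide +kernel) ?_
    refine jn 1520 (by decide +kernel) ?_
    refine jn 1523 (by decide +kernel) ?_
    refine jn 1532 (by decide +kernel) ?_
    refine jn 1540 (by decide +kernel) ?_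
    refine jn 1548 (by decide +kernel) ?_
    refine jn 1557 (by decide +kernel) ?_
    refine jn 1569 (by decide +kernel) ?_
    refine jn 1574 (by decide +kernel) ?_
    refine jn 1581 (by decide +kernel) ?_
    refine jn 1586 (by decide +kernel) ?_
    refine jn 1590 (by decide +kernel) ?_
    refine jn 1601 (by decide +kernel) ?_
    refine jn 1602 (by decide +kernel) ?_
    refine jn 1605 (by decide +kernel) ?_
    refine jn 1615 (by decide +kernel) ?_
    refine jn 1626 (by decide +kernel) ?_
    refine jn 1635 (by decide +kernel) ?_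
    refine jn 1647 (by decide +kernel) ?_
    refine jn 1649 (by decide +kernel) ?_
    refine jn 1650 (by decide +kernel) ?_
    refine jn 1659 (by decide +kernel) ?_
    refine jn 1669 (by decide +kernel) ?_
    refine jn 1674 (by decide +kernel) ?_
    refine jn 1675 (by decide +kernel) ?_
    refine jn 1682 (by decide +kernel) ?_
    refine jn 1685 (by decide +kernel) ?_
    refine jn 1695 (by decide +kernel) ?_
    refine jn 1701 (by decide +kernel) ?_
    refine jn 1705 (by decide +kernel) ?_
    refine jn 1715 (by decide +kernel) ?_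
    refine jn 1722 (by decide +kernel) ?_
    refine jn 1730 (by decide +kernel) ?_
    refine jn 1734 (by decide +kernel) ?_
    refine jn 1737 (by decide +kernel) ?_
    refine jn 1746 (by decide +kernel) ?_
    refine jn 1755 (by decide +kernel) ?_
    refine jn 1762 (by decide +kernel) ?_
    refine jn 1791 (by decide +kernel) ?_
    refine jn 1815 (by decide +kernel) ?_
    refine jn 1846 (by decide +kernel) ?_
    refine jn 1861 (by decide +kernel) ?_
    refine jn 1886 (by decide +kernel) ?_
    refine jn 1919 (by decide +kernel) ?_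
    refine jn 1939 (by decide +kernel) ?_
    refine jn 1975 (by decide +kernel) ?_
    refine jn 1994 (by decide +kernel) ?_
    refine jn 2023 (by decide +kernel) ?_
    refine jn 2066 (by decide +kernel) ?_
    refine jn 2090 (by decide +kernel) ?_
    refine jn 2105 (by decide +kernel) ?_
    refine jn 2124 (by decide +kernel) ?_
    refine jn 2145 (by decide +kernel) ?_
    refine jn 2153 (by decide +kernel) ?_
    refine jn 2160 (by decide +kernel) ?_
    refine jn 2169 (by decide +kernel) ?_
    refine jn 2192 (by decide +kernel) ?_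
    refine jn 2217 (by decide +kernel) ?_
    refine jn 2225 (by decide +kernel) ?_
    refine jn 2238 (by decide +kernel) ?_
    refine jn 2262 (by decide +kernel) ?_
    refine jn 2277 (by decide +kernel) ?_
    refine jn 2292 (by decide +kernel) ?_
    refine jn 2304 (by decide +kernel) ?_
    refine jn 2328 (by decide +kernel) ?_
    refine jn 2348 (by decide +kernel) ?_
    refine jn 2389 (by decide +kernel) ?_
    refine jn 2416 (by decide +kernel) ?_
    refine jn 2437 (by decide +kernel) ?_
    refine jn 2458 (by decide +kernel) ?_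
    refine jn 2476 (by decide +kernel) ?_
    refine jn 2518 (by decide +kernel) ?_
    refine jn 2546 (by decide +kernel) ?_
    refine jn 2582 (by decide +kernel) ?_
    refine jn 2613 (by decide +kernel) ?_
    refine jn 2634 (by decide +kernel) ?_
    refine jn 2668 (by decide +kernel) ?_
    refine jn 2713 (by decide +kernel) ?_
    refine jn 2738 (by decide +kernel) ?_
    refine jn 2768 (by decide +kernel) ?_
    refine jn 2788 (by decide +kernel) ?_
    refine jn 2806 (by decide +kernel) ?_
    refine jn 2820 (by decide +kernel) ?_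
    refine jn 2841 (by decide +kernel) ?_
    refine jn 2851 (by decide +kernel) ?_
    refine jn 2862 (by decide +kernel) ?_
    refine jn 2863 (by decide +kernel) ?_
    refine jn 2889 (by decide +kernel) ?_
    refine jn 2901 (by decide +kernel) ?_
    refine jn 2926 (by decide +kernel) ?_
    refine jn 2946 (by decide +kernel) ?_
    refine jn 2966 (by decide +kernel) ?_
    refine jn 2989 (by decide +kernel) ?_
    refine jn 3007 (by decide +kernel) ?_
    refine jn 3029 (by decide +kernel) ?_
    refine jn 3049 (by decide +kernel) ?_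
    refine jn 3061 (by decide +kernel) ?_
    refine jn 3081 (by decide +kernel) ?_
    refine jn 3102 (by decide +kernel) ?_
    refine jn 3138 (by decide +kernel) ?_
    refine jn 3157 (by decide +kernel) ?_
    refine jn 3177 (by decide +kernel) ?_
    refine jn 3193 (by decide +kernel) ?_
    refine jn 3198 (by decide +kernel) ?_
    refine jn 3201 (by decide +kernel) ?_
    refine jn 3218 (by decide +kernel) ?_
    refine jn 3258 (by decide +kernel) ?_
    refine jn 3295 (by decide +kernel) ?_
    refine jn 3323 (by decide +kernel) ?_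
    refine jn 3366 (by decide +kernel) ?_
    refine jn 3401 (by decide +kernel) ?_
    refine jn 3431 (by decide +kernel) ?_
    refine jn 3483 (by decide +kernel) ?_
    refine jn 3527 (by decide +kernel) ?_
    refine jn 3586 (by decide +kernel) ?_
    refine jn 3621 (by decide +kernel) ?_
    refine jn 3661 (by decide +kernel) ?_
    refine jn 3698 (by decide +kernel) ?_
    refine jn 3735 (by decide +kernel) ?_
    refine jn 3775 (by decide +kernel) ?_
    refine jn 3818 (by decide +kernel) ?_
    refine jn 3993 (by decide +kernel) ?_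
    refine jn 4023 (by decide +kernel) ?_
    refine jn 4073 (by decide +kernel) ?_
    refine jn 4113 (by decide +kernel) ?_
    refine jn 4153 (by decide +kernel) ?_
    refine jn 4217 (by decide +kernel) ?_
    refine jn 4249 (by decide +kernel) ?_
    refine jn 4302 (by decide +kernel) ?_
    refine jn 4351 (by decide +kernel) ?_
    refine jn 4387 (by decide +kernel) ?_
    refine jn 4418 (by decide +kernel) ?_
    refine jn 4466 (by decide +kernel) ?_
    refine jn 4518 (by decide +kernel) ?_
    refine jn 4562 (by decide +kernel) ?_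
    refine jn 4583 (by decide +kernel) ?_
    refine jn 4633 (by decide +kernel) ?_
    refine jn 4686 (by decide +kernel) ?_
    refine jn 4738 (by decide +kernel) ?_
    refine jn 4786 (by decide +kernel) ?_
    refine jn 4827 (by decide +kernel) ?_
    refine jn 5003 (by decide +kernel) ?_
    refine jn 5069 (by decide +kernel) ?_
    refine jn 5138 (by decide +kernel) ?_
    refine jn 5193 (by decide +kernel) ?_
    refine jn 5242 (by decide +kernel) ?_
    refine jn 5305 (by decide +kernel) ?_
    refine jn 5362 (by decide +kernel) ?_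
    refine jn 5413 (by decide +kernel) ?_
    refine jn 5467 (by decide +kernel) ?_
    refine jn 5537 (by decide +kernel) ?_
    refine jn 5605 (by decide +kernel) ?_
    refine jn 5669 (by decide +kernel) ?_
    refine jn 5742 (by decide +kernel) ?_
    refine jn 5797 (by decide +kernel) ?_
    refine jn 5853 (by decide +kernel) ?_
    refine jn 5922 (by decide +kernel) ?_
    refine jn 5959 (by decide +kernel) ?_
    refine jn 6030 (by decide +kernel) ?_
    refine jn 6082 (by decide +kernel) ?_
    refine jn 6149 (by decide +kernel) ?_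
    refine jn 6221 (by decide +kernel) ?_
    refine jn 6373 (by decide +kernel) ?_
    refine jn 6441 (by decide +kernel) ?_
    refine jn 6519 (by decide +kernel) ?_
    refine jn 6566 (by decide +kernel) ?_
    refine jn 6645 (by decide +kernel) ?_
    refine jn 6705 (by decide +kernel) ?_
    refine jn 6771 (by decide +kernel) ?_
    refine jn 6841 (by decide +kernel) ?_
    refine jn 6911 (by decide +kernel) ?_
    refine jn 6981 (by decide +kernel) ?_
    refine jn 7063 (by decide +kernel) ?_
    refine jn 7129 (by decide +kernel) ?_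
    refine jn 7190 (by decide +kernel) ?_
    refine jn 7261 (by decide +kernel) ?_
    refine jn 7325 (by decide +kernel) ?_
    refine jn 7399 (by decide +kernel) ?_
    refine jn 7470 (by decide +kernel) ?_
    refine jn 7546 (by decide +kernel) ?_
    refine jn 7611 (by decide +kernel) ?_
    refine jn 7694 (by decide +kernel) ?_
    refine jn 7754 (by decide +kernel) ?_
    refine jn 7823 (by decide +kernel) ?_
    refine jn 7895 (by decide +kernel) ?_
    refine jn 7974 (by decide +kernel) ?_
    refine jn 8119 (by decide +kernel) ?_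
    refine jn 8366 (by decide +kernel) ?_
    refine jn 8514 (by decide +kernel) ?_
    refine jn 8657 (by decide +kernel) ?_
    refine jn 8756 (by decide +kernel) ?_
    refine jn 8839 (by decide +kernel) ?_
    refine jn 8932 (by decide +kernel) ?_
    refine jn 9012 (by decide +kernel) ?_
    refine jn 9082 (by decide +kernel) ?_
    refine jn 9133 (by decide +kernel) ?_
    refine jn 9180 (by decide +kernel) ?_
    refine jn 9239 (by decide +kernel) ?_
    refine jn 9285 (by decide +kernel) ?_
    refine jn 9332 (by decide +kernel) ?_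
    refine jn 9619 (by decide +kernel) ?_
    refine jn 9735 (by decide +kernel) ?_
    refine jn 9825 (by decide +kernel) ?_
    refine jn 9921 (by decide +kernel) ?_
    refine jn 10005 (by decide +kernel) ?_
    refine jn 10077 (by decide +kernel) ?_
    refine jn 10140 (by decide +kernel) ?_
    refine jn 10192 (by decide +kernel) ?_
    refine jn 10239 (by decide +kernel) ?_
    refine jn 10281 (by decide +kernel) ?_
    refine jn 10337 (by decide +kernel) ?_
    refine jn 10400 (by decide +kernel) ?_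
    refine jn 10439 (by decide +kernel) ?_
    refine jn 10490 (by decide +kernel) ?_
    refine jn 10533 (by decide +kernel) ?_
    refine jn 10568 (by decide +kernel) ?_
    refine jn 10610 (by decide +kernel) ?_
    refine jn 10856 (by decide +kernel) ?_
    refine jn 11030 (by decide +kernel) ?_
    refine jn 11173 (by decide +kernel) ?_
    refine jn 11254 (by decide +kernel) ?_
    refine jn 11345 (by decide +kernel) ?_
    refine jn 11414 (by decide +kernel) ?_
    refine jn 11492 (by decide +kernel) ?_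
    refine jn 11565 (by decide +kernel) ?_
    refine jn 11654 (by decide +kernel) ?_
    refine jn 11713 (by decide +kernel) ?_
    refine jn 11757 (by decide +kernel) ?_
    refine jn 11800 (by decide +kernel) ?_
    refine jn 11851 (by decide +kernel) ?_
    refine jn 11903 (by decide +kernel) ?_
    refine jn 12196 (by decide +kernel) ?_
    refine jn 12430 (by decide +kernel) ?_
    refine jn 12572 (by decide +kernel) ?_
    refine jn 12697 (by decide +kernel) ?_
    refine jn 12787 (by decide +kernel) ?_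
    refine jn 12855 (by decide +kernel) ?_
    refine jn 12945 (by decide +kernel) ?_
    refine jn 13385 (by decide +kernel) ?_
    refine jn 13545 (by decide +kernel) ?_
    refine jn 13745 (by decide +kernel) ?_
    refine jn 13883 (by decide +kernel) ?_
    exact je (by decide +kernel)
  · refine fin 15048 16404 T120_1 ?_
    refine jn 28 (by decide +kernel) ?_
    refine jn 47 (by decide +kernel) ?_
    refine jn 73 (by decide +kernel) ?_
    refine jn 96 (by decide +kernel) ?_
    refine jn 128 (by decide +kernel) ?_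
    refine jn 174 (by decide +kernel) ?_
    refine jn 211 (by decide +kernel) ?_
    refine jn 213 (by decide +kernel) ?_
    refine jn 214 (by decide +kernel) ?_
    refine jn 219 (by decide +kernel) ?_
    refine jn 222 (by decide +kernel) ?_
    refine jn 226 (by decide +kernel) ?_
    refine jn 227 (by decide +kernel) ?_
    refine jn 235 (by decide +kernel) ?_
    refine jn 239 (by decide +kernel) ?_
    refine jn 245 (by decide +kernel) ?_
    refine jn 247 (by decide +kernel) ?_
    refine jn 253 (by decide +kernel) ?_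
    refine jn 262 (by decide +kernel) ?_
    refine jn 266 (by decide +kernel) ?_
    refine jn 271 (by decide +kernel) ?_
    refine jn 272 (by decide +kernel) ?_
    refine jn 286 (by decide +kernel) ?_
    refine jn 291 (by decide +kernel) ?_
    refine jn 292 (by decide +kernel) ?_
    refine jn 301 (by decide +kernel) ?_
    refine jn 307 (by decide +kernel) ?_
    refine jn 311 (by decide +kernel) ?_
    refine jn 318 (by decide +kernel) ?_
    refine jn 326 (by decide +kernel) ?_
    refine jn 331 (by decide +kernel) ?_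
    refine jn 334 (by decide +kernel) ?_
    refine jn 343 (by decide +kernel) ?_
    refine jn 360 (by decide +kernel) ?_
    refine jn 363 (by decide +kernel) ?_
    refine jn 368 (by decide +kernel) ?_
    refine jn 374 (by decide +kernel) ?_
    refine jn 375 (by decide +kernel) ?_
    refine jn 376 (by decide +kernel) ?_
    refine jn 384 (by decide +kernel) ?_
    refine jn 388 (by decide +kernel) ?_
    refine jn 394 (by decide +kernel) ?_
    refine jn 396 (by decide +kernel) ?_
    refine jn 402 (by decide +kernel) ?_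
    refine jn 411 (by decide +kernel) ?_
    refine jn 415 (by decide +kernel) ?_
    refine jn 420 (by decide +kernel) ?_
    refine jn 426 (by decide +kernel) ?_
    refine jn 435 (by decide +kernel) ?_
    refine jn 440 (by decide +kernel) ?_
    refine jn 443 (by decide +kernel) ?_
    refine jn 450 (by decide +kernel) ?_
    refine jn 456 (by decide +kernel) ?_
    refine jn 463 (by decide +kernel) ?_
    refine jn 471 (by decide +kernel) ?_
    refine jn 479 (by decide +kernel) ?_
    refine jn 482 (by decide +kernel) ?_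
    refine jn 488 (by decide +kernel) ?_
    refine jn 535 (by decide +kernel) ?_
    refine jn 635 (by decide +kernel) ?_
    refine jn 759 (by decide +kernel) ?_
    refine jn 769 (by decide +kernel) ?_
    refine jn 772 (by decide +kernel) ?_
    refine jn 773 (by decide +kernel) ?_
    refine jn 784 (by decide +kernel) ?_
    refine jn 792 (by decide +kernel) ?_
    refine jn 793 (by decide +kernel) ?_
    refine jn 794 (by decide +kernel) ?_
    refine jn 805 (by decide +kernel) ?_
    refine jn 809 (by decide +kernel) ?_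
    refine jn 816 (by decide +kernel) ?_
    refine jn 821 (by decide +kernel) ?_
    refine jn 828 (by decide +kernel) ?_
    refine jn 832 (by decide +kernel) ?_
    refine jn 833 (by decide +kernel) ?_
    refine jn 838 (by decide +kernel) ?_
    refine jn 849 (by decide +kernel) ?_
    refine jn 856 (by decide +kernel) ?_
    refine jn 862 (by decide +kernel) ?_
    refine jn 864 (by decide +kernel) ?_
    refine jn 873 (by decide +kernel) ?_
    refine jn 877 (by decide +kernel) ?_
    refine jn 885 (by decide +kernel) ?_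
    refine jn 892 (by decide +kernel) ?_
    refine jn 896 (by decide +kernel) ?_
    refine jn 901 (by decide +kernel) ?_
    refine jn 909 (by decide +kernel) ?_
    refine jn 917 (by decide +kernel) ?_
    refine jn 924 (by decide +kernel) ?_
    refine jn 933 (by decide +kernel) ?_
    refine jn 942 (by decide +kernel) ?_
    refine jn 953 (by decide +kernel) ?_
    refine jn 964 (by decide +kernel) ?_
    refine jn 969 (by decide +kernel) ?_
    refine jn 979 (by decide +kernel) ?_
    refine jn 985 (by decide +kernel) ?_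
    refine jn 986 (by decide +kernel) ?_
    refine jn 997 (by decide +kernel) ?_
    refine jn 1005 (by decide +kernel) ?_
    refine jn 1006 (by decide +kernel) ?_
    refine jn 1007 (by decide +kernel) ?_
    refine jn 1019 (by decide +kernel) ?_
    refine jn 1027 (by decide +kernel) ?_
    refine jn 1030 (by decide +kernel) ?_
    refine jn 1034 (by decide +kernel) ?_
    refine jn 1041 (by decide +kernel) ?_
    refine jn 1045 (by decide +kernel) ?_
    refine jn 1046 (by decide +kernel) ?_
    refine jn 1054 (by decide +kernel) ?_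
    refine jn 1062 (by decide +kernel) ?_
    refine jn 1069 (by decide +kernel) ?_
    refine jn 1075 (by decide +kernel) ?_
    refine jn 1077 (by decide +kernel) ?_
    refine jn 1086 (by decide +kernel) ?_
    refine jn 1090 (by decide +kernel) ?_
    refine jn 1098 (by decide +kernel) ?_
    refine jn 1105 (by decide +kernel) ?_
    refine jn 1109 (by decide +kernel) ?_
    refine jn 1114 (by decide +kernel) ?_
    refine jn 1125 (by decide +kernel) ?_
    refine jn 1133 (by decide +kernel) ?_
    refine jn 1142 (by decide +kernel) ?_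
    refine jn 1147 (by decide +kernel) ?_
    refine jn 1162 (by decide +kernel) ?_
    refine jn 1170 (by decide +kernel) ?_
    refine jn 1181 (by decide +kernel) ?_
    refine jn 1200 (by decide +kernel) ?_
    refine jn 1219 (by decide +kernel) ?_
    refine jn 1240 (by decide +kernel) ?_
    refine jn 1271 (by decide +kernel) ?_
    refine jn 1290 (by decide +kernel) ?_
    refine jn 1314 (by decide +kernel) ?_
    refine jn 1336 (by decide +kernel) ?_
    refine jn 1368 (by decide +kernel) ?_
    refine jn 1392 (by decide +kernel) ?_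
    refine jn 1410 (by decide +kernel) ?_
    refine jn 1438 (by decide +kernel) ?_
    refine jn 1459 (by decide +kernel) ?_
    refine jn 1480 (by decide +kernel) ?_
    refine jn 1499 (by decide +kernel) ?_
    refine jn 1505 (by decide +kernel) ?_
    refine jn 1518 (by decide +kernel) ?_
    refine jn 1531 (by decide +kernel) ?_
    refine jn 1542 (by decide +kernel) ?_
    refine jn 1558 (by decide +kernel) ?_
    refine jn 1577 (by decide +kernel) ?_
    refine jn 1586 (by decide +kernel) ?_
    refine jn 1598 (by decide +kernel) ?_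
    refine jn 1613 (by decide +kernel) ?_
    refine jn 1629 (by decide +kernel) ?_
    refine jn 1635 (by decide +kernel) ?_
    refine jn 1655 (by decide +kernel) ?_
    refine jn 1667 (by decide +kernel) ?_
    refine jn 1674 (by decide +kernel) ?_
    refine jn 1683 (by decide +kernel) ?_
    refine jn 1694 (by decide +kernel) ?_
    refine jn 1706 (by decide +kernel) ?_
    refine jn 1717 (by decide +kernel) ?_
    refine jn 1731 (by decide +kernel) ?_
    refine jn 1746 (by decide +kernel) ?_
    refine jn 1758 (by decide +kernel) ?_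
    refine jn 1773 (by decide +kernel) ?_
    refine jn 1779 (by decide +kernel) ?_
    refine jn 1797 (by decide +kernel) ?_
    refine jn 1818 (by decide +kernel) ?_
    refine jn 1834 (by decide +kernel) ?_
    refine jn 1869 (by decide +kernel) ?_
    refine jn 1897 (by decide +kernel) ?_
    refine jn 1926 (by decide +kernel) ?_
    refine jn 1946 (by decide +kernel) ?_
    refine jn 1970 (by decide +kernel) ?_
    refine jn 1986 (by decide +kernel) ?_
    refine jn 2001 (by decide +kernel) ?_
    refine jn 2021 (by decide +kernel) ?_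
    refine jn 2058 (by decide +kernel) ?_
    refine jn 2075 (by decide +kernel) ?_
    refine jn 2118 (by decide +kernel) ?_
    refine jn 2143 (by decide +kernel) ?_
    refine jn 2181 (by decide +kernel) ?_
    refine jn 2203 (by decide +kernel) ?_
    refine jn 2222 (by decide +kernel) ?_
    refine jn 2240 (by decide +kernel) ?_
    refine jn 2255 (by decide +kernel) ?_
    refine jn 2268 (by decide +kernel) ?_
    refine jn 2300 (by decide +kernel) ?_
    refine jn 2318 (by decide +kernel) ?_
    refine jn 2335 (by decide +kernel) ?_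
    refine jn 2355 (by decide +kernel) ?_
    refine jn 2371 (by decide +kernel) ?_
    refine jn 2390 (by decide +kernel) ?_
    refine jn 2402 (by decide +kernel) ?_
    refine jn 2411 (by decide +kernel) ?_
    refine jn 2423 (by decide +kernel) ?_
    refine jn 2432 (by decide +kernel) ?_
    refine jn 2447 (by decide +kernel) ?_
    refine jn 2480 (by decide +kernel) ?_
    refine jn 2495 (by decide +kernel) ?_
    refine jn 2500 (by decide +kernel) ?_
    refine jn 2538 (by decide +kernel) ?_
    refine jn 2555 (by decide +kernel) ?_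
    refine jn 2579 (by decide +kernel) ?_
    refine jn 2600 (by decide +kernel) ?_
    refine jn 2614 (by decide +kernel) ?_
    refine jn 2628 (by decide +kernel) ?_
    refine jn 2646 (by decide +kernel) ?_
    refine jn 2675 (by decide +kernel) ?_
    refine jn 2702 (by decide +kernel) ?_
    refine jn 2728 (by decide +kernel) ?_
    refine jn 2763 (by decide +kernel) ?_
    refine jn 2796 (by decide +kernel) ?_
    refine jn 2835 (by decide +kernel) ?_
    refine jn 2875 (by decide +kernel) ?_
    refine jn 2902 (by decide +kernel) ?_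
    refine jn 2923 (by decide +kernel) ?_
    refine jn 2947 (by decide +kernel) ?_
    refine jn 2967 (by decide +kernel) ?_
    refine jn 3003 (by decide +kernel) ?_
    refine jn 3038 (by decide +kernel) ?_
    refine jn 3072 (by decide +kernel) ?_
    refine jn 3103 (by decide +kernel) ?_
    refine jn 3131 (by decide +kernel) ?_
    refine jn 3150 (by decide +kernel) ?_
    refine jn 3182 (by decide +kernel) ?_
    refine jn 3212 (by decide +kernel) ?_
    refine jn 3243 (by decide +kernel) ?_
    refine jn 3274 (by decide +kernel) ?_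
    refine jn 3305 (by decide +kernel) ?_
    refine jn 3346 (by decide +kernel) ?_
    refine jn 3376 (by decide +kernel) ?_
    refine jn 3434 (by decide +kernel) ?_
    refine jn 3478 (by decide +kernel) ?_
    refine jn 3509 (by decide +kernel) ?_
    refine jn 3538 (by decide +kernel) ?_
    refine jn 3563 (by decide +kernel) ?_
    refine jn 3602 (by decide +kernel) ?_
    refine jn 3643 (by decide +kernel) ?_
    refine jn 3686 (by decide +kernel) ?_
    refine jn 3718 (by decide +kernel) ?_
    refine jn 3746 (by decide +kernel) ?_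
    refine jn 3781 (by decide +kernel) ?_
    refine jn 3818 (by decide +kernel) ?_
    refine jn 3850 (by decide +kernel) ?_
    refine jn 3863 (by decide +kernel) ?_
    refine jn 3881 (by decide +kernel) ?_
    refine jn 3898 (by decide +kernel) ?_
    refine jn 3927 (by decide +kernel) ?_
    refine jn 3945 (by decide +kernel) ?_
    refine jn 3961 (by decide +kernel) ?_
    refine jn 3975 (by decide +kernel) ?_
    refine jn 4003 (by decide +kernel) ?_
    refine jn 4033 (by decide +kernel) ?_
    refine jn 4049 (by decide +kernel) ?_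
    refine jn 4062 (by decide +kernel) ?_
    refine jn 4087 (by decide +kernel) ?_
    refine jn 4110 (by decide +kernel) ?_
    refine jn 4127 (by decide +kernel) ?_
    refine jn 4145 (by decide +kernel) ?_
    refine jn 4159 (by decide +kernel) ?_
    refine jn 4182 (by decide +kernel) ?_
    refine jn 4201 (by decide +kernel) ?_
    refine jn 4222 (by decide +kernel) ?_
    refine jn 4251 (by decide +kernel) ?_
    refine jn 4270 (by decide +kernel) ?_
    refine jn 4290 (by decide +kernel) ?_
    refine jn 4310 (by decide +kernel) ?_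
    refine jn 4335 (by decide +kernel) ?_
    refine jn 4354 (by decide +kernel) ?_
    refine jn 4383 (by decide +kernel) ?_
    refine jn 4414 (by decide +kernel) ?_
    refine jn 4437 (by decide +kernel) ?_
    refine jn 4454 (by decide +kernel) ?_
    refine jn 4478 (by decide +kernel) ?_
    refine jn 4502 (by decide +kernel) ?_
    refine jn 4529 (by decide +kernel) ?_
    refine jn 4539 (by decide +kernel) ?_
    refine jn 4562 (by decide +kernel) ?_
    refine jn 4593 (by decide +kernel) ?_
    refine jn 4621 (by decide +kernel) ?_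
    refine jn 4635 (by decide +kernel) ?_
    refine jn 4661 (by decide +kernel) ?_
    refine jn 4682 (by decide +kernel) ?_
    refine jn 4714 (by decide +kernel) ?_
    refine jn 4752 (by decide +kernel) ?_
    refine jn 4804 (by decide +kernel) ?_
    refine jn 4844 (by decide +kernel) ?_
    refine jn 4892 (by decide +kernel) ?_
    refine jn 4940 (by decide +kernel) ?_
    refine jn 4988 (by decide +kernel) ?_
    refine jn 5026 (by decide +kernel) ?_
    refine jn 5058 (by decide +kernel) ?_
    refine jn 5109 (by decide +kernel) ?_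
    refine jn 5157 (by decide +kernel) ?_
    refine jn 5196 (by decide +kernel) ?_
    refine jn 5222 (by decide +kernel) ?_
    refine jn 5268 (by decide +kernel) ?_
    refine jn 5310 (by decide +kernel) ?_
    refine jn 5357 (by decide +kernel) ?_
    refine jn 5397 (by decide +kernel) ?_
    refine jn 5436 (by decide +kernel) ?_
    refine jn 5485 (by decide +kernel) ?_
    refine jn 5521 (by decide +kernel) ?_
    refine jn 5565 (by decide +kernel) ?_
    refine jn 5618 (by decide +kernel) ?_
    refine jn 5666 (by decide +kernel) ?_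
    refine jn 5709 (by decide +kernel) ?_
    refine jn 5748 (by decide +kernel) ?_
    refine jn 5797 (by decide +kernel) ?_
    refine jn 5842 (by decide +kernel) ?_
    refine jn 5898 (by decide +kernel) ?_
    refine jn 5933 (by decide +kernel) ?_
    refine jn 5976 (by decide +kernel) ?_
    refine jn 6031 (by decide +kernel) ?_
    refine jn 6081 (by decide +kernel) ?_
    refine jn 6121 (by decide +kernel) ?_
    refine jn 6180 (by decide +kernel) ?_
    refine jn 6231 (by decide +kernel) ?_
    refine jn 6279 (by decide +kernel) ?_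
    refine jn 6323 (by decide +kernel) ?_
    refine jn 6375 (by decide +kernel) ?_
    refine jn 6423 (by decide +kernel) ?_
    refine jn 6480 (by decide +kernel) ?_
    refine jn 6519 (by decide +kernel) ?_
    refine jn 6591 (by decide +kernel) ?_
    refine jn 6652 (by decide +kernel) ?_
    refine jn 6708 (by decide +kernel) ?_
    refine jn 6761 (by decide +kernel) ?_
    refine jn 6825 (by decide +kernel) ?_
    refine jn 6861 (by decide +kernel) ?_
    refine jn 6903 (by decide +kernel) ?_
    refine jn 6951 (by decide +kernel) ?_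
    refine jn 6999 (by decide +kernel) ?_
    refine jn 7061 (by decide +kernel) ?_
    refine jn 7101 (by decide +kernel) ?_
    refine jn 7149 (by decide +kernel) ?_
    refine jn 7191 (by decide +kernel) ?_
    refine jn 7227 (by decide +kernel) ?_
    refine jn 7277 (by decide +kernel) ?_
    refine jn 7325 (by decide +kernel) ?_
    refine jn 7381 (by decide +kernel) ?_
    refine jn 7425 (by decide +kernel) ?_
    refine jn 7475 (by decide +kernel) ?_
    refine jn 7536 (by decide +kernel) ?_
    refine jn 7585 (by decide +kernel) ?_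
    refine jn 7736 (by decide +kernel) ?_
    refine jn 7979 (by decide +kernel) ?_
    refine jn 8118 (by decide +kernel) ?_
    refine jn 8251 (by decide +kernel) ?_
    refine jn 8342 (by decide +kernel) ?_
    refine jn 8420 (by decide +kernel) ?_
    refine jn 8511 (by decide +kernel) ?_
    refine jn 8571 (by decide +kernel) ?_
    refine jn 8641 (by decide +kernel) ?_
    refine jn 8700 (by decide +kernel) ?_
    refine jn 8755 (by decide +kernel) ?_
    refine jn 8808 (by decide +kernel) ?_
    refine jn 8849 (by decide +kernel) ?_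
    refine jn 8897 (by decide +kernel) ?_
    refine jn 9077 (by decide +kernel) ?_
    refine jn 9357 (by decide +kernel) ?_
    refine jn 9487 (by decide +kernel) ?_
    refine jn 9607 (by decide +kernel) ?_
    refine jn 9695 (by decide +kernel) ?_
    refine jn 9805 (by decide +kernel) ?_
    refine jn 9889 (by decide +kernel) ?_
    refine jn 9965 (by decide +kernel) ?_
    refine jn 10026 (by decide +kernel) ?_
    refine jn 10094 (by decide +kernel) ?_
    refine jn 10161 (by decide +kernel) ?_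
    refine jn 10361 (by decide +kernel) ?_
    refine jn 10672 (by decide +kernel) ?_
    refine jn 10836 (by decide +kernel) ?_
    refine jn 10964 (by decide +kernel) ?_
    refine jn 11062 (by decide +kernel) ?_
    refine jn 11169 (by decide +kernel) ?_
    refine jn 11262 (by decide +kernel) ?_
    refine jn 11339 (by decide +kernel) ?_
    refine jn 11419 (by decide +kernel) ?_
    refine jn 11488 (by decide +kernel) ?_
    refine jn 11856 (by decide +kernel) ?_
    refine jn 12000 (by decide +kernel) ?_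
    refine jn 12116 (by decide +kernel) ?_
    refine jn 12206 (by decide +kernel) ?_
    refine jn 12280 (by decide +kernel) ?_
    refine jn 12368 (by decide +kernel) ?_
    refine jn 12426 (by decide +kernel) ?_
    refine jn 12506 (by decide +kernel) ?_
    refine jn 12578 (by decide +kernel) ?_
    refine jn 12628 (by decide +kernel) ?_
    refine jn 12683 (by decide +kernel) ?_
    refine jn 12746 (by decide +kernel) ?_
    refine jn 12842 (by decide +kernel) ?_
    refine jn 13233 (by decide +kernel) ?_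
    refine jn 13376 (by decide +kernel) ?_
    refine jn 13519 (by decide +kernel) ?_
    refine jn 13628 (by decide +kernel) ?_
    refine jn 13712 (by decide +kernel) ?_
    refine jn 13803 (by decide +kernel) ?_
    refine jn 13873 (by decide +kernel) ?_
    refine jn 13963 (by decide +kernel) ?_
    refine jn 14031 (by decide +kernel) ?_
    refine jn 14436 (by decide +kernel) ?_
    refine jn 14719 (by decide +kernel) ?_
    refine jn 14861 (by decide +kernel) ?_
    refine jn 15022 (by decide +kernel) ?_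
    refine jn 15112 (by decide +kernel) ?_
    refine jn 15240 (by decide +kernel) ?_
    refine jn 15337 (by decide +kernel) ?_
    refine jn 15882 (by decide +kernel) ?_
    exact je (by decide +kernel)
  · refine fin 2472 7487 T120_2 ?_
    refine jn 5 (by decide +kernel) ?_
    refine jn 9 (by decide +kernel) ?_
    refine jn 16 (by decide +kernel) ?_
    refine jn 28 (by decide +kernel) ?_
    refine jn 33 (by decide +kernel) ?_
    refine jn 39 (by decide +kernel) ?_
    refine jn 49 (by decide +kernel) ?_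
    refine jn 50 (by decide +kernel) ?_
    refine jn 51 (by decide +kernel) ?_
    refine jn 52 (by decide +kernel) ?_
    refine jn 53 (by decide +kernel) ?_
    refine jn 55 (by decide +kernel) ?_
    refine jn 56 (by decide +kernel) ?_
    refine jn 57 (by decide +kernel) ?_
    refine jn 59 (by decide +kernel) ?_
    refine jn 71 (by decide +kernel) ?_
    refine jn 77 (by decide +kernel) ?_
    refine jn 87 (by decide +kernel) ?_
    refine jn 88 (by decide +kernel) ?_
    refine jn 89 (by decide +kernel) ?_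
    refine jn 90 (by decide +kernel) ?_
    refine jn 91 (by decide +kernel) ?_
    refine jn 92 (by decide +kernel) ?_
    refine jn 93 (by decide +kernel) ?_
    refine jn 94 (by decide +kernel) ?_
    refine jn 96 (by decide +kernel) ?_
    refine jn 112 (by decide +kernel) ?_
    refine jn 116 (by decide +kernel) ?_
    refine jn 127 (by decide +kernel) ?_
    refine jn 131 (by decide +kernel) ?_
    refine jn 144 (by decide +kernel) ?_
    refine jn 149 (by decide +kernel) ?_
    refine jn 162 (by decide +kernel) ?_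
    refine jn 166 (by decide +kernel) ?_
    refine jn 177 (by decide +kernel) ?_
    refine jn 182 (by decide +kernel) ?_
    refine jn 187 (by decide +kernel) ?_
    refine jn 188 (by decide +kernel) ?_
    refine jn 189 (by decide +kernel) ?_
    refine jn 190 (by decide +kernel) ?_
    refine jn 192 (by decide +kernel) ?_
    refine jn 198 (by decide +kernel) ?_
    refine jn 199 (by decide +kernel) ?_
    refine jn 207 (by decide +kernel) ?_
    refine jn 208 (by decide +kernel) ?_
    refine jn 209 (by decide +kernel) ?_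
    refine jn 210 (by decide +kernel) ?_
    refine jn 211 (by decide +kernel) ?_
    refine jn 220 (by decide +kernel) ?_
    refine jn 226 (by decide +kernel) ?_
    refine jn 238 (by decide +kernel) ?_
    refine jn 250 (by decide +kernel) ?_
    refine jn 256 (by decide +kernel) ?_
    refine jn 265 (by decide +kernel) ?_
    refine jn 268 (by decide +kernel) ?_
    refine jn 270 (by decide +kernel) ?_
    refine jn 280 (by decide +kernel) ?_
    refine jn 283 (by decide +kernel) ?_
    refine jn 285 (by decide +kernel) ?_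
    refine jn 294 (by decide +kernel) ?_
    refine jn 296 (by decide +kernel) ?_
    refine jn 298 (by decide +kernel) ?_
    refine jn 310 (by decide +kernel) ?_
    refine jn 325 (by decide +kernel) ?_
    refine jn 340 (by decide +kernel) ?_
    refine jn 352 (by decide +kernel) ?_
    refine jn 354 (by decide +kernel) ?_
    refine jn 357 (by decide +kernel) ?_
    refine jn 367 (by decide +kernel) ?_
    refine jn 370 (by decide +kernel) ?_
    refine jn 384 (by decide +kernel) ?_
    refine jn 396 (by decide +kernel) ?_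
    refine jn 415 (by decide +kernel) ?_
    refine jn 417 (by decide +kernel) ?_
    refine jn 418 (by decide +kernel) ?_
    refine jn 419 (by decide +kernel) ?_
    refine jn 420 (by decide +kernel) ?_
    refine jn 433 (by decide +kernel) ?_
    refine jn 440 (by decide +kernel) ?_
    refine jn 441 (by decide +kernel) ?_
    refine jn 442 (by decide +kernel) ?_
    refine jn 448 (by decide +kernel) ?_
    refine jn 453 (by decide +kernel) ?_
    refine jn 464 (by decide +kernel) ?_
    refine jn 474 (by decide +kernel) ?_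
    refine jn 476 (by decide +kernel) ?_
    refine jn 491 (by decide +kernel) ?_
    refine jn 496 (by decide +kernel) ?_
    refine jn 506 (by decide +kernel) ?_
    refine jn 515 (by decide +kernel) ?_
    refine jn 523 (by decide +kernel) ?_
    refine jn 525 (by decide +kernel) ?_
    refine jn 533 (by decide +kernel) ?_
    refine jn 542 (by decide +kernel) ?_
    refine jn 557 (by decide +kernel) ?_
    refine jn 558 (by decide +kernel) ?_
    refine jn 561 (by decide +kernel) ?_
    refine jn 577 (by decide +kernel) ?_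
    refine jn 586 (by decide +kernel) ?_
    refine jn 594 (by decide +kernel) ?_
    refine jn 610 (by decide +kernel) ?_
    refine jn 627 (by decide +kernel) ?_
    refine jn 636 (by decide +kernel) ?_
    refine jn 643 (by decide +kernel) ?_
    refine jn 654 (by decide +kernel) ?_
    refine jn 662 (by decide +kernel) ?_
    refine jn 672 (by decide +kernel) ?_
    refine jn 688 (by decide +kernel) ?_
    refine jn 689 (by decide +kernel) ?_
    refine jn 699 (by decide +kernel) ?_
    refine jn 712 (by decide +kernel) ?_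
    refine jn 721 (by decide +kernel) ?_
    refine jn 722 (by decide +kernel) ?_
    refine jn 732 (by decide +kernel) ?_
    refine jn 739 (by decide +kernel) ?_
    refine jn 748 (by decide +kernel) ?_
    refine jn 757 (by decide +kernel) ?_
    refine jn 774 (by decide +kernel) ?_
    refine jn 788 (by decide +kernel) ?_
    refine jn 793 (by decide +kernel) ?_
    refine jn 828 (by decide +kernel) ?_
    refine jn 861 (by decide +kernel) ?_
    refine jn 886 (by decide +kernel) ?_
    refine jn 921 (by decide +kernel) ?_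
    refine jn 955 (by decide +kernel) ?_
    refine jn 987 (by decide +kernel) ?_
    refine jn 1017 (by decide +kernel) ?_
    refine jn 1060 (by decide +kernel) ?_
    refine jn 1066 (by decide +kernel) ?_
    refine jn 1067 (by decide +kernel) ?_
    refine jn 1081 (by decide +kernel) ?_
    refine jn 1092 (by decide +kernel) ?_
    refine jn 1098 (by decide +kernel) ?_
    refine jn 1099 (by decide +kernel) ?_
    refine jn 1111 (by decide +kernel) ?_
    refine jn 1117 (by decide +kernel) ?_
    refine jn 1122 (by decide +kernel) ?_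
    refine jn 1123 (by decide +kernel) ?_
    refine jn 1132 (by decide +kernel) ?_
    refine jn 1152 (by decide +kernel) ?_
    refine jn 1158 (by decide +kernel) ?_
    refine jn 1161 (by decide +kernel) ?_
    refine jn 1162 (by decide +kernel) ?_
    refine jn 1167 (by decide +kernel) ?_
    refine jn 1182 (by decide +kernel) ?_
    refine jn 1186 (by decide +kernel) ?_
    refine jn 1195 (by decide +kernel) ?_
    refine jn 1206 (by decide +kernel) ?_
    refine jn 1210 (by decide +kernel) ?_
    refine jn 1213 (by decide +kernel) ?_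
    refine jn 1222 (by decide +kernel) ?_
    refine jn 1231 (by decide +kernel) ?_
    refine jn 1240 (by decide +kernel) ?_
    refine jn 1242 (by decide +kernel) ?_
    refine jn 1252 (by decide +kernel) ?_
    refine jn 1258 (by decide +kernel) ?_
    refine jn 1266 (by decide +kernel) ?_
    refine jn 1270 (by decide +kernel) ?_
    refine jn 1272 (by decide +kernel) ?_
    refine jn 1282 (by decide +kernel) ?_
    refine jn 1285 (by decide +kernel) ?_
    refine jn 1288 (by decide +kernel) ?_
    refine jn 1310 (by decide +kernel) ?_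
    refine jn 1446 (by decide +kernel) ?_
    refine jn 1500 (by decide +kernel) ?_
    refine jn 1546 (by decide +kernel) ?_
    refine jn 1579 (by decide +kernel) ?_
    refine jn 1627 (by decide +kernel) ?_
    refine jn 1644 (by decide +kernel) ?_
    refine jn 1647 (by decide +kernel) ?_
    refine jn 1648 (by decide +kernel) ?_
    refine jn 1659 (by decide +kernel) ?_
    refine jn 1663 (by decide +kernel) ?_
    refine jn 1668 (by decide +kernel) ?_
    refine jn 1689 (by decide +kernel) ?_
    refine jn 1702 (by decide +kernel) ?_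
    refine jn 1713 (by decide +kernel) ?_
    refine jn 1723 (by decide +kernel) ?_
    refine jn 1728 (by decide +kernel) ?_
    refine jn 1746 (by decide +kernel) ?_
    refine jn 1749 (by decide +kernel) ?_
    refine jn 1758 (by decide +kernel) ?_
    refine jn 1761 (by decide +kernel) ?_
    refine jn 1771 (by decide +kernel) ?_
    refine jn 1779 (by decide +kernel) ?_
    refine jn 1782 (by decide +kernel) ?_
    refine jn 1789 (by decide +kernel) ?_
    refine jn 1794 (by decide +kernel) ?_
    refine jn 1812 (by decide +kernel) ?_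
    refine jn 1831 (by decide +kernel) ?_
    refine jn 1839 (by decide +kernel) ?_
    refine jn 1855 (by decide +kernel) ?_
    refine jn 1886 (by decide +kernel) ?_
    refine jn 1903 (by decide +kernel) ?_
    refine jn 1937 (by decide +kernel) ?_
    refine jn 1958 (by decide +kernel) ?_
    refine jn 1993 (by decide +kernel) ?_
    refine jn 2026 (by decide +kernel) ?_
    refine jn 2060 (by decide +kernel) ?_
    refine jn 2071 (by decide +kernel) ?_
    refine jn 2092 (by decide +kernel) ?_
    refine jn 2110 (by decide +kernel) ?_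
    refine jn 2161 (by decide +kernel) ?_
    refine jn 2186 (by decide +kernel) ?_
    refine jn 2210 (by decide +kernel) ?_
    refine jn 2234 (by decide +kernel) ?_
    refine jn 2273 (by decide +kernel) ?_
    refine jn 2314 (by decide +kernel) ?_
    refine jn 2359 (by decide +kernel) ?_
    refine jn 2390 (by decide +kernel) ?_
    refine jn 2414 (by decide +kernel) ?_
    refine jn 2450 (by decide +kernel) ?_
    refine jn 2476 (by decide +kernel) ?_
    refine jn 2525 (by decide +kernel) ?_
    refine jn 2574 (by decide +kernel) ?_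
    refine jn 2712 (by decide +kernel) ?_
    refine jn 2787 (by decide +kernel) ?_
    refine jn 2842 (by decide +kernel) ?_
    refine jn 2896 (by decide +kernel) ?_
    refine jn 2958 (by decide +kernel) ?_
    refine jn 3016 (by decide +kernel) ?_
    refine jn 3090 (by decide +kernel) ?_
    refine jn 3141 (by decide +kernel) ?_
    refine jn 3205 (by decide +kernel) ?_
    refine jn 3280 (by decide +kernel) ?_
    refine jn 3449 (by decide +kernel) ?_
    refine jn 3515 (by decide +kernel) ?_
    refine jn 3578 (by decide +kernel) ?_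
    refine jn 3660 (by decide +kernel) ?_
    refine jn 3728 (by decide +kernel) ?_
    refine jn 3812 (by decide +kernel) ?_
    refine jn 3884 (by decide +kernel) ?_
    refine jn 3944 (by decide +kernel) ?_
    refine jn 4022 (by decide +kernel) ?_
    refine jn 4107 (by decide +kernel) ?_
    refine jn 4190 (by decide +kernel) ?_
    refine jn 4355 (by decide +kernel) ?_
    refine jn 4600 (by decide +kernel) ?_
    refine jn 4756 (by decide +kernel) ?_
    refine jn 4851 (by decide +kernel) ?_
    refine jn 5105 (by decide +kernel) ?_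
    refine jn 5230 (by decide +kernel) ?_
    refine jn 5328 (by decide +kernel) ?_
    refine jn 5423 (by decide +kernel) ?_
    refine jn 5499 (by decide +kernel) ?_
    refine jn 5702 (by decide +kernel) ?_
    refine jn 5926 (by decide +kernel) ?_
    refine jn 6030 (by decide +kernel) ?_
    refine jn 6133 (by decide +kernel) ?_
    refine jn 6523 (by decide +kernel) ?_
    refine jn 6728 (by decide +kernel) ?_
    refine jn 6835 (by decide +kernel) ?_
    refine jn 7445 (by decide +kernel) ?_
    exact je (by decide +kernel)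

end Pool.Agent.MP_2339ce_nt.NR
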