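import Pool.Agent.MP_2339ce_nt.Q2.NC.L6
import Pool.Agent.MP_2339ce_nt.Q2.CkI

/-! Block NR: runs. -/

set_option autoImplicit false
set_option maxRecDepth 100000

noncomputable section

namespace Pool.Agent.MP_2339ce_nt.NR

open Q2.Top

def T127_0 : Ph :=
  (.na 897 126 (.na 623 46 (.na 393 18 (.na 248 9 (.na 131 6 (.na 1 2 .ne (.na 130 3 (.nx 129
  3329023 (.nr 128 623489 (.nx 4 78 (.nx 3 77 (.nr 2 17 (.lg 0 true 1 37 37 5 0 11088) (.l1 .sk))
  (.l1 .sk)) (.nr 112 77937 (.nx 91 1321124 (.nx 25 6501 (.nr 19 55110 (.lg 0 false 15 97 97 9 0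
  55440) (.nx 24 1292 (.lg 0 true 5 89 89 9 0 55440) .out)) (.nr 90 65537 (.nr 55 257 (.lg 0 true
  30 83 89 11 0 55440) (.nx 89 165142 (.nx 70 20644 (.lg 1 false 15 97 101 9 29923 55440) (.nr 88
  46342 (.nr 75 1100 (.lg 2 false 5 83 83 9 24740 55440) (.lg 2 false 13 101 103 9 6666 720720))
  .out)) .out)) .out)) (.nr 111 9 (.lg 0 true 20 73 73 9 0 55440) .out)) (.nx 127 205 (.lg 0 false
  15 83 83 9 0 55440) .out))) .out) .out) .ne)) (.na 173 7 (.nx 172 1321124 (.nr 171 220437 (.nx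
  134 78 (.nx 133 77 (.nr 132 43 (.lg 0 true 1 31 31 7 0 55440) (.l1 .sk)) (.l1 .sk)) (.nr 165
  55110 (.nx 139 7667 (.lg 0 false 5 97 97 13 0 55440) (.nr 152 501 (.lg 0 true 13 89 89 19 0
  144144) (.nx 164 416129 (.nr 154 1905 (.lg 2 false 2 89 89 7 31978 55440) (.nx 159 16932 (.lg 1
  false 5 89 97 13 21340 55440) (.lg 2 false 5 97 101 13 9663 55440))) .out))) (.nx 170 1292 (.lg 0
  false 5 89 97 13 0 55440) .out))) .out) .out) (.na 247 8 (.nx 246 10568985 (.nr 245 262145 (.nx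
  176 78 (.nx 175 77 (.nr 174 50 (.lg 0 true 1 29 29 9 0 144144) (.l1 .sk)) (.l1 .sk)) (.nx 187
  10321 (.nr 181 55110 (.lg 0 true 5 83 83 11 0 27720) (.nx 186 408 (.lg 0 false 5 71 71 11 0
  27720) .out)) (.nr 244 65537 (.nr 233 596 (.nx 207 1321124 (.lg 0 true 20 79 79 16 0 55440) (.nr
  232 47 (.lg 0 true 25 73 73 11 0 27720) .out)) (.nx 243 262145 (.lg 2 false 10 89 97 16 18848
  55440) .out)) .out))) .out) .out) .ne))) (.na 358 12 (.na 320 10 (.nx 319 10568985 (.nr 318
  623489 (.nr 249 3 .s1 (.nx 252 78 (.nx 251 77 (.nr 250 62 (.lg 0 true 1 31 31 7 0 720720) (.l1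
  .sk)) (.l1 .sk)) (.nr 312 77937 (.nr 302 38969 (.nx 281 1321124 (.nr 265 364 (.lg 0 true 13 79 79
  16 0 72072) (.nx 280 165142 (.nr 272 19988 (.nx 267 2965 (.lg 0 true 2 83 83 16 0 55440) (.lg 2
  false 5 79 79 16 20065 27720)) (.lg 0 true 8 101 103 16 0 720720)) .out)) (.nr 301 65 (.lg 0 true
  20 83 83 16 0 55440) .out)) (.nx 311 82572 (.nx 306 26009 (.lg 0 false 4 101 103 16 0 720720)
  (.nr 310 55110 (.lg 0 true 4 101 103 16 0 720720) .out)) .out)) (.nx 317 814 (.lg 0 false 5 89 89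
  16 0 27720) .out)))) .out) .out) (.na 321 11 .ne (.nx 357 1321124 (.nr 356 623489 (.nr 322 7 .s1
  (.nx 325 78 (.nx 324 77 (.nr 323 75 (.l1 (.ls 17 23 541)) (.l1 .sk)) (.l1 .sk)) (.nx 326 158 (.l1
  (.ls 79 31 1719)) (.nx 327 324 (.l1 (.ls 79 41 7276)) (.nr 355 220437 (.nx 335 9557 (.nr 331
  77937 (.lg 0 true 4 89 89 9 0 55440) (.nx 334 814 (.lg 0 true 3 71 71 9 0 27720) .out)) (.nr 354
  65537 (.nr 348 374 (.lg 0 true 13 73 73 16 0 72072) (.nx 353 165142 (.lg 2 false 5 89 89 9 20354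
  27720) .out)) .out)) .out))))) .out) .out))) (.na 359 14 .ne (.na 392 16 (.nx 391 1321124 (.nr
  390 623489 (.nr 360 11 .s1 (.nx 363 78 (.nx 362 77 (.nr 361 100 (.l1 (.ls 19 31 426)) (.l1 .sk))
  (.l1 .sk)) (.nx 364 324 (.l1 (.ls 79 47 7066)) (.nr 389 220437 (.nx 369 9557 (.lg 0 false 5 89 89
  13 0 55440) (.nr 388 65537 (.nr 382 374 (.lg 0 true 13 73 73 17 0 144144) (.nx 387 165142 (.lg 2
  false 5 89 89 13 20354 55440) .out)) .out)) .out)))) .out) .out) .ne)))) (.na 516 32 (.na 473 23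
  (.na 420 21 (.nx 419 1321124 (.nr 418 1048577 (.nr 394 16 .s1 (.nx 398 205 (.nx 396 77 (.nr 395
  131 (.l1 (.ls 23 31 332)) (.l1 .sk)) (.nx 397 78 (.l1 .sk) (.l1 (.ls 83 43 1999)))) (.nr 417
  623489 (.nx 399 324 (.l1 (.ls 83 43 3500)) (.nr 416 220437 (.nx 404 10323 (.lg 0 false 5 97 97 19
  0 55440) (.nr 415 55110 (.nr 409 498 (.lg 0 true 5 79 79 19 0 55440) (.nx 414 165142 (.lg 2 false
  5 89 89 19 15850 55440) .out)) .out)) .out)) .out))) .out) .out) (.na 445 22 (.nx 444 1321124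
  (.nr 443 1048577 (.nr 421 20 .s1 (.nx 424 78 (.nx 423 77 (.nr 422 137 (.l1 (.ls 23 23 285)) (.l1
  .sk)) (.l1 .sk)) (.nx 427 324 (.nx 425 205 (.l1 (.ls 83 37 1714)) (.nr 426 623489 (.l1 (.ls 79 41
  3000)) .out)) (.nr 442 220437 (.nx 431 10323 (.lg 0 false 4 97 97 17 0 55440) (.nr 441 55110 (.nr
  436 498 (.lg 0 true 5 73 73 17 0 27720) (.nx 440 165142 (.lg 2 false 4 89 89 17 15850 55440)
  .out)) .out)) .out)))) .out) .out) (.nx 472 1321124 (.nr 471 1048577 (.nr 446 21 .s1 (.nx 456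
  10323 (.nx 448 77 (.nr 447 143 (.lg 0 false 1 0 16 9 0 144144) (.l1 .sk)) (.nx 449 78 (.l1 .sk)
  (.nx 450 324 (.l1 (.ls 79 43 4498)) (.nr 455 220437 (.lg 0 true 5 83 83 13 0 55440) .out)))) (.nr
  470 55110 (.nr 466 498 (.lg 0 true 10 71 71 19 0 55440) (.nx 469 165142 (.lg 2 true 3 79 79 13
  15850 11088) .out)) .out))) .out) .out))) (.na 474 26 .ne (.na 495 27 (.nx 494 1321124 (.nr 493
  1048577 (.nr 475 25 .s1 (.nx 478 78 (.nx 477 77 (.nr 476 168 (.l1 (.ls 29 29 231)) (.l1 .sk))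
  (.l1 .sk)) (.nx 479 205 (.l1 (.ls 89 41 1385)) (.nr 492 185365 (.nx 482 10323 (.lg 0 false 3 97
  97 11 0 720720) (.nr 491 55110 (.nr 487 513 (.lg 0 true 5 79 79 19 0 720720) (.nx 490 82572 (.lg
  1 true 3 97 97 11 15850 720720) .out)) .out)) .out)))) .out) .out) (.nx 515 1321124 (.nr 514
  1048577 (.nr 496 26 .s1 (.nx 499 78 (.nx 498 77 (.nr 497 200 (.l1 (.ls 19 19 222)) (.l1 .sk))
  (.l1 .sk)) (.nx 500 205 (.l1 (.ls 79 31 1334)) (.nr 513 185365 (.nx 505 16385 (.lg 0 false 5 83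
  83 16 0 27720) (.nr 512 38969 (.nr 510 513 (.lg 0 true 5 71 71 16 0 27720) (.nx 511 82572 (.lg 1
  false 1 83 83 16 7065 5544) .out)) .out)) .out)))) .out) .out)))) (.na 553 39 (.na 517 34 .ne
  (.na 534 37 (.nx 533 1321124 (.nr 532 370729 (.nr 518 33 .s1 (.nx 520 77 (.nr 519 231 (.lg 0
  false 1 23 23 13 0 55440) (.l1 .sk)) (.nx 521 78 (.l1 .sk) (.nx 524 8193 (.lg 0 false 3 97 97 13
  0 55440) (.nr 531 55110 (.nr 528 217 (.lg 0 true 4 73 73 13 0 11088) (.nx 530 82572 (.lg 1 false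
  2 97 97 13 19970 55440) .out)) .out))))) .out) .out) (.nx 552 1321124 (.nr 551 370729 (.nr 535 36
  .s1 (.nx 538 78 (.nx 537 77 (.nr 536 243 (.l1 (.ls 17 16 163)) (.l1 .sk)) (.l1 .sk)) (.nx 543
  13005 (.lg 0 false 5 89 89 16 0 27720) (.nr 550 23172 (.nr 548 666 (.lg 0 true 5 73 73 16 0
  27720) (.nx 549 82572 (.lg 2 true 1 73 73 16 5300 5544) .out)) .out)))) .out) .out))) (.na 587 42
  (.na 571 41 (.nx 570 1321124 (.nr 569 370729 (.nr 554 39 .s1 (.nx 565 82572 (.nx 556 77 (.nr 555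
  256 (.l1 (.ls 31 23 155)) (.l1 .sk)) (.nx 557 78 (.l1 .sk) (.nx 561 8193 (.lg 0 false 4 89 89 19
  0 144144) (.nr 564 55110 (.nr 562 13779 (.lg 0 false 1 89 89 17 0 72072) (.nx 563 20644 (.lg 0
  true 1 83 83 17 0 72072) .out)) .out)))) (.nr 568 217 (.lg 0 true 3 73 73 19 0 72072) .out)))
  .out) .out) (.nx 586 1321124 (.nr 585 370729 (.nr 572 41 .s1 (.nx 579 13005 (.nx 574 77 (.nr 573
  262 (.l1 (.ls 23 16 147)) (.l1 .sk)) (.nx 575 78 (.l1 .sk) (.lg 0 false 4 97 97 16 0 55440)))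
  (.nr 584 23172 (.nr 582 262 (.lg 0 true 3 71 71 16 0 5544) (.nx 583 82572 (.lg 2 true 1 79 79 16
  12134 5544) .out)) .out))) .out) .out)) (.na 606 43 (.nx 605 1321124 (.nr 604 370729 (.nr 588 42
  .s1 (.nx 596 13005 (.nx 590 77 (.nr 589 268 (.l1 (.ls 23 31 144)) (.l1 .sk)) (.nx 591 78 (.l1
  .sk) (.lg 0 false 5 89 89 29 0 55440))) (.nr 603 23172 (.nr 601 717 (.lg 0 true 5 73 73 29 0
  55440) (.nx 602 82572 (.lg 2 true 1 73 73 19 5300 11088) .out)) .out))) .out) .out) (.nx 622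
  1321124 (.nr 621 370729 (.nr 607 43 .s1 (.nx 615 13005 (.nx 609 77 (.nr 608 287 (.l1 (.ls 17 16
  140)) (.l1 .sk)) (.nx 610 78 (.l1 .sk) (.lg 0 false 5 89 89 16 0 27720))) (.nr 620 23172 (.nr 618
  217 (.lg 0 true 3 67 67 16 0 5544) (.nx 619 82572 (.lg 2 true 1 79 79 16 14650 5544) .out))
  .out))) .out) .out)))))) (.na 773 94 (.na 682 66 (.na 653 59 (.na 624 53 .ne (.na 639 54 (.nx 638
  1321124 (.nr 637 311745 (.nr 625 53 .s1 (.nx 631 10323 (.nx 627 77 (.nr 626 337 (.l1 (.ls 17 16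
  114)) (.l1 .sk)) (.nx 628 78 (.l1 .sk) (.lg 0 false 3 79 79 16 0 5544))) (.nr 636 23172 (.nr 634
  337 (.lg 0 true 3 67 67 16 0 5544) (.nx 635 82572 (.lg 2 true 1 73 73 16 9434 5544) .out))
  .out))) .out) .out) (.nx 652 1321124 (.nr 651 311745 (.nr 640 54 .s1 (.nx 643 78 (.nx 642 77 (.nr
  641 368 (.l1 (.ls 23 23 112)) (.l1 .sk)) (.l1 .sk)) (.nx 645 10323 (.lg 0 true 2 89 89 19 0
  55440) (.nr 650 23172 (.nr 648 368 (.lg 0 true 3 67 67 23 0 11088) (.nx 649 82572 (.lg 2 true 1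
  73 73 19 8639 55440) .out)) .out)))) .out) .out))) (.na 668 62 (.nx 667 1321124 (.nr 666 311745
  (.nr 654 59 .s1 (.nx 657 78 (.nx 656 77 (.nr 655 386 (.l1 (.ls 19 16 103)) (.l1 .sk)) (.l1 .sk))
  (.nx 660 10323 (.lg 0 false 3 83 83 16 0 27720) (.nr 665 23172 (.nr 663 386 (.lg 0 true 3 67 67
  16 0 5544) (.nx 664 82572 (.lg 2 true 1 71 71 16 8236 5544) .out)) .out)))) .out) .out) (.na 681
  64 (.nx 680 1321124 (.nr 679 311745 (.nr 669 62 .s1 (.nx 671 77 (.nr 670 399 (.l1 (.ls 19 19 98))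
  (.l1 .sk)) (.nx 672 78 (.l1 .sk) (.nx 675 10323 (.lg 0 false 3 83 83 19 0 11088) (.nr 678 23172
  (.nr 676 217 (.lg 2 false 1 73 73 13 820376 11088) (.nx 677 82572 (.lg 2 true 1 79 79 13 14650
  11088) .out)) .out))))) .out) .out) .ne))) (.na 725 78 (.na 695 73 (.nx 694 1321124 (.nr 693
  524289 (.nr 683 66 .s1 (.nx 685 77 (.nr 684 455 (.l1 (.ls 23 29 92)) (.l1 .sk)) (.nx 686 78 (.l1
  .sk) (.nx 689 8193 (.lg 0 false 3 83 83 29 0 55440) (.nr 692 8193 (.nr 690 513 (.lg 0 false 1 79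
  79 23 0 55440) (.nx 691 82572 (.lg 2 true 1 61 61 23 6197 11088) .out)) .out))))) .out) .out)
  (.na 710 74 (.nx 709 1321124 (.nr 708 524289 (.nr 696 73 .s1 (.nx 699 78 (.nx 698 77 (.nr 697 461
  (.l1 (.ls 17 16 84)) (.l1 .sk)) (.l1 .sk)) (.nx 702 8193 (.lg 0 false 3 79 79 16 0 5544) (.nr 707
  8193 (.nr 705 513 (.lg 0 true 3 61 61 16 0 5544) (.nx 706 82572 (.lg 2 true 1 59 59 16 6197 5544)
  .out)) .out)))) .out) .out) (.nx 724 1321124 (.nr 723 524289 (.nr 711 74 .s1 (.nx 713 77 (.nr 712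
  486 (.l1 (.ls 23 19 83)) (.l1 .sk)) (.nx 714 78 (.l1 .sk) (.nx 717 8193 (.lg 0 false 3 89 89 19 0
  55440) (.nr 722 8193 (.nr 720 513 (.lg 0 true 3 71 71 19 0 11088) (.nx 721 82572 (.lg 2 true 1 67
  67 13 6197 11088) .out)) .out))))) .out) .out))) (.na 751 86 (.na 738 82 (.nx 737 1321124 (.nr
  736 524289 (.nr 726 78 .s1 (.nx 731 8193 (.nx 728 77 (.nr 727 511 (.l1 (.ls 29 29 79)) (.l1 .sk))
  (.nx 729 78 (.l1 .sk) (.lg 0 false 2 89 89 31 0 144144))) (.nr 735 8193 (.nr 733 513 (.lg 0 true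
  2 73 73 31 0 144144) (.nx 734 82572 (.lg 2 false 1 67 67 29 6197 144144) .out)) .out))) .out)
  .out) (.nx 750 1321124 (.nr 749 524289 (.nr 739 82 .s1 (.nx 741 77 (.nr 740 536 (.l1 (.ls 19 19
  75)) (.l1 .sk)) (.nx 742 78 (.l1 .sk) (.nx 745 8193 (.lg 0 false 3 83 83 19 0 11088) (.nr 748
  8193 (.nr 746 536 (.lg 0 false 1 79 79 13 0 144144) (.nx 747 82572 (.lg 2 true 1 61 61 13 5932
  11088) .out)) .out))))) .out) .out)) (.na 762 91 (.nx 761 1321124 (.nr 760 524289 (.nr 752 86 .s1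
  (.nx 756 8193 (.nx 754 77 (.nr 753 567 (.l1 (.ls 23 19 71)) (.l1 .sk)) (.nx 755 78 (.l1 .sk) (.lg
  0 true 1 97 97 13 0 55440))) (.nr 759 8193 (.nr 757 513 (.lg 2 false 1 73 73 13 591434 55440)
  (.nx 758 82572 (.lg 2 true 1 61 61 13 6197 11088) .out)) .out))) .out) .out) (.nx 772 1321124
  (.nr 771 524289 (.nr 763 91 .s1 (.nx 765 77 (.nr 764 586 (.l1 (.ls 23 17 68)) (.l1 .sk)) (.nx 766
  78 (.l1 .sk) (.nx 767 8193 (.lg 0 true 1 89 89 17 0 360360) (.nr 770 8193 (.nr 768 513 (.lg 2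
  false 1 67 67 17 558938 72072) (.nx 769 82572 (.lg 2 true 1 59 59 17 6197 72072) .out)) .out)))))
  .out) .out))))) (.na 830 107 (.na 796 102 (.na 784 98 (.nx 783 1321124 (.nr 782 524289 (.nr 774
  94 .s1 (.nx 777 78 (.nx 776 77 (.nr 775 610 (.l1 (.ls 23 19 66)) (.l1 .sk)) (.l1 .sk)) (.nx 778
  8193 (.lg 0 true 1 97 97 17 0 55440) (.nr 781 8193 (.nr 779 513 (.lg 2 false 1 73 73 17 541099
  55440) (.nx 780 82572 (.lg 2 true 1 61 61 17 6197 11088) .out)) .out)))) .out) .out) (.na 785 101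
  (.lg 0 false 1 0 0 16 0 24) (.nx 795 1321124 (.nr 794 524289 (.nr 786 101 .s1 (.nx 790 8193 (.nx
  788 77 (.nr 787 635 (.l1 (.ls 19 16 61)) (.l1 .sk)) (.nx 789 78 (.l1 .sk) (.lg 0 true 1 83 83 16
  0 27720))) (.nr 793 8193 (.nr 791 513 (.lg 2 false 1 67 67 16 503597 27720) (.nx 792 82572 (.lg 2
  true 1 53 53 16 6197 5544) .out)) .out))) .out) .out))) (.na 808 103 (.nx 807 1321124 (.nr 806
  524289 (.nr 797 102 .s1 (.nx 800 78 (.nx 799 77 (.nr 798 642 (.l1 (.ls 16 29 61)) (.l1 .sk)) (.l1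
  .sk)) (.nx 801 8193 (.lg 0 true 1 89 89 29 0 11088) (.nr 805 8193 (.nr 803 513 (.lg 0 true 2 71
  71 31 0 11088) (.nx 804 82572 (.lg 2 true 1 61 61 29 6197 11088) .out)) .out)))) .out) .out) (.na
  819 106 (.nx 818 1321124 (.nr 817 524289 (.nr 809 103 .s1 (.nx 812 78 (.nx 811 77 (.nr 810 660
  (.l1 (.ls 17 16 60)) (.l1 .sk)) (.l1 .sk)) (.nx 813 8193 (.lg 0 true 1 79 79 16 0 5544) (.nr 816
  8193 (.nr 814 513 (.lg 2 false 1 61 61 16 493819 5544) (.nx 815 82572 (.lg 2 false 1 53 53 16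
  6197 5544) .out)) .out)))) .out) .out) (.nx 829 1321124 (.nr 828 524289 (.nr 820 106 .s1 (.nx 823
  78 (.nx 822 77 (.nr 821 667 (.l1 (.ls 23 19 58)) (.l1 .sk)) (.l1 .sk)) (.nx 824 8193 (.lg 0 true
  1 89 89 19 0 11088) (.nr 827 8193 (.nr 825 513 (.lg 2 false 1 71 71 19 479843 55440) (.nx 826
  82572 (.lg 2 true 1 59 59 19 6197 11088) .out)) .out)))) .out) .out)))) (.na 863 119 (.na 841 117
  (.nx 840 1321124 (.nr 839 524289 (.nr 831 107 .s1 (.nx 833 77 (.nr 832 729 (.l1 (.ls 17 16 58))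
  (.l1 .sk)) (.nx 834 78 (.l1 .sk) (.nx 835 8193 (.lg 0 true 1 79 79 16 0 5544) (.nr 838 8193 (.nr
  836 513 (.lg 2 false 1 61 61 16 475358 5544) (.nx 837 82572 (.lg 2 true 1 47 47 16 6197 5544)
  .out)) .out))))) .out) .out) (.na 852 118 (.nx 851 1321124 (.nr 850 524289 (.nr 842 117 .s1 (.nx
  845 78 (.nx 844 77 (.nr 843 735 (.l1 (.ls 23 19 53)) (.l1 .sk)) (.l1 .sk)) (.nx 846 8193 (.lg 0
  true 1 83 83 19 0 72072) (.nr 849 8193 (.nr 847 513 (.lg 2 true 1 61 61 19 434729 72072) (.nx 848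
  82572 (.lg 2 true 1 59 59 19 6197 72072) .out)) .out)))) .out) .out) (.nx 862 1321124 (.nr 861
  524289 (.nr 853 118 .s1 (.nx 857 8193 (.nx 855 77 (.nr 854 741 (.l1 (.ls 17 19 53)) (.l1 .sk))
  (.nx 856 78 (.l1 .sk) (.lg 0 true 1 83 83 19 0 11088))) (.nr 860 8193 (.nr 858 513 (.lg 2 false 1
  67 67 19 431045 11088) (.nx 859 82572 (.lg 2 true 1 59 59 19 6197 11088) .out)) .out))) .out)
  .out))) (.na 875 122 (.na 874 121 (.nx 873 1321124 (.nr 872 524289 (.nr 864 119 .s1 (.nx 867 78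
  (.nx 866 77 (.nr 865 754 (.l1 (.ls 16 16 52)) (.l1 .sk)) (.l1 .sk)) (.nx 868 8193 (.lg 0 true 1
  83 83 16 0 5544) (.nr 871 8193 (.nr 869 513 (.lg 2 false 1 67 67 16 427423 27720) (.nx 870 82572
  (.lg 2 false 1 53 53 16 6197 5544) .out)) .out)))) .out) .out) (.lg 0 false 1 0 0 16 0 24)) (.na
  886 123 (.nx 885 1321124 (.nr 884 524289 (.nr 876 122 .s1 (.nx 879 78 (.nx 878 77 (.nr 877 766
  (.l1 (.ls 19 19 51)) (.l1 .sk)) (.l1 .sk)) (.nx 880 8193 (.lg 0 true 1 83 83 19 0 11088) (.nr 883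
  8193 (.nr 881 513 (.lg 2 false 1 67 67 19 416913 11088) (.nx 882 82572 (.lg 2 true 1 53 53 19
  6197 11088) .out)) .out)))) .out) .out) (.nx 896 1321124 (.nr 895 524289 (.nr 887 123 .s1 (.nx
  891 8193 (.nx 889 77 (.nr 888 785 (.l1 (.ls 19 17 51)) (.l1 .sk)) (.nx 890 78 (.l1 .sk) (.lg 0
  true 1 83 83 17 0 5544))) (.nr 894 8193 (.nr 892 513 (.lg 2 true 1 61 61 17 413523 5544) (.nx 893
  82572 (.lg 2 false 1 59 59 17 6197 5544) .out)) .out))) .out) .out))))))) (.na 1062 219 (.na 972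
  169 (.na 927 151 (.na 917 139 (.na 908 128 (.nx 907 1321124 (.nr 906 524289 (.nr 898 126 .s1 (.nx
  902 8193 (.nx 900 77 (.nr 899 797 (.l1 (.ls 23 29 50)) (.l1 .sk)) (.nx 901 78 (.l1 .sk) (.lg 0
  true 1 83 83 29 0 55440))) (.nr 905 8193 (.nr 903 513 (.lg 2 false 1 61 61 29 403677 11088) (.nx
  904 82572 (.lg 2 false 1 53 53 29 6197 11088) .out)) .out))) .out) .out) (.na 909 137 .ne (.nx
  916 660563 (.nr 915 1048577 (.nr 910 137 .s1 (.nx 911 205 (.l1 (.ls 67 19 309)) (.nr 914 524289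
  (.nr 912 8193 (.lg 0 false 1 79 79 16 0 5544) (.nx 913 6503 (.lg 0 true 1 73 73 16 0 5544) .out))
  .out))) .out) .out))) (.na 918 146 (.lg 0 false 1 0 0 16 0 24) (.na 926 149 (.nx 925 660563 (.nr
  924 1048577 (.nr 919 146 .s1 (.nx 920 205 (.l1 (.ls 71 29 290)) (.nr 923 524289 (.nr 921 8193
  (.lg 0 false 1 89 89 19 0 55440) (.nx 922 6503 (.lg 0 true 1 83 83 19 0 11088) .out)) .out)))
  .out) .out) (.lg 0 false 1 0 0 16 0 24)))) (.na 955 158 (.na 935 153 (.nx 934 660563 (.nr 933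
  1048577 (.nr 928 151 .s1 (.nx 929 205 (.l1 (.ls 71 17 281)) (.nr 932 524289 (.nr 930 8193 (.lg 0
  false 1 79 79 16 0 27720) (.nx 931 6503 (.lg 0 true 1 73 73 16 0 5544) .out)) .out))) .out) .out)
  (.na 945 154 (.nx 944 660563 (.nr 943 1048577 (.nr 936 153 .s1 (.nx 937 205 (.l1 (.ls 73 29 277))
  (.nr 942 524289 (.nx 938 6503 (.lg 0 false 1 79 79 23 0 5544) (.nr 941 8193 (.nr 939 1025 (.lg 0
  true 1 67 67 23 0 5544) (.nx 940 82572 (.lg 2 false 1 53 53 23 3771 5544) .out)) .out)) .out)))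
  .out) .out) (.nx 954 660563 (.nr 953 1048577 (.nr 946 154 .s1 (.nx 947 205 (.l1 (.ls 67 31 275))
  (.nr 952 524289 (.nr 949 8193 (.lg 0 false 2 73 73 29 0 55440) (.nx 951 6503 (.lg 0 true 2 71 71
  29 0 55440) .out)) .out))) .out) .out))) (.na 963 162 (.nx 962 660563 (.nr 961 1048577 (.nr 956
  158 .s1 (.nx 957 205 (.l1 (.ls 67 29 268)) (.nr 960 524289 (.nr 958 8193 (.lg 0 false 1 83 83 19
  0 11088) (.nx 959 6503 (.lg 0 true 1 79 79 19 0 11088) .out)) .out))) .out) .out) (.na 971 167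
  (.nx 970 660563 (.nr 969 1048577 (.nr 964 162 .s1 (.nx 965 205 (.l1 (.ls 67 31 262)) (.nr 968
  524289 (.nr 966 8193 (.lg 0 false 1 79 79 23 0 11088) (.nx 967 6503 (.lg 0 true 1 73 73 23 0
  11088) .out)) .out))) .out) .out) (.lg 0 false 1 0 0 16 0 24))))) (.na 1013 197 (.na 989 183 (.na
  980 181 (.nx 979 660563 (.nr 978 1048577 (.nr 973 169 .s1 (.nx 974 205 (.l1 (.ls 71 19 251)) (.nr
  977 524289 (.nr 975 8193 (.lg 0 false 1 83 83 17 0 720720) (.nx 976 6503 (.lg 0 true 1 79 79 17 0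
  360360) .out)) .out))) .out) .out) (.na 981 182 (.lg 0 false 1 0 0 16 0 24) (.nx 988 660563 (.nr
  987 1048577 (.nr 982 182 .s1 (.nx 983 205 (.l1 (.ls 71 31 233)) (.nr 986 524289 (.nr 984 8193
  (.lg 0 false 1 79 79 29 0 144144) (.nx 985 6503 (.lg 0 true 1 79 79 29 0 144144) .out)) .out)))
  .out) .out))) (.na 997 186 (.nx 996 660563 (.nr 995 1048577 (.nr 990 183 .s1 (.nx 991 205 (.l1
  (.ls 59 23 232)) (.nr 994 524289 (.nr 992 8193 (.lg 0 true 1 79 79 19 0 5544) (.nx 993 6503 (.lg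
  0 false 1 79 79 19 0 5544) .out)) .out))) .out) .out) (.na 1005 187 (.nx 1004 660563 (.nr 1003
  1048577 (.nr 998 186 .s1 (.nx 999 205 (.l1 (.ls 79 29 228)) (.nr 1002 524289 (.nr 1000 8193 (.lg
  0 false 1 89 89 29 0 55440) (.nx 1001 6503 (.lg 0 true 1 83 83 29 0 55440) .out)) .out))) .out)
  .out) (.nx 1012 660563 (.nr 1011 1048577 (.nr 1006 187 .s1 (.nx 1007 205 (.l1 (.ls 67 23 227))
  (.nr 1010 524289 (.nr 1008 8193 (.lg 0 false 1 73 73 16 0 5544) (.nx 1009 6503 (.lg 0 true 1 73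
  73 16 0 5544) .out)) .out))) .out) .out)))) (.na 1030 202 (.na 1014 198 (.lg 0 false 1 0 0 16 0
  24) (.na 1022 199 (.nx 1021 660563 (.nr 1020 1048577 (.nr 1015 198 .s1 (.nx 1016 205 (.l1 (.ls 67
  37 215)) (.nr 1019 524289 (.nr 1017 8193 (.lg 0 false 1 73 73 31 0 11088) (.nx 1018 6503 (.lg 0
  true 1 73 73 31 0 11088) .out)) .out))) .out) .out) (.nx 1029 660563 (.nr 1028 1048577 (.nr 1023
  199 .s1 (.nx 1024 205 (.l1 (.ls 71 17 214)) (.nr 1027 524289 (.nr 1025 8193 (.lg 0 false 1 73 73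
  16 0 5544) (.nx 1026 6503 (.lg 0 true 1 73 73 16 0 27720) .out)) .out))) .out) .out))) (.na 1046
  214 (.na 1038 206 (.nx 1037 660563 (.nr 1036 1048577 (.nr 1031 202 .s1 (.nx 1032 205 (.l1 (.ls 67
  23 211)) (.nr 1035 524289 (.nr 1033 8193 (.lg 0 false 1 73 73 23 0 11088) (.nx 1034 6503 (.lg 0
  true 1 71 71 23 0 11088) .out)) .out))) .out) .out) (.nx 1045 660563 (.nr 1044 1048577 (.nr 1039
  206 .s1 (.nx 1040 205 (.l1 (.ls 71 23 207)) (.nr 1043 524289 (.nr 1041 8193 (.lg 0 false 1 79 79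
  23 0 55440) (.nx 1042 6503 (.lg 0 true 1 73 73 23 0 55440) .out)) .out))) .out) .out)) (.na 1054
  217 (.nx 1053 660563 (.nr 1052 1048577 (.nr 1047 214 .s1 (.nx 1048 205 (.l1 (.ls 71 23 199)) (.nr
  1051 524289 (.nr 1049 8193 (.lg 0 false 1 79 79 23 0 55440) (.nx 1050 6503 (.lg 0 true 1 73 73 23
  0 55440) .out)) .out))) .out) .out) (.nx 1061 660563 (.nr 1060 1048577 (.nr 1055 217 .s1 (.nx
  1056 205 (.l1 (.ls 67 19 196)) (.nr 1059 524289 (.nr 1057 8193 (.lg 0 false 1 73 73 17 0 5544)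
  (.nx 1058 6503 (.lg 0 true 1 73 73 17 0 5544) .out)) .out))) .out) .out)))))) (.na 1138 257 (.na
  1096 234 (.na 1086 229 (.na 1070 222 (.nx 1069 660563 (.nr 1068 1048577 (.nr 1063 219 .s1 (.nx
  1064 205 (.l1 (.ls 71 19 194)) (.nr 1067 524289 (.nr 1065 8193 (.lg 0 true 1 79 79 19 0 5544)
  (.nx 1066 6503 (.lg 0 false 1 73 73 19 0 5544) .out)) .out))) .out) .out) (.na 1078 226 (.nx 1077
  660563 (.nr 1076 1048577 (.nr 1071 222 .s1 (.nx 1072 205 (.l1 (.ls 73 31 192)) (.nr 1075 524289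
  (.nr 1073 8193 (.lg 0 false 1 83 83 31 0 11088) (.nx 1074 6503 (.lg 0 false 1 79 79 31 0 11088)
  .out)) .out))) .out) .out) (.nx 1085 660563 (.nr 1084 1048577 (.nr 1079 226 .s1 (.nx 1080 205
  (.l1 (.ls 71 23 188)) (.nr 1083 524289 (.nr 1081 8193 (.lg 0 false 1 79 79 23 0 55440) (.nx 1082
  6503 (.lg 0 true 1 73 73 23 0 55440) .out)) .out))) .out) .out))) (.na 1087 231 (.lg 0 false 1 0
  0 16 0 24) (.na 1095 233 (.nx 1094 660563 (.nr 1093 1048577 (.nr 1088 231 .s1 (.nx 1089 205 (.l1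
  (.ls 67 29 184)) (.nr 1092 524289 (.nr 1090 8193 (.lg 0 false 1 73 73 29 0 27720) (.nx 1091 6503
  (.lg 0 true 1 71 71 29 0 5544) .out)) .out))) .out) .out) (.lg 0 false 1 0 0 16 0 24)))) (.na
  1113 246 (.na 1104 238 (.nx 1103 660563 (.nr 1102 1048577 (.nr 1097 234 .s1 (.nx 1098 205 (.l1
  (.ls 73 37 182)) (.nr 1101 524289 (.nr 1099 8193 (.lg 0 false 1 83 83 37 0 720720) (.nx 1100 6503
  (.lg 0 true 1 79 79 37 0 144144) .out)) .out))) .out) .out) (.na 1112 242 (.nx 1111 660563 (.nr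
  1110 1048577 (.nr 1105 238 .s1 (.nx 1106 205 (.l1 (.ls 67 31 179)) (.nr 1109 524289 (.nr 1107
  8193 (.lg 0 false 1 79 79 31 0 11088) (.nx 1108 6503 (.lg 0 true 1 73 73 31 0 11088) .out))
  .out))) .out) .out) (.lg 0 false 1 0 0 16 0 24))) (.na 1129 254 (.na 1121 251 (.nx 1120 660563
  (.nr 1119 1048577 (.nr 1114 246 .s1 (.nx 1115 205 (.l1 (.ls 79 31 173)) (.nr 1118 524289 (.nr
  1116 8193 (.lg 0 false 1 83 83 31 0 55440) (.nx 1117 6503 (.lg 0 false 1 79 79 31 0 11088) .out))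
  .out))) .out) .out) (.nx 1128 660563 (.nr 1127 1048577 (.nr 1122 251 .s1 (.nx 1123 205 (.l1 (.ls
  67 17 170)) (.nr 1126 524289 (.nr 1124 8193 (.lg 0 false 1 71 71 17 0 5544) (.nx 1125 6503 (.lg 0
  true 1 71 71 17 0 27720) .out)) .out))) .out) .out)) (.na 1137 256 (.nx 1136 660563 (.nr 1135
  1048577 (.nr 1130 254 .s1 (.nx 1133 6503 (.nx 1131 205 (.l1 (.ls 67 23 168)) (.nr 1132 524289
  (.lg 0 true 1 71 71 23 0 11088) .out)) (.nr 1134 8193 (.lg 2 false 1 61 61 23 100125 11088)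
  .out))) .out) .out) .ne)))) (.na 4523 2897 (.na 2384 1024 (.na 1652 512 (.nx 1651 82572 (.nr 1650
  1048577 (.nr 1139 257 .s1 (.nx 1394 647 (.la (.ls 71 29 1631)) (.nr 1649 262145 (.la (.lg 0 true
  1 79 79 23 0)) .out))) .out) .out) (.na 2082 725 (.nx 2081 82572 (.nr 2080 1048577 (.nr 1653 512
  .s1 (.nx 1866 647 (.la (.ls 67 29 820)) (.nr 2079 262145 (.la (.lg 0 true 1 71 71 29 0)) .out)))
  .out) .out) (.nx 2383 3252 (.nr 2382 262145 (.nr 2083 725 .s1 (.la (.ls 53 43 14589))) .out)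
  .out))) (.na 2913 1449 (.nx 2912 3252 (.nr 2911 262145 (.nr 2385 1024 .s1 (.nx 2486 101 (.nr 2485
  131073 (.lx (.lp 47 19 363)) .out) (.la (.ls 53 41 10320)))) .out) .out) (.na 3593 2048 (.nx 3592
  1627 (.nr 3591 131073 (.nr 2914 1449 .s1 (.nx 2991 77 (.nr 2990 12749 (.lx (.lp 29 23 513)) (.l1
  .sk)) (.nx 2992 78 (.l1 .sk) (.la (.ls 43 31 1825))))) .out) .out) (.nx 4522 1627 (.nr 4521
  131073 (.nr 3594 2048 .s1 (.nx 3671 77 (.nr 3670 18035 (.lx (.lp 29 23 725)) (.l1 .sk)) (.nx 3672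
  78 (.l1 .sk) (.la (.ls 43 31 1292))))) .out) .out)))) (.na 6472 16384 (.na 5173 4096 (.nx 5172
  647 (.nr 5171 65537 (.nr 4524 2897 .s1 (.nx 4686 163 (.lx (.lp 41 31 1025)) (.nr 5170 32769 (.lx
  (.lp 31 31 1025)) .out))) .out) .out) (.na 5823 8192 (.nx 5822 647 (.nr 5821 65537 (.nr 5174 4096
  .s1 (.nx 5336 163 (.lx (.lp 37 31 2049)) (.nr 5820 32769 (.lx (.lp 31 37 2049)) .out))) .out)
  .out) (.nx 6471 647 (.nr 6470 65537 (.nr 5824 8192 .s1 (.lx (.lp 31 41 4097))) .out) .out))) (.na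
  7448 65536 (.na 7122 32768 (.nx 7121 647 (.nr 7120 131073 (.nr 6473 16384 .s1 (.nx 6635 163 (.lx
  (.lp 16 41 8193)) (.nr 7119 65537 (.lx (.lp 29 43 8193)) .out))) .out) .out) (.nx 7447 324 (.nr
  7446 131073 (.nr 7123 32768 .s1 (.lx (.lp 16 43 16385))) .out) .out)) (.na 7774 131073 (.nx 7773
  324 (.nr 7772 262145 (.nr 7449 65536 .s1 (.lx (.lp 16 47 32769))) .out) .out) .out)))))))

def T127_1 : Ph :=
  (.na 543 163 (.na 318 98 (.na 167 62 (.na 93 46 (.na 47 38 (.na 29 33 (.nx 28 1321124 (.nr 27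
  1048577 (.nr 1 31 .s1 (.nx 4 125 (.nx 3 124 (.nr 2 261 (.l1 (.ls 37 29 483)) (.l1 .sk)) (.l1
  .sk)) (.nx 9 6503 (.nx 5 205 (.l1 (.ls 97 31 828)) (.nr 8 370729 (.lg 0 false 3 97 97 19 0
  156240) .out)) (.nr 26 92683 (.nx 12 16385 (.lg 0 false 3 89 89 19 0 156240) (.nr 25 38969 (.nr
  15 217 (.lg 0 true 3 73 73 23 0 4464) (.nx 24 165142 (.nx 18 46342 (.lg 1 false 3 73 73 19 18344
  4464) (.nr 23 32769 (.nx 21 82572 (.lg 0 false 3 89 89 19 0 156240) (.nr 22 513 (.lg 0 true 1 71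
  71 13 0 1488) .out)) .out)) .out)) .out)) .out)))) .out) .out) (.na 30 35 .ne (.nx 46 1321124
  (.nr 45 370729 (.nr 31 34 .s1 (.nx 37 6503 (.nx 33 124 (.nr 32 300 (.l1 (.ls 23 29 442)) (.l1
  .sk)) (.nx 34 125 (.l1 .sk) (.lg 0 false 3 89 89 17 0 78120))) (.nr 44 77937 (.nx 38 13005 (.lg 0
  true 1 83 83 16 0 26040) (.nr 43 23172 (.nr 41 300 (.lg 0 true 3 73 73 17 0 78120) (.nx 42 82572
  (.lg 2 true 1 83 83 16 17065 26040) .out)) .out)) .out))) .out) .out))) (.na 63 40 (.nx 62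
  1321124 (.nr 61 370729 (.nr 48 37 .s1 (.nx 54 13005 (.nx 50 124 (.nr 49 316 (.l1 (.ls 17 31 407))
  (.l1 .sk)) (.nx 51 125 (.l1 .sk) (.lg 0 false 3 97 97 13 0 156240))) (.nr 60 23172 (.nr 58 316
  (.lg 0 true 4 71 71 17 0 1488) (.nx 59 82572 (.lg 2 true 1 83 83 13 16201 52080) .out)) .out)))
  .out) .out) (.na 78 41 (.nx 77 1321124 (.nr 76 370729 (.nr 64 39 .s1 (.nx 66 124 (.nr 65 324 (.l1
  (.ls 23 31 387)) (.l1 .sk)) (.nx 67 125 (.l1 .sk) (.nx 70 13005 (.lg 0 false 3 89 89 23 0 22320)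
  (.nr 75 23172 (.nr 73 324 (.lg 0 true 3 71 71 23 0 22320) (.nx 74 82572 (.lg 2 true 1 79 79 19
  15801 7440) .out)) .out))))) .out) .out) (.nx 92 1321124 (.nr 91 370729 (.nr 79 40 .s1 (.nx 85
  13005 (.nx 81 124 (.nr 80 363 (.l1 (.ls 17 19 378)) (.l1 .sk)) (.nx 82 125 (.l1 .sk) (.lg 0 false
  3 89 89 16 0 2232))) (.nr 90 23172 (.nr 88 217 (.lg 0 true 3 67 67 16 0 2232) (.nx 89 82572 (.lg
  2 false 1 79 79 16 23592 744) .out)) .out))) .out) .out)))) (.na 124 50 (.na 94 47 .ne (.na 109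
  49 (.nx 108 1321124 (.nr 107 311745 (.nr 95 46 .s1 (.nx 98 125 (.nx 97 124 (.nr 96 387 (.l1 (.ls
  16 19 330)) (.l1 .sk)) (.l1 .sk)) (.nx 101 10323 (.lg 0 false 3 83 83 16 0 11160) (.nr 106 23172
  (.nr 104 387 (.lg 0 true 3 67 67 16 0 2232) (.nx 105 82572 (.lg 2 true 1 73 73 16 17351 3720)
  .out)) .out)))) .out) .out) (.nx 123 1321124 (.nr 122 311745 (.nr 110 48 .s1 (.nx 116 10323 (.nx
  112 124 (.nr 111 395 (.l1 (.ls 17 19 316)) (.l1 .sk)) (.nx 113 125 (.l1 .sk) (.lg 0 false 3 79 79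
  16 0 15624))) (.nr 121 23172 (.nr 119 395 (.lg 0 true 3 67 67 16 0 15624) (.nx 120 82572 (.lg 2
  true 1 73 73 16 17351 26040) .out)) .out))) .out) .out))) (.na 138 56 (.nx 137 1321124 (.nr 136
  311745 (.nr 125 49 .s1 (.nx 128 125 (.nx 127 124 (.nr 126 442 (.l1 (.ls 19 29 310)) (.l1 .sk))
  (.l1 .sk)) (.nx 131 10323 (.lg 0 false 3 83 83 19 0 22320) (.nr 135 23172 (.nr 133 217 (.lg 0
  true 2 67 67 19 0 7440) (.nx 134 82572 (.lg 2 false 1 79 79 13 23592 7440) .out)) .out)))) .out)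
  .out) (.na 152 59 (.nx 151 1321124 (.nr 150 311745 (.nr 139 55 .s1 (.nx 142 125 (.nx 141 124 (.nr
  140 466 (.l1 (.ls 29 29 277)) (.l1 .sk)) (.l1 .sk)) (.nx 147 82572 (.nx 145 10323 (.lg 0 false 3
  89 89 23 0 31248) (.nr 146 23172 (.lg 0 false 1 89 89 19 0 10416) .out)) (.nr 149 217 (.lg 0 true
  2 67 67 23 0 10416) .out)))) .out) .out) (.nx 166 1321124 (.nr 165 311745 (.nr 153 58 .s1 (.nx
  159 10323 (.nx 155 124 (.nr 154 490 (.l1 (.ls 17 17 263)) (.l1 .sk)) (.nx 156 125 (.l1 .sk) (.lg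
  0 false 3 79 79 16 0 2232))) (.nr 164 23172 (.nr 162 490 (.lg 0 true 3 67 67 16 0 2232) (.nx 163
  82572 (.lg 2 true 1 73 73 16 17351 744) .out)) .out))) .out) .out))))) (.na 240 76 (.na 196 67
  (.na 182 64 (.nx 181 1321124 (.nr 180 311745 (.nr 168 61 .s1 (.nx 171 125 (.nx 170 124 (.nr 169
  505 (.lg 0 true 1 16 16 13 0 156240) (.l1 .sk)) (.l1 .sk)) (.nx 174 10323 (.lg 0 true 3 73 73 13
  0 4464) (.nr 179 23172 (.nr 176 217 (.lg 0 false 2 61 61 13 0 52080) (.nx 178 82572 (.lg 2 false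
  2 61 61 13 23592 1488) .out)) .out)))) .out) .out) (.na 195 65 (.nx 194 1321124 (.nr 193 524289
  (.nr 183 64 .s1 (.nx 185 124 (.nr 184 513 (.l1 (.ls 29 23 243)) (.l1 .sk)) (.nx 186 125 (.l1 .sk)
  (.nr 191 46342 (.nx 187 20644 (.lg 0 false 1 83 83 19 0 1488) (.nr 190 13779 (.nx 188 82572 (.lg
  0 true 1 89 89 19 0 52080) (.nr 189 513 (.lg 0 true 1 73 73 19 0 1488) .out)) .out)) (.nx 192
  8193 (.lg 0 false 1 97 97 19 0 52080) .out))))) .out) .out) .ne)) (.na 211 70 (.nx 210 1321124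
  (.nr 209 524289 (.nr 197 67 .s1 (.nx 200 125 (.nx 199 124 (.nr 198 553 (.l1 (.ls 17 17 232)) (.l1
  .sk)) (.l1 .sk)) (.nx 203 8193 (.lg 0 false 3 83 83 16 0 2232) (.nr 208 8193 (.nr 206 513 (.lg 0
  true 3 67 67 16 0 2232) (.nx 207 82572 (.lg 2 false 1 59 59 16 9980 744) .out)) .out)))) .out)
  .out) (.na 225 71 (.nx 224 1321124 (.nr 223 524289 (.nr 212 70 .s1 (.nx 214 124 (.nr 213 561 (.l1
  (.ls 23 31 222)) (.l1 .sk)) (.nx 215 125 (.l1 .sk) (.nx 218 8193 (.lg 0 false 3 83 89 29 0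
  156240) (.nr 222 8193 (.nr 220 513 (.lg 0 true 2 71 71 29 0 52080) (.nx 221 82572 (.lg 2 true 1
  67 67 23 9980 52080) .out)) .out))))) .out) .out) (.nx 239 1321124 (.nr 238 524289 (.nr 226 71
  .s1 (.nx 229 125 (.nx 228 124 (.nr 227 600 (.l1 (.ls 16 17 219)) (.l1 .sk)) (.l1 .sk)) (.nx 232
  8193 (.lg 0 false 3 79 79 16 0 2232) (.nr 237 8193 (.nr 235 600 (.lg 0 true 3 61 61 16 0 2232)
  (.nx 236 82572 (.lg 2 false 1 53 53 16 8533 744) .out)) .out)))) .out) .out)))) (.na 279 91 (.na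
  254 80 (.nx 253 1321124 (.nr 252 524289 (.nr 241 76 .s1 (.nx 247 8193 (.nx 243 124 (.nr 242 632
  (.l1 (.ls 17 29 205)) (.l1 .sk)) (.nx 244 125 (.l1 .sk) (.lg 0 false 3 89 89 29 0 4464))) (.nr
  251 8193 (.nr 249 513 (.lg 0 true 2 73 73 23 0 1488) (.nx 250 82572 (.lg 2 true 1 67 67 17 9980
  1488) .out)) .out))) .out) .out) (.na 265 82 (.nx 264 1321124 (.nr 263 524289 (.nr 255 80 .s1
  (.nx 258 125 (.nx 257 124 (.nr 256 647 (.l1 (.ls 37 29 195)) (.l1 .sk)) (.l1 .sk)) (.nx 261 82572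
  (.nx 259 8193 (.lg 0 false 1 97 97 23 0 52080) (.nr 260 8193 (.lg 0 true 1 83 83 23 0 52080)
  .out)) (.nr 262 513 (.lg 0 true 1 73 73 23 0 7440) .out)))) .out) .out) (.nx 278 1321124 (.nr 277
  524289 (.nr 266 82 .s1 (.nx 268 124 (.nr 267 718 (.l1 (.ls 17 23 190)) (.l1 .sk)) (.nx 269 125
  (.l1 .sk) (.nx 272 8193 (.lg 0 false 3 79 79 19 0 4464) (.nr 276 8193 (.nr 274 513 (.lg 0 true 2
  67 67 19 0 1488) (.nx 275 82572 (.lg 2 false 1 61 61 13 9980 7440) .out)) .out))))) .out) .out)))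
  (.na 294 95 (.na 280 94 .ne (.nx 293 1321124 (.nr 292 524289 (.nr 281 94 .s1 (.nx 284 125 (.nx
  283 124 (.nr 282 750 (.l1 (.ls 17 23 166)) (.l1 .sk)) (.l1 .sk)) (.nx 287 8193 (.lg 0 false 3 79
  79 19 0 4464) (.nr 291 8193 (.nr 289 513 (.lg 0 true 2 67 67 19 0 1488) (.nx 290 82572 (.lg 2
  false 1 61 61 17 9980 52080) .out)) .out)))) .out) .out)) (.na 306 97 (.nx 305 1321124 (.nr 304
  524289 (.nr 295 95 .s1 (.nx 299 8193 (.nx 297 124 (.nr 296 766 (.l1 (.ls 17 17 164)) (.l1 .sk))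
  (.nx 298 125 (.l1 .sk) (.lg 0 true 1 89 89 17 0 78120))) (.nr 303 8193 (.nr 301 513 (.lg 0 true 2
  73 73 17 0 7440) (.nx 302 82572 (.lg 2 false 1 67 67 17 9980 26040) .out)) .out))) .out) .out)
  (.nx 317 1321124 (.nr 316 524289 (.nr 307 97 .s1 (.nx 310 125 (.nx 309 124 (.nr 308 774 (.l1 (.ls
  16 17 161)) (.l1 .sk)) (.l1 .sk)) (.nx 311 8193 (.lg 0 true 1 79 79 16 0 744) (.nr 315 8193 (.nr
  313 513 (.lg 0 true 2 61 61 16 0 1488) (.nx 314 82572 (.lg 2 true 1 53 53 16 9980 744) .out))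
  .out)))) .out) .out)))))) (.na 454 131 (.na 388 112 (.na 355 103 (.na 330 100 (.nx 329 1321124
  (.nr 328 524289 (.nr 319 98 .s1 (.nx 322 125 (.nx 321 124 (.nr 320 789 (.l1 (.ls 19 29 159)) (.l1
  .sk)) (.l1 .sk)) (.nx 323 8193 (.lg 0 true 1 83 83 19 0 10416) (.nr 327 8193 (.nr 325 513 (.lg 0
  true 2 61 61 23 0 10416) (.nx 326 82572 (.lg 2 true 1 59 59 19 9980 52080) .out)) .out)))) .out)
  .out) (.na 343 101 (.nx 342 1321124 (.nr 341 524289 (.nr 331 100 .s1 (.nx 336 8193 (.nx 333 124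
  (.nr 332 797 (.l1 (.ls 23 29 156)) (.l1 .sk)) (.nx 334 125 (.l1 .sk) (.lg 0 false 2 83 83 29 0
  7440))) (.nr 340 8193 (.nr 338 513 (.lg 0 true 2 67 67 29 0 7440) (.nx 339 82572 (.lg 2 true 1 61
  61 23 9980 7440) .out)) .out))) .out) .out) (.nx 354 1321124 (.nr 353 524289 (.nr 344 101 .s1
  (.nx 346 124 (.nr 345 813 (.l1 (.ls 16 17 155)) (.l1 .sk)) (.nx 347 125 (.l1 .sk) (.nx 348 8193
  (.lg 0 true 1 79 79 16 0 26040) (.nr 352 8193 (.nr 350 513 (.lg 0 true 2 61 61 16 0 1488) (.nx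
  351 82572 (.lg 2 true 1 53 53 16 9980 26040) .out)) .out))))) .out) .out))) (.na 366 107 (.nx 365
  1321124 (.nr 364 524289 (.nr 356 103 .s1 (.nx 360 8193 (.nx 358 124 (.nr 357 845 (.l1 (.ls 16 17
  152)) (.l1 .sk)) (.nx 359 125 (.l1 .sk) (.lg 0 true 1 79 79 16 0 11160))) (.nr 363 8193 (.nr 361
  845 (.lg 0 false 1 67 67 16 0 744) (.nx 362 82572 (.lg 2 true 1 47 47 16 7805 3720) .out))
  .out))) .out) .out) (.na 377 109 (.nx 376 1321124 (.nr 375 524289 (.nr 367 107 .s1 (.nx 370 125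
  (.nx 369 124 (.nr 368 860 (.l1 (.ls 16 17 146)) (.l1 .sk)) (.l1 .sk)) (.nx 371 8193 (.lg 0 true 1
  73 73 16 0 744) (.nr 374 8193 (.nr 372 513 (.lg 0 false 1 61 61 16 0 3720) (.nx 373 82572 (.lg 2
  false 1 47 47 16 9980 3720) .out)) .out)))) .out) .out) (.nx 387 1321124 (.nr 386 524289 (.nr 378
  109 .s1 (.nx 380 124 (.nr 379 884 (.l1 (.ls 16 17 144)) (.l1 .sk)) (.nx 381 125 (.l1 .sk) (.nx
  382 8193 (.lg 0 true 1 79 79 16 0 26040) (.nr 385 8193 (.nr 383 513 (.lg 0 false 1 67 67 16 0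
  26040) (.nx 384 82572 (.lg 2 true 1 47 47 16 9980 744) .out)) .out))))) .out) .out)))) (.na 421
  124 (.na 399 113 (.nx 398 1321124 (.nr 397 524289 (.nr 389 112 .s1 (.nx 393 8193 (.nx 391 124
  (.nr 390 892 (.l1 (.ls 37 29 140)) (.l1 .sk)) (.nx 392 125 (.l1 .sk) (.lg 0 false 1 89 89 29 0
  10416))) (.nr 396 8193 (.nx 394 82572 (.lg 0 true 1 83 83 29 0 156240) (.nr 395 513 (.lg 0 true 1
  73 73 29 0 10416) .out)) .out))) .out) .out) (.na 410 118 (.nx 409 1321124 (.nr 408 524289 (.nr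
  400 113 .s1 (.nx 404 8193 (.nx 402 124 (.nr 401 931 (.l1 (.ls 16 17 139)) (.l1 .sk)) (.nx 403 125
  (.l1 .sk) (.lg 0 true 1 79 79 16 0 744))) (.nr 407 8193 (.nr 405 513 (.lg 0 false 1 67 67 16 0
  744) (.nx 406 82572 (.lg 2 false 1 47 47 16 9980 744) .out)) .out))) .out) .out) (.nx 420 1321124
  (.nr 419 524289 (.nr 411 118 .s1 (.nx 414 125 (.nx 413 124 (.nr 412 979 (.l1 (.ls 16 23 133))
  (.l1 .sk)) (.l1 .sk)) (.nx 415 8193 (.lg 0 true 1 83 83 19 0 1488) (.nr 418 8193 (.nr 416 513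
  (.lg 2 false 1 67 67 19 694150 52080) (.nx 417 82572 (.lg 2 true 1 47 47 19 9980 1488) .out))
  .out)))) .out) .out))) (.na 443 128 (.na 432 125 (.nx 431 1321124 (.nr 430 524289 (.nr 422 124
  .s1 (.nx 424 124 (.nr 423 987 (.l1 (.ls 16 23 126)) (.l1 .sk)) (.nx 425 125 (.l1 .sk) (.nx 426
  8193 (.lg 0 true 1 79 79 19 0 7440) (.nr 429 8193 (.nr 427 513 (.lg 2 false 1 61 61 19 660562
  7440) (.nx 428 82572 (.lg 2 false 1 47 47 19 9980 1488) .out)) .out))))) .out) .out) (.nx 442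
  1321124 (.nr 441 524289 (.nr 433 125 .s1 (.nx 437 8193 (.nx 435 124 (.nr 434 1010 (.l1 (.ls 16 17
  126)) (.l1 .sk)) (.nx 436 125 (.l1 .sk) (.lg 0 true 1 73 73 16 0 3720))) (.nr 440 8193 (.nr 438
  513 (.lg 2 false 1 59 59 16 655278 3720) (.nx 439 82572 (.lg 2 true 1 47 47 16 9980 3720) .out))
  .out))) .out) .out)) (.na 453 129 (.nx 452 1321124 (.nr 451 1048577 (.nr 444 128 .s1 (.nx 445 205
  (.l1 (.ls 79 29 331)) (.nr 450 524289 (.nx 446 8193 (.lg 0 false 1 83 89 29 0 7440) (.nr 449 8193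
  (.nr 447 1025 (.lg 0 true 1 73 73 23 0 1488) (.nx 448 82572 (.lg 2 true 1 59 61 23 7805 7440)
  .out)) .out)) .out))) .out) .out) .ne)))) (.na 492 142 (.na 480 137 (.na 462 133 (.nx 461 660563
  (.nr 460 1048577 (.nr 455 131 .s1 (.nx 456 205 (.l1 (.ls 67 19 323)) (.nr 459 524289 (.nr 457
  8193 (.lg 0 false 1 73 73 16 0 744) (.nx 458 6503 (.lg 0 true 1 73 73 16 0 11160) .out)) .out)))
  .out) .out) (.na 472 134 (.nx 471 660563 (.nr 470 1048577 (.nr 463 133 .s1 (.nx 466 7689 (.nx 464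
  205 (.l1 (.ls 73 29 318)) (.nr 465 524289 (.lg 0 true 1 83 83 17 0 26040) .out)) (.nr 469 8193
  (.nr 467 1025 (.lg 0 true 1 67 67 17 0 5208) (.nx 468 82572 (.lg 2 false 1 59 59 17 8317 26040)
  .out)) .out))) .out) .out) (.nx 479 660563 (.nr 478 1048577 (.nr 473 134 .s1 (.nx 474 205 (.l1
  (.ls 61 29 316)) (.nr 477 524289 (.nx 475 6503 (.lg 0 true 1 79 79 19 0 1488) (.nr 476 8193 (.lg
  0 false 1 83 83 19 0 1488) .out)) .out))) .out) .out))) (.na 481 139 (.lg 0 false 1 0 0 16 0 24)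
  (.na 482 140 (.lg 0 false 1 0 0 16 0 24) (.nx 491 660563 (.nr 490 1048577 (.nr 483 140 .s1 (.nx
  486 6503 (.nx 484 205 (.l1 (.ls 79 31 303)) (.nr 485 524289 (.lg 0 false 1 89 89 31 0 156240)
  .out)) (.nr 489 8193 (.nx 487 82572 (.lg 0 true 1 79 79 31 0 156240) (.nr 488 1025 (.lg 0 true 1
  73 73 31 0 52080) .out)) .out))) .out) .out)))) (.na 509 152 (.na 500 149 (.nx 499 660563 (.nr
  498 1048577 (.nr 493 142 .s1 (.nx 494 205 (.l1 (.ls 67 29 298)) (.nr 497 524289 (.nr 495 8193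
  (.lg 0 false 1 83 83 19 0 7440) (.nx 496 6503 (.lg 0 true 1 79 79 19 0 7440) .out)) .out))) .out)
  .out) (.na 508 151 (.nx 507 660563 (.nr 506 1048577 (.nr 501 149 .s1 (.nx 502 205 (.l1 (.ls 67 19
  285)) (.nr 505 524289 (.nr 503 8193 (.lg 0 false 1 73 73 16 0 744) (.nx 504 6503 (.lg 0 true 1 71
  71 16 0 744) .out)) .out))) .out) .out) (.lg 0 false 1 0 0 16 0 24))) (.na 525 157 (.na 517 155
  (.nx 516 660563 (.nr 515 1048577 (.nr 510 152 .s1 (.nx 511 205 (.l1 (.ls 73 31 279)) (.nr 514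
  524289 (.nr 512 8193 (.lg 0 false 1 83 83 29 0 7440) (.nx 513 6503 (.lg 0 false 1 79 79 29 0
  1488) .out)) .out))) .out) .out) (.nx 524 660563 (.nr 523 1048577 (.nr 518 155 .s1 (.nx 519 205
  (.l1 (.ls 67 19 274)) (.nr 522 524289 (.nr 520 8193 (.lg 0 false 1 73 73 17 0 3720) (.nx 521 6503
  (.lg 0 true 1 71 71 17 0 3720) .out)) .out))) .out) .out)) (.na 533 160 (.nx 532 660563 (.nr 531
  1048577 (.nr 526 157 .s1 (.nx 527 205 (.l1 (.ls 79 17 270)) (.nr 530 524289 (.nr 528 8193 (.lg 0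
  false 1 73 73 16 0 744) (.nx 529 6503 (.lg 0 true 1 71 71 16 0 744) .out)) .out))) .out) .out)
  (.nx 542 660563 (.nr 541 1048577 (.nr 534 160 .s1 (.nx 539 82572 (.nx 535 205 (.l1 (.ls 83 29
  265)) (.nr 538 524289 (.nx 536 6503 (.lg 0 false 1 83 83 29 0 7440) (.nr 537 8193 (.lg 0 true 1
  73 79 31 0 7440) .out)) .out)) (.nr 540 1025 (.lg 0 true 1 71 73 31 0 7440) .out))) .out)
  .out))))))) (.na 701 226 (.na 618 196 (.na 577 181 (.na 560 173 (.na 551 164 (.nx 550 660563 (.nr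
  549 1048577 (.nr 544 163 .s1 (.nx 545 205 (.l1 (.ls 61 17 260)) (.nr 548 524289 (.nr 546 8193
  (.lg 0 false 1 73 73 16 0 3720) (.nx 547 6503 (.lg 0 true 1 71 71 16 0 3720) .out)) .out))) .out)
  .out) (.na 559 167 (.nx 558 660563 (.nr 557 1048577 (.nr 552 164 .s1 (.nx 553 205 (.l1 (.ls 79 29
  259)) (.nr 556 524289 (.nr 554 8193 (.lg 0 true 1 83 83 23 0 1488) (.nx 555 6503 (.lg 0 false 1
  79 79 23 0 1488) .out)) .out))) .out) .out) (.lg 0 false 1 0 0 16 0 24))) (.na 568 175 (.nx 567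
  660563 (.nr 566 1048577 (.nr 561 173 .s1 (.nx 562 205 (.l1 (.ls 61 17 245)) (.nr 565 524289 (.nr
  563 8193 (.lg 0 false 1 71 71 16 0 744) (.nx 564 6503 (.lg 0 true 1 71 71 16 0 3720) .out))
  .out))) .out) .out) (.na 576 179 (.nx 575 660563 (.nr 574 1048577 (.nr 569 175 .s1 (.nx 570 205
  (.l1 (.ls 73 23 243)) (.nr 573 524289 (.nr 571 8193 (.lg 0 true 1 79 79 19 0 26040) (.nx 572 6503
  (.lg 0 false 1 73 73 19 0 26040) .out)) .out))) .out) .out) (.lg 0 false 1 0 0 16 0 24)))) (.na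
  594 191 (.na 578 188 (.lg 0 false 1 0 0 16 0 24) (.na 586 190 (.nx 585 660563 (.nr 584 1048577
  (.nr 579 188 .s1 (.nx 580 205 (.l1 (.ls 73 23 226)) (.nr 583 524289 (.nr 581 8193 (.lg 0 true 1
  79 79 23 0 1488) (.nx 582 6503 (.lg 0 false 1 79 79 23 0 1488) .out)) .out))) .out) .out) (.nx
  593 660563 (.nr 592 1048577 (.nr 587 190 .s1 (.nx 590 6503 (.nx 588 205 (.l1 (.ls 73 31 224))
  (.nr 589 524289 (.lg 0 false 1 79 79 31 0 7440) .out)) (.nr 591 8193 (.lg 0 true 1 79 79 31 0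
  7440) .out))) .out) .out))) (.na 602 193 (.nx 601 660563 (.nr 600 1048577 (.nr 595 191 .s1 (.nx
  596 205 (.l1 (.ls 61 17 223)) (.nr 599 524289 (.nr 597 8193 (.lg 0 false 1 71 71 16 0 3720) (.nx
  598 6503 (.lg 0 true 1 67 67 16 0 744) .out)) .out))) .out) .out) (.na 610 194 (.nx 609 660563
  (.nr 608 1048577 (.nr 603 193 .s1 (.nx 604 205 (.l1 (.ls 79 17 220)) (.nr 607 524289 (.nr 605
  8193 (.lg 0 false 1 73 73 16 0 744) (.nx 606 6503 (.lg 0 true 1 71 71 16 0 744) .out)) .out)))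
  .out) .out) (.nx 617 660563 (.nr 616 1048577 (.nr 611 194 .s1 (.nx 612 205 (.l1 (.ls 67 23 219))
  (.nr 615 524289 (.nx 613 6503 (.lg 0 true 1 71 71 19 0 1488) (.nr 614 8193 (.lg 0 false 1 73 73
  19 0 22320) .out)) .out))) .out) .out))))) (.na 652 206 (.na 628 200 (.na 626 197 (.nx 625 660563
  (.nr 624 1048577 (.nr 619 196 .s1 (.nx 620 205 (.l1 (.ls 71 29 217)) (.nr 623 524289 (.nr 621
  8193 (.lg 0 true 1 79 79 29 0 10416) (.nx 622 6503 (.lg 0 false 1 73 73 29 0 10416) .out))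
  .out))) .out) .out) (.na 627 199 (.lg 0 false 1 0 0 16 0 24) (.lg 0 false 1 0 0 16 0 24))) (.na
  636 202 (.nx 635 660563 (.nr 634 1048577 (.nr 629 200 .s1 (.nx 630 205 (.l1 (.ls 71 29 213)) (.nr
  633 524289 (.nr 631 8193 (.lg 0 true 1 73 73 29 0 7440) (.nx 632 6503 (.lg 0 false 1 73 73 29 0
  7440) .out)) .out))) .out) .out) (.na 644 205 (.nx 643 660563 (.nr 642 1048577 (.nr 637 202 .s1
  (.nx 638 205 (.l1 (.ls 71 23 211)) (.nr 641 524289 (.nr 639 8193 (.lg 0 false 1 73 73 23 0 1488)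
  (.nx 640 6503 (.lg 0 true 1 71 71 23 0 1488) .out)) .out))) .out) .out) (.nx 651 660563 (.nr 650
  1048577 (.nr 645 205 .s1 (.nx 646 205 (.l1 (.ls 71 19 207)) (.nr 649 524289 (.nr 647 8193 (.lg 0
  true 1 73 73 19 0 3720) (.nx 648 6503 (.lg 0 false 1 73 73 19 0 3720) .out)) .out))) .out)
  .out)))) (.na 676 217 (.na 660 211 (.nx 659 660563 (.nr 658 1048577 (.nr 653 206 .s1 (.nx 654 205
  (.l1 (.ls 73 23 207)) (.nr 657 524289 (.nr 655 8193 (.lg 0 false 1 73 73 23 0 52080) (.nx 656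
  6503 (.lg 0 true 1 71 71 23 0 1488) .out)) .out))) .out) .out) (.na 668 214 (.nx 667 660563 (.nr
  666 1048577 (.nr 661 211 .s1 (.nx 662 205 (.l1 (.ls 73 17 202)) (.nr 665 524289 (.nr 663 8193
  (.lg 0 false 1 71 71 16 0 744) (.nx 664 6503 (.lg 0 true 1 67 67 16 0 744) .out)) .out))) .out)
  .out) (.nx 675 660563 (.nr 674 1048577 (.nr 669 214 .s1 (.nx 670 205 (.l1 (.ls 73 23 199)) (.nr
  673 524289 (.nr 671 8193 (.lg 0 false 1 73 73 23 0 52080) (.nx 672 6503 (.lg 0 true 1 71 71 23 0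
  1488) .out)) .out))) .out) .out))) (.na 692 223 (.na 684 218 (.nx 683 660563 (.nr 682 1048577
  (.nr 677 217 .s1 (.nx 678 205 (.l1 (.ls 61 19 196)) (.nr 681 524289 (.nr 679 8193 (.lg 0 false 1
  71 71 17 0 5208) (.nx 680 6503 (.lg 0 true 1 71 71 17 0 26040) .out)) .out))) .out) .out) (.nx
  691 660563 (.nr 690 1048577 (.nr 685 218 .s1 (.nx 686 205 (.l1 (.ls 71 23 195)) (.nr 689 524289
  (.nr 687 8193 (.lg 0 false 1 71 71 23 0 1488) (.nx 688 6503 (.lg 0 true 1 71 71 23 0 52080)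
  .out)) .out))) .out) .out)) (.na 693 224 (.lg 0 false 1 0 0 16 0 24) (.nx 700 660563 (.nr 699
  1048577 (.nr 694 224 .s1 (.nx 697 6503 (.nx 695 205 (.l1 (.ls 79 29 190)) (.nr 696 524289 (.lg 0
  false 1 79 83 31 0 52080) .out)) (.nr 698 8193 (.lg 0 true 1 83 83 37 0 52080) .out))) .out)
  .out)))))) (.na 779 257 (.na 742 239 (.na 718 233 (.na 709 227 (.nx 708 660563 (.nr 707 1048577
  (.nr 702 226 .s1 (.nx 703 205 (.l1 (.ls 61 23 188)) (.nr 706 524289 (.nr 704 8193 (.lg 0 false 1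
  71 71 23 0 7440) (.nx 705 6503 (.lg 0 true 1 67 67 23 0 1488) .out)) .out))) .out) .out) (.na 717
  229 (.nx 716 660563 (.nr 715 1048577 (.nr 710 227 .s1 (.nx 711 205 (.l1 (.ls 73 17 188)) (.nr 714
  524289 (.nx 712 6503 (.lg 0 true 1 67 67 17 0 744) (.nr 713 8193 (.lg 0 false 1 71 71 17 0 26040)
  .out)) .out))) .out) .out) (.lg 0 false 1 0 0 16 0 24))) (.na 726 235 (.nx 725 660563 (.nr 724
  1048577 (.nr 719 233 .s1 (.nx 720 205 (.l1 (.ls 61 17 183)) (.nr 723 524289 (.nr 721 8193 (.lg 0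
  false 1 67 67 17 0 744) (.nx 722 6503 (.lg 0 true 1 67 67 17 0 3720) .out)) .out))) .out) .out)
  (.na 734 236 (.nx 733 660563 (.nr 732 1048577 (.nr 727 235 .s1 (.nx 728 205 (.l1 (.ls 71 19 181))
  (.nr 731 524289 (.nr 729 8193 (.lg 0 true 1 73 73 19 0 3720) (.nx 730 6503 (.lg 0 false 1 73 73
  19 0 3720) .out)) .out))) .out) .out) (.nx 741 660563 (.nr 740 1048577 (.nr 735 236 .s1 (.nx 736
  205 (.l1 (.ls 53 23 181)) (.nr 739 524289 (.nr 737 8193 (.lg 0 true 1 73 73 23 0 1488) (.nx 738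
  6503 (.lg 0 false 1 73 73 23 0 1488) .out)) .out))) .out) .out)))) (.na 752 248 (.na 743 241 (.lg
  0 false 1 0 0 16 0 24) (.na 744 245 (.lg 0 false 1 0 0 16 0 24) (.nx 751 660563 (.nr 750 1048577
  (.nr 745 245 .s1 (.nx 746 205 (.l1 (.ls 67 23 174)) (.nr 749 524289 (.nr 747 8193 (.lg 0 true 1
  73 73 23 0 26040) (.nx 748 6503 (.lg 0 false 1 71 71 23 0 26040) .out)) .out))) .out) .out)))
  (.na 768 251 (.na 760 250 (.nx 759 660563 (.nr 758 1048577 (.nr 753 248 .s1 (.nx 754 205 (.l1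
  (.ls 73 23 172)) (.nr 757 524289 (.nr 755 8193 (.lg 0 false 1 73 73 23 0 156240) (.nx 756 6503
  (.lg 0 true 1 71 71 23 0 1488) .out)) .out))) .out) .out) (.nx 767 660563 (.nr 766 1048577 (.nr
  761 250 .s1 (.nx 762 205 (.l1 (.ls 61 29 171)) (.nr 765 524289 (.nr 763 8193 (.lg 0 false 1 71 71
  29 0 7440) (.nx 764 6503 (.lg 0 true 1 67 67 29 0 7440) .out)) .out))) .out) .out)) (.na 769 256
  (.lg 0 false 1 0 0 16 0 24) (.nx 778 660563 (.nr 777 1048577 (.nr 770 256 .s1 (.nx 771 647 (.l1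
  (.ls 73 37 1638)) (.nr 776 524289 (.nx 774 82572 (.nr 772 16385 (.lg 0 true 1 73 83 29 0 156240)
  (.nx 773 6503 (.lg 0 false 1 83 83 31 0 156240) .out)) (.nr 775 1025 (.lg 0 true 1 71 73 29 0
  156240) .out)) .out))) .out) .out))))) (.na 3907 2897 (.na 2025 1024 (.na 1293 512 (.nx 1292
  82572 (.nr 1291 1048577 (.nr 780 257 .s1 (.nx 1035 647 (.la (.ls 89 31 1631)) (.nr 1290 262145
  (.la (.lg 0 false 1 79 79 23 0)) .out))) .out) .out) (.na 1723 725 (.nx 1722 82572 (.nr 1721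
  1048577 (.nr 1294 512 .s1 (.nx 1507 647 (.la (.ls 73 29 820)) (.nr 1720 262145 (.la (.lg 0 false
  1 73 73 29 0)) .out))) .out) .out) (.nx 2024 3252 (.nr 2023 262145 (.nr 1724 725 .s1 (.la (.ls 59
  43 14589))) .out) .out))) (.na 2453 1449 (.nx 2452 3252 (.nr 2451 262145 (.nr 2026 1024 .s1 (.la
  (.ls 61 41 10330))) .out) .out) (.na 3055 2048 (.nx 3054 1627 (.nr 3053 131073 (.nr 2454 1449 .s1
  (.la (.ls 59 31 1829))) .out) .out) (.nx 3906 1627 (.nr 3905 131073 (.nr 3056 2048 .s1 (.la (.ls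
  53 31 1295))) .out) .out)))) (.na 5856 16384 (.na 4557 4096 (.nx 4556 647 (.nr 4555 65537 (.nr
  3908 2897 .s1 (.nx 4070 163 (.lx (.lp 53 31 1025)) (.nr 4554 32769 (.lx (.lp 47 31 1025)) .out)))
  .out) .out) (.na 5207 8192 (.nx 5206 647 (.nr 5205 65537 (.nr 4558 4096 .s1 (.nx 4720 163 (.lx
  (.lp 47 37 2049)) (.nr 5204 32769 (.lx (.lp 47 37 2049)) .out))) .out) .out) (.nx 5855 647 (.nr
  5854 65537 (.nr 5208 8192 .s1 (.lx (.lp 47 41 4097))) .out) .out))) (.na 6832 65536 (.na 6506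
  32768 (.nx 6505 647 (.nr 6504 131073 (.nr 5857 16384 .s1 (.nx 6019 163 (.lx (.lp 16 0 8193)) (.nr
  6503 65537 (.lx (.lp 43 43 8193)) .out))) .out) .out) (.nx 6831 324 (.nr 6830 131073 (.nr 6507
  32768 .s1 (.lx (.lp 41 47 16385))) .out) .out)) (.na 7158 131073 (.nx 7157 324 (.nr 7156 262145
  (.nr 6833 65536 .s1 (.lx (.lp 37 47 32769))) .out) .out) .out)))))))

def T127_2 : Ph :=
  (.na 487 14 (.na 330 6 (.na 119 3 (.na 1 2 .ne (.nx 118 3329023 (.nr 117 623489 (.nx 98 1321124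
  (.nx 3 89 (.nr 2 18 (.lg 0 true 1 31 31 5 0 12816) (.l1 .sk)) (.nx 4 90 (.l1 .sk) (.nr 84 77937
  (.nr 78 65537 (.nx 17 9555 (.lg 0 false 13 101 101 9 0 833040) (.nr 43 257 (.lg 0 true 26 83 83
  11 0 166608) (.nx 77 165142 (.nx 56 20644 (.lg 1 false 13 103 107 9 27204 64144080) (.nr 76 46342
  (.nr 63 1100 (.lg 2 true 7 79 79 9 28595 89712) (.lg 2 false 13 101 103 9 8908 833040)) .out))
  .out))) (.nx 83 1292 (.lg 0 false 5 79 79 9 0 64080) .out)) (.nx 97 205 (.lg 0 false 13 79 79 9 0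
  166608) .out)))) (.nr 116 9 (.lg 0 true 18 67 67 9 0 12816) .out)) .out) .out)) (.na 238 4 (.nx
  237 6658044 (.nr 236 881745 (.nx 121 89 (.nr 120 26 (.lg 0 true 1 31 31 5 0 448560) (.l1 .sk))
  (.nx 122 90 (.l1 .sk) (.nx 209 1321124 (.nx 151 8847 (.nr 133 55110 (.lg 0 false 11 97 97 16 0
  2467080) (.nx 150 1292 (.nx 144 205 (.lg 0 false 11 83 83 16 0 2467080) (.nx 145 406 .out (.nr
  149 110219 (.lg 0 false 4 83 97 7 0 448560) .out))) .out)) (.nr 208 65537 (.nr 174 364 (.nx 162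
  416129 (.lg 0 true 11 79 79 16 0 70488) (.nr 173 109 (.lg 0 true 11 79 79 16 0 70488) .out)) (.nx
  207 208065 (.nr 180 3220 (.nr 178 1557 (.lg 2 true 4 83 83 7 25437 448560) (.lg 2 false 2 83 83 7
  5947 448560)) (.nx 202 52017 (.nx 191 19111 (.lg 1 false 11 97 103 16 29381 4934160) (.lg 1 true
  11 101 107 16 13601 4934160)) (.nr 206 38969 (.lg 2 false 4 101 101 7 2974 448560) .out))) .out))
  .out)) (.nr 235 13 (.lg 0 true 26 79 79 7 0 166608) .out)))) .out) .out) (.na 239 5 .ne (.nx 329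
  10568985 (.nr 328 1482912 (.nx 299 1321124 (.nx 241 89 (.nr 240 40 (.lg 0 true 1 23 23 9 0 32040)
  (.l1 .sk)) (.nx 242 90 (.l1 .sk) (.nr 287 65537 (.nx 275 262145 (.nx 253 15464 (.lg 0 false 11 83
  97 16 0 352440) (.nr 264 824 (.lg 0 true 11 79 79 16 0 352440) (.lg 2 false 11 103 107 16 16809
  64144080))) (.nr 286 217 (.lg 0 true 11 79 79 16 0 352440) .out)) (.nx 298 205 (.lg 0 false 11 73
  79 16 0 352440) .out)))) (.nr 327 24 (.lg 0 true 28 73 73 16 0 448560) .out)) .out) .out)))) (.na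
  442 8 (.na 376 7 (.nx 375 1321124 (.nr 374 220437 (.nx 333 90 (.nx 332 89 (.nr 331 46 (.lg 0 true
  1 23 23 7 0 12816) (.l1 .sk)) (.l1 .sk)) (.nr 368 55110 (.nx 344 11394 (.lg 0 false 11 83 83 17 0
  140976) (.nr 355 501 (.lg 0 true 11 83 83 17 0 140976) (.nx 367 416129 (.nr 356 977 (.lg 2 false
  1 79 79 7 36962 12816) (.lg 2 false 11 97 103 17 19188 4934160)) .out))) (.nx 373 1292 (.lg 0
  false 5 83 83 13 0 64080) .out))) .out) .out) (.nx 441 10568985 (.nr 440 262145 (.nx 413 1321124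
  (.nx 378 89 (.nr 377 53 (.lg 0 true 1 23 23 9 0 224280) (.l1 .sk)) (.nx 379 90 (.l1 .sk) (.nx 388
  10321 (.nr 383 55110 (.lg 0 true 4 101 101 13 0 448560) (.nx 387 408 (.lg 0 false 4 79 79 13 0
  89712) .out)) (.nr 412 65537 (.nr 399 306 (.lg 0 true 11 79 79 16 0 493416) (.nx 411 262145 (.nx
  403 32769 (.lg 1 false 4 101 101 13 25185 448560) (.nr 410 55110 (.nr 406 2267 (.lg 2 true 3 79
  79 11 38123 224280) (.lg 2 false 4 97 101 13 6672 448560)) .out)) .out)) .out)))) (.nr 439 47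
  (.lg 0 true 26 79 83 16 0 1166256) .out)) .out) .out)) (.na 443 10 .ne (.na 486 12 (.nx 485
  1321124 (.nr 484 623489 (.nr 444 4 .s1 (.nx 447 90 (.nx 446 89 (.nr 445 80 (.lg 0 true 1 23 23 11
  0 448560) (.l1 .sk)) (.l1 .sk)) (.nr 477 77937 (.nx 458 20644 (.lg 0 false 11 83 101 19 0
  4934160) (.nr 476 55110 (.nx 468 330282 (.nr 464 766 (.lg 0 true 6 79 79 13 0 448560) (.nx 467
  165142 (.lg 2 false 3 97 97 13 10591 448560) .out)) (.nr 475 65 (.lg 0 true 7 71 71 13 0 448560)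
  .out)) .out)) (.nx 483 814 (.lg 0 false 6 83 83 13 0 448560) .out)))) .out) .out) .ne)))) (.na
  605 19 (.na 550 16 (.na 519 15 (.nx 518 1321124 (.nr 517 623489 (.nr 488 11 .s1 (.nx 512 330282
  (.nx 490 89 (.nr 489 100 (.lg 0 false 1 23 23 11 0 448560) (.l1 .sk)) (.nx 491 90 (.l1 .sk) (.nx
  502 20644 (.nr 496 92683 (.lg 0 false 5 97 97 13 0 448560) (.nx 501 814 (.lg 0 false 5 79 79 13 0
  448560) .out)) (.nr 511 55110 (.nr 507 766 (.lg 0 true 5 73 73 13 0 448560) (.nx 510 165142 (.lg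
  2 false 3 97 97 13 10591 448560) .out)) .out)))) (.nr 516 65 (.lg 0 true 4 67 67 13 0 89712)
  .out))) .out) .out) (.nx 549 1321124 (.nr 548 623489 (.nr 520 12 .s1 (.nx 543 330282 (.nx 522 89
  (.nr 521 107 (.lg 0 true 1 23 23 16 0 32040) (.l1 .sk)) (.nx 523 90 (.l1 .sk) (.nx 532 14046 (.nr
  527 92683 (.lg 0 false 4 83 97 17 0 64080) (.nx 531 814 (.lg 0 false 4 79 83 17 0 64080) .out))
  (.nr 542 65537 (.nr 536 374 (.lg 0 true 4 71 71 17 0 64080) (.nx 541 165142 (.nx 537 26009 (.lg 1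
  true 1 97 97 16 18505 224280) (.nr 540 46342 (.nr 538 1569 (.lg 2 false 1 71 71 16 19650 32040)
  (.lg 2 false 2 83 97 16 7071 64080)) .out)) .out)) .out)))) (.nr 547 65 (.lg 0 true 4 67 67 17 0
  64080) .out))) .out) .out)) (.na 551 17 .ne (.na 578 18 (.nx 577 1321124 (.nr 576 1048577 (.nr
  552 15 .s1 (.nx 556 205 (.nx 554 89 (.nr 553 121 (.lg 0 false 1 19 19 11 0 224280) (.l1 .sk))
  (.nx 555 90 (.l1 .sk) (.l1 (.ls 79 31 1998)))) (.nr 575 623489 (.nx 564 10323 (.nx 557 324 (.l1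
  (.ls 79 37 3706)) (.nr 563 220437 (.nr 561 131073 (.lg 0 false 4 97 97 16 0 448560) (.nx 562 814
  (.lg 0 true 1 73 73 11 0 224280) .out)) .out)) (.nr 574 55110 (.nr 569 498 (.lg 0 true 5 73 73 16
  0 32040) (.nx 573 165142 (.lg 2 false 4 97 97 16 21179 448560) .out)) .out)) .out))) .out) .out)
  (.nx 604 1321124 (.nr 603 1048577 (.nr 579 16 .s1 (.nx 582 90 (.nx 581 89 (.nr 580 127 (.lg 0
  true 1 19 19 13 0 448560) (.l1 .sk)) (.l1 .sk)) (.nx 583 205 (.l1 (.ls 83 43 1887)) (.nr 602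
  623489 (.nx 584 324 (.l1 (.ls 79 43 3500)) (.nr 601 220437 (.nx 591 10323 (.nr 589 131073 (.lg 0
  false 5 83 83 19 0 448560) (.nx 590 814 (.lg 0 true 1 73 73 13 0 448560) .out)) (.nr 600 55110
  (.nr 596 498 (.lg 0 true 5 73 73 19 0 64080) (.nx 599 165142 (.lg 2 false 3 97 97 13 21179
  448560) .out)) .out)) .out)) .out)))) .out) .out)))) (.na 659 25 (.na 632 21 (.nx 631 1321124
  (.nr 630 1048577 (.nr 606 17 .s1 (.nx 609 90 (.nx 608 89 (.nr 607 141 (.lg 0 false 1 19 19 11 0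
  32040) (.l1 .sk)) (.l1 .sk)) (.nx 612 324 (.nx 610 205 (.l1 (.ls 79 31 1788)) (.nr 611 623489
  (.l1 (.ls 79 37 3316)) .out)) (.nr 629 220437 (.nx 616 10323 (.lg 0 false 4 97 97 16 0 64080)
  (.nr 628 55110 (.nr 623 498 (.lg 0 true 7 73 73 16 0 44856) (.nx 627 165142 (.lg 2 false 4 83 97
  16 21179 64080) .out)) .out)) .out)))) .out) .out) (.na 658 23 (.nx 657 1321124 (.nr 656 1048577
  (.nr 633 19 .s1 (.nx 639 324 (.nx 637 205 (.nx 635 89 (.nr 634 154 (.l1 (.ls 29 29 380)) (.l1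
  .sk)) (.nx 636 90 (.l1 .sk) (.l1 (.ls 83 37 1618)))) (.nr 638 623489 (.l1 (.ls 79 41 3000))
  .out)) (.nr 655 220437 (.nx 645 10323 (.nr 643 131073 (.lg 0 false 4 83 97 17 0 448560) (.nx 644
  814 (.lg 0 false 1 71 71 16 0 44856) .out)) (.nr 654 55110 (.nx 649 165142 (.nr 646 1360 (.lg 0
  false 1 79 79 16 0 44856) (.nx 647 26009 (.lg 1 true 1 97 97 16 21179 224280) (.nr 648 32769 (.lg
  2 true 1 83 83 16 5404 224280) .out))) (.nr 653 183 (.lg 0 true 4 71 73 17 0 89712) .out)) .out))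
  .out))) .out) .out) .ne)) (.na 678 27 (.nx 677 1321124 (.nr 676 1048577 (.nr 660 24 .s1 (.nx 663
  90 (.nx 662 89 (.nr 661 181 (.l1 (.ls 19 19 319)) (.l1 .sk)) (.l1 .sk)) (.nx 669 16385 (.nx 664
  205 (.l1 (.ls 73 29 1360)) (.nr 668 185365 (.lg 0 false 4 83 97 16 0 448560) .out)) (.nr 675
  38969 (.nr 673 513 (.lg 0 true 4 71 71 16 0 64080) (.nx 674 82572 (.lg 2 true 1 79 79 16 9442
  32040) .out)) .out)))) .out) .out) (.na 698 30 (.nx 697 1321124 (.nr 696 1048577 (.nr 679 26 .s1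
  (.nx 682 90 (.nx 681 89 (.nr 680 201 (.l1 (.ls 17 23 296)) (.l1 .sk)) (.l1 .sk)) (.nx 688 16385
  (.nx 683 205 (.l1 (.ls 73 31 1259)) (.nr 687 185365 (.lg 0 false 4 83 83 16 0 12816) .out)) (.nr
  695 38969 (.nr 692 513 (.lg 0 true 4 71 71 16 0 12816) (.nx 694 82572 (.lg 2 false 2 73 73 16
  9442 12816) .out)) .out)))) .out) .out) (.nx 717 1321124 (.nr 716 1048577 (.nr 699 29 .s1 (.nx
  706 10323 (.nx 703 205 (.nx 701 89 (.nr 700 214 (.l1 (.ls 23 31 267)) (.l1 .sk)) (.nx 702 90 (.l1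
  .sk) (.l1 (.ls 79 43 1133)))) (.nr 705 185365 (.lg 0 false 2 83 83 23 0 64080) .out)) (.nr 715
  55110 (.nr 711 513 (.nx 707 165142 (.lg 0 false 1 71 71 19 0 64080) (.nr 710 183 (.lg 0 true 3 67
  67 29 0 64080) .out)) (.nx 714 82572 (.nx 712 26009 (.lg 1 true 1 83 83 19 21179 64080) (.nr 713
  32769 (.lg 1 false 1 83 83 19 7163 64080) .out)) .out)) .out))) .out) .out))))))

theorem c127 :
    OkQ ckI L6 77 1 1099511627776 0 34359738368 1 1099511627776 ∧
    OkQ ckI L6 124 32 1099511627776 0 34359738368 1 1099511627776 ∧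
    OkQ ckI L6 89 1 32 0 34359738368 1 1099511627776 := by
  refine ⟨?_, ?_, ?_⟩
  · refine fin 5544 7775 T127_0 ?_
    refine jn 7 (by decide +kernel) ?_
    refine jn 10 (by decide +kernel) ?_
    refine jn 12 (by decide +kernel) ?_
    refine jn 15 (by decide +kernel) ?_
    refine jn 17 (by decide +kernel) ?_
    refine jn 24 (by decide +kernel) ?_
    refine jn 32 (by decide +kernel) ?_
    refine jn 41 (by decide +kernel) ?_
    refine jn 51 (by decide +kernel) ?_
    refine jn 55 (by decide +kernel) ?_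
    refine jn 70 (by decide +kernel) ?_
    refine jn 75 (by decide +kernel) ?_
    refine jn 88 (by decide +kernel) ?_
    refine jn 111 (by decide +kernel) ?_
    refine jn 134 (by decide +kernel) ?_
    refine jn 135 (by decide +kernel) ?_
    refine jn 136 (by decide +kernel) ?_
    refine jn 137 (by decide +kernel) ?_
    refine jn 138 (by decide +kernel) ?_
    refine jn 139 (by decide +kernel) ?_
    refine jn 142 (by decide +kernel) ?_
    refine jn 145 (by decide +kernel) ?_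
    refine jn 148 (by decide +kernel) ?_
    refine jn 151 (by decide +kernel) ?_
    refine jn 152 (by decide +kernel) ?_
    refine jn 154 (by decide +kernel) ?_
    refine jn 159 (by decide +kernel) ?_
    refine jn 164 (by decide +kernel) ?_
    refine jn 176 (by decide +kernel) ?_
    refine jn 179 (by decide +kernel) ?_
    refine jn 186 (by decide +kernel) ?_
    refine jn 202 (by decide +kernel) ?_
    refine jn 232 (by decide +kernel) ?_
    refine jn 250 (by decide +kernel) ?_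
    refine jn 253 (by decide +kernel) ?_
    refine jn 254 (by decide +kernel) ?_
    refine jn 256 (by decide +kernel) ?_
    refine jn 258 (by decide +kernel) ?_
    refine jn 260 (by decide +kernel) ?_
    refine jn 262 (by decide +kernel) ?_
    refine jn 264 (by decide +kernel) ?_
    refine jn 265 (by decide +kernel) ?_
    refine jn 267 (by decide +kernel) ?_
    refine jn 268 (by decide +kernel) ?_
    refine jn 269 (by decide +kernel) ?_
    refine jn 270 (by decide +kernel) ?_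
    refine jn 271 (by decide +kernel) ?_
    refine jn 272 (by decide +kernel) ?_
    refine jn 274 (by decide +kernel) ?_
    refine jn 276 (by decide +kernel) ?_
    refine jn 278 (by decide +kernel) ?_
    refine jn 280 (by decide +kernel) ?_
    refine jn 301 (by decide +kernel) ?_
    refine jn 310 (by decide +kernel) ?_
    refine jn 325 (by decide +kernel) ?_
    refine jn 331 (by decide +kernel) ?_
    refine jn 348 (by decide +kernel) ?_
    refine jn 363 (by decide +kernel) ?_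
    refine jn 369 (by decide +kernel) ?_
    refine jn 382 (by decide +kernel) ?_
    refine jn 397 (by decide +kernel) ?_
    refine jn 399 (by decide +kernel) ?_
    refine jn 404 (by decide +kernel) ?_
    refine jn 409 (by decide +kernel) ?_
    refine jn 420 (by decide +kernel) ?_
    refine jn 427 (by decide +kernel) ?_
    refine jn 431 (by decide +kernel) ?_
    refine jn 436 (by decide +kernel) ?_
    refine jn 449 (by decide +kernel) ?_
    refine jn 456 (by decide +kernel) ?_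
    refine jn 469 (by decide +kernel) ?_
    refine jn 482 (by decide +kernel) ?_
    refine jn 487 (by decide +kernel) ?_
    refine jn 499 (by decide +kernel) ?_
    refine jn 500 (by decide +kernel) ?_
    refine jn 505 (by decide +kernel) ?_
    refine jn 510 (by decide +kernel) ?_
    refine jn 524 (by decide +kernel) ?_
    refine jn 530 (by decide +kernel) ?_
    refine jn 543 (by decide +kernel) ?_
    refine jn 549 (by decide +kernel) ?_
    refine jn 557 (by decide +kernel) ?_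
    refine jn 558 (by decide +kernel) ?_
    refine jn 559 (by decide +kernel) ?_
    refine jn 560 (by decide +kernel) ?_
    refine jn 561 (by decide +kernel) ?_
    refine jn 562 (by decide +kernel) ?_
    refine jn 563 (by decide +kernel) ?_
    refine jn 568 (by decide +kernel) ?_
    refine jn 579 (by decide +kernel) ?_
    refine jn 583 (by decide +kernel) ?_
    refine jn 596 (by decide +kernel) ?_
    refine jn 602 (by decide +kernel) ?_
    refine jn 615 (by decide +kernel) ?_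
    refine jn 619 (by decide +kernel) ?_
    refine jn 634 (by decide +kernel) ?_
    refine jn 645 (by decide +kernel) ?_
    refine jn 649 (by decide +kernel) ?_
    refine jn 663 (by decide +kernel) ?_
    refine jn 675 (by decide +kernel) ?_
    refine jn 684 (by decide +kernel) ?_
    refine jn 690 (by decide +kernel) ?_
    refine jn 705 (by decide +kernel) ?_
    refine jn 720 (by decide +kernel) ?_
    refine jn 731 (by decide +kernel) ?_
    refine jn 733 (by decide +kernel) ?_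
    refine jn 746 (by decide +kernel) ?_
    refine jn 757 (by decide +kernel) ?_
    refine jn 768 (by decide +kernel) ?_
    refine jn 779 (by decide +kernel) ?_
    refine jn 791 (by decide +kernel) ?_
    refine jn 801 (by decide +kernel) ?_
    refine jn 804 (by decide +kernel) ?_
    refine jn 815 (by decide +kernel) ?_
    refine jn 826 (by decide +kernel) ?_
    refine jn 837 (by decide +kernel) ?_
    refine jn 846 (by decide +kernel) ?_
    refine jn 848 (by decide +kernel) ?_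
    refine jn 859 (by decide +kernel) ?_
    refine jn 870 (by decide +kernel) ?_
    refine jn 882 (by decide +kernel) ?_
    refine jn 892 (by decide +kernel) ?_
    refine jn 903 (by decide +kernel) ?_
    refine jn 918 (by decide +kernel) ?_
    refine jn 930 (by decide +kernel) ?_
    refine jn 939 (by decide +kernel) ?_
    refine jn 958 (by decide +kernel) ?_
    refine jn 967 (by decide +kernel) ?_
    refine jn 985 (by decide +kernel) ?_
    refine jn 993 (by decide +kernel) ?_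
    refine jn 1001 (by decide +kernel) ?_
    refine jn 1018 (by decide +kernel) ?_
    refine jn 1034 (by decide +kernel) ?_
    refine jn 1050 (by decide +kernel) ?_
    refine jn 1065 (by decide +kernel) ?_
    refine jn 1074 (by decide +kernel) ?_
    refine jn 1091 (by decide +kernel) ?_
    refine jn 1100 (by decide +kernel) ?_
    refine jn 1116 (by decide +kernel) ?_
    refine jn 1125 (by decide +kernel) ?_
    refine jn 1156 (by decide +kernel) ?_
    refine jn 1191 (by decide +kernel) ?_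
    refine jn 1239 (by decide +kernel) ?_
    refine jn 1303 (by decide +kernel) ?_
    refine jn 1344 (by decide +kernel) ?_
    refine jn 1395 (by decide +kernel) ?_
    refine jn 1411 (by decide +kernel) ?_
    refine jn 1419 (by decide +kernel) ?_
    refine jn 1430 (by decide +kernel) ?_
    refine jn 1443 (by decide +kernel) ?_
    refine jn 1446 (by decide +kernel) ?_
    refine jn 1455 (by decide +kernel) ?_
    refine jn 1475 (by decide +kernel) ?_
    refine jn 1484 (by decide +kernel) ?_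
    refine jn 1494 (by decide +kernel) ?_
    refine jn 1503 (by decide +kernel) ?_
    refine jn 1515 (by decide +kernel) ?_
    refine jn 1544 (by decide +kernel) ?_
    refine jn 1558 (by decide +kernel) ?_
    refine jn 1564 (by decide +kernel) ?_
    refine jn 1579 (by decide +kernel) ?_
    refine jn 1590 (by decide +kernel) ?_
    refine jn 1599 (by decide +kernel) ?_
    refine jn 1614 (by decide +kernel) ?_
    refine jn 1628 (by decide +kernel) ?_
    refine jn 1653 (by decide +kernel) ?_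
    refine jn 1719 (by decide +kernel) ?_
    refine jn 1774 (by decide +kernel) ?_
    refine jn 1834 (by decide +kernel) ?_
    refine jn 1872 (by decide +kernel) ?_
    refine jn 1887 (by decide +kernel) ?_
    refine jn 1903 (by decide +kernel) ?_
    refine jn 1912 (by decide +kernel) ?_
    refine jn 1928 (by decide +kernel) ?_
    refine jn 1940 (by decide +kernel) ?_
    refine jn 1951 (by decide +kernel) ?_
    refine jn 1960 (by decide +kernel) ?_
    refine jn 1972 (by decide +kernel) ?_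
    refine jn 1983 (by decide +kernel) ?_
    refine jn 1988 (by decide +kernel) ?_
    refine jn 2003 (by decide +kernel) ?_
    refine jn 2017 (by decide +kernel) ?_
    refine jn 2020 (by decide +kernel) ?_
    refine jn 2032 (by decide +kernel) ?_
    refine jn 2048 (by decide +kernel) ?_
    refine jn 2056 (by decide +kernel) ?_
    refine jn 2068 (by decide +kernel) ?_
    refine jn 2089 (by decide +kernel) ?_
    refine jn 2120 (by decide +kernel) ?_
    refine jn 2151 (by decide +kernel) ?_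
    refine jn 2185 (by decide +kernel) ?_
    refine jn 2216 (by decide +kernel) ?_
    refine jn 2261 (by decide +kernel) ?_
    refine jn 2304 (by decide +kernel) ?_
    refine jn 2341 (by decide +kernel) ?_
    refine jn 2377 (by decide +kernel) ?_
    refine jn 2516 (by decide +kernel) ?_
    refine jn 2560 (by decide +kernel) ?_
    refine jn 2605 (by decide +kernel) ?_
    refine jn 2671 (by decide +kernel) ?_
    refine jn 2703 (by decide +kernel) ?_
    refine jn 2749 (by decide +kernel) ?_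
    refine jn 2788 (by decide +kernel) ?_
    refine jn 2840 (by decide +kernel) ?_
    refine jn 2884 (by decide +kernel) ?_
    refine jn 3009 (by decide +kernel) ?_
    refine jn 3106 (by decide +kernel) ?_
    refine jn 3202 (by decide +kernel) ?_
    refine jn 3292 (by decide +kernel) ?_
    refine jn 3377 (by decide +kernel) ?_
    refine jn 3472 (by decide +kernel) ?_
    refine jn 3545 (by decide +kernel) ?_
    refine jn 3698 (by decide +kernel) ?_
    refine jn 3775 (by decide +kernel) ?_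
    refine jn 3858 (by decide +kernel) ?_
    refine jn 3955 (by decide +kernel) ?_
    refine jn 4065 (by decide +kernel) ?_
    refine jn 4150 (by decide +kernel) ?_
    refine jn 4238 (by decide +kernel) ?_
    refine jn 4335 (by decide +kernel) ?_
    refine jn 4442 (by decide +kernel) ?_
    refine jn 4668 (by decide +kernel) ?_
    refine jn 4916 (by decide +kernel) ?_
    refine jn 5070 (by decide +kernel) ?_
    refine jn 5174 (by decide +kernel) ?_
    refine jn 5450 (by decide +kernel) ?_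
    refine jn 5610 (by decide +kernel) ?_
    refine jn 5688 (by decide +kernel) ?_
    refine jn 5776 (by decide +kernel) ?_
    refine jn 6049 (by decide +kernel) ?_
    refine jn 6218 (by decide +kernel) ?_
    refine jn 6338 (by decide +kernel) ?_
    refine jn 6473 (by decide +kernel) ?_
    refine jn 6867 (by decide +kernel) ?_
    refine jn 7035 (by decide +kernel) ?_
    refine jn 7439 (by decide +kernel) ?_
    exact je (by decide +kernel)
  · refine fin 744 7159 T127_1 ?_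
    refine jn 4 (by decide +kernel) ?_
    refine jn 5 (by decide +kernel) ?_
    refine jn 6 (by decide +kernel) ?_
    refine jn 7 (by decide +kernel) ?_
    refine jn 8 (by decide +kernel) ?_
    refine jn 9 (by decide +kernel) ?_
    refine jn 10 (by decide +kernel) ?_
    refine jn 11 (by decide +kernel) ?_
    refine jn 12 (by decide +kernel) ?_
    refine jn 13 (by decide +kernel) ?_
    refine jn 14 (by decide +kernel) ?_
    refine jn 15 (by decide +kernel) ?_
    refine jn 16 (by decide +kernel) ?_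
    refine jn 17 (by decide +kernel) ?_
    refine jn 18 (by decide +kernel) ?_
    refine jn 19 (by decide +kernel) ?_
    refine jn 20 (by decide +kernel) ?_
    refine jn 21 (by decide +kernel) ?_
    refine jn 34 (by decide +kernel) ?_
    refine jn 35 (by decide +kernel) ?_
    refine jn 36 (by decide +kernel) ?_
    refine jn 37 (by decide +kernel) ?_
    refine jn 38 (by decide +kernel) ?_
    refine jn 40 (by decide +kernel) ?_
    refine jn 41 (by decide +kernel) ?_
    refine jn 42 (by decide +kernel) ?_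
    refine jn 54 (by decide +kernel) ?_
    refine jn 59 (by decide +kernel) ?_
    refine jn 68 (by decide +kernel) ?_
    refine jn 69 (by decide +kernel) ?_
    refine jn 70 (by decide +kernel) ?_
    refine jn 72 (by decide +kernel) ?_
    refine jn 73 (by decide +kernel) ?_
    refine jn 79 (by decide +kernel) ?_
    refine jn 85 (by decide +kernel) ?_
    refine jn 89 (by decide +kernel) ?_
    refine jn 104 (by decide +kernel) ?_
    refine jn 116 (by decide +kernel) ?_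
    refine jn 120 (by decide +kernel) ?_
    refine jn 133 (by decide +kernel) ?_
    refine jn 142 (by decide +kernel) ?_
    refine jn 144 (by decide +kernel) ?_
    refine jn 145 (by decide +kernel) ?_
    refine jn 147 (by decide +kernel) ?_
    refine jn 149 (by decide +kernel) ?_
    refine jn 162 (by decide +kernel) ?_
    refine jn 178 (by decide +kernel) ?_
    refine jn 186 (by decide +kernel) ?_
    refine jn 187 (by decide +kernel) ?_
    refine jn 188 (by decide +kernel) ?_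
    refine jn 189 (by decide +kernel) ?_
    refine jn 197 (by decide +kernel) ?_
    refine jn 206 (by decide +kernel) ?_
    refine jn 215 (by decide +kernel) ?_
    refine jn 218 (by decide +kernel) ?_
    refine jn 220 (by decide +kernel) ?_
    refine jn 232 (by decide +kernel) ?_
    refine jn 244 (by decide +kernel) ?_
    refine jn 247 (by decide +kernel) ?_
    refine jn 249 (by decide +kernel) ?_
    refine jn 258 (by decide +kernel) ?_
    refine jn 259 (by decide +kernel) ?_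
    refine jn 260 (by decide +kernel) ?_
    refine jn 262 (by decide +kernel) ?_
    refine jn 275 (by decide +kernel) ?_
    refine jn 290 (by decide +kernel) ?_
    refine jn 299 (by decide +kernel) ?_
    refine jn 302 (by decide +kernel) ?_
    refine jn 314 (by decide +kernel) ?_
    refine jn 326 (by decide +kernel) ?_
    refine jn 336 (by decide +kernel) ?_
    refine jn 339 (by decide +kernel) ?_
    refine jn 351 (by decide +kernel) ?_
    refine jn 366 (by decide +kernel) ?_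
    refine jn 379 (by decide +kernel) ?_
    refine jn 389 (by decide +kernel) ?_
    refine jn 392 (by decide +kernel) ?_
    refine jn 393 (by decide +kernel) ?_
    refine jn 394 (by decide +kernel) ?_
    refine jn 400 (by decide +kernel) ?_
    refine jn 412 (by decide +kernel) ?_
    refine jn 423 (by decide +kernel) ?_
    refine jn 437 (by decide +kernel) ?_
    refine jn 445 (by decide +kernel) ?_
    refine jn 446 (by decide +kernel) ?_
    refine jn 447 (by decide +kernel) ?_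
    refine jn 458 (by decide +kernel) ?_
    refine jn 467 (by decide +kernel) ?_
    refine jn 476 (by decide +kernel) ?_
    refine jn 485 (by decide +kernel) ?_
    refine jn 488 (by decide +kernel) ?_
    refine jn 504 (by decide +kernel) ?_
    refine jn 513 (by decide +kernel) ?_
    refine jn 529 (by decide +kernel) ?_
    refine jn 535 (by decide +kernel) ?_
    refine jn 536 (by decide +kernel) ?_
    refine jn 537 (by decide +kernel) ?_
    refine jn 540 (by decide +kernel) ?_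
    refine jn 554 (by decide +kernel) ?_
    refine jn 564 (by decide +kernel) ?_
    refine jn 572 (by decide +kernel) ?_
    refine jn 582 (by decide +kernel) ?_
    refine jn 591 (by decide +kernel) ?_
    refine jn 606 (by decide +kernel) ?_
    refine jn 621 (by decide +kernel) ?_
    refine jn 632 (by decide +kernel) ?_
    refine jn 647 (by decide +kernel) ?_
    refine jn 656 (by decide +kernel) ?_
    refine jn 672 (by decide +kernel) ?_
    refine jn 688 (by decide +kernel) ?_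
    refine jn 696 (by decide +kernel) ?_
    refine jn 698 (by decide +kernel) ?_
    refine jn 713 (by decide +kernel) ?_
    refine jn 730 (by decide +kernel) ?_
    refine jn 744 (by decide +kernel) ?_
    refine jn 755 (by decide +kernel) ?_
    refine jn 770 (by decide +kernel) ?_
    refine jn 771 (by decide +kernel) ?_
    refine jn 772 (by decide +kernel) ?_
    refine jn 774 (by decide +kernel) ?_
    refine jn 789 (by decide +kernel) ?_
    refine jn 810 (by decide +kernel) ?_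
    refine jn 840 (by decide +kernel) ?_
    refine jn 852 (by decide +kernel) ?_
    refine jn 899 (by decide +kernel) ?_
    refine jn 923 (by decide +kernel) ?_
    refine jn 957 (by decide +kernel) ?_
    refine jn 989 (by decide +kernel) ?_
    refine jn 1023 (by decide +kernel) ?_
    refine jn 1044 (by decide +kernel) ?_
    refine jn 1046 (by decide +kernel) ?_
    refine jn 1058 (by decide +kernel) ?_
    refine jn 1059 (by decide +kernel) ?_
    refine jn 1062 (by decide +kernel) ?_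
    refine jn 1065 (by decide +kernel) ?_
    refine jn 1073 (by decide +kernel) ?_
    refine jn 1082 (by decide +kernel) ?_
    refine jn 1083 (by decide +kernel) ?_
    refine jn 1092 (by decide +kernel) ?_
    refine jn 1098 (by decide +kernel) ?_
    refine jn 1099 (by decide +kernel) ?_
    refine jn 1107 (by decide +kernel) ?_
    refine jn 1121 (by decide +kernel) ?_
    refine jn 1128 (by decide +kernel) ?_
    refine jn 1137 (by decide +kernel) ?_
    refine jn 1154 (by decide +kernel) ?_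
    refine jn 1158 (by decide +kernel) ?_
    refine jn 1160 (by decide +kernel) ?_
    refine jn 1170 (by decide +kernel) ?_
    refine jn 1178 (by decide +kernel) ?_
    refine jn 1182 (by decide +kernel) ?_
    refine jn 1190 (by decide +kernel) ?_
    refine jn 1197 (by decide +kernel) ?_
    refine jn 1206 (by decide +kernel) ?_
    refine jn 1214 (by decide +kernel) ?_
    refine jn 1226 (by decide +kernel) ?_
    refine jn 1227 (by decide +kernel) ?_
    refine jn 1245 (by decide +kernel) ?_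
    refine jn 1248 (by decide +kernel) ?_
    refine jn 1253 (by decide +kernel) ?_
    refine jn 1263 (by decide +kernel) ?_
    refine jn 1274 (by decide +kernel) ?_
    refine jn 1278 (by decide +kernel) ?_
    refine jn 1283 (by decide +kernel) ?_
    refine jn 1314 (by decide +kernel) ?_
    refine jn 1345 (by decide +kernel) ?_
    refine jn 1390 (by decide +kernel) ?_
    refine jn 1422 (by decide +kernel) ?_
    refine jn 1441 (by decide +kernel) ?_
    refine jn 1492 (by decide +kernel) ?_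
    refine jn 1507 (by decide +kernel) ?_
    refine jn 1508 (by decide +kernel) ?_
    refine jn 1519 (by decide +kernel) ?_
    refine jn 1527 (by decide +kernel) ?_
    refine jn 1530 (by decide +kernel) ?_
    refine jn 1540 (by decide +kernel) ?_
    refine jn 1555 (by decide +kernel) ?_
    refine jn 1556 (by decide +kernel) ?_
    refine jn 1561 (by decide +kernel) ?_
    refine jn 1572 (by decide +kernel) ?_
    refine jn 1585 (by decide +kernel) ?_
    refine jn 1594 (by decide +kernel) ?_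
    refine jn 1603 (by decide +kernel) ?_
    refine jn 1604 (by decide +kernel) ?_
    refine jn 1617 (by decide +kernel) ?_
    refine jn 1629 (by decide +kernel) ?_
    refine jn 1635 (by decide +kernel) ?_
    refine jn 1636 (by decide +kernel) ?_
    refine jn 1651 (by decide +kernel) ?_
    refine jn 1654 (by decide +kernel) ?_
    refine jn 1660 (by decide +kernel) ?_
    refine jn 1665 (by decide +kernel) ?_
    refine jn 1681 (by decide +kernel) ?_
    refine jn 1693 (by decide +kernel) ?_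
    refine jn 1696 (by decide +kernel) ?_
    refine jn 1713 (by decide +kernel) ?_
    refine jn 1732 (by decide +kernel) ?_
    refine jn 1759 (by decide +kernel) ?_
    refine jn 1775 (by decide +kernel) ?_
    refine jn 1799 (by decide +kernel) ?_
    refine jn 1820 (by decide +kernel) ?_
    refine jn 1861 (by decide +kernel) ?_
    refine jn 1892 (by decide +kernel) ?_
    refine jn 1895 (by decide +kernel) ?_
    refine jn 1896 (by decide +kernel) ?_
    refine jn 1937 (by decide +kernel) ?_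
    refine jn 1964 (by decide +kernel) ?_
    refine jn 1996 (by decide +kernel) ?_
    refine jn 2030 (by decide +kernel) ?_
    refine jn 2063 (by decide +kernel) ?_
    refine jn 2092 (by decide +kernel) ?_
    refine jn 2122 (by decide +kernel) ?_
    refine jn 2132 (by decide +kernel) ?_
    refine jn 2156 (by decide +kernel) ?_
    refine jn 2194 (by decide +kernel) ?_
    refine jn 2227 (by decide +kernel) ?_
    refine jn 2270 (by decide +kernel) ?_
    refine jn 2285 (by decide +kernel) ?_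
    refine jn 2318 (by decide +kernel) ?_
    refine jn 2351 (by decide +kernel) ?_
    refine jn 2402 (by decide +kernel) ?_
    refine jn 2437 (by decide +kernel) ?_
    refine jn 2486 (by decide +kernel) ?_
    refine jn 2533 (by decide +kernel) ?_
    refine jn 2588 (by decide +kernel) ?_
    refine jn 2636 (by decide +kernel) ?_
    refine jn 2693 (by decide +kernel) ?_
    refine jn 2752 (by decide +kernel) ?_
    refine jn 2804 (by decide +kernel) ?_
    refine jn 2873 (by decide +kernel) ?_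
    refine jn 2932 (by decide +kernel) ?_
    refine jn 2993 (by decide +kernel) ?_
    refine jn 3059 (by decide +kernel) ?_
    refine jn 3113 (by decide +kernel) ?_
    refine jn 3173 (by decide +kernel) ?_
    refine jn 3248 (by decide +kernel) ?_
    refine jn 3281 (by decide +kernel) ?_
    refine jn 3364 (by decide +kernel) ?_
    refine jn 3436 (by decide +kernel) ?_
    refine jn 3493 (by decide +kernel) ?_
    refine jn 3559 (by decide +kernel) ?_
    refine jn 3628 (by decide +kernel) ?_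
    refine jn 3688 (by decide +kernel) ?_
    refine jn 3772 (by decide +kernel) ?_
    refine jn 3838 (by decide +kernel) ?_
    refine jn 3908 (by decide +kernel) ?_
    refine jn 4255 (by decide +kernel) ?_
    refine jn 4407 (by decide +kernel) ?_
    refine jn 4486 (by decide +kernel) ?_
    refine jn 4558 (by decide +kernel) ?_
    refine jn 4825 (by decide +kernel) ?_
    refine jn 4954 (by decide +kernel) ?_
    refine jn 5032 (by decide +kernel) ?_
    refine jn 5094 (by decide +kernel) ?_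
    refine jn 5161 (by decide +kernel) ?_
    refine jn 5331 (by decide +kernel) ?_
    refine jn 5533 (by decide +kernel) ?_
    refine jn 5706 (by decide +kernel) ?_
    refine jn 5803 (by decide +kernel) ?_
    refine jn 6080 (by decide +kernel) ?_
    refine jn 6340 (by decide +kernel) ?_
    refine jn 6484 (by decide +kernel) ?_
    refine jn 6833 (by decide +kernel) ?_
    exact je (by decide +kernel)
  · refine fin 6408 718 T127_2 ?_
    refine jn 7 (by decide +kernel) ?_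
    refine jn 9 (by decide +kernel) ?_
    refine jn 11 (by decide +kernel) ?_
    refine jn 13 (by decide +kernel) ?_
    refine jn 16 (by decide +kernel) ?_
    refine jn 22 (by decide +kernel) ?_
    refine jn 30 (by decide +kernel) ?_
    refine jn 38 (by decide +kernel) ?_
    refine jn 43 (by decide +kernel) ?_
    refine jn 56 (by decide +kernel) ?_
    refine jn 63 (by decide +kernel) ?_
    refine jn 76 (by decide +kernel) ?_
    refine jn 97 (by decide +kernel) ?_
    refine jn 116 (by decide +kernel) ?_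
    refine jn 122 (by decide +kernel) ?_
    refine jn 123 (by decide +kernel) ?_
    refine jn 124 (by decide +kernel) ?_
    refine jn 125 (by decide +kernel) ?_
    refine jn 126 (by decide +kernel) ?_
    refine jn 127 (by decide +kernel) ?_
    refine jn 128 (by decide +kernel) ?_
    refine jn 129 (by decide +kernel) ?_
    refine jn 130 (by decide +kernel) ?_
    refine jn 131 (by decide +kernel) ?_
    refine jn 132 (by decide +kernel) ?_
    refine jn 133 (by decide +kernel) ?_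
    refine jn 144 (by decide +kernel) ?_
    refine jn 151 (by decide +kernel) ?_
    refine jn 152 (by decide +kernel) ?_
    refine jn 153 (by decide +kernel) ?_
    refine jn 154 (by decide +kernel) ?_
    refine jn 155 (by decide +kernel) ?_
    refine jn 156 (by decide +kernel) ?_
    refine jn 157 (by decide +kernel) ?_
    refine jn 158 (by decide +kernel) ?_
    refine jn 159 (by decide +kernel) ?_
    refine jn 160 (by decide +kernel) ?_
    refine jn 161 (by decide +kernel) ?_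
    refine jn 164 (by decide +kernel) ?_
    refine jn 170 (by decide +kernel) ?_
    refine jn 173 (by decide +kernel) ?_
    refine jn 178 (by decide +kernel) ?_
    refine jn 180 (by decide +kernel) ?_
    refine jn 191 (by decide +kernel) ?_
    refine jn 202 (by decide +kernel) ?_
    refine jn 206 (by decide +kernel) ?_
    refine jn 235 (by decide +kernel) ?_
    refine jn 242 (by decide +kernel) ?_
    refine jn 243 (by decide +kernel) ?_
    refine jn 244 (by decide +kernel) ?_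
    refine jn 246 (by decide +kernel) ?_
    refine jn 247 (by decide +kernel) ?_
    refine jn 248 (by decide +kernel) ?_
    refine jn 249 (by decide +kernel) ?_
    refine jn 251 (by decide +kernel) ?_
    refine jn 252 (by decide +kernel) ?_
    refine jn 253 (by decide +kernel) ?_
    refine jn 255 (by decide +kernel) ?_
    refine jn 257 (by decide +kernel) ?_
    refine jn 259 (by decide +kernel) ?_
    refine jn 261 (by decide +kernel) ?_
    refine jn 263 (by decide +kernel) ?_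
    refine jn 264 (by decide +kernel) ?_
    refine jn 272 (by decide +kernel) ?_
    refine jn 278 (by decide +kernel) ?_
    refine jn 284 (by decide +kernel) ?_
    refine jn 298 (by decide +kernel) ?_
    refine jn 327 (by decide +kernel) ?_
    refine jn 333 (by decide +kernel) ?_
    refine jn 334 (by decide +kernel) ?_
    refine jn 335 (by decide +kernel) ?_
    refine jn 336 (by decide +kernel) ?_
    refine jn 338 (by decide +kernel) ?_
    refine jn 340 (by decide +kernel) ?_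
    refine jn 341 (by decide +kernel) ?_
    refine jn 342 (by decide +kernel) ?_
    refine jn 343 (by decide +kernel) ?_
    refine jn 344 (by decide +kernel) ?_
    refine jn 347 (by decide +kernel) ?_
    refine jn 350 (by decide +kernel) ?_
    refine jn 353 (by decide +kernel) ?_
    refine jn 355 (by decide +kernel) ?_
    refine jn 356 (by decide +kernel) ?_
    refine jn 364 (by decide +kernel) ?_
    refine jn 373 (by decide +kernel) ?_
    refine jn 379 (by decide +kernel) ?_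
    refine jn 380 (by decide +kernel) ?_
    refine jn 381 (by decide +kernel) ?_
    refine jn 382 (by decide +kernel) ?_
    refine jn 383 (by decide +kernel) ?_
    refine jn 391 (by decide +kernel) ?_
    refine jn 394 (by decide +kernel) ?_
    refine jn 397 (by decide +kernel) ?_
    refine jn 399 (by decide +kernel) ?_
    refine jn 403 (by decide +kernel) ?_
    refine jn 406 (by decide +kernel) ?_
    refine jn 410 (by decide +kernel) ?_
    refine jn 439 (by decide +kernel) ?_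
    refine jn 449 (by decide +kernel) ?_
    refine jn 451 (by decide +kernel) ?_
    refine jn 454 (by decide +kernel) ?_
    refine jn 457 (by decide +kernel) ?_
    refine jn 458 (by decide +kernel) ?_
    refine jn 461 (by decide +kernel) ?_
    refine jn 464 (by decide +kernel) ?_
    refine jn 467 (by decide +kernel) ?_
    refine jn 475 (by decide +kernel) ?_
    refine jn 491 (by decide +kernel) ?_
    refine jn 493 (by decide +kernel) ?_
    refine jn 495 (by decide +kernel) ?_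
    refine jn 501 (by decide +kernel) ?_
    refine jn 506 (by decide +kernel) ?_
    refine jn 510 (by decide +kernel) ?_
    refine jn 521 (by decide +kernel) ?_
    refine jn 523 (by decide +kernel) ?_
    refine jn 524 (by decide +kernel) ?_
    refine jn 525 (by decide +kernel) ?_
    refine jn 526 (by decide +kernel) ?_
    refine jn 527 (by decide +kernel) ?_
    refine jn 531 (by decide +kernel) ?_
    refine jn 532 (by decide +kernel) ?_
    refine jn 533 (by decide +kernel) ?_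
    refine jn 534 (by decide +kernel) ?_
    refine jn 535 (by decide +kernel) ?_
    refine jn 536 (by decide +kernel) ?_
    refine jn 537 (by decide +kernel) ?_
    refine jn 538 (by decide +kernel) ?_
    refine jn 540 (by decide +kernel) ?_
    refine jn 546 (by decide +kernel) ?_
    refine jn 555 (by decide +kernel) ?_
    refine jn 557 (by decide +kernel) ?_
    refine jn 560 (by decide +kernel) ?_
    refine jn 566 (by decide +kernel) ?_
    refine jn 569 (by decide +kernel) ?_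
    refine jn 580 (by decide +kernel) ?_
    refine jn 584 (by decide +kernel) ?_
    refine jn 588 (by decide +kernel) ?_
    refine jn 593 (by decide +kernel) ?_
    refine jn 596 (by decide +kernel) ?_
    refine jn 607 (by decide +kernel) ?_
    refine jn 612 (by decide +kernel) ?_
    refine jn 616 (by decide +kernel) ?_
    refine jn 621 (by decide +kernel) ?_
    refine jn 627 (by decide +kernel) ?_
    refine jn 636 (by decide +kernel) ?_
    refine jn 637 (by decide +kernel) ?_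
    refine jn 639 (by decide +kernel) ?_
    refine jn 640 (by decide +kernel) ?_
    refine jn 641 (by decide +kernel) ?_
    refine jn 642 (by decide +kernel) ?_
    refine jn 643 (by decide +kernel) ?_
    refine jn 645 (by decide +kernel) ?_
    refine jn 646 (by decide +kernel) ?_
    refine jn 647 (by decide +kernel) ?_
    refine jn 649 (by decide +kernel) ?_
    refine jn 651 (by decide +kernel) ?_
    refine jn 653 (by decide +kernel) ?_
    refine jn 664 (by decide +kernel) ?_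
    refine jn 668 (by decide +kernel) ?_
    refine jn 673 (by decide +kernel) ?_
    refine jn 683 (by decide +kernel) ?_
    refine jn 687 (by decide +kernel) ?_
    refine jn 692 (by decide +kernel) ?_
    refine jn 702 (by decide +kernel) ?_
    refine jn 703 (by decide +kernel) ?_
    refine jn 704 (by decide +kernel) ?_
    refine jn 705 (by decide +kernel) ?_
    refine jn 706 (by decide +kernel) ?_
    refine jn 707 (by decide +kernel) ?_
    refine jn 709 (by decide +kernel) ?_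
    refine jn 712 (by decide +kernel) ?_
    exact je (by decide +kernel)

end Pool.Agent.MP_2339ce_nt.NR
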