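import Pool.Agent.MP_2339ce_nt.Q2.NC.L6
import Pool.Agent.MP_2339ce_nt.Q2.NC.L8
import Pool.Agent.MP_2339ce_nt.Q2.CkI

/-! Block NR: runs. -/

set_option autoImplicit false
set_option maxRecDepth 100000

noncomputable section

namespace Pool.Agent.MP_2339ce_nt.NR

open Q2.Top

def T130_0 : Ph :=
  (.na 760 146 (.na 564 54 (.na 437 23 (.na 336 7 (.na 204 3 (.na 1 2 .ne (.nx 203 3329023 (.nr 202
  623489 (.nx 183 1664512 (.nx 3 155 (.nr 2 24 (.lg 0 false 1 43 43 5 0 22320) (.l1 .sk)) (.nx 4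
  156 (.l1 .sk) (.nr 168 131073 (.nx 146 832257 (.nx 25 17676 (.lg 0 false 21 107 109 11 0
  22342320) (.nr 58 2437 (.nr 46 450 (.lg 0 true 21 89 89 11 0 156240) (.nx 57 416129 (.lg 2 true
  11 97 97 9 71667 245520) .out)) (.nx 145 330282 (.nx 79 26009 (.lg 1 false 21 103 107 11 89185
  22342320) (.nr 144 110219 (.nx 100 44591 (.lg 1 false 21 103 107 11 50979 22342320) (.nr 143
  92683 (.nr 121 55110 (.lg 2 false 21 103 107 11 14889 22342320) (.nx 142 131073 (.lg 2 false 21
  103 107 11 25011 22342320) .out)) .out)) .out)) .out))) (.nr 167 129 (.lg 0 true 21 83 83 11 0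
  156240) .out)) (.nx 182 257 (.lg 0 false 14 83 83 9 0 156240) .out)))) (.nr 201 9 (.lg 0 true 18
  71 71 9 0 22320) .out)) .out) .out)) (.na 205 6 .ne (.nx 335 13316087 (.nr 334 623489 (.nx 209
  205 (.nx 207 155 (.nr 206 61 (.lg 0 true 1 37 37 7 0 22320) (.l1 .sk)) (.nx 208 156 (.l1 .sk)
  (.l1 (.ls 89 43 2951)))) (.nr 333 370729 (.nx 304 1664512 (.nx 231 20642 (.nr 220 110219 (.lg 0
  false 11 97 101 17 0 245520) (.nx 230 3252 (.nx 227 1627 (.lg 0 false 7 89 97 13 0 156240) (.nr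
  229 131073 (.lg 0 false 2 83 83 7 0 22320) .out)) .out)) (.nr 303 155873 (.nr 250 1026 (.nx 242
  832257 (.lg 0 true 11 89 97 17 0 245520) (.nr 249 129 (.lg 0 true 7 79 79 13 0 156240) .out))
  (.nx 302 660563 (.nr 257 8201 (.lg 2 true 7 89 97 13 49897 156240) (.nx 276 52015 (.nr 275 131073
  (.nx 268 38224 (.lg 1 false 11 101 107 17 76370 22342320) (.lg 1 false 7 97 101 13 41242 156240))
  .out) (.nx 283 73561 (.lg 1 false 7 101 103 13 36034 2031120) (.nx 294 131073 (.lg 1 true 11 101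
  107 17 25480 22342320) (.nr 301 65537 (.lg 2 false 7 89 97 13 6243 156240) .out))))) .out))
  .out)) (.nr 332 28 (.lg 0 true 28 83 83 13 0 156240) .out)) .out)) .out) .out))) (.na 388 12 (.na
  337 10 .ne (.nx 387 1664512 (.nr 386 623489 (.nx 340 156 (.nx 339 155 (.nr 338 106 (.lg 0 false 1
  37 37 9 0 22320) (.l1 .sk)) (.l1 .sk)) (.nr 374 131073 (.nx 351 35390 (.lg 0 false 11 97 101 13 0
  245520) (.nr 362 829 (.lg 0 true 11 83 83 13 0 245520) (.nx 373 416129 (.lg 2 false 11 103 107 13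
  44544 22342320) .out))) (.nx 385 1292 (.lg 0 false 11 83 83 13 0 245520) .out))) .out) .out))
  (.na 389 18 .ne (.nx 436 1664512 (.nr 435 1048577 (.nr 390 14 .s1 (.nx 393 156 (.nx 392 155 (.nr
  391 203 (.lg 0 false 1 37 37 13 0 22320) (.l1 .sk)) (.l1 .sk)) (.nx 407 13005 (.nx 394 257 (.l1
  (.ls 89 43 2320)) (.nr 406 623489 (.nr 401 220437 (.lg 0 false 7 89 97 19 0 156240) (.nx 405 1627
  (.lg 0 false 4 83 83 19 0 22320) .out)) .out)) (.nr 434 92683 (.nr 414 634 (.lg 0 true 7 83 83 19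
  0 156240) (.nx 433 262145 (.nr 421 46342 (.lg 2 true 7 79 79 19 42951 156240) (.nx 432 165142
  (.nx 428 82572 (.lg 0 true 7 89 101 19 0 156240) (.nr 431 55110 (.lg 0 true 3 89 89 13 0 22320)
  .out)) .out)) .out)) .out)))) .out) .out)))) (.na 501 34 (.na 469 30 (.na 438 26 .ne (.nx 468
  1664512 (.nr 467 1048577 (.nr 439 23 .s1 (.nx 443 257 (.nx 441 155 (.nr 440 265 (.lg 0 true 1 23
  23 11 0 290160) (.l1 .sk)) (.nx 442 156 (.l1 .sk) (.l1 (.ls 83 41 1607)))) (.nr 466 311745 (.nx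
  450 20644 (.lg 0 false 7 97 101 19 0 2031120) (.nr 465 77937 (.nr 457 513 (.lg 0 true 7 79 79 19
  0 2031120) (.nx 464 165142 (.lg 2 false 7 89 101 19 45442 2031120) .out)) .out)) .out))) .out)
  .out)) (.na 500 32 (.nx 499 1664512 (.nr 498 1048577 (.nr 470 28 .s1 (.nx 473 156 (.nx 472 155
  (.nr 471 282 (.lg 0 false 1 23 23 19 0 290160) (.l1 .sk)) (.l1 .sk)) (.nx 474 257 (.l1 (.ls 79 43
  1393)) (.nr 497 311745 (.nx 481 20644 (.lg 0 false 7 89 97 29 0 156240) (.nr 496 77937 (.nr 488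
  513 (.lg 0 true 7 73 73 29 0 156240) (.nx 495 165142 (.lg 2 false 7 83 89 29 45442 156240) .out))
  .out)) .out)))) .out) .out) .ne)) (.na 544 46 (.na 524 38 (.nx 523 1664512 (.nr 522 881745 (.nr
  502 32 .s1 (.nx 505 156 (.nx 504 155 (.nr 503 335 (.l1 (.ls 29 37 709)) (.l1 .sk)) (.l1 .sk))
  (.nx 506 257 (.l1 (.ls 83 41 1229)) (.nr 521 440873 (.nx 513 20644 (.lg 0 false 7 97 101 23 0
  156240) (.nr 520 46342 (.nr 517 335 (.lg 0 true 4 73 73 13 0 22320) (.nx 519 104033 (.lg 2 true 2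
  89 89 13 27057 22320) .out)) .out)) .out)))) .out) .out) (.nx 543 1664512 (.nr 542 881745 (.nr
  525 36 .s1 (.nx 534 20644 (.nx 526 257 (.l1 (.ls 83 41 1741)) (.nr 533 440873 (.lg 0 false 7 97
  101 17 0 156240) .out)) (.nr 541 46342 (.nr 538 257 (.lg 0 true 4 71 71 17 0 22320) (.nx 540
  104033 (.lg 2 true 2 89 89 13 31372 22320) .out)) .out))) .out) .out)) (.na 563 50 (.nx 562
  1664512 (.nr 561 881745 (.nr 545 45 .s1 (.nx 546 257 (.l1 (.ls 83 41 1438)) (.nr 560 623489 (.nx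
  553 20644 (.lg 0 false 7 97 101 19 0 156240) (.nr 559 46342 (.nr 556 257 (.lg 0 true 3 71 71 13 0
  22320) (.nx 558 104033 (.lg 2 true 2 89 89 13 31372 22320) .out)) .out)) .out))) .out) .out) (.lg
  0 false 1 0 0 16 0 24))))) (.na 672 91 (.na 617 78 (.na 601 64 (.na 583 62 (.nx 582 1664512 (.nr
  581 881745 (.nr 565 53 .s1 (.nx 566 257 (.l1 (.ls 73 41 1226)) (.nr 580 623489 (.nx 573 20644
  (.lg 0 false 7 83 89 29 0 156240) (.nr 579 46342 (.nr 576 257 (.lg 0 true 3 67 67 23 0 22320)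
  (.nx 578 104033 (.lg 2 false 2 79 79 19 31372 22320) .out)) .out)) .out))) .out) .out) (.nx 600
  1664512 (.nr 599 881745 (.nr 584 61 .s1 (.nx 593 20644 (.nx 585 257 (.l1 (.ls 71 37 1068)) (.nr
  592 623489 (.lg 0 false 7 83 83 19 0 156240) .out)) (.nr 598 46342 (.nr 595 257 (.lg 0 false 2 67
  67 13 0 22320) (.nx 597 104033 (.lg 2 true 2 73 73 13 31372 22320) .out)) .out))) .out) .out))
  (.na 602 74 .ne (.nx 616 1664512 (.nr 615 524289 (.nr 603 73 .s1 (.nx 606 156 (.nx 605 155 (.nr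
  604 688 (.l1 (.ls 23 29 327)) (.l1 .sk)) (.l1 .sk)) (.nx 609 20644 (.lg 0 false 3 89 89 19 0
  22320) (.nr 614 32769 (.nr 612 513 (.lg 0 true 3 71 71 19 0 22320) (.nx 613 104033 (.lg 2 true 1
  83 83 13 19159 22320) .out)) .out)))) .out) .out))) (.na 646 86 (.na 631 82 (.nx 630 1664512 (.nr
  629 524289 (.nr 618 78 .s1 (.nx 621 156 (.nx 620 155 (.nr 619 723 (.l1 (.ls 37 37 311)) (.l1
  .sk)) (.l1 .sk)) (.nx 624 20644 (.lg 0 false 3 89 89 31 0 290160) (.nr 628 32769 (.nx 625 104033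
  (.lg 0 false 1 89 89 29 0 290160) (.nr 627 513 (.lg 0 true 2 73 73 31 0 290160) .out)) .out))))
  .out) .out) (.nx 645 1664512 (.nr 644 524289 (.nr 632 82 .s1 (.nx 634 155 (.nr 633 759 (.l1 (.ls
  19 29 295)) (.l1 .sk)) (.nx 635 156 (.l1 .sk) (.nx 638 20644 (.lg 0 false 3 89 89 19 0 22320)
  (.nr 643 32769 (.nr 641 513 (.lg 0 true 3 71 71 19 0 22320) (.nx 642 104033 (.lg 2 true 1 79 79
  13 19159 22320) .out)) .out))))) .out) .out)) (.na 659 90 (.nx 658 1664512 (.nr 657 524289 (.nr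
  647 86 .s1 (.nx 649 155 (.nr 648 794 (.l1 (.ls 19 29 282)) (.l1 .sk)) (.nx 650 156 (.l1 .sk) (.nx
  653 20644 (.lg 0 false 3 89 89 19 0 22320) (.nr 656 32769 (.nr 654 513 (.lg 0 false 1 79 79 13 0
  22320) (.nx 655 104033 (.lg 2 true 1 79 79 13 19159 22320) .out)) .out))))) .out) .out) (.nx 671
  1664512 (.nr 670 524289 (.nr 660 90 .s1 (.nx 666 20644 (.nx 662 155 (.nr 661 803 (.l1 (.ls 19 37
  269)) (.l1 .sk)) (.nx 663 156 (.l1 .sk) (.lg 0 false 3 83 83 29 0 22320))) (.nr 669 32769 (.nr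
  667 513 (.lg 0 false 1 73 73 23 0 22320) (.nx 668 104033 (.lg 2 true 1 73 73 23 19159 22320)
  .out)) .out))) .out) .out)))) (.na 712 118 (.na 686 106 (.na 673 102 .ne (.nx 685 1664512 (.nr
  684 1048577 (.nr 674 102 .s1 (.nx 677 156 (.nx 676 155 (.nr 675 935 (.l1 (.ls 16 37 238)) (.l1
  .sk)) (.l1 .sk)) (.nx 681 104033 (.nx 679 13005 (.lg 0 false 2 97 97 31 0 22320) (.nr 680 65537
  (.lg 0 false 1 97 97 29 0 22320) .out)) (.nr 683 513 (.lg 0 true 2 73 73 31 0 22320) .out))))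
  .out) .out)) (.na 699 114 (.nx 698 1664512 (.nr 697 1048577 (.nr 687 106 .s1 (.nx 690 156 (.nx
  689 155 (.nr 688 1006 (.l1 (.ls 19 23 229)) (.l1 .sk)) (.l1 .sk)) (.nx 693 20644 (.lg 0 false 3
  89 89 23 0 22320) (.nr 696 32769 (.nr 694 513 (.lg 0 false 1 73 73 19 0 22320) (.nx 695 104033
  (.lg 2 true 1 73 73 19 19159 22320) .out)) .out)))) .out) .out) (.nx 711 1664512 (.nr 710 1048577
  (.nr 700 114 .s1 (.nx 707 104033 (.nx 702 155 (.nr 701 1041 (.l1 (.ls 17 31 213)) (.l1 .sk)) (.nx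
  703 156 (.l1 .sk) (.nx 705 13005 (.lg 0 false 2 97 97 31 0 22320) (.nr 706 65537 (.lg 0 false 1
  97 97 31 0 22320) .out)))) (.nr 709 513 (.lg 0 true 2 73 73 31 0 22320) .out))) .out) .out)))
  (.na 727 130 (.na 726 128 (.nx 725 1664512 (.nr 724 1048577 (.nr 713 118 .s1 (.nx 719 20644 (.nx
  715 155 (.nr 714 1129 (.l1 (.ls 19 23 206)) (.l1 .sk)) (.nx 716 156 (.l1 .sk) (.lg 0 false 3 89
  89 23 0 22320))) (.nr 723 32769 (.nr 721 513 (.lg 0 true 2 67 67 19 0 22320) (.nx 722 104033 (.lg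
  2 true 1 73 73 19 19159 22320) .out)) .out))) .out) .out) .ne) (.na 739 138 (.nx 738 832257 (.nr
  737 1048577 (.nr 728 130 .s1 (.nx 729 257 (.l1 (.ls 73 37 511)) (.nr 736 741457 (.nx 732 13005
  (.lg 0 false 3 83 83 31 0 290160) (.nr 735 16385 (.nr 733 1025 (.lg 0 false 1 73 73 29 0 290160)
  (.nx 734 104033 (.lg 2 true 1 67 67 29 15279 290160) .out)) .out)) .out))) .out) .out) (.na 750
  142 (.nx 749 832257 (.nr 748 1048577 (.nr 740 138 .s1 (.nx 741 257 (.l1 (.ls 79 41 481)) (.nr 747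
  741457 (.nx 743 13005 (.lg 0 false 2 89 89 37 0 22320) (.nr 746 16385 (.nr 744 1025 (.lg 0 true 1
  71 71 31 0 22320) (.nx 745 104033 (.lg 2 true 1 71 71 31 15279 22320) .out)) .out)) .out))) .out)
  .out) (.nx 759 832257 (.nr 758 1048577 (.nr 751 142 .s1 (.nx 754 13005 (.nx 752 257 (.l1 (.ls 67
  29 468)) (.nr 753 741457 (.lg 0 true 1 89 89 19 0 22320) .out)) (.nr 757 16385 (.nr 755 1025 (.lg
  0 false 1 71 71 19 0 22320) (.nx 756 104033 (.lg 2 true 1 61 61 19 15279 22320) .out)) .out)))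
  .out) .out))))))) (.na 876 256 (.na 813 202 (.na 788 170 (.na 771 162 (.na 770 150 (.nx 769
  832257 (.nr 768 1048577 (.nr 761 146 .s1 (.nx 764 13005 (.nx 762 257 (.l1 (.ls 71 29 455)) (.nr
  763 741457 (.lg 0 true 1 89 89 19 0 22320) .out)) (.nr 767 16385 (.nr 765 1025 (.lg 0 false 1 73
  73 19 0 22320) (.nx 766 104033 (.lg 2 true 1 61 61 19 15279 22320) .out)) .out))) .out) .out)
  (.lg 0 false 1 0 0 16 0 24)) (.na 779 166 (.nx 778 832257 (.nr 777 1048577 (.nr 772 162 .s1 (.nx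
  773 257 (.l1 (.ls 71 31 410)) (.nr 776 741457 (.nr 774 16385 (.lg 0 false 1 83 83 23 0 22320)
  (.nx 775 13005 (.lg 0 true 1 83 83 23 0 22320) .out)) .out))) .out) .out) (.nx 787 832257 (.nr
  786 1048577 (.nr 780 166 .s1 (.nx 781 257 (.l1 (.ls 71 29 400)) (.nr 785 741457 (.nr 783 16385
  (.lg 0 true 2 79 79 23 0 22320) (.nx 784 13005 (.lg 0 true 1 89 89 19 0 22320) .out)) .out)))
  .out) .out))) (.na 797 186 (.na 796 182 (.nx 795 832257 (.nr 794 1048577 (.nr 789 170 .s1 (.nx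
  790 257 (.l1 (.ls 71 37 391)) (.nr 793 741457 (.nr 791 16385 (.lg 0 false 1 89 89 29 0 22320)
  (.nx 792 13005 (.lg 0 true 1 83 83 29 0 22320) .out)) .out))) .out) .out) .ne) (.na 805 190 (.nx
  804 832257 (.nr 803 1048577 (.nr 798 186 .s1 (.nx 799 257 (.l1 (.ls 71 37 358)) (.nr 802 741457
  (.nr 800 16385 (.lg 0 false 1 89 89 29 0 22320) (.nx 801 13005 (.lg 0 true 1 83 83 29 0 22320)
  .out)) .out))) .out) .out) (.nx 812 832257 (.nr 811 1048577 (.nr 806 190 .s1 (.nx 807 257 (.l1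
  (.ls 71 37 350)) (.nr 810 741457 (.nr 808 16385 (.lg 0 false 1 89 89 29 0 22320) (.nx 809 13005
  (.lg 0 true 1 83 83 29 0 22320) .out)) .out))) .out) .out)))) (.na 847 234 (.na 829 222 (.na 821
  218 (.nx 820 832257 (.nr 819 1048577 (.nr 814 202 .s1 (.nx 815 257 (.l1 (.ls 67 29 329)) (.nr 818
  741457 (.nr 816 16385 (.lg 0 false 1 83 83 23 0 22320) (.nx 817 13005 (.lg 0 true 1 79 79 23 0
  22320) .out)) .out))) .out) .out) (.nx 828 832257 (.nr 827 1048577 (.nr 822 218 .s1 (.nx 823 257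
  (.l1 (.ls 71 29 305)) (.nr 826 741457 (.nr 824 16385 (.lg 0 false 1 83 83 23 0 22320) (.nx 825
  13005 (.lg 0 true 1 79 79 23 0 22320) .out)) .out))) .out) .out)) (.na 839 230 (.nx 838 832257
  (.nr 837 1048577 (.nr 830 222 .s1 (.nx 833 13005 (.nx 831 257 (.l1 (.ls 73 31 300)) (.nr 832
  741457 (.lg 0 true 1 89 89 31 0 22320) .out)) (.nr 836 16385 (.nr 834 1025 (.lg 0 true 1 67 67 31
  0 22320) (.nx 835 104033 (.lg 2 true 1 67 67 31 15279 22320) .out)) .out))) .out) .out) (.nx 846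
  832257 (.nr 845 1048577 (.nr 840 230 .s1 (.nx 843 13005 (.nx 841 257 (.l1 (.ls 71 37 290)) (.nr
  842 741457 (.lg 0 true 1 83 83 31 0 22320) .out)) (.nr 844 16385 (.lg 0 false 1 89 89 31 0 22320)
  .out))) .out) .out))) (.na 867 250 (.na 857 246 (.nx 856 832257 (.nr 855 1048577 (.nr 848 234 .s1
  (.nx 851 13005 (.nx 849 257 (.l1 (.ls 73 37 285)) (.nr 850 741457 (.lg 0 true 1 83 83 37 0
  290160) .out)) (.nr 854 16385 (.nr 852 1025 (.lg 0 true 1 67 67 37 0 290160) (.nx 853 104033 (.lg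
  2 false 1 61 61 37 15279 290160) .out)) .out))) .out) .out) (.nx 866 832257 (.nr 865 1048577 (.nr
  858 246 .s1 (.nx 861 13005 (.nx 859 257 (.l1 (.ls 73 31 271)) (.nr 860 741457 (.lg 0 true 1 83 83
  31 0 22320) .out)) (.nr 864 16385 (.nr 862 1025 (.lg 0 true 1 67 67 31 0 22320) (.nx 863 104033
  (.lg 2 false 1 67 67 31 15279 22320) .out)) .out))) .out) .out)) (.na 868 254 (.lg 0 false 1 0 0
  16 0 24) (.nx 875 832257 (.nr 874 1048577 (.nr 869 254 .s1 (.nx 870 257 (.l1 (.ls 67 29 263))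
  (.nr 873 741457 (.nr 871 16385 (.lg 0 false 1 79 79 23 0 22320) (.nx 872 13005 (.lg 0 true 1 73
  73 23 0 22320) .out)) .out))) .out) .out))))) (.na 6446 4096 (.na 2936 1024 (.na 1698 512 (.na
  877 257 .ne (.nx 1697 832257 (.nr 1696 1482912 (.nr 878 257 .s1 (.nx 1184 205 (.nx 1134 155 (.nr
  1133 4515 (.la (.ls 37 19 129)) (.l1 .sk)) (.nx 1135 156 (.l1 .sk) (.lx (.lp 79 17 129)))) (.nr
  1695 1048577 (.nr 1439 32769 (.la (.lg 0 false 1 83 83 23 0)) (.nx 1694 10323 (.la (.lg 0 true 1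
  73 73 23 0)) .out)) .out))) .out) .out)) (.na 2334 725 (.nx 2333 832257 (.nr 2332 1482912 (.nr
  1699 512 .s1 (.nx 1855 156 (.nx 1854 155 (.nr 1853 6393 (.lx (.lp 37 19 182)) (.l1 .sk)) (.l1
  .sk)) (.nx 1904 205 (.lx (.lp 41 0 182)) (.nr 2331 1048577 (.nx 2117 22297 (.la (.lg 0 true 1 73
  73 29 0)) (.nr 2330 32769 (.la (.lg 2 false 1 61 61 29 125977)) .out)) .out)))) .out) .out) (.nx
  2935 10323 (.nr 2934 1048577 (.nr 2335 725 .s1 (.nx 2634 2049 (.la (.ls 67 41 5793)) (.nr 2933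
  16385 (.la (.lg 0 true 1 37 37 29 0)) .out))) .out) .out))) (.na 4392 2048 (.na 3790 1449 (.nx
  3789 10323 (.nr 3788 1048577 (.nr 2937 1024 .s1 (.nx 3362 2582 (.la (.ls 67 41 6513)) (.nr 3787
  16385 (.la (.lg 0 false 1 29 29 31 0)) .out))) .out) .out) (.nx 4391 2582 (.nr 4390 524289 (.nr
  3791 1449 .s1 (.la (.ls 59 37 4603))) .out) .out)) (.na 5244 2897 (.nx 5243 3252 (.nr 5242 524289
  (.nr 4393 2048 .s1 (.la (.ls 59 41 5166))) .out) .out) (.nx 6445 2582 (.nr 6444 262145 (.nr 5245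
  2897 .s1 (.la (.ls 47 37 2304))) .out) .out)))) (.na 13293 32768 (.na 10703 8192 (.na 8146 5793
  (.nx 8145 2582 (.nr 8144 262145 (.nr 6447 4096 .s1 (.la (.ls 47 37 1630))) .out) .out) (.nx 10702
  1292 (.nr 10701 65537 (.nr 8147 5793 .s1 (.nx 8301 155 (.lx (.lp 41 31 2049)) (.nx 8302 156 (.l1
  .sk) (.la (.ls 37 37 2049))))) .out) .out)) (.na 11998 16384 (.nx 11997 1292 (.nr 11996 131073
  (.nr 10704 8192 .s1 (.nx 10908 205 (.lx (.lp 16 0 4097)) (.nr 11995 65537 (.lx (.lp 37 41 4097))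
  .out))) .out) .out) (.nx 13292 1292 (.nr 13291 262145 (.nr 11999 16384 .s1 (.nx 12203 205 (.lx
  (.lp 16 0 8193)) (.nr 13290 131073 (.lx (.lp 37 43 8193)) .out))) .out) .out))) (.na 15348 131072
  (.na 14321 65536 (.nx 14320 1025 (.nr 14319 262145 (.nr 13294 32768 .s1 (.nx 13498 205 (.lx (.lp
  16 0 16385)) (.nr 14318 131073 (.lx (.lp 29 47 16385)) .out))) .out) .out) (.nx 15347 1025 (.nr
  15346 262145 (.nr 14322 65536 .s1 (.lx (.lp 29 53 32769))) .out) .out)) (.na 15350 262144 (.nx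
  15349 324 (.l1 .sk) .out) (.na 15352 524289 (.nx 15351 205 (.l1 .sk) .out) .out)))))))

def T130_1 : Ph :=
  (.na 714 147 (.na 404 89 (.na 228 61 (.na 104 47 (.na 64 42 (.na 25 36 (.nx 24 1664512 (.nr 23
  881745 (.nr 1 31 .s1 (.nx 4 168 (.nx 3 167 (.nr 2 330 (.l1 (.ls 29 31 848)) (.l1 .sk)) (.l1 .sk))
  (.nx 11 10323 (.nx 5 257 (.l1 (.ls 79 37 1149)) (.nr 10 440873 (.lg 0 false 5 89 97 19 0 55440)
  .out)) (.nr 22 110219 (.nx 13 26009 (.lg 0 false 2 89 89 17 0 1584) (.nr 21 32769 (.nx 15 104033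
  (.nr 14 2076 (.lg 0 false 1 73 73 16 0 792) (.lg 2 true 1 83 83 16 17659 792)) (.nr 20 257 (.lg 0
  true 5 71 71 19 0 3960) .out)) .out)) .out)))) .out) .out) (.na 45 38 (.nx 44 1664512 (.nr 43
  881745 (.nr 26 34 .s1 (.nx 29 168 (.nx 28 167 (.nr 27 348 (.l1 (.ls 29 37 777)) (.l1 .sk)) (.l1
  .sk)) (.nx 39 104033 (.nx 30 257 (.l1 (.ls 79 41 1053)) (.nr 38 440873 (.nr 35 110219 (.nx 32
  26009 (.lg 0 false 2 89 97 23 0 5040) (.nr 34 32769 (.nr 33 2143 (.lg 0 false 1 79 79 19 0 5040)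
  (.lg 2 true 1 89 89 19 17659 5040)) .out)) (.nx 37 10323 (.lg 0 false 2 97 97 23 0 5040) .out))
  .out)) (.nr 42 257 (.lg 0 true 3 71 71 23 0 144) .out)))) .out) .out) (.nx 63 1664512 (.nr 62
  881745 (.nr 46 36 .s1 (.nx 47 257 (.l1 (.ls 73 41 1741)) (.nr 61 440873 (.nx 52 20644 (.lg 0
  false 5 89 89 17 0 720) (.nr 60 46342 (.nr 57 385 (.lg 0 true 5 71 71 17 0 720) (.nx 59 104033
  (.lg 2 true 2 83 83 13 31417 144) .out)) .out)) .out))) .out) .out))) (.na 83 44 (.nx 82 1664512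
  (.nr 81 881745 (.nr 65 40 .s1 (.nx 69 257 (.nx 67 167 (.nr 66 403 (.l1 (.ls 29 41 667)) (.l1
  .sk)) (.nx 68 168 (.l1 .sk) (.l1 (.ls 79 41 903)))) (.nr 80 440873 (.nx 74 20644 (.lg 0 false 5
  83 97 31 0 5040) (.nr 79 46342 (.nr 77 257 (.lg 0 true 3 71 71 29 0 1008) (.nx 78 104033 (.lg 2
  true 1 89 89 23 33801 1008) .out)) .out)) .out))) .out) .out) (.na 103 46 (.nx 102 1664512 (.nr
  101 881745 (.nr 84 43 .s1 (.nx 88 257 (.nx 86 167 (.nr 85 421 (.l1 (.ls 31 37 636)) (.l1 .sk))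
  (.nx 87 168 (.l1 .sk) (.l1 (.ls 83 37 862)))) (.nr 100 440873 (.nx 94 26009 (.nx 91 10323 (.lg 0
  false 3 89 97 23 0 55440) (.nr 93 110219 (.lg 0 false 2 89 97 23 0 55440) .out)) (.nr 99 32769
  (.nr 97 421 (.lg 0 true 3 73 73 23 0 1584) (.nx 98 104033 (.lg 2 true 1 83 83 19 20634 1584)
  .out)) .out)) .out))) .out) .out) .ne))) (.na 158 54 (.na 121 48 (.nx 120 1664512 (.nr 119 881745
  (.nr 105 46 .s1 (.nx 106 257 (.l1 (.ls 73 29 1408)) (.nr 118 623489 (.nx 111 20644 (.lg 0 false 5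
  89 89 16 0 360) (.nr 117 46342 (.nr 114 257 (.lg 0 true 3 61 61 16 0 72) (.nx 116 104033 (.lg 2
  true 2 83 83 16 33801 144) .out)) .out)) .out))) .out) .out) (.na 142 49 (.nx 141 1664512 (.nr
  140 881745 (.nr 122 47 .s1 (.nx 137 104033 (.nx 124 167 (.nr 123 449 (.l1 (.ls 31 37 584)) (.l1
  .sk)) (.nx 125 168 (.l1 .sk) (.nx 126 257 (.l1 (.ls 83 37 791)) (.nr 136 623489 (.nx 131 13005
  (.lg 0 false 5 89 101 31 0 55440) (.nr 135 110219 (.nx 132 26009 (.lg 0 false 1 89 97 23 0 11088)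
  (.nr 134 32769 (.nr 133 3835 (.lg 0 true 1 79 79 23 0 144) (.lg 2 false 1 89 89 23 17659 11088))
  .out)) .out)) .out)))) (.nr 139 257 (.lg 0 true 2 71 71 29 0 144) .out))) .out) .out) (.nx 157
  1664512 (.nr 156 881745 (.nr 143 48 .s1 (.nx 144 257 (.l1 (.ls 73 31 1350)) (.nr 155 623489 (.nx
  148 20644 (.lg 0 false 4 89 89 16 0 5040) (.nr 154 46342 (.nr 151 257 (.lg 0 true 3 61 61 16 0
  504) (.nx 153 104033 (.lg 2 true 2 79 79 16 33801 1008) .out)) .out)) .out))) .out) .out))) (.na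
  194 57 (.na 175 56 (.nx 174 1664512 (.nr 173 881745 (.nr 159 53 .s1 (.nx 166 20644 (.nx 160 257
  (.l1 (.ls 71 41 1226)) (.nr 165 623489 (.lg 0 false 5 83 83 23 0 720) .out)) (.nr 172 46342 (.nr
  169 257 (.lg 0 true 3 61 61 23 0 144) (.nx 171 104033 (.lg 2 false 2 73 73 19 33801 144) .out))
  .out))) .out) .out) (.nx 193 1664512 (.nr 192 881745 (.nr 176 55 .s1 (.nx 180 257 (.nx 178 167
  (.nr 177 522 (.l1 (.ls 37 31 501)) (.l1 .sk)) (.nx 179 168 (.l1 .sk) (.l1 (.ls 83 37 678)))) (.nr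
  191 623489 (.nx 185 26009 (.nx 183 13005 (.lg 0 false 3 89 97 29 0 5040) (.nr 184 110219 (.lg 0
  false 1 89 97 23 0 5040) .out)) (.nr 190 32769 (.nx 187 104033 (.nr 186 4135 (.lg 0 true 1 83 83
  23 0 5040) (.lg 2 false 1 83 89 23 17659 5040)) (.nr 189 257 (.lg 0 true 2 71 73 29 0 1008)
  .out)) .out)) .out))) .out) .out)) (.na 212 58 (.nx 211 1664512 (.nr 210 881745 (.nr 195 56 .s1
  (.nx 198 168 (.nx 197 167 (.nr 196 531 (.l1 (.ls 17 29 492)) (.l1 .sk)) (.l1 .sk)) (.nx 199 257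
  (.l1 (.ls 73 31 666)) (.nr 209 623489 (.nx 204 20644 (.lg 0 false 5 89 97 23 0 5040) (.nr 208
  46342 (.nr 206 257 (.lg 0 true 2 67 67 17 0 144) (.nx 207 104033 (.lg 2 true 1 89 89 16 33801
  1008) .out)) .out)) .out)))) .out) .out) (.nx 227 1664512 (.nr 226 881745 (.nr 213 57 .s1 (.nx
  220 20644 (.nx 214 257 (.l1 (.ls 73 41 1141)) (.nr 219 623489 (.lg 0 false 5 89 89 19 0 720)
  .out)) (.nr 225 46342 (.nr 222 257 (.lg 0 true 2 61 61 13 0 144) (.nx 224 104033 (.lg 2 false 2
  79 79 13 33801 144) .out)) .out))) .out) .out))))) (.na 305 72 (.na 274 64 (.na 243 62 (.nx 242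
  1664512 (.nr 241 881745 (.nr 229 60 .s1 (.nx 235 20644 (.nx 230 257 (.l1 (.ls 73 23 1085)) (.nr
  234 623489 (.lg 0 false 4 89 89 16 0 144) .out)) (.nr 240 46342 (.nr 237 257 (.lg 0 true 2 67 67
  16 0 144) (.nx 239 104033 (.lg 2 false 2 79 79 16 33801 144) .out)) .out))) .out) .out) (.na 259
  63 (.nx 258 1664512 (.nr 257 881745 (.nr 244 61 .s1 (.nx 251 26009 (.nx 245 257 (.l1 (.ls 73 37
  1068)) (.nr 250 623489 (.lg 0 false 5 89 89 19 0 720) .out)) (.nr 256 32769 (.nr 254 577 (.lg 0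
  true 3 67 67 19 0 144) (.nx 255 104033 (.lg 2 true 1 79 79 13 17659 11088) .out)) .out))) .out)
  .out) (.nx 273 1664512 (.nr 272 881745 (.nr 260 62 .s1 (.nx 261 257 (.l1 (.ls 73 31 1051)) (.nr
  271 623489 (.nx 266 20644 (.lg 0 false 5 83 89 23 0 5040) (.nr 270 46342 (.nr 268 257 (.lg 0 true
  2 67 67 19 0 1008) (.nx 269 104033 (.lg 2 true 1 83 83 17 33801 1008) .out)) .out)) .out))) .out)
  .out))) (.na 289 65 (.nx 288 1664512 (.nr 287 881745 (.nr 275 63 .s1 (.nx 276 257 (.l1 (.ls 79 31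
  1035)) (.nr 286 623489 (.nx 279 13005 (.lg 0 false 3 89 89 23 0 5040) (.nr 285 110219 (.nx 280
  26009 (.lg 0 true 1 89 89 17 0 5040) (.nr 284 32769 (.nr 282 513 (.lg 0 true 2 71 71 19 0 144)
  (.nx 283 104033 (.lg 2 true 1 79 79 17 17659 5040) .out)) .out)) .out)) .out))) .out) .out) (.na
  290 66 .ne (.nx 304 1664512 (.nr 303 524289 (.nr 291 65 .s1 (.nx 293 167 (.nr 292 659 (.l1 (.ls
  31 37 425)) (.l1 .sk)) (.nx 294 168 (.l1 .sk) (.nx 298 20644 (.nx 296 13005 (.lg 0 false 2 89 89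
  29 0 7920) (.nr 297 65537 (.lg 0 true 1 79 79 29 0 7920) .out)) (.nr 302 32769 (.nr 300 513 (.lg
  0 true 2 73 73 29 0 1584) (.nx 301 104033 (.lg 2 false 1 79 79 29 22248 1584) .out)) .out)))))
  .out) .out)))) (.na 349 81 (.na 319 76 (.nx 318 1664512 (.nr 317 524289 (.nr 306 71 .s1 (.nx 308
  167 (.nr 307 696 (.l1 (.ls 31 31 390)) (.l1 .sk)) (.nx 309 168 (.l1 .sk) (.nx 312 20644 (.nr 310
  65537 (.lg 0 false 1 83 83 29 0 144) (.nx 311 13005 (.lg 0 false 1 97 97 29 0 1008) .out)) (.nr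
  316 32769 (.nr 314 513 (.lg 0 true 2 71 73 29 0 144) (.nx 315 104033 (.lg 2 false 1 83 83 29
  22248 1008) .out)) .out))))) .out) .out) (.na 333 77 (.nx 332 1664512 (.nr 331 524289 (.nr 320 75
  .s1 (.nx 323 168 (.nx 322 167 (.nr 321 705 (.l1 (.ls 17 31 369)) (.l1 .sk)) (.l1 .sk)) (.nx 326
  20644 (.lg 0 false 3 89 97 29 0 5040) (.nr 330 32769 (.nr 328 513 (.lg 0 true 2 73 73 23 0 144)
  (.nx 329 104033 (.lg 2 true 1 79 79 17 22248 144) .out)) .out)))) .out) .out) (.nx 348 1664512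
  (.nr 347 524289 (.nr 334 76 .s1 (.nx 342 20644 (.nx 336 167 (.nr 335 742 (.l1 (.ls 29 29 365))
  (.l1 .sk)) (.nx 337 168 (.l1 .sk) (.lg 0 false 5 83 89 23 0 55440))) (.nr 346 32769 (.nr 344 513
  (.lg 0 true 2 71 71 19 0 11088) (.nx 345 104033 (.lg 2 true 1 79 79 17 22248 5544) .out)) .out)))
  .out) .out))) (.na 378 87 (.na 365 84 (.nx 364 1664512 (.nr 363 524289 (.nr 350 80 .s1 (.nx 353
  168 (.nx 352 167 (.nr 351 769 (.l1 (.ls 19 23 347)) (.l1 .sk)) (.l1 .sk)) (.nx 357 20644 (.lg 0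
  false 4 79 79 19 0 144) (.nr 362 32769 (.nr 360 513 (.lg 0 true 3 61 61 17 0 72) (.nx 361 104033
  (.lg 2 true 1 71 71 16 22248 72) .out)) .out)))) .out) .out) (.nx 377 1664512 (.nr 376 524289
  (.nr 366 84 .s1 (.nx 368 167 (.nr 367 797 (.l1 (.ls 37 37 335)) (.l1 .sk)) (.nx 369 168 (.l1 .sk)
  (.nx 374 104033 (.nr 370 32769 (.lg 0 false 1 83 83 31 0 1008) (.nx 373 20644 (.nx 371 13005 (.lg
  0 false 1 101 101 31 0 55440) (.nr 372 65537 (.lg 0 false 1 79 83 31 0 55440) .out)) .out)) (.nr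
  375 513 (.lg 0 true 1 79 79 31 0 1008) .out))))) .out) .out)) (.na 391 88 (.nx 390 1664512 (.nr
  389 524289 (.nr 379 87 .s1 (.nx 382 168 (.nx 381 167 (.nr 380 806 (.l1 (.ls 19 23 323)) (.l1
  .sk)) (.l1 .sk)) (.nx 384 20644 (.lg 0 false 2 83 89 19 0 144) (.nr 388 32769 (.nr 386 513 (.lg 0
  true 2 67 67 19 0 144) (.nx 387 104033 (.lg 2 false 1 73 73 17 22248 72) .out)) .out)))) .out)
  .out) (.nx 403 1664512 (.nr 402 524289 (.nr 392 88 .s1 (.nx 395 168 (.nx 394 167 (.nr 393 815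
  (.l1 (.ls 31 31 319)) (.l1 .sk)) (.l1 .sk)) (.nr 398 32769 (.nx 396 104033 (.lg 0 true 1 83 89 29
  0 1584) (.nr 397 513 (.lg 0 true 1 73 73 29 0 1584) .out)) (.nx 401 20644 (.nx 399 13005 (.lg 0
  false 1 89 89 29 0 1584) (.nr 400 65537 (.lg 0 false 1 71 73 29 0 1584) .out)) .out)))) .out)
  .out)))))) (.na 578 121 (.na 481 98 (.na 436 94 (.na 419 91 (.nx 418 1664512 (.nr 417 524289 (.nr
  405 89 .s1 (.nx 408 168 (.nx 407 167 (.nr 406 833 (.l1 (.ls 19 19 316)) (.l1 .sk)) (.l1 .sk))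
  (.nx 412 20644 (.lg 0 false 4 79 79 16 0 144) (.nr 416 32769 (.nr 414 513 (.lg 0 true 2 61 61 16
  0 144) (.nx 415 104033 (.lg 2 true 1 67 67 16 22248 72) .out)) .out)))) .out) .out) (.na 420 93
  .ne (.nx 435 1664512 (.nr 434 1048577 (.nr 421 93 .s1 (.nx 424 168 (.nx 423 167 (.nr 422 861 (.l1
  (.ls 23 23 302)) (.l1 .sk)) (.l1 .sk)) (.nx 429 20644 (.lg 0 false 5 89 97 23 0 5040) (.nr 433
  32769 (.nr 431 513 (.lg 0 true 2 71 71 19 0 144) (.nx 432 104033 (.lg 2 false 1 73 73 17 22248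
  72) .out)) .out)))) .out) .out))) (.na 451 96 (.nx 450 1664512 (.nr 449 1048577 (.nr 437 94 .s1
  (.nx 439 167 (.nr 438 879 (.l1 (.ls 19 29 299)) (.l1 .sk)) (.nx 440 168 (.l1 .sk) (.nr 445 65537
  (.nx 442 104033 (.lg 0 false 2 83 83 19 0 720) (.nr 444 513 (.lg 0 true 2 61 61 19 0 144) .out))
  (.nx 448 13005 (.lg 0 false 3 83 83 19 0 144) .out))))) .out) .out) (.na 465 97 (.nx 464 1664512
  (.nr 463 1048577 (.nr 452 96 .s1 (.nx 455 168 (.nx 454 167 (.nr 453 888 (.l1 (.ls 31 31 293))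
  (.l1 .sk)) (.l1 .sk)) (.nx 461 104033 (.nx 457 13005 (.lg 0 false 2 89 97 31 0 5040) (.nr 460
  65537 (.nr 458 32769 (.lg 0 true 1 89 89 29 0 5040) (.nx 459 20644 (.lg 0 false 1 73 79 29 0
  5040) .out)) .out)) (.nr 462 513 (.lg 0 true 1 73 73 29 0 144) .out)))) .out) .out) (.nx 480
  1664512 (.nr 479 1048577 (.nr 466 97 .s1 (.nx 468 167 (.nr 467 897 (.l1 (.ls 17 17 290)) (.l1
  .sk)) (.nx 469 168 (.l1 .sk) (.nx 474 20644 (.lg 0 false 5 83 83 17 0 5040) (.nr 478 32769 (.nr
  476 513 (.lg 0 true 2 59 59 16 0 144) (.nx 477 104033 (.lg 2 true 1 67 67 16 22248 72) .out))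
  .out))))) .out) .out)))) (.na 526 108 (.na 497 99 (.nx 496 1664512 (.nr 495 1048577 (.nr 482 98
  .s1 (.nx 490 20644 (.nx 484 167 (.nr 483 906 (.l1 (.ls 19 29 287)) (.l1 .sk)) (.nx 485 168 (.l1
  .sk) (.lg 0 false 5 83 83 29 0 5040))) (.nr 494 32769 (.nr 492 513 (.lg 0 true 2 61 61 23 0 1008)
  (.nx 493 104033 (.lg 2 true 1 71 71 19 22248 1008) .out)) .out))) .out) .out) (.na 510 107 (.nx
  509 1664512 (.nr 508 1048577 (.nr 498 99 .s1 (.nx 505 104033 (.nx 500 167 (.nr 499 980 (.l1 (.ls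
  31 29 284)) (.l1 .sk)) (.nx 501 168 (.l1 .sk) (.nx 503 13005 (.lg 0 false 2 97 97 23 0 55440)
  (.nr 504 65537 (.lg 0 false 1 97 97 19 0 55440) .out)))) (.nr 507 513 (.lg 0 true 2 71 71 23 0
  1584) .out))) .out) .out) (.nx 525 1664512 (.nr 524 1048577 (.nr 511 107 .s1 (.nx 514 168 (.nx
  513 167 (.nr 512 989 (.l1 (.ls 17 17 263)) (.l1 .sk)) (.l1 .sk)) (.nx 519 20644 (.lg 0 false 5 73
  79 17 0 360) (.nr 523 32769 (.nr 521 513 (.lg 0 true 2 59 59 16 0 144) (.nx 522 104033 (.lg 2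
  true 1 67 67 16 22248 1008) .out)) .out)))) .out) .out))) (.na 552 114 (.na 539 112 (.nx 538
  1664512 (.nr 537 1048577 (.nr 527 108 .s1 (.nx 534 104033 (.nx 529 167 (.nr 528 1025 (.l1 (.ls 23
  31 261)) (.l1 .sk)) (.nx 530 168 (.l1 .sk) (.nx 532 13005 (.lg 0 false 2 79 79 29 0 144) (.nr 533
  65537 (.lg 0 true 1 79 79 23 0 144) .out)))) (.nr 536 513 (.lg 0 true 2 61 61 29 0 144) .out)))
  .out) .out) (.nx 551 1664512 (.nr 550 1048577 (.nr 540 112 .s1 (.nx 542 167 (.nr 541 1044 (.l1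
  (.ls 31 29 252)) (.l1 .sk)) (.nx 543 168 (.l1 .sk) (.nr 546 32769 (.nx 544 104033 (.lg 0 true 1
  83 83 29 0 1008) (.nr 545 513 (.lg 0 true 1 71 71 29 0 1008) .out)) (.nx 549 20644 (.nx 547 13005
  (.lg 0 false 1 89 89 29 0 1008) (.nr 548 65537 (.lg 0 false 1 71 71 29 0 1008) .out)) .out)))))
  .out) .out)) (.na 565 116 (.nx 564 1664512 (.nr 563 1048577 (.nr 553 114 .s1 (.nx 556 168 (.nx
  555 167 (.nr 554 1062 (.l1 (.ls 17 37 247)) (.l1 .sk)) (.l1 .sk)) (.nx 560 104033 (.nr 557 65537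
  (.lg 0 false 1 89 89 31 0 144) (.nx 559 13005 (.lg 0 false 2 89 89 31 0 144) .out)) (.nr 562 513
  (.lg 0 true 2 71 71 31 0 144) .out)))) .out) .out) (.nx 577 1664512 (.nr 576 1048577 (.nr 566 116
  .s1 (.nx 573 104033 (.nx 571 13005 (.nx 568 167 (.nr 567 1108 (.l1 (.ls 23 23 243)) (.l1 .sk))
  (.nx 569 168 (.l1 .sk) (.lg 0 false 2 89 89 23 0 720))) (.nr 572 65537 (.lg 0 false 1 89 89 19 0
  720) .out)) (.nr 575 513 (.lg 0 true 2 71 71 23 0 144) .out))) .out) .out))))) (.na 660 131 (.na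
  619 126 (.na 592 122 (.nx 591 1664512 (.nr 590 1048577 (.nr 579 121 .s1 (.nx 586 20644 (.nx 581
  167 (.nr 580 1117 (.l1 (.ls 19 19 233)) (.l1 .sk)) (.nx 582 168 (.l1 .sk) (.lg 0 false 4 79 79 19
  0 1584))) (.nr 589 32769 (.nr 587 513 (.lg 0 false 1 67 67 17 0 792) (.nx 588 104033 (.lg 2 true
  1 67 67 17 22248 792) .out)) .out))) .out) .out) (.na 607 124 (.nx 606 1664512 (.nr 605 1048577
  (.nr 593 122 .s1 (.nx 601 20644 (.nx 595 167 (.nr 594 1135 (.l1 (.ls 17 23 231)) (.l1 .sk)) (.nx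
  596 168 (.l1 .sk) (.lg 0 false 5 79 83 23 0 720))) (.nr 604 32769 (.nr 602 513 (.lg 0 false 1 67
  67 19 0 144) (.nx 603 104033 (.lg 2 true 1 71 71 19 22248 144) .out)) .out))) .out) .out) (.nx
  618 1664512 (.nr 617 1048577 (.nr 608 124 .s1 (.nx 611 168 (.nx 610 167 (.nr 609 1154 (.l1 (.ls
  29 23 227)) (.l1 .sk)) (.l1 .sk)) (.nr 614 65537 (.nx 612 104033 (.lg 0 false 1 89 89 19 0 144)
  (.nr 613 513 (.lg 0 true 1 71 71 19 0 144) .out)) (.nx 616 13005 (.lg 0 false 2 89 89 23 0 144)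
  .out)))) .out) .out))) (.na 646 128 (.na 631 127 (.nx 630 1664512 (.nr 629 1048577 (.nr 620 126
  .s1 (.nx 623 168 (.nx 622 167 (.nr 621 1163 (.l1 (.ls 29 31 224)) (.l1 .sk)) (.l1 .sk)) (.nx 625
  13005 (.lg 0 false 2 89 89 31 0 5040) (.nr 628 65537 (.nx 626 104033 (.lg 0 false 1 89 89 31 0
  5040) (.nr 627 513 (.lg 0 true 1 67 67 31 0 1008) .out)) .out)))) .out) .out) (.nx 645 1664512
  (.nr 644 1048577 (.nr 632 127 .s1 (.nx 640 20644 (.nx 634 167 (.nr 633 1172 (.l1 (.ls 17 17 222))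
  (.l1 .sk)) (.nx 635 168 (.l1 .sk) (.lg 0 false 5 79 79 17 0 5040))) (.nr 643 32769 (.nr 641 513
  (.lg 0 false 1 61 61 16 0 72) (.nx 642 104033 (.lg 2 true 1 61 61 16 22248 72) .out)) .out)))
  .out) .out)) (.na 659 129 (.nx 658 1664512 (.nr 657 1048577 (.nr 647 128 .s1 (.nx 652 13005 (.nx
  649 167 (.nr 648 1181 (.l1 (.ls 23 23 220)) (.l1 .sk)) (.nx 650 168 (.l1 .sk) (.lg 0 false 2 79
  83 23 0 144))) (.nr 656 65537 (.nx 653 104033 (.lg 0 true 1 79 79 19 0 144) (.nr 655 1025 (.lg 0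
  true 2 67 67 23 0 144) .out)) .out))) .out) .out) .ne))) (.na 682 137 (.na 661 132 (.lg 0 false 1
  0 0 16 0 24) (.na 671 133 (.nx 670 832257 (.nr 669 1048577 (.nr 662 132 .s1 (.nx 667 104033 (.nx
  663 257 (.l1 (.ls 79 41 503)) (.nr 666 741457 (.nx 664 13005 (.lg 0 false 1 89 89 31 0 11088)
  (.nr 665 16385 (.lg 0 true 1 79 83 31 0 11088) .out)) .out)) (.nr 668 1025 (.lg 0 true 1 73 73 31
  0 11088) .out))) .out) .out) (.nx 681 832257 (.nr 680 1048577 (.nr 672 133 .s1 (.nx 673 257 (.l1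
  (.ls 73 29 499)) (.nr 679 741457 (.nx 677 104033 (.nx 675 13005 (.lg 0 false 2 83 83 17 0 1008)
  (.nr 676 16385 (.lg 0 true 1 73 73 17 0 504) .out)) (.nr 678 1025 (.lg 0 true 1 67 67 17 0 504)
  .out)) .out))) .out) .out))) (.na 693 141 (.na 692 139 (.nx 691 832257 (.nr 690 1048577 (.nr 683
  137 .s1 (.nx 686 13945 (.nx 684 257 (.l1 (.ls 61 19 485)) (.nr 685 741457 (.lg 0 true 1 79 79 16
  0 144) .out)) (.nr 689 16385 (.nr 687 1025 (.lg 0 false 1 61 61 16 0 144) (.nx 688 104033 (.lg 2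
  true 1 53 53 16 16552 72) .out)) .out))) .out) .out) (.lg 0 false 1 0 0 16 0 24)) (.na 704 144
  (.nx 703 832257 (.nr 702 1048577 (.nr 694 141 .s1 (.nx 695 257 (.l1 (.ls 73 23 471)) (.nr 701
  741457 (.nx 697 13005 (.lg 0 false 2 89 89 19 0 5040) (.nr 700 16385 (.nx 698 104033 (.lg 0 true
  1 73 73 19 0 72) (.nr 699 1025 (.lg 0 true 1 67 67 19 0 72) .out)) .out)) .out))) .out) .out)
  (.nx 713 832257 (.nr 712 1048577 (.nr 705 144 .s1 (.nx 708 13005 (.nx 706 257 (.l1 (.ls 79 37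
  461)) (.nr 707 741457 (.lg 0 false 1 89 89 31 0 720) .out)) (.nr 711 16385 (.nx 709 104033 (.lg 0
  true 1 79 79 31 0 720) (.nr 710 1025 (.lg 0 true 1 71 71 31 0 144) .out)) .out))) .out)
  .out))))))) (.na 924 197 (.na 812 176 (.na 755 162 (.na 726 152 (.na 724 149 (.nx 723 832257 (.nr
  722 1048577 (.nr 715 147 .s1 (.nx 716 257 (.l1 (.ls 71 29 452)) (.nr 721 741457 (.nx 717 13005
  (.lg 0 false 1 79 79 23 0 504) (.nr 720 16385 (.nx 718 104033 (.lg 0 true 1 71 71 23 0 504) (.nr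
  719 1025 (.lg 0 true 1 61 61 23 0 504) .out)) .out)) .out))) .out) .out) (.na 725 151 (.lg 0
  false 1 0 0 16 0 24) (.lg 0 false 1 0 0 16 0 24))) (.na 736 154 (.nx 735 832257 (.nr 734 1048577
  (.nr 727 152 .s1 (.nx 732 104033 (.nx 730 13005 (.nx 728 257 (.l1 (.ls 79 31 437)) (.nr 729
  741457 (.lg 0 false 1 89 89 29 0 144) .out)) (.nr 731 16385 (.lg 0 true 1 73 79 29 0 144) .out))
  (.nr 733 1025 (.lg 0 true 1 71 71 29 0 144) .out))) .out) .out) (.na 746 157 (.nx 745 832257 (.nr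
  744 1048577 (.nr 737 154 .s1 (.nx 738 257 (.l1 (.ls 73 37 431)) (.nr 743 741457 (.nx 741 104033
  (.nx 739 13005 (.lg 0 true 1 89 89 31 0 55440) (.nr 740 16385 (.lg 0 false 1 79 79 31 0 55440)
  .out)) (.nr 742 1025 (.lg 0 true 1 67 67 31 0 11088) .out)) .out))) .out) .out) (.nx 754 832257
  (.nr 753 1048577 (.nr 747 157 .s1 (.nx 748 257 (.l1 (.ls 61 19 423)) (.nr 752 741457 (.nr 750
  16385 (.lg 0 true 2 73 73 17 0 144) (.nx 751 13005 (.lg 0 true 1 73 73 16 0 144) .out)) .out)))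
  .out) .out)))) (.na 774 168 (.na 763 163 (.nx 762 832257 (.nr 761 1048577 (.nr 756 162 .s1 (.nx
  757 257 (.l1 (.ls 61 31 410)) (.nr 760 741457 (.nr 758 16385 (.lg 0 false 1 79 79 23 0 144) (.nx
  759 13005 (.lg 0 true 1 79 79 23 0 1008) .out)) .out))) .out) .out) (.na 764 167 (.lg 0 false 1 0
  0 16 0 24) (.nx 773 832257 (.nr 772 1048577 (.nr 765 167 .s1 (.nx 766 257 (.l1 (.ls 53 19 398))
  (.nr 771 741457 (.nr 768 16385 (.lg 0 false 2 71 71 16 0 1008) (.nx 770 13005 (.lg 0 true 2 67 67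
  16 0 144) .out)) .out))) .out) .out))) (.na 794 173 (.na 784 171 (.nx 783 832257 (.nr 782 1048577
  (.nr 775 168 .s1 (.nx 780 104033 (.nx 776 257 (.l1 (.ls 79 37 396)) (.nr 779 741457 (.nx 777
  13005 (.lg 0 false 1 83 89 41 0 1008) (.nr 778 16385 (.lg 0 true 1 73 83 41 0 1008) .out)) .out))
  (.nr 781 1025 (.lg 0 true 1 71 73 41 0 1008) .out))) .out) .out) (.nx 793 832257 (.nr 792 1048577
  (.nr 785 171 .s1 (.nx 788 13005 (.nx 786 257 (.l1 (.ls 71 29 389)) (.nr 787 741457 (.lg 0 false 1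
  79 79 17 0 72) .out)) (.nr 791 16385 (.nx 789 104033 (.lg 0 true 1 71 71 17 0 72) (.nr 790 1025
  (.lg 0 true 1 61 61 17 0 72) .out)) .out))) .out) .out)) (.na 802 174 (.nx 801 832257 (.nr 800
  1048577 (.nr 795 173 .s1 (.nx 796 257 (.l1 (.ls 59 19 384)) (.nr 799 741457 (.nr 797 16385 (.lg 0
  false 1 73 73 16 0 72) (.nx 798 13005 (.lg 0 true 1 73 73 16 0 72) .out)) .out))) .out) .out)
  (.nx 811 832257 (.nr 810 1048577 (.nr 803 174 .s1 (.nx 808 104033 (.nx 806 13005 (.nx 804 257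
  (.l1 (.ls 73 37 382)) (.nr 805 741457 (.lg 0 true 1 89 89 23 0 5040) .out)) (.nr 807 16385 (.lg 0
  true 1 73 73 23 0 144) .out)) (.nr 809 1025 (.lg 0 true 1 67 67 23 0 144) .out))) .out) .out)))))
  (.na 867 188 (.na 838 181 (.na 822 178 (.nx 821 832257 (.nr 820 1048577 (.nr 813 176 .s1 (.nx 814
  257 (.l1 (.ls 79 31 378)) (.nr 819 741457 (.nx 815 13005 (.lg 0 false 1 97 97 31 0 55440) (.nr
  818 16385 (.nx 816 104033 (.lg 0 true 1 83 83 31 0 55440) (.nr 817 1025 (.lg 0 true 1 73 73 31 0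
  1584) .out)) .out)) .out))) .out) .out) (.na 830 179 (.nx 829 832257 (.nr 828 1048577 (.nr 823
  178 .s1 (.nx 824 257 (.l1 (.ls 59 29 374)) (.nr 827 741457 (.nr 825 16385 (.lg 0 false 1 73 73 19
  0 144) (.nx 826 13005 (.lg 0 true 1 73 73 19 0 144) .out)) .out))) .out) .out) (.nx 837 832257
  (.nr 836 1048577 (.nr 831 179 .s1 (.nx 832 257 (.l1 (.ls 61 19 371)) (.nr 835 741457 (.nr 833
  16385 (.lg 0 false 1 79 79 16 0 720) (.nx 834 13005 (.lg 0 true 1 73 73 16 0 72) .out)) .out)))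
  .out) .out))) (.na 847 183 (.na 846 182 (.nx 845 832257 (.nr 844 1048577 (.nr 839 181 .s1 (.nx
  840 257 (.l1 (.ls 83 19 367)) (.nr 843 741457 (.nr 841 16385 (.lg 0 false 1 83 83 16 0 5040) (.nx
  842 13005 (.lg 0 true 1 79 79 16 0 72) .out)) .out))) .out) .out) .ne) (.na 857 186 (.nx 856
  832257 (.nr 855 1048577 (.nr 848 183 .s1 (.nx 849 257 (.l1 (.ls 59 23 363)) (.nr 854 741457 (.nx
  852 104033 (.nx 850 13005 (.lg 0 false 1 79 79 19 0 72) (.nr 851 16385 (.lg 0 true 1 71 71 19 0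
  72) .out)) (.nr 853 1025 (.lg 0 true 1 61 61 19 0 72) .out)) .out))) .out) .out) (.nx 866 832257
  (.nr 865 1048577 (.nr 858 186 .s1 (.nx 861 13005 (.nx 859 257 (.l1 (.ls 73 37 358)) (.nr 860
  741457 (.lg 0 true 1 83 83 29 0 720) .out)) (.nr 864 16385 (.nx 862 104033 (.lg 0 true 1 73 73 29
  0 720) (.nr 863 1025 (.lg 0 true 1 67 67 29 0 144) .out)) .out))) .out) .out)))) (.na 895 192
  (.na 877 189 (.nx 876 832257 (.nr 875 1048577 (.nr 868 188 .s1 (.nx 869 257 (.l1 (.ls 71 29 354))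
  (.nr 874 741457 (.nx 872 104033 (.nx 870 13005 (.lg 0 false 1 83 83 23 0 1008) (.nr 871 16385
  (.lg 0 true 1 73 73 23 0 1008) .out)) (.nr 873 1025 (.lg 0 true 1 67 67 23 0 144) .out)) .out)))
  .out) .out) (.na 887 191 (.nx 886 832257 (.nr 885 1048577 (.nr 878 189 .s1 (.nx 879 257 (.l1 (.ls
  71 29 352)) (.nr 884 741457 (.nx 880 13945 (.lg 0 false 1 79 79 23 0 504) (.nr 883 16385 (.nr 881
  1025 (.lg 0 true 1 61 61 23 0 504) (.nx 882 104033 (.lg 2 true 1 59 59 23 16552 504) .out))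
  .out)) .out))) .out) .out) (.nx 894 832257 (.nr 893 1048577 (.nr 888 191 .s1 (.nx 889 257 (.l1
  (.ls 73 19 348)) (.nr 892 741457 (.nr 890 16385 (.lg 0 false 1 79 79 16 0 72) (.nx 891 13005 (.lg
  0 true 1 73 73 16 0 72) .out)) .out))) .out) .out))) (.na 906 194 (.na 905 193 (.nx 904 832257
  (.nr 903 1048577 (.nr 896 192 .s1 (.nx 899 13005 (.nx 897 257 (.l1 (.ls 71 31 347)) (.nr 898
  741457 (.lg 0 false 1 79 83 31 0 144) .out)) (.nr 902 16385 (.nx 900 104033 (.lg 0 true 1 71 73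
  31 0 144) (.nr 901 1025 (.lg 0 true 1 67 67 31 0 144) .out)) .out))) .out) .out) (.lg 0 false 1 0
  0 16 0 24)) (.na 914 196 (.nx 913 832257 (.nr 912 1048577 (.nr 907 194 .s1 (.nx 908 257 (.l1 (.ls
  73 29 343)) (.nr 911 741457 (.nr 909 16385 (.lg 0 false 1 79 79 19 0 144) (.nx 910 13005 (.lg 0
  true 1 79 79 19 0 144) .out)) .out))) .out) .out) (.nx 923 832257 (.nr 922 1048577 (.nr 915 196
  .s1 (.nx 918 13945 (.nx 916 257 (.l1 (.ls 71 31 339)) (.nr 917 741457 (.lg 0 true 1 83 83 29 0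
  5040) .out)) (.nr 921 16385 (.nr 919 1025 (.lg 0 true 1 61 61 29 0 1008) (.nx 920 104033 (.lg 2
  true 1 61 61 29 16552 1008) .out)) .out))) .out) .out)))))) (.na 1028 229 (.na 971 214 (.na 943
  203 (.na 925 198 (.lg 0 false 1 0 0 16 0 24) (.na 935 199 (.nx 934 832257 (.nr 933 1048577 (.nr
  926 198 .s1 (.nx 929 13945 (.nx 927 257 (.l1 (.ls 71 37 336)) (.nr 928 741457 (.lg 0 false 1 79
  79 31 0 1584) .out)) (.nr 932 16385 (.nr 930 1025 (.lg 0 true 1 61 61 31 0 1584) (.nx 931 104033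
  (.lg 2 true 1 61 61 31 16552 1584) .out)) .out))) .out) .out) (.nx 942 832257 (.nr 941 1048577
  (.nr 936 199 .s1 (.nx 937 257 (.l1 (.ls 61 19 334)) (.nr 940 741457 (.nr 938 16385 (.lg 0 false 1
  73 73 16 0 72) (.nx 939 13005 (.lg 0 true 1 73 73 16 0 720) .out)) .out))) .out) .out))) (.na 953
  209 (.nx 952 832257 (.nr 951 1048577 (.nr 944 203 .s1 (.nx 949 104033 (.nx 947 13005 (.nx 945 257
  (.l1 (.ls 71 23 328)) (.nr 946 741457 (.lg 0 false 1 79 79 19 0 504) .out)) (.nr 948 16385 (.lg 0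
  true 1 71 71 19 0 504) .out)) (.nr 950 1025 (.lg 0 true 1 61 61 19 0 504) .out))) .out) .out)
  (.na 963 211 (.nx 962 832257 (.nr 961 1048577 (.nr 954 209 .s1 (.nx 957 13945 (.nx 955 257 (.l1
  (.ls 79 29 319)) (.nr 956 741457 (.lg 0 true 1 89 89 17 0 55440) .out)) (.nr 960 16385 (.nr 958
  1025 (.lg 0 true 1 67 67 17 0 792) (.nx 959 104033 (.lg 2 false 1 61 61 17 16552 792) .out))
  .out))) .out) .out) (.nx 970 832257 (.nr 969 1048577 (.nr 964 211 .s1 (.nx 967 13005 (.nx 965 257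
  (.l1 (.ls 73 19 316)) (.nr 966 741457 (.lg 0 true 1 73 73 16 0 72) .out)) (.nr 968 16385 (.lg 0
  false 1 73 73 16 0 72) .out))) .out) .out)))) (.na 999 223 (.na 979 216 (.nx 978 832257 (.nr 977
  1048577 (.nr 972 214 .s1 (.nx 973 257 (.l1 (.ls 67 29 311)) (.nr 976 741457 (.nx 974 13005 (.lg 0
  true 1 73 73 23 0 144) (.nr 975 16385 (.lg 0 false 1 79 79 23 0 720) .out)) .out))) .out) .out)
  (.na 989 217 (.nx 988 832257 (.nr 987 1048577 (.nr 980 216 .s1 (.nx 983 13005 (.nx 981 257 (.l1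
  (.ls 79 31 308)) (.nr 982 741457 (.lg 0 false 1 89 89 31 0 55440) .out)) (.nr 986 16385 (.nx 984
  104033 (.lg 0 true 1 79 79 31 0 55440) (.nr 985 1025 (.lg 0 true 1 67 71 31 0 144) .out)) .out)))
  .out) .out) (.nx 998 832257 (.nr 997 1048577 (.nr 990 217 .s1 (.nx 993 13945 (.nx 991 257 (.l1
  (.ls 71 23 307)) (.nr 992 741457 (.lg 0 false 1 79 79 19 0 504) .out)) (.nr 996 16385 (.nr 994
  1025 (.lg 0 true 1 61 61 19 0 504) (.nx 995 104033 (.lg 2 false 1 61 61 19 16552 1008) .out))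
  .out))) .out) .out))) (.na 1017 227 (.na 1007 224 (.nx 1006 832257 (.nr 1005 1048577 (.nr 1000
  223 .s1 (.nx 1001 257 (.l1 (.ls 59 19 299)) (.nr 1004 741457 (.nr 1002 16385 (.lg 0 false 1 73 73
  16 0 1008) (.nx 1003 13005 (.lg 0 true 1 71 71 16 0 72) .out)) .out))) .out) .out) (.nx 1016
  832257 (.nr 1015 1048577 (.nr 1008 224 .s1 (.nx 1013 104033 (.nx 1011 13005 (.nx 1009 257 (.l1
  (.ls 79 31 297)) (.nr 1010 741457 (.lg 0 false 1 89 89 31 0 55440) .out)) (.nr 1012 16385 (.lg 0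
  true 1 79 79 31 0 55440) .out)) (.nr 1014 1025 (.lg 0 true 1 67 71 31 0 1008) .out))) .out)
  .out)) (.na 1018 228 (.lg 0 false 1 0 0 16 0 24) (.nx 1027 832257 (.nr 1026 1048577 (.nr 1019 228
  .s1 (.nx 1024 104033 (.nx 1020 257 (.l1 (.ls 73 37 292)) (.nr 1023 741457 (.nx 1021 13005 (.lg 0
  false 1 83 83 37 0 144) (.nr 1022 16385 (.lg 0 true 1 71 73 37 0 144) .out)) .out)) (.nr 1025
  1025 (.lg 0 true 1 67 67 37 0 144) .out))) .out) .out))))) (.na 1081 243 (.na 1056 233 (.na 1036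
  231 (.nx 1035 832257 (.nr 1034 1048577 (.nr 1029 229 .s1 (.nx 1032 13005 (.nx 1030 257 (.l1 (.ls
  73 19 291)) (.nr 1031 741457 (.lg 0 true 1 73 73 17 0 72) .out)) (.nr 1033 16385 (.lg 0 false 1
  73 73 17 0 72) .out))) .out) .out) (.na 1046 232 (.nx 1045 832257 (.nr 1044 1048577 (.nr 1037 231
  .s1 (.nx 1038 257 (.l1 (.ls 79 31 288)) (.nr 1043 741457 (.nx 1039 13005 (.lg 0 false 1 89 89 31
  0 55440) (.nr 1042 16385 (.nx 1040 104033 (.lg 0 true 1 79 79 31 0 55440) (.nr 1041 1025 (.lg 0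
  true 1 67 71 31 0 5544) .out)) .out)) .out))) .out) .out) (.nx 1055 832257 (.nr 1054 1048577 (.nr
  1047 232 .s1 (.nx 1050 13005 (.nx 1048 257 (.l1 (.ls 73 23 287)) (.nr 1049 741457 (.lg 0 false 1
  83 83 23 0 1008) .out)) (.nr 1053 16385 (.nx 1051 104033 (.lg 0 true 1 73 73 23 0 1008) (.nr 1052
  1025 (.lg 0 true 1 67 67 23 0 144) .out)) .out))) .out) .out))) (.na 1072 241 (.na 1064 239 (.nx
  1063 832257 (.nr 1062 1048577 (.nr 1057 233 .s1 (.nx 1058 257 (.l1 (.ls 59 19 286)) (.nr 1061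
  741457 (.nr 1059 16385 (.lg 0 false 1 73 73 17 0 1008) (.nx 1060 13005 (.lg 0 true 1 71 71 17 0
  72) .out)) .out))) .out) .out) (.nx 1071 832257 (.nr 1070 1048577 (.nr 1065 239 .s1 (.nx 1066 257
  (.l1 (.ls 73 19 279)) (.nr 1069 741457 (.nr 1067 16385 (.lg 0 false 1 73 73 17 0 72) (.nx 1068
  13005 (.lg 0 true 1 73 73 17 0 72) .out)) .out))) .out) .out)) (.na 1073 242 (.lg 0 false 1 0 0
  16 0 24) (.nx 1080 832257 (.nr 1079 1048577 (.nr 1074 242 .s1 (.nx 1075 257 (.l1 (.ls 61 31 275))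
  (.nr 1078 741457 (.nr 1076 16385 (.lg 0 false 1 73 73 29 0 1584) (.nx 1077 13005 (.lg 0 true 1 73
  73 29 0 1584) .out)) .out))) .out) .out)))) (.na 1109 251 (.na 1089 244 (.nx 1088 832257 (.nr
  1087 1048577 (.nr 1082 243 .s1 (.nx 1083 257 (.l1 (.ls 59 23 274)) (.nr 1086 741457 (.nr 1084
  16385 (.lg 0 false 1 71 71 19 0 72) (.nx 1085 13005 (.lg 0 true 1 71 71 19 0 72) .out)) .out)))
  .out) .out) (.na 1099 248 (.nx 1098 832257 (.nr 1097 1048577 (.nr 1090 244 .s1 (.nx 1091 257 (.l1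
  (.ls 59 29 273)) (.nr 1096 741457 (.nx 1092 13945 (.lg 0 false 1 79 79 23 0 144) (.nr 1095 16385
  (.nr 1093 1025 (.lg 0 true 1 61 61 23 0 144) (.nx 1094 104033 (.lg 2 false 1 59 59 23 16552 144)
  .out)) .out)) .out))) .out) .out) (.nx 1108 832257 (.nr 1107 1048577 (.nr 1100 248 .s1 (.nx 1105
  104033 (.nx 1101 257 (.l1 (.ls 73 29 269)) (.nr 1104 741457 (.nx 1102 13005 (.lg 0 false 1 83 83
  29 0 144) (.nr 1103 16385 (.lg 0 true 1 71 73 29 0 144) .out)) .out)) (.nr 1106 1025 (.lg 0 true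
  1 67 67 29 0 144) .out))) .out) .out))) (.na 1127 254 (.na 1117 252 (.nx 1116 832257 (.nr 1115
  1048577 (.nr 1110 251 .s1 (.nx 1111 257 (.l1 (.ls 71 19 266)) (.nr 1114 741457 (.nr 1112 16385
  (.lg 0 false 1 73 73 17 0 72) (.nx 1113 13005 (.lg 0 true 1 71 71 17 0 72) .out)) .out))) .out)
  .out) (.nx 1126 832257 (.nr 1125 1048577 (.nr 1118 252 .s1 (.nx 1123 104033 (.nx 1119 257 (.l1
  (.ls 71 37 265)) (.nr 1122 741457 (.nx 1120 13005 (.lg 0 false 1 79 83 37 0 1008) (.nr 1121 16385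
  (.lg 0 true 1 71 73 37 0 1008) .out)) .out)) (.nr 1124 1025 (.lg 0 true 1 61 67 37 0 1008)
  .out))) .out) .out)) (.na 1135 256 (.nx 1134 832257 (.nr 1133 1048577 (.nr 1128 254 .s1 (.nx 1129
  257 (.l1 (.ls 67 29 263)) (.nr 1132 741457 (.nr 1130 16385 (.lg 0 false 1 73 73 23 0 144) (.nx
  1131 13005 (.lg 0 true 1 73 73 23 0 144) .out)) .out))) .out) .out) (.nx 1144 832257 (.nr 1143
  1482912 (.nr 1136 256 .s1 (.nx 1137 205 (.l1 (.ls 71 23 167)) (.nr 1142 1048577 (.nx 1138 13005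
  (.lg 0 false 1 73 73 29 0 144) (.nr 1141 32769 (.nx 1139 104033 (.lg 0 true 1 71 71 29 0 720)
  (.nr 1140 2049 (.lg 0 true 1 61 61 29 0 144) .out)) .out)) .out))) .out) .out))))))))

def T130_2 : Ph :=
  (.na 531 8 (.na 347 4 (.na 207 2 (.nx 206 1321124 (.nr 205 311745 (.nx 3 104 (.nx 2 103 (.nr 1 11
  (.lg 0 true 1 31 31 5 0 2472) (.l1 .sk)) (.l1 .sk)) (.nr 184 46342 (.nx 58 8848 (.lg 0 false 55
  83 89 16 0 1903440) (.nr 183 38969 (.nx 162 660563 (.nx 141 330282 (.nr 93 432 (.lg 0 true 35 79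
  79 13 0 86520) (.nx 108 16385 (.lg 1 false 15 97 101 9 23426 519120) (.nr 140 27556 (.nr 119 1219
  (.lg 2 true 11 79 79 9 39374 27192) (.nx 139 208065 (.lg 2 false 20 89 97 11 8955 173040) .out))
  .out))) (.nr 161 109 (.lg 0 true 20 73 73 11 0 24720) .out)) (.nr 182 13 (.lg 0 true 20 67 67 9 0
  24720) .out)) .out)) (.nx 204 205 (.lg 0 false 20 73 73 11 0 24720) .out))) .out) .out) (.na 346
  3 (.nx 345 3329023 (.nr 344 623489 (.nx 210 104 (.nx 209 103 (.nr 208 20 (.lg 0 true 1 31 31 5 0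
  4944) (.l1 .sk)) (.l1 .sk)) (.nr 330 77937 (.nx 311 1321124 (.nr 307 65537 (.nx 231 14045 (.lg 0
  false 21 89 97 11 0 519120) (.nr 264 257 (.lg 0 true 33 83 83 13 0 815760) (.nx 306 165142 (.nx
  275 20644 (.lg 1 false 11 89 97 9 24792 815760) (.nr 305 46342 (.nx 286 41287 (.lg 1 true 11 97
  97 9 11935 815760) (.nr 304 32769 (.nr 293 2276 (.lg 2 true 7 83 83 9 33093 173040) (.lg 2 false
  11 83 89 9 4224 271920)) .out)) .out)) .out))) (.nx 310 1292 (.lg 0 true 3 79 79 7 0 74160)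
  .out)) (.nr 329 9 (.lg 0 true 18 67 67 9 0 14832) .out)) (.nx 343 205 (.lg 0 false 13 73 73 9 0
  64272) .out))) .out) .out) .ne)) (.na 466 5 (.nx 465 10568985 (.nr 464 1246976 (.nx 433 1321124
  (.nx 417 330282 (.nx 350 104 (.nx 349 103 (.nr 348 35 (.lg 0 true 1 29 29 9 0 34608) (.l1 .sk))
  (.l1 .sk)) (.nr 400 65537 (.nx 365 20642 (.lg 0 false 15 89 97 13 0 519120) (.nr 380 694 (.lg 0
  true 15 79 83 13 0 519120) (.nx 385 41287 (.lg 1 true 5 103 107 11 16869 74234160) (.nr 399 55110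
  (.nr 390 2635 (.lg 2 true 5 79 83 11 24510 173040) (.lg 2 false 9 97 107 13 7094 74234160))
  .out)))) (.nx 416 1292 (.nr 405 155873 (.lg 0 false 5 83 89 11 0 173040) (.nx 415 205 (.lg 0
  false 10 79 79 13 0 24720) .out)) .out))) (.nr 432 183 (.lg 0 true 15 79 79 13 0 74160) .out))
  (.nr 463 21 (.lg 0 true 30 79 79 11 0 74160) .out)) .out) .out) (.na 467 7 .ne (.nx 530 10568985
  (.nr 529 262145 (.nx 469 103 (.nr 468 57 (.lg 0 true 1 31 31 9 0 519120) (.l1 .sk)) (.nx 470 104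
  (.l1 .sk) (.nx 479 10321 (.nr 474 55110 (.lg 0 true 4 97 97 13 0 519120) (.nx 478 408 (.lg 0
  false 4 73 73 13 0 34608) .out)) (.nr 528 65537 (.nr 516 596 (.nx 491 1321124 (.lg 0 true 12 83
  83 16 0 103824) (.nr 515 47 (.lg 0 true 24 79 79 16 0 103824) .out)) (.nx 527 262145 (.nx 520
  32769 (.lg 1 false 4 97 101 13 33738 519120) (.nr 526 55110 (.nr 522 2267 (.lg 2 false 2 79 79 11
  22652 173040) (.lg 2 false 4 89 97 13 8938 173040)) .out)) .out)) .out)))) .out) .out)))) (.na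
  633 14 (.na 600 9 (.nx 599 10568985 (.nr 598 623489 (.nx 534 104 (.nx 533 103 (.nr 532 64 (.lg 0
  true 1 31 31 11 0 173040) (.l1 .sk)) (.l1 .sk)) (.nr 594 220437 (.nr 590 77937 (.nx 541 9411 (.lg
  0 false 7 83 89 13 0 173040) (.nr 589 65537 (.nx 567 1321124 (.nx 563 660563 (.nr 548 364 (.lg 0
  true 7 79 79 13 0 173040) (.nx 562 208065 (.nx 551 19712 (.lg 1 false 3 97 101 13 37000 519120)
  (.nx 554 41287 (.lg 1 true 3 97 101 13 17665 519120) (.nr 561 46342 (.nr 558 32769 (.nr 556 2504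
  (.lg 2 true 2 83 83 11 29438 173040) (.lg 2 false 2 89 89 11 4280 173040)) (.nx 560 165142 (.lg 2
  false 2 83 89 11 5968 173040) .out)) .out))) .out)) (.nr 566 109 (.lg 0 true 3 73 73 13 0 14832)
  .out)) (.nr 588 55 (.lg 0 true 21 79 83 13 0 519120) .out)) .out)) (.nx 593 814 (.lg 0 false 3 83
  89 13 0 519120) .out)) (.nx 597 408 (.lg 0 false 3 83 83 13 0 14832) .out))) .out) .out) (.na 601
  13 .ne (.nx 632 1321124 (.nr 631 623489 (.nr 602 9 .s1 (.nx 606 324 (.nx 604 103 (.nr 603 101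
  (.lg 0 true 1 23 23 9 0 2249520) (.l1 .sk)) (.nx 605 104 (.l1 .sk) (.l1 (.ls 83 41 7246)))) (.nr
  630 220437 (.nx 624 330282 (.nx 614 20644 (.nr 610 92683 (.lg 0 false 4 97 97 16 0 2249520) (.nx
  613 814 (.lg 0 false 3 71 71 11 0 96408) .out)) (.nr 623 55110 (.nr 618 766 (.lg 0 true 4 73 73
  16 0 64272) (.nx 622 165142 (.lg 2 false 4 89 89 16 14188 2249520) .out)) .out)) (.nr 629 65 (.lg
  0 true 5 61 61 16 0 160680) .out)) .out))) .out) .out))) (.na 699 17 (.na 666 16 (.nx 665 1321124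
  (.nr 664 623489 (.nr 634 10 .s1 (.nx 636 103 (.nr 635 115 (.lg 0 false 1 19 19 11 0 34608) (.l1
  .sk)) (.nx 637 104 (.l1 .sk) (.nx 658 330282 (.nx 646 20644 (.nx 638 324 (.l1 (.ls 79 47 6728))
  (.nr 645 220437 (.nr 643 92683 (.lg 0 false 5 83 89 13 0 173040) (.nx 644 814 (.lg 0 true 1 73 73
  11 0 34608) .out)) .out)) (.nr 657 55110 (.nr 651 766 (.lg 0 true 5 71 71 13 0 173040) (.nx 656
  165142 (.lg 2 false 5 79 83 13 14188 173040) .out)) .out)) (.nr 663 65 (.lg 0 true 5 61 61 13 0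
  173040) .out))))) .out) .out) (.nx 698 1321124 (.nr 697 1048577 (.nr 667 13 .s1 (.nx 691 165142
  (.nx 669 103 (.nr 668 122 (.lg 0 false 1 23 23 11 0 14832) (.l1 .sk)) (.nx 670 104 (.l1 .sk) (.nx
  671 205 (.l1 (.ls 83 37 1953)) (.nr 690 623489 (.nx 680 11148 (.nx 672 324 (.l1 (.ls 79 41 3937))
  (.nr 679 220437 (.nr 677 131073 (.lg 0 false 5 83 89 17 0 74160) (.nx 678 814 (.lg 0 false 1 71
  71 11 0 4944) .out)) .out)) (.nr 689 65537 (.nr 683 1569 (.lg 0 true 3 73 73 13 0 14832) (.nx 686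
  26009 (.lg 1 false 3 79 83 13 31235 14832) (.nr 688 46342 (.lg 2 false 2 83 83 13 9473 4944)
  .out))) .out)) .out)))) (.nr 696 183 (.lg 0 true 5 71 71 17 0 24720) .out))) .out) .out)) (.na
  726 19 (.nx 725 1321124 (.nr 724 1048577 (.nr 700 14 .s1 (.nx 704 205 (.nx 702 103 (.nr 701 137
  (.lg 0 false 1 23 23 11 0 173040) (.l1 .sk)) (.nx 703 104 (.l1 .sk) (.l1 (.ls 79 31 1838)))) (.nr
  723 623489 (.nx 712 16385 (.nx 705 324 (.l1 (.ls 79 37 3706)) (.nr 711 220437 (.nr 709 131073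
  (.lg 0 false 4 89 89 16 0 173040) (.nx 710 814 (.lg 0 true 1 73 73 11 0 2472) .out)) .out)) (.nr
  722 46342 (.nr 717 498 (.lg 0 true 5 73 73 16 0 12360) (.nx 721 165142 (.lg 2 false 4 83 89 16
  17078 173040) .out)) .out)) .out))) .out) .out) (.nx 753 1321124 (.nr 752 1048577 (.nr 727 17 .s1
  (.nx 731 205 (.nx 729 103 (.nr 728 166 (.lg 0 false 1 17 17 11 0 4944) (.l1 .sk)) (.nx 730 104
  (.l1 .sk) (.l1 (.ls 73 31 1645)))) (.nr 751 623489 (.nx 732 324 (.l1 (.ls 73 37 3316)) (.nr 750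
  220437 (.nx 739 16385 (.nr 737 131073 (.lg 0 false 5 83 83 16 0 12360) (.nx 738 814 (.lg 0 true 1
  67 67 11 0 2472) .out)) (.nr 749 46342 (.nr 744 498 (.lg 0 true 5 71 71 16 0 12360) (.nx 748
  165142 (.lg 2 false 4 79 79 16 17078 4944) .out)) .out)) .out)) .out))) .out) .out)))))

theorem c130 :
    OkQ ckI L8 155 1 1099511627776 0 34359738368 1 1099511627776 ∧
    OkQ ckI L8 167 33 257 0 34359738368 1 1099511627776 ∧
    OkQ ckI L6 103 1 23 0 34359738368 1 1099511627776 := by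
  refine ⟨?_, ?_, ?_⟩
  · refine fin 11160 15353 T130_0 ?_
    refine jn 9 (by decide +kernel) ?_
    refine jn 12 (by decide +kernel) ?_
    refine jn 18 (by decide +kernel) ?_
    refine jn 23 (by decide +kernel) ?_
    refine jn 28 (by decide +kernel) ?_
    refine jn 35 (by decide +kernel) ?_
    refine jn 43 (by decide +kernel) ?_
    refine jn 46 (by decide +kernel) ?_
    refine jn 57 (by decide +kernel) ?_
    refine jn 79 (by decide +kernel) ?_
    refine jn 100 (by decide +kernel) ?_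
    refine jn 121 (by decide +kernel) ?_
    refine jn 142 (by decide +kernel) ?_
    refine jn 167 (by decide +kernel) ?_
    refine jn 201 (by decide +kernel) ?_
    refine jn 209 (by decide +kernel) ?_
    refine jn 210 (by decide +kernel) ?_
    refine jn 212 (by decide +kernel) ?_
    refine jn 214 (by decide +kernel) ?_
    refine jn 216 (by decide +kernel) ?_
    refine jn 218 (by decide +kernel) ?_
    refine jn 219 (by decide +kernel) ?_
    refine jn 220 (by decide +kernel) ?_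
    refine jn 229 (by decide +kernel) ?_
    refine jn 234 (by decide +kernel) ?_
    refine jn 237 (by decide +kernel) ?_
    refine jn 240 (by decide +kernel) ?_
    refine jn 242 (by decide +kernel) ?_
    refine jn 249 (by decide +kernel) ?_
    refine jn 257 (by decide +kernel) ?_
    refine jn 268 (by decide +kernel) ?_
    refine jn 276 (by decide +kernel) ?_
    refine jn 283 (by decide +kernel) ?_
    refine jn 294 (by decide +kernel) ?_
    refine jn 301 (by decide +kernel) ?_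
    refine jn 332 (by decide +kernel) ?_
    refine jn 340 (by decide +kernel) ?_
    refine jn 351 (by decide +kernel) ?_
    refine jn 362 (by decide +kernel) ?_
    refine jn 385 (by decide +kernel) ?_
    refine jn 394 (by decide +kernel) ?_
    refine jn 396 (by decide +kernel) ?_
    refine jn 398 (by decide +kernel) ?_
    refine jn 400 (by decide +kernel) ?_
    refine jn 405 (by decide +kernel) ?_
    refine jn 413 (by decide +kernel) ?_
    refine jn 414 (by decide +kernel) ?_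
    refine jn 415 (by decide +kernel) ?_
    refine jn 416 (by decide +kernel) ?_
    refine jn 417 (by decide +kernel) ?_
    refine jn 418 (by decide +kernel) ?_
    refine jn 419 (by decide +kernel) ?_
    refine jn 420 (by decide +kernel) ?_
    refine jn 421 (by decide +kernel) ?_
    refine jn 431 (by decide +kernel) ?_
    refine jn 443 (by decide +kernel) ?_
    refine jn 450 (by decide +kernel) ?_
    refine jn 457 (by decide +kernel) ?_
    refine jn 464 (by decide +kernel) ?_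
    refine jn 474 (by decide +kernel) ?_
    refine jn 481 (by decide +kernel) ?_
    refine jn 488 (by decide +kernel) ?_
    refine jn 495 (by decide +kernel) ?_
    refine jn 513 (by decide +kernel) ?_
    refine jn 519 (by decide +kernel) ?_
    refine jn 533 (by decide +kernel) ?_
    refine jn 540 (by decide +kernel) ?_
    refine jn 553 (by decide +kernel) ?_
    refine jn 558 (by decide +kernel) ?_
    refine jn 573 (by decide +kernel) ?_
    refine jn 578 (by decide +kernel) ?_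
    refine jn 597 (by decide +kernel) ?_
    refine jn 612 (by decide +kernel) ?_
    refine jn 621 (by decide +kernel) ?_
    refine jn 622 (by decide +kernel) ?_
    refine jn 623 (by decide +kernel) ?_
    refine jn 624 (by decide +kernel) ?_
    refine jn 625 (by decide +kernel) ?_
    refine jn 638 (by decide +kernel) ?_
    refine jn 653 (by decide +kernel) ?_
    refine jn 666 (by decide +kernel) ?_
    refine jn 679 (by decide +kernel) ?_
    refine jn 683 (by decide +kernel) ?_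
    refine jn 695 (by decide +kernel) ?_
    refine jn 706 (by decide +kernel) ?_
    refine jn 721 (by decide +kernel) ?_
    refine jn 733 (by decide +kernel) ?_
    refine jn 743 (by decide +kernel) ?_
    refine jn 753 (by decide +kernel) ?_
    refine jn 765 (by decide +kernel) ?_
    refine jn 775 (by decide +kernel) ?_
    refine jn 791 (by decide +kernel) ?_
    refine jn 801 (by decide +kernel) ?_
    refine jn 817 (by decide +kernel) ?_
    refine jn 832 (by decide +kernel) ?_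
    refine jn 842 (by decide +kernel) ?_
    refine jn 852 (by decide +kernel) ?_
    refine jn 862 (by decide +kernel) ?_
    refine jn 872 (by decide +kernel) ?_
    refine jn 1003 (by decide +kernel) ?_
    refine jn 1115 (by decide +kernel) ?_
    refine jn 1185 (by decide +kernel) ?_
    refine jn 1197 (by decide +kernel) ?_
    refine jn 1229 (by decide +kernel) ?_
    refine jn 1245 (by decide +kernel) ?_
    refine jn 1265 (by decide +kernel) ?_
    refine jn 1281 (by decide +kernel) ?_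
    refine jn 1309 (by decide +kernel) ?_
    refine jn 1321 (by decide +kernel) ?_
    refine jn 1341 (by decide +kernel) ?_
    refine jn 1353 (by decide +kernel) ?_
    refine jn 1365 (by decide +kernel) ?_
    refine jn 1373 (by decide +kernel) ?_
    refine jn 1421 (by decide +kernel) ?_
    refine jn 1437 (by decide +kernel) ?_
    refine jn 1444 (by decide +kernel) ?_
    refine jn 1480 (by decide +kernel) ?_
    refine jn 1500 (by decide +kernel) ?_
    refine jn 1524 (by decide +kernel) ?_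
    refine jn 1552 (by decide +kernel) ?_
    refine jn 1576 (by decide +kernel) ?_
    refine jn 1604 (by decide +kernel) ?_
    refine jn 1620 (by decide +kernel) ?_
    refine jn 1628 (by decide +kernel) ?_
    refine jn 1680 (by decide +kernel) ?_
    refine jn 1699 (by decide +kernel) ?_
    refine jn 1922 (by decide +kernel) ?_
    refine jn 1954 (by decide +kernel) ?_
    refine jn 1982 (by decide +kernel) ?_
    refine jn 1998 (by decide +kernel) ?_
    refine jn 2038 (by decide +kernel) ?_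
    refine jn 2058 (by decide +kernel) ?_
    refine jn 2082 (by decide +kernel) ?_
    refine jn 2094 (by decide +kernel) ?_
    refine jn 2110 (by decide +kernel) ?_
    refine jn 2135 (by decide +kernel) ?_
    refine jn 2175 (by decide +kernel) ?_
    refine jn 2203 (by decide +kernel) ?_
    refine jn 2227 (by decide +kernel) ?_
    refine jn 2259 (by decide +kernel) ?_
    refine jn 2295 (by decide +kernel) ?_
    refine jn 2307 (by decide +kernel) ?_
    refine jn 2323 (by decide +kernel) ?_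
    refine jn 2372 (by decide +kernel) ?_
    refine jn 2440 (by decide +kernel) ?_
    refine jn 2536 (by decide +kernel) ?_
    refine jn 2639 (by decide +kernel) ?_
    refine jn 2691 (by decide +kernel) ?_
    refine jn 2747 (by decide +kernel) ?_
    refine jn 2823 (by decide +kernel) ?_
    refine jn 2871 (by decide +kernel) ?_
    refine jn 2955 (by decide +kernel) ?_
    refine jn 3031 (by decide +kernel) ?_
    refine jn 3145 (by decide +kernel) ?_
    refine jn 3227 (by decide +kernel) ?_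
    refine jn 3307 (by decide +kernel) ?_
    refine jn 3400 (by decide +kernel) ?_
    refine jn 3484 (by decide +kernel) ?_
    refine jn 3568 (by decide +kernel) ?_
    refine jn 3624 (by decide +kernel) ?_
    refine jn 3664 (by decide +kernel) ?_
    refine jn 3708 (by decide +kernel) ?_
    refine jn 3804 (by decide +kernel) ?_
    refine jn 3880 (by decide +kernel) ?_
    refine jn 4004 (by decide +kernel) ?_
    refine jn 4112 (by decide +kernel) ?_
    refine jn 4236 (by decide +kernel) ?_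
    refine jn 4340 (by decide +kernel) ?_
    refine jn 4451 (by decide +kernel) ?_
    refine jn 4555 (by decide +kernel) ?_
    refine jn 4691 (by decide +kernel) ?_
    refine jn 4827 (by decide +kernel) ?_
    refine jn 4943 (by decide +kernel) ?_
    refine jn 5079 (by decide +kernel) ?_
    refine jn 5207 (by decide +kernel) ?_
    refine jn 5346 (by decide +kernel) ?_
    refine jn 5510 (by decide +kernel) ?_
    refine jn 5618 (by decide +kernel) ?_
    refine jn 5782 (by decide +kernel) ?_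
    refine jn 5938 (by decide +kernel) ?_
    refine jn 6122 (by decide +kernel) ?_
    refine jn 6238 (by decide +kernel) ?_
    refine jn 6406 (by decide +kernel) ?_
    refine jn 6569 (by decide +kernel) ?_
    refine jn 6741 (by decide +kernel) ?_
    refine jn 6909 (by decide +kernel) ?_
    refine jn 7053 (by decide +kernel) ?_
    refine jn 7253 (by decide +kernel) ?_
    refine jn 7419 (by decide +kernel) ?_
    refine jn 7581 (by decide +kernel) ?_
    refine jn 7757 (by decide +kernel) ?_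
    refine jn 7985 (by decide +kernel) ?_
    refine jn 8147 (by decide +kernel) ?_
    refine jn 8475 (by decide +kernel) ?_
    refine jn 8759 (by decide +kernel) ?_
    refine jn 9015 (by decide +kernel) ?_
    refine jn 9311 (by decide +kernel) ?_
    refine jn 9569 (by decide +kernel) ?_
    refine jn 9851 (by decide +kernel) ?_
    refine jn 10115 (by decide +kernel) ?_
    refine jn 10383 (by decide +kernel) ?_
    refine jn 10675 (by decide +kernel) ?_
    refine jn 11115 (by decide +kernel) ?_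
    refine jn 11284 (by decide +kernel) ?_
    refine jn 11400 (by decide +kernel) ?_
    refine jn 11519 (by decide +kernel) ?_
    refine jn 11614 (by decide +kernel) ?_
    refine jn 11688 (by decide +kernel) ?_
    refine jn 11760 (by decide +kernel) ?_
    refine jn 11826 (by decide +kernel) ?_
    refine jn 11881 (by decide +kernel) ?_
    refine jn 11941 (by decide +kernel) ?_
    refine jn 11995 (by decide +kernel) ?_
    refine jn 12488 (by decide +kernel) ?_
    refine jn 12707 (by decide +kernel) ?_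
    refine jn 12849 (by decide +kernel) ?_
    refine jn 12967 (by decide +kernel) ?_
    refine jn 13073 (by decide +kernel) ?_
    refine jn 13185 (by decide +kernel) ?_
    refine jn 13279 (by decide +kernel) ?_
    refine jn 13831 (by decide +kernel) ?_
    refine jn 14060 (by decide +kernel) ?_
    refine jn 14277 (by decide +kernel) ?_
    refine jn 14878 (by decide +kernel) ?_
    refine jn 15192 (by decide +kernel) ?_
    exact je (by decide +kernel)
  · refine fin 72 1145 T130_1 ?_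
    refine jn 5 (by decide +kernel) ?_
    refine jn 7 (by decide +kernel) ?_
    refine jn 9 (by decide +kernel) ?_
    refine jn 10 (by decide +kernel) ?_
    refine jn 13 (by decide +kernel) ?_
    refine jn 14 (by decide +kernel) ?_
    refine jn 17 (by decide +kernel) ?_
    refine jn 20 (by decide +kernel) ?_
    refine jn 30 (by decide +kernel) ?_
    refine jn 31 (by decide +kernel) ?_
    refine jn 32 (by decide +kernel) ?_
    refine jn 33 (by decide +kernel) ?_
    refine jn 37 (by decide +kernel) ?_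
    refine jn 42 (by decide +kernel) ?_
    refine jn 52 (by decide +kernel) ?_
    refine jn 59 (by decide +kernel) ?_
    refine jn 69 (by decide +kernel) ?_
    refine jn 71 (by decide +kernel) ?_
    refine jn 73 (by decide +kernel) ?_
    refine jn 75 (by decide +kernel) ?_
    refine jn 77 (by decide +kernel) ?_
    refine jn 78 (by decide +kernel) ?_
    refine jn 88 (by decide +kernel) ?_
    refine jn 90 (by decide +kernel) ?_
    refine jn 91 (by decide +kernel) ?_
    refine jn 94 (by decide +kernel) ?_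
    refine jn 96 (by decide +kernel) ?_
    refine jn 97 (by decide +kernel) ?_
    refine jn 105 (by decide +kernel) ?_
    refine jn 111 (by decide +kernel) ?_
    refine jn 116 (by decide +kernel) ?_
    refine jn 125 (by decide +kernel) ?_
    refine jn 126 (by decide +kernel) ?_
    refine jn 127 (by decide +kernel) ?_
    refine jn 128 (by decide +kernel) ?_
    refine jn 129 (by decide +kernel) ?_
    refine jn 130 (by decide +kernel) ?_
    refine jn 131 (by decide +kernel) ?_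
    refine jn 132 (by decide +kernel) ?_
    refine jn 133 (by decide +kernel) ?_
    refine jn 134 (by decide +kernel) ?_
    refine jn 137 (by decide +kernel) ?_
    refine jn 138 (by decide +kernel) ?_
    refine jn 139 (by decide +kernel) ?_
    refine jn 148 (by decide +kernel) ?_
    refine jn 153 (by decide +kernel) ?_
    refine jn 165 (by decide +kernel) ?_
    refine jn 171 (by decide +kernel) ?_
    refine jn 179 (by decide +kernel) ?_
    refine jn 180 (by decide +kernel) ?_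
    refine jn 181 (by decide +kernel) ?_
    refine jn 182 (by decide +kernel) ?_
    refine jn 183 (by decide +kernel) ?_
    refine jn 184 (by decide +kernel) ?_
    refine jn 185 (by decide +kernel) ?_
    refine jn 186 (by decide +kernel) ?_
    refine jn 187 (by decide +kernel) ?_
    refine jn 188 (by decide +kernel) ?_
    refine jn 189 (by decide +kernel) ?_
    refine jn 201 (by decide +kernel) ?_
    refine jn 204 (by decide +kernel) ?_
    refine jn 206 (by decide +kernel) ?_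
    refine jn 213 (by decide +kernel) ?_
    refine jn 219 (by decide +kernel) ?_
    refine jn 228 (by decide +kernel) ?_
    refine jn 237 (by decide +kernel) ?_
    refine jn 250 (by decide +kernel) ?_
    refine jn 260 (by decide +kernel) ?_
    refine jn 264 (by decide +kernel) ?_
    refine jn 266 (by decide +kernel) ?_
    refine jn 268 (by decide +kernel) ?_
    refine jn 275 (by decide +kernel) ?_
    refine jn 276 (by decide +kernel) ?_
    refine jn 279 (by decide +kernel) ?_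
    refine jn 282 (by decide +kernel) ?_
    refine jn 294 (by decide +kernel) ?_
    refine jn 296 (by decide +kernel) ?_
    refine jn 300 (by decide +kernel) ?_
    refine jn 306 (by decide +kernel) ?_
    refine jn 309 (by decide +kernel) ?_
    refine jn 310 (by decide +kernel) ?_
    refine jn 312 (by decide +kernel) ?_
    refine jn 313 (by decide +kernel) ?_
    refine jn 314 (by decide +kernel) ?_
    refine jn 315 (by decide +kernel) ?_
    refine jn 326 (by decide +kernel) ?_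
    refine jn 328 (by decide +kernel) ?_
    refine jn 337 (by decide +kernel) ?_
    refine jn 341 (by decide +kernel) ?_
    refine jn 344 (by decide +kernel) ?_
    refine jn 357 (by decide +kernel) ?_
    refine jn 366 (by decide +kernel) ?_
    refine jn 369 (by decide +kernel) ?_
    refine jn 370 (by decide +kernel) ?_
    refine jn 372 (by decide +kernel) ?_
    refine jn 375 (by decide +kernel) ?_
    refine jn 384 (by decide +kernel) ?_
    refine jn 387 (by decide +kernel) ?_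
    refine jn 395 (by decide +kernel) ?_
    refine jn 396 (by decide +kernel) ?_
    refine jn 397 (by decide +kernel) ?_
    refine jn 400 (by decide +kernel) ?_
    refine jn 415 (by decide +kernel) ?_
    refine jn 429 (by decide +kernel) ?_
    refine jn 432 (by decide +kernel) ?_
    refine jn 448 (by decide +kernel) ?_
    refine jn 455 (by decide +kernel) ?_
    refine jn 456 (by decide +kernel) ?_
    refine jn 457 (by decide +kernel) ?_
    refine jn 458 (by decide +kernel) ?_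
    refine jn 462 (by decide +kernel) ?_
    refine jn 477 (by decide +kernel) ?_
    refine jn 493 (by decide +kernel) ?_
    refine jn 503 (by decide +kernel) ?_
    refine jn 507 (by decide +kernel) ?_
    refine jn 522 (by decide +kernel) ?_
    refine jn 533 (by decide +kernel) ?_
    refine jn 543 (by decide +kernel) ?_
    refine jn 544 (by decide +kernel) ?_
    refine jn 547 (by decide +kernel) ?_
    refine jn 557 (by decide +kernel) ?_
    refine jn 562 (by decide +kernel) ?_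
    refine jn 572 (by decide +kernel) ?_
    refine jn 586 (by decide +kernel) ?_
    refine jn 601 (by decide +kernel) ?_
    refine jn 613 (by decide +kernel) ?_
    refine jn 625 (by decide +kernel) ?_
    refine jn 633 (by decide +kernel) ?_
    refine jn 642 (by decide +kernel) ?_
    refine jn 653 (by decide +kernel) ?_
    refine jn 663 (by decide +kernel) ?_
    refine jn 664 (by decide +kernel) ?_
    refine jn 668 (by decide +kernel) ?_
    refine jn 676 (by decide +kernel) ?_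
    refine jn 688 (by decide +kernel) ?_
    refine jn 698 (by decide +kernel) ?_
    refine jn 707 (by decide +kernel) ?_
    refine jn 710 (by decide +kernel) ?_
    refine jn 719 (by decide +kernel) ?_
    refine jn 729 (by decide +kernel) ?_
    refine jn 733 (by decide +kernel) ?_
    refine jn 740 (by decide +kernel) ?_
    refine jn 751 (by decide +kernel) ?_
    refine jn 770 (by decide +kernel) ?_
    refine jn 776 (by decide +kernel) ?_
    refine jn 777 (by decide +kernel) ?_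
    refine jn 778 (by decide +kernel) ?_
    refine jn 780 (by decide +kernel) ?_
    refine jn 781 (by decide +kernel) ?_
    refine jn 790 (by decide +kernel) ?_
    refine jn 805 (by decide +kernel) ?_
    refine jn 814 (by decide +kernel) ?_
    refine jn 815 (by decide +kernel) ?_
    refine jn 817 (by decide +kernel) ?_
    refine jn 834 (by decide +kernel) ?_
    refine jn 850 (by decide +kernel) ?_
    refine jn 860 (by decide +kernel) ?_
    refine jn 870 (by decide +kernel) ?_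
    refine jn 880 (by decide +kernel) ?_
    refine jn 891 (by decide +kernel) ?_
    refine jn 898 (by decide +kernel) ?_
    refine jn 901 (by decide +kernel) ?_
    refine jn 917 (by decide +kernel) ?_
    refine jn 928 (by decide +kernel) ?_
    refine jn 939 (by decide +kernel) ?_
    refine jn 950 (by decide +kernel) ?_
    refine jn 959 (by decide +kernel) ?_
    refine jn 975 (by decide +kernel) ?_
    refine jn 982 (by decide +kernel) ?_
    refine jn 985 (by decide +kernel) ?_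
    refine jn 995 (by decide +kernel) ?_
    refine jn 1010 (by decide +kernel) ?_
    refine jn 1014 (by decide +kernel) ?_
    refine jn 1021 (by decide +kernel) ?_
    refine jn 1025 (by decide +kernel) ?_
    refine jn 1039 (by decide +kernel) ?_
    refine jn 1041 (by decide +kernel) ?_
    refine jn 1049 (by decide +kernel) ?_
    refine jn 1052 (by decide +kernel) ?_
    refine jn 1068 (by decide +kernel) ?_
    refine jn 1085 (by decide +kernel) ?_
    refine jn 1094 (by decide +kernel) ?_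
    refine jn 1102 (by decide +kernel) ?_
    refine jn 1106 (by decide +kernel) ?_
    refine jn 1120 (by decide +kernel) ?_
    refine jn 1124 (by decide +kernel) ?_
    refine jn 1138 (by decide +kernel) ?_
    exact je (by decide +kernel)
  · refine fin 2472 754 T130_2 ?_
    refine jn 6 (by decide +kernel) ?_
    refine jn 10 (by decide +kernel) ?_
    refine jn 11 (by decide +kernel) ?_
    refine jn 16 (by decide +kernel) ?_
    refine jn 20 (by decide +kernel) ?_
    refine jn 21 (by decide +kernel) ?_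
    refine jn 23 (by decide +kernel) ?_
    refine jn 29 (by decide +kernel) ?_
    refine jn 32 (by decide +kernel) ?_
    refine jn 38 (by decide +kernel) ?_
    refine jn 40 (by decide +kernel) ?_
    refine jn 41 (by decide +kernel) ?_
    refine jn 45 (by decide +kernel) ?_
    refine jn 50 (by decide +kernel) ?_
    refine jn 51 (by decide +kernel) ?_
    refine jn 54 (by decide +kernel) ?_
    refine jn 56 (by decide +kernel) ?_
    refine jn 58 (by decide +kernel) ?_
    refine jn 62 (by decide +kernel) ?_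
    refine jn 66 (by decide +kernel) ?_
    refine jn 69 (by decide +kernel) ?_
    refine jn 73 (by decide +kernel) ?_
    refine jn 76 (by decide +kernel) ?_
    refine jn 80 (by decide +kernel) ?_
    refine jn 83 (by decide +kernel) ?_
    refine jn 87 (by decide +kernel) ?_
    refine jn 91 (by decide +kernel) ?_
    refine jn 93 (by decide +kernel) ?_
    refine jn 108 (by decide +kernel) ?_
    refine jn 119 (by decide +kernel) ?_
    refine jn 136 (by decide +kernel) ?_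
    refine jn 148 (by decide +kernel) ?_
    refine jn 161 (by decide +kernel) ?_
    refine jn 182 (by decide +kernel) ?_
    refine jn 204 (by decide +kernel) ?_
    refine jn 213 (by decide +kernel) ?_
    refine jn 217 (by decide +kernel) ?_
    refine jn 221 (by decide +kernel) ?_
    refine jn 224 (by decide +kernel) ?_
    refine jn 228 (by decide +kernel) ?_
    refine jn 234 (by decide +kernel) ?_
    refine jn 243 (by decide +kernel) ?_
    refine jn 252 (by decide +kernel) ?_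
    refine jn 262 (by decide +kernel) ?_
    refine jn 275 (by decide +kernel) ?_
    refine jn 286 (by decide +kernel) ?_
    refine jn 293 (by decide +kernel) ?_
    refine jn 310 (by decide +kernel) ?_
    refine jn 329 (by decide +kernel) ?_
    refine jn 350 (by decide +kernel) ?_
    refine jn 351 (by decide +kernel) ?_
    refine jn 352 (by decide +kernel) ?_
    refine jn 353 (by decide +kernel) ?_
    refine jn 354 (by decide +kernel) ?_
    refine jn 355 (by decide +kernel) ?_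
    refine jn 356 (by decide +kernel) ?_
    refine jn 358 (by decide +kernel) ?_
    refine jn 359 (by decide +kernel) ?_
    refine jn 360 (by decide +kernel) ?_
    refine jn 361 (by decide +kernel) ?_
    refine jn 362 (by decide +kernel) ?_
    refine jn 363 (by decide +kernel) ?_
    refine jn 364 (by decide +kernel) ?_
    refine jn 365 (by decide +kernel) ?_
    refine jn 368 (by decide +kernel) ?_
    refine jn 370 (by decide +kernel) ?_
    refine jn 373 (by decide +kernel) ?_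
    refine jn 376 (by decide +kernel) ?_
    refine jn 378 (by decide +kernel) ?_
    refine jn 380 (by decide +kernel) ?_
    refine jn 385 (by decide +kernel) ?_
    refine jn 390 (by decide +kernel) ?_
    refine jn 399 (by decide +kernel) ?_
    refine jn 415 (by decide +kernel) ?_
    refine jn 423 (by decide +kernel) ?_
    refine jn 429 (by decide +kernel) ?_
    refine jn 432 (by decide +kernel) ?_
    refine jn 463 (by decide +kernel) ?_
    refine jn 470 (by decide +kernel) ?_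
    refine jn 471 (by decide +kernel) ?_
    refine jn 472 (by decide +kernel) ?_
    refine jn 473 (by decide +kernel) ?_
    refine jn 474 (by decide +kernel) ?_
    refine jn 481 (by decide +kernel) ?_
    refine jn 484 (by decide +kernel) ?_
    refine jn 487 (by decide +kernel) ?_
    refine jn 490 (by decide +kernel) ?_
    refine jn 515 (by decide +kernel) ?_
    refine jn 520 (by decide +kernel) ?_
    refine jn 526 (by decide +kernel) ?_
    refine jn 534 (by decide +kernel) ?_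
    refine jn 535 (by decide +kernel) ?_
    refine jn 536 (by decide +kernel) ?_
    refine jn 537 (by decide +kernel) ?_
    refine jn 538 (by decide +kernel) ?_
    refine jn 539 (by decide +kernel) ?_
    refine jn 540 (by decide +kernel) ?_
    refine jn 541 (by decide +kernel) ?_
    refine jn 542 (by decide +kernel) ?_
    refine jn 543 (by decide +kernel) ?_
    refine jn 544 (by decide +kernel) ?_
    refine jn 545 (by decide +kernel) ?_
    refine jn 546 (by decide +kernel) ?_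
    refine jn 547 (by decide +kernel) ?_
    refine jn 548 (by decide +kernel) ?_
    refine jn 551 (by decide +kernel) ?_
    refine jn 554 (by decide +kernel) ?_
    refine jn 555 (by decide +kernel) ?_
    refine jn 556 (by decide +kernel) ?_
    refine jn 558 (by decide +kernel) ?_
    refine jn 563 (by decide +kernel) ?_
    refine jn 565 (by decide +kernel) ?_
    refine jn 566 (by decide +kernel) ?_
    refine jn 567 (by decide +kernel) ?_
    refine jn 570 (by decide +kernel) ?_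
    refine jn 573 (by decide +kernel) ?_
    refine jn 588 (by decide +kernel) ?_
    refine jn 597 (by decide +kernel) ?_
    refine jn 605 (by decide +kernel) ?_
    refine jn 606 (by decide +kernel) ?_
    refine jn 608 (by decide +kernel) ?_
    refine jn 610 (by decide +kernel) ?_
    refine jn 616 (by decide +kernel) ?_
    refine jn 618 (by decide +kernel) ?_
    refine jn 624 (by decide +kernel) ?_
    refine jn 629 (by decide +kernel) ?_
    refine jn 638 (by decide +kernel) ?_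
    refine jn 640 (by decide +kernel) ?_
    refine jn 642 (by decide +kernel) ?_
    refine jn 646 (by decide +kernel) ?_
    refine jn 650 (by decide +kernel) ?_
    refine jn 656 (by decide +kernel) ?_
    refine jn 668 (by decide +kernel) ?_
    refine jn 670 (by decide +kernel) ?_
    refine jn 671 (by decide +kernel) ?_
    refine jn 672 (by decide +kernel) ?_
    refine jn 673 (by decide +kernel) ?_
    refine jn 674 (by decide +kernel) ?_
    refine jn 675 (by decide +kernel) ?_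
    refine jn 676 (by decide +kernel) ?_
    refine jn 677 (by decide +kernel) ?_
    refine jn 680 (by decide +kernel) ?_
    refine jn 681 (by decide +kernel) ?_
    refine jn 682 (by decide +kernel) ?_
    refine jn 683 (by decide +kernel) ?_
    refine jn 686 (by decide +kernel) ?_
    refine jn 688 (by decide +kernel) ?_
    refine jn 693 (by decide +kernel) ?_
    refine jn 695 (by decide +kernel) ?_
    refine jn 699 (by decide +kernel) ?_
    refine jn 705 (by decide +kernel) ?_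
    refine jn 708 (by decide +kernel) ?_
    refine jn 710 (by decide +kernel) ?_
    refine jn 716 (by decide +kernel) ?_
    refine jn 721 (by decide +kernel) ?_
    refine jn 732 (by decide +kernel) ?_
    refine jn 736 (by decide +kernel) ?_
    refine jn 739 (by decide +kernel) ?_
    refine jn 744 (by decide +kernel) ?_
    exact je (by decide +kernel)

end Pool.Agent.MP_2339ce_nt.NR
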