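import Pool.Agent.MP_2339ce_nt.Q2.NC.L5
import Pool.Agent.MP_2339ce_nt.Q2.NC.L6
import Pool.Agent.MP_2339ce_nt.Q2.NC.L9
import Pool.Agent.MP_2339ce_nt.Q2.CkI

/-! Block NR: runs. -/

set_option autoImplicit false
set_option maxRecDepth 100000

noncomputable section

namespace Pool.Agent.MP_2339ce_nt.NR

open Q2.Top

def T132_0 : Ph :=
  (.na 547 160 (.na 328 95 (.na 178 64 (.na 90 44 (.na 53 33 (.na 18 31 (.nx 17 1321124 (.nr 16
  1048577 (.nr 1 25 .s1 (.nx 6 10323 (.nx 2 205 (.l1 (.ls 83 41 1619)) (.nr 5 185365 (.lg 0 false 3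
  89 89 11 0 147888) .out)) (.nr 15 55110 (.nr 11 513 (.lg 0 true 5 73 73 19 0 246480) (.nx 14
  82572 (.lg 1 true 3 89 89 11 16684 147888) .out)) .out))) .out) .out) (.na 34 32 (.nx 33 1321124
  (.nr 32 1048577 (.nr 19 30 .s1 (.nx 20 205 (.l1 (.ls 83 29 1358)) (.nr 31 185365 (.nx 24 16385
  (.lg 0 false 4 89 89 16 0 3792) (.nr 30 38969 (.nr 28 513 (.lg 0 true 4 71 71 16 0 3792) (.nx 29
  82572 (.lg 2 true 1 83 83 13 7437 18960) .out)) .out)) .out))) .out) .out) (.nx 52 1321124 (.nr
  51 1048577 (.nr 35 31 .s1 (.nx 39 205 (.nx 37 79 (.nr 36 208 (.l1 (.ls 23 23 198)) (.l1 .sk))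
  (.nx 38 80 (.l1 .sk) (.l1 (.ls 83 37 1116)))) (.nr 50 370729 (.nx 44 16385 (.nx 42 6503 (.lg 0
  false 3 89 89 19 0 56880) (.nr 43 92683 (.lg 1 true 1 89 89 13 44516 56880) .out)) (.nr 49 38969
  (.nr 47 513 (.lg 0 true 3 73 73 19 0 11376) (.nx 48 82572 (.lg 1 false 1 89 89 13 7437 56880)
  .out)) .out)) .out))) .out) .out))) (.na 54 38 .ne (.na 71 40 (.nx 70 1321124 (.nr 69 370729 (.nr
  55 37 .s1 (.nx 57 79 (.nr 56 253 (.l1 (.ls 17 29 167)) (.l1 .sk)) (.nx 58 80 (.l1 .sk) (.nx 61
  8193 (.lg 0 false 3 89 89 13 0 11376) (.nr 68 55110 (.nr 64 217 (.lg 0 true 3 67 67 13 0 11376)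
  (.nx 67 82572 (.lg 1 true 3 89 89 13 21022 56880) .out)) .out))))) .out) .out) (.nx 89 1321124
  (.nr 88 370729 (.nr 72 40 .s1 (.nx 85 82572 (.nr 74 1957 (.nx 73 2047 (.l1 (.ls 47 67 104758))
  (.lg 0 false 1 73 73 19 0 18960)) (.nx 76 80 (.nx 75 79 (.l1 .sk) (.l1 .sk)) (.nx 81 13005 (.nx
  79 6503 (.lg 0 false 3 89 97 29 0 56880) (.nr 80 77937 (.lg 0 true 1 89 89 19 0 18960) .out))
  (.nr 84 23172 (.nx 82 20644 (.lg 1 false 1 67 67 19 5580 18960) (.nr 83 13779 (.lg 2 false 1 67
  71 19 2095 18960) .out)) .out)))) (.nr 87 217 (.lg 0 true 2 73 73 23 0 18960) .out))) .out)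
  .out)))) (.na 135 52 (.na 105 46 (.nx 104 1321124 (.nr 103 370729 (.nr 91 44 .s1 (.nx 94 80 (.nx
  93 79 (.nr 92 290 (.l1 (.ls 23 23 144)) (.l1 .sk)) (.l1 .sk)) (.nx 97 8193 (.lg 0 false 3 89 97
  23 0 625680) (.nr 102 55110 (.nr 100 217 (.lg 0 true 3 67 67 23 0 125136) (.nx 101 82572 (.lg 1
  false 1 97 97 19 21022 208560) .out)) .out)))) .out) .out) (.na 120 50 (.nx 119 1321124 (.nr 118
  311745 (.nr 106 46 .s1 (.nx 112 10323 (.nx 108 79 (.nr 107 316 (.l1 (.ls 16 19 138)) (.l1 .sk))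
  (.nx 109 80 (.l1 .sk) (.lg 0 false 3 89 89 13 0 11376))) (.nr 117 23172 (.nr 115 316 (.lg 0 true
  3 67 67 13 0 11376) (.nx 116 82572 (.lg 2 true 1 71 71 13 10322 3792) .out)) .out))) .out) .out)
  (.nx 134 1321124 (.nr 133 311745 (.nr 121 50 .s1 (.nx 127 10323 (.nx 123 79 (.nr 122 328 (.l1
  (.ls 17 23 127)) (.l1 .sk)) (.nx 124 80 (.l1 .sk) (.lg 0 false 3 83 83 19 0 56880))) (.nr 132
  23172 (.nr 130 328 (.lg 0 true 3 61 61 19 0 56880) (.nx 131 82572 (.lg 2 true 1 71 71 13 9944
  18960) .out)) .out))) .out) .out))) (.na 150 55 (.nx 149 1321124 (.nr 148 311745 (.nr 136 52 .s1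
  (.nx 139 80 (.nx 138 79 (.nr 137 347 (.l1 (.ls 23 23 123)) (.l1 .sk)) (.l1 .sk)) (.nx 142 10323
  (.lg 0 false 3 89 89 23 0 739440) (.nr 147 23172 (.nr 145 347 (.lg 0 true 3 71 71 23 0 147888)
  (.nx 146 82572 (.lg 2 true 1 73 73 19 9400 246480) .out)) .out)))) .out) .out) (.na 165 62 (.nx
  164 1321124 (.nr 163 311745 (.nr 151 55 .s1 (.nx 157 10323 (.nx 153 79 (.nr 152 391 (.l1 (.ls 23
  19 116)) (.l1 .sk)) (.nx 154 80 (.l1 .sk) (.lg 0 false 3 83 89 19 0 312840))) (.nr 162 23172 (.nr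
  160 391 (.lg 0 true 3 71 71 19 0 312840) (.nx 161 82572 (.lg 2 false 1 71 71 17 8342 104280)
  .out)) .out))) .out) .out) (.nx 177 1321124 (.nr 176 311745 (.nr 166 62 .s1 (.nx 168 79 (.nr 167
  404 (.l1 (.ls 16 19 103)) (.l1 .sk)) (.nx 169 80 (.l1 .sk) (.nx 172 10323 (.lg 0 false 3 83 83 19
  0 11376) (.nr 175 23172 (.nr 173 217 (.lg 2 false 1 67 67 13 841684 3792) (.nx 174 82572 (.lg 2
  true 1 71 71 13 15031 3792) .out)) .out))))) .out) .out))))) (.na 264 80 (.na 221 73 (.na 192 65
  (.nx 191 1321124 (.nr 190 524289 (.nr 179 64 .s1 (.nx 185 10323 (.nx 181 79 (.nr 180 410 (.l1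
  (.ls 19 19 100)) (.l1 .sk)) (.nx 182 80 (.l1 .sk) (.lg 0 false 3 83 89 23 0 56880))) (.nr 189
  23172 (.nr 187 513 (.lg 0 true 2 67 67 19 0 3792) (.nx 188 82572 (.lg 2 false 1 67 67 17 7029
  3792) .out)) .out))) .out) .out) (.na 206 67 (.nx 205 1321124 (.nr 204 524289 (.nr 193 65 .s1
  (.nx 196 80 (.nx 195 79 (.nr 194 423 (.l1 (.ls 23 19 99)) (.l1 .sk)) (.l1 .sk)) (.nx 199 8193
  (.lg 0 false 3 89 89 19 0 369720) (.nr 203 8193 (.nr 201 513 (.lg 0 true 2 71 71 19 0 246480)
  (.nx 202 82572 (.lg 2 true 1 61 61 17 6358 123240) .out)) .out)))) .out) .out) (.nx 220 1321124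
  (.nr 219 524289 (.nr 207 67 .s1 (.nx 210 80 (.nx 209 79 (.nr 208 461 (.l1 (.ls 16 16 96)) (.l1
  .sk)) (.l1 .sk)) (.nx 213 8193 (.lg 0 false 3 83 83 16 0 5688) (.nr 218 8193 (.nr 216 513 (.lg 0
  true 3 61 61 16 0 5688) (.nx 217 82572 (.lg 2 true 1 53 53 16 6358 1896) .out)) .out)))) .out)
  .out))) (.na 236 76 (.nx 235 1321124 (.nr 234 524289 (.nr 222 73 .s1 (.nx 228 8193 (.nx 224 79
  (.nr 223 480 (.l1 (.ls 16 16 88)) (.l1 .sk)) (.nx 225 80 (.l1 .sk) (.lg 0 false 3 83 83 16 0
  5688))) (.nr 233 8193 (.nr 231 513 (.lg 0 true 3 61 61 16 0 5688) (.nx 232 82572 (.lg 2 false 1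
  47 47 16 6358 1896) .out)) .out))) .out) .out) (.na 250 79 (.nx 249 1321124 (.nr 248 524289 (.nr
  237 76 .s1 (.nx 243 8193 (.nx 239 79 (.nr 238 499 (.l1 (.ls 17 17 85)) (.l1 .sk)) (.nx 240 80
  (.l1 .sk) (.lg 0 false 3 89 89 29 0 56880))) (.nr 247 8193 (.nr 245 513 (.lg 0 true 2 71 71 23 0
  3792) (.nx 246 82572 (.lg 2 true 1 61 61 17 6358 3792) .out)) .out))) .out) .out) (.nx 263
  1321124 (.nr 262 524289 (.nr 251 79 .s1 (.nx 254 80 (.nx 253 79 (.nr 252 505 (.l1 (.ls 16 16 81))
  (.l1 .sk)) (.l1 .sk)) (.nx 257 8193 (.lg 0 true 3 67 67 16 0 5688) (.nr 261 8193 (.nr 259 513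
  (.lg 0 false 2 59 59 16 0 3792) (.nx 260 82572 (.lg 2 true 1 47 47 16 6358 1896) .out)) .out))))
  .out) .out)))) (.na 300 89 (.na 275 83 (.nx 274 1321124 (.nr 273 524289 (.nr 265 80 .s1 (.nx 271
  82572 (.nx 269 8193 (.nx 267 79 (.nr 266 524 (.l1 (.ls 29 23 81)) (.l1 .sk)) (.nx 268 80 (.l1
  .sk) (.lg 0 false 1 97 97 23 0 18960))) (.nr 270 8193 (.lg 0 true 1 73 83 23 0 18960) .out)) (.nr
  272 513 (.lg 0 true 1 71 71 23 0 18960) .out))) .out) .out) (.na 289 88 (.nx 288 1321124 (.nr 287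
  524289 (.nr 276 83 .s1 (.nx 282 8193 (.nx 278 79 (.nr 277 555 (.l1 (.ls 16 16 78)) (.l1 .sk))
  (.nx 279 80 (.l1 .sk) (.lg 0 false 3 71 71 16 0 5688))) (.nr 286 8193 (.nr 284 555 (.lg 0 true 2
  59 59 16 0 3792) (.nx 285 82572 (.lg 2 true 1 47 47 16 5877 18960) .out)) .out))) .out) .out)
  (.nx 299 1321124 (.nr 298 524289 (.nr 290 88 .s1 (.nx 293 80 (.nx 292 79 (.nr 291 562 (.l1 (.ls
  29 23 73)) (.l1 .sk)) (.l1 .sk)) (.nx 296 82572 (.nx 294 8193 (.lg 0 false 1 97 97 29 0 208560)
  (.nr 295 8193 (.lg 0 true 1 73 83 29 0 208560) .out)) (.nr 297 513 (.lg 0 true 1 71 71 29 0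
  41712) .out)))) .out) .out))) (.na 314 91 (.nx 313 1321124 (.nr 312 524289 (.nr 301 89 .s1 (.nx
  304 80 (.nx 303 79 (.nr 302 574 (.l1 (.ls 16 16 73)) (.l1 .sk)) (.l1 .sk)) (.nx 307 8193 (.lg 0
  false 3 71 71 16 0 5688) (.nr 311 8193 (.nr 309 513 (.lg 0 true 2 59 59 16 0 3792) (.nx 310 82572
  (.lg 2 true 1 47 47 16 6358 1896) .out)) .out)))) .out) .out) (.na 315 92 .ne (.nx 327 1321124
  (.nr 326 524289 (.nr 316 92 .s1 (.nx 321 8193 (.nx 318 79 (.nr 317 599 (.l1 (.ls 19 19 70)) (.l1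
  .sk)) (.nx 319 80 (.l1 .sk) (.lg 0 false 2 83 89 19 0 3792))) (.nr 325 8193 (.nr 323 513 (.lg 0
  true 2 67 67 19 0 3792) (.nx 324 82572 (.lg 2 false 1 59 59 19 6358 3792) .out)) .out))) .out)
  .out)))))) (.na 457 130 (.na 402 115 (.na 367 101 (.na 341 97 (.nx 340 1321124 (.nr 339 524289
  (.nr 329 95 .s1 (.nx 331 79 (.nr 330 612 (.l1 (.ls 17 16 68)) (.l1 .sk)) (.nx 332 80 (.l1 .sk)
  (.nx 334 8193 (.lg 0 false 2 89 89 17 0 18960) (.nr 338 8193 (.nr 336 513 (.lg 0 true 2 71 71 17
  0 18960) (.nx 337 82572 (.lg 2 false 1 59 59 17 6358 9480) .out)) .out))))) .out) .out) (.na 354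
  100 (.nx 353 1321124 (.nr 352 524289 (.nr 342 97 .s1 (.nx 348 8193 (.nx 344 79 (.nr 343 631 (.l1
  (.ls 16 16 67)) (.l1 .sk)) (.nx 345 80 (.l1 .sk) (.lg 0 false 3 71 71 16 0 5688))) (.nr 351 8193
  (.nr 349 513 (.lg 2 false 1 59 59 16 537984 1896) (.nx 350 82572 (.lg 2 true 1 43 43 16 6358
  1896) .out)) .out))) .out) .out) (.nx 366 1321124 (.nr 365 524289 (.nr 355 100 .s1 (.nx 360 8193
  (.nx 357 79 (.nr 356 637 (.l1 (.ls 19 23 65)) (.l1 .sk)) (.nx 358 80 (.l1 .sk) (.lg 0 false 2 73
  83 29 0 18960))) (.nr 364 8193 (.nr 362 513 (.lg 0 true 2 67 67 29 0 18960) (.nx 363 82572 (.lg 2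
  false 1 53 53 23 6358 18960) .out)) .out))) .out) .out))) (.na 379 104 (.nx 378 1321124 (.nr 377
  524289 (.nr 368 101 .s1 (.nx 373 8193 (.nx 370 79 (.nr 369 656 (.l1 (.ls 16 16 64)) (.l1 .sk))
  (.nx 371 80 (.l1 .sk) (.lg 0 false 2 71 71 16 0 3792))) (.nr 376 8193 (.nr 374 513 (.lg 2 false 1
  59 59 16 516678 18960) (.nx 375 82572 (.lg 2 true 1 43 43 16 6358 1896) .out)) .out))) .out)
  .out) (.na 390 110 (.nx 389 1321124 (.nr 388 524289 (.nr 380 104 .s1 (.nx 383 80 (.nx 382 79 (.nr
  381 694 (.l1 (.ls 31 23 63)) (.l1 .sk)) (.l1 .sk)) (.nx 384 8193 (.lg 0 false 1 89 89 29 0 49296)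
  (.nr 387 8193 (.nx 385 82572 (.lg 0 true 1 73 83 29 0 49296) (.nr 386 513 (.lg 0 true 1 71 71 29
  0 49296) .out)) .out)))) .out) .out) (.nx 401 1321124 (.nr 400 524289 (.nr 391 110 .s1 (.nx 396
  8193 (.nx 393 79 (.nr 392 726 (.l1 (.ls 23 29 59)) (.l1 .sk)) (.nx 394 80 (.l1 .sk) (.lg 0 false
  2 83 83 31 0 208560))) (.nr 399 8193 (.nr 397 513 (.lg 2 true 1 61 61 29 474404 208560) (.nx 398
  82572 (.lg 2 false 1 59 59 29 6358 208560) .out)) .out))) .out) .out)))) (.na 435 125 (.na 413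
  121 (.nx 412 1321124 (.nr 411 524289 (.nr 403 115 .s1 (.nx 406 80 (.nx 405 79 (.nr 404 763 (.l1
  (.ls 19 16 57)) (.l1 .sk)) (.l1 .sk)) (.nx 407 8193 (.lg 0 false 1 83 83 17 0 9480) (.nr 410 8193
  (.nr 408 513 (.lg 2 true 1 61 61 17 453778 9480) (.nx 409 82572 (.lg 2 false 1 59 59 17 6358
  18960) .out)) .out)))) .out) .out) (.na 424 124 (.nx 423 1321124 (.nr 422 524289 (.nr 414 121 .s1
  (.nx 416 79 (.nr 415 782 (.l1 (.ls 17 17 54)) (.l1 .sk)) (.nx 417 80 (.l1 .sk) (.nx 418 8193 (.lg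
  0 true 1 83 83 17 0 20856) (.nr 421 8193 (.nr 419 513 (.lg 2 false 1 59 59 17 431277 20856) (.nx
  420 82572 (.lg 2 true 1 47 47 17 6358 20856) .out)) .out))))) .out) .out) (.nx 434 1321124 (.nr
  433 524289 (.nr 425 124 .s1 (.nx 429 8193 (.nx 427 79 (.nr 426 789 (.l1 (.ls 19 19 53)) (.l1
  .sk)) (.nx 428 80 (.l1 .sk) (.lg 0 false 1 83 83 19 0 3792))) (.nr 432 8193 (.nr 430 513 (.lg 2
  true 1 59 59 19 420842 3792) (.nx 431 82572 (.lg 2 false 1 53 53 19 6358 3792) .out)) .out)))
  .out) .out))) (.na 446 128 (.nx 445 1321124 (.nr 444 524289 (.nr 436 125 .s1 (.nx 439 80 (.nx 438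
  79 (.nr 437 807 (.l1 (.ls 16 16 52)) (.l1 .sk)) (.l1 .sk)) (.nx 440 8193 (.lg 0 true 1 83 83 16 0
  208560) (.nr 443 8193 (.nr 441 513 (.lg 2 false 1 53 53 16 417476 9480) (.nx 442 82572 (.lg 2
  true 1 43 43 16 6358 9480) .out)) .out)))) .out) .out) (.na 456 129 (.nx 455 1321124 (.nr 454
  1048577 (.nr 447 128 .s1 (.nx 448 205 (.l1 (.ls 71 29 331)) (.nr 453 524289 (.nx 449 8193 (.lg 0
  false 1 83 83 19 0 3792) (.nr 452 8193 (.nr 450 1025 (.lg 0 true 1 67 67 19 0 3792) (.nx 451
  82572 (.lg 2 true 1 47 47 19 3183 3792) .out)) .out)) .out))) .out) .out) .ne)))) (.na 497 146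
  (.na 485 137 (.na 467 131 (.nx 466 660563 (.nr 465 1048577 (.nr 458 130 .s1 (.nx 461 6503 (.nx
  459 205 (.l1 (.ls 73 37 326)) (.nr 460 524289 (.lg 0 false 1 83 83 29 0 246480) .out)) (.nr 464
  8193 (.nr 462 1025 (.lg 0 true 1 67 67 29 0 246480) (.nx 463 82572 (.lg 2 false 1 53 53 29 3970
  246480) .out)) .out))) .out) .out) (.na 475 134 (.nx 474 660563 (.nr 473 1048577 (.nr 468 131 .s1
  (.nx 469 205 (.l1 (.ls 89 19 323)) (.nr 472 524289 (.nr 470 8193 (.lg 0 false 1 83 83 16 0 56880)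
  (.nx 471 6503 (.lg 0 true 1 71 71 16 0 1896) .out)) .out))) .out) .out) (.nx 484 660563 (.nr 483
  1048577 (.nr 476 134 .s1 (.nx 477 205 (.l1 (.ls 61 29 316)) (.nr 482 524289 (.nr 479 8193 (.lg 0
  true 2 71 71 23 0 3792) (.nx 481 6503 (.lg 0 false 2 71 71 23 0 3792) .out)) .out))) .out)
  .out))) (.na 486 139 (.lg 0 false 1 0 0 16 0 24) (.na 487 143 (.lg 0 false 1 0 0 16 0 24) (.nx
  496 660563 (.nr 495 1048577 (.nr 488 143 .s1 (.nx 489 205 (.l1 (.ls 73 23 296)) (.nr 494 524289
  (.nx 490 6503 (.lg 0 false 1 83 83 19 0 271128) (.nr 493 8193 (.nr 491 1025 (.lg 0 true 1 67 67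
  19 0 271128) (.nx 492 82572 (.lg 2 true 1 53 53 19 3970 2711280) .out)) .out)) .out))) .out)
  .out)))) (.na 516 152 (.na 507 149 (.nx 506 660563 (.nr 505 1048577 (.nr 498 146 .s1 (.nx 499 205
  (.l1 (.ls 61 29 290)) (.nr 504 524289 (.nr 501 8193 (.lg 0 true 2 67 67 23 0 3792) (.nx 503 6503
  (.lg 0 false 2 67 67 23 0 3792) .out)) .out))) .out) .out) (.na 508 151 (.lg 0 false 1 0 0 16 0
  24) (.nx 515 660563 (.nr 514 1048577 (.nr 509 151 .s1 (.nx 510 205 (.l1 (.ls 61 17 281)) (.nr 513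
  524289 (.nr 511 8193 (.lg 0 false 1 71 71 16 0 1896) (.nx 512 6503 (.lg 0 true 1 67 67 16 0 1896)
  .out)) .out))) .out) .out))) (.na 536 157 (.na 526 155 (.nx 525 660563 (.nr 524 1048577 (.nr 517
  152 .s1 (.nx 520 6503 (.nx 518 205 (.l1 (.ls 83 31 279)) (.nr 519 524289 (.lg 0 false 1 89 89 29
  0 18960) .out)) (.nr 523 8193 (.nr 521 1025 (.lg 0 true 1 71 71 29 0 3792) (.nx 522 82572 (.lg 2
  false 1 53 59 29 3970 132720) .out)) .out))) .out) .out) (.nx 535 660563 (.nr 534 1048577 (.nr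
  527 155 .s1 (.nx 528 205 (.l1 (.ls 71 19 274)) (.nr 533 524289 (.nx 529 6503 (.lg 0 false 1 83 83
  17 0 18960) (.nr 532 8193 (.nr 530 1025 (.lg 0 true 1 61 61 17 0 9480) (.nx 531 82572 (.lg 2
  false 1 47 47 17 3970 18960) .out)) .out)) .out))) .out) .out)) (.na 537 158 (.lg 0 false 1 0 0
  16 0 24) (.nx 546 660563 (.nr 545 1048577 (.nr 538 158 .s1 (.nx 539 205 (.l1 (.ls 73 29 268))
  (.nr 544 524289 (.nr 541 8193 (.lg 0 false 2 67 67 19 0 3792) (.nx 543 6503 (.lg 0 true 2 61 61
  19 0 3792) .out)) .out))) .out) .out))))))) (.na 700 229 (.na 638 191 (.na 590 176 (.na 573 167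
  (.na 557 163 (.nx 556 660563 (.nr 555 1048577 (.nr 548 160 .s1 (.nx 551 6503 (.nx 549 205 (.l1
  (.ls 73 29 265)) (.nr 550 524289 (.lg 0 false 1 73 83 29 0 18960) .out)) (.nr 554 8193 (.nr 552
  1025 (.lg 0 true 1 67 67 29 0 18960) (.nx 553 82572 (.lg 2 false 1 47 53 29 3970 18960) .out))
  .out))) .out) .out) (.na 565 166 (.nx 564 660563 (.nr 563 1048577 (.nr 558 163 .s1 (.nx 559 205
  (.l1 (.ls 83 17 260)) (.nr 562 524289 (.nr 560 8193 (.lg 0 false 1 71 71 16 0 1896) (.nx 561 6503
  (.lg 0 true 1 71 71 16 0 18960) .out)) .out))) .out) .out) (.nx 572 660563 (.nr 571 1048577 (.nr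
  566 166 .s1 (.nx 567 205 (.l1 (.ls 73 29 256)) (.nr 570 524289 (.nr 568 8193 (.lg 0 false 1 83 83
  19 0 56880) (.nx 569 6503 (.lg 0 true 1 71 71 19 0 3792) .out)) .out))) .out) .out))) (.na 581
  169 (.nx 580 660563 (.nr 579 1048577 (.nr 574 167 .s1 (.nx 575 205 (.l1 (.ls 83 17 254)) (.nr 578
  524289 (.nr 576 8193 (.lg 0 false 1 71 71 16 0 1896) (.nx 577 6503 (.lg 0 true 1 67 67 16 0 1896)
  .out)) .out))) .out) .out) (.na 589 173 (.nx 588 660563 (.nr 587 1048577 (.nr 582 169 .s1 (.nx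
  583 205 (.l1 (.ls 83 19 251)) (.nr 586 524289 (.nr 584 8193 (.lg 0 false 1 83 83 17 0 2711280)
  (.nx 585 6503 (.lg 0 true 1 71 71 17 0 24648) .out)) .out))) .out) .out) (.lg 0 false 1 0 0 16 0
  24)))) (.na 614 181 (.na 598 178 (.nx 597 660563 (.nr 596 1048577 (.nr 591 176 .s1 (.nx 592 205
  (.l1 (.ls 73 29 241)) (.nr 595 524289 (.nr 593 8193 (.lg 0 true 1 89 89 31 0 41712) (.nx 594 6503
  (.lg 0 false 1 73 83 31 0 41712) .out)) .out))) .out) .out) (.na 606 179 (.nx 605 660563 (.nr 604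
  1048577 (.nr 599 178 .s1 (.nx 600 205 (.l1 (.ls 61 29 239)) (.nr 603 524289 (.nr 601 8193 (.lg 0
  false 1 71 71 19 0 18960) (.nx 602 6503 (.lg 0 true 1 67 67 19 0 3792) .out)) .out))) .out) .out)
  (.nx 613 660563 (.nr 612 1048577 (.nr 607 179 .s1 (.nx 608 205 (.l1 (.ls 73 17 237)) (.nr 611
  524289 (.nr 609 8193 (.lg 0 false 1 71 71 16 0 18960) (.nx 610 6503 (.lg 0 true 1 67 67 16 0
  1896) .out)) .out))) .out) .out))) (.na 622 184 (.nx 621 660563 (.nr 620 1048577 (.nr 615 181 .s1
  (.nx 616 205 (.l1 (.ls 73 17 235)) (.nr 619 524289 (.nr 617 8193 (.lg 0 false 1 71 71 16 0 18960)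
  (.nx 618 6503 (.lg 0 true 1 67 67 16 0 1896) .out)) .out))) .out) .out) (.na 630 190 (.nx 629
  660563 (.nr 628 1048577 (.nr 623 184 .s1 (.nx 624 205 (.l1 (.ls 83 29 231)) (.nr 627 524289 (.nr
  625 8193 (.lg 0 true 1 89 89 31 0 3792) (.nx 626 6503 (.lg 0 false 1 89 89 31 0 3792) .out))
  .out))) .out) .out) (.nx 637 660563 (.nr 636 1048577 (.nr 631 190 .s1 (.nx 632 205 (.l1 (.ls 71
  31 224)) (.nr 635 524289 (.nr 633 8193 (.lg 0 true 1 83 83 31 0 18960) (.nx 634 6503 (.lg 0 false
  1 73 73 31 0 18960) .out)) .out))) .out) .out))))) (.na 658 202 (.na 648 197 (.na 639 193 (.lg 0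
  false 1 0 0 16 0 24) (.na 640 194 (.lg 0 false 1 0 0 16 0 24) (.nx 647 660563 (.nr 646 1048577
  (.nr 641 194 .s1 (.nx 642 205 (.l1 (.ls 83 23 219)) (.nr 645 524289 (.nr 643 8193 (.lg 0 false 1
  83 83 19 0 625680) (.nx 644 6503 (.lg 0 true 1 71 71 19 0 3792) .out)) .out))) .out) .out))) (.na
  649 199 (.lg 0 false 1 0 0 16 0 24) (.na 650 200 (.lg 0 false 1 0 0 16 0 24) (.nx 657 660563 (.nr
  656 1048577 (.nr 651 200 .s1 (.nx 652 205 (.l1 (.ls 71 29 213)) (.nr 655 524289 (.nr 653 8193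
  (.lg 0 true 1 73 83 31 0 18960) (.nx 654 6503 (.lg 0 false 1 73 73 31 0 18960) .out)) .out)))
  .out) .out)))) (.na 682 211 (.na 666 208 (.nx 665 660563 (.nr 664 1048577 (.nr 659 202 .s1 (.nx
  660 205 (.l1 (.ls 73 23 211)) (.nr 663 524289 (.nr 661 8193 (.lg 0 false 1 71 71 23 0 3792) (.nx
  662 6503 (.lg 0 true 1 71 71 23 0 3792) .out)) .out))) .out) .out) (.na 674 209 (.nx 673 660563
  (.nr 672 1048577 (.nr 667 208 .s1 (.nx 668 205 (.l1 (.ls 73 29 205)) (.nr 671 524289 (.nr 669
  8193 (.lg 0 true 1 83 83 31 0 49296) (.nx 670 6503 (.lg 0 false 1 73 83 31 0 246480) .out))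
  .out))) .out) .out) (.nx 681 660563 (.nr 680 1048577 (.nr 675 209 .s1 (.nx 676 205 (.l1 (.ls 71
  17 204)) (.nr 679 524289 (.nr 677 8193 (.lg 0 true 1 83 83 17 0 20856) (.nx 678 6503 (.lg 0 false
  1 73 73 17 0 20856) .out)) .out))) .out) .out))) (.na 691 223 (.na 683 220 (.lg 0 false 1 0 0 16
  0 24) (.nx 690 660563 (.nr 689 1048577 (.nr 684 220 .s1 (.nx 685 205 (.l1 (.ls 73 31 194)) (.nr
  688 524289 (.nr 686 8193 (.lg 0 true 1 89 89 37 0 208560) (.nx 687 6503 (.lg 0 false 1 73 83 37 0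
  208560) .out)) .out))) .out) .out)) (.na 699 227 (.nx 698 660563 (.nr 697 1048577 (.nr 692 223
  .s1 (.nx 693 205 (.l1 (.ls 73 17 191)) (.nr 696 524289 (.nr 694 8193 (.lg 0 false 1 67 67 16 0
  1896) (.nx 695 6503 (.lg 0 true 1 61 61 16 0 1896) .out)) .out))) .out) .out) (.lg 0 false 1 0 0
  16 0 24)))))) (.na 775 257 (.na 734 247 (.na 710 239 (.na 701 230 (.lg 0 false 1 0 0 16 0 24)
  (.na 709 233 (.nx 708 660563 (.nr 707 1048577 (.nr 702 230 .s1 (.nx 703 205 (.l1 (.ls 71 31 185))
  (.nr 706 524289 (.nr 704 8193 (.lg 0 true 1 83 83 31 0 18960) (.nx 705 6503 (.lg 0 false 1 73 73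
  31 0 18960) .out)) .out))) .out) .out) (.lg 0 false 1 0 0 16 0 24))) (.na 718 241 (.nx 717 660563
  (.nr 716 1048577 (.nr 711 239 .s1 (.nx 712 205 (.l1 (.ls 71 17 178)) (.nr 715 524289 (.nr 713
  8193 (.lg 0 false 1 67 67 17 0 1896) (.nx 714 6503 (.lg 0 true 1 61 61 17 0 1896) .out)) .out)))
  .out) .out) (.na 726 242 (.nx 725 660563 (.nr 724 1048577 (.nr 719 241 .s1 (.nx 720 205 (.l1 (.ls
  73 17 177)) (.nr 723 524289 (.nr 721 8193 (.lg 0 false 1 67 67 17 0 1896) (.nx 722 6503 (.lg 0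
  true 1 61 61 17 0 1896) .out)) .out))) .out) .out) (.nx 733 660563 (.nr 732 1048577 (.nr 727 242
  .s1 (.nx 728 205 (.l1 (.ls 61 29 176)) (.nr 731 524289 (.nr 729 8193 (.lg 0 false 1 71 71 29 0
  208560) (.nx 730 6503 (.lg 0 true 1 67 67 29 0 208560) .out)) .out))) .out) .out)))) (.na 758 251
  (.na 742 248 (.nx 741 660563 (.nr 740 1048577 (.nr 735 247 .s1 (.nx 736 205 (.l1 (.ls 101 17
  173)) (.nr 739 524289 (.nr 737 8193 (.lg 0 true 1 83 83 17 0 24648) (.nx 738 6503 (.lg 0 false 1
  73 73 17 0 24648) .out)) .out))) .out) .out) (.na 750 250 (.nx 749 660563 (.nr 748 1048577 (.nr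
  743 248 .s1 (.nx 744 205 (.l1 (.ls 83 23 172)) (.nr 747 524289 (.nr 745 8193 (.lg 0 true 1 83 83
  29 0 3792) (.nx 746 6503 (.lg 0 false 1 73 83 29 0 3792) .out)) .out))) .out) .out) (.nx 757
  660563 (.nr 756 1048577 (.nr 751 250 .s1 (.nx 752 205 (.l1 (.ls 61 29 171)) (.nr 755 524289 (.nr
  753 8193 (.lg 0 false 1 71 71 29 0 18960) (.nx 754 6503 (.lg 0 true 1 67 67 29 0 18960) .out))
  .out))) .out) .out))) (.na 759 253 (.lg 0 false 1 0 0 16 0 24) (.na 767 256 (.nx 766 660563 (.nr
  765 1048577 (.nr 760 253 .s1 (.nx 761 205 (.l1 (.ls 97 19 169)) (.nr 764 524289 (.nr 762 8193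
  (.lg 0 true 1 73 73 19 0 20856) (.nx 763 6503 (.lg 0 false 1 71 71 19 0 20856) .out)) .out)))
  .out) .out) (.nx 774 660563 (.nr 773 1048577 (.nr 768 256 .s1 (.nx 769 1292 (.l1 (.ls 67 43
  6523)) (.nr 772 262145 (.nr 770 16385 (.lg 0 true 1 73 73 29 0 3792) (.nx 771 6503 (.lg 0 false 1
  61 61 29 0 3792) .out)) .out))) .out) .out))))) (.na 3983 2897 (.na 2021 1024 (.na 1289 512 (.nx
  1288 82572 (.nr 1287 1048577 (.nr 776 257 .s1 (.nx 1031 647 (.la (.ls 103 31 1631)) (.nr 1286
  262145 (.la (.lg 0 false 1 73 73 23 0)) .out))) .out) .out) (.na 1719 725 (.nx 1718 82572 (.nr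
  1717 1048577 (.nr 1290 512 .s1 (.nx 1503 647 (.la (.ls 89 29 820)) (.nr 1716 262145 (.la (.lg 0
  false 1 71 71 29 0)) .out))) .out) .out) (.nx 2020 3252 (.nr 2019 262145 (.nr 1720 725 .s1 (.la
  (.ls 59 43 14589))) .out) .out))) (.na 2449 1449 (.nx 2448 3252 (.nr 2447 262145 (.nr 2022 1024
  .s1 (.la (.ls 53 41 10330))) .out) .out) (.na 3051 2048 (.nx 3050 1627 (.nr 3049 131073 (.nr 2450
  1449 .s1 (.la (.ls 59 31 1829))) .out) .out) (.nx 3982 1627 (.nr 3981 131073 (.nr 3052 2048 .s1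
  (.nx 3131 79 (.nr 3130 18266 (.lx (.lp 41 29 725)) (.l1 .sk)) (.nx 3132 80 (.l1 .sk) (.la (.ls 59
  31 1292))))) .out) .out)))) (.na 5932 16384 (.na 4633 4096 (.nx 4632 647 (.nr 4631 65537 (.nr
  3984 2897 .s1 (.nx 4146 163 (.lx (.lp 53 29 1025)) (.nr 4630 32769 (.lx (.lp 47 31 1025)) .out)))
  .out) .out) (.na 5283 8192 (.nx 5282 647 (.nr 5281 65537 (.nr 4634 4096 .s1 (.nx 4796 163 (.lx
  (.lp 53 31 2049)) (.nr 5280 32769 (.lx (.lp 43 37 2049)) .out))) .out) .out) (.nx 5931 647 (.nr
  5930 65537 (.nr 5284 8192 .s1 (.lx (.lp 47 41 4097))) .out) .out))) (.na 6908 65536 (.na 6582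
  32768 (.nx 6581 647 (.nr 6580 131073 (.nr 5933 16384 .s1 (.nx 6095 163 (.lx (.lp 41 41 8193))
  (.nr 6579 65537 (.lx (.lp 43 43 8193)) .out))) .out) .out) (.nx 6907 324 (.nr 6906 131073 (.nr
  6583 32768 .s1 (.lx (.lp 43 47 16385))) .out) .out)) (.na 7234 131073 (.nx 7233 324 (.nr 7232
  262145 (.nr 6909 65536 .s1 (.lx (.lp 43 53 32769))) .out) .out) .out)))))))

def T132_1 : Ph :=
  (.na 311 225 (.na 138 189 (.na 57 163 (.na 28 154 (.na 14 147 (.nx 13 1048577 (.nr 12 1482912
  (.nr 1 142 .s1 (.nx 4 190 (.nx 3 189 (.nr 2 1431 (.l1 (.ls 23 29 254)) (.l1 .sk)) (.l1 .sk)) (.nx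
  10 131073 (.nr 6 65537 (.lg 0 true 2 83 83 23 0 5040) (.nx 9 16385 (.lg 0 false 3 83 83 23 0
  1008) .out)) (.nr 11 1025 (.lg 0 false 1 71 71 19 0 1008) .out)))) .out) .out) (.na 15 150 (.lg 0
  false 1 0 0 16 0 24) (.nx 27 1048577 (.nr 26 1482912 (.nr 16 150 .s1 (.nx 18 189 (.nr 17 1499
  (.l1 (.ls 23 31 241)) (.l1 .sk)) (.nx 19 190 (.l1 .sk) (.nr 22 65537 (.nx 20 131073 (.lg 0 false
  1 83 83 29 0 5040) (.nr 21 1025 (.lg 0 false 1 71 71 29 0 55440) .out)) (.nx 25 16385 (.lg 0
  false 3 83 83 31 0 5040) .out))))) .out) .out))) (.na 42 161 (.na 41 157 (.nx 40 1048577 (.nr 39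
  1482912 (.nr 29 154 .s1 (.nx 32 190 (.nx 31 189 (.nr 30 1529 (.l1 (.ls 29 31 234)) (.l1 .sk))
  (.l1 .sk)) (.nx 37 131073 (.nr 33 65537 (.lg 0 false 1 83 83 29 0 11088) (.nx 36 16385 (.lg 0
  false 3 83 83 31 0 11088) .out)) (.nr 38 1025 (.lg 0 false 1 71 71 29 0 55440) .out)))) .out)
  .out) (.lg 0 false 1 0 0 16 0 24)) (.na 56 162 (.nx 55 1048577 (.nr 54 1482912 (.nr 43 161 .s1
  (.nx 50 32769 (.nx 45 189 (.nr 44 1577 (.l1 (.ls 19 19 224)) (.l1 .sk)) (.nx 46 190 (.l1 .sk)
  (.lg 0 false 4 83 83 19 0 1008))) (.nr 53 16385 (.nr 51 1025 (.lg 0 false 1 67 67 17 0 504) (.nx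
  52 131073 (.lg 2 true 1 59 59 17 12085 504) .out)) .out))) .out) .out) (.lg 0 false 1 0 0 16 0
  24)))) (.na 98 178 (.na 70 173 (.na 58 170 (.lg 0 false 1 0 0 16 0 24) (.nx 69 1048577 (.nr 68
  1482912 (.nr 59 170 .s1 (.nx 66 131073 (.nr 61 65537 (.nx 60 324 (.l1 (.ls 61 37 620)) (.lg 0
  false 1 89 89 31 0 5040)) (.nx 63 190 (.nx 62 189 (.l1 .sk) (.l1 .sk)) (.nx 65 16385 (.lg 0 false
  2 89 89 31 0 5040) .out))) (.nr 67 1025 (.lg 0 true 1 71 71 31 0 5040) .out))) .out) .out)) (.na
  84 175 (.nx 83 1048577 (.nr 82 1482912 (.nr 71 173 .s1 (.nx 74 190 (.nx 73 189 (.nr 72 1704 (.l1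
  (.ls 19 17 209)) (.l1 .sk)) (.l1 .sk)) (.nx 78 32769 (.lg 0 false 4 83 83 17 0 5040) (.nr 81
  16385 (.nr 79 1025 (.lg 0 false 1 61 61 16 0 2520) (.nx 80 131073 (.lg 2 true 1 53 53 16 12085
  2520) .out)) .out)))) .out) .out) (.nx 97 1048577 (.nr 96 1482912 (.nr 85 175 .s1 (.nx 92 32769
  (.nx 87 189 (.nr 86 1733 (.l1 (.ls 19 23 207)) (.l1 .sk)) (.nx 88 190 (.l1 .sk) (.lg 0 false 4 83
  83 23 0 5040))) (.nr 95 16385 (.nr 93 1025 (.lg 0 false 1 61 61 19 0 2520) (.nx 94 131073 (.lg 2
  false 1 53 53 19 12085 2520) .out)) .out))) .out) .out))) (.na 125 182 (.na 111 179 (.nx 110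
  1048577 (.nr 109 1482912 (.nr 99 178 .s1 (.nx 102 190 (.nx 101 189 (.nr 100 1743 (.l1 (.ls 23 23
  203)) (.l1 .sk)) (.l1 .sk)) (.nx 105 32769 (.lg 0 false 3 83 83 23 0 5040) (.nr 108 16385 (.nr
  106 1025 (.lg 0 false 1 67 67 19 0 5040) (.nx 107 131073 (.lg 2 true 1 53 53 19 12085 1008)
  .out)) .out)))) .out) .out) (.nx 124 1048577 (.nr 123 1482912 (.nr 112 179 .s1 (.nx 114 189 (.nr
  113 1772 (.l1 (.ls 17 17 202)) (.l1 .sk)) (.nx 115 190 (.l1 .sk) (.nx 119 32769 (.lg 0 false 4 79
  79 19 0 1008) (.nr 122 16385 (.nr 120 1025 (.lg 0 false 1 61 61 16 0 2520) (.nx 121 131073 (.lg 2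
  false 1 47 47 16 12085 504) .out)) .out))))) .out) .out)) (.na 126 186 .ne (.nx 137 1048577 (.nr
  136 1048577 (.nr 127 186 .s1 (.nx 132 32769 (.nx 129 189 (.nr 128 1840 (.l1 (.ls 23 29 195)) (.l1
  .sk)) (.nx 130 190 (.l1 .sk) (.lg 0 true 2 89 89 29 0 5040))) (.nr 135 16385 (.nr 133 1025 (.lg 0
  false 1 71 71 29 0 5040) (.nx 134 131073 (.lg 2 true 1 59 59 29 12085 1008) .out)) .out))) .out)
  .out))))) (.na 235 207 (.na 189 198 (.na 161 191 (.na 149 190 (.nx 148 1048577 (.nr 147 1048577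
  (.nr 139 189 .s1 (.nx 142 190 (.nx 141 189 (.nr 140 1850 (.l1 (.ls 19 23 191)) (.l1 .sk)) (.l1
  .sk)) (.nr 145 65537 (.nx 143 131073 (.lg 0 false 1 73 73 23 0 504) (.nr 144 1025 (.lg 0 true 1
  59 59 23 0 504) .out)) (.nx 146 16385 (.lg 0 true 1 83 83 23 0 2520) .out)))) .out) .out) (.nx
  160 1048577 (.nr 159 1048577 (.nr 150 190 .s1 (.nx 153 190 (.nx 152 189 (.nr 151 1860 (.l1 (.ls
  17 31 191)) (.l1 .sk)) (.l1 .sk)) (.nr 156 65537 (.nx 154 131073 (.lg 0 false 1 89 89 31 0 5040)
  (.nr 155 1025 (.lg 0 true 1 67 67 31 0 5040) .out)) (.nx 158 16385 (.lg 0 false 2 83 89 37 0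
  5040) .out)))) .out) .out)) (.na 175 193 (.nx 174 1048577 (.nr 173 1048577 (.nr 162 191 .s1 (.nx
  165 190 (.nx 164 189 (.nr 163 1879 (.l1 (.ls 19 17 190)) (.l1 .sk)) (.l1 .sk)) (.nx 169 32769
  (.lg 0 false 4 79 79 19 0 1008) (.nr 172 16385 (.nr 170 1025 (.lg 0 false 1 61 61 16 0 504) (.nx
  171 131073 (.lg 2 true 1 53 53 16 12085 504) .out)) .out)))) .out) .out) (.nx 188 1048577 (.nr
  187 1048577 (.nr 176 193 .s1 (.nx 179 190 (.nx 178 189 (.nr 177 1928 (.l1 (.ls 19 17 188)) (.l1
  .sk)) (.l1 .sk)) (.nx 183 32769 (.lg 0 false 4 79 79 19 0 5040) (.nr 186 16385 (.nr 184 1025 (.lg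
  0 false 1 61 61 16 0 504) (.nx 185 131073 (.lg 2 true 1 53 53 16 12085 2520) .out)) .out))))
  .out) .out))) (.na 212 205 (.na 200 202 (.nx 199 1048577 (.nr 198 1048577 (.nr 190 198 .s1 (.nx
  192 189 (.nr 191 1967 (.l1 (.ls 37 31 183)) (.l1 .sk)) (.nx 193 190 (.l1 .sk) (.nr 196 65537 (.nx
  194 131073 (.lg 0 true 1 89 89 37 0 55440) (.nr 195 1025 (.lg 0 true 1 71 71 37 0 11088) .out))
  (.nx 197 16385 (.lg 0 false 1 89 89 37 0 11088) .out))))) .out) .out) (.nx 211 1048577 (.nr 210
  1048577 (.nr 201 202 .s1 (.nx 206 32769 (.nx 203 189 (.nr 202 1996 (.l1 (.ls 23 23 179)) (.l1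
  .sk)) (.nx 204 190 (.l1 .sk) (.lg 0 false 2 79 79 23 0 1008))) (.nr 209 16385 (.nr 207 1025 (.lg
  0 false 1 67 67 23 0 1008) (.nx 208 131073 (.lg 2 true 1 53 53 23 12085 1008) .out)) .out)))
  .out) .out)) (.na 223 206 (.nx 222 1048577 (.nr 221 1048577 (.nr 213 205 .s1 (.nx 216 190 (.nx
  215 189 (.nr 214 2006 (.l1 (.ls 29 19 177)) (.l1 .sk)) (.l1 .sk)) (.nx 219 131073 (.nr 217 65537
  (.lg 0 false 1 83 83 19 0 2520) (.nx 218 16385 (.lg 0 false 1 83 83 19 0 2520) .out)) (.nr 220
  1025 (.lg 0 true 1 67 67 19 0 2520) .out)))) .out) .out) (.nx 234 1048577 (.nr 233 1048577 (.nr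
  224 206 .s1 (.nx 226 189 (.nr 225 2015 (.l1 (.ls 23 23 176)) (.l1 .sk)) (.nx 227 190 (.l1 .sk)
  (.nx 229 32769 (.lg 0 false 2 79 79 23 0 1008) (.nr 232 16385 (.nr 230 1025 (.lg 0 false 1 61 61
  23 0 5040) (.nx 231 131073 (.lg 2 true 1 53 53 23 12085 1008) .out)) .out))))) .out) .out))))
  (.na 268 214 (.na 257 210 (.na 246 209 (.nx 245 1048577 (.nr 244 1048577 (.nr 236 207 .s1 (.nx
  239 190 (.nx 238 189 (.nr 237 2035 (.l1 (.ls 19 19 175)) (.l1 .sk)) (.l1 .sk)) (.nr 242 65537
  (.nx 240 131073 (.lg 0 true 1 89 89 19 0 2520) (.nr 241 1025 (.lg 0 true 1 71 71 19 0 504) .out))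
  (.nx 243 16385 (.lg 0 false 1 89 89 19 0 2520) .out)))) .out) .out) (.nx 256 1048577 (.nr 255
  1048577 (.nr 247 209 .s1 (.nx 250 190 (.nx 249 189 (.nr 248 2045 (.l1 (.ls 17 17 173)) (.l1 .sk))
  (.l1 .sk)) (.nx 253 131073 (.nr 251 65537 (.lg 0 false 1 83 83 17 0 5544) (.nx 252 16385 (.lg 0
  true 1 89 89 17 0 27720) .out)) (.nr 254 1025 (.lg 0 true 1 67 67 17 0 5544) .out)))) .out)
  .out)) (.na 267 211 (.nx 266 1048577 (.nr 265 1048577 (.nr 258 210 .s1 (.nx 260 189 (.nr 259 2054
  (.l1 (.ls 23 37 173)) (.l1 .sk)) (.nx 261 190 (.l1 .sk) (.nx 263 32769 (.lg 0 true 2 83 83 37 0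
  5040) (.nr 264 16385 (.lg 0 false 1 83 83 31 0 5040) .out))))) .out) .out) (.lg 0 false 1 0 0 16
  0 24))) (.na 290 222 (.na 278 218 (.nx 277 1048577 (.nr 276 1048577 (.nr 269 214 .s1 (.nx 274
  32769 (.nx 271 189 (.nr 270 2122 (.l1 (.ls 23 23 169)) (.l1 .sk)) (.nx 272 190 (.l1 .sk) (.lg 0
  false 2 79 79 23 0 1008))) (.nr 275 16385 (.lg 0 false 1 83 83 23 0 5040) .out))) .out) .out)
  (.nx 289 1048577 (.nr 288 1048577 (.nr 279 218 .s1 (.nx 282 190 (.nx 281 189 (.nr 280 2161 (.l1
  (.ls 19 23 166)) (.l1 .sk)) (.l1 .sk)) (.nx 284 32769 (.lg 0 false 2 79 79 23 0 1008) (.nr 287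
  16385 (.nr 285 1025 (.lg 0 false 1 61 61 23 0 5040) (.nx 286 131073 (.lg 2 true 1 53 53 23 12085
  5040) .out)) .out)))) .out) .out)) (.na 302 223 (.nx 301 1048577 (.nr 300 1048577 (.nr 291 222
  .s1 (.nx 294 190 (.nx 293 189 (.nr 292 2171 (.l1 (.ls 19 29 163)) (.l1 .sk)) (.l1 .sk)) (.nx 296
  32769 (.lg 0 true 2 83 83 31 0 5040) (.nr 299 16385 (.nr 297 1025 (.lg 0 false 1 67 67 29 0 5040)
  (.nx 298 131073 (.lg 2 true 1 53 53 29 12085 1008) .out)) .out)))) .out) .out) (.nx 310 1048577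
  (.nr 309 1048577 (.nr 303 223 .s1 (.nx 307 32769 (.nx 305 189 (.nr 304 2191 (.l1 (.ls 19 17 163))
  (.l1 .sk)) (.nx 306 190 (.l1 .sk) (.lg 0 true 1 83 83 16 0 2520))) (.nr 308 16385 (.lg 0 false 1
  79 79 16 0 2520) .out))) .out) .out)))))) (.na 2112 725 (.na 363 246 (.na 343 239 (.na 323 230
  (.na 322 227 (.nx 321 1048577 (.nr 320 1048577 (.nr 312 225 .s1 (.nx 314 189 (.nr 313 2210 (.l1
  (.ls 31 23 161)) (.l1 .sk)) (.nx 315 190 (.l1 .sk) (.nr 318 65537 (.nx 316 131073 (.lg 0 true 1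
  83 83 29 0 2520) (.nr 317 1025 (.lg 0 true 1 67 67 29 0 2520) .out)) (.nx 319 16385 (.lg 0 false
  1 83 83 29 0 2520) .out))))) .out) .out) (.lg 0 false 1 0 0 16 0 24)) (.na 334 238 (.nx 333
  1048577 (.nr 332 1048577 (.nr 324 230 .s1 (.nx 326 189 (.nr 325 2317 (.l1 (.ls 19 31 158)) (.l1
  .sk)) (.nx 327 190 (.l1 .sk) (.nr 330 65537 (.nx 328 131073 (.lg 0 false 1 83 83 31 0 5040) (.nr
  329 1025 (.lg 0 true 1 67 67 31 0 5040) .out)) (.nx 331 16385 (.lg 0 true 1 89 89 31 0 5040)
  .out))))) .out) .out) (.nx 342 1048577 (.nr 341 1048577 (.nr 335 238 .s1 (.nx 337 189 (.nr 336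
  2327 (.l1 (.ls 16 31 153)) (.l1 .sk)) (.nx 338 190 (.l1 .sk) (.nx 339 32769 (.lg 0 true 1 89 89
  31 0 1008) (.nr 340 16385 (.lg 0 false 1 83 83 31 0 1008) .out))))) .out) .out))) (.na 353 242
  (.na 352 241 (.nx 351 1048577 (.nr 350 1048577 (.nr 344 239 .s1 (.nx 348 32769 (.nx 346 189 (.nr
  345 2346 (.l1 (.ls 17 17 152)) (.l1 .sk)) (.nx 347 190 (.l1 .sk) (.lg 0 true 1 83 83 17 0 2520)))
  (.nr 349 16385 (.lg 0 false 1 73 73 17 0 504) .out))) .out) .out) (.lg 0 false 1 0 0 16 0 24))
  (.na 362 243 (.nx 361 1048577 (.nr 360 1048577 (.nr 354 242 .s1 (.nx 357 190 (.nx 356 189 (.nr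
  355 2366 (.l1 (.ls 23 29 150)) (.l1 .sk)) (.l1 .sk)) (.nx 358 32769 (.lg 0 true 1 89 89 29 0
  55440) (.nr 359 16385 (.lg 0 false 1 83 83 29 0 55440) .out)))) .out) .out) (.lg 0 false 1 0 0 16
  0 24)))) (.na 403 256 (.na 381 253 (.na 372 250 (.nx 371 1048577 (.nr 370 1048577 (.nr 364 246
  .s1 (.nx 368 32769 (.nx 366 189 (.nr 365 2434 (.l1 (.ls 23 29 148)) (.l1 .sk)) (.nx 367 190 (.l1
  .sk) (.lg 0 true 1 89 89 29 0 1008))) (.nr 369 16385 (.lg 0 false 1 83 83 29 0 1008) .out)))
  .out) .out) (.nx 380 1048577 (.nr 379 1048577 (.nr 373 250 .s1 (.nx 376 190 (.nx 375 189 (.nr 374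
  2463 (.l1 (.ls 19 29 145)) (.l1 .sk)) (.l1 .sk)) (.nx 377 32769 (.lg 0 true 1 83 83 29 0 5040)
  (.nr 378 16385 (.lg 0 false 1 79 79 29 0 5040) .out)))) .out) .out)) (.na 392 255 (.nx 391
  1048577 (.nr 390 1048577 (.nr 382 253 .s1 (.nx 384 189 (.nr 383 2483 (.l1 (.ls 19 19 144)) (.l1
  .sk)) (.nx 385 190 (.l1 .sk) (.nr 388 65537 (.nx 386 131073 (.lg 0 false 1 83 83 19 0 27720) (.nr
  387 1025 (.lg 0 true 1 67 67 19 0 5544) .out)) (.nx 389 16385 (.lg 0 false 1 83 83 19 0 5544)
  .out))))) .out) .out) (.nx 402 1048577 (.nr 401 1048577 (.nr 393 255 .s1 (.nx 395 189 (.nr 394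
  2492 (.l1 (.ls 16 29 143)) (.l1 .sk)) (.nx 396 190 (.l1 .sk) (.nx 399 131073 (.nr 397 65537 (.lg
  0 true 1 79 79 29 0 2520) (.nx 398 16385 (.lg 0 true 1 83 83 29 0 2520) .out)) (.nr 400 1025 (.lg
  0 true 1 61 61 29 0 2520) .out))))) .out) .out))) (.na 903 363 (.na 404 257 .ne (.nx 902 1048577
  (.nr 901 1482912 (.nr 405 257 .s1 (.nx 513 190 (.nx 512 189 (.nr 511 3534 (.la (.ls 31 19 141))
  (.l1 .sk)) (.l1 .sk)) (.nx 687 20644 (.nx 580 257 (.lx (.lp 79 17 91)) (.nr 686 1048577 (.la (.lg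
  0 true 1 79 79 23 0)) .out)) (.nr 900 32769 (.nr 793 2049 (.la (.lg 0 true 1 61 61 23 0)) (.nx
  899 131073 (.la (.lg 2 false 1 61 61 23 28515)) .out)) .out)))) .out) .out)) (.na 1424 512 (.nx
  1423 1048577 (.nr 1422 1482912 (.nr 904 363 .s1 (.nx 1055 190 (.nx 1054 189 (.nr 1053 4984 (.la
  (.ls 37 19 129)) (.l1 .sk)) (.l1 .sk)) (.nx 1122 257 (.lx (.lp 73 19 129)) (.nr 1421 1048577 (.nx
  1271 20644 (.la (.lg 0 false 1 73 73 23 0)) (.nr 1420 32769 (.la (.lg 2 true 1 71 71 23 272977))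
  .out)) .out)))) .out) .out) (.nx 2111 1048577 (.nr 2110 1482912 (.nr 1425 512 .s1 (.nx 1615 190
  (.nx 1614 189 (.nr 1613 7058 (.lx (.lp 37 19 182)) (.l1 .sk)) (.l1 .sk)) (.nx 1896 20644 (.nx
  1682 257 (.lx (.lp 73 19 182)) (.nr 1895 1048577 (.la (.lg 0 false 1 71 71 29 0)) .out)) (.nr
  2109 32769 (.la (.lg 2 true 1 61 61 29 193537)) .out)))) .out) .out))))) (.na 10704 11586 (.na
  5022 2897 (.na 3568 1449 (.na 2714 1024 (.nx 2713 13005 (.nr 2712 1048577 (.nr 2113 725 .s1 (.nx
  2412 2049 (.la (.ls 67 41 5793)) (.nr 2711 65537 (.la (.lg 0 false 1 47 47 29 0)) .out))) .out)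
  .out) (.nx 3567 13005 (.nr 3566 1048577 (.nr 2715 1024 .s1 (.nx 3140 3252 (.la (.ls 61 41 10330))
  (.nr 3565 32769 (.la (.lg 0 false 1 37 37 31 0)) .out))) .out) .out)) (.na 4170 2048 (.nx 4169
  8193 (.nr 4168 1048577 (.nr 3569 1449 .s1 (.la (.ls 61 47 46328))) .out) .out) (.nx 5021 8193
  (.nr 5020 1048577 (.nr 4171 2048 .s1 (.la (.ls 59 47 32779))) .out) .out))) (.na 8114 5793 (.na
  6224 4096 (.nx 6223 3252 (.nr 6222 524289 (.nr 5023 2897 .s1 (.la (.ls 53 37 3653))) .out) .out)
  (.nx 8113 3252 (.nr 8112 524289 (.nr 6225 4096 .s1 (.nx 6415 190 (.nx 6414 189 (.nr 6413 56390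
  (.lx (.lp 41 37 1449)) (.l1 .sk)) (.l1 .sk)) (.la (.ls 53 37 2576)))) .out) .out)) (.na 9409 8192
  (.nx 9408 1292 (.nr 9407 262145 (.nr 8115 5793 .s1 (.nx 8928 814 (.lx (.lp 47 37 2049)) (.nr 9406
  65537 (.lx (.lp 37 37 2049)) .out))) .out) .out) (.nx 10703 1292 (.nr 10702 262145 (.nr 9410 8192
  .s1 (.nx 10223 814 (.lx (.lp 43 41 2897)) (.nr 10701 131073 (.lx (.lp 41 41 2897)) .out))) .out)
  .out)))) (.na 15882 131072 (.na 13293 32768 (.na 11998 16384 (.nx 11997 1292 (.nr 11996 131073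
  (.nr 10705 11586 .s1 (.lx (.lp 37 41 4097))) .out) .out) (.nx 13292 1292 (.nr 13291 262145 (.nr
  11999 16384 .s1 (.nx 12255 257 (.lx (.lp 16 0 8193)) (.nr 13290 131073 (.lx (.lp 37 43 8193))
  .out))) .out) .out)) (.na 14587 65536 (.nx 14586 1292 (.nr 14585 262145 (.nr 13294 32768 .s1 (.lx
  (.lp 37 47 16385))) .out) .out) (.nx 15881 1292 (.nr 15880 524289 (.nr 14588 65536 .s1 (.nx 14844
  257 (.lx (.lp 16 0 32769)) (.nr 15879 262145 (.lx (.lp 31 53 32769)) .out))) .out) .out))) (.na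
  16912 524288 (.na 16397 262144 (.nx 16396 513 (.nr 16395 524289 (.nr 15883 131072 .s1 (.lx (.lp
  16 0 65537))) .out) .out) (.nx 16911 513 (.nr 16910 1048577 (.nr 16398 262144 .s1 (.lx (.lp 16 0
  131073))) .out) .out)) (.na 16914 1048577 (.nx 16913 257 (.l1 .sk) .out) .out))))))

def T132_2 : Ph :=
  (.na 410 5 (.na 254 3 (.na 168 2 (.nx 167 660563 (.nr 166 1482912 (.nx 2 63 (.nr 1 9 (.lg 0 true
  1 37 37 5 0 1008) (.l1 .sk)) (.nx 3 64 (.l1 .sk) (.nr 100 110219 (.nx 79 104033 (.nx 45 6021 (.nr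
  23 16385 (.lg 0 true 20 89 89 11 0 5040) (.nx 44 1292 (.nr 33 38969 (.lg 0 false 10 89 89 9 0
  5040) (.nx 43 205 (.lg 0 false 10 83 83 9 0 5040) .out)) .out)) (.nr 78 13779 (.nr 65 682 (.lg 0
  true 20 83 83 11 0 5040) (.lg 2 false 13 101 103 9 4806 720720)) .out)) (.nr 99 78 (.lg 0 true 20
  79 79 11 0 5040) .out)) (.nx 165 103 (.lg 0 false 65 73 83 16 0 32760) .out)))) .out) .out) (.nx
  253 660563 (.nr 252 623489 (.nx 170 63 (.nr 169 15 (.lg 0 true 1 31 31 5 0 5040) (.l1 .sk)) (.nx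
  171 64 (.l1 .sk) (.nr 224 27556 (.nx 210 104033 (.nx 184 8107 (.lg 0 false 13 89 89 9 0 65520)
  (.nr 197 613 (.lg 0 true 13 79 79 9 0 13104) (.lg 2 false 13 97 97 9 6762 65520))) (.nr 223 154
  (.lg 0 true 13 79 79 9 0 13104) .out)) (.nx 251 647 (.nr 237 131073 (.lg 0 false 13 83 89 9 0
  65520) (.nx 250 103 (.lg 0 false 13 73 73 9 0 13104) .out)) .out)))) .out) .out)) (.na 340 4 (.nx
  339 660563 (.nr 338 881745 (.nx 256 63 (.nr 255 22 (.lg 0 true 1 31 31 5 0 55440) (.l1 .sk)) (.nx
  257 64 (.l1 .sk) (.nr 310 38969 (.nx 270 6194 (.lg 0 false 13 83 83 13 0 6552) (.nx 296 330282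
  (.nr 283 716 (.lg 0 true 13 83 83 13 0 6552) (.lg 2 false 13 101 103 13 14531 720720)) (.nr 309
  78 (.lg 0 true 13 71 71 13 0 6552) .out))) (.nx 337 647 (.nr 323 311745 (.lg 0 false 13 83 83 13
  0 6552) (.nx 336 103 (.lg 0 false 13 71 71 13 0 6552) .out)) .out)))) .out) .out) (.nx 409 660563
  (.nr 408 1246976 (.nx 343 64 (.nx 342 63 (.nr 341 28 (.lg 0 true 1 23 23 9 0 1008) (.l1 .sk))
  (.l1 .sk)) (.nx 402 330282 (.nx 378 6503 (.nr 364 440873 (.nr 353 55110 (.lg 0 false 10 83 83 13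
  0 5040) (.nx 363 647 (.lg 0 false 10 83 89 13 0 5040) .out)) (.nx 377 103 (.lg 0 false 13 71 73
  13 0 13104) .out)) (.nr 401 19485 (.nr 396 2458 (.nr 391 618 (.lg 0 true 13 79 79 13 0 13104)
  (.lg 2 true 5 79 83 11 16835 5040)) (.lg 2 false 5 89 89 11 5966 5040)) .out)) (.nr 407 78 (.lg 0
  true 5 73 73 11 0 5040) .out))) .out) .out))) (.na 449 7 (.na 411 6 .ne (.nx 448 660563 (.nr 447
  220437 (.nx 425 6503 (.nx 413 63 (.nr 412 39 (.lg 0 true 1 23 23 7 0 1008) (.l1 .sk)) (.nx 414 64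
  (.l1 .sk) (.nr 419 77937 (.lg 0 true 5 89 89 11 0 5040) (.nx 424 647 (.lg 0 false 5 73 73 11 0
  5040) .out)))) (.nr 446 27556 (.nr 440 704 (.lg 0 true 15 79 79 13 0 5040) (.nx 445 330282 (.lg 2
  true 5 89 89 11 14779 5040) .out)) .out)) .out) .out)) (.na 486 8 (.nx 485 660563 (.nr 484 262145
  (.nx 452 64 (.nx 451 63 (.nr 450 45 (.l1 (.ls 17 23 569)) (.l1 .sk)) (.l1 .sk)) (.nx 465 6503
  (.nr 460 92683 (.lg 0 false 8 83 83 13 0 5040) (.nx 464 647 (.lg 0 true 4 79 79 11 0 5040) .out))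
  (.nr 483 32769 (.nr 478 1142 (.lg 0 true 13 83 83 16 0 6552) (.nx 482 330282 (.lg 2 true 4 83 83
  11 10021 1008) .out)) .out))) .out) .out) (.na 535 9 (.nx 534 660563 (.nr 533 623489 (.nr 487 2
  .s1 (.nx 491 103 (.nx 489 63 (.nr 488 51 (.l1 (.ls 31 29 499)) (.l1 .sk)) (.nx 490 64 (.l1 .sk)
  (.l1 (.ls 97 31 817)))) (.nr 532 131073 (.nx 528 330282 (.nr 499 2242 (.nr 496 537 (.lg 0 true 5
  79 79 13 0 5040) (.nx 497 2582 (.lg 0 false 1 73 73 11 0 1008) (.lg 2 false 2 79 79 11 19375
  1008))) (.nr 511 38969 (.nx 501 8470 (.lg 0 false 2 101 103 11 0 55440) (.nr 506 19085 (.lg 2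
  true 5 73 73 13 4641 5040) (.lg 2 true 5 79 79 13 9146 5040))) (.nx 527 41287 (.nr 524 110219
  (.lg 0 false 13 97 107 19 0 720720) (.nx 525 406 .out (.nx 526 2582 (.lg 0 true 1 97 97 11 0
  55440) .out))) .out))) (.nr 531 129 (.lg 0 true 3 79 79 13 0 1008) .out)) .out))) .out) .out)
  (.nx 564 660563 (.nr 563 623489 (.nr 536 5 .s1 (.nx 540 103 (.nx 538 63 (.nr 537 56 (.lg 0 true 1
  23 23 13 0 1008) (.l1 .sk)) (.nx 539 64 (.l1 .sk) (.l1 (.ls 79 29 726)))) (.nr 562 131073 (.nx
  545 5700 (.lg 0 false 5 83 83 16 0 2520) (.nr 561 110219 (.nr 550 217 (.lg 0 true 5 71 71 16 0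
  2520) (.nx 560 41287 (.nx 555 18700 (.lg 1 false 5 83 97 16 38399 5040) (.lg 1 true 5 83 89 16
  11704 5040)) .out)) .out)) .out))) .out) .out)))))

theorem c132 :
    OkQ ckI L6 79 26 1099511627776 0 34359738368 1 1099511627776 ∧
    OkQ ckI L9 189 142 1099511627776 0 34359738368 1 1099511627776 ∧
    OkQ ckI L5 63 1 10 0 34359738368 1 1099511627776 := by
  refine ⟨?_, ?_, ?_⟩
  · refine fin 1896 7235 T132_0 ?_
    refine jn 5 (by decide +kernel) ?_
    refine jn 11 (by decide +kernel) ?_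
    refine jn 20 (by decide +kernel) ?_
    refine jn 24 (by decide +kernel) ?_
    refine jn 29 (by decide +kernel) ?_
    refine jn 39 (by decide +kernel) ?_
    refine jn 40 (by decide +kernel) ?_
    refine jn 41 (by decide +kernel) ?_
    refine jn 42 (by decide +kernel) ?_
    refine jn 43 (by decide +kernel) ?_
    refine jn 45 (by decide +kernel) ?_
    refine jn 46 (by decide +kernel) ?_
    refine jn 47 (by decide +kernel) ?_
    refine jn 58 (by decide +kernel) ?_
    refine jn 61 (by decide +kernel) ?_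
    refine jn 67 (by decide +kernel) ?_
    refine jn 72 (by decide +kernel) ?_
    refine jn 73 (by decide +kernel) ?_
    refine jn 74 (by decide +kernel) ?_
    refine jn 76 (by decide +kernel) ?_
    refine jn 77 (by decide +kernel) ?_
    refine jn 78 (by decide +kernel) ?_
    refine jn 79 (by decide +kernel) ?_
    refine jn 80 (by decide +kernel) ?_
    refine jn 81 (by decide +kernel) ?_
    refine jn 82 (by decide +kernel) ?_
    refine jn 83 (by decide +kernel) ?_
    refine jn 85 (by decide +kernel) ?_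
    refine jn 86 (by decide +kernel) ?_
    refine jn 87 (by decide +kernel) ?_
    refine jn 94 (by decide +kernel) ?_
    refine jn 96 (by decide +kernel) ?_
    refine jn 97 (by decide +kernel) ?_
    refine jn 99 (by decide +kernel) ?_
    refine jn 101 (by decide +kernel) ?_
    refine jn 115 (by decide +kernel) ?_
    refine jn 127 (by decide +kernel) ?_
    refine jn 131 (by decide +kernel) ?_
    refine jn 140 (by decide +kernel) ?_
    refine jn 142 (by decide +kernel) ?_
    refine jn 145 (by decide +kernel) ?_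
    refine jn 154 (by decide +kernel) ?_
    refine jn 156 (by decide +kernel) ?_
    refine jn 157 (by decide +kernel) ?_
    refine jn 160 (by decide +kernel) ?_
    refine jn 172 (by decide +kernel) ?_
    refine jn 180 (by decide +kernel) ?_
    refine jn 185 (by decide +kernel) ?_
    refine jn 187 (by decide +kernel) ?_
    refine jn 196 (by decide +kernel) ?_
    refine jn 199 (by decide +kernel) ?_
    refine jn 201 (by decide +kernel) ?_
    refine jn 213 (by decide +kernel) ?_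
    refine jn 228 (by decide +kernel) ?_
    refine jn 240 (by decide +kernel) ?_
    refine jn 243 (by decide +kernel) ?_
    refine jn 245 (by decide +kernel) ?_
    refine jn 260 (by decide +kernel) ?_
    refine jn 268 (by decide +kernel) ?_
    refine jn 269 (by decide +kernel) ?_
    refine jn 270 (by decide +kernel) ?_
    refine jn 272 (by decide +kernel) ?_
    refine jn 285 (by decide +kernel) ?_
    refine jn 293 (by decide +kernel) ?_
    refine jn 294 (by decide +kernel) ?_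
    refine jn 295 (by decide +kernel) ?_
    refine jn 297 (by decide +kernel) ?_
    refine jn 310 (by decide +kernel) ?_
    refine jn 321 (by decide +kernel) ?_
    refine jn 324 (by decide +kernel) ?_
    refine jn 334 (by decide +kernel) ?_
    refine jn 337 (by decide +kernel) ?_
    refine jn 350 (by decide +kernel) ?_
    refine jn 360 (by decide +kernel) ?_
    refine jn 363 (by decide +kernel) ?_
    refine jn 375 (by decide +kernel) ?_
    refine jn 383 (by decide +kernel) ?_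
    refine jn 384 (by decide +kernel) ?_
    refine jn 385 (by decide +kernel) ?_
    refine jn 386 (by decide +kernel) ?_
    refine jn 396 (by decide +kernel) ?_
    refine jn 398 (by decide +kernel) ?_
    refine jn 407 (by decide +kernel) ?_
    refine jn 409 (by decide +kernel) ?_
    refine jn 420 (by decide +kernel) ?_
    refine jn 429 (by decide +kernel) ?_
    refine jn 431 (by decide +kernel) ?_
    refine jn 447 (by decide +kernel) ?_
    refine jn 450 (by decide +kernel) ?_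
    refine jn 460 (by decide +kernel) ?_
    refine jn 470 (by decide +kernel) ?_
    refine jn 481 (by decide +kernel) ?_
    refine jn 491 (by decide +kernel) ?_
    refine jn 503 (by decide +kernel) ?_
    refine jn 518 (by decide +kernel) ?_
    refine jn 519 (by decide +kernel) ?_
    refine jn 521 (by decide +kernel) ?_
    refine jn 529 (by decide +kernel) ?_
    refine jn 543 (by decide +kernel) ?_
    refine jn 550 (by decide +kernel) ?_
    refine jn 552 (by decide +kernel) ?_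
    refine jn 561 (by decide +kernel) ?_
    refine jn 577 (by decide +kernel) ?_
    refine jn 592 (by decide +kernel) ?_
    refine jn 593 (by decide +kernel) ?_
    refine jn 602 (by decide +kernel) ?_
    refine jn 618 (by decide +kernel) ?_
    refine jn 625 (by decide +kernel) ?_
    refine jn 633 (by decide +kernel) ?_
    refine jn 644 (by decide +kernel) ?_
    refine jn 653 (by decide +kernel) ?_
    refine jn 662 (by decide +kernel) ?_
    refine jn 669 (by decide +kernel) ?_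
    refine jn 677 (by decide +kernel) ?_
    refine jn 686 (by decide +kernel) ?_
    refine jn 695 (by decide +kernel) ?_
    refine jn 705 (by decide +kernel) ?_
    refine jn 722 (by decide +kernel) ?_
    refine jn 738 (by decide +kernel) ?_
    refine jn 745 (by decide +kernel) ?_
    refine jn 754 (by decide +kernel) ?_
    refine jn 768 (by decide +kernel) ?_
    refine jn 771 (by decide +kernel) ?_
    refine jn 796 (by decide +kernel) ?_
    refine jn 823 (by decide +kernel) ?_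
    refine jn 844 (by decide +kernel) ?_
    refine jn 871 (by decide +kernel) ?_
    refine jn 887 (by decide +kernel) ?_
    refine jn 919 (by decide +kernel) ?_
    refine jn 950 (by decide +kernel) ?_
    refine jn 968 (by decide +kernel) ?_
    refine jn 1013 (by decide +kernel) ?_
    refine jn 1031 (by decide +kernel) ?_
    refine jn 1034 (by decide +kernel) ?_
    refine jn 1035 (by decide +kernel) ?_
    refine jn 1042 (by decide +kernel) ?_
    refine jn 1049 (by decide +kernel) ?_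
    refine jn 1055 (by decide +kernel) ?_
    refine jn 1060 (by decide +kernel) ?_
    refine jn 1066 (by decide +kernel) ?_
    refine jn 1073 (by decide +kernel) ?_
    refine jn 1078 (by decide +kernel) ?_
    refine jn 1079 (by decide +kernel) ?_
    refine jn 1090 (by decide +kernel) ?_
    refine jn 1094 (by decide +kernel) ?_
    refine jn 1095 (by decide +kernel) ?_
    refine jn 1106 (by decide +kernel) ?_
    refine jn 1109 (by decide +kernel) ?_
    refine jn 1115 (by decide +kernel) ?_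
    refine jn 1126 (by decide +kernel) ?_
    refine jn 1130 (by decide +kernel) ?_
    refine jn 1136 (by decide +kernel) ?_
    refine jn 1142 (by decide +kernel) ?_
    refine jn 1154 (by decide +kernel) ?_
    refine jn 1155 (by decide +kernel) ?_
    refine jn 1169 (by decide +kernel) ?_
    refine jn 1174 (by decide +kernel) ?_
    refine jn 1177 (by decide +kernel) ?_
    refine jn 1189 (by decide +kernel) ?_
    refine jn 1190 (by decide +kernel) ?_
    refine jn 1192 (by decide +kernel) ?_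
    refine jn 1205 (by decide +kernel) ?_
    refine jn 1213 (by decide +kernel) ?_
    refine jn 1214 (by decide +kernel) ?_
    refine jn 1215 (by decide +kernel) ?_
    refine jn 1234 (by decide +kernel) ?_
    refine jn 1241 (by decide +kernel) ?_
    refine jn 1253 (by decide +kernel) ?_
    refine jn 1259 (by decide +kernel) ?_
    refine jn 1268 (by decide +kernel) ?_
    refine jn 1270 (by decide +kernel) ?_
    refine jn 1274 (by decide +kernel) ?_
    refine jn 1280 (by decide +kernel) ?_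
    refine jn 1298 (by decide +kernel) ?_
    refine jn 1319 (by decide +kernel) ?_
    refine jn 1362 (by decide +kernel) ?_
    refine jn 1398 (by decide +kernel) ?_
    refine jn 1440 (by decide +kernel) ?_
    refine jn 1490 (by decide +kernel) ?_
    refine jn 1503 (by decide +kernel) ?_
    refine jn 1511 (by decide +kernel) ?_
    refine jn 1512 (by decide +kernel) ?_
    refine jn 1520 (by decide +kernel) ?_
    refine jn 1527 (by decide +kernel) ?_
    refine jn 1529 (by decide +kernel) ?_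
    refine jn 1541 (by decide +kernel) ?_
    refine jn 1553 (by decide +kernel) ?_
    refine jn 1562 (by decide +kernel) ?_
    refine jn 1563 (by decide +kernel) ?_
    refine jn 1566 (by decide +kernel) ?_
    refine jn 1578 (by decide +kernel) ?_
    refine jn 1589 (by decide +kernel) ?_
    refine jn 1596 (by decide +kernel) ?_
    refine jn 1599 (by decide +kernel) ?_
    refine jn 1611 (by decide +kernel) ?_
    refine jn 1616 (by decide +kernel) ?_
    refine jn 1625 (by decide +kernel) ?_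
    refine jn 1632 (by decide +kernel) ?_
    refine jn 1643 (by decide +kernel) ?_
    refine jn 1655 (by decide +kernel) ?_
    refine jn 1661 (by decide +kernel) ?_
    refine jn 1668 (by decide +kernel) ?_
    refine jn 1685 (by decide +kernel) ?_
    refine jn 1703 (by decide +kernel) ?_
    refine jn 1706 (by decide +kernel) ?_
    refine jn 1709 (by decide +kernel) ?_
    refine jn 1725 (by decide +kernel) ?_
    refine jn 1750 (by decide +kernel) ?_
    refine jn 1756 (by decide +kernel) ?_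
    refine jn 1789 (by decide +kernel) ?_
    refine jn 1804 (by decide +kernel) ?_
    refine jn 1831 (by decide +kernel) ?_
    refine jn 1864 (by decide +kernel) ?_
    refine jn 1875 (by decide +kernel) ?_
    refine jn 1890 (by decide +kernel) ?_
    refine jn 1915 (by decide +kernel) ?_
    refine jn 1945 (by decide +kernel) ?_
    refine jn 1965 (by decide +kernel) ?_
    refine jn 1993 (by decide +kernel) ?_
    refine jn 2022 (by decide +kernel) ?_
    refine jn 2043 (by decide +kernel) ?_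
    refine jn 2067 (by decide +kernel) ?_
    refine jn 2101 (by decide +kernel) ?_
    refine jn 2136 (by decide +kernel) ?_
    refine jn 2166 (by decide +kernel) ?_
    refine jn 2196 (by decide +kernel) ?_
    refine jn 2229 (by decide +kernel) ?_
    refine jn 2250 (by decide +kernel) ?_
    refine jn 2278 (by decide +kernel) ?_
    refine jn 2304 (by decide +kernel) ?_
    refine jn 2338 (by decide +kernel) ?_
    refine jn 2373 (by decide +kernel) ?_
    refine jn 2422 (by decide +kernel) ?_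
    refine jn 2442 (by decide +kernel) ?_
    refine jn 2487 (by decide +kernel) ?_
    refine jn 2542 (by decide +kernel) ?_
    refine jn 2601 (by decide +kernel) ?_
    refine jn 2662 (by decide +kernel) ?_
    refine jn 2692 (by decide +kernel) ?_
    refine jn 2749 (by decide +kernel) ?_
    refine jn 2794 (by decide +kernel) ?_
    refine jn 2844 (by decide +kernel) ?_
    refine jn 2917 (by decide +kernel) ?_
    refine jn 2977 (by decide +kernel) ?_
    refine jn 3021 (by decide +kernel) ?_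
    refine jn 3159 (by decide +kernel) ?_
    refine jn 3210 (by decide +kernel) ?_
    refine jn 3278 (by decide +kernel) ?_
    refine jn 3336 (by decide +kernel) ?_
    refine jn 3398 (by decide +kernel) ?_
    refine jn 3474 (by decide +kernel) ?_
    refine jn 3533 (by decide +kernel) ?_
    refine jn 3606 (by decide +kernel) ?_
    refine jn 3672 (by decide +kernel) ?_
    refine jn 3740 (by decide +kernel) ?_
    refine jn 3801 (by decide +kernel) ?_
    refine jn 3869 (by decide +kernel) ?_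
    refine jn 3944 (by decide +kernel) ?_
    refine jn 3984 (by decide +kernel) ?_
    refine jn 4279 (by decide +kernel) ?_
    refine jn 4399 (by decide +kernel) ?_
    refine jn 4517 (by decide +kernel) ?_
    refine jn 4620 (by decide +kernel) ?_
    refine jn 4869 (by decide +kernel) ?_
    refine jn 5003 (by decide +kernel) ?_
    refine jn 5108 (by decide +kernel) ?_
    refine jn 5170 (by decide +kernel) ?_
    refine jn 5244 (by decide +kernel) ?_
    refine jn 5488 (by decide +kernel) ?_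
    refine jn 5702 (by decide +kernel) ?_
    refine jn 5802 (by decide +kernel) ?_
    refine jn 5888 (by decide +kernel) ?_
    refine jn 6121 (by decide +kernel) ?_
    refine jn 6379 (by decide +kernel) ?_
    refine jn 6525 (by decide +kernel) ?_
    refine jn 6816 (by decide +kernel) ?_
    exact je (by decide +kernel)
  · refine fin 504 16915 T132_1 ?_
    refine jn 11 (by decide +kernel) ?_
    refine jn 25 (by decide +kernel) ?_
    refine jn 38 (by decide +kernel) ?_
    refine jn 52 (by decide +kernel) ?_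
    refine jn 65 (by decide +kernel) ?_
    refine jn 79 (by decide +kernel) ?_
    refine jn 94 (by decide +kernel) ?_
    refine jn 107 (by decide +kernel) ?_
    refine jn 121 (by decide +kernel) ?_
    refine jn 134 (by decide +kernel) ?_
    refine jn 146 (by decide +kernel) ?_
    refine jn 155 (by decide +kernel) ?_
    refine jn 169 (by decide +kernel) ?_
    refine jn 184 (by decide +kernel) ?_
    refine jn 194 (by decide +kernel) ?_
    refine jn 197 (by decide +kernel) ?_
    refine jn 213 (by decide +kernel) ?_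
    refine jn 218 (by decide +kernel) ?_
    refine jn 231 (by decide +kernel) ?_
    refine jn 241 (by decide +kernel) ?_
    refine jn 251 (by decide +kernel) ?_
    refine jn 264 (by decide +kernel) ?_
    refine jn 284 (by decide +kernel) ?_
    refine jn 297 (by decide +kernel) ?_
    refine jn 312 (by decide +kernel) ?_
    refine jn 317 (by decide +kernel) ?_
    refine jn 328 (by decide +kernel) ?_
    refine jn 340 (by decide +kernel) ?_
    refine jn 359 (by decide +kernel) ?_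
    refine jn 378 (by decide +kernel) ?_
    refine jn 389 (by decide +kernel) ?_
    refine jn 398 (by decide +kernel) ?_
    refine jn 433 (by decide +kernel) ?_
    refine jn 478 (by decide +kernel) ?_
    refine jn 513 (by decide +kernel) ?_
    refine jn 582 (by decide +kernel) ?_
    refine jn 593 (by decide +kernel) ?_
    refine jn 594 (by decide +kernel) ?_
    refine jn 601 (by decide +kernel) ?_
    refine jn 610 (by decide +kernel) ?_
    refine jn 629 (by decide +kernel) ?_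
    refine jn 630 (by decide +kernel) ?_
    refine jn 644 (by decide +kernel) ?_
    refine jn 646 (by decide +kernel) ?_
    refine jn 656 (by decide +kernel) ?_
    refine jn 665 (by decide +kernel) ?_
    refine jn 669 (by decide +kernel) ?_
    refine jn 678 (by decide +kernel) ?_
    refine jn 689 (by decide +kernel) ?_
    refine jn 700 (by decide +kernel) ?_
    refine jn 705 (by decide +kernel) ?_
    refine jn 717 (by decide +kernel) ?_
    refine jn 736 (by decide +kernel) ?_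
    refine jn 740 (by decide +kernel) ?_
    refine jn 753 (by decide +kernel) ?_
    refine jn 763 (by decide +kernel) ?_
    refine jn 772 (by decide +kernel) ?_
    refine jn 780 (by decide +kernel) ?_
    refine jn 793 (by decide +kernel) ?_
    refine jn 806 (by decide +kernel) ?_
    refine jn 814 (by decide +kernel) ?_
    refine jn 839 (by decide +kernel) ?_
    refine jn 846 (by decide +kernel) ?_
    refine jn 859 (by decide +kernel) ?_
    refine jn 869 (by decide +kernel) ?_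
    refine jn 878 (by decide +kernel) ?_
    refine jn 889 (by decide +kernel) ?_
    refine jn 911 (by decide +kernel) ?_
    refine jn 959 (by decide +kernel) ?_
    refine jn 1019 (by decide +kernel) ?_
    refine jn 1051 (by decide +kernel) ?_
    refine jn 1126 (by decide +kernel) ?_
    refine jn 1129 (by decide +kernel) ?_
    refine jn 1133 (by decide +kernel) ?_
    refine jn 1141 (by decide +kernel) ?_
    refine jn 1156 (by decide +kernel) ?_
    refine jn 1169 (by decide +kernel) ?_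
    refine jn 1173 (by decide +kernel) ?_
    refine jn 1176 (by decide +kernel) ?_
    refine jn 1185 (by decide +kernel) ?_
    refine jn 1204 (by decide +kernel) ?_
    refine jn 1209 (by decide +kernel) ?_
    refine jn 1213 (by decide +kernel) ?_
    refine jn 1237 (by decide +kernel) ?_
    refine jn 1254 (by decide +kernel) ?_
    refine jn 1255 (by decide +kernel) ?_
    refine jn 1269 (by decide +kernel) ?_
    refine jn 1277 (by decide +kernel) ?_
    refine jn 1278 (by decide +kernel) ?_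
    refine jn 1282 (by decide +kernel) ?_
    refine jn 1286 (by decide +kernel) ?_
    refine jn 1293 (by decide +kernel) ?_
    refine jn 1306 (by decide +kernel) ?_
    refine jn 1318 (by decide +kernel) ?_
    refine jn 1322 (by decide +kernel) ?_
    refine jn 1325 (by decide +kernel) ?_
    refine jn 1326 (by decide +kernel) ?_
    refine jn 1334 (by decide +kernel) ?_
    refine jn 1342 (by decide +kernel) ?_
    refine jn 1354 (by decide +kernel) ?_
    refine jn 1358 (by decide +kernel) ?_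
    refine jn 1359 (by decide +kernel) ?_
    refine jn 1370 (by decide +kernel) ?_
    refine jn 1386 (by decide +kernel) ?_
    refine jn 1403 (by decide +kernel) ?_
    refine jn 1404 (by decide +kernel) ?_
    refine jn 1417 (by decide +kernel) ?_
    refine jn 1424 (by decide +kernel) ?_
    refine jn 1545 (by decide +kernel) ?_
    refine jn 1683 (by decide +kernel) ?_
    refine jn 1685 (by decide +kernel) ?_
    refine jn 1696 (by decide +kernel) ?_
    refine jn 1704 (by decide +kernel) ?_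
    refine jn 1713 (by decide +kernel) ?_
    refine jn 1724 (by decide +kernel) ?_
    refine jn 1731 (by decide +kernel) ?_
    refine jn 1740 (by decide +kernel) ?_
    refine jn 1745 (by decide +kernel) ?_
    refine jn 1756 (by decide +kernel) ?_
    refine jn 1764 (by decide +kernel) ?_
    refine jn 1775 (by decide +kernel) ?_
    refine jn 1784 (by decide +kernel) ?_
    refine jn 1792 (by decide +kernel) ?_
    refine jn 1800 (by decide +kernel) ?_
    refine jn 1809 (by decide +kernel) ?_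
    refine jn 1813 (by decide +kernel) ?_
    refine jn 1829 (by decide +kernel) ?_
    refine jn 1839 (by decide +kernel) ?_
    refine jn 1845 (by decide +kernel) ?_
    refine jn 1860 (by decide +kernel) ?_
    refine jn 1873 (by decide +kernel) ?_
    refine jn 1880 (by decide +kernel) ?_
    refine jn 1888 (by decide +kernel) ?_
    refine jn 1897 (by decide +kernel) ?_
    refine jn 1899 (by decide +kernel) ?_
    refine jn 1910 (by decide +kernel) ?_
    refine jn 1913 (by decide +kernel) ?_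
    refine jn 1925 (by decide +kernel) ?_
    refine jn 1934 (by decide +kernel) ?_
    refine jn 1942 (by decide +kernel) ?_
    refine jn 1945 (by decide +kernel) ?_
    refine jn 1954 (by decide +kernel) ?_
    refine jn 1959 (by decide +kernel) ?_
    refine jn 1970 (by decide +kernel) ?_
    refine jn 1978 (by decide +kernel) ?_
    refine jn 1989 (by decide +kernel) ?_
    refine jn 1998 (by decide +kernel) ?_
    refine jn 2005 (by decide +kernel) ?_
    refine jn 2009 (by decide +kernel) ?_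
    refine jn 2014 (by decide +kernel) ?_
    refine jn 2023 (by decide +kernel) ?_
    refine jn 2027 (by decide +kernel) ?_
    refine jn 2039 (by decide +kernel) ?_
    refine jn 2053 (by decide +kernel) ?_
    refine jn 2059 (by decide +kernel) ?_
    refine jn 2074 (by decide +kernel) ?_
    refine jn 2087 (by decide +kernel) ?_
    refine jn 2094 (by decide +kernel) ?_
    refine jn 2102 (by decide +kernel) ?_
    refine jn 2122 (by decide +kernel) ?_
    refine jn 2153 (by decide +kernel) ?_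
    refine jn 2175 (by decide +kernel) ?_
    refine jn 2235 (by decide +kernel) ?_
    refine jn 2265 (by decide +kernel) ?_
    refine jn 2299 (by decide +kernel) ?_
    refine jn 2330 (by decide +kernel) ?_
    refine jn 2367 (by decide +kernel) ?_
    refine jn 2399 (by decide +kernel) ?_
    refine jn 2433 (by decide +kernel) ?_
    refine jn 2452 (by decide +kernel) ?_
    refine jn 2457 (by decide +kernel) ?_
    refine jn 2474 (by decide +kernel) ?_
    refine jn 2501 (by decide +kernel) ?_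
    refine jn 2536 (by decide +kernel) ?_
    refine jn 2550 (by decide +kernel) ?_
    refine jn 2565 (by decide +kernel) ?_
    refine jn 2582 (by decide +kernel) ?_
    refine jn 2605 (by decide +kernel) ?_
    refine jn 2616 (by decide +kernel) ?_
    refine jn 2632 (by decide +kernel) ?_
    refine jn 2650 (by decide +kernel) ?_
    refine jn 2677 (by decide +kernel) ?_
    refine jn 2681 (by decide +kernel) ?_
    refine jn 2710 (by decide +kernel) ?_
    refine jn 2732 (by decide +kernel) ?_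
    refine jn 2762 (by decide +kernel) ?_
    refine jn 2792 (by decide +kernel) ?_
    refine jn 2817 (by decide +kernel) ?_
    refine jn 2877 (by decide +kernel) ?_
    refine jn 2901 (by decide +kernel) ?_
    refine jn 2933 (by decide +kernel) ?_
    refine jn 2956 (by decide +kernel) ?_
    refine jn 2986 (by decide +kernel) ?_
    refine jn 3021 (by decide +kernel) ?_
    refine jn 3066 (by decide +kernel) ?_
    refine jn 3086 (by decide +kernel) ?_
    refine jn 3125 (by decide +kernel) ?_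
    refine jn 3146 (by decide +kernel) ?_
    refine jn 3170 (by decide +kernel) ?_
    refine jn 3190 (by decide +kernel) ?_
    refine jn 3217 (by decide +kernel) ?_
    refine jn 3238 (by decide +kernel) ?_
    refine jn 3271 (by decide +kernel) ?_
    refine jn 3306 (by decide +kernel) ?_
    refine jn 3326 (by decide +kernel) ?_
    refine jn 3354 (by decide +kernel) ?_
    refine jn 3370 (by decide +kernel) ?_
    refine jn 3381 (by decide +kernel) ?_
    refine jn 3395 (by decide +kernel) ?_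
    refine jn 3425 (by decide +kernel) ?_
    refine jn 3447 (by decide +kernel) ?_
    refine jn 3482 (by decide +kernel) ?_
    refine jn 3510 (by decide +kernel) ?_
    refine jn 3522 (by decide +kernel) ?_
    refine jn 3555 (by decide +kernel) ?_
    refine jn 3605 (by decide +kernel) ?_
    refine jn 3618 (by decide +kernel) ?_
    refine jn 3643 (by decide +kernel) ?_
    refine jn 3653 (by decide +kernel) ?_
    refine jn 3674 (by decide +kernel) ?_
    refine jn 3698 (by decide +kernel) ?_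
    refine jn 3722 (by decide +kernel) ?_
    refine jn 3735 (by decide +kernel) ?_
    refine jn 3755 (by decide +kernel) ?_
    refine jn 3785 (by decide +kernel) ?_
    refine jn 3794 (by decide +kernel) ?_
    refine jn 3803 (by decide +kernel) ?_
    refine jn 3819 (by decide +kernel) ?_
    refine jn 3830 (by decide +kernel) ?_
    refine jn 3842 (by decide +kernel) ?_
    refine jn 3874 (by decide +kernel) ?_
    refine jn 3911 (by decide +kernel) ?_
    refine jn 3941 (by decide +kernel) ?_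
    refine jn 3974 (by decide +kernel) ?_
    refine jn 3990 (by decide +kernel) ?_
    refine jn 4006 (by decide +kernel) ?_
    refine jn 4023 (by decide +kernel) ?_
    refine jn 4046 (by decide +kernel) ?_
    refine jn 4069 (by decide +kernel) ?_
    refine jn 4082 (by decide +kernel) ?_
    refine jn 4118 (by decide +kernel) ?_
    refine jn 4153 (by decide +kernel) ?_
    refine jn 4168 (by decide +kernel) ?_
    refine jn 4193 (by decide +kernel) ?_
    refine jn 4205 (by decide +kernel) ?_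
    refine jn 4241 (by decide +kernel) ?_
    refine jn 4265 (by decide +kernel) ?_
    refine jn 4301 (by decide +kernel) ?_
    refine jn 4330 (by decide +kernel) ?_
    refine jn 4357 (by decide +kernel) ?_
    refine jn 4381 (by decide +kernel) ?_
    refine jn 4417 (by decide +kernel) ?_
    refine jn 4460 (by decide +kernel) ?_
    refine jn 4492 (by decide +kernel) ?_
    refine jn 4517 (by decide +kernel) ?_
    refine jn 4538 (by decide +kernel) ?_
    refine jn 4584 (by decide +kernel) ?_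
    refine jn 4629 (by decide +kernel) ?_
    refine jn 4664 (by decide +kernel) ?_
    refine jn 4681 (by decide +kernel) ?_
    refine jn 4714 (by decide +kernel) ?_
    refine jn 4745 (by decide +kernel) ?_
    refine jn 4766 (by decide +kernel) ?_
    refine jn 4813 (by decide +kernel) ?_
    refine jn 4845 (by decide +kernel) ?_
    refine jn 4893 (by decide +kernel) ?_
    refine jn 4913 (by decide +kernel) ?_
    refine jn 4953 (by decide +kernel) ?_
    refine jn 5000 (by decide +kernel) ?_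
    refine jn 5032 (by decide +kernel) ?_
    refine jn 5088 (by decide +kernel) ?_
    refine jn 5156 (by decide +kernel) ?_
    refine jn 5199 (by decide +kernel) ?_
    refine jn 5249 (by decide +kernel) ?_
    refine jn 5323 (by decide +kernel) ?_
    refine jn 5357 (by decide +kernel) ?_
    refine jn 5419 (by decide +kernel) ?_
    refine jn 5483 (by decide +kernel) ?_
    refine jn 5533 (by decide +kernel) ?_
    refine jn 5600 (by decide +kernel) ?_
    refine jn 5665 (by decide +kernel) ?_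
    refine jn 5711 (by decide +kernel) ?_
    refine jn 5764 (by decide +kernel) ?_
    refine jn 5819 (by decide +kernel) ?_
    refine jn 5888 (by decide +kernel) ?_
    refine jn 5937 (by decide +kernel) ?_
    refine jn 6011 (by decide +kernel) ?_
    refine jn 6059 (by decide +kernel) ?_
    refine jn 6116 (by decide +kernel) ?_
    refine jn 6189 (by decide +kernel) ?_
    refine jn 6338 (by decide +kernel) ?_
    refine jn 6466 (by decide +kernel) ?_
    refine jn 6558 (by decide +kernel) ?_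
    refine jn 6610 (by decide +kernel) ?_
    refine jn 6689 (by decide +kernel) ?_
    refine jn 6769 (by decide +kernel) ?_
    refine jn 6864 (by decide +kernel) ?_
    refine jn 6910 (by decide +kernel) ?_
    refine jn 6976 (by decide +kernel) ?_
    refine jn 7037 (by decide +kernel) ?_
    refine jn 7105 (by decide +kernel) ?_
    refine jn 7177 (by decide +kernel) ?_
    refine jn 7232 (by decide +kernel) ?_
    refine jn 7309 (by decide +kernel) ?_
    refine jn 7390 (by decide +kernel) ?_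
    refine jn 7461 (by decide +kernel) ?_
    refine jn 7541 (by decide +kernel) ?_
    refine jn 7609 (by decide +kernel) ?_
    refine jn 7696 (by decide +kernel) ?_
    refine jn 7777 (by decide +kernel) ?_
    refine jn 7869 (by decide +kernel) ?_
    refine jn 7929 (by decide +kernel) ?_
    refine jn 7996 (by decide +kernel) ?_
    refine jn 8085 (by decide +kernel) ?_
    refine jn 8321 (by decide +kernel) ?_
    refine jn 8569 (by decide +kernel) ?_
    refine jn 8697 (by decide +kernel) ?_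
    refine jn 8813 (by decide +kernel) ?_
    refine jn 8928 (by decide +kernel) ?_
    refine jn 9041 (by decide +kernel) ?_
    refine jn 9125 (by decide +kernel) ?_
    refine jn 9203 (by decide +kernel) ?_
    refine jn 9269 (by decide +kernel) ?_
    refine jn 9336 (by decide +kernel) ?_
    refine jn 9388 (by decide +kernel) ?_
    refine jn 9673 (by decide +kernel) ?_
    refine jn 9903 (by decide +kernel) ?_
    refine jn 10086 (by decide +kernel) ?_
    refine jn 10220 (by decide +kernel) ?_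
    refine jn 10320 (by decide +kernel) ?_
    refine jn 10431 (by decide +kernel) ?_
    refine jn 10527 (by decide +kernel) ?_
    refine jn 10603 (by decide +kernel) ?_
    refine jn 10677 (by decide +kernel) ?_
    refine jn 11095 (by decide +kernel) ?_
    refine jn 11328 (by decide +kernel) ?_
    refine jn 11508 (by decide +kernel) ?_
    refine jn 11674 (by decide +kernel) ?_
    refine jn 11807 (by decide +kernel) ?_
    refine jn 11912 (by decide +kernel) ?_
    refine jn 11999 (by decide +kernel) ?_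
    refine jn 12431 (by decide +kernel) ?_
    refine jn 12590 (by decide +kernel) ?_
    refine jn 12745 (by decide +kernel) ?_
    refine jn 12851 (by decide +kernel) ?_
    refine jn 12943 (by decide +kernel) ?_
    refine jn 13037 (by decide +kernel) ?_
    refine jn 13105 (by decide +kernel) ?_
    refine jn 13182 (by decide +kernel) ?_
    refine jn 13254 (by decide +kernel) ?_
    refine jn 13713 (by decide +kernel) ?_
    refine jn 13944 (by decide +kernel) ?_
    refine jn 14086 (by decide +kernel) ?_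
    refine jn 14221 (by decide +kernel) ?_
    refine jn 14346 (by decide +kernel) ?_
    refine jn 14454 (by decide +kernel) ?_
    refine jn 14556 (by decide +kernel) ?_
    refine jn 15142 (by decide +kernel) ?_
    refine jn 15376 (by decide +kernel) ?_
    refine jn 15524 (by decide +kernel) ?_
    refine jn 15682 (by decide +kernel) ?_
    refine jn 15822 (by decide +kernel) ?_
    refine jn 16398 (by decide +kernel) ?_
    exact je (by decide +kernel)
  · refine fin 504 565 T132_2 ?_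
    refine jn 3 (by decide +kernel) ?_
    refine jn 4 (by decide +kernel) ?_
    refine jn 6 (by decide +kernel) ?_
    refine jn 7 (by decide +kernel) ?_
    refine jn 8 (by decide +kernel) ?_
    refine jn 9 (by decide +kernel) ?_
    refine jn 10 (by decide +kernel) ?_
    refine jn 11 (by decide +kernel) ?_
    refine jn 13 (by decide +kernel) ?_
    refine jn 14 (by decide +kernel) ?_
    refine jn 16 (by decide +kernel) ?_
    refine jn 17 (by decide +kernel) ?_
    refine jn 18 (by decide +kernel) ?_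
    refine jn 19 (by decide +kernel) ?_
    refine jn 20 (by decide +kernel) ?_
    refine jn 21 (by decide +kernel) ?_
    refine jn 23 (by decide +kernel) ?_
    refine jn 43 (by decide +kernel) ?_
    refine jn 48 (by decide +kernel) ?_
    refine jn 50 (by decide +kernel) ?_
    refine jn 52 (by decide +kernel) ?_
    refine jn 55 (by decide +kernel) ?_
    refine jn 58 (by decide +kernel) ?_
    refine jn 60 (by decide +kernel) ?_
    refine jn 62 (by decide +kernel) ?_
    refine jn 65 (by decide +kernel) ?_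
    refine jn 78 (by decide +kernel) ?_
    refine jn 86 (by decide +kernel) ?_
    refine jn 94 (by decide +kernel) ?_
    refine jn 99 (by decide +kernel) ?_
    refine jn 137 (by decide +kernel) ?_
    refine jn 171 (by decide +kernel) ?_
    refine jn 174 (by decide +kernel) ?_
    refine jn 176 (by decide +kernel) ?_
    refine jn 177 (by decide +kernel) ?_
    refine jn 178 (by decide +kernel) ?_
    refine jn 179 (by decide +kernel) ?_
    refine jn 182 (by decide +kernel) ?_
    refine jn 184 (by decide +kernel) ?_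
    refine jn 188 (by decide +kernel) ?_
    refine jn 192 (by decide +kernel) ?_
    refine jn 196 (by decide +kernel) ?_
    refine jn 197 (by decide +kernel) ?_
    refine jn 213 (by decide +kernel) ?_
    refine jn 222 (by decide +kernel) ?_
    refine jn 250 (by decide +kernel) ?_
    refine jn 261 (by decide +kernel) ?_
    refine jn 264 (by decide +kernel) ?_
    refine jn 267 (by decide +kernel) ?_
    refine jn 270 (by decide +kernel) ?_
    refine jn 275 (by decide +kernel) ?_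
    refine jn 281 (by decide +kernel) ?_
    refine jn 283 (by decide +kernel) ?_
    refine jn 296 (by decide +kernel) ?_
    refine jn 309 (by decide +kernel) ?_
    refine jn 336 (by decide +kernel) ?_
    refine jn 343 (by decide +kernel) ?_
    refine jn 344 (by decide +kernel) ?_
    refine jn 345 (by decide +kernel) ?_
    refine jn 346 (by decide +kernel) ?_
    refine jn 347 (by decide +kernel) ?_
    refine jn 348 (by decide +kernel) ?_
    refine jn 349 (by decide +kernel) ?_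
    refine jn 350 (by decide +kernel) ?_
    refine jn 351 (by decide +kernel) ?_
    refine jn 352 (by decide +kernel) ?_
    refine jn 353 (by decide +kernel) ?_
    refine jn 363 (by decide +kernel) ?_
    refine jn 377 (by decide +kernel) ?_
    refine jn 379 (by decide +kernel) ?_
    refine jn 380 (by decide +kernel) ?_
    refine jn 381 (by decide +kernel) ?_
    refine jn 382 (by decide +kernel) ?_
    refine jn 383 (by decide +kernel) ?_
    refine jn 384 (by decide +kernel) ?_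
    refine jn 385 (by decide +kernel) ?_
    refine jn 386 (by decide +kernel) ?_
    refine jn 387 (by decide +kernel) ?_
    refine jn 388 (by decide +kernel) ?_
    refine jn 389 (by decide +kernel) ?_
    refine jn 390 (by decide +kernel) ?_
    refine jn 391 (by decide +kernel) ?_
    refine jn 396 (by decide +kernel) ?_
    refine jn 401 (by decide +kernel) ?_
    refine jn 407 (by decide +kernel) ?_
    refine jn 417 (by decide +kernel) ?_
    refine jn 424 (by decide +kernel) ?_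
    refine jn 435 (by decide +kernel) ?_
    refine jn 445 (by decide +kernel) ?_
    refine jn 458 (by decide +kernel) ?_
    refine jn 464 (by decide +kernel) ?_
    refine jn 477 (by decide +kernel) ?_
    refine jn 487 (by decide +kernel) ?_
    refine jn 490 (by decide +kernel) ?_
    refine jn 491 (by decide +kernel) ?_
    refine jn 492 (by decide +kernel) ?_
    refine jn 493 (by decide +kernel) ?_
    refine jn 494 (by decide +kernel) ?_
    refine jn 495 (by decide +kernel) ?_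
    refine jn 496 (by decide +kernel) ?_
    refine jn 497 (by decide +kernel) ?_
    refine jn 498 (by decide +kernel) ?_
    refine jn 499 (by decide +kernel) ?_
    refine jn 501 (by decide +kernel) ?_
    refine jn 502 (by decide +kernel) ?_
    refine jn 503 (by decide +kernel) ?_
    refine jn 504 (by decide +kernel) ?_
    refine jn 505 (by decide +kernel) ?_
    refine jn 506 (by decide +kernel) ?_
    refine jn 507 (by decide +kernel) ?_
    refine jn 508 (by decide +kernel) ?_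
    refine jn 509 (by decide +kernel) ?_
    refine jn 510 (by decide +kernel) ?_
    refine jn 511 (by decide +kernel) ?_
    refine jn 515 (by decide +kernel) ?_
    refine jn 518 (by decide +kernel) ?_
    refine jn 522 (by decide +kernel) ?_
    refine jn 524 (by decide +kernel) ?_
    refine jn 528 (by decide +kernel) ?_
    refine jn 529 (by decide +kernel) ?_
    refine jn 530 (by decide +kernel) ?_
    refine jn 531 (by decide +kernel) ?_
    refine jn 539 (by decide +kernel) ?_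
    refine jn 540 (by decide +kernel) ?_
    refine jn 541 (by decide +kernel) ?_
    refine jn 542 (by decide +kernel) ?_
    refine jn 543 (by decide +kernel) ?_
    refine jn 544 (by decide +kernel) ?_
    refine jn 545 (by decide +kernel) ?_
    refine jn 546 (by decide +kernel) ?_
    refine jn 547 (by decide +kernel) ?_
    refine jn 548 (by decide +kernel) ?_
    refine jn 549 (by decide +kernel) ?_
    refine jn 550 (by decide +kernel) ?_
    refine jn 555 (by decide +kernel) ?_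
    refine jn 560 (by decide +kernel) ?_
    exact je (by decide +kernel)

end Pool.Agent.MP_2339ce_nt.NR
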