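import Pool.Agent.MP_2339ce_nt.Q2.NC.L6
import Pool.Agent.MP_2339ce_nt.Q2.NC.L8
import Pool.Agent.MP_2339ce_nt.Q2.CkI

/-! Block NR: runs. -/

set_option autoImplicit false
set_option maxRecDepth 100000

noncomputable section

namespace Pool.Agent.MP_2339ce_nt.NR

open Q2.Top

def T137_0 : Ph :=
  (.na 681 22 (.na 512 10 (.na 199 6 (.na 1 2 .ne (.na 198 3 (.nx 197 3329023 (.nr 196 623489 (.nx
  155 832257 (.nx 53 26009 (.nx 4 174 (.nx 3 173 (.nr 2 25 (.lg 0 false 1 41 41 5 0 720) (.l1 .sk))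
  (.l1 .sk)) (.nr 39 131073 (.lg 0 false 35 101 107 13 0 720720) (.nx 52 257 (.lg 0 false 13 79 79
  9 0 1872) .out))) (.nr 154 110219 (.nr 86 2437 (.nr 74 450 (.lg 0 true 21 89 89 11 0 5040) (.nx
  85 416129 (.lg 2 true 11 89 97 9 79990 7920) .out)) (.nx 153 330282 (.nx 97 32769 (.lg 1 false 11
  97 101 9 63517 7920) (.nr 152 92683 (.nr 108 27556 (.lg 2 false 11 101 103 9 12664 720720) (.nx
  151 165142 (.nr 129 55110 (.lg 2 false 21 101 103 11 25247 720720) (.nx 150 131073 (.lg 2 true 21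
  101 107 11 42405 720720) .out)) .out)) .out)) .out)) .out)) (.nr 195 129 (.nx 176 1664512 (.lg 0
  true 21 79 79 11 0 1008) (.nr 194 9 (.lg 0 true 18 67 67 9 0 144) .out)) .out)) .out) .out) .ne))
  (.na 417 8 (.na 320 7 (.nx 319 13316087 (.nr 318 623489 (.nx 203 205 (.nx 201 173 (.nr 200 64
  (.lg 0 true 1 31 31 7 0 144) (.l1 .sk)) (.nx 202 174 (.l1 .sk) (.l1 (.ls 83 43 1961)))) (.nr 317
  370729 (.nx 225 20642 (.nr 213 110219 (.lg 0 false 10 97 101 13 0 5040) (.nx 224 3252 (.nr 218
  220437 (.lg 0 false 5 89 89 13 0 720) (.nx 223 647 (.lg 0 false 5 79 79 13 0 720) .out)) .out))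
  (.nr 316 155873 (.nx 290 1664512 (.nx 279 832257 (.nr 235 1026 (.lg 0 true 10 83 83 13 0 720)
  (.nx 278 660563 (.nr 240 8201 (.lg 2 true 5 89 97 13 55691 5040) (.nx 256 52015 (.nr 255 131073
  (.nx 250 38224 (.lg 1 false 10 101 107 13 95150 720720) (.lg 1 false 5 97 101 13 51383 5040))
  .out) (.nx 272 131073 (.nx 261 73561 (.lg 1 false 5 97 101 13 44895 5040) (.nx 266 104033 (.lg 1
  false 5 97 101 13 31745 5040) (.nr 271 131073 (.lg 1 true 5 97 97 13 18880 5040) .out))) (.nr 277
  65537 (.lg 2 false 5 89 97 13 7503 5040) .out)))) .out)) (.nr 289 129 (.lg 0 true 10 73 73 13 0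
  720) .out)) (.nr 315 28 (.lg 0 true 25 73 73 13 0 720) .out)) .out)) .out)) .out) .out) (.nx 416
  13316087 (.nr 415 262145 (.nx 388 1664512 (.nx 323 174 (.nx 322 173 (.nr 321 74 (.lg 0 true 1 31
  31 9 0 2520) (.l1 .sk)) (.l1 .sk)) (.nx 339 26007 (.nr 334 110219 (.lg 0 false 11 101 103 16 0
  720720) (.nx 338 1627 (.lg 0 false 4 89 89 13 0 5040) .out)) (.nr 387 131073 (.nr 350 626 (.lg 0
  true 11 89 89 16 0 27720) (.nx 386 524289 (.nr 354 5389 (.lg 2 true 4 89 97 13 72446 5040) (.nx
  381 131073 (.nx 365 52015 (.lg 1 false 11 97 103 16 75521 720720) (.nx 376 104033 (.lg 1 true 11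
  97 103 16 37760 720720) (.nr 380 110219 (.lg 1 true 4 97 97 13 15880 5040) .out))) (.nr 385 77937
  (.lg 2 false 4 97 97 13 8918 5040) .out))) .out)) .out))) (.nr 414 47 (.lg 0 true 26 83 83 16 0
  13104) .out)) .out) .out)) (.na 418 9 .ne (.nx 511 13316087 (.nr 510 623489 (.nx 420 173 (.nr 419
  93 (.lg 0 true 1 23 23 7 0 72) (.l1 .sk)) (.nx 421 174 (.l1 .sk) (.nr 504 131073 (.nx 431 30928
  (.lg 0 false 10 89 97 16 0 720) (.nx 475 1664512 (.nr 447 745 (.nx 441 832257 (.lg 0 true 10 79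
  79 16 0 720) (.nr 446 129 (.lg 0 true 5 71 71 16 0 360) .out)) (.nx 474 524289 (.nx 452 46340
  (.lg 1 false 5 83 89 16 63505 360) (.nr 456 3129 (.lg 2 true 4 79 79 16 60874 144) (.nx 461 69433
  (.lg 1 false 5 83 89 16 42384 360) (.nx 466 104033 (.lg 1 true 5 83 89 16 28287 360) (.nr 473
  110219 (.lg 2 false 7 101 103 16 15880 720720) .out))))) .out)) (.nr 503 65 (.lg 0 true 28 73 73
  16 0 1008) .out))) (.nx 509 1627 (.lg 0 false 5 83 83 16 0 360) .out)))) .out) .out)))) (.na 558
  14 (.na 513 11 .ne (.na 557 12 (.nx 556 1664512 (.nr 555 623489 (.nx 515 173 (.nr 514 111 (.lg 0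
  true 1 29 29 9 0 5544) (.l1 .sk)) (.nx 516 174 (.l1 .sk) (.nx 549 524289 (.nr 543 131073 (.nx 526
  35390 (.lg 0 false 10 97 101 16 0 55440) (.nr 531 1621 (.lg 0 true 5 83 83 16 0 3960) (.nx 542
  416129 (.nx 536 65537 (.lg 1 false 5 89 97 16 55498 27720) (.nr 541 110219 (.lg 2 false 5 97 101
  16 25207 27720) .out)) .out))) (.nx 548 1292 (.lg 0 false 5 83 83 16 0 27720) .out)) (.nr 554 65
  (.lg 0 true 5 67 67 16 0 3960) .out)))) .out) .out) .ne)) (.na 600 18 (.na 599 16 (.nx 598
  1664512 (.nr 597 623489 (.nr 559 5 .s1 (.nx 562 174 (.nx 561 173 (.nr 560 149 (.lg 0 true 1 29 29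
  11 0 1008) (.l1 .sk)) (.l1 .sk)) (.nr 591 155873 (.nx 567 31317 (.lg 0 false 5 103 103 13 0
  720720) (.nr 590 110219 (.nr 578 1621 (.nx 572 524289 (.lg 0 true 5 83 83 13 0 5040) (.nr 577 65
  (.lg 0 true 5 67 67 13 0 5040) .out)) (.nx 589 416129 (.nx 583 65537 (.lg 1 false 5 101 101 13
  52751 720720) (.nr 588 92683 (.lg 2 false 5 97 101 13 22206 55440) .out)) .out)) .out)) (.nx 596
  1292 (.lg 0 false 5 83 83 13 0 5040) .out)))) .out) .out) .ne) (.na 640 21 (.nx 639 1664512 (.nr
  638 1048577 (.nr 601 13 .s1 (.nx 604 174 (.nx 603 173 (.nr 602 196 (.lg 0 true 1 29 29 13 0 5040)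
  (.l1 .sk)) (.l1 .sk)) (.nx 605 257 (.l1 (.ls 83 43 1990)) (.nr 637 623489 (.nr 631 220437 (.nx
  625 262145 (.nr 619 92683 (.nx 610 41287 (.lg 0 false 5 89 97 19 0 5040) (.nr 618 77937 (.nr 613
  1854 (.lg 0 true 3 79 79 13 0 144) (.lg 2 false 5 89 97 19 28312 5040)) .out)) (.nx 624 13005
  (.lg 0 false 5 83 89 19 0 5040) .out)) (.nr 630 217 (.lg 0 true 5 71 71 19 0 720) .out)) (.nx 636
  1627 (.lg 0 false 5 79 83 19 0 5040) .out)) .out)))) .out) .out) (.nx 680 1664512 (.nr 679
  1048577 (.nr 641 17 .s1 (.nx 673 262145 (.nx 643 173 (.nr 642 205 (.lg 0 false 1 29 29 16 0 504)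
  (.l1 .sk)) (.nx 644 174 (.l1 .sk) (.nx 645 257 (.l1 (.ls 79 37 1706)) (.nr 672 623489 (.nx 662
  41287 (.nr 650 92683 (.lg 0 false 5 83 89 19 0 2520) (.nx 661 13005 (.nr 655 220437 (.lg 0 false
  5 79 89 19 0 2520) (.nx 660 1627 (.lg 0 false 5 73 83 19 0 2520) .out)) .out)) (.nr 671 77937
  (.nr 667 1854 (.lg 0 true 5 73 79 19 0 2520) (.lg 2 false 4 97 103 17 28312 720720)) .out))
  .out)))) (.nr 678 217 (.lg 0 true 5 71 71 19 0 2520) .out))) .out) .out))))) (.na 811 39 (.na 740
  27 (.na 714 23 (.nx 713 1664512 (.nr 712 1048577 (.nr 682 18 .s1 (.nx 685 174 (.nx 684 173 (.nr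
  683 214 (.lg 0 false 1 29 29 9 0 1584) (.l1 .sk)) (.l1 .sk)) (.nx 686 257 (.l1 (.ls 83 41 1629))
  (.nr 711 623489 (.nx 697 24856 (.nr 693 220437 (.lg 0 false 7 97 101 19 0 720720) (.nx 696 1627
  (.lg 0 false 3 79 79 13 0 1584) .out)) (.nr 710 92683 (.nr 704 634 (.lg 0 true 7 79 79 19 0
  11088) (.nx 709 262145 (.lg 2 false 5 101 103 19 55905 720720) .out)) .out)) .out)))) .out) .out)
  (.na 715 26 .ne (.nx 739 1664512 (.nr 738 1048577 (.nr 716 23 .s1 (.nx 719 174 (.nx 718 173 (.nr
  717 252 (.lg 0 false 1 23 23 11 0 1872) (.l1 .sk)) (.l1 .sk)) (.nx 720 257 (.l1 (.ls 79 41 1378))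
  (.nr 737 311745 (.nx 725 20644 (.lg 0 false 5 89 89 19 0 9360) (.nr 736 77937 (.nr 730 513 (.lg 0
  true 5 73 73 19 0 9360) (.nx 735 165142 (.lg 2 false 5 89 89 19 56623 9360) .out)) .out))
  .out)))) .out) .out))) (.na 769 37 (.na 768 32 (.nx 767 1664512 (.nr 766 1048577 (.nr 741 24 .s1
  (.nx 755 41287 (.nx 743 173 (.nr 742 298 (.lg 0 false 1 23 23 16 0 2520) (.l1 .sk)) (.nx 744 174
  (.l1 .sk) (.nx 745 257 (.l1 (.ls 73 31 1327)) (.nr 754 311745 (.nr 749 110219 (.lg 0 false 4 89
  97 16 0 5040) (.nx 753 8193 (.lg 0 false 4 83 83 16 0 144) .out)) .out)))) (.nr 765 65537 (.nr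
  760 513 (.lg 0 true 5 71 71 16 0 360) (.nx 764 165142 (.lg 2 false 4 83 89 16 27846 5040) .out))
  .out))) .out) .out) .ne) (.na 790 38 (.nx 789 1664512 (.nr 788 881745 (.nr 770 35 .s1 (.nx 779
  20644 (.nx 774 257 (.nx 772 173 (.nr 771 354 (.lg 0 false 1 17 17 16 0 360) (.l1 .sk)) (.nx 773
  174 (.l1 .sk) (.l1 (.ls 73 23 969)))) (.nr 778 440873 (.lg 0 false 4 97 97 16 0 720) .out)) (.nr
  787 46342 (.nr 783 257 (.lg 0 true 4 67 67 16 0 144) (.nx 786 104033 (.lg 2 false 3 79 79 16
  35015 72) .out)) .out))) .out) .out) (.nx 810 1664512 (.nr 809 881745 (.nr 791 36 .s1 (.nx 795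
  257 (.nx 793 173 (.nr 792 364 (.lg 0 false 1 29 29 13 0 5040) (.l1 .sk)) (.nx 794 174 (.l1 .sk)
  (.l1 (.ls 79 37 944)))) (.nr 808 440873 (.nx 800 20644 (.lg 0 false 5 97 97 17 0 5040) (.nr 807
  46342 (.nr 804 257 (.lg 0 true 4 71 71 17 0 144) (.nx 806 104033 (.lg 2 true 2 89 89 13 35015
  5040) .out)) .out)) .out))) .out) .out)))) (.na 874 46 (.na 834 41 (.nx 833 1664512 (.nr 832
  881745 (.nr 812 37 .s1 (.nx 815 174 (.nx 814 173 (.nr 813 382 (.l1 (.ls 29 31 770)) (.l1 .sk))
  (.l1 .sk)) (.nx 822 20644 (.nx 816 257 (.l1 (.ls 79 31 920)) (.nr 821 440873 (.lg 0 false 5 89 97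
  23 0 32760) .out)) (.nr 831 46342 (.nr 829 32769 (.nr 827 382 (.lg 0 true 5 71 73 23 0 32760)
  (.nx 828 104033 (.lg 2 true 1 89 89 17 23880 6552) .out)) (.nx 830 26009 (.lg 0 false 1 71 71 17
  0 936) .out)) .out)))) .out) .out) (.na 855 42 (.nx 854 1664512 (.nr 853 881745 (.nr 835 39 .s1
  (.nx 838 174 (.nx 837 173 (.nr 836 391 (.l1 (.ls 19 23 732)) (.l1 .sk)) (.l1 .sk)) (.nx 845 20644
  (.nx 839 257 (.l1 (.ls 73 23 875)) (.nr 844 440873 (.lg 0 false 5 89 89 16 0 360) .out)) (.nr 852
  46342 (.nr 849 257 (.lg 0 true 4 67 67 16 0 144) (.nx 851 104033 (.lg 2 false 2 83 83 16 35015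
  144) .out)) .out)))) .out) .out) (.nx 873 1664512 (.nr 872 881745 (.nr 856 40 .s1 (.nx 859 174
  (.nx 858 173 (.nr 857 429 (.l1 (.ls 31 41 715)) (.l1 .sk)) (.l1 .sk)) (.nx 866 26009 (.nx 860 257
  (.l1 (.ls 79 41 854)) (.nr 865 440873 (.nr 862 110219 (.lg 0 false 2 89 89 29 0 5040) (.nx 864
  10323 (.lg 0 false 2 89 97 29 0 5040) .out)) .out)) (.nr 871 32769 (.nr 869 429 (.lg 0 true 3 73
  73 29 0 1008) (.nx 870 104033 (.lg 2 true 1 83 83 23 20977 1008) .out)) .out)))) .out) .out)))
  (.na 892 57 (.na 875 54 .ne (.nx 891 1664512 (.nr 890 881745 (.nr 876 53 .s1 (.nx 877 257 (.l1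
  (.ls 71 41 1226)) (.nr 889 623489 (.nx 882 20644 (.lg 0 false 5 83 83 23 0 720) (.nr 888 46342
  (.nr 885 257 (.lg 0 true 3 59 59 23 0 144) (.nx 887 104033 (.lg 2 false 2 73 73 19 35015 144)
  .out)) .out)) .out))) .out) .out)) (.na 909 58 (.nx 908 1664512 (.nr 907 881745 (.nr 893 56 .s1
  (.nx 896 174 (.nx 895 173 (.nr 894 541 (.l1 (.ls 17 31 528)) (.l1 .sk)) (.l1 .sk)) (.nx 897 257
  (.l1 (.ls 79 31 630)) (.nr 906 623489 (.nx 901 20644 (.lg 0 false 4 97 101 17 0 5040) (.nr 905
  46342 (.nr 903 257 (.lg 0 true 2 71 71 17 0 144) (.nx 904 104033 (.lg 2 true 1 89 89 16 35015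
  2520) .out)) .out)) .out)))) .out) .out) (.nx 922 1664512 (.nr 921 881745 (.nr 910 57 .s1 (.nx
  915 20644 (.nx 911 257 (.l1 (.ls 79 41 1141)) (.nr 914 623489 (.lg 0 false 3 89 89 19 0 144)
  .out)) (.nr 920 46342 (.nr 917 257 (.lg 0 true 2 67 67 13 0 144) (.nx 919 104033 (.lg 2 false 2
  79 79 13 35015 144) .out)) .out))) .out) .out))))))

def T137_1 : Ph :=
  (.na 550 7 (.na 413 4 (.na 169 2 (.nx 168 1321124 (.nr 167 311745 (.nx 145 660563 (.nx 123 330282
  (.nx 3 66 (.nx 2 65 (.nr 1 9 (.lg 0 true 1 37 37 5 0 4680) (.l1 .sk)) (.l1 .sk)) (.nr 101 46342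
  (.nx 31 6503 (.lg 0 false 28 97 97 11 0 65520) (.nr 100 38969 (.nr 70 1724 (.nr 59 432 (.lg 0
  true 28 89 89 11 0 65520) (.lg 2 true 11 89 89 9 24848 51480)) (.nx 99 165142 (.nx 84 16385 (.lg
  1 false 14 101 103 9 12682 720720) (.nr 98 27556 (.lg 2 false 14 97 101 9 3562 65520) .out))
  .out)) .out)) (.nx 122 205 (.lg 0 false 21 83 83 11 0 32760) .out))) (.nr 144 109 (.lg 0 true 21
  83 83 11 0 32760) .out)) (.nr 166 13 (.lg 0 true 21 73 73 9 0 32760) .out)) .out) .out) (.na 290
  3 (.nx 289 3329023 (.nr 288 623489 (.nx 172 66 (.nx 171 65 (.nr 170 16 (.lg 0 true 1 37 37 5 0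
  9360) (.l1 .sk)) (.l1 .sk)) (.nx 216 6501 (.nr 201 77937 (.nr 193 55110 (.lg 0 false 21 89 97 11
  0 65520) (.nx 200 1292 (.lg 0 false 7 89 89 9 0 65520) .out)) (.nx 215 205 (.lg 0 false 14 83 83
  9 0 65520) .out)) (.nr 287 65537 (.nx 268 1321124 (.nr 237 257 (.lg 0 true 21 89 89 11 0 65520)
  (.nx 267 165142 (.nx 248 20644 (.lg 1 false 11 101 103 9 21320 720720) (.nr 266 46342 (.nr 255
  1100 (.lg 2 true 7 83 83 9 20884 65520) (.lg 2 false 11 101 103 9 4880 720720)) .out)) .out))
  (.nr 286 9 (.lg 0 true 18 73 73 9 0 9360) .out)) .out))) .out) .out) (.nx 412 6658044 (.nr 411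
  881745 (.nx 292 65 (.nr 291 22 (.lg 0 true 1 29 29 5 0 4680) (.l1 .sk)) (.nx 293 66 (.l1 .sk)
  (.nx 325 6019 (.nr 304 55110 (.lg 0 false 11 89 89 16 0 51480) (.nx 324 1292 (.nx 315 205 (.lg 0
  false 11 83 83 16 0 51480) (.nx 316 406 .out (.nr 323 110219 (.lg 0 false 7 83 89 13 0 32760)
  .out))) .out)) (.nr 410 65537 (.nx 388 1321124 (.nx 376 416129 (.nr 341 364 (.lg 0 true 16 79 79
  16 0 9360) (.nx 375 208065 (.nx 349 13003 (.nr 348 55110 (.lg 1 false 7 89 97 13 19367 32760)
  .out) (.nx 356 28090 (.lg 1 true 7 89 97 13 10659 32760) (.nr 360 3220 (.lg 2 true 4 89 89 7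
  18578 9360) (.nx 367 52017 (.lg 1 true 7 89 97 13 4934 32760) (.nr 374 38969 (.lg 2 false 7 83 89
  13 2101 32760) .out))))) .out)) (.nr 387 109 (.lg 0 true 11 83 83 16 0 51480) .out)) (.nr 409 13
  (.lg 0 true 21 79 79 7 0 32760) .out)) .out)))) .out) .out))) (.na 414 5 .ne (.na 505 6 (.nx 504
  10568985 (.nr 503 1482912 (.nx 474 1321124 (.nx 416 65 (.nr 415 34 (.lg 0 true 1 29 29 9 0 51480)
  (.l1 .sk)) (.nx 417 66 (.l1 .sk) (.nr 457 65537 (.nx 424 6501 (.lg 0 true 7 89 89 11 0 32760)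
  (.nr 440 422 (.lg 0 true 16 83 83 16 0 9360) (.nx 456 262145 (.lg 2 false 16 97 101 16 21320
  720720) .out))) (.nx 473 205 (.lg 0 false 16 79 79 16 0 9360) .out)))) (.nr 502 24 (.lg 0 true 28
  73 73 11 0 65520) .out)) .out) .out) (.nx 549 1321124 (.nr 548 220437 (.nx 508 66 (.nx 507 65
  (.nr 506 40 (.lg 0 true 1 29 29 7 0 9360) (.l1 .sk)) (.l1 .sk)) (.nr 540 55110 (.nx 532 660563
  (.nx 515 11394 (.lg 0 false 7 97 97 13 0 65520) (.nr 522 501 (.lg 0 true 7 83 83 13 0 65520) (.nx
  531 416129 (.nr 524 1905 (.lg 2 false 2 83 83 7 26995 9360) (.lg 2 false 7 97 101 13 10231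
  720720)) .out))) (.nr 539 109 (.lg 0 true 7 79 79 13 0 65520) .out)) (.nx 547 1292 (.lg 0 false 7
  89 89 13 0 65520) .out))) .out) .out)))) (.na 668 12 (.na 551 9 .ne (.na 627 10 (.nx 626 10568985
  (.nr 625 623489 (.nr 552 5 .s1 (.nx 603 1321124 (.nx 554 65 (.nr 553 57 (.lg 0 false 1 23 23 7 0
  4680) (.l1 .sk)) (.nx 555 66 (.l1 .sk) (.nr 590 55110 (.nr 566 364 (.lg 0 true 11 79 79 16 0
  51480) (.nx 589 165142 (.nr 574 19988 (.nx 567 2113 (.lg 0 true 1 83 83 7 0 4680) (.lg 2 false 7
  73 73 16 20053 32760)) (.nx 581 82572 (.lg 0 true 7 101 103 16 0 720720) (.nr 588 38969 (.lg 0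
  false 7 89 89 16 0 32760) .out))) .out)) (.nx 602 26009 (.nr 594 77937 (.lg 0 true 4 101 101 16 0
  720720) (.nx 601 814 (.lg 0 false 7 83 89 16 0 32760) .out)) .out)))) (.nr 624 65 (.lg 0 true 21
  79 79 16 0 32760) .out))) .out) .out) (.nx 667 1321124 (.nr 666 623489 (.nr 628 6 .s1 (.nx 631 66
  (.nx 630 65 (.nr 629 69 (.l1 (.ls 19 31 425)) (.l1 .sk)) (.l1 .sk)) (.nr 658 77937 (.nx 638 9557
  (.lg 0 false 7 83 83 13 0 65520) (.nr 657 65537 (.nr 649 374 (.lg 0 true 11 73 73 13 0 102960)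
  (.nx 656 165142 (.lg 2 false 7 89 89 13 14502 65520) .out)) .out)) (.nx 665 814 (.lg 0 false 7 79
  79 13 0 65520) .out)))) .out) .out))) (.na 697 16 (.na 669 15 .ne (.nx 696 1321124 (.nr 695
  623489 (.nr 670 13 .s1 (.nx 672 65 (.nr 671 92 (.lg 0 false 1 23 23 16 0 102960) (.l1 .sk)) (.nx
  673 66 (.l1 .sk) (.nr 690 92683 (.nx 677 9557 (.lg 0 false 4 83 83 16 0 9360) (.nr 689 65537 (.nr
  684 374 (.lg 0 true 7 73 73 17 0 32760) (.nx 688 165142 (.lg 2 false 4 89 89 16 14502 9360)
  .out)) .out)) (.nx 694 814 (.lg 0 false 4 79 79 16 0 9360) .out))))) .out) .out)) (.na 698 18 .ne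
  (.nx 725 1321124 (.nr 724 1048577 (.nr 699 17 .s1 (.nx 703 205 (.nx 701 65 (.nr 700 126 (.l1 (.ls
  23 29 237)) (.l1 .sk)) (.nx 702 66 (.l1 .sk) (.l1 (.ls 83 43 2095)))) (.nr 723 623489 (.nx 712
  10323 (.nx 704 324 (.l1 (.ls 83 43 3500)) (.nr 711 220437 (.lg 0 false 7 89 89 19 0 65520) .out))
  (.nr 722 55110 (.nr 719 498 (.lg 0 true 7 79 79 19 0 65520) (.nx 721 165142 (.lg 2 true 2 89 89
  13 11292 9360) .out)) .out)) .out))) .out) .out)))))

def T137_2 : Ph :=
  (.na 397 182 (.na 255 123 (.na 126 89 (.na 50 73 (.na 17 66 (.na 16 64 (.nx 15 1664512 (.nr 14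
  881745 (.nr 1 58 .s1 (.nx 2 257 (.l1 (.ls 71 23 1122)) (.nr 13 623489 (.nx 7 26009 (.lg 0 false 5
  89 89 16 0 2520) (.nr 12 32769 (.nr 10 596 (.lg 0 true 3 67 67 16 0 72) (.nx 11 104033 (.lg 2
  true 1 73 73 16 18954 504) .out)) .out)) .out))) .out) .out) .ne) (.na 33 71 (.nx 32 1664512 (.nr
  31 524289 (.nr 18 65 .s1 (.nx 21 174 (.nx 20 173 (.nr 19 662 (.l1 (.ls 31 37 456)) (.l1 .sk))
  (.l1 .sk)) (.nx 26 20644 (.lg 0 false 5 89 97 37 0 55440) (.nr 30 32769 (.nr 28 513 (.lg 0 true 2
  73 73 29 0 1584) (.nx 29 104033 (.lg 2 true 1 83 83 29 23880 11088) .out)) .out)))) .out) .out)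
  (.nx 49 1664512 (.nr 48 524289 (.nr 34 70 .s1 (.nx 42 20644 (.nx 36 173 (.nr 35 680 (.l1 (.ls 17
  19 424)) (.l1 .sk)) (.nx 37 174 (.l1 .sk) (.lg 0 false 5 83 83 16 0 360))) (.nr 47 32769 (.nr 45
  513 (.lg 0 true 3 59 59 16 0 72) (.nx 46 104033 (.lg 2 true 1 73 73 16 23880 72) .out)) .out)))
  .out) .out))) (.na 83 78 (.na 66 74 (.nx 65 1664512 (.nr 64 524289 (.nr 51 72 .s1 (.nx 53 173
  (.nr 52 690 (.l1 (.ls 19 19 412)) (.l1 .sk)) (.nx 54 174 (.l1 .sk) (.nx 58 20644 (.lg 0 false 4
  89 89 16 0 5040) (.nr 63 32769 (.nr 61 513 (.lg 0 true 3 61 61 16 0 72) (.nx 62 104033 (.lg 2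
  true 1 73 73 16 23880 72) .out)) .out))))) .out) .out) (.nx 82 1664512 (.nr 81 524289 (.nr 67 73
  .s1 (.nx 75 20644 (.nx 69 173 (.nr 68 727 (.l1 (.ls 23 29 407)) (.l1 .sk)) (.nx 70 174 (.l1 .sk)
  (.lg 0 false 5 89 89 23 0 720))) (.nr 80 32769 (.nr 78 513 (.lg 0 true 3 67 67 19 0 144) (.nx 79
  104033 (.lg 2 true 1 79 79 13 23880 144) .out)) .out))) .out) .out)) (.na 96 82 (.nx 95 1664512
  (.nr 94 524289 (.nr 84 77 .s1 (.nx 89 20644 (.nx 86 173 (.nr 85 764 (.l1 (.ls 31 37 386)) (.l1
  .sk)) (.nx 87 174 (.l1 .sk) (.lg 0 false 2 97 101 31 0 65520))) (.nr 93 32769 (.nr 91 513 (.lg 0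
  true 2 73 73 31 0 1872) (.nx 92 104033 (.lg 2 false 1 79 79 29 23880 1872) .out)) .out))) .out)
  .out) (.na 111 87 (.nx 110 1664512 (.nr 109 524289 (.nr 97 81 .s1 (.nx 103 20644 (.nx 99 173 (.nr
  98 811 (.l1 (.ls 23 29 367)) (.l1 .sk)) (.nx 100 174 (.l1 .sk) (.lg 0 false 3 83 83 19 0 144)))
  (.nr 108 32769 (.nr 106 513 (.lg 0 true 3 67 67 19 0 144) (.nx 107 104033 (.lg 2 true 1 73 73 13
  23880 144) .out)) .out))) .out) .out) (.nx 125 1664512 (.nr 124 524289 (.nr 112 87 .s1 (.nx 115
  174 (.nx 114 173 (.nr 113 829 (.l1 (.ls 23 23 347)) (.l1 .sk)) (.l1 .sk)) (.nx 121 104033 (.nx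
  119 20644 (.lg 0 false 4 89 89 23 0 5040) (.nr 120 32769 (.lg 0 false 1 83 83 17 0 72) .out))
  (.nr 123 513 (.lg 0 true 2 73 73 19 0 144) .out)))) .out) .out))))) (.na 187 107 (.na 158 98 (.na
  142 91 (.nx 141 1664512 (.nr 140 524289 (.nr 127 89 .s1 (.nx 135 20644 (.nx 129 173 (.nr 128 848
  (.l1 (.ls 17 19 339)) (.l1 .sk)) (.nx 130 174 (.l1 .sk) (.lg 0 false 5 73 73 17 0 360))) (.nr 139
  32769 (.nr 137 513 (.lg 0 true 2 59 59 16 0 144) (.nx 138 104033 (.lg 2 true 1 67 67 16 23880 72)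
  .out)) .out))) .out) .out) (.nx 157 1664512 (.nr 156 1048577 (.nr 143 91 .s1 (.nx 146 174 (.nx
  145 173 (.nr 144 913 (.l1 (.ls 29 23 331)) (.l1 .sk)) (.l1 .sk)) (.nx 151 20644 (.lg 0 false 5 83
  97 29 0 360360) (.nr 155 32769 (.nr 153 513 (.lg 0 true 2 71 71 19 0 13104) (.nx 154 104033 (.lg
  2 false 1 73 73 19 23880 6552) .out)) .out)))) .out) .out)) (.na 173 103 (.nx 172 1664512 (.nr
  171 1048577 (.nr 159 98 .s1 (.nx 162 174 (.nx 161 173 (.nr 160 960 (.l1 (.ls 23 31 308)) (.l1
  .sk)) (.l1 .sk)) (.nx 168 104033 (.nr 164 65537 (.lg 0 false 2 83 83 23 0 5040) (.nx 167 13005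
  (.lg 0 false 3 83 83 23 0 5040) .out)) (.nr 170 513 (.lg 0 true 2 61 61 23 0 1008) .out)))) .out)
  .out) (.nx 186 1664512 (.nr 185 1048577 (.nr 174 103 .s1 (.nx 177 174 (.nx 176 173 (.nr 175 997
  (.l1 (.ls 19 17 293)) (.l1 .sk)) (.l1 .sk)) (.nx 181 20644 (.lg 0 false 4 83 83 17 0 720) (.nr
  184 32769 (.nr 182 513 (.lg 0 false 1 67 67 16 0 360) (.nx 183 104033 (.lg 2 true 1 67 67 16
  23880 72) .out)) .out)))) .out) .out))) (.na 214 117 (.na 201 114 (.nx 200 1664512 (.nr 199
  1048577 (.nr 188 107 .s1 (.nx 195 20644 (.nx 190 173 (.nr 189 1062 (.l1 (.ls 17 17 282)) (.l1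
  .sk)) (.nx 191 174 (.l1 .sk) (.lg 0 false 4 79 79 17 0 144))) (.nr 198 32769 (.nr 196 513 (.lg 0
  false 1 67 67 16 0 3960) (.nx 197 104033 (.lg 2 true 1 67 67 16 23880 72) .out)) .out))) .out)
  .out) (.nx 213 1664512 (.nr 212 1048577 (.nr 202 114 .s1 (.nx 209 104033 (.nx 204 173 (.nr 203
  1090 (.l1 (.ls 17 37 265)) (.l1 .sk)) (.nx 205 174 (.l1 .sk) (.nx 207 13005 (.lg 0 false 2 83 83
  31 0 144) (.nr 208 65537 (.lg 0 false 1 83 83 31 0 144) .out)))) (.nr 211 513 (.lg 0 true 2 67 67
  31 0 144) .out))) .out) .out)) (.na 226 118 (.nx 225 1664512 (.nr 224 1048577 (.nr 215 117 .s1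
  (.nx 220 13005 (.nx 217 173 (.nr 216 1099 (.l1 (.ls 29 29 258)) (.l1 .sk)) (.nx 218 174 (.l1 .sk)
  (.lg 0 false 2 89 89 23 0 9360))) (.nr 223 65537 (.nx 221 104033 (.lg 0 false 1 83 83 19 0 4680)
  (.nr 222 513 (.lg 0 true 1 67 67 19 0 936) .out)) .out))) .out) .out) (.na 240 121 (.nx 239
  1664512 (.nr 238 1048577 (.nr 227 118 .s1 (.nx 233 20644 (.nx 229 173 (.nr 228 1127 (.l1 (.ls 23
  23 256)) (.l1 .sk)) (.nx 230 174 (.l1 .sk) (.lg 0 false 3 89 89 23 0 144))) (.nr 237 32769 (.nr
  235 513 (.lg 0 true 2 61 61 19 0 144) (.nx 236 104033 (.lg 2 true 1 73 73 19 23880 144) .out))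
  .out))) .out) .out) (.nx 254 1664512 (.nr 253 1048577 (.nr 241 121 .s1 (.nx 243 173 (.nr 242 1146
  (.l1 (.ls 19 19 250)) (.l1 .sk)) (.nx 244 174 (.l1 .sk) (.nx 249 20644 (.lg 0 false 5 79 79 19 0
  3960) (.nr 252 32769 (.nr 250 513 (.lg 0 false 1 67 67 17 0 792) (.nx 251 104033 (.lg 2 true 1 67
  67 17 23880 792) .out)) .out))))) .out) .out)))))) (.na 330 151 (.na 290 137 (.na 279 128 (.na
  267 126 (.nx 266 1664512 (.nr 265 1048577 (.nr 256 123 .s1 (.nx 258 173 (.nr 257 1174 (.l1 (.ls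
  23 23 246)) (.l1 .sk)) (.nx 259 174 (.l1 .sk) (.nx 261 13005 (.lg 0 false 2 97 97 19 0 5040) (.nr
  264 65537 (.nx 262 104033 (.lg 0 false 1 89 89 17 0 2520) (.nr 263 513 (.lg 0 true 1 67 67 17 0
  72) .out)) .out))))) .out) .out) (.nx 278 1664512 (.nr 277 1048577 (.nr 268 126 .s1 (.nx 271 174
  (.nx 270 173 (.nr 269 1193 (.l1 (.ls 29 37 240)) (.l1 .sk)) (.l1 .sk)) (.nx 273 13005 (.lg 0
  false 2 83 83 31 0 1008) (.nr 276 65537 (.nx 274 104033 (.lg 0 true 1 83 83 31 0 1008) (.nr 275
  513 (.lg 0 true 1 67 67 31 0 1008) .out)) .out)))) .out) .out)) (.na 280 133 .ne (.nx 289 832257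
  (.nr 288 1048577 (.nr 281 133 .s1 (.nx 286 104033 (.nx 284 13005 (.nx 282 257 (.l1 (.ls 73 29
  499)) (.nr 283 741457 (.lg 0 true 1 89 89 17 0 2520) .out)) (.nr 285 16385 (.lg 0 true 1 73 73 17
  0 504) .out)) (.nr 287 1025 (.lg 0 true 1 67 67 17 0 504) .out))) .out) .out))) (.na 301 142 (.na
  300 139 (.nx 299 832257 (.nr 298 1048577 (.nr 291 137 .s1 (.nx 294 14965 (.nx 292 257 (.l1 (.ls
  67 19 485)) (.nr 293 741457 (.lg 0 true 1 83 83 16 0 2520) .out)) (.nr 297 16385 (.nr 295 1025
  (.lg 0 false 1 67 67 16 0 2520) (.nx 296 104033 (.lg 2 true 1 59 59 16 16558 2520) .out)) .out)))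
  .out) .out) (.lg 0 false 1 0 0 16 0 24)) (.na 311 146 (.nx 310 832257 (.nr 309 1048577 (.nr 302
  142 .s1 (.nx 303 257 (.l1 (.ls 67 29 468)) (.nr 308 741457 (.nr 306 16385 (.lg 0 true 3 79 79 23
  0 144) (.nx 307 13005 (.lg 0 true 1 89 89 19 0 720) .out)) .out))) .out) .out) (.na 320 149 (.nx
  319 832257 (.nr 318 1048577 (.nr 312 146 .s1 (.nx 313 257 (.l1 (.ls 67 29 455)) (.nr 317 741457
  (.nr 315 16385 (.lg 0 true 2 79 79 23 0 144) (.nx 316 13005 (.lg 0 true 1 83 83 19 0 144) .out))
  .out))) .out) .out) (.nx 329 832257 (.nr 328 1048577 (.nr 321 149 .s1 (.nx 322 257 (.l1 (.ls 59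
  19 446)) (.nr 327 741457 (.nx 323 14965 (.lg 0 true 1 73 73 16 0 72) (.nr 326 16385 (.nr 324 1025
  (.lg 0 false 1 59 59 16 0 72) (.nx 325 104033 (.lg 2 false 1 53 53 16 16558 72) .out)) .out))
  .out))) .out) .out))))) (.na 360 169 (.na 342 158 (.na 331 154 (.lg 0 false 1 0 0 16 0 24) (.nx
  341 832257 (.nr 340 1048577 (.nr 332 154 .s1 (.nx 336 13005 (.nx 333 257 (.l1 (.ls 73 37 431))
  (.nr 335 741457 (.lg 0 false 2 83 83 31 0 11088) .out)) (.nr 339 16385 (.nx 337 104033 (.lg 0
  true 1 73 73 31 0 11088) (.nr 338 1025 (.lg 0 true 1 67 67 31 0 11088) .out)) .out))) .out)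
  .out)) (.na 351 162 (.nx 350 832257 (.nr 349 1048577 (.nr 343 158 .s1 (.nx 344 257 (.l1 (.ls 71
  29 421)) (.nr 348 741457 (.nr 346 16385 (.lg 0 true 2 79 79 23 0 144) (.nx 347 13005 (.lg 0 true
  1 83 83 19 0 144) .out)) .out))) .out) .out) (.na 359 167 (.nx 358 832257 (.nr 357 1048577 (.nr
  352 162 .s1 (.nx 353 257 (.l1 (.ls 71 31 410)) (.nr 356 741457 (.nx 354 13005 (.lg 0 true 1 79 79
  23 0 144) (.nr 355 16385 (.lg 0 false 1 83 83 23 0 144) .out)) .out))) .out) .out) (.lg 0 false 1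
  0 0 16 0 24)))) (.na 378 174 (.na 368 171 (.nx 367 832257 (.nr 366 1048577 (.nr 361 169 .s1 (.nx
  362 257 (.l1 (.ls 61 23 393)) (.nr 365 741457 (.nr 363 16385 (.lg 0 false 1 79 79 17 0 936) (.nx
  364 13005 (.lg 0 true 1 79 79 17 0 6552) .out)) .out))) .out) .out) (.nx 377 832257 (.nr 376
  1048577 (.nr 369 171 .s1 (.nx 370 257 (.l1 (.ls 71 29 389)) (.nr 375 741457 (.nx 373 104033 (.nx
  371 13005 (.lg 0 false 1 79 79 17 0 72) (.nr 372 16385 (.lg 0 true 1 71 71 17 0 504) .out)) (.nr
  374 1025 (.lg 0 true 1 61 61 17 0 72) .out)) .out))) .out) .out)) (.na 388 178 (.nx 387 832257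
  (.nr 386 1048577 (.nr 379 174 .s1 (.nx 384 104033 (.nx 380 257 (.l1 (.ls 71 37 382)) (.nr 383
  741457 (.nx 381 13005 (.lg 0 false 1 79 79 23 0 144) (.nr 382 16385 (.lg 0 true 1 71 71 23 0 144)
  .out)) .out)) (.nr 385 1025 (.lg 0 true 1 67 67 23 0 144) .out))) .out) .out) (.na 396 181 (.nx
  395 832257 (.nr 394 1048577 (.nr 389 178 .s1 (.nx 390 257 (.l1 (.ls 79 29 374)) (.nr 393 741457
  (.nr 391 16385 (.lg 0 false 1 89 89 19 0 5040) (.nx 392 13005 (.lg 0 true 1 79 79 19 0 144)
  .out)) .out))) .out) .out) (.lg 0 false 1 0 0 16 0 24))))))) (.na 563 251 (.na 477 219 (.na 433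
  203 (.na 415 198 (.na 407 197 (.nx 406 832257 (.nr 405 1048577 (.nr 398 182 .s1 (.nx 399 257 (.l1
  (.ls 73 37 365)) (.nr 404 741457 (.nx 400 13005 (.lg 0 true 1 89 89 31 0 65520) (.nr 403 16385
  (.nx 401 104033 (.lg 0 true 1 73 73 31 0 13104) (.nr 402 1025 (.lg 0 true 1 67 67 31 0 13104)
  .out)) .out)) .out))) .out) .out) (.nx 414 832257 (.nr 413 1048577 (.nr 408 197 .s1 (.nx 409 257
  (.l1 (.ls 61 19 338)) (.nr 412 741457 (.nr 410 16385 (.lg 0 false 1 79 79 16 0 2520) (.nx 411
  13005 (.lg 0 true 1 73 73 16 0 72) .out)) .out))) .out) .out)) (.na 425 199 (.nx 424 832257 (.nr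
  423 1048577 (.nr 416 198 .s1 (.nx 421 104033 (.nx 419 13005 (.nx 417 257 (.l1 (.ls 71 37 336))
  (.nr 418 741457 (.lg 0 true 1 83 83 31 0 7920) .out)) (.nr 420 16385 (.lg 0 true 1 71 71 31 0
  1584) .out)) (.nr 422 1025 (.lg 0 true 1 61 61 31 0 1584) .out))) .out) .out) (.nx 432 832257
  (.nr 431 1048577 (.nr 426 199 .s1 (.nx 427 257 (.l1 (.ls 61 19 334)) (.nr 430 741457 (.nr 428
  16385 (.lg 0 false 1 73 73 16 0 72) (.nx 429 13005 (.lg 0 true 1 73 73 16 0 504) .out)) .out)))
  .out) .out))) (.na 451 213 (.na 443 206 (.nx 442 832257 (.nr 441 1048577 (.nr 434 203 .s1 (.nx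
  435 257 (.l1 (.ls 71 23 328)) (.nr 440 741457 (.nx 436 13005 (.lg 0 true 1 83 83 19 0 2520) (.nr
  439 16385 (.nx 437 104033 (.lg 0 true 1 71 71 19 0 504) (.nr 438 1025 (.lg 0 true 1 61 61 19 0
  504) .out)) .out)) .out))) .out) .out) (.nx 450 832257 (.nr 449 1048577 (.nr 444 206 .s1 (.nx 447
  13005 (.nx 445 257 (.l1 (.ls 61 29 323)) (.nr 446 741457 (.lg 0 true 1 73 73 23 0 144) .out))
  (.nr 448 16385 (.lg 0 false 1 79 79 23 0 144) .out))) .out) .out)) (.na 461 214 (.nx 460 832257
  (.nr 459 1048577 (.nr 452 213 .s1 (.nx 457 104033 (.nx 453 257 (.l1 (.ls 67 23 313)) (.nr 456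
  741457 (.nx 454 13005 (.lg 0 false 1 79 79 19 0 72) (.nr 455 16385 (.lg 0 true 1 67 67 19 0 72)
  .out)) .out)) (.nr 458 1025 (.lg 0 true 1 59 59 19 0 72) .out))) .out) .out) (.na 469 218 (.nx
  468 832257 (.nr 467 1048577 (.nr 462 214 .s1 (.nx 463 257 (.l1 (.ls 61 29 311)) (.nr 466 741457
  (.nx 464 13005 (.lg 0 true 1 73 73 23 0 1008) (.nr 465 16385 (.lg 0 false 1 73 73 23 0 144)
  .out)) .out))) .out) .out) (.nx 476 832257 (.nr 475 1048577 (.nr 470 218 .s1 (.nx 471 257 (.l1
  (.ls 67 29 305)) (.nr 474 741457 (.nx 472 13005 (.lg 0 true 1 73 73 23 0 144) (.nr 473 16385 (.lg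
  0 false 1 79 79 23 0 5040) .out)) .out))) .out) .out))))) (.na 523 233 (.na 497 226 (.na 487 222
  (.nx 486 832257 (.nr 485 1048577 (.nr 478 219 .s1 (.nx 483 104033 (.nx 481 13005 (.nx 479 257
  (.l1 (.ls 61 23 304)) (.nr 480 741457 (.lg 0 false 1 73 73 19 0 72) .out)) (.nr 482 16385 (.lg 0
  true 1 61 61 19 0 72) .out)) (.nr 484 1025 (.lg 0 true 1 53 53 19 0 72) .out))) .out) .out) (.nx
  496 832257 (.nr 495 1048577 (.nr 488 222 .s1 (.nx 489 257 (.l1 (.ls 73 31 300)) (.nr 494 741457
  (.nx 492 104033 (.nx 490 13005 (.lg 0 false 1 79 79 31 0 144) (.nr 491 16385 (.lg 0 true 1 71 71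
  31 0 144) .out)) (.nr 493 1025 (.lg 0 true 1 61 61 31 0 144) .out)) .out))) .out) .out)) (.na 505
  229 (.nx 504 832257 (.nr 503 1048577 (.nr 498 226 .s1 (.nx 499 257 (.l1 (.ls 59 29 295)) (.nr 502
  741457 (.nr 500 16385 (.lg 0 false 1 73 73 23 0 144) (.nx 501 13005 (.lg 0 true 1 71 71 23 0 144)
  .out)) .out))) .out) .out) (.na 513 231 (.nx 512 832257 (.nr 511 1048577 (.nr 506 229 .s1 (.nx
  507 257 (.l1 (.ls 53 19 291)) (.nr 510 741457 (.nr 508 16385 (.lg 0 false 1 71 71 17 0 72) (.nx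
  509 13005 (.lg 0 true 1 67 67 17 0 72) .out)) .out))) .out) .out) (.nx 522 832257 (.nr 521
  1048577 (.nr 514 231 .s1 (.nx 515 257 (.l1 (.ls 73 31 288)) (.nr 520 741457 (.nx 516 13005 (.lg 0
  false 1 83 83 31 0 5544) (.nr 519 16385 (.nx 517 104033 (.lg 0 true 1 71 73 31 0 5544) (.nr 518
  1025 (.lg 0 true 1 67 67 31 0 5544) .out)) .out)) .out))) .out) .out)))) (.na 539 242 (.na 531
  234 (.nx 530 832257 (.nr 529 1048577 (.nr 524 233 .s1 (.nx 525 257 (.l1 (.ls 61 19 286)) (.nr 528
  741457 (.nr 526 16385 (.lg 0 false 1 73 73 17 0 360) (.nx 527 13005 (.lg 0 true 1 71 71 17 0 72)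
  .out)) .out))) .out) .out) (.nx 538 832257 (.nr 537 1048577 (.nr 532 234 .s1 (.nx 533 257 (.l1
  (.ls 71 37 285)) (.nr 536 741457 (.nr 534 16385 (.lg 0 true 1 79 79 37 0 1872) (.nx 535 13005
  (.lg 0 false 1 79 79 37 0 1872) .out)) .out))) .out) .out)) (.na 547 246 (.nx 546 832257 (.nr 545
  1048577 (.nr 540 242 .s1 (.nx 541 257 (.l1 (.ls 71 31 275)) (.nr 544 741457 (.nr 542 16385 (.lg 0
  false 1 79 79 29 0 1584) (.nx 543 13005 (.lg 0 true 1 79 79 29 0 55440) .out)) .out))) .out)
  .out) (.na 555 247 (.nx 554 832257 (.nr 553 1048577 (.nr 548 246 .s1 (.nx 551 13005 (.nx 549 257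
  (.l1 (.ls 71 31 271)) (.nr 550 741457 (.lg 0 false 1 79 79 31 0 144) .out)) (.nr 552 16385 (.lg 0
  true 1 79 79 31 0 144) .out))) .out) .out) (.nx 562 832257 (.nr 561 1048577 (.nr 556 247 .s1 (.nx
  557 257 (.l1 (.ls 73 29 270)) (.nr 560 741457 (.nr 558 16385 (.lg 0 false 1 83 83 17 0 4680) (.nx
  559 13005 (.lg 0 false 1 79 79 17 0 936) .out)) .out))) .out) .out)))))) (.na 4922 2897 (.na 1376
  512 (.na 572 256 (.na 564 254 (.lg 0 false 1 0 0 16 0 24) (.nx 571 832257 (.nr 570 1048577 (.nr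
  565 254 .s1 (.nx 566 257 (.l1 (.ls 59 29 263)) (.nr 569 741457 (.nr 567 16385 (.lg 0 false 1 73
  73 23 0 144) (.nx 568 13005 (.lg 0 true 1 71 71 23 0 144) .out)) .out))) .out) .out)) (.na 573
  257 .ne (.nx 1375 832257 (.nr 1374 1482912 (.nr 574 257 .s1 (.nx 862 205 (.nx 830 173 (.nr 829
  4769 (.la (.ls 43 19 129)) (.l1 .sk)) (.nx 831 174 (.l1 .sk) (.lx (.lp 83 17 129)))) (.nr 1373
  1048577 (.nr 1117 32769 (.la (.lg 0 true 1 73 73 23 0)) (.nx 1372 10323 (.la (.lg 0 false 1 71 71
  23 0)) .out)) .out))) .out) .out))) (.na 2614 1024 (.na 2012 725 (.nx 2011 832257 (.nr 2010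
  1482912 (.nr 1377 512 .s1 (.nx 1551 174 (.nx 1550 173 (.nr 1549 6753 (.lx (.lp 41 19 182)) (.l1
  .sk)) (.l1 .sk)) (.nx 1796 22297 (.nx 1582 205 (.lx (.lp 41 0 182)) (.nr 1795 1048577 (.la (.lg 0
  false 1 71 71 29 0)) .out)) (.nr 2009 32769 (.la (.lg 2 true 1 61 61 29 140606)) .out)))) .out)
  .out) (.nx 2613 10323 (.nr 2612 1048577 (.nr 2013 725 .s1 (.nx 2312 2049 (.la (.ls 61 41 5793))
  (.nr 2611 16385 (.la (.lg 0 true 1 37 37 29 0)) .out))) .out) .out)) (.na 3468 1449 (.nx 3467
  10323 (.nr 3466 1048577 (.nr 2615 1024 .s1 (.nx 3040 2582 (.la (.ls 61 41 6513)) (.nr 3465 16385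
  (.la (.lg 0 false 1 31 31 31 0)) .out))) .out) .out) (.na 4070 2048 (.nx 4069 2582 (.nr 4068
  524289 (.nr 3469 1449 .s1 (.la (.ls 59 37 4603))) .out) .out) (.nx 4921 3252 (.nr 4920 524289
  (.nr 4071 2048 .s1 (.la (.ls 53 41 5166))) .out) .out))))) (.na 12056 32768 (.na 8172 5793 (.na
  6298 4096 (.nx 6297 2582 (.nr 6296 262145 (.nr 4923 2897 .s1 (.nx 5096 173 (.nr 5095 38151 (.lx
  (.lp 43 31 1025)) (.l1 .sk)) (.nx 5097 174 (.l1 .sk) (.la (.ls 59 37 2293))))) .out) .out) (.nx
  8171 2582 (.nr 8170 262145 (.nr 6299 4096 .s1 (.nx 6472 173 (.nr 6471 53957 (.lx (.lp 43 31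
  1449)) (.l1 .sk)) (.nx 6473 174 (.l1 .sk) (.la (.ls 53 37 1623))))) .out) .out)) (.na 9466 8192
  (.nx 9465 1292 (.nr 9464 65537 (.nr 8173 5793 .s1 (.lx (.lp 43 37 2049))) .out) .out) (.na 10761
  16384 (.nx 10760 1292 (.nr 10759 131073 (.nr 9467 8192 .s1 (.nx 9671 205 (.lx (.lp 43 41 4097))
  (.nr 10758 65537 (.lx (.lp 41 41 4097)) .out))) .out) .out) (.nx 12055 1292 (.nr 12054 262145
  (.nr 10762 16384 .s1 (.nx 10966 205 (.lx (.lp 47 43 8193)) (.nr 12053 131073 (.lx (.lp 41 43
  8193)) .out))) .out) .out)))) (.na 14112 131072 (.na 13084 65536 (.nx 13083 1025 (.nr 13082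
  262145 (.nr 12057 32768 .s1 (.nx 12261 205 (.lx (.lp 16 0 16385)) (.nr 13081 131073 (.lx (.lp 41
  47 16385)) .out))) .out) .out) (.nx 14111 1025 (.nr 14110 262145 (.nr 13085 65536 .s1 (.nx 13408
  324 (.lx (.lp 16 43 32769)) (.nr 14109 131073 (.lx (.lp 37 53 32769)) .out))) .out) .out)) (.na
  14114 262144 (.nx 14113 324 (.l1 .sk) .out) (.na 14116 524289 (.nx 14115 205 (.l1 .sk) .out)
  .out)))))))

theorem c137 :
    OkQ ckI L8 173 1 59 0 34359738368 1 1099511627776 ∧
    OkQ ckI L6 65 1 22 0 34359738368 1 1099511627776 ∧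
    OkQ ckI L8 173 59 1099511627776 0 34359738368 1 1099511627776 := by
  refine ⟨?_, ?_, ?_⟩
  · refine fin 72 923 T137_0 ?_
    refine jn 9 (by decide +kernel) ?_
    refine jn 15 (by decide +kernel) ?_
    refine jn 20 (by decide +kernel) ?_
    refine jn 25 (by decide +kernel) ?_
    refine jn 30 (by decide +kernel) ?_
    refine jn 36 (by decide +kernel) ?_
    refine jn 52 (by decide +kernel) ?_
    refine jn 61 (by decide +kernel) ?_
    refine jn 69 (by decide +kernel) ?_
    refine jn 74 (by decide +kernel) ?_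
    refine jn 85 (by decide +kernel) ?_
    refine jn 108 (by decide +kernel) ?_
    refine jn 129 (by decide +kernel) ?_
    refine jn 146 (by decide +kernel) ?_
    refine jn 155 (by decide +kernel) ?_
    refine jn 176 (by decide +kernel) ?_
    refine jn 194 (by decide +kernel) ?_
    refine jn 203 (by decide +kernel) ?_
    refine jn 205 (by decide +kernel) ?_
    refine jn 206 (by decide +kernel) ?_
    refine jn 208 (by decide +kernel) ?_
    refine jn 210 (by decide +kernel) ?_
    refine jn 211 (by decide +kernel) ?_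
    refine jn 213 (by decide +kernel) ?_
    refine jn 223 (by decide +kernel) ?_
    refine jn 228 (by decide +kernel) ?_
    refine jn 231 (by decide +kernel) ?_
    refine jn 234 (by decide +kernel) ?_
    refine jn 235 (by decide +kernel) ?_
    refine jn 240 (by decide +kernel) ?_
    refine jn 250 (by decide +kernel) ?_
    refine jn 261 (by decide +kernel) ?_
    refine jn 271 (by decide +kernel) ?_
    refine jn 279 (by decide +kernel) ?_
    refine jn 289 (by decide +kernel) ?_
    refine jn 315 (by decide +kernel) ?_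
    refine jn 325 (by decide +kernel) ?_
    refine jn 327 (by decide +kernel) ?_
    refine jn 329 (by decide +kernel) ?_
    refine jn 331 (by decide +kernel) ?_
    refine jn 333 (by decide +kernel) ?_
    refine jn 338 (by decide +kernel) ?_
    refine jn 344 (by decide +kernel) ?_
    refine jn 348 (by decide +kernel) ?_
    refine jn 350 (by decide +kernel) ?_
    refine jn 354 (by decide +kernel) ?_
    refine jn 365 (by decide +kernel) ?_
    refine jn 376 (by decide +kernel) ?_
    refine jn 385 (by decide +kernel) ?_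
    refine jn 414 (by decide +kernel) ?_
    refine jn 421 (by decide +kernel) ?_
    refine jn 423 (by decide +kernel) ?_
    refine jn 425 (by decide +kernel) ?_
    refine jn 426 (by decide +kernel) ?_
    refine jn 428 (by decide +kernel) ?_
    refine jn 430 (by decide +kernel) ?_
    refine jn 431 (by decide +kernel) ?_
    refine jn 435 (by decide +kernel) ?_
    refine jn 439 (by decide +kernel) ?_
    refine jn 446 (by decide +kernel) ?_
    refine jn 456 (by decide +kernel) ?_
    refine jn 466 (by decide +kernel) ?_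
    refine jn 473 (by decide +kernel) ?_
    refine jn 503 (by decide +kernel) ?_
    refine jn 516 (by decide +kernel) ?_
    refine jn 520 (by decide +kernel) ?_
    refine jn 521 (by decide +kernel) ?_
    refine jn 525 (by decide +kernel) ?_
    refine jn 526 (by decide +kernel) ?_
    refine jn 530 (by decide +kernel) ?_
    refine jn 536 (by decide +kernel) ?_
    refine jn 541 (by decide +kernel) ?_
    refine jn 554 (by decide +kernel) ?_
    refine jn 564 (by decide +kernel) ?_
    refine jn 566 (by decide +kernel) ?_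
    refine jn 567 (by decide +kernel) ?_
    refine jn 572 (by decide +kernel) ?_
    refine jn 583 (by decide +kernel) ?_
    refine jn 588 (by decide +kernel) ?_
    refine jn 605 (by decide +kernel) ?_
    refine jn 608 (by decide +kernel) ?_
    refine jn 610 (by decide +kernel) ?_
    refine jn 613 (by decide +kernel) ?_
    refine jn 624 (by decide +kernel) ?_
    refine jn 630 (by decide +kernel) ?_
    refine jn 644 (by decide +kernel) ?_
    refine jn 645 (by decide +kernel) ?_
    refine jn 646 (by decide +kernel) ?_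
    refine jn 647 (by decide +kernel) ?_
    refine jn 648 (by decide +kernel) ?_
    refine jn 649 (by decide +kernel) ?_
    refine jn 650 (by decide +kernel) ?_
    refine jn 655 (by decide +kernel) ?_
    refine jn 660 (by decide +kernel) ?_
    refine jn 664 (by decide +kernel) ?_
    refine jn 666 (by decide +kernel) ?_
    refine jn 667 (by decide +kernel) ?_
    refine jn 670 (by decide +kernel) ?_
    refine jn 674 (by decide +kernel) ?_
    refine jn 677 (by decide +kernel) ?_
    refine jn 685 (by decide +kernel) ?_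
    refine jn 691 (by decide +kernel) ?_
    refine jn 696 (by decide +kernel) ?_
    refine jn 704 (by decide +kernel) ?_
    refine jn 709 (by decide +kernel) ?_
    refine jn 720 (by decide +kernel) ?_
    refine jn 725 (by decide +kernel) ?_
    refine jn 730 (by decide +kernel) ?_
    refine jn 742 (by decide +kernel) ?_
    refine jn 749 (by decide +kernel) ?_
    refine jn 760 (by decide +kernel) ?_
    refine jn 774 (by decide +kernel) ?_
    refine jn 778 (by decide +kernel) ?_
    refine jn 786 (by decide +kernel) ?_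
    refine jn 800 (by decide +kernel) ?_
    refine jn 806 (by decide +kernel) ?_
    refine jn 816 (by decide +kernel) ?_
    refine jn 818 (by decide +kernel) ?_
    refine jn 820 (by decide +kernel) ?_
    refine jn 821 (by decide +kernel) ?_
    refine jn 825 (by decide +kernel) ?_
    refine jn 827 (by decide +kernel) ?_
    refine jn 830 (by decide +kernel) ?_
    refine jn 844 (by decide +kernel) ?_
    refine jn 851 (by decide +kernel) ?_
    refine jn 860 (by decide +kernel) ?_
    refine jn 861 (by decide +kernel) ?_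
    refine jn 862 (by decide +kernel) ?_
    refine jn 866 (by decide +kernel) ?_
    refine jn 868 (by decide +kernel) ?_
    refine jn 869 (by decide +kernel) ?_
    refine jn 876 (by decide +kernel) ?_
    refine jn 882 (by decide +kernel) ?_
    refine jn 887 (by decide +kernel) ?_
    refine jn 899 (by decide +kernel) ?_
    refine jn 901 (by decide +kernel) ?_
    refine jn 903 (by decide +kernel) ?_
    refine jn 910 (by decide +kernel) ?_
    refine jn 917 (by decide +kernel) ?_
    exact je (by decide +kernel)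
  · refine fin 4680 726 T137_1 ?_
    refine jn 5 (by decide +kernel) ?_
    refine jn 8 (by decide +kernel) ?_
    refine jn 9 (by decide +kernel) ?_
    refine jn 11 (by decide +kernel) ?_
    refine jn 12 (by decide +kernel) ?_
    refine jn 14 (by decide +kernel) ?_
    refine jn 16 (by decide +kernel) ?_
    refine jn 18 (by decide +kernel) ?_
    refine jn 20 (by decide +kernel) ?_
    refine jn 22 (by decide +kernel) ?_
    refine jn 23 (by decide +kernel) ?_
    refine jn 25 (by decide +kernel) ?_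
    refine jn 26 (by decide +kernel) ?_
    refine jn 28 (by decide +kernel) ?_
    refine jn 30 (by decide +kernel) ?_
    refine jn 31 (by decide +kernel) ?_
    refine jn 34 (by decide +kernel) ?_
    refine jn 38 (by decide +kernel) ?_
    refine jn 42 (by decide +kernel) ?_
    refine jn 46 (by decide +kernel) ?_
    refine jn 50 (by decide +kernel) ?_
    refine jn 54 (by decide +kernel) ?_
    refine jn 58 (by decide +kernel) ?_
    refine jn 59 (by decide +kernel) ?_
    refine jn 70 (by decide +kernel) ?_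
    refine jn 84 (by decide +kernel) ?_
    refine jn 98 (by decide +kernel) ?_
    refine jn 122 (by decide +kernel) ?_
    refine jn 137 (by decide +kernel) ?_
    refine jn 144 (by decide +kernel) ?_
    refine jn 166 (by decide +kernel) ?_
    refine jn 175 (by decide +kernel) ?_
    refine jn 178 (by decide +kernel) ?_
    refine jn 181 (by decide +kernel) ?_
    refine jn 184 (by decide +kernel) ?_
    refine jn 188 (by decide +kernel) ?_
    refine jn 191 (by decide +kernel) ?_
    refine jn 200 (by decide +kernel) ?_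
    refine jn 221 (by decide +kernel) ?_
    refine jn 228 (by decide +kernel) ?_
    refine jn 235 (by decide +kernel) ?_
    refine jn 237 (by decide +kernel) ?_
    refine jn 248 (by decide +kernel) ?_
    refine jn 255 (by decide +kernel) ?_
    refine jn 266 (by decide +kernel) ?_
    refine jn 286 (by decide +kernel) ?_
    refine jn 293 (by decide +kernel) ?_
    refine jn 294 (by decide +kernel) ?_
    refine jn 295 (by decide +kernel) ?_
    refine jn 296 (by decide +kernel) ?_
    refine jn 297 (by decide +kernel) ?_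
    refine jn 298 (by decide +kernel) ?_
    refine jn 299 (by decide +kernel) ?_
    refine jn 300 (by decide +kernel) ?_
    refine jn 301 (by decide +kernel) ?_
    refine jn 302 (by decide +kernel) ?_
    refine jn 303 (by decide +kernel) ?_
    refine jn 304 (by decide +kernel) ?_
    refine jn 315 (by decide +kernel) ?_
    refine jn 325 (by decide +kernel) ?_
    refine jn 326 (by decide +kernel) ?_
    refine jn 327 (by decide +kernel) ?_
    refine jn 328 (by decide +kernel) ?_
    refine jn 329 (by decide +kernel) ?_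
    refine jn 330 (by decide +kernel) ?_
    refine jn 331 (by decide +kernel) ?_
    refine jn 332 (by decide +kernel) ?_
    refine jn 333 (by decide +kernel) ?_
    refine jn 334 (by decide +kernel) ?_
    refine jn 335 (by decide +kernel) ?_
    refine jn 336 (by decide +kernel) ?_
    refine jn 337 (by decide +kernel) ?_
    refine jn 338 (by decide +kernel) ?_
    refine jn 339 (by decide +kernel) ?_
    refine jn 340 (by decide +kernel) ?_
    refine jn 341 (by decide +kernel) ?_
    refine jn 348 (by decide +kernel) ?_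
    refine jn 356 (by decide +kernel) ?_
    refine jn 359 (by decide +kernel) ?_
    refine jn 367 (by decide +kernel) ?_
    refine jn 374 (by decide +kernel) ?_
    refine jn 382 (by decide +kernel) ?_
    refine jn 387 (by decide +kernel) ?_
    refine jn 409 (by decide +kernel) ?_
    refine jn 421 (by decide +kernel) ?_
    refine jn 427 (by decide +kernel) ?_
    refine jn 439 (by decide +kernel) ?_
    refine jn 456 (by decide +kernel) ?_
    refine jn 502 (by decide +kernel) ?_
    refine jn 508 (by decide +kernel) ?_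
    refine jn 509 (by decide +kernel) ?_
    refine jn 510 (by decide +kernel) ?_
    refine jn 511 (by decide +kernel) ?_
    refine jn 512 (by decide +kernel) ?_
    refine jn 513 (by decide +kernel) ?_
    refine jn 514 (by decide +kernel) ?_
    refine jn 515 (by decide +kernel) ?_
    refine jn 517 (by decide +kernel) ?_
    refine jn 519 (by decide +kernel) ?_
    refine jn 521 (by decide +kernel) ?_
    refine jn 522 (by decide +kernel) ?_
    refine jn 524 (by decide +kernel) ?_
    refine jn 531 (by decide +kernel) ?_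
    refine jn 539 (by decide +kernel) ?_
    refine jn 555 (by decide +kernel) ?_
    refine jn 557 (by decide +kernel) ?_
    refine jn 558 (by decide +kernel) ?_
    refine jn 559 (by decide +kernel) ?_
    refine jn 560 (by decide +kernel) ?_
    refine jn 561 (by decide +kernel) ?_
    refine jn 562 (by decide +kernel) ?_
    refine jn 564 (by decide +kernel) ?_
    refine jn 566 (by decide +kernel) ?_
    refine jn 567 (by decide +kernel) ?_
    refine jn 568 (by decide +kernel) ?_
    refine jn 569 (by decide +kernel) ?_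
    refine jn 570 (by decide +kernel) ?_
    refine jn 571 (by decide +kernel) ?_
    refine jn 572 (by decide +kernel) ?_
    refine jn 573 (by decide +kernel) ?_
    refine jn 574 (by decide +kernel) ?_
    refine jn 581 (by decide +kernel) ?_
    refine jn 582 (by decide +kernel) ?_
    refine jn 583 (by decide +kernel) ?_
    refine jn 584 (by decide +kernel) ?_
    refine jn 585 (by decide +kernel) ?_
    refine jn 586 (by decide +kernel) ?_
    refine jn 587 (by decide +kernel) ?_
    refine jn 588 (by decide +kernel) ?_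
    refine jn 601 (by decide +kernel) ?_
    refine jn 624 (by decide +kernel) ?_
    refine jn 638 (by decide +kernel) ?_
    refine jn 649 (by decide +kernel) ?_
    refine jn 665 (by decide +kernel) ?_
    refine jn 675 (by decide +kernel) ?_
    refine jn 677 (by decide +kernel) ?_
    refine jn 681 (by decide +kernel) ?_
    refine jn 684 (by decide +kernel) ?_
    refine jn 688 (by decide +kernel) ?_
    refine jn 702 (by decide +kernel) ?_
    refine jn 704 (by decide +kernel) ?_
    refine jn 709 (by decide +kernel) ?_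
    refine jn 715 (by decide +kernel) ?_
    refine jn 719 (by decide +kernel) ?_
    exact je (by decide +kernel)
  · refine fin 72 14117 T137_2 ?_
    refine jn 10 (by decide +kernel) ?_
    refine jn 23 (by decide +kernel) ?_
    refine jn 26 (by decide +kernel) ?_
    refine jn 28 (by decide +kernel) ?_
    refine jn 42 (by decide +kernel) ?_
    refine jn 58 (by decide +kernel) ?_
    refine jn 75 (by decide +kernel) ?_
    refine jn 84 (by decide +kernel) ?_
    refine jn 89 (by decide +kernel) ?_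
    refine jn 91 (by decide +kernel) ?_
    refine jn 103 (by decide +kernel) ?_
    refine jn 115 (by decide +kernel) ?_
    refine jn 116 (by decide +kernel) ?_
    refine jn 117 (by decide +kernel) ?_
    refine jn 118 (by decide +kernel) ?_
    refine jn 119 (by decide +kernel) ?_
    refine jn 120 (by decide +kernel) ?_
    refine jn 135 (by decide +kernel) ?_
    refine jn 146 (by decide +kernel) ?_
    refine jn 151 (by decide +kernel) ?_
    refine jn 154 (by decide +kernel) ?_
    refine jn 167 (by decide +kernel) ?_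
    refine jn 182 (by decide +kernel) ?_
    refine jn 196 (by decide +kernel) ?_
    refine jn 207 (by decide +kernel) ?_
    refine jn 211 (by decide +kernel) ?_
    refine jn 221 (by decide +kernel) ?_
    refine jn 235 (by decide +kernel) ?_
    refine jn 250 (by decide +kernel) ?_
    refine jn 261 (by decide +kernel) ?_
    refine jn 268 (by decide +kernel) ?_
    refine jn 274 (by decide +kernel) ?_
    refine jn 283 (by decide +kernel) ?_
    refine jn 293 (by decide +kernel) ?_
    refine jn 307 (by decide +kernel) ?_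
    refine jn 323 (by decide +kernel) ?_
    refine jn 335 (by decide +kernel) ?_
    refine jn 346 (by decide +kernel) ?_
    refine jn 355 (by decide +kernel) ?_
    refine jn 371 (by decide +kernel) ?_
    refine jn 381 (by decide +kernel) ?_
    refine jn 392 (by decide +kernel) ?_
    refine jn 402 (by decide +kernel) ?_
    refine jn 418 (by decide +kernel) ?_
    refine jn 429 (by decide +kernel) ?_
    refine jn 438 (by decide +kernel) ?_
    refine jn 454 (by decide +kernel) ?_
    refine jn 465 (by decide +kernel) ?_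
    refine jn 480 (by decide +kernel) ?_
    refine jn 490 (by decide +kernel) ?_
    refine jn 501 (by decide +kernel) ?_
    refine jn 516 (by decide +kernel) ?_
    refine jn 518 (by decide +kernel) ?_
    refine jn 534 (by decide +kernel) ?_
    refine jn 543 (by decide +kernel) ?_
    refine jn 552 (by decide +kernel) ?_
    refine jn 559 (by decide +kernel) ?_
    refine jn 584 (by decide +kernel) ?_
    refine jn 655 (by decide +kernel) ?_
    refine jn 711 (by decide +kernel) ?_
    refine jn 770 (by decide +kernel) ?_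
    refine jn 824 (by decide +kernel) ?_
    refine jn 867 (by decide +kernel) ?_
    refine jn 872 (by decide +kernel) ?_
    refine jn 888 (by decide +kernel) ?_
    refine jn 899 (by decide +kernel) ?_
    refine jn 902 (by decide +kernel) ?_
    refine jn 914 (by decide +kernel) ?_
    refine jn 919 (by decide +kernel) ?_
    refine jn 943 (by decide +kernel) ?_
    refine jn 948 (by decide +kernel) ?_
    refine jn 959 (by decide +kernel) ?_
    refine jn 968 (by decide +kernel) ?_
    refine jn 982 (by decide +kernel) ?_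
    refine jn 983 (by decide +kernel) ?_
    refine jn 994 (by decide +kernel) ?_
    refine jn 1003 (by decide +kernel) ?_
    refine jn 1012 (by decide +kernel) ?_
    refine jn 1023 (by decide +kernel) ?_
    refine jn 1043 (by decide +kernel) ?_
    refine jn 1046 (by decide +kernel) ?_
    refine jn 1063 (by decide +kernel) ?_
    refine jn 1067 (by decide +kernel) ?_
    refine jn 1068 (by decide +kernel) ?_
    refine jn 1079 (by decide +kernel) ?_
    refine jn 1092 (by decide +kernel) ?_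
    refine jn 1099 (by decide +kernel) ?_
    refine jn 1121 (by decide +kernel) ?_
    refine jn 1126 (by decide +kernel) ?_
    refine jn 1134 (by decide +kernel) ?_
    refine jn 1154 (by decide +kernel) ?_
    refine jn 1158 (by decide +kernel) ?_
    refine jn 1174 (by decide +kernel) ?_
    refine jn 1202 (by decide +kernel) ?_
    refine jn 1214 (by decide +kernel) ?_
    refine jn 1237 (by decide +kernel) ?_
    refine jn 1242 (by decide +kernel) ?_
    refine jn 1254 (by decide +kernel) ?_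
    refine jn 1267 (by decide +kernel) ?_
    refine jn 1278 (by decide +kernel) ?_
    refine jn 1298 (by decide +kernel) ?_
    refine jn 1303 (by decide +kernel) ?_
    refine jn 1322 (by decide +kernel) ?_
    refine jn 1326 (by decide +kernel) ?_
    refine jn 1338 (by decide +kernel) ?_
    refine jn 1354 (by decide +kernel) ?_
    refine jn 1377 (by decide +kernel) ?_
    refine jn 1549 (by decide +kernel) ?_
    refine jn 1589 (by decide +kernel) ?_
    refine jn 1603 (by decide +kernel) ?_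
    refine jn 1608 (by decide +kernel) ?_
    refine jn 1616 (by decide +kernel) ?_
    refine jn 1621 (by decide +kernel) ?_
    refine jn 1636 (by decide +kernel) ?_
    refine jn 1646 (by decide +kernel) ?_
    refine jn 1669 (by decide +kernel) ?_
    refine jn 1696 (by decide +kernel) ?_
    refine jn 1708 (by decide +kernel) ?_
    refine jn 1717 (by decide +kernel) ?_
    refine jn 1731 (by decide +kernel) ?_
    refine jn 1747 (by decide +kernel) ?_
    refine jn 1763 (by decide +kernel) ?_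
    refine jn 1769 (by decide +kernel) ?_
    refine jn 1781 (by decide +kernel) ?_
    refine jn 1802 (by decide +kernel) ?_
    refine jn 1806 (by decide +kernel) ?_
    refine jn 1818 (by decide +kernel) ?_
    refine jn 1826 (by decide +kernel) ?_
    refine jn 1830 (by decide +kernel) ?_
    refine jn 1835 (by decide +kernel) ?_
    refine jn 1850 (by decide +kernel) ?_
    refine jn 1869 (by decide +kernel) ?_
    refine jn 1883 (by decide +kernel) ?_
    refine jn 1910 (by decide +kernel) ?_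
    refine jn 1922 (by decide +kernel) ?_
    refine jn 1933 (by decide +kernel) ?_
    refine jn 1950 (by decide +kernel) ?_
    refine jn 1962 (by decide +kernel) ?_
    refine jn 1977 (by decide +kernel) ?_
    refine jn 1986 (by decide +kernel) ?_
    refine jn 2012 (by decide +kernel) ?_
    refine jn 2051 (by decide +kernel) ?_
    refine jn 2082 (by decide +kernel) ?_
    refine jn 2111 (by decide +kernel) ?_
    refine jn 2170 (by decide +kernel) ?_
    refine jn 2209 (by decide +kernel) ?_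
    refine jn 2259 (by decide +kernel) ?_
    refine jn 2302 (by decide +kernel) ?_
    refine jn 2328 (by decide +kernel) ?_
    refine jn 2360 (by decide +kernel) ?_
    refine jn 2378 (by decide +kernel) ?_
    refine jn 2394 (by decide +kernel) ?_
    refine jn 2426 (by decide +kernel) ?_
    refine jn 2465 (by decide +kernel) ?_
    refine jn 2489 (by decide +kernel) ?_
    refine jn 2529 (by decide +kernel) ?_
    refine jn 2565 (by decide +kernel) ?_
    refine jn 2588 (by decide +kernel) ?_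
    refine jn 2606 (by decide +kernel) ?_
    refine jn 2657 (by decide +kernel) ?_
    refine jn 2705 (by decide +kernel) ?_
    refine jn 2765 (by decide +kernel) ?_
    refine jn 2809 (by decide +kernel) ?_
    refine jn 2845 (by decide +kernel) ?_
    refine jn 2882 (by decide +kernel) ?_
    refine jn 2929 (by decide +kernel) ?_
    refine jn 2977 (by decide +kernel) ?_
    refine jn 3013 (by decide +kernel) ?_
    refine jn 3054 (by decide +kernel) ?_
    refine jn 3109 (by decide +kernel) ?_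
    refine jn 3147 (by decide +kernel) ?_
    refine jn 3179 (by decide +kernel) ?_
    refine jn 3210 (by decide +kernel) ?_
    refine jn 3237 (by decide +kernel) ?_
    refine jn 3262 (by decide +kernel) ?_
    refine jn 3294 (by decide +kernel) ?_
    refine jn 3314 (by decide +kernel) ?_
    refine jn 3353 (by decide +kernel) ?_
    refine jn 3383 (by decide +kernel) ?_
    refine jn 3414 (by decide +kernel) ?_
    refine jn 3450 (by decide +kernel) ?_
    refine jn 3502 (by decide +kernel) ?_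
    refine jn 3554 (by decide +kernel) ?_
    refine jn 3586 (by decide +kernel) ?_
    refine jn 3643 (by decide +kernel) ?_
    refine jn 3679 (by decide +kernel) ?_
    refine jn 3723 (by decide +kernel) ?_
    refine jn 3801 (by decide +kernel) ?_
    refine jn 3874 (by decide +kernel) ?_
    refine jn 3922 (by decide +kernel) ?_
    refine jn 3967 (by decide +kernel) ?_
    refine jn 4029 (by decide +kernel) ?_
    refine jn 4094 (by decide +kernel) ?_
    refine jn 4169 (by decide +kernel) ?_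
    refine jn 4221 (by decide +kernel) ?_
    refine jn 4274 (by decide +kernel) ?_
    refine jn 4354 (by decide +kernel) ?_
    refine jn 4401 (by decide +kernel) ?_
    refine jn 4450 (by decide +kernel) ?_
    refine jn 4496 (by decide +kernel) ?_
    refine jn 4589 (by decide +kernel) ?_
    refine jn 4657 (by decide +kernel) ?_
    refine jn 4722 (by decide +kernel) ?_
    refine jn 4809 (by decide +kernel) ?_
    refine jn 4876 (by decide +kernel) ?_
    refine jn 4923 (by decide +kernel) ?_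
    refine jn 5137 (by decide +kernel) ?_
    refine jn 5199 (by decide +kernel) ?_
    refine jn 5266 (by decide +kernel) ?_
    refine jn 5359 (by decide +kernel) ?_
    refine jn 5439 (by decide +kernel) ?_
    refine jn 5518 (by decide +kernel) ?_
    refine jn 5606 (by decide +kernel) ?_
    refine jn 5697 (by decide +kernel) ?_
    refine jn 5791 (by decide +kernel) ?_
    refine jn 5907 (by decide +kernel) ?_
    refine jn 5994 (by decide +kernel) ?_
    refine jn 6081 (by decide +kernel) ?_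
    refine jn 6186 (by decide +kernel) ?_
    refine jn 6282 (by decide +kernel) ?_
    refine jn 6519 (by decide +kernel) ?_
    refine jn 6628 (by decide +kernel) ?_
    refine jn 6711 (by decide +kernel) ?_
    refine jn 6791 (by decide +kernel) ?_
    refine jn 6879 (by decide +kernel) ?_
    refine jn 6976 (by decide +kernel) ?_
    refine jn 7054 (by decide +kernel) ?_
    refine jn 7166 (by decide +kernel) ?_
    refine jn 7250 (by decide +kernel) ?_
    refine jn 7330 (by decide +kernel) ?_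
    refine jn 7428 (by decide +kernel) ?_
    refine jn 7534 (by decide +kernel) ?_
    refine jn 7634 (by decide +kernel) ?_
    refine jn 7739 (by decide +kernel) ?_
    refine jn 7844 (by decide +kernel) ?_
    refine jn 7954 (by decide +kernel) ?_
    refine jn 8046 (by decide +kernel) ?_
    refine jn 8131 (by decide +kernel) ?_
    refine jn 8379 (by decide +kernel) ?_
    refine jn 8609 (by decide +kernel) ?_
    refine jn 8771 (by decide +kernel) ?_
    refine jn 8895 (by decide +kernel) ?_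
    refine jn 9022 (by decide +kernel) ?_
    refine jn 9117 (by decide +kernel) ?_
    refine jn 9204 (by decide +kernel) ?_
    refine jn 9287 (by decide +kernel) ?_
    refine jn 9359 (by decide +kernel) ?_
    refine jn 9427 (by decide +kernel) ?_
    refine jn 9590 (by decide +kernel) ?_
    refine jn 9858 (by decide +kernel) ?_
    refine jn 9969 (by decide +kernel) ?_
    refine jn 10084 (by decide +kernel) ?_
    refine jn 10179 (by decide +kernel) ?_
    refine jn 10272 (by decide +kernel) ?_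
    refine jn 10352 (by decide +kernel) ?_
    refine jn 10406 (by decide +kernel) ?_
    refine jn 10452 (by decide +kernel) ?_
    refine jn 10513 (by decide +kernel) ?_
    refine jn 10569 (by decide +kernel) ?_
    refine jn 10617 (by decide +kernel) ?_
    refine jn 10661 (by decide +kernel) ?_
    refine jn 10706 (by decide +kernel) ?_
    refine jn 10746 (by decide +kernel) ?_
    refine jn 10835 (by decide +kernel) ?_
    refine jn 11129 (by decide +kernel) ?_
    refine jn 11303 (by decide +kernel) ?_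
    refine jn 11420 (by decide +kernel) ?_
    refine jn 11516 (by decide +kernel) ?_
    refine jn 11634 (by decide +kernel) ?_
    refine jn 11733 (by decide +kernel) ?_
    refine jn 11813 (by decide +kernel) ?_
    refine jn 11891 (by decide +kernel) ?_
    refine jn 11960 (by decide +kernel) ?_
    refine jn 12030 (by decide +kernel) ?_
    refine jn 12452 (by decide +kernel) ?_
    refine jn 12662 (by decide +kernel) ?_
    refine jn 12867 (by decide +kernel) ?_
    refine jn 12968 (by decide +kernel) ?_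
    refine jn 13075 (by decide +kernel) ?_
    refine jn 13689 (by decide +kernel) ?_
    refine jn 13856 (by decide +kernel) ?_
    refine jn 14099 (by decide +kernel) ?_
    exact je (by decide +kernel)

end Pool.Agent.MP_2339ce_nt.NR
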