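import Pool.Agent.MP_2339ce_nt.Q2.NC.L6
import Pool.Agent.MP_2339ce_nt.Q2.CkI

/-! Block NR: runs. -/

set_option autoImplicit false
set_option maxRecDepth 100000

noncomputable section

namespace Pool.Agent.MP_2339ce_nt.NR

open Q2.Top

def T16_0 : Ph :=
  (.na 942 12 (.na 689 6 (.na 332 3 (.na 204 2 (.nx 203 1321124 (.nr 202 311745 (.nx 161 330282
  (.nx 3 112 (.nx 2 111 (.nr 1 11 (.lg 0 true 1 41 41 5 0 888) (.l1 .sk)) (.l1 .sk)) (.nx 61 12041
  (.nr 47 46342 (.lg 0 false 44 97 103 16 0 2051280) (.nx 60 205 (.lg 0 false 13 83 83 9 0 11544)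
  .out)) (.nr 160 38969 (.nr 118 1724 (.nr 105 432 (.lg 0 true 44 89 97 16 0 2051280) (.lg 2 true
  13 101 101 9 42433 2424240)) (.nx 159 165142 (.nx 131 16385 (.lg 1 false 13 101 103 9 19996
  2424240) (.nr 158 27556 (.nr 144 13779 (.lg 2 false 13 101 103 9 5317 2424240) (.nx 157 82572
  (.lg 2 false 13 103 107 9 10403 26666640) .out)) .out)) .out)) .out))) (.nr 201 109 (.nx 174
  660563 (.lg 0 true 13 83 83 9 0 11544) (.nr 200 13 (.lg 0 true 26 73 73 9 0 23088) .out)) .out))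
  .out) .out) (.nx 331 3329023 (.nr 330 623489 (.nx 311 1321124 (.nx 207 112 (.nx 206 111 (.nr 205
  20 (.lg 0 true 1 41 41 5 0 1776) (.l1 .sk)) (.l1 .sk)) (.nr 297 77937 (.nr 291 65537 (.nx 220
  9555 (.lg 0 false 13 103 103 9 0 2424240) (.nr 246 257 (.lg 0 true 26 89 89 11 0 23088) (.nx 290
  165142 (.nx 259 20644 (.lg 1 false 13 103 107 9 42329 26666640) (.nr 289 46342 (.nr 277 27556
  (.nr 266 1100 (.lg 2 true 7 83 83 9 35663 12432) (.lg 2 false 11 101 103 9 8333 2051280)) (.nx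
  288 65537 (.lg 2 false 11 101 103 9 13863 2051280) .out)) .out)) .out))) (.nx 296 1292 (.lg 0
  false 5 83 83 9 0 8880) .out)) (.nx 310 205 (.lg 0 false 13 79 79 9 0 23088) .out))) (.nr 329 9
  (.lg 0 true 18 71 71 9 0 5328) .out)) .out) .out)) (.na 469 4 (.nx 468 6658044 (.nr 467 881745
  (.nx 335 112 (.nx 334 111 (.nr 333 28 (.lg 0 true 1 29 29 5 0 2664) (.l1 .sk)) (.l1 .sk)) (.nx
  431 832257 (.nx 370 13003 (.nr 348 55110 (.lg 0 false 13 97 97 13 0 346320) (.nx 369 1292 (.nr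
  355 110219 (.lg 0 false 7 83 83 7 0 18648) (.nx 368 205 (.lg 0 false 13 73 73 13 0 34632) .out))
  .out)) (.nr 430 65537 (.nr 392 364 (.lg 0 true 22 83 83 16 0 58608) (.nx 429 208065 (.nx 414
  52017 (.nx 403 28090 (.lg 1 false 11 97 101 7 31104 293040) (.lg 1 true 11 97 97 7 14398 293040))
  (.nr 428 38969 (.nr 421 3220 (.lg 2 true 7 83 83 7 31725 18648) (.lg 2 false 7 97 97 7 4629
  186480)) .out)) .out)) .out)) (.nr 466 33 (.lg 0 true 35 73 73 7 0 93240) .out))) .out) .out)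
  (.na 596 5 (.nx 595 10568985 (.nr 594 1246976 (.nx 472 112 (.nx 471 111 (.nr 470 36 (.lg 0 true 1
  29 29 9 0 1776) (.l1 .sk)) (.l1 .sk)) (.nx 542 330282 (.nx 503 10321 (.nr 483 55110 (.lg 0 false
  11 97 97 13 0 293040) (.nx 502 1292 (.nr 490 155873 (.lg 0 false 7 89 97 11 0 186480) (.nx 501
  205 (.lg 0 false 11 79 83 13 0 19536) .out)) .out)) (.nr 541 65537 (.nr 519 2635 (.nr 514 694
  (.lg 0 true 11 83 83 13 0 19536) (.lg 2 true 5 83 89 11 26414 26640)) (.nx 533 41287 (.nx 526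
  20642 (.lg 1 false 7 97 103 11 39187 186480) (.lg 1 true 7 103 107 11 19593 26666640)) (.nr 540
  55110 (.lg 2 false 7 101 103 11 8240 186480) .out))) .out)) (.nr 593 183 (.nx 553 1321124 (.lg 0
  true 11 83 83 13 0 19536) (.nr 592 21 (.nx 564 2642247 (.lg 0 true 11 73 73 11 0 19536) (.lg 0
  true 28 79 79 11 0 12432)) .out)) .out))) .out) .out) (.nx 688 10568985 (.nr 687 1482912 (.nx 598
  111 (.nr 597 44 (.lg 0 false 1 29 29 9 0 4440) (.l1 .sk)) (.nx 599 112 (.l1 .sk) (.nr 675 65537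
  (.nx 646 1321124 (.nx 612 23170 (.lg 0 false 13 101 103 16 0 2424240) (.nx 634 262145 (.nr 623
  824 (.lg 0 true 11 79 83 16 0 48840) (.lg 2 false 11 101 103 16 17657 2051280)) (.nr 645 217 (.lg
  0 true 11 83 83 16 0 48840) .out))) (.nr 674 24 (.lg 0 true 28 79 79 16 0 62160) .out)) (.nx 686
  205 (.lg 0 false 11 79 79 16 0 48840) .out)))) .out) .out)))) (.na 817 8 (.na 744 7 (.nx 743
  1321124 (.nr 742 220437 (.nx 691 111 (.nr 690 52 (.lg 0 false 1 29 29 7 0 5328) (.l1 .sk)) (.nx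
  692 112 (.l1 .sk) (.nr 730 55110 (.nx 703 12933 (.lg 0 false 11 97 97 13 0 2051280) (.nr 716 501
  (.lg 0 true 13 83 83 13 0 69264) (.nx 729 416129 (.nr 718 977 (.lg 2 false 2 79 79 7 46099
  186480) (.lg 2 false 11 101 101 13 26305 2051280)) .out))) (.nx 741 1292 (.lg 0 false 11 83 83 13
  0 58608) .out)))) .out) .out) (.nx 816 10568985 (.nr 815 262145 (.nx 746 111 (.nr 745 59 (.lg 0
  true 1 23 23 9 0 6216) (.l1 .sk)) (.nx 747 112 (.l1 .sk) (.nr 810 65537 (.nx 783 1321124 (.nx 758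
  15169 (.lg 0 false 11 97 101 16 0 2051280) (.nr 769 306 (.lg 0 true 11 83 83 16 0 68376) (.nx 782
  262145 (.nr 773 2267 (.lg 2 true 4 83 83 13 47546 12432) (.nx 777 32769 (.lg 1 false 4 97 101 13
  26663 186480) (.nr 781 55110 (.lg 2 false 4 101 101 13 10382 186480) .out))) .out))) (.nr 809 47
  (.lg 0 true 26 83 83 16 0 161616) .out)) (.nx 814 408 (.lg 0 false 4 79 79 13 0 12432) .out))))
  .out) .out)) (.na 897 9 (.nx 896 10568985 (.nr 895 623489 (.nx 866 660563 (.nx 820 112 (.nx 819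
  111 (.nr 818 67 (.lg 0 true 1 31 41 11 0 186480) (.l1 .sk)) (.l1 .sk)) (.nr 860 220437 (.nr 857
  77937 (.nx 831 19712 (.lg 0 false 11 97 101 19 0 2051280) (.nr 856 65537 (.nr 842 364 (.lg 0 true
  11 79 79 19 0 19536) (.nx 855 208065 (.nx 847 41287 (.lg 1 true 5 89 101 13 20518 186480) (.nr
  854 46342 (.nr 849 2504 (.lg 2 true 2 89 89 11 31725 186480) (.lg 2 false 5 89 101 13 6932
  186480)) .out)) .out)) .out)) (.nx 859 814 (.lg 0 false 2 89 89 11 0 1776) .out)) (.nx 865 408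
  (.lg 0 false 5 83 89 13 0 186480) .out))) (.nr 894 109 (.nx 871 1321124 (.lg 0 true 5 79 79 13 0
  8880) (.nr 893 55 (.lg 0 true 22 79 89 13 0 19536) .out)) .out)) .out) .out) (.na 898 10 (.lg 0
  false 1 0 0 7 0 24) (.nx 941 1321124 (.nr 940 623489 (.nx 900 111 (.nr 899 89 (.lg 0 false 1 23
  23 11 0 26640) (.l1 .sk)) (.nx 901 112 (.l1 .sk) (.nx 916 26009 (.nr 908 77937 (.lg 0 false 7 97
  97 13 0 186480) (.nx 915 814 (.lg 0 false 7 83 83 13 0 62160) .out)) (.nr 939 46342 (.nx 931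
  330282 (.nr 923 766 (.lg 0 true 7 79 79 13 0 62160) (.nx 930 165142 (.lg 2 false 7 89 97 13 11966
  186480) .out)) (.nr 938 65 (.lg 0 true 7 71 71 13 0 62160) .out)) .out)))) .out) .out))))) (.na
  1105 18 (.na 1016 15 (.na 979 14 (.nx 978 1321124 (.nr 977 623489 (.nr 943 6 .s1 (.nx 945 111
  (.nr 944 105 (.lg 0 true 1 23 23 13 0 5328) (.l1 .sk)) (.nx 946 112 (.l1 .sk) (.nx 971 330282
  (.nr 965 92683 (.nx 953 20644 (.lg 0 false 7 89 97 19 0 186480) (.nr 964 55110 (.nr 958 766 (.lg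
  0 true 5 79 79 17 0 26640) (.nx 963 165142 (.lg 2 false 5 89 97 17 16480 186480) .out)) .out))
  (.nx 970 814 (.lg 0 false 5 83 83 17 0 26640) .out)) (.nr 976 65 (.lg 0 true 5 71 71 17 0 26640)
  .out))))) .out) .out) (.nx 1015 1321124 (.nr 1014 623489 (.nr 980 10 .s1 (.nx 983 112 (.nx 982
  111 (.nr 981 112 (.lg 0 true 1 23 23 11 0 186480) (.l1 .sk)) (.l1 .sk)) (.nx 1008 330282 (.nx 998
  26009 (.nx 984 324 (.l1 (.ls 83 47 6605)) (.nr 997 220437 (.nr 995 92683 (.lg 0 false 11 89 101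
  19 0 2051280) (.nx 996 814 (.lg 0 true 1 83 83 11 0 186480) .out)) .out)) (.nr 1007 46342 (.nr
  1003 766 (.lg 0 true 5 79 79 13 0 62160) (.nx 1006 165142 (.lg 2 false 3 89 97 13 11966 186480)
  .out)) .out)) (.nr 1013 65 (.lg 0 true 5 67 67 13 0 62160) .out)))) .out) .out)) (.na 1045 16
  (.nx 1044 1321124 (.nr 1043 623489 (.nr 1017 11 .s1 (.nx 1021 324 (.nx 1019 111 (.nr 1018 120
  (.lg 0 true 1 23 23 16 0 186480) (.l1 .sk)) (.nx 1020 112 (.l1 .sk) (.l1 (.ls 83 43 6165)))) (.nr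
  1042 220437 (.nr 1040 92683 (.nx 1025 20644 (.lg 0 false 4 97 97 16 0 186480) (.nr 1039 55110
  (.nr 1034 766 (.nx 1029 330282 (.lg 0 true 4 79 79 16 0 26640) (.nr 1033 65 (.lg 0 true 4 67 67
  16 0 26640) .out)) (.nx 1038 165142 (.lg 2 false 4 97 97 16 16480 186480) .out)) .out)) (.nx 1041
  814 (.lg 0 true 1 83 83 16 0 186480) .out)) .out))) .out) .out) (.na 1076 17 (.nx 1075 1321124
  (.nr 1074 1048577 (.nr 1046 13 .s1 (.nx 1049 112 (.nx 1048 111 (.nr 1047 127 (.lg 0 true 1 31 31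
  11 0 186480) (.l1 .sk)) (.l1 .sk)) (.nx 1052 324 (.nx 1050 205 (.l1 (.ls 89 37 1845)) (.nr 1051
  623489 (.l1 (.ls 83 41 3937)) .out)) (.nr 1073 220437 (.nx 1059 11148 (.nr 1057 131073 (.lg 0
  false 5 89 97 17 0 186480) (.nx 1058 814 (.lg 0 false 1 73 73 11 0 1776) .out)) (.nr 1072 65537
  (.nx 1066 165142 (.nr 1061 766 (.lg 0 true 2 73 73 13 0 1776) (.nx 1063 26009 (.lg 1 false 2 97
  101 13 36280 186480) (.nr 1065 46342 (.lg 2 false 2 97 101 13 11966 186480) .out))) (.nr 1071 183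
  (.lg 0 true 5 73 73 17 0 8880) .out)) .out)) .out)))) .out) .out) (.nx 1104 1321124 (.nr 1103
  1048577 (.nr 1077 14 .s1 (.nx 1081 205 (.nx 1079 111 (.nr 1078 134 (.lg 0 true 1 23 23 11 0
  26640) (.l1 .sk)) (.nx 1080 112 (.l1 .sk) (.l1 (.ls 83 31 1737)))) (.nr 1102 623489 (.nx 1089
  16385 (.nx 1082 324 (.l1 (.ls 79 37 3706)) (.nr 1088 220437 (.nr 1086 131073 (.lg 0 false 4 97 97
  16 0 26640) (.nx 1087 814 (.lg 0 true 1 73 73 11 0 888) .out)) .out)) (.nr 1101 46342 (.nr 1096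
  498 (.lg 0 true 7 79 79 16 0 6216) (.nx 1100 165142 (.lg 2 false 4 89 89 16 18405 26640) .out))
  .out)) .out))) .out) .out)))) (.na 1136 21 (.na 1106 20 (.lg 0 false 1 0 0 7 0 24) (.nx 1135
  1321124 (.nr 1134 1048577 (.nr 1107 18 .s1 (.nx 1110 112 (.nx 1109 111 (.nr 1108 157 (.l1 (.ls 29
  31 619)) (.l1 .sk)) (.l1 .sk)) (.nx 1130 165142 (.nx 1111 205 (.l1 (.ls 89 41 1477)) (.nr 1129
  623489 (.nx 1112 324 (.l1 (.ls 89 43 3150)) (.nr 1128 220437 (.nr 1126 131073 (.nx 1115 6503 (.lg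
  0 false 3 97 97 19 0 186480) (.nr 1125 77937 (.nr 1118 10107 (.nr 1116 1360 (.lg 0 false 1 89 89
  13 0 186480) (.lg 2 false 2 73 73 17 9681 8880)) (.nr 1123 55110 (.nx 1120 26009 (.lg 0 false 2
  101 103 17 0 2051280) (.nr 1122 32769 (.lg 2 true 2 73 73 17 7789 8880) .out)) (.nx 1124 10323
  (.lg 0 false 1 83 83 13 0 8880) .out))) .out)) (.nx 1127 814 (.lg 0 false 1 79 79 13 0 8880)
  .out)) .out)) .out)) (.nr 1133 183 (.lg 0 true 3 79 79 19 0 26640) .out)))) .out) .out)) (.na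
  1163 23 (.nx 1162 1321124 (.nr 1161 1048577 (.nr 1137 19 .s1 (.nx 1141 205 (.nx 1139 111 (.nr
  1138 172 (.lg 0 false 1 23 23 16 0 186480) (.l1 .sk)) (.nx 1140 112 (.l1 .sk) (.l1 (.ls 83 37
  1406)))) (.nr 1160 623489 (.nx 1149 16385 (.nx 1142 324 (.l1 (.ls 79 41 3000)) (.nr 1148 220437
  (.nr 1146 131073 (.lg 0 false 4 89 89 17 0 186480) (.nx 1147 814 (.lg 0 true 1 73 73 16 0 18648)
  .out)) .out)) (.nr 1159 46342 (.nr 1154 498 (.lg 0 true 5 73 73 17 0 93240) (.nx 1158 165142 (.lg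
  2 false 4 89 89 17 18405 186480) .out)) .out)) .out))) .out) .out) (.na 1184 24 (.nx 1183 1321124
  (.nr 1182 1048577 (.nr 1164 21 .s1 (.nx 1167 112 (.nx 1166 111 (.nr 1165 179 (.lg 0 false 1 23 23
  11 0 186480) (.l1 .sk)) (.l1 .sk)) (.nx 1168 205 (.l1 (.ls 83 31 1284)) (.nr 1181 185365 (.nx
  1172 16385 (.lg 0 false 4 89 89 16 0 1776) (.nr 1180 38969 (.nr 1177 513 (.lg 0 true 5 73 73 16 0
  4440) (.nx 1179 82572 (.lg 2 true 2 89 89 13 14694 1776) .out)) .out)) .out)))) .out) .out) (.nx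
  1205 1321124 (.nr 1204 1048577 (.nr 1185 22 .s1 (.nx 1188 112 (.nx 1187 111 (.nr 1186 187 (.l1
  (.ls 29 37 516)) (.l1 .sk)) (.l1 .sk)) (.nx 1195 16385 (.nx 1189 205 (.l1 (.ls 89 41 1231)) (.nr
  1194 185365 (.nr 1191 92683 (.lg 0 false 2 97 97 19 0 26640) (.nx 1193 6503 (.lg 0 false 2 89 97
  19 0 26640) .out)) .out)) (.nr 1203 38969 (.nr 1200 513 (.nx 1196 165142 (.lg 0 false 1 79 79 13
  0 26640) (.nr 1199 183 (.lg 0 true 3 73 73 23 0 5328) .out)) (.nx 1202 82572 (.lg 2 false 2 89 89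
  19 14694 26640) .out)) .out)))) .out) .out))))))

def T16_1 : Ph :=
  (.na 1465 131 (.na 1140 62 (.na 942 23 (.na 726 11 (.na 426 5 (.na 306 3 (.na 188 2 (.nx 187
  1321124 (.nr 186 311745 (.nx 3 106 (.nx 2 105 (.nr 1 11 (.lg 0 true 1 41 41 5 0 2520) (.l1 .sk))
  (.l1 .sk)) (.nx 159 660563 (.nx 64 12041 (.nr 47 46342 (.lg 0 false 44 97 101 16 0 55440) (.nx 63
  205 (.lg 0 false 16 83 83 9 0 1680) .out)) (.nr 158 38969 (.nr 124 1219 (.nx 107 330282 (.nr 96
  432 (.lg 0 true 32 83 83 13 0 1680) (.lg 2 true 11 89 89 9 40139 27720)) (.nr 123 109 (.lg 0 true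
  16 79 79 9 0 1680) .out)) (.nx 157 208065 (.nx 140 16385 (.lg 1 false 16 89 97 9 17890 5040) (.nr
  156 27556 (.lg 2 false 16 103 107 9 9307 720720) .out)) .out)) .out)) (.nr 185 13 (.lg 0 true 26
  73 73 9 0 21840) .out))) .out) .out) (.nx 305 3329023 (.nr 304 623489 (.nx 191 106 (.nx 190 105
  (.nr 189 20 (.lg 0 true 1 41 41 5 0 1680) (.l1 .sk)) (.l1 .sk)) (.nr 290 77937 (.nr 286 65537
  (.nx 204 9555 (.lg 0 false 13 103 103 9 0 720720) (.nx 267 1321124 (.nr 230 257 (.lg 0 true 26 89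
  89 11 0 21840) (.nx 266 165142 (.nr 239 1100 (.lg 2 true 9 83 83 9 33736 5040) (.nx 252 20644
  (.lg 1 false 13 101 103 9 37873 720720) (.nr 265 46342 (.lg 2 false 13 101 107 9 12403 720720)
  .out))) .out)) (.nr 285 9 (.lg 0 true 18 71 71 9 0 5040) .out))) (.nx 289 1292 (.lg 0 true 3 89
  89 7 0 5040) .out)) (.nx 303 205 (.lg 0 false 13 83 83 9 0 21840) .out))) .out) .out)) (.na 425 4
  (.nx 424 6658044 (.nr 423 881745 (.nx 309 106 (.nx 308 105 (.nr 307 28 (.lg 0 true 1 37 37 5 0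
  2520) (.l1 .sk)) (.l1 .sk)) (.nr 409 110219 (.nx 376 832257 (.nx 327 13003 (.nr 322 55110 (.lg 0
  false 13 97 97 13 0 32760) (.nx 326 1292 (.lg 0 true 4 89 89 7 0 5040) .out)) (.nr 375 65537 (.nr
  343 364 (.lg 0 true 16 83 83 16 0 5040) (.nx 374 208065 (.nx 356 41287 (.lg 1 true 13 101 103 13
  27830 720720) (.nr 373 55110 (.nr 360 1557 (.lg 2 false 4 83 83 7 30010 5040) (.lg 2 false 13 97
  101 13 7373 720720)) .out)) .out)) .out)) (.nr 408 33 (.lg 0 true 32 79 79 7 0 5040) .out)) (.nx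
  422 205 (.lg 0 false 13 79 79 13 0 32760) .out))) .out) .out) .ne)) (.na 581 7 (.na 525 6 (.nx
  524 10568985 (.nr 523 1482912 (.nx 428 105 (.nr 427 43 (.lg 0 true 1 29 29 9 0 2520) (.l1 .sk))
  (.nx 429 106 (.l1 .sk) (.nr 509 65537 (.nx 480 1321124 (.nx 442 15464 (.lg 0 false 13 89 89 16 0
  32760) (.nx 466 262145 (.nr 453 824 (.lg 0 true 11 79 79 16 0 9240) (.lg 2 false 13 89 97 16
  23401 32760)) (.nr 479 217 (.lg 0 true 13 73 73 16 0 10920) .out))) (.nr 508 24 (.lg 0 true 28 71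
  71 11 0 1680) .out)) (.nx 522 205 (.lg 0 false 13 71 71 16 0 10920) .out)))) .out) .out) (.nx 580
  1321124 (.nr 579 220437 (.nx 527 105 (.nr 526 50 (.lg 0 true 1 31 31 7 0 5040) (.l1 .sk)) (.nx
  528 106 (.l1 .sk) (.nr 567 55110 (.nx 539 17585 (.lg 0 false 11 89 97 13 0 55440) (.nr 552 501
  (.lg 0 true 13 83 83 13 0 65520) (.nx 566 416129 (.nr 555 1905 (.lg 2 false 3 79 79 7 43607 5040)
  (.lg 2 false 11 89 97 13 17310 55440)) .out))) (.nx 578 1292 (.lg 0 false 11 83 83 13 0 55440)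
  .out)))) .out) .out)) (.na 671 8 (.nx 670 10568985 (.nr 669 262145 (.nx 583 105 (.nr 582 58 (.lg
  0 true 1 23 23 9 0 840) (.l1 .sk)) (.nx 584 106 (.l1 .sk) (.nx 624 660563 (.nr 618 65537 (.nx 595
  15169 (.lg 0 false 11 83 89 16 0 27720) (.nr 606 596 (.lg 0 true 11 73 73 16 0 9240) (.nx 617
  262145 (.lg 2 false 11 89 97 16 23856 360360) .out))) (.nx 623 408 (.lg 0 false 5 71 71 11 0 840)
  .out)) (.nr 668 109 (.lg 0 true 44 79 79 16 0 18480) .out)))) .out) .out) (.na 672 10 .ne (.nx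
  725 1321124 (.nr 724 623489 (.nx 698 14046 (.nx 674 105 (.nr 673 80 (.lg 0 true 1 29 29 9 0 5040)
  (.l1 .sk)) (.nx 675 106 (.l1 .sk) (.nr 686 77937 (.lg 0 false 11 83 83 13 0 18480) (.nx 697 814
  (.lg 0 false 11 79 79 13 0 18480) .out)))) (.nr 723 65537 (.nr 711 374 (.lg 0 true 13 73 73 13 0
  21840) (.nx 722 165142 (.lg 2 false 11 89 89 13 25763 55440) .out)) .out)) .out) .out))))) (.na
  853 16 (.na 775 13 (.na 774 12 (.nx 773 1321124 (.nr 772 623489 (.nr 727 5 .s1 (.nx 767 330282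
  (.nx 730 106 (.nx 729 105 (.nr 728 87 (.lg 0 true 1 29 29 9 0 27720) (.l1 .sk)) (.l1 .sk)) (.nr
  762 77937 (.nx 734 6503 (.lg 0 true 4 89 89 16 0 55440) (.nr 761 65537 (.nr 738 766 (.lg 0 true 4
  79 79 16 0 18480) (.nx 760 165142 (.nr 750 32769 (.nr 742 13461 (.lg 2 true 4 73 73 16 11501
  18480) (.lg 0 true 8 97 97 16 0 55440)) (.nx 759 65537 (.nx 754 26009 (.lg 0 false 4 97 101 16 0
  720720) (.nr 758 46342 (.lg 0 true 4 97 97 16 0 55440) .out)) .out)) .out)) .out)) (.nx 766 814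
  (.lg 0 false 4 83 83 16 0 18480) .out))) (.nr 771 65 (.lg 0 true 4 71 71 16 0 18480) .out)))
  .out) .out) .ne) (.na 820 14 (.nx 819 1321124 (.nr 818 623489 (.nr 776 9 .s1 (.nx 812 330282 (.nx
  779 106 (.nx 778 105 (.nr 777 102 (.lg 0 false 1 31 31 9 0 720720) (.l1 .sk)) (.l1 .sk)) (.nx 788
  6503 (.nr 783 92683 (.lg 0 true 4 89 89 16 0 21840) (.nx 787 814 (.lg 0 false 4 83 83 16 0 21840)
  .out)) (.nr 811 65537 (.nr 792 374 (.lg 0 true 4 73 73 16 0 21840) (.nx 810 165142 (.nr 800 27556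
  (.lg 2 true 8 73 73 16 23450 21840) (.nx 809 104033 (.nr 804 46342 (.lg 0 true 4 101 103 16 0
  720720) (.nx 808 26009 (.lg 0 true 4 89 89 16 0 21840) .out)) .out)) .out)) .out))) (.nr 817 65
  (.lg 0 true 5 71 71 16 0 10920) .out))) .out) .out) (.nx 852 1321124 (.nr 851 623489 (.nr 821 10
  .s1 (.nx 824 106 (.nx 823 105 (.nr 822 116 (.l1 (.ls 19 37 790)) (.l1 .sk)) (.l1 .sk)) (.nx 825
  324 (.l1 (.ls 79 47 6698)) (.nr 850 220437 (.nr 847 92683 (.nx 829 14046 (.lg 0 true 4 89 89 13 0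
  5040) (.nr 846 65537 (.nr 840 374 (.lg 0 true 11 73 73 13 0 18480) (.nx 845 165142 (.lg 2 false 5
  89 89 13 25763 5040) .out)) .out)) (.nx 849 814 (.lg 0 true 2 73 73 11 0 5040) .out)) .out))))
  .out) .out))) (.na 855 19 (.na 854 18 .ne (.lg 0 false 1 0 0 7 0 24)) (.na 888 21 (.nx 887
  1321124 (.nr 886 1048577 (.nr 856 17 .s1 (.nx 859 106 (.nx 858 105 (.nr 857 153 (.lg 0 true 1 23
  23 11 0 840) (.l1 .sk)) (.l1 .sk)) (.nx 867 6503 (.nx 862 324 (.nx 860 205 (.l1 (.ls 83 31 1623))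
  (.nr 861 623489 (.l1 (.ls 83 37 3316)) .out)) (.nr 866 220437 (.lg 0 false 4 89 89 16 0 1680)
  .out)) (.nr 885 77937 (.nr 875 498 (.lg 0 true 8 79 79 16 0 1680) (.nx 884 165142 (.nr 879 32769
  (.lg 2 true 4 79 79 16 27869 1680) (.nx 883 26009 (.lg 0 false 4 89 97 16 0 5040) .out)) .out))
  .out)))) .out) .out) (.na 917 22 (.nx 916 1321124 (.nr 915 1048577 (.nr 889 19 .s1 (.nx 898 10323
  (.nx 893 324 (.nx 891 105 (.nr 890 160 (.l1 (.ls 17 29 527)) (.l1 .sk)) (.nx 892 106 (.l1 .sk)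
  (.l1 (.ls 73 43 4466)))) (.nr 897 220437 (.lg 0 true 4 83 83 16 0 5040) .out)) (.nr 914 55110
  (.nr 909 498 (.lg 0 true 11 71 71 17 0 27720) (.nx 913 165142 (.lg 2 true 4 83 83 16 29487 5040)
  .out)) .out))) .out) .out) (.nx 941 1321124 (.nr 940 1048577 (.nr 918 20 .s1 (.nx 920 105 (.nr
  919 167 (.lg 0 false 1 23 23 9 0 55440) (.l1 .sk)) (.nx 921 106 (.l1 .sk) (.nx 922 205 (.l1 (.ls
  83 41 1402)) (.nr 939 623489 (.nx 923 324 (.l1 (.ls 83 43 2864)) (.nr 938 220437 (.nr 936 131073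
  (.nx 927 16385 (.lg 0 false 4 97 97 17 0 55440) (.nr 935 46342 (.nr 932 498 (.lg 0 true 5 79 79
  19 0 18480) (.nx 934 165142 (.lg 2 true 2 89 89 13 17410 18480) .out)) .out)) (.nx 937 814 (.lg 0
  true 1 73 73 9 0 18480) .out)) .out)) .out))))) .out) .out)))))) (.na 1039 38 (.na 966 30 (.na
  944 26 (.na 943 25 .ne (.lg 0 false 1 0 0 7 0 24)) (.na 965 27 (.nx 964 1321124 (.nr 963 1048577
  (.nr 945 24 .s1 (.nx 949 205 (.nx 947 105 (.nr 946 196 (.lg 0 false 1 23 23 11 0 65520) (.l1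
  .sk)) (.nx 948 106 (.l1 .sk) (.l1 (.ls 83 41 1187)))) (.nr 962 185365 (.nx 953 16385 (.lg 0 false
  4 97 97 19 0 65520) (.nr 961 38969 (.nr 958 513 (.lg 0 true 5 79 79 19 0 21840) (.nx 960 82572
  (.lg 2 true 2 83 83 11 13147 21840) .out)) .out)) .out))) .out) .out) (.lg 0 false 1 0 0 7 0
  24))) (.na 1003 32 (.na 984 31 (.nx 983 1321124 (.nr 982 1048577 (.nr 967 29 .s1 (.nx 972 16385
  (.nx 968 205 (.l1 (.ls 79 43 1403)) (.nr 971 185365 (.lg 0 true 3 83 83 19 0 5040) .out)) (.nr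
  981 38969 (.nr 978 513 (.lg 0 true 6 71 71 23 0 5040) (.nx 980 82572 (.lg 2 true 2 79 79 19 13147
  5040) .out)) .out))) .out) .out) (.nx 1002 1321124 (.nr 1001 1048577 (.nr 985 30 .s1 (.nx 987 105
  (.nr 986 233 (.l1 (.ls 19 19 358)) (.l1 .sk)) (.nx 988 106 (.l1 .sk) (.nx 994 16385 (.nx 989 205
  (.l1 (.ls 79 23 996)) (.nr 993 185365 (.lg 0 false 4 89 89 16 0 1680) .out)) (.nr 1000 38969 (.nr
  998 513 (.lg 0 true 4 73 73 16 0 1680) (.nx 999 82572 (.lg 2 true 1 83 83 13 13147 840) .out))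
  .out))))) .out) .out)) (.na 1004 33 .ne (.na 1021 35 (.nx 1020 1321124 (.nr 1019 370729 (.nr 1005
  32 .s1 (.nx 1007 105 (.nr 1006 254 (.l1 (.ls 23 29 337)) (.l1 .sk)) (.nx 1008 106 (.l1 .sk) (.nx
  1012 13005 (.lg 0 false 4 97 97 17 0 55440) (.nr 1018 23172 (.nr 1016 254 (.lg 0 true 4 71 71 17
  0 55440) (.nx 1017 82572 (.lg 2 true 1 83 83 16 17068 27720) .out)) .out))))) .out) .out) (.nx
  1038 1321124 (.nr 1037 370729 (.nr 1022 34 .s1 (.nx 1025 106 (.nx 1024 105 (.nr 1023 276 (.lg 0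
  true 1 0 17 16 0 720720) (.l1 .sk)) (.l1 .sk)) (.nx 1029 13005 (.lg 0 true 4 83 83 16 0 1680)
  (.nr 1036 23172 (.nr 1033 276 (.lg 0 true 4 61 61 16 0 1680) (.nx 1035 82572 (.lg 2 true 2 71 71
  16 15707 1680) .out)) .out)))) .out) .out))))) (.na 1105 46 (.na 1072 42 (.na 1055 39 (.nx 1054
  1321124 (.nr 1053 370729 (.nr 1040 37 .s1 (.nx 1047 13005 (.nx 1042 105 (.nr 1041 284 (.l1 (.ls
  17 31 293)) (.l1 .sk)) (.nx 1043 106 (.l1 .sk) (.lg 0 false 4 89 89 17 0 1680))) (.nr 1052 23172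
  (.nr 1050 217 (.lg 0 true 3 71 71 13 0 5040) (.nx 1051 82572 (.lg 2 true 1 83 83 13 19978 1680)
  .out)) .out))) .out) .out) (.nx 1071 1321124 (.nr 1070 370729 (.nr 1056 38 .s1 (.nx 1059 106 (.nx
  1058 105 (.nr 1057 305 (.l1 (.ls 23 29 285)) (.l1 .sk)) (.l1 .sk)) (.nx 1063 13005 (.lg 0 false 4
  89 89 17 0 65520) (.nr 1069 23172 (.nr 1067 305 (.lg 0 true 4 71 71 17 0 65520) (.nx 1068 82572
  (.lg 2 true 1 79 79 16 14214 32760) .out)) .out)))) .out) .out)) (.na 1087 43 (.nx 1086 1321124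
  (.nr 1085 370729 (.nr 1073 41 .s1 (.nx 1076 106 (.nx 1075 105 (.nr 1074 313 (.lg 0 false 1 0 16
  19 0 55440) (.l1 .sk)) (.l1 .sk)) (.nx 1079 13005 (.lg 0 true 3 83 83 23 0 5040) (.nr 1084 23172
  (.nr 1081 217 (.lg 0 false 2 71 71 19 0 5040) (.nx 1083 82572 (.lg 2 true 2 73 73 19 19978 55440)
  .out)) .out)))) .out) .out) (.na 1104 45 (.nx 1103 1321124 (.nr 1102 370729 (.nr 1088 42 .s1 (.nx
  1095 13005 (.nx 1090 105 (.nr 1089 327 (.l1 (.ls 19 17 259)) (.l1 .sk)) (.nx 1091 106 (.l1 .sk)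
  (.lg 0 false 4 89 89 16 0 1680))) (.nr 1101 23172 (.nr 1099 327 (.lg 0 true 4 71 71 16 0 1680)
  (.nx 1100 82572 (.lg 2 true 1 79 79 16 13257 2520) .out)) .out))) .out) .out) (.lg 0 false 1 0 0
  16 0 24)))) (.na 1107 53 (.na 1106 50 .ne (.lg 0 false 1 0 0 16 0 24)) (.na 1124 54 (.nx 1123
  1321124 (.nr 1122 311745 (.nr 1108 53 .s1 (.nr 1113 956 (.nx 1109 890 (.l1 (.ls 31 41 14948))
  (.lg 0 true 4 73 73 16 0 1680)) (.nx 1115 106 (.nx 1114 105 (.l1 .sk) (.l1 .sk)) (.nx 1121 82572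
  (.nx 1119 20644 (.lg 0 true 4 83 83 16 0 1680) (.nr 1120 13779 (.lg 2 true 1 67 67 16 4535 840)
  .out)) .out)))) .out) .out) (.na 1125 57 (.lg 0 false 1 0 0 16 0 24) (.nx 1139 1321124 (.nr 1138
  311745 (.nr 1126 57 .s1 (.nx 1132 10323 (.nx 1128 105 (.nr 1127 451 (.l1 (.ls 17 17 196)) (.l1
  .sk)) (.nx 1129 106 (.l1 .sk) (.lg 0 false 3 83 83 17 0 2520))) (.nr 1137 23172 (.nr 1135 451
  (.lg 0 true 3 67 67 17 0 2520) (.nx 1136 82572 (.lg 2 true 1 73 73 16 12431 2520) .out)) .out)))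
  .out) .out))))))) (.na 1322 94 (.na 1229 77 (.na 1170 66 (.na 1155 64 (.na 1154 63 (.nx 1153
  1321124 (.nr 1152 311745 (.nr 1141 62 .s1 (.nx 1146 10323 (.nx 1143 105 (.nr 1142 458 (.l1 (.ls
  23 23 180)) (.l1 .sk)) (.nx 1144 106 (.l1 .sk) (.lg 0 true 2 83 83 17 0 1680))) (.nr 1151 23172
  (.nr 1149 458 (.lg 0 true 3 71 71 19 0 5040) (.nx 1150 82572 (.lg 2 true 1 73 73 13 12431 1680)
  .out)) .out))) .out) .out) (.lg 0 false 1 0 0 16 0 24)) (.na 1156 65 .ne (.nx 1169 1321124 (.nr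
  1168 524289 (.nr 1157 65 .s1 (.nx 1164 8193 (.nx 1159 105 (.nr 1158 480 (.l1 (.ls 19 19 172))
  (.l1 .sk)) (.nx 1160 106 (.l1 .sk) (.lg 0 false 4 79 79 19 0 21840))) (.nr 1167 8193 (.nr 1165
  513 (.lg 0 false 1 73 73 16 0 32760) (.nx 1166 82572 (.lg 2 false 1 61 61 16 8451 32760) .out))
  .out))) .out) .out))) (.na 1199 70 (.na 1183 67 (.nx 1182 1321124 (.nr 1181 524289 (.nr 1171 66
  .s1 (.nx 1177 8193 (.nx 1173 105 (.nr 1172 487 (.l1 (.ls 29 31 170)) (.l1 .sk)) (.nx 1174 106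
  (.l1 .sk) (.lg 0 false 3 83 83 29 0 55440))) (.nr 1180 8193 (.nr 1178 513 (.lg 0 false 1 79 79 23
  0 55440) (.nx 1179 82572 (.lg 2 false 1 67 67 23 8451 55440) .out)) .out))) .out) .out) (.nx 1198
  1321124 (.nr 1197 524289 (.nr 1184 67 .s1 (.nx 1187 106 (.nx 1186 105 (.nr 1185 509 (.l1 (.ls 19
  17 167)) (.l1 .sk)) (.l1 .sk)) (.nx 1191 8193 (.lg 0 false 4 83 83 16 0 1680) (.nr 1196 8193 (.nr
  1194 513 (.lg 0 true 3 71 71 16 0 2520) (.nx 1195 82572 (.lg 2 false 1 59 59 16 8451 840) .out))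
  .out)))) .out) .out)) (.na 1212 71 (.nx 1211 1321124 (.nr 1210 524289 (.nr 1200 70 .s1 (.nx 1205
  8193 (.nx 1202 105 (.nr 1201 516 (.lg 0 false 1 0 16 19 0 720720) (.l1 .sk)) (.nx 1203 106 (.l1
  .sk) (.lg 0 true 2 79 79 23 0 5040))) (.nr 1209 8193 (.nr 1207 513 (.lg 0 false 2 67 67 23 0
  5040) (.nx 1208 82572 (.lg 2 false 1 59 59 19 8451 1680) .out)) .out))) .out) .out) (.na 1228 75
  (.nx 1227 1321124 (.nr 1226 524289 (.nr 1213 71 .s1 (.nx 1215 105 (.nr 1214 545 (.l1 (.ls 19 17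
  158)) (.l1 .sk)) (.nx 1216 106 (.l1 .sk) (.nx 1220 8193 (.lg 0 false 4 83 83 16 0 1680) (.nr 1225
  8193 (.nr 1223 513 (.lg 0 true 3 61 61 16 0 2520) (.nx 1224 82572 (.lg 2 false 1 59 59 16 8451
  2520) .out)) .out))))) .out) .out) (.lg 0 false 1 0 0 16 0 24))))) (.na 1277 86 (.na 1255 82 (.na
  1243 78 (.nx 1242 1321124 (.nr 1241 524289 (.nr 1230 77 .s1 (.nx 1237 8193 (.nx 1232 105 (.nr
  1231 567 (.l1 (.ls 23 19 146)) (.l1 .sk)) (.nx 1233 106 (.l1 .sk) (.lg 0 false 4 79 79 19 0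
  18480))) (.nr 1240 8193 (.nr 1238 567 (.lg 0 false 1 73 73 17 0 27720) (.nx 1239 82572 (.lg 2
  true 1 59 59 17 7646 9240) .out)) .out))) .out) .out) (.nx 1254 1321124 (.nr 1253 524289 (.nr
  1244 78 .s1 (.nx 1246 105 (.nr 1245 596 (.l1 (.ls 29 31 144)) (.l1 .sk)) (.nx 1247 106 (.l1 .sk)
  (.nx 1249 8193 (.lg 0 true 2 83 83 29 0 65520) (.nr 1252 8193 (.nr 1250 513 (.lg 0 false 1 79 79
  23 0 65520) (.nx 1251 82572 (.lg 2 false 1 61 61 23 8451 65520) .out)) .out))))) .out) .out))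
  (.na 1266 83 (.nx 1265 1321124 (.nr 1264 524289 (.nr 1256 82 .s1 (.nx 1258 105 (.nr 1257 603 (.l1
  (.ls 19 23 137)) (.l1 .sk)) (.nx 1259 106 (.l1 .sk) (.nx 1260 8193 (.lg 0 true 1 89 89 13 0 1680)
  (.nr 1263 8193 (.nr 1261 513 (.lg 0 false 1 73 73 13 0 1680) (.nx 1262 82572 (.lg 2 false 1 61 61
  13 8451 1680) .out)) .out))))) .out) .out) (.nx 1276 1321124 (.nr 1275 524289 (.nr 1267 83 .s1
  (.nx 1271 8193 (.nx 1269 105 (.nr 1268 625 (.l1 (.ls 19 16 135)) (.l1 .sk)) (.nx 1270 106 (.l1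
  .sk) (.lg 0 true 1 89 89 16 0 2520))) (.nr 1274 8193 (.nr 1272 625 (.lg 0 false 1 71 71 16 0
  2520) (.nx 1273 82572 (.lg 2 true 1 53 53 16 6937 840) .out)) .out))) .out) .out))) (.na 1299 90
  (.na 1288 89 (.nx 1287 1321124 (.nr 1286 524289 (.nr 1278 86 .s1 (.nx 1281 106 (.nx 1280 105 (.nr
  1279 647 (.l1 (.ls 23 23 131)) (.l1 .sk)) (.l1 .sk)) (.nx 1282 8193 (.lg 0 true 1 89 89 13 0
  1680) (.nr 1285 8193 (.nr 1283 513 (.lg 0 false 1 73 73 13 0 1680) (.nx 1284 82572 (.lg 2 false 1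
  61 61 13 8451 1680) .out)) .out)))) .out) .out) (.nx 1298 1321124 (.nr 1297 524289 (.nr 1289 89
  .s1 (.nx 1293 8193 (.nx 1291 105 (.nr 1290 654 (.l1 (.ls 17 16 126)) (.l1 .sk)) (.nx 1292 106
  (.l1 .sk) (.lg 0 true 1 79 79 16 0 840))) (.nr 1296 8193 (.nr 1294 513 (.lg 0 false 1 67 67 16 0
  840) (.nx 1295 82572 (.lg 2 true 1 53 53 16 8451 840) .out)) .out))) .out) .out)) (.na 1300 91
  (.lg 0 false 1 0 0 16 0 24) (.na 1311 93 (.nx 1310 1321124 (.nr 1309 524289 (.nr 1301 91 .s1 (.nx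
  1304 106 (.nx 1303 105 (.nr 1302 676 (.l1 (.ls 23 19 124)) (.l1 .sk)) (.l1 .sk)) (.nx 1305 8193
  (.lg 0 true 1 83 83 17 0 10920) (.nr 1308 8193 (.nr 1306 513 (.lg 0 false 1 71 71 17 0 10920)
  (.nx 1307 82572 (.lg 2 true 1 59 59 17 8451 10920) .out)) .out)))) .out) .out) (.nx 1321 1321124
  (.nr 1320 524289 (.nr 1312 93 .s1 (.nx 1316 8193 (.nx 1314 105 (.nr 1313 683 (.l1 (.ls 19 19
  121)) (.l1 .sk)) (.nx 1315 106 (.l1 .sk) (.lg 0 true 1 89 89 16 0 2520))) (.nr 1319 8193 (.nr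
  1317 513 (.lg 0 false 1 73 73 16 0 2520) (.nx 1318 82572 (.lg 2 false 1 61 61 16 8451 2520)
  .out)) .out))) .out) .out)))))) (.na 1401 114 (.na 1356 99 (.na 1344 97 (.na 1333 95 (.nx 1332
  1321124 (.nr 1331 524289 (.nr 1323 94 .s1 (.nx 1327 8193 (.nx 1325 105 (.nr 1324 690 (.l1 (.ls 19
  19 120)) (.l1 .sk)) (.nx 1326 106 (.l1 .sk) (.lg 0 true 1 89 89 17 0 5040))) (.nr 1330 8193 (.nr
  1328 513 (.lg 0 false 1 73 73 17 0 5040) (.nx 1329 82572 (.lg 2 false 1 61 61 17 8451 5040)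
  .out)) .out))) .out) .out) (.nx 1343 1321124 (.nr 1342 524289 (.nr 1334 95 .s1 (.nx 1337 106 (.nx
  1336 105 (.nr 1335 705 (.l1 (.ls 17 17 119)) (.l1 .sk)) (.l1 .sk)) (.nx 1338 8193 (.lg 0 true 1
  83 83 16 0 2520) (.nr 1341 8193 (.nr 1339 513 (.lg 0 false 1 71 71 16 0 2520) (.nx 1340 82572
  (.lg 2 false 1 59 59 16 8451 2520) .out)) .out)))) .out) .out)) (.na 1355 98 (.nx 1354 1321124
  (.nr 1353 524289 (.nr 1345 97 .s1 (.nx 1347 105 (.nr 1346 712 (.l1 (.ls 19 16 116)) (.l1 .sk))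
  (.nx 1348 106 (.l1 .sk) (.nx 1349 8193 (.lg 0 true 1 79 79 16 0 840) (.nr 1352 8193 (.nr 1350 513
  (.lg 0 false 1 71 71 16 0 27720) (.nx 1351 82572 (.lg 2 false 1 53 53 16 8451 840) .out))
  .out))))) .out) .out) (.lg 0 false 1 0 0 16 0 24))) (.na 1368 106 (.na 1357 101 (.lg 0 false 1 0
  0 16 0 24) (.nx 1367 1321124 (.nr 1366 524289 (.nr 1358 101 .s1 (.nx 1361 106 (.nx 1360 105 (.nr
  1359 770 (.l1 (.ls 19 16 112)) (.l1 .sk)) (.l1 .sk)) (.nx 1362 8193 (.lg 0 true 1 79 79 16 0 840)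
  (.nr 1365 8193 (.nr 1363 513 (.lg 0 false 1 71 71 16 0 27720) (.nx 1364 82572 (.lg 2 true 1 53 53
  16 8451 840) .out)) .out)))) .out) .out)) (.na 1379 109 (.nx 1378 1321124 (.nr 1377 524289 (.nr
  1369 106 .s1 (.nx 1373 8193 (.nx 1371 105 (.nr 1370 792 (.l1 (.ls 19 19 107)) (.l1 .sk)) (.nx
  1372 106 (.l1 .sk) (.lg 0 true 1 89 89 19 0 5040))) (.nr 1376 8193 (.nr 1374 513 (.lg 2 false 1
  71 71 19 654331 5040) (.nx 1375 82572 (.lg 2 true 1 59 59 19 8451 1680) .out)) .out))) .out)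
  .out) (.na 1390 110 (.nx 1389 1321124 (.nr 1388 524289 (.nr 1380 109 .s1 (.nx 1384 8193 (.nx 1382
  105 (.nr 1381 799 (.l1 (.ls 17 16 104)) (.l1 .sk)) (.nx 1383 106 (.l1 .sk) (.lg 0 true 1 79 79 16
  0 2520))) (.nr 1387 8193 (.nr 1385 513 (.lg 2 false 1 61 61 16 636322 2520) (.nx 1386 82572 (.lg
  2 true 1 47 47 16 8451 840) .out)) .out))) .out) .out) (.nx 1400 1321124 (.nr 1399 524289 (.nr
  1391 110 .s1 (.nx 1393 105 (.nr 1392 828 (.l1 (.ls 23 29 103)) (.l1 .sk)) (.nx 1394 106 (.l1 .sk)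
  (.nx 1395 8193 (.lg 0 true 1 83 83 23 0 18480) (.nr 1398 8193 (.nr 1396 513 (.lg 2 false 1 67 67
  23 630537 18480) (.nx 1397 82572 (.lg 2 false 1 59 59 23 8451 18480) .out)) .out))))) .out)
  .out))))) (.na 1436 126 (.na 1413 121 (.na 1412 117 (.nx 1411 1321124 (.nr 1410 524289 (.nr 1402
  114 .s1 (.nx 1406 8193 (.nx 1404 105 (.nr 1403 850 (.l1 (.ls 17 31 99)) (.l1 .sk)) (.nx 1405 106
  (.l1 .sk) (.lg 0 true 1 89 89 29 0 5040))) (.nr 1409 8193 (.nr 1407 513 (.lg 2 false 1 67 67 29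
  608413 5040) (.nx 1408 82572 (.lg 2 false 1 59 59 29 8451 5040) .out)) .out))) .out) .out) (.lg 0
  false 1 0 0 16 0 24)) (.na 1424 123 (.nx 1423 1321124 (.nr 1422 524289 (.nr 1414 121 .s1 (.nx
  1416 105 (.nr 1415 894 (.l1 (.ls 19 17 94)) (.l1 .sk)) (.nx 1417 106 (.l1 .sk) (.nx 1418 8193
  (.lg 0 true 1 79 79 17 0 27720) (.nr 1421 8193 (.nr 1419 513 (.lg 2 false 1 61 61 17 573215
  27720) (.nx 1420 82572 (.lg 2 true 1 53 53 17 8451 27720) .out)) .out))))) .out) .out) (.na 1435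
  125 (.nx 1434 1321124 (.nr 1433 524289 (.nr 1425 123 .s1 (.nx 1428 106 (.nx 1427 105 (.nr 1426
  908 (.l1 (.ls 19 17 92)) (.l1 .sk)) (.l1 .sk)) (.nx 1429 8193 (.lg 0 true 1 83 83 17 0 2520) (.nr
  1432 8193 (.nr 1430 513 (.lg 2 false 1 67 67 17 563895 2520) (.nx 1431 82572 (.lg 2 true 1 59 59
  17 8451 2520) .out)) .out)))) .out) .out) (.lg 0 false 1 0 0 16 0 24)))) (.na 1448 128 (.na 1437
  127 (.lg 0 false 1 0 0 16 0 24) (.nx 1447 1321124 (.nr 1446 524289 (.nr 1438 127 .s1 (.nx 1442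
  8193 (.nx 1440 105 (.nr 1439 930 (.l1 (.ls 17 16 89)) (.l1 .sk)) (.nx 1441 106 (.l1 .sk) (.lg 0
  true 1 73 73 16 0 840))) (.nr 1445 8193 (.nr 1443 513 (.lg 2 false 1 59 59 16 546134 2520) (.nx
  1444 82572 (.lg 2 true 1 47 47 16 8451 2520) .out)) .out))) .out) .out)) (.na 1449 129 .ne (.na
  1457 130 (.nx 1456 660563 (.nr 1455 1048577 (.nr 1450 129 .s1 (.nx 1451 205 (.l1 (.ls 71 23 328))
  (.nr 1454 524289 (.nr 1452 8193 (.lg 0 false 1 83 83 17 0 2520) (.nx 1453 6503 (.lg 0 true 1 79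
  79 17 0 2520) .out)) .out))) .out) .out) (.nx 1464 660563 (.nr 1463 1048577 (.nr 1458 130 .s1
  (.nx 1459 205 (.l1 (.ls 73 37 326)) (.nr 1462 524289 (.nr 1460 8193 (.lg 0 false 1 83 83 29 0
  21840) (.nx 1461 6503 (.lg 0 true 1 83 83 29 0 720720) .out)) .out))) .out) .out)))))))) (.na
  1677 205 (.na 1567 166 (.na 1516 149 (.na 1483 139 (.na 1474 134 (.na 1466 133 (.lg 0 false 1 0 0
  16 0 24) (.nx 1473 660563 (.nr 1472 1048577 (.nr 1467 133 .s1 (.nx 1468 205 (.l1 (.ls 71 29 318))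
  (.nr 1471 524289 (.nr 1469 8193 (.lg 0 false 1 83 83 17 0 2520) (.nx 1470 6503 (.lg 0 true 1 79
  79 17 0 2520) .out)) .out))) .out) .out)) (.na 1482 135 (.nx 1481 660563 (.nr 1480 1048577 (.nr
  1475 134 .s1 (.nx 1478 6503 (.nx 1476 205 (.l1 (.ls 61 29 316)) (.nr 1477 524289 (.lg 0 true 1 83
  83 19 0 1680) .out)) (.nr 1479 8193 (.lg 0 false 1 83 83 19 0 1680) .out))) .out) .out) (.lg 0
  false 1 0 0 16 0 24))) (.na 1499 142 (.na 1491 141 (.nx 1490 660563 (.nr 1489 1048577 (.nr 1484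
  139 .s1 (.nx 1485 205 (.l1 (.ls 67 19 305)) (.nr 1488 524289 (.nr 1486 8193 (.lg 0 false 1 79 79
  16 0 2520) (.nx 1487 6503 (.lg 0 true 1 73 73 16 0 2520) .out)) .out))) .out) .out) (.nx 1498
  660563 (.nr 1497 1048577 (.nr 1492 141 .s1 (.nx 1493 205 (.l1 (.ls 73 23 301)) (.nr 1496 524289
  (.nr 1494 8193 (.lg 0 false 1 83 83 17 0 2520) (.nx 1495 6503 (.lg 0 true 1 83 83 17 0 27720)
  .out)) .out))) .out) .out)) (.na 1507 146 (.nx 1506 660563 (.nr 1505 1048577 (.nr 1500 142 .s1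
  (.nx 1501 205 (.l1 (.ls 67 29 298)) (.nr 1504 524289 (.nr 1502 8193 (.lg 0 false 1 83 83 19 0
  1680) (.nx 1503 6503 (.lg 0 true 1 79 79 19 0 1680) .out)) .out))) .out) .out) (.na 1515 147 (.nx
  1514 660563 (.nr 1513 1048577 (.nr 1508 146 .s1 (.nx 1509 205 (.l1 (.ls 71 29 290)) (.nr 1512
  524289 (.nr 1510 8193 (.lg 0 false 1 83 83 19 0 1680) (.nx 1511 6503 (.lg 0 true 1 79 79 19 0
  1680) .out)) .out))) .out) .out) (.lg 0 false 1 0 0 16 0 24))))) (.na 1534 157 (.na 1518 154 (.na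
  1517 150 (.lg 0 false 1 0 0 16 0 24) (.lg 0 false 1 0 0 16 0 24)) (.na 1526 155 (.nx 1525 660563
  (.nr 1524 1048577 (.nr 1519 154 .s1 (.nx 1520 205 (.l1 (.ls 71 31 275)) (.nr 1523 524289 (.nr
  1521 8193 (.lg 0 false 1 83 83 29 0 55440) (.nx 1522 6503 (.lg 0 true 1 79 79 29 0 55440) .out))
  .out))) .out) .out) (.nx 1533 660563 (.nr 1532 1048577 (.nr 1527 155 .s1 (.nx 1528 205 (.l1 (.ls
  71 19 274)) (.nr 1531 524289 (.nr 1529 8193 (.lg 0 false 1 79 79 17 0 840) (.nx 1530 6503 (.lg 0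
  true 1 73 73 17 0 840) .out)) .out))) .out) .out))) (.na 1550 162 (.na 1542 159 (.nx 1541 660563
  (.nr 1540 1048577 (.nr 1535 157 .s1 (.nx 1536 205 (.l1 (.ls 67 17 270)) (.nr 1539 524289 (.nr
  1537 8193 (.lg 0 false 1 73 73 16 0 840) (.nx 1538 6503 (.lg 0 true 1 73 73 16 0 2520) .out))
  .out))) .out) .out) (.nx 1549 660563 (.nr 1548 1048577 (.nr 1543 159 .s1 (.nx 1544 205 (.l1 (.ls
  71 23 267)) (.nr 1547 524289 (.nr 1545 8193 (.lg 0 false 1 79 79 17 0 2520) (.nx 1546 6503 (.lg 0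
  true 1 73 73 17 0 2520) .out)) .out))) .out) .out)) (.na 1551 163 (.lg 0 false 1 0 0 16 0 24)
  (.na 1559 165 (.nx 1558 660563 (.nr 1557 1048577 (.nr 1552 163 .s1 (.nx 1553 205 (.l1 (.ls 67 17
  260)) (.nr 1556 524289 (.nr 1554 8193 (.lg 0 false 1 79 79 16 0 27720) (.nx 1555 6503 (.lg 0 true
  1 73 73 16 0 840) .out)) .out))) .out) .out) (.nx 1566 660563 (.nr 1565 1048577 (.nr 1560 165 .s1
  (.nx 1561 205 (.l1 (.ls 71 29 257)) (.nr 1564 524289 (.nr 1562 8193 (.lg 0 false 1 79 79 23 0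
  27720) (.nx 1563 6503 (.lg 0 true 1 73 73 23 0 27720) .out)) .out))) .out) .out)))))) (.na 1618
  189 (.na 1585 178 (.na 1583 171 (.na 1575 167 (.nx 1574 660563 (.nr 1573 1048577 (.nr 1568 166
  .s1 (.nx 1569 205 (.l1 (.ls 67 29 256)) (.nr 1572 524289 (.nr 1570 8193 (.lg 0 false 1 83 83 19 0
  5040) (.nx 1571 6503 (.lg 0 true 1 73 73 19 0 5040) .out)) .out))) .out) .out) (.nx 1582 660563
  (.nr 1581 1048577 (.nr 1576 167 .s1 (.nx 1577 205 (.l1 (.ls 67 17 254)) (.nr 1580 524289 (.nr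
  1578 8193 (.lg 0 false 1 73 73 16 0 840) (.nx 1579 6503 (.lg 0 true 1 71 71 16 0 840) .out))
  .out))) .out) .out)) (.na 1584 173 (.lg 0 false 1 0 0 16 0 24) (.lg 0 false 1 0 0 16 0 24))) (.na
  1601 181 (.na 1593 179 (.nx 1592 660563 (.nr 1591 1048577 (.nr 1586 178 .s1 (.nx 1587 205 (.l1
  (.ls 71 29 239)) (.nr 1590 524289 (.nx 1588 6503 (.lg 0 true 1 73 73 19 0 1680) (.nr 1589 8193
  (.lg 0 false 1 79 79 19 0 55440) .out)) .out))) .out) .out) (.nx 1600 660563 (.nr 1599 1048577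
  (.nr 1594 179 .s1 (.nx 1595 205 (.l1 (.ls 67 17 237)) (.nr 1598 524289 (.nr 1596 8193 (.lg 0
  false 1 73 73 16 0 2520) (.nx 1597 6503 (.lg 0 true 1 71 71 16 0 840) .out)) .out))) .out) .out))
  (.na 1602 182 (.lg 0 false 1 0 0 16 0 24) (.na 1610 186 (.nx 1609 660563 (.nr 1608 1048577 (.nr
  1603 182 .s1 (.nx 1604 205 (.l1 (.ls 71 31 233)) (.nr 1607 524289 (.nr 1605 8193 (.lg 0 false 1
  79 79 29 0 65520) (.nx 1606 6503 (.lg 0 true 1 73 73 29 0 21840) .out)) .out))) .out) .out) (.nx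
  1617 660563 (.nr 1616 1048577 (.nr 1611 186 .s1 (.nx 1612 205 (.l1 (.ls 71 29 228)) (.nr 1615
  524289 (.nr 1613 8193 (.lg 0 false 1 83 83 29 0 5040) (.nx 1614 6503 (.lg 0 true 1 79 79 29 0
  5040) .out)) .out))) .out) .out))))) (.na 1644 195 (.na 1627 191 (.na 1619 190 (.lg 0 false 1 0 0
  16 0 24) (.nx 1626 660563 (.nr 1625 1048577 (.nr 1620 190 .s1 (.nx 1621 205 (.l1 (.ls 71 31 224))
  (.nr 1624 524289 (.nr 1622 8193 (.lg 0 false 1 79 79 29 0 1680) (.nx 1623 6503 (.lg 0 true 1 73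
  73 29 0 1680) .out)) .out))) .out) .out)) (.na 1635 193 (.nx 1634 660563 (.nr 1633 1048577 (.nr
  1628 191 .s1 (.nx 1629 205 (.l1 (.ls 61 17 223)) (.nr 1632 524289 (.nr 1630 8193 (.lg 0 false 1
  71 71 16 0 840) (.nx 1631 6503 (.lg 0 true 1 71 71 16 0 2520) .out)) .out))) .out) .out) (.na
  1636 194 (.lg 0 false 1 0 0 16 0 24) (.nx 1643 660563 (.nr 1642 1048577 (.nr 1637 194 .s1 (.nx
  1638 205 (.l1 (.ls 67 23 219)) (.nr 1641 524289 (.nr 1639 8193 (.lg 0 false 1 73 73 19 0 1680)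
  (.nx 1640 6503 (.lg 0 true 1 71 71 19 0 1680) .out)) .out))) .out) .out)))) (.na 1660 198 (.na
  1652 197 (.nx 1651 660563 (.nr 1650 1048577 (.nr 1645 195 .s1 (.nx 1646 205 (.l1 (.ls 71 29 218))
  (.nr 1649 524289 (.nr 1647 8193 (.lg 0 false 1 79 79 23 0 32760) (.nx 1648 6503 (.lg 0 true 1 73
  73 23 0 32760) .out)) .out))) .out) .out) (.nx 1659 660563 (.nr 1658 1048577 (.nr 1653 197 .s1
  (.nx 1654 205 (.l1 (.ls 67 17 216)) (.nr 1657 524289 (.nr 1655 8193 (.lg 0 false 1 73 73 16 0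
  2520) (.nx 1656 6503 (.lg 0 true 1 71 71 16 0 2520) .out)) .out))) .out) .out)) (.na 1661 199
  (.lg 0 false 1 0 0 16 0 24) (.na 1669 202 (.nx 1668 660563 (.nr 1667 1048577 (.nr 1662 199 .s1
  (.nx 1663 205 (.l1 (.ls 61 17 214)) (.nr 1666 524289 (.nr 1664 8193 (.lg 0 false 1 71 71 16 0
  840) (.nx 1665 6503 (.lg 0 true 1 67 67 16 0 840) .out)) .out))) .out) .out) (.nx 1676 660563
  (.nr 1675 1048577 (.nr 1670 202 .s1 (.nx 1671 205 (.l1 (.ls 67 23 211)) (.nr 1674 524289 (.nr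
  1672 8193 (.lg 0 false 1 73 73 23 0 1680) (.nx 1673 6503 (.lg 0 true 1 71 71 23 0 1680) .out))
  .out))) .out) .out))))))) (.na 1774 246 (.na 1730 226 (.na 1704 217 (.na 1695 211 (.na 1685 210
  (.nx 1684 660563 (.nr 1683 1048577 (.nr 1678 205 .s1 (.nx 1679 205 (.l1 (.ls 67 19 207)) (.nr
  1682 524289 (.nr 1680 8193 (.lg 0 false 1 73 73 17 0 840) (.nx 1681 6503 (.lg 0 true 1 73 73 17 0
  2520) .out)) .out))) .out) .out) (.nx 1694 660563 (.nr 1693 1048577 (.nr 1686 210 .s1 (.nx 1690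
  6503 (.nx 1687 205 (.l1 (.ls 61 37 203)) (.nr 1689 524289 (.lg 0 true 2 67 67 31 0 5040) .out))
  (.nr 1692 8193 (.lg 0 false 2 67 67 31 0 5040) .out))) .out) .out)) (.na 1696 213 (.lg 0 false 1
  0 0 16 0 24) (.nx 1703 660563 (.nr 1702 1048577 (.nr 1697 213 .s1 (.nx 1698 205 (.l1 (.ls 61 19
  200)) (.nr 1701 524289 (.nr 1699 8193 (.lg 0 false 1 79 79 19 0 2520) (.nx 1700 6503 (.lg 0 true
  1 73 73 19 0 2520) .out)) .out))) .out) .out))) (.na 1720 219 (.na 1712 218 (.nx 1711 660563 (.nr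
  1710 1048577 (.nr 1705 217 .s1 (.nx 1706 205 (.l1 (.ls 67 19 196)) (.nr 1709 524289 (.nr 1707
  8193 (.lg 0 false 1 73 73 17 0 2520) (.nx 1708 6503 (.lg 0 true 1 71 71 17 0 840) .out)) .out)))
  .out) .out) (.nx 1719 660563 (.nr 1718 1048577 (.nr 1713 218 .s1 (.nx 1714 205 (.l1 (.ls 67 23
  195)) (.nr 1717 524289 (.nr 1715 8193 (.lg 0 false 1 73 73 23 0 1680) (.nx 1716 6503 (.lg 0 true
  1 71 71 23 0 1680) .out)) .out))) .out) .out)) (.na 1728 223 (.nx 1727 660563 (.nr 1726 1048577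
  (.nr 1721 219 .s1 (.nx 1722 205 (.l1 (.ls 67 19 194)) (.nr 1725 524289 (.nr 1723 8193 (.lg 0
  false 1 79 79 19 0 2520) (.nx 1724 6503 (.lg 0 true 1 73 73 19 0 2520) .out)) .out))) .out) .out)
  (.na 1729 225 (.lg 0 false 1 0 0 16 0 24) (.lg 0 false 1 0 0 16 0 24))))) (.na 1755 234 (.na 1746
  229 (.na 1738 227 (.nx 1737 660563 (.nr 1736 1048577 (.nr 1731 226 .s1 (.nx 1732 205 (.l1 (.ls 67
  23 188)) (.nr 1735 524289 (.nr 1733 8193 (.lg 0 false 1 73 73 23 0 5040) (.nx 1734 6503 (.lg 0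
  true 1 71 71 23 0 5040) .out)) .out))) .out) .out) (.nx 1745 660563 (.nr 1744 1048577 (.nr 1739
  227 .s1 (.nx 1740 205 (.l1 (.ls 61 17 188)) (.nr 1743 524289 (.nr 1741 8193 (.lg 0 false 1 71 71
  17 0 840) (.nx 1742 6503 (.lg 0 true 1 67 67 17 0 840) .out)) .out))) .out) .out)) (.na 1747 231
  (.lg 0 false 1 0 0 16 0 24) (.nx 1754 660563 (.nr 1753 1048577 (.nr 1748 231 .s1 (.nx 1749 205
  (.l1 (.ls 67 29 184)) (.nr 1752 524289 (.nr 1750 8193 (.lg 0 false 1 73 73 29 0 27720) (.nx 1751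
  6503 (.lg 0 true 1 71 71 29 0 27720) .out)) .out))) .out) .out))) (.na 1764 242 (.na 1756 235
  (.lg 0 false 1 0 0 16 0 24) (.nx 1763 660563 (.nr 1762 1048577 (.nr 1757 235 .s1 (.nx 1758 205
  (.l1 (.ls 43 19 181)) (.nr 1761 524289 (.nr 1759 8193 (.lg 0 false 1 73 73 17 0 2520) (.nx 1760
  6503 (.lg 0 true 1 71 71 17 0 840) .out)) .out))) .out) .out)) (.na 1772 243 (.nx 1771 660563
  (.nr 1770 1048577 (.nr 1765 242 .s1 (.nx 1766 205 (.l1 (.ls 67 29 176)) (.nr 1769 524289 (.nr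
  1767 8193 (.lg 0 false 1 73 73 29 0 55440) (.nx 1768 6503 (.lg 0 true 1 71 71 29 0 18480) .out))
  .out))) .out) .out) (.na 1773 245 (.lg 0 false 1 0 0 16 0 24) (.lg 0 false 1 0 0 16 0 24))))))
  (.na 3047 1024 (.na 1792 254 (.na 1790 250 (.na 1782 249 (.nx 1781 660563 (.nr 1780 1048577 (.nr
  1775 246 .s1 (.nx 1776 205 (.l1 (.ls 71 31 173)) (.nr 1779 524289 (.nr 1777 8193 (.lg 0 false 1
  79 79 29 0 5040) (.nx 1778 6503 (.lg 0 true 1 73 73 29 0 5040) .out)) .out))) .out) .out) (.nx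
  1789 660563 (.nr 1788 1048577 (.nr 1783 249 .s1 (.nx 1784 205 (.l1 (.ls 61 19 171)) (.nr 1787
  524289 (.nr 1785 8193 (.lg 0 false 1 71 71 19 0 2520) (.nx 1786 6503 (.lg 0 true 1 67 67 19 0
  2520) .out)) .out))) .out) .out)) (.na 1791 251 (.lg 0 false 1 0 0 16 0 24) (.lg 0 false 1 0 0 16
  0 24))) (.na 1801 257 (.na 1800 256 (.nx 1799 660563 (.nr 1798 1048577 (.nr 1793 254 .s1 (.nx
  1794 205 (.l1 (.ls 67 23 168)) (.nr 1797 524289 (.nr 1795 8193 (.lg 0 false 1 71 71 23 0 1680)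
  (.nx 1796 6503 (.lg 0 true 1 71 71 23 0 5040) .out)) .out))) .out) .out) .ne) (.na 2315 512 (.nx
  2314 82572 (.nr 2313 1048577 (.nr 1802 257 .s1 (.nx 2057 647 (.la (.ls 71 29 1631)) (.nr 2312
  262145 (.la (.lg 0 true 1 73 73 23 0)) .out))) .out) .out) (.na 2745 725 (.nx 2744 82572 (.nr
  2743 1048577 (.nr 2316 512 .s1 (.nx 2529 647 (.la (.ls 71 29 820)) (.nr 2742 262145 (.la (.lg 0
  true 1 71 71 23 0)) .out))) .out) .out) (.nx 3046 3252 (.nr 3045 262145 (.nr 2746 725 .s1 (.la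
  (.ls 53 43 14589))) .out) .out))))) (.na 6441 8192 (.na 4183 2048 (.na 3475 1449 (.nx 3474 3252
  (.nr 3473 262145 (.nr 3048 1024 .s1 (.la (.ls 47 41 10330))) .out) .out) (.nx 4182 1627 (.nr 4181
  131073 (.nr 3476 1449 .s1 (.nx 3581 105 (.nr 3580 14875 (.lx (.lp 37 23 513)) (.l1 .sk)) (.nx
  3582 106 (.l1 .sk) (.la (.ls 43 31 1822))))) .out) .out)) (.na 5141 2897 (.nx 5140 1627 (.nr 5139
  131073 (.nr 4184 2048 .s1 (.nx 4289 105 (.nr 4288 21041 (.lx (.lp 37 29 725)) (.l1 .sk)) (.nx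
  4290 106 (.l1 .sk) (.la (.ls 43 31 1290))))) .out) .out) (.na 5791 4096 (.nx 5790 647 (.nr 5789
  65537 (.nr 5142 2897 .s1 (.nx 5304 163 (.lx (.lp 41 31 1025)) (.nr 5788 32769 (.lx (.lp 37 31
  1025)) .out))) .out) .out) (.nx 6440 647 (.nr 6439 65537 (.nr 5792 4096 .s1 (.nx 5954 163 (.lx
  (.lp 41 31 2049)) (.nr 6438 32769 (.lx (.lp 37 37 2049)) .out))) .out) .out)))) (.na 7740 32768
  (.na 7090 16384 (.nx 7089 647 (.nr 7088 65537 (.nr 6442 8192 .s1 (.lx (.lp 31 41 4097))) .out)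
  .out) (.nx 7739 647 (.nr 7738 131073 (.nr 7091 16384 .s1 (.nx 7253 163 (.lx (.lp 16 0 8193)) (.nr
  7737 65537 (.lx (.lp 29 43 8193)) .out))) .out) .out)) (.na 8066 65536 (.nx 8065 324 (.nr 8064
  131073 (.nr 7741 32768 .s1 (.lx (.lp 16 43 16385))) .out) .out) (.na 8392 131073 (.nx 8391 324
  (.nr 8390 262145 (.nr 8067 65536 .s1 (.lx (.lp 16 47 32769))) .out) .out) .out))))))))

theorem c16 :
    OkQ ckI L6 111 1 25 0 34359738368 1 1099511627776 ∧
    OkQ ckI L6 105 1 1099511627776 0 34359738368 1 1099511627776 := by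
  refine ⟨?_, ?_⟩
  · refine fin 888 1206 T16_0 ?_
    refine jn 6 (by decide +kernel) ?_
    refine jn 9 (by decide +kernel) ?_
    refine jn 13 (by decide +kernel) ?_
    refine jn 17 (by decide +kernel) ?_
    refine jn 20 (by decide +kernel) ?_
    refine jn 23 (by decide +kernel) ?_
    refine jn 26 (by decide +kernel) ?_
    refine jn 28 (by decide +kernel) ?_
    refine jn 31 (by decide +kernel) ?_
    refine jn 35 (by decide +kernel) ?_
    refine jn 39 (by decide +kernel) ?_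
    refine jn 42 (by decide +kernel) ?_
    refine jn 45 (by decide +kernel) ?_
    refine jn 60 (by decide +kernel) ?_
    refine jn 66 (by decide +kernel) ?_
    refine jn 72 (by decide +kernel) ?_
    refine jn 77 (by decide +kernel) ?_
    refine jn 83 (by decide +kernel) ?_
    refine jn 88 (by decide +kernel) ?_
    refine jn 94 (by decide +kernel) ?_
    refine jn 99 (by decide +kernel) ?_
    refine jn 105 (by decide +kernel) ?_
    refine jn 118 (by decide +kernel) ?_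
    refine jn 131 (by decide +kernel) ?_
    refine jn 144 (by decide +kernel) ?_
    refine jn 157 (by decide +kernel) ?_
    refine jn 173 (by decide +kernel) ?_
    refine jn 174 (by decide +kernel) ?_
    refine jn 200 (by decide +kernel) ?_
    refine jn 210 (by decide +kernel) ?_
    refine jn 212 (by decide +kernel) ?_
    refine jn 215 (by decide +kernel) ?_
    refine jn 217 (by decide +kernel) ?_
    refine jn 223 (by decide +kernel) ?_
    refine jn 231 (by decide +kernel) ?_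
    refine jn 240 (by decide +kernel) ?_
    refine jn 246 (by decide +kernel) ?_
    refine jn 259 (by decide +kernel) ?_
    refine jn 266 (by decide +kernel) ?_
    refine jn 277 (by decide +kernel) ?_
    refine jn 296 (by decide +kernel) ?_
    refine jn 329 (by decide +kernel) ?_
    refine jn 338 (by decide +kernel) ?_
    refine jn 343 (by decide +kernel) ?_
    refine jn 346 (by decide +kernel) ?_
    refine jn 348 (by decide +kernel) ?_
    refine jn 368 (by decide +kernel) ?_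
    refine jn 378 (by decide +kernel) ?_
    refine jn 387 (by decide +kernel) ?_
    refine jn 392 (by decide +kernel) ?_
    refine jn 414 (by decide +kernel) ?_
    refine jn 428 (by decide +kernel) ?_
    refine jn 466 (by decide +kernel) ?_
    refine jn 472 (by decide +kernel) ?_
    refine jn 473 (by decide +kernel) ?_
    refine jn 474 (by decide +kernel) ?_
    refine jn 475 (by decide +kernel) ?_
    refine jn 476 (by decide +kernel) ?_
    refine jn 477 (by decide +kernel) ?_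
    refine jn 478 (by decide +kernel) ?_
    refine jn 479 (by decide +kernel) ?_
    refine jn 480 (by decide +kernel) ?_
    refine jn 481 (by decide +kernel) ?_
    refine jn 482 (by decide +kernel) ?_
    refine jn 483 (by decide +kernel) ?_
    refine jn 501 (by decide +kernel) ?_
    refine jn 505 (by decide +kernel) ?_
    refine jn 506 (by decide +kernel) ?_
    refine jn 507 (by decide +kernel) ?_
    refine jn 509 (by decide +kernel) ?_
    refine jn 510 (by decide +kernel) ?_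
    refine jn 511 (by decide +kernel) ?_
    refine jn 513 (by decide +kernel) ?_
    refine jn 514 (by decide +kernel) ?_
    refine jn 519 (by decide +kernel) ?_
    refine jn 526 (by decide +kernel) ?_
    refine jn 533 (by decide +kernel) ?_
    refine jn 540 (by decide +kernel) ?_
    refine jn 548 (by decide +kernel) ?_
    refine jn 553 (by decide +kernel) ?_
    refine jn 564 (by decide +kernel) ?_
    refine jn 592 (by decide +kernel) ?_
    refine jn 599 (by decide +kernel) ?_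
    refine jn 600 (by decide +kernel) ?_
    refine jn 601 (by decide +kernel) ?_
    refine jn 602 (by decide +kernel) ?_
    refine jn 603 (by decide +kernel) ?_
    refine jn 605 (by decide +kernel) ?_
    refine jn 606 (by decide +kernel) ?_
    refine jn 608 (by decide +kernel) ?_
    refine jn 609 (by decide +kernel) ?_
    refine jn 610 (by decide +kernel) ?_
    refine jn 611 (by decide +kernel) ?_
    refine jn 612 (by decide +kernel) ?_
    refine jn 615 (by decide +kernel) ?_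
    refine jn 618 (by decide +kernel) ?_
    refine jn 621 (by decide +kernel) ?_
    refine jn 623 (by decide +kernel) ?_
    refine jn 631 (by decide +kernel) ?_
    refine jn 637 (by decide +kernel) ?_
    refine jn 643 (by decide +kernel) ?_
    refine jn 674 (by decide +kernel) ?_
    refine jn 686 (by decide +kernel) ?_
    refine jn 698 (by decide +kernel) ?_
    refine jn 703 (by decide +kernel) ?_
    refine jn 716 (by decide +kernel) ?_
    refine jn 729 (by decide +kernel) ?_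
    refine jn 747 (by decide +kernel) ?_
    refine jn 749 (by decide +kernel) ?_
    refine jn 751 (by decide +kernel) ?_
    refine jn 753 (by decide +kernel) ?_
    refine jn 755 (by decide +kernel) ?_
    refine jn 757 (by decide +kernel) ?_
    refine jn 758 (by decide +kernel) ?_
    refine jn 761 (by decide +kernel) ?_
    refine jn 765 (by decide +kernel) ?_
    refine jn 768 (by decide +kernel) ?_
    refine jn 769 (by decide +kernel) ?_
    refine jn 773 (by decide +kernel) ?_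
    refine jn 781 (by decide +kernel) ?_
    refine jn 809 (by decide +kernel) ?_
    refine jn 820 (by decide +kernel) ?_
    refine jn 821 (by decide +kernel) ?_
    refine jn 822 (by decide +kernel) ?_
    refine jn 823 (by decide +kernel) ?_
    refine jn 824 (by decide +kernel) ?_
    refine jn 825 (by decide +kernel) ?_
    refine jn 826 (by decide +kernel) ?_
    refine jn 827 (by decide +kernel) ?_
    refine jn 828 (by decide +kernel) ?_
    refine jn 829 (by decide +kernel) ?_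
    refine jn 830 (by decide +kernel) ?_
    refine jn 831 (by decide +kernel) ?_
    refine jn 832 (by decide +kernel) ?_
    refine jn 833 (by decide +kernel) ?_
    refine jn 834 (by decide +kernel) ?_
    refine jn 835 (by decide +kernel) ?_
    refine jn 836 (by decide +kernel) ?_
    refine jn 837 (by decide +kernel) ?_
    refine jn 838 (by decide +kernel) ?_
    refine jn 839 (by decide +kernel) ?_
    refine jn 840 (by decide +kernel) ?_
    refine jn 841 (by decide +kernel) ?_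
    refine jn 842 (by decide +kernel) ?_
    refine jn 845 (by decide +kernel) ?_
    refine jn 847 (by decide +kernel) ?_
    refine jn 848 (by decide +kernel) ?_
    refine jn 849 (by decide +kernel) ?_
    refine jn 851 (by decide +kernel) ?_
    refine jn 853 (by decide +kernel) ?_
    refine jn 859 (by decide +kernel) ?_
    refine jn 865 (by decide +kernel) ?_
    refine jn 868 (by decide +kernel) ?_
    refine jn 870 (by decide +kernel) ?_
    refine jn 871 (by decide +kernel) ?_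
    refine jn 874 (by decide +kernel) ?_
    refine jn 877 (by decide +kernel) ?_
    refine jn 893 (by decide +kernel) ?_
    refine jn 901 (by decide +kernel) ?_
    refine jn 903 (by decide +kernel) ?_
    refine jn 905 (by decide +kernel) ?_
    refine jn 907 (by decide +kernel) ?_
    refine jn 915 (by decide +kernel) ?_
    refine jn 920 (by decide +kernel) ?_
    refine jn 923 (by decide +kernel) ?_
    refine jn 930 (by decide +kernel) ?_
    refine jn 938 (by decide +kernel) ?_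
    refine jn 948 (by decide +kernel) ?_
    refine jn 950 (by decide +kernel) ?_
    refine jn 952 (by decide +kernel) ?_
    refine jn 953 (by decide +kernel) ?_
    refine jn 956 (by decide +kernel) ?_
    refine jn 958 (by decide +kernel) ?_
    refine jn 963 (by decide +kernel) ?_
    refine jn 976 (by decide +kernel) ?_
    refine jn 984 (by decide +kernel) ?_
    refine jn 988 (by decide +kernel) ?_
    refine jn 994 (by decide +kernel) ?_
    refine jn 996 (by decide +kernel) ?_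
    refine jn 1002 (by decide +kernel) ?_
    refine jn 1006 (by decide +kernel) ?_
    refine jn 1018 (by decide +kernel) ?_
    refine jn 1021 (by decide +kernel) ?_
    refine jn 1023 (by decide +kernel) ?_
    refine jn 1025 (by decide +kernel) ?_
    refine jn 1029 (by decide +kernel) ?_
    refine jn 1038 (by decide +kernel) ?_
    refine jn 1049 (by decide +kernel) ?_
    refine jn 1050 (by decide +kernel) ?_
    refine jn 1051 (by decide +kernel) ?_
    refine jn 1052 (by decide +kernel) ?_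
    refine jn 1053 (by decide +kernel) ?_
    refine jn 1054 (by decide +kernel) ?_
    refine jn 1055 (by decide +kernel) ?_
    refine jn 1056 (by decide +kernel) ?_
    refine jn 1057 (by decide +kernel) ?_
    refine jn 1059 (by decide +kernel) ?_
    refine jn 1060 (by decide +kernel) ?_
    refine jn 1061 (by decide +kernel) ?_
    refine jn 1063 (by decide +kernel) ?_
    refine jn 1065 (by decide +kernel) ?_
    refine jn 1068 (by decide +kernel) ?_
    refine jn 1070 (by decide +kernel) ?_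
    refine jn 1078 (by decide +kernel) ?_
    refine jn 1082 (by decide +kernel) ?_
    refine jn 1085 (by decide +kernel) ?_
    refine jn 1087 (by decide +kernel) ?_
    refine jn 1094 (by decide +kernel) ?_
    refine jn 1096 (by decide +kernel) ?_
    refine jn 1107 (by decide +kernel) ?_
    refine jn 1110 (by decide +kernel) ?_
    refine jn 1111 (by decide +kernel) ?_
    refine jn 1112 (by decide +kernel) ?_
    refine jn 1113 (by decide +kernel) ?_
    refine jn 1114 (by decide +kernel) ?_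
    refine jn 1115 (by decide +kernel) ?_
    refine jn 1116 (by decide +kernel) ?_
    refine jn 1117 (by decide +kernel) ?_
    refine jn 1118 (by decide +kernel) ?_
    refine jn 1120 (by decide +kernel) ?_
    refine jn 1121 (by decide +kernel) ?_
    refine jn 1122 (by decide +kernel) ?_
    refine jn 1131 (by decide +kernel) ?_
    refine jn 1133 (by decide +kernel) ?_
    refine jn 1142 (by decide +kernel) ?_
    refine jn 1146 (by decide +kernel) ?_
    refine jn 1149 (by decide +kernel) ?_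
    refine jn 1154 (by decide +kernel) ?_
    refine jn 1167 (by decide +kernel) ?_
    refine jn 1168 (by decide +kernel) ?_
    refine jn 1172 (by decide +kernel) ?_
    refine jn 1177 (by decide +kernel) ?_
    refine jn 1188 (by decide +kernel) ?_
    refine jn 1189 (by decide +kernel) ?_
    refine jn 1190 (by decide +kernel) ?_
    refine jn 1191 (by decide +kernel) ?_
    refine jn 1195 (by decide +kernel) ?_
    refine jn 1196 (by decide +kernel) ?_
    refine jn 1198 (by decide +kernel) ?_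
    refine jn 1200 (by decide +kernel) ?_
    refine jn 1202 (by decide +kernel) ?_
    exact je (by decide +kernel)
  · refine fin 840 8393 T16_1 ?_
    refine jn 6 (by decide +kernel) ?_
    refine jn 8 (by decide +kernel) ?_
    refine jn 10 (by decide +kernel) ?_
    refine jn 13 (by decide +kernel) ?_
    refine jn 17 (by decide +kernel) ?_
    refine jn 20 (by decide +kernel) ?_
    refine jn 22 (by decide +kernel) ?_
    refine jn 26 (by decide +kernel) ?_
    refine jn 29 (by decide +kernel) ?_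
    refine jn 31 (by decide +kernel) ?_
    refine jn 34 (by decide +kernel) ?_
    refine jn 38 (by decide +kernel) ?_
    refine jn 41 (by decide +kernel) ?_
    refine jn 43 (by decide +kernel) ?_
    refine jn 46 (by decide +kernel) ?_
    refine jn 63 (by decide +kernel) ?_
    refine jn 68 (by decide +kernel) ?_
    refine jn 72 (by decide +kernel) ?_
    refine jn 76 (by decide +kernel) ?_
    refine jn 80 (by decide +kernel) ?_
    refine jn 84 (by decide +kernel) ?_
    refine jn 88 (by decide +kernel) ?_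
    refine jn 92 (by decide +kernel) ?_
    refine jn 96 (by decide +kernel) ?_
    refine jn 111 (by decide +kernel) ?_
    refine jn 123 (by decide +kernel) ?_
    refine jn 140 (by decide +kernel) ?_
    refine jn 156 (by decide +kernel) ?_
    refine jn 185 (by decide +kernel) ?_
    refine jn 193 (by decide +kernel) ?_
    refine jn 195 (by decide +kernel) ?_
    refine jn 199 (by decide +kernel) ?_
    refine jn 201 (by decide +kernel) ?_
    refine jn 204 (by decide +kernel) ?_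
    refine jn 212 (by decide +kernel) ?_
    refine jn 220 (by decide +kernel) ?_
    refine jn 228 (by decide +kernel) ?_
    refine jn 230 (by decide +kernel) ?_
    refine jn 239 (by decide +kernel) ?_
    refine jn 252 (by decide +kernel) ?_
    refine jn 265 (by decide +kernel) ?_
    refine jn 285 (by decide +kernel) ?_
    refine jn 303 (by decide +kernel) ?_
    refine jn 313 (by decide +kernel) ?_
    refine jn 316 (by decide +kernel) ?_
    refine jn 319 (by decide +kernel) ?_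
    refine jn 322 (by decide +kernel) ?_
    refine jn 333 (by decide +kernel) ?_
    refine jn 341 (by decide +kernel) ?_
    refine jn 356 (by decide +kernel) ?_
    refine jn 373 (by decide +kernel) ?_
    refine jn 408 (by decide +kernel) ?_
    refine jn 429 (by decide +kernel) ?_
    refine jn 435 (by decide +kernel) ?_
    refine jn 441 (by decide +kernel) ?_
    refine jn 448 (by decide +kernel) ?_
    refine jn 453 (by decide +kernel) ?_
    refine jn 466 (by decide +kernel) ?_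
    refine jn 479 (by decide +kernel) ?_
    refine jn 508 (by decide +kernel) ?_
    refine jn 528 (by decide +kernel) ?_
    refine jn 534 (by decide +kernel) ?_
    refine jn 539 (by decide +kernel) ?_
    refine jn 552 (by decide +kernel) ?_
    refine jn 566 (by decide +kernel) ?_
    refine jn 584 (by decide +kernel) ?_
    refine jn 591 (by decide +kernel) ?_
    refine jn 595 (by decide +kernel) ?_
    refine jn 606 (by decide +kernel) ?_
    refine jn 623 (by decide +kernel) ?_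
    refine jn 668 (by decide +kernel) ?_
    refine jn 675 (by decide +kernel) ?_
    refine jn 686 (by decide +kernel) ?_
    refine jn 698 (by decide +kernel) ?_
    refine jn 711 (by decide +kernel) ?_
    refine jn 730 (by decide +kernel) ?_
    refine jn 731 (by decide +kernel) ?_
    refine jn 732 (by decide +kernel) ?_
    refine jn 733 (by decide +kernel) ?_
    refine jn 734 (by decide +kernel) ?_
    refine jn 735 (by decide +kernel) ?_
    refine jn 737 (by decide +kernel) ?_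
    refine jn 738 (by decide +kernel) ?_
    refine jn 739 (by decide +kernel) ?_
    refine jn 740 (by decide +kernel) ?_
    refine jn 741 (by decide +kernel) ?_
    refine jn 742 (by decide +kernel) ?_
    refine jn 743 (by decide +kernel) ?_
    refine jn 744 (by decide +kernel) ?_
    refine jn 745 (by decide +kernel) ?_
    refine jn 746 (by decide +kernel) ?_
    refine jn 747 (by decide +kernel) ?_
    refine jn 748 (by decide +kernel) ?_
    refine jn 749 (by decide +kernel) ?_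
    refine jn 750 (by decide +kernel) ?_
    refine jn 758 (by decide +kernel) ?_
    refine jn 771 (by decide +kernel) ?_
    refine jn 779 (by decide +kernel) ?_
    refine jn 780 (by decide +kernel) ?_
    refine jn 781 (by decide +kernel) ?_
    refine jn 782 (by decide +kernel) ?_
    refine jn 787 (by decide +kernel) ?_
    refine jn 790 (by decide +kernel) ?_
    refine jn 792 (by decide +kernel) ?_
    refine jn 793 (by decide +kernel) ?_
    refine jn 794 (by decide +kernel) ?_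
    refine jn 795 (by decide +kernel) ?_
    refine jn 796 (by decide +kernel) ?_
    refine jn 797 (by decide +kernel) ?_
    refine jn 798 (by decide +kernel) ?_
    refine jn 799 (by decide +kernel) ?_
    refine jn 800 (by decide +kernel) ?_
    refine jn 808 (by decide +kernel) ?_
    refine jn 817 (by decide +kernel) ?_
    refine jn 829 (by decide +kernel) ?_
    refine jn 845 (by decide +kernel) ?_
    refine jn 860 (by decide +kernel) ?_
    refine jn 862 (by decide +kernel) ?_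
    refine jn 864 (by decide +kernel) ?_
    refine jn 866 (by decide +kernel) ?_
    refine jn 872 (by decide +kernel) ?_
    refine jn 875 (by decide +kernel) ?_
    refine jn 876 (by decide +kernel) ?_
    refine jn 877 (by decide +kernel) ?_
    refine jn 878 (by decide +kernel) ?_
    refine jn 879 (by decide +kernel) ?_
    refine jn 897 (by decide +kernel) ?_
    refine jn 913 (by decide +kernel) ?_
    refine jn 923 (by decide +kernel) ?_
    refine jn 927 (by decide +kernel) ?_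
    refine jn 932 (by decide +kernel) ?_
    refine jn 942 (by decide +kernel) ?_
    refine jn 949 (by decide +kernel) ?_
    refine jn 953 (by decide +kernel) ?_
    refine jn 958 (by decide +kernel) ?_
    refine jn 971 (by decide +kernel) ?_
    refine jn 986 (by decide +kernel) ?_
    refine jn 993 (by decide +kernel) ?_
    refine jn 999 (by decide +kernel) ?_
    refine jn 1012 (by decide +kernel) ?_
    refine jn 1017 (by decide +kernel) ?_
    refine jn 1035 (by decide +kernel) ?_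
    refine jn 1047 (by decide +kernel) ?_
    refine jn 1051 (by decide +kernel) ?_
    refine jn 1063 (by decide +kernel) ?_
    refine jn 1068 (by decide +kernel) ?_
    refine jn 1083 (by decide +kernel) ?_
    refine jn 1095 (by decide +kernel) ?_
    refine jn 1100 (by decide +kernel) ?_
    refine jn 1113 (by decide +kernel) ?_
    refine jn 1115 (by decide +kernel) ?_
    refine jn 1116 (by decide +kernel) ?_
    refine jn 1117 (by decide +kernel) ?_
    refine jn 1118 (by decide +kernel) ?_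
    refine jn 1119 (by decide +kernel) ?_
    refine jn 1132 (by decide +kernel) ?_
    refine jn 1136 (by decide +kernel) ?_
    refine jn 1149 (by decide +kernel) ?_
    refine jn 1164 (by decide +kernel) ?_
    refine jn 1177 (by decide +kernel) ?_
    refine jn 1191 (by decide +kernel) ?_
    refine jn 1205 (by decide +kernel) ?_
    refine jn 1220 (by decide +kernel) ?_
    refine jn 1237 (by decide +kernel) ?_
    refine jn 1249 (by decide +kernel) ?_
    refine jn 1260 (by decide +kernel) ?_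
    refine jn 1271 (by decide +kernel) ?_
    refine jn 1283 (by decide +kernel) ?_
    refine jn 1294 (by decide +kernel) ?_
    refine jn 1306 (by decide +kernel) ?_
    refine jn 1317 (by decide +kernel) ?_
    refine jn 1328 (by decide +kernel) ?_
    refine jn 1340 (by decide +kernel) ?_
    refine jn 1351 (by decide +kernel) ?_
    refine jn 1364 (by decide +kernel) ?_
    refine jn 1375 (by decide +kernel) ?_
    refine jn 1386 (by decide +kernel) ?_
    refine jn 1397 (by decide +kernel) ?_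
    refine jn 1408 (by decide +kernel) ?_
    refine jn 1420 (by decide +kernel) ?_
    refine jn 1431 (by decide +kernel) ?_
    refine jn 1446 (by decide +kernel) ?_
    refine jn 1460 (by decide +kernel) ?_
    refine jn 1470 (by decide +kernel) ?_
    refine jn 1486 (by decide +kernel) ?_
    refine jn 1495 (by decide +kernel) ?_
    refine jn 1510 (by decide +kernel) ?_
    refine jn 1522 (by decide +kernel) ?_
    refine jn 1538 (by decide +kernel) ?_
    refine jn 1555 (by decide +kernel) ?_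
    refine jn 1571 (by decide +kernel) ?_
    refine jn 1589 (by decide +kernel) ?_
    refine jn 1606 (by decide +kernel) ?_
    refine jn 1623 (by decide +kernel) ?_
    refine jn 1640 (by decide +kernel) ?_
    refine jn 1656 (by decide +kernel) ?_
    refine jn 1673 (by decide +kernel) ?_
    refine jn 1689 (by decide +kernel) ?_
    refine jn 1707 (by decide +kernel) ?_
    refine jn 1723 (by decide +kernel) ?_
    refine jn 1739 (by decide +kernel) ?_
    refine jn 1751 (by decide +kernel) ?_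
    refine jn 1768 (by decide +kernel) ?_
    refine jn 1786 (by decide +kernel) ?_
    refine jn 1812 (by decide +kernel) ?_
    refine jn 1846 (by decide +kernel) ?_
    refine jn 1884 (by decide +kernel) ?_
    refine jn 1930 (by decide +kernel) ?_
    refine jn 1963 (by decide +kernel) ?_
    refine jn 2000 (by decide +kernel) ?_
    refine jn 2039 (by decide +kernel) ?_
    refine jn 2066 (by decide +kernel) ?_
    refine jn 2074 (by decide +kernel) ?_
    refine jn 2085 (by decide +kernel) ?_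
    refine jn 2086 (by decide +kernel) ?_
    refine jn 2087 (by decide +kernel) ?_
    refine jn 2110 (by decide +kernel) ?_
    refine jn 2117 (by decide +kernel) ?_
    refine jn 2127 (by decide +kernel) ?_
    refine jn 2138 (by decide +kernel) ?_
    refine jn 2141 (by decide +kernel) ?_
    refine jn 2158 (by decide +kernel) ?_
    refine jn 2165 (by decide +kernel) ?_
    refine jn 2182 (by decide +kernel) ?_
    refine jn 2190 (by decide +kernel) ?_
    refine jn 2198 (by decide +kernel) ?_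
    refine jn 2203 (by decide +kernel) ?_
    refine jn 2211 (by decide +kernel) ?_
    refine jn 2218 (by decide +kernel) ?_
    refine jn 2226 (by decide +kernel) ?_
    refine jn 2230 (by decide +kernel) ?_
    refine jn 2245 (by decide +kernel) ?_
    refine jn 2254 (by decide +kernel) ?_
    refine jn 2262 (by decide +kernel) ?_
    refine jn 2269 (by decide +kernel) ?_
    refine jn 2278 (by decide +kernel) ?_
    refine jn 2291 (by decide +kernel) ?_
    refine jn 2301 (by decide +kernel) ?_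
    refine jn 2309 (by decide +kernel) ?_
    refine jn 2342 (by decide +kernel) ?_
    refine jn 2386 (by decide +kernel) ?_
    refine jn 2438 (by decide +kernel) ?_
    refine jn 2495 (by decide +kernel) ?_
    refine jn 2534 (by decide +kernel) ?_
    refine jn 2550 (by decide +kernel) ?_
    refine jn 2555 (by decide +kernel) ?_
    refine jn 2562 (by decide +kernel) ?_
    refine jn 2574 (by decide +kernel) ?_
    refine jn 2587 (by decide +kernel) ?_
    refine jn 2594 (by decide +kernel) ?_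
    refine jn 2600 (by decide +kernel) ?_
    refine jn 2606 (by decide +kernel) ?_
    refine jn 2622 (by decide +kernel) ?_
    refine jn 2632 (by decide +kernel) ?_
    refine jn 2644 (by decide +kernel) ?_
    refine jn 2662 (by decide +kernel) ?_
    refine jn 2671 (by decide +kernel) ?_
    refine jn 2682 (by decide +kernel) ?_
    refine jn 2696 (by decide +kernel) ?_
    refine jn 2708 (by decide +kernel) ?_
    refine jn 2724 (by decide +kernel) ?_
    refine jn 2732 (by decide +kernel) ?_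
    refine jn 2739 (by decide +kernel) ?_
    refine jn 2762 (by decide +kernel) ?_
    refine jn 2800 (by decide +kernel) ?_
    refine jn 2827 (by decide +kernel) ?_
    refine jn 2863 (by decide +kernel) ?_
    refine jn 2892 (by decide +kernel) ?_
    refine jn 2923 (by decide +kernel) ?_
    refine jn 2951 (by decide +kernel) ?_
    refine jn 2976 (by decide +kernel) ?_
    refine jn 3006 (by decide +kernel) ?_
    refine jn 3040 (by decide +kernel) ?_
    refine jn 3083 (by decide +kernel) ?_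
    refine jn 3118 (by decide +kernel) ?_
    refine jn 3170 (by decide +kernel) ?_
    refine jn 3202 (by decide +kernel) ?_
    refine jn 3238 (by decide +kernel) ?_
    refine jn 3270 (by decide +kernel) ?_
    refine jn 3315 (by decide +kernel) ?_
    refine jn 3354 (by decide +kernel) ?_
    refine jn 3397 (by decide +kernel) ?_
    refine jn 3425 (by decide +kernel) ?_
    refine jn 3463 (by decide +kernel) ?_
    refine jn 3630 (by decide +kernel) ?_
    refine jn 3706 (by decide +kernel) ?_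
    refine jn 3776 (by decide +kernel) ?_
    refine jn 3843 (by decide +kernel) ?_
    refine jn 3900 (by decide +kernel) ?_
    refine jn 3970 (by decide +kernel) ?_
    refine jn 4035 (by decide +kernel) ?_
    refine jn 4103 (by decide +kernel) ?_
    refine jn 4174 (by decide +kernel) ?_
    refine jn 4332 (by decide +kernel) ?_
    refine jn 4400 (by decide +kernel) ?_
    refine jn 4461 (by decide +kernel) ?_
    refine jn 4548 (by decide +kernel) ?_
    refine jn 4615 (by decide +kernel) ?_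
    refine jn 4704 (by decide +kernel) ?_
    refine jn 4777 (by decide +kernel) ?_
    refine jn 4845 (by decide +kernel) ?_
    refine jn 4916 (by decide +kernel) ?_
    refine jn 4981 (by decide +kernel) ?_
    refine jn 5052 (by decide +kernel) ?_
    refine jn 5125 (by decide +kernel) ?_
    refine jn 5444 (by decide +kernel) ?_
    refine jn 5618 (by decide +kernel) ?_
    refine jn 5734 (by decide +kernel) ?_
    refine jn 5954 (by decide +kernel) ?_
    refine jn 6118 (by decide +kernel) ?_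
    refine jn 6231 (by decide +kernel) ?_
    refine jn 6322 (by decide +kernel) ?_
    refine jn 6394 (by decide +kernel) ?_
    refine jn 6557 (by decide +kernel) ?_
    refine jn 6798 (by decide +kernel) ?_
    refine jn 6938 (by decide +kernel) ?_
    refine jn 7060 (by decide +kernel) ?_
    refine jn 7399 (by decide +kernel) ?_
    refine jn 7571 (by decide +kernel) ?_
    refine jn 7711 (by decide +kernel) ?_
    refine jn 8067 (by decide +kernel) ?_
    exact je (by decide +kernel)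

end Pool.Agent.MP_2339ce_nt.NR
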