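import Pool.Agent.MP_2339ce_nt.Q2.NC.L6
import Pool.Agent.MP_2339ce_nt.Q2.CkI

/-! Block NR: runs. -/

set_option autoImplicit false
set_option maxRecDepth 100000

noncomputable section

namespace Pool.Agent.MP_2339ce_nt.NR

open Q2.Top

def T30_0 : Ph :=
  (.na 960 149 (.na 723 61 (.na 534 20 (.na 374 7 (.na 164 4 (.na 163 2 (.nx 162 1321124 (.nr 161
  311745 (.nx 119 330282 (.nx 50 8848 (.nx 2 76 (.nr 1 9 (.lg 0 true 1 37 37 5 0 456) (.l1 .sk))
  (.nx 3 77 (.l1 .sk) (.nr 36 46342 (.lg 0 false 33 97 101 13 0 526680) (.nx 49 205 (.lg 0 false 13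
  83 83 9 0 5928) .out)))) (.nr 118 38969 (.nr 83 432 (.lg 0 true 33 89 89 13 0 526680) (.nx 94
  16385 (.lg 1 false 11 103 107 9 12746 13693680) (.nr 117 27556 (.nr 103 1724 (.lg 2 true 9 97 97
  9 29053 47880) (.nx 116 165142 (.lg 2 false 13 97 101 9 4871 207480) .out)) .out))) .out)) (.nr
  160 109 (.nx 135 660563 (.lg 0 true 16 83 83 9 0 912) (.nr 159 13 (.lg 0 true 24 73 73 9 0 2736)
  .out)) .out)) .out) .out) .ne) (.na 290 5 (.nx 289 10568985 (.nr 288 1246976 (.nx 202 10321 (.nx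
  166 76 (.nr 165 30 (.lg 0 true 1 29 29 9 0 4560) (.l1 .sk)) (.nx 167 77 (.l1 .sk) (.nr 180 55110
  (.lg 0 false 13 89 89 13 0 59280) (.nx 201 1292 (.nr 187 155873 (.lg 0 false 7 83 89 11 0 31920)
  (.nx 200 205 (.lg 0 false 13 79 83 13 0 59280) .out)) .out)))) (.nr 287 65537 (.nx 233 330282
  (.nr 215 694 (.lg 0 true 13 83 83 13 0 59280) (.nx 222 20642 (.lg 1 false 7 89 97 11 18361 31920)
  (.nr 224 1352 (.lg 2 true 2 73 73 9 18085 912) (.lg 2 false 9 101 103 13 9284 1053360)))) (.nr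
  286 183 (.nr 272 30 (.lg 0 true 39 83 83 13 0 35568) (.nx 285 1321124 (.lg 0 true 13 79 83 13 0
  59280) .out)) .out)) .out)) .out) .out) (.na 373 6 (.nx 372 10568985 (.nr 371 1482912 (.nx 343
  1321124 (.nx 333 262145 (.nx 292 76 (.nr 291 37 (.lg 0 true 1 29 29 9 0 2280) (.l1 .sk)) (.nx 293
  77 (.l1 .sk) (.nr 323 65537 (.nx 302 8191 (.lg 0 false 9 89 89 16 0 6840) (.nr 311 824 (.lg 0
  true 9 83 83 16 0 6840) (.nx 314 15464 (.lg 1 false 3 101 103 11 23136 1053360) (.lg 2 false 9 97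
  103 16 12255 526680)))) (.nx 332 205 (.lg 0 false 9 79 79 16 0 6840) .out)))) (.nr 342 217 (.lg 0
  true 9 83 83 16 0 6840) .out)) (.nr 370 24 (.lg 0 true 27 79 79 16 0 6840) .out)) .out) .out)
  .ne))) (.na 473 12 (.na 436 8 (.nx 435 10568985 (.nr 434 262145 (.nx 377 77 (.nx 376 76 (.nr 375
  49 (.lg 0 true 1 29 29 9 0 47880) (.l1 .sk)) (.l1 .sk)) (.nx 386 10321 (.nr 382 55110 (.lg 0
  false 5 89 89 16 0 15960) (.nx 385 408 (.lg 0 false 3 79 79 11 0 9576) .out)) (.nr 433 65537 (.nr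
  422 306 (.nx 397 1321124 (.lg 0 true 11 79 79 16 0 35112) (.nr 421 47 (.lg 0 true 24 79 79 16 0
  19152) .out)) (.nx 432 262145 (.nr 424 1163 (.lg 2 false 2 79 79 11 32554 6384) (.nx 427 22295
  (.lg 1 false 3 97 97 11 18361 95760) (.lg 2 false 5 89 97 16 8566 15960))) .out)) .out))) .out)
  .out) (.na 437 11 .ne (.nx 472 1321124 (.nr 471 623489 (.nr 438 7 .s1 (.nx 442 157 (.nx 440 76
  (.nr 439 74 (.lg 0 true 1 23 23 9 0 75240) (.l1 .sk)) (.nx 441 77 (.l1 .sk) (.l1 (.ls 83 31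
  1704)))) (.nx 443 324 (.l1 (.ls 83 41 7305)) (.nr 470 220437 (.nx 454 9557 (.nr 450 77937 (.lg 0
  false 7 89 89 16 0 526680) (.nx 453 814 (.lg 0 false 3 73 73 9 0 15048) .out)) (.nr 469 65537
  (.nr 461 374 (.lg 0 true 7 79 79 16 0 35112) (.nx 468 165142 (.lg 2 false 7 89 97 16 19829
  175560) .out)) .out)) .out)))) .out) .out))) (.na 474 17 .ne (.na 503 19 (.nx 502 1321124 (.nr
  501 1048577 (.nr 475 15 .s1 (.nx 478 77 (.nx 477 76 (.nr 476 118 (.l1 (.ls 16 23 342)) (.l1 .sk))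
  (.l1 .sk)) (.nx 479 205 (.l1 (.ls 83 31 2126)) (.nr 500 623489 (.nx 480 324 (.l1 (.ls 79 37
  3706)) (.nr 499 220437 (.nx 485 10323 (.nr 483 131073 (.lg 0 false 3 89 89 16 0 1368) (.nx 484
  814 (.lg 0 true 1 73 73 11 0 456) .out)) (.nr 498 55110 (.nr 492 498 (.lg 0 true 7 73 73 16 0
  3192) (.nx 497 165142 (.lg 2 false 5 79 83 16 15440 2280) .out)) .out)) .out)) .out)))) .out)
  .out) (.nx 533 1321124 (.nr 532 1048577 (.nr 504 17 .s1 (.nx 507 77 (.nx 506 76 (.nr 505 124 (.l1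
  (.ls 16 17 306)) (.l1 .sk)) (.l1 .sk)) (.nx 516 10323 (.nx 508 324 (.l1 (.ls 73 41 5216)) (.nr
  515 220437 (.lg 0 false 7 79 79 16 0 15960) .out)) (.nr 531 55110 (.nr 525 498 (.lg 0 true 9 67
  67 16 0 1368) (.nx 530 165142 (.lg 2 false 5 73 73 13 15440 2280) .out)) .out)))) .out) .out)))))
  (.na 645 43 (.na 608 28 (.na 564 23 (.nx 563 1321124 (.nr 562 1048577 (.nr 535 19 .s1 (.nx 558
  165142 (.nx 537 76 (.nr 536 142 (.l1 (.ls 31 29 291)) (.l1 .sk)) (.nx 538 77 (.l1 .sk) (.nx 539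
  205 (.l1 (.ls 97 41 1807)) (.nr 557 623489 (.nx 540 324 (.l1 (.ls 89 43 3150)) (.nr 556 220437
  (.nr 543 1360 (.lg 0 true 3 79 79 19 0 13680) (.nr 546 10107 (.nx 544 5162 (.lg 0 true 1 79 79 13
  0 4560) (.lg 2 true 2 71 71 17 5698 4560)) (.nx 551 10323 (.nr 549 131073 (.lg 0 false 3 97 101
  19 0 95760) (.nx 550 814 (.lg 0 false 1 79 79 13 0 4560) .out)) (.nr 555 55110 (.nr 553 32769
  (.lg 2 true 2 79 79 17 9190 31920) (.nx 554 26009 (.lg 0 true 1 101 101 13 0 95760) .out))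
  .out)))) .out)) .out)))) (.nr 561 183 (.lg 0 true 3 79 79 19 0 13680) .out))) .out) .out) (.na
  585 25 (.nx 584 1321124 (.nr 583 1048577 (.nr 565 22 .s1 (.nx 567 76 (.nr 566 155 (.l1 (.ls 16 17
  254)) (.l1 .sk)) (.nx 568 77 (.l1 .sk) (.nx 569 205 (.l1 (.ls 79 31 1572)) (.nr 582 185365 (.nx
  572 10323 (.lg 0 false 3 89 89 16 0 1368) (.nr 581 55110 (.nr 577 513 (.lg 0 true 5 73 73 16 0
  2280) (.nx 580 82572 (.lg 1 true 3 89 89 16 15440 2736) .out)) .out)) .out))))) .out) .out) (.nx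
  607 1321124 (.nr 606 1048577 (.nr 586 24 .s1 (.nx 590 205 (.nx 588 76 (.nr 587 173 (.l1 (.ls 17
  19 234)) (.l1 .sk)) (.nx 589 77 (.l1 .sk) (.l1 (.ls 79 31 1446)))) (.nr 605 185365 (.nx 593 10323
  (.lg 0 false 3 83 83 16 0 6840) (.nr 604 55110 (.nr 600 513 (.lg 0 true 7 71 73 16 0 15960) (.nx
  603 82572 (.lg 1 true 3 83 83 16 15440 13680) .out)) .out)) .out))) .out) .out))) (.na 627 32
  (.nx 626 1321124 (.nr 625 1048577 (.nr 609 27 .s1 (.nx 612 77 (.nx 611 76 (.nr 610 198 (.l1 (.ls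
  29 29 209)) (.l1 .sk)) (.l1 .sk)) (.nx 613 205 (.l1 (.ls 89 41 1292)) (.nr 624 185365 (.nx 616
  10323 (.lg 0 false 3 89 97 19 0 19152) (.nr 623 55110 (.nr 619 513 (.lg 0 true 3 79 79 19 0
  19152) (.nx 622 82572 (.nx 620 16385 (.lg 1 false 1 79 79 13 15440 6384) (.nr 621 38969 (.lg 1
  false 1 97 97 13 6883 351120) .out)) .out)) .out)) .out)))) .out) .out) (.na 628 35 .ne (.nx 644
  1321124 (.nr 643 370729 (.nr 629 34 .s1 (.nx 632 77 (.nx 631 76 (.nr 630 266 (.l1 (.ls 29 19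
  168)) (.l1 .sk)) (.l1 .sk)) (.nx 635 6503 (.lg 0 false 3 89 89 17 0 47880) (.nr 642 77937 (.nx
  636 13005 (.lg 1 true 1 83 83 16 34649 31920) (.nr 641 23172 (.nr 639 266 (.lg 0 true 3 73 73 17
  0 47880) (.nx 640 82572 (.lg 2 true 1 79 79 16 11796 15960) .out)) .out)) .out)))) .out) .out))))
  (.na 678 47 (.na 662 44 (.nx 661 1321124 (.nr 660 370729 (.nr 646 43 .s1 (.nx 652 8193 (.nx 648
  76 (.nr 647 272 (.l1 (.ls 16 16 137)) (.l1 .sk)) (.nx 649 77 (.l1 .sk) (.lg 0 false 3 83 83 16 0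
  1368))) (.nr 659 55110 (.nr 655 217 (.lg 0 true 3 61 61 16 0 1368) (.nx 658 82572 (.lg 1 true 3
  83 83 16 19455 2736) .out)) .out))) .out) .out) (.na 677 46 (.nx 676 1321124 (.nr 675 370729 (.nr
  663 44 .s1 (.nx 669 8193 (.nx 665 76 (.nr 664 285 (.l1 (.ls 29 23 134)) (.l1 .sk)) (.nx 666 77
  (.l1 .sk) (.lg 0 false 3 97 97 23 0 1053360))) (.nr 674 55110 (.nr 672 217 (.lg 0 true 3 71 71 23
  0 30096) (.nx 673 82572 (.lg 1 false 1 97 97 19 19455 351120) .out)) .out))) .out) .out) .ne))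
  (.na 693 49 (.nx 692 1321124 (.nr 691 311745 (.nr 679 47 .s1 (.nx 685 10323 (.nx 681 76 (.nr 680
  303 (.l1 (.ls 16 16 125)) (.l1 .sk)) (.nx 682 77 (.l1 .sk) (.lg 0 false 3 83 83 16 0 1368))) (.nr
  690 23172 (.nr 688 303 (.lg 0 true 3 67 67 16 0 1368) (.nx 689 82572 (.lg 2 true 1 73 73 16 10356
  456) .out)) .out))) .out) .out) (.na 708 55 (.nx 707 1321124 (.nr 706 311745 (.nr 694 49 .s1 (.nx
  700 10323 (.nx 696 76 (.nr 695 341 (.l1 (.ls 16 17 120)) (.l1 .sk)) (.nx 697 77 (.l1 .sk) (.lg 0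
  false 3 83 83 16 0 9576))) (.nr 705 23172 (.nr 703 341 (.lg 0 true 3 67 67 16 0 9576) (.nx 704
  82572 (.lg 2 true 1 71 71 16 9202 3192) .out)) .out))) .out) .out) (.nx 722 1321124 (.nr 721
  311745 (.nr 709 55 .s1 (.nx 712 77 (.nx 711 76 (.nr 710 378 (.l1 (.ls 29 19 108)) (.l1 .sk)) (.l1
  .sk)) (.nx 715 10323 (.lg 0 false 3 89 89 19 0 526680) (.nr 720 23172 (.nr 718 378 (.lg 0 true 3
  73 73 19 0 75240) (.nx 719 82572 (.lg 2 true 1 73 73 17 8301 175560) .out)) .out)))) .out)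
  .out)))))) (.na 847 100 (.na 781 77 (.na 739 68 (.na 738 64 (.nx 737 1321124 (.nr 736 311745 (.nr
  724 61 .s1 (.nx 726 76 (.nr 725 396 (.l1 (.ls 16 16 97)) (.l1 .sk)) (.nx 727 77 (.l1 .sk) (.nx
  730 10323 (.lg 0 false 3 79 79 16 0 1368) (.nr 735 23172 (.nr 733 396 (.lg 0 true 3 67 67 16 0
  1368) (.nx 734 82572 (.lg 2 true 1 71 71 16 7924 456) .out)) .out))))) .out) .out) .ne) (.na 753
  73 (.nx 752 1321124 (.nr 751 524289 (.nr 740 68 .s1 (.nx 742 76 (.nr 741 452 (.l1 (.ls 16 23 87))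
  (.l1 .sk)) (.nx 743 77 (.l1 .sk) (.nx 746 8193 (.lg 0 false 3 89 89 29 0 2736) (.nr 750 8193 (.nr
  748 513 (.lg 0 true 2 73 73 23 0 912) (.nx 749 82572 (.lg 2 false 1 67 67 13 6117 912) .out))
  .out))))) .out) .out) (.na 768 76 (.nx 767 1321124 (.nr 766 524289 (.nr 754 73 .s1 (.nx 757 77
  (.nx 756 76 (.nr 755 470 (.l1 (.ls 16 16 82)) (.l1 .sk)) (.l1 .sk)) (.nx 760 8193 (.lg 0 false 3
  79 79 16 0 1368) (.nr 765 8193 (.nr 763 513 (.lg 0 true 3 61 61 16 0 1368) (.nx 764 82572 (.lg 2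
  true 1 53 53 16 6117 2280) .out)) .out)))) .out) .out) (.nx 780 1321124 (.nr 779 524289 (.nr 769
  76 .s1 (.nx 771 76 (.nr 770 477 (.l1 (.ls 16 17 78)) (.l1 .sk)) (.nx 772 77 (.l1 .sk) (.nx 775
  8193 (.lg 0 false 3 79 79 17 0 2736) (.nr 778 8193 (.nr 776 513 (.lg 0 false 1 73 73 13 0 31920)
  (.nx 777 82572 (.lg 2 true 1 53 53 13 6117 912) .out)) .out))))) .out) .out)))) (.na 822 91 (.na
  795 83 (.nx 794 1321124 (.nr 793 524289 (.nr 782 77 .s1 (.nx 788 8193 (.nx 784 76 (.nr 783 514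
  (.l1 (.ls 29 19 78)) (.l1 .sk)) (.nx 785 77 (.l1 .sk) (.lg 0 false 3 83 89 23 0 526680))) (.nr
  792 8193 (.nr 790 513 (.lg 0 true 2 73 73 19 0 70224) (.nx 791 82572 (.lg 2 false 1 61 61 17 6117
  35112) .out)) .out))) .out) .out) (.na 808 85 (.nx 807 1321124 (.nr 806 524289 (.nr 796 83 .s1
  (.nx 802 8193 (.nx 798 76 (.nr 797 526 (.l1 (.ls 16 16 72)) (.l1 .sk)) (.nx 799 77 (.l1 .sk) (.lg
  0 false 3 73 73 16 0 1368))) (.nr 805 8193 (.nr 803 513 (.lg 2 false 1 67 67 16 604852 456) (.nx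
  804 82572 (.lg 2 true 1 53 53 16 6117 456) .out)) .out))) .out) .out) (.nx 821 1321124 (.nr 820
  524289 (.nr 809 85 .s1 (.nx 812 77 (.nx 811 76 (.nr 810 563 (.l1 (.ls 16 16 70)) (.l1 .sk)) (.l1
  .sk)) (.nx 815 8193 (.lg 0 false 3 83 89 23 0 47880) (.nr 819 8193 (.nr 817 513 (.lg 0 true 2 73
  73 16 0 4560) (.nx 818 82572 (.lg 2 true 1 61 61 16 6117 15960) .out)) .out)))) .out) .out)))
  (.na 823 92 .ne (.na 836 95 (.nx 835 1321124 (.nr 834 524289 (.nr 824 92 .s1 (.nx 826 76 (.nr 825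
  588 (.l1 (.ls 17 19 65)) (.l1 .sk)) (.nx 827 77 (.l1 .sk) (.nx 829 8193 (.lg 0 false 2 89 89 19 0
  912) (.nr 833 8193 (.nr 831 513 (.lg 0 true 2 73 73 19 0 912) (.nx 832 82572 (.lg 2 false 1 61 61
  19 6117 912) .out)) .out))))) .out) .out) (.nx 846 1321124 (.nr 845 524289 (.nr 837 95 .s1 (.nx
  841 8193 (.nx 839 76 (.nr 838 619 (.l1 (.ls 16 16 63)) (.l1 .sk)) (.nx 840 77 (.l1 .sk) (.lg 0
  true 1 79 79 16 0 2280))) (.nr 844 8193 (.nr 842 513 (.lg 2 false 1 61 61 16 528450 2280) (.nx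
  843 82572 (.lg 2 false 1 47 47 16 6117 2280) .out)) .out))) .out) .out))))) (.na 917 128 (.na 884
  119 (.na 860 101 (.nx 859 1321124 (.nr 858 524289 (.nr 848 100 .s1 (.nx 853 8193 (.nx 850 76 (.nr
  849 625 (.l1 (.ls 23 23 60)) (.l1 .sk)) (.nx 851 77 (.l1 .sk) (.lg 0 false 2 79 83 29 0 4560)))
  (.nr 857 8193 (.nr 855 513 (.lg 0 true 2 67 67 29 0 4560) (.nx 856 82572 (.lg 2 false 1 59 59 23
  6117 4560) .out)) .out))) .out) .out) (.na 873 115 (.nx 872 1321124 (.nr 871 524289 (.nr 861 101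
  .s1 (.nx 867 8193 (.nx 863 76 (.nr 862 712 (.l1 (.ls 16 16 60)) (.l1 .sk)) (.nx 864 77 (.l1 .sk)
  (.lg 0 false 3 73 73 16 0 6840))) (.nr 870 8193 (.nr 868 513 (.lg 2 false 1 59 59 16 497057 456)
  (.nx 869 82572 (.lg 2 true 1 47 47 16 6117 2280) .out)) .out))) .out) .out) (.nx 883 1321124 (.nr
  882 524289 (.nr 874 115 .s1 (.nx 878 8193 (.nx 876 76 (.nr 875 736 (.l1 (.ls 17 16 53)) (.l1
  .sk)) (.nx 877 77 (.l1 .sk) (.lg 0 true 1 83 83 17 0 2280))) (.nr 881 8193 (.nr 879 513 (.lg 2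
  true 1 61 61 17 436546 2280) (.nx 880 82572 (.lg 2 false 1 59 59 17 6117 2280) .out)) .out)))
  .out) .out))) (.na 895 121 (.nx 894 1321124 (.nr 893 524289 (.nr 885 119 .s1 (.nx 888 77 (.nx 887
  76 (.nr 886 749 (.l1 (.ls 16 16 51)) (.l1 .sk)) (.l1 .sk)) (.nx 889 8193 (.lg 0 true 1 89 89 16 0
  47880) (.nr 892 8193 (.nr 890 513 (.lg 2 true 1 61 61 16 421872 3192) (.nx 891 82572 (.lg 2 false
  1 59 59 16 6117 3192) .out)) .out)))) .out) .out) (.na 906 125 (.nx 905 1321124 (.nr 904 524289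
  (.nr 896 121 .s1 (.nx 898 76 (.nr 897 774 (.l1 (.ls 16 16 50)) (.l1 .sk)) (.nx 899 77 (.l1 .sk)
  (.nx 900 8193 (.lg 0 true 1 79 79 17 0 5016) (.nr 903 8193 (.nr 901 513 (.lg 2 false 1 59 59 17
  414899 5016) (.nx 902 82572 (.lg 2 true 1 47 47 17 6117 5016) .out)) .out))))) .out) .out) (.nx
  916 1321124 (.nr 915 524289 (.nr 907 125 .s1 (.nx 911 8193 (.nx 909 76 (.nr 908 792 (.l1 (.ls 16
  16 49)) (.l1 .sk)) (.nx 910 77 (.l1 .sk) (.lg 0 true 1 79 79 16 0 15960))) (.nr 914 8193 (.nr 912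
  513 (.lg 2 false 1 59 59 16 401622 15960) (.nx 913 82572 (.lg 2 true 1 47 47 16 6117 15960)
  .out)) .out))) .out) .out)))) (.na 934 137 (.na 918 131 .ne (.na 926 133 (.nx 925 660563 (.nr 924
  1048577 (.nr 919 131 .s1 (.nx 920 205 (.l1 (.ls 67 19 323)) (.nr 923 524289 (.nr 921 8193 (.lg 0
  false 1 73 73 16 0 456) (.nx 922 6503 (.lg 0 true 1 73 73 16 0 15960) .out)) .out))) .out) .out)
  (.nx 933 660563 (.nr 932 1048577 (.nr 927 133 .s1 (.nx 928 205 (.l1 (.ls 67 29 318)) (.nr 931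
  524289 (.nr 929 8193 (.lg 0 false 1 79 79 17 0 3192) (.nx 930 6503 (.lg 0 true 1 73 73 17 0 3192)
  .out)) .out))) .out) .out))) (.na 942 139 (.nx 941 660563 (.nr 940 1048577 (.nr 935 137 .s1 (.nx
  936 205 (.l1 (.ls 67 19 309)) (.nr 939 524289 (.nr 937 8193 (.lg 0 false 1 79 79 16 0 456) (.nx
  938 6503 (.lg 0 true 1 73 73 16 0 456) .out)) .out))) .out) .out) (.na 950 140 (.nx 949 660563
  (.nr 948 1048577 (.nr 943 139 .s1 (.nx 944 205 (.l1 (.ls 67 19 305)) (.nr 947 524289 (.nr 945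
  8193 (.lg 0 false 1 73 73 16 0 456) (.nx 946 6503 (.lg 0 true 1 73 73 16 0 15960) .out)) .out)))
  .out) .out) (.nx 959 660563 (.nr 958 1048577 (.nr 951 140 .s1 (.nx 952 205 (.l1 (.ls 79 31 303))
  (.nr 957 524289 (.nx 953 6503 (.lg 0 false 1 83 83 31 0 31920) (.nr 956 8193 (.nr 954 1025 (.lg 0
  true 1 73 73 31 0 31920) (.nx 955 82572 (.lg 2 false 1 53 59 31 3673 31920) .out)) .out)) .out)))
  .out) .out))))))) (.na 1094 227 (.na 1019 187 (.na 995 167 (.na 969 157 (.na 968 151 (.nx 967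
  660563 (.nr 966 1048577 (.nr 961 149 .s1 (.nx 962 205 (.l1 (.ls 67 19 285)) (.nr 965 524289 (.nr
  963 8193 (.lg 0 false 1 73 73 16 0 456) (.nx 964 6503 (.lg 0 true 1 73 73 16 0 456) .out))
  .out))) .out) .out) (.lg 0 false 1 0 0 16 0 24)) (.na 977 161 (.nx 976 660563 (.nr 975 1048577
  (.nr 970 157 .s1 (.nx 971 205 (.l1 (.ls 61 17 270)) (.nr 974 524289 (.nr 972 8193 (.lg 0 false 1
  73 73 16 0 2280) (.nx 973 6503 (.lg 0 true 1 71 71 16 0 2280) .out)) .out))) .out) .out) (.na 987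
  163 (.nx 986 660563 (.nr 985 1048577 (.nr 978 161 .s1 (.nx 981 6503 (.nx 979 205 (.l1 (.ls 73 19
  264)) (.nr 980 524289 (.lg 0 false 1 79 79 17 0 3192) .out)) (.nr 984 8193 (.nr 982 1025 (.lg 0
  true 1 67 67 17 0 3192) (.nx 983 82572 (.lg 2 false 1 53 53 17 3673 15960) .out)) .out))) .out)
  .out) (.nx 994 660563 (.nr 993 1048577 (.nr 988 163 .s1 (.nx 989 205 (.l1 (.ls 67 17 260)) (.nr
  992 524289 (.nr 990 8193 (.lg 0 false 1 73 73 16 0 456) (.nx 991 6503 (.lg 0 true 1 71 71 16 0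
  456) .out)) .out))) .out) .out)))) (.na 1007 175 (.na 996 172 (.lg 0 false 1 0 0 16 0 24) (.na
  1006 173 (.nx 1005 660563 (.nr 1004 1048577 (.nr 997 172 .s1 (.nx 1000 6503 (.nx 998 205 (.l1
  (.ls 73 29 247)) (.nr 999 524289 (.lg 0 false 1 79 79 23 0 912) .out)) (.nr 1003 8193 (.nr 1001
  1025 (.lg 0 true 1 67 67 23 0 912) (.nx 1002 82572 (.lg 2 false 1 41 47 23 3673 912) .out))
  .out))) .out) .out) (.lg 0 false 1 0 0 16 0 24))) (.na 1017 179 (.nx 1016 660563 (.nr 1015
  1048577 (.nr 1008 175 .s1 (.nx 1011 6503 (.nx 1009 205 (.l1 (.ls 71 23 243)) (.nr 1010 524289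
  (.lg 0 false 1 73 73 19 0 15960) .out)) (.nr 1014 8193 (.nr 1012 1025 (.lg 0 true 1 61 61 19 0
  15960) (.nx 1013 82572 (.lg 2 false 1 47 47 19 3673 15960) .out)) .out))) .out) .out) (.na 1018
  181 (.lg 0 false 1 0 0 16 0 24) (.lg 0 false 1 0 0 16 0 24))))) (.na 1060 199 (.na 1043 193 (.na
  1027 188 (.nx 1026 660563 (.nr 1025 1048577 (.nr 1020 187 .s1 (.nx 1021 205 (.l1 (.ls 73 23 227))
  (.nr 1024 524289 (.nr 1022 8193 (.lg 0 true 1 79 79 23 0 5016) (.nx 1023 6503 (.lg 0 false 1 79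
  79 23 0 5016) .out)) .out))) .out) .out) (.na 1035 191 (.nx 1034 660563 (.nr 1033 1048577 (.nr
  1028 188 .s1 (.nx 1029 205 (.l1 (.ls 73 23 226)) (.nr 1032 524289 (.nr 1030 8193 (.lg 0 true 1 79
  79 23 0 912) (.nx 1031 6503 (.lg 0 false 1 79 79 23 0 912) .out)) .out))) .out) .out) (.nx 1042
  660563 (.nr 1041 1048577 (.nr 1036 191 .s1 (.nx 1037 205 (.l1 (.ls 73 17 223)) (.nr 1040 524289
  (.nr 1038 8193 (.lg 0 false 1 71 71 16 0 456) (.nx 1039 6503 (.lg 0 true 1 71 71 16 0 456) .out))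
  .out))) .out) .out))) (.na 1044 196 (.lg 0 false 1 0 0 16 0 24) (.na 1052 197 (.nx 1051 660563
  (.nr 1050 1048577 (.nr 1045 196 .s1 (.nx 1046 205 (.l1 (.ls 73 29 217)) (.nr 1049 524289 (.nr
  1047 8193 (.lg 0 false 1 83 83 29 0 95760) (.nx 1048 6503 (.lg 0 false 1 79 79 29 0 6384) .out))
  .out))) .out) .out) (.nx 1059 660563 (.nr 1058 1048577 (.nr 1053 197 .s1 (.nx 1054 205 (.l1 (.ls
  73 17 216)) (.nr 1057 524289 (.nr 1055 8193 (.lg 0 false 1 71 71 16 0 456) (.nx 1056 6503 (.lg 0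
  true 1 67 67 16 0 456) .out)) .out))) .out) .out)))) (.na 1077 215 (.na 1068 209 (.nx 1067 660563
  (.nr 1066 1048577 (.nr 1061 199 .s1 (.nx 1062 205 (.l1 (.ls 61 17 214)) (.nr 1065 524289 (.nr
  1063 8193 (.lg 0 false 1 71 71 16 0 2280) (.nx 1064 6503 (.lg 0 true 1 67 67 16 0 2280) .out))
  .out))) .out) .out) (.na 1076 211 (.nx 1075 660563 (.nr 1074 1048577 (.nr 1069 209 .s1 (.nx 1070
  205 (.l1 (.ls 79 17 204)) (.nr 1073 524289 (.nr 1071 8193 (.lg 0 false 1 73 73 17 0 5016) (.nx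
  1072 6503 (.lg 0 true 1 71 71 17 0 5016) .out)) .out))) .out) .out) (.lg 0 false 1 0 0 16 0 24)))
  (.na 1085 220 (.nx 1084 660563 (.nr 1083 1048577 (.nr 1078 215 .s1 (.nx 1079 205 (.l1 (.ls 73 19
  198)) (.nr 1082 524289 (.nr 1080 8193 (.lg 0 true 1 79 79 19 0 2280) (.nx 1081 6503 (.lg 0 false
  1 73 73 19 0 2280) .out)) .out))) .out) .out) (.na 1093 223 (.nx 1092 660563 (.nr 1091 1048577
  (.nr 1086 220 .s1 (.nx 1087 205 (.l1 (.ls 79 31 194)) (.nr 1090 524289 (.nr 1088 8193 (.lg 0 true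
  1 83 83 37 0 50160) (.nx 1089 6503 (.lg 0 false 1 83 83 37 0 50160) .out)) .out))) .out) .out)
  (.lg 0 false 1 0 0 16 0 24)))))) (.na 1675 512 (.na 1128 244 (.na 1111 235 (.na 1095 229 (.lg 0
  false 1 0 0 16 0 24) (.na 1103 233 (.nx 1102 660563 (.nr 1101 1048577 (.nr 1096 229 .s1 (.nx 1097
  205 (.l1 (.ls 79 17 186)) (.nr 1100 524289 (.nr 1098 8193 (.lg 0 false 1 71 71 17 0 456) (.nx
  1099 6503 (.lg 0 true 1 67 67 17 0 456) .out)) .out))) .out) .out) (.nx 1110 660563 (.nr 1109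
  1048577 (.nr 1104 233 .s1 (.nx 1105 205 (.l1 (.ls 79 17 183)) (.nr 1108 524289 (.nr 1106 8193
  (.lg 0 false 1 71 71 17 0 456) (.nx 1107 6503 (.lg 0 true 1 67 67 17 0 456) .out)) .out))) .out)
  .out))) (.na 1119 239 (.nx 1118 660563 (.nr 1117 1048577 (.nr 1112 235 .s1 (.nx 1113 205 (.l1
  (.ls 71 19 181)) (.nr 1116 524289 (.nr 1114 8193 (.lg 0 true 1 73 73 19 0 2280) (.nx 1115 6503
  (.lg 0 false 1 73 73 19 0 2280) .out)) .out))) .out) .out) (.na 1127 241 (.nx 1126 660563 (.nr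
  1125 1048577 (.nr 1120 239 .s1 (.nx 1121 205 (.l1 (.ls 73 17 178)) (.nr 1124 524289 (.nr 1122
  8193 (.lg 0 false 1 71 71 17 0 15960) (.nx 1123 6503 (.lg 0 true 1 67 67 17 0 456) .out)) .out)))
  .out) .out) (.lg 0 false 1 0 0 16 0 24)))) (.na 1152 253 (.na 1136 245 (.nx 1135 660563 (.nr 1134
  1048577 (.nr 1129 244 .s1 (.nx 1130 205 (.l1 (.ls 59 23 175)) (.nr 1133 524289 (.nr 1131 8193
  (.lg 0 true 1 79 79 23 0 912) (.nx 1132 6503 (.lg 0 false 1 73 73 23 0 912) .out)) .out))) .out)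
  .out) (.na 1144 251 (.nx 1143 660563 (.nr 1142 1048577 (.nr 1137 245 .s1 (.nx 1138 205 (.l1 (.ls
  71 23 174)) (.nr 1141 524289 (.nr 1139 8193 (.lg 0 true 1 73 73 23 0 15960) (.nx 1140 6503 (.lg 0
  false 1 71 71 23 0 15960) .out)) .out))) .out) .out) (.nx 1151 660563 (.nr 1150 1048577 (.nr 1145
  251 .s1 (.nx 1146 205 (.l1 (.ls 73 17 170)) (.nr 1149 524289 (.nr 1147 8193 (.lg 0 false 1 71 71
  17 0 15960) (.nx 1148 6503 (.lg 0 true 1 67 67 17 0 15960) .out)) .out))) .out) .out))) (.na 1160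
  256 (.nx 1159 660563 (.nr 1158 1048577 (.nr 1153 253 .s1 (.nx 1154 205 (.l1 (.ls 73 19 169)) (.nr
  1157 524289 (.nr 1155 8193 (.lg 0 true 1 79 79 19 0 5016) (.nx 1156 6503 (.lg 0 false 1 73 73 19
  0 5016) .out)) .out))) .out) .out) (.na 1161 257 .ne (.nx 1674 82572 (.nr 1673 1048577 (.nr 1162
  257 .s1 (.nx 1417 647 (.la (.ls 101 31 1631)) (.nr 1672 262145 (.la (.lg 0 false 1 79 79 23 0))
  .out))) .out) .out))))) (.na 5093 4096 (.na 2912 1449 (.na 2105 725 (.nx 2104 82572 (.nr 2103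
  1048577 (.nr 1676 512 .s1 (.nx 1889 647 (.la (.ls 83 29 820)) (.nr 2102 262145 (.la (.lg 0 false
  1 71 71 29 0)) .out))) .out) .out) (.na 2407 1024 (.nx 2406 3252 (.nr 2405 262145 (.nr 2106 725
  .s1 (.la (.ls 59 43 14589))) .out) .out) (.nx 2911 3252 (.nr 2910 262145 (.nr 2408 1024 .s1 (.nx
  2484 76 (.nr 2483 8962 (.lx (.lp 43 19 363)) (.l1 .sk)) (.nx 2485 77 (.l1 .sk) (.la (.ls 53 41
  10324))))) .out) .out))) (.na 3514 2048 (.nx 3513 1627 (.nr 3512 131073 (.nr 2913 1449 .s1 (.la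
  (.ls 61 31 1829))) .out) .out) (.na 4443 2897 (.nx 4442 1627 (.nr 4441 131073 (.nr 3515 2048 .s1
  (.nx 3591 76 (.nr 3590 17918 (.lx (.lp 16 23 725)) (.l1 .sk)) (.nx 3592 77 (.l1 .sk) (.la (.ls 59
  31 1292))))) .out) .out) (.nx 5092 647 (.nr 5091 65537 (.nr 4444 2897 .s1 (.nx 4606 163 (.lx (.lp
  16 0 1025)) (.nr 5090 32769 (.lx (.lp 43 31 1025)) .out))) .out) .out)))) (.na 7041 32768 (.na
  5743 8192 (.nx 5742 647 (.nr 5741 65537 (.nr 5094 4096 .s1 (.nx 5256 163 (.lx (.lp 16 29 2049))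
  (.nr 5740 32769 (.lx (.lp 43 37 2049)) .out))) .out) .out) (.na 6392 16384 (.nx 6391 647 (.nr
  6390 65537 (.nr 5744 8192 .s1 (.lx (.lp 43 41 4097))) .out) .out) (.nx 7040 647 (.nr 7039 131073
  (.nr 6393 16384 .s1 (.lx (.lp 43 43 8193))) .out) .out))) (.na 7367 65536 (.nx 7366 324 (.nr 7365
  131073 (.nr 7042 32768 .s1 (.lx (.lp 41 47 16385))) .out) .out) (.na 7693 131073 (.nx 7692 324
  (.nr 7691 262145 (.nr 7368 65536 .s1 (.lx (.lp 41 53 32769))) .out) .out) .out)))))))

def T30_1 : Ph :=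
  (.na 1087 141 (.na 826 58 (.na 659 23 (.na 517 10 (.na 468 4 (.na 186 2 (.nx 185 1321124 (.nr 184
  311745 (.nx 143 330282 (.nx 61 16385 (.nx 2 125 (.nr 1 12 (.lg 0 true 1 41 41 5 0 2520) (.l1
  .sk)) (.nx 3 126 (.l1 .sk) (.nr 47 46342 (.lg 0 false 44 97 101 16 0 55440) (.nx 60 205 (.lg 0
  false 13 79 79 9 0 4680) .out)))) (.nr 142 27556 (.nr 105 432 (.lg 0 true 44 83 89 16 0 55440)
  (.nr 116 1724 (.lg 2 true 11 89 97 9 47784 27720) (.nx 141 165142 (.nr 127 13779 (.lg 2 false 11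
  97 101 9 6630 55440) (.nx 140 82572 (.lg 2 false 13 101 103 9 13199 65520) .out)) .out))) .out))
  (.nr 183 109 (.nx 156 660563 (.lg 0 true 13 79 79 9 0 4680) (.nr 182 13 (.lg 0 true 26 73 73 9 0
  9360) .out)) .out)) .out) .out) (.na 330 3 (.nx 329 3329023 (.nr 328 623489 (.nx 188 125 (.nr 187
  21 (.lg 0 false 1 41 41 5 0 5040) (.l1 .sk)) (.nx 189 126 (.l1 .sk) (.nr 314 77937 (.nr 310 65537
  (.nx 222 20644 (.lg 0 false 33 97 101 13 0 55440) (.nr 309 46342 (.nx 290 1321124 (.nr 255 257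
  (.lg 0 true 33 83 83 13 0 7920) (.nx 289 165142 (.nx 266 41287 (.lg 1 true 11 101 103 9 17586
  55440) (.nr 288 32769 (.nr 277 2276 (.lg 2 true 11 89 89 9 40161 7920) (.lg 2 false 11 97 101 9
  6225 55440)) .out)) .out)) (.nr 308 9 (.lg 0 true 18 71 71 9 0 720) .out)) .out)) (.nx 313 1292
  (.lg 0 true 3 83 83 7 0 720) .out)) (.nx 327 205 (.lg 0 false 13 79 79 9 0 9360) .out)))) .out)
  .out) (.nx 467 6658044 (.nr 466 881745 (.nx 439 1321124 (.nx 332 125 (.nr 331 30 (.lg 0 true 1 31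
  31 5 0 360) (.l1 .sk)) (.nx 333 126 (.l1 .sk) (.nx 367 13003 (.nr 349 55110 (.lg 0 false 16 83 89
  16 0 720) (.nx 366 1292 (.nx 360 205 (.lg 0 false 11 73 79 16 0 3960) (.nx 361 406 .out (.nr 365
  110219 (.lg 0 false 4 83 89 7 0 720) .out))) .out)) (.nr 438 65537 (.nx 426 416129 (.nr 380 364
  (.lg 0 true 13 79 79 16 0 4680) (.nx 425 208065 (.nx 387 19111 (.lg 1 false 7 89 97 13 39453
  2520) (.nx 394 28090 (.lg 1 false 7 89 97 13 26844 2520) (.nr 398 1557 (.lg 2 true 4 83 83 7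
  35726 720) (.nr 402 3220 (.lg 2 true 4 79 79 7 8352 720) (.nx 409 41287 (.lg 1 false 7 89 97 13
  18263 2520) (.nr 424 55110 (.nx 416 52017 (.lg 1 true 7 83 89 13 10452 2520) (.nr 423 38969 (.lg
  2 false 7 89 97 13 5872 2520) .out)) .out)))))) .out)) (.nr 437 109 (.lg 0 true 11 79 79 16 0
  3960) .out)) .out)))) (.nr 465 13 (.lg 0 true 26 79 79 7 0 9360) .out)) .out) .out))) (.na 469 6
  .ne (.na 516 7 (.nx 515 1321124 (.nr 514 220437 (.nx 471 125 (.nr 470 55 (.lg 0 true 1 31 31 7 0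
  5040) (.l1 .sk)) (.nx 472 126 (.l1 .sk) (.nr 509 55110 (.nx 483 25399 (.lg 0 false 11 89 97 17 0
  55440) (.nr 494 501 (.lg 0 true 11 83 83 17 0 7920) (.nx 508 416129 (.nr 497 1905 (.lg 2 true 3
  83 83 13 51913 5040) (.lg 2 false 11 89 101 17 16991 55440)) .out))) (.nx 513 1292 (.lg 0 false 4
  89 89 13 0 5040) .out)))) .out) .out) .ne))) (.na 590 15 (.na 554 12 (.nx 553 1321124 (.nr 552
  623489 (.nx 521 324 (.nx 519 125 (.nr 518 95 (.lg 0 true 1 29 29 9 0 720) (.l1 .sk)) (.nx 520 126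
  (.l1 .sk) (.l1 (.ls 83 47 8913)))) (.nr 551 220437 (.nr 548 77937 (.nx 528 20644 (.lg 0 false 7
  89 89 13 0 5040) (.nr 547 55110 (.nr 539 374 (.lg 0 true 11 73 73 13 0 7920) (.nx 546 165142 (.lg
  2 false 7 89 89 13 27598 5040) .out)) .out)) (.nx 550 814 (.lg 0 true 2 73 73 11 0 720) .out))
  .out)) .out) .out) (.na 555 14 .ne (.nx 589 1321124 (.nr 588 623489 (.nr 556 9 .s1 (.nx 582
  330282 (.nx 558 125 (.nr 557 119 (.lg 0 true 1 23 23 11 0 5040) (.l1 .sk)) (.nx 559 126 (.l1 .sk)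
  (.nx 574 26009 (.nx 560 324 (.l1 (.ls 83 47 6367)) (.nr 573 220437 (.nr 571 92683 (.lg 0 false 11
  83 97 19 0 55440) (.nx 572 814 (.lg 0 true 1 83 83 11 0 5040) .out)) .out)) (.nr 581 46342 (.nr
  577 766 (.lg 0 true 3 73 73 13 0 5040) (.nx 580 165142 (.lg 2 false 3 89 89 13 13958 5040) .out))
  .out)))) (.nr 587 65 (.lg 0 true 5 67 67 13 0 5040) .out))) .out) .out))) (.na 627 16 (.nx 626
  1321124 (.nr 625 623489 (.nr 591 11 .s1 (.nx 593 125 (.nr 592 127 (.lg 0 false 1 23 23 16 0 2520)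
  (.l1 .sk)) (.nx 594 126 (.l1 .sk) (.nx 595 324 (.l1 (.ls 79 43 5943)) (.nr 624 220437 (.nr 622
  92683 (.nx 617 330282 (.nx 599 7813 (.lg 0 false 4 83 83 16 0 5040) (.nr 616 65537 (.nr 613 46342
  (.nr 603 374 (.lg 0 true 4 71 71 16 0 720) (.nx 612 165142 (.nr 607 27556 (.lg 2 false 4 79 79 16
  27681 5040) (.nx 611 104033 (.lg 0 true 4 89 97 16 0 5040) .out)) .out)) (.nx 615 26009 (.lg 0
  false 2 89 89 16 0 5040) .out)) .out)) (.nr 621 65 (.lg 0 true 4 61 61 16 0 720) .out)) (.nx 623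
  814 (.lg 0 true 1 79 79 16 0 2520) .out)) .out))))) .out) .out) (.na 628 18 .ne (.nx 658 1321124
  (.nr 657 1048577 (.nr 629 15 .s1 (.nx 635 324 (.nx 631 125 (.nr 630 182 (.lg 0 true 1 23 23 13 0
  720) (.l1 .sk)) (.nx 632 126 (.l1 .sk) (.nx 633 205 (.l1 (.ls 83 41 1455)) (.nr 634 623489 (.l1
  (.ls 79 43 3500)) .out)))) (.nr 656 220437 (.nr 654 131073 (.nx 642 16385 (.lg 0 false 7 83 89 19
  0 5040) (.nr 653 46342 (.nr 649 498 (.lg 0 true 7 73 73 19 0 5040) (.nx 652 165142 (.lg 2 false 3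
  83 89 13 22157 720) .out)) .out)) (.nx 655 814 (.lg 0 true 1 73 73 13 0 720) .out)) .out))) .out)
  .out))))) (.na 733 45 (.na 699 32 (.na 660 29 .ne (.na 680 30 (.nx 679 1321124 (.nr 678 1048577
  (.nr 661 27 .s1 (.nx 665 205 (.nx 663 125 (.nr 662 238 (.l1 (.ls 19 19 541)) (.l1 .sk)) (.nx 664
  126 (.l1 .sk) (.l1 (.ls 79 23 904)))) (.nr 677 185365 (.nx 669 16385 (.lg 0 false 4 97 97 16 0
  5040) (.nr 676 38969 (.nr 673 513 (.lg 0 true 4 73 73 16 0 720) (.nx 675 82572 (.lg 2 true 2 89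
  89 16 18641 5040) .out)) .out)) .out))) .out) .out) (.nx 698 1321124 (.nr 697 1048577 (.nr 681 28
  .s1 (.nx 684 126 (.nx 683 125 (.nr 682 254 (.l1 (.ls 23 37 523)) (.l1 .sk)) (.l1 .sk)) (.nx 685
  205 (.l1 (.ls 79 41 874)) (.nr 696 185365 (.nx 688 16385 (.lg 0 false 3 83 83 23 0 720) (.nr 695
  38969 (.nr 692 513 (.lg 0 true 4 71 71 23 0 720) (.nx 694 82572 (.lg 2 false 2 79 79 19 18641
  720) .out)) .out)) .out)))) .out) .out))) (.na 700 35 .ne (.na 717 42 (.nx 716 1321124 (.nr 715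
  370729 (.nr 701 34 .s1 (.nx 704 126 (.nx 703 125 (.nr 702 333 (.l1 (.ls 19 29 449)) (.l1 .sk))
  (.l1 .sk)) (.nx 708 13005 (.lg 0 false 4 83 83 17 0 5040) (.nr 714 23172 (.nr 712 333 (.lg 0 true
  4 67 67 17 0 5040) (.nx 713 82572 (.lg 2 true 1 73 73 16 15498 2520) .out)) .out)))) .out) .out)
  (.nx 732 1321124 (.nr 731 370729 (.nr 718 41 .s1 (.nx 720 125 (.nr 719 357 (.l1 (.ls 31 37 375))
  (.l1 .sk)) (.nx 721 126 (.l1 .sk) (.nx 728 82572 (.nx 726 20644 (.nr 723 77937 (.lg 0 false 2 89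
  89 29 0 5040) (.nx 725 6503 (.lg 0 false 2 89 89 29 0 5040) .out)) (.nr 727 13779 (.lg 0 false 1
  89 89 23 0 5040) .out)) (.nr 730 217 (.lg 0 true 2 71 71 29 0 5040) .out))))) .out) .out)))) (.na
  782 49 (.na 750 46 (.nx 749 1321124 (.nr 748 370729 (.nr 734 44 .s1 (.nx 736 125 (.nr 735 365
  (.l1 (.ls 17 29 350)) (.l1 .sk)) (.nx 737 126 (.l1 .sk) (.nx 741 13005 (.lg 0 false 4 79 79 19 0
  720) (.nr 747 23172 (.nr 745 365 (.lg 0 true 4 61 61 19 0 720) (.nx 746 82572 (.lg 2 true 1 71 71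
  16 14140 360) .out)) .out))))) .out) .out) (.na 765 47 (.nx 764 1321124 (.nr 763 311745 (.nr 751
  45 .s1 (.nx 754 126 (.nx 753 125 (.nr 752 373 (.l1 (.ls 19 31 342)) (.l1 .sk)) (.l1 .sk)) (.nx
  757 10323 (.lg 0 false 3 83 83 13 0 720) (.nr 762 23172 (.nr 760 373 (.lg 0 true 3 67 67 13 0
  720) (.nx 761 82572 (.lg 2 true 1 79 79 13 17633 720) .out)) .out)))) .out) .out) (.nx 781
  1321124 (.nr 780 311745 (.nr 766 46 .s1 (.nx 769 126 (.nx 768 125 (.nr 767 388 (.l1 (.ls 19 19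
  335)) (.l1 .sk)) (.l1 .sk)) (.nx 773 10323 (.lg 0 false 4 83 83 16 0 720) (.nr 779 23172 (.nr 777
  388 (.lg 0 true 4 71 71 16 0 720) (.nx 778 82572 (.lg 2 true 1 79 79 16 17633 360) .out))
  .out)))) .out) .out))) (.na 798 50 (.nx 797 1321124 (.nr 796 311745 (.nr 783 48 .s1 (.nx 786 126
  (.nx 785 125 (.nr 784 396 (.l1 (.ls 19 19 321)) (.l1 .sk)) (.l1 .sk)) (.nx 789 10323 (.lg 0 false
  3 79 79 16 0 2520) (.nr 795 23172 (.nr 793 396 (.lg 0 true 4 67 67 16 0 5040) (.nx 794 82572 (.lg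
  2 true 1 73 73 16 17633 2520) .out)) .out)))) .out) .out) (.na 811 54 (.nx 810 1321124 (.nr 809
  311745 (.nr 799 49 .s1 (.nx 806 82572 (.nx 801 125 (.nr 800 428 (.l1 (.ls 31 29 315)) (.l1 .sk))
  (.nx 802 126 (.l1 .sk) (.nx 804 10323 (.lg 0 false 2 89 89 23 0 5040) (.nr 805 23172 (.lg 0 true
  1 89 89 19 0 5040) .out)))) (.nr 808 217 (.lg 0 true 2 71 71 23 0 720) .out))) .out) .out) (.nx
  825 1321124 (.nr 824 311745 (.nr 812 53 .s1 (.nx 815 126 (.nx 814 125 (.nr 813 460 (.l1 (.ls 19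
  31 292)) (.l1 .sk)) (.l1 .sk)) (.nx 818 10323 (.lg 0 false 3 79 79 23 0 720) (.nr 823 23172 (.nr
  821 460 (.lg 0 true 3 67 67 23 0 720) (.nx 822 82572 (.lg 2 true 1 73 73 19 17633 720) .out))
  .out)))) .out) .out)))))) (.na 971 94 (.na 901 81 (.na 870 64 (.na 841 61 (.nx 840 1321124 (.nr
  839 311745 (.nr 827 57 .s1 (.nx 830 126 (.nx 829 125 (.nr 828 484 (.l1 (.ls 19 23 272)) (.l1
  .sk)) (.l1 .sk)) (.nx 833 10323 (.lg 0 false 3 83 83 19 0 720) (.nr 838 23172 (.nr 836 484 (.lg 0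
  true 3 67 67 19 0 720) (.nx 837 82572 (.lg 2 true 1 79 79 13 17633 720) .out)) .out)))) .out)
  .out) (.na 856 63 (.nx 855 1321124 (.nr 854 311745 (.nr 842 60 .s1 (.nx 845 126 (.nx 844 125 (.nr
  843 499 (.l1 (.ls 17 17 259)) (.l1 .sk)) (.l1 .sk)) (.nx 848 10323 (.lg 0 false 3 79 79 16 0 360)
  (.nr 853 23172 (.nr 851 499 (.lg 0 true 3 59 59 16 0 360) (.nx 852 82572 (.lg 2 true 1 71 71 16
  17633 360) .out)) .out)))) .out) .out) (.nx 869 1321124 (.nr 868 311745 (.nr 857 63 .s1 (.nx 859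
  125 (.nr 858 507 (.l1 (.ls 29 23 251)) (.l1 .sk)) (.nx 860 126 (.l1 .sk) (.nx 861 10323 (.lg 0
  true 1 83 83 17 0 2520) (.nr 867 23172 (.nx 864 82572 (.nr 862 13779 (.lg 0 false 1 79 79 17 0
  2520) (.nx 863 20644 (.lg 0 true 1 61 61 17 0 2520) .out)) (.nr 866 217 (.lg 0 true 2 67 67 19 0
  5040) .out)) .out))))) .out) .out))) (.na 871 67 .ne (.na 886 70 (.nx 885 1321124 (.nr 884 524289
  (.nr 872 67 .s1 (.nx 874 125 (.nr 873 555 (.l1 (.ls 17 17 236)) (.l1 .sk)) (.nx 875 126 (.l1 .sk)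
  (.nx 878 8193 (.lg 0 false 3 79 79 16 0 360) (.nr 883 8193 (.nr 881 555 (.lg 0 true 3 61 61 16 0
  360) (.nx 882 82572 (.lg 2 true 1 53 53 16 9299 360) .out)) .out))))) .out) .out) (.nx 900
  1321124 (.nr 899 524289 (.nr 887 70 .s1 (.nx 889 125 (.nr 888 642 (.l1 (.ls 23 31 226)) (.l1
  .sk)) (.nx 890 126 (.l1 .sk) (.nx 893 8193 (.lg 0 false 3 79 79 29 0 5040) (.nr 898 8193 (.nr 896
  513 (.lg 0 true 3 67 67 29 0 5040) (.nx 897 82572 (.lg 2 false 1 61 61 23 10060 5040) .out))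
  .out))))) .out) .out)))) (.na 946 86 (.na 916 82 (.nx 915 1321124 (.nr 914 524289 (.nr 902 81 .s1
  (.nx 905 126 (.nx 904 125 (.nr 903 650 (.l1 (.ls 19 19 195)) (.l1 .sk)) (.l1 .sk)) (.nx 908 8193
  (.lg 0 false 3 73 73 17 0 360) (.nr 913 8193 (.nr 911 650 (.lg 0 true 3 61 61 17 0 360) (.nx 912
  82572 (.lg 2 false 1 53 53 16 7940 360) .out)) .out)))) .out) .out) (.na 931 83 (.nx 930 1321124
  (.nr 929 524289 (.nr 917 82 .s1 (.nx 919 125 (.nr 918 658 (.l1 (.ls 19 23 193)) (.l1 .sk)) (.nx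
  920 126 (.l1 .sk) (.nx 923 8193 (.lg 0 false 3 79 79 19 0 720) (.nr 928 8193 (.nr 926 658 (.lg 0
  true 3 67 67 19 0 720) (.nx 927 82572 (.lg 2 false 1 59 59 13 7933 720) .out)) .out))))) .out)
  .out) (.nx 945 1321124 (.nr 944 524289 (.nr 932 83 .s1 (.nx 938 8193 (.nx 934 125 (.nr 933 682
  (.l1 (.ls 17 17 191)) (.l1 .sk)) (.nx 935 126 (.l1 .sk) (.lg 0 false 3 73 73 16 0 2520))) (.nr
  943 8193 (.nr 941 682 (.lg 0 true 3 61 61 16 0 360) (.nx 942 82572 (.lg 2 false 1 53 53 16 7933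
  2520) .out)) .out))) .out) .out))) (.na 959 90 (.nx 958 1321124 (.nr 957 524289 (.nr 947 86 .s1
  (.nx 949 125 (.nr 948 713 (.l1 (.ls 19 23 184)) (.l1 .sk)) (.nx 950 126 (.l1 .sk) (.nx 953 8193
  (.lg 0 false 3 79 79 19 0 720) (.nr 956 8193 (.nr 954 513 (.lg 0 false 1 73 73 13 0 5040) (.nx
  955 82572 (.lg 2 false 1 61 61 13 10060 720) .out)) .out))))) .out) .out) (.na 970 91 (.nx 969
  1321124 (.nr 968 524289 (.nr 960 90 .s1 (.nx 963 126 (.nx 962 125 (.nr 961 721 (.l1 (.ls 19 31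
  176)) (.l1 .sk)) (.l1 .sk)) (.nx 964 8193 (.lg 0 true 1 83 83 23 0 5040) (.nr 967 8193 (.nr 965
  513 (.lg 0 false 1 71 71 23 0 5040) (.nx 966 82572 (.lg 2 false 1 59 59 23 10060 5040) .out))
  .out)))) .out) .out) .ne)))) (.na 1037 126 (.na 1004 115 (.na 982 98 (.nx 981 1321124 (.nr 980
  524289 (.nr 972 94 .s1 (.nx 975 126 (.nx 974 125 (.nr 973 777 (.l1 (.ls 19 23 169)) (.l1 .sk))
  (.l1 .sk)) (.nx 976 8193 (.lg 0 true 1 83 83 17 0 720) (.nr 979 8193 (.nr 977 513 (.lg 0 false 1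
  71 71 17 0 720) (.nx 978 82572 (.lg 2 false 1 59 59 17 10060 720) .out)) .out)))) .out) .out)
  (.na 993 109 (.nx 992 1321124 (.nr 991 524289 (.nr 983 98 .s1 (.nx 986 126 (.nx 985 125 (.nr 984
  864 (.l1 (.ls 19 29 162)) (.l1 .sk)) (.l1 .sk)) (.nx 987 8193 (.lg 0 true 1 83 83 19 0 5040) (.nr
  990 8193 (.nr 988 513 (.lg 0 false 1 71 71 19 0 5040) (.nx 989 82572 (.lg 2 false 1 59 59 19
  10060 5040) .out)) .out)))) .out) .out) (.nx 1003 1321124 (.nr 1002 524289 (.nr 994 109 .s1 (.nx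
  996 125 (.nr 995 911 (.l1 (.ls 16 17 146)) (.l1 .sk)) (.nx 997 126 (.l1 .sk) (.nx 998 8193 (.lg 0
  true 1 73 73 16 0 360) (.nr 1001 8193 (.nr 999 513 (.lg 0 false 1 61 61 16 0 360) (.nx 1000 82572
  (.lg 2 false 1 47 47 16 10060 360) .out)) .out))))) .out) .out))) (.na 1015 122 (.nx 1014 1321124
  (.nr 1013 524289 (.nr 1005 115 .s1 (.nx 1008 126 (.nx 1007 125 (.nr 1006 967 (.l1 (.ls 16 17
  138)) (.l1 .sk)) (.l1 .sk)) (.nx 1009 8193 (.lg 0 true 1 79 79 16 0 360) (.nr 1012 8193 (.nr 1010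
  513 (.lg 0 false 1 67 67 16 0 360) (.nx 1011 82572 (.lg 2 false 1 53 53 16 10060 360) .out))
  .out)))) .out) .out) (.na 1026 125 (.nx 1025 1321124 (.nr 1024 524289 (.nr 1016 122 .s1 (.nx 1018
  125 (.nr 1017 991 (.l1 (.ls 19 23 131)) (.l1 .sk)) (.nx 1019 126 (.l1 .sk) (.nx 1020 8193 (.lg 0
  true 1 83 83 19 0 720) (.nr 1023 8193 (.nr 1021 513 (.lg 2 false 1 67 67 19 676806 720) (.nx 1022
  82572 (.lg 2 false 1 53 53 19 10060 720) .out)) .out))))) .out) .out) (.nx 1036 1321124 (.nr 1035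
  524289 (.nr 1027 125 .s1 (.nx 1033 82572 (.nx 1029 125 (.nr 1028 999 (.l1 (.ls 23 17 127)) (.l1
  .sk)) (.nx 1030 126 (.l1 .sk) (.nx 1031 8193 (.lg 0 false 1 79 79 17 0 360) (.nr 1032 8193 (.lg 0
  true 1 71 71 17 0 2520) .out)))) (.nr 1034 513 (.lg 0 true 1 61 61 17 0 360) .out))) .out)
  .out)))) (.na 1060 129 (.na 1048 127 (.nx 1047 1321124 (.nr 1046 524289 (.nr 1038 126 .s1 (.nx
  1042 8193 (.nx 1040 125 (.nr 1039 1006 (.l1 (.ls 29 31 127)) (.l1 .sk)) (.nx 1041 126 (.l1 .sk)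
  (.lg 0 true 1 83 83 31 0 5040))) (.nr 1045 8193 (.nr 1043 513 (.lg 0 true 1 67 67 31 0 5040) (.nx
  1044 82572 (.lg 2 true 1 59 59 31 10060 5040) .out)) .out))) .out) .out) (.na 1059 128 (.nx 1058
  1321124 (.nr 1057 524289 (.nr 1049 127 .s1 (.nx 1051 125 (.nr 1050 1014 (.l1 (.ls 17 16 126))
  (.l1 .sk)) (.nx 1052 126 (.l1 .sk) (.nx 1053 8193 (.lg 0 true 1 73 73 16 0 360) (.nr 1056 8193
  (.nr 1054 513 (.lg 2 false 1 61 61 16 650160 2520) (.nx 1055 82572 (.lg 2 false 1 47 47 16 10060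
  360) .out)) .out))))) .out) .out) .ne)) (.na 1071 134 (.na 1070 131 (.nx 1069 660563 (.nr 1068
  1048577 (.nr 1061 129 .s1 (.nx 1064 6503 (.nx 1062 205 (.l1 (.ls 73 23 328)) (.nr 1063 524289
  (.lg 0 false 1 79 79 19 0 360) .out)) (.nr 1067 8193 (.nx 1065 82572 (.lg 0 true 1 71 71 19 0
  360) (.nr 1066 1025 (.lg 0 true 1 67 67 19 0 360) .out)) .out))) .out) .out) (.lg 0 false 1 0 0
  16 0 24)) (.na 1079 138 (.nx 1078 660563 (.nr 1077 1048577 (.nr 1072 134 .s1 (.nx 1073 205 (.l1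
  (.ls 61 29 316)) (.nr 1076 524289 (.nr 1074 8193 (.lg 0 false 1 83 83 19 0 5040) (.nx 1075 6503
  (.lg 0 true 1 79 79 19 0 720) .out)) .out))) .out) .out) (.nx 1086 660563 (.nr 1085 1048577 (.nr
  1080 138 .s1 (.nx 1081 205 (.l1 (.ls 73 37 307)) (.nr 1084 524289 (.nr 1082 8193 (.lg 0 false 1
  83 83 31 0 720) (.nx 1083 6503 (.lg 0 false 1 79 79 31 0 720) .out)) .out))) .out) .out)))))))
  (.na 1241 218 (.na 1173 178 (.na 1132 162 (.na 1113 150 (.na 1097 145 (.nx 1096 660563 (.nr 1095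
  1048577 (.nr 1088 141 .s1 (.nx 1091 7813 (.nx 1089 205 (.l1 (.ls 73 23 301)) (.nr 1090 524289
  (.lg 0 false 1 79 79 19 0 360) .out)) (.nr 1094 8193 (.nr 1092 1025 (.lg 0 true 1 67 67 19 0 360)
  (.nx 1093 82572 (.lg 2 true 1 59 59 19 8318 2520) .out)) .out))) .out) .out) (.na 1105 147 (.nx
  1104 660563 (.nr 1103 1048577 (.nr 1098 145 .s1 (.nx 1099 205 (.l1 (.ls 71 19 292)) (.nr 1102
  524289 (.nr 1100 8193 (.lg 0 false 1 79 79 17 0 360) (.nx 1101 6503 (.lg 0 true 1 73 73 17 0 360)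
  .out)) .out))) .out) .out) (.nx 1112 660563 (.nr 1111 1048577 (.nr 1106 147 .s1 (.nx 1107 205
  (.l1 (.ls 71 29 288)) (.nr 1110 524289 (.nr 1108 8193 (.lg 0 false 1 79 79 23 0 2520) (.nx 1109
  6503 (.lg 0 false 1 73 73 23 0 2520) .out)) .out))) .out) .out))) (.na 1123 157 (.nx 1122 660563
  (.nr 1121 1048577 (.nr 1114 150 .s1 (.nx 1115 205 (.l1 (.ls 79 37 283)) (.nr 1120 524289 (.nx
  1116 6503 (.lg 0 false 1 79 83 37 0 720) (.nr 1119 8193 (.nx 1117 82572 (.lg 0 true 1 71 73 37 0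
  720) (.nr 1118 1025 (.lg 0 true 1 71 71 37 0 720) .out)) .out)) .out))) .out) .out) (.na 1124 161
  (.lg 0 false 1 0 0 16 0 24) (.nx 1131 660563 (.nr 1130 1048577 (.nr 1125 161 .s1 (.nx 1126 205
  (.l1 (.ls 73 19 264)) (.nr 1129 524289 (.nr 1127 8193 (.lg 0 false 1 83 83 17 0 2520) (.nx 1128
  6503 (.lg 0 false 1 79 79 17 0 2520) .out)) .out))) .out) .out)))) (.na 1156 173 (.na 1140 163
  (.nx 1139 660563 (.nr 1138 1048577 (.nr 1133 162 .s1 (.nx 1134 205 (.l1 (.ls 67 31 262)) (.nr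
  1137 524289 (.nr 1135 8193 (.lg 0 false 1 79 79 23 0 5040) (.nx 1136 6503 (.lg 0 true 1 73 73 23
  0 5040) .out)) .out))) .out) .out) (.na 1148 166 (.nx 1147 660563 (.nr 1146 1048577 (.nr 1141 163
  .s1 (.nx 1142 205 (.l1 (.ls 61 17 260)) (.nr 1145 524289 (.nr 1143 8193 (.lg 0 false 1 71 71 16 0
  360) (.nx 1144 6503 (.lg 0 true 1 71 71 16 0 2520) .out)) .out))) .out) .out) (.nx 1155 660563
  (.nr 1154 1048577 (.nr 1149 166 .s1 (.nx 1150 205 (.l1 (.ls 67 29 256)) (.nr 1153 524289 (.nr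
  1151 8193 (.lg 0 false 1 73 73 19 0 720) (.nx 1152 6503 (.lg 0 true 1 73 73 19 0 5040) .out))
  .out))) .out) .out))) (.na 1157 174 (.lg 0 false 1 0 0 16 0 24) (.na 1165 175 (.nx 1164 660563
  (.nr 1163 1048577 (.nr 1158 174 .s1 (.nx 1159 205 (.l1 (.ls 73 37 244)) (.nr 1162 524289 (.nr
  1160 8193 (.lg 0 false 1 83 83 23 0 5040) (.nx 1161 6503 (.lg 0 false 1 79 79 23 0 720) .out))
  .out))) .out) .out) (.nx 1172 660563 (.nr 1171 1048577 (.nr 1166 175 .s1 (.nx 1167 205 (.l1 (.ls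
  73 23 243)) (.nr 1170 524289 (.nr 1168 8193 (.lg 0 true 1 79 83 23 0 2520) (.nx 1169 6503 (.lg 0
  false 1 79 83 23 0 2520) .out)) .out))) .out) .out))))) (.na 1200 205 (.na 1190 191 (.na 1181 179
  (.nx 1180 660563 (.nr 1179 1048577 (.nr 1174 178 .s1 (.nx 1175 205 (.l1 (.ls 61 29 239)) (.nr
  1178 524289 (.nr 1176 8193 (.lg 0 false 1 73 73 19 0 720) (.nx 1177 6503 (.lg 0 true 1 71 71 19 0
  720) .out)) .out))) .out) .out) (.na 1182 189 (.lg 0 false 1 0 0 16 0 24) (.nx 1189 660563 (.nr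
  1188 1048577 (.nr 1183 189 .s1 (.nx 1184 205 (.l1 (.ls 67 23 225)) (.nr 1187 524289 (.nr 1185
  8193 (.lg 0 true 1 73 73 23 0 2520) (.nx 1186 6503 (.lg 0 false 1 71 71 23 0 2520) .out)) .out)))
  .out) .out))) (.na 1191 193 (.lg 0 false 1 0 0 16 0 24) (.na 1192 202 (.lg 0 false 1 0 0 16 0 24)
  (.nx 1199 660563 (.nr 1198 1048577 (.nr 1193 202 .s1 (.nx 1194 205 (.l1 (.ls 67 23 211)) (.nr
  1197 524289 (.nr 1195 8193 (.lg 0 false 1 73 73 23 0 5040) (.nx 1196 6503 (.lg 0 true 1 71 71 23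
  0 5040) .out)) .out))) .out) .out)))) (.na 1224 210 (.na 1208 206 (.nx 1207 660563 (.nr 1206
  1048577 (.nr 1201 205 .s1 (.nx 1202 205 (.l1 (.ls 67 19 207)) (.nr 1205 524289 (.nr 1203 8193
  (.lg 0 false 1 73 73 17 0 360) (.nx 1204 6503 (.lg 0 true 1 71 71 17 0 360) .out)) .out))) .out)
  .out) (.na 1216 207 (.nx 1215 660563 (.nr 1214 1048577 (.nr 1209 206 .s1 (.nx 1210 205 (.l1 (.ls
  61 23 207)) (.nr 1213 524289 (.nr 1211 8193 (.lg 0 false 1 73 73 23 0 720) (.nx 1212 6503 (.lg 0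
  true 1 71 71 23 0 720) .out)) .out))) .out) .out) (.nx 1223 660563 (.nr 1222 1048577 (.nr 1217
  207 .s1 (.nx 1218 205 (.l1 (.ls 71 19 206)) (.nr 1221 524289 (.nr 1219 8193 (.lg 0 true 1 73 73
  19 0 360) (.nx 1220 6503 (.lg 0 false 1 73 73 19 0 360) .out)) .out))) .out) .out))) (.na 1232
  211 (.nx 1231 660563 (.nr 1230 1048577 (.nr 1225 210 .s1 (.nx 1226 205 (.l1 (.ls 71 37 203)) (.nr
  1229 524289 (.nr 1227 8193 (.lg 0 true 1 73 73 37 0 5040) (.nx 1228 6503 (.lg 0 false 1 73 73 37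
  0 5040) .out)) .out))) .out) .out) (.na 1233 214 (.lg 0 false 1 0 0 16 0 24) (.nx 1240 660563
  (.nr 1239 1048577 (.nr 1234 214 .s1 (.nx 1235 205 (.l1 (.ls 61 23 199)) (.nr 1238 524289 (.nr
  1236 8193 (.lg 0 false 1 71 71 23 0 720) (.nx 1237 6503 (.lg 0 true 1 67 67 23 0 720) .out))
  .out))) .out) .out)))))) (.na 1323 257 (.na 1282 241 (.na 1265 227 (.na 1249 223 (.nx 1248 660563
  (.nr 1247 1048577 (.nr 1242 218 .s1 (.nx 1243 205 (.l1 (.ls 67 23 195)) (.nr 1246 524289 (.nr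
  1244 8193 (.lg 0 false 1 73 73 23 0 5040) (.nx 1245 6503 (.lg 0 true 1 71 71 23 0 5040) .out))
  .out))) .out) .out) (.na 1257 225 (.nx 1256 660563 (.nr 1255 1048577 (.nr 1250 223 .s1 (.nx 1251
  205 (.l1 (.ls 61 17 191)) (.nr 1254 524289 (.nr 1252 8193 (.lg 0 false 1 71 71 16 0 2520) (.nx
  1253 6503 (.lg 0 true 1 67 67 16 0 360) .out)) .out))) .out) .out) (.nx 1264 660563 (.nr 1263
  1048577 (.nr 1258 225 .s1 (.nx 1259 205 (.l1 (.ls 73 23 189)) (.nr 1262 524289 (.nr 1260 8193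
  (.lg 0 true 1 79 79 29 0 2520) (.nx 1261 6503 (.lg 0 false 1 73 79 29 0 2520) .out)) .out)))
  .out) .out))) (.na 1273 230 (.nx 1272 660563 (.nr 1271 1048577 (.nr 1266 227 .s1 (.nx 1269 6503
  (.nx 1267 205 (.l1 (.ls 59 17 188)) (.nr 1268 524289 (.lg 0 true 1 67 67 17 0 360) .out)) (.nr
  1270 8193 (.lg 0 false 1 67 67 17 0 360) .out))) .out) .out) (.na 1281 239 (.nx 1280 660563 (.nr
  1279 1048577 (.nr 1274 230 .s1 (.nx 1275 205 (.l1 (.ls 67 31 185)) (.nr 1278 524289 (.nr 1276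
  8193 (.lg 0 false 1 73 73 31 0 720) (.nx 1277 6503 (.lg 0 true 1 73 73 31 0 5040) .out)) .out)))
  .out) .out) (.lg 0 false 1 0 0 16 0 24)))) (.na 1306 250 (.na 1290 243 (.nx 1289 660563 (.nr 1288
  1048577 (.nr 1283 241 .s1 (.nx 1284 205 (.l1 (.ls 59 17 177)) (.nr 1287 524289 (.nr 1285 8193
  (.lg 0 false 1 67 67 17 0 360) (.nx 1286 6503 (.lg 0 true 1 67 67 17 0 360) .out)) .out))) .out)
  .out) (.na 1298 246 (.nx 1297 660563 (.nr 1296 1048577 (.nr 1291 243 .s1 (.nx 1292 205 (.l1 (.ls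
  59 19 175)) (.nr 1295 524289 (.nr 1293 8193 (.lg 0 false 1 67 67 19 0 360) (.nx 1294 6503 (.lg 0
  true 1 61 61 19 0 360) .out)) .out))) .out) .out) (.nx 1305 660563 (.nr 1304 1048577 (.nr 1299
  246 .s1 (.nx 1300 205 (.l1 (.ls 73 31 173)) (.nr 1303 524289 (.nr 1301 8193 (.lg 0 true 1 79 79
  31 0 720) (.nx 1302 6503 (.lg 0 false 1 73 73 31 0 720) .out)) .out))) .out) .out))) (.na 1314
  254 (.nx 1313 660563 (.nr 1312 1048577 (.nr 1307 250 .s1 (.nx 1308 205 (.l1 (.ls 71 29 171)) (.nr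
  1311 524289 (.nr 1309 8193 (.lg 0 true 1 73 73 29 0 720) (.nx 1310 6503 (.lg 0 false 1 73 73 29 0
  720) .out)) .out))) .out) .out) (.na 1322 256 (.nx 1321 660563 (.nr 1320 1048577 (.nr 1315 254
  .s1 (.nx 1318 6503 (.nx 1316 205 (.l1 (.ls 61 23 168)) (.nr 1317 524289 (.lg 0 true 1 67 67 23 0
  720) .out)) (.nr 1319 8193 (.lg 0 false 1 71 71 23 0 720) .out))) .out) .out) .ne)))) (.na 4577
  2897 (.na 2569 1024 (.na 1837 512 (.nx 1836 82572 (.nr 1835 1048577 (.nr 1324 257 .s1 (.nx 1579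
  647 (.la (.ls 71 31 1631)) (.nr 1834 262145 (.la (.lg 0 false 1 73 73 23 0)) .out))) .out) .out)
  (.na 2267 725 (.nx 2266 82572 (.nr 2265 1048577 (.nr 1838 512 .s1 (.nx 2051 647 (.la (.ls 71 29
  820)) (.nr 2264 262145 (.la (.lg 0 false 1 73 73 29 0)) .out))) .out) .out) (.nx 2568 3252 (.nr
  2567 262145 (.nr 2268 725 .s1 (.la (.ls 53 43 14589))) .out) .out))) (.na 2997 1449 (.nx 2996
  3252 (.nr 2995 262145 (.nr 2570 1024 .s1 (.la (.ls 53 41 10330))) .out) .out) (.na 3599 2048 (.nx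
  3598 1627 (.nr 3597 131073 (.nr 2998 1449 .s1 (.la (.ls 43 31 1829))) .out) .out) (.nx 4576 1627
  (.nr 4575 131073 (.nr 3600 2048 .s1 (.nx 3725 125 (.nr 3724 22949 (.lx (.lp 41 23 725)) (.l1
  .sk)) (.nx 3726 126 (.l1 .sk) (.la (.ls 43 31 1287))))) .out) .out)))) (.na 6526 16384 (.na 5227
  4096 (.nx 5226 647 (.nr 5225 65537 (.nr 4578 2897 .s1 (.nx 4740 163 (.lx (.lp 41 31 1025)) (.nr
  5224 32769 (.lx (.lp 31 31 1025)) .out))) .out) .out) (.na 5877 8192 (.nx 5876 647 (.nr 5875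
  65537 (.nr 5228 4096 .s1 (.nx 5390 163 (.lx (.lp 29 29 2049)) (.nr 5874 32769 (.lx (.lp 31 37
  2049)) .out))) .out) .out) (.nx 6525 647 (.nr 6524 65537 (.nr 5878 8192 .s1 (.lx (.lp 31 41
  4097))) .out) .out))) (.na 7502 65536 (.na 7176 32768 (.nx 7175 647 (.nr 7174 131073 (.nr 6527
  16384 .s1 (.nx 6689 163 (.lx (.lp 16 0 8193)) (.nr 7173 65537 (.lx (.lp 29 43 8193)) .out)))
  .out) .out) (.nx 7501 324 (.nr 7500 131073 (.nr 7177 32768 .s1 (.lx (.lp 16 0 16385))) .out)
  .out)) (.na 7828 131073 (.nx 7827 324 (.nr 7826 262145 (.nr 7503 65536 .s1 (.lx (.lp 16 0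
  32769))) .out) .out) .out)))))))

theorem c30 :
    OkQ ckI L6 76 1 1099511627776 0 34359738368 1 1099511627776 ∧
    OkQ ckI L6 125 1 1099511627776 0 34359738368 1 1099511627776 := by
  refine ⟨?_, ?_⟩
  · refine fin 456 7694 T30_0 ?_
    refine jn 5 (by decide +kernel) ?_
    refine jn 8 (by decide +kernel) ?_
    refine jn 11 (by decide +kernel) ?_
    refine jn 13 (by decide +kernel) ?_
    refine jn 14 (by decide +kernel) ?_
    refine jn 17 (by decide +kernel) ?_
    refine jn 20 (by decide +kernel) ?_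
    refine jn 23 (by decide +kernel) ?_
    refine jn 26 (by decide +kernel) ?_
    refine jn 28 (by decide +kernel) ?_
    refine jn 31 (by decide +kernel) ?_
    refine jn 34 (by decide +kernel) ?_
    refine jn 35 (by decide +kernel) ?_
    refine jn 49 (by decide +kernel) ?_
    refine jn 54 (by decide +kernel) ?_
    refine jn 59 (by decide +kernel) ?_
    refine jn 62 (by decide +kernel) ?_
    refine jn 66 (by decide +kernel) ?_
    refine jn 71 (by decide +kernel) ?_
    refine jn 74 (by decide +kernel) ?_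
    refine jn 79 (by decide +kernel) ?_
    refine jn 83 (by decide +kernel) ?_
    refine jn 94 (by decide +kernel) ?_
    refine jn 103 (by decide +kernel) ?_
    refine jn 116 (by decide +kernel) ?_
    refine jn 132 (by decide +kernel) ?_
    refine jn 135 (by decide +kernel) ?_
    refine jn 159 (by decide +kernel) ?_
    refine jn 167 (by decide +kernel) ?_
    refine jn 168 (by decide +kernel) ?_
    refine jn 169 (by decide +kernel) ?_
    refine jn 170 (by decide +kernel) ?_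
    refine jn 171 (by decide +kernel) ?_
    refine jn 172 (by decide +kernel) ?_
    refine jn 173 (by decide +kernel) ?_
    refine jn 174 (by decide +kernel) ?_
    refine jn 175 (by decide +kernel) ?_
    refine jn 176 (by decide +kernel) ?_
    refine jn 177 (by decide +kernel) ?_
    refine jn 178 (by decide +kernel) ?_
    refine jn 179 (by decide +kernel) ?_
    refine jn 180 (by decide +kernel) ?_
    refine jn 200 (by decide +kernel) ?_
    refine jn 204 (by decide +kernel) ?_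
    refine jn 206 (by decide +kernel) ?_
    refine jn 208 (by decide +kernel) ?_
    refine jn 210 (by decide +kernel) ?_
    refine jn 212 (by decide +kernel) ?_
    refine jn 214 (by decide +kernel) ?_
    refine jn 215 (by decide +kernel) ?_
    refine jn 222 (by decide +kernel) ?_
    refine jn 224 (by decide +kernel) ?_
    refine jn 231 (by decide +kernel) ?_
    refine jn 233 (by decide +kernel) ?_
    refine jn 238 (by decide +kernel) ?_
    refine jn 272 (by decide +kernel) ?_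
    refine jn 283 (by decide +kernel) ?_
    refine jn 293 (by decide +kernel) ?_
    refine jn 294 (by decide +kernel) ?_
    refine jn 295 (by decide +kernel) ?_
    refine jn 296 (by decide +kernel) ?_
    refine jn 297 (by decide +kernel) ?_
    refine jn 298 (by decide +kernel) ?_
    refine jn 299 (by decide +kernel) ?_
    refine jn 300 (by decide +kernel) ?_
    refine jn 301 (by decide +kernel) ?_
    refine jn 302 (by decide +kernel) ?_
    refine jn 303 (by decide +kernel) ?_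
    refine jn 304 (by decide +kernel) ?_
    refine jn 306 (by decide +kernel) ?_
    refine jn 308 (by decide +kernel) ?_
    refine jn 310 (by decide +kernel) ?_
    refine jn 314 (by decide +kernel) ?_
    refine jn 321 (by decide +kernel) ?_
    refine jn 332 (by decide +kernel) ?_
    refine jn 339 (by decide +kernel) ?_
    refine jn 342 (by decide +kernel) ?_
    refine jn 370 (by decide +kernel) ?_
    refine jn 377 (by decide +kernel) ?_
    refine jn 378 (by decide +kernel) ?_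
    refine jn 379 (by decide +kernel) ?_
    refine jn 380 (by decide +kernel) ?_
    refine jn 381 (by decide +kernel) ?_
    refine jn 382 (by decide +kernel) ?_
    refine jn 388 (by decide +kernel) ?_
    refine jn 391 (by decide +kernel) ?_
    refine jn 394 (by decide +kernel) ?_
    refine jn 397 (by decide +kernel) ?_
    refine jn 421 (by decide +kernel) ?_
    refine jn 424 (by decide +kernel) ?_
    refine jn 427 (by decide +kernel) ?_
    refine jn 432 (by decide +kernel) ?_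
    refine jn 442 (by decide +kernel) ?_
    refine jn 443 (by decide +kernel) ?_
    refine jn 446 (by decide +kernel) ?_
    refine jn 449 (by decide +kernel) ?_
    refine jn 453 (by decide +kernel) ?_
    refine jn 457 (by decide +kernel) ?_
    refine jn 460 (by decide +kernel) ?_
    refine jn 461 (by decide +kernel) ?_
    refine jn 468 (by decide +kernel) ?_
    refine jn 479 (by decide +kernel) ?_
    refine jn 480 (by decide +kernel) ?_
    refine jn 483 (by decide +kernel) ?_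
    refine jn 489 (by decide +kernel) ?_
    refine jn 492 (by decide +kernel) ?_
    refine jn 497 (by decide +kernel) ?_
    refine jn 515 (by decide +kernel) ?_
    refine jn 530 (by decide +kernel) ?_
    refine jn 538 (by decide +kernel) ?_
    refine jn 539 (by decide +kernel) ?_
    refine jn 540 (by decide +kernel) ?_
    refine jn 541 (by decide +kernel) ?_
    refine jn 542 (by decide +kernel) ?_
    refine jn 543 (by decide +kernel) ?_
    refine jn 544 (by decide +kernel) ?_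
    refine jn 545 (by decide +kernel) ?_
    refine jn 546 (by decide +kernel) ?_
    refine jn 550 (by decide +kernel) ?_
    refine jn 551 (by decide +kernel) ?_
    refine jn 552 (by decide +kernel) ?_
    refine jn 553 (by decide +kernel) ?_
    refine jn 560 (by decide +kernel) ?_
    refine jn 561 (by decide +kernel) ?_
    refine jn 569 (by decide +kernel) ?_
    refine jn 572 (by decide +kernel) ?_
    refine jn 577 (by decide +kernel) ?_
    refine jn 589 (by decide +kernel) ?_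
    refine jn 593 (by decide +kernel) ?_
    refine jn 600 (by decide +kernel) ?_
    refine jn 612 (by decide +kernel) ?_
    refine jn 613 (by decide +kernel) ?_
    refine jn 614 (by decide +kernel) ?_
    refine jn 615 (by decide +kernel) ?_
    refine jn 616 (by decide +kernel) ?_
    refine jn 617 (by decide +kernel) ?_
    refine jn 618 (by decide +kernel) ?_
    refine jn 619 (by decide +kernel) ?_
    refine jn 621 (by decide +kernel) ?_
    refine jn 632 (by decide +kernel) ?_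
    refine jn 633 (by decide +kernel) ?_
    refine jn 634 (by decide +kernel) ?_
    refine jn 635 (by decide +kernel) ?_
    refine jn 636 (by decide +kernel) ?_
    refine jn 638 (by decide +kernel) ?_
    refine jn 639 (by decide +kernel) ?_
    refine jn 640 (by decide +kernel) ?_
    refine jn 652 (by decide +kernel) ?_
    refine jn 658 (by decide +kernel) ?_
    refine jn 666 (by decide +kernel) ?_
    refine jn 668 (by decide +kernel) ?_
    refine jn 669 (by decide +kernel) ?_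
    refine jn 671 (by decide +kernel) ?_
    refine jn 673 (by decide +kernel) ?_
    refine jn 688 (by decide +kernel) ?_
    refine jn 700 (by decide +kernel) ?_
    refine jn 704 (by decide +kernel) ?_
    refine jn 714 (by decide +kernel) ?_
    refine jn 715 (by decide +kernel) ?_
    refine jn 718 (by decide +kernel) ?_
    refine jn 730 (by decide +kernel) ?_
    refine jn 741 (by decide +kernel) ?_
    refine jn 746 (by decide +kernel) ?_
    refine jn 748 (by decide +kernel) ?_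
    refine jn 760 (by decide +kernel) ?_
    refine jn 775 (by decide +kernel) ?_
    refine jn 785 (by decide +kernel) ?_
    refine jn 788 (by decide +kernel) ?_
    refine jn 790 (by decide +kernel) ?_
    refine jn 802 (by decide +kernel) ?_
    refine jn 812 (by decide +kernel) ?_
    refine jn 815 (by decide +kernel) ?_
    refine jn 818 (by decide +kernel) ?_
    refine jn 829 (by decide +kernel) ?_
    refine jn 832 (by decide +kernel) ?_
    refine jn 843 (by decide +kernel) ?_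
    refine jn 853 (by decide +kernel) ?_
    refine jn 856 (by decide +kernel) ?_
    refine jn 869 (by decide +kernel) ?_
    refine jn 878 (by decide +kernel) ?_
    refine jn 880 (by decide +kernel) ?_
    refine jn 889 (by decide +kernel) ?_
    refine jn 891 (by decide +kernel) ?_
    refine jn 907 (by decide +kernel) ?_
    refine jn 919 (by decide +kernel) ?_
    refine jn 930 (by decide +kernel) ?_
    refine jn 946 (by decide +kernel) ?_
    refine jn 953 (by decide +kernel) ?_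
    refine jn 954 (by decide +kernel) ?_
    refine jn 964 (by decide +kernel) ?_
    refine jn 980 (by decide +kernel) ?_
    refine jn 991 (by decide +kernel) ?_
    refine jn 1001 (by decide +kernel) ?_
    refine jn 1012 (by decide +kernel) ?_
    refine jn 1023 (by decide +kernel) ?_
    refine jn 1031 (by decide +kernel) ?_
    refine jn 1047 (by decide +kernel) ?_
    refine jn 1056 (by decide +kernel) ?_
    refine jn 1072 (by decide +kernel) ?_
    refine jn 1081 (by decide +kernel) ?_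
    refine jn 1088 (by decide +kernel) ?_
    refine jn 1099 (by decide +kernel) ?_
    refine jn 1114 (by decide +kernel) ?_
    refine jn 1128 (by decide +kernel) ?_
    refine jn 1137 (by decide +kernel) ?_
    refine jn 1147 (by decide +kernel) ?_
    refine jn 1156 (by decide +kernel) ?_
    refine jn 1213 (by decide +kernel) ?_
    refine jn 1245 (by decide +kernel) ?_
    refine jn 1290 (by decide +kernel) ?_
    refine jn 1332 (by decide +kernel) ?_
    refine jn 1381 (by decide +kernel) ?_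
    refine jn 1423 (by decide +kernel) ?_
    refine jn 1435 (by decide +kernel) ?_
    refine jn 1443 (by decide +kernel) ?_
    refine jn 1452 (by decide +kernel) ?_
    refine jn 1465 (by decide +kernel) ?_
    refine jn 1468 (by decide +kernel) ?_
    refine jn 1469 (by decide +kernel) ?_
    refine jn 1489 (by decide +kernel) ?_
    refine jn 1500 (by decide +kernel) ?_
    refine jn 1501 (by decide +kernel) ?_
    refine jn 1513 (by decide +kernel) ?_
    refine jn 1525 (by decide +kernel) ?_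
    refine jn 1540 (by decide +kernel) ?_
    refine jn 1545 (by decide +kernel) ?_
    refine jn 1549 (by decide +kernel) ?_
    refine jn 1557 (by decide +kernel) ?_
    refine jn 1575 (by decide +kernel) ?_
    refine jn 1585 (by decide +kernel) ?_
    refine jn 1597 (by decide +kernel) ?_
    refine jn 1620 (by decide +kernel) ?_
    refine jn 1621 (by decide +kernel) ?_
    refine jn 1633 (by decide +kernel) ?_
    refine jn 1636 (by decide +kernel) ?_
    refine jn 1639 (by decide +kernel) ?_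
    refine jn 1659 (by decide +kernel) ?_
    refine jn 1665 (by decide +kernel) ?_
    refine jn 1693 (by decide +kernel) ?_
    refine jn 1759 (by decide +kernel) ?_
    refine jn 1816 (by decide +kernel) ?_
    refine jn 1883 (by decide +kernel) ?_
    refine jn 1906 (by decide +kernel) ?_
    refine jn 1916 (by decide +kernel) ?_
    refine jn 1925 (by decide +kernel) ?_
    refine jn 1948 (by decide +kernel) ?_
    refine jn 1958 (by decide +kernel) ?_
    refine jn 1972 (by decide +kernel) ?_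
    refine jn 1973 (by decide +kernel) ?_
    refine jn 1994 (by decide +kernel) ?_
    refine jn 2005 (by decide +kernel) ?_
    refine jn 2021 (by decide +kernel) ?_
    refine jn 2022 (by decide +kernel) ?_
    refine jn 2032 (by decide +kernel) ?_
    refine jn 2048 (by decide +kernel) ?_
    refine jn 2072 (by decide +kernel) ?_
    refine jn 2077 (by decide +kernel) ?_
    refine jn 2084 (by decide +kernel) ?_
    refine jn 2112 (by decide +kernel) ?_
    refine jn 2142 (by decide +kernel) ?_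
    refine jn 2184 (by decide +kernel) ?_
    refine jn 2214 (by decide +kernel) ?_
    refine jn 2256 (by decide +kernel) ?_
    refine jn 2312 (by decide +kernel) ?_
    refine jn 2336 (by decide +kernel) ?_
    refine jn 2370 (by decide +kernel) ?_
    refine jn 2483 (by decide +kernel) ?_
    refine jn 2536 (by decide +kernel) ?_
    refine jn 2570 (by decide +kernel) ?_
    refine jn 2626 (by decide +kernel) ?_
    refine jn 2681 (by decide +kernel) ?_
    refine jn 2726 (by decide +kernel) ?_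
    refine jn 2776 (by decide +kernel) ?_
    refine jn 2840 (by decide +kernel) ?_
    refine jn 2884 (by decide +kernel) ?_
    refine jn 2957 (by decide +kernel) ?_
    refine jn 3028 (by decide +kernel) ?_
    refine jn 3109 (by decide +kernel) ?_
    refine jn 3185 (by decide +kernel) ?_
    refine jn 3263 (by decide +kernel) ?_
    refine jn 3361 (by decide +kernel) ?_
    refine jn 3449 (by decide +kernel) ?_
    refine jn 3601 (by decide +kernel) ?_
    refine jn 3700 (by decide +kernel) ?_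
    refine jn 3820 (by decide +kernel) ?_
    refine jn 3903 (by decide +kernel) ?_
    refine jn 3996 (by decide +kernel) ?_
    refine jn 4099 (by decide +kernel) ?_
    refine jn 4197 (by decide +kernel) ?_
    refine jn 4305 (by decide +kernel) ?_
    refine jn 4411 (by decide +kernel) ?_
    refine jn 4781 (by decide +kernel) ?_
    refine jn 4916 (by decide +kernel) ?_
    refine jn 5039 (by decide +kernel) ?_
    refine jn 5334 (by decide +kernel) ?_
    refine jn 5513 (by decide +kernel) ?_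
    refine jn 5612 (by decide +kernel) ?_
    refine jn 5679 (by decide +kernel) ?_
    refine jn 5948 (by decide +kernel) ?_
    refine jn 6174 (by decide +kernel) ?_
    refine jn 6327 (by decide +kernel) ?_
    refine jn 6587 (by decide +kernel) ?_
    refine jn 6916 (by decide +kernel) ?_
    refine jn 7268 (by decide +kernel) ?_
    exact je (by decide +kernel)
  · refine fin 360 7829 T30_1 ?_
    refine jn 7 (by decide +kernel) ?_
    refine jn 10 (by decide +kernel) ?_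
    refine jn 12 (by decide +kernel) ?_
    refine jn 16 (by decide +kernel) ?_
    refine jn 18 (by decide +kernel) ?_
    refine jn 20 (by decide +kernel) ?_
    refine jn 22 (by decide +kernel) ?_
    refine jn 27 (by decide +kernel) ?_
    refine jn 30 (by decide +kernel) ?_
    refine jn 32 (by decide +kernel) ?_
    refine jn 34 (by decide +kernel) ?_
    refine jn 38 (by decide +kernel) ?_
    refine jn 40 (by decide +kernel) ?_
    refine jn 42 (by decide +kernel) ?_
    refine jn 44 (by decide +kernel) ?_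
    refine jn 60 (by decide +kernel) ?_
    refine jn 67 (by decide +kernel) ?_
    refine jn 73 (by decide +kernel) ?_
    refine jn 79 (by decide +kernel) ?_
    refine jn 85 (by decide +kernel) ?_
    refine jn 91 (by decide +kernel) ?_
    refine jn 97 (by decide +kernel) ?_
    refine jn 103 (by decide +kernel) ?_
    refine jn 105 (by decide +kernel) ?_
    refine jn 116 (by decide +kernel) ?_
    refine jn 127 (by decide +kernel) ?_
    refine jn 140 (by decide +kernel) ?_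
    refine jn 153 (by decide +kernel) ?_
    refine jn 156 (by decide +kernel) ?_
    refine jn 182 (by decide +kernel) ?_
    refine jn 193 (by decide +kernel) ?_
    refine jn 198 (by decide +kernel) ?_
    refine jn 203 (by decide +kernel) ?_
    refine jn 207 (by decide +kernel) ?_
    refine jn 211 (by decide +kernel) ?_
    refine jn 216 (by decide +kernel) ?_
    refine jn 221 (by decide +kernel) ?_
    refine jn 228 (by decide +kernel) ?_
    refine jn 238 (by decide +kernel) ?_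
    refine jn 248 (by decide +kernel) ?_
    refine jn 255 (by decide +kernel) ?_
    refine jn 266 (by decide +kernel) ?_
    refine jn 277 (by decide +kernel) ?_
    refine jn 308 (by decide +kernel) ?_
    refine jn 327 (by decide +kernel) ?_
    refine jn 333 (by decide +kernel) ?_
    refine jn 334 (by decide +kernel) ?_
    refine jn 335 (by decide +kernel) ?_
    refine jn 336 (by decide +kernel) ?_
    refine jn 337 (by decide +kernel) ?_
    refine jn 338 (by decide +kernel) ?_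
    refine jn 339 (by decide +kernel) ?_
    refine jn 340 (by decide +kernel) ?_
    refine jn 341 (by decide +kernel) ?_
    refine jn 342 (by decide +kernel) ?_
    refine jn 343 (by decide +kernel) ?_
    refine jn 344 (by decide +kernel) ?_
    refine jn 345 (by decide +kernel) ?_
    refine jn 346 (by decide +kernel) ?_
    refine jn 347 (by decide +kernel) ?_
    refine jn 348 (by decide +kernel) ?_
    refine jn 349 (by decide +kernel) ?_
    refine jn 360 (by decide +kernel) ?_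
    refine jn 367 (by decide +kernel) ?_
    refine jn 368 (by decide +kernel) ?_
    refine jn 369 (by decide +kernel) ?_
    refine jn 370 (by decide +kernel) ?_
    refine jn 371 (by decide +kernel) ?_
    refine jn 372 (by decide +kernel) ?_
    refine jn 374 (by decide +kernel) ?_
    refine jn 375 (by decide +kernel) ?_
    refine jn 376 (by decide +kernel) ?_
    refine jn 378 (by decide +kernel) ?_
    refine jn 379 (by decide +kernel) ?_
    refine jn 380 (by decide +kernel) ?_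
    refine jn 387 (by decide +kernel) ?_
    refine jn 394 (by decide +kernel) ?_
    refine jn 398 (by decide +kernel) ?_
    refine jn 409 (by decide +kernel) ?_
    refine jn 416 (by decide +kernel) ?_
    refine jn 423 (by decide +kernel) ?_
    refine jn 431 (by decide +kernel) ?_
    refine jn 437 (by decide +kernel) ?_
    refine jn 465 (by decide +kernel) ?_
    refine jn 472 (by decide +kernel) ?_
    refine jn 473 (by decide +kernel) ?_
    refine jn 474 (by decide +kernel) ?_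
    refine jn 476 (by decide +kernel) ?_
    refine jn 478 (by decide +kernel) ?_
    refine jn 479 (by decide +kernel) ?_
    refine jn 481 (by decide +kernel) ?_
    refine jn 482 (by decide +kernel) ?_
    refine jn 484 (by decide +kernel) ?_
    refine jn 487 (by decide +kernel) ?_
    refine jn 490 (by decide +kernel) ?_
    refine jn 494 (by decide +kernel) ?_
    refine jn 497 (by decide +kernel) ?_
    refine jn 507 (by decide +kernel) ?_
    refine jn 513 (by decide +kernel) ?_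
    refine jn 521 (by decide +kernel) ?_
    refine jn 528 (by decide +kernel) ?_
    refine jn 539 (by decide +kernel) ?_
    refine jn 557 (by decide +kernel) ?_
    refine jn 560 (by decide +kernel) ?_
    refine jn 564 (by decide +kernel) ?_
    refine jn 569 (by decide +kernel) ?_
    refine jn 572 (by decide +kernel) ?_
    refine jn 577 (by decide +kernel) ?_
    refine jn 587 (by decide +kernel) ?_
    refine jn 595 (by decide +kernel) ?_
    refine jn 596 (by decide +kernel) ?_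
    refine jn 597 (by decide +kernel) ?_
    refine jn 598 (by decide +kernel) ?_
    refine jn 599 (by decide +kernel) ?_
    refine jn 602 (by decide +kernel) ?_
    refine jn 603 (by decide +kernel) ?_
    refine jn 604 (by decide +kernel) ?_
    refine jn 605 (by decide +kernel) ?_
    refine jn 606 (by decide +kernel) ?_
    refine jn 607 (by decide +kernel) ?_
    refine jn 615 (by decide +kernel) ?_
    refine jn 623 (by decide +kernel) ?_
    refine jn 635 (by decide +kernel) ?_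
    refine jn 640 (by decide +kernel) ?_
    refine jn 645 (by decide +kernel) ?_
    refine jn 649 (by decide +kernel) ?_
    refine jn 655 (by decide +kernel) ?_
    refine jn 669 (by decide +kernel) ?_
    refine jn 673 (by decide +kernel) ?_
    refine jn 685 (by decide +kernel) ?_
    refine jn 688 (by decide +kernel) ?_
    refine jn 692 (by decide +kernel) ?_
    refine jn 704 (by decide +kernel) ?_
    refine jn 708 (by decide +kernel) ?_
    refine jn 713 (by decide +kernel) ?_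
    refine jn 721 (by decide +kernel) ?_
    refine jn 722 (by decide +kernel) ?_
    refine jn 723 (by decide +kernel) ?_
    refine jn 727 (by decide +kernel) ?_
    refine jn 730 (by decide +kernel) ?_
    refine jn 741 (by decide +kernel) ?_
    refine jn 746 (by decide +kernel) ?_
    refine jn 757 (by decide +kernel) ?_
    refine jn 761 (by decide +kernel) ?_
    refine jn 773 (by decide +kernel) ?_
    refine jn 778 (by decide +kernel) ?_
    refine jn 793 (by decide +kernel) ?_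
    refine jn 802 (by decide +kernel) ?_
    refine jn 803 (by decide +kernel) ?_
    refine jn 804 (by decide +kernel) ?_
    refine jn 805 (by decide +kernel) ?_
    refine jn 808 (by decide +kernel) ?_
    refine jn 821 (by decide +kernel) ?_
    refine jn 833 (by decide +kernel) ?_
    refine jn 837 (by decide +kernel) ?_
    refine jn 851 (by decide +kernel) ?_
    refine jn 860 (by decide +kernel) ?_
    refine jn 861 (by decide +kernel) ?_
    refine jn 862 (by decide +kernel) ?_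
    refine jn 863 (by decide +kernel) ?_
    refine jn 878 (by decide +kernel) ?_
    refine jn 893 (by decide +kernel) ?_
    refine jn 908 (by decide +kernel) ?_
    refine jn 923 (by decide +kernel) ?_
    refine jn 938 (by decide +kernel) ?_
    refine jn 953 (by decide +kernel) ?_
    refine jn 965 (by decide +kernel) ?_
    refine jn 978 (by decide +kernel) ?_
    refine jn 989 (by decide +kernel) ?_
    refine jn 1006 (by decide +kernel) ?_
    refine jn 1020 (by decide +kernel) ?_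
    refine jn 1031 (by decide +kernel) ?_
    refine jn 1034 (by decide +kernel) ?_
    refine jn 1043 (by decide +kernel) ?_
    refine jn 1054 (by decide +kernel) ?_
    refine jn 1065 (by decide +kernel) ?_
    refine jn 1075 (by decide +kernel) ?_
    refine jn 1083 (by decide +kernel) ?_
    refine jn 1092 (by decide +kernel) ?_
    refine jn 1101 (by decide +kernel) ?_
    refine jn 1109 (by decide +kernel) ?_
    refine jn 1115 (by decide +kernel) ?_
    refine jn 1116 (by decide +kernel) ?_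
    refine jn 1117 (by decide +kernel) ?_
    refine jn 1122 (by decide +kernel) ?_
    refine jn 1128 (by decide +kernel) ?_
    refine jn 1144 (by decide +kernel) ?_
    refine jn 1160 (by decide +kernel) ?_
    refine jn 1167 (by decide +kernel) ?_
    refine jn 1168 (by decide +kernel) ?_
    refine jn 1176 (by decide +kernel) ?_
    refine jn 1186 (by decide +kernel) ?_
    refine jn 1204 (by decide +kernel) ?_
    refine jn 1219 (by decide +kernel) ?_
    refine jn 1228 (by decide +kernel) ?_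
    refine jn 1245 (by decide +kernel) ?_
    refine jn 1259 (by decide +kernel) ?_
    refine jn 1260 (by decide +kernel) ?_
    refine jn 1268 (by decide +kernel) ?_
    refine jn 1283 (by decide +kernel) ?_
    refine jn 1294 (by decide +kernel) ?_
    refine jn 1307 (by decide +kernel) ?_
    refine jn 1310 (by decide +kernel) ?_
    refine jn 1349 (by decide +kernel) ?_
    refine jn 1374 (by decide +kernel) ?_
    refine jn 1417 (by decide +kernel) ?_
    refine jn 1450 (by decide +kernel) ?_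
    refine jn 1512 (by decide +kernel) ?_
    refine jn 1549 (by decide +kernel) ?_
    refine jn 1580 (by decide +kernel) ?_
    refine jn 1592 (by decide +kernel) ?_
    refine jn 1609 (by decide +kernel) ?_
    refine jn 1616 (by decide +kernel) ?_
    refine jn 1623 (by decide +kernel) ?_
    refine jn 1627 (by decide +kernel) ?_
    refine jn 1643 (by decide +kernel) ?_
    refine jn 1644 (by decide +kernel) ?_
    refine jn 1656 (by decide +kernel) ?_
    refine jn 1672 (by decide +kernel) ?_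
    refine jn 1673 (by decide +kernel) ?_
    refine jn 1689 (by decide +kernel) ?_
    refine jn 1700 (by decide +kernel) ?_
    refine jn 1705 (by decide +kernel) ?_
    refine jn 1724 (by decide +kernel) ?_
    refine jn 1732 (by decide +kernel) ?_
    refine jn 1737 (by decide +kernel) ?_
    refine jn 1767 (by decide +kernel) ?_
    refine jn 1771 (by decide +kernel) ?_
    refine jn 1772 (by decide +kernel) ?_
    refine jn 1773 (by decide +kernel) ?_
    refine jn 1785 (by decide +kernel) ?_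
    refine jn 1804 (by decide +kernel) ?_
    refine jn 1805 (by decide +kernel) ?_
    refine jn 1808 (by decide +kernel) ?_
    refine jn 1831 (by decide +kernel) ?_
    refine jn 1851 (by decide +kernel) ?_
    refine jn 1871 (by decide +kernel) ?_
    refine jn 1935 (by decide +kernel) ?_
    refine jn 1984 (by decide +kernel) ?_
    refine jn 2036 (by decide +kernel) ?_
    refine jn 2064 (by decide +kernel) ?_
    refine jn 2065 (by decide +kernel) ?_
    refine jn 2077 (by decide +kernel) ?_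
    refine jn 2084 (by decide +kernel) ?_
    refine jn 2102 (by decide +kernel) ?_
    refine jn 2114 (by decide +kernel) ?_
    refine jn 2130 (by decide +kernel) ?_
    refine jn 2148 (by decide +kernel) ?_
    refine jn 2153 (by decide +kernel) ?_
    refine jn 2162 (by decide +kernel) ?_
    refine jn 2181 (by decide +kernel) ?_
    refine jn 2197 (by decide +kernel) ?_
    refine jn 2214 (by decide +kernel) ?_
    refine jn 2225 (by decide +kernel) ?_
    refine jn 2233 (by decide +kernel) ?_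
    refine jn 2244 (by decide +kernel) ?_
    refine jn 2260 (by decide +kernel) ?_
    refine jn 2281 (by decide +kernel) ?_
    refine jn 2309 (by decide +kernel) ?_
    refine jn 2353 (by decide +kernel) ?_
    refine jn 2397 (by decide +kernel) ?_
    refine jn 2426 (by decide +kernel) ?_
    refine jn 2470 (by decide +kernel) ?_
    refine jn 2506 (by decide +kernel) ?_
    refine jn 2548 (by decide +kernel) ?_
    refine jn 2587 (by decide +kernel) ?_
    refine jn 2596 (by decide +kernel) ?_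
    refine jn 2616 (by decide +kernel) ?_
    refine jn 2647 (by decide +kernel) ?_
    refine jn 2696 (by decide +kernel) ?_
    refine jn 2747 (by decide +kernel) ?_
    refine jn 2776 (by decide +kernel) ?_
    refine jn 2816 (by decide +kernel) ?_
    refine jn 2875 (by decide +kernel) ?_
    refine jn 2908 (by decide +kernel) ?_
    refine jn 2956 (by decide +kernel) ?_
    refine jn 3003 (by decide +kernel) ?_
    refine jn 3091 (by decide +kernel) ?_
    refine jn 3178 (by decide +kernel) ?_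
    refine jn 3264 (by decide +kernel) ?_
    refine jn 3311 (by decide +kernel) ?_
    refine jn 3383 (by decide +kernel) ?_
    refine jn 3475 (by decide +kernel) ?_
    refine jn 3559 (by decide +kernel) ?_
    refine jn 3739 (by decide +kernel) ?_
    refine jn 3828 (by decide +kernel) ?_
    refine jn 3899 (by decide +kernel) ?_
    refine jn 3976 (by decide +kernel) ?_
    refine jn 4059 (by decide +kernel) ?_
    refine jn 4141 (by decide +kernel) ?_
    refine jn 4240 (by decide +kernel) ?_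
    refine jn 4316 (by decide +kernel) ?_
    refine jn 4412 (by decide +kernel) ?_
    refine jn 4513 (by decide +kernel) ?_
    refine jn 4657 (by decide +kernel) ?_
    refine jn 4932 (by decide +kernel) ?_
    refine jn 5091 (by decide +kernel) ?_
    refine jn 5188 (by decide +kernel) ?_
    refine jn 5443 (by decide +kernel) ?_
    refine jn 5586 (by decide +kernel) ?_
    refine jn 5682 (by decide +kernel) ?_
    refine jn 5770 (by decide +kernel) ?_
    refine jn 5846 (by decide +kernel) ?_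
    refine jn 6166 (by decide +kernel) ?_
    refine jn 6325 (by decide +kernel) ?_
    refine jn 6439 (by decide +kernel) ?_
    refine jn 6782 (by decide +kernel) ?_
    refine jn 7011 (by decide +kernel) ?_
    refine jn 7139 (by decide +kernel) ?_
    exact je (by decide +kernel)

end Pool.Agent.MP_2339ce_nt.NR
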