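import Pool.Agent.MP_2339ce_nt.Q2.NC.L6
import Pool.Agent.MP_2339ce_nt.Q2.NC.L8
import Pool.Agent.MP_2339ce_nt.Q2.NC.L10
import Pool.Agent.MP_2339ce_nt.Q2.CkI

/-! Block NR: runs. -/

set_option autoImplicit false
set_option maxRecDepth 100000

noncomputable section

namespace Pool.Agent.MP_2339ce_nt.NR

open Q2.Top

def T34_0 : Ph :=
  (.na 506 7 (.na 278 5 (.nx 277 21137969 (.nr 276 1246976 (.nx 201 2642247 (.nx 2 236 (.nr 1 53
  (.lg 0 true 1 41 41 9 0 297360) (.l1 .sk)) (.nx 3 237 (.l1 .sk) (.nx 63 40008 (.nr 51 262145 (.nr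
  36 220437 (.lg 0 false 33 103 109 19 0 42522480) (.nx 39 1292 (.lg 0 false 3 89 89 9 0 8496) (.nx
  40 20642 .out (.lg 0 false 11 103 109 13 0 42522480)))) (.nx 62 408 (.lg 0 false 11 89 89 13 0
  93456) .out)) (.nr 200 311745 (.nx 188 660563 (.nr 85 2912 (.nr 74 730 (.lg 0 true 11 97 97 13 0
  93456) (.lg 2 true 11 97 101 13 106776 3270960)) (.nx 141 152899 (.nx 130 112360 (.nx 119 82570
  (.nr 118 262145 (.nx 107 57475 (.lg 1 false 22 103 109 13 182636 42522480) (.lg 1 false 11 107
  109 13 127131 42522480)) .out) (.lg 1 false 11 107 109 13 105222 42522480)) (.lg 1 false 11 107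
  109 13 77324 42522480)) (.nr 147 11616 (.nr 144 5816 (.lg 2 true 3 97 97 9 26768 297360) (.lg 2
  true 3 97 101 9 13403 297360)) (.nx 170 262145 (.nx 158 208065 (.lg 1 false 11 107 109 13 56823
  42522480) (.nr 169 185365 (.lg 1 true 11 103 109 13 24842 42522480) .out)) (.nr 187 131073 (.nr
  175 46342 (.lg 2 false 5 101 103 11 6711 297360) (.nx 186 330282 (.lg 1 true 11 103 109 13 13950
  42522480) .out)) .out))))) (.nr 199 183 (.lg 0 true 11 89 89 13 0 93456) .out)) .out)))) (.nr 275
  21 (.nx 223 7473401 (.lg 0 true 22 83 83 11 0 93456) (.nx 249 14946802 (.lg 0 true 26 83 83 11 0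
  110448) (.lg 0 true 26 83 83 11 0 110448))) .out)) .out) .out) (.na 505 6 (.nx 504 21137969 (.nr
  503 1482912 (.nx 456 2642247 (.nx 322 37042 (.nx 281 237 (.nx 280 236 (.nr 279 64 (.lg 0 false 1
  37 37 9 0 21240) (.l1 .sk)) (.l1 .sk)) (.nr 302 185365 (.lg 0 false 21 103 109 16 0 42522480)
  (.nx 313 408 (.lg 0 false 11 83 83 16 0 233640) (.nx 314 16384 .out (.nr 321 220437 (.lg 0 false
  7 103 107 16 0 42522480) .out))))) (.nr 455 311745 (.nx 443 660563 (.nr 340 3171 (.nr 333 829
  (.lg 0 true 11 89 89 16 0 233640) (.lg 2 true 7 89 97 16 94025 148680)) (.nx 428 330282 (.nx 420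
  262145 (.nx 363 65536 (.nr 362 220437 (.nx 351 49270 (.lg 1 false 11 103 107 16 165904 42522480)
  (.lg 1 false 11 103 107 16 124729 42522480)) .out) (.nx 397 152899 (.nx 375 82570 (.nr 374 262145
  (.lg 1 false 11 103 107 16 111494 42522480) .out) (.nx 386 112360 (.lg 1 false 11 107 109 16
  105222 42522480) (.lg 1 false 11 103 109 16 77324 42522480))) (.nx 408 208065 (.lg 1 false 11 103
  109 16 56823 42522480) (.nr 419 262145 (.lg 1 true 11 103 109 16 35118 42522480) .out)))) (.nr
  427 131073 (.lg 1 true 7 101 103 16 13950 297360) .out)) (.nr 442 46342 (.nr 435 12122 (.lg 2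
  true 7 89 97 16 24582 148680) (.lg 2 false 7 89 97 16 6431 148680)) .out))) (.nr 454 217 (.lg 0
  true 11 89 89 16 0 233640) .out)) .out)) (.nr 502 24 (.nx 469 5284493 (.lg 0 true 13 73 73 16 0
  276120) (.lg 0 true 33 79 79 16 0 233640)) .out)) .out) .out) .ne)) (.na 693 8 (.nx 692 21137969
  (.nr 691 1246976 (.nx 651 2642247 (.nx 508 236 (.nr 507 86 (.lg 0 true 1 31 31 9 0 29736) (.l1
  .sk)) (.nx 509 237 (.l1 .sk) (.nx 547 41285 (.nr 535 262145 (.nr 522 185365 (.lg 0 false 13 103
  107 16 0 3865680) (.nx 534 32769 (.nx 527 2582 (.lg 0 false 5 83 89 16 0 148680) (.nx 528 20642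
  .out (.nr 533 220437 (.lg 0 false 5 89 97 16 0 148680) .out))) .out)) (.nx 546 814 (.lg 0 false
  11 83 89 16 0 327096) .out)) (.nr 650 311745 (.nr 560 642 (.lg 0 true 13 89 89 16 0 386568) (.nx
  649 832257 (.nr 568 5950 (.nr 565 2833 (.lg 2 true 5 89 89 16 152970 148680) (.lg 2 true 3 89 89
  11 34666 148680)) (.nx 596 82570 (.nr 595 262145 (.nx 582 52015 (.nr 581 220437 (.lg 1 false 13
  97 103 16 148853 3865680) .out) (.lg 1 false 13 101 107 16 140476 3865680)) .out) (.nx 622 178361
  (.nx 609 121356 (.lg 1 false 13 101 107 16 105222 3865680) (.lg 1 false 13 101 107 16 71592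
  3865680)) (.nx 635 262145 (.lg 1 true 13 101 107 16 48711 3865680) (.nr 648 155873 (.lg 2 false
  13 97 103 16 16584 1932840) .out))))) .out)) .out)))) (.nr 690 47 (.lg 0 true 39 83 83 16 0
  386568) .out)) .out) .out) (.na 694 9 .ne (.nx 856 21137969 (.nr 855 1482912 (.nx 697 237 (.nx
  696 236 (.nr 695 108 (.lg 0 true 1 31 31 7 0 21240) (.l1 .sk)) (.l1 .sk)) (.nr 847 370729 (.nx
  803 1321124 (.nx 716 32768 (.nr 708 220437 (.lg 0 false 11 103 109 16 0 42522480) (.nx 715 6503
  (.lg 0 false 7 89 97 16 0 148680) .out)) (.nr 727 1227 (.lg 0 true 11 89 89 16 0 233640) (.nx 739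
  52015 (.nr 738 262145 (.lg 1 false 11 103 109 16 222989 42522480) .out) (.nx 773 185364 (.nx 762
  131072 (.nr 761 311745 (.nx 750 96319 (.lg 1 false 11 103 109 16 167032 42522480) (.lg 1 false 11
  101 107 16 90202 42522480)) .out) (.lg 1 false 11 103 109 16 78817 42522480)) (.nr 780 9779 (.lg
  2 true 7 89 97 16 127052 148680) (.nx 791 262145 (.lg 1 true 11 103 109 16 55732 42522480) (.nr
  802 185365 (.lg 2 false 11 103 107 16 19717 42522480) .out))))))) (.nr 846 154 (.nr 838 65 (.lg 0
  true 35 79 83 16 0 148680) (.nx 845 2642247 (.lg 0 true 7 73 73 16 0 29736) .out)) .out)) (.nx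
  854 814 (.lg 0 false 7 83 83 16 0 29736) .out))) .out) .out))))

def T34_1 : Ph :=
  (.na 475 15 (.na 220 9 (.na 132 7 (.nx 131 13316087 (.nr 130 623489 (.nx 2 176 (.nr 1 65 (.lg 0
  false 1 37 37 7 0 7920) (.l1 .sk)) (.nx 3 177 (.l1 .sk) (.nx 4 205 (.l1 (.ls 89 41 1785)) (.nr
  129 370729 (.nx 25 28089 (.nr 17 131073 (.lg 0 false 13 97 103 19 0 102960) (.nx 24 1627 (.lg 0
  false 7 89 97 13 0 55440) .out)) (.nr 128 155873 (.nr 82 1026 (.nx 38 832257 (.lg 0 true 13 89 89
  19 0 102960) (.nr 81 129 (.nr 73 42 (.lg 0 true 35 83 83 13 0 55440) (.nx 80 1664512 (.lg 0 true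
  7 79 79 13 0 11088) .out)) .out)) (.nx 127 660563 (.nr 89 8201 (.lg 2 true 7 89 101 13 56657
  55440) (.nx 119 131073 (.nx 97 52015 (.nr 96 131073 (.lg 1 false 7 101 103 13 72371 55440) .out)
  (.nx 104 73561 (.lg 1 false 7 97 103 13 46466 55440) (.nx 111 104033 (.lg 1 false 7 97 103 13
  32856 55440) (.nr 118 131073 (.lg 1 true 7 97 101 13 19540 55440) .out)))) (.nr 126 65537 (.lg 2
  false 7 89 101 13 7765 55440) .out))) .out)) .out)) .out)))) .out) .out) (.na 133 8 .ne (.nx 219
  13316087 (.nr 218 623489 (.nx 136 177 (.nx 135 176 (.nr 134 84 (.lg 0 true 1 31 31 9 0 1584) (.l1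
  .sk)) (.l1 .sk)) (.nr 210 131073 (.nx 149 38224 (.lg 0 false 13 101 103 13 0 720720) (.nr 191 727
  (.nx 156 832257 (.lg 0 true 7 83 83 13 0 11088) (.nr 190 129 (.nx 163 1664512 (.lg 0 true 7 73 73
  13 0 11088) (.nr 189 55 (.lg 0 true 26 79 79 13 0 20592) .out)) .out)) (.nx 209 660563 (.nx 198
  82572 (.lg 1 false 7 97 101 13 53182 55440) (.nr 208 110219 (.nr 201 2905 (.lg 2 true 3 83 83 11
  79959 1584) (.lg 2 false 7 97 103 13 20707 55440)) .out)) .out))) (.nx 217 1627 (.lg 0 false 7 89
  89 13 0 11088) .out))) .out) .out))) (.na 373 11 (.na 310 10 (.nx 309 13316087 (.nr 308 623489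
  (.nx 222 176 (.nr 221 94 (.lg 0 true 1 31 31 7 0 7920) (.l1 .sk)) (.nx 223 177 (.l1 .sk) (.nx 271
  832257 (.nr 263 131073 (.nx 230 30928 (.lg 0 false 7 101 103 16 0 55440) (.nr 237 745 (.lg 0 true
  7 83 83 16 0 11088) (.nx 262 524289 (.nr 240 3129 (.lg 2 true 3 83 83 16 61930 7920) (.nx 254
  104033 (.nx 247 46340 (.lg 1 false 7 89 101 16 65728 55440) (.lg 1 true 7 101 103 16 43868
  720720)) (.nr 261 110219 (.lg 2 false 7 97 101 16 16436 55440) .out))) .out))) (.nx 270 1627 (.lg
  0 false 7 89 89 16 0 55440) .out)) (.nr 307 129 (.nx 278 1664512 (.lg 0 true 7 73 73 16 0 11088)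
  (.nr 306 65 (.lg 0 true 28 79 83 16 0 11088) .out)) .out)))) .out) .out) (.nx 372 1664512 (.nr
  371 623489 (.nx 313 177 (.nx 312 176 (.nr 311 103 (.lg 0 true 1 31 31 11 0 7920) (.l1 .sk)) (.l1
  .sk)) (.nr 363 131073 (.nx 326 35390 (.lg 0 false 13 97 103 19 0 720720) (.nx 355 524289 (.nr 333
  1621 (.lg 0 true 7 89 89 13 0 55440) (.nx 354 416129 (.nx 340 65537 (.lg 1 false 7 97 101 13
  57441 55440) (.nr 353 110219 (.lg 2 false 13 97 103 19 26090 720720) .out)) .out)) (.nr 362 65
  (.lg 0 true 7 73 73 13 0 55440) .out))) (.nx 370 1292 (.lg 0 false 7 83 89 13 0 55440) .out)))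
  .out) .out)) (.na 423 12 (.nx 422 1664512 (.nr 421 623489 (.nx 376 177 (.nx 375 176 (.nr 374 112
  (.lg 0 true 1 31 31 9 0 7920) (.l1 .sk)) (.l1 .sk)) (.nr 413 131073 (.nx 389 65537 (.lg 0 false
  13 101 103 16 0 720720) (.nr 412 110219 (.nx 404 524289 (.nr 396 1621 (.lg 0 true 7 83 83 16 0
  11088) (.nx 403 416129 (.lg 2 false 7 97 97 16 26090 55440) .out)) (.nr 411 65 (.lg 0 true 7 67
  67 9 0 11088) .out)) .out)) (.nx 420 1292 (.lg 0 false 7 79 79 16 0 11088) .out))) .out) .out)
  (.nx 474 1664512 (.nr 473 623489 (.nx 426 177 (.nx 425 176 (.nr 424 141 (.lg 0 false 1 37 37 13 0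
  1584) (.l1 .sk)) (.l1 .sk)) (.nr 462 110219 (.nx 433 31860 (.lg 0 false 7 97 101 23 0 55440) (.nr
  446 1621 (.nx 440 524289 (.lg 0 true 7 83 89 23 0 55440) (.nr 445 65 (.lg 0 true 5 71 73 19 0
  7920) .out)) (.nx 461 416129 (.nx 453 65537 (.lg 1 false 7 89 103 23 53667 55440) (.nr 460 92683
  (.lg 2 false 7 89 103 23 22591 55440) .out)) .out))) (.nx 472 10323 (.nx 469 1292 (.lg 0 false 7
  83 97 23 0 55440) (.nr 471 155873 (.lg 0 false 2 89 97 13 0 7920) .out)) .out))) .out) .out))))
  (.na 620 20 (.na 575 17 (.na 533 16 (.nx 532 1664512 (.nr 531 623489 (.nr 476 8 .s1 (.nx 478 176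
  (.nr 477 150 (.lg 0 true 1 37 37 16 0 7920) (.l1 .sk)) (.nx 479 177 (.l1 .sk) (.nx 490 15489 (.nr
  486 155873 (.lg 0 false 7 89 97 17 0 55440) (.nx 489 1292 (.lg 0 false 3 89 89 16 0 7920) .out))
  (.nr 530 110219 (.nr 522 77937 (.nr 511 46342 (.nr 503 829 (.nx 497 524289 (.lg 0 true 7 79 83 17
  0 55440) (.nr 502 65 (.lg 0 true 5 71 73 17 0 7920) .out)) (.nx 510 416129 (.lg 2 false 7 83 83
  17 46517 55440) .out)) (.nx 521 208065 (.nx 518 131073 (.lg 0 true 7 97 107 17 0 720720) (.nr 520
  55110 (.lg 0 true 2 97 97 16 0 7920) .out)) .out)) (.nx 529 82572 (.lg 0 true 7 97 103 17 0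
  720720) .out)) .out))))) .out) .out) (.nx 574 1664512 (.nr 573 1048577 (.nr 534 9 .s1 (.nx 554
  31860 (.nx 536 176 (.nr 535 160 (.lg 0 true 1 37 37 11 0 7920) (.l1 .sk)) (.nx 537 177 (.l1 .sk)
  (.nx 538 257 (.l1 (.ls 89 37 2173)) (.nr 553 623489 (.nr 545 131073 (.lg 0 false 7 89 101 19 0
  55440) (.nx 552 10323 (.nr 548 220437 (.lg 0 false 3 89 97 13 0 7920) (.nx 551 1627 (.lg 0 false
  3 83 89 13 0 7920) .out)) .out)) .out)))) (.nr 572 110219 (.nr 569 92683 (.nx 565 524289 (.nr 557
  829 (.lg 0 true 3 79 79 13 0 1584) (.nx 564 416129 (.lg 2 false 7 97 103 19 45142 55440) .out))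
  (.nr 568 129 (.lg 0 true 3 73 73 13 0 1584) .out)) (.nx 571 65537 (.lg 0 true 2 89 97 13 0 7920)
  .out)) .out))) .out) .out)) (.na 576 18 .ne (.nx 619 1664512 (.nr 618 1048577 (.nr 577 13 .s1
  (.nx 601 41287 (.nx 579 176 (.nr 578 188 (.lg 0 false 1 29 29 13 0 7920) (.l1 .sk)) (.nx 580 177
  (.l1 .sk) (.nx 581 257 (.l1 (.ls 83 43 1931)) (.nr 600 623489 (.nr 588 92683 (.lg 0 false 7 89 97
  19 0 55440) (.nx 599 13005 (.nr 593 220437 (.lg 0 false 5 83 89 19 0 7920) (.nx 598 1627 (.lg 0
  false 5 79 79 19 0 7920) .out)) .out)) .out)))) (.nr 617 77937 (.nx 609 262145 (.nr 604 1854 (.lg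
  0 true 3 79 79 13 0 1584) (.lg 2 false 5 89 97 19 29303 55440)) (.nr 616 217 (.lg 0 true 7 71 73
  19 0 11088) .out)) .out))) .out) .out))) (.na 687 23 (.na 654 22 (.nx 653 1664512 (.nr 652
  1048577 (.nr 621 15 .s1 (.nx 623 176 (.nr 622 207 (.lg 0 true 1 37 37 13 0 7920) (.l1 .sk)) (.nx
  624 177 (.l1 .sk) (.nx 648 262145 (.nx 641 41287 (.nx 625 257 (.l1 (.ls 89 41 1739)) (.nr 640
  623489 (.nr 632 92683 (.lg 0 false 7 89 101 23 0 55440) (.nx 639 13005 (.nr 635 220437 (.lg 0
  false 3 89 101 19 0 7920) (.nx 638 1627 (.lg 0 false 3 83 89 19 0 7920) .out)) .out)) .out)) (.nr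
  647 77937 (.nr 644 1854 (.lg 0 true 3 83 83 19 0 7920) (.lg 2 false 3 101 103 19 29303 720720))
  .out)) (.nr 651 217 (.lg 0 true 3 79 79 19 0 7920) .out))))) .out) .out) (.nx 686 1664512 (.nr
  685 1048577 (.nr 655 18 .s1 (.nx 658 177 (.nx 657 176 (.nr 656 216 (.l1 (.ls 19 41 1410)) (.l1
  .sk)) (.l1 .sk)) (.nx 669 25288 (.nx 661 647 (.nx 659 257 (.l1 (.ls 73 41 1581)) (.nr 660 623489
  (.l1 (.ls 73 53 16028)) .out)) (.nr 668 370729 (.lg 0 false 7 97 97 17 0 55440) .out)) (.nr 684
  92683 (.nr 676 634 (.lg 0 true 7 71 71 17 0 11088) (.nx 683 262145 (.lg 2 false 7 89 89 17 56874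
  55440) .out)) .out)))) .out) .out)) (.na 718 24 (.nx 717 1664512 (.nr 716 1048577 (.nr 688 19 .s1
  (.nx 692 257 (.nx 690 176 (.nr 689 226 (.lg 0 true 1 29 29 11 0 1584) (.l1 .sk)) (.nx 691 177
  (.l1 .sk) (.l1 (.ls 83 31 1512)))) (.nr 715 311745 (.nx 699 20644 (.lg 0 false 7 97 101 16 0
  55440) (.nr 714 77937 (.nr 706 513 (.lg 0 true 7 79 79 16 0 11088) (.nx 713 165142 (.lg 2 false 7
  97 101 16 58606 55440) .out)) .out)) .out))) .out) .out) (.nx 746 1664512 (.nr 745 1048577 (.nr
  719 21 .s1 (.nx 722 177 (.nx 721 176 (.nr 720 235 (.lg 0 false 1 37 37 13 0 7920) (.l1 .sk)) (.l1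
  .sk)) (.nx 741 208065 (.nx 723 257 (.l1 (.ls 89 41 1449)) (.nr 740 311745 (.nr 732 65537 (.nx 730
  165142 (.lg 0 true 7 97 97 29 0 55440) (.nr 731 513 (.lg 0 true 1 71 71 13 0 1584) .out)) (.nx
  739 41287 (.nx 737 20644 (.nr 734 110219 (.lg 0 false 2 89 97 19 0 7920) (.nx 736 8193 (.lg 0
  false 2 97 97 19 0 7920) .out)) (.nr 738 77937 (.lg 0 false 1 89 89 13 0 7920) .out)) .out))
  .out)) (.nr 744 217 (.lg 0 true 3 73 73 23 0 1584) .out)))) .out) .out)))))

def T34_2 : Ph :=
  (.na 281 178 (.na 206 74 (.na 156 38 (.na 133 3 (.na 1 2 .ne (.nx 132 3329023 (.nr 131 623489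
  (.nx 4 68 (.nx 3 67 (.nr 2 16 (.lg 0 true 1 29 29 5 0 9648) (.l1 .sk)) (.l1 .sk)) (.nx 112
  1321124 (.nr 96 77937 (.nx 25 6501 (.nr 19 55110 (.lg 0 false 15 89 89 9 0 48240) (.nx 24 1292
  (.lg 0 false 5 83 83 9 0 16080) .out)) (.nr 95 65537 (.nr 60 257 (.lg 0 true 35 83 83 13 0
  112560) (.nx 94 165142 (.nx 75 20644 (.lg 1 false 15 89 97 9 22652 48240) (.nr 93 46342 (.nr 80
  1100 (.lg 2 false 5 79 79 9 21527 16080) (.lg 2 false 13 89 97 9 5046 41808)) .out)) .out))
  .out)) (.nx 111 205 (.lg 0 false 15 79 79 9 0 48240) .out)) (.nr 130 9 (.lg 0 true 18 71 71 9 0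
  9648) .out))) .out) .out)) (.na 134 34 .ne (.nx 155 1321124 (.nr 154 370729 (.nr 135 34 .s1 (.nr
  144 13779 (.nx 136 2245 (.l1 (.ls 59 67 148239)) (.nx 140 82572 (.nx 137 3404 (.l1 (.ls 53 71
  192567)) (.lg 0 false 3 79 79 13 0 9648)) (.nr 143 217 (.lg 0 true 3 71 71 13 0 9648) .out)))
  (.nx 146 68 (.nx 145 67 (.l1 .sk) (.l1 .sk)) (.nx 153 20644 (.nr 149 77937 (.lg 0 true 3 83 83 13
  0 48240) (.nx 152 6503 (.lg 0 false 3 89 89 13 0 48240) .out)) .out)))) .out) .out))) (.na 190 58
  (.na 175 46 (.nx 174 1321124 (.nr 173 370729 (.nr 157 38 .s1 (.nx 165 8193 (.nx 159 67 (.nr 158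
  268 (.l1 (.ls 16 17 121)) (.l1 .sk)) (.nx 160 68 (.l1 .sk) (.lg 0 false 5 83 83 17 0 16080)))
  (.nr 172 55110 (.nr 168 217 (.lg 0 true 3 61 61 13 0 9648) (.nx 171 82572 (.lg 1 true 3 79 79 13
  15117 9648) .out)) .out))) .out) .out) (.nx 189 1321124 (.nr 188 311745 (.nr 176 46 .s1 (.nx 182
  10323 (.nx 178 67 (.nr 177 337 (.l1 (.ls 16 19 100)) (.l1 .sk)) (.nx 179 68 (.l1 .sk) (.lg 0
  false 3 83 83 13 0 9648))) (.nr 187 23172 (.nr 185 337 (.lg 0 true 3 71 71 13 0 9648) (.nx 186
  82572 (.lg 2 true 1 73 73 13 8209 16080) .out)) .out))) .out) .out)) (.na 205 64 (.nx 204 1321124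
  (.nr 203 311745 (.nr 191 58 .s1 (.nx 194 68 (.nx 193 67 (.nr 192 372 (.l1 (.ls 16 19 80)) (.l1
  .sk)) (.l1 .sk)) (.nx 197 10323 (.lg 0 false 3 79 79 19 0 9648) (.nr 202 23172 (.nr 200 372 (.lg
  0 true 3 61 61 19 0 9648) (.nx 201 82572 (.lg 2 true 1 71 71 13 7436 3216) .out)) .out)))) .out)
  .out) .ne))) (.na 246 128 (.na 222 94 (.na 221 91 (.nx 220 1321124 (.nr 219 524289 (.nr 207 74
  .s1 (.nx 213 8193 (.nx 209 67 (.nr 208 529 (.l1 (.ls 16 19 63)) (.l1 .sk)) (.nx 210 68 (.l1 .sk)
  (.lg 0 false 3 79 79 19 0 9648))) (.nr 218 8193 (.nr 216 529 (.lg 0 true 3 61 61 19 0 9648) (.nx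
  217 82572 (.lg 2 true 1 53 53 13 5230 3216) .out)) .out))) .out) .out) .ne) (.na 235 118 (.nx 234
  1321124 (.nr 233 524289 (.nr 223 94 .s1 (.nx 229 8193 (.nx 225 67 (.nr 224 686 (.l1 (.ls 16 19
  50)) (.l1 .sk)) (.nx 226 68 (.l1 .sk) (.lg 0 false 3 79 79 19 0 9648))) (.nr 232 8193 (.nr 230
  513 (.lg 2 false 1 59 59 17 470827 3216) (.nx 231 82572 (.lg 2 false 1 47 47 17 5393 3216) .out))
  .out))) .out) .out) (.nx 245 1321124 (.nr 244 524289 (.nr 236 118 .s1 (.nx 240 8193 (.nx 238 67
  (.nr 237 744 (.l1 (.ls 16 17 41)) (.l1 .sk)) (.nx 239 68 (.l1 .sk) (.lg 0 true 1 79 79 19 0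
  3216))) (.nr 243 8193 (.nr 241 513 (.lg 2 false 1 59 59 19 375065 3216) (.nx 242 82572 (.lg 2
  true 1 43 43 19 5393 3216) .out)) .out))) .out) .out))) (.na 257 142 (.na 247 134 .ne (.nx 256
  660563 (.nr 255 1048577 (.nr 248 134 .s1 (.nx 249 205 (.l1 (.ls 73 29 316)) (.nr 254 524289 (.nr
  251 8193 (.lg 0 false 2 71 71 19 0 16080) (.nx 253 6503 (.lg 0 true 2 71 71 19 0 16080) .out))
  .out))) .out) .out)) (.na 265 146 (.nx 264 660563 (.nr 263 1048577 (.nr 258 142 .s1 (.nx 259 205
  (.l1 (.ls 59 29 298)) (.nr 262 524289 (.nr 260 8193 (.lg 0 false 1 79 79 19 0 3216) (.nx 261 6503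
  (.lg 0 true 1 79 79 19 0 9648) .out)) .out))) .out) .out) (.na 273 166 (.nx 272 660563 (.nr 271
  1048577 (.nr 266 146 .s1 (.nx 267 205 (.l1 (.ls 71 29 290)) (.nr 270 524289 (.nr 268 8193 (.lg 0
  false 1 83 83 19 0 48240) (.nx 269 6503 (.lg 0 true 1 79 79 19 0 3216) .out)) .out))) .out) .out)
  (.nx 280 660563 (.nr 279 1048577 (.nr 274 166 .s1 (.nx 275 205 (.l1 (.ls 61 29 256)) (.nr 278
  524289 (.nr 276 8193 (.lg 0 false 1 73 73 19 0 16080) (.nx 277 6503 (.lg 0 true 1 71 71 19 0
  3216) .out)) .out))) .out) .out)))))) (.na 1988 1449 (.na 313 256 (.na 297 214 (.na 289 206 (.nx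
  288 660563 (.nr 287 1048577 (.nr 282 178 .s1 (.nx 283 205 (.l1 (.ls 59 29 239)) (.nr 286 524289
  (.nr 284 8193 (.lg 0 false 1 73 73 19 0 9648) (.nx 285 6503 (.lg 0 true 1 71 71 19 0 9648) .out))
  .out))) .out) .out) (.nx 296 660563 (.nr 295 1048577 (.nr 290 206 .s1 (.nx 291 205 (.l1 (.ls 59
  23 207)) (.nr 294 524289 (.nr 292 8193 (.lg 0 false 1 71 71 23 0 16080) (.nx 293 6503 (.lg 0 true
  1 71 71 23 0 16080) .out)) .out))) .out) .out)) (.na 305 254 (.nx 304 660563 (.nr 303 1048577
  (.nr 298 214 .s1 (.nx 299 205 (.l1 (.ls 61 23 199)) (.nr 302 524289 (.nr 300 8193 (.lg 0 false 1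
  71 71 23 0 3216) (.nx 301 6503 (.lg 0 true 1 71 71 23 0 48240) .out)) .out))) .out) .out) (.nx
  312 660563 (.nr 311 1048577 (.nr 306 254 .s1 (.nx 307 205 (.l1 (.ls 61 23 168)) (.nr 310 524289
  (.nr 308 8193 (.lg 0 false 1 71 71 23 0 3216) (.nx 309 6503 (.lg 0 true 1 71 71 23 0 48240)
  .out)) .out))) .out) .out))) (.na 828 512 (.na 314 257 .ne (.nx 827 82572 (.nr 826 1048577 (.nr
  315 257 .s1 (.nx 570 5162 (.la (.ls 61 53 103684)) (.nr 825 16385 (.la (.lg 2 true 1 37 37 19
  10764)) .out))) .out) .out)) (.na 1258 725 (.nx 1257 82572 (.nr 1256 1048577 (.nr 829 512 .s1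
  (.nx 1042 5162 (.la (.ls 59 47 52046)) (.nr 1255 16385 (.la (.lg 2 true 1 29 29 23 7155)) .out)))
  .out) .out) (.na 1560 1024 (.nx 1559 3252 (.nr 1558 262145 (.nr 1259 725 .s1 (.la (.ls 43 43
  14589))) .out) .out) (.nx 1987 3252 (.nr 1986 262145 (.nr 1561 1024 .s1 (.la (.ls 43 41 10330)))
  .out) .out))))) (.na 5293 8192 (.na 3442 2897 (.na 2590 2048 (.nx 2589 1627 (.nr 2588 131073 (.nr
  1989 1449 .s1 (.la (.ls 43 31 1829))) .out) .out) (.nx 3441 1627 (.nr 3440 131073 (.nr 2591 2048
  .s1 (.la (.ls 43 31 1295))) .out) .out)) (.na 4644 4096 (.nx 4643 647 (.nr 4642 65537 (.nr 3443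
  2897 .s1 (.la (.ls 37 31 1025))) .out) .out) (.nx 5292 647 (.nr 5291 65537 (.nr 4645 4096 .s1
  (.lx (.lp 37 31 2049))) .out) .out))) (.na 6591 32768 (.na 5942 16384 (.nx 5941 647 (.nr 5940
  65537 (.nr 5294 8192 .s1 (.lx (.lp 31 37 4097))) .out) .out) (.nx 6590 647 (.nr 6589 131073 (.nr
  5943 16384 .s1 (.lx (.lp 31 41 8193))) .out) .out)) (.na 6917 65536 (.nx 6916 324 (.nr 6915
  131073 (.nr 6592 32768 .s1 (.lx (.lp 16 0 16385))) .out) .out) (.na 7243 131073 (.nx 7242 324
  (.nr 7241 262145 (.nr 6918 65536 .s1 (.lx (.lp 16 0 32769))) .out) .out) .out))))))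

theorem c34 :
    OkQ ckI L10 236 4 10 0 34359738368 1 1099511627776 ∧
    OkQ ckI L8 176 6 25 0 34359738368 1 1099511627776 ∧
    OkQ ckI L6 67 1 1099511627776 0 34359738368 1 1099511627776 := by
  refine ⟨?_, ?_, ?_⟩
  · refine fin 4248 857 T34_0 ?_
    refine jn 5 (by decide +kernel) ?_
    refine jn 7 (by decide +kernel) ?_
    refine jn 9 (by decide +kernel) ?_
    refine jn 11 (by decide +kernel) ?_
    refine jn 13 (by decide +kernel) ?_
    refine jn 15 (by decide +kernel) ?_
    refine jn 17 (by decide +kernel) ?_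
    refine jn 19 (by decide +kernel) ?_
    refine jn 21 (by decide +kernel) ?_
    refine jn 23 (by decide +kernel) ?_
    refine jn 25 (by decide +kernel) ?_
    refine jn 27 (by decide +kernel) ?_
    refine jn 29 (by decide +kernel) ?_
    refine jn 31 (by decide +kernel) ?_
    refine jn 33 (by decide +kernel) ?_
    refine jn 35 (by decide +kernel) ?_
    refine jn 39 (by decide +kernel) ?_
    refine jn 62 (by decide +kernel) ?_
    refine jn 65 (by decide +kernel) ?_
    refine jn 68 (by decide +kernel) ?_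
    refine jn 71 (by decide +kernel) ?_
    refine jn 74 (by decide +kernel) ?_
    refine jn 84 (by decide +kernel) ?_
    refine jn 92 (by decide +kernel) ?_
    refine jn 101 (by decide +kernel) ?_
    refine jn 107 (by decide +kernel) ?_
    refine jn 111 (by decide +kernel) ?_
    refine jn 115 (by decide +kernel) ?_
    refine jn 120 (by decide +kernel) ?_
    refine jn 123 (by decide +kernel) ?_
    refine jn 127 (by decide +kernel) ?_
    refine jn 131 (by decide +kernel) ?_
    refine jn 134 (by decide +kernel) ?_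
    refine jn 138 (by decide +kernel) ?_
    refine jn 144 (by decide +kernel) ?_
    refine jn 151 (by decide +kernel) ?_
    refine jn 155 (by decide +kernel) ?_
    refine jn 158 (by decide +kernel) ?_
    refine jn 168 (by decide +kernel) ?_
    refine jn 175 (by decide +kernel) ?_
    refine jn 186 (by decide +kernel) ?_
    refine jn 188 (by decide +kernel) ?_
    refine jn 197 (by decide +kernel) ?_
    refine jn 199 (by decide +kernel) ?_
    refine jn 223 (by decide +kernel) ?_
    refine jn 249 (by decide +kernel) ?_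
    refine jn 275 (by decide +kernel) ?_
    refine jn 283 (by decide +kernel) ?_
    refine jn 285 (by decide +kernel) ?_
    refine jn 287 (by decide +kernel) ?_
    refine jn 290 (by decide +kernel) ?_
    refine jn 292 (by decide +kernel) ?_
    refine jn 294 (by decide +kernel) ?_
    refine jn 297 (by decide +kernel) ?_
    refine jn 299 (by decide +kernel) ?_
    refine jn 302 (by decide +kernel) ?_
    refine jn 313 (by decide +kernel) ?_
    refine jn 322 (by decide +kernel) ?_
    refine jn 325 (by decide +kernel) ?_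
    refine jn 328 (by decide +kernel) ?_
    refine jn 331 (by decide +kernel) ?_
    refine jn 333 (by decide +kernel) ?_
    refine jn 340 (by decide +kernel) ?_
    refine jn 351 (by decide +kernel) ?_
    refine jn 362 (by decide +kernel) ?_
    refine jn 374 (by decide +kernel) ?_
    refine jn 382 (by decide +kernel) ?_
    refine jn 386 (by decide +kernel) ?_
    refine jn 393 (by decide +kernel) ?_
    refine jn 397 (by decide +kernel) ?_
    refine jn 403 (by decide +kernel) ?_
    refine jn 408 (by decide +kernel) ?_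
    refine jn 419 (by decide +kernel) ?_
    refine jn 427 (by decide +kernel) ?_
    refine jn 435 (by decide +kernel) ?_
    refine jn 442 (by decide +kernel) ?_
    refine jn 453 (by decide +kernel) ?_
    refine jn 469 (by decide +kernel) ?_
    refine jn 502 (by decide +kernel) ?_
    refine jn 509 (by decide +kernel) ?_
    refine jn 511 (by decide +kernel) ?_
    refine jn 514 (by decide +kernel) ?_
    refine jn 516 (by decide +kernel) ?_
    refine jn 518 (by decide +kernel) ?_
    refine jn 521 (by decide +kernel) ?_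
    refine jn 522 (by decide +kernel) ?_
    refine jn 533 (by decide +kernel) ?_
    refine jn 546 (by decide +kernel) ?_
    refine jn 552 (by decide +kernel) ?_
    refine jn 558 (by decide +kernel) ?_
    refine jn 560 (by decide +kernel) ?_
    refine jn 568 (by decide +kernel) ?_
    refine jn 581 (by decide +kernel) ?_
    refine jn 595 (by decide +kernel) ?_
    refine jn 609 (by decide +kernel) ?_
    refine jn 622 (by decide +kernel) ?_
    refine jn 635 (by decide +kernel) ?_
    refine jn 647 (by decide +kernel) ?_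
    refine jn 690 (by decide +kernel) ?_
    refine jn 700 (by decide +kernel) ?_
    refine jn 703 (by decide +kernel) ?_
    refine jn 706 (by decide +kernel) ?_
    refine jn 708 (by decide +kernel) ?_
    refine jn 719 (by decide +kernel) ?_
    refine jn 724 (by decide +kernel) ?_
    refine jn 727 (by decide +kernel) ?_
    refine jn 738 (by decide +kernel) ?_
    refine jn 749 (by decide +kernel) ?_
    refine jn 761 (by decide +kernel) ?_
    refine jn 773 (by decide +kernel) ?_
    refine jn 780 (by decide +kernel) ?_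
    refine jn 791 (by decide +kernel) ?_
    refine jn 802 (by decide +kernel) ?_
    refine jn 838 (by decide +kernel) ?_
    refine jn 854 (by decide +kernel) ?_
    exact je (by decide +kernel)
  · refine fin 1584 747 T34_1 ?_
    refine jn 4 (by decide +kernel) ?_
    refine jn 6 (by decide +kernel) ?_
    refine jn 8 (by decide +kernel) ?_
    refine jn 10 (by decide +kernel) ?_
    refine jn 12 (by decide +kernel) ?_
    refine jn 14 (by decide +kernel) ?_
    refine jn 16 (by decide +kernel) ?_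
    refine jn 24 (by decide +kernel) ?_
    refine jn 28 (by decide +kernel) ?_
    refine jn 31 (by decide +kernel) ?_
    refine jn 34 (by decide +kernel) ?_
    refine jn 37 (by decide +kernel) ?_
    refine jn 38 (by decide +kernel) ?_
    refine jn 73 (by decide +kernel) ?_
    refine jn 80 (by decide +kernel) ?_
    refine jn 89 (by decide +kernel) ?_
    refine jn 96 (by decide +kernel) ?_
    refine jn 104 (by decide +kernel) ?_
    refine jn 111 (by decide +kernel) ?_
    refine jn 119 (by decide +kernel) ?_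
    refine jn 126 (by decide +kernel) ?_
    refine jn 138 (by decide +kernel) ?_
    refine jn 140 (by decide +kernel) ?_
    refine jn 142 (by decide +kernel) ?_
    refine jn 144 (by decide +kernel) ?_
    refine jn 146 (by decide +kernel) ?_
    refine jn 148 (by decide +kernel) ?_
    refine jn 149 (by decide +kernel) ?_
    refine jn 152 (by decide +kernel) ?_
    refine jn 155 (by decide +kernel) ?_
    refine jn 156 (by decide +kernel) ?_
    refine jn 163 (by decide +kernel) ?_
    refine jn 189 (by decide +kernel) ?_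
    refine jn 198 (by decide +kernel) ?_
    refine jn 201 (by decide +kernel) ?_
    refine jn 208 (by decide +kernel) ?_
    refine jn 221 (by decide +kernel) ?_
    refine jn 225 (by decide +kernel) ?_
    refine jn 227 (by decide +kernel) ?_
    refine jn 228 (by decide +kernel) ?_
    refine jn 230 (by decide +kernel) ?_
    refine jn 234 (by decide +kernel) ?_
    refine jn 237 (by decide +kernel) ?_
    refine jn 247 (by decide +kernel) ?_
    refine jn 254 (by decide +kernel) ?_
    refine jn 261 (by decide +kernel) ?_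
    refine jn 271 (by decide +kernel) ?_
    refine jn 278 (by decide +kernel) ?_
    refine jn 306 (by decide +kernel) ?_
    refine jn 316 (by decide +kernel) ?_
    refine jn 320 (by decide +kernel) ?_
    refine jn 324 (by decide +kernel) ?_
    refine jn 326 (by decide +kernel) ?_
    refine jn 330 (by decide +kernel) ?_
    refine jn 333 (by decide +kernel) ?_
    refine jn 340 (by decide +kernel) ?_
    refine jn 351 (by decide +kernel) ?_
    refine jn 362 (by decide +kernel) ?_
    refine jn 376 (by decide +kernel) ?_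
    refine jn 389 (by decide +kernel) ?_
    refine jn 403 (by decide +kernel) ?_
    refine jn 420 (by decide +kernel) ?_
    refine jn 426 (by decide +kernel) ?_
    refine jn 427 (by decide +kernel) ?_
    refine jn 428 (by decide +kernel) ?_
    refine jn 429 (by decide +kernel) ?_
    refine jn 430 (by decide +kernel) ?_
    refine jn 431 (by decide +kernel) ?_
    refine jn 432 (by decide +kernel) ?_
    refine jn 433 (by decide +kernel) ?_
    refine jn 434 (by decide +kernel) ?_
    refine jn 435 (by decide +kernel) ?_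
    refine jn 436 (by decide +kernel) ?_
    refine jn 437 (by decide +kernel) ?_
    refine jn 438 (by decide +kernel) ?_
    refine jn 439 (by decide +kernel) ?_
    refine jn 440 (by decide +kernel) ?_
    refine jn 443 (by decide +kernel) ?_
    refine jn 445 (by decide +kernel) ?_
    refine jn 451 (by decide +kernel) ?_
    refine jn 453 (by decide +kernel) ?_
    refine jn 456 (by decide +kernel) ?_
    refine jn 459 (by decide +kernel) ?_
    refine jn 462 (by decide +kernel) ?_
    refine jn 469 (by decide +kernel) ?_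
    refine jn 479 (by decide +kernel) ?_
    refine jn 480 (by decide +kernel) ?_
    refine jn 481 (by decide +kernel) ?_
    refine jn 482 (by decide +kernel) ?_
    refine jn 483 (by decide +kernel) ?_
    refine jn 484 (by decide +kernel) ?_
    refine jn 485 (by decide +kernel) ?_
    refine jn 486 (by decide +kernel) ?_
    refine jn 489 (by decide +kernel) ?_
    refine jn 490 (by decide +kernel) ?_
    refine jn 491 (by decide +kernel) ?_
    refine jn 492 (by decide +kernel) ?_
    refine jn 493 (by decide +kernel) ?_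
    refine jn 494 (by decide +kernel) ?_
    refine jn 495 (by decide +kernel) ?_
    refine jn 496 (by decide +kernel) ?_
    refine jn 497 (by decide +kernel) ?_
    refine jn 500 (by decide +kernel) ?_
    refine jn 503 (by decide +kernel) ?_
    refine jn 504 (by decide +kernel) ?_
    refine jn 505 (by decide +kernel) ?_
    refine jn 506 (by decide +kernel) ?_
    refine jn 507 (by decide +kernel) ?_
    refine jn 508 (by decide +kernel) ?_
    refine jn 509 (by decide +kernel) ?_
    refine jn 510 (by decide +kernel) ?_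
    refine jn 517 (by decide +kernel) ?_
    refine jn 520 (by decide +kernel) ?_
    refine jn 528 (by decide +kernel) ?_
    refine jn 537 (by decide +kernel) ?_
    refine jn 538 (by decide +kernel) ?_
    refine jn 539 (by decide +kernel) ?_
    refine jn 540 (by decide +kernel) ?_
    refine jn 541 (by decide +kernel) ?_
    refine jn 542 (by decide +kernel) ?_
    refine jn 543 (by decide +kernel) ?_
    refine jn 544 (by decide +kernel) ?_
    refine jn 545 (by decide +kernel) ?_
    refine jn 551 (by decide +kernel) ?_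
    refine jn 554 (by decide +kernel) ?_
    refine jn 555 (by decide +kernel) ?_
    refine jn 556 (by decide +kernel) ?_
    refine jn 557 (by decide +kernel) ?_
    refine jn 560 (by decide +kernel) ?_
    refine jn 563 (by decide +kernel) ?_
    refine jn 565 (by decide +kernel) ?_
    refine jn 568 (by decide +kernel) ?_
    refine jn 580 (by decide +kernel) ?_
    refine jn 584 (by decide +kernel) ?_
    refine jn 588 (by decide +kernel) ?_
    refine jn 598 (by decide +kernel) ?_
    refine jn 604 (by decide +kernel) ?_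
    refine jn 609 (by decide +kernel) ?_
    refine jn 616 (by decide +kernel) ?_
    refine jn 625 (by decide +kernel) ?_
    refine jn 626 (by decide +kernel) ?_
    refine jn 627 (by decide +kernel) ?_
    refine jn 628 (by decide +kernel) ?_
    refine jn 629 (by decide +kernel) ?_
    refine jn 630 (by decide +kernel) ?_
    refine jn 631 (by decide +kernel) ?_
    refine jn 632 (by decide +kernel) ?_
    refine jn 638 (by decide +kernel) ?_
    refine jn 642 (by decide +kernel) ?_
    refine jn 643 (by decide +kernel) ?_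
    refine jn 644 (by decide +kernel) ?_
    refine jn 647 (by decide +kernel) ?_
    refine jn 650 (by decide +kernel) ?_
    refine jn 656 (by decide +kernel) ?_
    refine jn 668 (by decide +kernel) ?_
    refine jn 683 (by decide +kernel) ?_
    refine jn 692 (by decide +kernel) ?_
    refine jn 699 (by decide +kernel) ?_
    refine jn 706 (by decide +kernel) ?_
    refine jn 713 (by decide +kernel) ?_
    refine jn 723 (by decide +kernel) ?_
    refine jn 724 (by decide +kernel) ?_
    refine jn 725 (by decide +kernel) ?_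
    refine jn 726 (by decide +kernel) ?_
    refine jn 727 (by decide +kernel) ?_
    refine jn 728 (by decide +kernel) ?_
    refine jn 729 (by decide +kernel) ?_
    refine jn 730 (by decide +kernel) ?_
    refine jn 736 (by decide +kernel) ?_
    refine jn 743 (by decide +kernel) ?_
    refine jn 744 (by decide +kernel) ?_
    exact je (by decide +kernel)
  · refine fin 1608 7244 T34_2 ?_
    refine jn 7 (by decide +kernel) ?_
    refine jn 10 (by decide +kernel) ?_
    refine jn 12 (by decide +kernel) ?_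
    refine jn 15 (by decide +kernel) ?_
    refine jn 16 (by decide +kernel) ?_
    refine jn 19 (by decide +kernel) ?_
    refine jn 31 (by decide +kernel) ?_
    refine jn 39 (by decide +kernel) ?_
    refine jn 46 (by decide +kernel) ?_
    refine jn 56 (by decide +kernel) ?_
    refine jn 60 (by decide +kernel) ?_
    refine jn 75 (by decide +kernel) ?_
    refine jn 80 (by decide +kernel) ?_
    refine jn 93 (by decide +kernel) ?_
    refine jn 130 (by decide +kernel) ?_
    refine jn 135 (by decide +kernel) ?_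
    refine jn 136 (by decide +kernel) ?_
    refine jn 137 (by decide +kernel) ?_
    refine jn 138 (by decide +kernel) ?_
    refine jn 139 (by decide +kernel) ?_
    refine jn 140 (by decide +kernel) ?_
    refine jn 146 (by decide +kernel) ?_
    refine jn 147 (by decide +kernel) ?_
    refine jn 148 (by decide +kernel) ?_
    refine jn 152 (by decide +kernel) ?_
    refine jn 165 (by decide +kernel) ?_
    refine jn 171 (by decide +kernel) ?_
    refine jn 185 (by decide +kernel) ?_
    refine jn 197 (by decide +kernel) ?_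
    refine jn 213 (by decide +kernel) ?_
    refine jn 229 (by decide +kernel) ?_
    refine jn 240 (by decide +kernel) ?_
    refine jn 253 (by decide +kernel) ?_
    refine jn 269 (by decide +kernel) ?_
    refine jn 285 (by decide +kernel) ?_
    refine jn 301 (by decide +kernel) ?_
    refine jn 356 (by decide +kernel) ?_
    refine jn 392 (by decide +kernel) ?_
    refine jn 456 (by decide +kernel) ?_
    refine jn 575 (by decide +kernel) ?_
    refine jn 659 (by decide +kernel) ?_
    refine jn 767 (by decide +kernel) ?_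
    refine jn 883 (by decide +kernel) ?_
    refine jn 990 (by decide +kernel) ?_
    refine jn 1096 (by decide +kernel) ?_
    refine jn 1214 (by decide +kernel) ?_
    refine jn 1408 (by decide +kernel) ?_
    refine jn 1583 (by decide +kernel) ?_
    refine jn 1801 (by decide +kernel) ?_
    refine jn 2138 (by decide +kernel) ?_
    refine jn 2474 (by decide +kernel) ?_
    refine jn 2821 (by decide +kernel) ?_
    refine jn 3267 (by decide +kernel) ?_
    refine jn 3764 (by decide +kernel) ?_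
    refine jn 4432 (by decide +kernel) ?_
    refine jn 4928 (by decide +kernel) ?_
    refine jn 5124 (by decide +kernel) ?_
    refine jn 5254 (by decide +kernel) ?_
    refine jn 5640 (by decide +kernel) ?_
    refine jn 5864 (by decide +kernel) ?_
    refine jn 6293 (by decide +kernel) ?_
    refine jn 6572 (by decide +kernel) ?_
    exact je (by decide +kernel)

end Pool.Agent.MP_2339ce_nt.NR
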