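import Pool.Agent.MP_2339ce_nt.Q2.NC.L6
import Pool.Agent.MP_2339ce_nt.Q2.NC.L9
import Pool.Agent.MP_2339ce_nt.Q2.CkI

/-! Block NR: runs. -/

set_option autoImplicit false
set_option maxRecDepth 100000

noncomputable section

namespace Pool.Agent.MP_2339ce_nt.NR

open Q2.Top

def T66_0 : Ph :=
  (.na 210 242 (.na 97 218 (.na 49 207 (.na 14 202 (.na 1 198 (.lg 0 false 1 0 0 16 0 24) (.na 2
  199 (.lg 0 false 1 0 0 16 0 24) (.nx 13 1048577 (.nr 12 1048577 (.nr 3 199 .s1 (.nx 5 183 (.nr 4
  1935 (.l1 (.ls 16 17 171)) (.l1 .sk)) (.nx 6 184 (.l1 .sk) (.nx 8 32769 (.lg 0 false 2 79 79 17 0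
  2928) (.nr 11 16385 (.nr 9 1025 (.lg 0 false 1 67 67 16 0 96624) (.nx 10 131073 (.lg 2 true 1 47
  47 16 11701 1464) .out)) .out))))) .out) .out))) (.na 26 204 (.nx 25 1048577 (.nr 24 1048577 (.nr
  15 202 .s1 (.nx 20 32769 (.nx 17 183 (.nr 16 1954 (.l1 (.ls 19 23 168)) (.l1 .sk)) (.nx 18 184
  (.l1 .sk) (.lg 0 false 2 83 83 23 0 2928))) (.nr 23 16385 (.nr 21 1025 (.lg 0 false 1 67 67 23 0
  43920) (.nx 22 131073 (.lg 2 true 1 47 47 23 11701 2928) .out)) .out))) .out) .out) (.na 37 206
  (.nx 36 1048577 (.nr 35 1048577 (.nr 27 204 .s1 (.nx 29 183 (.nr 28 1974 (.l1 (.ls 16 31 167))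
  (.l1 .sk)) (.nx 30 184 (.l1 .sk) (.nx 33 131073 (.nr 31 65537 (.lg 0 true 1 83 83 31 0 8784) (.nx
  32 16385 (.lg 0 false 1 83 83 31 0 8784) .out)) (.nr 34 1025 (.lg 0 true 1 67 67 31 0 8784)
  .out))))) .out) .out) (.nx 48 1048577 (.nr 47 1048577 (.nr 38 206 .s1 (.nx 41 184 (.nx 40 183
  (.nr 39 1983 (.l1 (.ls 17 23 165)) (.l1 .sk)) (.l1 .sk)) (.nx 43 32769 (.lg 0 false 2 79 79 23 0
  2928) (.nr 46 16385 (.nr 44 1025 (.lg 0 false 1 67 67 23 0 8784) (.nx 45 131073 (.lg 2 true 1 47
  47 23 11701 2928) .out)) .out)))) .out) .out)))) (.na 72 211 (.na 50 208 (.lg 0 false 1 0 0 16 0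
  24) (.na 61 209 (.nx 60 1048577 (.nr 59 1048577 (.nr 51 208 .s1 (.nx 53 183 (.nr 52 2002 (.l1
  (.ls 37 29 164)) (.l1 .sk)) (.nx 54 184 (.l1 .sk) (.nr 57 65537 (.nx 55 131073 (.lg 0 true 1 97
  101 31 0 6280560) (.nr 56 1025 (.lg 0 true 1 73 73 31 0 38064) .out)) (.nx 58 16385 (.lg 0 false
  1 101 101 31 0 6280560) .out))))) .out) .out) (.nx 71 1048577 (.nr 70 1048577 (.nr 62 209 .s1
  (.nx 68 131073 (.nx 64 183 (.nr 63 2022 (.l1 (.ls 17 17 163)) (.l1 .sk)) (.nx 65 184 (.l1 .sk)
  (.nr 66 65537 (.lg 0 true 1 83 83 17 0 16104) (.nx 67 16385 (.lg 0 false 1 83 83 17 0 16104)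
  .out)))) (.nr 69 1025 (.lg 0 true 1 67 67 17 0 16104) .out))) .out) .out))) (.na 84 213 (.na 73
  212 (.lg 0 false 1 0 0 16 0 24) (.nx 83 1048577 (.nr 82 1048577 (.nr 74 212 .s1 (.nx 76 183 (.nr
  75 2041 (.l1 (.ls 23 23 160)) (.l1 .sk)) (.nx 77 184 (.l1 .sk) (.nr 80 65537 (.nx 78 131073 (.lg
  0 true 1 83 83 23 0 2928) (.nr 79 1025 (.lg 0 true 1 67 67 23 0 2928) .out)) (.nx 81 16385 (.lg 0
  false 1 83 83 23 0 2928) .out))))) .out) .out)) (.na 96 216 (.nx 95 1048577 (.nr 94 1048577 (.nr
  85 213 .s1 (.nx 87 183 (.nr 86 2069 (.l1 (.ls 19 19 160)) (.l1 .sk)) (.nx 88 184 (.l1 .sk) (.nx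
  90 32769 (.lg 0 false 2 89 89 19 0 8784) (.nr 93 16385 (.nr 91 1025 (.lg 0 false 1 71 71 19 0
  43920) (.nx 92 131073 (.lg 2 true 1 47 47 19 11701 4392) .out)) .out))))) .out) .out) (.lg 0
  false 1 0 0 16 0 24))))) (.na 156 229 (.na 132 223 (.na 109 219 (.nx 108 1048577 (.nr 107 1048577
  (.nr 98 218 .s1 (.nx 101 184 (.nx 100 183 (.nr 99 2098 (.l1 (.ls 17 23 156)) (.l1 .sk)) (.l1
  .sk)) (.nx 103 32769 (.lg 0 false 2 79 79 23 0 2928) (.nr 106 16385 (.nr 104 1025 (.lg 0 false 1
  67 67 23 0 43920) (.nx 105 131073 (.lg 2 true 1 47 47 23 11701 43920) .out)) .out)))) .out) .out)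
  (.na 121 221 (.nx 120 1048577 (.nr 119 1048577 (.nr 110 219 .s1 (.nx 112 183 (.nr 111 2117 (.l1
  (.ls 16 19 155)) (.l1 .sk)) (.nx 113 184 (.l1 .sk) (.nx 115 32769 (.lg 0 false 2 83 83 19 0 8784)
  (.nr 118 16385 (.nr 116 1025 (.lg 0 true 1 53 53 19 0 4392) (.nx 117 131073 (.lg 2 true 1 43 43
  19 11701 4392) .out)) .out))))) .out) .out) (.nx 131 1048577 (.nr 130 1048577 (.nr 122 221 .s1
  (.nx 124 183 (.nr 123 2136 (.l1 (.ls 16 23 154)) (.l1 .sk)) (.nx 125 184 (.l1 .sk) (.nx 128
  131073 (.nr 126 65537 (.lg 0 true 1 83 83 23 0 19032) (.nx 127 16385 (.lg 0 false 1 83 83 23 0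
  19032) .out)) (.nr 129 1025 (.lg 0 true 1 67 67 23 0 19032) .out))))) .out) .out))) (.na 133 227
  (.lg 0 false 1 0 0 16 0 24) (.na 145 228 (.nx 144 1048577 (.nr 143 1048577 (.nr 134 227 .s1 (.nx
  139 32769 (.nx 136 183 (.nr 135 2184 (.l1 (.ls 37 17 150)) (.l1 .sk)) (.nx 137 184 (.l1 .sk) (.lg
  0 false 2 79 79 17 0 2928))) (.nr 142 16385 (.nr 140 1025 (.lg 0 false 1 67 67 17 0 43920) (.nx
  141 131073 (.lg 2 false 1 47 47 17 11701 1464) .out)) .out))) .out) .out) (.nx 155 1048577 (.nr
  154 1048577 (.nr 146 228 .s1 (.nx 152 131073 (.nx 148 183 (.nr 147 2194 (.l1 (.ls 17 31 149))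
  (.l1 .sk)) (.nx 149 184 (.l1 .sk) (.nr 150 65537 (.lg 0 false 1 89 89 37 0 43920) (.nx 151 16385
  (.lg 0 false 1 89 89 37 0 8784) .out)))) (.nr 153 1025 (.lg 0 true 1 71 71 37 0 8784) .out)))
  .out) .out)))) (.na 187 234 (.na 166 232 (.nx 165 1048577 (.nr 164 1048577 (.nr 157 229 .s1 (.nx
  162 32769 (.nx 159 183 (.nr 158 2223 (.l1 (.ls 16 17 149)) (.l1 .sk)) (.nx 160 184 (.l1 .sk) (.lg
  0 false 2 73 73 17 0 2928))) (.nr 163 16385 (.lg 0 false 1 73 73 17 0 1464) .out))) .out) .out)
  (.na 177 233 (.nx 176 1048577 (.nr 175 1048577 (.nr 167 232 .s1 (.nx 173 131073 (.nx 169 183 (.nr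
  168 2232 (.l1 (.ls 23 23 147)) (.l1 .sk)) (.nx 170 184 (.l1 .sk) (.nr 171 65537 (.lg 0 true 1 97
  101 23 0 483120) (.nx 172 16385 (.lg 0 false 1 97 97 23 0 2928) .out)))) (.nr 174 1025 (.lg 0
  true 1 73 73 23 0 2928) .out))) .out) .out) (.nx 186 1048577 (.nr 185 1048577 (.nr 178 233 .s1
  (.nx 183 32769 (.nx 180 183 (.nr 179 2242 (.l1 (.ls 17 17 146)) (.l1 .sk)) (.nx 181 184 (.l1 .sk)
  (.lg 0 false 2 79 79 17 0 2928))) (.nr 184 16385 (.lg 0 false 1 79 79 17 0 1464) .out))) .out)
  .out))) (.na 199 239 (.na 188 236 (.lg 0 false 1 0 0 16 0 24) (.nx 198 1048577 (.nr 197 1048577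
  (.nr 189 236 .s1 (.nx 195 131073 (.nx 191 183 (.nr 190 2290 (.l1 (.ls 19 23 144)) (.l1 .sk)) (.nx
  192 184 (.l1 .sk) (.nr 193 65537 (.lg 0 true 1 79 79 23 0 2928) (.nx 194 16385 (.lg 0 false 1 83
  83 23 0 2928) .out)))) (.nr 196 1025 (.lg 0 true 1 67 67 23 0 2928) .out))) .out) .out)) (.na 200
  241 (.lg 0 false 1 0 0 16 0 24) (.nx 209 1048577 (.nr 208 1048577 (.nr 201 241 .s1 (.nx 203 183
  (.nr 202 2318 (.l1 (.ls 16 17 141)) (.l1 .sk)) (.nx 204 184 (.l1 .sk) (.nx 206 32769 (.lg 0 false
  2 79 79 17 0 2928) (.nr 207 16385 (.lg 0 false 1 79 79 17 0 1464) .out))))) .out) .out)))))) (.na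
  3498 1449 (.na 269 254 (.na 235 247 (.na 222 243 (.nx 221 1048577 (.nr 220 1048577 (.nr 211 242
  .s1 (.nx 213 183 (.nr 212 2328 (.l1 (.ls 23 29 141)) (.l1 .sk)) (.nx 214 184 (.l1 .sk) (.nx 216
  32769 (.lg 0 false 2 83 83 29 0 32208) (.nr 219 16385 (.nr 217 1025 (.lg 0 false 1 67 67 29 0
  483120) (.nx 218 131073 (.lg 2 false 1 47 47 29 11701 32208) .out)) .out))))) .out) .out) (.na
  223 244 (.lg 0 false 1 0 0 16 0 24) (.nx 234 1048577 (.nr 233 1048577 (.nr 224 244 .s1 (.nx 227
  184 (.nx 226 183 (.nr 225 2366 (.l1 (.ls 16 23 140)) (.l1 .sk)) (.l1 .sk)) (.nx 229 32769 (.lg 0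
  false 2 73 73 23 0 2928) (.nr 232 16385 (.nr 230 1025 (.lg 0 false 1 53 53 23 0 2928) (.nx 231
  131073 (.lg 2 true 1 43 43 23 11701 2928) .out)) .out)))) .out) .out))) (.na 246 251 (.nx 245
  1048577 (.nr 244 1048577 (.nr 236 247 .s1 (.nx 242 131073 (.nx 238 183 (.nr 237 2405 (.l1 (.ls 17
  17 138)) (.l1 .sk)) (.nx 239 184 (.l1 .sk) (.nr 240 65537 (.lg 0 true 1 83 83 17 0 19032) (.nx
  241 16385 (.lg 0 false 1 83 83 17 0 19032) .out)))) (.nr 243 1025 (.lg 0 true 1 67 67 17 0 19032)
  .out))) .out) .out) (.na 258 253 (.nx 257 1048577 (.nr 256 1048577 (.nr 247 251 .s1 (.nx 252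
  32769 (.nx 249 183 (.nr 248 2424 (.l1 (.ls 16 17 136)) (.l1 .sk)) (.nx 250 184 (.l1 .sk) (.lg 0
  false 2 73 73 17 0 2928))) (.nr 255 16385 (.nr 253 1025 (.lg 0 true 1 47 47 17 0 1464) (.nx 254
  131073 (.lg 2 true 1 43 43 17 11701 8784) .out)) .out))) .out) .out) (.nx 268 1048577 (.nr 267
  1048577 (.nr 259 253 .s1 (.nx 265 131073 (.nx 261 183 (.nr 260 2433 (.l1 (.ls 19 19 135)) (.l1
  .sk)) (.nx 262 184 (.l1 .sk) (.nr 263 65537 (.lg 0 true 1 83 83 19 0 16104) (.nx 264 16385 (.lg 0
  false 1 83 83 19 0 16104) .out)))) (.nr 266 1025 (.lg 0 true 1 67 67 19 0 16104) .out))) .out)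
  .out)))) (.na 794 363 (.na 279 256 (.nx 278 1048577 (.nr 277 1048577 (.nr 270 254 .s1 (.nx 275
  32769 (.nx 272 183 (.nr 271 2453 (.l1 (.ls 16 23 134)) (.l1 .sk)) (.nx 273 184 (.l1 .sk) (.lg 0
  false 2 73 73 23 0 2928))) (.nr 276 16385 (.lg 0 false 1 79 79 23 0 2928) .out))) .out) .out)
  (.na 289 257 (.nx 288 1048577 (.nr 287 1482912 (.nr 280 256 .s1 (.nx 281 257 (.l1 (.ls 71 29
  261)) (.nr 286 1048577 (.nr 284 65537 (.nx 282 131073 (.lg 0 true 1 73 73 29 0 2928) (.nr 283
  2049 (.lg 0 true 1 67 67 29 0 2928) .out)) (.nx 285 20644 (.lg 0 false 1 79 79 29 0 2928) .out))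
  .out))) .out) .out) (.nx 793 1048577 (.nr 792 1482912 (.nr 290 257 .s1 (.nx 398 184 (.nx 397 183
  (.nr 396 3478 (.la (.ls 43 19 133)) (.l1 .sk)) (.l1 .sk)) (.nx 471 257 (.lx (.lp 97 17 91)) (.nr
  791 1048577 (.nx 577 20644 (.la (.lg 0 false 1 79 79 19 0)) (.nr 790 32769 (.nr 683 2049 (.la
  (.lg 0 true 1 67 67 19 0)) (.nx 789 131073 (.la (.lg 2 false 1 59 59 19 26729)) .out)) .out))
  .out)))) .out) .out))) (.na 2042 725 (.na 1354 512 (.nx 1353 1048577 (.nr 1352 1482912 (.nr 795
  363 .s1 (.nx 1052 257 (.nx 978 183 (.nr 977 4905 (.lx (.lp 43 19 129)) (.l1 .sk)) (.nx 979 184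
  (.l1 .sk) (.lx (.lp 83 19 129)))) (.nr 1351 1048577 (.nx 1201 20644 (.la (.lg 0 false 1 73 73 23
  0)) (.nr 1350 32769 (.la (.lg 2 true 1 73 73 23 264311)) .out)) .out))) .out) .out) (.nx 2041
  1048577 (.nr 2040 1482912 (.nr 1355 512 .s1 (.nx 1612 257 (.nx 1538 183 (.nr 1537 6945 (.lx (.lp
  43 19 182)) (.l1 .sk)) (.nx 1539 184 (.l1 .sk) (.lx (.lp 89 19 182)))) (.nr 2039 1048577 (.nx
  1825 20644 (.la (.lg 0 false 1 73 73 29 0)) (.nr 2038 32769 (.la (.lg 2 true 1 67 67 29 187393))
  .out)) .out))) .out) .out)) (.na 2644 1024 (.nx 2643 13005 (.nr 2642 1048577 (.nr 2043 725 .s1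
  (.nx 2342 2049 (.la (.ls 71 37 5793)) (.nr 2641 65537 (.la (.lg 0 false 1 43 43 29 0)) .out)))
  .out) .out) (.nx 3497 13005 (.nr 3496 1048577 (.nr 2645 1024 .s1 (.nx 3070 3252 (.la (.ls 67 41
  10330)) (.nr 3495 32769 (.la (.lg 0 false 1 37 37 31 0)) .out))) .out) .out))))) (.na 11922 16384
  (.na 6154 4096 (.na 4100 2048 (.nx 4099 8193 (.nr 4098 1048577 (.nr 3499 1449 .s1 (.la (.ls 67 47
  46328))) .out) .out) (.na 4952 2897 (.nx 4951 8193 (.nr 4950 1048577 (.nr 4101 2048 .s1 (.la (.ls
  59 47 32779))) .out) .out) (.nx 6153 3252 (.nr 6152 524289 (.nr 4953 2897 .s1 (.la (.ls 71 37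
  3653))) .out) .out))) (.na 9333 8192 (.na 8038 5793 (.nx 8037 3252 (.nr 8036 524289 (.nr 6155
  4096 .s1 (.nx 6339 184 (.nx 6338 183 (.nr 6337 55490 (.lx (.lp 43 31 1449)) (.l1 .sk)) (.l1 .sk))
  (.la (.ls 67 37 2576)))) .out) .out) (.nx 9332 1292 (.nr 9331 262145 (.nr 8039 5793 .s1 (.nx 8852
  814 (.lx (.lp 59 37 2049)) (.nr 9330 65537 (.lx (.lp 43 37 2049)) .out))) .out) .out)) (.na 10628
  11586 (.nx 10627 1292 (.nr 10626 262145 (.nr 9334 8192 .s1 (.nx 10147 814 (.lx (.lp 53 37 2897))
  (.nr 10625 131073 (.lx (.lp 47 41 2897)) .out))) .out) .out) (.nx 11921 1292 (.nr 11920 131073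
  (.nr 10629 11586 .s1 (.lx (.lp 43 41 4097))) .out) .out)))) (.na 15807 131072 (.na 13217 32768
  (.nx 13216 1292 (.nr 13215 262145 (.nr 11923 16384 .s1 (.nx 12179 257 (.lx (.lp 47 43 8193)) (.nr
  13214 131073 (.lx (.lp 43 43 8193)) .out))) .out) .out) (.na 14512 65536 (.nx 14511 1292 (.nr
  14510 262145 (.nr 13218 32768 .s1 (.nx 13474 257 (.lx (.lp 16 43 16385)) (.nx 13863 645 (.nr
  13862 131073 (.lx (.lp 41 47 16385)) .out) (.lx (.lp 43 47 16385))))) .out) .out) (.nx 15806 1292
  (.nr 15805 524289 (.nr 14513 65536 .s1 (.nx 14769 257 (.lx (.lp 16 0 32769)) (.nr 15804 262145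
  (.lx (.lp 41 53 32769)) .out))) .out) .out))) (.na 16837 524288 (.na 16322 262144 (.nx 16321 513
  (.nr 16320 524289 (.nr 15808 131072 .s1 (.lx (.lp 41 59 65537))) .out) .out) (.nx 16836 513 (.nr
  16835 1048577 (.nr 16323 262144 .s1 (.lx (.lp 16 0 131073))) .out) .out)) (.na 16839 1048577 (.nx
  16838 257 (.l1 .sk) .out) .out))))))

def T66_1 : Ph :=
  (.na 609 363 (.na 67 239 (.na 24 232 (.na 22 227 (.na 12 223 (.nx 11 1048577 (.nr 10 1048577 (.nr
  1 219 .s1 (.nx 4 208 (.nx 3 207 (.nr 2 2272 (.l1 (.ls 17 19 198)) (.l1 .sk)) (.l1 .sk)) (.nx 6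
  32769 (.lg 0 false 2 83 83 19 0 3312) (.nr 9 16385 (.nr 7 1025 (.lg 0 false 1 61 61 19 0 1656)
  (.nx 8 131073 (.lg 2 true 1 53 53 19 13236 16560) .out)) .out)))) .out) .out) (.nx 21 1048577
  (.nr 20 1048577 (.nr 13 223 .s1 (.nx 16 208 (.nx 15 207 (.nr 14 2313 (.l1 (.ls 16 17 195)) (.l1
  .sk)) (.l1 .sk)) (.nx 18 32769 (.lg 0 false 2 79 79 17 0 3312) (.nr 19 16385 (.lg 0 false 1 79 79
  16 0 3312) .out)))) .out) .out)) (.na 23 229 (.lg 0 false 1 0 0 16 0 24) (.lg 0 false 1 0 0 16 0
  24))) (.na 45 234 (.na 35 233 (.nx 34 1048577 (.nr 33 1048577 (.nr 25 232 .s1 (.nx 31 131073 (.nx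
  27 207 (.nr 26 2374 (.l1 (.ls 19 23 187)) (.l1 .sk)) (.nx 28 208 (.l1 .sk) (.nr 29 65537 (.lg 0
  true 1 89 89 23 0 3312) (.nx 30 16385 (.lg 0 false 1 89 97 23 0 3312) .out)))) (.nr 32 1025 (.lg
  0 true 1 71 71 23 0 3312) .out))) .out) .out) (.nx 44 1048577 (.nr 43 1048577 (.nr 36 233 .s1
  (.nx 38 207 (.nr 37 2384 (.l1 (.ls 16 17 186)) (.l1 .sk)) (.nx 39 208 (.l1 .sk) (.nx 41 32769
  (.lg 0 false 2 73 73 17 0 3312) (.nr 42 16385 (.lg 0 false 1 73 73 17 0 1656) .out))))) .out)
  .out)) (.na 56 236 (.nx 55 1048577 (.nr 54 1048577 (.nr 46 234 .s1 (.nx 49 208 (.nx 48 207 (.nr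
  47 2404 (.l1 (.ls 37 37 186)) (.l1 .sk)) (.l1 .sk)) (.nr 52 65537 (.nx 50 131073 (.lg 0 true 1 89
  89 37 0 215280) (.nr 51 1025 (.lg 0 true 1 71 71 37 0 43056) .out)) (.nx 53 16385 (.lg 0 false 1
  89 89 37 0 215280) .out)))) .out) .out) (.nx 66 1048577 (.nr 65 1048577 (.nr 57 236 .s1 (.nx 60
  208 (.nx 59 207 (.nr 58 2435 (.l1 (.ls 31 23 184)) (.l1 .sk)) (.l1 .sk)) (.nr 63 65537 (.nx 61
  131073 (.lg 0 false 1 89 89 23 0 16560) (.nr 62 1025 (.lg 0 true 1 67 67 23 0 3312) .out)) (.nx
  64 16385 (.lg 0 false 1 89 89 23 0 3312) .out)))) .out) .out)))) (.na 97 248 (.na 77 243 (.na 76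
  241 (.nx 75 1048577 (.nr 74 1048577 (.nr 68 239 .s1 (.nx 71 208 (.nx 70 207 (.nr 69 2455 (.l1
  (.ls 19 17 182)) (.l1 .sk)) (.l1 .sk)) (.nx 72 32769 (.lg 0 true 1 83 83 17 0 1656) (.nr 73 16385
  (.lg 0 false 1 79 79 17 0 1656) .out)))) .out) .out) (.lg 0 false 1 0 0 16 0 24)) (.na 88 246
  (.nx 87 1048577 (.nr 86 1048577 (.nr 78 243 .s1 (.nx 81 208 (.nx 80 207 (.nr 79 2506 (.l1 (.ls 31
  19 179)) (.l1 .sk)) (.l1 .sk)) (.nx 84 131073 (.nr 82 65537 (.lg 0 true 1 83 89 23 0 3312) (.nx
  83 16385 (.lg 0 false 1 83 89 29 0 3312) .out)) (.nr 85 1025 (.lg 0 true 1 67 71 23 0 1656)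
  .out)))) .out) .out) (.nx 96 1048577 (.nr 95 1048577 (.nr 89 246 .s1 (.nx 93 32769 (.nx 91 207
  (.nr 90 2527 (.l1 (.ls 19 31 177)) (.l1 .sk)) (.nx 92 208 (.l1 .sk) (.lg 0 true 1 89 89 29 0
  3312))) (.nr 94 16385 (.lg 0 false 1 83 83 29 0 3312) .out))) .out) .out))) (.na 109 254 (.na 108
  251 (.nx 107 1048577 (.nr 106 1048577 (.nr 98 248 .s1 (.nx 100 207 (.nr 99 2557 (.l1 (.ls 29 23
  175)) (.l1 .sk)) (.nx 101 208 (.l1 .sk) (.nx 104 131073 (.nr 102 65537 (.lg 0 true 1 83 89 29 0
  3312) (.nx 103 16385 (.lg 0 false 1 89 89 29 0 3312) .out)) (.nr 105 1025 (.lg 0 true 1 71 71 29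
  0 3312) .out))))) .out) .out) (.lg 0 false 1 0 0 16 0 24)) (.na 118 256 (.nx 117 1048577 (.nr 116
  1048577 (.nr 110 254 .s1 (.nx 113 208 (.nx 112 207 (.nr 111 2608 (.l1 (.ls 19 23 171)) (.l1 .sk))
  (.l1 .sk)) (.nx 114 32769 (.lg 0 true 1 83 83 23 0 3312) (.nr 115 16385 (.lg 0 false 1 79 79 23 0
  3312) .out)))) .out) .out) (.na 128 257 (.nx 127 1048577 (.nr 126 1482912 (.nr 119 256 .s1 (.nx
  124 131073 (.nx 120 257 (.l1 (.ls 73 29 261)) (.nr 123 1048577 (.nr 121 65537 (.lg 0 true 1 79 79
  29 0 3312) (.nx 122 20644 (.lg 0 false 1 83 83 29 0 3312) .out)) .out)) (.nr 125 2049 (.lg 0 true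
  1 67 67 29 0 3312) .out))) .out) .out) (.nx 608 1048577 (.nr 607 1482912 (.nr 129 257 .s1 (.nx
  286 257 (.nx 236 207 (.nr 235 3698 (.la (.ls 37 19 169)) (.l1 .sk)) (.nx 237 208 (.l1 .sk) (.lx
  (.lp 89 17 91)))) (.nr 606 1048577 (.nx 392 20644 (.la (.lg 0 false 1 79 79 23 0)) (.nr 605 32769
  (.nx 498 131073 (.la (.lg 0 true 1 71 71 23 0)) (.nr 604 2049 (.la (.lg 0 true 1 67 67 23 0))
  .out)) .out)) .out))) .out) .out)))))) (.na 9324 8192 (.na 3256 1449 (.na 1800 725 (.na 1112 512
  (.nx 1111 1048577 (.nr 1110 1482912 (.nr 610 363 .s1 (.nx 810 257 (.nx 760 207 (.nr 759 5216 (.la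
  (.ls 41 19 129)) (.l1 .sk)) (.nx 761 208 (.l1 .sk) (.lx (.lp 79 19 129)))) (.nr 1109 1048577 (.nr
  959 32769 (.la (.lg 0 true 1 79 79 23 0)) (.nx 1108 20644 (.la (.lg 0 false 1 79 79 23 0)) .out))
  .out))) .out) .out) (.nx 1799 1048577 (.nr 1798 1482912 (.nr 1113 512 .s1 (.nx 1370 257 (.nx 1320
  207 (.nr 1319 7385 (.lx (.lp 43 19 182)) (.l1 .sk)) (.nx 1321 208 (.l1 .sk) (.lx (.lp 83 19
  182)))) (.nr 1797 1048577 (.nr 1583 32769 (.la (.lg 0 true 1 79 79 29 0)) (.nx 1796 20644 (.la
  (.lg 0 false 1 73 73 29 0)) .out)) .out))) .out) .out)) (.na 2402 1024 (.nx 2401 13005 (.nr 2400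
  1048577 (.nr 1801 725 .s1 (.nx 2100 2049 (.la (.ls 71 41 5793)) (.nr 2399 65537 (.la (.lg 0 false
  1 47 53 29 0)) .out))) .out) .out) (.nx 3255 13005 (.nr 3254 1048577 (.nr 2403 1024 .s1 (.nx 2828
  3252 (.la (.ls 67 41 10330)) (.nr 3253 32769 (.la (.lg 0 false 1 41 43 31 0)) .out))) .out)
  .out))) (.na 4710 2897 (.na 3858 2048 (.nx 3857 8193 (.nr 3856 1048577 (.nr 3257 1449 .s1 (.la
  (.ls 67 47 46328))) .out) .out) (.nx 4709 8193 (.nr 4708 1048577 (.nr 3859 2048 .s1 (.la (.ls 67
  47 32779))) .out) .out)) (.na 6120 4096 (.nx 6119 3252 (.nr 6118 524289 (.nr 4711 2897 .s1 (.nx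
  4919 208 (.nx 4918 207 (.nr 4917 41722 (.lx (.lp 47 31 1025)) (.l1 .sk)) (.l1 .sk)) (.la (.ls 59
  37 3638)))) .out) .out) (.na 8028 5793 (.nx 8027 3252 (.nr 8026 524289 (.nr 6121 4096 .s1 (.nx
  6329 208 (.nx 6328 207 (.nr 6327 59007 (.lx (.lp 53 31 1449)) (.l1 .sk)) (.l1 .sk)) (.la (.ls 59
  37 2574)))) .out) .out) (.nx 9323 1292 (.nr 9322 262145 (.nr 8029 5793 .s1 (.nx 8236 207 (.nr
  8235 83443 (.lx (.lp 47 37 2049)) (.l1 .sk)) (.nx 8237 208 (.l1 .sk) (.nx 8843 814 (.lx (.lp 59
  37 2049)) (.nr 9321 65537 (.lx (.lp 43 37 2049)) .out))))) .out) .out))))) (.na 14503 65536 (.na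
  11913 16384 (.na 10619 11586 (.nx 10618 1292 (.nr 10617 262145 (.nr 9325 8192 .s1 (.nx 10138 814
  (.lx (.lp 59 41 2897)) (.nr 10616 131073 (.lx (.lp 53 41 2897)) .out))) .out) .out) (.nx 11912
  1292 (.nr 11911 131073 (.nr 10620 11586 .s1 (.lx (.lp 47 41 4097))) .out) .out)) (.na 13208 32768
  (.nx 13207 1292 (.nr 13206 262145 (.nr 11914 16384 .s1 (.nx 12170 257 (.lx (.lp 16 41 8193)) (.nr
  13205 131073 (.lx (.lp 43 43 8193)) .out))) .out) .out) (.nx 14502 1292 (.nr 14501 262145 (.nr
  13209 32768 .s1 (.nx 13465 257 (.lx (.lp 16 43 16385)) (.nx 13854 645 (.nr 13853 131073 (.lx (.lp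
  41 47 16385)) .out) (.lx (.lp 43 47 16385))))) .out) .out))) (.na 16313 262144 (.na 15798 131072
  (.nx 15797 1292 (.nr 15796 524289 (.nr 14504 65536 .s1 (.nx 14760 257 (.lx (.lp 16 0 32769)) (.nr
  15795 262145 (.lx (.lp 41 53 32769)) .out))) .out) .out) (.nx 16312 513 (.nr 16311 524289 (.nr
  15799 131072 .s1 (.lx (.lp 41 59 65537))) .out) .out)) (.na 16828 524288 (.nx 16827 513 (.nr
  16826 1048577 (.nr 16314 262144 .s1 (.lx (.lp 16 0 131073))) .out) .out) (.na 16830 1048577 (.nx
  16829 257 (.l1 .sk) .out) .out))))))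

def T66_2 : Ph :=
  (.na 402 166 (.na 290 64 (.na 227 16 (.na 144 10 (.na 1 2 .ne (.na 143 3 (.nx 142 3329023 (.nr
  141 623489 (.nx 3 115 (.nr 2 21 (.lg 0 false 1 41 41 5 0 38640) (.l1 .sk)) (.nx 4 116 (.l1 .sk)
  (.nr 127 77937 (.nr 123 65537 (.nx 104 1321124 (.nx 37 20644 (.lg 0 false 33 97 103 13 0 1275120)
  (.nr 103 46342 (.nr 91 27556 (.nr 70 257 (.lg 0 true 33 89 89 13 0 182160) (.nx 90 165142 (.nr 79
  1100 (.lg 2 true 9 83 83 9 36949 115920) (.lg 2 false 11 97 101 9 8864 425040)) .out)) (.nx 102
  65537 (.lg 2 false 11 97 101 9 14882 425040) .out)) .out)) (.nr 122 9 (.lg 0 true 18 71 71 9 0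
  16560) .out)) (.nx 126 1292 (.lg 0 true 3 83 83 7 0 16560) .out)) (.nx 140 205 (.lg 0 false 13 79
  79 9 0 71760) .out)))) .out) .out) .ne)) (.na 188 12 (.nx 187 1321124 (.nr 186 623489 (.nx 148
  324 (.nx 146 115 (.nr 145 91 (.lg 0 true 1 29 29 9 0 38640) (.l1 .sk)) (.nx 147 116 (.l1 .sk)
  (.l1 (.ls 79 47 9155)))) (.nr 185 220437 (.nx 163 20644 (.nr 159 77937 (.lg 0 false 11 83 89 13 0
  60720) (.nx 162 814 (.lg 0 true 3 73 73 11 0 16560) .out)) (.nr 184 55110 (.nr 174 374 (.lg 0
  true 11 73 73 13 0 60720) (.nx 183 165142 (.lg 2 false 9 83 89 13 25390 16560) .out)) .out))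
  .out)) .out) .out) (.na 189 14 .ne (.nx 226 1321124 (.nr 225 623489 (.nr 190 10 .s1 (.nx 193 116
  (.nx 192 115 (.nr 191 122 (.l1 (.ls 29 37 947)) (.l1 .sk)) (.l1 .sk)) (.nx 194 324 (.l1 (.ls 89
  47 6540)) (.nr 224 220437 (.nr 222 92683 (.nx 197 6613 (.lg 0 true 3 89 89 13 0 115920) (.nr 221
  65537 (.nr 213 27556 (.nr 203 374 (.lg 0 true 6 79 79 13 0 115920) (.nx 212 165142 (.lg 2 false 9
  79 79 19 27671 115920) .out)) (.nx 220 104033 (.nr 216 46342 (.lg 0 true 3 101 101 13 0 115920)
  (.nx 219 26009 (.lg 0 true 3 89 89 13 0 115920) .out)) .out)) .out)) (.nx 223 814 (.lg 0 true 1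
  83 83 11 0 38640) .out)) .out)))) .out) .out)))) (.na 260 50 (.na 228 34 .ne (.na 245 46 (.nx 244
  1321124 (.nr 243 370729 (.nr 229 33 .s1 (.nx 235 13005 (.nx 231 115 (.nr 230 350 (.l1 (.ls 16 31
  391)) (.l1 .sk)) (.nx 232 116 (.l1 .sk) (.lg 0 false 3 97 97 13 0 16560))) (.nr 242 23172 (.nr
  239 217 (.lg 0 true 4 67 67 13 0 5520) (.nx 241 82572 (.lg 2 true 2 79 79 13 21880 5520) .out))
  .out))) .out) .out) (.nx 259 1321124 (.nr 258 311745 (.nr 246 45 .s1 (.nx 248 115 (.nr 247 380
  (.lg 0 false 1 0 16 13 0 1506960) (.l1 .sk)) (.nx 249 116 (.l1 .sk) (.nx 252 10323 (.lg 0 true 3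
  79 79 13 0 16560) (.nr 257 23172 (.nr 254 217 (.lg 0 false 2 67 67 13 0 38640) (.nx 256 82572
  (.lg 2 true 2 71 71 13 21880 5520) .out)) .out))))) .out) .out))) (.na 261 58 (.lg 0 false 1 0 0
  16 0 24) (.na 275 62 (.nx 274 1321124 (.nr 273 311745 (.nr 262 58 .s1 (.nr 267 13779 (.nx 263
  2580 (.l1 (.ls 59 67 114768)) (.nx 265 82572 (.lg 0 false 2 79 79 13 0 5520) (.nr 266 217 (.lg 0
  false 1 73 73 13 0 5520) .out))) (.nx 269 116 (.nx 268 115 (.l1 .sk) (.l1 .sk)) (.nx 272 20644
  (.lg 0 true 3 89 89 19 0 16560) .out)))) .out) .out) (.nx 289 1321124 (.nr 288 311745 (.nr 276 62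
  .s1 (.nx 282 10323 (.nx 278 115 (.nr 277 487 (.l1 (.ls 17 23 216)) (.l1 .sk)) (.nx 279 116 (.l1
  .sk) (.lg 0 false 3 83 83 19 0 16560))) (.nr 287 23172 (.nr 285 487 (.lg 0 true 3 71 71 19 0
  16560) (.nx 286 82572 (.lg 2 true 1 73 73 13 14918 5520) .out)) .out))) .out) .out))))) (.na 351
  98 (.na 321 82 (.na 291 70 .ne (.na 306 74 (.nx 305 1321124 (.nr 304 524289 (.nr 292 70 .s1 (.nx
  298 8193 (.nx 294 115 (.nr 293 563 (.l1 (.ls 19 31 191)) (.l1 .sk)) (.nx 295 116 (.l1 .sk) (.lg 0
  false 3 83 83 29 0 115920))) (.nr 303 8193 (.nr 301 563 (.lg 0 true 3 71 71 29 0 115920) (.nx 302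
  82572 (.lg 2 false 1 61 61 23 8434 38640) .out)) .out))) .out) .out) (.nx 320 1321124 (.nr 319
  524289 (.nr 307 74 .s1 (.nx 310 116 (.nx 309 115 (.nr 308 624 (.l1 (.ls 17 23 181)) (.l1 .sk))
  (.l1 .sk)) (.nx 313 8193 (.lg 0 false 3 83 83 19 0 16560) (.nr 318 8193 (.nr 316 624 (.lg 0 true
  3 71 71 19 0 16560) (.nx 317 82572 (.lg 2 true 1 61 61 13 7609 5520) .out)) .out)))) .out)
  .out))) (.na 335 86 (.nx 334 1321124 (.nr 333 524289 (.nr 322 82 .s1 (.nx 324 115 (.nr 323 654
  (.l1 (.ls 17 23 164)) (.l1 .sk)) (.nx 325 116 (.l1 .sk) (.nx 328 8193 (.lg 0 false 3 83 83 19 0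
  16560) (.nr 332 8193 (.nr 330 513 (.lg 0 true 2 67 67 19 0 5520) (.nx 331 82572 (.lg 2 false 1 61
  61 13 9256 38640) .out)) .out))))) .out) .out) (.na 350 91 (.nx 349 1321124 (.nr 348 524289 (.nr
  336 86 .s1 (.nx 342 8193 (.nx 338 115 (.nr 337 692 (.l1 (.ls 19 23 156)) (.l1 .sk)) (.nx 339 116
  (.l1 .sk) (.lg 0 false 3 83 83 19 0 16560))) (.nr 347 8193 (.nr 345 692 (.lg 0 true 3 71 71 19 0
  16560) (.nx 346 82572 (.lg 2 true 1 61 61 13 6862 38640) .out)) .out))) .out) .out) .ne))) (.na
  385 128 (.na 362 106 (.nx 361 1321124 (.nr 360 524289 (.nr 352 98 .s1 (.nx 355 116 (.nx 354 115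
  (.nr 353 806 (.l1 (.ls 17 29 137)) (.l1 .sk)) (.l1 .sk)) (.nx 356 8193 (.lg 0 true 1 83 83 19 0
  38640) (.nr 359 8193 (.nr 357 513 (.lg 0 false 1 71 71 19 0 38640) (.nx 358 82572 (.lg 2 false 1
  59 59 19 9256 38640) .out)) .out)))) .out) .out) (.na 374 118 (.nx 373 1321124 (.nr 372 524289
  (.nr 363 106 .s1 (.nx 367 8193 (.nx 365 115 (.nr 364 897 (.l1 (.ls 16 23 127)) (.l1 .sk)) (.nx
  366 116 (.l1 .sk) (.lg 0 true 1 83 83 19 0 5520))) (.nr 371 8193 (.nr 369 513 (.lg 0 true 2 61 61
  19 0 5520) (.nx 370 82572 (.lg 2 false 1 59 59 19 9256 5520) .out)) .out))) .out) .out) (.nx 384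
  1321124 (.nr 383 524289 (.nr 375 118 .s1 (.nx 378 116 (.nx 377 115 (.nr 376 973 (.l1 (.ls 17 19
  115)) (.l1 .sk)) (.l1 .sk)) (.nx 379 8193 (.lg 0 true 1 83 83 19 0 5520) (.nr 382 8193 (.nr 380
  513 (.lg 2 false 1 67 67 19 643769 5520) (.nx 381 82572 (.lg 2 true 1 59 59 19 9256 5520) .out))
  .out)))) .out) .out))) (.na 386 134 .ne (.na 394 142 (.nx 393 660563 (.nr 392 1048577 (.nr 387
  134 .s1 (.nx 388 205 (.l1 (.ls 61 29 316)) (.nr 391 524289 (.nr 389 8193 (.lg 0 false 1 83 83 19
  0 5520) (.nx 390 6503 (.lg 0 true 1 79 79 19 0 5520) .out)) .out))) .out) .out) (.nx 401 660563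
  (.nr 400 1048577 (.nr 395 142 .s1 (.nx 396 205 (.l1 (.ls 67 29 298)) (.nr 399 524289 (.nr 397
  8193 (.lg 0 false 1 83 83 19 0 38640) (.nx 398 6503 (.lg 0 true 1 79 79 19 0 5520) .out)) .out)))
  .out) .out)))))) (.na 989 512 (.na 450 226 (.na 426 202 (.na 410 170 (.nx 409 660563 (.nr 408
  1048577 (.nr 403 166 .s1 (.nx 404 205 (.l1 (.ls 71 29 256)) (.nr 407 524289 (.nr 405 8193 (.lg 0
  false 1 83 83 19 0 115920) (.nx 406 6503 (.lg 0 true 1 73 73 19 0 5520) .out)) .out))) .out)
  .out) (.na 418 194 (.nx 417 660563 (.nr 416 1048577 (.nr 411 170 .s1 (.nx 412 205 (.l1 (.ls 71 31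
  250)) (.nr 415 524289 (.nr 413 8193 (.lg 0 false 1 83 83 29 0 38640) (.nx 414 6503 (.lg 0 true 1
  79 79 29 0 38640) .out)) .out))) .out) .out) (.nx 425 660563 (.nr 424 1048577 (.nr 419 194 .s1
  (.nx 420 205 (.l1 (.ls 71 23 219)) (.nr 423 524289 (.nr 421 8193 (.lg 0 false 1 79 79 19 0
  115920) (.nx 422 6503 (.lg 0 true 1 73 73 19 0 5520) .out)) .out))) .out) .out))) (.na 434 206
  (.nx 433 660563 (.nr 432 1048577 (.nr 427 202 .s1 (.nx 428 205 (.l1 (.ls 67 23 211)) (.nr 431
  524289 (.nr 429 8193 (.lg 0 false 1 73 73 23 0 5520) (.nx 430 6503 (.lg 0 true 1 71 71 23 0 5520)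
  .out)) .out))) .out) .out) (.na 442 214 (.nx 441 660563 (.nr 440 1048577 (.nr 435 206 .s1 (.nx
  436 205 (.l1 (.ls 67 23 207)) (.nr 439 524289 (.nr 437 8193 (.lg 0 false 1 73 73 23 0 5520) (.nx
  438 6503 (.lg 0 true 1 71 71 23 0 5520) .out)) .out))) .out) .out) (.nx 449 660563 (.nr 448
  1048577 (.nr 443 214 .s1 (.nx 444 205 (.l1 (.ls 67 23 199)) (.nr 447 524289 (.nr 445 8193 (.lg 0
  false 1 73 73 23 0 5520) (.nx 446 6503 (.lg 0 true 1 71 71 23 0 5520) .out)) .out))) .out)
  .out)))) (.na 473 250 (.na 458 230 (.nx 457 660563 (.nr 456 1048577 (.nr 451 226 .s1 (.nx 452 205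
  (.l1 (.ls 67 23 188)) (.nr 455 524289 (.nr 453 8193 (.lg 0 false 1 73 73 23 0 38640) (.nx 454
  6503 (.lg 0 true 1 71 71 23 0 38640) .out)) .out))) .out) .out) (.na 465 238 (.nx 464 660563 (.nr
  463 1048577 (.nr 459 230 .s1 (.nx 460 6503 (.l1 (.ls 67 71 183868)) (.nr 462 8193 (.lg 0 false 2
  61 61 31 0 5520) .out))) .out) .out) (.nx 472 660563 (.nr 471 1048577 (.nr 466 238 .s1 (.nx 467
  205 (.l1 (.ls 73 31 179)) (.nr 470 524289 (.nr 468 8193 (.lg 0 false 1 83 83 31 0 115920) (.nx
  469 6503 (.lg 0 false 1 79 79 31 0 38640) .out)) .out))) .out) .out))) (.na 474 256 (.lg 0 false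
  1 0 0 16 0 24) (.na 475 257 .ne (.nx 988 82572 (.nr 987 1048577 (.nr 476 257 .s1 (.nx 731 647
  (.la (.ls 83 29 1631)) (.nr 986 262145 (.la (.lg 0 true 1 79 79 19 0)) .out))) .out) .out)))))
  (.na 4252 4096 (.na 2149 1449 (.na 1419 725 (.nx 1418 82572 (.nr 1417 1048577 (.nr 990 512 .s1
  (.nx 1203 647 (.la (.ls 73 29 820)) (.nr 1416 262145 (.la (.lg 0 true 1 71 71 23 0)) .out)))
  .out) .out) (.na 1721 1024 (.nx 1720 3252 (.nr 1719 262145 (.nr 1420 725 .s1 (.la (.ls 53 43
  14589))) .out) .out) (.nx 2148 3252 (.nr 2147 262145 (.nr 1722 1024 .s1 (.la (.ls 53 41 10330)))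
  .out) .out))) (.na 2751 2048 (.nx 2750 1627 (.nr 2749 131073 (.nr 2150 1449 .s1 (.la (.ls 47 31
  1829))) .out) .out) (.na 3603 2897 (.nx 3602 1627 (.nr 3601 131073 (.nr 2752 2048 .s1 (.la (.ls
  47 31 1295))) .out) .out) (.nx 4251 647 (.nr 4250 65537 (.nr 3604 2897 .s1 (.lx (.lp 43 31
  1025))) .out) .out)))) (.na 6199 32768 (.na 4901 8192 (.nx 4900 647 (.nr 4899 65537 (.nr 4253
  4096 .s1 (.lx (.lp 41 37 2049))) .out) .out) (.na 5550 16384 (.nx 5549 647 (.nr 5548 65537 (.nr
  4902 8192 .s1 (.lx (.lp 41 41 4097))) .out) .out) (.nx 6198 647 (.nr 6197 131073 (.nr 5551 16384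
  .s1 (.lx (.lp 37 43 8193))) .out) .out))) (.na 6525 65536 (.nx 6524 324 (.nr 6523 131073 (.nr
  6200 32768 .s1 (.lx (.lp 16 0 16385))) .out) .out) (.na 6851 131073 (.nx 6850 324 (.nr 6849
  262145 (.nr 6526 65536 .s1 (.lx (.lp 16 0 32769))) .out) .out) .out))))))

theorem c66 :
    OkQ ckI L9 183 197 1099511627776 0 34359738368 1 1099511627776 ∧
    OkQ ckI L9 207 219 1099511627776 0 34359738368 1 1099511627776 ∧
    OkQ ckI L6 115 1 1099511627776 0 34359738368 1 1099511627776 := by
  refine ⟨?_, ?_, ?_⟩
  · refine fin 1464 16840 T66_0 ?_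
    refine jn 16 (by decide +kernel) ?_
    refine jn 28 (by decide +kernel) ?_
    refine jn 34 (by decide +kernel) ?_
    refine jn 51 (by decide +kernel) ?_
    refine jn 55 (by decide +kernel) ?_
    refine jn 58 (by decide +kernel) ?_
    refine jn 67 (by decide +kernel) ?_
    refine jn 79 (by decide +kernel) ?_
    refine jn 91 (by decide +kernel) ?_
    refine jn 105 (by decide +kernel) ?_
    refine jn 123 (by decide +kernel) ?_
    refine jn 129 (by decide +kernel) ?_
    refine jn 146 (by decide +kernel) ?_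
    refine jn 151 (by decide +kernel) ?_
    refine jn 163 (by decide +kernel) ?_
    refine jn 171 (by decide +kernel) ?_
    refine jn 174 (by decide +kernel) ?_
    refine jn 193 (by decide +kernel) ?_
    refine jn 207 (by decide +kernel) ?_
    refine jn 225 (by decide +kernel) ?_
    refine jn 240 (by decide +kernel) ?_
    refine jn 252 (by decide +kernel) ?_
    refine jn 264 (by decide +kernel) ?_
    refine jn 276 (by decide +kernel) ?_
    refine jn 285 (by decide +kernel) ?_
    refine jn 316 (by decide +kernel) ?_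
    refine jn 339 (by decide +kernel) ?_
    refine jn 381 (by decide +kernel) ?_
    refine jn 427 (by decide +kernel) ?_
    refine jn 478 (by decide +kernel) ?_
    refine jn 479 (by decide +kernel) ?_
    refine jn 486 (by decide +kernel) ?_
    refine jn 487 (by decide +kernel) ?_
    refine jn 497 (by decide +kernel) ?_
    refine jn 500 (by decide +kernel) ?_
    refine jn 505 (by decide +kernel) ?_
    refine jn 513 (by decide +kernel) ?_
    refine jn 518 (by decide +kernel) ?_
    refine jn 519 (by decide +kernel) ?_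
    refine jn 526 (by decide +kernel) ?_
    refine jn 527 (by decide +kernel) ?_
    refine jn 537 (by decide +kernel) ?_
    refine jn 541 (by decide +kernel) ?_
    refine jn 562 (by decide +kernel) ?_
    refine jn 566 (by decide +kernel) ?_
    refine jn 568 (by decide +kernel) ?_
    refine jn 575 (by decide +kernel) ?_
    refine jn 584 (by decide +kernel) ?_
    refine jn 587 (by decide +kernel) ?_
    refine jn 592 (by decide +kernel) ?_
    refine jn 596 (by decide +kernel) ?_
    refine jn 604 (by decide +kernel) ?_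
    refine jn 611 (by decide +kernel) ?_
    refine jn 623 (by decide +kernel) ?_
    refine jn 629 (by decide +kernel) ?_
    refine jn 632 (by decide +kernel) ?_
    refine jn 638 (by decide +kernel) ?_
    refine jn 646 (by decide +kernel) ?_
    refine jn 668 (by decide +kernel) ?_
    refine jn 672 (by decide +kernel) ?_
    refine jn 676 (by decide +kernel) ?_
    refine jn 690 (by decide +kernel) ?_
    refine jn 697 (by decide +kernel) ?_
    refine jn 702 (by decide +kernel) ?_
    refine jn 710 (by decide +kernel) ?_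
    refine jn 717 (by decide +kernel) ?_
    refine jn 729 (by decide +kernel) ?_
    refine jn 735 (by decide +kernel) ?_
    refine jn 738 (by decide +kernel) ?_
    refine jn 744 (by decide +kernel) ?_
    refine jn 752 (by decide +kernel) ?_
    refine jn 774 (by decide +kernel) ?_
    refine jn 780 (by decide +kernel) ?_
    refine jn 790 (by decide +kernel) ?_
    refine jn 865 (by decide +kernel) ?_
    refine jn 989 (by decide +kernel) ?_
    refine jn 1050 (by decide +kernel) ?_
    refine jn 1057 (by decide +kernel) ?_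
    refine jn 1058 (by decide +kernel) ?_
    refine jn 1066 (by decide +kernel) ?_
    refine jn 1070 (by decide +kernel) ?_
    refine jn 1073 (by decide +kernel) ?_
    refine jn 1078 (by decide +kernel) ?_
    refine jn 1090 (by decide +kernel) ?_
    refine jn 1097 (by decide +kernel) ?_
    refine jn 1098 (by decide +kernel) ?_
    refine jn 1105 (by decide +kernel) ?_
    refine jn 1107 (by decide +kernel) ?_
    refine jn 1113 (by decide +kernel) ?_
    refine jn 1115 (by decide +kernel) ?_
    refine jn 1125 (by decide +kernel) ?_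
    refine jn 1127 (by decide +kernel) ?_
    refine jn 1131 (by decide +kernel) ?_
    refine jn 1145 (by decide +kernel) ?_
    refine jn 1147 (by decide +kernel) ?_
    refine jn 1153 (by decide +kernel) ?_
    refine jn 1155 (by decide +kernel) ?_
    refine jn 1161 (by decide +kernel) ?_
    refine jn 1162 (by decide +kernel) ?_
    refine jn 1177 (by decide +kernel) ?_
    refine jn 1182 (by decide +kernel) ?_
    refine jn 1191 (by decide +kernel) ?_
    refine jn 1197 (by decide +kernel) ?_
    refine jn 1201 (by decide +kernel) ?_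
    refine jn 1205 (by decide +kernel) ?_
    refine jn 1206 (by decide +kernel) ?_
    refine jn 1208 (by decide +kernel) ?_
    refine jn 1215 (by decide +kernel) ?_
    refine jn 1219 (by decide +kernel) ?_
    refine jn 1221 (by decide +kernel) ?_
    refine jn 1226 (by decide +kernel) ?_
    refine jn 1229 (by decide +kernel) ?_
    refine jn 1239 (by decide +kernel) ?_
    refine jn 1246 (by decide +kernel) ?_
    refine jn 1250 (by decide +kernel) ?_
    refine jn 1254 (by decide +kernel) ?_
    refine jn 1256 (by decide +kernel) ?_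
    refine jn 1262 (by decide +kernel) ?_
    refine jn 1264 (by decide +kernel) ?_
    refine jn 1274 (by decide +kernel) ?_
    refine jn 1275 (by decide +kernel) ?_
    refine jn 1277 (by decide +kernel) ?_
    refine jn 1292 (by decide +kernel) ?_
    refine jn 1294 (by decide +kernel) ?_
    refine jn 1296 (by decide +kernel) ?_
    refine jn 1302 (by decide +kernel) ?_
    refine jn 1304 (by decide +kernel) ?_
    refine jn 1310 (by decide +kernel) ?_
    refine jn 1320 (by decide +kernel) ?_
    refine jn 1325 (by decide +kernel) ?_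
    refine jn 1327 (by decide +kernel) ?_
    refine jn 1332 (by decide +kernel) ?_
    refine jn 1344 (by decide +kernel) ?_
    refine jn 1346 (by decide +kernel) ?_
    refine jn 1355 (by decide +kernel) ?_
    refine jn 1459 (by decide +kernel) ?_
    refine jn 1598 (by decide +kernel) ?_
    refine jn 1621 (by decide +kernel) ?_
    refine jn 1628 (by decide +kernel) ?_
    refine jn 1629 (by decide +kernel) ?_
    refine jn 1644 (by decide +kernel) ?_
    refine jn 1651 (by decide +kernel) ?_
    refine jn 1652 (by decide +kernel) ?_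
    refine jn 1657 (by decide +kernel) ?_
    refine jn 1666 (by decide +kernel) ?_
    refine jn 1668 (by decide +kernel) ?_
    refine jn 1671 (by decide +kernel) ?_
    refine jn 1672 (by decide +kernel) ?_
    refine jn 1673 (by decide +kernel) ?_
    refine jn 1683 (by decide +kernel) ?_
    refine jn 1684 (by decide +kernel) ?_
    refine jn 1687 (by decide +kernel) ?_
    refine jn 1698 (by decide +kernel) ?_
    refine jn 1706 (by decide +kernel) ?_
    refine jn 1708 (by decide +kernel) ?_
    refine jn 1714 (by decide +kernel) ?_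
    refine jn 1722 (by decide +kernel) ?_
    refine jn 1727 (by decide +kernel) ?_
    refine jn 1738 (by decide +kernel) ?_
    refine jn 1747 (by decide +kernel) ?_
    refine jn 1753 (by decide +kernel) ?_
    refine jn 1767 (by decide +kernel) ?_
    refine jn 1777 (by decide +kernel) ?_
    refine jn 1789 (by decide +kernel) ?_
    refine jn 1796 (by decide +kernel) ?_
    refine jn 1801 (by decide +kernel) ?_
    refine jn 1808 (by decide +kernel) ?_
    refine jn 1818 (by decide +kernel) ?_
    refine jn 1825 (by decide +kernel) ?_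
    refine jn 1839 (by decide +kernel) ?_
    refine jn 1842 (by decide +kernel) ?_
    refine jn 1857 (by decide +kernel) ?_
    refine jn 1864 (by decide +kernel) ?_
    refine jn 1865 (by decide +kernel) ?_
    refine jn 1870 (by decide +kernel) ?_
    refine jn 1875 (by decide +kernel) ?_
    refine jn 1881 (by decide +kernel) ?_
    refine jn 1885 (by decide +kernel) ?_
    refine jn 1886 (by decide +kernel) ?_
    refine jn 1896 (by decide +kernel) ?_
    refine jn 1897 (by decide +kernel) ?_
    refine jn 1906 (by decide +kernel) ?_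
    refine jn 1911 (by decide +kernel) ?_
    refine jn 1914 (by decide +kernel) ?_
    refine jn 1921 (by decide +kernel) ?_
    refine jn 1926 (by decide +kernel) ?_
    refine jn 1932 (by decide +kernel) ?_
    refine jn 1937 (by decide +kernel) ?_
    refine jn 1940 (by decide +kernel) ?_
    refine jn 1951 (by decide +kernel) ?_
    refine jn 1959 (by decide +kernel) ?_
    refine jn 1962 (by decide +kernel) ?_
    refine jn 1966 (by decide +kernel) ?_
    refine jn 1980 (by decide +kernel) ?_
    refine jn 1989 (by decide +kernel) ?_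
    refine jn 2000 (by decide +kernel) ?_
    refine jn 2005 (by decide +kernel) ?_
    refine jn 2009 (by decide +kernel) ?_
    refine jn 2012 (by decide +kernel) ?_
    refine jn 2017 (by decide +kernel) ?_
    refine jn 2021 (by decide +kernel) ?_
    refine jn 2031 (by decide +kernel) ?_
    refine jn 2045 (by decide +kernel) ?_
    refine jn 2066 (by decide +kernel) ?_
    refine jn 2080 (by decide +kernel) ?_
    refine jn 2099 (by decide +kernel) ?_
    refine jn 2127 (by decide +kernel) ?_
    refine jn 2150 (by decide +kernel) ?_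
    refine jn 2167 (by decide +kernel) ?_
    refine jn 2194 (by decide +kernel) ?_
    refine jn 2230 (by decide +kernel) ?_
    refine jn 2251 (by decide +kernel) ?_
    refine jn 2282 (by decide +kernel) ?_
    refine jn 2304 (by decide +kernel) ?_
    refine jn 2330 (by decide +kernel) ?_
    refine jn 2344 (by decide +kernel) ?_
    refine jn 2353 (by decide +kernel) ?_
    refine jn 2365 (by decide +kernel) ?_
    refine jn 2371 (by decide +kernel) ?_
    refine jn 2379 (by decide +kernel) ?_
    refine jn 2393 (by decide +kernel) ?_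
    refine jn 2399 (by decide +kernel) ?_
    refine jn 2420 (by decide +kernel) ?_
    refine jn 2433 (by decide +kernel) ?_
    refine jn 2441 (by decide +kernel) ?_
    refine jn 2449 (by decide +kernel) ?_
    refine jn 2453 (by decide +kernel) ?_
    refine jn 2465 (by decide +kernel) ?_
    refine jn 2475 (by decide +kernel) ?_
    refine jn 2489 (by decide +kernel) ?_
    refine jn 2498 (by decide +kernel) ?_
    refine jn 2518 (by decide +kernel) ?_
    refine jn 2533 (by decide +kernel) ?_
    refine jn 2545 (by decide +kernel) ?_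
    refine jn 2554 (by decide +kernel) ?_
    refine jn 2570 (by decide +kernel) ?_
    refine jn 2585 (by decide +kernel) ?_
    refine jn 2595 (by decide +kernel) ?_
    refine jn 2605 (by decide +kernel) ?_
    refine jn 2621 (by decide +kernel) ?_
    refine jn 2630 (by decide +kernel) ?_
    refine jn 2638 (by decide +kernel) ?_
    refine jn 2677 (by decide +kernel) ?_
    refine jn 2705 (by decide +kernel) ?_
    refine jn 2725 (by decide +kernel) ?_
    refine jn 2744 (by decide +kernel) ?_
    refine jn 2763 (by decide +kernel) ?_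
    refine jn 2777 (by decide +kernel) ?_
    refine jn 2792 (by decide +kernel) ?_
    refine jn 2820 (by decide +kernel) ?_
    refine jn 2840 (by decide +kernel) ?_
    refine jn 2869 (by decide +kernel) ?_
    refine jn 2897 (by decide +kernel) ?_
    refine jn 2919 (by decide +kernel) ?_
    refine jn 2938 (by decide +kernel) ?_
    refine jn 2973 (by decide +kernel) ?_
    refine jn 3005 (by decide +kernel) ?_
    refine jn 3023 (by decide +kernel) ?_
    refine jn 3045 (by decide +kernel) ?_
    refine jn 3077 (by decide +kernel) ?_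
    refine jn 3102 (by decide +kernel) ?_
    refine jn 3115 (by decide +kernel) ?_
    refine jn 3137 (by decide +kernel) ?_
    refine jn 3155 (by decide +kernel) ?_
    refine jn 3170 (by decide +kernel) ?_
    refine jn 3183 (by decide +kernel) ?_
    refine jn 3190 (by decide +kernel) ?_
    refine jn 3191 (by decide +kernel) ?_
    refine jn 3212 (by decide +kernel) ?_
    refine jn 3220 (by decide +kernel) ?_
    refine jn 3244 (by decide +kernel) ?_
    refine jn 3260 (by decide +kernel) ?_
    refine jn 3282 (by decide +kernel) ?_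
    refine jn 3298 (by decide +kernel) ?_
    refine jn 3322 (by decide +kernel) ?_
    refine jn 3338 (by decide +kernel) ?_
    refine jn 3349 (by decide +kernel) ?_
    refine jn 3359 (by decide +kernel) ?_
    refine jn 3380 (by decide +kernel) ?_
    refine jn 3400 (by decide +kernel) ?_
    refine jn 3428 (by decide +kernel) ?_
    refine jn 3438 (by decide +kernel) ?_
    refine jn 3449 (by decide +kernel) ?_
    refine jn 3463 (by decide +kernel) ?_
    refine jn 3484 (by decide +kernel) ?_
    refine jn 3514 (by decide +kernel) ?_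
    refine jn 3529 (by decide +kernel) ?_
    refine jn 3541 (by decide +kernel) ?_
    refine jn 3549 (by decide +kernel) ?_
    refine jn 3564 (by decide +kernel) ?_
    refine jn 3577 (by decide +kernel) ?_
    refine jn 3586 (by decide +kernel) ?_
    refine jn 3606 (by decide +kernel) ?_
    refine jn 3617 (by decide +kernel) ?_
    refine jn 3652 (by decide +kernel) ?_
    refine jn 3672 (by decide +kernel) ?_
    refine jn 3692 (by decide +kernel) ?_
    refine jn 3703 (by decide +kernel) ?_
    refine jn 3722 (by decide +kernel) ?_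
    refine jn 3729 (by decide +kernel) ?_
    refine jn 3746 (by decide +kernel) ?_
    refine jn 3756 (by decide +kernel) ?_
    refine jn 3768 (by decide +kernel) ?_
    refine jn 3798 (by decide +kernel) ?_
    refine jn 3802 (by decide +kernel) ?_
    refine jn 3818 (by decide +kernel) ?_
    refine jn 3824 (by decide +kernel) ?_
    refine jn 3847 (by decide +kernel) ?_
    refine jn 3874 (by decide +kernel) ?_
    refine jn 3893 (by decide +kernel) ?_
    refine jn 3906 (by decide +kernel) ?_
    refine jn 3916 (by decide +kernel) ?_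
    refine jn 3939 (by decide +kernel) ?_
    refine jn 3969 (by decide +kernel) ?_
    refine jn 3986 (by decide +kernel) ?_
    refine jn 4001 (by decide +kernel) ?_
    refine jn 4022 (by decide +kernel) ?_
    refine jn 4026 (by decide +kernel) ?_
    refine jn 4049 (by decide +kernel) ?_
    refine jn 4064 (by decide +kernel) ?_
    refine jn 4077 (by decide +kernel) ?_
    refine jn 4092 (by decide +kernel) ?_
    refine jn 4119 (by decide +kernel) ?_
    refine jn 4137 (by decide +kernel) ?_
    refine jn 4165 (by decide +kernel) ?_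
    refine jn 4182 (by decide +kernel) ?_
    refine jn 4212 (by decide +kernel) ?_
    refine jn 4235 (by decide +kernel) ?_
    refine jn 4260 (by decide +kernel) ?_
    refine jn 4282 (by decide +kernel) ?_
    refine jn 4301 (by decide +kernel) ?_
    refine jn 4319 (by decide +kernel) ?_
    refine jn 4338 (by decide +kernel) ?_
    refine jn 4351 (by decide +kernel) ?_
    refine jn 4371 (by decide +kernel) ?_
    refine jn 4389 (by decide +kernel) ?_
    refine jn 4411 (by decide +kernel) ?_
    refine jn 4445 (by decide +kernel) ?_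
    refine jn 4457 (by decide +kernel) ?_
    refine jn 4477 (by decide +kernel) ?_
    refine jn 4490 (by decide +kernel) ?_
    refine jn 4525 (by decide +kernel) ?_
    refine jn 4541 (by decide +kernel) ?_
    refine jn 4561 (by decide +kernel) ?_
    refine jn 4597 (by decide +kernel) ?_
    refine jn 4612 (by decide +kernel) ?_
    refine jn 4637 (by decide +kernel) ?_
    refine jn 4649 (by decide +kernel) ?_
    refine jn 4669 (by decide +kernel) ?_
    refine jn 4704 (by decide +kernel) ?_
    refine jn 4721 (by decide +kernel) ?_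
    refine jn 4756 (by decide +kernel) ?_
    refine jn 4777 (by decide +kernel) ?_
    refine jn 4814 (by decide +kernel) ?_
    refine jn 4827 (by decide +kernel) ?_
    refine jn 4849 (by decide +kernel) ?_
    refine jn 4869 (by decide +kernel) ?_
    refine jn 4894 (by decide +kernel) ?_
    refine jn 4925 (by decide +kernel) ?_
    refine jn 4960 (by decide +kernel) ?_
    refine jn 4998 (by decide +kernel) ?_
    refine jn 5033 (by decide +kernel) ?_
    refine jn 5072 (by decide +kernel) ?_
    refine jn 5100 (by decide +kernel) ?_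
    refine jn 5130 (by decide +kernel) ?_
    refine jn 5180 (by decide +kernel) ?_
    refine jn 5223 (by decide +kernel) ?_
    refine jn 5268 (by decide +kernel) ?_
    refine jn 5320 (by decide +kernel) ?_
    refine jn 5362 (by decide +kernel) ?_
    refine jn 5400 (by decide +kernel) ?_
    refine jn 5439 (by decide +kernel) ?_
    refine jn 5485 (by decide +kernel) ?_
    refine jn 5533 (by decide +kernel) ?_
    refine jn 5567 (by decide +kernel) ?_
    refine jn 5609 (by decide +kernel) ?_
    refine jn 5659 (by decide +kernel) ?_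
    refine jn 5712 (by decide +kernel) ?_
    refine jn 5758 (by decide +kernel) ?_
    refine jn 5792 (by decide +kernel) ?_
    refine jn 5844 (by decide +kernel) ?_
    refine jn 5905 (by decide +kernel) ?_
    refine jn 5943 (by decide +kernel) ?_
    refine jn 5974 (by decide +kernel) ?_
    refine jn 6013 (by decide +kernel) ?_
    refine jn 6072 (by decide +kernel) ?_
    refine jn 6105 (by decide +kernel) ?_
    refine jn 6150 (by decide +kernel) ?_
    refine jn 6339 (by decide +kernel) ?_
    refine jn 6390 (by decide +kernel) ?_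
    refine jn 6442 (by decide +kernel) ?_
    refine jn 6481 (by decide +kernel) ?_
    refine jn 6526 (by decide +kernel) ?_
    refine jn 6594 (by decide +kernel) ?_
    refine jn 6652 (by decide +kernel) ?_
    refine jn 6701 (by decide +kernel) ?_
    refine jn 6742 (by decide +kernel) ?_
    refine jn 6804 (by decide +kernel) ?_
    refine jn 6845 (by decide +kernel) ?_
    refine jn 6899 (by decide +kernel) ?_
    refine jn 6935 (by decide +kernel) ?_
    refine jn 6994 (by decide +kernel) ?_
    refine jn 7039 (by decide +kernel) ?_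
    refine jn 7085 (by decide +kernel) ?_
    refine jn 7146 (by decide +kernel) ?_
    refine jn 7202 (by decide +kernel) ?_
    refine jn 7257 (by decide +kernel) ?_
    refine jn 7314 (by decide +kernel) ?_
    refine jn 7370 (by decide +kernel) ?_
    refine jn 7414 (by decide +kernel) ?_
    refine jn 7467 (by decide +kernel) ?_
    refine jn 7516 (by decide +kernel) ?_
    refine jn 7579 (by decide +kernel) ?_
    refine jn 7622 (by decide +kernel) ?_
    refine jn 7677 (by decide +kernel) ?_
    refine jn 7746 (by decide +kernel) ?_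
    refine jn 7786 (by decide +kernel) ?_
    refine jn 7839 (by decide +kernel) ?_
    refine jn 7907 (by decide +kernel) ?_
    refine jn 7954 (by decide +kernel) ?_
    refine jn 8019 (by decide +kernel) ?_
    refine jn 8238 (by decide +kernel) ?_
    refine jn 8476 (by decide +kernel) ?_
    refine jn 8589 (by decide +kernel) ?_
    refine jn 8683 (by decide +kernel) ?_
    refine jn 8765 (by decide +kernel) ?_
    refine jn 8852 (by decide +kernel) ?_
    refine jn 8934 (by decide +kernel) ?_
    refine jn 8996 (by decide +kernel) ?_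
    refine jn 9087 (by decide +kernel) ?_
    refine jn 9154 (by decide +kernel) ?_
    refine jn 9217 (by decide +kernel) ?_
    refine jn 9273 (by decide +kernel) ?_
    refine jn 9328 (by decide +kernel) ?_
    refine jn 9680 (by decide +kernel) ?_
    refine jn 9882 (by decide +kernel) ?_
    refine jn 10014 (by decide +kernel) ?_
    refine jn 10110 (by decide +kernel) ?_
    refine jn 10218 (by decide +kernel) ?_
    refine jn 10302 (by decide +kernel) ?_
    refine jn 10377 (by decide +kernel) ?_
    refine jn 10452 (by decide +kernel) ?_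
    refine jn 10513 (by decide +kernel) ?_
    refine jn 10570 (by decide +kernel) ?_
    refine jn 10683 (by decide +kernel) ?_
    refine jn 11053 (by decide +kernel) ?_
    refine jn 11196 (by decide +kernel) ?_
    refine jn 11341 (by decide +kernel) ?_
    refine jn 11451 (by decide +kernel) ?_
    refine jn 11544 (by decide +kernel) ?_
    refine jn 11643 (by decide +kernel) ?_
    refine jn 11732 (by decide +kernel) ?_
    refine jn 11813 (by decide +kernel) ?_
    refine jn 11893 (by decide +kernel) ?_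
    refine jn 12157 (by decide +kernel) ?_
    refine jn 12317 (by decide +kernel) ?_
    refine jn 12457 (by decide +kernel) ?_
    refine jn 12551 (by decide +kernel) ?_
    refine jn 12657 (by decide +kernel) ?_
    refine jn 12740 (by decide +kernel) ?_
    refine jn 12790 (by decide +kernel) ?_
    refine jn 12847 (by decide +kernel) ?_
    refine jn 12923 (by decide +kernel) ?_
    refine jn 12975 (by decide +kernel) ?_
    refine jn 13036 (by decide +kernel) ?_
    refine jn 13080 (by decide +kernel) ?_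
    refine jn 13130 (by decide +kernel) ?_
    refine jn 13185 (by decide +kernel) ?_
    refine jn 13506 (by decide +kernel) ?_
    refine jn 13686 (by decide +kernel) ?_
    refine jn 13840 (by decide +kernel) ?_
    refine jn 13962 (by decide +kernel) ?_
    refine jn 14055 (by decide +kernel) ?_
    refine jn 14171 (by decide +kernel) ?_
    refine jn 14251 (by decide +kernel) ?_
    refine jn 14327 (by decide +kernel) ?_
    refine jn 14387 (by decide +kernel) ?_
    refine jn 14451 (by decide +kernel) ?_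
    refine jn 14513 (by decide +kernel) ?_
    refine jn 14937 (by decide +kernel) ?_
    refine jn 15153 (by decide +kernel) ?_
    refine jn 15310 (by decide +kernel) ?_
    refine jn 15462 (by decide +kernel) ?_
    refine jn 15589 (by decide +kernel) ?_
    refine jn 15681 (by decide +kernel) ?_
    refine jn 15791 (by decide +kernel) ?_
    refine jn 16281 (by decide +kernel) ?_
    exact je (by decide +kernel)
  · refine fin 1656 16831 T66_1 ?_
    refine jn 14 (by decide +kernel) ?_
    refine jn 25 (by decide +kernel) ?_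
    refine jn 29 (by decide +kernel) ?_
    refine jn 32 (by decide +kernel) ?_
    refine jn 49 (by decide +kernel) ?_
    refine jn 51 (by decide +kernel) ?_
    refine jn 61 (by decide +kernel) ?_
    refine jn 73 (by decide +kernel) ?_
    refine jn 81 (by decide +kernel) ?_
    refine jn 82 (by decide +kernel) ?_
    refine jn 84 (by decide +kernel) ?_
    refine jn 94 (by decide +kernel) ?_
    refine jn 102 (by decide +kernel) ?_
    refine jn 105 (by decide +kernel) ?_
    refine jn 122 (by decide +kernel) ?_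
    refine jn 151 (by decide +kernel) ?_
    refine jn 160 (by decide +kernel) ?_
    refine jn 183 (by decide +kernel) ?_
    refine jn 196 (by decide +kernel) ?_
    refine jn 198 (by decide +kernel) ?_
    refine jn 223 (by decide +kernel) ?_
    refine jn 284 (by decide +kernel) ?_
    refine jn 290 (by decide +kernel) ?_
    refine jn 291 (by decide +kernel) ?_
    refine jn 305 (by decide +kernel) ?_
    refine jn 308 (by decide +kernel) ?_
    refine jn 311 (by decide +kernel) ?_
    refine jn 317 (by decide +kernel) ?_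
    refine jn 318 (by decide +kernel) ?_
    refine jn 331 (by decide +kernel) ?_
    refine jn 340 (by decide +kernel) ?_
    refine jn 341 (by decide +kernel) ?_
    refine jn 346 (by decide +kernel) ?_
    refine jn 353 (by decide +kernel) ?_
    refine jn 354 (by decide +kernel) ?_
    refine jn 357 (by decide +kernel) ?_
    refine jn 358 (by decide +kernel) ?_
    refine jn 375 (by decide +kernel) ?_
    refine jn 377 (by decide +kernel) ?_
    refine jn 380 (by decide +kernel) ?_
    refine jn 381 (by decide +kernel) ?_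
    refine jn 392 (by decide +kernel) ?_
    refine jn 397 (by decide +kernel) ?_
    refine jn 412 (by decide +kernel) ?_
    refine jn 414 (by decide +kernel) ?_
    refine jn 419 (by decide +kernel) ?_
    refine jn 423 (by decide +kernel) ?_
    refine jn 424 (by decide +kernel) ?_
    refine jn 438 (by decide +kernel) ?_
    refine jn 447 (by decide +kernel) ?_
    refine jn 459 (by decide +kernel) ?_
    refine jn 460 (by decide +kernel) ?_
    refine jn 466 (by decide +kernel) ?_
    refine jn 482 (by decide +kernel) ?_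
    refine jn 486 (by decide +kernel) ?_
    refine jn 489 (by decide +kernel) ?_
    refine jn 502 (by decide +kernel) ?_
    refine jn 512 (by decide +kernel) ?_
    refine jn 520 (by decide +kernel) ?_
    refine jn 525 (by decide +kernel) ?_
    refine jn 529 (by decide +kernel) ?_
    refine jn 530 (by decide +kernel) ?_
    refine jn 548 (by decide +kernel) ?_
    refine jn 553 (by decide +kernel) ?_
    refine jn 565 (by decide +kernel) ?_
    refine jn 566 (by decide +kernel) ?_
    refine jn 572 (by decide +kernel) ?_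
    refine jn 588 (by decide +kernel) ?_
    refine jn 592 (by decide +kernel) ?_
    refine jn 595 (by decide +kernel) ?_
    refine jn 623 (by decide +kernel) ?_
    refine jn 656 (by decide +kernel) ?_
    refine jn 679 (by decide +kernel) ?_
    refine jn 680 (by decide +kernel) ?_
    refine jn 715 (by decide +kernel) ?_
    refine jn 719 (by decide +kernel) ?_
    refine jn 739 (by decide +kernel) ?_
    refine jn 778 (by decide +kernel) ?_
    refine jn 816 (by decide +kernel) ?_
    refine jn 819 (by decide +kernel) ?_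
    refine jn 823 (by decide +kernel) ?_
    refine jn 824 (by decide +kernel) ?_
    refine jn 831 (by decide +kernel) ?_
    refine jn 840 (by decide +kernel) ?_
    refine jn 850 (by decide +kernel) ?_
    refine jn 856 (by decide +kernel) ?_
    refine jn 863 (by decide +kernel) ?_
    refine jn 864 (by decide +kernel) ?_
    refine jn 870 (by decide +kernel) ?_
    refine jn 879 (by decide +kernel) ?_
    refine jn 880 (by decide +kernel) ?_
    refine jn 893 (by decide +kernel) ?_
    refine jn 908 (by decide +kernel) ?_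
    refine jn 911 (by decide +kernel) ?_
    refine jn 912 (by decide +kernel) ?_
    refine jn 915 (by decide +kernel) ?_
    refine jn 916 (by decide +kernel) ?_
    refine jn 925 (by decide +kernel) ?_
    refine jn 933 (by decide +kernel) ?_
    refine jn 934 (by decide +kernel) ?_
    refine jn 939 (by decide +kernel) ?_
    refine jn 943 (by decide +kernel) ?_
    refine jn 946 (by decide +kernel) ?_
    refine jn 955 (by decide +kernel) ?_
    refine jn 964 (by decide +kernel) ?_
    refine jn 968 (by decide +kernel) ?_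
    refine jn 972 (by decide +kernel) ?_
    refine jn 973 (by decide +kernel) ?_
    refine jn 980 (by decide +kernel) ?_
    refine jn 990 (by decide +kernel) ?_
    refine jn 1000 (by decide +kernel) ?_
    refine jn 1012 (by decide +kernel) ?_
    refine jn 1018 (by decide +kernel) ?_
    refine jn 1022 (by decide +kernel) ?_
    refine jn 1028 (by decide +kernel) ?_
    refine jn 1029 (by decide +kernel) ?_
    refine jn 1042 (by decide +kernel) ?_
    refine jn 1057 (by decide +kernel) ?_
    refine jn 1060 (by decide +kernel) ?_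
    refine jn 1064 (by decide +kernel) ?_
    refine jn 1065 (by decide +kernel) ?_
    refine jn 1082 (by decide +kernel) ?_
    refine jn 1083 (by decide +kernel) ?_
    refine jn 1088 (by decide +kernel) ?_
    refine jn 1092 (by decide +kernel) ?_
    refine jn 1097 (by decide +kernel) ?_
    refine jn 1105 (by decide +kernel) ?_
    refine jn 1175 (by decide +kernel) ?_
    refine jn 1247 (by decide +kernel) ?_
    refine jn 1370 (by decide +kernel) ?_
    refine jn 1380 (by decide +kernel) ?_
    refine jn 1389 (by decide +kernel) ?_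
    refine jn 1395 (by decide +kernel) ?_
    refine jn 1400 (by decide +kernel) ?_
    refine jn 1412 (by decide +kernel) ?_
    refine jn 1416 (by decide +kernel) ?_
    refine jn 1426 (by decide +kernel) ?_
    refine jn 1434 (by decide +kernel) ?_
    refine jn 1435 (by decide +kernel) ?_
    refine jn 1442 (by decide +kernel) ?_
    refine jn 1445 (by decide +kernel) ?_
    refine jn 1456 (by decide +kernel) ?_
    refine jn 1462 (by decide +kernel) ?_
    refine jn 1469 (by decide +kernel) ?_
    refine jn 1479 (by decide +kernel) ?_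
    refine jn 1482 (by decide +kernel) ?_
    refine jn 1491 (by decide +kernel) ?_
    refine jn 1497 (by decide +kernel) ?_
    refine jn 1506 (by decide +kernel) ?_
    refine jn 1507 (by decide +kernel) ?_
    refine jn 1514 (by decide +kernel) ?_
    refine jn 1515 (by decide +kernel) ?_
    refine jn 1525 (by decide +kernel) ?_
    refine jn 1531 (by decide +kernel) ?_
    refine jn 1549 (by decide +kernel) ?_
    refine jn 1554 (by decide +kernel) ?_
    refine jn 1557 (by decide +kernel) ?_
    refine jn 1560 (by decide +kernel) ?_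
    refine jn 1566 (by decide +kernel) ?_
    refine jn 1575 (by decide +kernel) ?_
    refine jn 1585 (by decide +kernel) ?_
    refine jn 1593 (by decide +kernel) ?_
    refine jn 1602 (by decide +kernel) ?_
    refine jn 1608 (by decide +kernel) ?_
    refine jn 1613 (by decide +kernel) ?_
    refine jn 1625 (by decide +kernel) ?_
    refine jn 1629 (by decide +kernel) ?_
    refine jn 1639 (by decide +kernel) ?_
    refine jn 1647 (by decide +kernel) ?_
    refine jn 1648 (by decide +kernel) ?_
    refine jn 1655 (by decide +kernel) ?_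
    refine jn 1662 (by decide +kernel) ?_
    refine jn 1670 (by decide +kernel) ?_
    refine jn 1677 (by decide +kernel) ?_
    refine jn 1685 (by decide +kernel) ?_
    refine jn 1695 (by decide +kernel) ?_
    refine jn 1705 (by decide +kernel) ?_
    refine jn 1719 (by decide +kernel) ?_
    refine jn 1720 (by decide +kernel) ?_
    refine jn 1727 (by decide +kernel) ?_
    refine jn 1728 (by decide +kernel) ?_
    refine jn 1739 (by decide +kernel) ?_
    refine jn 1747 (by decide +kernel) ?_
    refine jn 1763 (by decide +kernel) ?_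
    refine jn 1767 (by decide +kernel) ?_
    refine jn 1770 (by decide +kernel) ?_
    refine jn 1777 (by decide +kernel) ?_
    refine jn 1787 (by decide +kernel) ?_
    refine jn 1805 (by decide +kernel) ?_
    refine jn 1820 (by decide +kernel) ?_
    refine jn 1844 (by decide +kernel) ?_
    refine jn 1883 (by decide +kernel) ?_
    refine jn 1908 (by decide +kernel) ?_
    refine jn 1929 (by decide +kernel) ?_
    refine jn 1959 (by decide +kernel) ?_
    refine jn 1999 (by decide +kernel) ?_
    refine jn 2012 (by decide +kernel) ?_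
    refine jn 2023 (by decide +kernel) ?_
    refine jn 2048 (by decide +kernel) ?_
    refine jn 2060 (by decide +kernel) ?_
    refine jn 2092 (by decide +kernel) ?_
    refine jn 2111 (by decide +kernel) ?_
    refine jn 2119 (by decide +kernel) ?_
    refine jn 2129 (by decide +kernel) ?_
    refine jn 2146 (by decide +kernel) ?_
    refine jn 2163 (by decide +kernel) ?_
    refine jn 2183 (by decide +kernel) ?_
    refine jn 2196 (by decide +kernel) ?_
    refine jn 2207 (by decide +kernel) ?_
    refine jn 2216 (by decide +kernel) ?_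
    refine jn 2228 (by decide +kernel) ?_
    refine jn 2239 (by decide +kernel) ?_
    refine jn 2240 (by decide +kernel) ?_
    refine jn 2267 (by decide +kernel) ?_
    refine jn 2284 (by decide +kernel) ?_
    refine jn 2303 (by decide +kernel) ?_
    refine jn 2311 (by decide +kernel) ?_
    refine jn 2312 (by decide +kernel) ?_
    refine jn 2326 (by decide +kernel) ?_
    refine jn 2347 (by decide +kernel) ?_
    refine jn 2348 (by decide +kernel) ?_
    refine jn 2366 (by decide +kernel) ?_
    refine jn 2377 (by decide +kernel) ?_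
    refine jn 2393 (by decide +kernel) ?_
    refine jn 2423 (by decide +kernel) ?_
    refine jn 2432 (by decide +kernel) ?_
    refine jn 2453 (by decide +kernel) ?_
    refine jn 2486 (by decide +kernel) ?_
    refine jn 2498 (by decide +kernel) ?_
    refine jn 2531 (by decide +kernel) ?_
    refine jn 2558 (by decide +kernel) ?_
    refine jn 2587 (by decide +kernel) ?_
    refine jn 2616 (by decide +kernel) ?_
    refine jn 2648 (by decide +kernel) ?_
    refine jn 2675 (by decide +kernel) ?_
    refine jn 2676 (by decide +kernel) ?_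
    refine jn 2698 (by decide +kernel) ?_
    refine jn 2731 (by decide +kernel) ?_
    refine jn 2763 (by decide +kernel) ?_
    refine jn 2783 (by decide +kernel) ?_
    refine jn 2811 (by decide +kernel) ?_
    refine jn 2843 (by decide +kernel) ?_
    refine jn 2848 (by decide +kernel) ?_
    refine jn 2852 (by decide +kernel) ?_
    refine jn 2857 (by decide +kernel) ?_
    refine jn 2865 (by decide +kernel) ?_
    refine jn 2886 (by decide +kernel) ?_
    refine jn 2911 (by decide +kernel) ?_
    refine jn 2920 (by decide +kernel) ?_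
    refine jn 2932 (by decide +kernel) ?_
    refine jn 2947 (by decide +kernel) ?_
    refine jn 2957 (by decide +kernel) ?_
    refine jn 2983 (by decide +kernel) ?_
    refine jn 3000 (by decide +kernel) ?_
    refine jn 3016 (by decide +kernel) ?_
    refine jn 3035 (by decide +kernel) ?_
    refine jn 3055 (by decide +kernel) ?_
    refine jn 3075 (by decide +kernel) ?_
    refine jn 3098 (by decide +kernel) ?_
    refine jn 3100 (by decide +kernel) ?_
    refine jn 3101 (by decide +kernel) ?_
    refine jn 3116 (by decide +kernel) ?_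
    refine jn 3128 (by decide +kernel) ?_
    refine jn 3150 (by decide +kernel) ?_
    refine jn 3165 (by decide +kernel) ?_
    refine jn 3188 (by decide +kernel) ?_
    refine jn 3200 (by decide +kernel) ?_
    refine jn 3208 (by decide +kernel) ?_
    refine jn 3213 (by decide +kernel) ?_
    refine jn 3236 (by decide +kernel) ?_
    refine jn 3265 (by decide +kernel) ?_
    refine jn 3275 (by decide +kernel) ?_
    refine jn 3284 (by decide +kernel) ?_
    refine jn 3296 (by decide +kernel) ?_
    refine jn 3312 (by decide +kernel) ?_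
    refine jn 3329 (by decide +kernel) ?_
    refine jn 3344 (by decide +kernel) ?_
    refine jn 3365 (by decide +kernel) ?_
    refine jn 3384 (by decide +kernel) ?_
    refine jn 3415 (by decide +kernel) ?_
    refine jn 3424 (by decide +kernel) ?_
    refine jn 3444 (by decide +kernel) ?_
    refine jn 3464 (by decide +kernel) ?_
    refine jn 3472 (by decide +kernel) ?_
    refine jn 3489 (by decide +kernel) ?_
    refine jn 3505 (by decide +kernel) ?_
    refine jn 3526 (by decide +kernel) ?_
    refine jn 3545 (by decide +kernel) ?_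
    refine jn 3574 (by decide +kernel) ?_
    refine jn 3592 (by decide +kernel) ?_
    refine jn 3606 (by decide +kernel) ?_
    refine jn 3636 (by decide +kernel) ?_
    refine jn 3664 (by decide +kernel) ?_
    refine jn 3674 (by decide +kernel) ?_
    refine jn 3680 (by decide +kernel) ?_
    refine jn 3687 (by decide +kernel) ?_
    refine jn 3707 (by decide +kernel) ?_
    refine jn 3730 (by decide +kernel) ?_
    refine jn 3752 (by decide +kernel) ?_
    refine jn 3753 (by decide +kernel) ?_
    refine jn 3779 (by decide +kernel) ?_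
    refine jn 3802 (by decide +kernel) ?_
    refine jn 3834 (by decide +kernel) ?_
    refine jn 3859 (by decide +kernel) ?_
    refine jn 3887 (by decide +kernel) ?_
    refine jn 3899 (by decide +kernel) ?_
    refine jn 3907 (by decide +kernel) ?_
    refine jn 3917 (by decide +kernel) ?_
    refine jn 3933 (by decide +kernel) ?_
    refine jn 3954 (by decide +kernel) ?_
    refine jn 3979 (by decide +kernel) ?_
    refine jn 3998 (by decide +kernel) ?_
    refine jn 4019 (by decide +kernel) ?_
    refine jn 4035 (by decide +kernel) ?_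
    refine jn 4043 (by decide +kernel) ?_
    refine jn 4050 (by decide +kernel) ?_
    refine jn 4078 (by decide +kernel) ?_
    refine jn 4115 (by decide +kernel) ?_
    refine jn 4134 (by decide +kernel) ?_
    refine jn 4160 (by decide +kernel) ?_
    refine jn 4183 (by decide +kernel) ?_
    refine jn 4215 (by decide +kernel) ?_
    refine jn 4235 (by decide +kernel) ?_
    refine jn 4257 (by decide +kernel) ?_
    refine jn 4288 (by decide +kernel) ?_
    refine jn 4313 (by decide +kernel) ?_
    refine jn 4343 (by decide +kernel) ?_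
    refine jn 4367 (by decide +kernel) ?_
    refine jn 4393 (by decide +kernel) ?_
    refine jn 4403 (by decide +kernel) ?_
    refine jn 4413 (by decide +kernel) ?_
    refine jn 4439 (by decide +kernel) ?_
    refine jn 4468 (by decide +kernel) ?_
    refine jn 4502 (by decide +kernel) ?_
    refine jn 4529 (by decide +kernel) ?_
    refine jn 4560 (by decide +kernel) ?_
    refine jn 4587 (by decide +kernel) ?_
    refine jn 4607 (by decide +kernel) ?_
    refine jn 4619 (by decide +kernel) ?_
    refine jn 4630 (by decide +kernel) ?_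
    refine jn 4663 (by decide +kernel) ?_
    refine jn 4689 (by decide +kernel) ?_
    refine jn 4800 (by decide +kernel) ?_
    refine jn 4938 (by decide +kernel) ?_
    refine jn 4974 (by decide +kernel) ?_
    refine jn 5015 (by decide +kernel) ?_
    refine jn 5064 (by decide +kernel) ?_
    refine jn 5110 (by decide +kernel) ?_
    refine jn 5159 (by decide +kernel) ?_
    refine jn 5199 (by decide +kernel) ?_
    refine jn 5250 (by decide +kernel) ?_
    refine jn 5304 (by decide +kernel) ?_
    refine jn 5350 (by decide +kernel) ?_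
    refine jn 5391 (by decide +kernel) ?_
    refine jn 5434 (by decide +kernel) ?_
    refine jn 5485 (by decide +kernel) ?_
    refine jn 5554 (by decide +kernel) ?_
    refine jn 5601 (by decide +kernel) ?_
    refine jn 5649 (by decide +kernel) ?_
    refine jn 5706 (by decide +kernel) ?_
    refine jn 5754 (by decide +kernel) ?_
    refine jn 5800 (by decide +kernel) ?_
    refine jn 5856 (by decide +kernel) ?_
    refine jn 5910 (by decide +kernel) ?_
    refine jn 5941 (by decide +kernel) ?_
    refine jn 5994 (by decide +kernel) ?_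
    refine jn 6056 (by decide +kernel) ?_
    refine jn 6101 (by decide +kernel) ?_
    refine jn 6327 (by decide +kernel) ?_
    refine jn 6392 (by decide +kernel) ?_
    refine jn 6445 (by decide +kernel) ?_
    refine jn 6484 (by decide +kernel) ?_
    refine jn 6540 (by decide +kernel) ?_
    refine jn 6607 (by decide +kernel) ?_
    refine jn 6661 (by decide +kernel) ?_
    refine jn 6701 (by decide +kernel) ?_
    refine jn 6764 (by decide +kernel) ?_
    refine jn 6835 (by decide +kernel) ?_
    refine jn 6892 (by decide +kernel) ?_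
    refine jn 6956 (by decide +kernel) ?_
    refine jn 7017 (by decide +kernel) ?_
    refine jn 7071 (by decide +kernel) ?_
    refine jn 7121 (by decide +kernel) ?_
    refine jn 7181 (by decide +kernel) ?_
    refine jn 7237 (by decide +kernel) ?_
    refine jn 7305 (by decide +kernel) ?_
    refine jn 7351 (by decide +kernel) ?_
    refine jn 7417 (by decide +kernel) ?_
    refine jn 7466 (by decide +kernel) ?_
    refine jn 7529 (by decide +kernel) ?_
    refine jn 7585 (by decide +kernel) ?_
    refine jn 7642 (by decide +kernel) ?_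
    refine jn 7702 (by decide +kernel) ?_
    refine jn 7769 (by decide +kernel) ?_
    refine jn 7827 (by decide +kernel) ?_
    refine jn 7885 (by decide +kernel) ?_
    refine jn 7946 (by decide +kernel) ?_
    refine jn 8019 (by decide +kernel) ?_
    refine jn 8254 (by decide +kernel) ?_
    refine jn 8470 (by decide +kernel) ?_
    refine jn 8659 (by decide +kernel) ?_
    refine jn 8780 (by decide +kernel) ?_
    refine jn 8843 (by decide +kernel) ?_
    refine jn 8926 (by decide +kernel) ?_
    refine jn 9004 (by decide +kernel) ?_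
    refine jn 9070 (by decide +kernel) ?_
    refine jn 9136 (by decide +kernel) ?_
    refine jn 9201 (by decide +kernel) ?_
    refine jn 9264 (by decide +kernel) ?_
    refine jn 9310 (by decide +kernel) ?_
    refine jn 9668 (by decide +kernel) ?_
    refine jn 9869 (by decide +kernel) ?_
    refine jn 9974 (by decide +kernel) ?_
    refine jn 10098 (by decide +kernel) ?_
    refine jn 10224 (by decide +kernel) ?_
    refine jn 10287 (by decide +kernel) ?_
    refine jn 10359 (by decide +kernel) ?_
    refine jn 10434 (by decide +kernel) ?_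
    refine jn 10509 (by decide +kernel) ?_
    refine jn 10566 (by decide +kernel) ?_
    refine jn 10620 (by decide +kernel) ?_
    refine jn 11060 (by decide +kernel) ?_
    refine jn 11240 (by decide +kernel) ?_
    refine jn 11372 (by decide +kernel) ?_
    refine jn 11474 (by decide +kernel) ?_
    refine jn 11556 (by decide +kernel) ?_
    refine jn 11644 (by decide +kernel) ?_
    refine jn 11742 (by decide +kernel) ?_
    refine jn 11834 (by decide +kernel) ?_
    refine jn 11914 (by decide +kernel) ?_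
    refine jn 12248 (by decide +kernel) ?_
    refine jn 12411 (by decide +kernel) ?_
    refine jn 12591 (by decide +kernel) ?_
    refine jn 12678 (by decide +kernel) ?_
    refine jn 12747 (by decide +kernel) ?_
    refine jn 12812 (by decide +kernel) ?_
    refine jn 12874 (by decide +kernel) ?_
    refine jn 12946 (by decide +kernel) ?_
    refine jn 13020 (by decide +kernel) ?_
    refine jn 13081 (by decide +kernel) ?_
    refine jn 13152 (by decide +kernel) ?_
    refine jn 13198 (by decide +kernel) ?_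
    refine jn 13602 (by decide +kernel) ?_
    refine jn 13759 (by decide +kernel) ?_
    refine jn 13914 (by decide +kernel) ?_
    refine jn 14028 (by decide +kernel) ?_
    refine jn 14129 (by decide +kernel) ?_
    refine jn 14208 (by decide +kernel) ?_
    refine jn 14294 (by decide +kernel) ?_
    refine jn 14377 (by decide +kernel) ?_
    refine jn 14469 (by decide +kernel) ?_
    refine jn 14887 (by decide +kernel) ?_
    refine jn 15058 (by decide +kernel) ?_
    refine jn 15218 (by decide +kernel) ?_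
    refine jn 15404 (by decide +kernel) ?_
    refine jn 15513 (by decide +kernel) ?_
    refine jn 15644 (by decide +kernel) ?_
    refine jn 15772 (by decide +kernel) ?_
    refine jn 16289 (by decide +kernel) ?_
    exact je (by decide +kernel)
  · refine fin 2760 6852 T66_2 ?_
    refine jn 9 (by decide +kernel) ?_
    refine jn 13 (by decide +kernel) ?_
    refine jn 18 (by decide +kernel) ?_
    refine jn 24 (by decide +kernel) ?_
    refine jn 28 (by decide +kernel) ?_
    refine jn 33 (by decide +kernel) ?_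
    refine jn 41 (by decide +kernel) ?_
    refine jn 51 (by decide +kernel) ?_
    refine jn 62 (by decide +kernel) ?_
    refine jn 70 (by decide +kernel) ?_
    refine jn 79 (by decide +kernel) ?_
    refine jn 90 (by decide +kernel) ?_
    refine jn 122 (by decide +kernel) ?_
    refine jn 140 (by decide +kernel) ?_
    refine jn 148 (by decide +kernel) ?_
    refine jn 159 (by decide +kernel) ?_
    refine jn 174 (by decide +kernel) ?_
    refine jn 193 (by decide +kernel) ?_
    refine jn 194 (by decide +kernel) ?_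
    refine jn 195 (by decide +kernel) ?_
    refine jn 196 (by decide +kernel) ?_
    refine jn 197 (by decide +kernel) ?_
    refine jn 200 (by decide +kernel) ?_
    refine jn 203 (by decide +kernel) ?_
    refine jn 204 (by decide +kernel) ?_
    refine jn 205 (by decide +kernel) ?_
    refine jn 206 (by decide +kernel) ?_
    refine jn 207 (by decide +kernel) ?_
    refine jn 208 (by decide +kernel) ?_
    refine jn 209 (by decide +kernel) ?_
    refine jn 210 (by decide +kernel) ?_
    refine jn 211 (by decide +kernel) ?_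
    refine jn 212 (by decide +kernel) ?_
    refine jn 219 (by decide +kernel) ?_
    refine jn 235 (by decide +kernel) ?_
    refine jn 241 (by decide +kernel) ?_
    refine jn 256 (by decide +kernel) ?_
    refine jn 263 (by decide +kernel) ?_
    refine jn 264 (by decide +kernel) ?_
    refine jn 265 (by decide +kernel) ?_
    refine jn 269 (by decide +kernel) ?_
    refine jn 271 (by decide +kernel) ?_
    refine jn 282 (by decide +kernel) ?_
    refine jn 294 (by decide +kernel) ?_
    refine jn 301 (by decide +kernel) ?_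
    refine jn 316 (by decide +kernel) ?_
    refine jn 330 (by decide +kernel) ?_
    refine jn 345 (by decide +kernel) ?_
    refine jn 358 (by decide +kernel) ?_
    refine jn 370 (by decide +kernel) ?_
    refine jn 381 (by decide +kernel) ?_
    refine jn 397 (by decide +kernel) ?_
    refine jn 406 (by decide +kernel) ?_
    refine jn 422 (by decide +kernel) ?_
    refine jn 438 (by decide +kernel) ?_
    refine jn 454 (by decide +kernel) ?_
    refine jn 469 (by decide +kernel) ?_
    refine jn 625 (by decide +kernel) ?_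
    refine jn 736 (by decide +kernel) ?_
    refine jn 764 (by decide +kernel) ?_
    refine jn 788 (by decide +kernel) ?_
    refine jn 844 (by decide +kernel) ?_
    refine jn 884 (by decide +kernel) ?_
    refine jn 908 (by decide +kernel) ?_
    refine jn 952 (by decide +kernel) ?_
    refine jn 1044 (by decide +kernel) ?_
    refine jn 1209 (by decide +kernel) ?_
    refine jn 1229 (by decide +kernel) ?_
    refine jn 1265 (by decide +kernel) ?_
    refine jn 1281 (by decide +kernel) ?_
    refine jn 1317 (by decide +kernel) ?_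
    refine jn 1377 (by decide +kernel) ?_
    refine jn 1437 (by decide +kernel) ?_
    refine jn 1573 (by decide +kernel) ?_
    refine jn 1693 (by decide +kernel) ?_
    refine jn 1828 (by decide +kernel) ?_
    refine jn 2008 (by decide +kernel) ?_
    refine jn 2140 (by decide +kernel) ?_
    refine jn 2311 (by decide +kernel) ?_
    refine jn 2547 (by decide +kernel) ?_
    refine jn 2789 (by decide +kernel) ?_
    refine jn 3046 (by decide +kernel) ?_
    refine jn 3310 (by decide +kernel) ?_
    refine jn 3582 (by decide +kernel) ?_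
    refine jn 3989 (by decide +kernel) ?_
    refine jn 4180 (by decide +kernel) ?_
    refine jn 4508 (by decide +kernel) ?_
    refine jn 4698 (by decide +kernel) ?_
    refine jn 4829 (by decide +kernel) ?_
    refine jn 5130 (by decide +kernel) ?_
    refine jn 5386 (by decide +kernel) ?_
    refine jn 5666 (by decide +kernel) ?_
    refine jn 6053 (by decide +kernel) ?_
    refine jn 6498 (by decide +kernel) ?_
    exact je (by decide +kernel)

end Pool.Agent.MP_2339ce_nt.NR
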