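import Pool.Agent.MP_2339ce_nt.Q2.NC.L6
import Pool.Agent.MP_2339ce_nt.Q2.NC.L9
import Pool.Agent.MP_2339ce_nt.Q2.CkI

/-! Block NR: runs. -/

set_option autoImplicit false
set_option maxRecDepth 100000

noncomputable section

namespace Pool.Agent.MP_2339ce_nt.NR

open Q2.Top

def T68_0 : Ph :=
  (.na 416 10 (.na 306 8 (.na 162 7 (.nx 161 16777217 (.nr 160 1048577 (.nx 2 209 (.nr 1 71 (.lg 0
  true 1 43 43 7 0 1053360) (.l1 .sk)) (.nx 3 210 (.l1 .sk) (.nr 152 370729 (.nx 108 1048577 (.nr
  102 220437 (.nx 22 41285 (.nr 16 155873 (.lg 0 false 13 107 109 19 0 13693680) (.nx 21 2049 (.lg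
  0 false 5 97 97 13 0 1053360) .out)) (.nr 35 1026 (.lg 0 true 13 101 103 19 0 13693680) (.nx 101
  660563 (.nx 43 52015 (.nr 42 185365 (.lg 1 false 7 103 107 13 98174 13693680) .out) (.nr 48 4102
  (.lg 2 true 5 97 101 13 67280 1053360) (.nx 93 208065 (.nx 61 76448 (.lg 1 false 13 101 109 19
  92648 13693680) (.nx 87 165142 (.nx 74 112360 (.lg 1 false 13 101 109 19 63037 13693680) (.lg 1
  true 13 101 109 19 42890 13693680)) (.nr 92 185365 (.lg 1 true 5 103 107 13 24543 13693680)
  .out))) (.nr 100 77937 (.nr 95 8201 (.lg 2 false 2 101 101 7 16829 1053360) (.lg 2 false 5 103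
  107 13 8418 13693680)) .out)))) .out))) (.nx 107 814 (.lg 0 false 5 89 89 13 0 150480) .out))
  (.nr 151 129 (.nr 143 44 (.lg 0 true 35 89 89 13 0 1053360) (.nx 150 2097153 (.lg 0 true 7 83 83
  13 0 210672) .out)) .out)) (.nx 159 324 (.lg 0 false 7 83 83 13 0 210672) .out)))) .out) .out)
  (.nx 305 16777217 (.nr 304 1246976 (.nx 171 257 (.nx 164 209 (.nr 163 81 (.lg 0 true 1 41 41 9 0
  526680) (.l1 .sk)) (.nx 165 210 (.l1 .sk) (.nr 166 741456 (.l1 (.ls 97 37 3138)) (.lg 0 false 5
  73 73 16 0 526680)))) (.nr 303 440873 (.nr 298 262145 (.nx 258 1048577 (.nx 188 32768 (.nr 183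
  155873 (.lg 0 false 12 103 109 16 0 13693680) (.nx 187 2049 (.lg 0 false 4 97 97 13 0 1053360)
  .out)) (.nr 257 220437 (.nr 200 642 (.lg 0 true 12 89 97 16 0 1053360) (.nx 256 832257 (.nx 221
  89181 (.nx 213 65536 (.nr 212 185365 (.lg 1 false 12 103 107 16 123691 13693680) .out) (.lg 1
  false 8 103 107 16 73533 13693680)) (.nx 233 165142 (.lg 1 true 12 103 107 16 54037 13693680)
  (.nr 255 185365 (.nr 237 2833 (.lg 2 true 4 101 101 13 135469 1053360) (.nx 241 208065 (.lg 1
  true 4 107 107 13 24543 13693680) (.nr 254 110219 (.nr 245 12496 (.lg 2 true 4 101 101 13 30700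
  1053360) (.nr 249 65537 (.lg 2 false 4 103 103 13 6960 13693680) (.nx 253 262145 (.lg 2 false 4
  101 103 13 11592 1053360) .out))) .out))) .out))) .out)) .out)) (.nr 297 129 (.nx 266 2097153
  (.lg 0 true 8 83 83 16 0 210672) (.nr 296 47 (.lg 0 true 30 89 89 16 0 1053360) .out)) .out))
  (.nx 302 814 (.lg 0 false 4 89 89 13 0 210672) .out)) .out)) .out) .out)) (.na 307 9 .ne (.nx 415
  16777217 (.nr 414 1048577 (.nx 310 210 (.nx 309 209 (.nr 308 102 (.lg 0 true 1 37 37 7 0 15048)
  (.l1 .sk)) (.l1 .sk)) (.nx 377 1048577 (.nx 333 41285 (.nx 311 257 (.l1 (.ls 89 37 2441)) (.nr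
  332 623489 (.nr 324 185365 (.lg 0 false 13 103 109 16 0 13693680) (.nx 331 2049 (.lg 0 false 7 97
  97 16 0 526680) .out)) .out)) (.nr 376 220437 (.nr 340 764 (.lg 0 true 7 89 89 16 0 105336) (.nx
  375 832257 (.nr 344 7077 (.lg 2 true 4 101 101 16 113837 1053360) (.nx 357 92682 (.lg 1 false 13
  103 109 16 116728 13693680) (.nx 370 208065 (.lg 1 true 13 103 109 16 51996 13693680) (.nr 374
  110219 (.lg 2 false 4 103 103 16 12290 1053360) .out)))) .out)) .out)) (.nr 413 154 (.nx 384
  2097153 (.lg 0 true 7 79 79 16 0 105336) (.nr 412 65 (.lg 0 true 28 83 83 16 0 210672) .out))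
  .out))) .out) .out))) (.na 494 13 (.na 493 12 (.nx 492 2097153 (.nr 491 1048577 (.nx 419 210 (.nx
  418 209 (.nr 417 122 (.lg 0 true 1 41 41 11 0 150480) (.l1 .sk)) (.l1 .sk)) (.nx 442 52015 (.nx
  420 257 (.l1 (.ls 97 41 2197)) (.nr 441 623489 (.nr 433 185365 (.lg 0 false 13 103 109 19 0
  13693680) (.nx 440 1292 (.lg 0 false 7 89 97 13 0 1053360) .out)) .out)) (.nr 490 220437 (.nx 482
  660563 (.nr 452 7182 (.nr 449 936 (.lg 0 true 7 89 89 13 0 1053360) (.lg 2 true 3 97 97 13 73749
  150480)) (.nx 474 208065 (.nx 466 104033 (.nx 459 73561 (.lg 1 false 7 101 103 13 92648 1053360)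
  (.lg 1 false 7 101 103 13 65511 1053360)) (.nr 473 185365 (.lg 1 true 7 103 107 13 38960
  13693680) .out)) (.nr 481 65537 (.lg 2 false 7 89 101 13 9612 1053360) .out))) (.nr 489 65 (.lg 0
  true 7 79 79 13 0 1053360) .out)) .out))) .out) .out) .ne) (.na 551 14 (.nx 550 2097153 (.nr 549
  1048577 (.nx 541 660563 (.nx 496 209 (.nr 495 143 (.lg 0 true 1 37 37 9 0 195624) (.l1 .sk)) (.nx
  497 210 (.l1 .sk) (.nx 498 257 (.l1 (.ls 89 31 1691)) (.nr 540 623489 (.nr 534 185365 (.nx 514
  70783 (.lg 0 false 16 101 107 17 0 13693680) (.nr 521 2178 (.lg 0 true 7 97 97 16 0 6846840) (.nx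
  525 104033 (.lg 1 false 4 103 107 16 57261 13693680) (.nr 533 155873 (.lg 2 false 8 103 107 16
  32768 13693680) .out)))) (.nx 539 1292 (.lg 0 false 5 89 89 16 0 978120) .out)) .out)))) (.nr 548
  65 (.lg 0 true 7 73 73 16 0 1369368) .out)) .out) .out) (.na 600 15 (.nx 599 2097153 (.nr 598
  1048577 (.nx 591 660563 (.nx 553 209 (.nr 552 153 (.lg 0 false 1 37 37 11 0 210672) (.l1 .sk))
  (.nx 554 210 (.l1 .sk) (.nx 555 257 (.l1 (.ls 97 41 1570)) (.nr 590 623489 (.nr 584 185365 (.nx
  568 70783 (.lg 0 false 13 101 107 19 0 13693680) (.nr 573 2261 (.lg 0 true 5 97 97 13 0 1053360)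
  (.nx 578 104033 (.lg 1 false 5 101 103 13 57261 1053360) (.nr 583 155873 (.lg 2 false 5 107 107
  13 32768 13693680) .out)))) (.nx 589 1292 (.lg 0 false 5 89 89 13 0 1053360) .out)) .out)))) (.nr
  597 65 (.lg 0 true 6 73 73 13 0 210672) .out)) .out) .out) (.nx 656 2097153 (.nr 655 1048577 (.nr
  601 5 .s1 (.nx 605 257 (.nx 603 209 (.nr 602 164 (.lg 0 true 1 43 43 16 0 526680) (.l1 .sk)) (.nx
  604 210 (.l1 .sk) (.l1 (.ls 97 37 1466)))) (.nr 654 623489 (.nr 627 65537 (.nx 609 21841 (.lg 0
  false 4 101 101 17 0 1053360) (.nx 622 660563 (.nr 618 33683 (.nr 614 2350 (.nr 613 1207 (.lg 0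
  true 4 97 97 17 0 150480) (.lg 2 false 1 89 89 16 57191 526680)) (.lg 2 false 4 89 89 17 33892
  150480)) (.lg 2 false 4 97 97 17 65746 150480)) (.nr 626 65 (.lg 0 true 4 79 79 17 0 150480)
  .out))) (.nx 653 208065 (.nr 640 155873 (.lg 0 true 13 103 109 19 0 13693680) (.nx 652 104033
  (.nx 645 5160 (.nx 644 1292 (.lg 0 false 4 97 101 17 0 1053360) .out) (.nr 651 185365 (.nx 646
  8193 (.lg 0 true 1 97 97 16 0 526680) (.nx 647 32768 .out (.lg 0 true 4 103 107 17 0 13693680)))
  .out)) .out)) .out)) .out))) .out) .out)))))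

def T68_1 : Ph :=
  (.na 672 9 (.na 557 5 (.na 314 3 (.na 175 2 (.nx 174 1321124 (.nr 173 311745 (.nx 3 93 (.nx 2 92
  (.nr 1 10 (.lg 0 true 1 41 41 5 0 8280) (.l1 .sk)) (.l1 .sk)) (.nr 161 46342 (.nx 139 660563 (.nx
  36 8848 (.lg 0 false 33 89 97 13 0 91080) (.nr 138 38969 (.nr 102 1724 (.nx 80 330282 (.nr 69 432
  (.lg 0 true 33 83 89 13 0 91080) (.lg 2 true 11 97 97 9 35169 91080)) (.nr 101 109 (.lg 0 true 21
  83 83 11 0 57960) .out)) (.nx 137 165142 (.nx 113 16385 (.lg 1 false 11 107 107 9 18684 16576560)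
  (.nr 136 27556 (.nr 124 19485 (.lg 2 false 11 97 101 9 5057 91080) (.nx 135 65537 (.lg 2 false 11
  97 101 9 7142 91080) .out)) .out)) .out)) .out)) (.nr 160 13 (.lg 0 true 21 71 71 9 0 11592)
  .out)) (.nx 172 205 (.lg 0 false 11 83 83 9 0 18216) .out))) .out) .out) (.nx 313 3329023 (.nr
  312 623489 (.nx 177 92 (.nr 176 19 (.lg 0 true 1 37 37 5 0 43056) (.l1 .sk)) (.nx 178 93 (.l1
  .sk) (.nr 296 77937 (.nx 219 20644 (.nr 213 65537 (.lg 0 false 35 97 101 13 0 115920) (.nx 218
  1292 (.lg 0 false 5 79 79 9 0 16560) .out)) (.nr 295 46342 (.nr 273 257 (.nx 254 1321124 (.lg 0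
  true 35 83 83 13 0 115920) (.nr 272 9 (.lg 0 true 18 67 67 9 0 3312) .out)) (.nx 294 165142 (.nr
  280 1100 (.lg 2 true 7 83 83 9 29559 23184) (.lg 2 false 14 103 107 9 9520 16576560)) .out))
  .out)) (.nx 311 205 (.lg 0 false 15 79 79 9 0 16560) .out)))) .out) .out)) (.na 432 4 (.nx 431
  6658044 (.nr 430 881745 (.nx 404 1321124 (.nx 317 93 (.nx 316 92 (.nr 315 26 (.lg 0 true 1 29 29
  5 0 1656) (.l1 .sk)) (.l1 .sk)) (.nr 393 110219 (.nx 382 416129 (.nx 333 8944 (.nr 327 55110 (.lg
  0 false 10 97 97 16 0 16560) (.nx 332 1292 (.lg 0 false 5 89 89 7 0 8280) .out)) (.nr 381 65537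
  (.nr 348 364 (.lg 0 true 15 79 79 16 0 8280) (.nx 380 208065 (.nx 354 13003 (.nr 353 55110 (.lg 1
  false 5 97 97 7 26122 16560) .out) (.nx 364 28090 (.nx 359 19111 (.lg 1 false 5 97 101 7 21361
  16560) (.lg 1 false 5 97 101 7 14534 16560)) (.nr 369 3220 (.lg 2 true 5 89 89 7 26294 8280) (.nx
  374 52017 (.lg 1 true 5 107 107 7 9888 16576560) (.nr 379 38969 (.lg 2 false 5 97 97 7 3178
  57960) .out))))) .out)) .out)) (.nr 392 109 (.lg 0 true 10 83 83 16 0 16560) .out)) (.nx 403 205
  (.lg 0 false 10 83 83 16 0 16560) .out))) (.nr 429 13 (.lg 0 true 25 73 73 7 0 8280) .out)) .out)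
  .out) (.nx 556 10568985 (.nr 555 1246976 (.nx 434 92 (.nr 433 33 (.lg 0 true 1 31 31 9 0 3312)
  (.l1 .sk)) (.nx 435 93 (.l1 .sk) (.nr 543 155873 (.nx 491 330282 (.nx 454 10321 (.nr 446 55110
  (.lg 0 false 11 97 101 13 0 182160) (.nx 453 1292 (.lg 0 false 7 89 97 11 0 115920) .out)) (.nr
  490 65537 (.nr 468 2635 (.nr 465 694 (.lg 0 true 11 89 89 13 0 182160) (.lg 2 true 3 89 89 9
  21892 3312)) (.nx 482 41287 (.nx 475 20642 (.lg 1 false 7 97 101 11 26912 115920) (.lg 1 true 7
  101 107 11 13456 16576560)) (.nr 489 55110 (.lg 2 false 7 97 101 11 5766 115920) .out))) .out))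
  (.nr 542 183 (.nr 530 33 (.lg 0 true 39 83 83 13 0 43056) (.nx 541 1321124 (.lg 0 true 11 89 89
  13 0 182160) .out)) .out)) (.nx 554 205 (.lg 0 false 11 83 83 13 0 36432) .out)))) .out) .out)))
  (.na 604 7 (.na 558 6 .ne (.nx 603 1321124 (.nr 602 220437 (.nx 561 93 (.nx 560 92 (.nr 559 47
  (.lg 0 false 1 31 31 7 0 16560) (.l1 .sk)) (.l1 .sk)) (.nr 594 55110 (.nx 572 16932 (.lg 0 false
  11 97 97 17 0 182160) (.nr 583 501 (.lg 0 true 11 89 89 17 0 36432) (.nx 593 416129 (.nr 586 1905
  (.lg 2 true 3 83 83 13 38208 3312) (.lg 2 false 7 101 103 13 13798 1506960)) .out))) (.nx 601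
  1292 (.lg 0 false 7 89 89 13 0 115920) .out))) .out) .out)) (.na 605 8 .ne (.nx 671 10568985 (.nr
  670 623489 (.nx 608 93 (.nx 607 92 (.nr 606 61 (.lg 0 false 1 29 29 9 0 3312) (.l1 .sk)) (.l1
  .sk)) (.nr 664 77937 (.nx 638 1321124 (.nx 613 13620 (.lg 0 true 5 97 97 13 0 16560) (.nr 637
  65537 (.nr 623 364 (.lg 0 true 10 79 79 13 0 16560) (.nx 636 208065 (.nr 625 2504 (.lg 2 false 2
  83 83 11 26294 3312) (.nx 630 41287 (.lg 1 true 5 89 97 13 20393 16560) (.nr 635 46342 (.lg 2
  false 5 83 89 13 4760 16560) .out))) .out)) .out)) (.nr 663 55 (.lg 0 true 25 79 79 13 0 16560)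
  .out)) (.nx 669 814 (.lg 0 false 5 83 83 13 0 16560) .out))) .out) .out)))) (.na 805 16 (.na 735
  12 (.na 734 10 (.nx 733 10568985 (.nr 732 623489 (.nx 675 93 (.nx 674 92 (.nr 673 68 (.lg 0 false
  1 29 29 7 0 8280) (.l1 .sk)) (.l1 .sk)) (.nx 690 13005 (.nr 682 77937 (.lg 0 false 7 89 89 16 0
  57960) (.nx 689 814 (.lg 0 false 7 83 83 16 0 57960) .out)) (.nr 731 65537 (.nr 723 364 (.nx 701
  1321124 (.lg 0 true 11 79 79 16 0 18216) (.nr 722 65 (.lg 0 true 21 79 79 16 0 11592) .out)) (.nx
  730 165142 (.lg 2 false 7 89 97 16 21358 57960) .out)) .out))) .out) .out) .ne) (.na 772 13 (.nx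
  771 1321124 (.nr 770 623489 (.nr 736 8 .s1 (.nx 739 93 (.nx 738 92 (.nr 737 88 (.lg 0 false 1 19
  29 13 0 3312) (.l1 .sk)) (.l1 .sk)) (.nx 750 9557 (.nr 744 92683 (.lg 0 false 5 89 89 19 0 16560)
  (.nx 749 814 (.lg 0 false 5 83 89 19 0 16560) .out)) (.nr 769 65537 (.nx 763 165142 (.nr 755 1569
  (.lg 0 true 5 79 79 19 0 16560) (.nx 760 26009 (.lg 1 false 5 83 89 19 29064 16560) (.nr 762
  46342 (.lg 2 false 2 89 89 13 7556 3312) .out))) (.nr 768 183 (.lg 0 true 5 79 79 19 0 16560)
  .out)) .out)))) .out) .out) (.nx 804 1321124 (.nr 803 623489 (.nr 773 9 .s1 (.nx 797 330282 (.nx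
  785 20644 (.nx 777 324 (.nx 775 92 (.nr 774 109 (.lg 0 false 1 19 19 9 0 21528) (.l1 .sk)) (.nx
  776 93 (.l1 .sk) (.l1 (.ls 83 41 7412)))) (.nr 784 220437 (.nr 782 92683 (.lg 0 false 5 89 89 16
  0 107640) (.nx 783 814 (.lg 0 true 1 79 79 9 0 21528) .out)) .out)) (.nr 796 55110 (.nr 790 766
  (.lg 0 true 5 73 73 16 0 107640) (.nx 795 165142 (.lg 2 false 5 83 89 16 11317 107640) .out))
  .out)) (.nr 802 65 (.lg 0 true 5 67 67 16 0 107640) .out))) .out) .out))) (.na 840 18 (.na 839 17
  (.nx 838 1321124 (.nr 837 1048577 (.nr 806 13 .s1 (.nx 808 92 (.nr 807 116 (.lg 0 true 1 19 29 11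
  0 16560) (.l1 .sk)) (.nx 809 93 (.l1 .sk) (.nx 833 165142 (.nr 830 623489 (.nx 810 205 (.l1 (.ls
  83 37 2089)) (.nx 811 324 (.l1 (.ls 83 41 3937)) (.nr 829 220437 (.nx 820 11148 (.nr 818 131073
  (.lg 0 false 7 83 97 19 0 115920) (.nx 819 814 (.lg 0 false 1 73 73 11 0 3312) .out)) (.nr 828
  65537 (.nr 823 1569 (.lg 0 true 3 79 79 13 0 3312) (.nx 825 26009 (.lg 1 false 2 89 97 13 24916
  16560) (.nr 827 46342 (.lg 2 false 2 89 89 13 7556 16560) .out))) .out)) .out))) (.nx 832 205
  (.lg 0 false 2 73 73 13 0 3312) .out)) (.nr 836 183 (.lg 0 true 3 73 73 13 0 3312) .out)))))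
  .out) .out) .ne) (.na 867 23 (.nx 866 1321124 (.nr 865 1048577 (.nr 841 16 .s1 (.nx 844 93 (.nx
  843 92 (.nr 842 157 (.l1 (.ls 19 31 473)) (.l1 .sk)) (.l1 .sk)) (.nx 853 10323 (.nx 847 324 (.nx
  845 205 (.l1 (.ls 83 41 1857)) (.nr 846 623489 (.l1 (.ls 79 43 3500)) .out)) (.nr 852 220437 (.lg
  0 false 5 89 89 19 0 16560) .out)) (.nr 864 55110 (.nr 858 498 (.lg 0 true 5 73 73 19 0 16560)
  (.nx 863 165142 (.lg 2 false 5 89 89 19 22632 16560) .out)) .out)))) .out) .out) (.na 889 24 (.nx
  888 1321124 (.nr 887 1048577 (.nr 868 21 .s1 (.nx 875 16385 (.nx 869 205 (.l1 (.ls 71 31 1830))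
  (.nr 874 185365 (.lg 0 true 5 79 79 16 0 8280) .out)) (.nr 886 38969 (.nr 882 513 (.lg 0 true 7
  67 67 16 0 11592) (.nx 885 82572 (.lg 2 true 3 67 67 11 10090 1656) .out)) .out))) .out) .out)
  (.nx 911 1321124 (.nr 910 1048577 (.nr 890 23 .s1 (.nx 893 93 (.nx 892 92 (.nr 891 177 (.l1 (.ls
  31 31 355)) (.l1 .sk)) (.l1 .sk)) (.nx 906 165142 (.nx 894 205 (.l1 (.ls 89 41 1393)) (.nr 905
  185365 (.nx 903 82572 (.nr 896 11591 (.lg 0 false 2 83 83 19 0 3312) (.nx 898 10323 (.lg 0 false
  2 101 103 19 0 1506960) (.nr 902 55110 (.nr 900 32769 (.lg 2 true 2 73 73 19 13473 3312) (.nx 901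
  26009 (.lg 0 true 1 97 97 13 0 16560) .out)) .out))) (.nr 904 513 (.lg 0 false 1 73 73 13 0
  16560) .out)) .out)) (.nr 909 183 (.lg 0 true 3 73 73 23 0 3312) .out)))) .out) .out))))))

theorem c68 :
    OkQ ckI L9 209 6 16 0 34359738368 1 1099511627776 ∧
    OkQ ckI L6 92 1 26 0 34359738368 1 1099511627776 := by
  refine ⟨?_, ?_⟩
  · refine fin 15048 657 T68_0 ?_
    refine jn 3 (by decide +kernel) ?_
    refine jn 5 (by decide +kernel) ?_
    refine jn 7 (by decide +kernel) ?_
    refine jn 9 (by decide +kernel) ?_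
    refine jn 11 (by decide +kernel) ?_
    refine jn 13 (by decide +kernel) ?_
    refine jn 15 (by decide +kernel) ?_
    refine jn 16 (by decide +kernel) ?_
    refine jn 26 (by decide +kernel) ?_
    refine jn 31 (by decide +kernel) ?_
    refine jn 35 (by decide +kernel) ?_
    refine jn 42 (by decide +kernel) ?_
    refine jn 48 (by decide +kernel) ?_
    refine jn 61 (by decide +kernel) ?_
    refine jn 73 (by decide +kernel) ?_
    refine jn 82 (by decide +kernel) ?_
    refine jn 92 (by decide +kernel) ?_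
    refine jn 100 (by decide +kernel) ?_
    refine jn 143 (by decide +kernel) ?_
    refine jn 150 (by decide +kernel) ?_
    refine jn 163 (by decide +kernel) ?_
    refine jn 171 (by decide +kernel) ?_
    refine jn 173 (by decide +kernel) ?_
    refine jn 175 (by decide +kernel) ?_
    refine jn 177 (by decide +kernel) ?_
    refine jn 179 (by decide +kernel) ?_
    refine jn 181 (by decide +kernel) ?_
    refine jn 183 (by decide +kernel) ?_
    refine jn 191 (by decide +kernel) ?_
    refine jn 195 (by decide +kernel) ?_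
    refine jn 200 (by decide +kernel) ?_
    refine jn 211 (by decide +kernel) ?_
    refine jn 221 (by decide +kernel) ?_
    refine jn 231 (by decide +kernel) ?_
    refine jn 237 (by decide +kernel) ?_
    refine jn 245 (by decide +kernel) ?_
    refine jn 253 (by decide +kernel) ?_
    refine jn 296 (by decide +kernel) ?_
    refine jn 310 (by decide +kernel) ?_
    refine jn 313 (by decide +kernel) ?_
    refine jn 316 (by decide +kernel) ?_
    refine jn 319 (by decide +kernel) ?_
    refine jn 322 (by decide +kernel) ?_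
    refine jn 331 (by decide +kernel) ?_
    refine jn 337 (by decide +kernel) ?_
    refine jn 340 (by decide +kernel) ?_
    refine jn 344 (by decide +kernel) ?_
    refine jn 357 (by decide +kernel) ?_
    refine jn 370 (by decide +kernel) ?_
    refine jn 377 (by decide +kernel) ?_
    refine jn 412 (by decide +kernel) ?_
    refine jn 420 (by decide +kernel) ?_
    refine jn 424 (by decide +kernel) ?_
    refine jn 427 (by decide +kernel) ?_
    refine jn 431 (by decide +kernel) ?_
    refine jn 433 (by decide +kernel) ?_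
    refine jn 442 (by decide +kernel) ?_
    refine jn 447 (by decide +kernel) ?_
    refine jn 452 (by decide +kernel) ?_
    refine jn 459 (by decide +kernel) ?_
    refine jn 466 (by decide +kernel) ?_
    refine jn 473 (by decide +kernel) ?_
    refine jn 481 (by decide +kernel) ?_
    refine jn 489 (by decide +kernel) ?_
    refine jn 501 (by decide +kernel) ?_
    refine jn 505 (by decide +kernel) ?_
    refine jn 509 (by decide +kernel) ?_
    refine jn 513 (by decide +kernel) ?_
    refine jn 518 (by decide +kernel) ?_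
    refine jn 525 (by decide +kernel) ?_
    refine jn 533 (by decide +kernel) ?_
    refine jn 548 (by decide +kernel) ?_
    refine jn 555 (by decide +kernel) ?_
    refine jn 559 (by decide +kernel) ?_
    refine jn 564 (by decide +kernel) ?_
    refine jn 568 (by decide +kernel) ?_
    refine jn 573 (by decide +kernel) ?_
    refine jn 583 (by decide +kernel) ?_
    refine jn 597 (by decide +kernel) ?_
    refine jn 605 (by decide +kernel) ?_
    refine jn 606 (by decide +kernel) ?_
    refine jn 607 (by decide +kernel) ?_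
    refine jn 608 (by decide +kernel) ?_
    refine jn 609 (by decide +kernel) ?_
    refine jn 610 (by decide +kernel) ?_
    refine jn 611 (by decide +kernel) ?_
    refine jn 612 (by decide +kernel) ?_
    refine jn 613 (by decide +kernel) ?_
    refine jn 614 (by decide +kernel) ?_
    refine jn 615 (by decide +kernel) ?_
    refine jn 616 (by decide +kernel) ?_
    refine jn 617 (by decide +kernel) ?_
    refine jn 618 (by decide +kernel) ?_
    refine jn 619 (by decide +kernel) ?_
    refine jn 620 (by decide +kernel) ?_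
    refine jn 621 (by decide +kernel) ?_
    refine jn 622 (by decide +kernel) ?_
    refine jn 626 (by decide +kernel) ?_
    refine jn 629 (by decide +kernel) ?_
    refine jn 631 (by decide +kernel) ?_
    refine jn 634 (by decide +kernel) ?_
    refine jn 636 (by decide +kernel) ?_
    refine jn 638 (by decide +kernel) ?_
    refine jn 644 (by decide +kernel) ?_
    refine jn 651 (by decide +kernel) ?_
    exact je (by decide +kernel)
  · refine fin 1656 912 T68_1 ?_
    refine jn 6 (by decide +kernel) ?_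
    refine jn 8 (by decide +kernel) ?_
    refine jn 10 (by decide +kernel) ?_
    refine jn 11 (by decide +kernel) ?_
    refine jn 14 (by decide +kernel) ?_
    refine jn 17 (by decide +kernel) ?_
    refine jn 19 (by decide +kernel) ?_
    refine jn 21 (by decide +kernel) ?_
    refine jn 23 (by decide +kernel) ?_
    refine jn 27 (by decide +kernel) ?_
    refine jn 29 (by decide +kernel) ?_
    refine jn 31 (by decide +kernel) ?_
    refine jn 32 (by decide +kernel) ?_
    refine jn 34 (by decide +kernel) ?_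
    refine jn 36 (by decide +kernel) ?_
    refine jn 40 (by decide +kernel) ?_
    refine jn 44 (by decide +kernel) ?_
    refine jn 48 (by decide +kernel) ?_
    refine jn 52 (by decide +kernel) ?_
    refine jn 56 (by decide +kernel) ?_
    refine jn 60 (by decide +kernel) ?_
    refine jn 64 (by decide +kernel) ?_
    refine jn 68 (by decide +kernel) ?_
    refine jn 69 (by decide +kernel) ?_
    refine jn 80 (by decide +kernel) ?_
    refine jn 94 (by decide +kernel) ?_
    refine jn 101 (by decide +kernel) ?_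
    refine jn 113 (by decide +kernel) ?_
    refine jn 124 (by decide +kernel) ?_
    refine jn 139 (by decide +kernel) ?_
    refine jn 160 (by decide +kernel) ?_
    refine jn 178 (by decide +kernel) ?_
    refine jn 183 (by decide +kernel) ?_
    refine jn 189 (by decide +kernel) ?_
    refine jn 194 (by decide +kernel) ?_
    refine jn 199 (by decide +kernel) ?_
    refine jn 203 (by decide +kernel) ?_
    refine jn 209 (by decide +kernel) ?_
    refine jn 213 (by decide +kernel) ?_
    refine jn 227 (by decide +kernel) ?_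
    refine jn 237 (by decide +kernel) ?_
    refine jn 248 (by decide +kernel) ?_
    refine jn 272 (by decide +kernel) ?_
    refine jn 280 (by decide +kernel) ?_
    refine jn 294 (by decide +kernel) ?_
    refine jn 317 (by decide +kernel) ?_
    refine jn 318 (by decide +kernel) ?_
    refine jn 319 (by decide +kernel) ?_
    refine jn 320 (by decide +kernel) ?_
    refine jn 321 (by decide +kernel) ?_
    refine jn 322 (by decide +kernel) ?_
    refine jn 323 (by decide +kernel) ?_
    refine jn 324 (by decide +kernel) ?_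
    refine jn 325 (by decide +kernel) ?_
    refine jn 326 (by decide +kernel) ?_
    refine jn 327 (by decide +kernel) ?_
    refine jn 333 (by decide +kernel) ?_
    refine jn 334 (by decide +kernel) ?_
    refine jn 335 (by decide +kernel) ?_
    refine jn 336 (by decide +kernel) ?_
    refine jn 337 (by decide +kernel) ?_
    refine jn 338 (by decide +kernel) ?_
    refine jn 339 (by decide +kernel) ?_
    refine jn 340 (by decide +kernel) ?_
    refine jn 341 (by decide +kernel) ?_
    refine jn 342 (by decide +kernel) ?_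
    refine jn 343 (by decide +kernel) ?_
    refine jn 344 (by decide +kernel) ?_
    refine jn 345 (by decide +kernel) ?_
    refine jn 346 (by decide +kernel) ?_
    refine jn 347 (by decide +kernel) ?_
    refine jn 348 (by decide +kernel) ?_
    refine jn 359 (by decide +kernel) ?_
    refine jn 364 (by decide +kernel) ?_
    refine jn 368 (by decide +kernel) ?_
    refine jn 374 (by decide +kernel) ?_
    refine jn 379 (by decide +kernel) ?_
    refine jn 387 (by decide +kernel) ?_
    refine jn 392 (by decide +kernel) ?_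
    refine jn 403 (by decide +kernel) ?_
    refine jn 429 (by decide +kernel) ?_
    refine jn 435 (by decide +kernel) ?_
    refine jn 436 (by decide +kernel) ?_
    refine jn 437 (by decide +kernel) ?_
    refine jn 438 (by decide +kernel) ?_
    refine jn 439 (by decide +kernel) ?_
    refine jn 440 (by decide +kernel) ?_
    refine jn 441 (by decide +kernel) ?_
    refine jn 442 (by decide +kernel) ?_
    refine jn 443 (by decide +kernel) ?_
    refine jn 444 (by decide +kernel) ?_
    refine jn 445 (by decide +kernel) ?_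
    refine jn 446 (by decide +kernel) ?_
    refine jn 454 (by decide +kernel) ?_
    refine jn 456 (by decide +kernel) ?_
    refine jn 457 (by decide +kernel) ?_
    refine jn 458 (by decide +kernel) ?_
    refine jn 460 (by decide +kernel) ?_
    refine jn 462 (by decide +kernel) ?_
    refine jn 463 (by decide +kernel) ?_
    refine jn 465 (by decide +kernel) ?_
    refine jn 468 (by decide +kernel) ?_
    refine jn 475 (by decide +kernel) ?_
    refine jn 482 (by decide +kernel) ?_
    refine jn 489 (by decide +kernel) ?_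
    refine jn 491 (by decide +kernel) ?_
    refine jn 496 (by decide +kernel) ?_
    refine jn 530 (by decide +kernel) ?_
    refine jn 541 (by decide +kernel) ?_
    refine jn 554 (by decide +kernel) ?_
    refine jn 561 (by decide +kernel) ?_
    refine jn 562 (by decide +kernel) ?_
    refine jn 563 (by decide +kernel) ?_
    refine jn 565 (by decide +kernel) ?_
    refine jn 566 (by decide +kernel) ?_
    refine jn 567 (by decide +kernel) ?_
    refine jn 568 (by decide +kernel) ?_
    refine jn 570 (by decide +kernel) ?_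
    refine jn 571 (by decide +kernel) ?_
    refine jn 574 (by decide +kernel) ?_
    refine jn 577 (by decide +kernel) ?_
    refine jn 581 (by decide +kernel) ?_
    refine jn 583 (by decide +kernel) ?_
    refine jn 586 (by decide +kernel) ?_
    refine jn 593 (by decide +kernel) ?_
    refine jn 608 (by decide +kernel) ?_
    refine jn 609 (by decide +kernel) ?_
    refine jn 610 (by decide +kernel) ?_
    refine jn 611 (by decide +kernel) ?_
    refine jn 612 (by decide +kernel) ?_
    refine jn 613 (by decide +kernel) ?_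
    refine jn 616 (by decide +kernel) ?_
    refine jn 619 (by decide +kernel) ?_
    refine jn 623 (by decide +kernel) ?_
    refine jn 630 (by decide +kernel) ?_
    refine jn 638 (by decide +kernel) ?_
    refine jn 663 (by decide +kernel) ?_
    refine jn 675 (by decide +kernel) ?_
    refine jn 677 (by decide +kernel) ?_
    refine jn 678 (by decide +kernel) ?_
    refine jn 679 (by decide +kernel) ?_
    refine jn 681 (by decide +kernel) ?_
    refine jn 689 (by decide +kernel) ?_
    refine jn 693 (by decide +kernel) ?_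
    refine jn 697 (by decide +kernel) ?_
    refine jn 701 (by decide +kernel) ?_
    refine jn 722 (by decide +kernel) ?_
    refine jn 730 (by decide +kernel) ?_
    refine jn 739 (by decide +kernel) ?_
    refine jn 740 (by decide +kernel) ?_
    refine jn 741 (by decide +kernel) ?_
    refine jn 742 (by decide +kernel) ?_
    refine jn 743 (by decide +kernel) ?_
    refine jn 744 (by decide +kernel) ?_
    refine jn 749 (by decide +kernel) ?_
    refine jn 750 (by decide +kernel) ?_
    refine jn 751 (by decide +kernel) ?_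
    refine jn 752 (by decide +kernel) ?_
    refine jn 753 (by decide +kernel) ?_
    refine jn 754 (by decide +kernel) ?_
    refine jn 755 (by decide +kernel) ?_
    refine jn 760 (by decide +kernel) ?_
    refine jn 761 (by decide +kernel) ?_
    refine jn 762 (by decide +kernel) ?_
    refine jn 765 (by decide +kernel) ?_
    refine jn 767 (by decide +kernel) ?_
    refine jn 768 (by decide +kernel) ?_
    refine jn 776 (by decide +kernel) ?_
    refine jn 777 (by decide +kernel) ?_
    refine jn 779 (by decide +kernel) ?_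
    refine jn 781 (by decide +kernel) ?_
    refine jn 783 (by decide +kernel) ?_
    refine jn 789 (by decide +kernel) ?_
    refine jn 795 (by decide +kernel) ?_
    refine jn 807 (by decide +kernel) ?_
    refine jn 809 (by decide +kernel) ?_
    refine jn 810 (by decide +kernel) ?_
    refine jn 811 (by decide +kernel) ?_
    refine jn 812 (by decide +kernel) ?_
    refine jn 813 (by decide +kernel) ?_
    refine jn 814 (by decide +kernel) ?_
    refine jn 815 (by decide +kernel) ?_
    refine jn 816 (by decide +kernel) ?_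
    refine jn 817 (by decide +kernel) ?_
    refine jn 819 (by decide +kernel) ?_
    refine jn 820 (by decide +kernel) ?_
    refine jn 821 (by decide +kernel) ?_
    refine jn 822 (by decide +kernel) ?_
    refine jn 823 (by decide +kernel) ?_
    refine jn 825 (by decide +kernel) ?_
    refine jn 827 (by decide +kernel) ?_
    refine jn 834 (by decide +kernel) ?_
    refine jn 835 (by decide +kernel) ?_
    refine jn 836 (by decide +kernel) ?_
    refine jn 847 (by decide +kernel) ?_
    refine jn 851 (by decide +kernel) ?_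
    refine jn 855 (by decide +kernel) ?_
    refine jn 858 (by decide +kernel) ?_
    refine jn 863 (by decide +kernel) ?_
    refine jn 882 (by decide +kernel) ?_
    refine jn 893 (by decide +kernel) ?_
    refine jn 894 (by decide +kernel) ?_
    refine jn 895 (by decide +kernel) ?_
    refine jn 896 (by decide +kernel) ?_
    refine jn 898 (by decide +kernel) ?_
    refine jn 899 (by decide +kernel) ?_
    refine jn 900 (by decide +kernel) ?_
    refine jn 904 (by decide +kernel) ?_
    refine jn 908 (by decide +kernel) ?_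
    exact je (by decide +kernel)

end Pool.Agent.MP_2339ce_nt.NR
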