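import Pool.Agent.MP_2339ce_nt.Q2.NC.L5
import Pool.Agent.MP_2339ce_nt.Q2.NC.L6
import Pool.Agent.MP_2339ce_nt.Q2.CkI

/-! Block NR: runs. -/

set_option autoImplicit false
set_option maxRecDepth 100000

noncomputable section

namespace Pool.Agent.MP_2339ce_nt.NR

open Q2.Top

def T7_0 : Ph :=
  (.na 1131 147 (.na 875 57 (.na 680 21 (.na 502 8 (.na 317 4 (.na 177 2 (.nx 176 1321124 (.nr 175
  311745 (.nx 2 108 (.nr 1 11 (.lg 0 true 1 37 37 5 0 72) (.l1 .sk)) (.nx 3 109 (.l1 .sk) (.nr 159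
  46342 (.nx 133 660563 (.nx 38 12041 (.lg 0 false 35 89 97 13 0 2520) (.nr 132 38969 (.nr 73 432
  (.lg 0 true 35 83 83 13 0 2520) (.nx 131 330282 (.nx 83 16385 (.lg 1 false 10 97 97 9 18928 720)
  (.nr 130 27556 (.nr 94 1219 (.lg 2 true 11 83 83 9 41286 792) (.nx 129 208065 (.lg 2 false 35 97
  103 13 9847 720720) .out)) .out)) .out)) .out)) (.nr 158 13 (.lg 0 true 25 67 67 9 0 360) .out))
  (.nx 174 205 (.lg 0 false 15 79 79 9 0 360) .out)))) .out) .out) (.na 178 3 .ne (.nx 316 6658044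
  (.nr 315 881745 (.nx 275 832257 (.nx 180 108 (.nr 179 28 (.lg 0 true 1 29 29 5 0 72) (.l1 .sk))
  (.nx 181 109 (.l1 .sk) (.nr 261 110219 (.nx 202 13003 (.nr 194 55110 (.lg 0 false 13 89 97 13 0
  32760) (.nx 201 1292 (.lg 0 false 7 79 79 7 0 2520) .out)) (.nr 260 65537 (.nr 218 364 (.lg 0
  true 16 79 79 16 0 144) (.nx 259 208065 (.nx 229 28090 (.lg 1 false 11 97 101 7 29444 55440) (.nr
  236 3220 (.lg 2 true 7 83 83 7 30867 2520) (.nx 247 52017 (.lg 1 true 11 97 97 7 13630 55440)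
  (.nr 258 38969 (.lg 2 false 11 83 89 7 4382 27720) .out)))) .out)) .out)) (.nx 274 205 (.lg 0
  false 13 73 73 13 0 936) .out)))) (.nr 314 33 (.lg 0 true 39 73 73 7 0 936) .out)) .out) .out)))
  (.na 429 5 (.nx 428 10568985 (.nr 427 1246976 (.nx 396 1321124 (.nx 385 330282 (.nx 320 109 (.nx
  319 108 (.nr 318 36 (.lg 0 true 1 29 29 9 0 144) (.l1 .sk)) (.l1 .sk)) (.nr 374 155873 (.nx 336
  10321 (.nr 330 55110 (.lg 0 false 10 89 89 13 0 720) (.nx 335 1292 (.lg 0 false 5 83 89 11 0 720)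
  .out)) (.nr 373 65537 (.nr 346 694 (.lg 0 true 10 79 79 13 0 720) (.nx 356 41287 (.nx 351 20642
  (.lg 1 false 5 101 101 11 37096 65520) (.lg 1 true 5 101 103 11 18548 65520)) (.nr 372 55110 (.nr
  361 2635 (.lg 2 true 5 79 83 11 25700 720) (.lg 2 false 11 97 103 13 7800 720720)) .out))) .out))
  (.nx 384 205 (.lg 0 false 10 79 79 13 0 720) .out))) (.nr 395 183 (.lg 0 true 10 79 79 13 0 720)
  .out)) (.nr 426 21 (.lg 0 true 30 79 79 11 0 720) .out)) .out) .out) (.na 430 7 .ne (.nx 501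
  10568985 (.nr 500 262145 (.nx 473 1321124 (.nx 432 108 (.nr 431 59 (.lg 0 true 1 29 29 9 0 2520)
  (.l1 .sk)) (.nx 433 109 (.l1 .sk) (.nr 467 65537 (.nx 444 15169 (.lg 0 false 11 83 89 16 0 27720)
  (.nr 455 596 (.lg 0 true 11 83 83 16 0 5544) (.nx 466 262145 (.lg 2 false 11 97 103 16 25240
  720720) .out))) (.nx 472 408 (.lg 0 false 5 73 73 16 0 2520) .out)))) (.nr 499 47 (.lg 0 true 26
  79 79 16 0 13104) .out)) .out) .out)))) (.na 571 12 (.na 503 9 .ne (.na 570 10 (.nx 569 10568985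
  (.nr 568 623489 (.nx 506 109 (.nx 505 108 (.nr 504 73 (.lg 0 true 1 29 29 13 0 504) (.l1 .sk))
  (.l1 .sk)) (.nx 542 1321124 (.nx 517 13005 (.nr 511 77937 (.lg 0 false 5 89 89 16 0 2520) (.nx
  516 814 (.lg 0 false 5 83 83 16 0 2520) .out)) (.nr 541 65537 (.nr 528 364 (.lg 0 true 11 73 73
  16 0 792) (.nx 540 165142 (.nr 529 709 (.lg 2 false 1 71 71 13 24500 504) (.nx 534 26009 (.lg 1
  false 5 89 97 16 29440 65520) (.nr 539 55110 (.lg 2 false 5 97 101 16 12578 65520) .out))) .out))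
  .out)) (.nr 567 65 (.lg 0 true 25 73 79 16 0 2520) .out))) .out) .out) .ne)) (.na 650 16 (.na 615
  13 (.nx 614 1321124 (.nr 613 623489 (.nr 572 7 .s1 (.nx 576 324 (.nx 574 108 (.nr 573 96 (.lg 0
  true 1 29 29 13 0 5040) (.l1 .sk)) (.nx 575 109 (.l1 .sk) (.l1 (.ls 83 53 7760)))) (.nr 612
  220437 (.nx 583 6503 (.nr 581 92683 (.lg 0 false 5 83 83 17 0 5040) (.nx 582 814 (.lg 0 true 1 83
  83 13 0 5040) .out)) (.nr 611 65537 (.nr 608 46342 (.nr 602 27556 (.nx 596 330282 (.nr 588 374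
  (.lg 0 true 5 73 73 17 0 720) (.nx 595 165142 (.lg 2 true 7 73 73 19 24812 1008) .out)) (.nr 601
  65 (.lg 0 true 5 67 67 17 0 720) .out)) (.nx 607 104033 (.lg 0 true 5 101 103 17 0 720720) .out))
  (.nx 610 26009 (.lg 0 false 2 97 97 13 0 5040) .out)) .out)) .out))) .out) .out) (.nx 649 1321124
  (.nr 648 623489 (.nr 616 8 .s1 (.nx 642 330282 (.nx 618 108 (.nr 617 118 (.lg 0 false 1 23 23 9 0
  4680) (.l1 .sk)) (.nx 619 109 (.l1 .sk) (.nx 620 324 (.l1 (.ls 83 41 7164)) (.nr 641 220437 (.nr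
  639 92683 (.nx 627 26009 (.lg 0 false 7 89 89 16 0 32760) (.nr 638 46342 (.nr 632 766 (.lg 0 true
  5 73 73 16 0 4680) (.nx 637 165142 (.lg 2 false 5 79 83 16 11642 4680) .out)) .out)) (.nx 640 814
  (.lg 0 true 1 79 79 9 0 4680) .out)) .out)))) (.nr 647 65 (.lg 0 true 5 61 61 16 0 4680) .out)))
  .out) .out)) (.na 651 19 .ne (.nx 679 1321124 (.nr 678 1048577 (.nr 652 16 .s1 (.nx 656 205 (.nx
  654 108 (.nr 653 155 (.lg 0 true 1 19 19 11 0 504) (.l1 .sk)) (.nx 655 109 (.l1 .sk) (.l1 (.ls 79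
  31 1589)))) (.nr 677 623489 (.nx 657 324 (.l1 (.ls 73 37 3316)) (.nr 676 220437 (.nr 674 131073
  (.nx 662 16385 (.lg 0 false 5 89 89 16 0 2520) (.nr 673 46342 (.nr 667 498 (.lg 0 true 5 73 73 16
  0 360) (.nx 672 165142 (.lg 2 false 5 83 83 16 17907 2520) .out)) .out)) (.nx 675 814 (.lg 0 true
  1 71 71 11 0 504) .out)) .out)) .out))) .out) .out))))) (.na 774 36 (.na 728 28 (.na 706 23 (.nx
  705 1321124 (.nr 704 1048577 (.nr 681 19 .s1 (.nx 685 205 (.nx 683 108 (.nr 682 170 (.lg 0 false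
  1 17 17 16 0 504) (.l1 .sk)) (.nx 684 109 (.l1 .sk) (.l1 (.ls 73 37 1438)))) (.nr 703 623489 (.nx
  686 324 (.l1 (.ls 73 41 3000)) (.nr 702 220437 (.nr 700 131073 (.nx 691 16385 (.lg 0 false 5 83
  83 17 0 2520) (.nr 699 46342 (.nr 696 498 (.lg 0 true 5 71 71 17 0 2520) (.nx 698 165142 (.lg 2
  true 2 83 83 16 17907 1008) .out)) .out)) (.nx 701 814 (.lg 0 true 1 67 67 16 0 504) .out))
  .out)) .out))) .out) .out) (.na 707 27 .ne (.nx 727 1321124 (.nr 726 1048577 (.nr 708 25 .s1 (.nx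
  718 16385 (.nx 710 108 (.nr 709 206 (.l1 (.ls 23 23 434)) (.l1 .sk)) (.nx 711 109 (.l1 .sk) (.nx
  712 205 (.l1 (.ls 79 31 1119)) (.nr 717 185365 (.lg 0 false 5 79 83 17 0 360) .out)))) (.nr 725
  38969 (.nr 723 513 (.lg 0 true 5 71 73 17 0 360) (.nx 724 82572 (.lg 2 true 1 83 83 16 13910 360)
  .out)) .out))) .out) .out))) (.na 751 31 (.nx 750 1321124 (.nr 749 1048577 (.nr 729 27 .s1 (.nx
  732 109 (.nx 731 108 (.nr 730 229 (.l1 (.ls 31 31 419)) (.l1 .sk)) (.l1 .sk)) (.nx 745 165142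
  (.nx 743 82572 (.nx 733 205 (.l1 (.ls 83 37 1079)) (.nr 742 185365 (.nr 735 11591 (.lg 0 false 2
  83 83 19 0 5040) (.nx 737 10323 (.lg 0 false 2 97 97 19 0 5040) (.nr 741 55110 (.nr 739 32769
  (.lg 2 true 2 73 73 19 18575 1008) (.nx 740 26009 (.lg 0 true 1 89 89 13 0 5040) .out)) .out)))
  .out)) (.nr 744 513 (.lg 0 false 1 73 73 13 0 5040) .out)) (.nr 748 183 (.lg 0 true 3 73 73 19 0
  1008) .out)))) .out) .out) (.na 773 32 (.nx 772 1321124 (.nr 771 1048577 (.nr 752 30 .s1 (.nx 755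
  109 (.nx 754 108 (.nr 753 236 (.l1 (.ls 16 19 379)) (.l1 .sk)) (.l1 .sk)) (.nx 762 16385 (.nx 756
  205 (.l1 (.ls 73 23 975)) (.nr 761 185365 (.lg 0 false 5 79 83 16 0 360) .out)) (.nr 770 38969
  (.nr 767 513 (.lg 0 true 5 71 71 16 0 360) (.nx 769 82572 (.lg 2 false 2 79 79 16 13910 144)
  .out)) .out)))) .out) .out) .ne))) (.na 827 43 (.na 793 37 (.nx 792 1321124 (.nr 791 370729 (.nr
  775 35 .s1 (.nx 788 82572 (.nx 783 6503 (.nx 777 108 (.nr 776 273 (.l1 (.ls 23 31 326)) (.l1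
  .sk)) (.nx 778 109 (.l1 .sk) (.lg 0 false 5 79 83 29 0 720))) (.nr 787 77937 (.nx 784 13005 (.lg
  0 false 1 79 79 19 0 144) (.nr 786 23172 (.nr 785 1939 (.lg 0 true 1 71 71 19 0 144) (.lg 2 false
  1 79 79 19 10441 144)) .out)) .out)) (.nr 790 217 (.lg 0 true 2 67 67 23 0 144) .out))) .out)
  .out) (.na 810 39 (.nx 809 1321124 (.nr 808 370729 (.nr 794 36 .s1 (.nx 802 13005 (.nx 796 108
  (.nr 795 288 (.l1 (.ls 17 17 318)) (.l1 .sk)) (.nx 797 109 (.l1 .sk) (.lg 0 false 5 83 89 16 0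
  2520))) (.nr 807 23172 (.nr 805 288 (.lg 0 true 3 67 67 16 0 72) (.nx 806 82572 (.lg 2 true 1 79
  79 16 15483 2520) .out)) .out))) .out) .out) (.nx 826 1321124 (.nr 825 370729 (.nr 811 38 .s1
  (.nx 813 108 (.nr 812 317 (.l1 (.ls 19 29 302)) (.l1 .sk)) (.nx 814 109 (.l1 .sk) (.nx 819 13005
  (.lg 0 false 5 83 83 19 0 4680) (.nr 824 23172 (.nr 822 317 (.lg 0 true 3 61 61 17 0 936) (.nx
  823 82572 (.lg 2 true 1 73 73 16 14066 936) .out)) .out))))) .out) .out))) (.na 845 49 (.na 844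
  46 (.nx 843 1321124 (.nr 842 370729 (.nr 828 42 .s1 (.nx 830 108 (.nr 829 339 (.l1 (.ls 17 17
  274)) (.l1 .sk)) (.nx 831 109 (.l1 .sk) (.nx 836 13005 (.lg 0 false 5 83 83 16 0 360) (.nr 841
  23172 (.nr 839 339 (.lg 0 true 3 67 67 16 0 72) (.nx 840 82572 (.lg 2 true 1 73 73 16 13154 72)
  .out)) .out))))) .out) .out) .ne) (.na 862 52 (.nx 861 1321124 (.nr 860 311745 (.nr 846 48 .s1
  (.nx 849 109 (.nx 848 108 (.nr 847 383 (.l1 (.ls 17 19 241)) (.l1 .sk)) (.l1 .sk)) (.nx 854 10323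
  (.lg 0 false 5 73 73 17 0 2520) (.nr 859 23172 (.nr 857 383 (.lg 0 true 3 61 61 16 0 504) (.nx
  858 82572 (.lg 2 true 1 71 71 16 13153 504) .out)) .out)))) .out) .out) (.nx 874 1321124 (.nr 873
  311745 (.nr 863 51 .s1 (.nx 865 108 (.nr 864 420 (.l1 (.ls 31 29 227)) (.l1 .sk)) (.nx 866 109
  (.l1 .sk) (.nx 870 82572 (.nx 868 10323 (.lg 0 false 2 89 89 23 0 1872) (.nr 869 23172 (.lg 0
  false 1 97 97 19 0 65520) .out)) (.nr 872 217 (.lg 0 true 2 71 71 23 0 1872) .out))))) .out)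
  .out)))))) (.na 1025 103 (.na 949 76 (.na 918 64 (.na 890 61 (.nx 889 1321124 (.nr 888 311745
  (.nr 876 57 .s1 (.nx 882 10323 (.nx 878 108 (.nr 877 450 (.l1 (.ls 16 17 207)) (.l1 .sk)) (.nx
  879 109 (.l1 .sk) (.lg 0 false 3 79 79 17 0 360))) (.nr 887 23172 (.nr 885 450 (.lg 0 true 3 61
  61 17 0 72) (.nx 886 82572 (.lg 2 true 1 71 71 16 13153 360) .out)) .out))) .out) .out) (.na 907
  63 (.nx 906 1321124 (.nr 905 311745 (.nr 891 61 .s1 (.nx 894 109 (.nx 893 108 (.nr 892 464 (.l1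
  (.ls 17 17 194)) (.l1 .sk)) (.l1 .sk)) (.nx 899 10323 (.lg 0 false 5 79 79 16 0 2520) (.nr 904
  23172 (.nr 902 464 (.lg 0 true 3 59 59 16 0 72) (.nx 903 82572 (.lg 2 true 1 71 71 16 13153 504)
  .out)) .out)))) .out) .out) (.nx 917 1321124 (.nr 916 311745 (.nr 908 63 .s1 (.nx 914 82572 (.nx
  910 108 (.nr 909 472 (.l1 (.ls 29 23 188)) (.l1 .sk)) (.nx 911 109 (.l1 .sk) (.nr 912 23172 (.lg
  0 false 1 83 83 19 0 2520) (.nx 913 10323 (.lg 0 false 1 89 89 19 0 2520) .out)))) (.nr 915 217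
  (.lg 0 true 1 67 67 19 0 504) .out))) .out) .out))) (.na 919 67 .ne (.na 934 73 (.nx 933 1321124
  (.nr 932 524289 (.nr 920 67 .s1 (.nx 922 108 (.nr 921 538 (.l1 (.ls 17 17 177)) (.l1 .sk)) (.nx
  923 109 (.l1 .sk) (.nx 926 8193 (.lg 0 false 3 79 79 16 0 72) (.nr 931 8193 (.nr 929 513 (.lg 0
  true 3 61 61 16 0 72) (.nx 930 82572 (.lg 2 false 1 59 59 16 8692 72) .out)) .out))))) .out)
  .out) (.nx 948 1321124 (.nr 947 524289 (.nr 935 73 .s1 (.nx 937 108 (.nr 936 560 (.l1 (.ls 17 17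
  162)) (.l1 .sk)) (.nx 938 109 (.l1 .sk) (.nx 941 8193 (.lg 0 false 3 71 79 16 0 72) (.nr 946 8193
  (.nr 944 513 (.lg 0 true 3 59 59 16 0 72) (.nx 945 82572 (.lg 2 false 1 53 53 16 8692 72) .out))
  .out))))) .out) .out)))) (.na 977 84 (.na 962 79 (.nx 961 1321124 (.nr 960 524289 (.nr 950 76 .s1
  (.nx 955 8193 (.nx 952 108 (.nr 951 582 (.l1 (.ls 17 29 156)) (.l1 .sk)) (.nx 953 109 (.l1 .sk)
  (.lg 0 false 2 83 83 23 0 144))) (.nr 959 8193 (.nr 957 513 (.lg 0 true 2 71 71 23 0 144) (.nx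
  958 82572 (.lg 2 true 1 67 67 17 8692 144) .out)) .out))) .out) .out) (.na 976 81 (.nx 975
  1321124 (.nr 974 524289 (.nr 963 79 .s1 (.nx 966 109 (.nx 965 108 (.nr 964 597 (.l1 (.ls 16 16
  150)) (.l1 .sk)) (.l1 .sk)) (.nx 968 8193 (.lg 0 false 2 79 79 16 0 144) (.nr 973 8193 (.nr 971
  597 (.lg 0 true 3 59 59 16 0 72) (.nx 972 82572 (.lg 2 true 1 53 53 16 7469 504) .out)) .out))))
  .out) .out) (.lg 0 false 1 0 0 16 0 24))) (.na 1003 93 (.na 990 91 (.nx 989 1321124 (.nr 988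
  524289 (.nr 978 84 .s1 (.nx 980 108 (.nr 979 671 (.l1 (.ls 23 31 141)) (.l1 .sk)) (.nx 981 109
  (.l1 .sk) (.nx 983 8193 (.lg 0 false 2 79 79 31 0 1008) (.nr 987 8193 (.nr 985 513 (.lg 0 true 2
  67 67 31 0 1008) (.nx 986 82572 (.lg 2 true 1 61 61 29 8692 1008) .out)) .out))))) .out) .out)
  (.nx 1002 1321124 (.nr 1001 524289 (.nr 991 91 .s1 (.nx 993 108 (.nr 992 685 (.l1 (.ls 23 19
  131)) (.l1 .sk)) (.nx 994 109 (.l1 .sk) (.nx 996 8193 (.lg 0 false 2 83 83 19 0 13104) (.nr 1000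
  8193 (.nr 998 513 (.lg 0 true 2 71 71 19 0 13104) (.nx 999 82572 (.lg 2 true 1 61 61 19 8692
  6552) .out)) .out))))) .out) .out)) (.na 1014 97 (.nx 1013 1321124 (.nr 1012 524289 (.nr 1004 93
  .s1 (.nx 1006 108 (.nr 1005 715 (.l1 (.ls 17 19 128)) (.l1 .sk)) (.nx 1007 109 (.l1 .sk) (.nx
  1008 8193 (.lg 0 true 1 83 83 16 0 72) (.nr 1011 8193 (.nr 1009 513 (.lg 0 false 1 73 73 16 0
  2520) (.nx 1010 82572 (.lg 2 false 1 59 59 16 8692 2520) .out)) .out))))) .out) .out) (.nx 1024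
  1321124 (.nr 1023 524289 (.nr 1015 97 .s1 (.nx 1019 8193 (.nx 1017 108 (.nr 1016 759 (.l1 (.ls 16
  16 123)) (.l1 .sk)) (.nx 1018 109 (.l1 .sk) (.lg 0 true 1 73 73 16 0 72))) (.nr 1022 8193 (.nr
  1020 513 (.lg 0 false 1 61 61 16 0 72) (.nx 1021 82572 (.lg 2 true 1 47 47 16 8692 72) .out))
  .out))) .out) .out))))) (.na 1091 127 (.na 1058 111 (.na 1036 108 (.nx 1035 1321124 (.nr 1034
  524289 (.nr 1026 103 .s1 (.nx 1028 108 (.nr 1027 796 (.l1 (.ls 17 16 116)) (.l1 .sk)) (.nx 1029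
  109 (.l1 .sk) (.nx 1030 8193 (.lg 0 true 1 79 79 16 0 2520) (.nr 1033 8193 (.nr 1031 513 (.lg 0
  false 1 67 67 16 0 2520) (.nx 1032 82572 (.lg 2 false 1 47 47 16 8692 72) .out)) .out))))) .out)
  .out) (.na 1047 109 (.nx 1046 1321124 (.nr 1045 524289 (.nr 1037 108 .s1 (.nx 1043 82572 (.nx
  1041 8193 (.nx 1039 108 (.nr 1038 803 (.l1 (.ls 29 29 110)) (.l1 .sk)) (.nx 1040 109 (.l1 .sk)
  (.lg 0 false 1 83 83 29 0 144))) (.nr 1042 8193 (.lg 0 true 1 73 73 29 0 144) .out)) (.nr 1044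
  513 (.lg 0 true 1 67 67 29 0 144) .out))) .out) .out) (.nx 1057 1321124 (.nr 1056 524289 (.nr
  1048 109 .s1 (.nx 1050 108 (.nr 1049 818 (.l1 (.ls 16 16 110)) (.l1 .sk)) (.nx 1051 109 (.l1 .sk)
  (.nx 1052 8193 (.lg 0 true 1 73 73 16 0 504) (.nr 1055 8193 (.nr 1053 513 (.lg 0 false 1 61 61 16
  0 504) (.nx 1054 82572 (.lg 2 true 1 47 47 16 8692 72) .out)) .out))))) .out) .out))) (.na 1069
  117 (.nx 1068 1321124 (.nr 1067 524289 (.nr 1059 111 .s1 (.nx 1063 8193 (.nx 1061 108 (.nr 1060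
  862 (.l1 (.ls 16 17 108)) (.l1 .sk)) (.nx 1062 109 (.l1 .sk) (.lg 0 true 1 79 79 17 0 72))) (.nr
  1066 8193 (.nr 1064 513 (.lg 0 false 1 61 61 17 0 72) (.nx 1065 82572 (.lg 2 true 1 53 53 17 8692
  72) .out)) .out))) .out) .out) (.na 1080 124 (.nx 1079 1321124 (.nr 1078 524289 (.nr 1070 117 .s1
  (.nx 1072 108 (.nr 1071 914 (.l1 (.ls 29 19 102)) (.l1 .sk)) (.nx 1073 109 (.l1 .sk) (.nx 1074
  8193 (.lg 0 false 1 83 83 23 0 936) (.nr 1077 8193 (.nx 1075 82572 (.lg 0 true 1 73 73 23 0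
  32760) (.nr 1076 513 (.lg 0 true 1 67 67 23 0 936) .out)) .out))))) .out) .out) (.nx 1090 1321124
  (.nr 1089 524289 (.nr 1081 124 .s1 (.nx 1085 8193 (.nx 1083 108 (.nr 1082 936 (.l1 (.ls 19 19
  97)) (.l1 .sk)) (.nx 1084 109 (.l1 .sk) (.lg 0 true 1 83 83 19 0 1008))) (.nr 1088 8193 (.nr 1086
  513 (.lg 0 true 1 67 67 19 0 144) (.nx 1087 82572 (.lg 2 false 1 61 61 19 8692 1008) .out))
  .out))) .out) .out)))) (.na 1111 131 (.na 1102 128 (.nx 1101 1321124 (.nr 1100 524289 (.nr 1092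
  127 .s1 (.nx 1096 8193 (.nx 1094 108 (.nr 1093 943 (.l1 (.ls 16 16 94)) (.l1 .sk)) (.nx 1095 109
  (.l1 .sk) (.lg 0 true 1 73 73 16 0 360))) (.nr 1099 8193 (.nr 1097 513 (.lg 2 false 1 59 59 16
  561738 360) (.nx 1098 82572 (.lg 2 false 1 43 43 16 8692 72) .out)) .out))) .out) .out) (.na 1103
  129 .ne (.nx 1110 660563 (.nr 1109 1048577 (.nr 1104 129 .s1 (.nx 1105 205 (.l1 (.ls 67 23 328))
  (.nr 1108 524289 (.nr 1106 8193 (.lg 0 false 1 79 79 17 0 504) (.nx 1107 6503 (.lg 0 true 1 73 73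
  17 0 72) .out)) .out))) .out) .out))) (.na 1122 137 (.na 1112 133 (.lg 0 false 1 0 0 16 0 24)
  (.nx 1121 660563 (.nr 1120 1048577 (.nr 1113 133 .s1 (.nx 1116 6503 (.nx 1114 205 (.l1 (.ls 73 29
  318)) (.nr 1115 524289 (.lg 0 false 1 79 79 17 0 504) .out)) (.nr 1119 8193 (.nr 1117 1025 (.lg 0
  true 1 67 67 17 0 504) (.nx 1118 82572 (.lg 2 true 1 59 59 17 7446 504) .out)) .out))) .out)
  .out)) (.na 1123 139 (.lg 0 false 1 0 0 16 0 24) (.nx 1130 660563 (.nr 1129 1048577 (.nr 1124 139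
  .s1 (.nx 1125 205 (.l1 (.ls 59 19 305)) (.nr 1128 524289 (.nr 1126 8193 (.lg 0 false 1 71 71 16 0
  72) (.nx 1127 6503 (.lg 0 true 1 71 71 16 0 72) .out)) .out))) .out) .out))))))) (.na 1299 227
  (.na 1209 181 (.na 1174 163 (.na 1150 151 (.na 1139 148 (.nx 1138 660563 (.nr 1137 1048577 (.nr
  1132 147 .s1 (.nx 1133 205 (.l1 (.ls 67 29 288)) (.nr 1136 524289 (.nr 1134 8193 (.lg 0 false 1
  73 73 19 0 504) (.nx 1135 6503 (.lg 0 true 1 73 73 19 0 2520) .out)) .out))) .out) .out) (.na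
  1149 149 (.nx 1148 660563 (.nr 1147 1048577 (.nr 1140 148 .s1 (.nx 1143 6503 (.nx 1141 205 (.l1
  (.ls 73 29 286)) (.nr 1142 524289 (.lg 0 false 1 79 79 23 0 144) .out)) (.nr 1146 8193 (.nr 1144
  1025 (.lg 0 true 1 67 67 23 0 144) (.nx 1145 82572 (.lg 2 false 1 59 59 23 7446 144) .out))
  .out))) .out) .out) (.lg 0 false 1 0 0 16 0 24))) (.na 1158 156 (.nx 1157 660563 (.nr 1156
  1048577 (.nr 1151 151 .s1 (.nx 1152 205 (.l1 (.ls 59 17 281)) (.nr 1155 524289 (.nr 1153 8193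
  (.lg 0 false 1 71 71 16 0 72) (.nx 1154 6503 (.lg 0 true 1 67 67 16 0 72) .out)) .out))) .out)
  .out) (.na 1166 157 (.nx 1165 660563 (.nr 1164 1048577 (.nr 1159 156 .s1 (.nx 1160 205 (.l1 (.ls
  71 37 272)) (.nr 1163 524289 (.nr 1161 8193 (.lg 0 false 1 79 79 31 0 13104) (.nx 1162 6503 (.lg
  0 false 1 73 73 31 0 1872) .out)) .out))) .out) .out) (.nx 1173 660563 (.nr 1172 1048577 (.nr
  1167 157 .s1 (.nx 1168 205 (.l1 (.ls 67 17 270)) (.nr 1171 524289 (.nr 1169 8193 (.lg 0 false 1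
  73 73 16 0 72) (.nx 1170 6503 (.lg 0 true 1 71 71 16 0 72) .out)) .out))) .out) .out)))) (.na
  1191 171 (.na 1182 167 (.nx 1181 660563 (.nr 1180 1048577 (.nr 1175 163 .s1 (.nx 1176 205 (.l1
  (.ls 61 17 260)) (.nr 1179 524289 (.nr 1177 8193 (.lg 0 false 1 73 73 16 0 2520) (.nx 1178 6503
  (.lg 0 true 1 71 71 16 0 2520) .out)) .out))) .out) .out) (.na 1183 169 (.lg 0 false 1 0 0 16 0
  24) (.nx 1190 660563 (.nr 1189 1048577 (.nr 1184 169 .s1 (.nx 1185 205 (.l1 (.ls 61 19 251)) (.nr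
  1188 524289 (.nr 1186 8193 (.lg 0 false 1 71 71 17 0 936) (.nx 1187 6503 (.lg 0 true 1 71 71 17 0
  936) .out)) .out))) .out) .out))) (.na 1207 173 (.na 1199 172 (.nx 1198 660563 (.nr 1197 1048577
  (.nr 1192 171 .s1 (.nx 1193 205 (.l1 (.ls 71 29 248)) (.nr 1196 524289 (.nr 1194 8193 (.lg 0 true
  1 79 79 23 0 72) (.nx 1195 6503 (.lg 0 false 1 73 73 23 0 72) .out)) .out))) .out) .out) (.nx
  1206 660563 (.nr 1205 1048577 (.nr 1200 172 .s1 (.nx 1201 205 (.l1 (.ls 73 29 247)) (.nr 1204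
  524289 (.nr 1202 8193 (.lg 0 true 1 79 79 23 0 144) (.nx 1203 6503 (.lg 0 false 1 79 79 23 0 144)
  .out)) .out))) .out) .out)) (.na 1208 179 (.lg 0 false 1 0 0 16 0 24) (.lg 0 false 1 0 0 16 0
  24))))) (.na 1250 197 (.na 1233 191 (.na 1217 183 (.nx 1216 660563 (.nr 1215 1048577 (.nr 1210
  181 .s1 (.nx 1211 205 (.l1 (.ls 59 17 235)) (.nr 1214 524289 (.nr 1212 8193 (.lg 0 false 1 71 71
  16 0 72) (.nx 1213 6503 (.lg 0 true 1 67 67 16 0 72) .out)) .out))) .out) .out) (.na 1225 189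
  (.nx 1224 660563 (.nr 1223 1048577 (.nr 1218 183 .s1 (.nx 1221 6503 (.nx 1219 205 (.l1 (.ls 59 23
  232)) (.nr 1220 524289 (.lg 0 true 1 71 71 17 0 72) .out)) (.nr 1222 8193 (.lg 0 false 1 73 73 17
  0 360) .out))) .out) .out) (.nx 1232 660563 (.nr 1231 1048577 (.nr 1226 189 .s1 (.nx 1227 205
  (.l1 (.ls 67 23 225)) (.nr 1230 524289 (.nr 1228 8193 (.lg 0 true 1 73 73 23 0 504) (.nx 1229
  6503 (.lg 0 false 1 73 73 23 0 504) .out)) .out))) .out) .out))) (.na 1234 193 (.lg 0 false 1 0 0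
  16 0 24) (.na 1242 196 (.nx 1241 660563 (.nr 1240 1048577 (.nr 1235 193 .s1 (.nx 1236 205 (.l1
  (.ls 73 17 220)) (.nr 1239 524289 (.nr 1237 8193 (.lg 0 false 1 71 71 16 0 72) (.nx 1238 6503
  (.lg 0 true 1 67 67 16 0 72) .out)) .out))) .out) .out) (.nx 1249 660563 (.nr 1248 1048577 (.nr
  1243 196 .s1 (.nx 1244 205 (.l1 (.ls 67 29 217)) (.nr 1247 524289 (.nr 1245 8193 (.lg 0 true 1 73
  73 29 0 1008) (.nx 1246 6503 (.lg 0 false 1 71 71 29 0 1008) .out)) .out))) .out) .out)))) (.na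
  1267 211 (.na 1251 199 (.lg 0 false 1 0 0 16 0 24) (.na 1259 201 (.nx 1258 660563 (.nr 1257
  1048577 (.nr 1252 199 .s1 (.nx 1253 205 (.l1 (.ls 59 17 214)) (.nr 1256 524289 (.nr 1254 8193
  (.lg 0 false 1 71 71 16 0 504) (.nx 1255 6503 (.lg 0 true 1 67 67 16 0 72) .out)) .out))) .out)
  .out) (.nx 1266 660563 (.nr 1265 1048577 (.nr 1260 201 .s1 (.nx 1261 205 (.l1 (.ls 59 23 212))
  (.nr 1264 524289 (.nr 1262 8193 (.lg 0 false 1 71 71 19 0 72) (.nx 1263 6503 (.lg 0 true 1 71 71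
  19 0 504) .out)) .out))) .out) .out))) (.na 1283 219 (.na 1275 217 (.nx 1274 660563 (.nr 1273
  1048577 (.nr 1268 211 .s1 (.nx 1269 205 (.l1 (.ls 53 17 202)) (.nr 1272 524289 (.nr 1270 8193
  (.lg 0 false 1 67 67 16 0 72) (.nx 1271 6503 (.lg 0 true 1 61 61 16 0 72) .out)) .out))) .out)
  .out) (.nx 1282 660563 (.nr 1281 1048577 (.nr 1276 217 .s1 (.nx 1277 205 (.l1 (.ls 73 19 196))
  (.nr 1280 524289 (.nr 1278 8193 (.lg 0 true 1 79 79 19 0 504) (.nx 1279 6503 (.lg 0 false 1 73 73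
  19 0 504) .out)) .out))) .out) .out)) (.na 1291 223 (.nx 1290 660563 (.nr 1289 1048577 (.nr 1284
  219 .s1 (.nx 1285 205 (.l1 (.ls 59 19 194)) (.nr 1288 524289 (.nr 1286 8193 (.lg 0 false 1 67 67
  19 0 72) (.nx 1287 6503 (.lg 0 true 1 67 67 19 0 504) .out)) .out))) .out) .out) (.nx 1298 660563
  (.nr 1297 1048577 (.nr 1292 223 .s1 (.nx 1293 205 (.l1 (.ls 59 17 191)) (.nr 1296 524289 (.nr
  1294 8193 (.lg 0 false 1 67 67 16 0 72) (.nx 1295 6503 (.lg 0 true 1 67 67 16 0 360) .out))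
  .out))) .out) .out)))))) (.na 1361 257 (.na 1326 241 (.na 1316 233 (.na 1300 228 (.lg 0 false 1 0
  0 16 0 24) (.na 1308 229 (.nx 1307 660563 (.nr 1306 1048577 (.nr 1301 228 .s1 (.nx 1302 205 (.l1
  (.ls 73 37 187)) (.nr 1305 524289 (.nr 1303 8193 (.lg 0 true 1 73 73 37 0 144) (.nx 1304 6503
  (.lg 0 false 1 73 73 37 0 144) .out)) .out))) .out) .out) (.nx 1315 660563 (.nr 1314 1048577 (.nr
  1309 229 .s1 (.nx 1310 205 (.l1 (.ls 53 17 186)) (.nr 1313 524289 (.nr 1311 8193 (.lg 0 false 1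
  67 67 17 0 504) (.nx 1312 6503 (.lg 0 true 1 61 61 17 0 504) .out)) .out))) .out) .out))) (.na
  1317 237 (.lg 0 false 1 0 0 16 0 24) (.na 1325 239 (.nx 1324 660563 (.nr 1323 1048577 (.nr 1318
  237 .s1 (.nx 1319 205 (.l1 (.ls 59 19 180)) (.nr 1322 524289 (.nr 1320 8193 (.lg 0 false 1 67 67
  19 0 72) (.nx 1321 6503 (.lg 0 true 1 67 67 19 0 360) .out)) .out))) .out) .out) (.lg 0 false 1 0
  0 16 0 24)))) (.na 1343 247 (.na 1334 243 (.nx 1333 660563 (.nr 1332 1048577 (.nr 1327 241 .s1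
  (.nx 1328 205 (.l1 (.ls 53 17 177)) (.nr 1331 524289 (.nr 1329 8193 (.lg 0 false 1 67 67 17 0 72)
  (.nx 1330 6503 (.lg 0 true 1 61 61 17 0 72) .out)) .out))) .out) .out) (.na 1335 244 (.lg 0 false
  1 0 0 16 0 24) (.nx 1342 660563 (.nr 1341 1048577 (.nr 1336 244 .s1 (.nx 1337 205 (.l1 (.ls 59 23
  175)) (.nr 1340 524289 (.nr 1338 8193 (.lg 0 true 1 71 71 23 0 144) (.nx 1339 6503 (.lg 0 false 1
  71 71 23 0 144) .out)) .out))) .out) .out))) (.na 1352 252 (.na 1351 251 (.nx 1350 660563 (.nr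
  1349 1048577 (.nr 1344 247 .s1 (.nx 1345 205 (.l1 (.ls 89 17 173)) (.nr 1348 524289 (.nr 1346
  8193 (.lg 0 true 1 79 79 17 0 936) (.nx 1347 6503 (.lg 0 false 1 73 73 17 0 936) .out)) .out)))
  .out) .out) (.lg 0 false 1 0 0 16 0 24)) (.na 1360 256 (.nx 1359 660563 (.nr 1358 1048577 (.nr
  1353 252 .s1 (.nx 1354 205 (.l1 (.ls 79 31 169)) (.nr 1357 524289 (.nr 1355 8193 (.lg 0 true 1 83
  83 41 0 5040) (.nx 1356 6503 (.lg 0 false 1 79 83 41 0 5040) .out)) .out))) .out) .out) .ne))))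
  (.na 4707 2897 (.na 2607 1024 (.na 1875 512 (.nx 1874 82572 (.nr 1873 1048577 (.nr 1362 257 .s1
  (.nx 1617 647 (.la (.ls 71 31 1631)) (.nr 1872 262145 (.la (.lg 0 false 1 73 73 23 0)) .out)))
  .out) .out) (.na 2305 725 (.nx 2304 82572 (.nr 2303 1048577 (.nr 1876 512 .s1 (.nx 2089 647 (.la
  (.ls 67 29 820)) (.nr 2302 262145 (.la (.lg 0 false 1 71 71 29 0)) .out))) .out) .out) (.nx 2606
  3252 (.nr 2605 262145 (.nr 2306 725 .s1 (.la (.ls 53 43 14589))) .out) .out))) (.na 3035 1449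
  (.nx 3034 3252 (.nr 3033 262145 (.nr 2608 1024 .s1 (.la (.ls 53 41 10330))) .out) .out) (.na 3746
  2048 (.nx 3745 1627 (.nr 3744 131073 (.nr 3036 1449 .s1 (.nx 3144 108 (.nr 3143 15085 (.lx (.lp
  29 23 513)) (.l1 .sk)) (.nx 3145 109 (.l1 .sk) (.la (.ls 43 31 1821))))) .out) .out) (.nx 4706
  1627 (.nr 4705 131073 (.nr 3747 2048 .s1 (.nx 3855 108 (.nr 3854 21338 (.lx (.lp 41 29 725)) (.l1
  .sk)) (.nx 3856 109 (.l1 .sk) (.la (.ls 43 31 1289))))) .out) .out)))) (.na 6656 16384 (.na 5357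
  4096 (.nx 5356 647 (.nr 5355 65537 (.nr 4708 2897 .s1 (.nx 4870 163 (.lx (.lp 43 29 1025)) (.nr
  5354 32769 (.lx (.lp 37 31 1025)) .out))) .out) .out) (.na 6007 8192 (.nx 6006 647 (.nr 6005
  65537 (.nr 5358 4096 .s1 (.nx 5520 163 (.lx (.lp 43 31 2049)) (.nr 6004 32769 (.lx (.lp 37 37
  2049)) .out))) .out) .out) (.nx 6655 647 (.nr 6654 65537 (.nr 6008 8192 .s1 (.lx (.lp 41 41
  4097))) .out) .out))) (.na 7632 65536 (.na 7306 32768 (.nx 7305 647 (.nr 7304 131073 (.nr 6657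
  16384 .s1 (.nx 6819 163 (.lx (.lp 16 0 8193)) (.nr 7303 65537 (.lx (.lp 29 43 8193)) .out)))
  .out) .out) (.nx 7631 324 (.nr 7630 131073 (.nr 7307 32768 .s1 (.lx (.lp 19 47 16385))) .out)
  .out)) (.na 7958 131073 (.nx 7957 324 (.nr 7956 262145 (.nr 7633 65536 .s1 (.lx (.lp 37 53
  32769))) .out) .out) .out)))))))

def T7_1 : Ph :=
  (.na 1096 136 (.na 837 60 (.na 688 25 (.na 492 10 (.na 339 5 (.na 214 3 (.na 129 2 (.nx 128
  660563 (.nr 127 1482912 (.nx 2 60 (.nr 1 8 (.lg 0 true 1 29 29 5 0 120) (.l1 .sk)) (.nx 3 61 (.l1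
  .sk) (.nr 88 38969 (.nr 76 16385 (.nx 53 104033 (.nx 16 4097 (.lg 0 true 13 83 83 9 0 4680) (.nr
  52 13779 (.nr 32 331 (.lg 0 true 16 73 73 9 0 240) (.nr 39 682 (.lg 2 true 7 73 73 9 9429 2520)
  (.lg 2 false 13 89 97 9 6081 32760))) .out)) (.nr 75 78 (.lg 0 true 22 79 79 11 0 2640) .out))
  (.nx 87 1292 (.lg 0 false 11 83 83 9 0 3960) .out)) (.nx 126 205 (.nr 99 110219 (.lg 0 false 11
  73 73 9 0 1320) (.nx 125 103 (.lg 0 false 26 79 79 11 0 3120) .out)) .out)))) .out) .out) (.nx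
  213 660563 (.nr 212 623489 (.nx 189 104033 (.nx 131 60 (.nr 130 15 (.lg 0 true 1 29 29 5 0 240)
  (.l1 .sk)) (.nx 132 61 (.l1 .sk) (.nr 177 131073 (.nr 165 27556 (.nx 143 7848 (.lg 0 true 11 89
  89 9 0 7920) (.nr 154 613 (.lg 0 true 11 79 79 9 0 2640) (.lg 2 false 11 89 97 9 6335 7920)))
  (.nx 176 647 (.lg 0 false 11 83 83 9 0 2640) .out)) (.nx 188 103 (.lg 0 false 11 71 71 9 0 2640)
  .out)))) (.nr 211 154 (.lg 0 true 22 73 79 11 0 2640) .out)) .out) .out)) (.na 282 4 (.nx 281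
  660563 (.nr 280 881745 (.nx 217 61 (.nx 216 60 (.nr 215 21 (.lg 0 true 1 23 23 5 0 360) (.l1
  .sk)) (.l1 .sk)) (.nx 268 330282 (.nr 244 38969 (.nx 224 5829 (.lg 0 true 7 83 83 7 0 2520) (.nr
  237 716 (.lg 0 true 13 79 79 13 0 4680) (.lg 2 false 7 97 97 7 13839 2520))) (.nx 267 647 (.nr
  255 311745 (.lg 0 false 11 79 79 7 0 3960) (.nx 266 103 (.lg 0 false 11 67 67 7 0 3960) .out))
  .out)) (.nr 279 78 (.lg 0 true 11 71 71 7 0 3960) .out))) .out) .out) (.nx 338 660563 (.nr 337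
  1246976 (.nx 284 60 (.nr 283 27 (.lg 0 true 1 23 23 9 0 720) (.l1 .sk)) (.nx 285 61 (.l1 .sk)
  (.nr 329 440873 (.nx 321 330282 (.nx 300 6503 (.nr 292 55110 (.lg 0 true 7 89 89 11 0 5040) (.nx
  299 647 (.lg 0 false 7 89 89 11 0 5040) .out)) (.nr 320 19485 (.nr 311 618 (.lg 0 true 11 79 79
  13 0 2640) (.nr 313 2458 (.lg 2 false 2 83 83 9 16034 720) (.lg 2 false 7 83 89 11 5411 5040)))
  .out)) (.nr 328 78 (.lg 0 true 7 71 71 11 0 1680) .out)) (.nx 336 103 (.lg 0 false 7 71 71 11 0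
  1680) .out)))) .out) .out))) (.na 443 7 (.na 395 6 (.nx 394 660563 (.nr 393 1482912 (.nx 341 60
  (.nr 340 33 (.lg 0 true 1 19 19 9 0 360) (.l1 .sk)) (.nx 342 61 (.l1 .sk) (.nr 379 185365 (.nr
  371 65537 (.nx 349 6503 (.lg 0 true 7 83 83 11 0 2520) (.nr 370 23172 (.nr 362 659 (.lg 0 true 13
  73 73 16 0 1560) (.nx 369 330282 (.lg 2 false 7 83 83 11 15036 2520) .out)) .out)) (.nx 378 647
  (.lg 0 false 7 71 71 11 0 840) .out)) (.nx 392 103 (.lg 0 false 13 67 67 13 0 1560) .out))))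
  .out) .out) (.nx 442 660563 (.nr 441 220437 (.nx 398 61 (.nx 397 60 (.nr 396 38 (.lg 0 true 1 23
  23 7 0 720) (.l1 .sk)) (.l1 .sk)) (.nx 419 6503 (.nr 411 77937 (.lg 0 false 13 83 83 13 0 9360)
  (.nx 418 647 (.lg 0 false 7 73 73 13 0 5040) .out)) (.nr 440 27556 (.nr 432 704 (.lg 0 true 13 79
  79 13 0 9360) (.nx 439 330282 (.lg 2 false 7 83 89 13 14075 5040) .out)) .out))) .out) .out))
  (.na 444 8 .ne (.na 491 9 (.nx 490 660563 (.nr 489 623489 (.nr 445 3 .s1 (.nx 448 61 (.nx 447 60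
  (.nr 446 49 (.lg 0 false 1 23 23 9 0 720) (.l1 .sk)) (.l1 .sk)) (.nx 457 3836 (.nx 449 103 (.l1
  (.ls 83 31 864)) (.nr 456 131073 (.lg 0 false 7 83 83 13 0 1680) .out)) (.nr 488 110219 (.nr 476
  38969 (.nr 464 537 (.lg 0 true 7 79 79 13 0 1680) (.nx 475 330282 (.lg 2 true 11 73 73 13 18452
  2640) .out)) (.nx 487 41287 (.lg 0 false 11 97 107 13 0 720720) .out)) .out)))) .out) .out) (.lg
  0 false 1 0 0 7 0 24))))) (.na 620 18 (.na 549 15 (.na 523 12 (.nx 522 660563 (.nr 521 623489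
  (.nr 493 7 .s1 (.nx 497 103 (.nx 495 60 (.nr 494 66 (.lg 0 false 1 17 17 9 0 720) (.l1 .sk)) (.nx
  496 61 (.l1 .sk) (.l1 (.ls 73 37 691)))) (.nr 520 131073 (.nx 504 6503 (.lg 0 false 7 79 79 13 0
  1680) (.nr 519 46342 (.nr 511 154 (.lg 0 true 7 61 61 13 0 1680) (.nx 518 41287 (.lg 1 true 7 79
  79 13 12845 5040) .out)) .out)) .out))) .out) .out) (.nx 548 660563 (.nr 547 623489 (.nr 524 10
  .s1 (.nx 536 9411 (.nx 526 60 (.nr 525 83 (.lg 0 true 1 17 17 13 0 720) (.l1 .sk)) (.nx 527 61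
  (.l1 .sk) (.nx 528 103 (.l1 (.ls 79 37 577)) (.nr 535 131073 (.lg 0 false 7 83 83 19 0 5040)
  .out)))) (.nr 546 46342 (.nr 543 154 (.lg 0 true 7 67 67 19 0 5040) (.nx 545 41287 (.lg 1 false 2
  83 83 13 8876 720) .out)) .out))) .out) .out)) (.na 571 16 (.nx 570 660563 (.nr 569 623489 (.nr
  550 13 .s1 (.nx 551 103 (.l1 (.ls 71 31 710)) (.nr 568 131073 (.nx 558 6503 (.lg 0 false 7 73 73
  16 0 2520) (.nr 567 46342 (.nr 563 154 (.lg 0 true 5 59 59 16 0 360) (.nx 566 41287 (.lg 1 false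
  3 79 79 16 12845 720) .out)) .out)) .out))) .out) .out) (.na 594 17 (.nx 593 660563 (.nr 592
  623489 (.nr 572 15 .s1 (.nx 576 103 (.nx 574 60 (.nr 573 94 (.l1 (.ls 23 23 227)) (.l1 .sk)) (.nx
  575 61 (.l1 .sk) (.l1 (.ls 83 29 433)))) (.nr 591 131073 (.nr 589 77937 (.nx 585 41287 (.nr 583
  46342 (.lg 0 false 7 83 83 19 0 5040) (.nx 584 6503 (.lg 0 false 1 89 89 11 0 720) .out)) (.nr
  588 257 (.lg 0 true 3 73 73 13 0 720) .out)) (.nx 590 2582 (.lg 0 false 1 83 83 11 0 240) .out))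
  .out))) .out) .out) (.nx 619 660563 (.nr 618 623489 (.nr 595 16 .s1 (.nx 599 103 (.nx 597 60 (.nr
  596 99 (.l1 (.ls 16 16 214)) (.l1 .sk)) (.nx 598 61 (.l1 .sk) (.l1 (.ls 73 23 408)))) (.nr 617
  131073 (.nx 606 6503 (.lg 0 false 7 79 79 16 0 840) (.nr 616 46342 (.nr 613 257 (.lg 0 true 7 67
  67 16 0 840) (.nx 615 41287 (.lg 1 false 2 89 89 11 12845 720) .out)) .out)) .out))) .out)
  .out)))) (.na 641 20 (.na 621 19 (.lg 0 false 1 0 0 7 0 24) (.nx 640 660563 (.nr 639 623489 (.nr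
  622 18 .s1 (.nx 626 103 (.nx 624 60 (.nr 623 110 (.l1 (.ls 16 17 192)) (.l1 .sk)) (.nx 625 61
  (.l1 .sk) (.l1 (.ls 73 17 365)))) (.nr 638 131073 (.nx 629 6503 (.lg 0 false 3 83 83 16 0 360)
  (.nr 637 46342 (.nr 634 257 (.lg 0 true 5 67 67 16 0 120) (.nx 636 41287 (.lg 1 false 2 83 83 11
  12845 720) .out)) .out)) .out))) .out) .out)) (.na 656 23 (.nx 655 660563 (.nr 654 623489 (.nr
  642 19 .s1 (.nx 646 6503 (.nx 643 103 (.l1 (.ls 73 31 533)) (.nr 645 131073 (.lg 0 true 2 83 83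
  13 0 720) .out)) (.nr 653 46342 (.nr 650 257 (.lg 0 true 4 67 67 17 0 240) (.nx 652 41287 (.lg 1
  true 2 79 79 13 12845 720) .out)) .out))) .out) .out) (.na 672 24 (.nx 671 660563 (.nr 670 131073
  (.nr 657 22 .s1 (.nx 663 6503 (.nx 659 60 (.nr 658 132 (.l1 (.ls 16 16 159)) (.l1 .sk)) (.nx 660
  61 (.l1 .sk) (.lg 0 false 3 79 79 16 0 360))) (.nr 669 32769 (.nr 666 257 (.lg 0 true 3 67 67 16
  0 360) (.nx 668 41287 (.lg 1 false 2 79 79 13 9088 720) .out)) .out))) .out) .out) (.nx 687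
  660563 (.nr 686 131073 (.nr 673 23 .s1 (.nx 675 60 (.nr 674 138 (.l1 (.ls 17 29 152)) (.l1 .sk))
  (.nx 676 61 (.l1 .sk) (.nx 678 6503 (.lg 0 true 2 79 79 13 0 720) (.nr 685 32769 (.nr 682 257
  (.lg 0 true 4 67 67 19 0 720) (.nx 684 41287 (.lg 1 true 2 73 73 13 9088 720) .out)) .out)))))
  .out) .out)))))) (.na 761 40 (.na 720 32 (.na 690 30 (.na 689 27 (.lg 0 false 1 0 0 7 0 24) (.lg
  0 false 1 0 0 7 0 24)) (.na 706 31 (.nx 705 660563 (.nr 704 131073 (.nr 691 29 .s1 (.nx 693 60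
  (.nr 692 171 (.lg 0 true 1 0 16 13 0 720720) (.l1 .sk)) (.nx 694 61 (.l1 .sk) (.nx 701 41287 (.lg
  0 false 7 83 83 23 0 5040) (.nr 703 257 (.lg 0 false 2 67 67 19 0 720) .out))))) .out) .out) (.nx
  719 660563 (.nr 718 131073 (.nr 707 31 .s1 (.nx 712 6503 (.nx 709 60 (.nr 708 176 (.l1 (.ls 16 16
  119)) (.l1 .sk)) (.nx 710 61 (.l1 .sk) (.lg 0 true 2 79 79 16 0 240))) (.nr 717 32769 (.nr 715
  257 (.lg 0 true 3 61 61 16 0 360) (.nx 716 41287 (.lg 1 false 1 83 83 13 9088 720) .out)) .out)))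
  .out) .out))) (.na 736 34 (.na 735 33 (.nx 734 660563 (.nr 733 262145 (.nr 721 32 .s1 (.nx 724 61
  (.nx 723 60 (.nr 722 182 (.l1 (.ls 23 19 115)) (.l1 .sk)) (.l1 .sk)) (.nx 726 2582 (.lg 0 false 2
  73 73 13 0 240) (.nr 732 55110 (.nx 727 6503 (.lg 1 true 1 73 73 13 38469 720) (.nr 731 32769
  (.nr 729 257 (.lg 0 true 2 67 67 19 0 240) (.nx 730 41287 (.lg 1 false 1 79 79 13 9088 720)
  .out)) .out)) .out)))) .out) .out) .ne) (.na 748 36 (.nx 747 82572 (.nr 746 262145 (.nr 737 34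
  .s1 (.nx 740 61 (.nx 739 60 (.nr 738 198 (.l1 (.ls 16 23 108)) (.l1 .sk)) (.l1 .sk)) (.nx 744
  41287 (.nr 742 32769 (.lg 0 false 2 83 83 13 0 240) (.nx 743 2582 (.lg 0 true 1 83 83 13 0 720)
  .out)) (.nr 745 154 (.lg 0 false 1 53 53 13 0 720) .out)))) .out) .out) (.na 749 38 (.lg 0 false
  1 0 0 7 0 24) (.nx 760 82572 (.nr 759 262145 (.nr 750 38 .s1 (.nx 752 60 (.nr 751 220 (.l1 (.ls
  16 17 97)) (.l1 .sk)) (.nx 753 61 (.l1 .sk) (.nx 757 41287 (.nr 755 32769 (.lg 0 false 2 79 79 13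
  0 240) (.nx 756 2582 (.lg 0 true 1 79 79 13 0 240) .out)) (.nr 758 154 (.lg 0 true 1 47 47 13 0
  240) .out))))) .out) .out))))) (.na 805 50 (.na 774 46 (.na 773 45 (.nx 772 82572 (.nr 771 262145
  (.nr 762 40 .s1 (.nx 765 61 (.nx 764 60 (.nr 763 248 (.l1 (.ls 17 23 92)) (.l1 .sk)) (.l1 .sk))
  (.nr 769 32769 (.nx 767 41287 (.lg 0 false 2 73 73 19 0 240) (.nr 768 154 (.lg 0 false 1 43 43 13
  0 240) .out)) (.nx 770 2582 (.lg 0 true 1 79 79 13 0 720) .out)))) .out) .out) (.lg 0 false 1 0 0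
  16 0 24)) (.na 784 47 (.nx 783 82572 (.nr 782 262145 (.nr 775 46 .s1 (.nx 778 61 (.nx 777 60 (.nr
  776 259 (.l1 (.ls 16 19 81)) (.l1 .sk)) (.l1 .sk)) (.nr 780 32769 (.lg 0 false 2 83 83 13 0 720)
  (.nx 781 2582 (.lg 0 true 1 79 79 13 0 720) .out)))) .out) .out) (.na 794 48 (.nx 793 82572 (.nr
  792 262145 (.nr 785 47 .s1 (.nx 788 61 (.nx 787 60 (.nr 786 264 (.l1 (.ls 16 16 79)) (.l1 .sk))
  (.l1 .sk)) (.nr 790 32769 (.lg 0 false 2 83 83 16 0 240) (.nx 791 2582 (.lg 0 true 1 79 79 16 0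
  360) .out)))) .out) .out) (.nx 804 82572 (.nr 803 262145 (.nr 795 48 .s1 (.nx 801 41287 (.nx 797
  60 (.nr 796 275 (.l1 (.ls 23 23 77)) (.l1 .sk)) (.nx 798 61 (.l1 .sk) (.nr 799 32769 (.lg 0 false
  1 83 83 19 0 720) (.nx 800 2582 (.lg 0 false 1 79 79 19 0 720) .out)))) (.nr 802 154 (.lg 0 true
  1 47 47 19 0 720) .out))) .out) .out)))) (.na 816 53 (.na 806 51 (.lg 0 false 1 0 0 16 0 24) (.nx
  815 82572 (.nr 814 262145 (.nr 807 51 .s1 (.nx 809 60 (.nr 808 292 (.l1 (.ls 16 16 73)) (.l1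
  .sk)) (.nx 810 61 (.l1 .sk) (.nr 812 32769 (.lg 0 false 2 83 83 16 0 720) (.nx 813 2582 (.lg 0
  true 1 73 73 16 0 360) .out))))) .out) .out)) (.na 826 54 (.nx 825 82572 (.nr 824 262145 (.nr 817
  53 .s1 (.nx 820 61 (.nx 819 60 (.nr 818 297 (.l1 (.ls 16 16 70)) (.l1 .sk)) (.l1 .sk)) (.nr 822
  32769 (.lg 0 false 2 79 79 16 0 240) (.nx 823 2582 (.lg 0 true 1 73 73 16 0 360) .out)))) .out)
  .out) (.na 827 57 (.lg 0 false 1 0 0 16 0 24) (.nx 836 82572 (.nr 835 262145 (.nr 828 57 .s1 (.nx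
  830 60 (.nr 829 330 (.l1 (.ls 16 17 66)) (.l1 .sk)) (.nx 831 61 (.l1 .sk) (.nr 833 32769 (.lg 0
  false 2 83 83 16 0 720) (.nx 834 2582 (.lg 0 true 1 73 73 16 0 360) .out))))) .out) .out)))))))
  (.na 976 95 (.na 903 76 (.na 880 65 (.na 857 62 (.na 847 61 (.nx 846 82572 (.nr 845 262145 (.nr
  838 60 .s1 (.nx 840 60 (.nr 839 336 (.l1 (.ls 16 29 62)) (.l1 .sk)) (.nx 841 61 (.l1 .sk) (.nr
  843 32769 (.lg 0 false 2 79 79 23 0 720) (.nx 844 2582 (.lg 0 true 1 73 73 23 0 720) .out)))))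
  .out) .out) (.nx 856 82572 (.nr 855 262145 (.nr 848 61 .s1 (.nx 850 60 (.nr 849 341 (.l1 (.ls 16
  16 62)) (.l1 .sk)) (.nx 851 61 (.l1 .sk) (.nr 853 32769 (.lg 0 true 2 79 79 16 0 240) (.nx 854
  2582 (.lg 0 true 1 73 73 16 0 360) .out))))) .out) .out)) (.na 867 64 (.nx 866 82572 (.nr 865
  262145 (.nr 858 62 .s1 (.nx 861 61 (.nx 860 60 (.nr 859 352 (.l1 (.ls 17 17 61)) (.l1 .sk)) (.l1
  .sk)) (.nr 863 32769 (.lg 0 false 2 83 83 17 0 720) (.nx 864 2582 (.lg 0 true 1 79 79 13 0 720)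
  .out)))) .out) .out) (.nx 879 82572 (.nr 878 524289 (.nr 868 64 .s1 (.nx 876 41287 (.nx 874 6503
  (.nx 870 60 (.nr 869 358 (.l1 (.ls 29 17 59)) (.l1 .sk)) (.nx 871 61 (.l1 .sk) (.nr 872 262145
  (.lg 0 false 1 83 83 19 0 240) (.nx 873 647 (.lg 0 false 1 71 71 19 0 240) .out)))) (.nr 875
  65537 (.lg 1 true 1 79 83 19 19354 720) .out)) (.nr 877 257 (.lg 0 true 1 53 59 19 0 720) .out)))
  .out) .out))) (.na 891 69 (.na 881 68 .ne (.nx 890 82572 (.nr 889 524289 (.nr 882 68 .s1 (.nx 883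
  647 (.l1 (.ls 73 47 6159)) (.nr 888 262145 (.nx 884 6503 (.lg 0 true 1 83 83 13 0 720) (.nr 887
  65537 (.nx 885 41287 (.lg 1 false 1 79 79 13 18215 720) (.nr 886 257 (.lg 0 true 1 53 53 13 0
  240) .out)) .out)) .out))) .out) .out)) (.na 901 72 (.nx 900 82572 (.nr 899 524289 (.nr 892 69
  .s1 (.nx 895 6503 (.nx 893 647 (.l1 (.ls 71 43 6069)) (.nr 894 262145 (.lg 0 true 1 79 79 16 0
  360) .out)) (.nr 898 65537 (.nx 896 41287 (.lg 1 false 1 79 79 16 18159 720) (.nr 897 257 (.lg 0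
  true 1 43 43 16 0 360) .out)) .out))) .out) .out) (.na 902 75 (.lg 0 false 1 0 0 16 0 24) (.lg 0
  false 1 0 0 16 0 24))))) (.na 941 85 (.na 922 80 (.na 913 79 (.nx 912 82572 (.nr 911 524289 (.nr
  904 76 .s1 (.nx 905 647 (.l1 (.ls 73 47 5511)) (.nr 910 262145 (.nx 908 41287 (.nx 906 6503 (.lg
  0 true 1 83 83 17 0 720) (.nr 907 65537 (.lg 1 false 1 79 79 17 18159 720) .out)) (.nr 909 257
  (.lg 0 true 1 47 47 17 0 240) .out)) .out))) .out) .out) (.nx 921 82572 (.nr 920 524289 (.nr 914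
  79 .s1 (.nx 917 6503 (.nx 915 647 (.l1 (.ls 61 37 5301)) (.nr 916 262145 (.lg 0 true 1 71 71 16 0
  120) .out)) (.nr 919 65537 (.lg 1 true 2 73 73 16 31357 720) .out))) .out) .out)) (.na 932 81
  (.nx 931 82572 (.nr 930 524289 (.nr 923 80 .s1 (.nx 924 647 (.l1 (.ls 71 47 5235)) (.nr 929
  262145 (.nx 927 41287 (.nx 925 6503 (.lg 0 false 1 73 73 23 0 240) (.nr 926 65537 (.lg 1 false 1
  73 73 23 18159 720) .out)) (.nr 928 257 (.lg 0 true 1 43 43 23 0 240) .out)) .out))) .out) .out)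
  (.na 933 83 (.lg 0 false 1 0 0 16 0 24) (.nx 940 82572 (.nr 939 524289 (.nr 934 83 .s1 (.nx 937
  6503 (.nx 935 647 (.l1 (.ls 67 37 5046)) (.nr 936 262145 (.lg 0 true 1 73 73 16 0 360) .out))
  (.nr 938 65537 (.lg 1 false 1 83 83 16 29846 720) .out))) .out) .out)))) (.na 950 92 (.na 949 90
  (.nx 948 82572 (.nr 947 524289 (.nr 942 85 .s1 (.nx 945 6503 (.nx 943 647 (.l1 (.ls 67 41 4927))
  (.nr 944 262145 (.lg 0 true 1 73 73 16 0 120) .out)) (.nr 946 65537 (.lg 1 false 1 83 83 16 29144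
  720) .out))) .out) .out) (.lg 0 false 1 0 0 16 0 24)) (.na 960 93 (.nx 959 82572 (.nr 958 524289
  (.nr 951 92 .s1 (.nx 956 41287 (.nx 952 647 (.l1 (.ls 73 47 4553)) (.nr 955 262145 (.nx 953 6503
  (.lg 0 false 1 79 79 19 0 240) (.nr 954 65537 (.lg 1 false 1 73 73 19 18159 720) .out)) .out))
  (.nr 957 257 (.lg 0 true 1 47 47 19 0 720) .out))) .out) .out) (.na 968 94 (.nx 967 82572 (.nr
  966 524289 (.nr 961 93 .s1 (.nx 962 647 (.l1 (.ls 67 43 4504)) (.nr 965 262145 (.nx 963 6503 (.lg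
  0 true 1 73 73 16 0 360) (.nr 964 65537 (.lg 1 false 1 79 79 16 26637 720) .out)) .out))) .out)
  .out) (.nx 975 82572 (.nr 974 524289 (.nr 969 94 .s1 (.nx 970 647 (.l1 (.ls 71 43 4456)) (.nr 973
  262145 (.nx 971 6503 (.lg 0 true 1 79 79 17 0 720) (.nr 972 65537 (.lg 1 false 1 79 79 17 26353
  720) .out)) .out))) .out) .out)))))) (.na 1038 114 (.na 1002 106 (.na 992 100 (.na 984 96 (.nx
  983 82572 (.nr 982 524289 (.nr 977 95 .s1 (.nx 980 6503 (.nx 978 647 (.l1 (.ls 67 41 4409)) (.nr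
  979 262145 (.lg 0 true 1 71 71 16 0 120) .out)) (.nr 981 65537 (.lg 1 false 1 79 79 16 26076 720)
  .out))) .out) .out) (.nx 991 82572 (.nr 990 524289 (.nr 985 96 .s1 (.nx 988 6503 (.nx 986 647
  (.l1 (.ls 73 47 4363)) (.nr 987 262145 (.lg 0 false 1 79 79 23 0 720) .out)) (.nr 989 65537 (.lg
  1 false 1 79 79 23 25804 720) .out))) .out) .out)) (.na 993 102 (.lg 0 false 1 0 0 16 0 24) (.nx
  1001 82572 (.nr 1000 524289 (.nr 994 102 .s1 (.nx 998 41287 (.nx 995 647 (.l1 (.ls 71 53 4107))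
  (.nr 997 262145 (.lg 0 true 2 83 83 29 0 720) .out)) (.nr 999 257 (.lg 0 true 1 41 41 29 0 720)
  .out))) .out) .out))) (.na 1019 108 (.na 1011 107 (.nx 1010 82572 (.nr 1009 524289 (.nr 1003 106
  .s1 (.nx 1007 41287 (.nx 1004 647 (.l1 (.ls 71 41 3952)) (.nr 1006 262145 (.lg 0 false 2 83 83 19
  0 240) .out)) (.nr 1008 257 (.lg 0 true 1 37 37 19 0 720) .out))) .out) .out) (.nx 1018 82572
  (.nr 1017 524289 (.nr 1012 107 .s1 (.nx 1015 6503 (.nx 1013 647 (.l1 (.ls 61 31 3915)) (.nr 1014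
  262145 (.lg 0 true 1 71 71 16 0 360) .out)) (.nr 1016 65537 (.lg 1 false 1 73 73 16 23152 720)
  .out))) .out) .out)) (.na 1020 109 (.lg 0 false 1 0 0 16 0 24) (.na 1029 113 (.nx 1028 82572 (.nr
  1027 524289 (.nr 1021 109 .s1 (.nx 1025 41287 (.nx 1022 647 (.l1 (.ls 59 31 3843)) (.nr 1024
  262145 (.lg 0 false 2 79 79 16 0 720) .out)) (.nr 1026 257 (.lg 0 true 1 31 31 16 0 360) .out)))
  .out) .out) (.nx 1037 82572 (.nr 1036 524289 (.nr 1030 113 .s1 (.nx 1031 647 (.l1 (.ls 61 31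
  3707)) (.nr 1035 262145 (.nx 1033 41287 (.lg 0 false 2 79 79 16 0 240) (.nr 1034 257 (.lg 0 true
  1 31 31 16 0 360) .out)) .out))) .out) .out))))) (.na 1081 125 (.na 1055 120 (.na 1047 115 (.nx
  1046 82572 (.nr 1045 524289 (.nr 1039 114 .s1 (.nx 1043 41287 (.nx 1040 647 (.l1 (.ls 71 47
  3675)) (.nr 1042 262145 (.lg 0 true 2 83 83 31 0 720) .out)) (.nr 1044 257 (.lg 0 true 1 41 41 29
  0 720) .out))) .out) .out) (.nx 1054 82572 (.nr 1053 524289 (.nr 1048 115 .s1 (.nx 1049 647 (.l1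
  (.ls 61 41 3643)) (.nr 1052 262145 (.nx 1050 6503 (.lg 0 true 1 71 71 16 0 360) (.nr 1051 65537
  (.lg 1 false 1 73 73 16 21541 720) .out)) .out))) .out) .out)) (.na 1064 122 (.nx 1063 82572 (.nr
  1062 524289 (.nr 1056 120 .s1 (.nx 1057 647 (.l1 (.ls 67 47 3491)) (.nr 1061 262145 (.nx 1059
  41287 (.lg 0 false 2 79 79 29 0 720) (.nr 1060 257 (.lg 0 true 1 37 37 29 0 720) .out)) .out)))
  .out) .out) (.na 1073 124 (.nx 1072 82572 (.nr 1071 524289 (.nr 1065 122 .s1 (.nx 1069 41287 (.nx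
  1066 647 (.l1 (.ls 59 41 3434)) (.nr 1068 262145 (.lg 0 false 2 79 79 19 0 240) .out)) (.nr 1070
  257 (.lg 0 true 1 31 31 19 0 720) .out))) .out) .out) (.nx 1080 82572 (.nr 1079 524289 (.nr 1074
  124 .s1 (.nx 1077 6503 (.nx 1075 647 (.l1 (.ls 71 43 3378)) (.nr 1076 262145 (.lg 0 false 1 73 73
  19 0 240) .out)) (.nr 1078 65537 (.lg 1 false 1 79 79 19 19978 720) .out))) .out) .out)))) (.na
  1093 129 (.na 1082 128 (.lg 0 false 1 0 0 16 0 24) (.nx 1092 82572 (.nr 1091 1048577 (.nr 1083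
  128 .s1 (.nx 1089 41287 (.nx 1084 198 (.l1 (.ls 73 29 309)) (.nx 1085 647 (.l1 (.ls 73 41 2967))
  (.nr 1088 262145 (.nx 1086 6503 (.lg 0 false 1 79 83 29 0 720) (.nr 1087 131073 (.lg 1 true 1 79
  83 23 36300 720) .out)) .out))) (.nr 1090 257 (.lg 2 true 1 37 43 23 19353 720) .out))) .out)
  .out)) (.na 1094 131 .ne (.na 1095 135 (.lg 0 false 1 0 0 16 0 24) (.lg 0 false 1 0 0 16 0
  24)))))))) (.na 1259 207 (.na 1175 167 (.na 1135 152 (.na 1120 141 (.na 1108 138 (.na 1102 137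
  (.nx 1101 41287 (.nr 1100 1048577 (.nr 1097 136 .s1 (.nx 1098 647 (.l1 (.ls 73 43 3081)) (.nr
  1099 131073 (.lg 0 true 1 83 83 29 0 720) .out))) .out) .out) (.nx 1107 41287 (.nr 1106 1048577
  (.nr 1103 137 .s1 (.nx 1104 647 (.l1 (.ls 61 31 3058)) (.nr 1105 131073 (.lg 0 true 1 71 71 16 0
  120) .out))) .out) .out)) (.na 1114 139 (.nx 1113 41287 (.nr 1112 1048577 (.nr 1109 138 .s1 (.nx
  1110 647 (.l1 (.ls 71 47 3036)) (.nr 1111 131073 (.lg 0 true 1 83 83 19 0 720) .out))) .out)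
  .out) (.nx 1119 41287 (.nr 1118 1048577 (.nr 1115 139 .s1 (.nx 1116 647 (.l1 (.ls 61 31 3014))
  (.nr 1117 131073 (.lg 0 true 1 73 73 16 0 360) .out))) .out) .out))) (.na 1127 149 (.na 1126 144
  (.nx 1125 41287 (.nr 1124 1048577 (.nr 1121 141 .s1 (.nx 1122 647 (.l1 (.ls 71 37 2971)) (.nr
  1123 131073 (.lg 0 true 1 79 79 17 0 360) .out))) .out) .out) (.lg 0 false 1 0 0 16 0 24)) (.na
  1128 150 (.lg 0 false 1 0 0 16 0 24) (.na 1129 151 (.lg 0 false 1 0 0 16 0 24) (.nx 1134 41287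
  (.nr 1133 1048577 (.nr 1130 151 .s1 (.nx 1131 647 (.l1 (.ls 61 31 2775)) (.nr 1132 131073 (.lg 0
  true 1 71 71 16 0 120) .out))) .out) .out))))) (.na 1155 159 (.na 1142 155 (.na 1141 153 (.nx
  1140 41287 (.nr 1139 1048577 (.nr 1136 152 .s1 (.nx 1137 647 (.l1 (.ls 73 43 2757)) (.nr 1138
  131073 (.lg 0 true 1 83 83 29 0 720) .out))) .out) .out) (.lg 0 false 1 0 0 16 0 24)) (.na 1148
  157 (.nx 1147 41287 (.nr 1146 1048577 (.nr 1143 155 .s1 (.nx 1144 647 (.l1 (.ls 67 41 2703)) (.nr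
  1145 131073 (.lg 0 true 1 73 73 17 0 360) .out))) .out) .out) (.na 1149 158 (.lg 0 false 1 0 0 16
  0 24) (.nx 1154 41287 (.nr 1153 1048577 (.nr 1150 158 .s1 (.nx 1151 647 (.l1 (.ls 67 41 2652))
  (.nr 1152 131073 (.lg 0 true 1 79 79 19 0 720) .out))) .out) .out)))) (.na 1167 162 (.na 1161 160
  (.nx 1160 41287 (.nr 1159 1048577 (.nr 1156 159 .s1 (.nx 1157 647 (.l1 (.ls 71 37 2635)) (.nr
  1158 131073 (.lg 0 true 1 79 79 17 0 360) .out))) .out) .out) (.nx 1166 41287 (.nr 1165 1048577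
  (.nr 1162 160 .s1 (.nx 1163 647 (.l1 (.ls 73 43 2619)) (.nr 1164 131073 (.lg 0 false 1 83 83 29 0
  720) .out))) .out) .out)) (.na 1168 163 (.lg 0 false 1 0 0 16 0 24) (.na 1169 166 (.lg 0 false 1
  0 0 16 0 24) (.nx 1174 41287 (.nr 1173 1048577 (.nr 1170 166 .s1 (.nx 1171 647 (.l1 (.ls 67 41
  2524)) (.nr 1172 131073 (.lg 0 true 1 73 73 19 0 720) .out))) .out) .out)))))) (.na 1214 186 (.na
  1194 179 (.na 1187 171 (.na 1181 170 (.nx 1180 41287 (.nr 1179 1048577 (.nr 1176 167 .s1 (.nx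
  1177 647 (.l1 (.ls 61 31 2509)) (.nr 1178 131073 (.lg 0 true 1 71 71 16 0 120) .out))) .out)
  .out) (.nx 1186 41287 (.nr 1185 1048577 (.nr 1182 170 .s1 (.nx 1183 647 (.l1 (.ls 67 43 2465))
  (.nr 1184 131073 (.lg 0 true 1 73 73 29 0 240) .out))) .out) .out)) (.na 1188 173 (.lg 0 false 1
  0 0 16 0 24) (.nx 1193 41287 (.nr 1192 1048577 (.nr 1189 173 .s1 (.nx 1190 647 (.l1 (.ls 61 31
  2422)) (.nr 1191 131073 (.lg 0 true 1 71 71 16 0 360) .out))) .out) .out))) (.na 1196 181 (.na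
  1195 180 (.lg 0 false 1 0 0 16 0 24) (.lg 0 false 1 0 0 16 0 24)) (.na 1202 183 (.nx 1201 41287
  (.nr 1200 1048577 (.nr 1197 181 .s1 (.nx 1198 647 (.l1 (.ls 61 31 2315)) (.nr 1199 131073 (.lg 0
  true 1 71 71 16 0 360) .out))) .out) .out) (.na 1208 184 (.nx 1207 41287 (.nr 1206 1048577 (.nr
  1203 183 .s1 (.nx 1204 647 (.l1 (.ls 59 37 2290)) (.nr 1205 131073 (.lg 0 true 1 73 73 17 0 360)
  .out))) .out) .out) (.nx 1213 41287 (.nr 1212 1048577 (.nr 1209 184 .s1 (.nx 1210 647 (.l1 (.ls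
  73 43 2278)) (.nr 1211 131073 (.lg 0 false 1 79 79 19 0 240) .out))) .out) .out))))) (.na 1239
  193 (.na 1226 190 (.na 1220 188 (.nx 1219 41287 (.nr 1218 1048577 (.nr 1215 186 .s1 (.nx 1216 647
  (.l1 (.ls 67 47 2253)) (.nr 1217 131073 (.lg 0 true 1 73 73 29 0 720) .out))) .out) .out) (.nx
  1225 41287 (.nr 1224 1048577 (.nr 1221 188 .s1 (.nx 1222 647 (.l1 (.ls 73 41 2229)) (.nr 1223
  131073 (.lg 0 false 1 79 79 23 0 240) .out))) .out) .out)) (.na 1232 191 (.nx 1231 41287 (.nr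
  1230 1048577 (.nr 1227 190 .s1 (.nx 1228 647 (.l1 (.ls 71 43 2206)) (.nr 1229 131073 (.lg 0 true
  1 79 79 29 0 720) .out))) .out) .out) (.na 1233 192 (.lg 0 false 1 0 0 16 0 24) (.nx 1238 41287
  (.nr 1237 1048577 (.nr 1234 192 .s1 (.nx 1235 647 (.l1 (.ls 73 43 2183)) (.nr 1236 131073 (.lg 0
  false 1 79 83 31 0 720) .out))) .out) .out)))) (.na 1246 199 (.na 1240 197 (.lg 0 false 1 0 0 16
  0 24) (.nx 1245 41287 (.nr 1244 1048577 (.nr 1241 197 .s1 (.nx 1242 647 (.l1 (.ls 61 29 2127))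
  (.nr 1243 131073 (.lg 0 true 1 71 71 16 0 360) .out))) .out) .out)) (.na 1252 200 (.nx 1251 41287
  (.nr 1250 1048577 (.nr 1247 199 .s1 (.nx 1248 647 (.l1 (.ls 59 29 2106)) (.nr 1249 131073 (.lg 0
  true 1 67 67 16 0 120) .out))) .out) .out) (.na 1253 204 (.lg 0 false 1 0 0 16 0 24) (.nx 1258
  41287 (.nr 1257 1048577 (.nr 1254 204 .s1 (.nx 1255 647 (.l1 (.ls 73 47 2055)) (.nr 1256 131073
  (.lg 0 false 1 79 79 31 0 720) .out))) .out) .out))))))) (.na 1348 243 (.na 1293 227 (.na 1278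
  216 (.na 1266 212 (.na 1260 211 (.lg 0 false 1 0 0 16 0 24) (.nx 1265 41287 (.nr 1264 1048577
  (.nr 1261 211 .s1 (.nx 1262 647 (.l1 (.ls 61 29 1986)) (.nr 1263 131073 (.lg 0 true 1 67 67 16 0
  120) .out))) .out) .out)) (.na 1272 214 (.nx 1271 41287 (.nr 1270 1048577 (.nr 1267 212 .s1 (.nx
  1268 647 (.l1 (.ls 73 37 1977)) (.nr 1269 131073 (.lg 0 false 1 79 79 23 0 240) .out))) .out)
  .out) (.nx 1277 41287 (.nr 1276 1048577 (.nr 1273 214 .s1 (.nx 1274 647 (.l1 (.ls 61 37 1959))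
  (.nr 1275 131073 (.lg 0 true 1 71 71 23 0 720) .out))) .out) .out))) (.na 1285 223 (.na 1279 218
  (.lg 0 false 1 0 0 16 0 24) (.nx 1284 41287 (.nr 1283 1048577 (.nr 1280 218 .s1 (.nx 1281 647
  (.l1 (.ls 61 37 1923)) (.nr 1282 131073 (.lg 0 true 1 71 71 23 0 240) .out))) .out) .out)) (.na
  1286 225 (.lg 0 false 1 0 0 16 0 24) (.na 1287 226 (.lg 0 false 1 0 0 16 0 24) (.nx 1292 41287
  (.nr 1291 1048577 (.nr 1288 226 .s1 (.nx 1289 647 (.l1 (.ls 61 37 1855)) (.nr 1290 131073 (.lg 0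
  true 1 71 71 23 0 720) .out))) .out) .out))))) (.na 1323 235 (.na 1305 229 (.na 1299 228 (.nx
  1298 41287 (.nr 1297 1048577 (.nr 1294 227 .s1 (.nx 1295 647 (.l1 (.ls 59 29 1847)) (.nr 1296
  131073 (.lg 0 true 1 67 67 17 0 360) .out))) .out) .out) (.nx 1304 41287 (.nr 1303 1048577 (.nr
  1300 228 .s1 (.nx 1301 647 (.l1 (.ls 71 43 1839)) (.nr 1302 131073 (.lg 0 false 1 79 79 37 0 720)
  .out))) .out) .out)) (.na 1311 230 (.nx 1310 41287 (.nr 1309 1048577 (.nr 1306 229 .s1 (.nx 1307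
  647 (.l1 (.ls 59 29 1830)) (.nr 1308 131073 (.lg 0 true 1 67 67 17 0 120) .out))) .out) .out)
  (.na 1317 233 (.nx 1316 41287 (.nr 1315 1048577 (.nr 1312 230 .s1 (.nx 1313 647 (.l1 (.ls 67 43
  1823)) (.nr 1314 131073 (.lg 0 true 1 73 73 31 0 720) .out))) .out) .out) (.nx 1322 41287 (.nr
  1321 1048577 (.nr 1318 233 .s1 (.nx 1319 647 (.l1 (.ls 59 29 1799)) (.nr 1320 131073 (.lg 0 true
  1 67 67 17 0 360) .out))) .out) .out)))) (.na 1335 239 (.na 1329 237 (.nx 1328 41287 (.nr 1327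
  1048577 (.nr 1324 235 .s1 (.nx 1325 647 (.l1 (.ls 61 31 1784)) (.nr 1326 131073 (.lg 0 true 1 71
  71 17 0 360) .out))) .out) .out) (.nx 1334 41287 (.nr 1333 1048577 (.nr 1330 237 .s1 (.nx 1331
  647 (.l1 (.ls 61 31 1769)) (.nr 1332 131073 (.lg 0 true 1 71 71 19 0 360) .out))) .out) .out))
  (.na 1336 240 (.lg 0 false 1 0 0 16 0 24) (.na 1342 241 (.nx 1341 41287 (.nr 1340 1048577 (.nr
  1337 240 .s1 (.nx 1338 647 (.l1 (.ls 67 43 1747)) (.nr 1339 131073 (.lg 0 false 1 73 73 31 0 720)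
  .out))) .out) .out) (.nx 1347 41287 (.nr 1346 1048577 (.nr 1343 241 .s1 (.nx 1344 647 (.l1 (.ls
  59 29 1739)) (.nr 1345 131073 (.lg 0 true 1 61 61 17 0 120) .out))) .out) .out)))))) (.na 1977
  725 (.na 1368 251 (.na 1355 248 (.na 1349 244 (.lg 0 false 1 0 0 16 0 24) (.nx 1354 41287 (.nr
  1353 1048577 (.nr 1350 244 .s1 (.nx 1351 647 (.l1 (.ls 59 37 1718)) (.nr 1352 131073 (.lg 0 false
  1 79 79 23 0 240) .out))) .out) .out)) (.na 1361 249 (.nx 1360 41287 (.nr 1359 1048577 (.nr 1356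
  248 .s1 (.nx 1357 647 (.l1 (.ls 71 41 1690)) (.nr 1358 131073 (.lg 0 false 1 73 73 23 0 240)
  .out))) .out) .out) (.na 1367 250 (.nx 1366 41287 (.nr 1365 1048577 (.nr 1362 249 .s1 (.nx 1363
  647 (.l1 (.ls 59 31 1684)) (.nr 1364 131073 (.lg 0 true 1 67 67 19 0 360) .out))) .out) .out)
  (.lg 0 false 1 0 0 16 0 24)))) (.na 1375 256 (.na 1369 255 (.lg 0 false 1 0 0 16 0 24) (.nx 1374
  41287 (.nr 1373 1048577 (.nr 1370 255 .s1 (.nx 1371 647 (.l1 (.ls 61 41 1644)) (.nr 1372 131073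
  (.lg 0 true 1 71 71 29 0 360) .out))) .out) .out)) (.na 1381 257 (.nx 1380 41287 (.nr 1379
  1048577 (.nr 1376 256 .s1 (.nx 1377 647 (.l1 (.ls 71 37 1638)) (.nr 1378 262145 (.lg 0 false 1 79
  83 31 0 720) .out))) .out) .out) (.na 1700 512 (.nx 1699 41287 (.nr 1698 262145 (.nr 1382 257 .s1
  (.nx 1443 61 (.nx 1442 60 (.nr 1441 2817 (.lx (.lp 31 17 129)) (.l1 .sk)) (.l1 .sk)) (.la (.lg 0
  false 1 71 71 23 0)))) .out) .out) (.nx 1976 41287 (.nr 1975 262145 (.nr 1701 512 .s1 (.nx 1761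
  60 (.nr 1760 3988 (.lx (.lp 29 19 182)) (.l1 .sk)) (.nx 1762 61 (.l1 .sk) (.la (.lg 0 false 1 61
  61 29 0))))) .out) .out))))) (.na 3274 4096 (.na 2497 1449 (.na 2237 1024 (.nx 2236 257 (.nr 2235
  65537 (.nr 1978 725 .s1 (.nx 2106 129 (.lx (.lp 47 23 257)) (.nr 2234 8193 (.lx (.lp 37 23 257))
  .out))) .out) .out) (.nx 2496 257 (.nr 2495 65537 (.nr 2238 1024 .s1 (.nx 2366 129 (.lx (.lp 43
  23 363)) (.nr 2494 8193 (.lx (.lp 31 23 363)) .out))) .out) .out)) (.na 2756 2048 (.nx 2755 257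
  (.nr 2754 16385 (.nr 2498 1449 .s1 (.lx (.lp 31 29 513))) .out) .out) (.na 3015 2897 (.nx 3014
  257 (.nr 3013 32769 (.nr 2757 2048 .s1 (.lx (.lp 41 29 725))) .out) .out) (.nx 3273 257 (.nr 3272
  32769 (.nr 3016 2897 .s1 (.lx (.lp 31 31 1025))) .out) .out)))) (.na 3638 8192 (.na 3533 5793
  (.nx 3532 257 (.nr 3531 32769 (.nr 3275 4096 .s1 (.lx (.lp 29 31 1449))) .out) .out) (.nx 3637
  103 (.nr 3636 32769 (.nr 3534 5793 .s1 (.lx (.lp 16 29 2049))) .out) .out)) (.na 3743 16384 (.nx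
  3742 103 (.nr 3741 32769 (.nr 3639 8192 .s1 (.lx (.lp 16 0 4097))) .out) .out) (.na 3745 32769
  (.nx 3744 103 (.l1 .sk) .out) .out))))))))

theorem c7 :
    OkQ ckI L6 108 1 1099511627776 0 34359738368 1 1099511627776 ∧
    OkQ ckI L5 60 1 1099511627776 0 34359738368 1 1099511627776 := by
  refine ⟨?_, ?_⟩
  · refine fin 72 7959 T7_0 ?_
    refine jn 6 (by decide +kernel) ?_
    refine jn 7 (by decide +kernel) ?_
    refine jn 11 (by decide +kernel) ?_
    refine jn 14 (by decide +kernel) ?_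
    refine jn 16 (by decide +kernel) ?_
    refine jn 20 (by decide +kernel) ?_
    refine jn 21 (by decide +kernel) ?_
    refine jn 23 (by decide +kernel) ?_
    refine jn 26 (by decide +kernel) ?_
    refine jn 29 (by decide +kernel) ?_
    refine jn 31 (by decide +kernel) ?_
    refine jn 35 (by decide +kernel) ?_
    refine jn 36 (by decide +kernel) ?_
    refine jn 40 (by decide +kernel) ?_
    refine jn 43 (by decide +kernel) ?_
    refine jn 47 (by decide +kernel) ?_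
    refine jn 52 (by decide +kernel) ?_
    refine jn 57 (by decide +kernel) ?_
    refine jn 62 (by decide +kernel) ?_
    refine jn 68 (by decide +kernel) ?_
    refine jn 72 (by decide +kernel) ?_
    refine jn 83 (by decide +kernel) ?_
    refine jn 94 (by decide +kernel) ?_
    refine jn 114 (by decide +kernel) ?_
    refine jn 129 (by decide +kernel) ?_
    refine jn 145 (by decide +kernel) ?_
    refine jn 174 (by decide +kernel) ?_
    refine jn 184 (by decide +kernel) ?_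
    refine jn 187 (by decide +kernel) ?_
    refine jn 191 (by decide +kernel) ?_
    refine jn 194 (by decide +kernel) ?_
    refine jn 208 (by decide +kernel) ?_
    refine jn 216 (by decide +kernel) ?_
    refine jn 229 (by decide +kernel) ?_
    refine jn 247 (by decide +kernel) ?_
    refine jn 274 (by decide +kernel) ?_
    refine jn 314 (by decide +kernel) ?_
    refine jn 320 (by decide +kernel) ?_
    refine jn 321 (by decide +kernel) ?_
    refine jn 322 (by decide +kernel) ?_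
    refine jn 323 (by decide +kernel) ?_
    refine jn 324 (by decide +kernel) ?_
    refine jn 325 (by decide +kernel) ?_
    refine jn 326 (by decide +kernel) ?_
    refine jn 327 (by decide +kernel) ?_
    refine jn 328 (by decide +kernel) ?_
    refine jn 329 (by decide +kernel) ?_
    refine jn 330 (by decide +kernel) ?_
    refine jn 336 (by decide +kernel) ?_
    refine jn 337 (by decide +kernel) ?_
    refine jn 338 (by decide +kernel) ?_
    refine jn 339 (by decide +kernel) ?_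
    refine jn 340 (by decide +kernel) ?_
    refine jn 341 (by decide +kernel) ?_
    refine jn 342 (by decide +kernel) ?_
    refine jn 343 (by decide +kernel) ?_
    refine jn 344 (by decide +kernel) ?_
    refine jn 346 (by decide +kernel) ?_
    refine jn 356 (by decide +kernel) ?_
    refine jn 361 (by decide +kernel) ?_
    refine jn 371 (by decide +kernel) ?_
    refine jn 384 (by decide +kernel) ?_
    refine jn 390 (by decide +kernel) ?_
    refine jn 395 (by decide +kernel) ?_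
    refine jn 426 (by decide +kernel) ?_
    refine jn 434 (by decide +kernel) ?_
    refine jn 436 (by decide +kernel) ?_
    refine jn 437 (by decide +kernel) ?_
    refine jn 439 (by decide +kernel) ?_
    refine jn 440 (by decide +kernel) ?_
    refine jn 442 (by decide +kernel) ?_
    refine jn 444 (by decide +kernel) ?_
    refine jn 447 (by decide +kernel) ?_
    refine jn 450 (by decide +kernel) ?_
    refine jn 453 (by decide +kernel) ?_
    refine jn 455 (by decide +kernel) ?_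
    refine jn 463 (by decide +kernel) ?_
    refine jn 472 (by decide +kernel) ?_
    refine jn 499 (by decide +kernel) ?_
    refine jn 506 (by decide +kernel) ?_
    refine jn 507 (by decide +kernel) ?_
    refine jn 508 (by decide +kernel) ?_
    refine jn 509 (by decide +kernel) ?_
    refine jn 510 (by decide +kernel) ?_
    refine jn 511 (by decide +kernel) ?_
    refine jn 517 (by decide +kernel) ?_
    refine jn 518 (by decide +kernel) ?_
    refine jn 519 (by decide +kernel) ?_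
    refine jn 520 (by decide +kernel) ?_
    refine jn 521 (by decide +kernel) ?_
    refine jn 522 (by decide +kernel) ?_
    refine jn 523 (by decide +kernel) ?_
    refine jn 524 (by decide +kernel) ?_
    refine jn 526 (by decide +kernel) ?_
    refine jn 528 (by decide +kernel) ?_
    refine jn 529 (by decide +kernel) ?_
    refine jn 534 (by decide +kernel) ?_
    refine jn 538 (by decide +kernel) ?_
    refine jn 545 (by decide +kernel) ?_
    refine jn 558 (by decide +kernel) ?_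
    refine jn 575 (by decide +kernel) ?_
    refine jn 576 (by decide +kernel) ?_
    refine jn 577 (by decide +kernel) ?_
    refine jn 578 (by decide +kernel) ?_
    refine jn 580 (by decide +kernel) ?_
    refine jn 582 (by decide +kernel) ?_
    refine jn 586 (by decide +kernel) ?_
    refine jn 588 (by decide +kernel) ?_
    refine jn 589 (by decide +kernel) ?_
    refine jn 590 (by decide +kernel) ?_
    refine jn 591 (by decide +kernel) ?_
    refine jn 592 (by decide +kernel) ?_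
    refine jn 593 (by decide +kernel) ?_
    refine jn 594 (by decide +kernel) ?_
    refine jn 595 (by decide +kernel) ?_
    refine jn 601 (by decide +kernel) ?_
    refine jn 610 (by decide +kernel) ?_
    refine jn 619 (by decide +kernel) ?_
    refine jn 620 (by decide +kernel) ?_
    refine jn 623 (by decide +kernel) ?_
    refine jn 626 (by decide +kernel) ?_
    refine jn 627 (by decide +kernel) ?_
    refine jn 631 (by decide +kernel) ?_
    refine jn 637 (by decide +kernel) ?_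
    refine jn 647 (by decide +kernel) ?_
    refine jn 657 (by decide +kernel) ?_
    refine jn 661 (by decide +kernel) ?_
    refine jn 662 (by decide +kernel) ?_
    refine jn 667 (by decide +kernel) ?_
    refine jn 675 (by decide +kernel) ?_
    refine jn 686 (by decide +kernel) ?_
    refine jn 691 (by decide +kernel) ?_
    refine jn 696 (by decide +kernel) ?_
    refine jn 708 (by decide +kernel) ?_
    refine jn 712 (by decide +kernel) ?_
    refine jn 714 (by decide +kernel) ?_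
    refine jn 716 (by decide +kernel) ?_
    refine jn 718 (by decide +kernel) ?_
    refine jn 721 (by decide +kernel) ?_
    refine jn 723 (by decide +kernel) ?_
    refine jn 730 (by decide +kernel) ?_
    refine jn 733 (by decide +kernel) ?_
    refine jn 734 (by decide +kernel) ?_
    refine jn 735 (by decide +kernel) ?_
    refine jn 737 (by decide +kernel) ?_
    refine jn 738 (by decide +kernel) ?_
    refine jn 739 (by decide +kernel) ?_
    refine jn 744 (by decide +kernel) ?_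
    refine jn 748 (by decide +kernel) ?_
    refine jn 761 (by decide +kernel) ?_
    refine jn 767 (by decide +kernel) ?_
    refine jn 778 (by decide +kernel) ?_
    refine jn 779 (by decide +kernel) ?_
    refine jn 780 (by decide +kernel) ?_
    refine jn 781 (by decide +kernel) ?_
    refine jn 782 (by decide +kernel) ?_
    refine jn 783 (by decide +kernel) ?_
    refine jn 784 (by decide +kernel) ?_
    refine jn 785 (by decide +kernel) ?_
    refine jn 786 (by decide +kernel) ?_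
    refine jn 788 (by decide +kernel) ?_
    refine jn 789 (by decide +kernel) ?_
    refine jn 790 (by decide +kernel) ?_
    refine jn 802 (by decide +kernel) ?_
    refine jn 806 (by decide +kernel) ?_
    refine jn 819 (by decide +kernel) ?_
    refine jn 823 (by decide +kernel) ?_
    refine jn 836 (by decide +kernel) ?_
    refine jn 840 (by decide +kernel) ?_
    refine jn 854 (by decide +kernel) ?_
    refine jn 858 (by decide +kernel) ?_
    refine jn 866 (by decide +kernel) ?_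
    refine jn 867 (by decide +kernel) ?_
    refine jn 868 (by decide +kernel) ?_
    refine jn 869 (by decide +kernel) ?_
    refine jn 872 (by decide +kernel) ?_
    refine jn 885 (by decide +kernel) ?_
    refine jn 899 (by decide +kernel) ?_
    refine jn 908 (by decide +kernel) ?_
    refine jn 911 (by decide +kernel) ?_
    refine jn 912 (by decide +kernel) ?_
    refine jn 915 (by decide +kernel) ?_
    refine jn 929 (by decide +kernel) ?_
    refine jn 944 (by decide +kernel) ?_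
    refine jn 955 (by decide +kernel) ?_
    refine jn 957 (by decide +kernel) ?_
    refine jn 968 (by decide +kernel) ?_
    refine jn 981 (by decide +kernel) ?_
    refine jn 983 (by decide +kernel) ?_
    refine jn 986 (by decide +kernel) ?_
    refine jn 996 (by decide +kernel) ?_
    refine jn 999 (by decide +kernel) ?_
    refine jn 1010 (by decide +kernel) ?_
    refine jn 1021 (by decide +kernel) ?_
    refine jn 1032 (by decide +kernel) ?_
    refine jn 1041 (by decide +kernel) ?_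
    refine jn 1044 (by decide +kernel) ?_
    refine jn 1060 (by decide +kernel) ?_
    refine jn 1070 (by decide +kernel) ?_
    refine jn 1074 (by decide +kernel) ?_
    refine jn 1076 (by decide +kernel) ?_
    refine jn 1086 (by decide +kernel) ?_
    refine jn 1097 (by decide +kernel) ?_
    refine jn 1113 (by decide +kernel) ?_
    refine jn 1117 (by decide +kernel) ?_
    refine jn 1127 (by decide +kernel) ?_
    refine jn 1142 (by decide +kernel) ?_
    refine jn 1154 (by decide +kernel) ?_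
    refine jn 1162 (by decide +kernel) ?_
    refine jn 1178 (by decide +kernel) ?_
    refine jn 1193 (by decide +kernel) ?_
    refine jn 1195 (by decide +kernel) ?_
    refine jn 1203 (by decide +kernel) ?_
    refine jn 1220 (by decide +kernel) ?_
    refine jn 1228 (by decide +kernel) ?_
    refine jn 1238 (by decide +kernel) ?_
    refine jn 1246 (by decide +kernel) ?_
    refine jn 1263 (by decide +kernel) ?_
    refine jn 1279 (by decide +kernel) ?_
    refine jn 1295 (by decide +kernel) ?_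
    refine jn 1304 (by decide +kernel) ?_
    refine jn 1321 (by decide +kernel) ?_
    refine jn 1338 (by decide +kernel) ?_
    refine jn 1347 (by decide +kernel) ?_
    refine jn 1354 (by decide +kernel) ?_
    refine jn 1355 (by decide +kernel) ?_
    refine jn 1356 (by decide +kernel) ?_
    refine jn 1397 (by decide +kernel) ?_
    refine jn 1442 (by decide +kernel) ?_
    refine jn 1484 (by decide +kernel) ?_
    refine jn 1526 (by decide +kernel) ?_
    refine jn 1573 (by decide +kernel) ?_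
    refine jn 1616 (by decide +kernel) ?_
    refine jn 1628 (by decide +kernel) ?_
    refine jn 1633 (by decide +kernel) ?_
    refine jn 1639 (by decide +kernel) ?_
    refine jn 1651 (by decide +kernel) ?_
    refine jn 1661 (by decide +kernel) ?_
    refine jn 1669 (by decide +kernel) ?_
    refine jn 1684 (by decide +kernel) ?_
    refine jn 1693 (by decide +kernel) ?_
    refine jn 1703 (by decide +kernel) ?_
    refine jn 1711 (by decide +kernel) ?_
    refine jn 1724 (by decide +kernel) ?_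
    refine jn 1725 (by decide +kernel) ?_
    refine jn 1739 (by decide +kernel) ?_
    refine jn 1747 (by decide +kernel) ?_
    refine jn 1748 (by decide +kernel) ?_
    refine jn 1759 (by decide +kernel) ?_
    refine jn 1769 (by decide +kernel) ?_
    refine jn 1781 (by decide +kernel) ?_
    refine jn 1796 (by decide +kernel) ?_
    refine jn 1801 (by decide +kernel) ?_
    refine jn 1813 (by decide +kernel) ?_
    refine jn 1828 (by decide +kernel) ?_
    refine jn 1829 (by decide +kernel) ?_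
    refine jn 1847 (by decide +kernel) ?_
    refine jn 1867 (by decide +kernel) ?_
    refine jn 1872 (by decide +kernel) ?_
    refine jn 1923 (by decide +kernel) ?_
    refine jn 1992 (by decide +kernel) ?_
    refine jn 2048 (by decide +kernel) ?_
    refine jn 2090 (by decide +kernel) ?_
    refine jn 2100 (by decide +kernel) ?_
    refine jn 2109 (by decide +kernel) ?_
    refine jn 2110 (by decide +kernel) ?_
    refine jn 2126 (by decide +kernel) ?_
    refine jn 2133 (by decide +kernel) ?_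
    refine jn 2154 (by decide +kernel) ?_
    refine jn 2166 (by decide +kernel) ?_
    refine jn 2180 (by decide +kernel) ?_
    refine jn 2184 (by decide +kernel) ?_
    refine jn 2205 (by decide +kernel) ?_
    refine jn 2214 (by decide +kernel) ?_
    refine jn 2229 (by decide +kernel) ?_
    refine jn 2238 (by decide +kernel) ?_
    refine jn 2253 (by decide +kernel) ?_
    refine jn 2261 (by decide +kernel) ?_
    refine jn 2262 (by decide +kernel) ?_
    refine jn 2286 (by decide +kernel) ?_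
    refine jn 2300 (by decide +kernel) ?_
    refine jn 2320 (by decide +kernel) ?_
    refine jn 2344 (by decide +kernel) ?_
    refine jn 2385 (by decide +kernel) ?_
    refine jn 2404 (by decide +kernel) ?_
    refine jn 2449 (by decide +kernel) ?_
    refine jn 2470 (by decide +kernel) ?_
    refine jn 2512 (by decide +kernel) ?_
    refine jn 2554 (by decide +kernel) ?_
    refine jn 2585 (by decide +kernel) ?_
    refine jn 2635 (by decide +kernel) ?_
    refine jn 2683 (by decide +kernel) ?_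
    refine jn 2716 (by decide +kernel) ?_
    refine jn 2748 (by decide +kernel) ?_
    refine jn 2788 (by decide +kernel) ?_
    refine jn 2835 (by decide +kernel) ?_
    refine jn 2883 (by decide +kernel) ?_
    refine jn 2916 (by decide +kernel) ?_
    refine jn 2955 (by decide +kernel) ?_
    refine jn 2991 (by decide +kernel) ?_
    refine jn 3036 (by decide +kernel) ?_
    refine jn 3212 (by decide +kernel) ?_
    refine jn 3287 (by decide +kernel) ?_
    refine jn 3353 (by decide +kernel) ?_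
    refine jn 3429 (by decide +kernel) ?_
    refine jn 3505 (by decide +kernel) ?_
    refine jn 3587 (by decide +kernel) ?_
    refine jn 3659 (by decide +kernel) ?_
    refine jn 3742 (by decide +kernel) ?_
    refine jn 3919 (by decide +kernel) ?_
    refine jn 4004 (by decide +kernel) ?_
    refine jn 4084 (by decide +kernel) ?_
    refine jn 4179 (by decide +kernel) ?_
    refine jn 4260 (by decide +kernel) ?_
    refine jn 4356 (by decide +kernel) ?_
    refine jn 4439 (by decide +kernel) ?_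
    refine jn 4529 (by decide +kernel) ?_
    refine jn 4629 (by decide +kernel) ?_
    refine jn 4708 (by decide +kernel) ?_
    refine jn 5067 (by decide +kernel) ?_
    refine jn 5215 (by decide +kernel) ?_
    refine jn 5338 (by decide +kernel) ?_
    refine jn 5591 (by decide +kernel) ?_
    refine jn 5732 (by decide +kernel) ?_
    refine jn 5837 (by decide +kernel) ?_
    refine jn 5906 (by decide +kernel) ?_
    refine jn 5987 (by decide +kernel) ?_
    refine jn 6271 (by decide +kernel) ?_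
    refine jn 6412 (by decide +kernel) ?_
    refine jn 6569 (by decide +kernel) ?_
    refine jn 6842 (by decide +kernel) ?_
    refine jn 7024 (by decide +kernel) ?_
    refine jn 7184 (by decide +kernel) ?_
    refine jn 7536 (by decide +kernel) ?_
    refine jn 7938 (by decide +kernel) ?_
    exact je (by decide +kernel)
  · refine fin 120 3746 T7_1 ?_
    refine jn 3 (by decide +kernel) ?_
    refine jn 4 (by decide +kernel) ?_
    refine jn 5 (by decide +kernel) ?_
    refine jn 6 (by decide +kernel) ?_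
    refine jn 7 (by decide +kernel) ?_
    refine jn 8 (by decide +kernel) ?_
    refine jn 9 (by decide +kernel) ?_
    refine jn 10 (by decide +kernel) ?_
    refine jn 11 (by decide +kernel) ?_
    refine jn 12 (by decide +kernel) ?_
    refine jn 13 (by decide +kernel) ?_
    refine jn 14 (by decide +kernel) ?_
    refine jn 15 (by decide +kernel) ?_
    refine jn 16 (by decide +kernel) ?_
    refine jn 18 (by decide +kernel) ?_
    refine jn 19 (by decide +kernel) ?_
    refine jn 21 (by decide +kernel) ?_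
    refine jn 22 (by decide +kernel) ?_
    refine jn 23 (by decide +kernel) ?_
    refine jn 25 (by decide +kernel) ?_
    refine jn 26 (by decide +kernel) ?_
    refine jn 27 (by decide +kernel) ?_
    refine jn 29 (by decide +kernel) ?_
    refine jn 30 (by decide +kernel) ?_
    refine jn 31 (by decide +kernel) ?_
    refine jn 32 (by decide +kernel) ?_
    refine jn 39 (by decide +kernel) ?_
    refine jn 52 (by decide +kernel) ?_
    refine jn 60 (by decide +kernel) ?_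
    refine jn 68 (by decide +kernel) ?_
    refine jn 75 (by decide +kernel) ?_
    refine jn 125 (by decide +kernel) ?_
    refine jn 133 (by decide +kernel) ?_
    refine jn 134 (by decide +kernel) ?_
    refine jn 135 (by decide +kernel) ?_
    refine jn 137 (by decide +kernel) ?_
    refine jn 138 (by decide +kernel) ?_
    refine jn 140 (by decide +kernel) ?_
    refine jn 141 (by decide +kernel) ?_
    refine jn 142 (by decide +kernel) ?_
    refine jn 143 (by decide +kernel) ?_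
    refine jn 147 (by decide +kernel) ?_
    refine jn 151 (by decide +kernel) ?_
    refine jn 154 (by decide +kernel) ?_
    refine jn 165 (by decide +kernel) ?_
    refine jn 188 (by decide +kernel) ?_
    refine jn 199 (by decide +kernel) ?_
    refine jn 211 (by decide +kernel) ?_
    refine jn 219 (by decide +kernel) ?_
    refine jn 221 (by decide +kernel) ?_
    refine jn 223 (by decide +kernel) ?_
    refine jn 224 (by decide +kernel) ?_
    refine jn 229 (by decide +kernel) ?_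
    refine jn 234 (by decide +kernel) ?_
    refine jn 237 (by decide +kernel) ?_
    refine jn 255 (by decide +kernel) ?_
    refine jn 279 (by decide +kernel) ?_
    refine jn 285 (by decide +kernel) ?_
    refine jn 286 (by decide +kernel) ?_
    refine jn 287 (by decide +kernel) ?_
    refine jn 288 (by decide +kernel) ?_
    refine jn 289 (by decide +kernel) ?_
    refine jn 290 (by decide +kernel) ?_
    refine jn 291 (by decide +kernel) ?_
    refine jn 292 (by decide +kernel) ?_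
    refine jn 300 (by decide +kernel) ?_
    refine jn 301 (by decide +kernel) ?_
    refine jn 302 (by decide +kernel) ?_
    refine jn 303 (by decide +kernel) ?_
    refine jn 304 (by decide +kernel) ?_
    refine jn 305 (by decide +kernel) ?_
    refine jn 306 (by decide +kernel) ?_
    refine jn 307 (by decide +kernel) ?_
    refine jn 308 (by decide +kernel) ?_
    refine jn 309 (by decide +kernel) ?_
    refine jn 310 (by decide +kernel) ?_
    refine jn 311 (by decide +kernel) ?_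
    refine jn 313 (by decide +kernel) ?_
    refine jn 320 (by decide +kernel) ?_
    refine jn 326 (by decide +kernel) ?_
    refine jn 336 (by decide +kernel) ?_
    refine jn 345 (by decide +kernel) ?_
    refine jn 349 (by decide +kernel) ?_
    refine jn 357 (by decide +kernel) ?_
    refine jn 362 (by decide +kernel) ?_
    refine jn 378 (by decide +kernel) ?_
    refine jn 402 (by decide +kernel) ?_
    refine jn 409 (by decide +kernel) ?_
    refine jn 423 (by decide +kernel) ?_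
    refine jn 432 (by decide +kernel) ?_
    refine jn 448 (by decide +kernel) ?_
    refine jn 449 (by decide +kernel) ?_
    refine jn 450 (by decide +kernel) ?_
    refine jn 452 (by decide +kernel) ?_
    refine jn 453 (by decide +kernel) ?_
    refine jn 454 (by decide +kernel) ?_
    refine jn 455 (by decide +kernel) ?_
    refine jn 456 (by decide +kernel) ?_
    refine jn 459 (by decide +kernel) ?_
    refine jn 460 (by decide +kernel) ?_
    refine jn 461 (by decide +kernel) ?_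
    refine jn 463 (by decide +kernel) ?_
    refine jn 464 (by decide +kernel) ?_
    refine jn 465 (by decide +kernel) ?_
    refine jn 466 (by decide +kernel) ?_
    refine jn 467 (by decide +kernel) ?_
    refine jn 468 (by decide +kernel) ?_
    refine jn 469 (by decide +kernel) ?_
    refine jn 470 (by decide +kernel) ?_
    refine jn 471 (by decide +kernel) ?_
    refine jn 472 (by decide +kernel) ?_
    refine jn 473 (by decide +kernel) ?_
    refine jn 474 (by decide +kernel) ?_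
    refine jn 475 (by decide +kernel) ?_
    refine jn 487 (by decide +kernel) ?_
    refine jn 504 (by decide +kernel) ?_
    refine jn 511 (by decide +kernel) ?_
    refine jn 527 (by decide +kernel) ?_
    refine jn 530 (by decide +kernel) ?_
    refine jn 533 (by decide +kernel) ?_
    refine jn 535 (by decide +kernel) ?_
    refine jn 539 (by decide +kernel) ?_
    refine jn 542 (by decide +kernel) ?_
    refine jn 545 (by decide +kernel) ?_
    refine jn 558 (by decide +kernel) ?_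
    refine jn 566 (by decide +kernel) ?_
    refine jn 575 (by decide +kernel) ?_
    refine jn 576 (by decide +kernel) ?_
    refine jn 577 (by decide +kernel) ?_
    refine jn 578 (by decide +kernel) ?_
    refine jn 579 (by decide +kernel) ?_
    refine jn 580 (by decide +kernel) ?_
    refine jn 581 (by decide +kernel) ?_
    refine jn 582 (by decide +kernel) ?_
    refine jn 583 (by decide +kernel) ?_
    refine jn 585 (by decide +kernel) ?_
    refine jn 586 (by decide +kernel) ?_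
    refine jn 587 (by decide +kernel) ?_
    refine jn 588 (by decide +kernel) ?_
    refine jn 599 (by decide +kernel) ?_
    refine jn 603 (by decide +kernel) ?_
    refine jn 606 (by decide +kernel) ?_
    refine jn 611 (by decide +kernel) ?_
    refine jn 615 (by decide +kernel) ?_
    refine jn 626 (by decide +kernel) ?_
    refine jn 628 (by decide +kernel) ?_
    refine jn 629 (by decide +kernel) ?_
    refine jn 633 (by decide +kernel) ?_
    refine jn 636 (by decide +kernel) ?_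
    refine jn 643 (by decide +kernel) ?_
    refine jn 645 (by decide +kernel) ?_
    refine jn 650 (by decide +kernel) ?_
    refine jn 660 (by decide +kernel) ?_
    refine jn 663 (by decide +kernel) ?_
    refine jn 666 (by decide +kernel) ?_
    refine jn 676 (by decide +kernel) ?_
    refine jn 678 (by decide +kernel) ?_
    refine jn 682 (by decide +kernel) ?_
    refine jn 701 (by decide +kernel) ?_
    refine jn 712 (by decide +kernel) ?_
    refine jn 716 (by decide +kernel) ?_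
    refine jn 724 (by decide +kernel) ?_
    refine jn 725 (by decide +kernel) ?_
    refine jn 726 (by decide +kernel) ?_
    refine jn 727 (by decide +kernel) ?_
    refine jn 728 (by decide +kernel) ?_
    refine jn 729 (by decide +kernel) ?_
    refine jn 730 (by decide +kernel) ?_
    refine jn 742 (by decide +kernel) ?_
    refine jn 753 (by decide +kernel) ?_
    refine jn 756 (by decide +kernel) ?_
    refine jn 767 (by decide +kernel) ?_
    refine jn 780 (by decide +kernel) ?_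
    refine jn 790 (by decide +kernel) ?_
    refine jn 798 (by decide +kernel) ?_
    refine jn 799 (by decide +kernel) ?_
    refine jn 810 (by decide +kernel) ?_
    refine jn 813 (by decide +kernel) ?_
    refine jn 823 (by decide +kernel) ?_
    refine jn 834 (by decide +kernel) ?_
    refine jn 844 (by decide +kernel) ?_
    refine jn 854 (by decide +kernel) ?_
    refine jn 864 (by decide +kernel) ?_
    refine jn 871 (by decide +kernel) ?_
    refine jn 872 (by decide +kernel) ?_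
    refine jn 874 (by decide +kernel) ?_
    refine jn 875 (by decide +kernel) ?_
    refine jn 882 (by decide +kernel) ?_
    refine jn 884 (by decide +kernel) ?_
    refine jn 886 (by decide +kernel) ?_
    refine jn 896 (by decide +kernel) ?_
    refine jn 906 (by decide +kernel) ?_
    refine jn 909 (by decide +kernel) ?_
    refine jn 919 (by decide +kernel) ?_
    refine jn 925 (by decide +kernel) ?_
    refine jn 934 (by decide +kernel) ?_
    refine jn 938 (by decide +kernel) ?_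
    refine jn 946 (by decide +kernel) ?_
    refine jn 953 (by decide +kernel) ?_
    refine jn 961 (by decide +kernel) ?_
    refine jn 969 (by decide +kernel) ?_
    refine jn 977 (by decide +kernel) ?_
    refine jn 985 (by decide +kernel) ?_
    refine jn 987 (by decide +kernel) ?_
    refine jn 994 (by decide +kernel) ?_
    refine jn 1006 (by decide +kernel) ?_
    refine jn 1017 (by decide +kernel) ?_
    refine jn 1033 (by decide +kernel) ?_
    refine jn 1048 (by decide +kernel) ?_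
    refine jn 1059 (by decide +kernel) ?_
    refine jn 1074 (by decide +kernel) ?_
    refine jn 1078 (by decide +kernel) ?_
    refine jn 1084 (by decide +kernel) ?_
    refine jn 1085 (by decide +kernel) ?_
    refine jn 1086 (by decide +kernel) ?_
    refine jn 1087 (by decide +kernel) ?_
    refine jn 1099 (by decide +kernel) ?_
    refine jn 1111 (by decide +kernel) ?_
    refine jn 1128 (by decide +kernel) ?_
    refine jn 1138 (by decide +kernel) ?_
    refine jn 1156 (by decide +kernel) ?_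
    refine jn 1164 (by decide +kernel) ?_
    refine jn 1182 (by decide +kernel) ?_
    refine jn 1197 (by decide +kernel) ?_
    refine jn 1209 (by decide +kernel) ?_
    refine jn 1217 (by decide +kernel) ?_
    refine jn 1229 (by decide +kernel) ?_
    refine jn 1236 (by decide +kernel) ?_
    refine jn 1254 (by decide +kernel) ?_
    refine jn 1263 (by decide +kernel) ?_
    refine jn 1275 (by decide +kernel) ?_
    refine jn 1296 (by decide +kernel) ?_
    refine jn 1308 (by decide +kernel) ?_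
    refine jn 1326 (by decide +kernel) ?_
    refine jn 1339 (by decide +kernel) ?_
    refine jn 1352 (by decide +kernel) ?_
    refine jn 1366 (by decide +kernel) ?_
    refine jn 1376 (by decide +kernel) ?_
    refine jn 1377 (by decide +kernel) ?_
    refine jn 1378 (by decide +kernel) ?_
    refine jn 1451 (by decide +kernel) ?_
    refine jn 1458 (by decide +kernel) ?_
    refine jn 1459 (by decide +kernel) ?_
    refine jn 1464 (by decide +kernel) ?_
    refine jn 1475 (by decide +kernel) ?_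
    refine jn 1490 (by decide +kernel) ?_
    refine jn 1491 (by decide +kernel) ?_
    refine jn 1503 (by decide +kernel) ?_
    refine jn 1506 (by decide +kernel) ?_
    refine jn 1507 (by decide +kernel) ?_
    refine jn 1513 (by decide +kernel) ?_
    refine jn 1520 (by decide +kernel) ?_
    refine jn 1531 (by decide +kernel) ?_
    refine jn 1535 (by decide +kernel) ?_
    refine jn 1548 (by decide +kernel) ?_
    refine jn 1554 (by decide +kernel) ?_
    refine jn 1558 (by decide +kernel) ?_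
    refine jn 1565 (by decide +kernel) ?_
    refine jn 1570 (by decide +kernel) ?_
    refine jn 1571 (by decide +kernel) ?_
    refine jn 1584 (by decide +kernel) ?_
    refine jn 1597 (by decide +kernel) ?_
    refine jn 1607 (by decide +kernel) ?_
    refine jn 1614 (by decide +kernel) ?_
    refine jn 1623 (by decide +kernel) ?_
    refine jn 1638 (by decide +kernel) ?_
    refine jn 1642 (by decide +kernel) ?_
    refine jn 1646 (by decide +kernel) ?_
    refine jn 1653 (by decide +kernel) ?_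
    refine jn 1666 (by decide +kernel) ?_
    refine jn 1674 (by decide +kernel) ?_
    refine jn 1682 (by decide +kernel) ?_
    refine jn 1684 (by decide +kernel) ?_
    refine jn 1689 (by decide +kernel) ?_
    refine jn 1762 (by decide +kernel) ?_
    refine jn 1763 (by decide +kernel) ?_
    refine jn 1777 (by decide +kernel) ?_
    refine jn 1785 (by decide +kernel) ?_
    refine jn 1794 (by decide +kernel) ?_
    refine jn 1795 (by decide +kernel) ?_
    refine jn 1804 (by decide +kernel) ?_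
    refine jn 1814 (by decide +kernel) ?_
    refine jn 1821 (by decide +kernel) ?_
    refine jn 1839 (by decide +kernel) ?_
    refine jn 1847 (by decide +kernel) ?_
    refine jn 1858 (by decide +kernel) ?_
    refine jn 1859 (by decide +kernel) ?_
    refine jn 1870 (by decide +kernel) ?_
    refine jn 1883 (by decide +kernel) ?_
    refine jn 1890 (by decide +kernel) ?_
    refine jn 1891 (by decide +kernel) ?_
    refine jn 1903 (by decide +kernel) ?_
    refine jn 1914 (by decide +kernel) ?_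
    refine jn 1928 (by decide +kernel) ?_
    refine jn 1935 (by decide +kernel) ?_
    refine jn 1942 (by decide +kernel) ?_
    refine jn 1949 (by decide +kernel) ?_
    refine jn 1963 (by decide +kernel) ?_
    refine jn 1974 (by decide +kernel) ?_
    refine jn 2158 (by decide +kernel) ?_
    refine jn 2238 (by decide +kernel) ?_
    refine jn 2477 (by decide +kernel) ?_
    refine jn 2741 (by decide +kernel) ?_
    refine jn 3002 (by decide +kernel) ?_
    refine jn 3275 (by decide +kernel) ?_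
    exact je (by decide +kernel)

end Pool.Agent.MP_2339ce_nt.NR
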