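import Pool.Agent.MP_2339ce_nt.Q2.NC.L6
import Pool.Agent.MP_2339ce_nt.Q2.NC.L8
import Pool.Agent.MP_2339ce_nt.Q2.NC.L9
import Pool.Agent.MP_2339ce_nt.Q2.CkI

/-! Block NR: runs. -/

set_option autoImplicit false
set_option maxRecDepth 100000

noncomputable section

namespace Pool.Agent.MP_2339ce_nt.NR

open Q2.Top

def T73_0 : Ph :=
  (.na 507 51 (.na 338 32 (.na 249 23 (.na 126 16 (.na 67 15 (.nx 66 1664512 (.nr 65 623489 (.nr 1
  6 .s1 (.nx 3 144 (.nr 2 127 (.lg 0 false 1 31 31 9 0 9360) (.l1 .sk)) (.nx 4 145 (.l1 .sk) (.nr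
  59 155873 (.nx 53 524289 (.nx 11 13003 (.lg 0 false 7 89 97 16 0 65520) (.nr 52 110219 (.nr 44
  77937 (.nr 18 829 (.lg 0 true 7 83 83 16 0 65520) (.nx 43 416129 (.nr 29 46342 (.lg 2 true 11 79
  79 16 37068 20592) (.nx 42 208065 (.nx 36 131073 (.lg 0 true 7 101 103 16 0 720720) (.nr 41 55110
  (.lg 0 true 5 89 89 16 0 9360) .out)) .out)) .out)) (.nx 51 82572 (.lg 0 true 7 97 103 16 0
  720720) .out)) .out)) (.nr 58 65 (.lg 0 true 5 71 71 16 0 9360) .out)) (.nx 64 1292 (.lg 0 false
  5 83 83 16 0 9360) .out))))) .out) .out) (.nx 125 1664512 (.nr 124 623489 (.nr 68 10 .s1 (.nx 71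
  145 (.nx 70 144 (.nr 69 136 (.lg 0 true 1 29 29 16 0 720) (.l1 .sk)) (.l1 .sk)) (.nx 86 13003
  (.nr 78 155873 (.lg 0 false 7 89 89 17 0 5040) (.nx 85 1292 (.lg 0 false 7 79 83 17 0 5040)
  .out)) (.nr 123 110219 (.nr 99 829 (.nx 93 524289 (.lg 0 true 7 79 79 17 0 5040) (.nr 98 65 (.lg
  0 true 5 67 67 16 0 720) .out)) (.nx 122 416129 (.nr 106 46342 (.lg 2 true 7 79 79 17 37068 5040)
  (.nx 121 208065 (.nx 117 131073 (.lg 0 true 11 97 103 17 0 720720) (.nr 120 55110 (.lg 0 true 3
  89 89 16 0 720) .out)) .out)) .out)) .out)))) .out) .out)) (.na 170 17 (.nx 169 1664512 (.nr 168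
  1048577 (.nr 127 11 .s1 (.nx 130 145 (.nx 129 144 (.nr 128 145 (.lg 0 true 1 31 31 11 0 720) (.l1
  .sk)) (.l1 .sk)) (.nr 162 370729 (.nr 159 220437 (.nx 155 524289 (.nx 137 19485 (.lg 0 false 7 89
  97 19 0 5040) (.nr 154 110219 (.nr 142 829 (.lg 0 true 5 73 79 17 0 720) (.nx 153 416129 (.nx 147
  43741 (.lg 1 false 5 89 101 17 58726 65520) (.nr 148 3171 (.lg 2 false 1 83 83 11 36142 720) (.nx
  150 82572 (.lg 1 true 2 89 97 13 26160 720) (.nr 152 77937 (.lg 2 false 2 89 97 13 9805 720)
  .out)))) .out)) .out)) (.nr 158 129 (.lg 0 true 3 71 71 13 0 144) .out)) (.nx 161 1627 (.lg 0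
  false 2 83 83 13 0 720) .out)) (.nx 167 647 (.nr 164 623489 (.lg 0 false 2 79 79 13 0 144) (.nx
  166 257 (.lg 0 false 2 71 71 13 0 144) .out)) .out)))) .out) .out) (.na 209 20 (.nx 208 1664512
  (.nr 207 1048577 (.nr 171 13 .s1 (.nx 174 145 (.nx 173 144 (.nr 172 170 (.lg 0 true 1 29 29 11 0
  720) (.l1 .sk)) (.l1 .sk)) (.nx 175 257 (.l1 (.ls 83 37 2651)) (.nr 206 623489 (.nr 198 220437
  (.nx 182 23171 (.lg 0 false 7 97 97 16 0 5040) (.nr 197 92683 (.nr 189 634 (.lg 0 true 7 79 79 16
  0 1008) (.nx 196 262145 (.lg 2 false 7 89 101 16 41537 5040) .out)) .out)) (.nx 205 1627 (.lg 0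
  false 7 79 83 16 0 5040) .out)) .out)))) .out) .out) (.nx 248 1664512 (.nr 247 1048577 (.nr 210
  17 .s1 (.nx 243 262145 (.nx 225 13005 (.nx 212 144 (.nr 211 196 (.l1 (.ls 31 37 1039)) (.l1 .sk))
  (.nx 213 145 (.l1 .sk) (.nx 214 257 (.l1 (.ls 89 41 2254)) (.nr 224 623489 (.nr 221 220437 (.lg 0
  false 7 83 89 23 0 5040) (.nx 223 1627 (.lg 0 false 2 89 89 17 0 720) .out)) .out)))) (.nr 242
  92683 (.nr 240 77937 (.nr 233 46342 (.nr 226 634 (.lg 0 false 1 83 83 13 0 720) (.lg 2 true 7 79
  79 23 37062 5040)) (.nx 239 165142 (.nx 236 82572 (.lg 0 true 3 101 103 19 0 720720) (.nr 238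
  55110 (.lg 0 true 2 89 97 17 0 720) .out)) .out)) (.nx 241 41287 (.lg 0 false 1 97 97 13 0 720)
  .out)) .out)) (.nr 246 217 (.lg 0 true 3 79 79 19 0 720) .out))) .out) .out)))) (.na 281 25 (.na
  250 24 .ne (.nx 280 1664512 (.nr 279 1048577 (.nr 251 21 .s1 (.nx 263 20644 (.nx 253 144 (.nr 252
  213 (.lg 0 true 1 23 23 13 0 720) (.l1 .sk)) (.nx 254 145 (.l1 .sk) (.nx 255 257 (.l1 (.ls 79 41
  1879)) (.nr 262 311745 (.lg 0 false 7 89 97 23 0 5040) .out)))) (.nr 278 77937 (.nr 270 513 (.lg
  0 true 7 73 73 23 0 1008) (.nx 277 165142 (.lg 2 false 7 83 89 23 39216 5040) .out)) .out)))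
  .out) .out)) (.na 312 27 (.nx 311 1664512 (.nr 310 1048577 (.nr 282 22 .s1 (.nx 286 257 (.nx 284
  144 (.nr 283 230 (.lg 0 true 1 19 19 16 0 720) (.l1 .sk)) (.nx 285 145 (.l1 .sk) (.l1 (.ls 79 31
  1803)))) (.nr 309 311745 (.nx 293 20644 (.lg 0 false 7 83 89 16 0 5040) (.nr 308 77937 (.nr 300
  513 (.lg 0 true 7 73 73 16 0 5040) (.nx 307 165142 (.lg 2 false 7 83 89 16 39216 5040) .out))
  .out)) .out))) .out) .out) (.na 313 29 (.lg 0 false 1 0 0 7 0 24) (.nx 337 1664512 (.nr 336
  1048577 (.nr 314 27 .s1 (.nx 317 145 (.nx 316 144 (.nr 315 272 (.l1 (.ls 23 23 718)) (.l1 .sk))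
  (.l1 .sk)) (.nx 324 20644 (.nx 318 257 (.l1 (.ls 83 23 1555)) (.nr 323 311745 (.lg 0 false 5 89
  97 16 0 720) .out)) (.nr 335 77937 (.nr 329 513 (.lg 0 true 5 73 73 16 0 720) (.nx 334 165142
  (.lg 2 false 5 89 97 16 39216 5040) .out)) .out)))) .out) .out))))) (.na 432 40 (.na 368 36 (.na
  367 33 (.nx 366 1664512 (.nr 365 1048577 (.nr 339 30 .s1 (.nx 342 145 (.nx 341 144 (.nr 340 281
  (.l1 (.ls 29 31 650)) (.l1 .sk)) (.l1 .sk)) (.nx 354 20644 (.nx 351 10323 (.nx 343 257 (.l1 (.ls
  79 37 1410)) (.nr 350 440873 (.lg 0 false 7 83 89 23 0 5040) .out)) (.nr 353 110219 (.lg 0 false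
  2 83 89 13 0 720) .out)) (.nr 364 77937 (.nr 359 1307 (.nx 355 208065 (.lg 0 false 1 79 79 13 0
  720) (.nr 358 217 (.lg 0 true 3 71 71 19 0 144) .out)) (.nx 363 165142 (.nx 360 41287 (.lg 1 true
  1 89 89 13 39216 720) (.nr 362 65537 (.lg 2 false 2 83 89 13 16495 720) .out)) .out)) .out))))
  .out) .out) .ne) (.na 387 37 (.nx 386 1664512 (.nr 385 881745 (.nr 369 34 .s1 (.nx 372 145 (.nx
  371 144 (.nr 370 315 (.l1 (.ls 29 37 578)) (.l1 .sk)) (.l1 .sk)) (.nx 382 104033 (.nx 373 257
  (.l1 (.ls 83 41 1253)) (.nr 381 440873 (.nx 378 26009 (.nr 375 110219 (.lg 0 false 2 89 89 23 0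
  720) (.nx 377 10323 (.lg 0 false 2 97 101 23 0 65520) .out)) (.nr 380 32769 (.nr 379 2019 (.lg 0
  true 1 73 73 19 0 144) (.lg 2 false 1 83 83 19 13121 144)) .out)) .out)) (.nr 384 257 (.lg 0 true
  2 73 73 23 0 144) .out)))) .out) .out) (.na 411 39 (.nx 410 1664512 (.nr 409 881745 (.nr 388 36
  .s1 (.nx 404 104033 (.nx 400 26009 (.nx 390 144 (.nr 389 332 (.l1 (.ls 23 19 563)) (.l1 .sk))
  (.nx 391 145 (.l1 .sk) (.nx 392 257 (.l1 (.ls 79 29 1219)) (.nr 399 440873 (.lg 0 false 7 89 89
  16 0 5040) .out)))) (.nr 403 32769 (.lg 0 false 3 79 79 16 0 144) .out)) (.nr 408 257 (.lg 0 true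
  4 71 71 16 0 144) .out))) .out) .out) (.nx 431 1664512 (.nr 430 881745 (.nr 412 38 .s1 (.nx 413
  257 (.l1 (.ls 73 37 1696)) (.nr 429 440873 (.nx 420 20644 (.lg 0 false 7 89 89 19 0 65520) (.nr
  428 46342 (.nr 425 340 (.lg 0 true 5 67 67 19 0 9360) (.nx 427 104033 (.lg 2 false 2 79 79 17
  23348 1872) .out)) .out)) .out))) .out) .out)))) (.na 470 45 (.na 451 41 (.nx 450 1664512 (.nr
  449 881745 (.nr 433 39 .s1 (.nx 436 145 (.nx 435 144 (.nr 434 349 (.l1 (.ls 29 31 521)) (.l1
  .sk)) (.l1 .sk)) (.nx 446 104033 (.nx 437 257 (.l1 (.ls 79 37 1128)) (.nr 445 440873 (.nr 442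
  110219 (.nx 439 26009 (.lg 0 false 2 89 89 19 0 720) (.nr 441 32769 (.nr 440 865 (.lg 0 true 1 67
  67 19 0 720) (.lg 2 true 1 83 83 19 13121 720)) .out)) (.nx 444 10323 (.lg 0 false 2 89 89 19 0
  720) .out)) .out)) (.nr 448 257 (.lg 0 true 2 71 71 19 0 720) .out)))) .out) .out) (.nx 469
  1664512 (.nr 468 881745 (.nr 452 40 .s1 (.nx 459 20644 (.nx 453 257 (.l1 (.ls 79 29 1613)) (.nr
  458 440873 (.lg 0 false 5 89 89 16 0 720) .out)) (.nr 467 46342 (.nr 464 383 (.lg 0 true 5 71 71
  16 0 720) (.nx 466 104033 (.lg 2 true 2 83 83 16 23348 144) .out)) .out))) .out) .out)) (.na 488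
  46 (.nx 487 1664512 (.nr 486 881745 (.nr 471 44 .s1 (.nx 483 104033 (.nx 473 144 (.nr 472 391
  (.l1 (.ls 31 29 463)) (.l1 .sk)) (.nx 474 145 (.l1 .sk) (.nx 480 26009 (.nx 478 10323 (.nx 475
  257 (.l1 (.ls 83 31 1003)) (.nr 477 440873 (.lg 0 false 2 89 89 19 0 720) .out)) (.nr 479 110219
  (.lg 0 false 1 97 97 17 0 9360) .out)) (.nr 482 32769 (.nr 481 2298 (.lg 0 true 1 73 73 17 0 720)
  (.lg 2 false 1 83 83 17 13121 720)) .out)))) (.nr 485 257 (.lg 0 true 2 71 71 19 0 720) .out)))
  .out) .out) (.na 489 48 .ne (.nx 506 1664512 (.nr 505 881745 (.nr 490 47 .s1 (.nx 494 257 (.nx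
  492 144 (.nr 491 434 (.l1 (.ls 29 31 434)) (.l1 .sk)) (.nx 493 145 (.l1 .sk) (.l1 (.ls 79 37
  941)))) (.nr 504 623489 (.nx 497 13005 (.lg 0 false 3 89 97 29 0 720) (.nr 503 110219 (.nr 501
  32769 (.nr 499 257 (.lg 0 true 2 67 67 23 0 144) (.nx 500 104033 (.lg 2 true 1 83 83 19 29146
  144) .out)) (.nx 502 26009 (.lg 0 false 1 83 83 19 0 720) .out)) .out)) .out))) .out) .out))))))
  (.na 653 75 (.na 592 64 (.na 544 53 (.na 526 52 (.nx 525 1664512 (.nr 524 881745 (.nr 508 50 .s1
  (.nx 517 20644 (.nx 509 257 (.l1 (.ls 73 37 1298)) (.nr 516 623489 (.lg 0 false 7 89 89 23 0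
  5040) .out)) (.nr 523 46342 (.nr 520 257 (.lg 0 true 3 67 67 16 0 144) (.nx 522 104033 (.lg 2
  false 2 79 79 16 29146 144) .out)) .out))) .out) .out) (.nx 543 1664512 (.nr 542 881745 (.nr 527
  51 .s1 (.nx 530 145 (.nx 529 144 (.nr 528 451 (.l1 (.ls 29 31 401)) (.l1 .sk)) (.l1 .sk)) (.nx
  535 13005 (.nx 531 257 (.l1 (.ls 79 37 868)) (.nr 534 623489 (.lg 0 false 3 89 97 23 0 9360)
  .out)) (.nr 541 110219 (.nr 537 257 (.lg 0 true 2 67 67 23 0 1872) (.nx 540 104033 (.nr 538 32769
  (.lg 2 true 1 83 83 19 29146 9360) (.nx 539 26009 (.lg 0 false 1 83 83 19 0 9360) .out)) .out))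
  .out)))) .out) .out)) (.na 563 60 (.nx 562 1664512 (.nr 561 881745 (.nr 545 52 .s1 (.nx 546 257
  (.l1 (.ls 73 29 1249)) (.nr 560 623489 (.nx 553 20644 (.lg 0 false 7 89 89 16 0 5040) (.nr 559
  46342 (.nr 556 257 (.lg 0 true 3 67 67 16 0 144) (.nx 558 104033 (.lg 2 false 2 79 79 16 29146
  144) .out)) .out)) .out))) .out) .out) (.na 577 61 (.nx 576 1664512 (.nr 575 881745 (.nr 564 59
  .s1 (.nx 565 257 (.l1 (.ls 73 41 1103)) (.nr 574 623489 (.nx 567 13005 (.lg 0 false 2 89 89 29 0
  720) (.nr 573 110219 (.nr 571 32769 (.nr 569 257 (.lg 0 true 2 67 67 29 0 720) (.nx 570 104033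
  (.lg 2 true 1 79 79 23 29146 720) .out)) (.nx 572 26009 (.lg 0 false 1 79 79 23 0 720) .out))
  .out)) .out))) .out) .out) (.nx 591 1664512 (.nr 590 881745 (.nr 578 60 .s1 (.nx 585 20644 (.nx
  579 257 (.l1 (.ls 73 23 1085)) (.nr 584 623489 (.lg 0 false 5 83 89 16 0 720) .out)) (.nr 589
  46342 (.nr 587 257 (.lg 0 true 2 61 61 16 0 144) (.nx 588 104033 (.lg 2 true 1 83 83 16 29146
  720) .out)) .out))) .out) .out)))) (.na 608 68 (.na 593 65 .ne (.nx 607 1664512 (.nr 606 524289
  (.nr 594 64 .s1 (.nx 597 145 (.nx 596 144 (.nr 595 578 (.l1 (.ls 31 23 322)) (.l1 .sk)) (.l1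
  .sk)) (.nx 601 20644 (.nx 599 13005 (.lg 0 false 2 89 89 19 0 9360) (.nr 600 65537 (.lg 0 true 1
  79 79 17 0 9360) .out)) (.nr 605 32769 (.nr 603 513 (.lg 0 true 2 73 73 19 0 9360) (.nx 604
  104033 (.lg 2 true 1 79 79 17 16531 9360) .out)) .out)))) .out) .out)) (.na 623 72 (.nx 622
  1664512 (.nr 621 524289 (.nr 609 67 .s1 (.nx 612 145 (.nx 611 144 (.nr 610 612 (.l1 (.ls 16 31
  307)) (.l1 .sk)) (.l1 .sk)) (.nx 616 20644 (.nx 614 13005 (.lg 0 false 2 89 89 23 0 720) (.nr 615
  65537 (.lg 0 false 1 79 79 13 0 720) .out)) (.nr 620 32769 (.nr 618 513 (.lg 0 true 2 73 73 23 0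
  144) (.nx 619 104033 (.lg 2 true 1 79 79 13 16531 720) .out)) .out)))) .out) .out) (.na 638 73
  (.nx 637 1664512 (.nr 636 524289 (.nr 624 71 .s1 (.nx 627 145 (.nx 626 144 (.nr 625 621 (.l1 (.ls
  29 31 290)) (.l1 .sk)) (.l1 .sk)) (.nx 631 20644 (.nx 629 13005 (.lg 0 false 2 83 89 29 0 720)
  (.nr 630 65537 (.lg 0 false 1 79 79 23 0 720) .out)) (.nr 635 32769 (.nr 633 513 (.lg 0 true 2 71
  71 29 0 144) (.nx 634 104033 (.lg 2 false 1 79 79 23 16531 720) .out)) .out)))) .out) .out) (.nx
  652 1664512 (.nr 651 524289 (.nr 639 73 .s1 (.nx 641 144 (.nr 640 638 (.l1 (.ls 19 17 287)) (.l1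
  .sk)) (.nx 642 145 (.l1 .sk) (.nx 645 20644 (.lg 0 false 3 89 89 16 0 720) (.nr 650 32769 (.nr
  648 513 (.lg 0 true 3 61 61 16 0 144) (.nx 649 104033 (.lg 2 true 1 73 73 16 16531 720) .out))
  .out))))) .out) .out))))) (.na 709 89 (.na 681 81 (.na 668 80 (.nx 667 1664512 (.nr 666 524289
  (.nr 654 75 .s1 (.nx 656 144 (.nr 655 680 (.l1 (.ls 19 23 279)) (.l1 .sk)) (.nx 657 145 (.l1 .sk)
  (.nx 660 20644 (.lg 0 false 3 83 83 19 0 720) (.nr 665 32769 (.nr 663 513 (.lg 0 true 3 61 61 19
  0 720) (.nx 664 104033 (.lg 2 true 1 71 71 17 16531 720) .out)) .out))))) .out) .out) (.nx 680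
  1664512 (.nr 679 524289 (.nr 669 80 .s1 (.nx 671 144 (.nr 670 689 (.l1 (.ls 31 29 262)) (.l1
  .sk)) (.nx 672 145 (.l1 .sk) (.nr 677 65537 (.nx 673 20644 (.lg 0 false 1 83 83 23 0 720) (.nr
  676 32769 (.nr 674 513 (.lg 0 true 1 73 73 23 0 720) (.nx 675 104033 (.lg 1 true 1 83 83 23 16531
  720) .out)) .out)) (.nx 678 13005 (.lg 0 false 1 97 97 23 0 9360) .out))))) .out) .out)) (.na 682
  85 (.lg 0 false 1 0 0 16 0 24) (.na 695 87 (.nx 694 1664512 (.nr 693 524289 (.nr 683 85 .s1 (.nx
  686 145 (.nx 685 144 (.nr 684 740 (.l1 (.ls 16 23 246)) (.l1 .sk)) (.l1 .sk)) (.nx 688 20644 (.lg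
  0 false 2 89 97 16 0 720) (.nr 692 32769 (.nr 690 513 (.lg 0 true 2 71 71 16 0 720) (.nx 691
  104033 (.lg 2 true 1 79 79 16 16531 720) .out)) .out)))) .out) .out) (.nx 708 1664512 (.nr 707
  524289 (.nr 696 87 .s1 (.nx 698 144 (.nr 697 757 (.l1 (.ls 17 19 241)) (.l1 .sk)) (.nx 699 145
  (.l1 .sk) (.nx 702 20644 (.lg 0 false 3 83 83 17 0 720) (.nr 706 32769 (.nr 704 513 (.lg 0 true 2
  61 61 17 0 144) (.nx 705 104033 (.lg 2 true 1 71 71 16 16531 720) .out)) .out))))) .out) .out))))
  (.na 736 97 (.na 722 91 (.nx 721 1664512 (.nr 720 524289 (.nr 710 89 .s1 (.nx 713 145 (.nx 712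
  144 (.nr 711 774 (.l1 (.ls 19 17 235)) (.l1 .sk)) (.l1 .sk)) (.nx 715 20644 (.lg 0 false 2 79 79
  16 0 144) (.nr 719 32769 (.nr 717 513 (.lg 0 true 2 61 61 16 0 144) (.nx 718 104033 (.lg 2 true 1
  71 71 16 16531 720) .out)) .out)))) .out) .out) (.na 723 96 .ne (.nx 735 1664512 (.nr 734 1048577
  (.nr 724 96 .s1 (.nx 727 145 (.nx 726 144 (.nr 725 825 (.l1 (.ls 23 29 218)) (.l1 .sk)) (.l1
  .sk)) (.nx 731 104033 (.nx 729 13005 (.lg 0 false 2 83 83 29 0 720) (.nr 730 65537 (.lg 0 false 1
  83 83 23 0 720) .out)) (.nr 733 513 (.lg 0 true 2 67 67 29 0 144) .out)))) .out) .out))) (.na 750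
  100 (.nx 749 1664512 (.nr 748 1048577 (.nr 737 97 .s1 (.nx 743 20644 (.nx 739 144 (.nr 738 850
  (.l1 (.ls 19 17 216)) (.l1 .sk)) (.nx 740 145 (.l1 .sk) (.lg 0 false 3 83 83 16 0 720))) (.nr 747
  32769 (.nr 745 513 (.lg 0 true 2 61 61 16 0 144) (.nx 746 104033 (.lg 2 true 1 71 71 16 16531
  5040) .out)) .out))) .out) .out) (.na 763 101 (.nx 762 1664512 (.nr 761 1048577 (.nr 751 100 .s1
  (.nx 753 144 (.nr 752 859 (.l1 (.ls 29 29 210)) (.l1 .sk)) (.nx 754 145 (.l1 .sk) (.nx 756 13005
  (.lg 0 false 2 83 89 29 0 720) (.nr 760 65537 (.nx 757 104033 (.lg 0 false 1 89 89 23 0 720) (.nr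
  759 513 (.lg 0 true 2 67 67 29 0 720) .out)) .out))))) .out) .out) (.nx 778 1664512 (.nr 777
  1048577 (.nr 764 101 .s1 (.nx 767 145 (.nx 766 144 (.nr 765 884 (.l1 (.ls 17 17 208)) (.l1 .sk))
  (.l1 .sk)) (.nx 772 20644 (.lg 0 false 5 79 79 17 0 720) (.nr 776 32769 (.nr 774 513 (.lg 0 true
  2 59 59 16 0 144) (.nx 775 104033 (.lg 2 true 1 67 67 16 16531 144) .out)) .out)))) .out)
  .out)))))))

def T73_1 : Ph :=
  (.na 2389 1024 (.na 57 248 (.na 23 239 (.na 11 233 (.nx 10 1048577 (.nr 9 1048577 (.nr 1 232 .s1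
  (.nx 3 199 (.nr 2 2328 (.l1 (.ls 23 23 173)) (.l1 .sk)) (.nx 4 200 (.l1 .sk) (.nr 7 65537 (.nx 5
  131073 (.lg 0 true 1 83 83 23 0 240) (.nr 6 1025 (.lg 0 true 1 67 67 23 0 48) .out)) (.nx 8 16385
  (.lg 0 false 1 89 89 23 0 240) .out))))) .out) .out) (.na 12 235 (.lg 0 false 1 0 0 16 0 24) (.nx
  22 1048577 (.nr 21 1048577 (.nr 13 235 .s1 (.nx 16 200 (.nx 15 199 (.nr 14 2387 (.l1 (.ls 29 19
  171)) (.l1 .sk)) (.l1 .sk)) (.nx 19 131073 (.nr 17 65537 (.lg 0 true 1 79 79 19 0 120) (.nx 18
  16385 (.lg 0 false 1 83 83 19 0 120) .out)) (.nr 20 1025 (.lg 0 true 1 61 61 19 0 120) .out))))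
  .out) .out))) (.na 35 244 (.na 34 241 (.nx 33 1048577 (.nr 32 1048577 (.nr 24 239 .s1 (.nx 30
  32769 (.nx 26 199 (.nr 25 2407 (.l1 (.ls 16 17 168)) (.l1 .sk)) (.nx 27 200 (.l1 .sk) (.lg 0
  false 3 71 71 19 0 72))) (.nr 31 16385 (.lg 0 false 1 71 71 17 0 24) .out))) .out) .out) (.lg 0
  false 1 0 0 16 0 24)) (.na 46 245 (.nx 45 1048577 (.nr 44 1048577 (.nr 36 244 .s1 (.nx 39 200
  (.nx 38 199 (.nr 37 2447 (.l1 (.ls 23 23 165)) (.l1 .sk)) (.l1 .sk)) (.nx 42 131073 (.nr 40 65537
  (.lg 0 true 1 79 79 23 0 48) (.nx 41 16385 (.lg 0 false 1 79 79 23 0 48) .out)) (.nr 43 1025 (.lg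
  0 true 1 59 59 23 0 48) .out)))) .out) .out) (.nx 56 1048577 (.nr 55 1048577 (.nr 47 245 .s1 (.nx
  53 131073 (.nx 49 199 (.nr 48 2477 (.l1 (.ls 23 23 164)) (.l1 .sk)) (.nx 50 200 (.l1 .sk) (.nr 51
  65537 (.lg 0 true 1 73 73 23 0 840) (.nx 52 16385 (.lg 0 false 1 79 79 23 0 840) .out)))) (.nr 54
  1025 (.lg 0 true 1 59 59 23 0 840) .out))) .out) .out)))) (.na 99 257 (.na 78 251 (.na 68 250
  (.nx 67 1048577 (.nr 66 1048577 (.nr 58 248 .s1 (.nx 61 200 (.nx 60 199 (.nr 59 2497 (.l1 (.ls 29
  23 162)) (.l1 .sk)) (.l1 .sk)) (.nx 64 131073 (.nr 62 65537 (.lg 0 true 1 83 89 29 0 1680) (.nx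
  63 16385 (.lg 0 false 1 89 89 29 0 1680) .out)) (.nr 65 1025 (.lg 0 true 1 67 67 29 0 48)
  .out)))) .out) .out) (.nx 77 1048577 (.nr 76 1048577 (.nr 69 250 .s1 (.nx 71 199 (.nr 70 2507
  (.l1 (.ls 17 29 161)) (.l1 .sk)) (.nx 72 200 (.l1 .sk) (.nx 74 32769 (.lg 0 false 2 73 73 29 0
  240) (.nr 75 16385 (.lg 0 false 1 73 73 29 0 240) .out))))) .out) .out)) (.na 89 256 (.nx 88
  1048577 (.nr 87 1048577 (.nr 79 251 .s1 (.nx 81 199 (.nr 80 2557 (.l1 (.ls 17 17 160)) (.l1 .sk))
  (.nx 82 200 (.l1 .sk) (.nx 85 32769 (.lg 0 false 3 73 73 19 0 72) (.nr 86 16385 (.lg 0 false 1 73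
  73 17 0 24) .out))))) .out) .out) (.nx 98 1048577 (.nr 97 1482912 (.nr 90 256 .s1 (.nx 95 131073
  (.nx 91 257 (.l1 (.ls 67 29 261)) (.nr 94 1048577 (.nr 92 65537 (.lg 0 true 1 73 73 29 0 48) (.nx
  93 20644 (.lg 0 false 1 79 79 29 0 48) .out)) .out)) (.nr 96 2049 (.lg 0 true 1 61 61 29 0 48)
  .out))) .out) .out))) (.na 1099 512 (.na 588 363 (.nx 587 1048577 (.nr 586 1482912 (.nr 100 257
  .s1 (.nx 207 199 (.nr 206 3626 (.la (.ls 43 19 157)) (.l1 .sk)) (.nx 208 200 (.l1 .sk) (.nx 265
  257 (.lx (.lp 89 17 91)) (.nr 585 1048577 (.nx 371 20644 (.la (.lg 0 false 1 79 79 23 0)) (.nr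
  584 32769 (.nr 477 2049 (.la (.lg 0 true 1 61 61 23 0)) (.nx 583 131073 (.la (.lg 2 true 1 61 61
  23 31622)) .out)) .out)) .out))))) .out) .out) (.nx 1098 1048577 (.nr 1097 1482912 (.nr 589 363
  .s1 (.nx 740 200 (.nx 739 199 (.nr 738 5114 (.la (.ls 47 19 129)) (.l1 .sk)) (.l1 .sk)) (.nx 947
  20644 (.nx 797 257 (.lx (.lp 83 19 129)) (.nr 946 1048577 (.la (.lg 0 false 1 73 73 23 0)) .out))
  (.nr 1096 32769 (.la (.lg 2 true 1 71 71 23 287420)) .out)))) .out) .out)) (.na 1787 725 (.nx
  1786 1048577 (.nr 1785 1482912 (.nr 1100 512 .s1 (.nx 1300 200 (.nx 1299 199 (.nr 1298 7241 (.lx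
  (.lp 43 23 182)) (.l1 .sk)) (.l1 .sk)) (.nx 1357 257 (.lx (.lp 79 17 182)) (.nr 1784 1048577 (.nx
  1570 20644 (.la (.lg 0 false 1 71 71 29 0)) (.nr 1783 32769 (.la (.lg 2 true 1 67 67 29 203777))
  .out)) .out)))) .out) .out) (.nx 2388 13005 (.nr 2387 1048577 (.nr 1788 725 .s1 (.nx 2087 2049
  (.la (.ls 67 41 5793)) (.nr 2386 65537 (.la (.lg 0 false 1 43 47 29 0)) .out))) .out) .out)))))
  (.na 10591 11586 (.na 4697 2897 (.na 3243 1449 (.nx 3242 13005 (.nr 3241 1048577 (.nr 2390 1024
  .s1 (.nx 2815 3252 (.la (.ls 67 41 10330)) (.nr 3240 32769 (.la (.lg 0 false 1 37 41 31 0))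
  .out))) .out) .out) (.na 3845 2048 (.nx 3844 8193 (.nr 3843 1048577 (.nr 3244 1449 .s1 (.la (.ls
  61 47 46328))) .out) .out) (.nx 4696 8193 (.nr 4695 1048577 (.nr 3846 2048 .s1 (.la (.ls 61 47
  32779))) .out) .out))) (.na 7999 5793 (.na 6099 4096 (.nx 6098 3252 (.nr 6097 524289 (.nr 4698
  2897 .s1 (.nx 4898 200 (.nx 4897 199 (.nr 4896 40909 (.lx (.lp 47 31 1025)) (.l1 .sk)) (.l1 .sk))
  (.la (.ls 67 37 3639)))) .out) .out) (.nx 7998 3252 (.nr 7997 524289 (.nr 6100 4096 .s1 (.nx 6300
  200 (.nx 6299 199 (.nr 6298 57858 (.lx (.lp 47 31 1449)) (.l1 .sk)) (.l1 .sk)) (.la (.ls 61 37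
  2575)))) .out) .out)) (.na 9295 8192 (.nx 9294 1292 (.nr 9293 262145 (.nr 8000 5793 .s1 (.nx 8200
  200 (.nx 8199 199 (.nr 8198 81818 (.lx (.lp 53 37 2049)) (.l1 .sk)) (.l1 .sk)) (.nx 8814 814 (.lx
  (.lp 59 37 2049)) (.nr 9292 65537 (.lx (.lp 47 37 2049)) .out)))) .out) .out) (.nx 10590 1292
  (.nr 10589 262145 (.nr 9296 8192 .s1 (.nx 10110 814 (.nx 9552 256 (.nr 9551 131073 (.lx (.lp 53
  41 2897)) .out) (.lx (.lp 59 41 2897))) (.nr 10588 131073 (.lx (.lp 47 41 2897)) .out))) .out)
  .out)))) (.na 15769 131072 (.na 13180 32768 (.na 11885 16384 (.nx 11884 1292 (.nr 11883 131073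
  (.nr 10592 11586 .s1 (.lx (.lp 47 41 4097))) .out) .out) (.nx 13179 1292 (.nr 13178 262145 (.nr
  11886 16384 .s1 (.nx 12142 257 (.lx (.lp 53 41 8193)) (.nr 13177 131073 (.lx (.lp 43 43 8193))
  .out))) .out) .out)) (.na 14474 65536 (.nx 14473 1292 (.nr 14472 262145 (.nr 13181 32768 .s1 (.lx
  (.lp 47 47 16385))) .out) .out) (.nx 15768 1292 (.nr 15767 524289 (.nr 14475 65536 .s1 (.nx 14731
  257 (.lx (.lp 16 0 32769)) (.nr 15766 262145 (.lx (.lp 43 53 32769)) .out))) .out) .out))) (.na
  16799 524288 (.na 16284 262144 (.nx 16283 513 (.nr 16282 524289 (.nr 15770 131072 .s1 (.lx (.lp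
  41 59 65537))) .out) .out) (.nx 16798 513 (.nr 16797 1048577 (.nr 16285 262144 .s1 (.lx (.lp 16 0
  131073))) .out) .out)) (.na 16801 1048577 (.nx 16800 257 (.l1 .sk) .out) .out)))))

def T73_2 : Ph :=
  (.na 538 149 (.na 343 64 (.na 218 37 (.na 158 12 (.na 122 3 (.na 1 2 .ne (.nx 121 3329023 (.nr
  120 623489 (.nx 4 74 (.nx 3 73 (.nr 2 17 (.lg 0 true 1 31 31 5 0 122640) (.l1 .sk)) (.l1 .sk))
  (.nx 38 6501 (.nr 17 55110 (.lg 0 false 13 101 101 9 0 1594320) (.nx 37 1292 (.nr 23 77937 (.lg 0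
  false 6 89 89 9 0 367920) (.nx 36 205 (.lg 0 false 13 83 83 9 0 45552) .out)) .out)) (.nr 119
  65537 (.nr 90 257 (.nx 71 1321124 (.lg 0 true 33 89 89 13 0 115632) (.nr 89 9 (.lg 0 true 18 67
  67 9 0 10512) .out)) (.nx 118 165142 (.nx 103 20644 (.lg 1 false 13 103 107 9 26893 52612560)
  (.nr 117 46342 (.nr 108 1100 (.lg 2 true 5 79 79 9 23455 17520) (.lg 2 false 9 101 103 9 5991
  367920)) .out)) .out)) .out))) .out) .out)) (.na 123 11 .ne (.nx 157 1321124 (.nr 156 623489 (.nr
  124 7 .s1 (.nx 150 330282 (.nx 126 73 (.nr 125 73 (.lg 0 true 1 23 23 9 0 809424) (.l1 .sk)) (.nx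
  127 74 (.l1 .sk) (.nx 128 154 (.l1 (.ls 79 31 1661)) (.nx 129 324 (.l1 (.ls 83 41 7390)) (.nr 149
  220437 (.nr 145 77937 (.nx 134 20644 (.lg 0 false 5 97 97 16 0 674520) (.nr 144 55110 (.nr 139
  766 (.lg 0 true 5 79 79 16 0 96360) (.nx 143 165142 (.lg 2 false 4 83 89 16 7870 38544) .out))
  .out)) (.nx 148 814 (.lg 0 false 3 71 71 9 0 57816) .out)) .out))))) (.nr 155 65 (.lg 0 true 5 61
  61 16 0 96360) .out))) .out) .out))) (.na 194 16 (.na 159 14 .ne (.nx 193 1321124 (.nr 192 623489
  (.nr 160 12 .s1 (.nx 175 9557 (.nx 165 324 (.nx 164 154 (.nx 162 73 (.nr 161 97 (.lg 0 false 1 17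
  17 11 0 24528) (.l1 .sk)) (.nx 163 74 (.l1 .sk) (.l1 (.ls 79 41 1305)))) (.l1 (.ls 79 47 5807)))
  (.nr 174 220437 (.nr 170 92683 (.lg 0 false 5 83 83 13 0 122640) (.nx 173 814 (.lg 0 false 3 71
  71 13 0 73584) .out)) .out)) (.nr 191 65537 (.nr 185 374 (.lg 0 true 10 71 71 19 0 122640) (.nx
  190 165142 (.lg 2 false 5 89 89 13 18294 122640) .out)) .out))) .out) .out)) (.na 195 22 .ne (.na
  217 23 (.nx 216 1321124 (.nr 215 1048577 (.nr 196 21 .s1 (.nx 204 10323 (.nx 200 324 (.nx 198 73
  (.nr 197 140 (.l1 (.ls 19 29 245)) (.l1 .sk)) (.nx 199 74 (.l1 .sk) (.l1 (.ls 83 43 4525)))) (.nr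
  203 220437 (.lg 0 false 3 97 97 13 0 578160) .out)) (.nr 214 55110 (.nr 211 498 (.lg 0 true 7 71
  71 19 0 269808) (.nx 213 165142 (.lg 2 true 2 89 89 13 14245 192720) .out)) .out))) .out) .out)
  .ne)))) (.na 270 47 (.na 253 43 (.na 236 41 (.nx 235 1321124 (.nr 234 370729 (.nr 219 37 .s1 (.nr
  227 13779 (.nx 220 2047 (.l1 (.ls 53 59 113251)) (.nx 223 82572 (.lg 0 false 3 79 79 16 0 5256)
  (.nr 226 217 (.lg 0 true 3 67 67 16 0 5256) .out))) (.nx 229 74 (.nx 228 73 (.l1 .sk) (.l1 .sk))
  (.nx 233 20644 (.lg 0 false 4 97 97 16 0 3504) .out)))) .out) .out) (.nx 252 1321124 (.nr 251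
  370729 (.nr 237 41 .s1 (.nx 240 74 (.nx 239 73 (.nr 238 261 (.l1 (.ls 16 16 132)) (.l1 .sk)) (.l1
  .sk)) (.nx 245 13005 (.lg 0 false 5 83 83 16 0 8760) (.nr 250 23172 (.nr 248 261 (.lg 0 true 3 59
  59 16 0 5256) (.nx 249 82572 (.lg 2 true 1 79 79 16 11548 1752) .out)) .out)))) .out) .out)) (.na
  269 46 (.nx 268 1321124 (.nr 267 370729 (.nr 254 43 .s1 (.nx 260 8193 (.nx 256 73 (.nr 255 279
  (.l1 (.ls 16 16 126)) (.l1 .sk)) (.nx 257 74 (.l1 .sk) (.lg 0 false 3 83 83 16 0 5256))) (.nr 266
  55110 (.nr 263 217 (.lg 0 true 3 61 61 16 0 5256) (.nx 265 82572 (.lg 1 true 2 83 83 16 17948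
  3504) .out)) .out))) .out) .out) .ne)) (.na 300 59 (.na 285 49 (.nx 284 1321124 (.nr 283 311745
  (.nr 271 47 .s1 (.nx 277 10323 (.nx 273 73 (.nr 272 297 (.l1 (.ls 16 16 116)) (.l1 .sk)) (.nx 274
  74 (.l1 .sk) (.lg 0 false 3 83 83 16 0 5256))) (.nr 282 23172 (.nr 280 297 (.lg 0 true 3 61 61 16
  0 5256) (.nx 281 82572 (.lg 2 true 1 79 79 16 10148 61320) .out)) .out))) .out) .out) (.nx 299
  1321124 (.nr 298 311745 (.nr 286 49 .s1 (.nx 288 73 (.nr 287 358 (.l1 (.ls 16 17 111)) (.l1 .sk))
  (.nx 289 74 (.l1 .sk) (.nx 292 10323 (.lg 0 false 3 79 79 16 0 36792) (.nr 297 23172 (.nr 295 358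
  (.lg 0 true 3 59 59 16 0 36792) (.nx 296 82572 (.lg 2 true 1 61 61 16 8419 12264) .out))
  .out))))) .out) .out)) (.na 315 61 (.nx 314 1321124 (.nr 313 311745 (.nr 301 59 .s1 (.nx 307
  10323 (.nx 303 73 (.nr 302 370 (.l1 (.ls 16 16 93)) (.l1 .sk)) (.nx 304 74 (.l1 .sk) (.lg 0 false
  3 79 79 16 0 5256))) (.nr 312 23172 (.nr 310 370 (.lg 0 true 3 61 61 16 0 5256) (.nx 311 82572
  (.lg 2 true 1 67 67 16 8146 1752) .out)) .out))) .out) .out) (.na 330 62 (.nx 329 1321124 (.nr
  328 311745 (.nr 316 61 .s1 (.nx 322 10323 (.nx 318 73 (.nr 317 376 (.l1 (.ls 16 16 90)) (.l1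
  .sk)) (.nx 319 74 (.l1 .sk) (.lg 0 false 3 79 79 16 0 5256))) (.nr 327 23172 (.nr 325 376 (.lg 0
  true 3 59 59 16 0 5256) (.nx 326 82572 (.lg 2 true 1 61 61 16 8016 1752) .out)) .out))) .out)
  .out) (.nx 342 1321124 (.nr 341 311745 (.nr 331 62 .s1 (.nx 334 74 (.nx 333 73 (.nr 332 388 (.l1
  (.ls 17 19 88)) (.l1 .sk)) (.l1 .sk)) (.nx 337 10323 (.lg 0 false 3 83 83 19 0 10512) (.nr 340
  23172 (.nr 338 217 (.lg 2 false 1 67 67 13 777759 17520) (.nx 339 82572 (.lg 2 true 1 79 79 13
  13889 17520) .out)) .out)))) .out) .out)))))) (.na 443 98 (.na 388 82 (.na 359 74 (.na 344 73 .ne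
  (.nx 358 1321124 (.nr 357 524289 (.nr 345 73 .s1 (.nx 347 73 (.nr 346 449 (.l1 (.ls 16 16 75))
  (.l1 .sk)) (.nx 348 74 (.l1 .sk) (.nx 351 8193 (.lg 0 true 3 67 67 16 0 5256) (.nr 356 8193 (.nr
  354 513 (.lg 0 true 3 53 53 16 0 5256) (.nx 355 82572 (.lg 2 true 1 47 47 16 5876 1752) .out))
  .out))))) .out) .out)) (.na 374 77 (.nx 373 1321124 (.nr 372 524289 (.nr 360 74 .s1 (.nx 366 8193
  (.nx 362 73 (.nr 361 467 (.l1 (.ls 16 19 75)) (.l1 .sk)) (.nx 363 74 (.l1 .sk) (.lg 0 false 3 79
  79 19 0 10512))) (.nr 371 8193 (.nr 369 513 (.lg 0 true 3 61 61 19 0 10512) (.nx 370 82572 (.lg 2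
  false 1 53 53 13 5876 3504) .out)) .out))) .out) .out) (.nx 387 1321124 (.nr 386 524289 (.nr 375
  77 .s1 (.nx 377 73 (.nr 376 498 (.l1 (.ls 23 17 72)) (.l1 .sk)) (.nx 378 74 (.l1 .sk) (.nx 381
  8193 (.lg 0 false 3 83 89 23 0 2023560) (.nr 385 8193 (.nr 383 513 (.lg 0 true 2 71 71 19 0
  269808) (.nx 384 82572 (.lg 2 false 1 59 59 17 5876 134904) .out)) .out))))) .out) .out))) (.na
  415 86 (.na 401 83 (.nx 400 1321124 (.nr 399 524289 (.nr 389 82 .s1 (.nx 391 73 (.nr 390 504 (.l1
  (.ls 17 19 67)) (.l1 .sk)) (.nx 392 74 (.l1 .sk) (.nx 395 8193 (.lg 0 false 3 83 83 19 0 10512)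
  (.nr 398 8193 (.nr 396 513 (.lg 2 false 1 67 67 13 588062 3504) (.nx 397 82572 (.lg 2 true 1 53
  53 13 5876 3504) .out)) .out))))) .out) .out) (.nx 414 1321124 (.nr 413 524289 (.nr 402 83 .s1
  (.nx 408 8193 (.nx 404 73 (.nr 403 522 (.l1 (.ls 16 16 67)) (.l1 .sk)) (.nx 405 74 (.l1 .sk) (.lg
  0 false 3 71 71 16 0 5256))) (.nr 412 8193 (.nr 410 522 (.lg 0 true 2 59 59 16 0 3504) (.nx 411
  82572 (.lg 2 true 1 43 43 16 5774 1752) .out)) .out))) .out) .out)) (.na 429 91 (.nx 428 1321124
  (.nr 427 524289 (.nr 416 86 .s1 (.nx 422 8193 (.nx 418 73 (.nr 417 552 (.l1 (.ls 16 19 64)) (.l1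
  .sk)) (.nx 419 74 (.l1 .sk) (.lg 0 false 3 79 79 19 0 10512))) (.nr 426 8193 (.nr 424 513 (.lg 0
  true 2 61 61 19 0 3504) (.nx 425 82572 (.lg 2 true 1 53 53 13 5876 24528) .out)) .out))) .out)
  .out) (.na 430 94 .ne (.nx 442 1321124 (.nr 441 524289 (.nr 431 94 .s1 (.nx 437 8193 (.nx 433 73
  (.nr 432 595 (.l1 (.ls 16 19 59)) (.l1 .sk)) (.nx 434 74 (.l1 .sk) (.lg 0 false 3 79 79 19 0
  10512))) (.nr 440 8193 (.nr 438 513 (.lg 2 false 1 61 61 17 512990 3504) (.nx 439 82572 (.lg 2
  false 1 47 47 17 5876 3504) .out)) .out))) .out) .out))))) (.na 502 128 (.na 467 109 (.na 456 107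
  (.nx 455 1321124 (.nr 454 524289 (.nr 444 98 .s1 (.nx 446 73 (.nr 445 649 (.l1 (.ls 17 23 57))
  (.l1 .sk)) (.nx 447 74 (.l1 .sk) (.nx 450 8193 (.lg 0 false 3 79 79 23 0 73584) (.nr 453 8193
  (.nr 451 513 (.lg 2 false 1 61 61 19 492052 24528) (.nx 452 82572 (.lg 2 true 1 47 47 19 5876
  24528) .out)) .out))))) .out) .out) (.nx 466 1321124 (.nr 465 524289 (.nr 457 107 .s1 (.nx 459 73
  (.nr 458 661 (.l1 (.ls 17 16 52)) (.l1 .sk)) (.nx 460 74 (.l1 .sk) (.nx 461 8193 (.lg 0 true 1 83
  83 16 0 183960) (.nr 464 8193 (.nr 462 513 (.lg 2 false 1 53 53 16 450664 1752) (.nx 463 82572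
  (.lg 2 true 1 43 43 16 5876 1752) .out)) .out))))) .out) .out)) (.na 480 118 (.nx 479 1321124
  (.nr 478 524289 (.nr 468 109 .s1 (.nx 474 8193 (.nx 470 73 (.nr 469 716 (.l1 (.ls 16 16 51)) (.l1
  .sk)) (.nx 471 74 (.l1 .sk) (.lg 0 false 3 67 67 16 0 5256))) (.nr 477 8193 (.nr 475 513 (.lg 2
  false 1 53 53 16 442395 1752) (.nx 476 82572 (.lg 2 true 1 43 43 16 5876 1752) .out)) .out)))
  .out) .out) (.na 491 122 (.nx 490 1321124 (.nr 489 524289 (.nr 481 118 .s1 (.nx 484 74 (.nx 483
  73 (.nr 482 740 (.l1 (.ls 16 19 48)) (.l1 .sk)) (.l1 .sk)) (.nx 485 8193 (.lg 0 true 1 83 83 19 0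
  3504) (.nr 488 8193 (.nr 486 513 (.lg 2 false 1 59 59 19 408653 3504) (.nx 487 82572 (.lg 2 true
  1 43 43 19 5876 3504) .out)) .out)))) .out) .out) (.nx 501 1321124 (.nr 500 524289 (.nr 492 122
  .s1 (.nx 494 73 (.nr 493 776 (.l1 (.ls 17 19 46)) (.l1 .sk)) (.nx 495 74 (.l1 .sk) (.nx 496 8193
  (.lg 0 true 1 83 83 19 0 3504) (.nr 499 8193 (.nr 497 513 (.lg 2 false 1 53 53 19 395255 3504)
  (.nx 498 82572 (.lg 2 false 1 43 43 19 5876 3504) .out)) .out))))) .out) .out)))) (.na 511 137
  (.na 503 131 .ne (.nx 510 660563 (.nr 509 1048577 (.nr 504 131 .s1 (.nx 505 205 (.l1 (.ls 59 19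
  323)) (.nr 508 524289 (.nr 506 8193 (.lg 0 false 1 79 79 16 0 134904) (.nx 507 6503 (.lg 0 true 1
  79 79 16 0 134904) .out)) .out))) .out) .out)) (.na 519 139 (.nx 518 660563 (.nr 517 1048577 (.nr
  512 137 .s1 (.nx 513 205 (.l1 (.ls 59 19 309)) (.nr 516 524289 (.nr 514 8193 (.lg 0 false 1 79 79
  16 0 61320) (.nx 515 6503 (.lg 0 true 1 67 67 16 0 1752) .out)) .out))) .out) .out) (.na 528 146
  (.nx 527 660563 (.nr 526 1048577 (.nr 520 139 .s1 (.nx 521 205 (.l1 (.ls 59 19 305)) (.nr 525
  524289 (.nr 523 8193 (.lg 0 true 2 67 67 16 0 3504) (.nx 524 6503 (.lg 0 true 1 67 67 16 0 1752)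
  .out)) .out))) .out) .out) (.nx 537 660563 (.nr 536 1048577 (.nr 529 146 .s1 (.nx 530 205 (.l1
  (.ls 53 29 290)) (.nr 535 524289 (.nx 532 6503 (.lg 0 true 2 59 59 19 0 3504) (.nr 534 8193 (.lg
  0 false 2 61 61 19 0 3504) .out)) .out))) .out) .out))))))) (.na 650 233 (.na 606 181 (.na 566
  163 (.na 555 154 (.na 547 151 (.nx 546 660563 (.nr 545 1048577 (.nr 539 149 .s1 (.nx 540 205 (.l1
  (.ls 59 19 285)) (.nr 544 524289 (.nr 542 8193 (.lg 0 true 2 67 67 16 0 3504) (.nx 543 6503 (.lg
  0 true 1 67 67 16 0 12264) .out)) .out))) .out) .out) (.nx 554 660563 (.nr 553 1048577 (.nr 548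
  151 .s1 (.nx 549 205 (.l1 (.ls 59 17 281)) (.nr 552 524289 (.nr 550 8193 (.lg 0 false 1 67 67 16
  0 1752) (.nx 551 6503 (.lg 0 true 1 67 67 16 0 12264) .out)) .out))) .out) .out)) (.na 565 157
  (.nx 564 660563 (.nr 563 1048577 (.nr 556 154 .s1 (.nx 559 6503 (.nx 557 205 (.l1 (.ls 71 31
  275)) (.nr 558 524289 (.lg 0 false 1 79 79 31 0 269808) .out)) (.nr 562 8193 (.nr 560 1025 (.lg 0
  true 1 67 67 31 0 269808) (.nx 561 82572 (.lg 2 false 1 47 47 31 3388 269808) .out)) .out)))
  .out) .out) (.lg 0 false 1 0 0 16 0 24))) (.na 582 173 (.na 574 166 (.nx 573 660563 (.nr 572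
  1048577 (.nr 567 163 .s1 (.nx 568 205 (.l1 (.ls 79 17 260)) (.nr 571 524289 (.nr 569 8193 (.lg 0
  false 1 79 79 16 0 183960) (.nx 570 6503 (.lg 0 true 1 79 79 16 0 183960) .out)) .out))) .out)
  .out) (.nx 581 660563 (.nr 580 1048577 (.nr 575 166 .s1 (.nx 576 205 (.l1 (.ls 61 29 256)) (.nr
  579 524289 (.nr 577 8193 (.lg 0 false 1 83 83 19 0 269808) (.nx 578 6503 (.lg 0 true 1 79 79 19 0
  269808) .out)) .out))) .out) .out)) (.na 590 178 (.nx 589 660563 (.nr 588 1048577 (.nr 583 173
  .s1 (.nx 584 205 (.l1 (.ls 79 17 245)) (.nr 587 524289 (.nr 585 8193 (.lg 0 false 1 79 79 16 0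
  61320) (.nx 586 6503 (.lg 0 true 1 67 67 16 0 1752) .out)) .out))) .out) .out) (.na 598 179 (.nx
  597 660563 (.nr 596 1048577 (.nr 591 178 .s1 (.nx 592 205 (.l1 (.ls 71 29 239)) (.nr 595 524289
  (.nr 593 8193 (.lg 0 false 1 79 79 19 0 122640) (.nx 594 6503 (.lg 0 true 1 79 79 19 0 122640)
  .out)) .out))) .out) .out) (.nx 605 660563 (.nr 604 1048577 (.nr 599 179 .s1 (.nx 600 205 (.l1
  (.ls 59 17 237)) (.nr 603 524289 (.nr 601 8193 (.lg 0 false 1 67 67 16 0 1752) (.nx 602 6503 (.lg
  0 true 1 67 67 16 0 1752) .out)) .out))) .out) .out))))) (.na 631 211 (.na 622 197 (.na 614 194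
  (.nx 613 660563 (.nr 612 1048577 (.nr 607 181 .s1 (.nx 608 205 (.l1 (.ls 53 17 235)) (.nr 611
  524289 (.nr 609 8193 (.lg 0 false 1 67 67 16 0 5256) (.nx 610 6503 (.lg 0 true 1 61 61 16 0 1752)
  .out)) .out))) .out) .out) (.nx 621 660563 (.nr 620 1048577 (.nr 615 194 .s1 (.nx 616 205 (.l1
  (.ls 59 23 219)) (.nr 619 524289 (.nr 617 8193 (.lg 0 false 1 79 79 19 0 809424) (.nx 618 6503
  (.lg 0 true 1 67 67 19 0 24528) .out)) .out))) .out) .out)) (.na 623 206 (.lg 0 false 1 0 0 16 0
  24) (.nx 630 660563 (.nr 629 1048577 (.nr 624 206 .s1 (.nx 625 205 (.l1 (.ls 59 23 207)) (.nr 628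
  524289 (.nr 626 8193 (.lg 0 false 1 79 79 23 0 73584) (.nx 627 6503 (.lg 0 true 1 67 67 23 0
  3504) .out)) .out))) .out) .out))) (.na 640 218 (.na 632 214 (.lg 0 false 1 0 0 16 0 24) (.nx 639
  660563 (.nr 638 1048577 (.nr 633 214 .s1 (.nx 634 205 (.l1 (.ls 59 23 199)) (.nr 637 524289 (.nr
  635 8193 (.lg 0 false 1 67 67 23 0 3504) (.nx 636 6503 (.lg 0 true 1 61 61 23 0 3504) .out))
  .out))) .out) .out)) (.na 648 227 (.nx 647 660563 (.nr 646 1048577 (.nr 641 218 .s1 (.nx 642 205
  (.l1 (.ls 61 23 195)) (.nr 645 524289 (.nr 643 8193 (.lg 0 false 1 79 79 23 0 17520) (.nx 644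
  6503 (.lg 0 true 1 67 67 23 0 17520) .out)) .out))) .out) .out) (.na 649 229 (.lg 0 false 1 0 0
  16 0 24) (.lg 0 false 1 0 0 16 0 24)))))) (.na 1916 1024 (.na 668 251 (.na 659 241 (.na 651 239
  (.lg 0 false 1 0 0 16 0 24) (.nx 658 660563 (.nr 657 1048577 (.nr 652 239 .s1 (.nx 653 205 (.l1
  (.ls 47 17 178)) (.nr 656 524289 (.nr 654 8193 (.lg 0 false 1 61 61 17 0 1752) (.nx 655 6503 (.lg
  0 true 1 59 59 17 0 1752) .out)) .out))) .out) .out)) (.na 660 242 (.lg 0 false 1 0 0 16 0 24)
  (.nx 667 660563 (.nr 666 1048577 (.nr 661 242 .s1 (.nx 662 205 (.l1 (.ls 71 29 176)) (.nr 665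
  524289 (.nr 663 8193 (.lg 0 false 1 79 79 29 0 38544) (.nx 664 6503 (.lg 0 true 1 79 79 29 0
  4047120) .out)) .out))) .out) .out))) (.na 670 257 (.na 669 256 (.lg 0 false 1 0 0 16 0 24) .ne)
  (.na 1184 512 (.nx 1183 82572 (.nr 1182 1048577 (.nr 671 257 .s1 (.nx 926 647 (.la (.ls 89 31
  1631)) (.nr 1181 262145 (.la (.lg 0 true 1 79 79 23 0)) .out))) .out) .out) (.na 1614 725 (.nx
  1613 82572 (.nr 1612 1048577 (.nr 1185 512 .s1 (.nx 1398 5162 (.la (.ls 59 53 52046)) (.nr 1611
  16385 (.la (.lg 2 true 1 31 31 23 8497)) .out))) .out) .out) (.nx 1915 3252 (.nr 1914 262145 (.nr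
  1615 725 .s1 (.la (.ls 47 43 14589))) .out) .out))))) (.na 5244 8192 (.na 3020 2048 (.na 2344
  1449 (.nx 2343 3252 (.nr 2342 262145 (.nr 1917 1024 .s1 (.la (.ls 43 41 10330))) .out) .out) (.nx
  3019 1627 (.nr 3018 131073 (.nr 2345 1449 .s1 (.nx 2418 73 (.nr 2417 12416 (.lx (.lp 16 0 513))
  (.l1 .sk)) (.nx 2419 74 (.l1 .sk) (.la (.ls 53 31 1826))))) .out) .out)) (.na 3946 2897 (.nx 3945
  1627 (.nr 3944 131073 (.nr 3021 2048 .s1 (.nx 3094 73 (.nr 3093 17563 (.lx (.lp 16 0 725)) (.l1
  .sk)) (.nx 3095 74 (.l1 .sk) (.la (.ls 47 31 1292))))) .out) .out) (.na 4595 4096 (.nx 4594 647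
  (.nr 4593 65537 (.nr 3947 2897 .s1 (.lx (.lp 43 31 1025))) .out) .out) (.nx 5243 647 (.nr 5242
  65537 (.nr 4596 4096 .s1 (.lx (.lp 41 37 2049))) .out) .out)))) (.na 6542 32768 (.na 5893 16384
  (.nx 5892 647 (.nr 5891 65537 (.nr 5245 8192 .s1 (.lx (.lp 41 41 4097))) .out) .out) (.nx 6541
  647 (.nr 6540 131073 (.nr 5894 16384 .s1 (.lx (.lp 41 41 8193))) .out) .out)) (.na 6868 65536
  (.nx 6867 324 (.nr 6866 131073 (.nr 6543 32768 .s1 (.lx (.lp 16 41 16385))) .out) .out) (.na 7194
  131073 (.nx 7193 324 (.nr 7192 262145 (.nr 6869 65536 .s1 (.lx (.lp 16 47 32769))) .out) .out)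
  .out)))))))

theorem c73 :
    OkQ ckI L8 144 13 104 0 34359738368 1 1099511627776 ∧
    OkQ ckI L9 199 232 1099511627776 0 34359738368 1 1099511627776 ∧
    OkQ ckI L6 73 1 1099511627776 0 34359738368 1 1099511627776 := by
  refine ⟨?_, ?_, ?_⟩
  · refine fin 144 779 T73_0 ?_
    refine jn 5 (by decide +kernel) ?_
    refine jn 6 (by decide +kernel) ?_
    refine jn 8 (by decide +kernel) ?_
    refine jn 9 (by decide +kernel) ?_
    refine jn 10 (by decide +kernel) ?_
    refine jn 11 (by decide +kernel) ?_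
    refine jn 15 (by decide +kernel) ?_
    refine jn 18 (by decide +kernel) ?_
    refine jn 19 (by decide +kernel) ?_
    refine jn 20 (by decide +kernel) ?_
    refine jn 21 (by decide +kernel) ?_
    refine jn 22 (by decide +kernel) ?_
    refine jn 23 (by decide +kernel) ?_
    refine jn 24 (by decide +kernel) ?_
    refine jn 25 (by decide +kernel) ?_
    refine jn 26 (by decide +kernel) ?_
    refine jn 27 (by decide +kernel) ?_
    refine jn 28 (by decide +kernel) ?_
    refine jn 29 (by decide +kernel) ?_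
    refine jn 41 (by decide +kernel) ?_
    refine jn 58 (by decide +kernel) ?_
    refine jn 71 (by decide +kernel) ?_
    refine jn 73 (by decide +kernel) ?_
    refine jn 75 (by decide +kernel) ?_
    refine jn 76 (by decide +kernel) ?_
    refine jn 78 (by decide +kernel) ?_
    refine jn 86 (by decide +kernel) ?_
    refine jn 90 (by decide +kernel) ?_
    refine jn 93 (by decide +kernel) ?_
    refine jn 99 (by decide +kernel) ?_
    refine jn 100 (by decide +kernel) ?_
    refine jn 101 (by decide +kernel) ?_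
    refine jn 102 (by decide +kernel) ?_
    refine jn 103 (by decide +kernel) ?_
    refine jn 104 (by decide +kernel) ?_
    refine jn 105 (by decide +kernel) ?_
    refine jn 106 (by decide +kernel) ?_
    refine jn 117 (by decide +kernel) ?_
    refine jn 130 (by decide +kernel) ?_
    refine jn 131 (by decide +kernel) ?_
    refine jn 132 (by decide +kernel) ?_
    refine jn 133 (by decide +kernel) ?_
    refine jn 134 (by decide +kernel) ?_
    refine jn 135 (by decide +kernel) ?_
    refine jn 136 (by decide +kernel) ?_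
    refine jn 137 (by decide +kernel) ?_
    refine jn 138 (by decide +kernel) ?_
    refine jn 139 (by decide +kernel) ?_
    refine jn 140 (by decide +kernel) ?_
    refine jn 141 (by decide +kernel) ?_
    refine jn 142 (by decide +kernel) ?_
    refine jn 147 (by decide +kernel) ?_
    refine jn 150 (by decide +kernel) ?_
    refine jn 152 (by decide +kernel) ?_
    refine jn 157 (by decide +kernel) ?_
    refine jn 161 (by decide +kernel) ?_
    refine jn 166 (by decide +kernel) ?_
    refine jn 178 (by decide +kernel) ?_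
    refine jn 182 (by decide +kernel) ?_
    refine jn 188 (by decide +kernel) ?_
    refine jn 196 (by decide +kernel) ?_
    refine jn 213 (by decide +kernel) ?_
    refine jn 214 (by decide +kernel) ?_
    refine jn 215 (by decide +kernel) ?_
    refine jn 216 (by decide +kernel) ?_
    refine jn 217 (by decide +kernel) ?_
    refine jn 218 (by decide +kernel) ?_
    refine jn 219 (by decide +kernel) ?_
    refine jn 220 (by decide +kernel) ?_
    refine jn 221 (by decide +kernel) ?_
    refine jn 225 (by decide +kernel) ?_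
    refine jn 226 (by decide +kernel) ?_
    refine jn 227 (by decide +kernel) ?_
    refine jn 228 (by decide +kernel) ?_
    refine jn 229 (by decide +kernel) ?_
    refine jn 230 (by decide +kernel) ?_
    refine jn 231 (by decide +kernel) ?_
    refine jn 232 (by decide +kernel) ?_
    refine jn 233 (by decide +kernel) ?_
    refine jn 238 (by decide +kernel) ?_
    refine jn 245 (by decide +kernel) ?_
    refine jn 246 (by decide +kernel) ?_
    refine jn 255 (by decide +kernel) ?_
    refine jn 262 (by decide +kernel) ?_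
    refine jn 270 (by decide +kernel) ?_
    refine jn 277 (by decide +kernel) ?_
    refine jn 286 (by decide +kernel) ?_
    refine jn 293 (by decide +kernel) ?_
    refine jn 300 (by decide +kernel) ?_
    refine jn 307 (by decide +kernel) ?_
    refine jn 323 (by decide +kernel) ?_
    refine jn 329 (by decide +kernel) ?_
    refine jn 339 (by decide +kernel) ?_
    refine jn 343 (by decide +kernel) ?_
    refine jn 345 (by decide +kernel) ?_
    refine jn 347 (by decide +kernel) ?_
    refine jn 349 (by decide +kernel) ?_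
    refine jn 351 (by decide +kernel) ?_
    refine jn 353 (by decide +kernel) ?_
    refine jn 354 (by decide +kernel) ?_
    refine jn 355 (by decide +kernel) ?_
    refine jn 358 (by decide +kernel) ?_
    refine jn 362 (by decide +kernel) ?_
    refine jn 372 (by decide +kernel) ?_
    refine jn 373 (by decide +kernel) ?_
    refine jn 374 (by decide +kernel) ?_
    refine jn 375 (by decide +kernel) ?_
    refine jn 377 (by decide +kernel) ?_
    refine jn 378 (by decide +kernel) ?_
    refine jn 379 (by decide +kernel) ?_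
    refine jn 380 (by decide +kernel) ?_
    refine jn 383 (by decide +kernel) ?_
    refine jn 384 (by decide +kernel) ?_
    refine jn 392 (by decide +kernel) ?_
    refine jn 393 (by decide +kernel) ?_
    refine jn 395 (by decide +kernel) ?_
    refine jn 396 (by decide +kernel) ?_
    refine jn 398 (by decide +kernel) ?_
    refine jn 399 (by decide +kernel) ?_
    refine jn 400 (by decide +kernel) ?_
    refine jn 401 (by decide +kernel) ?_
    refine jn 402 (by decide +kernel) ?_
    refine jn 403 (by decide +kernel) ?_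
    refine jn 413 (by decide +kernel) ?_
    refine jn 420 (by decide +kernel) ?_
    refine jn 427 (by decide +kernel) ?_
    refine jn 437 (by decide +kernel) ?_
    refine jn 438 (by decide +kernel) ?_
    refine jn 439 (by decide +kernel) ?_
    refine jn 441 (by decide +kernel) ?_
    refine jn 446 (by decide +kernel) ?_
    refine jn 448 (by decide +kernel) ?_
    refine jn 458 (by decide +kernel) ?_
    refine jn 466 (by decide +kernel) ?_
    refine jn 475 (by decide +kernel) ?_
    refine jn 476 (by decide +kernel) ?_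
    refine jn 477 (by decide +kernel) ?_
    refine jn 479 (by decide +kernel) ?_
    refine jn 481 (by decide +kernel) ?_
    refine jn 482 (by decide +kernel) ?_
    refine jn 484 (by decide +kernel) ?_
    refine jn 485 (by decide +kernel) ?_
    refine jn 494 (by decide +kernel) ?_
    refine jn 496 (by decide +kernel) ?_
    refine jn 497 (by decide +kernel) ?_
    refine jn 499 (by decide +kernel) ?_
    refine jn 500 (by decide +kernel) ?_
    refine jn 509 (by decide +kernel) ?_
    refine jn 516 (by decide +kernel) ?_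
    refine jn 522 (by decide +kernel) ?_
    refine jn 531 (by decide +kernel) ?_
    refine jn 533 (by decide +kernel) ?_
    refine jn 535 (by decide +kernel) ?_
    refine jn 537 (by decide +kernel) ?_
    refine jn 539 (by decide +kernel) ?_
    refine jn 553 (by decide +kernel) ?_
    refine jn 558 (by decide +kernel) ?_
    refine jn 567 (by decide +kernel) ?_
    refine jn 569 (by decide +kernel) ?_
    refine jn 572 (by decide +kernel) ?_
    refine jn 584 (by decide +kernel) ?_
    refine jn 594 (by decide +kernel) ?_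
    refine jn 599 (by decide +kernel) ?_
    refine jn 603 (by decide +kernel) ?_
    refine jn 612 (by decide +kernel) ?_
    refine jn 614 (by decide +kernel) ?_
    refine jn 618 (by decide +kernel) ?_
    refine jn 627 (by decide +kernel) ?_
    refine jn 628 (by decide +kernel) ?_
    refine jn 629 (by decide +kernel) ?_
    refine jn 631 (by decide +kernel) ?_
    refine jn 632 (by decide +kernel) ?_
    refine jn 633 (by decide +kernel) ?_
    refine jn 634 (by decide +kernel) ?_
    refine jn 648 (by decide +kernel) ?_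
    refine jn 660 (by decide +kernel) ?_
    refine jn 669 (by decide +kernel) ?_
    refine jn 672 (by decide +kernel) ?_
    refine jn 673 (by decide +kernel) ?_
    refine jn 674 (by decide +kernel) ?_
    refine jn 675 (by decide +kernel) ?_
    refine jn 683 (by decide +kernel) ?_
    refine jn 688 (by decide +kernel) ?_
    refine jn 691 (by decide +kernel) ?_
    refine jn 705 (by decide +kernel) ?_
    refine jn 718 (by decide +kernel) ?_
    refine jn 729 (by decide +kernel) ?_
    refine jn 733 (by decide +kernel) ?_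
    refine jn 746 (by decide +kernel) ?_
    refine jn 757 (by decide +kernel) ?_
    refine jn 772 (by decide +kernel) ?_
    exact je (by decide +kernel)
  · refine fin 24 16802 T73_1 ?_
    refine jn 5 (by decide +kernel) ?_
    refine jn 8 (by decide +kernel) ?_
    refine jn 18 (by decide +kernel) ?_
    refine jn 31 (by decide +kernel) ?_
    refine jn 41 (by decide +kernel) ?_
    refine jn 52 (by decide +kernel) ?_
    refine jn 62 (by decide +kernel) ?_
    refine jn 65 (by decide +kernel) ?_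
    refine jn 86 (by decide +kernel) ?_
    refine jn 96 (by decide +kernel) ?_
    refine jn 123 (by decide +kernel) ?_
    refine jn 124 (by decide +kernel) ?_
    refine jn 163 (by decide +kernel) ?_
    refine jn 187 (by decide +kernel) ?_
    refine jn 257 (by decide +kernel) ?_
    refine jn 268 (by decide +kernel) ?_
    refine jn 269 (by decide +kernel) ?_
    refine jn 273 (by decide +kernel) ?_
    refine jn 279 (by decide +kernel) ?_
    refine jn 288 (by decide +kernel) ?_
    refine jn 289 (by decide +kernel) ?_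
    refine jn 307 (by decide +kernel) ?_
    refine jn 310 (by decide +kernel) ?_
    refine jn 318 (by decide +kernel) ?_
    refine jn 321 (by decide +kernel) ?_
    refine jn 324 (by decide +kernel) ?_
    refine jn 328 (by decide +kernel) ?_
    refine jn 330 (by decide +kernel) ?_
    refine jn 337 (by decide +kernel) ?_
    refine jn 346 (by decide +kernel) ?_
    refine jn 352 (by decide +kernel) ?_
    refine jn 358 (by decide +kernel) ?_
    refine jn 367 (by decide +kernel) ?_
    refine jn 374 (by decide +kernel) ?_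
    refine jn 376 (by decide +kernel) ?_
    refine jn 385 (by decide +kernel) ?_
    refine jn 394 (by decide +kernel) ?_
    refine jn 395 (by decide +kernel) ?_
    refine jn 415 (by decide +kernel) ?_
    refine jn 424 (by decide +kernel) ?_
    refine jn 430 (by decide +kernel) ?_
    refine jn 436 (by decide +kernel) ?_
    refine jn 445 (by decide +kernel) ?_
    refine jn 458 (by decide +kernel) ?_
    refine jn 470 (by decide +kernel) ?_
    refine jn 480 (by decide +kernel) ?_
    refine jn 483 (by decide +kernel) ?_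
    refine jn 491 (by decide +kernel) ?_
    refine jn 500 (by decide +kernel) ?_
    refine jn 501 (by decide +kernel) ?_
    refine jn 521 (by decide +kernel) ?_
    refine jn 530 (by decide +kernel) ?_
    refine jn 534 (by decide +kernel) ?_
    refine jn 540 (by decide +kernel) ?_
    refine jn 545 (by decide +kernel) ?_
    refine jn 558 (by decide +kernel) ?_
    refine jn 564 (by decide +kernel) ?_
    refine jn 576 (by decide +kernel) ?_
    refine jn 594 (by decide +kernel) ?_
    refine jn 615 (by decide +kernel) ?_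
    refine jn 632 (by decide +kernel) ?_
    refine jn 653 (by decide +kernel) ?_
    refine jn 681 (by decide +kernel) ?_
    refine jn 690 (by decide +kernel) ?_
    refine jn 717 (by decide +kernel) ?_
    refine jn 784 (by decide +kernel) ?_
    refine jn 798 (by decide +kernel) ?_
    refine jn 799 (by decide +kernel) ?_
    refine jn 802 (by decide +kernel) ?_
    refine jn 803 (by decide +kernel) ?_
    refine jn 810 (by decide +kernel) ?_
    refine jn 811 (by decide +kernel) ?_
    refine jn 820 (by decide +kernel) ?_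
    refine jn 826 (by decide +kernel) ?_
    refine jn 829 (by decide +kernel) ?_
    refine jn 834 (by decide +kernel) ?_
    refine jn 837 (by decide +kernel) ?_
    refine jn 846 (by decide +kernel) ?_
    refine jn 850 (by decide +kernel) ?_
    refine jn 855 (by decide +kernel) ?_
    refine jn 858 (by decide +kernel) ?_
    refine jn 861 (by decide +kernel) ?_
    refine jn 865 (by decide +kernel) ?_
    refine jn 877 (by decide +kernel) ?_
    refine jn 882 (by decide +kernel) ?_
    refine jn 883 (by decide +kernel) ?_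
    refine jn 889 (by decide +kernel) ?_
    refine jn 894 (by decide +kernel) ?_
    refine jn 895 (by decide +kernel) ?_
    refine jn 898 (by decide +kernel) ?_
    refine jn 904 (by decide +kernel) ?_
    refine jn 921 (by decide +kernel) ?_
    refine jn 922 (by decide +kernel) ?_
    refine jn 924 (by decide +kernel) ?_
    refine jn 930 (by decide +kernel) ?_
    refine jn 934 (by decide +kernel) ?_
    refine jn 948 (by decide +kernel) ?_
    refine jn 949 (by decide +kernel) ?_
    refine jn 952 (by decide +kernel) ?_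
    refine jn 953 (by decide +kernel) ?_
    refine jn 960 (by decide +kernel) ?_
    refine jn 961 (by decide +kernel) ?_
    refine jn 963 (by decide +kernel) ?_
    refine jn 970 (by decide +kernel) ?_
    refine jn 976 (by decide +kernel) ?_
    refine jn 979 (by decide +kernel) ?_
    refine jn 982 (by decide +kernel) ?_
    refine jn 984 (by decide +kernel) ?_
    refine jn 987 (by decide +kernel) ?_
    refine jn 990 (by decide +kernel) ?_
    refine jn 996 (by decide +kernel) ?_
    refine jn 1000 (by decide +kernel) ?_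
    refine jn 1005 (by decide +kernel) ?_
    refine jn 1008 (by decide +kernel) ?_
    refine jn 1011 (by decide +kernel) ?_
    refine jn 1014 (by decide +kernel) ?_
    refine jn 1015 (by decide +kernel) ?_
    refine jn 1018 (by decide +kernel) ?_
    refine jn 1027 (by decide +kernel) ?_
    refine jn 1029 (by decide +kernel) ?_
    refine jn 1032 (by decide +kernel) ?_
    refine jn 1033 (by decide +kernel) ?_
    refine jn 1039 (by decide +kernel) ?_
    refine jn 1044 (by decide +kernel) ?_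
    refine jn 1045 (by decide +kernel) ?_
    refine jn 1048 (by decide +kernel) ?_
    refine jn 1054 (by decide +kernel) ?_
    refine jn 1062 (by decide +kernel) ?_
    refine jn 1071 (by decide +kernel) ?_
    refine jn 1072 (by decide +kernel) ?_
    refine jn 1074 (by decide +kernel) ?_
    refine jn 1080 (by decide +kernel) ?_
    refine jn 1084 (by decide +kernel) ?_
    refine jn 1086 (by decide +kernel) ?_
    refine jn 1099 (by decide +kernel) ?_
    refine jn 1200 (by decide +kernel) ?_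
    refine jn 1300 (by decide +kernel) ?_
    refine jn 1360 (by decide +kernel) ?_
    refine jn 1365 (by decide +kernel) ?_
    refine jn 1366 (by decide +kernel) ?_
    refine jn 1371 (by decide +kernel) ?_
    refine jn 1383 (by decide +kernel) ?_
    refine jn 1401 (by decide +kernel) ?_
    refine jn 1405 (by decide +kernel) ?_
    refine jn 1406 (by decide +kernel) ?_
    refine jn 1425 (by decide +kernel) ?_
    refine jn 1438 (by decide +kernel) ?_
    refine jn 1447 (by decide +kernel) ?_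
    refine jn 1455 (by decide +kernel) ?_
    refine jn 1462 (by decide +kernel) ?_
    refine jn 1465 (by decide +kernel) ?_
    refine jn 1467 (by decide +kernel) ?_
    refine jn 1471 (by decide +kernel) ?_
    refine jn 1477 (by decide +kernel) ?_
    refine jn 1485 (by decide +kernel) ?_
    refine jn 1489 (by decide +kernel) ?_
    refine jn 1495 (by decide +kernel) ?_
    refine jn 1503 (by decide +kernel) ?_
    refine jn 1507 (by decide +kernel) ?_
    refine jn 1522 (by decide +kernel) ?_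
    refine jn 1533 (by decide +kernel) ?_
    refine jn 1534 (by decide +kernel) ?_
    refine jn 1545 (by decide +kernel) ?_
    refine jn 1554 (by decide +kernel) ?_
    refine jn 1558 (by decide +kernel) ?_
    refine jn 1566 (by decide +kernel) ?_
    refine jn 1572 (by decide +kernel) ?_
    refine jn 1578 (by decide +kernel) ?_
    refine jn 1579 (by decide +kernel) ?_
    refine jn 1582 (by decide +kernel) ?_
    refine jn 1587 (by decide +kernel) ?_
    refine jn 1596 (by decide +kernel) ?_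
    refine jn 1611 (by decide +kernel) ?_
    refine jn 1617 (by decide +kernel) ?_
    refine jn 1618 (by decide +kernel) ?_
    refine jn 1619 (by decide +kernel) ?_
    refine jn 1638 (by decide +kernel) ?_
    refine jn 1645 (by decide +kernel) ?_
    refine jn 1659 (by decide +kernel) ?_
    refine jn 1662 (by decide +kernel) ?_
    refine jn 1668 (by decide +kernel) ?_
    refine jn 1671 (by decide +kernel) ?_
    refine jn 1678 (by decide +kernel) ?_
    refine jn 1680 (by decide +kernel) ?_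
    refine jn 1683 (by decide +kernel) ?_
    refine jn 1686 (by decide +kernel) ?_
    refine jn 1690 (by decide +kernel) ?_
    refine jn 1695 (by decide +kernel) ?_
    refine jn 1698 (by decide +kernel) ?_
    refine jn 1702 (by decide +kernel) ?_
    refine jn 1708 (by decide +kernel) ?_
    refine jn 1713 (by decide +kernel) ?_
    refine jn 1717 (by decide +kernel) ?_
    refine jn 1725 (by decide +kernel) ?_
    refine jn 1735 (by decide +kernel) ?_
    refine jn 1746 (by decide +kernel) ?_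
    refine jn 1747 (by decide +kernel) ?_
    refine jn 1753 (by decide +kernel) ?_
    refine jn 1758 (by decide +kernel) ?_
    refine jn 1767 (by decide +kernel) ?_
    refine jn 1771 (by decide +kernel) ?_
    refine jn 1777 (by decide +kernel) ?_
    refine jn 1791 (by decide +kernel) ?_
    refine jn 1815 (by decide +kernel) ?_
    refine jn 1838 (by decide +kernel) ?_
    refine jn 1863 (by decide +kernel) ?_
    refine jn 1887 (by decide +kernel) ?_
    refine jn 1911 (by decide +kernel) ?_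
    refine jn 1931 (by decide +kernel) ?_
    refine jn 1962 (by decide +kernel) ?_
    refine jn 1983 (by decide +kernel) ?_
    refine jn 2004 (by decide +kernel) ?_
    refine jn 2043 (by decide +kernel) ?_
    refine jn 2072 (by decide +kernel) ?_
    refine jn 2090 (by decide +kernel) ?_
    refine jn 2091 (by decide +kernel) ?_
    refine jn 2114 (by decide +kernel) ?_
    refine jn 2119 (by decide +kernel) ?_
    refine jn 2137 (by decide +kernel) ?_
    refine jn 2152 (by decide +kernel) ?_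
    refine jn 2162 (by decide +kernel) ?_
    refine jn 2168 (by decide +kernel) ?_
    refine jn 2183 (by decide +kernel) ?_
    refine jn 2194 (by decide +kernel) ?_
    refine jn 2207 (by decide +kernel) ?_
    refine jn 2219 (by decide +kernel) ?_
    refine jn 2228 (by decide +kernel) ?_
    refine jn 2248 (by decide +kernel) ?_
    refine jn 2260 (by decide +kernel) ?_
    refine jn 2272 (by decide +kernel) ?_
    refine jn 2282 (by decide +kernel) ?_
    refine jn 2283 (by decide +kernel) ?_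
    refine jn 2302 (by decide +kernel) ?_
    refine jn 2318 (by decide +kernel) ?_
    refine jn 2335 (by decide +kernel) ?_
    refine jn 2342 (by decide +kernel) ?_
    refine jn 2354 (by decide +kernel) ?_
    refine jn 2362 (by decide +kernel) ?_
    refine jn 2377 (by decide +kernel) ?_
    refine jn 2394 (by decide +kernel) ?_
    refine jn 2412 (by decide +kernel) ?_
    refine jn 2427 (by decide +kernel) ?_
    refine jn 2460 (by decide +kernel) ?_
    refine jn 2486 (by decide +kernel) ?_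
    refine jn 2516 (by decide +kernel) ?_
    refine jn 2541 (by decide +kernel) ?_
    refine jn 2570 (by decide +kernel) ?_
    refine jn 2588 (by decide +kernel) ?_
    refine jn 2606 (by decide +kernel) ?_
    refine jn 2621 (by decide +kernel) ?_
    refine jn 2649 (by decide +kernel) ?_
    refine jn 2666 (by decide +kernel) ?_
    refine jn 2690 (by decide +kernel) ?_
    refine jn 2718 (by decide +kernel) ?_
    refine jn 2744 (by decide +kernel) ?_
    refine jn 2769 (by decide +kernel) ?_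
    refine jn 2804 (by decide +kernel) ?_
    refine jn 2822 (by decide +kernel) ?_
    refine jn 2831 (by decide +kernel) ?_
    refine jn 2832 (by decide +kernel) ?_
    refine jn 2848 (by decide +kernel) ?_
    refine jn 2867 (by decide +kernel) ?_
    refine jn 2878 (by decide +kernel) ?_
    refine jn 2903 (by decide +kernel) ?_
    refine jn 2911 (by decide +kernel) ?_
    refine jn 2912 (by decide +kernel) ?_
    refine jn 2948 (by decide +kernel) ?_
    refine jn 2951 (by decide +kernel) ?_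
    refine jn 2952 (by decide +kernel) ?_
    refine jn 2987 (by decide +kernel) ?_
    refine jn 2995 (by decide +kernel) ?_
    refine jn 3010 (by decide +kernel) ?_
    refine jn 3017 (by decide +kernel) ?_
    refine jn 3031 (by decide +kernel) ?_
    refine jn 3035 (by decide +kernel) ?_
    refine jn 3047 (by decide +kernel) ?_
    refine jn 3071 (by decide +kernel) ?_
    refine jn 3079 (by decide +kernel) ?_
    refine jn 3080 (by decide +kernel) ?_
    refine jn 3106 (by decide +kernel) ?_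
    refine jn 3115 (by decide +kernel) ?_
    refine jn 3137 (by decide +kernel) ?_
    refine jn 3157 (by decide +kernel) ?_
    refine jn 3173 (by decide +kernel) ?_
    refine jn 3191 (by decide +kernel) ?_
    refine jn 3193 (by decide +kernel) ?_
    refine jn 3215 (by decide +kernel) ?_
    refine jn 3229 (by decide +kernel) ?_
    refine jn 3251 (by decide +kernel) ?_
    refine jn 3254 (by decide +kernel) ?_
    refine jn 3279 (by decide +kernel) ?_
    refine jn 3294 (by decide +kernel) ?_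
    refine jn 3303 (by decide +kernel) ?_
    refine jn 3314 (by decide +kernel) ?_
    refine jn 3339 (by decide +kernel) ?_
    refine jn 3360 (by decide +kernel) ?_
    refine jn 3375 (by decide +kernel) ?_
    refine jn 3392 (by decide +kernel) ?_
    refine jn 3407 (by decide +kernel) ?_
    refine jn 3419 (by decide +kernel) ?_
    refine jn 3422 (by decide +kernel) ?_
    refine jn 3443 (by decide +kernel) ?_
    refine jn 3459 (by decide +kernel) ?_
    refine jn 3485 (by decide +kernel) ?_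
    refine jn 3503 (by decide +kernel) ?_
    refine jn 3515 (by decide +kernel) ?_
    refine jn 3519 (by decide +kernel) ?_
    refine jn 3531 (by decide +kernel) ?_
    refine jn 3548 (by decide +kernel) ?_
    refine jn 3575 (by decide +kernel) ?_
    refine jn 3593 (by decide +kernel) ?_
    refine jn 3611 (by decide +kernel) ?_
    refine jn 3615 (by decide +kernel) ?_
    refine jn 3629 (by decide +kernel) ?_
    refine jn 3636 (by decide +kernel) ?_
    refine jn 3651 (by decide +kernel) ?_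
    refine jn 3675 (by decide +kernel) ?_
    refine jn 3680 (by decide +kernel) ?_
    refine jn 3701 (by decide +kernel) ?_
    refine jn 3725 (by decide +kernel) ?_
    refine jn 3747 (by decide +kernel) ?_
    refine jn 3758 (by decide +kernel) ?_
    refine jn 3779 (by decide +kernel) ?_
    refine jn 3795 (by decide +kernel) ?_
    refine jn 3813 (by decide +kernel) ?_
    refine jn 3836 (by decide +kernel) ?_
    refine jn 3854 (by decide +kernel) ?_
    refine jn 3878 (by decide +kernel) ?_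
    refine jn 3891 (by decide +kernel) ?_
    refine jn 3903 (by decide +kernel) ?_
    refine jn 3918 (by decide +kernel) ?_
    refine jn 3939 (by decide +kernel) ?_
    refine jn 3966 (by decide +kernel) ?_
    refine jn 3990 (by decide +kernel) ?_
    refine jn 4016 (by decide +kernel) ?_
    refine jn 4038 (by decide +kernel) ?_
    refine jn 4052 (by decide +kernel) ?_
    refine jn 4089 (by decide +kernel) ?_
    refine jn 4112 (by decide +kernel) ?_
    refine jn 4133 (by decide +kernel) ?_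
    refine jn 4175 (by decide +kernel) ?_
    refine jn 4193 (by decide +kernel) ?_
    refine jn 4206 (by decide +kernel) ?_
    refine jn 4226 (by decide +kernel) ?_
    refine jn 4238 (by decide +kernel) ?_
    refine jn 4247 (by decide +kernel) ?_
    refine jn 4278 (by decide +kernel) ?_
    refine jn 4290 (by decide +kernel) ?_
    refine jn 4308 (by decide +kernel) ?_
    refine jn 4343 (by decide +kernel) ?_
    refine jn 4370 (by decide +kernel) ?_
    refine jn 4386 (by decide +kernel) ?_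
    refine jn 4406 (by decide +kernel) ?_
    refine jn 4430 (by decide +kernel) ?_
    refine jn 4442 (by decide +kernel) ?_
    refine jn 4466 (by decide +kernel) ?_
    refine jn 4500 (by decide +kernel) ?_
    refine jn 4529 (by decide +kernel) ?_
    refine jn 4557 (by decide +kernel) ?_
    refine jn 4590 (by decide +kernel) ?_
    refine jn 4613 (by decide +kernel) ?_
    refine jn 4646 (by decide +kernel) ?_
    refine jn 4670 (by decide +kernel) ?_
    refine jn 4698 (by decide +kernel) ?_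
    refine jn 4901 (by decide +kernel) ?_
    refine jn 4948 (by decide +kernel) ?_
    refine jn 4999 (by decide +kernel) ?_
    refine jn 5029 (by decide +kernel) ?_
    refine jn 5075 (by decide +kernel) ?_
    refine jn 5120 (by decide +kernel) ?_
    refine jn 5179 (by decide +kernel) ?_
    refine jn 5221 (by decide +kernel) ?_
    refine jn 5249 (by decide +kernel) ?_
    refine jn 5297 (by decide +kernel) ?_
    refine jn 5347 (by decide +kernel) ?_
    refine jn 5407 (by decide +kernel) ?_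
    refine jn 5441 (by decide +kernel) ?_
    refine jn 5474 (by decide +kernel) ?_
    refine jn 5545 (by decide +kernel) ?_
    refine jn 5593 (by decide +kernel) ?_
    refine jn 5633 (by decide +kernel) ?_
    refine jn 5669 (by decide +kernel) ?_
    refine jn 5711 (by decide +kernel) ?_
    refine jn 5770 (by decide +kernel) ?_
    refine jn 5825 (by decide +kernel) ?_
    refine jn 5882 (by decide +kernel) ?_
    refine jn 5926 (by decide +kernel) ?_
    refine jn 5987 (by decide +kernel) ?_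
    refine jn 6043 (by decide +kernel) ?_
    refine jn 6097 (by decide +kernel) ?_
    refine jn 6310 (by decide +kernel) ?_
    refine jn 6366 (by decide +kernel) ?_
    refine jn 6412 (by decide +kernel) ?_
    refine jn 6451 (by decide +kernel) ?_
    refine jn 6508 (by decide +kernel) ?_
    refine jn 6562 (by decide +kernel) ?_
    refine jn 6628 (by decide +kernel) ?_
    refine jn 6676 (by decide +kernel) ?_
    refine jn 6720 (by decide +kernel) ?_
    refine jn 6789 (by decide +kernel) ?_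
    refine jn 6838 (by decide +kernel) ?_
    refine jn 6904 (by decide +kernel) ?_
    refine jn 6984 (by decide +kernel) ?_
    refine jn 7020 (by decide +kernel) ?_
    refine jn 7071 (by decide +kernel) ?_
    refine jn 7108 (by decide +kernel) ?_
    refine jn 7167 (by decide +kernel) ?_
    refine jn 7212 (by decide +kernel) ?_
    refine jn 7279 (by decide +kernel) ?_
    refine jn 7339 (by decide +kernel) ?_
    refine jn 7392 (by decide +kernel) ?_
    refine jn 7446 (by decide +kernel) ?_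
    refine jn 7500 (by decide +kernel) ?_
    refine jn 7566 (by decide +kernel) ?_
    refine jn 7624 (by decide +kernel) ?_
    refine jn 7686 (by decide +kernel) ?_
    refine jn 7735 (by decide +kernel) ?_
    refine jn 7804 (by decide +kernel) ?_
    refine jn 7853 (by decide +kernel) ?_
    refine jn 7921 (by decide +kernel) ?_
    refine jn 7983 (by decide +kernel) ?_
    refine jn 8129 (by decide +kernel) ?_
    refine jn 8373 (by decide +kernel) ?_
    refine jn 8557 (by decide +kernel) ?_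
    refine jn 8661 (by decide +kernel) ?_
    refine jn 8756 (by decide +kernel) ?_
    refine jn 8835 (by decide +kernel) ?_
    refine jn 8937 (by decide +kernel) ?_
    refine jn 9009 (by decide +kernel) ?_
    refine jn 9083 (by decide +kernel) ?_
    refine jn 9151 (by decide +kernel) ?_
    refine jn 9217 (by decide +kernel) ?_
    refine jn 9276 (by decide +kernel) ?_
    refine jn 9413 (by decide +kernel) ?_
    refine jn 9683 (by decide +kernel) ?_
    refine jn 9867 (by decide +kernel) ?_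
    refine jn 9972 (by decide +kernel) ?_
    refine jn 10058 (by decide +kernel) ?_
    refine jn 10132 (by decide +kernel) ?_
    refine jn 10225 (by decide +kernel) ?_
    refine jn 10327 (by decide +kernel) ?_
    refine jn 10399 (by decide +kernel) ?_
    refine jn 10478 (by decide +kernel) ?_
    refine jn 10537 (by decide +kernel) ?_
    refine jn 10602 (by decide +kernel) ?_
    refine jn 10871 (by decide +kernel) ?_
    refine jn 11188 (by decide +kernel) ?_
    refine jn 11316 (by decide +kernel) ?_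
    refine jn 11440 (by decide +kernel) ?_
    refine jn 11558 (by decide +kernel) ?_
    refine jn 11648 (by decide +kernel) ?_
    refine jn 11752 (by decide +kernel) ?_
    refine jn 11834 (by decide +kernel) ?_
    refine jn 12134 (by decide +kernel) ?_
    refine jn 12345 (by decide +kernel) ?_
    refine jn 12428 (by decide +kernel) ?_
    refine jn 12576 (by decide +kernel) ?_
    refine jn 12689 (by decide +kernel) ?_
    refine jn 12784 (by decide +kernel) ?_
    refine jn 12847 (by decide +kernel) ?_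
    refine jn 12918 (by decide +kernel) ?_
    refine jn 12968 (by decide +kernel) ?_
    refine jn 13024 (by decide +kernel) ?_
    refine jn 13099 (by decide +kernel) ?_
    refine jn 13143 (by decide +kernel) ?_
    refine jn 13483 (by decide +kernel) ?_
    refine jn 13771 (by decide +kernel) ?_
    refine jn 13849 (by decide +kernel) ?_
    refine jn 13917 (by decide +kernel) ?_
    refine jn 14027 (by decide +kernel) ?_
    refine jn 14153 (by decide +kernel) ?_
    refine jn 14266 (by decide +kernel) ?_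
    refine jn 14348 (by decide +kernel) ?_
    refine jn 14421 (by decide +kernel) ?_
    refine jn 14731 (by decide +kernel) ?_
    refine jn 14977 (by decide +kernel) ?_
    refine jn 15285 (by decide +kernel) ?_
    refine jn 15391 (by decide +kernel) ?_
    refine jn 15492 (by decide +kernel) ?_
    refine jn 15609 (by decide +kernel) ?_
    refine jn 15759 (by decide +kernel) ?_
    refine jn 16282 (by decide +kernel) ?_
    exact je (by decide +kernel)
  · refine fin 1752 7195 T73_2 ?_
    refine jn 6 (by decide +kernel) ?_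
    refine jn 8 (by decide +kernel) ?_
    refine jn 11 (by decide +kernel) ?_
    refine jn 14 (by decide +kernel) ?_
    refine jn 16 (by decide +kernel) ?_
    refine jn 36 (by decide +kernel) ?_
    refine jn 46 (by decide +kernel) ?_
    refine jn 54 (by decide +kernel) ?_
    refine jn 62 (by decide +kernel) ?_
    refine jn 71 (by decide +kernel) ?_
    refine jn 89 (by decide +kernel) ?_
    refine jn 103 (by decide +kernel) ?_
    refine jn 108 (by decide +kernel) ?_
    refine jn 117 (by decide +kernel) ?_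
    refine jn 128 (by decide +kernel) ?_
    refine jn 129 (by decide +kernel) ?_
    refine jn 131 (by decide +kernel) ?_
    refine jn 133 (by decide +kernel) ?_
    refine jn 134 (by decide +kernel) ?_
    refine jn 137 (by decide +kernel) ?_
    refine jn 139 (by decide +kernel) ?_
    refine jn 148 (by decide +kernel) ?_
    refine jn 155 (by decide +kernel) ?_
    refine jn 164 (by decide +kernel) ?_
    refine jn 165 (by decide +kernel) ?_
    refine jn 168 (by decide +kernel) ?_
    refine jn 173 (by decide +kernel) ?_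
    refine jn 179 (by decide +kernel) ?_
    refine jn 184 (by decide +kernel) ?_
    refine jn 190 (by decide +kernel) ?_
    refine jn 200 (by decide +kernel) ?_
    refine jn 203 (by decide +kernel) ?_
    refine jn 210 (by decide +kernel) ?_
    refine jn 213 (by decide +kernel) ?_
    refine jn 220 (by decide +kernel) ?_
    refine jn 221 (by decide +kernel) ?_
    refine jn 222 (by decide +kernel) ?_
    refine jn 223 (by decide +kernel) ?_
    refine jn 229 (by decide +kernel) ?_
    refine jn 231 (by decide +kernel) ?_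
    refine jn 233 (by decide +kernel) ?_
    refine jn 245 (by decide +kernel) ?_
    refine jn 249 (by decide +kernel) ?_
    refine jn 260 (by decide +kernel) ?_
    refine jn 265 (by decide +kernel) ?_
    refine jn 277 (by decide +kernel) ?_
    refine jn 281 (by decide +kernel) ?_
    refine jn 292 (by decide +kernel) ?_
    refine jn 296 (by decide +kernel) ?_
    refine jn 310 (by decide +kernel) ?_
    refine jn 322 (by decide +kernel) ?_
    refine jn 337 (by decide +kernel) ?_
    refine jn 351 (by decide +kernel) ?_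
    refine jn 366 (by decide +kernel) ?_
    refine jn 378 (by decide +kernel) ?_
    refine jn 381 (by decide +kernel) ?_
    refine jn 383 (by decide +kernel) ?_
    refine jn 395 (by decide +kernel) ?_
    refine jn 408 (by decide +kernel) ?_
    refine jn 422 (by decide +kernel) ?_
    refine jn 437 (by decide +kernel) ?_
    refine jn 450 (by decide +kernel) ?_
    refine jn 461 (by decide +kernel) ?_
    refine jn 474 (by decide +kernel) ?_
    refine jn 485 (by decide +kernel) ?_
    refine jn 497 (by decide +kernel) ?_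
    refine jn 512 (by decide +kernel) ?_
    refine jn 524 (by decide +kernel) ?_
    refine jn 543 (by decide +kernel) ?_
    refine jn 558 (by decide +kernel) ?_
    refine jn 570 (by decide +kernel) ?_
    refine jn 586 (by decide +kernel) ?_
    refine jn 602 (by decide +kernel) ?_
    refine jn 618 (by decide +kernel) ?_
    refine jn 636 (by decide +kernel) ?_
    refine jn 655 (by decide +kernel) ?_
    refine jn 683 (by decide +kernel) ?_
    refine jn 743 (by decide +kernel) ?_
    refine jn 808 (by decide +kernel) ?_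
    refine jn 875 (by decide +kernel) ?_
    refine jn 931 (by decide +kernel) ?_
    refine jn 943 (by decide +kernel) ?_
    refine jn 967 (by decide +kernel) ?_
    refine jn 971 (by decide +kernel) ?_
    refine jn 995 (by decide +kernel) ?_
    refine jn 1003 (by decide +kernel) ?_
    refine jn 1012 (by decide +kernel) ?_
    refine jn 1027 (by decide +kernel) ?_
    refine jn 1048 (by decide +kernel) ?_
    refine jn 1066 (by decide +kernel) ?_
    refine jn 1076 (by decide +kernel) ?_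
    refine jn 1096 (by decide +kernel) ?_
    refine jn 1103 (by decide +kernel) ?_
    refine jn 1120 (by decide +kernel) ?_
    refine jn 1136 (by decide +kernel) ?_
    refine jn 1178 (by decide +kernel) ?_
    refine jn 1191 (by decide +kernel) ?_
    refine jn 1215 (by decide +kernel) ?_
    refine jn 1254 (by decide +kernel) ?_
    refine jn 1287 (by decide +kernel) ?_
    refine jn 1322 (by decide +kernel) ?_
    refine jn 1355 (by decide +kernel) ?_
    refine jn 1392 (by decide +kernel) ?_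
    refine jn 1409 (by decide +kernel) ?_
    refine jn 1457 (by decide +kernel) ?_
    refine jn 1488 (by decide +kernel) ?_
    refine jn 1535 (by decide +kernel) ?_
    refine jn 1568 (by decide +kernel) ?_
    refine jn 1605 (by decide +kernel) ?_
    refine jn 1653 (by decide +kernel) ?_
    refine jn 1716 (by decide +kernel) ?_
    refine jn 1792 (by decide +kernel) ?_
    refine jn 1836 (by decide +kernel) ?_
    refine jn 1914 (by decide +kernel) ?_
    refine jn 2019 (by decide +kernel) ?_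
    refine jn 2092 (by decide +kernel) ?_
    refine jn 2175 (by decide +kernel) ?_
    refine jn 2235 (by decide +kernel) ?_
    refine jn 2345 (by decide +kernel) ?_
    refine jn 2561 (by decide +kernel) ?_
    refine jn 2703 (by decide +kernel) ?_
    refine jn 2828 (by decide +kernel) ?_
    refine jn 2943 (by decide +kernel) ?_
    refine jn 3154 (by decide +kernel) ?_
    refine jn 3316 (by decide +kernel) ?_
    refine jn 3469 (by decide +kernel) ?_
    refine jn 3625 (by decide +kernel) ?_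
    refine jn 3809 (by decide +kernel) ?_
    refine jn 4074 (by decide +kernel) ?_
    refine jn 4387 (by decide +kernel) ?_
    refine jn 4545 (by decide +kernel) ?_
    refine jn 4860 (by decide +kernel) ?_
    refine jn 5043 (by decide +kernel) ?_
    refine jn 5161 (by decide +kernel) ?_
    refine jn 5420 (by decide +kernel) ?_
    refine jn 5708 (by decide +kernel) ?_
    refine jn 5875 (by decide +kernel) ?_
    refine jn 6348 (by decide +kernel) ?_
    refine jn 6543 (by decide +kernel) ?_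
    exact je (by decide +kernel)

end Pool.Agent.MP_2339ce_nt.NR
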