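import Pool.Agent.MP_2339ce_nt.Q2.NC.L6
import Pool.Agent.MP_2339ce_nt.Q2.NC.L8
import Pool.Agent.MP_2339ce_nt.Q2.NC.L9
import Pool.Agent.MP_2339ce_nt.Q2.CkI

/-! Block NR: runs. -/

set_option autoImplicit false
set_option maxRecDepth 100000

noncomputable section

namespace Pool.Agent.MP_2339ce_nt.NR

open Q2.Top

def T79_0 : Ph :=
  (.na 843 128 (.na 505 62 (.na 294 40 (.na 153 28 (.na 45 23 (.na 1 20 .ne (.nx 44 2097153 (.nr 43
  1048577 (.nr 2 15 .s1 (.nx 5 200 (.nx 4 199 (.nr 3 230 (.lg 0 true 1 31 31 13 0 240) (.l1 .sk))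
  (.l1 .sk)) (.nx 39 660563 (.nx 6 324 (.l1 (.ls 83 43 3251)) (.nr 38 623489 (.nr 34 262145 (.nr 30
  185365 (.nx 13 41286 (.lg 0 false 7 101 103 23 0 720720) (.nr 29 155873 (.nr 16 751 (.lg 0 true 3
  79 79 19 0 720) (.nx 28 416129 (.nr 17 2200 (.lg 2 true 1 73 73 13 55133 240) (.nx 20 82572 (.lg
  1 false 3 101 103 19 74853 720720) (.nr 27 131073 (.lg 2 false 7 89 103 23 31479 240240) .out)))
  .out)) .out)) (.nx 33 10323 (.lg 0 false 3 83 89 19 0 720) .out)) (.nx 37 2049 (.lg 0 false 3 83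
  83 19 0 720) .out)) .out)) (.nr 42 129 (.lg 0 true 3 71 71 19 0 720) .out)))) .out) .out)) (.na
  79 25 (.nx 78 2097153 (.nr 77 1048577 (.nr 46 19 .s1 (.nx 50 324 (.nx 48 199 (.nr 47 250 (.lg 0
  true 1 29 29 11 0 1680) (.l1 .sk)) (.nx 49 200 (.l1 .sk) (.l1 (.ls 79 37 2828)))) (.nr 76 524289
  (.nr 74 370729 (.nr 69 131073 (.nx 54 52017 (.lg 0 false 4 97 97 16 0 1680) (.nr 68 92683 (.nx 63
  524289 (.nr 58 1629 (.lg 0 true 4 79 79 16 0 48) (.nx 62 330282 (.lg 2 false 4 89 97 16 35357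
  1680) .out)) (.nr 67 129 (.lg 0 true 4 67 67 16 0 48) .out)) .out)) (.nx 73 20644 (.lg 0 false 4
  97 97 16 0 1680) .out)) (.nx 75 1292 (.lg 0 true 1 83 83 11 0 1680) .out)) .out))) .out) .out)
  (.na 120 26 (.nx 119 2097153 (.nr 118 1048577 (.nr 80 21 .s1 (.nx 82 199 (.nr 81 260 (.lg 0 true
  1 23 23 16 0 1680) (.l1 .sk)) (.nx 83 200 (.l1 .sk) (.nx 84 324 (.l1 (.ls 73 31 2602)) (.nr 117
  524289 (.nr 115 370729 (.nx 100 52017 (.nr 95 185365 (.lg 0 false 11 89 101 17 0 720720) (.nx 99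
  13005 (.lg 0 false 4 79 83 16 0 240) .out)) (.nr 114 92683 (.nr 109 1642 (.nx 104 524289 (.lg 0
  true 4 73 73 16 0 240) (.nr 108 129 (.lg 0 true 4 61 61 16 0 240) .out)) (.nx 113 330282 (.lg 2
  false 4 83 89 16 35357 1680) .out)) .out)) (.nx 116 1292 (.lg 0 true 1 73 73 16 0 120) .out))
  .out))))) .out) .out) (.nx 152 2097153 (.nr 151 1048577 (.nr 121 22 .s1 (.nx 124 200 (.nx 123 199
  (.nr 122 280 (.lg 0 false 1 31 31 11 0 65520) (.l1 .sk)) (.l1 .sk)) (.nx 125 324 (.l1 (.ls 79 43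
  2502)) (.nr 150 524289 (.nr 144 185365 (.nx 131 52017 (.lg 0 false 6 97 101 19 0 65520) (.nr 143
  92683 (.nr 137 833 (.lg 0 true 6 79 79 19 0 1872) (.nx 142 330282 (.lg 2 false 5 89 97 19 39452
  21840) .out)) .out)) (.nx 149 13005 (.nr 147 370729 (.lg 0 false 3 97 97 11 0 65520) (.nx 148
  1292 (.lg 0 true 1 79 79 11 0 624) .out)) .out)) .out)))) .out) .out)))) (.na 244 32 (.na 183 29
  (.nx 182 2097153 (.nr 181 1048577 (.nr 154 25 .s1 (.nx 156 199 (.nr 155 290 (.lg 0 false 1 31 31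
  13 0 5040) (.l1 .sk)) (.nx 157 200 (.l1 .sk) (.nx 158 324 (.l1 (.ls 83 41 2323)) (.nr 180 524289
  (.nx 169 52017 (.nr 161 131073 (.lg 0 false 3 97 101 19 0 5040) (.nx 168 20644 (.nr 166 370729
  (.nx 164 13005 (.lg 0 false 3 89 97 19 0 5040) (.nr 165 185365 (.lg 0 true 1 89 89 13 0 5040)
  .out)) (.nx 167 1292 (.lg 0 false 1 73 73 13 0 336) .out)) .out)) (.nr 179 92683 (.nx 175 524289
  (.nr 172 857 (.lg 0 true 3 79 79 19 0 5040) (.nx 174 330282 (.lg 2 false 2 101 103 19 38347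
  65520) .out)) (.nr 178 129 (.lg 0 true 3 71 71 19 0 1008) .out)) .out)) .out))))) .out) .out)
  (.na 216 31 (.nx 215 2097153 (.nr 214 1048577 (.nr 184 26 .s1 (.nx 188 324 (.nx 186 199 (.nr 185
  310 (.lg 0 false 1 19 19 13 0 240) (.l1 .sk)) (.nx 187 200 (.l1 .sk) (.l1 (.ls 73 31 2243))))
  (.nr 213 524289 (.nx 200 52017 (.nr 195 185365 (.lg 0 false 7 89 97 16 0 1680) (.nx 199 13005
  (.lg 0 false 4 89 89 16 0 240) .out)) (.nr 212 92683 (.nr 207 904 (.lg 0 true 7 73 73 16 0 168)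
  (.nx 211 330282 (.lg 2 false 4 83 89 16 36353 240) .out)) .out)) .out))) .out) .out) (.nx 243
  2097153 (.nr 242 1048577 (.nr 217 28 .s1 (.nx 231 52017 (.nx 219 199 (.nr 218 320 (.lg 0 false 1
  23 23 13 0 1680) (.l1 .sk)) (.nx 220 200 (.l1 .sk) (.nx 221 324 (.l1 (.ls 73 29 2099)) (.nr 230
  524289 (.nr 225 185365 (.lg 0 false 4 97 97 16 0 1680) (.nx 229 13005 (.lg 0 false 4 83 89 16 0
  48) .out)) .out)))) (.nr 241 92683 (.nr 236 927 (.lg 0 true 5 73 73 16 0 120) (.nx 240 330282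
  (.lg 2 false 4 89 89 16 35451 1680) .out)) .out))) .out) .out))) (.na 270 33 (.nx 269 2097153
  (.nr 268 1048577 (.nr 245 29 .s1 (.nx 249 324 (.nx 247 199 (.nr 246 330 (.lg 0 false 1 31 31 13 0
  1680) (.l1 .sk)) (.nx 248 200 (.l1 .sk) (.l1 (.ls 79 37 2033)))) (.nr 267 623489 (.nr 261 131073
  (.nx 252 52017 (.lg 0 false 3 97 101 19 0 5040) (.nr 260 92683 (.nx 256 330282 (.nr 254 950 (.lg
  0 true 2 71 71 13 0 48) (.lg 2 false 2 89 97 13 35357 1680)) (.nr 259 257 (.lg 0 true 3 71 71 19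
  0 144) .out)) .out)) (.nx 266 20644 (.nx 264 13005 (.lg 0 false 3 97 97 19 0 5040) (.nr 265
  185365 (.lg 0 false 1 83 83 13 0 1680) .out)) .out)) .out))) .out) .out) (.na 271 35 .ne (.nx 293
  2097153 (.nr 292 881745 (.nr 272 33 .s1 (.nx 288 208065 (.nx 274 199 (.nr 273 400 (.l1 (.ls 31 31
  1134)) (.l1 .sk)) (.nx 275 200 (.l1 .sk) (.nx 284 32769 (.nx 276 324 (.l1 (.ls 83 37 1859)) (.nr
  283 623489 (.nr 279 155873 (.lg 0 false 3 97 97 17 0 5040) (.nx 282 13005 (.lg 0 false 3 97 101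
  17 0 5040) .out)) .out)) (.nr 287 65537 (.nr 285 1152 (.lg 0 false 1 73 73 16 0 840) (.lg 2 false
  2 89 97 17 39722 1680)) .out)))) (.nr 291 257 (.lg 0 true 3 73 73 17 0 2520) .out))) .out)
  .out))))) (.na 395 50 (.na 342 46 (.na 320 43 (.nx 319 2097153 (.nr 318 881745 (.nr 295 38 .s1
  (.nx 299 324 (.nx 297 199 (.nr 296 430 (.l1 (.ls 37 37 993)) (.l1 .sk)) (.nx 298 200 (.l1 .sk)
  (.l1 (.ls 83 41 1627)))) (.nr 317 623489 (.nr 313 155873 (.nx 310 262145 (.nx 302 32769 (.lg 0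
  false 3 89 101 29 0 5040) (.nr 309 65537 (.nr 303 1216 (.lg 0 true 1 79 79 19 0 240) (.nx 308
  208065 (.nr 304 27556 (.lg 2 false 1 83 89 19 17026 1680) (.nx 307 131073 (.nr 305 55110 (.lg 2
  true 1 97 101 19 33421 240240) (.nx 306 52017 (.lg 0 true 1 79 83 19 0 1680) .out)) .out)) .out))
  .out)) (.nr 312 217 (.lg 0 true 2 73 73 23 0 240) .out)) (.nx 316 13005 (.lg 0 false 3 101 107 29
  0 720720) .out)) .out))) .out) .out) (.nx 341 2097153 (.nr 340 881745 (.nr 321 41 .s1 (.nx 330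
  26009 (.nx 322 324 (.l1 (.ls 73 31 2444)) (.nr 329 623489 (.lg 0 false 7 89 97 16 0 1680) .out))
  (.nr 339 77937 (.nr 334 460 (.lg 0 true 4 67 67 16 0 48) (.nx 338 208065 (.lg 2 false 4 83 83 16
  59486 240) .out)) .out))) .out) .out)) (.na 361 47 (.nx 360 2097153 (.nr 359 881745 (.nr 343 44
  .s1 (.nx 350 26009 (.nx 344 324 (.l1 (.ls 73 43 2285)) (.nr 349 741457 (.lg 0 false 5 97 101 19 0
  5040) .out)) (.nr 358 65537 (.nr 355 470 (.lg 0 true 5 71 71 19 0 240) (.nx 357 208065 (.lg 2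
  true 2 83 83 13 50046 48) .out)) .out))) .out) .out) (.na 378 49 (.nx 377 2097153 (.nr 376 881745
  (.nr 362 45 .s1 (.nx 363 324 (.l1 (.ls 73 29 2236)) (.nr 375 741457 (.nx 367 26009 (.lg 0 false 4
  97 97 16 0 1680) (.nr 374 65537 (.nr 371 490 (.lg 0 true 4 67 67 16 0 48) (.nx 373 208065 (.lg 2
  true 2 89 89 16 50046 1680) .out)) .out)) .out))) .out) .out) (.nx 394 2097153 (.nr 393 881745
  (.nr 379 47 .s1 (.nx 380 324 (.l1 (.ls 71 31 2145)) (.nr 392 741457 (.nx 384 26009 (.lg 0 false 4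
  89 89 16 0 1680) (.nr 391 65537 (.nr 388 500 (.lg 0 true 4 67 67 16 0 336) (.nx 390 208065 (.lg 2
  false 2 79 79 16 50046 336) .out)) .out)) .out))) .out) .out)))) (.na 454 56 (.na 415 52 (.nx 414
  2097153 (.nr 413 881745 (.nr 396 48 .s1 (.nx 405 26009 (.nx 397 324 (.l1 (.ls 71 41 2102)) (.nr
  404 741457 (.lg 0 false 7 83 89 23 0 1680) .out)) (.nr 412 65537 (.nr 409 520 (.lg 0 true 4 67 67
  23 0 240) (.nx 411 208065 (.lg 2 false 2 79 79 19 50046 240) .out)) .out))) .out) .out) (.na 437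
  53 (.nx 436 2097153 (.nr 435 881745 (.nr 416 51 .s1 (.nx 420 324 (.nx 418 199 (.nr 417 530 (.l1
  (.ls 29 37 764)) (.l1 .sk)) (.nx 419 200 (.l1 .sk) (.l1 (.ls 79 41 1252)))) (.nr 434 741457 (.nr
  430 155873 (.nx 426 208065 (.nx 423 32769 (.lg 0 false 3 89 97 23 0 65520) (.nr 425 46342 (.nr
  424 1423 (.lg 0 true 1 71 71 19 0 624) (.lg 2 true 1 89 89 19 28123 21840)) .out)) (.nr 429 257
  (.lg 0 true 3 71 71 23 0 1872) .out)) (.nx 433 16385 (.lg 0 false 3 97 101 23 0 65520) .out))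
  .out))) .out) .out) (.nx 453 2097153 (.nr 452 881745 (.nr 438 52 .s1 (.nx 444 26009 (.nx 439 324
  (.l1 (.ls 73 29 1983)) (.nr 443 741457 (.lg 0 false 4 101 101 16 0 5040) .out)) (.nr 451 65537
  (.nr 448 560 (.lg 0 true 4 71 71 16 0 48) (.nx 450 208065 (.lg 2 false 2 83 83 16 50046 48)
  .out)) .out))) .out) .out))) (.na 473 58 (.nx 472 2097153 (.nr 471 881745 (.nr 455 55 .s1 (.nx
  458 200 (.nx 457 199 (.nr 456 580 (.l1 (.ls 37 37 710)) (.l1 .sk)) (.l1 .sk)) (.nx 465 32769 (.nx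
  463 16385 (.nx 459 324 (.l1 (.ls 83 37 1163)) (.nr 462 741457 (.lg 0 false 3 97 101 29 0 65520)
  .out)) (.nr 464 155873 (.lg 0 false 1 89 97 23 0 1680) .out)) (.nr 470 46342 (.nx 467 208065 (.nr
  466 1522 (.lg 0 true 1 73 73 23 0 336) (.lg 2 false 1 89 89 23 28123 1680)) (.nr 469 257 (.lg 0
  true 2 71 73 29 0 336) .out)) .out)))) .out) .out) (.na 488 61 (.nx 487 2097153 (.nr 486 881745
  (.nr 474 57 .s1 (.nx 479 26009 (.nx 475 324 (.l1 (.ls 73 41 1812)) (.nr 478 741457 (.lg 0 false 3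
  97 97 19 0 5040) .out)) (.nr 485 65537 (.nr 482 610 (.lg 0 true 3 71 71 19 0 144) (.nx 484 208065
  (.lg 2 true 2 83 83 13 50046 1680) .out)) .out))) .out) .out) (.nx 504 2097153 (.nr 503 881745
  (.nr 489 60 .s1 (.nx 495 26009 (.nx 490 324 (.l1 (.ls 73 29 1723)) (.nr 494 741457 (.lg 0 false 4
  89 89 16 0 1680) .out)) (.nr 502 65537 (.nr 499 620 (.lg 0 true 4 67 67 16 0 48) (.nx 501 208065
  (.lg 2 false 2 83 83 16 50046 1680) .out)) .out))) .out) .out)))))) (.na 688 98 (.na 594 80 (.na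
  539 65 (.na 520 64 (.nx 519 2097153 (.nr 518 881745 (.nr 506 61 .s1 (.nx 511 26009 (.nx 507 324
  (.l1 (.ls 73 41 1696)) (.nr 510 741457 (.lg 0 false 3 89 89 19 0 720) .out)) (.nr 517 65537 (.nr
  514 640 (.lg 0 true 3 71 71 19 0 144) (.nx 516 208065 (.lg 2 true 2 83 83 17 50046 240) .out))
  .out))) .out) .out) (.nx 538 2097153 (.nr 537 2097153 (.nr 521 63 .s1 (.nx 525 324 (.nx 523 199
  (.nr 522 650 (.l1 (.ls 29 31 621)) (.l1 .sk)) (.nx 524 200 (.l1 .sk) (.l1 (.ls 79 31 1018))))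
  (.nr 536 1048577 (.nx 528 20644 (.lg 0 false 3 89 97 23 0 720) (.nr 535 110219 (.nr 533 46342
  (.nr 531 513 (.lg 0 true 3 71 71 23 0 144) (.nx 532 208065 (.lg 2 true 1 83 83 17 44641 240)
  .out)) (.nx 534 32769 (.lg 0 false 1 79 79 17 0 48) .out)) .out)) .out))) .out) .out)) (.na 559
  70 (.nx 558 2097153 (.nr 557 2097153 (.nr 540 64 .s1 (.nx 544 324 (.nx 542 199 (.nr 541 699 (.l1
  (.ls 29 29 612)) (.l1 .sk)) (.nx 543 200 (.l1 .sk) (.l1 (.ls 83 31 1002)))) (.nr 556 1048577 (.nx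
  548 20644 (.lg 0 false 4 89 97 23 0 21840) (.nr 555 65537 (.nr 553 32769 (.nr 551 513 (.lg 0 true
  3 73 73 19 0 4680) (.nx 552 131073 (.lg 2 true 1 83 83 17 31622 21840) .out)) (.nx 554 32769 (.lg
  0 false 1 73 73 17 0 1560) .out)) .out)) .out))) .out) .out) (.na 578 79 (.nx 577 2097153 (.nr
  576 2097153 (.nr 560 69 .s1 (.nx 562 199 (.nr 561 789 (.l1 (.ls 29 37 568)) (.l1 .sk)) (.nx 563
  200 (.l1 .sk) (.nx 568 20644 (.nx 564 324 (.l1 (.ls 79 41 931)) (.nr 567 1048577 (.lg 0 false 3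
  89 97 29 0 5040) .out)) (.nr 575 65537 (.nr 573 32769 (.nr 571 513 (.lg 0 true 3 73 73 29 0 5040)
  (.nx 572 131073 (.lg 2 false 1 79 79 23 31622 1680) .out)) (.nx 574 32769 (.lg 0 false 1 73 73 23
  0 1680) .out)) .out))))) .out) .out) (.nx 593 2097153 (.nr 592 2097153 (.nr 579 78 .s1 (.nx 585
  20644 (.nx 580 324 (.l1 (.ls 73 29 1331)) (.nr 584 1048577 (.lg 0 false 4 89 89 16 0 1680) .out))
  (.nr 591 65537 (.nr 588 513 (.lg 0 true 3 61 61 16 0 72) (.nx 590 131073 (.lg 2 false 2 83 83 16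
  63052 1680) .out)) .out))) .out) .out)))) (.na 643 91 (.na 612 86 (.nx 611 2097153 (.nr 610
  2097153 (.nr 595 79 .s1 (.nx 603 20644 (.nx 597 199 (.nr 596 859 (.l1 (.ls 31 31 498)) (.l1 .sk))
  (.nx 598 200 (.l1 .sk) (.nx 599 324 (.l1 (.ls 83 37 815)) (.nr 602 1048577 (.lg 0 false 3 89 101
  31 0 5040) .out)))) (.nr 609 65537 (.nr 605 513 (.lg 0 true 2 71 73 29 0 240) (.nx 608 131073
  (.nr 606 32769 (.lg 2 false 1 83 83 23 31622 1680) (.nx 607 32769 (.lg 0 false 1 73 79 23 0 240)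
  .out)) .out)) .out))) .out) .out) (.na 627 89 (.nx 626 2097153 (.nr 625 2097153 (.nr 613 85 .s1
  (.nx 618 20644 (.nx 614 324 (.l1 (.ls 79 37 1223)) (.nr 617 1048577 (.lg 0 false 3 89 89 19 0
  144) .out)) (.nr 624 65537 (.nr 621 513 (.lg 0 true 3 67 67 19 0 144) (.nx 623 131073 (.lg 2 true
  2 79 79 19 63052 48) .out)) .out))) .out) .out) (.nx 642 2097153 (.nr 641 2097153 (.nr 628 88 .s1
  (.nx 634 20644 (.nx 629 324 (.l1 (.ls 71 29 1182)) (.nr 633 1048577 (.lg 0 false 4 83 83 16 0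
  5040) .out)) (.nr 640 65537 (.nr 637 513 (.lg 0 true 3 61 61 16 0 72) (.nx 639 131073 (.lg 2
  false 2 73 73 16 63052 48) .out)) .out))) .out) .out))) (.na 659 92 (.nx 658 2097153 (.nr 657
  2097153 (.nr 644 90 .s1 (.nx 645 324 (.l1 (.ls 79 31 1156)) (.nr 656 1048577 (.nx 648 20644 (.lg
  0 false 3 89 97 23 0 65520) (.nr 655 65537 (.nr 651 513 (.lg 0 true 3 67 71 23 0 6552) (.nx 654
  131073 (.nr 652 32769 (.lg 2 false 1 73 73 19 31622 2184) (.nx 653 32769 (.lg 0 false 1 71 71 19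
  0 2184) .out)) .out)) .out)) .out))) .out) .out) (.na 674 94 (.nx 673 2097153 (.nr 672 2097153
  (.nr 660 91 .s1 (.nx 665 20644 (.nx 661 324 (.l1 (.ls 79 41 1144)) (.nr 664 1048577 (.lg 0 false
  3 89 97 19 0 720) .out)) (.nr 671 65537 (.nr 669 32769 (.nr 667 513 (.lg 0 true 2 71 71 19 0 48)
  (.nx 668 131073 (.lg 2 true 1 79 79 19 31622 240) .out)) (.nx 670 32769 (.lg 0 false 1 73 73 19 0
  240) .out)) .out))) .out) .out) (.nx 687 2097153 (.nr 686 2097153 (.nr 675 93 .s1 (.nx 680 20644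
  (.nx 676 324 (.l1 (.ls 73 37 1119)) (.nr 679 1048577 (.lg 0 false 3 83 83 19 0 144) .out)) (.nr
  685 65537 (.nr 682 513 (.lg 0 true 2 61 61 19 0 48) (.nx 684 131073 (.lg 2 false 2 73 73 19 63052
  48) .out)) .out))) .out) .out))))) (.na 761 112 (.na 717 103 (.na 702 100 (.nx 701 2097153 (.nr
  700 2097153 (.nr 689 97 .s1 (.nx 694 20644 (.nx 690 324 (.l1 (.ls 73 37 1074)) (.nr 693 1048577
  (.lg 0 false 3 83 83 23 0 5040) .out)) (.nr 699 65537 (.nr 696 513 (.lg 0 true 2 61 61 23 0 336)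
  (.nx 698 131073 (.lg 2 false 2 73 73 23 63052 336) .out)) .out))) .out) .out) (.nx 716 2097153
  (.nr 715 2097153 (.nr 703 100 .s1 (.nx 704 324 (.l1 (.ls 79 37 1052)) (.nr 714 1048577 (.nx 711
  131073 (.nx 707 20644 (.lg 0 false 3 83 83 29 0 720) (.nr 710 65537 (.nr 708 32769 (.lg 0 false 1
  79 79 23 0 240) (.nx 709 32769 (.lg 0 false 1 71 71 23 0 240) .out)) .out)) (.nr 713 513 (.lg 0
  true 2 67 67 29 0 240) .out)) .out))) .out) .out)) (.na 731 104 (.nx 730 2097153 (.nr 729 2097153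
  (.nr 718 103 .s1 (.nx 719 324 (.l1 (.ls 71 23 1022)) (.nr 728 1048577 (.nx 723 20644 (.lg 0 false
  4 83 83 17 0 1680) (.nr 727 65537 (.nr 725 513 (.lg 0 true 2 61 61 16 0 48) (.nx 726 131073 (.lg
  2 true 1 79 79 16 63052 1680) .out)) .out)) .out))) .out) .out) (.na 748 106 (.nx 747 2097153
  (.nr 746 2097153 (.nr 732 104 .s1 (.nx 744 131073 (.nx 740 20644 (.nx 734 199 (.nr 733 1059 (.l1
  (.ls 31 31 383)) (.l1 .sk)) (.nx 735 200 (.l1 .sk) (.nx 736 324 (.l1 (.ls 83 37 627)) (.nr 739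
  1048577 (.lg 0 false 3 89 101 31 0 65520) .out)))) (.nr 743 65537 (.nr 741 32769 (.lg 0 true 1 83
  89 29 0 3120) (.nx 742 32769 (.lg 0 false 1 73 73 29 0 3120) .out)) .out)) (.nr 745 513 (.lg 0
  true 1 71 71 29 0 624) .out))) .out) .out) (.nx 760 2097153 (.nr 759 2097153 (.nr 749 106 .s1
  (.nx 754 20644 (.nx 750 324 (.l1 (.ls 73 31 993)) (.nr 753 1048577 (.lg 0 false 3 83 83 23 0 144)
  .out)) (.nr 758 65537 (.nr 756 513 (.lg 0 true 2 61 61 19 0 48) (.nx 757 131073 (.lg 2 true 1 79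
  79 19 63052 48) .out)) .out))) .out) .out)))) (.na 804 122 (.na 778 115 (.nx 777 2097153 (.nr 776
  2097153 (.nr 762 112 .s1 (.nx 766 324 (.nx 764 199 (.nr 763 1149 (.l1 (.ls 31 31 356)) (.l1 .sk))
  (.nx 765 200 (.l1 .sk) (.l1 (.ls 83 31 583)))) (.nr 775 1048577 (.nx 769 20644 (.lg 0 false 3 89
  97 31 0 5040) (.nr 774 65537 (.nx 772 131073 (.nr 770 32769 (.lg 0 true 1 83 89 29 0 1680) (.nx
  771 32769 (.lg 0 false 1 73 73 29 0 1680) .out)) (.nr 773 513 (.lg 0 true 1 71 71 29 0 336)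
  .out)) .out)) .out))) .out) .out) (.na 791 116 (.nx 790 2097153 (.nr 789 2097153 (.nr 779 115 .s1
  (.nx 780 324 (.l1 (.ls 79 31 915)) (.nr 788 1048577 (.nx 783 20644 (.lg 0 false 3 83 89 19 0 360)
  (.nr 787 65537 (.nr 785 513 (.lg 0 true 2 67 67 19 0 240) (.nx 786 131073 (.lg 2 false 1 79 79 17
  63052 120) .out)) .out)) .out))) .out) .out) (.nx 803 2097153 (.nr 802 2097153 (.nr 792 116 .s1
  (.nx 793 324 (.l1 (.ls 79 37 907)) (.nr 801 1048577 (.nx 796 20644 (.lg 0 false 3 89 97 23 0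
  5040) (.nr 800 65537 (.nr 798 513 (.lg 0 true 2 67 67 23 0 48) (.nx 799 131073 (.lg 2 true 1 83
  83 19 63052 48) .out)) .out)) .out))) .out) .out))) (.na 817 124 (.nx 816 2097153 (.nr 815
  2097153 (.nr 805 122 .s1 (.nx 806 324 (.l1 (.ls 73 31 863)) (.nr 814 1048577 (.nx 809 20644 (.lg
  0 false 3 83 83 23 0 144) (.nr 813 65537 (.nr 811 513 (.lg 0 true 2 59 59 19 0 48) (.nx 812
  131073 (.lg 2 true 1 79 79 19 63052 48) .out)) .out)) .out))) .out) .out) (.na 830 125 (.nx 829
  2097153 (.nr 828 2097153 (.nr 818 124 .s1 (.nx 819 324 (.l1 (.ls 79 29 849)) (.nr 827 1048577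
  (.nx 822 20644 (.lg 0 false 3 89 97 29 0 5040) (.nr 826 65537 (.nr 824 513 (.lg 0 true 2 67 67 23
  0 48) (.nx 825 131073 (.lg 2 true 1 83 83 19 63052 1680) .out)) .out)) .out))) .out) .out) (.nx
  842 2097153 (.nr 841 2097153 (.nr 831 125 .s1 (.nx 836 20644 (.nx 832 324 (.l1 (.ls 71 29 842))
  (.nr 835 1048577 (.lg 0 false 3 79 79 17 0 360) .out)) (.nr 840 65537 (.nr 838 513 (.lg 0 true 2
  59 59 17 0 240) (.nx 839 131073 (.lg 2 true 1 73 73 16 63052 240) .out)) .out))) .out)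
  .out))))))) (.na 1058 179 (.na 954 157 (.na 885 139 (.na 857 130 (.na 856 129 (.nx 855 2097153
  (.nr 854 2097153 (.nr 844 128 .s1 (.nx 849 20644 (.nx 845 324 (.l1 (.ls 73 31 823)) (.nr 848
  1482912 (.lg 0 false 3 89 89 29 0 5040) .out)) (.nr 853 65537 (.nr 851 1025 (.lg 0 true 2 71 71
  23 0 48) (.nx 852 131073 (.lg 2 true 1 83 83 19 63052 1680) .out)) .out))) .out) .out) .ne) (.na
  870 131 (.nx 869 1048577 (.nr 868 1482912 (.nr 858 130 .s1 (.nx 860 199 (.nr 859 1309 (.l1 (.ls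
  29 31 307)) (.l1 .sk)) (.nx 861 200 (.l1 .sk) (.nx 864 16385 (.lg 0 false 3 89 89 31 0 9360) (.nr
  867 65537 (.nx 865 131073 (.lg 0 false 1 89 89 29 0 3120) (.nr 866 1025 (.lg 0 true 1 71 71 29 0
  3120) .out)) .out))))) .out) .out) (.na 884 137 (.nx 883 1048577 (.nr 882 1482912 (.nr 871 131
  .s1 (.nx 873 199 (.nr 872 1369 (.l1 (.ls 17 19 305)) (.l1 .sk)) (.nx 874 200 (.l1 .sk) (.nx 878
  32769 (.lg 0 false 4 83 83 17 0 1680) (.nr 881 16385 (.nr 879 1025 (.lg 0 false 1 61 61 16 0 24)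
  (.nx 880 131073 (.lg 2 true 1 53 53 16 12724 24) .out)) .out))))) .out) .out) (.lg 0 false 1 0 0
  16 0 24)))) (.na 927 149 (.na 899 140 (.nx 898 1048577 (.nr 897 1482912 (.nr 886 139 .s1 (.nx 893
  32769 (.nx 888 199 (.nr 887 1399 (.l1 (.ls 17 19 287)) (.l1 .sk)) (.nx 889 200 (.l1 .sk) (.lg 0
  false 4 79 79 17 0 48))) (.nr 896 16385 (.nr 894 1025 (.lg 0 false 1 61 61 16 0 24) (.nx 895
  131073 (.lg 2 true 1 47 47 16 12724 24) .out)) .out))) .out) .out) (.na 914 145 (.nx 913 1048577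
  (.nr 912 1482912 (.nr 900 140 .s1 (.nx 903 200 (.nx 902 199 (.nr 901 1449 (.l1 (.ls 31 31 285))
  (.l1 .sk)) (.l1 .sk)) (.nx 906 16385 (.lg 0 false 3 83 97 37 0 5040) (.nr 911 65537 (.nr 909
  16385 (.nx 907 131073 (.lg 0 true 1 79 79 31 0 1680) (.nr 908 1025 (.lg 0 true 1 71 71 31 0 1680)
  .out)) (.nx 910 32769 (.lg 0 false 1 73 73 31 0 1680) .out)) .out)))) .out) .out) (.nx 926
  1048577 (.nr 925 1482912 (.nr 915 145 .s1 (.nx 923 131073 (.nx 917 199 (.nr 916 1489 (.l1 (.ls 23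
  19 276)) (.l1 .sk)) (.nx 918 200 (.l1 .sk) (.nx 921 16385 (.lg 0 false 3 89 97 23 0 5040) (.nr
  922 65537 (.lg 0 false 1 97 97 17 0 5040) .out)))) (.nr 924 1025 (.lg 0 true 1 71 71 17 0 120)
  .out))) .out) .out))) (.na 928 151 (.lg 0 false 1 0 0 16 0 24) (.na 941 155 (.nx 940 1048577 (.nr
  939 1482912 (.nr 929 151 .s1 (.nx 932 200 (.nx 931 199 (.nr 930 1549 (.l1 (.ls 16 17 265)) (.l1
  .sk)) (.l1 .sk)) (.nx 935 32769 (.lg 0 false 3 79 79 17 0 72) (.nr 938 16385 (.nr 936 1025 (.lg 0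
  false 1 59 59 16 0 24) (.nx 937 131073 (.lg 2 false 1 47 47 16 12724 24) .out)) .out)))) .out)
  .out) (.nx 953 1048577 (.nr 952 1482912 (.nr 942 155 .s1 (.nx 948 16385 (.nx 944 199 (.nr 943
  1568 (.l1 (.ls 23 19 258)) (.l1 .sk)) (.nx 945 200 (.l1 .sk) (.lg 0 false 3 83 89 23 0 720)))
  (.nr 951 65537 (.nx 949 131073 (.lg 0 true 1 83 83 17 0 120) (.nr 950 1025 (.lg 0 true 1 67 67 17
  0 120) .out)) .out))) .out) .out))))) (.na 1005 167 (.na 980 160 (.na 967 158 (.nx 966 1048577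
  (.nr 965 1482912 (.nr 955 157 .s1 (.nx 957 199 (.nr 956 1578 (.l1 (.ls 17 17 255)) (.l1 .sk))
  (.nx 958 200 (.l1 .sk) (.nx 961 32769 (.lg 0 false 3 79 79 17 0 72) (.nr 964 16385 (.nr 962 1025
  (.lg 0 false 1 61 61 16 0 24) (.nx 963 131073 (.lg 2 false 1 47 47 16 12724 24) .out)) .out)))))
  .out) .out) (.nx 979 1048577 (.nr 978 1482912 (.nr 968 158 .s1 (.nx 974 32769 (.nx 970 199 (.nr
  969 1598 (.l1 (.ls 17 29 253)) (.l1 .sk)) (.nx 971 200 (.l1 .sk) (.lg 0 false 3 83 83 23 0 144)))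
  (.nr 977 16385 (.nr 975 1025 (.lg 0 false 1 61 61 19 0 48) (.nx 976 131073 (.lg 2 true 1 53 53 19
  12724 48) .out)) .out))) .out) .out)) (.na 991 161 (.nx 990 1048577 (.nr 989 1482912 (.nr 981 160
  .s1 (.nx 984 200 (.nx 983 199 (.nr 982 1608 (.l1 (.ls 31 29 250)) (.l1 .sk)) (.l1 .sk)) (.nr 987
  65537 (.nx 985 131073 (.lg 0 true 1 83 83 29 0 240) (.nr 986 1025 (.lg 0 true 1 71 71 29 0 240)
  .out)) (.nx 988 16385 (.lg 0 false 1 89 89 29 0 240) .out)))) .out) .out) (.na 1004 163 (.nx 1003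
  1048577 (.nr 1002 1482912 (.nr 992 161 .s1 (.nx 998 16385 (.nx 994 199 (.nr 993 1628 (.l1 (.ls 19
  19 248)) (.l1 .sk)) (.nx 995 200 (.l1 .sk) (.lg 0 false 3 89 89 19 0 5040))) (.nr 1001 65537 (.nx
  999 131073 (.lg 0 true 1 83 83 17 0 168) (.nr 1000 1025 (.lg 0 true 1 67 67 17 0 168) .out))
  .out))) .out) .out) (.lg 0 false 1 0 0 16 0 24)))) (.na 1032 173 (.na 1006 169 (.lg 0 false 1 0 0
  16 0 24) (.na 1019 172 (.nx 1018 1048577 (.nr 1017 1482912 (.nr 1007 169 .s1 (.nx 1013 32769 (.nx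
  1009 199 (.nr 1008 1718 (.l1 (.ls 17 19 237)) (.l1 .sk)) (.nx 1010 200 (.l1 .sk) (.lg 0 false 3
  79 79 19 0 936))) (.nr 1016 16385 (.nr 1014 1025 (.lg 0 false 1 61 61 17 0 312) (.nx 1015 131073
  (.lg 2 false 1 47 47 17 12724 312) .out)) .out))) .out) .out) (.nx 1031 1048577 (.nr 1030 1482912
  (.nr 1020 172 .s1 (.nx 1023 200 (.nx 1022 199 (.nr 1021 1728 (.l1 (.ls 29 23 233)) (.l1 .sk))
  (.l1 .sk)) (.nx 1028 131073 (.nx 1026 16385 (.lg 0 false 3 89 89 29 0 5040) (.nr 1027 65537 (.lg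
  0 true 1 83 83 23 0 48) .out)) (.nr 1029 1025 (.lg 0 true 1 67 67 23 0 48) .out)))) .out) .out)))
  (.na 1033 175 (.lg 0 false 1 0 0 16 0 24) (.na 1045 178 (.nx 1044 1048577 (.nr 1043 1482912 (.nr
  1034 175 .s1 (.nx 1036 199 (.nr 1035 1778 (.l1 (.ls 23 23 229)) (.l1 .sk)) (.nx 1037 200 (.l1
  .sk) (.nx 1039 16385 (.lg 0 false 2 83 83 23 0 1680) (.nr 1042 65537 (.nx 1040 131073 (.lg 0 true
  1 79 79 19 0 840) (.nr 1041 1025 (.lg 0 true 1 61 61 19 0 840) .out)) .out))))) .out) .out) (.nx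
  1057 1048577 (.nr 1056 1482912 (.nr 1046 178 .s1 (.nx 1049 200 (.nx 1048 199 (.nr 1047 1788 (.l1
  (.ls 19 23 225)) (.l1 .sk)) (.l1 .sk)) (.nx 1052 32769 (.lg 0 false 3 79 79 23 0 144) (.nr 1055
  16385 (.nr 1053 1025 (.lg 0 false 1 61 61 19 0 48) (.nx 1054 131073 (.lg 2 true 1 47 47 19 12724
  48) .out)) .out)))) .out) .out)))))) (.na 1145 203 (.na 1095 191 (.na 1060 182 (.na 1059 181 (.lg
  0 false 1 0 0 16 0 24) (.lg 0 false 1 0 0 16 0 24)) (.na 1072 184 (.nx 1071 1048577 (.nr 1070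
  1048577 (.nr 1061 182 .s1 (.nx 1064 200 (.nx 1063 199 (.nr 1062 1838 (.l1 (.ls 29 31 220)) (.l1
  .sk)) (.l1 .sk)) (.nr 1067 65537 (.nx 1065 131073 (.lg 0 false 1 83 83 31 0 21840) (.nr 1066 1025
  (.lg 0 true 1 67 67 31 0 4368) .out)) (.nx 1069 16385 (.lg 0 false 2 83 83 37 0 21840) .out))))
  .out) .out) (.na 1083 188 (.nx 1082 1048577 (.nr 1081 1048577 (.nr 1073 184 .s1 (.nx 1076 200
  (.nx 1075 199 (.nr 1074 1878 (.l1 (.ls 19 29 218)) (.l1 .sk)) (.l1 .sk)) (.nr 1079 65537 (.nx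
  1077 131073 (.lg 0 true 1 89 89 31 0 1680) (.nr 1078 1025 (.lg 0 true 1 71 71 31 0 48) .out))
  (.nx 1080 16385 (.lg 0 false 1 97 97 31 0 1680) .out)))) .out) .out) (.nx 1094 1048577 (.nr 1093
  1048577 (.nr 1084 188 .s1 (.nx 1091 131073 (.nx 1086 199 (.nr 1085 1908 (.l1 (.ls 23 23 213))
  (.l1 .sk)) (.nx 1087 200 (.l1 .sk) (.nr 1088 65537 (.lg 0 false 1 83 83 23 0 720) (.nx 1090 16385
  (.lg 0 false 2 83 83 29 0 720) .out)))) (.nr 1092 1025 (.lg 0 true 1 67 67 23 0 48) .out))) .out)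
  .out)))) (.na 1120 197 (.na 1096 193 (.lg 0 false 1 0 0 16 0 24) (.na 1109 196 (.nx 1108 1048577
  (.nr 1107 1048577 (.nr 1097 193 .s1 (.nx 1100 200 (.nx 1099 199 (.nr 1098 1958 (.l1 (.ls 17 17
  208)) (.l1 .sk)) (.l1 .sk)) (.nx 1103 32769 (.lg 0 false 3 73 73 17 0 72) (.nr 1106 16385 (.nr
  1104 1025 (.lg 0 false 1 59 59 16 0 24) (.nx 1105 131073 (.lg 2 true 1 43 43 16 12724 24) .out))
  .out)))) .out) .out) (.nx 1119 1048577 (.nr 1118 1048577 (.nr 1110 196 .s1 (.nx 1116 131073 (.nx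
  1112 199 (.nr 1111 1968 (.l1 (.ls 29 29 205)) (.l1 .sk)) (.nx 1113 200 (.l1 .sk) (.nr 1114 65537
  (.lg 0 true 1 79 79 29 0 336) (.nx 1115 16385 (.lg 0 false 1 83 83 29 0 336) .out)))) (.nr 1117
  1025 (.lg 0 true 1 61 61 29 0 336) .out))) .out) .out))) (.na 1121 199 (.lg 0 false 1 0 0 16 0
  24) (.na 1134 200 (.nx 1133 1048577 (.nr 1132 1048577 (.nr 1122 199 .s1 (.nx 1125 200 (.nx 1124
  199 (.nr 1123 1998 (.l1 (.ls 16 17 201)) (.l1 .sk)) (.l1 .sk)) (.nx 1128 32769 (.lg 0 true 3 71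
  71 17 0 72) (.nr 1131 16385 (.lg 0 false 3 67 67 17 0 72) .out)))) .out) .out) (.nx 1144 1048577
  (.nr 1143 1048577 (.nr 1135 200 .s1 (.nx 1137 199 (.nr 1136 2028 (.l1 (.ls 31 29 201)) (.l1 .sk))
  (.nx 1138 200 (.l1 .sk) (.nx 1141 131073 (.nr 1139 65537 (.lg 0 true 1 79 83 31 0 240) (.nx 1140
  16385 (.lg 0 false 1 89 89 31 0 1680) .out)) (.nr 1142 1025 (.lg 0 true 1 67 67 31 0 240)
  .out))))) .out) .out))))) (.na 1203 217 (.na 1180 211 (.na 1156 206 (.nx 1155 1048577 (.nr 1154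
  1048577 (.nr 1146 203 .s1 (.nx 1149 200 (.nx 1148 199 (.nr 1147 2058 (.l1 (.ls 23 19 198)) (.l1
  .sk)) (.l1 .sk)) (.nx 1152 131073 (.nr 1150 65537 (.lg 0 false 1 83 83 19 0 1680) (.nx 1151 16385
  (.lg 0 false 1 83 83 19 0 168) .out)) (.nr 1153 1025 (.lg 0 true 1 61 61 19 0 168) .out)))) .out)
  .out) (.na 1169 208 (.nx 1168 1048577 (.nr 1167 1048577 (.nr 1157 206 .s1 (.nx 1160 200 (.nx 1159
  199 (.nr 1158 2078 (.l1 (.ls 17 23 195)) (.l1 .sk)) (.l1 .sk)) (.nx 1163 32769 (.lg 0 false 3 73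
  73 29 0 144) (.nr 1166 16385 (.lg 0 true 3 71 71 29 0 144) .out)))) .out) .out) (.nx 1179 1048577
  (.nr 1178 1048577 (.nr 1170 208 .s1 (.nx 1173 200 (.nx 1172 199 (.nr 1171 2108 (.l1 (.ls 37 29
  193)) (.l1 .sk)) (.l1 .sk)) (.nr 1176 65537 (.nx 1174 131073 (.lg 0 true 1 89 97 31 0 65520) (.nr
  1175 1025 (.lg 0 true 1 71 71 31 0 624) .out)) (.nx 1177 16385 (.lg 0 false 1 97 97 31 0 65520)
  .out)))) .out) .out))) (.na 1181 212 (.lg 0 false 1 0 0 16 0 24) (.na 1192 215 (.nx 1191 1048577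
  (.nr 1190 1048577 (.nr 1182 212 .s1 (.nx 1184 199 (.nr 1183 2148 (.l1 (.ls 23 23 189)) (.l1 .sk))
  (.nx 1185 200 (.l1 .sk) (.nr 1188 65537 (.nx 1186 131073 (.lg 0 false 1 83 83 23 0 1680) (.nr
  1187 1025 (.lg 0 true 1 61 61 23 0 48) .out)) (.nx 1189 16385 (.lg 0 false 1 83 83 23 0 48)
  .out))))) .out) .out) (.nx 1202 1048577 (.nr 1201 1048577 (.nr 1193 215 .s1 (.nx 1199 131073 (.nx
  1195 199 (.nr 1194 2168 (.l1 (.ls 23 19 187)) (.l1 .sk)) (.nx 1196 200 (.l1 .sk) (.nr 1197 65537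
  (.lg 0 true 1 79 79 19 0 120) (.nx 1198 16385 (.lg 0 false 1 83 83 19 0 120) .out)))) (.nr 1200
  1025 (.lg 0 true 1 61 61 19 0 120) .out))) .out) .out)))) (.na 1226 227 (.na 1214 223 (.nx 1213
  1048577 (.nr 1212 1048577 (.nr 1204 217 .s1 (.nx 1207 200 (.nx 1206 199 (.nr 1205 2228 (.l1 (.ls
  29 19 185)) (.l1 .sk)) (.l1 .sk)) (.nx 1210 131073 (.nr 1208 65537 (.lg 0 true 1 79 79 19 0 168)
  (.nx 1209 16385 (.lg 0 false 1 83 83 19 0 168) .out)) (.nr 1211 1025 (.lg 0 true 1 61 61 19 0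
  168) .out)))) .out) .out) (.na 1215 224 (.lg 0 false 1 0 0 16 0 24) (.nx 1225 1048577 (.nr 1224
  1048577 (.nr 1216 224 .s1 (.nx 1218 199 (.nr 1217 2268 (.l1 (.ls 31 29 179)) (.l1 .sk)) (.nx 1219
  200 (.l1 .sk) (.nx 1222 131073 (.nr 1220 65537 (.lg 0 true 1 83 89 31 0 5040) (.nx 1221 16385
  (.lg 0 false 1 89 89 31 0 5040) .out)) (.nr 1223 1025 (.lg 0 true 1 67 67 31 0 336) .out)))))
  .out) .out))) (.na 1237 229 (.nx 1236 1048577 (.nr 1235 1048577 (.nr 1227 227 .s1 (.nx 1230 200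
  (.nx 1229 199 (.nr 1228 2288 (.l1 (.ls 17 17 177)) (.l1 .sk)) (.l1 .sk)) (.nx 1233 32769 (.lg 0
  false 3 73 73 19 0 72) (.nr 1234 16385 (.lg 0 false 1 73 73 17 0 24) .out)))) .out) .out) (.na
  1238 230 (.lg 0 false 1 0 0 16 0 24) (.nx 1248 1048577 (.nr 1247 1048577 (.nr 1239 230 .s1 (.nx
  1242 200 (.nx 1241 199 (.nr 1240 2318 (.l1 (.ls 19 31 175)) (.l1 .sk)) (.l1 .sk)) (.nr 1245 65537
  (.nx 1243 131073 (.lg 0 true 1 79 79 31 0 240) (.nr 1244 1025 (.lg 0 true 1 61 61 31 0 240)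
  .out)) (.nx 1246 16385 (.lg 0 false 1 83 83 31 0 240) .out)))) .out) .out))))))))

def T79_1 : Ph :=
  (.na 322 197 (.na 186 151 (.na 119 128 (.na 56 116 (.na 14 109 (.na 13 108 (.nx 12 1664512 (.nr
  11 1048577 (.nr 1 104 .s1 (.nx 8 104033 (.nx 3 144 (.nr 2 918 (.l1 (.ls 29 29 202)) (.l1 .sk))
  (.nx 4 145 (.l1 .sk) (.nx 6 13005 (.lg 0 false 2 89 89 29 0 9360) (.nr 7 65537 (.lg 0 false 1 89
  89 23 0 9360) .out)))) (.nr 10 513 (.lg 0 true 2 67 67 29 0 1872) .out))) .out) .out) (.lg 0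
  false 1 0 0 16 0 24)) (.na 28 111 (.nx 27 1664512 (.nr 26 1048577 (.nr 15 109 .s1 (.nx 21 20644
  (.nx 17 144 (.nr 16 944 (.l1 (.ls 17 17 193)) (.l1 .sk)) (.nx 18 145 (.l1 .sk) (.lg 0 false 3 79
  79 16 0 144))) (.nr 25 32769 (.nr 23 513 (.lg 0 true 2 59 59 16 0 144) (.nx 24 104033 (.lg 2 true
  1 61 61 16 16531 144) .out)) .out))) .out) .out) (.na 42 113 (.nx 41 1664512 (.nr 40 1048577 (.nr
  29 111 .s1 (.nx 32 145 (.nx 31 144 (.nr 30 961 (.l1 (.ls 19 19 189)) (.l1 .sk)) (.l1 .sk)) (.nx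
  35 20644 (.lg 0 false 3 83 83 19 0 144) (.nr 39 32769 (.nr 37 513 (.lg 0 true 2 61 61 17 0 144)
  (.nx 38 104033 (.lg 2 true 1 71 71 17 16531 144) .out)) .out)))) .out) .out) (.nx 55 1664512 (.nr
  54 1048577 (.nr 43 113 .s1 (.nx 46 145 (.nx 45 144 (.nr 44 986 (.l1 (.ls 19 17 186)) (.l1 .sk))
  (.l1 .sk)) (.nx 49 20644 (.lg 0 false 3 79 79 16 0 144) (.nr 53 32769 (.nr 51 513 (.lg 0 true 2
  59 59 16 0 144) (.nx 52 104033 (.lg 2 true 1 67 67 16 16531 144) .out)) .out)))) .out) .out))))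
  (.na 81 120 (.na 69 117 (.nx 68 1664512 (.nr 67 1048577 (.nr 57 116 .s1 (.nx 64 104033 (.nx 62
  13005 (.nx 59 144 (.nr 58 995 (.l1 (.ls 23 23 181)) (.l1 .sk)) (.nx 60 145 (.l1 .sk) (.lg 0 false
  2 89 89 23 0 720))) (.nr 63 65537 (.lg 0 false 1 89 89 19 0 720) .out)) (.nr 66 513 (.lg 0 true 2
  67 67 23 0 144) .out))) .out) .out) (.nx 80 1664512 (.nr 79 1048577 (.nr 70 117 .s1 (.nx 77
  104033 (.nx 72 144 (.nr 71 1020 (.l1 (.ls 31 23 180)) (.l1 .sk)) (.nx 73 145 (.l1 .sk) (.nr 74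
  65537 (.lg 0 true 1 89 97 23 0 9360) (.nx 76 13005 (.lg 0 false 2 89 97 29 0 9360) .out)))) (.nr
  78 513 (.lg 0 true 1 71 71 23 0 1872) .out))) .out) .out)) (.na 93 123 (.nx 92 1664512 (.nr 91
  1048577 (.nr 82 120 .s1 (.nx 89 104033 (.nx 84 144 (.nr 83 1046 (.l1 (.ls 29 31 175)) (.l1 .sk))
  (.nx 85 145 (.l1 .sk) (.nx 87 13005 (.lg 0 false 2 83 83 31 0 720) (.nr 88 65537 (.lg 0 true 1 83
  83 29 0 720) .out)))) (.nr 90 513 (.lg 0 true 1 67 67 29 0 720) .out))) .out) .out) (.na 106 125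
  (.nx 105 1664512 (.nr 104 1048577 (.nr 94 123 .s1 (.nx 96 144 (.nr 95 1063 (.l1 (.ls 19 19 171))
  (.l1 .sk)) (.nx 97 145 (.l1 .sk) (.nx 100 20644 (.lg 0 false 3 83 83 19 0 144) (.nr 103 32769
  (.nr 101 513 (.lg 2 false 1 67 67 17 974349 144) (.nx 102 104033 (.lg 2 true 1 67 67 17 16531
  144) .out)) .out))))) .out) .out) (.nx 118 1664512 (.nr 117 1048577 (.nr 107 125 .s1 (.nx 113
  20644 (.nx 109 144 (.nr 108 1088 (.l1 (.ls 19 19 168)) (.l1 .sk)) (.nx 110 145 (.l1 .sk) (.lg 0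
  false 3 79 79 17 0 720))) (.nr 116 32769 (.nr 114 513 (.lg 0 false 1 67 67 16 0 720) (.nx 115
  104033 (.lg 2 true 1 67 67 16 16531 720) .out)) .out))) .out) .out))))) (.na 143 139 (.na 121 135
  (.na 120 131 .ne (.lg 0 false 1 0 0 16 0 24)) (.na 122 136 (.lg 0 false 1 0 0 16 0 24) (.na 133
  137 (.nx 132 832257 (.nr 131 1048577 (.nr 123 136 .s1 (.nx 127 13005 (.nx 124 257 (.l1 (.ls 73 31
  488)) (.nr 126 741457 (.lg 0 false 2 83 83 29 0 144) .out)) (.nr 130 16385 (.nr 128 1025 (.lg 0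
  true 1 67 67 29 0 144) (.nx 129 104033 (.lg 2 false 1 67 67 29 13178 144) .out)) .out))) .out)
  .out) (.nx 142 832257 (.nr 141 1048577 (.nr 134 137 .s1 (.nx 137 13005 (.nx 135 257 (.l1 (.ls 67
  19 485)) (.nr 136 741457 (.lg 0 true 1 79 79 16 0 144) .out)) (.nr 140 16385 (.nr 138 1025 (.lg 0
  false 1 67 67 16 0 720) (.nx 139 104033 (.lg 2 true 1 53 53 16 13178 144) .out)) .out))) .out)
  .out)))) (.na 154 145 (.na 144 144 (.lg 0 false 1 0 0 16 0 24) (.nx 153 832257 (.nr 152 1048577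
  (.nr 145 144 .s1 (.nx 150 104033 (.nx 148 13005 (.nx 146 257 (.l1 (.ls 79 37 461)) (.nr 147
  741457 (.lg 0 false 1 89 89 31 0 720) .out)) (.nr 149 16385 (.lg 0 true 1 73 83 31 0 720) .out))
  (.nr 151 1025 (.lg 0 true 1 71 73 31 0 144) .out))) .out) .out)) (.na 165 148 (.nx 164 832257
  (.nr 163 1048577 (.nr 155 145 .s1 (.nx 159 13005 (.nx 156 257 (.l1 (.ls 79 23 458)) (.nr 158
  741457 (.lg 0 false 2 83 89 19 0 720) .out)) (.nr 162 16385 (.nr 160 1025 (.lg 0 true 1 71 71 17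
  0 720) (.nx 161 104033 (.lg 2 false 1 67 67 17 13178 720) .out)) .out))) .out) .out) (.na 176 149
  (.nx 175 832257 (.nr 174 1048577 (.nr 166 148 .s1 (.nx 167 257 (.l1 (.ls 73 29 449)) (.nr 173
  741457 (.nx 169 13005 (.lg 0 false 2 83 83 23 0 720) (.nr 172 16385 (.nr 170 1025 (.lg 0 true 1
  67 67 23 0 144) (.nx 171 104033 (.lg 2 false 1 61 61 23 13178 144) .out)) .out)) .out))) .out)
  .out) (.nx 185 832257 (.nr 184 1048577 (.nr 177 149 .s1 (.nx 180 13005 (.nx 178 257 (.l1 (.ls 67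
  19 446)) (.nr 179 741457 (.lg 0 true 1 79 79 16 0 720) .out)) (.nr 183 16385 (.nr 181 1025 (.lg 0
  false 1 61 61 16 0 144) (.nx 182 104033 (.lg 2 true 1 53 53 16 13178 144) .out)) .out))) .out)
  .out)))))) (.na 257 173 (.na 227 160 (.na 197 156 (.na 187 153 (.lg 0 false 1 0 0 16 0 24) (.nx
  196 832257 (.nr 195 1048577 (.nr 188 153 .s1 (.nx 189 257 (.l1 (.ls 79 29 434)) (.nr 194 741457
  (.nx 190 13005 (.lg 0 false 1 89 89 23 0 720) (.nr 193 16385 (.nx 191 104033 (.lg 0 true 1 79 79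
  23 0 720) (.nr 192 1025 (.lg 0 true 1 71 71 23 0 144) .out)) .out)) .out))) .out) .out)) (.na 207
  157 (.nx 206 832257 (.nr 205 1048577 (.nr 198 156 .s1 (.nx 199 257 (.l1 (.ls 73 37 426)) (.nr 204
  741457 (.nx 200 13005 (.lg 0 false 1 83 83 31 0 1872) (.nr 203 16385 (.nr 201 1025 (.lg 0 true 1
  67 67 31 0 1872) (.nx 202 104033 (.lg 2 false 1 61 61 31 13178 1872) .out)) .out)) .out))) .out)
  .out) (.na 217 159 (.nx 216 832257 (.nr 215 1048577 (.nr 208 157 .s1 (.nx 209 257 (.l1 (.ls 61 19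
  423)) (.nr 214 741457 (.nx 210 13005 (.lg 0 true 1 79 79 16 0 720) (.nr 213 16385 (.nr 211 1025
  (.lg 0 false 1 61 61 16 0 720) (.nx 212 104033 (.lg 2 true 1 53 53 16 13178 720) .out)) .out))
  .out))) .out) .out) (.nx 226 832257 (.nr 225 1048577 (.nr 218 159 .s1 (.nx 221 13005 (.nx 219 257
  (.l1 (.ls 71 23 418)) (.nr 220 741457 (.lg 0 true 1 83 83 17 0 720) .out)) (.nr 224 16385 (.nr
  222 1025 (.lg 0 false 1 67 67 17 0 720) (.nx 223 104033 (.lg 2 true 1 59 59 17 13178 144) .out))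
  .out))) .out) .out)))) (.na 238 164 (.na 237 163 (.nx 236 832257 (.nr 235 1048577 (.nr 228 160
  .s1 (.nx 229 257 (.l1 (.ls 79 31 415)) (.nr 234 741457 (.nx 230 13005 (.lg 0 false 1 83 89 29 0
  720) (.nr 233 16385 (.nx 231 104033 (.lg 0 true 1 73 79 29 0 720) (.nr 232 1025 (.lg 0 true 1 71
  71 29 0 720) .out)) .out)) .out))) .out) .out) (.lg 0 false 1 0 0 16 0 24)) (.na 248 167 (.nx 247
  832257 (.nr 246 1048577 (.nr 239 164 .s1 (.nx 242 13005 (.nx 240 257 (.l1 (.ls 73 29 405)) (.nr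
  241 741457 (.lg 0 false 1 83 83 23 0 144) .out)) (.nr 245 16385 (.nr 243 1025 (.lg 0 true 1 67 67
  23 0 144) (.nx 244 104033 (.lg 2 false 1 61 61 23 13178 144) .out)) .out))) .out) .out) (.na 249
  169 (.lg 0 false 1 0 0 16 0 24) (.nx 256 832257 (.nr 255 1048577 (.nr 250 169 .s1 (.nx 251 257
  (.l1 (.ls 71 23 393)) (.nr 254 741457 (.nr 252 16385 (.lg 0 false 1 83 83 17 0 1872) (.nx 253
  13005 (.lg 0 true 1 83 83 17 0 9360) .out)) .out))) .out) .out))))) (.na 285 183 (.na 266 180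
  (.na 265 179 (.nx 264 832257 (.nr 263 1048577 (.nr 258 173 .s1 (.nx 259 257 (.l1 (.ls 61 19 384))
  (.nr 262 741457 (.nr 260 16385 (.lg 0 false 1 79 79 16 0 720) (.nx 261 13005 (.lg 0 true 1 73 73
  16 0 144) .out)) .out))) .out) .out) (.lg 0 false 1 0 0 16 0 24)) (.na 276 181 (.nx 275 832257
  (.nr 274 1048577 (.nr 267 180 .s1 (.nx 272 104033 (.nx 268 257 (.l1 (.ls 79 37 369)) (.nr 271
  741457 (.nx 269 13005 (.lg 0 false 1 83 89 37 0 720) (.nr 270 16385 (.lg 0 true 1 73 83 37 0 720)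
  .out)) .out)) (.nr 273 1025 (.lg 0 true 1 71 73 37 0 720) .out))) .out) .out) (.na 284 182 (.nx
  283 832257 (.nr 282 1048577 (.nr 277 181 .s1 (.nx 278 257 (.l1 (.ls 67 19 367)) (.nr 281 741457
  (.nr 279 16385 (.lg 0 false 1 79 79 16 0 144) (.nx 280 13005 (.lg 0 true 1 79 79 16 0 720) .out))
  .out))) .out) .out) .ne))) (.na 303 191 (.na 293 185 (.nx 292 832257 (.nr 291 1048577 (.nr 286
  183 .s1 (.nx 287 257 (.l1 (.ls 59 23 363)) (.nr 290 741457 (.nr 288 16385 (.lg 0 false 1 83 83 17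
  0 144) (.nx 289 13005 (.lg 0 true 1 83 83 17 0 720) .out)) .out))) .out) .out) (.nx 302 832257
  (.nr 301 1048577 (.nr 294 185 .s1 (.nx 297 13005 (.nx 295 257 (.l1 (.ls 73 23 360)) (.nr 296
  741457 (.lg 0 true 1 83 83 19 0 720) .out)) (.nr 300 16385 (.nr 298 1025 (.lg 0 true 1 67 67 19 0
  720) (.nx 299 104033 (.lg 2 false 1 61 61 19 13178 720) .out)) .out))) .out) .out)) (.na 304 193
  (.lg 0 false 1 0 0 16 0 24) (.na 312 195 (.nx 311 832257 (.nr 310 1048577 (.nr 305 193 .s1 (.nx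
  306 257 (.l1 (.ls 61 19 345)) (.nr 309 741457 (.nr 307 16385 (.lg 0 false 1 79 79 16 0 720) (.nx
  308 13005 (.lg 0 true 1 73 73 16 0 144) .out)) .out))) .out) .out) (.nx 321 832257 (.nr 320
  1048577 (.nr 313 195 .s1 (.nx 314 257 (.l1 (.ls 73 31 341)) (.nr 319 741457 (.nx 315 13005 (.lg 0
  true 1 83 83 29 0 9360) (.nr 318 16385 (.nr 316 1025 (.lg 0 true 1 67 67 29 0 9360) (.nx 317
  104033 (.lg 2 false 1 61 61 29 13178 9360) .out)) .out)) .out))) .out) .out))))))) (.na 458 243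
  (.na 391 221 (.na 361 208 (.na 331 200 (.na 330 199 (.nx 329 832257 (.nr 328 1048577 (.nr 323 197
  .s1 (.nx 324 257 (.l1 (.ls 67 19 338)) (.nr 327 741457 (.nr 325 16385 (.lg 0 false 1 79 79 16 0
  720) (.nx 326 13005 (.lg 0 true 1 79 79 16 0 720) .out)) .out))) .out) .out) (.lg 0 false 1 0 0
  16 0 24)) (.na 341 204 (.nx 340 832257 (.nr 339 1048577 (.nr 332 200 .s1 (.nx 333 257 (.l1 (.ls
  71 31 333)) (.nr 338 741457 (.nx 334 13005 (.lg 0 false 1 79 79 29 0 720) (.nr 337 16385 (.nr 335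
  1025 (.lg 0 true 1 61 61 29 0 720) (.nx 336 104033 (.lg 2 false 1 59 59 29 13178 720) .out))
  .out)) .out))) .out) .out) (.na 351 205 (.nx 350 832257 (.nr 349 1048577 (.nr 342 204 .s1 (.nx
  343 257 (.l1 (.ls 71 37 326)) (.nr 348 741457 (.nx 344 13005 (.lg 0 false 1 79 79 31 0 144) (.nr
  347 16385 (.nr 345 1025 (.lg 0 true 1 61 61 31 0 144) (.nx 346 104033 (.lg 2 true 1 59 59 31
  13178 144) .out)) .out)) .out))) .out) .out) (.nx 360 832257 (.nr 359 1048577 (.nr 352 205 .s1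
  (.nx 353 257 (.l1 (.ls 73 23 325)) (.nr 358 741457 (.nx 354 13005 (.lg 0 false 1 83 83 19 0 720)
  (.nr 357 16385 (.nr 355 1025 (.lg 0 true 1 67 67 19 0 720) (.nx 356 104033 (.lg 2 false 1 61 61
  19 13178 720) .out)) .out)) .out))) .out) .out)))) (.na 372 212 (.na 371 211 (.nx 370 832257 (.nr
  369 1048577 (.nr 362 208 .s1 (.nx 367 104033 (.nx 365 13005 (.nx 363 257 (.l1 (.ls 73 31 320))
  (.nr 364 741457 (.lg 0 false 1 89 89 31 0 9360) .out)) (.nr 366 16385 (.lg 0 true 1 73 79 31 0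
  9360) .out)) (.nr 368 1025 (.lg 0 true 1 71 71 31 0 9360) .out))) .out) .out) (.lg 0 false 1 0 0
  16 0 24)) (.na 382 216 (.nx 381 832257 (.nr 380 1048577 (.nr 373 212 .s1 (.nx 374 257 (.l1 (.ls
  71 29 314)) (.nr 379 741457 (.nx 375 13005 (.lg 0 false 1 79 79 23 0 144) (.nr 378 16385 (.nr 376
  1025 (.lg 0 true 1 61 61 23 0 144) (.nx 377 104033 (.lg 2 false 1 61 61 23 13178 720) .out))
  .out)) .out))) .out) .out) (.na 383 219 (.lg 0 false 1 0 0 16 0 24) (.nx 390 832257 (.nr 389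
  1048577 (.nr 384 219 .s1 (.nx 385 257 (.l1 (.ls 61 23 304)) (.nr 388 741457 (.nr 386 16385 (.lg 0
  false 1 83 83 19 0 720) (.nx 387 13005 (.lg 0 true 1 79 79 19 0 720) .out)) .out))) .out)
  .out))))) (.na 421 232 (.na 402 225 (.na 401 223 (.nx 400 832257 (.nr 399 1048577 (.nr 392 221
  .s1 (.nx 395 13005 (.nx 393 257 (.l1 (.ls 73 29 301)) (.nr 394 741457 (.lg 0 true 1 83 83 23 0
  9360) .out)) (.nr 398 16385 (.nr 396 1025 (.lg 0 true 1 67 67 23 0 1872) (.nx 397 104033 (.lg 2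
  false 1 61 61 23 13178 1872) .out)) .out))) .out) .out) (.lg 0 false 1 0 0 16 0 24)) (.na 412 227
  (.nx 411 832257 (.nr 410 1048577 (.nr 403 225 .s1 (.nx 406 13005 (.nx 404 257 (.l1 (.ls 71 29
  296)) (.nr 405 741457 (.lg 0 false 1 79 79 29 0 720) .out)) (.nr 409 16385 (.nr 407 1025 (.lg 0
  true 1 67 67 29 0 720) (.nx 408 104033 (.lg 2 false 1 59 61 29 13178 720) .out)) .out))) .out)
  .out) (.na 413 229 (.lg 0 false 1 0 0 16 0 24) (.nx 420 832257 (.nr 419 1048577 (.nr 414 229 .s1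
  (.nx 415 257 (.l1 (.ls 61 19 291)) (.nr 418 741457 (.nr 416 16385 (.lg 0 false 1 73 73 17 0 144)
  (.nx 417 13005 (.lg 0 true 1 73 73 17 0 720) .out)) .out))) .out) .out)))) (.na 439 239 (.na 431
  233 (.nx 430 832257 (.nr 429 1048577 (.nr 422 232 .s1 (.nx 425 13005 (.nx 423 257 (.l1 (.ls 73 23
  287)) (.nr 424 741457 (.lg 0 true 1 83 83 23 0 720) .out)) (.nr 428 16385 (.nr 426 1025 (.lg 0
  true 1 61 61 23 0 144) (.nx 427 104033 (.lg 2 true 1 61 61 23 13178 144) .out)) .out))) .out)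
  .out) (.nx 438 832257 (.nr 437 1048577 (.nr 432 233 .s1 (.nx 433 257 (.l1 (.ls 61 19 286)) (.nr
  436 741457 (.nr 434 16385 (.lg 0 false 1 79 79 17 0 720) (.nx 435 13005 (.lg 0 true 1 73 73 17 0
  720) .out)) .out))) .out) .out)) (.na 440 240 (.lg 0 false 1 0 0 16 0 24) (.na 450 241 (.nx 449
  832257 (.nr 448 1048577 (.nr 441 240 .s1 (.nx 446 104033 (.nx 444 13005 (.nx 442 257 (.l1 (.ls 73
  37 278)) (.nr 443 741457 (.lg 0 false 1 83 83 37 0 720) .out)) (.nr 445 16385 (.lg 0 true 1 71 73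
  37 0 720) .out)) (.nr 447 1025 (.lg 0 true 1 67 67 37 0 720) .out))) .out) .out) (.nx 457 832257
  (.nr 456 1048577 (.nr 451 241 .s1 (.nx 452 257 (.l1 (.ls 61 19 277)) (.nr 455 741457 (.nr 453
  16385 (.lg 0 false 1 73 73 17 0 720) (.nx 454 13005 (.lg 0 true 1 73 73 17 0 720) .out)) .out)))
  .out) .out)))))) (.na 3895 2048 (.na 481 257 (.na 469 251 (.na 459 244 (.lg 0 false 1 0 0 16 0
  24) (.nx 468 832257 (.nr 467 1048577 (.nr 460 244 .s1 (.nx 463 13005 (.nx 461 257 (.l1 (.ls 59 29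
  273)) (.nr 462 741457 (.lg 0 false 1 79 79 23 0 144) .out)) (.nr 466 16385 (.nr 464 1025 (.lg 0
  true 1 61 61 23 0 144) (.nx 465 104033 (.lg 2 false 1 53 53 23 13178 144) .out)) .out))) .out)
  .out)) (.na 470 255 (.lg 0 false 1 0 0 16 0 24) (.na 480 256 (.nx 479 832257 (.nr 478 1048577
  (.nr 471 255 .s1 (.nx 474 13005 (.nx 472 257 (.l1 (.ls 71 31 262)) (.nr 473 741457 (.lg 0 false 1
  79 79 29 0 720) .out)) (.nr 477 16385 (.nr 475 1025 (.lg 0 true 1 61 61 29 0 720) (.nx 476 104033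
  (.lg 2 true 1 59 59 29 13178 720) .out)) .out))) .out) .out) .ne))) (.na 1837 725 (.na 1201 512
  (.nx 1200 832257 (.nr 1199 1482912 (.nr 482 257 .s1 (.nx 627 145 (.nx 626 144 (.nr 625 4353 (.lx
  (.lp 31 19 129)) (.l1 .sk)) (.l1 .sk)) (.nx 687 205 (.lx (.lp 73 19 129)) (.nr 1198 1048577 (.nr
  942 32769 (.la (.lg 0 true 1 79 79 23 0)) (.nx 1197 10323 (.la (.lg 0 false 1 73 73 23 0)) .out))
  .out)))) .out) .out) (.nx 1836 832257 (.nr 1835 1482912 (.nr 1202 512 .s1 (.nx 1347 145 (.nx 1346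
  144 (.nr 1345 6163 (.lx (.lp 37 19 182)) (.l1 .sk)) (.l1 .sk)) (.nx 1407 205 (.lx (.lp 73 19
  182)) (.nr 1834 1048577 (.nr 1620 32769 (.la (.lg 0 true 1 73 73 29 0)) (.nx 1833 10323 (.la (.lg
  0 false 1 71 71 29 0)) .out)) .out)))) .out) .out)) (.na 2439 1024 (.nx 2438 10323 (.nr 2437
  1048577 (.nr 1838 725 .s1 (.nx 2137 2049 (.la (.ls 67 41 5793)) (.nr 2436 16385 (.la (.lg 0 true
  1 37 37 29 0)) .out))) .out) .out) (.na 3293 1449 (.nx 3292 10323 (.nr 3291 1048577 (.nr 2440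
  1024 .s1 (.nx 2865 2582 (.la (.ls 67 41 6513)) (.nr 3290 16385 (.la (.lg 0 false 1 31 37 31 0))
  .out))) .out) .out) (.nx 3894 2582 (.nr 3893 524289 (.nr 3294 1449 .s1 (.la (.ls 59 37 4603)))
  .out) .out))))) (.na 10528 16384 (.na 6094 4096 (.na 4747 2897 (.nx 4746 3252 (.nr 4745 524289
  (.nr 3896 2048 .s1 (.la (.ls 59 41 5166))) .out) .out) (.nx 6093 2582 (.nr 6092 262145 (.nr 4748
  2897 .s1 (.nx 4892 144 (.nr 4891 34817 (.lx (.lp 41 29 1025)) (.l1 .sk)) (.nx 4893 145 (.l1 .sk)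
  (.la (.ls 47 37 2296))))) .out) .out)) (.na 7939 5793 (.nx 7938 2582 (.nr 7937 262145 (.nr 6095
  4096 .s1 (.nx 6240 145 (.nx 6239 144 (.nr 6238 49241 (.lx (.lp 16 31 1449)) (.l1 .sk)) (.l1 .sk))
  (.la (.ls 43 37 1625)))) .out) .out) (.na 9233 8192 (.nx 9232 1292 (.nr 9231 65537 (.nr 7940 5793
  .s1 (.lx (.lp 37 37 2049))) .out) .out) (.nx 10527 1292 (.nr 10526 131073 (.nr 9234 8192 .s1 (.nx
  9438 205 (.lx (.lp 41 37 4097)) (.nr 10525 65537 (.lx (.lp 31 41 4097)) .out))) .out) .out))))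
  (.na 13880 131072 (.na 11824 32768 (.nx 11823 1292 (.nr 11822 262145 (.nr 10529 16384 .s1 (.nx
  10851 322 (.nx 10733 205 (.lx (.lp 37 41 8193)) (.nr 10850 65537 (.lx (.lp 31 43 8193)) .out))
  (.nr 11821 131073 (.lx (.lp 31 43 8193)) .out))) .out) .out) (.na 12852 65536 (.nx 12851 1025
  (.nr 12850 262145 (.nr 11825 32768 .s1 (.nx 12029 205 (.lx (.lp 16 0 16385)) (.nr 12849 131073
  (.lx (.lp 31 47 16385)) .out))) .out) .out) (.nx 13879 1025 (.nr 13878 262145 (.nr 12853 65536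
  .s1 (.nx 13176 324 (.lx (.lp 31 53 32769)) (.nr 13877 131073 (.lx (.lp 29 53 32769)) .out)))
  .out) .out))) (.na 13882 262144 (.nx 13881 324 (.l1 .sk) .out) (.na 13884 524289 (.nx 13883 205
  (.l1 .sk) .out) .out)))))))

def T79_2 : Ph :=
  (.na 461 138 (.na 314 54 (.na 206 16 (.na 130 6 (.na 1 2 .ne (.na 129 3 (.nx 128 3329023 (.nr 127
  623489 (.nx 4 84 (.nx 3 83 (.nr 2 18 (.lg 0 true 1 37 37 5 0 11952) (.l1 .sk)) (.l1 .sk)) (.nr
  113 77937 (.nx 25 6501 (.nr 17 55110 (.lg 0 false 13 103 103 9 0 59819760) (.nx 24 1292 (.lg 0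
  false 7 79 89 9 0 83664) .out)) (.nr 112 65537 (.nr 70 257 (.nx 51 1321124 (.lg 0 true 26 89 89
  11 0 155376) (.nr 69 9 (.lg 0 true 18 71 71 9 0 11952) .out)) (.nx 111 165142 (.nx 83 14045 (.lg
  1 false 13 103 107 9 34771 59819760) (.nx 90 20644 (.lg 1 false 7 101 103 9 16094 4601520) (.nr
  110 46342 (.nr 97 1100 (.lg 2 true 7 79 79 9 26667 83664) (.lg 2 false 13 103 107 9 7747
  59819760)) .out))) .out)) .out)) (.nx 126 205 (.lg 0 false 13 79 79 9 0 155376) .out))) .out)
  .out) .ne)) (.na 173 7 (.nx 172 1321124 (.nr 171 220437 (.nx 133 84 (.nx 132 83 (.nr 131 45 (.lg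
  0 true 1 23 23 7 0 83664) (.l1 .sk)) (.l1 .sk)) (.nr 165 55110 (.nx 143 16932 (.lg 0 false 10 97
  97 13 0 418320) (.nr 156 501 (.lg 0 true 13 79 89 19 0 1087632) (.nx 164 416129 (.nr 159 1905
  (.lg 2 true 3 79 79 13 34470 83664) (.lg 2 false 5 101 101 13 11229 418320)) .out))) (.nx 170
  1292 (.lg 0 false 5 89 89 13 0 418320) .out))) .out) .out) (.na 174 14 .ne (.nx 205 1321124 (.nr
  204 623489 (.nr 175 11 .s1 (.nx 178 84 (.nx 177 83 (.nr 176 103 (.lg 0 true 1 19 19 11 0 83664)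
  (.l1 .sk)) (.l1 .sk)) (.nx 199 330282 (.nx 189 20644 (.nr 183 92683 (.lg 0 false 5 97 97 13 0
  418320) (.nx 188 814 (.lg 0 false 5 79 79 13 0 418320) .out)) (.nr 198 55110 (.nr 194 766 (.lg 0
  true 5 73 73 13 0 418320) (.nx 197 165142 (.lg 2 false 3 89 89 13 9210 83664) .out)) .out)) (.nr
  203 65 (.lg 0 true 4 67 67 13 0 83664) .out)))) .out) .out)))) (.na 261 23 (.na 207 18 .ne (.na
  236 22 (.nx 235 1321124 (.nr 234 1048577 (.nr 208 16 .s1 (.nx 211 84 (.nx 210 83 (.nr 209 142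
  (.lg 0 true 1 19 19 13 0 59760) (.l1 .sk)) (.l1 .sk)) (.nx 212 205 (.l1 (.ls 79 43 1945)) (.nr
  233 623489 (.nx 213 324 (.l1 (.ls 73 43 3500)) (.nr 232 220437 (.nx 220 10323 (.lg 0 false 7 79
  97 19 0 418320) (.nr 231 55110 (.nr 227 498 (.lg 0 true 7 73 73 19 0 83664) (.nx 230 165142 (.lg
  2 false 3 89 89 13 18418 59760) .out)) .out)) .out)) .out)))) .out) .out) (.nx 260 1321124 (.nr
  259 1048577 (.nr 237 21 .s1 (.nx 249 10323 (.nx 241 205 (.nx 239 83 (.nr 238 149 (.lg 0 false 1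
  19 19 9 0 4601520) (.l1 .sk)) (.nx 240 84 (.l1 .sk) (.l1 (.ls 89 41 1592)))) (.nr 248 623489 (.nx
  242 324 (.l1 (.ls 79 43 2864)) (.nr 247 220437 (.lg 0 false 5 97 97 19 0 4601520) .out)) .out))
  (.nr 258 55110 (.nr 254 498 (.lg 0 true 5 73 73 19 0 657360) (.nx 257 165142 (.lg 2 false 3 97 97
  13 18418 4601520) .out)) .out))) .out) .out))) (.na 280 42 (.na 262 34 .ne (.nx 279 1321124 (.nr
  278 370729 (.nr 263 33 .s1 (.nx 271 13005 (.nx 265 83 (.nr 264 272 (.l1 (.ls 16 29 205)) (.l1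
  .sk)) (.nx 266 84 (.l1 .sk) (.lg 0 false 5 97 97 13 0 418320))) (.nr 277 23172 (.nr 274 272 (.lg
  0 true 3 67 67 13 0 11952) (.nx 276 82572 (.lg 2 false 2 73 73 13 12599 11952) .out)) .out)))
  .out) .out)) (.na 297 46 (.nx 296 1321124 (.nr 295 370729 (.nr 281 42 .s1 (.nx 292 82572 (.nr 283
  2026 (.nx 282 2047 (.l1 (.ls 43 71 99769)) (.lg 0 false 1 73 73 23 0 83664)) (.nx 285 84 (.nx 284
  83 (.l1 .sk) (.l1 .sk)) (.nr 289 77937 (.nx 287 20644 (.lg 0 true 2 89 89 29 0 83664) (.nr 288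
  13779 (.lg 2 false 1 67 67 23 2313 83664) .out)) (.nx 291 6503 (.lg 0 false 2 97 101 29 0
  4601520) .out)))) (.nr 294 217 (.lg 0 true 2 71 71 29 0 83664) .out))) .out) .out) (.nx 313
  1321124 (.nr 312 311745 (.nr 298 46 .s1 (.nx 301 84 (.nx 300 83 (.nr 299 349 (.l1 (.ls 17 19
  152)) (.l1 .sk)) (.l1 .sk)) (.nx 306 10323 (.lg 0 false 5 79 79 19 0 59760) (.nr 311 23172 (.nr
  309 349 (.lg 0 true 3 67 67 13 0 11952) (.nx 310 82572 (.lg 2 true 1 73 73 13 9819 131472) .out))
  .out)))) .out) .out))))) (.na 402 91 (.na 359 64 (.na 331 58 (.nx 330 1321124 (.nr 329 311745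
  (.nr 315 54 .s1 (.nx 323 10323 (.nx 317 83 (.nr 316 375 (.l1 (.ls 17 29 130)) (.l1 .sk)) (.nx 318
  84 (.l1 .sk) (.lg 0 false 5 73 73 23 0 59760))) (.nr 328 23172 (.nr 326 375 (.lg 0 true 3 61 61
  23 0 11952) (.nx 327 82572 (.lg 2 true 1 67 67 19 9138 11952) .out)) .out))) .out) .out) (.na 346
  62 (.nx 345 1321124 (.nr 344 311745 (.nr 332 58 .s1 (.nx 338 10323 (.nx 334 83 (.nr 333 401 (.l1
  (.ls 19 19 121)) (.l1 .sk)) (.nx 335 84 (.l1 .sk) (.lg 0 false 3 79 79 19 0 11952))) (.nr 343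
  23172 (.nr 341 401 (.lg 0 true 3 67 67 19 0 11952) (.nx 342 82572 (.lg 2 true 1 71 71 13 8546
  11952) .out)) .out))) .out) .out) (.nx 358 1321124 (.nr 357 311745 (.nr 347 62 .s1 (.nx 353 10323
  (.nx 349 83 (.nr 348 414 (.l1 (.ls 19 19 114)) (.l1 .sk)) (.nx 350 84 (.l1 .sk) (.lg 0 false 3 89
  89 19 0 418320))) (.nr 356 23172 (.nr 354 217 (.lg 2 false 1 71 71 13 884301 11952) (.nx 355
  82572 (.lg 2 true 1 73 73 13 15792 11952) .out)) .out))) .out) .out))) (.na 373 74 (.na 360 66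
  .ne (.nx 372 1321124 (.nr 371 524289 (.nr 361 66 .s1 (.nx 364 84 (.nx 363 83 (.nr 362 479 (.l1
  (.ls 23 29 107)) (.l1 .sk)) (.l1 .sk)) (.nx 366 8193 (.lg 0 false 2 89 89 29 0 131472) (.nr 370
  8193 (.nr 368 513 (.lg 0 true 2 71 71 29 0 131472) (.nx 369 82572 (.lg 2 false 1 61 61 29 6680
  131472) .out)) .out)))) .out) .out)) (.na 388 82 (.nx 387 1321124 (.nr 386 524289 (.nr 374 74 .s1
  (.nx 376 83 (.nr 375 530 (.l1 (.ls 16 19 96)) (.l1 .sk)) (.nx 377 84 (.l1 .sk) (.nx 380 8193 (.lg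
  0 false 3 73 73 19 0 11952) (.nr 385 8193 (.nr 383 530 (.lg 0 true 3 61 61 19 0 11952) (.nx 384
  82572 (.lg 2 true 1 59 59 13 6466 11952) .out)) .out))))) .out) .out) (.nx 401 1321124 (.nr 400
  524289 (.nr 389 82 .s1 (.nx 392 84 (.nx 391 83 (.nr 390 588 (.l1 (.ls 17 19 87)) (.l1 .sk)) (.l1
  .sk)) (.nx 395 8193 (.lg 0 false 3 79 79 19 0 11952) (.nr 399 8193 (.nr 397 588 (.lg 0 true 2 67
  67 19 0 11952) (.nx 398 82572 (.lg 2 false 1 59 59 13 5828 11952) .out)) .out)))) .out) .out))))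
  (.na 427 118 (.na 403 98 .ne (.na 414 102 (.nx 413 1321124 (.nr 412 524289 (.nr 404 98 .s1 (.nx
  408 8193 (.nx 406 83 (.nr 405 660 (.l1 (.ls 17 23 73)) (.l1 .sk)) (.nx 407 84 (.l1 .sk) (.lg 0
  true 1 89 89 19 0 418320))) (.nr 411 8193 (.nr 409 513 (.lg 2 false 1 61 61 19 559456 83664) (.nx
  410 82572 (.lg 2 false 1 53 53 19 6680 83664) .out)) .out))) .out) .out) (.nx 426 1321124 (.nr
  425 524289 (.nr 415 102 .s1 (.nx 420 8193 (.nx 417 83 (.nr 416 763 (.l1 (.ls 16 29 70)) (.l1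
  .sk)) (.nx 418 84 (.l1 .sk) (.lg 0 false 2 79 89 31 0 59760))) (.nr 424 8193 (.nr 422 513 (.lg 0
  true 2 71 71 31 0 11952) (.nx 423 82572 (.lg 2 true 1 61 61 29 6680 11952) .out)) .out))) .out)
  .out))) (.na 449 126 (.na 438 122 (.nx 437 1321124 (.nr 436 524289 (.nr 428 118 .s1 (.nx 432 8193
  (.nx 430 83 (.nr 429 789 (.l1 (.ls 19 19 61)) (.l1 .sk)) (.nx 431 84 (.l1 .sk) (.lg 0 true 1 89
  89 19 0 11952))) (.nr 435 8193 (.nr 433 513 (.lg 2 false 1 67 67 19 464633 418320) (.nx 434 82572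
  (.lg 2 true 1 47 47 19 6680 11952) .out)) .out))) .out) .out) (.nx 448 1321124 (.nr 447 524289
  (.nr 439 122 .s1 (.nx 443 8193 (.nx 441 83 (.nr 440 815 (.l1 (.ls 17 19 59)) (.l1 .sk)) (.nx 442
  84 (.l1 .sk) (.lg 0 true 1 89 89 19 0 59760))) (.nr 446 8193 (.nr 444 513 (.lg 2 false 1 61 61 19
  449399 59760) (.nx 445 82572 (.lg 2 false 1 47 47 19 6680 59760) .out)) .out))) .out) .out)) (.na
  460 128 (.nx 459 1321124 (.nr 458 524289 (.nr 450 126 .s1 (.nx 454 8193 (.nx 452 83 (.nr 451 828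
  (.l1 (.ls 19 29 57)) (.l1 .sk)) (.nx 453 84 (.l1 .sk) (.lg 0 false 1 79 79 31 0 83664))) (.nr 457
  8193 (.nr 455 513 (.lg 2 true 1 59 59 31 435133 83664) (.nx 456 82572 (.lg 2 false 1 53 53 31
  6680 83664) .out)) .out))) .out) .out) .ne))))) (.na 579 256 (.na 523 218 (.na 489 166 (.na 471
  154 (.nx 470 660563 (.nr 469 1048577 (.nr 462 138 .s1 (.nx 463 205 (.l1 (.ls 73 37 307)) (.nr 468
  524289 (.nx 464 6503 (.lg 0 true 1 89 89 31 0 418320) (.nr 467 8193 (.nr 465 1025 (.lg 0 true 1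
  67 67 31 0 11952) (.nx 466 82572 (.lg 2 false 1 53 53 31 4384 11952) .out)) .out)) .out))) .out)
  .out) (.na 481 162 (.nx 480 660563 (.nr 479 1048577 (.nr 472 154 .s1 (.nx 475 6503 (.nx 473 205
  (.l1 (.ls 73 31 275)) (.nr 474 524289 (.lg 0 true 1 79 79 31 0 920304) .out)) (.nr 478 8193 (.nr
  476 1025 (.lg 0 true 1 67 67 31 0 920304) (.nx 477 82572 (.lg 2 false 1 53 53 31 4384 920304)
  .out)) .out))) .out) .out) (.nx 488 660563 (.nr 487 1048577 (.nr 482 162 .s1 (.nx 483 205 (.l1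
  (.ls 73 31 262)) (.nr 486 524289 (.nr 484 8193 (.lg 0 false 1 89 89 23 0 4601520) (.nx 485 6503
  (.lg 0 true 1 73 73 23 0 418320) .out)) .out))) .out) .out))) (.na 507 186 (.na 499 174 (.nx 498
  660563 (.nr 497 1048577 (.nr 490 166 .s1 (.nx 491 205 (.l1 (.ls 59 29 256)) (.nr 496 524289 (.nx
  493 6503 (.lg 0 true 2 61 61 19 0 11952) (.nr 495 8193 (.lg 0 false 2 61 61 19 0 11952) .out))
  .out))) .out) .out) (.nx 506 660563 (.nr 505 1048577 (.nr 500 174 .s1 (.nx 501 205 (.l1 (.ls 73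
  37 244)) (.nr 504 524289 (.nx 502 6503 (.lg 0 false 1 73 73 23 0 11952) (.nr 503 8193 (.lg 0
  false 1 89 89 23 0 920304) .out)) .out))) .out) .out)) (.na 515 198 (.nx 514 660563 (.nr 513
  1048577 (.nr 508 186 .s1 (.nx 509 205 (.l1 (.ls 71 29 228)) (.nr 512 524289 (.nr 510 8193 (.lg 0
  true 1 73 73 29 0 11952) (.nx 511 6503 (.lg 0 false 1 73 73 29 0 11952) .out)) .out))) .out)
  .out) (.nx 522 660563 (.nr 521 1048577 (.nr 516 198 .s1 (.nx 517 205 (.l1 (.ls 73 37 215)) (.nr
  520 524289 (.nr 518 8193 (.lg 0 true 1 79 79 31 0 131472) (.nx 519 6503 (.lg 0 false 1 73 73 31 0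
  131472) .out)) .out))) .out) .out)))) (.na 547 238 (.na 531 222 (.nx 530 660563 (.nr 529 1048577
  (.nr 524 218 .s1 (.nx 525 205 (.l1 (.ls 73 23 195)) (.nr 528 524289 (.nr 526 8193 (.lg 0 false 1
  73 73 23 0 11952) (.nx 527 6503 (.lg 0 true 1 71 71 23 0 11952) .out)) .out))) .out) .out) (.na
  539 226 (.nx 538 660563 (.nr 537 1048577 (.nr 532 222 .s1 (.nx 533 205 (.l1 (.ls 73 31 192)) (.nr
  536 524289 (.nr 534 8193 (.lg 0 true 1 89 89 31 0 11952) (.nx 535 6503 (.lg 0 false 1 73 73 31 0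
  11952) .out)) .out))) .out) .out) (.nx 546 660563 (.nr 545 1048577 (.nr 540 226 .s1 (.nx 541 205
  (.l1 (.ls 59 23 188)) (.nr 544 524289 (.nr 542 8193 (.lg 0 false 1 67 67 23 0 11952) (.nx 543
  6503 (.lg 0 true 1 67 67 23 0 11952) .out)) .out))) .out) .out))) (.na 563 246 (.na 555 242 (.nx
  554 660563 (.nr 553 1048577 (.nr 548 238 .s1 (.nx 549 205 (.l1 (.ls 73 31 179)) (.nr 552 524289
  (.nr 550 8193 (.lg 0 false 1 79 79 31 0 418320) (.nx 551 6503 (.lg 0 false 1 73 73 31 0 83664)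
  .out)) .out))) .out) .out) (.nx 562 660563 (.nr 561 1048577 (.nr 556 242 .s1 (.nx 557 205 (.l1
  (.ls 61 29 176)) (.nr 560 524289 (.nr 558 8193 (.lg 0 false 1 71 71 29 0 131472) (.nx 559 6503
  (.lg 0 true 1 71 71 29 0 657360) .out)) .out))) .out) .out)) (.na 571 254 (.nx 570 660563 (.nr
  569 1048577 (.nr 564 246 .s1 (.nx 565 205 (.l1 (.ls 71 31 173)) (.nr 568 524289 (.nr 566 8193
  (.lg 0 true 1 73 73 31 0 11952) (.nx 567 6503 (.lg 0 false 1 73 73 31 0 83664) .out)) .out)))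
  .out) .out) (.nx 578 660563 (.nr 577 1048577 (.nr 572 254 .s1 (.nx 573 205 (.l1 (.ls 59 23 168))
  (.nr 576 524289 (.nr 574 8193 (.lg 0 false 1 67 67 23 0 11952) (.nx 575 6503 (.lg 0 true 1 61 61
  23 0 11952) .out)) .out))) .out) .out))))) (.na 3792 2897 (.na 1524 725 (.na 580 257 .ne (.na
  1094 512 (.nx 1093 82572 (.nr 1092 1048577 (.nr 581 257 .s1 (.nx 836 647 (.la (.ls 71 31 1631))
  (.nr 1091 262145 (.la (.lg 0 false 1 73 73 23 0)) .out))) .out) .out) (.nx 1523 82572 (.nr 1522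
  1048577 (.nr 1095 512 .s1 (.nx 1308 647 (.la (.ls 79 29 820)) (.nr 1521 262145 (.la (.lg 0 false
  1 71 71 29 0)) .out))) .out) .out))) (.na 2254 1449 (.na 1826 1024 (.nx 1825 3252 (.nr 1824
  262145 (.nr 1525 725 .s1 (.la (.ls 53 43 14589))) .out) .out) (.nx 2253 3252 (.nr 2252 262145
  (.nr 1827 1024 .s1 (.la (.ls 53 41 10330))) .out) .out)) (.na 2856 2048 (.nx 2855 1627 (.nr 2854
  131073 (.nr 2255 1449 .s1 (.la (.ls 53 31 1829))) .out) .out) (.nx 3791 1627 (.nr 3790 131073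
  (.nr 2857 2048 .s1 (.nx 2940 83 (.nr 2939 18720 (.lx (.lp 16 0 725)) (.l1 .sk)) (.nx 2941 84 (.l1
  .sk) (.la (.ls 53 31 1292))))) .out) .out)))) (.na 5741 16384 (.na 4442 4096 (.nx 4441 647 (.nr
  4440 65537 (.nr 3793 2897 .s1 (.nx 3955 163 (.lx (.lp 16 0 1025)) (.nr 4439 32769 (.lx (.lp 41 31
  1025)) .out))) .out) .out) (.na 5092 8192 (.nx 5091 647 (.nr 5090 65537 (.nr 4443 4096 .s1 (.nx
  4605 163 (.lx (.lp 16 0 2049)) (.nr 5089 32769 (.lx (.lp 41 37 2049)) .out))) .out) .out) (.nx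
  5740 647 (.nr 5739 65537 (.nr 5093 8192 .s1 (.lx (.lp 41 41 4097))) .out) .out))) (.na 6716 65536
  (.na 6390 32768 (.nx 6389 647 (.nr 6388 131073 (.nr 5742 16384 .s1 (.lx (.lp 41 43 8193))) .out)
  .out) (.nx 6715 324 (.nr 6714 131073 (.nr 6391 32768 .s1 (.lx (.lp 16 0 16385))) .out) .out))
  (.na 7042 131073 (.nx 7041 324 (.nr 7040 262145 (.nr 6717 65536 .s1 (.lx (.lp 16 0 32769))) .out)
  .out) .out))))))

theorem c79 :
    OkQ ckI L9 199 17 232 0 34359738368 1 1099511627776 ∧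
    OkQ ckI L8 144 104 1099511627776 0 34359738368 1 1099511627776 ∧
    OkQ ckI L6 83 1 1099511627776 0 34359738368 1 1099511627776 := by
  refine ⟨?_, ?_, ?_⟩
  · refine fin 24 1249 T79_0 ?_
    refine jn 5 (by decide +kernel) ?_
    refine jn 6 (by decide +kernel) ?_
    refine jn 7 (by decide +kernel) ?_
    refine jn 8 (by decide +kernel) ?_
    refine jn 9 (by decide +kernel) ?_
    refine jn 10 (by decide +kernel) ?_
    refine jn 11 (by decide +kernel) ?_
    refine jn 12 (by decide +kernel) ?_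
    refine jn 13 (by decide +kernel) ?_
    refine jn 14 (by decide +kernel) ?_
    refine jn 15 (by decide +kernel) ?_
    refine jn 16 (by decide +kernel) ?_
    refine jn 20 (by decide +kernel) ?_
    refine jn 24 (by decide +kernel) ?_
    refine jn 27 (by decide +kernel) ?_
    refine jn 37 (by decide +kernel) ?_
    refine jn 42 (by decide +kernel) ?_
    refine jn 52 (by decide +kernel) ?_
    refine jn 54 (by decide +kernel) ?_
    refine jn 58 (by decide +kernel) ?_
    refine jn 67 (by decide +kernel) ?_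
    refine jn 81 (by decide +kernel) ?_
    refine jn 91 (by decide +kernel) ?_
    refine jn 99 (by decide +kernel) ?_
    refine jn 108 (by decide +kernel) ?_
    refine jn 116 (by decide +kernel) ?_
    refine jn 125 (by decide +kernel) ?_
    refine jn 131 (by decide +kernel) ?_
    refine jn 137 (by decide +kernel) ?_
    refine jn 147 (by decide +kernel) ?_
    refine jn 157 (by decide +kernel) ?_
    refine jn 158 (by decide +kernel) ?_
    refine jn 159 (by decide +kernel) ?_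
    refine jn 160 (by decide +kernel) ?_
    refine jn 161 (by decide +kernel) ?_
    refine jn 165 (by decide +kernel) ?_
    refine jn 169 (by decide +kernel) ?_
    refine jn 171 (by decide +kernel) ?_
    refine jn 172 (by decide +kernel) ?_
    refine jn 174 (by decide +kernel) ?_
    refine jn 178 (by decide +kernel) ?_
    refine jn 188 (by decide +kernel) ?_
    refine jn 195 (by decide +kernel) ?_
    refine jn 200 (by decide +kernel) ?_
    refine jn 207 (by decide +kernel) ?_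
    refine jn 220 (by decide +kernel) ?_
    refine jn 225 (by decide +kernel) ?_
    refine jn 236 (by decide +kernel) ?_
    refine jn 248 (by decide +kernel) ?_
    refine jn 249 (by decide +kernel) ?_
    refine jn 250 (by decide +kernel) ?_
    refine jn 251 (by decide +kernel) ?_
    refine jn 252 (by decide +kernel) ?_
    refine jn 254 (by decide +kernel) ?_
    refine jn 256 (by decide +kernel) ?_
    refine jn 259 (by decide +kernel) ?_
    refine jn 265 (by decide +kernel) ?_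
    refine jn 276 (by decide +kernel) ?_
    refine jn 277 (by decide +kernel) ?_
    refine jn 278 (by decide +kernel) ?_
    refine jn 279 (by decide +kernel) ?_
    refine jn 284 (by decide +kernel) ?_
    refine jn 285 (by decide +kernel) ?_
    refine jn 287 (by decide +kernel) ?_
    refine jn 291 (by decide +kernel) ?_
    refine jn 298 (by decide +kernel) ?_
    refine jn 299 (by decide +kernel) ?_
    refine jn 300 (by decide +kernel) ?_
    refine jn 301 (by decide +kernel) ?_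
    refine jn 302 (by decide +kernel) ?_
    refine jn 303 (by decide +kernel) ?_
    refine jn 304 (by decide +kernel) ?_
    refine jn 306 (by decide +kernel) ?_
    refine jn 310 (by decide +kernel) ?_
    refine jn 311 (by decide +kernel) ?_
    refine jn 312 (by decide +kernel) ?_
    refine jn 316 (by decide +kernel) ?_
    refine jn 329 (by decide +kernel) ?_
    refine jn 338 (by decide +kernel) ?_
    refine jn 349 (by decide +kernel) ?_
    refine jn 357 (by decide +kernel) ?_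
    refine jn 367 (by decide +kernel) ?_
    refine jn 373 (by decide +kernel) ?_
    refine jn 384 (by decide +kernel) ?_
    refine jn 390 (by decide +kernel) ?_
    refine jn 404 (by decide +kernel) ?_
    refine jn 411 (by decide +kernel) ?_
    refine jn 420 (by decide +kernel) ?_
    refine jn 422 (by decide +kernel) ?_
    refine jn 423 (by decide +kernel) ?_
    refine jn 425 (by decide +kernel) ?_
    refine jn 429 (by decide +kernel) ?_
    refine jn 438 (by decide +kernel) ?_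
    refine jn 443 (by decide +kernel) ?_
    refine jn 450 (by decide +kernel) ?_
    refine jn 458 (by decide +kernel) ?_
    refine jn 459 (by decide +kernel) ?_
    refine jn 460 (by decide +kernel) ?_
    refine jn 461 (by decide +kernel) ?_
    refine jn 462 (by decide +kernel) ?_
    refine jn 464 (by decide +kernel) ?_
    refine jn 465 (by decide +kernel) ?_
    refine jn 466 (by decide +kernel) ?_
    refine jn 467 (by decide +kernel) ?_
    refine jn 468 (by decide +kernel) ?_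
    refine jn 469 (by decide +kernel) ?_
    refine jn 482 (by decide +kernel) ?_
    refine jn 494 (by decide +kernel) ?_
    refine jn 501 (by decide +kernel) ?_
    refine jn 514 (by decide +kernel) ?_
    refine jn 525 (by decide +kernel) ?_
    refine jn 528 (by decide +kernel) ?_
    refine jn 531 (by decide +kernel) ?_
    refine jn 534 (by decide +kernel) ?_
    refine jn 544 (by decide +kernel) ?_
    refine jn 548 (by decide +kernel) ?_
    refine jn 551 (by decide +kernel) ?_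
    refine jn 554 (by decide +kernel) ?_
    refine jn 567 (by decide +kernel) ?_
    refine jn 571 (by decide +kernel) ?_
    refine jn 574 (by decide +kernel) ?_
    refine jn 588 (by decide +kernel) ?_
    refine jn 598 (by decide +kernel) ?_
    refine jn 599 (by decide +kernel) ?_
    refine jn 600 (by decide +kernel) ?_
    refine jn 601 (by decide +kernel) ?_
    refine jn 602 (by decide +kernel) ?_
    refine jn 604 (by decide +kernel) ?_
    refine jn 605 (by decide +kernel) ?_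
    refine jn 606 (by decide +kernel) ?_
    refine jn 617 (by decide +kernel) ?_
    refine jn 628 (by decide +kernel) ?_
    refine jn 637 (by decide +kernel) ?_
    refine jn 648 (by decide +kernel) ?_
    refine jn 651 (by decide +kernel) ?_
    refine jn 660 (by decide +kernel) ?_
    refine jn 664 (by decide +kernel) ?_
    refine jn 668 (by decide +kernel) ?_
    refine jn 679 (by decide +kernel) ?_
    refine jn 693 (by decide +kernel) ?_
    refine jn 704 (by decide +kernel) ?_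
    refine jn 705 (by decide +kernel) ?_
    refine jn 706 (by decide +kernel) ?_
    refine jn 707 (by decide +kernel) ?_
    refine jn 708 (by decide +kernel) ?_
    refine jn 713 (by decide +kernel) ?_
    refine jn 726 (by decide +kernel) ?_
    refine jn 736 (by decide +kernel) ?_
    refine jn 737 (by decide +kernel) ?_
    refine jn 738 (by decide +kernel) ?_
    refine jn 739 (by decide +kernel) ?_
    refine jn 741 (by decide +kernel) ?_
    refine jn 745 (by decide +kernel) ?_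
    refine jn 757 (by decide +kernel) ?_
    refine jn 766 (by decide +kernel) ?_
    refine jn 767 (by decide +kernel) ?_
    refine jn 768 (by decide +kernel) ?_
    refine jn 769 (by decide +kernel) ?_
    refine jn 770 (by decide +kernel) ?_
    refine jn 773 (by decide +kernel) ?_
    refine jn 783 (by decide +kernel) ?_
    refine jn 786 (by decide +kernel) ?_
    refine jn 796 (by decide +kernel) ?_
    refine jn 799 (by decide +kernel) ?_
    refine jn 812 (by decide +kernel) ?_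
    refine jn 822 (by decide +kernel) ?_
    refine jn 825 (by decide +kernel) ?_
    refine jn 839 (by decide +kernel) ?_
    refine jn 848 (by decide +kernel) ?_
    refine jn 852 (by decide +kernel) ?_
    refine jn 865 (by decide +kernel) ?_
    refine jn 879 (by decide +kernel) ?_
    refine jn 894 (by decide +kernel) ?_
    refine jn 903 (by decide +kernel) ?_
    refine jn 905 (by decide +kernel) ?_
    refine jn 906 (by decide +kernel) ?_
    refine jn 908 (by decide +kernel) ?_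
    refine jn 921 (by decide +kernel) ?_
    refine jn 930 (by decide +kernel) ?_
    refine jn 942 (by decide +kernel) ?_
    refine jn 949 (by decide +kernel) ?_
    refine jn 962 (by decide +kernel) ?_
    refine jn 976 (by decide +kernel) ?_
    refine jn 984 (by decide +kernel) ?_
    refine jn 985 (by decide +kernel) ?_
    refine jn 988 (by decide +kernel) ?_
    refine jn 999 (by decide +kernel) ?_
    refine jn 1014 (by decide +kernel) ?_
    refine jn 1026 (by decide +kernel) ?_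
    refine jn 1039 (by decide +kernel) ?_
    refine jn 1052 (by decide +kernel) ?_
    refine jn 1066 (by decide +kernel) ?_
    refine jn 1076 (by decide +kernel) ?_
    refine jn 1077 (by decide +kernel) ?_
    refine jn 1080 (by decide +kernel) ?_
    refine jn 1090 (by decide +kernel) ?_
    refine jn 1104 (by decide +kernel) ?_
    refine jn 1115 (by decide +kernel) ?_
    refine jn 1131 (by decide +kernel) ?_
    refine jn 1139 (by decide +kernel) ?_
    refine jn 1142 (by decide +kernel) ?_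
    refine jn 1151 (by decide +kernel) ?_
    refine jn 1166 (by decide +kernel) ?_
    refine jn 1174 (by decide +kernel) ?_
    refine jn 1177 (by decide +kernel) ?_
    refine jn 1187 (by decide +kernel) ?_
    refine jn 1198 (by decide +kernel) ?_
    refine jn 1209 (by decide +kernel) ?_
    refine jn 1219 (by decide +kernel) ?_
    refine jn 1221 (by decide +kernel) ?_
    refine jn 1234 (by decide +kernel) ?_
    refine jn 1246 (by decide +kernel) ?_
    exact je (by decide +kernel)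
  · refine fin 144 13885 T79_1 ?_
    refine jn 7 (by decide +kernel) ?_
    refine jn 21 (by decide +kernel) ?_
    refine jn 35 (by decide +kernel) ?_
    refine jn 49 (by decide +kernel) ?_
    refine jn 62 (by decide +kernel) ?_
    refine jn 66 (by decide +kernel) ?_
    refine jn 74 (by decide +kernel) ?_
    refine jn 78 (by decide +kernel) ?_
    refine jn 88 (by decide +kernel) ?_
    refine jn 101 (by decide +kernel) ?_
    refine jn 114 (by decide +kernel) ?_
    refine jn 126 (by decide +kernel) ?_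
    refine jn 136 (by decide +kernel) ?_
    refine jn 146 (by decide +kernel) ?_
    refine jn 147 (by decide +kernel) ?_
    refine jn 149 (by decide +kernel) ?_
    refine jn 151 (by decide +kernel) ?_
    refine jn 160 (by decide +kernel) ?_
    refine jn 169 (by decide +kernel) ?_
    refine jn 179 (by decide +kernel) ?_
    refine jn 190 (by decide +kernel) ?_
    refine jn 192 (by decide +kernel) ?_
    refine jn 201 (by decide +kernel) ?_
    refine jn 212 (by decide +kernel) ?_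
    refine jn 228 (by decide +kernel) ?_
    refine jn 230 (by decide +kernel) ?_
    refine jn 232 (by decide +kernel) ?_
    refine jn 243 (by decide +kernel) ?_
    refine jn 253 (by decide +kernel) ?_
    refine jn 267 (by decide +kernel) ?_
    refine jn 268 (by decide +kernel) ?_
    refine jn 269 (by decide +kernel) ?_
    refine jn 270 (by decide +kernel) ?_
    refine jn 273 (by decide +kernel) ?_
    refine jn 289 (by decide +kernel) ?_
    refine jn 299 (by decide +kernel) ?_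
    refine jn 315 (by decide +kernel) ?_
    refine jn 326 (by decide +kernel) ?_
    refine jn 336 (by decide +kernel) ?_
    refine jn 346 (by decide +kernel) ?_
    refine jn 356 (by decide +kernel) ?_
    refine jn 364 (by decide +kernel) ?_
    refine jn 368 (by decide +kernel) ?_
    refine jn 377 (by decide +kernel) ?_
    refine jn 394 (by decide +kernel) ?_
    refine jn 405 (by decide +kernel) ?_
    refine jn 414 (by decide +kernel) ?_
    refine jn 424 (by decide +kernel) ?_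
    refine jn 435 (by decide +kernel) ?_
    refine jn 443 (by decide +kernel) ?_
    refine jn 447 (by decide +kernel) ?_
    refine jn 462 (by decide +kernel) ?_
    refine jn 473 (by decide +kernel) ?_
    refine jn 495 (by decide +kernel) ?_
    refine jn 547 (by decide +kernel) ?_
    refine jn 604 (by decide +kernel) ?_
    refine jn 650 (by decide +kernel) ?_
    refine jn 678 (by decide +kernel) ?_
    refine jn 690 (by decide +kernel) ?_
    refine jn 691 (by decide +kernel) ?_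
    refine jn 695 (by decide +kernel) ?_
    refine jn 699 (by decide +kernel) ?_
    refine jn 702 (by decide +kernel) ?_
    refine jn 703 (by decide +kernel) ?_
    refine jn 718 (by decide +kernel) ?_
    refine jn 719 (by decide +kernel) ?_
    refine jn 722 (by decide +kernel) ?_
    refine jn 726 (by decide +kernel) ?_
    refine jn 733 (by decide +kernel) ?_
    refine jn 742 (by decide +kernel) ?_
    refine jn 747 (by decide +kernel) ?_
    refine jn 757 (by decide +kernel) ?_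
    refine jn 763 (by decide +kernel) ?_
    refine jn 769 (by decide +kernel) ?_
    refine jn 770 (by decide +kernel) ?_
    refine jn 771 (by decide +kernel) ?_
    refine jn 783 (by decide +kernel) ?_
    refine jn 790 (by decide +kernel) ?_
    refine jn 791 (by decide +kernel) ?_
    refine jn 799 (by decide +kernel) ?_
    refine jn 805 (by decide +kernel) ?_
    refine jn 818 (by decide +kernel) ?_
    refine jn 827 (by decide +kernel) ?_
    refine jn 830 (by decide +kernel) ?_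
    refine jn 831 (by decide +kernel) ?_
    refine jn 838 (by decide +kernel) ?_
    refine jn 841 (by decide +kernel) ?_
    refine jn 846 (by decide +kernel) ?_
    refine jn 851 (by decide +kernel) ?_
    refine jn 855 (by decide +kernel) ?_
    refine jn 865 (by decide +kernel) ?_
    refine jn 874 (by decide +kernel) ?_
    refine jn 877 (by decide +kernel) ?_
    refine jn 887 (by decide +kernel) ?_
    refine jn 894 (by decide +kernel) ?_
    refine jn 898 (by decide +kernel) ?_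
    refine jn 899 (by decide +kernel) ?_
    refine jn 910 (by decide +kernel) ?_
    refine jn 911 (by decide +kernel) ?_
    refine jn 918 (by decide +kernel) ?_
    refine jn 923 (by decide +kernel) ?_
    refine jn 935 (by decide +kernel) ?_
    refine jn 942 (by decide +kernel) ?_
    refine jn 945 (by decide +kernel) ?_
    refine jn 946 (by decide +kernel) ?_
    refine jn 952 (by decide +kernel) ?_
    refine jn 957 (by decide +kernel) ?_
    refine jn 962 (by decide +kernel) ?_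
    refine jn 973 (by decide +kernel) ?_
    refine jn 974 (by decide +kernel) ?_
    refine jn 978 (by decide +kernel) ?_
    refine jn 988 (by decide +kernel) ?_
    refine jn 997 (by decide +kernel) ?_
    refine jn 1010 (by decide +kernel) ?_
    refine jn 1018 (by decide +kernel) ?_
    refine jn 1025 (by decide +kernel) ?_
    refine jn 1033 (by decide +kernel) ?_
    refine jn 1041 (by decide +kernel) ?_
    refine jn 1045 (by decide +kernel) ?_
    refine jn 1046 (by decide +kernel) ?_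
    refine jn 1058 (by decide +kernel) ?_
    refine jn 1073 (by decide +kernel) ?_
    refine jn 1085 (by decide +kernel) ?_
    refine jn 1089 (by decide +kernel) ?_
    refine jn 1096 (by decide +kernel) ?_
    refine jn 1106 (by decide +kernel) ?_
    refine jn 1118 (by decide +kernel) ?_
    refine jn 1129 (by decide +kernel) ?_
    refine jn 1134 (by decide +kernel) ?_
    refine jn 1146 (by decide +kernel) ?_
    refine jn 1153 (by decide +kernel) ?_
    refine jn 1154 (by decide +kernel) ?_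
    refine jn 1165 (by decide +kernel) ?_
    refine jn 1170 (by decide +kernel) ?_
    refine jn 1178 (by decide +kernel) ?_
    refine jn 1192 (by decide +kernel) ?_
    refine jn 1257 (by decide +kernel) ?_
    refine jn 1370 (by decide +kernel) ?_
    refine jn 1415 (by decide +kernel) ?_
    refine jn 1416 (by decide +kernel) ?_
    refine jn 1438 (by decide +kernel) ?_
    refine jn 1439 (by decide +kernel) ?_
    refine jn 1440 (by decide +kernel) ?_
    refine jn 1444 (by decide +kernel) ?_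
    refine jn 1452 (by decide +kernel) ?_
    refine jn 1472 (by decide +kernel) ?_
    refine jn 1475 (by decide +kernel) ?_
    refine jn 1479 (by decide +kernel) ?_
    refine jn 1480 (by decide +kernel) ?_
    refine jn 1481 (by decide +kernel) ?_
    refine jn 1487 (by decide +kernel) ?_
    refine jn 1488 (by decide +kernel) ?_
    refine jn 1496 (by decide +kernel) ?_
    refine jn 1507 (by decide +kernel) ?_
    refine jn 1508 (by decide +kernel) ?_
    refine jn 1519 (by decide +kernel) ?_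
    refine jn 1523 (by decide +kernel) ?_
    refine jn 1531 (by decide +kernel) ?_
    refine jn 1551 (by decide +kernel) ?_
    refine jn 1552 (by decide +kernel) ?_
    refine jn 1558 (by decide +kernel) ?_
    refine jn 1572 (by decide +kernel) ?_
    refine jn 1578 (by decide +kernel) ?_
    refine jn 1587 (by decide +kernel) ?_
    refine jn 1592 (by decide +kernel) ?_
    refine jn 1604 (by decide +kernel) ?_
    refine jn 1615 (by decide +kernel) ?_
    refine jn 1616 (by decide +kernel) ?_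
    refine jn 1628 (by decide +kernel) ?_
    refine jn 1641 (by decide +kernel) ?_
    refine jn 1652 (by decide +kernel) ?_
    refine jn 1656 (by decide +kernel) ?_
    refine jn 1663 (by decide +kernel) ?_
    refine jn 1677 (by decide +kernel) ?_
    refine jn 1688 (by decide +kernel) ?_
    refine jn 1693 (by decide +kernel) ?_
    refine jn 1694 (by decide +kernel) ?_
    refine jn 1701 (by decide +kernel) ?_
    refine jn 1709 (by decide +kernel) ?_
    refine jn 1720 (by decide +kernel) ?_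
    refine jn 1721 (by decide +kernel) ?_
    refine jn 1732 (by decide +kernel) ?_
    refine jn 1736 (by decide +kernel) ?_
    refine jn 1749 (by decide +kernel) ?_
    refine jn 1764 (by decide +kernel) ?_
    refine jn 1769 (by decide +kernel) ?_
    refine jn 1784 (by decide +kernel) ?_
    refine jn 1788 (by decide +kernel) ?_
    refine jn 1795 (by decide +kernel) ?_
    refine jn 1804 (by decide +kernel) ?_
    refine jn 1809 (by decide +kernel) ?_
    refine jn 1828 (by decide +kernel) ?_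
    refine jn 1829 (by decide +kernel) ?_
    refine jn 1853 (by decide +kernel) ?_
    refine jn 1882 (by decide +kernel) ?_
    refine jn 1906 (by decide +kernel) ?_
    refine jn 1926 (by decide +kernel) ?_
    refine jn 1958 (by decide +kernel) ?_
    refine jn 1989 (by decide +kernel) ?_
    refine jn 2013 (by decide +kernel) ?_
    refine jn 2029 (by decide +kernel) ?_
    refine jn 2050 (by decide +kernel) ?_
    refine jn 2089 (by decide +kernel) ?_
    refine jn 2126 (by decide +kernel) ?_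
    refine jn 2152 (by decide +kernel) ?_
    refine jn 2177 (by decide +kernel) ?_
    refine jn 2181 (by decide +kernel) ?_
    refine jn 2192 (by decide +kernel) ?_
    refine jn 2207 (by decide +kernel) ?_
    refine jn 2220 (by decide +kernel) ?_
    refine jn 2232 (by decide +kernel) ?_
    refine jn 2257 (by decide +kernel) ?_
    refine jn 2279 (by decide +kernel) ?_
    refine jn 2296 (by decide +kernel) ?_
    refine jn 2312 (by decide +kernel) ?_
    refine jn 2317 (by decide +kernel) ?_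
    refine jn 2340 (by decide +kernel) ?_
    refine jn 2348 (by decide +kernel) ?_
    refine jn 2361 (by decide +kernel) ?_
    refine jn 2388 (by decide +kernel) ?_
    refine jn 2409 (by decide +kernel) ?_
    refine jn 2432 (by decide +kernel) ?_
    refine jn 2456 (by decide +kernel) ?_
    refine jn 2471 (by decide +kernel) ?_
    refine jn 2511 (by decide +kernel) ?_
    refine jn 2541 (by decide +kernel) ?_
    refine jn 2580 (by decide +kernel) ?_
    refine jn 2605 (by decide +kernel) ?_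
    refine jn 2633 (by decide +kernel) ?_
    refine jn 2657 (by decide +kernel) ?_
    refine jn 2691 (by decide +kernel) ?_
    refine jn 2721 (by decide +kernel) ?_
    refine jn 2748 (by decide +kernel) ?_
    refine jn 2772 (by decide +kernel) ?_
    refine jn 2801 (by decide +kernel) ?_
    refine jn 2840 (by decide +kernel) ?_
    refine jn 2859 (by decide +kernel) ?_
    refine jn 2881 (by decide +kernel) ?_
    refine jn 2885 (by decide +kernel) ?_
    refine jn 2901 (by decide +kernel) ?_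
    refine jn 2934 (by decide +kernel) ?_
    refine jn 2949 (by decide +kernel) ?_
    refine jn 2972 (by decide +kernel) ?_
    refine jn 3001 (by decide +kernel) ?_
    refine jn 3009 (by decide +kernel) ?_
    refine jn 3030 (by decide +kernel) ?_
    refine jn 3046 (by decide +kernel) ?_
    refine jn 3065 (by decide +kernel) ?_
    refine jn 3074 (by decide +kernel) ?_
    refine jn 3093 (by decide +kernel) ?_
    refine jn 3118 (by decide +kernel) ?_
    refine jn 3146 (by decide +kernel) ?_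
    refine jn 3154 (by decide +kernel) ?_
    refine jn 3176 (by decide +kernel) ?_
    refine jn 3197 (by decide +kernel) ?_
    refine jn 3201 (by decide +kernel) ?_
    refine jn 3210 (by decide +kernel) ?_
    refine jn 3233 (by decide +kernel) ?_
    refine jn 3254 (by decide +kernel) ?_
    refine jn 3281 (by decide +kernel) ?_
    refine jn 3282 (by decide +kernel) ?_
    refine jn 3314 (by decide +kernel) ?_
    refine jn 3345 (by decide +kernel) ?_
    refine jn 3389 (by decide +kernel) ?_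
    refine jn 3421 (by decide +kernel) ?_
    refine jn 3470 (by decide +kernel) ?_
    refine jn 3502 (by decide +kernel) ?_
    refine jn 3542 (by decide +kernel) ?_
    refine jn 3586 (by decide +kernel) ?_
    refine jn 3621 (by decide +kernel) ?_
    refine jn 3646 (by decide +kernel) ?_
    refine jn 3698 (by decide +kernel) ?_
    refine jn 3729 (by decide +kernel) ?_
    refine jn 3769 (by decide +kernel) ?_
    refine jn 3813 (by decide +kernel) ?_
    refine jn 3850 (by decide +kernel) ?_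
    refine jn 3895 (by decide +kernel) ?_
    refine jn 3932 (by decide +kernel) ?_
    refine jn 3968 (by decide +kernel) ?_
    refine jn 4013 (by decide +kernel) ?_
    refine jn 4045 (by decide +kernel) ?_
    refine jn 4097 (by decide +kernel) ?_
    refine jn 4155 (by decide +kernel) ?_
    refine jn 4181 (by decide +kernel) ?_
    refine jn 4207 (by decide +kernel) ?_
    refine jn 4248 (by decide +kernel) ?_
    refine jn 4293 (by decide +kernel) ?_
    refine jn 4321 (by decide +kernel) ?_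
    refine jn 4373 (by decide +kernel) ?_
    refine jn 4420 (by decide +kernel) ?_
    refine jn 4476 (by decide +kernel) ?_
    refine jn 4513 (by decide +kernel) ?_
    refine jn 4560 (by decide +kernel) ?_
    refine jn 4596 (by decide +kernel) ?_
    refine jn 4637 (by decide +kernel) ?_
    refine jn 4685 (by decide +kernel) ?_
    refine jn 4744 (by decide +kernel) ?_
    refine jn 4924 (by decide +kernel) ?_
    refine jn 4973 (by decide +kernel) ?_
    refine jn 5037 (by decide +kernel) ?_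
    refine jn 5084 (by decide +kernel) ?_
    refine jn 5137 (by decide +kernel) ?_
    refine jn 5200 (by decide +kernel) ?_
    refine jn 5268 (by decide +kernel) ?_
    refine jn 5311 (by decide +kernel) ?_
    refine jn 5376 (by decide +kernel) ?_
    refine jn 5453 (by decide +kernel) ?_
    refine jn 5497 (by decide +kernel) ?_
    refine jn 5553 (by decide +kernel) ?_
    refine jn 5600 (by decide +kernel) ?_
    refine jn 5656 (by decide +kernel) ?_
    refine jn 5723 (by decide +kernel) ?_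
    refine jn 5781 (by decide +kernel) ?_
    refine jn 5844 (by decide +kernel) ?_
    refine jn 5896 (by decide +kernel) ?_
    refine jn 5961 (by decide +kernel) ?_
    refine jn 6036 (by decide +kernel) ?_
    refine jn 6080 (by decide +kernel) ?_
    refine jn 6285 (by decide +kernel) ?_
    refine jn 6340 (by decide +kernel) ?_
    refine jn 6415 (by decide +kernel) ?_
    refine jn 6485 (by decide +kernel) ?_
    refine jn 6539 (by decide +kernel) ?_
    refine jn 6600 (by decide +kernel) ?_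
    refine jn 6668 (by decide +kernel) ?_
    refine jn 6740 (by decide +kernel) ?_
    refine jn 6801 (by decide +kernel) ?_
    refine jn 6868 (by decide +kernel) ?_
    refine jn 6941 (by decide +kernel) ?_
    refine jn 7013 (by decide +kernel) ?_
    refine jn 7060 (by decide +kernel) ?_
    refine jn 7140 (by decide +kernel) ?_
    refine jn 7209 (by decide +kernel) ?_
    refine jn 7284 (by decide +kernel) ?_
    refine jn 7349 (by decide +kernel) ?_
    refine jn 7405 (by decide +kernel) ?_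
    refine jn 7472 (by decide +kernel) ?_
    refine jn 7528 (by decide +kernel) ?_
    refine jn 7613 (by decide +kernel) ?_
    refine jn 7680 (by decide +kernel) ?_
    refine jn 7761 (by decide +kernel) ?_
    refine jn 7813 (by decide +kernel) ?_
    refine jn 7916 (by decide +kernel) ?_
    refine jn 8165 (by decide +kernel) ?_
    refine jn 8315 (by decide +kernel) ?_
    refine jn 8473 (by decide +kernel) ?_
    refine jn 8583 (by decide +kernel) ?_
    refine jn 8683 (by decide +kernel) ?_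
    refine jn 8767 (by decide +kernel) ?_
    refine jn 8839 (by decide +kernel) ?_
    refine jn 8912 (by decide +kernel) ?_
    refine jn 8991 (by decide +kernel) ?_
    refine jn 9049 (by decide +kernel) ?_
    refine jn 9100 (by decide +kernel) ?_
    refine jn 9154 (by decide +kernel) ?_
    refine jn 9212 (by decide +kernel) ?_
    refine jn 9455 (by decide +kernel) ?_
    refine jn 9581 (by decide +kernel) ?_
    refine jn 9666 (by decide +kernel) ?_
    refine jn 9752 (by decide +kernel) ?_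
    refine jn 9835 (by decide +kernel) ?_
    refine jn 9912 (by decide +kernel) ?_
    refine jn 9983 (by decide +kernel) ?_
    refine jn 10051 (by decide +kernel) ?_
    refine jn 10107 (by decide +kernel) ?_
    refine jn 10145 (by decide +kernel) ?_
    refine jn 10205 (by decide +kernel) ?_
    refine jn 10263 (by decide +kernel) ?_
    refine jn 10319 (by decide +kernel) ?_
    refine jn 10361 (by decide +kernel) ?_
    refine jn 10397 (by decide +kernel) ?_
    refine jn 10422 (by decide +kernel) ?_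
    refine jn 10469 (by decide +kernel) ?_
    refine jn 10512 (by decide +kernel) ?_
    refine jn 10733 (by decide +kernel) ?_
    refine jn 10850 (by decide +kernel) ?_
    refine jn 10976 (by decide +kernel) ?_
    refine jn 11063 (by decide +kernel) ?_
    refine jn 11161 (by decide +kernel) ?_
    refine jn 11255 (by decide +kernel) ?_
    refine jn 11340 (by decide +kernel) ?_
    refine jn 11423 (by decide +kernel) ?_
    refine jn 11480 (by decide +kernel) ?_
    refine jn 11557 (by decide +kernel) ?_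
    refine jn 11615 (by decide +kernel) ?_
    refine jn 11674 (by decide +kernel) ?_
    refine jn 11726 (by decide +kernel) ?_
    refine jn 11788 (by decide +kernel) ?_
    refine jn 12105 (by decide +kernel) ?_
    refine jn 12260 (by decide +kernel) ?_
    refine jn 12335 (by decide +kernel) ?_
    refine jn 12460 (by decide +kernel) ?_
    refine jn 12564 (by decide +kernel) ?_
    refine jn 12655 (by decide +kernel) ?_
    refine jn 12722 (by decide +kernel) ?_
    refine jn 12818 (by decide +kernel) ?_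
    refine jn 13176 (by decide +kernel) ?_
    refine jn 13344 (by decide +kernel) ?_
    refine jn 13456 (by decide +kernel) ?_
    refine jn 13562 (by decide +kernel) ?_
    refine jn 13723 (by decide +kernel) ?_
    refine jn 13868 (by decide +kernel) ?_
    exact je (by decide +kernel)
  · refine fin 5976 7043 T79_2 ?_
    refine jn 6 (by decide +kernel) ?_
    refine jn 8 (by decide +kernel) ?_
    refine jn 11 (by decide +kernel) ?_
    refine jn 14 (by decide +kernel) ?_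
    refine jn 16 (by decide +kernel) ?_
    refine jn 24 (by decide +kernel) ?_
    refine jn 32 (by decide +kernel) ?_
    refine jn 39 (by decide +kernel) ?_
    refine jn 47 (by decide +kernel) ?_
    refine jn 69 (by decide +kernel) ?_
    refine jn 90 (by decide +kernel) ?_
    refine jn 97 (by decide +kernel) ?_
    refine jn 110 (by decide +kernel) ?_
    refine jn 131 (by decide +kernel) ?_
    refine jn 134 (by decide +kernel) ?_
    refine jn 135 (by decide +kernel) ?_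
    refine jn 136 (by decide +kernel) ?_
    refine jn 137 (by decide +kernel) ?_
    refine jn 139 (by decide +kernel) ?_
    refine jn 140 (by decide +kernel) ?_
    refine jn 141 (by decide +kernel) ?_
    refine jn 142 (by decide +kernel) ?_
    refine jn 145 (by decide +kernel) ?_
    refine jn 148 (by decide +kernel) ?_
    refine jn 152 (by decide +kernel) ?_
    refine jn 156 (by decide +kernel) ?_
    refine jn 159 (by decide +kernel) ?_
    refine jn 164 (by decide +kernel) ?_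
    refine jn 178 (by decide +kernel) ?_
    refine jn 180 (by decide +kernel) ?_
    refine jn 182 (by decide +kernel) ?_
    refine jn 188 (by decide +kernel) ?_
    refine jn 193 (by decide +kernel) ?_
    refine jn 197 (by decide +kernel) ?_
    refine jn 211 (by decide +kernel) ?_
    refine jn 213 (by decide +kernel) ?_
    refine jn 218 (by decide +kernel) ?_
    refine jn 223 (by decide +kernel) ?_
    refine jn 227 (by decide +kernel) ?_
    refine jn 240 (by decide +kernel) ?_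
    refine jn 242 (by decide +kernel) ?_
    refine jn 247 (by decide +kernel) ?_
    refine jn 254 (by decide +kernel) ?_
    refine jn 266 (by decide +kernel) ?_
    refine jn 271 (by decide +kernel) ?_
    refine jn 276 (by decide +kernel) ?_
    refine jn 281 (by decide +kernel) ?_
    refine jn 282 (by decide +kernel) ?_
    refine jn 283 (by decide +kernel) ?_
    refine jn 285 (by decide +kernel) ?_
    refine jn 286 (by decide +kernel) ?_
    refine jn 287 (by decide +kernel) ?_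
    refine jn 291 (by decide +kernel) ?_
    refine jn 294 (by decide +kernel) ?_
    refine jn 306 (by decide +kernel) ?_
    refine jn 310 (by decide +kernel) ?_
    refine jn 326 (by decide +kernel) ?_
    refine jn 338 (by decide +kernel) ?_
    refine jn 348 (by decide +kernel) ?_
    refine jn 354 (by decide +kernel) ?_
    refine jn 364 (by decide +kernel) ?_
    refine jn 366 (by decide +kernel) ?_
    refine jn 368 (by decide +kernel) ?_
    refine jn 380 (by decide +kernel) ?_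
    refine jn 395 (by decide +kernel) ?_
    refine jn 408 (by decide +kernel) ?_
    refine jn 418 (by decide +kernel) ?_
    refine jn 420 (by decide +kernel) ?_
    refine jn 423 (by decide +kernel) ?_
    refine jn 434 (by decide +kernel) ?_
    refine jn 449 (by decide +kernel) ?_
    refine jn 455 (by decide +kernel) ?_
    refine jn 465 (by decide +kernel) ?_
    refine jn 476 (by decide +kernel) ?_
    refine jn 485 (by decide +kernel) ?_
    refine jn 502 (by decide +kernel) ?_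
    refine jn 511 (by decide +kernel) ?_
    refine jn 519 (by decide +kernel) ?_
    refine jn 534 (by decide +kernel) ?_
    refine jn 543 (by decide +kernel) ?_
    refine jn 555 (by decide +kernel) ?_
    refine jn 566 (by decide +kernel) ?_
    refine jn 586 (by decide +kernel) ?_
    refine jn 690 (by decide +kernel) ?_
    refine jn 758 (by decide +kernel) ?_
    refine jn 841 (by decide +kernel) ?_
    refine jn 881 (by decide +kernel) ?_
    refine jn 901 (by decide +kernel) ?_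
    refine jn 925 (by decide +kernel) ?_
    refine jn 945 (by decide +kernel) ?_
    refine jn 957 (by decide +kernel) ?_
    refine jn 973 (by decide +kernel) ?_
    refine jn 993 (by decide +kernel) ?_
    refine jn 1033 (by decide +kernel) ?_
    refine jn 1041 (by decide +kernel) ?_
    refine jn 1061 (by decide +kernel) ?_
    refine jn 1085 (by decide +kernel) ?_
    refine jn 1169 (by decide +kernel) ?_
    refine jn 1297 (by decide +kernel) ?_
    refine jn 1318 (by decide +kernel) ?_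
    refine jn 1354 (by decide +kernel) ?_
    refine jn 1374 (by decide +kernel) ?_
    refine jn 1422 (by decide +kernel) ?_
    refine jn 1450 (by decide +kernel) ?_
    refine jn 1474 (by decide +kernel) ?_
    refine jn 1494 (by decide +kernel) ?_
    refine jn 1510 (by decide +kernel) ?_
    refine jn 1521 (by decide +kernel) ?_
    refine jn 1586 (by decide +kernel) ?_
    refine jn 1662 (by decide +kernel) ?_
    refine jn 1758 (by decide +kernel) ?_
    refine jn 1841 (by decide +kernel) ?_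
    refine jn 1901 (by decide +kernel) ?_
    refine jn 1965 (by decide +kernel) ?_
    refine jn 2045 (by decide +kernel) ?_
    refine jn 2145 (by decide +kernel) ?_
    refine jn 2229 (by decide +kernel) ?_
    refine jn 2360 (by decide +kernel) ?_
    refine jn 2512 (by decide +kernel) ?_
    refine jn 2644 (by decide +kernel) ?_
    refine jn 2812 (by decide +kernel) ?_
    refine jn 3015 (by decide +kernel) ?_
    refine jn 3191 (by decide +kernel) ?_
    refine jn 3339 (by decide +kernel) ?_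
    refine jn 3527 (by decide +kernel) ?_
    refine jn 3691 (by decide +kernel) ?_
    refine jn 4053 (by decide +kernel) ?_
    refine jn 4280 (by decide +kernel) ?_
    refine jn 4415 (by decide +kernel) ?_
    refine jn 4755 (by decide +kernel) ?_
    refine jn 4873 (by decide +kernel) ?_
    refine jn 4995 (by decide +kernel) ?_
    refine jn 5089 (by decide +kernel) ?_
    refine jn 5511 (by decide +kernel) ?_
    refine jn 5657 (by decide +kernel) ?_
    refine jn 6069 (by decide +kernel) ?_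
    refine jn 6341 (by decide +kernel) ?_
    refine jn 7040 (by decide +kernel) ?_
    exact je (by decide +kernel)

end Pool.Agent.MP_2339ce_nt.NR
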