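import Pool.Agent.MP_2339ce_nt.Q2.NC.L6
import Pool.Agent.MP_2339ce_nt.Q2.NC.L9
import Pool.Agent.MP_2339ce_nt.Q2.CkI

/-! Block NR: runs. -/

set_option autoImplicit false
set_option maxRecDepth 100000

noncomputable section

namespace Pool.Agent.MP_2339ce_nt.NR

open Q2.Top

def T92_0 : Ph :=
  (.na 471 41 (.na 285 25 (.na 182 18 (.na 86 15 (.na 52 14 (.nx 51 1321124 (.nr 50 623489 (.nr 1 6
  .s1 (.nx 4 120 (.nx 3 119 (.nr 2 108 (.lg 0 true 1 37 37 13 0 85680) (.l1 .sk)) (.l1 .sk)) (.nr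
  46 220437 (.nx 40 330282 (.nr 37 92683 (.nx 9 7081 (.lg 0 false 5 89 89 19 0 85680) (.nr 36 65537
  (.nr 14 766 (.lg 0 true 5 83 83 19 0 85680) (.nx 35 165142 (.nr 17 13461 (.lg 2 false 3 79 79 19
  13580 17136) (.nr 28 32769 (.lg 0 true 11 97 101 29 0 942480) (.nx 34 65537 (.nr 31 46342 (.lg 0
  true 3 101 103 19 0 942480) (.nx 33 26009 (.lg 0 false 2 97 101 13 0 85680) .out)) .out))) .out))
  .out)) (.nx 39 814 (.lg 0 false 2 89 89 13 0 85680) .out)) (.nr 45 65 (.lg 0 true 5 73 73 19 0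
  85680) .out)) (.nx 49 324 (.lg 0 false 3 83 83 19 0 17136) .out)))) .out) .out) (.nx 85 1321124
  (.nr 84 623489 (.nr 53 9 .s1 (.nx 55 119 (.nr 54 116 (.l1 (.ls 23 37 1014)) (.l1 .sk)) (.nx 56
  120 (.l1 .sk) (.nx 66 20644 (.nx 57 324 (.l1 (.ls 79 47 6472)) (.nr 65 220437 (.nr 62 92683 (.lg
  0 true 5 89 89 13 0 85680) (.nx 64 814 (.lg 0 true 2 73 73 11 0 85680) .out)) .out)) (.nr 83
  55110 (.nr 77 374 (.lg 0 true 11 73 73 13 0 188496) (.nx 82 165142 (.lg 2 false 5 89 89 13 26273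
  85680) .out)) .out))))) .out) .out)) (.na 118 16 (.nx 117 1321124 (.nr 116 623489 (.nr 87 11 .s1
  (.nx 89 119 (.nr 88 124 (.lg 0 true 1 37 37 16 0 85680) (.l1 .sk)) (.nx 90 120 (.l1 .sk) (.nr 111
  92683 (.nr 109 65537 (.nx 94 26009 (.lg 0 false 4 97 97 17 0 85680) (.nr 108 46342 (.nx 103
  330282 (.nr 98 766 (.lg 0 true 4 83 83 17 0 85680) (.nx 102 165142 (.lg 2 false 4 89 97 17 12828
  85680) .out)) (.nr 107 65 (.lg 0 true 4 73 73 17 0 85680) .out)) .out)) (.nx 110 6503 (.lg 0 true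
  1 97 97 16 0 85680) .out)) (.nx 115 814 (.lg 0 false 4 83 89 17 0 85680) .out))))) .out) .out)
  (.na 149 17 (.nx 148 1321124 (.nr 147 1048577 (.nr 119 12 .s1 (.nx 122 120 (.nx 121 119 (.nr 120
  131 (.lg 0 false 1 37 37 11 0 85680) (.l1 .sk)) (.l1 .sk)) (.nx 141 165142 (.nx 125 324 (.nx 123
  205 (.l1 (.ls 97 37 1729)) (.nr 124 623489 (.l1 (.ls 89 41 3937)) .out)) (.nr 140 220437 (.nr 138
  131073 (.nx 133 26009 (.nr 130 65537 (.lg 0 false 5 89 97 17 0 85680) (.nx 132 8193 (.lg 0 false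
  2 97 101 13 0 85680) .out)) (.nr 137 46342 (.nr 134 766 (.lg 0 false 1 83 83 11 0 17136) (.lg 2
  false 3 89 97 13 12828 85680)) .out)) (.nx 139 814 (.lg 0 false 1 79 79 11 0 17136) .out)) .out))
  (.nr 146 183 (.lg 0 true 5 79 79 17 0 85680) .out)))) .out) .out) (.nx 181 1321124 (.nr 180
  1048577 (.nr 150 14 .s1 (.nx 163 16385 (.nx 152 119 (.nr 151 139 (.l1 (.ls 23 29 835)) (.l1 .sk))
  (.nx 153 120 (.l1 .sk) (.nx 154 324 (.l1 (.ls 83 41 5331)) (.nr 162 220437 (.lg 0 false 8 89 89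
  16 0 85680) .out)))) (.nr 179 46342 (.nr 174 498 (.lg 0 true 11 73 73 16 0 94248) (.nx 178 165142
  (.lg 2 true 4 83 83 11 20078 85680) .out)) .out))) .out) .out)))) (.na 234 21 (.na 209 20 (.nx
  208 1321124 (.nr 207 1048577 (.nr 183 15 .s1 (.nx 186 120 (.nx 185 119 (.nr 184 155 (.lg 0 false
  1 29 29 13 0 85680) (.l1 .sk)) (.l1 .sk)) (.nx 189 324 (.nx 187 205 (.l1 (.ls 89 41 1537)) (.nr
  188 623489 (.l1 (.ls 83 43 3500)) .out)) (.nr 206 220437 (.nx 196 16385 (.nr 194 131073 (.lg 0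
  false 5 89 97 19 0 85680) (.nx 195 814 (.lg 0 true 1 79 79 13 0 85680) .out)) (.nr 205 46342 (.nr
  201 498 (.lg 0 true 5 79 79 19 0 85680) (.nx 204 165142 (.lg 2 false 3 97 97 13 20078 85680)
  .out)) .out)) .out)))) .out) .out) (.nx 233 1321124 (.nr 232 1048577 (.nr 210 17 .s1 (.nx 213 120
  (.nx 212 119 (.nr 211 162 (.lg 0 true 1 31 31 13 0 85680) (.l1 .sk)) (.l1 .sk)) (.nx 228 165142
  (.nx 214 205 (.l1 (.ls 89 41 1384)) (.nr 227 623489 (.nx 215 324 (.l1 (.ls 89 43 3150)) (.nr 226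
  220437 (.nr 224 131073 (.nx 218 10323 (.lg 0 false 3 89 97 19 0 85680) (.nr 223 55110 (.nr 219
  1360 (.lg 0 false 1 89 89 13 0 85680) (.nx 221 26009 (.lg 1 false 2 89 97 17 37884 85680) (.nr
  222 32769 (.lg 2 true 1 97 97 13 8954 85680) .out))) .out)) (.nx 225 814 (.lg 0 false 1 79 79 13
  0 85680) .out)) .out)) .out)) (.nr 231 183 (.lg 0 true 3 79 79 19 0 85680) .out)))) .out) .out))
  (.na 261 23 (.nx 260 1321124 (.nr 259 1048577 (.nr 235 18 .s1 (.nx 238 120 (.nx 237 119 (.nr 236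
  178 (.lg 0 false 1 29 29 16 0 85680) (.l1 .sk)) (.l1 .sk)) (.nx 241 324 (.nx 239 205 (.l1 (.ls 83
  37 1318)) (.nr 240 623489 (.l1 (.ls 79 41 3000)) .out)) (.nr 258 220437 (.nx 247 16385 (.nr 245
  131073 (.lg 0 false 4 97 97 17 0 85680) (.nx 246 814 (.lg 0 true 1 73 73 16 0 8568) .out)) (.nr
  257 46342 (.nr 252 498 (.lg 0 true 5 79 79 17 0 42840) (.nx 256 165142 (.lg 2 false 4 89 89 17
  20078 85680) .out)) .out)) .out)))) .out) .out) (.na 262 24 .ne (.nx 284 1321124 (.nr 283 1048577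
  (.nr 263 22 .s1 (.nx 266 120 (.nx 265 119 (.nr 264 193 (.l1 (.ls 37 37 593)) (.l1 .sk)) (.l1
  .sk)) (.nx 272 10323 (.nx 270 6503 (.nx 267 205 (.l1 (.ls 97 41 1154)) (.nr 269 185365 (.lg 0
  false 2 97 97 23 0 85680) .out)) (.nr 271 92683 (.lg 0 false 1 97 97 19 0 85680) .out)) (.nr 282
  55110 (.nx 279 165142 (.nr 273 513 (.lg 0 false 1 79 79 19 0 85680) (.nx 278 82572 (.nx 276 26009
  (.nx 274 16385 (.lg 1 false 1 97 97 19 37884 85680) (.nr 275 38969 (.lg 1 false 1 89 97 19 16892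
  85680) .out)) (.nr 277 32769 (.lg 1 true 1 101 101 19 9578 85680) .out)) .out)) (.nr 281 183 (.lg
  0 true 2 79 79 23 0 17136) .out)) .out)))) .out) .out))))) (.na 383 32 (.na 325 28 (.na 305 27
  (.nx 304 1321124 (.nr 303 1048577 (.nr 286 23 .s1 (.nx 289 120 (.nx 288 119 (.nr 287 209 (.l1
  (.ls 29 23 569)) (.l1 .sk)) (.l1 .sk)) (.nx 290 205 (.l1 (.ls 83 29 1108)) (.nr 302 185365 (.nx
  294 16385 (.lg 0 false 4 97 97 16 0 85680) (.nr 301 38969 (.nr 298 513 (.lg 0 true 4 73 73 16 0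
  85680) (.nx 300 82572 (.lg 2 true 2 89 89 16 16892 85680) .out)) .out)) .out)))) .out) .out) (.nx
  324 1321124 (.nr 323 1048577 (.nr 306 25 .s1 (.nx 310 205 (.nx 308 119 (.nr 307 217 (.l1 (.ls 29
  29 527)) (.l1 .sk)) (.nx 309 120 (.l1 .sk) (.l1 (.ls 83 31 1026)))) (.nr 322 185365 (.nx 314
  16385 (.lg 0 false 4 97 97 16 0 85680) (.nr 321 38969 (.nr 318 513 (.lg 0 true 4 73 73 16 0
  17136) (.nx 320 82572 (.lg 2 true 2 89 89 16 16892 85680) .out)) .out)) .out))) .out) .out)) (.na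
  345 30 (.nx 344 1321124 (.nr 343 1048577 (.nr 326 26 .s1 (.nx 334 16385 (.nx 328 119 (.nr 327 232
  (.l1 (.ls 29 31 508)) (.l1 .sk)) (.nx 329 120 (.l1 .sk) (.nx 330 205 (.l1 (.ls 83 37 989)) (.nr
  333 185365 (.lg 0 false 3 97 97 19 0 85680) .out)))) (.nr 342 38969 (.nr 339 513 (.lg 0 true 5 79
  79 19 0 85680) (.nx 341 82572 (.lg 2 true 2 83 83 13 16892 85680) .out)) .out))) .out) .out) (.na
  363 31 (.nx 362 1321124 (.nr 361 1048577 (.nr 346 28 .s1 (.nx 349 120 (.nx 348 119 (.nr 347 240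
  (.l1 (.ls 37 37 475)) (.l1 .sk)) (.l1 .sk)) (.nx 350 205 (.l1 (.ls 89 41 923)) (.nr 360 185365
  (.nx 352 10323 (.lg 0 false 2 97 97 23 0 85680) (.nr 359 55110 (.nr 355 513 (.lg 0 true 3 83 83
  29 0 85680) (.nx 358 82572 (.nx 356 26009 (.lg 1 true 1 97 97 19 37884 85680) (.nr 357 32769 (.lg
  1 false 1 97 97 19 9578 85680) .out)) .out)) .out)) .out)))) .out) .out) (.nx 382 1321124 (.nr
  381 1048577 (.nr 364 30 .s1 (.nx 367 120 (.nx 366 119 (.nr 365 248 (.l1 (.ls 23 19 459)) (.l1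
  .sk)) (.l1 .sk)) (.nx 373 16385 (.nx 368 205 (.l1 (.ls 83 23 894)) (.nr 372 185365 (.lg 0 false 4
  97 97 16 0 85680) .out)) (.nr 380 38969 (.nr 377 513 (.lg 0 true 4 73 73 16 0 17136) (.nx 379
  82572 (.lg 2 true 2 89 89 16 16892 17136) .out)) .out)))) .out) .out)))) (.na 421 35 (.na 403 33
  (.nx 402 1321124 (.nr 401 1048577 (.nr 384 31 .s1 (.nx 388 205 (.nx 386 119 (.nr 385 255 (.l1
  (.ls 31 29 445)) (.l1 .sk)) (.nx 387 120 (.l1 .sk) (.l1 (.ls 89 31 866)))) (.nr 400 370729 (.nx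
  394 16385 (.nr 390 92683 (.lg 0 false 2 97 97 13 0 85680) (.nx 393 6503 (.lg 0 false 3 89 97 19 0
  85680) .out)) (.nr 399 38969 (.nr 397 513 (.lg 0 true 3 79 79 19 0 17136) (.nx 398 82572 (.lg 2
  true 1 97 97 13 16892 85680) .out)) .out)) .out))) .out) .out) (.na 404 34 .ne (.nx 420 1321124
  (.nr 419 370729 (.nr 405 33 .s1 (.nx 413 13005 (.nx 407 119 (.nr 406 271 (.l1 (.ls 19 31 419))
  (.l1 .sk)) (.nx 408 120 (.l1 .sk) (.lg 0 false 5 83 83 13 0 85680))) (.nr 418 23172 (.nr 415 271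
  (.lg 0 false 2 73 73 13 0 85680) (.nx 417 82572 (.lg 2 true 2 73 73 13 18130 17136) .out))
  .out))) .out) .out))) (.na 438 36 (.nx 437 1321124 (.nr 436 370729 (.nr 422 34 .s1 (.nx 424 119
  (.nr 423 279 (.l1 (.ls 23 29 407)) (.l1 .sk)) (.nx 425 120 (.l1 .sk) (.nx 429 13005 (.lg 0 false
  4 89 89 17 0 85680) (.nr 435 23172 (.nr 433 279 (.lg 0 true 4 71 71 17 0 85680) (.nx 434 82572
  (.lg 2 true 1 83 83 16 17610 85680) .out)) .out))))) .out) .out) (.na 455 40 (.nx 454 1321124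
  (.nr 453 370729 (.nr 439 35 .s1 (.nx 442 120 (.nx 441 119 (.nr 440 310 (.l1 (.ls 31 31 396)) (.l1
  .sk)) (.l1 .sk)) (.nr 450 77937 (.nx 444 13005 (.lg 0 false 2 89 89 23 0 85680) (.nr 449 23172
  (.nr 447 310 (.lg 0 true 3 73 73 23 0 17136) (.nx 448 82572 (.lg 2 true 1 83 83 19 15849 17136)
  .out)) .out)) (.nx 452 6503 (.lg 0 false 2 97 97 23 0 85680) .out)))) .out) .out) (.nx 470
  1321124 (.nr 469 370729 (.nr 456 39 .s1 (.nx 459 120 (.nx 458 119 (.nr 457 317 (.l1 (.ls 41 31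
  357)) (.l1 .sk)) (.l1 .sk)) (.nx 463 13005 (.nr 460 77937 (.lg 0 true 1 97 97 19 0 85680) (.nx
  462 6503 (.lg 0 false 2 97 101 23 0 85680) .out)) (.nr 468 23172 (.nx 465 82572 (.nr 464 5366
  (.lg 0 true 1 89 89 19 0 85680) (.lg 2 false 1 89 89 19 12682 85680)) (.nr 467 217 (.lg 0 true 2
  79 79 23 0 85680) .out)) .out)))) .out) .out)))))) (.na 604 54 (.na 541 48 (.na 506 43 (.na 488
  42 (.nx 487 1321124 (.nr 486 370729 (.nr 472 40 .s1 (.nx 479 13005 (.nx 474 119 (.nr 473 325 (.l1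
  (.ls 23 19 348)) (.l1 .sk)) (.nx 475 120 (.l1 .sk) (.lg 0 false 4 89 89 16 0 17136))) (.nr 485
  23172 (.nr 483 325 (.lg 0 true 4 71 71 16 0 17136) (.nx 484 82572 (.lg 2 true 1 83 83 16 15118
  8568) .out)) .out))) .out) .out) (.nx 505 1321124 (.nr 504 370729 (.nr 489 41 .s1 (.nx 492 120
  (.nx 491 119 (.nr 490 333 (.l1 (.ls 23 37 340)) (.l1 .sk)) (.l1 .sk)) (.nx 497 13005 (.lg 0 false
  5 83 89 29 0 85680) (.nr 503 23172 (.nr 501 333 (.lg 0 true 4 71 71 29 0 17136) (.nx 502 82572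
  (.lg 2 true 1 79 79 19 14754 85680) .out)) .out)))) .out) .out)) (.na 523 45 (.nx 522 1321124
  (.nr 521 370729 (.nr 507 42 .s1 (.nx 514 13005 (.nx 509 119 (.nr 508 348 (.l1 (.ls 29 19 332))
  (.l1 .sk)) (.nx 510 120 (.l1 .sk) (.lg 0 false 4 97 97 16 0 85680))) (.nr 520 23172 (.nr 518 348
  (.lg 0 true 4 73 73 16 0 17136) (.nx 519 82572 (.lg 2 true 1 83 83 16 14118 8568) .out)) .out)))
  .out) .out) (.na 540 46 (.nx 539 1321124 (.nr 538 370729 (.nr 524 44 .s1 (.nx 527 120 (.nx 526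
  119 (.nr 525 356 (.l1 (.ls 31 29 317)) (.l1 .sk)) (.l1 .sk)) (.nx 531 13005 (.lg 0 false 4 89 97
  19 0 85680) (.nr 537 23172 (.nr 535 356 (.lg 0 true 4 71 73 19 0 85680) (.nx 536 82572 (.lg 2
  true 1 83 83 17 13801 42840) .out)) .out)))) .out) .out) .ne))) (.na 556 50 (.na 555 49 (.nx 554
  1321124 (.nr 553 311745 (.nr 542 47 .s1 (.nx 544 119 (.nr 543 379 (.l1 (.ls 37 31 298)) (.l1
  .sk)) (.nx 545 120 (.l1 .sk) (.nx 550 82572 (.nr 548 46342 (.nx 546 20644 (.lg 0 true 1 89 89 23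
  0 85680) (.nr 547 13779 (.lg 0 true 1 97 97 23 0 85680) .out)) (.nx 549 8193 (.lg 0 false 1 101
  101 23 0 85680) .out)) (.nr 552 217 (.lg 0 true 2 73 73 29 0 17136) .out))))) .out) .out) (.lg 0
  false 1 0 0 16 0 24)) (.na 571 51 (.nx 570 1321124 (.nr 569 311745 (.nr 557 49 .s1 (.nx 563 10323
  (.nx 559 119 (.nr 558 395 (.l1 (.ls 29 29 286)) (.l1 .sk)) (.nx 560 120 (.l1 .sk) (.lg 0 false 3
  83 83 19 0 85680))) (.nr 568 23172 (.nr 566 395 (.lg 0 true 3 71 71 19 0 85680) (.nx 567 82572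
  (.lg 2 true 1 79 79 13 15976 85680) .out)) .out))) .out) .out) (.na 588 53 (.nx 587 1321124 (.nr
  586 311745 (.nr 572 50 .s1 (.nx 575 120 (.nx 574 119 (.nr 573 410 (.l1 (.ls 23 29 280)) (.l1
  .sk)) (.l1 .sk)) (.nx 579 10323 (.lg 0 false 4 83 83 16 0 85680) (.nr 585 23172 (.nr 583 410 (.lg
  0 true 4 67 67 16 0 17136) (.nx 584 82572 (.lg 2 true 1 73 73 16 15976 8568) .out)) .out))))
  .out) .out) (.nx 603 1321124 (.nr 602 311745 (.nr 589 52 .s1 (.nx 592 120 (.nx 591 119 (.nr 590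
  418 (.l1 (.ls 23 17 270)) (.l1 .sk)) (.l1 .sk)) (.nx 596 10323 (.lg 0 false 4 89 89 16 0 85680)
  (.nr 601 23172 (.nr 599 418 (.lg 0 true 3 71 71 16 0 8568) (.nx 600 82572 (.lg 2 true 1 79 79 16
  15976 8568) .out)) .out)))) .out) .out))))) (.na 673 63 (.na 631 60 (.na 618 56 (.nx 617 1321124
  (.nr 616 311745 (.nr 605 53 .s1 (.nx 610 10323 (.nx 607 119 (.nr 606 433 (.l1 (.ls 29 31 265))
  (.l1 .sk)) (.nx 608 120 (.l1 .sk) (.lg 0 true 2 89 89 19 0 85680))) (.nr 615 23172 (.nr 613 433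
  (.lg 0 true 3 71 71 23 0 17136) (.nx 614 82572 (.lg 2 true 1 79 79 19 15976 85680) .out)) .out)))
  .out) .out) (.nx 630 1321124 (.nr 629 311745 (.nr 619 55 .s1 (.nx 626 82572 (.nx 621 119 (.nr 620
  464 (.l1 (.ls 31 29 255)) (.l1 .sk)) (.nx 622 120 (.l1 .sk) (.nx 624 10323 (.lg 0 false 2 89 89
  23 0 17136) (.nr 625 23172 (.lg 0 false 1 97 97 19 0 85680) .out)))) (.nr 628 217 (.lg 0 true 2
  71 71 23 0 17136) .out))) .out) .out)) (.na 644 61 (.nx 643 1321124 (.nr 642 311745 (.nr 632 60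
  .s1 (.nx 635 120 (.nx 634 119 (.nr 633 472 (.l1 (.ls 41 31 239)) (.l1 .sk)) (.l1 .sk)) (.nx 638
  20644 (.nr 636 46342 (.lg 0 true 1 83 83 29 0 85680) (.nx 637 8193 (.lg 0 false 1 101 101 29 0
  85680) .out)) (.nr 641 13779 (.nx 639 82572 (.lg 0 true 1 97 97 29 0 85680) (.nr 640 217 (.lg 0
  true 1 73 73 29 0 85680) .out)) .out)))) .out) .out) (.na 659 62 (.nx 658 1321124 (.nr 657 311745
  (.nr 645 61 .s1 (.nx 648 120 (.nx 647 119 (.nr 646 480 (.l1 (.ls 23 17 235)) (.l1 .sk)) (.l1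
  .sk)) (.nx 651 10323 (.lg 0 false 3 83 83 16 0 8568) (.nr 656 23172 (.nr 654 480 (.lg 0 true 3 71
  71 16 0 8568) (.nx 655 82572 (.lg 2 true 1 79 79 16 15976 8568) .out)) .out)))) .out) .out) (.nx
  672 1321124 (.nr 671 311745 (.nr 660 62 .s1 (.nx 663 120 (.nx 662 119 (.nr 661 487 (.l1 (.ls 23
  23 231)) (.l1 .sk)) (.l1 .sk)) (.nx 665 10323 (.lg 0 true 2 89 89 17 0 85680) (.nr 670 23172 (.nr
  668 487 (.lg 0 true 3 71 71 19 0 17136) (.nx 669 82572 (.lg 2 true 1 79 79 13 15976 85680) .out))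
  .out)))) .out) .out)))) (.na 701 67 (.na 686 64 (.nx 685 1321124 (.nr 684 311745 (.nr 674 63 .s1
  (.nx 679 10323 (.nx 676 119 (.nr 675 495 (.l1 (.ls 23 23 227)) (.l1 .sk)) (.nx 677 120 (.l1 .sk)
  (.lg 0 true 2 83 83 17 0 85680))) (.nr 683 23172 (.nr 681 217 (.lg 0 true 2 61 61 17 0 17136)
  (.nx 682 82572 (.lg 2 true 1 73 73 17 22641 8568) .out)) .out))) .out) .out) (.na 700 65 (.nx 699
  1321124 (.nr 698 524289 (.nr 687 64 .s1 (.nx 689 119 (.nr 688 503 (.l1 (.ls 31 23 224)) (.l1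
  .sk)) (.nx 690 120 (.l1 .sk) (.nx 693 10323 (.lg 0 false 3 89 89 23 0 85680) (.nr 697 23172 (.nr
  695 513 (.lg 0 true 2 73 73 19 0 17136) (.nx 696 82572 (.lg 2 true 1 79 79 17 15976 17136) .out))
  .out))))) .out) .out) .ne)) (.na 717 68 (.nx 716 1321124 (.nr 715 524289 (.nr 702 67 .s1 (.nx 709
  8193 (.nx 704 119 (.nr 703 526 (.l1 (.ls 23 17 214)) (.l1 .sk)) (.nx 705 120 (.l1 .sk) (.lg 0
  false 4 83 83 16 0 17136))) (.nr 714 8193 (.nr 712 513 (.lg 0 true 3 71 71 16 0 8568) (.nx 713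
  82572 (.lg 2 false 1 67 67 16 9578 8568) .out)) .out))) .out) .out) (.na 732 70 (.nx 731 1321124
  (.nr 730 524289 (.nr 718 68 .s1 (.nx 724 8193 (.nx 720 119 (.nr 719 541 (.l1 (.ls 23 29 211))
  (.l1 .sk)) (.nx 721 120 (.l1 .sk) (.lg 0 false 3 79 79 23 0 17136))) (.nr 729 8193 (.nr 727 513
  (.lg 0 true 3 67 67 23 0 17136) (.nx 728 82572 (.lg 2 false 1 61 61 13 9578 17136) .out)) .out)))
  .out) .out) (.nx 746 1321124 (.nr 745 524289 (.nr 733 70 .s1 (.nx 739 8193 (.nx 735 119 (.nr 734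
  557 (.l1 (.ls 29 31 205)) (.l1 .sk)) (.nx 736 120 (.l1 .sk) (.lg 0 false 3 83 83 29 0 85680)))
  (.nr 744 8193 (.nr 742 513 (.lg 0 true 3 67 67 29 0 85680) (.nx 743 82572 (.lg 2 false 1 67 67 23
  9578 85680) .out)) .out))) .out) .out)))))))

def T92_1 : Ph :=
  (.na 777 100 (.na 486 57 (.na 273 33 (.na 149 23 (.na 59 19 (.na 1 17 .ne (.nx 58 2097153 (.nr 57
  1048577 (.nr 2 10 .s1 (.nx 5 201 (.nx 4 200 (.nr 3 190 (.lg 0 true 1 29 29 11 0 720) (.l1 .sk))
  (.l1 .sk)) (.nx 49 416129 (.nx 6 324 (.l1 (.ls 83 37 3801)) (.nr 48 623489 (.nx 25 41286 (.nr 13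
  185365 (.lg 0 false 7 101 103 16 0 55440) (.nx 24 10323 (.nr 16 262145 (.lg 0 false 3 89 89 16 0
  720) (.nx 23 2049 (.lg 0 false 7 79 83 16 0 2520) .out)) .out)) (.nr 47 155873 (.nr 32 2200 (.lg
  0 true 7 79 83 16 0 2520) (.nx 39 82572 (.lg 1 false 7 97 101 16 75607 55440) (.nr 46 131073 (.lg
  2 false 7 97 101 16 31797 55440) .out))) .out)) .out)) (.nr 56 257 (.lg 0 true 7 73 73 16 0 2520)
  .out)))) .out) .out)) (.na 104 20 (.nx 103 2097153 (.nr 102 1048577 (.nr 60 13 .s1 (.nx 64 324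
  (.nx 62 200 (.nr 61 200 (.lg 0 false 1 29 29 11 0 720) (.l1 .sk)) (.nx 63 201 (.l1 .sk) (.l1 (.ls
  83 37 3401)))) (.nr 101 623489 (.nx 79 41286 (.nr 75 262145 (.nr 71 185365 (.lg 0 false 7 97 101
  16 0 5040) (.nx 74 10323 (.lg 0 false 3 83 83 16 0 360) .out)) (.nx 78 2049 (.lg 0 false 3 79 79
  16 0 360) .out)) (.nr 100 155873 (.nr 86 751 (.lg 0 true 7 79 79 16 0 2520) (.nx 99 416129 (.lg 2
  false 13 101 107 16 75607 720720) .out)) .out)) .out))) .out) .out) (.nx 148 2097153 (.nr 147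
  1048577 (.nr 105 15 .s1 (.nx 107 200 (.nr 106 230 (.lg 0 true 1 29 29 13 0 720) (.l1 .sk)) (.nx
  108 201 (.l1 .sk) (.nx 109 324 (.l1 (.ls 79 43 3231)) (.nr 146 623489 (.nr 142 262145 (.nx 120
  41286 (.nr 116 185365 (.lg 0 false 7 89 97 19 0 5040) (.nx 119 10323 (.lg 0 false 3 83 83 13 0
  720) .out)) (.nr 141 155873 (.nr 127 751 (.lg 0 true 7 79 79 19 0 5040) (.nx 140 416129 (.lg 2
  false 13 97 103 23 75607 720720) .out)) .out)) (.nx 145 2049 (.lg 0 false 3 79 79 13 0 720)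
  .out)) .out))))) .out) .out))) (.na 189 25 (.na 150 24 .ne (.nx 188 2097153 (.nr 187 1048577 (.nr
  151 20 .s1 (.nx 154 201 (.nx 153 200 (.nr 152 250 (.lg 0 false 1 31 31 13 0 720) (.l1 .sk)) (.l1
  .sk)) (.nx 173 52017 (.nx 165 20644 (.nx 155 324 (.l1 (.ls 83 43 2693)) (.nr 164 524289 (.nr 162
  370729 (.lg 0 false 7 89 97 29 0 5040) (.nx 163 1292 (.lg 0 false 1 79 79 13 0 720) .out)) .out))
  (.nr 172 131073 (.lg 0 false 7 83 97 29 0 5040) .out)) (.nr 186 92683 (.nx 182 330282 (.nr 175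
  1629 (.lg 0 true 2 79 79 19 0 720) (.lg 2 false 7 83 97 29 35713 5040)) (.nr 185 257 (.lg 0 true
  3 73 73 23 0 720) .out)) .out)))) .out) .out)) (.na 228 27 (.nx 227 2097153 (.nr 226 1048577 (.nr
  190 21 .s1 (.nx 193 201 (.nx 192 200 (.nr 191 270 (.lg 0 false 1 31 31 16 0 720) (.l1 .sk)) (.l1
  .sk)) (.nx 194 324 (.l1 (.ls 83 31 2586)) (.nr 225 524289 (.nr 223 370729 (.nx 205 41287 (.nr 201
  185365 (.lg 0 false 7 89 97 17 0 5040) (.nx 204 13005 (.lg 0 false 3 83 97 16 0 720) .out)) (.nr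
  222 110219 (.nx 218 524289 (.nr 208 809 (.lg 0 true 3 73 73 16 0 360) (.nx 217 330282 (.nr 215
  92683 (.lg 2 false 7 89 103 17 44995 720720) (.nx 216 52017 (.lg 0 false 1 83 83 16 0 720) .out))
  .out)) (.nr 221 129 (.lg 0 true 3 71 71 16 0 360) .out)) .out)) (.nx 224 1292 (.lg 0 false 1 79
  79 16 0 360) .out)) .out)))) .out) .out) (.na 272 32 (.nx 271 2097153 (.nr 270 1048577 (.nr 229
  24 .s1 (.nx 232 201 (.nx 231 200 (.nr 230 321 (.l1 (.ls 23 31 1484)) (.l1 .sk)) (.l1 .sk)) (.nx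
  233 324 (.l1 (.ls 79 37 2394)) (.nr 269 524289 (.nr 267 370729 (.nx 240 20644 (.lg 0 false 7 89
  89 17 0 5040) (.nr 266 131073 (.nr 263 92683 (.nr 247 930 (.lg 0 true 7 79 79 17 0 2520) (.nx 262
  330282 (.nr 254 65537 (.lg 2 true 7 73 73 17 63688 2520) (.nx 261 262145 (.lg 0 true 7 89 97 17 0
  5040) .out)) .out)) (.nx 265 52017 (.lg 0 true 2 89 89 16 0 720) .out)) .out)) (.nx 268 1292 (.lg
  0 true 1 73 73 16 0 360) .out)) .out)))) .out) .out) .ne)))) (.na 396 44 (.na 326 40 (.na 300 36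
  (.nx 299 2097153 (.nr 298 881745 (.nr 274 30 .s1 (.nx 277 201 (.nx 276 200 (.nr 275 361 (.lg 0
  false 1 31 31 16 0 7920) (.l1 .sk)) (.l1 .sk)) (.nx 278 324 (.l1 (.ls 83 37 1959)) (.nr 297
  623489 (.nx 285 13005 (.lg 0 false 7 89 101 23 0 55440) (.nr 296 155873 (.nx 292 262145 (.nx 287
  32769 (.lg 0 false 2 97 97 17 0 7920) (.nr 291 65537 (.nr 288 1067 (.lg 0 false 1 79 79 16 0
  3960) (.nx 290 208065 (.lg 2 false 2 97 101 17 40123 55440) .out)) .out)) (.nr 295 217 (.lg 0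
  true 3 73 73 19 0 3960) .out)) .out)) .out)))) .out) .out) (.nx 325 2097153 (.nr 324 881745 (.nr
  301 34 .s1 (.nx 305 324 (.nx 303 200 (.nr 302 401 (.lg 0 false 1 31 31 19 0 720) (.l1 .sk)) (.nx
  304 201 (.l1 .sk) (.l1 (.ls 79 41 1796)))) (.nr 323 623489 (.nx 312 13005 (.lg 0 false 7 83 97 29
  0 5040) (.nr 322 155873 (.nx 314 32769 (.lg 0 false 2 89 97 23 0 720) (.nr 321 65537 (.nx 317
  208065 (.nr 315 1154 (.lg 0 false 1 73 73 19 0 720) (.lg 2 false 2 89 97 23 40123 5040)) (.nr 320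
  257 (.lg 0 true 3 73 73 23 0 720) .out)) .out)) .out)) .out))) .out) .out)) (.na 350 41 (.nx 349
  2097153 (.nr 348 881745 (.nr 327 38 .s1 (.nx 339 26009 (.nx 329 200 (.nr 328 411 (.l1 (.ls 23 37
  1002)) (.l1 .sk)) (.nx 330 201 (.l1 .sk) (.nx 331 324 (.l1 (.ls 73 41 1617)) (.nr 338 623489 (.lg
  0 false 7 89 97 23 0 55440) .out)))) (.nr 347 77937 (.nr 343 411 (.lg 0 true 4 71 71 19 0 720)
  (.nx 346 208065 (.lg 2 false 3 89 89 19 60086 7920) .out)) .out))) .out) .out) (.na 373 43 (.nx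
  372 2097153 (.nr 371 881745 (.nr 351 39 .s1 (.nx 355 324 (.nx 353 200 (.nr 352 431 (.l1 (.ls 23
  23 978)) (.l1 .sk)) (.nx 354 201 (.l1 .sk) (.l1 (.ls 79 29 1578)))) (.nr 370 623489 (.nx 362
  26009 (.lg 0 false 7 89 97 16 0 5040) (.nr 369 77937 (.nr 365 431 (.lg 0 true 3 71 71 16 0 360)
  (.nx 368 208065 (.lg 2 false 3 89 89 16 60086 360) .out)) .out)) .out))) .out) .out) (.nx 395
  2097153 (.nr 394 881745 (.nr 374 41 .s1 (.nx 377 201 (.nx 376 200 (.nr 375 441 (.l1 (.ls 23 23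
  933)) (.l1 .sk)) (.l1 .sk)) (.nx 378 324 (.l1 (.ls 73 29 1504)) (.nr 393 623489 (.nx 385 26009
  (.lg 0 false 7 89 97 16 0 5040) (.nr 392 77937 (.nr 388 441 (.lg 0 true 3 71 71 16 0 360) (.nx
  391 208065 (.lg 2 false 3 89 89 16 60086 360) .out)) .out)) .out)))) .out) .out)))) (.na 440 46
  (.na 418 45 (.nx 417 2097153 (.nr 416 881745 (.nr 397 42 .s1 (.nx 409 32769 (.nx 399 200 (.nr 398
  451 (.l1 (.ls 31 37 912)) (.l1 .sk)) (.nx 400 201 (.l1 .sk) (.nx 401 324 (.l1 (.ls 83 41 1470))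
  (.nr 408 623489 (.nr 404 155873 (.lg 0 false 3 89 97 23 0 7920) (.nx 407 13005 (.lg 0 false 3 89
  97 23 0 7920) .out)) .out)))) (.nr 415 65537 (.nr 412 451 (.lg 0 true 3 73 73 23 0 7920) (.nx 414
  208065 (.lg 2 false 2 89 97 23 46135 7920) .out)) .out))) .out) .out) (.nx 439 2097153 (.nr 438
  881745 (.nr 419 43 .s1 (.nx 422 201 (.nx 421 200 (.nr 420 461 (.l1 (.ls 19 31 891)) (.l1 .sk))
  (.l1 .sk)) (.nx 423 324 (.l1 (.ls 71 37 1438)) (.nr 437 623489 (.nx 430 32769 (.lg 0 false 7 83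
  89 19 0 5040) (.nr 436 65537 (.nr 433 461 (.lg 0 true 3 67 67 17 0 360) (.nx 435 208065 (.lg 2
  true 2 83 83 17 45134 720) .out)) .out)) .out)))) .out) .out)) (.na 441 51 .ne (.na 467 55 (.nx
  466 2097153 (.nr 465 881745 (.nr 442 50 .s1 (.nx 446 324 (.nx 444 200 (.nr 443 551 (.l1 (.ls 31
  31 787)) (.l1 .sk)) (.nx 445 201 (.l1 .sk) (.l1 (.ls 79 37 1269)))) (.nr 464 741457 (.nx 453
  20644 (.lg 0 false 7 89 101 29 0 55440) (.nr 463 110219 (.nx 459 208065 (.nr 455 10362 (.lg 0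
  true 2 89 89 16 0 720) (.nr 457 46342 (.lg 2 false 2 79 79 16 45092 720) (.nx 458 32769 (.lg 0
  false 1 83 83 16 0 360) .out))) (.nr 462 257 (.lg 0 true 3 71 71 19 0 360) .out)) .out)) .out)))
  .out) .out) (.nx 485 2097153 (.nr 484 881745 (.nr 468 54 .s1 (.nx 477 26009 (.nx 469 324 (.l1
  (.ls 73 37 1911)) (.nr 476 741457 (.lg 0 false 7 89 97 19 0 55440) .out)) (.nr 483 65537 (.nr 480
  571 (.lg 0 true 3 71 71 17 0 3960) (.nx 482 208065 (.lg 2 true 2 89 89 17 50551 7920) .out))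
  .out))) .out) .out)))))) (.na 636 76 (.na 543 67 (.na 524 60 (.na 505 59 (.nx 504 2097153 (.nr
  503 881745 (.nr 487 56 .s1 (.nx 490 201 (.nx 489 200 (.nr 488 591 (.l1 (.ls 31 31 704)) (.l1
  .sk)) (.l1 .sk)) (.nx 500 208065 (.nx 497 32769 (.nx 491 324 (.l1 (.ls 79 37 1135)) (.nr 496
  741457 (.nr 493 155873 (.lg 0 false 2 89 97 17 0 720) (.nx 495 16385 (.lg 0 false 2 97 97 17 0
  720) .out)) .out)) (.nr 499 46342 (.nr 498 1544 (.lg 0 false 1 73 73 16 0 360) (.lg 2 true 1 83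
  83 16 28407 360)) .out)) (.nr 502 257 (.lg 0 true 2 71 71 17 0 720) .out)))) .out) .out) (.nx 523
  2097153 (.nr 522 881745 (.nr 506 58 .s1 (.nx 507 324 (.l1 (.ls 73 29 1782)) (.nr 521 741457 (.nx
  514 32769 (.lg 0 false 7 97 97 17 0 55440) (.nr 520 46342 (.nr 517 601 (.lg 0 true 3 71 71 16 0
  360) (.nx 519 208065 (.lg 2 false 2 79 79 16 34620 720) .out)) .out)) .out))) .out) .out)) (.na
  542 64 (.nx 541 2097153 (.nr 540 881745 (.nr 525 59 .s1 (.nx 527 200 (.nr 526 641 (.l1 (.ls 29 41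
  669)) (.l1 .sk)) (.nx 528 201 (.l1 .sk) (.nx 529 324 (.l1 (.ls 73 41 1079)) (.nr 539 741457 (.nx
  534 32769 (.nr 531 155873 (.lg 0 false 2 83 89 29 0 720) (.nx 533 16385 (.lg 0 false 2 89 89 29 0
  720) .out)) (.nr 538 46342 (.nr 536 641 (.lg 0 true 2 73 73 29 0 720) (.nx 537 208065 (.lg 2 true
  1 83 83 23 32460 720) .out)) .out)) .out))))) .out) .out) .ne)) (.na 581 72 (.na 562 68 (.nx 561
  2097153 (.nr 560 2097153 (.nr 544 66 .s1 (.nx 553 20644 (.nx 545 324 (.l1 (.ls 79 29 1569)) (.nr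
  552 1048577 (.lg 0 false 7 83 89 17 0 2520) .out)) (.nr 559 65537 (.nr 556 513 (.lg 0 true 3 61
  61 16 0 360) (.nx 558 131073 (.lg 2 false 2 83 83 16 63688 720) .out)) .out))) .out) .out) (.nx
  580 2097153 (.nr 579 2097153 (.nr 563 67 .s1 (.nx 571 20644 (.nx 565 200 (.nr 564 721 (.l1 (.ls
  31 37 591)) (.l1 .sk)) (.nx 566 201 (.l1 .sk) (.nx 567 324 (.l1 (.ls 83 37 952)) (.nr 570 1048577
  (.lg 0 false 3 97 97 29 0 720) .out)))) (.nr 578 65537 (.nr 576 32769 (.nr 574 513 (.lg 0 true 3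
  73 73 29 0 720) (.nx 575 131073 (.lg 2 true 1 83 83 13 31942 720) .out)) (.nx 577 32769 (.lg 0
  false 1 79 79 13 0 720) .out)) .out))) .out) .out)) (.na 599 73 (.nx 598 2097153 (.nr 597 2097153
  (.nr 582 71 .s1 (.nx 586 324 (.nx 584 200 (.nr 583 731 (.l1 (.ls 29 37 558)) (.l1 .sk)) (.nx 585
  201 (.l1 .sk) (.l1 (.ls 79 37 899)))) (.nr 596 1048577 (.nx 589 20644 (.lg 0 false 3 89 97 29 0
  720) (.nr 595 65537 (.nr 593 32769 (.nr 591 513 (.lg 0 true 2 71 71 29 0 720) (.nx 592 131073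
  (.lg 2 true 1 79 79 23 31942 720) .out)) (.nx 594 32769 (.lg 0 false 1 73 73 23 0 720) .out))
  .out)) .out))) .out) .out) (.na 618 75 (.nx 617 2097153 (.nr 616 2097153 (.nr 600 72 .s1 (.nx 609
  20644 (.nx 601 324 (.l1 (.ls 71 29 1441)) (.nr 608 1048577 (.lg 0 false 7 83 89 17 0 2520) .out))
  (.nr 615 65537 (.nr 612 513 (.lg 0 true 3 61 61 16 0 360) (.nx 614 131073 (.lg 2 false 2 83 83 16
  63688 720) .out)) .out))) .out) .out) (.nx 635 2097153 (.nr 634 2097153 (.nr 619 74 .s1 (.nx 622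
  201 (.nx 621 200 (.nr 620 761 (.l1 (.ls 37 29 536)) (.l1 .sk)) (.l1 .sk)) (.nx 628 20644 (.nx 623
  324 (.l1 (.ls 83 31 864)) (.nr 627 1048577 (.nr 625 741457 (.lg 0 false 2 97 103 23 0 55440) (.nx
  626 8192 .out (.lg 0 false 1 89 97 23 0 720))) .out)) (.nr 633 65537 (.nr 631 32769 (.nr 629 513
  (.lg 0 true 1 73 73 23 0 360) (.nx 630 131073 (.lg 2 true 1 83 83 23 31942 720) .out)) (.nx 632
  32769 (.lg 0 false 1 79 83 23 0 720) .out)) .out)))) .out) .out))))) (.na 721 89 (.na 673 83 (.na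
  655 81 (.nx 654 2097153 (.nr 653 2097153 (.nr 637 75 .s1 (.nx 641 324 (.nr 638 811 (.l1 (.ls 37
  41 1384)) (.nx 640 201 (.nx 639 200 (.l1 .sk) (.l1 .sk)) (.l1 (.ls 83 37 852)))) (.nr 652 1048577
  (.nx 644 20644 (.lg 0 false 3 97 97 29 0 720) (.nr 651 65537 (.nr 647 513 (.lg 0 true 3 73 73 29
  0 720) (.nx 650 131073 (.nr 648 32769 (.lg 2 false 1 83 83 17 31942 720) (.nx 649 32769 (.lg 0
  false 1 79 79 17 0 720) .out)) .out)) .out)) .out))) .out) .out) (.nx 672 2097153 (.nr 671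
  2097153 (.nr 656 80 .s1 (.nx 665 32769 (.nx 657 324 (.l1 (.ls 73 31 1298)) (.nr 664 1048577 (.lg
  0 false 7 83 89 19 0 55440) .out)) (.nr 670 32769 (.nr 668 513 (.lg 0 true 3 61 61 17 0 360) (.nx
  669 131073 (.lg 2 true 1 71 71 16 25551 360) .out)) .out))) .out) .out)) (.na 688 85 (.nx 687
  2097153 (.nr 686 2097153 (.nr 674 82 .s1 (.nx 675 324 (.l1 (.ls 73 29 1267)) (.nr 685 1048577
  (.nx 678 20644 (.lg 0 false 3 89 89 16 0 360) (.nr 684 65537 (.nr 681 513 (.lg 0 true 3 61 61 16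
  0 360) (.nx 683 131073 (.lg 2 false 2 79 79 16 63688 720) .out)) .out)) .out))) .out) .out) (.na
  703 88 (.nx 702 2097153 (.nr 701 2097153 (.nr 689 84 .s1 (.nx 690 324 (.l1 (.ls 79 31 1238)) (.nr
  700 1048577 (.nx 693 20644 (.lg 0 false 3 83 83 16 0 360) (.nr 699 65537 (.nr 696 513 (.lg 0 true
  3 67 67 16 0 360) (.nx 698 131073 (.lg 2 true 2 83 83 16 63688 720) .out)) .out)) .out))) .out)
  .out) (.nx 720 2097153 (.nr 719 2097153 (.nr 704 87 .s1 (.nx 712 20644 (.nx 706 200 (.nr 705 892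
  (.l1 (.ls 31 31 457)) (.l1 .sk)) (.nx 707 201 (.l1 .sk) (.nx 708 324 (.l1 (.ls 83 37 736)) (.nr
  711 1048577 (.lg 0 false 3 89 97 29 0 7920) .out)))) (.nr 718 65537 (.nr 714 513 (.lg 0 true 2 71
  71 29 0 7920) (.nx 717 131073 (.nr 715 32769 (.lg 2 true 1 79 79 23 31942 7920) (.nx 716 32769
  (.lg 0 false 1 73 73 23 0 7920) .out)) .out)) .out))) .out) .out)))) (.na 737 95 (.na 736 91 (.nx
  735 2097153 (.nr 734 2097153 (.nr 722 88 .s1 (.nx 723 324 (.l1 (.ls 73 29 1182)) (.nr 733 1048577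
  (.nx 726 20644 (.lg 0 false 3 83 83 16 0 720) (.nr 732 65537 (.nr 729 513 (.lg 0 true 3 61 61 16
  0 360) (.nx 731 131073 (.lg 2 true 2 79 79 16 63688 720) .out)) .out)) .out))) .out) .out) .ne)
  (.na 751 97 (.nx 750 2097153 (.nr 749 2097153 (.nr 738 94 .s1 (.nx 739 324 (.l1 (.ls 73 31 1108))
  (.nr 748 1048577 (.nx 742 20644 (.lg 0 false 3 83 83 17 0 360) (.nr 747 65537 (.nr 744 513 (.lg 0
  true 2 67 67 17 0 720) (.nx 746 131073 (.lg 2 false 2 79 79 17 63688 720) .out)) .out)) .out)))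
  .out) .out) (.na 765 99 (.nx 764 2097153 (.nr 763 2097153 (.nr 752 96 .s1 (.nx 753 324 (.l1 (.ls
  73 23 1085)) (.nr 762 1048577 (.nx 756 20644 (.lg 0 false 3 79 79 16 0 360) (.nr 761 65537 (.nr
  758 513 (.lg 0 true 2 61 61 16 0 720) (.nx 760 131073 (.lg 2 true 2 73 73 16 63688 720) .out))
  .out)) .out))) .out) .out) (.nx 776 2097153 (.nr 775 2097153 (.nr 766 98 .s1 (.nx 770 20644 (.nx
  767 324 (.l1 (.ls 79 37 1063)) (.nr 769 1048577 (.lg 0 false 2 97 97 23 0 7920) .out)) (.nr 774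
  65537 (.nr 772 513 (.lg 0 true 2 71 71 23 0 7920) (.nx 773 131073 (.lg 2 false 1 83 83 19 63688
  3960) .out)) .out))) .out) .out))))))) (.na 977 153 (.na 871 129 (.na 831 120 (.na 806 108 (.na
  793 107 (.nx 792 2097153 (.nr 791 2097153 (.nr 778 99 .s1 (.nx 789 131073 (.nx 780 200 (.nr 779
  1072 (.l1 (.ls 37 31 402)) (.l1 .sk)) (.nx 781 201 (.l1 .sk) (.nx 782 324 (.l1 (.ls 83 37 648))
  (.nr 788 1048577 (.nx 784 20644 (.lg 0 false 2 89 97 31 0 720) (.nr 787 65537 (.nr 785 32769 (.lg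
  0 true 1 83 89 29 0 720) (.nx 786 32769 (.lg 0 false 1 73 79 29 0 720) .out)) .out)) .out))))
  (.nr 790 513 (.lg 0 true 1 73 73 29 0 720) .out))) .out) .out) (.nx 805 2097153 (.nr 804 2097153
  (.nr 794 107 .s1 (.nx 795 324 (.l1 (.ls 71 23 984)) (.nr 803 1048577 (.nx 798 20644 (.lg 0 false
  3 79 79 16 0 360) (.nr 802 65537 (.nr 800 513 (.lg 0 true 2 61 61 16 0 720) (.nx 801 131073 (.lg
  2 true 1 79 79 16 63688 720) .out)) .out)) .out))) .out) .out)) (.na 818 113 (.nx 817 2097153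
  (.nr 816 2097153 (.nr 807 108 .s1 (.nx 811 20644 (.nx 808 324 (.l1 (.ls 79 41 974)) (.nr 810
  1048577 (.lg 0 false 2 83 89 29 0 720) .out)) (.nr 815 65537 (.nr 813 513 (.lg 0 true 2 67 67 29
  0 720) (.nx 814 131073 (.lg 2 true 1 83 83 23 63688 720) .out)) .out))) .out) .out) (.nx 830
  2097153 (.nr 829 2097153 (.nr 819 113 .s1 (.nx 820 324 (.l1 (.ls 71 23 931)) (.nr 828 1048577
  (.nx 823 20644 (.lg 0 false 3 79 79 16 0 360) (.nr 827 65537 (.nr 825 513 (.lg 0 true 2 59 59 16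
  0 720) (.nx 826 131073 (.lg 2 true 1 79 79 16 63688 360) .out)) .out)) .out))) .out) .out))) (.na
  857 123 (.na 843 121 (.nx 842 2097153 (.nr 841 2097153 (.nr 832 120 .s1 (.nx 838 131073 (.nx 833
  324 (.l1 (.ls 79 41 877)) (.nr 837 1048577 (.nx 835 20644 (.lg 0 false 2 89 89 31 0 720) (.nr 836
  65537 (.lg 0 false 1 89 89 29 0 720) .out)) .out)) (.nr 840 513 (.lg 0 true 2 67 67 31 0 720)
  .out))) .out) .out) (.nx 856 2097153 (.nr 855 2097153 (.nr 844 121 .s1 (.nx 849 20644 (.nx 845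
  324 (.l1 (.ls 73 29 870)) (.nr 848 1048577 (.lg 0 false 3 79 79 19 0 3960) .out)) (.nr 854 65537
  (.nx 851 131073 (.lg 0 true 2 79 79 17 0 7920) (.nr 853 513 (.lg 0 true 2 61 61 17 0 7920) .out))
  .out))) .out) .out)) (.na 869 125 (.nx 868 2097153 (.nr 867 2097153 (.nr 858 123 .s1 (.nx 859 324
  (.l1 (.ls 79 29 856)) (.nr 866 1048577 (.nx 861 20644 (.lg 0 false 2 89 89 19 0 720) (.nr 865
  65537 (.nx 862 131073 (.lg 0 false 1 89 89 17 0 720) (.nr 864 513 (.lg 0 true 2 67 67 19 0 720)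
  .out)) .out)) .out))) .out) .out) (.na 870 128 (.lg 0 false 1 0 0 16 0 24) .ne)))) (.na 937 137
  (.na 896 132 (.na 883 131 (.nx 882 1048577 (.nr 881 1482912 (.nr 872 129 .s1 (.nx 875 201 (.nx
  874 200 (.nr 873 1312 (.l1 (.ls 23 23 313)) (.l1 .sk)) (.l1 .sk)) (.nx 879 131073 (.nx 877 16385
  (.lg 0 false 2 89 89 19 0 720) (.nr 878 65537 (.lg 0 false 1 89 89 19 0 720) .out)) (.nr 880 1025
  (.lg 0 true 1 71 71 19 0 360) .out)))) .out) .out) (.nx 895 1048577 (.nr 894 1482912 (.nr 884 131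
  .s1 (.nx 887 201 (.nx 886 200 (.nr 885 1322 (.l1 (.ls 19 19 308)) (.l1 .sk)) (.l1 .sk)) (.nx 890
  16385 (.lg 0 false 3 79 79 17 0 360) (.nr 893 65537 (.nx 891 131073 (.lg 0 false 1 79 79 16 0
  360) (.nr 892 1025 (.lg 0 false 1 67 67 16 0 720) .out)) .out)))) .out) .out)) (.na 910 135 (.nx
  909 1048577 (.nr 908 1482912 (.nr 897 132 .s1 (.nx 906 131073 (.nx 902 16385 (.nx 899 200 (.nr
  898 1352 (.l1 (.ls 37 37 306)) (.l1 .sk)) (.nx 900 201 (.l1 .sk) (.lg 0 false 2 89 101 37 0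
  7920))) (.nr 905 65537 (.nr 903 16385 (.lg 0 true 1 83 83 31 0 7920) (.nx 904 32769 (.lg 0 false
  1 79 83 31 0 7920) .out)) .out)) (.nr 907 1025 (.lg 0 true 1 79 79 31 0 7920) .out))) .out) .out)
  (.na 924 136 (.nx 923 1048577 (.nr 922 1482912 (.nr 911 135 .s1 (.nx 920 131073 (.nx 913 200 (.nr
  912 1362 (.l1 (.ls 19 29 299)) (.l1 .sk)) (.nx 914 201 (.l1 .sk) (.nr 916 65537 (.lg 0 true 2 73
  73 19 0 720) (.nx 919 16385 (.lg 0 false 3 79 79 23 0 360) .out)))) (.nr 921 1025 (.lg 0 false 1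
  61 61 19 0 360) .out))) .out) .out) (.nx 936 1048577 (.nr 935 1482912 (.nr 925 136 .s1 (.nx 927
  200 (.nr 926 1372 (.l1 (.ls 16 31 297)) (.l1 .sk)) (.nx 928 201 (.l1 .sk) (.nx 931 16385 (.lg 0
  false 3 83 89 31 0 720) (.nr 934 65537 (.nx 932 131073 (.lg 0 false 1 89 89 29 0 720) (.nr 933
  1025 (.lg 0 true 1 71 71 29 0 720) .out)) .out))))) .out) .out)))) (.na 963 149 (.na 950 139 (.nx
  949 1048577 (.nr 948 1482912 (.nr 938 137 .s1 (.nx 941 201 (.nx 940 200 (.nr 939 1392 (.l1 (.ls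
  19 19 294)) (.l1 .sk)) (.l1 .sk)) (.nx 946 131073 (.nx 944 16385 (.lg 0 false 3 73 73 17 0 360)
  (.nr 945 65537 (.lg 0 false 1 79 79 16 0 720) .out)) (.nr 947 1025 (.lg 0 false 1 67 67 16 0 720)
  .out)))) .out) .out) (.nx 962 1048577 (.nr 961 1482912 (.nr 951 139 .s1 (.nx 953 200 (.nr 952
  1492 (.l1 (.ls 19 19 290)) (.l1 .sk)) (.nx 954 201 (.l1 .sk) (.nr 957 65537 (.nx 955 131073 (.lg
  0 false 1 79 79 16 0 360) (.nr 956 1025 (.lg 0 false 1 67 67 16 0 360) .out)) (.nx 960 16385 (.lg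
  0 false 3 79 79 17 0 360) .out))))) .out) .out)) (.na 964 151 (.lg 0 false 1 0 0 16 0 24) (.na
  965 152 (.lg 0 false 1 0 0 16 0 24) (.nx 976 1048577 (.nr 975 1482912 (.nr 966 152 .s1 (.nx 973
  131073 (.nx 971 16385 (.nx 968 200 (.nr 967 1532 (.l1 (.ls 17 31 266)) (.l1 .sk)) (.nx 969 201
  (.l1 .sk) (.lg 0 false 2 89 89 29 0 720))) (.nr 972 65537 (.lg 0 true 1 83 83 29 0 720) .out))
  (.nr 974 1025 (.lg 0 true 1 67 67 29 0 720) .out))) .out) .out)))))) (.na 1053 177 (.na 1015 165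
  (.na 990 163 (.na 989 157 (.nx 988 1048577 (.nr 987 1482912 (.nr 978 153 .s1 (.nx 980 200 (.nr
  979 1572 (.l1 (.ls 16 29 264)) (.l1 .sk)) (.nx 981 201 (.l1 .sk) (.nr 984 65537 (.nx 982 131073
  (.lg 0 false 1 89 89 23 0 720) (.nr 983 1025 (.lg 0 true 1 67 67 23 0 360) .out)) (.nx 986 16385
  (.lg 0 false 2 89 89 29 0 720) .out))))) .out) .out) (.lg 0 false 1 0 0 16 0 24)) (.na 1003 164
  (.nx 1002 1048577 (.nr 1001 1482912 (.nr 991 163 .s1 (.nx 994 201 (.nx 993 200 (.nr 992 1642 (.l1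
  (.ls 19 17 248)) (.l1 .sk)) (.l1 .sk)) (.nx 997 32769 (.lg 0 false 3 79 79 17 0 360) (.nr 1000
  16385 (.nr 998 1025 (.lg 0 false 1 61 61 16 0 360) (.nx 999 131073 (.lg 2 true 1 53 53 16 12788
  720) .out)) .out)))) .out) .out) (.nx 1014 1048577 (.nr 1013 1482912 (.nr 1004 164 .s1 (.nx 1011
  131073 (.nx 1009 16385 (.nx 1006 200 (.nr 1005 1653 (.l1 (.ls 23 29 246)) (.l1 .sk)) (.nx 1007
  201 (.l1 .sk) (.lg 0 false 2 89 89 29 0 720))) (.nr 1010 65537 (.lg 0 false 1 83 83 23 0 720)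
  .out)) (.nr 1012 1025 (.lg 0 true 1 67 67 23 0 720) .out))) .out) .out))) (.na 1028 171 (.na 1027
  167 (.nx 1026 1048577 (.nr 1025 1482912 (.nr 1016 165 .s1 (.nx 1018 200 (.nr 1017 1673 (.l1 (.ls
  29 29 245)) (.l1 .sk)) (.nx 1019 201 (.l1 .sk) (.nx 1023 131073 (.nr 1020 65537 (.lg 0 false 1 83
  83 29 0 7920) (.nx 1022 16385 (.lg 0 false 2 83 83 29 0 7920) .out)) (.nr 1024 1025 (.lg 0 true 1
  67 67 29 0 3960) .out))))) .out) .out) (.lg 0 false 1 0 0 16 0 24)) (.na 1040 172 (.nx 1039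
  1048577 (.nr 1038 1482912 (.nr 1029 171 .s1 (.nx 1036 131073 (.nx 1031 200 (.nr 1030 1723 (.l1
  (.ls 17 29 236)) (.l1 .sk)) (.nx 1032 201 (.l1 .sk) (.nx 1034 16385 (.lg 0 false 2 89 89 29 0
  720) (.nr 1035 65537 (.lg 0 true 1 83 83 17 0 360) .out)))) (.nr 1037 1025 (.lg 0 true 1 67 67 17
  0 360) .out))) .out) .out) (.na 1052 173 (.nx 1051 1048577 (.nr 1050 1482912 (.nr 1041 172 .s1
  (.nx 1044 201 (.nx 1043 200 (.nr 1042 1733 (.l1 (.ls 29 23 235)) (.l1 .sk)) (.l1 .sk)) (.nx 1048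
  131073 (.nr 1045 65537 (.lg 0 false 1 89 89 23 0 720) (.nx 1047 16385 (.lg 0 false 2 89 89 29 0
  720) .out)) (.nr 1049 1025 (.lg 0 true 1 67 67 23 0 720) .out)))) .out) .out) (.lg 0 false 1 0 0
  16 0 24))))) (.na 1092 187 (.na 1078 180 (.na 1065 179 (.nx 1064 1048577 (.nr 1063 1482912 (.nr
  1054 177 .s1 (.nx 1056 200 (.nr 1055 1793 (.l1 (.ls 23 23 228)) (.l1 .sk)) (.nx 1057 201 (.l1
  .sk) (.nx 1061 131073 (.nx 1059 16385 (.lg 0 false 2 89 89 23 0 720) (.nr 1060 65537 (.lg 0 true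
  1 83 83 19 0 360) .out)) (.nr 1062 1025 (.lg 0 true 1 67 67 19 0 360) .out))))) .out) .out) (.nx
  1077 1048577 (.nr 1076 1482912 (.nr 1066 179 .s1 (.nx 1069 201 (.nx 1068 200 (.nr 1067 1803 (.l1
  (.ls 17 17 226)) (.l1 .sk)) (.l1 .sk)) (.nx 1072 32769 (.lg 0 false 3 79 79 17 0 360) (.nr 1075
  16385 (.nr 1073 1025 (.lg 0 false 1 61 61 16 0 720) (.nx 1074 131073 (.lg 2 false 1 47 47 16
  12788 360) .out)) .out)))) .out) .out)) (.na 1090 181 (.nx 1089 1048577 (.nr 1088 1482912 (.nr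
  1079 180 .s1 (.nx 1086 131073 (.nx 1081 200 (.nr 1080 1813 (.l1 (.ls 29 31 225)) (.l1 .sk)) (.nx
  1082 201 (.l1 .sk) (.nx 1084 16385 (.lg 0 false 2 83 83 37 0 720) (.nr 1085 65537 (.lg 0 true 1
  83 83 31 0 720) .out)))) (.nr 1087 1025 (.lg 0 true 1 67 67 31 0 720) .out))) .out) .out) (.na
  1091 182 (.lg 0 false 1 0 0 16 0 24) .ne))) (.na 1105 193 (.na 1104 191 (.nx 1103 1048577 (.nr
  1102 1048577 (.nr 1093 187 .s1 (.nx 1095 200 (.nr 1094 1913 (.l1 (.ls 16 23 216)) (.l1 .sk)) (.nx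
  1096 201 (.l1 .sk) (.nx 1100 131073 (.nr 1097 65537 (.lg 0 false 1 83 83 23 0 3960) (.nx 1099
  16385 (.lg 0 false 2 89 89 29 0 7920) .out)) (.nr 1101 1025 (.lg 0 true 1 67 67 23 0 3960)
  .out))))) .out) .out) (.lg 0 false 1 0 0 16 0 24)) (.na 1118 197 (.nx 1117 1048577 (.nr 1116
  1048577 (.nr 1106 193 .s1 (.nx 1109 201 (.nx 1108 200 (.nr 1107 1973 (.l1 (.ls 19 17 210)) (.l1
  .sk)) (.l1 .sk)) (.nx 1112 32769 (.lg 0 false 3 73 73 17 0 360) (.nr 1115 16385 (.nr 1113 1025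
  (.lg 0 false 1 61 61 16 0 720) (.nx 1114 131073 (.lg 2 false 1 47 47 16 12788 360) .out))
  .out)))) .out) .out) (.na 1119 199 (.lg 0 false 1 0 0 16 0 24) (.lg 0 false 1 0 0 16 0 24))))))))

theorem c92 :
    OkQ ckI L6 119 12 72 0 34359738368 1 1099511627776 ∧
    OkQ ckI L9 200 16 200 0 34359738368 1 1099511627776 := by
  refine ⟨?_, ?_⟩
  · refine fin 8568 747 T92_0 ?_
    refine jn 4 (by decide +kernel) ?_
    refine jn 5 (by decide +kernel) ?_
    refine jn 6 (by decide +kernel) ?_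
    refine jn 7 (by decide +kernel) ?_
    refine jn 8 (by decide +kernel) ?_
    refine jn 9 (by decide +kernel) ?_
    refine jn 10 (by decide +kernel) ?_
    refine jn 11 (by decide +kernel) ?_
    refine jn 12 (by decide +kernel) ?_
    refine jn 13 (by decide +kernel) ?_
    refine jn 14 (by decide +kernel) ?_
    refine jn 15 (by decide +kernel) ?_
    refine jn 16 (by decide +kernel) ?_
    refine jn 17 (by decide +kernel) ?_
    refine jn 18 (by decide +kernel) ?_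
    refine jn 19 (by decide +kernel) ?_
    refine jn 20 (by decide +kernel) ?_
    refine jn 21 (by decide +kernel) ?_
    refine jn 22 (by decide +kernel) ?_
    refine jn 23 (by decide +kernel) ?_
    refine jn 24 (by decide +kernel) ?_
    refine jn 25 (by decide +kernel) ?_
    refine jn 26 (by decide +kernel) ?_
    refine jn 27 (by decide +kernel) ?_
    refine jn 28 (by decide +kernel) ?_
    refine jn 33 (by decide +kernel) ?_
    refine jn 42 (by decide +kernel) ?_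
    refine jn 44 (by decide +kernel) ?_
    refine jn 49 (by decide +kernel) ?_
    refine jn 62 (by decide +kernel) ?_
    refine jn 77 (by decide +kernel) ?_
    refine jn 90 (by decide +kernel) ?_
    refine jn 91 (by decide +kernel) ?_
    refine jn 92 (by decide +kernel) ?_
    refine jn 93 (by decide +kernel) ?_
    refine jn 94 (by decide +kernel) ?_
    refine jn 95 (by decide +kernel) ?_
    refine jn 96 (by decide +kernel) ?_
    refine jn 97 (by decide +kernel) ?_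
    refine jn 98 (by decide +kernel) ?_
    refine jn 100 (by decide +kernel) ?_
    refine jn 102 (by decide +kernel) ?_
    refine jn 106 (by decide +kernel) ?_
    refine jn 110 (by decide +kernel) ?_
    refine jn 115 (by decide +kernel) ?_
    refine jn 122 (by decide +kernel) ?_
    refine jn 123 (by decide +kernel) ?_
    refine jn 124 (by decide +kernel) ?_
    refine jn 125 (by decide +kernel) ?_
    refine jn 126 (by decide +kernel) ?_
    refine jn 127 (by decide +kernel) ?_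
    refine jn 128 (by decide +kernel) ?_
    refine jn 129 (by decide +kernel) ?_
    refine jn 130 (by decide +kernel) ?_
    refine jn 133 (by decide +kernel) ?_
    refine jn 134 (by decide +kernel) ?_
    refine jn 136 (by decide +kernel) ?_
    refine jn 139 (by decide +kernel) ?_
    refine jn 143 (by decide +kernel) ?_
    refine jn 145 (by decide +kernel) ?_
    refine jn 151 (by decide +kernel) ?_
    refine jn 162 (by decide +kernel) ?_
    refine jn 178 (by decide +kernel) ?_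
    refine jn 189 (by decide +kernel) ?_
    refine jn 193 (by decide +kernel) ?_
    refine jn 196 (by decide +kernel) ?_
    refine jn 201 (by decide +kernel) ?_
    refine jn 211 (by decide +kernel) ?_
    refine jn 214 (by decide +kernel) ?_
    refine jn 215 (by decide +kernel) ?_
    refine jn 216 (by decide +kernel) ?_
    refine jn 217 (by decide +kernel) ?_
    refine jn 218 (by decide +kernel) ?_
    refine jn 219 (by decide +kernel) ?_
    refine jn 221 (by decide +kernel) ?_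
    refine jn 222 (by decide +kernel) ?_
    refine jn 230 (by decide +kernel) ?_
    refine jn 231 (by decide +kernel) ?_
    refine jn 241 (by decide +kernel) ?_
    refine jn 245 (by decide +kernel) ?_
    refine jn 252 (by decide +kernel) ?_
    refine jn 263 (by decide +kernel) ?_
    refine jn 266 (by decide +kernel) ?_
    refine jn 267 (by decide +kernel) ?_
    refine jn 268 (by decide +kernel) ?_
    refine jn 269 (by decide +kernel) ?_
    refine jn 270 (by decide +kernel) ?_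
    refine jn 271 (by decide +kernel) ?_
    refine jn 272 (by decide +kernel) ?_
    refine jn 273 (by decide +kernel) ?_
    refine jn 274 (by decide +kernel) ?_
    refine jn 275 (by decide +kernel) ?_
    refine jn 277 (by decide +kernel) ?_
    refine jn 279 (by decide +kernel) ?_
    refine jn 280 (by decide +kernel) ?_
    refine jn 281 (by decide +kernel) ?_
    refine jn 290 (by decide +kernel) ?_
    refine jn 294 (by decide +kernel) ?_
    refine jn 298 (by decide +kernel) ?_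
    refine jn 310 (by decide +kernel) ?_
    refine jn 314 (by decide +kernel) ?_
    refine jn 318 (by decide +kernel) ?_
    refine jn 330 (by decide +kernel) ?_
    refine jn 333 (by decide +kernel) ?_
    refine jn 339 (by decide +kernel) ?_
    refine jn 349 (by decide +kernel) ?_
    refine jn 350 (by decide +kernel) ?_
    refine jn 351 (by decide +kernel) ?_
    refine jn 352 (by decide +kernel) ?_
    refine jn 353 (by decide +kernel) ?_
    refine jn 354 (by decide +kernel) ?_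
    refine jn 355 (by decide +kernel) ?_
    refine jn 357 (by decide +kernel) ?_
    refine jn 372 (by decide +kernel) ?_
    refine jn 377 (by decide +kernel) ?_
    refine jn 387 (by decide +kernel) ?_
    refine jn 388 (by decide +kernel) ?_
    refine jn 389 (by decide +kernel) ?_
    refine jn 390 (by decide +kernel) ?_
    refine jn 394 (by decide +kernel) ?_
    refine jn 396 (by decide +kernel) ?_
    refine jn 397 (by decide +kernel) ?_
    refine jn 398 (by decide +kernel) ?_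
    refine jn 417 (by decide +kernel) ?_
    refine jn 429 (by decide +kernel) ?_
    refine jn 434 (by decide +kernel) ?_
    refine jn 442 (by decide +kernel) ?_
    refine jn 443 (by decide +kernel) ?_
    refine jn 444 (by decide +kernel) ?_
    refine jn 446 (by decide +kernel) ?_
    refine jn 447 (by decide +kernel) ?_
    refine jn 448 (by decide +kernel) ?_
    refine jn 456 (by decide +kernel) ?_
    refine jn 459 (by decide +kernel) ?_
    refine jn 460 (by decide +kernel) ?_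
    refine jn 462 (by decide +kernel) ?_
    refine jn 463 (by decide +kernel) ?_
    refine jn 464 (by decide +kernel) ?_
    refine jn 465 (by decide +kernel) ?_
    refine jn 466 (by decide +kernel) ?_
    refine jn 467 (by decide +kernel) ?_
    refine jn 479 (by decide +kernel) ?_
    refine jn 484 (by decide +kernel) ?_
    refine jn 497 (by decide +kernel) ?_
    refine jn 502 (by decide +kernel) ?_
    refine jn 514 (by decide +kernel) ?_
    refine jn 519 (by decide +kernel) ?_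
    refine jn 529 (by decide +kernel) ?_
    refine jn 531 (by decide +kernel) ?_
    refine jn 534 (by decide +kernel) ?_
    refine jn 536 (by decide +kernel) ?_
    refine jn 545 (by decide +kernel) ?_
    refine jn 546 (by decide +kernel) ?_
    refine jn 547 (by decide +kernel) ?_
    refine jn 550 (by decide +kernel) ?_
    refine jn 551 (by decide +kernel) ?_
    refine jn 552 (by decide +kernel) ?_
    refine jn 566 (by decide +kernel) ?_
    refine jn 579 (by decide +kernel) ?_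
    refine jn 584 (by decide +kernel) ?_
    refine jn 599 (by decide +kernel) ?_
    refine jn 610 (by decide +kernel) ?_
    refine jn 614 (by decide +kernel) ?_
    refine jn 622 (by decide +kernel) ?_
    refine jn 624 (by decide +kernel) ?_
    refine jn 626 (by decide +kernel) ?_
    refine jn 632 (by decide +kernel) ?_
    refine jn 635 (by decide +kernel) ?_
    refine jn 636 (by decide +kernel) ?_
    refine jn 638 (by decide +kernel) ?_
    refine jn 639 (by decide +kernel) ?_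
    refine jn 640 (by decide +kernel) ?_
    refine jn 654 (by decide +kernel) ?_
    refine jn 665 (by decide +kernel) ?_
    refine jn 674 (by decide +kernel) ?_
    refine jn 681 (by decide +kernel) ?_
    refine jn 690 (by decide +kernel) ?_
    refine jn 693 (by decide +kernel) ?_
    refine jn 695 (by decide +kernel) ?_
    refine jn 709 (by decide +kernel) ?_
    refine jn 724 (by decide +kernel) ?_
    refine jn 739 (by decide +kernel) ?_
    exact je (by decide +kernel)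
  · refine fin 360 1120 T92_1 ?_
    refine jn 8 (by decide +kernel) ?_
    refine jn 12 (by decide +kernel) ?_
    refine jn 16 (by decide +kernel) ?_
    refine jn 25 (by decide +kernel) ?_
    refine jn 32 (by decide +kernel) ?_
    refine jn 39 (by decide +kernel) ?_
    refine jn 46 (by decide +kernel) ?_
    refine jn 56 (by decide +kernel) ?_
    refine jn 67 (by decide +kernel) ?_
    refine jn 71 (by decide +kernel) ?_
    refine jn 79 (by decide +kernel) ?_
    refine jn 86 (by decide +kernel) ?_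
    refine jn 98 (by decide +kernel) ?_
    refine jn 109 (by decide +kernel) ?_
    refine jn 113 (by decide +kernel) ?_
    refine jn 119 (by decide +kernel) ?_
    refine jn 127 (by decide +kernel) ?_
    refine jn 139 (by decide +kernel) ?_
    refine jn 151 (by decide +kernel) ?_
    refine jn 155 (by decide +kernel) ?_
    refine jn 156 (by decide +kernel) ?_
    refine jn 157 (by decide +kernel) ?_
    refine jn 158 (by decide +kernel) ?_
    refine jn 159 (by decide +kernel) ?_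
    refine jn 160 (by decide +kernel) ?_
    refine jn 161 (by decide +kernel) ?_
    refine jn 163 (by decide +kernel) ?_
    refine jn 169 (by decide +kernel) ?_
    refine jn 172 (by decide +kernel) ?_
    refine jn 174 (by decide +kernel) ?_
    refine jn 175 (by decide +kernel) ?_
    refine jn 179 (by decide +kernel) ?_
    refine jn 182 (by decide +kernel) ?_
    refine jn 185 (by decide +kernel) ?_
    refine jn 193 (by decide +kernel) ?_
    refine jn 194 (by decide +kernel) ?_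
    refine jn 195 (by decide +kernel) ?_
    refine jn 196 (by decide +kernel) ?_
    refine jn 197 (by decide +kernel) ?_
    refine jn 198 (by decide +kernel) ?_
    refine jn 199 (by decide +kernel) ?_
    refine jn 200 (by decide +kernel) ?_
    refine jn 201 (by decide +kernel) ?_
    refine jn 204 (by decide +kernel) ?_
    refine jn 205 (by decide +kernel) ?_
    refine jn 206 (by decide +kernel) ?_
    refine jn 207 (by decide +kernel) ?_
    refine jn 208 (by decide +kernel) ?_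
    refine jn 210 (by decide +kernel) ?_
    refine jn 212 (by decide +kernel) ?_
    refine jn 214 (by decide +kernel) ?_
    refine jn 216 (by decide +kernel) ?_
    refine jn 220 (by decide +kernel) ?_
    refine jn 224 (by decide +kernel) ?_
    refine jn 233 (by decide +kernel) ?_
    refine jn 235 (by decide +kernel) ?_
    refine jn 238 (by decide +kernel) ?_
    refine jn 240 (by decide +kernel) ?_
    refine jn 247 (by decide +kernel) ?_
    refine jn 248 (by decide +kernel) ?_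
    refine jn 249 (by decide +kernel) ?_
    refine jn 250 (by decide +kernel) ?_
    refine jn 251 (by decide +kernel) ?_
    refine jn 252 (by decide +kernel) ?_
    refine jn 253 (by decide +kernel) ?_
    refine jn 254 (by decide +kernel) ?_
    refine jn 265 (by decide +kernel) ?_
    refine jn 278 (by decide +kernel) ?_
    refine jn 281 (by decide +kernel) ?_
    refine jn 284 (by decide +kernel) ?_
    refine jn 285 (by decide +kernel) ?_
    refine jn 287 (by decide +kernel) ?_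
    refine jn 288 (by decide +kernel) ?_
    refine jn 290 (by decide +kernel) ?_
    refine jn 295 (by decide +kernel) ?_
    refine jn 305 (by decide +kernel) ?_
    refine jn 307 (by decide +kernel) ?_
    refine jn 309 (by decide +kernel) ?_
    refine jn 311 (by decide +kernel) ?_
    refine jn 314 (by decide +kernel) ?_
    refine jn 315 (by decide +kernel) ?_
    refine jn 317 (by decide +kernel) ?_
    refine jn 320 (by decide +kernel) ?_
    refine jn 338 (by decide +kernel) ?_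
    refine jn 346 (by decide +kernel) ?_
    refine jn 362 (by decide +kernel) ?_
    refine jn 368 (by decide +kernel) ?_
    refine jn 385 (by decide +kernel) ?_
    refine jn 391 (by decide +kernel) ?_
    refine jn 401 (by decide +kernel) ?_
    refine jn 402 (by decide +kernel) ?_
    refine jn 403 (by decide +kernel) ?_
    refine jn 407 (by decide +kernel) ?_
    refine jn 412 (by decide +kernel) ?_
    refine jn 414 (by decide +kernel) ?_
    refine jn 430 (by decide +kernel) ?_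
    refine jn 435 (by decide +kernel) ?_
    refine jn 446 (by decide +kernel) ?_
    refine jn 447 (by decide +kernel) ?_
    refine jn 448 (by decide +kernel) ?_
    refine jn 449 (by decide +kernel) ?_
    refine jn 450 (by decide +kernel) ?_
    refine jn 451 (by decide +kernel) ?_
    refine jn 452 (by decide +kernel) ?_
    refine jn 453 (by decide +kernel) ?_
    refine jn 454 (by decide +kernel) ?_
    refine jn 455 (by decide +kernel) ?_
    refine jn 456 (by decide +kernel) ?_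
    refine jn 457 (by decide +kernel) ?_
    refine jn 462 (by decide +kernel) ?_
    refine jn 476 (by decide +kernel) ?_
    refine jn 482 (by decide +kernel) ?_
    refine jn 491 (by decide +kernel) ?_
    refine jn 493 (by decide +kernel) ?_
    refine jn 498 (by decide +kernel) ?_
    refine jn 502 (by decide +kernel) ?_
    refine jn 514 (by decide +kernel) ?_
    refine jn 519 (by decide +kernel) ?_
    refine jn 529 (by decide +kernel) ?_
    refine jn 531 (by decide +kernel) ?_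
    refine jn 536 (by decide +kernel) ?_
    refine jn 545 (by decide +kernel) ?_
    refine jn 556 (by decide +kernel) ?_
    refine jn 567 (by decide +kernel) ?_
    refine jn 570 (by decide +kernel) ?_
    refine jn 574 (by decide +kernel) ?_
    refine jn 577 (by decide +kernel) ?_
    refine jn 589 (by decide +kernel) ?_
    refine jn 591 (by decide +kernel) ?_
    refine jn 594 (by decide +kernel) ?_
    refine jn 608 (by decide +kernel) ?_
    refine jn 619 (by decide +kernel) ?_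
    refine jn 622 (by decide +kernel) ?_
    refine jn 623 (by decide +kernel) ?_
    refine jn 624 (by decide +kernel) ?_
    refine jn 625 (by decide +kernel) ?_
    refine jn 628 (by decide +kernel) ?_
    refine jn 629 (by decide +kernel) ?_
    refine jn 630 (by decide +kernel) ?_
    refine jn 640 (by decide +kernel) ?_
    refine jn 644 (by decide +kernel) ?_
    refine jn 647 (by decide +kernel) ?_
    refine jn 649 (by decide +kernel) ?_
    refine jn 664 (by decide +kernel) ?_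
    refine jn 678 (by decide +kernel) ?_
    refine jn 689 (by decide +kernel) ?_
    refine jn 696 (by decide +kernel) ?_
    refine jn 708 (by decide +kernel) ?_
    refine jn 711 (by decide +kernel) ?_
    refine jn 715 (by decide +kernel) ?_
    refine jn 729 (by decide +kernel) ?_
    refine jn 744 (by decide +kernel) ?_
    refine jn 758 (by decide +kernel) ?_
    refine jn 769 (by decide +kernel) ?_
    refine jn 773 (by decide +kernel) ?_
    refine jn 781 (by decide +kernel) ?_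
    refine jn 782 (by decide +kernel) ?_
    refine jn 783 (by decide +kernel) ?_
    refine jn 784 (by decide +kernel) ?_
    refine jn 785 (by decide +kernel) ?_
    refine jn 789 (by decide +kernel) ?_
    refine jn 790 (by decide +kernel) ?_
    refine jn 801 (by decide +kernel) ?_
    refine jn 810 (by decide +kernel) ?_
    refine jn 814 (by decide +kernel) ?_
    refine jn 826 (by decide +kernel) ?_
    refine jn 836 (by decide +kernel) ?_
    refine jn 848 (by decide +kernel) ?_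
    refine jn 861 (by decide +kernel) ?_
    refine jn 864 (by decide +kernel) ?_
    refine jn 878 (by decide +kernel) ?_
    refine jn 891 (by decide +kernel) ?_
    refine jn 900 (by decide +kernel) ?_
    refine jn 902 (by decide +kernel) ?_
    refine jn 904 (by decide +kernel) ?_
    refine jn 916 (by decide +kernel) ?_
    refine jn 928 (by decide +kernel) ?_
    refine jn 932 (by decide +kernel) ?_
    refine jn 945 (by decide +kernel) ?_
    refine jn 960 (by decide +kernel) ?_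
    refine jn 972 (by decide +kernel) ?_
    refine jn 983 (by decide +kernel) ?_
    refine jn 997 (by decide +kernel) ?_
    refine jn 1009 (by decide +kernel) ?_
    refine jn 1020 (by decide +kernel) ?_
    refine jn 1024 (by decide +kernel) ?_
    refine jn 1035 (by decide +kernel) ?_
    refine jn 1047 (by decide +kernel) ?_
    refine jn 1059 (by decide +kernel) ?_
    refine jn 1072 (by decide +kernel) ?_
    refine jn 1084 (by decide +kernel) ?_
    refine jn 1094 (by decide +kernel) ?_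
    refine jn 1099 (by decide +kernel) ?_
    refine jn 1113 (by decide +kernel) ?_
    exact je (by decide +kernel)

end Pool.Agent.MP_2339ce_nt.NR
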