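import Pool.Agent.MP_2339ce_nt.Q2.NC.L6
import Pool.Agent.MP_2339ce_nt.Q2.NC.L9
import Pool.Agent.MP_2339ce_nt.Q2.CkI

/-! Block NR: runs. -/

set_option autoImplicit false
set_option maxRecDepth 100000

noncomputable section

namespace Pool.Agent.MP_2339ce_nt.NR

open Q2.Top

def T93_0 : Ph :=
  (.na 536 179 (.na 320 128 (.na 160 98 (.na 87 85 (.na 39 80 (.na 11 73 (.nx 10 1321124 (.nr 9
  524289 (.nr 1 72 .s1 (.nx 7 82572 (.nx 3 119 (.nr 2 565 (.l1 (.ls 37 29 199)) (.l1 .sk)) (.nx 4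
  120 (.l1 .sk) (.nr 5 8193 (.lg 0 true 1 83 83 29 0 17136) (.nx 6 8193 (.lg 0 false 1 101 101 29 0
  85680) .out)))) (.nr 8 513 (.lg 0 true 1 79 79 29 0 17136) .out))) .out) .out) (.na 26 75 (.nx 25
  1321124 (.nr 24 524289 (.nr 12 73 .s1 (.nx 15 120 (.nx 14 119 (.nr 13 580 (.l1 (.ls 23 17 196))
  (.l1 .sk)) (.l1 .sk)) (.nx 18 8193 (.lg 0 false 3 83 83 16 0 8568) (.nr 23 8193 (.nr 21 513 (.lg
  0 true 3 67 67 16 0 8568) (.nx 22 82572 (.lg 2 false 1 61 61 16 9578 8568) .out)) .out)))) .out)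
  .out) (.nx 38 1321124 (.nr 37 524289 (.nr 27 75 .s1 (.nx 29 119 (.nr 28 619 (.l1 (.ls 29 23 191))
  (.l1 .sk)) (.nx 30 120 (.l1 .sk) (.nx 32 8193 (.lg 0 false 2 89 89 19 0 85680) (.nr 36 8193 (.nr
  34 513 (.lg 0 true 2 73 73 19 0 85680) (.nx 35 82572 (.lg 2 true 1 67 67 17 9578 42840) .out))
  .out))))) .out) .out))) (.na 61 82 (.na 50 81 (.nx 49 1321124 (.nr 48 524289 (.nr 40 80 .s1 (.nx
  46 82572 (.nx 42 119 (.nr 41 627 (.l1 (.ls 37 29 180)) (.l1 .sk)) (.nx 43 120 (.l1 .sk) (.nr 44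
  8193 (.lg 0 true 1 83 83 23 0 85680) (.nx 45 8193 (.lg 0 false 1 97 101 23 0 85680) .out)))) (.nr
  47 513 (.lg 0 true 1 79 79 23 0 85680) .out))) .out) .out) (.nx 60 1321124 (.nr 59 524289 (.nr 51
  81 .s1 (.nx 55 8193 (.nx 53 119 (.nr 52 634 (.l1 (.ls 19 19 177)) (.l1 .sk)) (.nx 54 120 (.l1
  .sk) (.lg 0 true 1 83 83 16 0 8568))) (.nr 58 8193 (.nr 56 513 (.lg 0 false 1 73 73 16 0 85680)
  (.nx 57 82572 (.lg 2 false 1 59 59 16 9578 8568) .out)) .out))) .out) .out)) (.na 74 84 (.nx 73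
  1321124 (.nr 72 524289 (.nr 62 82 .s1 (.nx 64 119 (.nr 63 650 (.l1 (.ls 29 23 175)) (.l1 .sk))
  (.nx 65 120 (.l1 .sk) (.nx 68 8193 (.lg 0 false 3 83 83 19 0 17136) (.nr 71 8193 (.nr 69 650 (.lg
  0 false 1 83 83 13 0 85680) (.nx 70 82572 (.lg 2 false 1 67 67 13 7559 85680) .out)) .out)))))
  .out) .out) (.nx 86 1321124 (.nr 85 524289 (.nr 75 84 .s1 (.nx 78 120 (.nx 77 119 (.nr 76 657
  (.l1 (.ls 29 31 171)) (.l1 .sk)) (.l1 .sk)) (.nx 80 8193 (.lg 0 false 2 83 83 31 0 17136) (.nr 84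
  8193 (.nr 82 513 (.lg 0 true 2 71 71 31 0 17136) (.nx 83 82572 (.lg 2 false 1 67 67 29 9578
  17136) .out)) .out)))) .out) .out)))) (.na 124 91 (.na 98 86 (.nx 97 1321124 (.nr 96 524289 (.nr
  88 85 .s1 (.nx 91 120 (.nx 90 119 (.nr 89 665 (.l1 (.ls 23 19 169)) (.l1 .sk)) (.l1 .sk)) (.nx 92
  8193 (.lg 0 true 1 89 89 16 0 85680) (.nr 95 8193 (.nr 93 513 (.lg 0 false 1 73 73 16 0 85680)
  (.nx 94 82572 (.lg 2 false 1 61 61 16 9578 85680) .out)) .out)))) .out) .out) (.na 111 90 (.nx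
  110 1321124 (.nr 109 524289 (.nr 99 86 .s1 (.nx 105 8193 (.nx 101 119 (.nr 100 696 (.l1 (.ls 23
  23 167)) (.l1 .sk)) (.nx 102 120 (.l1 .sk) (.lg 0 false 3 83 83 19 0 17136))) (.nr 108 8193 (.nr
  106 513 (.lg 0 false 1 79 79 13 0 85680) (.nx 107 82572 (.lg 2 false 1 67 67 13 9578 17136)
  .out)) .out))) .out) .out) (.nx 123 1321124 (.nr 122 524289 (.nr 112 90 .s1 (.nx 115 120 (.nx 114
  119 (.nr 113 704 (.l1 (.ls 31 31 160)) (.l1 .sk)) (.l1 .sk)) (.nx 117 8193 (.lg 0 false 2 89 89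
  31 0 85680) (.nr 121 8193 (.nr 119 513 (.lg 0 true 2 71 71 31 0 85680) (.nx 120 82572 (.lg 2 true
  1 67 67 29 9578 85680) .out)) .out)))) .out) .out))) (.na 138 96 (.na 125 93 .ne (.nx 137 1321124
  (.nr 136 524289 (.nr 126 93 .s1 (.nx 128 119 (.nr 127 742 (.l1 (.ls 29 19 155)) (.l1 .sk)) (.nx
  129 120 (.l1 .sk) (.nx 131 8193 (.lg 0 false 2 89 89 19 0 17136) (.nr 135 8193 (.nr 133 513 (.lg
  0 true 2 73 73 19 0 17136) (.nx 134 82572 (.lg 2 true 1 67 67 17 9578 8568) .out)) .out)))))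
  .out) .out)) (.na 149 97 (.nx 148 1321124 (.nr 147 524289 (.nr 139 96 .s1 (.nx 145 82572 (.nx 141
  119 (.nr 140 750 (.l1 (.ls 37 29 150)) (.l1 .sk)) (.nx 142 120 (.l1 .sk) (.nx 143 8193 (.lg 0
  false 1 97 97 29 0 85680) (.nr 144 8193 (.lg 0 true 1 83 83 29 0 85680) .out)))) (.nr 146 513
  (.lg 0 true 1 73 73 29 0 17136) .out))) .out) .out) (.nx 159 1321124 (.nr 158 524289 (.nr 150 97
  .s1 (.nx 152 119 (.nr 151 758 (.l1 (.ls 19 17 148)) (.l1 .sk)) (.nx 153 120 (.l1 .sk) (.nx 154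
  8193 (.lg 0 true 1 83 83 16 0 8568) (.nr 157 8193 (.nr 155 513 (.lg 0 false 1 73 73 16 0 85680)
  (.nx 156 82572 (.lg 2 true 1 59 59 16 9578 8568) .out)) .out))))) .out) .out))))) (.na 231 119
  (.na 185 105 (.na 161 100 (.lg 0 false 1 0 0 16 0 24) (.na 174 102 (.nx 173 1321124 (.nr 172
  524289 (.nr 162 100 .s1 (.nx 167 8193 (.nx 164 119 (.nr 163 789 (.l1 (.ls 31 29 144)) (.l1 .sk))
  (.nx 165 120 (.l1 .sk) (.lg 0 false 2 89 89 29 0 85680))) (.nr 171 8193 (.nr 169 513 (.lg 0 true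
  2 71 71 29 0 85680) (.nx 170 82572 (.lg 2 true 1 67 67 23 9578 85680) .out)) .out))) .out) .out)
  (.nx 184 1321124 (.nr 183 524289 (.nr 175 102 .s1 (.nx 178 120 (.nx 177 119 (.nr 176 812 (.l1
  (.ls 23 31 141)) (.l1 .sk)) (.l1 .sk)) (.nx 179 8193 (.lg 0 true 1 83 83 29 0 17136) (.nr 182
  8193 (.nr 180 513 (.lg 0 false 1 73 73 29 0 85680) (.nx 181 82572 (.lg 2 true 1 59 59 29 9578
  17136) .out)) .out)))) .out) .out))) (.na 208 108 (.na 197 106 (.nx 196 1321124 (.nr 195 524289
  (.nr 186 105 .s1 (.nx 190 8193 (.nx 188 119 (.nr 187 820 (.l1 (.ls 31 23 137)) (.l1 .sk)) (.nx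
  189 120 (.l1 .sk) (.lg 0 true 1 89 89 23 0 42840))) (.nr 194 8193 (.nr 192 513 (.lg 0 true 2 71
  71 29 0 85680) (.nx 193 82572 (.lg 2 true 1 61 61 23 9578 42840) .out)) .out))) .out) .out) (.nx
  207 1321124 (.nr 206 524289 (.nr 198 106 .s1 (.nx 200 119 (.nr 199 835 (.l1 (.ls 23 23 136)) (.l1
  .sk)) (.nx 201 120 (.l1 .sk) (.nx 202 8193 (.lg 0 true 1 89 89 19 0 85680) (.nr 205 8193 (.nr 203
  513 (.lg 2 false 1 71 71 19 741575 85680) (.nx 204 82572 (.lg 2 false 1 61 61 19 9578 17136)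
  .out)) .out))))) .out) .out)) (.na 220 112 (.nx 219 1321124 (.nr 218 524289 (.nr 209 108 .s1 (.nx
  212 120 (.nx 211 119 (.nr 210 866 (.l1 (.ls 31 29 134)) (.l1 .sk)) (.l1 .sk)) (.nx 213 8193 (.lg
  0 true 1 89 89 23 0 85680) (.nr 217 8193 (.nr 215 513 (.lg 0 true 2 71 71 29 0 17136) (.nx 216
  82572 (.lg 2 true 1 61 61 23 9578 17136) .out)) .out)))) .out) .out) (.nx 230 1321124 (.nr 229
  524289 (.nr 221 112 .s1 (.nx 225 8193 (.nx 223 119 (.nr 222 920 (.l1 (.ls 31 23 129)) (.l1 .sk))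
  (.nx 224 120 (.l1 .sk) (.lg 0 true 1 89 89 23 0 85680))) (.nr 228 8193 (.nr 226 513 (.lg 0 true 1
  71 71 23 0 17136) (.nx 227 82572 (.lg 2 true 1 61 61 23 9578 17136) .out)) .out))) .out) .out))))
  (.na 276 124 (.na 254 122 (.na 243 120 (.nx 242 1321124 (.nr 241 524289 (.nr 232 119 .s1 (.nx 234
  119 (.nr 233 928 (.l1 (.ls 16 19 121)) (.l1 .sk)) (.nx 235 120 (.l1 .sk) (.nr 238 8193 (.lg 0
  false 3 73 73 16 0 85680) (.nx 240 8193 (.lg 0 true 2 73 73 16 0 85680) .out))))) .out) .out)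
  (.nx 253 1321124 (.nr 252 524289 (.nr 244 120 .s1 (.nx 250 82572 (.nx 246 119 (.nr 245 943 (.l1
  (.ls 41 31 121)) (.l1 .sk)) (.nx 247 120 (.l1 .sk) (.nx 248 8193 (.lg 0 false 1 97 97 37 0 85680)
  (.nr 249 8193 (.lg 0 true 1 79 89 37 0 85680) .out)))) (.nr 251 513 (.lg 0 true 1 79 83 37 0
  85680) .out))) .out) .out)) (.na 265 123 (.nx 264 1321124 (.nr 263 524289 (.nr 255 122 .s1 (.nx
  259 8193 (.nx 257 119 (.nr 256 951 (.l1 (.ls 23 23 119)) (.l1 .sk)) (.nx 258 120 (.l1 .sk) (.lg 0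
  true 1 89 89 19 0 85680))) (.nr 262 8193 (.nr 260 513 (.lg 2 false 1 71 71 19 644319 85680) (.nx
  261 82572 (.lg 2 false 1 61 61 19 9578 85680) .out)) .out))) .out) .out) (.nx 275 1321124 (.nr
  274 524289 (.nr 266 123 .s1 (.nx 269 120 (.nx 268 119 (.nr 267 959 (.l1 (.ls 29 19 118)) (.l1
  .sk)) (.l1 .sk)) (.nx 270 8193 (.lg 0 true 1 89 89 17 0 85680) (.nr 273 8193 (.nr 271 513 (.lg 2
  true 1 67 67 17 639081 8568) (.nx 272 82572 (.lg 2 true 1 61 61 17 9578 8568) .out)) .out))))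
  .out) .out))) (.na 298 126 (.na 287 125 (.nx 286 1321124 (.nr 285 524289 (.nr 277 124 .s1 (.nx
  281 8193 (.nx 279 119 (.nr 278 967 (.l1 (.ls 29 23 117)) (.l1 .sk)) (.nx 280 120 (.l1 .sk) (.lg 0
  true 1 89 89 19 0 17136))) (.nr 284 8193 (.nr 282 513 (.lg 2 true 1 67 67 19 633927 17136) (.nx
  283 82572 (.lg 2 false 1 67 67 19 9578 17136) .out)) .out))) .out) .out) (.nx 297 1321124 (.nr
  296 524289 (.nr 288 125 .s1 (.nx 292 8193 (.nx 290 119 (.nr 289 974 (.l1 (.ls 23 17 116)) (.l1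
  .sk)) (.nx 291 120 (.l1 .sk) (.lg 0 true 1 83 83 16 0 85680))) (.nr 295 8193 (.nr 293 513 (.lg 2
  false 1 67 67 16 628856 85680) (.nx 294 82572 (.lg 2 true 1 53 53 16 9578 42840) .out)) .out)))
  .out) .out)) (.na 309 127 (.nx 308 1321124 (.nr 307 524289 (.nr 299 126 .s1 (.nx 302 120 (.nx 301
  119 (.nr 300 982 (.l1 (.ls 23 31 115)) (.l1 .sk)) (.l1 .sk)) (.nx 303 8193 (.lg 0 true 1 83 83 29
  0 85680) (.nr 306 8193 (.nr 304 513 (.lg 2 false 1 67 67 29 623865 85680) (.nx 305 82572 (.lg 2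
  false 1 59 59 29 9578 17136) .out)) .out)))) .out) .out) (.nx 319 1321124 (.nr 318 524289 (.nr
  310 127 .s1 (.nx 312 119 (.nr 311 990 (.l1 (.ls 23 16 114)) (.l1 .sk)) (.nx 313 120 (.l1 .sk)
  (.nx 314 8193 (.lg 0 true 1 79 79 16 0 8568) (.nr 317 8193 (.nr 315 513 (.lg 2 false 1 61 61 16
  618952 8568) (.nx 316 82572 (.lg 2 false 1 53 53 16 9578 8568) .out)) .out))))) .out) .out))))))
  (.na 430 151 (.na 379 139 (.na 347 134 (.na 331 129 (.nx 330 1321124 (.nr 329 1048577 (.nr 321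
  128 .s1 (.nx 324 8193 (.nx 322 205 (.l1 (.ls 79 29 331)) (.nr 323 524289 (.lg 0 true 1 83 83 19 0
  85680) .out)) (.nr 328 8193 (.nr 326 1025 (.lg 0 true 2 73 73 23 0 85680) (.nx 327 82572 (.lg 2
  true 1 59 59 19 7184 17136) .out)) .out))) .out) .out) (.na 339 131 (.nx 338 660563 (.nr 337
  1048577 (.nr 332 129 .s1 (.nx 333 205 (.l1 (.ls 79 23 328)) (.nr 336 524289 (.nr 334 8193 (.lg 0
  false 1 89 89 19 0 8568) (.nx 335 6503 (.lg 0 false 1 83 83 19 0 8568) .out)) .out))) .out) .out)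
  (.nx 346 660563 (.nr 345 1048577 (.nr 340 131 .s1 (.nx 341 205 (.l1 (.ls 71 19 323)) (.nr 344
  524289 (.nr 342 8193 (.lg 0 false 1 83 83 16 0 85680) (.nx 343 6503 (.lg 0 true 1 79 79 16 0
  8568) .out)) .out))) .out) .out))) (.na 363 136 (.na 355 135 (.nx 354 660563 (.nr 353 1048577
  (.nr 348 134 .s1 (.nx 349 205 (.l1 (.ls 61 29 316)) (.nr 352 524289 (.nr 350 8193 (.lg 0 false 1
  89 89 19 0 85680) (.nx 351 6503 (.lg 0 true 1 83 83 19 0 85680) .out)) .out))) .out) .out) (.nx
  362 660563 (.nr 361 1048577 (.nr 356 135 .s1 (.nx 357 205 (.l1 (.ls 79 29 314)) (.nr 360 524289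
  (.nr 358 8193 (.lg 0 false 1 83 83 19 0 42840) (.nx 359 6503 (.lg 0 true 1 83 83 19 0 42840)
  .out)) .out))) .out) .out)) (.na 371 137 (.nx 370 660563 (.nr 369 1048577 (.nr 364 136 .s1 (.nx
  365 205 (.l1 (.ls 73 31 312)) (.nr 368 524289 (.nr 366 8193 (.lg 0 false 1 83 83 29 0 17136) (.nx
  367 6503 (.lg 0 false 1 79 79 29 0 17136) .out)) .out))) .out) .out) (.nx 378 660563 (.nr 377
  1048577 (.nr 372 137 .s1 (.nx 373 205 (.l1 (.ls 71 19 309)) (.nr 376 524289 (.nr 374 8193 (.lg 0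
  false 1 79 79 16 0 8568) (.nx 375 6503 (.lg 0 true 1 79 79 16 0 85680) .out)) .out))) .out)
  .out)))) (.na 405 146 (.na 387 140 (.nx 386 660563 (.nr 385 1048577 (.nr 380 139 .s1 (.nx 381 205
  (.l1 (.ls 71 19 305)) (.nr 384 524289 (.nr 382 8193 (.lg 0 false 1 79 79 16 0 8568) (.nx 383 6503
  (.lg 0 true 1 79 79 16 0 85680) .out)) .out))) .out) .out) (.na 395 144 (.nx 394 660563 (.nr 393
  1048577 (.nr 388 140 .s1 (.nx 389 205 (.l1 (.ls 79 31 303)) (.nr 392 524289 (.nr 390 8193 (.lg 0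
  false 1 83 83 29 0 85680) (.nx 391 6503 (.lg 0 true 1 83 83 29 0 85680) .out)) .out))) .out)
  .out) (.nx 404 660563 (.nr 403 1048577 (.nr 396 144 .s1 (.nx 401 82572 (.nx 397 205 (.l1 (.ls 83
  31 294)) (.nr 400 524289 (.nx 398 6503 (.lg 0 false 1 89 89 31 0 17136) (.nr 399 8193 (.lg 0 true
  1 79 79 31 0 17136) .out)) .out)) (.nr 402 1025 (.lg 0 true 1 73 73 31 0 17136) .out))) .out)
  .out))) (.na 414 149 (.na 413 147 (.nx 412 660563 (.nr 411 1048577 (.nr 406 146 .s1 (.nx 407 205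
  (.l1 (.ls 71 29 290)) (.nr 410 524289 (.nr 408 8193 (.lg 0 false 1 89 89 19 0 85680) (.nx 409
  6503 (.lg 0 true 1 83 83 19 0 85680) .out)) .out))) .out) .out) (.lg 0 false 1 0 0 16 0 24)) (.na
  422 150 (.nx 421 660563 (.nr 420 1048577 (.nr 415 149 .s1 (.nx 416 205 (.l1 (.ls 71 19 285)) (.nr
  419 524289 (.nr 417 8193 (.lg 0 false 1 79 79 16 0 8568) (.nx 418 6503 (.lg 0 true 1 73 73 16 0
  8568) .out)) .out))) .out) .out) (.nx 429 660563 (.nr 428 1048577 (.nr 423 150 .s1 (.nx 424 205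
  (.l1 (.ls 73 37 283)) (.nr 427 524289 (.nr 425 8193 (.lg 0 false 1 83 83 31 0 85680) (.nx 426
  6503 (.lg 0 true 1 83 83 31 0 85680) .out)) .out))) .out) .out))))) (.na 479 163 (.na 454 157
  (.na 438 153 (.nx 437 660563 (.nr 436 1048577 (.nr 431 151 .s1 (.nx 432 205 (.l1 (.ls 71 17 281))
  (.nr 435 524289 (.nr 433 8193 (.lg 0 false 1 79 79 16 0 8568) (.nx 434 6503 (.lg 0 true 1 73 73
  16 0 8568) .out)) .out))) .out) .out) (.na 446 155 (.nx 445 660563 (.nr 444 1048577 (.nr 439 153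
  .s1 (.nx 440 205 (.l1 (.ls 71 29 277)) (.nr 443 524289 (.nr 441 8193 (.lg 0 false 1 79 79 16 0
  8568) (.nx 442 6503 (.lg 0 true 1 73 73 16 0 8568) .out)) .out))) .out) .out) (.nx 453 660563
  (.nr 452 1048577 (.nr 447 155 .s1 (.nx 448 205 (.l1 (.ls 79 19 274)) (.nr 451 524289 (.nr 449
  8193 (.lg 0 false 1 89 89 17 0 42840) (.nx 450 6503 (.lg 0 true 1 83 83 17 0 42840) .out))
  .out))) .out) .out))) (.na 463 160 (.na 455 159 (.lg 0 false 1 0 0 16 0 24) (.nx 462 660563 (.nr
  461 1048577 (.nr 456 159 .s1 (.nx 457 205 (.l1 (.ls 79 23 267)) (.nr 460 524289 (.nr 458 8193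
  (.lg 0 false 1 89 89 19 0 85680) (.nx 459 6503 (.lg 0 false 1 83 83 19 0 8568) .out)) .out)))
  .out) .out)) (.na 471 162 (.nx 470 660563 (.nr 469 1048577 (.nr 464 160 .s1 (.nx 465 205 (.l1
  (.ls 83 29 265)) (.nr 468 524289 (.nr 466 8193 (.lg 0 true 1 89 89 29 0 85680) (.nx 467 6503 (.lg
  0 false 1 89 89 29 0 85680) .out)) .out))) .out) .out) (.nx 478 660563 (.nr 477 1048577 (.nr 472
  162 .s1 (.nx 473 205 (.l1 (.ls 71 31 262)) (.nr 476 524289 (.nr 474 8193 (.lg 0 false 1 79 79 23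
  0 17136) (.nx 475 6503 (.lg 0 true 1 79 79 23 0 85680) .out)) .out))) .out) .out)))) (.na 504 170
  (.na 488 167 (.na 480 164 (.lg 0 false 1 0 0 16 0 24) (.nx 487 660563 (.nr 486 1048577 (.nr 481
  164 .s1 (.nx 482 205 (.l1 (.ls 79 29 259)) (.nr 485 524289 (.nr 483 8193 (.lg 0 false 1 89 89 23
  0 85680) (.nx 484 6503 (.lg 0 false 1 83 83 23 0 17136) .out)) .out))) .out) .out)) (.na 496 168
  (.nx 495 660563 (.nr 494 1048577 (.nr 489 167 .s1 (.nx 490 205 (.l1 (.ls 71 17 254)) (.nr 493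
  524289 (.nr 491 8193 (.lg 0 false 1 79 79 16 0 85680) (.nx 492 6503 (.lg 0 true 1 73 73 16 0
  8568) .out)) .out))) .out) .out) (.nx 503 660563 (.nr 502 1048577 (.nr 497 168 .s1 (.nx 498 205
  (.l1 (.ls 83 37 253)) (.nr 501 524289 (.nr 499 8193 (.lg 0 true 1 89 89 37 0 85680) (.nx 500 6503
  (.lg 0 false 1 89 89 37 0 85680) .out)) .out))) .out) .out))) (.na 520 173 (.na 512 172 (.nx 511
  660563 (.nr 510 1048577 (.nr 505 170 .s1 (.nx 506 205 (.l1 (.ls 71 31 250)) (.nr 509 524289 (.nr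
  507 8193 (.lg 0 false 1 83 83 29 0 85680) (.nx 508 6503 (.lg 0 true 1 79 79 29 0 85680) .out))
  .out))) .out) .out) (.nx 519 660563 (.nr 518 1048577 (.nr 513 172 .s1 (.nx 514 205 (.l1 (.ls 79
  29 247)) (.nr 517 524289 (.nr 515 8193 (.lg 0 false 1 89 89 23 0 85680) (.nx 516 6503 (.lg 0 true
  1 83 83 23 0 85680) .out)) .out))) .out) .out)) (.na 528 175 (.nx 527 660563 (.nr 526 1048577
  (.nr 521 173 .s1 (.nx 522 205 (.l1 (.ls 71 17 245)) (.nr 525 524289 (.nr 523 8193 (.lg 0 false 1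
  79 79 16 0 8568) (.nx 524 6503 (.lg 0 true 1 73 73 16 0 8568) .out)) .out))) .out) .out) (.nx 535
  660563 (.nr 534 1048577 (.nr 529 175 .s1 (.nx 530 205 (.l1 (.ls 71 23 243)) (.nr 533 524289 (.nr
  531 8193 (.lg 0 false 1 79 79 19 0 85680) (.nx 532 6503 (.lg 0 true 1 73 73 19 0 42840) .out))
  .out))) .out) .out))))))) (.na 726 233 (.na 627 201 (.na 592 192 (.na 560 183 (.na 544 180 (.nx
  543 660563 (.nr 542 1048577 (.nr 537 179 .s1 (.nx 538 205 (.l1 (.ls 67 17 237)) (.nr 541 524289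
  (.nr 539 8193 (.lg 0 false 1 73 73 16 0 8568) (.nx 540 6503 (.lg 0 true 1 73 73 16 0 8568) .out))
  .out))) .out) .out) (.na 552 181 (.nx 551 660563 (.nr 550 1048577 (.nr 545 180 .s1 (.nx 546 205
  (.l1 (.ls 79 37 236)) (.nr 549 524289 (.nr 547 8193 (.lg 0 true 1 89 89 37 0 85680) (.nx 548 6503
  (.lg 0 false 1 83 83 37 0 85680) .out)) .out))) .out) .out) (.nx 559 660563 (.nr 558 1048577 (.nr
  553 181 .s1 (.nx 554 205 (.l1 (.ls 71 17 235)) (.nr 557 524289 (.nr 555 8193 (.lg 0 false 1 79 79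
  16 0 8568) (.nx 556 6503 (.lg 0 true 1 73 73 16 0 8568) .out)) .out))) .out) .out))) (.na 576 189
  (.na 568 186 (.nx 567 660563 (.nr 566 1048577 (.nr 561 183 .s1 (.nx 562 205 (.l1 (.ls 59 23 232))
  (.nr 565 524289 (.nr 563 8193 (.lg 0 true 1 83 83 19 0 8568) (.nx 564 6503 (.lg 0 false 1 79 79
  19 0 8568) .out)) .out))) .out) .out) (.nx 575 660563 (.nr 574 1048577 (.nr 569 186 .s1 (.nx 570
  205 (.l1 (.ls 79 29 228)) (.nr 573 524289 (.nr 571 8193 (.lg 0 false 1 89 89 29 0 85680) (.nx 572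
  6503 (.lg 0 true 1 83 83 29 0 17136) .out)) .out))) .out) .out)) (.na 584 191 (.nx 583 660563
  (.nr 582 1048577 (.nr 577 189 .s1 (.nx 578 205 (.l1 (.ls 67 23 225)) (.nr 581 524289 (.nr 579
  8193 (.lg 0 false 1 73 73 19 0 8568) (.nx 580 6503 (.lg 0 true 1 71 71 19 0 8568) .out)) .out)))
  .out) .out) (.nx 591 660563 (.nr 590 1048577 (.nr 585 191 .s1 (.nx 586 205 (.l1 (.ls 67 17 223))
  (.nr 589 524289 (.nr 587 8193 (.lg 0 false 1 73 73 16 0 8568) (.nx 588 6503 (.lg 0 true 1 73 73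
  16 0 85680) .out)) .out))) .out) .out)))) (.na 609 196 (.na 600 193 (.nx 599 660563 (.nr 598
  1048577 (.nr 593 192 .s1 (.nx 594 205 (.l1 (.ls 79 31 221)) (.nr 597 524289 (.nr 595 8193 (.lg 0
  true 1 89 89 31 0 85680) (.nx 596 6503 (.lg 0 false 1 83 83 31 0 17136) .out)) .out))) .out)
  .out) (.na 601 194 (.lg 0 false 1 0 0 16 0 24) (.nx 608 660563 (.nr 607 1048577 (.nr 602 194 .s1
  (.nx 603 205 (.l1 (.ls 67 23 219)) (.nr 606 524289 (.nr 604 8193 (.lg 0 false 1 79 79 19 0 85680)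
  (.nx 605 6503 (.lg 0 true 1 73 73 19 0 85680) .out)) .out))) .out) .out))) (.na 611 199 (.na 610
  197 (.lg 0 false 1 0 0 16 0 24) (.lg 0 false 1 0 0 16 0 24)) (.na 619 200 (.nx 618 660563 (.nr
  617 1048577 (.nr 612 199 .s1 (.nx 613 205 (.l1 (.ls 71 17 214)) (.nr 616 524289 (.nr 614 8193
  (.lg 0 false 1 73 73 16 0 8568) (.nx 615 6503 (.lg 0 true 1 73 73 16 0 85680) .out)) .out)))
  .out) .out) (.nx 626 660563 (.nr 625 1048577 (.nr 620 200 .s1 (.nx 621 205 (.l1 (.ls 79 29 213))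
  (.nr 624 524289 (.nr 622 8193 (.lg 0 true 1 89 89 31 0 85680) (.nx 623 6503 (.lg 0 false 1 83 83
  31 0 85680) .out)) .out))) .out) .out))))) (.na 676 216 (.na 651 210 (.na 635 204 (.nx 634 660563
  (.nr 633 1048577 (.nr 628 201 .s1 (.nx 629 205 (.l1 (.ls 61 23 212)) (.nr 632 524289 (.nr 630
  8193 (.lg 0 true 1 79 79 19 0 8568) (.nx 631 6503 (.lg 0 false 1 79 79 19 0 8568) .out)) .out)))
  .out) .out) (.na 643 205 (.nx 642 660563 (.nr 641 1048577 (.nr 636 204 .s1 (.nx 637 205 (.l1 (.ls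
  73 37 209)) (.nr 640 524289 (.nr 638 8193 (.lg 0 false 1 83 83 31 0 85680) (.nx 639 6503 (.lg 0
  false 1 79 79 31 0 17136) .out)) .out))) .out) .out) (.nx 650 660563 (.nr 649 1048577 (.nr 644
  205 .s1 (.nx 645 205 (.l1 (.ls 73 19 207)) (.nr 648 524289 (.nr 646 8193 (.lg 0 false 1 83 83 19
  0 42840) (.nx 647 6503 (.lg 0 false 1 79 79 19 0 42840) .out)) .out))) .out) .out))) (.na 660 212
  (.na 659 211 (.nx 658 660563 (.nr 657 1048577 (.nr 652 210 .s1 (.nx 653 205 (.l1 (.ls 73 37 203))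
  (.nr 656 524289 (.nr 654 8193 (.lg 0 false 1 83 83 37 0 85680) (.nx 655 6503 (.lg 0 true 1 79 79
  37 0 85680) .out)) .out))) .out) .out) (.lg 0 false 1 0 0 16 0 24)) (.na 668 215 (.nx 667 660563
  (.nr 666 1048577 (.nr 661 212 .s1 (.nx 662 205 (.l1 (.ls 79 23 201)) (.nr 665 524289 (.nr 663
  8193 (.lg 0 false 1 83 83 23 0 17136) (.nx 664 6503 (.lg 0 true 1 83 83 23 0 85680) .out))
  .out))) .out) .out) (.nx 675 660563 (.nr 674 1048577 (.nr 669 215 .s1 (.nx 670 205 (.l1 (.ls 79
  19 198)) (.nr 673 524289 (.nr 671 8193 (.lg 0 false 1 83 83 19 0 42840) (.nx 672 6503 (.lg 0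
  false 1 79 79 19 0 42840) .out)) .out))) .out) .out)))) (.na 701 224 (.na 692 219 (.na 684 217
  (.nx 683 660563 (.nr 682 1048577 (.nr 677 216 .s1 (.nx 678 205 (.l1 (.ls 79 31 197)) (.nr 681
  524289 (.nr 679 8193 (.lg 0 true 1 83 83 31 0 17136) (.nx 680 6503 (.lg 0 false 1 83 83 31 0
  17136) .out)) .out))) .out) .out) (.nx 691 660563 (.nr 690 1048577 (.nr 685 217 .s1 (.nx 686 205
  (.l1 (.ls 73 19 196)) (.nr 689 524289 (.nr 687 8193 (.lg 0 false 1 79 79 17 0 8568) (.nx 688 6503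
  (.lg 0 true 1 73 73 17 0 8568) .out)) .out))) .out) .out)) (.na 700 223 (.nx 699 660563 (.nr 698
  1048577 (.nr 693 219 .s1 (.nx 694 205 (.l1 (.ls 71 19 194)) (.nr 697 524289 (.nr 695 8193 (.lg 0
  true 1 79 79 19 0 8568) (.nx 696 6503 (.lg 0 false 1 79 79 19 0 8568) .out)) .out))) .out) .out)
  (.lg 0 false 1 0 0 16 0 24))) (.na 717 227 (.na 709 225 (.nx 708 660563 (.nr 707 1048577 (.nr 702
  224 .s1 (.nx 703 205 (.l1 (.ls 71 29 190)) (.nr 706 524289 (.nr 704 8193 (.lg 0 false 1 79 79 29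
  0 17136) (.nx 705 6503 (.lg 0 false 1 73 73 29 0 17136) .out)) .out))) .out) .out) (.nx 716
  660563 (.nr 715 1048577 (.nr 710 225 .s1 (.nx 711 205 (.l1 (.ls 73 23 189)) (.nr 714 524289 (.nr
  712 8193 (.lg 0 true 1 79 79 23 0 42840) (.nx 713 6503 (.lg 0 false 1 73 73 23 0 42840) .out))
  .out))) .out) .out)) (.na 725 229 (.nx 724 660563 (.nr 723 1048577 (.nr 718 227 .s1 (.nx 719 205
  (.l1 (.ls 67 17 188)) (.nr 722 524289 (.nr 720 8193 (.lg 0 false 1 73 73 17 0 85680) (.nx 721
  6503 (.lg 0 true 1 71 71 17 0 8568) .out)) .out))) .out) .out) (.lg 0 false 1 0 0 16 0 24))))))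
  (.na 816 255 (.na 774 245 (.na 742 240 (.na 727 238 (.lg 0 false 1 0 0 16 0 24) (.na 734 239 (.nx
  733 660563 (.nr 732 1048577 (.nr 728 238 .s1 (.nx 729 6503 (.l1 (.ls 67 71 177687)) (.nr 731 8193
  (.lg 0 false 2 67 67 31 0 85680) .out))) .out) .out) (.nx 741 660563 (.nr 740 1048577 (.nr 735
  239 .s1 (.nx 736 205 (.l1 (.ls 67 17 178)) (.nr 739 524289 (.nr 737 8193 (.lg 0 false 1 73 73 17
  0 8568) (.nx 738 6503 (.lg 0 true 1 71 71 17 0 8568) .out)) .out))) .out) .out))) (.na 758 243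
  (.na 750 241 (.nx 749 660563 (.nr 748 1048577 (.nr 743 240 .s1 (.nx 744 205 (.l1 (.ls 83 31 178))
  (.nr 747 524289 (.nr 745 8193 (.lg 0 true 1 83 89 41 0 85680) (.nx 746 6503 (.lg 0 false 1 79 89
  41 0 85680) .out)) .out))) .out) .out) (.nx 757 660563 (.nr 756 1048577 (.nr 751 241 .s1 (.nx 752
  205 (.l1 (.ls 67 17 177)) (.nr 755 524289 (.nr 753 8193 (.lg 0 false 1 73 73 17 0 85680) (.nx 754
  6503 (.lg 0 true 1 71 71 17 0 8568) .out)) .out))) .out) .out)) (.na 766 244 (.nx 765 660563 (.nr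
  764 1048577 (.nr 759 243 .s1 (.nx 760 205 (.l1 (.ls 71 19 175)) (.nr 763 524289 (.nr 761 8193
  (.lg 0 false 1 73 73 19 0 8568) (.nx 762 6503 (.lg 0 true 1 71 71 19 0 8568) .out)) .out))) .out)
  .out) (.nx 773 660563 (.nr 772 1048577 (.nr 767 244 .s1 (.nx 768 205 (.l1 (.ls 59 23 175)) (.nr
  771 524289 (.nr 769 8193 (.lg 0 true 1 79 79 23 0 17136) (.nx 770 6503 (.lg 0 false 1 79 79 23 0
  17136) .out)) .out))) .out) .out)))) (.na 791 250 (.na 775 246 (.lg 0 false 1 0 0 16 0 24) (.na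
  783 248 (.nx 782 660563 (.nr 781 1048577 (.nr 776 246 .s1 (.nx 777 205 (.l1 (.ls 73 31 173)) (.nr
  780 524289 (.nr 778 8193 (.lg 0 false 1 83 83 31 0 85680) (.nx 779 6503 (.lg 0 false 1 79 79 31 0
  17136) .out)) .out))) .out) .out) (.nx 790 660563 (.nr 789 1048577 (.nr 784 248 .s1 (.nx 785 205
  (.l1 (.ls 83 23 172)) (.nr 788 524289 (.nr 786 8193 (.lg 0 true 1 89 89 29 0 17136) (.nx 787 6503
  (.lg 0 false 1 89 89 29 0 85680) .out)) .out))) .out) .out))) (.na 800 252 (.na 799 251 (.nx 798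
  660563 (.nr 797 1048577 (.nr 792 250 .s1 (.nx 793 205 (.l1 (.ls 67 29 171)) (.nr 796 524289 (.nr
  794 8193 (.lg 0 false 1 73 73 29 0 85680) (.nx 795 6503 (.lg 0 true 1 73 73 29 0 85680) .out))
  .out))) .out) .out) (.lg 0 false 1 0 0 16 0 24)) (.na 808 254 (.nx 807 660563 (.nr 806 1048577
  (.nr 801 252 .s1 (.nx 802 205 (.l1 (.ls 73 31 169)) (.nr 805 524289 (.nr 803 8193 (.lg 0 false 1
  79 79 37 0 85680) (.nx 804 6503 (.lg 0 false 1 73 73 37 0 17136) .out)) .out))) .out) .out) (.nx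
  815 660563 (.nr 814 1048577 (.nr 809 254 .s1 (.nx 810 205 (.l1 (.ls 67 23 168)) (.nr 813 524289
  (.nr 811 8193 (.lg 0 false 1 73 73 23 0 85680) (.nx 812 6503 (.lg 0 true 1 71 71 23 0 17136)
  .out)) .out))) .out) .out))))) (.na 3348 2048 (.na 1346 512 (.na 824 256 (.nx 823 660563 (.nr 822
  1048577 (.nr 817 255 .s1 (.nx 818 205 (.l1 (.ls 71 29 167)) (.nr 821 524289 (.nr 819 8193 (.lg 0
  true 1 73 73 29 0 42840) (.nx 820 6503 (.lg 0 false 1 73 73 29 0 42840) .out)) .out))) .out)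
  .out) (.na 832 257 (.nx 831 660563 (.nr 830 1048577 (.nr 825 256 .s1 (.nx 826 1292 (.l1 (.ls 73
  43 6523)) (.nr 829 262145 (.nr 827 16385 (.lg 0 false 1 83 83 29 0 85680) (.nx 828 6503 (.lg 0
  false 1 71 71 29 0 17136) .out)) .out))) .out) .out) (.nx 1345 82572 (.nr 1344 1048577 (.nr 833
  257 .s1 (.nx 1088 647 (.la (.ls 79 31 1631)) (.nr 1343 262145 (.la (.lg 0 false 1 83 83 23 0))
  .out))) .out) .out))) (.na 2078 1024 (.na 1776 725 (.nx 1775 82572 (.nr 1774 1048577 (.nr 1347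
  512 .s1 (.nx 1560 647 (.la (.ls 73 29 820)) (.nr 1773 262145 (.la (.lg 0 false 1 79 79 29 0))
  .out))) .out) .out) (.nx 2077 3252 (.nr 2076 262145 (.nr 1777 725 .s1 (.la (.ls 61 43 14589)))
  .out) .out)) (.na 2626 1449 (.nx 2625 3252 (.nr 2624 262145 (.nr 2079 1024 .s1 (.nx 2198 119 (.nr
  2197 11201 (.lx (.lp 41 23 363)) (.l1 .sk)) (.nx 2199 120 (.l1 .sk) (.la (.ls 61 41 10316)))))
  .out) .out) (.nx 3347 1627 (.nr 3346 131073 (.nr 2627 1449 .s1 (.nx 2746 119 (.nr 2745 15831 (.lx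
  (.lp 41 29 513)) (.l1 .sk)) (.nx 2747 120 (.l1 .sk) (.la (.ls 53 31 1819))))) .out) .out)))) (.na
  6269 16384 (.na 4970 4096 (.na 4320 2897 (.nx 4319 1627 (.nr 4318 131073 (.nr 3349 2048 .s1 (.nx
  3468 119 (.nr 3467 22394 (.lx (.lp 16 29 725)) (.l1 .sk)) (.nx 3469 120 (.l1 .sk) (.la (.ls 53 31
  1288))))) .out) .out) (.nx 4969 647 (.nr 4968 65537 (.nr 4321 2897 .s1 (.nx 4483 163 (.lx (.lp 47
  31 1025)) (.nr 4967 32769 (.lx (.lp 41 31 1025)) .out))) .out) .out)) (.na 5620 8192 (.nx 5619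
  647 (.nr 5618 65537 (.nr 4971 4096 .s1 (.nx 5133 163 (.lx (.lp 47 37 2049)) (.nr 5617 32769 (.lx
  (.lp 41 37 2049)) .out))) .out) .out) (.nx 6268 647 (.nr 6267 65537 (.nr 5621 8192 .s1 (.lx (.lp
  41 41 4097))) .out) .out))) (.na 7245 65536 (.na 6919 32768 (.nx 6918 647 (.nr 6917 131073 (.nr
  6270 16384 .s1 (.nx 6432 163 (.lx (.lp 16 0 8193)) (.nr 6916 65537 (.lx (.lp 37 43 8193)) .out)))
  .out) .out) (.nx 7244 324 (.nr 7243 131073 (.nr 6920 32768 .s1 (.lx (.lp 41 47 16385))) .out)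
  .out)) (.na 7572 131073 (.nx 7571 324 (.nr 7570 262145 (.nr 7246 65536 .s1 (.nx 7408 163 (.lx
  (.lp 16 0 32769)) (.nr 7569 131073 (.lx (.lp 37 53 32769)) .out))) .out) .out) .out)))))))

def T93_1 : Ph :=
  (.na 608 27 (.na 337 15 (.na 164 10 (.na 162 6 (.nx 161 16777217 (.nr 160 1482912 (.nx 124
  2097153 (.nx 30 29310 (.nx 3 205 (.nx 2 204 (.nr 1 59 (.lg 0 true 1 37 37 9 0 6120) (.l1 .sk))
  (.l1 .sk)) (.nr 17 155873 (.lg 0 false 14 103 109 16 0 12252240) (.nx 29 2049 (.nx 24 324 (.lg 0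
  false 7 79 79 16 0 14280) (.nx 25 645 .out (.nr 28 185365 (.lg 0 false 3 83 83 11 0 6120) .out)))
  .out))) (.nr 123 220437 (.nx 111 660563 (.nr 41 956 (.lg 0 true 11 83 89 16 0 22440) (.nr 48 4213
  (.lg 2 true 7 89 97 16 70479 42840) (.nr 51 8843 (.lg 2 true 3 83 89 11 15993 6120) (.nx 103
  208065 (.nx 59 41285 (.nr 58 155873 (.lg 1 false 7 103 107 16 110806 12252240) .out) (.nx 95
  165142 (.nx 88 112360 (.nx 81 76448 (.nx 67 52015 (.nr 66 185365 (.lg 1 false 7 103 107 16 93530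
  12252240) .out) (.lg 1 false 14 103 109 16 88266 12252240)) (.lg 1 false 7 107 109 16 60056
  12252240)) (.lg 1 true 7 107 109 16 40861 12252240)) (.nr 102 131073 (.lg 1 true 7 103 107 16
  16542 12252240) .out))) (.nr 110 77937 (.lg 2 false 7 97 101 16 7815 42840) .out))))) (.nr 122
  217 (.lg 0 true 11 83 83 16 0 22440) .out)) .out)) (.nr 159 24 (.lg 0 true 35 79 79 16 0 14280)
  .out)) .out) .out) (.na 163 9 .ne (.lg 0 false 1 0 0 7 0 24))) (.na 233 12 (.na 165 11 .ne (.nx
  232 2097153 (.nr 231 1048577 (.nx 168 205 (.nx 167 204 (.nr 166 121 (.lg 0 true 1 31 31 9 0 4488)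
  (.l1 .sk)) (.l1 .sk)) (.nx 169 257 (.l1 (.ls 83 31 2187)) (.nr 230 623489 (.nx 222 660563 (.nx
  188 52015 (.nr 182 185365 (.lg 0 false 13 103 107 16 0 12252240) (.nx 187 1292 (.lg 0 false 5 83
  83 16 0 22440) .out)) (.nr 221 220437 (.nr 195 930 (.lg 0 true 7 83 83 16 0 31416) (.nx 202
  104033 (.lg 1 false 7 101 103 16 88266 942480) (.nr 220 185365 (.nr 207 7162 (.lg 2 true 5 83 89
  16 72449 22440) (.nx 214 208065 (.lg 1 true 7 101 103 16 37117 942480) (.nr 219 65537 (.lg 2
  false 5 89 97 16 9408 471240) .out))) .out))) .out)) (.nr 229 65 (.lg 0 true 7 71 71 16 0 31416)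
  .out)) .out))) .out) .out)) (.na 285 13 (.nx 284 2097153 (.nr 283 1048577 (.nx 235 204 (.nr 234
  131 (.lg 0 true 1 31 31 13 0 12240) (.l1 .sk)) (.nx 236 205 (.l1 .sk) (.nx 275 660563 (.nx 237
  257 (.l1 (.ls 83 43 2005)) (.nr 274 623489 (.nr 266 185365 (.nx 244 48160 (.lg 0 false 7 101 103
  19 0 85680) (.nr 251 2074 (.lg 0 true 7 89 89 19 0 85680) (.nx 258 104033 (.lg 1 false 7 103 107
  19 80178 12252240) (.nr 265 155873 (.lg 2 false 7 101 103 19 32487 85680) .out)))) (.nx 273 1292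
  (.lg 0 false 7 83 83 19 0 17136) .out)) .out)) (.nr 282 65 (.lg 0 true 7 71 71 19 0 17136)
  .out)))) .out) .out) (.nx 336 2097153 (.nr 335 1048577 (.nx 288 205 (.nx 287 204 (.nr 286 152
  (.lg 0 true 1 31 31 9 0 5304) (.l1 .sk)) (.l1 .sk)) (.nx 289 257 (.l1 (.ls 83 31 1851)) (.nr 334
  623489 (.nr 326 185365 (.nx 296 48160 (.lg 0 false 7 103 107 16 0 6126120) (.nx 318 660563 (.nr
  303 2253 (.lg 0 true 7 89 89 16 0 37128) (.nx 310 104033 (.lg 1 false 7 103 107 16 80178
  12252240) (.nr 317 155873 (.lg 2 false 7 103 107 16 31218 12252240) .out))) (.nr 325 65 (.lg 0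
  true 7 71 71 16 0 37128) .out))) (.nx 333 1292 (.lg 0 false 7 79 83 16 0 37128) .out)) .out)))
  .out) .out)))) (.na 440 19 (.na 388 16 (.nx 387 2097153 (.nr 386 1048577 (.nr 338 5 .s1 (.nx 342
  257 (.nx 340 204 (.nr 339 162 (.lg 0 true 1 29 29 16 0 6120) (.l1 .sk)) (.nx 341 205 (.l1 .sk)
  (.l1 (.ls 83 37 1604)))) (.nr 385 623489 (.nx 379 660563 (.nr 371 185365 (.nx 349 48160 (.lg 0
  false 7 97 101 17 0 42840) (.nr 356 2334 (.lg 0 true 7 83 83 17 0 42840) (.nx 363 104033 (.lg 1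
  false 7 101 103 17 80178 942480) (.nr 370 155873 (.lg 2 false 7 89 101 17 31218 42840) .out))))
  (.nx 378 1292 (.lg 0 false 7 79 79 17 0 42840) .out)) (.nr 384 65 (.lg 0 true 5 67 67 16 0 6120)
  .out)) .out))) .out) .out) (.na 389 17 .ne (.nx 439 2097153 (.nr 438 1048577 (.nr 390 10 .s1 (.nx
  392 204 (.nr 391 192 (.lg 0 true 1 23 23 9 0 408) (.l1 .sk)) (.nx 393 205 (.l1 .sk) (.nx 394 324
  (.l1 (.ls 73 37 3706)) (.nr 437 623489 (.nr 429 262145 (.nx 405 41451 (.lg 0 false 11 89 97 16 0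
  67320) (.nr 428 155873 (.nr 416 751 (.lg 0 true 11 73 73 16 0 4488) (.nx 427 416129 (.lg 2 false
  11 97 101 16 78351 471240) .out)) .out)) (.nx 436 2049 (.lg 0 false 7 73 73 16 0 2856) .out))
  .out))))) .out) .out))) (.na 534 23 (.na 477 20 (.nx 476 2097153 (.nr 475 1048577 (.nr 441 13 .s1
  (.nx 444 205 (.nx 443 204 (.nr 442 202 (.lg 0 false 1 31 31 11 0 6120) (.l1 .sk)) (.l1 .sk)) (.nx
  459 41451 (.nx 445 324 (.l1 (.ls 83 37 3316)) (.nr 458 623489 (.nr 452 262145 (.lg 0 false 7 107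
  109 16 0 12252240) (.nx 457 2049 (.lg 0 false 5 79 83 16 0 2040) .out)) .out)) (.nr 474 155873
  (.nr 466 751 (.lg 0 true 7 83 83 16 0 2856) (.nx 473 416129 (.lg 2 false 7 107 109 16 78351
  12252240) .out)) .out)))) .out) .out) (.nx 533 2097153 (.nr 532 1048577 (.nr 478 15 .s1 (.nx 493
  20809 (.nx 480 204 (.nr 479 233 (.lg 0 false 1 41 41 13 0 134640) (.l1 .sk)) (.nx 481 205 (.l1
  .sk) (.nx 482 324 (.l1 (.ls 89 43 3150)) (.nr 492 623489 (.nr 489 262145 (.lg 0 false 7 101 103
  23 0 12252240) (.nx 491 2049 (.lg 0 false 2 89 89 17 0 4080) .out)) .out)))) (.nr 531 155873 (.nr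
  517 77937 (.nx 513 660563 (.nr 497 751 (.lg 0 true 4 83 83 19 0 4080) (.nx 512 416129 (.nr 504
  55110 (.lg 2 false 7 83 83 23 56519 28560) (.nx 511 330282 (.lg 0 true 7 101 109 23 0 12252240)
  .out)) .out)) (.nr 516 129 (.lg 0 true 3 79 79 19 0 12240) .out)) (.nx 530 208065 (.nr 527 131073
  (.nx 524 165142 (.lg 0 true 7 101 109 23 0 12252240) (.nr 526 92683 (.lg 0 true 2 97 101 17 0
  134640) .out)) (.nx 529 82572 (.lg 0 true 2 103 107 17 0 12252240) .out)) .out)) .out))) .out)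
  .out)) (.na 573 25 (.nx 572 2097153 (.nr 571 1048577 (.nr 535 19 .s1 (.nx 537 204 (.nr 536 253
  (.lg 0 true 1 29 29 11 0 6120) (.l1 .sk)) (.nx 538 205 (.l1 .sk) (.nx 539 324 (.l1 (.ls 79 37
  2740)) (.nr 570 524289 (.nr 562 185365 (.nx 546 41287 (.lg 0 false 7 97 101 16 0 42840) (.nr 561
  110219 (.nr 553 647 (.lg 0 true 7 79 79 16 0 2856) (.nx 560 330282 (.lg 2 false 7 97 101 16 55653
  42840) .out)) .out)) (.nx 569 13005 (.lg 0 false 7 89 97 16 0 42840) .out)) .out))))) .out) .out)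
  (.nx 607 2097153 (.nr 606 1048577 (.nr 574 21 .s1 (.nx 577 205 (.nx 576 204 (.nr 575 273 (.lg 0
  false 1 29 29 16 0 6120) (.l1 .sk)) (.l1 .sk)) (.nx 578 324 (.l1 (.ls 79 31 2521)) (.nr 605
  524289 (.nr 597 185365 (.nx 585 52017 (.lg 0 false 7 89 97 16 0 42840) (.nr 596 92683 (.nr 592
  817 (.lg 0 true 7 79 79 16 0 14280) (.nx 595 330282 (.lg 2 false 3 97 97 16 41235 42840) .out))
  .out)) (.nx 604 13005 (.lg 0 false 7 83 97 16 0 42840) .out)) .out)))) .out) .out))))) (.na 729
  43 (.na 647 33 (.na 609 29 (.lg 0 false 1 0 0 7 0 24) (.na 646 32 (.nx 645 2097153 (.nr 644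
  1048577 (.nr 610 26 .s1 (.nx 614 324 (.nx 612 204 (.nr 611 324 (.lg 0 false 1 29 29 13 0 6120)
  (.l1 .sk)) (.nx 613 205 (.l1 .sk) (.l1 (.ls 79 31 2173)))) (.nr 643 524289 (.nx 629 52017 (.nr
  621 185365 (.lg 0 false 7 97 101 16 0 42840) (.nx 628 13005 (.lg 0 false 7 89 97 16 0 42840)
  .out)) (.nr 642 92683 (.nr 636 936 (.lg 0 true 7 79 79 16 0 2856) (.nx 641 330282 (.lg 2 false 5
  89 97 16 37158 6120) .out)) .out)) .out))) .out) .out) .ne)) (.na 679 39 (.na 678 36 (.nx 677
  2097153 (.nr 676 881745 (.nr 648 30 .s1 (.nx 651 205 (.nx 650 204 (.nr 649 364 (.lg 0 false 1 29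
  29 16 0 67320) (.l1 .sk)) (.l1 .sk)) (.nx 652 324 (.l1 (.ls 79 37 1910)) (.nr 675 623489 (.nx 659
  26009 (.lg 0 false 7 97 101 19 0 471240) (.nr 674 77937 (.nr 666 364 (.lg 0 true 7 73 73 19 0
  94248) (.nx 673 208065 (.lg 2 false 7 89 97 19 62517 471240) .out)) .out)) .out)))) .out) .out)
  (.lg 0 false 1 0 0 7 0 24)) (.na 704 41 (.nx 703 2097153 (.nr 702 881745 (.nr 680 37 .s1 (.nx 692
  26009 (.nx 682 204 (.nr 681 415 (.lg 0 false 1 23 23 16 0 15912) (.l1 .sk)) (.nx 683 205 (.l1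
  .sk) (.nx 684 324 (.l1 (.ls 79 37 1617)) (.nr 691 623489 (.lg 0 false 7 89 97 19 0 556920)
  .out)))) (.nr 701 77937 (.nr 697 415 (.lg 0 true 5 71 71 19 0 79560) (.nx 700 208065 (.lg 2 false
  3 97 97 17 62517 556920) .out)) .out))) .out) .out) (.nx 728 2097153 (.nr 727 881745 (.nr 705 39
  .s1 (.nx 708 205 (.nx 707 204 (.nr 706 435 (.lg 0 true 1 23 23 16 0 6120) (.l1 .sk)) (.l1 .sk))
  (.nx 717 26009 (.nx 709 324 (.l1 (.ls 73 29 1538)) (.nr 716 623489 (.lg 0 false 7 97 101 16 0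
  42840) .out)) (.nr 726 77937 (.nr 722 435 (.lg 0 true 5 71 71 16 0 2040) (.nx 725 208065 (.lg 2
  false 3 89 97 16 62517 6120) .out)) .out)))) .out) .out)))) (.na 781 51 (.na 779 45 (.na 754 44
  (.nx 753 2097153 (.nr 752 881745 (.nr 730 41 .s1 (.nx 734 324 (.nx 732 204 (.nr 731 445 (.lg 0
  true 1 23 23 16 0 6120) (.l1 .sk)) (.nx 733 205 (.l1 .sk) (.l1 (.ls 73 29 1466)))) (.nr 751
  623489 (.nx 741 26009 (.lg 0 false 7 89 97 16 0 42840) (.nr 750 77937 (.nr 746 445 (.lg 0 true 5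
  71 71 16 0 2040) (.nx 749 208065 (.lg 2 false 3 89 89 16 62517 6120) .out)) .out)) .out))) .out)
  .out) (.nx 778 2097153 (.nr 777 881745 (.nr 755 42 .s1 (.nx 758 205 (.nx 757 204 (.nr 756 455
  (.l1 (.ls 31 37 948)) (.l1 .sk)) (.l1 .sk)) (.nx 759 324 (.l1 (.ls 83 41 1433)) (.nr 776 623489
  (.nx 766 13005 (.lg 0 false 7 89 101 29 0 942480) (.nr 775 155873 (.nx 768 32769 (.lg 0 false 2
  97 101 23 0 134640) (.nr 774 65537 (.nr 771 455 (.lg 0 true 3 79 79 23 0 26928) (.nx 773 208065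
  (.lg 2 false 2 97 101 23 46644 134640) .out)) .out)) .out)) .out)))) .out) .out)) (.na 780 46
  (.lg 0 false 1 0 0 16 0 24) .ne)) (.na 827 55 (.na 803 52 (.nx 802 2097153 (.nr 801 881745 (.nr
  782 49 .s1 (.nx 783 324 (.l1 (.ls 67 41 2061)) (.nr 800 741457 (.nx 790 32769 (.lg 0 false 7 83
  83 16 0 8568) (.nr 799 46342 (.nr 795 526 (.lg 0 true 5 61 61 16 0 6120) (.nx 798 208065 (.lg 2
  true 3 71 71 16 40348 1224) .out)) .out)) .out))) .out) .out) (.nx 826 2097153 (.nr 825 881745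
  (.nr 804 51 .s1 (.nx 807 205 (.nx 806 204 (.nr 805 556 (.l1 (.ls 37 37 803)) (.l1 .sk)) (.l1
  .sk)) (.nx 814 16385 (.nx 808 324 (.l1 (.ls 83 41 1213)) (.nr 813 741457 (.lg 0 false 5 97 101 29
  0 159120) .out)) (.nr 824 155873 (.nx 821 208065 (.nr 816 27556 (.lg 0 false 2 97 97 23 0 159120)
  (.nx 820 131073 (.nx 817 32769 (.lg 0 true 1 103 103 19 0 12252240) (.nr 819 46342 (.lg 2 false 2
  73 73 23 29557 10608) .out)) .out)) (.nr 823 257 (.lg 0 true 2 73 73 23 0 10608) .out)) .out))))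
  .out) .out)) (.na 847 57 (.nx 846 2097153 (.nr 845 881745 (.nr 828 54 .s1 (.nx 832 324 (.nx 830
  204 (.nr 829 577 (.l1 (.ls 31 31 759)) (.l1 .sk)) (.nx 831 205 (.l1 .sk) (.l1 (.ls 79 31 1147))))
  (.nr 844 741457 (.nr 840 155873 (.nx 834 32769 (.lg 0 false 2 97 101 17 0 134640) (.nr 839 46342
  (.nr 837 577 (.lg 0 true 3 79 79 19 0 67320) (.nx 838 208065 (.lg 2 true 1 89 89 17 36781 22440)
  .out)) .out)) (.nx 843 16385 (.lg 0 false 3 89 97 19 0 67320) .out)) .out))) .out) .out) (.nx 867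
  2097153 (.nr 866 881745 (.nr 848 56 .s1 (.nx 857 32769 (.nx 849 324 (.l1 (.ls 79 37 1844)) (.nr
  856 741457 (.lg 0 false 7 97 101 17 0 471240) .out)) (.nr 865 46342 (.nr 862 607 (.lg 0 true 5 73
  73 17 0 6120) (.nx 864 208065 (.lg 2 true 2 83 83 16 34964 2448) .out)) .out))) .out) .out))))))

theorem c93 :
    OkQ ckI L6 119 72 1099511627776 0 34359738368 1 1099511627776 ∧
    OkQ ckI L9 204 5 60 0 34359738368 1 1099511627776 := by
  refine ⟨?_, ?_⟩
  · refine fin 8568 7573 T93_0 ?_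
    refine jn 4 (by decide +kernel) ?_
    refine jn 5 (by decide +kernel) ?_
    refine jn 6 (by decide +kernel) ?_
    refine jn 8 (by decide +kernel) ?_
    refine jn 21 (by decide +kernel) ?_
    refine jn 32 (by decide +kernel) ?_
    refine jn 34 (by decide +kernel) ?_
    refine jn 43 (by decide +kernel) ?_
    refine jn 44 (by decide +kernel) ?_
    refine jn 46 (by decide +kernel) ?_
    refine jn 47 (by decide +kernel) ?_
    refine jn 57 (by decide +kernel) ?_
    refine jn 70 (by decide +kernel) ?_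
    refine jn 80 (by decide +kernel) ?_
    refine jn 83 (by decide +kernel) ?_
    refine jn 94 (by decide +kernel) ?_
    refine jn 107 (by decide +kernel) ?_
    refine jn 117 (by decide +kernel) ?_
    refine jn 120 (by decide +kernel) ?_
    refine jn 131 (by decide +kernel) ?_
    refine jn 134 (by decide +kernel) ?_
    refine jn 142 (by decide +kernel) ?_
    refine jn 143 (by decide +kernel) ?_
    refine jn 144 (by decide +kernel) ?_
    refine jn 146 (by decide +kernel) ?_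
    refine jn 156 (by decide +kernel) ?_
    refine jn 167 (by decide +kernel) ?_
    refine jn 170 (by decide +kernel) ?_
    refine jn 181 (by decide +kernel) ?_
    refine jn 192 (by decide +kernel) ?_
    refine jn 203 (by decide +kernel) ?_
    refine jn 213 (by decide +kernel) ?_
    refine jn 216 (by decide +kernel) ?_
    refine jn 226 (by decide +kernel) ?_
    refine jn 240 (by decide +kernel) ?_
    refine jn 244 (by decide +kernel) ?_
    refine jn 245 (by decide +kernel) ?_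
    refine jn 247 (by decide +kernel) ?_
    refine jn 248 (by decide +kernel) ?_
    refine jn 249 (by decide +kernel) ?_
    refine jn 250 (by decide +kernel) ?_
    refine jn 251 (by decide +kernel) ?_
    refine jn 261 (by decide +kernel) ?_
    refine jn 271 (by decide +kernel) ?_
    refine jn 281 (by decide +kernel) ?_
    refine jn 283 (by decide +kernel) ?_
    refine jn 294 (by decide +kernel) ?_
    refine jn 305 (by decide +kernel) ?_
    refine jn 317 (by decide +kernel) ?_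
    refine jn 326 (by decide +kernel) ?_
    refine jn 335 (by decide +kernel) ?_
    refine jn 350 (by decide +kernel) ?_
    refine jn 359 (by decide +kernel) ?_
    refine jn 367 (by decide +kernel) ?_
    refine jn 383 (by decide +kernel) ?_
    refine jn 391 (by decide +kernel) ?_
    refine jn 398 (by decide +kernel) ?_
    refine jn 402 (by decide +kernel) ?_
    refine jn 417 (by decide +kernel) ?_
    refine jn 426 (by decide +kernel) ?_
    refine jn 442 (by decide +kernel) ?_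
    refine jn 450 (by decide +kernel) ?_
    refine jn 459 (by decide +kernel) ?_
    refine jn 466 (by decide +kernel) ?_
    refine jn 475 (by decide +kernel) ?_
    refine jn 484 (by decide +kernel) ?_
    refine jn 498 (by decide +kernel) ?_
    refine jn 499 (by decide +kernel) ?_
    refine jn 508 (by decide +kernel) ?_
    refine jn 516 (by decide +kernel) ?_
    refine jn 532 (by decide +kernel) ?_
    refine jn 546 (by decide +kernel) ?_
    refine jn 547 (by decide +kernel) ?_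
    refine jn 556 (by decide +kernel) ?_
    refine jn 564 (by decide +kernel) ?_
    refine jn 572 (by decide +kernel) ?_
    refine jn 588 (by decide +kernel) ?_
    refine jn 595 (by decide +kernel) ?_
    refine jn 605 (by decide +kernel) ?_
    refine jn 621 (by decide +kernel) ?_
    refine jn 622 (by decide +kernel) ?_
    refine jn 630 (by decide +kernel) ?_
    refine jn 639 (by decide +kernel) ?_
    refine jn 647 (by decide +kernel) ?_
    refine jn 655 (by decide +kernel) ?_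
    refine jn 664 (by decide +kernel) ?_
    refine jn 672 (by decide +kernel) ?_
    refine jn 679 (by decide +kernel) ?_
    refine jn 688 (by decide +kernel) ?_
    refine jn 696 (by decide +kernel) ?_
    refine jn 705 (by decide +kernel) ?_
    refine jn 713 (by decide +kernel) ?_
    refine jn 731 (by decide +kernel) ?_
    refine jn 743 (by decide +kernel) ?_
    refine jn 744 (by decide +kernel) ?_
    refine jn 745 (by decide +kernel) ?_
    refine jn 746 (by decide +kernel) ?_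
    refine jn 762 (by decide +kernel) ?_
    refine jn 775 (by decide +kernel) ?_
    refine jn 784 (by decide +kernel) ?_
    refine jn 786 (by decide +kernel) ?_
    refine jn 795 (by decide +kernel) ?_
    refine jn 807 (by decide +kernel) ?_
    refine jn 820 (by decide +kernel) ?_
    refine jn 828 (by decide +kernel) ?_
    refine jn 848 (by decide +kernel) ?_
    refine jn 864 (by decide +kernel) ?_
    refine jn 877 (by decide +kernel) ?_
    refine jn 896 (by decide +kernel) ?_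
    refine jn 912 (by decide +kernel) ?_
    refine jn 935 (by decide +kernel) ?_
    refine jn 942 (by decide +kernel) ?_
    refine jn 958 (by decide +kernel) ?_
    refine jn 976 (by decide +kernel) ?_
    refine jn 993 (by decide +kernel) ?_
    refine jn 1008 (by decide +kernel) ?_
    refine jn 1030 (by decide +kernel) ?_
    refine jn 1056 (by decide +kernel) ?_
    refine jn 1068 (by decide +kernel) ?_
    refine jn 1086 (by decide +kernel) ?_
    refine jn 1093 (by decide +kernel) ?_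
    refine jn 1096 (by decide +kernel) ?_
    refine jn 1099 (by decide +kernel) ?_
    refine jn 1101 (by decide +kernel) ?_
    refine jn 1105 (by decide +kernel) ?_
    refine jn 1110 (by decide +kernel) ?_
    refine jn 1111 (by decide +kernel) ?_
    refine jn 1112 (by decide +kernel) ?_
    refine jn 1119 (by decide +kernel) ?_
    refine jn 1122 (by decide +kernel) ?_
    refine jn 1129 (by decide +kernel) ?_
    refine jn 1131 (by decide +kernel) ?_
    refine jn 1132 (by decide +kernel) ?_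
    refine jn 1136 (by decide +kernel) ?_
    refine jn 1141 (by decide +kernel) ?_
    refine jn 1144 (by decide +kernel) ?_
    refine jn 1149 (by decide +kernel) ?_
    refine jn 1151 (by decide +kernel) ?_
    refine jn 1155 (by decide +kernel) ?_
    refine jn 1159 (by decide +kernel) ?_
    refine jn 1162 (by decide +kernel) ?_
    refine jn 1166 (by decide +kernel) ?_
    refine jn 1167 (by decide +kernel) ?_
    refine jn 1171 (by decide +kernel) ?_
    refine jn 1175 (by decide +kernel) ?_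
    refine jn 1177 (by decide +kernel) ?_
    refine jn 1189 (by decide +kernel) ?_
    refine jn 1191 (by decide +kernel) ?_
    refine jn 1192 (by decide +kernel) ?_
    refine jn 1197 (by decide +kernel) ?_
    refine jn 1200 (by decide +kernel) ?_
    refine jn 1203 (by decide +kernel) ?_
    refine jn 1204 (by decide +kernel) ?_
    refine jn 1209 (by decide +kernel) ?_
    refine jn 1213 (by decide +kernel) ?_
    refine jn 1215 (by decide +kernel) ?_
    refine jn 1218 (by decide +kernel) ?_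
    refine jn 1220 (by decide +kernel) ?_
    refine jn 1228 (by decide +kernel) ?_
    refine jn 1231 (by decide +kernel) ?_
    refine jn 1233 (by decide +kernel) ?_
    refine jn 1239 (by decide +kernel) ?_
    refine jn 1241 (by decide +kernel) ?_
    refine jn 1248 (by decide +kernel) ?_
    refine jn 1251 (by decide +kernel) ?_
    refine jn 1252 (by decide +kernel) ?_
    refine jn 1255 (by decide +kernel) ?_
    refine jn 1256 (by decide +kernel) ?_
    refine jn 1261 (by decide +kernel) ?_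
    refine jn 1263 (by decide +kernel) ?_
    refine jn 1265 (by decide +kernel) ?_
    refine jn 1270 (by decide +kernel) ?_
    refine jn 1278 (by decide +kernel) ?_
    refine jn 1281 (by decide +kernel) ?_
    refine jn 1285 (by decide +kernel) ?_
    refine jn 1294 (by decide +kernel) ?_
    refine jn 1296 (by decide +kernel) ?_
    refine jn 1300 (by decide +kernel) ?_
    refine jn 1309 (by decide +kernel) ?_
    refine jn 1311 (by decide +kernel) ?_
    refine jn 1312 (by decide +kernel) ?_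
    refine jn 1319 (by decide +kernel) ?_
    refine jn 1322 (by decide +kernel) ?_
    refine jn 1323 (by decide +kernel) ?_
    refine jn 1327 (by decide +kernel) ?_
    refine jn 1331 (by decide +kernel) ?_
    refine jn 1334 (by decide +kernel) ?_
    refine jn 1339 (by decide +kernel) ?_
    refine jn 1342 (by decide +kernel) ?_
    refine jn 1362 (by decide +kernel) ?_
    refine jn 1384 (by decide +kernel) ?_
    refine jn 1411 (by decide +kernel) ?_
    refine jn 1435 (by decide +kernel) ?_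
    refine jn 1450 (by decide +kernel) ?_
    refine jn 1475 (by decide +kernel) ?_
    refine jn 1497 (by decide +kernel) ?_
    refine jn 1523 (by decide +kernel) ?_
    refine jn 1555 (by decide +kernel) ?_
    refine jn 1564 (by decide +kernel) ?_
    refine jn 1567 (by decide +kernel) ?_
    refine jn 1572 (by decide +kernel) ?_
    refine jn 1574 (by decide +kernel) ?_
    refine jn 1584 (by decide +kernel) ?_
    refine jn 1585 (by decide +kernel) ?_
    refine jn 1588 (by decide +kernel) ?_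
    refine jn 1591 (by decide +kernel) ?_
    refine jn 1596 (by decide +kernel) ?_
    refine jn 1604 (by decide +kernel) ?_
    refine jn 1606 (by decide +kernel) ?_
    refine jn 1608 (by decide +kernel) ?_
    refine jn 1614 (by decide +kernel) ?_
    refine jn 1621 (by decide +kernel) ?_
    refine jn 1624 (by decide +kernel) ?_
    refine jn 1630 (by decide +kernel) ?_
    refine jn 1632 (by decide +kernel) ?_
    refine jn 1643 (by decide +kernel) ?_
    refine jn 1647 (by decide +kernel) ?_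
    refine jn 1648 (by decide +kernel) ?_
    refine jn 1649 (by decide +kernel) ?_
    refine jn 1652 (by decide +kernel) ?_
    refine jn 1660 (by decide +kernel) ?_
    refine jn 1663 (by decide +kernel) ?_
    refine jn 1668 (by decide +kernel) ?_
    refine jn 1670 (by decide +kernel) ?_
    refine jn 1678 (by decide +kernel) ?_
    refine jn 1684 (by decide +kernel) ?_
    refine jn 1688 (by decide +kernel) ?_
    refine jn 1693 (by decide +kernel) ?_
    refine jn 1696 (by decide +kernel) ?_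
    refine jn 1703 (by decide +kernel) ?_
    refine jn 1704 (by decide +kernel) ?_
    refine jn 1707 (by decide +kernel) ?_
    refine jn 1718 (by decide +kernel) ?_
    refine jn 1722 (by decide +kernel) ?_
    refine jn 1728 (by decide +kernel) ?_
    refine jn 1733 (by decide +kernel) ?_
    refine jn 1736 (by decide +kernel) ?_
    refine jn 1740 (by decide +kernel) ?_
    refine jn 1748 (by decide +kernel) ?_
    refine jn 1764 (by decide +kernel) ?_
    refine jn 1767 (by decide +kernel) ?_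
    refine jn 1768 (by decide +kernel) ?_
    refine jn 1769 (by decide +kernel) ?_
    refine jn 1783 (by decide +kernel) ?_
    refine jn 1796 (by decide +kernel) ?_
    refine jn 1798 (by decide +kernel) ?_
    refine jn 1816 (by decide +kernel) ?_
    refine jn 1828 (by decide +kernel) ?_
    refine jn 1847 (by decide +kernel) ?_
    refine jn 1856 (by decide +kernel) ?_
    refine jn 1868 (by decide +kernel) ?_
    refine jn 1887 (by decide +kernel) ?_
    refine jn 1892 (by decide +kernel) ?_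
    refine jn 1900 (by decide +kernel) ?_
    refine jn 1912 (by decide +kernel) ?_
    refine jn 1920 (by decide +kernel) ?_
    refine jn 1939 (by decide +kernel) ?_
    refine jn 1955 (by decide +kernel) ?_
    refine jn 1970 (by decide +kernel) ?_
    refine jn 1991 (by decide +kernel) ?_
    refine jn 2010 (by decide +kernel) ?_
    refine jn 2022 (by decide +kernel) ?_
    refine jn 2036 (by decide +kernel) ?_
    refine jn 2045 (by decide +kernel) ?_
    refine jn 2058 (by decide +kernel) ?_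
    refine jn 2074 (by decide +kernel) ?_
    refine jn 2207 (by decide +kernel) ?_
    refine jn 2223 (by decide +kernel) ?_
    refine jn 2246 (by decide +kernel) ?_
    refine jn 2255 (by decide +kernel) ?_
    refine jn 2269 (by decide +kernel) ?_
    refine jn 2287 (by decide +kernel) ?_
    refine jn 2299 (by decide +kernel) ?_
    refine jn 2323 (by decide +kernel) ?_
    refine jn 2343 (by decide +kernel) ?_
    refine jn 2369 (by decide +kernel) ?_
    refine jn 2380 (by decide +kernel) ?_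
    refine jn 2399 (by decide +kernel) ?_
    refine jn 2415 (by decide +kernel) ?_
    refine jn 2432 (by decide +kernel) ?_
    refine jn 2447 (by decide +kernel) ?_
    refine jn 2465 (by decide +kernel) ?_
    refine jn 2489 (by decide +kernel) ?_
    refine jn 2511 (by decide +kernel) ?_
    refine jn 2529 (by decide +kernel) ?_
    refine jn 2551 (by decide +kernel) ?_
    refine jn 2570 (by decide +kernel) ?_
    refine jn 2603 (by decide +kernel) ?_
    refine jn 2615 (by decide +kernel) ?_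
    refine jn 2717 (by decide +kernel) ?_
    refine jn 2774 (by decide +kernel) ?_
    refine jn 2807 (by decide +kernel) ?_
    refine jn 2846 (by decide +kernel) ?_
    refine jn 2873 (by decide +kernel) ?_
    refine jn 2906 (by decide +kernel) ?_
    refine jn 2938 (by decide +kernel) ?_
    refine jn 2972 (by decide +kernel) ?_
    refine jn 2998 (by decide +kernel) ?_
    refine jn 3031 (by decide +kernel) ?_
    refine jn 3076 (by decide +kernel) ?_
    refine jn 3104 (by decide +kernel) ?_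
    refine jn 3137 (by decide +kernel) ?_
    refine jn 3173 (by decide +kernel) ?_
    refine jn 3210 (by decide +kernel) ?_
    refine jn 3242 (by decide +kernel) ?_
    refine jn 3275 (by decide +kernel) ?_
    refine jn 3314 (by decide +kernel) ?_
    refine jn 3349 (by decide +kernel) ?_
    refine jn 3498 (by decide +kernel) ?_
    refine jn 3529 (by decide +kernel) ?_
    refine jn 3573 (by decide +kernel) ?_
    refine jn 3611 (by decide +kernel) ?_
    refine jn 3649 (by decide +kernel) ?_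
    refine jn 3688 (by decide +kernel) ?_
    refine jn 3725 (by decide +kernel) ?_
    refine jn 3765 (by decide +kernel) ?_
    refine jn 3811 (by decide +kernel) ?_
    refine jn 3849 (by decide +kernel) ?_
    refine jn 3889 (by decide +kernel) ?_
    refine jn 3935 (by decide +kernel) ?_
    refine jn 3968 (by decide +kernel) ?_
    refine jn 4010 (by decide +kernel) ?_
    refine jn 4051 (by decide +kernel) ?_
    refine jn 4093 (by decide +kernel) ?_
    refine jn 4134 (by decide +kernel) ?_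
    refine jn 4174 (by decide +kernel) ?_
    refine jn 4220 (by decide +kernel) ?_
    refine jn 4277 (by decide +kernel) ?_
    refine jn 4301 (by decide +kernel) ?_
    refine jn 4490 (by decide +kernel) ?_
    refine jn 4601 (by decide +kernel) ?_
    refine jn 4689 (by decide +kernel) ?_
    refine jn 4745 (by decide +kernel) ?_
    refine jn 4819 (by decide +kernel) ?_
    refine jn 4873 (by decide +kernel) ?_
    refine jn 4931 (by decide +kernel) ?_
    refine jn 4971 (by decide +kernel) ?_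
    refine jn 5149 (by decide +kernel) ?_
    refine jn 5199 (by decide +kernel) ?_
    refine jn 5249 (by decide +kernel) ?_
    refine jn 5289 (by decide +kernel) ?_
    refine jn 5337 (by decide +kernel) ?_
    refine jn 5378 (by decide +kernel) ?_
    refine jn 5417 (by decide +kernel) ?_
    refine jn 5471 (by decide +kernel) ?_
    refine jn 5504 (by decide +kernel) ?_
    refine jn 5539 (by decide +kernel) ?_
    refine jn 5571 (by decide +kernel) ?_
    refine jn 5601 (by decide +kernel) ?_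
    refine jn 5789 (by decide +kernel) ?_
    refine jn 5849 (by decide +kernel) ?_
    refine jn 5903 (by decide +kernel) ?_
    refine jn 5969 (by decide +kernel) ?_
    refine jn 6031 (by decide +kernel) ?_
    refine jn 6101 (by decide +kernel) ?_
    refine jn 6141 (by decide +kernel) ?_
    refine jn 6189 (by decide +kernel) ?_
    refine jn 6239 (by decide +kernel) ?_
    refine jn 6450 (by decide +kernel) ?_
    refine jn 6523 (by decide +kernel) ?_
    refine jn 6588 (by decide +kernel) ?_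
    refine jn 6658 (by decide +kernel) ?_
    refine jn 6708 (by decide +kernel) ?_
    refine jn 6760 (by decide +kernel) ?_
    refine jn 6798 (by decide +kernel) ?_
    refine jn 6838 (by decide +kernel) ?_
    refine jn 6870 (by decide +kernel) ?_
    refine jn 6910 (by decide +kernel) ?_
    refine jn 7184 (by decide +kernel) ?_
    refine jn 7246 (by decide +kernel) ?_
    exact je (by decide +kernel)
  · refine fin 408 868 T93_1 ?_
    refine jn 3 (by decide +kernel) ?_
    refine jn 4 (by decide +kernel) ?_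
    refine jn 7 (by decide +kernel) ?_
    refine jn 9 (by decide +kernel) ?_
    refine jn 10 (by decide +kernel) ?_
    refine jn 11 (by decide +kernel) ?_
    refine jn 14 (by decide +kernel) ?_
    refine jn 16 (by decide +kernel) ?_
    refine jn 24 (by decide +kernel) ?_
    refine jn 32 (by decide +kernel) ?_
    refine jn 35 (by decide +kernel) ?_
    refine jn 38 (by decide +kernel) ?_
    refine jn 41 (by decide +kernel) ?_
    refine jn 48 (by decide +kernel) ?_
    refine jn 58 (by decide +kernel) ?_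
    refine jn 66 (by decide +kernel) ?_
    refine jn 81 (by decide +kernel) ?_
    refine jn 87 (by decide +kernel) ?_
    refine jn 92 (by decide +kernel) ?_
    refine jn 102 (by decide +kernel) ?_
    refine jn 110 (by decide +kernel) ?_
    refine jn 120 (by decide +kernel) ?_
    refine jn 159 (by decide +kernel) ?_
    refine jn 169 (by decide +kernel) ?_
    refine jn 173 (by decide +kernel) ?_
    refine jn 176 (by decide +kernel) ?_
    refine jn 180 (by decide +kernel) ?_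
    refine jn 187 (by decide +kernel) ?_
    refine jn 193 (by decide +kernel) ?_
    refine jn 195 (by decide +kernel) ?_
    refine jn 202 (by decide +kernel) ?_
    refine jn 207 (by decide +kernel) ?_
    refine jn 214 (by decide +kernel) ?_
    refine jn 229 (by decide +kernel) ?_
    refine jn 237 (by decide +kernel) ?_
    refine jn 240 (by decide +kernel) ?_
    refine jn 242 (by decide +kernel) ?_
    refine jn 244 (by decide +kernel) ?_
    refine jn 249 (by decide +kernel) ?_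
    refine jn 258 (by decide +kernel) ?_
    refine jn 265 (by decide +kernel) ?_
    refine jn 282 (by decide +kernel) ?_
    refine jn 291 (by decide +kernel) ?_
    refine jn 294 (by decide +kernel) ?_
    refine jn 296 (by decide +kernel) ?_
    refine jn 302 (by decide +kernel) ?_
    refine jn 310 (by decide +kernel) ?_
    refine jn 317 (by decide +kernel) ?_
    refine jn 325 (by decide +kernel) ?_
    refine jn 341 (by decide +kernel) ?_
    refine jn 345 (by decide +kernel) ?_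
    refine jn 348 (by decide +kernel) ?_
    refine jn 349 (by decide +kernel) ?_
    refine jn 355 (by decide +kernel) ?_
    refine jn 363 (by decide +kernel) ?_
    refine jn 370 (by decide +kernel) ?_
    refine jn 384 (by decide +kernel) ?_
    refine jn 405 (by decide +kernel) ?_
    refine jn 427 (by decide +kernel) ?_
    refine jn 445 (by decide +kernel) ?_
    refine jn 450 (by decide +kernel) ?_
    refine jn 457 (by decide +kernel) ?_
    refine jn 466 (by decide +kernel) ?_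
    refine jn 473 (by decide +kernel) ?_
    refine jn 481 (by decide +kernel) ?_
    refine jn 482 (by decide +kernel) ?_
    refine jn 483 (by decide +kernel) ?_
    refine jn 484 (by decide +kernel) ?_
    refine jn 485 (by decide +kernel) ?_
    refine jn 486 (by decide +kernel) ?_
    refine jn 487 (by decide +kernel) ?_
    refine jn 488 (by decide +kernel) ?_
    refine jn 489 (by decide +kernel) ?_
    refine jn 493 (by decide +kernel) ?_
    refine jn 494 (by decide +kernel) ?_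
    refine jn 495 (by decide +kernel) ?_
    refine jn 496 (by decide +kernel) ?_
    refine jn 497 (by decide +kernel) ?_
    refine jn 498 (by decide +kernel) ?_
    refine jn 499 (by decide +kernel) ?_
    refine jn 500 (by decide +kernel) ?_
    refine jn 501 (by decide +kernel) ?_
    refine jn 502 (by decide +kernel) ?_
    refine jn 503 (by decide +kernel) ?_
    refine jn 504 (by decide +kernel) ?_
    refine jn 511 (by decide +kernel) ?_
    refine jn 516 (by decide +kernel) ?_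
    refine jn 523 (by decide +kernel) ?_
    refine jn 526 (by decide +kernel) ?_
    refine jn 538 (by decide +kernel) ?_
    refine jn 544 (by decide +kernel) ?_
    refine jn 546 (by decide +kernel) ?_
    refine jn 553 (by decide +kernel) ?_
    refine jn 560 (by decide +kernel) ?_
    refine jn 577 (by decide +kernel) ?_
    refine jn 582 (by decide +kernel) ?_
    refine jn 585 (by decide +kernel) ?_
    refine jn 592 (by decide +kernel) ?_
    refine jn 604 (by decide +kernel) ?_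
    refine jn 614 (by decide +kernel) ?_
    refine jn 621 (by decide +kernel) ?_
    refine jn 629 (by decide +kernel) ?_
    refine jn 636 (by decide +kernel) ?_
    refine jn 651 (by decide +kernel) ?_
    refine jn 659 (by decide +kernel) ?_
    refine jn 666 (by decide +kernel) ?_
    refine jn 673 (by decide +kernel) ?_
    refine jn 691 (by decide +kernel) ?_
    refine jn 700 (by decide +kernel) ?_
    refine jn 716 (by decide +kernel) ?_
    refine jn 725 (by decide +kernel) ?_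
    refine jn 741 (by decide +kernel) ?_
    refine jn 749 (by decide +kernel) ?_
    refine jn 759 (by decide +kernel) ?_
    refine jn 762 (by decide +kernel) ?_
    refine jn 765 (by decide +kernel) ?_
    refine jn 768 (by decide +kernel) ?_
    refine jn 771 (by decide +kernel) ?_
    refine jn 773 (by decide +kernel) ?_
    refine jn 798 (by decide +kernel) ?_
    refine jn 808 (by decide +kernel) ?_
    refine jn 809 (by decide +kernel) ?_
    refine jn 810 (by decide +kernel) ?_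
    refine jn 811 (by decide +kernel) ?_
    refine jn 812 (by decide +kernel) ?_
    refine jn 813 (by decide +kernel) ?_
    refine jn 814 (by decide +kernel) ?_
    refine jn 815 (by decide +kernel) ?_
    refine jn 816 (by decide +kernel) ?_
    refine jn 817 (by decide +kernel) ?_
    refine jn 818 (by decide +kernel) ?_
    refine jn 819 (by decide +kernel) ?_
    refine jn 823 (by decide +kernel) ?_
    refine jn 832 (by decide +kernel) ?_
    refine jn 834 (by decide +kernel) ?_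
    refine jn 837 (by decide +kernel) ?_
    refine jn 843 (by decide +kernel) ?_
    refine jn 856 (by decide +kernel) ?_
    refine jn 864 (by decide +kernel) ?_
    exact je (by decide +kernel)

end Pool.Agent.MP_2339ce_nt.NR
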