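import Pool.Agent.MP_2339ce_nt.Q2.NC.L6
import Pool.Agent.MP_2339ce_nt.Q2.NC.L8
import Pool.Agent.MP_2339ce_nt.Q2.CkI

/-! Block NR: runs. -/

set_option autoImplicit false
set_option maxRecDepth 100000

noncomputable section

namespace Pool.Agent.MP_2339ce_nt.NR

open Q2.Top

def T98_0 : Ph :=
  (.na 571 5 (.na 332 3 (.na 196 2 (.nx 195 1321124 (.nr 194 311745 (.nx 2 71 (.nr 1 9 (.lg 0 true
  1 31 31 5 0 5112) (.l1 .sk)) (.nx 3 72 (.l1 .sk) (.nx 45 6503 (.nr 31 46342 (.lg 0 false 28 97 97
  11 0 357840) (.nx 44 205 (.lg 0 false 13 83 83 9 0 66456) .out)) (.nr 193 38969 (.nr 156 1724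
  (.nx 100 330282 (.nr 89 432 (.lg 0 true 44 83 89 16 0 562320) (.lg 2 true 11 97 97 9 27142
  562320)) (.nr 155 109 (.nx 128 660563 (.lg 0 true 28 79 83 11 0 357840) (.nr 154 13 (.lg 0 true
  26 67 73 9 0 132912) .out)) .out)) (.nx 192 165142 (.nx 167 12041 (.lg 1 false 11 101 101 9 15133
  562320) (.nx 178 16385 (.lg 1 false 11 97 97 9 8173 562320) (.nr 191 27556 (.lg 2 false 13 101
  103 9 4250 4651920) .out))) .out)) .out)))) .out) .out) (.nx 331 3329023 (.nr 330 623489 (.nx 199
  72 (.nx 198 71 (.nr 197 16 (.lg 0 true 1 29 29 5 0 10224) (.l1 .sk)) (.l1 .sk)) (.nr 316 77937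
  (.nx 228 6501 (.nr 220 55110 (.lg 0 false 21 89 97 11 0 357840) (.nx 227 1292 (.lg 0 false 7 83
  83 9 0 71568) .out)) (.nr 315 65537 (.nr 282 257 (.nx 263 1321124 (.lg 0 true 35 83 83 13 0
  357840) (.nr 281 9 (.lg 0 true 18 67 67 9 0 10224) .out)) (.nx 314 165142 (.nx 295 20644 (.lg 1
  false 13 97 101 9 25439 664560) (.nr 313 46342 (.nr 302 1100 (.lg 2 true 7 79 79 9 22812 71568)
  (.lg 2 false 11 97 101 9 5667 562320)) .out)) .out)) .out)) (.nx 329 205 (.lg 0 false 13 83 83 9
  0 132912) .out))) .out) .out)) (.na 450 4 (.nx 449 6658044 (.nr 448 881745 (.nx 421 1321124 (.nx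
  409 416129 (.nx 366 6019 (.nx 334 71 (.nr 333 23 (.lg 0 true 1 31 31 5 0 51120) (.l1 .sk)) (.nx
  335 72 (.l1 .sk) (.nr 348 55110 (.lg 0 false 13 97 97 16 0 664560) (.nx 365 1292 (.nx 359 205
  (.lg 0 false 11 83 89 16 0 56232) (.nx 360 406 .out (.nr 364 110219 (.lg 0 false 4 89 89 7 0
  10224) .out))) .out)))) (.nr 408 65537 (.nr 379 364 (.lg 0 true 13 83 83 16 0 66456) (.nx 407
  208065 (.nr 383 3220 (.lg 2 true 4 89 89 7 20293 10224) (.nx 402 52017 (.nx 391 13003 (.nr 390
  55110 (.lg 1 false 7 97 103 13 23110 357840) .out) (.nx 398 28090 (.lg 1 true 7 103 107 13 12718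
  51171120) (.lg 1 true 4 107 107 7 5888 51171120))) (.nr 406 38969 (.lg 2 false 4 101 101 7 2294
  357840) .out))) .out)) .out)) (.nr 420 109 (.lg 0 true 11 83 83 16 0 56232) .out)) (.nr 447 13
  (.lg 0 true 26 83 83 7 0 132912) .out)) .out) .out) (.nx 570 10568985 (.nr 569 1246976 (.nx 452
  71 (.nr 451 29 (.lg 0 true 1 29 29 9 0 51120) (.l1 .sk)) (.nx 453 72 (.l1 .sk) (.nx 484 10321
  (.nr 464 55110 (.lg 0 false 11 97 97 13 0 562320) (.nx 483 1292 (.nr 471 155873 (.lg 0 false 7 89
  97 11 0 357840) (.nx 482 205 (.lg 0 false 11 89 89 13 0 562320) .out)) .out)) (.nr 568 65537 (.nx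
  516 330282 (.nr 495 694 (.lg 0 true 11 89 89 13 0 562320) (.nx 502 20642 (.lg 1 false 7 89 101 11
  16023 357840) (.nr 505 2635 (.lg 2 true 3 89 89 9 16895 10224) (.lg 2 false 11 101 107 13 8012
  51171120)))) (.nr 567 183 (.nr 555 29 (.lg 0 true 39 83 83 13 0 132912) (.nx 566 1321124 (.lg 0
  true 11 89 89 13 0 562320) .out)) .out)) .out)))) .out) .out))) (.na 702 7 (.na 652 6 (.nx 651
  10568985 (.nr 650 1482912 (.nx 574 72 (.nx 573 71 (.nr 572 35 (.lg 0 true 1 23 23 9 0 51120) (.l1
  .sk)) (.l1 .sk)) (.nr 642 65537 (.nx 581 8191 (.lg 0 false 7 97 97 16 0 357840) (.nx 599 262145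
  (.nr 588 824 (.lg 0 true 7 83 83 16 0 178920) (.nx 592 15464 (.lg 1 false 4 89 97 13 20190 51120)
  (.lg 2 false 7 101 103 16 11294 3936240))) (.nr 641 217 (.nx 612 1321124 (.lg 0 true 13 79 83 16
  0 332280) (.nr 640 24 (.lg 0 true 28 79 79 16 0 357840) .out)) .out))) (.nx 649 205 (.lg 0 false
  7 83 83 16 0 178920) .out))) .out) .out) (.nx 701 1321124 (.nr 700 220437 (.nx 654 71 (.nr 653 41
  (.lg 0 false 1 23 23 7 0 51120) (.l1 .sk)) (.nx 655 72 (.l1 .sk) (.nx 692 660563 (.nr 684 55110
  (.nx 662 11394 (.lg 0 false 7 97 97 13 0 357840) (.nr 673 501 (.lg 0 true 11 83 83 17 0 112464)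
  (.nx 683 416129 (.nr 676 1905 (.lg 2 true 3 83 83 13 29487 51120) (.lg 2 false 7 97 101 13 12208
  357840)) .out))) (.nx 691 1292 (.lg 0 false 7 89 97 13 0 357840) .out)) (.nr 699 109 (.lg 0 true
  7 79 79 13 0 71568) .out)))) .out) .out)) (.na 703 8 .ne (.na 765 9 (.nx 764 10568985 (.nr 763
  623489 (.nx 705 71 (.nr 704 54 (.lg 0 true 1 29 29 11 0 10224) (.l1 .sk)) (.nx 706 72 (.l1 .sk)
  (.nr 759 220437 (.nx 737 1321124 (.nx 717 9411 (.nr 713 77937 (.lg 0 false 7 97 97 13 0 357840)
  (.nx 716 814 (.lg 0 false 3 89 89 13 0 51120) .out)) (.nr 736 65537 (.nr 724 364 (.lg 0 true 7 89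
  89 13 0 71568) (.nx 735 208065 (.nr 725 2504 (.lg 2 false 1 89 89 11 20293 51120) (.nx 731 41287
  (.nx 728 19712 (.lg 1 false 3 89 97 13 17573 51120) (.lg 1 true 3 89 97 13 8390 51120)) (.nr 734
  46342 (.lg 2 false 3 89 97 13 2950 51120) .out))) .out)) .out)) (.nr 758 55 (.lg 0 true 21 83 89
  13 0 71568) .out)) (.nx 762 408 (.lg 0 false 3 89 89 13 0 10224) .out)))) .out) .out) (.nx 828
  10568985 (.nr 827 623489 (.nr 766 4 .s1 (.nx 768 71 (.nr 767 60 (.lg 0 true 1 19 19 7 0 51120)
  (.l1 .sk)) (.nx 769 72 (.l1 .sk) (.nr 819 77937 (.nx 776 9196 (.lg 0 false 7 89 89 16 0 357840)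
  (.nr 818 65537 (.nr 802 65 (.lg 0 true 26 79 79 16 0 132912) (.nx 817 1321124 (.nr 809 364 (.lg 0
  true 7 79 79 16 0 35784) (.nx 816 165142 (.lg 2 false 7 97 101 16 17984 357840) .out)) .out))
  .out)) (.nx 826 814 (.lg 0 false 7 83 83 16 0 35784) .out))))) .out) .out)))))

def T98_1 : Ph :=
  (.na 820 6 (.na 311 3 (.na 310 2 (.nx 309 1321124 (.nr 308 881745 (.nx 2 140 (.nr 1 12 (.lg 0
  false 1 43 43 5 0 2520) (.l1 .sk)) (.nx 3 141 (.l1 .sk) (.nr 291 311745 (.nx 266 660563 (.nx 68
  13005 (.nr 51 92683 (.lg 0 false 48 101 107 16 0 720720) (.nx 67 257 (.lg 0 false 16 83 83 9 0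
  5040) .out)) (.nr 265 77937 (.nr 116 695 (.lg 0 true 48 89 97 16 0 5040) (.nx 160 24081 (.nx 138
  17696 (.lg 1 false 22 101 103 11 58838 720720) (.lg 1 false 22 101 103 11 43241 720720)) (.nx 182
  32769 (.lg 1 false 22 101 103 11 31775 720720) (.nr 264 55110 (.nr 247 38969 (.nr 193 1219 (.lg 2
  true 11 89 89 9 66532 27720) (.nx 246 524289 (.nr 229 23172 (.nr 204 2437 (.lg 2 true 11 89 97 9
  30107 27720) (.nx 228 416129 (.nr 212 4097 (.lg 2 true 8 89 97 9 11953 5040) (.lg 2 false 16 101
  103 9 7110 720720)) .out)) (.nx 245 262145 (.lg 2 false 16 101 103 9 11697 720720) .out)) .out))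
  (.nx 263 104033 (.lg 2 true 16 103 107 9 16524 720720) .out)) .out)))) .out)) (.nr 290 129 (.lg 0
  true 24 89 89 11 0 5040) .out)) (.nx 307 205 (.lg 0 false 16 83 83 9 0 5040) .out)))) .out) .out)
  .ne) (.na 498 4 (.nx 497 6658044 (.nr 496 1482912 (.nx 313 140 (.nr 312 32 (.lg 0 true 1 37 37 5
  0 2520) (.l1 .sk)) (.nx 314 141 (.l1 .sk) (.nx 344 13003 (.nr 330 110219 (.lg 0 false 16 101 103
  16 0 720720) (.nx 343 257 (.lg 0 false 13 83 89 16 0 32760) .out)) (.nr 495 131073 (.nx 458
  524289 (.nr 360 364 (.lg 0 true 16 83 83 16 0 5040) (.nx 457 262145 (.nr 371 2904 (.nr 368 1453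
  (.lg 2 true 8 83 89 16 50413 5040) (.lg 2 true 3 83 83 7 12630 2520)) (.nx 448 104033 (.nx 384
  18819 (.lg 1 false 13 101 107 16 98896 720720) (.nx 397 27236 (.lg 1 false 13 101 107 16 68332
  720720) (.nx 423 57052 (.nx 410 39420 (.lg 1 false 13 101 107 16 47214 720720) (.lg 1 false 13
  101 107 16 32621 720720)) (.nx 436 82572 (.lg 1 true 13 101 107 16 22540 720720) (.nr 447 110219
  (.lg 1 true 11 97 103 16 13098 720720) .out))))) (.nr 456 65537 (.lg 2 false 8 101 107 16 6319
  720720) .out))) .out)) (.nr 494 129 (.nx 471 1664512 (.lg 0 true 13 83 83 16 0 32760) (.nr 493 13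
  (.lg 0 true 22 83 83 7 0 55440) .out)) .out)) .out)))) .out) .out) (.na 677 5 (.nx 676 13316087
  (.nr 675 1246976 (.nx 501 141 (.nx 500 140 (.nr 499 41 (.lg 0 true 1 37 37 9 0 5040) (.l1 .sk))
  (.l1 .sk)) (.nx 612 416129 (.nx 530 18785 (.nr 514 110219 (.lg 0 false 13 101 103 13 0 65520)
  (.nx 529 1627 (.nr 517 155873 (.lg 0 false 3 89 89 9 0 5040) (.nx 528 257 (.lg 0 false 11 83 83
  13 0 55440) .out)) .out)) (.nr 611 131073 (.nr 546 2909 (.nr 543 729 (.lg 0 true 13 89 89 13 0
  65520) (.lg 2 true 3 89 89 9 39958 5040)) (.nr 549 5810 (.lg 2 true 3 83 83 9 10014 5040) (.nx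
  561 26007 (.nr 560 110219 (.lg 1 false 11 89 101 13 57576 55440) .out) (.nx 587 104033 (.nx 574
  52015 (.lg 1 false 13 101 107 13 49445 720720) (.lg 1 true 13 101 107 13 24722 720720)) (.nr 610
  92683 (.nx 598 131073 (.lg 1 true 11 89 101 13 8745 55440) (.nr 609 55110 (.lg 2 false 11 89 101
  13 5014 55440) .out)) .out))))) .out)) (.nr 674 183 (.nx 625 1664512 (.lg 0 true 13 83 89 13 0
  65520) (.nr 673 21 (.nx 647 6658044 (.lg 0 true 22 79 79 11 0 55440) (.lg 0 true 26 83 83 11 0
  65520)) .out)) .out))) .out) .out) (.nx 819 13316087 (.nr 818 1482912 (.nx 680 141 (.nx 679 140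
  (.nr 678 49 (.lg 0 true 1 31 31 9 0 2520) (.l1 .sk)) (.l1 .sk)) (.nx 776 660563 (.nx 707 20642
  (.nr 693 110219 (.lg 0 false 13 97 97 16 0 32760) (.nx 706 257 (.lg 0 false 13 73 73 16 0 32760)
  .out)) (.nr 775 155873 (.nr 720 956 (.lg 0 true 13 83 83 16 0 32760) (.nx 732 41285 (.nr 731
  131073 (.lg 1 false 11 97 101 16 62297 55440) .out) (.nx 743 82572 (.lg 1 true 11 97 101 16 37034
  55440) (.nr 774 131073 (.nx 754 131073 (.lg 1 true 11 89 97 16 15574 55440) (.nr 773 46342 (.nr
  765 8843 (.lg 2 true 11 83 89 16 48368 27720) (.lg 2 false 8 83 83 13 5229 5040)) .out)) .out))))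
  .out)) (.nr 817 217 (.nx 789 1664512 (.lg 0 true 13 73 73 16 0 32760) (.nr 816 24 (.lg 0 true 27
  71 71 11 0 2520) .out)) .out))) .out) .out)))) (.na 917 8 (.na 821 7 .ne (.nx 916 13316087 (.nr
  915 262145 (.nx 824 141 (.nx 823 140 (.nr 822 67 (.lg 0 true 1 31 31 9 0 2520) (.l1 .sk)) (.l1
  .sk)) (.nx 844 26007 (.nr 835 110219 (.lg 0 false 11 89 97 16 0 27720) (.nx 843 1627 (.lg 0 false
  8 79 79 13 0 5040) .out)) (.nr 914 131073 (.nr 888 626 (.nx 860 1664512 (.lg 0 true 16 83 83 16 0
  5040) (.nr 887 47 (.lg 0 true 27 73 73 11 0 2520) .out)) (.nx 913 524289 (.nx 899 52015 (.lg 1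
  false 11 89 97 16 49445 55440) (.nr 902 2630 (.lg 2 false 3 79 79 11 58627 2520) (.lg 2 false 11
  97 97 16 24722 27720))) .out)) .out))) .out) .out)) (.na 918 9 .ne (.na 998 10 (.nx 997 13316087
  (.nr 996 623489 (.nx 920 140 (.nr 919 83 (.lg 0 true 1 29 29 7 0 2520) (.l1 .sk)) (.nx 921 141
  (.l1 .sk) (.nr 987 131073 (.nx 960 1664512 (.nx 934 30928 (.lg 0 false 13 89 97 16 0 32760) (.nr
  945 745 (.lg 0 true 11 83 83 16 0 27720) (.nx 959 524289 (.nr 946 1527 (.lg 2 false 1 83 83 7
  49263 2520) (.lg 2 false 13 101 107 16 41578 720720)) .out))) (.nr 986 65 (.lg 0 true 26 83 83 16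
  0 65520) .out)) (.nx 995 1627 (.lg 0 false 8 83 89 16 0 5040) .out)))) .out) .out) .ne))))

def T98_2 : Ph :=
  (.na 529 130 (.na 393 50 (.na 315 12 (.na 141 4 (.na 1 2 .ne (.na 140 3 (.nx 139 3329023 (.nr 138
  623489 (.nx 4 101 (.nx 3 100 (.nr 2 19 (.lg 0 true 1 31 31 5 0 240) (.l1 .sk)) (.l1 .sk)) (.nr
  124 77937 (.nr 120 65537 (.nx 101 1321124 (.nx 25 9555 (.lg 0 false 21 89 97 11 0 5040) (.nr 58
  257 (.lg 0 true 33 83 83 13 0 7920) (.nx 100 165142 (.nr 67 1100 (.lg 2 true 9 79 79 9 32129 720)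
  (.nx 80 20644 (.lg 1 false 13 101 103 9 34349 720720) (.nr 99 46342 (.nr 89 32769 (.lg 2 false 9
  97 97 9 7962 5040) (.nx 98 41287 (.lg 2 false 9 89 97 9 11249 5040) .out)) .out))) .out))) (.nr
  119 9 (.lg 0 true 18 71 71 9 0 720) .out)) (.nx 123 1292 (.lg 0 true 3 83 83 7 0 720) .out)) (.nx
  137 205 (.lg 0 false 13 79 79 9 0 3120) .out))) .out) .out) .ne)) (.na 261 5 (.nx 260 10568985
  (.nr 259 1246976 (.nx 225 1321124 (.nx 213 330282 (.nx 173 10321 (.nx 143 100 (.nr 142 35 (.lg 0
  true 1 29 29 9 0 240) (.l1 .sk)) (.nx 144 101 (.l1 .sk) (.nr 163 155873 (.nr 155 55110 (.lg 0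
  false 11 83 89 13 0 2640) (.nx 162 1292 (.lg 0 false 7 83 89 11 0 1680) .out)) (.nx 172 205 (.lg
  0 false 9 79 79 13 0 720) .out)))) (.nr 212 65537 (.nr 184 694 (.lg 0 true 11 79 79 13 0 2640)
  (.nr 188 2635 (.lg 2 true 4 79 83 11 23796 240) (.nx 202 41287 (.nx 195 20642 (.lg 1 false 7 89
  97 11 31800 1680) (.lg 1 true 7 101 103 11 15900 720720)) (.nr 211 55110 (.lg 2 false 9 83 97 13
  6687 720) .out)))) .out)) (.nr 224 183 (.lg 0 true 11 79 79 13 0 2640) .out)) (.nr 258 21 (.lg 0
  true 33 79 79 11 0 7920) .out)) .out) .out) (.na 262 10 .ne (.nx 314 1321124 (.nr 313 623489 (.nr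
  263 1 .s1 (.nx 266 101 (.nx 265 100 (.nr 264 85 (.l1 (.ls 17 37 1002)) (.l1 .sk)) (.l1 .sk)) (.nx
  267 324 (.l1 (.ls 79 47 9480)) (.nr 312 220437 (.nr 308 77937 (.nr 300 46342 (.nx 292 330282 (.nr
  270 766 (.lg 0 false 3 79 79 11 0 720) (.nx 291 165142 (.nr 280 13461 (.nx 273 6503 (.lg 0 true 3
  71 71 11 0 720) (.lg 2 true 7 61 61 13 10780 1680)) (.lg 0 true 11 89 89 13 0 2640)) .out)) (.nr
  299 65 (.lg 0 true 7 61 61 13 0 1680) .out)) (.nx 307 26009 (.lg 0 false 7 83 83 13 0 5040)
  .out)) (.nx 311 814 (.lg 0 true 3 71 71 11 0 720) .out)) .out)))) .out) .out)))) (.na 345 26 (.na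
  316 20 .ne (.na 344 23 (.nx 343 1321124 (.nr 342 1048577 (.nr 317 18 .s1 (.nx 320 101 (.nx 319
  100 (.nr 318 163 (.l1 (.ls 19 31 502)) (.l1 .sk)) (.l1 .sk)) (.nx 331 16385 (.nx 321 324 (.l1
  (.ls 79 43 4741)) (.nr 330 220437 (.nr 328 131073 (.lg 0 false 7 79 83 19 0 1680) (.nx 329 814
  (.lg 0 true 1 71 71 13 0 240) .out)) .out)) (.nr 341 46342 (.nr 338 498 (.lg 0 true 7 73 73 19 0
  1680) (.nx 340 165142 (.lg 2 true 2 83 83 13 16581 240) .out)) .out)))) .out) .out) .ne)) (.na
  371 34 (.na 370 32 (.nx 369 1321124 (.nr 368 1048577 (.nr 346 25 .s1 (.nx 347 205 (.l1 (.ls 83 41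
  1619)) (.nr 367 185365 (.nr 360 32769 (.nx 353 82572 (.lg 0 false 6 79 79 19 0 9360) (.nr 359 513
  (.lg 0 true 6 73 73 19 0 9360) .out)) (.nx 366 26009 (.nx 363 10323 (.lg 0 false 3 89 89 11 0
  9360) (.nr 365 55110 (.lg 0 false 2 79 79 11 0 3120) .out)) .out)) .out))) .out) .out) .ne) (.na
  392 46 (.nx 391 1321124 (.nr 390 370729 (.nr 372 33 .s1 (.nx 374 100 (.nr 373 326 (.l1 (.ls 16 31
  297)) (.l1 .sk)) (.nx 375 101 (.l1 .sk) (.nx 382 13005 (.lg 0 false 7 83 89 23 0 1680) (.nr 389
  23172 (.nr 386 217 (.lg 0 true 4 67 67 13 0 240) (.nx 388 82572 (.lg 2 true 2 73 73 13 19026 240)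
  .out)) .out))))) .out) .out) .ne)))) (.na 467 82 (.na 437 64 (.na 407 52 (.nx 406 1321124 (.nr
  405 311745 (.nr 394 49 .s1 (.nx 397 101 (.nx 396 100 (.nr 395 369 (.l1 (.ls 23 29 202)) (.l1
  .sk)) (.l1 .sk)) (.nx 400 10323 (.lg 0 false 3 79 83 23 0 720) (.nr 404 23172 (.nr 402 369 (.lg 0
  true 2 67 67 23 0 240) (.nx 403 82572 (.lg 2 false 1 71 71 19 11273 240) .out)) .out)))) .out)
  .out) (.na 422 58 (.nx 421 1321124 (.nr 420 311745 (.nr 408 52 .s1 (.nx 410 100 (.nr 409 412 (.l1
  (.ls 23 29 195)) (.l1 .sk)) (.nx 411 101 (.l1 .sk) (.nx 414 10323 (.lg 0 false 3 83 83 23 0 9360)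
  (.nr 419 23172 (.nr 417 412 (.lg 0 true 3 71 71 23 0 9360) (.nx 418 82572 (.lg 2 true 1 73 73 19
  11273 3120) .out)) .out))))) .out) .out) (.nx 436 1321124 (.nr 435 311745 (.nr 423 58 .s1 (.nx
  429 10323 (.nx 425 100 (.nr 424 454 (.l1 (.ls 17 23 175)) (.l1 .sk)) (.nx 426 101 (.l1 .sk) (.lg
  0 false 3 83 83 19 0 720))) (.nr 434 23172 (.nr 432 454 (.lg 0 true 3 67 67 19 0 720) (.nx 433
  82572 (.lg 2 true 1 71 71 13 11273 240) .out)) .out))) .out) .out))) (.na 438 68 .ne (.na 452 74
  (.nx 451 1321124 (.nr 450 524289 (.nr 439 68 .s1 (.nx 442 101 (.nx 441 100 (.nr 440 525 (.l1 (.ls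
  16 29 150)) (.l1 .sk)) (.l1 .sk)) (.nx 445 8193 (.lg 0 false 3 83 89 29 0 720) (.nr 449 8193 (.nr
  447 513 (.lg 0 true 2 71 71 23 0 240) (.nx 448 82572 (.lg 2 false 1 67 67 13 8048 240) .out))
  .out)))) .out) .out) (.nx 466 1321124 (.nr 465 524289 (.nr 453 74 .s1 (.nx 459 8193 (.nx 455 100
  (.nr 454 582 (.l1 (.ls 16 23 138)) (.l1 .sk)) (.nx 456 101 (.l1 .sk) (.lg 0 false 3 79 79 19 0
  720))) (.nr 464 8193 (.nr 462 582 (.lg 0 true 3 67 67 19 0 720) (.nx 463 82572 (.lg 2 true 1 59
  59 13 7094 240) .out)) .out))) .out) .out)))) (.na 494 106 (.na 482 91 (.nx 481 1321124 (.nr 480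
  524289 (.nr 468 82 .s1 (.nx 474 8193 (.nx 470 100 (.nr 469 646 (.l1 (.ls 17 19 124)) (.l1 .sk))
  (.nx 471 101 (.l1 .sk) (.lg 0 false 3 79 79 19 0 720))) (.nr 479 8193 (.nr 477 646 (.lg 0 true 3
  67 67 19 0 720) (.nx 478 82572 (.lg 2 true 1 59 59 13 6392 240) .out)) .out))) .out) .out) (.na
  483 100 .ne (.nx 493 1321124 (.nr 492 524289 (.nr 484 100 .s1 (.nx 486 100 (.nr 485 752 (.l1 (.ls
  31 23 102)) (.l1 .sk)) (.nx 487 101 (.l1 .sk) (.nx 490 82572 (.nx 488 8193 (.lg 0 false 1 89 89
  29 0 720) (.nr 489 8193 (.lg 0 true 1 79 79 29 0 720) .out)) (.nr 491 513 (.lg 0 true 1 73 73 29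
  0 240) .out))))) .out) .out))) (.na 517 122 (.na 506 116 (.nx 505 1321124 (.nr 504 524289 (.nr
  495 106 .s1 (.nx 497 100 (.nr 496 823 (.l1 (.ls 16 19 97)) (.l1 .sk)) (.nx 498 101 (.l1 .sk) (.nx
  499 8193 (.lg 0 true 1 79 79 19 0 240) (.nr 503 8193 (.nr 501 513 (.lg 0 true 2 59 59 19 0 240)
  (.nx 502 82572 (.lg 2 true 1 53 53 19 8048 240) .out)) .out))))) .out) .out) (.nx 516 1321124
  (.nr 515 524289 (.nr 507 116 .s1 (.nx 511 8193 (.nx 509 100 (.nr 508 865 (.l1 (.ls 19 19 89))
  (.l1 .sk)) (.nx 510 101 (.l1 .sk) (.lg 0 true 1 83 83 19 0 720))) (.nr 514 8193 (.nr 512 513 (.lg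
  2 true 1 61 61 19 569450 240) (.nx 513 82572 (.lg 2 true 1 59 59 19 8048 240) .out)) .out)))
  .out) .out)) (.na 528 128 (.nx 527 1321124 (.nr 526 524289 (.nr 518 122 .s1 (.nx 522 8193 (.nx
  520 100 (.nr 519 908 (.l1 (.ls 16 19 84)) (.l1 .sk)) (.nx 521 101 (.l1 .sk) (.lg 0 true 1 79 79
  19 0 240))) (.nr 525 8193 (.nr 523 513 (.lg 2 false 1 61 61 19 541445 240) (.nx 524 82572 (.lg 2
  false 1 47 47 19 8048 240) .out)) .out))) .out) .out) .ne))))) (.na 635 256 (.na 579 194 (.na 555
  164 (.na 537 146 (.nx 536 660563 (.nr 535 1048577 (.nr 530 130 .s1 (.nx 531 205 (.l1 (.ls 67 37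
  326)) (.nr 534 524289 (.nr 532 8193 (.lg 0 false 1 79 79 29 0 3120) (.nx 533 6503 (.lg 0 true 1
  73 73 29 0 3120) .out)) .out))) .out) .out) (.na 545 148 (.nx 544 660563 (.nr 543 1048577 (.nr
  538 146 .s1 (.nx 539 205 (.l1 (.ls 61 29 290)) (.nr 542 524289 (.nr 540 8193 (.lg 0 false 1 79 79
  19 0 240) (.nx 541 6503 (.lg 0 true 1 73 73 19 0 240) .out)) .out))) .out) .out) (.nx 554 660563
  (.nr 553 1048577 (.nr 546 148 .s1 (.nx 549 6503 (.nx 547 205 (.l1 (.ls 71 29 286)) (.nr 548
  524289 (.lg 0 false 1 73 73 23 0 240) .out)) (.nr 552 8193 (.nr 550 1025 (.lg 0 true 1 67 67 23 0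
  240) (.nx 551 82572 (.lg 2 false 1 53 53 23 6377 240) .out)) .out))) .out) .out))) (.na 563 170
  (.nx 562 660563 (.nr 561 1048577 (.nr 556 164 .s1 (.nx 557 205 (.l1 (.ls 71 29 259)) (.nr 560
  524289 (.nr 558 8193 (.lg 0 true 1 79 79 23 0 240) (.nx 559 6503 (.lg 0 false 1 73 73 23 0 240)
  .out)) .out))) .out) .out) (.na 571 178 (.nx 570 660563 (.nr 569 1048577 (.nr 564 170 .s1 (.nx
  565 205 (.l1 (.ls 67 31 250)) (.nr 568 524289 (.nr 566 8193 (.lg 0 false 1 79 79 29 0 720) (.nx
  567 6503 (.lg 0 true 1 73 73 29 0 720) .out)) .out))) .out) .out) (.nx 578 660563 (.nr 577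
  1048577 (.nr 572 178 .s1 (.nx 573 205 (.l1 (.ls 61 29 239)) (.nr 576 524289 (.nr 574 8193 (.lg 0
  false 1 73 73 19 0 240) (.nx 575 6503 (.lg 0 true 1 71 71 19 0 240) .out)) .out))) .out) .out))))
  (.na 603 218 (.na 587 202 (.nx 586 660563 (.nr 585 1048577 (.nr 580 194 .s1 (.nx 583 6503 (.nx
  581 205 (.l1 (.ls 61 23 219)) (.nr 582 524289 (.lg 0 true 1 71 71 19 0 240) .out)) (.nr 584 8193
  (.lg 0 false 1 71 71 19 0 240) .out))) .out) .out) (.na 595 212 (.nx 594 660563 (.nr 593 1048577
  (.nr 588 202 .s1 (.nx 589 205 (.l1 (.ls 59 23 211)) (.nr 592 524289 (.nr 590 8193 (.lg 0 false 1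
  71 71 23 0 240) (.nx 591 6503 (.lg 0 true 1 67 67 23 0 240) .out)) .out))) .out) .out) (.nx 602
  660563 (.nr 601 1048577 (.nr 596 212 .s1 (.nx 597 205 (.l1 (.ls 47 23 201)) (.nr 600 524289 (.nr
  598 8193 (.lg 0 true 1 73 73 23 0 240) (.nx 599 6503 (.lg 0 false 1 73 73 23 0 240) .out))
  .out))) .out) .out))) (.na 619 244 (.na 611 226 (.nx 610 660563 (.nr 609 1048577 (.nr 604 218 .s1
  (.nx 605 205 (.l1 (.ls 59 23 195)) (.nr 608 524289 (.nr 606 8193 (.lg 0 false 1 71 71 23 0 240)
  (.nx 607 6503 (.lg 0 true 1 67 67 23 0 240) .out)) .out))) .out) .out) (.nx 618 660563 (.nr 617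
  1048577 (.nr 612 226 .s1 (.nx 613 205 (.l1 (.ls 61 23 188)) (.nr 616 524289 (.nr 614 8193 (.lg 0
  false 1 71 71 23 0 240) (.nx 615 6503 (.lg 0 true 1 67 67 23 0 240) .out)) .out))) .out) .out))
  (.na 627 250 (.nx 626 660563 (.nr 625 1048577 (.nr 620 244 .s1 (.nx 621 205 (.l1 (.ls 59 23 175))
  (.nr 624 524289 (.nr 622 8193 (.lg 0 true 1 73 73 23 0 240) (.nx 623 6503 (.lg 0 false 1 73 73 23
  0 240) .out)) .out))) .out) .out) (.nx 634 660563 (.nr 633 1048577 (.nr 628 250 .s1 (.nx 631 6503
  (.nx 629 205 (.l1 (.ls 71 29 171)) (.nr 630 524289 (.lg 0 false 1 73 73 29 0 240) .out)) (.nr 632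
  8193 (.lg 0 true 1 73 73 31 0 240) .out))) .out) .out))))) (.na 3865 2897 (.na 1580 725 (.na 636
  257 .ne (.na 1150 512 (.nx 1149 82572 (.nr 1148 1048577 (.nr 637 257 .s1 (.nx 892 647 (.la (.ls
  79 29 1631)) (.nr 1147 262145 (.la (.lg 0 false 1 73 73 23 0)) .out))) .out) .out) (.nx 1579
  82572 (.nr 1578 1048577 (.nr 1151 512 .s1 (.nx 1364 647 (.la (.ls 71 29 820)) (.nr 1577 262145
  (.la (.lg 0 false 1 71 71 29 0)) .out))) .out) .out))) (.na 2310 1449 (.na 1882 1024 (.nx 1881
  3252 (.nr 1880 262145 (.nr 1581 725 .s1 (.la (.ls 53 43 14589))) .out) .out) (.nx 2309 3252 (.nr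
  2308 262145 (.nr 1883 1024 .s1 (.la (.ls 59 41 10330))) .out) .out)) (.na 2912 2048 (.nx 2911
  1627 (.nr 2910 131073 (.nr 2311 1449 .s1 (.la (.ls 47 31 1829))) .out) .out) (.nx 3864 1627 (.nr
  3863 131073 (.nr 2913 2048 .s1 (.nx 3013 100 (.nr 3012 20537 (.lx (.lp 16 0 725)) (.l1 .sk)) (.nx
  3014 101 (.l1 .sk) (.la (.ls 47 31 1290))))) .out) .out)))) (.na 5813 16384 (.na 4514 4096 (.nx
  4513 647 (.nr 4512 65537 (.nr 3866 2897 .s1 (.lx (.lp 47 31 1025))) .out) .out) (.na 5164 8192
  (.nx 5163 647 (.nr 5162 65537 (.nr 4515 4096 .s1 (.nx 4677 163 (.lx (.lp 16 0 2049)) (.nr 5161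
  32769 (.lx (.lp 41 37 2049)) .out))) .out) .out) (.nx 5812 647 (.nr 5811 65537 (.nr 5165 8192 .s1
  (.lx (.lp 41 41 4097))) .out) .out))) (.na 6788 65536 (.na 6462 32768 (.nx 6461 647 (.nr 6460
  131073 (.nr 5814 16384 .s1 (.lx (.lp 37 43 8193))) .out) .out) (.nx 6787 324 (.nr 6786 131073
  (.nr 6463 32768 .s1 (.lx (.lp 41 43 16385))) .out) .out)) (.na 7114 131073 (.nx 7113 324 (.nr
  7112 262145 (.nr 6789 65536 .s1 (.lx (.lp 16 0 32769))) .out) .out) .out))))))

theorem c98 :
    OkQ ckI L6 71 1 10 0 34359738368 1 1099511627776 ∧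
    OkQ ckI L8 140 1 11 0 34359738368 1 1099511627776 ∧
    OkQ ckI L6 100 1 1099511627776 0 34359738368 1 1099511627776 := by
  refine ⟨?_, ?_, ?_⟩
  · refine fin 5112 829 T98_0 ?_
    refine jn 5 (by decide +kernel) ?_
    refine jn 8 (by decide +kernel) ?_
    refine jn 9 (by decide +kernel) ?_
    refine jn 12 (by decide +kernel) ?_
    refine jn 14 (by decide +kernel) ?_
    refine jn 16 (by decide +kernel) ?_
    refine jn 18 (by decide +kernel) ?_
    refine jn 19 (by decide +kernel) ?_
    refine jn 22 (by decide +kernel) ?_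
    refine jn 23 (by decide +kernel) ?_
    refine jn 26 (by decide +kernel) ?_
    refine jn 28 (by decide +kernel) ?_
    refine jn 30 (by decide +kernel) ?_
    refine jn 44 (by decide +kernel) ?_
    refine jn 50 (by decide +kernel) ?_
    refine jn 54 (by decide +kernel) ?_
    refine jn 58 (by decide +kernel) ?_
    refine jn 62 (by decide +kernel) ?_
    refine jn 66 (by decide +kernel) ?_
    refine jn 70 (by decide +kernel) ?_
    refine jn 74 (by decide +kernel) ?_
    refine jn 78 (by decide +kernel) ?_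
    refine jn 83 (by decide +kernel) ?_
    refine jn 88 (by decide +kernel) ?_
    refine jn 89 (by decide +kernel) ?_
    refine jn 100 (by decide +kernel) ?_
    refine jn 114 (by decide +kernel) ?_
    refine jn 128 (by decide +kernel) ?_
    refine jn 154 (by decide +kernel) ?_
    refine jn 178 (by decide +kernel) ?_
    refine jn 191 (by decide +kernel) ?_
    refine jn 202 (by decide +kernel) ?_
    refine jn 205 (by decide +kernel) ?_
    refine jn 207 (by decide +kernel) ?_
    refine jn 212 (by decide +kernel) ?_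
    refine jn 214 (by decide +kernel) ?_
    refine jn 219 (by decide +kernel) ?_
    refine jn 227 (by decide +kernel) ?_
    refine jn 235 (by decide +kernel) ?_
    refine jn 243 (by decide +kernel) ?_
    refine jn 250 (by decide +kernel) ?_
    refine jn 259 (by decide +kernel) ?_
    refine jn 281 (by decide +kernel) ?_
    refine jn 295 (by decide +kernel) ?_
    refine jn 302 (by decide +kernel) ?_
    refine jn 313 (by decide +kernel) ?_
    refine jn 335 (by decide +kernel) ?_
    refine jn 336 (by decide +kernel) ?_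
    refine jn 337 (by decide +kernel) ?_
    refine jn 338 (by decide +kernel) ?_
    refine jn 339 (by decide +kernel) ?_
    refine jn 340 (by decide +kernel) ?_
    refine jn 341 (by decide +kernel) ?_
    refine jn 342 (by decide +kernel) ?_
    refine jn 343 (by decide +kernel) ?_
    refine jn 344 (by decide +kernel) ?_
    refine jn 345 (by decide +kernel) ?_
    refine jn 346 (by decide +kernel) ?_
    refine jn 347 (by decide +kernel) ?_
    refine jn 348 (by decide +kernel) ?_
    refine jn 359 (by decide +kernel) ?_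
    refine jn 366 (by decide +kernel) ?_
    refine jn 367 (by decide +kernel) ?_
    refine jn 368 (by decide +kernel) ?_
    refine jn 369 (by decide +kernel) ?_
    refine jn 370 (by decide +kernel) ?_
    refine jn 371 (by decide +kernel) ?_
    refine jn 372 (by decide +kernel) ?_
    refine jn 373 (by decide +kernel) ?_
    refine jn 374 (by decide +kernel) ?_
    refine jn 375 (by decide +kernel) ?_
    refine jn 376 (by decide +kernel) ?_
    refine jn 377 (by decide +kernel) ?_
    refine jn 378 (by decide +kernel) ?_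
    refine jn 379 (by decide +kernel) ?_
    refine jn 382 (by decide +kernel) ?_
    refine jn 383 (by decide +kernel) ?_
    refine jn 390 (by decide +kernel) ?_
    refine jn 398 (by decide +kernel) ?_
    refine jn 402 (by decide +kernel) ?_
    refine jn 406 (by decide +kernel) ?_
    refine jn 414 (by decide +kernel) ?_
    refine jn 420 (by decide +kernel) ?_
    refine jn 447 (by decide +kernel) ?_
    refine jn 453 (by decide +kernel) ?_
    refine jn 454 (by decide +kernel) ?_
    refine jn 455 (by decide +kernel) ?_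
    refine jn 456 (by decide +kernel) ?_
    refine jn 457 (by decide +kernel) ?_
    refine jn 458 (by decide +kernel) ?_
    refine jn 459 (by decide +kernel) ?_
    refine jn 460 (by decide +kernel) ?_
    refine jn 461 (by decide +kernel) ?_
    refine jn 462 (by decide +kernel) ?_
    refine jn 463 (by decide +kernel) ?_
    refine jn 464 (by decide +kernel) ?_
    refine jn 482 (by decide +kernel) ?_
    refine jn 486 (by decide +kernel) ?_
    refine jn 487 (by decide +kernel) ?_
    refine jn 489 (by decide +kernel) ?_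
    refine jn 491 (by decide +kernel) ?_
    refine jn 492 (by decide +kernel) ?_
    refine jn 493 (by decide +kernel) ?_
    refine jn 495 (by decide +kernel) ?_
    refine jn 502 (by decide +kernel) ?_
    refine jn 505 (by decide +kernel) ?_
    refine jn 513 (by decide +kernel) ?_
    refine jn 516 (by decide +kernel) ?_
    refine jn 520 (by decide +kernel) ?_
    refine jn 555 (by decide +kernel) ?_
    refine jn 566 (by decide +kernel) ?_
    refine jn 574 (by decide +kernel) ?_
    refine jn 575 (by decide +kernel) ?_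
    refine jn 576 (by decide +kernel) ?_
    refine jn 577 (by decide +kernel) ?_
    refine jn 578 (by decide +kernel) ?_
    refine jn 579 (by decide +kernel) ?_
    refine jn 580 (by decide +kernel) ?_
    refine jn 581 (by decide +kernel) ?_
    refine jn 582 (by decide +kernel) ?_
    refine jn 583 (by decide +kernel) ?_
    refine jn 584 (by decide +kernel) ?_
    refine jn 585 (by decide +kernel) ?_
    refine jn 586 (by decide +kernel) ?_
    refine jn 587 (by decide +kernel) ?_
    refine jn 588 (by decide +kernel) ?_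
    refine jn 592 (by decide +kernel) ?_
    refine jn 598 (by decide +kernel) ?_
    refine jn 602 (by decide +kernel) ?_
    refine jn 608 (by decide +kernel) ?_
    refine jn 612 (by decide +kernel) ?_
    refine jn 640 (by decide +kernel) ?_
    refine jn 653 (by decide +kernel) ?_
    refine jn 655 (by decide +kernel) ?_
    refine jn 656 (by decide +kernel) ?_
    refine jn 657 (by decide +kernel) ?_
    refine jn 658 (by decide +kernel) ?_
    refine jn 659 (by decide +kernel) ?_
    refine jn 660 (by decide +kernel) ?_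
    refine jn 661 (by decide +kernel) ?_
    refine jn 662 (by decide +kernel) ?_
    refine jn 665 (by decide +kernel) ?_
    refine jn 667 (by decide +kernel) ?_
    refine jn 669 (by decide +kernel) ?_
    refine jn 672 (by decide +kernel) ?_
    refine jn 673 (by decide +kernel) ?_
    refine jn 676 (by decide +kernel) ?_
    refine jn 683 (by decide +kernel) ?_
    refine jn 692 (by decide +kernel) ?_
    refine jn 699 (by decide +kernel) ?_
    refine jn 706 (by decide +kernel) ?_
    refine jn 707 (by decide +kernel) ?_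
    refine jn 708 (by decide +kernel) ?_
    refine jn 709 (by decide +kernel) ?_
    refine jn 710 (by decide +kernel) ?_
    refine jn 711 (by decide +kernel) ?_
    refine jn 712 (by decide +kernel) ?_
    refine jn 713 (by decide +kernel) ?_
    refine jn 717 (by decide +kernel) ?_
    refine jn 718 (by decide +kernel) ?_
    refine jn 719 (by decide +kernel) ?_
    refine jn 720 (by decide +kernel) ?_
    refine jn 721 (by decide +kernel) ?_
    refine jn 722 (by decide +kernel) ?_
    refine jn 723 (by decide +kernel) ?_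
    refine jn 724 (by decide +kernel) ?_
    refine jn 725 (by decide +kernel) ?_
    refine jn 728 (by decide +kernel) ?_
    refine jn 731 (by decide +kernel) ?_
    refine jn 733 (by decide +kernel) ?_
    refine jn 737 (by decide +kernel) ?_
    refine jn 740 (by decide +kernel) ?_
    refine jn 743 (by decide +kernel) ?_
    refine jn 758 (by decide +kernel) ?_
    refine jn 767 (by decide +kernel) ?_
    refine jn 769 (by decide +kernel) ?_
    refine jn 770 (by decide +kernel) ?_
    refine jn 772 (by decide +kernel) ?_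
    refine jn 774 (by decide +kernel) ?_
    refine jn 775 (by decide +kernel) ?_
    refine jn 778 (by decide +kernel) ?_
    refine jn 781 (by decide +kernel) ?_
    refine jn 802 (by decide +kernel) ?_
    refine jn 809 (by decide +kernel) ?_
    refine jn 816 (by decide +kernel) ?_
    exact je (by decide +kernel)
  · refine fin 2520 999 T98_1 ?_
    refine jn 7 (by decide +kernel) ?_
    refine jn 11 (by decide +kernel) ?_
    refine jn 14 (by decide +kernel) ?_
    refine jn 18 (by decide +kernel) ?_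
    refine jn 22 (by decide +kernel) ?_
    refine jn 25 (by decide +kernel) ?_
    refine jn 29 (by decide +kernel) ?_
    refine jn 32 (by decide +kernel) ?_
    refine jn 36 (by decide +kernel) ?_
    refine jn 40 (by decide +kernel) ?_
    refine jn 43 (by decide +kernel) ?_
    refine jn 47 (by decide +kernel) ?_
    refine jn 50 (by decide +kernel) ?_
    refine jn 67 (by decide +kernel) ?_
    refine jn 74 (by decide +kernel) ?_
    refine jn 80 (by decide +kernel) ?_
    refine jn 86 (by decide +kernel) ?_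
    refine jn 92 (by decide +kernel) ?_
    refine jn 98 (by decide +kernel) ?_
    refine jn 104 (by decide +kernel) ?_
    refine jn 110 (by decide +kernel) ?_
    refine jn 116 (by decide +kernel) ?_
    refine jn 138 (by decide +kernel) ?_
    refine jn 160 (by decide +kernel) ?_
    refine jn 182 (by decide +kernel) ?_
    refine jn 193 (by decide +kernel) ?_
    refine jn 212 (by decide +kernel) ?_
    refine jn 228 (by decide +kernel) ?_
    refine jn 245 (by decide +kernel) ?_
    refine jn 263 (by decide +kernel) ?_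
    refine jn 285 (by decide +kernel) ?_
    refine jn 290 (by decide +kernel) ?_
    refine jn 307 (by decide +kernel) ?_
    refine jn 314 (by decide +kernel) ?_
    refine jn 315 (by decide +kernel) ?_
    refine jn 316 (by decide +kernel) ?_
    refine jn 317 (by decide +kernel) ?_
    refine jn 318 (by decide +kernel) ?_
    refine jn 319 (by decide +kernel) ?_
    refine jn 320 (by decide +kernel) ?_
    refine jn 321 (by decide +kernel) ?_
    refine jn 322 (by decide +kernel) ?_
    refine jn 323 (by decide +kernel) ?_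
    refine jn 324 (by decide +kernel) ?_
    refine jn 325 (by decide +kernel) ?_
    refine jn 326 (by decide +kernel) ?_
    refine jn 327 (by decide +kernel) ?_
    refine jn 328 (by decide +kernel) ?_
    refine jn 329 (by decide +kernel) ?_
    refine jn 343 (by decide +kernel) ?_
    refine jn 345 (by decide +kernel) ?_
    refine jn 347 (by decide +kernel) ?_
    refine jn 348 (by decide +kernel) ?_
    refine jn 349 (by decide +kernel) ?_
    refine jn 351 (by decide +kernel) ?_
    refine jn 352 (by decide +kernel) ?_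
    refine jn 354 (by decide +kernel) ?_
    refine jn 356 (by decide +kernel) ?_
    refine jn 358 (by decide +kernel) ?_
    refine jn 360 (by decide +kernel) ?_
    refine jn 366 (by decide +kernel) ?_
    refine jn 371 (by decide +kernel) ?_
    refine jn 384 (by decide +kernel) ?_
    refine jn 396 (by decide +kernel) ?_
    refine jn 404 (by decide +kernel) ?_
    refine jn 410 (by decide +kernel) ?_
    refine jn 421 (by decide +kernel) ?_
    refine jn 423 (by decide +kernel) ?_
    refine jn 435 (by decide +kernel) ?_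
    refine jn 436 (by decide +kernel) ?_
    refine jn 447 (by decide +kernel) ?_
    refine jn 456 (by decide +kernel) ?_
    refine jn 464 (by decide +kernel) ?_
    refine jn 471 (by decide +kernel) ?_
    refine jn 493 (by decide +kernel) ?_
    refine jn 501 (by decide +kernel) ?_
    refine jn 502 (by decide +kernel) ?_
    refine jn 503 (by decide +kernel) ?_
    refine jn 504 (by decide +kernel) ?_
    refine jn 505 (by decide +kernel) ?_
    refine jn 506 (by decide +kernel) ?_
    refine jn 507 (by decide +kernel) ?_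
    refine jn 508 (by decide +kernel) ?_
    refine jn 509 (by decide +kernel) ?_
    refine jn 510 (by decide +kernel) ?_
    refine jn 511 (by decide +kernel) ?_
    refine jn 512 (by decide +kernel) ?_
    refine jn 513 (by decide +kernel) ?_
    refine jn 514 (by decide +kernel) ?_
    refine jn 528 (by decide +kernel) ?_
    refine jn 532 (by decide +kernel) ?_
    refine jn 534 (by decide +kernel) ?_
    refine jn 536 (by decide +kernel) ?_
    refine jn 538 (by decide +kernel) ?_
    refine jn 540 (by decide +kernel) ?_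
    refine jn 542 (by decide +kernel) ?_
    refine jn 543 (by decide +kernel) ?_
    refine jn 546 (by decide +kernel) ?_
    refine jn 549 (by decide +kernel) ?_
    refine jn 560 (by decide +kernel) ?_
    refine jn 573 (by decide +kernel) ?_
    refine jn 583 (by decide +kernel) ?_
    refine jn 587 (by decide +kernel) ?_
    refine jn 598 (by decide +kernel) ?_
    refine jn 609 (by decide +kernel) ?_
    refine jn 619 (by decide +kernel) ?_
    refine jn 625 (by decide +kernel) ?_
    refine jn 647 (by decide +kernel) ?_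
    refine jn 673 (by decide +kernel) ?_
    refine jn 686 (by decide +kernel) ?_
    refine jn 692 (by decide +kernel) ?_
    refine jn 706 (by decide +kernel) ?_
    refine jn 718 (by decide +kernel) ?_
    refine jn 731 (by decide +kernel) ?_
    refine jn 754 (by decide +kernel) ?_
    refine jn 773 (by decide +kernel) ?_
    refine jn 816 (by decide +kernel) ?_
    refine jn 831 (by decide +kernel) ?_
    refine jn 843 (by decide +kernel) ?_
    refine jn 887 (by decide +kernel) ?_
    refine jn 902 (by decide +kernel) ?_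
    refine jn 919 (by decide +kernel) ?_
    refine jn 923 (by decide +kernel) ?_
    refine jn 925 (by decide +kernel) ?_
    refine jn 928 (by decide +kernel) ?_
    refine jn 931 (by decide +kernel) ?_
    refine jn 933 (by decide +kernel) ?_
    refine jn 937 (by decide +kernel) ?_
    refine jn 942 (by decide +kernel) ?_
    refine jn 945 (by decide +kernel) ?_
    refine jn 953 (by decide +kernel) ?_
    refine jn 959 (by decide +kernel) ?_
    refine jn 986 (by decide +kernel) ?_
    refine jn 995 (by decide +kernel) ?_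
    exact je (by decide +kernel)
  · refine fin 120 7115 T98_2 ?_
    refine jn 8 (by decide +kernel) ?_
    refine jn 12 (by decide +kernel) ?_
    refine jn 15 (by decide +kernel) ?_
    refine jn 18 (by decide +kernel) ?_
    refine jn 22 (by decide +kernel) ?_
    refine jn 28 (by decide +kernel) ?_
    refine jn 36 (by decide +kernel) ?_
    refine jn 44 (by decide +kernel) ?_
    refine jn 52 (by decide +kernel) ?_
    refine jn 58 (by decide +kernel) ?_
    refine jn 67 (by decide +kernel) ?_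
    refine jn 80 (by decide +kernel) ?_
    refine jn 98 (by decide +kernel) ?_
    refine jn 119 (by decide +kernel) ?_
    refine jn 137 (by decide +kernel) ?_
    refine jn 144 (by decide +kernel) ?_
    refine jn 145 (by decide +kernel) ?_
    refine jn 146 (by decide +kernel) ?_
    refine jn 147 (by decide +kernel) ?_
    refine jn 148 (by decide +kernel) ?_
    refine jn 149 (by decide +kernel) ?_
    refine jn 150 (by decide +kernel) ?_
    refine jn 151 (by decide +kernel) ?_
    refine jn 152 (by decide +kernel) ?_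
    refine jn 153 (by decide +kernel) ?_
    refine jn 154 (by decide +kernel) ?_
    refine jn 155 (by decide +kernel) ?_
    refine jn 172 (by decide +kernel) ?_
    refine jn 174 (by decide +kernel) ?_
    refine jn 176 (by decide +kernel) ?_
    refine jn 178 (by decide +kernel) ?_
    refine jn 179 (by decide +kernel) ?_
    refine jn 180 (by decide +kernel) ?_
    refine jn 182 (by decide +kernel) ?_
    refine jn 183 (by decide +kernel) ?_
    refine jn 184 (by decide +kernel) ?_
    refine jn 188 (by decide +kernel) ?_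
    refine jn 195 (by decide +kernel) ?_
    refine jn 202 (by decide +kernel) ?_
    refine jn 210 (by decide +kernel) ?_
    refine jn 217 (by decide +kernel) ?_
    refine jn 223 (by decide +kernel) ?_
    refine jn 258 (by decide +kernel) ?_
    refine jn 267 (by decide +kernel) ?_
    refine jn 269 (by decide +kernel) ?_
    refine jn 270 (by decide +kernel) ?_
    refine jn 273 (by decide +kernel) ?_
    refine jn 274 (by decide +kernel) ?_
    refine jn 275 (by decide +kernel) ?_
    refine jn 276 (by decide +kernel) ?_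
    refine jn 277 (by decide +kernel) ?_
    refine jn 278 (by decide +kernel) ?_
    refine jn 279 (by decide +kernel) ?_
    refine jn 280 (by decide +kernel) ?_
    refine jn 283 (by decide +kernel) ?_
    refine jn 287 (by decide +kernel) ?_
    refine jn 291 (by decide +kernel) ?_
    refine jn 307 (by decide +kernel) ?_
    refine jn 321 (by decide +kernel) ?_
    refine jn 326 (by decide +kernel) ?_
    refine jn 329 (by decide +kernel) ?_
    refine jn 338 (by decide +kernel) ?_
    refine jn 347 (by decide +kernel) ?_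
    refine jn 348 (by decide +kernel) ?_
    refine jn 349 (by decide +kernel) ?_
    refine jn 350 (by decide +kernel) ?_
    refine jn 351 (by decide +kernel) ?_
    refine jn 352 (by decide +kernel) ?_
    refine jn 353 (by decide +kernel) ?_
    refine jn 359 (by decide +kernel) ?_
    refine jn 375 (by decide +kernel) ?_
    refine jn 382 (by decide +kernel) ?_
    refine jn 388 (by decide +kernel) ?_
    refine jn 397 (by decide +kernel) ?_
    refine jn 398 (by decide +kernel) ?_
    refine jn 399 (by decide +kernel) ?_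
    refine jn 400 (by decide +kernel) ?_
    refine jn 401 (by decide +kernel) ?_
    refine jn 402 (by decide +kernel) ?_
    refine jn 403 (by decide +kernel) ?_
    refine jn 412 (by decide +kernel) ?_
    refine jn 414 (by decide +kernel) ?_
    refine jn 416 (by decide +kernel) ?_
    refine jn 418 (by decide +kernel) ?_
    refine jn 432 (by decide +kernel) ?_
    refine jn 442 (by decide +kernel) ?_
    refine jn 445 (by decide +kernel) ?_
    refine jn 447 (by decide +kernel) ?_
    refine jn 459 (by decide +kernel) ?_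
    refine jn 474 (by decide +kernel) ?_
    refine jn 484 (by decide +kernel) ?_
    refine jn 487 (by decide +kernel) ?_
    refine jn 488 (by decide +kernel) ?_
    refine jn 489 (by decide +kernel) ?_
    refine jn 491 (by decide +kernel) ?_
    refine jn 502 (by decide +kernel) ?_
    refine jn 511 (by decide +kernel) ?_
    refine jn 513 (by decide +kernel) ?_
    refine jn 530 (by decide +kernel) ?_
    refine jn 541 (by decide +kernel) ?_
    refine jn 550 (by decide +kernel) ?_
    refine jn 559 (by decide +kernel) ?_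
    refine jn 575 (by decide +kernel) ?_
    refine jn 591 (by decide +kernel) ?_
    refine jn 599 (by decide +kernel) ?_
    refine jn 615 (by decide +kernel) ?_
    refine jn 628 (by decide +kernel) ?_
    refine jn 632 (by decide +kernel) ?_
    refine jn 736 (by decide +kernel) ?_
    refine jn 832 (by decide +kernel) ?_
    refine jn 895 (by decide +kernel) ?_
    refine jn 925 (by decide +kernel) ?_
    refine jn 933 (by decide +kernel) ?_
    refine jn 975 (by decide +kernel) ?_
    refine jn 991 (by decide +kernel) ?_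
    refine jn 1021 (by decide +kernel) ?_
    refine jn 1039 (by decide +kernel) ?_
    refine jn 1071 (by decide +kernel) ?_
    refine jn 1087 (by decide +kernel) ?_
    refine jn 1117 (by decide +kernel) ?_
    refine jn 1135 (by decide +kernel) ?_
    refine jn 1136 (by decide +kernel) ?_
    refine jn 1281 (by decide +kernel) ?_
    refine jn 1382 (by decide +kernel) ?_
    refine jn 1406 (by decide +kernel) ?_
    refine jn 1432 (by decide +kernel) ?_
    refine jn 1462 (by decide +kernel) ?_
    refine jn 1486 (by decide +kernel) ?_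
    refine jn 1502 (by decide +kernel) ?_
    refine jn 1526 (by decide +kernel) ?_
    refine jn 1550 (by decide +kernel) ?_
    refine jn 1596 (by decide +kernel) ?_
    refine jn 1674 (by decide +kernel) ?_
    refine jn 1740 (by decide +kernel) ?_
    refine jn 1818 (by decide +kernel) ?_
    refine jn 1925 (by decide +kernel) ?_
    refine jn 2015 (by decide +kernel) ?_
    refine jn 2109 (by decide +kernel) ?_
    refine jn 2159 (by decide +kernel) ?_
    refine jn 2237 (by decide +kernel) ?_
    refine jn 2354 (by decide +kernel) ?_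
    refine jn 2520 (by decide +kernel) ?_
    refine jn 2664 (by decide +kernel) ?_
    refine jn 2834 (by decide +kernel) ?_
    refine jn 3098 (by decide +kernel) ?_
    refine jn 3288 (by decide +kernel) ?_
    refine jn 3466 (by decide +kernel) ?_
    refine jn 3610 (by decide +kernel) ?_
    refine jn 3822 (by decide +kernel) ?_
    refine jn 4230 (by decide +kernel) ?_
    refine jn 4421 (by decide +kernel) ?_
    refine jn 4733 (by decide +kernel) ?_
    refine jn 4944 (by decide +kernel) ?_
    refine jn 5068 (by decide +kernel) ?_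
    refine jn 5164 (by decide +kernel) ?_
    refine jn 5577 (by decide +kernel) ?_
    refine jn 5744 (by decide +kernel) ?_
    refine jn 6136 (by decide +kernel) ?_
    refine jn 6451 (by decide +kernel) ?_
    refine jn 7112 (by decide +kernel) ?_
    exact je (by decide +kernel)

end Pool.Agent.MP_2339ce_nt.NR
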