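import Pool.Agent.MP_2339ce_nt.Q2.NC.C6
import Pool.Agent.MP_2339ce_nt.Q2.NC.C7
import Pool.Agent.MP_2339ce_nt.Q2.NC.C16
import Pool.Agent.MP_2339ce_nt.Q2.NC.C24
import Pool.Agent.MP_2339ce_nt.Q2.NC.C28
import Pool.Agent.MP_2339ce_nt.Q2.NC.C30
import Pool.Agent.MP_2339ce_nt.Q2.NC.C34
import Pool.Agent.MP_2339ce_nt.Q2.NC.C35
import Pool.Agent.MP_2339ce_nt.Q2.NC.C37
import Pool.Agent.MP_2339ce_nt.Q2.NC.C44
import Pool.Agent.MP_2339ce_nt.Q2.NC.C46
import Pool.Agent.MP_2339ce_nt.Q2.NC.C52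
import Pool.Agent.MP_2339ce_nt.Q2.NC.C55
import Pool.Agent.MP_2339ce_nt.Q2.NC.C59
import Pool.Agent.MP_2339ce_nt.Q2.NC.C62
import Pool.Agent.MP_2339ce_nt.Q2.NC.C66
import Pool.Agent.MP_2339ce_nt.Q2.NC.C67
import Pool.Agent.MP_2339ce_nt.Q2.NC.C68
import Pool.Agent.MP_2339ce_nt.Q2.NC.C72
import Pool.Agent.MP_2339ce_nt.Q2.NC.C73
import Pool.Agent.MP_2339ce_nt.Q2.NC.C76
import Pool.Agent.MP_2339ce_nt.Q2.NC.C77
import Pool.Agent.MP_2339ce_nt.Q2.NC.C79
import Pool.Agent.MP_2339ce_nt.Q2.NC.C83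
import Pool.Agent.MP_2339ce_nt.Q2.NC.C85
import Pool.Agent.MP_2339ce_nt.Q2.NC.C88
import Pool.Agent.MP_2339ce_nt.Q2.NC.C92
import Pool.Agent.MP_2339ce_nt.Q2.NC.C93
import Pool.Agent.MP_2339ce_nt.Q2.NC.C97
import Pool.Agent.MP_2339ce_nt.Q2.NC.C98
import Pool.Agent.MP_2339ce_nt.Q2.NC.C101
import Pool.Agent.MP_2339ce_nt.Q2.NC.C104
import Pool.Agent.MP_2339ce_nt.Q2.NC.C105
import Pool.Agent.MP_2339ce_nt.Q2.NC.C106
import Pool.Agent.MP_2339ce_nt.Q2.NC.C107
import Pool.Agent.MP_2339ce_nt.Q2.NC.C110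
import Pool.Agent.MP_2339ce_nt.Q2.NC.C112
import Pool.Agent.MP_2339ce_nt.Q2.NC.C113
import Pool.Agent.MP_2339ce_nt.Q2.NC.C118
import Pool.Agent.MP_2339ce_nt.Q2.NC.C120
import Pool.Agent.MP_2339ce_nt.Q2.NC.C123
import Pool.Agent.MP_2339ce_nt.Q2.NC.C125
import Pool.Agent.MP_2339ce_nt.Q2.NC.C127
import Pool.Agent.MP_2339ce_nt.Q2.NC.C128
import Pool.Agent.MP_2339ce_nt.Q2.NC.C130
import Pool.Agent.MP_2339ce_nt.Q2.NC.C131
import Pool.Agent.MP_2339ce_nt.Q2.NC.C132
import Pool.Agent.MP_2339ce_nt.Q2.NC.C133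
import Pool.Agent.MP_2339ce_nt.Q2.NC.C136
import Pool.Agent.MP_2339ce_nt.Q2.NC.C137
import Pool.Agent.MP_2339ce_nt.Q2.NC.C138
import Pool.Agent.MP_2339ce_nt.Q2.NC.C139
import Pool.Agent.MP_2339ce_nt.Q2.NC.C140
import Pool.Agent.MP_2339ce_nt.Q2.NC.C142
import Pool.Agent.MP_2339ce_nt.Q2.NC.C143
import Pool.Agent.MP_2339ce_nt.Q2.NC.C144

/-! Block NR: the runs for `65 ≤ N ≤ 127`. -/

set_option autoImplicit false
set_option maxRecDepth 100000

noncomputable section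

namespace Pool.Agent.MP_2339ce_nt.NR

open Q2.Top

theorem q65 : OkQ ckI L6 65 1 1099511627776 0 34359738368 1 1099511627776 :=
  qa 22 c137.2.1 (c113.2.2)

theorem q67 : OkQ ckI L6 67 1 1099511627776 0 34359738368 1 1099511627776 :=
  c34.2.2

theorem q68 : OkQ ckI L6 68 1 1099511627776 0 34359738368 1 1099511627776 :=
  c88.1

theorem q69 : OkQ ckI L6 69 1 1099511627776 0 34359738368 1 1099511627776 :=
  c101.2.1

theorem q71 : OkQ ckI L6 71 1 1099511627776 0 34359738368 1 1099511627776 :=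
  qa 10 c98.1 (qa 80 c128.2.1 (c133.1))

theorem q72 : OkQ ckI L6 72 1 1099511627776 0 34359738368 1 1099511627776 :=
  qa 12 c136.2.2 (c139.2.2)

theorem q73 : OkQ ckI L6 73 1 1099511627776 0 34359738368 1 1099511627776 :=
  c73.2.2

theorem q75 : OkQ ckI L6 75 1 1099511627776 0 34359738368 1 1099511627776 :=
  c85.2.2

theorem q76 : OkQ ckI L6 76 1 1099511627776 0 34359738368 1 1099511627776 :=
  c30.1

theorem q77 : OkQ ckI L6 77 1 1099511627776 0 34359738368 1 1099511627776 :=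
  c127.1

theorem q79 : OkQ ckI L6 79 1 1099511627776 0 34359738368 1 1099511627776 :=
  qa 26 c107.1 (c132.1)

theorem q80 : OkQ ckI L6 80 1 1099511627776 0 34359738368 1 1099511627776 :=
  qa 21 c55.2 (c62.2.1)

theorem q81 : OkQ ckI L6 81 1 1099511627776 0 34359738368 1 1099511627776 :=
  qa 16 c138.1 (c106.2.2)

theorem q83 : OkQ ckI L6 83 1 1099511627776 0 34359738368 1 1099511627776 :=
  c79.2.2

theorem q84 : OkQ ckI L6 84 1 1099511627776 0 34359738368 1 1099511627776 :=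
  c101.1

theorem q85 : OkQ ckI L6 85 1 1099511627776 0 34359738368 1 1099511627776 :=
  c143.1

theorem q87 : OkQ ckI L6 87 1 1099511627776 0 34359738368 1 1099511627776 :=
  qa 23 c67.2 (c83.2)

theorem q88 : OkQ ckI L6 88 1 1099511627776 0 34359738368 1 1099511627776 :=
  c131.1

theorem q89 : OkQ ckI L6 89 1 1099511627776 0 34359738368 1 1099511627776 :=
  qa 32 c127.2.2 (c118.2.2)

theorem q91 : OkQ ckI L6 91 1 1099511627776 0 34359738368 1 1099511627776 :=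
  c77.2.2

theorem q92 : OkQ ckI L6 92 1 1099511627776 0 34359738368 1 1099511627776 :=
  qa 26 c68.2 (c110.2.1)

theorem q93 : OkQ ckI L6 93 1 1099511627776 0 34359738368 1 1099511627776 :=
  c104.2.2

theorem q95 : OkQ ckI L6 95 1 1099511627776 0 34359738368 1 1099511627776 :=
  qa 12 c83.1 (qa 74 c112.1 (c125.1))

theorem q96 : OkQ ckI L6 96 1 1099511627776 0 34359738368 1 1099511627776 :=
  qa 21 c24.2 (c44.1)

theorem q97 : OkQ ckI L6 97 1 1099511627776 0 34359738368 1 1099511627776 :=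
  c105.2.2

theorem q99 : OkQ ckI L6 99 1 1099511627776 0 34359738368 1 1099511627776 :=
  c143.2.2.2

theorem q100 : OkQ ckI L6 100 1 1099511627776 0 34359738368 1 1099511627776 :=
  c98.2.2

theorem q101 : OkQ ckI L6 101 1 1099511627776 0 34359738368 1 1099511627776 :=
  c6.1

theorem q103 : OkQ ckI L6 103 1 1099511627776 0 34359738368 1 1099511627776 :=
  qa 23 c130.2.2 (c120.2.2)

theorem q104 : OkQ ckI L6 104 1 1099511627776 0 34359738368 1 1099511627776 :=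
  qa 21 c37.1 (c46.1)

theorem q105 : OkQ ckI L6 105 1 1099511627776 0 34359738368 1 1099511627776 :=
  c16.2

theorem q107 : OkQ ckI L6 107 1 1099511627776 0 34359738368 1 1099511627776 :=
  c72.2.2

theorem q108 : OkQ ckI L6 108 1 1099511627776 0 34359738368 1 1099511627776 :=
  c7.1

theorem q109 : OkQ ckI L6 109 1 1099511627776 0 34359738368 1 1099511627776 :=
  c144.2

theorem q111 : OkQ ckI L6 111 1 1099511627776 0 34359738368 1 1099511627776 :=
  qa 25 c16.1 (c28.1)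

theorem q112 : OkQ ckI L6 112 1 1099511627776 0 34359738368 1 1099511627776 :=
  qa 17 c139.1 (c143.2.2.1)

theorem q113 : OkQ ckI L6 113 1 1099511627776 0 34359738368 1 1099511627776 :=
  c76.1

theorem q115 : OkQ ckI L6 115 1 1099511627776 0 34359738368 1 1099511627776 :=
  c66.2.2

theorem q116 : OkQ ckI L6 116 1 1099511627776 0 34359738368 1 1099511627776 :=
  c35.1

theorem q117 : OkQ ckI L6 117 1 1099511627776 0 34359738368 1 1099511627776 :=
  c97.1

theorem q119 : OkQ ckI L6 119 1 1099511627776 0 34359738368 1 1099511627776 :=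
  qa 12 c52.2 (qa 72 c92.1 (c93.1))

theorem q120 : OkQ ckI L6 120 1 1099511627776 0 34359738368 1 1099511627776 :=
  qa 20 c125.2.2 (c140.2.1)

theorem q121 : OkQ ckI L6 121 1 1099511627776 0 34359738368 1 1099511627776 :=
  c133.2.2

theorem q123 : OkQ ckI L6 123 1 1099511627776 0 34359738368 1 1099511627776 :=
  c59.2.2

theorem q124 : OkQ ckI L6 124 1 1099511627776 0 34359738368 1 1099511627776 :=
  qa 32 c123.2.1 (c127.2.1)

theorem q125 : OkQ ckI L6 125 1 1099511627776 0 34359738368 1 1099511627776 :=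
  c30.2

theorem q127 : OkQ ckI L6 127 1 1099511627776 0 34359738368 1 1099511627776 :=
  qa 17 c112.2.2 (c142.1)

end Pool.Agent.MP_2339ce_nt.NR
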