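import Pool.Agent.MP_2339ce_nt.Q2.NC.C3
import Pool.Agent.MP_2339ce_nt.Q2.NC.C36
import Pool.Agent.MP_2339ce_nt.Q2.NC.C63

/-! Block NR: the runs for `128 ≤ N ≤ 128`. -/

set_option autoImplicit false
set_option maxRecDepth 100000

noncomputable section

namespace Pool.Agent.MP_2339ce_nt.NR

open Q2.Top

theorem q128 : OkQ ckI L7 128 1 1099511627776 0 34359738368 1 1099511627776 :=
  qa 12 c3.2 (qa 83 c63.2 (c36.1))

end Pool.Agent.MP_2339ce_nt.NR
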