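import Pool.Agent.MP_2339ce_nt.Q2.NC.L8
import Pool.Agent.MP_2339ce_nt.Q2.CkI

/-! Block NR: runs. -/

set_option autoImplicit false
set_option maxRecDepth 100000

noncomputable section

namespace Pool.Agent.MP_2339ce_nt.NR

open Q2.Top

def T102_0 : Ph :=
  (.na 529 167 (.na 317 95 (.na 170 61 (.na 88 40 (.na 46 32 (.na 26 31 (.nx 25 1664512 (.nr 24
  1048577 (.nr 1 27 .s1 (.nx 4 137 (.nx 3 136 (.nr 2 256 (.l1 (.ls 19 23 640)) (.l1 .sk)) (.l1
  .sk)) (.nx 13 20644 (.nx 5 257 (.l1 (.ls 79 23 1633)) (.nr 12 311745 (.lg 0 false 7 89 97 16 0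
  28560) .out)) (.nr 23 77937 (.nr 20 513 (.lg 0 true 7 73 73 16 0 2856) (.nx 22 165142 (.lg 2 true
  2 97 97 16 34976 4080) .out)) .out)))) .out) .out) (.nx 45 1664512 (.nr 44 1048577 (.nr 27 29 .s1
  (.nx 30 137 (.nx 29 136 (.nr 28 265 (.lg 0 false 1 23 23 13 0 28560) (.l1 .sk)) (.l1 .sk)) (.nx
  35 20644 (.nx 31 257 (.l1 (.ls 79 29 1528)) (.nr 34 311745 (.lg 0 false 3 101 101 16 0 85680)
  .out)) (.nr 43 77937 (.nr 40 513 (.lg 0 true 5 73 73 16 0 2040) (.nx 42 165142 (.lg 2 true 2 97
  97 16 34976 28560) .out)) .out)))) .out) .out)) (.na 47 35 .ne (.na 69 37 (.nx 68 1664512 (.nr 67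
  881745 (.nr 48 34 .s1 (.nx 63 104033 (.nx 52 257 (.nx 50 136 (.nr 49 306 (.l1 (.ls 31 29 531))
  (.l1 .sk)) (.nx 51 137 (.l1 .sk) (.l1 (.ls 83 31 1353)))) (.nr 62 440873 (.nr 55 32769 (.lg 0
  false 3 83 83 17 0 42840) (.nx 61 26009 (.nx 58 10323 (.lg 0 false 3 97 101 17 0 85680) (.nr 60
  110219 (.lg 0 false 2 89 97 17 0 85680) .out)) .out)) .out)) (.nr 66 257 (.lg 0 true 3 73 73 17 0
  42840) .out))) .out) .out) (.nx 87 1664512 (.nr 86 881745 (.nr 70 36 .s1 (.nx 77 20644 (.nx 71
  257 (.l1 (.ls 79 29 1788)) (.nr 76 440873 (.lg 0 false 5 97 101 16 0 85680) .out)) (.nr 85 46342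
  (.nr 82 331 (.lg 0 true 5 71 71 16 0 2040) (.nx 84 104033 (.lg 2 true 2 83 83 16 21373 816)
  .out)) .out))) .out) .out)))) (.na 125 49 (.na 107 43 (.nx 106 1664512 (.nr 105 881745 (.nr 89 39
  .s1 (.nx 92 137 (.nx 91 136 (.nr 90 356 (.l1 (.ls 31 31 465)) (.l1 .sk)) (.l1 .sk)) (.nx 97 10323
  (.nx 93 257 (.l1 (.ls 83 37 1185)) (.nr 96 440873 (.lg 0 false 3 97 97 23 0 85680) .out)) (.nr
  104 110219 (.nr 100 257 (.lg 0 true 3 73 73 23 0 12240) (.nx 103 104033 (.nr 101 32769 (.lg 2
  true 1 89 89 19 29480 28560) (.nx 102 26009 (.lg 0 true 1 97 97 19 0 28560) .out)) .out))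
  .out)))) .out) .out) (.na 124 46 (.nx 123 1664512 (.nr 122 881745 (.nr 108 42 .s1 (.nx 113 20644
  (.nx 109 257 (.l1 (.ls 73 29 1539)) (.nr 112 440873 (.lg 0 false 3 89 89 16 0 1224) .out)) (.nr
  121 46342 (.nr 118 380 (.lg 0 true 5 67 67 16 0 2040) (.nx 120 104033 (.lg 2 false 2 79 79 16
  20822 816) .out)) .out))) .out) .out) .ne)) (.na 140 56 (.nx 139 1664512 (.nr 138 881745 (.nr 126
  48 .s1 (.nx 131 20644 (.nx 127 257 (.l1 (.ls 73 31 1350)) (.nr 130 623489 (.lg 0 false 3 97 97 16
  0 85680) .out)) (.nr 137 46342 (.nr 134 257 (.lg 0 true 3 61 61 16 0 8568) (.nx 136 104033 (.lg 2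
  true 2 79 79 16 27527 28560) .out)) .out))) .out) .out) (.na 156 59 (.nx 155 1664512 (.nr 154
  881745 (.nr 141 55 .s1 (.nx 142 257 (.l1 (.ls 79 37 1182)) (.nr 153 623489 (.nx 145 13005 (.lg 0
  false 3 89 97 23 0 85680) (.nr 152 110219 (.nr 150 32769 (.nr 148 257 (.lg 0 true 3 71 71 23 0
  17136) (.nx 149 104033 (.lg 2 true 1 83 83 19 27527 28560) .out)) (.nx 151 26009 (.lg 0 false 1
  83 83 19 0 28560) .out)) .out)) .out))) .out) .out) (.nx 169 1664512 (.nr 168 881745 (.nr 157 58
  .s1 (.nx 158 257 (.l1 (.ls 73 23 1122)) (.nr 167 623489 (.nx 161 20644 (.lg 0 false 3 89 89 16 0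
  1224) (.nr 166 46342 (.nr 164 504 (.lg 0 true 3 71 71 16 0 1224) (.nx 165 104033 (.lg 2 true 1 79
  79 16 20822 408) .out)) .out)) .out))) .out) .out))))) (.na 243 79 (.na 199 68 (.na 183 64 (.nx
  182 1664512 (.nr 181 881745 (.nr 171 60 .s1 (.nx 176 20644 (.nx 172 257 (.l1 (.ls 73 23 1085))
  (.nr 175 623489 (.lg 0 false 3 89 89 16 0 1224) .out)) (.nr 180 46342 (.nr 178 257 (.lg 0 true 2
  67 67 16 0 816) (.nx 179 104033 (.lg 2 true 1 83 83 16 27527 408) .out)) .out))) .out) .out) (.na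
  184 67 .ne (.nx 198 1664512 (.nr 197 524289 (.nr 185 66 .s1 (.nx 187 136 (.nr 186 562 (.l1 (.ls
  16 17 279)) (.l1 .sk)) (.nx 188 137 (.l1 .sk) (.nx 191 20644 (.lg 0 false 3 89 89 16 0 1224) (.nr
  196 32769 (.nr 194 513 (.lg 0 true 3 67 67 16 0 1224) (.nx 195 104033 (.lg 2 true 1 71 71 16
  14741 408) .out)) .out))))) .out) .out))) (.na 214 71 (.nx 213 1664512 (.nr 212 524289 (.nr 200
  67 .s1 (.nx 206 20644 (.nx 202 136 (.nr 201 587 (.l1 (.ls 23 29 274)) (.l1 .sk)) (.nx 203 137
  (.l1 .sk) (.lg 0 false 3 89 89 23 0 85680))) (.nr 211 32769 (.nr 209 513 (.lg 0 true 3 67 67 23 0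
  2448) (.nx 210 104033 (.lg 2 true 1 71 71 13 14741 816) .out)) .out))) .out) .out) (.na 229 76
  (.nx 228 1664512 (.nr 227 524289 (.nr 215 71 .s1 (.nx 221 20644 (.nx 217 136 (.nr 216 628 (.l1
  (.ls 19 17 263)) (.l1 .sk)) (.nx 218 137 (.l1 .sk) (.lg 0 false 3 89 89 16 0 12240))) (.nr 226
  32769 (.nr 224 513 (.lg 0 true 3 61 61 16 0 1224) (.nx 225 104033 (.lg 2 true 1 73 73 16 14741
  4080) .out)) .out))) .out) .out) (.nx 242 1664512 (.nr 241 524289 (.nr 230 76 .s1 (.nx 232 136
  (.nr 231 653 (.l1 (.ls 16 29 246)) (.l1 .sk)) (.nx 233 137 (.l1 .sk) (.nx 236 20644 (.lg 0 false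
  3 89 97 29 0 12240) (.nr 240 32769 (.nr 238 513 (.lg 0 true 2 71 71 23 0 816) (.nx 239 104033
  (.lg 2 true 1 73 73 17 14741 816) .out)) .out))))) .out) .out)))) (.na 287 89 (.na 258 83 (.nx
  257 1664512 (.nr 256 524289 (.nr 244 79 .s1 (.nx 250 20644 (.nx 246 136 (.nr 245 686 (.l1 (.ls 19
  17 237)) (.l1 .sk)) (.nx 247 137 (.l1 .sk) (.lg 0 false 3 83 83 16 0 1224))) (.nr 255 32769 (.nr
  253 513 (.lg 0 true 3 61 61 16 0 1224) (.nx 254 104033 (.lg 2 true 1 67 67 16 14741 408) .out))
  .out))) .out) .out) (.na 273 85 (.nx 272 1664512 (.nr 271 524289 (.nr 259 83 .s1 (.nx 265 20644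
  (.nx 261 136 (.nr 260 703 (.l1 (.ls 16 17 225)) (.l1 .sk)) (.nx 262 137 (.l1 .sk) (.lg 0 false 3
  79 79 16 0 1224))) (.nr 270 32769 (.nr 268 513 (.lg 0 true 3 61 61 16 0 1224) (.nx 269 104033
  (.lg 2 true 1 67 67 16 14741 4080) .out)) .out))) .out) .out) (.nx 286 1664512 (.nr 285 524289
  (.nr 274 85 .s1 (.nx 277 137 (.nx 276 136 (.nr 275 736 (.l1 (.ls 19 23 220)) (.l1 .sk)) (.l1
  .sk)) (.nx 280 20644 (.lg 0 false 3 83 83 16 0 6120) (.nr 284 32769 (.nr 282 513 (.lg 0 true 2 61
  61 16 0 4080) (.nx 283 104033 (.lg 2 true 1 67 67 16 14741 2040) .out)) .out)))) .out) .out)))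
  (.na 302 91 (.nx 301 1664512 (.nr 300 524289 (.nr 288 89 .s1 (.nx 291 137 (.nx 290 136 (.nr 289
  752 (.l1 (.ls 19 17 210)) (.l1 .sk)) (.l1 .sk)) (.nx 294 20644 (.lg 0 false 3 79 79 16 0 1224)
  (.nr 299 32769 (.nr 297 752 (.lg 0 true 3 61 61 16 0 1224) (.nx 298 104033 (.lg 2 true 1 67 67 16
  14741 408) .out)) .out)))) .out) .out) (.na 303 92 .ne (.nx 316 1664512 (.nr 315 1048577 (.nr 304
  92 .s1 (.nx 307 137 (.nx 306 136 (.nr 305 785 (.l1 (.ls 19 19 204)) (.l1 .sk)) (.l1 .sk)) (.nx
  310 13005 (.lg 0 false 3 89 97 19 0 12240) (.nr 314 65537 (.nr 312 513 (.lg 0 true 2 71 71 19 0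
  816) (.nx 313 104033 (.lg 2 true 1 83 83 19 46703 816) .out)) .out)))) .out) .out)))))) (.na 450
  137 (.na 399 124 (.na 358 115 (.na 331 100 (.nx 330 1664512 (.nr 329 1048577 (.nr 318 95 .s1 (.nx
  321 137 (.nx 320 136 (.nr 319 827 (.l1 (.ls 16 17 197)) (.l1 .sk)) (.l1 .sk)) (.nx 324 13005 (.lg
  0 false 3 89 97 17 0 6120) (.nr 328 65537 (.nr 326 513 (.lg 0 true 2 73 73 17 0 4080) (.nx 327
  104033 (.lg 1 false 1 97 97 17 46703 4080) .out)) .out)))) .out) .out) (.na 345 109 (.nx 344
  1664512 (.nr 343 1048577 (.nr 332 100 .s1 (.nx 335 137 (.nx 334 136 (.nr 333 901 (.l1 (.ls 31 29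
  187)) (.l1 .sk)) (.l1 .sk)) (.nx 338 13005 (.lg 0 false 3 89 89 29 0 85680) (.nr 342 65537 (.nr
  340 513 (.lg 0 true 2 71 71 29 0 4080) (.nx 341 104033 (.lg 1 false 1 89 89 23 46703 85680)
  .out)) .out)))) .out) .out) (.nx 357 1664512 (.nr 356 1048577 (.nr 346 109 .s1 (.nx 348 136 (.nr
  347 950 (.l1 (.ls 19 17 172)) (.l1 .sk)) (.nx 349 137 (.l1 .sk) (.nx 352 20644 (.lg 0 false 3 79
  79 16 0 1224) (.nr 355 32769 (.nr 353 513 (.lg 2 false 1 61 61 16 1038412 408) (.nx 354 104033
  (.lg 2 true 1 61 61 16 14741 408) .out)) .out))))) .out) .out))) (.na 372 116 (.nx 371 1664512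
  (.nr 370 1048577 (.nr 359 115 .s1 (.nx 365 13005 (.nx 361 136 (.nr 360 959 (.l1 (.ls 19 19 163))
  (.l1 .sk)) (.nx 362 137 (.l1 .sk) (.lg 0 false 3 83 89 19 0 6120))) (.nr 369 65537 (.nr 367 513
  (.lg 0 true 2 71 71 19 0 4080) (.nx 368 104033 (.lg 1 false 1 89 89 17 46703 4080) .out)) .out)))
  .out) .out) (.na 386 119 (.nx 385 1664512 (.nr 384 1048577 (.nr 373 116 .s1 (.nx 376 137 (.nx 375
  136 (.nr 374 984 (.l1 (.ls 23 23 162)) (.l1 .sk)) (.l1 .sk)) (.nx 379 13005 (.lg 0 false 3 83 89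
  23 0 2448) (.nr 383 65537 (.nr 381 513 (.lg 0 true 2 71 71 23 0 816) (.nx 382 104033 (.lg 1 false
  1 89 89 19 46703 816) .out)) .out)))) .out) .out) (.nx 398 1664512 (.nr 397 1048577 (.nr 387 119
  .s1 (.nx 389 136 (.nr 388 1025 (.l1 (.ls 19 23 158)) (.l1 .sk)) (.nx 390 137 (.l1 .sk) (.nx 393
  20644 (.lg 0 false 3 83 83 19 0 8568) (.nr 396 32769 (.nr 394 513 (.lg 2 false 1 61 61 16 951150
  2856) (.nx 395 104033 (.lg 2 true 1 61 61 16 14741 2856) .out)) .out))))) .out) .out)))) (.na 426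
  131 (.na 412 125 (.nx 411 1664512 (.nr 410 1048577 (.nr 400 124 .s1 (.nx 406 13005 (.nx 402 136
  (.nr 401 1033 (.l1 (.ls 29 23 152)) (.l1 .sk)) (.nx 403 137 (.l1 .sk) (.lg 0 false 3 89 97 29 0
  85680))) (.nr 409 65537 (.nr 407 513 (.lg 0 true 1 71 71 19 0 816) (.nx 408 104033 (.lg 1 false 1
  89 89 19 46703 28560) .out)) .out))) .out) .out) (.na 425 128 (.nx 424 1664512 (.nr 423 1048577
  (.nr 413 125 .s1 (.nx 419 20644 (.nx 415 136 (.nr 414 1058 (.l1 (.ls 19 17 150)) (.l1 .sk)) (.nx
  416 137 (.l1 .sk) (.lg 0 false 3 79 79 17 0 6120))) (.nr 422 32769 (.nr 420 513 (.lg 2 false 1 61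
  61 16 905495 4080) (.nx 421 104033 (.lg 2 true 1 61 61 16 14741 2040) .out)) .out))) .out) .out)
  .ne)) (.na 427 133 (.lg 0 false 1 0 0 16 0 24) (.na 438 136 (.nx 437 832257 (.nr 436 1048577 (.nr
  428 133 .s1 (.nx 432 13005 (.nx 429 257 (.l1 (.ls 73 29 499)) (.nr 431 741457 (.lg 0 false 2 89
  89 17 0 5712) .out)) (.nr 435 16385 (.nr 433 1025 (.lg 0 true 1 71 71 17 0 2856) (.nx 434 104033
  (.lg 2 false 1 61 61 17 11749 2856) .out)) .out))) .out) .out) (.nx 449 832257 (.nr 448 1048577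
  (.nr 439 136 .s1 (.nx 440 257 (.l1 (.ls 71 31 488)) (.nr 447 741457 (.nx 443 13005 (.lg 0 false 3
  79 79 29 0 2448) (.nr 446 16385 (.nr 444 1025 (.lg 0 false 1 67 67 23 0 816) (.nx 445 104033 (.lg
  2 true 1 59 59 23 11749 816) .out)) .out)) .out))) .out) .out))))) (.na 496 151 (.na 473 145 (.na
  462 139 (.nx 461 832257 (.nr 460 1048577 (.nr 451 137 .s1 (.nx 452 257 (.l1 (.ls 67 19 485)) (.nr
  459 741457 (.nx 455 13005 (.lg 0 false 3 73 73 17 0 1224) (.nr 458 16385 (.nr 456 1025 (.lg 0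
  false 1 61 61 16 0 408) (.nx 457 104033 (.lg 2 true 1 53 53 16 11749 408) .out)) .out)) .out)))
  .out) .out) (.na 463 140 (.lg 0 false 1 0 0 16 0 24) (.nx 472 832257 (.nr 471 1048577 (.nr 464
  140 .s1 (.nx 467 13005 (.nx 465 257 (.l1 (.ls 83 37 474)) (.nr 466 741457 (.lg 0 false 1 97 97 31
  0 28560) .out)) (.nr 470 16385 (.nx 468 104033 (.lg 0 true 1 83 83 31 0 28560) (.nr 469 1025 (.lg
  0 true 1 73 73 31 0 28560) .out)) .out))) .out) .out))) (.na 484 148 (.nx 483 832257 (.nr 482
  1048577 (.nr 474 145 .s1 (.nx 475 257 (.l1 (.ls 79 23 458)) (.nr 481 741457 (.nx 477 13005 (.lg 0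
  false 2 89 89 19 0 4080) (.nr 480 16385 (.nr 478 1025 (.lg 0 true 1 71 71 17 0 2040) (.nx 479
  104033 (.lg 2 false 1 67 67 17 11749 2040) .out)) .out)) .out))) .out) .out) (.na 495 149 (.nx
  494 832257 (.nr 493 1048577 (.nr 485 148 .s1 (.nx 489 13005 (.nx 486 257 (.l1 (.ls 73 29 449))
  (.nr 488 741457 (.lg 0 false 2 83 83 23 0 4080) .out)) (.nr 492 16385 (.nr 490 1025 (.lg 0 true 1
  67 67 23 0 816) (.nx 491 104033 (.lg 2 false 1 61 61 23 11749 816) .out)) .out))) .out) .out)
  (.lg 0 false 1 0 0 16 0 24)))) (.na 517 157 (.na 497 152 (.lg 0 false 1 0 0 16 0 24) (.na 507 155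
  (.nx 506 832257 (.nr 505 1048577 (.nr 498 152 .s1 (.nx 499 257 (.l1 (.ls 79 31 437)) (.nr 504
  741457 (.nx 500 13005 (.lg 0 true 1 97 97 29 0 85680) (.nr 503 16385 (.nr 501 1025 (.lg 0 true 1
  71 71 29 0 816) (.nx 502 104033 (.lg 2 false 1 67 67 29 11749 816) .out)) .out)) .out))) .out)
  .out) (.nx 516 832257 (.nr 515 1048577 (.nr 508 155 .s1 (.nx 511 13005 (.nx 509 257 (.l1 (.ls 73
  23 429)) (.nr 510 741457 (.lg 0 false 1 83 83 17 0 2040) .out)) (.nr 514 16385 (.nr 512 1025 (.lg
  0 true 1 67 67 17 0 2040) (.nx 513 104033 (.lg 2 true 1 61 61 17 11749 2040) .out)) .out))) .out)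
  .out))) (.na 518 161 (.lg 0 false 1 0 0 16 0 24) (.na 528 163 (.nx 527 832257 (.nr 526 1048577
  (.nr 519 161 .s1 (.nx 520 257 (.l1 (.ls 79 19 413)) (.nr 525 741457 (.nx 521 13005 (.lg 0 true 1
  97 97 17 0 85680) (.nr 524 16385 (.nr 522 1025 (.lg 0 true 1 71 71 17 0 2856) (.nx 523 104033
  (.lg 2 true 1 61 61 17 11749 2856) .out)) .out)) .out))) .out) .out) (.lg 0 false 1 0 0 16 0
  24))))))) (.na 687 236 (.na 616 197 (.na 583 182 (.na 557 175 (.na 539 172 (.nx 538 832257 (.nr
  537 1048577 (.nr 530 167 .s1 (.nx 531 257 (.l1 (.ls 61 19 398)) (.nr 536 741457 (.nx 532 13005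
  (.lg 0 true 1 73 73 16 0 408) (.nr 535 16385 (.nr 533 1025 (.lg 0 false 1 61 61 16 0 4080) (.nx
  534 104033 (.lg 2 false 1 47 47 16 11749 408) .out)) .out)) .out))) .out) .out) (.na 549 173 (.nx
  548 832257 (.nr 547 1048577 (.nr 540 172 .s1 (.nx 541 257 (.l1 (.ls 79 29 387)) (.nr 546 741457
  (.nx 542 13005 (.lg 0 false 1 83 83 23 0 816) (.nr 545 16385 (.nr 543 1025 (.lg 0 true 1 71 71 23
  0 816) (.nx 544 104033 (.lg 2 false 1 61 61 23 11749 816) .out)) .out)) .out))) .out) .out) (.nx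
  556 832257 (.nr 555 1048577 (.nr 550 173 .s1 (.nx 551 257 (.l1 (.ls 89 19 384)) (.nr 554 741457
  (.nr 552 16385 (.lg 0 false 1 83 83 16 0 28560) (.nx 553 13005 (.lg 0 true 1 79 79 16 0 408)
  .out)) .out))) .out) .out))) (.na 567 179 (.nx 566 832257 (.nr 565 1048577 (.nr 558 175 .s1 (.nx
  561 13005 (.nx 559 257 (.l1 (.ls 71 29 380)) (.nr 560 741457 (.lg 0 true 1 83 83 19 0 14280)
  .out)) (.nr 564 16385 (.nr 562 1025 (.lg 0 true 1 67 67 19 0 14280) (.nx 563 104033 (.lg 2 false
  1 59 59 19 11749 14280) .out)) .out))) .out) .out) (.na 575 181 (.nx 574 832257 (.nr 573 1048577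
  (.nr 568 179 .s1 (.nx 569 257 (.l1 (.ls 83 19 371)) (.nr 572 741457 (.nr 570 16385 (.lg 0 false 1
  79 79 16 0 408) (.nx 571 13005 (.lg 0 true 1 79 79 16 0 408) .out)) .out))) .out) .out) (.nx 582
  832257 (.nr 581 1048577 (.nr 576 181 .s1 (.nx 577 257 (.l1 (.ls 73 19 367)) (.nr 580 741457 (.nr
  578 16385 (.lg 0 false 1 83 83 16 0 12240) (.nx 579 13005 (.lg 0 true 1 73 73 16 0 408) .out))
  .out))) .out) .out)))) (.na 604 191 (.na 584 184 .ne (.na 594 185 (.nx 593 832257 (.nr 592
  1048577 (.nr 585 184 .s1 (.nx 586 257 (.l1 (.ls 73 31 361)) (.nr 591 741457 (.nx 587 13005 (.lg 0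
  true 1 89 89 19 0 28560) (.nr 590 16385 (.nr 588 1025 (.lg 0 true 1 67 67 19 0 816) (.nx 589
  104033 (.lg 2 true 1 61 61 19 11749 816) .out)) .out)) .out))) .out) .out) (.nx 603 832257 (.nr
  602 1048577 (.nr 595 185 .s1 (.nx 598 13005 (.nx 596 257 (.l1 (.ls 73 23 360)) (.nr 597 741457
  (.lg 0 false 1 83 83 19 0 2040) .out)) (.nr 601 16385 (.nr 599 1025 (.lg 0 true 1 67 67 19 0
  2040) (.nx 600 104033 (.lg 2 true 1 61 61 19 11749 2040) .out)) .out))) .out) .out))) (.na 605
  193 (.lg 0 false 1 0 0 16 0 24) (.na 606 196 (.lg 0 false 1 0 0 16 0 24) (.nx 615 832257 (.nr 614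
  1048577 (.nr 607 196 .s1 (.nx 610 13005 (.nx 608 257 (.l1 (.ls 71 31 339)) (.nr 609 741457 (.lg 0
  false 1 79 79 29 0 5712) .out)) (.nr 613 16385 (.nr 611 1025 (.lg 0 true 1 61 61 29 0 5712) (.nx
  612 104033 (.lg 2 true 1 59 59 29 11749 5712) .out)) .out))) .out) .out))))) (.na 663 217 (.na
  642 203 (.na 624 199 (.nx 623 832257 (.nr 622 1048577 (.nr 617 197 .s1 (.nx 618 257 (.l1 (.ls 73
  19 338)) (.nr 621 741457 (.nr 619 16385 (.lg 0 false 1 73 73 16 0 408) (.nx 620 13005 (.lg 0 true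
  1 73 73 16 0 408) .out)) .out))) .out) .out) (.na 632 200 (.nx 631 832257 (.nr 630 1048577 (.nr
  625 199 .s1 (.nx 626 257 (.l1 (.ls 79 19 334)) (.nr 629 741457 (.nr 627 16385 (.lg 0 false 1 79
  79 16 0 408) (.nx 628 13005 (.lg 0 true 1 73 73 16 0 408) .out)) .out))) .out) .out) (.nx 641
  832257 (.nr 640 1048577 (.nr 633 200 .s1 (.nx 636 13005 (.nx 634 257 (.l1 (.ls 71 31 333)) (.nr
  635 741457 (.lg 0 false 1 79 79 29 0 4080) .out)) (.nr 639 16385 (.nr 637 1025 (.lg 0 true 1 61
  61 29 0 4080) (.nx 638 104033 (.lg 2 false 1 59 59 29 11749 4080) .out)) .out))) .out) .out)))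
  (.na 652 211 (.nx 651 832257 (.nr 650 1048577 (.nr 643 203 .s1 (.nx 646 13005 (.nx 644 257 (.l1
  (.ls 73 23 328)) (.nr 645 741457 (.lg 0 false 1 79 79 19 0 2856) .out)) (.nr 649 16385 (.nr 647
  1025 (.lg 0 true 1 67 67 19 0 2856) (.nx 648 104033 (.lg 2 false 1 59 59 19 11749 2856) .out))
  .out))) .out) .out) (.na 653 215 (.lg 0 false 1 0 0 16 0 24) (.nx 662 832257 (.nr 661 1048577
  (.nr 654 215 .s1 (.nx 655 257 (.l1 (.ls 73 23 310)) (.nr 660 741457 (.nx 656 13005 (.lg 0 false 1
  83 83 19 0 2040) (.nr 659 16385 (.nr 657 1025 (.lg 0 true 1 67 67 19 0 2040) (.nx 658 104033 (.lg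
  2 false 1 61 61 19 11749 2040) .out)) .out)) .out))) .out) .out)))) (.na 675 229 (.na 673 223
  (.nx 672 832257 (.nr 671 1048577 (.nr 664 217 .s1 (.nx 667 13005 (.nx 665 257 (.l1 (.ls 73 23
  307)) (.nr 666 741457 (.lg 0 false 1 83 83 19 0 2856) .out)) (.nr 670 16385 (.nr 668 1025 (.lg 0
  true 1 67 67 19 0 2856) (.nx 669 104033 (.lg 2 false 1 61 61 19 11749 2856) .out)) .out))) .out)
  .out) (.na 674 227 (.lg 0 false 1 0 0 16 0 24) (.lg 0 false 1 0 0 16 0 24))) (.na 676 232 (.lg 0
  false 1 0 0 16 0 24) (.na 686 233 (.nx 685 832257 (.nr 684 1048577 (.nr 677 232 .s1 (.nx 680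
  13005 (.nx 678 257 (.l1 (.ls 71 23 287)) (.nr 679 741457 (.lg 0 false 1 79 79 23 0 816) .out))
  (.nr 683 16385 (.nr 681 1025 (.lg 0 true 1 61 61 23 0 816) (.nx 682 104033 (.lg 2 true 1 59 59 23
  11749 816) .out)) .out))) .out) .out) (.lg 0 false 1 0 0 16 0 24)))))) (.na 3550 1449 (.na 729
  251 (.na 699 244 (.na 697 239 (.nx 696 832257 (.nr 695 1048577 (.nr 688 236 .s1 (.nx 689 257 (.l1
  (.ls 53 29 282)) (.nr 694 741457 (.nx 690 13005 (.lg 0 false 1 79 79 23 0 816) (.nr 693 16385
  (.nr 691 1025 (.lg 0 true 1 61 61 23 0 816) (.nx 692 104033 (.lg 2 true 1 53 53 23 11749 816)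
  .out)) .out)) .out))) .out) .out) (.na 698 241 (.lg 0 false 1 0 0 16 0 24) (.lg 0 false 1 0 0 16
  0 24))) (.na 709 245 (.nx 708 832257 (.nr 707 1048577 (.nr 700 244 .s1 (.nx 701 257 (.l1 (.ls 59
  29 273)) (.nr 706 741457 (.nx 702 13005 (.lg 0 false 1 79 79 23 0 816) (.nr 705 16385 (.nr 703
  1025 (.lg 0 true 1 61 61 23 0 816) (.nx 704 104033 (.lg 2 false 1 53 53 23 11749 816) .out))
  .out)) .out))) .out) .out) (.na 719 248 (.nx 718 832257 (.nr 717 1048577 (.nr 710 245 .s1 (.nx
  713 13005 (.nx 711 257 (.l1 (.ls 71 23 272)) (.nr 712 741457 (.lg 0 false 1 79 79 23 0 14280)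
  .out)) (.nr 716 16385 (.nr 714 1025 (.lg 0 true 1 61 61 23 0 14280) (.nx 715 104033 (.lg 2 true 1
  59 59 23 11749 28560) .out)) .out))) .out) .out) (.nx 728 832257 (.nr 727 1048577 (.nr 720 248
  .s1 (.nx 723 13005 (.nx 721 257 (.l1 (.ls 71 29 269)) (.nr 722 741457 (.lg 0 false 1 79 79 23 0
  816) .out)) (.nr 726 16385 (.nr 724 1025 (.lg 0 true 1 61 61 23 0 816) (.nx 725 104033 (.lg 2
  false 1 59 59 23 11749 816) .out)) .out))) .out) .out)))) (.na 1458 512 (.na 737 256 (.nx 736
  832257 (.nr 735 1048577 (.nr 730 251 .s1 (.nx 733 13005 (.nx 731 257 (.l1 (.ls 73 19 266)) (.nr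
  732 741457 (.lg 0 true 1 73 73 17 0 408) .out)) (.nr 734 16385 (.lg 0 false 1 73 73 17 0 408)
  .out))) .out) .out) (.na 738 257 .ne (.nx 1457 832257 (.nr 1456 1482912 (.nr 739 257 .s1 (.nx 876
  137 (.nx 875 136 (.nr 874 4230 (.lx (.lp 43 19 129)) (.l1 .sk)) (.l1 .sk)) (.nx 944 205 (.lx (.lp
  83 17 129)) (.nr 1455 1048577 (.nr 1199 32769 (.la (.lg 0 true 1 73 73 23 0)) (.nx 1454 10323
  (.la (.lg 0 false 1 71 71 23 0)) .out)) .out)))) .out) .out))) (.na 2094 725 (.nx 2093 832257
  (.nr 2092 1482912 (.nr 1459 512 .s1 (.nx 1596 137 (.nx 1595 136 (.nr 1594 5990 (.lx (.lp 43 19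
  182)) (.l1 .sk)) (.l1 .sk)) (.nx 1664 205 (.lx (.lp 83 19 182)) (.nr 2091 1048577 (.nx 1877 10323
  (.la (.lg 0 false 1 67 67 29 0)) (.nr 2090 32769 (.la (.lg 2 true 1 61 61 29 110535)) .out))
  .out)))) .out) .out) (.na 2696 1024 (.nx 2695 10323 (.nr 2694 1048577 (.nr 2095 725 .s1 (.nx 2394
  2049 (.la (.ls 67 41 5793)) (.nr 2693 16385 (.la (.lg 0 true 1 37 37 29 0)) .out))) .out) .out)
  (.nx 3549 10323 (.nr 3548 1048577 (.nr 2697 1024 .s1 (.nx 3122 2582 (.la (.ls 61 41 6513)) (.nr
  3547 16385 (.la (.lg 0 false 1 31 31 31 0)) .out))) .out) .out))))) (.na 10906 16384 (.na 6480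
  4096 (.na 4152 2048 (.nx 4151 2582 (.nr 4150 524289 (.nr 3551 1449 .s1 (.la (.ls 59 37 4603)))
  .out) .out) (.na 5141 2897 (.nx 5140 3252 (.nr 5139 524289 (.nr 4153 2048 .s1 (.nx 4289 136 (.nr
  4288 23934 (.lx (.lp 43 29 725)) (.l1 .sk)) (.nx 4290 137 (.l1 .sk) (.la (.ls 73 41 5157)))))
  .out) .out) (.nx 6479 2582 (.nr 6478 262145 (.nr 5142 2897 .s1 (.nx 5278 136 (.nr 5277 33839 (.lx
  (.lp 47 31 1025)) (.l1 .sk)) (.nx 5279 137 (.l1 .sk) (.la (.ls 61 37 2297))))) .out) .out))) (.na
  8317 5793 (.nx 8316 2582 (.nr 8315 262145 (.nr 6481 4096 .s1 (.nx 6617 136 (.nr 6616 47859 (.lx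
  (.lp 43 37 1449)) (.l1 .sk)) (.nx 6618 137 (.l1 .sk) (.la (.ls 59 37 1626))))) .out) .out) (.na
  9611 8192 (.nx 9610 1292 (.nr 9609 65537 (.nr 8318 5793 .s1 (.lx (.lp 43 37 2049))) .out) .out)
  (.nx 10905 1292 (.nr 10904 131073 (.nr 9612 8192 .s1 (.nx 9816 205 (.lx (.lp 47 37 4097)) (.nr
  10903 65537 (.lx (.lp 43 41 4097)) .out))) .out) .out)))) (.na 14256 131072 (.na 12201 32768 (.nx
  12200 1292 (.nr 12199 262145 (.nr 10907 16384 .s1 (.nx 11111 205 (.lx (.lp 43 41 8193)) (.nr
  12198 131073 (.lx (.lp 43 43 8193)) .out))) .out) .out) (.na 13229 65536 (.nx 13228 1025 (.nr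
  13227 262145 (.nr 12202 32768 .s1 (.nx 12406 205 (.lx (.lp 16 0 16385)) (.nr 13226 131073 (.lx
  (.lp 41 47 16385)) .out))) .out) .out) (.nx 14255 1025 (.nr 14254 262145 (.nr 13230 65536 .s1
  (.lx (.lp 41 53 32769))) .out) .out))) (.na 14258 262144 (.nx 14257 324 (.l1 .sk) .out) (.na
  14260 524289 (.nx 14259 205 (.l1 .sk) .out) .out)))))))

def T102_1 : Ph :=
  (.na 872 12 (.na 645 6 (.na 503 3 (.na 304 2 (.nx 303 1321124 (.nr 302 881745 (.nx 3 150 (.nx 2
  149 (.nr 1 13 (.lg 0 false 1 41 41 5 0 360) (.l1 .sk)) (.l1 .sk)) (.nr 273 92683 (.nx 244 660563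
  (.nx 94 24081 (.lg 0 false 91 89 103 16 0 360360) (.nr 243 77937 (.nr 129 695 (.lg 0 true 35 83
  89 13 0 2520) (.nx 157 32769 (.lg 1 false 28 97 103 11 35996 55440) (.nr 242 55110 (.nr 170 1219
  (.lg 2 true 13 83 83 9 70809 4680) (.nx 241 524289 (.nr 212 38969 (.nr 183 2437 (.lg 2 true 13 83
  89 9 32043 4680) (.nx 211 416129 (.lg 2 false 28 97 103 11 13252 55440) .out)) (.nx 240 104033
  (.lg 2 true 28 97 103 11 18720 55440) .out)) .out)) .out))) .out)) (.nr 272 129 (.lg 0 true 28 79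
  83 11 0 1008) .out)) (.nx 301 257 (.lg 0 false 28 79 83 11 0 1008) .out))) .out) .out) (.nx 502
  3329023 (.nr 501 623489 (.nx 307 150 (.nx 306 149 (.nr 305 23 (.lg 0 false 1 41 41 5 0 144) (.l1
  .sk)) (.l1 .sk)) (.nx 482 1664512 (.nr 468 131073 (.nx 441 416129 (.nx 346 19582 (.lg 0 false 39
  101 103 13 0 720720) (.nr 372 2437 (.nr 359 450 (.lg 0 true 13 83 83 9 0 1872) (.lg 2 true 13 97
  97 9 68893 720720)) (.nx 440 330282 (.nx 385 26009 (.lg 1 false 13 101 103 9 74389 720720) (.nr
  439 110219 (.nx 398 32769 (.lg 1 false 13 101 103 9 47106 720720) (.nr 438 92683 (.nx 411 44591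
  (.lg 1 false 13 101 103 9 31448 720720) (.nr 424 55110 (.lg 2 false 13 103 107 9 13757 720720)
  (.nx 437 131073 (.lg 2 false 13 103 107 9 23110 720720) .out))) .out)) .out)) .out))) (.nr 467
  257 (.lg 0 true 26 83 89 11 0 1872) .out)) (.nx 481 257 (.lg 0 false 13 79 79 9 0 1872) .out))
  (.nr 500 9 (.lg 0 true 18 67 67 9 0 144) .out))) .out) .out)) (.na 504 5 .ne (.nx 644 13316087
  (.nr 643 1482912 (.nx 606 832257 (.nx 506 149 (.nr 505 51 (.lg 0 true 1 31 31 9 0 360) (.l1 .sk))
  (.nx 507 150 (.l1 .sk) (.nx 537 20642 (.nr 520 92683 (.lg 0 false 13 101 103 16 0 720720) (.nx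
  536 6503 (.nr 524 110219 (.lg 0 false 4 83 89 13 0 720) (.nx 535 257 (.lg 0 false 11 73 79 16 0
  3960) .out)) .out)) (.nr 605 155873 (.nr 550 956 (.lg 0 true 13 83 89 16 0 4680) (.nx 604 660563
  (.nr 554 4213 (.lg 2 true 4 89 89 13 51477 720) (.nx 568 41285 (.nr 567 131073 (.lg 1 false 13 97
  107 16 70569 720720) .out) (.nr 572 8843 (.lg 2 true 4 79 83 13 11681 720) (.nx 585 82572 (.lg 1
  false 13 101 107 16 41951 720720) (.nr 603 131073 (.nx 598 131073 (.lg 1 true 13 97 103 16 17641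
  720720) (.nr 602 46342 (.lg 2 false 4 89 97 13 5566 5040) .out)) .out))))) .out)) .out)))) (.nr
  642 129 (.nx 613 1664512 (.lg 0 true 7 73 73 16 0 2520) (.nr 641 24 (.lg 0 true 28 79 79 16 0
  5040) .out)) .out)) .out) .out))) (.na 767 10 (.na 766 7 (.nx 765 13316087 (.nr 764 623489 (.nx
  735 1664512 (.nx 727 660563 (.nx 648 150 (.nx 647 149 (.nr 646 60 (.lg 0 true 1 31 31 7 0 720)
  (.l1 .sk)) (.l1 .sk)) (.nx 671 16384 (.nr 663 220437 (.nr 655 92683 (.lg 0 false 7 97 97 13 0
  5040) (.nx 662 3252 (.lg 0 false 7 89 97 13 0 5040) .out)) (.nx 670 647 (.lg 0 false 7 83 83 13 0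
  1008) .out)) (.nr 726 155873 (.nr 689 8201 (.nr 682 1026 (.lg 0 true 11 83 83 17 0 1584) (.lg 2
  true 7 83 89 13 47965 5040)) (.nx 704 52015 (.nr 703 131073 (.nx 696 28089 (.lg 1 false 7 97 101
  13 88909 5040) (.lg 1 false 7 101 103 13 51859 720720)) .out) (.nx 711 73561 (.lg 1 false 7 101
  103 13 33297 720720) (.nx 718 131073 (.lg 1 true 7 101 103 13 23545 720720) (.nr 725 65537 (.lg 2
  false 7 83 89 13 6001 5040) .out))))) .out))) (.nr 734 257 (.lg 0 true 7 79 79 13 0 1008) .out))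
  (.nr 763 28 (.lg 0 true 28 79 79 13 0 1008) .out)) .out) .out) .ne) (.na 821 11 (.nx 820 1664512
  (.nr 819 623489 (.nx 811 524289 (.nx 769 149 (.nr 768 95 (.lg 0 true 1 29 29 11 0 720) (.l1 .sk))
  (.nx 770 150 (.l1 .sk) (.nx 787 26007 (.nr 777 110219 (.lg 0 false 7 97 97 13 0 5040) (.nx 786
  2582 (.nx 784 1292 (.lg 0 false 7 83 83 13 0 5040) (.nr 785 131073 (.lg 0 true 1 79 79 11 0 720)
  .out)) .out)) (.nr 810 131073 (.nr 794 1621 (.lg 0 true 7 83 83 13 0 5040) (.nx 809 416129 (.nx
  801 65537 (.lg 1 false 7 101 103 13 56011 720720) (.nr 808 110219 (.lg 2 false 7 89 101 13 19125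
  5040) .out)) .out)) .out)))) (.nr 818 65 (.lg 0 true 7 71 71 13 0 5040) .out)) .out) .out) (.nx
  871 1664512 (.nr 870 623489 (.nx 823 149 (.nr 822 104 (.lg 0 true 1 29 29 9 0 3960) (.l1 .sk))
  (.nx 824 150 (.l1 .sk) (.nr 862 131073 (.nx 831 26007 (.lg 0 false 7 97 101 16 0 55440) (.nx 854
  524289 (.nr 838 1621 (.lg 0 true 7 83 83 16 0 5544) (.nx 853 416129 (.nx 845 65537 (.lg 1 false 7
  97 101 16 56011 55440) (.nr 852 110219 (.lg 2 false 7 97 101 16 19125 55440) .out)) .out)) (.nr
  861 65 (.lg 0 true 7 67 67 16 0 5544) .out))) (.nx 869 1292 (.lg 0 false 7 83 83 16 0 27720)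
  .out)))) .out) .out)))) (.na 952 18 (.na 915 16 (.na 873 15 .ne (.nx 914 1664512 (.nr 913 623489
  (.nr 874 9 .s1 (.nx 877 150 (.nx 876 149 (.nr 875 138 (.lg 0 true 1 29 29 16 0 360) (.l1 .sk))
  (.l1 .sk)) (.nx 908 524289 (.nx 889 29192 (.nr 884 155873 (.lg 0 false 7 83 89 17 0 2520) (.nx
  888 1292 (.lg 0 false 4 79 83 17 0 720) .out)) (.nr 907 110219 (.nr 893 829 (.lg 0 true 4 79 79
  17 0 720) (.nx 906 416129 (.nx 900 82572 (.lg 1 true 7 83 97 17 41970 27720) (.nr 905 77937 (.nr
  901 3171 (.lg 2 false 1 79 79 16 37397 360) (.lg 2 false 4 83 89 17 10498 720)) .out)) .out))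
  .out)) (.nr 912 65 (.lg 0 true 4 67 67 17 0 720) .out)))) .out) .out)) (.na 916 17 .ne (.nx 951
  1664512 (.nr 950 1048577 (.nr 917 12 .s1 (.nx 934 23171 (.nx 919 149 (.nr 918 156 (.lg 0 true 1
  23 23 11 0 360) (.l1 .sk)) (.nx 920 150 (.l1 .sk) (.nx 921 257 (.l1 (.ls 79 37 2564)) (.nr 933
  623489 (.nr 928 220437 (.lg 0 false 7 89 97 16 0 2520) (.nx 932 1627 (.lg 0 false 4 79 79 16 0
  144) .out)) .out)))) (.nr 949 92683 (.nr 941 634 (.lg 0 true 7 79 79 16 0 504) (.nx 948 262145
  (.lg 2 false 7 89 97 16 44474 2520) .out)) .out))) .out) .out))) (.na 1024 23 (.na 989 22 (.nx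
  988 1664512 (.nr 987 1048577 (.nr 953 14 .s1 (.nx 971 23171 (.nx 955 149 (.nr 954 190 (.lg 0
  false 1 23 23 13 0 720) (.l1 .sk)) (.nx 956 150 (.l1 .sk) (.nx 957 257 (.l1 (.ls 79 43 2422))
  (.nr 970 623489 (.nr 964 220437 (.lg 0 false 7 89 97 19 0 5040) (.nx 969 1627 (.lg 0 false 5 73
  79 19 0 720) .out)) .out)))) (.nr 986 92683 (.nr 978 634 (.lg 0 true 7 73 73 19 0 1008) (.nx 985
  262145 (.lg 2 false 7 83 97 19 44474 5040) .out)) .out))) .out) .out) (.nx 1023 1664512 (.nr 1022
  1048577 (.nr 990 19 .s1 (.nx 1006 23171 (.nx 992 149 (.nr 991 199 (.lg 0 true 1 23 23 9 0 7920)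
  (.l1 .sk)) (.nx 993 150 (.l1 .sk) (.nx 994 257 (.l1 (.ls 79 41 1982)) (.nr 1005 623489 (.nr 1001
  220437 (.lg 0 false 7 89 97 19 0 55440) (.nx 1004 1627 (.lg 0 false 3 79 79 13 0 1584) .out))
  .out)))) (.nr 1021 92683 (.nr 1013 634 (.lg 0 true 7 79 79 19 0 11088) (.nx 1020 262145 (.lg 2
  false 7 89 97 19 44474 55440) .out)) .out))) .out) .out)) (.na 1025 27 .ne (.na 1053 30 (.nx 1052
  1664512 (.nr 1051 1048577 (.nr 1026 25 .s1 (.nx 1030 257 (.nx 1028 149 (.nr 1027 260 (.lg 0 false
  1 23 23 16 0 7920) (.l1 .sk)) (.nx 1029 150 (.l1 .sk) (.l1 (.ls 73 31 1615)))) (.nr 1050 311745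
  (.nx 1037 20644 (.lg 0 false 7 83 83 17 0 2520) (.nr 1049 77937 (.nr 1044 513 (.lg 0 true 7 71 71
  17 0 504) (.nx 1048 165142 (.lg 2 false 4 83 83 16 41989 720) .out)) .out)) .out))) .out) .out)
  (.nx 1076 1664512 (.nr 1075 1048577 (.nr 1054 28 .s1 (.nx 1056 149 (.nr 1055 277 (.l1 (.ls 31 41
  743)) (.l1 .sk)) (.nx 1057 150 (.l1 .sk) (.nx 1058 257 (.l1 (.ls 83 43 1454)) (.nr 1074 311745
  (.nr 1071 110219 (.nx 1067 208065 (.nx 1060 20644 (.lg 0 false 2 89 89 23 0 720) (.nr 1066 77937
  (.nr 1061 1307 (.lg 0 false 1 79 79 19 0 720) (.nx 1065 165142 (.nx 1062 41287 (.lg 1 true 1 97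
  97 19 41989 720) (.nr 1064 65537 (.lg 2 false 2 89 97 23 17661 5040) .out)) .out)) .out)) (.nr
  1070 217 (.lg 0 true 3 73 73 29 0 720) .out)) (.nx 1073 8193 (.lg 0 false 2 89 97 23 0 720)
  .out)) .out))))) .out) .out))))))

def T102_2 : Ph :=
  (.na 589 146 (.na 467 46 (.na 395 16 (.na 206 6 (.na 1 2 .ne (.na 205 3 (.nx 204 3329023 (.nr 203
  623489 (.nx 184 1664512 (.nx 3 147 (.nr 2 23 (.lg 0 false 1 37 37 5 0 336) (.l1 .sk)) (.nx 4 148
  (.l1 .sk) (.nx 163 832257 (.nr 147 131073 (.nx 59 32769 (.lg 0 false 55 101 103 13 0 720720) (.nr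
  146 92683 (.nr 79 450 (.lg 0 true 20 83 83 11 0 1680) (.nx 145 416129 (.nr 90 1388 (.lg 2 true 11
  83 83 9 67968 3696) (.lg 2 false 55 97 107 13 30609 720720)) .out)) .out)) (.nx 162 257 (.lg 0
  false 15 79 79 9 0 5040) .out)) (.nr 183 129 (.lg 0 true 20 79 79 11 0 1680) .out)))) (.nr 202 9
  (.lg 0 true 18 67 67 9 0 1008) .out)) .out) .out) .ne)) (.na 329 7 (.nx 328 13316087 (.nr 327
  623489 (.nx 210 205 (.nx 208 147 (.nr 207 59 (.lg 0 false 1 31 31 7 0 5040) (.l1 .sk)) (.nx 209
  148 (.l1 .sk) (.l1 (.ls 79 43 3356)))) (.nr 326 370729 (.nx 280 832257 (.nx 233 20642 (.nr 221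
  131073 (.lg 0 false 11 97 101 13 0 55440) (.nx 232 1627 (.lg 0 false 11 83 83 13 0 55440) .out))
  (.nr 279 155873 (.nr 244 1026 (.lg 0 true 11 83 83 13 0 11088) (.nx 278 660563 (.nr 249 8201 (.lg
  2 true 5 89 89 11 47322 5040) (.nx 272 131073 (.nx 261 52015 (.nr 260 131073 (.lg 1 false 11 97
  101 13 68686 55440) .out) (.lg 1 true 11 97 101 13 32409 55440)) (.nr 277 65537 (.lg 2 false 5 89
  89 11 5921 5040) .out))) .out)) .out)) (.nr 325 129 (.nr 313 40 (.lg 0 true 33 73 73 13 0 11088)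
  (.nx 324 1664512 (.lg 0 true 11 71 71 13 0 11088) .out)) .out)) .out)) .out) .out) (.na 330 14
  .ne (.nx 394 1664512 (.nr 393 623489 (.nr 331 8 .s1 (.nx 351 13003 (.nx 333 147 (.nr 332 137 (.l1
  (.ls 19 41 1546)) (.l1 .sk)) (.nx 334 148 (.l1 .sk) (.nr 345 155873 (.lg 0 false 11 83 83 13 0
  3696) (.nx 350 1292 (.lg 0 false 5 73 73 13 0 1680) .out)))) (.nr 392 110219 (.nr 374 46342 (.nr
  362 829 (.lg 0 true 11 79 79 13 0 3696) (.nx 373 416129 (.lg 2 true 11 73 73 13 38631 3696)
  .out)) (.nx 391 208065 (.nx 385 131073 (.lg 0 true 11 97 101 13 0 720720) (.nr 390 55110 (.lg 0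
  true 5 79 79 13 0 1680) .out)) .out)) .out))) .out) .out)))) (.na 398 26 (.na 396 18 .ne (.na 397
  23 (.lg 0 false 1 0 0 7 0 24) .ne)) (.na 429 38 (.na 428 32 (.nx 427 1664512 (.nr 426 1048577
  (.nr 399 24 .s1 (.nx 401 147 (.nr 400 275 (.l1 (.ls 29 37 834)) (.l1 .sk)) (.nx 402 148 (.l1 .sk)
  (.nx 403 257 (.l1 (.ls 83 41 1700)) (.nr 425 311745 (.nx 408 20644 (.lg 0 false 5 97 97 19 0
  65520) (.nr 424 77937 (.nr 421 55110 (.nx 415 165142 (.nr 410 8487 (.lg 0 false 2 89 89 11 0
  65520) (.lg 2 true 5 73 73 19 28921 21840)) (.nr 420 513 (.lg 0 true 5 79 79 19 0 21840) .out))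
  (.nx 423 65537 (.lg 0 false 2 89 89 11 0 65520) .out)) .out)) .out))))) .out) .out) .ne) (.na 448
  42 (.nx 447 1664512 (.nr 446 881745 (.nr 430 37 .s1 (.nx 431 257 (.l1 (.ls 79 41 1741)) (.nr 445
  440873 (.nx 436 20644 (.lg 0 false 5 89 89 17 0 1680) (.nr 444 46342 (.nr 441 361 (.lg 0 true 5
  71 71 17 0 1680) (.nx 443 104033 (.lg 2 true 2 83 83 13 24332 1008) .out)) .out)) .out))) .out)
  .out) (.nx 466 1664512 (.nr 465 881745 (.nr 449 41 .s1 (.nx 456 20644 (.nx 450 257 (.l1 (.ls 71
  43 1575)) (.nr 455 440873 (.lg 0 true 5 83 83 23 0 5040) .out)) (.nr 464 46342 (.nr 461 395 (.lg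
  0 true 5 61 61 23 0 5040) (.nx 463 104033 (.lg 2 true 2 73 73 19 24332 1008) .out)) .out))) .out)
  .out))))) (.na 533 91 (.na 486 64 (.na 468 54 .ne (.na 469 62 (.lg 0 false 1 0 0 16 0 24) (.nx
  485 1664512 (.nr 484 881745 (.nr 470 61 .s1 (.nx 477 26009 (.nx 471 257 (.l1 (.ls 73 37 1068))
  (.nr 476 623489 (.lg 0 false 5 89 89 19 0 1680) .out)) (.nr 483 32769 (.nr 481 550 (.lg 0 true 4
  67 67 19 0 336) (.nx 482 104033 (.lg 2 true 1 73 73 13 13903 336) .out)) .out))) .out) .out)))
  (.na 502 78 (.na 487 74 .ne (.nx 501 1664512 (.nr 500 524289 (.nr 488 74 .s1 (.nx 491 148 (.nx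
  490 147 (.nr 489 670 (.l1 (.ls 23 29 295)) (.l1 .sk)) (.l1 .sk)) (.nx 496 104033 (.nx 493 20644
  (.lg 0 true 2 89 89 19 0 5040) (.nr 495 32769 (.lg 0 false 2 79 79 19 0 336) .out)) (.nr 499 513
  (.lg 0 true 3 71 71 19 0 1008) .out)))) .out) .out)) (.na 519 86 (.nx 518 1664512 (.nr 517 524289
  (.nr 503 78 .s1 (.nx 505 147 (.nr 504 739 (.l1 (.ls 23 37 280)) (.l1 .sk)) (.nx 506 148 (.l1 .sk)
  (.nx 511 20644 (.lg 0 false 5 83 83 31 0 65520) (.nr 516 32769 (.nr 514 513 (.lg 0 true 3 67 67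
  29 0 13104) (.nx 515 104033 (.lg 2 true 1 73 73 23 17228 13104) .out)) .out))))) .out) .out) (.nx
  532 1664512 (.nr 531 524289 (.nr 520 86 .s1 (.nx 526 20644 (.nx 522 147 (.nr 521 782 (.l1 (.ls 19
  23 254)) (.l1 .sk)) (.nx 523 148 (.l1 .sk) (.lg 0 false 3 89 89 19 0 5040))) (.nr 530 32769 (.nr
  528 513 (.lg 0 true 2 67 67 19 0 336) (.nx 529 104033 (.lg 2 true 1 73 73 13 17228 5040) .out))
  .out))) .out) .out)))) (.na 561 122 (.na 534 98 .ne (.na 548 114 (.nx 547 1664512 (.nr 546
  1048577 (.nr 535 98 .s1 (.nx 542 20644 (.nx 540 13005 (.nx 537 147 (.nr 536 979 (.l1 (.ls 29 29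
  223)) (.l1 .sk)) (.nx 538 148 (.l1 .sk) (.lg 0 false 2 83 89 29 0 1008))) (.nr 541 65537 (.lg 0
  false 1 73 73 29 0 1008) .out)) (.nr 545 32769 (.nr 543 513 (.lg 0 true 1 71 71 29 0 336) (.nx
  544 104033 (.lg 1 true 1 79 79 29 17228 1008) .out)) .out))) .out) .out) (.nx 560 1664512 (.nr
  559 1048577 (.nr 549 114 .s1 (.nx 552 148 (.nx 551 147 (.nr 550 1048 (.l1 (.ls 17 31 192)) (.l1
  .sk)) (.l1 .sk)) (.nx 555 20644 (.lg 0 false 3 89 89 31 0 5040) (.nr 558 32769 (.nr 556 513 (.lg
  0 false 1 73 73 29 0 5040) (.nx 557 104033 (.lg 2 true 1 71 71 29 17228 1008) .out)) .out))))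
  .out) .out))) (.na 577 128 (.na 576 126 (.nx 575 1664512 (.nr 574 1048577 (.nr 562 122 .s1 (.nx
  565 148 (.nx 564 147 (.nr 563 1082 (.l1 (.ls 17 23 180)) (.l1 .sk)) (.l1 .sk)) (.nx 570 20644
  (.lg 0 false 5 83 83 23 0 5040) (.nr 573 32769 (.nr 571 513 (.lg 0 false 1 71 71 19 0 1008) (.nx
  572 104033 (.lg 2 true 1 67 67 19 17228 336) .out)) .out)))) .out) .out) (.lg 0 false 1 0 0 16 0
  24)) (.na 578 134 .ne (.nx 588 832257 (.nr 587 1048577 (.nr 579 134 .s1 (.nx 580 257 (.l1 (.ls 61
  29 495)) (.nr 586 741457 (.nx 582 13005 (.lg 0 false 2 79 79 23 0 336) (.nr 585 16385 (.nr 583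
  1025 (.lg 0 false 1 71 71 19 0 336) (.nx 584 104033 (.lg 2 true 1 59 59 19 13736 336) .out))
  .out)) .out))) .out) .out)))))) (.na 2082 725 (.na 642 218 (.na 610 182 (.na 599 158 (.nx 598
  832257 (.nr 597 1048577 (.nr 590 146 .s1 (.nx 593 13005 (.nx 591 257 (.l1 (.ls 67 29 455)) (.nr
  592 741457 (.lg 0 true 1 83 83 19 0 336) .out)) (.nr 596 16385 (.nr 594 1025 (.lg 0 false 1 67 67
  19 0 5040) (.nx 595 104033 (.lg 2 true 1 59 59 19 13736 336) .out)) .out))) .out) .out) (.na 609
  162 (.nx 608 832257 (.nr 607 1048577 (.nr 600 158 .s1 (.nx 603 13005 (.nx 601 257 (.l1 (.ls 67 29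
  421)) (.nr 602 741457 (.lg 0 true 1 83 83 19 0 1008) .out)) (.nr 606 16385 (.nr 604 1025 (.lg 0
  false 1 61 61 19 0 1008) (.nx 605 104033 (.lg 2 true 1 53 53 19 13736 336) .out)) .out))) .out)
  .out) (.lg 0 false 1 0 0 16 0 24))) (.na 626 194 (.na 618 186 (.nx 617 832257 (.nr 616 1048577
  (.nr 611 182 .s1 (.nx 612 257 (.l1 (.ls 67 37 365)) (.nr 615 741457 (.nr 613 16385 (.lg 0 false 1
  79 79 29 0 4368) (.nx 614 13005 (.lg 0 true 1 79 79 29 0 13104) .out)) .out))) .out) .out) (.nx
  625 832257 (.nr 624 1048577 (.nr 619 186 .s1 (.nx 620 257 (.l1 (.ls 71 37 358)) (.nr 623 741457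
  (.nr 621 16385 (.lg 0 false 1 89 89 29 0 5040) (.nx 622 13005 (.lg 0 true 1 83 83 29 0 5040)
  .out)) .out))) .out) .out)) (.na 634 206 (.nx 633 832257 (.nr 632 1048577 (.nr 627 194 .s1 (.nx
  628 257 (.l1 (.ls 79 29 343)) (.nr 631 741457 (.nx 629 13005 (.lg 0 true 1 79 79 19 0 336) (.nr
  630 16385 (.lg 0 false 1 79 79 19 0 336) .out)) .out))) .out) .out) (.nx 641 832257 (.nr 640
  1048577 (.nr 635 206 .s1 (.nx 636 257 (.l1 (.ls 67 29 323)) (.nr 639 741457 (.nr 637 16385 (.lg 0
  false 1 79 79 23 0 336) (.nx 638 13005 (.lg 0 true 1 79 79 23 0 5040) .out)) .out))) .out)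
  .out)))) (.na 659 254 (.na 650 222 (.nx 649 832257 (.nr 648 1048577 (.nr 643 218 .s1 (.nx 644 257
  (.l1 (.ls 61 29 305)) (.nr 647 741457 (.nr 645 16385 (.lg 0 false 1 73 73 23 0 336) (.nx 646
  13005 (.lg 0 true 1 73 73 23 0 1008) .out)) .out))) .out) .out) (.na 658 234 (.nx 657 832257 (.nr
  656 1048577 (.nr 651 222 .s1 (.nx 654 13005 (.nx 652 257 (.l1 (.ls 67 31 300)) (.nr 653 741457
  (.lg 0 true 1 79 79 29 0 1008) .out)) (.nr 655 16385 (.lg 0 false 1 83 83 29 0 13104) .out)))
  .out) .out) (.lg 0 false 1 0 0 16 0 24))) (.na 668 257 (.na 667 256 (.nx 666 832257 (.nr 665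
  1048577 (.nr 660 254 .s1 (.nx 661 257 (.l1 (.ls 61 29 263)) (.nr 664 741457 (.nr 662 16385 (.lg 0
  false 1 73 73 23 0 336) (.nx 663 13005 (.lg 0 true 1 73 73 23 0 5040) .out)) .out))) .out) .out)
  .ne) (.na 1438 512 (.nx 1437 832257 (.nr 1436 1482912 (.nr 669 257 .s1 (.nx 924 205 (.la (.ls 79
  19 166)) (.nr 1435 1048577 (.nr 1179 32769 (.la (.lg 0 false 1 73 73 23 0)) (.nx 1434 10323 (.la
  (.lg 0 true 1 71 71 23 0)) .out)) .out))) .out) .out) (.nx 2081 832257 (.nr 2080 1482912 (.nr
  1439 512 .s1 (.nx 1652 1627 (.la (.ls 79 37 5173)) (.nr 2079 524289 (.nx 1865 22297 (.la (.lg 0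
  false 1 67 67 23 0)) (.nr 2078 32769 (.la (.lg 2 false 1 59 59 23 119475)) .out)) .out))) .out)
  .out))))) (.na 10017 8192 (.na 3714 2048 (.na 2684 1024 (.nx 2683 10323 (.nr 2682 1048577 (.nr
  2083 725 .s1 (.nx 2382 2049 (.la (.ls 79 37 5793)) (.nr 2681 16385 (.la (.lg 0 true 1 31 31 29
  0)) .out))) .out) .out) (.na 3112 1449 (.nx 3111 10323 (.nr 3110 1048577 (.nr 2685 1024 .s1 (.la
  (.ls 61 53 104069))) .out) .out) (.nx 3713 2582 (.nr 3712 524289 (.nr 3113 1449 .s1 (.la (.ls 67
  37 4603))) .out) .out))) (.na 5768 4096 (.na 4566 2897 (.nx 4565 3252 (.nr 4564 524289 (.nr 3715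
  2048 .s1 (.la (.ls 61 37 5166))) .out) .out) (.nx 5767 2582 (.nr 5766 262145 (.nr 4567 2897 .s1
  (.la (.ls 53 37 2304))) .out) .out)) (.na 7468 5793 (.nx 7467 2582 (.nr 7466 262145 (.nr 5769
  4096 .s1 (.la (.ls 47 37 1630))) .out) .out) (.nx 10016 1292 (.nr 10015 65537 (.nr 7469 5793 .s1
  (.nx 7615 147 (.lx (.lp 16 0 2049)) (.nx 7616 148 (.l1 .sk) (.la (.ls 37 37 2049))))) .out)
  .out)))) (.na 13634 65536 (.na 11312 16384 (.nx 11311 1292 (.nr 11310 131073 (.nr 10018 8192 .s1
  (.nx 10222 205 (.lx (.lp 16 0 4097)) (.nr 11309 65537 (.lx (.lp 41 41 4097)) .out))) .out) .out)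
  (.na 12607 32768 (.nx 12606 1292 (.nr 12605 262145 (.nr 11313 16384 .s1 (.nx 11634 322 (.lx (.lp
  16 0 8193)) (.nr 12604 131073 (.lx (.lp 41 43 8193)) .out))) .out) .out) (.nx 13633 1025 (.nr
  13632 262145 (.nr 12608 32768 .s1 (.lx (.lp 41 47 16385))) .out) .out))) (.na 14663 262144 (.na
  14661 131072 (.nx 14660 1025 (.nr 14659 262145 (.nr 13635 65536 .s1 (.lx (.lp 43 53 32769)))
  .out) .out) (.nx 14662 324 (.l1 .sk) .out)) (.na 14665 524289 (.nx 14664 205 (.l1 .sk) .out)
  .out))))))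

theorem c102 :
    OkQ ckI L8 136 29 1099511627776 0 34359738368 1 1099511627776 ∧
    OkQ ckI L8 149 1 32 0 34359738368 1 1099511627776 ∧
    OkQ ckI L8 147 1 1099511627776 0 34359738368 1 1099511627776 := by
  refine ⟨?_, ?_, ?_⟩
  · refine fin 408 14261 T102_0 ?_
    refine jn 5 (by decide +kernel) ?_
    refine jn 12 (by decide +kernel) ?_
    refine jn 20 (by decide +kernel) ?_
    refine jn 31 (by decide +kernel) ?_
    refine jn 34 (by decide +kernel) ?_
    refine jn 40 (by decide +kernel) ?_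
    refine jn 51 (by decide +kernel) ?_
    refine jn 52 (by decide +kernel) ?_
    refine jn 53 (by decide +kernel) ?_
    refine jn 54 (by decide +kernel) ?_
    refine jn 55 (by decide +kernel) ?_
    refine jn 60 (by decide +kernel) ?_
    refine jn 66 (by decide +kernel) ?_
    refine jn 76 (by decide +kernel) ?_
    refine jn 84 (by decide +kernel) ?_
    refine jn 93 (by decide +kernel) ?_
    refine jn 95 (by decide +kernel) ?_
    refine jn 97 (by decide +kernel) ?_
    refine jn 99 (by decide +kernel) ?_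
    refine jn 100 (by decide +kernel) ?_
    refine jn 102 (by decide +kernel) ?_
    refine jn 112 (by decide +kernel) ?_
    refine jn 120 (by decide +kernel) ?_
    refine jn 130 (by decide +kernel) ?_
    refine jn 136 (by decide +kernel) ?_
    refine jn 142 (by decide +kernel) ?_
    refine jn 145 (by decide +kernel) ?_
    refine jn 148 (by decide +kernel) ?_
    refine jn 151 (by decide +kernel) ?_
    refine jn 164 (by decide +kernel) ?_
    refine jn 175 (by decide +kernel) ?_
    refine jn 186 (by decide +kernel) ?_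
    refine jn 194 (by decide +kernel) ?_
    refine jn 206 (by decide +kernel) ?_
    refine jn 221 (by decide +kernel) ?_
    refine jn 231 (by decide +kernel) ?_
    refine jn 236 (by decide +kernel) ?_
    refine jn 238 (by decide +kernel) ?_
    refine jn 250 (by decide +kernel) ?_
    refine jn 265 (by decide +kernel) ?_
    refine jn 280 (by decide +kernel) ?_
    refine jn 294 (by decide +kernel) ?_
    refine jn 307 (by decide +kernel) ?_
    refine jn 310 (by decide +kernel) ?_
    refine jn 313 (by decide +kernel) ?_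
    refine jn 324 (by decide +kernel) ?_
    refine jn 327 (by decide +kernel) ?_
    refine jn 338 (by decide +kernel) ?_
    refine jn 341 (by decide +kernel) ?_
    refine jn 354 (by decide +kernel) ?_
    refine jn 365 (by decide +kernel) ?_
    refine jn 368 (by decide +kernel) ?_
    refine jn 379 (by decide +kernel) ?_
    refine jn 382 (by decide +kernel) ?_
    refine jn 395 (by decide +kernel) ?_
    refine jn 407 (by decide +kernel) ?_
    refine jn 419 (by decide +kernel) ?_
    refine jn 431 (by decide +kernel) ?_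
    refine jn 443 (by decide +kernel) ?_
    refine jn 456 (by decide +kernel) ?_
    refine jn 466 (by decide +kernel) ?_
    refine jn 469 (by decide +kernel) ?_
    refine jn 478 (by decide +kernel) ?_
    refine jn 488 (by decide +kernel) ?_
    refine jn 500 (by decide +kernel) ?_
    refine jn 510 (by decide +kernel) ?_
    refine jn 521 (by decide +kernel) ?_
    refine jn 532 (by decide +kernel) ?_
    refine jn 543 (by decide +kernel) ?_
    refine jn 553 (by decide +kernel) ?_
    refine jn 562 (by decide +kernel) ?_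
    refine jn 571 (by decide +kernel) ?_
    refine jn 587 (by decide +kernel) ?_
    refine jn 597 (by decide +kernel) ?_
    refine jn 609 (by decide +kernel) ?_
    refine jn 620 (by decide +kernel) ?_
    refine jn 635 (by decide +kernel) ?_
    refine jn 645 (by decide +kernel) ?_
    refine jn 656 (by decide +kernel) ?_
    refine jn 666 (by decide +kernel) ?_
    refine jn 679 (by decide +kernel) ?_
    refine jn 690 (by decide +kernel) ?_
    refine jn 702 (by decide +kernel) ?_
    refine jn 712 (by decide +kernel) ?_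
    refine jn 722 (by decide +kernel) ?_
    refine jn 732 (by decide +kernel) ?_
    refine jn 786 (by decide +kernel) ?_
    refine jn 914 (by decide +kernel) ?_
    refine jn 946 (by decide +kernel) ?_
    refine jn 955 (by decide +kernel) ?_
    refine jn 956 (by decide +kernel) ?_
    refine jn 967 (by decide +kernel) ?_
    refine jn 968 (by decide +kernel) ?_
    refine jn 982 (by decide +kernel) ?_
    refine jn 983 (by decide +kernel) ?_
    refine jn 988 (by decide +kernel) ?_
    refine jn 992 (by decide +kernel) ?_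
    refine jn 998 (by decide +kernel) ?_
    refine jn 1004 (by decide +kernel) ?_
    refine jn 1019 (by decide +kernel) ?_
    refine jn 1022 (by decide +kernel) ?_
    refine jn 1030 (by decide +kernel) ?_
    refine jn 1040 (by decide +kernel) ?_
    refine jn 1043 (by decide +kernel) ?_
    refine jn 1054 (by decide +kernel) ?_
    refine jn 1067 (by decide +kernel) ?_
    refine jn 1068 (by decide +kernel) ?_
    refine jn 1082 (by decide +kernel) ?_
    refine jn 1096 (by decide +kernel) ?_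
    refine jn 1102 (by decide +kernel) ?_
    refine jn 1114 (by decide +kernel) ?_
    refine jn 1123 (by decide +kernel) ?_
    refine jn 1126 (by decide +kernel) ?_
    refine jn 1144 (by decide +kernel) ?_
    refine jn 1147 (by decide +kernel) ?_
    refine jn 1148 (by decide +kernel) ?_
    refine jn 1159 (by decide +kernel) ?_
    refine jn 1163 (by decide +kernel) ?_
    refine jn 1175 (by decide +kernel) ?_
    refine jn 1184 (by decide +kernel) ?_
    refine jn 1190 (by decide +kernel) ?_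
    refine jn 1201 (by decide +kernel) ?_
    refine jn 1210 (by decide +kernel) ?_
    refine jn 1219 (by decide +kernel) ?_
    refine jn 1222 (by decide +kernel) ?_
    refine jn 1223 (by decide +kernel) ?_
    refine jn 1237 (by decide +kernel) ?_
    refine jn 1243 (by decide +kernel) ?_
    refine jn 1249 (by decide +kernel) ?_
    refine jn 1259 (by decide +kernel) ?_
    refine jn 1274 (by decide +kernel) ?_
    refine jn 1282 (by decide +kernel) ?_
    refine jn 1286 (by decide +kernel) ?_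
    refine jn 1297 (by decide +kernel) ?_
    refine jn 1303 (by decide +kernel) ?_
    refine jn 1322 (by decide +kernel) ?_
    refine jn 1331 (by decide +kernel) ?_
    refine jn 1339 (by decide +kernel) ?_
    refine jn 1357 (by decide +kernel) ?_
    refine jn 1373 (by decide +kernel) ?_
    refine jn 1379 (by decide +kernel) ?_
    refine jn 1387 (by decide +kernel) ?_
    refine jn 1402 (by decide +kernel) ?_
    refine jn 1409 (by decide +kernel) ?_
    refine jn 1417 (by decide +kernel) ?_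
    refine jn 1429 (by decide +kernel) ?_
    refine jn 1435 (by decide +kernel) ?_
    refine jn 1445 (by decide +kernel) ?_
    refine jn 1596 (by decide +kernel) ?_
    refine jn 1681 (by decide +kernel) ?_
    refine jn 1684 (by decide +kernel) ?_
    refine jn 1685 (by decide +kernel) ?_
    refine jn 1700 (by decide +kernel) ?_
    refine jn 1705 (by decide +kernel) ?_
    refine jn 1721 (by decide +kernel) ?_
    refine jn 1732 (by decide +kernel) ?_
    refine jn 1733 (by decide +kernel) ?_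
    refine jn 1745 (by decide +kernel) ?_
    refine jn 1772 (by decide +kernel) ?_
    refine jn 1775 (by decide +kernel) ?_
    refine jn 1784 (by decide +kernel) ?_
    refine jn 1796 (by decide +kernel) ?_
    refine jn 1805 (by decide +kernel) ?_
    refine jn 1817 (by decide +kernel) ?_
    refine jn 1819 (by decide +kernel) ?_
    refine jn 1832 (by decide +kernel) ?_
    refine jn 1852 (by decide +kernel) ?_
    refine jn 1855 (by decide +kernel) ?_
    refine jn 1865 (by decide +kernel) ?_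
    refine jn 1876 (by decide +kernel) ?_
    refine jn 1894 (by decide +kernel) ?_
    refine jn 1897 (by decide +kernel) ?_
    refine jn 1901 (by decide +kernel) ?_
    refine jn 1913 (by decide +kernel) ?_
    refine jn 1918 (by decide +kernel) ?_
    refine jn 1933 (by decide +kernel) ?_
    refine jn 1940 (by decide +kernel) ?_
    refine jn 1945 (by decide +kernel) ?_
    refine jn 1946 (by decide +kernel) ?_
    refine jn 1958 (by decide +kernel) ?_
    refine jn 1985 (by decide +kernel) ?_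
    refine jn 1988 (by decide +kernel) ?_
    refine jn 1997 (by decide +kernel) ?_
    refine jn 2009 (by decide +kernel) ?_
    refine jn 2018 (by decide +kernel) ?_
    refine jn 2030 (by decide +kernel) ?_
    refine jn 2032 (by decide +kernel) ?_
    refine jn 2045 (by decide +kernel) ?_
    refine jn 2057 (by decide +kernel) ?_
    refine jn 2068 (by decide +kernel) ?_
    refine jn 2078 (by decide +kernel) ?_
    refine jn 2089 (by decide +kernel) ?_
    refine jn 2120 (by decide +kernel) ?_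
    refine jn 2166 (by decide +kernel) ?_
    refine jn 2205 (by decide +kernel) ?_
    refine jn 2238 (by decide +kernel) ?_
    refine jn 2275 (by decide +kernel) ?_
    refine jn 2326 (by decide +kernel) ?_
    refine jn 2367 (by decide +kernel) ?_
    refine jn 2400 (by decide +kernel) ?_
    refine jn 2420 (by decide +kernel) ?_
    refine jn 2438 (by decide +kernel) ?_
    refine jn 2474 (by decide +kernel) ?_
    refine jn 2481 (by decide +kernel) ?_
    refine jn 2502 (by decide +kernel) ?_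
    refine jn 2529 (by decide +kernel) ?_
    refine jn 2541 (by decide +kernel) ?_
    refine jn 2574 (by decide +kernel) ?_
    refine jn 2600 (by decide +kernel) ?_
    refine jn 2640 (by decide +kernel) ?_
    refine jn 2658 (by decide +kernel) ?_
    refine jn 2682 (by decide +kernel) ?_
    refine jn 2709 (by decide +kernel) ?_
    refine jn 2749 (by decide +kernel) ?_
    refine jn 2796 (by decide +kernel) ?_
    refine jn 2842 (by decide +kernel) ?_
    refine jn 2893 (by decide +kernel) ?_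
    refine jn 2922 (by decide +kernel) ?_
    refine jn 2961 (by decide +kernel) ?_
    refine jn 3006 (by decide +kernel) ?_
    refine jn 3045 (by decide +kernel) ?_
    refine jn 3082 (by decide +kernel) ?_
    refine jn 3121 (by decide +kernel) ?_
    refine jn 3153 (by decide +kernel) ?_
    refine jn 3174 (by decide +kernel) ?_
    refine jn 3195 (by decide +kernel) ?_
    refine jn 3237 (by decide +kernel) ?_
    refine jn 3263 (by decide +kernel) ?_
    refine jn 3303 (by decide +kernel) ?_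
    refine jn 3327 (by decide +kernel) ?_
    refine jn 3351 (by decide +kernel) ?_
    refine jn 3383 (by decide +kernel) ?_
    refine jn 3393 (by decide +kernel) ?_
    refine jn 3434 (by decide +kernel) ?_
    refine jn 3459 (by decide +kernel) ?_
    refine jn 3495 (by decide +kernel) ?_
    refine jn 3510 (by decide +kernel) ?_
    refine jn 3537 (by decide +kernel) ?_
    refine jn 3595 (by decide +kernel) ?_
    refine jn 3666 (by decide +kernel) ?_
    refine jn 3717 (by decide +kernel) ?_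
    refine jn 3762 (by decide +kernel) ?_
    refine jn 3817 (by decide +kernel) ?_
    refine jn 3858 (by decide +kernel) ?_
    refine jn 3913 (by decide +kernel) ?_
    refine jn 3979 (by decide +kernel) ?_
    refine jn 4050 (by decide +kernel) ?_
    refine jn 4095 (by decide +kernel) ?_
    refine jn 4301 (by decide +kernel) ?_
    refine jn 4349 (by decide +kernel) ?_
    refine jn 4407 (by decide +kernel) ?_
    refine jn 4454 (by decide +kernel) ?_
    refine jn 4503 (by decide +kernel) ?_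
    refine jn 4577 (by decide +kernel) ?_
    refine jn 4622 (by decide +kernel) ?_
    refine jn 4691 (by decide +kernel) ?_
    refine jn 4742 (by decide +kernel) ?_
    refine jn 4826 (by decide +kernel) ?_
    refine jn 4889 (by decide +kernel) ?_
    refine jn 4950 (by decide +kernel) ?_
    refine jn 5021 (by decide +kernel) ?_
    refine jn 5094 (by decide +kernel) ?_
    refine jn 5142 (by decide +kernel) ?_
    refine jn 5323 (by decide +kernel) ?_
    refine jn 5419 (by decide +kernel) ?_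
    refine jn 5501 (by decide +kernel) ?_
    refine jn 5602 (by decide +kernel) ?_
    refine jn 5681 (by decide +kernel) ?_
    refine jn 5738 (by decide +kernel) ?_
    refine jn 5809 (by decide +kernel) ?_
    refine jn 5890 (by decide +kernel) ?_
    refine jn 5962 (by decide +kernel) ?_
    refine jn 6055 (by decide +kernel) ?_
    refine jn 6134 (by decide +kernel) ?_
    refine jn 6218 (by decide +kernel) ?_
    refine jn 6311 (by decide +kernel) ?_
    refine jn 6371 (by decide +kernel) ?_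
    refine jn 6467 (by decide +kernel) ?_
    refine jn 6637 (by decide +kernel) ?_
    refine jn 6733 (by decide +kernel) ?_
    refine jn 6831 (by decide +kernel) ?_
    refine jn 6925 (by decide +kernel) ?_
    refine jn 7029 (by decide +kernel) ?_
    refine jn 7122 (by decide +kernel) ?_
    refine jn 7198 (by decide +kernel) ?_
    refine jn 7299 (by decide +kernel) ?_
    refine jn 7419 (by decide +kernel) ?_
    refine jn 7507 (by decide +kernel) ?_
    refine jn 7587 (by decide +kernel) ?_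
    refine jn 7687 (by decide +kernel) ?_
    refine jn 7785 (by decide +kernel) ?_
    refine jn 7885 (by decide +kernel) ?_
    refine jn 7966 (by decide +kernel) ?_
    refine jn 8085 (by decide +kernel) ?_
    refine jn 8166 (by decide +kernel) ?_
    refine jn 8269 (by decide +kernel) ?_
    refine jn 8595 (by decide +kernel) ?_
    refine jn 8831 (by decide +kernel) ?_
    refine jn 8951 (by decide +kernel) ?_
    refine jn 9103 (by decide +kernel) ?_
    refine jn 9233 (by decide +kernel) ?_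
    refine jn 9325 (by decide +kernel) ?_
    refine jn 9403 (by decide +kernel) ?_
    refine jn 9474 (by decide +kernel) ?_
    refine jn 9539 (by decide +kernel) ?_
    refine jn 9599 (by decide +kernel) ?_
    refine jn 9919 (by decide +kernel) ?_
    refine jn 10100 (by decide +kernel) ?_
    refine jn 10217 (by decide +kernel) ?_
    refine jn 10300 (by decide +kernel) ?_
    refine jn 10370 (by decide +kernel) ?_
    refine jn 10455 (by decide +kernel) ?_
    refine jn 10520 (by decide +kernel) ?_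
    refine jn 10599 (by decide +kernel) ?_
    refine jn 10649 (by decide +kernel) ?_
    refine jn 10721 (by decide +kernel) ?_
    refine jn 10776 (by decide +kernel) ?_
    refine jn 10831 (by decide +kernel) ?_
    refine jn 10878 (by decide +kernel) ?_
    refine jn 11128 (by decide +kernel) ?_
    refine jn 11379 (by decide +kernel) ?_
    refine jn 11525 (by decide +kernel) ?_
    refine jn 11670 (by decide +kernel) ?_
    refine jn 11783 (by decide +kernel) ?_
    refine jn 11874 (by decide +kernel) ?_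
    refine jn 11938 (by decide +kernel) ?_
    refine jn 12013 (by decide +kernel) ?_
    refine jn 12085 (by decide +kernel) ?_
    refine jn 12160 (by decide +kernel) ?_
    refine jn 12462 (by decide +kernel) ?_
    refine jn 12761 (by decide +kernel) ?_
    refine jn 12925 (by decide +kernel) ?_
    refine jn 13100 (by decide +kernel) ?_
    refine jn 13299 (by decide +kernel) ?_
    refine jn 13755 (by decide +kernel) ?_
    refine jn 14083 (by decide +kernel) ?_
    refine jn 14254 (by decide +kernel) ?_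
    exact je (by decide +kernel)
  · refine fin 72 1077 T102_1 ?_
    refine jn 9 (by decide +kernel) ?_
    refine jn 12 (by decide +kernel) ?_
    refine jn 18 (by decide +kernel) ?_
    refine jn 23 (by decide +kernel) ?_
    refine jn 27 (by decide +kernel) ?_
    refine jn 33 (by decide +kernel) ?_
    refine jn 36 (by decide +kernel) ?_
    refine jn 39 (by decide +kernel) ?_
    refine jn 47 (by decide +kernel) ?_
    refine jn 52 (by decide +kernel) ?_
    refine jn 60 (by decide +kernel) ?_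
    refine jn 64 (by decide +kernel) ?_
    refine jn 69 (by decide +kernel) ?_
    refine jn 74 (by decide +kernel) ?_
    refine jn 78 (by decide +kernel) ?_
    refine jn 85 (by decide +kernel) ?_
    refine jn 88 (by decide +kernel) ?_
    refine jn 94 (by decide +kernel) ?_
    refine jn 101 (by decide +kernel) ?_
    refine jn 107 (by decide +kernel) ?_
    refine jn 113 (by decide +kernel) ?_
    refine jn 119 (by decide +kernel) ?_
    refine jn 125 (by decide +kernel) ?_
    refine jn 129 (by decide +kernel) ?_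
    refine jn 157 (by decide +kernel) ?_
    refine jn 170 (by decide +kernel) ?_
    refine jn 183 (by decide +kernel) ?_
    refine jn 203 (by decide +kernel) ?_
    refine jn 212 (by decide +kernel) ?_
    refine jn 240 (by decide +kernel) ?_
    refine jn 262 (by decide +kernel) ?_
    refine jn 272 (by decide +kernel) ?_
    refine jn 301 (by decide +kernel) ?_
    refine jn 312 (by decide +kernel) ?_
    refine jn 318 (by decide +kernel) ?_
    refine jn 324 (by decide +kernel) ?_
    refine jn 329 (by decide +kernel) ?_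
    refine jn 336 (by decide +kernel) ?_
    refine jn 341 (by decide +kernel) ?_
    refine jn 346 (by decide +kernel) ?_
    refine jn 351 (by decide +kernel) ?_
    refine jn 357 (by decide +kernel) ?_
    refine jn 359 (by decide +kernel) ?_
    refine jn 372 (by decide +kernel) ?_
    refine jn 398 (by decide +kernel) ?_
    refine jn 424 (by decide +kernel) ?_
    refine jn 441 (by decide +kernel) ?_
    refine jn 463 (by decide +kernel) ?_
    refine jn 481 (by decide +kernel) ?_
    refine jn 500 (by decide +kernel) ?_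
    refine jn 509 (by decide +kernel) ?_
    refine jn 510 (by decide +kernel) ?_
    refine jn 511 (by decide +kernel) ?_
    refine jn 512 (by decide +kernel) ?_
    refine jn 513 (by decide +kernel) ?_
    refine jn 514 (by decide +kernel) ?_
    refine jn 515 (by decide +kernel) ?_
    refine jn 516 (by decide +kernel) ?_
    refine jn 517 (by decide +kernel) ?_
    refine jn 518 (by decide +kernel) ?_
    refine jn 520 (by decide +kernel) ?_
    refine jn 535 (by decide +kernel) ?_
    refine jn 540 (by decide +kernel) ?_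
    refine jn 543 (by decide +kernel) ?_
    refine jn 546 (by decide +kernel) ?_
    refine jn 549 (by decide +kernel) ?_
    refine jn 550 (by decide +kernel) ?_
    refine jn 554 (by decide +kernel) ?_
    refine jn 567 (by decide +kernel) ?_
    refine jn 572 (by decide +kernel) ?_
    refine jn 585 (by decide +kernel) ?_
    refine jn 598 (by decide +kernel) ?_
    refine jn 606 (by decide +kernel) ?_
    refine jn 641 (by decide +kernel) ?_
    refine jn 648 (by decide +kernel) ?_
    refine jn 649 (by decide +kernel) ?_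
    refine jn 651 (by decide +kernel) ?_
    refine jn 652 (by decide +kernel) ?_
    refine jn 654 (by decide +kernel) ?_
    refine jn 655 (by decide +kernel) ?_
    refine jn 670 (by decide +kernel) ?_
    refine jn 674 (by decide +kernel) ?_
    refine jn 676 (by decide +kernel) ?_
    refine jn 679 (by decide +kernel) ?_
    refine jn 682 (by decide +kernel) ?_
    refine jn 689 (by decide +kernel) ?_
    refine jn 696 (by decide +kernel) ?_
    refine jn 703 (by decide +kernel) ?_
    refine jn 711 (by decide +kernel) ?_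
    refine jn 718 (by decide +kernel) ?_
    refine jn 725 (by decide +kernel) ?_
    refine jn 734 (by decide +kernel) ?_
    refine jn 763 (by decide +kernel) ?_
    refine jn 770 (by decide +kernel) ?_
    refine jn 771 (by decide +kernel) ?_
    refine jn 773 (by decide +kernel) ?_
    refine jn 775 (by decide +kernel) ?_
    refine jn 776 (by decide +kernel) ?_
    refine jn 784 (by decide +kernel) ?_
    refine jn 790 (by decide +kernel) ?_
    refine jn 794 (by decide +kernel) ?_
    refine jn 801 (by decide +kernel) ?_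
    refine jn 808 (by decide +kernel) ?_
    refine jn 818 (by decide +kernel) ?_
    refine jn 826 (by decide +kernel) ?_
    refine jn 829 (by decide +kernel) ?_
    refine jn 831 (by decide +kernel) ?_
    refine jn 835 (by decide +kernel) ?_
    refine jn 838 (by decide +kernel) ?_
    refine jn 845 (by decide +kernel) ?_
    refine jn 852 (by decide +kernel) ?_
    refine jn 861 (by decide +kernel) ?_
    refine jn 875 (by decide +kernel) ?_
    refine jn 877 (by decide +kernel) ?_
    refine jn 878 (by decide +kernel) ?_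
    refine jn 879 (by decide +kernel) ?_
    refine jn 880 (by decide +kernel) ?_
    refine jn 881 (by decide +kernel) ?_
    refine jn 882 (by decide +kernel) ?_
    refine jn 883 (by decide +kernel) ?_
    refine jn 884 (by decide +kernel) ?_
    refine jn 888 (by decide +kernel) ?_
    refine jn 889 (by decide +kernel) ?_
    refine jn 890 (by decide +kernel) ?_
    refine jn 891 (by decide +kernel) ?_
    refine jn 892 (by decide +kernel) ?_
    refine jn 893 (by decide +kernel) ?_
    refine jn 898 (by decide +kernel) ?_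
    refine jn 900 (by decide +kernel) ?_
    refine jn 901 (by decide +kernel) ?_
    refine jn 904 (by decide +kernel) ?_
    refine jn 910 (by decide +kernel) ?_
    refine jn 912 (by decide +kernel) ?_
    refine jn 924 (by decide +kernel) ?_
    refine jn 928 (by decide +kernel) ?_
    refine jn 938 (by decide +kernel) ?_
    refine jn 941 (by decide +kernel) ?_
    refine jn 948 (by decide +kernel) ?_
    refine jn 960 (by decide +kernel) ?_
    refine jn 964 (by decide +kernel) ?_
    refine jn 975 (by decide +kernel) ?_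
    refine jn 978 (by decide +kernel) ?_
    refine jn 985 (by decide +kernel) ?_
    refine jn 998 (by decide +kernel) ?_
    refine jn 1004 (by decide +kernel) ?_
    refine jn 1013 (by decide +kernel) ?_
    refine jn 1020 (by decide +kernel) ?_
    refine jn 1030 (by decide +kernel) ?_
    refine jn 1037 (by decide +kernel) ?_
    refine jn 1044 (by decide +kernel) ?_
    refine jn 1055 (by decide +kernel) ?_
    refine jn 1058 (by decide +kernel) ?_
    refine jn 1059 (by decide +kernel) ?_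
    refine jn 1060 (by decide +kernel) ?_
    refine jn 1061 (by decide +kernel) ?_
    refine jn 1064 (by decide +kernel) ?_
    refine jn 1070 (by decide +kernel) ?_
    exact je (by decide +kernel)
  · refine fin 168 14666 T102_2 ?_
    refine jn 10 (by decide +kernel) ?_
    refine jn 16 (by decide +kernel) ?_
    refine jn 24 (by decide +kernel) ?_
    refine jn 32 (by decide +kernel) ?_
    refine jn 39 (by decide +kernel) ?_
    refine jn 47 (by decide +kernel) ?_
    refine jn 54 (by decide +kernel) ?_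
    refine jn 59 (by decide +kernel) ?_
    refine jn 67 (by decide +kernel) ?_
    refine jn 76 (by decide +kernel) ?_
    refine jn 79 (by decide +kernel) ?_
    refine jn 90 (by decide +kernel) ?_
    refine jn 109 (by decide +kernel) ?_
    refine jn 128 (by decide +kernel) ?_
    refine jn 145 (by decide +kernel) ?_
    refine jn 163 (by decide +kernel) ?_
    refine jn 183 (by decide +kernel) ?_
    refine jn 207 (by decide +kernel) ?_
    refine jn 216 (by decide +kernel) ?_
    refine jn 221 (by decide +kernel) ?_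
    refine jn 233 (by decide +kernel) ?_
    refine jn 244 (by decide +kernel) ?_
    refine jn 260 (by decide +kernel) ?_
    refine jn 277 (by decide +kernel) ?_
    refine jn 313 (by decide +kernel) ?_
    refine jn 334 (by decide +kernel) ?_
    refine jn 342 (by decide +kernel) ?_
    refine jn 350 (by decide +kernel) ?_
    refine jn 362 (by decide +kernel) ?_
    refine jn 363 (by decide +kernel) ?_
    refine jn 364 (by decide +kernel) ?_
    refine jn 365 (by decide +kernel) ?_
    refine jn 366 (by decide +kernel) ?_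
    refine jn 367 (by decide +kernel) ?_
    refine jn 368 (by decide +kernel) ?_
    refine jn 369 (by decide +kernel) ?_
    refine jn 370 (by decide +kernel) ?_
    refine jn 371 (by decide +kernel) ?_
    refine jn 372 (by decide +kernel) ?_
    refine jn 373 (by decide +kernel) ?_
    refine jn 390 (by decide +kernel) ?_
    refine jn 403 (by decide +kernel) ?_
    refine jn 404 (by decide +kernel) ?_
    refine jn 405 (by decide +kernel) ?_
    refine jn 406 (by decide +kernel) ?_
    refine jn 407 (by decide +kernel) ?_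
    refine jn 408 (by decide +kernel) ?_
    refine jn 409 (by decide +kernel) ?_
    refine jn 410 (by decide +kernel) ?_
    refine jn 411 (by decide +kernel) ?_
    refine jn 412 (by decide +kernel) ?_
    refine jn 413 (by decide +kernel) ?_
    refine jn 414 (by decide +kernel) ?_
    refine jn 415 (by decide +kernel) ?_
    refine jn 420 (by decide +kernel) ?_
    refine jn 431 (by decide +kernel) ?_
    refine jn 436 (by decide +kernel) ?_
    refine jn 443 (by decide +kernel) ?_
    refine jn 463 (by decide +kernel) ?_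
    refine jn 476 (by decide +kernel) ?_
    refine jn 482 (by decide +kernel) ?_
    refine jn 491 (by decide +kernel) ?_
    refine jn 492 (by decide +kernel) ?_
    refine jn 493 (by decide +kernel) ?_
    refine jn 494 (by decide +kernel) ?_
    refine jn 495 (by decide +kernel) ?_
    refine jn 511 (by decide +kernel) ?_
    refine jn 526 (by decide +kernel) ?_
    refine jn 535 (by decide +kernel) ?_
    refine jn 538 (by decide +kernel) ?_
    refine jn 539 (by decide +kernel) ?_
    refine jn 540 (by decide +kernel) ?_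
    refine jn 543 (by decide +kernel) ?_
    refine jn 555 (by decide +kernel) ?_
    refine jn 570 (by decide +kernel) ?_
    refine jn 583 (by decide +kernel) ?_
    refine jn 595 (by decide +kernel) ?_
    refine jn 613 (by decide +kernel) ?_
    refine jn 622 (by decide +kernel) ?_
    refine jn 638 (by decide +kernel) ?_
    refine jn 653 (by decide +kernel) ?_
    refine jn 663 (by decide +kernel) ?_
    refine jn 878 (by decide +kernel) ?_
    refine jn 945 (by decide +kernel) ?_
    refine jn 961 (by decide +kernel) ?_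
    refine jn 962 (by decide +kernel) ?_
    refine jn 1005 (by decide +kernel) ?_
    refine jn 1053 (by decide +kernel) ?_
    refine jn 1089 (by decide +kernel) ?_
    refine jn 1113 (by decide +kernel) ?_
    refine jn 1149 (by decide +kernel) ?_
    refine jn 1180 (by decide +kernel) ?_
    refine jn 1216 (by decide +kernel) ?_
    refine jn 1224 (by decide +kernel) ?_
    refine jn 1260 (by decide +kernel) ?_
    refine jn 1308 (by decide +kernel) ?_
    refine jn 1356 (by decide +kernel) ?_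
    refine jn 1396 (by decide +kernel) ?_
    refine jn 1445 (by decide +kernel) ?_
    refine jn 1581 (by decide +kernel) ?_
    refine jn 1678 (by decide +kernel) ?_
    refine jn 1722 (by decide +kernel) ?_
    refine jn 1766 (by decide +kernel) ?_
    refine jn 1826 (by decide +kernel) ?_
    refine jn 1838 (by decide +kernel) ?_
    refine jn 1895 (by decide +kernel) ?_
    refine jn 1919 (by decide +kernel) ?_
    refine jn 1971 (by decide +kernel) ?_
    refine jn 2027 (by decide +kernel) ?_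
    refine jn 2039 (by decide +kernel) ?_
    refine jn 2051 (by decide +kernel) ?_
    refine jn 2156 (by decide +kernel) ?_
    refine jn 2284 (by decide +kernel) ?_
    refine jn 2403 (by decide +kernel) ?_
    refine jn 2491 (by decide +kernel) ?_
    refine jn 2599 (by decide +kernel) ?_
    refine jn 2707 (by decide +kernel) ?_
    refine jn 2779 (by decide +kernel) ?_
    refine jn 2839 (by decide +kernel) ?_
    refine jn 2899 (by decide +kernel) ?_
    refine jn 2935 (by decide +kernel) ?_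
    refine jn 2936 (by decide +kernel) ?_
    refine jn 3035 (by decide +kernel) ?_
    refine jn 3110 (by decide +kernel) ?_
    refine jn 3290 (by decide +kernel) ?_
    refine jn 3478 (by decide +kernel) ?_
    refine jn 3650 (by decide +kernel) ?_
    refine jn 3793 (by decide +kernel) ?_
    refine jn 3970 (by decide +kernel) ?_
    refine jn 4185 (by decide +kernel) ?_
    refine jn 4341 (by decide +kernel) ?_
    refine jn 4553 (by decide +kernel) ?_
    refine jn 4736 (by decide +kernel) ?_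
    refine jn 4988 (by decide +kernel) ?_
    refine jn 5224 (by decide +kernel) ?_
    refine jn 5428 (by decide +kernel) ?_
    refine jn 5664 (by decide +kernel) ?_
    refine jn 5891 (by decide +kernel) ?_
    refine jn 6159 (by decide +kernel) ?_
    refine jn 6427 (by decide +kernel) ?_
    refine jn 6619 (by decide +kernel) ?_
    refine jn 6919 (by decide +kernel) ?_
    refine jn 7187 (by decide +kernel) ?_
    refine jn 7439 (by decide +kernel) ?_
    refine jn 7880 (by decide +kernel) ?_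
    refine jn 8268 (by decide +kernel) ?_
    refine jn 8669 (by decide +kernel) ?_
    refine jn 9025 (by decide +kernel) ?_
    refine jn 9425 (by decide +kernel) ?_
    refine jn 9817 (by decide +kernel) ?_
    refine jn 10294 (by decide +kernel) ?_
    refine jn 10540 (by decide +kernel) ?_
    refine jn 10719 (by decide +kernel) ?_
    refine jn 10843 (by decide +kernel) ?_
    refine jn 10946 (by decide +kernel) ?_
    refine jn 11038 (by decide +kernel) ?_
    refine jn 11115 (by decide +kernel) ?_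
    refine jn 11176 (by decide +kernel) ?_
    refine jn 11234 (by decide +kernel) ?_
    refine jn 11292 (by decide +kernel) ?_
    refine jn 11727 (by decide +kernel) ?_
    refine jn 11996 (by decide +kernel) ?_
    refine jn 12181 (by decide +kernel) ?_
    refine jn 12324 (by decide +kernel) ?_
    refine jn 12452 (by decide +kernel) ?_
    refine jn 12561 (by decide +kernel) ?_
    refine jn 13034 (by decide +kernel) ?_
    refine jn 13379 (by decide +kernel) ?_
    refine jn 13610 (by decide +kernel) ?_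
    refine jn 14271 (by decide +kernel) ?_
    refine jn 14585 (by decide +kernel) ?_
    exact je (by decide +kernel)

end Pool.Agent.MP_2339ce_nt.NR
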