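import Pool.Agent.MP_2339ce_nt.Q2.NC.L8
import Pool.Agent.MP_2339ce_nt.Q2.NC.L9
import Pool.Agent.MP_2339ce_nt.Q2.CkI

/-! Block NR: runs. -/

set_option autoImplicit false
set_option maxRecDepth 100000

noncomputable section

namespace Pool.Agent.MP_2339ce_nt.NR

open Q2.Top

def T11_0 : Ph :=
  (.na 1192 149 (.na 902 69 (.na 722 32 (.na 504 9 (.na 383 4 (.na 1 2 .ne (.na 207 3 (.nx 206
  3329023 (.nr 205 623489 (.nx 3 137 (.nr 2 22 (.lg 0 true 1 37 37 5 0 144) (.l1 .sk)) (.nx 4 138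
  (.l1 .sk) (.nr 189 131073 (.nx 170 1664512 (.nx 39 18516 (.lg 0 false 35 89 101 13 0 5040) (.nr
  86 2437 (.nr 74 450 (.lg 0 true 35 83 83 13 0 5040) (.nx 85 416129 (.lg 2 true 11 83 89 9 63345
  1584) .out)) (.nx 169 330282 (.nx 121 32769 (.lg 1 false 35 89 101 13 66504 65520) (.nr 168 92683
  (.nx 156 82572 (.lg 1 true 35 89 103 13 26583 65520) (.nr 167 77937 (.lg 2 false 11 103 103 9
  9284 720720) .out)) .out)) .out))) (.nr 188 9 (.lg 0 true 18 61 61 9 0 144) .out)) (.nx 204 257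
  (.lg 0 false 15 73 73 9 0 720) .out)))) .out) .out) (.nx 382 6658044 (.nr 381 1482912 (.nx 210
  138 (.nx 209 137 (.nr 208 32 (.lg 0 true 1 29 29 5 0 72) (.l1 .sk)) (.l1 .sk)) (.nr 367 131073
  (.nx 331 1048577 (.nx 245 27236 (.lg 0 false 35 89 101 16 0 55440) (.nx 323 524289 (.nr 265 364
  (.lg 0 true 20 73 73 16 0 720) (.nx 322 262145 (.nx 285 57052 (.lg 1 false 20 89 101 16 45211
  7920) (.nx 305 104033 (.lg 1 true 20 83 101 16 21583 7920) (.nr 321 65537 (.nr 310 1453 (.lg 2
  true 5 79 79 7 49333 360) (.nr 314 2904 (.lg 2 true 4 73 79 7 12359 144) (.lg 2 false 7 101 103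
  13 6184 55440))) .out))) .out)) (.nr 330 129 (.lg 0 true 7 73 73 13 0 504) .out))) (.nr 366 33
  (.lg 0 true 35 73 73 16 0 2520) .out)) (.nx 380 257 (.lg 0 false 13 73 79 16 0 936) .out))) .out)
  .out))) (.na 384 6 .ne (.na 503 7 (.nx 502 13316087 (.nr 501 623489 (.nx 387 138 (.nx 386 137
  (.nr 385 57 (.lg 0 true 1 31 31 7 0 720) (.l1 .sk)) (.l1 .sk)) (.nx 474 1664512 (.nx 466 832257
  (.nx 414 16384 (.nr 406 220437 (.nr 398 92683 (.lg 0 false 11 97 101 17 0 55440) (.nx 405 3252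
  (.lg 0 false 7 89 97 13 0 5040) .out)) (.nx 413 647 (.lg 0 false 7 83 83 13 0 5040) .out)) (.nr
  465 155873 (.nr 425 1026 (.lg 0 true 11 89 89 17 0 7920) (.nx 464 660563 (.nr 430 4102 (.lg 2
  true 5 83 89 13 44102 5040) (.nr 432 8201 (.lg 2 true 2 83 83 7 11031 144) (.nx 447 52015 (.nr
  446 131073 (.nx 439 28089 (.lg 1 false 7 89 101 13 75158 5040) (.lg 1 false 7 97 103 13 43838
  55440)) .out) (.nx 458 131073 (.lg 1 true 11 101 107 17 28148 720720) (.nr 463 65537 (.lg 2 false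
  5 89 97 13 5518 5040) .out))))) .out)) .out)) (.nr 473 129 (.lg 0 true 7 73 73 13 0 1008) .out))
  (.nr 500 28 (.lg 0 true 26 79 79 13 0 1872) .out))) .out) .out) .ne))) (.na 638 18 (.na 595 10
  (.nx 594 13316087 (.nr 593 623489 (.nx 528 20642 (.nx 506 137 (.nr 505 83 (.lg 0 true 1 23 23 7 0
  360) (.l1 .sk)) (.nx 507 138 (.l1 .sk) (.nr 518 110219 (.lg 0 false 11 83 89 16 0 3960) (.nx 527
  2582 (.nx 525 1627 (.lg 0 false 7 79 83 16 0 2520) (.nr 526 131073 (.lg 0 true 1 71 71 7 0 72)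
  .out)) .out)))) (.nr 592 131073 (.nx 563 1664512 (.nr 543 745 (.nx 535 832257 (.lg 0 true 7 79 79
  16 0 2520) (.nr 542 129 (.lg 0 true 7 71 71 16 0 504) .out)) (.nx 562 524289 (.nr 544 1527 (.lg 2
  false 1 73 73 7 48207 72) (.nx 551 46340 (.lg 1 false 7 83 89 16 59654 2520) (.lg 2 false 11 97
  101 16 26573 360360))) .out)) (.nr 591 65 (.lg 0 true 28 73 79 16 0 1008) .out)) .out)) .out)
  .out) (.na 596 17 .ne (.nx 637 1664512 (.nr 636 1048577 (.nr 597 13 .s1 (.nx 599 137 (.nr 598 149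
  (.lg 0 false 1 19 19 11 0 72) (.l1 .sk)) (.nx 600 138 (.l1 .sk) (.nx 630 262145 (.nx 613 13005
  (.nx 601 257 (.l1 (.ls 79 37 2768)) (.nr 612 623489 (.nr 606 220437 (.lg 0 false 5 83 83 16 0
  360) (.nx 611 1627 (.lg 0 false 5 73 73 16 0 360) .out)) .out)) (.nr 629 92683 (.nr 618 1854 (.lg
  0 true 5 73 73 16 0 360) (.nx 623 41287 (.lg 1 false 5 83 83 16 66983 360) (.nr 628 77937 (.lg 2
  false 5 83 83 16 17747 360) .out))) .out)) (.nr 635 217 (.lg 0 true 5 67 67 16 0 360) .out)))))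
  .out) .out))) (.na 673 23 (.nx 672 1664512 (.nr 671 1048577 (.nr 639 14 .s1 (.nx 642 138 (.nx 641
  137 (.nr 640 191 (.lg 0 false 1 19 19 13 0 144) (.l1 .sk)) (.l1 .sk)) (.nx 655 23171 (.nx 643 257
  (.l1 (.ls 73 43 2614)) (.nr 654 623489 (.nr 648 220437 (.lg 0 false 5 89 89 19 0 720) (.nx 653
  1627 (.lg 0 false 5 73 73 19 0 720) .out)) .out)) (.nr 670 92683 (.nr 662 634 (.lg 0 true 7 73 73
  19 0 1008) (.nx 669 262145 (.lg 2 false 7 83 89 19 37594 1008) .out)) .out)))) .out) .out) (.na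
  698 27 (.nx 697 1664512 (.nr 696 1048577 (.nr 674 20 .s1 (.nx 678 257 (.nx 676 137 (.nr 675 224
  (.lg 0 false 1 16 16 11 0 72) (.l1 .sk)) (.nx 677 138 (.l1 .sk) (.l1 (.ls 73 31 2046)))) (.nr 695
  311745 (.nx 683 20644 (.lg 0 false 5 83 89 16 0 360) (.nr 694 77937 (.nr 688 513 (.lg 0 true 5 71
  71 16 0 360) (.nx 693 165142 (.lg 2 false 5 83 83 16 35493 360) .out)) .out)) .out))) .out) .out)
  (.nx 721 1664512 (.nr 720 1048577 (.nr 699 25 .s1 (.nx 703 257 (.nx 701 137 (.nr 700 266 (.l1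
  (.ls 17 29 698)) (.l1 .sk)) (.nx 702 138 (.l1 .sk) (.l1 (.ls 71 31 1743)))) (.nr 719 311745 (.nx
  708 20644 (.lg 0 false 5 83 83 16 0 360) (.nr 718 77937 (.nr 713 513 (.lg 0 true 5 67 67 16 0
  360) (.nx 717 165142 (.lg 2 false 4 79 83 16 35493 144) .out)) .out)) .out))) .out) .out)))))
  (.na 817 51 (.na 763 43 (.na 723 34 .ne (.na 744 37 (.nx 743 1664512 (.nr 742 881745 (.nr 724 32
  .s1 (.nx 733 20644 (.nx 725 257 (.l1 (.ls 79 41 1945)) (.nr 732 440873 (.lg 0 false 7 89 97 23 0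
  5040) .out)) (.nr 741 46342 (.nr 738 307 (.lg 0 true 5 71 71 13 0 720) (.nx 740 104033 (.lg 2
  true 2 83 83 13 23213 144) .out)) .out))) .out) .out) (.nx 762 1664512 (.nr 761 881745 (.nr 745
  36 .s1 (.nx 752 20644 (.nx 746 257 (.l1 (.ls 73 29 1788)) (.nr 751 440873 (.lg 0 false 5 83 89 16
  0 360) .out)) (.nr 760 46342 (.nr 757 357 (.lg 0 true 5 67 67 16 0 360) (.nx 759 104033 (.lg 2
  false 2 79 79 16 21130 144) .out)) .out))) .out) .out))) (.na 782 46 (.nx 781 1664512 (.nr 780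
  881745 (.nr 764 42 .s1 (.nx 771 20644 (.nx 765 257 (.l1 (.ls 73 29 1539)) (.nr 770 440873 (.lg 0
  false 5 83 83 16 0 360) .out)) (.nr 779 46342 (.nr 776 382 (.lg 0 true 5 67 67 16 0 360) (.nx 778
  104033 (.lg 2 false 2 79 79 16 21130 144) .out)) .out))) .out) .out) (.na 801 47 (.nx 800 1664512
  (.nr 799 881745 (.nr 783 45 .s1 (.nx 784 257 (.l1 (.ls 73 41 1438)) (.nr 798 623489 (.nx 791
  20644 (.lg 0 false 7 89 89 19 0 5040) (.nr 797 46342 (.nr 794 257 (.lg 0 true 3 61 61 13 0 144)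
  (.nx 796 104033 (.lg 2 false 2 79 79 13 27729 144) .out)) .out)) .out))) .out) .out) (.nx 816
  1664512 (.nr 815 881745 (.nr 802 46 .s1 (.nx 809 20644 (.nx 803 257 (.l1 (.ls 71 29 1408)) (.nr
  808 623489 (.lg 0 false 5 83 83 16 0 360) .out)) (.nr 814 46342 (.nr 812 257 (.lg 0 true 3 59 59
  16 0 72) (.nx 813 104033 (.lg 2 true 1 79 79 16 27729 72) .out)) .out))) .out) .out)))) (.na 868
  62 (.na 834 54 (.nx 833 1664512 (.nr 832 881745 (.nr 818 50 .s1 (.nx 819 257 (.l1 (.ls 79 37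
  1298)) (.nr 831 623489 (.nx 823 13005 (.lg 0 false 4 83 89 23 0 720) (.nr 830 110219 (.nr 828
  32769 (.nr 826 257 (.lg 0 true 3 67 67 19 0 72) (.nx 827 104033 (.lg 2 true 1 83 83 16 27729 360)
  .out)) (.nx 829 26009 (.lg 0 false 1 83 83 16 0 360) .out)) .out)) .out))) .out) .out) (.na 853
  61 (.nx 852 1664512 (.nr 851 881745 (.nr 835 53 .s1 (.nx 836 257 (.l1 (.ls 71 41 1226)) (.nr 850
  623489 (.nx 843 20644 (.lg 0 false 7 79 83 29 0 5040) (.nr 849 46342 (.nr 846 257 (.lg 0 true 3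
  61 61 23 0 144) (.nx 848 104033 (.lg 2 false 2 73 73 19 27729 144) .out)) .out)) .out))) .out)
  .out) (.nx 867 1664512 (.nr 866 881745 (.nr 854 60 .s1 (.nx 860 20644 (.nx 855 257 (.l1 (.ls 73
  23 1085)) (.nr 859 623489 (.lg 0 false 4 89 89 16 0 720) .out)) (.nr 865 46342 (.nr 863 514 (.lg
  0 true 3 67 67 16 0 72) (.nx 864 104033 (.lg 2 true 1 79 79 16 21130 360) .out)) .out))) .out)
  .out))) (.na 884 64 (.nx 883 1664512 (.nr 882 881745 (.nr 869 61 .s1 (.nx 876 20644 (.nx 870 257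
  (.l1 (.ls 71 37 1068)) (.nr 875 623489 (.lg 0 false 5 83 83 19 0 720) .out)) (.nr 881 46342 (.nr
  879 531 (.lg 0 true 3 67 67 19 0 144) (.nx 880 104033 (.lg 2 true 1 79 79 13 21130 144) .out))
  .out))) .out) .out) (.na 885 67 .ne (.nx 901 1664512 (.nr 900 524289 (.nr 886 66 .s1 (.nx 888 137
  (.nr 887 573 (.l1 (.ls 16 17 283)) (.l1 .sk)) (.nx 889 138 (.l1 .sk) (.nx 894 20644 (.lg 0 false
  5 79 79 16 0 360) (.nr 899 32769 (.nr 897 513 (.lg 0 true 3 59 59 16 0 72) (.nx 898 104033 (.lg 2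
  true 1 71 71 16 14960 72) .out)) .out))))) .out) .out)))))) (.na 1071 109 (.na 998 86 (.na 950 79
  (.na 918 73 (.nx 917 1664512 (.nr 916 524289 (.nr 903 69 .s1 (.nr 909 32769 (.nx 904 1755 (.l1
  (.ls 59 59 44641)) (.nx 906 104033 (.lg 0 false 2 79 79 17 0 144) (.nr 908 513 (.lg 0 true 2 73
  73 17 0 144) .out))) (.nx 911 138 (.nx 910 137 (.l1 .sk) (.l1 .sk)) (.nx 915 20644 (.nx 913 13005
  (.lg 0 false 2 89 97 17 0 720) (.nr 914 65537 (.lg 0 false 1 73 73 17 0 360) .out)) .out))))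
  .out) .out) (.na 935 74 (.nx 934 1664512 (.nr 933 524289 (.nr 919 73 .s1 (.nx 921 137 (.nr 920
  614 (.l1 (.ls 16 17 260)) (.l1 .sk)) (.nx 922 138 (.l1 .sk) (.nx 927 20644 (.lg 0 false 5 71 79
  16 0 360) (.nr 932 32769 (.nr 930 513 (.lg 0 true 3 53 53 16 0 72) (.nx 931 104033 (.lg 2 true 1
  61 61 16 14960 72) .out)) .out))))) .out) .out) (.nx 949 1664512 (.nr 948 524289 (.nr 936 74 .s1
  (.nx 942 20644 (.nx 938 137 (.nr 937 655 (.l1 (.ls 19 23 256)) (.l1 .sk)) (.nx 939 138 (.l1 .sk)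
  (.lg 0 false 3 83 83 19 0 144))) (.nr 947 32769 (.nr 945 513 (.lg 0 true 3 67 67 19 0 144) (.nx
  946 104033 (.lg 2 true 1 73 73 13 14960 720) .out)) .out))) .out) .out))) (.na 965 81 (.nx 964
  1664512 (.nr 963 524289 (.nr 951 79 .s1 (.nx 957 20644 (.nx 953 137 (.nr 952 672 (.l1 (.ls 16 17
  240)) (.l1 .sk)) (.nx 954 138 (.l1 .sk) (.lg 0 false 3 73 73 16 0 360))) (.nr 962 32769 (.nr 960
  513 (.lg 0 true 3 59 59 16 0 72) (.nx 961 104033 (.lg 2 true 1 61 61 16 14960 72) .out)) .out)))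
  .out) .out) (.na 981 83 (.nx 980 1664512 (.nr 979 524289 (.nr 966 81 .s1 (.nx 973 20644 (.nx 968
  137 (.nr 967 689 (.l1 (.ls 16 19 234)) (.l1 .sk)) (.nx 969 138 (.l1 .sk) (.lg 0 false 4 79 79 19
  0 720))) (.nr 978 32769 (.nr 976 513 (.lg 0 true 3 59 59 17 0 72) (.nx 977 104033 (.lg 2 true 1
  61 61 16 14960 72) .out)) .out))) .out) .out) (.nx 997 1664512 (.nr 996 524289 (.nr 982 83 .s1
  (.nx 985 138 (.nx 984 137 (.nr 983 713 (.l1 (.ls 16 17 229)) (.l1 .sk)) (.l1 .sk)) (.nx 990 20644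
  (.lg 0 false 5 73 73 17 0 360) (.nr 995 32769 (.nr 993 513 (.lg 0 true 3 59 59 16 0 72) (.nx 994
  104033 (.lg 2 true 1 67 67 16 14960 72) .out)) .out)))) .out) .out)))) (.na 1029 94 (.na 1012 91
  (.nx 1011 1664512 (.nr 1010 524289 (.nr 999 86 .s1 (.nx 1005 20644 (.nx 1001 137 (.nr 1000 755
  (.l1 (.ls 17 23 221)) (.l1 .sk)) (.nx 1002 138 (.l1 .sk) (.lg 0 false 3 83 83 19 0 720))) (.nr
  1009 32769 (.nr 1007 513 (.lg 0 true 2 61 61 19 0 144) (.nx 1008 104033 (.lg 2 true 1 71 71 13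
  14960 144) .out)) .out))) .out) .out) (.na 1013 93 .ne (.nx 1028 1664512 (.nr 1027 1048577 (.nr
  1014 93 .s1 (.nx 1022 20644 (.nx 1016 137 (.nr 1015 780 (.l1 (.ls 19 19 204)) (.l1 .sk)) (.nx
  1017 138 (.l1 .sk) (.lg 0 false 5 79 89 23 0 360))) (.nr 1026 32769 (.nr 1024 513 (.lg 0 true 2
  67 67 19 0 144) (.nx 1025 104033 (.lg 2 false 1 71 71 17 14960 72) .out)) .out))) .out) .out)))
  (.na 1043 101 (.nx 1042 1664512 (.nr 1041 1048577 (.nr 1030 94 .s1 (.nx 1033 138 (.nx 1032 137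
  (.nr 1031 838 (.l1 (.ls 17 23 202)) (.l1 .sk)) (.l1 .sk)) (.nx 1036 20644 (.lg 0 false 3 83 83 19
  0 144) (.nr 1040 32769 (.nr 1038 513 (.lg 0 true 2 61 61 19 0 144) (.nx 1039 104033 (.lg 2 true 1
  71 71 17 14960 720) .out)) .out)))) .out) .out) (.na 1058 102 (.nx 1057 1664512 (.nr 1056 1048577
  (.nr 1044 101 .s1 (.nx 1047 138 (.nx 1046 137 (.nr 1045 846 (.l1 (.ls 16 17 188)) (.l1 .sk)) (.l1
  .sk)) (.nx 1051 20644 (.lg 0 false 4 79 79 17 0 720) (.nr 1055 32769 (.nr 1053 513 (.lg 0 true 2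
  59 59 16 0 144) (.nx 1054 104033 (.lg 2 true 1 61 61 16 14960 360) .out)) .out)))) .out) .out)
  (.nx 1070 1664512 (.nr 1069 1048577 (.nr 1059 102 .s1 (.nx 1062 138 (.nx 1061 137 (.nr 1060 904
  (.l1 (.ls 16 31 187)) (.l1 .sk)) (.l1 .sk)) (.nx 1064 13005 (.lg 0 false 2 83 83 31 0 144) (.nr
  1068 65537 (.nr 1066 513 (.lg 0 true 2 67 67 31 0 144) (.nx 1067 104033 (.lg 1 false 1 83 83 29
  47393 144) .out)) .out)))) .out) .out))))) (.na 1136 137 (.na 1112 128 (.na 1085 111 (.nx 1084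
  1664512 (.nr 1083 1048577 (.nr 1072 109 .s1 (.nx 1074 137 (.nr 1073 921 (.l1 (.ls 16 17 175))
  (.l1 .sk)) (.nx 1075 138 (.l1 .sk) (.nx 1079 20644 (.lg 0 false 4 79 79 17 0 720) (.nr 1082 32769
  (.nr 1080 513 (.lg 0 false 1 61 61 16 0 360) (.nx 1081 104033 (.lg 2 true 1 61 61 16 14960 360)
  .out)) .out))))) .out) .out) (.na 1097 122 (.nx 1096 1664512 (.nr 1095 1048577 (.nr 1086 111 .s1
  (.nx 1091 13005 (.nx 1088 137 (.nr 1087 1012 (.l1 (.ls 19 19 172)) (.l1 .sk)) (.nx 1089 138 (.l1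
  .sk) (.lg 0 false 2 89 89 19 0 720))) (.nr 1094 65537 (.nr 1092 513 (.lg 0 true 1 67 67 17 0 72)
  (.nx 1093 104033 (.lg 1 false 1 83 83 17 47393 360) .out)) .out))) .out) .out) (.nx 1111 1664512
  (.nr 1110 1048577 (.nr 1098 122 .s1 (.nx 1106 20644 (.nx 1100 137 (.nr 1099 1062 (.l1 (.ls 16 23
  156)) (.l1 .sk)) (.nx 1101 138 (.l1 .sk) (.lg 0 false 5 79 79 23 0 720))) (.nr 1109 32769 (.nr
  1107 513 (.lg 0 false 1 67 67 19 0 144) (.nx 1108 104033 (.lg 2 true 1 67 67 19 14960 144) .out))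
  .out))) .out) .out))) (.na 1113 131 .ne (.na 1125 134 (.nx 1124 832257 (.nr 1123 1048577 (.nr
  1114 131 .s1 (.nx 1115 257 (.l1 (.ls 61 19 507)) (.nr 1122 741457 (.nx 1118 13005 (.lg 0 false 3
  71 71 17 0 360) (.nr 1121 16385 (.nr 1119 1025 (.lg 0 false 1 61 61 16 0 360) (.nx 1120 104033
  (.lg 2 true 1 53 53 16 11923 360) .out)) .out)) .out))) .out) .out) (.nx 1135 832257 (.nr 1134
  1048577 (.nr 1126 134 .s1 (.nx 1130 13005 (.nx 1127 257 (.l1 (.ls 61 29 495)) (.nr 1129 741457
  (.lg 0 false 2 79 79 23 0 144) .out)) (.nr 1133 16385 (.nr 1131 1025 (.lg 0 false 1 71 71 19 0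
  720) (.nx 1132 104033 (.lg 2 true 1 53 53 19 11923 144) .out)) .out))) .out) .out)))) (.na 1160
  141 (.na 1148 138 (.nx 1147 832257 (.nr 1146 1048577 (.nr 1137 137 .s1 (.nx 1138 257 (.l1 (.ls 53
  19 485)) (.nr 1145 741457 (.nr 1141 16385 (.lg 0 false 3 61 61 16 0 72) (.nx 1144 13005 (.lg 0
  true 3 61 61 16 0 72) .out)) .out))) .out) .out) (.na 1159 139 (.nx 1158 832257 (.nr 1157 1048577
  (.nr 1149 138 .s1 (.nx 1150 257 (.l1 (.ls 71 41 481)) (.nr 1156 741457 (.nx 1152 13005 (.lg 0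
  false 2 79 79 37 0 144) (.nr 1155 16385 (.nr 1153 1025 (.lg 0 true 1 67 67 31 0 144) (.nx 1154
  104033 (.lg 2 false 1 61 61 31 11923 144) .out)) .out)) .out))) .out) .out) (.lg 0 false 1 0 0 16
  0 24))) (.na 1171 142 (.nx 1170 832257 (.nr 1169 1048577 (.nr 1161 141 .s1 (.nx 1165 13005 (.nx
  1162 257 (.l1 (.ls 73 23 471)) (.nr 1164 741457 (.lg 0 false 2 83 83 19 0 720) .out)) (.nr 1168
  16385 (.nr 1166 1025 (.lg 0 true 1 67 67 19 0 72) (.nx 1167 104033 (.lg 2 false 1 61 61 19 11923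
  72) .out)) .out))) .out) .out) (.na 1182 146 (.nx 1181 832257 (.nr 1180 1048577 (.nr 1172 142 .s1
  (.nx 1176 13005 (.nx 1173 257 (.l1 (.ls 61 29 468)) (.nr 1175 741457 (.lg 0 false 2 73 73 23 0
  144) .out)) (.nr 1179 16385 (.nr 1177 1025 (.lg 0 false 1 61 61 19 0 144) (.nx 1178 104033 (.lg 2
  true 1 53 53 19 11923 144) .out)) .out))) .out) .out) (.nx 1191 832257 (.nr 1190 1048577 (.nr
  1183 146 .s1 (.nx 1184 257 (.l1 (.ls 67 29 455)) (.nr 1189 741457 (.nx 1185 13005 (.lg 0 true 1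
  83 83 19 0 144) (.nr 1188 16385 (.nr 1186 1025 (.lg 0 false 1 67 67 19 0 720) (.nx 1187 104033
  (.lg 2 true 1 53 53 19 11923 144) .out)) .out)) .out))) .out) .out))))))) (.na 1368 233 (.na 1274
  186 (.na 1225 166 (.na 1195 158 (.na 1193 151 (.lg 0 false 1 0 0 16 0 24) (.na 1194 157 (.lg 0
  false 1 0 0 16 0 24) (.lg 0 false 1 0 0 16 0 24))) (.na 1205 162 (.nx 1204 832257 (.nr 1203
  1048577 (.nr 1196 158 .s1 (.nx 1199 13005 (.nx 1197 257 (.l1 (.ls 61 29 421)) (.nr 1198 741457
  (.lg 0 true 1 79 79 19 0 144) .out)) (.nr 1202 16385 (.nr 1200 1025 (.lg 0 false 1 59 59 19 0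
  144) (.nx 1201 104033 (.lg 2 true 1 47 47 19 11923 144) .out)) .out))) .out) .out) (.na 1215 163
  (.nx 1214 832257 (.nr 1213 1048577 (.nr 1206 162 .s1 (.nx 1209 13005 (.nx 1207 257 (.l1 (.ls 61
  31 410)) (.nr 1208 741457 (.lg 0 true 1 79 79 23 0 144) .out)) (.nr 1212 16385 (.nr 1210 1025
  (.lg 0 false 1 61 61 23 0 144) (.nx 1211 104033 (.lg 2 true 1 53 53 23 11923 144) .out)) .out)))
  .out) .out) (.nx 1224 832257 (.nr 1223 1048577 (.nr 1216 163 .s1 (.nx 1217 257 (.l1 (.ls 59 19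
  408)) (.nr 1222 741457 (.nx 1218 13005 (.lg 0 true 1 73 73 16 0 72) (.nr 1221 16385 (.nr 1219
  1025 (.lg 0 false 1 59 59 16 0 72) (.nx 1220 104033 (.lg 2 true 1 47 47 16 11923 72) .out))
  .out)) .out))) .out) .out)))) (.na 1255 181 (.na 1235 173 (.nx 1234 832257 (.nr 1233 1048577 (.nr
  1226 166 .s1 (.nx 1229 13005 (.nx 1227 257 (.l1 (.ls 61 29 400)) (.nr 1228 741457 (.lg 0 true 1
  73 73 19 0 144) .out)) (.nr 1232 16385 (.nr 1230 1025 (.lg 0 false 1 61 61 19 0 720) (.nx 1231
  104033 (.lg 2 true 1 53 53 19 11923 720) .out)) .out))) .out) .out) (.na 1245 179 (.nx 1244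
  832257 (.nr 1243 1048577 (.nr 1236 173 .s1 (.nx 1237 257 (.l1 (.ls 59 19 384)) (.nr 1242 741457
  (.nx 1238 13005 (.lg 0 true 1 73 73 16 0 72) (.nr 1241 16385 (.nr 1239 1025 (.lg 0 false 1 59 59
  16 0 72) (.nx 1240 104033 (.lg 2 true 1 47 47 16 11923 72) .out)) .out)) .out))) .out) .out) (.nx
  1254 832257 (.nr 1253 1048577 (.nr 1246 179 .s1 (.nx 1249 13005 (.nx 1247 257 (.l1 (.ls 61 19
  371)) (.nr 1248 741457 (.lg 0 true 1 73 73 16 0 360) .out)) (.nr 1252 16385 (.nr 1250 1025 (.lg 0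
  false 1 59 59 16 0 360) (.nx 1251 104033 (.lg 2 true 1 47 47 16 11923 360) .out)) .out))) .out)
  .out))) (.na 1263 182 (.nx 1262 832257 (.nr 1261 1048577 (.nr 1256 181 .s1 (.nx 1257 257 (.l1
  (.ls 61 19 367)) (.nr 1260 741457 (.nr 1258 16385 (.lg 0 false 1 79 79 16 0 360) (.nx 1259 13005
  (.lg 0 true 1 73 73 16 0 360) .out)) .out))) .out) .out) (.na 1264 183 .ne (.nx 1273 832257 (.nr
  1272 1048577 (.nr 1265 183 .s1 (.nx 1268 13005 (.nx 1266 257 (.l1 (.ls 59 23 363)) (.nr 1267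
  741457 (.lg 0 false 1 73 73 19 0 72) .out)) (.nr 1271 16385 (.nr 1269 1025 (.lg 0 true 1 59 59 19
  0 72) (.nx 1270 104033 (.lg 2 false 1 53 53 19 11923 72) .out)) .out))) .out) .out))))) (.na 1321
  213 (.na 1302 202 (.na 1284 197 (.nx 1283 832257 (.nr 1282 1048577 (.nr 1275 186 .s1 (.nx 1278
  13005 (.nx 1276 257 (.l1 (.ls 71 37 358)) (.nr 1277 741457 (.lg 0 false 1 79 79 29 0 144) .out))
  (.nr 1281 16385 (.nr 1279 1025 (.lg 0 true 1 61 61 29 0 144) (.nx 1280 104033 (.lg 2 false 1 59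
  59 29 11923 144) .out)) .out))) .out) .out) (.na 1292 201 (.nx 1291 832257 (.nr 1290 1048577 (.nr
  1285 197 .s1 (.nx 1286 257 (.l1 (.ls 59 19 338)) (.nr 1289 741457 (.nr 1287 16385 (.lg 0 false 1
  73 73 16 0 72) (.nx 1288 13005 (.lg 0 true 1 71 71 16 0 72) .out)) .out))) .out) .out) (.nx 1301
  832257 (.nr 1300 1048577 (.nr 1293 201 .s1 (.nx 1296 13005 (.nx 1294 257 (.l1 (.ls 61 23 331))
  (.nr 1295 741457 (.lg 0 false 1 79 79 19 0 72) .out)) (.nr 1299 16385 (.nr 1297 1025 (.lg 0 true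
  1 59 59 19 0 72) (.nx 1298 104033 (.lg 2 false 1 53 53 19 11923 72) .out)) .out))) .out) .out)))
  (.na 1310 207 (.nx 1309 832257 (.nr 1308 1048577 (.nr 1303 202 .s1 (.nx 1304 257 (.l1 (.ls 59 29
  329)) (.nr 1307 741457 (.nr 1305 16385 (.lg 0 false 1 73 73 23 0 144) (.nx 1306 13005 (.lg 0 true
  1 73 73 23 0 144) .out)) .out))) .out) .out) (.na 1320 211 (.nx 1319 832257 (.nr 1318 1048577
  (.nr 1311 207 .s1 (.nx 1314 13005 (.nx 1312 257 (.l1 (.ls 61 19 322)) (.nr 1313 741457 (.lg 0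
  false 1 73 73 19 0 72) .out)) (.nr 1317 16385 (.nr 1315 1025 (.lg 0 true 1 59 59 19 0 72) (.nx
  1316 104033 (.lg 2 false 1 53 53 19 11923 72) .out)) .out))) .out) .out) (.lg 0 false 1 0 0 16 0
  24)))) (.na 1349 222 (.na 1331 218 (.nx 1330 832257 (.nr 1329 1048577 (.nr 1322 213 .s1 (.nx 1323
  257 (.l1 (.ls 61 23 313)) (.nr 1328 741457 (.nx 1324 13005 (.lg 0 false 1 73 73 19 0 72) (.nr
  1327 16385 (.nr 1325 1025 (.lg 0 true 1 53 53 19 0 72) (.nx 1326 104033 (.lg 2 true 1 47 47 19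
  11923 72) .out)) .out)) .out))) .out) .out) (.na 1339 219 (.nx 1338 832257 (.nr 1337 1048577 (.nr
  1332 218 .s1 (.nx 1333 257 (.l1 (.ls 59 29 305)) (.nr 1336 741457 (.nr 1334 16385 (.lg 0 false 1
  73 73 23 0 144) (.nx 1335 13005 (.lg 0 true 1 71 71 23 0 144) .out)) .out))) .out) .out) (.nx
  1348 832257 (.nr 1347 1048577 (.nr 1340 219 .s1 (.nx 1343 13005 (.nx 1341 257 (.l1 (.ls 67 23
  304)) (.nr 1342 741457 (.lg 0 false 1 79 79 19 0 360) .out)) (.nr 1346 16385 (.nr 1344 1025 (.lg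
  0 true 1 59 59 19 0 72) (.nx 1345 104033 (.lg 2 false 1 53 53 19 11923 72) .out)) .out))) .out)
  .out))) (.na 1359 227 (.nx 1358 832257 (.nr 1357 1048577 (.nr 1350 222 .s1 (.nx 1353 13005 (.nx
  1351 257 (.l1 (.ls 67 31 300)) (.nr 1352 741457 (.lg 0 false 1 73 73 31 0 144) .out)) (.nr 1356
  16385 (.nr 1354 1025 (.lg 0 true 1 61 61 31 0 144) (.nx 1355 104033 (.lg 2 true 1 59 59 31 11923
  144) .out)) .out))) .out) .out) (.na 1367 229 (.nx 1366 832257 (.nr 1365 1048577 (.nr 1360 227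
  .s1 (.nx 1361 257 (.l1 (.ls 53 19 293)) (.nr 1364 741457 (.nr 1362 16385 (.lg 0 false 1 71 71 17
  0 72) (.nx 1363 13005 (.lg 0 true 1 67 67 17 0 72) .out)) .out))) .out) .out) (.lg 0 false 1 0 0
  16 0 24)))))) (.na 4225 1449 (.na 1404 254 (.na 1387 241 (.na 1369 237 (.lg 0 false 1 0 0 16 0
  24) (.na 1379 239 (.nx 1378 832257 (.nr 1377 1048577 (.nr 1370 237 .s1 (.nx 1373 13005 (.nx 1371
  257 (.l1 (.ls 61 23 281)) (.nr 1372 741457 (.lg 0 false 1 71 71 19 0 72) .out)) (.nr 1376 16385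
  (.nr 1374 1025 (.lg 0 true 1 53 53 19 0 72) (.nx 1375 104033 (.lg 2 false 1 47 47 19 11923 72)
  .out)) .out))) .out) .out) (.nx 1386 832257 (.nr 1385 1048577 (.nr 1380 239 .s1 (.nx 1381 257
  (.l1 (.ls 59 19 279)) (.nr 1384 741457 (.nr 1382 16385 (.lg 0 false 1 71 71 17 0 72) (.nx 1383
  13005 (.lg 0 true 1 71 71 17 0 360) .out)) .out))) .out) .out))) (.na 1388 243 (.lg 0 false 1 0 0
  16 0 24) (.na 1396 251 (.nx 1395 832257 (.nr 1394 1048577 (.nr 1389 243 .s1 (.nx 1390 257 (.l1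
  (.ls 53 23 274)) (.nr 1393 741457 (.nr 1391 16385 (.lg 0 false 1 71 71 19 0 72) (.nx 1392 13005
  (.lg 0 true 1 67 67 19 0 72) .out)) .out))) .out) .out) (.nx 1403 832257 (.nr 1402 1048577 (.nr
  1397 251 .s1 (.nx 1398 257 (.l1 (.ls 61 19 266)) (.nr 1401 741457 (.nr 1399 16385 (.lg 0 false 1
  73 73 17 0 360) (.nx 1400 13005 (.lg 0 true 1 71 71 17 0 360) .out)) .out))) .out) .out)))) (.na
  2133 512 (.na 1412 256 (.nx 1411 832257 (.nr 1410 1048577 (.nr 1405 254 .s1 (.nx 1406 257 (.l1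
  (.ls 59 29 263)) (.nr 1409 741457 (.nr 1407 16385 (.lg 0 false 1 73 73 23 0 720) (.nx 1408 13005
  (.lg 0 true 1 71 71 23 0 144) .out)) .out))) .out) .out) (.na 1413 257 .ne (.nx 2132 832257 (.nr
  2131 1482912 (.nr 1414 257 .s1 (.nx 1551 137 (.nr 1550 4246 (.lx (.lp 23 19 129)) (.l1 .sk)) (.nx
  1552 138 (.l1 .sk) (.nx 1619 205 (.lx (.lp 67 17 129)) (.nr 2130 1048577 (.nr 1874 32769 (.la
  (.lg 0 false 1 73 73 23 0)) (.nx 2129 10323 (.la (.lg 0 true 1 67 67 23 0)) .out)) .out)))))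
  .out) .out))) (.na 2769 725 (.nx 2768 832257 (.nr 2767 1482912 (.nr 2134 512 .s1 (.nx 2271 137
  (.nr 2270 6012 (.lx (.lp 19 19 182)) (.l1 .sk)) (.nx 2272 138 (.l1 .sk) (.nx 2553 10323 (.nx 2339
  205 (.lx (.lp 61 19 182)) (.nr 2552 1048577 (.la (.lg 0 false 1 59 59 29 0)) .out)) (.nr 2766
  32769 (.la (.lg 2 true 1 53 53 29 111347)) .out))))) .out) .out) (.na 3371 1024 (.nx 3370 10323
  (.nr 3369 1048577 (.nr 2770 725 .s1 (.nx 3069 2049 (.la (.ls 59 41 5793)) (.nr 3368 16385 (.la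
  (.lg 0 true 1 29 29 29 0)) .out))) .out) .out) (.nx 4224 10323 (.nr 4223 1048577 (.nr 3372 1024
  .s1 (.nx 3797 2582 (.la (.ls 53 41 6513)) (.nr 4222 16385 (.la (.lg 0 false 1 23 23 31 0))
  .out))) .out) .out))))) (.na 11446 16384 (.na 7019 4096 (.na 4827 2048 (.nx 4826 2582 (.nr 4825
  524289 (.nr 4226 1449 .s1 (.la (.ls 47 37 4603))) .out) .out) (.na 5679 2897 (.nx 5678 3252 (.nr
  5677 524289 (.nr 4828 2048 .s1 (.la (.ls 43 41 5166))) .out) .out) (.nx 7018 2582 (.nr 7017
  262145 (.nr 5680 2897 .s1 (.nx 5817 137 (.nr 5816 33963 (.lx (.lp 19 31 1025)) (.l1 .sk)) (.nx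
  5818 138 (.l1 .sk) (.la (.ls 41 37 2297))))) .out) .out))) (.na 8857 5793 (.nx 8856 2582 (.nr
  8855 262145 (.nr 7020 4096 .s1 (.nx 7157 137 (.nr 7156 48034 (.lx (.lp 23 31 1449)) (.l1 .sk))
  (.nx 7158 138 (.l1 .sk) (.la (.ls 37 37 1625))))) .out) .out) (.na 10151 8192 (.nx 10150 1292
  (.nr 10149 65537 (.nr 8858 5793 .s1 (.lx (.lp 23 37 2049))) .out) .out) (.nx 11445 1292 (.nr
  11444 131073 (.nr 10152 8192 .s1 (.nx 10356 205 (.lx (.lp 29 37 4097)) (.nr 11443 65537 (.lx (.lp
  19 41 4097)) .out))) .out) .out)))) (.na 14797 131072 (.na 12741 32768 (.nx 12740 1292 (.nr 12739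
  262145 (.nr 11447 16384 .s1 (.nx 11651 205 (.lx (.lp 16 0 8193)) (.nr 12738 131073 (.lx (.lp 23
  43 8193)) .out))) .out) .out) (.na 13769 65536 (.nx 13768 1025 (.nr 13767 262145 (.nr 12742 32768
  .s1 (.nx 12946 205 (.lx (.lp 16 0 16385)) (.nr 13766 131073 (.lx (.lp 17 47 16385)) .out))) .out)
  .out) (.nx 14796 1025 (.nr 14795 262145 (.nr 13770 65536 .s1 (.nx 14093 324 (.lx (.lp 16 47
  32769)) (.nr 14794 131073 (.lx (.lp 17 53 32769)) .out))) .out) .out))) (.na 14799 262144 (.nx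
  14798 324 (.l1 .sk) .out) (.na 14801 524289 (.nx 14800 205 (.l1 .sk) .out) .out)))))))

def T11_1 : Ph :=
  (.na 546 43 (.na 345 27 (.na 202 23 (.na 101 18 (.na 52 17 (.nx 51 2097153 (.nr 50 1048577 (.nr 1
  9 .s1 (.nx 4 192 (.nx 3 191 (.nr 2 166 (.lg 0 true 1 37 37 11 0 720) (.l1 .sk)) (.l1 .sk)) (.nr
  47 623489 (.nx 43 660563 (.nr 39 262145 (.nr 35 185365 (.nx 15 48160 (.lg 0 false 11 97 103 23 0
  720720) (.nr 20 1217 (.lg 0 true 5 79 83 17 0 720) (.nx 23 70783 (.lg 1 false 3 97 103 13 70280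
  65520) (.nx 26 104033 (.lg 1 false 3 97 103 13 47818 65520) (.nr 34 155873 (.nr 30 77937 (.nr 27
  4597 (.lg 2 false 1 89 89 11 51836 5040) (.lg 2 false 3 97 101 13 13723 65520)) (.nx 33 208065
  (.lg 2 false 3 101 103 13 27364 65520) .out)) .out))))) (.nx 38 10323 (.lg 0 false 3 97 101 13 0
  65520) .out)) (.nx 42 2049 (.lg 0 false 3 83 89 13 0 720) .out)) (.nr 46 129 (.lg 0 true 3 73 73
  13 0 144) .out)) (.nx 49 324 (.lg 0 false 2 71 71 13 0 144) .out)))) .out) .out) (.nx 100 2097153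
  (.nr 99 1048577 (.nr 53 10 .s1 (.nx 57 324 (.nx 55 191 (.nr 54 176 (.lg 0 false 1 29 29 11 0 720)
  (.l1 .sk)) (.nx 56 192 (.l1 .sk) (.l1 (.ls 79 37 4009)))) (.nr 98 623489 (.nr 93 262145 (.nx 85
  416129 (.nx 68 41286 (.lg 0 false 11 97 101 16 0 7920) (.nr 84 155873 (.nr 72 2200 (.lg 0 true 4
  79 79 16 0 144) (.nx 76 82572 (.lg 1 false 4 97 97 16 68952 720) (.nr 83 131073 (.lg 2 false 7 89
  101 16 28997 5040) .out))) .out)) (.nr 92 257 (.lg 0 true 7 73 73 16 0 504) .out)) (.nx 97 2049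
  (.lg 0 false 4 79 79 16 0 144) .out)) .out))) .out) .out)) (.na 155 20 (.nx 154 2097153 (.nr 153
  1048577 (.nr 102 12 .s1 (.nx 145 416129 (.nx 124 41286 (.nx 106 324 (.nx 104 191 (.nr 103 196
  (.lg 0 true 1 29 29 13 0 720) (.l1 .sk)) (.nx 105 192 (.l1 .sk) (.l1 (.ls 79 47 3787)))) (.nr 123
  623489 (.nr 113 185365 (.lg 0 false 7 101 103 19 0 720720) (.nx 122 10323 (.nr 116 262145 (.lg 0
  false 3 83 83 13 0 144) (.nx 121 2049 (.lg 0 false 5 79 79 19 0 720) .out)) .out)) .out)) (.nr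
  144 155873 (.nr 129 2200 (.lg 0 true 5 79 79 19 0 720) (.nx 136 82572 (.lg 1 false 7 97 101 19
  68952 720720) (.nr 143 131073 (.lg 2 false 7 89 97 19 28997 5040) .out))) .out)) (.nr 152 257
  (.lg 0 true 7 73 73 19 0 1008) .out))) .out) .out) (.nx 201 2097153 (.nr 200 1048577 (.nr 156 15
  .s1 (.nx 158 191 (.nr 157 225 (.lg 0 false 1 31 31 13 0 720) (.l1 .sk)) (.nx 159 192 (.l1 .sk)
  (.nx 160 324 (.l1 (.ls 83 43 3408)) (.nr 199 623489 (.nr 195 262145 (.nr 192 185365 (.nx 167
  41286 (.lg 0 false 7 97 101 23 0 65520) (.nr 191 155873 (.nx 187 660563 (.nr 170 751 (.lg 0 true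
  3 79 79 19 0 720) (.nx 186 416129 (.nr 171 2200 (.lg 2 false 1 79 79 13 52917 720) (.nx 178 82572
  (.lg 1 false 7 89 101 23 68952 65520) (.nr 185 131073 (.lg 2 false 7 97 103 23 28997 720720)
  .out))) .out)) (.nr 190 129 (.lg 0 true 3 71 71 19 0 720) .out)) .out)) (.nx 194 10323 (.lg 0
  false 2 89 97 17 0 9360) .out)) (.nx 198 2049 (.lg 0 false 3 83 83 19 0 720) .out)) .out)))))
  .out) .out))) (.na 274 25 (.na 240 24 (.nx 239 2097153 (.nr 238 1048577 (.nr 203 19 .s1 (.nx 206
  192 (.nx 205 191 (.nr 204 235 (.lg 0 false 1 29 29 11 0 720) (.l1 .sk)) (.l1 .sk)) (.nx 207 324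
  (.l1 (.ls 79 37 2964)) (.nr 237 524289 (.nx 221 52017 (.nr 214 185365 (.lg 0 false 7 97 101 16 0
  5040) (.nx 220 13005 (.nr 218 370729 (.lg 0 false 4 89 89 16 0 720) (.nx 219 1292 (.lg 0 true 1
  79 79 11 0 72) .out)) .out)) (.nr 236 92683 (.nr 231 1629 (.nx 225 524289 (.lg 0 true 4 79 79 16
  0 144) (.nr 230 129 (.lg 0 true 5 67 67 16 0 360) .out)) (.nx 235 330282 (.lg 2 false 4 97 97 16
  32568 5040) .out)) .out)) .out)))) .out) .out) (.nx 273 2097153 (.nr 272 1048577 (.nr 241 20 .s1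
  (.nx 255 20644 (.nx 244 192 (.nx 243 191 (.nr 242 245 (.lg 0 true 1 31 37 19 0 720) (.l1 .sk))
  (.l1 .sk)) (.nr 251 370729 (.lg 0 false 7 89 101 31 0 5040) (.nx 254 1292 (.nr 252 524289 (.lg 0
  false 1 83 83 19 0 720) (.nx 253 324 (.lg 0 false 1 73 73 19 0 144) .out)) .out))) (.nr 271
  131073 (.nx 268 524289 (.nr 257 647 (.lg 0 true 2 79 79 23 0 144) (.nx 267 330282 (.nr 259 26025
  (.nr 258 1629 (.lg 2 true 1 79 79 19 48752 720) (.lg 2 false 1 89 97 19 23165 720)) (.nx 261
  41287 (.lg 0 false 2 97 101 23 0 5040) (.nr 266 110219 (.nx 262 52017 (.lg 1 false 1 89 97 19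
  48780 720) (.nr 265 92683 (.nr 263 65537 (.lg 2 false 1 101 103 19 23049 55440) (.nx 264 262145
  (.lg 2 true 1 101 103 19 32568 55440) .out)) .out)) .out))) .out)) (.nr 270 129 (.lg 0 true 2 73
  73 23 0 144) .out)) .out))) .out) .out)) (.na 311 26 (.nx 310 2097153 (.nr 309 1048577 (.nr 275
  21 .s1 (.nx 304 524289 (.nx 277 191 (.nr 276 255 (.lg 0 true 1 23 23 16 0 720) (.l1 .sk)) (.nx
  278 192 (.l1 .sk) (.nx 279 324 (.l1 (.ls 79 37 2727)) (.nr 303 524289 (.nr 301 370729 (.nr 296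
  185365 (.nx 286 52017 (.lg 0 false 7 89 97 16 0 5040) (.nr 295 92683 (.nr 290 1629 (.lg 0 true 4
  73 73 16 0 720) (.nx 294 330282 (.lg 2 false 4 83 89 16 32568 720) .out)) .out)) (.nx 300 13005
  (.lg 0 false 4 83 83 16 0 720) .out)) (.nx 302 1292 (.lg 0 true 1 73 73 16 0 360) .out)) .out))))
  (.nr 308 129 (.lg 0 true 4 61 61 16 0 720) .out))) .out) .out) (.nx 344 2097153 (.nr 343 1048577
  (.nr 312 23 .s1 (.nx 316 324 (.nx 314 191 (.nr 313 264 (.lg 0 false 1 29 29 11 0 9360) (.l1 .sk))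
  (.nx 315 192 (.l1 .sk) (.l1 (.ls 83 43 2622)))) (.nr 342 524289 (.nr 340 370729 (.nx 335 524289
  (.nx 327 52017 (.nr 323 185365 (.lg 0 false 7 97 101 19 0 65520) (.nx 326 13005 (.lg 0 false 3 89
  89 11 0 9360) .out)) (.nr 334 92683 (.nr 330 1659 (.lg 0 true 3 79 79 11 0 1872) (.nx 333 330282
  (.lg 2 false 3 97 97 11 32568 65520) .out)) .out)) (.nr 339 129 (.lg 0 true 4 67 67 19 0 1872)
  .out)) (.nx 341 1292 (.lg 0 true 1 79 79 11 0 9360) .out)) .out))) .out) .out)))) (.na 443 34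
  (.na 411 32 (.na 381 30 (.nx 380 2097153 (.nr 379 1048577 (.nr 346 24 .s1 (.nx 348 191 (.nr 347
  294 (.lg 0 false 1 23 23 16 0 720) (.l1 .sk)) (.nx 349 192 (.l1 .sk) (.nx 350 324 (.l1 (.ls 73 37
  2525)) (.nr 378 524289 (.nr 370 185365 (.nx 357 52017 (.lg 0 false 7 89 89 17 0 5040) (.nr 369
  92683 (.nr 364 866 (.lg 0 true 7 73 73 17 0 504) (.nx 368 330282 (.lg 2 false 4 83 83 16 36423
  720) .out)) .out)) (.nx 377 13005 (.lg 0 false 7 83 89 17 0 5040) .out)) .out))))) .out) .out)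
  (.nx 410 2097153 (.nr 409 1048577 (.nr 382 27 .s1 (.nx 405 524289 (.nx 384 191 (.nr 383 313 (.lg
  0 false 1 31 31 19 0 720) (.l1 .sk)) (.nx 385 192 (.l1 .sk) (.nx 386 324 (.l1 (.ls 83 47 2273))
  (.nr 404 524289 (.nx 398 52017 (.nr 393 185365 (.lg 0 false 7 89 101 31 0 5040) (.nx 397 13005
  (.nr 395 370729 (.lg 0 false 2 89 97 23 0 720) (.nx 396 1292 (.lg 0 false 1 73 73 19 0 720)
  .out)) .out)) (.nr 403 92683 (.nr 400 911 (.lg 0 true 2 79 79 23 0 720) (.nx 402 330282 (.lg 2
  false 2 97 101 23 34624 5040) .out)) .out)) .out)))) (.nr 408 129 (.lg 0 true 3 71 71 29 0 720)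
  .out))) .out) .out)) (.na 442 33 (.nx 441 2097153 (.nr 440 1048577 (.nr 412 29 .s1 (.nx 416 324
  (.nx 414 191 (.nr 413 323 (.lg 0 true 1 29 29 13 0 720) (.l1 .sk)) (.nx 415 192 (.l1 .sk) (.l1
  (.ls 79 37 2131)))) (.nr 439 623489 (.nx 435 330282 (.nx 423 13005 (.lg 0 false 7 89 101 23 0
  65520) (.nr 434 185365 (.nx 428 52017 (.nr 426 131073 (.lg 0 false 3 97 101 19 0 65520) (.nx 427
  20644 (.lg 0 false 1 83 83 13 0 720) .out)) (.nr 433 92683 (.nr 430 934 (.lg 0 true 2 73 73 13 0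
  144) (.lg 2 false 3 97 101 19 33771 65520)) .out)) .out)) (.nr 438 257 (.lg 0 true 3 71 71 19 0
  144) .out)) .out))) .out) .out) .ne)) (.na 496 39 (.na 470 36 (.nx 469 2097153 (.nr 468 881745
  (.nr 444 32 .s1 (.nx 447 192 (.nx 446 191 (.nr 445 352 (.lg 0 false 1 23 23 13 0 720) (.l1 .sk))
  (.l1 .sk)) (.nx 448 324 (.l1 (.ls 79 41 2006)) (.nr 467 623489 (.nx 455 26009 (.lg 0 false 7 97
  101 23 0 65520) (.nr 466 77937 (.nr 462 352 (.lg 0 true 7 71 71 23 0 1008) (.nx 465 208065 (.lg 2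
  false 3 89 89 13 56450 720) .out)) .out)) .out)))) .out) .out) (.nx 495 2097153 (.nr 494 881745
  (.nr 471 34 .s1 (.nx 490 208065 (.nx 486 32769 (.nx 473 191 (.nr 472 382 (.lg 0 false 1 29 29 19
  0 720) (.l1 .sk)) (.nx 474 192 (.l1 .sk) (.nx 475 324 (.l1 (.ls 79 43 1895)) (.nr 485 623489 (.nx
  482 13005 (.lg 0 false 7 83 97 29 0 5040) (.nr 484 155873 (.lg 0 false 2 89 97 23 0 720) .out))
  .out)))) (.nr 489 65537 (.nr 487 1113 (.lg 0 false 1 73 73 19 0 720) (.lg 2 false 2 89 89 23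
  36588 720)) .out)) (.nr 493 257 (.lg 0 true 3 71 71 23 0 144) .out))) .out) .out)) (.na 520 40
  (.nx 519 2097153 (.nr 518 881745 (.nr 497 37 .s1 (.nx 513 208065 (.nx 509 32769 (.nx 501 324 (.nx
  499 191 (.nr 498 392 (.l1 (.ls 29 31 938)) (.l1 .sk)) (.nx 500 192 (.l1 .sk) (.l1 (.ls 79 37
  1749)))) (.nr 508 623489 (.nx 505 13005 (.lg 0 false 4 89 97 19 0 9360) (.nr 507 155873 (.lg 0
  false 2 89 97 17 0 9360) .out)) .out)) (.nr 512 65537 (.nr 510 1135 (.lg 0 false 1 73 73 17 0
  936) (.lg 2 false 2 89 97 17 36588 9360)) .out)) (.nr 517 257 (.lg 0 true 4 71 71 19 0 1872)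
  .out))) .out) .out) (.nx 545 2097153 (.nr 544 881745 (.nr 521 38 .s1 (.nx 541 262145 (.nx 524 192
  (.nx 523 191 (.nr 522 421 (.l1 (.ls 37 37 915)) (.l1 .sk)) (.l1 .sk)) (.nx 525 324 (.l1 (.ls 83
  41 1705)) (.nr 540 623489 (.nx 530 13005 (.nr 528 524289 (.lg 0 false 3 101 103 29 0 720720) (.nx
  529 8192 .out (.lg 0 false 1 83 89 19 0 720))) (.nr 539 155873 (.nx 531 26009 (.lg 0 false 1 97
  101 19 0 720) (.nr 538 77937 (.nr 532 1197 (.lg 0 true 1 79 79 19 0 720) (.nx 537 208065 (.nr 535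
  55110 (.nr 533 27556 (.lg 2 false 1 83 89 19 19460 720) (.nx 534 131073 (.lg 2 true 1 97 101 19
  38785 5040) .out)) (.nx 536 52017 (.lg 0 true 1 89 89 19 0 720) .out)) .out)) .out)) .out))
  .out))) (.nr 543 217 (.lg 0 true 2 73 73 23 0 720) .out))) .out) .out))))) (.na 722 59 (.na 640
  50 (.na 594 46 (.na 571 45 (.nx 570 2097153 (.nr 569 881745 (.nr 547 41 .s1 (.nx 559 26009 (.nx
  551 324 (.nx 549 191 (.nr 548 441 (.lg 0 false 1 19 19 16 0 720) (.l1 .sk)) (.nx 550 192 (.l1
  .sk) (.l1 (.ls 73 29 1587)))) (.nr 558 623489 (.lg 0 false 7 89 97 16 0 5040) .out)) (.nr 568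
  77937 (.nr 563 441 (.lg 0 true 4 67 67 16 0 144) (.nx 567 208065 (.lg 2 false 4 83 83 16 54794
  720) .out)) .out))) .out) .out) (.nx 593 2097153 (.nr 592 881745 (.nr 572 43 .s1 (.nx 574 191
  (.nr 573 450 (.l1 (.ls 29 31 813)) (.l1 .sk)) (.nx 575 192 (.l1 .sk) (.nx 584 32769 (.nx 581
  13005 (.nx 576 324 (.l1 (.ls 79 37 1516)) (.nr 580 623489 (.lg 0 false 4 83 89 19 0 720) .out))
  (.nr 583 155873 (.lg 0 false 2 83 89 19 0 720) .out)) (.nr 591 65537 (.nr 588 450 (.lg 0 true 4
  71 73 19 0 720) (.nx 590 208065 (.lg 2 false 2 83 89 19 44157 720) .out)) .out))))) .out) .out))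
  (.na 615 48 (.nx 614 2097153 (.nr 613 881745 (.nr 595 44 .s1 (.nx 596 324 (.l1 (.ls 79 43 2285))
  (.nr 612 741457 (.nx 603 26009 (.lg 0 false 7 89 97 19 0 5040) (.nr 611 65537 (.nr 608 470 (.lg 0
  true 5 71 71 19 0 720) (.nx 610 208065 (.lg 2 true 2 89 89 13 46097 720) .out)) .out)) .out)))
  .out) .out) (.nx 639 2097153 (.nr 638 881745 (.nr 616 46 .s1 (.nx 620 324 (.nx 618 191 (.nr 617
  490 (.l1 (.ls 31 37 763)) (.l1 .sk)) (.nx 619 192 (.l1 .sk) (.l1 (.ls 83 41 1422)))) (.nr 637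
  741457 (.nx 634 208065 (.nx 627 16385 (.lg 0 false 7 89 103 37 0 720720) (.nr 633 155873 (.nx 630
  32769 (.nr 628 65537 (.lg 0 false 1 89 89 23 0 720) (.nx 629 26009 (.lg 0 false 1 83 89 23 0 720)
  .out)) (.nr 632 46342 (.nr 631 1341 (.lg 0 true 1 73 73 23 0 144) (.lg 2 false 1 89 89 23 25903
  720)) .out)) .out)) (.nr 636 257 (.lg 0 true 2 73 73 29 0 144) .out)) .out))) .out) .out))) (.na
  680 52 (.na 659 51 (.nx 658 2097153 (.nr 657 881745 (.nr 641 49 .s1 (.nx 642 324 (.l1 (.ls 71 41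
  2102)) (.nr 656 741457 (.nx 649 26009 (.lg 0 false 7 83 89 23 0 5040) (.nr 655 65537 (.nr 652 499
  (.lg 0 true 3 67 67 19 0 720) (.nx 654 208065 (.lg 2 false 2 79 79 19 46097 720) .out)) .out))
  .out))) .out) .out) (.nx 679 2097153 (.nr 678 881745 (.nr 660 50 .s1 (.nx 664 324 (.nx 662 191
  (.nr 661 509 (.l1 (.ls 31 31 718)) (.l1 .sk)) (.nx 663 192 (.l1 .sk) (.l1 (.ls 79 37 1338))))
  (.nr 677 741457 (.nx 668 20644 (.lg 0 false 4 97 101 23 0 720) (.nr 676 110219 (.nr 674 46342
  (.nr 672 509 (.lg 0 true 4 73 73 23 0 144) (.nx 673 208065 (.lg 2 true 1 97 97 16 41117 5040)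
  .out)) (.nx 675 32769 (.lg 0 true 1 89 89 16 0 720) .out)) .out)) .out))) .out) .out)) (.na 701
  54 (.nx 700 2097153 (.nr 699 881745 (.nr 681 51 .s1 (.nx 685 324 (.nx 683 191 (.nr 682 529 (.l1
  (.ls 31 37 704)) (.l1 .sk)) (.nx 684 192 (.l1 .sk) (.l1 (.ls 79 41 1312)))) (.nr 698 741457 (.nx
  694 208065 (.nx 688 16385 (.lg 0 false 3 89 97 23 0 9360) (.nr 693 155873 (.nx 690 32769 (.lg 0
  false 2 89 89 23 0 9360) (.nr 692 46342 (.nr 691 1421 (.lg 0 false 1 73 73 19 0 1872) (.lg 2 true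
  1 89 89 19 25903 9360)) .out)) .out)) (.nr 697 257 (.lg 0 true 3 71 71 23 0 1872) .out)) .out)))
  .out) .out) (.nx 721 2097153 (.nr 720 881745 (.nr 702 53 .s1 (.nx 703 324 (.l1 (.ls 71 43 1946))
  (.nr 719 741457 (.nx 710 26009 (.lg 0 false 7 83 89 29 0 5040) (.nr 718 65537 (.nr 715 578 (.lg 0
  true 5 67 67 23 0 720) (.nx 717 208065 (.lg 2 false 2 79 79 19 46097 144) .out)) .out)) .out)))
  .out) .out)))) (.na 803 67 (.na 760 64 (.na 739 60 (.nx 738 2097153 (.nr 737 881745 (.nr 723 58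
  .s1 (.nx 724 324 (.l1 (.ls 73 29 1782)) (.nr 736 741457 (.nx 728 26009 (.lg 0 false 4 97 97 16 0
  720) (.nr 735 65537 (.nr 732 587 (.lg 0 true 4 71 71 16 0 144) (.nx 734 208065 (.lg 2 false 2 83
  83 16 46097 144) .out)) .out)) .out))) .out) .out) (.nx 759 2097153 (.nr 758 881745 (.nr 740 59
  .s1 (.nx 743 192 (.nx 742 191 (.nr 741 627 (.l1 (.ls 37 41 611)) (.l1 .sk)) (.l1 .sk)) (.nx 744
  324 (.l1 (.ls 83 43 1138)) (.nr 757 741457 (.nx 749 16385 (.nr 746 623489 (.lg 0 false 2 89 97 31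
  0 720) (.nx 747 6501 .out (.nx 748 13005 (.lg 0 false 1 83 83 29 0 720) .out))) (.nr 756 155873
  (.nx 753 208065 (.nx 750 32769 (.lg 0 false 1 89 97 29 0 720) (.nr 752 46342 (.nr 751 1614 (.lg 0
  true 1 73 73 29 0 720) (.lg 2 false 1 83 89 29 25903 720)) .out)) (.nr 755 257 (.lg 0 true 2 71
  73 31 0 720) .out)) .out)) .out)))) .out) .out)) (.na 783 65 (.nx 782 2097153 (.nr 781 2097153
  (.nr 761 63 .s1 (.nx 765 324 (.nx 763 191 (.nr 762 636 (.l1 (.ls 29 31 573)) (.l1 .sk)) (.nx 764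
  192 (.l1 .sk) (.l1 (.ls 79 31 1067)))) (.nr 780 1048577 (.nx 772 20644 (.lg 0 false 7 83 97 29 0
  5040) (.nr 779 110219 (.nr 777 46342 (.nr 775 513 (.lg 0 true 3 71 71 23 0 144) (.nx 776 208065
  (.lg 2 true 1 83 83 17 41117 720) .out)) (.nx 778 32769 (.lg 0 false 1 79 79 17 0 720) .out))
  .out)) .out))) .out) .out) (.nx 802 2097153 (.nr 801 2097153 (.nr 784 64 .s1 (.nx 788 324 (.nx
  786 191 (.nr 785 656 (.l1 (.ls 31 29 564)) (.l1 .sk)) (.nx 787 192 (.l1 .sk) (.l1 (.ls 83 31
  1050)))) (.nr 800 1048577 (.nx 792 20644 (.lg 0 false 4 97 101 23 0 65520) (.nr 799 65537 (.nr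
  797 32769 (.nr 795 513 (.lg 0 true 3 71 73 19 0 4680) (.nx 796 131073 (.lg 2 true 1 83 83 17
  29124 4680) .out)) (.nx 798 32769 (.lg 0 false 1 73 73 17 0 4680) .out)) .out)) .out))) .out)
  .out))) (.na 839 69 (.na 820 68 (.nx 819 2097153 (.nr 818 2097153 (.nr 804 66 .s1 (.nx 805 324
  (.l1 (.ls 79 29 1569)) (.nr 817 1048577 (.nx 809 20644 (.lg 0 false 4 89 89 16 0 720) (.nr 816
  65537 (.nr 813 513 (.lg 0 true 4 61 61 16 0 144) (.nx 815 131073 (.lg 2 false 2 83 83 16 58077
  720) .out)) .out)) .out))) .out) .out) (.nx 838 2097153 (.nr 837 2097153 (.nr 821 67 .s1 (.nx 824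
  192 (.nx 823 191 (.nr 822 676 (.l1 (.ls 31 31 539)) (.l1 .sk)) (.l1 .sk)) (.nx 829 20644 (.nx 825
  324 (.l1 (.ls 83 37 1004)) (.nr 828 1048577 (.lg 0 false 3 97 101 29 0 720) .out)) (.nr 836 65537
  (.nr 832 513 (.lg 0 true 3 73 73 29 0 144) (.nx 835 131073 (.nr 833 32769 (.lg 2 true 1 83 83 13
  29124 144) (.nx 834 32769 (.lg 0 false 1 79 79 13 0 144) .out)) .out)) .out)))) .out) .out)) (.na
  858 72 (.nx 857 2097153 (.nr 856 2097153 (.nr 840 68 .s1 (.nx 844 324 (.nx 842 191 (.nr 841 705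
  (.l1 (.ls 19 31 531)) (.l1 .sk)) (.nx 843 192 (.l1 .sk) (.l1 (.ls 83 31 990)))) (.nr 855 1048577
  (.nx 848 20644 (.lg 0 false 4 89 97 19 0 720) (.nr 854 65537 (.nr 850 513 (.lg 0 true 2 73 73 17
  0 144) (.nx 853 131073 (.nr 851 32769 (.lg 2 true 1 83 83 17 29124 720) (.nx 852 32769 (.lg 0
  false 1 73 73 17 0 72) .out)) .out)) .out)) .out))) .out) .out) (.na 877 75 (.nx 876 2097153 (.nr
  875 2097153 (.nr 859 71 .s1 (.nx 862 192 (.nx 861 191 (.nr 860 734 (.l1 (.ls 31 37 509)) (.l1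
  .sk)) (.l1 .sk)) (.nx 863 324 (.l1 (.ls 83 41 949)) (.nr 874 1048577 (.nx 867 20644 (.nr 865
  741457 (.lg 0 false 2 97 103 29 0 65520) (.nx 866 8192 .out (.lg 0 false 1 97 101 29 0 65520)))
  (.nr 873 65537 (.nr 869 513 (.lg 0 true 2 73 73 29 0 144) (.nx 872 131073 (.nr 870 32769 (.lg 2
  false 1 83 89 29 29124 5040) (.nx 871 32769 (.lg 0 false 1 79 83 29 0 720) .out)) .out)) .out))
  .out)))) .out) .out) (.nx 895 2097153 (.nr 894 2097153 (.nr 878 74 .s1 (.nx 881 192 (.nx 880 191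
  (.nr 879 764 (.l1 (.ls 29 29 489)) (.l1 .sk)) (.l1 .sk)) (.nx 887 20644 (.nx 882 324 (.l1 (.ls 79
  31 911)) (.nr 886 1048577 (.lg 0 false 4 83 89 23 0 720) .out)) (.nr 893 65537 (.nr 889 513 (.lg
  0 true 2 71 71 19 0 720) (.nx 892 131073 (.nr 890 32769 (.lg 2 true 1 79 79 17 29124 360) (.nx
  891 32769 (.lg 0 false 1 73 73 17 0 720) .out)) .out)) .out)))) .out) .out)))))))

theorem c11 :
    OkQ ckI L8 137 1 1099511627776 0 34359738368 1 1099511627776 ∧
    OkQ ckI L9 191 16 78 0 34359738368 1 1099511627776 := by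
  refine ⟨?_, ?_⟩
  · refine fin 72 14802 T11_0 ?_
    refine jn 10 (by decide +kernel) ?_
    refine jn 15 (by decide +kernel) ?_
    refine jn 20 (by decide +kernel) ?_
    refine jn 26 (by decide +kernel) ?_
    refine jn 32 (by decide +kernel) ?_
    refine jn 37 (by decide +kernel) ?_
    refine jn 44 (by decide +kernel) ?_
    refine jn 54 (by decide +kernel) ?_
    refine jn 65 (by decide +kernel) ?_
    refine jn 74 (by decide +kernel) ?_
    refine jn 85 (by decide +kernel) ?_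
    refine jn 119 (by decide +kernel) ?_
    refine jn 142 (by decide +kernel) ?_
    refine jn 156 (by decide +kernel) ?_
    refine jn 167 (by decide +kernel) ?_
    refine jn 188 (by decide +kernel) ?_
    refine jn 210 (by decide +kernel) ?_
    refine jn 212 (by decide +kernel) ?_
    refine jn 214 (by decide +kernel) ?_
    refine jn 216 (by decide +kernel) ?_
    refine jn 218 (by decide +kernel) ?_
    refine jn 220 (by decide +kernel) ?_
    refine jn 221 (by decide +kernel) ?_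
    refine jn 222 (by decide +kernel) ?_
    refine jn 223 (by decide +kernel) ?_
    refine jn 226 (by decide +kernel) ?_
    refine jn 227 (by decide +kernel) ?_
    refine jn 228 (by decide +kernel) ?_
    refine jn 231 (by decide +kernel) ?_
    refine jn 232 (by decide +kernel) ?_
    refine jn 233 (by decide +kernel) ?_
    refine jn 234 (by decide +kernel) ?_
    refine jn 235 (by decide +kernel) ?_
    refine jn 237 (by decide +kernel) ?_
    refine jn 239 (by decide +kernel) ?_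
    refine jn 241 (by decide +kernel) ?_
    refine jn 243 (by decide +kernel) ?_
    refine jn 245 (by decide +kernel) ?_
    refine jn 247 (by decide +kernel) ?_
    refine jn 249 (by decide +kernel) ?_
    refine jn 251 (by decide +kernel) ?_
    refine jn 253 (by decide +kernel) ?_
    refine jn 255 (by decide +kernel) ?_
    refine jn 257 (by decide +kernel) ?_
    refine jn 259 (by decide +kernel) ?_
    refine jn 261 (by decide +kernel) ?_
    refine jn 263 (by decide +kernel) ?_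
    refine jn 265 (by decide +kernel) ?_
    refine jn 275 (by decide +kernel) ?_
    refine jn 285 (by decide +kernel) ?_
    refine jn 296 (by decide +kernel) ?_
    refine jn 305 (by decide +kernel) ?_
    refine jn 310 (by decide +kernel) ?_
    refine jn 314 (by decide +kernel) ?_
    refine jn 321 (by decide +kernel) ?_
    refine jn 328 (by decide +kernel) ?_
    refine jn 330 (by decide +kernel) ?_
    refine jn 337 (by decide +kernel) ?_
    refine jn 366 (by decide +kernel) ?_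
    refine jn 380 (by decide +kernel) ?_
    refine jn 387 (by decide +kernel) ?_
    refine jn 388 (by decide +kernel) ?_
    refine jn 389 (by decide +kernel) ?_
    refine jn 390 (by decide +kernel) ?_
    refine jn 392 (by decide +kernel) ?_
    refine jn 394 (by decide +kernel) ?_
    refine jn 395 (by decide +kernel) ?_
    refine jn 396 (by decide +kernel) ?_
    refine jn 397 (by decide +kernel) ?_
    refine jn 398 (by decide +kernel) ?_
    refine jn 413 (by decide +kernel) ?_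
    refine jn 417 (by decide +kernel) ?_
    refine jn 419 (by decide +kernel) ?_
    refine jn 422 (by decide +kernel) ?_
    refine jn 425 (by decide +kernel) ?_
    refine jn 432 (by decide +kernel) ?_
    refine jn 439 (by decide +kernel) ?_
    refine jn 446 (by decide +kernel) ?_
    refine jn 458 (by decide +kernel) ?_
    refine jn 463 (by decide +kernel) ?_
    refine jn 473 (by decide +kernel) ?_
    refine jn 500 (by decide +kernel) ?_
    refine jn 509 (by decide +kernel) ?_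
    refine jn 511 (by decide +kernel) ?_
    refine jn 513 (by decide +kernel) ?_
    refine jn 515 (by decide +kernel) ?_
    refine jn 517 (by decide +kernel) ?_
    refine jn 525 (by decide +kernel) ?_
    refine jn 530 (by decide +kernel) ?_
    refine jn 533 (by decide +kernel) ?_
    refine jn 535 (by decide +kernel) ?_
    refine jn 542 (by decide +kernel) ?_
    refine jn 551 (by decide +kernel) ?_
    refine jn 561 (by decide +kernel) ?_
    refine jn 591 (by decide +kernel) ?_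
    refine jn 603 (by decide +kernel) ?_
    refine jn 606 (by decide +kernel) ?_
    refine jn 613 (by decide +kernel) ?_
    refine jn 618 (by decide +kernel) ?_
    refine jn 628 (by decide +kernel) ?_
    refine jn 635 (by decide +kernel) ?_
    refine jn 645 (by decide +kernel) ?_
    refine jn 648 (by decide +kernel) ?_
    refine jn 659 (by decide +kernel) ?_
    refine jn 662 (by decide +kernel) ?_
    refine jn 669 (by decide +kernel) ?_
    refine jn 678 (by decide +kernel) ?_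
    refine jn 683 (by decide +kernel) ?_
    refine jn 688 (by decide +kernel) ?_
    refine jn 700 (by decide +kernel) ?_
    refine jn 708 (by decide +kernel) ?_
    refine jn 713 (by decide +kernel) ?_
    refine jn 724 (by decide +kernel) ?_
    refine jn 732 (by decide +kernel) ?_
    refine jn 740 (by decide +kernel) ?_
    refine jn 751 (by decide +kernel) ?_
    refine jn 759 (by decide +kernel) ?_
    refine jn 770 (by decide +kernel) ?_
    refine jn 778 (by decide +kernel) ?_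
    refine jn 791 (by decide +kernel) ?_
    refine jn 796 (by decide +kernel) ?_
    refine jn 808 (by decide +kernel) ?_
    refine jn 813 (by decide +kernel) ?_
    refine jn 821 (by decide +kernel) ?_
    refine jn 823 (by decide +kernel) ?_
    refine jn 825 (by decide +kernel) ?_
    refine jn 827 (by decide +kernel) ?_
    refine jn 843 (by decide +kernel) ?_
    refine jn 848 (by decide +kernel) ?_
    refine jn 863 (by decide +kernel) ?_
    refine jn 875 (by decide +kernel) ?_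
    refine jn 887 (by decide +kernel) ?_
    refine jn 897 (by decide +kernel) ?_
    refine jn 903 (by decide +kernel) ?_
    refine jn 904 (by decide +kernel) ?_
    refine jn 905 (by decide +kernel) ?_
    refine jn 906 (by decide +kernel) ?_
    refine jn 913 (by decide +kernel) ?_
    refine jn 927 (by decide +kernel) ?_
    refine jn 942 (by decide +kernel) ?_
    refine jn 957 (by decide +kernel) ?_
    refine jn 973 (by decide +kernel) ?_
    refine jn 990 (by decide +kernel) ?_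
    refine jn 1005 (by decide +kernel) ?_
    refine jn 1017 (by decide +kernel) ?_
    refine jn 1022 (by decide +kernel) ?_
    refine jn 1025 (by decide +kernel) ?_
    refine jn 1039 (by decide +kernel) ?_
    refine jn 1054 (by decide +kernel) ?_
    refine jn 1064 (by decide +kernel) ?_
    refine jn 1067 (by decide +kernel) ?_
    refine jn 1081 (by decide +kernel) ?_
    refine jn 1092 (by decide +kernel) ?_
    refine jn 1107 (by decide +kernel) ?_
    refine jn 1120 (by decide +kernel) ?_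
    refine jn 1132 (by decide +kernel) ?_
    refine jn 1152 (by decide +kernel) ?_
    refine jn 1162 (by decide +kernel) ?_
    refine jn 1166 (by decide +kernel) ?_
    refine jn 1178 (by decide +kernel) ?_
    refine jn 1195 (by decide +kernel) ?_
    refine jn 1208 (by decide +kernel) ?_
    refine jn 1219 (by decide +kernel) ?_
    refine jn 1231 (by decide +kernel) ?_
    refine jn 1248 (by decide +kernel) ?_
    refine jn 1259 (by decide +kernel) ?_
    refine jn 1270 (by decide +kernel) ?_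
    refine jn 1279 (by decide +kernel) ?_
    refine jn 1288 (by decide +kernel) ?_
    refine jn 1298 (by decide +kernel) ?_
    refine jn 1313 (by decide +kernel) ?_
    refine jn 1324 (by decide +kernel) ?_
    refine jn 1335 (by decide +kernel) ?_
    refine jn 1345 (by decide +kernel) ?_
    refine jn 1355 (by decide +kernel) ?_
    refine jn 1372 (by decide +kernel) ?_
    refine jn 1383 (by decide +kernel) ?_
    refine jn 1400 (by decide +kernel) ?_
    refine jn 1448 (by decide +kernel) ?_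
    refine jn 1552 (by decide +kernel) ?_
    refine jn 1620 (by decide +kernel) ?_
    refine jn 1633 (by decide +kernel) ?_
    refine jn 1641 (by decide +kernel) ?_
    refine jn 1644 (by decide +kernel) ?_
    refine jn 1665 (by decide +kernel) ?_
    refine jn 1669 (by decide +kernel) ?_
    refine jn 1695 (by decide +kernel) ?_
    refine jn 1708 (by decide +kernel) ?_
    refine jn 1728 (by decide +kernel) ?_
    refine jn 1743 (by decide +kernel) ?_
    refine jn 1749 (by decide +kernel) ?_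
    refine jn 1755 (by decide +kernel) ?_
    refine jn 1760 (by decide +kernel) ?_
    refine jn 1776 (by decide +kernel) ?_
    refine jn 1793 (by decide +kernel) ?_
    refine jn 1808 (by decide +kernel) ?_
    refine jn 1823 (by decide +kernel) ?_
    refine jn 1840 (by decide +kernel) ?_
    refine jn 1853 (by decide +kernel) ?_
    refine jn 1865 (by decide +kernel) ?_
    refine jn 1875 (by decide +kernel) ?_
    refine jn 1888 (by decide +kernel) ?_
    refine jn 1899 (by decide +kernel) ?_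
    refine jn 1920 (by decide +kernel) ?_
    refine jn 1924 (by decide +kernel) ?_
    refine jn 1950 (by decide +kernel) ?_
    refine jn 1975 (by decide +kernel) ?_
    refine jn 1990 (by decide +kernel) ?_
    refine jn 2003 (by decide +kernel) ?_
    refine jn 2010 (by decide +kernel) ?_
    refine jn 2019 (by decide +kernel) ?_
    refine jn 2036 (by decide +kernel) ?_
    refine jn 2055 (by decide +kernel) ?_
    refine jn 2076 (by decide +kernel) ?_
    refine jn 2091 (by decide +kernel) ?_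
    refine jn 2106 (by decide +kernel) ?_
    refine jn 2119 (by decide +kernel) ?_
    refine jn 2215 (by decide +kernel) ?_
    refine jn 2354 (by decide +kernel) ?_
    refine jn 2369 (by decide +kernel) ?_
    refine jn 2385 (by decide +kernel) ?_
    refine jn 2400 (by decide +kernel) ?_
    refine jn 2413 (by decide +kernel) ?_
    refine jn 2426 (by decide +kernel) ?_
    refine jn 2440 (by decide +kernel) ?_
    refine jn 2448 (by decide +kernel) ?_
    refine jn 2456 (by decide +kernel) ?_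
    refine jn 2480 (by decide +kernel) ?_
    refine jn 2486 (by decide +kernel) ?_
    refine jn 2496 (by decide +kernel) ?_
    refine jn 2518 (by decide +kernel) ?_
    refine jn 2544 (by decide +kernel) ?_
    refine jn 2568 (by decide +kernel) ?_
    refine jn 2583 (by decide +kernel) ?_
    refine jn 2599 (by decide +kernel) ?_
    refine jn 2614 (by decide +kernel) ?_
    refine jn 2627 (by decide +kernel) ?_
    refine jn 2640 (by decide +kernel) ?_
    refine jn 2654 (by decide +kernel) ?_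
    refine jn 2662 (by decide +kernel) ?_
    refine jn 2672 (by decide +kernel) ?_
    refine jn 2695 (by decide +kernel) ?_
    refine jn 2703 (by decide +kernel) ?_
    refine jn 2715 (by decide +kernel) ?_
    refine jn 2742 (by decide +kernel) ?_
    refine jn 2759 (by decide +kernel) ?_
    refine jn 2807 (by decide +kernel) ?_
    refine jn 2858 (by decide +kernel) ?_
    refine jn 2907 (by decide +kernel) ?_
    refine jn 2967 (by decide +kernel) ?_
    refine jn 3034 (by decide +kernel) ?_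
    refine jn 3090 (by decide +kernel) ?_
    refine jn 3117 (by decide +kernel) ?_
    refine jn 3138 (by decide +kernel) ?_
    refine jn 3187 (by decide +kernel) ?_
    refine jn 3223 (by decide +kernel) ?_
    refine jn 3266 (by decide +kernel) ?_
    refine jn 3325 (by decide +kernel) ?_
    refine jn 3362 (by decide +kernel) ?_
    refine jn 3425 (by decide +kernel) ?_
    refine jn 3494 (by decide +kernel) ?_
    refine jn 3530 (by decide +kernel) ?_
    refine jn 3585 (by decide +kernel) ?_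
    refine jn 3641 (by decide +kernel) ?_
    refine jn 3695 (by decide +kernel) ?_
    refine jn 3770 (by decide +kernel) ?_
    refine jn 3814 (by decide +kernel) ?_
    refine jn 3864 (by decide +kernel) ?_
    refine jn 3919 (by decide +kernel) ?_
    refine jn 3946 (by decide +kernel) ?_
    refine jn 3967 (by decide +kernel) ?_
    refine jn 4006 (by decide +kernel) ?_
    refine jn 4050 (by decide +kernel) ?_
    refine jn 4076 (by decide +kernel) ?_
    refine jn 4127 (by decide +kernel) ?_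
    refine jn 4184 (by decide +kernel) ?_
    refine jn 4234 (by decide +kernel) ?_
    refine jn 4286 (by decide +kernel) ?_
    refine jn 4360 (by decide +kernel) ?_
    refine jn 4435 (by decide +kernel) ?_
    refine jn 4500 (by decide +kernel) ?_
    refine jn 4591 (by decide +kernel) ?_
    refine jn 4668 (by decide +kernel) ?_
    refine jn 4748 (by decide +kernel) ?_
    refine jn 4825 (by decide +kernel) ?_
    refine jn 4919 (by decide +kernel) ?_
    refine jn 4997 (by decide +kernel) ?_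
    refine jn 5066 (by decide +kernel) ?_
    refine jn 5126 (by decide +kernel) ?_
    refine jn 5194 (by decide +kernel) ?_
    refine jn 5267 (by decide +kernel) ?_
    refine jn 5369 (by decide +kernel) ?_
    refine jn 5457 (by decide +kernel) ?_
    refine jn 5542 (by decide +kernel) ?_
    refine jn 5626 (by decide +kernel) ?_
    refine jn 5839 (by decide +kernel) ?_
    refine jn 5918 (by decide +kernel) ?_
    refine jn 6039 (by decide +kernel) ?_
    refine jn 6147 (by decide +kernel) ?_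
    refine jn 6259 (by decide +kernel) ?_
    refine jn 6359 (by decide +kernel) ?_
    refine jn 6475 (by decide +kernel) ?_
    refine jn 6590 (by decide +kernel) ?_
    refine jn 6695 (by decide +kernel) ?_
    refine jn 6784 (by decide +kernel) ?_
    refine jn 6915 (by decide +kernel) ?_
    refine jn 7020 (by decide +kernel) ?_
    refine jn 7219 (by decide +kernel) ?_
    refine jn 7340 (by decide +kernel) ?_
    refine jn 7455 (by decide +kernel) ?_
    refine jn 7568 (by decide +kernel) ?_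
    refine jn 7684 (by decide +kernel) ?_
    refine jn 7820 (by decide +kernel) ?_
    refine jn 7953 (by decide +kernel) ?_
    refine jn 8071 (by decide +kernel) ?_
    refine jn 8194 (by decide +kernel) ?_
    refine jn 8323 (by decide +kernel) ?_
    refine jn 8464 (by decide +kernel) ?_
    refine jn 8596 (by decide +kernel) ?_
    refine jn 8696 (by decide +kernel) ?_
    refine jn 8831 (by decide +kernel) ?_
    refine jn 9216 (by decide +kernel) ?_
    refine jn 9482 (by decide +kernel) ?_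
    refine jn 9642 (by decide +kernel) ?_
    refine jn 9775 (by decide +kernel) ?_
    refine jn 9881 (by decide +kernel) ?_
    refine jn 9968 (by decide +kernel) ?_
    refine jn 10055 (by decide +kernel) ?_
    refine jn 10127 (by decide +kernel) ?_
    refine jn 10460 (by decide +kernel) ?_
    refine jn 10652 (by decide +kernel) ?_
    refine jn 10792 (by decide +kernel) ?_
    refine jn 10910 (by decide +kernel) ?_
    refine jn 11014 (by decide +kernel) ?_
    refine jn 11104 (by decide +kernel) ?_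
    refine jn 11176 (by decide +kernel) ?_
    refine jn 11245 (by decide +kernel) ?_
    refine jn 11308 (by decide +kernel) ?_
    refine jn 11359 (by decide +kernel) ?_
    refine jn 11413 (by decide +kernel) ?_
    refine jn 11732 (by decide +kernel) ?_
    refine jn 11961 (by decide +kernel) ?_
    refine jn 12126 (by decide +kernel) ?_
    refine jn 12280 (by decide +kernel) ?_
    refine jn 12413 (by decide +kernel) ?_
    refine jn 12521 (by decide +kernel) ?_
    refine jn 12616 (by decide +kernel) ?_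
    refine jn 12693 (by decide +kernel) ?_
    refine jn 13078 (by decide +kernel) ?_
    refine jn 13369 (by decide +kernel) ?_
    refine jn 13571 (by decide +kernel) ?_
    refine jn 13734 (by decide +kernel) ?_
    refine jn 14336 (by decide +kernel) ?_
    refine jn 14558 (by decide +kernel) ?_
    refine jn 14748 (by decide +kernel) ?_
    exact je (by decide +kernel)
  · refine fin 72 896 T11_1 ?_
    refine jn 4 (by decide +kernel) ?_
    refine jn 5 (by decide +kernel) ?_
    refine jn 6 (by decide +kernel) ?_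
    refine jn 7 (by decide +kernel) ?_
    refine jn 8 (by decide +kernel) ?_
    refine jn 9 (by decide +kernel) ?_
    refine jn 10 (by decide +kernel) ?_
    refine jn 11 (by decide +kernel) ?_
    refine jn 12 (by decide +kernel) ?_
    refine jn 13 (by decide +kernel) ?_
    refine jn 14 (by decide +kernel) ?_
    refine jn 15 (by decide +kernel) ?_
    refine jn 16 (by decide +kernel) ?_
    refine jn 17 (by decide +kernel) ?_
    refine jn 18 (by decide +kernel) ?_
    refine jn 19 (by decide +kernel) ?_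
    refine jn 20 (by decide +kernel) ?_
    refine jn 23 (by decide +kernel) ?_
    refine jn 26 (by decide +kernel) ?_
    refine jn 27 (by decide +kernel) ?_
    refine jn 30 (by decide +kernel) ?_
    refine jn 33 (by decide +kernel) ?_
    refine jn 42 (by decide +kernel) ?_
    refine jn 46 (by decide +kernel) ?_
    refine jn 56 (by decide +kernel) ?_
    refine jn 61 (by decide +kernel) ?_
    refine jn 66 (by decide +kernel) ?_
    refine jn 68 (by decide +kernel) ?_
    refine jn 72 (by decide +kernel) ?_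
    refine jn 83 (by decide +kernel) ?_
    refine jn 92 (by decide +kernel) ?_
    refine jn 105 (by decide +kernel) ?_
    refine jn 109 (by decide +kernel) ?_
    refine jn 113 (by decide +kernel) ?_
    refine jn 121 (by decide +kernel) ?_
    refine jn 129 (by decide +kernel) ?_
    refine jn 136 (by decide +kernel) ?_
    refine jn 143 (by decide +kernel) ?_
    refine jn 152 (by decide +kernel) ?_
    refine jn 159 (by decide +kernel) ?_
    refine jn 160 (by decide +kernel) ?_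
    refine jn 161 (by decide +kernel) ?_
    refine jn 162 (by decide +kernel) ?_
    refine jn 163 (by decide +kernel) ?_
    refine jn 164 (by decide +kernel) ?_
    refine jn 165 (by decide +kernel) ?_
    refine jn 166 (by decide +kernel) ?_
    refine jn 167 (by decide +kernel) ?_
    refine jn 168 (by decide +kernel) ?_
    refine jn 169 (by decide +kernel) ?_
    refine jn 170 (by decide +kernel) ?_
    refine jn 171 (by decide +kernel) ?_
    refine jn 177 (by decide +kernel) ?_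
    refine jn 178 (by decide +kernel) ?_
    refine jn 182 (by decide +kernel) ?_
    refine jn 185 (by decide +kernel) ?_
    refine jn 190 (by decide +kernel) ?_
    refine jn 198 (by decide +kernel) ?_
    refine jn 211 (by decide +kernel) ?_
    refine jn 218 (by decide +kernel) ?_
    refine jn 225 (by decide +kernel) ?_
    refine jn 235 (by decide +kernel) ?_
    refine jn 244 (by decide +kernel) ?_
    refine jn 245 (by decide +kernel) ?_
    refine jn 246 (by decide +kernel) ?_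
    refine jn 247 (by decide +kernel) ?_
    refine jn 248 (by decide +kernel) ?_
    refine jn 249 (by decide +kernel) ?_
    refine jn 250 (by decide +kernel) ?_
    refine jn 251 (by decide +kernel) ?_
    refine jn 253 (by decide +kernel) ?_
    refine jn 255 (by decide +kernel) ?_
    refine jn 256 (by decide +kernel) ?_
    refine jn 257 (by decide +kernel) ?_
    refine jn 258 (by decide +kernel) ?_
    refine jn 259 (by decide +kernel) ?_
    refine jn 260 (by decide +kernel) ?_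
    refine jn 262 (by decide +kernel) ?_
    refine jn 263 (by decide +kernel) ?_
    refine jn 264 (by decide +kernel) ?_
    refine jn 268 (by decide +kernel) ?_
    refine jn 269 (by decide +kernel) ?_
    refine jn 270 (by decide +kernel) ?_
    refine jn 283 (by decide +kernel) ?_
    refine jn 286 (by decide +kernel) ?_
    refine jn 294 (by decide +kernel) ?_
    refine jn 308 (by decide +kernel) ?_
    refine jn 320 (by decide +kernel) ?_
    refine jn 326 (by decide +kernel) ?_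
    refine jn 333 (by decide +kernel) ?_
    refine jn 341 (by decide +kernel) ?_
    refine jn 354 (by decide +kernel) ?_
    refine jn 357 (by decide +kernel) ?_
    refine jn 364 (by decide +kernel) ?_
    refine jn 377 (by decide +kernel) ?_
    refine jn 386 (by decide +kernel) ?_
    refine jn 388 (by decide +kernel) ?_
    refine jn 389 (by decide +kernel) ?_
    refine jn 390 (by decide +kernel) ?_
    refine jn 391 (by decide +kernel) ?_
    refine jn 393 (by decide +kernel) ?_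
    refine jn 396 (by decide +kernel) ?_
    refine jn 399 (by decide +kernel) ?_
    refine jn 400 (by decide +kernel) ?_
    refine jn 402 (by decide +kernel) ?_
    refine jn 408 (by decide +kernel) ?_
    refine jn 416 (by decide +kernel) ?_
    refine jn 418 (by decide +kernel) ?_
    refine jn 420 (by decide +kernel) ?_
    refine jn 422 (by decide +kernel) ?_
    refine jn 423 (by decide +kernel) ?_
    refine jn 426 (by decide +kernel) ?_
    refine jn 428 (by decide +kernel) ?_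
    refine jn 430 (by decide +kernel) ?_
    refine jn 433 (by decide +kernel) ?_
    refine jn 438 (by decide +kernel) ?_
    refine jn 455 (by decide +kernel) ?_
    refine jn 462 (by decide +kernel) ?_
    refine jn 474 (by decide +kernel) ?_
    refine jn 477 (by decide +kernel) ?_
    refine jn 480 (by decide +kernel) ?_
    refine jn 482 (by decide +kernel) ?_
    refine jn 484 (by decide +kernel) ?_
    refine jn 487 (by decide +kernel) ?_
    refine jn 489 (by decide +kernel) ?_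
    refine jn 493 (by decide +kernel) ?_
    refine jn 501 (by decide +kernel) ?_
    refine jn 503 (by decide +kernel) ?_
    refine jn 505 (by decide +kernel) ?_
    refine jn 507 (by decide +kernel) ?_
    refine jn 510 (by decide +kernel) ?_
    refine jn 512 (by decide +kernel) ?_
    refine jn 517 (by decide +kernel) ?_
    refine jn 524 (by decide +kernel) ?_
    refine jn 525 (by decide +kernel) ?_
    refine jn 526 (by decide +kernel) ?_
    refine jn 527 (by decide +kernel) ?_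
    refine jn 528 (by decide +kernel) ?_
    refine jn 530 (by decide +kernel) ?_
    refine jn 531 (by decide +kernel) ?_
    refine jn 532 (by decide +kernel) ?_
    refine jn 533 (by decide +kernel) ?_
    refine jn 534 (by decide +kernel) ?_
    refine jn 541 (by decide +kernel) ?_
    refine jn 542 (by decide +kernel) ?_
    refine jn 543 (by decide +kernel) ?_
    refine jn 558 (by decide +kernel) ?_
    refine jn 567 (by decide +kernel) ?_
    refine jn 576 (by decide +kernel) ?_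
    refine jn 578 (by decide +kernel) ?_
    refine jn 580 (by decide +kernel) ?_
    refine jn 584 (by decide +kernel) ?_
    refine jn 587 (by decide +kernel) ?_
    refine jn 588 (by decide +kernel) ?_
    refine jn 590 (by decide +kernel) ?_
    refine jn 603 (by decide +kernel) ?_
    refine jn 610 (by decide +kernel) ?_
    refine jn 619 (by decide +kernel) ?_
    refine jn 620 (by decide +kernel) ?_
    refine jn 621 (by decide +kernel) ?_
    refine jn 622 (by decide +kernel) ?_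
    refine jn 623 (by decide +kernel) ?_
    refine jn 624 (by decide +kernel) ?_
    refine jn 625 (by decide +kernel) ?_
    refine jn 626 (by decide +kernel) ?_
    refine jn 627 (by decide +kernel) ?_
    refine jn 628 (by decide +kernel) ?_
    refine jn 630 (by decide +kernel) ?_
    refine jn 631 (by decide +kernel) ?_
    refine jn 632 (by decide +kernel) ?_
    refine jn 635 (by decide +kernel) ?_
    refine jn 636 (by decide +kernel) ?_
    refine jn 649 (by decide +kernel) ?_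
    refine jn 654 (by decide +kernel) ?_
    refine jn 664 (by decide +kernel) ?_
    refine jn 667 (by decide +kernel) ?_
    refine jn 668 (by decide +kernel) ?_
    refine jn 671 (by decide +kernel) ?_
    refine jn 673 (by decide +kernel) ?_
    refine jn 685 (by decide +kernel) ?_
    refine jn 687 (by decide +kernel) ?_
    refine jn 690 (by decide +kernel) ?_
    refine jn 692 (by decide +kernel) ?_
    refine jn 697 (by decide +kernel) ?_
    refine jn 710 (by decide +kernel) ?_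
    refine jn 717 (by decide +kernel) ?_
    refine jn 732 (by decide +kernel) ?_
    refine jn 743 (by decide +kernel) ?_
    refine jn 744 (by decide +kernel) ?_
    refine jn 745 (by decide +kernel) ?_
    refine jn 746 (by decide +kernel) ?_
    refine jn 750 (by decide +kernel) ?_
    refine jn 751 (by decide +kernel) ?_
    refine jn 752 (by decide +kernel) ?_
    refine jn 754 (by decide +kernel) ?_
    refine jn 755 (by decide +kernel) ?_
    refine jn 768 (by decide +kernel) ?_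
    refine jn 772 (by decide +kernel) ?_
    refine jn 775 (by decide +kernel) ?_
    refine jn 778 (by decide +kernel) ?_
    refine jn 788 (by decide +kernel) ?_
    refine jn 792 (by decide +kernel) ?_
    refine jn 795 (by decide +kernel) ?_
    refine jn 798 (by decide +kernel) ?_
    refine jn 813 (by decide +kernel) ?_
    refine jn 825 (by decide +kernel) ?_
    refine jn 828 (by decide +kernel) ?_
    refine jn 832 (by decide +kernel) ?_
    refine jn 834 (by decide +kernel) ?_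
    refine jn 844 (by decide +kernel) ?_
    refine jn 848 (by decide +kernel) ?_
    refine jn 850 (by decide +kernel) ?_
    refine jn 852 (by decide +kernel) ?_
    refine jn 863 (by decide +kernel) ?_
    refine jn 864 (by decide +kernel) ?_
    refine jn 865 (by decide +kernel) ?_
    refine jn 867 (by decide +kernel) ?_
    refine jn 868 (by decide +kernel) ?_
    refine jn 869 (by decide +kernel) ?_
    refine jn 870 (by decide +kernel) ?_
    refine jn 882 (by decide +kernel) ?_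
    refine jn 886 (by decide +kernel) ?_
    refine jn 889 (by decide +kernel) ?_
    refine jn 891 (by decide +kernel) ?_
    exact je (by decide +kernel)

end Pool.Agent.MP_2339ce_nt.NR
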