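import Pool.Agent.MP_2339ce_nt.Q2.NC.L6
import Pool.Agent.MP_2339ce_nt.Q2.NC.L8
import Pool.Agent.MP_2339ce_nt.Q2.NC.L9
import Pool.Agent.MP_2339ce_nt.Q2.CkI

/-! Block NR: runs. -/

set_option autoImplicit false
set_option maxRecDepth 100000

noncomputable section

namespace Pool.Agent.MP_2339ce_nt.NR

open Q2.Top

def T110_0 : Ph :=
  (.na 1122 162 (.na 956 81 (.na 859 23 (.na 724 6 (.na 542 3 (.na 319 2 (.nx 318 1321124 (.nr 317
  881745 (.nx 138 32769 (.nx 2 177 (.nr 1 14 (.lg 0 true 1 41 41 5 0 21240) (.l1 .sk)) (.nx 3 178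
  (.l1 .sk) (.nr 94 77937 (.lg 0 false 91 101 107 16 0 3865680) (.nx 137 13005 (.nx 122 257 (.lg 0
  false 28 83 83 11 0 19824) (.nx 123 2580 .out (.nr 136 92683 (.lg 0 false 13 101 103 9 0 552240)
  .out))) .out)))) (.nr 316 55110 (.nx 287 660563 (.nr 166 695 (.lg 0 true 28 97 101 11 0 297360)
  (.nr 179 1219 (.lg 2 true 13 89 89 9 84115 276120) (.nx 286 524289 (.nr 192 2437 (.lg 2 true 13
  89 97 9 38064 276120) (.nx 285 416129 (.nr 199 4097 (.lg 2 true 7 97 97 9 15112 148680) (.nr 227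
  23172 (.lg 2 false 28 97 103 11 11162 3270960) (.nx 284 262145 (.nr 255 38969 (.lg 2 true 28 97
  103 11 18714 297360) (.nx 283 104033 (.lg 2 true 28 97 103 11 26430 297360) .out)) .out))) .out))
  .out))) (.nr 315 129 (.lg 0 true 28 83 83 11 0 19824) .out)) .out)) .out) .out) (.nx 541 3329023
  (.nr 540 623489 (.nx 322 178 (.nx 321 177 (.nr 320 25 (.lg 0 false 1 37 37 5 0 2832) (.l1 .sk))
  (.l1 .sk)) (.nx 521 1664512 (.nr 507 131073 (.nx 387 32769 (.lg 0 false 65 101 109 13 0 42522480)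
  (.nr 506 92683 (.nr 422 450 (.lg 0 true 35 89 89 13 0 99120) (.nx 505 416129 (.nr 433 2437 (.lg 2
  true 11 89 97 9 81839 31152) (.nx 504 330282 (.nx 468 82572 (.lg 1 true 35 103 109 13 44391
  42522480) (.nr 503 77937 (.lg 2 false 35 101 109 13 14819 42522480) .out)) .out)) .out)) .out))
  (.nx 520 257 (.lg 0 false 13 79 79 9 0 36816) .out)) (.nr 539 9 (.lg 0 true 18 67 67 9 0 8496)
  .out))) .out) .out)) (.na 723 4 (.nx 722 6658044 (.nr 721 1482912 (.nx 685 1048577 (.nx 545 178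
  (.nx 544 177 (.nr 543 36 (.lg 0 true 1 29 29 5 0 4248) (.l1 .sk)) (.l1 .sk)) (.nr 664 131073 (.nx
  580 30457 (.lg 0 false 35 89 97 16 0 148680) (.nr 600 364 (.lg 0 true 20 79 79 16 0 42480) (.nx
  663 262145 (.nr 611 2904 (.lg 2 true 11 83 83 7 63736 46728) (.nx 651 104033 (.nx 631 59217 (.lg
  1 false 20 101 103 16 67505 3865680) (.lg 1 true 20 101 103 16 34720 3865680)) (.nr 662 65537
  (.lg 2 false 11 89 97 7 9895 46728) .out))) .out))) (.nx 684 257 (.lg 0 false 20 73 73 16 0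
  42480) .out))) (.nr 720 33 (.lg 0 true 35 73 73 7 0 148680) .out)) .out) .out) .ne)) (.na 856 9
  (.na 855 7 (.nx 854 13316087 (.nr 853 623489 (.nx 728 205 (.nx 726 177 (.nr 725 65 (.lg 0 false 1
  29 29 7 0 8496) (.l1 .sk)) (.nx 727 178 (.l1 .sk) (.l1 (.ls 79 41 1726)))) (.nr 852 370729 (.nx
  749 28089 (.nr 741 131073 (.lg 0 false 13 97 101 13 0 552240) (.nx 748 1627 (.lg 0 false 7 83 83
  13 0 59472) .out)) (.nr 851 155873 (.nr 810 1026 (.nx 762 832257 (.lg 0 true 13 83 83 13 0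
  110448) (.nr 809 129 (.nr 797 42 (.lg 0 true 35 73 73 13 0 297360) (.nx 808 1664512 (.lg 0 true
  11 71 71 13 0 93456) .out)) .out)) (.nx 850 660563 (.nx 822 52015 (.nr 821 131073 (.lg 1 false 11
  97 101 13 73196 467280) .out) (.nx 835 131073 (.lg 1 true 13 97 101 13 46996 552240) (.nr 849
  65537 (.nr 842 8201 (.lg 2 true 7 89 89 13 56979 297360) (.lg 2 false 7 89 89 13 7854 297360))
  .out))) .out)) .out)) .out)) .out) .out) .ne) (.na 857 10 (.lg 0 false 1 0 0 7 0 24) (.na 858 18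
  .ne (.lg 0 false 1 0 0 7 0 24))))) (.na 905 54 (.na 885 32 (.na 860 31 .ne (.nx 884 1664512 (.nr
  883 1048577 (.nr 861 29 .s1 (.nx 864 178 (.nx 863 177 (.nr 862 302 (.l1 (.ls 17 23 1013)) (.l1
  .sk)) (.l1 .sk)) (.nx 865 257 (.l1 (.ls 79 23 1111)) (.nr 882 311745 (.nx 877 165142 (.nr 872
  77937 (.lg 0 false 7 83 83 16 0 9912) (.nx 876 20644 (.lg 0 false 4 97 101 16 0 42480) .out))
  (.nr 881 513 (.lg 0 true 4 73 73 16 0 2832) .out)) .out)))) .out) .out)) (.na 886 43 .ne (.na 904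
  46 (.nx 903 1664512 (.nr 902 881745 (.nr 887 41 .s1 (.nx 888 257 (.l1 (.ls 71 29 1539)) (.nr 901
  440873 (.nx 893 26009 (.lg 0 false 5 89 89 16 0 21240) (.nr 900 32769 (.nr 898 434 (.lg 0 true 5
  67 67 16 0 7080) (.nx 899 104033 (.lg 2 true 1 79 79 16 21215 4248) .out)) .out)) .out))) .out)
  .out) .ne))) (.na 922 64 (.na 906 62 (.lg 0 false 1 0 0 16 0 24) (.nx 921 1664512 (.nr 920 881745
  (.nr 907 61 .s1 (.nx 914 20644 (.nx 908 257 (.l1 (.ls 73 37 1068)) (.nr 913 623489 (.lg 0 false 5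
  89 89 19 0 14160) .out)) (.nr 919 46342 (.nr 916 257 (.lg 0 true 2 61 61 17 0 2832) (.nx 918
  104033 (.lg 2 false 2 79 79 17 35825 2832) .out)) .out))) .out) .out)) (.na 923 67 .ne (.na 940
  71 (.nx 939 1664512 (.nr 938 524289 (.nr 924 66 .s1 (.nx 932 20644 (.nx 926 177 (.nr 925 669 (.l1
  (.ls 16 19 470)) (.l1 .sk)) (.nx 927 178 (.l1 .sk) (.lg 0 false 5 83 83 16 0 21240))) (.nr 937
  32769 (.nr 935 513 (.lg 0 true 3 61 61 16 0 4248) (.nx 936 104033 (.lg 2 true 1 73 73 16 25000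
  1416) .out)) .out))) .out) .out) (.nx 955 1664512 (.nr 954 524289 (.nr 941 70 .s1 (.nx 944 178
  (.nx 943 177 (.nr 942 763 (.l1 (.ls 16 19 444)) (.l1 .sk)) (.l1 .sk)) (.nx 948 20644 (.lg 0 false
  4 89 89 16 0 42480) (.nr 953 32769 (.nr 951 513 (.lg 0 true 3 61 61 16 0 4248) (.nx 952 104033
  (.lg 2 true 1 73 73 16 25000 1416) .out)) .out)))) .out) .out)))))) (.na 1068 128 (.na 988 93
  (.na 971 89 (.na 957 86 (.lg 0 false 1 0 0 16 0 24) (.nx 970 1664512 (.nr 969 524289 (.nr 958 85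
  .s1 (.nx 964 20644 (.nx 960 177 (.nr 959 839 (.l1 (.ls 19 29 367)) (.l1 .sk)) (.nx 961 178 (.l1
  .sk) (.lg 0 false 3 89 89 19 0 8496))) (.nr 968 32769 (.nr 966 513 (.lg 0 true 2 71 71 19 0 2832)
  (.nx 967 104033 (.lg 2 true 1 79 79 13 25000 2832) .out)) .out))) .out) .out)) (.na 987 91 (.nx
  986 1664512 (.nr 985 524289 (.nr 972 89 .s1 (.nr 978 32769 (.nx 973 1755 (.l1 (.ls 47 43 34610))
  (.nx 975 104033 (.lg 0 false 2 73 73 16 0 42480) (.nr 977 513 (.lg 0 true 2 61 61 16 0 2832)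
  .out))) (.nx 980 178 (.nx 979 177 (.l1 .sk) (.l1 .sk)) (.nx 984 20644 (.lg 0 false 4 83 83 16 0
  42480) .out)))) .out) .out) .ne)) (.na 1020 107 (.na 1004 103 (.nx 1003 1664512 (.nr 1002 1048577
  (.nr 989 93 .s1 (.nx 991 177 (.nr 990 971 (.l1 (.ls 16 23 339)) (.l1 .sk)) (.nx 992 178 (.l1 .sk)
  (.nx 997 20644 (.lg 0 false 5 83 83 19 0 21240) (.nr 1001 32769 (.nr 999 513 (.lg 0 true 2 67 67
  17 0 8496) (.nx 1000 104033 (.lg 2 true 1 73 73 16 25000 4248) .out)) .out))))) .out) .out) (.nx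
  1019 1664512 (.nr 1018 1048577 (.nr 1005 103 .s1 (.nx 1008 178 (.nx 1007 177 (.nr 1006 1008 (.l1
  (.ls 16 19 307)) (.l1 .sk)) (.l1 .sk)) (.nx 1013 20644 (.lg 0 false 5 79 79 17 0 7080) (.nr 1017
  32769 (.nr 1015 513 (.lg 0 true 2 61 61 16 0 2832) (.nx 1016 104033 (.lg 2 true 1 67 67 16 25000
  1416) .out)) .out)))) .out) .out)) (.na 1035 113 (.nx 1034 1664512 (.nr 1033 1048577 (.nr 1021
  107 .s1 (.nx 1023 177 (.nr 1022 1065 (.l1 (.ls 16 17 295)) (.l1 .sk)) (.nx 1024 178 (.l1 .sk)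
  (.nx 1029 20644 (.lg 0 false 5 79 79 17 0 21240) (.nr 1032 32769 (.nr 1030 513 (.lg 0 false 1 61
  61 16 0 1416) (.nx 1031 104033 (.lg 2 true 1 67 67 16 25000 1416) .out)) .out))))) .out) .out)
  (.na 1051 118 (.nx 1050 1664512 (.nr 1049 1048577 (.nr 1036 113 .s1 (.nx 1039 178 (.nx 1038 177
  (.nr 1037 1112 (.l1 (.ls 16 17 280)) (.l1 .sk)) (.l1 .sk)) (.nx 1044 20644 (.lg 0 false 5 73 73
  17 0 7080) (.nr 1048 32769 (.nr 1046 513 (.lg 0 true 2 53 53 16 0 2832) (.nx 1047 104033 (.lg 2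
  true 1 67 67 16 25000 4248) .out)) .out)))) .out) .out) (.nx 1067 1664512 (.nr 1066 1048577 (.nr
  1052 118 .s1 (.nx 1054 177 (.nr 1053 1206 (.l1 (.ls 16 29 268)) (.l1 .sk)) (.nx 1055 178 (.l1
  .sk) (.nx 1060 20644 (.lg 0 false 5 71 71 23 0 14160) (.nr 1065 32769 (.nr 1062 513 (.lg 0 false
  2 47 47 19 0 2832) (.nx 1064 104033 (.lg 2 true 2 61 61 19 25000 8496) .out)) .out))))) .out)
  .out))))) (.na 1092 139 (.na 1079 131 (.na 1069 129 .ne (.nx 1078 832257 (.nr 1077 1048577 (.nr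
  1070 129 .s1 (.nx 1071 257 (.l1 (.ls 71 29 515)) (.nr 1076 741457 (.nx 1072 15665 (.lg 0 true 1
  89 89 17 0 21240) (.nr 1075 16385 (.nr 1073 1025 (.lg 0 false 1 71 71 17 0 21240) (.nx 1074
  104033 (.lg 2 true 1 61 61 17 16562 4248) .out)) .out)) .out))) .out) .out)) (.na 1080 134 (.lg 0
  false 1 0 0 16 0 24) (.na 1091 137 (.nx 1090 832257 (.nr 1089 1048577 (.nr 1081 134 .s1 (.nx 1082
  257 (.l1 (.ls 61 29 495)) (.nr 1088 741457 (.nx 1084 15665 (.lg 0 false 2 79 79 23 0 2832) (.nr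
  1087 16385 (.nr 1085 1025 (.lg 0 false 1 71 71 19 0 2832) (.nx 1086 104033 (.lg 2 false 1 67 67
  19 16562 42480) .out)) .out)) .out))) .out) .out) (.lg 0 false 1 0 0 16 0 24)))) (.na 1103 149
  (.na 1093 142 (.lg 0 false 1 0 0 16 0 24) (.nx 1102 832257 (.nr 1101 1048577 (.nr 1094 142 .s1
  (.nx 1095 257 (.l1 (.ls 67 29 468)) (.nr 1100 741457 (.nr 1097 16385 (.lg 0 true 2 79 79 23 0
  2832) (.nx 1099 13005 (.lg 0 false 2 79 79 23 0 2832) .out)) .out))) .out) .out)) (.na 1113 151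
  (.nx 1112 832257 (.nr 1111 1048577 (.nr 1104 149 .s1 (.nx 1107 15665 (.nx 1105 257 (.l1 (.ls 67
  19 446)) (.nr 1106 741457 (.lg 0 true 1 79 79 16 0 1416) .out)) (.nr 1110 16385 (.nr 1108 1025
  (.lg 0 false 1 61 61 16 0 21240) (.nx 1109 104033 (.lg 2 true 1 47 47 16 16562 1416) .out))
  .out))) .out) .out) (.na 1121 157 (.nx 1120 832257 (.nr 1119 1048577 (.nr 1114 151 .s1 (.nx 1115
  257 (.l1 (.ls 79 19 440)) (.nr 1118 741457 (.nr 1116 16385 (.lg 0 false 1 83 83 16 0 21240) (.nx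
  1117 13005 (.lg 0 true 1 79 79 16 0 1416) .out)) .out))) .out) .out) (.lg 0 false 1 0 0 16 0
  24))))))) (.na 1230 233 (.na 1171 193 (.na 1145 178 (.na 1124 167 (.na 1123 163 (.lg 0 false 1 0
  0 16 0 24) (.lg 0 false 1 0 0 16 0 24)) (.na 1133 177 (.nx 1132 832257 (.nr 1131 1048577 (.nr
  1125 167 .s1 (.nx 1128 13005 (.nx 1126 257 (.l1 (.ls 61 19 398)) (.nr 1127 741457 (.lg 0 true 1
  73 73 16 0 1416) .out)) (.nr 1130 16385 (.lg 0 true 2 73 73 17 0 2832) .out))) .out) .out) (.nx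
  1144 832257 (.nr 1143 1048577 (.nr 1134 177 .s1 (.nx 1135 257 (.l1 (.ls 53 23 376)) (.nr 1142
  741457 (.nr 1139 16385 (.lg 0 true 4 67 67 19 0 8496) (.nx 1141 13005 (.lg 0 true 2 71 71 17 0
  8496) .out)) .out))) .out) .out))) (.na 1161 182 (.na 1153 181 (.nx 1152 832257 (.nr 1151 1048577
  (.nr 1146 178 .s1 (.nx 1147 257 (.l1 (.ls 61 29 374)) (.nr 1150 741457 (.nr 1148 16385 (.lg 0
  false 1 79 79 19 0 8496) (.nx 1149 13005 (.lg 0 true 1 79 79 19 0 8496) .out)) .out))) .out)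
  .out) (.nx 1160 832257 (.nr 1159 1048577 (.nr 1154 181 .s1 (.nx 1155 257 (.l1 (.ls 61 19 367))
  (.nr 1158 741457 (.nr 1156 16385 (.lg 0 false 1 73 73 16 0 1416) (.nx 1157 13005 (.lg 0 true 1 73
  73 16 0 21240) .out)) .out))) .out) .out)) (.na 1162 186 .ne (.na 1170 191 (.nx 1169 832257 (.nr
  1168 1048577 (.nr 1163 186 .s1 (.nx 1164 257 (.l1 (.ls 71 37 358)) (.nr 1167 741457 (.nr 1165
  16385 (.lg 0 false 1 89 89 29 0 42480) (.nx 1166 13005 (.lg 0 true 1 83 83 29 0 42480) .out))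
  .out))) .out) .out) (.lg 0 false 1 0 0 16 0 24))))) (.na 1204 213 (.na 1180 201 (.na 1179 199
  (.nx 1178 832257 (.nr 1177 1048577 (.nr 1172 193 .s1 (.nx 1173 257 (.l1 (.ls 53 19 345)) (.nr
  1176 741457 (.nr 1174 16385 (.lg 0 false 1 73 73 16 0 1416) (.nx 1175 13005 (.lg 0 true 1 73 73
  16 0 4248) .out)) .out))) .out) .out) (.lg 0 false 1 0 0 16 0 24)) (.na 1188 202 (.nx 1187 832257
  (.nr 1186 1048577 (.nr 1181 201 .s1 (.nx 1182 257 (.l1 (.ls 61 23 331)) (.nr 1185 741457 (.nr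
  1183 16385 (.lg 0 false 1 83 83 19 0 21240) (.nx 1184 13005 (.lg 0 true 1 79 79 19 0 4248) .out))
  .out))) .out) .out) (.na 1196 206 (.nx 1195 832257 (.nr 1194 1048577 (.nr 1189 202 .s1 (.nx 1190
  257 (.l1 (.ls 61 29 329)) (.nr 1193 741457 (.nr 1191 16385 (.lg 0 false 1 73 73 23 0 2832) (.nx
  1192 13005 (.lg 0 true 1 73 73 23 0 8496) .out)) .out))) .out) .out) (.nx 1203 832257 (.nr 1202
  1048577 (.nr 1197 206 .s1 (.nx 1200 13005 (.nx 1198 257 (.l1 (.ls 67 29 323)) (.nr 1199 741457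
  (.lg 0 true 1 79 79 23 0 42480) .out)) (.nr 1201 16385 (.lg 0 false 1 79 79 23 0 2832) .out)))
  .out) .out)))) (.na 1220 223 (.na 1212 214 (.nx 1211 832257 (.nr 1210 1048577 (.nr 1205 213 .s1
  (.nx 1208 13005 (.nx 1206 257 (.l1 (.ls 53 23 313)) (.nr 1207 741457 (.lg 0 true 1 79 79 19 0
  4248) .out)) (.nr 1209 16385 (.lg 0 false 1 79 79 19 0 4248) .out))) .out) .out) (.nx 1219 832257
  (.nr 1218 1048577 (.nr 1213 214 .s1 (.nx 1214 257 (.l1 (.ls 67 29 311)) (.nr 1217 741457 (.nr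
  1215 16385 (.lg 0 false 1 79 79 23 0 2832) (.nx 1216 13005 (.lg 0 true 1 73 73 23 0 2832) .out))
  .out))) .out) .out)) (.na 1221 226 (.lg 0 false 1 0 0 16 0 24) (.na 1229 227 (.nx 1228 832257
  (.nr 1227 1048577 (.nr 1222 226 .s1 (.nx 1225 13005 (.nx 1223 257 (.l1 (.ls 73 29 295)) (.nr 1224
  741457 (.lg 0 true 1 79 79 23 0 42480) .out)) (.nr 1226 16385 (.lg 0 false 1 79 79 23 0 2832)
  .out))) .out) .out) (.lg 0 false 1 0 0 16 0 24)))))) (.na 5173 2897 (.na 2054 512 (.na 1246 241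
  (.na 1238 239 (.nx 1237 832257 (.nr 1236 1048577 (.nr 1231 233 .s1 (.nx 1232 257 (.l1 (.ls 53 19
  286)) (.nr 1235 741457 (.nr 1233 16385 (.lg 0 false 1 73 73 17 0 4248) (.nx 1234 13005 (.lg 0
  true 1 71 71 17 0 1416) .out)) .out))) .out) .out) (.nx 1245 832257 (.nr 1244 1048577 (.nr 1239
  239 .s1 (.nx 1240 257 (.l1 (.ls 67 19 279)) (.nr 1243 741457 (.nr 1241 16385 (.lg 0 false 1 73 73
  17 0 1416) (.nx 1242 13005 (.lg 0 true 1 71 71 17 0 1416) .out)) .out))) .out) .out)) (.na 1254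
  256 (.nx 1253 832257 (.nr 1252 1048577 (.nr 1247 241 .s1 (.nx 1248 257 (.l1 (.ls 71 19 277)) (.nr
  1251 741457 (.nr 1249 16385 (.lg 0 false 1 73 73 17 0 1416) (.nx 1250 13005 (.lg 0 true 1 71 71
  17 0 1416) .out)) .out))) .out) .out) (.na 1255 257 .ne (.nx 2053 832257 (.nr 2052 1482912 (.nr
  1256 257 .s1 (.nx 1540 205 (.nx 1512 177 (.nr 1511 4824 (.la (.ls 19 19 129)) (.l1 .sk)) (.nx
  1513 178 (.l1 .sk) (.lx (.lp 73 17 129)))) (.nr 2051 1048577 (.nr 1795 32769 (.la (.lg 0 false 1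
  73 73 19 0)) (.nx 2050 10323 (.la (.lg 0 true 1 71 71 19 0)) .out)) .out))) .out) .out)))) (.na
  3291 1024 (.na 2689 725 (.nx 2688 832257 (.nr 2687 1482912 (.nr 2055 512 .s1 (.nx 2473 22297 (.nx
  2259 205 (.lx (.lp 41 17 182)) (.nr 2472 1048577 (.la (.lg 0 true 1 67 67 23 0)) .out)) (.nr 2686
  32769 (.la (.lg 2 false 1 61 61 23 143857)) .out))) .out) .out) (.nx 3290 10323 (.nr 3289 1048577
  (.nr 2690 725 .s1 (.nx 2989 2049 (.la (.ls 53 37 5793)) (.nr 3288 16385 (.la (.lg 0 true 1 23 23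
  29 0)) .out))) .out) .out)) (.na 3719 1449 (.nx 3718 10323 (.nr 3717 1048577 (.nr 3292 1024 .s1
  (.la (.ls 47 53 104069))) .out) .out) (.na 4321 2048 (.nx 4320 2582 (.nr 4319 524289 (.nr 3720
  1449 .s1 (.la (.ls 53 37 4603))) .out) .out) (.nx 5172 3252 (.nr 5171 524289 (.nr 4322 2048 .s1
  (.la (.ls 47 37 5166))) .out) .out))))) (.na 12135 32768 (.na 8253 5793 (.na 6375 4096 (.nx 6374
  2582 (.nr 6373 262145 (.nr 5174 2897 .s1 (.la (.ls 41 37 2304))) .out) .out) (.nx 8252 2582 (.nr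
  8251 262145 (.nr 6376 4096 .s1 (.nx 6553 177 (.nr 6552 54575 (.lx (.lp 16 29 1449)) (.l1 .sk))
  (.nx 6554 178 (.l1 .sk) (.la (.ls 41 37 1622))))) .out) .out)) (.na 9547 8192 (.nx 9546 1292 (.nr
  9545 65537 (.nr 8254 5793 .s1 (.lx (.lp 29 37 2049))) .out) .out) (.na 10841 16384 (.nx 10840
  1292 (.nr 10839 131073 (.nr 9548 8192 .s1 (.lx (.lp 31 41 4097))) .out) .out) (.nx 12134 1292
  (.nr 12133 262145 (.nr 10842 16384 .s1 (.lx (.lp 31 43 8193))) .out) .out)))) (.na 14189 131072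
  (.na 13162 65536 (.nx 13161 1025 (.nr 13160 262145 (.nr 12136 32768 .s1 (.lx (.lp 19 47 16385)))
  .out) .out) (.nx 14188 1025 (.nr 14187 262145 (.nr 13163 65536 .s1 (.lx (.lp 16 53 32769))) .out)
  .out)) (.na 14191 262144 (.nx 14190 324 (.l1 .sk) .out) (.na 14193 524289 (.nx 14192 205 (.l1
  .sk) .out) .out)))))))

def T110_1 : Ph :=
  (.na 631 157 (.na 391 91 (.na 209 54 (.na 100 36 (.na 61 31 (.na 26 27 (.nx 25 1321124 (.nr 24
  1048577 (.nr 1 25 .s1 (.nx 13 16385 (.nx 5 205 (.nx 3 92 (.nr 2 184 (.l1 (.ls 29 31 328)) (.l1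
  .sk)) (.nx 4 93 (.l1 .sk) (.l1 (.ls 83 41 1286)))) (.nr 12 185365 (.lg 0 false 7 89 97 19 0
  1506960) .out)) (.nr 23 38969 (.nr 20 513 (.lg 0 true 7 79 79 19 0 301392) (.nx 22 82572 (.lg 2
  true 2 83 83 11 10090 43056) .out)) .out))) .out) .out) (.na 45 29 (.nx 44 1321124 (.nr 43
  1048577 (.nr 27 26 .s1 (.nx 34 16385 (.nx 28 205 (.l1 (.ls 73 31 1559)) (.nr 33 185365 (.lg 0
  false 5 83 83 16 0 8280) .out)) (.nr 42 38969 (.nr 39 513 (.lg 0 true 5 71 71 16 0 8280) (.nx 41
  82572 (.lg 1 true 2 79 79 16 10090 3312) .out)) .out))) .out) .out) (.nx 60 1321124 (.nr 59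
  1048577 (.nr 46 28 .s1 (.nx 51 16385 (.nx 47 205 (.l1 (.ls 83 23 1452)) (.nr 50 185365 (.lg 0
  false 3 89 89 16 0 8280) .out)) (.nr 58 38969 (.nr 56 513 (.lg 0 true 5 73 73 16 0 8280) (.nx 57
  82572 (.lg 2 true 1 83 83 13 10090 1656) .out)) .out))) .out) .out))) (.na 77 32 (.nx 76 1321124
  (.nr 75 1048577 (.nr 62 30 .s1 (.nx 63 205 (.l1 (.ls 83 29 1358)) (.nr 74 185365 (.nx 66 16385
  (.lg 0 false 3 89 89 16 0 8280) (.nr 73 38969 (.nr 71 513 (.lg 0 true 5 73 73 16 0 8280) (.nx 72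
  82572 (.lg 2 true 1 83 83 13 10090 1656) .out)) .out)) .out))) .out) .out) (.na 99 33 (.nx 98
  1321124 (.nr 97 1048577 (.nr 78 31 .s1 (.nx 90 16385 (.nx 88 6503 (.nx 82 205 (.nx 80 92 (.nr 79
  225 (.l1 (.ls 31 23 267)) (.l1 .sk)) (.nx 81 93 (.l1 .sk) (.l1 (.ls 89 31 1046)))) (.nr 87 370729
  (.lg 0 false 5 83 89 19 0 16560) .out)) (.nr 89 92683 (.lg 1 true 1 83 83 13 60381 3312) .out))
  (.nr 96 38969 (.nr 94 513 (.nx 91 165142 (.lg 0 false 1 73 73 13 0 3312) (.nr 93 217 (.lg 0 true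
  2 73 73 19 0 3312) .out)) (.nx 95 82572 (.lg 1 false 1 89 89 13 10090 3312) .out)) .out))) .out)
  .out) .ne))) (.na 149 46 (.na 117 39 (.nx 116 1321124 (.nr 115 370729 (.nr 101 35 .s1 (.nx 103 92
  (.nr 102 266 (.l1 (.ls 29 29 238)) (.l1 .sk)) (.nx 104 93 (.l1 .sk) (.nx 107 6503 (.lg 0 false 3
  89 89 23 0 16560) (.nr 114 77937 (.nr 112 23172 (.nr 110 266 (.lg 0 true 3 73 73 23 0 3312) (.nx
  111 82572 (.lg 2 true 1 83 83 19 15141 3312) .out)) (.nx 113 13005 (.lg 0 false 1 83 83 19 0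
  16560) .out)) .out))))) .out) .out) (.na 134 41 (.nx 133 1321124 (.nr 132 370729 (.nr 118 38 .s1
  (.nx 124 6503 (.nx 120 92 (.nr 119 279 (.l1 (.ls 29 23 220)) (.l1 .sk)) (.nx 121 93 (.l1 .sk)
  (.lg 0 false 3 83 89 19 0 107640))) (.nr 131 77937 (.nr 129 23172 (.nr 127 217 (.lg 0 true 3 71
  71 19 0 21528) (.nx 128 82572 (.lg 2 true 1 83 83 17 17504 21528) .out)) (.nx 130 13005 (.lg 0
  true 1 83 83 17 0 107640) .out)) .out))) .out) .out) (.nx 148 1321124 (.nr 147 370729 (.nr 135 40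
  .s1 (.nx 141 13005 (.nx 137 92 (.nr 136 313 (.l1 (.ls 17 17 209)) (.l1 .sk)) (.nx 138 93 (.l1
  .sk) (.lg 0 false 3 89 89 16 0 8280))) (.nr 146 23172 (.nr 144 313 (.lg 0 true 3 67 67 16 0 1656)
  (.nx 145 82572 (.lg 2 true 1 79 79 16 12136 1656) .out)) .out))) .out) .out))) (.na 181 48 (.na
  164 47 (.nx 163 1321124 (.nr 162 311745 (.nr 150 45 .s1 (.nx 152 92 (.nr 151 320 (.lg 0 false 1 0
  16 13 0 1506960) (.l1 .sk)) (.nx 153 93 (.l1 .sk) (.nx 156 10323 (.lg 0 true 3 79 79 13 0 16560)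
  (.nr 161 23172 (.nr 158 217 (.lg 0 false 2 67 67 13 0 16560) (.nx 160 82572 (.lg 2 true 2 71 71
  13 17504 3312) .out)) .out))))) .out) .out) (.nx 180 1321124 (.nr 179 311745 (.nr 165 47 .s1 (.nx
  168 93 (.nx 167 92 (.nr 166 327 (.l1 (.ls 16 17 183)) (.l1 .sk)) (.l1 .sk)) (.nx 173 10323 (.lg 0
  false 5 79 79 16 0 8280) (.nr 178 23172 (.nr 176 327 (.lg 0 true 3 61 61 16 0 1656) (.nx 177
  82572 (.lg 2 true 1 73 73 16 11616 1656) .out)) .out)))) .out) .out)) (.na 195 52 (.nx 194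
  1321124 (.nr 193 311745 (.nr 182 48 .s1 (.nx 190 82572 (.nx 184 92 (.nr 183 354 (.l1 (.ls 31 29
  179)) (.l1 .sk)) (.nx 185 93 (.l1 .sk) (.nr 188 46342 (.nx 186 20644 (.lg 0 true 1 83 83 23 0
  3312) (.nr 187 13779 (.lg 0 true 1 83 89 23 0 3312) .out)) (.nx 189 8193 (.lg 0 false 1 89 97 23
  0 3312) .out)))) (.nr 192 217 (.lg 0 true 2 71 71 29 0 3312) .out))) .out) .out) (.nx 208 1321124
  (.nr 207 311745 (.nr 196 52 .s1 (.nx 199 93 (.nx 198 92 (.nr 197 368 (.l1 (.ls 29 29 165)) (.l1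
  .sk)) (.l1 .sk)) (.nx 201 10323 (.lg 0 false 2 89 89 23 0 43056) (.nr 206 23172 (.nr 204 368 (.lg
  0 true 3 71 73 23 0 43056) (.nx 205 82572 (.lg 2 true 1 79 79 19 10322 43056) .out)) .out))))
  .out) .out))))) (.na 297 71 (.na 253 62 (.na 223 58 (.nx 222 1321124 (.nr 221 311745 (.nr 210 54
  .s1 (.nx 215 10323 (.nx 212 92 (.nr 211 395 (.l1 (.ls 17 29 159)) (.l1 .sk)) (.nx 213 93 (.l1
  .sk) (.lg 0 true 2 83 83 19 0 16560))) (.nr 220 23172 (.nr 218 395 (.lg 0 true 3 67 67 23 0 3312)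
  (.nx 219 82572 (.lg 2 true 1 71 71 19 9616 3312) .out)) .out))) .out) .out) (.na 238 59 (.nx 237
  1321124 (.nr 236 311745 (.nr 224 58 .s1 (.nx 226 92 (.nr 225 402 (.l1 (.ls 16 23 148)) (.l1 .sk))
  (.nx 227 93 (.l1 .sk) (.nx 230 10323 (.lg 0 false 3 83 83 19 0 3312) (.nr 235 23172 (.nr 233 402
  (.lg 0 true 3 67 67 19 0 3312) (.nx 234 82572 (.lg 2 true 1 73 73 13 9538 3312) .out)) .out)))))
  .out) .out) (.nx 252 1321124 (.nr 251 311745 (.nr 239 59 .s1 (.nx 241 92 (.nr 240 422 (.l1 (.ls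
  17 16 146)) (.l1 .sk)) (.nx 242 93 (.l1 .sk) (.nx 245 10323 (.lg 0 false 3 83 83 16 0 1656) (.nr
  250 23172 (.nr 248 422 (.lg 0 true 3 67 67 16 0 1656) (.nx 249 82572 (.lg 2 true 1 73 73 16 9538
  1656) .out)) .out))))) .out) .out))) (.na 281 65 (.na 268 64 (.nx 267 1321124 (.nr 266 311745
  (.nr 254 62 .s1 (.nx 260 10323 (.nx 256 92 (.nr 255 436 (.l1 (.ls 16 23 139)) (.l1 .sk)) (.nx 257
  93 (.l1 .sk) (.lg 0 false 3 79 79 19 0 3312))) (.nr 265 23172 (.nr 263 436 (.lg 0 true 3 67 67 19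
  0 3312) (.nx 264 82572 (.lg 2 true 1 73 73 13 9538 3312) .out)) .out))) .out) .out) (.nx 280
  1321124 (.nr 279 524289 (.nr 269 64 .s1 (.nx 272 93 (.nx 271 92 (.nr 270 442 (.l1 (.ls 31 23
  135)) (.l1 .sk)) (.l1 .sk)) (.nx 277 82572 (.nx 275 20644 (.nr 273 46342 (.lg 0 false 1 83 83 19
  0 3312) (.nx 274 8193 (.lg 0 false 1 97 97 19 0 16560) .out)) (.nr 276 13779 (.lg 0 true 1 89 89
  19 0 16560) .out)) (.nr 278 513 (.lg 0 true 1 79 79 19 0 3312) .out)))) .out) .out)) (.na 282 69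
  .ne (.nx 296 1321124 (.nr 295 524289 (.nr 283 69 .s1 (.nx 286 93 (.nx 285 92 (.nr 284 483 (.l1
  (.ls 16 19 125)) (.l1 .sk)) (.l1 .sk)) (.nx 289 8193 (.lg 0 false 3 79 79 17 0 8280) (.nr 294
  8193 (.nr 292 513 (.lg 0 true 3 61 61 17 0 1656) (.nx 293 82572 (.lg 2 true 1 59 59 16 7405 1656)
  .out)) .out)))) .out) .out)))) (.na 340 78 (.na 312 72 (.nx 311 1321124 (.nr 310 524289 (.nr 298
  71 .s1 (.nx 304 8193 (.nx 300 92 (.nr 299 490 (.l1 (.ls 16 16 122)) (.l1 .sk)) (.nx 301 93 (.l1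
  .sk) (.lg 0 false 3 79 79 16 0 1656))) (.nr 309 8193 (.nr 307 513 (.lg 0 true 3 61 61 16 0 1656)
  (.nx 308 82572 (.lg 2 true 1 59 59 16 7405 1656) .out)) .out))) .out) .out) (.na 325 73 (.nx 324
  1321124 (.nr 323 524289 (.nr 313 72 .s1 (.nx 316 93 (.nx 315 92 (.nr 314 497 (.l1 (.ls 19 29
  120)) (.l1 .sk)) (.l1 .sk)) (.nx 318 8193 (.lg 0 false 2 83 83 29 0 3312) (.nr 322 8193 (.nr 320
  513 (.lg 0 true 2 67 67 29 0 3312) (.nx 321 82572 (.lg 2 true 1 61 61 23 7405 3312) .out))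
  .out)))) .out) .out) (.nx 339 1321124 (.nr 338 524289 (.nr 326 73 .s1 (.nx 328 92 (.nr 327 531
  (.l1 (.ls 16 16 118)) (.l1 .sk)) (.nx 329 93 (.l1 .sk) (.nx 332 8193 (.lg 0 false 3 79 79 16 0
  1656) (.nr 337 8193 (.nr 335 513 (.lg 0 true 3 61 61 16 0 1656) (.nx 336 82572 (.lg 2 true 1 59
  59 16 7405 1656) .out)) .out))))) .out) .out))) (.na 364 82 (.na 353 81 (.nx 352 1321124 (.nr 351
  524289 (.nr 341 78 .s1 (.nx 343 92 (.nr 342 551 (.l1 (.ls 29 31 111)) (.l1 .sk)) (.nx 344 93 (.l1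
  .sk) (.nx 346 8193 (.lg 0 false 2 83 83 31 0 43056) (.nr 350 8193 (.nr 348 513 (.lg 0 true 2 71
  71 31 0 43056) (.nx 349 82572 (.lg 2 true 1 67 67 29 7405 43056) .out)) .out))))) .out) .out)
  (.nx 363 1321124 (.nr 362 524289 (.nr 354 81 .s1 (.nx 356 92 (.nr 355 558 (.l1 (.ls 16 17 107))
  (.l1 .sk)) (.nx 357 93 (.l1 .sk) (.nx 358 8193 (.lg 0 true 1 83 83 16 0 1656) (.nr 361 8193 (.nr
  359 558 (.lg 0 false 1 71 71 16 0 1656) (.nx 360 82572 (.lg 2 false 1 53 53 16 6808 1656) .out))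
  .out))))) .out) .out)) (.na 378 87 (.nx 377 1321124 (.nr 376 524289 (.nr 365 82 .s1 (.nx 368 93
  (.nx 367 92 (.nr 366 592 (.l1 (.ls 16 19 106)) (.l1 .sk)) (.l1 .sk)) (.nx 371 8193 (.lg 0 false 3
  79 79 19 0 3312) (.nr 375 8193 (.nr 373 592 (.lg 0 true 2 67 67 19 0 3312) (.nx 374 82572 (.lg 2
  false 1 59 59 13 6417 3312) .out)) .out)))) .out) .out) (.nx 390 1321124 (.nr 389 524289 (.nr 379
  87 .s1 (.nx 384 8193 (.nx 381 92 (.nr 380 619 (.l1 (.ls 17 17 100)) (.l1 .sk)) (.nx 382 93 (.l1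
  .sk) (.lg 0 false 2 83 83 19 0 3312))) (.nr 388 8193 (.nr 386 513 (.lg 0 true 2 71 71 19 0 3312)
  (.nx 387 82572 (.lg 2 false 1 61 61 17 7405 1656) .out)) .out))) .out) .out)))))) (.na 529 127
  (.na 450 104 (.na 417 94 (.na 392 92 .ne (.na 404 93 (.nx 403 1321124 (.nr 402 524289 (.nr 393 92
  .s1 (.nx 396 93 (.nx 395 92 (.nr 394 633 (.l1 (.ls 16 19 94)) (.l1 .sk)) (.l1 .sk)) (.nx 397 8193
  (.lg 0 true 1 83 83 17 0 3312) (.nr 401 8193 (.nr 399 513 (.lg 0 true 2 61 61 19 0 3312) (.nx 400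
  82572 (.lg 2 true 1 59 59 17 7405 3312) .out)) .out)))) .out) .out) (.nx 416 1321124 (.nr 415
  524289 (.nr 405 93 .s1 (.nx 410 8193 (.nx 407 92 (.nr 406 640 (.l1 (.ls 16 17 94)) (.l1 .sk))
  (.nx 408 93 (.l1 .sk) (.lg 0 false 2 83 83 19 0 3312))) (.nr 414 8193 (.nr 412 513 (.lg 0 true 2
  71 71 19 0 3312) (.nx 413 82572 (.lg 2 false 1 61 61 17 7405 1656) .out)) .out))) .out) .out)))
  (.na 428 96 (.nx 427 1321124 (.nr 426 524289 (.nr 418 94 .s1 (.nx 422 8193 (.nx 420 92 (.nr 419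
  653 (.l1 (.ls 17 19 93)) (.l1 .sk)) (.nx 421 93 (.l1 .sk) (.lg 0 true 1 89 89 17 0 16560))) (.nr
  425 8193 (.nr 423 513 (.lg 0 false 1 73 73 17 0 16560) (.nx 424 82572 (.lg 2 true 1 61 61 17 7405
  3312) .out)) .out))) .out) .out) (.na 439 101 (.nx 438 1321124 (.nr 437 524289 (.nr 429 96 .s1
  (.nx 432 93 (.nx 431 92 (.nr 430 687 (.l1 (.ls 37 23 91)) (.l1 .sk)) (.l1 .sk)) (.nx 433 8193
  (.lg 0 false 1 89 97 29 0 16560) (.nr 436 8193 (.nr 434 513 (.lg 0 true 1 73 73 31 0 3312) (.nx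
  435 82572 (.lg 1 true 1 79 79 29 7405 16560) .out)) .out)))) .out) .out) (.nx 449 1321124 (.nr
  448 524289 (.nr 440 101 .s1 (.nx 442 92 (.nr 441 708 (.l1 (.ls 16 16 86)) (.l1 .sk)) (.nx 443 93
  (.l1 .sk) (.nx 444 8193 (.lg 0 true 1 79 79 16 0 1656) (.nr 447 8193 (.nr 445 513 (.lg 2 false 1
  61 61 16 601701 1656) (.nx 446 82572 (.lg 2 true 1 53 53 16 7405 1656) .out)) .out))))) .out)
  .out)))) (.na 485 117 (.na 462 108 (.nx 461 1321124 (.nr 460 524289 (.nr 451 104 .s1 (.nx 453 92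
  (.nr 452 735 (.l1 (.ls 29 23 84)) (.l1 .sk)) (.nx 454 93 (.l1 .sk) (.nx 455 8193 (.lg 0 true 1 89
  89 23 0 215280) (.nr 459 8193 (.nr 457 513 (.lg 0 true 2 71 71 29 0 43056) (.nx 458 82572 (.lg 2
  false 1 61 61 23 7405 43056) .out)) .out))))) .out) .out) (.na 474 116 (.nx 473 1321124 (.nr 472
  524289 (.nr 463 108 .s1 (.nx 466 93 (.nx 465 92 (.nr 464 789 (.l1 (.ls 19 23 81)) (.l1 .sk)) (.l1
  .sk)) (.nx 467 8193 (.lg 0 true 1 83 83 23 0 3312) (.nr 471 8193 (.nr 469 513 (.lg 0 true 2 67 67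
  29 0 3312) (.nx 470 82572 (.lg 2 true 1 59 59 23 7405 3312) .out)) .out)))) .out) .out) (.nx 484
  1321124 (.nr 483 524289 (.nr 475 116 .s1 (.nx 478 93 (.nx 477 92 (.nr 476 796 (.l1 (.ls 19 19
  75)) (.l1 .sk)) (.l1 .sk)) (.nx 479 8193 (.lg 0 true 1 89 89 19 0 16560) (.nr 482 8193 (.nr 480
  513 (.lg 2 true 1 67 67 19 523894 3312) (.nx 481 82572 (.lg 2 true 1 61 61 19 7405 3312) .out))
  .out)))) .out) .out))) (.na 507 123 (.na 496 118 (.nx 495 1321124 (.nr 494 524289 (.nr 486 117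
  .s1 (.nx 488 92 (.nr 487 803 (.l1 (.ls 17 19 75)) (.l1 .sk)) (.nx 489 93 (.l1 .sk) (.nx 490 8193
  (.lg 0 false 1 79 79 19 0 21528) (.nr 493 8193 (.nr 491 513 (.lg 2 true 1 61 61 19 519417 21528)
  (.nx 492 82572 (.lg 2 false 1 59 59 19 7405 21528) .out)) .out))))) .out) .out) (.nx 506 1321124
  (.nr 505 524289 (.nr 497 118 .s1 (.nx 501 8193 (.nx 499 92 (.nr 498 837 (.l1 (.ls 16 19 74)) (.l1
  .sk)) (.nx 500 93 (.l1 .sk) (.lg 0 true 1 83 83 19 0 3312))) (.nr 504 8193 (.nr 502 513 (.lg 2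
  false 1 67 67 19 515015 3312) (.nx 503 82572 (.lg 2 true 1 59 59 19 7405 3312) .out)) .out)))
  .out) .out)) (.na 518 124 (.nx 517 1321124 (.nr 516 524289 (.nr 508 123 .s1 (.nx 512 8193 (.nx
  510 92 (.nr 509 844 (.l1 (.ls 17 17 71)) (.l1 .sk)) (.nx 511 93 (.l1 .sk) (.lg 0 false 1 79 79 17
  0 1656))) (.nr 515 8193 (.nr 513 513 (.lg 2 true 1 61 61 17 494079 1656) (.nx 514 82572 (.lg 2
  false 1 59 59 17 7405 1656) .out)) .out))) .out) .out) (.nx 528 1321124 (.nr 527 524289 (.nr 519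
  124 .s1 (.nx 522 93 (.nx 521 92 (.nr 520 864 (.l1 (.ls 29 19 71)) (.l1 .sk)) (.l1 .sk)) (.nx 523
  8193 (.lg 0 true 1 89 89 19 0 16560) (.nr 526 8193 (.nr 524 513 (.lg 2 true 1 67 67 19 490095
  3312) (.nx 525 82572 (.lg 2 false 1 61 61 19 7405 3312) .out)) .out)))) .out) .out))))) (.na 576
  141 (.na 551 131 (.na 540 128 (.nx 539 1321124 (.nr 538 524289 (.nr 530 127 .s1 (.nx 534 8193
  (.nx 532 92 (.nr 531 871 (.l1 (.ls 16 16 69)) (.l1 .sk)) (.nx 533 93 (.l1 .sk) (.lg 0 true 1 73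
  73 16 0 1656))) (.nr 537 8193 (.nr 535 513 (.lg 2 false 1 59 59 16 478518 1656) (.nx 536 82572
  (.lg 2 false 1 47 47 16 7405 1656) .out)) .out))) .out) .out) (.na 550 129 (.nx 549 1321124 (.nr
  548 1048577 (.nr 541 128 .s1 (.nx 542 205 (.l1 (.ls 79 29 331)) (.nr 547 524289 (.nx 543 8193
  (.lg 0 false 1 83 89 29 0 3312) (.nr 546 8193 (.nr 544 1025 (.lg 0 true 1 79 79 23 0 3312) (.nx
  545 82572 (.lg 2 false 1 59 59 23 4280 3312) .out)) .out)) .out))) .out) .out) .ne)) (.na 560 138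
  (.na 559 137 (.nx 558 660563 (.nr 557 1048577 (.nr 552 131 .s1 (.nx 553 205 (.l1 (.ls 67 19 323))
  (.nr 556 524289 (.nr 554 8193 (.lg 0 false 1 79 79 16 0 8280) (.nx 555 6503 (.lg 0 true 1 73 73
  16 0 8280) .out)) .out))) .out) .out) (.lg 0 false 1 0 0 16 0 24)) (.na 568 139 (.nx 567 660563
  (.nr 566 1048577 (.nr 561 138 .s1 (.nx 564 6503 (.nx 562 205 (.l1 (.ls 61 37 307)) (.nr 563
  524289 (.lg 0 true 1 73 73 19 0 3312) .out)) (.nr 565 8193 (.lg 0 false 1 73 73 19 0 3312)
  .out))) .out) .out) (.nx 575 660563 (.nr 574 1048577 (.nr 569 139 .s1 (.nx 570 205 (.l1 (.ls 67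
  19 305)) (.nr 573 524289 (.nr 571 8193 (.lg 0 false 1 79 79 16 0 8280) (.nx 572 6503 (.lg 0 true
  1 73 73 16 0 8280) .out)) .out))) .out) .out)))) (.na 604 146 (.na 586 142 (.nx 585 660563 (.nr
  584 1048577 (.nr 577 141 .s1 (.nx 580 6503 (.nx 578 205 (.l1 (.ls 73 23 301)) (.nr 579 524289
  (.lg 0 false 1 79 79 19 0 1656) .out)) (.nr 583 8193 (.nr 581 1025 (.lg 0 true 1 71 71 19 0 1656)
  (.nx 582 82572 (.lg 2 false 1 59 59 19 5393 1656) .out)) .out))) .out) .out) (.na 594 144 (.nx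
  593 660563 (.nr 592 1048577 (.nr 587 142 .s1 (.nx 588 205 (.l1 (.ls 67 29 298)) (.nr 591 524289
  (.nr 589 8193 (.lg 0 false 1 79 79 19 0 3312) (.nx 590 6503 (.lg 0 true 1 79 79 19 0 3312) .out))
  .out))) .out) .out) (.nx 603 660563 (.nr 602 1048577 (.nr 595 144 .s1 (.nx 600 82572 (.nx 596 205
  (.l1 (.ls 79 31 294)) (.nr 599 524289 (.nx 597 6503 (.lg 0 false 1 89 89 31 0 16560) (.nr 598
  8193 (.lg 0 true 1 73 79 31 0 16560) .out)) .out)) (.nr 601 1025 (.lg 0 true 1 73 73 31 0 3312)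
  .out))) .out) .out))) (.na 613 151 (.na 612 149 (.nx 611 660563 (.nr 610 1048577 (.nr 605 146 .s1
  (.nx 606 205 (.l1 (.ls 71 29 290)) (.nr 609 524289 (.nr 607 8193 (.lg 0 false 1 83 83 19 0 3312)
  (.nx 608 6503 (.lg 0 true 1 83 83 19 0 16560) .out)) .out))) .out) .out) (.lg 0 false 1 0 0 16 0
  24)) (.na 621 156 (.nx 620 660563 (.nr 619 1048577 (.nr 614 151 .s1 (.nx 615 205 (.l1 (.ls 67 17
  281)) (.nr 618 524289 (.nr 616 8193 (.lg 0 false 1 79 79 16 0 8280) (.nx 617 6503 (.lg 0 true 1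
  73 73 16 0 8280) .out)) .out))) .out) .out) (.nx 630 660563 (.nr 629 1048577 (.nr 622 156 .s1
  (.nx 623 205 (.l1 (.ls 83 37 272)) (.nr 628 524289 (.nx 624 6503 (.lg 0 false 1 89 89 37 0
  215280) (.nr 627 8193 (.nx 625 82572 (.lg 0 true 1 79 79 37 0 215280) (.nr 626 1025 (.lg 0 true 1
  73 73 37 0 43056) .out)) .out)) .out))) .out) .out))))))) (.na 819 227 (.na 721 188 (.na 672 173
  (.na 648 164 (.na 632 162 (.lg 0 false 1 0 0 16 0 24) (.na 640 163 (.nx 639 660563 (.nr 638
  1048577 (.nr 633 162 .s1 (.nx 634 205 (.l1 (.ls 67 31 262)) (.nr 637 524289 (.nr 635 8193 (.lg 0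
  false 1 73 73 23 0 3312) (.nx 636 6503 (.lg 0 true 1 73 73 23 0 3312) .out)) .out))) .out) .out)
  (.nx 647 660563 (.nr 646 1048577 (.nr 641 163 .s1 (.nx 642 205 (.l1 (.ls 61 17 260)) (.nr 645
  524289 (.nr 643 8193 (.lg 0 false 1 73 73 16 0 1656) (.nx 644 6503 (.lg 0 true 1 71 71 16 0 1656)
  .out)) .out))) .out) .out))) (.na 656 167 (.nx 655 660563 (.nr 654 1048577 (.nr 649 164 .s1 (.nx
  650 205 (.l1 (.ls 79 29 259)) (.nr 653 524289 (.nr 651 8193 (.lg 0 false 1 89 89 23 0 16560) (.nx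
  652 6503 (.lg 0 false 1 79 79 23 0 3312) .out)) .out))) .out) .out) (.na 664 169 (.nx 663 660563
  (.nr 662 1048577 (.nr 657 167 .s1 (.nx 658 205 (.l1 (.ls 61 17 254)) (.nr 661 524289 (.nr 659
  8193 (.lg 0 false 1 73 73 16 0 1656) (.nx 660 6503 (.lg 0 true 1 71 71 16 0 1656) .out)) .out)))
  .out) .out) (.nx 671 660563 (.nr 670 1048577 (.nr 665 169 .s1 (.nx 666 205 (.l1 (.ls 71 19 251))
  (.nr 669 524289 (.nr 667 8193 (.lg 0 false 1 79 79 17 0 107640) (.nx 668 6503 (.lg 0 true 1 73 73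
  17 0 107640) .out)) .out))) .out) .out)))) (.na 696 179 (.na 680 174 (.nx 679 660563 (.nr 678
  1048577 (.nr 673 173 .s1 (.nx 674 205 (.l1 (.ls 59 17 245)) (.nr 677 524289 (.nr 675 8193 (.lg 0
  false 1 71 71 16 0 1656) (.nx 676 6503 (.lg 0 true 1 71 71 16 0 1656) .out)) .out))) .out) .out)
  (.na 688 177 (.nx 687 660563 (.nr 686 1048577 (.nr 681 174 .s1 (.nx 682 205 (.l1 (.ls 73 37 244))
  (.nr 685 524289 (.nr 683 8193 (.lg 0 false 1 83 83 23 0 16560) (.nx 684 6503 (.lg 0 false 1 79 79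
  23 0 3312) .out)) .out))) .out) .out) (.nx 695 660563 (.nr 694 1048577 (.nr 689 177 .s1 (.nx 690
  205 (.l1 (.ls 53 23 240)) (.nr 693 524289 (.nr 691 8193 (.lg 0 true 1 73 73 19 0 1656) (.nx 692
  6503 (.lg 0 false 1 73 73 19 0 1656) .out)) .out))) .out) .out))) (.na 705 184 (.na 704 181 (.nx
  703 660563 (.nr 702 1048577 (.nr 697 179 .s1 (.nx 698 205 (.l1 (.ls 67 17 237)) (.nr 701 524289
  (.nr 699 8193 (.lg 0 false 1 73 73 16 0 8280) (.nx 700 6503 (.lg 0 true 1 71 71 16 0 1656) .out))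
  .out))) .out) .out) (.lg 0 false 1 0 0 16 0 24)) (.na 713 186 (.nx 712 660563 (.nr 711 1048577
  (.nr 706 184 .s1 (.nx 707 205 (.l1 (.ls 67 29 231)) (.nr 710 524289 (.nr 708 8193 (.lg 0 false 1
  79 79 19 0 16560) (.nx 709 6503 (.lg 0 true 1 73 73 19 0 16560) .out)) .out))) .out) .out) (.nx
  720 660563 (.nr 719 1048577 (.nr 714 186 .s1 (.nx 715 205 (.l1 (.ls 79 29 228)) (.nr 718 524289
  (.nr 716 8193 (.lg 0 false 1 83 83 29 0 16560) (.nx 717 6503 (.lg 0 false 1 79 79 29 0 3312)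
  .out)) .out))) .out) .out))))) (.na 763 207 (.na 738 193 (.na 729 191 (.nx 728 660563 (.nr 727
  1048577 (.nr 722 188 .s1 (.nx 723 205 (.l1 (.ls 73 23 226)) (.nr 726 524289 (.nr 724 8193 (.lg 0
  true 1 79 79 23 0 3312) (.nx 725 6503 (.lg 0 false 1 79 79 23 0 3312) .out)) .out))) .out) .out)
  (.na 730 192 (.lg 0 false 1 0 0 16 0 24) (.nx 737 660563 (.nr 736 1048577 (.nr 731 192 .s1 (.nx
  732 205 (.l1 (.ls 79 31 221)) (.nr 735 524289 (.nr 733 8193 (.lg 0 true 1 79 83 37 0 3312) (.nx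
  734 6503 (.lg 0 false 1 79 83 37 0 3312) .out)) .out))) .out) .out))) (.na 754 199 (.na 746 197
  (.nx 745 660563 (.nr 744 1048577 (.nr 739 193 .s1 (.nx 740 205 (.l1 (.ls 61 17 220)) (.nr 743
  524289 (.nr 741 8193 (.lg 0 false 1 71 71 16 0 1656) (.nx 742 6503 (.lg 0 true 1 67 67 16 0 1656)
  .out)) .out))) .out) .out) (.nx 753 660563 (.nr 752 1048577 (.nr 747 197 .s1 (.nx 748 205 (.l1
  (.ls 59 17 216)) (.nr 751 524289 (.nr 749 8193 (.lg 0 false 1 71 71 16 0 1656) (.nx 750 6503 (.lg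
  0 true 1 67 67 16 0 1656) .out)) .out))) .out) .out)) (.na 755 202 (.lg 0 false 1 0 0 16 0 24)
  (.nx 762 660563 (.nr 761 1048577 (.nr 756 202 .s1 (.nx 757 205 (.l1 (.ls 61 23 211)) (.nr 760
  524289 (.nr 758 8193 (.lg 0 false 1 73 73 23 0 3312) (.nx 759 6503 (.lg 0 true 1 71 71 23 0 3312)
  .out)) .out))) .out) .out)))) (.na 787 213 (.na 771 208 (.nx 770 660563 (.nr 769 1048577 (.nr 764
  207 .s1 (.nx 765 205 (.l1 (.ls 59 19 206)) (.nr 768 524289 (.nr 766 8193 (.lg 0 false 1 71 71 19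
  0 1656) (.nx 767 6503 (.lg 0 true 1 67 67 19 0 1656) .out)) .out))) .out) .out) (.na 779 211 (.nx
  778 660563 (.nr 777 1048577 (.nr 772 208 .s1 (.nx 773 205 (.l1 (.ls 73 29 205)) (.nr 776 524289
  (.nr 774 8193 (.lg 0 true 1 83 83 31 0 43056) (.nx 775 6503 (.lg 0 false 1 79 79 31 0 43056)
  .out)) .out))) .out) .out) (.nx 786 660563 (.nr 785 1048577 (.nr 780 211 .s1 (.nx 781 205 (.l1
  (.ls 61 17 202)) (.nr 784 524289 (.nr 782 8193 (.lg 0 false 1 71 71 16 0 1656) (.nx 783 6503 (.lg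
  0 true 1 71 71 16 0 8280) .out)) .out))) .out) .out))) (.na 803 219 (.na 795 216 (.nx 794 660563
  (.nr 793 1048577 (.nr 788 213 .s1 (.nx 789 205 (.l1 (.ls 67 19 200)) (.nr 792 524289 (.nr 790
  8193 (.lg 0 true 1 73 73 19 0 1656) (.nx 791 6503 (.lg 0 false 1 73 73 19 0 1656) .out)) .out)))
  .out) .out) (.nx 802 660563 (.nr 801 1048577 (.nr 796 216 .s1 (.nx 799 6503 (.nx 797 205 (.l1
  (.ls 71 31 197)) (.nr 798 524289 (.lg 0 false 1 73 73 29 0 3312) .out)) (.nr 800 8193 (.lg 0 true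
  1 73 73 29 0 3312) .out))) .out) .out)) (.na 811 223 (.nx 810 660563 (.nr 809 1048577 (.nr 804
  219 .s1 (.nx 805 205 (.l1 (.ls 67 19 194)) (.nr 808 524289 (.nr 806 8193 (.lg 0 true 1 73 73 19 0
  1656) (.nx 807 6503 (.lg 0 false 1 71 71 19 0 1656) .out)) .out))) .out) .out) (.nx 818 660563
  (.nr 817 1048577 (.nr 812 223 .s1 (.nx 813 205 (.l1 (.ls 59 17 191)) (.nr 816 524289 (.nr 814
  8193 (.lg 0 false 1 71 71 16 0 1656) (.nx 815 6503 (.lg 0 true 1 67 67 16 0 1656) .out)) .out)))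
  .out) .out)))))) (.na 895 256 (.na 853 239 (.na 829 233 (.na 820 229 (.lg 0 false 1 0 0 16 0 24)
  (.na 821 232 (.lg 0 false 1 0 0 16 0 24) (.nx 828 660563 (.nr 827 1048577 (.nr 822 232 .s1 (.nx
  823 205 (.l1 (.ls 71 23 184)) (.nr 826 524289 (.nr 824 8193 (.lg 0 true 1 79 79 23 0 3312) (.nx
  825 6503 (.lg 0 false 1 73 73 23 0 3312) .out)) .out))) .out) .out))) (.na 837 234 (.nx 836
  660563 (.nr 835 1048577 (.nr 830 233 .s1 (.nx 833 6503 (.nx 831 205 (.l1 (.ls 59 17 183)) (.nr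
  832 524289 (.lg 0 true 1 67 67 17 0 1656) .out)) (.nr 834 8193 (.lg 0 false 1 67 67 17 0 1656)
  .out))) .out) .out) (.na 845 236 (.nx 844 660563 (.nr 843 1048577 (.nr 838 234 .s1 (.nx 839 205
  (.l1 (.ls 73 37 182)) (.nr 842 524289 (.nr 840 8193 (.lg 0 false 1 83 83 37 0 215280) (.nx 841
  6503 (.lg 0 false 1 79 79 37 0 43056) .out)) .out))) .out) .out) (.nx 852 660563 (.nr 851 1048577
  (.nr 846 236 .s1 (.nx 847 205 (.l1 (.ls 53 23 181)) (.nr 850 524289 (.nr 848 8193 (.lg 0 true 1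
  79 79 23 0 3312) (.nx 849 6503 (.lg 0 false 1 73 73 23 0 3312) .out)) .out))) .out) .out)))) (.na
  870 246 (.na 861 241 (.nx 860 660563 (.nr 859 1048577 (.nr 854 239 .s1 (.nx 855 205 (.l1 (.ls 61
  17 178)) (.nr 858 524289 (.nr 856 8193 (.lg 0 false 1 71 71 17 0 8280) (.nx 857 6503 (.lg 0 true
  1 67 67 17 0 1656) .out)) .out))) .out) .out) (.na 862 243 (.lg 0 false 1 0 0 16 0 24) (.nx 869
  660563 (.nr 868 1048577 (.nr 863 243 .s1 (.nx 864 205 (.l1 (.ls 59 19 175)) (.nr 867 524289 (.nr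
  865 8193 (.lg 0 false 1 67 67 19 0 1656) (.nx 866 6503 (.lg 0 true 1 61 61 19 0 1656) .out))
  .out))) .out) .out))) (.na 886 251 (.na 878 248 (.nx 877 660563 (.nr 876 1048577 (.nr 871 246 .s1
  (.nx 872 205 (.l1 (.ls 73 31 173)) (.nr 875 524289 (.nr 873 8193 (.lg 0 true 1 79 79 31 0 3312)
  (.nx 874 6503 (.lg 0 false 1 79 79 31 0 3312) .out)) .out))) .out) .out) (.nx 885 660563 (.nr 884
  1048577 (.nr 879 248 .s1 (.nx 880 205 (.l1 (.ls 71 23 172)) (.nr 883 524289 (.nr 881 8193 (.lg 0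
  true 1 73 73 23 0 3312) (.nx 882 6503 (.lg 0 false 1 73 73 23 0 3312) .out)) .out))) .out) .out))
  (.na 887 254 (.lg 0 false 1 0 0 16 0 24) (.nx 894 660563 (.nr 893 1048577 (.nr 888 254 .s1 (.nx
  889 205 (.l1 (.ls 61 23 168)) (.nr 892 524289 (.nr 890 8193 (.lg 0 false 1 71 71 23 0 3312) (.nx
  891 6503 (.lg 0 true 1 71 71 23 0 16560) .out)) .out))) .out) .out))))) (.na 4219 2897 (.na 1849
  725 (.na 905 257 (.nx 904 660563 (.nr 903 1048577 (.nr 896 256 .s1 (.nx 899 6503 (.nx 897 647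
  (.l1 (.ls 79 37 1638)) (.nr 898 524289 (.lg 0 false 1 79 83 31 0 16560) .out)) (.nr 902 16385
  (.nx 900 82572 (.lg 0 true 1 73 79 29 0 16560) (.nr 901 1025 (.lg 0 true 1 67 71 29 0 16560)
  .out)) .out))) .out) .out) (.na 1419 512 (.nx 1418 82572 (.nr 1417 1048577 (.nr 906 257 .s1 (.nx
  1161 647 (.la (.ls 73 31 1631)) (.nr 1416 262145 (.la (.lg 0 false 1 79 79 23 0)) .out))) .out)
  .out) (.nx 1848 82572 (.nr 1847 1048577 (.nr 1420 512 .s1 (.nx 1633 647 (.la (.ls 71 29 820))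
  (.nr 1846 262145 (.la (.lg 0 false 1 73 73 29 0)) .out))) .out) .out))) (.na 2579 1449 (.na 2151
  1024 (.nx 2150 3252 (.nr 2149 262145 (.nr 1850 725 .s1 (.la (.ls 59 43 14589))) .out) .out) (.nx
  2578 3252 (.nr 2577 262145 (.nr 2152 1024 .s1 (.la (.ls 59 41 10330))) .out) .out)) (.na 3274
  2048 (.nx 3273 1627 (.nr 3272 131073 (.nr 2580 1449 .s1 (.nx 2672 92 (.nr 2671 13929 (.lx (.lp 43
  23 513)) (.l1 .sk)) (.nx 2673 93 (.l1 .sk) (.la (.ls 53 31 1823))))) .out) .out) (.nx 4218 1627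
  (.nr 4217 131073 (.nr 3275 2048 .s1 (.nx 3367 92 (.nr 3366 19703 (.lx (.lp 16 0 725)) (.l1 .sk))
  (.nx 3368 93 (.l1 .sk) (.la (.ls 47 31 1291))))) .out) .out)))) (.na 6168 16384 (.na 4869 4096
  (.nx 4868 647 (.nr 4867 65537 (.nr 4220 2897 .s1 (.nx 4382 163 (.lx (.lp 43 31 1025)) (.nr 4866
  32769 (.lx (.lp 41 31 1025)) .out))) .out) .out) (.na 5519 8192 (.nx 5518 647 (.nr 5517 65537
  (.nr 4870 4096 .s1 (.nx 5032 163 (.lx (.lp 47 31 2049)) (.nr 5516 32769 (.lx (.lp 41 37 2049))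
  .out))) .out) .out) (.nx 6167 647 (.nr 6166 65537 (.nr 5520 8192 .s1 (.lx (.lp 41 41 4097)))
  .out) .out))) (.na 7144 65536 (.na 6818 32768 (.nx 6817 647 (.nr 6816 131073 (.nr 6169 16384 .s1
  (.nx 6331 163 (.lx (.lp 16 0 8193)) (.nr 6815 65537 (.lx (.lp 37 43 8193)) .out))) .out) .out)
  (.nx 7143 324 (.nr 7142 131073 (.nr 6819 32768 .s1 (.lx (.lp 37 47 16385))) .out) .out)) (.na
  7470 131073 (.nx 7469 324 (.nr 7468 262145 (.nr 7145 65536 .s1 (.lx (.lp 29 47 32769))) .out)
  .out) .out)))))))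

def T110_2 : Ph :=
  (.na 394 194 (.na 218 91 (.na 113 52 (.na 67 32 (.na 1 26 .ne (.na 36 28 (.nx 35 2097153 (.nr 34
  1048577 (.nr 2 22 .s1 (.nx 5 197 (.nx 4 196 (.nr 3 278 (.lg 0 false 1 29 29 11 0 21840) (.l1
  .sk)) (.l1 .sk)) (.nx 6 324 (.l1 (.ls 79 43 2547)) (.nr 33 524289 (.nr 31 370729 (.nx 26 524289
  (.nx 16 52017 (.nr 12 185365 (.lg 0 false 6 97 101 19 0 65520) (.nx 15 13005 (.lg 0 false 3 97 97
  11 0 65520) .out)) (.nr 25 92683 (.nr 19 828 (.lg 0 true 3 73 73 11 0 13104) (.nx 24 330282 (.lg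
  2 false 5 83 89 19 39092 21840) .out)) .out)) (.nr 30 129 (.lg 0 true 4 67 67 19 0 4368) .out))
  (.nx 32 1292 (.lg 0 true 1 79 79 11 0 21840) .out)) .out)))) .out) .out) (.nx 66 2097153 (.nr 65
  1048577 (.nr 37 25 .s1 (.nx 40 197 (.nx 39 196 (.nr 38 317 (.lg 0 true 1 23 23 13 0 336) (.l1
  .sk)) (.l1 .sk)) (.nx 41 324 (.l1 (.ls 79 41 2366)) (.nr 64 524289 (.nr 62 370729 (.nr 58 185365
  (.nx 46 52017 (.lg 0 false 5 89 97 19 0 1680) (.nr 57 92683 (.nr 51 920 (.lg 0 true 5 79 79 19 0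
  1680) (.nx 56 330282 (.lg 2 false 5 83 89 19 35183 1680) .out)) .out)) (.nx 61 13005 (.lg 0 false
  3 89 89 19 0 5040) .out)) (.nx 63 1292 (.lg 0 true 1 73 73 13 0 336) .out)) .out)))) .out)
  .out))) (.na 92 46 (.na 68 34 .ne (.nx 91 2097153 (.nr 90 881745 (.nr 69 31 .s1 (.nx 72 197 (.nx
  71 196 (.nr 70 456 (.l1 (.ls 29 37 1132)) (.l1 .sk)) (.l1 .sk)) (.nx 81 32769 (.nx 73 324 (.l1
  (.ls 79 41 1949)) (.nr 80 623489 (.nr 76 155873 (.lg 0 false 3 97 97 13 0 5040) (.nx 79 13005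
  (.lg 0 false 3 97 97 13 0 5040) .out)) .out)) (.nr 89 65537 (.nr 86 456 (.lg 0 true 5 73 73 13 0
  1680) (.nx 88 208065 (.lg 2 true 2 89 89 13 44716 1680) .out)) .out)))) .out) .out)) (.na 93 50
  .ne (.nx 112 2097153 (.nr 111 881745 (.nr 94 49 .s1 (.nx 95 324 (.l1 (.ls 73 41 2102)) (.nr 110
  741457 (.nr 106 155873 (.nr 102 46342 (.nx 98 208065 (.lg 0 false 3 83 83 19 0 5040) (.nr 101 257
  (.lg 0 true 3 67 67 19 0 5040) .out)) (.nx 105 32769 (.lg 0 false 3 83 83 19 0 5040) .out)) (.nx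
  109 16385 (.lg 0 false 3 89 89 19 0 5040) .out)) .out))) .out) .out)))) (.na 154 68 (.na 134 58
  (.nx 133 2097153 (.nr 132 881745 (.nr 114 51 .s1 (.nx 118 324 (.nx 116 196 (.nr 115 575 (.l1 (.ls
  31 37 741)) (.l1 .sk)) (.nx 117 197 (.l1 .sk) (.l1 (.ls 79 41 1275)))) (.nr 131 741457 (.nr 127
  155873 (.nx 121 32769 (.lg 0 false 3 89 97 23 0 65520) (.nr 126 46342 (.nr 124 575 (.lg 0 true 3
  79 79 23 0 13104) (.nx 125 208065 (.lg 2 true 1 89 89 19 35462 21840) .out)) .out)) (.nx 130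
  16385 (.lg 0 false 3 97 101 23 0 65520) .out)) .out))) .out) .out) (.na 153 64 (.nx 152 2097153
  (.nr 151 881745 (.nr 135 57 .s1 (.nx 136 324 (.l1 (.ls 79 41 1812)) (.nr 150 741457 (.nx 141
  26009 (.lg 0 false 5 97 97 19 0 5040) (.nr 149 65537 (.nr 146 635 (.lg 0 true 5 73 73 19 0 1680)
  (.nx 148 208065 (.lg 2 false 2 83 83 13 48546 336) .out)) .out)) .out))) .out) .out) .ne)) (.na
  188 74 (.na 173 70 (.nx 172 2097153 (.nr 171 2097153 (.nr 155 67 .s1 (.nx 158 197 (.nx 157 196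
  (.nr 156 694 (.l1 (.ls 31 37 567)) (.l1 .sk)) (.l1 .sk)) (.nx 159 324 (.l1 (.ls 83 37 976)) (.nr
  170 1048577 (.nx 162 20644 (.lg 0 false 3 97 101 29 0 5040) (.nr 169 65537 (.nr 167 32769 (.nr
  165 513 (.lg 0 true 3 73 73 29 0 1008) (.nx 166 131073 (.lg 2 true 1 83 83 13 30673 1680) .out))
  (.nx 168 32769 (.lg 0 false 1 79 79 13 0 336) .out)) .out)) .out)))) .out) .out) (.nx 187 2097153
  (.nr 186 2097153 (.nr 174 69 .s1 (.nx 175 324 (.l1 (.ls 73 43 1502)) (.nr 185 1048577 (.nx 178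
  20644 (.lg 0 false 3 89 89 29 0 5040) (.nr 184 65537 (.nr 181 513 (.lg 0 true 3 67 67 29 0 5040)
  (.nx 183 131073 (.lg 2 true 2 79 79 23 61163 1680) .out)) .out)) .out))) .out) .out)) (.na 203 82
  (.nx 202 2097153 (.nr 201 2097153 (.nr 189 73 .s1 (.nx 190 324 (.l1 (.ls 79 31 1421)) (.nr 200
  1048577 (.nx 193 20644 (.lg 0 false 3 97 97 19 0 5040) (.nr 199 65537 (.nr 196 513 (.lg 0 true 3
  67 67 19 0 1008) (.nx 198 131073 (.lg 2 true 2 83 83 19 61163 1680) .out)) .out)) .out))) .out)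
  .out) (.nx 217 2097153 (.nr 216 2097153 (.nr 204 81 .s1 (.nx 205 324 (.l1 (.ls 79 37 1283)) (.nr
  215 1048577 (.nx 208 20644 (.lg 0 false 3 89 89 19 0 1008) (.nr 214 65537 (.nr 211 513 (.lg 0
  true 3 67 67 19 0 1008) (.nx 213 131073 (.lg 2 true 2 79 79 19 61163 336) .out)) .out)) .out)))
  .out) .out))))) (.na 290 130 (.na 249 106 (.na 219 98 .ne (.na 236 100 (.nx 235 2097153 (.nr 234
  2097153 (.nr 220 97 .s1 (.nx 223 197 (.nx 222 196 (.nr 221 992 (.l1 (.ls 31 31 394)) (.l1 .sk))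
  (.l1 .sk)) (.nx 228 20644 (.nx 224 324 (.l1 (.ls 83 37 678)) (.nr 227 1048577 (.lg 0 false 3 89
  101 31 0 5040) .out)) (.nr 233 65537 (.nr 229 513 (.lg 0 true 1 71 71 29 0 336) (.nx 232 131073
  (.nr 230 32769 (.lg 2 false 1 79 79 29 30673 336) (.nx 231 32769 (.lg 0 false 1 73 73 29 0 336)
  .out)) .out)) .out)))) .out) .out) (.nx 248 2097153 (.nr 247 2097153 (.nr 237 100 .s1 (.nx 242
  20644 (.nx 238 324 (.l1 (.ls 79 37 1052)) (.nr 241 1048577 (.lg 0 false 3 89 89 29 0 5040) .out))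
  (.nr 246 65537 (.nr 244 513 (.lg 0 true 2 67 67 29 0 1680) (.nx 245 131073 (.lg 2 true 1 83 83 23
  61163 1680) .out)) .out))) .out) .out))) (.na 276 122 (.na 263 116 (.nx 262 2097153 (.nr 261
  2097153 (.nr 250 106 .s1 (.nx 255 20644 (.nx 251 324 (.l1 (.ls 79 31 993)) (.nr 254 1048577 (.lg
  0 false 3 89 89 23 0 5040) .out)) (.nr 260 65537 (.nr 257 513 (.lg 0 true 2 67 67 19 0 336) (.nx
  259 131073 (.lg 2 false 2 79 79 19 61163 1680) .out)) .out))) .out) .out) (.nx 275 2097153 (.nr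
  274 2097153 (.nr 264 116 .s1 (.nx 265 324 (.l1 (.ls 83 37 907)) (.nr 273 1048577 (.nx 268 20644
  (.lg 0 false 3 89 97 23 0 5040) (.nr 272 65537 (.nr 270 513 (.lg 0 true 2 71 71 23 0 336) (.nx
  271 131073 (.lg 2 false 1 83 83 19 61163 1680) .out)) .out)) .out))) .out) .out)) (.na 289 128
  (.nx 288 2097153 (.nr 287 2097153 (.nr 277 122 .s1 (.nx 282 32769 (.nx 278 324 (.l1 (.ls 79 31
  863)) (.nr 281 1048577 (.lg 0 false 3 89 89 23 0 1008) .out)) (.nr 286 32769 (.nr 284 513 (.lg 0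
  true 2 61 61 19 0 336) (.nx 285 131073 (.lg 2 true 1 71 71 19 25040 336) .out)) .out))) .out)
  .out) .ne))) (.na 342 164 (.na 316 146 (.na 303 140 (.nx 302 1048577 (.nr 301 1482912 (.nr 291
  130 .s1 (.nx 294 197 (.nx 293 196 (.nr 292 1388 (.l1 (.ls 31 31 298)) (.l1 .sk)) (.l1 .sk)) (.nx
  297 16385 (.lg 0 false 3 89 89 31 0 65520) (.nr 300 65537 (.nx 298 131073 (.lg 0 false 1 89 89 29
  0 21840) (.nr 299 1025 (.lg 0 true 1 71 71 29 0 21840) .out)) .out)))) .out) .out) (.nx 315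
  1048577 (.nr 314 1482912 (.nr 304 140 .s1 (.nx 312 131073 (.nx 310 16385 (.nx 306 196 (.nr 305
  1448 (.l1 (.ls 29 31 277)) (.l1 .sk)) (.nx 307 197 (.l1 .sk) (.lg 0 false 3 83 89 31 0 5040)))
  (.nr 311 65537 (.lg 0 true 1 83 83 29 0 1680) .out)) (.nr 313 1025 (.lg 0 true 1 67 67 29 0 1680)
  .out))) .out) .out)) (.na 329 148 (.nx 328 1048577 (.nr 327 1482912 (.nr 317 146 .s1 (.nx 320 197
  (.nx 319 196 (.nr 318 1467 (.l1 (.ls 19 29 266)) (.l1 .sk)) (.l1 .sk)) (.nx 323 32769 (.lg 0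
  false 3 89 89 23 0 5040) (.nr 326 16385 (.nr 324 1025 (.lg 0 false 1 67 67 19 0 1680) (.nx 325
  131073 (.lg 2 true 1 53 53 19 12532 1680) .out)) .out)))) .out) .out) (.nx 341 1048577 (.nr 340
  1482912 (.nr 330 148 .s1 (.nx 333 197 (.nx 332 196 (.nr 331 1626 (.l1 (.ls 29 29 262)) (.l1 .sk))
  (.l1 .sk)) (.nx 338 131073 (.nx 336 16385 (.lg 0 false 3 89 89 29 0 1008) (.nr 337 65537 (.lg 0
  false 1 89 89 23 0 336) .out)) (.nr 339 1025 (.lg 0 true 1 71 71 23 0 336) .out)))) .out) .out)))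
  (.na 368 178 (.na 355 170 (.nx 354 1048577 (.nr 353 1482912 (.nr 343 164 .s1 (.nx 351 131073 (.nx
  345 196 (.nr 344 1686 (.l1 (.ls 29 23 237)) (.l1 .sk)) (.nx 346 197 (.l1 .sk) (.nx 349 16385 (.lg
  0 false 3 89 89 29 0 5040) (.nr 350 65537 (.lg 0 false 1 89 89 23 0 1680) .out)))) (.nr 352 1025
  (.lg 0 true 1 67 67 23 0 336) .out))) .out) .out) (.nx 367 1048577 (.nr 366 1482912 (.nr 356 170
  .s1 (.nx 364 131073 (.nx 362 16385 (.nx 358 196 (.nr 357 1765 (.l1 (.ls 16 31 228)) (.l1 .sk))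
  (.nx 359 197 (.l1 .sk) (.lg 0 false 3 89 89 37 0 5040))) (.nr 363 65537 (.lg 0 false 1 89 89 31 0
  1680) .out)) (.nr 365 1025 (.lg 0 true 1 67 67 31 0 1680) .out))) .out) .out)) (.na 381 182 (.nx
  380 1048577 (.nr 379 1482912 (.nr 369 178 .s1 (.nx 371 196 (.nr 370 1804 (.l1 (.ls 17 23 218))
  (.l1 .sk)) (.nx 372 197 (.l1 .sk) (.nx 375 32769 (.lg 0 false 3 79 79 23 0 1008) (.nr 378 16385
  (.nr 376 1025 (.lg 0 false 1 61 61 19 0 1680) (.nx 377 131073 (.lg 2 true 1 47 47 19 12532 336)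
  .out)) .out))))) .out) .out) (.nx 393 1048577 (.nr 392 1048577 (.nr 382 182 .s1 (.nx 385 197 (.nx
  384 196 (.nr 383 1923 (.l1 (.ls 23 31 214)) (.l1 .sk)) (.l1 .sk)) (.nx 388 32769 (.lg 0 false 3
  83 83 31 0 13104) (.nr 391 16385 (.nr 389 1025 (.lg 0 false 1 67 67 29 0 21840) (.nx 390 131073
  (.lg 2 true 1 53 53 29 12532 4368) .out)) .out)))) .out) .out)))))) (.na 2684 1024 (.na 473 244
  (.na 429 212 (.na 407 196 (.nx 406 1048577 (.nr 405 1048577 (.nr 395 194 .s1 (.nx 398 197 (.nx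
  397 196 (.nr 396 1943 (.l1 (.ls 19 23 201)) (.l1 .sk)) (.l1 .sk)) (.nx 401 32769 (.lg 0 false 3
  79 79 29 0 5040) (.nr 404 16385 (.nr 402 1025 (.lg 0 false 1 61 61 19 0 336) (.nx 403 131073 (.lg
  2 true 1 47 47 19 12532 336) .out)) .out)))) .out) .out) (.na 418 202 (.nx 417 1048577 (.nr 416
  1048577 (.nr 408 196 .s1 (.nx 414 131073 (.nx 410 196 (.nr 409 2003 (.l1 (.ls 37 29 198)) (.l1
  .sk)) (.nx 411 197 (.l1 .sk) (.nr 412 65537 (.lg 0 true 1 83 89 31 0 1680) (.nx 413 16385 (.lg 0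
  false 1 89 97 31 0 1680) .out)))) (.nr 415 1025 (.lg 0 true 1 71 73 31 0 1680) .out))) .out)
  .out) (.nx 428 1048577 (.nr 427 1048577 (.nr 419 202 .s1 (.nx 422 197 (.nx 421 196 (.nr 420 2102
  (.l1 (.ls 19 23 193)) (.l1 .sk)) (.l1 .sk)) (.nx 425 32769 (.lg 0 false 3 79 79 29 0 1008) (.nr
  426 16385 (.lg 0 false 1 79 79 23 0 336) .out)))) .out) .out))) (.na 451 226 (.na 440 218 (.nx
  439 1048577 (.nr 438 1048577 (.nr 430 212 .s1 (.nx 433 197 (.nx 432 196 (.nr 431 2161 (.l1 (.ls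
  29 23 184)) (.l1 .sk)) (.l1 .sk)) (.nx 436 131073 (.nr 434 65537 (.lg 0 true 1 83 83 23 0 336)
  (.nx 435 16385 (.lg 0 false 1 83 83 23 0 336) .out)) (.nr 437 1025 (.lg 0 true 1 67 67 23 0 336)
  .out)))) .out) .out) (.nx 450 1048577 (.nr 449 1048577 (.nr 441 218 .s1 (.nx 444 197 (.nx 443 196
  (.nr 442 2241 (.l1 (.ls 17 23 179)) (.l1 .sk)) (.l1 .sk)) (.nx 447 32769 (.lg 0 false 3 73 73 29
  0 1008) (.nr 448 16385 (.lg 0 false 1 79 79 23 0 1680) .out)))) .out) .out)) (.na 462 238 (.nx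
  461 1048577 (.nr 460 1048577 (.nr 452 226 .s1 (.nx 458 32769 (.nx 454 196 (.nr 453 2360 (.l1 (.ls
  19 23 172)) (.l1 .sk)) (.nx 455 197 (.l1 .sk) (.lg 0 false 3 79 79 29 0 5040))) (.nr 459 16385
  (.lg 0 false 1 79 79 23 0 1680) .out))) .out) .out) (.nx 472 1048577 (.nr 471 1048577 (.nr 463
  238 .s1 (.nx 466 197 (.nx 465 196 (.nr 464 2419 (.l1 (.ls 16 31 164)) (.l1 .sk)) (.l1 .sk)) (.nx
  469 32769 (.lg 0 false 3 79 79 37 0 1008) (.nr 470 16385 (.lg 0 false 1 83 83 31 0 5040) .out))))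
  .out) .out)))) (.na 494 257 (.na 484 250 (.nx 483 1048577 (.nr 482 1048577 (.nr 474 244 .s1 (.nx
  480 131073 (.nx 476 196 (.nr 475 2478 (.l1 (.ls 23 23 160)) (.l1 .sk)) (.nx 477 197 (.l1 .sk)
  (.nr 478 65537 (.lg 0 true 1 79 79 23 0 336) (.nx 479 16385 (.lg 0 false 1 83 83 23 0 1680)
  .out)))) (.nr 481 1025 (.lg 0 true 1 61 61 23 0 336) .out))) .out) .out) (.na 493 256 (.nx 492
  1048577 (.nr 491 1048577 (.nr 485 250 .s1 (.nx 488 197 (.nx 487 196 (.nr 486 2538 (.l1 (.ls 19 29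
  156)) (.l1 .sk)) (.l1 .sk)) (.nx 489 32769 (.lg 0 true 1 83 83 29 0 1680) (.nr 490 16385 (.lg 0
  false 1 79 79 29 0 1680) .out)))) .out) .out) .ne)) (.na 1376 512 (.na 924 363 (.nx 923 1048577
  (.nr 922 1482912 (.nr 495 257 .s1 (.nx 708 20644 (.nx 601 257 (.la (.ls 89 19 259)) (.nr 707
  1048577 (.la (.lg 0 false 1 79 79 23 0)) .out)) (.nr 921 32769 (.nr 814 2049 (.la (.lg 0 true 1
  61 61 23 0)) (.nx 920 131073 (.la (.lg 2 false 1 61 61 23 30673)) .out)) .out))) .out) .out) (.nx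
  1375 1048577 (.nr 1374 1482912 (.nr 925 363 .s1 (.nx 1074 257 (.la (.ls 83 23 184)) (.nr 1373
  1048577 (.nx 1223 20644 (.la (.lg 0 false 1 73 73 23 0)) (.nr 1372 32769 (.la (.lg 2 true 1 71 71
  23 283087)) .out)) .out))) .out) .out)) (.na 2082 725 (.nx 2081 1048577 (.nr 2080 1482912 (.nr
  1377 512 .s1 (.nx 1652 257 (.nx 1591 196 (.nr 1590 7187 (.la (.ls 41 23 182)) (.l1 .sk)) (.nx
  1592 197 (.l1 .sk) (.lx (.lp 83 17 182)))) (.nr 2079 1048577 (.nx 1865 20644 (.la (.lg 0 false 1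
  71 71 29 0)) (.nr 2078 32769 (.la (.lg 2 true 1 61 61 29 200705)) .out)) .out))) .out) .out) (.nx
  2683 13005 (.nr 2682 1048577 (.nr 2083 725 .s1 (.nx 2382 2049 (.la (.ls 79 41 5793)) (.nr 2681
  65537 (.la (.lg 0 false 1 47 53 29 0)) .out))) .out) .out))))) (.na 10484 11586 (.na 4992 2897
  (.na 3538 1449 (.nx 3537 13005 (.nr 3536 1048577 (.nr 2685 1024 .s1 (.nx 3110 3252 (.la (.ls 67
  41 10330)) (.nr 3535 32769 (.la (.lg 0 false 1 41 41 31 0)) .out))) .out) .out) (.na 4140 2048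
  (.nx 4139 8193 (.nr 4138 1048577 (.nr 3539 1449 .s1 (.la (.ls 61 47 46328))) .out) .out) (.nx
  4991 8193 (.nr 4990 1048577 (.nr 4141 2048 .s1 (.la (.ls 61 47 32779))) .out) .out))) (.na 7894
  5793 (.na 6194 4096 (.nx 6193 3252 (.nr 6192 524289 (.nr 4993 2897 .s1 (.la (.ls 61 37 3653)))
  .out) .out) (.nx 7893 3252 (.nr 7892 524289 (.nr 6195 4096 .s1 (.la (.ls 61 37 2584))) .out)
  .out)) (.na 9189 8192 (.nx 9188 1292 (.nr 9187 262145 (.nr 7895 5793 .s1 (.nx 8708 814 (.lx (.lp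
  59 37 2049)) (.nr 9186 65537 (.lx (.lp 47 37 2049)) .out))) .out) .out) (.nx 10483 1292 (.nr
  10482 262145 (.nr 9190 8192 .s1 (.nx 10003 814 (.lx (.lp 59 37 2897)) (.nr 10481 131073 (.lx (.lp
  47 41 2897)) .out))) .out) .out)))) (.na 15662 131072 (.na 13073 32768 (.na 11778 16384 (.nx
  11777 1292 (.nr 11776 131073 (.nr 10485 11586 .s1 (.lx (.lp 47 41 4097))) .out) .out) (.nx 13072
  1292 (.nr 13071 262145 (.nr 11779 16384 .s1 (.nx 12035 257 (.lx (.lp 16 37 8193)) (.nr 13070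
  131073 (.lx (.lp 47 43 8193)) .out))) .out) .out)) (.na 14367 65536 (.nx 14366 1292 (.nr 14365
  262145 (.nr 13074 32768 .s1 (.lx (.lp 43 47 16385))) .out) .out) (.nx 15661 1292 (.nr 15660
  524289 (.nr 14368 65536 .s1 (.nx 14624 257 (.lx (.lp 16 0 32769)) (.nr 15659 262145 (.lx (.lp 43
  53 32769)) .out))) .out) .out))) (.na 16692 524288 (.na 16177 262144 (.nx 16176 513 (.nr 16175
  524289 (.nr 15663 131072 .s1 (.lx (.lp 43 53 65537))) .out) .out) (.nx 16691 513 (.nr 16690
  1048577 (.nr 16178 262144 .s1 (.lx (.lp 16 0 131073))) .out) .out)) (.na 16694 1048577 (.nx 16693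
  257 (.l1 .sk) .out) .out))))))

theorem c110 :
    OkQ ckI L8 177 1 1099511627776 0 34359738368 1 1099511627776 ∧
    OkQ ckI L6 92 26 1099511627776 0 34359738368 1 1099511627776 ∧
    OkQ ckI L9 196 23 1099511627776 0 34359738368 1 1099511627776 := by
  refine ⟨?_, ?_, ?_⟩
  · refine fin 1416 14194 T110_0 ?_
    refine jn 8 (by decide +kernel) ?_
    refine jn 11 (by decide +kernel) ?_
    refine jn 15 (by decide +kernel) ?_
    refine jn 19 (by decide +kernel) ?_
    refine jn 24 (by decide +kernel) ?_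
    refine jn 29 (by decide +kernel) ?_
    refine jn 34 (by decide +kernel) ?_
    refine jn 39 (by decide +kernel) ?_
    refine jn 46 (by decide +kernel) ?_
    refine jn 50 (by decide +kernel) ?_
    refine jn 54 (by decide +kernel) ?_
    refine jn 60 (by decide +kernel) ?_
    refine jn 64 (by decide +kernel) ?_
    refine jn 69 (by decide +kernel) ?_
    refine jn 74 (by decide +kernel) ?_
    refine jn 80 (by decide +kernel) ?_
    refine jn 85 (by decide +kernel) ?_
    refine jn 89 (by decide +kernel) ?_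
    refine jn 94 (by decide +kernel) ?_
    refine jn 122 (by decide +kernel) ?_
    refine jn 138 (by decide +kernel) ?_
    refine jn 145 (by decide +kernel) ?_
    refine jn 152 (by decide +kernel) ?_
    refine jn 159 (by decide +kernel) ?_
    refine jn 166 (by decide +kernel) ?_
    refine jn 179 (by decide +kernel) ?_
    refine jn 199 (by decide +kernel) ?_
    refine jn 223 (by decide +kernel) ?_
    refine jn 227 (by decide +kernel) ?_
    refine jn 255 (by decide +kernel) ?_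
    refine jn 283 (by decide +kernel) ?_
    refine jn 303 (by decide +kernel) ?_
    refine jn 315 (by decide +kernel) ?_
    refine jn 330 (by decide +kernel) ?_
    refine jn 339 (by decide +kernel) ?_
    refine jn 348 (by decide +kernel) ?_
    refine jn 355 (by decide +kernel) ?_
    refine jn 363 (by decide +kernel) ?_
    refine jn 370 (by decide +kernel) ?_
    refine jn 379 (by decide +kernel) ?_
    refine jn 391 (by decide +kernel) ?_
    refine jn 402 (by decide +kernel) ?_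
    refine jn 415 (by decide +kernel) ?_
    refine jn 422 (by decide +kernel) ?_
    refine jn 433 (by decide +kernel) ?_
    refine jn 461 (by decide +kernel) ?_
    refine jn 468 (by decide +kernel) ?_
    refine jn 491 (by decide +kernel) ?_
    refine jn 503 (by decide +kernel) ?_
    refine jn 539 (by decide +kernel) ?_
    refine jn 551 (by decide +kernel) ?_
    refine jn 558 (by decide +kernel) ?_
    refine jn 569 (by decide +kernel) ?_
    refine jn 576 (by decide +kernel) ?_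
    refine jn 580 (by decide +kernel) ?_
    refine jn 590 (by decide +kernel) ?_
    refine jn 600 (by decide +kernel) ?_
    refine jn 611 (by decide +kernel) ?_
    refine jn 631 (by decide +kernel) ?_
    refine jn 651 (by decide +kernel) ?_
    refine jn 684 (by decide +kernel) ?_
    refine jn 720 (by decide +kernel) ?_
    refine jn 736 (by decide +kernel) ?_
    refine jn 748 (by decide +kernel) ?_
    refine jn 797 (by decide +kernel) ?_
    refine jn 821 (by decide +kernel) ?_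
    refine jn 842 (by decide +kernel) ?_
    refine jn 865 (by decide +kernel) ?_
    refine jn 866 (by decide +kernel) ?_
    refine jn 867 (by decide +kernel) ?_
    refine jn 868 (by decide +kernel) ?_
    refine jn 869 (by decide +kernel) ?_
    refine jn 870 (by decide +kernel) ?_
    refine jn 871 (by decide +kernel) ?_
    refine jn 872 (by decide +kernel) ?_
    refine jn 881 (by decide +kernel) ?_
    refine jn 893 (by decide +kernel) ?_
    refine jn 899 (by decide +kernel) ?_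
    refine jn 916 (by decide +kernel) ?_
    refine jn 932 (by decide +kernel) ?_
    refine jn 948 (by decide +kernel) ?_
    refine jn 964 (by decide +kernel) ?_
    refine jn 972 (by decide +kernel) ?_
    refine jn 973 (by decide +kernel) ?_
    refine jn 974 (by decide +kernel) ?_
    refine jn 975 (by decide +kernel) ?_
    refine jn 997 (by decide +kernel) ?_
    refine jn 1013 (by decide +kernel) ?_
    refine jn 1029 (by decide +kernel) ?_
    refine jn 1044 (by decide +kernel) ?_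
    refine jn 1062 (by decide +kernel) ?_
    refine jn 1074 (by decide +kernel) ?_
    refine jn 1086 (by decide +kernel) ?_
    refine jn 1106 (by decide +kernel) ?_
    refine jn 1117 (by decide +kernel) ?_
    refine jn 1141 (by decide +kernel) ?_
    refine jn 1157 (by decide +kernel) ?_
    refine jn 1175 (by decide +kernel) ?_
    refine jn 1192 (by decide +kernel) ?_
    refine jn 1207 (by decide +kernel) ?_
    refine jn 1216 (by decide +kernel) ?_
    refine jn 1234 (by decide +kernel) ?_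
    refine jn 1250 (by decide +kernel) ?_
    refine jn 1401 (by decide +kernel) ?_
    refine jn 1541 (by decide +kernel) ?_
    refine jn 1560 (by decide +kernel) ?_
    refine jn 1586 (by decide +kernel) ?_
    refine jn 1604 (by decide +kernel) ?_
    refine jn 1636 (by decide +kernel) ?_
    refine jn 1645 (by decide +kernel) ?_
    refine jn 1666 (by decide +kernel) ?_
    refine jn 1685 (by decide +kernel) ?_
    refine jn 1716 (by decide +kernel) ?_
    refine jn 1749 (by decide +kernel) ?_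
    refine jn 1765 (by decide +kernel) ?_
    refine jn 1785 (by decide +kernel) ?_
    refine jn 1801 (by decide +kernel) ?_
    refine jn 1840 (by decide +kernel) ?_
    refine jn 1859 (by decide +kernel) ?_
    refine jn 1892 (by decide +kernel) ?_
    refine jn 1911 (by decide +kernel) ?_
    refine jn 1940 (by decide +kernel) ?_
    refine jn 1985 (by decide +kernel) ?_
    refine jn 2017 (by decide +kernel) ?_
    refine jn 2040 (by decide +kernel) ?_
    refine jn 2189 (by decide +kernel) ?_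
    refine jn 2285 (by decide +kernel) ?_
    refine jn 2316 (by decide +kernel) ?_
    refine jn 2353 (by decide +kernel) ?_
    refine jn 2389 (by decide +kernel) ?_
    refine jn 2448 (by decide +kernel) ?_
    refine jn 2487 (by decide +kernel) ?_
    refine jn 2515 (by decide +kernel) ?_
    refine jn 2540 (by decide +kernel) ?_
    refine jn 2583 (by decide +kernel) ?_
    refine jn 2622 (by decide +kernel) ?_
    refine jn 2679 (by decide +kernel) ?_
    refine jn 2754 (by decide +kernel) ?_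
    refine jn 2841 (by decide +kernel) ?_
    refine jn 2956 (by decide +kernel) ?_
    refine jn 3017 (by decide +kernel) ?_
    refine jn 3086 (by decide +kernel) ?_
    refine jn 3170 (by decide +kernel) ?_
    refine jn 3241 (by decide +kernel) ?_
    refine jn 3327 (by decide +kernel) ?_
    refine jn 3387 (by decide +kernel) ?_
    refine jn 3448 (by decide +kernel) ?_
    refine jn 3527 (by decide +kernel) ?_
    refine jn 3587 (by decide +kernel) ?_
    refine jn 3670 (by decide +kernel) ?_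
    refine jn 3737 (by decide +kernel) ?_
    refine jn 3840 (by decide +kernel) ?_
    refine jn 3934 (by decide +kernel) ?_
    refine jn 4060 (by decide +kernel) ?_
    refine jn 4213 (by decide +kernel) ?_
    refine jn 4351 (by decide +kernel) ?_
    refine jn 4475 (by decide +kernel) ?_
    refine jn 4585 (by decide +kernel) ?_
    refine jn 4707 (by decide +kernel) ?_
    refine jn 4845 (by decide +kernel) ?_
    refine jn 5016 (by decide +kernel) ?_
    refine jn 5161 (by decide +kernel) ?_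
    refine jn 5299 (by decide +kernel) ?_
    refine jn 5471 (by decide +kernel) ?_
    refine jn 5655 (by decide +kernel) ?_
    refine jn 5851 (by decide +kernel) ?_
    refine jn 6035 (by decide +kernel) ?_
    refine jn 6243 (by decide +kernel) ?_
    refine jn 6580 (by decide +kernel) ?_
    refine jn 6807 (by decide +kernel) ?_
    refine jn 6992 (by decide +kernel) ?_
    refine jn 7191 (by decide +kernel) ?_
    refine jn 7389 (by decide +kernel) ?_
    refine jn 7600 (by decide +kernel) ?_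
    refine jn 7851 (by decide +kernel) ?_
    refine jn 8069 (by decide +kernel) ?_
    refine jn 8395 (by decide +kernel) ?_
    refine jn 8827 (by decide +kernel) ?_
    refine jn 9027 (by decide +kernel) ?_
    refine jn 9174 (by decide +kernel) ?_
    refine jn 9285 (by decide +kernel) ?_
    refine jn 9381 (by decide +kernel) ?_
    refine jn 9465 (by decide +kernel) ?_
    refine jn 9544 (by decide +kernel) ?_
    refine jn 9999 (by decide +kernel) ?_
    refine jn 10210 (by decide +kernel) ?_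
    refine jn 10347 (by decide +kernel) ?_
    refine jn 10458 (by decide +kernel) ?_
    refine jn 10549 (by decide +kernel) ?_
    refine jn 10625 (by decide +kernel) ?_
    refine jn 10697 (by decide +kernel) ?_
    refine jn 10765 (by decide +kernel) ?_
    refine jn 10827 (by decide +kernel) ?_
    refine jn 11257 (by decide +kernel) ?_
    refine jn 11541 (by decide +kernel) ?_
    refine jn 11729 (by decide +kernel) ?_
    refine jn 11879 (by decide +kernel) ?_
    refine jn 12005 (by decide +kernel) ?_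
    refine jn 12107 (by decide +kernel) ?_
    refine jn 12657 (by decide +kernel) ?_
    refine jn 12943 (by decide +kernel) ?_
    refine jn 13285 (by decide +kernel) ?_
    refine jn 13904 (by decide +kernel) ?_
    refine jn 14163 (by decide +kernel) ?_
    exact je (by decide +kernel)
  · refine fin 1656 7471 T110_1 ?_
    refine jn 5 (by decide +kernel) ?_
    refine jn 12 (by decide +kernel) ?_
    refine jn 20 (by decide +kernel) ?_
    refine jn 28 (by decide +kernel) ?_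
    refine jn 33 (by decide +kernel) ?_
    refine jn 39 (by decide +kernel) ?_
    refine jn 47 (by decide +kernel) ?_
    refine jn 50 (by decide +kernel) ?_
    refine jn 56 (by decide +kernel) ?_
    refine jn 63 (by decide +kernel) ?_
    refine jn 66 (by decide +kernel) ?_
    refine jn 71 (by decide +kernel) ?_
    refine jn 81 (by decide +kernel) ?_
    refine jn 82 (by decide +kernel) ?_
    refine jn 83 (by decide +kernel) ?_
    refine jn 84 (by decide +kernel) ?_
    refine jn 85 (by decide +kernel) ?_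
    refine jn 86 (by decide +kernel) ?_
    refine jn 87 (by decide +kernel) ?_
    refine jn 88 (by decide +kernel) ?_
    refine jn 89 (by decide +kernel) ?_
    refine jn 90 (by decide +kernel) ?_
    refine jn 91 (by decide +kernel) ?_
    refine jn 92 (by decide +kernel) ?_
    refine jn 93 (by decide +kernel) ?_
    refine jn 102 (by decide +kernel) ?_
    refine jn 105 (by decide +kernel) ?_
    refine jn 106 (by decide +kernel) ?_
    refine jn 107 (by decide +kernel) ?_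
    refine jn 108 (by decide +kernel) ?_
    refine jn 109 (by decide +kernel) ?_
    refine jn 110 (by decide +kernel) ?_
    refine jn 111 (by decide +kernel) ?_
    refine jn 121 (by decide +kernel) ?_
    refine jn 122 (by decide +kernel) ?_
    refine jn 123 (by decide +kernel) ?_
    refine jn 124 (by decide +kernel) ?_
    refine jn 126 (by decide +kernel) ?_
    refine jn 127 (by decide +kernel) ?_
    refine jn 128 (by decide +kernel) ?_
    refine jn 141 (by decide +kernel) ?_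
    refine jn 145 (by decide +kernel) ?_
    refine jn 160 (by decide +kernel) ?_
    refine jn 173 (by decide +kernel) ?_
    refine jn 177 (by decide +kernel) ?_
    refine jn 185 (by decide +kernel) ?_
    refine jn 186 (by decide +kernel) ?_
    refine jn 187 (by decide +kernel) ?_
    refine jn 190 (by decide +kernel) ?_
    refine jn 191 (by decide +kernel) ?_
    refine jn 192 (by decide +kernel) ?_
    refine jn 199 (by decide +kernel) ?_
    refine jn 200 (by decide +kernel) ?_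
    refine jn 201 (by decide +kernel) ?_
    refine jn 204 (by decide +kernel) ?_
    refine jn 215 (by decide +kernel) ?_
    refine jn 221 (by decide +kernel) ?_
    refine jn 233 (by decide +kernel) ?_
    refine jn 245 (by decide +kernel) ?_
    refine jn 254 (by decide +kernel) ?_
    refine jn 263 (by decide +kernel) ?_
    refine jn 272 (by decide +kernel) ?_
    refine jn 273 (by decide +kernel) ?_
    refine jn 275 (by decide +kernel) ?_
    refine jn 276 (by decide +kernel) ?_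
    refine jn 278 (by decide +kernel) ?_
    refine jn 292 (by decide +kernel) ?_
    refine jn 307 (by decide +kernel) ?_
    refine jn 318 (by decide +kernel) ?_
    refine jn 320 (by decide +kernel) ?_
    refine jn 332 (by decide +kernel) ?_
    refine jn 344 (by decide +kernel) ?_
    refine jn 346 (by decide +kernel) ?_
    refine jn 348 (by decide +kernel) ?_
    refine jn 359 (by decide +kernel) ?_
    refine jn 373 (by decide +kernel) ?_
    refine jn 384 (by decide +kernel) ?_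
    refine jn 387 (by decide +kernel) ?_
    refine jn 400 (by decide +kernel) ?_
    refine jn 410 (by decide +kernel) ?_
    refine jn 413 (by decide +kernel) ?_
    refine jn 424 (by decide +kernel) ?_
    refine jn 432 (by decide +kernel) ?_
    refine jn 433 (by decide +kernel) ?_
    refine jn 434 (by decide +kernel) ?_
    refine jn 435 (by decide +kernel) ?_
    refine jn 446 (by decide +kernel) ?_
    refine jn 457 (by decide +kernel) ?_
    refine jn 467 (by decide +kernel) ?_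
    refine jn 470 (by decide +kernel) ?_
    refine jn 479 (by decide +kernel) ?_
    refine jn 481 (by decide +kernel) ?_
    refine jn 490 (by decide +kernel) ?_
    refine jn 492 (by decide +kernel) ?_
    refine jn 503 (by decide +kernel) ?_
    refine jn 513 (by decide +kernel) ?_
    refine jn 523 (by decide +kernel) ?_
    refine jn 525 (by decide +kernel) ?_
    refine jn 541 (by decide +kernel) ?_
    refine jn 542 (by decide +kernel) ?_
    refine jn 543 (by decide +kernel) ?_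
    refine jn 544 (by decide +kernel) ?_
    refine jn 555 (by decide +kernel) ?_
    refine jn 572 (by decide +kernel) ?_
    refine jn 581 (by decide +kernel) ?_
    refine jn 590 (by decide +kernel) ?_
    refine jn 597 (by decide +kernel) ?_
    refine jn 601 (by decide +kernel) ?_
    refine jn 617 (by decide +kernel) ?_
    refine jn 624 (by decide +kernel) ?_
    refine jn 626 (by decide +kernel) ?_
    refine jn 644 (by decide +kernel) ?_
    refine jn 652 (by decide +kernel) ?_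
    refine jn 668 (by decide +kernel) ?_
    refine jn 683 (by decide +kernel) ?_
    refine jn 692 (by decide +kernel) ?_
    refine jn 709 (by decide +kernel) ?_
    refine jn 717 (by decide +kernel) ?_
    refine jn 725 (by decide +kernel) ?_
    refine jn 732 (by decide +kernel) ?_
    refine jn 733 (by decide +kernel) ?_
    refine jn 734 (by decide +kernel) ?_
    refine jn 750 (by decide +kernel) ?_
    refine jn 767 (by decide +kernel) ?_
    refine jn 774 (by decide +kernel) ?_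
    refine jn 783 (by decide +kernel) ?_
    refine jn 796 (by decide +kernel) ?_
    refine jn 800 (by decide +kernel) ?_
    refine jn 812 (by decide +kernel) ?_
    refine jn 824 (by decide +kernel) ?_
    refine jn 838 (by decide +kernel) ?_
    refine jn 841 (by decide +kernel) ?_
    refine jn 853 (by decide +kernel) ?_
    refine jn 866 (by decide +kernel) ?_
    refine jn 879 (by decide +kernel) ?_
    refine jn 890 (by decide +kernel) ?_
    refine jn 897 (by decide +kernel) ?_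
    refine jn 898 (by decide +kernel) ?_
    refine jn 900 (by decide +kernel) ?_
    refine jn 910 (by decide +kernel) ?_
    refine jn 933 (by decide +kernel) ?_
    refine jn 952 (by decide +kernel) ?_
    refine jn 980 (by decide +kernel) ?_
    refine jn 1007 (by decide +kernel) ?_
    refine jn 1033 (by decide +kernel) ?_
    refine jn 1034 (by decide +kernel) ?_
    refine jn 1066 (by decide +kernel) ?_
    refine jn 1102 (by decide +kernel) ?_
    refine jn 1138 (by decide +kernel) ?_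
    refine jn 1161 (by decide +kernel) ?_
    refine jn 1166 (by decide +kernel) ?_
    refine jn 1180 (by decide +kernel) ?_
    refine jn 1182 (by decide +kernel) ?_
    refine jn 1186 (by decide +kernel) ?_
    refine jn 1188 (by decide +kernel) ?_
    refine jn 1192 (by decide +kernel) ?_
    refine jn 1193 (by decide +kernel) ?_
    refine jn 1206 (by decide +kernel) ?_
    refine jn 1215 (by decide +kernel) ?_
    refine jn 1216 (by decide +kernel) ?_
    refine jn 1217 (by decide +kernel) ?_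
    refine jn 1230 (by decide +kernel) ?_
    refine jn 1235 (by decide +kernel) ?_
    refine jn 1250 (by decide +kernel) ?_
    refine jn 1252 (by decide +kernel) ?_
    refine jn 1253 (by decide +kernel) ?_
    refine jn 1258 (by decide +kernel) ?_
    refine jn 1272 (by decide +kernel) ?_
    refine jn 1276 (by decide +kernel) ?_
    refine jn 1280 (by decide +kernel) ?_
    refine jn 1285 (by decide +kernel) ?_
    refine jn 1288 (by decide +kernel) ?_
    refine jn 1289 (by decide +kernel) ?_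
    refine jn 1301 (by decide +kernel) ?_
    refine jn 1308 (by decide +kernel) ?_
    refine jn 1320 (by decide +kernel) ?_
    refine jn 1321 (by decide +kernel) ?_
    refine jn 1327 (by decide +kernel) ?_
    refine jn 1336 (by decide +kernel) ?_
    refine jn 1342 (by decide +kernel) ?_
    refine jn 1350 (by decide +kernel) ?_
    refine jn 1365 (by decide +kernel) ?_
    refine jn 1368 (by decide +kernel) ?_
    refine jn 1370 (by decide +kernel) ?_
    refine jn 1372 (by decide +kernel) ?_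
    refine jn 1376 (by decide +kernel) ?_
    refine jn 1391 (by decide +kernel) ?_
    refine jn 1396 (by decide +kernel) ?_
    refine jn 1400 (by decide +kernel) ?_
    refine jn 1403 (by decide +kernel) ?_
    refine jn 1411 (by decide +kernel) ?_
    refine jn 1413 (by decide +kernel) ?_
    refine jn 1439 (by decide +kernel) ?_
    refine jn 1472 (by decide +kernel) ?_
    refine jn 1499 (by decide +kernel) ?_
    refine jn 1532 (by decide +kernel) ?_
    refine jn 1564 (by decide +kernel) ?_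
    refine jn 1604 (by decide +kernel) ?_
    refine jn 1633 (by decide +kernel) ?_
    refine jn 1634 (by decide +kernel) ?_
    refine jn 1643 (by decide +kernel) ?_
    refine jn 1652 (by decide +kernel) ?_
    refine jn 1658 (by decide +kernel) ?_
    refine jn 1663 (by decide +kernel) ?_
    refine jn 1675 (by decide +kernel) ?_
    refine jn 1685 (by decide +kernel) ?_
    refine jn 1689 (by decide +kernel) ?_
    refine jn 1697 (by decide +kernel) ?_
    refine jn 1698 (by decide +kernel) ?_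
    refine jn 1708 (by decide +kernel) ?_
    refine jn 1719 (by decide +kernel) ?_
    refine jn 1725 (by decide +kernel) ?_
    refine jn 1732 (by decide +kernel) ?_
    refine jn 1743 (by decide +kernel) ?_
    refine jn 1745 (by decide +kernel) ?_
    refine jn 1746 (by decide +kernel) ?_
    refine jn 1768 (by decide +kernel) ?_
    refine jn 1774 (by decide +kernel) ?_
    refine jn 1777 (by decide +kernel) ?_
    refine jn 1778 (by decide +kernel) ?_
    refine jn 1789 (by decide +kernel) ?_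
    refine jn 1797 (by decide +kernel) ?_
    refine jn 1813 (by decide +kernel) ?_
    refine jn 1817 (by decide +kernel) ?_
    refine jn 1819 (by decide +kernel) ?_
    refine jn 1827 (by decide +kernel) ?_
    refine jn 1834 (by decide +kernel) ?_
    refine jn 1840 (by decide +kernel) ?_
    refine jn 1869 (by decide +kernel) ?_
    refine jn 1887 (by decide +kernel) ?_
    refine jn 1893 (by decide +kernel) ?_
    refine jn 1894 (by decide +kernel) ?_
    refine jn 1932 (by decide +kernel) ?_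
    refine jn 1954 (by decide +kernel) ?_
    refine jn 1962 (by decide +kernel) ?_
    refine jn 1988 (by decide +kernel) ?_
    refine jn 2011 (by decide +kernel) ?_
    refine jn 2046 (by decide +kernel) ?_
    refine jn 2058 (by decide +kernel) ?_
    refine jn 2076 (by decide +kernel) ?_
    refine jn 2109 (by decide +kernel) ?_
    refine jn 2134 (by decide +kernel) ?_
    refine jn 2166 (by decide +kernel) ?_
    refine jn 2187 (by decide +kernel) ?_
    refine jn 2215 (by decide +kernel) ?_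
    refine jn 2244 (by decide +kernel) ?_
    refine jn 2264 (by decide +kernel) ?_
    refine jn 2280 (by decide +kernel) ?_
    refine jn 2291 (by decide +kernel) ?_
    refine jn 2324 (by decide +kernel) ?_
    refine jn 2351 (by decide +kernel) ?_
    refine jn 2376 (by decide +kernel) ?_
    refine jn 2397 (by decide +kernel) ?_
    refine jn 2432 (by decide +kernel) ?_
    refine jn 2457 (by decide +kernel) ?_
    refine jn 2494 (by decide +kernel) ?_
    refine jn 2520 (by decide +kernel) ?_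
    refine jn 2544 (by decide +kernel) ?_
    refine jn 2580 (by decide +kernel) ?_
    refine jn 2707 (by decide +kernel) ?_
    refine jn 2751 (by decide +kernel) ?_
    refine jn 2791 (by decide +kernel) ?_
    refine jn 2845 (by decide +kernel) ?_
    refine jn 2888 (by decide +kernel) ?_
    refine jn 2928 (by decide +kernel) ?_
    refine jn 2985 (by decide +kernel) ?_
    refine jn 3036 (by decide +kernel) ?_
    refine jn 3087 (by decide +kernel) ?_
    refine jn 3136 (by decide +kernel) ?_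
    refine jn 3192 (by decide +kernel) ?_
    refine jn 3235 (by decide +kernel) ?_
    refine jn 3379 (by decide +kernel) ?_
    refine jn 3438 (by decide +kernel) ?_
    refine jn 3492 (by decide +kernel) ?_
    refine jn 3557 (by decide +kernel) ?_
    refine jn 3621 (by decide +kernel) ?_
    refine jn 3668 (by decide +kernel) ?_
    refine jn 3738 (by decide +kernel) ?_
    refine jn 3789 (by decide +kernel) ?_
    refine jn 3843 (by decide +kernel) ?_
    refine jn 3909 (by decide +kernel) ?_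
    refine jn 3969 (by decide +kernel) ?_
    refine jn 4033 (by decide +kernel) ?_
    refine jn 4098 (by decide +kernel) ?_
    refine jn 4152 (by decide +kernel) ?_
    refine jn 4217 (by decide +kernel) ?_
    refine jn 4541 (by decide +kernel) ?_
    refine jn 4676 (by decide +kernel) ?_
    refine jn 4767 (by decide +kernel) ?_
    refine jn 4865 (by decide +kernel) ?_
    refine jn 5089 (by decide +kernel) ?_
    refine jn 5231 (by decide +kernel) ?_
    refine jn 5297 (by decide +kernel) ?_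
    refine jn 5361 (by decide +kernel) ?_
    refine jn 5426 (by decide +kernel) ?_
    refine jn 5483 (by decide +kernel) ?_
    refine jn 5719 (by decide +kernel) ?_
    refine jn 5885 (by decide +kernel) ?_
    refine jn 6002 (by decide +kernel) ?_
    refine jn 6123 (by decide +kernel) ?_
    refine jn 6388 (by decide +kernel) ?_
    refine jn 6531 (by decide +kernel) ?_
    refine jn 6682 (by decide +kernel) ?_
    refine jn 6784 (by decide +kernel) ?_
    refine jn 7145 (by decide +kernel) ?_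
    exact je (by decide +kernel)
  · refine fin 168 16695 T110_2 ?_
    refine jn 6 (by decide +kernel) ?_
    refine jn 12 (by decide +kernel) ?_
    refine jn 19 (by decide +kernel) ?_
    refine jn 30 (by decide +kernel) ?_
    refine jn 41 (by decide +kernel) ?_
    refine jn 46 (by decide +kernel) ?_
    refine jn 51 (by decide +kernel) ?_
    refine jn 61 (by decide +kernel) ?_
    refine jn 76 (by decide +kernel) ?_
    refine jn 86 (by decide +kernel) ?_
    refine jn 95 (by decide +kernel) ?_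
    refine jn 96 (by decide +kernel) ?_
    refine jn 97 (by decide +kernel) ?_
    refine jn 98 (by decide +kernel) ?_
    refine jn 109 (by decide +kernel) ?_
    refine jn 118 (by decide +kernel) ?_
    refine jn 120 (by decide +kernel) ?_
    refine jn 121 (by decide +kernel) ?_
    refine jn 124 (by decide +kernel) ?_
    refine jn 130 (by decide +kernel) ?_
    refine jn 141 (by decide +kernel) ?_
    refine jn 148 (by decide +kernel) ?_
    refine jn 162 (by decide +kernel) ?_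
    refine jn 165 (by decide +kernel) ?_
    refine jn 168 (by decide +kernel) ?_
    refine jn 181 (by decide +kernel) ?_
    refine jn 193 (by decide +kernel) ?_
    refine jn 198 (by decide +kernel) ?_
    refine jn 211 (by decide +kernel) ?_
    refine jn 223 (by decide +kernel) ?_
    refine jn 224 (by decide +kernel) ?_
    refine jn 226 (by decide +kernel) ?_
    refine jn 227 (by decide +kernel) ?_
    refine jn 229 (by decide +kernel) ?_
    refine jn 230 (by decide +kernel) ?_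
    refine jn 238 (by decide +kernel) ?_
    refine jn 241 (by decide +kernel) ?_
    refine jn 245 (by decide +kernel) ?_
    refine jn 259 (by decide +kernel) ?_
    refine jn 268 (by decide +kernel) ?_
    refine jn 271 (by decide +kernel) ?_
    refine jn 285 (by decide +kernel) ?_
    refine jn 298 (by decide +kernel) ?_
    refine jn 310 (by decide +kernel) ?_
    refine jn 323 (by decide +kernel) ?_
    refine jn 336 (by decide +kernel) ?_
    refine jn 343 (by decide +kernel) ?_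
    refine jn 350 (by decide +kernel) ?_
    refine jn 362 (by decide +kernel) ?_
    refine jn 375 (by decide +kernel) ?_
    refine jn 389 (by decide +kernel) ?_
    refine jn 403 (by decide +kernel) ?_
    refine jn 411 (by decide +kernel) ?_
    refine jn 412 (by decide +kernel) ?_
    refine jn 413 (by decide +kernel) ?_
    refine jn 415 (by decide +kernel) ?_
    refine jn 431 (by decide +kernel) ?_
    refine jn 437 (by decide +kernel) ?_
    refine jn 458 (by decide +kernel) ?_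
    refine jn 470 (by decide +kernel) ?_
    refine jn 479 (by decide +kernel) ?_
    refine jn 490 (by decide +kernel) ?_
    refine jn 601 (by decide +kernel) ?_
    refine jn 604 (by decide +kernel) ?_
    refine jn 605 (by decide +kernel) ?_
    refine jn 636 (by decide +kernel) ?_
    refine jn 658 (by decide +kernel) ?_
    refine jn 684 (by decide +kernel) ?_
    refine jn 685 (by decide +kernel) ?_
    refine jn 702 (by decide +kernel) ?_
    refine jn 711 (by decide +kernel) ?_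
    refine jn 712 (by decide +kernel) ?_
    refine jn 749 (by decide +kernel) ?_
    refine jn 791 (by decide +kernel) ?_
    refine jn 797 (by decide +kernel) ?_
    refine jn 817 (by decide +kernel) ?_
    refine jn 847 (by decide +kernel) ?_
    refine jn 871 (by decide +kernel) ?_
    refine jn 897 (by decide +kernel) ?_
    refine jn 907 (by decide +kernel) ?_
    refine jn 950 (by decide +kernel) ?_
    refine jn 1074 (by decide +kernel) ?_
    refine jn 1097 (by decide +kernel) ?_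
    refine jn 1115 (by decide +kernel) ?_
    refine jn 1121 (by decide +kernel) ?_
    refine jn 1153 (by decide +kernel) ?_
    refine jn 1169 (by decide +kernel) ?_
    refine jn 1193 (by decide +kernel) ?_
    refine jn 1201 (by decide +kernel) ?_
    refine jn 1202 (by decide +kernel) ?_
    refine jn 1224 (by decide +kernel) ?_
    refine jn 1230 (by decide +kernel) ?_
    refine jn 1246 (by decide +kernel) ?_
    refine jn 1254 (by decide +kernel) ?_
    refine jn 1266 (by decide +kernel) ?_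
    refine jn 1270 (by decide +kernel) ?_
    refine jn 1296 (by decide +kernel) ?_
    refine jn 1302 (by decide +kernel) ?_
    refine jn 1312 (by decide +kernel) ?_
    refine jn 1326 (by decide +kernel) ?_
    refine jn 1342 (by decide +kernel) ?_
    refine jn 1350 (by decide +kernel) ?_
    refine jn 1351 (by decide +kernel) ?_
    refine jn 1431 (by decide +kernel) ?_
    refine jn 1539 (by decide +kernel) ?_
    refine jn 1654 (by decide +kernel) ?_
    refine jn 1678 (by decide +kernel) ?_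
    refine jn 1702 (by decide +kernel) ?_
    refine jn 1720 (by decide +kernel) ?_
    refine jn 1726 (by decide +kernel) ?_
    refine jn 1766 (by decide +kernel) ?_
    refine jn 1790 (by decide +kernel) ?_
    refine jn 1832 (by decide +kernel) ?_
    refine jn 1846 (by decide +kernel) ?_
    refine jn 1871 (by decide +kernel) ?_
    refine jn 1901 (by decide +kernel) ?_
    refine jn 1927 (by decide +kernel) ?_
    refine jn 1933 (by decide +kernel) ?_
    refine jn 1939 (by decide +kernel) ?_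
    refine jn 1963 (by decide +kernel) ?_
    refine jn 1981 (by decide +kernel) ?_
    refine jn 2014 (by decide +kernel) ?_
    refine jn 2051 (by decide +kernel) ?_
    refine jn 2077 (by decide +kernel) ?_
    refine jn 2112 (by decide +kernel) ?_
    refine jn 2178 (by decide +kernel) ?_
    refine jn 2256 (by decide +kernel) ?_
    refine jn 2338 (by decide +kernel) ?_
    refine jn 2368 (by decide +kernel) ?_
    refine jn 2399 (by decide +kernel) ?_
    refine jn 2445 (by decide +kernel) ?_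
    refine jn 2477 (by decide +kernel) ?_
    refine jn 2523 (by decide +kernel) ?_
    refine jn 2567 (by decide +kernel) ?_
    refine jn 2619 (by decide +kernel) ?_
    refine jn 2637 (by decide +kernel) ?_
    refine jn 2638 (by decide +kernel) ?_
    refine jn 2697 (by decide +kernel) ?_
    refine jn 2769 (by decide +kernel) ?_
    refine jn 2833 (by decide +kernel) ?_
    refine jn 2913 (by decide +kernel) ?_
    refine jn 2961 (by decide +kernel) ?_
    refine jn 3055 (by decide +kernel) ?_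
    refine jn 3128 (by decide +kernel) ?_
    refine jn 3176 (by decide +kernel) ?_
    refine jn 3234 (by decide +kernel) ?_
    refine jn 3288 (by decide +kernel) ?_
    refine jn 3338 (by decide +kernel) ?_
    refine jn 3360 (by decide +kernel) ?_
    refine jn 3386 (by decide +kernel) ?_
    refine jn 3440 (by decide +kernel) ?_
    refine jn 3488 (by decide +kernel) ?_
    refine jn 3550 (by decide +kernel) ?_
    refine jn 3582 (by decide +kernel) ?_
    refine jn 3628 (by decide +kernel) ?_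
    refine jn 3678 (by decide +kernel) ?_
    refine jn 3756 (by decide +kernel) ?_
    refine jn 3780 (by decide +kernel) ?_
    refine jn 3820 (by decide +kernel) ?_
    refine jn 3886 (by decide +kernel) ?_
    refine jn 3934 (by decide +kernel) ?_
    refine jn 4014 (by decide +kernel) ?_
    refine jn 4060 (by decide +kernel) ?_
    refine jn 4116 (by decide +kernel) ?_
    refine jn 4167 (by decide +kernel) ?_
    refine jn 4239 (by decide +kernel) ?_
    refine jn 4303 (by decide +kernel) ?_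
    refine jn 4369 (by decide +kernel) ?_
    refine jn 4465 (by decide +kernel) ?_
    refine jn 4515 (by decide +kernel) ?_
    refine jn 4561 (by decide +kernel) ?_
    refine jn 4615 (by decide +kernel) ?_
    refine jn 4641 (by decide +kernel) ?_
    refine jn 4657 (by decide +kernel) ?_
    refine jn 4735 (by decide +kernel) ?_
    refine jn 4827 (by decide +kernel) ?_
    refine jn 4881 (by decide +kernel) ?_
    refine jn 4935 (by decide +kernel) ?_
    refine jn 5002 (by decide +kernel) ?_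
    refine jn 5146 (by decide +kernel) ?_
    refine jn 5268 (by decide +kernel) ?_
    refine jn 5410 (by decide +kernel) ?_
    refine jn 5490 (by decide +kernel) ?_
    refine jn 5626 (by decide +kernel) ?_
    refine jn 5766 (by decide +kernel) ?_
    refine jn 5892 (by decide +kernel) ?_
    refine jn 6027 (by decide +kernel) ?_
    refine jn 6154 (by decide +kernel) ?_
    refine jn 6277 (by decide +kernel) ?_
    refine jn 6429 (by decide +kernel) ?_
    refine jn 6567 (by decide +kernel) ?_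
    refine jn 6711 (by decide +kernel) ?_
    refine jn 6861 (by decide +kernel) ?_
    refine jn 6999 (by decide +kernel) ?_
    refine jn 7119 (by decide +kernel) ?_
    refine jn 7273 (by decide +kernel) ?_
    refine jn 7399 (by decide +kernel) ?_
    refine jn 7549 (by decide +kernel) ?_
    refine jn 7719 (by decide +kernel) ?_
    refine jn 7825 (by decide +kernel) ?_
    refine jn 8079 (by decide +kernel) ?_
    refine jn 8412 (by decide +kernel) ?_
    refine jn 8622 (by decide +kernel) ?_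
    refine jn 8747 (by decide +kernel) ?_
    refine jn 8850 (by decide +kernel) ?_
    refine jn 8950 (by decide +kernel) ?_
    refine jn 9030 (by decide +kernel) ?_
    refine jn 9117 (by decide +kernel) ?_
    refine jn 9253 (by decide +kernel) ?_
    refine jn 9714 (by decide +kernel) ?_
    refine jn 9945 (by decide +kernel) ?_
    refine jn 10070 (by decide +kernel) ?_
    refine jn 10183 (by decide +kernel) ?_
    refine jn 10296 (by decide +kernel) ?_
    refine jn 10402 (by decide +kernel) ?_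
    refine jn 10485 (by decide +kernel) ?_
    refine jn 10975 (by decide +kernel) ?_
    refine jn 11198 (by decide +kernel) ?_
    refine jn 11380 (by decide +kernel) ?_
    refine jn 11490 (by decide +kernel) ?_
    refine jn 11615 (by decide +kernel) ?_
    refine jn 11746 (by decide +kernel) ?_
    refine jn 12210 (by decide +kernel) ?_
    refine jn 12370 (by decide +kernel) ?_
    refine jn 12553 (by decide +kernel) ?_
    refine jn 12721 (by decide +kernel) ?_
    refine jn 12830 (by decide +kernel) ?_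
    refine jn 12932 (by decide +kernel) ?_
    refine jn 13009 (by decide +kernel) ?_
    refine jn 13341 (by decide +kernel) ?_
    refine jn 13727 (by decide +kernel) ?_
    refine jn 13905 (by decide +kernel) ?_
    refine jn 14073 (by decide +kernel) ?_
    refine jn 14239 (by decide +kernel) ?_
    refine jn 14365 (by decide +kernel) ?_
    refine jn 14959 (by decide +kernel) ?_
    refine jn 15261 (by decide +kernel) ?_
    refine jn 15457 (by decide +kernel) ?_
    refine jn 15631 (by decide +kernel) ?_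
    refine jn 16178 (by decide +kernel) ?_
    exact je (by decide +kernel)

end Pool.Agent.MP_2339ce_nt.NR
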