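import Pool.Agent.MP_2339ce_nt.Q2.NC.L8
import Pool.Agent.MP_2339ce_nt.Q2.NC.L10
import Pool.Agent.MP_2339ce_nt.Q2.CkI

/-! Block NR: runs. -/

set_option autoImplicit false
set_option maxRecDepth 100000

noncomputable section

namespace Pool.Agent.MP_2339ce_nt.NR

open Q2.Top

def T114_0 : Ph :=
  (.na 247 250 (.na 120 209 (.na 54 191 (.na 27 181 (.na 14 175 (.nx 13 1321124 (.nr 12 2097153
  (.nr 1 167 .s1 (.nx 4 242 (.nx 3 241 (.nr 2 1923 (.l1 (.ls 17 19 350)) (.l1 .sk)) (.l1 .sk)) (.nx
  8 41287 (.lg 0 false 4 83 83 17 0 720) (.nr 11 16385 (.nr 9 1025 (.lg 0 false 1 61 61 16 0 24)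
  (.nx 10 165142 (.lg 2 false 1 53 53 16 19415 120) .out)) .out)))) .out) .out) (.nx 26 1321124
  (.nr 25 2097153 (.nr 15 175 .s1 (.nx 23 165142 (.nx 21 26009 (.nx 17 241 (.nr 16 1989 (.l1 (.ls
  29 23 334)) (.l1 .sk)) (.nx 18 242 (.l1 .sk) (.lg 0 false 3 83 89 29 0 2520))) (.nr 22 65537 (.lg
  0 false 1 83 83 19 0 2520) .out)) (.nr 24 1025 (.lg 0 true 1 61 61 19 0 840) .out))) .out) .out))
  (.na 40 182 (.nx 39 1321124 (.nr 38 2097153 (.nr 28 181 .s1 (.nx 31 242 (.nx 30 241 (.nr 29 2000
  (.l1 (.ls 16 19 323)) (.l1 .sk)) (.l1 .sk)) (.nx 34 41287 (.lg 0 false 3 79 79 17 0 72) (.nr 37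
  16385 (.nr 35 1025 (.lg 0 false 1 59 59 16 0 24) (.nx 36 165142 (.lg 2 false 1 47 47 16 19415
  1320) .out)) .out)))) .out) .out) (.na 41 190 .ne (.nx 53 1321124 (.nr 52 1482912 (.nr 42 190 .s1
  (.nx 50 165142 (.nx 44 241 (.nr 43 2099 (.l1 (.ls 17 37 308)) (.l1 .sk)) (.nx 45 242 (.l1 .sk)
  (.nx 48 26009 (.lg 0 false 3 83 89 37 0 720) (.nr 49 65537 (.lg 0 false 1 83 83 31 0 240)
  .out)))) (.nr 51 1025 (.lg 0 true 1 61 61 31 0 240) .out))) .out) .out)))) (.na 81 199 (.na 55
  193 (.lg 0 false 1 0 0 16 0 24) (.na 68 194 (.nx 67 1321124 (.nr 66 1482912 (.nr 56 193 .s1 (.nx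
  62 41287 (.nx 58 241 (.nr 57 2132 (.l1 (.ls 19 19 303)) (.l1 .sk)) (.nx 59 242 (.l1 .sk) (.lg 0
  false 3 79 79 17 0 72))) (.nr 65 16385 (.nr 63 1025 (.lg 0 false 1 61 61 16 0 24) (.nx 64 165142
  (.lg 2 false 1 47 47 16 19415 24) .out)) .out))) .out) .out) (.nx 80 1321124 (.nr 79 1482912 (.nr
  69 194 .s1 (.nx 75 41287 (.nx 71 241 (.nr 70 2187 (.l1 (.ls 31 29 302)) (.l1 .sk)) (.nx 72 242
  (.l1 .sk) (.lg 0 false 3 83 83 29 0 5040))) (.nr 78 16385 (.nr 76 1025 (.lg 0 false 1 61 61 19 0
  48) (.nx 77 165142 (.lg 2 false 1 53 53 19 19415 1680) .out)) .out))) .out) .out))) (.na 94 203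
  (.nx 93 1321124 (.nr 92 1482912 (.nr 82 199 .s1 (.nx 85 242 (.nx 84 241 (.nr 83 2231 (.l1 (.ls 17
  19 294)) (.l1 .sk)) (.l1 .sk)) (.nx 88 41287 (.lg 0 false 3 79 79 17 0 72) (.nr 91 16385 (.nr 89
  1025 (.lg 0 false 1 59 59 16 0 24) (.nx 90 165142 (.lg 2 true 1 47 47 16 19415 24) .out))
  .out)))) .out) .out) (.na 107 206 (.nx 106 1321124 (.nr 105 1482912 (.nr 95 203 .s1 (.nx 103
  165142 (.nx 97 241 (.nr 96 2264 (.l1 (.ls 23 23 289)) (.l1 .sk)) (.nx 98 242 (.l1 .sk) (.nx 101
  26009 (.lg 0 false 3 83 89 23 0 27720) (.nr 102 65537 (.lg 0 true 1 79 79 19 0 168) .out)))) (.nr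
  104 1025 (.lg 0 true 1 61 61 19 0 168) .out))) .out) .out) (.nx 119 1321124 (.nr 118 1482912 (.nr
  108 206 .s1 (.nx 110 241 (.nr 109 2297 (.l1 (.ls 19 29 284)) (.l1 .sk)) (.nx 111 242 (.l1 .sk)
  (.nx 114 41287 (.lg 0 false 3 79 79 29 0 144) (.nr 117 16385 (.nr 115 1025 (.lg 0 false 1 59 59
  23 0 48) (.nx 116 165142 (.lg 2 false 1 47 47 23 19415 48) .out)) .out))))) .out) .out))))) (.na
  186 230 (.na 159 223 (.na 133 215 (.nx 132 1321124 (.nr 131 1482912 (.nr 121 209 .s1 (.nx 129
  165142 (.nx 127 26009 (.nx 123 241 (.nr 122 2363 (.l1 (.ls 17 29 280)) (.l1 .sk)) (.nx 124 242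
  (.l1 .sk) (.lg 0 false 3 83 89 29 0 3960))) (.nr 128 65537 (.lg 0 true 1 79 79 17 0 264) .out))
  (.nr 130 1025 (.lg 0 true 1 61 61 17 0 264) .out))) .out) .out) (.na 146 217 (.nx 145 1321124
  (.nr 144 1482912 (.nr 134 215 .s1 (.nx 137 242 (.nx 136 241 (.nr 135 2385 (.l1 (.ls 29 19 273))
  (.l1 .sk)) (.l1 .sk)) (.nx 142 165142 (.nx 140 26009 (.lg 0 false 3 89 89 23 0 27720) (.nr 141
  65537 (.lg 0 true 1 83 83 19 0 120) .out)) (.nr 143 1025 (.lg 0 true 1 61 61 19 0 120) .out))))
  .out) .out) (.nx 158 1321124 (.nr 157 1482912 (.nr 147 217 .s1 (.nx 150 242 (.nx 149 241 (.nr 148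
  2451 (.l1 (.ls 23 19 270)) (.l1 .sk)) (.l1 .sk)) (.nx 153 26009 (.lg 0 false 3 83 89 23 0 2520)
  (.nr 156 65537 (.nx 154 165142 (.lg 0 true 1 79 79 19 0 168) (.nr 155 1025 (.lg 0 true 1 61 61 19
  0 168) .out)) .out)))) .out) .out))) (.na 160 226 (.lg 0 false 1 0 0 16 0 24) (.na 173 227 (.nx
  172 1321124 (.nr 171 1482912 (.nr 161 226 .s1 (.nx 164 242 (.nx 163 241 (.nr 162 2495 (.l1 (.ls
  19 29 259)) (.l1 .sk)) (.l1 .sk)) (.nx 167 41287 (.lg 0 false 3 79 79 29 0 144) (.nr 170 16385
  (.nr 168 1025 (.lg 0 false 1 61 61 23 0 48) (.nx 169 165142 (.lg 2 false 1 47 47 23 19415 48)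
  .out)) .out)))) .out) .out) (.nx 185 1321124 (.nr 184 1482912 (.nr 174 227 .s1 (.nx 180 41287
  (.nx 176 241 (.nr 175 2528 (.l1 (.ls 16 19 258)) (.l1 .sk)) (.nx 177 242 (.l1 .sk) (.lg 0 false 3
  73 73 19 0 72))) (.nr 183 16385 (.nr 181 1025 (.lg 0 false 1 53 53 17 0 24) (.nx 182 165142 (.lg
  2 false 1 43 43 17 19415 24) .out)) .out))) .out) .out)))) (.na 212 241 (.na 198 233 (.nx 197
  1321124 (.nr 196 1482912 (.nr 187 230 .s1 (.nx 194 165142 (.nx 189 241 (.nr 188 2561 (.l1 (.ls 19
  31 255)) (.l1 .sk)) (.nx 190 242 (.l1 .sk) (.nx 192 26009 (.lg 0 false 2 89 89 37 0 720) (.nr 193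
  65537 (.lg 0 false 1 83 83 31 0 720) .out)))) (.nr 195 1025 (.lg 0 true 1 61 61 31 0 240) .out)))
  .out) .out) (.na 211 239 (.nx 210 1321124 (.nr 209 1482912 (.nr 199 233 .s1 (.nx 205 41287 (.nx
  201 241 (.nr 200 2627 (.l1 (.ls 17 19 252)) (.l1 .sk)) (.nx 202 242 (.l1 .sk) (.lg 0 false 3 79
  79 19 0 2520))) (.nr 208 16385 (.nr 206 1025 (.lg 0 false 1 59 59 17 0 840) (.nx 207 165142 (.lg
  2 false 1 43 43 17 19415 24) .out)) .out))) .out) .out) (.lg 0 false 1 0 0 16 0 24))) (.na 224
  242 (.nx 223 1321124 (.nr 222 1482912 (.nr 213 241 .s1 (.nx 216 242 (.nx 215 241 (.nr 214 2660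
  (.l1 (.ls 16 17 243)) (.l1 .sk)) (.l1 .sk)) (.nx 219 41287 (.lg 0 true 3 71 71 17 0 72) (.nr 221
  16385 (.lg 0 false 2 67 67 17 0 48) .out)))) .out) .out) (.na 235 245 (.nx 234 1321124 (.nr 233
  1482912 (.nr 225 242 .s1 (.nx 227 241 (.nr 226 2693 (.l1 (.ls 19 31 243)) (.l1 .sk)) (.nx 228 242
  (.l1 .sk) (.nx 231 41287 (.lg 0 false 3 79 79 31 0 1584) (.nr 232 16385 (.lg 0 false 1 79 79 29 0
  528) .out))))) .out) .out) (.nx 246 1321124 (.nr 245 1482912 (.nr 236 245 .s1 (.nx 243 165142
  (.nx 241 26009 (.nx 238 241 (.nr 237 2748 (.l1 (.ls 23 23 240)) (.l1 .sk)) (.nx 239 242 (.l1 .sk)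
  (.lg 0 false 2 83 83 29 0 1680))) (.nr 242 65537 (.lg 0 true 1 73 73 23 0 840) .out)) (.nr 244
  1025 (.lg 0 true 1 59 59 23 0 840) .out))) .out) .out)))))) (.na 5322 2897 (.na 714 363 (.na 271
  254 (.na 260 253 (.nx 259 1321124 (.nr 258 1482912 (.nr 248 250 .s1 (.nx 254 41287 (.nx 250 241
  (.nr 249 2781 (.l1 (.ls 19 29 235)) (.l1 .sk)) (.nx 251 242 (.l1 .sk) (.lg 0 false 3 79 79 31 0
  5040))) (.nr 257 16385 (.nr 255 1025 (.lg 0 false 1 59 59 29 0 240) (.nx 256 165142 (.lg 2 true 1
  47 47 29 19415 1680) .out)) .out))) .out) .out) (.nx 270 1321124 (.nr 269 1482912 (.nr 261 253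
  .s1 (.nx 264 242 (.nx 263 241 (.nr 262 2792 (.l1 (.ls 19 19 232)) (.l1 .sk)) (.l1 .sk)) (.nx 267
  165142 (.nr 265 65537 (.lg 0 true 1 79 79 19 0 264) (.nx 266 26009 (.lg 0 false 1 83 83 19 0 264)
  .out)) (.nr 268 1025 (.lg 0 true 1 61 61 19 0 264) .out)))) .out) .out)) (.na 282 256 (.nx 281
  1321124 (.nr 280 1482912 (.nr 272 254 .s1 (.nx 275 242 (.nx 274 241 (.nr 273 2814 (.l1 (.ls 19 29
  231)) (.l1 .sk)) (.l1 .sk)) (.nx 278 41287 (.lg 0 false 3 79 79 29 0 5040) (.nr 279 16385 (.lg 0
  false 1 79 79 23 0 1680) .out)))) .out) .out) (.na 283 257 .ne (.nx 713 1321124 (.nr 712 1482912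
  (.nr 284 257 .s1 (.nx 392 242 (.nx 391 241 (.nr 390 3989 (.la (.ls 41 23 228)) (.l1 .sk)) (.l1
  .sk)) (.nx 605 165142 (.nx 498 26009 (.la (.lg 0 false 2 73 73 23 0)) (.nr 604 32769 (.la (.lg 0
  false 1 67 67 23 0)) .out)) (.nr 711 2049 (.la (.lg 0 true 1 59 59 23 0)) .out)))) .out) .out))))
  (.na 2414 1024 (.na 1167 512 (.nx 1166 1321124 (.nr 1165 1482912 (.nr 715 363 .s1 (.nx 865 241
  (.nr 864 5627 (.la (.ls 41 23 163)) (.l1 .sk)) (.nx 866 242 (.l1 .sk) (.nr 1015 32769 (.la (.lg 0
  true 1 73 73 23 0)) (.nx 1164 26009 (.la (.lg 0 true 1 73 73 23 0)) .out))))) .out) .out) (.na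
  1812 725 (.nx 1811 1321124 (.nr 1810 1482912 (.nr 1168 512 .s1 (.nx 1382 241 (.nr 1381 7967 (.la
  (.ls 41 23 182)) (.l1 .sk)) (.nx 1383 242 (.l1 .sk) (.nx 1596 26009 (.la (.lg 0 false 1 71 71 29
  0)) (.nr 1809 32769 (.la (.lg 0 true 1 71 71 29 0)) .out))))) .out) .out) (.nx 2413 20644 (.nr
  2412 2097153 (.nr 1813 725 .s1 (.nx 2112 2049 (.la (.ls 67 41 5793)) (.nr 2411 262145 (.la (.lg 0
  false 1 53 53 29 0)) .out))) .out) .out))) (.na 3268 1449 (.nx 3267 20644 (.nr 3266 2097153 (.nr
  2415 1024 .s1 (.nx 2840 3252 (.la (.ls 61 41 10330)) (.nr 3265 131073 (.la (.lg 0 false 1 43 43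
  31 0)) .out))) .out) .out) (.na 4470 2048 (.nx 4469 13005 (.nr 4468 2097153 (.nr 3269 1449 .s1
  (.nx 3868 3252 (.la (.ls 61 41 7301)) (.nr 4467 16385 (.la (.lg 0 false 1 23 29 31 0)) .out)))
  .out) .out) (.nx 5321 13005 (.nr 5320 2097153 (.nr 4471 2048 .s1 (.la (.ls 59 53 82586))) .out)
  .out))))) (.na 18855 32768 (.na 10950 8192 (.na 6524 4096 (.nx 6523 4097 (.nr 6522 1048577 (.nr
  5323 2897 .s1 (.la (.ls 73 41 5797))) .out) .out) (.na 8224 5793 (.nx 8223 5162 (.nr 8222 1048577
  (.nr 6525 4096 .s1 (.la (.ls 71 41 6508))) .out) .out) (.nx 10949 2049 (.nr 10948 524289 (.nr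
  8225 5793 .s1 (.nx 8466 241 (.nr 8465 90020 (.lx (.lp 43 37 2049)) (.l1 .sk)) (.nx 8467 242 (.l1
  .sk) (.nx 8549 324 (.lx (.lp 17 0 2049)) (.la (.ls 53 37 2049)))))) .out) .out))) (.na 14752
  11586 (.nx 14751 2049 (.nr 14750 524289 (.nr 10951 8192 .s1 (.nx 11356 406 (.lx (.lp 53 37 2897))
  (.la (.ls 53 41 2897)))) .out) .out) (.na 16803 16384 (.nx 16802 2049 (.nr 16801 131073 (.nr
  14753 11586 .s1 (.lx (.lp 41 41 4097))) .out) .out) (.nx 18854 2049 (.nr 18853 262145 (.nr 16804
  16384 .s1 (.nx 17127 324 (.lx (.lp 43 43 8193)) (.nr 18852 131073 (.lx (.lp 41 43 8193)) .out)))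
  .out) .out)))) (.na 24167 262144 (.na 20907 65536 (.nx 20906 2049 (.nr 20905 524289 (.nr 18856
  32768 .s1 (.nx 19179 324 (.lx (.lp 47 47 16385)) (.nr 20904 262145 (.lx (.lp 41 47 16385))
  .out))) .out) .out) (.na 22537 131072 (.nx 22536 1627 (.nr 22535 524289 (.nr 20908 65536 .s1 (.nx
  21231 324 (.lx (.lp 16 0 32769)) (.nr 22534 262145 (.lx (.lp 37 53 32769)) .out))) .out) .out)
  (.nx 24166 1627 (.nr 24165 524289 (.nr 22538 131072 .s1 (.nx 23050 513 (.lx (.lp 16 53 65537))
  (.nr 24164 262145 (.lx (.lp 31 59 65537)) .out))) .out) .out))) (.na 24682 524288 (.nx 24681 513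
  (.nr 24680 1048577 (.nr 24168 262144 .s1 (.lx (.lp 16 0 131073))) .out) .out) (.na 24684 1048577
  (.nx 24683 324 (.l1 .sk) .out) .out))))))

def T114_1 : Ph :=
  (.na 550 53 (.na 364 33 (.na 225 22 (.na 153 17 (.na 58 14 (.nx 57 1664512 (.nr 56 623489 (.nr 1
  4 .s1 (.nx 17 13003 (.nx 3 160 (.nr 2 125 (.lg 0 true 1 37 37 9 0 720720) (.l1 .sk)) (.nx 4 161
  (.l1 .sk) (.nr 10 155873 (.lg 0 false 6 97 101 16 0 720720) (.nx 16 1292 (.lg 0 false 6 83 89 16
  0 9360) .out)))) (.nr 55 110219 (.nx 48 524289 (.nr 23 829 (.lg 0 true 6 83 83 16 0 9360) (.nx 47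
  416129 (.nr 32 46342 (.lg 2 true 9 83 83 16 45778 9360) (.nx 46 208065 (.nx 42 131073 (.nx 38
  82572 (.lg 0 true 6 101 103 16 0 720720) (.nr 41 77937 (.lg 0 true 3 101 103 11 0 720720) .out))
  (.nr 45 55110 (.lg 0 true 3 101 101 11 0 720720) .out)) .out)) .out)) (.nr 54 65 (.lg 0 true 6 71
  71 16 0 9360) .out)) .out))) .out) .out) (.na 115 16 (.nx 114 1664512 (.nr 113 623489 (.nr 59 7
  .s1 (.nx 62 161 (.nx 61 160 (.nr 60 143 (.lg 0 false 1 31 31 11 0 5040) (.l1 .sk)) (.l1 .sk))
  (.nx 75 13003 (.nr 68 155873 (.lg 0 false 6 89 89 13 0 5040) (.nx 74 1292 (.lg 0 false 6 83 83 13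
  0 5040) .out)) (.nr 112 110219 (.nx 106 524289 (.nr 81 829 (.lg 0 true 6 79 79 13 0 5040) (.nx
  105 416129 (.nr 90 46342 (.lg 2 false 9 79 79 19 45778 5040) (.nx 104 208065 (.nx 96 82572 (.lg 0
  true 6 101 103 13 0 720720) (.nr 103 77937 (.nx 99 131073 (.lg 0 true 3 101 103 13 0 720720) (.nr
  102 55110 (.lg 0 true 3 89 89 13 0 5040) .out)) .out)) .out)) .out)) (.nr 111 65 (.lg 0 true 5 71
  71 13 0 1680) .out)) .out)))) .out) .out) (.nx 152 1664512 (.nr 151 1048577 (.nr 116 10 .s1 (.nx
  119 161 (.nx 118 160 (.nr 117 152 (.lg 0 true 1 31 31 11 0 240) (.l1 .sk)) (.l1 .sk)) (.nx 147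
  524289 (.nx 120 257 (.l1 (.ls 83 41 2511)) (.nr 146 623489 (.nx 131 19485 (.nr 123 131073 (.lg 0
  false 3 97 101 13 0 5040) (.nx 130 10323 (.nr 126 220437 (.lg 0 false 3 89 97 13 0 5040) (.nx 129
  1627 (.lg 0 false 3 83 89 13 0 720) .out)) .out)) (.nr 145 110219 (.nr 134 829 (.lg 0 true 3 79
  79 13 0 720) (.nx 144 416129 (.nx 137 43741 (.lg 1 false 3 101 103 13 72512 55440) (.nr 138 3171
  (.lg 2 false 1 79 79 11 40158 240) (.nx 141 82572 (.lg 1 true 3 89 101 13 32301 5040) (.nr 143
  77937 (.lg 2 false 2 89 97 13 12107 1680) .out)))) .out)) .out)) .out)) (.nr 150 129 (.lg 0 true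
  3 73 73 13 0 720) .out)))) .out) .out))) (.na 154 19 .ne (.na 191 20 (.nx 190 1664512 (.nr 189
  1048577 (.nr 155 15 .s1 (.nx 159 257 (.nx 157 160 (.nr 156 179 (.lg 0 false 1 29 29 11 0 240)
  (.l1 .sk)) (.nx 158 161 (.l1 .sk) (.l1 (.ls 83 31 2115)))) (.nr 188 623489 (.nx 170 23171 (.nr
  166 220437 (.lg 0 false 7 89 97 16 0 1680) (.nx 169 1627 (.lg 0 false 3 83 83 16 0 720) .out))
  (.nr 187 92683 (.nr 177 634 (.lg 0 true 7 79 79 16 0 1680) (.nx 186 262145 (.lg 2 false 9 97 103
  16 51289 720720) .out)) .out)) .out))) .out) .out) (.nx 224 1664512 (.nr 223 1048577 (.nr 192 16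
  .s1 (.nx 216 262145 (.nx 194 160 (.nr 193 197 (.lg 0 true 1 29 29 13 0 18480) (.l1 .sk)) (.nx 195
  161 (.l1 .sk) (.nx 196 257 (.l1 (.ls 79 41 2009)) (.nr 215 623489 (.nr 211 220437 (.nx 203 41287
  (.nr 199 92683 (.lg 0 true 3 101 101 13 0 55440) (.nx 202 13005 (.lg 0 false 3 97 97 13 0 55440)
  .out)) (.nr 210 77937 (.nr 206 1854 (.lg 0 true 3 79 79 13 0 720) (.lg 2 false 4 89 89 17 24213
  18480)) .out)) (.nx 214 1627 (.lg 0 false 3 79 79 13 0 720) .out)) .out)))) (.nr 222 217 (.lg 0
  true 6 71 71 19 0 720) .out))) .out) .out)))) (.na 290 26 (.na 263 23 (.nx 262 1664512 (.nr 261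
  1048577 (.nr 226 19 .s1 (.nx 230 257 (.nx 228 160 (.nr 227 206 (.l1 (.ls 29 37 1166)) (.l1 .sk))
  (.nx 229 161 (.l1 .sk) (.l1 (.ls 83 41 1827)))) (.nr 260 623489 (.nx 237 13005 (.nr 233 220437
  (.lg 0 true 3 97 97 13 0 55440) (.nx 236 1627 (.lg 0 false 3 83 83 13 0 7920) .out)) (.nr 259
  92683 (.nr 251 46342 (.nr 243 634 (.lg 0 true 6 79 79 19 0 7920) (.nx 250 262145 (.lg 2 false 7
  79 79 19 45771 18480) .out)) (.nx 258 165142 (.nx 254 82572 (.lg 0 true 3 101 101 13 0 55440)
  (.nr 257 55110 (.lg 0 true 3 89 89 13 0 55440) .out)) .out)) .out)) .out))) .out) .out) (.na 289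
  25 (.nx 288 1664512 (.nr 287 1048577 (.nr 264 20 .s1 (.nx 267 161 (.nx 266 160 (.nr 265 224 (.lg
  0 true 1 29 29 11 0 5040) (.l1 .sk)) (.l1 .sk)) (.nx 268 257 (.l1 (.ls 83 31 1747)) (.nr 286
  311745 (.nr 282 110219 (.nx 271 41287 (.lg 0 true 3 101 101 16 0 5040) (.nr 281 65537 (.nr 277
  513 (.lg 0 true 6 79 79 16 0 720) (.nx 280 165142 (.lg 2 false 3 97 97 16 25754 5040) .out))
  .out)) (.nx 285 8193 (.lg 0 false 3 89 89 16 0 720) .out)) .out)))) .out) .out) (.lg 0 false 1 0
  0 7 0 24))) (.na 316 28 (.nx 315 1664512 (.nr 314 1048577 (.nr 291 23 .s1 (.nx 294 161 (.nx 293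
  160 (.nr 292 251 (.lg 0 false 1 23 23 11 0 3120) (.l1 .sk)) (.l1 .sk)) (.nx 295 257 (.l1 (.ls 79
  41 1546)) (.nr 313 311745 (.nr 309 110219 (.nx 298 41287 (.lg 0 false 3 97 97 11 0 9360) (.nr 308
  65537 (.nr 305 513 (.lg 0 true 7 73 73 19 0 21840) (.nx 307 165142 (.lg 2 true 2 89 89 11 25754
  3120) .out)) .out)) (.nx 312 8193 (.lg 0 false 3 89 89 11 0 9360) .out)) .out)))) .out) .out)
  (.na 340 32 (.nx 339 1664512 (.nr 338 1048577 (.nr 317 25 .s1 (.nx 329 41287 (.nx 321 257 (.nx
  319 160 (.nr 318 287 (.l1 (.ls 31 37 917)) (.l1 .sk)) (.nx 320 161 (.l1 .sk) (.l1 (.ls 83 41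
  1436)))) (.nr 328 311745 (.nr 324 110219 (.lg 0 false 3 97 97 19 0 5040) (.nx 327 8193 (.lg 0
  false 3 89 97 19 0 5040) .out)) .out)) (.nr 337 65537 (.nr 334 1307 (.nx 330 208065 (.lg 0 false
  1 79 79 13 0 1680) (.nr 333 217 (.lg 0 true 3 73 73 19 0 5040) .out)) (.nx 336 165142 (.lg 2
  false 2 89 89 19 20368 1680) .out)) .out))) .out) .out) (.nx 363 1664512 (.nr 362 1048577 (.nr
  341 30 .s1 (.nx 353 41287 (.nx 343 160 (.nr 342 296 (.l1 (.ls 29 31 802)) (.l1 .sk)) (.nx 344 161
  (.l1 .sk) (.nx 345 257 (.l1 (.ls 79 37 1257)) (.nr 352 440873 (.nr 348 110219 (.lg 0 false 3 89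
  89 19 0 720) (.nx 351 10323 (.lg 0 false 3 83 89 19 0 720) .out)) .out)))) (.nr 361 65537 (.nx
  357 208065 (.nr 354 1307 (.lg 0 false 1 73 73 13 0 240) (.nx 356 165142 (.lg 2 false 2 83 83 13
  20368 240) .out)) (.nr 360 217 (.lg 0 true 3 71 71 19 0 720) .out)) .out))) .out) .out))))) (.na
  461 44 (.na 406 38 (.na 365 35 .ne (.na 387 37 (.nx 386 1664512 (.nr 385 881745 (.nr 366 33 .s1
  (.nx 377 20644 (.nx 370 257 (.nx 368 160 (.nr 367 332 (.l1 (.ls 29 29 734)) (.l1 .sk)) (.nx 369
  161 (.l1 .sk) (.l1 (.ls 79 31 1149)))) (.nr 376 440873 (.lg 0 false 6 89 97 17 0 55440) .out))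
  (.nr 384 46342 (.nr 381 257 (.lg 0 true 4 67 67 17 0 1680) (.nx 383 104033 (.lg 2 true 2 83 83 16
  32384 1680) .out)) .out))) .out) .out) (.nx 405 1664512 (.nr 404 881745 (.nr 388 35 .s1 (.nx 390
  160 (.nr 389 341 (.l1 (.ls 23 23 694)) (.l1 .sk)) (.nx 391 161 (.l1 .sk) (.nx 392 257 (.l1 (.ls
  79 23 1087)) (.nr 403 440873 (.nx 395 20644 (.lg 0 false 3 97 97 16 0 720) (.nr 402 46342 (.nr
  399 257 (.lg 0 true 4 67 67 16 0 240) (.nx 401 104033 (.lg 2 true 2 83 83 16 32384 240) .out))
  .out)) .out))))) .out) .out))) (.na 426 40 (.nx 425 1664512 (.nr 424 881745 (.nr 407 36 .s1 (.nx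
  408 257 (.l1 (.ls 79 41 1741)) (.nr 423 440873 (.nx 415 20644 (.lg 0 false 7 83 89 17 0 1680)
  (.nr 422 46342 (.nr 419 257 (.lg 0 true 4 67 67 17 0 240) (.nx 421 104033 (.lg 2 true 2 83 83 13
  32384 240) .out)) .out)) .out))) .out) .out) (.na 441 41 (.nx 440 1664512 (.nr 439 881745 (.nr
  427 38 .s1 (.nx 428 257 (.l1 (.ls 73 41 1654)) (.nr 438 440873 (.nx 431 20644 (.lg 0 false 3 89
  89 19 0 720) (.nr 437 46342 (.nr 434 257 (.lg 0 true 3 67 67 19 0 720) (.nx 436 104033 (.lg 2
  false 2 79 79 19 32384 240) .out)) .out)) .out))) .out) .out) (.nx 460 1664512 (.nr 459 881745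
  (.nr 442 40 .s1 (.nx 443 257 (.l1 (.ls 79 29 1613)) (.nr 458 440873 (.nx 454 104033 (.nr 446
  32769 (.lg 0 false 3 83 83 16 0 5040) (.nx 453 26009 (.nr 449 110219 (.lg 0 false 3 89 89 16 0
  5040) (.nx 452 10323 (.lg 0 false 3 89 89 16 0 720) .out)) .out)) (.nr 457 257 (.lg 0 true 3 71
  71 16 0 720) .out)) .out))) .out) .out)))) (.na 515 49 (.na 481 46 (.nx 480 1664512 (.nr 479
  881745 (.nr 462 43 .s1 (.nx 465 161 (.nx 464 160 (.nr 463 412 (.l1 (.ls 31 31 584)) (.l1 .sk))
  (.l1 .sk)) (.nx 473 26009 (.nx 470 10323 (.nx 466 257 (.l1 (.ls 79 37 915)) (.nr 469 440873 (.lg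
  0 false 3 89 97 23 0 7920) .out)) (.nr 472 110219 (.lg 0 false 2 83 89 23 0 2640) .out)) (.nr 478
  32769 (.nr 476 412 (.lg 0 true 3 73 73 23 0 7920) (.nx 477 104033 (.lg 2 true 1 83 83 19 20201
  2640) .out)) .out)))) .out) .out) (.na 500 47 (.nx 499 1664512 (.nr 498 881745 (.nr 482 45 .s1
  (.nx 483 257 (.l1 (.ls 79 41 1438)) (.nr 497 623489 (.nx 490 20644 (.lg 0 false 7 89 97 19 0
  18480) (.nr 496 46342 (.nr 493 257 (.lg 0 true 3 67 67 13 0 720) (.nx 495 104033 (.lg 2 false 2
  79 79 13 32384 240) .out)) .out)) .out))) .out) .out) (.nx 514 1664512 (.nr 513 881745 (.nr 501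
  46 .s1 (.nx 502 257 (.l1 (.ls 79 29 1408)) (.nr 512 623489 (.nx 505 20644 (.lg 0 false 3 97 97 16
  0 720) (.nr 511 46342 (.nr 508 257 (.lg 0 true 3 67 67 16 0 720) (.nx 510 104033 (.lg 2 false 2
  79 79 16 32384 240) .out)) .out)) .out))) .out) .out))) (.na 530 50 (.nx 529 1664512 (.nr 528
  881745 (.nr 516 48 .s1 (.nx 521 20644 (.nx 517 257 (.l1 (.ls 73 31 1350)) (.nr 520 623489 (.lg 0
  false 3 89 89 16 0 5040) .out)) (.nr 527 46342 (.nr 524 257 (.lg 0 true 3 61 61 16 0 5040) (.nx
  526 104033 (.lg 2 false 2 79 79 16 32384 1680) .out)) .out))) .out) .out) (.na 531 52 (.lg 0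
  false 1 0 0 16 0 24) (.nx 549 1664512 (.nr 548 881745 (.nr 532 51 .s1 (.nx 534 160 (.nr 533 475
  (.l1 (.ls 31 31 495)) (.l1 .sk)) (.nx 535 161 (.l1 .sk) (.nx 536 257 (.l1 (.ls 79 37 774)) (.nr
  547 623489 (.nx 539 13005 (.lg 0 false 3 89 97 23 0 9360) (.nr 546 110219 (.nr 544 32769 (.nr 542
  257 (.lg 0 true 3 71 71 23 0 9360) (.nx 543 104033 (.lg 2 true 1 83 83 19 32412 3120) .out)) (.nx
  545 26009 (.lg 0 false 1 83 83 19 0 3120) .out)) .out)) .out))))) .out) .out)))))) (.na 718 88
  (.na 629 70 (.na 599 59 (.na 565 55 (.nx 564 1664512 (.nr 563 881745 (.nr 551 52 .s1 (.nx 556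
  20644 (.nx 552 257 (.l1 (.ls 79 29 1249)) (.nr 555 623489 (.lg 0 false 3 97 97 16 0 720) .out))
  (.nr 562 46342 (.nr 559 257 (.lg 0 true 3 67 67 16 0 720) (.nx 561 104033 (.lg 2 false 2 79 79 16
  32384 240) .out)) .out))) .out) .out) (.na 580 56 (.nx 579 1664512 (.nr 578 881745 (.nr 566 54
  .s1 (.nx 571 20644 (.nx 567 257 (.l1 (.ls 73 31 1203)) (.nr 570 623489 (.lg 0 false 3 97 97 17 0
  55440) .out)) (.nr 577 46342 (.nr 574 257 (.lg 0 true 3 67 67 17 0 7920) (.nx 576 104033 (.lg 2
  false 2 79 79 17 32384 18480) .out)) .out))) .out) .out) (.nx 598 1664512 (.nr 597 881745 (.nr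
  581 55 .s1 (.nx 585 257 (.nx 583 160 (.nr 582 529 (.l1 (.ls 29 31 460)) (.l1 .sk)) (.nx 584 161
  (.l1 .sk) (.l1 (.ls 79 37 719)))) (.nr 596 623489 (.nx 588 13005 (.lg 0 false 3 89 97 23 0 5040)
  (.nr 595 110219 (.nr 593 32769 (.nr 591 257 (.lg 0 true 3 71 71 23 0 5040) (.nx 592 104033 (.lg 2
  true 1 83 83 19 32412 1680) .out)) (.nx 594 26009 (.lg 0 false 1 83 83 19 0 1680) .out)) .out))
  .out))) .out) .out))) (.na 613 64 (.nx 612 1664512 (.nr 611 881745 (.nr 600 58 .s1 (.nx 605 20644
  (.nx 601 257 (.l1 (.ls 73 23 1122)) (.nr 604 623489 (.lg 0 false 3 89 89 16 0 720) .out)) (.nr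
  610 46342 (.nr 607 257 (.lg 0 true 2 67 67 16 0 240) (.nx 609 104033 (.lg 2 false 2 79 79 16
  32384 240) .out)) .out))) .out) .out) (.na 614 65 .ne (.nx 628 1664512 (.nr 627 524289 (.nr 615
  64 .s1 (.nx 617 160 (.nr 616 627 (.l1 (.ls 23 29 396)) (.l1 .sk)) (.nx 618 161 (.l1 .sk) (.nx 621
  20644 (.lg 0 false 3 89 89 17 0 9360) (.nr 626 32769 (.nr 624 513 (.lg 0 true 3 67 67 17 0 9360)
  (.nx 625 104033 (.lg 2 true 1 73 73 16 20418 3120) .out)) .out))))) .out) .out)))) (.na 674 77
  (.na 644 74 (.nx 643 1664512 (.nr 642 524289 (.nr 630 69 .s1 (.nx 633 161 (.nx 632 160 (.nr 631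
  663 (.l1 (.ls 23 37 368)) (.l1 .sk)) (.l1 .sk)) (.nx 636 20644 (.lg 0 false 3 83 83 29 0 5040)
  (.nr 641 32769 (.nr 639 513 (.lg 0 true 3 67 67 29 0 5040) (.nx 640 104033 (.lg 2 true 1 73 73 23
  20418 1680) .out)) .out)))) .out) .out) (.na 659 76 (.nx 658 1664512 (.nr 657 524289 (.nr 645 73
  .s1 (.nx 651 20644 (.nx 647 160 (.nr 646 681 (.l1 (.ls 19 29 348)) (.l1 .sk)) (.nx 648 161 (.l1
  .sk) (.lg 0 false 3 89 89 19 0 720))) (.nr 656 32769 (.nr 654 513 (.lg 0 true 3 67 67 19 0 720)
  (.nx 655 104033 (.lg 2 true 1 73 73 13 20418 240) .out)) .out))) .out) .out) (.nx 673 1664512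
  (.nr 672 524289 (.nr 660 75 .s1 (.nx 663 161 (.nx 662 160 (.nr 661 690 (.l1 (.ls 17 31 339)) (.l1
  .sk)) (.l1 .sk)) (.nx 666 20644 (.lg 0 false 3 89 97 29 0 5040) (.nr 671 32769 (.nr 669 513 (.lg
  0 true 3 73 73 29 0 720) (.nx 670 104033 (.lg 2 true 1 79 79 17 20418 240) .out)) .out)))) .out)
  .out))) (.na 689 80 (.nx 688 1664512 (.nr 687 524289 (.nr 675 76 .s1 (.nx 678 161 (.nx 677 160
  (.nr 676 717 (.l1 (.ls 31 23 335)) (.l1 .sk)) (.l1 .sk)) (.nx 681 20644 (.lg 0 false 3 89 97 23 0
  55440) (.nr 686 32769 (.nr 684 513 (.lg 0 true 3 73 73 23 0 55440) (.nx 685 104033 (.lg 2 true 1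
  79 79 17 20418 18480) .out)) .out)))) .out) .out) (.na 703 82 (.nx 702 1664512 (.nr 701 524289
  (.nr 690 79 .s1 (.nx 696 20644 (.nx 692 160 (.nr 691 735 (.l1 (.ls 29 31 322)) (.l1 .sk)) (.nx
  693 161 (.l1 .sk) (.lg 0 false 3 83 89 29 0 720))) (.nr 700 32769 (.nr 698 513 (.lg 0 true 2 67
  67 23 0 240) (.nx 699 104033 (.lg 2 false 1 73 73 23 20418 240) .out)) .out))) .out) .out) (.nx
  717 1664512 (.nr 716 524289 (.nr 704 82 .s1 (.nx 707 161 (.nx 706 160 (.nr 705 789 (.l1 (.ls 19
  29 315)) (.l1 .sk)) (.l1 .sk)) (.nx 710 20644 (.lg 0 false 3 89 89 19 0 720) (.nr 715 32769 (.nr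
  713 513 (.lg 0 true 3 67 67 19 0 720) (.nx 714 104033 (.lg 2 true 1 73 73 13 20418 240) .out))
  .out)))) .out) .out))))) (.na 802 98 (.na 760 92 (.na 732 89 (.nx 731 1664512 (.nr 730 524289
  (.nr 719 88 .s1 (.nx 722 161 (.nx 721 160 (.nr 720 798 (.l1 (.ls 29 31 293)) (.l1 .sk)) (.l1
  .sk)) (.nx 725 20644 (.lg 0 false 3 83 89 29 0 7920) (.nr 729 32769 (.nr 727 513 (.lg 0 true 2 71
  71 29 0 2640) (.nx 728 104033 (.lg 2 false 1 73 73 23 20418 2640) .out)) .out)))) .out) .out)
  (.na 746 91 (.nx 745 1664512 (.nr 744 524289 (.nr 733 89 .s1 (.nx 739 20644 (.nx 735 160 (.nr 734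
  816 (.l1 (.ls 19 17 290)) (.l1 .sk)) (.nx 736 161 (.l1 .sk) (.lg 0 false 3 79 79 16 0 720))) (.nr
  743 32769 (.nr 741 513 (.lg 0 true 2 61 61 16 0 240) (.nx 742 104033 (.lg 2 true 1 67 67 16 20418
  240) .out)) .out))) .out) .out) (.nx 759 1664512 (.nr 758 1048577 (.nr 747 91 .s1 (.nx 750 161
  (.nx 749 160 (.nr 748 825 (.l1 (.ls 31 23 284)) (.l1 .sk)) (.l1 .sk)) (.nx 755 104033 (.nx 753
  13005 (.lg 0 false 3 89 97 23 0 65520) (.nr 754 65537 (.lg 0 false 1 97 97 19 0 21840) .out))
  (.nr 757 513 (.lg 0 true 2 71 71 19 0 21840) .out)))) .out) .out))) (.na 774 94 (.nx 773 1664512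
  (.nr 772 1048577 (.nr 761 92 .s1 (.nx 763 160 (.nr 762 842 (.l1 (.ls 19 31 281)) (.l1 .sk)) (.nx
  764 161 (.l1 .sk) (.nx 767 13005 (.lg 0 false 3 89 97 19 0 5040) (.nr 771 65537 (.nx 768 104033
  (.lg 0 false 1 97 97 19 0 1680) (.nr 770 513 (.lg 0 true 2 71 71 19 0 240) .out)) .out))))) .out)
  .out) (.na 788 95 (.nx 787 1664512 (.nr 786 1048577 (.nr 775 94 .s1 (.nx 777 160 (.nr 776 851
  (.l1 (.ls 19 29 275)) (.l1 .sk)) (.nx 778 161 (.l1 .sk) (.nx 781 20644 (.lg 0 false 3 89 89 19 0
  720) (.nr 785 32769 (.nr 783 513 (.lg 0 true 2 61 61 19 0 240) (.nx 784 104033 (.lg 2 true 1 71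
  71 17 20418 240) .out)) .out))))) .out) .out) (.nx 801 1664512 (.nr 800 1048577 (.nr 789 95 .s1
  (.nx 791 160 (.nr 790 878 (.l1 (.ls 17 17 272)) (.l1 .sk)) (.nx 792 161 (.l1 .sk) (.nx 795 20644
  (.lg 0 false 3 89 89 17 0 720) (.nr 799 32769 (.nr 797 513 (.lg 0 true 2 61 61 17 0 240) (.nx 798
  104033 (.lg 2 true 1 71 71 16 20418 240) .out)) .out))))) .out) .out)))) (.na 831 104 (.na 816
  100 (.nx 815 1664512 (.nr 814 1048577 (.nr 803 98 .s1 (.nx 806 161 (.nx 805 160 (.nr 804 896 (.l1
  (.ls 19 29 264)) (.l1 .sk)) (.l1 .sk)) (.nx 809 20644 (.lg 0 false 3 83 83 23 0 5040) (.nr 813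
  32769 (.nr 811 513 (.lg 0 true 2 61 61 23 0 1680) (.nx 812 104033 (.lg 2 true 1 71 71 19 20418
  1680) .out)) .out)))) .out) .out) (.na 817 103 (.lg 0 false 1 0 0 16 0 24) (.nx 830 1664512 (.nr
  829 1048577 (.nr 818 103 .s1 (.nx 821 161 (.nx 820 160 (.nr 819 932 (.l1 (.ls 19 17 251)) (.l1
  .sk)) (.l1 .sk)) (.nx 824 20644 (.lg 0 false 3 83 83 16 0 720) (.nr 828 32769 (.nr 826 513 (.lg 0
  true 2 61 61 16 0 240) (.nx 827 104033 (.lg 2 true 1 67 67 16 20418 240) .out)) .out)))) .out)
  .out))) (.na 859 110 (.na 845 106 (.nx 844 1664512 (.nr 843 1048577 (.nr 832 104 .s1 (.nx 840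
  104033 (.nx 838 13005 (.nx 834 160 (.nr 833 950 (.l1 (.ls 31 29 249)) (.l1 .sk)) (.nx 835 161
  (.l1 .sk) (.lg 0 false 3 89 89 29 0 65520))) (.nr 839 65537 (.lg 0 false 1 97 97 23 0 65520)
  .out)) (.nr 842 513 (.lg 0 true 2 71 71 29 0 3120) .out))) .out) .out) (.nx 858 1664512 (.nr 857
  1048577 (.nr 846 106 .s1 (.nx 849 161 (.nx 848 160 (.nr 847 986 (.l1 (.ls 19 23 244)) (.l1 .sk))
  (.l1 .sk)) (.nx 852 20644 (.lg 0 false 3 89 89 23 0 5040) (.nr 856 32769 (.nr 854 513 (.lg 0 true
  2 61 61 19 0 240) (.nx 855 104033 (.lg 2 true 1 71 71 19 20418 1680) .out)) .out)))) .out) .out))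
  (.na 873 112 (.nx 872 1664512 (.nr 871 1048577 (.nr 860 110 .s1 (.nx 866 20644 (.nx 862 160 (.nr
  861 1004 (.l1 (.ls 23 31 235)) (.l1 .sk)) (.nx 863 161 (.l1 .sk) (.lg 0 false 3 83 83 29 0
  7920))) (.nr 870 32769 (.nr 868 513 (.lg 0 true 2 61 61 29 0 2640) (.nx 869 104033 (.lg 2 true 1
  67 67 23 20418 2640) .out)) .out))) .out) .out) (.nx 884 1664512 (.nr 883 1048577 (.nr 874 112
  .s1 (.nx 877 161 (.nx 876 160 (.nr 875 1031 (.l1 (.ls 37 29 231)) (.l1 .sk)) (.l1 .sk)) (.nx 881
  104033 (.nr 878 65537 (.lg 0 true 1 97 101 29 0 55440) (.nx 880 13005 (.lg 0 false 2 89 101 31 0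
  55440) .out)) (.nr 882 513 (.lg 0 true 1 73 73 29 0 1680) .out)))) .out) .out)))))))

def T114_2 : Ph :=
  (.na 341 202 (.na 188 126 (.na 104 91 (.na 64 64 (.na 23 54 (.nx 22 2642247 (.nr 21 881745 (.nr 1
  44 .s1 (.nx 11 32769 (.nx 3 227 (.nr 2 576 (.lg 0 true 1 29 29 13 0 5040) (.l1 .sk)) (.nx 4 228
  (.l1 .sk) (.lg 0 false 7 97 101 19 0 5040))) (.nr 20 92683 (.nr 16 576 (.lg 0 true 5 73 73 19 0
  720) (.nx 19 262145 (.lg 2 false 3 97 97 13 73052 5040) .out)) .out))) .out) .out) (.na 43 58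
  (.nx 42 2642247 (.nr 41 881745 (.nr 24 52 .s1 (.nx 27 228 (.nx 26 227 (.nr 25 619 (.l1 (.ls 29 41
  957)) (.l1 .sk)) (.l1 .sk)) (.nx 32 32769 (.lg 0 false 5 97 97 23 0 55440) (.nr 40 92683 (.nr 37
  619 (.lg 0 true 5 71 71 23 0 720) (.nx 39 262145 (.lg 2 true 2 97 97 19 73052 55440) .out))
  .out)))) .out) .out) (.nx 63 2642247 (.nr 62 881745 (.nr 44 57 .s1 (.nx 47 228 (.nx 46 227 (.nr
  45 683 (.l1 (.ls 23 37 891)) (.l1 .sk)) (.l1 .sk)) (.nx 52 32769 (.lg 0 false 5 97 97 19 0 5040)
  (.nr 61 92683 (.nr 57 683 (.lg 0 true 5 71 71 19 0 720) (.nx 60 262145 (.lg 2 false 3 89 89 19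
  73052 1008) .out)) .out)))) .out) .out))) (.na 65 66 .ne (.na 87 86 (.nx 86 2642247 (.nr 85
  2097153 (.nr 66 65 .s1 (.nx 70 408 (.nx 68 227 (.nr 67 918 (.l1 (.ls 31 41 783)) (.l1 .sk)) (.nx
  69 228 (.l1 .sk) (.l1 (.ls 83 43 1737)))) (.nr 84 1048577 (.nx 78 32769 (.nx 75 20644 (.lg 0
  false 5 89 101 37 0 55440) (.nr 77 262145 (.lg 0 false 2 89 89 29 0 55440) .out)) (.nr 83 65537
  (.nr 81 918 (.lg 0 true 3 79 79 31 0 1584) (.nx 82 416129 (.lg 2 true 1 97 97 29 51708 55440)
  .out)) .out)) .out))) .out) .out) (.nx 103 2642247 (.nr 102 2097153 (.nr 88 85 .s1 (.nx 95 32769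
  (.nx 89 408 (.l1 (.ls 79 37 1938)) (.nr 94 1048577 (.lg 0 false 5 89 97 23 0 5040) .out)) (.nr
  101 65537 (.nr 98 971 (.lg 0 true 3 71 71 19 0 144) (.nx 100 416129 (.lg 2 false 2 79 79 19 51708
  144) .out)) .out))) .out) .out)))) (.na 139 106 (.na 105 94 .ne (.na 122 98 (.nx 121 2642247 (.nr
  120 2097153 (.nr 106 93 .s1 (.nx 107 408 (.l1 (.ls 79 37 1773)) (.nr 119 1482912 (.nx 112 26009
  (.lg 0 false 5 89 89 23 0 720) (.nr 118 65537 (.nr 115 513 (.lg 0 true 3 67 67 19 0 144) (.nx 117
  416129 (.lg 2 true 2 83 83 19 92068 144) .out)) .out)) .out))) .out) .out) (.nx 138 2642247 (.nr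
  137 2097153 (.nr 123 97 .s1 (.nx 130 26009 (.nx 124 408 (.l1 (.ls 73 41 1701)) (.nr 129 1482912
  (.lg 0 false 5 89 89 29 0 5040) .out)) (.nr 136 65537 (.nr 133 513 (.lg 0 true 3 61 61 23 0 1008)
  (.nx 135 416129 (.lg 2 true 2 79 79 23 92068 1008) .out)) .out))) .out) .out))) (.na 154 114 (.nx
  153 2642247 (.nr 152 2097153 (.nr 140 105 .s1 (.nx 145 26009 (.nx 141 408 (.l1 (.ls 79 37 1573))
  (.nr 144 1482912 (.lg 0 false 3 89 89 23 0 720) .out)) (.nr 151 65537 (.nr 148 1216 (.lg 0 true 3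
  71 71 23 0 144) (.nx 150 416129 (.lg 2 false 2 79 79 19 65148 144) .out)) .out))) .out) .out)
  (.na 172 118 (.nx 171 2642247 (.nr 170 2097153 (.nr 155 114 .s1 (.nx 156 408 (.l1 (.ls 83 43
  1463)) (.nr 169 1482912 (.nx 166 416129 (.nx 161 26009 (.lg 0 false 5 89 97 37 0 5040) (.nr 165
  65537 (.nr 163 32769 (.lg 0 true 2 97 97 31 0 5040) (.nx 164 165142 (.lg 2 false 1 79 79 31 65148
  144) .out)) .out)) (.nr 168 513 (.lg 0 true 2 71 71 31 0 144) .out)) .out))) .out) .out) (.nx 187
  2642247 (.nr 186 2097153 (.nr 173 118 .s1 (.nx 180 26009 (.nx 174 408 (.l1 (.ls 73 37 1413)) (.nr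
  179 1482912 (.lg 0 false 5 83 83 23 0 720) .out)) (.nr 185 65537 (.nr 182 513 (.lg 0 true 2 61 61
  19 0 144) (.nx 184 416129 (.lg 2 true 2 79 79 19 92068 144) .out)) .out))) .out) .out))))) (.na
  258 158 (.na 216 142 (.na 200 128 (.nx 199 2642247 (.nr 198 2097153 (.nr 189 126 .s1 (.nx 193
  26009 (.nx 190 408 (.l1 (.ls 79 43 1324)) (.nr 192 1482912 (.lg 0 false 2 97 97 31 0 5040) .out))
  (.nr 197 65537 (.nr 195 513 (.lg 0 true 2 67 67 31 0 1008) (.nx 196 416129 (.lg 2 false 1 89 89
  31 92068 5040) .out)) .out))) .out) .out) (.na 201 138 .ne (.nx 215 1321124 (.nr 214 2097153 (.nr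
  202 138 .s1 (.nx 205 228 (.nx 204 227 (.nr 203 1515 (.l1 (.ls 19 37 376)) (.l1 .sk)) (.l1 .sk))
  (.nx 210 26009 (.lg 0 false 5 89 97 41 0 5040) (.nr 213 65537 (.nr 211 1025 (.lg 0 true 1 71 71
  31 0 144) (.nx 212 165142 (.lg 2 false 1 83 83 31 65148 1008) .out)) .out)))) .out) .out))) (.na
  232 146 (.nx 231 1321124 (.nr 230 2097153 (.nr 217 142 .s1 (.nx 225 41287 (.nx 219 227 (.nr 218
  1558 (.l1 (.ls 19 29 365)) (.l1 .sk)) (.nx 220 228 (.l1 .sk) (.lg 0 false 5 89 89 29 0 720)))
  (.nr 229 16385 (.nr 227 1025 (.lg 0 true 2 59 59 23 0 144) (.nx 228 165142 (.lg 2 true 1 59 59 19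
  18287 144) .out)) .out))) .out) .out) (.na 245 154 (.nx 244 1321124 (.nr 243 2097153 (.nr 233 146
  .s1 (.nx 239 26009 (.nx 235 227 (.nr 234 1643 (.l1 (.ls 23 29 355)) (.l1 .sk)) (.nx 236 228 (.l1
  .sk) (.lg 0 false 3 89 89 23 0 720))) (.nr 242 65537 (.nr 240 1025 (.lg 0 false 1 67 67 19 0 144)
  (.nx 241 165142 (.lg 2 false 1 79 79 19 65148 720) .out)) .out))) .out) .out) (.nx 257 1321124
  (.nr 256 2097153 (.nr 246 154 .s1 (.nx 249 228 (.nx 248 227 (.nr 247 1686 (.l1 (.ls 31 37 337))
  (.l1 .sk)) (.l1 .sk)) (.nx 252 26009 (.lg 0 false 3 89 97 37 0 55440) (.nr 255 65537 (.nr 253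
  1025 (.lg 0 true 1 71 71 31 0 11088) (.nx 254 165142 (.lg 2 false 1 83 83 31 65148 11088) .out))
  .out)))) .out) .out)))) (.na 300 178 (.na 273 162 (.nx 272 1321124 (.nr 271 2097153 (.nr 259 158
  .s1 (.nx 262 228 (.nx 261 227 (.nr 260 1728 (.l1 (.ls 17 29 329)) (.l1 .sk)) (.l1 .sk)) (.nx 267
  41287 (.lg 0 false 5 89 89 29 0 720) (.nr 270 16385 (.nr 268 1025 (.lg 0 false 1 61 61 19 0 144)
  (.nx 269 165142 (.lg 2 false 1 59 59 19 18287 144) .out)) .out)))) .out) .out) (.na 288 174 (.nx
  287 1321124 (.nr 286 2097153 (.nr 274 162 .s1 (.nx 277 228 (.nx 276 227 (.nr 275 1856 (.l1 (.ls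
  17 31 321)) (.l1 .sk)) (.l1 .sk)) (.nx 282 41287 (.lg 0 false 5 79 83 31 0 720) (.nr 285 16385
  (.nr 283 1025 (.lg 0 false 1 61 61 23 0 144) (.nx 284 165142 (.lg 2 false 1 53 53 23 18287 144)
  .out)) .out)))) .out) .out) (.nx 299 1321124 (.nr 298 2097153 (.nr 289 174 .s1 (.nx 292 228 (.nx
  291 227 (.nr 290 1899 (.l1 (.ls 23 37 299)) (.l1 .sk)) (.l1 .sk)) (.nx 294 26009 (.lg 0 false 2
  89 97 37 0 720) (.nr 297 65537 (.nr 295 1025 (.lg 0 true 1 67 67 23 0 144) (.nx 296 165142 (.lg 2
  false 1 79 79 23 65148 144) .out)) .out)))) .out) .out))) (.na 316 194 (.na 315 182 (.nx 314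
  1321124 (.nr 313 2097153 (.nr 301 178 .s1 (.nx 309 41287 (.nx 303 227 (.nr 302 1942 (.l1 (.ls 17
  29 292)) (.l1 .sk)) (.nx 304 228 (.l1 .sk) (.lg 0 false 5 79 83 29 0 720))) (.nr 312 16385 (.nr
  310 1025 (.lg 0 false 1 61 61 19 0 144) (.nx 311 165142 (.lg 2 true 1 53 53 19 18287 144) .out))
  .out))) .out) .out) .ne) (.na 329 198 (.nx 328 1321124 (.nr 327 1482912 (.nr 317 194 .s1 (.nx 323
  41287 (.nx 319 227 (.nr 318 2112 (.l1 (.ls 23 29 268)) (.l1 .sk)) (.nx 320 228 (.l1 .sk) (.lg 0
  false 3 83 83 29 0 5040))) (.nr 326 16385 (.nr 324 1025 (.lg 0 false 1 67 67 19 0 5040) (.nx 325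
  165142 (.lg 2 false 1 53 53 19 18287 144) .out)) .out))) .out) .out) (.nx 340 1321124 (.nr 339
  1482912 (.nr 330 198 .s1 (.nx 333 228 (.nx 332 227 (.nr 331 2155 (.l1 (.ls 29 37 263)) (.l1 .sk))
  (.l1 .sk)) (.nx 335 26009 (.lg 0 false 2 89 89 37 0 11088) (.nr 338 65537 (.nx 336 165142 (.lg 0
  false 1 83 83 31 0 11088) (.nr 337 1025 (.lg 0 true 1 67 67 31 0 1584) .out)) .out)))) .out)
  .out)))))) (.na 4596 2048 (.na 409 257 (.na 384 226 (.na 356 206 (.nx 355 1321124 (.nr 354
  1482912 (.nr 342 202 .s1 (.nx 345 228 (.nx 344 227 (.nr 343 2198 (.l1 (.ls 17 29 258)) (.l1 .sk))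
  (.l1 .sk)) (.nx 350 41287 (.lg 0 false 5 79 79 29 0 720) (.nr 353 16385 (.nr 351 1025 (.lg 0
  false 1 61 61 23 0 144) (.nx 352 165142 (.lg 2 true 1 53 53 23 18287 144) .out)) .out)))) .out)
  .out) (.na 369 218 (.nx 368 1321124 (.nr 367 1482912 (.nr 357 206 .s1 (.nx 359 227 (.nr 358 2326
  (.l1 (.ls 19 29 253)) (.l1 .sk)) (.nx 360 228 (.l1 .sk) (.nx 363 41287 (.lg 0 false 3 79 79 29 0
  144) (.nr 366 16385 (.nr 364 1025 (.lg 0 false 1 61 61 23 0 144) (.nx 365 165142 (.lg 2 false 1
  53 53 23 18287 144) .out)) .out))))) .out) .out) (.nx 383 1321124 (.nr 382 1482912 (.nr 370 218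
  .s1 (.nx 372 227 (.nr 371 2411 (.l1 (.ls 17 29 239)) (.l1 .sk)) (.nx 373 228 (.l1 .sk) (.nx 378
  41287 (.lg 0 false 5 73 79 29 0 720) (.nr 381 16385 (.nr 379 1025 (.lg 0 false 1 59 59 23 0 144)
  (.nx 380 165142 (.lg 2 true 1 47 47 23 18287 144) .out)) .out))))) .out) .out))) (.na 397 242
  (.nx 396 1321124 (.nr 395 1482912 (.nr 385 226 .s1 (.nx 391 41287 (.nx 387 227 (.nr 386 2581 (.l1
  (.ls 23 29 231)) (.l1 .sk)) (.nx 388 228 (.l1 .sk) (.lg 0 false 3 83 83 29 0 5040))) (.nr 394
  16385 (.nr 392 1025 (.lg 0 false 1 61 61 23 0 144) (.nx 393 165142 (.lg 2 false 1 53 53 23 18287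
  5040) .out)) .out))) .out) .out) (.na 408 256 (.nx 407 1321124 (.nr 406 1482912 (.nr 398 242 .s1
  (.nx 401 228 (.nx 400 227 (.nr 399 2731 (.l1 (.ls 19 29 215)) (.l1 .sk)) (.l1 .sk)) (.nx 404
  41287 (.lg 0 false 3 79 79 31 0 1584) (.nr 405 16385 (.lg 0 false 1 79 79 29 0 1584) .out))))
  .out) .out) .ne))) (.na 1938 725 (.na 840 363 (.nx 839 1321124 (.nr 838 1482912 (.nr 410 257 .s1
  (.nx 624 26009 (.nx 517 227 (.nr 516 3872 (.la (.ls 41 19 203)) (.l1 .sk)) (.nx 518 228 (.l1 .sk)
  (.la (.lg 0 false 2 79 79 23 0)))) (.nr 837 32769 (.nr 730 2049 (.la (.lg 0 true 1 61 61 23 0))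
  (.nx 836 165142 (.la (.lg 2 false 1 61 61 23 32687)) .out)) .out))) .out) .out) (.na 1293 512
  (.nx 1292 1321124 (.nr 1291 1482912 (.nr 841 363 .s1 (.nx 992 228 (.nx 991 227 (.nr 990 5461 (.la
  (.ls 43 19 144)) (.l1 .sk)) (.l1 .sk)) (.nx 1141 26009 (.la (.lg 0 false 1 79 79 23 0)) (.nr 1290
  32769 (.la (.lg 2 true 1 73 73 23 413079)) .out)))) .out) .out) (.nx 1937 1321124 (.nr 1936
  1482912 (.nr 1294 512 .s1 (.nx 1509 228 (.nx 1508 227 (.nr 1507 7733 (.la (.ls 37 23 182)) (.l1
  .sk)) (.l1 .sk)) (.nx 1722 26009 (.la (.lg 0 true 1 71 71 29 0)) (.nr 1935 32769 (.la (.lg 2 true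
  1 61 61 29 292867)) .out)))) .out) .out))) (.na 2540 1024 (.nx 2539 20644 (.nr 2538 2097153 (.nr
  1939 725 .s1 (.nx 2238 2049 (.la (.ls 71 37 5793)) (.nr 2537 262145 (.la (.lg 0 false 1 59 59 29
  0)) .out))) .out) .out) (.na 3394 1449 (.nx 3393 20644 (.nr 3392 2097153 (.nr 2541 1024 .s1 (.nx
  2966 3252 (.la (.ls 67 41 10330)) (.nr 3391 131073 (.la (.lg 0 false 1 47 47 31 0)) .out))) .out)
  .out) (.nx 4595 13005 (.nr 4594 2097153 (.nr 3395 1449 .s1 (.nx 3994 3252 (.la (.ls 67 41 7301))
  (.nr 4593 16385 (.la (.lg 0 false 1 29 29 31 0)) .out))) .out) .out))))) (.na 19728 16384 (.na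
  8350 5793 (.na 5448 2897 (.nx 5447 13005 (.nr 5446 2097153 (.nr 4597 2048 .s1 (.la (.ls 61 53
  82586))) .out) .out) (.na 6650 4096 (.nx 6649 4097 (.nr 6648 1048577 (.nr 5449 2897 .s1 (.la (.ls
  59 41 5797))) .out) .out) (.nx 8349 5162 (.nr 8348 1048577 (.nr 6651 4096 .s1 (.la (.ls 67 41
  6508))) .out) .out))) (.na 10980 8192 (.nx 10979 2049 (.nr 10978 524289 (.nr 8351 5793 .s1 (.nx
  8578 227 (.nr 8577 87371 (.lx (.lp 43 31 2049)) (.l1 .sk)) (.nx 8579 228 (.l1 .sk) (.la (.ls 53
  37 2049))))) .out) .out) (.na 14700 11586 (.nx 14699 2049 (.nr 14698 524289 (.nr 10981 8192 .s1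
  (.nx 11304 324 (.lx (.lp 53 37 2897)) (.la (.ls 47 41 2897)))) .out) .out) (.nx 19727 2049 (.nr
  19726 131073 (.nr 14701 11586 .s1 (.nx 14927 227 (.lx (.lp 41 41 4097)) (.nx 14928 228 (.l1 .sk)
  (.la (.ls 41 41 4097))))) .out) .out)))) (.na 25462 131072 (.na 21780 32768 (.nx 21779 2049 (.nr
  21778 262145 (.nr 19729 16384 .s1 (.nx 20052 324 (.lx (.lp 16 0 8193)) (.nr 21777 131073 (.lx
  (.lp 41 43 8193)) .out))) .out) .out) (.na 23832 65536 (.nx 23831 2049 (.nr 23830 524289 (.nr
  21781 32768 .s1 (.nx 22104 324 (.lx (.lp 16 0 16385)) (.nr 23829 262145 (.lx (.lp 41 47 16385))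
  .out))) .out) .out) (.nx 25461 1627 (.nr 25460 524289 (.nr 23833 65536 .s1 (.nx 24156 324 (.lx
  (.lp 16 0 32769)) (.nr 25459 262145 (.lx (.lp 37 53 32769)) .out))) .out) .out))) (.na 27607
  524288 (.na 27092 262144 (.nx 27091 1627 (.nr 27090 524289 (.nr 25463 131072 .s1 (.nx 25975 513
  (.lx (.lp 16 0 65537)) (.nr 27089 262145 (.lx (.lp 37 59 65537)) .out))) .out) .out) (.nx 27606
  513 (.nr 27605 1048577 (.nr 27093 262144 .s1 (.lx (.lp 16 0 131073))) .out) .out)) (.na 27609
  1048577 (.nx 27608 324 (.l1 .sk) .out) .out))))))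

theorem c114 :
    OkQ ckI L10 241 167 1099511627776 0 34359738368 1 1099511627776 ∧
    OkQ ckI L8 160 13 115 0 34359738368 1 1099511627776 ∧
    OkQ ckI L10 227 46 1099511627776 0 34359738368 1 1099511627776 := by
  refine ⟨?_, ?_, ?_⟩
  · refine fin 24 24685 T114_0 ?_
    refine jn 10 (by decide +kernel) ?_
    refine jn 22 (by decide +kernel) ?_
    refine jn 35 (by decide +kernel) ?_
    refine jn 48 (by decide +kernel) ?_
    refine jn 62 (by decide +kernel) ?_
    refine jn 76 (by decide +kernel) ?_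
    refine jn 90 (by decide +kernel) ?_
    refine jn 102 (by decide +kernel) ?_
    refine jn 115 (by decide +kernel) ?_
    refine jn 127 (by decide +kernel) ?_
    refine jn 137 (by decide +kernel) ?_
    refine jn 141 (by decide +kernel) ?_
    refine jn 153 (by decide +kernel) ?_
    refine jn 167 (by decide +kernel) ?_
    refine jn 181 (by decide +kernel) ?_
    refine jn 193 (by decide +kernel) ?_
    refine jn 206 (by decide +kernel) ?_
    refine jn 231 (by decide +kernel) ?_
    refine jn 242 (by decide +kernel) ?_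
    refine jn 256 (by decide +kernel) ?_
    refine jn 266 (by decide +kernel) ?_
    refine jn 279 (by decide +kernel) ?_
    refine jn 337 (by decide +kernel) ?_
    refine jn 382 (by decide +kernel) ?_
    refine jn 398 (by decide +kernel) ?_
    refine jn 400 (by decide +kernel) ?_
    refine jn 401 (by decide +kernel) ?_
    refine jn 412 (by decide +kernel) ?_
    refine jn 416 (by decide +kernel) ?_
    refine jn 422 (by decide +kernel) ?_
    refine jn 425 (by decide +kernel) ?_
    refine jn 440 (by decide +kernel) ?_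
    refine jn 445 (by decide +kernel) ?_
    refine jn 446 (by decide +kernel) ?_
    refine jn 454 (by decide +kernel) ?_
    refine jn 457 (by decide +kernel) ?_
    refine jn 461 (by decide +kernel) ?_
    refine jn 472 (by decide +kernel) ?_
    refine jn 476 (by decide +kernel) ?_
    refine jn 478 (by decide +kernel) ?_
    refine jn 485 (by decide +kernel) ?_
    refine jn 490 (by decide +kernel) ?_
    refine jn 493 (by decide +kernel) ?_
    refine jn 497 (by decide +kernel) ?_
    refine jn 504 (by decide +kernel) ?_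
    refine jn 507 (by decide +kernel) ?_
    refine jn 522 (by decide +kernel) ?_
    refine jn 546 (by decide +kernel) ?_
    refine jn 554 (by decide +kernel) ?_
    refine jn 567 (by decide +kernel) ?_
    refine jn 582 (by decide +kernel) ?_
    refine jn 591 (by decide +kernel) ?_
    refine jn 602 (by decide +kernel) ?_
    refine jn 611 (by decide +kernel) ?_
    refine jn 614 (by decide +kernel) ?_
    refine jn 629 (by decide +kernel) ?_
    refine jn 638 (by decide +kernel) ?_
    refine jn 658 (by decide +kernel) ?_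
    refine jn 667 (by decide +kernel) ?_
    refine jn 682 (by decide +kernel) ?_
    refine jn 697 (by decide +kernel) ?_
    refine jn 706 (by decide +kernel) ?_
    refine jn 737 (by decide +kernel) ?_
    refine jn 782 (by decide +kernel) ?_
    refine jn 842 (by decide +kernel) ?_
    refine jn 886 (by decide +kernel) ?_
    refine jn 888 (by decide +kernel) ?_
    refine jn 889 (by decide +kernel) ?_
    refine jn 909 (by decide +kernel) ?_
    refine jn 913 (by decide +kernel) ?_
    refine jn 921 (by decide +kernel) ?_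
    refine jn 930 (by decide +kernel) ?_
    refine jn 934 (by decide +kernel) ?_
    refine jn 937 (by decide +kernel) ?_
    refine jn 942 (by decide +kernel) ?_
    refine jn 957 (by decide +kernel) ?_
    refine jn 966 (by decide +kernel) ?_
    refine jn 976 (by decide +kernel) ?_
    refine jn 993 (by decide +kernel) ?_
    refine jn 1006 (by decide +kernel) ?_
    refine jn 1012 (by decide +kernel) ?_
    refine jn 1037 (by decide +kernel) ?_
    refine jn 1038 (by decide +kernel) ?_
    refine jn 1058 (by decide +kernel) ?_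
    refine jn 1070 (by decide +kernel) ?_
    refine jn 1079 (by decide +kernel) ?_
    refine jn 1083 (by decide +kernel) ?_
    refine jn 1089 (by decide +kernel) ?_
    refine jn 1103 (by decide +kernel) ?_
    refine jn 1110 (by decide +kernel) ?_
    refine jn 1125 (by decide +kernel) ?_
    refine jn 1142 (by decide +kernel) ?_
    refine jn 1155 (by decide +kernel) ?_
    refine jn 1164 (by decide +kernel) ?_
    refine jn 1230 (by decide +kernel) ?_
    refine jn 1282 (by decide +kernel) ?_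
    refine jn 1338 (by decide +kernel) ?_
    refine jn 1386 (by decide +kernel) ?_
    refine jn 1401 (by decide +kernel) ?_
    refine jn 1418 (by decide +kernel) ?_
    refine jn 1422 (by decide +kernel) ?_
    refine jn 1436 (by decide +kernel) ?_
    refine jn 1445 (by decide +kernel) ?_
    refine jn 1454 (by decide +kernel) ?_
    refine jn 1472 (by decide +kernel) ?_
    refine jn 1476 (by decide +kernel) ?_
    refine jn 1485 (by decide +kernel) ?_
    refine jn 1493 (by decide +kernel) ?_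
    refine jn 1502 (by decide +kernel) ?_
    refine jn 1518 (by decide +kernel) ?_
    refine jn 1536 (by decide +kernel) ?_
    refine jn 1542 (by decide +kernel) ?_
    refine jn 1550 (by decide +kernel) ?_
    refine jn 1557 (by decide +kernel) ?_
    refine jn 1581 (by decide +kernel) ?_
    refine jn 1592 (by decide +kernel) ?_
    refine jn 1599 (by decide +kernel) ?_
    refine jn 1614 (by decide +kernel) ?_
    refine jn 1631 (by decide +kernel) ?_
    refine jn 1635 (by decide +kernel) ?_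
    refine jn 1649 (by decide +kernel) ?_
    refine jn 1658 (by decide +kernel) ?_
    refine jn 1667 (by decide +kernel) ?_
    refine jn 1685 (by decide +kernel) ?_
    refine jn 1689 (by decide +kernel) ?_
    refine jn 1698 (by decide +kernel) ?_
    refine jn 1706 (by decide +kernel) ?_
    refine jn 1715 (by decide +kernel) ?_
    refine jn 1731 (by decide +kernel) ?_
    refine jn 1749 (by decide +kernel) ?_
    refine jn 1755 (by decide +kernel) ?_
    refine jn 1763 (by decide +kernel) ?_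
    refine jn 1771 (by decide +kernel) ?_
    refine jn 1797 (by decide +kernel) ?_
    refine jn 1809 (by decide +kernel) ?_
    refine jn 1858 (by decide +kernel) ?_
    refine jn 1905 (by decide +kernel) ?_
    refine jn 1950 (by decide +kernel) ?_
    refine jn 1987 (by decide +kernel) ?_
    refine jn 2031 (by decide +kernel) ?_
    refine jn 2083 (by decide +kernel) ?_
    refine jn 2112 (by decide +kernel) ?_
    refine jn 2129 (by decide +kernel) ?_
    refine jn 2157 (by decide +kernel) ?_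
    refine jn 2162 (by decide +kernel) ?_
    refine jn 2189 (by decide +kernel) ?_
    refine jn 2208 (by decide +kernel) ?_
    refine jn 2229 (by decide +kernel) ?_
    refine jn 2249 (by decide +kernel) ?_
    refine jn 2262 (by decide +kernel) ?_
    refine jn 2276 (by decide +kernel) ?_
    refine jn 2289 (by decide +kernel) ?_
    refine jn 2304 (by decide +kernel) ?_
    refine jn 2330 (by decide +kernel) ?_
    refine jn 2348 (by decide +kernel) ?_
    refine jn 2376 (by decide +kernel) ?_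
    refine jn 2393 (by decide +kernel) ?_
    refine jn 2402 (by decide +kernel) ?_
    refine jn 2421 (by decide +kernel) ?_
    refine jn 2473 (by decide +kernel) ?_
    refine jn 2505 (by decide +kernel) ?_
    refine jn 2541 (by decide +kernel) ?_
    refine jn 2584 (by decide +kernel) ?_
    refine jn 2622 (by decide +kernel) ?_
    refine jn 2661 (by decide +kernel) ?_
    refine jn 2706 (by decide +kernel) ?_
    refine jn 2737 (by decide +kernel) ?_
    refine jn 2796 (by decide +kernel) ?_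
    refine jn 2841 (by decide +kernel) ?_
    refine jn 2861 (by decide +kernel) ?_
    refine jn 2883 (by decide +kernel) ?_
    refine jn 2901 (by decide +kernel) ?_
    refine jn 2913 (by decide +kernel) ?_
    refine jn 2943 (by decide +kernel) ?_
    refine jn 2957 (by decide +kernel) ?_
    refine jn 2975 (by decide +kernel) ?_
    refine jn 2994 (by decide +kernel) ?_
    refine jn 3018 (by decide +kernel) ?_
    refine jn 3035 (by decide +kernel) ?_
    refine jn 3063 (by decide +kernel) ?_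
    refine jn 3081 (by decide +kernel) ?_
    refine jn 3087 (by decide +kernel) ?_
    refine jn 3110 (by decide +kernel) ?_
    refine jn 3143 (by decide +kernel) ?_
    refine jn 3150 (by decide +kernel) ?_
    refine jn 3174 (by decide +kernel) ?_
    refine jn 3209 (by decide +kernel) ?_
    refine jn 3242 (by decide +kernel) ?_
    refine jn 3271 (by decide +kernel) ?_
    refine jn 3345 (by decide +kernel) ?_
    refine jn 3385 (by decide +kernel) ?_
    refine jn 3450 (by decide +kernel) ?_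
    refine jn 3501 (by decide +kernel) ?_
    refine jn 3565 (by decide +kernel) ?_
    refine jn 3598 (by decide +kernel) ?_
    refine jn 3661 (by decide +kernel) ?_
    refine jn 3723 (by decide +kernel) ?_
    refine jn 3801 (by decide +kernel) ?_
    refine jn 3850 (by decide +kernel) ?_
    refine jn 3884 (by decide +kernel) ?_
    refine jn 3944 (by decide +kernel) ?_
    refine jn 3977 (by decide +kernel) ?_
    refine jn 4022 (by decide +kernel) ?_
    refine jn 4052 (by decide +kernel) ?_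
    refine jn 4100 (by decide +kernel) ?_
    refine jn 4124 (by decide +kernel) ?_
    refine jn 4178 (by decide +kernel) ?_
    refine jn 4197 (by decide +kernel) ?_
    refine jn 4242 (by decide +kernel) ?_
    refine jn 4281 (by decide +kernel) ?_
    refine jn 4341 (by decide +kernel) ?_
    refine jn 4392 (by decide +kernel) ?_
    refine jn 4433 (by decide +kernel) ?_
    refine jn 4458 (by decide +kernel) ?_
    refine jn 4512 (by decide +kernel) ?_
    refine jn 4528 (by decide +kernel) ?_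
    refine jn 4557 (by decide +kernel) ?_
    refine jn 4570 (by decide +kernel) ?_
    refine jn 4588 (by decide +kernel) ?_
    refine jn 4600 (by decide +kernel) ?_
    refine jn 4617 (by decide +kernel) ?_
    refine jn 4654 (by decide +kernel) ?_
    refine jn 4677 (by decide +kernel) ?_
    refine jn 4693 (by decide +kernel) ?_
    refine jn 4734 (by decide +kernel) ?_
    refine jn 4761 (by decide +kernel) ?_
    refine jn 4788 (by decide +kernel) ?_
    refine jn 4801 (by decide +kernel) ?_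
    refine jn 4848 (by decide +kernel) ?_
    refine jn 4873 (by decide +kernel) ?_
    refine jn 4908 (by decide +kernel) ?_
    refine jn 4918 (by decide +kernel) ?_
    refine jn 4950 (by decide +kernel) ?_
    refine jn 4965 (by decide +kernel) ?_
    refine jn 4989 (by decide +kernel) ?_
    refine jn 5022 (by decide +kernel) ?_
    refine jn 5061 (by decide +kernel) ?_
    refine jn 5080 (by decide +kernel) ?_
    refine jn 5118 (by decide +kernel) ?_
    refine jn 5142 (by decide +kernel) ?_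
    refine jn 5178 (by decide +kernel) ?_
    refine jn 5209 (by decide +kernel) ?_
    refine jn 5233 (by decide +kernel) ?_
    refine jn 5256 (by decide +kernel) ?_
    refine jn 5293 (by decide +kernel) ?_
    refine jn 5337 (by decide +kernel) ?_
    refine jn 5379 (by decide +kernel) ?_
    refine jn 5451 (by decide +kernel) ?_
    refine jn 5521 (by decide +kernel) ?_
    refine jn 5593 (by decide +kernel) ?_
    refine jn 5659 (by decide +kernel) ?_
    refine jn 5739 (by decide +kernel) ?_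
    refine jn 5812 (by decide +kernel) ?_
    refine jn 5876 (by decide +kernel) ?_
    refine jn 5964 (by decide +kernel) ?_
    refine jn 6043 (by decide +kernel) ?_
    refine jn 6124 (by decide +kernel) ?_
    refine jn 6204 (by decide +kernel) ?_
    refine jn 6276 (by decide +kernel) ?_
    refine jn 6337 (by decide +kernel) ?_
    refine jn 6415 (by decide +kernel) ?_
    refine jn 6501 (by decide +kernel) ?_
    refine jn 6568 (by decide +kernel) ?_
    refine jn 6636 (by decide +kernel) ?_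
    refine jn 6703 (by decide +kernel) ?_
    refine jn 6759 (by decide +kernel) ?_
    refine jn 6819 (by decide +kernel) ?_
    refine jn 6891 (by decide +kernel) ?_
    refine jn 6967 (by decide +kernel) ?_
    refine jn 7060 (by decide +kernel) ?_
    refine jn 7140 (by decide +kernel) ?_
    refine jn 7182 (by decide +kernel) ?_
    refine jn 7260 (by decide +kernel) ?_
    refine jn 7363 (by decide +kernel) ?_
    refine jn 7431 (by decide +kernel) ?_
    refine jn 7494 (by decide +kernel) ?_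
    refine jn 7606 (by decide +kernel) ?_
    refine jn 7692 (by decide +kernel) ?_
    refine jn 7788 (by decide +kernel) ?_
    refine jn 7860 (by decide +kernel) ?_
    refine jn 7966 (by decide +kernel) ?_
    refine jn 8062 (by decide +kernel) ?_
    refine jn 8134 (by decide +kernel) ?_
    refine jn 8222 (by decide +kernel) ?_
    refine jn 8569 (by decide +kernel) ?_
    refine jn 8667 (by decide +kernel) ?_
    refine jn 8790 (by decide +kernel) ?_
    refine jn 8911 (by decide +kernel) ?_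
    refine jn 9043 (by decide +kernel) ?_
    refine jn 9166 (by decide +kernel) ?_
    refine jn 9330 (by decide +kernel) ?_
    refine jn 9442 (by decide +kernel) ?_
    refine jn 9598 (by decide +kernel) ?_
    refine jn 9738 (by decide +kernel) ?_
    refine jn 9861 (by decide +kernel) ?_
    refine jn 10003 (by decide +kernel) ?_
    refine jn 10170 (by decide +kernel) ?_
    refine jn 10315 (by decide +kernel) ?_
    refine jn 10467 (by decide +kernel) ?_
    refine jn 10599 (by decide +kernel) ?_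
    refine jn 10741 (by decide +kernel) ?_
    refine jn 10873 (by decide +kernel) ?_
    refine jn 11205 (by decide +kernel) ?_
    refine jn 11442 (by decide +kernel) ?_
    refine jn 11595 (by decide +kernel) ?_
    refine jn 11773 (by decide +kernel) ?_
    refine jn 11934 (by decide +kernel) ?_
    refine jn 12067 (by decide +kernel) ?_
    refine jn 12261 (by decide +kernel) ?_
    refine jn 12426 (by decide +kernel) ?_
    refine jn 12607 (by decide +kernel) ?_
    refine jn 12756 (by decide +kernel) ?_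
    refine jn 12910 (by decide +kernel) ?_
    refine jn 13069 (by decide +kernel) ?_
    refine jn 13219 (by decide +kernel) ?_
    refine jn 13393 (by decide +kernel) ?_
    refine jn 13581 (by decide +kernel) ?_
    refine jn 13762 (by decide +kernel) ?_
    refine jn 13918 (by decide +kernel) ?_
    refine jn 14074 (by decide +kernel) ?_
    refine jn 14245 (by decide +kernel) ?_
    refine jn 14434 (by decide +kernel) ?_
    refine jn 14599 (by decide +kernel) ?_
    refine jn 14870 (by decide +kernel) ?_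
    refine jn 15316 (by decide +kernel) ?_
    refine jn 15503 (by decide +kernel) ?_
    refine jn 15681 (by decide +kernel) ?_
    refine jn 15820 (by decide +kernel) ?_
    refine jn 15954 (by decide +kernel) ?_
    refine jn 16051 (by decide +kernel) ?_
    refine jn 16149 (by decide +kernel) ?_
    refine jn 16233 (by decide +kernel) ?_
    refine jn 16309 (by decide +kernel) ?_
    refine jn 16380 (by decide +kernel) ?_
    refine jn 16463 (by decide +kernel) ?_
    refine jn 16535 (by decide +kernel) ?_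
    refine jn 16602 (by decide +kernel) ?_
    refine jn 16667 (by decide +kernel) ?_
    refine jn 16723 (by decide +kernel) ?_
    refine jn 16779 (by decide +kernel) ?_
    refine jn 17036 (by decide +kernel) ?_
    refine jn 17314 (by decide +kernel) ?_
    refine jn 17471 (by decide +kernel) ?_
    refine jn 17602 (by decide +kernel) ?_
    refine jn 17709 (by decide +kernel) ?_
    refine jn 17812 (by decide +kernel) ?_
    refine jn 17912 (by decide +kernel) ?_
    refine jn 18000 (by decide +kernel) ?_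
    refine jn 18080 (by decide +kernel) ?_
    refine jn 18157 (by decide +kernel) ?_
    refine jn 18227 (by decide +kernel) ?_
    refine jn 18290 (by decide +kernel) ?_
    refine jn 18348 (by decide +kernel) ?_
    refine jn 18407 (by decide +kernel) ?_
    refine jn 18467 (by decide +kernel) ?_
    refine jn 18519 (by decide +kernel) ?_
    refine jn 18571 (by decide +kernel) ?_
    refine jn 18614 (by decide +kernel) ?_
    refine jn 18658 (by decide +kernel) ?_
    refine jn 18705 (by decide +kernel) ?_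
    refine jn 18744 (by decide +kernel) ?_
    refine jn 18787 (by decide +kernel) ?_
    refine jn 18830 (by decide +kernel) ?_
    refine jn 18921 (by decide +kernel) ?_
    refine jn 19279 (by decide +kernel) ?_
    refine jn 19523 (by decide +kernel) ?_
    refine jn 19714 (by decide +kernel) ?_
    refine jn 19858 (by decide +kernel) ?_
    refine jn 19978 (by decide +kernel) ?_
    refine jn 20083 (by decide +kernel) ?_
    refine jn 20192 (by decide +kernel) ?_
    refine jn 20294 (by decide +kernel) ?_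
    refine jn 20386 (by decide +kernel) ?_
    refine jn 20476 (by decide +kernel) ?_
    refine jn 20550 (by decide +kernel) ?_
    refine jn 20636 (by decide +kernel) ?_
    refine jn 20712 (by decide +kernel) ?_
    refine jn 20775 (by decide +kernel) ?_
    refine jn 20834 (by decide +kernel) ?_
    refine jn 20894 (by decide +kernel) ?_
    refine jn 21457 (by decide +kernel) ?_
    refine jn 21686 (by decide +kernel) ?_
    refine jn 21907 (by decide +kernel) ?_
    refine jn 22052 (by decide +kernel) ?_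
    refine jn 22198 (by decide +kernel) ?_
    refine jn 22306 (by decide +kernel) ?_
    refine jn 22441 (by decide +kernel) ?_
    refine jn 22538 (by decide +kernel) ?_
    refine jn 23243 (by decide +kernel) ?_
    refine jn 23460 (by decide +kernel) ?_
    refine jn 23783 (by decide +kernel) ?_
    refine jn 23965 (by decide +kernel) ?_
    refine jn 24126 (by decide +kernel) ?_
    exact je (by decide +kernel)
  · refine fin 240 885 T114_1 ?_
    refine jn 5 (by decide +kernel) ?_
    refine jn 6 (by decide +kernel) ?_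
    refine jn 8 (by decide +kernel) ?_
    refine jn 9 (by decide +kernel) ?_
    refine jn 16 (by decide +kernel) ?_
    refine jn 21 (by decide +kernel) ?_
    refine jn 23 (by decide +kernel) ?_
    refine jn 24 (by decide +kernel) ?_
    refine jn 25 (by decide +kernel) ?_
    refine jn 26 (by decide +kernel) ?_
    refine jn 27 (by decide +kernel) ?_
    refine jn 28 (by decide +kernel) ?_
    refine jn 29 (by decide +kernel) ?_
    refine jn 30 (by decide +kernel) ?_
    refine jn 31 (by decide +kernel) ?_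
    refine jn 32 (by decide +kernel) ?_
    refine jn 41 (by decide +kernel) ?_
    refine jn 54 (by decide +kernel) ?_
    refine jn 63 (by decide +kernel) ?_
    refine jn 64 (by decide +kernel) ?_
    refine jn 66 (by decide +kernel) ?_
    refine jn 67 (by decide +kernel) ?_
    refine jn 74 (by decide +kernel) ?_
    refine jn 78 (by decide +kernel) ?_
    refine jn 81 (by decide +kernel) ?_
    refine jn 82 (by decide +kernel) ?_
    refine jn 83 (by decide +kernel) ?_
    refine jn 84 (by decide +kernel) ?_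
    refine jn 85 (by decide +kernel) ?_
    refine jn 86 (by decide +kernel) ?_
    refine jn 87 (by decide +kernel) ?_
    refine jn 88 (by decide +kernel) ?_
    refine jn 89 (by decide +kernel) ?_
    refine jn 90 (by decide +kernel) ?_
    refine jn 99 (by decide +kernel) ?_
    refine jn 111 (by decide +kernel) ?_
    refine jn 119 (by decide +kernel) ?_
    refine jn 120 (by decide +kernel) ?_
    refine jn 121 (by decide +kernel) ?_
    refine jn 122 (by decide +kernel) ?_
    refine jn 123 (by decide +kernel) ?_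
    refine jn 129 (by decide +kernel) ?_
    refine jn 131 (by decide +kernel) ?_
    refine jn 132 (by decide +kernel) ?_
    refine jn 133 (by decide +kernel) ?_
    refine jn 134 (by decide +kernel) ?_
    refine jn 137 (by decide +kernel) ?_
    refine jn 138 (by decide +kernel) ?_
    refine jn 141 (by decide +kernel) ?_
    refine jn 143 (by decide +kernel) ?_
    refine jn 150 (by decide +kernel) ?_
    refine jn 162 (by decide +kernel) ?_
    refine jn 166 (by decide +kernel) ?_
    refine jn 174 (by decide +kernel) ?_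
    refine jn 177 (by decide +kernel) ?_
    refine jn 186 (by decide +kernel) ?_
    refine jn 196 (by decide +kernel) ?_
    refine jn 198 (by decide +kernel) ?_
    refine jn 202 (by decide +kernel) ?_
    refine jn 206 (by decide +kernel) ?_
    refine jn 214 (by decide +kernel) ?_
    refine jn 222 (by decide +kernel) ?_
    refine jn 230 (by decide +kernel) ?_
    refine jn 231 (by decide +kernel) ?_
    refine jn 232 (by decide +kernel) ?_
    refine jn 233 (by decide +kernel) ?_
    refine jn 241 (by decide +kernel) ?_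
    refine jn 243 (by decide +kernel) ?_
    refine jn 244 (by decide +kernel) ?_
    refine jn 245 (by decide +kernel) ?_
    refine jn 246 (by decide +kernel) ?_
    refine jn 247 (by decide +kernel) ?_
    refine jn 248 (by decide +kernel) ?_
    refine jn 249 (by decide +kernel) ?_
    refine jn 250 (by decide +kernel) ?_
    refine jn 257 (by decide +kernel) ?_
    refine jn 268 (by decide +kernel) ?_
    refine jn 271 (by decide +kernel) ?_
    refine jn 277 (by decide +kernel) ?_
    refine jn 285 (by decide +kernel) ?_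
    refine jn 295 (by decide +kernel) ?_
    refine jn 298 (by decide +kernel) ?_
    refine jn 305 (by decide +kernel) ?_
    refine jn 312 (by decide +kernel) ?_
    refine jn 321 (by decide +kernel) ?_
    refine jn 322 (by decide +kernel) ?_
    refine jn 323 (by decide +kernel) ?_
    refine jn 324 (by decide +kernel) ?_
    refine jn 329 (by decide +kernel) ?_
    refine jn 330 (by decide +kernel) ?_
    refine jn 333 (by decide +kernel) ?_
    refine jn 336 (by decide +kernel) ?_
    refine jn 345 (by decide +kernel) ?_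
    refine jn 346 (by decide +kernel) ?_
    refine jn 347 (by decide +kernel) ?_
    refine jn 348 (by decide +kernel) ?_
    refine jn 353 (by decide +kernel) ?_
    refine jn 354 (by decide +kernel) ?_
    refine jn 356 (by decide +kernel) ?_
    refine jn 360 (by decide +kernel) ?_
    refine jn 376 (by decide +kernel) ?_
    refine jn 383 (by decide +kernel) ?_
    refine jn 395 (by decide +kernel) ?_
    refine jn 401 (by decide +kernel) ?_
    refine jn 415 (by decide +kernel) ?_
    refine jn 421 (by decide +kernel) ?_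
    refine jn 431 (by decide +kernel) ?_
    refine jn 436 (by decide +kernel) ?_
    refine jn 443 (by decide +kernel) ?_
    refine jn 444 (by decide +kernel) ?_
    refine jn 445 (by decide +kernel) ?_
    refine jn 446 (by decide +kernel) ?_
    refine jn 457 (by decide +kernel) ?_
    refine jn 466 (by decide +kernel) ?_
    refine jn 468 (by decide +kernel) ?_
    refine jn 469 (by decide +kernel) ?_
    refine jn 473 (by decide +kernel) ?_
    refine jn 475 (by decide +kernel) ?_
    refine jn 476 (by decide +kernel) ?_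
    refine jn 482 (by decide +kernel) ?_
    refine jn 490 (by decide +kernel) ?_
    refine jn 495 (by decide +kernel) ?_
    refine jn 505 (by decide +kernel) ?_
    refine jn 510 (by decide +kernel) ?_
    refine jn 520 (by decide +kernel) ?_
    refine jn 526 (by decide +kernel) ?_
    refine jn 536 (by decide +kernel) ?_
    refine jn 539 (by decide +kernel) ?_
    refine jn 542 (by decide +kernel) ?_
    refine jn 545 (by decide +kernel) ?_
    refine jn 555 (by decide +kernel) ?_
    refine jn 561 (by decide +kernel) ?_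
    refine jn 574 (by decide +kernel) ?_
    refine jn 585 (by decide +kernel) ?_
    refine jn 588 (by decide +kernel) ?_
    refine jn 591 (by decide +kernel) ?_
    refine jn 594 (by decide +kernel) ?_
    refine jn 607 (by decide +kernel) ?_
    refine jn 621 (by decide +kernel) ?_
    refine jn 631 (by decide +kernel) ?_
    refine jn 639 (by decide +kernel) ?_
    refine jn 651 (by decide +kernel) ?_
    refine jn 661 (by decide +kernel) ?_
    refine jn 666 (by decide +kernel) ?_
    refine jn 669 (by decide +kernel) ?_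
    refine jn 678 (by decide +kernel) ?_
    refine jn 681 (by decide +kernel) ?_
    refine jn 684 (by decide +kernel) ?_
    refine jn 693 (by decide +kernel) ?_
    refine jn 696 (by decide +kernel) ?_
    refine jn 699 (by decide +kernel) ?_
    refine jn 714 (by decide +kernel) ?_
    refine jn 725 (by decide +kernel) ?_
    refine jn 728 (by decide +kernel) ?_
    refine jn 742 (by decide +kernel) ?_
    refine jn 753 (by decide +kernel) ?_
    refine jn 757 (by decide +kernel) ?_
    refine jn 767 (by decide +kernel) ?_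
    refine jn 770 (by decide +kernel) ?_
    refine jn 784 (by decide +kernel) ?_
    refine jn 798 (by decide +kernel) ?_
    refine jn 812 (by decide +kernel) ?_
    refine jn 827 (by decide +kernel) ?_
    refine jn 838 (by decide +kernel) ?_
    refine jn 842 (by decide +kernel) ?_
    refine jn 855 (by decide +kernel) ?_
    refine jn 869 (by decide +kernel) ?_
    refine jn 877 (by decide +kernel) ?_
    refine jn 878 (by decide +kernel) ?_
    refine jn 880 (by decide +kernel) ?_
    refine jn 882 (by decide +kernel) ?_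
    exact je (by decide +kernel)
  · refine fin 72 27610 T114_2 ?_
    refine jn 11 (by decide +kernel) ?_
    refine jn 19 (by decide +kernel) ?_
    refine jn 32 (by decide +kernel) ?_
    refine jn 39 (by decide +kernel) ?_
    refine jn 52 (by decide +kernel) ?_
    refine jn 60 (by decide +kernel) ?_
    refine jn 73 (by decide +kernel) ?_
    refine jn 75 (by decide +kernel) ?_
    refine jn 78 (by decide +kernel) ?_
    refine jn 81 (by decide +kernel) ?_
    refine jn 94 (by decide +kernel) ?_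
    refine jn 106 (by decide +kernel) ?_
    refine jn 115 (by decide +kernel) ?_
    refine jn 129 (by decide +kernel) ?_
    refine jn 144 (by decide +kernel) ?_
    refine jn 155 (by decide +kernel) ?_
    refine jn 156 (by decide +kernel) ?_
    refine jn 157 (by decide +kernel) ?_
    refine jn 158 (by decide +kernel) ?_
    refine jn 159 (by decide +kernel) ?_
    refine jn 160 (by decide +kernel) ?_
    refine jn 161 (by decide +kernel) ?_
    refine jn 162 (by decide +kernel) ?_
    refine jn 163 (by decide +kernel) ?_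
    refine jn 164 (by decide +kernel) ?_
    refine jn 179 (by decide +kernel) ?_
    refine jn 192 (by decide +kernel) ?_
    refine jn 196 (by decide +kernel) ?_
    refine jn 210 (by decide +kernel) ?_
    refine jn 212 (by decide +kernel) ?_
    refine jn 228 (by decide +kernel) ?_
    refine jn 241 (by decide +kernel) ?_
    refine jn 253 (by decide +kernel) ?_
    refine jn 267 (by decide +kernel) ?_
    refine jn 283 (by decide +kernel) ?_
    refine jn 295 (by decide +kernel) ?_
    refine jn 310 (by decide +kernel) ?_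
    refine jn 325 (by decide +kernel) ?_
    refine jn 336 (by decide +kernel) ?_
    refine jn 351 (by decide +kernel) ?_
    refine jn 365 (by decide +kernel) ?_
    refine jn 380 (by decide +kernel) ?_
    refine jn 393 (by decide +kernel) ?_
    refine jn 415 (by decide +kernel) ?_
    refine jn 499 (by decide +kernel) ?_
    refine jn 523 (by decide +kernel) ?_
    refine jn 527 (by decide +kernel) ?_
    refine jn 539 (by decide +kernel) ?_
    refine jn 543 (by decide +kernel) ?_
    refine jn 555 (by decide +kernel) ?_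
    refine jn 579 (by decide +kernel) ?_
    refine jn 583 (by decide +kernel) ?_
    refine jn 595 (by decide +kernel) ?_
    refine jn 607 (by decide +kernel) ?_
    refine jn 623 (by decide +kernel) ?_
    refine jn 633 (by decide +kernel) ?_
    refine jn 649 (by decide +kernel) ?_
    refine jn 685 (by decide +kernel) ?_
    refine jn 709 (by decide +kernel) ?_
    refine jn 729 (by decide +kernel) ?_
    refine jn 739 (by decide +kernel) ?_
    refine jn 767 (by decide +kernel) ?_
    refine jn 807 (by decide +kernel) ?_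
    refine jn 827 (by decide +kernel) ?_
    refine jn 896 (by decide +kernel) ?_
    refine jn 980 (by decide +kernel) ?_
    refine jn 1035 (by decide +kernel) ?_
    refine jn 1047 (by decide +kernel) ?_
    refine jn 1067 (by decide +kernel) ?_
    refine jn 1091 (by decide +kernel) ?_
    refine jn 1103 (by decide +kernel) ?_
    refine jn 1115 (by decide +kernel) ?_
    refine jn 1156 (by decide +kernel) ?_
    refine jn 1184 (by decide +kernel) ?_
    refine jn 1192 (by decide +kernel) ?_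
    refine jn 1196 (by decide +kernel) ?_
    refine jn 1204 (by decide +kernel) ?_
    refine jn 1216 (by decide +kernel) ?_
    refine jn 1232 (by decide +kernel) ?_
    refine jn 1240 (by decide +kernel) ?_
    refine jn 1252 (by decide +kernel) ?_
    refine jn 1256 (by decide +kernel) ?_
    refine jn 1284 (by decide +kernel) ?_
    refine jn 1350 (by decide +kernel) ?_
    refine jn 1444 (by decide +kernel) ?_
    refine jn 1519 (by decide +kernel) ?_
    refine jn 1531 (by decide +kernel) ?_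
    refine jn 1579 (by decide +kernel) ?_
    refine jn 1599 (by decide +kernel) ?_
    refine jn 1615 (by decide +kernel) ?_
    refine jn 1635 (by decide +kernel) ?_
    refine jn 1655 (by decide +kernel) ?_
    refine jn 1675 (by decide +kernel) ?_
    refine jn 1695 (by decide +kernel) ?_
    refine jn 1724 (by decide +kernel) ?_
    refine jn 1736 (by decide +kernel) ?_
    refine jn 1764 (by decide +kernel) ?_
    refine jn 1812 (by decide +kernel) ?_
    refine jn 1828 (by decide +kernel) ?_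
    refine jn 1848 (by decide +kernel) ?_
    refine jn 1868 (by decide +kernel) ?_
    refine jn 1888 (by decide +kernel) ?_
    refine jn 1908 (by decide +kernel) ?_
    refine jn 1940 (by decide +kernel) ?_
    refine jn 2032 (by decide +kernel) ?_
    refine jn 2112 (by decide +kernel) ?_
    refine jn 2192 (by decide +kernel) ?_
    refine jn 2255 (by decide +kernel) ?_
    refine jn 2311 (by decide +kernel) ?_
    refine jn 2339 (by decide +kernel) ?_
    refine jn 2359 (by decide +kernel) ?_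
    refine jn 2395 (by decide +kernel) ?_
    refine jn 2439 (by decide +kernel) ?_
    refine jn 2479 (by decide +kernel) ?_
    refine jn 2507 (by decide +kernel) ?_
    refine jn 2541 (by decide +kernel) ?_
    refine jn 2599 (by decide +kernel) ?_
    refine jn 2683 (by decide +kernel) ?_
    refine jn 2763 (by decide +kernel) ?_
    refine jn 2831 (by decide +kernel) ?_
    refine jn 2903 (by decide +kernel) ?_
    refine jn 2968 (by decide +kernel) ?_
    refine jn 3000 (by decide +kernel) ?_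
    refine jn 3044 (by decide +kernel) ?_
    refine jn 3076 (by decide +kernel) ?_
    refine jn 3156 (by decide +kernel) ?_
    refine jn 3188 (by decide +kernel) ?_
    refine jn 3220 (by decide +kernel) ?_
    refine jn 3264 (by decide +kernel) ?_
    refine jn 3324 (by decide +kernel) ?_
    refine jn 3360 (by decide +kernel) ?_
    refine jn 3448 (by decide +kernel) ?_
    refine jn 3524 (by decide +kernel) ?_
    refine jn 3640 (by decide +kernel) ?_
    refine jn 3752 (by decide +kernel) ?_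
    refine jn 3824 (by decide +kernel) ?_
    refine jn 3920 (by decide +kernel) ?_
    refine jn 4003 (by decide +kernel) ?_
    refine jn 4087 (by decide +kernel) ?_
    refine jn 4147 (by decide +kernel) ?_
    refine jn 4251 (by decide +kernel) ?_
    refine jn 4351 (by decide +kernel) ?_
    refine jn 4403 (by decide +kernel) ?_
    refine jn 4459 (by decide +kernel) ?_
    refine jn 4507 (by decide +kernel) ?_
    refine jn 4559 (by decide +kernel) ?_
    refine jn 4631 (by decide +kernel) ?_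
    refine jn 4687 (by decide +kernel) ?_
    refine jn 4727 (by decide +kernel) ?_
    refine jn 4775 (by decide +kernel) ?_
    refine jn 4803 (by decide +kernel) ?_
    refine jn 4875 (by decide +kernel) ?_
    refine jn 4943 (by decide +kernel) ?_
    refine jn 4983 (by decide +kernel) ?_
    refine jn 5027 (by decide +kernel) ?_
    refine jn 5051 (by decide +kernel) ?_
    refine jn 5147 (by decide +kernel) ?_
    refine jn 5195 (by decide +kernel) ?_
    refine jn 5263 (by decide +kernel) ?_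
    refine jn 5315 (by decide +kernel) ?_
    refine jn 5387 (by decide +kernel) ?_
    refine jn 5423 (by decide +kernel) ?_
    refine jn 5478 (by decide +kernel) ?_
    refine jn 5614 (by decide +kernel) ?_
    refine jn 5726 (by decide +kernel) ?_
    refine jn 5858 (by decide +kernel) ?_
    refine jn 5950 (by decide +kernel) ?_
    refine jn 6110 (by decide +kernel) ?_
    refine jn 6238 (by decide +kernel) ?_
    refine jn 6358 (by decide +kernel) ?_
    refine jn 6526 (by decide +kernel) ?_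
    refine jn 6650 (by decide +kernel) ?_
    refine jn 6797 (by decide +kernel) ?_
    refine jn 6929 (by decide +kernel) ?_
    refine jn 7109 (by decide +kernel) ?_
    refine jn 7193 (by decide +kernel) ?_
    refine jn 7297 (by decide +kernel) ?_
    refine jn 7433 (by decide +kernel) ?_
    refine jn 7584 (by decide +kernel) ?_
    refine jn 7749 (by decide +kernel) ?_
    refine jn 7901 (by decide +kernel) ?_
    refine jn 8053 (by decide +kernel) ?_
    refine jn 8153 (by decide +kernel) ?_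
    refine jn 8297 (by decide +kernel) ?_
    refine jn 8624 (by decide +kernel) ?_
    refine jn 8823 (by decide +kernel) ?_
    refine jn 9064 (by decide +kernel) ?_
    refine jn 9272 (by decide +kernel) ?_
    refine jn 9469 (by decide +kernel) ?_
    refine jn 9704 (by decide +kernel) ?_
    refine jn 9968 (by decide +kernel) ?_
    refine jn 10188 (by decide +kernel) ?_
    refine jn 10388 (by decide +kernel) ?_
    refine jn 10628 (by decide +kernel) ?_
    refine jn 10880 (by decide +kernel) ?_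
    refine jn 11263 (by decide +kernel) ?_
    refine jn 11566 (by decide +kernel) ?_
    refine jn 11810 (by decide +kernel) ?_
    refine jn 12110 (by decide +kernel) ?_
    refine jn 12346 (by decide +kernel) ?_
    refine jn 12630 (by decide +kernel) ?_
    refine jn 12910 (by decide +kernel) ?_
    refine jn 13186 (by decide +kernel) ?_
    refine jn 13454 (by decide +kernel) ?_
    refine jn 13750 (by decide +kernel) ?_
    refine jn 14050 (by decide +kernel) ?_
    refine jn 14326 (by decide +kernel) ?_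
    refine jn 14590 (by decide +kernel) ?_
    refine jn 14980 (by decide +kernel) ?_
    refine jn 15296 (by decide +kernel) ?_
    refine jn 15584 (by decide +kernel) ?_
    refine jn 15868 (by decide +kernel) ?_
    refine jn 16200 (by decide +kernel) ?_
    refine jn 16516 (by decide +kernel) ?_
    refine jn 16844 (by decide +kernel) ?_
    refine jn 17120 (by decide +kernel) ?_
    refine jn 17400 (by decide +kernel) ?_
    refine jn 17688 (by decide +kernel) ?_
    refine jn 18000 (by decide +kernel) ?_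
    refine jn 18296 (by decide +kernel) ?_
    refine jn 18588 (by decide +kernel) ?_
    refine jn 18908 (by decide +kernel) ?_
    refine jn 19196 (by decide +kernel) ?_
    refine jn 19520 (by decide +kernel) ?_
    refine jn 19975 (by decide +kernel) ?_
    refine jn 20296 (by decide +kernel) ?_
    refine jn 20481 (by decide +kernel) ?_
    refine jn 20612 (by decide +kernel) ?_
    refine jn 20755 (by decide +kernel) ?_
    refine jn 20864 (by decide +kernel) ?_
    refine jn 20938 (by decide +kernel) ?_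
    refine jn 21020 (by decide +kernel) ?_
    refine jn 21095 (by decide +kernel) ?_
    refine jn 21170 (by decide +kernel) ?_
    refine jn 21245 (by decide +kernel) ?_
    refine jn 21303 (by decide +kernel) ?_
    refine jn 21369 (by decide +kernel) ?_
    refine jn 21433 (by decide +kernel) ?_
    refine jn 21488 (by decide +kernel) ?_
    refine jn 21543 (by decide +kernel) ?_
    refine jn 21592 (by decide +kernel) ?_
    refine jn 21638 (by decide +kernel) ?_
    refine jn 21685 (by decide +kernel) ?_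
    refine jn 21731 (by decide +kernel) ?_
    refine jn 21770 (by decide +kernel) ?_
    refine jn 22310 (by decide +kernel) ?_
    refine jn 22555 (by decide +kernel) ?_
    refine jn 22748 (by decide +kernel) ?_
    refine jn 22906 (by decide +kernel) ?_
    refine jn 23073 (by decide +kernel) ?_
    refine jn 23215 (by decide +kernel) ?_
    refine jn 23315 (by decide +kernel) ?_
    refine jn 23403 (by decide +kernel) ?_
    refine jn 23485 (by decide +kernel) ?_
    refine jn 23555 (by decide +kernel) ?_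
    refine jn 23617 (by decide +kernel) ?_
    refine jn 23687 (by decide +kernel) ?_
    refine jn 23767 (by decide +kernel) ?_
    refine jn 23833 (by decide +kernel) ?_
    refine jn 24528 (by decide +kernel) ?_
    refine jn 24771 (by decide +kernel) ?_
    refine jn 24987 (by decide +kernel) ?_
    refine jn 25166 (by decide +kernel) ?_
    refine jn 25339 (by decide +kernel) ?_
    refine jn 25463 (by decide +kernel) ?_
    refine jn 26265 (by decide +kernel) ?_
    refine jn 26601 (by decide +kernel) ?_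
    refine jn 26817 (by decide +kernel) ?_
    refine jn 27026 (by decide +kernel) ?_
    exact je (by decide +kernel)

end Pool.Agent.MP_2339ce_nt.NR
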