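import Pool.Agent.MP_2339ce_nt.Q2.NC.L8
import Pool.Agent.MP_2339ce_nt.Q2.CkI

/-! Block NR: runs. -/

set_option autoImplicit false
set_option maxRecDepth 100000

noncomputable section

namespace Pool.Agent.MP_2339ce_nt.NR

open Q2.Top

def T12_0 : Ph :=
  (.na 1128 161 (.na 917 64 (.na 759 31 (.na 634 10 (.na 489 3 (.na 293 2 (.nx 292 1321124 (.nr 291
  881745 (.nx 3 182 (.nx 2 181 (.nr 1 14 (.lg 0 false 1 41 41 5 0 24) (.l1 .sk)) (.l1 .sk)) (.nx
  257 660563 (.nr 210 77937 (.nx 47 23168 (.lg 0 false 44 101 103 16 0 55440) (.nr 80 695 (.lg 0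
  true 33 89 97 13 0 27720) (.nx 113 32769 (.lg 1 false 33 101 107 13 55234 720720) (.nr 209 55110
  (.nr 164 23172 (.nr 124 1219 (.lg 2 true 11 83 89 9 86016 9240) (.nx 163 524289 (.nr 135 2437
  (.lg 2 true 11 83 89 9 38924 9240) (.nx 162 416129 (.nr 146 4097 (.lg 2 true 11 83 89 9 15454
  27720) (.lg 2 false 16 97 101 9 11674 5040)) .out)) .out)) (.nx 208 262145 (.lg 2 false 44 101
  107 16 27640 720720) .out)) .out)))) (.nx 256 13005 (.nx 243 257 (.lg 0 false 33 79 83 13 0
  27720) (.nx 244 2580 .out (.nr 255 92683 (.lg 0 false 11 97 101 9 0 27720) .out))) .out)) (.nr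
  290 129 (.lg 0 true 33 79 83 13 0 27720) .out))) .out) .out) (.nx 488 3329023 (.nr 487 623489
  (.nx 296 182 (.nx 295 181 (.nr 294 26 (.lg 0 true 1 37 37 5 0 48) (.l1 .sk)) (.l1 .sk)) (.nx 341
  26009 (.nr 329 131073 (.lg 0 false 33 101 107 13 0 720720) (.nx 340 257 (.lg 0 false 11 73 73 9 0
  528) .out)) (.nr 486 110219 (.nr 393 450 (.nx 374 1664512 (.lg 0 true 33 83 89 13 0 1584) (.nr
  392 9 (.lg 0 true 18 67 67 9 0 144) .out)) (.nx 485 416129 (.nx 426 44591 (.lg 1 false 33 97 107
  13 69532 720720) (.nr 484 92683 (.nr 449 27556 (.nr 437 2437 (.lg 2 true 11 89 89 9 83689 18480)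
  (.nx 448 330282 (.lg 2 false 11 97 97 9 12266 18480) .out)) (.nx 483 165142 (.nr 460 55110 (.lg 2
  false 11 97 101 9 20312 18480) (.nx 482 131073 (.lg 2 false 22 97 103 11 34114 240240) .out))
  .out)) .out)) .out)) .out))) .out) .out)) (.na 490 5 .ne (.na 633 6 (.nx 632 13316087 (.nr 631
  1482912 (.nx 493 182 (.nx 492 181 (.nr 491 56 (.lg 0 true 1 31 31 9 0 120) (.l1 .sk)) (.l1 .sk))
  (.nx 515 26007 (.nr 505 110219 (.lg 0 false 12 97 101 16 0 5040) (.nx 514 257 (.lg 0 false 9 73
  73 16 0 360) .out)) (.nr 630 155873 (.nr 566 956 (.nx 527 832257 (.lg 0 true 12 83 89 16 0 720)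
  (.nr 565 129 (.nx 536 1664512 (.lg 0 true 9 73 73 16 0 360) (.nr 564 24 (.lg 0 true 28 73 73 16 0
  1680) .out)) .out)) (.nx 629 660563 (.nr 570 4213 (.lg 2 true 4 89 89 13 62533 1680) (.nx 620
  131073 (.nx 595 58386 (.nx 583 41285 (.nr 582 131073 (.lg 1 false 12 101 107 16 82672 720720)
  .out) (.lg 1 false 12 97 103 16 61918 720720)) (.nx 607 82572 (.lg 1 false 12 97 103 16 43783
  720720) (.nr 619 131073 (.lg 1 true 12 97 107 16 26039 720720) .out))) (.nr 628 46342 (.nr 624
  8843 (.lg 2 true 4 83 83 13 14190 1680) (.lg 2 false 4 89 97 13 6761 1680)) .out))) .out))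
  .out))) .out) .out) .ne))) (.na 690 14 (.na 689 12 (.nx 688 1664512 (.nr 687 623489 (.nx 636 181
  (.nr 635 114 (.lg 0 false 1 31 31 11 0 720) (.l1 .sk)) (.nx 637 182 (.l1 .sk) (.nr 679 131073
  (.nx 648 35390 (.lg 0 false 11 101 103 19 0 720720) (.nx 671 524289 (.nr 655 1621 (.lg 0 true 7
  83 83 13 0 1680) (.nx 670 416129 (.nx 662 65537 (.lg 1 false 7 97 101 13 60753 65520) (.nr 669
  110219 (.lg 2 false 7 97 103 13 27594 65520) .out)) .out)) (.nr 678 65 (.lg 0 true 7 67 67 13 0
  1680) .out))) (.nx 686 1292 (.lg 0 false 7 79 83 13 0 1680) .out)))) .out) .out) .ne) (.na 733 16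
  (.nx 732 1664512 (.nr 731 623489 (.nr 691 4 .s1 (.nx 709 32765 (.nx 693 181 (.nr 692 152 (.lg 0
  true 1 29 29 11 0 1680) (.l1 .sk)) (.nx 694 182 (.l1 .sk) (.nr 703 155873 (.lg 0 false 9 89 97 19
  0 5040) (.nx 708 1292 (.lg 0 false 5 79 79 13 0 1680) .out)))) (.nr 730 110219 (.nx 724 524289
  (.nr 714 829 (.lg 0 true 5 79 79 13 0 1680) (.nx 723 416129 (.lg 2 false 9 97 101 19 55195 55440)
  .out)) (.nr 729 65 (.lg 0 true 5 67 67 13 0 1680) .out)) .out))) .out) .out) (.na 734 26 .ne (.nx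
  758 1664512 (.nr 757 1048577 (.nr 735 23 .s1 (.nx 739 257 (.nx 737 181 (.nr 736 296 (.lg 0 true 1
  29 29 11 0 65520) (.l1 .sk)) (.nx 738 182 (.l1 .sk) (.l1 (.ls 79 41 1269)))) (.nr 756 311745 (.nr
  752 110219 (.nx 742 41287 (.lg 0 false 3 97 97 11 0 65520) (.nr 751 65537 (.nr 748 513 (.lg 0
  true 6 73 73 19 0 1872) (.nx 750 165142 (.lg 2 true 2 97 97 11 29134 21840) .out)) .out)) (.nx
  755 8193 (.lg 0 false 3 83 83 11 0 1872) .out)) .out))) .out) .out))))) (.na 842 47 (.na 783 37
  (.na 782 32 (.nx 781 1664512 (.nr 780 1048577 (.nr 760 28 .s1 (.nx 763 182 (.nx 762 181 (.nr 761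
  305 (.lg 0 false 1 17 17 13 0 120) (.l1 .sk)) (.l1 .sk)) (.nx 764 257 (.l1 (.ls 73 23 1065)) (.nr
  779 311745 (.nx 768 20644 (.lg 0 false 4 89 89 16 0 240) (.nr 778 77937 (.nr 773 305 (.lg 0 true
  5 67 67 16 0 120) (.nx 777 208065 (.lg 2 false 4 83 89 16 61987 240) .out)) .out)) .out)))) .out)
  .out) .ne) (.na 803 38 (.nx 802 1664512 (.nr 801 881745 (.nr 784 35 .s1 (.nx 788 257 (.nx 786 181
  (.nr 785 362 (.l1 (.ls 17 23 888)) (.l1 .sk)) (.nx 787 182 (.l1 .sk) (.l1 (.ls 73 23 892)))) (.nr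
  800 440873 (.nx 792 20644 (.lg 0 false 4 89 89 16 0 48) (.nr 799 46342 (.nr 796 257 (.lg 0 true 4
  67 67 16 0 48) (.nx 798 104033 (.lg 2 false 2 83 83 16 36916 48) .out)) .out)) .out))) .out)
  .out) (.na 823 46 (.nx 822 1664512 (.nr 821 881745 (.nr 804 36 .s1 (.nx 813 20644 (.nx 805 257
  (.l1 (.ls 73 41 1741)) (.nr 812 440873 (.lg 0 false 7 83 89 17 0 1680) .out)) (.nr 820 46342 (.nr
  817 257 (.lg 0 true 4 67 67 17 0 48) (.nx 819 104033 (.lg 2 true 2 83 83 13 36916 240) .out))
  .out))) .out) .out) (.nx 841 1664512 (.nr 840 881745 (.nr 824 44 .s1 (.nx 825 257 (.l1 (.ls 73 41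
  1438)) (.nr 839 623489 (.nx 832 20644 (.lg 0 false 7 89 97 19 0 5040) (.nr 838 46342 (.nr 835 257
  (.lg 0 true 3 61 61 13 0 144) (.nx 837 104033 (.lg 2 false 2 79 79 13 36916 240) .out)) .out))
  .out))) .out) .out)))) (.na 874 50 (.na 858 49 (.nx 857 1664512 (.nr 856 881745 (.nr 843 46 .s1
  (.nx 849 20644 (.nx 844 257 (.l1 (.ls 71 29 1408)) (.nr 848 623489 (.lg 0 false 4 89 89 16 0 48)
  .out)) (.nr 855 46342 (.nr 852 257 (.lg 0 true 3 61 61 16 0 72) (.nx 854 104033 (.lg 2 false 2 79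
  79 16 36916 48) .out)) .out))) .out) .out) (.nx 873 1664512 (.nr 872 881745 (.nr 859 48 .s1 (.nx
  865 20644 (.nx 860 257 (.l1 (.ls 71 31 1350)) (.nr 864 623489 (.lg 0 false 4 89 89 16 0 1680)
  .out)) (.nr 871 46342 (.nr 868 257 (.lg 0 true 3 61 61 16 0 504) (.nx 870 104033 (.lg 2 true 2 79
  79 16 36916 1680) .out)) .out))) .out) .out)) (.na 889 58 (.nx 888 1664512 (.nr 887 881745 (.nr
  875 49 .s1 (.nx 876 257 (.l1 (.ls 73 41 1323)) (.nr 886 623489 (.nx 879 20644 (.lg 0 false 3 89
  89 19 0 5040) (.nr 885 46342 (.nr 882 257 (.lg 0 true 3 61 61 19 0 720) (.nx 884 104033 (.lg 2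
  false 2 79 79 19 36916 1680) .out)) .out)) .out))) .out) .out) (.na 903 62 (.nx 902 1664512 (.nr
  901 881745 (.nr 890 57 .s1 (.nx 895 20644 (.nx 891 257 (.l1 (.ls 73 41 1141)) (.nr 894 623489
  (.lg 0 false 3 89 89 19 0 144) .out)) (.nr 900 46342 (.nr 897 257 (.lg 0 true 2 61 61 13 0 48)
  (.nx 899 104033 (.lg 2 false 2 79 79 13 36916 48) .out)) .out))) .out) .out) (.nx 916 1664512
  (.nr 915 881745 (.nr 904 61 .s1 (.nx 905 257 (.l1 (.ls 73 37 1068)) (.nr 914 623489 (.nx 908
  20644 (.lg 0 false 3 89 89 19 0 144) (.nr 913 46342 (.nr 910 257 (.lg 0 true 2 67 67 17 0 48)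
  (.nx 912 104033 (.lg 2 false 2 79 79 17 36916 48) .out)) .out)) .out))) .out) .out)))))) (.na
  1049 127 (.na 978 94 (.na 933 70 (.na 918 65 .ne (.nx 932 1664512 (.nr 931 524289 (.nr 919 64 .s1
  (.nx 922 182 (.nx 921 181 (.nr 920 667 (.l1 (.ls 23 29 507)) (.l1 .sk)) (.l1 .sk)) (.nx 925 20644
  (.lg 0 false 3 83 89 19 0 32760) (.nr 930 32769 (.nr 928 513 (.lg 0 true 3 71 71 19 0 4680) (.nx
  929 104033 (.lg 2 false 1 73 73 17 26146 1560) .out)) .out)))) .out) .out)) (.na 947 74 (.nx 946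
  1664512 (.nr 945 524289 (.nr 934 69 .s1 (.nx 936 181 (.nr 935 705 (.l1 (.ls 29 37 471)) (.l1
  .sk)) (.nx 937 182 (.l1 .sk) (.nx 940 20644 (.lg 0 false 3 89 89 29 0 5040) (.nr 944 32769 (.nr
  942 513 (.lg 0 true 2 71 71 29 0 1680) (.nx 943 104033 (.lg 2 true 1 79 79 23 26146 1680) .out))
  .out))))) .out) .out) (.na 962 91 (.nx 961 1664512 (.nr 960 524289 (.nr 948 73 .s1 (.nx 954 20644
  (.nx 950 181 (.nr 949 867 (.l1 (.ls 19 29 445)) (.l1 .sk)) (.nx 951 182 (.l1 .sk) (.lg 0 false 3
  89 89 19 0 720))) (.nr 959 32769 (.nr 957 513 (.lg 0 true 3 67 67 19 0 144) (.nx 958 104033 (.lg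
  2 true 1 73 73 13 26146 240) .out)) .out))) .out) .out) (.nx 977 1664512 (.nr 976 1048577 (.nr
  963 91 .s1 (.nx 973 104033 (.nx 965 181 (.nr 964 896 (.l1 (.ls 29 29 363)) (.l1 .sk)) (.nx 966
  182 (.l1 .sk) (.nx 969 13005 (.lg 0 false 3 83 83 23 0 6552) (.nr 972 65537 (.nr 970 32769 (.lg 0
  false 1 79 79 19 0 2184) (.nx 971 20644 (.lg 0 false 1 71 71 19 0 2184) .out)) .out)))) (.nr 975
  513 (.lg 0 true 2 71 71 19 0 4368) .out))) .out) .out)))) (.na 1007 98 (.na 993 95 (.nx 992
  1664512 (.nr 991 1048577 (.nr 979 94 .s1 (.nx 982 182 (.nx 981 181 (.nr 980 905 (.l1 (.ls 19 29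
  351)) (.l1 .sk)) (.l1 .sk)) (.nr 987 65537 (.nx 984 104033 (.lg 0 true 2 83 83 19 0 240) (.nr 986
  513 (.lg 0 true 2 61 61 19 0 48) .out)) (.nx 990 13005 (.lg 0 false 3 83 83 19 0 144) .out))))
  .out) .out) (.nx 1006 1664512 (.nr 1005 1048577 (.nr 994 95 .s1 (.nx 996 181 (.nr 995 934 (.l1
  (.ls 17 29 347)) (.l1 .sk)) (.nx 997 182 (.l1 .sk) (.nx 1002 104033 (.nx 1000 13005 (.lg 0 false
  3 83 83 17 0 360) (.nr 1001 65537 (.lg 0 false 1 83 83 17 0 120) .out)) (.nr 1004 513 (.lg 0 true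
  2 71 71 17 0 240) .out))))) .out) .out)) (.na 1021 101 (.nx 1020 1664512 (.nr 1019 1048577 (.nr
  1008 98 .s1 (.nx 1014 20644 (.nx 1010 181 (.nr 1009 963 (.l1 (.ls 19 31 337)) (.l1 .sk)) (.nx
  1011 182 (.l1 .sk) (.lg 0 false 3 83 83 23 0 1008))) (.nr 1018 32769 (.nr 1016 513 (.lg 0 true 2
  59 59 23 0 336) (.nx 1017 104033 (.lg 2 true 1 71 71 19 26146 1680) .out)) .out))) .out) .out)
  (.na 1035 107 (.nx 1034 1664512 (.nr 1033 1048577 (.nr 1022 101 .s1 (.nx 1025 182 (.nx 1024 181
  (.nr 1023 1020 (.l1 (.ls 17 19 327)) (.l1 .sk)) (.l1 .sk)) (.nx 1028 20644 (.lg 0 false 3 79 79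
  16 0 360) (.nr 1032 32769 (.nr 1030 513 (.lg 0 true 2 59 59 16 0 48) (.nx 1031 104033 (.lg 2 true
  1 61 61 16 26146 24) .out)) .out)))) .out) .out) (.nx 1048 1664512 (.nr 1047 1048577 (.nr 1036
  107 .s1 (.nx 1039 182 (.nx 1038 181 (.nr 1037 1210 (.l1 (.ls 19 19 309)) (.l1 .sk)) (.l1 .sk))
  (.nx 1042 20644 (.lg 0 false 3 79 79 16 0 72) (.nr 1046 32769 (.nr 1044 513 (.lg 0 true 2 59 59
  16 0 48) (.nx 1045 104033 (.lg 2 true 1 67 67 16 26146 24) .out)) .out)))) .out) .out))))) (.na
  1086 142 (.na 1063 130 (.na 1062 128 (.nx 1061 1664512 (.nr 1060 1048577 (.nr 1050 127 .s1 (.nx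
  1056 20644 (.nx 1052 181 (.nr 1051 1220 (.l1 (.ls 17 17 260)) (.l1 .sk)) (.nx 1053 182 (.l1 .sk)
  (.lg 0 false 3 73 73 17 0 72))) (.nr 1059 32769 (.nr 1057 513 (.lg 0 false 1 61 61 16 0 24) (.nx
  1058 104033 (.lg 2 true 1 61 61 16 26146 24) .out)) .out))) .out) .out) .ne) (.na 1074 133 (.nx
  1073 832257 (.nr 1072 1048577 (.nr 1064 130 .s1 (.nx 1068 13005 (.nx 1065 257 (.l1 (.ls 73 37
  511)) (.nr 1067 741457 (.lg 0 false 2 79 83 31 0 3120) .out)) (.nr 1071 16385 (.nx 1069 104033
  (.lg 0 true 1 73 73 29 0 3120) (.nr 1070 1025 (.lg 0 true 1 67 67 29 0 3120) .out)) .out))) .out)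
  .out) (.na 1085 139 (.nx 1084 832257 (.nr 1083 1048577 (.nr 1075 133 .s1 (.nx 1081 104033 (.nx
  1076 257 (.l1 (.ls 73 29 499)) (.nr 1080 741457 (.nx 1078 13005 (.lg 0 false 2 83 83 17 0 336)
  (.nr 1079 16385 (.lg 0 true 1 73 73 17 0 168) .out)) .out)) (.nr 1082 1025 (.lg 0 true 1 67 67 17
  0 168) .out))) .out) .out) (.lg 0 false 1 0 0 16 0 24)))) (.na 1107 146 (.na 1097 145 (.nx 1096
  832257 (.nr 1095 1048577 (.nr 1087 142 .s1 (.nx 1088 257 (.l1 (.ls 61 29 468)) (.nr 1094 741457
  (.nr 1091 16385 (.lg 0 true 3 79 79 23 0 144) (.nx 1093 13005 (.lg 0 false 2 73 73 23 0 48)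
  .out)) .out))) .out) .out) (.nx 1106 832257 (.nr 1105 1048577 (.nr 1098 145 .s1 (.nx 1099 257
  (.l1 (.ls 71 23 458)) (.nr 1104 741457 (.nx 1102 104033 (.nx 1100 13005 (.lg 0 false 1 79 79 17 0
  120) (.nr 1101 16385 (.lg 0 true 1 71 71 17 0 120) .out)) (.nr 1103 1025 (.lg 0 true 1 61 61 17 0
  120) .out)) .out))) .out) .out)) (.na 1117 149 (.nx 1116 832257 (.nr 1115 1048577 (.nr 1108 146
  .s1 (.nx 1109 257 (.l1 (.ls 67 29 455)) (.nr 1114 741457 (.nr 1112 16385 (.lg 0 true 3 79 79 23 0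
  144) (.nx 1113 13005 (.lg 0 true 1 83 83 19 0 48) .out)) .out))) .out) .out) (.na 1118 155 (.lg 0
  false 1 0 0 16 0 24) (.nx 1127 832257 (.nr 1126 1048577 (.nr 1119 155 .s1 (.nx 1124 104033 (.nx
  1120 257 (.l1 (.ls 71 23 429)) (.nr 1123 741457 (.nx 1121 13005 (.lg 0 false 1 79 79 17 0 120)
  (.nr 1122 16385 (.lg 0 true 1 73 73 17 0 840) .out)) .out)) (.nr 1125 1025 (.lg 0 true 1 61 61 17
  0 120) .out))) .out) .out))))))) (.na 1298 250 (.na 1221 203 (.na 1179 190 (.na 1147 175 (.na
  1138 166 (.nx 1137 832257 (.nr 1136 1048577 (.nr 1129 161 .s1 (.nx 1132 13005 (.nx 1130 257 (.l1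
  (.ls 71 19 413)) (.nr 1131 741457 (.lg 0 false 1 79 79 17 0 168) .out)) (.nr 1135 16385 (.nx 1133
  104033 (.lg 0 true 1 71 71 17 0 168) (.nr 1134 1025 (.lg 0 true 1 61 61 17 0 168) .out)) .out)))
  .out) .out) (.nx 1146 832257 (.nr 1145 1048577 (.nr 1139 166 .s1 (.nx 1140 257 (.l1 (.ls 61 29
  400)) (.nr 1144 741457 (.nr 1142 16385 (.lg 0 true 2 71 71 23 0 48) (.nx 1143 13005 (.lg 0 true 1
  73 73 19 0 48) .out)) .out))) .out) .out)) (.na 1157 181 (.nx 1156 832257 (.nr 1155 1048577 (.nr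
  1148 175 .s1 (.nx 1149 257 (.l1 (.ls 67 29 380)) (.nr 1154 741457 (.nx 1152 104033 (.nx 1150
  13005 (.lg 0 false 1 73 73 19 0 840) (.nr 1151 16385 (.lg 0 true 1 67 67 19 0 840) .out)) (.nr
  1153 1025 (.lg 0 true 1 59 59 19 0 840) .out)) .out))) .out) .out) (.na 1169 182 (.nx 1168 832257
  (.nr 1167 1048577 (.nr 1158 181 .s1 (.nx 1163 13005 (.nx 1159 257 (.l1 (.ls 71 19 367)) (.nr 1162
  741457 (.lg 0 true 3 61 61 17 0 72) .out)) (.nr 1166 16385 (.lg 0 false 3 67 67 17 0 2520)
  .out))) .out) .out) (.nx 1178 832257 (.nr 1177 1048577 (.nr 1170 182 .s1 (.nx 1173 13005 (.nx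
  1171 257 (.l1 (.ls 73 37 365)) (.nr 1172 741457 (.lg 0 false 1 83 83 31 0 4368) .out)) (.nr 1176
  16385 (.nx 1174 104033 (.lg 0 true 1 73 73 31 0 4368) (.nr 1175 1025 (.lg 0 true 1 67 67 31 0
  4368) .out)) .out))) .out) .out)))) (.na 1197 193 (.na 1189 191 (.nx 1188 832257 (.nr 1187
  1048577 (.nr 1180 190 .s1 (.nx 1185 104033 (.nx 1183 13005 (.nx 1181 257 (.l1 (.ls 73 37 350))
  (.nr 1182 741457 (.lg 0 true 1 89 89 31 0 5040) .out)) (.nr 1184 16385 (.lg 0 true 1 73 73 31 0
  240) .out)) (.nr 1186 1025 (.lg 0 true 1 67 67 31 0 240) .out))) .out) .out) (.nx 1196 832257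
  (.nr 1195 1048577 (.nr 1190 191 .s1 (.nx 1191 257 (.l1 (.ls 59 19 348)) (.nr 1194 741457 (.nr
  1192 16385 (.lg 0 false 1 73 73 16 0 24) (.nx 1193 13005 (.lg 0 true 1 71 71 16 0 24) .out))
  .out))) .out) .out)) (.na 1205 197 (.nx 1204 832257 (.nr 1203 1048577 (.nr 1198 193 .s1 (.nx 1199
  257 (.l1 (.ls 59 19 345)) (.nr 1202 741457 (.nr 1200 16385 (.lg 0 false 1 71 71 16 0 24) (.nx
  1201 13005 (.lg 0 true 1 71 71 16 0 120) .out)) .out))) .out) .out) (.na 1213 202 (.nx 1212
  832257 (.nr 1211 1048577 (.nr 1206 197 .s1 (.nx 1207 257 (.l1 (.ls 79 19 338)) (.nr 1210 741457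
  (.nr 1208 16385 (.lg 0 false 1 73 73 16 0 24) (.nx 1209 13005 (.lg 0 true 1 73 73 16 0 2520)
  .out)) .out))) .out) .out) (.nx 1220 832257 (.nr 1219 1048577 (.nr 1214 202 .s1 (.nx 1215 257
  (.l1 (.ls 61 29 329)) (.nr 1218 741457 (.nr 1216 16385 (.lg 0 false 1 73 73 23 0 48) (.nx 1217
  13005 (.lg 0 true 1 73 73 23 0 48) .out)) .out))) .out) .out))))) (.na 1256 230 (.na 1239 214
  (.na 1231 206 (.nx 1230 832257 (.nr 1229 1048577 (.nr 1222 203 .s1 (.nx 1227 104033 (.nx 1225
  13005 (.nx 1223 257 (.l1 (.ls 71 23 328)) (.nr 1224 741457 (.lg 0 false 1 79 79 19 0 168) .out))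
  (.nr 1226 16385 (.lg 0 true 1 71 71 19 0 168) .out)) (.nr 1228 1025 (.lg 0 true 1 61 61 19 0 168)
  .out))) .out) .out) (.nx 1238 832257 (.nr 1237 1048577 (.nr 1232 206 .s1 (.nx 1233 257 (.l1 (.ls
  73 29 323)) (.nr 1236 741457 (.nr 1234 16385 (.lg 0 false 1 73 73 23 0 48) (.nx 1235 13005 (.lg 0
  true 1 73 73 23 0 48) .out)) .out))) .out) .out)) (.na 1247 223 (.nx 1246 832257 (.nr 1245
  1048577 (.nr 1240 214 .s1 (.nx 1241 257 (.l1 (.ls 61 29 311)) (.nr 1244 741457 (.nr 1242 16385
  (.lg 0 false 1 73 73 23 0 240) (.nx 1243 13005 (.lg 0 true 1 71 71 23 0 48) .out)) .out))) .out)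
  .out) (.na 1248 229 (.lg 0 false 1 0 0 16 0 24) (.nx 1255 832257 (.nr 1254 1048577 (.nr 1249 229
  .s1 (.nx 1250 257 (.l1 (.ls 73 19 291)) (.nr 1253 741457 (.nr 1251 16385 (.lg 0 false 1 71 71 17
  0 24) (.nx 1252 13005 (.lg 0 true 1 71 71 17 0 24) .out)) .out))) .out) .out)))) (.na 1274 239
  (.na 1264 235 (.nx 1263 832257 (.nr 1262 1048577 (.nr 1257 230 .s1 (.nx 1258 257 (.l1 (.ls 71 37
  290)) (.nr 1261 741457 (.nr 1259 16385 (.lg 0 false 1 83 83 31 0 1680) (.nx 1260 13005 (.lg 0
  false 1 79 79 31 0 240) .out)) .out))) .out) .out) (.nx 1273 832257 (.nr 1272 1048577 (.nr 1265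
  235 .s1 (.nx 1266 257 (.l1 (.ls 71 19 284)) (.nr 1271 741457 (.nx 1267 13005 (.lg 0 false 1 73 73
  19 0 120) (.nr 1270 16385 (.nx 1268 104033 (.lg 0 true 1 67 67 19 0 120) (.nr 1269 1025 (.lg 0
  true 1 59 59 19 0 120) .out)) .out)) .out))) .out) .out)) (.na 1282 241 (.nx 1281 832257 (.nr
  1280 1048577 (.nr 1275 239 .s1 (.nx 1276 257 (.l1 (.ls 59 19 279)) (.nr 1279 741457 (.nr 1277
  16385 (.lg 0 false 1 71 71 17 0 24) (.nx 1278 13005 (.lg 0 true 1 71 71 17 0 840) .out)) .out)))
  .out) .out) (.na 1290 245 (.nx 1289 832257 (.nr 1288 1048577 (.nr 1283 241 .s1 (.nx 1284 257 (.l1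
  (.ls 53 19 277)) (.nr 1287 741457 (.nr 1285 16385 (.lg 0 false 1 71 71 17 0 120) (.nx 1286 13005
  (.lg 0 true 1 67 67 17 0 120) .out)) .out))) .out) .out) (.nx 1297 832257 (.nr 1296 1048577 (.nr
  1291 245 .s1 (.nx 1292 257 (.l1 (.ls 67 23 272)) (.nr 1295 741457 (.nr 1293 16385 (.lg 0 true 1
  73 73 23 0 840) (.nx 1294 13005 (.lg 0 false 1 73 73 23 0 840) .out)) .out))) .out) .out))))))
  (.na 5657 2897 (.na 2111 512 (.na 1307 254 (.na 1306 251 (.nx 1305 832257 (.nr 1304 1048577 (.nr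
  1299 250 .s1 (.nx 1300 257 (.l1 (.ls 61 31 267)) (.nr 1303 741457 (.nr 1301 16385 (.lg 0 false 1
  73 73 29 0 240) (.nx 1302 13005 (.lg 0 true 1 73 73 29 0 240) .out)) .out))) .out) .out) (.lg 0
  false 1 0 0 16 0 24)) (.na 1315 256 (.nx 1314 832257 (.nr 1313 1048577 (.nr 1308 254 .s1 (.nx
  1309 257 (.l1 (.ls 61 29 263)) (.nr 1312 741457 (.nr 1310 16385 (.lg 0 false 1 71 71 23 0 48)
  (.nx 1311 13005 (.lg 0 true 1 71 71 23 0 48) .out)) .out))) .out) .out) (.na 1316 257 .ne (.nx
  2110 832257 (.nr 2109 1482912 (.nr 1317 257 .s1 (.nx 1597 205 (.nx 1573 181 (.nr 1572 4878 (.la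
  (.ls 41 19 130)) (.l1 .sk)) (.nx 1574 182 (.l1 .sk) (.lx (.lp 83 17 129)))) (.nr 2108 1048577
  (.nr 1852 32769 (.la (.lg 0 false 1 73 73 23 0)) (.nx 2107 10323 (.la (.lg 0 false 1 67 67 23 0))
  .out)) .out))) .out) .out)))) (.na 3349 1024 (.na 2747 725 (.nx 2746 832257 (.nr 2745 1482912
  (.nr 2112 512 .s1 (.nx 2531 22297 (.nx 2293 181 (.nr 2292 6907 (.lx (.lp 41 19 182)) (.l1 .sk))
  (.nx 2294 182 (.l1 .sk) (.nx 2317 205 (.lx (.lp 79 17 182)) (.nr 2530 1048577 (.la (.lg 0 false 1
  67 67 29 0)) .out)))) (.nr 2744 32769 (.la (.lg 2 true 1 59 59 29 147108)) .out))) .out) .out)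
  (.nx 3348 10323 (.nr 3347 1048577 (.nr 2748 725 .s1 (.nx 3047 2049 (.la (.ls 61 41 5793)) (.nr
  3346 16385 (.la (.lg 0 true 1 31 31 29 0)) .out))) .out) .out)) (.na 4203 1449 (.nx 4202 10323
  (.nr 4201 1048577 (.nr 3350 1024 .s1 (.nx 3775 2582 (.la (.ls 59 41 6513)) (.nr 4200 16385 (.la
  (.lg 0 false 1 29 29 31 0)) .out))) .out) .out) (.na 4805 2048 (.nx 4804 2582 (.nr 4803 524289
  (.nr 4204 1449 .s1 (.la (.ls 73 37 4603))) .out) .out) (.nx 5656 3252 (.nr 5655 524289 (.nr 4806
  2048 .s1 (.la (.ls 71 41 5166))) .out) .out))))) (.na 12625 32768 (.na 8741 5793 (.na 6859 4096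
  (.nx 6858 2582 (.nr 6857 262145 (.nr 5658 2897 .s1 (.la (.ls 59 37 2304))) .out) .out) (.nx 8740
  2582 (.nr 8739 262145 (.nr 6860 4096 .s1 (.nx 7041 181 (.nr 7040 55186 (.lx (.lp 16 0 1449)) (.l1
  .sk)) (.nx 7042 182 (.l1 .sk) (.la (.ls 53 37 1622))))) .out) .out)) (.na 10035 8192 (.nx 10034
  1292 (.nr 10033 65537 (.nr 8742 5793 .s1 (.lx (.lp 43 37 2049))) .out) .out) (.na 11330 16384
  (.nx 11329 1292 (.nr 11328 131073 (.nr 10036 8192 .s1 (.nx 10240 205 (.lx (.lp 16 0 4097)) (.nr
  11327 65537 (.lx (.lp 41 41 4097)) .out))) .out) .out) (.nx 12624 1292 (.nr 12623 262145 (.nr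
  11331 16384 .s1 (.nx 11535 205 (.lx (.lp 47 43 8193)) (.nr 12622 131073 (.lx (.lp 41 43 8193))
  .out))) .out) .out)))) (.na 14680 131072 (.na 13653 65536 (.nx 13652 1025 (.nr 13651 262145 (.nr
  12626 32768 .s1 (.nx 12830 205 (.lx (.lp 16 0 16385)) (.nr 13650 131073 (.lx (.lp 37 47 16385))
  .out))) .out) .out) (.nx 14679 1025 (.nr 14678 262145 (.nr 13654 65536 .s1 (.lx (.lp 41 53
  32769))) .out) .out)) (.na 14682 262144 (.nx 14681 324 (.l1 .sk) .out) (.na 14684 524289 (.nx
  14683 205 (.l1 .sk) .out) .out)))))))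

def T12_1 : Ph :=
  (.na 717 162 (.na 438 97 (.na 245 63 (.na 139 49 (.na 66 43 (.na 23 34 (.nx 22 1664512 (.nr 21
  881745 (.nr 1 31 .s1 (.nx 4 162 (.nx 3 161 (.nr 2 306 (.lg 0 true 1 37 37 16 0 1275120) (.l1
  .sk)) (.l1 .sk)) (.nx 16 104033 (.nx 13 26009 (.nx 5 257 (.l1 (.ls 89 37 1209)) (.nr 12 440873
  (.nx 9 10323 (.lg 0 false 4 97 101 19 0 1275120) (.nr 11 110219 (.lg 0 false 2 101 101 17 0
  1275120) .out)) .out)) (.nr 15 32769 (.nr 14 1984 (.lg 0 false 1 83 83 16 0 637560) (.lg 2 true 1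
  89 89 16 16410 127512)) .out)) (.nr 20 257 (.lg 0 true 4 79 79 19 0 255024) .out)))) .out) .out)
  (.na 45 42 (.nx 44 1664512 (.nr 43 881745 (.nr 24 32 .s1 (.nx 28 257 (.nx 26 161 (.nr 25 378 (.l1
  (.ls 37 37 765)) (.l1 .sk)) (.nx 27 162 (.l1 .sk) (.l1 (.ls 83 41 1173)))) (.nr 42 440873 (.nx 33
  20644 (.lg 0 false 5 101 101 13 0 115920) (.nr 41 46342 (.nr 38 257 (.lg 0 true 5 73 73 13 0
  115920) (.nx 40 104033 (.lg 2 true 2 97 97 13 32587 23184) .out)) .out)) .out))) .out) .out) (.nx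
  65 1664512 (.nr 64 881745 (.nr 46 41 .s1 (.nx 50 257 (.nx 48 161 (.nr 47 387 (.l1 (.ls 29 41
  620)) (.l1 .sk)) (.nx 49 162 (.l1 .sk) (.l1 (.ls 79 41 950)))) (.nr 63 440873 (.nx 55 20644 (.lg
  0 false 5 89 97 29 0 115920) (.nr 62 46342 (.nr 59 257 (.lg 0 true 4 71 71 29 0 23184) (.nx 61
  104033 (.lg 2 true 2 89 89 23 32587 115920) .out)) .out)) .out))) .out) .out))) (.na 106 46 (.na
  86 45 (.nx 85 1664512 (.nr 84 881745 (.nr 67 42 .s1 (.nx 70 162 (.nx 69 161 (.nr 68 405 (.l1 (.ls
  19 19 605)) (.l1 .sk)) (.l1 .sk)) (.nx 76 20644 (.nx 71 257 (.l1 (.ls 79 23 928)) (.nr 75 440873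
  (.lg 0 false 4 97 97 16 0 23184) .out)) (.nr 83 46342 (.nr 80 257 (.lg 0 true 4 71 71 16 0 23184)
  (.nx 82 104033 (.lg 2 true 2 89 89 16 32587 23184) .out)) .out)))) .out) .out) (.nx 105 1664512
  (.nr 104 881745 (.nr 87 44 .s1 (.nx 89 161 (.nr 88 414 (.l1 (.ls 31 29 579)) (.l1 .sk)) (.nx 90
  162 (.l1 .sk) (.nx 98 26009 (.nx 96 10323 (.nx 91 257 (.l1 (.ls 83 31 887)) (.nr 95 440873 (.lg 0
  false 4 89 97 19 0 115920) .out)) (.nr 97 110219 (.lg 0 true 1 97 97 17 0 637560) .out)) (.nr 103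
  32769 (.nr 101 414 (.lg 0 true 3 73 73 19 0 57960) (.nx 102 104033 (.lg 2 true 1 83 83 17 20229
  57960) .out)) .out))))) .out) .out)) (.na 123 47 (.nx 122 1664512 (.nr 121 881745 (.nr 107 45 .s1
  (.nx 114 20644 (.nx 108 257 (.l1 (.ls 73 41 1438)) (.nr 113 623489 (.lg 0 false 5 89 89 13 0
  115920) .out)) (.nr 120 46342 (.nr 116 257 (.lg 0 false 2 71 71 13 0 23184) (.nx 119 104033 (.lg
  2 true 3 73 73 13 32587 23184) .out)) .out))) .out) .out) (.nx 138 1664512 (.nr 137 881745 (.nr
  124 46 .s1 (.nx 130 20644 (.nx 125 257 (.l1 (.ls 79 29 1408)) (.nr 129 623489 (.lg 0 false 4 101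
  101 16 0 115920) .out)) (.nr 136 46342 (.nr 133 257 (.lg 0 true 3 67 67 16 0 11592) (.nx 135
  104033 (.lg 2 true 2 89 89 16 32587 23184) .out)) .out))) .out) .out)))) (.na 175 54 (.na 140 50
  (.lg 0 false 1 0 0 16 0 24) (.na 155 51 (.nx 154 1664512 (.nr 153 881745 (.nr 141 49 .s1 (.nx 142
  257 (.l1 (.ls 83 41 1323)) (.nr 152 623489 (.nx 145 20644 (.lg 0 false 3 97 97 19 0 115920) (.nr
  151 46342 (.nr 148 257 (.lg 0 true 3 67 67 19 0 115920) (.nx 150 104033 (.lg 2 true 2 83 83 19
  32587 115920) .out)) .out)) .out))) .out) .out) (.nx 174 1664512 (.nr 173 881745 (.nr 156 50 .s1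
  (.nx 159 162 (.nx 158 161 (.nr 157 486 (.l1 (.ls 37 29 511)) (.l1 .sk)) (.l1 .sk)) (.nx 165 13005
  (.nx 160 257 (.l1 (.ls 83 31 783)) (.nr 164 623489 (.lg 0 false 4 97 101 23 0 115920) .out)) (.nr
  172 110219 (.nr 170 32769 (.nr 168 257 (.lg 0 true 3 73 73 19 0 11592) (.nx 169 104033 (.lg 2
  false 1 89 89 16 32819 11592) .out)) (.nx 171 26009 (.lg 0 true 1 97 97 16 0 57960) .out))
  .out)))) .out) .out))) (.na 212 58 (.na 192 55 (.nx 191 1664512 (.nr 190 881745 (.nr 176 53 .s1
  (.nx 183 20644 (.nx 177 257 (.l1 (.ls 79 41 1226)) (.nr 182 623489 (.lg 0 false 5 89 97 23 0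
  115920) .out)) (.nr 189 46342 (.nr 186 257 (.lg 0 true 3 67 67 23 0 23184) (.nx 188 104033 (.lg 2
  true 2 83 83 19 32587 23184) .out)) .out))) .out) .out) (.nx 211 1664512 (.nr 210 881745 (.nr 193
  54 .s1 (.nx 202 13005 (.nx 197 257 (.nx 195 161 (.nr 194 522 (.l1 (.ls 37 29 474)) (.l1 .sk))
  (.nx 196 162 (.l1 .sk) (.l1 (.ls 83 29 726)))) (.nr 201 623489 (.lg 0 false 4 97 101 19 0
  1275120) .out)) (.nr 209 110219 (.nr 207 32769 (.nr 205 257 (.lg 0 true 3 73 73 19 0 637560) (.nx
  206 104033 (.lg 2 true 1 89 89 17 32819 637560) .out)) (.nx 208 26009 (.lg 0 true 1 89 89 17 0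
  637560) .out)) .out))) .out) .out)) (.na 228 62 (.nx 227 1664512 (.nr 226 881745 (.nr 213 57 .s1
  (.nx 214 257 (.l1 (.ls 83 41 1141)) (.nr 225 623489 (.nx 219 20644 (.lg 0 false 5 97 97 19 0
  115920) (.nr 224 46342 (.nr 221 257 (.lg 0 true 2 71 71 13 0 23184) (.nx 223 104033 (.lg 2 true 2
  83 83 13 32587 23184) .out)) .out)) .out))) .out) .out) (.nx 244 1664512 (.nr 243 881745 (.nr 229
  61 .s1 (.nx 236 20644 (.nx 230 257 (.l1 (.ls 83 37 1068)) (.nr 235 623489 (.lg 0 false 5 97 97 19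
  0 115920) .out)) (.nr 242 46342 (.nr 239 566 (.lg 0 true 3 73 73 19 0 23184) (.nx 241 104033 (.lg
  2 true 2 83 83 17 29196 23184) .out)) .out))) .out) .out))))) (.na 338 81 (.na 277 70 (.na 261 64
  (.nx 260 1664512 (.nr 259 881745 (.nr 246 62 .s1 (.nx 252 20644 (.nx 247 257 (.l1 (.ls 73 31
  1051)) (.nr 251 623489 (.lg 0 false 4 89 89 19 0 23184) .out)) (.nr 258 46342 (.nr 256 575 (.lg 0
  true 4 71 71 19 0 23184) (.nx 257 104033 (.lg 2 true 1 83 83 17 29196 57960) .out)) .out))) .out)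
  .out) (.na 262 66 .ne (.nx 276 1664512 (.nr 275 524289 (.nr 263 65 .s1 (.nx 265 161 (.nr 264 629
  (.l1 (.ls 37 37 395)) (.l1 .sk)) (.nx 266 162 (.l1 .sk) (.nx 268 13005 (.lg 0 false 2 101 101 29
  0 1275120) (.nr 274 65537 (.nx 269 20644 (.lg 0 true 1 83 83 29 0 255024) (.nr 273 32769 (.nr 271
  513 (.lg 0 true 2 79 79 29 0 255024) (.nx 272 104033 (.lg 2 true 1 89 89 29 20675 1275120) .out))
  .out)) .out))))) .out) .out))) (.na 307 77 (.na 292 75 (.nx 291 1664512 (.nr 290 524289 (.nr 278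
  69 .s1 (.nx 284 20644 (.nx 280 161 (.nr 279 674 (.l1 (.ls 29 37 373)) (.l1 .sk)) (.nx 281 162
  (.l1 .sk) (.lg 0 false 3 89 89 29 0 115920))) (.nr 289 32769 (.nr 287 513 (.lg 0 true 3 71 71 29
  0 115920) (.nx 288 104033 (.lg 2 true 1 79 79 23 20675 115920) .out)) .out))) .out) .out) (.nx
  306 1664512 (.nr 305 524289 (.nr 293 74 .s1 (.nx 295 161 (.nr 294 692 (.l1 (.ls 31 29 348)) (.l1
  .sk)) (.nx 296 162 (.l1 .sk) (.nx 300 20644 (.lg 0 false 4 89 97 23 0 115920) (.nr 304 32769 (.nr
  302 513 (.lg 0 true 2 73 73 19 0 115920) (.nx 303 104033 (.lg 2 true 1 79 79 17 20675 57960)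
  .out)) .out))))) .out) .out)) (.na 322 79 (.nx 321 1664512 (.nr 320 524289 (.nr 308 76 .s1 (.nx
  314 20644 (.nx 310 161 (.nr 309 710 (.l1 (.ls 29 23 339)) (.l1 .sk)) (.nx 311 162 (.l1 .sk) (.lg
  0 false 3 89 89 19 0 637560))) (.nr 319 32769 (.nr 317 513 (.lg 0 true 3 67 67 19 0 127512) (.nx
  318 104033 (.lg 2 true 1 79 79 17 20675 637560) .out)) .out))) .out) .out) (.nx 337 1664512 (.nr
  336 524289 (.nr 323 78 .s1 (.nx 330 20644 (.nx 325 161 (.nr 324 728 (.l1 (.ls 29 19 331)) (.l1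
  .sk)) (.nx 326 162 (.l1 .sk) (.lg 0 false 4 97 97 16 0 115920))) (.nr 335 32769 (.nr 333 513 (.lg
  0 true 3 67 67 16 0 11592) (.nx 334 104033 (.lg 2 true 1 79 79 16 20675 57960) .out)) .out)))
  .out) .out)))) (.na 395 89 (.na 369 86 (.na 355 85 (.nx 354 1664512 (.nr 353 524289 (.nr 339 81
  .s1 (.nx 342 162 (.nx 341 161 (.nr 340 764 (.l1 (.ls 29 23 323)) (.l1 .sk)) (.l1 .sk)) (.nx 346
  20644 (.lg 0 true 4 83 83 19 0 115920) (.nr 352 32769 (.nx 348 104033 (.lg 0 false 2 79 79 17 0
  23184) (.nr 351 513 (.lg 0 true 3 67 67 17 0 11592) .out)) .out)))) .out) .out) (.nx 368 1664512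
  (.nr 367 524289 (.nr 356 85 .s1 (.nx 359 162 (.nx 358 161 (.nr 357 773 (.l1 (.ls 37 23 307)) (.l1
  .sk)) (.l1 .sk)) (.nx 362 20644 (.lg 0 false 3 89 97 23 0 57960) (.nr 366 32769 (.nr 364 513 (.lg
  0 true 2 79 79 16 0 115920) (.nx 365 104033 (.lg 2 true 1 79 79 16 20675 57960) .out)) .out))))
  .out) .out)) (.na 382 87 (.nx 381 1664512 (.nr 380 524289 (.nr 370 86 .s1 (.nx 376 20644 (.nx 372
  161 (.nr 371 782 (.l1 (.ls 29 29 304)) (.l1 .sk)) (.nx 373 162 (.l1 .sk) (.lg 0 false 3 89 89 19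
  0 23184))) (.nr 379 32769 (.nr 377 513 (.lg 0 false 1 79 79 13 0 115920) (.nx 378 104033 (.lg 2
  true 1 79 79 13 20675 115920) .out)) .out))) .out) .out) (.nx 394 1664512 (.nr 393 524289 (.nr
  383 87 .s1 (.nx 385 161 (.nr 384 800 (.l1 (.ls 19 23 300)) (.l1 .sk)) (.nx 386 162 (.l1 .sk) (.nx
  388 20644 (.lg 0 false 2 101 103 19 0 1275120) (.nr 392 32769 (.nr 390 513 (.lg 0 true 2 79 79 19
  0 23184) (.nx 391 104033 (.lg 2 true 1 83 83 17 20675 11592) .out)) .out))))) .out) .out))) (.na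
  423 91 (.na 410 90 (.nx 409 1664512 (.nr 408 524289 (.nr 396 89 .s1 (.nx 402 20644 (.nx 398 161
  (.nr 397 809 (.l1 (.ls 29 17 294)) (.l1 .sk)) (.nx 399 162 (.l1 .sk) (.lg 0 false 3 83 83 16 0
  11592))) (.nr 407 32769 (.nr 405 809 (.lg 0 true 3 71 71 16 0 11592) (.nx 406 104033 (.lg 2 true
  1 73 73 16 20675 11592) .out)) .out))) .out) .out) (.nx 422 1664512 (.nr 421 524289 (.nr 411 90
  .s1 (.nx 414 162 (.nx 413 161 (.nr 412 818 (.l1 (.ls 37 37 291)) (.l1 .sk)) (.l1 .sk)) (.nx 416
  20644 (.lg 0 false 2 97 97 31 0 115920) (.nr 420 32769 (.nr 418 513 (.lg 0 true 2 73 73 31 0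
  115920) (.nx 419 104033 (.lg 2 true 1 79 79 29 20675 115920) .out)) .out)))) .out) .out)) (.na
  424 94 .ne (.nx 437 1664512 (.nr 436 1048577 (.nr 425 94 .s1 (.nx 434 104033 (.nx 427 161 (.nr
  426 872 (.l1 (.ls 29 29 278)) (.l1 .sk)) (.nx 428 162 (.l1 .sk) (.nr 430 65537 (.lg 0 false 2 89
  89 19 0 23184) (.nx 433 13005 (.lg 0 false 3 89 89 19 0 23184) .out)))) (.nr 435 513 (.lg 0 false
  1 79 79 17 0 115920) .out))) .out) .out)))))) (.na 599 134 (.na 519 118 (.na 466 105 (.na 452 98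
  (.nx 451 1664512 (.nr 450 1048577 (.nr 439 97 .s1 (.nx 442 162 (.nx 441 161 (.nr 440 881 (.l1
  (.ls 19 17 270)) (.l1 .sk)) (.l1 .sk)) (.nx 446 20644 (.lg 0 false 4 89 89 17 0 115920) (.nr 449
  32769 (.nr 447 513 (.lg 0 false 1 73 73 16 0 57960) (.nx 448 104033 (.lg 2 true 1 71 71 16 20675
  11592) .out)) .out)))) .out) .out) (.na 453 102 (.lg 0 false 1 0 0 16 0 24) (.nx 465 1664512 (.nr
  464 1048577 (.nr 454 102 .s1 (.nx 461 104033 (.nx 456 161 (.nr 455 944 (.lg 0 false 1 31 31 29 0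
  115920) (.l1 .sk)) (.nx 457 162 (.l1 .sk) (.nx 459 13005 (.lg 0 false 2 101 101 31 0 115920) (.nr
  460 65537 (.lg 0 false 1 101 101 29 0 115920) .out)))) (.nr 463 513 (.lg 0 true 2 73 73 31 0
  23184) .out))) .out) .out))) (.na 493 110 (.na 479 107 (.nx 478 1664512 (.nr 477 1048577 (.nr 467
  105 .s1 (.nx 470 162 (.nx 469 161 (.nr 468 962 (.l1 (.ls 31 29 249)) (.l1 .sk)) (.l1 .sk)) (.nx
  472 13005 (.lg 0 false 2 97 97 29 0 115920) (.nr 476 65537 (.nx 473 104033 (.lg 0 false 1 89 89
  23 0 57960) (.nr 475 513 (.lg 0 true 2 73 73 29 0 115920) .out)) .out)))) .out) .out) (.nx 492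
  1664512 (.nr 491 1048577 (.nr 480 107 .s1 (.nx 487 20644 (.nx 482 161 (.nr 481 989 (.l1 (.ls 19
  17 245)) (.l1 .sk)) (.nx 483 162 (.l1 .sk) (.lg 0 false 4 83 83 17 0 23184))) (.nr 490 32769 (.nr
  488 513 (.lg 0 false 1 71 71 16 0 57960) (.nx 489 104033 (.lg 2 true 1 71 71 16 20675 11592)
  .out)) .out))) .out) .out)) (.na 506 115 (.nx 505 1664512 (.nr 504 1048577 (.nr 494 110 .s1 (.nx
  497 162 (.nx 496 161 (.nr 495 1034 (.l1 (.ls 37 31 238)) (.l1 .sk)) (.l1 .sk)) (.nx 501 104033
  (.nr 498 65537 (.lg 0 false 1 101 101 29 0 1275120) (.nx 500 13005 (.lg 0 false 2 97 97 31 0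
  1275120) .out)) (.nr 503 513 (.lg 0 true 2 73 73 31 0 1275120) .out)))) .out) .out) (.nx 518
  1664512 (.nr 517 1048577 (.nr 507 115 .s1 (.nx 510 162 (.nx 509 161 (.nr 508 1061 (.l1 (.ls 19 19
  228)) (.l1 .sk)) (.l1 .sk)) (.nx 513 20644 (.lg 0 false 3 83 83 17 0 57960) (.nr 516 32769 (.nr
  514 513 (.lg 0 false 1 71 71 16 0 57960) (.nx 515 104033 (.lg 2 true 1 71 71 16 20675 57960)
  .out)) .out)))) .out) .out)))) (.na 561 122 (.na 533 119 (.nx 532 1664512 (.nr 531 1048577 (.nr
  520 118 .s1 (.nx 523 162 (.nx 522 161 (.nr 521 1070 (.l1 (.ls 29 23 222)) (.l1 .sk)) (.l1 .sk))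
  (.nx 526 20644 (.lg 0 false 3 89 89 23 0 23184) (.nr 530 32769 (.nr 528 513 (.lg 0 true 2 67 67
  19 0 23184) (.nx 529 104033 (.lg 2 true 1 73 73 19 20675 23184) .out)) .out)))) .out) .out) (.na
  547 121 (.nx 546 1664512 (.nr 545 1048577 (.nr 534 119 .s1 (.nx 536 161 (.nr 535 1088 (.l1 (.ls
  16 23 220)) (.l1 .sk)) (.nx 537 162 (.l1 .sk) (.nx 541 20644 (.lg 0 false 4 89 89 23 0 23184)
  (.nr 544 32769 (.nr 542 513 (.lg 2 false 1 71 71 16 1125994 11592) (.nx 543 104033 (.lg 2 true 1
  73 73 16 20675 57960) .out)) .out))))) .out) .out) (.nx 560 1664512 (.nr 559 1048577 (.nr 548 121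
  .s1 (.nx 555 20644 (.nx 550 161 (.nr 549 1097 (.l1 (.ls 29 19 217)) (.l1 .sk)) (.nx 551 162 (.l1
  .sk) (.lg 0 false 4 89 89 19 0 1275120))) (.nr 558 32769 (.nr 556 513 (.lg 0 false 1 73 73 17 0
  1275120) (.nx 557 104033 (.lg 2 true 1 71 71 17 20675 127512) .out)) .out))) .out) .out))) (.na
  587 128 (.na 574 126 (.nx 573 1664512 (.nr 572 1048577 (.nr 562 122 .s1 (.nx 565 162 (.nx 564 161
  (.nr 563 1133 (.l1 (.ls 29 23 215)) (.l1 .sk)) (.l1 .sk)) (.nx 568 20644 (.lg 0 false 3 89 89 23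
  0 23184) (.nr 571 32769 (.nr 569 513 (.lg 2 false 1 73 73 19 1098306 23184) (.nx 570 104033 (.lg
  2 true 1 73 73 19 20675 23184) .out)) .out)))) .out) .out) (.nx 586 1664512 (.nr 585 1048577 (.nr
  575 126 .s1 (.nx 578 162 (.nx 577 161 (.nr 576 1151 (.l1 (.ls 29 31 208)) (.l1 .sk)) (.l1 .sk))
  (.nx 581 20644 (.lg 0 false 3 83 83 31 0 23184) (.nr 584 32769 (.nr 582 513 (.lg 0 false 1 71 71
  29 0 23184) (.nx 583 104033 (.lg 2 true 1 71 71 29 20675 115920) .out)) .out)))) .out) .out))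
  (.na 588 129 .ne (.nx 598 832257 (.nr 597 1048577 (.nr 589 129 .s1 (.nx 593 13005 (.nx 590 257
  (.l1 (.ls 79 29 515)) (.nr 592 741457 (.lg 0 false 2 97 97 19 0 115920) .out)) (.nr 596 16385
  (.nr 594 1025 (.lg 0 true 1 73 73 19 0 11592) (.nx 595 104033 (.lg 2 true 1 71 71 19 16491 11592)
  .out)) .out))) .out) .out))))) (.na 662 147 (.na 621 138 (.na 609 135 (.nx 608 832257 (.nr 607
  1048577 (.nr 600 134 .s1 (.nx 601 257 (.l1 (.ls 61 29 495)) (.nr 606 741457 (.nx 602 13005 (.lg 0
  true 1 97 97 19 0 115920) (.nr 605 16385 (.nr 603 1025 (.lg 0 false 1 73 73 19 0 115920) (.nx 604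
  104033 (.lg 2 false 1 67 67 19 16491 23184) .out)) .out)) .out))) .out) .out) (.na 620 137 (.nx
  619 832257 (.nr 618 1048577 (.nr 610 135 .s1 (.nx 614 13005 (.nx 611 257 (.l1 (.ls 73 29 492))
  (.nr 613 741457 (.lg 0 false 2 89 89 23 0 115920) .out)) (.nr 617 16385 (.nr 615 1025 (.lg 0 true
  1 71 71 19 0 57960) (.nx 616 104033 (.lg 2 false 1 67 67 19 16491 57960) .out)) .out))) .out)
  .out) (.lg 0 false 1 0 0 16 0 24))) (.na 641 141 (.na 631 139 (.nx 630 832257 (.nr 629 1048577
  (.nr 622 138 .s1 (.nx 623 257 (.l1 (.ls 71 41 481)) (.nr 628 741457 (.nx 624 13005 (.lg 0 true 1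
  89 89 19 0 115920) (.nr 627 16385 (.nr 625 1025 (.lg 0 false 1 71 71 19 0 115920) (.nx 626 104033
  (.lg 2 false 1 61 61 19 16491 23184) .out)) .out)) .out))) .out) .out) (.nx 640 832257 (.nr 639
  1048577 (.nr 632 139 .s1 (.nx 633 257 (.l1 (.ls 71 19 478)) (.nr 638 741457 (.nx 634 13005 (.lg 0
  true 1 83 83 16 0 57960) (.nr 637 16385 (.nr 635 1025 (.lg 0 false 1 67 67 16 0 11592) (.nx 636
  104033 (.lg 2 false 1 61 61 16 16491 57960) .out)) .out)) .out))) .out) .out)) (.na 651 145 (.nx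
  650 832257 (.nr 649 1048577 (.nr 642 141 .s1 (.nx 643 257 (.l1 (.ls 79 23 471)) (.nr 648 741457
  (.nx 644 13005 (.lg 0 true 1 97 97 19 0 57960) (.nr 647 16385 (.nr 645 1025 (.lg 0 true 1 71 71
  19 0 11592) (.nx 646 104033 (.lg 2 true 1 71 71 19 16491 57960) .out)) .out)) .out))) .out) .out)
  (.nx 661 832257 (.nr 660 1048577 (.nr 652 145 .s1 (.nx 656 13005 (.nx 653 257 (.l1 (.ls 79 23
  458)) (.nr 655 741457 (.lg 0 false 2 97 97 19 0 115920) .out)) (.nr 659 16385 (.nr 657 1025 (.lg
  0 true 1 73 73 17 0 57960) (.nx 658 104033 (.lg 2 false 1 71 71 17 16491 57960) .out)) .out)))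
  .out) .out)))) (.na 676 153 (.na 664 150 (.na 663 149 (.lg 0 false 1 0 0 16 0 24) (.lg 0 false 1
  0 0 16 0 24)) (.na 675 151 (.nx 674 832257 (.nr 673 1048577 (.nr 665 150 .s1 (.nx 666 257 (.l1
  (.ls 79 37 443)) (.nr 672 741457 (.nx 668 13005 (.lg 0 false 2 89 89 31 0 115920) (.nr 671 16385
  (.nr 669 1025 (.lg 0 true 1 71 71 31 0 115920) (.nx 670 104033 (.lg 2 true 1 71 71 31 16491
  115920) .out)) .out)) .out))) .out) .out) (.lg 0 false 1 0 0 16 0 24))) (.na 696 158 (.na 686 154
  (.nx 685 832257 (.nr 684 1048577 (.nr 677 153 .s1 (.nx 680 13005 (.nx 678 257 (.l1 (.ls 79 29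
  434)) (.nr 679 741457 (.lg 0 true 1 89 89 23 0 11592) .out)) (.nr 683 16385 (.nr 681 1025 (.lg 0
  true 1 71 71 23 0 11592) (.nx 682 104033 (.lg 2 true 1 71 71 23 16491 11592) .out)) .out))) .out)
  .out) (.nx 695 832257 (.nr 694 1048577 (.nr 687 154 .s1 (.nx 688 257 (.l1 (.ls 73 37 431)) (.nr
  693 741457 (.nx 689 13005 (.lg 0 true 1 89 89 29 0 255024) (.nr 692 16385 (.nr 690 1025 (.lg 0
  false 1 73 73 29 0 1275120) (.nx 691 104033 (.lg 2 false 1 67 67 29 16491 1275120) .out)) .out))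
  .out))) .out) .out)) (.na 706 161 (.nx 705 832257 (.nr 704 1048577 (.nr 697 158 .s1 (.nx 700
  13005 (.nx 698 257 (.l1 (.ls 73 29 421)) (.nr 699 741457 (.lg 0 true 1 97 97 19 0 115920) .out))
  (.nr 703 16385 (.nr 701 1025 (.lg 0 false 1 71 71 19 0 115920) (.nx 702 104033 (.lg 2 false 1 61
  61 19 16491 23184) .out)) .out))) .out) .out) (.nx 716 832257 (.nr 715 1048577 (.nr 707 161 .s1
  (.nx 708 257 (.l1 (.ls 67 19 413)) (.nr 714 741457 (.nr 711 16385 (.lg 0 false 3 73 73 17 0
  57960) (.nx 713 13005 (.lg 0 true 2 73 73 17 0 23184) .out)) .out))) .out) .out))))))) (.na 936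
  231 (.na 820 193 (.na 774 178 (.na 745 173 (.na 727 167 (.nx 726 832257 (.nr 725 1048577 (.nr 718
  162 .s1 (.nx 721 13005 (.nx 719 257 (.l1 (.ls 71 31 410)) (.nr 720 741457 (.lg 0 true 1 83 83 23
  0 23184) .out)) (.nr 724 16385 (.nr 722 1025 (.lg 0 false 1 71 71 23 0 115920) (.nx 723 104033
  (.lg 2 false 1 61 61 23 16491 115920) .out)) .out))) .out) .out) (.na 735 170 (.nx 734 832257
  (.nr 733 1048577 (.nr 728 167 .s1 (.nx 729 257 (.l1 (.ls 71 19 398)) (.nr 732 741457 (.nr 730
  16385 (.lg 0 false 1 83 83 16 0 11592) (.nx 731 13005 (.lg 0 true 1 83 83 16 0 57960) .out))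
  .out))) .out) .out) (.nx 744 832257 (.nr 743 1048577 (.nr 736 170 .s1 (.nx 737 257 (.l1 (.ls 83
  37 391)) (.nr 742 741457 (.nx 738 13005 (.lg 0 true 1 97 97 31 0 115920) (.nr 741 16385 (.nr 739
  1025 (.lg 0 true 1 73 73 31 0 115920) (.nx 740 104033 (.lg 2 false 1 71 71 31 16491 115920)
  .out)) .out)) .out))) .out) .out))) (.na 756 175 (.na 746 174 (.lg 0 false 1 0 0 16 0 24) (.nx
  755 832257 (.nr 754 1048577 (.nr 747 174 .s1 (.nx 748 257 (.l1 (.ls 79 37 382)) (.nr 753 741457
  (.nx 749 13005 (.lg 0 true 1 97 97 23 0 115920) (.nr 752 16385 (.nr 750 1025 (.lg 0 true 1 71 71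
  23 0 23184) (.nx 751 104033 (.lg 2 true 1 71 71 23 16491 115920) .out)) .out)) .out))) .out)
  .out)) (.na 764 177 (.nx 763 832257 (.nr 762 1048577 (.nr 757 175 .s1 (.nx 758 257 (.l1 (.ls 71
  29 380)) (.nr 761 741457 (.nr 759 16385 (.lg 0 false 1 89 89 19 0 637560) (.nx 760 13005 (.lg 0
  true 1 83 83 19 0 57960) .out)) .out))) .out) .out) (.nx 773 832257 (.nr 772 1048577 (.nr 765 177
  .s1 (.nx 768 13005 (.nx 766 257 (.l1 (.ls 79 23 376)) (.nr 767 741457 (.lg 0 false 1 89 89 19 0
  11592) .out)) (.nr 771 16385 (.nr 769 1025 (.lg 0 true 1 71 71 19 0 11592) (.nx 770 104033 (.lg 2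
  false 1 67 67 19 16491 11592) .out)) .out))) .out) .out)))) (.na 791 182 (.na 782 179 (.nx 781
  832257 (.nr 780 1048577 (.nr 775 178 .s1 (.nx 776 257 (.l1 (.ls 71 29 374)) (.nr 779 741457 (.nr
  777 16385 (.lg 0 false 1 89 89 19 0 23184) (.nx 778 13005 (.lg 0 true 1 89 89 19 0 115920) .out))
  .out))) .out) .out) (.na 783 181 (.lg 0 false 1 0 0 16 0 24) (.nx 790 832257 (.nr 789 1048577
  (.nr 784 181 .s1 (.nx 785 257 (.l1 (.ls 67 19 367)) (.nr 788 741457 (.nr 786 16385 (.lg 0 false 1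
  83 83 16 0 57960) (.nx 787 13005 (.lg 0 true 1 79 79 16 0 11592) .out)) .out))) .out) .out)))
  (.na 802 186 (.na 792 183 .ne (.nx 801 832257 (.nr 800 1048577 (.nr 793 183 .s1 (.nx 796 13005
  (.nx 794 406 (.l1 (.ls 79 29 903)) (.nr 795 741457 (.lg 0 false 1 89 89 19 0 11592) .out)) (.nr
  799 16385 (.nr 797 1025 (.lg 0 true 1 71 71 19 0 11592) (.nx 798 104033 (.lg 2 false 1 67 67 19
  16491 11592) .out)) .out))) .out) .out)) (.na 812 191 (.nx 811 832257 (.nr 810 1048577 (.nr 803
  186 .s1 (.nx 804 257 (.l1 (.ls 79 37 358)) (.nr 809 741457 (.nx 805 13005 (.lg 0 true 1 97 97 29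
  0 1275120) (.nr 808 16385 (.nr 806 1025 (.lg 0 true 1 71 71 29 0 23184) (.nx 807 104033 (.lg 2
  true 1 71 71 29 16491 23184) .out)) .out)) .out))) .out) .out) (.nx 819 832257 (.nr 818 1048577
  (.nr 813 191 .s1 (.nx 814 257 (.l1 (.ls 71 19 348)) (.nr 817 741457 (.nr 815 16385 (.lg 0 false 1
  83 83 16 0 57960) (.nx 816 13005 (.lg 0 true 1 79 79 16 0 11592) .out)) .out))) .out) .out)))))
  (.na 873 210 (.na 846 199 (.na 828 194 (.nx 827 832257 (.nr 826 1048577 (.nr 821 193 .s1 (.nx 822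
  257 (.l1 (.ls 71 19 345)) (.nr 825 741457 (.nr 823 16385 (.lg 0 false 1 83 83 16 0 57960) (.nx
  824 13005 (.lg 0 true 1 79 79 16 0 11592) .out)) .out))) .out) .out) (.na 836 198 (.nx 835 832257
  (.nr 834 1048577 (.nr 829 194 .s1 (.nx 830 257 (.l1 (.ls 71 29 343)) (.nr 833 741457 (.nr 831
  16385 (.lg 0 false 1 97 97 19 0 115920) (.nx 832 13005 (.lg 0 true 1 83 83 19 0 115920) .out))
  .out))) .out) .out) (.nx 845 832257 (.nr 844 1048577 (.nr 837 198 .s1 (.nx 838 257 (.l1 (.ls 79
  37 336)) (.nr 843 741457 (.nx 839 13005 (.lg 0 true 1 89 89 31 0 255024) (.nr 842 16385 (.nr 840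
  1025 (.lg 0 true 1 71 71 31 0 255024) (.nx 841 104033 (.lg 2 false 1 67 67 31 16491 255024)
  .out)) .out)) .out))) .out) .out))) (.na 857 203 (.na 847 201 (.lg 0 false 1 0 0 16 0 24) (.nx
  856 832257 (.nr 855 1048577 (.nr 848 201 .s1 (.nx 849 257 (.l1 (.ls 61 23 331)) (.nr 854 741457
  (.nx 850 13005 (.lg 0 false 1 83 83 19 0 11592) (.nr 853 16385 (.nr 851 1025 (.lg 0 true 1 67 67
  19 0 11592) (.nx 852 104033 (.lg 2 false 1 61 61 19 16491 57960) .out)) .out)) .out))) .out)
  .out)) (.na 865 207 (.nx 864 832257 (.nr 863 1048577 (.nr 858 203 .s1 (.nx 859 257 (.l1 (.ls 71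
  23 328)) (.nr 862 741457 (.nx 860 13005 (.lg 0 true 1 83 83 17 0 57960) (.nr 861 16385 (.lg 0
  false 1 83 83 17 0 57960) .out)) .out))) .out) .out) (.nx 872 832257 (.nr 871 1048577 (.nr 866
  207 .s1 (.nx 867 257 (.l1 (.ls 67 19 322)) (.nr 870 741457 (.nr 868 16385 (.lg 0 false 1 83 83 19
  0 57960) (.nx 869 13005 (.lg 0 true 1 79 79 19 0 57960) .out)) .out))) .out) .out)))) (.na 902
  217 (.na 884 214 (.na 883 211 (.nx 882 832257 (.nr 881 1048577 (.nr 874 210 .s1 (.nx 877 13005
  (.nx 875 257 (.l1 (.ls 79 41 317)) (.nr 876 741457 (.lg 0 true 1 89 89 37 0 115920) .out)) (.nr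
  880 16385 (.nr 878 1025 (.lg 0 true 1 71 71 37 0 115920) (.nx 879 104033 (.lg 2 true 1 67 67 37
  16491 115920) .out)) .out))) .out) .out) (.lg 0 false 1 0 0 16 0 24)) (.na 892 215 (.nx 891
  832257 (.nr 890 1048577 (.nr 885 214 .s1 (.nx 886 257 (.l1 (.ls 71 29 311)) (.nr 889 741457 (.nr
  887 16385 (.lg 0 false 1 83 83 23 0 115920) (.nx 888 13005 (.lg 0 true 1 79 79 23 0 23184) .out))
  .out))) .out) .out) (.nx 901 832257 (.nr 900 1048577 (.nr 893 215 .s1 (.nx 894 257 (.l1 (.ls 79
  23 310)) (.nr 899 741457 (.nx 895 13005 (.lg 0 true 1 89 89 19 0 57960) (.nr 898 16385 (.nr 896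
  1025 (.lg 0 true 1 67 67 19 0 57960) (.nx 897 104033 (.lg 2 true 1 67 67 19 16491 57960) .out))
  .out)) .out))) .out) .out))) (.na 918 225 (.na 910 223 (.nx 909 832257 (.nr 908 1048577 (.nr 903
  217 .s1 (.nx 906 13005 (.nx 904 257 (.l1 (.ls 71 23 307)) (.nr 905 741457 (.lg 0 true 1 83 83 17
  0 57960) .out)) (.nr 907 16385 (.lg 0 false 1 83 83 17 0 11592) .out))) .out) .out) (.nx 917
  832257 (.nr 916 1048577 (.nr 911 223 .s1 (.nx 912 257 (.l1 (.ls 67 19 299)) (.nr 915 741457 (.nr
  913 16385 (.lg 0 false 1 79 79 16 0 11592) (.nx 914 13005 (.lg 0 true 1 79 79 16 0 57960) .out))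
  .out))) .out) .out)) (.na 928 230 (.nx 927 832257 (.nr 926 1048577 (.nr 919 225 .s1 (.nx 922
  13005 (.nx 920 257 (.l1 (.ls 71 29 296)) (.nr 921 741457 (.lg 0 true 1 83 83 23 0 57960) .out))
  (.nr 925 16385 (.nr 923 1025 (.lg 0 true 1 61 61 23 0 57960) (.nx 924 104033 (.lg 2 true 1 61 61
  23 16491 57960) .out)) .out))) .out) .out) (.nx 935 832257 (.nr 934 1048577 (.nr 929 230 .s1 (.nx
  930 257 (.l1 (.ls 71 37 290)) (.nr 933 741457 (.nr 931 16385 (.lg 0 false 1 83 83 31 0 115920)
  (.nx 932 13005 (.lg 0 true 1 83 83 31 0 1275120) .out)) .out))) .out) .out)))))) (.na 1747 512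
  (.na 991 242 (.na 964 237 (.na 946 233 (.nx 945 832257 (.nr 944 1048577 (.nr 937 231 .s1 (.nx 940
  13005 (.nx 938 257 (.l1 (.ls 73 31 288)) (.nr 939 741457 (.lg 0 true 1 83 83 29 0 637560) .out))
  (.nr 943 16385 (.nr 941 1025 (.lg 0 true 1 67 67 29 0 127512) (.nx 942 104033 (.lg 2 false 1 61
  61 29 16491 127512) .out)) .out))) .out) .out) (.na 954 235 (.nx 953 832257 (.nr 952 1048577 (.nr
  947 233 .s1 (.nx 948 257 (.l1 (.ls 67 19 286)) (.nr 951 741457 (.nr 949 16385 (.lg 0 false 1 79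
  79 17 0 11592) (.nx 950 13005 (.lg 0 true 1 79 79 17 0 57960) .out)) .out))) .out) .out) (.nx 963
  832257 (.nr 962 1048577 (.nr 955 235 .s1 (.nx 958 13005 (.nx 956 257 (.l1 (.ls 73 19 284)) (.nr
  957 741457 (.lg 0 true 1 89 89 19 0 57960) .out)) (.nr 961 16385 (.nr 959 1025 (.lg 0 true 1 67
  67 19 0 57960) (.nx 960 104033 (.lg 2 false 1 67 67 19 16491 57960) .out)) .out))) .out) .out)))
  (.na 982 239 (.na 974 238 (.nx 973 832257 (.nr 972 1048577 (.nr 965 237 .s1 (.nx 968 13005 (.nx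
  966 257 (.l1 (.ls 71 23 281)) (.nr 967 741457 (.lg 0 false 1 83 83 19 0 11592) .out)) (.nr 971
  16385 (.nr 969 1025 (.lg 0 true 1 61 61 19 0 11592) (.nx 970 104033 (.lg 2 false 1 59 59 19 16491
  11592) .out)) .out))) .out) .out) (.nx 981 832257 (.nr 980 1048577 (.nr 975 238 .s1 (.nx 976 257
  (.l1 (.ls 71 37 280)) (.nr 979 741457 (.nr 977 16385 (.lg 0 false 1 89 89 31 0 115920) (.nx 978
  13005 (.lg 0 true 1 83 83 31 0 115920) .out)) .out))) .out) .out)) (.na 983 241 (.lg 0 false 1 0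
  0 16 0 24) (.nx 990 832257 (.nr 989 1048577 (.nr 984 241 .s1 (.nx 985 257 (.l1 (.ls 71 19 277))
  (.nr 988 741457 (.nr 986 16385 (.lg 0 false 1 79 79 17 0 11592) (.nx 987 13005 (.lg 0 true 1 79
  79 17 0 11592) .out)) .out))) .out) .out)))) (.na 1008 250 (.na 999 243 (.nx 998 832257 (.nr 997
  1048577 (.nr 992 242 .s1 (.nx 995 13005 (.nx 993 257 (.l1 (.ls 71 31 275)) (.nr 994 741457 (.lg 0
  true 1 83 83 29 0 1275120) .out)) (.nr 996 16385 (.lg 0 false 1 83 83 29 0 255024) .out))) .out)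
  .out) (.na 1007 245 (.nx 1006 832257 (.nr 1005 1048577 (.nr 1000 243 .s1 (.nx 1001 257 (.l1 (.ls
  67 23 274)) (.nr 1004 741457 (.nr 1002 16385 (.lg 0 false 1 79 79 19 0 11592) (.nx 1003 13005
  (.lg 0 true 1 73 73 19 0 11592) .out)) .out))) .out) .out) (.lg 0 false 1 0 0 16 0 24))) (.na
  1026 256 (.na 1016 255 (.nx 1015 832257 (.nr 1014 1048577 (.nr 1009 250 .s1 (.nx 1010 257 (.l1
  (.ls 71 31 267)) (.nr 1013 741457 (.nr 1011 16385 (.lg 0 false 1 83 83 29 0 115920) (.nx 1012
  13005 (.lg 0 true 1 79 79 29 0 115920) .out)) .out))) .out) .out) (.nx 1025 832257 (.nr 1024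
  1048577 (.nr 1017 255 .s1 (.nx 1022 104033 (.nx 1018 257 (.l1 (.ls 79 31 262)) (.nr 1021 741457
  (.nx 1019 13005 (.lg 0 false 1 89 89 31 0 57960) (.nr 1020 16385 (.lg 0 true 1 79 79 31 0 57960)
  .out)) .out)) (.nr 1023 1025 (.lg 0 true 1 71 71 31 0 57960) .out))) .out) .out)) (.na 1027 257
  .ne (.nx 1746 832257 (.nr 1745 1482912 (.nr 1028 257 .s1 (.nx 1190 162 (.nx 1189 161 (.nr 1188
  4601 (.lx (.lp 41 19 129)) (.l1 .sk)) (.l1 .sk)) (.nx 1233 205 (.lx (.lp 83 19 129)) (.nr 1744
  1048577 (.nr 1488 32769 (.la (.lg 0 false 1 83 83 23 0)) (.nx 1743 10323 (.la (.lg 0 false 1 73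
  73 23 0)) .out)) .out)))) .out) .out))))) (.na 8843 5793 (.na 3839 1449 (.na 2383 725 (.nx 2382
  832257 (.nr 2381 1482912 (.nr 1748 512 .s1 (.nx 2167 22297 (.nx 1910 162 (.nx 1909 161 (.nr 1908
  6515 (.lx (.lp 41 19 182)) (.l1 .sk)) (.l1 .sk)) (.nx 1953 205 (.lx (.lp 73 19 182)) (.nr 2166
  1048577 (.la (.lg 0 true 1 73 73 29 0)) .out))) (.nr 2380 32769 (.la (.lg 2 true 1 67 67 29
  130853)) .out))) .out) .out) (.na 2985 1024 (.nx 2984 10323 (.nr 2983 1048577 (.nr 2384 725 .s1
  (.nx 2683 2049 (.la (.ls 71 37 5793)) (.nr 2982 16385 (.la (.lg 0 true 1 41 41 29 0)) .out)))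
  .out) .out) (.nx 3838 10323 (.nr 3837 1048577 (.nr 2986 1024 .s1 (.nx 3411 2582 (.la (.ls 67 41
  6513)) (.nr 3836 16385 (.la (.lg 0 false 1 37 37 31 0)) .out))) .out) .out))) (.na 5293 2897 (.na
  4441 2048 (.nx 4440 2582 (.nr 4439 524289 (.nr 3840 1449 .s1 (.la (.ls 61 37 4603))) .out) .out)
  (.nx 5292 3252 (.nr 5291 524289 (.nr 4442 2048 .s1 (.la (.ls 59 41 5166))) .out) .out)) (.na 6495
  4096 (.nx 6494 2582 (.nr 6493 262145 (.nr 5294 2897 .s1 (.la (.ls 53 37 2304))) .out) .out) (.nx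
  8842 2582 (.nr 8841 262145 (.nr 6496 4096 .s1 (.nx 7143 647 (.nx 6657 161 (.nr 6656 52057 (.lx
  (.lp 41 31 1449)) (.l1 .sk)) (.nx 6658 162 (.l1 .sk) (.lx (.lp 53 31 1449)))) (.nr 8840 65537
  (.la (.ls 41 37 1528)) .out))) .out) .out)))) (.na 13755 65536 (.na 11432 16384 (.na 10137 8192
  (.nx 10136 1292 (.nr 10135 65537 (.nr 8844 5793 .s1 (.lx (.lp 41 37 2049))) .out) .out) (.nx
  11431 1292 (.nr 11430 131073 (.nr 10138 8192 .s1 (.nx 10342 205 (.lx (.lp 43 41 4097)) (.nr 11429
  65537 (.lx (.lp 41 41 4097)) .out))) .out) .out)) (.na 12727 32768 (.nx 12726 1292 (.nr 12725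
  262145 (.nr 11433 16384 .s1 (.nx 11637 205 (.lx (.lp 43 43 8193)) (.nr 12724 131073 (.lx (.lp 41
  43 8193)) .out))) .out) .out) (.nx 13754 1025 (.nr 13753 262145 (.nr 12728 32768 .s1 (.nx 12932
  205 (.lx (.lp 16 0 16385)) (.nr 13752 131073 (.lx (.lp 37 47 16385)) .out))) .out) .out))) (.na
  14785 262144 (.na 14783 131072 (.nx 14782 1025 (.nr 14781 262145 (.nr 13756 65536 .s1 (.nx 14079
  324 (.lx (.lp 16 43 32769)) (.nr 14780 131073 (.lx (.lp 31 53 32769)) .out))) .out) .out) (.nx
  14784 324 (.l1 .sk) .out)) (.na 14787 524289 (.nx 14786 205 (.l1 .sk) .out) .out)))))))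

theorem c12 :
    OkQ ckI L8 181 1 1099511627776 0 34359738368 1 1099511627776 ∧
    OkQ ckI L8 161 33 1099511627776 0 34359738368 1 1099511627776 := by
  refine ⟨?_, ?_⟩
  · refine fin 24 14685 T12_0 ?_
    refine jn 7 (by decide +kernel) ?_
    refine jn 9 (by decide +kernel) ?_
    refine jn 12 (by decide +kernel) ?_
    refine jn 15 (by decide +kernel) ?_
    refine jn 19 (by decide +kernel) ?_
    refine jn 21 (by decide +kernel) ?_
    refine jn 26 (by decide +kernel) ?_
    refine jn 30 (by decide +kernel) ?_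
    refine jn 32 (by decide +kernel) ?_
    refine jn 36 (by decide +kernel) ?_
    refine jn 40 (by decide +kernel) ?_
    refine jn 42 (by decide +kernel) ?_
    refine jn 45 (by decide +kernel) ?_
    refine jn 50 (by decide +kernel) ?_
    refine jn 56 (by decide +kernel) ?_
    refine jn 63 (by decide +kernel) ?_
    refine jn 70 (by decide +kernel) ?_
    refine jn 77 (by decide +kernel) ?_
    refine jn 80 (by decide +kernel) ?_
    refine jn 109 (by decide +kernel) ?_
    refine jn 124 (by decide +kernel) ?_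
    refine jn 146 (by decide +kernel) ?_
    refine jn 162 (by decide +kernel) ?_
    refine jn 186 (by decide +kernel) ?_
    refine jn 208 (by decide +kernel) ?_
    refine jn 243 (by decide +kernel) ?_
    refine jn 270 (by decide +kernel) ?_
    refine jn 290 (by decide +kernel) ?_
    refine jn 301 (by decide +kernel) ?_
    refine jn 305 (by decide +kernel) ?_
    refine jn 311 (by decide +kernel) ?_
    refine jn 317 (by decide +kernel) ?_
    refine jn 322 (by decide +kernel) ?_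
    refine jn 328 (by decide +kernel) ?_
    refine jn 340 (by decide +kernel) ?_
    refine jn 353 (by decide +kernel) ?_
    refine jn 365 (by decide +kernel) ?_
    refine jn 374 (by decide +kernel) ?_
    refine jn 393 (by decide +kernel) ?_
    refine jn 423 (by decide +kernel) ?_
    refine jn 437 (by decide +kernel) ?_
    refine jn 460 (by decide +kernel) ?_
    refine jn 482 (by decide +kernel) ?_
    refine jn 493 (by decide +kernel) ?_
    refine jn 495 (by decide +kernel) ?_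
    refine jn 496 (by decide +kernel) ?_
    refine jn 498 (by decide +kernel) ?_
    refine jn 499 (by decide +kernel) ?_
    refine jn 501 (by decide +kernel) ?_
    refine jn 502 (by decide +kernel) ?_
    refine jn 504 (by decide +kernel) ?_
    refine jn 514 (by decide +kernel) ?_
    refine jn 518 (by decide +kernel) ?_
    refine jn 521 (by decide +kernel) ?_
    refine jn 524 (by decide +kernel) ?_
    refine jn 527 (by decide +kernel) ?_
    refine jn 535 (by decide +kernel) ?_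
    refine jn 564 (by decide +kernel) ?_
    refine jn 570 (by decide +kernel) ?_
    refine jn 582 (by decide +kernel) ?_
    refine jn 595 (by decide +kernel) ?_
    refine jn 607 (by decide +kernel) ?_
    refine jn 619 (by decide +kernel) ?_
    refine jn 628 (by decide +kernel) ?_
    refine jn 640 (by decide +kernel) ?_
    refine jn 642 (by decide +kernel) ?_
    refine jn 644 (by decide +kernel) ?_
    refine jn 647 (by decide +kernel) ?_
    refine jn 650 (by decide +kernel) ?_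
    refine jn 654 (by decide +kernel) ?_
    refine jn 662 (by decide +kernel) ?_
    refine jn 669 (by decide +kernel) ?_
    refine jn 678 (by decide +kernel) ?_
    refine jn 694 (by decide +kernel) ?_
    refine jn 697 (by decide +kernel) ?_
    refine jn 700 (by decide +kernel) ?_
    refine jn 703 (by decide +kernel) ?_
    refine jn 711 (by decide +kernel) ?_
    refine jn 714 (by decide +kernel) ?_
    refine jn 723 (by decide +kernel) ?_
    refine jn 738 (by decide +kernel) ?_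
    refine jn 742 (by decide +kernel) ?_
    refine jn 748 (by decide +kernel) ?_
    refine jn 755 (by decide +kernel) ?_
    refine jn 768 (by decide +kernel) ?_
    refine jn 773 (by decide +kernel) ?_
    refine jn 787 (by decide +kernel) ?_
    refine jn 792 (by decide +kernel) ?_
    refine jn 798 (by decide +kernel) ?_
    refine jn 812 (by decide +kernel) ?_
    refine jn 819 (by decide +kernel) ?_
    refine jn 832 (by decide +kernel) ?_
    refine jn 837 (by decide +kernel) ?_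
    refine jn 848 (by decide +kernel) ?_
    refine jn 854 (by decide +kernel) ?_
    refine jn 864 (by decide +kernel) ?_
    refine jn 870 (by decide +kernel) ?_
    refine jn 879 (by decide +kernel) ?_
    refine jn 884 (by decide +kernel) ?_
    refine jn 897 (by decide +kernel) ?_
    refine jn 908 (by decide +kernel) ?_
    refine jn 919 (by decide +kernel) ?_
    refine jn 922 (by decide +kernel) ?_
    refine jn 925 (by decide +kernel) ?_
    refine jn 928 (by decide +kernel) ?_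
    refine jn 937 (by decide +kernel) ?_
    refine jn 940 (by decide +kernel) ?_
    refine jn 942 (by decide +kernel) ?_
    refine jn 954 (by decide +kernel) ?_
    refine jn 964 (by decide +kernel) ?_
    refine jn 966 (by decide +kernel) ?_
    refine jn 967 (by decide +kernel) ?_
    refine jn 968 (by decide +kernel) ?_
    refine jn 969 (by decide +kernel) ?_
    refine jn 970 (by decide +kernel) ?_
    refine jn 975 (by decide +kernel) ?_
    refine jn 990 (by decide +kernel) ?_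
    refine jn 1000 (by decide +kernel) ?_
    refine jn 1004 (by decide +kernel) ?_
    refine jn 1017 (by decide +kernel) ?_
    refine jn 1031 (by decide +kernel) ?_
    refine jn 1045 (by decide +kernel) ?_
    refine jn 1058 (by decide +kernel) ?_
    refine jn 1069 (by decide +kernel) ?_
    refine jn 1078 (by decide +kernel) ?_
    refine jn 1091 (by decide +kernel) ?_
    refine jn 1101 (by decide +kernel) ?_
    refine jn 1113 (by decide +kernel) ?_
    refine jn 1122 (by decide +kernel) ?_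
    refine jn 1131 (by decide +kernel) ?_
    refine jn 1142 (by decide +kernel) ?_
    refine jn 1151 (by decide +kernel) ?_
    refine jn 1170 (by decide +kernel) ?_
    refine jn 1175 (by decide +kernel) ?_
    refine jn 1184 (by decide +kernel) ?_
    refine jn 1193 (by decide +kernel) ?_
    refine jn 1209 (by decide +kernel) ?_
    refine jn 1224 (by decide +kernel) ?_
    refine jn 1235 (by decide +kernel) ?_
    refine jn 1252 (by decide +kernel) ?_
    refine jn 1260 (by decide +kernel) ?_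
    refine jn 1269 (by decide +kernel) ?_
    refine jn 1286 (by decide +kernel) ?_
    refine jn 1294 (by decide +kernel) ?_
    refine jn 1311 (by decide +kernel) ?_
    refine jn 1391 (by decide +kernel) ?_
    refine jn 1475 (by decide +kernel) ?_
    refine jn 1550 (by decide +kernel) ?_
    refine jn 1602 (by decide +kernel) ?_
    refine jn 1611 (by decide +kernel) ?_
    refine jn 1630 (by decide +kernel) ?_
    refine jn 1639 (by decide +kernel) ?_
    refine jn 1650 (by decide +kernel) ?_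
    refine jn 1662 (by decide +kernel) ?_
    refine jn 1665 (by decide +kernel) ?_
    refine jn 1671 (by decide +kernel) ?_
    refine jn 1690 (by decide +kernel) ?_
    refine jn 1698 (by decide +kernel) ?_
    refine jn 1710 (by decide +kernel) ?_
    refine jn 1719 (by decide +kernel) ?_
    refine jn 1726 (by decide +kernel) ?_
    refine jn 1738 (by decide +kernel) ?_
    refine jn 1746 (by decide +kernel) ?_
    refine jn 1761 (by decide +kernel) ?_
    refine jn 1774 (by decide +kernel) ?_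
    refine jn 1789 (by decide +kernel) ?_
    refine jn 1810 (by decide +kernel) ?_
    refine jn 1818 (by decide +kernel) ?_
    refine jn 1830 (by decide +kernel) ?_
    refine jn 1837 (by decide +kernel) ?_
    refine jn 1857 (by decide +kernel) ?_
    refine jn 1866 (by decide +kernel) ?_
    refine jn 1885 (by decide +kernel) ?_
    refine jn 1894 (by decide +kernel) ?_
    refine jn 1905 (by decide +kernel) ?_
    refine jn 1917 (by decide +kernel) ?_
    refine jn 1921 (by decide +kernel) ?_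
    refine jn 1945 (by decide +kernel) ?_
    refine jn 1957 (by decide +kernel) ?_
    refine jn 1974 (by decide +kernel) ?_
    refine jn 1984 (by decide +kernel) ?_
    refine jn 2001 (by decide +kernel) ?_
    refine jn 2017 (by decide +kernel) ?_
    refine jn 2032 (by decide +kernel) ?_
    refine jn 2061 (by decide +kernel) ?_
    refine jn 2073 (by decide +kernel) ?_
    refine jn 2085 (by decide +kernel) ?_
    refine jn 2092 (by decide +kernel) ?_
    refine jn 2190 (by decide +kernel) ?_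
    refine jn 2334 (by decide +kernel) ?_
    refine jn 2380 (by decide +kernel) ?_
    refine jn 2391 (by decide +kernel) ?_
    refine jn 2427 (by decide +kernel) ?_
    refine jn 2440 (by decide +kernel) ?_
    refine jn 2460 (by decide +kernel) ?_
    refine jn 2472 (by decide +kernel) ?_
    refine jn 2491 (by decide +kernel) ?_
    refine jn 2511 (by decide +kernel) ?_
    refine jn 2526 (by decide +kernel) ?_
    refine jn 2548 (by decide +kernel) ?_
    refine jn 2594 (by decide +kernel) ?_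
    refine jn 2617 (by decide +kernel) ?_
    refine jn 2641 (by decide +kernel) ?_
    refine jn 2654 (by decide +kernel) ?_
    refine jn 2677 (by decide +kernel) ?_
    refine jn 2693 (by decide +kernel) ?_
    refine jn 2722 (by decide +kernel) ?_
    refine jn 2729 (by decide +kernel) ?_
    refine jn 2748 (by decide +kernel) ?_
    refine jn 2825 (by decide +kernel) ?_
    refine jn 2885 (by decide +kernel) ?_
    refine jn 2940 (by decide +kernel) ?_
    refine jn 2988 (by decide +kernel) ?_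
    refine jn 3047 (by decide +kernel) ?_
    refine jn 3088 (by decide +kernel) ?_
    refine jn 3127 (by decide +kernel) ?_
    refine jn 3152 (by decide +kernel) ?_
    refine jn 3197 (by decide +kernel) ?_
    refine jn 3232 (by decide +kernel) ?_
    refine jn 3245 (by decide +kernel) ?_
    refine jn 3284 (by decide +kernel) ?_
    refine jn 3335 (by decide +kernel) ?_
    refine jn 3387 (by decide +kernel) ?_
    refine jn 3476 (by decide +kernel) ?_
    refine jn 3548 (by decide +kernel) ?_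
    refine jn 3621 (by decide +kernel) ?_
    refine jn 3675 (by decide +kernel) ?_
    refine jn 3740 (by decide +kernel) ?_
    refine jn 3808 (by decide +kernel) ?_
    refine jn 3865 (by decide +kernel) ?_
    refine jn 3913 (by decide +kernel) ?_
    refine jn 3973 (by decide +kernel) ?_
    refine jn 4025 (by decide +kernel) ?_
    refine jn 4061 (by decide +kernel) ?_
    refine jn 4090 (by decide +kernel) ?_
    refine jn 4141 (by decide +kernel) ?_
    refine jn 4193 (by decide +kernel) ?_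
    refine jn 4265 (by decide +kernel) ?_
    refine jn 4365 (by decide +kernel) ?_
    refine jn 4445 (by decide +kernel) ?_
    refine jn 4529 (by decide +kernel) ?_
    refine jn 4580 (by decide +kernel) ?_
    refine jn 4665 (by decide +kernel) ?_
    refine jn 4737 (by decide +kernel) ?_
    refine jn 4821 (by decide +kernel) ?_
    refine jn 4904 (by decide +kernel) ?_
    refine jn 4965 (by decide +kernel) ?_
    refine jn 5061 (by decide +kernel) ?_
    refine jn 5127 (by decide +kernel) ?_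
    refine jn 5228 (by decide +kernel) ?_
    refine jn 5333 (by decide +kernel) ?_
    refine jn 5412 (by decide +kernel) ?_
    refine jn 5520 (by decide +kernel) ?_
    refine jn 5627 (by decide +kernel) ?_
    refine jn 5738 (by decide +kernel) ?_
    refine jn 5832 (by decide +kernel) ?_
    refine jn 5928 (by decide +kernel) ?_
    refine jn 6030 (by decide +kernel) ?_
    refine jn 6167 (by decide +kernel) ?_
    refine jn 6286 (by decide +kernel) ?_
    refine jn 6414 (by decide +kernel) ?_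
    refine jn 6542 (by decide +kernel) ?_
    refine jn 6660 (by decide +kernel) ?_
    refine jn 6797 (by decide +kernel) ?_
    refine jn 7075 (by decide +kernel) ?_
    refine jn 7223 (by decide +kernel) ?_
    refine jn 7352 (by decide +kernel) ?_
    refine jn 7472 (by decide +kernel) ?_
    refine jn 7600 (by decide +kernel) ?_
    refine jn 7729 (by decide +kernel) ?_
    refine jn 7873 (by decide +kernel) ?_
    refine jn 7997 (by decide +kernel) ?_
    refine jn 8141 (by decide +kernel) ?_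
    refine jn 8252 (by decide +kernel) ?_
    refine jn 8392 (by decide +kernel) ?_
    refine jn 8560 (by decide +kernel) ?_
    refine jn 8717 (by decide +kernel) ?_
    refine jn 9162 (by decide +kernel) ?_
    refine jn 9351 (by decide +kernel) ?_
    refine jn 9494 (by decide +kernel) ?_
    refine jn 9612 (by decide +kernel) ?_
    refine jn 9721 (by decide +kernel) ?_
    refine jn 9812 (by decide +kernel) ?_
    refine jn 9892 (by decide +kernel) ?_
    refine jn 9964 (by decide +kernel) ?_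
    refine jn 10033 (by decide +kernel) ?_
    refine jn 10444 (by decide +kernel) ?_
    refine jn 10595 (by decide +kernel) ?_
    refine jn 10699 (by decide +kernel) ?_
    refine jn 10811 (by decide +kernel) ?_
    refine jn 10906 (by decide +kernel) ?_
    refine jn 10991 (by decide +kernel) ?_
    refine jn 11053 (by decide +kernel) ?_
    refine jn 11126 (by decide +kernel) ?_
    refine jn 11196 (by decide +kernel) ?_
    refine jn 11250 (by decide +kernel) ?_
    refine jn 11301 (by decide +kernel) ?_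
    refine jn 11503 (by decide +kernel) ?_
    refine jn 11877 (by decide +kernel) ?_
    refine jn 12036 (by decide +kernel) ?_
    refine jn 12171 (by decide +kernel) ?_
    refine jn 12305 (by decide +kernel) ?_
    refine jn 12410 (by decide +kernel) ?_
    refine jn 12488 (by decide +kernel) ?_
    refine jn 12574 (by decide +kernel) ?_
    refine jn 12931 (by decide +kernel) ?_
    refine jn 13290 (by decide +kernel) ?_
    refine jn 13460 (by decide +kernel) ?_
    refine jn 13619 (by decide +kernel) ?_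
    refine jn 14234 (by decide +kernel) ?_
    refine jn 14568 (by decide +kernel) ?_
    exact je (by decide +kernel)
  · refine fin 11592 14788 T12_1 ?_
    refine jn 5 (by decide +kernel) ?_
    refine jn 7 (by decide +kernel) ?_
    refine jn 9 (by decide +kernel) ?_
    refine jn 11 (by decide +kernel) ?_
    refine jn 14 (by decide +kernel) ?_
    refine jn 18 (by decide +kernel) ?_
    refine jn 20 (by decide +kernel) ?_
    refine jn 33 (by decide +kernel) ?_
    refine jn 40 (by decide +kernel) ?_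
    refine jn 55 (by decide +kernel) ?_
    refine jn 61 (by decide +kernel) ?_
    refine jn 75 (by decide +kernel) ?_
    refine jn 82 (by decide +kernel) ?_
    refine jn 91 (by decide +kernel) ?_
    refine jn 93 (by decide +kernel) ?_
    refine jn 95 (by decide +kernel) ?_
    refine jn 98 (by decide +kernel) ?_
    refine jn 100 (by decide +kernel) ?_
    refine jn 101 (by decide +kernel) ?_
    refine jn 113 (by decide +kernel) ?_
    refine jn 129 (by decide +kernel) ?_
    refine jn 135 (by decide +kernel) ?_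
    refine jn 145 (by decide +kernel) ?_
    refine jn 150 (by decide +kernel) ?_
    refine jn 160 (by decide +kernel) ?_
    refine jn 163 (by decide +kernel) ?_
    refine jn 165 (by decide +kernel) ?_
    refine jn 168 (by decide +kernel) ?_
    refine jn 171 (by decide +kernel) ?_
    refine jn 182 (by decide +kernel) ?_
    refine jn 188 (by decide +kernel) ?_
    refine jn 199 (by decide +kernel) ?_
    refine jn 201 (by decide +kernel) ?_
    refine jn 205 (by decide +kernel) ?_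
    refine jn 208 (by decide +kernel) ?_
    refine jn 221 (by decide +kernel) ?_
    refine jn 235 (by decide +kernel) ?_
    refine jn 241 (by decide +kernel) ?_
    refine jn 256 (by decide +kernel) ?_
    refine jn 266 (by decide +kernel) ?_
    refine jn 268 (by decide +kernel) ?_
    refine jn 271 (by decide +kernel) ?_
    refine jn 284 (by decide +kernel) ?_
    refine jn 293 (by decide +kernel) ?_
    refine jn 296 (by decide +kernel) ?_
    refine jn 300 (by decide +kernel) ?_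
    refine jn 302 (by decide +kernel) ?_
    refine jn 314 (by decide +kernel) ?_
    refine jn 330 (by decide +kernel) ?_
    refine jn 342 (by decide +kernel) ?_
    refine jn 343 (by decide +kernel) ?_
    refine jn 344 (by decide +kernel) ?_
    refine jn 345 (by decide +kernel) ?_
    refine jn 346 (by decide +kernel) ?_
    refine jn 347 (by decide +kernel) ?_
    refine jn 348 (by decide +kernel) ?_
    refine jn 359 (by decide +kernel) ?_
    refine jn 362 (by decide +kernel) ?_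
    refine jn 365 (by decide +kernel) ?_
    refine jn 378 (by decide +kernel) ?_
    refine jn 388 (by decide +kernel) ?_
    refine jn 391 (by decide +kernel) ?_
    refine jn 406 (by decide +kernel) ?_
    refine jn 416 (by decide +kernel) ?_
    refine jn 419 (by decide +kernel) ?_
    refine jn 433 (by decide +kernel) ?_
    refine jn 447 (by decide +kernel) ?_
    refine jn 459 (by decide +kernel) ?_
    refine jn 463 (by decide +kernel) ?_
    refine jn 472 (by decide +kernel) ?_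
    refine jn 475 (by decide +kernel) ?_
    refine jn 489 (by decide +kernel) ?_
    refine jn 500 (by decide +kernel) ?_
    refine jn 513 (by decide +kernel) ?_
    refine jn 526 (by decide +kernel) ?_
    refine jn 541 (by decide +kernel) ?_
    refine jn 555 (by decide +kernel) ?_
    refine jn 568 (by decide +kernel) ?_
    refine jn 581 (by decide +kernel) ?_
    refine jn 592 (by decide +kernel) ?_
    refine jn 602 (by decide +kernel) ?_
    refine jn 613 (by decide +kernel) ?_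
    refine jn 624 (by decide +kernel) ?_
    refine jn 635 (by decide +kernel) ?_
    refine jn 645 (by decide +kernel) ?_
    refine jn 655 (by decide +kernel) ?_
    refine jn 668 (by decide +kernel) ?_
    refine jn 679 (by decide +kernel) ?_
    refine jn 689 (by decide +kernel) ?_
    refine jn 699 (by decide +kernel) ?_
    refine jn 713 (by decide +kernel) ?_
    refine jn 728 (by decide +kernel) ?_
    refine jn 738 (by decide +kernel) ?_
    refine jn 749 (by decide +kernel) ?_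
    refine jn 760 (by decide +kernel) ?_
    refine jn 769 (by decide +kernel) ?_
    refine jn 778 (by decide +kernel) ?_
    refine jn 795 (by decide +kernel) ?_
    refine jn 805 (by decide +kernel) ?_
    refine jn 816 (by decide +kernel) ?_
    refine jn 832 (by decide +kernel) ?_
    refine jn 841 (by decide +kernel) ?_
    refine jn 851 (by decide +kernel) ?_
    refine jn 861 (by decide +kernel) ?_
    refine jn 876 (by decide +kernel) ?_
    refine jn 888 (by decide +kernel) ?_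
    refine jn 897 (by decide +kernel) ?_
    refine jn 914 (by decide +kernel) ?_
    refine jn 924 (by decide +kernel) ?_
    refine jn 939 (by decide +kernel) ?_
    refine jn 950 (by decide +kernel) ?_
    refine jn 960 (by decide +kernel) ?_
    refine jn 970 (by decide +kernel) ?_
    refine jn 987 (by decide +kernel) ?_
    refine jn 1003 (by decide +kernel) ?_
    refine jn 1018 (by decide +kernel) ?_
    refine jn 1020 (by decide +kernel) ?_
    refine jn 1044 (by decide +kernel) ?_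
    refine jn 1099 (by decide +kernel) ?_
    refine jn 1160 (by decide +kernel) ?_
    refine jn 1217 (by decide +kernel) ?_
    refine jn 1238 (by decide +kernel) ?_
    refine jn 1243 (by decide +kernel) ?_
    refine jn 1246 (by decide +kernel) ?_
    refine jn 1251 (by decide +kernel) ?_
    refine jn 1254 (by decide +kernel) ?_
    refine jn 1258 (by decide +kernel) ?_
    refine jn 1266 (by decide +kernel) ?_
    refine jn 1271 (by decide +kernel) ?_
    refine jn 1273 (by decide +kernel) ?_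
    refine jn 1281 (by decide +kernel) ?_
    refine jn 1282 (by decide +kernel) ?_
    refine jn 1286 (by decide +kernel) ?_
    refine jn 1289 (by decide +kernel) ?_
    refine jn 1295 (by decide +kernel) ?_
    refine jn 1298 (by decide +kernel) ?_
    refine jn 1306 (by decide +kernel) ?_
    refine jn 1307 (by decide +kernel) ?_
    refine jn 1317 (by decide +kernel) ?_
    refine jn 1326 (by decide +kernel) ?_
    refine jn 1335 (by decide +kernel) ?_
    refine jn 1339 (by decide +kernel) ?_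
    refine jn 1350 (by decide +kernel) ?_
    refine jn 1354 (by decide +kernel) ?_
    refine jn 1361 (by decide +kernel) ?_
    refine jn 1367 (by decide +kernel) ?_
    refine jn 1370 (by decide +kernel) ?_
    refine jn 1378 (by decide +kernel) ?_
    refine jn 1382 (by decide +kernel) ?_
    refine jn 1393 (by decide +kernel) ?_
    refine jn 1401 (by decide +kernel) ?_
    refine jn 1406 (by decide +kernel) ?_
    refine jn 1409 (by decide +kernel) ?_
    refine jn 1411 (by decide +kernel) ?_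
    refine jn 1415 (by decide +kernel) ?_
    refine jn 1426 (by decide +kernel) ?_
    refine jn 1435 (by decide +kernel) ?_
    refine jn 1441 (by decide +kernel) ?_
    refine jn 1442 (by decide +kernel) ?_
    refine jn 1446 (by decide +kernel) ?_
    refine jn 1449 (by decide +kernel) ?_
    refine jn 1458 (by decide +kernel) ?_
    refine jn 1469 (by decide +kernel) ?_
    refine jn 1471 (by decide +kernel) ?_
    refine jn 1477 (by decide +kernel) ?_
    refine jn 1486 (by decide +kernel) ?_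
    refine jn 1489 (by decide +kernel) ?_
    refine jn 1494 (by decide +kernel) ?_
    refine jn 1501 (by decide +kernel) ?_
    refine jn 1506 (by decide +kernel) ?_
    refine jn 1510 (by decide +kernel) ?_
    refine jn 1520 (by decide +kernel) ?_
    refine jn 1526 (by decide +kernel) ?_
    refine jn 1532 (by decide +kernel) ?_
    refine jn 1537 (by decide +kernel) ?_
    refine jn 1541 (by decide +kernel) ?_
    refine jn 1544 (by decide +kernel) ?_
    refine jn 1552 (by decide +kernel) ?_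
    refine jn 1561 (by decide +kernel) ?_
    refine jn 1562 (by decide +kernel) ?_
    refine jn 1572 (by decide +kernel) ?_
    refine jn 1581 (by decide +kernel) ?_
    refine jn 1593 (by decide +kernel) ?_
    refine jn 1597 (by decide +kernel) ?_
    refine jn 1606 (by decide +kernel) ?_
    refine jn 1616 (by decide +kernel) ?_
    refine jn 1624 (by decide +kernel) ?_
    refine jn 1633 (by decide +kernel) ?_
    refine jn 1640 (by decide +kernel) ?_
    refine jn 1656 (by decide +kernel) ?_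
    refine jn 1661 (by decide +kernel) ?_
    refine jn 1665 (by decide +kernel) ?_
    refine jn 1670 (by decide +kernel) ?_
    refine jn 1681 (by decide +kernel) ?_
    refine jn 1693 (by decide +kernel) ?_
    refine jn 1696 (by decide +kernel) ?_
    refine jn 1700 (by decide +kernel) ?_
    refine jn 1704 (by decide +kernel) ?_
    refine jn 1717 (by decide +kernel) ?_
    refine jn 1726 (by decide +kernel) ?_
    refine jn 1732 (by decide +kernel) ?_
    refine jn 1741 (by decide +kernel) ?_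
    refine jn 1764 (by decide +kernel) ?_
    refine jn 1885 (by decide +kernel) ?_
    refine jn 1963 (by decide +kernel) ?_
    refine jn 1967 (by decide +kernel) ?_
    refine jn 1972 (by decide +kernel) ?_
    refine jn 1976 (by decide +kernel) ?_
    refine jn 1984 (by decide +kernel) ?_
    refine jn 1994 (by decide +kernel) ?_
    refine jn 2002 (by decide +kernel) ?_
    refine jn 2003 (by decide +kernel) ?_
    refine jn 2023 (by decide +kernel) ?_
    refine jn 2031 (by decide +kernel) ?_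
    refine jn 2035 (by decide +kernel) ?_
    refine jn 2043 (by decide +kernel) ?_
    refine jn 2051 (by decide +kernel) ?_
    refine jn 2063 (by decide +kernel) ?_
    refine jn 2067 (by decide +kernel) ?_
    refine jn 2075 (by decide +kernel) ?_
    refine jn 2083 (by decide +kernel) ?_
    refine jn 2090 (by decide +kernel) ?_
    refine jn 2094 (by decide +kernel) ?_
    refine jn 2100 (by decide +kernel) ?_
    refine jn 2112 (by decide +kernel) ?_
    refine jn 2123 (by decide +kernel) ?_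
    refine jn 2131 (by decide +kernel) ?_
    refine jn 2136 (by decide +kernel) ?_
    refine jn 2146 (by decide +kernel) ?_
    refine jn 2152 (by decide +kernel) ?_
    refine jn 2158 (by decide +kernel) ?_
    refine jn 2176 (by decide +kernel) ?_
    refine jn 2180 (by decide +kernel) ?_
    refine jn 2182 (by decide +kernel) ?_
    refine jn 2189 (by decide +kernel) ?_
    refine jn 2197 (by decide +kernel) ?_
    refine jn 2205 (by decide +kernel) ?_
    refine jn 2213 (by decide +kernel) ?_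
    refine jn 2216 (by decide +kernel) ?_
    refine jn 2222 (by decide +kernel) ?_
    refine jn 2237 (by decide +kernel) ?_
    refine jn 2245 (by decide +kernel) ?_
    refine jn 2249 (by decide +kernel) ?_
    refine jn 2257 (by decide +kernel) ?_
    refine jn 2265 (by decide +kernel) ?_
    refine jn 2277 (by decide +kernel) ?_
    refine jn 2281 (by decide +kernel) ?_
    refine jn 2289 (by decide +kernel) ?_
    refine jn 2297 (by decide +kernel) ?_
    refine jn 2306 (by decide +kernel) ?_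
    refine jn 2313 (by decide +kernel) ?_
    refine jn 2325 (by decide +kernel) ?_
    refine jn 2334 (by decide +kernel) ?_
    refine jn 2345 (by decide +kernel) ?_
    refine jn 2350 (by decide +kernel) ?_
    refine jn 2360 (by decide +kernel) ?_
    refine jn 2366 (by decide +kernel) ?_
    refine jn 2373 (by decide +kernel) ?_
    refine jn 2384 (by decide +kernel) ?_
    refine jn 2417 (by decide +kernel) ?_
    refine jn 2442 (by decide +kernel) ?_
    refine jn 2468 (by decide +kernel) ?_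
    refine jn 2490 (by decide +kernel) ?_
    refine jn 2525 (by decide +kernel) ?_
    refine jn 2544 (by decide +kernel) ?_
    refine jn 2574 (by decide +kernel) ?_
    refine jn 2594 (by decide +kernel) ?_
    refine jn 2610 (by decide +kernel) ?_
    refine jn 2649 (by decide +kernel) ?_
    refine jn 2682 (by decide +kernel) ?_
    refine jn 2701 (by decide +kernel) ?_
    refine jn 2728 (by decide +kernel) ?_
    refine jn 2743 (by decide +kernel) ?_
    refine jn 2759 (by decide +kernel) ?_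
    refine jn 2783 (by decide +kernel) ?_
    refine jn 2801 (by decide +kernel) ?_
    refine jn 2828 (by decide +kernel) ?_
    refine jn 2836 (by decide +kernel) ?_
    refine jn 2848 (by decide +kernel) ?_
    refine jn 2873 (by decide +kernel) ?_
    refine jn 2888 (by decide +kernel) ?_
    refine jn 2895 (by decide +kernel) ?_
    refine jn 2909 (by decide +kernel) ?_
    refine jn 2943 (by decide +kernel) ?_
    refine jn 2960 (by decide +kernel) ?_
    refine jn 2981 (by decide +kernel) ?_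
    refine jn 3004 (by decide +kernel) ?_
    refine jn 3033 (by decide +kernel) ?_
    refine jn 3061 (by decide +kernel) ?_
    refine jn 3101 (by decide +kernel) ?_
    refine jn 3131 (by decide +kernel) ?_
    refine jn 3152 (by decide +kernel) ?_
    refine jn 3185 (by decide +kernel) ?_
    refine jn 3229 (by decide +kernel) ?_
    refine jn 3260 (by decide +kernel) ?_
    refine jn 3283 (by decide +kernel) ?_
    refine jn 3308 (by decide +kernel) ?_
    refine jn 3339 (by decide +kernel) ?_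
    refine jn 3371 (by decide +kernel) ?_
    refine jn 3400 (by decide +kernel) ?_
    refine jn 3429 (by decide +kernel) ?_
    refine jn 3456 (by decide +kernel) ?_
    refine jn 3473 (by decide +kernel) ?_
    refine jn 3509 (by decide +kernel) ?_
    refine jn 3526 (by decide +kernel) ?_
    refine jn 3548 (by decide +kernel) ?_
    refine jn 3564 (by decide +kernel) ?_
    refine jn 3592 (by decide +kernel) ?_
    refine jn 3610 (by decide +kernel) ?_
    refine jn 3649 (by decide +kernel) ?_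
    refine jn 3677 (by decide +kernel) ?_
    refine jn 3686 (by decide +kernel) ?_
    refine jn 3697 (by decide +kernel) ?_
    refine jn 3722 (by decide +kernel) ?_
    refine jn 3737 (by decide +kernel) ?_
    refine jn 3761 (by decide +kernel) ?_
    refine jn 3782 (by decide +kernel) ?_
    refine jn 3797 (by decide +kernel) ?_
    refine jn 3814 (by decide +kernel) ?_
    refine jn 3846 (by decide +kernel) ?_
    refine jn 3872 (by decide +kernel) ?_
    refine jn 3909 (by decide +kernel) ?_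
    refine jn 3941 (by decide +kernel) ?_
    refine jn 3970 (by decide +kernel) ?_
    refine jn 4001 (by decide +kernel) ?_
    refine jn 4041 (by decide +kernel) ?_
    refine jn 4078 (by decide +kernel) ?_
    refine jn 4128 (by decide +kernel) ?_
    refine jn 4161 (by decide +kernel) ?_
    refine jn 4200 (by decide +kernel) ?_
    refine jn 4230 (by decide +kernel) ?_
    refine jn 4270 (by decide +kernel) ?_
    refine jn 4317 (by decide +kernel) ?_
    refine jn 4356 (by decide +kernel) ?_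
    refine jn 4397 (by decide +kernel) ?_
    refine jn 4437 (by decide +kernel) ?_
    refine jn 4472 (by decide +kernel) ?_
    refine jn 4527 (by decide +kernel) ?_
    refine jn 4561 (by decide +kernel) ?_
    refine jn 4589 (by decide +kernel) ?_
    refine jn 4627 (by decide +kernel) ?_
    refine jn 4685 (by decide +kernel) ?_
    refine jn 4724 (by decide +kernel) ?_
    refine jn 4761 (by decide +kernel) ?_
    refine jn 4819 (by decide +kernel) ?_
    refine jn 4867 (by decide +kernel) ?_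
    refine jn 4913 (by decide +kernel) ?_
    refine jn 4972 (by decide +kernel) ?_
    refine jn 5001 (by decide +kernel) ?_
    refine jn 5029 (by decide +kernel) ?_
    refine jn 5064 (by decide +kernel) ?_
    refine jn 5104 (by decide +kernel) ?_
    refine jn 5145 (by decide +kernel) ?_
    refine jn 5184 (by decide +kernel) ?_
    refine jn 5217 (by decide +kernel) ?_
    refine jn 5261 (by decide +kernel) ?_
    refine jn 5303 (by decide +kernel) ?_
    refine jn 5358 (by decide +kernel) ?_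
    refine jn 5412 (by decide +kernel) ?_
    refine jn 5470 (by decide +kernel) ?_
    refine jn 5519 (by decide +kernel) ?_
    refine jn 5571 (by decide +kernel) ?_
    refine jn 5619 (by decide +kernel) ?_
    refine jn 5672 (by decide +kernel) ?_
    refine jn 5723 (by decide +kernel) ?_
    refine jn 5778 (by decide +kernel) ?_
    refine jn 5840 (by decide +kernel) ?_
    refine jn 5892 (by decide +kernel) ?_
    refine jn 5939 (by decide +kernel) ?_
    refine jn 6015 (by decide +kernel) ?_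
    refine jn 6066 (by decide +kernel) ?_
    refine jn 6147 (by decide +kernel) ?_
    refine jn 6198 (by decide +kernel) ?_
    refine jn 6276 (by decide +kernel) ?_
    refine jn 6316 (by decide +kernel) ?_
    refine jn 6363 (by decide +kernel) ?_
    refine jn 6423 (by decide +kernel) ?_
    refine jn 6468 (by decide +kernel) ?_
    refine jn 6611 (by decide +kernel) ?_
    refine jn 6896 (by decide +kernel) ?_
    refine jn 7020 (by decide +kernel) ?_
    refine jn 7143 (by decide +kernel) ?_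
    refine jn 7216 (by decide +kernel) ?_
    refine jn 7293 (by decide +kernel) ?_
    refine jn 7361 (by decide +kernel) ?_
    refine jn 7433 (by decide +kernel) ?_
    refine jn 7501 (by decide +kernel) ?_
    refine jn 7578 (by decide +kernel) ?_
    refine jn 7642 (by decide +kernel) ?_
    refine jn 7730 (by decide +kernel) ?_
    refine jn 7790 (by decide +kernel) ?_
    refine jn 7858 (by decide +kernel) ?_
    refine jn 7945 (by decide +kernel) ?_
    refine jn 8022 (by decide +kernel) ?_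
    refine jn 8112 (by decide +kernel) ?_
    refine jn 8209 (by decide +kernel) ?_
    refine jn 8281 (by decide +kernel) ?_
    refine jn 8353 (by decide +kernel) ?_
    refine jn 8432 (by decide +kernel) ?_
    refine jn 8498 (by decide +kernel) ?_
    refine jn 8565 (by decide +kernel) ?_
    refine jn 8653 (by decide +kernel) ?_
    refine jn 8725 (by decide +kernel) ?_
    refine jn 8809 (by decide +kernel) ?_
    refine jn 9044 (by decide +kernel) ?_
    refine jn 9270 (by decide +kernel) ?_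
    refine jn 9417 (by decide +kernel) ?_
    refine jn 9515 (by decide +kernel) ?_
    refine jn 9628 (by decide +kernel) ?_
    refine jn 9724 (by decide +kernel) ?_
    refine jn 9796 (by decide +kernel) ?_
    refine jn 9877 (by decide +kernel) ?_
    refine jn 9942 (by decide +kernel) ?_
    refine jn 10002 (by decide +kernel) ?_
    refine jn 10063 (by decide +kernel) ?_
    refine jn 10117 (by decide +kernel) ?_
    refine jn 10335 (by decide +kernel) ?_
    refine jn 10526 (by decide +kernel) ?_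
    refine jn 10608 (by decide +kernel) ?_
    refine jn 10696 (by decide +kernel) ?_
    refine jn 10786 (by decide +kernel) ?_
    refine jn 10856 (by decide +kernel) ?_
    refine jn 10918 (by decide +kernel) ?_
    refine jn 10968 (by decide +kernel) ?_
    refine jn 11023 (by decide +kernel) ?_
    refine jn 11072 (by decide +kernel) ?_
    refine jn 11126 (by decide +kernel) ?_
    refine jn 11169 (by decide +kernel) ?_
    refine jn 11216 (by decide +kernel) ?_
    refine jn 11251 (by decide +kernel) ?_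
    refine jn 11295 (by decide +kernel) ?_
    refine jn 11335 (by decide +kernel) ?_
    refine jn 11380 (by decide +kernel) ?_
    refine jn 11414 (by decide +kernel) ?_
    refine jn 11628 (by decide +kernel) ?_
    refine jn 11883 (by decide +kernel) ?_
    refine jn 11988 (by decide +kernel) ?_
    refine jn 12106 (by decide +kernel) ?_
    refine jn 12195 (by decide +kernel) ?_
    refine jn 12277 (by decide +kernel) ?_
    refine jn 12354 (by decide +kernel) ?_
    refine jn 12427 (by decide +kernel) ?_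
    refine jn 12498 (by decide +kernel) ?_
    refine jn 12558 (by decide +kernel) ?_
    refine jn 12620 (by decide +kernel) ?_
    refine jn 12681 (by decide +kernel) ?_
    refine jn 12728 (by decide +kernel) ?_
    refine jn 13183 (by decide +kernel) ?_
    refine jn 13370 (by decide +kernel) ?_
    refine jn 13486 (by decide +kernel) ?_
    refine jn 13593 (by decide +kernel) ?_
    refine jn 13687 (by decide +kernel) ?_
    refine jn 14119 (by decide +kernel) ?_
    refine jn 14409 (by decide +kernel) ?_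
    refine jn 14576 (by decide +kernel) ?_
    refine jn 14728 (by decide +kernel) ?_
    exact je (by decide +kernel)

end Pool.Agent.MP_2339ce_nt.NR
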