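import Pool.Agent.MP_2339ce_nt.Q2.NC.L8
import Pool.Agent.MP_2339ce_nt.Q2.NC.L9
import Pool.Agent.MP_2339ce_nt.Q2.CkI

/-! Block NR: runs. -/

set_option autoImplicit false
set_option maxRecDepth 100000

noncomputable section

namespace Pool.Agent.MP_2339ce_nt.NR

open Q2.Top

def T14_0 : Ph :=
  (.na 464 9 (.na 338 7 (.na 181 6 (.nx 180 16777217 (.nr 179 1482912 (.nx 145 2097153 (.nx 133
  660563 (.nx 2 191 (.nr 1 58 (.lg 0 true 1 37 37 9 0 720) (.l1 .sk)) (.nx 3 192 (.l1 .sk) (.nx 32
  23949 (.nr 14 155873 (.lg 0 false 11 103 107 16 0 720720) (.nx 31 2049 (.nx 25 324 (.lg 0 false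
  11 79 79 16 0 3960) (.nx 26 645 .out (.nr 30 185365 (.lg 0 false 4 79 79 13 0 720) .out))) .out))
  (.nr 132 220437 (.nr 43 956 (.lg 0 true 11 89 89 16 0 3960) (.nx 78 76448 (.nx 67 52015 (.nr 66
  185365 (.nx 55 41285 (.nr 54 155873 (.lg 1 false 11 101 103 16 118867 720720) .out) (.lg 1 false
  11 97 103 16 81984 720720)) .out) (.lg 1 false 11 101 103 16 77371 720720)) (.nr 82 4213 (.lg 2
  true 4 89 89 13 65988 720) (.nx 93 112360 (.lg 1 false 11 101 103 16 52643 720720) (.nx 104
  165142 (.lg 1 true 11 101 103 16 35817 720720) (.nr 131 131073 (.nx 115 208065 (.lg 1 true 11 97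
  103 16 14499 720720) (.nr 130 77937 (.nr 119 8843 (.lg 2 true 4 83 83 13 14974 720) (.lg 2 false
  11 97 103 16 7134 720720)) .out)) .out)))))) .out)))) (.nr 144 217 (.lg 0 true 11 83 83 16 0
  3960) .out)) (.nr 178 24 (.lg 0 true 33 79 79 16 0 3960) .out)) .out) .out) (.nx 337 16777217
  (.nr 336 1048577 (.nx 307 2097153 (.nx 295 660563 (.nx 183 191 (.nr 182 68 (.lg 0 true 1 31 31 7
  0 720) (.l1 .sk)) (.nx 184 192 (.l1 .sk) (.nr 287 370729 (.nx 203 31444 (.nr 195 155873 (.lg 0
  false 11 101 103 17 0 102960) (.nx 202 2049 (.lg 0 false 7 89 89 13 0 5040) .out)) (.nr 286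
  220437 (.nr 214 1026 (.lg 0 true 11 83 83 17 0 1584) (.nr 221 8201 (.lg 2 true 7 89 97 13 61486
  5040) (.nx 278 208065 (.nx 270 165142 (.nx 237 52015 (.nr 236 185365 (.nx 229 41285 (.nr 228
  155873 (.lg 1 false 7 97 101 13 90534 65520) .out) (.lg 1 false 7 97 101 13 81984 65520)) .out)
  (.nx 248 76448 (.lg 1 false 11 97 103 17 77371 102960) (.nx 259 112360 (.lg 1 false 11 97 103 17
  52643 102960) (.lg 1 true 11 97 103 17 35817 102960)))) (.nr 277 185365 (.lg 1 true 7 97 101 13
  20496 65520) .out)) (.nr 285 77937 (.lg 2 false 7 89 97 13 7693 5040) .out)))) .out)) (.nx 294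
  324 (.lg 0 false 7 73 73 13 0 1008) .out)))) (.nr 306 257 (.lg 0 true 11 83 83 17 0 7920) .out))
  (.nr 335 28 (.lg 0 true 28 79 79 13 0 1008) .out)) .out) .out)) (.na 339 8 .ne (.nx 463 16777217
  (.nr 462 1048577 (.nx 341 191 (.nr 340 87 (.lg 0 true 1 41 41 11 0 720) (.l1 .sk)) (.nx 342 192
  (.l1 .sk) (.nr 458 623489 (.nr 454 370729 (.nx 432 2097153 (.nx 424 1048577 (.nx 357 26007 (.nr
  349 155873 (.lg 0 false 7 103 107 13 0 720720) (.nx 356 2049 (.lg 0 false 7 83 97 13 0 5040)
  .out)) (.nr 423 220437 (.nr 371 14343 (.nr 369 7317 (.nr 364 971 (.lg 0 true 7 89 89 13 0 1008)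
  (.nr 367 3732 (.lg 2 true 3 89 97 13 103130 720) (.lg 2 true 2 89 89 11 26833 720))) (.lg 2 true
  2 89 89 11 13686 720)) (.nx 407 165142 (.nx 393 76448 (.nx 386 52015 (.nr 385 185365 (.nx 378
  36779 (.lg 1 false 7 101 107 13 130146 720720) (.lg 1 false 7 101 107 13 92028 720720)) .out)
  (.lg 1 false 7 101 107 13 77371 720720)) (.nx 400 112360 (.lg 1 false 7 101 107 13 52643 720720)
  (.lg 1 true 7 101 107 13 35817 720720))) (.nr 422 185365 (.nx 414 208065 (.lg 1 true 7 97 107 13
  20496 720720) (.nr 421 110219 (.lg 2 false 7 97 107 13 9680 720720) .out)) .out))) .out)) (.nr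
  431 129 (.lg 0 true 7 73 79 13 0 1008) .out)) (.nr 453 55 (.lg 0 true 21 83 83 13 0 5040) .out))
  (.nx 457 814 (.lg 0 false 3 83 89 13 0 720) .out)) (.nx 461 324 (.lg 0 false 3 79 79 13 0 144)
  .out)))) .out) .out))) (.na 652 12 (.na 569 10 (.nx 568 16777217 (.nr 567 1048577 (.nx 466 191
  (.nr 465 97 (.lg 0 false 1 31 31 7 0 720) (.l1 .sk)) (.nx 467 192 (.l1 .sk) (.nx 538 2097153 (.nx
  468 257 (.l1 (.ls 83 37 3245)) (.nr 537 623489 (.nr 532 370729 (.nx 484 41285 (.nr 479 185365
  (.lg 0 false 11 101 107 16 0 720720) (.nx 483 2049 (.lg 0 false 4 83 83 16 0 720) .out)) (.nr 531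
  220437 (.nr 495 764 (.lg 0 true 11 83 83 16 0 792) (.nx 530 832257 (.nx 506 92682 (.lg 1 false 11
  101 107 16 97479 720720) (.nx 517 208065 (.lg 1 true 11 101 107 16 43422 720720) (.nr 529 110219
  (.nr 521 3370 (.lg 2 true 4 83 83 16 104033 144) (.nr 525 14862 (.lg 2 true 4 83 89 16 23585
  5040) (.lg 2 false 4 97 97 16 9680 5040))) .out))) .out)) .out)) (.nx 536 814 (.lg 0 false 4 79
  79 16 0 720) .out)) .out)) (.nr 566 65 (.lg 0 true 28 79 79 16 0 1008) .out)))) .out) .out) (.nx
  651 2097153 (.nr 650 1048577 (.nx 573 257 (.nx 571 191 (.nr 570 117 (.lg 0 false 1 31 31 11 0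
  720) (.l1 .sk)) (.nx 572 192 (.l1 .sk) (.l1 (.ls 83 43 2921)))) (.nr 649 623489 (.nx 641 660563
  (.nx 592 26007 (.nr 584 155873 (.lg 0 false 11 89 97 19 0 7920) (.nx 591 1292 (.lg 0 false 7 83
  83 13 0 5040) .out)) (.nr 640 220437 (.nr 602 3574 (.nr 599 910 (.lg 0 true 7 83 83 13 0 5040)
  (.lg 2 true 3 83 83 13 69323 720)) (.nx 625 104033 (.nx 614 52015 (.nr 613 185365 (.lg 1 false 11
  97 103 19 130146 720720) .out) (.lg 1 false 11 97 103 19 77371 720720)) (.nr 639 185365 (.nr 628
  14035 (.lg 2 true 3 83 83 13 17651 720) (.nx 635 208065 (.lg 1 true 7 97 101 13 32535 65520) (.nr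
  638 65537 (.lg 2 false 3 83 83 13 5763 720) .out))) .out))) .out)) (.nr 648 65 (.lg 0 true 7 71
  71 13 0 5040) .out)) .out)) .out) .out)) (.na 724 13 (.nx 723 2097153 (.nr 722 1048577 (.nx 655
  192 (.nx 654 191 (.nr 653 127 (.lg 0 true 1 37 37 13 0 720) (.l1 .sk)) (.l1 .sk)) (.nr 719 623489
  (.nx 711 660563 (.nx 675 32768 (.nr 666 155873 (.lg 0 false 11 97 103 29 0 720720) (.nx 674 8193
  (.nx 671 1292 (.lg 0 false 5 83 89 19 0 720) (.nx 672 5160 .out (.nr 673 185365 (.lg 0 false 1 83
  83 13 0 144) .out))) .out)) (.nr 710 185365 (.nr 680 1018 (.lg 0 true 5 83 83 19 0 720) (.nx 696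
  104033 (.nx 691 70783 (.lg 1 false 11 97 107 29 103293 720720) (.lg 1 false 5 97 103 19 47818
  65520)) (.nr 709 155873 (.nr 698 4081 (.lg 2 true 2 89 89 13 61969 5040) (.lg 2 false 11 97 107
  29 27364 720720)) .out))) .out)) (.nr 718 65 (.lg 0 true 7 71 73 23 0 1008) .out)) (.nx 721 257
  (.lg 0 false 2 71 71 13 0 144) .out))) .out) .out) (.na 773 15 (.nx 772 2097153 (.nr 771 1048577
  (.nx 726 191 (.nr 725 147 (.lg 0 true 1 31 31 9 0 9360) (.l1 .sk)) (.nx 727 192 (.l1 .sk) (.nx
  728 257 (.l1 (.ls 83 31 2248)) (.nr 770 623489 (.nx 762 660563 (.nr 757 185365 (.nx 735 48160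
  (.lg 0 false 7 101 103 16 0 65520) (.nr 742 2211 (.lg 0 true 7 83 83 16 0 6552) (.nx 749 104033
  (.lg 1 false 7 97 101 16 70280 65520) (.nr 756 155873 (.lg 2 false 7 97 101 16 28532 65520)
  .out)))) (.nx 761 1292 (.lg 0 false 4 79 79 16 0 1872) .out)) (.nr 769 65 (.lg 0 true 7 67 67 16
  0 6552) .out)) .out)))) .out) .out) (.nx 826 2097153 (.nr 825 1048577 (.nr 774 6 .s1 (.nx 777 192
  (.nx 776 191 (.nr 775 156 (.lg 0 true 1 37 37 16 0 720) (.l1 .sk)) (.l1 .sk)) (.nx 794 32768 (.nx
  778 257 (.l1 (.ls 83 37 1948)) (.nr 793 623489 (.nr 785 155873 (.lg 0 false 7 97 101 17 0 55440)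
  (.nx 792 8193 (.nx 789 1292 (.lg 0 false 4 79 83 17 0 720) (.nx 790 5160 .out (.nr 791 185365
  (.lg 0 false 1 83 83 16 0 720) .out))) .out)) .out)) (.nr 824 185365 (.nx 819 660563 (.nr 800
  2285 (.nr 798 597 (.lg 0 true 4 79 79 17 0 720) (.lg 2 true 2 83 83 16 105668 720)) (.nx 811
  104033 (.nx 807 70783 (.lg 1 false 7 97 103 17 103293 55440) (.lg 1 false 4 89 101 17 47818
  7920)) (.nr 818 155873 (.lg 2 false 7 97 103 17 27608 55440) .out))) (.nr 823 65 (.lg 0 true 4 71
  71 17 0 720) .out)) .out)))) .out) .out)))))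

def T14_1 : Ph :=
  (.na 493 183 (.na 290 136 (.na 143 107 (.na 59 93 (.na 32 90 (.na 1 83 (.lg 0 false 1 0 0 16 0
  24) (.na 17 85 (.nx 16 1664512 (.nr 15 524289 (.nr 2 83 .s1 (.nx 5 136 (.nx 4 135 (.nr 3 700 (.l1
  (.ls 17 17 222)) (.l1 .sk)) (.l1 .sk)) (.nx 9 20644 (.lg 0 false 4 79 79 16 0 720) (.nr 14 32769
  (.nr 12 513 (.lg 0 true 3 59 59 16 0 360) (.nx 13 104033 (.lg 2 true 1 67 67 16 14525 720) .out))
  .out)))) .out) .out) (.nx 31 1664512 (.nr 30 524289 (.nr 18 85 .s1 (.nx 21 136 (.nx 20 135 (.nr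
  19 741 (.l1 (.ls 16 23 217)) (.l1 .sk)) (.l1 .sk)) (.nx 25 20644 (.lg 0 false 4 79 79 16 0 720)
  (.nr 29 32769 (.nr 27 513 (.lg 0 true 2 61 61 16 0 720) (.nx 28 104033 (.lg 2 true 1 67 67 16
  14525 360) .out)) .out)))) .out) .out))) (.na 45 91 (.nx 44 1664512 (.nr 43 524289 (.nr 33 90 .s1
  (.nx 35 135 (.nr 34 749 (.l1 (.ls 23 31 205)) (.l1 .sk)) (.nx 36 136 (.l1 .sk) (.nx 38 20644 (.lg
  0 false 2 83 83 29 0 720) (.nr 42 32769 (.nr 40 513 (.lg 0 true 2 67 67 29 0 720) (.nx 41 104033
  (.lg 2 true 1 71 71 29 14525 720) .out)) .out))))) .out) .out) (.na 46 92 .ne (.nx 58 1664512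
  (.nr 57 1048577 (.nr 47 92 .s1 (.nx 52 13005 (.nx 49 135 (.nr 48 766 (.l1 (.ls 19 19 201)) (.l1
  .sk)) (.nx 50 136 (.l1 .sk) (.lg 0 false 2 89 89 19 0 720))) (.nr 56 65537 (.nr 54 513 (.lg 0
  true 2 71 71 19 0 720) (.nx 55 104033 (.lg 1 false 1 89 89 19 46018 720) .out)) .out))) .out)
  .out)))) (.na 101 96 (.na 73 94 (.nx 72 1664512 (.nr 71 1048577 (.nr 60 93 .s1 (.nx 63 136 (.nx
  62 135 (.nr 61 774 (.l1 (.ls 19 19 198)) (.l1 .sk)) (.l1 .sk)) (.nx 67 20644 (.lg 0 false 4 89 89
  19 0 720) (.nr 70 32769 (.nr 68 513 (.lg 0 false 1 73 73 16 0 720) (.nx 69 104033 (.lg 2 true 1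
  71 71 16 14525 360) .out)) .out)))) .out) .out) (.na 87 95 (.nx 86 1664512 (.nr 85 1048577 (.nr
  74 94 .s1 (.nx 80 13005 (.nx 76 135 (.nr 75 782 (.l1 (.ls 19 23 196)) (.l1 .sk)) (.nx 77 136 (.l1
  .sk) (.lg 0 false 3 83 83 19 0 720))) (.nr 84 65537 (.nr 82 513 (.lg 0 true 2 67 67 19 0 720)
  (.nx 83 104033 (.lg 2 true 1 83 83 17 46018 720) .out)) .out))) .out) .out) (.nx 100 1664512 (.nr
  99 1048577 (.nr 88 95 .s1 (.nx 91 136 (.nx 90 135 (.nr 89 791 (.l1 (.ls 17 17 194)) (.l1 .sk))
  (.l1 .sk)) (.nx 95 20644 (.lg 0 false 4 83 83 17 0 720) (.nr 98 32769 (.nr 96 513 (.lg 0 false 1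
  71 71 16 0 720) (.nx 97 104033 (.lg 2 true 1 67 67 16 14525 360) .out)) .out)))) .out) .out)))
  (.na 115 102 (.na 114 100 (.nx 113 1664512 (.nr 112 1048577 (.nr 102 96 .s1 (.nx 104 135 (.nr 103
  824 (.l1 (.ls 23 29 192)) (.l1 .sk)) (.nx 105 136 (.l1 .sk) (.nx 107 13005 (.lg 0 false 2 83 83
  29 0 720) (.nr 111 65537 (.nr 109 513 (.lg 0 true 2 67 67 29 0 720) (.nx 110 104033 (.lg 1 false
  1 83 83 23 46018 720) .out)) .out))))) .out) .out) (.lg 0 false 1 0 0 16 0 24)) (.na 129 106 (.nx
  128 1664512 (.nr 127 1048577 (.nr 116 102 .s1 (.nx 119 136 (.nx 118 135 (.nr 117 873 (.l1 (.ls 16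
  31 181)) (.l1 .sk)) (.l1 .sk)) (.nx 122 20644 (.lg 0 false 3 83 83 31 0 720) (.nr 126 32769 (.nr
  124 513 (.lg 0 true 2 61 61 29 0 720) (.nx 125 104033 (.lg 2 true 1 71 71 29 14525 720) .out))
  .out)))) .out) .out) (.nx 142 1664512 (.nr 141 1048577 (.nr 130 106 .s1 (.nx 133 136 (.nx 132 135
  (.nr 131 881 (.l1 (.ls 17 23 174)) (.l1 .sk)) (.l1 .sk)) (.nx 136 20644 (.lg 0 false 3 83 83 23 0
  720) (.nr 140 32769 (.nr 138 513 (.lg 0 true 2 61 61 19 0 720) (.nx 139 104033 (.lg 2 true 1 71
  71 19 14525 720) .out)) .out)))) .out) .out))))) (.na 238 122 (.na 184 113 (.na 157 108 (.nx 156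
  1664512 (.nr 155 1048577 (.nr 144 107 .s1 (.nx 146 135 (.nr 145 889 (.l1 (.ls 17 17 173)) (.l1
  .sk)) (.nx 147 136 (.l1 .sk) (.nx 151 20644 (.lg 0 false 4 79 79 17 0 720) (.nr 154 32769 (.nr
  152 513 (.lg 0 false 1 67 67 16 0 720) (.nx 153 104033 (.lg 2 true 1 67 67 16 14525 5040) .out))
  .out))))) .out) .out) (.na 169 109 (.nx 168 1664512 (.nr 167 1048577 (.nr 158 108 .s1 (.nx 163
  13005 (.nx 160 135 (.nr 159 898 (.l1 (.ls 29 29 171)) (.l1 .sk)) (.nx 161 136 (.l1 .sk) (.lg 0
  false 2 83 89 31 0 720))) (.nr 166 65537 (.nr 164 513 (.lg 0 true 1 67 67 29 0 720) (.nx 165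
  104033 (.lg 1 true 1 83 83 29 46018 720) .out)) .out))) .out) .out) (.nx 183 1664512 (.nr 182
  1048577 (.nr 170 109 .s1 (.nx 177 20644 (.nx 172 135 (.nr 171 931 (.l1 (.ls 17 17 170)) (.l1
  .sk)) (.nx 173 136 (.l1 .sk) (.lg 0 false 4 79 79 17 0 720))) (.nr 181 32769 (.nr 179 513 (.lg 0
  true 2 59 59 16 0 720) (.nx 180 104033 (.lg 2 true 1 61 61 16 14525 360) .out)) .out))) .out)
  .out))) (.na 211 115 (.na 198 114 (.nx 197 1664512 (.nr 196 1048577 (.nr 185 113 .s1 (.nx 192
  20644 (.nx 187 135 (.nr 186 939 (.l1 (.ls 17 17 164)) (.l1 .sk)) (.nx 188 136 (.l1 .sk) (.lg 0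
  false 4 79 79 17 0 720))) (.nr 195 32769 (.nr 193 513 (.lg 0 false 1 61 61 16 0 360) (.nx 194
  104033 (.lg 2 true 1 61 61 16 14525 720) .out)) .out))) .out) .out) (.nx 210 1664512 (.nr 209
  1048577 (.nr 199 114 .s1 (.nx 202 136 (.nx 201 135 (.nr 200 947 (.l1 (.ls 17 31 162)) (.l1 .sk))
  (.l1 .sk)) (.nx 205 20644 (.lg 0 false 3 83 83 31 0 720) (.nr 208 32769 (.nr 206 513 (.lg 0 false
  1 71 71 29 0 720) (.nx 207 104033 (.lg 2 true 1 71 71 29 14525 720) .out)) .out)))) .out) .out))
  (.na 225 120 (.nx 224 1664512 (.nr 223 1048577 (.nr 212 115 .s1 (.nx 214 135 (.nr 213 988 (.l1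
  (.ls 17 19 161)) (.l1 .sk)) (.nx 215 136 (.l1 .sk) (.nx 219 20644 (.lg 0 false 4 83 83 19 0 720)
  (.nr 222 32769 (.nr 220 513 (.lg 0 false 1 71 71 16 0 720) (.nx 221 104033 (.lg 2 true 1 67 67 16
  14525 360) .out)) .out))))) .out) .out) (.nx 237 1664512 (.nr 236 1048577 (.nr 226 120 .s1 (.nx
  231 13005 (.nx 228 135 (.nr 227 1005 (.l1 (.ls 23 31 154)) (.l1 .sk)) (.nx 229 136 (.l1 .sk) (.lg
  0 false 2 83 83 31 0 720))) (.nr 235 65537 (.nr 233 513 (.lg 0 true 2 67 67 31 0 720) (.nx 234
  104033 (.lg 1 false 1 83 83 29 46018 720) .out)) .out))) .out) .out)))) (.na 264 128 (.na 251 124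
  (.nx 250 1664512 (.nr 249 1048577 (.nr 239 122 .s1 (.nx 245 20644 (.nx 241 135 (.nr 240 1021 (.l1
  (.ls 17 23 152)) (.l1 .sk)) (.nx 242 136 (.l1 .sk) (.lg 0 false 3 83 83 23 0 720))) (.nr 248
  32769 (.nr 246 513 (.lg 2 false 1 67 67 19 920940 720) (.nx 247 104033 (.lg 2 true 1 67 67 19
  14525 720) .out)) .out))) .out) .out) (.na 263 125 (.nx 262 1664512 (.nr 261 1048577 (.nr 252 124
  .s1 (.nx 255 136 (.nx 254 135 (.nr 253 1029 (.l1 (.ls 23 23 149)) (.l1 .sk)) (.l1 .sk)) (.nx 257
  13005 (.lg 0 false 2 89 89 23 0 720) (.nr 260 65537 (.nr 258 513 (.lg 0 true 1 71 71 19 0 720)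
  (.nx 259 104033 (.lg 1 false 1 83 83 19 46018 720) .out)) .out)))) .out) .out) (.lg 0 false 1 0 0
  16 0 24))) (.na 278 131 (.na 277 129 (.nx 276 1664512 (.nr 275 1048577 (.nr 265 128 .s1 (.nx 272
  104033 (.nx 267 135 (.nr 266 1062 (.l1 (.ls 23 23 145)) (.l1 .sk)) (.nx 268 136 (.l1 .sk) (.nx
  270 13005 (.lg 0 false 2 83 83 23 0 720) (.nr 271 65537 (.lg 0 true 1 83 83 19 0 720) .out))))
  (.nr 274 1025 (.lg 0 true 2 71 71 23 0 720) .out))) .out) .out) .ne) (.na 279 135 (.lg 0 false 1
  0 0 16 0 24) (.nx 289 832257 (.nr 288 1048577 (.nr 280 135 .s1 (.nx 284 13005 (.nx 281 257 (.l1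
  (.ls 67 29 492)) (.nr 283 741457 (.lg 0 false 2 79 79 23 0 720) .out)) (.nr 287 16385 (.nr 285
  1025 (.lg 0 false 1 61 61 19 0 360) (.nx 286 104033 (.lg 2 false 1 59 59 19 11576 360) .out))
  .out))) .out) .out)))))) (.na 393 158 (.na 350 149 (.na 320 139 (.na 300 137 (.nx 299 832257 (.nr
  298 1048577 (.nr 291 136 .s1 (.nx 294 13005 (.nx 292 257 (.l1 (.ls 79 31 488)) (.nr 293 741457
  (.lg 0 false 1 89 89 29 0 720) .out)) (.nr 297 16385 (.nx 295 104033 (.lg 0 true 1 79 83 29 0
  720) (.nr 296 1025 (.lg 0 true 1 73 73 29 0 720) .out)) .out))) .out) .out) (.na 310 138 (.nx 309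
  832257 (.nr 308 1048577 (.nr 301 137 .s1 (.nx 302 257 (.l1 (.ls 67 19 485)) (.nr 307 741457 (.nx
  303 13005 (.lg 0 true 1 79 79 16 0 720) (.nr 306 16385 (.nr 304 1025 (.lg 0 false 1 61 61 16 0
  360) (.nx 305 104033 (.lg 2 true 1 53 53 16 11576 720) .out)) .out)) .out))) .out) .out) (.nx 319
  832257 (.nr 318 1048577 (.nr 311 138 .s1 (.nx 312 257 (.l1 (.ls 71 41 481)) (.nr 317 741457 (.nx
  313 13005 (.lg 0 true 1 83 83 19 0 720) (.nr 316 16385 (.nr 314 1025 (.lg 0 false 1 71 71 19 0
  720) (.nx 315 104033 (.lg 2 true 1 61 61 19 11576 720) .out)) .out)) .out))) .out) .out))) (.na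
  330 141 (.nx 329 832257 (.nr 328 1048577 (.nr 321 139 .s1 (.nx 322 257 (.l1 (.ls 61 19 478)) (.nr
  327 741457 (.nx 323 13005 (.lg 0 true 1 79 79 16 0 720) (.nr 326 16385 (.nr 324 1025 (.lg 0 false
  1 61 61 16 0 720) (.nx 325 104033 (.lg 2 true 1 53 53 16 11576 720) .out)) .out)) .out))) .out)
  .out) (.na 340 144 (.nx 339 832257 (.nr 338 1048577 (.nr 331 141 .s1 (.nx 334 13005 (.nx 332 257
  (.l1 (.ls 71 23 471)) (.nr 333 741457 (.lg 0 true 1 83 83 17 0 720) .out)) (.nr 337 16385 (.nr
  335 1025 (.lg 0 false 1 67 67 17 0 360) (.nx 336 104033 (.lg 2 false 1 59 59 17 11576 360) .out))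
  .out))) .out) .out) (.nx 349 832257 (.nr 348 1048577 (.nr 341 144 .s1 (.nx 342 257 (.l1 (.ls 79
  37 461)) (.nr 347 741457 (.nx 343 13005 (.lg 0 false 1 89 97 31 0 720) (.nr 346 16385 (.nx 344
  104033 (.lg 0 true 1 79 83 31 0 720) (.nr 345 1025 (.lg 0 true 1 73 73 31 0 720) .out)) .out))
  .out))) .out) .out)))) (.na 362 152 (.na 351 150 (.lg 0 false 1 0 0 16 0 24) (.na 352 151 (.lg 0
  false 1 0 0 16 0 24) (.nx 361 832257 (.nr 360 1048577 (.nr 353 151 .s1 (.nx 356 13005 (.nx 354
  257 (.l1 (.ls 61 19 440)) (.nr 355 741457 (.lg 0 true 1 79 79 16 0 720) .out)) (.nr 359 16385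
  (.nr 357 1025 (.lg 0 false 1 61 61 16 0 720) (.nx 358 104033 (.lg 2 true 1 53 53 16 11576 720)
  .out)) .out))) .out) .out))) (.na 382 155 (.na 372 153 (.nx 371 832257 (.nr 370 1048577 (.nr 363
  152 .s1 (.nx 364 257 (.l1 (.ls 79 31 437)) (.nr 369 741457 (.nx 365 13005 (.lg 0 false 1 89 97 29
  0 720) (.nr 368 16385 (.nx 366 104033 (.lg 0 true 1 79 83 29 0 720) (.nr 367 1025 (.lg 0 true 1
  73 73 29 0 720) .out)) .out)) .out))) .out) .out) (.nx 381 832257 (.nr 380 1048577 (.nr 373 153
  .s1 (.nx 374 257 (.l1 (.ls 73 29 434)) (.nr 379 741457 (.nx 375 13005 (.lg 0 false 1 89 89 23 0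
  360) (.nr 378 16385 (.nr 376 1025 (.lg 0 true 1 71 71 23 0 360) (.nx 377 104033 (.lg 2 false 1 67
  67 23 11576 360) .out)) .out)) .out))) .out) .out)) (.na 392 157 (.nx 391 832257 (.nr 390 1048577
  (.nr 383 155 .s1 (.nx 386 13005 (.nx 384 257 (.l1 (.ls 67 23 429)) (.nr 385 741457 (.lg 0 true 1
  83 83 17 0 720) .out)) (.nr 389 16385 (.nr 387 1025 (.lg 0 false 1 67 67 17 0 720) (.nx 388
  104033 (.lg 2 true 1 59 59 17 11576 720) .out)) .out))) .out) .out) (.lg 0 false 1 0 0 16 0
  24))))) (.na 445 170 (.na 423 162 (.na 403 159 (.nx 402 832257 (.nr 401 1048577 (.nr 394 158 .s1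
  (.nx 395 257 (.l1 (.ls 67 29 421)) (.nr 400 741457 (.nx 396 13005 (.lg 0 true 1 83 83 19 0 720)
  (.nr 399 16385 (.nr 397 1025 (.lg 0 false 1 61 61 19 0 720) (.nx 398 104033 (.lg 2 true 1 53 53
  19 11576 720) .out)) .out)) .out))) .out) .out) (.na 413 160 (.nx 412 832257 (.nr 411 1048577
  (.nr 404 159 .s1 (.nx 405 257 (.l1 (.ls 71 23 418)) (.nr 410 741457 (.nx 406 13005 (.lg 0 true 1
  83 83 17 0 720) (.nr 409 16385 (.nr 407 1025 (.lg 0 false 1 67 67 17 0 720) (.nx 408 104033 (.lg
  2 true 1 59 59 17 11576 360) .out)) .out)) .out))) .out) .out) (.nx 422 832257 (.nr 421 1048577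
  (.nr 414 160 .s1 (.nx 415 257 (.l1 (.ls 71 31 415)) (.nr 420 741457 (.nx 416 13005 (.lg 0 false 1
  79 79 29 0 720) (.nr 419 16385 (.nr 417 1025 (.lg 0 true 1 61 61 29 0 720) (.nx 418 104033 (.lg 2
  false 1 59 59 29 11576 720) .out)) .out)) .out))) .out) .out))) (.na 425 166 (.na 424 163 (.lg 0
  false 1 0 0 16 0 24) (.lg 0 false 1 0 0 16 0 24)) (.na 435 167 (.nx 434 832257 (.nr 433 1048577
  (.nr 426 166 .s1 (.nx 429 13005 (.nx 427 257 (.l1 (.ls 67 29 400)) (.nr 428 741457 (.lg 0 true 1
  83 83 19 0 720) .out)) (.nr 432 16385 (.nr 430 1025 (.lg 0 false 1 67 67 19 0 720) (.nx 431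
  104033 (.lg 2 true 1 53 53 19 11576 720) .out)) .out))) .out) .out) (.nx 444 832257 (.nr 443
  1048577 (.nr 436 167 .s1 (.nx 439 13005 (.nx 437 257 (.l1 (.ls 61 19 398)) (.nr 438 741457 (.lg 0
  true 1 79 79 16 0 720) .out)) (.nr 442 16385 (.nr 440 1025 (.lg 0 false 1 61 61 16 0 720) (.nx
  441 104033 (.lg 2 false 1 53 53 16 11576 720) .out)) .out))) .out) .out)))) (.na 473 179 (.na 453
  171 (.nx 452 832257 (.nr 451 1048577 (.nr 446 170 .s1 (.nx 447 257 (.l1 (.ls 71 37 391)) (.nr 450
  741457 (.nr 448 16385 (.lg 0 false 1 89 89 29 0 720) (.nx 449 13005 (.lg 0 true 1 83 83 29 0 720)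
  .out)) .out))) .out) .out) (.na 463 173 (.nx 462 832257 (.nr 461 1048577 (.nr 454 171 .s1 (.nx
  457 13005 (.nx 455 257 (.l1 (.ls 73 29 389)) (.nr 456 741457 (.lg 0 false 1 83 83 23 0 360)
  .out)) (.nr 460 16385 (.nr 458 1025 (.lg 0 true 1 71 71 23 0 360) (.nx 459 104033 (.lg 2 false 1
  67 67 23 11576 720) .out)) .out))) .out) .out) (.nx 472 832257 (.nr 471 1048577 (.nr 464 173 .s1
  (.nx 467 13005 (.nx 465 257 (.l1 (.ls 61 19 384)) (.nr 466 741457 (.lg 0 true 1 73 73 16 0 360)
  .out)) (.nr 470 16385 (.nr 468 1025 (.lg 0 false 1 59 59 16 0 360) (.nx 469 104033 (.lg 2 true 1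
  47 47 16 11576 360) .out)) .out))) .out) .out))) (.na 484 181 (.na 474 180 (.lg 0 false 1 0 0 16
  0 24) (.nx 483 832257 (.nr 482 1048577 (.nr 475 180 .s1 (.nx 476 257 (.l1 (.ls 73 37 369)) (.nr
  481 741457 (.nx 479 104033 (.nx 477 13005 (.lg 0 false 1 83 83 31 0 720) (.nr 478 16385 (.lg 0
  true 1 73 73 31 0 720) .out)) (.nr 480 1025 (.lg 0 true 1 67 67 31 0 720) .out)) .out))) .out)
  .out)) (.na 492 182 (.nx 491 832257 (.nr 490 1048577 (.nr 485 181 .s1 (.nx 486 257 (.l1 (.ls 61
  19 367)) (.nr 489 741457 (.nr 487 16385 (.lg 0 false 1 79 79 16 0 720) (.nx 488 13005 (.lg 0 true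
  1 73 73 16 0 360) .out)) .out))) .out) .out) .ne)))))) (.na 692 237 (.na 588 211 (.na 540 192
  (.na 521 188 (.na 503 184 (.nx 502 832257 (.nr 501 1048577 (.nr 494 183 .s1 (.nx 495 257 (.l1
  (.ls 59 23 363)) (.nr 500 741457 (.nx 496 13005 (.lg 0 true 1 79 79 17 0 720) (.nr 499 16385 (.nr
  497 1025 (.lg 0 false 1 61 61 17 0 360) (.nx 498 104033 (.lg 2 false 1 47 47 17 11576 720) .out))
  .out)) .out))) .out) .out) (.na 513 186 (.nx 512 832257 (.nr 511 1048577 (.nr 504 184 .s1 (.nx
  505 257 (.l1 (.ls 79 31 361)) (.nr 510 741457 (.nx 508 104033 (.nx 506 13005 (.lg 0 false 1 89 89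
  31 0 720) (.nr 507 16385 (.lg 0 true 1 79 79 31 0 720) .out)) (.nr 509 1025 (.lg 0 true 1 73 73
  31 0 720) .out)) .out))) .out) .out) (.nx 520 832257 (.nr 519 1048577 (.nr 514 186 .s1 (.nx 515
  257 (.l1 (.ls 67 37 358)) (.nr 518 741457 (.nr 516 16385 (.lg 0 false 1 83 83 29 0 720) (.nx 517
  13005 (.lg 0 true 1 83 83 29 0 720) .out)) .out))) .out) .out))) (.na 531 190 (.nx 530 832257
  (.nr 529 1048577 (.nr 522 188 .s1 (.nx 525 13005 (.nx 523 257 (.l1 (.ls 73 29 354)) (.nr 524
  741457 (.lg 0 false 1 83 83 23 0 720) .out)) (.nr 528 16385 (.nr 526 1025 (.lg 0 true 1 67 67 23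
  0 720) (.nx 527 104033 (.lg 2 false 1 61 61 23 11576 720) .out)) .out))) .out) .out) (.na 539 191
  (.nx 538 832257 (.nr 537 1048577 (.nr 532 190 .s1 (.nx 533 257 (.l1 (.ls 67 37 350)) (.nr 536
  741457 (.nr 534 16385 (.lg 0 false 1 83 83 29 0 720) (.nx 535 13005 (.lg 0 true 1 79 79 29 0 720)
  .out)) .out))) .out) .out) (.lg 0 false 1 0 0 16 0 24)))) (.na 559 199 (.na 550 193 (.nx 549
  832257 (.nr 548 1048577 (.nr 541 192 .s1 (.nx 542 257 (.l1 (.ls 71 31 347)) (.nr 547 741457 (.nx
  543 13005 (.lg 0 false 1 79 79 29 0 720) (.nr 546 16385 (.nr 544 1025 (.lg 0 true 1 61 61 29 0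
  720) (.nx 545 104033 (.lg 2 false 1 59 59 29 11576 720) .out)) .out)) .out))) .out) .out) (.na
  551 197 (.lg 0 false 1 0 0 16 0 24) (.nx 558 832257 (.nr 557 1048577 (.nr 552 197 .s1 (.nx 553
  257 (.l1 (.ls 61 19 338)) (.nr 556 741457 (.nr 554 16385 (.lg 0 false 1 79 79 16 0 720) (.nx 555
  13005 (.lg 0 true 1 73 73 16 0 360) .out)) .out))) .out) .out))) (.na 568 204 (.na 567 200 (.nx
  566 832257 (.nr 565 1048577 (.nr 560 199 .s1 (.nx 561 257 (.l1 (.ls 61 19 334)) (.nr 564 741457
  (.nr 562 16385 (.lg 0 false 1 79 79 16 0 720) (.nx 563 13005 (.lg 0 true 1 73 73 16 0 720) .out))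
  .out))) .out) .out) (.lg 0 false 1 0 0 16 0 24)) (.na 578 207 (.nx 577 832257 (.nr 576 1048577
  (.nr 569 204 .s1 (.nx 572 13005 (.nx 570 257 (.l1 (.ls 71 37 326)) (.nr 571 741457 (.lg 0 false 1
  79 79 31 0 720) .out)) (.nr 575 16385 (.nr 573 1025 (.lg 0 true 1 61 61 31 0 720) (.nx 574 104033
  (.lg 2 true 1 59 59 31 11576 720) .out)) .out))) .out) .out) (.nx 587 832257 (.nr 586 1048577
  (.nr 579 207 .s1 (.nx 582 13005 (.nx 580 257 (.l1 (.ls 73 19 322)) (.nr 581 741457 (.lg 0 false 1
  83 83 19 0 360) .out)) (.nr 585 16385 (.nr 583 1025 (.lg 0 true 1 67 67 19 0 360) (.nx 584 104033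
  (.lg 2 false 1 61 61 19 11576 360) .out)) .out))) .out) .out))))) (.na 634 226 (.na 614 216 (.na
  596 212 (.nx 595 832257 (.nr 594 1048577 (.nr 589 211 .s1 (.nx 590 257 (.l1 (.ls 61 19 316)) (.nr
  593 741457 (.nr 591 16385 (.lg 0 false 1 73 73 16 0 360) (.nx 592 13005 (.lg 0 true 1 73 73 16 0
  720) .out)) .out))) .out) .out) (.na 606 214 (.nx 605 832257 (.nr 604 1048577 (.nr 597 212 .s1
  (.nx 600 13005 (.nx 598 257 (.l1 (.ls 71 29 314)) (.nr 599 741457 (.lg 0 false 1 79 79 23 0 720)
  .out)) (.nr 603 16385 (.nr 601 1025 (.lg 0 true 1 67 67 23 0 720) (.nx 602 104033 (.lg 2 false 1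
  59 59 23 11576 720) .out)) .out))) .out) .out) (.nx 613 832257 (.nr 612 1048577 (.nr 607 214 .s1
  (.nx 608 257 (.l1 (.ls 61 29 311)) (.nr 611 741457 (.nr 609 16385 (.lg 0 false 1 79 79 23 0 720)
  (.nx 610 13005 (.lg 0 true 1 73 73 23 0 720) .out)) .out))) .out) .out))) (.na 632 223 (.na 624
  218 (.nx 623 832257 (.nr 622 1048577 (.nr 615 216 .s1 (.nx 616 257 (.l1 (.ls 73 31 308)) (.nr 621
  741457 (.nx 619 104033 (.nx 617 13005 (.lg 0 false 1 79 83 37 0 720) (.nr 618 16385 (.lg 0 true 1
  71 73 37 0 720) .out)) (.nr 620 1025 (.lg 0 true 1 61 71 37 0 720) .out)) .out))) .out) .out)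
  (.nx 631 832257 (.nr 630 1048577 (.nr 625 218 .s1 (.nx 626 257 (.l1 (.ls 61 29 305)) (.nr 629
  741457 (.nr 627 16385 (.lg 0 false 1 79 79 23 0 720) (.nx 628 13005 (.lg 0 true 1 73 73 23 0 720)
  .out)) .out))) .out) .out)) (.na 633 225 (.lg 0 false 1 0 0 16 0 24) (.lg 0 false 1 0 0 16 0
  24)))) (.na 660 229 (.na 642 227 (.nx 641 832257 (.nr 640 1048577 (.nr 635 226 .s1 (.nx 636 257
  (.l1 (.ls 61 29 295)) (.nr 639 741457 (.nr 637 16385 (.lg 0 false 1 79 79 23 0 5040) (.nx 638
  13005 (.lg 0 true 1 73 73 23 0 720) .out)) .out))) .out) .out) (.na 650 228 (.nx 649 832257 (.nr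
  648 1048577 (.nr 643 227 .s1 (.nx 644 257 (.l1 (.ls 59 19 293)) (.nr 647 741457 (.nr 645 16385
  (.lg 0 false 1 73 73 17 0 720) (.nx 646 13005 (.lg 0 true 1 71 71 17 0 360) .out)) .out))) .out)
  .out) (.nx 659 832257 (.nr 658 1048577 (.nr 651 228 .s1 (.nx 654 13005 (.nx 652 257 (.l1 (.ls 71
  37 292)) (.nr 653 741457 (.lg 0 false 1 79 79 37 0 720) .out)) (.nr 657 16385 (.nr 655 1025 (.lg
  0 true 1 61 61 37 0 720) (.nx 656 104033 (.lg 2 true 1 59 59 37 11576 720) .out)) .out))) .out)
  .out))) (.na 676 233 (.na 668 230 (.nx 667 832257 (.nr 666 1048577 (.nr 661 229 .s1 (.nx 662 257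
  (.l1 (.ls 61 19 291)) (.nr 665 741457 (.nr 663 16385 (.lg 0 false 1 73 73 17 0 360) (.nx 664
  13005 (.lg 0 true 1 73 73 17 0 720) .out)) .out))) .out) .out) (.nx 675 832257 (.nr 674 1048577
  (.nr 669 230 .s1 (.nx 670 257 (.l1 (.ls 67 37 290)) (.nr 673 741457 (.nx 671 13005 (.lg 0 true 1
  79 79 31 0 720) (.nr 672 16385 (.lg 0 false 1 79 79 31 0 720) .out)) .out))) .out) .out)) (.na
  684 235 (.nx 683 832257 (.nr 682 1048577 (.nr 677 233 .s1 (.nx 678 257 (.l1 (.ls 61 19 286)) (.nr
  681 741457 (.nr 679 16385 (.lg 0 false 1 73 73 17 0 360) (.nx 680 13005 (.lg 0 true 1 73 73 17 0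
  720) .out)) .out))) .out) .out) (.nx 691 832257 (.nr 690 1048577 (.nr 685 235 .s1 (.nx 686 406
  (.l1 (.ls 67 29 704)) (.nr 689 741457 (.nr 687 16385 (.lg 0 false 1 79 79 17 0 720) (.nx 688
  13005 (.lg 0 true 1 73 73 17 0 360) .out)) .out))) .out) .out)))))) (.na 2124 725 (.na 740 249
  (.na 711 241 (.na 700 239 (.nx 699 832257 (.nr 698 1048577 (.nr 693 237 .s1 (.nx 694 257 (.l1
  (.ls 59 23 281)) (.nr 697 741457 (.nr 695 16385 (.lg 0 false 1 79 79 19 0 720) (.nx 696 13005
  (.lg 0 true 1 71 71 19 0 360) .out)) .out))) .out) .out) (.na 701 240 (.lg 0 false 1 0 0 16 0 24)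
  (.nx 710 832257 (.nr 709 1048577 (.nr 702 240 .s1 (.nx 703 257 (.l1 (.ls 71 37 278)) (.nr 708
  741457 (.nx 704 13005 (.lg 0 false 1 73 73 31 0 720) (.nr 707 16385 (.nr 705 1025 (.lg 0 true 1
  61 61 31 0 720) (.nx 706 104033 (.lg 2 false 1 53 53 31 11576 720) .out)) .out)) .out))) .out)
  .out))) (.na 720 244 (.na 719 243 (.nx 718 832257 (.nr 717 1048577 (.nr 712 241 .s1 (.nx 713 257
  (.l1 (.ls 61 19 277)) (.nr 716 741457 (.nr 714 16385 (.lg 0 false 1 73 73 17 0 720) (.nx 715
  13005 (.lg 0 true 1 71 71 17 0 360) .out)) .out))) .out) .out) (.lg 0 false 1 0 0 16 0 24)) (.na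
  730 248 (.nx 729 832257 (.nr 728 1048577 (.nr 721 244 .s1 (.nx 722 257 (.l1 (.ls 59 29 273)) (.nr
  727 741457 (.nx 723 13005 (.lg 0 false 1 79 79 23 0 720) (.nr 726 16385 (.nr 724 1025 (.lg 0 true
  1 61 61 23 0 720) (.nx 725 104033 (.lg 2 false 1 53 53 23 11576 720) .out)) .out)) .out))) .out)
  .out) (.nx 739 832257 (.nr 738 1048577 (.nr 731 248 .s1 (.nx 732 257 (.l1 (.ls 79 29 269)) (.nr
  737 741457 (.nx 733 13005 (.lg 0 false 1 83 89 29 0 720) (.nr 736 16385 (.nx 734 104033 (.lg 0
  true 1 73 79 29 0 720) (.nr 735 1025 (.lg 0 true 1 67 71 29 0 720) .out)) .out)) .out))) .out)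
  .out)))) (.na 750 255 (.na 748 250 (.nx 747 832257 (.nr 746 1048577 (.nr 741 249 .s1 (.nx 742 257
  (.l1 (.ls 59 23 268)) (.nr 745 741457 (.nr 743 16385 (.lg 0 false 1 73 73 19 0 720) (.nx 744
  13005 (.lg 0 true 1 71 71 19 0 360) .out)) .out))) .out) .out) (.na 749 251 (.lg 0 false 1 0 0 16
  0 24) (.lg 0 false 1 0 0 16 0 24))) (.na 768 257 (.na 758 256 (.nx 757 832257 (.nr 756 1048577
  (.nr 751 255 .s1 (.nx 752 257 (.l1 (.ls 61 31 262)) (.nr 755 741457 (.nr 753 16385 (.lg 0 false 1
  79 79 29 0 720) (.nx 754 13005 (.lg 0 true 1 73 73 29 0 720) .out)) .out))) .out) .out) (.nx 767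
  832257 (.nr 766 1482912 (.nr 759 256 .s1 (.nx 760 205 (.l1 (.ls 67 23 167)) (.nr 765 1048577 (.nx
  761 13005 (.lg 0 false 1 73 73 29 0 720) (.nr 764 32769 (.nr 762 2049 (.lg 0 true 1 61 61 29 0
  720) (.nx 763 104033 (.lg 2 false 1 61 61 29 23057 720) .out)) .out)) .out))) .out) .out)) (.na
  1488 512 (.nx 1487 832257 (.nr 1486 1482912 (.nr 769 257 .s1 (.nx 905 136 (.nx 904 135 (.nr 903
  4215 (.lx (.lp 31 19 129)) (.l1 .sk)) (.l1 .sk)) (.nx 974 205 (.lx (.lp 71 19 129)) (.nr 1485
  1048577 (.nr 1229 32769 (.la (.lg 0 true 1 79 79 23 0)) (.nx 1484 10323 (.la (.lg 0 false 1 71 71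
  23 0)) .out)) .out)))) .out) .out) (.nx 2123 832257 (.nr 2122 1482912 (.nr 1489 512 .s1 (.nx 1694
  205 (.nx 1624 135 (.nr 1623 5968 (.lx (.lp 31 19 182)) (.l1 .sk)) (.nx 1625 136 (.l1 .sk) (.lx
  (.lp 67 19 182)))) (.nr 2121 1048577 (.nx 1907 10323 (.la (.lg 0 false 1 67 67 29 0)) (.nr 2120
  32769 (.la (.lg 2 true 1 61 61 29 109722)) .out)) .out))) .out) .out))))) (.na 10285 8192 (.na
  4318 2048 (.na 2726 1024 (.nx 2725 10323 (.nr 2724 1048577 (.nr 2125 725 .s1 (.nx 2424 2049 (.la
  (.ls 67 37 5793)) (.nr 2723 16385 (.la (.lg 0 true 1 37 37 29 0)) .out))) .out) .out) (.na 3580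
  1449 (.nx 3579 10323 (.nr 3578 1048577 (.nr 2727 1024 .s1 (.nx 3152 2582 (.la (.ls 67 41 6513))
  (.nr 3577 16385 (.la (.ls 37 53 97559)) .out))) .out) .out) (.nx 4317 2582 (.nr 4316 524289 (.nr
  3581 1449 .s1 (.nx 3716 135 (.nr 3715 16858 (.lx (.lp 31 29 513)) (.l1 .sk)) (.nx 3717 136 (.l1
  .sk) (.la (.ls 59 37 4591))))) .out) .out))) (.na 6644 4096 (.na 5306 2897 (.nx 5305 3252 (.nr
  5304 524289 (.nr 4319 2048 .s1 (.nx 4455 136 (.nx 4454 135 (.nr 4453 23846 (.lx (.lp 29 29 725))
  (.l1 .sk)) (.l1 .sk)) (.la (.ls 53 41 5157)))) .out) .out) (.nx 6643 2582 (.nr 6642 262145 (.nr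
  5307 2897 .s1 (.nx 5443 136 (.nx 5442 135 (.nr 5441 33715 (.lx (.lp 29 31 1025)) (.l1 .sk)) (.l1
  .sk)) (.la (.ls 43 37 2297)))) .out) .out)) (.na 8991 5793 (.nx 8990 2582 (.nr 8989 262145 (.nr
  6645 4096 .s1 (.nx 7291 647 (.lx (.lp 43 37 1449)) (.nr 8988 65537 (.la (.ls 37 37 1528)) .out)))
  .out) .out) (.nx 10284 1292 (.nr 10283 65537 (.nr 8992 5793 .s1 (.lx (.lp 31 37 2049))) .out)
  .out)))) (.na 13903 65536 (.na 11580 16384 (.nx 11579 1292 (.nr 11578 131073 (.nr 10286 8192 .s1
  (.nx 10490 205 (.lx (.lp 37 37 4097)) (.nr 11577 65537 (.lx (.lp 31 41 4097)) .out))) .out) .out)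
  (.na 12875 32768 (.nx 12874 1292 (.nr 12873 262145 (.nr 11581 16384 .s1 (.nx 11785 205 (.lx (.lp
  37 41 8193)) (.nr 12872 131073 (.lx (.lp 31 43 8193)) .out))) .out) .out) (.nx 13902 1025 (.nr
  13901 262145 (.nr 12876 32768 .s1 (.nx 13080 205 (.lx (.lp 16 0 16385)) (.nr 13900 131073 (.lx
  (.lp 29 47 16385)) .out))) .out) .out))) (.na 14933 262144 (.na 14931 131072 (.nx 14930 1025 (.nr
  14929 262145 (.nr 13904 65536 .s1 (.nx 14227 324 (.lx (.lp 31 53 32769)) (.nr 14928 131073 (.lx
  (.lp 23 53 32769)) .out))) .out) .out) (.nx 14932 324 (.l1 .sk) .out)) (.na 14935 524289 (.nx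
  14934 205 (.l1 .sk) .out) .out)))))))

theorem c14 :
    OkQ ckI L9 191 5 16 0 34359738368 1 1099511627776 ∧
    OkQ ckI L8 135 81 1099511627776 0 34359738368 1 1099511627776 := by
  refine ⟨?_, ?_⟩
  · refine fin 72 827 T14_0 ?_
    refine jn 3 (by decide +kernel) ?_
    refine jn 4 (by decide +kernel) ?_
    refine jn 6 (by decide +kernel) ?_
    refine jn 8 (by decide +kernel) ?_
    refine jn 9 (by decide +kernel) ?_
    refine jn 11 (by decide +kernel) ?_
    refine jn 13 (by decide +kernel) ?_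
    refine jn 14 (by decide +kernel) ?_
    refine jn 25 (by decide +kernel) ?_
    refine jn 34 (by decide +kernel) ?_
    refine jn 37 (by decide +kernel) ?_
    refine jn 40 (by decide +kernel) ?_
    refine jn 43 (by decide +kernel) ?_
    refine jn 54 (by decide +kernel) ?_
    refine jn 66 (by decide +kernel) ?_
    refine jn 78 (by decide +kernel) ?_
    refine jn 82 (by decide +kernel) ?_
    refine jn 93 (by decide +kernel) ?_
    refine jn 104 (by decide +kernel) ?_
    refine jn 115 (by decide +kernel) ?_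
    refine jn 119 (by decide +kernel) ?_
    refine jn 130 (by decide +kernel) ?_
    refine jn 142 (by decide +kernel) ?_
    refine jn 178 (by decide +kernel) ?_
    refine jn 185 (by decide +kernel) ?_
    refine jn 187 (by decide +kernel) ?_
    refine jn 188 (by decide +kernel) ?_
    refine jn 190 (by decide +kernel) ?_
    refine jn 191 (by decide +kernel) ?_
    refine jn 193 (by decide +kernel) ?_
    refine jn 194 (by decide +kernel) ?_
    refine jn 195 (by decide +kernel) ?_
    refine jn 203 (by decide +kernel) ?_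
    refine jn 206 (by decide +kernel) ?_
    refine jn 209 (by decide +kernel) ?_
    refine jn 212 (by decide +kernel) ?_
    refine jn 214 (by decide +kernel) ?_
    refine jn 221 (by decide +kernel) ?_
    refine jn 236 (by decide +kernel) ?_
    refine jn 248 (by decide +kernel) ?_
    refine jn 259 (by decide +kernel) ?_
    refine jn 270 (by decide +kernel) ?_
    refine jn 278 (by decide +kernel) ?_
    refine jn 285 (by decide +kernel) ?_
    refine jn 301 (by decide +kernel) ?_
    refine jn 306 (by decide +kernel) ?_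
    refine jn 335 (by decide +kernel) ?_
    refine jn 342 (by decide +kernel) ?_
    refine jn 343 (by decide +kernel) ?_
    refine jn 344 (by decide +kernel) ?_
    refine jn 345 (by decide +kernel) ?_
    refine jn 346 (by decide +kernel) ?_
    refine jn 347 (by decide +kernel) ?_
    refine jn 348 (by decide +kernel) ?_
    refine jn 349 (by decide +kernel) ?_
    refine jn 356 (by decide +kernel) ?_
    refine jn 357 (by decide +kernel) ?_
    refine jn 358 (by decide +kernel) ?_
    refine jn 359 (by decide +kernel) ?_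
    refine jn 360 (by decide +kernel) ?_
    refine jn 361 (by decide +kernel) ?_
    refine jn 362 (by decide +kernel) ?_
    refine jn 363 (by decide +kernel) ?_
    refine jn 364 (by decide +kernel) ?_
    refine jn 367 (by decide +kernel) ?_
    refine jn 369 (by decide +kernel) ?_
    refine jn 371 (by decide +kernel) ?_
    refine jn 377 (by decide +kernel) ?_
    refine jn 378 (by decide +kernel) ?_
    refine jn 384 (by decide +kernel) ?_
    refine jn 386 (by decide +kernel) ?_
    refine jn 391 (by decide +kernel) ?_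
    refine jn 393 (by decide +kernel) ?_
    refine jn 398 (by decide +kernel) ?_
    refine jn 400 (by decide +kernel) ?_
    refine jn 404 (by decide +kernel) ?_
    refine jn 407 (by decide +kernel) ?_
    refine jn 413 (by decide +kernel) ?_
    refine jn 414 (by decide +kernel) ?_
    refine jn 418 (by decide +kernel) ?_
    refine jn 421 (by decide +kernel) ?_
    refine jn 427 (by decide +kernel) ?_
    refine jn 431 (by decide +kernel) ?_
    refine jn 432 (by decide +kernel) ?_
    refine jn 436 (by decide +kernel) ?_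
    refine jn 453 (by decide +kernel) ?_
    refine jn 461 (by decide +kernel) ?_
    refine jn 468 (by decide +kernel) ?_
    refine jn 471 (by decide +kernel) ?_
    refine jn 474 (by decide +kernel) ?_
    refine jn 477 (by decide +kernel) ?_
    refine jn 479 (by decide +kernel) ?_
    refine jn 488 (by decide +kernel) ?_
    refine jn 494 (by decide +kernel) ?_
    refine jn 495 (by decide +kernel) ?_
    refine jn 506 (by decide +kernel) ?_
    refine jn 517 (by decide +kernel) ?_
    refine jn 525 (by decide +kernel) ?_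
    refine jn 536 (by decide +kernel) ?_
    refine jn 566 (by decide +kernel) ?_
    refine jn 573 (by decide +kernel) ?_
    refine jn 576 (by decide +kernel) ?_
    refine jn 578 (by decide +kernel) ?_
    refine jn 580 (by decide +kernel) ?_
    refine jn 583 (by decide +kernel) ?_
    refine jn 591 (by decide +kernel) ?_
    refine jn 596 (by decide +kernel) ?_
    refine jn 599 (by decide +kernel) ?_
    refine jn 602 (by decide +kernel) ?_
    refine jn 613 (by decide +kernel) ?_
    refine jn 625 (by decide +kernel) ?_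
    refine jn 635 (by decide +kernel) ?_
    refine jn 648 (by decide +kernel) ?_
    refine jn 655 (by decide +kernel) ?_
    refine jn 656 (by decide +kernel) ?_
    refine jn 657 (by decide +kernel) ?_
    refine jn 658 (by decide +kernel) ?_
    refine jn 659 (by decide +kernel) ?_
    refine jn 660 (by decide +kernel) ?_
    refine jn 661 (by decide +kernel) ?_
    refine jn 662 (by decide +kernel) ?_
    refine jn 663 (by decide +kernel) ?_
    refine jn 664 (by decide +kernel) ?_
    refine jn 665 (by decide +kernel) ?_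
    refine jn 666 (by decide +kernel) ?_
    refine jn 671 (by decide +kernel) ?_
    refine jn 675 (by decide +kernel) ?_
    refine jn 676 (by decide +kernel) ?_
    refine jn 677 (by decide +kernel) ?_
    refine jn 678 (by decide +kernel) ?_
    refine jn 679 (by decide +kernel) ?_
    refine jn 680 (by decide +kernel) ?_
    refine jn 684 (by decide +kernel) ?_
    refine jn 688 (by decide +kernel) ?_
    refine jn 691 (by decide +kernel) ?_
    refine jn 696 (by decide +kernel) ?_
    refine jn 698 (by decide +kernel) ?_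
    refine jn 701 (by decide +kernel) ?_
    refine jn 704 (by decide +kernel) ?_
    refine jn 707 (by decide +kernel) ?_
    refine jn 709 (by decide +kernel) ?_
    refine jn 714 (by decide +kernel) ?_
    refine jn 718 (by decide +kernel) ?_
    refine jn 728 (by decide +kernel) ?_
    refine jn 731 (by decide +kernel) ?_
    refine jn 734 (by decide +kernel) ?_
    refine jn 735 (by decide +kernel) ?_
    refine jn 741 (by decide +kernel) ?_
    refine jn 749 (by decide +kernel) ?_
    refine jn 756 (by decide +kernel) ?_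
    refine jn 769 (by decide +kernel) ?_
    refine jn 777 (by decide +kernel) ?_
    refine jn 778 (by decide +kernel) ?_
    refine jn 779 (by decide +kernel) ?_
    refine jn 780 (by decide +kernel) ?_
    refine jn 781 (by decide +kernel) ?_
    refine jn 782 (by decide +kernel) ?_
    refine jn 783 (by decide +kernel) ?_
    refine jn 784 (by decide +kernel) ?_
    refine jn 785 (by decide +kernel) ?_
    refine jn 789 (by decide +kernel) ?_
    refine jn 794 (by decide +kernel) ?_
    refine jn 795 (by decide +kernel) ?_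
    refine jn 796 (by decide +kernel) ?_
    refine jn 797 (by decide +kernel) ?_
    refine jn 798 (by decide +kernel) ?_
    refine jn 800 (by decide +kernel) ?_
    refine jn 805 (by decide +kernel) ?_
    refine jn 807 (by decide +kernel) ?_
    refine jn 811 (by decide +kernel) ?_
    refine jn 814 (by decide +kernel) ?_
    refine jn 817 (by decide +kernel) ?_
    refine jn 819 (by decide +kernel) ?_
    refine jn 823 (by decide +kernel) ?_
    exact je (by decide +kernel)
  · refine fin 360 14936 T14_1 ?_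
    refine jn 12 (by decide +kernel) ?_
    refine jn 27 (by decide +kernel) ?_
    refine jn 38 (by decide +kernel) ?_
    refine jn 47 (by decide +kernel) ?_
    refine jn 52 (by decide +kernel) ?_
    refine jn 55 (by decide +kernel) ?_
    refine jn 69 (by decide +kernel) ?_
    refine jn 83 (by decide +kernel) ?_
    refine jn 97 (by decide +kernel) ?_
    refine jn 107 (by decide +kernel) ?_
    refine jn 110 (by decide +kernel) ?_
    refine jn 125 (by decide +kernel) ?_
    refine jn 139 (by decide +kernel) ?_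
    refine jn 153 (by decide +kernel) ?_
    refine jn 163 (by decide +kernel) ?_
    refine jn 164 (by decide +kernel) ?_
    refine jn 177 (by decide +kernel) ?_
    refine jn 192 (by decide +kernel) ?_
    refine jn 206 (by decide +kernel) ?_
    refine jn 220 (by decide +kernel) ?_
    refine jn 231 (by decide +kernel) ?_
    refine jn 234 (by decide +kernel) ?_
    refine jn 247 (by decide +kernel) ?_
    refine jn 258 (by decide +kernel) ?_
    refine jn 270 (by decide +kernel) ?_
    refine jn 274 (by decide +kernel) ?_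
    refine jn 286 (by decide +kernel) ?_
    refine jn 293 (by decide +kernel) ?_
    refine jn 296 (by decide +kernel) ?_
    refine jn 313 (by decide +kernel) ?_
    refine jn 324 (by decide +kernel) ?_
    refine jn 336 (by decide +kernel) ?_
    refine jn 342 (by decide +kernel) ?_
    refine jn 343 (by decide +kernel) ?_
    refine jn 344 (by decide +kernel) ?_
    refine jn 345 (by decide +kernel) ?_
    refine jn 363 (by decide +kernel) ?_
    refine jn 365 (by decide +kernel) ?_
    refine jn 367 (by decide +kernel) ?_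
    refine jn 375 (by decide +kernel) ?_
    refine jn 377 (by decide +kernel) ?_
    refine jn 394 (by decide +kernel) ?_
    refine jn 406 (by decide +kernel) ?_
    refine jn 416 (by decide +kernel) ?_
    refine jn 428 (by decide +kernel) ?_
    refine jn 440 (by decide +kernel) ?_
    refine jn 449 (by decide +kernel) ?_
    refine jn 456 (by decide +kernel) ?_
    refine jn 459 (by decide +kernel) ?_
    refine jn 475 (by decide +kernel) ?_
    refine jn 478 (by decide +kernel) ?_
    refine jn 488 (by decide +kernel) ?_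
    refine jn 504 (by decide +kernel) ?_
    refine jn 506 (by decide +kernel) ?_
    refine jn 509 (by decide +kernel) ?_
    refine jn 524 (by decide +kernel) ?_
    refine jn 535 (by decide +kernel) ?_
    refine jn 545 (by decide +kernel) ?_
    refine jn 563 (by decide +kernel) ?_
    refine jn 574 (by decide +kernel) ?_
    refine jn 583 (by decide +kernel) ?_
    refine jn 592 (by decide +kernel) ?_
    refine jn 602 (by decide +kernel) ?_
    refine jn 615 (by decide +kernel) ?_
    refine jn 616 (by decide +kernel) ?_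
    refine jn 617 (by decide +kernel) ?_
    refine jn 618 (by decide +kernel) ?_
    refine jn 620 (by decide +kernel) ?_
    refine jn 638 (by decide +kernel) ?_
    refine jn 653 (by decide +kernel) ?_
    refine jn 664 (by decide +kernel) ?_
    refine jn 680 (by decide +kernel) ?_
    refine jn 696 (by decide +kernel) ?_
    refine jn 706 (by decide +kernel) ?_
    refine jn 723 (by decide +kernel) ?_
    refine jn 733 (by decide +kernel) ?_
    refine jn 735 (by decide +kernel) ?_
    refine jn 754 (by decide +kernel) ?_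
    refine jn 763 (by decide +kernel) ?_
    refine jn 809 (by decide +kernel) ?_
    refine jn 863 (by decide +kernel) ?_
    refine jn 922 (by decide +kernel) ?_
    refine jn 954 (by decide +kernel) ?_
    refine jn 980 (by decide +kernel) ?_
    refine jn 987 (by decide +kernel) ?_
    refine jn 989 (by decide +kernel) ?_
    refine jn 990 (by decide +kernel) ?_
    refine jn 995 (by decide +kernel) ?_
    refine jn 996 (by decide +kernel) ?_
    refine jn 999 (by decide +kernel) ?_
    refine jn 1005 (by decide +kernel) ?_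
    refine jn 1006 (by decide +kernel) ?_
    refine jn 1021 (by decide +kernel) ?_
    refine jn 1022 (by decide +kernel) ?_
    refine jn 1023 (by decide +kernel) ?_
    refine jn 1027 (by decide +kernel) ?_
    refine jn 1034 (by decide +kernel) ?_
    refine jn 1037 (by decide +kernel) ?_
    refine jn 1040 (by decide +kernel) ?_
    refine jn 1048 (by decide +kernel) ?_
    refine jn 1051 (by decide +kernel) ?_
    refine jn 1057 (by decide +kernel) ?_
    refine jn 1059 (by decide +kernel) ?_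
    refine jn 1062 (by decide +kernel) ?_
    refine jn 1066 (by decide +kernel) ?_
    refine jn 1077 (by decide +kernel) ?_
    refine jn 1078 (by decide +kernel) ?_
    refine jn 1085 (by decide +kernel) ?_
    refine jn 1089 (by decide +kernel) ?_
    refine jn 1093 (by decide +kernel) ?_
    refine jn 1094 (by decide +kernel) ?_
    refine jn 1100 (by decide +kernel) ?_
    refine jn 1108 (by decide +kernel) ?_
    refine jn 1112 (by decide +kernel) ?_
    refine jn 1125 (by decide +kernel) ?_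
    refine jn 1126 (by decide +kernel) ?_
    refine jn 1131 (by decide +kernel) ?_
    refine jn 1134 (by decide +kernel) ?_
    refine jn 1140 (by decide +kernel) ?_
    refine jn 1141 (by decide +kernel) ?_
    refine jn 1145 (by decide +kernel) ?_
    refine jn 1149 (by decide +kernel) ?_
    refine jn 1150 (by decide +kernel) ?_
    refine jn 1156 (by decide +kernel) ?_
    refine jn 1169 (by decide +kernel) ?_
    refine jn 1173 (by decide +kernel) ?_
    refine jn 1175 (by decide +kernel) ?_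
    refine jn 1177 (by decide +kernel) ?_
    refine jn 1184 (by decide +kernel) ?_
    refine jn 1194 (by decide +kernel) ?_
    refine jn 1199 (by decide +kernel) ?_
    refine jn 1205 (by decide +kernel) ?_
    refine jn 1213 (by decide +kernel) ?_
    refine jn 1215 (by decide +kernel) ?_
    refine jn 1220 (by decide +kernel) ?_
    refine jn 1235 (by decide +kernel) ?_
    refine jn 1243 (by decide +kernel) ?_
    refine jn 1244 (by decide +kernel) ?_
    refine jn 1245 (by decide +kernel) ?_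
    refine jn 1251 (by decide +kernel) ?_
    refine jn 1257 (by decide +kernel) ?_
    refine jn 1260 (by decide +kernel) ?_
    refine jn 1261 (by decide +kernel) ?_
    refine jn 1276 (by decide +kernel) ?_
    refine jn 1277 (by decide +kernel) ?_
    refine jn 1282 (by decide +kernel) ?_
    refine jn 1290 (by decide +kernel) ?_
    refine jn 1295 (by decide +kernel) ?_
    refine jn 1304 (by decide +kernel) ?_
    refine jn 1312 (by decide +kernel) ?_
    refine jn 1314 (by decide +kernel) ?_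
    refine jn 1318 (by decide +kernel) ?_
    refine jn 1332 (by decide +kernel) ?_
    refine jn 1333 (by decide +kernel) ?_
    refine jn 1340 (by decide +kernel) ?_
    refine jn 1344 (by decide +kernel) ?_
    refine jn 1348 (by decide +kernel) ?_
    refine jn 1351 (by decide +kernel) ?_
    refine jn 1356 (by decide +kernel) ?_
    refine jn 1367 (by decide +kernel) ?_
    refine jn 1380 (by decide +kernel) ?_
    refine jn 1381 (by decide +kernel) ?_
    refine jn 1387 (by decide +kernel) ?_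
    refine jn 1395 (by decide +kernel) ?_
    refine jn 1396 (by decide +kernel) ?_
    refine jn 1400 (by decide +kernel) ?_
    refine jn 1404 (by decide +kernel) ?_
    refine jn 1405 (by decide +kernel) ?_
    refine jn 1415 (by decide +kernel) ?_
    refine jn 1426 (by decide +kernel) ?_
    refine jn 1430 (by decide +kernel) ?_
    refine jn 1432 (by decide +kernel) ?_
    refine jn 1439 (by decide +kernel) ?_
    refine jn 1449 (by decide +kernel) ?_
    refine jn 1458 (by decide +kernel) ?_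
    refine jn 1468 (by decide +kernel) ?_
    refine jn 1471 (by decide +kernel) ?_
    refine jn 1484 (by decide +kernel) ?_
    refine jn 1595 (by decide +kernel) ?_
    refine jn 1688 (by decide +kernel) ?_
    refine jn 1696 (by decide +kernel) ?_
    refine jn 1709 (by decide +kernel) ?_
    refine jn 1717 (by decide +kernel) ?_
    refine jn 1724 (by decide +kernel) ?_
    refine jn 1726 (by decide +kernel) ?_
    refine jn 1727 (by decide +kernel) ?_
    refine jn 1731 (by decide +kernel) ?_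
    refine jn 1734 (by decide +kernel) ?_
    refine jn 1738 (by decide +kernel) ?_
    refine jn 1740 (by decide +kernel) ?_
    refine jn 1746 (by decide +kernel) ?_
    refine jn 1753 (by decide +kernel) ?_
    refine jn 1758 (by decide +kernel) ?_
    refine jn 1759 (by decide +kernel) ?_
    refine jn 1771 (by decide +kernel) ?_
    refine jn 1779 (by decide +kernel) ?_
    refine jn 1790 (by decide +kernel) ?_
    refine jn 1794 (by decide +kernel) ?_
    refine jn 1795 (by decide +kernel) ?_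
    refine jn 1803 (by decide +kernel) ?_
    refine jn 1814 (by decide +kernel) ?_
    refine jn 1816 (by decide +kernel) ?_
    refine jn 1824 (by decide +kernel) ?_
    refine jn 1835 (by decide +kernel) ?_
    refine jn 1846 (by decide +kernel) ?_
    refine jn 1859 (by decide +kernel) ?_
    refine jn 1862 (by decide +kernel) ?_
    refine jn 1865 (by decide +kernel) ?_
    refine jn 1866 (by decide +kernel) ?_
    refine jn 1867 (by decide +kernel) ?_
    refine jn 1874 (by decide +kernel) ?_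
    refine jn 1881 (by decide +kernel) ?_
    refine jn 1893 (by decide +kernel) ?_
    refine jn 1902 (by decide +kernel) ?_
    refine jn 1904 (by decide +kernel) ?_
    refine jn 1907 (by decide +kernel) ?_
    refine jn 1909 (by decide +kernel) ?_
    refine jn 1922 (by decide +kernel) ?_
    refine jn 1930 (by decide +kernel) ?_
    refine jn 1936 (by decide +kernel) ?_
    refine jn 1939 (by decide +kernel) ?_
    refine jn 1940 (by decide +kernel) ?_
    refine jn 1944 (by decide +kernel) ?_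
    refine jn 1947 (by decide +kernel) ?_
    refine jn 1951 (by decide +kernel) ?_
    refine jn 1953 (by decide +kernel) ?_
    refine jn 1959 (by decide +kernel) ?_
    refine jn 1966 (by decide +kernel) ?_
    refine jn 1971 (by decide +kernel) ?_
    refine jn 1972 (by decide +kernel) ?_
    refine jn 1984 (by decide +kernel) ?_
    refine jn 1992 (by decide +kernel) ?_
    refine jn 2003 (by decide +kernel) ?_
    refine jn 2007 (by decide +kernel) ?_
    refine jn 2008 (by decide +kernel) ?_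
    refine jn 2016 (by decide +kernel) ?_
    refine jn 2027 (by decide +kernel) ?_
    refine jn 2029 (by decide +kernel) ?_
    refine jn 2037 (by decide +kernel) ?_
    refine jn 2048 (by decide +kernel) ?_
    refine jn 2057 (by decide +kernel) ?_
    refine jn 2063 (by decide +kernel) ?_
    refine jn 2075 (by decide +kernel) ?_
    refine jn 2078 (by decide +kernel) ?_
    refine jn 2079 (by decide +kernel) ?_
    refine jn 2080 (by decide +kernel) ?_
    refine jn 2086 (by decide +kernel) ?_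
    refine jn 2090 (by decide +kernel) ?_
    refine jn 2100 (by decide +kernel) ?_
    refine jn 2106 (by decide +kernel) ?_
    refine jn 2115 (by decide +kernel) ?_
    refine jn 2117 (by decide +kernel) ?_
    refine jn 2132 (by decide +kernel) ?_
    refine jn 2147 (by decide +kernel) ?_
    refine jn 2165 (by decide +kernel) ?_
    refine jn 2189 (by decide +kernel) ?_
    refine jn 2218 (by decide +kernel) ?_
    refine jn 2237 (by decide +kernel) ?_
    refine jn 2256 (by decide +kernel) ?_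
    refine jn 2272 (by decide +kernel) ?_
    refine jn 2304 (by decide +kernel) ?_
    refine jn 2318 (by decide +kernel) ?_
    refine jn 2348 (by decide +kernel) ?_
    refine jn 2369 (by decide +kernel) ?_
    refine jn 2393 (by decide +kernel) ?_
    refine jn 2420 (by decide +kernel) ?_
    refine jn 2442 (by decide +kernel) ?_
    refine jn 2451 (by decide +kernel) ?_
    refine jn 2459 (by decide +kernel) ?_
    refine jn 2467 (by decide +kernel) ?_
    refine jn 2488 (by decide +kernel) ?_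
    refine jn 2515 (by decide +kernel) ?_
    refine jn 2527 (by decide +kernel) ?_
    refine jn 2529 (by decide +kernel) ?_
    refine jn 2545 (by decide +kernel) ?_
    refine jn 2555 (by decide +kernel) ?_
    refine jn 2563 (by decide +kernel) ?_
    refine jn 2571 (by decide +kernel) ?_
    refine jn 2592 (by decide +kernel) ?_
    refine jn 2607 (by decide +kernel) ?_
    refine jn 2617 (by decide +kernel) ?_
    refine jn 2631 (by decide +kernel) ?_
    refine jn 2653 (by decide +kernel) ?_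
    refine jn 2668 (by decide +kernel) ?_
    refine jn 2684 (by decide +kernel) ?_
    refine jn 2697 (by decide +kernel) ?_
    refine jn 2719 (by decide +kernel) ?_
    refine jn 2740 (by decide +kernel) ?_
    refine jn 2763 (by decide +kernel) ?_
    refine jn 2789 (by decide +kernel) ?_
    refine jn 2807 (by decide +kernel) ?_
    refine jn 2831 (by decide +kernel) ?_
    refine jn 2855 (by decide +kernel) ?_
    refine jn 2877 (by decide +kernel) ?_
    refine jn 2911 (by decide +kernel) ?_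
    refine jn 2927 (by decide +kernel) ?_
    refine jn 2937 (by decide +kernel) ?_
    refine jn 2967 (by decide +kernel) ?_
    refine jn 2987 (by decide +kernel) ?_
    refine jn 3020 (by decide +kernel) ?_
    refine jn 3058 (by decide +kernel) ?_
    refine jn 3071 (by decide +kernel) ?_
    refine jn 3084 (by decide +kernel) ?_
    refine jn 3111 (by decide +kernel) ?_
    refine jn 3143 (by decide +kernel) ?_
    refine jn 3154 (by decide +kernel) ?_
    refine jn 3167 (by decide +kernel) ?_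
    refine jn 3187 (by decide +kernel) ?_
    refine jn 3208 (by decide +kernel) ?_
    refine jn 3212 (by decide +kernel) ?_
    refine jn 3224 (by decide +kernel) ?_
    refine jn 3232 (by decide +kernel) ?_
    refine jn 3244 (by decide +kernel) ?_
    refine jn 3257 (by decide +kernel) ?_
    refine jn 3280 (by decide +kernel) ?_
    refine jn 3299 (by decide +kernel) ?_
    refine jn 3315 (by decide +kernel) ?_
    refine jn 3344 (by decide +kernel) ?_
    refine jn 3352 (by decide +kernel) ?_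
    refine jn 3353 (by decide +kernel) ?_
    refine jn 3370 (by decide +kernel) ?_
    refine jn 3392 (by decide +kernel) ?_
    refine jn 3400 (by decide +kernel) ?_
    refine jn 3419 (by decide +kernel) ?_
    refine jn 3439 (by decide +kernel) ?_
    refine jn 3464 (by decide +kernel) ?_
    refine jn 3488 (by decide +kernel) ?_
    refine jn 3496 (by decide +kernel) ?_
    refine jn 3497 (by decide +kernel) ?_
    refine jn 3516 (by decide +kernel) ?_
    refine jn 3538 (by decide +kernel) ?_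
    refine jn 3559 (by decide +kernel) ?_
    refine jn 3574 (by decide +kernel) ?_
    refine jn 3726 (by decide +kernel) ?_
    refine jn 3762 (by decide +kernel) ?_
    refine jn 3791 (by decide +kernel) ?_
    refine jn 3832 (by decide +kernel) ?_
    refine jn 3860 (by decide +kernel) ?_
    refine jn 3900 (by decide +kernel) ?_
    refine jn 3924 (by decide +kernel) ?_
    refine jn 3942 (by decide +kernel) ?_
    refine jn 3978 (by decide +kernel) ?_
    refine jn 4009 (by decide +kernel) ?_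
    refine jn 4042 (by decide +kernel) ?_
    refine jn 4084 (by decide +kernel) ?_
    refine jn 4106 (by decide +kernel) ?_
    refine jn 4148 (by decide +kernel) ?_
    refine jn 4177 (by decide +kernel) ?_
    refine jn 4220 (by decide +kernel) ?_
    refine jn 4260 (by decide +kernel) ?_
    refine jn 4301 (by decide +kernel) ?_
    refine jn 4453 (by decide +kernel) ?_
    refine jn 4481 (by decide +kernel) ?_
    refine jn 4515 (by decide +kernel) ?_
    refine jn 4547 (by decide +kernel) ?_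
    refine jn 4579 (by decide +kernel) ?_
    refine jn 4614 (by decide +kernel) ?_
    refine jn 4639 (by decide +kernel) ?_
    refine jn 4663 (by decide +kernel) ?_
    refine jn 4702 (by decide +kernel) ?_
    refine jn 4736 (by decide +kernel) ?_
    refine jn 4771 (by decide +kernel) ?_
    refine jn 4811 (by decide +kernel) ?_
    refine jn 4854 (by decide +kernel) ?_
    refine jn 4883 (by decide +kernel) ?_
    refine jn 4914 (by decide +kernel) ?_
    refine jn 4956 (by decide +kernel) ?_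
    refine jn 4991 (by decide +kernel) ?_
    refine jn 5023 (by decide +kernel) ?_
    refine jn 5063 (by decide +kernel) ?_
    refine jn 5112 (by decide +kernel) ?_
    refine jn 5143 (by decide +kernel) ?_
    refine jn 5169 (by decide +kernel) ?_
    refine jn 5209 (by decide +kernel) ?_
    refine jn 5251 (by decide +kernel) ?_
    refine jn 5287 (by decide +kernel) ?_
    refine jn 5426 (by decide +kernel) ?_
    refine jn 5490 (by decide +kernel) ?_
    refine jn 5534 (by decide +kernel) ?_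
    refine jn 5579 (by decide +kernel) ?_
    refine jn 5629 (by decide +kernel) ?_
    refine jn 5674 (by decide +kernel) ?_
    refine jn 5712 (by decide +kernel) ?_
    refine jn 5764 (by decide +kernel) ?_
    refine jn 5816 (by decide +kernel) ?_
    refine jn 5858 (by decide +kernel) ?_
    refine jn 5894 (by decide +kernel) ?_
    refine jn 5935 (by decide +kernel) ?_
    refine jn 5985 (by decide +kernel) ?_
    refine jn 6036 (by decide +kernel) ?_
    refine jn 6079 (by decide +kernel) ?_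
    refine jn 6128 (by decide +kernel) ?_
    refine jn 6180 (by decide +kernel) ?_
    refine jn 6222 (by decide +kernel) ?_
    refine jn 6274 (by decide +kernel) ?_
    refine jn 6334 (by decide +kernel) ?_
    refine jn 6377 (by decide +kernel) ?_
    refine jn 6423 (by decide +kernel) ?_
    refine jn 6479 (by decide +kernel) ?_
    refine jn 6533 (by decide +kernel) ?_
    refine jn 6596 (by decide +kernel) ?_
    refine jn 6689 (by decide +kernel) ?_
    refine jn 6949 (by decide +kernel) ?_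
    refine jn 7094 (by decide +kernel) ?_
    refine jn 7199 (by decide +kernel) ?_
    refine jn 7293 (by decide +kernel) ?_
    refine jn 7343 (by decide +kernel) ?_
    refine jn 7404 (by decide +kernel) ?_
    refine jn 7470 (by decide +kernel) ?_
    refine jn 7531 (by decide +kernel) ?_
    refine jn 7587 (by decide +kernel) ?_
    refine jn 7655 (by decide +kernel) ?_
    refine jn 7707 (by decide +kernel) ?_
    refine jn 7774 (by decide +kernel) ?_
    refine jn 7842 (by decide +kernel) ?_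
    refine jn 7909 (by decide +kernel) ?_
    refine jn 7971 (by decide +kernel) ?_
    refine jn 8047 (by decide +kernel) ?_
    refine jn 8093 (by decide +kernel) ?_
    refine jn 8163 (by decide +kernel) ?_
    refine jn 8224 (by decide +kernel) ?_
    refine jn 8289 (by decide +kernel) ?_
    refine jn 8360 (by decide +kernel) ?_
    refine jn 8427 (by decide +kernel) ?_
    refine jn 8491 (by decide +kernel) ?_
    refine jn 8562 (by decide +kernel) ?_
    refine jn 8631 (by decide +kernel) ?_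
    refine jn 8685 (by decide +kernel) ?_
    refine jn 8754 (by decide +kernel) ?_
    refine jn 8825 (by decide +kernel) ?_
    refine jn 8885 (by decide +kernel) ?_
    refine jn 8955 (by decide +kernel) ?_
    refine jn 9202 (by decide +kernel) ?_
    refine jn 9406 (by decide +kernel) ?_
    refine jn 9510 (by decide +kernel) ?_
    refine jn 9624 (by decide +kernel) ?_
    refine jn 9730 (by decide +kernel) ?_
    refine jn 9804 (by decide +kernel) ?_
    refine jn 9876 (by decide +kernel) ?_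
    refine jn 9960 (by decide +kernel) ?_
    refine jn 10021 (by decide +kernel) ?_
    refine jn 10080 (by decide +kernel) ?_
    refine jn 10141 (by decide +kernel) ?_
    refine jn 10200 (by decide +kernel) ?_
    refine jn 10253 (by decide +kernel) ?_
    refine jn 10471 (by decide +kernel) ?_
    refine jn 10578 (by decide +kernel) ?_
    refine jn 10669 (by decide +kernel) ?_
    refine jn 10772 (by decide +kernel) ?_
    refine jn 10828 (by decide +kernel) ?_
    refine jn 10894 (by decide +kernel) ?_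
    refine jn 10959 (by decide +kernel) ?_
    refine jn 11005 (by decide +kernel) ?_
    refine jn 11080 (by decide +kernel) ?_
    refine jn 11126 (by decide +kernel) ?_
    refine jn 11188 (by decide +kernel) ?_
    refine jn 11242 (by decide +kernel) ?_
    refine jn 11284 (by decide +kernel) ?_
    refine jn 11340 (by decide +kernel) ?_
    refine jn 11384 (by decide +kernel) ?_
    refine jn 11432 (by decide +kernel) ?_
    refine jn 11480 (by decide +kernel) ?_
    refine jn 11518 (by decide +kernel) ?_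
    refine jn 11550 (by decide +kernel) ?_
    refine jn 11581 (by decide +kernel) ?_
    refine jn 11873 (by decide +kernel) ?_
    refine jn 12007 (by decide +kernel) ?_
    refine jn 12139 (by decide +kernel) ?_
    refine jn 12241 (by decide +kernel) ?_
    refine jn 12309 (by decide +kernel) ?_
    refine jn 12395 (by decide +kernel) ?_
    refine jn 12470 (by decide +kernel) ?_
    refine jn 12543 (by decide +kernel) ?_
    refine jn 12611 (by decide +kernel) ?_
    refine jn 12669 (by decide +kernel) ?_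
    refine jn 12741 (by decide +kernel) ?_
    refine jn 12804 (by decide +kernel) ?_
    refine jn 12849 (by decide +kernel) ?_
    refine jn 13116 (by decide +kernel) ?_
    refine jn 13284 (by decide +kernel) ?_
    refine jn 13408 (by decide +kernel) ?_
    refine jn 13508 (by decide +kernel) ?_
    refine jn 13588 (by decide +kernel) ?_
    refine jn 13709 (by decide +kernel) ?_
    refine jn 13810 (by decide +kernel) ?_
    refine jn 13882 (by decide +kernel) ?_
    refine jn 14242 (by decide +kernel) ?_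
    refine jn 14414 (by decide +kernel) ?_
    refine jn 14527 (by decide +kernel) ?_
    refine jn 14632 (by decide +kernel) ?_
    refine jn 14728 (by decide +kernel) ?_
    refine jn 14854 (by decide +kernel) ?_
    exact je (by decide +kernel)

end Pool.Agent.MP_2339ce_nt.NR
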