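import Pool.Agent.MP_2339ce_nt.Q2.NC.L8
import Pool.Agent.MP_2339ce_nt.Q2.NC.L9
import Pool.Agent.MP_2339ce_nt.Q2.CkI

/-! Block NR: runs. -/

set_option autoImplicit false
set_option maxRecDepth 100000

noncomputable section

namespace Pool.Agent.MP_2339ce_nt.NR

open Q2.Top

def T22_0 : Ph :=
  (.na 826 147 (.na 487 84 (.na 268 56 (.na 136 46 (.na 59 36 (.na 33 33 (.nx 32 2097153 (.nr 31
  1048577 (.nr 1 29 .s1 (.nx 4 189 (.nx 3 188 (.nr 2 321 (.l1 (.ls 31 31 1107)) (.l1 .sk)) (.l1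
  .sk)) (.nx 16 20644 (.nx 13 13005 (.nx 5 324 (.l1 (.ls 89 37 2167)) (.nr 12 623489 (.lg 0 false 7
  89 101 23 0 236880) .out)) (.nr 15 185365 (.lg 0 false 2 89 97 13 0 33840) .out)) (.nr 30 131073
  (.nr 19 257 (.lg 0 true 3 79 79 23 0 6768) (.nx 29 330282 (.nx 26 104033 (.nx 22 41287 (.lg 1
  false 3 89 97 19 112367 33840) (.nr 25 110219 (.lg 1 true 3 89 101 19 47258 33840) .out)) (.nr 28
  77937 (.nr 27 2694 (.lg 0 true 1 89 89 13 0 33840) (.lg 2 false 1 97 101 13 13272 33840)) .out))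
  .out)) .out)))) .out) .out) (.na 34 34 .ne (.nx 58 2097153 (.nr 57 881745 (.nr 35 32 .s1 (.nx 45
  26009 (.nx 37 188 (.nr 36 350 (.lg 0 false 1 23 23 13 0 47376) (.l1 .sk)) (.nx 38 189 (.l1 .sk)
  (.nx 39 324 (.l1 (.ls 79 41 2039)) (.nr 44 623489 (.lg 0 false 5 101 101 13 0 236880) .out))))
  (.nr 56 77937 (.nr 50 350 (.lg 0 true 5 73 73 13 0 33840) (.nx 55 208065 (.lg 2 false 5 97 97 13
  55881 236880) .out)) .out))) .out) .out))) (.na 87 37 (.nx 86 2097153 (.nr 85 881745 (.nr 60 34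
  .s1 (.nx 79 208065 (.nx 76 52017 (.nx 62 188 (.nr 61 359 (.l1 (.ls 29 41 984)) (.l1 .sk)) (.nx 63
  189 (.l1 .sk) (.nx 64 324 (.l1 (.ls 83 43 1926)) (.nr 75 623489 (.nr 69 155873 (.lg 0 false 5 89
  101 29 0 236880) (.nx 74 13005 (.lg 0 false 5 89 101 29 0 236880) .out)) .out)))) (.nr 78 55110
  (.nr 77 1062 (.lg 0 false 1 73 73 19 0 6768) (.lg 2 true 1 97 97 19 18787 47376)) .out)) (.nr 84
  257 (.lg 0 true 5 73 73 29 0 236880) .out))) .out) .out) (.na 112 42 (.nx 111 2097153 (.nr 110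
  881745 (.nr 88 35 .s1 (.nx 91 189 (.nx 90 188 (.nr 89 408 (.l1 (.ls 19 23 958)) (.l1 .sk)) (.l1
  .sk)) (.nx 92 324 (.l1 (.ls 79 29 1874)) (.nr 109 623489 (.nx 99 26009 (.lg 0 false 7 97 101 16 0
  118440) (.nr 108 77937 (.nr 104 408 (.lg 0 true 5 73 73 16 0 16920) (.nx 107 208065 (.lg 2 false
  3 97 97 16 53084 118440) .out)) .out)) .out)))) .out) .out) (.nx 135 2097153 (.nr 134 881745 (.nr
  113 40 .s1 (.nx 130 208065 (.nx 115 188 (.nr 114 447 (.l1 (.ls 31 41 844)) (.l1 .sk)) (.nx 116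
  189 (.l1 .sk) (.nx 117 324 (.l1 (.ls 89 43 1651)) (.nr 129 623489 (.nx 122 13005 (.lg 0 false 5
  89 101 31 0 236880) (.nr 128 155873 (.nx 124 32769 (.lg 0 false 2 97 101 29 0 236880) (.nr 127
  65537 (.nr 125 1252 (.lg 0 false 1 83 83 23 0 236880) (.lg 2 false 2 97 101 29 35446 236880))
  .out)) .out)) .out)))) (.nr 133 257 (.lg 0 true 3 79 79 29 0 47376) .out))) .out) .out)))) (.na
  187 49 (.na 137 47 .ne (.na 159 48 (.nx 158 2097153 (.nr 157 881745 (.nr 138 45 .s1 (.nx 139 324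
  (.l1 (.ls 71 29 2236)) (.nr 156 741457 (.nx 146 26009 (.lg 0 false 7 83 83 16 0 118440) (.nr 155
  65537 (.nr 151 466 (.lg 0 true 5 61 61 16 0 16920) (.nx 154 208065 (.lg 2 true 3 73 73 16 44659
  3384) .out)) .out)) .out))) .out) .out) (.nx 186 2097153 (.nr 185 881745 (.nr 160 47 .s1 (.nx 163
  189 (.nx 162 188 (.nr 161 476 (.l1 (.ls 37 37 739)) (.l1 .sk)) (.l1 .sk)) (.nx 173 16385 (.nx 164
  324 (.l1 (.ls 89 41 1445)) (.nr 172 741457 (.nr 169 623489 (.lg 0 false 5 89 101 31 0 236880)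
  (.nx 170 6501 .out (.nx 171 13005 (.lg 0 false 1 97 97 23 0 236880) .out))) .out)) (.nr 184
  155873 (.nx 181 208065 (.nr 175 9989 (.lg 0 true 2 89 97 29 0 236880) (.nx 176 20644 (.lg 0 false
  1 97 97 23 0 236880) (.nr 180 110219 (.nr 178 46342 (.lg 2 false 2 83 83 29 39833 6768) (.nx 179
  32769 (.lg 0 false 1 97 101 23 0 236880) .out)) .out))) (.nr 183 257 (.lg 0 true 2 79 79 29 0
  6768) .out)) .out)))) .out) .out))) (.na 230 53 (.na 207 51 (.nx 206 2097153 (.nr 205 881745 (.nr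
  188 48 .s1 (.nx 195 26009 (.nx 189 324 (.l1 (.ls 73 31 2145)) (.nr 194 741457 (.lg 0 false 5 89
  89 17 0 118440) .out)) (.nr 204 65537 (.nr 200 495 (.lg 0 true 5 71 71 17 0 118440) (.nx 203
  208065 (.lg 2 false 3 79 79 16 44659 23688) .out)) .out))) .out) .out) (.nx 229 2097153 (.nr 228
  881745 (.nr 208 50 .s1 (.nx 211 189 (.nx 210 188 (.nr 209 515 (.l1 (.ls 23 31 696)) (.l1 .sk))
  (.l1 .sk)) (.nx 212 324 (.l1 (.ls 79 37 1360)) (.nr 227 741457 (.nx 217 20644 (.lg 0 false 5 89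
  101 23 0 118440) (.nr 226 110219 (.nr 224 46342 (.nr 222 515 (.lg 0 true 5 71 73 23 0 16920) (.nx
  223 208065 (.lg 2 true 1 89 89 16 39833 3384) .out)) (.nx 225 32769 (.lg 0 false 1 83 83 16 0
  3384) .out)) .out)) .out)))) .out) .out)) (.na 249 54 (.nx 248 2097153 (.nr 247 881745 (.nr 231
  52 .s1 (.nx 240 26009 (.nx 232 324 (.l1 (.ls 79 29 1983)) (.nr 239 741457 (.lg 0 false 7 89 97 16
  0 118440) .out)) (.nr 246 65537 (.nr 243 525 (.lg 0 true 3 71 71 16 0 3384) (.nx 245 208065 (.lg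
  2 true 2 89 89 16 44659 6768) .out)) .out))) .out) .out) (.nx 267 2097153 (.nr 266 881745 (.nr
  250 53 .s1 (.nx 251 324 (.l1 (.ls 73 43 1946)) (.nr 265 741457 (.nx 256 26009 (.lg 0 false 5 89
  89 23 0 33840) (.nr 264 65537 (.nr 261 544 (.lg 0 true 5 71 71 23 0 33840) (.nx 263 208065 (.lg 2
  false 2 83 83 19 44659 6768) .out)) .out)) .out))) .out) .out))))) (.na 367 68 (.na 327 63 (.na
  289 59 (.nx 288 2097153 (.nr 287 881745 (.nr 269 55 .s1 (.nx 273 324 (.nx 271 188 (.nr 270 573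
  (.l1 (.ls 29 37 634)) (.l1 .sk)) (.nx 272 189 (.l1 .sk) (.l1 (.ls 79 41 1239)))) (.nr 286 741457
  (.nx 278 20644 (.lg 0 false 5 89 101 29 0 236880) (.nr 285 110219 (.nr 283 46342 (.nr 281 573
  (.lg 0 true 3 73 73 23 0 47376) (.nx 282 208065 (.lg 2 true 1 89 89 19 39833 47376) .out)) (.nx
  284 32769 (.lg 0 false 1 83 83 19 0 47376) .out)) .out)) .out))) .out) .out) (.na 308 61 (.nx 307
  2097153 (.nr 306 881745 (.nr 290 58 .s1 (.nx 297 26009 (.nx 291 324 (.l1 (.ls 73 29 1782)) (.nr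
  296 741457 (.lg 0 false 5 89 89 16 0 16920) .out)) (.nr 305 65537 (.nr 302 593 (.lg 0 true 5 71
  71 16 0 16920) (.nx 304 208065 (.lg 2 false 2 89 89 16 44659 6768) .out)) .out))) .out) .out)
  (.nx 326 2097153 (.nr 325 881745 (.nr 309 60 .s1 (.nx 310 324 (.l1 (.ls 73 29 1723)) (.nr 324
  741457 (.nx 315 26009 (.lg 0 false 5 89 89 16 0 16920) (.nr 323 65537 (.nr 320 612 (.lg 0 true 5
  71 71 16 0 16920) (.nx 322 208065 (.lg 2 false 2 83 83 16 44659 6768) .out)) .out)) .out))) .out)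
  .out))) (.na 346 64 (.nx 345 2097153 (.nr 344 881745 (.nr 328 62 .s1 (.nx 331 189 (.nx 330 188
  (.nr 329 622 (.l1 (.ls 23 29 564)) (.l1 .sk)) (.l1 .sk)) (.nx 338 32769 (.nx 332 324 (.l1 (.ls 79
  31 1102)) (.nr 337 741457 (.nr 334 155873 (.lg 0 false 2 89 97 19 0 236880) (.nx 336 16385 (.lg 0
  false 2 97 101 19 0 236880) .out)) .out)) (.nr 343 46342 (.nr 341 622 (.lg 0 true 3 73 73 23 0
  23688) (.nx 342 208065 (.lg 2 true 1 83 83 17 31444 23688) .out)) .out)))) .out) .out) (.na 366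
  65 (.nx 365 2097153 (.nr 364 2097153 (.nr 347 63 .s1 (.nx 349 188 (.nr 348 631 (.l1 (.ls 31 29
  555)) (.l1 .sk)) (.nx 350 189 (.l1 .sk) (.nx 357 20644 (.nx 351 324 (.l1 (.ls 89 31 1085)) (.nr
  356 1048577 (.lg 0 false 5 97 103 29 0 2605680) .out)) (.nr 363 110219 (.nr 359 513 (.lg 0 true 2
  79 79 23 0 6768) (.nx 362 208065 (.nr 360 46342 (.lg 2 false 1 97 97 19 39833 47376) (.nx 361
  32769 (.lg 0 false 1 83 89 19 0 47376) .out)) .out)) .out))))) .out) .out) .ne))) (.na 421 74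
  (.na 386 71 (.nx 385 2097153 (.nr 384 2097153 (.nr 368 67 .s1 (.nx 371 189 (.nx 370 188 (.nr 369
  690 (.l1 (.ls 31 31 522)) (.l1 .sk)) (.l1 .sk)) (.nx 376 20644 (.nx 372 324 (.l1 (.ls 89 37
  1021)) (.nr 375 1048577 (.lg 0 false 3 101 103 29 0 236880) .out)) (.nr 383 65537 (.nr 381 32769
  (.nr 379 513 (.lg 0 true 3 79 79 29 0 6768) (.nx 380 131073 (.lg 2 true 1 89 89 13 28214 6768)
  .out)) (.nx 382 32769 (.lg 0 false 1 83 83 13 0 6768) .out)) .out)))) .out) .out) (.na 403 72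
  (.nx 402 2097153 (.nr 401 2097153 (.nr 387 70 .s1 (.nx 394 20644 (.nx 388 324 (.l1 (.ls 79 29
  1481)) (.nr 393 1048577 (.lg 0 false 5 89 89 16 0 118440) .out)) (.nr 400 65537 (.nr 397 513 (.lg
  0 true 3 61 61 16 0 3384) (.nx 399 131073 (.lg 2 false 2 89 89 16 56265 47376) .out)) .out)))
  .out) .out) (.nx 420 2097153 (.nr 419 2097153 (.nr 404 71 .s1 (.nx 406 188 (.nr 405 719 (.l1 (.ls
  29 37 493)) (.l1 .sk)) (.nx 407 189 (.l1 .sk) (.nx 408 324 (.l1 (.ls 83 41 964)) (.nr 418 1048577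
  (.nx 411 20644 (.lg 0 false 3 97 101 29 0 236880) (.nr 417 65537 (.nr 413 513 (.lg 0 true 2 73 73
  29 0 6768) (.nx 416 131073 (.nr 414 32769 (.lg 2 true 1 79 79 23 28214 6768) (.nx 415 32769 (.lg
  0 false 1 79 79 23 0 6768) .out)) .out)) .out)) .out))))) .out) .out))) (.na 455 81 (.na 438 79
  (.nx 437 2097153 (.nr 436 2097153 (.nr 422 73 .s1 (.nx 429 20644 (.nx 423 324 (.l1 (.ls 79 31
  1421)) (.nr 428 1048577 (.lg 0 false 5 89 89 23 0 33840) .out)) (.nr 435 65537 (.nr 432 513 (.lg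
  0 true 3 67 67 19 0 6768) (.nx 434 131073 (.lg 2 false 2 83 83 19 56265 6768) .out)) .out)))
  .out) .out) (.nx 454 2097153 (.nr 453 2097153 (.nr 439 78 .s1 (.nx 440 324 (.l1 (.ls 73 29 1331))
  (.nr 452 1048577 (.nx 445 20644 (.lg 0 false 5 89 89 17 0 16920) (.nr 451 65537 (.nr 448 513 (.lg
  0 true 3 61 61 16 0 3384) (.nx 450 131073 (.lg 2 false 2 83 83 16 56265 6768) .out)) .out))
  .out))) .out) .out)) (.na 472 83 (.nx 471 2097153 (.nr 470 2097153 (.nr 456 80 .s1 (.nx 463 20644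
  (.nx 457 324 (.l1 (.ls 73 31 1298)) (.nr 462 1048577 (.lg 0 false 5 83 83 19 0 16920) .out)) (.nr
  469 65537 (.nr 466 513 (.lg 0 true 3 61 61 17 0 3384) (.nx 468 131073 (.lg 2 false 2 79 79 17
  56265 6768) .out)) .out))) .out) .out) (.nx 486 2097153 (.nr 485 2097153 (.nr 473 82 .s1 (.nx 478
  20644 (.nx 474 324 (.l1 (.ls 73 29 1267)) (.nr 477 1048577 (.lg 0 false 3 89 89 16 0 3384) .out))
  (.nr 484 65537 (.nr 481 513 (.lg 0 true 3 61 61 16 0 3384) (.nx 483 131073 (.lg 2 false 2 79 79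
  16 56265 6768) .out)) .out))) .out) .out)))))) (.na 669 112 (.na 571 98 (.na 524 94 (.na 507 89
  (.nx 506 2097153 (.nr 505 2097153 (.nr 488 83 .s1 (.nx 490 188 (.nr 489 864 (.l1 (.ls 31 37 423))
  (.l1 .sk)) (.nx 491 189 (.l1 .sk) (.nx 492 324 (.l1 (.ls 89 41 827)) (.nr 504 1048577 (.nx 497
  20644 (.lg 0 false 5 89 101 41 0 236880) (.nr 503 65537 (.nr 501 32769 (.nr 499 513 (.lg 0 true 2
  73 79 37 0 47376) (.nx 500 131073 (.lg 2 false 1 83 89 31 28214 47376) .out)) (.nx 502 32769 (.lg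
  0 false 1 79 83 31 0 47376) .out)) .out)) .out))))) .out) .out) (.na 523 91 (.nx 522 2097153 (.nr
  521 2097153 (.nr 508 88 .s1 (.nx 515 32769 (.nx 509 324 (.l1 (.ls 71 29 1182)) (.nr 514 1048577
  (.lg 0 false 5 83 83 17 0 16920) .out)) (.nr 520 32769 (.nr 518 884 (.lg 0 true 3 61 61 16 0
  3384) (.nx 519 131073 (.lg 2 true 1 67 67 16 17774 3384) .out)) .out))) .out) .out) .ne)) (.na
  540 96 (.nx 539 2097153 (.nr 538 2097153 (.nr 525 93 .s1 (.nx 532 32769 (.nx 526 324 (.l1 (.ls 71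
  37 1119)) (.nr 531 1048577 (.lg 0 false 5 79 79 19 0 33840) .out)) (.nr 537 32769 (.nr 534 513
  (.lg 0 false 2 67 67 17 0 6768) (.nx 536 131073 (.lg 2 true 2 61 61 17 24018 6768) .out)) .out)))
  .out) .out) (.na 559 97 (.nx 558 2097153 (.nr 557 2097153 (.nr 541 96 .s1 (.nx 543 188 (.nr 542
  942 (.l1 (.ls 31 31 371)) (.l1 .sk)) (.nx 544 189 (.l1 .sk) (.nx 545 324 (.l1 (.ls 89 37 724))
  (.nr 556 1048577 (.nx 552 32769 (.nx 550 20644 (.lg 0 false 5 83 101 37 0 236880) (.nr 551 65537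
  (.lg 1 false 1 79 79 29 56265 6768) .out)) (.nr 555 32769 (.nr 553 513 (.lg 0 true 1 73 73 31 0
  6768) (.nx 554 131073 (.lg 1 true 1 83 89 29 24018 47376) .out)) .out)) .out))))) .out) .out)
  (.nx 570 2097153 (.nr 569 2097153 (.nr 560 97 .s1 (.nx 565 20644 (.nx 561 324 (.l1 (.ls 79 23
  1085)) (.nr 564 1048577 (.lg 0 false 3 89 89 16 0 118440) .out)) (.nr 568 65537 (.nr 566 513 (.lg
  0 false 1 73 73 16 0 118440) (.nx 567 131073 (.lg 2 true 1 83 83 16 56265 118440) .out)) .out)))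
  .out) .out)))) (.na 613 103 (.na 585 101 (.nx 584 2097153 (.nr 583 2097153 (.nr 572 98 .s1 (.nx
  577 20644 (.nx 573 324 (.l1 (.ls 79 37 1074)) (.nr 576 1048577 (.lg 0 false 3 89 89 23 0 236880)
  .out)) (.nr 582 65537 (.nr 579 513 (.lg 0 true 2 67 67 23 0 47376) (.nx 581 131073 (.lg 2 false 2
  79 79 23 56265 47376) .out)) .out))) .out) .out) (.na 601 102 (.nx 600 2097153 (.nr 599 2097153
  (.nr 586 101 .s1 (.nx 593 32769 (.nx 587 324 (.l1 (.ls 71 23 1042)) (.nr 592 1048577 (.lg 0 false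
  5 83 83 17 0 16920) .out)) (.nr 598 32769 (.nr 596 991 (.lg 0 true 3 61 61 16 0 3384) (.nx 597
  131073 (.lg 2 true 1 67 67 16 17774 3384) .out)) .out))) .out) .out) (.nx 612 2097153 (.nr 611
  2097153 (.nr 602 102 .s1 (.nx 603 324 (.l1 (.ls 83 43 1032)) (.nr 610 1048577 (.nx 605 20644 (.lg
  0 false 2 97 97 31 0 33840) (.nr 609 65537 (.nr 607 513 (.lg 0 true 2 71 71 31 0 6768) (.nx 608
  131073 (.lg 2 true 1 89 89 29 56265 6768) .out)) .out)) .out))) .out) .out))) (.na 642 108 (.na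
  626 106 (.nx 625 2097153 (.nr 624 2097153 (.nr 614 103 .s1 (.nx 615 324 (.l1 (.ls 73 23 1022))
  (.nr 623 1048577 (.nx 618 20644 (.lg 0 false 3 83 83 16 0 3384) (.nr 622 65537 (.nr 620 513 (.lg
  0 true 2 61 61 16 0 6768) (.nx 621 131073 (.lg 2 true 1 79 79 16 56265 3384) .out)) .out))
  .out))) .out) .out) (.nx 641 2097153 (.nr 640 2097153 (.nr 627 106 .s1 (.nx 634 32769 (.nx 628
  324 (.l1 (.ls 79 31 993)) (.nr 633 1048577 (.lg 0 false 5 97 97 23 0 236880) .out)) (.nr 639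
  32769 (.nr 637 1049 (.lg 0 true 3 71 71 23 0 6768) (.nx 638 131073 (.lg 2 true 1 73 73 19 17774
  47376) .out)) .out))) .out) .out)) (.na 654 111 (.nx 653 2097153 (.nr 652 2097153 (.nr 643 108
  .s1 (.nx 647 20644 (.nx 644 324 (.l1 (.ls 83 41 974)) (.nr 646 1048577 (.lg 0 false 2 97 97 29 0
  33840) .out)) (.nr 651 65537 (.nr 649 513 (.lg 0 true 2 71 71 29 0 6768) (.nx 650 131073 (.lg 2
  true 1 89 89 23 56265 33840) .out)) .out))) .out) .out) (.nx 668 2097153 (.nr 667 2097153 (.nr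
  655 111 .s1 (.nx 662 20644 (.nx 656 324 (.l1 (.ls 83 29 948)) (.nr 661 1048577 (.lg 0 false 5 83
  97 23 0 118440) .out)) (.nr 666 65537 (.nr 664 513 (.lg 0 true 2 71 71 19 0 6768) (.nx 665 131073
  (.lg 2 true 1 89 89 17 56265 23688) .out)) .out))) .out) .out))))) (.na 753 131 (.na 711 122 (.na
  685 118 (.nx 684 2097153 (.nr 683 2097153 (.nr 670 112 .s1 (.nx 681 131073 (.nx 677 20644 (.nx
  672 188 (.nr 671 1146 (.l1 (.ls 37 31 318)) (.l1 .sk)) (.nx 673 189 (.l1 .sk) (.nx 674 324 (.l1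
  (.ls 89 37 621)) (.nr 676 1048577 (.lg 0 false 2 101 103 31 0 2605680) .out)))) (.nr 680 65537
  (.nr 678 32769 (.lg 0 true 1 97 97 29 0 236880) (.nx 679 32769 (.lg 0 false 1 79 83 29 0 236880)
  .out)) .out)) (.nr 682 513 (.lg 0 true 1 79 79 29 0 47376) .out))) .out) .out) (.na 698 119 (.nx
  697 2097153 (.nr 696 2097153 (.nr 686 118 .s1 (.nx 691 20644 (.nx 687 324 (.l1 (.ls 79 31 892))
  (.nr 690 1048577 (.lg 0 false 3 89 89 23 0 6768) .out)) (.nr 695 65537 (.nr 693 513 (.lg 0 true 2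
  67 67 19 0 6768) (.nx 694 131073 (.lg 2 true 1 83 83 19 56265 6768) .out)) .out))) .out) .out)
  (.nx 710 2097153 (.nr 709 2097153 (.nr 699 119 .s1 (.nx 704 20644 (.nx 700 324 (.l1 (.ls 83 31
  885)) (.nr 703 1048577 (.lg 0 false 3 83 89 23 0 23688) .out)) (.nr 708 65537 (.nr 706 513 (.lg 0
  true 2 71 71 23 0 47376) (.nx 707 131073 (.lg 2 true 1 83 83 16 56265 23688) .out)) .out))) .out)
  .out))) (.na 736 128 (.na 724 126 (.nx 723 2097153 (.nr 722 2097153 (.nr 712 122 .s1 (.nx 717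
  20644 (.nx 713 324 (.l1 (.ls 79 31 863)) (.nr 716 1048577 (.lg 0 false 3 89 89 23 0 33840) .out))
  (.nr 721 65537 (.nr 719 513 (.lg 0 true 2 67 67 19 0 6768) (.nx 720 131073 (.lg 2 true 1 83 83 19
  56265 33840) .out)) .out))) .out) .out) (.nx 735 2097153 (.nr 734 2097153 (.nr 725 126 .s1 (.nx
  729 20644 (.nx 726 324 (.l1 (.ls 79 41 836)) (.nr 728 1048577 (.lg 0 false 2 89 89 31 0 47376)
  .out)) (.nr 733 65537 (.nr 731 513 (.lg 0 true 2 67 67 31 0 47376) (.nx 732 131073 (.lg 2 true 1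
  83 83 31 56265 47376) .out)) .out))) .out) .out)) (.na 752 129 (.nx 751 2097153 (.nr 750 2097153
  (.nr 737 128 .s1 (.nx 740 189 (.nx 739 188 (.nr 738 1253 (.l1 (.ls 31 29 279)) (.l1 .sk)) (.l1
  .sk)) (.nx 741 324 (.l1 (.ls 89 31 544)) (.nr 749 1482912 (.nx 745 20644 (.nr 742 1048577 (.lg 0
  false 1 101 103 29 0 236880) (.nx 743 8192 .out (.nx 744 16385 (.lg 0 false 1 89 97 29 0 236880)
  .out))) (.nr 748 65537 (.nr 746 1025 (.lg 0 true 1 83 83 23 0 6768) (.nx 747 131073 (.lg 2 false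
  1 89 97 23 56265 236880) .out)) .out)) .out)))) .out) .out) .ne))) (.na 782 139 (.na 768 136 (.nx
  767 1048577 (.nr 766 1482912 (.nr 754 131 .s1 (.nx 756 188 (.nr 755 1321 (.l1 (.ls 16 17 272))
  (.l1 .sk)) (.nx 757 189 (.l1 .sk) (.nx 762 32769 (.lg 0 false 5 79 83 17 0 16920) (.nr 765 16385
  (.nr 763 1025 (.lg 0 false 1 67 67 16 0 23688) (.nx 764 131073 (.lg 2 true 1 53 53 16 12021 3384)
  .out)) .out))))) .out) .out) (.na 781 137 (.nx 780 1048577 (.nr 779 1482912 (.nr 769 136 .s1 (.nx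
  777 131073 (.nx 771 188 (.nr 770 1330 (.l1 (.ls 16 31 262)) (.l1 .sk)) (.nx 772 189 (.l1 .sk)
  (.nx 775 16385 (.lg 0 false 3 83 89 31 0 6768) (.nr 776 65537 (.lg 0 false 1 89 89 29 0 6768)
  .out)))) (.nr 778 1025 (.lg 0 true 1 71 71 29 0 6768) .out))) .out) .out) (.lg 0 false 1 0 0 16 0
  24))) (.na 798 142 (.na 783 141 (.lg 0 false 1 0 0 16 0 24) (.nx 797 1048577 (.nr 796 1482912
  (.nr 784 141 .s1 (.nx 792 32769 (.nx 786 188 (.nr 785 1379 (.l1 (.ls 16 23 253)) (.l1 .sk)) (.nx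
  787 189 (.l1 .sk) (.lg 0 false 5 83 83 23 0 118440))) (.nr 795 16385 (.nr 793 1025 (.lg 0 false 1
  67 67 17 0 23688) (.nx 794 131073 (.lg 2 false 1 59 59 17 12021 23688) .out)) .out))) .out)
  .out)) (.na 812 144 (.nx 811 1048577 (.nr 810 1482912 (.nr 799 142 .s1 (.nx 802 189 (.nx 801 188
  (.nr 800 1398 (.l1 (.ls 19 29 251)) (.l1 .sk)) (.l1 .sk)) (.nx 805 16385 (.lg 0 false 3 83 83 23
  0 6768) (.nr 809 65537 (.nx 807 131073 (.lg 0 true 2 83 83 23 0 6768) (.nr 808 1025 (.lg 0 false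
  1 73 73 19 0 236880) .out)) .out)))) .out) .out) (.nx 825 1048577 (.nr 824 1482912 (.nr 813 144
  .s1 (.nx 816 189 (.nx 815 188 (.nr 814 1428 (.l1 (.ls 29 31 248)) (.l1 .sk)) (.l1 .sk)) (.nx 818
  16385 (.lg 0 false 2 83 89 37 0 6768) (.nr 823 65537 (.nr 821 16385 (.nx 819 131073 (.lg 0 true 1
  79 79 31 0 6768) (.nr 820 1025 (.lg 0 true 1 71 71 31 0 6768) .out)) (.nx 822 32769 (.lg 0 false
  1 73 73 31 0 6768) .out)) .out)))) .out) .out))))))) (.na 1084 197 (.na 957 173 (.na 891 158 (.na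
  865 151 (.na 838 148 (.nx 837 1048577 (.nr 836 1482912 (.nr 827 147 .s1 (.nx 834 131073 (.nx 829
  188 (.nr 828 1437 (.l1 (.ls 23 23 243)) (.l1 .sk)) (.nx 830 189 (.l1 .sk) (.nr 831 65537 (.lg 0
  false 1 89 89 23 0 118440) (.nx 833 16385 (.lg 0 false 2 97 97 23 0 236880) .out)))) (.nr 835
  1025 (.lg 0 true 1 67 67 23 0 23688) .out))) .out) .out) (.na 850 149 (.nx 849 1048577 (.nr 848
  1482912 (.nr 839 148 .s1 (.nx 842 189 (.nx 841 188 (.nr 840 1447 (.l1 (.ls 29 23 241)) (.l1 .sk))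
  (.l1 .sk)) (.nx 846 131073 (.nr 843 65537 (.lg 0 false 1 97 97 23 0 236880) (.nx 845 16385 (.lg 0
  false 2 97 97 23 0 236880) .out)) (.nr 847 1025 (.lg 0 true 1 73 73 23 0 6768) .out)))) .out)
  .out) (.nx 864 1048577 (.nr 863 1482912 (.nr 851 149 .s1 (.nx 854 189 (.nx 853 188 (.nr 852 1466
  (.l1 (.ls 16 17 240)) (.l1 .sk)) (.l1 .sk)) (.nx 859 32769 (.lg 0 false 5 79 79 19 0 16920) (.nr
  862 16385 (.nr 860 1025 (.lg 0 false 1 61 61 16 0 3384) (.nx 861 131073 (.lg 2 true 1 53 53 16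
  12021 3384) .out)) .out)))) .out) .out))) (.na 866 153 (.lg 0 false 1 0 0 16 0 24) (.na 878 157
  (.nx 877 1048577 (.nr 876 1482912 (.nr 867 153 .s1 (.nx 870 189 (.nx 869 188 (.nr 868 1525 (.l1
  (.ls 16 29 234)) (.l1 .sk)) (.l1 .sk)) (.nr 873 65537 (.nx 871 131073 (.lg 0 false 1 89 89 23 0
  118440) (.nr 872 1025 (.lg 0 true 1 71 71 23 0 3384) .out)) (.nx 875 16385 (.lg 0 false 2 97 101
  29 0 236880) .out)))) .out) .out) (.nx 890 1048577 (.nr 889 1482912 (.nr 879 157 .s1 (.nx 881 188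
  (.nr 880 1534 (.l1 (.ls 16 17 228)) (.l1 .sk)) (.nx 882 189 (.l1 .sk) (.nx 885 32769 (.lg 0 false
  3 79 79 17 0 3384) (.nr 888 16385 (.nr 886 1025 (.lg 0 false 1 61 61 16 0 3384) (.nx 887 131073
  (.lg 2 false 1 53 53 16 12021 3384) .out)) .out))))) .out) .out)))) (.na 929 163 (.na 904 159
  (.nx 903 1048577 (.nr 902 1482912 (.nr 892 158 .s1 (.nx 895 189 (.nx 894 188 (.nr 893 1544 (.l1
  (.ls 17 23 226)) (.l1 .sk)) (.l1 .sk)) (.nx 898 32769 (.lg 0 false 3 89 89 23 0 6768) (.nr 901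
  16385 (.nr 899 1025 (.lg 0 false 1 67 67 19 0 6768) (.nx 900 131073 (.lg 2 true 1 59 59 19 12021
  6768) .out)) .out)))) .out) .out) (.na 916 162 (.nx 915 1048577 (.nr 914 1482912 (.nr 905 159 .s1
  (.nx 907 188 (.nr 906 1573 (.l1 (.ls 19 23 225)) (.l1 .sk)) (.nx 908 189 (.l1 .sk) (.nr 911 65537
  (.nx 909 131073 (.lg 0 true 1 83 83 19 0 3384) (.nr 910 1025 (.lg 0 true 1 67 67 19 0 3384)
  .out)) (.nx 913 16385 (.lg 0 false 2 89 89 23 0 6768) .out))))) .out) .out) (.nx 928 1048577 (.nr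
  927 1482912 (.nr 917 162 .s1 (.nx 919 188 (.nr 918 1583 (.l1 (.ls 19 31 221)) (.l1 .sk)) (.nx 920
  189 (.l1 .sk) (.nx 925 131073 (.nr 921 65537 (.lg 0 false 1 83 83 23 0 236880) (.nx 924 16385
  (.lg 0 false 3 83 83 29 0 236880) .out)) (.nr 926 1025 (.lg 0 false 1 67 67 23 0 6768) .out)))))
  .out) .out))) (.na 945 167 (.na 930 166 (.lg 0 false 1 0 0 16 0 24) (.nx 944 1048577 (.nr 943
  1482912 (.nr 931 166 .s1 (.nx 934 189 (.nx 933 188 (.nr 932 1622 (.l1 (.ls 17 23 215)) (.l1 .sk))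
  (.l1 .sk)) (.nx 939 32769 (.lg 0 false 5 79 89 29 0 33840) (.nr 942 16385 (.nr 940 1025 (.lg 0
  false 1 67 67 19 0 6768) (.nx 941 131073 (.lg 2 true 1 59 59 19 12021 6768) .out)) .out)))) .out)
  .out)) (.na 946 168 (.lg 0 false 1 0 0 16 0 24) (.nx 956 1048577 (.nr 955 1482912 (.nr 947 168
  .s1 (.nx 953 131073 (.nx 949 188 (.nr 948 1680 (.l1 (.ls 31 31 213)) (.l1 .sk)) (.nx 950 189 (.l1
  .sk) (.nr 951 65537 (.lg 0 true 1 89 97 37 0 236880) (.nx 952 16385 (.lg 0 false 1 97 97 37 0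
  236880) .out)))) (.nr 954 1025 (.lg 0 true 1 73 73 37 0 47376) .out))) .out) .out))))) (.na 1010
  188 (.na 995 179 (.na 970 177 (.nx 969 1048577 (.nr 968 1482912 (.nr 958 173 .s1 (.nx 960 188
  (.nr 959 1719 (.l1 (.ls 17 17 207)) (.l1 .sk)) (.nx 961 189 (.l1 .sk) (.nx 964 32769 (.lg 0 false
  3 79 79 17 0 3384) (.nr 967 16385 (.nr 965 1025 (.lg 0 false 1 61 61 16 0 3384) (.nx 966 131073
  (.lg 2 false 1 53 53 16 12021 3384) .out)) .out))))) .out) .out) (.na 982 178 (.nx 981 1048577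
  (.nr 980 1482912 (.nr 971 177 .s1 (.nx 973 188 (.nr 972 1729 (.l1 (.ls 23 19 202)) (.l1 .sk))
  (.nx 974 189 (.l1 .sk) (.nr 977 65537 (.nx 975 131073 (.lg 0 true 1 83 83 19 0 3384) (.nr 976
  1025 (.lg 0 true 1 67 67 19 0 3384) .out)) (.nx 979 16385 (.lg 0 false 2 89 89 23 0 6768)
  .out))))) .out) .out) (.nx 994 1048577 (.nr 993 1482912 (.nr 983 178 .s1 (.nx 989 32769 (.nx 985
  188 (.nr 984 1738 (.l1 (.ls 19 23 201)) (.l1 .sk)) (.nx 986 189 (.l1 .sk) (.lg 0 false 3 83 83 23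
  0 6768))) (.nr 992 16385 (.nr 990 1025 (.lg 0 false 1 67 67 19 0 33840) (.nx 991 131073 (.lg 2
  true 1 59 59 19 12021 33840) .out)) .out))) .out) .out))) (.na 997 182 (.na 996 181 (.lg 0 false
  1 0 0 16 0 24) (.lg 0 false 1 0 0 16 0 24)) (.na 998 183 .ne (.nx 1009 1048577 (.nr 1008 1048577
  (.nr 999 183 .s1 (.nx 1006 131073 (.nx 1001 188 (.nr 1000 1826 (.l1 (.ls 23 19 196)) (.l1 .sk))
  (.nx 1002 189 (.l1 .sk) (.nr 1003 65537 (.lg 0 false 1 89 89 19 0 118440) (.nx 1005 16385 (.lg 0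
  false 2 97 97 23 0 236880) .out)))) (.nr 1007 1025 (.lg 0 true 1 67 67 19 0 3384) .out))) .out)
  .out)))) (.na 1047 192 (.na 1023 189 (.nx 1022 1048577 (.nr 1021 1048577 (.nr 1011 188 .s1 (.nx
  1017 32769 (.nx 1013 188 (.nr 1012 1835 (.l1 (.ls 19 23 190)) (.l1 .sk)) (.nx 1014 189 (.l1 .sk)
  (.lg 0 false 3 83 83 23 0 236880))) (.nr 1020 16385 (.nr 1018 1025 (.lg 0 false 1 67 67 19 0
  6768) (.nx 1019 131073 (.lg 2 true 1 59 59 19 12021 236880) .out)) .out))) .out) .out) (.na 1034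
  191 (.nx 1033 1048577 (.nr 1032 1048577 (.nr 1024 189 .s1 (.nx 1027 189 (.nx 1026 188 (.nr 1025
  1855 (.l1 (.ls 23 23 190)) (.l1 .sk)) (.l1 .sk)) (.nx 1030 131073 (.nr 1028 65537 (.lg 0 false 1
  83 83 23 0 23688) (.nx 1029 16385 (.lg 0 false 1 83 83 23 0 23688) .out)) (.nr 1031 1025 (.lg 0
  true 1 61 61 23 0 23688) .out)))) .out) .out) (.nx 1046 1048577 (.nr 1045 1048577 (.nr 1035 191
  .s1 (.nx 1041 32769 (.nx 1037 188 (.nr 1036 1864 (.l1 (.ls 16 17 188)) (.l1 .sk)) (.nx 1038 189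
  (.l1 .sk) (.lg 0 false 3 73 73 17 0 3384))) (.nr 1044 16385 (.nr 1042 1025 (.lg 0 false 1 61 61
  16 0 3384) (.nx 1043 131073 (.lg 2 true 1 53 53 16 12021 3384) .out)) .out))) .out) .out))) (.na
  1059 194 (.na 1058 193 (.nx 1057 1048577 (.nr 1056 1048577 (.nr 1048 192 .s1 (.nx 1054 131073
  (.nx 1050 188 (.nr 1049 1874 (.l1 (.ls 37 31 187)) (.l1 .sk)) (.nx 1051 189 (.l1 .sk) (.nr 1052
  65537 (.lg 0 true 1 89 97 37 0 33840) (.nx 1053 16385 (.lg 0 false 1 97 101 37 0 33840) .out))))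
  (.nr 1055 1025 (.lg 0 true 1 73 79 37 0 33840) .out))) .out) .out) (.lg 0 false 1 0 0 16 0 24))
  (.na 1072 196 (.nx 1071 1048577 (.nr 1070 1048577 (.nr 1060 194 .s1 (.nx 1066 32769 (.nx 1062 188
  (.nr 1061 1903 (.l1 (.ls 16 23 185)) (.l1 .sk)) (.nx 1063 189 (.l1 .sk) (.lg 0 false 3 79 79 29 0
  6768))) (.nr 1069 16385 (.nr 1067 1025 (.lg 0 false 1 61 61 19 0 6768) (.nx 1068 131073 (.lg 2
  true 1 53 53 19 12021 6768) .out)) .out))) .out) .out) (.nx 1083 1048577 (.nr 1082 1048577 (.nr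
  1073 196 .s1 (.nx 1076 189 (.nx 1075 188 (.nr 1074 1913 (.l1 (.ls 23 29 183)) (.l1 .sk)) (.l1
  .sk)) (.nr 1079 65537 (.nx 1077 131073 (.lg 0 false 1 83 83 29 0 47376) (.nr 1078 1025 (.lg 0
  true 1 67 67 29 0 47376) .out)) (.nx 1081 16385 (.lg 0 false 2 83 83 31 0 47376) .out)))) .out)
  .out)))))) (.na 1195 229 (.na 1136 212 (.na 1111 204 (.na 1097 199 (.nx 1096 1048577 (.nr 1095
  1048577 (.nr 1085 197 .s1 (.nx 1087 188 (.nr 1086 1932 (.l1 (.ls 17 17 182)) (.l1 .sk)) (.nx 1088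
  189 (.l1 .sk) (.nx 1091 32769 (.lg 0 false 3 79 79 17 0 118440) (.nr 1094 16385 (.nr 1092 1025
  (.lg 0 false 1 61 61 16 0 3384) (.nx 1093 131073 (.lg 2 false 1 53 53 16 12021 118440) .out))
  .out))))) .out) .out) (.na 1098 202 (.lg 0 false 1 0 0 16 0 24) (.nx 1110 1048577 (.nr 1109
  1048577 (.nr 1099 202 .s1 (.nx 1102 189 (.nx 1101 188 (.nr 1100 1981 (.l1 (.ls 23 23 177)) (.l1
  .sk)) (.l1 .sk)) (.nx 1105 32769 (.lg 0 false 3 83 83 29 0 236880) (.nr 1108 16385 (.nr 1106 1025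
  (.lg 0 false 1 67 67 23 0 6768) (.nx 1107 131073 (.lg 2 true 1 59 59 23 12021 236880) .out))
  .out)))) .out) .out))) (.na 1122 206 (.nx 1121 1048577 (.nr 1120 1048577 (.nr 1112 204 .s1 (.nx
  1115 189 (.nx 1114 188 (.nr 1113 2000 (.l1 (.ls 16 31 176)) (.l1 .sk)) (.l1 .sk)) (.nr 1118 65537
  (.nx 1116 131073 (.lg 0 true 1 89 97 37 0 47376) (.nr 1117 1025 (.lg 0 true 1 73 73 37 0 6768)
  .out)) (.nx 1119 16385 (.lg 0 false 1 97 97 37 0 47376) .out)))) .out) .out) (.na 1135 211 (.nx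
  1134 1048577 (.nr 1133 1048577 (.nr 1123 206 .s1 (.nx 1126 189 (.nx 1125 188 (.nr 1124 2049 (.l1
  (.ls 16 23 174)) (.l1 .sk)) (.l1 .sk)) (.nx 1129 32769 (.lg 0 false 3 73 73 29 0 6768) (.nr 1132
  16385 (.nr 1130 1025 (.lg 0 false 1 59 59 23 0 6768) (.nx 1131 131073 (.lg 2 false 1 53 53 23
  12021 6768) .out)) .out)))) .out) .out) (.lg 0 false 1 0 0 16 0 24)))) (.na 1169 222 (.na 1147
  213 (.nx 1146 1048577 (.nr 1145 1048577 (.nr 1137 212 .s1 (.nx 1140 189 (.nx 1139 188 (.nr 1138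
  2068 (.l1 (.ls 23 23 169)) (.l1 .sk)) (.l1 .sk)) (.nx 1143 131073 (.nr 1141 65537 (.lg 0 false 1
  89 89 23 0 6768) (.nx 1142 16385 (.lg 0 false 1 89 89 23 0 6768) .out)) (.nr 1144 1025 (.lg 0
  true 1 67 67 23 0 6768) .out)))) .out) .out) (.na 1158 216 (.nx 1157 1048577 (.nr 1156 1048577
  (.nr 1148 213 .s1 (.nx 1151 189 (.nx 1150 188 (.nr 1149 2097 (.l1 (.ls 19 19 168)) (.l1 .sk))
  (.l1 .sk)) (.nx 1154 131073 (.nr 1152 65537 (.lg 0 true 1 83 83 19 0 16920) (.nx 1153 16385 (.lg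
  0 false 1 83 83 19 0 3384) .out)) (.nr 1155 1025 (.lg 0 true 1 61 61 19 0 3384) .out)))) .out)
  .out) (.nx 1168 1048577 (.nr 1167 1048577 (.nr 1159 216 .s1 (.nx 1165 131073 (.nx 1161 188 (.nr
  1160 2156 (.l1 (.ls 23 29 166)) (.l1 .sk)) (.nx 1162 189 (.l1 .sk) (.nr 1163 65537 (.lg 0 false 1
  83 83 29 0 47376) (.nx 1164 16385 (.lg 0 false 1 83 83 29 0 47376) .out)))) (.nr 1166 1025 (.lg 0
  true 1 61 61 29 0 6768) .out))) .out) .out))) (.na 1181 224 (.na 1180 223 (.nx 1179 1048577 (.nr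
  1178 1048577 (.nr 1170 222 .s1 (.nx 1172 188 (.nr 1171 2165 (.l1 (.ls 29 29 162)) (.l1 .sk)) (.nx
  1173 189 (.l1 .sk) (.nx 1176 131073 (.nr 1174 65537 (.lg 0 false 1 89 89 31 0 6768) (.nx 1175
  16385 (.lg 0 false 1 89 89 31 0 6768) .out)) (.nr 1177 1025 (.lg 0 true 1 67 67 31 0 6768)
  .out))))) .out) .out) (.lg 0 false 1 0 0 16 0 24)) (.na 1194 227 (.nx 1193 1048577 (.nr 1192
  1048577 (.nr 1182 224 .s1 (.nx 1184 188 (.nr 1183 2204 (.l1 (.ls 37 29 160)) (.l1 .sk)) (.nx 1185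
  189 (.l1 .sk) (.nx 1186 16385 (.lg 0 false 1 89 97 31 0 47376) (.nr 1191 65537 (.nx 1187 32769
  (.lg 0 false 1 73 79 31 0 47376) (.nr 1190 16385 (.nr 1188 1025 (.lg 0 true 1 71 73 37 0 47376)
  (.nx 1189 131073 (.lg 1 true 1 73 73 31 12021 47376) .out)) .out)) .out))))) .out) .out) (.lg 0
  false 1 0 0 16 0 24))))) (.na 1250 243 (.na 1208 237 (.na 1196 233 (.lg 0 false 1 0 0 16 0 24)
  (.na 1197 236 (.lg 0 false 1 0 0 16 0 24) (.nx 1207 1048577 (.nr 1206 1048577 (.nr 1198 236 .s1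
  (.nx 1204 131073 (.nx 1200 188 (.nr 1199 2301 (.l1 (.ls 19 23 152)) (.l1 .sk)) (.nx 1201 189 (.l1
  .sk) (.nr 1202 65537 (.lg 0 true 1 83 83 23 0 6768) (.nx 1203 16385 (.lg 0 false 1 83 83 23 0
  6768) .out)))) (.nr 1205 1025 (.lg 0 true 1 61 61 23 0 6768) .out))) .out) .out))) (.na 1230 239
  (.na 1219 238 (.nx 1218 1048577 (.nr 1217 1048577 (.nr 1209 237 .s1 (.nx 1215 131073 (.nx 1211
  188 (.nr 1210 2311 (.l1 (.ls 23 19 152)) (.l1 .sk)) (.nx 1212 189 (.l1 .sk) (.nr 1213 65537 (.lg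
  0 true 1 83 83 19 0 3384) (.nx 1214 16385 (.lg 0 false 1 83 83 19 0 3384) .out)))) (.nr 1216 1025
  (.lg 0 true 1 61 61 19 0 3384) .out))) .out) .out) (.nx 1229 1048577 (.nr 1228 1048577 (.nr 1220
  238 .s1 (.nx 1226 131073 (.nx 1222 188 (.nr 1221 2321 (.l1 (.ls 16 31 151)) (.l1 .sk)) (.nx 1223
  189 (.l1 .sk) (.nr 1224 65537 (.lg 0 false 1 89 89 31 0 236880) (.nx 1225 16385 (.lg 0 true 1 97
  97 31 0 236880) .out)))) (.nr 1227 1025 (.lg 0 true 1 71 71 31 0 47376) .out))) .out) .out)) (.na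
  1241 241 (.nx 1240 1048577 (.nr 1239 1048577 (.nr 1231 239 .s1 (.nx 1235 32769 (.nx 1233 188 (.nr
  1232 2340 (.l1 (.ls 16 17 150)) (.l1 .sk)) (.nx 1234 189 (.l1 .sk) (.lg 0 true 1 79 79 17 0
  3384))) (.nr 1238 16385 (.nr 1236 1025 (.lg 0 false 1 59 59 17 0 23688) (.nx 1237 131073 (.lg 2
  true 1 53 53 17 12021 23688) .out)) .out))) .out) .out) (.nx 1249 1048577 (.nr 1248 1048577 (.nr
  1242 241 .s1 (.nx 1245 189 (.nx 1244 188 (.nr 1243 2360 (.l1 (.ls 16 17 149)) (.l1 .sk)) (.l1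
  .sk)) (.nx 1246 32769 (.lg 0 true 1 79 79 17 0 3384) (.nr 1247 16385 (.lg 0 false 1 73 73 17 0
  3384) .out)))) .out) .out)))) (.na 1283 251 (.na 1261 244 (.nx 1260 1048577 (.nr 1259 1048577
  (.nr 1251 243 .s1 (.nx 1253 188 (.nr 1252 2369 (.l1 (.ls 17 19 148)) (.l1 .sk)) (.nx 1254 189
  (.l1 .sk) (.nx 1255 32769 (.lg 0 true 1 83 83 19 0 3384) (.nr 1258 16385 (.nr 1256 1025 (.lg 0
  false 1 61 61 19 0 118440) (.nx 1257 131073 (.lg 2 true 1 53 53 19 12021 118440) .out)) .out)))))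
  .out) .out) (.na 1272 249 (.nx 1271 1048577 (.nr 1270 1048577 (.nr 1262 244 .s1 (.nx 1264 188
  (.nr 1263 2418 (.l1 (.ls 23 23 147)) (.l1 .sk)) (.nx 1265 189 (.l1 .sk) (.nx 1268 131073 (.nr
  1266 65537 (.lg 0 true 1 83 83 23 0 6768) (.nx 1267 16385 (.lg 0 false 1 83 83 23 0 6768) .out))
  (.nr 1269 1025 (.lg 0 true 1 67 67 23 0 6768) .out))))) .out) .out) (.nx 1282 1048577 (.nr 1281
  1048577 (.nr 1273 249 .s1 (.nx 1276 189 (.nx 1275 188 (.nr 1274 2437 (.l1 (.ls 17 19 144)) (.l1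
  .sk)) (.l1 .sk)) (.nr 1279 65537 (.nx 1277 131073 (.lg 0 true 1 73 73 23 0 3384) (.nr 1278 1025
  (.lg 0 true 1 59 59 23 0 3384) .out)) (.nx 1280 16385 (.lg 0 false 1 73 73 23 0 3384) .out))))
  .out) .out))) (.na 1305 256 (.na 1294 252 (.nx 1293 1048577 (.nr 1292 1048577 (.nr 1284 251 .s1
  (.nx 1287 189 (.nx 1286 188 (.nr 1285 2447 (.l1 (.ls 16 17 143)) (.l1 .sk)) (.l1 .sk)) (.nx 1288
  32769 (.lg 0 true 1 83 83 17 0 23688) (.nr 1291 16385 (.nr 1289 1025 (.lg 0 false 1 59 59 17 0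
  3384) (.nx 1290 131073 (.lg 2 true 1 53 53 17 12021 23688) .out)) .out)))) .out) .out) (.nx 1304
  1048577 (.nr 1303 1048577 (.nr 1295 252 .s1 (.nx 1297 188 (.nr 1296 2486 (.l1 (.ls 31 31 143))
  (.l1 .sk)) (.nx 1298 189 (.l1 .sk) (.nr 1301 65537 (.nx 1299 131073 (.lg 0 true 1 89 89 37 0
  236880) (.nr 1300 1025 (.lg 0 true 1 71 71 37 0 47376) .out)) (.nx 1302 16385 (.lg 0 false 1 89
  97 37 0 236880) .out))))) .out) .out)) (.na 1315 257 (.nx 1314 1048577 (.nr 1313 1482912 (.nr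
  1306 256 .s1 (.nx 1307 257 (.l1 (.ls 73 29 261)) (.nr 1312 1048577 (.nr 1310 65537 (.nx 1308
  131073 (.lg 0 true 1 79 83 29 0 6768) (.nr 1309 2049 (.lg 0 true 1 71 73 29 0 6768) .out)) (.nx
  1311 20644 (.lg 0 false 1 83 89 31 0 6768) .out)) .out))) .out) .out) (.nx 1814 1048577 (.nr 1813
  1482912 (.nr 1316 257 .s1 (.nx 1424 189 (.nx 1423 188 (.nr 1422 3525 (.la (.ls 31 19 140)) (.l1
  .sk)) (.l1 .sk)) (.nx 1599 20644 (.nx 1492 257 (.lx (.lp 83 17 91)) (.nr 1598 1048577 (.la (.lg 0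
  false 1 79 79 23 0)) .out)) (.nr 1812 32769 (.nr 1705 2049 (.la (.lg 0 true 1 67 67 23 0)) (.nx
  1811 131073 (.la (.lg 2 false 1 67 67 23 28214)) .out)) .out)))) .out) .out))))))))

def T22_1 : Ph :=
  (.na 1179 167 (.na 973 64 (.na 815 26 (.na 648 10 (.na 498 3 (.na 285 2 (.nx 284 1321124 (.nr 283
  881745 (.nx 2 169 (.nr 1 14 (.lg 0 false 1 41 41 5 0 312) (.l1 .sk)) (.nx 3 170 (.l1 .sk) (.nx
  261 660563 (.nr 239 92683 (.nx 80 24844 (.lg 0 false 77 97 103 16 0 360360) (.nr 238 77937 (.nr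
  113 695 (.lg 0 true 33 89 97 13 0 51480) (.nr 124 1219 (.lg 2 true 11 83 83 9 80314 3432) (.nx
  237 524289 (.nx 157 32769 (.lg 1 false 33 97 103 13 44897 360360) (.nr 236 55110 (.nr 191 23172
  (.nr 168 2437 (.lg 2 true 11 83 89 9 36344 17160) (.nx 190 416129 (.nr 179 4097 (.lg 2 true 11 83
  83 9 14429 17160) (.lg 2 false 11 97 101 9 10172 120120)) .out)) (.nx 235 262145 (.lg 2 false 44
  101 107 16 24091 720720) .out)) .out)) .out))) .out)) (.nx 260 257 (.lg 0 false 21 83 83 11 0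
  6552) .out)) (.nr 282 129 (.lg 0 true 21 83 83 11 0 6552) .out)))) .out) .out) (.nx 497 3329023
  (.nr 496 623489 (.nx 477 1664512 (.nx 287 169 (.nr 286 25 (.lg 0 false 1 41 41 5 0 3120) (.l1
  .sk)) (.nx 288 170 (.l1 .sk) (.nx 455 832257 (.nx 336 26009 (.nr 321 131073 (.lg 0 false 33 101
  103 13 0 102960) (.nx 335 257 (.lg 0 false 14 73 73 9 0 4368) .out)) (.nr 454 110219 (.nr 357 450
  (.lg 0 true 21 89 89 11 0 13104) (.nx 453 416129 (.nx 378 32769 (.lg 1 false 21 89 101 11 60611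
  65520) (.nr 452 92683 (.nr 394 4468 (.nr 387 1388 (.lg 2 true 9 83 83 9 78140 9360) (.lg 2 true 7
  89 89 9 25334 21840)) (.nx 451 330282 (.nx 436 104033 (.nx 415 60679 (.lg 1 false 21 97 103 11
  40465 65520) (.lg 1 true 21 97 103 11 21853 65520)) (.nr 450 65537 (.lg 2 false 14 97 101 9 9020
  21840) .out)) .out)) .out)) .out)) .out)) (.nr 476 129 (.lg 0 true 21 79 79 11 0 13104) .out))))
  (.nr 495 9 (.lg 0 true 18 67 67 9 0 1872) .out)) .out) .out)) (.na 499 5 .ne (.na 647 6 (.nx 646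
  13316087 (.nr 645 1482912 (.nx 502 170 (.nx 501 169 (.nr 500 54 (.lg 0 true 1 31 31 9 0 4680)
  (.l1 .sk)) (.l1 .sk)) (.nx 535 26007 (.nr 523 110219 (.lg 0 false 21 89 101 16 0 65520) (.nx 534
  257 (.lg 0 false 11 73 73 16 0 17160) .out)) (.nr 644 155873 (.nx 615 1664512 (.nx 603 660563
  (.nr 553 4213 (.nr 546 956 (.lg 0 true 11 83 83 16 0 17160) (.lg 2 true 7 83 89 16 58387 10920))
  (.nx 579 82572 (.nx 565 41285 (.nr 564 131073 (.lg 1 false 11 97 103 16 72067 102960) .out) (.nx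
  572 58386 (.lg 1 false 7 97 101 16 53976 65520) (.lg 1 false 7 97 101 16 38167 65520))) (.nr 602
  131073 (.nx 590 131073 (.lg 1 true 11 97 103 16 22698 102960) (.nr 601 46342 (.nr 594 8843 (.lg 2
  true 4 79 83 13 13249 3120) (.lg 2 false 7 89 97 16 6313 65520)) .out)) .out))) (.nr 614 217 (.lg
  0 true 11 79 79 16 0 17160) .out)) (.nr 643 24 (.lg 0 true 28 79 79 16 0 21840) .out)) .out)))
  .out) .out) .ne))) (.na 708 13 (.na 707 12 (.nx 706 1664512 (.nr 705 623489 (.nx 650 169 (.nr 649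
  110 (.lg 0 true 1 31 31 11 0 3120) (.l1 .sk)) (.nx 651 170 (.l1 .sk) (.nr 697 131073 (.nx 689
  524289 (.nx 662 35390 (.lg 0 false 11 101 103 19 0 720720) (.nr 669 1621 (.lg 0 true 7 83 83 13 0
  21840) (.nx 688 416129 (.nx 676 65537 (.lg 1 false 7 97 101 13 52960 65520) (.nr 687 110219 (.lg
  2 false 11 89 101 19 24054 240240) .out)) .out))) (.nr 696 65 (.lg 0 true 7 71 71 13 0 21840)
  .out)) (.nx 704 1292 (.lg 0 false 7 83 83 13 0 21840) .out)))) .out) .out) .ne) (.na 785 16 (.nx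
  784 1664512 (.nr 783 623489 (.nr 709 1 .s1 (.nx 727 14281 (.nx 711 169 (.nr 710 147 (.l1 (.ls 17
  31 2199)) (.l1 .sk)) (.nx 712 170 (.l1 .sk) (.nr 719 155873 (.lg 0 false 7 83 83 16 0 32760) (.nx
  726 1292 (.lg 0 false 7 73 73 16 0 2184) .out)))) (.nr 782 110219 (.nr 739 829 (.lg 0 true 12 73
  73 16 0 1872) (.nx 781 416129 (.nr 748 23702 (.lg 2 false 9 71 71 16 42417 936) (.nr 769 55110
  (.lg 0 true 21 83 89 16 0 32760) (.nx 780 131073 (.lg 0 true 11 89 97 16 0 51480) .out))) .out))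
  .out))) .out) .out) (.na 786 25 .ne (.nx 814 1664512 (.nr 813 1048577 (.nr 787 22 .s1 (.nx 791
  257 (.nx 789 169 (.nr 788 240 (.lg 0 false 1 19 19 16 0 1560) (.l1 .sk)) (.nx 790 170 (.l1 .sk)
  (.l1 (.ls 73 31 1488)))) (.nr 812 311745 (.nr 808 110219 (.nx 795 41287 (.lg 0 false 4 89 89 16 0
  3120) (.nr 807 65537 (.nr 802 513 (.lg 0 true 7 71 71 16 0 10920) (.nx 806 165142 (.lg 2 false 4
  83 83 16 27202 3120) .out)) .out)) (.nx 811 8193 (.lg 0 false 3 83 83 16 0 4680) .out)) .out)))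
  .out) .out))))) (.na 913 46 (.na 871 32 (.na 843 29 (.nx 842 1664512 (.nr 841 1048577 (.nr 816 23
  .s1 (.nx 817 257 (.l1 (.ls 73 43 2543)) (.nr 840 311745 (.nx 824 20644 (.lg 0 false 7 83 83 11 0
  4368) (.nr 839 77937 (.nr 831 513 (.lg 0 true 7 67 67 11 0 4368) (.nx 838 165142 (.lg 2 false 7
  83 83 11 54032 21840) .out)) .out)) .out))) .out) .out) (.nx 870 1664512 (.nr 869 1048577 (.nr
  844 26 .s1 (.nx 847 170 (.nx 846 169 (.nr 845 295 (.l1 (.ls 19 23 987)) (.l1 .sk)) (.l1 .sk))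
  (.nx 848 257 (.l1 (.ls 79 23 1284)) (.nr 868 311745 (.nx 855 20644 (.lg 0 false 7 89 97 16 0
  10920) (.nr 867 77937 (.nr 862 513 (.lg 0 true 7 73 73 16 0 2184) (.nx 866 165142 (.lg 2 false 4
  89 97 16 54032 3120) .out)) .out)) .out)))) .out) .out)) (.na 872 34 .ne (.na 893 37 (.nx 892
  1664512 (.nr 891 881745 (.nr 873 32 .s1 (.nx 874 257 (.l1 (.ls 79 41 1945)) (.nr 890 440873 (.nx
  881 20644 (.lg 0 false 7 89 97 23 0 21840) (.nr 889 46342 (.nr 886 257 (.lg 0 true 5 71 71 13 0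
  3120) (.nx 888 104033 (.lg 2 false 2 83 83 13 34206 624) .out)) .out)) .out))) .out) .out) (.nx
  912 1664512 (.nr 911 881745 (.nr 894 35 .s1 (.nx 895 257 (.l1 (.ls 73 29 1788)) (.nr 910 440873
  (.nx 902 20644 (.lg 0 false 7 89 89 16 0 10920) (.nr 909 46342 (.nr 906 257 (.lg 0 true 4 67 67
  16 0 624) (.nx 908 104033 (.lg 2 true 2 83 83 16 34206 3120) .out)) .out)) .out))) .out) .out))))
  (.na 929 53 (.na 914 50 .ne (.nx 928 1664512 (.nr 927 881745 (.nr 915 49 .s1 (.nx 920 20644 (.nx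
  916 257 (.l1 (.ls 73 41 1323)) (.nr 919 623489 (.lg 0 false 3 89 89 19 0 9360) .out)) (.nr 926
  46342 (.nr 923 257 (.lg 0 true 3 61 61 19 0 9360) (.nx 925 104033 (.lg 2 false 2 79 79 19 34206
  3120) .out)) .out))) .out) .out)) (.na 945 58 (.nx 944 1664512 (.nr 943 881745 (.nr 930 52 .s1
  (.nx 931 257 (.l1 (.ls 73 29 1249)) (.nr 942 623489 (.nx 935 20644 (.lg 0 false 4 89 89 16 0
  3120) (.nr 941 46342 (.nr 938 257 (.lg 0 true 3 67 67 16 0 936) (.nx 940 104033 (.lg 2 false 2 79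
  79 16 34206 624) .out)) .out)) .out))) .out) .out) (.na 959 61 (.nx 958 1664512 (.nr 957 881745
  (.nr 946 57 .s1 (.nx 951 20644 (.nx 947 257 (.l1 (.ls 73 41 1141)) (.nr 950 623489 (.lg 0 false 3
  97 97 19 0 9360) .out)) (.nr 956 46342 (.nr 953 257 (.lg 0 true 2 67 67 13 0 624) (.nx 955 104033
  (.lg 2 false 2 79 79 13 34206 624) .out)) .out))) .out) .out) (.nx 972 1664512 (.nr 971 881745
  (.nr 960 60 .s1 (.nx 966 20644 (.nx 961 257 (.l1 (.ls 71 23 1085)) (.nr 965 623489 (.lg 0 false 4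
  83 83 16 0 624) .out)) (.nr 970 46342 (.nr 968 257 (.lg 0 true 2 61 61 16 0 624) (.nx 969 104033
  (.lg 2 true 1 79 79 16 34206 312) .out)) .out))) .out) .out)))))) (.na 1093 109 (.na 1035 89 (.na
  989 74 (.na 974 65 .ne (.nx 988 1664512 (.nr 987 524289 (.nr 975 64 .s1 (.nx 978 170 (.nx 977 169
  (.nr 976 682 (.l1 (.ls 17 29 442)) (.l1 .sk)) (.l1 .sk)) (.nx 981 20644 (.lg 0 false 3 79 79 17 0
  4680) (.nr 986 32769 (.nr 984 513 (.lg 0 true 3 61 61 17 0 4680) (.nx 985 104033 (.lg 2 true 1 71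
  71 16 22786 1560) .out)) .out)))) .out) .out)) (.na 1004 82 (.nx 1003 1664512 (.nr 1002 524289
  (.nr 990 73 .s1 (.nx 993 170 (.nx 992 169 (.nr 991 755 (.l1 (.ls 23 29 388)) (.l1 .sk)) (.l1
  .sk)) (.nx 996 20644 (.lg 0 false 3 89 89 19 0 1872) (.nr 1001 32769 (.nr 999 513 (.lg 0 true 3
  67 67 19 0 1872) (.nx 1000 104033 (.lg 2 true 1 79 79 13 22786 624) .out)) .out)))) .out) .out)
  (.na 1019 85 (.nx 1018 1664512 (.nr 1017 524289 (.nr 1005 81 .s1 (.nx 1008 170 (.nx 1007 169 (.nr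
  1006 783 (.l1 (.ls 19 29 351)) (.l1 .sk)) (.l1 .sk)) (.nx 1011 20644 (.lg 0 false 3 83 83 19 0
  1872) (.nr 1016 32769 (.nr 1014 513 (.lg 0 true 3 67 67 19 0 1872) (.nx 1015 104033 (.lg 2 true 1
  73 73 13 22786 3120) .out)) .out)))) .out) .out) (.nx 1034 1664512 (.nr 1033 524289 (.nr 1020 85
  .s1 (.nr 1027 32769 (.nx 1024 104033 (.nx 1021 1755 (.l1 (.ls 59 53 36238)) (.lg 0 true 3 73 73
  23 0 4680)) (.nr 1026 513 (.lg 0 true 2 73 73 16 0 3120) .out)) (.nx 1029 170 (.nx 1028 169 (.l1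
  .sk) (.l1 .sk)) (.nx 1032 20644 (.lg 0 false 3 83 89 23 0 4680) .out)))) .out) .out)))) (.na 1051
  97 (.na 1050 91 (.nx 1049 1664512 (.nr 1048 524289 (.nr 1036 89 .s1 (.nx 1042 20644 (.nx 1038 169
  (.nr 1037 838 (.l1 (.ls 16 19 323)) (.l1 .sk)) (.nx 1039 170 (.l1 .sk) (.lg 0 false 3 73 73 16 0
  936))) (.nr 1047 32769 (.nr 1045 838 (.lg 0 true 3 61 61 16 0 936) (.nx 1046 104033 (.lg 2 true 1
  67 67 16 22786 1560) .out)) .out))) .out) .out) .ne) (.na 1064 101 (.nx 1063 1664512 (.nr 1062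
  1048577 (.nr 1052 97 .s1 (.nx 1058 20644 (.nx 1054 169 (.nr 1053 930 (.l1 (.ls 17 17 297)) (.l1
  .sk)) (.nx 1055 170 (.l1 .sk) (.lg 0 false 3 79 79 16 0 936))) (.nr 1061 32769 (.nr 1059 513 (.lg
  0 false 1 67 67 16 0 1560) (.nx 1060 104033 (.lg 2 true 1 67 67 16 22786 1560) .out)) .out)))
  .out) .out) (.na 1079 106 (.nx 1078 1664512 (.nr 1077 1048577 (.nr 1065 101 .s1 (.nx 1068 170
  (.nx 1067 169 (.nr 1066 976 (.l1 (.ls 17 17 285)) (.l1 .sk)) (.l1 .sk)) (.nx 1072 20644 (.lg 0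
  false 4 79 79 17 0 624) (.nr 1076 32769 (.nr 1074 513 (.lg 0 true 2 59 59 16 0 624) (.nx 1075
  104033 (.lg 2 true 1 67 67 16 22786 312) .out)) .out)))) .out) .out) (.nx 1092 1664512 (.nr 1091
  1048577 (.nr 1080 106 .s1 (.nx 1086 20644 (.nx 1082 169 (.nr 1081 1004 (.l1 (.ls 19 29 272)) (.l1
  .sk)) (.nx 1083 170 (.l1 .sk) (.lg 0 false 3 89 89 23 0 1872))) (.nr 1090 32769 (.nr 1088 513
  (.lg 0 true 2 61 61 19 0 624) (.nx 1089 104033 (.lg 2 true 1 71 71 19 22786 624) .out)) .out)))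
  .out) .out))))) (.na 1146 131 (.na 1120 125 (.na 1107 122 (.nx 1106 1664512 (.nr 1105 1048577
  (.nr 1094 109 .s1 (.nx 1097 170 (.nx 1096 169 (.nr 1095 1124 (.l1 (.ls 17 17 265)) (.l1 .sk))
  (.l1 .sk)) (.nx 1100 20644 (.lg 0 false 3 79 79 16 0 936) (.nr 1104 32769 (.nr 1102 513 (.lg 0
  true 2 59 59 16 0 624) (.nx 1103 104033 (.lg 2 true 1 67 67 16 22786 312) .out)) .out)))) .out)
  .out) (.nx 1119 1664512 (.nr 1118 1048577 (.nr 1108 122 .s1 (.nx 1114 20644 (.nx 1110 169 (.nr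
  1109 1151 (.l1 (.ls 23 23 237)) (.l1 .sk)) (.nx 1111 170 (.l1 .sk) (.lg 0 false 3 89 89 23 0
  9360))) (.nr 1117 32769 (.nr 1115 513 (.lg 0 false 1 73 73 19 0 9360) (.nx 1116 104033 (.lg 2
  true 1 71 71 19 22786 624) .out)) .out))) .out) .out)) (.na 1133 128 (.nx 1132 1664512 (.nr 1131
  1048577 (.nr 1121 125 .s1 (.nx 1127 20644 (.nx 1123 169 (.nr 1122 1179 (.l1 (.ls 17 19 231)) (.l1
  .sk)) (.nx 1124 170 (.l1 .sk) (.lg 0 false 3 79 79 17 0 4680))) (.nr 1130 32769 (.nr 1128 513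
  (.lg 0 false 1 67 67 16 0 1560) (.nx 1129 104033 (.lg 2 true 1 67 67 16 22786 1560) .out))
  .out))) .out) .out) (.na 1134 130 .ne (.nx 1145 832257 (.nr 1144 1048577 (.nr 1135 130 .s1 (.nx
  1136 257 (.l1 (.ls 71 37 511)) (.nr 1143 741457 (.nr 1139 16385 (.lg 0 true 3 79 79 31 0 9360)
  (.nx 1142 13005 (.lg 0 false 3 79 79 31 0 9360) .out)) .out))) .out) .out)))) (.na 1158 149 (.na
  1147 139 (.lg 0 false 1 0 0 16 0 24) (.na 1148 146 (.lg 0 false 1 0 0 16 0 24) (.nx 1157 832257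
  (.nr 1156 1048577 (.nr 1149 146 .s1 (.nx 1152 14281 (.nx 1150 257 (.l1 (.ls 67 29 455)) (.nr 1151
  741457 (.lg 0 true 1 83 83 19 0 624) .out)) (.nr 1155 16385 (.nr 1153 1025 (.lg 0 false 1 67 67
  19 0 3120) (.nx 1154 104033 (.lg 2 false 1 59 59 19 16554 624) .out)) .out))) .out) .out))) (.na
  1168 157 (.nx 1167 832257 (.nr 1166 1048577 (.nr 1159 149 .s1 (.nx 1160 257 (.l1 (.ls 61 19 446))
  (.nr 1165 741457 (.nr 1163 16385 (.lg 0 true 3 73 73 17 0 936) (.nx 1164 13005 (.lg 0 true 1 73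
  73 16 0 312) .out)) .out))) .out) .out) (.na 1178 163 (.nx 1177 832257 (.nr 1176 1048577 (.nr
  1169 157 .s1 (.nx 1170 257 (.l1 (.ls 79 19 423)) (.nr 1175 741457 (.nr 1173 16385 (.lg 0 true 3
  73 73 17 0 936) (.nx 1174 13005 (.lg 0 true 1 79 79 16 0 312) .out)) .out))) .out) .out) (.lg 0
  false 1 0 0 16 0 24))))))) (.na 1296 227 (.na 1235 194 (.na 1207 181 (.na 1190 173 (.na 1180 170
  (.lg 0 false 1 0 0 16 0 24) (.nx 1189 832257 (.nr 1188 1048577 (.nr 1181 170 .s1 (.nx 1182 257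
  (.l1 (.ls 73 37 391)) (.nr 1187 741457 (.nx 1185 104033 (.nx 1183 13005 (.lg 0 true 1 83 83 31 0
  3120) (.nr 1184 16385 (.lg 0 true 1 73 73 31 0 3120) .out)) (.nr 1186 1025 (.lg 0 true 1 67 67 31
  0 3120) .out)) .out))) .out) .out)) (.na 1198 178 (.nx 1197 832257 (.nr 1196 1048577 (.nr 1191
  173 .s1 (.nx 1192 257 (.l1 (.ls 61 19 384)) (.nr 1195 741457 (.nr 1193 16385 (.lg 0 false 1 79 79
  16 0 1560) (.nx 1194 13005 (.lg 0 true 1 73 73 16 0 1560) .out)) .out))) .out) .out) (.na 1206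
  179 (.nx 1205 832257 (.nr 1204 1048577 (.nr 1199 178 .s1 (.nx 1200 257 (.l1 (.ls 67 29 374)) (.nr
  1203 741457 (.nr 1201 16385 (.lg 0 false 1 79 79 19 0 624) (.nx 1202 13005 (.lg 0 true 1 79 79 19
  0 3120) .out)) .out))) .out) .out) (.lg 0 false 1 0 0 16 0 24)))) (.na 1216 185 (.na 1215 182
  (.nx 1214 832257 (.nr 1213 1048577 (.nr 1208 181 .s1 (.nx 1209 257 (.l1 (.ls 61 19 367)) (.nr
  1212 741457 (.nr 1210 16385 (.lg 0 false 1 73 73 16 0 312) (.nx 1211 13005 (.lg 0 true 1 73 73 16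
  0 1560) .out)) .out))) .out) .out) .ne) (.na 1226 191 (.nx 1225 832257 (.nr 1224 1048577 (.nr
  1217 185 .s1 (.nx 1222 104033 (.nx 1218 257 (.l1 (.ls 71 23 360)) (.nr 1221 741457 (.nx 1219
  13005 (.lg 0 false 1 83 83 19 0 1560) (.nr 1220 16385 (.lg 0 true 1 73 73 19 0 1560) .out))
  .out)) (.nr 1223 1025 (.lg 0 true 1 67 67 19 0 1560) .out))) .out) .out) (.na 1227 193 (.lg 0
  false 1 0 0 16 0 24) (.nx 1234 832257 (.nr 1233 1048577 (.nr 1228 193 .s1 (.nx 1229 257 (.l1 (.ls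
  61 19 345)) (.nr 1232 741457 (.nr 1230 16385 (.lg 0 false 1 73 73 16 0 312) (.nx 1231 13005 (.lg
  0 true 1 73 73 16 0 4680) .out)) .out))) .out) .out))))) (.na 1270 211 (.na 1251 199 (.na 1243
  197 (.nx 1242 832257 (.nr 1241 1048577 (.nr 1236 194 .s1 (.nx 1237 257 (.l1 (.ls 67 29 343)) (.nr
  1240 741457 (.nr 1238 16385 (.lg 0 false 1 79 79 19 0 624) (.nx 1239 13005 (.lg 0 true 1 79 79 19
  0 9360) .out)) .out))) .out) .out) (.nx 1250 832257 (.nr 1249 1048577 (.nr 1244 197 .s1 (.nx 1245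
  257 (.l1 (.ls 61 19 338)) (.nr 1248 741457 (.nr 1246 16385 (.lg 0 false 1 73 73 16 0 312) (.nx
  1247 13005 (.lg 0 true 1 73 73 16 0 1560) .out)) .out))) .out) .out)) (.na 1252 202 (.lg 0 false
  1 0 0 16 0 24) (.na 1260 205 (.nx 1259 832257 (.nr 1258 1048577 (.nr 1253 202 .s1 (.nx 1254 257
  (.l1 (.ls 71 29 329)) (.nr 1257 741457 (.nr 1255 16385 (.lg 0 false 1 79 79 23 0 624) (.nx 1256
  13005 (.lg 0 true 1 79 79 23 0 9360) .out)) .out))) .out) .out) (.nx 1269 832257 (.nr 1268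
  1048577 (.nr 1261 205 .s1 (.nx 1264 14281 (.nx 1262 257 (.l1 (.ls 71 23 325)) (.nr 1263 741457
  (.lg 0 false 1 79 79 19 0 1560) .out)) (.nr 1267 16385 (.nr 1265 1025 (.lg 0 true 1 61 61 19 0
  1560) (.nx 1266 104033 (.lg 2 false 1 61 61 19 16554 1560) .out)) .out))) .out) .out)))) (.na
  1279 221 (.na 1271 218 (.lg 0 false 1 0 0 16 0 24) (.nx 1278 832257 (.nr 1277 1048577 (.nr 1272
  218 .s1 (.nx 1273 257 (.l1 (.ls 61 29 305)) (.nr 1276 741457 (.nr 1274 16385 (.lg 0 false 1 79 79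
  23 0 3120) (.nx 1275 13005 (.lg 0 true 1 73 73 23 0 3120) .out)) .out))) .out) .out)) (.na 1287
  223 (.nx 1286 832257 (.nr 1285 1048577 (.nr 1280 221 .s1 (.nx 1281 257 (.l1 (.ls 73 29 301)) (.nr
  1284 741457 (.nr 1282 16385 (.lg 0 false 1 79 79 19 0 312) (.nx 1283 13005 (.lg 0 true 1 79 79 19
  0 4680) .out)) .out))) .out) .out) (.na 1288 226 (.lg 0 false 1 0 0 16 0 24) (.nx 1295 832257
  (.nr 1294 1048577 (.nr 1289 226 .s1 (.nx 1290 257 (.l1 (.ls 61 29 295)) (.nr 1293 741457 (.nr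
  1291 16385 (.lg 0 false 1 73 73 23 0 3120) (.nx 1292 13005 (.lg 0 true 1 73 73 23 0 3120) .out))
  .out))) .out) .out)))))) (.na 4353 2048 (.na 1315 257 (.na 1305 250 (.na 1297 229 (.lg 0 false 1
  0 0 16 0 24) (.nx 1304 832257 (.nr 1303 1048577 (.nr 1298 229 .s1 (.nx 1299 257 (.l1 (.ls 67 19
  291)) (.nr 1302 741457 (.nr 1300 16385 (.lg 0 false 1 73 73 17 0 312) (.nx 1301 13005 (.lg 0 true
  1 71 71 17 0 312) .out)) .out))) .out) .out)) (.na 1313 251 (.nx 1312 832257 (.nr 1311 1048577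
  (.nr 1306 250 .s1 (.nx 1307 257 (.l1 (.ls 61 31 267)) (.nr 1310 741457 (.nr 1308 16385 (.lg 0
  false 1 73 73 29 0 3120) (.nx 1309 13005 (.lg 0 true 1 73 73 29 0 3120) .out)) .out))) .out)
  .out) (.na 1314 256 (.lg 0 false 1 0 0 16 0 24) .ne))) (.na 2721 725 (.na 2085 512 (.nx 2084
  832257 (.nr 2083 1482912 (.nr 1316 257 .s1 (.nx 1571 1627 (.la (.ls 71 41 10303)) (.nr 2082
  524289 (.nr 1826 32769 (.la (.lg 0 false 1 73 73 23 0)) (.nx 2081 10323 (.la (.lg 0 false 1 61 61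
  23 0)) .out)) .out))) .out) .out) (.nx 2720 832257 (.nr 2719 1482912 (.nr 2086 512 .s1 (.nx 2255
  169 (.nr 2254 6675 (.lx (.lp 37 19 182)) (.l1 .sk)) (.nx 2256 170 (.l1 .sk) (.nx 2291 205 (.lx
  (.lp 41 0 182)) (.nr 2718 1048577 (.nx 2504 22297 (.la (.lg 0 true 1 67 67 23 0)) (.nr 2717 32769
  (.la (.lg 2 false 1 53 53 23 137355)) .out)) .out))))) .out) .out)) (.na 3323 1024 (.nx 3322
  10323 (.nr 3321 1048577 (.nr 2722 725 .s1 (.nx 3021 2049 (.la (.ls 73 37 5793)) (.nr 3320 16385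
  (.la (.lg 0 true 1 37 37 29 0)) .out))) .out) .out) (.na 3751 1449 (.nx 3750 10323 (.nr 3749
  1048577 (.nr 3324 1024 .s1 (.la (.ls 59 53 104069))) .out) .out) (.nx 4352 2582 (.nr 4351 524289
  (.nr 3752 1449 .s1 (.la (.ls 61 37 4603))) .out) .out))))) (.na 11036 16384 (.na 6577 4096 (.na
  5205 2897 (.nx 5204 3252 (.nr 5203 524289 (.nr 4354 2048 .s1 (.la (.ls 61 41 5166))) .out) .out)
  (.nx 6576 2582 (.nr 6575 262145 (.nr 5206 2897 .s1 (.nx 5375 169 (.nr 5374 37708 (.lx (.lp 16 0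
  1025)) (.l1 .sk)) (.nx 5376 170 (.l1 .sk) (.la (.ls 47 37 2294))))) .out) .out)) (.na 8447 5793
  (.nx 8446 2582 (.nr 8445 262145 (.nr 6578 4096 .s1 (.nx 6747 169 (.nr 6746 53331 (.lx (.lp 16 0
  1449)) (.l1 .sk)) (.nx 6748 170 (.l1 .sk) (.la (.ls 47 37 1623))))) .out) .out) (.na 9741 8192
  (.nx 9740 1292 (.nr 9739 65537 (.nr 8448 5793 .s1 (.lx (.lp 41 37 2049))) .out) .out) (.nx 11035
  1292 (.nr 11034 131073 (.nr 9742 8192 .s1 (.nx 9946 205 (.lx (.lp 16 31 4097)) (.nr 11033 65537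
  (.lx (.lp 41 41 4097)) .out))) .out) .out)))) (.na 14386 131072 (.na 12331 32768 (.nx 12330 1292
  (.nr 12329 262145 (.nr 11037 16384 .s1 (.nx 11241 205 (.lx (.lp 37 41 8193)) (.nr 12328 131073
  (.lx (.lp 37 43 8193)) .out))) .out) .out) (.na 13359 65536 (.nx 13358 1025 (.nr 13357 262145
  (.nr 12332 32768 .s1 (.nx 12536 205 (.lx (.lp 16 0 16385)) (.nr 13356 131073 (.lx (.lp 37 47
  16385)) .out))) .out) .out) (.nx 14385 1025 (.nr 14384 262145 (.nr 13360 65536 .s1 (.lx (.lp 29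
  53 32769))) .out) .out))) (.na 14388 262144 (.nx 14387 324 (.l1 .sk) .out) (.na 14390 524289 (.nx
  14389 205 (.l1 .sk) .out) .out)))))))

theorem c22 :
    OkQ ckI L9 188 32 363 0 34359738368 1 1099511627776 ∧
    OkQ ckI L8 169 1 1099511627776 0 34359738368 1 1099511627776 := by
  refine ⟨?_, ?_⟩
  · refine fin 3384 1815 T22_0 ?_
    refine jn 4 (by decide +kernel) ?_
    refine jn 5 (by decide +kernel) ?_
    refine jn 6 (by decide +kernel) ?_
    refine jn 7 (by decide +kernel) ?_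
    refine jn 8 (by decide +kernel) ?_
    refine jn 9 (by decide +kernel) ?_
    refine jn 10 (by decide +kernel) ?_
    refine jn 11 (by decide +kernel) ?_
    refine jn 12 (by decide +kernel) ?_
    refine jn 15 (by decide +kernel) ?_
    refine jn 17 (by decide +kernel) ?_
    refine jn 18 (by decide +kernel) ?_
    refine jn 19 (by decide +kernel) ?_
    refine jn 22 (by decide +kernel) ?_
    refine jn 25 (by decide +kernel) ?_
    refine jn 27 (by decide +kernel) ?_
    refine jn 28 (by decide +kernel) ?_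
    refine jn 44 (by decide +kernel) ?_
    refine jn 50 (by decide +kernel) ?_
    refine jn 60 (by decide +kernel) ?_
    refine jn 64 (by decide +kernel) ?_
    refine jn 66 (by decide +kernel) ?_
    refine jn 68 (by decide +kernel) ?_
    refine jn 69 (by decide +kernel) ?_
    refine jn 74 (by decide +kernel) ?_
    refine jn 77 (by decide +kernel) ?_
    refine jn 79 (by decide +kernel) ?_
    refine jn 83 (by decide +kernel) ?_
    refine jn 92 (by decide +kernel) ?_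
    refine jn 99 (by decide +kernel) ?_
    refine jn 107 (by decide +kernel) ?_
    refine jn 117 (by decide +kernel) ?_
    refine jn 120 (by decide +kernel) ?_
    refine jn 122 (by decide +kernel) ?_
    refine jn 124 (by decide +kernel) ?_
    refine jn 125 (by decide +kernel) ?_
    refine jn 127 (by decide +kernel) ?_
    refine jn 133 (by decide +kernel) ?_
    refine jn 154 (by decide +kernel) ?_
    refine jn 163 (by decide +kernel) ?_
    refine jn 164 (by decide +kernel) ?_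
    refine jn 165 (by decide +kernel) ?_
    refine jn 166 (by decide +kernel) ?_
    refine jn 167 (by decide +kernel) ?_
    refine jn 168 (by decide +kernel) ?_
    refine jn 169 (by decide +kernel) ?_
    refine jn 173 (by decide +kernel) ?_
    refine jn 174 (by decide +kernel) ?_
    refine jn 175 (by decide +kernel) ?_
    refine jn 176 (by decide +kernel) ?_
    refine jn 177 (by decide +kernel) ?_
    refine jn 178 (by decide +kernel) ?_
    refine jn 181 (by decide +kernel) ?_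
    refine jn 182 (by decide +kernel) ?_
    refine jn 183 (by decide +kernel) ?_
    refine jn 194 (by decide +kernel) ?_
    refine jn 203 (by decide +kernel) ?_
    refine jn 214 (by decide +kernel) ?_
    refine jn 217 (by decide +kernel) ?_
    refine jn 221 (by decide +kernel) ?_
    refine jn 223 (by decide +kernel) ?_
    refine jn 239 (by decide +kernel) ?_
    refine jn 245 (by decide +kernel) ?_
    refine jn 256 (by decide +kernel) ?_
    refine jn 263 (by decide +kernel) ?_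
    refine jn 275 (by decide +kernel) ?_
    refine jn 278 (by decide +kernel) ?_
    refine jn 281 (by decide +kernel) ?_
    refine jn 284 (by decide +kernel) ?_
    refine jn 296 (by decide +kernel) ?_
    refine jn 304 (by decide +kernel) ?_
    refine jn 315 (by decide +kernel) ?_
    refine jn 322 (by decide +kernel) ?_
    refine jn 332 (by decide +kernel) ?_
    refine jn 334 (by decide +kernel) ?_
    refine jn 338 (by decide +kernel) ?_
    refine jn 341 (by decide +kernel) ?_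
    refine jn 347 (by decide +kernel) ?_
    refine jn 350 (by decide +kernel) ?_
    refine jn 351 (by decide +kernel) ?_
    refine jn 352 (by decide +kernel) ?_
    refine jn 353 (by decide +kernel) ?_
    refine jn 354 (by decide +kernel) ?_
    refine jn 355 (by decide +kernel) ?_
    refine jn 356 (by decide +kernel) ?_
    refine jn 357 (by decide +kernel) ?_
    refine jn 358 (by decide +kernel) ?_
    refine jn 359 (by decide +kernel) ?_
    refine jn 360 (by decide +kernel) ?_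
    refine jn 372 (by decide +kernel) ?_
    refine jn 375 (by decide +kernel) ?_
    refine jn 379 (by decide +kernel) ?_
    refine jn 382 (by decide +kernel) ?_
    refine jn 397 (by decide +kernel) ?_
    refine jn 408 (by decide +kernel) ?_
    refine jn 411 (by decide +kernel) ?_
    refine jn 413 (by decide +kernel) ?_
    refine jn 415 (by decide +kernel) ?_
    refine jn 432 (by decide +kernel) ?_
    refine jn 445 (by decide +kernel) ?_
    refine jn 456 (by decide +kernel) ?_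
    refine jn 466 (by decide +kernel) ?_
    refine jn 477 (by decide +kernel) ?_
    refine jn 488 (by decide +kernel) ?_
    refine jn 492 (by decide +kernel) ?_
    refine jn 493 (by decide +kernel) ?_
    refine jn 494 (by decide +kernel) ?_
    refine jn 495 (by decide +kernel) ?_
    refine jn 496 (by decide +kernel) ?_
    refine jn 497 (by decide +kernel) ?_
    refine jn 498 (by decide +kernel) ?_
    refine jn 499 (by decide +kernel) ?_
    refine jn 500 (by decide +kernel) ?_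
    refine jn 514 (by decide +kernel) ?_
    refine jn 531 (by decide +kernel) ?_
    refine jn 541 (by decide +kernel) ?_
    refine jn 544 (by decide +kernel) ?_
    refine jn 545 (by decide +kernel) ?_
    refine jn 546 (by decide +kernel) ?_
    refine jn 547 (by decide +kernel) ?_
    refine jn 548 (by decide +kernel) ?_
    refine jn 549 (by decide +kernel) ?_
    refine jn 550 (by decide +kernel) ?_
    refine jn 552 (by decide +kernel) ?_
    refine jn 553 (by decide +kernel) ?_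
    refine jn 554 (by decide +kernel) ?_
    refine jn 567 (by decide +kernel) ?_
    refine jn 581 (by decide +kernel) ?_
    refine jn 596 (by decide +kernel) ?_
    refine jn 605 (by decide +kernel) ?_
    refine jn 608 (by decide +kernel) ?_
    refine jn 621 (by decide +kernel) ?_
    refine jn 637 (by decide +kernel) ?_
    refine jn 646 (by decide +kernel) ?_
    refine jn 650 (by decide +kernel) ?_
    refine jn 661 (by decide +kernel) ?_
    refine jn 665 (by decide +kernel) ?_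
    refine jn 674 (by decide +kernel) ?_
    refine jn 675 (by decide +kernel) ?_
    refine jn 676 (by decide +kernel) ?_
    refine jn 678 (by decide +kernel) ?_
    refine jn 682 (by decide +kernel) ?_
    refine jn 694 (by decide +kernel) ?_
    refine jn 703 (by decide +kernel) ?_
    refine jn 707 (by decide +kernel) ?_
    refine jn 720 (by decide +kernel) ?_
    refine jn 728 (by decide +kernel) ?_
    refine jn 732 (by decide +kernel) ?_
    refine jn 740 (by decide +kernel) ?_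
    refine jn 741 (by decide +kernel) ?_
    refine jn 742 (by decide +kernel) ?_
    refine jn 745 (by decide +kernel) ?_
    refine jn 746 (by decide +kernel) ?_
    refine jn 747 (by decide +kernel) ?_
    refine jn 764 (by decide +kernel) ?_
    refine jn 776 (by decide +kernel) ?_
    refine jn 793 (by decide +kernel) ?_
    refine jn 808 (by decide +kernel) ?_
    refine jn 816 (by decide +kernel) ?_
    refine jn 817 (by decide +kernel) ?_
    refine jn 818 (by decide +kernel) ?_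
    refine jn 820 (by decide +kernel) ?_
    refine jn 833 (by decide +kernel) ?_
    refine jn 845 (by decide +kernel) ?_
    refine jn 860 (by decide +kernel) ?_
    refine jn 872 (by decide +kernel) ?_
    refine jn 885 (by decide +kernel) ?_
    refine jn 899 (by decide +kernel) ?_
    refine jn 910 (by decide +kernel) ?_
    refine jn 924 (by decide +kernel) ?_
    refine jn 940 (by decide +kernel) ?_
    refine jn 950 (by decide +kernel) ?_
    refine jn 952 (by decide +kernel) ?_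
    refine jn 964 (by decide +kernel) ?_
    refine jn 975 (by decide +kernel) ?_
    refine jn 979 (by decide +kernel) ?_
    refine jn 991 (by decide +kernel) ?_
    refine jn 1005 (by decide +kernel) ?_
    refine jn 1018 (by decide +kernel) ?_
    refine jn 1029 (by decide +kernel) ?_
    refine jn 1042 (by decide +kernel) ?_
    refine jn 1048 (by decide +kernel) ?_
    refine jn 1049 (by decide +kernel) ?_
    refine jn 1051 (by decide +kernel) ?_
    refine jn 1052 (by decide +kernel) ?_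
    refine jn 1053 (by decide +kernel) ?_
    refine jn 1055 (by decide +kernel) ?_
    refine jn 1073 (by decide +kernel) ?_
    refine jn 1078 (by decide +kernel) ?_
    refine jn 1092 (by decide +kernel) ?_
    refine jn 1107 (by decide +kernel) ?_
    refine jn 1116 (by decide +kernel) ?_
    refine jn 1119 (by decide +kernel) ?_
    refine jn 1137 (by decide +kernel) ?_
    refine jn 1142 (by decide +kernel) ?_
    refine jn 1153 (by decide +kernel) ?_
    refine jn 1164 (by decide +kernel) ?_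
    refine jn 1175 (by decide +kernel) ?_
    refine jn 1183 (by decide +kernel) ?_
    refine jn 1186 (by decide +kernel) ?_
    refine jn 1187 (by decide +kernel) ?_
    refine jn 1188 (by decide +kernel) ?_
    refine jn 1203 (by decide +kernel) ?_
    refine jn 1214 (by decide +kernel) ?_
    refine jn 1225 (by decide +kernel) ?_
    refine jn 1237 (by decide +kernel) ?_
    refine jn 1256 (by decide +kernel) ?_
    refine jn 1267 (by decide +kernel) ?_
    refine jn 1278 (by decide +kernel) ?_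
    refine jn 1290 (by decide +kernel) ?_
    refine jn 1299 (by decide +kernel) ?_
    refine jn 1302 (by decide +kernel) ?_
    refine jn 1307 (by decide +kernel) ?_
    refine jn 1308 (by decide +kernel) ?_
    refine jn 1310 (by decide +kernel) ?_
    refine jn 1311 (by decide +kernel) ?_
    refine jn 1343 (by decide +kernel) ?_
    refine jn 1353 (by decide +kernel) ?_
    refine jn 1383 (by decide +kernel) ?_
    refine jn 1395 (by decide +kernel) ?_
    refine jn 1396 (by decide +kernel) ?_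
    refine jn 1424 (by decide +kernel) ?_
    refine jn 1494 (by decide +kernel) ?_
    refine jn 1498 (by decide +kernel) ?_
    refine jn 1504 (by decide +kernel) ?_
    refine jn 1507 (by decide +kernel) ?_
    refine jn 1508 (by decide +kernel) ?_
    refine jn 1519 (by decide +kernel) ?_
    refine jn 1523 (by decide +kernel) ?_
    refine jn 1524 (by decide +kernel) ?_
    refine jn 1529 (by decide +kernel) ?_
    refine jn 1533 (by decide +kernel) ?_
    refine jn 1541 (by decide +kernel) ?_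
    refine jn 1544 (by decide +kernel) ?_
    refine jn 1551 (by decide +kernel) ?_
    refine jn 1559 (by decide +kernel) ?_
    refine jn 1567 (by decide +kernel) ?_
    refine jn 1571 (by decide +kernel) ?_
    refine jn 1572 (by decide +kernel) ?_
    refine jn 1582 (by decide +kernel) ?_
    refine jn 1591 (by decide +kernel) ?_
    refine jn 1592 (by decide +kernel) ?_
    refine jn 1593 (by decide +kernel) ?_
    refine jn 1609 (by decide +kernel) ?_
    refine jn 1614 (by decide +kernel) ?_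
    refine jn 1619 (by decide +kernel) ?_
    refine jn 1630 (by decide +kernel) ?_
    refine jn 1631 (by decide +kernel) ?_
    refine jn 1638 (by decide +kernel) ?_
    refine jn 1648 (by decide +kernel) ?_
    refine jn 1656 (by decide +kernel) ?_
    refine jn 1666 (by decide +kernel) ?_
    refine jn 1674 (by decide +kernel) ?_
    refine jn 1678 (by decide +kernel) ?_
    refine jn 1679 (by decide +kernel) ?_
    refine jn 1695 (by decide +kernel) ?_
    refine jn 1699 (by decide +kernel) ?_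
    refine jn 1707 (by decide +kernel) ?_
    refine jn 1715 (by decide +kernel) ?_
    refine jn 1720 (by decide +kernel) ?_
    refine jn 1730 (by decide +kernel) ?_
    refine jn 1736 (by decide +kernel) ?_
    refine jn 1737 (by decide +kernel) ?_
    refine jn 1744 (by decide +kernel) ?_
    refine jn 1754 (by decide +kernel) ?_
    refine jn 1762 (by decide +kernel) ?_
    refine jn 1772 (by decide +kernel) ?_
    refine jn 1780 (by decide +kernel) ?_
    refine jn 1784 (by decide +kernel) ?_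
    refine jn 1785 (by decide +kernel) ?_
    refine jn 1795 (by decide +kernel) ?_
    refine jn 1804 (by decide +kernel) ?_
    exact je (by decide +kernel)
  · refine fin 312 14391 T22_1 ?_
    refine jn 8 (by decide +kernel) ?_
    refine jn 12 (by decide +kernel) ?_
    refine jn 18 (by decide +kernel) ?_
    refine jn 21 (by decide +kernel) ?_
    refine jn 25 (by decide +kernel) ?_
    refine jn 30 (by decide +kernel) ?_
    refine jn 33 (by decide +kernel) ?_
    refine jn 39 (by decide +kernel) ?_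
    refine jn 43 (by decide +kernel) ?_
    refine jn 48 (by decide +kernel) ?_
    refine jn 53 (by decide +kernel) ?_
    refine jn 58 (by decide +kernel) ?_
    refine jn 62 (by decide +kernel) ?_
    refine jn 65 (by decide +kernel) ?_
    refine jn 69 (by decide +kernel) ?_
    refine jn 74 (by decide +kernel) ?_
    refine jn 78 (by decide +kernel) ?_
    refine jn 84 (by decide +kernel) ?_
    refine jn 91 (by decide +kernel) ?_
    refine jn 98 (by decide +kernel) ?_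
    refine jn 105 (by decide +kernel) ?_
    refine jn 112 (by decide +kernel) ?_
    refine jn 124 (by decide +kernel) ?_
    refine jn 153 (by decide +kernel) ?_
    refine jn 168 (by decide +kernel) ?_
    refine jn 190 (by decide +kernel) ?_
    refine jn 215 (by decide +kernel) ?_
    refine jn 235 (by decide +kernel) ?_
    refine jn 260 (by decide +kernel) ?_
    refine jn 280 (by decide +kernel) ?_
    refine jn 288 (by decide +kernel) ?_
    refine jn 294 (by decide +kernel) ?_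
    refine jn 299 (by decide +kernel) ?_
    refine jn 303 (by decide +kernel) ?_
    refine jn 308 (by decide +kernel) ?_
    refine jn 314 (by decide +kernel) ?_
    refine jn 320 (by decide +kernel) ?_
    refine jn 335 (by decide +kernel) ?_
    refine jn 345 (by decide +kernel) ?_
    refine jn 354 (by decide +kernel) ?_
    refine jn 357 (by decide +kernel) ?_
    refine jn 378 (by decide +kernel) ?_
    refine jn 394 (by decide +kernel) ?_
    refine jn 415 (by decide +kernel) ?_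
    refine jn 436 (by decide +kernel) ?_
    refine jn 450 (by decide +kernel) ?_
    refine jn 476 (by decide +kernel) ?_
    refine jn 500 (by decide +kernel) ?_
    refine jn 502 (by decide +kernel) ?_
    refine jn 504 (by decide +kernel) ?_
    refine jn 507 (by decide +kernel) ?_
    refine jn 508 (by decide +kernel) ?_
    refine jn 510 (by decide +kernel) ?_
    refine jn 512 (by decide +kernel) ?_
    refine jn 514 (by decide +kernel) ?_
    refine jn 516 (by decide +kernel) ?_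
    refine jn 517 (by decide +kernel) ?_
    refine jn 520 (by decide +kernel) ?_
    refine jn 522 (by decide +kernel) ?_
    refine jn 523 (by decide +kernel) ?_
    refine jn 534 (by decide +kernel) ?_
    refine jn 537 (by decide +kernel) ?_
    refine jn 539 (by decide +kernel) ?_
    refine jn 542 (by decide +kernel) ?_
    refine jn 544 (by decide +kernel) ?_
    refine jn 546 (by decide +kernel) ?_
    refine jn 553 (by decide +kernel) ?_
    refine jn 564 (by decide +kernel) ?_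
    refine jn 572 (by decide +kernel) ?_
    refine jn 579 (by decide +kernel) ?_
    refine jn 590 (by decide +kernel) ?_
    refine jn 601 (by decide +kernel) ?_
    refine jn 611 (by decide +kernel) ?_
    refine jn 643 (by decide +kernel) ?_
    refine jn 654 (by decide +kernel) ?_
    refine jn 656 (by decide +kernel) ?_
    refine jn 658 (by decide +kernel) ?_
    refine jn 661 (by decide +kernel) ?_
    refine jn 662 (by decide +kernel) ?_
    refine jn 666 (by decide +kernel) ?_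
    refine jn 669 (by decide +kernel) ?_
    refine jn 676 (by decide +kernel) ?_
    refine jn 687 (by decide +kernel) ?_
    refine jn 696 (by decide +kernel) ?_
    refine jn 710 (by decide +kernel) ?_
    refine jn 717 (by decide +kernel) ?_
    refine jn 726 (by decide +kernel) ?_
    refine jn 739 (by decide +kernel) ?_
    refine jn 740 (by decide +kernel) ?_
    refine jn 741 (by decide +kernel) ?_
    refine jn 742 (by decide +kernel) ?_
    refine jn 743 (by decide +kernel) ?_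
    refine jn 744 (by decide +kernel) ?_
    refine jn 745 (by decide +kernel) ?_
    refine jn 746 (by decide +kernel) ?_
    refine jn 747 (by decide +kernel) ?_
    refine jn 748 (by decide +kernel) ?_
    refine jn 750 (by decide +kernel) ?_
    refine jn 753 (by decide +kernel) ?_
    refine jn 756 (by decide +kernel) ?_
    refine jn 759 (by decide +kernel) ?_
    refine jn 762 (by decide +kernel) ?_
    refine jn 765 (by decide +kernel) ?_
    refine jn 768 (by decide +kernel) ?_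
    refine jn 780 (by decide +kernel) ?_
    refine jn 791 (by decide +kernel) ?_
    refine jn 795 (by decide +kernel) ?_
    refine jn 802 (by decide +kernel) ?_
    refine jn 811 (by decide +kernel) ?_
    refine jn 831 (by decide +kernel) ?_
    refine jn 848 (by decide +kernel) ?_
    refine jn 855 (by decide +kernel) ?_
    refine jn 862 (by decide +kernel) ?_
    refine jn 873 (by decide +kernel) ?_
    refine jn 881 (by decide +kernel) ?_
    refine jn 888 (by decide +kernel) ?_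
    refine jn 902 (by decide +kernel) ?_
    refine jn 908 (by decide +kernel) ?_
    refine jn 919 (by decide +kernel) ?_
    refine jn 925 (by decide +kernel) ?_
    refine jn 938 (by decide +kernel) ?_
    refine jn 950 (by decide +kernel) ?_
    refine jn 958 (by decide +kernel) ?_
    refine jn 968 (by decide +kernel) ?_
    refine jn 981 (by decide +kernel) ?_
    refine jn 996 (by decide +kernel) ?_
    refine jn 1011 (by decide +kernel) ?_
    refine jn 1020 (by decide +kernel) ?_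
    refine jn 1021 (by decide +kernel) ?_
    refine jn 1022 (by decide +kernel) ?_
    refine jn 1023 (by decide +kernel) ?_
    refine jn 1024 (by decide +kernel) ?_
    refine jn 1032 (by decide +kernel) ?_
    refine jn 1046 (by decide +kernel) ?_
    refine jn 1060 (by decide +kernel) ?_
    refine jn 1075 (by decide +kernel) ?_
    refine jn 1089 (by decide +kernel) ?_
    refine jn 1103 (by decide +kernel) ?_
    refine jn 1116 (by decide +kernel) ?_
    refine jn 1129 (by decide +kernel) ?_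
    refine jn 1142 (by decide +kernel) ?_
    refine jn 1157 (by decide +kernel) ?_
    refine jn 1173 (by decide +kernel) ?_
    refine jn 1184 (by decide +kernel) ?_
    refine jn 1194 (by decide +kernel) ?_
    refine jn 1211 (by decide +kernel) ?_
    refine jn 1220 (by decide +kernel) ?_
    refine jn 1231 (by decide +kernel) ?_
    refine jn 1247 (by decide +kernel) ?_
    refine jn 1263 (by decide +kernel) ?_
    refine jn 1275 (by decide +kernel) ?_
    refine jn 1292 (by decide +kernel) ?_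
    refine jn 1309 (by decide +kernel) ?_
    refine jn 1349 (by decide +kernel) ?_
    refine jn 1397 (by decide +kernel) ?_
    refine jn 1408 (by decide +kernel) ?_
    refine jn 1445 (by decide +kernel) ?_
    refine jn 1504 (by decide +kernel) ?_
    refine jn 1552 (by decide +kernel) ?_
    refine jn 1583 (by decide +kernel) ?_
    refine jn 1595 (by decide +kernel) ?_
    refine jn 1604 (by decide +kernel) ?_
    refine jn 1612 (by decide +kernel) ?_
    refine jn 1631 (by decide +kernel) ?_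
    refine jn 1652 (by decide +kernel) ?_
    refine jn 1653 (by decide +kernel) ?_
    refine jn 1676 (by decide +kernel) ?_
    refine jn 1684 (by decide +kernel) ?_
    refine jn 1691 (by decide +kernel) ?_
    refine jn 1708 (by decide +kernel) ?_
    refine jn 1724 (by decide +kernel) ?_
    refine jn 1756 (by decide +kernel) ?_
    refine jn 1772 (by decide +kernel) ?_
    refine jn 1795 (by decide +kernel) ?_
    refine jn 1807 (by decide +kernel) ?_
    refine jn 1823 (by decide +kernel) ?_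
    refine jn 1846 (by decide +kernel) ?_
    refine jn 1859 (by decide +kernel) ?_
    refine jn 1867 (by decide +kernel) ?_
    refine jn 1894 (by decide +kernel) ?_
    refine jn 1907 (by decide +kernel) ?_
    refine jn 1908 (by decide +kernel) ?_
    refine jn 1934 (by decide +kernel) ?_
    refine jn 1946 (by decide +kernel) ?_
    refine jn 1966 (by decide +kernel) ?_
    refine jn 1990 (by decide +kernel) ?_
    refine jn 2027 (by decide +kernel) ?_
    refine jn 2051 (by decide +kernel) ?_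
    refine jn 2074 (by decide +kernel) ?_
    refine jn 2203 (by decide +kernel) ?_
    refine jn 2309 (by decide +kernel) ?_
    refine jn 2320 (by decide +kernel) ?_
    refine jn 2336 (by decide +kernel) ?_
    refine jn 2348 (by decide +kernel) ?_
    refine jn 2380 (by decide +kernel) ?_
    refine jn 2405 (by decide +kernel) ?_
    refine jn 2420 (by decide +kernel) ?_
    refine jn 2452 (by decide +kernel) ?_
    refine jn 2464 (by decide +kernel) ?_
    refine jn 2477 (by decide +kernel) ?_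
    refine jn 2506 (by decide +kernel) ?_
    refine jn 2525 (by decide +kernel) ?_
    refine jn 2537 (by decide +kernel) ?_
    refine jn 2554 (by decide +kernel) ?_
    refine jn 2569 (by decide +kernel) ?_
    refine jn 2602 (by decide +kernel) ?_
    refine jn 2621 (by decide +kernel) ?_
    refine jn 2642 (by decide +kernel) ?_
    refine jn 2666 (by decide +kernel) ?_
    refine jn 2689 (by decide +kernel) ?_
    refine jn 2698 (by decide +kernel) ?_
    refine jn 2754 (by decide +kernel) ?_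
    refine jn 2842 (by decide +kernel) ?_
    refine jn 2854 (by decide +kernel) ?_
    refine jn 2938 (by decide +kernel) ?_
    refine jn 3015 (by decide +kernel) ?_
    refine jn 3057 (by decide +kernel) ?_
    refine jn 3117 (by decide +kernel) ?_
    refine jn 3141 (by decide +kernel) ?_
    refine jn 3142 (by decide +kernel) ?_
    refine jn 3194 (by decide +kernel) ?_
    refine jn 3249 (by decide +kernel) ?_
    refine jn 3293 (by decide +kernel) ?_
    refine jn 3337 (by decide +kernel) ?_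
    refine jn 3369 (by decide +kernel) ?_
    refine jn 3417 (by decide +kernel) ?_
    refine jn 3454 (by decide +kernel) ?_
    refine jn 3489 (by decide +kernel) ?_
    refine jn 3526 (by decide +kernel) ?_
    refine jn 3551 (by decide +kernel) ?_
    refine jn 3601 (by decide +kernel) ?_
    refine jn 3646 (by decide +kernel) ?_
    refine jn 3694 (by decide +kernel) ?_
    refine jn 3733 (by decide +kernel) ?_
    refine jn 3817 (by decide +kernel) ?_
    refine jn 3916 (by decide +kernel) ?_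
    refine jn 3993 (by decide +kernel) ?_
    refine jn 4036 (by decide +kernel) ?_
    refine jn 4161 (by decide +kernel) ?_
    refine jn 4257 (by decide +kernel) ?_
    refine jn 4359 (by decide +kernel) ?_
    refine jn 4452 (by decide +kernel) ?_
    refine jn 4540 (by decide +kernel) ?_
    refine jn 4636 (by decide +kernel) ?_
    refine jn 4740 (by decide +kernel) ?_
    refine jn 4855 (by decide +kernel) ?_
    refine jn 4963 (by decide +kernel) ?_
    refine jn 5077 (by decide +kernel) ?_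
    refine jn 5179 (by decide +kernel) ?_
    refine jn 5409 (by decide +kernel) ?_
    refine jn 5544 (by decide +kernel) ?_
    refine jn 5700 (by decide +kernel) ?_
    refine jn 5844 (by decide +kernel) ?_
    refine jn 5973 (by decide +kernel) ?_
    refine jn 6152 (by decide +kernel) ?_
    refine jn 6312 (by decide +kernel) ?_
    refine jn 6452 (by decide +kernel) ?_
    refine jn 6578 (by decide +kernel) ?_
    refine jn 6877 (by decide +kernel) ?_
    refine jn 7001 (by decide +kernel) ?_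
    refine jn 7150 (by decide +kernel) ?_
    refine jn 7303 (by decide +kernel) ?_
    refine jn 7477 (by decide +kernel) ?_
    refine jn 7633 (by decide +kernel) ?_
    refine jn 7793 (by decide +kernel) ?_
    refine jn 7970 (by decide +kernel) ?_
    refine jn 8131 (by decide +kernel) ?_
    refine jn 8326 (by decide +kernel) ?_
    refine jn 8550 (by decide +kernel) ?_
    refine jn 8971 (by decide +kernel) ?_
    refine jn 9166 (by decide +kernel) ?_
    refine jn 9328 (by decide +kernel) ?_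
    refine jn 9445 (by decide +kernel) ?_
    refine jn 9544 (by decide +kernel) ?_
    refine jn 9631 (by decide +kernel) ?_
    refine jn 9700 (by decide +kernel) ?_
    refine jn 9946 (by decide +kernel) ?_
    refine jn 10222 (by decide +kernel) ?_
    refine jn 10352 (by decide +kernel) ?_
    refine jn 10470 (by decide +kernel) ?_
    refine jn 10590 (by decide +kernel) ?_
    refine jn 10681 (by decide +kernel) ?_
    refine jn 10752 (by decide +kernel) ?_
    refine jn 10834 (by decide +kernel) ?_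
    refine jn 10897 (by decide +kernel) ?_
    refine jn 10960 (by decide +kernel) ?_
    refine jn 11016 (by decide +kernel) ?_
    refine jn 11363 (by decide +kernel) ?_
    refine jn 11658 (by decide +kernel) ?_
    refine jn 11850 (by decide +kernel) ?_
    refine jn 12000 (by decide +kernel) ?_
    refine jn 12118 (by decide +kernel) ?_
    refine jn 12228 (by decide +kernel) ?_
    refine jn 12305 (by decide +kernel) ?_
    refine jn 12755 (by decide +kernel) ?_
    refine jn 13054 (by decide +kernel) ?_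
    refine jn 13272 (by decide +kernel) ?_
    refine jn 13739 (by decide +kernel) ?_
    refine jn 14164 (by decide +kernel) ?_
    exact je (by decide +kernel)

end Pool.Agent.MP_2339ce_nt.NR
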