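import Pool.Agent.MP_2339ce_nt.Q2.NC.L8
import Pool.Agent.MP_2339ce_nt.Q2.NC.L9
import Pool.Agent.MP_2339ce_nt.Q2.CkI

/-! Block NR: runs. -/

set_option autoImplicit false
set_option maxRecDepth 100000

noncomputable section

namespace Pool.Agent.MP_2339ce_nt.NR

open Q2.Top

def T42_0 : Ph :=
  (.na 791 86 (.na 449 54 (.na 266 40 (.na 130 32 (.na 33 28 (.na 1 27 (.lg 0 false 1 0 0 7 0 24)
  (.nx 32 2097153 (.nr 31 1048577 (.nr 2 23 .s1 (.nx 26 524289 (.nx 16 52017 (.nx 4 215 (.nr 3 291
  (.lg 0 false 1 29 29 16 0 216720) (.l1 .sk)) (.nx 5 216 (.l1 .sk) (.nx 6 324 (.l1 (.ls 83 37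
  2163)) (.nr 15 524289 (.nr 10 185365 (.lg 0 false 4 101 101 16 0 216720) (.nx 14 13005 (.lg 0
  false 4 89 97 16 0 30960) .out)) .out)))) (.nr 25 92683 (.nr 20 859 (.lg 0 true 4 73 73 16 0
  30960) (.nx 24 330282 (.lg 2 false 4 97 97 16 41334 216720) .out)) .out)) (.nr 30 129 (.lg 0 true
  4 67 67 16 0 30960) .out))) .out) .out)) (.na 64 30 (.nx 63 2097153 (.nr 62 1048577 (.nr 34 24
  .s1 (.nx 38 324 (.nx 36 215 (.nr 35 312 (.lg 0 true 1 37 37 13 0 216720) (.l1 .sk)) (.nx 37 216
  (.l1 .sk) (.l1 (.ls 97 41 2085)))) (.nr 61 524289 (.nr 53 131073 (.nx 41 52017 (.lg 0 false 3 101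
  103 19 0 216720) (.nr 52 92683 (.nx 48 524289 (.nr 44 909 (.lg 0 true 3 83 83 19 0 216720) (.nx
  47 330282 (.lg 2 false 3 97 103 19 41278 216720) .out)) (.nr 51 129 (.lg 0 true 3 73 73 19 0
  216720) .out)) .out)) (.nx 60 20644 (.nx 58 13005 (.nr 56 370729 (.lg 0 false 3 97 103 19 0
  216720) (.nx 57 1292 (.lg 0 false 1 83 83 13 0 216720) .out)) (.nr 59 185365 (.lg 0 true 1 97 97
  13 0 216720) .out)) .out)) .out))) .out) .out) (.na 99 31 (.nx 98 2097153 (.nr 97 1048577 (.nr 65
  27 .s1 (.nx 67 215 (.nr 66 322 (.lg 0 false 1 23 23 19 0 30960) (.l1 .sk)) (.nx 68 216 (.l1 .sk)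
  (.nx 69 324 (.l1 (.ls 83 43 1947)) (.nr 96 524289 (.nx 84 52017 (.nr 76 185365 (.lg 0 false 7 97
  101 29 0 216720) (.nx 83 13005 (.lg 0 false 7 89 97 29 0 216720) .out)) (.nr 95 92683 (.nr 91 932
  (.lg 0 true 7 83 83 29 0 216720) (.nx 94 330282 (.lg 2 false 3 97 97 23 41278 30960) .out))
  .out)) .out))))) .out) .out) (.nx 129 2097153 (.nr 128 1048577 (.nr 100 28 .s1 (.nx 103 216 (.nx
  102 215 (.nr 101 332 (.lg 0 true 1 31 31 13 0 2383920) (.l1 .sk)) (.l1 .sk)) (.nx 124 524289 (.nx
  104 324 (.l1 (.ls 89 29 1884)) (.nr 123 524289 (.nx 113 52017 (.nr 108 185365 (.lg 0 false 4 103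
  103 16 0 2383920) (.nx 112 13005 (.lg 0 false 4 101 101 16 0 2383920) .out)) (.nr 122 92683 (.nr
  117 955 (.lg 0 true 4 79 79 16 0 30960) (.nx 121 330282 (.lg 2 false 4 101 101 16 41278 2383920)
  .out)) .out)) .out)) (.nr 127 129 (.lg 0 true 3 71 71 16 0 15480) .out)))) .out) .out)))) (.na
  185 35 (.na 157 33 (.nx 156 2097153 (.nr 155 1048577 (.nr 131 29 .s1 (.nx 133 215 (.nr 132 343
  (.lg 0 false 1 31 31 13 0 216720) (.l1 .sk)) (.nx 134 216 (.l1 .sk) (.nx 135 324 (.l1 (.ls 89 37
  1825)) (.nr 154 623489 (.nr 148 131073 (.nx 138 52017 (.lg 0 false 3 101 103 19 0 216720) (.nr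
  147 92683 (.nx 143 330282 (.nr 140 980 (.lg 0 true 2 79 79 13 0 30960) (.lg 2 false 3 97 103 19
  41278 216720)) (.nr 146 257 (.lg 0 true 3 79 79 19 0 30960) .out)) .out)) (.nx 153 20644 (.nx 151
  13005 (.lg 0 false 3 101 101 19 0 216720) (.nr 152 185365 (.lg 0 true 1 97 97 13 0 216720) .out))
  .out)) .out))))) .out) .out) (.nx 184 2097153 (.nr 183 881745 (.nr 158 30 .s1 (.nx 178 208065
  (.nx 160 215 (.nr 159 364 (.lg 0 true 1 31 31 16 0 340560) (.l1 .sk)) (.nx 161 216 (.l1 .sk) (.nx
  162 324 (.l1 (.ls 89 37 1770)) (.nr 177 623489 (.nx 171 32769 (.nr 166 155873 (.lg 0 false 4 97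
  101 19 0 340560) (.nx 170 13005 (.lg 0 false 4 101 103 19 0 2383920) .out)) (.nr 176 65537 (.nr
  172 1073 (.lg 0 false 1 83 83 16 0 340560) (.lg 2 false 4 89 101 19 46377 340560)) .out))
  .out)))) (.nr 182 257 (.lg 0 true 4 79 79 19 0 340560) .out))) .out) .out)) (.na 212 36 (.nx 211
  2097153 (.nr 210 881745 (.nr 186 32 .s1 (.nx 189 216 (.nx 188 215 (.nr 187 374 (.lg 0 false 1 29
  29 16 0 2383920) (.l1 .sk)) (.l1 .sk)) (.nx 190 324 (.l1 (.ls 83 37 1669)) (.nr 209 623489 (.nx
  199 32769 (.nr 194 155873 (.lg 0 false 4 97 97 17 0 216720) (.nx 198 13005 (.lg 0 false 4 97 97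
  17 0 216720) .out)) (.nr 208 65537 (.nr 203 374 (.lg 0 true 4 73 73 17 0 216720) (.nx 207 208065
  (.lg 2 false 4 97 97 17 59805 216720) .out)) .out)) .out)))) .out) .out) (.na 239 37 (.nx 238
  2097153 (.nr 237 881745 (.nr 213 33 .s1 (.nx 215 215 (.nr 214 384 (.lg 0 true 1 31 31 19 0 30960)
  (.l1 .sk)) (.nx 216 216 (.l1 .sk) (.nx 217 324 (.l1 (.ls 83 41 1623)) (.nr 236 623489 (.nx 224
  13005 (.lg 0 false 7 89 101 29 0 2383920) (.nr 235 155873 (.nx 231 262145 (.nx 226 32769 (.lg 0
  false 2 101 103 23 0 2383920) (.nr 230 65537 (.nr 227 1117 (.lg 0 false 1 83 83 19 0 30960) (.nx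
  229 208065 (.lg 2 false 2 101 103 23 46377 2383920) .out)) .out)) (.nr 234 217 (.lg 0 true 3 73
  73 23 0 30960) .out)) .out)) .out))))) .out) .out) (.nx 265 2097153 (.nr 264 881745 (.nr 240 34
  .s1 (.nx 242 215 (.nr 241 415 (.lg 0 true 1 23 23 16 0 30960) (.l1 .sk)) (.nx 243 216 (.l1 .sk)
  (.nx 244 324 (.l1 (.ls 83 29 1579)) (.nr 263 623489 (.nr 258 155873 (.nx 248 32769 (.lg 0 false 4
  97 97 16 0 30960) (.nr 257 65537 (.nr 252 415 (.lg 0 true 4 73 73 16 0 30960) (.nx 256 208065
  (.lg 2 false 4 89 97 16 53897 30960) .out)) .out)) (.nx 262 13005 (.lg 0 false 4 97 97 16 0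
  30960) .out)) .out))))) .out) .out))))) (.na 382 45 (.na 315 42 (.na 288 41 (.nx 287 2097153 (.nr
  286 881745 (.nr 267 38 .s1 (.nx 271 324 (.nx 269 215 (.nr 268 426 (.lg 0 false 1 29 29 19 0
  30960) (.l1 .sk)) (.nx 270 216 (.l1 .sk) (.l1 (.ls 83 41 1461)))) (.nr 285 623489 (.nx 278 32769
  (.nr 274 155873 (.lg 0 false 3 89 97 23 0 30960) (.nx 277 13005 (.lg 0 false 3 89 101 23 0 30960)
  .out)) (.nr 284 65537 (.nr 281 426 (.lg 0 true 3 79 79 23 0 30960) (.nx 283 208065 (.lg 2 false 2
  97 97 19 52505 30960) .out)) .out)) .out))) .out) .out) (.nx 314 2097153 (.nr 313 881745 (.nr 289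
  39 .s1 (.nx 291 215 (.nr 290 436 (.l1 (.ls 23 23 1130)) (.l1 .sk)) (.nx 292 216 (.l1 .sk) (.nx
  293 324 (.l1 (.ls 83 29 1425)) (.nr 312 623489 (.nx 302 32769 (.nr 297 155873 (.lg 0 false 4 97
  97 16 0 30960) (.nx 301 13005 (.lg 0 false 4 97 97 16 0 30960) .out)) (.nr 311 65537 (.nr 306 436
  (.lg 0 true 4 73 73 16 0 30960) (.nx 310 208065 (.lg 2 false 4 97 97 16 51301 30960) .out))
  .out)) .out))))) .out) .out)) (.na 336 43 (.nx 335 2097153 (.nr 334 881745 (.nr 316 40 .s1 (.nx
  319 216 (.nx 318 215 (.nr 317 447 (.l1 (.ls 31 43 1103)) (.l1 .sk)) (.l1 .sk)) (.nx 327 32769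
  (.nx 320 324 (.l1 (.ls 89 43 1391)) (.nr 326 623489 (.nr 322 155873 (.lg 0 false 2 101 103 29 0
  2383920) (.nx 325 13005 (.lg 0 false 3 101 103 29 0 2383920) .out)) .out)) (.nr 333 65537 (.nr
  330 447 (.lg 0 true 3 83 83 29 0 216720) (.nx 332 208065 (.lg 2 false 2 101 103 29 50039 2383920)
  .out)) .out)))) .out) .out) (.na 360 44 (.nx 359 2097153 (.nr 358 881745 (.nr 337 41 .s1 (.nx 338
  324 (.l1 (.ls 73 31 2444)) (.nr 357 623489 (.nx 345 26009 (.lg 0 false 7 89 89 16 0 108360) (.nr
  356 77937 (.nr 351 457 (.lg 0 true 6 67 67 16 0 30960) (.nx 355 208065 (.lg 2 true 4 83 83 16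
  69450 30960) .out)) .out)) .out))) .out) .out) (.nx 381 2097153 (.nr 380 881745 (.nr 361 42 .s1
  (.nx 373 32769 (.nx 363 215 (.nr 362 467 (.l1 (.ls 31 37 1053)) (.l1 .sk)) (.nx 364 216 (.l1 .sk)
  (.nx 365 324 (.l1 (.ls 83 41 1328)) (.nr 372 623489 (.nr 368 155873 (.lg 0 false 3 97 101 23 0
  340560) (.nx 371 13005 (.lg 0 false 3 97 101 23 0 340560) .out)) .out)))) (.nr 379 65537 (.nr 376
  467 (.lg 0 true 3 79 79 23 0 340560) (.nx 378 208065 (.lg 2 false 2 97 101 23 47896 340560)
  .out)) .out))) .out) .out)))) (.na 405 48 (.na 404 46 (.nx 403 2097153 (.nr 402 881745 (.nr 383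
  43 .s1 (.nx 386 216 (.nx 385 215 (.nr 384 478 (.lg 0 false 1 23 23 16 0 216720) (.l1 .sk)) (.l1
  .sk)) (.nx 392 26009 (.nx 387 324 (.l1 (.ls 79 37 1299)) (.nr 391 623489 (.lg 0 false 4 97 101 19
  0 216720) .out)) (.nr 401 77937 (.nr 396 478 (.lg 0 true 4 73 73 19 0 30960) (.nx 400 208065 (.lg
  2 false 4 89 97 19 69450 216720) .out)) .out)))) .out) .out) .ne) (.na 427 49 (.nx 426 2097153
  (.nr 425 881745 (.nr 406 46 .s1 (.nx 410 324 (.nx 408 215 (.nr 407 509 (.l1 (.ls 37 41 966)) (.l1
  .sk)) (.nx 409 216 (.l1 .sk) (.l1 (.ls 89 41 1218)))) (.nr 424 741457 (.nr 421 623489 (.nr 418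
  155873 (.nx 412 32769 (.lg 0 false 2 101 103 29 0 216720) (.nr 417 46342 (.nx 414 208065 (.nr 413
  1380 (.lg 0 true 1 83 83 23 0 30960) (.lg 2 false 1 101 101 23 32838 216720)) (.nr 416 257 (.lg 0
  true 2 79 79 29 0 30960) .out)) .out)) (.nx 420 16385 (.lg 0 false 2 101 103 29 0 216720) .out))
  (.nx 422 6501 .out (.nx 423 13005 (.lg 0 false 1 97 97 23 0 30960) .out))) .out))) .out) .out)
  (.na 448 50 (.nx 447 2097153 (.nr 446 881745 (.nr 428 47 .s1 (.nx 431 216 (.nx 430 215 (.nr 429
  519 (.l1 (.ls 23 29 946)) (.l1 .sk)) (.l1 .sk)) (.nx 432 324 (.l1 (.ls 79 29 1193)) (.nr 445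
  741457 (.nx 436 26009 (.lg 0 false 4 97 97 16 0 216720) (.nr 444 65537 (.nr 440 519 (.lg 0 true 4
  73 73 16 0 216720) (.nx 443 208065 (.lg 2 false 3 89 89 16 58431 216720) .out)) .out)) .out))))
  .out) .out) (.lg 0 false 1 0 0 16 0 24)))))) (.na 616 70 (.na 541 62 (.na 486 56 (.na 469 55 (.nx
  468 2097153 (.nr 467 881745 (.nr 450 52 .s1 (.nx 459 32769 (.nx 451 324 (.l1 (.ls 79 43 1946))
  (.nr 458 741457 (.lg 0 false 7 89 97 29 0 216720) .out)) (.nr 466 46342 (.nr 463 571 (.lg 0 true
  4 73 73 23 0 30960) (.nx 465 208065 (.lg 2 true 2 83 83 19 39172 30960) .out)) .out))) .out)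
  .out) (.nx 485 2097153 (.nr 484 881745 (.nr 470 54 .s1 (.nx 471 324 (.l1 (.ls 79 37 1911)) (.nr
  483 741457 (.nx 475 26009 (.lg 0 false 4 97 97 17 0 340560) (.nr 482 65537 (.nr 479 582 (.lg 0
  true 4 73 73 17 0 340560) (.nx 481 208065 (.lg 2 true 2 89 89 17 58431 340560) .out)) .out))
  .out))) .out) .out)) (.na 505 59 (.nx 504 2097153 (.nr 503 881745 (.nr 487 55 .s1 (.nx 500 208065
  (.nx 497 32769 (.nx 495 16385 (.nx 491 324 (.nx 489 215 (.nr 488 613 (.l1 (.ls 41 37 828)) (.l1
  .sk)) (.nx 490 216 (.l1 .sk) (.l1 (.ls 89 37 1044)))) (.nr 494 741457 (.lg 0 false 3 97 103 29 0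
  216720) .out)) (.nr 496 155873 (.lg 0 false 1 101 103 23 0 216720) .out)) (.nr 499 46342 (.nr 498
  1587 (.lg 0 true 1 83 83 23 0 216720) (.lg 2 false 1 97 101 23 32838 216720)) .out)) (.nr 502 257
  (.lg 0 true 2 79 79 29 0 216720) .out))) .out) .out) (.na 522 60 (.nx 521 2097153 (.nr 520 881745
  (.nr 506 58 .s1 (.nx 512 26009 (.nx 507 324 (.l1 (.ls 83 29 1782)) (.nr 511 741457 (.lg 0 false 4
  101 101 16 0 216720) .out)) (.nr 519 65537 (.nr 516 623 (.lg 0 true 4 73 73 16 0 30960) (.nx 518
  208065 (.lg 2 true 2 97 97 16 58431 216720) .out)) .out))) .out) .out) (.nx 540 2097153 (.nr 539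
  881745 (.nr 523 59 .s1 (.nx 533 32769 (.nx 525 215 (.nr 524 644 (.l1 (.ls 31 41 773)) (.l1 .sk))
  (.nx 526 216 (.l1 .sk) (.nx 527 324 (.l1 (.ls 83 41 975)) (.nr 532 741457 (.nr 529 155873 (.lg 0
  false 2 97 97 29 0 216720) (.nx 531 16385 (.lg 0 false 2 97 101 29 0 216720) .out)) .out)))) (.nr
  538 46342 (.nr 536 644 (.lg 0 true 3 79 79 31 0 30960) (.nx 537 208065 (.lg 2 true 1 97 97 23
  34732 216720) .out)) .out))) .out) .out)))) (.na 577 64 (.na 556 63 (.nx 555 2097153 (.nr 554
  881745 (.nr 542 61 .s1 (.nx 543 324 (.l1 (.ls 79 41 1696)) (.nr 553 741457 (.nx 546 26009 (.lg 0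
  false 3 101 101 19 0 30960) (.nr 552 65537 (.nr 549 654 (.lg 0 true 3 73 73 19 0 30960) (.nx 551
  208065 (.lg 2 true 2 89 89 17 58431 30960) .out)) .out)) .out))) .out) .out) (.nx 576 2097153
  (.nr 575 881745 (.nr 557 62 .s1 (.nx 560 216 (.nx 559 215 (.nr 558 665 (.l1 (.ls 31 31 736)) (.l1
  .sk)) (.l1 .sk)) (.nx 561 324 (.l1 (.ls 83 31 928)) (.nr 574 741457 (.nx 567 32769 (.nx 565 16385
  (.lg 0 false 4 97 101 23 0 216720) (.nr 566 155873 (.lg 0 true 1 101 101 17 0 216720) .out)) (.nr
  573 46342 (.nr 571 665 (.lg 0 true 4 79 79 23 0 216720) (.nx 572 208065 (.lg 2 true 1 89 89 17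
  33635 108360) .out)) .out)) .out)))) .out) .out)) (.na 596 65 (.nx 595 2097153 (.nr 594 2097153
  (.nr 578 63 .s1 (.nx 581 216 (.nx 580 215 (.nr 579 675 (.l1 (.ls 31 31 725)) (.l1 .sk)) (.l1
  .sk)) (.nx 586 20644 (.nx 582 324 (.l1 (.ls 89 31 914)) (.nr 585 1048577 (.lg 0 false 3 101 103
  23 0 2383920) .out)) (.nr 593 110219 (.nx 587 32769 (.lg 0 true 1 89 89 17 0 30960) (.nr 592
  46342 (.nr 590 675 (.lg 0 true 3 79 79 23 0 30960) (.nx 591 208065 (.lg 2 true 1 89 89 17 33137
  30960) .out)) .out)) .out)))) .out) .out) (.na 597 66 .ne (.nx 615 2097153 (.nr 614 2097153 (.nr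
  598 65 .s1 (.nx 606 20644 (.nx 600 215 (.nr 599 727 (.l1 (.ls 37 41 703)) (.l1 .sk)) (.nx 601 216
  (.l1 .sk) (.nx 602 324 (.l1 (.ls 89 41 886)) (.nr 605 1048577 (.lg 0 false 3 101 103 31 0
  2383920) .out)))) (.nr 613 65537 (.nx 607 32769 (.lg 0 true 1 89 89 29 0 2383920) (.nr 612 32769
  (.nr 610 513 (.lg 0 true 3 79 79 31 0 340560) (.nx 611 131073 (.lg 2 true 1 89 89 29 27467
  2383920) .out)) .out)) .out))) .out) .out))))) (.na 687 77 (.na 651 73 (.na 632 72 (.nx 631
  2097153 (.nr 630 2097153 (.nr 617 69 .s1 (.nx 626 131073 (.nx 618 324 (.l1 (.ls 83 43 1502)) (.nr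
  625 1048577 (.nr 621 65537 (.lg 0 true 3 89 89 29 0 216720) (.nx 624 20644 (.lg 0 false 3 97 97
  29 0 216720) .out)) .out)) (.nr 629 513 (.lg 0 true 3 71 71 29 0 216720) .out))) .out) .out) (.nx
  650 2097153 (.nr 649 2097153 (.nr 633 71 .s1 (.nx 636 216 (.nx 635 215 (.nr 634 758 (.l1 (.ls 37
  37 645)) (.l1 .sk)) (.l1 .sk)) (.nx 644 32769 (.nx 637 324 (.l1 (.ls 89 37 813)) (.nr 643 1048577
  (.nx 641 20644 (.nr 639 741457 (.lg 0 false 2 97 101 29 0 30960) (.nx 640 8192 .out (.lg 0 false
  1 97 97 29 0 30960))) (.nr 642 65537 (.lg 0 false 1 83 89 29 0 30960) .out)) .out)) (.nr 648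
  32769 (.nr 646 513 (.lg 0 true 2 79 79 29 0 30960) (.nx 647 131073 (.lg 2 false 1 89 89 29 27467
  30960) .out)) .out)))) .out) .out)) (.na 670 74 (.nx 669 2097153 (.nr 668 2097153 (.nr 652 72 .s1
  (.nx 656 324 (.nx 654 215 (.nr 653 769 (.l1 (.ls 23 23 636)) (.l1 .sk)) (.nx 655 216 (.l1 .sk)
  (.l1 (.ls 71 23 801)))) (.nr 667 1048577 (.nx 663 131073 (.nx 660 20644 (.lg 0 false 4 97 97 16 0
  216720) (.nr 662 65537 (.lg 0 false 2 97 97 16 0 216720) .out)) (.nr 666 513 (.lg 0 true 3 67 67
  16 0 15480) .out)) .out))) .out) .out) (.na 686 75 (.nx 685 2097153 (.nr 684 2097153 (.nr 671 73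
  .s1 (.nx 672 324 (.l1 (.ls 89 31 1421)) (.nr 683 1048577 (.nr 679 65537 (.nx 675 131073 (.lg 0
  true 3 97 97 19 0 216720) (.nr 678 513 (.lg 0 true 3 73 73 19 0 30960) .out)) (.nx 682 20644 (.lg
  0 false 3 101 101 19 0 216720) .out)) .out))) .out) .out) (.lg 0 false 1 0 0 16 0 24)))) (.na 741
  81 (.na 707 79 (.nx 706 2097153 (.nr 705 2097153 (.nr 688 76 .s1 (.nx 699 32769 (.nx 690 215 (.nr
  689 820 (.l1 (.ls 31 29 603)) (.l1 .sk)) (.nx 691 216 (.l1 .sk) (.nx 697 20644 (.nx 692 324 (.l1
  (.ls 89 31 760)) (.nr 696 1048577 (.lg 0 false 4 97 101 23 0 2383920) .out)) (.nr 698 65537 (.lg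
  0 true 1 83 83 17 0 1191960) .out)))) (.nr 704 32769 (.nr 702 513 (.lg 0 true 3 73 73 23 0
  1191960) (.nx 703 131073 (.lg 2 true 1 83 83 17 27467 1191960) .out)) .out))) .out) .out) (.na
  723 80 (.nx 722 2097153 (.nr 721 2097153 (.nr 708 78 .s1 (.nx 709 324 (.l1 (.ls 73 29 1331)) (.nr
  720 1048577 (.nx 713 20644 (.lg 0 false 4 97 97 16 0 30960) (.nr 719 65537 (.nx 715 131073 (.lg 0
  true 2 97 97 16 0 30960) (.nr 718 513 (.lg 0 true 3 67 67 16 0 15480) .out)) .out)) .out))) .out)
  .out) (.nx 740 2097153 (.nr 739 2097153 (.nr 724 79 .s1 (.nx 727 216 (.nx 726 215 (.nr 725 841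
  (.l1 (.ls 31 31 580)) (.l1 .sk)) (.l1 .sk)) (.nx 734 32769 (.nx 732 20644 (.nx 728 324 (.l1 (.ls
  89 37 732)) (.nr 731 1048577 (.lg 0 false 3 97 101 29 0 216720) .out)) (.nr 733 65537 (.lg 0 true
  1 83 83 23 0 216720) .out)) (.nr 738 32769 (.nr 736 513 (.lg 0 true 2 73 73 23 0 30960) (.nx 737
  131073 (.lg 2 true 1 83 83 23 27467 30960) .out)) .out)))) .out) .out))) (.na 757 82 (.nx 756
  2097153 (.nr 755 2097153 (.nr 742 80 .s1 (.nx 751 131073 (.nx 743 324 (.l1 (.ls 79 31 1298)) (.nr
  750 1048577 (.nx 747 20644 (.lg 0 false 4 89 89 19 0 216720) (.nr 749 65537 (.lg 0 false 2 89 89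
  17 0 216720) .out)) .out)) (.nr 754 513 (.lg 0 true 3 67 67 17 0 15480) .out))) .out) .out) (.na
  772 84 (.nx 771 2097153 (.nr 770 2097153 (.nr 758 81 .s1 (.nx 766 131073 (.nx 759 324 (.l1 (.ls
  83 37 1283)) (.nr 765 1048577 (.nx 762 20644 (.lg 0 false 3 97 97 19 0 30960) (.nr 764 65537 (.lg
  0 false 2 89 89 19 0 30960) .out)) .out)) (.nr 769 513 (.lg 0 true 3 71 71 19 0 30960) .out)))
  .out) .out) (.nx 790 2097153 (.nr 789 2097153 (.nr 773 83 .s1 (.nx 776 216 (.nx 775 215 (.nr 774
  893 (.l1 (.ls 37 41 553)) (.l1 .sk)) (.l1 .sk)) (.nx 784 32769 (.nx 782 20644 (.nx 777 324 (.l1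
  (.ls 97 41 697)) (.nr 781 1048577 (.nr 779 741457 (.lg 0 false 2 97 103 37 0 216720) (.nx 780
  8192 .out (.lg 0 false 1 97 101 31 0 216720))) .out)) (.nr 783 65537 (.lg 0 false 1 89 89 31 0
  216720) .out)) (.nr 788 32769 (.nr 786 513 (.lg 0 true 2 79 83 37 0 216720) (.nx 787 131073 (.lg
  2 false 1 89 89 31 27467 216720) .out)) .out)))) .out) .out))))))) (.na 1067 123 (.na 924 105
  (.na 862 96 (.na 827 90 (.na 810 88 (.nx 809 2097153 (.nr 808 2097153 (.nr 792 85 .s1 (.nx 801
  32769 (.nx 793 324 (.l1 (.ls 73 37 1223)) (.nr 800 1048577 (.lg 0 false 7 83 83 19 0 216720)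
  .out)) (.nr 807 32769 (.nr 804 513 (.lg 0 false 3 61 61 19 0 30960) (.nx 806 131073 (.lg 2 true 2
  71 71 13 27467 340560) .out)) .out))) .out) .out) (.nx 826 2097153 (.nr 825 2097153 (.nr 811 87
  .s1 (.nx 823 131073 (.nx 813 215 (.nr 812 935 (.l1 (.ls 41 31 528)) (.l1 .sk)) (.nx 814 216 (.l1
  .sk) (.nx 815 324 (.l1 (.ls 97 37 665)) (.nr 822 1048577 (.nx 818 20644 (.lg 0 false 3 97 103 31
  0 2383920) (.nr 821 65537 (.nr 819 32769 (.lg 0 true 1 101 101 29 0 2383920) (.nx 820 32769 (.lg
  0 false 1 83 89 29 0 2383920) .out)) .out)) .out)))) (.nr 824 513 (.lg 0 true 1 83 83 29 0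
  340560) .out))) .out) .out)) (.na 842 91 (.nx 841 2097153 (.nr 840 2097153 (.nr 828 89 .s1 (.nx
  829 324 (.l1 (.ls 79 43 1169)) (.nr 839 1048577 (.nr 835 65537 (.nx 831 131073 (.lg 0 false 2 89
  89 29 0 30960) (.nr 834 513 (.lg 0 true 3 67 67 29 0 30960) .out)) (.nx 838 20644 (.lg 0 false 3
  89 89 29 0 30960) .out)) .out))) .out) .out) (.na 843 93 .ne (.nx 861 2097153 (.nr 860 2097153
  (.nr 844 92 .s1 (.nx 848 324 (.nx 846 215 (.nr 845 997 (.l1 (.ls 29 23 500)) (.l1 .sk)) (.nx 847
  216 (.l1 .sk) (.l1 (.ls 89 29 630)))) (.nr 859 1048577 (.nx 852 20644 (.lg 0 false 4 89 101 23 0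
  30960) (.nr 858 65537 (.nx 853 32769 (.lg 0 false 1 79 79 17 0 15480) (.nr 857 32769 (.nr 855 513
  (.lg 0 true 2 73 73 19 0 30960) (.nx 856 131073 (.lg 2 true 1 83 83 17 27467 15480) .out)) .out))
  .out)) .out))) .out) .out)))) (.na 891 99 (.na 878 98 (.nx 877 2097153 (.nr 876 2097153 (.nr 863
  95 .s1 (.nx 865 215 (.nr 864 1018 (.l1 (.ls 37 37 484)) (.l1 .sk)) (.nx 866 216 (.l1 .sk) (.nx
  867 324 (.l1 (.ls 89 37 610)) (.nr 875 1048577 (.nx 869 20644 (.lg 0 false 2 101 103 31 0
  2383920) (.nr 874 65537 (.nr 872 32769 (.nx 870 131073 (.lg 0 true 1 89 97 29 0 30960) (.nr 871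
  513 (.lg 0 true 1 79 79 29 0 30960) .out)) (.nx 873 32769 (.lg 0 false 1 79 83 29 0 30960) .out))
  .out)) .out))))) .out) .out) (.nx 890 2097153 (.nr 889 2097153 (.nr 879 97 .s1 (.nx 887 131073
  (.nx 880 324 (.l1 (.ls 83 37 1074)) (.nr 886 1048577 (.nr 882 65537 (.lg 0 false 2 89 89 23 0
  216720) (.nx 885 20644 (.lg 0 false 3 89 89 23 0 216720) .out)) .out)) (.nr 888 513 (.lg 0 false
  1 79 79 19 0 216720) .out))) .out) .out)) (.na 908 100 (.nx 907 2097153 (.nr 906 2097153 (.nr 892
  98 .s1 (.nx 896 324 (.nx 894 215 (.nr 893 1038 (.l1 (.ls 31 29 469)) (.l1 .sk)) (.nx 895 216 (.l1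
  .sk) (.l1 (.ls 83 31 592)))) (.nr 905 1048577 (.nx 902 131073 (.nx 900 20644 (.lg 0 false 4 97
  101 29 0 2383920) (.nr 901 65537 (.lg 0 false 1 101 101 19 0 2383920) .out)) (.nr 904 513 (.lg 0
  true 2 73 73 23 0 340560) .out)) .out))) .out) .out) (.na 909 101 (.lg 0 false 1 0 0 16 0 24)
  (.nx 923 2097153 (.nr 922 2097153 (.nr 910 100 .s1 (.nx 911 324 (.l1 (.ls 79 23 1042)) (.nr 921
  1048577 (.nx 918 131073 (.nx 915 20644 (.lg 0 false 4 89 89 17 0 30960) (.nr 917 65537 (.lg 0
  true 2 83 83 16 0 30960) .out)) (.nr 920 513 (.lg 0 true 2 67 67 16 0 30960) .out)) .out))) .out)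
  .out))))) (.na 994 112 (.na 953 109 (.na 938 108 (.nx 937 2097153 (.nr 936 2097153 (.nr 925 104
  .s1 (.nx 933 131073 (.nx 926 324 (.l1 (.ls 83 37 1002)) (.nr 932 1048577 (.nx 930 20644 (.lg 0
  false 4 89 97 31 0 216720) (.nr 931 65537 (.lg 0 false 1 97 97 23 0 216720) .out)) .out)) (.nr
  935 513 (.lg 0 true 2 73 73 29 0 216720) .out))) .out) .out) (.nx 952 2097153 (.nr 951 2097153
  (.nr 939 108 .s1 (.nx 948 131073 (.nx 944 20644 (.nx 940 324 (.l1 (.ls 89 41 974)) (.nr 943
  1048577 (.lg 0 false 3 89 89 31 0 30960) .out)) (.nr 947 65537 (.nr 945 32769 (.lg 0 false 1 89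
  89 23 0 30960) (.nx 946 32769 (.lg 0 false 1 73 73 23 0 30960) .out)) .out)) (.nr 950 513 (.lg 0
  true 2 73 73 29 0 30960) .out))) .out) .out)) (.na 967 110 (.nx 966 2097153 (.nr 965 2097153 (.nr
  954 109 .s1 (.nx 960 20644 (.nx 955 324 (.l1 (.ls 79 23 966)) (.nr 959 1048577 (.lg 0 false 4 83
  83 17 0 30960) .out)) (.nr 964 65537 (.nx 962 131073 (.lg 0 false 2 83 83 16 0 216720) (.nr 963
  513 (.lg 0 false 1 73 73 16 0 216720) .out)) .out))) .out) .out) (.na 980 111 (.nx 979 2097153
  (.nr 978 2097153 (.nr 968 110 .s1 (.nx 969 324 (.l1 (.ls 79 41 957)) (.nr 977 1048577 (.nx 972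
  20644 (.lg 0 false 3 89 89 29 0 340560) (.nr 976 65537 (.nx 974 131073 (.lg 0 true 2 83 83 29 0
  340560) (.nr 975 513 (.lg 0 false 1 73 73 23 0 340560) .out)) .out)) .out))) .out) .out) (.nx 993
  2097153 (.nr 992 2097153 (.nr 981 111 .s1 (.nx 989 131073 (.nx 982 324 (.l1 (.ls 89 29 948)) (.nr
  988 1048577 (.nx 986 20644 (.lg 0 false 4 97 101 23 0 216720) (.nr 987 65537 (.lg 0 false 1 101
  101 17 0 216720) .out)) .out)) (.nr 991 513 (.lg 0 true 2 73 73 19 0 30960) .out))) .out)
  .out)))) (.na 1024 118 (.na 1010 113 (.nx 1009 2097153 (.nr 1008 2097153 (.nr 995 112 .s1 (.nx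
  1006 131073 (.nx 1002 20644 (.nx 999 324 (.nx 997 215 (.nr 996 1173 (.l1 (.ls 37 31 415)) (.l1
  .sk)) (.nx 998 216 (.l1 .sk) (.l1 (.ls 89 31 523)))) (.nr 1001 1048577 (.lg 0 false 2 101 103 31
  0 2383920) .out)) (.nr 1005 65537 (.nr 1003 32769 (.lg 0 true 1 97 101 29 0 2383920) (.nx 1004
  32769 (.lg 0 false 1 79 83 29 0 216720) .out)) .out)) (.nr 1007 513 (.lg 0 true 1 79 79 29 0
  216720) .out))) .out) .out) (.nx 1023 2097153 (.nr 1022 2097153 (.nr 1011 113 .s1 (.nx 1012 324
  (.l1 (.ls 79 23 931)) (.nr 1021 1048577 (.nx 1016 32769 (.lg 0 false 4 89 89 17 0 30960) (.nr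
  1020 32769 (.nr 1018 513 (.lg 0 true 2 67 67 16 0 30960) (.nx 1019 131073 (.lg 2 true 1 73 73 16
  27467 15480) .out)) .out)) .out))) .out) .out)) (.na 1038 120 (.nx 1037 2097153 (.nr 1036 2097153
  (.nr 1025 118 .s1 (.nx 1026 324 (.l1 (.ls 83 31 892)) (.nr 1035 1048577 (.nx 1032 131073 (.nx
  1029 20644 (.lg 0 false 3 89 89 23 0 30960) (.nr 1031 65537 (.lg 0 true 2 89 89 19 0 30960)
  .out)) (.nr 1034 513 (.lg 0 true 2 67 67 19 0 30960) .out)) .out))) .out) .out) (.na 1054 121
  (.nx 1053 2097153 (.nr 1052 2097153 (.nr 1039 120 .s1 (.nx 1041 215 (.nr 1040 1256 (.l1 (.ls 37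
  37 388)) (.l1 .sk)) (.nx 1042 216 (.l1 .sk) (.nx 1043 324 (.l1 (.ls 89 37 489)) (.nr 1051 1048577
  (.nx 1045 20644 (.lg 0 false 2 97 101 37 0 216720) (.nr 1050 65537 (.nx 1048 131073 (.nr 1046
  32769 (.lg 0 true 1 89 97 31 0 216720) (.nx 1047 32769 (.lg 0 false 1 73 79 31 0 30960) .out))
  (.nr 1049 513 (.lg 0 true 1 73 73 31 0 30960) .out)) .out)) .out))))) .out) .out) (.nx 1066
  2097153 (.nr 1065 2097153 (.nr 1055 121 .s1 (.nx 1061 32769 (.nx 1056 324 (.l1 (.ls 79 29 870))
  (.nr 1060 1048577 (.lg 0 false 4 89 89 19 0 340560) .out)) (.nr 1064 32769 (.nr 1062 513 (.lg 0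
  false 1 73 73 17 0 340560) (.nx 1063 131073 (.lg 2 true 1 73 73 17 27467 340560) .out)) .out)))
  .out) .out)))))) (.na 1175 139 (.na 1117 129 (.na 1091 125 (.na 1079 124 (.nx 1078 2097153 (.nr
  1077 2097153 (.nr 1068 123 .s1 (.nx 1074 131073 (.nx 1069 324 (.l1 (.ls 89 29 856)) (.nr 1073
  1048577 (.nr 1070 65537 (.lg 0 false 1 103 103 17 0 2383920) (.nx 1072 20644 (.lg 0 false 2 103
  103 19 0 2383920) .out)) .out)) (.nr 1076 513 (.lg 0 true 2 73 73 19 0 30960) .out))) .out) .out)
  (.nx 1090 2097153 (.nr 1089 2097153 (.nr 1080 124 .s1 (.nx 1086 131073 (.nx 1081 324 (.l1 (.ls 89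
  29 849)) (.nr 1085 1048577 (.nx 1083 20644 (.lg 0 false 2 97 101 23 0 30960) (.nr 1084 65537 (.lg
  0 false 1 97 97 19 0 30960) .out)) .out)) (.nr 1088 513 (.lg 0 true 2 73 73 23 0 30960) .out)))
  .out) .out)) (.na 1092 126 (.lg 0 false 1 0 0 16 0 24) (.na 1104 128 (.nx 1103 2097153 (.nr 1102
  2097153 (.nr 1093 126 .s1 (.nx 1097 20644 (.nx 1094 324 (.l1 (.ls 83 41 836)) (.nr 1096 1048577
  (.lg 0 false 2 97 97 31 0 216720) .out)) (.nr 1101 65537 (.nx 1098 131073 (.lg 0 false 1 97 97 31
  0 216720) (.nr 1100 513 (.lg 0 true 2 71 71 31 0 216720) .out)) .out))) .out) .out) (.nx 1116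
  2097153 (.nr 1115 2097153 (.nr 1105 128 .s1 (.nx 1106 324 (.l1 (.ls 83 31 823)) (.nr 1114 1482912
  (.nx 1109 20644 (.lg 0 false 3 89 97 29 0 30960) (.nr 1113 65537 (.nx 1110 131073 (.lg 0 false 1
  89 89 19 0 30960) (.nr 1112 1025 (.lg 0 true 2 73 73 23 0 30960) .out)) .out)) .out))) .out)
  .out)))) (.na 1133 132 (.na 1132 131 (.nx 1131 1048577 (.nr 1130 1482912 (.nr 1118 129 .s1 (.nx
  1121 216 (.nx 1120 215 (.nr 1119 1360 (.l1 (.ls 23 23 361)) (.l1 .sk)) (.l1 .sk)) (.nx 1125 16385
  (.lg 0 false 4 83 83 19 0 30960) (.nr 1129 65537 (.nx 1127 131073 (.lg 0 false 2 83 83 19 0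
  216720) (.nr 1128 1025 (.lg 0 false 1 71 71 17 0 15480) .out)) .out)))) .out) .out) (.lg 0 false
  1 0 0 16 0 24)) (.na 1147 135 (.nx 1146 1048577 (.nr 1145 1482912 (.nr 1134 132 .s1 (.nx 1136 215
  (.nr 1135 1402 (.l1 (.ls 41 37 353)) (.l1 .sk)) (.nx 1137 216 (.l1 .sk) (.nx 1143 131073 (.nx
  1139 16385 (.lg 0 false 2 101 103 37 0 2383920) (.nr 1142 65537 (.nr 1140 16385 (.lg 0 true 1 89
  89 31 0 340560) (.nx 1141 32769 (.lg 0 false 1 83 89 31 0 340560) .out)) .out)) (.nr 1144 1025
  (.lg 0 true 1 83 83 31 0 340560) .out))))) .out) .out) (.na 1161 137 (.nx 1160 1048577 (.nr 1159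
  1482912 (.nr 1148 135 .s1 (.nx 1150 215 (.nr 1149 1423 (.l1 (.ls 19 29 345)) (.l1 .sk)) (.nx 1151
  216 (.l1 .sk) (.nx 1155 32769 (.lg 0 false 4 89 89 23 0 30960) (.nr 1158 16385 (.nr 1156 1025
  (.lg 0 false 1 71 71 19 0 30960) (.nx 1157 131073 (.lg 2 true 1 61 61 19 13747 30960) .out))
  .out))))) .out) .out) (.nx 1174 1048577 (.nr 1173 1482912 (.nr 1162 137 .s1 (.nx 1169 32769 (.nx
  1164 215 (.nr 1163 1443 (.l1 (.ls 23 19 340)) (.l1 .sk)) (.nx 1165 216 (.l1 .sk) (.lg 0 false 4
  89 89 17 0 216720))) (.nr 1172 16385 (.nr 1170 1025 (.lg 0 false 1 71 71 16 0 15480) (.nx 1171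
  131073 (.lg 2 true 1 61 61 16 13747 15480) .out)) .out))) .out) .out))))) (.na 1240 148 (.na 1201
  144 (.na 1189 140 (.nx 1188 1048577 (.nr 1187 1482912 (.nr 1176 139 .s1 (.nx 1183 32769 (.nx 1178
  215 (.nr 1177 1454 (.l1 (.ls 19 19 335)) (.l1 .sk)) (.nx 1179 216 (.l1 .sk) (.lg 0 false 4 89 89
  17 0 30960))) (.nr 1186 16385 (.nr 1184 1025 (.lg 0 false 1 71 71 16 0 15480) (.nx 1185 131073
  (.lg 2 true 1 61 61 16 13747 15480) .out)) .out))) .out) .out) (.nx 1200 1048577 (.nr 1199
  1482912 (.nr 1190 140 .s1 (.nx 1192 215 (.nr 1191 1495 (.l1 (.ls 31 37 333)) (.l1 .sk)) (.nx 1193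
  216 (.l1 .sk) (.nx 1197 131073 (.nr 1194 65537 (.lg 0 false 1 97 97 29 0 216720) (.nx 1196 16385
  (.lg 0 false 2 97 97 31 0 216720) .out)) (.nr 1198 1025 (.lg 0 true 1 73 73 29 0 216720)
  .out))))) .out) .out)) (.na 1215 146 (.nx 1214 1048577 (.nr 1213 1482912 (.nr 1202 144 .s1 (.nx
  1211 131073 (.nx 1204 215 (.nr 1203 1516 (.l1 (.ls 37 31 324)) (.l1 .sk)) (.nx 1205 216 (.l1 .sk)
  (.nx 1207 16385 (.lg 0 false 2 97 101 37 0 216720) (.nr 1210 65537 (.nr 1208 16385 (.lg 0 true 1
  83 89 31 0 216720) (.nx 1209 32769 (.lg 0 false 1 79 83 31 0 216720) .out)) .out)))) (.nr 1212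
  1025 (.lg 0 true 1 79 79 31 0 30960) .out))) .out) .out) (.na 1228 147 (.nx 1227 1048577 (.nr
  1226 1482912 (.nr 1216 146 .s1 (.nx 1218 215 (.nr 1217 1526 (.l1 (.ls 23 29 319)) (.l1 .sk)) (.nx
  1219 216 (.l1 .sk) (.nx 1224 131073 (.nr 1220 65537 (.lg 0 false 1 89 89 19 0 30960) (.nx 1223
  16385 (.lg 0 false 3 89 89 23 0 30960) .out)) (.nr 1225 1025 (.lg 0 false 1 73 73 19 0 30960)
  .out))))) .out) .out) (.nx 1239 1048577 (.nr 1238 1482912 (.nr 1229 147 .s1 (.nx 1232 216 (.nx
  1231 215 (.nr 1230 1537 (.l1 (.ls 29 29 317)) (.l1 .sk)) (.l1 .sk)) (.nr 1235 65537 (.nx 1233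
  131073 (.lg 0 false 1 89 89 23 0 108360) (.nr 1234 1025 (.lg 0 true 1 71 71 23 0 108360) .out))
  (.nx 1237 16385 (.lg 0 false 2 97 97 23 0 216720) .out)))) .out) .out)))) (.na 1254 151 (.na 1252
  149 (.nx 1251 1048577 (.nr 1250 1482912 (.nr 1241 148 .s1 (.nx 1243 215 (.nr 1242 1547 (.l1 (.ls
  29 29 315)) (.l1 .sk)) (.nx 1244 216 (.l1 .sk) (.nr 1247 65537 (.nx 1245 131073 (.lg 0 false 1 97
  97 23 0 30960) (.nr 1246 1025 (.lg 0 true 1 73 73 23 0 30960) .out)) (.nx 1249 16385 (.lg 0 false
  2 97 97 23 0 30960) .out))))) .out) .out) (.na 1253 150 (.lg 0 false 1 0 0 16 0 24) (.lg 0 false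
  1 0 0 16 0 24))) (.na 1255 154 (.lg 0 false 1 0 0 16 0 24) (.na 1267 155 (.nx 1266 1048577 (.nr
  1265 1482912 (.nr 1256 154 .s1 (.nx 1263 131073 (.nx 1258 215 (.nr 1257 1609 (.l1 (.ls 37 37
  303)) (.l1 .sk)) (.nx 1259 216 (.l1 .sk) (.nr 1260 65537 (.lg 0 false 1 97 97 31 0 2383920) (.nx
  1262 16385 (.lg 0 false 2 97 101 31 0 2383920) .out)))) (.nr 1264 1025 (.lg 0 true 1 73 73 31 0
  2383920) .out))) .out) .out) (.nx 1280 1048577 (.nr 1279 1482912 (.nr 1268 155 .s1 (.nx 1271 216
  (.nx 1270 215 (.nr 1269 1630 (.l1 (.ls 19 19 301)) (.l1 .sk)) (.l1 .sk)) (.nx 1275 32769 (.lg 0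
  false 4 89 89 19 0 30960) (.nr 1278 16385 (.nr 1276 1025 (.lg 0 false 1 71 71 17 0 15480) (.nx
  1277 131073 (.lg 2 true 1 61 61 17 13747 15480) .out)) .out)))) .out) .out))))))))

def T42_1 : Ph :=
  (.na 2876 1449 (.na 46 253 (.na 18 249 (.na 10 247 (.nx 9 832257 (.nr 8 1048577 (.nr 1 246 .s1
  (.nx 2 257 (.l1 (.ls 73 31 271)) (.nr 7 741457 (.nx 3 13005 (.lg 0 true 1 83 83 31 0 20592) (.nr
  6 16385 (.nr 4 1025 (.lg 0 true 1 67 67 31 0 20592) (.nx 5 104033 (.lg 2 true 1 61 61 31 12995
  20592) .out)) .out)) .out))) .out) .out) (.nx 17 832257 (.nr 16 1048577 (.nr 11 247 .s1 (.nx 12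
  257 (.l1 (.ls 79 29 270)) (.nr 15 741457 (.nr 13 16385 (.lg 0 false 1 83 83 17 0 10296) (.nx 14
  13005 (.lg 0 true 1 83 83 17 0 10296) .out)) .out))) .out) .out)) (.na 28 251 (.nx 27 832257 (.nr
  26 1048577 (.nr 19 249 .s1 (.nx 20 257 (.l1 (.ls 71 23 268)) (.nr 25 741457 (.nx 21 13005 (.lg 0
  false 1 79 79 23 0 10296) (.nr 24 16385 (.nr 22 1025 (.lg 0 true 1 61 61 23 0 10296) (.nx 23
  104033 (.lg 2 false 1 59 59 23 12995 10296) .out)) .out)) .out))) .out) .out) (.na 36 252 (.nx 35
  832257 (.nr 34 1048577 (.nr 29 251 .s1 (.nx 30 257 (.l1 (.ls 61 19 266)) (.nr 33 741457 (.nr 31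
  16385 (.lg 0 false 1 79 79 17 0 20592) (.nx 32 13005 (.lg 0 true 1 73 73 17 0 20592) .out))
  .out))) .out) .out) (.nx 45 832257 (.nr 44 1048577 (.nr 37 252 .s1 (.nx 42 104033 (.nx 38 257
  (.l1 (.ls 83 37 265)) (.nr 41 741457 (.nx 39 13005 (.lg 0 false 1 97 97 37 0 720720) (.nr 40
  16385 (.lg 0 true 1 79 83 37 0 720720) .out)) .out)) (.nr 43 1025 (.lg 0 true 1 73 73 37 0
  720720) .out))) .out) .out)))) (.na 784 512 (.na 54 256 (.nx 53 832257 (.nr 52 1048577 (.nr 47
  253 .s1 (.nx 48 257 (.l1 (.ls 71 19 264)) (.nr 51 741457 (.nr 49 16385 (.lg 0 false 1 83 83 19 0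
  10296) (.nx 50 13005 (.lg 0 true 1 83 83 19 0 102960) .out)) .out))) .out) .out) (.na 64 257 (.nx
  63 832257 (.nr 62 1482912 (.nr 55 256 .s1 (.nx 58 13005 (.nx 56 205 (.l1 (.ls 73 23 167)) (.nr 57
  1048577 (.lg 0 false 1 79 79 29 0 20592) .out)) (.nr 61 32769 (.nr 59 2049 (.lg 0 true 1 67 67 29
  0 20592) (.nx 60 104033 (.lg 2 false 1 67 67 29 25877 20592) .out)) .out))) .out) .out) (.nx 783
  832257 (.nr 782 1482912 (.nr 65 257 .s1 (.nx 270 205 (.nx 208 143 (.nr 207 4337 (.lx (.lp 43 19
  129)) (.l1 .sk)) (.nx 209 144 (.l1 .sk) (.lx (.lp 83 19 129)))) (.nr 781 1048577 (.nr 525 32769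
  (.la (.lg 0 true 1 83 83 23 0)) (.nx 780 10323 (.la (.lg 0 false 1 79 79 23 0)) .out)) .out)))
  .out) .out))) (.na 1420 725 (.nx 1419 832257 (.nr 1418 1482912 (.nr 785 512 .s1 (.nx 929 144 (.nx
  928 143 (.nr 927 6142 (.lx (.lp 43 19 182)) (.l1 .sk)) (.l1 .sk)) (.nx 1204 10323 (.nx 990 205
  (.lx (.lp 79 19 182)) (.nr 1203 1048577 (.la (.lg 0 false 1 73 73 29 0)) .out)) (.nr 1417 32769
  (.la (.lg 2 true 1 71 71 29 116224)) .out)))) .out) .out) (.na 2022 1024 (.nx 2021 10323 (.nr
  2020 1048577 (.nr 1421 725 .s1 (.nx 1720 2049 (.la (.ls 71 41 5793)) (.nr 2019 16385 (.la (.lg 0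
  false 1 41 43 31 0)) .out))) .out) .out) (.nx 2875 10323 (.nr 2874 1048577 (.nr 2023 1024 .s1
  (.nx 2448 2582 (.la (.ls 71 41 6513)) (.nr 2873 16385 (.la (.ls 41 53 97559)) .out))) .out)
  .out))))) (.na 10253 16384 (.na 5820 4096 (.na 3478 2048 (.nx 3477 2582 (.nr 3476 524289 (.nr
  2877 1449 .s1 (.la (.ls 67 37 4603))) .out) .out) (.na 4474 2897 (.nx 4473 3252 (.nr 4472 524289
  (.nr 3479 2048 .s1 (.nx 3623 144 (.nx 3622 143 (.nr 3621 24540 (.lx (.lp 43 29 725)) (.l1 .sk))
  (.l1 .sk)) (.la (.ls 61 41 5156)))) .out) .out) (.nx 5819 2582 (.nr 5818 262145 (.nr 4475 2897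
  .s1 (.nx 4619 144 (.nx 4618 143 (.nr 4617 34696 (.lx (.lp 43 31 1025)) (.l1 .sk)) (.l1 .sk)) (.la
  (.ls 59 37 2297)))) .out) .out))) (.na 7664 5793 (.nx 7663 2582 (.nr 7662 262145 (.nr 5821 4096
  .s1 (.nx 5965 144 (.nx 5964 143 (.nr 5963 49071 (.lx (.lp 16 31 1449)) (.l1 .sk)) (.l1 .sk)) (.la
  (.ls 53 37 1625)))) .out) .out) (.na 8958 8192 (.nx 8957 1292 (.nr 8956 65537 (.nr 7665 5793 .s1
  (.lx (.lp 43 37 2049))) .out) .out) (.nx 10252 1292 (.nr 10251 131073 (.nr 8959 8192 .s1 (.nx
  9163 205 (.lx (.lp 47 41 4097)) (.nr 10250 65537 (.lx (.lp 41 41 4097)) .out))) .out) .out))))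
  (.na 13605 131072 (.na 11549 32768 (.nx 11548 1292 (.nr 11547 262145 (.nr 10254 16384 .s1 (.nx
  10576 322 (.nx 10458 205 (.lx (.lp 43 41 8193)) (.nr 10575 65537 (.lx (.lp 41 43 8193)) .out))
  (.nr 11546 131073 (.lx (.lp 43 43 8193)) .out))) .out) .out) (.na 12577 65536 (.nx 12576 1025
  (.nr 12575 262145 (.nr 11550 32768 .s1 (.nx 11754 205 (.lx (.lp 16 0 16385)) (.nr 12574 131073
  (.lx (.lp 41 47 16385)) .out))) .out) .out) (.nx 13604 1025 (.nr 13603 262145 (.nr 12578 65536
  .s1 (.nx 12901 324 (.lx (.lp 37 53 32769)) (.nr 13602 131073 (.lx (.lp 37 53 32769)) .out)))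
  .out) .out))) (.na 13607 262144 (.nx 13606 324 (.l1 .sk) .out) (.na 13609 524289 (.nx 13608 205
  (.l1 .sk) .out) .out)))))

theorem c42 :
    OkQ ckI L9 215 25 157 0 34359738368 1 1099511627776 ∧
    OkQ ckI L8 143 246 1099511627776 0 34359738368 1 1099511627776 := by
  refine ⟨?_, ?_⟩
  · refine fin 15480 1281 T42_0 ?_
    refine jn 6 (by decide +kernel) ?_
    refine jn 10 (by decide +kernel) ?_
    refine jn 20 (by decide +kernel) ?_
    refine jn 30 (by decide +kernel) ?_
    refine jn 38 (by decide +kernel) ?_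
    refine jn 39 (by decide +kernel) ?_
    refine jn 40 (by decide +kernel) ?_
    refine jn 41 (by decide +kernel) ?_
    refine jn 43 (by decide +kernel) ?_
    refine jn 44 (by decide +kernel) ?_
    refine jn 47 (by decide +kernel) ?_
    refine jn 51 (by decide +kernel) ?_
    refine jn 57 (by decide +kernel) ?_
    refine jn 69 (by decide +kernel) ?_
    refine jn 76 (by decide +kernel) ?_
    refine jn 84 (by decide +kernel) ?_
    refine jn 91 (by decide +kernel) ?_
    refine jn 104 (by decide +kernel) ?_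
    refine jn 108 (by decide +kernel) ?_
    refine jn 117 (by decide +kernel) ?_
    refine jn 127 (by decide +kernel) ?_
    refine jn 135 (by decide +kernel) ?_
    refine jn 136 (by decide +kernel) ?_
    refine jn 137 (by decide +kernel) ?_
    refine jn 138 (by decide +kernel) ?_
    refine jn 140 (by decide +kernel) ?_
    refine jn 143 (by decide +kernel) ?_
    refine jn 146 (by decide +kernel) ?_
    refine jn 152 (by decide +kernel) ?_
    refine jn 162 (by decide +kernel) ?_
    refine jn 163 (by decide +kernel) ?_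
    refine jn 164 (by decide +kernel) ?_
    refine jn 165 (by decide +kernel) ?_
    refine jn 166 (by decide +kernel) ?_
    refine jn 170 (by decide +kernel) ?_
    refine jn 172 (by decide +kernel) ?_
    refine jn 176 (by decide +kernel) ?_
    refine jn 182 (by decide +kernel) ?_
    refine jn 194 (by decide +kernel) ?_
    refine jn 203 (by decide +kernel) ?_
    refine jn 214 (by decide +kernel) ?_
    refine jn 217 (by decide +kernel) ?_
    refine jn 219 (by decide +kernel) ?_
    refine jn 221 (by decide +kernel) ?_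
    refine jn 223 (by decide +kernel) ?_
    refine jn 226 (by decide +kernel) ?_
    refine jn 227 (by decide +kernel) ?_
    refine jn 229 (by decide +kernel) ?_
    refine jn 234 (by decide +kernel) ?_
    refine jn 248 (by decide +kernel) ?_
    refine jn 256 (by decide +kernel) ?_
    refine jn 270 (by decide +kernel) ?_
    refine jn 271 (by decide +kernel) ?_
    refine jn 272 (by decide +kernel) ?_
    refine jn 273 (by decide +kernel) ?_
    refine jn 274 (by decide +kernel) ?_
    refine jn 278 (by decide +kernel) ?_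
    refine jn 281 (by decide +kernel) ?_
    refine jn 283 (by decide +kernel) ?_
    refine jn 297 (by decide +kernel) ?_
    refine jn 306 (by decide +kernel) ?_
    refine jn 319 (by decide +kernel) ?_
    refine jn 320 (by decide +kernel) ?_
    refine jn 321 (by decide +kernel) ?_
    refine jn 322 (by decide +kernel) ?_
    refine jn 327 (by decide +kernel) ?_
    refine jn 330 (by decide +kernel) ?_
    refine jn 332 (by decide +kernel) ?_
    refine jn 355 (by decide +kernel) ?_
    refine jn 365 (by decide +kernel) ?_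
    refine jn 366 (by decide +kernel) ?_
    refine jn 367 (by decide +kernel) ?_
    refine jn 371 (by decide +kernel) ?_
    refine jn 376 (by decide +kernel) ?_
    refine jn 378 (by decide +kernel) ?_
    refine jn 391 (by decide +kernel) ?_
    refine jn 400 (by decide +kernel) ?_
    refine jn 409 (by decide +kernel) ?_
    refine jn 410 (by decide +kernel) ?_
    refine jn 411 (by decide +kernel) ?_
    refine jn 412 (by decide +kernel) ?_
    refine jn 413 (by decide +kernel) ?_
    refine jn 414 (by decide +kernel) ?_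
    refine jn 415 (by decide +kernel) ?_
    refine jn 416 (by decide +kernel) ?_
    refine jn 419 (by decide +kernel) ?_
    refine jn 420 (by decide +kernel) ?_
    refine jn 436 (by decide +kernel) ?_
    refine jn 443 (by decide +kernel) ?_
    refine jn 458 (by decide +kernel) ?_
    refine jn 465 (by decide +kernel) ?_
    refine jn 479 (by decide +kernel) ?_
    refine jn 488 (by decide +kernel) ?_
    refine jn 491 (by decide +kernel) ?_
    refine jn 492 (by decide +kernel) ?_
    refine jn 493 (by decide +kernel) ?_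
    refine jn 494 (by decide +kernel) ?_
    refine jn 496 (by decide +kernel) ?_
    refine jn 497 (by decide +kernel) ?_
    refine jn 498 (by decide +kernel) ?_
    refine jn 499 (by decide +kernel) ?_
    refine jn 501 (by decide +kernel) ?_
    refine jn 502 (by decide +kernel) ?_
    refine jn 511 (by decide +kernel) ?_
    refine jn 518 (by decide +kernel) ?_
    refine jn 527 (by decide +kernel) ?_
    refine jn 529 (by decide +kernel) ?_
    refine jn 533 (by decide +kernel) ?_
    refine jn 536 (by decide +kernel) ?_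
    refine jn 546 (by decide +kernel) ?_
    refine jn 551 (by decide +kernel) ?_
    refine jn 561 (by decide +kernel) ?_
    refine jn 565 (by decide +kernel) ?_
    refine jn 567 (by decide +kernel) ?_
    refine jn 571 (by decide +kernel) ?_
    refine jn 581 (by decide +kernel) ?_
    refine jn 585 (by decide +kernel) ?_
    refine jn 590 (by decide +kernel) ?_
    refine jn 601 (by decide +kernel) ?_
    refine jn 605 (by decide +kernel) ?_
    refine jn 610 (by decide +kernel) ?_
    refine jn 621 (by decide +kernel) ?_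
    refine jn 629 (by decide +kernel) ?_
    refine jn 637 (by decide +kernel) ?_
    refine jn 638 (by decide +kernel) ?_
    refine jn 639 (by decide +kernel) ?_
    refine jn 642 (by decide +kernel) ?_
    refine jn 644 (by decide +kernel) ?_
    refine jn 645 (by decide +kernel) ?_
    refine jn 646 (by decide +kernel) ?_
    refine jn 647 (by decide +kernel) ?_
    refine jn 662 (by decide +kernel) ?_
    refine jn 675 (by decide +kernel) ?_
    refine jn 682 (by decide +kernel) ?_
    refine jn 692 (by decide +kernel) ?_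
    refine jn 696 (by decide +kernel) ?_
    refine jn 702 (by decide +kernel) ?_
    refine jn 713 (by decide +kernel) ?_
    refine jn 724 (by decide +kernel) ?_
    refine jn 731 (by decide +kernel) ?_
    refine jn 736 (by decide +kernel) ?_
    refine jn 747 (by decide +kernel) ?_
    refine jn 758 (by decide +kernel) ?_
    refine jn 764 (by decide +kernel) ?_
    refine jn 776 (by decide +kernel) ?_
    refine jn 777 (by decide +kernel) ?_
    refine jn 778 (by decide +kernel) ?_
    refine jn 779 (by decide +kernel) ?_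
    refine jn 783 (by decide +kernel) ?_
    refine jn 785 (by decide +kernel) ?_
    refine jn 786 (by decide +kernel) ?_
    refine jn 787 (by decide +kernel) ?_
    refine jn 806 (by decide +kernel) ?_
    refine jn 815 (by decide +kernel) ?_
    refine jn 816 (by decide +kernel) ?_
    refine jn 817 (by decide +kernel) ?_
    refine jn 818 (by decide +kernel) ?_
    refine jn 819 (by decide +kernel) ?_
    refine jn 824 (by decide +kernel) ?_
    refine jn 834 (by decide +kernel) ?_
    refine jn 848 (by decide +kernel) ?_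
    refine jn 852 (by decide +kernel) ?_
    refine jn 855 (by decide +kernel) ?_
    refine jn 864 (by decide +kernel) ?_
    refine jn 867 (by decide +kernel) ?_
    refine jn 868 (by decide +kernel) ?_
    refine jn 869 (by decide +kernel) ?_
    refine jn 870 (by decide +kernel) ?_
    refine jn 871 (by decide +kernel) ?_
    refine jn 885 (by decide +kernel) ?_
    refine jn 896 (by decide +kernel) ?_
    refine jn 900 (by decide +kernel) ?_
    refine jn 904 (by decide +kernel) ?_
    refine jn 917 (by decide +kernel) ?_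
    refine jn 926 (by decide +kernel) ?_
    refine jn 930 (by decide +kernel) ?_
    refine jn 935 (by decide +kernel) ?_
    refine jn 940 (by decide +kernel) ?_
    refine jn 941 (by decide +kernel) ?_
    refine jn 942 (by decide +kernel) ?_
    refine jn 943 (by decide +kernel) ?_
    refine jn 944 (by decide +kernel) ?_
    refine jn 945 (by decide +kernel) ?_
    refine jn 954 (by decide +kernel) ?_
    refine jn 963 (by decide +kernel) ?_
    refine jn 975 (by decide +kernel) ?_
    refine jn 986 (by decide +kernel) ?_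
    refine jn 991 (by decide +kernel) ?_
    refine jn 999 (by decide +kernel) ?_
    refine jn 1000 (by decide +kernel) ?_
    refine jn 1001 (by decide +kernel) ?_
    refine jn 1003 (by decide +kernel) ?_
    refine jn 1007 (by decide +kernel) ?_
    refine jn 1019 (by decide +kernel) ?_
    refine jn 1031 (by decide +kernel) ?_
    refine jn 1043 (by decide +kernel) ?_
    refine jn 1044 (by decide +kernel) ?_
    refine jn 1045 (by decide +kernel) ?_
    refine jn 1047 (by decide +kernel) ?_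
    refine jn 1055 (by decide +kernel) ?_
    refine jn 1063 (by decide +kernel) ?_
    refine jn 1072 (by decide +kernel) ?_
    refine jn 1083 (by decide +kernel) ?_
    refine jn 1088 (by decide +kernel) ?_
    refine jn 1096 (by decide +kernel) ?_
    refine jn 1100 (by decide +kernel) ?_
    refine jn 1109 (by decide +kernel) ?_
    refine jn 1112 (by decide +kernel) ?_
    refine jn 1128 (by decide +kernel) ?_
    refine jn 1137 (by decide +kernel) ?_
    refine jn 1139 (by decide +kernel) ?_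
    refine jn 1141 (by decide +kernel) ?_
    refine jn 1155 (by decide +kernel) ?_
    refine jn 1170 (by decide +kernel) ?_
    refine jn 1184 (by decide +kernel) ?_
    refine jn 1196 (by decide +kernel) ?_
    refine jn 1205 (by decide +kernel) ?_
    refine jn 1207 (by decide +kernel) ?_
    refine jn 1209 (by decide +kernel) ?_
    refine jn 1223 (by decide +kernel) ?_
    refine jn 1234 (by decide +kernel) ?_
    refine jn 1245 (by decide +kernel) ?_
    refine jn 1249 (by decide +kernel) ?_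
    refine jn 1262 (by decide +kernel) ?_
    refine jn 1276 (by decide +kernel) ?_
    exact je (by decide +kernel)
  · refine fin 10296 13610 T42_1 ?_
    refine jn 5 (by decide +kernel) ?_
    refine jn 21 (by decide +kernel) ?_
    refine jn 32 (by decide +kernel) ?_
    refine jn 39 (by decide +kernel) ?_
    refine jn 43 (by decide +kernel) ?_
    refine jn 57 (by decide +kernel) ?_
    refine jn 74 (by decide +kernel) ?_
    refine jn 105 (by decide +kernel) ?_
    refine jn 137 (by decide +kernel) ?_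
    refine jn 167 (by decide +kernel) ?_
    refine jn 216 (by decide +kernel) ?_
    refine jn 250 (by decide +kernel) ?_
    refine jn 270 (by decide +kernel) ?_
    refine jn 277 (by decide +kernel) ?_
    refine jn 278 (by decide +kernel) ?_
    refine jn 284 (by decide +kernel) ?_
    refine jn 289 (by decide +kernel) ?_
    refine jn 290 (by decide +kernel) ?_
    refine jn 300 (by decide +kernel) ?_
    refine jn 301 (by decide +kernel) ?_
    refine jn 302 (by decide +kernel) ?_
    refine jn 307 (by decide +kernel) ?_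
    refine jn 311 (by decide +kernel) ?_
    refine jn 317 (by decide +kernel) ?_
    refine jn 318 (by decide +kernel) ?_
    refine jn 322 (by decide +kernel) ?_
    refine jn 325 (by decide +kernel) ?_
    refine jn 326 (by decide +kernel) ?_
    refine jn 331 (by decide +kernel) ?_
    refine jn 335 (by decide +kernel) ?_
    refine jn 337 (by decide +kernel) ?_
    refine jn 341 (by decide +kernel) ?_
    refine jn 342 (by decide +kernel) ?_
    refine jn 349 (by decide +kernel) ?_
    refine jn 350 (by decide +kernel) ?_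
    refine jn 356 (by decide +kernel) ?_
    refine jn 365 (by decide +kernel) ?_
    refine jn 372 (by decide +kernel) ?_
    refine jn 377 (by decide +kernel) ?_
    refine jn 381 (by decide +kernel) ?_
    refine jn 382 (by decide +kernel) ?_
    refine jn 391 (by decide +kernel) ?_
    refine jn 397 (by decide +kernel) ?_
    refine jn 399 (by decide +kernel) ?_
    refine jn 405 (by decide +kernel) ?_
    refine jn 406 (by decide +kernel) ?_
    refine jn 411 (by decide +kernel) ?_
    refine jn 412 (by decide +kernel) ?_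
    refine jn 422 (by decide +kernel) ?_
    refine jn 427 (by decide +kernel) ?_
    refine jn 431 (by decide +kernel) ?_
    refine jn 437 (by decide +kernel) ?_
    refine jn 442 (by decide +kernel) ?_
    refine jn 445 (by decide +kernel) ?_
    refine jn 446 (by decide +kernel) ?_
    refine jn 450 (by decide +kernel) ?_
    refine jn 454 (by decide +kernel) ?_
    refine jn 460 (by decide +kernel) ?_
    refine jn 461 (by decide +kernel) ?_
    refine jn 464 (by decide +kernel) ?_
    refine jn 466 (by decide +kernel) ?_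
    refine jn 469 (by decide +kernel) ?_
    refine jn 470 (by decide +kernel) ?_
    refine jn 475 (by decide +kernel) ?_
    refine jn 481 (by decide +kernel) ?_
    refine jn 490 (by decide +kernel) ?_
    refine jn 492 (by decide +kernel) ?_
    refine jn 496 (by decide +kernel) ?_
    refine jn 499 (by decide +kernel) ?_
    refine jn 505 (by decide +kernel) ?_
    refine jn 507 (by decide +kernel) ?_
    refine jn 514 (by decide +kernel) ?_
    refine jn 517 (by decide +kernel) ?_
    refine jn 518 (by decide +kernel) ?_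
    refine jn 525 (by decide +kernel) ?_
    refine jn 532 (by decide +kernel) ?_
    refine jn 534 (by decide +kernel) ?_
    refine jn 539 (by decide +kernel) ?_
    refine jn 544 (by decide +kernel) ?_
    refine jn 549 (by decide +kernel) ?_
    refine jn 556 (by decide +kernel) ?_
    refine jn 560 (by decide +kernel) ?_
    refine jn 562 (by decide +kernel) ?_
    refine jn 567 (by decide +kernel) ?_
    refine jn 572 (by decide +kernel) ?_
    refine jn 575 (by decide +kernel) ?_
    refine jn 577 (by decide +kernel) ?_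
    refine jn 580 (by decide +kernel) ?_
    refine jn 581 (by decide +kernel) ?_
    refine jn 590 (by decide +kernel) ?_
    refine jn 595 (by decide +kernel) ?_
    refine jn 596 (by decide +kernel) ?_
    refine jn 600 (by decide +kernel) ?_
    refine jn 604 (by decide +kernel) ?_
    refine jn 605 (by decide +kernel) ?_
    refine jn 611 (by decide +kernel) ?_
    refine jn 620 (by decide +kernel) ?_
    refine jn 629 (by decide +kernel) ?_
    refine jn 635 (by decide +kernel) ?_
    refine jn 636 (by decide +kernel) ?_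
    refine jn 637 (by decide +kernel) ?_
    refine jn 646 (by decide +kernel) ?_
    refine jn 652 (by decide +kernel) ?_
    refine jn 657 (by decide +kernel) ?_
    refine jn 662 (by decide +kernel) ?_
    refine jn 667 (by decide +kernel) ?_
    refine jn 680 (by decide +kernel) ?_
    refine jn 684 (by decide +kernel) ?_
    refine jn 692 (by decide +kernel) ?_
    refine jn 699 (by decide +kernel) ?_
    refine jn 701 (by decide +kernel) ?_
    refine jn 706 (by decide +kernel) ?_
    refine jn 715 (by decide +kernel) ?_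
    refine jn 719 (by decide +kernel) ?_
    refine jn 722 (by decide +kernel) ?_
    refine jn 724 (by decide +kernel) ?_
    refine jn 725 (by decide +kernel) ?_
    refine jn 735 (by decide +kernel) ?_
    refine jn 745 (by decide +kernel) ?_
    refine jn 750 (by decide +kernel) ?_
    refine jn 754 (by decide +kernel) ?_
    refine jn 762 (by decide +kernel) ?_
    refine jn 770 (by decide +kernel) ?_
    refine jn 772 (by decide +kernel) ?_
    refine jn 773 (by decide +kernel) ?_
    refine jn 821 (by decide +kernel) ?_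
    refine jn 929 (by decide +kernel) ?_
    refine jn 990 (by decide +kernel) ?_
    refine jn 999 (by decide +kernel) ?_
    refine jn 1007 (by decide +kernel) ?_
    refine jn 1010 (by decide +kernel) ?_
    refine jn 1011 (by decide +kernel) ?_
    refine jn 1017 (by decide +kernel) ?_
    refine jn 1021 (by decide +kernel) ?_
    refine jn 1030 (by decide +kernel) ?_
    refine jn 1031 (by decide +kernel) ?_
    refine jn 1050 (by decide +kernel) ?_
    refine jn 1054 (by decide +kernel) ?_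
    refine jn 1059 (by decide +kernel) ?_
    refine jn 1062 (by decide +kernel) ?_
    refine jn 1066 (by decide +kernel) ?_
    refine jn 1069 (by decide +kernel) ?_
    refine jn 1074 (by decide +kernel) ?_
    refine jn 1077 (by decide +kernel) ?_
    refine jn 1086 (by decide +kernel) ?_
    refine jn 1092 (by decide +kernel) ?_
    refine jn 1096 (by decide +kernel) ?_
    refine jn 1102 (by decide +kernel) ?_
    refine jn 1105 (by decide +kernel) ?_
    refine jn 1114 (by decide +kernel) ?_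
    refine jn 1119 (by decide +kernel) ?_
    refine jn 1125 (by decide +kernel) ?_
    refine jn 1131 (by decide +kernel) ?_
    refine jn 1134 (by decide +kernel) ?_
    refine jn 1142 (by decide +kernel) ?_
    refine jn 1150 (by decide +kernel) ?_
    refine jn 1151 (by decide +kernel) ?_
    refine jn 1162 (by decide +kernel) ?_
    refine jn 1167 (by decide +kernel) ?_
    refine jn 1180 (by decide +kernel) ?_
    refine jn 1195 (by decide +kernel) ?_
    refine jn 1199 (by decide +kernel) ?_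
    refine jn 1202 (by decide +kernel) ?_
    refine jn 1205 (by decide +kernel) ?_
    refine jn 1213 (by decide +kernel) ?_
    refine jn 1220 (by decide +kernel) ?_
    refine jn 1221 (by decide +kernel) ?_
    refine jn 1224 (by decide +kernel) ?_
    refine jn 1225 (by decide +kernel) ?_
    refine jn 1230 (by decide +kernel) ?_
    refine jn 1234 (by decide +kernel) ?_
    refine jn 1238 (by decide +kernel) ?_
    refine jn 1244 (by decide +kernel) ?_
    refine jn 1245 (by decide +kernel) ?_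
    refine jn 1259 (by decide +kernel) ?_
    refine jn 1265 (by decide +kernel) ?_
    refine jn 1268 (by decide +kernel) ?_
    refine jn 1271 (by decide +kernel) ?_
    refine jn 1275 (by decide +kernel) ?_
    refine jn 1278 (by decide +kernel) ?_
    refine jn 1280 (by decide +kernel) ?_
    refine jn 1283 (by decide +kernel) ?_
    refine jn 1286 (by decide +kernel) ?_
    refine jn 1289 (by decide +kernel) ?_
    refine jn 1291 (by decide +kernel) ?_
    refine jn 1300 (by decide +kernel) ?_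
    refine jn 1306 (by decide +kernel) ?_
    refine jn 1310 (by decide +kernel) ?_
    refine jn 1314 (by decide +kernel) ?_
    refine jn 1318 (by decide +kernel) ?_
    refine jn 1320 (by decide +kernel) ?_
    refine jn 1328 (by decide +kernel) ?_
    refine jn 1333 (by decide +kernel) ?_
    refine jn 1336 (by decide +kernel) ?_
    refine jn 1339 (by decide +kernel) ?_
    refine jn 1345 (by decide +kernel) ?_
    refine jn 1348 (by decide +kernel) ?_
    refine jn 1349 (by decide +kernel) ?_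
    refine jn 1356 (by decide +kernel) ?_
    refine jn 1364 (by decide +kernel) ?_
    refine jn 1365 (by decide +kernel) ?_
    refine jn 1376 (by decide +kernel) ?_
    refine jn 1381 (by decide +kernel) ?_
    refine jn 1390 (by decide +kernel) ?_
    refine jn 1396 (by decide +kernel) ?_
    refine jn 1409 (by decide +kernel) ?_
    refine jn 1411 (by decide +kernel) ?_
    refine jn 1414 (by decide +kernel) ?_
    refine jn 1416 (by decide +kernel) ?_
    refine jn 1432 (by decide +kernel) ?_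
    refine jn 1447 (by decide +kernel) ?_
    refine jn 1464 (by decide +kernel) ?_
    refine jn 1480 (by decide +kernel) ?_
    refine jn 1493 (by decide +kernel) ?_
    refine jn 1517 (by decide +kernel) ?_
    refine jn 1532 (by decide +kernel) ?_
    refine jn 1557 (by decide +kernel) ?_
    refine jn 1572 (by decide +kernel) ?_
    refine jn 1592 (by decide +kernel) ?_
    refine jn 1608 (by decide +kernel) ?_
    refine jn 1620 (by decide +kernel) ?_
    refine jn 1637 (by decide +kernel) ?_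
    refine jn 1663 (by decide +kernel) ?_
    refine jn 1687 (by decide +kernel) ?_
    refine jn 1704 (by decide +kernel) ?_
    refine jn 1720 (by decide +kernel) ?_
    refine jn 1731 (by decide +kernel) ?_
    refine jn 1737 (by decide +kernel) ?_
    refine jn 1751 (by decide +kernel) ?_
    refine jn 1759 (by decide +kernel) ?_
    refine jn 1767 (by decide +kernel) ?_
    refine jn 1783 (by decide +kernel) ?_
    refine jn 1793 (by decide +kernel) ?_
    refine jn 1808 (by decide +kernel) ?_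
    refine jn 1819 (by decide +kernel) ?_
    refine jn 1826 (by decide +kernel) ?_
    refine jn 1843 (by decide +kernel) ?_
    refine jn 1856 (by decide +kernel) ?_
    refine jn 1867 (by decide +kernel) ?_
    refine jn 1874 (by decide +kernel) ?_
    refine jn 1891 (by decide +kernel) ?_
    refine jn 1901 (by decide +kernel) ?_
    refine jn 1907 (by decide +kernel) ?_
    refine jn 1908 (by decide +kernel) ?_
    refine jn 1922 (by decide +kernel) ?_
    refine jn 1934 (by decide +kernel) ?_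
    refine jn 1951 (by decide +kernel) ?_
    refine jn 1966 (by decide +kernel) ?_
    refine jn 1979 (by decide +kernel) ?_
    refine jn 1983 (by decide +kernel) ?_
    refine jn 1999 (by decide +kernel) ?_
    refine jn 2003 (by decide +kernel) ?_
    refine jn 2004 (by decide +kernel) ?_
    refine jn 2023 (by decide +kernel) ?_
    refine jn 2048 (by decide +kernel) ?_
    refine jn 2063 (by decide +kernel) ?_
    refine jn 2078 (by decide +kernel) ?_
    refine jn 2100 (by decide +kernel) ?_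
    refine jn 2113 (by decide +kernel) ?_
    refine jn 2147 (by decide +kernel) ?_
    refine jn 2166 (by decide +kernel) ?_
    refine jn 2175 (by decide +kernel) ?_
    refine jn 2192 (by decide +kernel) ?_
    refine jn 2215 (by decide +kernel) ?_
    refine jn 2235 (by decide +kernel) ?_
    refine jn 2253 (by decide +kernel) ?_
    refine jn 2273 (by decide +kernel) ?_
    refine jn 2293 (by decide +kernel) ?_
    refine jn 2311 (by decide +kernel) ?_
    refine jn 2336 (by decide +kernel) ?_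
    refine jn 2355 (by decide +kernel) ?_
    refine jn 2371 (by decide +kernel) ?_
    refine jn 2403 (by decide +kernel) ?_
    refine jn 2436 (by decide +kernel) ?_
    refine jn 2450 (by decide +kernel) ?_
    refine jn 2467 (by decide +kernel) ?_
    refine jn 2481 (by decide +kernel) ?_
    refine jn 2488 (by decide +kernel) ?_
    refine jn 2498 (by decide +kernel) ?_
    refine jn 2508 (by decide +kernel) ?_
    refine jn 2523 (by decide +kernel) ?_
    refine jn 2528 (by decide +kernel) ?_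
    refine jn 2533 (by decide +kernel) ?_
    refine jn 2557 (by decide +kernel) ?_
    refine jn 2572 (by decide +kernel) ?_
    refine jn 2582 (by decide +kernel) ?_
    refine jn 2593 (by decide +kernel) ?_
    refine jn 2600 (by decide +kernel) ?_
    refine jn 2612 (by decide +kernel) ?_
    refine jn 2621 (by decide +kernel) ?_
    refine jn 2637 (by decide +kernel) ?_
    refine jn 2652 (by decide +kernel) ?_
    refine jn 2666 (by decide +kernel) ?_
    refine jn 2677 (by decide +kernel) ?_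
    refine jn 2696 (by decide +kernel) ?_
    refine jn 2711 (by decide +kernel) ?_
    refine jn 2713 (by decide +kernel) ?_
    refine jn 2730 (by decide +kernel) ?_
    refine jn 2738 (by decide +kernel) ?_
    refine jn 2760 (by decide +kernel) ?_
    refine jn 2768 (by decide +kernel) ?_
    refine jn 2780 (by decide +kernel) ?_
    refine jn 2792 (by decide +kernel) ?_
    refine jn 2796 (by decide +kernel) ?_
    refine jn 2817 (by decide +kernel) ?_
    refine jn 2841 (by decide +kernel) ?_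
    refine jn 2861 (by decide +kernel) ?_
    refine jn 2873 (by decide +kernel) ?_
    refine jn 2900 (by decide +kernel) ?_
    refine jn 2922 (by decide +kernel) ?_
    refine jn 2946 (by decide +kernel) ?_
    refine jn 2970 (by decide +kernel) ?_
    refine jn 3004 (by decide +kernel) ?_
    refine jn 3024 (by decide +kernel) ?_
    refine jn 3047 (by decide +kernel) ?_
    refine jn 3076 (by decide +kernel) ?_
    refine jn 3100 (by decide +kernel) ?_
    refine jn 3134 (by decide +kernel) ?_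
    refine jn 3160 (by decide +kernel) ?_
    refine jn 3180 (by decide +kernel) ?_
    refine jn 3201 (by decide +kernel) ?_
    refine jn 3227 (by decide +kernel) ?_
    refine jn 3252 (by decide +kernel) ?_
    refine jn 3276 (by decide +kernel) ?_
    refine jn 3300 (by decide +kernel) ?_
    refine jn 3329 (by decide +kernel) ?_
    refine jn 3360 (by decide +kernel) ?_
    refine jn 3390 (by decide +kernel) ?_
    refine jn 3419 (by decide +kernel) ?_
    refine jn 3442 (by decide +kernel) ?_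
    refine jn 3471 (by decide +kernel) ?_
    refine jn 3627 (by decide +kernel) ?_
    refine jn 3662 (by decide +kernel) ?_
    refine jn 3703 (by decide +kernel) ?_
    refine jn 3729 (by decide +kernel) ?_
    refine jn 3747 (by decide +kernel) ?_
    refine jn 3773 (by decide +kernel) ?_
    refine jn 3801 (by decide +kernel) ?_
    refine jn 3841 (by decide +kernel) ?_
    refine jn 3871 (by decide +kernel) ?_
    refine jn 3899 (by decide +kernel) ?_
    refine jn 3926 (by decide +kernel) ?_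
    refine jn 3951 (by decide +kernel) ?_
    refine jn 3976 (by decide +kernel) ?_
    refine jn 4018 (by decide +kernel) ?_
    refine jn 4047 (by decide +kernel) ?_
    refine jn 4071 (by decide +kernel) ?_
    refine jn 4099 (by decide +kernel) ?_
    refine jn 4139 (by decide +kernel) ?_
    refine jn 4167 (by decide +kernel) ?_
    refine jn 4199 (by decide +kernel) ?_
    refine jn 4232 (by decide +kernel) ?_
    refine jn 4266 (by decide +kernel) ?_
    refine jn 4299 (by decide +kernel) ?_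
    refine jn 4331 (by decide +kernel) ?_
    refine jn 4368 (by decide +kernel) ?_
    refine jn 4404 (by decide +kernel) ?_
    refine jn 4447 (by decide +kernel) ?_
    refine jn 4475 (by decide +kernel) ?_
    refine jn 4628 (by decide +kernel) ?_
    refine jn 4669 (by decide +kernel) ?_
    refine jn 4703 (by decide +kernel) ?_
    refine jn 4746 (by decide +kernel) ?_
    refine jn 4779 (by decide +kernel) ?_
    refine jn 4821 (by decide +kernel) ?_
    refine jn 4870 (by decide +kernel) ?_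
    refine jn 4903 (by decide +kernel) ?_
    refine jn 4934 (by decide +kernel) ?_
    refine jn 4974 (by decide +kernel) ?_
    refine jn 5018 (by decide +kernel) ?_
    refine jn 5060 (by decide +kernel) ?_
    refine jn 5099 (by decide +kernel) ?_
    refine jn 5155 (by decide +kernel) ?_
    refine jn 5186 (by decide +kernel) ?_
    refine jn 5226 (by decide +kernel) ?_
    refine jn 5264 (by decide +kernel) ?_
    refine jn 5310 (by decide +kernel) ?_
    refine jn 5346 (by decide +kernel) ?_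
    refine jn 5379 (by decide +kernel) ?_
    refine jn 5425 (by decide +kernel) ?_
    refine jn 5466 (by decide +kernel) ?_
    refine jn 5503 (by decide +kernel) ?_
    refine jn 5548 (by decide +kernel) ?_
    refine jn 5589 (by decide +kernel) ?_
    refine jn 5636 (by decide +kernel) ?_
    refine jn 5679 (by decide +kernel) ?_
    refine jn 5730 (by decide +kernel) ?_
    refine jn 5765 (by decide +kernel) ?_
    refine jn 5810 (by decide +kernel) ?_
    refine jn 5986 (by decide +kernel) ?_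
    refine jn 6038 (by decide +kernel) ?_
    refine jn 6093 (by decide +kernel) ?_
    refine jn 6148 (by decide +kernel) ?_
    refine jn 6183 (by decide +kernel) ?_
    refine jn 6216 (by decide +kernel) ?_
    refine jn 6263 (by decide +kernel) ?_
    refine jn 6315 (by decide +kernel) ?_
    refine jn 6365 (by decide +kernel) ?_
    refine jn 6410 (by decide +kernel) ?_
    refine jn 6461 (by decide +kernel) ?_
    refine jn 6501 (by decide +kernel) ?_
    refine jn 6543 (by decide +kernel) ?_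
    refine jn 6597 (by decide +kernel) ?_
    refine jn 6637 (by decide +kernel) ?_
    refine jn 6671 (by decide +kernel) ?_
    refine jn 6733 (by decide +kernel) ?_
    refine jn 6781 (by decide +kernel) ?_
    refine jn 6835 (by decide +kernel) ?_
    refine jn 6882 (by decide +kernel) ?_
    refine jn 6923 (by decide +kernel) ?_
    refine jn 6972 (by decide +kernel) ?_
    refine jn 7026 (by decide +kernel) ?_
    refine jn 7066 (by decide +kernel) ?_
    refine jn 7116 (by decide +kernel) ?_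
    refine jn 7167 (by decide +kernel) ?_
    refine jn 7215 (by decide +kernel) ?_
    refine jn 7266 (by decide +kernel) ?_
    refine jn 7316 (by decide +kernel) ?_
    refine jn 7368 (by decide +kernel) ?_
    refine jn 7417 (by decide +kernel) ?_
    refine jn 7472 (by decide +kernel) ?_
    refine jn 7524 (by decide +kernel) ?_
    refine jn 7595 (by decide +kernel) ?_
    refine jn 7630 (by decide +kernel) ?_
    refine jn 7828 (by decide +kernel) ?_
    refine jn 7972 (by decide +kernel) ?_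
    refine jn 8073 (by decide +kernel) ?_
    refine jn 8129 (by decide +kernel) ?_
    refine jn 8259 (by decide +kernel) ?_
    refine jn 8349 (by decide +kernel) ?_
    refine jn 8417 (by decide +kernel) ?_
    refine jn 8487 (by decide +kernel) ?_
    refine jn 8545 (by decide +kernel) ?_
    refine jn 8605 (by decide +kernel) ?_
    refine jn 8671 (by decide +kernel) ?_
    refine jn 8713 (by decide +kernel) ?_
    refine jn 8768 (by decide +kernel) ?_
    refine jn 8809 (by decide +kernel) ?_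
    refine jn 8843 (by decide +kernel) ?_
    refine jn 8886 (by decide +kernel) ?_
    refine jn 8944 (by decide +kernel) ?_
    refine jn 9147 (by decide +kernel) ?_
    refine jn 9229 (by decide +kernel) ?_
    refine jn 9294 (by decide +kernel) ?_
    refine jn 9367 (by decide +kernel) ?_
    refine jn 9437 (by decide +kernel) ?_
    refine jn 9479 (by decide +kernel) ?_
    refine jn 9519 (by decide +kernel) ?_
    refine jn 9583 (by decide +kernel) ?_
    refine jn 9634 (by decide +kernel) ?_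
    refine jn 9695 (by decide +kernel) ?_
    refine jn 9758 (by decide +kernel) ?_
    refine jn 9811 (by decide +kernel) ?_
    refine jn 9849 (by decide +kernel) ?_
    refine jn 9893 (by decide +kernel) ?_
    refine jn 9929 (by decide +kernel) ?_
    refine jn 9982 (by decide +kernel) ?_
    refine jn 10008 (by decide +kernel) ?_
    refine jn 10052 (by decide +kernel) ?_
    refine jn 10099 (by decide +kernel) ?_
    refine jn 10123 (by decide +kernel) ?_
    refine jn 10149 (by decide +kernel) ?_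
    refine jn 10183 (by decide +kernel) ?_
    refine jn 10213 (by decide +kernel) ?_
    refine jn 10247 (by decide +kernel) ?_
    refine jn 10515 (by decide +kernel) ?_
    refine jn 10613 (by decide +kernel) ?_
    refine jn 10676 (by decide +kernel) ?_
    refine jn 10746 (by decide +kernel) ?_
    refine jn 10829 (by decide +kernel) ?_
    refine jn 10890 (by decide +kernel) ?_
    refine jn 10943 (by decide +kernel) ?_
    refine jn 10993 (by decide +kernel) ?_
    refine jn 11045 (by decide +kernel) ?_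
    refine jn 11105 (by decide +kernel) ?_
    refine jn 11153 (by decide +kernel) ?_
    refine jn 11217 (by decide +kernel) ?_
    refine jn 11270 (by decide +kernel) ?_
    refine jn 11307 (by decide +kernel) ?_
    refine jn 11363 (by decide +kernel) ?_
    refine jn 11412 (by decide +kernel) ?_
    refine jn 11455 (by decide +kernel) ?_
    refine jn 11485 (by decide +kernel) ?_
    refine jn 11541 (by decide +kernel) ?_
    refine jn 11838 (by decide +kernel) ?_
    refine jn 11980 (by decide +kernel) ?_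
    refine jn 12042 (by decide +kernel) ?_
    refine jn 12091 (by decide +kernel) ?_
    refine jn 12174 (by decide +kernel) ?_
    refine jn 12244 (by decide +kernel) ?_
    refine jn 12332 (by decide +kernel) ?_
    refine jn 12414 (by decide +kernel) ?_
    refine jn 12470 (by decide +kernel) ?_
    refine jn 12525 (by decide +kernel) ?_
    refine jn 12578 (by decide +kernel) ?_
    refine jn 12936 (by decide +kernel) ?_
    refine jn 13062 (by decide +kernel) ?_
    refine jn 13158 (by decide +kernel) ?_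
    refine jn 13226 (by decide +kernel) ?_
    refine jn 13308 (by decide +kernel) ?_
    refine jn 13392 (by decide +kernel) ?_
    refine jn 13476 (by decide +kernel) ?_
    refine jn 13579 (by decide +kernel) ?_
    exact je (by decide +kernel)

end Pool.Agent.MP_2339ce_nt.NR
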