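import Pool.Agent.MP_2339ce_nt.Q2.NC.L6
import Pool.Agent.MP_2339ce_nt.Q2.NC.L8
import Pool.Agent.MP_2339ce_nt.Q2.CkI

/-! Block NR: runs. -/

set_option autoImplicit false
set_option maxRecDepth 100000

noncomputable section

namespace Pool.Agent.MP_2339ce_nt.NR

open Q2.Top

def T52_0 : Ph :=
  (.na 951 6 (.na 481 3 (.na 293 2 (.nx 292 1321124 (.nr 291 881745 (.nx 3 157 (.nx 2 156 (.nr 1 13
  (.lg 0 true 1 41 41 5 0 312) (.l1 .sk)) (.l1 .sk)) (.nx 102 24081 (.nr 80 92683 (.lg 0 false 77
  101 107 16 0 720720) (.nx 101 257 (.lg 0 false 21 83 83 11 0 6552) .out)) (.nr 290 77937 (.nr 184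
  1219 (.nx 148 660563 (.nr 137 695 (.lg 0 true 35 89 97 13 0 32760) (.lg 2 true 11 89 89 9 74136
  51480)) (.nr 183 129 (.lg 0 true 35 79 83 13 0 10920) .out)) (.nx 289 524289 (.nx 219 32769 (.lg
  1 false 35 97 107 13 39461 720720) (.nr 288 55110 (.nr 230 2437 (.lg 2 true 11 89 97 9 33548
  51480) (.nx 287 416129 (.nr 251 23172 (.nr 237 4097 (.lg 2 true 7 89 89 9 13319 32760) (.lg 2
  false 14 101 107 9 8663 720720)) (.nx 286 262145 (.lg 2 false 35 101 107 13 20523 720720) .out))
  .out)) .out)) .out)) .out))) .out) .out) (.nx 480 3329023 (.nr 479 623489 (.nx 460 1664512 (.nx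
  295 156 (.nr 294 24 (.lg 0 true 1 41 41 5 0 624) (.l1 .sk)) (.nx 296 157 (.l1 .sk) (.nr 448
  131073 (.nx 425 832257 (.nx 331 26009 (.lg 0 false 35 101 107 13 0 720720) (.nr 424 110219 (.nr
  353 450 (.lg 0 true 22 89 89 11 0 6864) (.nx 423 416129 (.nx 364 32769 (.lg 1 false 11 101 103 9
  51639 720720) (.nr 422 92683 (.nr 375 2437 (.lg 2 true 11 97 101 9 72130 720720) (.nx 421 330282
  (.nr 398 55110 (.nr 386 27556 (.lg 2 false 11 101 103 9 10572 720720) (.nx 397 165142 (.lg 2
  false 11 103 103 9 20523 720720) .out)) (.nx 420 131073 (.lg 2 false 22 101 107 11 34475 720720)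
  .out)) .out)) .out)) .out)) .out)) (.nr 447 129 (.lg 0 true 22 79 83 11 0 6864) .out)) (.nx 459
  257 (.lg 0 false 11 79 79 9 0 6864) .out)))) (.nr 478 9 (.lg 0 true 18 71 71 9 0 1872) .out))
  .out) .out)) (.na 651 4 (.nx 650 6658044 (.nr 649 1482912 (.nx 484 157 (.nx 483 156 (.nr 482 34
  (.lg 0 true 1 37 37 5 0 4680) (.l1 .sk)) (.l1 .sk)) (.nr 632 131073 (.nx 596 1048577 (.nx 519
  27236 (.lg 0 false 35 97 103 16 0 720720) (.nr 535 364 (.lg 0 true 16 83 83 16 0 1872) (.nx 595
  262145 (.nx 557 57052 (.nx 546 39420 (.lg 1 false 11 101 103 7 58630 720720) (.lg 1 false 11 101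
  103 7 40508 720720)) (.nr 564 2904 (.lg 2 true 7 89 89 7 56174 32760) (.nx 575 82572 (.lg 1 false
  11 101 103 7 27989 720720) (.nr 594 110219 (.nx 582 104033 (.lg 1 true 7 101 101 7 16266 65520)
  (.nr 593 65537 (.lg 2 false 11 89 97 7 7684 51480) .out)) .out)))) .out))) (.nr 631 33 (.lg 0
  true 35 73 73 7 0 32760) .out)) (.nx 648 257 (.lg 0 false 16 73 73 16 0 1872) .out))) .out) .out)
  (.na 825 5 (.nx 824 13316087 (.nr 823 1246976 (.nx 653 156 (.nr 652 43 (.lg 0 true 1 37 37 9 0
  624) (.l1 .sk)) (.nx 654 157 (.l1 .sk) (.nr 815 155873 (.nx 765 1664512 (.nx 750 416129 (.nx 676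
  17789 (.nr 668 110219 (.lg 0 false 14 101 103 13 0 720720) (.nx 675 1627 (.lg 0 false 7 89 97 11
  0 720720) .out)) (.nr 749 131073 (.nr 697 5810 (.nr 690 729 (.lg 0 true 14 83 89 13 0 4368) (.lg
  2 true 7 97 101 11 44525 720720)) (.nx 741 131073 (.nx 705 26007 (.nr 704 110219 (.lg 1 false 7
  101 103 11 75501 720720) .out) (.nx 733 104033 (.nx 712 36779 (.lg 1 false 7 101 103 11 61400
  720720) (.nx 726 73561 (.nx 719 52015 (.lg 1 false 7 101 103 11 43417 720720) (.lg 1 false 7 101
  103 11 30700 720720)) (.lg 1 true 7 101 103 11 21708 720720))) (.nr 740 92683 (.lg 1 true 7 101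
  103 11 10859 720720) .out))) (.nr 748 55110 (.lg 2 false 7 101 103 11 5587 720720) .out))) .out))
  (.nr 764 183 (.lg 0 true 14 83 83 13 0 4368) .out)) (.nr 814 21 (.nx 793 9415896 (.lg 0 true 28
  79 79 11 0 4368) (.lg 0 true 21 79 79 11 0 13104)) .out)) (.nx 822 257 (.lg 0 false 7 83 83 11 0
  4368) .out)))) .out) .out) (.nx 950 13316087 (.nr 949 1482912 (.nx 920 1664512 (.nx 912 660563
  (.nx 852 26007 (.nx 827 156 (.nr 826 52 (.lg 0 true 1 31 31 9 0 1560) (.l1 .sk)) (.nx 828 157
  (.l1 .sk) (.nr 844 110219 (.lg 0 false 16 101 103 16 0 720720) (.nx 851 257 (.lg 0 false 7 79 79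
  16 0 10920) .out)))) (.nr 911 155873 (.nr 873 8843 (.nr 863 956 (.lg 0 true 11 83 89 16 0 17160)
  (.nr 870 4213 (.lg 2 true 7 83 89 16 53896 32760) (.lg 2 true 3 83 89 11 12230 4680))) (.nx 881
  41285 (.nr 880 131073 (.lg 1 false 7 101 103 16 61400 720720) .out) (.nx 903 131073 (.nx 895
  82572 (.nx 888 58386 (.lg 1 false 7 101 103 16 45988 720720) (.lg 1 false 7 101 103 16 32518
  720720)) (.nr 902 131073 (.lg 1 true 7 101 103 16 19339 720720) .out)) (.nr 910 46342 (.lg 2
  false 7 89 97 16 5827 32760) .out)))) .out)) (.nr 919 217 (.lg 0 true 7 83 83 16 0 10920) .out))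
  (.nr 948 24 (.lg 0 true 28 83 83 16 0 21840) .out)) .out) .out)))) (.na 1177 9 (.na 1081 7 (.nx
  1080 13316087 (.nr 1079 623489 (.nx 954 157 (.nx 953 156 (.nr 952 61 (.lg 0 true 1 37 37 7 0
  102960) (.l1 .sk)) (.l1 .sk)) (.nx 978 28089 (.nx 955 205 (.l1 (.ls 83 43 2899)) (.nr 977 370729
  (.nr 969 131073 (.lg 0 false 14 101 103 13 0 720720) (.nx 976 1627 (.lg 0 false 7 83 83 13 0
  13104) .out)) .out)) (.nr 1078 155873 (.nx 1030 832257 (.nr 992 1026 (.lg 0 true 14 83 83 13 0
  13104) (.nx 1029 660563 (.nr 999 8201 (.lg 2 true 7 89 89 13 50219 65520) (.nx 1021 131073 (.nx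
  1007 52015 (.nr 1006 131073 (.lg 1 false 7 101 101 13 56849 65520) .out) (.lg 1 true 14 101 103
  13 36501 720720)) (.nr 1028 65537 (.lg 2 false 7 89 89 13 6283 65520) .out))) .out)) (.nr 1077
  129 (.nr 1065 41 (.lg 0 true 35 79 79 13 0 65520) (.nx 1076 1664512 (.lg 0 true 11 71 71 13 0
  20592) .out)) .out)) .out))) .out) .out) (.na 1082 8 .ne (.nx 1176 13316087 (.nr 1175 623489 (.nx
  1146 1664512 (.nx 1085 157 (.nx 1084 156 (.nr 1083 79 (.lg 0 false 1 31 31 9 0 9360) (.l1 .sk))
  (.l1 .sk)) (.nx 1138 832257 (.nx 1102 26007 (.nr 1092 110219 (.lg 0 false 7 101 101 13 0 65520)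
  (.nx 1101 2582 (.nx 1099 1627 (.lg 0 false 7 89 89 13 0 4368) (.nr 1100 131073 (.lg 0 true 1 79
  79 9 0 624) .out)) .out)) (.nr 1137 131073 (.nr 1109 727 (.lg 0 true 7 83 83 13 0 4368) (.nx 1136
  660563 (.nx 1116 56180 (.lg 1 false 7 101 103 13 61400 720720) (.nr 1121 2905 (.lg 2 true 5 83 83
  13 70872 9360) (.nx 1128 82572 (.lg 1 false 7 89 101 13 28424 65520) (.nr 1135 110219 (.lg 2
  false 7 101 103 13 17737 720720) .out)))) .out)) .out)) (.nr 1145 129 (.lg 0 true 7 73 73 13 0
  4368) .out))) (.nr 1174 55 (.lg 0 true 28 79 79 13 0 4368) .out)) .out) .out))) (.na 1178 10 (.lg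
  0 false 1 0 0 7 0 24) (.na 1232 11 (.nx 1231 1664512 (.nr 1230 623489 (.nx 1181 157 (.nx 1180 156
  (.nr 1179 97 (.lg 0 false 1 31 31 11 0 9360) (.l1 .sk)) (.l1 .sk)) (.nx 1198 26007 (.nr 1188
  110219 (.lg 0 false 7 97 101 13 0 65520) (.nx 1197 2582 (.nx 1195 1292 (.lg 0 false 7 83 89 13 0
  21840) (.nr 1196 131073 (.lg 0 true 1 79 79 11 0 3120) .out)) .out)) (.nr 1229 131073 (.nr 1213
  1621 (.nx 1205 524289 (.lg 0 true 7 89 89 13 0 21840) (.nr 1212 65 (.lg 0 true 7 71 71 13 0
  21840) .out)) (.nx 1228 416129 (.nx 1220 65537 (.lg 1 false 7 101 103 13 61400 720720) (.nr 1227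
  110219 (.lg 2 false 7 97 101 13 20494 65520) .out)) .out)) .out))) .out) .out) (.nx 1282 1664512
  (.nr 1281 623489 (.nx 1235 157 (.nx 1234 156 (.nr 1233 106 (.lg 0 false 1 31 31 9 0 51480) (.l1
  .sk)) (.l1 .sk)) (.nr 1273 131073 (.nx 1242 26007 (.lg 0 false 7 97 101 16 0 360360) (.nr 1257
  1621 (.nx 1249 524289 (.lg 0 true 7 83 83 16 0 24024) (.nr 1256 65 (.lg 0 true 7 71 71 16 0
  24024) .out)) (.nx 1272 416129 (.nx 1264 65537 (.lg 1 false 7 101 103 16 61400 720720) (.nr 1271
  110219 (.lg 2 false 7 97 101 16 20494 360360) .out)) .out))) (.nx 1280 1292 (.lg 0 false 7 83 89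
  16 0 360360) .out))) .out) .out)))))

def T52_1 : Ph :=
  (.na 718 6 (.na 365 3 (.na 217 2 (.nx 216 1321124 (.nr 215 311745 (.nx 3 120 (.nx 2 119 (.nr 1 11
  (.lg 0 false 1 43 43 5 0 8568) (.l1 .sk)) (.l1 .sk)) (.nr 188 38969 (.nx 161 660563 (.nx 47 16385
  (.lg 0 false 44 97 103 16 0 942480) (.nr 160 27556 (.nr 139 13779 (.nr 125 1724 (.nx 104 330282
  (.nr 91 432 (.lg 0 true 44 89 97 16 0 942480) (.lg 2 true 13 101 101 9 45491 1113840)) (.nr 124
  109 (.lg 0 true 20 83 89 11 0 85680) .out)) (.nx 138 165142 (.lg 2 false 13 101 103 9 6006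
  1113840) .out)) (.nx 159 82572 (.lg 2 false 20 101 107 11 11960 12252240) .out)) .out)) (.nr 187
  13 (.lg 0 true 26 79 79 9 0 222768) .out)) (.nx 214 6503 (.nx 201 205 (.lg 0 false 13 83 83 9 0
  111384) (.nx 202 1290 .out (.nr 213 46342 (.lg 0 false 11 97 101 9 0 942480) .out))) .out)))
  .out) .out) (.nx 364 3329023 (.nr 363 623489 (.nx 344 1321124 (.nx 220 120 (.nx 219 119 (.nr 218
  21 (.lg 0 false 1 41 41 5 0 17136) (.l1 .sk)) (.l1 .sk)) (.nr 326 65537 (.nx 242 14450 (.lg 0
  false 22 101 103 11 0 942480) (.nr 275 257 (.lg 0 true 33 89 89 13 0 188496) (.nx 325 165142 (.nr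
  286 1100 (.lg 2 true 11 83 83 9 38234 188496) (.nx 297 20644 (.lg 1 false 11 101 101 9 32173
  942480) (.nr 324 46342 (.nr 310 27556 (.lg 2 false 13 101 103 9 9493 1113840) (.nx 323 65537 (.lg
  2 false 13 101 103 9 15936 1113840) .out)) .out))) .out))) (.nx 343 1292 (.nr 329 77937 (.lg 0
  true 3 89 89 7 0 85680) (.nx 342 205 (.lg 0 false 13 83 83 9 0 222768) .out)) .out))) (.nr 362 9
  (.lg 0 true 18 71 71 9 0 17136) .out)) .out) .out)) (.na 503 4 (.nx 502 6658044 (.nr 501 881745
  (.nx 474 1321124 (.nx 460 416129 (.nx 368 120 (.nx 367 119 (.nr 366 29 (.lg 0 true 1 41 41 5 0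
  85680) (.l1 .sk)) (.l1 .sk)) (.nx 399 13003 (.nr 381 55110 (.lg 0 false 13 101 101 16 0 1113840)
  (.nx 398 1292 (.nx 392 205 (.lg 0 false 11 83 83 16 0 94248) (.nx 393 406 .out (.nr 397 110219
  (.lg 0 false 4 97 97 7 0 85680) .out))) .out)) (.nr 459 65537 (.nr 412 364 (.lg 0 true 13 83 83
  16 0 111384) (.nx 458 208065 (.nr 420 3220 (.nr 416 1557 (.lg 2 true 4 89 89 7 34011 85680) (.lg
  2 true 4 83 83 7 7952 85680)) (.nx 446 52017 (.nx 433 28090 (.lg 1 false 13 101 107 16 35753
  1113840) (.lg 1 true 13 97 103 16 16550 1113840)) (.nr 457 38969 (.lg 2 false 11 97 103 16 5321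
  942480) .out))) .out)) .out))) (.nr 473 109 (.lg 0 true 13 83 83 16 0 111384) .out)) (.nr 500 13
  (.lg 0 true 26 83 83 7 0 222768) .out)) .out) .out) (.na 628 5 (.nx 627 10568985 (.nr 626 1246976
  (.nx 584 1321124 (.nx 572 330282 (.nx 506 120 (.nx 505 119 (.nr 504 38 (.lg 0 true 1 37 37 9 0
  17136) (.l1 .sk)) (.l1 .sk)) (.nr 560 155873 (.nr 554 65537 (.nx 517 14596 (.lg 0 false 11 101
  103 13 0 942480) (.nr 531 2635 (.nr 528 694 (.lg 0 true 11 89 89 13 0 188496) (.lg 2 true 3 89 89
  9 28317 17136)) (.nx 542 41287 (.lg 1 false 11 103 107 13 31851 12252240) (.nr 553 55110 (.lg 2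
  false 11 97 103 13 9472 942480) .out)))) (.nx 559 1292 (.lg 0 false 5 89 97 11 0 85680) .out))
  (.nx 571 205 (.lg 0 false 11 83 83 13 0 188496) .out))) (.nr 583 183 (.lg 0 true 11 89 89 13 0
  188496) .out)) (.nr 625 21 (.nx 595 2642247 (.lg 0 true 11 79 79 11 0 188496) (.lg 0 true 30 83
  83 11 0 85680)) .out)) .out) .out) (.nx 717 10568985 (.nr 716 1482912 (.nx 687 1321124 (.nx 631
  120 (.nx 630 119 (.nr 629 46 (.lg 0 true 1 37 37 9 0 85680) (.l1 .sk)) (.l1 .sk)) (.nr 675 65537
  (.nx 644 23170 (.lg 0 false 13 101 103 16 0 1113840) (.nr 657 422 (.lg 0 true 13 89 89 16 0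
  556920) (.nx 674 262145 (.nx 665 52017 (.nx 661 34716 (.lg 1 false 4 97 101 13 20065 85680) (.lg
  1 true 4 97 101 13 13392 85680)) (.nr 673 38969 (.nr 669 3130 (.lg 2 true 4 97 97 13 36962 85680)
  (.lg 2 false 4 97 101 13 5321 85680)) .out)) .out))) (.nx 686 205 (.lg 0 false 11 83 83 16 0
  471240) .out))) (.nr 715 24 (.lg 0 true 28 83 83 16 0 85680) .out)) .out) .out)))) (.na 863 8
  (.na 772 7 (.nx 771 1321124 (.nr 770 220437 (.nx 720 119 (.nr 719 53 (.lg 0 true 1 31 31 7 0
  17136) (.l1 .sk)) (.nx 721 120 (.l1 .sk) (.nr 764 55110 (.nx 734 20289 (.lg 0 false 13 97 101 19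
  0 1113840) (.nr 747 501 (.lg 0 true 13 89 89 19 0 222768) (.nx 763 416129 (.nr 750 1905 (.lg 2
  true 3 89 89 13 49421 85680) (.lg 2 false 13 97 103 19 19275 1113840)) .out))) (.nx 769 1292 (.lg
  0 false 5 89 89 13 0 85680) .out)))) .out) .out) (.nx 862 10568985 (.nr 861 262145 (.nx 775 120
  (.nx 774 119 (.nr 773 61 (.lg 0 true 1 31 31 9 0 85680) (.l1 .sk)) (.l1 .sk)) (.nr 856 65537 (.nx
  811 660563 (.nx 786 15169 (.lg 0 false 11 97 97 16 0 942480) (.nr 799 596 (.lg 0 true 13 79 79 16
  0 111384) (.nx 810 262145 (.lg 2 false 11 97 101 16 30648 942480) .out))) (.nr 855 109 (.lg 0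
  true 44 79 79 16 0 188496) .out)) (.nx 860 408 (.lg 0 true 4 73 73 11 0 85680) .out))) .out)
  .out)) (.na 932 9 (.nx 931 10568985 (.nr 930 623489 (.nx 865 119 (.nr 864 69 (.lg 0 true 1 41 41
  11 0 85680) (.l1 .sk)) (.nx 866 120 (.l1 .sk) (.nr 926 220437 (.nx 897 660563 (.nx 881 20395 (.nr
  877 77937 (.lg 0 false 11 97 101 19 0 942480) (.nx 880 814 (.lg 0 false 3 89 97 13 0 85680)
  .out)) (.nr 896 65537 (.nr 886 364 (.lg 0 true 5 89 89 13 0 85680) (.nx 895 208065 (.nx 889 41287
  (.lg 1 false 3 101 107 13 22795 1113840) (.nr 894 46342 (.nr 891 2504 (.lg 2 true 2 97 97 11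
  34011 85680) (.lg 2 false 3 97 103 13 7968 85680)) .out)) .out)) .out)) (.nr 925 109 (.nx 902
  1321124 (.lg 0 true 5 79 83 13 0 85680) (.nr 924 55 (.lg 0 true 22 89 97 13 0 942480) .out))
  .out)) (.nx 929 408 (.lg 0 false 3 89 89 13 0 17136) .out)))) .out) .out) (.na 995 10 (.nx 994
  10568985 (.nr 993 623489 (.nx 970 1321124 (.nx 952 26009 (.nx 934 119 (.nr 933 77 (.lg 0 false 1
  31 31 7 0 85680) (.l1 .sk)) (.nx 935 120 (.l1 .sk) (.nr 946 77937 (.lg 0 false 11 97 101 16 0
  942480) (.nx 951 814 (.lg 0 false 5 83 83 16 0 42840) .out)))) (.nr 969 55110 (.nr 963 364 (.lg 0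
  true 11 83 83 16 0 94248) (.nx 968 165142 (.nr 964 709 (.lg 2 false 1 73 73 7 26995 8568) (.lg 2
  false 4 97 101 16 15036 85680)) .out)) .out)) (.nr 992 65 (.lg 0 true 22 83 83 16 0 188496)
  .out)) .out) .out) (.nx 1037 1321124 (.nr 1036 623489 (.nx 998 120 (.nx 997 119 (.nr 996 93 (.lg
  0 true 1 31 31 11 0 85680) (.l1 .sk)) (.l1 .sk)) (.nr 1029 77937 (.nx 1011 26009 (.lg 0 false 13
  89 101 19 0 1113840) (.nr 1028 46342 (.nr 1024 766 (.nx 1017 330282 (.lg 0 true 6 83 83 13 0
  85680) (.nr 1023 65 (.lg 0 true 6 73 73 13 0 85680) .out)) (.nx 1027 165142 (.lg 2 false 3 97 101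
  13 12828 85680) .out)) .out)) (.nx 1035 814 (.lg 0 false 6 83 89 13 0 85680) .out))) .out)
  .out)))))

theorem c52 :
    OkQ ckI L8 156 1 12 0 34359738368 1 1099511627776 ∧
    OkQ ckI L6 119 1 12 0 34359738368 1 1099511627776 := by
  refine ⟨?_, ?_⟩
  · refine fin 312 1283 T52_0 ?_
    refine jn 7 (by decide +kernel) ?_
    refine jn 12 (by decide +kernel) ?_
    refine jn 16 (by decide +kernel) ?_
    refine jn 22 (by decide +kernel) ?_
    refine jn 26 (by decide +kernel) ?_
    refine jn 31 (by decide +kernel) ?_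
    refine jn 37 (by decide +kernel) ?_
    refine jn 42 (by decide +kernel) ?_
    refine jn 47 (by decide +kernel) ?_
    refine jn 53 (by decide +kernel) ?_
    refine jn 58 (by decide +kernel) ?_
    refine jn 64 (by decide +kernel) ?_
    refine jn 68 (by decide +kernel) ?_
    refine jn 72 (by decide +kernel) ?_
    refine jn 78 (by decide +kernel) ?_
    refine jn 101 (by decide +kernel) ?_
    refine jn 109 (by decide +kernel) ?_
    refine jn 115 (by decide +kernel) ?_
    refine jn 122 (by decide +kernel) ?_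
    refine jn 129 (by decide +kernel) ?_
    refine jn 135 (by decide +kernel) ?_
    refine jn 137 (by decide +kernel) ?_
    refine jn 157 (by decide +kernel) ?_
    refine jn 176 (by decide +kernel) ?_
    refine jn 184 (by decide +kernel) ?_
    refine jn 211 (by decide +kernel) ?_
    refine jn 230 (by decide +kernel) ?_
    refine jn 251 (by decide +kernel) ?_
    refine jn 272 (by decide +kernel) ?_
    refine jn 286 (by decide +kernel) ?_
    refine jn 302 (by decide +kernel) ?_
    refine jn 307 (by decide +kernel) ?_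
    refine jn 312 (by decide +kernel) ?_
    refine jn 318 (by decide +kernel) ?_
    refine jn 323 (by decide +kernel) ?_
    refine jn 328 (by decide +kernel) ?_
    refine jn 335 (by decide +kernel) ?_
    refine jn 343 (by decide +kernel) ?_
    refine jn 352 (by decide +kernel) ?_
    refine jn 364 (by decide +kernel) ?_
    refine jn 375 (by decide +kernel) ?_
    refine jn 397 (by decide +kernel) ?_
    refine jn 418 (by decide +kernel) ?_
    refine jn 425 (by decide +kernel) ?_
    refine jn 447 (by decide +kernel) ?_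
    refine jn 478 (by decide +kernel) ?_
    refine jn 492 (by decide +kernel) ?_
    refine jn 500 (by decide +kernel) ?_
    refine jn 507 (by decide +kernel) ?_
    refine jn 515 (by decide +kernel) ?_
    refine jn 523 (by decide +kernel) ?_
    refine jn 533 (by decide +kernel) ?_
    refine jn 546 (by decide +kernel) ?_
    refine jn 564 (by decide +kernel) ?_
    refine jn 582 (by decide +kernel) ?_
    refine jn 631 (by decide +kernel) ?_
    refine jn 648 (by decide +kernel) ?_
    refine jn 654 (by decide +kernel) ?_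
    refine jn 655 (by decide +kernel) ?_
    refine jn 656 (by decide +kernel) ?_
    refine jn 657 (by decide +kernel) ?_
    refine jn 658 (by decide +kernel) ?_
    refine jn 659 (by decide +kernel) ?_
    refine jn 660 (by decide +kernel) ?_
    refine jn 661 (by decide +kernel) ?_
    refine jn 662 (by decide +kernel) ?_
    refine jn 663 (by decide +kernel) ?_
    refine jn 664 (by decide +kernel) ?_
    refine jn 665 (by decide +kernel) ?_
    refine jn 666 (by decide +kernel) ?_
    refine jn 667 (by decide +kernel) ?_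
    refine jn 668 (by decide +kernel) ?_
    refine jn 676 (by decide +kernel) ?_
    refine jn 678 (by decide +kernel) ?_
    refine jn 680 (by decide +kernel) ?_
    refine jn 682 (by decide +kernel) ?_
    refine jn 684 (by decide +kernel) ?_
    refine jn 686 (by decide +kernel) ?_
    refine jn 688 (by decide +kernel) ?_
    refine jn 690 (by decide +kernel) ?_
    refine jn 697 (by decide +kernel) ?_
    refine jn 704 (by decide +kernel) ?_
    refine jn 712 (by decide +kernel) ?_
    refine jn 719 (by decide +kernel) ?_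
    refine jn 726 (by decide +kernel) ?_
    refine jn 733 (by decide +kernel) ?_
    refine jn 741 (by decide +kernel) ?_
    refine jn 748 (by decide +kernel) ?_
    refine jn 756 (by decide +kernel) ?_
    refine jn 763 (by decide +kernel) ?_
    refine jn 793 (by decide +kernel) ?_
    refine jn 814 (by decide +kernel) ?_
    refine jn 826 (by decide +kernel) ?_
    refine jn 830 (by decide +kernel) ?_
    refine jn 832 (by decide +kernel) ?_
    refine jn 834 (by decide +kernel) ?_
    refine jn 836 (by decide +kernel) ?_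
    refine jn 838 (by decide +kernel) ?_
    refine jn 840 (by decide +kernel) ?_
    refine jn 842 (by decide +kernel) ?_
    refine jn 851 (by decide +kernel) ?_
    refine jn 854 (by decide +kernel) ?_
    refine jn 857 (by decide +kernel) ?_
    refine jn 860 (by decide +kernel) ?_
    refine jn 862 (by decide +kernel) ?_
    refine jn 863 (by decide +kernel) ?_
    refine jn 870 (by decide +kernel) ?_
    refine jn 880 (by decide +kernel) ?_
    refine jn 888 (by decide +kernel) ?_
    refine jn 895 (by decide +kernel) ?_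
    refine jn 902 (by decide +kernel) ?_
    refine jn 910 (by decide +kernel) ?_
    refine jn 919 (by decide +kernel) ?_
    refine jn 948 (by decide +kernel) ?_
    refine jn 962 (by decide +kernel) ?_
    refine jn 969 (by decide +kernel) ?_
    refine jn 978 (by decide +kernel) ?_
    refine jn 992 (by decide +kernel) ?_
    refine jn 1006 (by decide +kernel) ?_
    refine jn 1028 (by decide +kernel) ?_
    refine jn 1065 (by decide +kernel) ?_
    refine jn 1085 (by decide +kernel) ?_
    refine jn 1086 (by decide +kernel) ?_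
    refine jn 1087 (by decide +kernel) ?_
    refine jn 1088 (by decide +kernel) ?_
    refine jn 1090 (by decide +kernel) ?_
    refine jn 1091 (by decide +kernel) ?_
    refine jn 1099 (by decide +kernel) ?_
    refine jn 1105 (by decide +kernel) ?_
    refine jn 1108 (by decide +kernel) ?_
    refine jn 1109 (by decide +kernel) ?_
    refine jn 1116 (by decide +kernel) ?_
    refine jn 1128 (by decide +kernel) ?_
    refine jn 1135 (by decide +kernel) ?_
    refine jn 1145 (by decide +kernel) ?_
    refine jn 1174 (by decide +kernel) ?_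
    refine jn 1183 (by decide +kernel) ?_
    refine jn 1185 (by decide +kernel) ?_
    refine jn 1187 (by decide +kernel) ?_
    refine jn 1195 (by decide +kernel) ?_
    refine jn 1201 (by decide +kernel) ?_
    refine jn 1205 (by decide +kernel) ?_
    refine jn 1212 (by decide +kernel) ?_
    refine jn 1220 (by decide +kernel) ?_
    refine jn 1227 (by decide +kernel) ?_
    refine jn 1235 (by decide +kernel) ?_
    refine jn 1237 (by decide +kernel) ?_
    refine jn 1240 (by decide +kernel) ?_
    refine jn 1242 (by decide +kernel) ?_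
    refine jn 1246 (by decide +kernel) ?_
    refine jn 1249 (by decide +kernel) ?_
    refine jn 1256 (by decide +kernel) ?_
    refine jn 1264 (by decide +kernel) ?_
    refine jn 1271 (by decide +kernel) ?_
    exact je (by decide +kernel)
  · refine fin 8568 1038 T52_1 ?_
    refine jn 6 (by decide +kernel) ?_
    refine jn 10 (by decide +kernel) ?_
    refine jn 12 (by decide +kernel) ?_
    refine jn 14 (by decide +kernel) ?_
    refine jn 16 (by decide +kernel) ?_
    refine jn 18 (by decide +kernel) ?_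
    refine jn 21 (by decide +kernel) ?_
    refine jn 24 (by decide +kernel) ?_
    refine jn 27 (by decide +kernel) ?_
    refine jn 30 (by decide +kernel) ?_
    refine jn 34 (by decide +kernel) ?_
    refine jn 36 (by decide +kernel) ?_
    refine jn 38 (by decide +kernel) ?_
    refine jn 40 (by decide +kernel) ?_
    refine jn 43 (by decide +kernel) ?_
    refine jn 46 (by decide +kernel) ?_
    refine jn 50 (by decide +kernel) ?_
    refine jn 55 (by decide +kernel) ?_
    refine jn 62 (by decide +kernel) ?_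
    refine jn 67 (by decide +kernel) ?_
    refine jn 74 (by decide +kernel) ?_
    refine jn 79 (by decide +kernel) ?_
    refine jn 86 (by decide +kernel) ?_
    refine jn 91 (by decide +kernel) ?_
    refine jn 108 (by decide +kernel) ?_
    refine jn 123 (by decide +kernel) ?_
    refine jn 138 (by decide +kernel) ?_
    refine jn 159 (by decide +kernel) ?_
    refine jn 187 (by decide +kernel) ?_
    refine jn 213 (by decide +kernel) ?_
    refine jn 224 (by decide +kernel) ?_
    refine jn 226 (by decide +kernel) ?_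
    refine jn 229 (by decide +kernel) ?_
    refine jn 235 (by decide +kernel) ?_
    refine jn 237 (by decide +kernel) ?_
    refine jn 240 (by decide +kernel) ?_
    refine jn 248 (by decide +kernel) ?_
    refine jn 258 (by decide +kernel) ?_
    refine jn 268 (by decide +kernel) ?_
    refine jn 275 (by decide +kernel) ?_
    refine jn 286 (by decide +kernel) ?_
    refine jn 310 (by decide +kernel) ?_
    refine jn 342 (by decide +kernel) ?_
    refine jn 362 (by decide +kernel) ?_
    refine jn 368 (by decide +kernel) ?_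
    refine jn 369 (by decide +kernel) ?_
    refine jn 370 (by decide +kernel) ?_
    refine jn 371 (by decide +kernel) ?_
    refine jn 372 (by decide +kernel) ?_
    refine jn 373 (by decide +kernel) ?_
    refine jn 374 (by decide +kernel) ?_
    refine jn 375 (by decide +kernel) ?_
    refine jn 376 (by decide +kernel) ?_
    refine jn 377 (by decide +kernel) ?_
    refine jn 378 (by decide +kernel) ?_
    refine jn 379 (by decide +kernel) ?_
    refine jn 380 (by decide +kernel) ?_
    refine jn 381 (by decide +kernel) ?_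
    refine jn 392 (by decide +kernel) ?_
    refine jn 399 (by decide +kernel) ?_
    refine jn 400 (by decide +kernel) ?_
    refine jn 401 (by decide +kernel) ?_
    refine jn 402 (by decide +kernel) ?_
    refine jn 403 (by decide +kernel) ?_
    refine jn 404 (by decide +kernel) ?_
    refine jn 405 (by decide +kernel) ?_
    refine jn 406 (by decide +kernel) ?_
    refine jn 407 (by decide +kernel) ?_
    refine jn 408 (by decide +kernel) ?_
    refine jn 409 (by decide +kernel) ?_
    refine jn 411 (by decide +kernel) ?_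
    refine jn 412 (by decide +kernel) ?_
    refine jn 416 (by decide +kernel) ?_
    refine jn 420 (by decide +kernel) ?_
    refine jn 433 (by decide +kernel) ?_
    refine jn 445 (by decide +kernel) ?_
    refine jn 453 (by decide +kernel) ?_
    refine jn 458 (by decide +kernel) ?_
    refine jn 466 (by decide +kernel) ?_
    refine jn 473 (by decide +kernel) ?_
    refine jn 500 (by decide +kernel) ?_
    refine jn 506 (by decide +kernel) ?_
    refine jn 507 (by decide +kernel) ?_
    refine jn 508 (by decide +kernel) ?_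
    refine jn 509 (by decide +kernel) ?_
    refine jn 510 (by decide +kernel) ?_
    refine jn 511 (by decide +kernel) ?_
    refine jn 512 (by decide +kernel) ?_
    refine jn 513 (by decide +kernel) ?_
    refine jn 514 (by decide +kernel) ?_
    refine jn 515 (by decide +kernel) ?_
    refine jn 516 (by decide +kernel) ?_
    refine jn 517 (by decide +kernel) ?_
    refine jn 519 (by decide +kernel) ?_
    refine jn 521 (by decide +kernel) ?_
    refine jn 523 (by decide +kernel) ?_
    refine jn 525 (by decide +kernel) ?_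
    refine jn 527 (by decide +kernel) ?_
    refine jn 528 (by decide +kernel) ?_
    refine jn 531 (by decide +kernel) ?_
    refine jn 542 (by decide +kernel) ?_
    refine jn 551 (by decide +kernel) ?_
    refine jn 559 (by decide +kernel) ?_
    refine jn 571 (by decide +kernel) ?_
    refine jn 578 (by decide +kernel) ?_
    refine jn 583 (by decide +kernel) ?_
    refine jn 625 (by decide +kernel) ?_
    refine jn 631 (by decide +kernel) ?_
    refine jn 633 (by decide +kernel) ?_
    refine jn 634 (by decide +kernel) ?_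
    refine jn 635 (by decide +kernel) ?_
    refine jn 636 (by decide +kernel) ?_
    refine jn 637 (by decide +kernel) ?_
    refine jn 638 (by decide +kernel) ?_
    refine jn 639 (by decide +kernel) ?_
    refine jn 640 (by decide +kernel) ?_
    refine jn 641 (by decide +kernel) ?_
    refine jn 642 (by decide +kernel) ?_
    refine jn 644 (by decide +kernel) ?_
    refine jn 647 (by decide +kernel) ?_
    refine jn 650 (by decide +kernel) ?_
    refine jn 654 (by decide +kernel) ?_
    refine jn 657 (by decide +kernel) ?_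
    refine jn 665 (by decide +kernel) ?_
    refine jn 669 (by decide +kernel) ?_
    refine jn 673 (by decide +kernel) ?_
    refine jn 686 (by decide +kernel) ?_
    refine jn 715 (by decide +kernel) ?_
    refine jn 721 (by decide +kernel) ?_
    refine jn 723 (by decide +kernel) ?_
    refine jn 725 (by decide +kernel) ?_
    refine jn 727 (by decide +kernel) ?_
    refine jn 728 (by decide +kernel) ?_
    refine jn 730 (by decide +kernel) ?_
    refine jn 732 (by decide +kernel) ?_
    refine jn 734 (by decide +kernel) ?_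
    refine jn 737 (by decide +kernel) ?_
    refine jn 741 (by decide +kernel) ?_
    refine jn 745 (by decide +kernel) ?_
    refine jn 747 (by decide +kernel) ?_
    refine jn 750 (by decide +kernel) ?_
    refine jn 760 (by decide +kernel) ?_
    refine jn 769 (by decide +kernel) ?_
    refine jn 783 (by decide +kernel) ?_
    refine jn 786 (by decide +kernel) ?_
    refine jn 799 (by decide +kernel) ?_
    refine jn 855 (by decide +kernel) ?_
    refine jn 866 (by decide +kernel) ?_
    refine jn 867 (by decide +kernel) ?_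
    refine jn 868 (by decide +kernel) ?_
    refine jn 869 (by decide +kernel) ?_
    refine jn 870 (by decide +kernel) ?_
    refine jn 871 (by decide +kernel) ?_
    refine jn 872 (by decide +kernel) ?_
    refine jn 873 (by decide +kernel) ?_
    refine jn 874 (by decide +kernel) ?_
    refine jn 875 (by decide +kernel) ?_
    refine jn 876 (by decide +kernel) ?_
    refine jn 877 (by decide +kernel) ?_
    refine jn 881 (by decide +kernel) ?_
    refine jn 882 (by decide +kernel) ?_
    refine jn 883 (by decide +kernel) ?_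
    refine jn 884 (by decide +kernel) ?_
    refine jn 885 (by decide +kernel) ?_
    refine jn 886 (by decide +kernel) ?_
    refine jn 889 (by decide +kernel) ?_
    refine jn 890 (by decide +kernel) ?_
    refine jn 891 (by decide +kernel) ?_
    refine jn 893 (by decide +kernel) ?_
    refine jn 894 (by decide +kernel) ?_
    refine jn 899 (by decide +kernel) ?_
    refine jn 902 (by decide +kernel) ?_
    refine jn 905 (by decide +kernel) ?_
    refine jn 924 (by decide +kernel) ?_
    refine jn 933 (by decide +kernel) ?_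
    refine jn 937 (by decide +kernel) ?_
    refine jn 940 (by decide +kernel) ?_
    refine jn 943 (by decide +kernel) ?_
    refine jn 945 (by decide +kernel) ?_
    refine jn 951 (by decide +kernel) ?_
    refine jn 956 (by decide +kernel) ?_
    refine jn 961 (by decide +kernel) ?_
    refine jn 964 (by decide +kernel) ?_
    refine jn 968 (by decide +kernel) ?_
    refine jn 992 (by decide +kernel) ?_
    refine jn 1001 (by decide +kernel) ?_
    refine jn 1004 (by decide +kernel) ?_
    refine jn 1007 (by decide +kernel) ?_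
    refine jn 1010 (by decide +kernel) ?_
    refine jn 1011 (by decide +kernel) ?_
    refine jn 1015 (by decide +kernel) ?_
    refine jn 1017 (by decide +kernel) ?_
    refine jn 1023 (by decide +kernel) ?_
    refine jn 1028 (by decide +kernel) ?_
    exact je (by decide +kernel)

end Pool.Agent.MP_2339ce_nt.NR
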