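import Pool.Agent.MP_2339ce_nt.Q2.NC.L8
import Pool.Agent.MP_2339ce_nt.Q2.NC.L10
import Pool.Agent.MP_2339ce_nt.Q2.CkI

/-! Block NR: runs. -/

set_option autoImplicit false
set_option maxRecDepth 100000

noncomputable section

namespace Pool.Agent.MP_2339ce_nt.NR

open Q2.Top

def T53_0 : Ph :=
  (.na 466 15 (.na 279 11 (.na 165 10 (.nx 164 21137969 (.nr 163 1482912 (.nx 3 240 (.nx 2 239 (.nr
  1 109 (.lg 0 true 1 31 31 7 0 720) (.l1 .sk)) (.l1 .sk)) (.nx 127 2642247 (.nx 119 1321124 (.nr
  111 370729 (.nx 36 52015 (.nr 31 262145 (.lg 0 false 28 89 103 17 0 55440) (.nx 35 2582 (.lg 0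
  false 4 79 79 16 0 144) .out)) (.nr 60 19534 (.nr 49 1227 (.lg 0 true 13 79 83 16 0 936) (.nr 56
  4896 (.lg 2 true 7 83 89 16 128667 5040) (.lg 2 true 4 83 89 16 32246 720))) (.nx 95 262145 (.nx
  88 185364 (.nx 81 131072 (.nr 80 311745 (.nx 73 96319 (.lg 1 false 13 97 103 16 171307 102960)
  (.lg 1 false 7 97 101 16 92510 55440)) .out) (.lg 1 false 7 101 103 16 80834 55440)) (.lg 1 true
  7 101 103 16 57159 55440)) (.nr 110 185365 (.nx 102 330282 (.lg 1 true 7 89 97 16 20222 5040)
  (.nr 109 110219 (.lg 2 false 7 83 97 16 9552 5040) .out)) .out)))) (.nx 118 814 (.lg 0 false 7 79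
  79 16 0 504) .out)) (.nr 126 154 (.lg 0 true 7 71 71 16 0 504) .out)) (.nr 162 65 (.lg 0 true 35
  73 79 16 0 2520) .out))) .out) .out) (.nx 278 2642247 (.nr 277 1246976 (.nx 269 1321124 (.nx 167
  239 (.nr 166 120 (.lg 0 true 1 31 31 11 0 720) (.l1 .sk)) (.nx 168 240 (.l1 .sk) (.nx 193 32768
  (.nr 181 220437 (.lg 0 false 13 101 103 19 0 720720) (.nx 192 1627 (.nr 184 370729 (.lg 0 false 3
  83 83 13 0 720) (.nx 191 814 (.lg 0 false 7 83 83 13 0 5040) .out)) .out)) (.nr 268 311745 (.nr
  209 4382 (.nr 206 1039 (.lg 0 true 13 83 89 19 0 9360) (.lg 2 true 3 89 89 13 151949 720)) (.nx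
  223 65536 (.nr 222 262145 (.lg 1 false 13 101 107 19 228697 720720) .out) (.nx 257 330282 (.nx
  236 131072 (.lg 1 false 13 101 107 19 135964 720720) (.nx 249 262145 (.lg 1 true 13 101 107 19
  67982 720720) (.nr 256 185365 (.lg 1 true 7 89 101 13 20222 55440) .out))) (.nr 267 110219 (.nr
  260 18481 (.lg 2 true 3 97 97 13 36028 5040) (.lg 2 false 7 89 97 13 9552 5040)) .out))))
  .out)))) (.nr 276 65 (.lg 0 true 7 71 71 13 0 5040) .out)) .out) .out)) (.na 374 12 (.nx 373
  2642247 (.nr 372 1246976 (.nx 281 239 (.nr 280 131 (.lg 0 false 1 37 37 9 0 7920) (.l1 .sk)) (.nx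
  282 240 (.l1 .sk) (.nx 283 324 (.l1 (.ls 89 37 4309)) (.nr 371 1048577 (.nx 363 1321124 (.nx 284
  408 (.l1 (.ls 83 41 5592)) (.nr 362 741457 (.nx 302 46340 (.nr 297 262145 (.lg 0 false 13 101 107
  16 0 720720) (.nx 301 1292 (.lg 0 false 4 83 83 16 0 1584) .out)) (.nr 361 311745 (.nr 317 18844
  (.nr 309 1101 (.lg 0 true 7 89 89 16 0 5544) (.nr 313 4556 (.lg 2 true 4 89 89 16 143392 1584)
  (.lg 2 true 4 89 97 16 34652 55440))) (.nx 325 65536 (.nr 324 262145 (.lg 1 false 7 101 103 16
  161716 720720) .out) (.nx 351 262145 (.nx 338 131072 (.lg 1 false 13 101 107 16 135964 720720)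
  (.lg 1 true 13 101 107 16 67982 720720)) (.nr 360 185365 (.nx 355 330282 (.lg 1 true 4 101 103 16
  20222 720720) (.nr 359 110219 (.lg 2 false 4 97 97 16 9552 55440) .out)) .out)))) .out)) .out))
  (.nr 370 65 (.lg 0 true 7 71 71 16 0 5544) .out)) .out)))) .out) .out) (.nx 465 2642247 (.nr 464
  1246976 (.nx 377 240 (.nx 376 239 (.nr 375 164 (.lg 0 true 1 41 41 13 0 720) (.l1 .sk)) (.l1
  .sk)) (.nx 456 660563 (.nr 452 741457 (.nx 392 41285 (.nr 384 220437 (.lg 0 false 7 103 107 23 0
  720720) (.nx 391 1627 (.lg 0 false 7 83 97 23 0 5040) .out)) (.nr 451 311745 (.nr 399 1207 (.lg 0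
  true 7 83 89 23 0 5040) (.nr 401 4572 (.lg 2 true 2 89 89 13 65400 720) (.nr 403 17311 (.lg 2
  true 2 89 89 13 17266 720) (.nx 448 330282 (.nx 432 165142 (.nx 418 82570 (.nr 417 262145 (.nx
  410 58385 (.lg 1 false 7 101 107 23 181517 720720) (.lg 1 false 7 101 107 23 128353 720720))
  .out) (.nx 425 116772 (.lg 1 false 7 101 107 23 107915 720720) (.lg 1 false 7 101 107 23 76307
  720720))) (.nr 447 262145 (.nx 439 208065 (.lg 1 false 7 97 103 23 45379 720720) (.nr 446 220437
  (.lg 1 true 7 101 107 23 30292 720720) .out)) .out)) (.nr 450 77937 (.lg 2 false 2 89 97 13 6761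
  720) .out))))) .out)) (.nx 455 408 (.lg 0 false 3 79 79 19 0 720) .out)) (.nr 463 65 (.lg 0 true
  7 73 73 23 0 1008) .out))) .out) .out))) (.na 626 17 (.na 549 16 (.nx 548 2642247 (.nr 547
  1246976 (.nx 469 240 (.nx 468 239 (.nr 467 175 (.lg 0 true 1 37 37 16 0 720) (.l1 .sk)) (.l1
  .sk)) (.nx 539 660563 (.nx 470 324 (.l1 (.ls 89 41 3161)) (.nr 538 1048577 (.nx 484 41285 (.nx
  471 408 (.l1 (.ls 83 41 4102)) (.nr 483 741457 (.nr 478 220437 (.lg 0 false 7 101 107 17 0
  720720) (.nx 482 1627 (.lg 0 false 4 83 89 17 0 720) .out)) .out)) (.nr 537 311745 (.nr 488 769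
  (.lg 0 true 4 79 79 17 0 720) (.nr 492 14897 (.nr 490 3386 (.lg 2 true 2 83 89 16 102650 720)
  (.lg 2 true 2 83 89 16 23313 720)) (.nx 534 330282 (.nx 529 262145 (.nx 507 82570 (.nr 506 262145
  (.nx 499 58385 (.lg 1 false 7 97 107 17 181517 720720) (.lg 1 false 7 97 107 17 128353 720720))
  .out) (.nx 514 116772 (.lg 1 false 7 97 107 17 107915 720720) (.nx 521 165142 (.lg 1 false 7 97
  107 17 76307 720720) (.nr 528 262145 (.lg 1 true 7 101 107 17 45379 720720) .out)))) (.nr 533
  185365 (.lg 1 true 4 101 103 17 20222 720720) .out)) (.nr 536 77937 (.lg 2 false 2 89 89 16 6761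
  720) .out)))) .out)) .out)) (.nr 546 65 (.lg 0 true 7 71 73 17 0 2520) .out))) .out) .out) (.nx
  625 2642247 (.nr 624 1246976 (.nr 550 5 .s1 (.nx 553 240 (.nx 552 239 (.nr 551 186 (.lg 0 true 1
  37 37 11 0 720) (.l1 .sk)) (.l1 .sk)) (.nx 556 408 (.nx 554 324 (.l1 (.ls 83 41 2964)) (.nr 555
  1048577 (.l1 (.ls 83 41 3846)) .out)) (.nr 623 741457 (.nr 619 311745 (.nx 611 660563 (.nx 567
  41285 (.nr 563 220437 (.lg 0 false 7 101 103 19 0 55440) (.nx 566 13005 (.lg 0 false 3 89 97 13 0
  720) .out)) (.nr 574 805 (.lg 0 true 7 73 79 19 0 1008) (.nx 589 116772 (.nx 582 82570 (.nr 581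
  262145 (.lg 1 false 7 101 107 19 181517 720720) .out) (.lg 1 false 7 97 103 19 107915 55440))
  (.nx 596 208065 (.lg 1 true 7 101 107 19 76307 720720) (.nr 610 220437 (.nr 599 15126 (.nr 598
  3491 (.lg 2 true 2 83 83 13 98059 720) (.lg 2 false 1 89 89 11 22612 720)) (.nx 606 330282 (.lg 1
  true 7 97 103 19 30292 55440) (.nr 609 92683 (.lg 2 false 3 83 89 13 8036 720) .out))) .out)))))
  (.nr 618 129 (.lg 0 true 7 71 73 19 0 1008) .out)) (.nx 622 1627 (.lg 0 false 3 83 83 13 0 720)
  .out)) .out)))) .out) .out)) (.na 683 18 (.nx 682 2642247 (.nr 681 1246976 (.nr 627 8 .s1 (.nx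
  630 240 (.nx 629 239 (.nr 628 197 (.lg 0 true 1 31 31 11 0 720) (.l1 .sk)) (.l1 .sk)) (.nx 631
  408 (.l1 (.ls 83 41 6406)) (.nr 680 741457 (.nr 675 311745 (.nx 667 660563 (.nr 662 220437 (.nx
  644 107330 (.lg 0 false 13 103 107 16 0 720720) (.nr 648 1726 (.lg 0 true 4 83 83 16 0 144) (.nx
  661 524289 (.lg 2 false 13 101 107 16 58723 720720) .out))) (.nx 666 13005 (.lg 0 false 4 89 89
  16 0 720) .out)) (.nr 674 129 (.lg 0 true 7 71 71 16 0 504) .out)) (.nx 679 1627 (.lg 0 false 4
  79 79 16 0 144) .out)) .out)))) .out) .out) (.nx 740 2642247 (.nr 739 1246976 (.nr 684 10 .s1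
  (.nx 687 240 (.nx 686 239 (.nr 685 219 (.lg 0 false 1 29 29 13 0 720) (.l1 .sk)) (.l1 .sk)) (.nx
  688 408 (.l1 (.ls 83 47 6051)) (.nr 738 741457 (.nr 732 311745 (.nr 728 220437 (.nx 701 107330
  (.lg 0 false 13 101 103 23 0 720720) (.nx 720 660563 (.nr 706 1726 (.lg 0 true 5 79 79 19 0 720)
  (.nx 719 524289 (.lg 2 false 13 97 103 23 58723 720720) .out)) (.nr 727 129 (.lg 0 true 7 71 71
  19 0 1008) .out))) (.nx 731 13005 (.lg 0 false 3 83 89 13 0 720) .out)) (.nx 737 1627 (.lg 0
  false 5 79 79 19 0 720) .out)) .out)))) .out) .out))))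

def T53_1 : Ph :=
  (.na 7602 5793 (.na 2892 1449 (.na 1436 725 (.na 800 512 (.nx 799 832257 (.nr 798 1482912 (.nr 1
  257 .s1 (.nx 258 177 (.nx 257 176 (.nr 256 4810 (.la (.ls 37 19 129)) (.l1 .sk)) (.l1 .sk)) (.nx
  286 205 (.lx (.lp 73 19 129)) (.nr 797 1048577 (.nr 541 32769 (.la (.lg 0 true 1 83 83 23 0))
  (.nx 796 10323 (.la (.lg 0 false 1 73 73 23 0)) .out)) .out)))) .out) .out) (.nx 1435 832257 (.nr
  1434 1482912 (.nr 801 512 .s1 (.nx 1006 205 (.nx 977 176 (.nr 976 6811 (.lx (.lp 37 19 182)) (.l1
  .sk)) (.nx 978 177 (.l1 .sk) (.lx (.lp 71 19 182)))) (.nr 1433 1048577 (.nr 1219 32769 (.la (.lg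
  0 true 1 73 73 29 0)) (.nx 1432 10323 (.la (.lg 0 false 1 71 71 29 0)) .out)) .out))) .out)
  .out)) (.na 2038 1024 (.nx 2037 10323 (.nr 2036 1048577 (.nr 1437 725 .s1 (.nx 1736 2049 (.la
  (.ls 71 41 5793)) (.nr 2035 16385 (.la (.lg 0 true 1 41 41 29 0)) .out))) .out) .out) (.nx 2891
  10323 (.nr 2890 1048577 (.nr 2039 1024 .s1 (.nx 2464 2582 (.la (.ls 67 41 6513)) (.nr 2889 16385
  (.la (.lg 0 false 1 37 37 31 0)) .out))) .out) .out))) (.na 4346 2897 (.na 3494 2048 (.nx 3493
  2582 (.nr 3492 524289 (.nr 2893 1449 .s1 (.la (.ls 59 37 4603))) .out) .out) (.nx 4345 3252 (.nr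
  4344 524289 (.nr 3495 2048 .s1 (.la (.ls 59 41 5166))) .out) .out)) (.na 5725 4096 (.nx 5724 2582
  (.nr 5723 262145 (.nr 4347 2897 .s1 (.nx 4524 177 (.nx 4523 176 (.nr 4522 38479 (.lx (.lp 37 31
  1025)) (.l1 .sk)) (.l1 .sk)) (.la (.ls 47 37 2293)))) .out) .out) (.nx 7601 2582 (.nr 7600 262145
  (.nr 5726 4096 .s1 (.nx 5903 177 (.nx 5902 176 (.nr 5901 54421 (.lx (.lp 41 31 1449)) (.l1 .sk))
  (.l1 .sk)) (.la (.ls 47 37 1622)))) .out) .out)))) (.na 12515 65536 (.na 10191 16384 (.na 8896
  8192 (.nx 8895 1292 (.nr 8894 65537 (.nr 7603 5793 .s1 (.lx (.lp 37 37 2049))) .out) .out) (.nx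
  10190 1292 (.nr 10189 131073 (.nr 8897 8192 .s1 (.nx 9101 205 (.lx (.lp 37 37 4097)) (.nr 10188
  65537 (.lx (.lp 37 41 4097)) .out))) .out) .out)) (.na 11487 32768 (.nx 11486 1292 (.nr 11485
  262145 (.nr 10192 16384 .s1 (.nx 10514 322 (.nx 10396 205 (.lx (.lp 16 41 8193)) (.nr 10513 65537
  (.lx (.lp 31 43 8193)) .out)) (.nr 11484 131073 (.lx (.lp 37 43 8193)) .out))) .out) .out) (.nx
  12514 1025 (.nr 12513 262145 (.nr 11488 32768 .s1 (.nx 11692 205 (.lx (.lp 16 0 16385)) (.nr
  12512 131073 (.lx (.lp 31 47 16385)) .out))) .out) .out))) (.na 13545 262144 (.na 13543 131072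
  (.nx 13542 1025 (.nr 13541 262145 (.nr 12516 65536 .s1 (.nx 12839 324 (.lx (.lp 29 47 32769))
  (.nr 13540 131073 (.lx (.lp 29 53 32769)) .out))) .out) .out) (.nx 13544 324 (.l1 .sk) .out))
  (.na 13547 524289 (.nx 13546 205 (.l1 .sk) .out) .out))))

theorem c53 :
    OkQ ckI L10 239 9 20 0 34359738368 1 1099511627776 ∧
    OkQ ckI L8 176 257 1099511627776 0 34359738368 1 1099511627776 := by
  refine ⟨?_, ?_⟩
  · refine fin 72 741 T53_0 ?_
    refine jn 7 (by decide +kernel) ?_
    refine jn 11 (by decide +kernel) ?_
    refine jn 15 (by decide +kernel) ?_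
    refine jn 20 (by decide +kernel) ?_
    refine jn 24 (by decide +kernel) ?_
    refine jn 28 (by decide +kernel) ?_
    refine jn 31 (by decide +kernel) ?_
    refine jn 40 (by decide +kernel) ?_
    refine jn 45 (by decide +kernel) ?_
    refine jn 49 (by decide +kernel) ?_
    refine jn 60 (by decide +kernel) ?_
    refine jn 73 (by decide +kernel) ?_
    refine jn 81 (by decide +kernel) ?_
    refine jn 88 (by decide +kernel) ?_
    refine jn 95 (by decide +kernel) ?_
    refine jn 109 (by decide +kernel) ?_
    refine jn 119 (by decide +kernel) ?_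
    refine jn 126 (by decide +kernel) ?_
    refine jn 162 (by decide +kernel) ?_
    refine jn 171 (by decide +kernel) ?_
    refine jn 175 (by decide +kernel) ?_
    refine jn 178 (by decide +kernel) ?_
    refine jn 181 (by decide +kernel) ?_
    refine jn 191 (by decide +kernel) ?_
    refine jn 199 (by decide +kernel) ?_
    refine jn 205 (by decide +kernel) ?_
    refine jn 209 (by decide +kernel) ?_
    refine jn 222 (by decide +kernel) ?_
    refine jn 234 (by decide +kernel) ?_
    refine jn 244 (by decide +kernel) ?_
    refine jn 249 (by decide +kernel) ?_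
    refine jn 260 (by decide +kernel) ?_
    refine jn 267 (by decide +kernel) ?_
    refine jn 276 (by decide +kernel) ?_
    refine jn 284 (by decide +kernel) ?_
    refine jn 288 (by decide +kernel) ?_
    refine jn 292 (by decide +kernel) ?_
    refine jn 296 (by decide +kernel) ?_
    refine jn 301 (by decide +kernel) ?_
    refine jn 308 (by decide +kernel) ?_
    refine jn 313 (by decide +kernel) ?_
    refine jn 324 (by decide +kernel) ?_
    refine jn 338 (by decide +kernel) ?_
    refine jn 351 (by decide +kernel) ?_
    refine jn 359 (by decide +kernel) ?_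
    refine jn 370 (by decide +kernel) ?_
    refine jn 377 (by decide +kernel) ?_
    refine jn 378 (by decide +kernel) ?_
    refine jn 379 (by decide +kernel) ?_
    refine jn 380 (by decide +kernel) ?_
    refine jn 381 (by decide +kernel) ?_
    refine jn 382 (by decide +kernel) ?_
    refine jn 383 (by decide +kernel) ?_
    refine jn 384 (by decide +kernel) ?_
    refine jn 391 (by decide +kernel) ?_
    refine jn 392 (by decide +kernel) ?_
    refine jn 393 (by decide +kernel) ?_
    refine jn 394 (by decide +kernel) ?_
    refine jn 395 (by decide +kernel) ?_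
    refine jn 396 (by decide +kernel) ?_
    refine jn 397 (by decide +kernel) ?_
    refine jn 398 (by decide +kernel) ?_
    refine jn 399 (by decide +kernel) ?_
    refine jn 401 (by decide +kernel) ?_
    refine jn 403 (by decide +kernel) ?_
    refine jn 409 (by decide +kernel) ?_
    refine jn 410 (by decide +kernel) ?_
    refine jn 416 (by decide +kernel) ?_
    refine jn 418 (by decide +kernel) ?_
    refine jn 423 (by decide +kernel) ?_
    refine jn 425 (by decide +kernel) ?_
    refine jn 430 (by decide +kernel) ?_
    refine jn 432 (by decide +kernel) ?_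
    refine jn 438 (by decide +kernel) ?_
    refine jn 439 (by decide +kernel) ?_
    refine jn 445 (by decide +kernel) ?_
    refine jn 450 (by decide +kernel) ?_
    refine jn 458 (by decide +kernel) ?_
    refine jn 463 (by decide +kernel) ?_
    refine jn 469 (by decide +kernel) ?_
    refine jn 470 (by decide +kernel) ?_
    refine jn 471 (by decide +kernel) ?_
    refine jn 472 (by decide +kernel) ?_
    refine jn 473 (by decide +kernel) ?_
    refine jn 474 (by decide +kernel) ?_
    refine jn 475 (by decide +kernel) ?_
    refine jn 476 (by decide +kernel) ?_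
    refine jn 477 (by decide +kernel) ?_
    refine jn 478 (by decide +kernel) ?_
    refine jn 482 (by decide +kernel) ?_
    refine jn 484 (by decide +kernel) ?_
    refine jn 485 (by decide +kernel) ?_
    refine jn 486 (by decide +kernel) ?_
    refine jn 487 (by decide +kernel) ?_
    refine jn 488 (by decide +kernel) ?_
    refine jn 490 (by decide +kernel) ?_
    refine jn 492 (by decide +kernel) ?_
    refine jn 498 (by decide +kernel) ?_
    refine jn 499 (by decide +kernel) ?_
    refine jn 505 (by decide +kernel) ?_
    refine jn 507 (by decide +kernel) ?_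
    refine jn 513 (by decide +kernel) ?_
    refine jn 514 (by decide +kernel) ?_
    refine jn 519 (by decide +kernel) ?_
    refine jn 521 (by decide +kernel) ?_
    refine jn 527 (by decide +kernel) ?_
    refine jn 533 (by decide +kernel) ?_
    refine jn 539 (by decide +kernel) ?_
    refine jn 542 (by decide +kernel) ?_
    refine jn 546 (by decide +kernel) ?_
    refine jn 553 (by decide +kernel) ?_
    refine jn 554 (by decide +kernel) ?_
    refine jn 556 (by decide +kernel) ?_
    refine jn 557 (by decide +kernel) ?_
    refine jn 558 (by decide +kernel) ?_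
    refine jn 559 (by decide +kernel) ?_
    refine jn 560 (by decide +kernel) ?_
    refine jn 561 (by decide +kernel) ?_
    refine jn 562 (by decide +kernel) ?_
    refine jn 563 (by decide +kernel) ?_
    refine jn 567 (by decide +kernel) ?_
    refine jn 568 (by decide +kernel) ?_
    refine jn 569 (by decide +kernel) ?_
    refine jn 571 (by decide +kernel) ?_
    refine jn 572 (by decide +kernel) ?_
    refine jn 573 (by decide +kernel) ?_
    refine jn 574 (by decide +kernel) ?_
    refine jn 579 (by decide +kernel) ?_
    refine jn 582 (by decide +kernel) ?_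
    refine jn 588 (by decide +kernel) ?_
    refine jn 589 (by decide +kernel) ?_
    refine jn 594 (by decide +kernel) ?_
    refine jn 596 (by decide +kernel) ?_
    refine jn 598 (by decide +kernel) ?_
    refine jn 599 (by decide +kernel) ?_
    refine jn 605 (by decide +kernel) ?_
    refine jn 606 (by decide +kernel) ?_
    refine jn 609 (by decide +kernel) ?_
    refine jn 614 (by decide +kernel) ?_
    refine jn 618 (by decide +kernel) ?_
    refine jn 628 (by decide +kernel) ?_
    refine jn 635 (by decide +kernel) ?_
    refine jn 640 (by decide +kernel) ?_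
    refine jn 644 (by decide +kernel) ?_
    refine jn 648 (by decide +kernel) ?_
    refine jn 660 (by decide +kernel) ?_
    refine jn 666 (by decide +kernel) ?_
    refine jn 674 (by decide +kernel) ?_
    refine jn 687 (by decide +kernel) ?_
    refine jn 692 (by decide +kernel) ?_
    refine jn 698 (by decide +kernel) ?_
    refine jn 701 (by decide +kernel) ?_
    refine jn 706 (by decide +kernel) ?_
    refine jn 718 (by decide +kernel) ?_
    refine jn 727 (by decide +kernel) ?_
    refine jn 737 (by decide +kernel) ?_
    exact je (by decide +kernel)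
  · refine fin 1584 13548 T53_1 ?_
    refine jn 20 (by decide +kernel) ?_
    refine jn 32 (by decide +kernel) ?_
    refine jn 44 (by decide +kernel) ?_
    refine jn 64 (by decide +kernel) ?_
    refine jn 65 (by decide +kernel) ?_
    refine jn 89 (by decide +kernel) ?_
    refine jn 104 (by decide +kernel) ?_
    refine jn 116 (by decide +kernel) ?_
    refine jn 142 (by decide +kernel) ?_
    refine jn 163 (by decide +kernel) ?_
    refine jn 188 (by decide +kernel) ?_
    refine jn 204 (by decide +kernel) ?_
    refine jn 216 (by decide +kernel) ?_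
    refine jn 224 (by decide +kernel) ?_
    refine jn 225 (by decide +kernel) ?_
    refine jn 256 (by decide +kernel) ?_
    refine jn 280 (by decide +kernel) ?_
    refine jn 293 (by decide +kernel) ?_
    refine jn 294 (by decide +kernel) ?_
    refine jn 296 (by decide +kernel) ?_
    refine jn 297 (by decide +kernel) ?_
    refine jn 299 (by decide +kernel) ?_
    refine jn 304 (by decide +kernel) ?_
    refine jn 305 (by decide +kernel) ?_
    refine jn 306 (by decide +kernel) ?_
    refine jn 311 (by decide +kernel) ?_
    refine jn 313 (by decide +kernel) ?_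
    refine jn 317 (by decide +kernel) ?_
    refine jn 318 (by decide +kernel) ?_
    refine jn 324 (by decide +kernel) ?_
    refine jn 325 (by decide +kernel) ?_
    refine jn 329 (by decide +kernel) ?_
    refine jn 330 (by decide +kernel) ?_
    refine jn 340 (by decide +kernel) ?_
    refine jn 346 (by decide +kernel) ?_
    refine jn 349 (by decide +kernel) ?_
    refine jn 350 (by decide +kernel) ?_
    refine jn 359 (by decide +kernel) ?_
    refine jn 362 (by decide +kernel) ?_
    refine jn 368 (by decide +kernel) ?_
    refine jn 374 (by decide +kernel) ?_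
    refine jn 375 (by decide +kernel) ?_
    refine jn 383 (by decide +kernel) ?_
    refine jn 385 (by decide +kernel) ?_
    refine jn 389 (by decide +kernel) ?_
    refine jn 391 (by decide +kernel) ?_
    refine jn 397 (by decide +kernel) ?_
    refine jn 398 (by decide +kernel) ?_
    refine jn 401 (by decide +kernel) ?_
    refine jn 404 (by decide +kernel) ?_
    refine jn 408 (by decide +kernel) ?_
    refine jn 417 (by decide +kernel) ?_
    refine jn 425 (by decide +kernel) ?_
    refine jn 427 (by decide +kernel) ?_
    refine jn 429 (by decide +kernel) ?_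
    refine jn 430 (by decide +kernel) ?_
    refine jn 434 (by decide +kernel) ?_
    refine jn 440 (by decide +kernel) ?_
    refine jn 443 (by decide +kernel) ?_
    refine jn 450 (by decide +kernel) ?_
    refine jn 453 (by decide +kernel) ?_
    refine jn 461 (by decide +kernel) ?_
    refine jn 462 (by decide +kernel) ?_
    refine jn 472 (by decide +kernel) ?_
    refine jn 473 (by decide +kernel) ?_
    refine jn 474 (by decide +kernel) ?_
    refine jn 478 (by decide +kernel) ?_
    refine jn 481 (by decide +kernel) ?_
    refine jn 489 (by decide +kernel) ?_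
    refine jn 492 (by decide +kernel) ?_
    refine jn 494 (by decide +kernel) ?_
    refine jn 496 (by decide +kernel) ?_
    refine jn 500 (by decide +kernel) ?_
    refine jn 506 (by decide +kernel) ?_
    refine jn 509 (by decide +kernel) ?_
    refine jn 510 (by decide +kernel) ?_
    refine jn 516 (by decide +kernel) ?_
    refine jn 524 (by decide +kernel) ?_
    refine jn 525 (by decide +kernel) ?_
    refine jn 528 (by decide +kernel) ?_
    refine jn 531 (by decide +kernel) ?_
    refine jn 541 (by decide +kernel) ?_
    refine jn 549 (by decide +kernel) ?_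
    refine jn 552 (by decide +kernel) ?_
    refine jn 554 (by decide +kernel) ?_
    refine jn 560 (by decide +kernel) ?_
    refine jn 561 (by decide +kernel) ?_
    refine jn 568 (by decide +kernel) ?_
    refine jn 572 (by decide +kernel) ?_
    refine jn 575 (by decide +kernel) ?_
    refine jn 580 (by decide +kernel) ?_
    refine jn 584 (by decide +kernel) ?_
    refine jn 593 (by decide +kernel) ?_
    refine jn 595 (by decide +kernel) ?_
    refine jn 601 (by decide +kernel) ?_
    refine jn 604 (by decide +kernel) ?_
    refine jn 605 (by decide +kernel) ?_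
    refine jn 615 (by decide +kernel) ?_
    refine jn 619 (by decide +kernel) ?_
    refine jn 629 (by decide +kernel) ?_
    refine jn 636 (by decide +kernel) ?_
    refine jn 639 (by decide +kernel) ?_
    refine jn 644 (by decide +kernel) ?_
    refine jn 646 (by decide +kernel) ?_
    refine jn 652 (by decide +kernel) ?_
    refine jn 654 (by decide +kernel) ?_
    refine jn 656 (by decide +kernel) ?_
    refine jn 659 (by decide +kernel) ?_
    refine jn 666 (by decide +kernel) ?_
    refine jn 673 (by decide +kernel) ?_
    refine jn 682 (by decide +kernel) ?_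
    refine jn 685 (by decide +kernel) ?_
    refine jn 691 (by decide +kernel) ?_
    refine jn 698 (by decide +kernel) ?_
    refine jn 707 (by decide +kernel) ?_
    refine jn 710 (by decide +kernel) ?_
    refine jn 717 (by decide +kernel) ?_
    refine jn 728 (by decide +kernel) ?_
    refine jn 729 (by decide +kernel) ?_
    refine jn 734 (by decide +kernel) ?_
    refine jn 744 (by decide +kernel) ?_
    refine jn 749 (by decide +kernel) ?_
    refine jn 754 (by decide +kernel) ?_
    refine jn 761 (by decide +kernel) ?_
    refine jn 764 (by decide +kernel) ?_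
    refine jn 765 (by decide +kernel) ?_
    refine jn 773 (by decide +kernel) ?_
    refine jn 780 (by decide +kernel) ?_
    refine jn 784 (by decide +kernel) ?_
    refine jn 793 (by decide +kernel) ?_
    refine jn 859 (by decide +kernel) ?_
    refine jn 948 (by decide +kernel) ?_
    refine jn 1009 (by decide +kernel) ?_
    refine jn 1022 (by decide +kernel) ?_
    refine jn 1023 (by decide +kernel) ?_
    refine jn 1025 (by decide +kernel) ?_
    refine jn 1030 (by decide +kernel) ?_
    refine jn 1032 (by decide +kernel) ?_
    refine jn 1034 (by decide +kernel) ?_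
    refine jn 1037 (by decide +kernel) ?_
    refine jn 1044 (by decide +kernel) ?_
    refine jn 1046 (by decide +kernel) ?_
    refine jn 1049 (by decide +kernel) ?_
    refine jn 1052 (by decide +kernel) ?_
    refine jn 1058 (by decide +kernel) ?_
    refine jn 1059 (by decide +kernel) ?_
    refine jn 1067 (by decide +kernel) ?_
    refine jn 1070 (by decide +kernel) ?_
    refine jn 1071 (by decide +kernel) ?_
    refine jn 1081 (by decide +kernel) ?_
    refine jn 1086 (by decide +kernel) ?_
    refine jn 1088 (by decide +kernel) ?_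
    refine jn 1094 (by decide +kernel) ?_
    refine jn 1097 (by decide +kernel) ?_
    refine jn 1112 (by decide +kernel) ?_
    refine jn 1114 (by decide +kernel) ?_
    refine jn 1115 (by decide +kernel) ?_
    refine jn 1120 (by decide +kernel) ?_
    refine jn 1128 (by decide +kernel) ?_
    refine jn 1130 (by decide +kernel) ?_
    refine jn 1133 (by decide +kernel) ?_
    refine jn 1141 (by decide +kernel) ?_
    refine jn 1146 (by decide +kernel) ?_
    refine jn 1154 (by decide +kernel) ?_
    refine jn 1156 (by decide +kernel) ?_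
    refine jn 1164 (by decide +kernel) ?_
    refine jn 1172 (by decide +kernel) ?_
    refine jn 1179 (by decide +kernel) ?_
    refine jn 1184 (by decide +kernel) ?_
    refine jn 1185 (by decide +kernel) ?_
    refine jn 1199 (by decide +kernel) ?_
    refine jn 1202 (by decide +kernel) ?_
    refine jn 1204 (by decide +kernel) ?_
    refine jn 1207 (by decide +kernel) ?_
    refine jn 1214 (by decide +kernel) ?_
    refine jn 1215 (by decide +kernel) ?_
    refine jn 1224 (by decide +kernel) ?_
    refine jn 1235 (by decide +kernel) ?_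
    refine jn 1237 (by decide +kernel) ?_
    refine jn 1243 (by decide +kernel) ?_
    refine jn 1247 (by decide +kernel) ?_
    refine jn 1255 (by decide +kernel) ?_
    refine jn 1259 (by decide +kernel) ?_
    refine jn 1262 (by decide +kernel) ?_
    refine jn 1265 (by decide +kernel) ?_
    refine jn 1271 (by decide +kernel) ?_
    refine jn 1273 (by decide +kernel) ?_
    refine jn 1283 (by decide +kernel) ?_
    refine jn 1284 (by decide +kernel) ?_
    refine jn 1294 (by decide +kernel) ?_
    refine jn 1299 (by decide +kernel) ?_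
    refine jn 1304 (by decide +kernel) ?_
    refine jn 1307 (by decide +kernel) ?_
    refine jn 1324 (by decide +kernel) ?_
    refine jn 1327 (by decide +kernel) ?_
    refine jn 1328 (by decide +kernel) ?_
    refine jn 1335 (by decide +kernel) ?_
    refine jn 1343 (by decide +kernel) ?_
    refine jn 1348 (by decide +kernel) ?_
    refine jn 1356 (by decide +kernel) ?_
    refine jn 1367 (by decide +kernel) ?_
    refine jn 1369 (by decide +kernel) ?_
    refine jn 1377 (by decide +kernel) ?_
    refine jn 1389 (by decide +kernel) ?_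
    refine jn 1394 (by decide +kernel) ?_
    refine jn 1398 (by decide +kernel) ?_
    refine jn 1412 (by decide +kernel) ?_
    refine jn 1415 (by decide +kernel) ?_
    refine jn 1417 (by decide +kernel) ?_
    refine jn 1423 (by decide +kernel) ?_
    refine jn 1427 (by decide +kernel) ?_
    refine jn 1428 (by decide +kernel) ?_
    refine jn 1452 (by decide +kernel) ?_
    refine jn 1465 (by decide +kernel) ?_
    refine jn 1488 (by decide +kernel) ?_
    refine jn 1509 (by decide +kernel) ?_
    refine jn 1526 (by decide +kernel) ?_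
    refine jn 1549 (by decide +kernel) ?_
    refine jn 1564 (by decide +kernel) ?_
    refine jn 1592 (by decide +kernel) ?_
    refine jn 1603 (by decide +kernel) ?_
    refine jn 1628 (by decide +kernel) ?_
    refine jn 1645 (by decide +kernel) ?_
    refine jn 1666 (by decide +kernel) ?_
    refine jn 1672 (by decide +kernel) ?_
    refine jn 1673 (by decide +kernel) ?_
    refine jn 1704 (by decide +kernel) ?_
    refine jn 1722 (by decide +kernel) ?_
    refine jn 1747 (by decide +kernel) ?_
    refine jn 1755 (by decide +kernel) ?_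
    refine jn 1763 (by decide +kernel) ?_
    refine jn 1775 (by decide +kernel) ?_
    refine jn 1789 (by decide +kernel) ?_
    refine jn 1806 (by decide +kernel) ?_
    refine jn 1812 (by decide +kernel) ?_
    refine jn 1825 (by decide +kernel) ?_
    refine jn 1839 (by decide +kernel) ?_
    refine jn 1853 (by decide +kernel) ?_
    refine jn 1863 (by decide +kernel) ?_
    refine jn 1877 (by decide +kernel) ?_
    refine jn 1896 (by decide +kernel) ?_
    refine jn 1902 (by decide +kernel) ?_
    refine jn 1915 (by decide +kernel) ?_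
    refine jn 1931 (by decide +kernel) ?_
    refine jn 1941 (by decide +kernel) ?_
    refine jn 1951 (by decide +kernel) ?_
    refine jn 1962 (by decide +kernel) ?_
    refine jn 1971 (by decide +kernel) ?_
    refine jn 1972 (by decide +kernel) ?_
    refine jn 1990 (by decide +kernel) ?_
    refine jn 2004 (by decide +kernel) ?_
    refine jn 2016 (by decide +kernel) ?_
    refine jn 2032 (by decide +kernel) ?_
    refine jn 2062 (by decide +kernel) ?_
    refine jn 2080 (by decide +kernel) ?_
    refine jn 2095 (by decide +kernel) ?_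
    refine jn 2118 (by decide +kernel) ?_
    refine jn 2131 (by decide +kernel) ?_
    refine jn 2151 (by decide +kernel) ?_
    refine jn 2169 (by decide +kernel) ?_
    refine jn 2199 (by decide +kernel) ?_
    refine jn 2215 (by decide +kernel) ?_
    refine jn 2236 (by decide +kernel) ?_
    refine jn 2258 (by decide +kernel) ?_
    refine jn 2283 (by decide +kernel) ?_
    refine jn 2309 (by decide +kernel) ?_
    refine jn 2335 (by decide +kernel) ?_
    refine jn 2351 (by decide +kernel) ?_
    refine jn 2379 (by decide +kernel) ?_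
    refine jn 2395 (by decide +kernel) ?_
    refine jn 2425 (by decide +kernel) ?_
    refine jn 2439 (by decide +kernel) ?_
    refine jn 2455 (by decide +kernel) ?_
    refine jn 2475 (by decide +kernel) ?_
    refine jn 2496 (by decide +kernel) ?_
    refine jn 2502 (by decide +kernel) ?_
    refine jn 2512 (by decide +kernel) ?_
    refine jn 2521 (by decide +kernel) ?_
    refine jn 2543 (by decide +kernel) ?_
    refine jn 2544 (by decide +kernel) ?_
    refine jn 2545 (by decide +kernel) ?_
    refine jn 2556 (by decide +kernel) ?_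
    refine jn 2570 (by decide +kernel) ?_
    refine jn 2587 (by decide +kernel) ?_
    refine jn 2606 (by decide +kernel) ?_
    refine jn 2624 (by decide +kernel) ?_
    refine jn 2640 (by decide +kernel) ?_
    refine jn 2643 (by decide +kernel) ?_
    refine jn 2673 (by decide +kernel) ?_
    refine jn 2680 (by decide +kernel) ?_
    refine jn 2695 (by decide +kernel) ?_
    refine jn 2708 (by decide +kernel) ?_
    refine jn 2722 (by decide +kernel) ?_
    refine jn 2739 (by decide +kernel) ?_
    refine jn 2760 (by decide +kernel) ?_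
    refine jn 2772 (by decide +kernel) ?_
    refine jn 2780 (by decide +kernel) ?_
    refine jn 2796 (by decide +kernel) ?_
    refine jn 2810 (by decide +kernel) ?_
    refine jn 2820 (by decide +kernel) ?_
    refine jn 2821 (by decide +kernel) ?_
    refine jn 2850 (by decide +kernel) ?_
    refine jn 2860 (by decide +kernel) ?_
    refine jn 2872 (by decide +kernel) ?_
    refine jn 2880 (by decide +kernel) ?_
    refine jn 2889 (by decide +kernel) ?_
    refine jn 2916 (by decide +kernel) ?_
    refine jn 2932 (by decide +kernel) ?_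
    refine jn 2948 (by decide +kernel) ?_
    refine jn 2976 (by decide +kernel) ?_
    refine jn 2999 (by decide +kernel) ?_
    refine jn 3031 (by decide +kernel) ?_
    refine jn 3046 (by decide +kernel) ?_
    refine jn 3073 (by decide +kernel) ?_
    refine jn 3100 (by decide +kernel) ?_
    refine jn 3136 (by decide +kernel) ?_
    refine jn 3162 (by decide +kernel) ?_
    refine jn 3183 (by decide +kernel) ?_
    refine jn 3214 (by decide +kernel) ?_
    refine jn 3228 (by decide +kernel) ?_
    refine jn 3255 (by decide +kernel) ?_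
    refine jn 3296 (by decide +kernel) ?_
    refine jn 3317 (by decide +kernel) ?_
    refine jn 3346 (by decide +kernel) ?_
    refine jn 3385 (by decide +kernel) ?_
    refine jn 3413 (by decide +kernel) ?_
    refine jn 3437 (by decide +kernel) ?_
    refine jn 3469 (by decide +kernel) ?_
    refine jn 3502 (by decide +kernel) ?_
    refine jn 3530 (by decide +kernel) ?_
    refine jn 3562 (by decide +kernel) ?_
    refine jn 3583 (by decide +kernel) ?_
    refine jn 3607 (by decide +kernel) ?_
    refine jn 3634 (by decide +kernel) ?_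
    refine jn 3658 (by decide +kernel) ?_
    refine jn 3684 (by decide +kernel) ?_
    refine jn 3714 (by decide +kernel) ?_
    refine jn 3745 (by decide +kernel) ?_
    refine jn 3779 (by decide +kernel) ?_
    refine jn 3807 (by decide +kernel) ?_
    refine jn 3833 (by decide +kernel) ?_
    refine jn 3863 (by decide +kernel) ?_
    refine jn 3913 (by decide +kernel) ?_
    refine jn 3928 (by decide +kernel) ?_
    refine jn 3961 (by decide +kernel) ?_
    refine jn 3991 (by decide +kernel) ?_
    refine jn 4019 (by decide +kernel) ?_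
    refine jn 4052 (by decide +kernel) ?_
    refine jn 4090 (by decide +kernel) ?_
    refine jn 4118 (by decide +kernel) ?_
    refine jn 4147 (by decide +kernel) ?_
    refine jn 4181 (by decide +kernel) ?_
    refine jn 4213 (by decide +kernel) ?_
    refine jn 4258 (by decide +kernel) ?_
    refine jn 4283 (by decide +kernel) ?_
    refine jn 4312 (by decide +kernel) ?_
    refine jn 4332 (by decide +kernel) ?_
    refine jn 4537 (by decide +kernel) ?_
    refine jn 4580 (by decide +kernel) ?_
    refine jn 4612 (by decide +kernel) ?_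
    refine jn 4642 (by decide +kernel) ?_
    refine jn 4690 (by decide +kernel) ?_
    refine jn 4729 (by decide +kernel) ?_
    refine jn 4774 (by decide +kernel) ?_
    refine jn 4813 (by decide +kernel) ?_
    refine jn 4848 (by decide +kernel) ?_
    refine jn 4892 (by decide +kernel) ?_
    refine jn 4937 (by decide +kernel) ?_
    refine jn 4979 (by decide +kernel) ?_
    refine jn 5026 (by decide +kernel) ?_
    refine jn 5068 (by decide +kernel) ?_
    refine jn 5114 (by decide +kernel) ?_
    refine jn 5157 (by decide +kernel) ?_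
    refine jn 5191 (by decide +kernel) ?_
    refine jn 5227 (by decide +kernel) ?_
    refine jn 5272 (by decide +kernel) ?_
    refine jn 5327 (by decide +kernel) ?_
    refine jn 5359 (by decide +kernel) ?_
    refine jn 5395 (by decide +kernel) ?_
    refine jn 5438 (by decide +kernel) ?_
    refine jn 5492 (by decide +kernel) ?_
    refine jn 5535 (by decide +kernel) ?_
    refine jn 5587 (by decide +kernel) ?_
    refine jn 5627 (by decide +kernel) ?_
    refine jn 5675 (by decide +kernel) ?_
    refine jn 5719 (by decide +kernel) ?_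
    refine jn 5908 (by decide +kernel) ?_
    refine jn 5947 (by decide +kernel) ?_
    refine jn 5997 (by decide +kernel) ?_
    refine jn 6047 (by decide +kernel) ?_
    refine jn 6080 (by decide +kernel) ?_
    refine jn 6127 (by decide +kernel) ?_
    refine jn 6178 (by decide +kernel) ?_
    refine jn 6223 (by decide +kernel) ?_
    refine jn 6257 (by decide +kernel) ?_
    refine jn 6307 (by decide +kernel) ?_
    refine jn 6351 (by decide +kernel) ?_
    refine jn 6400 (by decide +kernel) ?_
    refine jn 6452 (by decide +kernel) ?_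
    refine jn 6493 (by decide +kernel) ?_
    refine jn 6542 (by decide +kernel) ?_
    refine jn 6589 (by decide +kernel) ?_
    refine jn 6636 (by decide +kernel) ?_
    refine jn 6692 (by decide +kernel) ?_
    refine jn 6745 (by decide +kernel) ?_
    refine jn 6780 (by decide +kernel) ?_
    refine jn 6832 (by decide +kernel) ?_
    refine jn 6885 (by decide +kernel) ?_
    refine jn 6923 (by decide +kernel) ?_
    refine jn 6982 (by decide +kernel) ?_
    refine jn 7024 (by decide +kernel) ?_
    refine jn 7087 (by decide +kernel) ?_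
    refine jn 7123 (by decide +kernel) ?_
    refine jn 7167 (by decide +kernel) ?_
    refine jn 7220 (by decide +kernel) ?_
    refine jn 7272 (by decide +kernel) ?_
    refine jn 7325 (by decide +kernel) ?_
    refine jn 7369 (by decide +kernel) ?_
    refine jn 7426 (by decide +kernel) ?_
    refine jn 7472 (by decide +kernel) ?_
    refine jn 7528 (by decide +kernel) ?_
    refine jn 7573 (by decide +kernel) ?_
    refine jn 7838 (by decide +kernel) ?_
    refine jn 7978 (by decide +kernel) ?_
    refine jn 8048 (by decide +kernel) ?_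
    refine jn 8170 (by decide +kernel) ?_
    refine jn 8249 (by decide +kernel) ?_
    refine jn 8345 (by decide +kernel) ?_
    refine jn 8408 (by decide +kernel) ?_
    refine jn 8484 (by decide +kernel) ?_
    refine jn 8530 (by decide +kernel) ?_
    refine jn 8582 (by decide +kernel) ?_
    refine jn 8644 (by decide +kernel) ?_
    refine jn 8698 (by decide +kernel) ?_
    refine jn 8757 (by decide +kernel) ?_
    refine jn 8808 (by decide +kernel) ?_
    refine jn 8855 (by decide +kernel) ?_
    refine jn 9008 (by decide +kernel) ?_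
    refine jn 9164 (by decide +kernel) ?_
    refine jn 9250 (by decide +kernel) ?_
    refine jn 9302 (by decide +kernel) ?_
    refine jn 9342 (by decide +kernel) ?_
    refine jn 9419 (by decide +kernel) ?_
    refine jn 9470 (by decide +kernel) ?_
    refine jn 9544 (by decide +kernel) ?_
    refine jn 9604 (by decide +kernel) ?_
    refine jn 9660 (by decide +kernel) ?_
    refine jn 9720 (by decide +kernel) ?_
    refine jn 9770 (by decide +kernel) ?_
    refine jn 9793 (by decide +kernel) ?_
    refine jn 9836 (by decide +kernel) ?_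
    refine jn 9886 (by decide +kernel) ?_
    refine jn 9920 (by decide +kernel) ?_
    refine jn 9962 (by decide +kernel) ?_
    refine jn 9992 (by decide +kernel) ?_
    refine jn 10013 (by decide +kernel) ?_
    refine jn 10044 (by decide +kernel) ?_
    refine jn 10082 (by decide +kernel) ?_
    refine jn 10122 (by decide +kernel) ?_
    refine jn 10148 (by decide +kernel) ?_
    refine jn 10170 (by decide +kernel) ?_
    refine jn 10420 (by decide +kernel) ?_
    refine jn 10495 (by decide +kernel) ?_
    refine jn 10556 (by decide +kernel) ?_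
    refine jn 10617 (by decide +kernel) ?_
    refine jn 10698 (by decide +kernel) ?_
    refine jn 10784 (by decide +kernel) ?_
    refine jn 10865 (by decide +kernel) ?_
    refine jn 10920 (by decide +kernel) ?_
    refine jn 10988 (by decide +kernel) ?_
    refine jn 11028 (by decide +kernel) ?_
    refine jn 11097 (by decide +kernel) ?_
    refine jn 11148 (by decide +kernel) ?_
    refine jn 11204 (by decide +kernel) ?_
    refine jn 11256 (by decide +kernel) ?_
    refine jn 11274 (by decide +kernel) ?_
    refine jn 11326 (by decide +kernel) ?_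
    refine jn 11388 (by decide +kernel) ?_
    refine jn 11436 (by decide +kernel) ?_
    refine jn 11471 (by decide +kernel) ?_
    refine jn 11783 (by decide +kernel) ?_
    refine jn 11876 (by decide +kernel) ?_
    refine jn 11947 (by decide +kernel) ?_
    refine jn 12019 (by decide +kernel) ?_
    refine jn 12089 (by decide +kernel) ?_
    refine jn 12191 (by decide +kernel) ?_
    refine jn 12238 (by decide +kernel) ?_
    refine jn 12319 (by decide +kernel) ?_
    refine jn 12382 (by decide +kernel) ?_
    refine jn 12446 (by decide +kernel) ?_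
    refine jn 12511 (by decide +kernel) ?_
    refine jn 12869 (by decide +kernel) ?_
    refine jn 12959 (by decide +kernel) ?_
    refine jn 13047 (by decide +kernel) ?_
    refine jn 13110 (by decide +kernel) ?_
    refine jn 13176 (by decide +kernel) ?_
    refine jn 13246 (by decide +kernel) ?_
    refine jn 13385 (by decide +kernel) ?_
    refine jn 13485 (by decide +kernel) ?_
    exact je (by decide +kernel)

end Pool.Agent.MP_2339ce_nt.NR
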