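import Pool.Agent.MP_2339ce_nt.Q2.NC.L8
import Pool.Agent.MP_2339ce_nt.Q2.NC.L9
import Pool.Agent.MP_2339ce_nt.Q2.CkI

/-! Block NR: runs. -/

set_option autoImplicit false
set_option maxRecDepth 100000

noncomputable section

namespace Pool.Agent.MP_2339ce_nt.NR

open Q2.Top

def T64_0 : Ph :=
  (.na 664 179 (.na 424 95 (.na 251 53 (.na 142 40 (.na 84 31 (.na 39 25 (.nx 38 2097153 (.nr 37
  1048577 (.nr 1 19 .s1 (.nx 5 324 (.nx 3 184 (.nr 2 240 (.l1 (.ls 16 31 1474)) (.l1 .sk)) (.nx 4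
  185 (.l1 .sk) (.l1 (.ls 73 37 3079)))) (.nr 36 524289 (.nx 18 41287 (.lg 0 false 13 89 97 16 0
  71760) (.nr 35 110219 (.nr 27 647 (.lg 0 true 9 71 71 16 0 1656) (.nx 34 330282 (.lg 2 false 7 89
  89 16 46965 38640) .out)) .out)) .out))) .out) .out) (.nx 83 2097153 (.nr 82 1048577 (.nr 40 22
  .s1 (.nx 42 184 (.nr 41 298 (.l1 (.ls 29 29 1357)) (.l1 .sk)) (.nx 43 185 (.l1 .sk) (.nx 44 324
  (.l1 (.ls 79 37 2833)) (.nr 81 524289 (.nr 79 370729 (.nx 51 20644 (.lg 0 false 7 89 89 16 0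
  19320) (.nr 78 131073 (.nr 74 92683 (.nr 58 876 (.lg 0 true 7 79 79 16 0 19320) (.nx 73 330282
  (.nr 65 65537 (.lg 2 true 7 73 73 16 53893 19320) (.nx 72 262145 (.lg 0 true 7 97 101 16 0
  1275120) .out)) .out)) (.nx 77 52017 (.lg 0 false 3 89 89 16 0 182160) .out)) .out)) (.nx 80 1292
  (.lg 0 true 1 79 79 16 0 2760) .out)) .out))))) .out) .out)) (.na 117 32 (.nx 116 2097153 (.nr
  115 1048577 (.nr 85 28 .s1 (.nx 89 324 (.nx 87 184 (.nr 86 308 (.lg 0 true 1 29 29 13 0 5520)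
  (.l1 .sk)) (.nx 88 185 (.l1 .sk) (.l1 (.ls 79 29 2285)))) (.nr 114 524289 (.nx 96 20644 (.lg 0
  false 7 97 101 16 0 38640) (.nr 113 131073 (.nr 103 899 (.lg 0 true 7 79 79 16 0 3864) (.nx 112
  330282 (.nx 106 52017 (.lg 1 false 3 97 97 16 107633 16560) (.nr 111 92683 (.lg 2 false 5 83 89
  16 33800 5520) .out)) .out)) .out)) .out))) .out) .out) (.na 118 37 .ne (.nx 141 2097153 (.nr 140
  881745 (.nr 119 35 .s1 (.nx 122 185 (.nx 121 184 (.nr 120 384 (.l1 (.ls 17 23 918)) (.l1 .sk))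
  (.l1 .sk)) (.nx 131 26009 (.nx 123 324 (.l1 (.ls 79 29 1915)) (.nr 130 623489 (.lg 0 false 7 97
  101 16 0 38640) .out)) (.nr 139 77937 (.nr 136 384 (.lg 0 true 5 71 71 16 0 2760) (.nx 138 208065
  (.lg 2 true 2 97 97 16 50847 38640) .out)) .out)))) .out) .out)))) (.na 207 44 (.na 165 41 (.nx
  164 2097153 (.nr 163 881745 (.nr 143 38 .s1 (.nx 147 324 (.nx 145 184 (.nr 144 394 (.l1 (.ls 31
  37 849)) (.l1 .sk)) (.nx 146 185 (.l1 .sk) (.l1 (.ls 83 41 1771)))) (.nr 162 623489 (.nr 158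
  155873 (.nx 150 32769 (.lg 0 false 3 89 97 23 0 16560) (.nr 157 65537 (.nx 153 208065 (.nr 151
  1139 (.lg 0 false 1 73 73 19 0 5520) (.lg 2 false 2 89 97 19 33952 38640)) (.nr 156 257 (.lg 0
  true 3 73 73 23 0 16560) .out)) .out)) (.nx 161 13005 (.lg 0 false 3 97 101 23 0 16560) .out))
  .out))) .out) .out) (.na 186 43 (.nx 185 2097153 (.nr 184 881745 (.nr 166 39 .s1 (.nx 167 324
  (.l1 (.ls 79 31 2563)) (.nr 183 623489 (.nx 174 26009 (.lg 0 false 7 97 101 16 0 425040) (.nr 182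
  77937 (.nr 179 413 (.lg 0 true 5 71 71 16 0 2760) (.nx 181 208065 (.lg 2 true 2 97 97 16 50847
  60720) .out)) .out)) .out))) .out) .out) (.nx 206 2097153 (.nr 205 881745 (.nr 187 41 .s1 (.nx
  196 26009 (.nx 188 324 (.l1 (.ls 79 31 2444)) (.nr 195 623489 (.lg 0 false 7 97 101 16 0 115920)
  .out)) (.nr 204 77937 (.nr 201 423 (.lg 0 true 5 71 71 16 0 2760) (.nx 203 208065 (.lg 2 true 2
  97 97 16 50847 5520) .out)) .out))) .out) .out))) (.na 230 46 (.nx 229 2097153 (.nr 228 881745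
  (.nr 208 42 .s1 (.nx 212 324 (.nx 210 184 (.nr 209 442 (.l1 (.ls 31 37 772)) (.l1 .sk)) (.nx 211
  185 (.l1 .sk) (.l1 (.ls 83 41 1610)))) (.nr 227 623489 (.nx 219 32769 (.nr 215 155873 (.lg 0
  false 3 97 101 23 0 182160) (.nx 218 13005 (.lg 0 false 3 97 101 23 0 182160) .out)) (.nr 226
  65537 (.nx 222 208065 (.nr 220 1241 (.lg 0 false 1 79 79 19 0 60720) (.lg 2 false 2 97 97 23
  33952 425040)) (.nr 225 257 (.lg 0 true 3 73 73 23 0 36432) .out)) .out)) .out))) .out) .out)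
  (.na 231 47 .ne (.nx 250 2097153 (.nr 249 881745 (.nr 232 46 .s1 (.nx 245 208065 (.nx 233 324
  (.l1 (.ls 79 29 2236)) (.nr 244 741457 (.nx 240 32769 (.lg 0 false 7 97 97 16 0 3864) (.nr 243
  46342 (.lg 0 false 3 89 89 16 0 1656) .out)) .out)) (.nr 248 257 (.lg 0 true 3 71 71 16 0 1656)
  .out))) .out) .out))))) (.na 346 73 (.na 307 64 (.na 272 55 (.nx 271 2097153 (.nr 270 881745 (.nr
  252 52 .s1 (.nx 253 324 (.l1 (.ls 73 29 1983)) (.nr 269 741457 (.nx 260 26009 (.lg 0 false 7 89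
  97 16 0 38640) (.nr 268 65537 (.nr 265 529 (.lg 0 true 5 71 71 16 0 2760) (.nx 267 208065 (.lg 2
  true 2 89 89 16 42776 5520) .out)) .out)) .out))) .out) .out) (.na 292 61 (.nx 291 2097153 (.nr
  290 881745 (.nr 273 54 .s1 (.nx 284 32769 (.nx 275 184 (.nr 274 586 (.l1 (.ls 31 29 618)) (.l1
  .sk)) (.nx 276 185 (.l1 .sk) (.nx 277 324 (.l1 (.ls 79 31 1289)) (.nr 283 741457 (.nx 280 16385
  (.lg 0 false 3 97 101 19 0 182160) (.nr 282 155873 (.lg 0 false 2 83 89 17 0 60720) .out))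
  .out)))) (.nr 289 46342 (.nr 287 586 (.lg 0 true 3 73 73 19 0 91080) (.nx 288 208065 (.lg 2 true
  1 89 89 17 32666 60720) .out)) .out))) .out) .out) (.nx 306 2097153 (.nr 305 881745 (.nr 293 60
  .s1 (.nx 294 324 (.l1 (.ls 73 29 1723)) (.nr 304 741457 (.nx 297 26009 (.lg 0 false 3 97 97 16 0
  1656) (.nr 303 65537 (.nr 300 615 (.lg 0 true 3 71 71 16 0 1656) (.nx 302 208065 (.lg 2 false 2
  83 83 16 42776 1104) .out)) .out)) .out))) .out) .out))) (.na 308 67 .ne (.na 327 71 (.nx 326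
  2097153 (.nr 325 2097153 (.nr 309 66 .s1 (.nx 318 20644 (.nx 310 324 (.l1 (.ls 79 29 1569)) (.nr
  317 1048577 (.lg 0 false 7 89 97 17 0 38640) .out)) (.nr 324 65537 (.nr 321 513 (.lg 0 true 3 71
  71 16 0 1656) (.nx 323 131073 (.lg 2 false 2 83 83 16 53893 5520) .out)) .out))) .out) .out) (.nx
  345 2097153 (.nr 344 2097153 (.nr 328 70 .s1 (.nx 337 20644 (.nx 329 324 (.l1 (.ls 79 29 1481))
  (.nr 336 1048577 (.lg 0 false 7 89 89 17 0 38640) .out)) (.nr 343 65537 (.nr 340 513 (.lg 0 true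
  3 61 61 16 0 1656) (.nx 342 131073 (.lg 2 false 2 83 83 16 53893 5520) .out)) .out))) .out)
  .out)))) (.na 395 88 (.na 361 76 (.nx 360 2097153 (.nr 359 2097153 (.nr 347 72 .s1 (.nx 348 324
  (.l1 (.ls 71 29 1441)) (.nr 358 1048577 (.nx 351 20644 (.lg 0 false 3 89 89 16 0 1656) (.nr 357
  65537 (.nr 354 513 (.lg 0 true 3 61 61 16 0 1656) (.nx 356 131073 (.lg 2 false 2 83 83 16 53893
  5520) .out)) .out)) .out))) .out) .out) (.na 380 83 (.nx 379 2097153 (.nr 378 2097153 (.nr 362 75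
  .s1 (.nx 366 324 (.nx 364 184 (.nr 363 798 (.l1 (.ls 17 31 448)) (.l1 .sk)) (.nx 365 185 (.l1
  .sk) (.l1 (.ls 83 37 933)))) (.nr 377 1048577 (.nx 369 20644 (.lg 0 false 3 97 101 29 0 16560)
  (.nr 376 65537 (.nr 374 32769 (.nr 372 513 (.lg 0 true 3 73 73 29 0 3312) (.nx 373 131073 (.lg 2
  true 1 79 79 17 27022 1104) .out)) (.nx 375 32769 (.lg 0 false 1 73 73 17 0 1104) .out)) .out))
  .out))) .out) .out) (.nx 394 2097153 (.nr 393 2097153 (.nr 381 82 .s1 (.nx 386 20644 (.nx 382 324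
  (.l1 (.ls 73 29 1267)) (.nr 385 1048577 (.lg 0 false 3 89 89 16 0 1656) .out)) (.nr 392 65537
  (.nr 389 513 (.lg 0 true 3 61 61 16 0 1656) (.nx 391 131073 (.lg 2 false 2 79 79 16 53893 5520)
  .out)) .out))) .out) .out))) (.na 409 91 (.nx 408 2097153 (.nr 407 2097153 (.nr 396 87 .s1 (.nx
  397 324 (.l1 (.ls 83 41 1195)) (.nr 406 1048577 (.nx 400 20644 (.lg 0 false 3 97 97 29 0 182160)
  (.nr 405 65537 (.nr 403 513 (.lg 0 true 3 71 71 29 0 36432) (.nx 404 131073 (.lg 2 true 1 89 89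
  23 53893 60720) .out)) .out)) .out))) .out) .out) (.na 410 92 .ne (.nx 423 2097153 (.nr 422
  2097153 (.nr 411 91 .s1 (.nx 416 20644 (.nx 412 324 (.l1 (.ls 73 41 1144)) (.nr 415 1048577 (.lg
  0 false 3 83 83 19 0 3312) .out)) (.nr 421 65537 (.nr 419 513 (.lg 0 true 3 61 61 19 0 3312) (.nx
  420 131073 (.lg 2 true 1 79 79 17 53893 1104) .out)) .out))) .out) .out)))))) (.na 544 139 (.na
  502 124 (.na 463 109 (.na 437 100 (.nx 436 2097153 (.nr 435 2097153 (.nr 425 95 .s1 (.nx 430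
  20644 (.nx 426 324 (.l1 (.ls 83 31 1108)) (.nr 429 1048577 (.lg 0 false 3 97 101 17 0 16560)
  .out)) (.nr 434 65537 (.nr 432 513 (.lg 0 true 2 73 73 17 0 5520) (.nx 433 131073 (.lg 2 true 1
  89 89 17 53893 5520) .out)) .out))) .out) .out) (.na 450 107 (.nx 449 2097153 (.nr 448 2097153
  (.nr 438 100 .s1 (.nx 439 324 (.l1 (.ls 83 37 1052)) (.nr 447 1048577 (.nx 442 20644 (.lg 0 false
  3 89 97 29 0 16560) (.nr 446 65537 (.nr 444 513 (.lg 0 true 2 71 71 29 0 5520) (.nx 445 131073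
  (.lg 2 true 1 83 83 23 53893 5520) .out)) .out)) .out))) .out) .out) (.nx 462 2097153 (.nr 461
  2097153 (.nr 451 107 .s1 (.nx 456 20644 (.nx 452 324 (.l1 (.ls 73 23 984)) (.nr 455 1048577 (.lg
  0 false 3 83 83 16 0 1656) .out)) (.nr 460 65537 (.nr 458 513 (.lg 0 true 2 61 61 16 0 1104) (.nx
  459 131073 (.lg 2 true 1 79 79 16 53893 552) .out)) .out))) .out) .out))) (.na 476 115 (.nx 475
  2097153 (.nr 474 2097153 (.nr 464 109 .s1 (.nx 469 20644 (.nx 465 324 (.l1 (.ls 71 23 966)) (.nr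
  468 1048577 (.lg 0 false 3 83 83 16 0 1656) .out)) (.nr 473 65537 (.nr 471 513 (.lg 0 true 2 61
  61 16 0 1104) (.nx 472 131073 (.lg 2 true 1 73 73 16 53893 552) .out)) .out))) .out) .out) (.na
  489 121 (.nx 488 2097153 (.nr 487 2097153 (.nr 477 115 .s1 (.nx 482 20644 (.nx 478 324 (.l1 (.ls
  73 31 915)) (.nr 481 1048577 (.lg 0 false 3 79 79 17 0 8280) .out)) (.nr 486 65537 (.nr 484 513
  (.lg 0 true 2 61 61 17 0 5520) (.nx 485 131073 (.lg 2 true 1 79 79 16 53893 5520) .out)) .out)))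
  .out) .out) (.nx 501 2097153 (.nr 500 2097153 (.nr 490 121 .s1 (.nx 491 324 (.l1 (.ls 73 29 870))
  (.nr 499 1048577 (.nx 494 20644 (.lg 0 false 3 83 83 19 0 18216) (.nr 498 65537 (.nr 496 513 (.lg
  0 true 2 61 61 17 0 12144) (.nx 497 131073 (.lg 2 true 1 79 79 17 53893 6072) .out)) .out))
  .out))) .out) .out)))) (.na 541 128 (.na 515 125 (.nx 514 2097153 (.nr 513 2097153 (.nr 503 124
  .s1 (.nx 504 324 (.l1 (.ls 83 29 849)) (.nr 512 1048577 (.nx 507 20644 (.lg 0 false 3 97 101 29 0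
  182160) (.nr 511 65537 (.nr 509 513 (.lg 0 true 2 71 71 23 0 1104) (.nx 510 131073 (.lg 2 true 1
  83 83 19 53893 1104) .out)) .out)) .out))) .out) .out) (.na 528 127 (.nx 527 2097153 (.nr 526
  2097153 (.nr 516 125 .s1 (.nx 521 20644 (.nx 517 324 (.l1 (.ls 71 29 842)) (.nr 520 1048577 (.lg
  0 false 3 79 79 17 0 8280) .out)) (.nr 525 65537 (.nr 523 513 (.lg 0 true 2 59 59 17 0 5520) (.nx
  524 131073 (.lg 2 true 1 73 73 16 53893 5520) .out)) .out))) .out) .out) (.nx 540 2097153 (.nr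
  539 2097153 (.nr 529 127 .s1 (.nx 534 20644 (.nx 530 324 (.l1 (.ls 71 23 829)) (.nr 533 1048577
  (.lg 0 false 3 79 79 17 0 1656) .out)) (.nr 538 65537 (.nr 536 513 (.lg 0 true 2 59 59 16 0 1104)
  (.nx 537 131073 (.lg 2 true 1 73 73 16 53893 5520) .out)) .out))) .out) .out))) (.na 542 131 .ne
  (.na 543 137 (.lg 0 false 1 0 0 16 0 24) (.lg 0 false 1 0 0 16 0 24))))) (.na 610 157 (.na 571
  151 (.na 545 148 (.lg 0 false 1 0 0 16 0 24) (.na 558 149 (.nx 557 1048577 (.nr 556 1482912 (.nr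
  546 148 .s1 (.nx 554 131073 (.nx 548 184 (.nr 547 1432 (.l1 (.ls 29 23 231)) (.l1 .sk)) (.nx 549
  185 (.l1 .sk) (.nx 552 16385 (.lg 0 false 3 89 97 29 0 16560) (.nr 553 65537 (.lg 0 false 1 89 89
  23 0 5520) .out)))) (.nr 555 1025 (.lg 0 true 1 71 71 23 0 1104) .out))) .out) .out) (.nx 570
  1048577 (.nr 569 1482912 (.nr 559 149 .s1 (.nx 562 185 (.nx 561 184 (.nr 560 1451 (.l1 (.ls 16 17
  230)) (.l1 .sk)) (.l1 .sk)) (.nx 565 32769 (.lg 0 false 3 83 83 17 0 1656) (.nr 568 16385 (.nr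
  566 1025 (.lg 0 false 1 61 61 16 0 552) (.nx 567 131073 (.lg 2 true 1 53 53 16 11765 552) .out))
  .out)))) .out) .out))) (.na 584 152 (.nx 583 1048577 (.nr 582 1482912 (.nr 572 151 .s1 (.nx 578
  32769 (.nx 574 184 (.nr 573 1460 (.l1 (.ls 17 17 227)) (.l1 .sk)) (.nx 575 185 (.l1 .sk) (.lg 0
  false 3 83 83 17 0 1656))) (.nr 581 16385 (.nr 579 1025 (.lg 0 false 1 67 67 16 0 552) (.nx 580
  131073 (.lg 2 true 1 53 53 16 11765 552) .out)) .out))) .out) .out) (.na 597 155 (.nx 596 1048577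
  (.nr 595 1482912 (.nr 585 152 .s1 (.nx 591 16385 (.nx 587 184 (.nr 586 1489 (.l1 (.ls 17 29 225))
  (.l1 .sk)) (.nx 588 185 (.l1 .sk) (.lg 0 false 3 89 97 31 0 16560))) (.nr 594 65537 (.nx 592
  131073 (.lg 0 false 1 89 89 29 0 5520) (.nr 593 1025 (.lg 0 true 1 71 71 29 0 1104) .out))
  .out))) .out) .out) (.nx 609 1048577 (.nr 608 1482912 (.nr 598 155 .s1 (.nx 601 185 (.nx 600 184
  (.nr 599 1508 (.l1 (.ls 29 19 221)) (.l1 .sk)) (.l1 .sk)) (.nx 604 16385 (.lg 0 false 3 89 89 23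
  0 8280) (.nr 607 65537 (.nx 605 131073 (.lg 0 false 1 89 89 17 0 2760) (.nr 606 1025 (.lg 0 true
  1 71 71 17 0 2760) .out)) .out)))) .out) .out)))) (.na 637 167 (.na 623 163 (.nx 622 1048577 (.nr
  621 1482912 (.nr 611 157 .s1 (.nx 613 184 (.nr 612 1566 (.l1 (.ls 17 17 218)) (.l1 .sk)) (.nx 614
  185 (.l1 .sk) (.nx 617 32769 (.lg 0 false 3 83 83 17 0 1656) (.nr 620 16385 (.nr 618 1025 (.lg 0
  false 1 67 67 16 0 552) (.nx 619 131073 (.lg 2 true 1 53 53 16 11765 552) .out)) .out))))) .out)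
  .out) (.na 624 164 (.lg 0 false 1 0 0 16 0 24) (.nx 636 1048577 (.nr 635 1482912 (.nr 625 164 .s1
  (.nx 628 185 (.nx 627 184 (.nr 626 1604 (.l1 (.ls 29 23 209)) (.l1 .sk)) (.l1 .sk)) (.nx 631
  16385 (.lg 0 false 3 89 97 29 0 16560) (.nr 634 65537 (.nx 632 131073 (.lg 0 true 1 89 89 23 0
  1104) (.nr 633 1025 (.lg 0 true 1 71 71 23 0 1104) .out)) .out)))) .out) .out))) (.na 650 172
  (.nx 649 1048577 (.nr 648 1482912 (.nr 638 167 .s1 (.nx 640 184 (.nr 639 1652 (.l1 (.ls 16 17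
  205)) (.l1 .sk)) (.nx 641 185 (.l1 .sk) (.nx 644 32769 (.lg 0 false 3 79 79 17 0 1656) (.nr 647
  16385 (.nr 645 1025 (.lg 0 false 1 61 61 16 0 552) (.nx 646 131073 (.lg 2 false 1 47 47 16 11765
  552) .out)) .out))))) .out) .out) (.na 663 173 (.nx 662 1048577 (.nr 661 1482912 (.nr 651 172 .s1
  (.nx 659 131073 (.nx 653 184 (.nr 652 1662 (.l1 (.ls 19 23 199)) (.l1 .sk)) (.nx 654 185 (.l1
  .sk) (.nx 657 16385 (.lg 0 false 3 89 89 29 0 16560) (.nr 658 65537 (.lg 0 true 1 83 83 23 0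
  5520) .out)))) (.nr 660 1025 (.lg 0 true 1 67 67 23 0 1104) .out))) .out) .out) (.lg 0 false 1 0
  0 16 0 24))))))) (.na 870 244 (.na 754 209 (.na 716 191 (.na 679 184 (.na 665 181 (.lg 0 false 1
  0 0 16 0 24) (.na 678 182 (.nx 677 1048577 (.nr 676 1482912 (.nr 666 181 .s1 (.nx 669 185 (.nx
  668 184 (.nr 667 1749 (.l1 (.ls 16 17 190)) (.l1 .sk)) (.l1 .sk)) (.nx 672 32769 (.lg 0 false 3
  79 79 17 0 1656) (.nr 675 16385 (.nr 673 1025 (.lg 0 false 1 61 61 16 0 5520) (.nx 674 131073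
  (.lg 2 false 1 47 47 16 11765 552) .out)) .out)))) .out) .out) .ne)) (.na 692 185 (.nx 691
  1048577 (.nr 690 1048577 (.nr 680 184 .s1 (.nx 686 32769 (.nx 682 184 (.nr 681 1777 (.l1 (.ls 17
  29 186)) (.l1 .sk)) (.nx 683 185 (.l1 .sk) (.lg 0 false 3 83 83 29 0 3312))) (.nr 689 16385 (.nr
  687 1025 (.lg 0 false 1 61 61 19 0 1104) (.nx 688 131073 (.lg 2 true 1 53 53 19 11765 1104)
  .out)) .out))) .out) .out) (.na 704 188 (.nx 703 1048577 (.nr 702 1048577 (.nr 693 185 .s1 (.nx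
  700 131073 (.nx 695 184 (.nr 694 1806 (.l1 (.ls 19 19 186)) (.l1 .sk)) (.nx 696 185 (.l1 .sk)
  (.nr 697 65537 (.lg 0 true 1 83 83 19 0 2760) (.nx 699 16385 (.lg 0 false 2 83 83 19 0 5520)
  .out)))) (.nr 701 1025 (.lg 0 true 1 67 67 19 0 2760) .out))) .out) .out) (.nx 715 1048577 (.nr
  714 1048577 (.nr 705 188 .s1 (.nx 707 184 (.nr 706 1835 (.l1 (.ls 19 23 183)) (.l1 .sk)) (.nx 708
  185 (.l1 .sk) (.nx 712 131073 (.nr 709 65537 (.lg 0 false 1 83 83 23 0 5520) (.nx 711 16385 (.lg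
  0 false 2 83 83 29 0 5520) .out)) (.nr 713 1025 (.lg 0 true 1 67 67 23 0 1104) .out))))) .out)
  .out)))) (.na 731 199 (.na 717 193 (.lg 0 false 1 0 0 16 0 24) (.na 730 197 (.nx 729 1048577 (.nr
  728 1048577 (.nr 718 193 .s1 (.nx 720 184 (.nr 719 1893 (.l1 (.ls 16 17 178)) (.l1 .sk)) (.nx 721
  185 (.l1 .sk) (.nx 724 32769 (.lg 0 false 3 79 79 17 0 1656) (.nr 727 16385 (.nr 725 1025 (.lg 0
  false 1 61 61 16 0 5520) (.nx 726 131073 (.lg 2 true 1 47 47 16 11765 552) .out)) .out))))) .out)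
  .out) (.lg 0 false 1 0 0 16 0 24))) (.na 732 200 (.lg 0 false 1 0 0 16 0 24) (.na 743 205 (.nx
  742 1048577 (.nr 741 1048577 (.nr 733 200 .s1 (.nx 735 184 (.nr 734 1969 (.l1 (.ls 29 29 172))
  (.l1 .sk)) (.nx 736 185 (.l1 .sk) (.nr 739 65537 (.nx 737 131073 (.lg 0 false 1 83 83 29 0 5520)
  (.nr 738 1025 (.lg 0 true 1 67 67 29 0 5520) .out)) (.nx 740 16385 (.lg 0 false 1 83 83 29 0
  5520) .out))))) .out) .out) (.nx 753 1048577 (.nr 752 1048577 (.nr 744 205 .s1 (.nx 750 131073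
  (.nx 746 184 (.nr 745 2008 (.l1 (.ls 29 19 168)) (.l1 .sk)) (.nx 747 185 (.l1 .sk) (.nr 748 65537
  (.lg 0 true 1 83 83 19 0 2760) (.nx 749 16385 (.lg 0 false 1 83 83 19 0 2760) .out)))) (.nr 751
  1025 (.lg 0 true 1 67 67 19 0 2760) .out))) .out) .out))))) (.na 810 227 (.na 777 215 (.na 765
  211 (.nx 764 1048577 (.nr 763 1048577 (.nr 755 209 .s1 (.nx 758 185 (.nx 757 184 (.nr 756 2027
  (.l1 (.ls 17 17 164)) (.l1 .sk)) (.l1 .sk)) (.nr 761 65537 (.nx 759 131073 (.lg 0 false 1 83 83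
  17 0 6072) (.nr 760 1025 (.lg 0 true 1 67 67 17 0 6072) .out)) (.nx 762 16385 (.lg 0 false 1 83
  83 17 0 6072) .out)))) .out) .out) (.na 766 212 (.lg 0 false 1 0 0 16 0 24) (.nx 776 1048577 (.nr
  775 1048577 (.nr 767 212 .s1 (.nx 770 185 (.nx 769 184 (.nr 768 2065 (.l1 (.ls 29 23 162)) (.l1
  .sk)) (.l1 .sk)) (.nr 773 65537 (.nx 771 131073 (.lg 0 true 1 83 83 23 0 1104) (.nr 772 1025 (.lg
  0 true 1 67 67 23 0 1104) .out)) (.nx 774 16385 (.lg 0 false 1 89 89 23 0 1104) .out)))) .out)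
  .out))) (.na 788 220 (.nx 787 1048577 (.nr 786 1048577 (.nr 778 215 .s1 (.nx 784 131073 (.nx 780
  184 (.nr 779 2113 (.l1 (.ls 19 19 160)) (.l1 .sk)) (.nx 781 185 (.l1 .sk) (.nr 782 65537 (.lg 0
  true 1 83 83 19 0 2760) (.nx 783 16385 (.lg 0 false 1 83 83 19 0 2760) .out)))) (.nr 785 1025
  (.lg 0 true 1 67 67 19 0 2760) .out))) .out) .out) (.na 799 223 (.nx 798 1048577 (.nr 797 1048577
  (.nr 789 220 .s1 (.nx 791 184 (.nr 790 2142 (.l1 (.ls 37 31 156)) (.l1 .sk)) (.nx 792 185 (.l1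
  .sk) (.nx 795 131073 (.nr 793 65537 (.lg 0 true 1 89 89 37 0 60720) (.nx 794 16385 (.lg 0 false 1
  89 97 37 0 60720) .out)) (.nr 796 1025 (.lg 0 true 1 71 71 37 0 60720) .out))))) .out) .out) (.nx
  809 1048577 (.nr 808 1048577 (.nr 800 223 .s1 (.nx 806 32769 (.nx 802 184 (.nr 801 2181 (.l1 (.ls
  17 17 154)) (.l1 .sk)) (.nx 803 185 (.l1 .sk) (.lg 0 false 3 73 73 19 0 1656))) (.nr 807 16385
  (.lg 0 false 1 83 83 16 0 182160) .out))) .out) .out)))) (.na 845 235 (.na 823 229 (.nx 822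
  1048577 (.nr 821 1048577 (.nr 811 227 .s1 (.nx 814 185 (.nx 813 184 (.nr 812 2200 (.l1 (.ls 16 17
  152)) (.l1 .sk)) (.l1 .sk)) (.nx 817 32769 (.lg 0 false 3 73 73 19 0 1656) (.nr 820 16385 (.nr
  818 1025 (.lg 0 false 1 59 59 17 0 552) (.nx 819 131073 (.lg 2 true 1 47 47 17 11765 5520) .out))
  .out)))) .out) .out) (.na 834 233 (.nx 833 1048577 (.nr 832 1048577 (.nr 824 229 .s1 (.nx 827 185
  (.nx 826 184 (.nr 825 2238 (.l1 (.ls 16 17 150)) (.l1 .sk)) (.l1 .sk)) (.nx 830 32769 (.lg 0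
  false 3 73 73 19 0 1656) (.nr 831 16385 (.lg 0 false 1 79 79 17 0 5520) .out)))) .out) .out) (.nx
  844 1048577 (.nr 843 1048577 (.nr 835 233 .s1 (.nx 841 32769 (.nx 837 184 (.nr 836 2258 (.l1 (.ls
  16 17 148)) (.l1 .sk)) (.nx 838 185 (.l1 .sk) (.lg 0 false 3 73 73 19 0 1656))) (.nr 842 16385
  (.lg 0 false 1 79 79 17 0 5520) .out))) .out) .out))) (.na 856 239 (.nx 855 1048577 (.nr 854
  1048577 (.nr 846 235 .s1 (.nx 852 131073 (.nx 848 184 (.nr 847 2296 (.l1 (.ls 19 19 147)) (.l1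
  .sk)) (.nx 849 185 (.l1 .sk) (.nr 850 65537 (.lg 0 false 1 83 83 19 0 5520) (.nx 851 16385 (.lg 0
  false 1 83 83 19 0 2760) .out)))) (.nr 853 1025 (.lg 0 true 1 61 61 19 0 2760) .out))) .out)
  .out) (.na 869 241 (.nx 868 1048577 (.nr 867 1048577 (.nr 857 239 .s1 (.nx 863 32769 (.nx 859 184
  (.nr 858 2315 (.l1 (.ls 16 17 144)) (.l1 .sk)) (.nx 860 185 (.l1 .sk) (.lg 0 false 3 73 73 19 0
  1656))) (.nr 866 16385 (.nr 864 1025 (.lg 0 false 1 59 59 17 0 552) (.nx 865 131073 (.lg 2 false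
  1 43 43 17 11765 552) .out)) .out))) .out) .out) (.lg 0 false 1 0 0 16 0 24)))))) (.na 5469 2897
  (.na 1419 363 (.na 905 253 (.na 881 248 (.nx 880 1048577 (.nr 879 1048577 (.nr 871 244 .s1 (.nx
  873 184 (.nr 872 2382 (.l1 (.ls 19 23 141)) (.l1 .sk)) (.nx 874 185 (.l1 .sk) (.nx 877 131073
  (.nr 875 65537 (.lg 0 true 1 79 79 23 0 1104) (.nx 876 16385 (.lg 0 false 1 83 83 23 0 1104)
  .out)) (.nr 878 1025 (.lg 0 true 1 61 61 23 0 1104) .out))))) .out) .out) (.na 892 251 (.nx 891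
  1048577 (.nr 890 1048577 (.nr 882 248 .s1 (.nx 884 184 (.nr 883 2411 (.l1 (.ls 29 23 139)) (.l1
  .sk)) (.nx 885 185 (.l1 .sk) (.nr 888 65537 (.nx 886 131073 (.lg 0 false 1 83 83 23 0 5520) (.nr
  887 1025 (.lg 0 true 1 61 61 23 0 1104) .out)) (.nx 889 16385 (.lg 0 false 1 83 83 23 0 1104)
  .out))))) .out) .out) (.nx 904 1048577 (.nr 903 1048577 (.nr 893 251 .s1 (.nx 895 184 (.nr 894
  2430 (.l1 (.ls 16 17 137)) (.l1 .sk)) (.nx 896 185 (.l1 .sk) (.nx 899 32769 (.lg 0 false 3 73 73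
  19 0 1656) (.nr 902 16385 (.nr 900 1025 (.lg 0 false 1 59 59 17 0 552) (.nx 901 131073 (.lg 2
  true 1 43 43 17 11765 552) .out)) .out))))) .out) .out))) (.na 914 256 (.nx 913 1048577 (.nr 912
  1048577 (.nr 906 253 .s1 (.nx 910 32769 (.nx 908 184 (.nr 907 2459 (.l1 (.ls 17 19 136)) (.l1
  .sk)) (.nx 909 185 (.l1 .sk) (.lg 0 true 1 83 83 19 0 60720))) (.nr 911 16385 (.lg 0 false 1 79
  79 19 0 60720) .out))) .out) .out) (.na 915 257 .ne (.nx 1418 1048577 (.nr 1417 1482912 (.nr 916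
  257 .s1 (.nx 1096 257 (.nx 1023 184 (.nr 1022 3487 (.la (.ls 43 19 134)) (.l1 .sk)) (.nx 1024 185
  (.l1 .sk) (.lx (.lp 83 16 91)))) (.nr 1416 1048577 (.nx 1202 20644 (.la (.lg 0 false 1 73 73 23
  0)) (.nr 1415 32769 (.nr 1308 2049 (.la (.lg 0 true 1 61 61 23 0)) (.nx 1414 131073 (.la (.lg 2
  false 1 59 59 23 27022)) .out)) .out)) .out))) .out) .out)))) (.na 3161 1024 (.na 1871 512 (.nx
  1870 1048577 (.nr 1869 1482912 (.nr 1420 363 .s1 (.nx 1569 257 (.la (.ls 83 23 184)) (.nr 1868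
  1048577 (.nx 1718 20644 (.la (.lg 0 false 1 73 73 23 0)) (.nr 1867 32769 (.la (.lg 2 true 1 71 71
  23 265756)) .out)) .out))) .out) .out) (.na 2559 725 (.nx 2558 1048577 (.nr 2557 1482912 (.nr
  1872 512 .s1 (.nx 2057 185 (.nx 2056 184 (.nr 2055 6964 (.lx (.lp 43 19 182)) (.l1 .sk)) (.l1
  .sk)) (.nx 2343 20644 (.nx 2129 257 (.lx (.lp 79 19 182)) (.nr 2342 1048577 (.la (.lg 0 false 1
  67 67 29 0)) .out)) (.nr 2556 32769 (.la (.lg 2 true 1 61 61 29 188417)) .out)))) .out) .out)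
  (.nx 3160 13005 (.nr 3159 1048577 (.nr 2560 725 .s1 (.nx 2859 2049 (.la (.ls 67 41 5793)) (.nr
  3158 65537 (.la (.lg 0 false 1 47 47 29 0)) .out))) .out) .out))) (.na 4015 1449 (.nx 4014 13005
  (.nr 4013 1048577 (.nr 3162 1024 .s1 (.nx 3587 3252 (.la (.ls 61 41 10330)) (.nr 4012 32769 (.la
  (.lg 0 false 1 37 37 31 0)) .out))) .out) .out) (.na 4617 2048 (.nx 4616 8193 (.nr 4615 1048577
  (.nr 4016 1449 .s1 (.la (.ls 59 47 46328))) .out) .out) (.nx 5468 8193 (.nr 5467 1048577 (.nr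
  4618 2048 .s1 (.la (.ls 59 47 32779))) .out) .out))))) (.na 13921 32768 (.na 10036 8192 (.na 6856
  4096 (.nx 6855 3252 (.nr 6854 524289 (.nr 5470 2897 .s1 (.nx 5654 184 (.nr 5653 39341 (.lx (.lp
  47 31 1025)) (.l1 .sk)) (.nx 5655 185 (.l1 .sk) (.la (.ls 67 37 3641))))) .out) .out) (.na 8741
  5793 (.nx 8740 3252 (.nr 8739 524289 (.nr 6857 4096 .s1 (.nx 7041 184 (.nr 7040 55641 (.lx (.lp
  47 31 1449)) (.l1 .sk)) (.nx 7042 185 (.l1 .sk) (.la (.ls 61 37 2576))))) .out) .out) (.nx 10035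
  1292 (.nr 10034 262145 (.nr 8742 5793 .s1 (.nx 9555 814 (.lx (.lp 53 37 2049)) (.nr 10033 65537
  (.lx (.lp 43 37 2049)) .out))) .out) .out))) (.na 11332 11586 (.nx 11331 1292 (.nr 11330 262145
  (.nr 10037 8192 .s1 (.nx 10222 185 (.nx 10221 184 (.nr 10220 111281 (.lx (.lp 43 41 2897)) (.l1
  .sk)) (.l1 .sk)) (.nx 10851 814 (.lx (.lp 53 41 2897)) (.nr 11329 131073 (.lx (.lp 47 37 2897))
  .out)))) .out) .out) (.na 12626 16384 (.nx 12625 1292 (.nr 12624 131073 (.nr 11333 11586 .s1 (.lx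
  (.lp 43 41 4097))) .out) .out) (.nx 13920 1292 (.nr 13919 262145 (.nr 12627 16384 .s1 (.nx 12883
  257 (.lx (.lp 47 43 8193)) (.nr 13918 131073 (.lx (.lp 43 43 8193)) .out))) .out) .out)))) (.na
  17025 262144 (.na 15215 65536 (.nx 15214 1292 (.nr 15213 262145 (.nr 13922 32768 .s1 (.lx (.lp 43
  47 16385))) .out) .out) (.na 16510 131072 (.nx 16509 1292 (.nr 16508 524289 (.nr 15216 65536 .s1
  (.nx 15472 257 (.lx (.lp 16 0 32769)) (.nr 16507 262145 (.lx (.lp 41 53 32769)) .out))) .out)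
  .out) (.nx 17024 513 (.nr 17023 524289 (.nr 16511 131072 .s1 (.lx (.lp 41 53 65537))) .out)
  .out))) (.na 17540 524288 (.nx 17539 513 (.nr 17538 1048577 (.nr 17026 262144 .s1 (.lx (.lp 16 0
  131073))) .out) .out) (.na 17542 1048577 (.nx 17541 257 (.l1 .sk) .out) .out)))))))

def T64_1 : Ph :=
  (.na 887 138 (.na 540 78 (.na 307 49 (.na 179 38 (.na 89 28 (.na 34 26 (.nx 33 1664512 (.nr 32
  1048577 (.nr 1 21 .s1 (.nx 26 208065 (.nx 4 144 (.nx 3 143 (.nr 2 220 (.l1 (.ls 41 37 855)) (.l1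
  .sk)) (.l1 .sk)) (.nx 11 8193 (.nx 5 257 (.l1 (.ls 97 43 1891)) (.nr 10 311745 (.lg 0 false 5 97
  101 29 0 720720) .out)) (.nr 25 110219 (.nx 16 20644 (.lg 0 false 5 89 101 29 0 720720) (.nr 24
  77937 (.nr 18 1307 (.lg 0 true 2 83 83 23 0 20592) (.nx 23 165142 (.nx 19 41287 (.lg 1 false 1
  101 103 19 38673 144144) (.nr 22 65537 (.nx 20 65537 (.lg 1 true 1 97 101 19 16266 144144) (.nr
  21 55110 (.lg 2 false 1 101 101 19 9035 144144) .out)) .out)) .out)) .out)) .out))) (.nr 31 217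
  (.lg 0 true 5 73 83 29 0 102960) .out))) .out) .out) (.na 61 27 (.nx 60 1664512 (.nr 59 1048577
  (.nr 35 24 .s1 (.nx 36 257 (.l1 (.ls 79 43 2543)) (.nr 58 311745 (.nx 41 20644 (.lg 0 true 5 97
  97 11 0 720720) (.nr 57 77937 (.nr 51 513 (.lg 0 true 10 71 71 19 0 102960) (.nx 56 165142 (.lg 2
  true 5 89 89 11 38673 720720) .out)) .out)) .out))) .out) .out) (.nx 88 1664512 (.nr 87 1048577
  (.nr 62 25 .s1 (.nx 66 257 (.nx 64 143 (.nr 63 237 (.l1 (.ls 29 29 760)) (.l1 .sk)) (.nx 65 144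
  (.l1 .sk) (.l1 (.ls 83 31 1681)))) (.nr 86 311745 (.nx 73 20644 (.lg 0 false 7 97 101 17 0
  720720) (.nr 85 77937 (.nr 80 513 (.lg 0 true 7 73 73 17 0 72072) (.nx 84 165142 (.lg 2 false 4
  97 97 16 38673 102960) .out)) .out)) .out))) .out) .out))) (.na 138 33 (.na 115 32 (.nx 114
  1664512 (.nr 113 1048577 (.nr 90 26 .s1 (.nx 93 144 (.nx 92 143 (.nr 91 271 (.l1 (.ls 37 37 733))
  (.l1 .sk)) (.l1 .sk)) (.nx 102 20644 (.nx 94 257 (.l1 (.ls 97 41 1621)) (.nr 101 311745 (.nr 97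
  110219 (.lg 0 false 3 97 101 19 0 720720) (.nx 100 8193 (.lg 0 false 3 97 101 19 0 720720) .out))
  .out)) (.nr 112 77937 (.nx 108 208065 (.nr 103 1307 (.lg 0 false 1 89 89 13 0 720720) (.nx 107
  165142 (.nx 104 41287 (.lg 1 true 1 103 103 13 38673 720720) (.nr 106 65537 (.lg 2 false 2 97 101
  19 16266 720720) .out)) .out)) (.nr 111 217 (.lg 0 true 3 79 79 19 0 144144) .out)) .out))))
  .out) .out) (.nx 137 1664512 (.nr 136 1048577 (.nr 116 30 .s1 (.nx 118 143 (.nr 117 280 (.l1 (.ls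
  37 31 642)) (.l1 .sk)) (.nx 119 144 (.l1 .sk) (.nx 128 20644 (.nx 120 257 (.l1 (.ls 89 37 1419))
  (.nr 127 440873 (.nr 123 110219 (.lg 0 false 3 97 101 19 0 720720) (.nx 126 10323 (.lg 0 false 3
  101 103 19 0 720720) .out)) .out)) (.nr 135 77937 (.nr 131 513 (.lg 0 true 3 83 83 19 0 20592)
  (.nx 134 165142 (.lg 2 false 3 97 103 19 38673 720720) .out)) .out))))) .out) .out)) (.na 158 36
  (.nx 157 1664512 (.nr 156 881745 (.nr 139 31 .s1 (.nx 143 257 (.nx 141 143 (.nr 140 305 (.l1 (.ls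
  29 31 622)) (.l1 .sk)) (.nx 142 144 (.l1 .sk) (.l1 (.ls 83 37 1376)))) (.nr 155 440873 (.nx 147
  20644 (.lg 0 false 4 101 101 17 0 720720) (.nr 154 46342 (.nr 151 305 (.lg 0 true 4 73 73 17 0
  20592) (.nx 153 104033 (.lg 2 true 2 89 89 16 24389 20592) .out)) .out)) .out))) .out) .out) (.nx
  178 1664512 (.nr 177 881745 (.nr 159 34 .s1 (.nx 162 144 (.nx 161 143 (.nr 160 322 (.l1 (.ls 31
  37 571)) (.l1 .sk)) (.l1 .sk)) (.nx 169 20644 (.nx 163 257 (.l1 (.ls 83 41 1261)) (.nr 168 440873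
  (.lg 0 false 5 97 101 29 0 102960) .out)) (.nr 176 46342 (.nr 174 322 (.lg 0 true 5 73 73 29 0
  102960) (.nx 175 104033 (.lg 2 true 1 97 97 19 23101 20592) .out)) .out)))) .out) .out)))) (.na
  236 42 (.na 198 39 (.nx 197 1664512 (.nr 196 881745 (.nr 180 37 .s1 (.nx 181 257 (.l1 (.ls 89 41
  1741)) (.nr 195 440873 (.nx 186 20644 (.lg 0 false 5 101 101 17 0 102960) (.nr 194 46342 (.nr 191
  331 (.lg 0 true 5 73 73 17 0 102960) (.nx 193 104033 (.lg 2 true 2 89 89 13 23024 20592) .out))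
  .out)) .out))) .out) .out) (.na 217 41 (.nx 216 1664512 (.nr 215 881745 (.nr 199 38 .s1 (.nx 206
  20644 (.nx 200 257 (.l1 (.ls 79 37 1696)) (.nr 205 440873 (.lg 0 false 5 89 89 19 0 51480) .out))
  (.nr 214 46342 (.nr 211 348 (.lg 0 true 5 71 71 19 0 51480) (.nx 213 104033 (.lg 2 true 2 83 83
  17 23024 20592) .out)) .out))) .out) .out) (.nx 235 1664512 (.nr 234 881745 (.nr 218 40 .s1 (.nx
  225 20644 (.nx 219 257 (.l1 (.ls 79 29 1613)) (.nr 224 440873 (.lg 0 false 5 97 97 16 0 51480)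
  .out)) (.nr 233 46342 (.nr 230 356 (.lg 0 true 5 71 71 16 0 51480) (.nx 232 104033 (.lg 2 true 2
  89 89 16 23024 20592) .out)) .out))) .out) .out))) (.na 272 46 (.na 255 44 (.nx 254 1664512 (.nr
  253 881745 (.nr 237 41 .s1 (.nx 241 257 (.nx 239 143 (.nr 238 373 (.l1 (.ls 37 37 489)) (.l1
  .sk)) (.nx 240 144 (.l1 .sk) (.l1 (.ls 89 43 1081)))) (.nr 252 440873 (.nx 244 10323 (.lg 0 false
  3 97 101 29 0 720720) (.nr 251 110219 (.nr 247 257 (.lg 0 true 3 79 79 29 0 144144) (.nx 250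
  104033 (.nr 248 32769 (.lg 2 true 1 97 97 23 32600 144144) (.nx 249 26009 (.lg 0 true 1 101 101
  23 0 720720) .out)) .out)) .out)) .out))) .out) .out) (.nx 271 1664512 (.nr 270 881745 (.nr 256
  43 .s1 (.nx 257 257 (.l1 (.ls 79 41 1504)) (.nr 269 440873 (.nx 262 20644 (.lg 0 false 5 97 97 23
  0 720720) (.nr 268 46342 (.nr 265 257 (.lg 0 true 3 67 67 19 0 20592) (.nx 267 104033 (.lg 2 true
  2 83 83 19 28944 20592) .out)) .out)) .out))) .out) .out)) (.na 289 48 (.nx 288 1664512 (.nr 287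
  881745 (.nr 273 45 .s1 (.nx 274 257 (.l1 (.ls 83 41 1438)) (.nr 286 623489 (.nx 279 20644 (.lg 0
  false 5 101 101 19 0 102960) (.nr 285 46342 (.nr 282 257 (.lg 0 true 3 71 71 13 0 20592) (.nx 284
  104033 (.lg 2 true 2 89 89 13 28944 20592) .out)) .out)) .out))) .out) .out) (.nx 306 1664512
  (.nr 305 881745 (.nr 290 47 .s1 (.nx 302 104033 (.nx 299 26009 (.nx 297 13005 (.nx 292 143 (.nr
  291 415 (.l1 (.ls 41 31 429)) (.l1 .sk)) (.nx 293 144 (.l1 .sk) (.nx 294 257 (.l1 (.ls 89 37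
  947)) (.nr 296 623489 (.lg 0 false 2 101 103 29 0 102960) .out)))) (.nr 298 110219 (.lg 1 false 1
  97 101 23 86770 102960) .out)) (.nr 301 32769 (.nr 300 3687 (.lg 0 true 1 89 89 23 0 102960) (.lg
  2 false 1 89 89 23 12939 102960)) .out)) (.nr 304 257 (.lg 0 true 2 79 79 29 0 20592) .out)))
  .out) .out))))) (.na 428 64 (.na 358 54 (.na 325 52 (.nx 324 1664512 (.nr 323 881745 (.nr 308 48
  .s1 (.nx 315 20644 (.nx 309 257 (.l1 (.ls 79 31 1350)) (.nr 314 623489 (.lg 0 false 5 97 97 17 0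
  720720) .out)) (.nr 322 46342 (.nr 319 441 (.lg 0 true 4 71 71 16 0 144144) (.nx 321 104033 (.lg
  2 true 2 83 83 16 23024 144144) .out)) .out))) .out) .out) (.na 342 53 (.nx 341 1664512 (.nr 340
  881745 (.nr 326 51 .s1 (.nx 333 20644 (.nx 327 257 (.l1 (.ls 79 41 1273)) (.nr 332 623489 (.lg 0
  false 5 89 97 23 0 102960) .out)) (.nr 339 46342 (.nr 336 449 (.lg 0 true 3 71 71 23 0 20592)
  (.nx 338 104033 (.lg 2 false 2 79 79 19 23024 20592) .out)) .out))) .out) .out) (.nx 357 1664512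
  (.nr 356 881745 (.nr 343 52 .s1 (.nx 349 20644 (.nx 344 257 (.l1 (.ls 83 29 1249)) (.nr 348
  623489 (.lg 0 false 4 101 101 16 0 720720) .out)) (.nr 355 46342 (.nr 353 458 (.lg 0 true 4 73 73
  16 0 20592) (.nx 354 104033 (.lg 2 true 1 89 89 16 23024 10296) .out)) .out))) .out) .out))) (.na
  397 57 (.na 376 56 (.nx 375 1664512 (.nr 374 881745 (.nr 359 53 .s1 (.nx 360 257 (.l1 (.ls 79 41
  1226)) (.nr 373 623489 (.nx 365 20644 (.lg 0 false 5 97 97 23 0 720720) (.nr 372 46342 (.nr 369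
  475 (.lg 0 true 4 71 71 23 0 20592) (.nx 371 104033 (.lg 2 false 2 79 79 19 23024 20592) .out))
  .out)) .out))) .out) .out) (.nx 396 1664512 (.nr 395 881745 (.nr 377 55 .s1 (.nx 392 104033 (.nx
  381 257 (.nx 379 143 (.nr 378 483 (.l1 (.ls 41 31 368)) (.l1 .sk)) (.nx 380 144 (.l1 .sk) (.l1
  (.ls 89 37 812)))) (.nr 391 623489 (.nx 386 13005 (.lg 0 false 5 89 101 31 0 720720) (.nr 390
  110219 (.nx 387 26009 (.lg 1 false 1 97 97 23 86770 144144) (.nr 389 32769 (.nr 388 3978 (.lg 0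
  true 1 83 83 23 0 144144) (.lg 2 false 1 89 89 23 12939 144144)) .out)) .out)) .out)) (.nr 394
  257 (.lg 0 true 2 73 79 29 0 144144) .out))) .out) .out)) (.na 414 63 (.nx 413 1664512 (.nr 412
  881745 (.nr 398 56 .s1 (.nx 399 257 (.l1 (.ls 83 37 1161)) (.nr 411 623489 (.nx 403 13005 (.lg 0
  false 4 97 101 17 0 102960) (.nr 410 110219 (.nr 408 32769 (.nr 406 257 (.lg 0 true 3 73 73 17 0
  10296) (.nx 407 104033 (.lg 2 true 1 89 89 16 28944 10296) .out)) (.nx 409 26009 (.lg 0 true 1 97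
  97 16 0 102960) .out)) .out)) .out))) .out) .out) (.nx 427 1664512 (.nr 426 881745 (.nr 415 62
  .s1 (.nx 416 257 (.l1 (.ls 83 31 1051)) (.nr 425 623489 (.nx 420 20644 (.lg 0 false 4 97 101 23 0
  720720) (.nr 424 46342 (.nr 422 257 (.lg 0 true 2 73 73 19 0 144144) (.nx 423 104033 (.lg 2 true
  1 89 89 17 28944 72072) .out)) .out)) .out))) .out) .out)))) (.na 477 72 (.na 444 66 (.na 443 65
  (.nx 442 1664512 (.nr 441 881745 (.nr 429 63 .s1 (.nx 436 20644 (.nx 430 257 (.l1 (.ls 79 31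
  1035)) (.nr 435 623489 (.lg 0 false 5 89 97 23 0 102960) .out)) (.nr 440 46342 (.nr 438 513 (.lg
  0 true 2 73 73 19 0 20592) (.nx 439 104033 (.lg 2 true 1 83 83 17 23024 20592) .out)) .out)))
  .out) .out) .ne) (.na 461 69 (.nx 460 1664512 (.nr 459 524289 (.nr 445 65 .s1 (.nx 453 20644 (.nx
  447 143 (.nr 446 585 (.l1 (.ls 23 37 312)) (.l1 .sk)) (.nx 448 144 (.l1 .sk) (.lg 0 false 5 89 89
  31 0 102960))) (.nr 458 32769 (.nr 456 513 (.lg 0 true 3 67 67 29 0 20592) (.nx 457 104033 (.lg 2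
  true 1 79 79 23 16301 20592) .out)) .out))) .out) .out) (.nx 476 1664512 (.nr 475 524289 (.nr 462
  68 .s1 (.nx 470 20644 (.nx 464 143 (.nr 463 610 (.l1 (.ls 19 19 299)) (.l1 .sk)) (.nx 465 144
  (.l1 .sk) (.lg 0 false 5 89 101 19 0 102960))) (.nr 474 32769 (.nr 472 513 (.lg 0 true 2 73 73 17
  0 20592) (.nx 473 104033 (.lg 2 true 1 83 83 17 16301 20592) .out)) .out))) .out) .out))) (.na
  508 76 (.na 492 73 (.nx 491 1664512 (.nr 490 524289 (.nr 478 72 .s1 (.nx 480 143 (.nr 479 619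
  (.l1 (.ls 41 31 287)) (.l1 .sk)) (.nx 481 144 (.l1 .sk) (.nx 483 13005 (.lg 0 false 2 97 101 29 0
  720720) (.nr 489 65537 (.nr 487 32769 (.nx 484 104033 (.lg 0 false 1 97 97 29 0 720720) (.nr 486
  513 (.lg 0 true 2 79 83 29 0 20592) .out)) (.nx 488 20644 (.lg 0 false 1 83 89 29 0 720720)
  .out)) .out))))) .out) .out) (.nx 507 1664512 (.nr 506 524289 (.nr 493 73 .s1 (.nx 495 143 (.nr
  494 644 (.l1 (.ls 29 17 283)) (.l1 .sk)) (.nx 496 144 (.l1 .sk) (.nx 500 20644 (.lg 0 false 4 97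
  97 16 0 20592) (.nr 505 32769 (.nr 503 513 (.lg 0 true 3 67 67 16 0 10296) (.nx 504 104033 (.lg 2
  true 1 79 79 16 16301 10296) .out)) .out))))) .out) .out)) (.na 524 77 (.nx 523 1664512 (.nr 522
  524289 (.nr 509 76 .s1 (.nx 511 143 (.nr 510 653 (.l1 (.ls 17 29 272)) (.l1 .sk)) (.nx 512 144
  (.l1 .sk) (.nx 517 20644 (.lg 0 false 5 89 97 31 0 102960) (.nr 521 32769 (.nr 519 513 (.lg 0
  true 2 73 73 23 0 20592) (.nx 520 104033 (.lg 2 true 1 83 83 17 16301 20592) .out)) .out)))))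
  .out) .out) (.nx 539 1664512 (.nr 538 524289 (.nr 525 77 .s1 (.nx 527 143 (.nr 526 661 (.l1 (.ls
  29 23 268)) (.l1 .sk)) (.nx 528 144 (.l1 .sk) (.nx 532 20644 (.lg 0 false 4 89 89 19 0 720720)
  (.nr 537 32769 (.nr 535 513 (.lg 0 true 3 71 71 19 0 72072) (.nx 536 104033 (.lg 2 true 1 73 73
  17 16301 72072) .out)) .out))))) .out) .out)))))) (.na 743 108 (.na 644 92 (.na 587 83 (.na 555
  81 (.nx 554 1664512 (.nr 553 524289 (.nr 541 78 .s1 (.nx 544 144 (.nx 543 143 (.nr 542 687 (.l1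
  (.ls 29 37 265)) (.l1 .sk)) (.l1 .sk)) (.nx 547 20644 (.lg 0 false 3 89 89 29 0 102960) (.nr 552
  32769 (.nr 550 513 (.lg 0 true 3 67 67 29 0 20592) (.nx 551 104033 (.lg 2 true 1 73 73 23 16301
  20592) .out)) .out)))) .out) .out) (.na 572 82 (.nx 571 1664512 (.nr 570 524289 (.nr 556 81 .s1
  (.nx 559 144 (.nx 558 143 (.nr 557 695 (.l1 (.ls 23 23 255)) (.l1 .sk)) (.l1 .sk)) (.nx 564 20644
  (.lg 0 false 5 83 83 19 0 51480) (.nr 569 32769 (.nr 567 513 (.lg 0 true 3 67 67 17 0 10296) (.nx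
  568 104033 (.lg 2 true 1 73 73 16 16301 144144) .out)) .out)))) .out) .out) (.nx 586 1664512 (.nr
  585 524289 (.nr 573 82 .s1 (.nx 579 20644 (.nx 575 143 (.nr 574 703 (.l1 (.ls 29 23 252)) (.l1
  .sk)) (.nx 576 144 (.l1 .sk) (.lg 0 false 3 97 97 19 0 20592))) (.nr 584 32769 (.nr 582 513 (.lg
  0 true 3 71 71 19 0 20592) (.nx 583 104033 (.lg 2 true 1 79 79 13 16301 20592) .out)) .out)))
  .out) .out))) (.na 616 88 (.na 603 84 (.nx 602 1664512 (.nr 601 524289 (.nr 588 83 .s1 (.nx 590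
  143 (.nr 589 712 (.l1 (.ls 23 17 249)) (.l1 .sk)) (.nx 591 144 (.l1 .sk) (.nx 595 20644 (.lg 0
  false 4 89 89 16 0 102960) (.nr 600 32769 (.nr 598 513 (.lg 0 true 3 67 67 16 0 10296) (.nx 599
  104033 (.lg 2 true 1 73 73 16 16301 102960) .out)) .out))))) .out) .out) (.nx 615 1664512 (.nr
  614 524289 (.nr 604 84 .s1 (.nx 607 144 (.nx 606 143 (.nr 605 746 (.l1 (.ls 41 31 246)) (.l1
  .sk)) (.l1 .sk)) (.nx 610 20644 (.nr 608 65537 (.lg 0 false 1 89 89 31 0 144144) (.nx 609 13005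
  (.lg 0 false 1 97 101 31 0 144144) .out)) (.nr 613 32769 (.nr 611 513 (.lg 0 true 1 79 79 31 0
  144144) (.nx 612 104033 (.lg 1 true 1 89 89 31 16301 144144) .out)) .out)))) .out) .out)) (.na
  629 91 (.nx 628 1664512 (.nr 627 524289 (.nr 617 88 .s1 (.nx 622 20644 (.nx 619 143 (.nr 618 771
  (.l1 (.ls 31 29 235)) (.l1 .sk)) (.nx 620 144 (.l1 .sk) (.lg 0 false 2 101 101 29 0 720720)))
  (.nr 626 32769 (.nr 624 513 (.lg 0 true 2 73 73 29 0 20592) (.nx 625 104033 (.lg 2 true 1 79 79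
  23 16301 20592) .out)) .out))) .out) .out) (.nx 643 1664512 (.nr 642 1048577 (.nr 630 91 .s1 (.nx
  632 143 (.nr 631 780 (.l1 (.ls 23 23 227)) (.l1 .sk)) (.nx 633 144 (.l1 .sk) (.nx 638 20644 (.lg
  0 false 5 89 89 23 0 360360) (.nr 641 32769 (.nr 639 513 (.lg 0 false 1 73 73 17 0 144144) (.nx
  640 104033 (.lg 2 true 1 73 73 17 16301 144144) .out)) .out))))) .out) .out)))) (.na 685 99 (.na
  658 96 (.nx 657 1664512 (.nr 656 1048577 (.nr 645 92 .s1 (.nx 647 143 (.nr 646 814 (.l1 (.ls 19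
  29 225)) (.l1 .sk)) (.nx 648 144 (.l1 .sk) (.nx 651 13005 (.lg 0 false 3 97 101 19 0 102960) (.nr
  655 65537 (.nx 652 104033 (.lg 0 false 1 101 101 19 0 102960) (.nr 654 513 (.lg 0 true 2 73 73 19
  0 20592) .out)) .out))))) .out) .out) (.na 672 98 (.nx 671 1664512 (.nr 670 1048577 (.nr 659 96
  .s1 (.nx 666 20644 (.nx 661 143 (.nr 660 831 (.l1 (.ls 37 29 216)) (.l1 .sk)) (.nx 662 144 (.l1
  .sk) (.nx 664 13005 (.lg 0 false 2 97 101 31 0 144144) (.nr 665 65537 (.lg 0 false 1 83 83 29 0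
  144144) .out)))) (.nr 669 32769 (.nr 667 513 (.lg 0 true 1 73 73 29 0 20592) (.nx 668 104033 (.lg
  1 true 1 89 89 29 16301 144144) .out)) .out))) .out) .out) (.nx 684 1664512 (.nr 683 1048577 (.nr
  673 98 .s1 (.nx 679 20644 (.nx 675 143 (.nr 674 839 (.l1 (.ls 29 29 211)) (.l1 .sk)) (.nx 676 144
  (.l1 .sk) (.lg 0 false 3 97 97 23 0 720720))) (.nr 682 32769 (.nr 680 513 (.lg 0 false 1 79 79 19
  0 720720) (.nx 681 104033 (.lg 2 true 1 73 73 19 16301 144144) .out)) .out))) .out) .out))) (.na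
  715 104 (.na 701 103 (.nx 700 1664512 (.nr 699 1048577 (.nr 686 99 .s1 (.nx 688 143 (.nr 687 873
  (.l1 (.ls 19 23 209)) (.l1 .sk)) (.nx 689 144 (.l1 .sk) (.nx 694 20644 (.lg 0 false 5 83 83 23 0
  51480) (.nr 698 32769 (.nr 696 513 (.lg 0 true 2 61 61 19 0 20592) (.nx 697 104033 (.lg 2 true 1
  71 71 17 16301 20592) .out)) .out))))) .out) .out) (.nx 714 1664512 (.nr 713 1048577 (.nr 702 103
  .s1 (.nx 709 20644 (.nx 704 143 (.nr 703 881 (.l1 (.ls 29 17 201)) (.l1 .sk)) (.nx 705 144 (.l1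
  .sk) (.lg 0 false 4 89 89 17 0 720720))) (.nr 712 32769 (.nr 710 513 (.lg 0 false 1 79 79 16 0
  720720) (.nx 711 104033 (.lg 2 true 1 71 71 16 16301 10296) .out)) .out))) .out) .out)) (.na 728
  106 (.nx 727 1664512 (.nr 726 1048577 (.nr 716 104 .s1 (.nx 723 104033 (.nx 718 143 (.nr 717 898
  (.l1 (.ls 29 29 199)) (.l1 .sk)) (.nx 719 144 (.l1 .sk) (.nx 721 13005 (.lg 0 false 2 89 89 29 0
  20592) (.nr 722 65537 (.lg 0 false 1 89 89 23 0 20592) .out)))) (.nr 725 513 (.lg 0 true 2 71 71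
  29 0 20592) .out))) .out) .out) (.nx 742 1664512 (.nr 741 1048577 (.nr 729 106 .s1 (.nx 731 143
  (.nr 730 915 (.l1 (.ls 23 23 195)) (.l1 .sk)) (.nx 732 144 (.l1 .sk) (.nx 737 20644 (.lg 0 false
  5 89 89 23 0 102960) (.nr 740 32769 (.nr 738 513 (.lg 0 false 1 73 73 19 0 20592) (.nx 739 104033
  (.lg 2 true 1 73 73 19 16301 20592) .out)) .out))))) .out) .out))))) (.na 825 123 (.na 783 113
  (.na 756 109 (.nx 755 1664512 (.nr 754 1048577 (.nr 744 108 .s1 (.nx 751 104033 (.nx 746 143 (.nr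
  745 924 (.l1 (.ls 31 29 192)) (.l1 .sk)) (.nx 747 144 (.l1 .sk) (.nr 748 65537 (.lg 0 false 1 101
  101 23 0 720720) (.nx 750 13005 (.lg 0 false 2 97 97 29 0 20592) .out)))) (.nr 753 513 (.lg 0
  true 2 71 71 29 0 20592) .out))) .out) .out) (.na 771 112 (.nx 770 1664512 (.nr 769 1048577 (.nr
  757 109 .s1 (.nx 760 144 (.nx 759 143 (.nr 758 949 (.l1 (.ls 19 17 190)) (.l1 .sk)) (.l1 .sk))
  (.nx 765 20644 (.lg 0 false 5 83 83 17 0 51480) (.nr 768 32769 (.nr 766 513 (.lg 0 false 1 71 71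
  16 0 10296) (.nx 767 104033 (.lg 2 true 1 71 71 16 16301 10296) .out)) .out)))) .out) .out) (.nx
  782 1664512 (.nr 781 1048577 (.nr 772 112 .s1 (.nx 779 104033 (.nx 774 143 (.nr 773 958 (.l1 (.ls
  41 29 185)) (.l1 .sk)) (.nx 775 144 (.l1 .sk) (.nr 776 65537 (.lg 0 true 1 101 103 29 0 720720)
  (.nx 778 13005 (.lg 0 false 2 97 103 31 0 720720) .out)))) (.nr 780 513 (.lg 0 true 1 79 79 29 0
  144144) .out))) .out) .out))) (.na 810 117 (.na 797 114 (.nx 796 1664512 (.nr 795 1048577 (.nr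
  784 113 .s1 (.nx 786 143 (.nr 785 966 (.l1 (.ls 23 17 183)) (.l1 .sk)) (.nx 787 144 (.l1 .sk)
  (.nx 791 20644 (.lg 0 false 4 83 83 17 0 20592) (.nr 794 32769 (.nr 792 513 (.lg 2 false 1 67 67
  16 1053209 10296) (.nx 793 104033 (.lg 2 true 1 71 71 16 16301 102960) .out)) .out))))) .out)
  .out) (.nx 809 1664512 (.nr 808 1048577 (.nr 798 114 .s1 (.nx 801 144 (.nx 800 143 (.nr 799 991
  (.l1 (.ls 17 31 182)) (.l1 .sk)) (.l1 .sk)) (.nr 805 65537 (.nx 802 104033 (.lg 0 false 1 97 97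
  31 0 144144) (.nr 804 513 (.lg 0 true 2 73 73 31 0 20592) .out)) (.nx 807 13005 (.lg 0 false 2 97
  97 31 0 144144) .out)))) .out) .out)) (.na 824 121 (.nx 823 1664512 (.nr 822 1048577 (.nr 811 117
  .s1 (.nx 818 20644 (.nx 813 143 (.nr 812 1025 (.l1 (.ls 29 23 177)) (.l1 .sk)) (.nx 814 144 (.l1
  .sk) (.lg 0 false 4 89 89 23 0 720720))) (.nr 821 32769 (.nr 819 513 (.lg 2 false 1 73 73 19
  1017202 720720) (.nx 820 104033 (.lg 2 true 1 71 71 19 16301 10296) .out)) .out))) .out) .out)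
  (.lg 0 false 1 0 0 16 0 24)))) (.na 863 131 (.na 849 128 (.na 837 126 (.nx 836 1664512 (.nr 835
  1048577 (.nr 826 123 .s1 (.nx 829 144 (.nx 828 143 (.nr 827 1068 (.l1 (.ls 31 19 169)) (.l1 .sk))
  (.l1 .sk)) (.nx 833 104033 (.nr 830 65537 (.lg 0 false 1 97 97 17 0 10296) (.nx 832 13005 (.lg 0
  false 2 97 97 19 0 20592) .out)) (.nr 834 513 (.lg 0 true 1 73 73 17 0 10296) .out)))) .out)
  .out) (.nx 848 1664512 (.nr 847 1048577 (.nr 838 126 .s1 (.nx 841 144 (.nx 840 143 (.nr 839 1085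
  (.l1 (.ls 31 31 165)) (.l1 .sk)) (.l1 .sk)) (.nx 845 104033 (.nr 842 65537 (.lg 0 false 1 89 89
  31 0 144144) (.nx 844 13005 (.lg 0 false 2 89 89 31 0 144144) .out)) (.nr 846 513 (.lg 0 true 1
  71 71 31 0 144144) .out)))) .out) .out)) (.na 862 129 (.nx 861 1664512 (.nr 860 1048577 (.nr 850
  128 .s1 (.nx 857 104033 (.nx 852 143 (.nr 851 1093 (.l1 (.ls 37 23 162)) (.l1 .sk)) (.nx 853 144
  (.l1 .sk) (.nr 854 65537 (.lg 0 false 1 97 97 19 0 720720) (.nx 856 13005 (.lg 0 false 2 97 97 23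
  0 720720) .out)))) (.nr 859 1025 (.lg 0 true 2 73 73 23 0 20592) .out))) .out) .out) .ne)) (.na
  875 133 (.na 864 132 (.lg 0 false 1 0 0 16 0 24) (.nx 874 832257 (.nr 873 1048577 (.nr 865 132
  .s1 (.nx 869 13005 (.nx 866 257 (.l1 (.ls 79 41 503)) (.nr 868 741457 (.lg 0 false 2 89 89 31 0
  102960) .out)) (.nr 872 16385 (.nr 870 1025 (.lg 0 true 1 71 71 31 0 20592) (.nx 871 104033 (.lg
  2 false 1 67 67 31 12995 20592) .out)) .out))) .out) .out)) (.na 886 137 (.nx 885 832257 (.nr 884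
  1048577 (.nr 876 133 .s1 (.nx 880 13005 (.nx 877 257 (.l1 (.ls 83 29 499)) (.nr 879 741457 (.lg 0
  false 2 97 97 17 0 144144) .out)) (.nr 883 16385 (.nr 881 1025 (.lg 0 true 1 73 73 17 0 72072)
  (.nx 882 104033 (.lg 2 true 1 71 71 17 12995 72072) .out)) .out))) .out) .out) (.lg 0 false 1 0 0
  16 0 24))))))) (.na 1137 191 (.na 1020 162 (.na 950 151 (.na 910 144 (.na 898 139 (.nx 897 832257
  (.nr 896 1048577 (.nr 888 138 .s1 (.nx 892 13005 (.nx 889 257 (.l1 (.ls 83 41 481)) (.nr 891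
  741457 (.lg 0 false 2 97 97 37 0 720720) .out)) (.nr 895 16385 (.nr 893 1025 (.lg 0 true 1 73 73
  31 0 20592) (.nx 894 104033 (.lg 2 false 1 71 71 31 12995 20592) .out)) .out))) .out) .out) (.na
  899 143 (.lg 0 false 1 0 0 16 0 24) (.nx 909 832257 (.nr 908 1048577 (.nr 900 143 .s1 (.nx 901
  257 (.l1 (.ls 71 29 464)) (.nr 907 741457 (.nr 904 16385 (.lg 0 false 3 73 73 19 0 10296) (.nx
  906 13005 (.lg 0 true 2 79 79 19 0 20592) .out)) .out))) .out) .out))) (.na 930 147 (.na 920 146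
  (.nx 919 832257 (.nr 918 1048577 (.nr 911 144 .s1 (.nx 912 257 (.l1 (.ls 79 37 461)) (.nr 917
  741457 (.nx 913 13005 (.lg 0 false 1 89 97 31 0 20592) (.nr 916 16385 (.nx 914 104033 (.lg 0 true
  1 79 83 31 0 20592) (.nr 915 1025 (.lg 0 true 1 73 73 31 0 20592) .out)) .out)) .out))) .out)
  .out) (.nx 929 832257 (.nr 928 1048577 (.nr 921 146 .s1 (.nx 922 257 (.l1 (.ls 71 29 455)) (.nr
  927 741457 (.nx 923 13005 (.lg 0 true 1 89 89 19 0 20592) (.nr 926 16385 (.nr 924 1025 (.lg 0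
  false 1 67 67 19 0 20592) (.nx 925 104033 (.lg 2 true 1 61 61 19 12995 20592) .out)) .out))
  .out))) .out) .out)) (.na 940 149 (.nx 939 832257 (.nr 938 1048577 (.nr 931 147 .s1 (.nx 932 257
  (.l1 (.ls 79 29 452)) (.nr 937 741457 (.nx 933 13005 (.lg 0 true 1 97 97 23 0 720720) (.nr 936
  16385 (.nr 934 1025 (.lg 0 true 1 71 71 23 0 72072) (.nx 935 104033 (.lg 2 false 1 67 67 23 12995
  72072) .out)) .out)) .out))) .out) .out) (.nx 949 832257 (.nr 948 1048577 (.nr 941 149 .s1 (.nx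
  944 13005 (.nx 942 257 (.l1 (.ls 71 19 446)) (.nr 943 741457 (.lg 0 true 1 83 83 16 0 10296)
  .out)) (.nr 947 16385 (.nr 945 1025 (.lg 0 false 1 67 67 16 0 10296) (.nx 946 104033 (.lg 2 true
  1 59 59 16 12995 10296) .out)) .out))) .out) .out)))) (.na 980 156 (.na 960 152 (.nx 959 832257
  (.nr 958 1048577 (.nr 951 151 .s1 (.nx 954 13005 (.nx 952 257 (.l1 (.ls 67 19 440)) (.nr 953
  741457 (.lg 0 true 1 83 83 16 0 10296) .out)) (.nr 957 16385 (.nr 955 1025 (.lg 0 false 1 67 67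
  16 0 10296) (.nx 956 104033 (.lg 2 false 1 59 59 16 12995 10296) .out)) .out))) .out) .out) (.na
  970 154 (.nx 969 832257 (.nr 968 1048577 (.nr 961 152 .s1 (.nx 966 104033 (.nx 962 257 (.l1 (.ls
  89 31 437)) (.nr 965 741457 (.nx 963 13005 (.lg 0 false 1 103 103 29 0 720720) (.nr 964 16385
  (.lg 0 true 1 89 97 29 0 720720) .out)) .out)) (.nr 967 1025 (.lg 0 true 1 83 83 29 0 20592)
  .out))) .out) .out) (.nx 979 832257 (.nr 978 1048577 (.nr 971 154 .s1 (.nx 974 13005 (.nx 972 257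
  (.l1 (.ls 71 37 431)) (.nr 973 741457 (.lg 0 true 1 89 89 29 0 144144) .out)) (.nr 977 16385 (.nr
  975 1025 (.lg 0 false 1 71 71 29 0 144144) (.nx 976 104033 (.lg 2 true 1 61 61 29 12995 144144)
  .out)) .out))) .out) .out))) (.na 1000 159 (.na 990 157 (.nx 989 832257 (.nr 988 1048577 (.nr 981
  156 .s1 (.nx 982 257 (.l1 (.ls 73 37 426)) (.nr 987 741457 (.nx 983 13005 (.lg 0 true 1 89 89 31
  0 144144) (.nr 986 16385 (.nr 984 1025 (.lg 0 true 1 71 71 31 0 20592) (.nx 985 104033 (.lg 2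
  false 1 67 67 31 12995 20592) .out)) .out)) .out))) .out) .out) (.nx 999 832257 (.nr 998 1048577
  (.nr 991 157 .s1 (.nx 994 13005 (.nx 992 257 (.l1 (.ls 71 19 423)) (.nr 993 741457 (.lg 0 true 1
  83 83 16 0 10296) .out)) (.nr 997 16385 (.nr 995 1025 (.lg 0 false 1 67 67 16 0 10296) (.nx 996
  104033 (.lg 2 true 1 59 59 16 12995 10296) .out)) .out))) .out) .out)) (.na 1010 161 (.nx 1009
  832257 (.nr 1008 1048577 (.nr 1001 159 .s1 (.nx 1004 13005 (.nx 1002 257 (.l1 (.ls 79 23 418))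
  (.nr 1003 741457 (.lg 0 true 1 97 97 19 0 144144) .out)) (.nr 1007 16385 (.nr 1005 1025 (.lg 0
  true 1 71 71 19 0 10296) (.nx 1006 104033 (.lg 2 false 1 67 67 19 12995 10296) .out)) .out)))
  .out) .out) (.nx 1019 832257 (.nr 1018 1048577 (.nr 1011 161 .s1 (.nx 1014 13005 (.nx 1012 257
  (.l1 (.ls 79 19 413)) (.nr 1013 741457 (.lg 0 true 1 89 89 17 0 72072) .out)) (.nr 1017 16385
  (.nr 1015 1025 (.lg 0 true 1 71 71 17 0 72072) (.nx 1016 104033 (.lg 2 true 1 71 71 17 12995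
  144144) .out)) .out))) .out) .out))))) (.na 1072 171 (.na 1041 166 (.na 1030 163 (.nx 1029 832257
  (.nr 1028 1048577 (.nr 1021 162 .s1 (.nx 1024 13005 (.nx 1022 257 (.l1 (.ls 71 31 410)) (.nr 1023
  741457 (.lg 0 true 1 83 83 23 0 20592) .out)) (.nr 1027 16385 (.nr 1025 1025 (.lg 0 false 1 71 71
  23 0 102960) (.nx 1026 104033 (.lg 2 false 1 59 59 23 12995 20592) .out)) .out))) .out) .out)
  (.na 1031 164 (.lg 0 false 1 0 0 16 0 24) (.nx 1040 832257 (.nr 1039 1048577 (.nr 1032 164 .s1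
  (.nx 1033 257 (.l1 (.ls 79 29 405)) (.nr 1038 741457 (.nx 1034 13005 (.lg 0 true 1 89 89 23 0
  20592) (.nr 1037 16385 (.nr 1035 1025 (.lg 0 true 1 71 71 23 0 20592) (.nx 1036 104033 (.lg 2
  false 1 67 67 23 12995 20592) .out)) .out)) .out))) .out) .out))) (.na 1061 168 (.na 1051 167
  (.nx 1050 832257 (.nr 1049 1048577 (.nr 1042 166 .s1 (.nx 1045 13005 (.nx 1043 257 (.l1 (.ls 71
  29 400)) (.nr 1044 741457 (.lg 0 true 1 89 89 19 0 144144) .out)) (.nr 1048 16385 (.nr 1046 1025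
  (.lg 0 false 1 67 67 19 0 20592) (.nx 1047 104033 (.lg 2 true 1 61 61 19 12995 144144) .out))
  .out))) .out) .out) (.nx 1060 832257 (.nr 1059 1048577 (.nr 1052 167 .s1 (.nx 1055 13005 (.nx
  1053 257 (.l1 (.ls 71 19 398)) (.nr 1054 741457 (.lg 0 true 1 83 83 16 0 10296) .out)) (.nr 1058
  16385 (.nr 1056 1025 (.lg 0 false 1 67 67 16 0 10296) (.nx 1057 104033 (.lg 2 true 1 59 59 16
  12995 10296) .out)) .out))) .out) .out)) (.na 1071 169 (.nx 1070 832257 (.nr 1069 1048577 (.nr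
  1062 168 .s1 (.nx 1063 257 (.l1 (.ls 89 37 396)) (.nr 1068 741457 (.nx 1064 13005 (.lg 0 false 1
  101 103 41 0 720720) (.nr 1067 16385 (.nx 1065 104033 (.lg 0 true 1 83 97 41 0 720720) (.nr 1066
  1025 (.lg 0 true 1 79 83 41 0 720720) .out)) .out)) .out))) .out) .out) (.lg 0 false 1 0 0 16 0
  24)))) (.na 1101 181 (.na 1083 176 (.na 1082 173 (.nx 1081 832257 (.nr 1080 1048577 (.nr 1073 171
  .s1 (.nx 1076 13005 (.nx 1074 257 (.l1 (.ls 73 29 389)) (.nr 1075 741457 (.lg 0 true 1 89 89 17 0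
  10296) .out)) (.nr 1079 16385 (.nr 1077 1025 (.lg 0 true 1 71 71 17 0 10296) (.nx 1078 104033
  (.lg 2 true 1 67 67 17 12995 10296) .out)) .out))) .out) .out) (.lg 0 false 1 0 0 16 0 24)) (.na
  1093 179 (.nx 1092 832257 (.nr 1091 1048577 (.nr 1084 176 .s1 (.nx 1087 13005 (.nx 1085 257 (.l1
  (.ls 73 31 378)) (.nr 1086 741457 (.lg 0 true 1 83 83 29 0 20592) .out)) (.nr 1090 16385 (.nr
  1088 1025 (.lg 0 true 1 67 67 29 0 20592) (.nx 1089 104033 (.lg 2 true 1 61 61 29 12995 20592)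
  .out)) .out))) .out) .out) (.nx 1100 832257 (.nr 1099 1048577 (.nr 1094 179 .s1 (.nx 1097 13005
  (.nx 1095 257 (.l1 (.ls 67 19 371)) (.nr 1096 741457 (.lg 0 true 1 79 79 16 0 10296) .out)) (.nr
  1098 16385 (.lg 0 false 1 83 83 16 0 10296) .out))) .out) .out))) (.na 1117 184 (.na 1109 182
  (.nx 1108 832257 (.nr 1107 1048577 (.nr 1102 181 .s1 (.nx 1103 257 (.l1 (.ls 67 19 367)) (.nr
  1106 741457 (.nr 1104 16385 (.lg 0 false 1 83 83 16 0 20592) (.nx 1105 13005 (.lg 0 true 1 79 79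
  16 0 20592) .out)) .out))) .out) .out) (.nx 1116 832257 (.nr 1115 1048577 (.nr 1110 182 .s1 (.nx
  1111 257 (.l1 (.ls 73 37 365)) (.nr 1114 741457 (.nr 1112 16385 (.lg 0 false 1 89 89 29 0 144144)
  (.nx 1113 13005 (.lg 0 true 1 89 89 29 0 720720) .out)) .out))) .out) .out)) (.na 1127 189 (.nx
  1126 832257 (.nr 1125 1048577 (.nr 1118 184 .s1 (.nx 1119 257 (.l1 (.ls 83 31 361)) (.nr 1124
  741457 (.nx 1120 13005 (.lg 0 false 1 97 97 31 0 144144) (.nr 1123 16385 (.nx 1121 104033 (.lg 0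
  true 1 83 89 31 0 144144) (.nr 1122 1025 (.lg 0 true 1 79 79 31 0 144144) .out)) .out)) .out)))
  .out) .out) (.nx 1136 832257 (.nr 1135 1048577 (.nr 1128 189 .s1 (.nx 1131 13005 (.nx 1129 257
  (.l1 (.ls 73 29 352)) (.nr 1130 741457 (.lg 0 true 1 83 83 23 0 72072) .out)) (.nr 1134 16385
  (.nr 1132 1025 (.lg 0 true 1 67 67 23 0 72072) (.nx 1133 104033 (.lg 2 true 1 61 61 23 12995
  72072) .out)) .out))) .out) .out)))))) (.na 1254 218 (.na 1197 206 (.na 1163 196 (.na 1145 192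
  (.nx 1144 832257 (.nr 1143 1048577 (.nr 1138 191 .s1 (.nx 1139 257 (.l1 (.ls 67 19 348)) (.nr
  1142 741457 (.nr 1140 16385 (.lg 0 false 1 83 83 16 0 10296) (.nx 1141 13005 (.lg 0 true 1 79 79
  16 0 10296) .out)) .out))) .out) .out) (.na 1155 193 (.nx 1154 832257 (.nr 1153 1048577 (.nr 1146
  192 .s1 (.nx 1151 104033 (.nx 1147 257 (.l1 (.ls 83 31 347)) (.nr 1150 741457 (.nx 1148 13005
  (.lg 0 false 1 97 97 31 0 20592) (.nr 1149 16385 (.lg 0 true 1 79 83 31 0 20592) .out)) .out))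
  (.nr 1152 1025 (.lg 0 true 1 73 73 31 0 20592) .out))) .out) .out) (.nx 1162 832257 (.nr 1161
  1048577 (.nr 1156 193 .s1 (.nx 1157 257 (.l1 (.ls 71 19 345)) (.nr 1160 741457 (.nr 1158 16385
  (.lg 0 false 1 83 83 16 0 10296) (.nx 1159 13005 (.lg 0 true 1 83 83 16 0 10296) .out)) .out)))
  .out) .out))) (.na 1181 198 (.na 1173 197 (.nx 1172 832257 (.nr 1171 1048577 (.nr 1164 196 .s1
  (.nx 1165 257 (.l1 (.ls 73 31 339)) (.nr 1170 741457 (.nx 1166 13005 (.lg 0 true 1 83 83 29 0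
  144144) (.nr 1169 16385 (.nr 1167 1025 (.lg 0 true 1 67 67 29 0 144144) (.nx 1168 104033 (.lg 2
  false 1 67 67 29 12995 144144) .out)) .out)) .out))) .out) .out) (.nx 1180 832257 (.nr 1179
  1048577 (.nr 1174 197 .s1 (.nx 1175 257 (.l1 (.ls 71 19 338)) (.nr 1178 741457 (.nr 1176 16385
  (.lg 0 false 1 83 83 16 0 10296) (.nx 1177 13005 (.lg 0 true 1 79 79 16 0 10296) .out)) .out)))
  .out) .out)) (.na 1189 199 (.nx 1188 832257 (.nr 1187 1048577 (.nr 1182 198 .s1 (.nx 1183 257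
  (.l1 (.ls 73 37 336)) (.nr 1186 741457 (.nr 1184 16385 (.lg 0 false 1 89 89 31 0 720720) (.nx
  1185 13005 (.lg 0 true 1 83 83 31 0 20592) .out)) .out))) .out) .out) (.nx 1196 832257 (.nr 1195
  1048577 (.nr 1190 199 .s1 (.nx 1191 257 (.l1 (.ls 67 19 334)) (.nr 1194 741457 (.nr 1192 16385
  (.lg 0 false 1 79 79 16 0 10296) (.nx 1193 13005 (.lg 0 true 1 79 79 16 0 10296) .out)) .out)))
  .out) .out)))) (.na 1225 209 (.na 1205 207 (.nx 1204 832257 (.nr 1203 1048577 (.nr 1198 206 .s1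
  (.nx 1199 257 (.l1 (.ls 67 29 323)) (.nr 1202 741457 (.nr 1200 16385 (.lg 0 false 1 83 83 23 0
  144144) (.nx 1201 13005 (.lg 0 true 1 79 79 23 0 20592) .out)) .out))) .out) .out) (.na 1215 208
  (.nx 1214 832257 (.nr 1213 1048577 (.nr 1206 207 .s1 (.nx 1209 13005 (.nx 1207 257 (.l1 (.ls 79
  19 322)) (.nr 1208 741457 (.lg 0 true 1 89 89 19 0 10296) .out)) (.nr 1212 16385 (.nr 1210 1025
  (.lg 0 true 1 71 71 19 0 10296) (.nx 1211 104033 (.lg 2 true 1 67 67 19 12995 10296) .out))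
  .out))) .out) .out) (.nx 1224 832257 (.nr 1223 1048577 (.nr 1216 208 .s1 (.nx 1217 257 (.l1 (.ls
  79 31 320)) (.nr 1222 741457 (.nx 1218 13005 (.lg 0 true 1 89 89 29 0 720720) (.nr 1221 16385
  (.nr 1219 1025 (.lg 0 true 1 67 67 29 0 20592) (.nx 1220 104033 (.lg 2 false 1 61 61 29 12995
  20592) .out)) .out)) .out))) .out) .out))) (.na 1234 212 (.na 1233 211 (.nx 1232 832257 (.nr 1231
  1048577 (.nr 1226 209 .s1 (.nx 1227 257 (.l1 (.ls 67 29 319)) (.nr 1230 741457 (.nx 1228 13005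
  (.lg 0 true 1 79 79 17 0 10296) (.nr 1229 16385 (.lg 0 false 1 83 83 17 0 20592) .out)) .out)))
  .out) .out) (.lg 0 false 1 0 0 16 0 24)) (.na 1244 216 (.nx 1243 832257 (.nr 1242 1048577 (.nr
  1235 212 .s1 (.nx 1236 257 (.l1 (.ls 83 29 314)) (.nr 1241 741457 (.nx 1237 13005 (.lg 0 true 1
  97 97 23 0 720720) (.nr 1240 16385 (.nr 1238 1025 (.lg 0 true 1 71 71 23 0 20592) (.nx 1239
  104033 (.lg 2 false 1 67 67 23 12995 20592) .out)) .out)) .out))) .out) .out) (.nx 1253 832257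
  (.nr 1252 1048577 (.nr 1245 216 .s1 (.nx 1250 104033 (.nx 1246 257 (.l1 (.ls 79 31 308)) (.nr
  1249 741457 (.nx 1247 13005 (.lg 0 false 1 83 89 31 0 20592) (.nr 1248 16385 (.lg 0 true 1 73 79
  31 0 20592) .out)) .out)) (.nr 1251 1025 (.lg 0 true 1 71 71 31 0 20592) .out))) .out) .out)))))
  (.na 1309 229 (.na 1273 224 (.na 1262 219 (.nx 1261 832257 (.nr 1260 1048577 (.nr 1255 218 .s1
  (.nx 1256 257 (.l1 (.ls 71 29 305)) (.nr 1259 741457 (.nr 1257 16385 (.lg 0 false 1 83 83 23 0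
  102960) (.nx 1258 13005 (.lg 0 true 1 83 83 23 0 102960) .out)) .out))) .out) .out) (.na 1272 223
  (.nx 1271 832257 (.nr 1270 1048577 (.nr 1263 219 .s1 (.nx 1264 257 (.l1 (.ls 71 23 304)) (.nr
  1269 741457 (.nx 1265 13005 (.lg 0 false 1 83 83 19 0 10296) (.nr 1268 16385 (.nr 1266 1025 (.lg
  0 true 1 61 61 19 0 10296) (.nx 1267 104033 (.lg 2 true 1 61 61 19 12995 144144) .out)) .out))
  .out))) .out) .out) (.lg 0 false 1 0 0 16 0 24))) (.na 1291 227 (.na 1283 226 (.nx 1282 832257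
  (.nr 1281 1048577 (.nr 1274 224 .s1 (.nx 1275 257 (.l1 (.ls 79 31 297)) (.nr 1280 741457 (.nx
  1276 13005 (.lg 0 false 1 89 89 31 0 144144) (.nr 1279 16385 (.nx 1277 104033 (.lg 0 true 1 79 79
  31 0 144144) (.nr 1278 1025 (.lg 0 true 1 71 71 31 0 144144) .out)) .out)) .out))) .out) .out)
  (.nx 1290 832257 (.nr 1289 1048577 (.nr 1284 226 .s1 (.nx 1285 257 (.l1 (.ls 67 29 295)) (.nr
  1288 741457 (.nr 1286 16385 (.lg 0 false 1 83 83 23 0 144144) (.nx 1287 13005 (.lg 0 true 1 79 79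
  23 0 144144) .out)) .out))) .out) .out)) (.na 1299 228 (.nx 1298 832257 (.nr 1297 1048577 (.nr
  1292 227 .s1 (.nx 1293 257 (.l1 (.ls 71 19 293)) (.nr 1296 741457 (.nr 1294 16385 (.lg 0 false 1
  83 83 17 0 10296) (.nx 1295 13005 (.lg 0 true 1 79 79 17 0 10296) .out)) .out))) .out) .out) (.nx
  1308 832257 (.nr 1307 1048577 (.nr 1300 228 .s1 (.nx 1303 13005 (.nx 1301 257 (.l1 (.ls 83 37
  292)) (.nr 1302 741457 (.lg 0 false 1 97 97 37 0 20592) .out)) (.nr 1306 16385 (.nx 1304 104033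
  (.lg 0 true 1 83 83 37 0 20592) (.nr 1305 1025 (.lg 0 true 1 73 73 37 0 20592) .out)) .out)))
  .out) .out)))) (.na 1329 239 (.na 1320 233 (.na 1310 231 (.lg 0 false 1 0 0 16 0 24) (.nx 1319
  832257 (.nr 1318 1048577 (.nr 1311 231 .s1 (.nx 1314 13005 (.nx 1312 257 (.l1 (.ls 71 31 288))
  (.nr 1313 741457 (.lg 0 true 1 83 83 29 0 144144) .out)) (.nr 1317 16385 (.nr 1315 1025 (.lg 0
  true 1 61 61 29 0 72072) (.nx 1316 104033 (.lg 2 false 1 61 61 29 12995 144144) .out)) .out)))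
  .out) .out)) (.na 1321 234 (.lg 0 false 1 0 0 16 0 24) (.nx 1328 832257 (.nr 1327 1048577 (.nr
  1322 234 .s1 (.nx 1323 257 (.l1 (.ls 67 37 285)) (.nr 1326 741457 (.nr 1324 16385 (.lg 0 false 1
  79 79 31 0 20592) (.nx 1325 13005 (.lg 0 true 1 79 79 31 0 20592) .out)) .out))) .out) .out)))
  (.na 1345 242 (.na 1337 241 (.nx 1336 832257 (.nr 1335 1048577 (.nr 1330 239 .s1 (.nx 1331 257
  (.l1 (.ls 61 19 279)) (.nr 1334 741457 (.nr 1332 16385 (.lg 0 false 1 79 79 17 0 20592) (.nx 1333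
  13005 (.lg 0 true 1 73 73 17 0 10296) .out)) .out))) .out) .out) (.nx 1344 832257 (.nr 1343
  1048577 (.nr 1338 241 .s1 (.nx 1339 257 (.l1 (.ls 61 19 277)) (.nr 1342 741457 (.nr 1340 16385
  (.lg 0 false 1 79 79 17 0 10296) (.nx 1341 13005 (.lg 0 true 1 73 73 17 0 10296) .out)) .out)))
  .out) .out)) (.na 1346 243 (.lg 0 false 1 0 0 16 0 24) (.nx 1353 832257 (.nr 1352 1048577 (.nr
  1347 243 .s1 (.nx 1348 257 (.l1 (.ls 73 23 274)) (.nr 1351 741457 (.nr 1349 16385 (.lg 0 false 1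
  83 83 19 0 10296) (.nx 1350 13005 (.lg 0 true 1 79 79 19 0 10296) .out)) .out))) .out)
  .out))))))))

theorem c64 :
    OkQ ckI L9 184 23 1099511627776 0 34359738368 1 1099511627776 ∧
    OkQ ckI L8 143 24 246 0 34359738368 1 1099511627776 := by
  refine ⟨?_, ?_⟩
  · refine fin 552 17543 T64_0 ?_
    refine jn 18 (by decide +kernel) ?_
    refine jn 34 (by decide +kernel) ?_
    refine jn 44 (by decide +kernel) ?_
    refine jn 46 (by decide +kernel) ?_
    refine jn 48 (by decide +kernel) ?_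
    refine jn 50 (by decide +kernel) ?_
    refine jn 51 (by decide +kernel) ?_
    refine jn 58 (by decide +kernel) ?_
    refine jn 59 (by decide +kernel) ?_
    refine jn 60 (by decide +kernel) ?_
    refine jn 61 (by decide +kernel) ?_
    refine jn 62 (by decide +kernel) ?_
    refine jn 63 (by decide +kernel) ?_
    refine jn 64 (by decide +kernel) ?_
    refine jn 65 (by decide +kernel) ?_
    refine jn 77 (by decide +kernel) ?_
    refine jn 89 (by decide +kernel) ?_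
    refine jn 96 (by decide +kernel) ?_
    refine jn 103 (by decide +kernel) ?_
    refine jn 111 (by decide +kernel) ?_
    refine jn 130 (by decide +kernel) ?_
    refine jn 138 (by decide +kernel) ?_
    refine jn 147 (by decide +kernel) ?_
    refine jn 148 (by decide +kernel) ?_
    refine jn 149 (by decide +kernel) ?_
    refine jn 150 (by decide +kernel) ?_
    refine jn 151 (by decide +kernel) ?_
    refine jn 153 (by decide +kernel) ?_
    refine jn 156 (by decide +kernel) ?_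
    refine jn 166 (by decide +kernel) ?_
    refine jn 174 (by decide +kernel) ?_
    refine jn 181 (by decide +kernel) ?_
    refine jn 195 (by decide +kernel) ?_
    refine jn 203 (by decide +kernel) ?_
    refine jn 212 (by decide +kernel) ?_
    refine jn 213 (by decide +kernel) ?_
    refine jn 214 (by decide +kernel) ?_
    refine jn 218 (by decide +kernel) ?_
    refine jn 220 (by decide +kernel) ?_
    refine jn 222 (by decide +kernel) ?_
    refine jn 225 (by decide +kernel) ?_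
    refine jn 234 (by decide +kernel) ?_
    refine jn 236 (by decide +kernel) ?_
    refine jn 237 (by decide +kernel) ?_
    refine jn 239 (by decide +kernel) ?_
    refine jn 240 (by decide +kernel) ?_
    refine jn 241 (by decide +kernel) ?_
    refine jn 242 (by decide +kernel) ?_
    refine jn 243 (by decide +kernel) ?_
    refine jn 253 (by decide +kernel) ?_
    refine jn 260 (by decide +kernel) ?_
    refine jn 267 (by decide +kernel) ?_
    refine jn 277 (by decide +kernel) ?_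
    refine jn 280 (by decide +kernel) ?_
    refine jn 284 (by decide +kernel) ?_
    refine jn 287 (by decide +kernel) ?_
    refine jn 297 (by decide +kernel) ?_
    refine jn 302 (by decide +kernel) ?_
    refine jn 317 (by decide +kernel) ?_
    refine jn 323 (by decide +kernel) ?_
    refine jn 336 (by decide +kernel) ?_
    refine jn 347 (by decide +kernel) ?_
    refine jn 354 (by decide +kernel) ?_
    refine jn 366 (by decide +kernel) ?_
    refine jn 369 (by decide +kernel) ?_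
    refine jn 372 (by decide +kernel) ?_
    refine jn 375 (by decide +kernel) ?_
    refine jn 389 (by decide +kernel) ?_
    refine jn 397 (by decide +kernel) ?_
    refine jn 400 (by decide +kernel) ?_
    refine jn 403 (by decide +kernel) ?_
    refine jn 415 (by decide +kernel) ?_
    refine jn 425 (by decide +kernel) ?_
    refine jn 429 (by decide +kernel) ?_
    refine jn 433 (by decide +kernel) ?_
    refine jn 442 (by decide +kernel) ?_
    refine jn 445 (by decide +kernel) ?_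
    refine jn 459 (by decide +kernel) ?_
    refine jn 472 (by decide +kernel) ?_
    refine jn 485 (by decide +kernel) ?_
    refine jn 497 (by decide +kernel) ?_
    refine jn 507 (by decide +kernel) ?_
    refine jn 510 (by decide +kernel) ?_
    refine jn 524 (by decide +kernel) ?_
    refine jn 537 (by decide +kernel) ?_
    refine jn 553 (by decide +kernel) ?_
    refine jn 566 (by decide +kernel) ?_
    refine jn 580 (by decide +kernel) ?_
    refine jn 592 (by decide +kernel) ?_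
    refine jn 604 (by decide +kernel) ?_
    refine jn 617 (by decide +kernel) ?_
    refine jn 631 (by decide +kernel) ?_
    refine jn 644 (by decide +kernel) ?_
    refine jn 657 (by decide +kernel) ?_
    refine jn 672 (by decide +kernel) ?_
    refine jn 687 (by decide +kernel) ?_
    refine jn 699 (by decide +kernel) ?_
    refine jn 711 (by decide +kernel) ?_
    refine jn 725 (by decide +kernel) ?_
    refine jn 738 (by decide +kernel) ?_
    refine jn 749 (by decide +kernel) ?_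
    refine jn 760 (by decide +kernel) ?_
    refine jn 771 (by decide +kernel) ?_
    refine jn 782 (by decide +kernel) ?_
    refine jn 789 (by decide +kernel) ?_
    refine jn 793 (by decide +kernel) ?_
    refine jn 796 (by decide +kernel) ?_
    refine jn 817 (by decide +kernel) ?_
    refine jn 831 (by decide +kernel) ?_
    refine jn 850 (by decide +kernel) ?_
    refine jn 863 (by decide +kernel) ?_
    refine jn 876 (by decide +kernel) ?_
    refine jn 887 (by decide +kernel) ?_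
    refine jn 900 (by decide +kernel) ?_
    refine jn 924 (by decide +kernel) ?_
    refine jn 987 (by decide +kernel) ?_
    refine jn 1024 (by decide +kernel) ?_
    refine jn 1104 (by decide +kernel) ?_
    refine jn 1107 (by decide +kernel) ?_
    refine jn 1114 (by decide +kernel) ?_
    refine jn 1123 (by decide +kernel) ?_
    refine jn 1131 (by decide +kernel) ?_
    refine jn 1135 (by decide +kernel) ?_
    refine jn 1144 (by decide +kernel) ?_
    refine jn 1167 (by decide +kernel) ?_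
    refine jn 1174 (by decide +kernel) ?_
    refine jn 1183 (by decide +kernel) ?_
    refine jn 1194 (by decide +kernel) ?_
    refine jn 1202 (by decide +kernel) ?_
    refine jn 1216 (by decide +kernel) ?_
    refine jn 1229 (by decide +kernel) ?_
    refine jn 1241 (by decide +kernel) ?_
    refine jn 1273 (by decide +kernel) ?_
    refine jn 1286 (by decide +kernel) ?_
    refine jn 1300 (by decide +kernel) ?_
    refine jn 1316 (by decide +kernel) ?_
    refine jn 1326 (by decide +kernel) ?_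
    refine jn 1343 (by decide +kernel) ?_
    refine jn 1356 (by decide +kernel) ?_
    refine jn 1383 (by decide +kernel) ?_
    refine jn 1395 (by decide +kernel) ?_
    refine jn 1412 (by decide +kernel) ?_
    refine jn 1485 (by decide +kernel) ?_
    refine jn 1565 (by decide +kernel) ?_
    refine jn 1582 (by decide +kernel) ?_
    refine jn 1586 (by decide +kernel) ?_
    refine jn 1587 (by decide +kernel) ?_
    refine jn 1615 (by decide +kernel) ?_
    refine jn 1627 (by decide +kernel) ?_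
    refine jn 1634 (by decide +kernel) ?_
    refine jn 1643 (by decide +kernel) ?_
    refine jn 1646 (by decide +kernel) ?_
    refine jn 1655 (by decide +kernel) ?_
    refine jn 1666 (by decide +kernel) ?_
    refine jn 1679 (by decide +kernel) ?_
    refine jn 1690 (by decide +kernel) ?_
    refine jn 1694 (by decide +kernel) ?_
    refine jn 1714 (by decide +kernel) ?_
    refine jn 1728 (by decide +kernel) ?_
    refine jn 1734 (by decide +kernel) ?_
    refine jn 1735 (by decide +kernel) ?_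
    refine jn 1736 (by decide +kernel) ?_
    refine jn 1764 (by decide +kernel) ?_
    refine jn 1774 (by decide +kernel) ?_
    refine jn 1779 (by decide +kernel) ?_
    refine jn 1786 (by decide +kernel) ?_
    refine jn 1794 (by decide +kernel) ?_
    refine jn 1795 (by decide +kernel) ?_
    refine jn 1804 (by decide +kernel) ?_
    refine jn 1815 (by decide +kernel) ?_
    refine jn 1822 (by decide +kernel) ?_
    refine jn 1830 (by decide +kernel) ?_
    refine jn 1842 (by decide +kernel) ?_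
    refine jn 1855 (by decide +kernel) ?_
    refine jn 1867 (by decide +kernel) ?_
    refine jn 2050 (by decide +kernel) ?_
    refine jn 2140 (by decide +kernel) ?_
    refine jn 2153 (by decide +kernel) ?_
    refine jn 2174 (by decide +kernel) ?_
    refine jn 2188 (by decide +kernel) ?_
    refine jn 2200 (by decide +kernel) ?_
    refine jn 2206 (by decide +kernel) ?_
    refine jn 2213 (by decide +kernel) ?_
    refine jn 2221 (by decide +kernel) ?_
    refine jn 2224 (by decide +kernel) ?_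
    refine jn 2237 (by decide +kernel) ?_
    refine jn 2238 (by decide +kernel) ?_
    refine jn 2252 (by decide +kernel) ?_
    refine jn 2276 (by decide +kernel) ?_
    refine jn 2285 (by decide +kernel) ?_
    refine jn 2294 (by decide +kernel) ?_
    refine jn 2326 (by decide +kernel) ?_
    refine jn 2341 (by decide +kernel) ?_
    refine jn 2354 (by decide +kernel) ?_
    refine jn 2372 (by decide +kernel) ?_
    refine jn 2399 (by decide +kernel) ?_
    refine jn 2408 (by decide +kernel) ?_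
    refine jn 2415 (by decide +kernel) ?_
    refine jn 2424 (by decide +kernel) ?_
    refine jn 2432 (by decide +kernel) ?_
    refine jn 2438 (by decide +kernel) ?_
    refine jn 2451 (by decide +kernel) ?_
    refine jn 2456 (by decide +kernel) ?_
    refine jn 2474 (by decide +kernel) ?_
    refine jn 2492 (by decide +kernel) ?_
    refine jn 2502 (by decide +kernel) ?_
    refine jn 2532 (by decide +kernel) ?_
    refine jn 2544 (by decide +kernel) ?_
    refine jn 2572 (by decide +kernel) ?_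
    refine jn 2596 (by decide +kernel) ?_
    refine jn 2638 (by decide +kernel) ?_
    refine jn 2671 (by decide +kernel) ?_
    refine jn 2727 (by decide +kernel) ?_
    refine jn 2764 (by decide +kernel) ?_
    refine jn 2806 (by decide +kernel) ?_
    refine jn 2867 (by decide +kernel) ?_
    refine jn 2874 (by decide +kernel) ?_
    refine jn 2889 (by decide +kernel) ?_
    refine jn 2895 (by decide +kernel) ?_
    refine jn 2915 (by decide +kernel) ?_
    refine jn 2943 (by decide +kernel) ?_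
    refine jn 2957 (by decide +kernel) ?_
    refine jn 2970 (by decide +kernel) ?_
    refine jn 2991 (by decide +kernel) ?_
    refine jn 3021 (by decide +kernel) ?_
    refine jn 3042 (by decide +kernel) ?_
    refine jn 3059 (by decide +kernel) ?_
    refine jn 3074 (by decide +kernel) ?_
    refine jn 3095 (by decide +kernel) ?_
    refine jn 3125 (by decide +kernel) ?_
    refine jn 3150 (by decide +kernel) ?_
    refine jn 3189 (by decide +kernel) ?_
    refine jn 3238 (by decide +kernel) ?_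
    refine jn 3285 (by decide +kernel) ?_
    refine jn 3325 (by decide +kernel) ?_
    refine jn 3361 (by decide +kernel) ?_
    refine jn 3403 (by decide +kernel) ?_
    refine jn 3469 (by decide +kernel) ?_
    refine jn 3502 (by decide +kernel) ?_
    refine jn 3553 (by decide +kernel) ?_
    refine jn 3591 (by decide +kernel) ?_
    refine jn 3615 (by decide +kernel) ?_
    refine jn 3647 (by decide +kernel) ?_
    refine jn 3663 (by decide +kernel) ?_
    refine jn 3692 (by decide +kernel) ?_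
    refine jn 3716 (by decide +kernel) ?_
    refine jn 3740 (by decide +kernel) ?_
    refine jn 3776 (by decide +kernel) ?_
    refine jn 3803 (by decide +kernel) ?_
    refine jn 3819 (by decide +kernel) ?_
    refine jn 3852 (by decide +kernel) ?_
    refine jn 3899 (by decide +kernel) ?_
    refine jn 3927 (by decide +kernel) ?_
    refine jn 3960 (by decide +kernel) ?_
    refine jn 3983 (by decide +kernel) ?_
    refine jn 4024 (by decide +kernel) ?_
    refine jn 4047 (by decide +kernel) ?_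
    refine jn 4078 (by decide +kernel) ?_
    refine jn 4111 (by decide +kernel) ?_
    refine jn 4144 (by decide +kernel) ?_
    refine jn 4195 (by decide +kernel) ?_
    refine jn 4207 (by decide +kernel) ?_
    refine jn 4227 (by decide +kernel) ?_
    refine jn 4239 (by decide +kernel) ?_
    refine jn 4251 (by decide +kernel) ?_
    refine jn 4287 (by decide +kernel) ?_
    refine jn 4315 (by decide +kernel) ?_
    refine jn 4350 (by decide +kernel) ?_
    refine jn 4378 (by decide +kernel) ?_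
    refine jn 4419 (by decide +kernel) ?_
    refine jn 4447 (by decide +kernel) ?_
    refine jn 4462 (by decide +kernel) ?_
    refine jn 4487 (by decide +kernel) ?_
    refine jn 4558 (by decide +kernel) ?_
    refine jn 4600 (by decide +kernel) ?_
    refine jn 4638 (by decide +kernel) ?_
    refine jn 4665 (by decide +kernel) ?_
    refine jn 4710 (by decide +kernel) ?_
    refine jn 4750 (by decide +kernel) ?_
    refine jn 4779 (by decide +kernel) ?_
    refine jn 4825 (by decide +kernel) ?_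
    refine jn 4854 (by decide +kernel) ?_
    refine jn 4903 (by decide +kernel) ?_
    refine jn 4941 (by decide +kernel) ?_
    refine jn 4987 (by decide +kernel) ?_
    refine jn 5011 (by decide +kernel) ?_
    refine jn 5058 (by decide +kernel) ?_
    refine jn 5110 (by decide +kernel) ?_
    refine jn 5155 (by decide +kernel) ?_
    refine jn 5199 (by decide +kernel) ?_
    refine jn 5250 (by decide +kernel) ?_
    refine jn 5295 (by decide +kernel) ?_
    refine jn 5355 (by decide +kernel) ?_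
    refine jn 5394 (by decide +kernel) ?_
    refine jn 5422 (by decide +kernel) ?_
    refine jn 5457 (by decide +kernel) ?_
    refine jn 5678 (by decide +kernel) ?_
    refine jn 5742 (by decide +kernel) ?_
    refine jn 5823 (by decide +kernel) ?_
    refine jn 5898 (by decide +kernel) ?_
    refine jn 5991 (by decide +kernel) ?_
    refine jn 6075 (by decide +kernel) ?_
    refine jn 6143 (by decide +kernel) ?_
    refine jn 6254 (by decide +kernel) ?_
    refine jn 6330 (by decide +kernel) ?_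
    refine jn 6429 (by decide +kernel) ?_
    refine jn 6521 (by decide +kernel) ?_
    refine jn 6618 (by decide +kernel) ?_
    refine jn 6683 (by decide +kernel) ?_
    refine jn 6786 (by decide +kernel) ?_
    refine jn 6857 (by decide +kernel) ?_
    refine jn 7099 (by decide +kernel) ?_
    refine jn 7211 (by decide +kernel) ?_
    refine jn 7303 (by decide +kernel) ?_
    refine jn 7406 (by decide +kernel) ?_
    refine jn 7487 (by decide +kernel) ?_
    refine jn 7567 (by decide +kernel) ?_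
    refine jn 7646 (by decide +kernel) ?_
    refine jn 7739 (by decide +kernel) ?_
    refine jn 7829 (by decide +kernel) ?_
    refine jn 7939 (by decide +kernel) ?_
    refine jn 8026 (by decide +kernel) ?_
    refine jn 8102 (by decide +kernel) ?_
    refine jn 8219 (by decide +kernel) ?_
    refine jn 8321 (by decide +kernel) ?_
    refine jn 8422 (by decide +kernel) ?_
    refine jn 8531 (by decide +kernel) ?_
    refine jn 8621 (by decide +kernel) ?_
    refine jn 8739 (by decide +kernel) ?_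
    refine jn 9155 (by decide +kernel) ?_
    refine jn 9345 (by decide +kernel) ?_
    refine jn 9498 (by decide +kernel) ?_
    refine jn 9608 (by decide +kernel) ?_
    refine jn 9718 (by decide +kernel) ?_
    refine jn 9811 (by decide +kernel) ?_
    refine jn 9892 (by decide +kernel) ?_
    refine jn 9969 (by decide +kernel) ?_
    refine jn 10037 (by decide +kernel) ?_
    refine jn 10296 (by decide +kernel) ?_
    refine jn 10628 (by decide +kernel) ?_
    refine jn 10751 (by decide +kernel) ?_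
    refine jn 10896 (by decide +kernel) ?_
    refine jn 11034 (by decide +kernel) ?_
    refine jn 11145 (by decide +kernel) ?_
    refine jn 11243 (by decide +kernel) ?_
    refine jn 11404 (by decide +kernel) ?_
    refine jn 11877 (by decide +kernel) ?_
    refine jn 12093 (by decide +kernel) ?_
    refine jn 12248 (by decide +kernel) ?_
    refine jn 12401 (by decide +kernel) ?_
    refine jn 12513 (by decide +kernel) ?_
    refine jn 12611 (by decide +kernel) ?_
    refine jn 12989 (by decide +kernel) ?_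
    refine jn 13210 (by decide +kernel) ?_
    refine jn 13380 (by decide +kernel) ?_
    refine jn 13478 (by decide +kernel) ?_
    refine jn 13581 (by decide +kernel) ?_
    refine jn 13674 (by decide +kernel) ?_
    refine jn 13752 (by decide +kernel) ?_
    refine jn 13837 (by decide +kernel) ?_
    refine jn 14107 (by decide +kernel) ?_
    refine jn 14495 (by decide +kernel) ?_
    refine jn 14741 (by decide +kernel) ?_
    refine jn 14882 (by decide +kernel) ?_
    refine jn 15008 (by decide +kernel) ?_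
    refine jn 15134 (by decide +kernel) ?_
    refine jn 15554 (by decide +kernel) ?_
    refine jn 15867 (by decide +kernel) ?_
    refine jn 16111 (by decide +kernel) ?_
    refine jn 16349 (by decide +kernel) ?_
    refine jn 16511 (by decide +kernel) ?_
    refine jn 17026 (by decide +kernel) ?_
    exact je (by decide +kernel)
  · refine fin 10296 1354 T64_1 ?_
    refine jn 4 (by decide +kernel) ?_
    refine jn 5 (by decide +kernel) ?_
    refine jn 6 (by decide +kernel) ?_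
    refine jn 7 (by decide +kernel) ?_
    refine jn 8 (by decide +kernel) ?_
    refine jn 9 (by decide +kernel) ?_
    refine jn 10 (by decide +kernel) ?_
    refine jn 11 (by decide +kernel) ?_
    refine jn 12 (by decide +kernel) ?_
    refine jn 13 (by decide +kernel) ?_
    refine jn 14 (by decide +kernel) ?_
    refine jn 15 (by decide +kernel) ?_
    refine jn 16 (by decide +kernel) ?_
    refine jn 17 (by decide +kernel) ?_
    refine jn 18 (by decide +kernel) ?_
    refine jn 19 (by decide +kernel) ?_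
    refine jn 20 (by decide +kernel) ?_
    refine jn 21 (by decide +kernel) ?_
    refine jn 27 (by decide +kernel) ?_
    refine jn 28 (by decide +kernel) ?_
    refine jn 29 (by decide +kernel) ?_
    refine jn 30 (by decide +kernel) ?_
    refine jn 31 (by decide +kernel) ?_
    refine jn 51 (by decide +kernel) ?_
    refine jn 66 (by decide +kernel) ?_
    refine jn 73 (by decide +kernel) ?_
    refine jn 80 (by decide +kernel) ?_
    refine jn 91 (by decide +kernel) ?_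
    refine jn 94 (by decide +kernel) ?_
    refine jn 95 (by decide +kernel) ?_
    refine jn 96 (by decide +kernel) ?_
    refine jn 97 (by decide +kernel) ?_
    refine jn 102 (by decide +kernel) ?_
    refine jn 103 (by decide +kernel) ?_
    refine jn 106 (by decide +kernel) ?_
    refine jn 111 (by decide +kernel) ?_
    refine jn 120 (by decide +kernel) ?_
    refine jn 121 (by decide +kernel) ?_
    refine jn 122 (by decide +kernel) ?_
    refine jn 123 (by decide +kernel) ?_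
    refine jn 128 (by decide +kernel) ?_
    refine jn 130 (by decide +kernel) ?_
    refine jn 131 (by decide +kernel) ?_
    refine jn 134 (by decide +kernel) ?_
    refine jn 147 (by decide +kernel) ?_
    refine jn 153 (by decide +kernel) ?_
    refine jn 163 (by decide +kernel) ?_
    refine jn 165 (by decide +kernel) ?_
    refine jn 167 (by decide +kernel) ?_
    refine jn 169 (by decide +kernel) ?_
    refine jn 171 (by decide +kernel) ?_
    refine jn 174 (by decide +kernel) ?_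
    refine jn 175 (by decide +kernel) ?_
    refine jn 186 (by decide +kernel) ?_
    refine jn 193 (by decide +kernel) ?_
    refine jn 205 (by decide +kernel) ?_
    refine jn 213 (by decide +kernel) ?_
    refine jn 224 (by decide +kernel) ?_
    refine jn 232 (by decide +kernel) ?_
    refine jn 241 (by decide +kernel) ?_
    refine jn 243 (by decide +kernel) ?_
    refine jn 244 (by decide +kernel) ?_
    refine jn 246 (by decide +kernel) ?_
    refine jn 247 (by decide +kernel) ?_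
    refine jn 249 (by decide +kernel) ?_
    refine jn 262 (by decide +kernel) ?_
    refine jn 267 (by decide +kernel) ?_
    refine jn 279 (by decide +kernel) ?_
    refine jn 284 (by decide +kernel) ?_
    refine jn 293 (by decide +kernel) ?_
    refine jn 294 (by decide +kernel) ?_
    refine jn 295 (by decide +kernel) ?_
    refine jn 296 (by decide +kernel) ?_
    refine jn 298 (by decide +kernel) ?_
    refine jn 299 (by decide +kernel) ?_
    refine jn 300 (by decide +kernel) ?_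
    refine jn 301 (by decide +kernel) ?_
    refine jn 302 (by decide +kernel) ?_
    refine jn 303 (by decide +kernel) ?_
    refine jn 304 (by decide +kernel) ?_
    refine jn 314 (by decide +kernel) ?_
    refine jn 321 (by decide +kernel) ?_
    refine jn 332 (by decide +kernel) ?_
    refine jn 338 (by decide +kernel) ?_
    refine jn 348 (by decide +kernel) ?_
    refine jn 354 (by decide +kernel) ?_
    refine jn 365 (by decide +kernel) ?_
    refine jn 371 (by decide +kernel) ?_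
    refine jn 380 (by decide +kernel) ?_
    refine jn 381 (by decide +kernel) ?_
    refine jn 382 (by decide +kernel) ?_
    refine jn 383 (by decide +kernel) ?_
    refine jn 384 (by decide +kernel) ?_
    refine jn 385 (by decide +kernel) ?_
    refine jn 386 (by decide +kernel) ?_
    refine jn 387 (by decide +kernel) ?_
    refine jn 388 (by decide +kernel) ?_
    refine jn 389 (by decide +kernel) ?_
    refine jn 393 (by decide +kernel) ?_
    refine jn 394 (by decide +kernel) ?_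
    refine jn 401 (by decide +kernel) ?_
    refine jn 403 (by decide +kernel) ?_
    refine jn 406 (by decide +kernel) ?_
    refine jn 409 (by decide +kernel) ?_
    refine jn 419 (by decide +kernel) ?_
    refine jn 422 (by decide +kernel) ?_
    refine jn 429 (by decide +kernel) ?_
    refine jn 433 (by decide +kernel) ?_
    refine jn 436 (by decide +kernel) ?_
    refine jn 438 (by decide +kernel) ?_
    refine jn 453 (by decide +kernel) ?_
    refine jn 462 (by decide +kernel) ?_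
    refine jn 468 (by decide +kernel) ?_
    refine jn 470 (by decide +kernel) ?_
    refine jn 472 (by decide +kernel) ?_
    refine jn 478 (by decide +kernel) ?_
    refine jn 481 (by decide +kernel) ?_
    refine jn 482 (by decide +kernel) ?_
    refine jn 483 (by decide +kernel) ?_
    refine jn 484 (by decide +kernel) ?_
    refine jn 485 (by decide +kernel) ?_
    refine jn 486 (by decide +kernel) ?_
    refine jn 500 (by decide +kernel) ?_
    refine jn 509 (by decide +kernel) ?_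
    refine jn 516 (by decide +kernel) ?_
    refine jn 519 (by decide +kernel) ?_
    refine jn 532 (by decide +kernel) ?_
    refine jn 547 (by decide +kernel) ?_
    refine jn 564 (by decide +kernel) ?_
    refine jn 579 (by decide +kernel) ?_
    refine jn 595 (by decide +kernel) ?_
    refine jn 604 (by decide +kernel) ?_
    refine jn 607 (by decide +kernel) ?_
    refine jn 608 (by decide +kernel) ?_
    refine jn 610 (by decide +kernel) ?_
    refine jn 611 (by decide +kernel) ?_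
    refine jn 612 (by decide +kernel) ?_
    refine jn 622 (by decide +kernel) ?_
    refine jn 625 (by decide +kernel) ?_
    refine jn 640 (by decide +kernel) ?_
    refine jn 651 (by decide +kernel) ?_
    refine jn 654 (by decide +kernel) ?_
    refine jn 662 (by decide +kernel) ?_
    refine jn 663 (by decide +kernel) ?_
    refine jn 664 (by decide +kernel) ?_
    refine jn 666 (by decide +kernel) ?_
    refine jn 667 (by decide +kernel) ?_
    refine jn 668 (by decide +kernel) ?_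
    refine jn 681 (by decide +kernel) ?_
    refine jn 697 (by decide +kernel) ?_
    refine jn 711 (by decide +kernel) ?_
    refine jn 722 (by decide +kernel) ?_
    refine jn 737 (by decide +kernel) ?_
    refine jn 748 (by decide +kernel) ?_
    refine jn 753 (by decide +kernel) ?_
    refine jn 767 (by decide +kernel) ?_
    refine jn 775 (by decide +kernel) ?_
    refine jn 776 (by decide +kernel) ?_
    refine jn 778 (by decide +kernel) ?_
    refine jn 780 (by decide +kernel) ?_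
    refine jn 793 (by decide +kernel) ?_
    refine jn 804 (by decide +kernel) ?_
    refine jn 818 (by decide +kernel) ?_
    refine jn 830 (by decide +kernel) ?_
    refine jn 834 (by decide +kernel) ?_
    refine jn 844 (by decide +kernel) ?_
    refine jn 856 (by decide +kernel) ?_
    refine jn 868 (by decide +kernel) ?_
    refine jn 876 (by decide +kernel) ?_
    refine jn 881 (by decide +kernel) ?_
    refine jn 891 (by decide +kernel) ?_
    refine jn 904 (by decide +kernel) ?_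
    refine jn 913 (by decide +kernel) ?_
    refine jn 915 (by decide +kernel) ?_
    refine jn 931 (by decide +kernel) ?_
    refine jn 934 (by decide +kernel) ?_
    refine jn 946 (by decide +kernel) ?_
    refine jn 961 (by decide +kernel) ?_
    refine jn 963 (by decide +kernel) ?_
    refine jn 967 (by decide +kernel) ?_
    refine jn 981 (by decide +kernel) ?_
    refine jn 984 (by decide +kernel) ?_
    refine jn 996 (by decide +kernel) ?_
    refine jn 1005 (by decide +kernel) ?_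
    refine jn 1013 (by decide +kernel) ?_
    refine jn 1023 (by decide +kernel) ?_
    refine jn 1034 (by decide +kernel) ?_
    refine jn 1044 (by decide +kernel) ?_
    refine jn 1056 (by decide +kernel) ?_
    refine jn 1063 (by decide +kernel) ?_
    refine jn 1064 (by decide +kernel) ?_
    refine jn 1065 (by decide +kernel) ?_
    refine jn 1066 (by decide +kernel) ?_
    refine jn 1077 (by decide +kernel) ?_
    refine jn 1086 (by decide +kernel) ?_
    refine jn 1096 (by decide +kernel) ?_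
    refine jn 1105 (by decide +kernel) ?_
    refine jn 1118 (by decide +kernel) ?_
    refine jn 1120 (by decide +kernel) ?_
    refine jn 1122 (by decide +kernel) ?_
    refine jn 1133 (by decide +kernel) ?_
    refine jn 1147 (by decide +kernel) ?_
    refine jn 1148 (by decide +kernel) ?_
    refine jn 1152 (by decide +kernel) ?_
    refine jn 1166 (by decide +kernel) ?_
    refine jn 1177 (by decide +kernel) ?_
    refine jn 1193 (by decide +kernel) ?_
    refine jn 1208 (by decide +kernel) ?_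
    refine jn 1218 (by decide +kernel) ?_
    refine jn 1229 (by decide +kernel) ?_
    refine jn 1238 (by decide +kernel) ?_
    refine jn 1247 (by decide +kernel) ?_
    refine jn 1251 (by decide +kernel) ?_
    refine jn 1265 (by decide +kernel) ?_
    refine jn 1275 (by decide +kernel) ?_
    refine jn 1276 (by decide +kernel) ?_
    refine jn 1278 (by decide +kernel) ?_
    refine jn 1295 (by decide +kernel) ?_
    refine jn 1302 (by decide +kernel) ?_
    refine jn 1305 (by decide +kernel) ?_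
    refine jn 1316 (by decide +kernel) ?_
    refine jn 1333 (by decide +kernel) ?_
    refine jn 1350 (by decide +kernel) ?_
    exact je (by decide +kernel)

end Pool.Agent.MP_2339ce_nt.NR
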