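import Pool.Agent.MP_2339ce_nt.Q2.NC.L8
import Pool.Agent.MP_2339ce_nt.Q2.CkI

/-! Block NR: runs. -/

set_option autoImplicit false
set_option maxRecDepth 100000

noncomputable section

namespace Pool.Agent.MP_2339ce_nt.NR

open Q2.Top

def T87_0 : Ph :=
  (.na 372 16 (.na 173 11 (.na 92 9 (.nx 91 13316087 (.nr 90 623489 (.nx 68 1664512 (.nx 20 19111
  (.nx 3 144 (.nx 2 143 (.nr 1 76 (.lg 0 true 1 43 43 11 0 102960) (.l1 .sk)) (.l1 .sk)) (.nr 10
  110219 (.lg 0 false 7 101 103 13 0 720720) (.nx 19 2582 (.nx 17 1627 (.lg 0 false 7 97 103 13 0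
  720720) (.nr 18 131073 (.lg 0 true 1 89 89 11 0 102960) .out)) .out))) (.nr 67 131073 (.nx 59
  832257 (.nr 27 727 (.lg 0 true 7 97 97 13 0 720720) (.nx 58 660563 (.nx 34 38224 (.lg 1 false 7
  101 107 13 70204 720720) (.nx 41 82572 (.lg 1 true 7 101 107 13 35100 720720) (.nr 57 110219 (.nr
  44 2905 (.lg 2 true 3 97 97 13 64966 102960) (.nx 51 131073 (.lg 1 true 7 97 103 13 13666 720720)
  (.nr 56 65537 (.nr 53 11603 (.lg 2 true 2 97 101 11 16259 102960) (.lg 2 false 3 101 103 13 5124
  720720)) .out))) .out))) .out)) (.nr 66 129 (.lg 0 true 7 83 89 13 0 720720) .out)) .out)) (.nr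
  89 55 (.lg 0 true 21 89 89 13 0 144144) .out)) .out) .out) (.na 172 10 (.nx 171 13316087 (.nr 170
  623489 (.nx 95 144 (.nx 94 143 (.nr 93 84 (.lg 0 true 1 31 31 7 0 144144) (.l1 .sk)) (.l1 .sk))
  (.nr 164 311745 (.nx 111 20642 (.nr 105 110219 (.lg 0 false 10 97 101 16 0 720720) (.nx 110 2582
  (.lg 0 false 5 97 97 16 0 720720) .out)) (.nr 163 131073 (.nx 142 1664512 (.nr 121 745 (.lg 0
  true 10 89 89 16 0 102960) (.nx 141 524289 (.nx 126 46340 (.lg 1 false 5 101 103 16 64997 720720)
  (.nr 130 3129 (.lg 2 true 4 83 83 16 50318 20592) (.nx 135 104033 (.lg 1 true 5 101 103 16 28952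
  720720) (.nr 140 110219 (.lg 2 false 5 101 103 16 11981 720720) .out)))) .out)) (.nr 162 65 (.lg
  0 true 20 83 83 16 0 102960) .out)) .out)) (.nx 169 814 (.lg 0 false 5 83 83 16 0 51480) .out)))
  .out) .out) .ne)) (.na 289 13 (.na 225 12 (.nx 224 1664512 (.nr 223 623489 (.nx 176 144 (.nx 175
  143 (.nr 174 101 (.lg 0 true 1 31 31 9 0 144144) (.l1 .sk)) (.l1 .sk)) (.nr 212 131073 (.nx 186
  35390 (.lg 0 false 10 101 101 16 0 720720) (.nr 201 829 (.lg 0 true 15 79 79 16 0 51480) (.nx 211
  416129 (.lg 2 false 10 101 103 16 37911 720720) .out))) (.nx 222 1292 (.lg 0 false 10 79 79 16 0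
  102960) .out))) .out) .out) (.nx 288 1664512 (.nr 287 623489 (.nr 226 2 .s1 (.nx 240 10323 (.nx
  228 143 (.nr 227 110 (.lg 0 true 1 41 41 13 0 720720) (.l1 .sk)) (.nx 229 144 (.l1 .sk) (.nr 234
  155873 (.lg 0 false 5 101 101 19 0 720720) (.nx 239 1292 (.lg 0 false 5 97 101 19 0 720720)
  .out)))) (.nr 286 110219 (.nr 251 829 (.nx 245 524289 (.lg 0 true 5 89 89 19 0 102960) (.nr 250
  65 (.lg 0 true 5 79 79 19 0 102960) .out)) (.nx 285 416129 (.nr 252 3171 (.lg 2 false 1 89 89 13
  35891 20592) (.nr 276 77937 (.nr 264 46342 (.nx 254 19482 (.lg 0 false 2 101 103 13 0 720720)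
  (.nr 259 23702 (.lg 2 true 5 79 79 19 12515 102960) (.lg 2 false 5 83 83 19 24397 102960))) (.nx
  275 208065 (.nr 269 55110 (.lg 0 true 5 101 103 19 0 720720) (.nx 274 131073 (.lg 0 true 5 101
  107 19 0 720720) .out)) .out)) (.nx 284 82572 (.nx 281 65537 (.lg 0 true 5 101 107 19 0 720720)
  (.nr 283 92683 (.lg 0 true 2 101 103 13 0 720720) .out)) .out))) .out)) .out))) .out) .out)) (.na
  331 14 (.nx 330 1664512 (.nr 329 623489 (.nr 290 6 .s1 (.nx 293 144 (.nx 292 143 (.nr 291 118
  (.l1 (.ls 23 31 1575)) (.l1 .sk)) (.l1 .sk)) (.nx 308 29192 (.nr 300 155873 (.lg 0 false 7 101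
  101 16 0 720720) (.nx 307 1292 (.lg 0 false 7 79 79 16 0 72072) .out)) (.nr 328 110219 (.nr 320
  829 (.lg 0 true 12 79 79 16 0 20592) (.nx 327 416129 (.lg 2 false 7 101 101 16 38655 720720)
  .out)) .out)))) .out) .out) (.nx 371 1664512 (.nr 370 623489 (.nr 332 8 .s1 (.nx 364 524289 (.nx
  334 143 (.nr 333 136 (.lg 0 true 1 31 31 11 0 144144) (.l1 .sk)) (.nx 335 144 (.l1 .sk) (.nx 346
  19482 (.nr 340 155873 (.lg 0 false 5 101 101 13 0 720720) (.nx 345 1292 (.lg 0 false 5 89 89 13 0
  720720) .out)) (.nr 363 110219 (.nr 351 1621 (.lg 0 true 5 89 89 13 0 720720) (.nx 362 416129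
  (.nx 356 65537 (.lg 1 false 5 101 103 13 57922 720720) (.nr 361 92683 (.lg 2 false 5 97 101 13
  18355 720720) .out)) .out)) .out)))) (.nr 369 65 (.lg 0 true 5 71 71 13 0 720720) .out))) .out)
  .out)))) (.na 456 19 (.na 420 17 (.nx 419 1664512 (.nr 418 1048577 (.nr 373 11 .s1 (.nx 375 143
  (.nr 374 144 (.lg 0 true 1 37 37 11 0 144144) (.l1 .sk)) (.nx 376 144 (.l1 .sk) (.nr 415 623489
  (.nr 409 220437 (.nx 381 13005 (.lg 0 false 5 101 101 17 0 720720) (.nr 408 110219 (.nr 392 829
  (.nx 386 524289 (.lg 0 true 5 83 83 17 0 102960) (.nr 391 129 (.lg 0 true 5 79 79 17 0 102960)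
  .out)) (.nx 407 416129 (.nx 397 29194 (.lg 1 false 5 97 103 17 86770 720720) (.nr 398 3171 (.lg 2
  false 1 89 89 11 35891 144144) (.nx 403 82572 (.lg 1 true 5 97 103 17 38653 720720) (.nr 406
  77937 (.lg 2 false 3 97 101 13 9669 144144) .out)))) .out)) .out)) (.nx 414 1627 (.lg 0 false 5
  89 97 17 0 720720) .out)) (.nx 417 257 (.lg 0 false 2 73 73 13 0 20592) .out))))) .out) .out)
  (.na 421 18 .ne (.nx 455 1664512 (.nr 454 1048577 (.nr 422 14 .s1 (.nx 426 257 (.nx 424 143 (.nr
  423 161 (.lg 0 true 1 29 29 13 0 20592) (.l1 .sk)) (.nx 425 144 (.l1 .sk) (.l1 (.ls 89 43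
  2520)))) (.nr 453 623489 (.nr 447 220437 (.nx 433 23171 (.lg 0 false 7 97 101 19 0 720720) (.nr
  446 92683 (.nr 440 634 (.lg 0 true 7 83 83 19 0 144144) (.nx 445 262145 (.lg 2 false 5 101 103 19
  40962 720720) .out)) .out)) (.nx 452 1627 (.lg 0 false 5 83 83 19 0 102960) .out)) .out))) .out)
  .out))) (.na 527 22 (.na 487 21 (.nx 486 1664512 (.nr 485 1048577 (.nr 457 15 .s1 (.nx 460 144
  (.nx 459 143 (.nr 458 178 (.lg 0 false 1 31 31 11 0 144144) (.l1 .sk)) (.l1 .sk)) (.nx 461 257
  (.l1 (.ls 89 37 2387)) (.nr 484 623489 (.nr 478 220437 (.nx 466 23171 (.lg 0 false 5 103 103 16 0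
  720720) (.nr 477 92683 (.nr 471 634 (.lg 0 true 5 83 83 16 0 51480) (.nx 476 262145 (.lg 2 false
  5 103 103 16 40962 720720) .out)) .out)) (.nx 483 1627 (.lg 0 false 5 83 83 16 0 51480) .out))
  .out)))) .out) .out) (.nx 526 1664512 (.nr 525 1048577 (.nr 488 18 .s1 (.nx 519 262145 (.nx 490
  143 (.nr 489 186 (.lg 0 true 1 37 37 16 0 144144) (.l1 .sk)) (.nx 491 144 (.l1 .sk) (.nx 492 257
  (.l1 (.ls 89 37 2160)) (.nr 518 623489 (.nx 509 41287 (.nr 497 92683 (.lg 0 false 5 97 101 19 0
  720720) (.nx 508 13005 (.nr 502 220437 (.lg 0 false 5 97 101 19 0 720720) (.nx 507 1627 (.lg 0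
  false 5 83 89 19 0 360360) .out)) .out)) (.nr 517 77937 (.nr 513 1854 (.lg 0 true 4 83 83 17 0
  144144) (.lg 2 false 4 89 101 17 19337 144144)) .out)) .out)))) (.nr 524 217 (.lg 0 true 5 79 79
  19 0 360360) .out))) .out) .out)) (.na 560 23 (.nx 559 1664512 (.nr 558 1048577 (.nr 528 19 .s1
  (.nx 531 144 (.nx 530 143 (.nr 529 195 (.l1 (.ls 23 37 932)) (.l1 .sk)) (.l1 .sk)) (.nx 542 13005
  (.nx 534 647 (.nx 532 257 (.l1 (.ls 79 41 2062)) (.nr 533 623489 (.l1 (.ls 79 53 16028)) .out))
  (.nr 541 370729 (.lg 0 false 7 89 89 17 0 144144) .out)) (.nr 557 92683 (.nr 549 634 (.lg 0 true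
  7 73 73 17 0 144144) (.nx 556 262145 (.lg 2 false 7 97 97 17 72983 720720) .out)) .out)))) .out)
  .out) (.nx 587 1664512 (.nr 586 1048577 (.nr 561 20 .s1 (.nx 565 257 (.nx 563 143 (.nr 562 203
  (.lg 0 false 1 31 31 11 0 720720) (.l1 .sk)) (.nx 564 144 (.l1 .sk) (.l1 (.ls 89 31 1973)))) (.nr
  585 311745 (.nx 574 20644 (.nr 569 110219 (.lg 0 false 4 101 101 16 0 720720) (.nx 573 8193 (.lg
  0 false 4 101 101 16 0 720720) .out)) (.nr 584 77937 (.nr 579 513 (.lg 0 true 5 83 83 16 0 51480)
  (.nx 583 165142 (.lg 2 false 4 101 103 16 38673 720720) .out)) .out)) .out))) .out) .out)))))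

def T87_1 : Ph :=
  (.na 408 20 (.na 267 14 (.na 101 10 (.na 100 9 (.nx 99 13316087 (.nr 98 623489 (.nx 75 1664512
  (.nx 26 26007 (.nx 3 160 (.nx 2 159 (.nr 1 80 (.lg 0 true 1 37 37 11 0 2544) (.l1 .sk)) (.l1
  .sk)) (.nr 14 110219 (.lg 0 false 11 103 107 19 0 38198160) (.nx 25 2582 (.nx 23 1627 (.nr 19
  370729 (.lg 0 false 5 97 103 13 0 267120) (.nx 22 647 (.lg 0 false 3 89 97 13 0 7632) .out)) (.nr
  24 131073 (.lg 0 false 1 83 83 11 0 2544) .out)) .out))) (.nr 74 131073 (.nx 68 832257 (.nr 33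
  727 (.lg 0 true 7 89 89 13 0 17808) (.nx 67 660563 (.nr 36 5806 (.nr 35 2905 (.lg 2 true 2 101
  101 11 72235 267120) (.lg 2 false 1 101 101 11 18078 267120)) (.nx 43 38224 (.lg 1 false 7 101
  109 13 63786 38198160) (.nx 48 56180 (.lg 1 false 5 103 109 13 43399 38198160) (.nr 49 11603 (.lg
  2 false 1 101 101 11 9045 267120) (.nx 62 131073 (.nx 54 82572 (.lg 1 false 5 103 109 13 29528
  38198160) (.nr 61 110219 (.lg 1 true 7 101 109 13 16898 38198160) .out)) (.nr 66 65537 (.nr 64
  55110 (.lg 2 false 2 101 103 11 5331 267120) (.nx 65 262144 .out (.lg 2 true 1 97 97 11 3168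
  267120))) .out)))))) .out)) (.nr 73 129 (.lg 0 true 5 83 83 13 0 12720) .out)) .out)) (.nr 97 55
  (.lg 0 true 22 83 89 13 0 27984) .out)) .out) .out) (.lg 0 false 1 0 0 7 0 24)) (.na 172 12 (.nx
  171 1664512 (.nr 170 623489 (.nx 103 159 (.nr 102 107 (.lg 0 true 1 31 31 11 0 267120) (.l1 .sk))
  (.nx 104 160 (.l1 .sk) (.nr 158 131073 (.nx 115 26007 (.lg 0 false 11 101 103 19 0 2938320) (.nx
  150 524289 (.nr 126 1621 (.lg 0 true 11 83 89 19 0 139920) (.nx 149 416129 (.nx 137 65537 (.lg 1
  false 11 97 103 19 63786 2938320) (.nr 148 110219 (.lg 2 false 11 97 103 19 21290 2938320) .out))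
  .out)) (.nr 157 65 (.lg 0 true 7 73 73 13 0 89040) .out))) (.nx 169 1292 (.lg 0 false 11 83 97 19
  0 2938320) .out)))) .out) .out) (.na 222 13 (.nx 221 1664512 (.nr 220 623489 (.nx 175 160 (.nx
  174 159 (.nr 173 116 (.lg 0 false 1 29 29 13 0 38160) (.l1 .sk)) (.l1 .sk)) (.nx 194 29192 (.nr
  186 155873 (.lg 0 false 11 97 101 23 0 419760) (.nx 193 1292 (.lg 0 false 7 83 89 19 0 267120)
  .out)) (.nr 219 110219 (.nx 213 524289 (.nr 201 829 (.lg 0 true 7 83 83 19 0 267120) (.nx 212
  416129 (.lg 2 false 11 101 107 23 47796 38198160) .out)) (.nr 218 65 (.lg 0 true 5 71 71 17 0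
  38160) .out)) .out))) .out) .out) (.nx 266 1664512 (.nr 265 623489 (.nr 223 4 .s1 (.nx 259 524289
  (.nx 242 29192 (.nx 225 159 (.nr 224 125 (.lg 0 true 1 31 31 9 0 3472560) (.l1 .sk)) (.nx 226 160
  (.l1 .sk) (.nr 237 155873 (.lg 0 false 11 101 103 16 0 38198160) (.nx 241 1292 (.lg 0 false 4 83
  83 16 0 33072) .out)))) (.nr 258 110219 (.nr 246 829 (.lg 0 true 4 83 83 16 0 33072) (.nx 257
  416129 (.lg 2 false 11 101 107 16 47796 38198160) .out)) .out)) (.nr 264 65 (.lg 0 true 5 71 71
  16 0 82680) .out))) .out) .out)))) (.na 359 16 (.na 314 15 (.nx 313 1664512 (.nr 312 623489 (.nr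
  268 7 .s1 (.nx 306 524289 (.nx 270 159 (.nr 269 134 (.lg 0 true 1 29 29 11 0 267120) (.l1 .sk))
  (.nx 271 160 (.l1 .sk) (.nr 300 155873 (.nx 282 29192 (.lg 0 false 11 97 103 19 0 2938320) (.nr
  299 110219 (.nr 287 829 (.lg 0 true 5 83 83 13 0 89040) (.nx 298 416129 (.lg 2 false 11 97 103 19
  47796 2938320) .out)) .out)) (.nx 305 1292 (.lg 0 false 5 83 83 13 0 89040) .out)))) (.nr 311 65
  (.lg 0 true 5 71 71 13 0 89040) .out))) .out) .out) (.nx 358 1664512 (.nr 357 623489 (.nr 315 9
  .s1 (.nx 351 524289 (.nx 334 29192 (.nx 317 159 (.nr 316 143 (.lg 0 false 1 29 29 16 0 267120)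
  (.l1 .sk)) (.nx 318 160 (.l1 .sk) (.nr 329 155873 (.lg 0 false 11 101 103 17 0 38198160) (.nx 333
  1292 (.lg 0 false 4 83 83 16 0 38160) .out)))) (.nr 350 110219 (.nr 338 829 (.lg 0 true 4 79 79
  16 0 38160) (.nx 349 416129 (.lg 2 false 11 101 107 17 47796 38198160) .out)) .out)) (.nr 356 65
  (.lg 0 true 5 71 71 16 0 19080) .out))) .out) .out)) (.na 406 17 (.nx 405 1664512 (.nr 404
  1048577 (.nr 360 10 .s1 (.nx 363 160 (.nx 362 159 (.nr 361 152 (.lg 0 true 1 31 31 11 0 38160)
  (.l1 .sk)) (.l1 .sk)) (.nx 381 29194 (.nx 364 257 (.l1 (.ls 89 41 2531)) (.nr 380 623489 (.nr 371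
  155873 (.lg 0 false 7 97 103 19 0 267120) (.nx 379 8193 (.nr 373 220437 (.lg 0 false 2 97 101 13
  0 38160) (.nx 378 1627 (.nr 375 370729 (.lg 0 false 2 83 83 13 0 2544) (.nx 377 647 (.lg 0 false
  2 79 79 13 0 2544) .out)) .out)) .out)) .out)) (.nr 403 110219 (.nr 400 92683 (.nx 394 524289
  (.nr 386 829 (.lg 0 true 5 79 83 17 0 12720) (.nx 393 416129 (.lg 2 false 7 101 109 19 40200
  38198160) .out)) (.nr 399 129 (.lg 0 true 5 73 73 17 0 12720) .out)) (.nx 402 65537 (.lg 0 true 2
  97 101 13 0 38160) .out)) .out)))) .out) .out) (.na 407 18 .ne (.lg 0 false 1 0 0 7 0 24)))))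
  (.na 565 26 (.na 481 23 (.na 444 21 (.nx 443 1664512 (.nr 442 1048577 (.nr 409 16 .s1 (.nx 412
  160 (.nx 411 159 (.nr 410 188 (.lg 0 true 1 31 31 13 0 267120) (.l1 .sk)) (.l1 .sk)) (.nx 424
  13005 (.nx 413 257 (.l1 (.ls 89 41 2025)) (.nr 423 623489 (.nr 420 220437 (.lg 0 false 7 89 101
  23 0 267120) (.nx 422 1627 (.lg 0 false 2 89 89 17 0 12720) .out)) .out)) (.nr 441 92683 (.nx 426
  23171 (.lg 0 false 2 97 101 17 0 267120) (.nx 436 262145 (.nr 428 1854 (.lg 0 true 2 83 83 17 0
  12720) (.nx 430 41287 (.lg 1 false 2 97 101 17 50650 267120) (.nr 435 77937 (.nr 432 46342 (.lg 2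
  false 2 97 97 17 14237 267120) (.nx 434 165142 (.lg 2 false 2 97 101 17 23911 267120) .out))
  .out))) (.nr 440 217 (.lg 0 true 4 79 79 19 0 12720) .out))) .out)))) .out) .out) (.nx 480
  1664512 (.nr 479 1048577 (.nr 445 17 .s1 (.nx 449 257 (.nx 447 159 (.nr 446 206 (.lg 0 true 1 29
  29 16 0 3472560) (.l1 .sk)) (.nx 448 160 (.l1 .sk) (.l1 (.ls 83 37 1929)))) (.nr 478 623489 (.nr
  473 220437 (.nr 468 92683 (.nx 462 262145 (.nx 453 41287 (.lg 0 false 4 97 101 17 0 267120) (.nr
  461 77937 (.nr 457 1854 (.lg 0 true 4 79 79 17 0 53424) (.lg 2 false 4 97 97 17 23911 267120))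
  .out)) (.nr 467 217 (.lg 0 true 5 73 73 17 0 133560) .out)) (.nx 472 13005 (.lg 0 false 4 97 97
  17 0 267120) .out)) (.nx 477 1627 (.lg 0 false 4 83 83 17 0 53424) .out)) .out))) .out) .out))
  (.na 509 24 (.nx 508 1664512 (.nr 507 1048577 (.nr 482 20 .s1 (.nx 486 257 (.nx 484 159 (.nr 483
  214 (.lg 0 true 1 23 23 11 0 38160) (.l1 .sk)) (.nx 485 160 (.l1 .sk) (.l1 (.ls 83 31 1761))))
  (.nr 506 311745 (.nx 493 20644 (.lg 0 false 7 97 101 16 0 267120) (.nr 505 77937 (.nr 500 513
  (.lg 0 true 7 79 79 16 0 8904) (.nx 504 165142 (.lg 2 false 4 97 101 16 47821 38160) .out))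
  .out)) .out))) .out) .out) (.na 538 25 (.nx 537 1664512 (.nr 536 1048577 (.nr 510 21 .s1 (.nx 532
  208065 (.nx 512 159 (.nr 511 223 (.lg 0 true 1 31 31 13 0 267120) (.l1 .sk)) (.nx 513 160 (.l1
  .sk) (.nx 514 257 (.l1 (.ls 89 41 1688)) (.nr 531 311745 (.nx 522 20644 (.nr 519 110219 (.lg 0
  false 5 97 101 23 0 3472560) (.nx 521 8193 (.lg 0 false 2 101 101 19 0 267120) .out)) (.nr 530
  77937 (.nr 524 1307 (.lg 0 true 2 83 83 19 0 7632) (.nx 529 165142 (.nx 526 41287 (.lg 1 false 2
  101 103 19 47821 3472560) (.nr 528 65537 (.lg 2 false 2 101 103 19 20114 3472560) .out)) .out))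
  .out)) .out)))) (.nr 535 217 (.lg 0 true 3 79 79 23 0 7632) .out))) .out) .out) (.nx 564 1664512
  (.nr 563 1048577 (.nr 539 22 .s1 (.nx 553 41287 (.nx 541 159 (.nr 540 232 (.lg 0 false 1 23 23 16
  0 267120) (.l1 .sk)) (.nx 542 160 (.l1 .sk) (.nx 543 257 (.l1 (.ls 83 31 1620)) (.nr 552 311745
  (.nr 547 110219 (.lg 0 false 4 97 101 16 0 267120) (.nx 551 8193 (.lg 0 false 4 89 89 16 0
  267120) .out)) .out)))) (.nr 562 65537 (.nr 557 513 (.lg 0 true 4 73 73 16 0 12720) (.nx 561
  165142 (.lg 2 false 4 89 89 16 25593 267120) .out)) .out))) .out) .out)))) (.na 626 30 (.na 594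
  27 (.nx 593 1664512 (.nr 592 1048577 (.nr 566 23 .s1 (.nx 578 20644 (.nx 568 159 (.nr 567 241
  (.lg 0 false 1 23 23 11 0 496080) (.l1 .sk)) (.nx 569 160 (.l1 .sk) (.nx 570 257 (.l1 (.ls 83 41
  1558)) (.nr 577 311745 (.lg 0 false 7 97 101 19 0 3472560) .out)))) (.nr 591 77937 (.nr 585 513
  (.lg 0 true 7 79 79 19 0 231504) (.nx 590 165142 (.lg 2 false 5 97 97 19 47821 496080) .out))
  .out))) .out) .out) (.na 595 28 (.lg 0 false 1 0 0 7 0 24) (.nx 625 1664512 (.nr 624 1048577 (.nr
  596 26 .s1 (.nx 607 20644 (.nx 598 159 (.nr 597 268 (.l1 (.ls 31 37 905)) (.l1 .sk)) (.nx 599 160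
  (.l1 .sk) (.nx 600 257 (.l1 (.ls 89 41 1447)) (.nr 606 311745 (.nr 603 110219 (.lg 0 false 3 97
  97 19 0 267120) (.nx 605 8193 (.lg 0 false 2 101 101 19 0 267120) .out)) .out)))) (.nr 623 77937
  (.nx 619 208065 (.nx 617 165142 (.nr 614 55110 (.nr 609 8487 (.lg 0 true 2 89 89 19 0 17808) (.lg
  2 true 5 79 79 23 33843 89040)) (.nx 616 65537 (.lg 0 true 2 97 101 19 0 267120) .out)) (.nr 618
  513 (.lg 0 true 1 71 71 13 0 17808) .out)) (.nr 622 217 (.lg 0 true 3 79 79 19 0 53424) .out))
  .out))) .out) .out))) (.na 653 32 (.nx 652 1664512 (.nr 651 1048577 (.nr 627 28 .s1 (.nx 631 257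
  (.nx 629 159 (.nr 628 286 (.lg 0 false 1 23 23 19 0 38160) (.l1 .sk)) (.nx 630 160 (.l1 .sk) (.l1
  (.ls 83 43 1351)))) (.nr 650 311745 (.nx 638 20644 (.lg 0 false 7 89 97 29 0 267120) (.nr 649
  77937 (.nr 645 513 (.lg 0 true 7 73 79 29 0 267120) (.nx 648 165142 (.lg 2 false 3 97 97 23 47821
  38160) .out)) .out)) .out))) .out) .out) (.na 678 33 (.nx 677 1664512 (.nr 676 1048577 (.nr 654
  30 .s1 (.nx 672 208065 (.nx 656 159 (.nr 655 295 (.lg 0 true 1 29 29 13 0 267120) (.l1 .sk)) (.nx
  657 160 (.l1 .sk) (.nx 658 257 (.l1 (.ls 83 37 1267)) (.nr 671 440873 (.nr 667 110219 (.nx 660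
  20644 (.lg 0 false 2 97 97 13 0 267120) (.nr 666 77937 (.nr 661 1307 (.lg 0 false 1 83 83 13 0
  267120) (.nx 665 165142 (.nx 662 41287 (.lg 1 true 1 101 101 13 47821 267120) (.nr 664 65537 (.lg
  2 false 2 97 97 13 20114 267120) .out)) .out)) .out)) (.nx 670 10323 (.lg 0 false 3 97 101 19 0
  267120) .out)) .out)))) (.nr 675 217 (.lg 0 true 3 73 73 19 0 7632) .out))) .out) .out) .ne)))))

theorem c87 :
    OkQ ckI L8 143 8 24 0 34359738368 1 1099511627776 ∧
    OkQ ckI L8 159 8 35 0 34359738368 1 1099511627776 := by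
  refine ⟨?_, ?_⟩
  · refine fin 10296 588 T87_0 ?_
    refine jn 3 (by decide +kernel) ?_
    refine jn 4 (by decide +kernel) ?_
    refine jn 5 (by decide +kernel) ?_
    refine jn 6 (by decide +kernel) ?_
    refine jn 7 (by decide +kernel) ?_
    refine jn 8 (by decide +kernel) ?_
    refine jn 9 (by decide +kernel) ?_
    refine jn 10 (by decide +kernel) ?_
    refine jn 17 (by decide +kernel) ?_
    refine jn 20 (by decide +kernel) ?_
    refine jn 21 (by decide +kernel) ?_
    refine jn 22 (by decide +kernel) ?_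
    refine jn 23 (by decide +kernel) ?_
    refine jn 24 (by decide +kernel) ?_
    refine jn 25 (by decide +kernel) ?_
    refine jn 26 (by decide +kernel) ?_
    refine jn 27 (by decide +kernel) ?_
    refine jn 31 (by decide +kernel) ?_
    refine jn 34 (by decide +kernel) ?_
    refine jn 38 (by decide +kernel) ?_
    refine jn 41 (by decide +kernel) ?_
    refine jn 43 (by decide +kernel) ?_
    refine jn 44 (by decide +kernel) ?_
    refine jn 49 (by decide +kernel) ?_
    refine jn 51 (by decide +kernel) ?_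
    refine jn 53 (by decide +kernel) ?_
    refine jn 56 (by decide +kernel) ?_
    refine jn 62 (by decide +kernel) ?_
    refine jn 66 (by decide +kernel) ?_
    refine jn 68 (by decide +kernel) ?_
    refine jn 72 (by decide +kernel) ?_
    refine jn 89 (by decide +kernel) ?_
    refine jn 97 (by decide +kernel) ?_
    refine jn 100 (by decide +kernel) ?_
    refine jn 103 (by decide +kernel) ?_
    refine jn 105 (by decide +kernel) ?_
    refine jn 114 (by decide +kernel) ?_
    refine jn 119 (by decide +kernel) ?_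
    refine jn 121 (by decide +kernel) ?_
    refine jn 130 (by decide +kernel) ?_
    refine jn 140 (by decide +kernel) ?_
    refine jn 162 (by decide +kernel) ?_
    refine jn 176 (by decide +kernel) ?_
    refine jn 186 (by decide +kernel) ?_
    refine jn 201 (by decide +kernel) ?_
    refine jn 222 (by decide +kernel) ?_
    refine jn 229 (by decide +kernel) ?_
    refine jn 230 (by decide +kernel) ?_
    refine jn 231 (by decide +kernel) ?_
    refine jn 232 (by decide +kernel) ?_
    refine jn 233 (by decide +kernel) ?_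
    refine jn 234 (by decide +kernel) ?_
    refine jn 239 (by decide +kernel) ?_
    refine jn 240 (by decide +kernel) ?_
    refine jn 241 (by decide +kernel) ?_
    refine jn 242 (by decide +kernel) ?_
    refine jn 243 (by decide +kernel) ?_
    refine jn 244 (by decide +kernel) ?_
    refine jn 245 (by decide +kernel) ?_
    refine jn 248 (by decide +kernel) ?_
    refine jn 250 (by decide +kernel) ?_
    refine jn 251 (by decide +kernel) ?_
    refine jn 252 (by decide +kernel) ?_
    refine jn 254 (by decide +kernel) ?_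
    refine jn 255 (by decide +kernel) ?_
    refine jn 256 (by decide +kernel) ?_
    refine jn 257 (by decide +kernel) ?_
    refine jn 258 (by decide +kernel) ?_
    refine jn 259 (by decide +kernel) ?_
    refine jn 260 (by decide +kernel) ?_
    refine jn 261 (by decide +kernel) ?_
    refine jn 262 (by decide +kernel) ?_
    refine jn 263 (by decide +kernel) ?_
    refine jn 264 (by decide +kernel) ?_
    refine jn 269 (by decide +kernel) ?_
    refine jn 272 (by decide +kernel) ?_
    refine jn 276 (by decide +kernel) ?_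
    refine jn 281 (by decide +kernel) ?_
    refine jn 293 (by decide +kernel) ?_
    refine jn 307 (by decide +kernel) ?_
    refine jn 320 (by decide +kernel) ?_
    refine jn 335 (by decide +kernel) ?_
    refine jn 338 (by decide +kernel) ?_
    refine jn 340 (by decide +kernel) ?_
    refine jn 349 (by decide +kernel) ?_
    refine jn 356 (by decide +kernel) ?_
    refine jn 361 (by decide +kernel) ?_
    refine jn 374 (by decide +kernel) ?_
    refine jn 376 (by decide +kernel) ?_
    refine jn 377 (by decide +kernel) ?_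
    refine jn 378 (by decide +kernel) ?_
    refine jn 379 (by decide +kernel) ?_
    refine jn 380 (by decide +kernel) ?_
    refine jn 381 (by decide +kernel) ?_
    refine jn 382 (by decide +kernel) ?_
    refine jn 383 (by decide +kernel) ?_
    refine jn 384 (by decide +kernel) ?_
    refine jn 385 (by decide +kernel) ?_
    refine jn 386 (by decide +kernel) ?_
    refine jn 389 (by decide +kernel) ?_
    refine jn 392 (by decide +kernel) ?_
    refine jn 397 (by decide +kernel) ?_
    refine jn 398 (by decide +kernel) ?_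
    refine jn 403 (by decide +kernel) ?_
    refine jn 406 (by decide +kernel) ?_
    refine jn 414 (by decide +kernel) ?_
    refine jn 425 (by decide +kernel) ?_
    refine jn 429 (by decide +kernel) ?_
    refine jn 433 (by decide +kernel) ?_
    refine jn 440 (by decide +kernel) ?_
    refine jn 445 (by decide +kernel) ?_
    refine jn 460 (by decide +kernel) ?_
    refine jn 464 (by decide +kernel) ?_
    refine jn 466 (by decide +kernel) ?_
    refine jn 471 (by decide +kernel) ?_
    refine jn 476 (by decide +kernel) ?_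
    refine jn 491 (by decide +kernel) ?_
    refine jn 492 (by decide +kernel) ?_
    refine jn 493 (by decide +kernel) ?_
    refine jn 494 (by decide +kernel) ?_
    refine jn 495 (by decide +kernel) ?_
    refine jn 496 (by decide +kernel) ?_
    refine jn 497 (by decide +kernel) ?_
    refine jn 502 (by decide +kernel) ?_
    refine jn 507 (by decide +kernel) ?_
    refine jn 511 (by decide +kernel) ?_
    refine jn 513 (by decide +kernel) ?_
    refine jn 516 (by decide +kernel) ?_
    refine jn 521 (by decide +kernel) ?_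
    refine jn 524 (by decide +kernel) ?_
    refine jn 541 (by decide +kernel) ?_
    refine jn 556 (by decide +kernel) ?_
    refine jn 565 (by decide +kernel) ?_
    refine jn 569 (by decide +kernel) ?_
    refine jn 579 (by decide +kernel) ?_
    exact je (by decide +kernel)
  · refine fin 1272 679 T87_1 ?_
    refine jn 3 (by decide +kernel) ?_
    refine jn 4 (by decide +kernel) ?_
    refine jn 5 (by decide +kernel) ?_
    refine jn 6 (by decide +kernel) ?_
    refine jn 7 (by decide +kernel) ?_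
    refine jn 8 (by decide +kernel) ?_
    refine jn 9 (by decide +kernel) ?_
    refine jn 10 (by decide +kernel) ?_
    refine jn 11 (by decide +kernel) ?_
    refine jn 12 (by decide +kernel) ?_
    refine jn 13 (by decide +kernel) ?_
    refine jn 14 (by decide +kernel) ?_
    refine jn 19 (by decide +kernel) ?_
    refine jn 24 (by decide +kernel) ?_
    refine jn 26 (by decide +kernel) ?_
    refine jn 27 (by decide +kernel) ?_
    refine jn 28 (by decide +kernel) ?_
    refine jn 29 (by decide +kernel) ?_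
    refine jn 30 (by decide +kernel) ?_
    refine jn 31 (by decide +kernel) ?_
    refine jn 32 (by decide +kernel) ?_
    refine jn 33 (by decide +kernel) ?_
    refine jn 35 (by decide +kernel) ?_
    refine jn 36 (by decide +kernel) ?_
    refine jn 41 (by decide +kernel) ?_
    refine jn 43 (by decide +kernel) ?_
    refine jn 48 (by decide +kernel) ?_
    refine jn 49 (by decide +kernel) ?_
    refine jn 54 (by decide +kernel) ?_
    refine jn 59 (by decide +kernel) ?_
    refine jn 61 (by decide +kernel) ?_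
    refine jn 64 (by decide +kernel) ?_
    refine jn 70 (by decide +kernel) ?_
    refine jn 73 (by decide +kernel) ?_
    refine jn 75 (by decide +kernel) ?_
    refine jn 78 (by decide +kernel) ?_
    refine jn 81 (by decide +kernel) ?_
    refine jn 97 (by decide +kernel) ?_
    refine jn 107 (by decide +kernel) ?_
    refine jn 109 (by decide +kernel) ?_
    refine jn 111 (by decide +kernel) ?_
    refine jn 114 (by decide +kernel) ?_
    refine jn 115 (by decide +kernel) ?_
    refine jn 120 (by decide +kernel) ?_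
    refine jn 125 (by decide +kernel) ?_
    refine jn 126 (by decide +kernel) ?_
    refine jn 137 (by decide +kernel) ?_
    refine jn 148 (by decide +kernel) ?_
    refine jn 157 (by decide +kernel) ?_
    refine jn 169 (by decide +kernel) ?_
    refine jn 178 (by decide +kernel) ?_
    refine jn 182 (by decide +kernel) ?_
    refine jn 185 (by decide +kernel) ?_
    refine jn 193 (by decide +kernel) ?_
    refine jn 199 (by decide +kernel) ?_
    refine jn 201 (by decide +kernel) ?_
    refine jn 211 (by decide +kernel) ?_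
    refine jn 218 (by decide +kernel) ?_
    refine jn 229 (by decide +kernel) ?_
    refine jn 233 (by decide +kernel) ?_
    refine jn 236 (by decide +kernel) ?_
    refine jn 241 (by decide +kernel) ?_
    refine jn 246 (by decide +kernel) ?_
    refine jn 257 (by decide +kernel) ?_
    refine jn 269 (by decide +kernel) ?_
    refine jn 275 (by decide +kernel) ?_
    refine jn 279 (by decide +kernel) ?_
    refine jn 282 (by decide +kernel) ?_
    refine jn 286 (by decide +kernel) ?_
    refine jn 287 (by decide +kernel) ?_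
    refine jn 297 (by decide +kernel) ?_
    refine jn 305 (by decide +kernel) ?_
    refine jn 318 (by decide +kernel) ?_
    refine jn 323 (by decide +kernel) ?_
    refine jn 328 (by decide +kernel) ?_
    refine jn 333 (by decide +kernel) ?_
    refine jn 338 (by decide +kernel) ?_
    refine jn 349 (by decide +kernel) ?_
    refine jn 361 (by decide +kernel) ?_
    refine jn 363 (by decide +kernel) ?_
    refine jn 364 (by decide +kernel) ?_
    refine jn 365 (by decide +kernel) ?_
    refine jn 366 (by decide +kernel) ?_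
    refine jn 367 (by decide +kernel) ?_
    refine jn 368 (by decide +kernel) ?_
    refine jn 369 (by decide +kernel) ?_
    refine jn 370 (by decide +kernel) ?_
    refine jn 371 (by decide +kernel) ?_
    refine jn 377 (by decide +kernel) ?_
    refine jn 381 (by decide +kernel) ?_
    refine jn 382 (by decide +kernel) ?_
    refine jn 383 (by decide +kernel) ?_
    refine jn 384 (by decide +kernel) ?_
    refine jn 385 (by decide +kernel) ?_
    refine jn 386 (by decide +kernel) ?_
    refine jn 389 (by decide +kernel) ?_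
    refine jn 392 (by decide +kernel) ?_
    refine jn 394 (by decide +kernel) ?_
    refine jn 396 (by decide +kernel) ?_
    refine jn 399 (by decide +kernel) ?_
    refine jn 412 (by decide +kernel) ?_
    refine jn 413 (by decide +kernel) ?_
    refine jn 414 (by decide +kernel) ?_
    refine jn 415 (by decide +kernel) ?_
    refine jn 416 (by decide +kernel) ?_
    refine jn 417 (by decide +kernel) ?_
    refine jn 418 (by decide +kernel) ?_
    refine jn 419 (by decide +kernel) ?_
    refine jn 422 (by decide +kernel) ?_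
    refine jn 426 (by decide +kernel) ?_
    refine jn 427 (by decide +kernel) ?_
    refine jn 428 (by decide +kernel) ?_
    refine jn 430 (by decide +kernel) ?_
    refine jn 432 (by decide +kernel) ?_
    refine jn 437 (by decide +kernel) ?_
    refine jn 439 (by decide +kernel) ?_
    refine jn 448 (by decide +kernel) ?_
    refine jn 451 (by decide +kernel) ?_
    refine jn 453 (by decide +kernel) ?_
    refine jn 457 (by decide +kernel) ?_
    refine jn 467 (by decide +kernel) ?_
    refine jn 477 (by decide +kernel) ?_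
    refine jn 491 (by decide +kernel) ?_
    refine jn 493 (by decide +kernel) ?_
    refine jn 500 (by decide +kernel) ?_
    refine jn 511 (by decide +kernel) ?_
    refine jn 514 (by decide +kernel) ?_
    refine jn 515 (by decide +kernel) ?_
    refine jn 516 (by decide +kernel) ?_
    refine jn 517 (by decide +kernel) ?_
    refine jn 518 (by decide +kernel) ?_
    refine jn 519 (by decide +kernel) ?_
    refine jn 522 (by decide +kernel) ?_
    refine jn 523 (by decide +kernel) ?_
    refine jn 524 (by decide +kernel) ?_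
    refine jn 526 (by decide +kernel) ?_
    refine jn 528 (by decide +kernel) ?_
    refine jn 534 (by decide +kernel) ?_
    refine jn 535 (by decide +kernel) ?_
    refine jn 543 (by decide +kernel) ?_
    refine jn 547 (by decide +kernel) ?_
    refine jn 557 (by decide +kernel) ?_
    refine jn 569 (by decide +kernel) ?_
    refine jn 570 (by decide +kernel) ?_
    refine jn 577 (by decide +kernel) ?_
    refine jn 585 (by decide +kernel) ?_
    refine jn 596 (by decide +kernel) ?_
    refine jn 600 (by decide +kernel) ?_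
    refine jn 601 (by decide +kernel) ?_
    refine jn 602 (by decide +kernel) ?_
    refine jn 603 (by decide +kernel) ?_
    refine jn 607 (by decide +kernel) ?_
    refine jn 608 (by decide +kernel) ?_
    refine jn 609 (by decide +kernel) ?_
    refine jn 610 (by decide +kernel) ?_
    refine jn 611 (by decide +kernel) ?_
    refine jn 612 (by decide +kernel) ?_
    refine jn 613 (by decide +kernel) ?_
    refine jn 614 (by decide +kernel) ?_
    refine jn 618 (by decide +kernel) ?_
    refine jn 622 (by decide +kernel) ?_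
    refine jn 631 (by decide +kernel) ?_
    refine jn 638 (by decide +kernel) ?_
    refine jn 645 (by decide +kernel) ?_
    refine jn 657 (by decide +kernel) ?_
    refine jn 658 (by decide +kernel) ?_
    refine jn 659 (by decide +kernel) ?_
    refine jn 660 (by decide +kernel) ?_
    refine jn 661 (by decide +kernel) ?_
    refine jn 664 (by decide +kernel) ?_
    refine jn 672 (by decide +kernel) ?_
    refine jn 675 (by decide +kernel) ?_
    exact je (by decide +kernel)

end Pool.Agent.MP_2339ce_nt.NR
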