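import Pool.Agent.MP_2339ce_nt.Q2.NC.L5
import Pool.Agent.MP_2339ce_nt.Q2.NC.L8
import Pool.Agent.MP_2339ce_nt.Q2.NC.L9
import Pool.Agent.MP_2339ce_nt.Q2.CkI

/-! Block NR: runs. -/

set_option autoImplicit false
set_option maxRecDepth 100000

noncomputable section

namespace Pool.Agent.MP_2339ce_nt.NR

open Q2.Top

def T89_0 : Ph :=
  (.na 704 163 (.na 385 101 (.na 201 70 (.na 108 53 (.na 45 47 (.na 22 45 (.nx 21 2097153 (.nr 20
  881745 (.nr 1 41 .s1 (.nx 4 202 (.nx 3 201 (.nr 2 452 (.lg 0 false 1 23 23 16 0 168840) (.l1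
  .sk)) (.l1 .sk)) (.nx 5 324 (.l1 (.ls 79 29 1495)) (.nr 19 623489 (.nx 9 26009 (.lg 0 false 4 103
  103 16 0 337680) (.nr 18 77937 (.nr 13 452 (.lg 0 true 4 73 73 16 0 3216) (.nx 17 208065 (.lg 2
  false 4 89 89 16 60689 3216) .out)) .out)) .out)))) .out) .out) (.na 23 46 (.lg 0 false 1 0 0 16
  0 24) (.nx 44 2097153 (.nr 43 881745 (.nr 24 44 .s1 (.nx 28 324 (.nx 26 201 (.nr 25 472 (.lg 0
  false 1 29 29 13 0 337680) (.l1 .sk)) (.nx 27 202 (.l1 .sk) (.l1 (.ls 83 41 1398)))) (.nr 42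
  741457 (.nx 33 26009 (.lg 0 false 5 101 103 19 0 337680) (.nr 41 65537 (.nr 38 472 (.lg 0 true 5
  73 73 19 0 16080) (.nx 40 208065 (.lg 2 true 2 101 101 13 51058 337680) .out)) .out)) .out)))
  .out) .out))) (.na 68 49 (.nx 67 2097153 (.nr 66 881745 (.nr 46 45 .s1 (.nx 58 26009 (.nx 50 324
  (.nx 48 201 (.nr 47 492 (.lg 0 false 1 17 17 16 0 24120) (.l1 .sk)) (.nx 49 202 (.l1 .sk) (.l1
  (.ls 73 29 1368)))) (.nr 57 741457 (.lg 0 false 7 89 97 16 0 168840) .out)) (.nr 65 65537 (.nr 62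
  492 (.lg 0 true 4 71 71 16 0 3216) (.nx 64 208065 (.lg 2 false 2 89 89 16 51058 3216) .out))
  .out))) .out) .out) (.na 88 50 (.nx 87 2097153 (.nr 86 881745 (.nr 69 47 .s1 (.nx 72 202 (.nx 71
  201 (.nr 70 502 (.lg 0 false 1 19 19 16 0 168840) (.l1 .sk)) (.l1 .sk)) (.nx 73 324 (.l1 (.ls 73
  31 1312)) (.nr 85 741457 (.nx 77 26009 (.lg 0 false 4 97 97 16 0 337680) (.nr 84 65537 (.nr 81
  502 (.lg 0 true 4 71 71 16 0 22512) (.nx 83 208065 (.lg 2 false 2 89 89 16 51058 337680) .out))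
  .out)) .out)))) .out) .out) (.nx 107 2097153 (.nr 106 881745 (.nr 89 48 .s1 (.nx 90 324 (.l1 (.ls
  73 41 2102)) (.nr 105 741457 (.nx 97 26009 (.lg 0 false 7 89 97 23 0 337680) (.nr 104 65537 (.nr
  101 532 (.lg 0 true 4 71 71 23 0 16080) (.nx 103 208065 (.lg 2 false 2 83 83 19 51058 16080)
  .out)) .out)) .out))) .out) .out)))) (.na 143 62 (.na 125 54 (.nx 124 2097153 (.nr 123 881745
  (.nr 109 52 .s1 (.nx 115 26009 (.nx 110 324 (.l1 (.ls 79 29 1983)) (.nr 114 741457 (.lg 0 false 4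
  101 101 16 0 337680) .out)) (.nr 122 65537 (.nr 119 542 (.lg 0 true 4 71 71 16 0 3216) (.nx 121
  208065 (.lg 2 false 2 89 89 16 51058 3216) .out)) .out))) .out) .out) (.na 126 59 (.lg 0 false 1
  0 0 16 0 24) (.nx 142 2097153 (.nr 141 881745 (.nr 127 58 .s1 (.nx 128 324 (.l1 (.ls 79 29 1782))
  (.nr 140 741457 (.nx 132 26009 (.lg 0 false 4 101 101 16 0 337680) (.nr 139 65537 (.nr 136 623
  (.lg 0 true 4 73 73 16 0 3216) (.nx 138 208065 (.lg 2 false 2 89 89 16 51058 3216) .out)) .out))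
  .out))) .out) .out))) (.na 163 67 (.na 162 64 (.nx 161 2097153 (.nr 160 881745 (.nr 144 61 .s1
  (.nx 145 324 (.l1 (.ls 79 41 1696)) (.nr 159 741457 (.nx 150 26009 (.lg 0 false 5 89 97 19 0
  16080) (.nr 158 65537 (.nr 155 643 (.lg 0 true 5 73 73 19 0 16080) (.nx 157 208065 (.lg 2 false 2
  83 83 17 51058 3216) .out)) .out)) .out))) .out) .out) .ne) (.na 184 69 (.nx 183 2097153 (.nr 182
  2097153 (.nr 164 66 .s1 (.nx 171 20644 (.nx 165 324 (.l1 (.ls 71 29 1569)) (.nr 170 1048577 (.lg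
  0 false 5 79 79 16 0 8040) .out)) (.nr 181 65537 (.nr 176 693 (.lg 0 true 5 59 59 16 0 8040) (.nx
  180 131073 (.lg 2 false 4 73 73 16 64328 3216) .out)) .out))) .out) .out) (.nx 200 2097153 (.nr
  199 2097153 (.nr 185 68 .s1 (.nx 191 20644 (.nx 186 324 (.l1 (.ls 83 37 1524)) (.nr 190 1048577
  (.lg 0 false 4 97 97 17 0 9648) .out)) (.nr 198 65537 (.nr 195 513 (.lg 0 true 4 71 71 17 0 9648)
  (.nx 197 131073 (.lg 2 false 2 89 89 17 64328 9648) .out)) .out))) .out) .out))))) (.na 302 83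
  (.na 252 75 (.na 219 73 (.nx 218 2097153 (.nr 217 2097153 (.nr 202 69 .s1 (.nx 206 324 (.nx 204
  201 (.nr 203 733 (.l1 (.ls 29 37 580)) (.l1 .sk)) (.nx 205 202 (.l1 .sk) (.l1 (.ls 83 41 919))))
  (.nr 216 1048577 (.nx 209 20644 (.lg 0 false 3 97 101 29 0 337680) (.nr 215 65537 (.nr 213 32769
  (.nr 211 513 (.lg 0 true 2 73 73 29 0 112560) (.nx 212 131073 (.lg 2 true 1 83 83 23 32263
  112560) .out)) (.nx 214 32769 (.lg 0 false 1 79 79 23 0 112560) .out)) .out)) .out))) .out) .out)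
  (.na 235 74 (.nx 234 2097153 (.nr 233 2097153 (.nr 220 72 .s1 (.nx 226 20644 (.nx 221 324 (.l1
  (.ls 71 29 1441)) (.nr 225 1048577 (.lg 0 false 4 89 89 16 0 3216) .out)) (.nr 232 65537 (.nr 229
  513 (.lg 0 true 3 61 61 16 0 4824) (.nx 231 131073 (.lg 2 true 2 83 83 16 64328 3216) .out))
  .out))) .out) .out) (.nx 251 2097153 (.nr 250 2097153 (.nr 236 73 .s1 (.nx 237 324 (.l1 (.ls 83
  31 1421)) (.nr 249 1048577 (.nx 242 20644 (.lg 0 false 5 97 97 23 0 337680) (.nr 248 65537 (.nr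
  245 513 (.lg 0 true 3 71 71 19 0 9648) (.nx 247 131073 (.lg 2 true 2 89 89 19 64328 337680)
  .out)) .out)) .out))) .out) .out))) (.na 284 81 (.na 268 79 (.nx 267 2097153 (.nr 266 2097153
  (.nr 253 74 .s1 (.nx 254 324 (.l1 (.ls 79 37 1402)) (.nr 265 1048577 (.nx 258 20644 (.lg 0 false
  4 89 89 19 0 48240) (.nr 264 65537 (.nr 261 513 (.lg 0 true 3 61 61 19 0 24120) (.nx 263 131073
  (.lg 2 true 2 83 83 17 64328 48240) .out)) .out)) .out))) .out) .out) (.nx 283 2097153 (.nr 282
  2097153 (.nr 269 78 .s1 (.nx 275 20644 (.nx 270 324 (.l1 (.ls 73 29 1331)) (.nr 274 1048577 (.lg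
  0 false 4 89 89 16 0 3216) .out)) (.nr 281 65537 (.nr 278 513 (.lg 0 true 3 59 59 16 0 4824) (.nx
  280 131073 (.lg 2 false 2 83 83 16 64328 3216) .out)) .out))) .out) .out)) (.na 285 82 (.lg 0
  false 1 0 0 16 0 24) (.nx 301 2097153 (.nr 300 2097153 (.nr 286 81 .s1 (.nx 293 20644 (.nx 287
  324 (.l1 (.ls 79 37 1283)) (.nr 292 1048577 (.lg 0 false 5 89 89 23 0 16080) .out)) (.nr 299
  65537 (.nr 296 513 (.lg 0 true 3 71 71 19 0 9648) (.nx 298 131073 (.lg 2 false 2 83 83 19 64328
  3216) .out)) .out))) .out) .out)))) (.na 336 91 (.na 318 86 (.nx 317 2097153 (.nr 316 2097153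
  (.nr 303 82 .s1 (.nx 309 20644 (.nx 304 324 (.l1 (.ls 73 29 1267)) (.nr 308 1048577 (.lg 0 false
  4 89 89 16 0 3216) .out)) (.nr 315 65537 (.nr 312 513 (.lg 0 true 3 61 61 16 0 4824) (.nx 314
  131073 (.lg 2 false 2 79 79 16 64328 3216) .out)) .out))) .out) .out) (.na 335 90 (.nx 334
  2097153 (.nr 333 2097153 (.nr 319 85 .s1 (.nx 326 20644 (.nx 320 324 (.l1 (.ls 79 37 1223)) (.nr
  325 1048577 (.lg 0 false 5 89 89 23 0 16080) .out)) (.nr 332 65537 (.nr 329 513 (.lg 0 true 3 71
  71 19 0 9648) (.nx 331 131073 (.lg 2 false 2 83 83 19 64328 3216) .out)) .out))) .out) .out) (.lg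
  0 false 1 0 0 16 0 24))) (.na 353 94 (.na 337 93 .ne (.nx 352 2097153 (.nr 351 2097153 (.nr 338
  92 .s1 (.nx 344 20644 (.nx 339 324 (.l1 (.ls 79 29 1131)) (.nr 343 1048577 (.lg 0 false 4 89 89
  19 0 9648) .out)) (.nr 350 65537 (.nr 347 513 (.lg 0 true 3 61 61 17 0 4824) (.nx 349 131073 (.lg
  2 true 2 83 83 17 64328 9648) .out)) .out))) .out) .out)) (.na 369 98 (.nx 368 2097153 (.nr 367
  2097153 (.nr 354 93 .s1 (.nx 361 20644 (.nx 355 324 (.l1 (.ls 83 37 1119)) (.nr 360 1048577 (.lg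
  0 false 5 97 97 23 0 337680) .out)) (.nr 366 65537 (.nr 363 513 (.lg 0 true 2 71 71 19 0 3216)
  (.nx 365 131073 (.lg 2 false 2 83 83 19 64328 3216) .out)) .out))) .out) .out) (.nx 384 2097153
  (.nr 383 2097153 (.nr 370 97 .s1 (.nx 371 324 (.l1 (.ls 79 37 1074)) (.nr 382 1048577 (.nx 376
  20644 (.lg 0 false 5 89 89 29 0 337680) (.nr 381 65537 (.nr 378 513 (.lg 0 true 2 71 71 23 0
  22512) (.nx 380 131073 (.lg 2 false 2 79 79 23 64328 22512) .out)) .out)) .out))) .out)
  .out)))))) (.na 552 137 (.na 481 118 (.na 426 107 (.na 398 105 (.nx 397 2097153 (.nr 396 2097153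
  (.nr 386 101 .s1 (.nx 394 131073 (.nx 387 324 (.l1 (.ls 73 23 1042)) (.nr 393 1048577 (.nx 391
  32769 (.lg 0 false 4 83 83 17 0 3216) (.nr 392 32769 (.lg 0 false 1 79 79 16 0 1608) .out))
  .out)) (.nr 395 513 (.lg 0 false 1 73 73 16 0 168840) .out))) .out) .out) (.na 412 106 (.nx 411
  2097153 (.nr 410 2097153 (.nr 399 105 .s1 (.nx 405 20644 (.nx 400 324 (.l1 (.ls 83 37 1002)) (.nr
  404 1048577 (.lg 0 false 4 89 97 31 0 337680) .out)) (.nr 409 65537 (.nr 407 513 (.lg 0 true 2 73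
  73 29 0 337680) (.nx 408 131073 (.lg 2 true 1 89 89 23 64328 168840) .out)) .out))) .out) .out)
  (.nx 425 2097153 (.nr 424 2097153 (.nr 413 106 .s1 (.nx 421 131073 (.nx 414 324 (.l1 (.ls 79 31
  993)) (.nr 420 1048577 (.nr 416 65537 (.lg 0 true 2 83 83 19 0 3216) (.nx 419 20644 (.lg 0 false
  3 89 89 23 0 9648) .out)) .out)) (.nr 423 513 (.lg 0 true 2 71 71 19 0 3216) .out))) .out)
  .out))) (.na 453 113 (.na 440 111 (.nx 439 2097153 (.nr 438 2097153 (.nr 427 107 .s1 (.nx 428 324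
  (.l1 (.ls 73 23 984)) (.nr 437 1048577 (.nx 432 32769 (.lg 0 false 4 83 83 17 0 3216) (.nr 436
  32769 (.nr 434 513 (.lg 0 true 2 59 59 16 0 3216) (.nx 435 131073 (.lg 2 true 1 71 71 16 25679
  24120) .out)) .out)) .out))) .out) .out) (.nx 452 2097153 (.nr 451 2097153 (.nr 441 111 .s1 (.nx
  447 32769 (.nx 442 324 (.l1 (.ls 79 29 948)) (.nr 446 1048577 (.lg 0 false 4 97 97 19 0 9648)
  .out)) (.nr 450 32769 (.nr 448 513 (.lg 0 false 1 73 73 17 0 4824) (.nx 449 131073 (.lg 2 true 1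
  73 73 17 25679 4824) .out)) .out))) .out) .out)) (.na 467 115 (.nx 466 2097153 (.nr 465 2097153
  (.nr 454 113 .s1 (.nx 460 32769 (.nx 455 324 (.l1 (.ls 71 23 931)) (.nr 459 1048577 (.lg 0 false
  4 83 83 17 0 3216) .out)) (.nr 464 32769 (.nr 462 513 (.lg 0 true 2 59 59 16 0 3216) (.nx 463
  131073 (.lg 2 true 1 71 71 16 25679 168840) .out)) .out))) .out) .out) (.nx 480 2097153 (.nr 479
  2097153 (.nr 468 115 .s1 (.nx 469 324 (.l1 (.ls 83 31 915)) (.nr 478 1048577 (.nx 473 20644 (.lg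
  0 false 4 89 101 19 0 337680) (.nr 477 65537 (.nr 475 513 (.lg 0 true 2 73 73 19 0 16080) (.nx
  476 131073 (.lg 2 false 1 89 89 17 64328 168840) .out)) .out)) .out))) .out) .out)))) (.na 522
  126 (.na 494 123 (.nx 493 2097153 (.nr 492 2097153 (.nr 482 118 .s1 (.nx 487 20644 (.nx 483 324
  (.l1 (.ls 79 31 892)) (.nr 486 1048577 (.lg 0 false 3 89 89 23 0 9648) .out)) (.nr 491 65537 (.nr
  489 513 (.lg 0 true 2 59 59 19 0 3216) (.nx 490 131073 (.lg 2 true 1 83 83 19 64328 3216) .out))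
  .out))) .out) .out) (.na 508 125 (.nx 507 2097153 (.nr 506 2097153 (.nr 495 123 .s1 (.nx 501
  32769 (.nx 496 324 (.l1 (.ls 79 29 856)) (.nr 500 1048577 (.lg 0 false 4 97 97 19 0 337680)
  .out)) (.nr 505 32769 (.nr 503 513 (.lg 0 true 2 71 71 17 0 9648) (.nx 504 131073 (.lg 2 true 1
  73 73 17 25679 168840) .out)) .out))) .out) .out) (.nx 521 2097153 (.nr 520 2097153 (.nr 509 125
  .s1 (.nx 515 32769 (.nx 510 324 (.l1 (.ls 71 29 842)) (.nr 514 1048577 (.lg 0 false 4 83 83 19 0
  16080) .out)) (.nr 519 32769 (.nr 517 513 (.lg 0 true 2 59 59 17 0 16080) (.nx 518 131073 (.lg 2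
  true 1 71 71 16 25679 168840) .out)) .out))) .out) .out))) (.na 524 131 (.na 523 128 (.lg 0 false
  1 0 0 16 0 24) .ne) (.na 538 134 (.nx 537 1048577 (.nr 536 1482912 (.nr 525 131 .s1 (.nx 532
  32769 (.nx 527 201 (.nr 526 1345 (.l1 (.ls 17 19 311)) (.l1 .sk)) (.nx 528 202 (.l1 .sk) (.lg 0
  false 4 83 83 17 0 3216))) (.nr 535 16385 (.nr 533 1025 (.lg 0 false 1 71 71 16 0 24120) (.nx 534
  131073 (.lg 2 true 1 53 53 16 12852 24120) .out)) .out))) .out) .out) (.nx 551 1048577 (.nr 550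
  1482912 (.nr 539 134 .s1 (.nx 542 202 (.nx 541 201 (.nr 540 1376 (.l1 (.ls 16 29 304)) (.l1 .sk))
  (.l1 .sk)) (.nx 547 32769 (.lg 0 false 5 79 79 23 0 16080) (.nr 549 16385 (.lg 0 false 2 79 79 19
  0 3216) .out)))) .out) .out))))) (.na 650 149 (.na 594 141 (.na 566 138 (.nx 565 1048577 (.nr 564
  1482912 (.nr 553 137 .s1 (.nx 555 201 (.nr 554 1386 (.l1 (.ls 17 19 297)) (.l1 .sk)) (.nx 556 202
  (.l1 .sk) (.nx 560 32769 (.lg 0 false 4 89 89 17 0 337680) (.nr 563 16385 (.nr 561 1025 (.lg 0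
  false 1 71 71 16 0 168840) (.nx 562 131073 (.lg 2 true 1 53 53 16 12852 1608) .out)) .out)))))
  .out) .out) (.na 580 139 (.nx 579 1048577 (.nr 578 1482912 (.nr 567 138 .s1 (.nx 570 202 (.nx 569
  201 (.nr 568 1396 (.l1 (.ls 19 37 295)) (.l1 .sk)) (.l1 .sk)) (.nr 574 65537 (.nx 572 131073 (.lg
  0 true 2 83 83 31 0 9648) (.nr 573 1025 (.lg 0 false 1 71 71 19 0 9648) .out)) (.nx 577 16385
  (.lg 0 false 3 83 83 31 0 9648) .out)))) .out) .out) (.nx 593 1048577 (.nr 592 1482912 (.nr 581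
  139 .s1 (.nx 588 32769 (.nx 583 201 (.nr 582 1416 (.l1 (.ls 17 19 293)) (.l1 .sk)) (.nx 584 202
  (.l1 .sk) (.lg 0 false 4 83 83 17 0 3216))) (.nr 591 16385 (.nr 589 1025 (.lg 0 false 1 71 71 16
  0 168840) (.nx 590 131073 (.lg 2 true 1 53 53 16 12852 1608) .out)) .out))) .out) .out))) (.na
  622 146 (.na 608 142 (.nx 607 1048577 (.nr 606 1482912 (.nr 595 141 .s1 (.nx 598 202 (.nx 597 201
  (.nr 596 1426 (.l1 (.ls 19 23 289)) (.l1 .sk)) (.l1 .sk)) (.nx 602 32769 (.lg 0 false 4 89 89 19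
  0 9648) (.nr 605 16385 (.nr 603 1025 (.lg 0 false 1 71 71 17 0 4824) (.nx 604 131073 (.lg 2 false
  1 59 59 17 12852 4824) .out)) .out)))) .out) .out) (.nx 621 1048577 (.nr 620 1482912 (.nr 609 142
  .s1 (.nx 618 131073 (.nx 611 201 (.nr 610 1466 (.l1 (.ls 19 29 287)) (.l1 .sk)) (.nx 612 202 (.l1
  .sk) (.nr 614 65537 (.lg 0 true 2 79 79 23 0 3216) (.nx 617 16385 (.lg 0 false 3 83 83 23 0 9648)
  .out)))) (.nr 619 1025 (.lg 0 false 1 71 71 19 0 3216) .out))) .out) .out)) (.na 636 147 (.nx 635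
  1048577 (.nr 634 1482912 (.nr 623 146 .s1 (.nx 626 202 (.nx 625 201 (.nr 624 1476 (.l1 (.ls 19 29
  279)) (.l1 .sk)) (.l1 .sk)) (.nr 630 65537 (.nx 628 131073 (.lg 0 true 2 83 83 23 0 3216) (.nr
  629 1025 (.lg 0 false 1 71 71 19 0 3216) .out)) (.nx 633 16385 (.lg 0 false 3 89 89 23 0 9648)
  .out)))) .out) .out) (.nx 649 1048577 (.nr 648 1482912 (.nr 637 147 .s1 (.nx 644 32769 (.nx 639
  201 (.nr 638 1496 (.l1 (.ls 19 29 277)) (.l1 .sk)) (.nx 640 202 (.l1 .sk) (.lg 0 false 4 89 89 23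
  0 337680))) (.nr 647 16385 (.nr 645 1025 (.lg 0 false 1 71 71 19 0 337680) (.nx 646 131073 (.lg 2
  true 1 53 53 19 12852 33768) .out)) .out))) .out) .out)))) (.na 665 155 (.na 651 150 (.lg 0 false
  1 0 0 16 0 24) (.na 664 151 (.nx 663 1048577 (.nr 662 1482912 (.nr 652 150 .s1 (.nx 655 202 (.nx
  654 201 (.nr 653 1516 (.l1 (.ls 23 37 272)) (.l1 .sk)) (.l1 .sk)) (.nr 658 65537 (.nx 656 131073
  (.lg 0 false 1 83 83 29 0 48240) (.nr 657 1025 (.lg 0 false 1 71 71 29 0 337680) .out)) (.nx 661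
  16385 (.lg 0 false 3 83 83 31 0 48240) .out)))) .out) .out) (.lg 0 false 1 0 0 16 0 24))) (.na
  691 158 (.na 677 157 (.nx 676 1048577 (.nr 675 1482912 (.nr 666 155 .s1 (.nx 668 201 (.nr 667
  1576 (.l1 (.ls 23 19 263)) (.l1 .sk)) (.nx 669 202 (.l1 .sk) (.nx 673 131073 (.nr 670 65537 (.lg
  0 false 1 89 89 17 0 8040) (.nx 672 16385 (.lg 0 false 2 97 97 19 0 16080) .out)) (.nr 674 1025
  (.lg 0 true 1 71 71 17 0 8040) .out))))) .out) .out) (.nx 690 1048577 (.nr 689 1482912 (.nr 678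
  157 .s1 (.nx 680 201 (.nr 679 1586 (.l1 (.ls 17 17 260)) (.l1 .sk)) (.nx 681 202 (.l1 .sk) (.nx
  685 32769 (.lg 0 false 4 83 83 17 0 3216) (.nr 688 16385 (.nr 686 1025 (.lg 0 false 1 71 71 16 0
  337680) (.nx 687 131073 (.lg 2 true 1 47 47 16 12852 1608) .out)) .out))))) .out) .out)) (.na 703
  162 (.nx 702 1048577 (.nr 701 1482912 (.nr 692 158 .s1 (.nx 695 202 (.nx 694 201 (.nr 693 1627
  (.l1 (.ls 19 29 258)) (.l1 .sk)) (.l1 .sk)) (.nr 698 65537 (.nx 696 131073 (.lg 0 false 1 83 83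
  19 0 3216) (.nr 697 1025 (.lg 0 false 1 71 71 19 0 337680) .out)) (.nx 700 16385 (.lg 0 false 2
  83 83 23 0 3216) .out)))) .out) .out) (.lg 0 false 1 0 0 16 0 24))))))) (.na 946 237 (.na 820 207
  (.na 759 182 (.na 718 175 (.na 705 166 (.lg 0 false 1 0 0 16 0 24) (.na 717 173 (.nx 716 1048577
  (.nr 715 1482912 (.nr 706 166 .s1 (.nx 709 202 (.nx 708 201 (.nr 707 1737 (.l1 (.ls 19 29 246))
  (.l1 .sk)) (.l1 .sk)) (.nr 712 65537 (.nx 710 131073 (.lg 0 false 1 83 83 19 0 3216) (.nr 711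
  1025 (.lg 0 false 1 71 71 19 0 48240) .out)) (.nx 714 16385 (.lg 0 false 2 83 83 23 0 3216)
  .out)))) .out) .out) (.lg 0 false 1 0 0 16 0 24))) (.na 744 179 (.na 730 177 (.nx 729 1048577
  (.nr 728 1482912 (.nr 719 175 .s1 (.nx 726 131073 (.nx 724 16385 (.nx 721 201 (.nr 720 1777 (.l1
  (.ls 23 23 233)) (.l1 .sk)) (.nx 722 202 (.l1 .sk) (.lg 0 false 2 89 89 23 0 112560))) (.nr 725
  65537 (.lg 0 true 1 83 83 19 0 56280) .out)) (.nr 727 1025 (.lg 0 true 1 71 71 19 0 56280)
  .out))) .out) .out) (.nx 743 1048577 (.nr 742 1482912 (.nr 731 177 .s1 (.nx 734 202 (.nx 733 201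
  (.nr 732 1797 (.l1 (.ls 17 23 231)) (.l1 .sk)) (.l1 .sk)) (.nx 738 32769 (.lg 0 false 4 89 89 23
  0 48240) (.nr 741 16385 (.nr 739 1025 (.lg 0 false 1 71 71 17 0 24120) (.nx 740 131073 (.lg 2
  true 1 47 47 17 12852 24120) .out)) .out)))) .out) .out)) (.na 745 181 (.lg 0 false 1 0 0 16 0
  24) (.nx 758 1048577 (.nr 757 1482912 (.nr 746 181 .s1 (.nx 748 201 (.nr 747 1827 (.l1 (.ls 17 17
  226)) (.l1 .sk)) (.nx 749 202 (.l1 .sk) (.nx 753 32769 (.lg 0 false 4 79 79 19 0 3216) (.nr 756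
  16385 (.nr 754 1025 (.lg 0 false 1 59 59 16 0 1608) (.nx 755 131073 (.lg 2 false 1 47 47 16 12852
  1608) .out)) .out))))) .out) .out)))) (.na 773 197 (.na 760 186 .ne (.na 772 189 (.nx 771 1048577
  (.nr 770 1048577 (.nr 761 186 .s1 (.nx 763 201 (.nr 762 1898 (.l1 (.ls 23 29 220)) (.l1 .sk))
  (.nx 764 202 (.l1 .sk) (.nx 766 32769 (.lg 0 false 2 89 89 29 0 9648) (.nr 769 16385 (.nr 767
  1025 (.lg 0 false 1 71 71 29 0 9648) (.nx 768 131073 (.lg 2 false 1 59 59 29 12852 9648) .out))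
  .out))))) .out) .out) (.lg 0 false 1 0 0 16 0 24))) (.na 797 202 (.na 785 201 (.nx 784 1048577
  (.nr 783 1048577 (.nr 774 197 .s1 (.nx 779 32769 (.nx 776 201 (.nr 775 2018 (.l1 (.ls 17 17 208))
  (.l1 .sk)) (.nx 777 202 (.l1 .sk) (.lg 0 false 2 79 79 17 0 3216))) (.nr 782 16385 (.nr 780 1025
  (.lg 0 false 1 59 59 16 0 1608) (.nx 781 131073 (.lg 2 false 1 43 43 16 12852 1608) .out))
  .out))) .out) .out) (.nx 796 1048577 (.nr 795 1048577 (.nr 786 201 .s1 (.nx 789 202 (.nx 788 201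
  (.nr 787 2028 (.l1 (.ls 16 19 203)) (.l1 .sk)) (.l1 .sk)) (.nx 792 32769 (.lg 0 true 3 73 73 19 0
  24120) (.nr 794 16385 (.lg 0 false 2 73 73 19 0 48240) .out)))) .out) .out)) (.na 809 205 (.nx
  808 1048577 (.nr 807 1048577 (.nr 798 202 .s1 (.nx 803 32769 (.nx 800 201 (.nr 799 2058 (.l1 (.ls
  17 23 203)) (.l1 .sk)) (.nx 801 202 (.l1 .sk) (.lg 0 false 2 79 79 23 0 3216))) (.nr 806 16385
  (.nr 804 1025 (.lg 0 false 1 59 59 23 0 3216) (.nx 805 131073 (.lg 2 true 1 47 47 23 12852 3216)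
  .out)) .out))) .out) .out) (.nx 819 1048577 (.nr 818 1048577 (.nr 810 205 .s1 (.nx 813 202 (.nx
  812 201 (.nr 811 2078 (.l1 (.ls 23 19 200)) (.l1 .sk)) (.l1 .sk)) (.nx 816 131073 (.nr 814 65537
  (.lg 0 true 1 83 83 19 0 8040) (.nx 815 16385 (.lg 0 false 1 83 83 19 0 8040) .out)) (.nr 817
  1025 (.lg 0 true 1 61 61 19 0 8040) .out)))) .out) .out))))) (.na 880 222 (.na 833 213 (.na 821
  210 (.lg 0 false 1 0 0 16 0 24) (.na 832 211 (.nx 831 1048577 (.nr 830 1048577 (.nr 822 210 .s1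
  (.nx 824 201 (.nr 823 2118 (.l1 (.ls 29 37 195)) (.l1 .sk)) (.nx 825 202 (.l1 .sk) (.nr 828 65537
  (.nx 826 131073 (.lg 0 false 1 89 89 37 0 337680) (.nr 827 1025 (.lg 0 true 1 71 71 37 0 337680)
  .out)) (.nx 829 16385 (.lg 0 false 1 89 89 37 0 337680) .out))))) .out) .out) (.lg 0 false 1 0 0
  16 0 24))) (.na 857 215 (.na 845 214 (.nx 844 1048577 (.nr 843 1048577 (.nr 834 213 .s1 (.nx 837
  202 (.nx 836 201 (.nr 835 2148 (.l1 (.ls 17 19 192)) (.l1 .sk)) (.l1 .sk)) (.nx 839 32769 (.lg 0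
  false 2 83 83 19 0 9648) (.nr 842 16385 (.nr 840 1025 (.lg 0 false 1 59 59 19 0 168840) (.nx 841
  131073 (.lg 2 true 1 47 47 19 12852 168840) .out)) .out)))) .out) .out) (.nx 856 1048577 (.nr 855
  1048577 (.nr 846 214 .s1 (.nx 851 32769 (.nx 848 201 (.nr 847 2159 (.l1 (.ls 31 23 191)) (.l1
  .sk)) (.nx 849 202 (.l1 .sk) (.lg 0 false 2 79 79 23 0 3216))) (.nr 854 16385 (.nr 852 1025 (.lg
  0 false 1 59 59 23 0 3216) (.nx 853 131073 (.lg 2 false 1 47 47 23 12852 3216) .out)) .out)))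
  .out) .out)) (.na 868 219 (.nx 867 1048577 (.nr 866 1048577 (.nr 858 215 .s1 (.nx 864 131073 (.nx
  860 201 (.nr 859 2199 (.l1 (.ls 19 19 190)) (.l1 .sk)) (.nx 861 202 (.l1 .sk) (.nr 862 65537 (.lg
  0 true 1 83 83 19 0 8040) (.nx 863 16385 (.lg 0 false 1 83 83 19 0 8040) .out)))) (.nr 865 1025
  (.lg 0 true 1 61 61 19 0 8040) .out))) .out) .out) (.nx 879 1048577 (.nr 878 1048577 (.nr 869 219
  .s1 (.nx 874 32769 (.nx 871 201 (.nr 870 2229 (.l1 (.ls 17 19 187)) (.l1 .sk)) (.nx 872 202 (.l1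
  .sk) (.lg 0 false 2 83 83 19 0 9648))) (.nr 877 16385 (.nr 875 1025 (.lg 0 false 1 59 59 19 0
  24120) (.nx 876 131073 (.lg 2 true 1 43 43 19 12852 4824) .out)) .out))) .out) .out)))) (.na 914
  229 (.na 892 226 (.nx 891 1048577 (.nr 890 1048577 (.nr 881 222 .s1 (.nx 884 202 (.nx 883 201
  (.nr 882 2269 (.l1 (.ls 17 31 184)) (.l1 .sk)) (.l1 .sk)) (.nx 886 32769 (.lg 0 false 2 83 83 31
  0 9648) (.nr 889 16385 (.nr 887 1025 (.lg 0 false 1 71 71 29 0 48240) (.nx 888 131073 (.lg 2 true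
  1 53 53 29 12852 9648) .out)) .out)))) .out) .out) (.na 904 227 (.nx 903 1048577 (.nr 902 1048577
  (.nr 893 226 .s1 (.nx 895 201 (.nr 894 2279 (.l1 (.ls 17 23 181)) (.l1 .sk)) (.nx 896 202 (.l1
  .sk) (.nx 898 32769 (.lg 0 false 2 79 79 23 0 3216) (.nr 901 16385 (.nr 899 1025 (.lg 0 false 1
  59 59 23 0 48240) (.nx 900 131073 (.lg 2 false 1 43 43 23 12852 3216) .out)) .out))))) .out)
  .out) (.nx 913 1048577 (.nr 912 1048577 (.nr 905 227 .s1 (.nx 907 201 (.nr 906 2299 (.l1 (.ls 17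
  17 180)) (.l1 .sk)) (.nx 908 202 (.l1 .sk) (.nx 910 32769 (.lg 0 false 2 79 79 17 0 3216) (.nr
  911 16385 (.lg 0 false 1 79 79 17 0 1608) .out))))) .out) .out))) (.na 926 233 (.na 915 230 (.lg
  0 false 1 0 0 16 0 24) (.nx 925 1048577 (.nr 924 1048577 (.nr 916 230 .s1 (.nx 919 202 (.nx 918
  201 (.nr 917 2339 (.l1 (.ls 19 31 178)) (.l1 .sk)) (.l1 .sk)) (.nr 922 65537 (.nx 920 131073 (.lg
  0 true 1 83 83 31 0 16080) (.nr 921 1025 (.lg 0 true 1 71 71 31 0 16080) .out)) (.nx 923 16385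
  (.lg 0 false 1 89 89 31 0 16080) .out)))) .out) .out)) (.na 935 235 (.nx 934 1048577 (.nr 933
  1048577 (.nr 927 233 .s1 (.nx 930 202 (.nx 929 201 (.nr 928 2359 (.l1 (.ls 16 17 176)) (.l1 .sk))
  (.l1 .sk)) (.nx 931 32769 (.lg 0 true 1 79 79 17 0 1608) (.nr 932 16385 (.lg 0 false 1 73 73 17 0
  1608) .out)))) .out) .out) (.nx 945 1048577 (.nr 944 1048577 (.nr 936 235 .s1 (.nx 938 201 (.nr
  937 2379 (.l1 (.ls 23 19 174)) (.l1 .sk)) (.nx 939 202 (.l1 .sk) (.nr 942 65537 (.nx 940 131073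
  (.lg 0 true 1 83 83 19 0 8040) (.nr 941 1025 (.lg 0 true 1 61 61 19 0 8040) .out)) (.nx 943 16385
  (.lg 0 false 1 83 83 19 0 8040) .out))))) .out) .out)))))) (.na 4089 1449 (.na 1004 251 (.na 968
  243 (.na 956 239 (.nx 955 1048577 (.nr 954 1048577 (.nr 947 237 .s1 (.nx 952 32769 (.nx 949 201
  (.nr 948 2399 (.l1 (.ls 17 19 173)) (.l1 .sk)) (.nx 950 202 (.l1 .sk) (.lg 0 false 2 83 83 19 0
  9648))) (.nr 953 16385 (.lg 0 false 1 83 83 19 0 4824) .out))) .out) .out) (.na 957 241 (.lg 0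
  false 1 0 0 16 0 24) (.nx 967 1048577 (.nr 966 1048577 (.nr 958 241 .s1 (.nx 960 201 (.nr 959
  2440 (.l1 (.ls 17 17 170)) (.l1 .sk)) (.nx 961 202 (.l1 .sk) (.nx 962 32769 (.lg 0 true 1 89 89
  17 0 168840) (.nr 965 16385 (.nr 963 1025 (.lg 0 false 1 53 53 17 0 1608) (.nx 964 131073 (.lg 2
  false 1 43 43 17 12852 1608) .out)) .out))))) .out) .out))) (.na 980 246 (.na 969 245 (.lg 0
  false 1 0 0 16 0 24) (.nx 979 1048577 (.nr 978 1048577 (.nr 970 245 .s1 (.nx 976 131073 (.nx 972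
  201 (.nr 971 2470 (.l1 (.ls 23 23 167)) (.l1 .sk)) (.nx 973 202 (.l1 .sk) (.nr 974 65537 (.lg 0
  true 1 79 79 23 0 56280) (.nx 975 16385 (.lg 0 false 1 79 79 23 0 56280) .out)))) (.nr 977 1025
  (.lg 0 true 1 59 59 23 0 56280) .out))) .out) .out)) (.na 992 250 (.nx 991 1048577 (.nr 990
  1048577 (.nr 981 246 .s1 (.nx 984 202 (.nx 983 201 (.nr 982 2510 (.l1 (.ls 19 31 167)) (.l1 .sk))
  (.l1 .sk)) (.nx 986 32769 (.lg 0 false 2 83 83 31 0 9648) (.nr 989 16385 (.nr 987 1025 (.lg 0
  false 1 71 71 29 0 337680) (.nx 988 131073 (.lg 2 false 1 53 53 29 12852 9648) .out)) .out))))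
  .out) .out) (.nx 1003 1048577 (.nr 1002 1048577 (.nr 993 250 .s1 (.nx 995 201 (.nr 994 2520 (.l1
  (.ls 17 29 164)) (.l1 .sk)) (.nx 996 202 (.l1 .sk) (.nx 998 32769 (.lg 0 false 2 79 79 29 0
  16080) (.nr 1001 16385 (.nr 999 1025 (.lg 0 false 1 59 59 29 0 48240) (.nx 1000 131073 (.lg 2
  false 1 43 43 29 12852 16080) .out)) .out))))) .out) .out)))) (.na 1493 363 (.na 1005 256 (.lg 0
  false 1 0 0 16 0 24) (.na 1006 257 .ne (.nx 1492 1048577 (.nr 1491 1482912 (.nr 1007 257 .s1 (.nx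
  1277 20644 (.nx 1114 201 (.nr 1113 3644 (.la (.ls 37 19 160)) (.l1 .sk)) (.nx 1115 202 (.l1 .sk)
  (.nx 1170 257 (.lx (.lp 83 17 91)) (.nr 1276 1048577 (.la (.lg 0 true 1 79 79 19 0)) .out))))
  (.nr 1490 32769 (.nr 1383 2049 (.la (.lg 0 true 1 59 59 19 0)) (.nx 1489 131073 (.la (.lg 2 true
  1 53 53 19 32263)) .out)) .out))) .out) .out))) (.na 2633 725 (.na 1945 512 (.nx 1944 1048577
  (.nr 1943 1482912 (.nr 1494 363 .s1 (.nx 1643 257 (.la (.ls 83 23 184)) (.nr 1942 1048577 (.nx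
  1792 20644 (.la (.lg 0 true 1 73 73 23 0)) (.nr 1941 32769 (.la (.lg 2 false 1 71 71 23 290309))
  .out)) .out))) .out) .out) (.nx 2632 1048577 (.nr 2631 1482912 (.nr 1946 512 .s1 (.nx 2147 201
  (.nr 2146 7278 (.lx (.lp 41 19 182)) (.l1 .sk)) (.nx 2148 202 (.l1 .sk) (.nx 2203 257 (.lx (.lp
  79 19 182)) (.nr 2630 1048577 (.nx 2416 20644 (.la (.lg 0 false 1 71 71 23 0)) (.nr 2629 32769
  (.la (.lg 2 true 1 59 59 23 205825)) .out)) .out))))) .out) .out)) (.na 3235 1024 (.nx 3234 13005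
  (.nr 3233 1048577 (.nr 2634 725 .s1 (.nx 2933 2049 (.la (.ls 61 41 5793)) (.nr 3232 65537 (.la
  (.lg 0 false 1 41 41 29 0)) .out))) .out) .out) (.nx 4088 13005 (.nr 4087 1048577 (.nr 3236 1024
  .s1 (.nx 3661 3252 (.la (.ls 59 41 10330)) (.nr 4086 32769 (.la (.lg 0 false 1 31 31 29 0))
  .out))) .out) .out))))) (.na 12734 16384 (.na 6947 4096 (.na 4691 2048 (.nx 4690 8193 (.nr 4689
  1048577 (.nr 4090 1449 .s1 (.la (.ls 53 47 46328))) .out) .out) (.na 5543 2897 (.nx 5542 8193
  (.nr 5541 1048577 (.nr 4692 2048 .s1 (.la (.ls 53 47 32779))) .out) .out) (.nx 6946 3252 (.nr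
  6945 524289 (.nr 5544 2897 .s1 (.nx 5745 201 (.nr 5744 41114 (.lx (.lp 41 31 1025)) (.l1 .sk))
  (.nx 5746 202 (.l1 .sk) (.la (.ls 61 37 3639))))) .out) .out))) (.na 10145 8192 (.na 8849 5793
  (.nx 8848 3252 (.nr 8847 524289 (.nr 6948 4096 .s1 (.nx 7150 202 (.nx 7149 201 (.nr 7148 58148
  (.lx (.lp 41 31 1449)) (.l1 .sk)) (.l1 .sk)) (.la (.ls 59 37 2574)))) .out) .out) (.nx 10144 1292
  (.nr 10143 262145 (.nr 8850 5793 .s1 (.nx 9051 201 (.nr 9050 82227 (.lx (.lp 41 37 2049)) (.l1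
  .sk)) (.nx 9052 202 (.l1 .sk) (.nx 9664 814 (.lx (.lp 47 37 2049)) (.nr 10142 65537 (.lx (.lp 41
  37 2049)) .out))))) .out) .out)) (.na 11440 11586 (.nx 11439 1292 (.nr 11438 262145 (.nr 10146
  8192 .s1 (.nx 10959 814 (.lx (.lp 43 37 2897)) (.nr 11437 131073 (.lx (.lp 41 41 2897)) .out)))
  .out) .out) (.nx 12733 1292 (.nr 12732 131073 (.nr 11441 11586 .s1 (.lx (.lp 41 41 4097))) .out)
  .out)))) (.na 16618 131072 (.na 14029 32768 (.nx 14028 1292 (.nr 14027 262145 (.nr 12735 16384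
  .s1 (.nx 12991 257 (.lx (.lp 43 43 8193)) (.nr 14026 131073 (.lx (.lp 37 43 8193)) .out))) .out)
  .out) (.na 15323 65536 (.nx 15322 1292 (.nr 15321 262145 (.nr 14030 32768 .s1 (.lx (.lp 37 47
  16385))) .out) .out) (.nx 16617 1292 (.nr 16616 524289 (.nr 15324 65536 .s1 (.nx 15580 257 (.lx
  (.lp 16 0 32769)) (.nr 16615 262145 (.lx (.lp 31 53 32769)) .out))) .out) .out))) (.na 17648
  524288 (.na 17133 262144 (.nx 17132 513 (.nr 17131 524289 (.nr 16619 131072 .s1 (.lx (.lp 16 53
  65537))) .out) .out) (.nx 17647 513 (.nr 17646 1048577 (.nr 17134 262144 .s1 (.lx (.lp 16 0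
  131073))) .out) .out)) (.na 17650 1048577 (.nx 17649 257 (.l1 .sk) .out) .out)))))))

def T89_1 : Ph :=
  (.na 758 128 (.na 557 46 (.na 420 16 (.na 321 7 (.na 192 3 (.na 1 2 .ne (.nx 191 3329023 (.nr 190
  623489 (.nx 3 131 (.nr 2 22 (.lg 0 true 1 41 41 5 0 720) (.l1 .sk)) (.nx 4 132 (.l1 .sk) (.nr 175
  131073 (.nx 156 1664512 (.nx 39 17971 (.lg 0 false 35 101 107 13 0 720720) (.nx 134 832257 (.nr
  60 450 (.lg 0 true 21 89 89 11 0 1008) (.nx 133 416129 (.nx 81 32769 (.lg 1 false 21 101 107 11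
  62647 720720) (.nr 132 92683 (.nr 110 55110 (.nr 88 2437 (.lg 2 true 7 97 97 9 60570 5040) (.nx
  109 330282 (.lg 2 false 21 101 107 11 14465 720720) .out)) (.nx 131 131073 (.lg 2 false 21 101
  107 11 24304 720720) .out)) .out)) .out)) (.nr 155 129 (.lg 0 true 21 79 79 11 0 1008) .out)))
  (.nr 174 9 (.lg 0 true 18 67 67 9 0 144) .out)) (.nx 189 257 (.lg 0 false 14 79 79 9 0 1008)
  .out)))) .out) .out)) (.na 193 6 .ne (.nx 320 13316087 (.nr 319 623489 (.nx 196 132 (.nx 195 131
  (.nr 194 56 (.lg 0 true 1 31 31 7 0 144) (.l1 .sk)) (.l1 .sk)) (.nx 219 16384 (.nr 211 220437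
  (.nr 203 92683 (.lg 0 false 7 101 103 13 0 720720) (.nx 210 3252 (.lg 0 false 7 97 101 13 0
  720720) .out)) (.nx 218 647 (.lg 0 false 7 83 89 13 0 1008) .out)) (.nr 318 155873 (.nr 274 513
  (.nx 230 832257 (.lg 0 true 11 83 83 17 0 1584) (.nr 273 129 (.nr 265 56 (.lg 0 true 35 83 83 13
  0 5040) (.nx 272 1664512 (.lg 0 true 7 73 73 13 0 1008) .out)) .out)) (.nx 317 660563 (.nr 279
  2052 (.lg 2 true 5 83 83 13 84341 720) (.nx 294 52015 (.nr 293 131073 (.nx 286 28089 (.lg 1 false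
  7 101 103 13 68716 720720) (.lg 1 false 7 101 103 13 40081 720720)) .out) (.nx 301 73561 (.lg 1
  false 7 97 103 13 25735 720720) (.nr 304 8201 (.lg 2 true 3 97 97 13 21086 55440) (.nx 311 131073
  (.lg 1 true 7 101 103 13 18198 720720) (.nr 316 65537 (.lg 2 false 5 97 101 13 5276 55440)
  .out)))))) .out)) .out))) .out) .out))) (.na 372 12 (.na 322 10 .ne (.nx 371 1664512 (.nr 370
  623489 (.nx 324 131 (.nr 323 97 (.lg 0 false 1 31 31 11 0 5040) (.l1 .sk)) (.nx 325 132 (.l1 .sk)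
  (.nx 362 524289 (.nr 355 131073 (.nx 336 35390 (.lg 0 false 11 97 101 19 0 55440) (.nr 343 829
  (.lg 0 true 7 83 83 13 0 5040) (.nx 354 416129 (.lg 2 false 11 97 103 19 32879 55440) .out)))
  (.nx 361 1292 (.lg 0 false 6 83 89 13 0 5040) .out)) (.nr 369 65 (.lg 0 true 7 71 71 13 0 5040)
  .out)))) .out) .out)) (.na 373 14 .ne (.nx 419 1664512 (.nr 418 623489 (.nr 374 9 .s1 (.nx 377
  132 (.nx 376 131 (.nr 375 130 (.lg 0 false 1 29 29 11 0 5040) (.l1 .sk)) (.l1 .sk)) (.nx 412
  524289 (.nx 394 29192 (.nr 388 155873 (.lg 0 false 11 89 101 19 0 55440) (.nx 393 1292 (.lg 0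
  false 5 83 83 13 0 5040) .out)) (.nr 411 110219 (.nr 399 829 (.lg 0 true 5 79 79 13 0 5040) (.nx
  410 416129 (.lg 2 false 11 89 101 19 32879 55440) .out)) .out)) (.nr 417 65 (.lg 0 true 5 67 67
  13 0 5040) .out)))) .out) .out)))) (.na 486 26 (.na 454 22 (.na 421 18 .ne (.nx 453 1664512 (.nr
  452 1048577 (.nr 422 14 .s1 (.nx 424 131 (.nr 423 179 (.lg 0 false 1 29 29 13 0 5040) (.l1 .sk))
  (.nx 425 132 (.l1 .sk) (.nx 426 257 (.l1 (.ls 83 43 2704)) (.nr 451 623489 (.nx 437 23171 (.nr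
  431 220437 (.lg 0 false 5 97 97 19 0 5040) (.nx 436 1627 (.lg 0 false 5 79 79 19 0 720) .out))
  (.nr 450 92683 (.nr 444 634 (.lg 0 true 7 79 79 19 0 1008) (.nx 449 262145 (.lg 2 false 5 89 97
  19 34371 5040) .out)) .out)) .out))))) .out) .out)) (.na 485 23 (.nx 484 1664512 (.nr 483 1048577
  (.nr 455 19 .s1 (.nx 459 257 (.nx 457 131 (.nr 456 187 (.lg 0 true 1 23 23 9 0 1584) (.l1 .sk))
  (.nx 458 132 (.l1 .sk) (.l1 (.ls 83 41 2213)))) (.nr 482 623489 (.nr 478 220437 (.nx 464 23171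
  (.lg 0 false 5 97 97 19 0 7920) (.nr 477 92683 (.nr 471 634 (.lg 0 true 7 79 79 19 0 11088) (.nx
  476 262145 (.lg 2 false 5 89 97 19 34371 55440) .out)) .out)) (.nx 481 1627 (.lg 0 false 3 79 79
  13 0 1584) .out)) .out))) .out) .out) .ne)) (.na 537 32 (.na 513 30 (.nx 512 1664512 (.nr 511
  1048577 (.nr 487 24 .s1 (.nx 490 132 (.nx 489 131 (.nr 488 243 (.lg 0 false 1 23 23 11 0 9360)
  (.l1 .sk)) (.l1 .sk)) (.nx 491 257 (.l1 (.ls 83 41 1873)) (.nr 510 311745 (.nx 498 20644 (.lg 0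
  false 7 89 97 19 0 65520) (.nr 509 77937 (.nr 505 513 (.lg 0 true 7 73 73 19 0 13104) (.nx 508
  165142 (.lg 2 false 3 89 89 11 32450 9360) .out)) .out)) .out)))) .out) .out) (.nx 536 1664512
  (.nr 535 1048577 (.nr 514 28 .s1 (.nx 516 131 (.nr 515 260 (.l1 (.ls 29 41 575)) (.l1 .sk)) (.nx
  517 132 (.l1 .sk) (.nx 518 257 (.l1 (.ls 83 43 1623)) (.nr 534 311745 (.nx 523 20644 (.nr 520
  110219 (.lg 0 false 2 89 89 23 0 720) (.nx 522 8193 (.lg 0 false 2 89 89 23 0 720) .out)) (.nr
  533 77937 (.nr 528 1307 (.nx 524 208065 (.lg 0 false 1 79 79 19 0 720) (.nr 527 217 (.lg 0 true 3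
  73 73 29 0 720) .out)) (.nx 532 165142 (.nx 529 41287 (.lg 1 true 1 89 89 19 32450 720) (.nr 531
  65537 (.lg 2 false 2 83 89 23 13648 720) .out)) .out)) .out)) .out))))) .out) .out)) (.na 538 42
  .ne (.nx 556 1664512 (.nr 555 881745 (.nr 539 41 .s1 (.nx 547 10323 (.nx 541 131 (.nr 540 373
  (.l1 (.ls 31 37 411)) (.l1 .sk)) (.nx 542 132 (.l1 .sk) (.nx 543 257 (.l1 (.ls 83 43 1160)) (.nr
  546 440873 (.lg 0 false 3 89 97 29 0 5040) .out)))) (.nr 554 110219 (.nr 550 257 (.lg 0 true 3 71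
  71 29 0 1008) (.nx 553 104033 (.nr 551 32769 (.lg 2 true 1 89 89 23 27348 5040) (.nx 552 26009
  (.lg 0 true 1 97 97 23 0 5040) .out)) .out)) .out))) .out) .out))))) (.na 652 86 (.na 592 66 (.na
  573 54 (.na 558 50 .ne (.nx 572 1664512 (.nr 571 881745 (.nr 559 49 .s1 (.nx 560 257 (.l1 (.ls 79
  41 1323)) (.nr 570 623489 (.nx 563 20644 (.lg 0 false 3 89 89 19 0 720) (.nr 569 46342 (.nr 566
  257 (.lg 0 true 3 67 67 19 0 720) (.nx 568 104033 (.lg 2 false 2 79 79 19 26515 720) .out))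
  .out)) .out))) .out) .out)) (.na 591 64 (.nx 590 1664512 (.nr 589 881745 (.nr 574 53 .s1 (.nx 583
  20644 (.nx 575 257 (.l1 (.ls 73 41 1226)) (.nr 582 623489 (.lg 0 false 7 83 89 29 0 5040) .out))
  (.nr 588 46342 (.nr 586 257 (.lg 0 true 3 61 61 23 0 144) (.nx 587 104033 (.lg 2 true 1 79 79 19
  26515 144) .out)) .out))) .out) .out) .ne)) (.na 624 78 (.na 609 70 (.nx 608 1664512 (.nr 607
  524289 (.nr 593 66 .s1 (.nx 596 132 (.nx 595 131 (.nr 594 568 (.l1 (.ls 31 37 263)) (.l1 .sk))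
  (.l1 .sk)) (.nx 599 13005 (.lg 0 false 3 89 89 31 0 55440) (.nr 606 65537 (.nr 604 32769 (.nx 601
  104033 (.lg 0 false 2 83 83 29 0 55440) (.nr 603 513 (.lg 0 true 2 73 73 29 0 1584) .out)) (.nx
  605 20644 (.lg 0 true 1 79 79 29 0 55440) .out)) .out)))) .out) .out) (.nx 623 1664512 (.nr 622
  524289 (.nr 610 70 .s1 (.nx 613 132 (.nx 612 131 (.nr 611 633 (.l1 (.ls 31 31 248)) (.l1 .sk))
  (.l1 .sk)) (.nx 617 20644 (.nx 615 13005 (.lg 0 false 2 89 89 29 0 5040) (.nr 616 65537 (.lg 1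
  false 1 73 73 23 43329 5040) .out)) (.nr 621 32769 (.nr 619 513 (.lg 0 true 2 73 73 29 0 5040)
  (.nx 620 104033 (.lg 2 true 1 79 79 23 13675 5040) .out)) .out)))) .out) .out)) (.na 637 82 (.nx
  636 1664512 (.nr 635 524289 (.nr 625 78 .s1 (.nx 628 132 (.nx 627 131 (.nr 626 665 (.l1 (.ls 31
  31 223)) (.l1 .sk)) (.l1 .sk)) (.nx 630 20644 (.lg 0 false 2 97 97 31 0 65520) (.nr 634 32769
  (.nr 632 513 (.lg 0 true 2 71 71 31 0 1872) (.nx 633 104033 (.lg 2 false 1 73 73 29 13675 1872)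
  .out)) .out)))) .out) .out) (.nx 651 1664512 (.nr 650 524289 (.nr 638 82 .s1 (.nx 641 132 (.nx
  640 131 (.nr 639 698 (.l1 (.ls 19 23 212)) (.l1 .sk)) (.l1 .sk)) (.nx 644 20644 (.lg 0 false 3 83
  83 19 0 144) (.nr 649 32769 (.nr 647 513 (.lg 0 true 3 67 67 19 0 144) (.nx 648 104033 (.lg 2
  true 1 73 73 13 13675 7920) .out)) .out)))) .out) .out)))) (.na 693 106 (.na 678 91 (.na 665 90
  (.nx 664 1664512 (.nr 663 524289 (.nr 653 86 .s1 (.nx 659 20644 (.nx 655 131 (.nr 654 730 (.l1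
  (.ls 19 23 202)) (.l1 .sk)) (.nx 656 132 (.l1 .sk) (.lg 0 false 3 83 83 19 0 144))) (.nr 662
  32769 (.nr 660 513 (.lg 0 false 1 73 73 13 0 720) (.nx 661 104033 (.lg 2 true 1 71 71 13 13675
  144) .out)) .out))) .out) .out) (.nx 677 1664512 (.nr 676 524289 (.nr 666 90 .s1 (.nx 671 20644
  (.nx 668 131 (.nr 667 738 (.l1 (.ls 29 31 193)) (.l1 .sk)) (.nx 669 132 (.l1 .sk) (.lg 0 false 2
  89 89 31 0 720))) (.nr 675 32769 (.nr 673 513 (.lg 0 true 2 71 71 31 0 720) (.nx 674 104033 (.lg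
  2 true 1 73 73 29 13675 720) .out)) .out))) .out) .out)) (.na 679 98 .ne (.nx 692 1664512 (.nr
  691 1048577 (.nr 680 98 .s1 (.nx 682 131 (.nr 681 860 (.l1 (.ls 23 29 178)) (.l1 .sk)) (.nx 683
  132 (.l1 .sk) (.nx 686 20644 (.lg 0 false 3 83 83 23 0 1008) (.nr 690 32769 (.nr 688 513 (.lg 0
  true 2 61 61 23 0 1008) (.nx 689 104033 (.lg 2 true 1 71 71 19 13675 5040) .out)) .out))))) .out)
  .out))) (.na 720 118 (.na 707 110 (.nx 706 1664512 (.nr 705 1048577 (.nr 694 106 .s1 (.nx 697 132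
  (.nx 696 131 (.nr 695 892 (.l1 (.ls 19 23 164)) (.l1 .sk)) (.l1 .sk)) (.nx 700 20644 (.lg 0 false
  3 89 89 23 0 144) (.nr 704 32769 (.nr 702 513 (.lg 0 true 2 61 61 19 0 144) (.nx 703 104033 (.lg
  2 true 1 71 71 19 13675 144) .out)) .out)))) .out) .out) (.nx 719 1664512 (.nr 718 1048577 (.nr
  708 110 .s1 (.nx 713 13005 (.nx 710 131 (.nr 709 957 (.l1 (.ls 31 31 159)) (.l1 .sk)) (.nx 711
  132 (.l1 .sk) (.lg 0 false 2 89 89 31 0 7920))) (.nr 717 65537 (.nr 715 513 (.lg 0 true 2 71 71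
  31 0 7920) (.nx 716 104033 (.lg 1 false 1 89 89 29 43329 7920) .out)) .out))) .out) .out)) (.na
  733 122 (.nx 732 1664512 (.nr 731 1048577 (.nr 721 118 .s1 (.nx 723 131 (.nr 722 990 (.l1 (.ls 19
  23 148)) (.l1 .sk)) (.nx 724 132 (.l1 .sk) (.nx 727 20644 (.lg 0 false 3 83 83 23 0 144) (.nr 730
  32769 (.nr 728 513 (.lg 2 false 1 67 67 19 923946 144) (.nx 729 104033 (.lg 2 true 1 67 67 19
  13675 144) .out)) .out))))) .out) .out) (.na 746 126 (.nx 745 1664512 (.nr 744 1048577 (.nr 734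
  122 .s1 (.nx 736 131 (.nr 735 1022 (.l1 (.ls 19 23 143)) (.l1 .sk)) (.nx 737 132 (.l1 .sk) (.nx
  740 20644 (.lg 0 false 3 83 83 23 0 144) (.nr 743 32769 (.nr 741 513 (.lg 2 false 1 67 67 19
  893652 144) (.nx 742 104033 (.lg 2 true 1 67 67 19 13675 144) .out)) .out))))) .out) .out) (.nx
  757 1664512 (.nr 756 1048577 (.nr 747 126 .s1 (.nx 752 13005 (.nx 749 131 (.nr 748 1038 (.l1 (.ls
  29 31 139)) (.l1 .sk)) (.nx 750 132 (.l1 .sk) (.lg 0 false 2 89 89 31 0 1008))) (.nr 755 65537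
  (.nr 753 513 (.lg 2 true 1 67 67 31 865283 1008) (.nx 754 104033 (.lg 1 false 1 83 83 31 43329
  1008) .out)) .out))) .out) .out))))))) (.na 907 256 (.na 829 202 (.na 791 162 (.na 770 150 (.na
  759 130 .ne (.nx 769 832257 (.nr 768 1048577 (.nr 760 130 .s1 (.nx 764 13005 (.nx 761 257 (.l1
  (.ls 79 37 511)) (.nr 763 741457 (.lg 0 false 2 89 89 31 0 65520) .out)) (.nr 767 16385 (.nr 765
  1025 (.lg 0 true 1 71 71 29 0 9360) (.nx 766 104033 (.lg 2 true 1 67 67 29 10898 9360) .out))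
  .out))) .out) .out)) (.na 781 154 (.nx 780 832257 (.nr 779 1048577 (.nr 771 150 .s1 (.nx 775
  13005 (.nx 772 257 (.l1 (.ls 73 37 443)) (.nr 774 741457 (.lg 0 false 2 83 83 31 0 5040) .out))
  (.nr 778 16385 (.nr 776 1025 (.lg 0 true 1 67 67 31 0 720) (.nx 777 104033 (.lg 2 false 1 61 61
  31 10898 720) .out)) .out))) .out) .out) (.nx 790 832257 (.nr 789 1048577 (.nr 782 154 .s1 (.nx
  783 257 (.l1 (.ls 79 37 431)) (.nr 788 741457 (.nx 784 13005 (.lg 0 true 1 89 89 31 0 55440) (.nr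
  787 16385 (.nr 785 1025 (.lg 0 true 1 71 71 31 0 11088) (.nx 786 104033 (.lg 2 false 1 67 67 31
  10898 55440) .out)) .out)) .out))) .out) .out))) (.na 809 182 (.na 801 178 (.nx 800 832257 (.nr
  799 1048577 (.nr 792 162 .s1 (.nx 795 13005 (.nx 793 257 (.l1 (.ls 67 31 410)) (.nr 794 741457
  (.lg 0 true 1 79 79 23 0 144) .out)) (.nr 798 16385 (.nr 796 1025 (.lg 0 false 1 67 67 23 0 5040)
  (.nx 797 104033 (.lg 2 false 1 53 53 23 10898 144) .out)) .out))) .out) .out) (.nx 808 832257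
  (.nr 807 1048577 (.nr 802 178 .s1 (.nx 803 257 (.l1 (.ls 71 29 374)) (.nr 806 741457 (.nr 804
  16385 (.lg 0 false 1 89 89 19 0 5040) (.nx 805 13005 (.lg 0 true 1 79 79 19 0 144) .out)) .out)))
  .out) .out)) (.na 819 198 (.nx 818 832257 (.nr 817 1048577 (.nr 810 182 .s1 (.nx 811 257 (.l1
  (.ls 73 37 365)) (.nr 816 741457 (.nx 812 13005 (.lg 0 true 1 89 89 31 0 13104) (.nr 815 16385
  (.nr 813 1025 (.lg 0 true 1 67 67 31 0 13104) (.nx 814 104033 (.lg 2 true 1 61 61 31 10898 13104)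
  .out)) .out)) .out))) .out) .out) (.nx 828 832257 (.nr 827 1048577 (.nr 820 198 .s1 (.nx 823
  13005 (.nx 821 257 (.l1 (.ls 71 37 336)) (.nr 822 741457 (.lg 0 false 1 79 79 31 0 1584) .out))
  (.nr 826 16385 (.nr 824 1025 (.lg 0 true 1 61 61 31 0 1584) (.nx 825 104033 (.lg 2 false 1 59 59
  31 10898 1584) .out)) .out))) .out) .out)))) (.na 863 226 (.na 847 214 (.na 837 210 (.nx 836
  832257 (.nr 835 1048577 (.nr 830 202 .s1 (.nx 831 257 (.l1 (.ls 67 29 329)) (.nr 834 741457 (.nr
  832 16385 (.lg 0 false 1 79 79 23 0 144) (.nx 833 13005 (.lg 0 true 1 79 79 23 0 5040) .out))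
  .out))) .out) .out) (.nx 846 832257 (.nr 845 1048577 (.nr 838 210 .s1 (.nx 839 257 (.l1 (.ls 79
  41 317)) (.nr 844 741457 (.nx 842 104033 (.nx 840 13005 (.lg 0 false 1 89 89 41 0 5040) (.nr 841
  16385 (.lg 0 true 1 73 79 41 0 5040) .out)) (.nr 843 1025 (.lg 0 true 1 71 71 41 0 5040) .out))
  .out))) .out) .out)) (.na 855 218 (.nx 854 832257 (.nr 853 1048577 (.nr 848 214 .s1 (.nx 849 257
  (.l1 (.ls 79 29 311)) (.nr 852 741457 (.nx 850 13005 (.lg 0 true 1 79 79 23 0 144) (.nr 851 16385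
  (.lg 0 false 1 79 79 23 0 144) .out)) .out))) .out) .out) (.nx 862 832257 (.nr 861 1048577 (.nr
  856 218 .s1 (.nx 857 257 (.l1 (.ls 67 29 305)) (.nr 860 741457 (.nx 858 13005 (.lg 0 true 1 73 73
  23 0 144) (.nr 859 16385 (.lg 0 false 1 79 79 23 0 144) .out)) .out))) .out) .out))) (.na 881 242
  (.na 871 234 (.nx 870 832257 (.nr 869 1048577 (.nr 864 226 .s1 (.nx 865 257 (.l1 (.ls 67 29 295))
  (.nr 868 741457 (.nx 866 13005 (.lg 0 true 1 73 73 23 0 144) (.nr 867 16385 (.lg 0 false 1 79 79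
  23 0 7920) .out)) .out))) .out) .out) (.nx 880 832257 (.nr 879 1048577 (.nr 872 234 .s1 (.nx 873
  257 (.l1 (.ls 73 37 285)) (.nr 878 741457 (.nx 874 13005 (.lg 0 true 1 83 83 37 0 65520) (.nr 877
  16385 (.nr 875 1025 (.lg 0 true 1 61 61 37 0 1872) (.nx 876 104033 (.lg 2 false 1 61 61 37 10898
  65520) .out)) .out)) .out))) .out) .out)) (.na 889 246 (.nx 888 832257 (.nr 887 1048577 (.nr 882
  242 .s1 (.nx 883 257 (.l1 (.ls 67 31 275)) (.nr 886 741457 (.nr 884 16385 (.lg 0 false 1 79 79 29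
  0 1584) (.nx 885 13005 (.lg 0 true 1 79 79 29 0 55440) .out)) .out))) .out) .out) (.na 899 250
  (.nx 898 832257 (.nr 897 1048577 (.nr 890 246 .s1 (.nx 893 13005 (.nx 891 257 (.l1 (.ls 73 31
  271)) (.nr 892 741457 (.lg 0 false 1 79 79 31 0 144) .out)) (.nr 896 16385 (.nr 894 1025 (.lg 0
  true 1 61 61 31 0 144) (.nx 895 104033 (.lg 2 false 1 59 59 31 10898 144) .out)) .out))) .out)
  .out) (.nx 906 832257 (.nr 905 1048577 (.nr 900 250 .s1 (.nx 901 257 (.l1 (.ls 61 31 267)) (.nr
  904 741457 (.nr 902 16385 (.lg 0 false 1 73 73 29 0 720) (.nx 903 13005 (.lg 0 true 1 73 73 29 0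
  720) .out)) .out))) .out) .out)))))) (.na 6426 4096 (.na 2916 1024 (.na 1678 512 (.na 908 257 .ne
  (.nx 1677 832257 (.nr 1676 1482912 (.nr 909 257 .s1 (.nx 1164 205 (.la (.ls 89 19 166)) (.nr 1675
  1048577 (.nr 1419 32769 (.la (.lg 0 true 1 79 79 23 0)) (.nx 1674 10323 (.la (.lg 0 false 1 73 73
  23 0)) .out)) .out))) .out) .out)) (.na 2314 725 (.nx 2313 832257 (.nr 2312 1482912 (.nr 1679 512
  .s1 (.nx 2098 10323 (.nx 1810 131 (.nr 1809 5879 (.lx (.lp 43 19 182)) (.l1 .sk)) (.nx 1811 132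
  (.l1 .sk) (.nx 1884 205 (.lx (.lp 83 17 182)) (.nr 2097 1048577 (.la (.lg 0 false 1 67 67 29 0))
  .out)))) (.nr 2311 32769 (.la (.lg 2 true 1 61 61 29 106471)) .out))) .out) .out) (.nx 2915 10323
  (.nr 2914 1048577 (.nr 2315 725 .s1 (.nx 2614 2049 (.la (.ls 71 41 5793)) (.nr 2913 16385 (.la
  (.lg 0 true 1 41 41 29 0)) .out))) .out) .out))) (.na 4372 2048 (.na 3770 1449 (.nx 3769 10323
  (.nr 3768 1048577 (.nr 2917 1024 .s1 (.nx 3342 2582 (.la (.ls 67 41 6513)) (.nr 3767 16385 (.la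
  (.lg 0 false 1 37 37 31 0)) .out))) .out) .out) (.nx 4371 2582 (.nr 4370 524289 (.nr 3771 1449
  .s1 (.la (.ls 83 37 4603))) .out) .out)) (.na 5224 2897 (.nx 5223 3252 (.nr 5222 524289 (.nr 4373
  2048 .s1 (.la (.ls 73 41 5166))) .out) .out) (.nx 6425 2582 (.nr 6424 262145 (.nr 5225 2897 .s1
  (.la (.ls 61 37 2304))) .out) .out)))) (.na 12142 32768 (.na 9552 8192 (.na 8258 5793 (.nx 8257
  2582 (.nr 8256 262145 (.nr 6427 4096 .s1 (.nx 6558 131 (.nr 6557 46974 (.lx (.lp 47 31 1449))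
  (.l1 .sk)) (.nx 6559 132 (.l1 .sk) (.la (.ls 59 37 1626))))) .out) .out) (.nx 9551 1292 (.nr 9550
  65537 (.nr 8259 5793 .s1 (.lx (.lp 43 37 2049))) .out) .out)) (.na 10847 16384 (.nx 10846 1292
  (.nr 10845 131073 (.nr 9553 8192 .s1 (.nx 9757 205 (.lx (.lp 16 0 4097)) (.nr 10844 65537 (.lx
  (.lp 43 41 4097)) .out))) .out) .out) (.nx 12141 1292 (.nr 12140 262145 (.nr 10848 16384 .s1 (.nx
  11052 205 (.lx (.lp 16 0 8193)) (.nr 12139 131073 (.lx (.lp 43 43 8193)) .out))) .out) .out)))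
  (.na 14198 131072 (.na 13170 65536 (.nx 13169 1025 (.nr 13168 262145 (.nr 12143 32768 .s1 (.nx
  12347 205 (.lx (.lp 16 0 16385)) (.nr 13167 131073 (.lx (.lp 41 47 16385)) .out))) .out) .out)
  (.nx 14197 1025 (.nr 14196 262145 (.nr 13171 65536 .s1 (.nx 13494 324 (.lx (.lp 16 0 32769)) (.nr
  14195 131073 (.lx (.lp 41 53 32769)) .out))) .out) .out)) (.na 14200 262144 (.nx 14199 324 (.l1
  .sk) .out) (.na 14202 524289 (.nx 14201 205 (.l1 .sk) .out) .out)))))))

def T89_2 : Ph :=
  (.na 607 149 (.na 457 62 (.na 340 27 (.na 276 7 (.na 236 3 (.na 151 2 (.nx 150 660563 (.nr 149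
  1482912 (.nx 3 54 (.nx 2 53 (.nr 1 8 (.lg 0 true 1 29 29 5 0 3816) (.l1 .sk)) (.l1 .sk)) (.nx 76
  4097 (.nr 40 110219 (.nr 29 38969 (.nr 23 23172 (.lg 0 false 20 89 89 11 0 38160) (.nx 28 647
  (.lg 0 false 5 83 83 9 0 19080) .out)) (.nx 39 205 (.lg 0 false 10 83 83 9 0 38160) .out)) (.nx
  75 103 (.lg 0 false 35 79 83 13 0 133560) .out)) (.nr 148 13779 (.nx 112 104033 (.nr 96 682 (.lg
  0 true 20 83 83 11 0 38160) (.lg 2 false 16 89 97 9 4743 53424)) (.nr 147 78 (.lg 0 true 35 79 79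
  13 0 133560) .out)) .out))) .out) .out) (.nx 235 660563 (.nr 234 623489 (.nx 154 54 (.nx 153 53
  (.nr 152 14 (.lg 0 true 1 29 29 5 0 38160) (.l1 .sk)) (.l1 .sk)) (.nr 222 131073 (.nx 199 104033
  (.nr 187 27556 (.nx 165 8121 (.lg 0 true 11 97 97 9 0 419760) (.nr 176 613 (.lg 0 true 11 83 83 9
  0 83952) (.lg 2 false 11 97 101 9 4776 419760))) (.nx 198 647 (.lg 0 false 11 89 89 9 0 419760)
  .out)) (.nr 221 154 (.lg 0 true 22 83 83 11 0 83952) .out)) (.nx 233 103 (.lg 0 false 11 73 73 9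
  0 83952) .out))) .out) .out)) (.na 237 6 .ne (.nx 275 660563 (.nr 274 220437 (.nx 268 330282 (.nx
  251 6503 (.nx 239 53 (.nr 238 36 (.lg 0 true 1 19 19 7 0 7632) (.l1 .sk)) (.nx 240 54 (.l1 .sk)
  (.nr 245 77937 (.lg 0 true 5 97 97 13 0 38160) (.nx 250 647 (.lg 0 false 5 83 83 13 0 38160)
  .out)))) (.nr 267 27556 (.nr 262 1466 (.nr 261 704 (.lg 0 true 10 83 83 13 0 38160) (.lg 2 false
  1 83 83 7 12433 53424)) (.lg 2 false 5 89 89 13 5971 38160)) .out)) (.nr 273 78 (.lg 0 true 5 73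
  73 13 0 38160) .out)) .out) .out))) (.na 301 18 (.na 277 17 .ne (.nx 300 660563 (.nr 299 623489
  (.nr 278 16 .s1 (.nx 281 54 (.nx 280 53 (.nr 279 93 (.l1 (.ls 16 16 168)) (.l1 .sk)) (.l1 .sk))
  (.nx 282 103 (.l1 (.ls 79 23 455)) (.nr 298 131073 (.nx 286 6503 (.lg 0 false 4 89 89 16 0 38160)
  (.nr 297 46342 (.nr 293 257 (.lg 0 true 7 71 71 16 0 26712) (.nx 296 41287 (.lg 1 true 3 83 83 16
  10022 19080) .out)) .out)) .out)))) .out) .out)) (.na 322 23 (.nx 321 660563 (.nr 320 623489 (.nr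
  302 17 .s1 (.nx 303 103 (.l1 (.ls 79 37 592)) (.nr 319 131073 (.nx 310 6503 (.lg 0 false 7 83 83
  19 0 267120) (.nr 318 46342 (.nr 315 257 (.lg 0 true 5 71 71 19 0 38160) (.nx 317 41287 (.lg 1
  false 2 83 83 13 10022 38160) .out)) .out)) .out))) .out) .out) (.na 323 26 .ne (.nx 339 660563
  (.nr 338 131073 (.nr 324 25 .s1 (.nx 327 54 (.nx 326 53 (.nr 325 140 (.l1 (.ls 17 23 111)) (.l1
  .sk)) (.l1 .sk)) (.nx 332 6503 (.lg 0 false 5 83 83 19 0 496080) (.nr 337 32769 (.nr 335 257 (.lg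
  0 true 3 67 67 11 0 99216) (.nx 336 41287 (.lg 1 false 1 83 83 11 7090 99216) .out)) .out))))
  .out) .out))))) (.na 402 38 (.na 374 32 (.na 359 31 (.nx 358 660563 (.nr 357 131073 (.nr 341 27
  .s1 (.nr 346 257 (.nx 342 195 (.l1 (.ls 19 31 1411)) (.lg 0 true 4 67 67 16 0 7632)) (.nx 348 54
  (.nx 347 53 (.l1 .sk) (.l1 .sk)) (.nx 356 41287 (.nr 353 32769 (.lg 0 false 5 73 73 16 0 19080)
  (.nx 355 6503 (.lg 0 false 2 83 83 16 0 7632) .out)) .out)))) .out) .out) (.nx 373 660563 (.nr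
  372 131073 (.nr 360 31 .s1 (.nx 366 6503 (.nx 362 53 (.nr 361 166 (.l1 (.ls 16 16 93)) (.l1 .sk))
  (.nx 363 54 (.l1 .sk) (.lg 0 false 3 73 73 16 0 3816))) (.nr 371 32769 (.nr 369 257 (.lg 0 true 3
  61 61 16 0 3816) (.nx 370 41287 (.lg 1 false 1 73 73 13 7090 3816) .out)) .out))) .out) .out))
  (.na 375 34 .ne (.na 390 37 (.nx 389 82572 (.nr 388 262145 (.nr 376 34 .s1 (.nx 378 53 (.nr 377
  192 (.l1 (.ls 16 23 85)) (.l1 .sk)) (.nx 379 54 (.l1 .sk) (.nr 384 32769 (.lg 0 true 5 89 89 13 0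
  38160) (.nx 387 2582 (.lg 0 false 3 79 79 13 0 7632) .out))))) .out) .out) (.nx 401 82572 (.nr
  400 262145 (.nr 391 37 .s1 (.nx 393 53 (.nr 392 197 (.l1 (.ls 16 16 78)) (.l1 .sk)) (.nx 394 54
  (.l1 .sk) (.nr 398 32769 (.lg 0 true 4 89 89 16 0 38160) (.nx 399 2582 (.lg 0 true 1 89 89 16 0
  19080) .out))))) .out) .out)))) (.na 424 53 (.na 413 46 (.nx 412 82572 (.nr 411 262145 (.nr 403
  38 .s1 (.nx 405 53 (.nr 404 238 (.l1 (.ls 17 17 76)) (.l1 .sk)) (.nx 406 54 (.l1 .sk) (.nr 409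
  32769 (.lg 0 true 3 89 89 13 0 38160) (.nx 410 2582 (.lg 0 true 1 89 89 13 0 38160) .out)))))
  .out) .out) (.nx 423 82572 (.nr 422 262145 (.nr 414 46 .s1 (.nx 417 54 (.nx 416 53 (.nr 415 275
  (.l1 (.ls 16 17 64)) (.l1 .sk)) (.l1 .sk)) (.nr 420 32769 (.lg 0 true 3 83 83 13 0 7632) (.nx 421
  2582 (.lg 0 true 1 83 83 13 0 99216) .out)))) .out) .out)) (.na 437 54 (.nx 436 82572 (.nr 435
  262145 (.nr 425 53 .s1 (.nx 427 53 (.nr 426 280 (.l1 (.ls 16 16 55)) (.l1 .sk)) (.nx 428 54 (.l1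
  .sk) (.nr 431 32769 (.lg 0 false 3 71 71 16 0 3816) (.nx 434 2582 (.lg 0 true 3 61 61 16 0 3816)
  .out))))) .out) .out) (.na 447 58 (.nx 446 82572 (.nr 445 262145 (.nr 438 54 .s1 (.nx 440 53 (.nr
  439 300 (.l1 (.ls 16 23 55)) (.l1 .sk)) (.nx 441 54 (.l1 .sk) (.nr 443 32769 (.lg 0 false 2 79 79
  19 0 7632) (.nx 444 2582 (.lg 0 true 1 79 79 19 0 7632) .out))))) .out) .out) (.nx 456 82572 (.nr
  455 262145 (.nr 448 58 .s1 (.nx 451 54 (.nx 450 53 (.nr 449 321 (.l1 (.ls 17 13 51)) (.l1 .sk))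
  (.l1 .sk)) (.nr 453 32769 (.lg 0 false 2 89 89 13 0 38160) (.nx 454 2582 (.lg 0 true 1 83 83 13 0
  38160) .out)))) .out) .out)))))) (.na 542 111 (.na 497 79 (.na 468 69 (.na 467 64 (.nx 466 82572
  (.nr 465 262145 (.nr 458 62 .s1 (.nx 460 53 (.nr 459 331 (.l1 (.ls 17 13 48)) (.l1 .sk)) (.nx 461
  54 (.l1 .sk) (.nr 463 32769 (.lg 0 false 2 89 89 17 0 38160) (.nx 464 2582 (.lg 0 true 1 83 83 13
  0 38160) .out))))) .out) .out) .ne) (.na 478 74 (.nx 477 82572 (.nr 476 524289 (.nr 469 69 .s1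
  (.nx 472 6503 (.nx 470 647 (.l1 (.ls 73 43 6069)) (.nr 471 262145 (.lg 0 true 1 83 83 17 0 3816)
  .out)) (.nr 475 65537 (.nx 473 41287 (.lg 1 false 1 79 79 17 15857 3816) (.nr 474 257 (.lg 0 true
  1 47 47 17 0 3816) .out)) .out))) .out) .out) (.na 487 78 (.nx 486 82572 (.nr 485 524289 (.nr 479
  74 .s1 (.nx 480 647 (.l1 (.ls 71 47 5659)) (.nr 484 262145 (.nx 481 6503 (.lg 0 true 1 83 83 13 0
  7632) (.nr 483 65537 (.lg 1 true 2 79 79 19 29570 7632) .out)) .out))) .out) .out) (.nx 496 82572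
  (.nr 495 524289 (.nr 488 78 .s1 (.nx 489 647 (.l1 (.ls 79 53 5369)) (.nr 494 262145 (.nx 490 6503
  (.lg 0 true 1 89 89 29 0 496080) (.nr 493 65537 (.nx 491 41287 (.lg 1 false 1 79 79 29 14168
  99216) (.nr 492 257 (.lg 0 true 1 47 47 29 0 99216) .out)) .out)) .out))) .out) .out)))) (.na 516
  97 (.na 508 81 (.nx 507 82572 (.nr 506 524289 (.nr 498 79 .s1 (.nx 504 6503 (.nx 500 53 (.nr 499
  419 (.l1 (.ls 16 16 38)) (.l1 .sk)) (.nx 501 54 (.l1 .sk) (.lg 0 false 3 71 71 16 0 3816))) (.nr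
  505 65537 (.lg 1 false 1 79 79 16 27699 3816) .out))) .out) .out) (.nx 515 82572 (.nr 514 524289
  (.nr 509 81 .s1 (.nx 510 647 (.l1 (.ls 61 41 5171)) (.nr 513 262145 (.nx 511 6503 (.lg 0 true 1
  71 71 16 0 3816) (.nr 512 65537 (.lg 1 false 1 73 73 16 27015 3816) .out)) .out))) .out) .out))
  (.na 524 102 (.nx 523 82572 (.nr 522 524289 (.nr 517 97 .s1 (.nx 518 647 (.l1 (.ls 67 31 4318))
  (.nr 521 262145 (.nx 519 6503 (.lg 0 true 1 73 73 16 0 19080) (.nr 520 65537 (.lg 1 false 1 73 73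
  16 22559 19080) .out)) .out))) .out) .out) (.na 532 106 (.nx 531 82572 (.nr 530 524289 (.nr 525
  102 .s1 (.nx 528 6503 (.nx 526 647 (.l1 (.ls 79 53 4107)) (.nr 527 262145 (.lg 0 true 1 83 83 29
  0 38160) .out)) (.nr 529 65537 (.lg 1 false 1 83 83 29 21453 7632) .out))) .out) .out) (.nx 541
  82572 (.nr 540 524289 (.nr 533 106 .s1 (.nx 534 647 (.l1 (.ls 61 41 3952)) (.nr 539 262145 (.lg 0
  false 5 79 79 19 0 38160) .out))) .out) .out))))) (.na 582 128 (.na 558 114 (.na 550 113 (.nx 549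
  82572 (.nr 548 524289 (.nr 543 111 .s1 (.nx 544 647 (.l1 (.ls 73 41 3774)) (.nr 547 262145 (.nx
  545 6503 (.lg 0 false 1 79 79 17 0 3816) (.nr 546 65537 (.lg 1 true 1 79 79 17 19714 3816) .out))
  .out))) .out) .out) (.nx 557 82572 (.nr 556 524289 (.nr 551 113 .s1 (.nx 552 647 (.l1 (.ls 67 31
  3707)) (.nr 555 262145 (.nx 553 6503 (.lg 0 true 1 71 71 16 0 3816) (.nr 554 65537 (.lg 1 false 1
  71 71 16 19365 3816) .out)) .out))) .out) .out)) (.na 566 117 (.nx 565 82572 (.nr 564 524289 (.nr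
  559 114 .s1 (.nx 562 6503 (.nx 560 647 (.l1 (.ls 73 47 3675)) (.nr 561 262145 (.lg 0 false 1 79
  79 31 0 7632) .out)) (.nr 563 65537 (.lg 1 true 1 79 79 31 19195 7632) .out))) .out) .out) (.na
  574 127 (.nx 573 82572 (.nr 572 524289 (.nr 567 117 .s1 (.nx 568 647 (.l1 (.ls 73 41 3580)) (.nr
  571 262145 (.nx 569 6503 (.lg 0 false 1 79 79 19 0 49608) (.nr 570 65537 (.lg 1 false 1 79 79 19
  18703 248040) .out)) .out))) .out) .out) (.nx 581 82572 (.nr 580 524289 (.nr 575 127 .s1 (.nx 578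
  6503 (.nx 576 647 (.l1 (.ls 67 31 3299)) (.nr 577 262145 (.lg 0 true 1 71 71 16 0 3816) .out))
  (.nr 579 65537 (.lg 1 false 1 71 71 16 17230 19080) .out))) .out) .out)))) (.na 589 138 (.na 583
  134 .ne (.nx 588 41287 (.nr 587 1048577 (.nr 584 134 .s1 (.nx 585 647 (.l1 (.ls 61 41 3126)) (.nr
  586 131073 (.lg 0 true 1 83 83 19 0 7632) .out))) .out) .out)) (.na 595 139 (.nx 594 41287 (.nr
  593 1048577 (.nr 590 138 .s1 (.nx 591 647 (.l1 (.ls 79 47 3036)) (.nr 592 131073 (.lg 0 true 1 89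
  89 31 0 38160) .out))) .out) .out) (.na 601 142 (.nx 600 41287 (.nr 599 1048577 (.nr 596 139 .s1
  (.nx 597 647 (.l1 (.ls 67 31 3014)) (.nr 598 131073 (.lg 0 true 1 73 73 16 0 3816) .out))) .out)
  .out) (.nx 606 41287 (.nr 605 1048577 (.nr 602 142 .s1 (.nx 603 647 (.l1 (.ls 67 41 2950)) (.nr
  604 131073 (.lg 0 true 1 83 83 19 0 7632) .out))) .out) .out))))))) (.na 706 226 (.na 656 186
  (.na 631 166 (.na 619 159 (.na 613 158 (.nx 612 41287 (.nr 611 1048577 (.nr 608 149 .s1 (.nx 609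
  647 (.l1 (.ls 67 31 2812)) (.nr 610 131073 (.lg 0 true 1 73 73 16 0 3816) .out))) .out) .out)
  (.nx 618 41287 (.nr 617 1048577 (.nr 614 158 .s1 (.nx 615 647 (.l1 (.ls 71 41 2652)) (.nr 616
  131073 (.lg 0 true 1 83 83 19 0 38160) .out))) .out) .out)) (.na 625 162 (.nx 624 41287 (.nr 623
  1048577 (.nr 620 159 .s1 (.nx 621 647 (.l1 (.ls 67 37 2635)) (.nr 622 131073 (.lg 0 true 1 73 73
  17 0 3816) .out))) .out) .out) (.nx 630 41287 (.nr 629 1048577 (.nr 626 162 .s1 (.nx 627 647 (.l1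
  (.ls 71 43 2587)) (.nr 628 131073 (.lg 0 true 1 79 79 23 0 7632) .out))) .out) .out))) (.na 643
  174 (.na 637 171 (.nx 636 41287 (.nr 635 1048577 (.nr 632 166 .s1 (.nx 633 647 (.l1 (.ls 67 41
  2524)) (.nr 634 131073 (.lg 0 true 1 73 73 19 0 7632) .out))) .out) .out) (.nx 642 41287 (.nr 641
  1048577 (.nr 638 171 .s1 (.nx 639 647 (.l1 (.ls 73 41 2451)) (.nr 640 131073 (.lg 0 false 1 79 79
  17 0 3816) .out))) .out) .out)) (.na 649 178 (.nx 648 41287 (.nr 647 1048577 (.nr 644 174 .s1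
  (.nx 645 647 (.l1 (.ls 73 47 2408)) (.nr 646 131073 (.lg 0 true 1 83 83 23 0 7632) .out))) .out)
  .out) (.na 655 181 (.nx 654 41287 (.nr 653 1048577 (.nr 650 178 .s1 (.nx 651 647 (.l1 (.ls 67 41
  2354)) (.nr 652 131073 (.lg 0 true 1 73 73 19 0 7632) .out))) .out) .out) (.lg 0 false 1 0 0 16 0
  24))))) (.na 681 206 (.na 668 193 (.na 662 191 (.nx 661 41287 (.nr 660 1048577 (.nr 657 186 .s1
  (.nx 658 647 (.l1 (.ls 73 47 2253)) (.nr 659 131073 (.lg 0 false 1 83 83 29 0 7632) .out))) .out)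
  .out) (.nx 667 41287 (.nr 666 1048577 (.nr 663 191 .s1 (.nx 664 647 (.l1 (.ls 61 29 2194)) (.nr
  665 131073 (.lg 0 true 1 71 71 16 0 3816) .out))) .out) .out)) (.na 669 194 (.lg 0 false 1 0 0 16
  0 24) (.na 675 197 (.nx 674 41287 (.nr 673 1048577 (.nr 670 194 .s1 (.nx 671 647 (.l1 (.ls 67 41
  2160)) (.nr 672 131073 (.lg 0 true 1 73 73 19 0 7632) .out))) .out) .out) (.nx 680 41287 (.nr 679
  1048577 (.nr 676 197 .s1 (.nx 677 647 (.l1 (.ls 67 29 2127)) (.nr 678 131073 (.lg 0 true 1 73 73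
  16 0 19080) .out))) .out) .out)))) (.na 693 213 (.na 687 207 (.nx 686 41287 (.nr 685 1048577 (.nr
  682 206 .s1 (.nx 683 647 (.l1 (.ls 67 37 2035)) (.nr 684 131073 (.lg 0 true 1 73 73 23 0 7632)
  .out))) .out) .out) (.nx 692 41287 (.nr 691 1048577 (.nr 688 207 .s1 (.nx 689 647 (.l1 (.ls 71 41
  2025)) (.nr 690 131073 (.lg 0 false 1 79 79 19 0 19080) .out))) .out) .out)) (.na 699 222 (.nx
  698 41287 (.nr 697 1048577 (.nr 694 213 .s1 (.nx 695 647 (.l1 (.ls 67 37 1968)) (.nr 696 131073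
  (.lg 0 false 1 79 79 19 0 3816) .out))) .out) .out) (.na 705 223 (.nx 704 41287 (.nr 703 1048577
  (.nr 700 222 .s1 (.nx 701 647 (.l1 (.ls 73 47 1888)) (.nr 702 131073 (.lg 0 true 1 83 83 31 0
  38160) .out))) .out) .out) (.lg 0 false 1 0 0 16 0 24)))))) (.na 1331 725 (.na 736 251 (.na 718
  234 (.na 712 229 (.nx 711 41287 (.nr 710 1048577 (.nr 707 226 .s1 (.nx 708 647 (.l1 (.ls 67 37
  1855)) (.nr 709 131073 (.lg 0 true 1 71 71 23 0 7632) .out))) .out) .out) (.nx 717 41287 (.nr 716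
  1048577 (.nr 713 229 .s1 (.nx 714 647 (.l1 (.ls 61 29 1830)) (.nr 715 131073 (.lg 0 true 1 67 67
  17 0 3816) .out))) .out) .out)) (.na 724 239 (.nx 723 41287 (.nr 722 1048577 (.nr 719 234 .s1
  (.nx 720 647 (.l1 (.ls 71 43 1791)) (.nr 721 131073 (.lg 0 false 1 79 79 37 0 99216) .out)))
  .out) .out) (.na 730 241 (.nx 729 41287 (.nr 728 1048577 (.nr 725 239 .s1 (.nx 726 647 (.l1 (.ls
  61 29 1754)) (.nr 727 131073 (.lg 0 true 1 67 67 17 0 3816) .out))) .out) .out) (.nx 735 41287
  (.nr 734 1048577 (.nr 731 241 .s1 (.nx 732 647 (.l1 (.ls 61 29 1739)) (.nr 733 131073 (.lg 0 true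
  1 67 67 17 0 3816) .out))) .out) .out)))) (.na 748 256 (.na 742 254 (.nx 741 41287 (.nr 740
  1048577 (.nr 737 251 .s1 (.nx 738 647 (.l1 (.ls 61 29 1670)) (.nr 739 131073 (.lg 0 true 1 67 67
  17 0 3816) .out))) .out) .out) (.nx 747 41287 (.nr 746 1048577 (.nr 743 254 .s1 (.nx 744 647 (.l1
  (.ls 67 37 1651)) (.nr 745 131073 (.lg 0 true 1 71 71 23 0 7632) .out))) .out) .out)) (.na 749
  257 .ne (.na 1061 512 (.nx 1060 41287 (.nr 1059 262145 (.nr 750 257 .s1 (.nx 804 54 (.nx 803 53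
  (.nr 802 2649 (.lx (.lp 23 16 129)) (.l1 .sk)) (.l1 .sk)) (.la (.lg 0 true 1 73 73 23 0)))) .out)
  .out) (.nx 1330 41287 (.nr 1329 262145 (.nr 1062 512 .s1 (.nx 1116 54 (.nx 1115 53 (.nr 1114 3750
  (.lx (.lp 19 17 182)) (.l1 .sk)) (.l1 .sk)) (.la (.lg 0 false 1 67 67 29 0)))) .out) .out)))))
  (.na 2626 4096 (.na 1849 1449 (.na 1590 1024 (.nx 1589 257 (.nr 1588 65537 (.nr 1332 725 .s1 (.lx
  (.lp 47 23 257))) .out) .out) (.nx 1848 257 (.nr 1847 65537 (.nr 1591 1024 .s1 (.lx (.lp 37 23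
  363))) .out) .out)) (.na 2108 2048 (.nx 2107 257 (.nr 2106 16385 (.nr 1850 1449 .s1 (.lx (.lp 23
  29 513))) .out) .out) (.na 2367 2897 (.nx 2366 257 (.nr 2365 32769 (.nr 2109 2048 .s1 (.lx (.lp
  29 29 725))) .out) .out) (.nx 2625 257 (.nr 2624 32769 (.nr 2368 2897 .s1 (.lx (.lp 23 31 1025)))
  .out) .out)))) (.na 2990 8192 (.na 2885 5793 (.nx 2884 257 (.nr 2883 32769 (.nr 2627 4096 .s1
  (.lx (.lp 19 31 1449))) .out) .out) (.nx 2989 103 (.nr 2988 32769 (.nr 2886 5793 .s1 (.lx (.lp 16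
  0 2049))) .out) .out)) (.na 3095 16384 (.nx 3094 103 (.nr 3093 32769 (.nr 2991 8192 .s1 (.lx (.lp
  16 0 4097))) .out) .out) (.na 3097 32769 (.nx 3096 103 (.l1 .sk) .out) .out)))))))

theorem c89 :
    OkQ ckI L9 201 43 1099511627776 0 34359738368 1 1099511627776 ∧
    OkQ ckI L8 131 1 1099511627776 0 34359738368 1 1099511627776 ∧
    OkQ ckI L5 53 1 1099511627776 0 34359738368 1 1099511627776 := by
  refine ⟨?_, ?_, ?_⟩
  · refine fin 1608 17651 T89_0 ?_
    refine jn 9 (by decide +kernel) ?_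
    refine jn 17 (by decide +kernel) ?_
    refine jn 33 (by decide +kernel) ?_
    refine jn 40 (by decide +kernel) ?_
    refine jn 57 (by decide +kernel) ?_
    refine jn 64 (by decide +kernel) ?_
    refine jn 77 (by decide +kernel) ?_
    refine jn 83 (by decide +kernel) ?_
    refine jn 97 (by decide +kernel) ?_
    refine jn 103 (by decide +kernel) ?_
    refine jn 114 (by decide +kernel) ?_
    refine jn 121 (by decide +kernel) ?_
    refine jn 136 (by decide +kernel) ?_
    refine jn 150 (by decide +kernel) ?_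
    refine jn 157 (by decide +kernel) ?_
    refine jn 180 (by decide +kernel) ?_
    refine jn 195 (by decide +kernel) ?_
    refine jn 206 (by decide +kernel) ?_
    refine jn 209 (by decide +kernel) ?_
    refine jn 211 (by decide +kernel) ?_
    refine jn 214 (by decide +kernel) ?_
    refine jn 229 (by decide +kernel) ?_
    refine jn 242 (by decide +kernel) ?_
    refine jn 247 (by decide +kernel) ?_
    refine jn 261 (by decide +kernel) ?_
    refine jn 274 (by decide +kernel) ?_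
    refine jn 286 (by decide +kernel) ?_
    refine jn 296 (by decide +kernel) ?_
    refine jn 308 (by decide +kernel) ?_
    refine jn 319 (by decide +kernel) ?_
    refine jn 329 (by decide +kernel) ?_
    refine jn 343 (by decide +kernel) ?_
    refine jn 360 (by decide +kernel) ?_
    refine jn 376 (by decide +kernel) ?_
    refine jn 387 (by decide +kernel) ?_
    refine jn 388 (by decide +kernel) ?_
    refine jn 389 (by decide +kernel) ?_
    refine jn 390 (by decide +kernel) ?_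
    refine jn 391 (by decide +kernel) ?_
    refine jn 400 (by decide +kernel) ?_
    refine jn 404 (by decide +kernel) ?_
    refine jn 408 (by decide +kernel) ?_
    refine jn 419 (by decide +kernel) ?_
    refine jn 434 (by decide +kernel) ?_
    refine jn 446 (by decide +kernel) ?_
    refine jn 459 (by decide +kernel) ?_
    refine jn 469 (by decide +kernel) ?_
    refine jn 473 (by decide +kernel) ?_
    refine jn 476 (by decide +kernel) ?_
    refine jn 490 (by decide +kernel) ?_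
    refine jn 504 (by decide +kernel) ?_
    refine jn 518 (by decide +kernel) ?_
    refine jn 534 (by decide +kernel) ?_
    refine jn 560 (by decide +kernel) ?_
    refine jn 573 (by decide +kernel) ?_
    refine jn 589 (by decide +kernel) ?_
    refine jn 603 (by decide +kernel) ?_
    refine jn 617 (by decide +kernel) ?_
    refine jn 629 (by decide +kernel) ?_
    refine jn 645 (by decide +kernel) ?_
    refine jn 661 (by decide +kernel) ?_
    refine jn 672 (by decide +kernel) ?_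
    refine jn 686 (by decide +kernel) ?_
    refine jn 700 (by decide +kernel) ?_
    refine jn 714 (by decide +kernel) ?_
    refine jn 725 (by decide +kernel) ?_
    refine jn 739 (by decide +kernel) ?_
    refine jn 755 (by decide +kernel) ?_
    refine jn 768 (by decide +kernel) ?_
    refine jn 787 (by decide +kernel) ?_
    refine jn 804 (by decide +kernel) ?_
    refine jn 815 (by decide +kernel) ?_
    refine jn 827 (by decide +kernel) ?_
    refine jn 840 (by decide +kernel) ?_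
    refine jn 853 (by decide +kernel) ?_
    refine jn 863 (by decide +kernel) ?_
    refine jn 876 (by decide +kernel) ?_
    refine jn 894 (by decide +kernel) ?_
    refine jn 911 (by decide +kernel) ?_
    refine jn 921 (by decide +kernel) ?_
    refine jn 932 (by decide +kernel) ?_
    refine jn 943 (by decide +kernel) ?_
    refine jn 962 (by decide +kernel) ?_
    refine jn 975 (by decide +kernel) ?_
    refine jn 988 (by decide +kernel) ?_
    refine jn 1009 (by decide +kernel) ?_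
    refine jn 1068 (by decide +kernel) ?_
    refine jn 1115 (by decide +kernel) ?_
    refine jn 1172 (by decide +kernel) ?_
    refine jn 1178 (by decide +kernel) ?_
    refine jn 1187 (by decide +kernel) ?_
    refine jn 1195 (by decide +kernel) ?_
    refine jn 1214 (by decide +kernel) ?_
    refine jn 1223 (by decide +kernel) ?_
    refine jn 1231 (by decide +kernel) ?_
    refine jn 1242 (by decide +kernel) ?_
    refine jn 1247 (by decide +kernel) ?_
    refine jn 1256 (by decide +kernel) ?_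
    refine jn 1263 (by decide +kernel) ?_
    refine jn 1268 (by decide +kernel) ?_
    refine jn 1279 (by decide +kernel) ?_
    refine jn 1285 (by decide +kernel) ?_
    refine jn 1297 (by decide +kernel) ?_
    refine jn 1321 (by decide +kernel) ?_
    refine jn 1334 (by decide +kernel) ?_
    refine jn 1349 (by decide +kernel) ?_
    refine jn 1359 (by decide +kernel) ?_
    refine jn 1374 (by decide +kernel) ?_
    refine jn 1385 (by decide +kernel) ?_
    refine jn 1397 (by decide +kernel) ?_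
    refine jn 1408 (by decide +kernel) ?_
    refine jn 1433 (by decide +kernel) ?_
    refine jn 1448 (by decide +kernel) ?_
    refine jn 1460 (by decide +kernel) ?_
    refine jn 1476 (by decide +kernel) ?_
    refine jn 1488 (by decide +kernel) ?_
    refine jn 1541 (by decide +kernel) ?_
    refine jn 1602 (by decide +kernel) ?_
    refine jn 1647 (by decide +kernel) ?_
    refine jn 1651 (by decide +kernel) ?_
    refine jn 1659 (by decide +kernel) ?_
    refine jn 1674 (by decide +kernel) ?_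
    refine jn 1681 (by decide +kernel) ?_
    refine jn 1691 (by decide +kernel) ?_
    refine jn 1701 (by decide +kernel) ?_
    refine jn 1710 (by decide +kernel) ?_
    refine jn 1714 (by decide +kernel) ?_
    refine jn 1734 (by decide +kernel) ?_
    refine jn 1745 (by decide +kernel) ?_
    refine jn 1749 (by decide +kernel) ?_
    refine jn 1754 (by decide +kernel) ?_
    refine jn 1770 (by decide +kernel) ?_
    refine jn 1777 (by decide +kernel) ?_
    refine jn 1781 (by decide +kernel) ?_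
    refine jn 1796 (by decide +kernel) ?_
    refine jn 1800 (by decide +kernel) ?_
    refine jn 1808 (by decide +kernel) ?_
    refine jn 1822 (by decide +kernel) ?_
    refine jn 1824 (by decide +kernel) ?_
    refine jn 1830 (by decide +kernel) ?_
    refine jn 1839 (by decide +kernel) ?_
    refine jn 1842 (by decide +kernel) ?_
    refine jn 1850 (by decide +kernel) ?_
    refine jn 1859 (by decide +kernel) ?_
    refine jn 1863 (by decide +kernel) ?_
    refine jn 1883 (by decide +kernel) ?_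
    refine jn 1892 (by decide +kernel) ?_
    refine jn 1895 (by decide +kernel) ?_
    refine jn 1898 (by decide +kernel) ?_
    refine jn 1900 (by decide +kernel) ?_
    refine jn 1911 (by decide +kernel) ?_
    refine jn 1919 (by decide +kernel) ?_
    refine jn 1926 (by decide +kernel) ?_
    refine jn 1928 (by decide +kernel) ?_
    refine jn 1982 (by decide +kernel) ?_
    refine jn 2148 (by decide +kernel) ?_
    refine jn 2212 (by decide +kernel) ?_
    refine jn 2220 (by decide +kernel) ?_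
    refine jn 2226 (by decide +kernel) ?_
    refine jn 2244 (by decide +kernel) ?_
    refine jn 2253 (by decide +kernel) ?_
    refine jn 2265 (by decide +kernel) ?_
    refine jn 2272 (by decide +kernel) ?_
    refine jn 2284 (by decide +kernel) ?_
    refine jn 2304 (by decide +kernel) ?_
    refine jn 2333 (by decide +kernel) ?_
    refine jn 2344 (by decide +kernel) ?_
    refine jn 2350 (by decide +kernel) ?_
    refine jn 2369 (by decide +kernel) ?_
    refine jn 2377 (by decide +kernel) ?_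
    refine jn 2386 (by decide +kernel) ?_
    refine jn 2392 (by decide +kernel) ?_
    refine jn 2400 (by decide +kernel) ?_
    refine jn 2409 (by decide +kernel) ?_
    refine jn 2422 (by decide +kernel) ?_
    refine jn 2429 (by decide +kernel) ?_
    refine jn 2434 (by decide +kernel) ?_
    refine jn 2446 (by decide +kernel) ?_
    refine jn 2458 (by decide +kernel) ?_
    refine jn 2469 (by decide +kernel) ?_
    refine jn 2483 (by decide +kernel) ?_
    refine jn 2494 (by decide +kernel) ?_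
    refine jn 2506 (by decide +kernel) ?_
    refine jn 2526 (by decide +kernel) ?_
    refine jn 2549 (by decide +kernel) ?_
    refine jn 2557 (by decide +kernel) ?_
    refine jn 2563 (by decide +kernel) ?_
    refine jn 2581 (by decide +kernel) ?_
    refine jn 2589 (by decide +kernel) ?_
    refine jn 2594 (by decide +kernel) ?_
    refine jn 2602 (by decide +kernel) ?_
    refine jn 2611 (by decide +kernel) ?_
    refine jn 2617 (by decide +kernel) ?_
    refine jn 2627 (by decide +kernel) ?_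
    refine jn 2659 (by decide +kernel) ?_
    refine jn 2703 (by decide +kernel) ?_
    refine jn 2735 (by decide +kernel) ?_
    refine jn 2762 (by decide +kernel) ?_
    refine jn 2820 (by decide +kernel) ?_
    refine jn 2852 (by decide +kernel) ?_
    refine jn 2896 (by decide +kernel) ?_
    refine jn 2930 (by decide +kernel) ?_
    refine jn 2950 (by decide +kernel) ?_
    refine jn 2985 (by decide +kernel) ?_
    refine jn 2998 (by decide +kernel) ?_
    refine jn 3013 (by decide +kernel) ?_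
    refine jn 3021 (by decide +kernel) ?_
    refine jn 3038 (by decide +kernel) ?_
    refine jn 3059 (by decide +kernel) ?_
    refine jn 3085 (by decide +kernel) ?_
    refine jn 3122 (by decide +kernel) ?_
    refine jn 3138 (by decide +kernel) ?_
    refine jn 3151 (by decide +kernel) ?_
    refine jn 3179 (by decide +kernel) ?_
    refine jn 3202 (by decide +kernel) ?_
    refine jn 3218 (by decide +kernel) ?_
    refine jn 3251 (by decide +kernel) ?_
    refine jn 3282 (by decide +kernel) ?_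
    refine jn 3306 (by decide +kernel) ?_
    refine jn 3347 (by decide +kernel) ?_
    refine jn 3381 (by decide +kernel) ?_
    refine jn 3417 (by decide +kernel) ?_
    refine jn 3462 (by decide +kernel) ?_
    refine jn 3503 (by decide +kernel) ?_
    refine jn 3526 (by decide +kernel) ?_
    refine jn 3582 (by decide +kernel) ?_
    refine jn 3622 (by decide +kernel) ?_
    refine jn 3658 (by decide +kernel) ?_
    refine jn 3695 (by decide +kernel) ?_
    refine jn 3722 (by decide +kernel) ?_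
    refine jn 3731 (by decide +kernel) ?_
    refine jn 3767 (by decide +kernel) ?_
    refine jn 3799 (by decide +kernel) ?_
    refine jn 3819 (by decide +kernel) ?_
    refine jn 3862 (by decide +kernel) ?_
    refine jn 3894 (by decide +kernel) ?_
    refine jn 3927 (by decide +kernel) ?_
    refine jn 3939 (by decide +kernel) ?_
    refine jn 3962 (by decide +kernel) ?_
    refine jn 4007 (by decide +kernel) ?_
    refine jn 4039 (by decide +kernel) ?_
    refine jn 4066 (by decide +kernel) ?_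
    refine jn 4098 (by decide +kernel) ?_
    refine jn 4119 (by decide +kernel) ?_
    refine jn 4140 (by decide +kernel) ?_
    refine jn 4172 (by decide +kernel) ?_
    refine jn 4195 (by decide +kernel) ?_
    refine jn 4223 (by decide +kernel) ?_
    refine jn 4238 (by decide +kernel) ?_
    refine jn 4254 (by decide +kernel) ?_
    refine jn 4286 (by decide +kernel) ?_
    refine jn 4300 (by decide +kernel) ?_
    refine jn 4320 (by decide +kernel) ?_
    refine jn 4350 (by decide +kernel) ?_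
    refine jn 4367 (by decide +kernel) ?_
    refine jn 4391 (by decide +kernel) ?_
    refine jn 4411 (by decide +kernel) ?_
    refine jn 4436 (by decide +kernel) ?_
    refine jn 4454 (by decide +kernel) ?_
    refine jn 4480 (by decide +kernel) ?_
    refine jn 4516 (by decide +kernel) ?_
    refine jn 4550 (by decide +kernel) ?_
    refine jn 4580 (by decide +kernel) ?_
    refine jn 4611 (by decide +kernel) ?_
    refine jn 4623 (by decide +kernel) ?_
    refine jn 4662 (by decide +kernel) ?_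
    refine jn 4694 (by decide +kernel) ?_
    refine jn 4722 (by decide +kernel) ?_
    refine jn 4751 (by decide +kernel) ?_
    refine jn 4783 (by decide +kernel) ?_
    refine jn 4814 (by decide +kernel) ?_
    refine jn 4839 (by decide +kernel) ?_
    refine jn 4894 (by decide +kernel) ?_
    refine jn 4938 (by decide +kernel) ?_
    refine jn 4970 (by decide +kernel) ?_
    refine jn 4999 (by decide +kernel) ?_
    refine jn 5039 (by decide +kernel) ?_
    refine jn 5065 (by decide +kernel) ?_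
    refine jn 5093 (by decide +kernel) ?_
    refine jn 5125 (by decide +kernel) ?_
    refine jn 5157 (by decide +kernel) ?_
    refine jn 5186 (by decide +kernel) ?_
    refine jn 5215 (by decide +kernel) ?_
    refine jn 5241 (by decide +kernel) ?_
    refine jn 5282 (by decide +kernel) ?_
    refine jn 5319 (by decide +kernel) ?_
    refine jn 5358 (by decide +kernel) ?_
    refine jn 5401 (by decide +kernel) ?_
    refine jn 5422 (by decide +kernel) ?_
    refine jn 5469 (by decide +kernel) ?_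
    refine jn 5518 (by decide +kernel) ?_
    refine jn 5652 (by decide +kernel) ?_
    refine jn 5796 (by decide +kernel) ?_
    refine jn 5854 (by decide +kernel) ?_
    refine jn 5911 (by decide +kernel) ?_
    refine jn 5979 (by decide +kernel) ?_
    refine jn 6046 (by decide +kernel) ?_
    refine jn 6111 (by decide +kernel) ?_
    refine jn 6167 (by decide +kernel) ?_
    refine jn 6239 (by decide +kernel) ?_
    refine jn 6304 (by decide +kernel) ?_
    refine jn 6368 (by decide +kernel) ?_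
    refine jn 6427 (by decide +kernel) ?_
    refine jn 6499 (by decide +kernel) ?_
    refine jn 6563 (by decide +kernel) ?_
    refine jn 6662 (by decide +kernel) ?_
    refine jn 6750 (by decide +kernel) ?_
    refine jn 6804 (by decide +kernel) ?_
    refine jn 6900 (by decide +kernel) ?_
    refine jn 6991 (by decide +kernel) ?_
    refine jn 7195 (by decide +kernel) ?_
    refine jn 7249 (by decide +kernel) ?_
    refine jn 7315 (by decide +kernel) ?_
    refine jn 7376 (by decide +kernel) ?_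
    refine jn 7472 (by decide +kernel) ?_
    refine jn 7569 (by decide +kernel) ?_
    refine jn 7640 (by decide +kernel) ?_
    refine jn 7713 (by decide +kernel) ?_
    refine jn 7801 (by decide +kernel) ?_
    refine jn 7884 (by decide +kernel) ?_
    refine jn 7947 (by decide +kernel) ?_
    refine jn 8016 (by decide +kernel) ?_
    refine jn 8088 (by decide +kernel) ?_
    refine jn 8160 (by decide +kernel) ?_
    refine jn 8239 (by decide +kernel) ?_
    refine jn 8308 (by decide +kernel) ?_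
    refine jn 8385 (by decide +kernel) ?_
    refine jn 8468 (by decide +kernel) ?_
    refine jn 8548 (by decide +kernel) ?_
    refine jn 8617 (by decide +kernel) ?_
    refine jn 8700 (by decide +kernel) ?_
    refine jn 8793 (by decide +kernel) ?_
    refine jn 8850 (by decide +kernel) ?_
    refine jn 9162 (by decide +kernel) ?_
    refine jn 9421 (by decide +kernel) ?_
    refine jn 9549 (by decide +kernel) ?_
    refine jn 9659 (by decide +kernel) ?_
    refine jn 9766 (by decide +kernel) ?_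
    refine jn 9856 (by decide +kernel) ?_
    refine jn 9935 (by decide +kernel) ?_
    refine jn 10001 (by decide +kernel) ?_
    refine jn 10070 (by decide +kernel) ?_
    refine jn 10131 (by decide +kernel) ?_
    refine jn 10492 (by decide +kernel) ?_
    refine jn 10730 (by decide +kernel) ?_
    refine jn 10908 (by decide +kernel) ?_
    refine jn 11049 (by decide +kernel) ?_
    refine jn 11166 (by decide +kernel) ?_
    refine jn 11255 (by decide +kernel) ?_
    refine jn 11340 (by decide +kernel) ?_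
    refine jn 11415 (by decide +kernel) ?_
    refine jn 11807 (by decide +kernel) ?_
    refine jn 12065 (by decide +kernel) ?_
    refine jn 12251 (by decide +kernel) ?_
    refine jn 12409 (by decide +kernel) ?_
    refine jn 12529 (by decide +kernel) ?_
    refine jn 12637 (by decide +kernel) ?_
    refine jn 12735 (by decide +kernel) ?_
    refine jn 13127 (by decide +kernel) ?_
    refine jn 13280 (by decide +kernel) ?_
    refine jn 13418 (by decide +kernel) ?_
    refine jn 13542 (by decide +kernel) ?_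
    refine jn 13643 (by decide +kernel) ?_
    refine jn 13729 (by decide +kernel) ?_
    refine jn 13816 (by decide +kernel) ?_
    refine jn 13908 (by decide +kernel) ?_
    refine jn 13975 (by decide +kernel) ?_
    refine jn 14085 (by decide +kernel) ?_
    refine jn 14552 (by decide +kernel) ?_
    refine jn 14698 (by decide +kernel) ?_
    refine jn 14889 (by decide +kernel) ?_
    refine jn 15035 (by decide +kernel) ?_
    refine jn 15155 (by decide +kernel) ?_
    refine jn 15230 (by decide +kernel) ?_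
    refine jn 15324 (by decide +kernel) ?_
    refine jn 15910 (by decide +kernel) ?_
    refine jn 16107 (by decide +kernel) ?_
    refine jn 16291 (by decide +kernel) ?_
    refine jn 16427 (by decide +kernel) ?_
    refine jn 16593 (by decide +kernel) ?_
    refine jn 17134 (by decide +kernel) ?_
    exact je (by decide +kernel)
  · refine fin 72 14203 T89_1 ?_
    refine jn 9 (by decide +kernel) ?_
    refine jn 15 (by decide +kernel) ?_
    refine jn 21 (by decide +kernel) ?_
    refine jn 27 (by decide +kernel) ?_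
    refine jn 32 (by decide +kernel) ?_
    refine jn 38 (by decide +kernel) ?_
    refine jn 45 (by decide +kernel) ?_
    refine jn 53 (by decide +kernel) ?_
    refine jn 60 (by decide +kernel) ?_
    refine jn 81 (by decide +kernel) ?_
    refine jn 88 (by decide +kernel) ?_
    refine jn 109 (by decide +kernel) ?_
    refine jn 131 (by decide +kernel) ?_
    refine jn 155 (by decide +kernel) ?_
    refine jn 174 (by decide +kernel) ?_
    refine jn 194 (by decide +kernel) ?_
    refine jn 196 (by decide +kernel) ?_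
    refine jn 197 (by decide +kernel) ?_
    refine jn 198 (by decide +kernel) ?_
    refine jn 199 (by decide +kernel) ?_
    refine jn 200 (by decide +kernel) ?_
    refine jn 201 (by decide +kernel) ?_
    refine jn 202 (by decide +kernel) ?_
    refine jn 203 (by decide +kernel) ?_
    refine jn 218 (by decide +kernel) ?_
    refine jn 222 (by decide +kernel) ?_
    refine jn 224 (by decide +kernel) ?_
    refine jn 226 (by decide +kernel) ?_
    refine jn 229 (by decide +kernel) ?_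
    refine jn 230 (by decide +kernel) ?_
    refine jn 238 (by decide +kernel) ?_
    refine jn 265 (by decide +kernel) ?_
    refine jn 272 (by decide +kernel) ?_
    refine jn 278 (by decide +kernel) ?_
    refine jn 286 (by decide +kernel) ?_
    refine jn 293 (by decide +kernel) ?_
    refine jn 301 (by decide +kernel) ?_
    refine jn 311 (by decide +kernel) ?_
    refine jn 316 (by decide +kernel) ?_
    refine jn 327 (by decide +kernel) ?_
    refine jn 330 (by decide +kernel) ?_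
    refine jn 333 (by decide +kernel) ?_
    refine jn 335 (by decide +kernel) ?_
    refine jn 336 (by decide +kernel) ?_
    refine jn 340 (by decide +kernel) ?_
    refine jn 343 (by decide +kernel) ?_
    refine jn 352 (by decide +kernel) ?_
    refine jn 361 (by decide +kernel) ?_
    refine jn 369 (by decide +kernel) ?_
    refine jn 381 (by decide +kernel) ?_
    refine jn 385 (by decide +kernel) ?_
    refine jn 388 (by decide +kernel) ?_
    refine jn 396 (by decide +kernel) ?_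
    refine jn 399 (by decide +kernel) ?_
    refine jn 409 (by decide +kernel) ?_
    refine jn 417 (by decide +kernel) ?_
    refine jn 428 (by decide +kernel) ?_
    refine jn 431 (by decide +kernel) ?_
    refine jn 441 (by decide +kernel) ?_
    refine jn 444 (by decide +kernel) ?_
    refine jn 449 (by decide +kernel) ?_
    refine jn 462 (by decide +kernel) ?_
    refine jn 464 (by decide +kernel) ?_
    refine jn 471 (by decide +kernel) ?_
    refine jn 476 (by decide +kernel) ?_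
    refine jn 491 (by decide +kernel) ?_
    refine jn 498 (by decide +kernel) ?_
    refine jn 505 (by decide +kernel) ?_
    refine jn 517 (by decide +kernel) ?_
    refine jn 518 (by decide +kernel) ?_
    refine jn 519 (by decide +kernel) ?_
    refine jn 520 (by decide +kernel) ?_
    refine jn 523 (by decide +kernel) ?_
    refine jn 524 (by decide +kernel) ?_
    refine jn 527 (by decide +kernel) ?_
    refine jn 531 (by decide +kernel) ?_
    refine jn 543 (by decide +kernel) ?_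
    refine jn 545 (by decide +kernel) ?_
    refine jn 546 (by decide +kernel) ?_
    refine jn 549 (by decide +kernel) ?_
    refine jn 550 (by decide +kernel) ?_
    refine jn 552 (by decide +kernel) ?_
    refine jn 566 (by decide +kernel) ?_
    refine jn 575 (by decide +kernel) ?_
    refine jn 582 (by decide +kernel) ?_
    refine jn 587 (by decide +kernel) ?_
    refine jn 596 (by decide +kernel) ?_
    refine jn 597 (by decide +kernel) ?_
    refine jn 598 (by decide +kernel) ?_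
    refine jn 599 (by decide +kernel) ?_
    refine jn 600 (by decide +kernel) ?_
    refine jn 601 (by decide +kernel) ?_
    refine jn 605 (by decide +kernel) ?_
    refine jn 615 (by decide +kernel) ?_
    refine jn 619 (by decide +kernel) ?_
    refine jn 628 (by decide +kernel) ?_
    refine jn 630 (by decide +kernel) ?_
    refine jn 632 (by decide +kernel) ?_
    refine jn 644 (by decide +kernel) ?_
    refine jn 659 (by decide +kernel) ?_
    refine jn 669 (by decide +kernel) ?_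
    refine jn 671 (by decide +kernel) ?_
    refine jn 674 (by decide +kernel) ?_
    refine jn 689 (by decide +kernel) ?_
    refine jn 703 (by decide +kernel) ?_
    refine jn 713 (by decide +kernel) ?_
    refine jn 716 (by decide +kernel) ?_
    refine jn 729 (by decide +kernel) ?_
    refine jn 742 (by decide +kernel) ?_
    refine jn 752 (by decide +kernel) ?_
    refine jn 754 (by decide +kernel) ?_
    refine jn 765 (by decide +kernel) ?_
    refine jn 774 (by decide +kernel) ?_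
    refine jn 784 (by decide +kernel) ?_
    refine jn 794 (by decide +kernel) ?_
    refine jn 805 (by decide +kernel) ?_
    refine jn 813 (by decide +kernel) ?_
    refine jn 822 (by decide +kernel) ?_
    refine jn 833 (by decide +kernel) ?_
    refine jn 840 (by decide +kernel) ?_
    refine jn 843 (by decide +kernel) ?_
    refine jn 859 (by decide +kernel) ?_
    refine jn 874 (by decide +kernel) ?_
    refine jn 885 (by decide +kernel) ?_
    refine jn 895 (by decide +kernel) ?_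
    refine jn 938 (by decide +kernel) ?_
    refine jn 1034 (by decide +kernel) ?_
    refine jn 1165 (by decide +kernel) ?_
    refine jn 1177 (by decide +kernel) ?_
    refine jn 1193 (by decide +kernel) ?_
    refine jn 1201 (by decide +kernel) ?_
    refine jn 1225 (by decide +kernel) ?_
    refine jn 1237 (by decide +kernel) ?_
    refine jn 1238 (by decide +kernel) ?_
    refine jn 1257 (by decide +kernel) ?_
    refine jn 1265 (by decide +kernel) ?_
    refine jn 1285 (by decide +kernel) ?_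
    refine jn 1293 (by decide +kernel) ?_
    refine jn 1297 (by decide +kernel) ?_
    refine jn 1298 (by decide +kernel) ?_
    refine jn 1337 (by decide +kernel) ?_
    refine jn 1369 (by decide +kernel) ?_
    refine jn 1373 (by decide +kernel) ?_
    refine jn 1397 (by decide +kernel) ?_
    refine jn 1424 (by decide +kernel) ?_
    refine jn 1448 (by decide +kernel) ?_
    refine jn 1464 (by decide +kernel) ?_
    refine jn 1492 (by decide +kernel) ?_
    refine jn 1496 (by decide +kernel) ?_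
    refine jn 1516 (by decide +kernel) ?_
    refine jn 1528 (by decide +kernel) ?_
    refine jn 1548 (by decide +kernel) ?_
    refine jn 1552 (by decide +kernel) ?_
    refine jn 1572 (by decide +kernel) ?_
    refine jn 1612 (by decide +kernel) ?_
    refine jn 1624 (by decide +kernel) ?_
    refine jn 1640 (by decide +kernel) ?_
    refine jn 1679 (by decide +kernel) ?_
    refine jn 1898 (by decide +kernel) ?_
    refine jn 1910 (by decide +kernel) ?_
    refine jn 1918 (by decide +kernel) ?_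
    refine jn 1922 (by decide +kernel) ?_
    refine jn 1946 (by decide +kernel) ?_
    refine jn 1966 (by decide +kernel) ?_
    refine jn 1978 (by decide +kernel) ?_
    refine jn 1994 (by decide +kernel) ?_
    refine jn 2002 (by decide +kernel) ?_
    refine jn 2006 (by decide +kernel) ?_
    refine jn 2026 (by decide +kernel) ?_
    refine jn 2058 (by decide +kernel) ?_
    refine jn 2112 (by decide +kernel) ?_
    refine jn 2120 (by decide +kernel) ?_
    refine jn 2132 (by decide +kernel) ?_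
    refine jn 2136 (by decide +kernel) ?_
    refine jn 2160 (by decide +kernel) ?_
    refine jn 2180 (by decide +kernel) ?_
    refine jn 2192 (by decide +kernel) ?_
    refine jn 2208 (by decide +kernel) ?_
    refine jn 2220 (by decide +kernel) ?_
    refine jn 2240 (by decide +kernel) ?_
    refine jn 2272 (by decide +kernel) ?_
    refine jn 2316 (by decide +kernel) ?_
    refine jn 2360 (by decide +kernel) ?_
    refine jn 2432 (by decide +kernel) ?_
    refine jn 2492 (by decide +kernel) ?_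
    refine jn 2572 (by decide +kernel) ?_
    refine jn 2627 (by decide +kernel) ?_
    refine jn 2659 (by decide +kernel) ?_
    refine jn 2699 (by decide +kernel) ?_
    refine jn 2747 (by decide +kernel) ?_
    refine jn 2779 (by decide +kernel) ?_
    refine jn 2803 (by decide +kernel) ?_
    refine jn 2879 (by decide +kernel) ?_
    refine jn 2917 (by decide +kernel) ?_
    refine jn 2983 (by decide +kernel) ?_
    refine jn 3047 (by decide +kernel) ?_
    refine jn 3123 (by decide +kernel) ?_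
    refine jn 3183 (by decide +kernel) ?_
    refine jn 3271 (by decide +kernel) ?_
    refine jn 3331 (by decide +kernel) ?_
    refine jn 3392 (by decide +kernel) ?_
    refine jn 3448 (by decide +kernel) ?_
    refine jn 3488 (by decide +kernel) ?_
    refine jn 3548 (by decide +kernel) ?_
    refine jn 3600 (by decide +kernel) ?_
    refine jn 3660 (by decide +kernel) ?_
    refine jn 3704 (by decide +kernel) ?_
    refine jn 3748 (by decide +kernel) ?_
    refine jn 3808 (by decide +kernel) ?_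
    refine jn 3912 (by decide +kernel) ?_
    refine jn 3972 (by decide +kernel) ?_
    refine jn 4044 (by decide +kernel) ?_
    refine jn 4128 (by decide +kernel) ?_
    refine jn 4212 (by decide +kernel) ?_
    refine jn 4284 (by decide +kernel) ?_
    refine jn 4407 (by decide +kernel) ?_
    refine jn 4507 (by decide +kernel) ?_
    refine jn 4599 (by decide +kernel) ?_
    refine jn 4667 (by decide +kernel) ?_
    refine jn 4779 (by decide +kernel) ?_
    refine jn 4899 (by decide +kernel) ?_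
    refine jn 4995 (by decide +kernel) ?_
    refine jn 5055 (by decide +kernel) ?_
    refine jn 5155 (by decide +kernel) ?_
    refine jn 5266 (by decide +kernel) ?_
    refine jn 5378 (by decide +kernel) ?_
    refine jn 5526 (by decide +kernel) ?_
    refine jn 5622 (by decide +kernel) ?_
    refine jn 5742 (by decide +kernel) ?_
    refine jn 5874 (by decide +kernel) ?_
    refine jn 6026 (by decide +kernel) ?_
    refine jn 6126 (by decide +kernel) ?_
    refine jn 6254 (by decide +kernel) ?_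
    refine jn 6386 (by decide +kernel) ?_
    refine jn 6629 (by decide +kernel) ?_
    refine jn 6753 (by decide +kernel) ?_
    refine jn 6873 (by decide +kernel) ?_
    refine jn 7013 (by decide +kernel) ?_
    refine jn 7185 (by decide +kernel) ?_
    refine jn 7305 (by decide +kernel) ?_
    refine jn 7449 (by decide +kernel) ?_
    refine jn 7601 (by decide +kernel) ?_
    refine jn 7781 (by decide +kernel) ?_
    refine jn 7917 (by decide +kernel) ?_
    refine jn 8075 (by decide +kernel) ?_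
    refine jn 8249 (by decide +kernel) ?_
    refine jn 8706 (by decide +kernel) ?_
    refine jn 8935 (by decide +kernel) ?_
    refine jn 9063 (by decide +kernel) ?_
    refine jn 9174 (by decide +kernel) ?_
    refine jn 9261 (by decide +kernel) ?_
    refine jn 9334 (by decide +kernel) ?_
    refine jn 9418 (by decide +kernel) ?_
    refine jn 9495 (by decide +kernel) ?_
    refine jn 9553 (by decide +kernel) ?_
    refine jn 9923 (by decide +kernel) ?_
    refine jn 10099 (by decide +kernel) ?_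
    refine jn 10233 (by decide +kernel) ?_
    refine jn 10333 (by decide +kernel) ?_
    refine jn 10421 (by decide +kernel) ?_
    refine jn 10485 (by decide +kernel) ?_
    refine jn 10552 (by decide +kernel) ?_
    refine jn 10613 (by decide +kernel) ?_
    refine jn 10664 (by decide +kernel) ?_
    refine jn 10726 (by decide +kernel) ?_
    refine jn 10773 (by decide +kernel) ?_
    refine jn 10822 (by decide +kernel) ?_
    refine jn 11172 (by decide +kernel) ?_
    refine jn 11391 (by decide +kernel) ?_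
    refine jn 11601 (by decide +kernel) ?_
    refine jn 11734 (by decide +kernel) ?_
    refine jn 11850 (by decide +kernel) ?_
    refine jn 11960 (by decide +kernel) ?_
    refine jn 12050 (by decide +kernel) ?_
    refine jn 12132 (by decide +kernel) ?_
    refine jn 12693 (by decide +kernel) ?_
    refine jn 12881 (by decide +kernel) ?_
    refine jn 13114 (by decide +kernel) ?_
    refine jn 13701 (by decide +kernel) ?_
    refine jn 14012 (by decide +kernel) ?_
    refine jn 14185 (by decide +kernel) ?_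
    exact je (by decide +kernel)
  · refine fin 3816 3098 T89_2 ?_
    refine jn 5 (by decide +kernel) ?_
    refine jn 6 (by decide +kernel) ?_
    refine jn 7 (by decide +kernel) ?_
    refine jn 10 (by decide +kernel) ?_
    refine jn 11 (by decide +kernel) ?_
    refine jn 13 (by decide +kernel) ?_
    refine jn 15 (by decide +kernel) ?_
    refine jn 16 (by decide +kernel) ?_
    refine jn 17 (by decide +kernel) ?_
    refine jn 20 (by decide +kernel) ?_
    refine jn 21 (by decide +kernel) ?_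
    refine jn 23 (by decide +kernel) ?_
    refine jn 39 (by decide +kernel) ?_
    refine jn 75 (by decide +kernel) ?_
    refine jn 76 (by decide +kernel) ?_
    refine jn 78 (by decide +kernel) ?_
    refine jn 80 (by decide +kernel) ?_
    refine jn 82 (by decide +kernel) ?_
    refine jn 84 (by decide +kernel) ?_
    refine jn 86 (by decide +kernel) ?_
    refine jn 88 (by decide +kernel) ?_
    refine jn 90 (by decide +kernel) ?_
    refine jn 92 (by decide +kernel) ?_
    refine jn 94 (by decide +kernel) ?_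
    refine jn 96 (by decide +kernel) ?_
    refine jn 109 (by decide +kernel) ?_
    refine jn 117 (by decide +kernel) ?_
    refine jn 126 (by decide +kernel) ?_
    refine jn 137 (by decide +kernel) ?_
    refine jn 147 (by decide +kernel) ?_
    refine jn 154 (by decide +kernel) ?_
    refine jn 155 (by decide +kernel) ?_
    refine jn 157 (by decide +kernel) ?_
    refine jn 159 (by decide +kernel) ?_
    refine jn 160 (by decide +kernel) ?_
    refine jn 162 (by decide +kernel) ?_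
    refine jn 164 (by decide +kernel) ?_
    refine jn 165 (by decide +kernel) ?_
    refine jn 169 (by decide +kernel) ?_
    refine jn 173 (by decide +kernel) ?_
    refine jn 176 (by decide +kernel) ?_
    refine jn 187 (by decide +kernel) ?_
    refine jn 206 (by decide +kernel) ?_
    refine jn 219 (by decide +kernel) ?_
    refine jn 233 (by decide +kernel) ?_
    refine jn 240 (by decide +kernel) ?_
    refine jn 241 (by decide +kernel) ?_
    refine jn 242 (by decide +kernel) ?_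
    refine jn 243 (by decide +kernel) ?_
    refine jn 244 (by decide +kernel) ?_
    refine jn 245 (by decide +kernel) ?_
    refine jn 251 (by decide +kernel) ?_
    refine jn 253 (by decide +kernel) ?_
    refine jn 255 (by decide +kernel) ?_
    refine jn 257 (by decide +kernel) ?_
    refine jn 259 (by decide +kernel) ?_
    refine jn 261 (by decide +kernel) ?_
    refine jn 262 (by decide +kernel) ?_
    refine jn 267 (by decide +kernel) ?_
    refine jn 273 (by decide +kernel) ?_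
    refine jn 282 (by decide +kernel) ?_
    refine jn 285 (by decide +kernel) ?_
    refine jn 286 (by decide +kernel) ?_
    refine jn 291 (by decide +kernel) ?_
    refine jn 296 (by decide +kernel) ?_
    refine jn 306 (by decide +kernel) ?_
    refine jn 310 (by decide +kernel) ?_
    refine jn 314 (by decide +kernel) ?_
    refine jn 317 (by decide +kernel) ?_
    refine jn 332 (by decide +kernel) ?_
    refine jn 335 (by decide +kernel) ?_
    refine jn 342 (by decide +kernel) ?_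
    refine jn 345 (by decide +kernel) ?_
    refine jn 348 (by decide +kernel) ?_
    refine jn 349 (by decide +kernel) ?_
    refine jn 350 (by decide +kernel) ?_
    refine jn 351 (by decide +kernel) ?_
    refine jn 352 (by decide +kernel) ?_
    refine jn 353 (by decide +kernel) ?_
    refine jn 363 (by decide +kernel) ?_
    refine jn 366 (by decide +kernel) ?_
    refine jn 370 (by decide +kernel) ?_
    refine jn 384 (by decide +kernel) ?_
    refine jn 394 (by decide +kernel) ?_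
    refine jn 398 (by decide +kernel) ?_
    refine jn 406 (by decide +kernel) ?_
    refine jn 410 (by decide +kernel) ?_
    refine jn 421 (by decide +kernel) ?_
    refine jn 441 (by decide +kernel) ?_
    refine jn 444 (by decide +kernel) ?_
    refine jn 454 (by decide +kernel) ?_
    refine jn 464 (by decide +kernel) ?_
    refine jn 471 (by decide +kernel) ?_
    refine jn 474 (by decide +kernel) ?_
    refine jn 483 (by decide +kernel) ?_
    refine jn 490 (by decide +kernel) ?_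
    refine jn 492 (by decide +kernel) ?_
    refine jn 505 (by decide +kernel) ?_
    refine jn 512 (by decide +kernel) ?_
    refine jn 525 (by decide +kernel) ?_
    refine jn 527 (by decide +kernel) ?_
    refine jn 539 (by decide +kernel) ?_
    refine jn 546 (by decide +kernel) ?_
    refine jn 559 (by decide +kernel) ?_
    refine jn 563 (by decide +kernel) ?_
    refine jn 570 (by decide +kernel) ?_
    refine jn 586 (by decide +kernel) ?_
    refine jn 596 (by decide +kernel) ?_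
    refine jn 608 (by decide +kernel) ?_
    refine jn 620 (by decide +kernel) ?_
    refine jn 632 (by decide +kernel) ?_
    refine jn 640 (by decide +kernel) ?_
    refine jn 652 (by decide +kernel) ?_
    refine jn 665 (by decide +kernel) ?_
    refine jn 684 (by decide +kernel) ?_
    refine jn 696 (by decide +kernel) ?_
    refine jn 709 (by decide +kernel) ?_
    refine jn 721 (by decide +kernel) ?_
    refine jn 739 (by decide +kernel) ?_
    refine jn 808 (by decide +kernel) ?_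
    refine jn 825 (by decide +kernel) ?_
    refine jn 840 (by decide +kernel) ?_
    refine jn 846 (by decide +kernel) ?_
    refine jn 853 (by decide +kernel) ?_
    refine jn 865 (by decide +kernel) ?_
    refine jn 889 (by decide +kernel) ?_
    refine jn 905 (by decide +kernel) ?_
    refine jn 930 (by decide +kernel) ?_
    refine jn 961 (by decide +kernel) ?_
    refine jn 973 (by decide +kernel) ?_
    refine jn 984 (by decide +kernel) ?_
    refine jn 990 (by decide +kernel) ?_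
    refine jn 1000 (by decide +kernel) ?_
    refine jn 1010 (by decide +kernel) ?_
    refine jn 1026 (by decide +kernel) ?_
    refine jn 1033 (by decide +kernel) ?_
    refine jn 1045 (by decide +kernel) ?_
    refine jn 1054 (by decide +kernel) ?_
    refine jn 1126 (by decide +kernel) ?_
    refine jn 1131 (by decide +kernel) ?_
    refine jn 1138 (by decide +kernel) ?_
    refine jn 1162 (by decide +kernel) ?_
    refine jn 1175 (by decide +kernel) ?_
    refine jn 1186 (by decide +kernel) ?_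
    refine jn 1197 (by decide +kernel) ?_
    refine jn 1207 (by decide +kernel) ?_
    refine jn 1233 (by decide +kernel) ?_
    refine jn 1250 (by decide +kernel) ?_
    refine jn 1271 (by decide +kernel) ?_
    refine jn 1291 (by decide +kernel) ?_
    refine jn 1307 (by decide +kernel) ?_
    refine jn 1329 (by decide +kernel) ?_
    refine jn 1591 (by decide +kernel) ?_
    refine jn 1850 (by decide +kernel) ?_
    refine jn 2109 (by decide +kernel) ?_
    refine jn 2552 (by decide +kernel) ?_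
    exact je (by decide +kernel)

end Pool.Agent.MP_2339ce_nt.NR
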