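import Pool.Agent.MP_2339ce_nt.Q2.NC.C6
import Pool.Agent.MP_2339ce_nt.Q2.NC.C9
import Pool.Agent.MP_2339ce_nt.Q2.NC.C11
import Pool.Agent.MP_2339ce_nt.Q2.NC.C12
import Pool.Agent.MP_2339ce_nt.Q2.NC.C14
import Pool.Agent.MP_2339ce_nt.Q2.NC.C15
import Pool.Agent.MP_2339ce_nt.Q2.NC.C22
import Pool.Agent.MP_2339ce_nt.Q2.NC.C26
import Pool.Agent.MP_2339ce_nt.Q2.NC.C32
import Pool.Agent.MP_2339ce_nt.Q2.NC.C33
import Pool.Agent.MP_2339ce_nt.Q2.NC.C34
import Pool.Agent.MP_2339ce_nt.Q2.NC.C39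
import Pool.Agent.MP_2339ce_nt.Q2.NC.C40
import Pool.Agent.MP_2339ce_nt.Q2.NC.C41
import Pool.Agent.MP_2339ce_nt.Q2.NC.C42
import Pool.Agent.MP_2339ce_nt.Q2.NC.C46
import Pool.Agent.MP_2339ce_nt.Q2.NC.C51
import Pool.Agent.MP_2339ce_nt.Q2.NC.C52
import Pool.Agent.MP_2339ce_nt.Q2.NC.C53
import Pool.Agent.MP_2339ce_nt.Q2.NC.C60
import Pool.Agent.MP_2339ce_nt.Q2.NC.C61
import Pool.Agent.MP_2339ce_nt.Q2.NC.C62
import Pool.Agent.MP_2339ce_nt.Q2.NC.C64
import Pool.Agent.MP_2339ce_nt.Q2.NC.C70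
import Pool.Agent.MP_2339ce_nt.Q2.NC.C71
import Pool.Agent.MP_2339ce_nt.Q2.NC.C72
import Pool.Agent.MP_2339ce_nt.Q2.NC.C73
import Pool.Agent.MP_2339ce_nt.Q2.NC.C75
import Pool.Agent.MP_2339ce_nt.Q2.NC.C76
import Pool.Agent.MP_2339ce_nt.Q2.NC.C77
import Pool.Agent.MP_2339ce_nt.Q2.NC.C78
import Pool.Agent.MP_2339ce_nt.Q2.NC.C79
import Pool.Agent.MP_2339ce_nt.Q2.NC.C80
import Pool.Agent.MP_2339ce_nt.Q2.NC.C81
import Pool.Agent.MP_2339ce_nt.Q2.NC.C84
import Pool.Agent.MP_2339ce_nt.Q2.NC.C85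
import Pool.Agent.MP_2339ce_nt.Q2.NC.C87
import Pool.Agent.MP_2339ce_nt.Q2.NC.C89
import Pool.Agent.MP_2339ce_nt.Q2.NC.C95
import Pool.Agent.MP_2339ce_nt.Q2.NC.C96
import Pool.Agent.MP_2339ce_nt.Q2.NC.C98
import Pool.Agent.MP_2339ce_nt.Q2.NC.C100
import Pool.Agent.MP_2339ce_nt.Q2.NC.C102
import Pool.Agent.MP_2339ce_nt.Q2.NC.C103
import Pool.Agent.MP_2339ce_nt.Q2.NC.C104
import Pool.Agent.MP_2339ce_nt.Q2.NC.C106
import Pool.Agent.MP_2339ce_nt.Q2.NC.C107
import Pool.Agent.MP_2339ce_nt.Q2.NC.C108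
import Pool.Agent.MP_2339ce_nt.Q2.NC.C109
import Pool.Agent.MP_2339ce_nt.Q2.NC.C110
import Pool.Agent.MP_2339ce_nt.Q2.NC.C111
import Pool.Agent.MP_2339ce_nt.Q2.NC.C114
import Pool.Agent.MP_2339ce_nt.Q2.NC.C115
import Pool.Agent.MP_2339ce_nt.Q2.NC.C116
import Pool.Agent.MP_2339ce_nt.Q2.NC.C117
import Pool.Agent.MP_2339ce_nt.Q2.NC.C118
import Pool.Agent.MP_2339ce_nt.Q2.NC.C119
import Pool.Agent.MP_2339ce_nt.Q2.NC.C120
import Pool.Agent.MP_2339ce_nt.Q2.NC.C121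
import Pool.Agent.MP_2339ce_nt.Q2.NC.C122
import Pool.Agent.MP_2339ce_nt.Q2.NC.C124
import Pool.Agent.MP_2339ce_nt.Q2.NC.C126
import Pool.Agent.MP_2339ce_nt.Q2.NC.C130
import Pool.Agent.MP_2339ce_nt.Q2.NC.C134
import Pool.Agent.MP_2339ce_nt.Q2.NC.C135
import Pool.Agent.MP_2339ce_nt.Q2.NC.C137

/-! Block NR: the runs for `129 ≤ N ≤ 181`. -/

set_option autoImplicit false
set_option maxRecDepth 100000

noncomputable section

namespace Pool.Agent.MP_2339ce_nt.NR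

open Q2.Top

theorem q129 : OkQ ckI L8 129 1 1099511627776 0 34359738368 1 1099511627776 :=
  qa 39 c62.1 (c71.1)

theorem q131 : OkQ ckI L8 131 1 1099511627776 0 34359738368 1 1099511627776 :=
  c89.2.1

theorem q132 : OkQ ckI L8 132 1 1099511627776 0 34359738368 1 1099511627776 :=
  c6.2

theorem q133 : OkQ ckI L8 133 1 1099511627776 0 34359738368 1 1099511627776 :=
  c108.2.2

theorem q135 : OkQ ckI L8 135 1 1099511627776 0 34359738368 1 1099511627776 :=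
  qa 12 c32.1 (qa 81 c33.2.1 (c14.2))

theorem q136 : OkQ ckI L8 136 1 1099511627776 0 34359738368 1 1099511627776 :=
  qa 29 c80.2.1 (c102.1)

theorem q137 : OkQ ckI L8 137 1 1099511627776 0 34359738368 1 1099511627776 :=
  c11.1

theorem q139 : OkQ ckI L8 139 1 1099511627776 0 34359738368 1 1099511627776 :=
  c100.2.2

theorem q140 : OkQ ckI L8 140 1 1099511627776 0 34359738368 1 1099511627776 :=
  qa 11 c98.2.1 (qa 91 c115.1 (c108.2.1))

theorem q141 : OkQ ckI L8 141 1 1099511627776 0 34359738368 1 1099511627776 :=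
  c80.1

theorem q143 : OkQ ckI L8 143 1 1099511627776 0 34359738368 1 1099511627776 :=
  qa 8 c51.2.1 (qa 24 c87.1 (qa 246 c64.2 (c42.2)))

theorem q144 : OkQ ckI L8 144 1 1099511627776 0 34359738368 1 1099511627776 :=
  qa 13 c61.1 (qa 104 c73.1 (c79.2.1))

theorem q145 : OkQ ckI L8 145 1 1099511627776 0 34359738368 1 1099511627776 :=
  qa 22 c119.2.2 (c117.2.2)

theorem q147 : OkQ ckI L8 147 1 1099511627776 0 34359738368 1 1099511627776 :=
  c102.2.2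

theorem q148 : OkQ ckI L8 148 1 1099511627776 0 34359738368 1 1099511627776 :=
  c103.2.2

theorem q149 : OkQ ckI L8 149 1 1099511627776 0 34359738368 1 1099511627776 :=
  qa 32 c102.2.1 (c124.1)

theorem q151 : OkQ ckI L8 151 1 1099511627776 0 34359738368 1 1099511627776 :=
  qa 9 c84.2.1 (qa 223 c121.2.1 (c124.2.2))

theorem q152 : OkQ ckI L8 152 1 1099511627776 0 34359738368 1 1099511627776 :=
  qa 10 c75.1 (qa 161 c106.1 (c120.1))

theorem q153 : OkQ ckI L8 153 1 1099511627776 0 34359738368 1 1099511627776 :=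
  qa 34 c109.2.1 (c107.2.1)

theorem q155 : OkQ ckI L8 155 1 1099511627776 0 34359738368 1 1099511627776 :=
  c130.1

theorem q156 : OkQ ckI L8 156 1 1099511627776 0 34359738368 1 1099511627776 :=
  qa 12 c52.1 (qa 165 c70.1 (c76.2.1))

theorem q157 : OkQ ckI L8 157 1 1099511627776 0 34359738368 1 1099511627776 :=
  c118.2.1

theorem q159 : OkQ ckI L8 159 1 1099511627776 0 34359738368 1 1099511627776 :=
  qa 8 c85.2.1 (qa 35 c87.2 (qa 512 c39.2 (c134.2.2)))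

theorem q160 : OkQ ckI L8 160 1 1099511627776 0 34359738368 1 1099511627776 :=
  qa 13 c104.2.1 (qa 115 c114.2.1 (c111.2.1))

theorem q161 : OkQ ckI L8 161 1 1099511627776 0 34359738368 1 1099511627776 :=
  qa 33 c15.2 (c12.2)

theorem q163 : OkQ ckI L8 163 1 1099511627776 0 34359738368 1 1099511627776 :=
  c46.2.2

theorem q164 : OkQ ckI L8 164 1 1099511627776 0 34359738368 1 1099511627776 :=
  qa 44 c81.1 (c104.1)

theorem q165 : OkQ ckI L8 165 1 1099511627776 0 34359738368 1 1099511627776 :=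
  c26.1

theorem q167 : OkQ ckI L8 167 1 1099511627776 0 34359738368 1 1099511627776 :=
  qa 8 c41.1 (qa 33 c72.2.1 (qa 257 c130.2.1 (c40.2)))

theorem q168 : OkQ ckI L8 168 1 1099511627776 0 34359738368 1 1099511627776 :=
  qa 23 c96.1 (c95.2.1)

theorem q169 : OkQ ckI L8 169 1 1099511627776 0 34359738368 1 1099511627776 :=
  c22.2

theorem q171 : OkQ ckI L8 171 1 1099511627776 0 34359738368 1 1099511627776 :=
  c77.1

theorem q172 : OkQ ckI L8 172 1 1099511627776 0 34359738368 1 1099511627776 :=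
  c9.2

theorem q173 : OkQ ckI L8 173 1 1099511627776 0 34359738368 1 1099511627776 :=
  qa 59 c137.1 (c137.2.2)

theorem q175 : OkQ ckI L8 175 1 1099511627776 0 34359738368 1 1099511627776 :=
  qa 9 c78.2 (qa 116 c108.1 (c116.1))

theorem q176 : OkQ ckI L8 176 1 1099511627776 0 34359738368 1 1099511627776 :=
  qa 6 c60.1 (qa 25 c34.2.1 (qa 257 c103.2.1 (c53.2)))

theorem q177 : OkQ ckI L8 177 1 1099511627776 0 34359738368 1 1099511627776 :=
  c110.1

theorem q179 : OkQ ckI L8 179 1 1099511627776 0 34359738368 1 1099511627776 :=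
  c122.1

theorem q180 : OkQ ckI L8 180 1 1099511627776 0 34359738368 1 1099511627776 :=
  qa 28 c135.2.1 (c126.2.2)

theorem q181 : OkQ ckI L8 181 1 1099511627776 0 34359738368 1 1099511627776 :=
  c12.1

end Pool.Agent.MP_2339ce_nt.NR
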