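import Pool.Agent.MP_2339ce_nt.Q2.NC.L6
import Pool.Agent.MP_2339ce_nt.Q2.NC.L9
import Pool.Agent.MP_2339ce_nt.Q2.CkI

/-! Block NR: runs. -/

set_option autoImplicit false
set_option maxRecDepth 100000

noncomputable section

namespace Pool.Agent.MP_2339ce_nt.NR

open Q2.Top

def T133_0 : Ph :=
  (.na 456 180 (.na 268 135 (.na 140 103 (.na 78 90 (.na 38 86 (.na 11 81 (.nx 10 1321124 (.nr 9
  524289 (.nr 1 80 .s1 (.nx 7 82572 (.nx 5 8193 (.nx 3 71 (.nr 2 485 (.l1 (.ls 31 23 66)) (.l1
  .sk)) (.nx 4 72 (.l1 .sk) (.lg 0 false 1 97 97 23 0 51120))) (.nr 6 8193 (.lg 0 true 1 83 83 23 0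
  51120) .out)) (.nr 8 513 (.lg 0 true 1 79 79 23 0 51120) .out))) .out) .out) (.na 24 83 (.nx 23
  1321124 (.nr 22 524289 (.nr 12 81 .s1 (.nx 14 71 (.nr 13 497 (.l1 (.ls 17 17 65)) (.l1 .sk)) (.nx
  15 72 (.l1 .sk) (.nx 17 8193 (.lg 0 false 2 79 79 17 0 10224) (.nr 21 8193 (.nr 19 513 (.lg 0
  true 2 61 61 17 0 10224) (.nx 20 82572 (.lg 2 true 1 53 53 16 5715 5112) .out)) .out))))) .out)
  .out) (.nx 37 1321124 (.nr 36 524289 (.nr 25 83 .s1 (.nx 27 71 (.nr 26 515 (.l1 (.ls 16 16 63))
  (.l1 .sk)) (.nx 28 72 (.l1 .sk) (.nx 31 8193 (.lg 0 false 3 73 73 16 0 5112) (.nr 35 8193 (.nr 33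
  515 (.lg 0 true 2 59 59 16 0 10224) (.nx 34 82572 (.lg 2 true 1 47 47 16 5692 5112) .out))
  .out))))) .out) .out))) (.na 52 87 (.nx 51 1321124 (.nr 50 524289 (.nr 39 86 .s1 (.nx 41 71 (.nr
  40 521 (.l1 (.ls 16 19 61)) (.l1 .sk)) (.nx 42 72 (.l1 .sk) (.nx 45 8193 (.lg 0 false 3 79 79 19
  0 10224) (.nr 49 8193 (.nr 47 521 (.lg 0 true 2 61 61 19 0 10224) (.nx 48 82572 (.lg 2 true 1 53
  53 13 5627 51120) .out)) .out))))) .out) .out) (.na 65 89 (.nx 64 1321124 (.nr 63 524289 (.nr 53
  87 .s1 (.nx 58 8193 (.nx 55 71 (.nr 54 533 (.l1 (.ls 19 17 60)) (.l1 .sk)) (.nx 56 72 (.l1 .sk)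
  (.lg 0 false 2 89 89 19 0 10224))) (.nr 62 8193 (.nr 60 513 (.lg 0 true 2 67 73 19 0 10224) (.nx
  61 82572 (.lg 2 false 1 59 59 17 5715 5112) .out)) .out))) .out) .out) (.nx 77 1321124 (.nr 76
  524289 (.nr 66 89 .s1 (.nx 71 8193 (.nx 68 71 (.nr 67 539 (.l1 (.ls 16 16 59)) (.l1 .sk)) (.nx 69
  72 (.l1 .sk) (.lg 0 false 2 73 73 16 0 10224))) (.nr 75 8193 (.nr 73 513 (.lg 0 true 2 59 59 16 0
  10224) (.nx 74 82572 (.lg 2 false 1 47 47 16 5715 51120) .out)) .out))) .out) .out)))) (.na 105
  96 (.na 91 91 (.nx 90 1321124 (.nr 89 524289 (.nr 79 90 .s1 (.nx 82 72 (.nx 81 71 (.nr 80 545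
  (.l1 (.ls 19 29 59)) (.l1 .sk)) (.l1 .sk)) (.nx 84 8193 (.lg 0 false 2 83 83 31 0 51120) (.nr 88
  8193 (.nr 86 513 (.lg 0 true 2 67 67 31 0 51120) (.nx 87 82572 (.lg 2 false 1 59 59 29 5715
  51120) .out)) .out)))) .out) .out) (.na 92 95 .ne (.nx 104 1321124 (.nr 103 524289 (.nr 93 95 .s1
  (.nx 95 71 (.nr 94 574 (.l1 (.ls 17 16 56)) (.l1 .sk)) (.nx 96 72 (.l1 .sk) (.nx 98 8193 (.lg 0
  false 2 89 89 17 0 51120) (.nr 102 8193 (.nr 100 574 (.lg 0 true 2 67 73 17 0 51120) (.nx 101
  82572 (.lg 2 true 1 59 59 17 5107 25560) .out)) .out))))) .out) .out))) (.na 116 100 (.nx 115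
  1321124 (.nr 114 524289 (.nr 106 96 .s1 (.nx 108 71 (.nr 107 598 (.l1 (.ls 29 23 55)) (.l1 .sk))
  (.nx 109 72 (.l1 .sk) (.nx 110 8193 (.lg 0 false 1 89 89 29 0 51120) (.nr 113 8193 (.nx 111 82572
  (.lg 0 true 1 79 79 29 0 51120) (.nr 112 513 (.lg 0 true 1 73 73 29 0 10224) .out)) .out)))))
  .out) .out) (.na 129 101 (.nx 128 1321124 (.nr 127 524289 (.nr 117 100 .s1 (.nx 122 8193 (.nx 119
  71 (.nr 118 604 (.l1 (.ls 19 19 53)) (.l1 .sk)) (.nx 120 72 (.l1 .sk) (.lg 0 false 2 83 83 29 0
  51120))) (.nr 126 8193 (.nr 124 513 (.lg 0 true 2 67 67 29 0 51120) (.nx 125 82572 (.lg 2 false 1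
  59 59 23 5715 51120) .out)) .out))) .out) .out) (.nx 139 1321124 (.nr 138 524289 (.nr 130 101 .s1
  (.nx 134 8193 (.nx 132 71 (.nr 131 616 (.l1 (.ls 16 16 52)) (.l1 .sk)) (.nx 133 72 (.l1 .sk) (.lg
  0 true 1 83 83 16 0 51120))) (.nr 137 8193 (.nr 135 513 (.lg 2 false 1 59 59 16 464356 5112) (.nx
  136 82572 (.lg 2 true 1 47 47 16 5715 5112) .out)) .out))) .out) .out))))) (.na 206 116 (.na 173
  109 (.na 151 107 (.nx 150 1321124 (.nr 149 524289 (.nr 141 103 .s1 (.nx 144 72 (.nx 143 71 (.nr
  142 640 (.l1 (.ls 16 16 51)) (.l1 .sk)) (.l1 .sk)) (.nx 145 8193 (.lg 0 true 1 79 79 16 0 5112)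
  (.nr 148 8193 (.nr 146 513 (.lg 2 false 1 53 53 16 455339 5112) (.nx 147 82572 (.lg 2 false 1 43
  43 16 5715 5112) .out)) .out)))) .out) .out) (.na 162 108 (.nx 161 1321124 (.nr 160 524289 (.nr
  152 107 .s1 (.nx 156 8193 (.nx 154 71 (.nr 153 646 (.l1 (.ls 16 16 50)) (.l1 .sk)) (.nx 155 72
  (.l1 .sk) (.lg 0 true 1 79 79 16 0 5112))) (.nr 159 8193 (.nr 157 513 (.lg 2 false 1 59 59 16
  438317 51120) (.nx 158 82572 (.lg 2 false 1 43 43 16 5715 5112) .out)) .out))) .out) .out) (.nx
  172 1321124 (.nr 171 524289 (.nr 163 108 .s1 (.nx 167 8193 (.nx 165 71 (.nr 164 652 (.l1 (.ls 19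
  23 49)) (.l1 .sk)) (.nx 166 72 (.l1 .sk) (.lg 0 false 1 83 83 23 0 10224))) (.nr 170 8193 (.nr
  168 513 (.lg 2 true 1 59 59 23 434259 10224) (.nx 169 82572 (.lg 2 true 1 53 53 23 5715 10224)
  .out)) .out))) .out) .out))) (.na 184 111 (.nx 183 1321124 (.nr 182 524289 (.nr 174 109 .s1 (.nx
  178 8193 (.nx 176 71 (.nr 175 664 (.l1 (.ls 16 16 49)) (.l1 .sk)) (.nx 177 72 (.l1 .sk) (.lg 0
  true 1 79 79 16 0 5112))) (.nr 181 8193 (.nr 179 513 (.lg 2 false 1 59 59 16 430275 5112) (.nx
  180 82572 (.lg 2 false 1 43 43 16 5715 5112) .out)) .out))) .out) .out) (.na 195 114 (.nx 194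
  1321124 (.nr 193 524289 (.nr 185 111 .s1 (.nx 189 8193 (.nx 187 71 (.nr 186 682 (.l1 (.ls 19 17
  48)) (.l1 .sk)) (.nx 188 72 (.l1 .sk) (.lg 0 false 1 83 83 17 0 5112))) (.nr 192 8193 (.nr 190
  513 (.lg 2 true 1 61 61 17 422522 5112) (.nx 191 82572 (.lg 2 false 1 59 59 17 5715 5112) .out))
  .out))) .out) .out) (.nx 205 1321124 (.nr 204 524289 (.nr 196 114 .s1 (.nx 200 8193 (.nx 198 71
  (.nr 197 694 (.l1 (.ls 17 29 47)) (.l1 .sk)) (.nx 199 72 (.l1 .sk) (.lg 0 true 1 89 89 31 0
  51120))) (.nr 203 8193 (.nr 201 513 (.lg 2 true 1 61 61 31 411403 10224) (.nx 202 82572 (.lg 2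
  false 1 59 59 31 5715 51120) .out)) .out))) .out) .out)))) (.na 239 128 (.na 217 120 (.nx 216
  1321124 (.nr 215 524289 (.nr 207 116 .s1 (.nx 209 71 (.nr 208 718 (.l1 (.ls 19 19 46)) (.l1 .sk))
  (.nx 210 72 (.l1 .sk) (.nx 211 8193 (.lg 0 true 1 89 89 19 0 51120) (.nr 214 8193 (.nr 212 513
  (.lg 2 true 1 61 61 19 404310 10224) (.nx 213 82572 (.lg 2 false 1 59 59 19 5715 10224) .out))
  .out))))) .out) .out) (.na 228 125 (.nx 227 1321124 (.nr 226 524289 (.nr 218 120 .s1 (.nx 224
  82572 (.nx 220 71 (.nr 219 748 (.l1 (.ls 31 29 45)) (.l1 .sk)) (.nx 221 72 (.l1 .sk) (.nx 222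
  8193 (.lg 0 false 1 89 97 37 0 51120) (.nr 223 8193 (.lg 0 true 1 79 83 37 0 51120) .out)))) (.nr
  225 513 (.lg 0 true 1 67 79 37 0 51120) .out))) .out) .out) (.nx 238 1321124 (.nr 237 524289 (.nr
  229 125 .s1 (.nx 233 8193 (.nx 231 71 (.nr 230 766 (.l1 (.ls 16 16 43)) (.l1 .sk)) (.nx 232 72
  (.l1 .sk) (.lg 0 true 1 79 79 16 0 25560))) (.nr 236 8193 (.nr 234 513 (.lg 2 false 1 53 53 16
  375200 25560) (.nx 235 82572 (.lg 2 true 1 43 43 16 5715 25560) .out)) .out))) .out) .out))) (.na
  250 129 (.nx 249 1321124 (.nr 248 1048577 (.nr 240 128 .s1 (.nx 243 8193 (.nx 241 205 (.l1 (.ls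
  73 29 331)) (.nr 242 524289 (.lg 0 false 1 79 79 19 0 10224) .out)) (.nr 247 8193 (.nr 245 1025
  (.lg 0 true 2 67 67 23 0 10224) (.nx 246 82572 (.lg 2 false 1 47 47 19 2860 51120) .out)) .out)))
  .out) .out) (.na 260 131 (.nx 259 660563 (.nr 258 1048577 (.nr 251 129 .s1 (.nx 254 6503 (.nx 252
  205 (.l1 (.ls 79 23 328)) (.nr 253 524289 (.lg 0 false 1 83 83 19 0 5112) .out)) (.nr 257 8193
  (.nr 255 1025 (.lg 0 true 1 73 73 19 0 5112) (.nx 256 82572 (.lg 2 false 1 47 47 19 3204 5112)
  .out)) .out))) .out) .out) (.nx 267 660563 (.nr 266 1048577 (.nr 261 131 .s1 (.nx 262 205 (.l1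
  (.ls 61 19 323)) (.nr 265 524289 (.nr 263 8193 (.lg 0 false 1 79 79 16 0 51120) (.nx 264 6503
  (.lg 0 true 1 73 73 16 0 5112) .out)) .out))) .out) .out)))))) (.na 358 157 (.na 311 146 (.na 280
  142 (.na 278 137 (.nx 277 660563 (.nr 276 1048577 (.nr 269 135 .s1 (.nx 272 6503 (.nx 270 205
  (.l1 (.ls 73 29 314)) (.nr 271 524289 (.lg 0 false 1 79 79 19 0 25560) .out)) (.nr 275 8193 (.nr
  273 1025 (.lg 0 true 1 61 61 19 0 25560) (.nx 274 82572 (.lg 2 false 1 47 47 19 3204 51120)
  .out)) .out))) .out) .out) (.na 279 139 (.lg 0 false 1 0 0 16 0 24) (.lg 0 false 1 0 0 16 0 24)))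
  (.na 291 144 (.nx 290 660563 (.nr 289 1048577 (.nr 281 142 .s1 (.nx 282 205 (.l1 (.ls 59 29 298))
  (.nr 288 524289 (.nr 285 8193 (.lg 0 false 3 61 61 19 0 10224) (.nx 287 6503 (.lg 0 true 2 61 61
  19 0 10224) .out)) .out))) .out) .out) (.na 301 145 (.nx 300 660563 (.nr 299 1048577 (.nr 292 144
  .s1 (.nx 295 6503 (.nx 293 205 (.l1 (.ls 79 31 294)) (.nr 294 524289 (.lg 0 false 1 83 83 31 0
  51120) .out)) (.nr 298 8193 (.nr 296 1025 (.lg 0 true 1 67 73 31 0 10224) (.nx 297 82572 (.lg 2
  false 1 53 59 31 3204 357840) .out)) .out))) .out) .out) (.nx 310 660563 (.nr 309 1048577 (.nr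
  302 145 .s1 (.nx 305 6503 (.nx 303 205 (.l1 (.ls 73 19 292)) (.nr 304 524289 (.lg 0 false 1 79 79
  17 0 25560) .out)) (.nr 308 8193 (.nr 306 1025 (.lg 0 true 1 67 67 17 0 25560) (.nx 307 82572
  (.lg 2 false 1 47 47 17 3204 51120) .out)) .out))) .out) .out)))) (.na 330 150 (.na 319 148 (.nx
  318 660563 (.nr 317 1048577 (.nr 312 146 .s1 (.nx 313 205 (.l1 (.ls 67 29 290)) (.nr 316 524289
  (.nr 314 8193 (.lg 0 false 1 83 83 19 0 10224) (.nx 315 6503 (.lg 0 true 1 83 83 19 0 51120)
  .out)) .out))) .out) .out) (.na 329 149 (.nx 328 660563 (.nr 327 1048577 (.nr 320 148 .s1 (.nx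
  321 205 (.l1 (.ls 79 29 286)) (.nr 326 524289 (.nx 322 6503 (.lg 0 false 1 83 83 23 0 10224) (.nr
  325 8193 (.nr 323 1025 (.lg 0 true 1 73 73 23 0 10224) (.nx 324 82572 (.lg 2 false 1 47 47 23
  3204 10224) .out)) .out)) .out))) .out) .out) (.lg 0 false 1 0 0 16 0 24))) (.na 340 151 (.nx 339
  660563 (.nr 338 1048577 (.nr 331 150 .s1 (.nx 334 6503 (.nx 332 205 (.l1 (.ls 73 37 283)) (.nr
  333 524289 (.lg 0 false 1 79 79 31 0 51120) .out)) (.nr 337 8193 (.nr 335 1025 (.lg 0 true 1 67
  67 31 0 51120) (.nx 336 82572 (.lg 2 false 1 47 47 31 3204 51120) .out)) .out))) .out) .out) (.na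
  348 152 (.nx 347 660563 (.nr 346 1048577 (.nr 341 151 .s1 (.nx 342 205 (.l1 (.ls 79 17 281)) (.nr
  345 524289 (.nr 343 8193 (.lg 0 false 1 79 79 16 0 5112) (.nx 344 6503 (.lg 0 true 1 73 73 16 0
  5112) .out)) .out))) .out) .out) (.nx 357 660563 (.nr 356 1048577 (.nr 349 152 .s1 (.nx 352 6503
  (.nx 350 205 (.l1 (.ls 83 31 279)) (.nr 351 524289 (.lg 0 false 1 89 89 29 0 51120) .out)) (.nr
  355 8193 (.nr 353 1025 (.lg 0 true 1 67 73 29 0 10224) (.nx 354 82572 (.lg 2 false 1 53 59 29
  3204 51120) .out)) .out))) .out) .out))))) (.na 401 167 (.na 384 162 (.na 366 158 (.nx 365 660563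
  (.nr 364 1048577 (.nr 359 157 .s1 (.nx 360 205 (.l1 (.ls 79 17 270)) (.nr 363 524289 (.nr 361
  8193 (.lg 0 false 1 79 79 16 0 51120) (.nx 362 6503 (.lg 0 true 1 73 73 16 0 5112) .out)) .out)))
  .out) .out) (.na 374 160 (.nx 373 660563 (.nr 372 1048577 (.nr 367 158 .s1 (.nx 368 205 (.l1 (.ls
  67 29 268)) (.nr 371 524289 (.nr 369 8193 (.lg 0 false 1 83 83 19 0 51120) (.nx 370 6503 (.lg 0
  true 1 79 79 19 0 10224) .out)) .out))) .out) .out) (.nx 383 660563 (.nr 382 1048577 (.nr 375 160
  .s1 (.nx 378 6503 (.nx 376 205 (.l1 (.ls 79 29 265)) (.nr 377 524289 (.lg 0 false 1 83 83 29 0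
  51120) .out)) (.nr 381 8193 (.nr 379 1025 (.lg 0 true 1 67 73 29 0 51120) (.nx 380 82572 (.lg 2
  false 1 47 53 29 3204 51120) .out)) .out))) .out) .out))) (.na 392 163 (.nx 391 660563 (.nr 390
  1048577 (.nr 385 162 .s1 (.nx 386 205 (.l1 (.ls 67 31 262)) (.nr 389 524289 (.nr 387 8193 (.lg 0
  false 1 79 79 23 0 51120) (.nx 388 6503 (.lg 0 true 1 73 73 23 0 10224) .out)) .out))) .out)
  .out) (.na 393 166 (.lg 0 false 1 0 0 16 0 24) (.nx 400 660563 (.nr 399 1048577 (.nr 394 166 .s1
  (.nx 395 205 (.l1 (.ls 61 29 256)) (.nr 398 524289 (.nr 396 8193 (.lg 0 false 1 83 83 19 0 51120)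
  (.nx 397 6503 (.lg 0 true 1 73 73 19 0 51120) .out)) .out))) .out) .out)))) (.na 429 173 (.na 409
  171 (.nx 408 660563 (.nr 407 1048577 (.nr 402 167 .s1 (.nx 403 205 (.l1 (.ls 61 17 254)) (.nr 406
  524289 (.nr 404 8193 (.lg 0 false 1 73 73 16 0 5112) (.nx 405 6503 (.lg 0 true 1 73 73 16 0
  51120) .out)) .out))) .out) .out) (.na 419 172 (.nx 418 660563 (.nr 417 1048577 (.nr 410 171 .s1
  (.nx 413 6503 (.nx 411 205 (.l1 (.ls 79 29 248)) (.nr 412 524289 (.lg 0 false 1 79 79 17 0 5112)
  .out)) (.nr 416 8193 (.nr 414 1025 (.lg 0 true 1 61 61 17 0 5112) (.nx 415 82572 (.lg 2 false 1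
  47 47 17 3204 5112) .out)) .out))) .out) .out) (.nx 428 660563 (.nr 427 1048577 (.nr 420 172 .s1
  (.nx 421 205 (.l1 (.ls 79 29 247)) (.nr 426 524289 (.nx 422 6503 (.lg 0 false 1 79 79 23 0 10224)
  (.nr 425 8193 (.nr 423 1025 (.lg 0 true 1 67 67 23 0 10224) (.nx 424 82572 (.lg 2 false 1 47 47
  23 3204 10224) .out)) .out)) .out))) .out) .out))) (.na 440 178 (.na 430 174 (.lg 0 false 1 0 0
  16 0 24) (.nx 439 660563 (.nr 438 1048577 (.nr 431 174 .s1 (.nx 434 6503 (.nx 432 205 (.l1 (.ls
  73 37 244)) (.nr 433 524289 (.lg 0 false 1 79 79 23 0 10224) .out)) (.nr 437 8193 (.nr 435 1025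
  (.lg 0 true 1 61 61 23 0 10224) (.nx 436 82572 (.lg 2 false 1 47 47 23 3204 51120) .out)) .out)))
  .out) .out)) (.na 448 179 (.nx 447 660563 (.nr 446 1048577 (.nr 441 178 .s1 (.nx 442 205 (.l1
  (.ls 61 29 239)) (.nr 445 524289 (.nr 443 8193 (.lg 0 false 1 79 79 19 0 51120) (.nx 444 6503
  (.lg 0 true 1 73 73 19 0 51120) .out)) .out))) .out) .out) (.nx 455 660563 (.nr 454 1048577 (.nr
  449 179 .s1 (.nx 450 205 (.l1 (.ls 79 17 237)) (.nr 453 524289 (.nr 451 8193 (.lg 0 false 1 79 79
  16 0 51120) (.nx 452 6503 (.lg 0 true 1 73 73 16 0 5112) .out)) .out))) .out) .out))))))) (.na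
  615 229 (.na 533 211 (.na 499 193 (.na 475 190 (.na 464 181 (.nx 463 660563 (.nr 462 1048577 (.nr
  457 180 .s1 (.nx 460 6503 (.nx 458 205 (.l1 (.ls 79 37 236)) (.nr 459 524289 (.lg 0 false 1 83 83
  37 0 51120) .out)) (.nr 461 8193 (.lg 0 true 1 83 83 37 0 51120) .out))) .out) .out) (.na 465 185
  (.lg 0 false 1 0 0 16 0 24) (.nx 474 660563 (.nr 473 1048577 (.nr 466 185 .s1 (.nx 469 6503 (.nx
  467 205 (.l1 (.ls 79 19 230)) (.nr 468 524289 (.lg 0 false 1 79 79 19 0 25560) .out)) (.nr 472
  8193 (.nr 470 1025 (.lg 0 true 1 61 61 19 0 25560) (.nx 471 82572 (.lg 2 false 1 47 47 19 3204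
  25560) .out)) .out))) .out) .out))) (.na 483 191 (.nx 482 660563 (.nr 481 1048577 (.nr 476 190
  .s1 (.nx 477 205 (.l1 (.ls 79 31 224)) (.nr 480 524289 (.nr 478 8193 (.lg 0 true 1 83 83 31 0
  51120) (.nx 479 6503 (.lg 0 false 1 79 79 31 0 51120) .out)) .out))) .out) .out) (.na 491 192
  (.nx 490 660563 (.nr 489 1048577 (.nr 484 191 .s1 (.nx 485 205 (.l1 (.ls 61 17 223)) (.nr 488
  524289 (.nr 486 8193 (.lg 0 false 1 73 73 16 0 5112) (.nx 487 6503 (.lg 0 true 1 73 73 16 0
  51120) .out)) .out))) .out) .out) (.nx 498 660563 (.nr 497 1048577 (.nr 492 192 .s1 (.nx 493 205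
  (.l1 (.ls 79 31 221)) (.nr 496 524289 (.nr 494 8193 (.lg 0 true 1 83 83 31 0 10224) (.nx 495 6503
  (.lg 0 false 1 83 83 31 0 10224) .out)) .out))) .out) .out)))) (.na 509 200 (.na 500 197 (.lg 0
  false 1 0 0 16 0 24) (.na 501 199 (.lg 0 false 1 0 0 16 0 24) (.nx 508 660563 (.nr 507 1048577
  (.nr 502 199 .s1 (.nx 503 205 (.l1 (.ls 67 17 214)) (.nr 506 524289 (.nr 504 8193 (.lg 0 false 1
  73 73 16 0 5112) (.nx 505 6503 (.lg 0 true 1 73 73 16 0 51120) .out)) .out))) .out) .out))) (.na
  517 202 (.nx 516 660563 (.nr 515 1048577 (.nr 510 200 .s1 (.nx 511 205 (.l1 (.ls 79 29 213)) (.nr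
  514 524289 (.nr 512 8193 (.lg 0 true 1 83 83 31 0 51120) (.nx 513 6503 (.lg 0 false 1 83 83 31 0
  51120) .out)) .out))) .out) .out) (.na 525 206 (.nx 524 660563 (.nr 523 1048577 (.nr 518 202 .s1
  (.nx 519 205 (.l1 (.ls 61 23 211)) (.nr 522 524289 (.nr 520 8193 (.lg 0 false 1 73 73 23 0 10224)
  (.nx 521 6503 (.lg 0 true 1 73 73 23 0 51120) .out)) .out))) .out) .out) (.nx 532 660563 (.nr 531
  1048577 (.nr 526 206 .s1 (.nx 527 205 (.l1 (.ls 67 23 207)) (.nr 530 524289 (.nr 528 8193 (.lg 0
  false 1 73 73 23 0 10224) (.nx 529 6503 (.lg 0 true 1 73 73 23 0 51120) .out)) .out))) .out)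
  .out))))) (.na 574 219 (.na 550 215 (.na 534 213 (.lg 0 false 1 0 0 16 0 24) (.na 542 214 (.nx
  541 660563 (.nr 540 1048577 (.nr 535 213 .s1 (.nx 536 205 (.l1 (.ls 67 19 200)) (.nr 539 524289
  (.nr 537 8193 (.lg 0 false 1 73 73 19 0 51120) (.nx 538 6503 (.lg 0 true 1 73 73 19 0 51120)
  .out)) .out))) .out) .out) (.nx 549 660563 (.nr 548 1048577 (.nr 543 214 .s1 (.nx 544 205 (.l1
  (.ls 67 23 199)) (.nr 547 524289 (.nr 545 8193 (.lg 0 false 1 73 73 23 0 10224) (.nx 546 6503
  (.lg 0 true 1 73 73 23 0 51120) .out)) .out))) .out) .out))) (.na 558 216 (.nx 557 660563 (.nr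
  556 1048577 (.nr 551 215 .s1 (.nx 552 205 (.l1 (.ls 73 19 198)) (.nr 555 524289 (.nr 553 8193
  (.lg 0 true 1 79 79 19 0 25560) (.nx 554 6503 (.lg 0 false 1 79 79 19 0 25560) .out)) .out)))
  .out) .out) (.na 566 218 (.nx 565 660563 (.nr 564 1048577 (.nr 559 216 .s1 (.nx 560 205 (.l1 (.ls
  73 31 197)) (.nr 563 524289 (.nr 561 8193 (.lg 0 true 1 83 83 31 0 51120) (.nx 562 6503 (.lg 0
  false 1 79 83 31 0 51120) .out)) .out))) .out) .out) (.nx 573 660563 (.nr 572 1048577 (.nr 567
  218 .s1 (.nx 568 205 (.l1 (.ls 61 23 195)) (.nr 571 524289 (.nr 569 8193 (.lg 0 false 1 73 73 23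
  0 51120) (.nx 570 6503 (.lg 0 true 1 73 73 23 0 51120) .out)) .out))) .out) .out)))) (.na 598 225
  (.na 582 222 (.nx 581 660563 (.nr 580 1048577 (.nr 575 219 .s1 (.nx 576 205 (.l1 (.ls 61 19 194))
  (.nr 579 524289 (.nr 577 8193 (.lg 0 true 1 73 73 19 0 5112) (.nx 578 6503 (.lg 0 false 1 67 67
  19 0 5112) .out)) .out))) .out) .out) (.na 590 223 (.nx 589 660563 (.nr 588 1048577 (.nr 583 222
  .s1 (.nx 584 205 (.l1 (.ls 73 31 192)) (.nr 587 524289 (.nr 585 8193 (.lg 0 true 1 79 79 31 0
  10224) (.nx 586 6503 (.lg 0 false 1 73 73 31 0 10224) .out)) .out))) .out) .out) (.nx 597 660563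
  (.nr 596 1048577 (.nr 591 223 .s1 (.nx 592 205 (.l1 (.ls 61 17 191)) (.nr 595 524289 (.nr 593
  8193 (.lg 0 false 1 73 73 16 0 51120) (.nx 594 6503 (.lg 0 true 1 73 73 16 0 51120) .out))
  .out))) .out) .out))) (.na 606 227 (.nx 605 660563 (.nr 604 1048577 (.nr 599 225 .s1 (.nx 600 205
  (.l1 (.ls 67 23 189)) (.nr 603 524289 (.nr 601 8193 (.lg 0 true 1 73 73 23 0 25560) (.nx 602 6503
  (.lg 0 false 1 73 73 23 0 25560) .out)) .out))) .out) .out) (.na 607 228 (.lg 0 false 1 0 0 16 0
  24) (.nx 614 660563 (.nr 613 1048577 (.nr 608 228 .s1 (.nx 609 205 (.l1 (.ls 83 37 187)) (.nr 612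
  524289 (.nr 610 8193 (.lg 0 true 1 89 89 37 0 10224) (.nx 611 6503 (.lg 0 false 1 83 83 37 0
  10224) .out)) .out))) .out) .out)))))) (.na 697 257 (.na 656 241 (.na 639 237 (.na 623 232 (.nx
  622 660563 (.nr 621 1048577 (.nr 616 229 .s1 (.nx 617 205 (.l1 (.ls 59 17 186)) (.nr 620 524289
  (.nr 618 8193 (.lg 0 false 1 73 73 17 0 51120) (.nx 619 6503 (.lg 0 true 1 61 61 17 0 5112)
  .out)) .out))) .out) .out) (.na 631 233 (.nx 630 660563 (.nr 629 1048577 (.nr 624 232 .s1 (.nx
  625 205 (.l1 (.ls 79 23 184)) (.nr 628 524289 (.nr 626 8193 (.lg 0 true 1 83 83 23 0 10224) (.nx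
  627 6503 (.lg 0 false 1 83 83 23 0 10224) .out)) .out))) .out) .out) (.nx 638 660563 (.nr 637
  1048577 (.nr 632 233 .s1 (.nx 633 205 (.l1 (.ls 59 17 183)) (.nr 636 524289 (.nr 634 8193 (.lg 0
  false 1 73 73 17 0 51120) (.nx 635 6503 (.lg 0 true 1 61 61 17 0 5112) .out)) .out))) .out)
  .out))) (.na 647 239 (.nx 646 660563 (.nr 645 1048577 (.nr 640 237 .s1 (.nx 641 205 (.l1 (.ls 67
  19 180)) (.nr 644 524289 (.nr 642 8193 (.lg 0 true 1 73 73 19 0 5112) (.nx 643 6503 (.lg 0 false
  1 73 73 19 0 5112) .out)) .out))) .out) .out) (.na 648 240 (.lg 0 false 1 0 0 16 0 24) (.nx 655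
  660563 (.nr 654 1048577 (.nr 649 240 .s1 (.nx 652 6503 (.nx 650 205 (.l1 (.ls 83 31 178)) (.nr
  651 524289 (.lg 0 false 1 79 83 41 0 51120) .out)) (.nr 653 8193 (.lg 0 true 1 83 89 41 0 51120)
  .out))) .out) .out)))) (.na 673 250 (.na 657 243 (.lg 0 false 1 0 0 16 0 24) (.na 665 249 (.nx
  664 660563 (.nr 663 1048577 (.nr 658 243 .s1 (.nx 659 205 (.l1 (.ls 59 19 175)) (.nr 662 524289
  (.nr 660 8193 (.lg 0 false 1 73 73 19 0 51120) (.nx 661 6503 (.lg 0 true 1 61 61 19 0 5112)
  .out)) .out))) .out) .out) (.nx 672 660563 (.nr 671 1048577 (.nr 666 249 .s1 (.nx 667 205 (.l1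
  (.ls 79 19 171)) (.nr 670 524289 (.nr 668 8193 (.lg 0 true 1 73 73 23 0 5112) (.nx 669 6503 (.lg
  0 false 1 67 67 23 0 5112) .out)) .out))) .out) .out))) (.na 681 251 (.nx 680 660563 (.nr 679
  1048577 (.nr 674 250 .s1 (.nx 675 205 (.l1 (.ls 61 29 171)) (.nr 678 524289 (.nr 676 8193 (.lg 0
  false 1 73 73 29 0 51120) (.nx 677 6503 (.lg 0 true 1 73 73 29 0 51120) .out)) .out))) .out)
  .out) (.na 689 256 (.nx 688 660563 (.nr 687 1048577 (.nr 682 251 .s1 (.nx 683 205 (.l1 (.ls 61 17
  170)) (.nr 686 524289 (.nr 684 8193 (.lg 0 false 1 73 73 17 0 51120) (.nx 685 6503 (.lg 0 true 1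
  61 61 17 0 5112) .out)) .out))) .out) .out) (.nx 696 660563 (.nr 695 1048577 (.nr 690 256 .s1
  (.nx 691 1292 (.l1 (.ls 73 43 6523)) (.nr 694 262145 (.nr 692 16385 (.lg 0 true 1 79 79 29 0
  10224) (.nx 693 6503 (.lg 0 false 1 67 67 29 0 10224) .out)) .out))) .out) .out))))) (.na 4185
  2897 (.na 2087 1024 (.na 1283 512 (.nx 1282 82572 (.nr 1281 1048577 (.nr 698 257 .s1 (.nx 769 71
  (.nr 768 3062 (.lx (.lp 37 19 129)) (.l1 .sk)) (.nx 770 72 (.l1 .sk) (.nx 1025 647 (.la (.ls 79
  31 1611)) (.nr 1280 262145 (.la (.lg 0 false 1 83 83 23 0)) .out))))) .out) .out) (.na 1713 725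
  (.nx 1712 82572 (.nr 1711 1048577 (.nr 1284 512 .s1 (.nx 1497 647 (.la (.ls 73 29 820)) (.nr 1710
  262145 (.la (.lg 0 false 1 79 79 29 0)) .out))) .out) .out) (.nx 2086 3252 (.nr 2085 262145 (.nr
  1714 725 .s1 (.nx 1785 71 (.nr 1784 6123 (.lx (.lp 16 0 257)) (.l1 .sk)) (.nx 1786 72 (.l1 .sk)
  (.la (.ls 59 43 14582))))) .out) .out))) (.na 2587 1449 (.nx 2586 3252 (.nr 2585 262145 (.nr 2088
  1024 .s1 (.nx 2159 71 (.nr 2158 8664 (.lx (.lp 16 0 363)) (.l1 .sk)) (.nx 2160 72 (.l1 .sk) (.la
  (.ls 53 41 10325))))) .out) .out) (.na 3261 2048 (.nx 3260 1627 (.nr 3259 131073 (.nr 2588 1449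
  .s1 (.nx 2659 71 (.nr 2658 12246 (.lx (.lp 16 0 513)) (.l1 .sk)) (.nx 2660 72 (.l1 .sk) (.la (.ls
  47 31 1826))))) .out) .out) (.nx 4184 1627 (.nr 4183 131073 (.nr 3262 2048 .s1 (.nx 3333 71 (.nr
  3332 17322 (.lx (.lp 16 0 725)) (.l1 .sk)) (.nx 3334 72 (.l1 .sk) (.la (.ls 47 31 1293))))) .out)
  .out)))) (.na 6134 16384 (.na 4835 4096 (.nx 4834 647 (.nr 4833 65537 (.nr 4186 2897 .s1 (.nx
  4348 163 (.lx (.lp 41 31 1025)) (.nr 4832 32769 (.lx (.lp 37 31 1025)) .out))) .out) .out) (.na
  5485 8192 (.nx 5484 647 (.nr 5483 65537 (.nr 4836 4096 .s1 (.nx 4998 163 (.lx (.lp 43 37 2049))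
  (.nr 5482 32769 (.lx (.lp 37 37 2049)) .out))) .out) .out) (.nx 6133 647 (.nr 6132 65537 (.nr
  5486 8192 .s1 (.lx (.lp 37 41 4097))) .out) .out))) (.na 7110 65536 (.na 6784 32768 (.nx 6783 647
  (.nr 6782 131073 (.nr 6135 16384 .s1 (.nx 6297 163 (.lx (.lp 41 41 8193)) (.nr 6781 65537 (.lx
  (.lp 31 43 8193)) .out))) .out) .out) (.nx 7109 324 (.nr 7108 131073 (.nr 6785 32768 .s1 (.lx
  (.lp 37 47 16385))) .out) .out)) (.na 7437 131073 (.nx 7436 324 (.nr 7435 262145 (.nr 7111 65536
  .s1 (.nx 7273 163 (.lx (.lp 16 0 32769)) (.nr 7434 131073 (.lx (.lp 37 53 32769)) .out))) .out)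
  .out) .out)))))))

def T133_1 : Ph :=
  (.na 8832 11586 (.na 2908 2897 (.na 854 1449 (.nx 853 13005 (.nr 852 1048577 (.nr 1 1024 .s1 (.nx
  426 3252 (.la (.ls 71 41 10330)) (.nr 851 32769 (.la (.lg 0 false 1 41 41 31 0)) .out))) .out)
  .out) (.na 2056 2048 (.nx 2055 8193 (.nr 2054 1048577 (.nr 855 1449 .s1 (.nx 1454 3252 (.la (.ls
  71 41 7301)) (.nr 2053 4097 (.la (.ls 29 47 39029)) .out))) .out) .out) (.nx 2907 8193 (.nr 2906
  1048577 (.nr 2057 2048 .s1 (.la (.ls 67 47 32779))) .out) .out))) (.na 6242 5793 (.na 4326 4096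
  (.nx 4325 3252 (.nr 4324 524289 (.nr 2909 2897 .s1 (.nx 3125 216 (.nx 3124 215 (.nr 3123 42518
  (.lx (.lp 47 31 1025)) (.l1 .sk)) (.l1 .sk)) (.la (.ls 61 37 3637)))) .out) .out) (.nx 6241 3252
  (.nr 6240 524289 (.nr 4327 4096 .s1 (.nx 4542 215 (.nr 4541 60134 (.lx (.lp 47 31 1449)) (.l1
  .sk)) (.nx 4543 216 (.l1 .sk) (.la (.ls 59 37 2573))))) .out) .out)) (.na 7537 8192 (.nx 7536
  1292 (.nr 7535 262145 (.nr 6243 5793 .s1 (.nx 7056 814 (.lx (.lp 59 37 2049)) (.nr 7534 65537
  (.lx (.lp 41 37 2049)) .out))) .out) .out) (.nx 8831 1292 (.nr 8830 262145 (.nr 7538 8192 .s1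
  (.nx 8351 814 (.lx (.lp 53 41 2897)) (.nr 8829 131073 (.lx (.lp 47 41 2897)) .out))) .out)
  .out)))) (.na 14012 131072 (.na 11421 32768 (.na 10126 16384 (.nx 10125 1292 (.nr 10124 131073
  (.nr 8833 11586 .s1 (.lx (.lp 41 41 4097))) .out) .out) (.nx 11420 1292 (.nr 11419 262145 (.nr
  10127 16384 .s1 (.nx 10383 257 (.lx (.lp 41 43 8193)) (.nr 11418 131073 (.lx (.lp 41 43 8193))
  .out))) .out) .out)) (.na 12716 65536 (.nx 12715 1292 (.nr 12714 262145 (.nr 11422 32768 .s1 (.nx
  11678 257 (.lx (.lp 16 43 16385)) (.nx 12067 645 (.nr 12066 131073 (.lx (.lp 37 47 16385)) .out)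
  (.lx (.lp 41 47 16385))))) .out) .out) (.nx 14011 1292 (.nr 14010 524289 (.nr 12717 65536 .s1
  (.nx 12973 257 (.lx (.lp 16 0 32769)) (.nr 14009 262145 (.nx 13229 513 (.lx (.lp 41 53 32769))
  (.nx 13362 645 (.nr 13361 131073 (.lx (.lp 37 53 32769)) .out) (.lx (.lp 37 53 32769)))) .out)))
  .out) .out))) (.na 15042 524288 (.na 14527 262144 (.nx 14526 513 (.nr 14525 524289 (.nr 14013
  131072 .s1 (.lx (.lp 37 59 65537))) .out) .out) (.nx 15041 513 (.nr 15040 1048577 (.nr 14528
  262144 .s1 (.lx (.lp 16 0 131073))) .out) .out)) (.na 15044 1048577 (.nx 15043 257 (.l1 .sk)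
  .out) .out))))

def T133_2 : Ph :=
  (.na 910 146 (.na 689 55 (.na 533 22 (.na 397 10 (.na 310 3 (.na 188 2 (.nx 187 1321124 (.nr 186
  311745 (.nx 3 122 (.nx 2 121 (.nr 1 12 (.lg 0 false 1 41 41 5 0 1320) (.l1 .sk)) (.l1 .sk)) (.nx
  142 330282 (.nr 120 46342 (.nx 31 10952 (.lg 0 false 28 97 101 11 0 18480) (.nr 119 38969 (.nr 59
  432 (.lg 0 true 28 83 83 11 0 3696) (.nr 68 1219 (.lg 2 true 9 89 89 9 46255 3960) (.nx 118
  208065 (.nx 89 16385 (.lg 1 false 21 97 101 11 26130 360360) (.nr 117 27556 (.lg 2 false 28 97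
  103 11 12366 240240) .out)) .out))) .out)) (.nx 141 205 (.lg 0 false 21 79 79 11 0 5544) .out))
  (.nr 185 109 (.nx 163 660563 (.lg 0 true 21 79 79 11 0 5544) (.nr 184 13 (.lg 0 true 21 71 71 9 0
  5544) .out)) .out))) .out) .out) (.nx 309 3329023 (.nr 308 623489 (.nx 190 121 (.nr 189 21 (.lg 0
  false 1 41 41 5 0 7920) (.l1 .sk)) (.nx 191 122 (.l1 .sk) (.nr 292 77937 (.nr 288 65537 (.nx 212
  20644 (.lg 0 false 21 101 103 11 0 55440) (.nr 287 46342 (.nx 268 1321124 (.nr 233 257 (.lg 0
  true 21 89 89 11 0 11088) (.nx 267 165142 (.nr 240 1100 (.lg 2 true 7 83 83 9 38876 3696) (.nr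
  253 27556 (.lg 2 false 13 101 103 9 9815 720720) (.nx 266 65537 (.lg 2 false 13 101 103 9 16477
  720720) .out))) .out)) (.nr 286 9 (.lg 0 true 18 71 71 9 0 1584) .out)) .out)) (.nx 291 1292 (.lg
  0 true 3 83 83 7 0 1584) .out)) (.nx 307 205 (.lg 0 false 15 79 79 9 0 7920) .out)))) .out)
  .out)) (.na 311 5 .ne (.na 396 6 (.nx 395 10568985 (.nr 394 1482912 (.nx 365 1321124 (.nx 314 122
  (.nx 313 121 (.nr 312 46 (.lg 0 true 1 31 31 9 0 1320) (.l1 .sk)) (.l1 .sk)) (.nr 355 65537 (.nx
  326 23170 (.lg 0 false 12 89 97 16 0 7920) (.nr 338 422 (.lg 0 true 12 83 83 16 0 7920) (.nx 354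
  262145 (.nx 345 52017 (.lg 1 true 7 101 103 16 20745 720720) (.nr 353 38969 (.nr 349 3130 (.lg 2
  true 4 83 83 13 37583 2640) (.lg 2 false 4 89 89 13 5502 2640)) .out)) .out))) (.nx 364 205 (.lg
  0 false 9 79 79 16 0 3960) .out))) (.nr 393 24 (.lg 0 true 28 79 79 16 0 18480) .out)) .out)
  .out) .ne))) (.na 496 12 (.na 441 11 (.nx 440 1321124 (.nr 439 623489 (.nx 400 122 (.nx 399 121
  (.nr 398 86 (.lg 0 false 1 29 29 11 0 2640) (.l1 .sk)) (.l1 .sk)) (.nx 431 330282 (.nr 423 77937
  (.nx 407 26009 (.lg 0 false 7 89 97 13 0 18480) (.nr 422 46342 (.nr 414 766 (.lg 0 true 7 79 79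
  13 0 18480) (.nx 421 165142 (.lg 2 false 7 83 89 13 13078 18480) .out)) .out)) (.nx 430 814 (.lg
  0 false 7 83 83 13 0 18480) .out)) (.nr 438 65 (.lg 0 true 7 71 71 13 0 18480) .out))) .out)
  .out) (.nx 495 1321124 (.nr 494 623489 (.nr 442 1 .s1 (.nx 446 324 (.nx 444 121 (.nr 443 93 (.l1
  (.ls 17 31 1333)) (.l1 .sk)) (.nx 445 122 (.l1 .sk) (.l1 (.ls 79 41 8193)))) (.nr 493 220437 (.nr
  489 77937 (.nr 458 766 (.lg 0 true 12 73 73 16 0 1584) (.nx 488 165142 (.nr 468 13461 (.nx 461
  7321 (.lg 0 true 3 71 71 9 0 792) (.lg 2 false 7 61 61 16 13582 1848)) (.nr 480 46342 (.lg 0 true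
  12 89 89 16 0 7920) (.nx 487 26009 (.lg 0 false 7 83 83 16 0 27720) .out))) .out)) (.nx 492 814
  (.lg 0 true 3 71 71 9 0 3960) .out)) .out))) .out) .out)) (.na 497 13 .ne (.na 532 16 (.nx 531
  1321124 (.nr 530 623489 (.nr 498 7 .s1 (.nx 500 121 (.nr 499 125 (.lg 0 true 1 23 23 9 0 3432)
  (.l1 .sk)) (.nx 501 122 (.l1 .sk) (.nx 502 324 (.l1 (.ls 83 41 6933)) (.nr 529 220437 (.nr 525
  92683 (.nx 509 26009 (.lg 0 false 7 89 97 16 0 120120) (.nr 524 46342 (.nr 519 766 (.nx 513
  330282 (.lg 0 true 4 73 73 16 0 6864) (.nr 518 65 (.lg 0 true 5 67 67 16 0 17160) .out)) (.nx 523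
  165142 (.lg 2 false 4 83 89 16 13078 34320) .out)) .out)) (.nx 528 814 (.lg 0 false 3 73 73 11 0
  10296) .out)) .out))))) .out) .out) .ne)))) (.na 604 34 (.na 560 26 (.na 559 23 (.nx 558 1321124
  (.nr 557 1048577 (.nr 534 20 .s1 (.nx 535 324 (.l1 (.ls 73 47 4774)) (.nr 556 220437 (.nx 542
  16385 (.lg 0 false 7 83 83 17 0 3696) (.nr 555 46342 (.nr 549 498 (.lg 0 true 7 67 67 17 0 3696)
  (.nx 554 165142 (.lg 2 false 5 73 73 13 20760 2640) .out)) .out)) .out))) .out) .out) .ne) (.na
  580 29 (.nx 579 1321124 (.nr 578 1048577 (.nr 561 24 .s1 (.nx 564 122 (.nx 563 121 (.nr 562 226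
  (.l1 (.ls 29 31 566)) (.l1 .sk)) (.l1 .sk)) (.nx 569 16385 (.nx 565 205 (.l1 (.ls 83 37 1046))
  (.nr 568 185365 (.lg 0 false 3 97 97 11 0 102960) .out)) (.nr 577 38969 (.nr 574 513 (.lg 0 true
  5 73 73 19 0 34320) (.nx 576 82572 (.lg 2 true 2 83 83 11 17466 6864) .out)) .out)))) .out) .out)
  (.na 603 32 (.nx 602 1321124 (.nr 601 1048577 (.nr 581 27 .s1 (.nx 590 16385 (.nx 583 121 (.nr
  582 250 (.l1 (.ls 19 19 507)) (.l1 .sk)) (.nx 584 122 (.l1 .sk) (.nx 585 205 (.l1 (.ls 79 23
  938)) (.nr 589 185365 (.lg 0 false 4 89 89 16 0 7920) .out)))) (.nr 600 38969 (.nr 597 513 (.lg 0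
  true 7 71 73 16 0 1848) (.nx 599 82572 (.lg 2 true 2 83 83 16 17466 2640) .out)) .out))) .out)
  .out) .ne))) (.na 659 46 (.na 626 37 (.nx 625 1321124 (.nr 624 370729 (.nr 605 33 .s1 (.nx 607
  121 (.nr 606 289 (.l1 (.ls 16 31 433)) (.l1 .sk)) (.nx 608 122 (.l1 .sk) (.nx 615 13005 (.lg 0
  false 7 89 97 23 0 55440) (.nr 623 23172 (.nr 620 289 (.lg 0 true 5 71 71 13 0 2640) (.nx 622
  82572 (.lg 2 true 2 79 79 13 17286 2640) .out)) .out))))) .out) .out) (.na 643 41 (.nx 642
  1321124 (.nr 641 370729 (.nr 627 36 .s1 (.nx 630 122 (.nx 629 121 (.nr 628 320 (.l1 (.ls 19 19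
  398)) (.l1 .sk)) (.l1 .sk)) (.nx 634 13005 (.lg 0 false 4 89 89 16 0 2640) (.nr 640 23172 (.nr
  638 320 (.lg 0 true 4 71 71 16 0 528) (.nx 639 82572 (.lg 2 true 1 79 79 16 15612 264) .out))
  .out)))) .out) .out) (.nx 658 1321124 (.nr 657 370729 (.nr 644 40 .s1 (.nx 647 122 (.nx 646 121
  (.nr 645 359 (.l1 (.ls 17 19 360)) (.l1 .sk)) (.l1 .sk)) (.nx 650 13005 (.lg 0 false 3 83 83 16 0
  792) (.nr 656 23172 (.nr 654 359 (.lg 0 true 4 67 67 16 0 528) (.nx 655 82572 (.lg 2 true 1 73 73
  16 13916 1320) .out)) .out)))) .out) .out))) (.na 660 50 .ne (.na 674 53 (.nx 673 1321124 (.nr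
  672 311745 (.nr 661 49 .s1 (.nx 667 10323 (.nx 663 121 (.nr 662 413 (.l1 (.ls 19 29 295)) (.l1
  .sk)) (.nx 664 122 (.l1 .sk) (.lg 0 false 3 79 79 19 0 7920))) (.nr 671 23172 (.nr 669 217 (.lg 0
  true 2 61 61 19 0 2640) (.nx 670 82572 (.lg 2 true 1 73 73 13 23022 2640) .out)) .out))) .out)
  .out) (.nx 688 1321124 (.nr 687 311745 (.nr 675 52 .s1 (.nx 681 10323 (.nx 677 121 (.nr 676 429
  (.l1 (.ls 17 17 279)) (.l1 .sk)) (.nx 678 122 (.l1 .sk) (.lg 0 false 3 83 83 16 0 792))) (.nr 686
  23172 (.nr 684 429 (.lg 0 true 3 67 67 16 0 792) (.nx 685 82572 (.lg 2 true 1 73 73 16 16519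
  1320) .out)) .out))) .out) .out)))))) (.na 822 101 (.na 750 73 (.na 719 61 (.na 704 58 (.nx 703
  1321124 (.nr 702 311745 (.nr 690 54 .s1 (.nx 693 122 (.nx 692 121 (.nr 691 452 (.l1 (.ls 17 23
  269)) (.l1 .sk)) (.l1 .sk)) (.nx 696 10323 (.lg 0 false 3 73 73 17 0 3960) (.nr 701 23172 (.nr
  699 452 (.lg 0 true 3 61 61 17 0 3960) (.nx 700 82572 (.lg 2 true 1 67 67 16 16519 1320) .out))
  .out)))) .out) .out) (.nx 718 1321124 (.nr 717 311745 (.nr 705 57 .s1 (.nx 711 10323 (.nx 707 121
  (.nr 706 476 (.l1 (.ls 19 23 255)) (.l1 .sk)) (.nx 708 122 (.l1 .sk) (.lg 0 false 3 83 83 19 0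
  1584))) (.nr 716 23172 (.nr 714 476 (.lg 0 true 3 71 71 19 0 1584) (.nx 715 82572 (.lg 2 true 1
  73 73 13 16519 528) .out)) .out))) .out) .out)) (.na 734 64 (.nx 733 1321124 (.nr 732 311745 (.nr
  720 61 .s1 (.nx 729 82572 (.nr 723 13779 (.nx 721 2580 (.l1 (.ls 47 53 109124)) (.lg 0 false 2 73
  73 16 0 528)) (.nx 725 122 (.nx 724 121 (.l1 .sk) (.l1 .sk)) (.nx 728 20644 (.lg 0 false 3 83 83
  16 0 792) .out))) (.nr 731 217 (.lg 0 true 2 67 67 16 0 528) .out))) .out) .out) (.na 735 65 .ne
  (.nx 749 1321124 (.nr 748 524289 (.nr 736 65 .s1 (.nx 739 122 (.nx 738 121 (.nr 737 569 (.l1 (.ls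
  29 23 228)) (.l1 .sk)) (.l1 .sk)) (.nx 742 8193 (.lg 0 false 3 83 83 19 0 51480) (.nr 747 8193
  (.nr 745 513 (.lg 0 true 3 71 71 19 0 51480) (.nx 746 82572 (.lg 2 true 1 67 67 17 9739 17160)
  .out)) .out)))) .out) .out)))) (.na 795 85 (.na 765 74 (.nx 764 1321124 (.nr 763 524289 (.nr 751
  73 .s1 (.nx 757 8193 (.nx 753 121 (.nr 752 577 (.l1 (.ls 16 17 203)) (.l1 .sk)) (.nx 754 122 (.l1
  .sk) (.lg 0 false 3 79 79 16 0 792))) (.nr 762 8193 (.nr 760 577 (.lg 0 true 3 61 61 16 0 792)
  (.nx 761 82572 (.lg 2 false 1 53 53 16 8658 264) .out)) .out))) .out) .out) (.na 780 82 (.nx 779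
  1321124 (.nr 778 524289 (.nr 766 74 .s1 (.nx 772 8193 (.nx 768 121 (.nr 767 640 (.l1 (.ls 23 23
  200)) (.l1 .sk)) (.nx 769 122 (.l1 .sk) (.lg 0 false 3 83 83 19 0 1584))) (.nr 777 8193 (.nr 775
  640 (.lg 0 true 3 71 71 19 0 1584) (.nx 776 82572 (.lg 2 true 1 61 61 13 7806 2640) .out))
  .out))) .out) .out) (.nx 794 1321124 (.nr 793 524289 (.nr 781 82 .s1 (.nx 784 122 (.nx 783 121
  (.nr 782 663 (.l1 (.ls 19 23 181)) (.l1 .sk)) (.l1 .sk)) (.nx 787 8193 (.lg 0 false 3 83 83 19 0
  1584) (.nr 792 8193 (.nr 790 663 (.lg 0 true 3 71 71 19 0 1584) (.nx 791 82572 (.lg 2 true 1 59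
  59 13 7535 528) .out)) .out)))) .out) .out))) (.na 808 91 (.nx 807 1321124 (.nr 806 524289 (.nr
  796 85 .s1 (.nx 801 8193 (.nx 798 121 (.nr 797 710 (.l1 (.ls 16 23 175)) (.l1 .sk)) (.nx 799 122
  (.l1 .sk) (.lg 0 false 2 83 83 16 0 2640))) (.nr 805 8193 (.nr 803 513 (.lg 0 true 2 71 71 16 0
  2640) (.nx 804 82572 (.lg 2 true 1 61 61 16 9739 1320) .out)) .out))) .out) .out) (.na 809 97 .ne
  (.nx 821 1321124 (.nr 820 524289 (.nr 810 97 .s1 (.nx 816 8193 (.nx 812 121 (.nr 811 788 (.l1
  (.ls 17 17 153)) (.l1 .sk)) (.nx 813 122 (.l1 .sk) (.lg 0 false 3 71 71 16 0 792))) (.nr 819 8193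
  (.nr 817 788 (.lg 0 false 1 67 67 16 0 264) (.nx 818 82572 (.lg 2 true 1 47 47 16 7430 264)
  .out)) .out))) .out) .out))))) (.na 880 125 (.na 847 109 (.na 835 106 (.nx 834 1321124 (.nr 833
  524289 (.nr 823 101 .s1 (.nx 829 8193 (.nx 825 121 (.nr 824 827 (.l1 (.ls 17 17 147)) (.l1 .sk))
  (.nx 826 122 (.l1 .sk) (.lg 0 false 3 71 71 16 0 792))) (.nr 832 8193 (.nr 830 827 (.lg 0 false 1
  71 71 16 0 3960) (.nx 831 82572 (.lg 2 false 1 47 47 16 7430 1320) .out)) .out))) .out) .out)
  (.nx 846 1321124 (.nr 845 524289 (.nr 836 106 .s1 (.nx 839 122 (.nx 838 121 (.nr 837 850 (.l1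
  (.ls 19 23 141)) (.l1 .sk)) (.l1 .sk)) (.nx 840 8193 (.lg 0 true 1 83 83 19 0 528) (.nr 844 8193
  (.nr 842 513 (.lg 0 true 2 61 61 19 0 528) (.nx 843 82572 (.lg 2 true 1 59 59 19 9739 2640)
  .out)) .out)))) .out) .out)) (.na 858 110 (.nx 857 1321124 (.nr 856 524289 (.nr 848 109 .s1 (.nx
  851 122 (.nx 850 121 (.nr 849 858 (.l1 (.ls 16 16 137)) (.l1 .sk)) (.l1 .sk)) (.nx 852 8193 (.lg
  0 true 1 73 73 16 0 264) (.nr 855 8193 (.nr 853 513 (.lg 0 false 1 61 61 16 0 264) (.nx 854 82572
  (.lg 2 false 1 47 47 16 9739 264) .out)) .out)))) .out) .out) (.na 869 122 (.nx 868 1321124 (.nr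
  867 524289 (.nr 859 110 .s1 (.nx 862 122 (.nx 861 121 (.nr 860 951 (.l1 (.ls 19 29 136)) (.l1
  .sk)) (.l1 .sk)) (.nx 863 8193 (.lg 0 true 1 83 83 23 0 7920) (.nr 866 8193 (.nr 864 513 (.lg 0
  false 1 71 71 23 0 7920) (.nx 865 82572 (.lg 2 false 1 53 53 23 9739 2640) .out)) .out)))) .out)
  .out) (.nx 879 1321124 (.nr 878 524289 (.nr 870 122 .s1 (.nx 872 121 (.nr 871 975 (.l1 (.ls 17 23
  123)) (.l1 .sk)) (.nx 873 122 (.l1 .sk) (.nx 874 8193 (.lg 0 true 1 83 83 19 0 2640) (.nr 877
  8193 (.nr 875 513 (.lg 2 false 1 67 67 19 655148 2640) (.nx 876 82572 (.lg 2 false 1 47 47 19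
  9739 528) .out)) .out))))) .out) .out)))) (.na 900 131 (.na 891 128 (.nx 890 1321124 (.nr 889
  524289 (.nr 881 125 .s1 (.nx 885 8193 (.nx 883 121 (.nr 882 998 (.l1 (.ls 16 17 120)) (.l1 .sk))
  (.nx 884 122 (.l1 .sk) (.lg 0 true 1 73 73 16 0 1320))) (.nr 888 8193 (.nr 886 513 (.lg 2 false 1
  59 59 16 639425 1320) (.nx 887 82572 (.lg 2 true 1 47 47 16 9739 1320) .out)) .out))) .out) .out)
  (.na 892 130 .ne (.nx 899 660563 (.nr 898 1048577 (.nr 893 130 .s1 (.nx 894 205 (.l1 (.ls 73 37
  326)) (.nr 897 524289 (.nr 895 8193 (.lg 0 false 1 83 83 29 0 34320) (.nx 896 6503 (.lg 0 false 1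
  79 79 29 0 34320) .out)) .out))) .out) .out))) (.na 901 137 (.lg 0 false 1 0 0 16 0 24) (.na 909
  139 (.nx 908 660563 (.nr 907 1048577 (.nr 902 137 .s1 (.nx 903 205 (.l1 (.ls 61 19 309)) (.nr 906
  524289 (.nr 904 8193 (.lg 0 false 1 73 73 16 0 264) (.nx 905 6503 (.lg 0 true 1 71 71 16 0 264)
  .out)) .out))) .out) .out) (.lg 0 false 1 0 0 16 0 24))))))) (.na 1043 223 (.na 969 181 (.na 936
  169 (.na 926 151 (.na 918 149 (.nx 917 660563 (.nr 916 1048577 (.nr 911 146 .s1 (.nx 912 205 (.l1
  (.ls 67 29 290)) (.nr 915 524289 (.nr 913 8193 (.lg 0 false 1 83 83 19 0 7920) (.nx 914 6503 (.lg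
  0 true 1 79 79 19 0 7920) .out)) .out))) .out) .out) (.nx 925 660563 (.nr 924 1048577 (.nr 919
  149 .s1 (.nx 920 205 (.l1 (.ls 79 19 285)) (.nr 923 524289 (.nx 921 6503 (.lg 0 true 1 71 71 16 0
  264) (.nr 922 8193 (.lg 0 false 1 73 73 16 0 1320) .out)) .out))) .out) .out)) (.na 927 157 (.lg
  0 false 1 0 0 16 0 24) (.na 935 163 (.nx 934 660563 (.nr 933 1048577 (.nr 928 157 .s1 (.nx 929
  205 (.l1 (.ls 61 17 270)) (.nr 932 524289 (.nr 930 8193 (.lg 0 false 1 73 73 16 0 1320) (.nx 931
  6503 (.lg 0 true 1 71 71 16 0 1320) .out)) .out))) .out) .out) (.lg 0 false 1 0 0 16 0 24))))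
  (.na 952 173 (.na 944 170 (.nx 943 660563 (.nr 942 1048577 (.nr 937 169 .s1 (.nx 938 205 (.l1
  (.ls 67 19 251)) (.nr 941 524289 (.nr 939 8193 (.lg 0 false 1 73 73 17 0 3432) (.nx 940 6503 (.lg
  0 true 1 71 71 17 0 3432) .out)) .out))) .out) .out) (.nx 951 660563 (.nr 950 1048577 (.nr 945
  170 .s1 (.nx 946 205 (.l1 (.ls 73 31 250)) (.nr 949 524289 (.nr 947 8193 (.lg 0 false 1 83 83 31
  0 2640) (.nx 948 6503 (.lg 0 false 1 79 79 31 0 2640) .out)) .out))) .out) .out)) (.na 960 178
  (.nx 959 660563 (.nr 958 1048577 (.nr 953 173 .s1 (.nx 954 205 (.l1 (.ls 79 17 245)) (.nr 957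
  524289 (.nr 955 8193 (.lg 0 false 1 73 73 16 0 264) (.nx 956 6503 (.lg 0 true 1 71 71 16 0 264)
  .out)) .out))) .out) .out) (.na 968 179 (.nx 967 660563 (.nr 966 1048577 (.nr 961 178 .s1 (.nx
  962 205 (.l1 (.ls 73 29 239)) (.nr 965 524289 (.nr 963 8193 (.lg 0 false 1 73 73 19 0 528) (.nx
  964 6503 (.lg 0 true 1 71 71 19 0 528) .out)) .out))) .out) .out) (.lg 0 false 1 0 0 16 0 24)))))
  (.na 1002 197 (.na 985 191 (.na 977 187 (.nx 976 660563 (.nr 975 1048577 (.nr 970 181 .s1 (.nx
  971 205 (.l1 (.ls 61 17 235)) (.nr 974 524289 (.nr 972 8193 (.lg 0 false 1 71 71 16 0 264) (.nx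
  973 6503 (.lg 0 true 1 71 71 16 0 1320) .out)) .out))) .out) .out) (.nx 984 660563 (.nr 983
  1048577 (.nr 978 187 .s1 (.nx 979 205 (.l1 (.ls 79 23 227)) (.nr 982 524289 (.nr 980 8193 (.lg 0
  false 1 73 73 16 0 264) (.nx 981 6503 (.lg 0 true 1 73 73 16 0 3960) .out)) .out))) .out) .out))
  (.na 986 193 (.lg 0 false 1 0 0 16 0 24) (.na 994 194 (.nx 993 660563 (.nr 992 1048577 (.nr 987
  193 .s1 (.nx 988 205 (.l1 (.ls 59 17 220)) (.nr 991 524289 (.nr 989 8193 (.lg 0 false 1 71 71 16
  0 1320) (.nx 990 6503 (.lg 0 true 1 67 67 16 0 1320) .out)) .out))) .out) .out) (.nx 1001 660563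
  (.nr 1000 1048577 (.nr 995 194 .s1 (.nx 996 205 (.l1 (.ls 73 23 219)) (.nr 999 524289 (.nr 997
  8193 (.lg 0 false 1 73 73 19 0 2640) (.nx 998 6503 (.lg 0 true 1 71 71 19 0 528) .out)) .out)))
  .out) .out)))) (.na 1026 211 (.na 1010 202 (.nx 1009 660563 (.nr 1008 1048577 (.nr 1003 197 .s1
  (.nx 1004 205 (.l1 (.ls 61 17 216)) (.nr 1007 524289 (.nr 1005 8193 (.lg 0 false 1 71 71 16 0
  1320) (.nx 1006 6503 (.lg 0 true 1 67 67 16 0 264) .out)) .out))) .out) .out) (.na 1018 205 (.nx
  1017 660563 (.nr 1016 1048577 (.nr 1011 202 .s1 (.nx 1012 205 (.l1 (.ls 61 23 211)) (.nr 1015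
  524289 (.nr 1013 8193 (.lg 0 false 1 71 71 23 0 528) (.nx 1014 6503 (.lg 0 true 1 71 71 23 0
  2640) .out)) .out))) .out) .out) (.nx 1025 660563 (.nr 1024 1048577 (.nr 1019 205 .s1 (.nx 1020
  205 (.l1 (.ls 73 19 207)) (.nr 1023 524289 (.nr 1021 8193 (.lg 0 true 1 79 79 19 0 1320) (.nx
  1022 6503 (.lg 0 false 1 73 73 19 0 1320) .out)) .out))) .out) .out))) (.na 1027 218 (.lg 0 false
  1 0 0 16 0 24) (.na 1035 221 (.nx 1034 660563 (.nr 1033 1048577 (.nr 1028 218 .s1 (.nx 1029 205
  (.l1 (.ls 61 23 195)) (.nr 1032 524289 (.nr 1030 8193 (.lg 0 false 1 71 71 23 0 528) (.nx 1031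
  6503 (.lg 0 true 1 67 67 23 0 528) .out)) .out))) .out) .out) (.nx 1042 660563 (.nr 1041 1048577
  (.nr 1036 221 .s1 (.nx 1037 205 (.l1 (.ls 73 23 193)) (.nr 1040 524289 (.nr 1038 8193 (.lg 0 true
  1 79 79 23 0 3432) (.nx 1039 6503 (.lg 0 false 1 73 73 23 0 3432) .out)) .out))) .out) .out))))))
  (.na 2031 725 (.na 1069 242 (.na 1052 227 (.na 1044 226 (.lg 0 false 1 0 0 16 0 24) (.nx 1051
  660563 (.nr 1050 1048577 (.nr 1045 226 .s1 (.nx 1046 205 (.l1 (.ls 67 23 188)) (.nr 1049 524289
  (.nr 1047 8193 (.lg 0 false 1 71 71 23 0 528) (.nx 1048 6503 (.lg 0 true 1 71 71 23 0 2640)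
  .out)) .out))) .out) .out)) (.na 1053 229 (.lg 0 false 1 0 0 16 0 24) (.na 1061 233 (.nx 1060
  660563 (.nr 1059 1048577 (.nr 1054 229 .s1 (.nx 1055 205 (.l1 (.ls 73 17 186)) (.nr 1058 524289
  (.nr 1056 8193 (.lg 0 false 1 71 71 17 0 1320) (.nx 1057 6503 (.lg 0 true 1 67 67 17 0 1320)
  .out)) .out))) .out) .out) (.nx 1068 660563 (.nr 1067 1048577 (.nr 1062 233 .s1 (.nx 1063 205
  (.l1 (.ls 59 17 183)) (.nr 1066 524289 (.nr 1064 8193 (.lg 0 false 1 67 67 17 0 264) (.nx 1065
  6503 (.lg 0 true 1 67 67 17 0 1320) .out)) .out))) .out) .out)))) (.na 1086 256 (.na 1077 250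
  (.nx 1076 660563 (.nr 1075 1048577 (.nr 1070 242 .s1 (.nx 1071 205 (.l1 (.ls 73 29 176)) (.nr
  1074 524289 (.nr 1072 8193 (.lg 0 true 1 79 83 31 0 2640) (.nx 1073 6503 (.lg 0 false 1 73 79 31
  0 2640) .out)) .out))) .out) .out) (.na 1085 251 (.nx 1084 660563 (.nr 1083 1048577 (.nr 1078 250
  .s1 (.nx 1079 205 (.l1 (.ls 67 29 171)) (.nr 1082 524289 (.nr 1080 8193 (.lg 0 false 1 71 71 29 0
  2640) (.nx 1081 6503 (.lg 0 true 1 71 71 29 0 7920) .out)) .out))) .out) .out) (.lg 0 false 1 0 0
  16 0 24))) (.na 1087 257 .ne (.na 1601 512 (.nx 1600 82572 (.nr 1599 1048577 (.nr 1088 257 .s1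
  (.nx 1343 647 (.la (.ls 83 29 1631)) (.nr 1598 262145 (.la (.lg 0 true 1 73 73 23 0)) .out)))
  .out) .out) (.nx 2030 82572 (.nr 2029 1048577 (.nr 1602 512 .s1 (.nx 1815 647 (.la (.ls 73 29
  820)) (.nr 2028 262145 (.la (.lg 0 false 1 71 71 29 0)) .out))) .out) .out))))) (.na 4987 4096
  (.na 2761 1449 (.na 2333 1024 (.nx 2332 3252 (.nr 2331 262145 (.nr 2032 725 .s1 (.la (.ls 47 43
  14589))) .out) .out) (.nx 2760 3252 (.nr 2759 262145 (.nr 2334 1024 .s1 (.la (.ls 71 41 10330)))
  .out) .out)) (.na 3363 2048 (.nx 3362 1627 (.nr 3361 131073 (.nr 2762 1449 .s1 (.la (.ls 53 31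
  1829))) .out) .out) (.na 4337 2897 (.nx 4336 1627 (.nr 4335 131073 (.nr 3364 2048 .s1 (.nx 3485
  121 (.nr 3484 22581 (.lx (.lp 16 0 725)) (.l1 .sk)) (.nx 3486 122 (.l1 .sk) (.la (.ls 47 31
  1288))))) .out) .out) (.nx 4986 647 (.nr 4985 65537 (.nr 4338 2897 .s1 (.nx 4500 163 (.lx (.lp 43
  29 1025)) (.nr 4984 32769 (.lx (.lp 47 31 1025)) .out))) .out) .out)))) (.na 6935 32768 (.na 5637
  8192 (.nx 5636 647 (.nr 5635 65537 (.nr 4988 4096 .s1 (.nx 5150 163 (.lx (.lp 16 29 2049)) (.nr
  5634 32769 (.lx (.lp 43 37 2049)) .out))) .out) .out) (.na 6286 16384 (.nx 6285 647 (.nr 6284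
  65537 (.nr 5638 8192 .s1 (.lx (.lp 37 41 4097))) .out) .out) (.nx 6934 647 (.nr 6933 131073 (.nr
  6287 16384 .s1 (.lx (.lp 37 43 8193))) .out) .out))) (.na 7261 65536 (.nx 7260 324 (.nr 7259
  131073 (.nr 6936 32768 .s1 (.lx (.lp 16 41 16385))) .out) .out) (.na 7587 131073 (.nx 7586 324
  (.nr 7585 262145 (.nr 7262 65536 .s1 (.lx (.lp 16 47 32769))) .out) .out) .out)))))))

theorem c133 :
    OkQ ckI L6 71 80 1099511627776 0 34359738368 1 1099511627776 ∧
    OkQ ckI L9 215 1024 1099511627776 0 34359738368 1 1099511627776 ∧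
    OkQ ckI L6 121 1 1099511627776 0 34359738368 1 1099511627776 := by
  refine ⟨?_, ?_, ?_⟩
  · refine fin 5112 7438 T133_0 ?_
    refine jn 4 (by decide +kernel) ?_
    refine jn 5 (by decide +kernel) ?_
    refine jn 6 (by decide +kernel) ?_
    refine jn 8 (by decide +kernel) ?_
    refine jn 20 (by decide +kernel) ?_
    refine jn 34 (by decide +kernel) ?_
    refine jn 48 (by decide +kernel) ?_
    refine jn 58 (by decide +kernel) ?_
    refine jn 61 (by decide +kernel) ?_
    refine jn 74 (by decide +kernel) ?_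
    refine jn 84 (by decide +kernel) ?_
    refine jn 87 (by decide +kernel) ?_
    refine jn 98 (by decide +kernel) ?_
    refine jn 101 (by decide +kernel) ?_
    refine jn 109 (by decide +kernel) ?_
    refine jn 110 (by decide +kernel) ?_
    refine jn 111 (by decide +kernel) ?_
    refine jn 112 (by decide +kernel) ?_
    refine jn 122 (by decide +kernel) ?_
    refine jn 125 (by decide +kernel) ?_
    refine jn 136 (by decide +kernel) ?_
    refine jn 147 (by decide +kernel) ?_
    refine jn 158 (by decide +kernel) ?_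
    refine jn 167 (by decide +kernel) ?_
    refine jn 169 (by decide +kernel) ?_
    refine jn 180 (by decide +kernel) ?_
    refine jn 189 (by decide +kernel) ?_
    refine jn 191 (by decide +kernel) ?_
    refine jn 200 (by decide +kernel) ?_
    refine jn 202 (by decide +kernel) ?_
    refine jn 211 (by decide +kernel) ?_
    refine jn 213 (by decide +kernel) ?_
    refine jn 218 (by decide +kernel) ?_
    refine jn 219 (by decide +kernel) ?_
    refine jn 221 (by decide +kernel) ?_
    refine jn 222 (by decide +kernel) ?_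
    refine jn 223 (by decide +kernel) ?_
    refine jn 224 (by decide +kernel) ?_
    refine jn 225 (by decide +kernel) ?_
    refine jn 240 (by decide +kernel) ?_
    refine jn 245 (by decide +kernel) ?_
    refine jn 253 (by decide +kernel) ?_
    refine jn 264 (by decide +kernel) ?_
    refine jn 273 (by decide +kernel) ?_
    refine jn 292 (by decide +kernel) ?_
    refine jn 294 (by decide +kernel) ?_
    refine jn 296 (by decide +kernel) ?_
    refine jn 304 (by decide +kernel) ?_
    refine jn 315 (by decide +kernel) ?_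
    refine jn 323 (by decide +kernel) ?_
    refine jn 335 (by decide +kernel) ?_
    refine jn 344 (by decide +kernel) ?_
    refine jn 351 (by decide +kernel) ?_
    refine jn 353 (by decide +kernel) ?_
    refine jn 362 (by decide +kernel) ?_
    refine jn 375 (by decide +kernel) ?_
    refine jn 377 (by decide +kernel) ?_
    refine jn 379 (by decide +kernel) ?_
    refine jn 388 (by decide +kernel) ?_
    refine jn 405 (by decide +kernel) ?_
    refine jn 414 (by decide +kernel) ?_
    refine jn 423 (by decide +kernel) ?_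
    refine jn 435 (by decide +kernel) ?_
    refine jn 449 (by decide +kernel) ?_
    refine jn 458 (by decide +kernel) ?_
    refine jn 460 (by decide +kernel) ?_
    refine jn 461 (by decide +kernel) ?_
    refine jn 471 (by decide +kernel) ?_
    refine jn 479 (by decide +kernel) ?_
    refine jn 493 (by decide +kernel) ?_
    refine jn 494 (by decide +kernel) ?_
    refine jn 505 (by decide +kernel) ?_
    refine jn 512 (by decide +kernel) ?_
    refine jn 521 (by decide +kernel) ?_
    refine jn 538 (by decide +kernel) ?_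
    refine jn 553 (by decide +kernel) ?_
    refine jn 560 (by decide +kernel) ?_
    refine jn 561 (by decide +kernel) ?_
    refine jn 570 (by decide +kernel) ?_
    refine jn 583 (by decide +kernel) ?_
    refine jn 591 (by decide +kernel) ?_
    refine jn 601 (by decide +kernel) ?_
    refine jn 610 (by decide +kernel) ?_
    refine jn 619 (by decide +kernel) ?_
    refine jn 626 (by decide +kernel) ?_
    refine jn 635 (by decide +kernel) ?_
    refine jn 649 (by decide +kernel) ?_
    refine jn 650 (by decide +kernel) ?_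
    refine jn 651 (by decide +kernel) ?_
    refine jn 652 (by decide +kernel) ?_
    refine jn 653 (by decide +kernel) ?_
    refine jn 668 (by decide +kernel) ?_
    refine jn 682 (by decide +kernel) ?_
    refine jn 692 (by decide +kernel) ?_
    refine jn 768 (by decide +kernel) ?_
    refine jn 797 (by decide +kernel) ?_
    refine jn 806 (by decide +kernel) ?_
    refine jn 817 (by decide +kernel) ?_
    refine jn 833 (by decide +kernel) ?_
    refine jn 855 (by decide +kernel) ?_
    refine jn 873 (by decide +kernel) ?_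
    refine jn 883 (by decide +kernel) ?_
    refine jn 900 (by decide +kernel) ?_
    refine jn 925 (by decide +kernel) ?_
    refine jn 948 (by decide +kernel) ?_
    refine jn 966 (by decide +kernel) ?_
    refine jn 979 (by decide +kernel) ?_
    refine jn 1011 (by decide +kernel) ?_
    refine jn 1026 (by decide +kernel) ?_
    refine jn 1030 (by decide +kernel) ?_
    refine jn 1035 (by decide +kernel) ?_
    refine jn 1039 (by decide +kernel) ?_
    refine jn 1053 (by decide +kernel) ?_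
    refine jn 1056 (by decide +kernel) ?_
    refine jn 1058 (by decide +kernel) ?_
    refine jn 1061 (by decide +kernel) ?_
    refine jn 1064 (by decide +kernel) ?_
    refine jn 1066 (by decide +kernel) ?_
    refine jn 1070 (by decide +kernel) ?_
    refine jn 1072 (by decide +kernel) ?_
    refine jn 1073 (by decide +kernel) ?_
    refine jn 1081 (by decide +kernel) ?_
    refine jn 1084 (by decide +kernel) ?_
    refine jn 1088 (by decide +kernel) ?_
    refine jn 1089 (by decide +kernel) ?_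
    refine jn 1095 (by decide +kernel) ?_
    refine jn 1101 (by decide +kernel) ?_
    refine jn 1110 (by decide +kernel) ?_
    refine jn 1112 (by decide +kernel) ?_
    refine jn 1116 (by decide +kernel) ?_
    refine jn 1123 (by decide +kernel) ?_
    refine jn 1127 (by decide +kernel) ?_
    refine jn 1128 (by decide +kernel) ?_
    refine jn 1129 (by decide +kernel) ?_
    refine jn 1138 (by decide +kernel) ?_
    refine jn 1143 (by decide +kernel) ?_
    refine jn 1148 (by decide +kernel) ?_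
    refine jn 1150 (by decide +kernel) ?_
    refine jn 1152 (by decide +kernel) ?_
    refine jn 1155 (by decide +kernel) ?_
    refine jn 1163 (by decide +kernel) ?_
    refine jn 1168 (by decide +kernel) ?_
    refine jn 1172 (by decide +kernel) ?_
    refine jn 1177 (by decide +kernel) ?_
    refine jn 1183 (by decide +kernel) ?_
    refine jn 1196 (by decide +kernel) ?_
    refine jn 1199 (by decide +kernel) ?_
    refine jn 1200 (by decide +kernel) ?_
    refine jn 1203 (by decide +kernel) ?_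
    refine jn 1204 (by decide +kernel) ?_
    refine jn 1212 (by decide +kernel) ?_
    refine jn 1213 (by decide +kernel) ?_
    refine jn 1218 (by decide +kernel) ?_
    refine jn 1224 (by decide +kernel) ?_
    refine jn 1225 (by decide +kernel) ?_
    refine jn 1232 (by decide +kernel) ?_
    refine jn 1235 (by decide +kernel) ?_
    refine jn 1243 (by decide +kernel) ?_
    refine jn 1248 (by decide +kernel) ?_
    refine jn 1249 (by decide +kernel) ?_
    refine jn 1268 (by decide +kernel) ?_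
    refine jn 1270 (by decide +kernel) ?_
    refine jn 1277 (by decide +kernel) ?_
    refine jn 1296 (by decide +kernel) ?_
    refine jn 1327 (by decide +kernel) ?_
    refine jn 1352 (by decide +kernel) ?_
    refine jn 1372 (by decide +kernel) ?_
    refine jn 1394 (by decide +kernel) ?_
    refine jn 1419 (by decide +kernel) ?_
    refine jn 1447 (by decide +kernel) ?_
    refine jn 1471 (by decide +kernel) ?_
    refine jn 1494 (by decide +kernel) ?_
    refine jn 1500 (by decide +kernel) ?_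
    refine jn 1501 (by decide +kernel) ?_
    refine jn 1507 (by decide +kernel) ?_
    refine jn 1519 (by decide +kernel) ?_
    refine jn 1522 (by decide +kernel) ?_
    refine jn 1525 (by decide +kernel) ?_
    refine jn 1530 (by decide +kernel) ?_
    refine jn 1539 (by decide +kernel) ?_
    refine jn 1542 (by decide +kernel) ?_
    refine jn 1555 (by decide +kernel) ?_
    refine jn 1558 (by decide +kernel) ?_
    refine jn 1562 (by decide +kernel) ?_
    refine jn 1569 (by decide +kernel) ?_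
    refine jn 1572 (by decide +kernel) ?_
    refine jn 1578 (by decide +kernel) ?_
    refine jn 1585 (by decide +kernel) ?_
    refine jn 1586 (by decide +kernel) ?_
    refine jn 1593 (by decide +kernel) ?_
    refine jn 1602 (by decide +kernel) ?_
    refine jn 1610 (by decide +kernel) ?_
    refine jn 1617 (by decide +kernel) ?_
    refine jn 1625 (by decide +kernel) ?_
    refine jn 1627 (by decide +kernel) ?_
    refine jn 1630 (by decide +kernel) ?_
    refine jn 1633 (by decide +kernel) ?_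
    refine jn 1640 (by decide +kernel) ?_
    refine jn 1649 (by decide +kernel) ?_
    refine jn 1653 (by decide +kernel) ?_
    refine jn 1660 (by decide +kernel) ?_
    refine jn 1669 (by decide +kernel) ?_
    refine jn 1673 (by decide +kernel) ?_
    refine jn 1681 (by decide +kernel) ?_
    refine jn 1682 (by decide +kernel) ?_
    refine jn 1696 (by decide +kernel) ?_
    refine jn 1701 (by decide +kernel) ?_
    refine jn 1705 (by decide +kernel) ?_
    refine jn 1706 (by decide +kernel) ?_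
    refine jn 1801 (by decide +kernel) ?_
    refine jn 1816 (by decide +kernel) ?_
    refine jn 1825 (by decide +kernel) ?_
    refine jn 1847 (by decide +kernel) ?_
    refine jn 1861 (by decide +kernel) ?_
    refine jn 1874 (by decide +kernel) ?_
    refine jn 1892 (by decide +kernel) ?_
    refine jn 1916 (by decide +kernel) ?_
    refine jn 1925 (by decide +kernel) ?_
    refine jn 1937 (by decide +kernel) ?_
    refine jn 1949 (by decide +kernel) ?_
    refine jn 1956 (by decide +kernel) ?_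
    refine jn 1973 (by decide +kernel) ?_
    refine jn 1988 (by decide +kernel) ?_
    refine jn 2003 (by decide +kernel) ?_
    refine jn 2021 (by decide +kernel) ?_
    refine jn 2042 (by decide +kernel) ?_
    refine jn 2061 (by decide +kernel) ?_
    refine jn 2082 (by decide +kernel) ?_
    refine jn 2168 (by decide +kernel) ?_
    refine jn 2184 (by decide +kernel) ?_
    refine jn 2209 (by decide +kernel) ?_
    refine jn 2219 (by decide +kernel) ?_
    refine jn 2239 (by decide +kernel) ?_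
    refine jn 2265 (by decide +kernel) ?_
    refine jn 2281 (by decide +kernel) ?_
    refine jn 2296 (by decide +kernel) ?_
    refine jn 2308 (by decide +kernel) ?_
    refine jn 2330 (by decide +kernel) ?_
    refine jn 2348 (by decide +kernel) ?_
    refine jn 2370 (by decide +kernel) ?_
    refine jn 2391 (by decide +kernel) ?_
    refine jn 2418 (by decide +kernel) ?_
    refine jn 2433 (by decide +kernel) ?_
    refine jn 2457 (by decide +kernel) ?_
    refine jn 2474 (by decide +kernel) ?_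
    refine jn 2504 (by decide +kernel) ?_
    refine jn 2521 (by decide +kernel) ?_
    refine jn 2542 (by decide +kernel) ?_
    refine jn 2568 (by decide +kernel) ?_
    refine jn 2585 (by decide +kernel) ?_
    refine jn 2705 (by decide +kernel) ?_
    refine jn 2731 (by decide +kernel) ?_
    refine jn 2766 (by decide +kernel) ?_
    refine jn 2803 (by decide +kernel) ?_
    refine jn 2844 (by decide +kernel) ?_
    refine jn 2876 (by decide +kernel) ?_
    refine jn 2921 (by decide +kernel) ?_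
    refine jn 2951 (by decide +kernel) ?_
    refine jn 2987 (by decide +kernel) ?_
    refine jn 3012 (by decide +kernel) ?_
    refine jn 3061 (by decide +kernel) ?_
    refine jn 3095 (by decide +kernel) ?_
    refine jn 3134 (by decide +kernel) ?_
    refine jn 3186 (by decide +kernel) ?_
    refine jn 3219 (by decide +kernel) ?_
    refine jn 3338 (by decide +kernel) ?_
    refine jn 3374 (by decide +kernel) ?_
    refine jn 3419 (by decide +kernel) ?_
    refine jn 3452 (by decide +kernel) ?_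
    refine jn 3502 (by decide +kernel) ?_
    refine jn 3545 (by decide +kernel) ?_
    refine jn 3577 (by decide +kernel) ?_
    refine jn 3630 (by decide +kernel) ?_
    refine jn 3674 (by decide +kernel) ?_
    refine jn 3718 (by decide +kernel) ?_
    refine jn 3773 (by decide +kernel) ?_
    refine jn 3803 (by decide +kernel) ?_
    refine jn 3854 (by decide +kernel) ?_
    refine jn 3896 (by decide +kernel) ?_
    refine jn 3942 (by decide +kernel) ?_
    refine jn 3986 (by decide +kernel) ?_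
    refine jn 4034 (by decide +kernel) ?_
    refine jn 4082 (by decide +kernel) ?_
    refine jn 4134 (by decide +kernel) ?_
    refine jn 4174 (by decide +kernel) ?_
    refine jn 4384 (by decide +kernel) ?_
    refine jn 4492 (by decide +kernel) ?_
    refine jn 4598 (by decide +kernel) ?_
    refine jn 4700 (by decide +kernel) ?_
    refine jn 4754 (by decide +kernel) ?_
    refine jn 4819 (by decide +kernel) ?_
    refine jn 4986 (by decide +kernel) ?_
    refine jn 5034 (by decide +kernel) ?_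
    refine jn 5098 (by decide +kernel) ?_
    refine jn 5146 (by decide +kernel) ?_
    refine jn 5196 (by decide +kernel) ?_
    refine jn 5266 (by decide +kernel) ?_
    refine jn 5306 (by decide +kernel) ?_
    refine jn 5356 (by decide +kernel) ?_
    refine jn 5396 (by decide +kernel) ?_
    refine jn 5436 (by decide +kernel) ?_
    refine jn 5482 (by decide +kernel) ?_
    refine jn 5672 (by decide +kernel) ?_
    refine jn 5728 (by decide +kernel) ?_
    refine jn 5814 (by decide +kernel) ?_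
    refine jn 5870 (by decide +kernel) ?_
    refine jn 5949 (by decide +kernel) ?_
    refine jn 6006 (by decide +kernel) ?_
    refine jn 6039 (by decide +kernel) ?_
    refine jn 6091 (by decide +kernel) ?_
    refine jn 6333 (by decide +kernel) ?_
    refine jn 6423 (by decide +kernel) ?_
    refine jn 6493 (by decide +kernel) ?_
    refine jn 6557 (by decide +kernel) ?_
    refine jn 6617 (by decide +kernel) ?_
    refine jn 6695 (by decide +kernel) ?_
    refine jn 6775 (by decide +kernel) ?_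
    refine jn 7034 (by decide +kernel) ?_
    refine jn 7273 (by decide +kernel) ?_
    exact je (by decide +kernel)
  · refine fin 15480 15045 T133_1 ?_
    refine jn 13 (by decide +kernel) ?_
    refine jn 33 (by decide +kernel) ?_
    refine jn 54 (by decide +kernel) ?_
    refine jn 63 (by decide +kernel) ?_
    refine jn 74 (by decide +kernel) ?_
    refine jn 88 (by decide +kernel) ?_
    refine jn 97 (by decide +kernel) ?_
    refine jn 114 (by decide +kernel) ?_
    refine jn 129 (by decide +kernel) ?_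
    refine jn 145 (by decide +kernel) ?_
    refine jn 157 (by decide +kernel) ?_
    refine jn 170 (by decide +kernel) ?_
    refine jn 189 (by decide +kernel) ?_
    refine jn 209 (by decide +kernel) ?_
    refine jn 216 (by decide +kernel) ?_
    refine jn 232 (by decide +kernel) ?_
    refine jn 248 (by decide +kernel) ?_
    refine jn 273 (by decide +kernel) ?_
    refine jn 281 (by decide +kernel) ?_
    refine jn 294 (by decide +kernel) ?_
    refine jn 304 (by decide +kernel) ?_
    refine jn 321 (by decide +kernel) ?_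
    refine jn 332 (by decide +kernel) ?_
    refine jn 349 (by decide +kernel) ?_
    refine jn 366 (by decide +kernel) ?_
    refine jn 389 (by decide +kernel) ?_
    refine jn 399 (by decide +kernel) ?_
    refine jn 417 (by decide +kernel) ?_
    refine jn 431 (by decide +kernel) ?_
    refine jn 438 (by decide +kernel) ?_
    refine jn 454 (by decide +kernel) ?_
    refine jn 458 (by decide +kernel) ?_
    refine jn 459 (by decide +kernel) ?_
    refine jn 482 (by decide +kernel) ?_
    refine jn 489 (by decide +kernel) ?_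
    refine jn 498 (by decide +kernel) ?_
    refine jn 509 (by decide +kernel) ?_
    refine jn 514 (by decide +kernel) ?_
    refine jn 519 (by decide +kernel) ?_
    refine jn 531 (by decide +kernel) ?_
    refine jn 547 (by decide +kernel) ?_
    refine jn 554 (by decide +kernel) ?_
    refine jn 565 (by decide +kernel) ?_
    refine jn 578 (by decide +kernel) ?_
    refine jn 579 (by decide +kernel) ?_
    refine jn 590 (by decide +kernel) ?_
    refine jn 603 (by decide +kernel) ?_
    refine jn 616 (by decide +kernel) ?_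
    refine jn 632 (by decide +kernel) ?_
    refine jn 634 (by decide +kernel) ?_
    refine jn 635 (by decide +kernel) ?_
    refine jn 642 (by decide +kernel) ?_
    refine jn 654 (by decide +kernel) ?_
    refine jn 662 (by decide +kernel) ?_
    refine jn 673 (by decide +kernel) ?_
    refine jn 696 (by decide +kernel) ?_
    refine jn 701 (by decide +kernel) ?_
    refine jn 706 (by decide +kernel) ?_
    refine jn 714 (by decide +kernel) ?_
    refine jn 722 (by decide +kernel) ?_
    refine jn 723 (by decide +kernel) ?_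
    refine jn 735 (by decide +kernel) ?_
    refine jn 746 (by decide +kernel) ?_
    refine jn 747 (by decide +kernel) ?_
    refine jn 758 (by decide +kernel) ?_
    refine jn 769 (by decide +kernel) ?_
    refine jn 783 (by decide +kernel) ?_
    refine jn 792 (by decide +kernel) ?_
    refine jn 810 (by decide +kernel) ?_
    refine jn 818 (by decide +kernel) ?_
    refine jn 821 (by decide +kernel) ?_
    refine jn 838 (by decide +kernel) ?_
    refine jn 850 (by decide +kernel) ?_
    refine jn 872 (by decide +kernel) ?_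
    refine jn 892 (by decide +kernel) ?_
    refine jn 915 (by decide +kernel) ?_
    refine jn 925 (by decide +kernel) ?_
    refine jn 942 (by decide +kernel) ?_
    refine jn 960 (by decide +kernel) ?_
    refine jn 977 (by decide +kernel) ?_
    refine jn 995 (by decide +kernel) ?_
    refine jn 1022 (by decide +kernel) ?_
    refine jn 1035 (by decide +kernel) ?_
    refine jn 1058 (by decide +kernel) ?_
    refine jn 1077 (by decide +kernel) ?_
    refine jn 1101 (by decide +kernel) ?_
    refine jn 1129 (by decide +kernel) ?_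
    refine jn 1142 (by decide +kernel) ?_
    refine jn 1158 (by decide +kernel) ?_
    refine jn 1169 (by decide +kernel) ?_
    refine jn 1188 (by decide +kernel) ?_
    refine jn 1210 (by decide +kernel) ?_
    refine jn 1224 (by decide +kernel) ?_
    refine jn 1251 (by decide +kernel) ?_
    refine jn 1256 (by decide +kernel) ?_
    refine jn 1283 (by decide +kernel) ?_
    refine jn 1302 (by decide +kernel) ?_
    refine jn 1324 (by decide +kernel) ?_
    refine jn 1350 (by decide +kernel) ?_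
    refine jn 1366 (by decide +kernel) ?_
    refine jn 1385 (by decide +kernel) ?_
    refine jn 1411 (by decide +kernel) ?_
    refine jn 1426 (by decide +kernel) ?_
    refine jn 1454 (by decide +kernel) ?_
    refine jn 1481 (by decide +kernel) ?_
    refine jn 1498 (by decide +kernel) ?_
    refine jn 1522 (by decide +kernel) ?_
    refine jn 1545 (by decide +kernel) ?_
    refine jn 1570 (by decide +kernel) ?_
    refine jn 1589 (by decide +kernel) ?_
    refine jn 1619 (by decide +kernel) ?_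
    refine jn 1635 (by decide +kernel) ?_
    refine jn 1666 (by decide +kernel) ?_
    refine jn 1685 (by decide +kernel) ?_
    refine jn 1714 (by decide +kernel) ?_
    refine jn 1740 (by decide +kernel) ?_
    refine jn 1758 (by decide +kernel) ?_
    refine jn 1781 (by decide +kernel) ?_
    refine jn 1802 (by decide +kernel) ?_
    refine jn 1823 (by decide +kernel) ?_
    refine jn 1853 (by decide +kernel) ?_
    refine jn 1865 (by decide +kernel) ?_
    refine jn 1889 (by decide +kernel) ?_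
    refine jn 1911 (by decide +kernel) ?_
    refine jn 1947 (by decide +kernel) ?_
    refine jn 1967 (by decide +kernel) ?_
    refine jn 1989 (by decide +kernel) ?_
    refine jn 2021 (by decide +kernel) ?_
    refine jn 2049 (by decide +kernel) ?_
    refine jn 2065 (by decide +kernel) ?_
    refine jn 2073 (by decide +kernel) ?_
    refine jn 2081 (by decide +kernel) ?_
    refine jn 2090 (by decide +kernel) ?_
    refine jn 2107 (by decide +kernel) ?_
    refine jn 2121 (by decide +kernel) ?_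
    refine jn 2133 (by decide +kernel) ?_
    refine jn 2161 (by decide +kernel) ?_
    refine jn 2166 (by decide +kernel) ?_
    refine jn 2177 (by decide +kernel) ?_
    refine jn 2187 (by decide +kernel) ?_
    refine jn 2199 (by decide +kernel) ?_
    refine jn 2208 (by decide +kernel) ?_
    refine jn 2225 (by decide +kernel) ?_
    refine jn 2233 (by decide +kernel) ?_
    refine jn 2241 (by decide +kernel) ?_
    refine jn 2249 (by decide +kernel) ?_
    refine jn 2267 (by decide +kernel) ?_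
    refine jn 2280 (by decide +kernel) ?_
    refine jn 2298 (by decide +kernel) ?_
    refine jn 2305 (by decide +kernel) ?_
    refine jn 2313 (by decide +kernel) ?_
    refine jn 2322 (by decide +kernel) ?_
    refine jn 2344 (by decide +kernel) ?_
    refine jn 2361 (by decide +kernel) ?_
    refine jn 2371 (by decide +kernel) ?_
    refine jn 2382 (by decide +kernel) ?_
    refine jn 2390 (by decide +kernel) ?_
    refine jn 2405 (by decide +kernel) ?_
    refine jn 2418 (by decide +kernel) ?_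
    refine jn 2433 (by decide +kernel) ?_
    refine jn 2439 (by decide +kernel) ?_
    refine jn 2458 (by decide +kernel) ?_
    refine jn 2473 (by decide +kernel) ?_
    refine jn 2485 (by decide +kernel) ?_
    refine jn 2497 (by decide +kernel) ?_
    refine jn 2519 (by decide +kernel) ?_
    refine jn 2529 (by decide +kernel) ?_
    refine jn 2543 (by decide +kernel) ?_
    refine jn 2564 (by decide +kernel) ?_
    refine jn 2592 (by decide +kernel) ?_
    refine jn 2601 (by decide +kernel) ?_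
    refine jn 2613 (by decide +kernel) ?_
    refine jn 2617 (by decide +kernel) ?_
    refine jn 2625 (by decide +kernel) ?_
    refine jn 2637 (by decide +kernel) ?_
    refine jn 2649 (by decide +kernel) ?_
    refine jn 2657 (by decide +kernel) ?_
    refine jn 2673 (by decide +kernel) ?_
    refine jn 2685 (by decide +kernel) ?_
    refine jn 2699 (by decide +kernel) ?_
    refine jn 2717 (by decide +kernel) ?_
    refine jn 2728 (by decide +kernel) ?_
    refine jn 2737 (by decide +kernel) ?_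
    refine jn 2751 (by decide +kernel) ?_
    refine jn 2770 (by decide +kernel) ?_
    refine jn 2784 (by decide +kernel) ?_
    refine jn 2806 (by decide +kernel) ?_
    refine jn 2820 (by decide +kernel) ?_
    refine jn 2837 (by decide +kernel) ?_
    refine jn 2846 (by decide +kernel) ?_
    refine jn 2863 (by decide +kernel) ?_
    refine jn 2881 (by decide +kernel) ?_
    refine jn 2890 (by decide +kernel) ?_
    refine jn 2909 (by decide +kernel) ?_
    refine jn 3123 (by decide +kernel) ?_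
    refine jn 3160 (by decide +kernel) ?_
    refine jn 3187 (by decide +kernel) ?_
    refine jn 3219 (by decide +kernel) ?_
    refine jn 3252 (by decide +kernel) ?_
    refine jn 3279 (by decide +kernel) ?_
    refine jn 3304 (by decide +kernel) ?_
    refine jn 3334 (by decide +kernel) ?_
    refine jn 3366 (by decide +kernel) ?_
    refine jn 3396 (by decide +kernel) ?_
    refine jn 3440 (by decide +kernel) ?_
    refine jn 3468 (by decide +kernel) ?_
    refine jn 3488 (by decide +kernel) ?_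
    refine jn 3516 (by decide +kernel) ?_
    refine jn 3546 (by decide +kernel) ?_
    refine jn 3573 (by decide +kernel) ?_
    refine jn 3600 (by decide +kernel) ?_
    refine jn 3639 (by decide +kernel) ?_
    refine jn 3672 (by decide +kernel) ?_
    refine jn 3693 (by decide +kernel) ?_
    refine jn 3727 (by decide +kernel) ?_
    refine jn 3752 (by decide +kernel) ?_
    refine jn 3780 (by decide +kernel) ?_
    refine jn 3812 (by decide +kernel) ?_
    refine jn 3840 (by decide +kernel) ?_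
    refine jn 3879 (by decide +kernel) ?_
    refine jn 3915 (by decide +kernel) ?_
    refine jn 3932 (by decide +kernel) ?_
    refine jn 3958 (by decide +kernel) ?_
    refine jn 3994 (by decide +kernel) ?_
    refine jn 4020 (by decide +kernel) ?_
    refine jn 4058 (by decide +kernel) ?_
    refine jn 4100 (by decide +kernel) ?_
    refine jn 4122 (by decide +kernel) ?_
    refine jn 4152 (by decide +kernel) ?_
    refine jn 4183 (by decide +kernel) ?_
    refine jn 4221 (by decide +kernel) ?_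
    refine jn 4260 (by decide +kernel) ?_
    refine jn 4296 (by decide +kernel) ?_
    refine jn 4327 (by decide +kernel) ?_
    refine jn 4553 (by decide +kernel) ?_
    refine jn 4588 (by decide +kernel) ?_
    refine jn 4617 (by decide +kernel) ?_
    refine jn 4660 (by decide +kernel) ?_
    refine jn 4695 (by decide +kernel) ?_
    refine jn 4749 (by decide +kernel) ?_
    refine jn 4767 (by decide +kernel) ?_
    refine jn 4795 (by decide +kernel) ?_
    refine jn 4829 (by decide +kernel) ?_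
    refine jn 4871 (by decide +kernel) ?_
    refine jn 4902 (by decide +kernel) ?_
    refine jn 4939 (by decide +kernel) ?_
    refine jn 4976 (by decide +kernel) ?_
    refine jn 5004 (by decide +kernel) ?_
    refine jn 5039 (by decide +kernel) ?_
    refine jn 5067 (by decide +kernel) ?_
    refine jn 5108 (by decide +kernel) ?_
    refine jn 5143 (by decide +kernel) ?_
    refine jn 5183 (by decide +kernel) ?_
    refine jn 5210 (by decide +kernel) ?_
    refine jn 5243 (by decide +kernel) ?_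
    refine jn 5287 (by decide +kernel) ?_
    refine jn 5316 (by decide +kernel) ?_
    refine jn 5354 (by decide +kernel) ?_
    refine jn 5396 (by decide +kernel) ?_
    refine jn 5424 (by decide +kernel) ?_
    refine jn 5467 (by decide +kernel) ?_
    refine jn 5505 (by decide +kernel) ?_
    refine jn 5549 (by decide +kernel) ?_
    refine jn 5600 (by decide +kernel) ?_
    refine jn 5631 (by decide +kernel) ?_
    refine jn 5655 (by decide +kernel) ?_
    refine jn 5679 (by decide +kernel) ?_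
    refine jn 5716 (by decide +kernel) ?_
    refine jn 5746 (by decide +kernel) ?_
    refine jn 5793 (by decide +kernel) ?_
    refine jn 5832 (by decide +kernel) ?_
    refine jn 5864 (by decide +kernel) ?_
    refine jn 5897 (by decide +kernel) ?_
    refine jn 5935 (by decide +kernel) ?_
    refine jn 5977 (by decide +kernel) ?_
    refine jn 6003 (by decide +kernel) ?_
    refine jn 6048 (by decide +kernel) ?_
    refine jn 6085 (by decide +kernel) ?_
    refine jn 6117 (by decide +kernel) ?_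
    refine jn 6149 (by decide +kernel) ?_
    refine jn 6192 (by decide +kernel) ?_
    refine jn 6235 (by decide +kernel) ?_
    refine jn 6489 (by decide +kernel) ?_
    refine jn 6555 (by decide +kernel) ?_
    refine jn 6615 (by decide +kernel) ?_
    refine jn 6696 (by decide +kernel) ?_
    refine jn 6765 (by decide +kernel) ?_
    refine jn 6817 (by decide +kernel) ?_
    refine jn 6863 (by decide +kernel) ?_
    refine jn 6912 (by decide +kernel) ?_
    refine jn 6975 (by decide +kernel) ?_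
    refine jn 7033 (by decide +kernel) ?_
    refine jn 7083 (by decide +kernel) ?_
    refine jn 7147 (by decide +kernel) ?_
    refine jn 7195 (by decide +kernel) ?_
    refine jn 7246 (by decide +kernel) ?_
    refine jn 7291 (by decide +kernel) ?_
    refine jn 7336 (by decide +kernel) ?_
    refine jn 7381 (by decide +kernel) ?_
    refine jn 7425 (by decide +kernel) ?_
    refine jn 7467 (by decide +kernel) ?_
    refine jn 7503 (by decide +kernel) ?_
    refine jn 7538 (by decide +kernel) ?_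
    refine jn 7794 (by decide +kernel) ?_
    refine jn 7878 (by decide +kernel) ?_
    refine jn 7962 (by decide +kernel) ?_
    refine jn 8048 (by decide +kernel) ?_
    refine jn 8093 (by decide +kernel) ?_
    refine jn 8148 (by decide +kernel) ?_
    refine jn 8191 (by decide +kernel) ?_
    refine jn 8256 (by decide +kernel) ?_
    refine jn 8316 (by decide +kernel) ?_
    refine jn 8378 (by decide +kernel) ?_
    refine jn 8418 (by decide +kernel) ?_
    refine jn 8487 (by decide +kernel) ?_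
    refine jn 8540 (by decide +kernel) ?_
    refine jn 8596 (by decide +kernel) ?_
    refine jn 8654 (by decide +kernel) ?_
    refine jn 8697 (by decide +kernel) ?_
    refine jn 8744 (by decide +kernel) ?_
    refine jn 8790 (by decide +kernel) ?_
    refine jn 9017 (by decide +kernel) ?_
    refine jn 9163 (by decide +kernel) ?_
    refine jn 9239 (by decide +kernel) ?_
    refine jn 9317 (by decide +kernel) ?_
    refine jn 9439 (by decide +kernel) ?_
    refine jn 9485 (by decide +kernel) ?_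
    refine jn 9559 (by decide +kernel) ?_
    refine jn 9635 (by decide +kernel) ?_
    refine jn 9698 (by decide +kernel) ?_
    refine jn 9775 (by decide +kernel) ?_
    refine jn 9847 (by decide +kernel) ?_
    refine jn 9919 (by decide +kernel) ?_
    refine jn 9971 (by decide +kernel) ?_
    refine jn 10016 (by decide +kernel) ?_
    refine jn 10071 (by decide +kernel) ?_
    refine jn 10124 (by decide +kernel) ?_
    refine jn 10395 (by decide +kernel) ?_
    refine jn 10461 (by decide +kernel) ?_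
    refine jn 10505 (by decide +kernel) ?_
    refine jn 10568 (by decide +kernel) ?_
    refine jn 10615 (by decide +kernel) ?_
    refine jn 10649 (by decide +kernel) ?_
    refine jn 10695 (by decide +kernel) ?_
    refine jn 10728 (by decide +kernel) ?_
    refine jn 10775 (by decide +kernel) ?_
    refine jn 10807 (by decide +kernel) ?_
    refine jn 10866 (by decide +kernel) ?_
    refine jn 10909 (by decide +kernel) ?_
    refine jn 10961 (by decide +kernel) ?_
    refine jn 10997 (by decide +kernel) ?_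
    refine jn 11036 (by decide +kernel) ?_
    refine jn 11071 (by decide +kernel) ?_
    refine jn 11109 (by decide +kernel) ?_
    refine jn 11151 (by decide +kernel) ?_
    refine jn 11207 (by decide +kernel) ?_
    refine jn 11243 (by decide +kernel) ?_
    refine jn 11283 (by decide +kernel) ?_
    refine jn 11305 (by decide +kernel) ?_
    refine jn 11333 (by decide +kernel) ?_
    refine jn 11363 (by decide +kernel) ?_
    refine jn 11391 (by decide +kernel) ?_
    refine jn 11422 (by decide +kernel) ?_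
    refine jn 11729 (by decide +kernel) ?_
    refine jn 11796 (by decide +kernel) ?_
    refine jn 11858 (by decide +kernel) ?_
    refine jn 11899 (by decide +kernel) ?_
    refine jn 11969 (by decide +kernel) ?_
    refine jn 12028 (by decide +kernel) ?_
    refine jn 12071 (by decide +kernel) ?_
    refine jn 12098 (by decide +kernel) ?_
    refine jn 12141 (by decide +kernel) ?_
    refine jn 12191 (by decide +kernel) ?_
    refine jn 12231 (by decide +kernel) ?_
    refine jn 12285 (by decide +kernel) ?_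
    refine jn 12325 (by decide +kernel) ?_
    refine jn 12377 (by decide +kernel) ?_
    refine jn 12412 (by decide +kernel) ?_
    refine jn 12474 (by decide +kernel) ?_
    refine jn 12513 (by decide +kernel) ?_
    refine jn 12561 (by decide +kernel) ?_
    refine jn 12593 (by decide +kernel) ?_
    refine jn 12615 (by decide +kernel) ?_
    refine jn 12647 (by decide +kernel) ?_
    refine jn 12683 (by decide +kernel) ?_
    refine jn 12717 (by decide +kernel) ?_
    refine jn 13089 (by decide +kernel) ?_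
    refine jn 13157 (by decide +kernel) ?_
    refine jn 13229 (by decide +kernel) ?_
    refine jn 13285 (by decide +kernel) ?_
    refine jn 13335 (by decide +kernel) ?_
    refine jn 13390 (by decide +kernel) ?_
    refine jn 13450 (by decide +kernel) ?_
    refine jn 13520 (by decide +kernel) ?_
    refine jn 13564 (by decide +kernel) ?_
    refine jn 13618 (by decide +kernel) ?_
    refine jn 13670 (by decide +kernel) ?_
    refine jn 13723 (by decide +kernel) ?_
    refine jn 13766 (by decide +kernel) ?_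
    refine jn 13820 (by decide +kernel) ?_
    refine jn 13874 (by decide +kernel) ?_
    refine jn 13920 (by decide +kernel) ?_
    refine jn 13978 (by decide +kernel) ?_
    refine jn 14446 (by decide +kernel) ?_
    refine jn 14485 (by decide +kernel) ?_
    refine jn 15040 (by decide +kernel) ?_
    exact je (by decide +kernel)
  · refine fin 264 7588 T133_2 ?_
    refine jn 5 (by decide +kernel) ?_
    refine jn 8 (by decide +kernel) ?_
    refine jn 9 (by decide +kernel) ?_
    refine jn 12 (by decide +kernel) ?_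
    refine jn 14 (by decide +kernel) ?_
    refine jn 16 (by decide +kernel) ?_
    refine jn 18 (by decide +kernel) ?_
    refine jn 20 (by decide +kernel) ?_
    refine jn 22 (by decide +kernel) ?_
    refine jn 23 (by decide +kernel) ?_
    refine jn 26 (by decide +kernel) ?_
    refine jn 28 (by decide +kernel) ?_
    refine jn 30 (by decide +kernel) ?_
    refine jn 31 (by decide +kernel) ?_
    refine jn 34 (by decide +kernel) ?_
    refine jn 38 (by decide +kernel) ?_
    refine jn 42 (by decide +kernel) ?_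
    refine jn 46 (by decide +kernel) ?_
    refine jn 50 (by decide +kernel) ?_
    refine jn 54 (by decide +kernel) ?_
    refine jn 58 (by decide +kernel) ?_
    refine jn 68 (by decide +kernel) ?_
    refine jn 89 (by decide +kernel) ?_
    refine jn 109 (by decide +kernel) ?_
    refine jn 118 (by decide +kernel) ?_
    refine jn 141 (by decide +kernel) ?_
    refine jn 155 (by decide +kernel) ?_
    refine jn 163 (by decide +kernel) ?_
    refine jn 184 (by decide +kernel) ?_
    refine jn 194 (by decide +kernel) ?_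
    refine jn 198 (by decide +kernel) ?_
    refine jn 202 (by decide +kernel) ?_
    refine jn 205 (by decide +kernel) ?_
    refine jn 209 (by decide +kernel) ?_
    refine jn 216 (by decide +kernel) ?_
    refine jn 226 (by decide +kernel) ?_
    refine jn 233 (by decide +kernel) ?_
    refine jn 240 (by decide +kernel) ?_
    refine jn 253 (by decide +kernel) ?_
    refine jn 286 (by decide +kernel) ?_
    refine jn 307 (by decide +kernel) ?_
    refine jn 314 (by decide +kernel) ?_
    refine jn 315 (by decide +kernel) ?_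
    refine jn 316 (by decide +kernel) ?_
    refine jn 317 (by decide +kernel) ?_
    refine jn 318 (by decide +kernel) ?_
    refine jn 319 (by decide +kernel) ?_
    refine jn 320 (by decide +kernel) ?_
    refine jn 321 (by decide +kernel) ?_
    refine jn 322 (by decide +kernel) ?_
    refine jn 323 (by decide +kernel) ?_
    refine jn 324 (by decide +kernel) ?_
    refine jn 325 (by decide +kernel) ?_
    refine jn 326 (by decide +kernel) ?_
    refine jn 329 (by decide +kernel) ?_
    refine jn 332 (by decide +kernel) ?_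
    refine jn 335 (by decide +kernel) ?_
    refine jn 338 (by decide +kernel) ?_
    refine jn 345 (by decide +kernel) ?_
    refine jn 349 (by decide +kernel) ?_
    refine jn 353 (by decide +kernel) ?_
    refine jn 364 (by decide +kernel) ?_
    refine jn 393 (by decide +kernel) ?_
    refine jn 400 (by decide +kernel) ?_
    refine jn 401 (by decide +kernel) ?_
    refine jn 403 (by decide +kernel) ?_
    refine jn 405 (by decide +kernel) ?_
    refine jn 406 (by decide +kernel) ?_
    refine jn 407 (by decide +kernel) ?_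
    refine jn 411 (by decide +kernel) ?_
    refine jn 414 (by decide +kernel) ?_
    refine jn 421 (by decide +kernel) ?_
    refine jn 431 (by decide +kernel) ?_
    refine jn 438 (by decide +kernel) ?_
    refine jn 451 (by decide +kernel) ?_
    refine jn 458 (by decide +kernel) ?_
    refine jn 461 (by decide +kernel) ?_
    refine jn 462 (by decide +kernel) ?_
    refine jn 463 (by decide +kernel) ?_
    refine jn 464 (by decide +kernel) ?_
    refine jn 465 (by decide +kernel) ?_
    refine jn 466 (by decide +kernel) ?_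
    refine jn 467 (by decide +kernel) ?_
    refine jn 468 (by decide +kernel) ?_
    refine jn 475 (by decide +kernel) ?_
    refine jn 487 (by decide +kernel) ?_
    refine jn 501 (by decide +kernel) ?_
    refine jn 502 (by decide +kernel) ?_
    refine jn 505 (by decide +kernel) ?_
    refine jn 508 (by decide +kernel) ?_
    refine jn 509 (by decide +kernel) ?_
    refine jn 512 (by decide +kernel) ?_
    refine jn 518 (by decide +kernel) ?_
    refine jn 528 (by decide +kernel) ?_
    refine jn 549 (by decide +kernel) ?_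
    refine jn 565 (by decide +kernel) ?_
    refine jn 568 (by decide +kernel) ?_
    refine jn 574 (by decide +kernel) ?_
    refine jn 585 (by decide +kernel) ?_
    refine jn 589 (by decide +kernel) ?_
    refine jn 597 (by decide +kernel) ?_
    refine jn 608 (by decide +kernel) ?_
    refine jn 615 (by decide +kernel) ?_
    refine jn 620 (by decide +kernel) ?_
    refine jn 634 (by decide +kernel) ?_
    refine jn 639 (by decide +kernel) ?_
    refine jn 650 (by decide +kernel) ?_
    refine jn 655 (by decide +kernel) ?_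
    refine jn 669 (by decide +kernel) ?_
    refine jn 681 (by decide +kernel) ?_
    refine jn 685 (by decide +kernel) ?_
    refine jn 699 (by decide +kernel) ?_
    refine jn 711 (by decide +kernel) ?_
    refine jn 720 (by decide +kernel) ?_
    refine jn 721 (by decide +kernel) ?_
    refine jn 722 (by decide +kernel) ?_
    refine jn 723 (by decide +kernel) ?_
    refine jn 727 (by decide +kernel) ?_
    refine jn 731 (by decide +kernel) ?_
    refine jn 739 (by decide +kernel) ?_
    refine jn 742 (by decide +kernel) ?_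
    refine jn 745 (by decide +kernel) ?_
    refine jn 757 (by decide +kernel) ?_
    refine jn 772 (by decide +kernel) ?_
    refine jn 787 (by decide +kernel) ?_
    refine jn 799 (by decide +kernel) ?_
    refine jn 801 (by decide +kernel) ?_
    refine jn 804 (by decide +kernel) ?_
    refine jn 818 (by decide +kernel) ?_
    refine jn 831 (by decide +kernel) ?_
    refine jn 843 (by decide +kernel) ?_
    refine jn 860 (by decide +kernel) ?_
    refine jn 871 (by decide +kernel) ?_
    refine jn 882 (by decide +kernel) ?_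
    refine jn 894 (by decide +kernel) ?_
    refine jn 896 (by decide +kernel) ?_
    refine jn 914 (by decide +kernel) ?_
    refine jn 931 (by decide +kernel) ?_
    refine jn 947 (by decide +kernel) ?_
    refine jn 956 (by decide +kernel) ?_
    refine jn 973 (by decide +kernel) ?_
    refine jn 990 (by decide +kernel) ?_
    refine jn 1006 (by decide +kernel) ?_
    refine jn 1021 (by decide +kernel) ?_
    refine jn 1031 (by decide +kernel) ?_
    refine jn 1039 (by decide +kernel) ?_
    refine jn 1057 (by decide +kernel) ?_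
    refine jn 1071 (by decide +kernel) ?_
    refine jn 1072 (by decide +kernel) ?_
    refine jn 1080 (by decide +kernel) ?_
    refine jn 1120 (by decide +kernel) ?_
    refine jn 1184 (by decide +kernel) ?_
    refine jn 1252 (by decide +kernel) ?_
    refine jn 1316 (by decide +kernel) ?_
    refine jn 1351 (by decide +kernel) ?_
    refine jn 1360 (by decide +kernel) ?_
    refine jn 1372 (by decide +kernel) ?_
    refine jn 1376 (by decide +kernel) ?_
    refine jn 1384 (by decide +kernel) ?_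
    refine jn 1405 (by decide +kernel) ?_
    refine jn 1424 (by decide +kernel) ?_
    refine jn 1439 (by decide +kernel) ?_
    refine jn 1456 (by decide +kernel) ?_
    refine jn 1460 (by decide +kernel) ?_
    refine jn 1480 (by decide +kernel) ?_
    refine jn 1496 (by decide +kernel) ?_
    refine jn 1511 (by decide +kernel) ?_
    refine jn 1531 (by decide +kernel) ?_
    refine jn 1543 (by decide +kernel) ?_
    refine jn 1552 (by decide +kernel) ?_
    refine jn 1571 (by decide +kernel) ?_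
    refine jn 1595 (by decide +kernel) ?_
    refine jn 1652 (by decide +kernel) ?_
    refine jn 1703 (by decide +kernel) ?_
    refine jn 1791 (by decide +kernel) ?_
    refine jn 1833 (by decide +kernel) ?_
    refine jn 1841 (by decide +kernel) ?_
    refine jn 1853 (by decide +kernel) ?_
    refine jn 1866 (by decide +kernel) ?_
    refine jn 1889 (by decide +kernel) ?_
    refine jn 1908 (by decide +kernel) ?_
    refine jn 1909 (by decide +kernel) ?_
    refine jn 1929 (by decide +kernel) ?_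
    refine jn 1941 (by decide +kernel) ?_
    refine jn 1956 (by decide +kernel) ?_
    refine jn 1977 (by decide +kernel) ?_
    refine jn 2001 (by decide +kernel) ?_
    refine jn 2018 (by decide +kernel) ?_
    refine jn 2053 (by decide +kernel) ?_
    refine jn 2116 (by decide +kernel) ?_
    refine jn 2172 (by decide +kernel) ?_
    refine jn 2229 (by decide +kernel) ?_
    refine jn 2286 (by decide +kernel) ?_
    refine jn 2347 (by decide +kernel) ?_
    refine jn 2421 (by decide +kernel) ?_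
    refine jn 2491 (by decide +kernel) ?_
    refine jn 2520 (by decide +kernel) ?_
    refine jn 2553 (by decide +kernel) ?_
    refine jn 2623 (by decide +kernel) ?_
    refine jn 2688 (by decide +kernel) ?_
    refine jn 2755 (by decide +kernel) ?_
    refine jn 2850 (by decide +kernel) ?_
    refine jn 2922 (by decide +kernel) ?_
    refine jn 3043 (by decide +kernel) ?_
    refine jn 3172 (by decide +kernel) ?_
    refine jn 3274 (by decide +kernel) ?_
    refine jn 3484 (by decide +kernel) ?_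
    refine jn 3584 (by decide +kernel) ?_
    refine jn 3719 (by decide +kernel) ?_
    refine jn 3848 (by decide +kernel) ?_
    refine jn 3987 (by decide +kernel) ?_
    refine jn 4115 (by decide +kernel) ?_
    refine jn 4265 (by decide +kernel) ?_
    refine jn 4612 (by decide +kernel) ?_
    refine jn 4805 (by decide +kernel) ?_
    refine jn 4942 (by decide +kernel) ?_
    refine jn 5240 (by decide +kernel) ?_
    refine jn 5400 (by decide +kernel) ?_
    refine jn 5523 (by decide +kernel) ?_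
    refine jn 5610 (by decide +kernel) ?_
    refine jn 5958 (by decide +kernel) ?_
    refine jn 6158 (by decide +kernel) ?_
    refine jn 6284 (by decide +kernel) ?_
    refine jn 6769 (by decide +kernel) ?_
    refine jn 6936 (by decide +kernel) ?_
    exact je (by decide +kernel)

end Pool.Agent.MP_2339ce_nt.NR
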