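import Pool.Agent.MP_2339ce_nt.Q2.NC.L9
import Pool.Agent.MP_2339ce_nt.Q2.NC.L10
import Pool.Agent.MP_2339ce_nt.Q2.CkI

/-! Block NR: runs. -/

set_option autoImplicit false
set_option maxRecDepth 100000

noncomputable section

namespace Pool.Agent.MP_2339ce_nt.NR

open Q2.Top

def T18_0 : Ph :=
  (.na 689 3 (.na 379 2 (.nx 378 2097153 (.nr 377 881745 (.nx 341 1048577 (.nx 3 189 (.nx 2 188
  (.nr 1 14 (.lg 0 false 1 41 41 5 0 23688) (.l1 .sk)) (.l1 .sk)) (.nx 117 32769 (.nr 68 131073
  (.lg 0 false 65 107 109 16 0 33873840) (.nx 116 8193 (.nx 100 4096 (.nx 99 324 (.nr 83 311745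
  (.lg 0 false 15 83 83 9 0 118440) (.nx 98 257 (.lg 0 false 15 79 79 9 0 16920) .out)) .out) (.nr
  115 155873 (.lg 0 false 15 97 101 9 0 236880) .out)) .out)) (.nr 340 110219 (.nr 195 1724 (.nr
  182 901 (.lg 0 true 65 97 101 16 0 1539720) (.lg 2 true 13 97 97 9 109397 307944)) (.nx 339
  832257 (.nx 260 52017 (.lg 1 false 65 101 109 16 59543 33873840) (.nr 338 77937 (.nr 273 3160
  (.lg 2 true 13 97 97 9 45379 307944) (.lg 2 false 65 103 109 16 26543 33873840)) .out)) .out))
  .out))) (.nr 376 129 (.lg 0 true 35 83 89 13 0 118440) .out)) .out) .out) (.nx 688 3329023 (.nr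
  687 623489 (.nx 672 2097153 (.nx 382 189 (.nx 381 188 (.nr 380 26 (.lg 0 true 1 41 41 5 0 6768)
  (.l1 .sk)) (.l1 .sk)) (.nx 449 23450 (.nr 421 185365 (.lg 0 false 39 103 109 13 0 33873840) (.nx
  434 324 (.lg 0 false 13 83 83 9 0 87984) (.nx 435 16384 .out (.nr 448 220437 (.lg 0 false 13 101
  103 9 0 3079440) .out)))) (.nr 671 220437 (.nr 515 1025 (.nx 488 1048577 (.lg 0 true 39 97 101 13
  0 3079440) (.nr 514 129 (.lg 0 true 26 83 83 11 0 87984) .out)) (.nx 670 832257 (.nx 554 41287
  (.lg 1 false 39 103 109 13 166268 33873840) (.nr 669 155873 (.nx 580 58387 (.lg 1 false 26 103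
  109 11 66800 33873840) (.nx 593 82572 (.lg 1 false 13 107 109 9 47236 33873840) (.nr 668 131073
  (.nr 606 3446 (.lg 2 true 13 101 101 9 76325 3079440) (.nx 667 524289 (.nr 640 77937 (.nr 626
  38969 (.nr 613 6051 (.lg 2 true 7 89 89 9 14302 236880) (.lg 2 false 13 101 103 9 8381 3079440))
  (.nx 639 262145 (.lg 2 false 13 103 107 9 16721 33873840) .out)) (.nx 666 208065 (.lg 2 false 26
  103 107 11 28093 33873840) .out)) .out)) .out))) .out)) .out)) .out))) (.nr 686 9 (.lg 0 true 14
  71 71 9 0 47376) .out)) .out) .out)) (.na 913 4 (.nx 912 6658044 (.nr 911 1482912 (.nx 877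
  1321124 (.nx 865 660563 (.nx 692 189 (.nx 691 188 (.nr 690 37 (.lg 0 true 1 37 37 5 0 16920) (.l1
  .sk)) (.l1 .sk)) (.nx 738 24064 (.nr 714 131073 (.lg 0 false 22 103 109 16 0 33873840) (.nx 725
  324 (.lg 0 false 11 83 83 16 0 37224) (.nx 726 6501 .out (.nr 737 185365 (.lg 0 false 11 103 109
  16 0 33873840) .out)))) (.nr 864 220437 (.nr 749 748 (.lg 0 true 11 89 89 16 0 37224) (.nx 863
  524289 (.nr 756 3167 (.lg 2 true 7 89 97 13 65887 118440) (.nx 790 52017 (.nx 768 32768 (.nr 767
  185365 (.lg 1 false 11 107 109 16 136269 33873840) .out) (.nx 779 41285 (.lg 1 false 11 103 107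
  16 118987 33873840) (.lg 1 false 11 103 109 16 94440 33873840))) (.nr 862 185365 (.nr 797 13397
  (.lg 2 true 7 89 97 13 15562 118440) (.nx 854 208065 (.nx 830 131073 (.nx 808 70783 (.lg 1 false
  11 107 109 16 63040 33873840) (.nx 819 96321 (.lg 1 false 11 107 109 16 46327 33873840) (.lg 1
  true 11 107 109 16 34044 33873840))) (.nr 853 155873 (.nx 841 165142 (.lg 1 true 11 103 107 16
  21042 33873840) (.nr 852 92683 (.lg 1 true 11 103 109 16 9939 33873840) .out)) .out)) (.nr 861
  38969 (.lg 2 false 7 89 97 13 3679 118440) .out))) .out))) .out)) .out))) (.nr 876 129 (.lg 0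
  true 11 83 83 16 0 186120) .out)) (.nr 910 33 (.lg 0 true 33 79 83 16 0 186120) .out)) .out)
  .out) (.nx 1149 16777217 (.nr 1148 1246976 (.nx 915 188 (.nr 914 47 (.lg 0 true 1 31 31 9 0 6768)
  (.l1 .sk)) (.nx 916 189 (.l1 .sk) (.nr 981 47 (.lg 0 true 65 83 89 13 0 439920) (.nx 1147 2097153
  (.nx 1042 47226 (.nr 1031 185365 (.nx 1016 34032 (.lg 0 false 35 101 109 19 0 33873840) (.lg 1
  false 15 101 107 13 96355 2605680)) (.nx 1041 324 (.lg 0 false 10 83 83 13 0 33840) .out)) (.nr
  1146 220437 (.nx 1130 524289 (.nr 1057 2909 (.nr 1052 729 (.lg 0 true 10 89 89 13 0 33840) (.lg 2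
  true 5 97 97 11 67604 33840)) (.nr 1062 11603 (.lg 2 true 5 97 97 11 16942 33840) (.nx 1124
  208065 (.nx 1078 65536 (.nr 1077 185365 (.lg 1 false 15 101 109 13 69435 33873840) .out) (.nx
  1108 131073 (.nx 1093 92682 (.lg 1 false 15 103 109 13 59493 33873840) (.lg 1 false 15 103 109 13
  42068 33873840)) (.nr 1123 155873 (.lg 1 true 15 103 109 13 21042 33873840) .out))) (.nr 1129
  55110 (.lg 2 false 5 97 101 11 4697 33840) .out)))) (.nr 1145 183 (.lg 0 true 15 79 83 13 0
  33840) .out)) .out)) .out)))) .out) .out)))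

def T18_1 : Ph :=
  (.na 654 8 (.na 269 6 (.na 268 5 (.nx 267 21137969 (.nr 266 1246976 (.nx 3 253 (.nx 2 252 (.nr 1
  54 (.lg 0 true 1 41 41 9 0 5040) (.l1 .sk)) (.l1 .sk)) (.nx 68 43664 (.nr 29 185365 (.lg 0 false
  26 101 107 17 0 720720) (.nr 54 262145 (.nx 34 1292 (.lg 0 false 5 83 89 11 0 5040) (.nx 35 13003
  .out (.nx 41 20642 (.nr 40 220437 (.lg 0 false 5 89 97 11 0 5040) .out) (.lg 0 false 13 101 107
  13 0 720720)))) (.nx 67 408 (.lg 0 false 13 83 89 13 0 65520) .out))) (.nr 265 311745 (.nx 205
  2642247 (.nx 191 660563 (.nr 86 2912 (.nr 81 730 (.lg 0 true 13 89 89 13 0 13104) (.lg 2 true 5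
  97 97 11 114015 5040)) (.nr 91 11616 (.lg 2 true 5 97 97 11 28583 5040) (.nx 171 262145 (.nx 118
  82570 (.nr 117 262145 (.nx 104 60044 (.lg 1 false 13 103 107 13 190815 720720) (.lg 1 false 13
  103 107 13 138760 720720)) .out) (.nx 157 208065 (.nx 131 112360 (.lg 1 false 13 103 107 13
  119979 720720) (.nx 144 152899 (.lg 1 false 13 103 107 13 88169 720720) (.lg 1 false 13 103 107
  13 64792 720720))) (.nr 170 185365 (.lg 1 true 13 101 103 13 28327 720720) .out))) (.nr 190
  131073 (.nx 184 330282 (.lg 1 true 13 101 107 13 15907 720720) (.nr 189 46342 (.lg 2 false 5 97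
  97 11 7166 5040) .out)) .out)))) (.nr 204 183 (.lg 0 true 13 89 89 13 0 13104) .out)) (.nr 264 21
  (.nx 231 10568985 (.lg 0 true 26 79 79 11 0 13104) (.lg 0 true 33 83 83 11 0 55440)) .out))
  .out))) .out) .out) .ne) (.na 477 7 (.nx 476 21137969 (.nr 475 1048577 (.nx 408 1321124 (.nx 272
  253 (.nx 271 252 (.nr 270 78 (.lg 0 true 1 41 41 7 0 55440) (.l1 .sk)) (.l1 .sk)) (.nx 299 52015
  (.nr 285 220437 (.lg 0 false 13 103 107 13 0 720720) (.nx 298 814 (.lg 0 false 13 83 83 13 0
  13104) .out)) (.nr 407 311745 (.nr 312 941 (.lg 0 true 13 89 89 13 0 13104) (.nx 406 832257 (.nr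
  325 6606 (.lg 2 true 13 89 97 13 111440 720720) (.nx 392 262145 (.nx 339 82570 (.nr 338 262145
  (.lg 1 false 13 101 103 13 160179 720720) .out) (.nx 352 112360 (.lg 1 false 13 101 103 13 119979
  720720) (.nx 365 152899 (.lg 1 false 13 101 103 13 88169 720720) (.nx 378 208065 (.lg 1 false 13
  101 103 13 64792 720720) (.nr 391 262145 (.lg 1 true 13 97 103 13 40044 720720) .out))))) (.nr
  405 131073 (.lg 2 false 13 97 101 13 15907 720720) .out))) .out)) .out))) (.nr 474 154 (.nr 460
  78 (.lg 0 true 52 83 83 13 0 13104) (.nx 473 2642247 (.lg 0 true 13 71 71 13 0 13104) .out))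
  .out)) .out) .out) (.nx 653 21137969 (.nr 652 1246976 (.nx 481 324 (.nx 479 252 (.nr 478 89 (.lg
  0 true 1 31 31 9 0 504) (.l1 .sk)) (.nx 480 253 (.l1 .sk) (.l1 (.ls 83 41 5855)))) (.nr 651
  741457 (.nx 532 82570 (.nr 521 262145 (.lg 0 false 40 89 103 16 0 55440) (.nx 531 814 (.lg 0
  false 10 73 73 16 0 5040) .out)) (.nr 650 311745 (.nr 583 642 (.nx 547 2642247 (.lg 0 true 15 79
  79 16 0 2520) (.nr 582 47 (.lg 0 true 35 71 71 11 0 2520) .out)) (.nx 649 832257 (.nx 596 121356
  (.lg 1 false 13 97 101 16 119979 144144) (.nr 609 5950 (.lg 2 true 13 79 83 16 163341 6552) (.nx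
  622 178361 (.lg 1 false 13 97 101 16 81633 144144) (.nx 635 262145 (.lg 1 true 13 97 101 16 55543
  144144) (.nr 648 155873 (.lg 2 false 13 83 89 16 18911 6552) .out))))) .out)) .out)) .out)) .out)
  .out))) (.na 981 10 (.na 829 9 (.nx 828 21137969 (.nr 827 1482912 (.nx 791 2642247 (.nx 780
  1321124 (.nx 656 252 (.nr 655 100 (.lg 0 true 1 31 31 9 0 1008) (.l1 .sk)) (.nx 657 253 (.l1 .sk)
  (.nr 769 370729 (.nx 682 46340 (.nr 670 220437 (.lg 0 false 13 101 103 13 0 144144) (.nx 675 2582
  (.lg 0 false 5 83 89 13 0 5040) (.nx 676 32768 .out (.nr 681 262145 (.lg 0 false 5 89 89 13 0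
  5040) .out)))) (.nr 768 311745 (.nr 695 1227 (.lg 0 true 13 83 89 13 0 13104) (.nr 700 4896 (.lg
  2 true 5 89 89 13 135666 5040) (.nx 711 65536 (.nr 710 262145 (.lg 1 false 10 89 101 13 179796
  5040) .out) (.nr 716 19534 (.lg 2 true 5 89 89 13 34000 5040) (.nx 762 330282 (.nx 756 262145
  (.nx 746 185364 (.nx 726 92681 (.lg 1 false 10 97 101 13 151163 55440) (.nx 736 131072 (.lg 1
  false 10 97 103 13 106890 55440) (.lg 1 false 10 97 103 13 75582 55440))) (.lg 1 true 10 97 103
  13 53444 55440)) (.nr 761 185365 (.lg 1 true 5 97 97 13 22483 5040) .out)) (.nr 767 110219 (.lg 2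
  false 5 89 97 13 10621 5040) .out)))))) .out)) (.nx 779 814 (.lg 0 false 10 83 83 13 0 5040)
  .out)))) (.nr 790 154 (.lg 0 true 10 73 73 13 0 5040) .out)) (.nr 826 55 (.lg 0 true 35 79 79 13
  0 5040) .out)) .out) .out) (.nx 980 21137969 (.nr 979 1482912 (.nx 946 1321124 (.nx 832 253 (.nx
  831 252 (.nr 830 112 (.lg 0 true 1 37 37 13 0 2520) (.l1 .sk)) (.l1 .sk)) (.nr 936 370729 (.nx
  849 52015 (.nr 845 262145 (.lg 0 false 13 103 107 17 0 720720) (.nx 848 2582 (.lg 0 false 3 83 89
  16 0 2520) .out)) (.nr 862 1227 (.lg 0 true 13 83 89 17 0 32760) (.nx 889 131072 (.nr 888 311745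
  (.nx 875 96319 (.lg 1 false 13 101 107 17 190458 720720) (.lg 1 false 13 97 107 17 102852
  720720)) .out) (.nr 894 4896 (.lg 2 true 5 83 89 16 135666 2520) (.nx 907 185364 (.lg 1 false 13
  101 107 17 89870 720720) (.nr 909 9779 (.lg 2 true 2 89 97 16 34000 5040) (.nx 922 262145 (.lg 1
  true 13 97 107 17 63548 720720) (.nr 935 185365 (.lg 2 false 13 97 107 17 22483 720720)
  .out)))))))) (.nx 945 814 (.nr 941 1048577 (.lg 0 false 5 83 83 16 0 2520) (.nx 944 324 (.lg 0
  false 3 71 71 16 0 504) .out)) .out))) (.nr 978 154 (.nr 972 65 (.lg 0 true 26 83 83 16 0 13104)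
  (.nx 977 2642247 (.lg 0 true 5 73 73 16 0 2520) .out)) .out)) .out) .out)) (.na 982 11 .ne (.nx
  1077 2642247 (.nr 1076 1246976 (.nx 1008 65536 (.nx 984 252 (.nr 983 134 (.lg 0 true 1 37 37 9 0
  27720) (.l1 .sk)) (.nx 985 253 (.l1 .sk) (.nx 988 408 (.nx 986 324 (.l1 (.ls 89 37 3727)) (.nr
  987 1048577 (.l1 (.ls 89 41 5592)) .out)) (.nr 1007 741457 (.nr 1001 262145 (.lg 0 false 13 101
  107 16 0 720720) (.nx 1006 1292 (.lg 0 false 5 83 83 16 0 27720) .out)) .out)))) (.nr 1075 311745
  (.nx 1069 1321124 (.nr 1021 1118 (.lg 0 true 13 83 89 16 0 360360) (.nx 1034 131072 (.lg 1 false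
  13 101 107 16 151163 720720) (.nr 1039 4602 (.lg 2 true 5 83 89 16 148893 27720) (.nr 1044 18939
  (.lg 2 true 5 83 89 16 36172 27720) (.nx 1063 330282 (.nx 1057 262145 (.lg 1 true 13 101 107 16
  75582 720720) (.nr 1062 185365 (.lg 1 true 5 97 101 16 22483 55440) .out)) (.nr 1068 110219 (.lg
  2 false 5 89 97 16 10621 27720) .out)))))) (.nr 1074 65 (.lg 0 true 5 71 71 16 0 27720) .out))
  .out)) .out) .out))))

theorem c18 :
    OkQ ckI L9 188 1 5 0 34359738368 1 1099511627776 ∧
    OkQ ckI L10 252 4 12 0 34359738368 1 1099511627776 := by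
  refine ⟨?_, ?_⟩
  · refine fin 3384 1150 T18_0 ?_
    refine jn 9 (by decide +kernel) ?_
    refine jn 11 (by decide +kernel) ?_
    refine jn 16 (by decide +kernel) ?_
    refine jn 21 (by decide +kernel) ?_
    refine jn 25 (by decide +kernel) ?_
    refine jn 30 (by decide +kernel) ?_
    refine jn 35 (by decide +kernel) ?_
    refine jn 36 (by decide +kernel) ?_
    refine jn 41 (by decide +kernel) ?_
    refine jn 46 (by decide +kernel) ?_
    refine jn 50 (by decide +kernel) ?_
    refine jn 55 (by decide +kernel) ?_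
    refine jn 60 (by decide +kernel) ?_
    refine jn 62 (by decide +kernel) ?_
    refine jn 68 (by decide +kernel) ?_
    refine jn 98 (by decide +kernel) ?_
    refine jn 123 (by decide +kernel) ?_
    refine jn 134 (by decide +kernel) ?_
    refine jn 144 (by decide +kernel) ?_
    refine jn 155 (by decide +kernel) ?_
    refine jn 165 (by decide +kernel) ?_
    refine jn 175 (by decide +kernel) ?_
    refine jn 182 (by decide +kernel) ?_
    refine jn 195 (by decide +kernel) ?_
    refine jn 220 (by decide +kernel) ?_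
    refine jn 243 (by decide +kernel) ?_
    refine jn 260 (by decide +kernel) ?_
    refine jn 273 (by decide +kernel) ?_
    refine jn 290 (by decide +kernel) ?_
    refine jn 307 (by decide +kernel) ?_
    refine jn 324 (by decide +kernel) ?_
    refine jn 338 (by decide +kernel) ?_
    refine jn 364 (by decide +kernel) ?_
    refine jn 376 (by decide +kernel) ?_
    refine jn 389 (by decide +kernel) ?_
    refine jn 395 (by decide +kernel) ?_
    refine jn 402 (by decide +kernel) ?_
    refine jn 409 (by decide +kernel) ?_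
    refine jn 416 (by decide +kernel) ?_
    refine jn 421 (by decide +kernel) ?_
    refine jn 448 (by decide +kernel) ?_
    refine jn 460 (by decide +kernel) ?_
    refine jn 472 (by decide +kernel) ?_
    refine jn 483 (by decide +kernel) ?_
    refine jn 496 (by decide +kernel) ?_
    refine jn 514 (by decide +kernel) ?_
    refine jn 538 (by decide +kernel) ?_
    refine jn 554 (by decide +kernel) ?_
    refine jn 580 (by decide +kernel) ?_
    refine jn 593 (by decide +kernel) ?_
    refine jn 613 (by decide +kernel) ?_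
    refine jn 639 (by decide +kernel) ?_
    refine jn 665 (by decide +kernel) ?_
    refine jn 686 (by decide +kernel) ?_
    refine jn 692 (by decide +kernel) ?_
    refine jn 693 (by decide +kernel) ?_
    refine jn 695 (by decide +kernel) ?_
    refine jn 696 (by decide +kernel) ?_
    refine jn 698 (by decide +kernel) ?_
    refine jn 699 (by decide +kernel) ?_
    refine jn 700 (by decide +kernel) ?_
    refine jn 702 (by decide +kernel) ?_
    refine jn 703 (by decide +kernel) ?_
    refine jn 704 (by decide +kernel) ?_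
    refine jn 706 (by decide +kernel) ?_
    refine jn 707 (by decide +kernel) ?_
    refine jn 709 (by decide +kernel) ?_
    refine jn 710 (by decide +kernel) ?_
    refine jn 711 (by decide +kernel) ?_
    refine jn 713 (by decide +kernel) ?_
    refine jn 725 (by decide +kernel) ?_
    refine jn 735 (by decide +kernel) ?_
    refine jn 739 (by decide +kernel) ?_
    refine jn 740 (by decide +kernel) ?_
    refine jn 741 (by decide +kernel) ?_
    refine jn 743 (by decide +kernel) ?_
    refine jn 745 (by decide +kernel) ?_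
    refine jn 747 (by decide +kernel) ?_
    refine jn 749 (by decide +kernel) ?_
    refine jn 756 (by decide +kernel) ?_
    refine jn 763 (by decide +kernel) ?_
    refine jn 768 (by decide +kernel) ?_
    refine jn 777 (by decide +kernel) ?_
    refine jn 785 (by decide +kernel) ?_
    refine jn 790 (by decide +kernel) ?_
    refine jn 797 (by decide +kernel) ?_
    refine jn 804 (by decide +kernel) ?_
    refine jn 808 (by decide +kernel) ?_
    refine jn 815 (by decide +kernel) ?_
    refine jn 819 (by decide +kernel) ?_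
    refine jn 826 (by decide +kernel) ?_
    refine jn 830 (by decide +kernel) ?_
    refine jn 841 (by decide +kernel) ?_
    refine jn 852 (by decide +kernel) ?_
    refine jn 861 (by decide +kernel) ?_
    refine jn 872 (by decide +kernel) ?_
    refine jn 876 (by decide +kernel) ?_
    refine jn 877 (by decide +kernel) ?_
    refine jn 884 (by decide +kernel) ?_
    refine jn 910 (by decide +kernel) ?_
    refine jn 916 (by decide +kernel) ?_
    refine jn 918 (by decide +kernel) ?_
    refine jn 921 (by decide +kernel) ?_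
    refine jn 923 (by decide +kernel) ?_
    refine jn 925 (by decide +kernel) ?_
    refine jn 981 (by decide +kernel) ?_
    refine jn 986 (by decide +kernel) ?_
    refine jn 991 (by decide +kernel) ?_
    refine jn 996 (by decide +kernel) ?_
    refine jn 1000 (by decide +kernel) ?_
    refine jn 1004 (by decide +kernel) ?_
    refine jn 1009 (by decide +kernel) ?_
    refine jn 1014 (by decide +kernel) ?_
    refine jn 1016 (by decide +kernel) ?_
    refine jn 1028 (by decide +kernel) ?_
    refine jn 1041 (by decide +kernel) ?_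
    refine jn 1048 (by decide +kernel) ?_
    refine jn 1052 (by decide +kernel) ?_
    refine jn 1057 (by decide +kernel) ?_
    refine jn 1062 (by decide +kernel) ?_
    refine jn 1076 (by decide +kernel) ?_
    refine jn 1087 (by decide +kernel) ?_
    refine jn 1093 (by decide +kernel) ?_
    refine jn 1107 (by decide +kernel) ?_
    refine jn 1117 (by decide +kernel) ?_
    refine jn 1123 (by decide +kernel) ?_
    refine jn 1130 (by decide +kernel) ?_
    refine jn 1145 (by decide +kernel) ?_
    exact je (by decide +kernel)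
  · refine fin 504 1078 T18_1 ?_
    refine jn 5 (by decide +kernel) ?_
    refine jn 6 (by decide +kernel) ?_
    refine jn 7 (by decide +kernel) ?_
    refine jn 9 (by decide +kernel) ?_
    refine jn 11 (by decide +kernel) ?_
    refine jn 13 (by decide +kernel) ?_
    refine jn 15 (by decide +kernel) ?_
    refine jn 17 (by decide +kernel) ?_
    refine jn 19 (by decide +kernel) ?_
    refine jn 20 (by decide +kernel) ?_
    refine jn 22 (by decide +kernel) ?_
    refine jn 24 (by decide +kernel) ?_
    refine jn 26 (by decide +kernel) ?_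
    refine jn 28 (by decide +kernel) ?_
    refine jn 34 (by decide +kernel) ?_
    refine jn 41 (by decide +kernel) ?_
    refine jn 52 (by decide +kernel) ?_
    refine jn 67 (by decide +kernel) ?_
    refine jn 71 (by decide +kernel) ?_
    refine jn 74 (by decide +kernel) ?_
    refine jn 77 (by decide +kernel) ?_
    refine jn 80 (by decide +kernel) ?_
    refine jn 81 (by decide +kernel) ?_
    refine jn 86 (by decide +kernel) ?_
    refine jn 91 (by decide +kernel) ?_
    refine jn 97 (by decide +kernel) ?_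
    refine jn 103 (by decide +kernel) ?_
    refine jn 108 (by decide +kernel) ?_
    refine jn 114 (by decide +kernel) ?_
    refine jn 120 (by decide +kernel) ?_
    refine jn 124 (by decide +kernel) ?_
    refine jn 129 (by decide +kernel) ?_
    refine jn 134 (by decide +kernel) ?_
    refine jn 139 (by decide +kernel) ?_
    refine jn 144 (by decide +kernel) ?_
    refine jn 148 (by decide +kernel) ?_
    refine jn 153 (by decide +kernel) ?_
    refine jn 157 (by decide +kernel) ?_
    refine jn 169 (by decide +kernel) ?_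
    refine jn 171 (by decide +kernel) ?_
    refine jn 184 (by decide +kernel) ?_
    refine jn 191 (by decide +kernel) ?_
    refine jn 201 (by decide +kernel) ?_
    refine jn 204 (by decide +kernel) ?_
    refine jn 231 (by decide +kernel) ?_
    refine jn 264 (by decide +kernel) ?_
    refine jn 281 (by decide +kernel) ?_
    refine jn 298 (by decide +kernel) ?_
    refine jn 312 (by decide +kernel) ?_
    refine jn 338 (by decide +kernel) ?_
    refine jn 365 (by decide +kernel) ?_
    refine jn 391 (by decide +kernel) ?_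
    refine jn 460 (by decide +kernel) ?_
    refine jn 480 (by decide +kernel) ?_
    refine jn 495 (by decide +kernel) ?_
    refine jn 509 (by decide +kernel) ?_
    refine jn 521 (by decide +kernel) ?_
    refine jn 582 (by decide +kernel) ?_
    refine jn 609 (by decide +kernel) ?_
    refine jn 635 (by decide +kernel) ?_
    refine jn 655 (by decide +kernel) ?_
    refine jn 659 (by decide +kernel) ?_
    refine jn 662 (by decide +kernel) ?_
    refine jn 664 (by decide +kernel) ?_
    refine jn 667 (by decide +kernel) ?_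
    refine jn 670 (by decide +kernel) ?_
    refine jn 681 (by decide +kernel) ?_
    refine jn 687 (by decide +kernel) ?_
    refine jn 692 (by decide +kernel) ?_
    refine jn 695 (by decide +kernel) ?_
    refine jn 700 (by decide +kernel) ?_
    refine jn 710 (by decide +kernel) ?_
    refine jn 716 (by decide +kernel) ?_
    refine jn 726 (by decide +kernel) ?_
    refine jn 736 (by decide +kernel) ?_
    refine jn 746 (by decide +kernel) ?_
    refine jn 756 (by decide +kernel) ?_
    refine jn 767 (by decide +kernel) ?_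
    refine jn 779 (by decide +kernel) ?_
    refine jn 790 (by decide +kernel) ?_
    refine jn 826 (by decide +kernel) ?_
    refine jn 833 (by decide +kernel) ?_
    refine jn 834 (by decide +kernel) ?_
    refine jn 835 (by decide +kernel) ?_
    refine jn 837 (by decide +kernel) ?_
    refine jn 838 (by decide +kernel) ?_
    refine jn 839 (by decide +kernel) ?_
    refine jn 840 (by decide +kernel) ?_
    refine jn 842 (by decide +kernel) ?_
    refine jn 843 (by decide +kernel) ?_
    refine jn 844 (by decide +kernel) ?_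
    refine jn 848 (by decide +kernel) ?_
    refine jn 851 (by decide +kernel) ?_
    refine jn 853 (by decide +kernel) ?_
    refine jn 855 (by decide +kernel) ?_
    refine jn 858 (by decide +kernel) ?_
    refine jn 861 (by decide +kernel) ?_
    refine jn 862 (by decide +kernel) ?_
    refine jn 867 (by decide +kernel) ?_
    refine jn 872 (by decide +kernel) ?_
    refine jn 875 (by decide +kernel) ?_
    refine jn 882 (by decide +kernel) ?_
    refine jn 888 (by decide +kernel) ?_
    refine jn 894 (by decide +kernel) ?_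
    refine jn 901 (by decide +kernel) ?_
    refine jn 907 (by decide +kernel) ?_
    refine jn 909 (by decide +kernel) ?_
    refine jn 916 (by decide +kernel) ?_
    refine jn 922 (by decide +kernel) ?_
    refine jn 928 (by decide +kernel) ?_
    refine jn 934 (by decide +kernel) ?_
    refine jn 941 (by decide +kernel) ?_
    refine jn 946 (by decide +kernel) ?_
    refine jn 952 (by decide +kernel) ?_
    refine jn 972 (by decide +kernel) ?_
    refine jn 977 (by decide +kernel) ?_
    refine jn 988 (by decide +kernel) ?_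
    refine jn 992 (by decide +kernel) ?_
    refine jn 996 (by decide +kernel) ?_
    refine jn 1000 (by decide +kernel) ?_
    refine jn 1006 (by decide +kernel) ?_
    refine jn 1015 (by decide +kernel) ?_
    refine jn 1021 (by decide +kernel) ?_
    refine jn 1033 (by decide +kernel) ?_
    refine jn 1039 (by decide +kernel) ?_
    refine jn 1044 (by decide +kernel) ?_
    refine jn 1056 (by decide +kernel) ?_
    refine jn 1062 (by decide +kernel) ?_
    refine jn 1074 (by decide +kernel) ?_
    exact je (by decide +kernel)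

end Pool.Agent.MP_2339ce_nt.NR
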