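import Pool.Agent.MP_2339ce_nt.Q2.NC.L9
import Pool.Agent.MP_2339ce_nt.Q2.CkI

/-! Block NR: runs. -/

set_option autoImplicit false
set_option maxRecDepth 100000

noncomputable section

namespace Pool.Agent.MP_2339ce_nt.NR

open Q2.Top

def T20_0 : Ph :=
  (.na 1248 157 (.na 950 61 (.na 680 19 (.na 454 11 (.na 291 3 (.na 1 2 .ne (.nx 290 3329023 (.nr
  289 623489 (.nx 273 2097153 (.nx 257 1048577 (.nx 3 217 (.nr 2 28 (.lg 0 false 1 43 43 5 0 10416)
  (.l1 .sk)) (.nx 4 218 (.l1 .sk) (.nr 241 220437 (.nx 69 41287 (.lg 0 false 65 103 109 13 0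
  22342320) (.nr 240 155873 (.nr 124 2049 (.nr 114 1025 (.lg 0 true 45 89 97 13 0 156240) (.nx 123
  832257 (.lg 2 true 9 89 89 9 88098 31248) .out)) (.nx 239 660563 (.nr 133 6051 (.lg 2 true 9 97
  97 9 34979 31248) (.nx 238 524289 (.nx 178 82572 (.lg 1 false 45 103 109 13 89014 22342320) (.nr
  237 131073 (.nr 191 38969 (.lg 2 false 13 101 103 9 11174 7447440) (.nx 236 262145 (.lg 2 false
  45 103 109 13 37437 22342320) .out)) .out)) .out)) .out)) .out)) (.nx 256 324 (.lg 0 false 15 79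
  79 9 0 156240) .out)))) (.nr 272 129 (.lg 0 true 15 83 83 9 0 156240) .out)) (.nr 288 9 (.lg 0
  true 15 71 71 9 0 156240) .out)) .out) .out)) (.na 292 7 .ne (.na 453 8 (.nx 452 16777217 (.nr
  451 1246976 (.nx 296 257 (.nx 294 217 (.nr 293 83 (.lg 0 false 1 31 37 9 0 5208) (.l1 .sk)) (.nx
  295 218 (.l1 .sk) (.l1 (.ls 79 37 2649)))) (.nr 450 440873 (.nx 389 1048577 (.nx 327 65536 (.nr
  316 185365 (.lg 0 false 20 103 107 16 0 22342320) (.nx 326 2049 (.lg 0 false 10 83 83 16 0 52080)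
  .out)) (.nr 388 220437 (.nr 342 1349 (.lg 0 true 15 83 83 16 0 78120) (.nx 387 832257 (.nx 372
  208065 (.nx 357 121357 (.lg 1 false 15 101 103 16 79273 11171160) (.lg 1 true 15 97 103 16 42810
  11171160)) (.nr 386 110219 (.nr 377 5950 (.lg 2 true 5 79 79 11 66939 26040) (.lg 2 false 9 89 89
  16 15177 15624)) .out)) .out)) .out)) (.nr 449 129 (.lg 0 true 60 83 83 16 0 156240) .out))
  .out)) .out) .out) .ne))) (.na 580 14 (.na 525 12 (.nx 524 2097153 (.nr 523 1048577 (.nx 457 218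
  (.nx 456 217 (.nr 455 125 (.lg 0 true 1 37 37 9 0 286440) (.l1 .sk)) (.l1 .sk)) (.nx 477 52015
  (.nx 458 257 (.l1 (.ls 89 31 1687)) (.nr 476 623489 (.nr 471 185365 (.lg 0 false 13 103 107 16 0
  22342320) (.nx 475 1292 (.lg 0 false 4 89 89 16 0 114576) .out)) .out)) (.nr 522 220437 (.nx 514
  660563 (.nr 486 951 (.lg 0 true 9 83 89 16 0 859320) (.nr 490 7240 (.lg 2 true 4 89 97 16 75364
  572880) (.nx 499 104033 (.lg 1 false 9 101 107 16 99880 1718640) (.nr 513 185365 (.nx 508 208065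
  (.lg 1 true 9 101 107 16 42001 1718640) (.nr 512 65537 (.lg 2 false 4 97 97 16 9900 572880)
  .out)) .out)))) (.nr 521 65 (.lg 0 true 7 73 73 16 0 57288) .out)) .out))) .out) .out) (.na 526
  13 .ne (.nx 579 2097153 (.nr 578 1048577 (.nx 530 257 (.nx 528 217 (.nr 527 146 (.lg 0 true 1 37
  37 9 0 67704) (.l1 .sk)) (.nx 529 218 (.l1 .sk) (.l1 (.ls 83 31 1428)))) (.nr 577 623489 (.nx 571
  660563 (.nr 565 185365 (.nx 545 70783 (.lg 0 false 15 101 107 16 0 22342320) (.nr 550 2203 (.lg 0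
  true 5 89 89 16 0 338520) (.nx 555 104033 (.lg 1 false 5 97 101 16 61731 338520) (.nr 564 155873
  (.lg 2 false 9 103 107 16 35327 22342320) .out)))) (.nx 570 1292 (.lg 0 false 5 83 83 16 0
  338520) .out)) (.nr 576 65 (.lg 0 true 5 71 71 16 0 338520) .out)) .out)) .out) .out))) (.na 627
  16 (.nx 626 2097153 (.nr 625 1048577 (.nx 583 218 (.nx 582 217 (.nr 581 167 (.lg 0 false 1 37 37
  11 0 572880) (.l1 .sk)) (.l1 .sk)) (.nx 584 257 (.l1 (.ls 79 41 1326)) (.nr 624 623489 (.nr 620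
  185365 (.nx 597 70783 (.lg 0 false 13 101 103 17 0 7447440) (.nr 610 1222 (.lg 0 true 13 83 83 17
  0 135408) (.nx 619 660563 (.lg 2 false 9 101 103 13 61731 1718640) .out))) (.nx 623 1292 (.lg 0
  true 3 83 83 13 0 31248) .out)) .out))) .out) .out) (.na 628 17 .ne (.nx 679 2097153 (.nr 678
  1048577 (.nr 629 9 .s1 (.nx 672 416129 (.nx 631 217 (.nr 630 198 (.lg 0 true 1 23 23 11 0 5208)
  (.l1 .sk)) (.nx 632 218 (.l1 .sk) (.nx 633 324 (.l1 (.ls 83 37 3382)) (.nr 671 623489 (.nx 660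
  82572 (.nr 648 155873 (.lg 0 false 15 89 101 16 0 78120) (.nx 659 20644 (.nr 653 262145 (.lg 0
  false 5 97 97 16 0 78120) (.nx 658 2049 (.lg 0 false 5 83 83 16 0 26040) .out)) .out)) (.nr 670
  131073 (.nr 665 2200 (.lg 0 true 5 83 83 16 0 26040) (.lg 2 false 5 97 101 16 37437 26040))
  .out)) .out)))) (.nr 677 257 (.lg 0 true 5 73 73 16 0 26040) .out))) .out) .out))))) (.na 845 38
  (.na 785 26 (.na 742 22 (.nx 741 2097153 (.nr 740 1048577 (.nr 681 13 .s1 (.nx 683 217 (.nr 682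
  229 (.lg 0 false 1 37 37 11 0 5208) (.l1 .sk)) (.nx 684 218 (.l1 .sk) (.nx 703 23545 (.nx 685 324
  (.l1 (.ls 89 37 3026)) (.nr 702 623489 (.nr 697 262145 (.lg 0 false 12 101 103 16 0 1718640) (.nx
  701 2049 (.lg 0 false 4 89 89 16 0 10416) .out)) .out)) (.nr 739 155873 (.nr 721 55110 (.nr 711
  751 (.lg 0 true 8 89 89 16 0 10416) (.nx 720 416129 (.lg 2 false 9 83 83 16 60120 15624) .out))
  (.nx 738 330282 (.nx 733 208065 (.lg 0 true 12 103 109 16 0 22342320) (.nr 737 77937 (.lg 0 true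
  4 107 107 16 0 22342320) .out)) .out)) .out))))) .out) .out) (.na 784 23 (.nx 783 2097153 (.nr
  782 1048577 (.nr 743 17 .s1 (.nx 746 218 (.nx 745 217 (.nr 744 240 (.lg 0 true 1 23 23 9 0
  114576) (.l1 .sk)) (.l1 .sk)) (.nx 776 416129 (.nx 747 324 (.l1 (.ls 83 43 2614)) (.nr 775 623489
  (.nr 763 155873 (.nx 752 82572 (.lg 0 false 5 101 103 19 0 572880) (.nr 762 131073 (.nr 757 2200
  (.lg 0 true 5 83 83 19 0 572880) (.lg 2 false 5 97 101 19 37437 572880)) .out)) (.nx 774 20644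
  (.nr 768 262145 (.lg 0 false 5 89 97 19 0 572880) (.nx 773 2049 (.lg 0 false 5 83 83 19 0 572880)
  .out)) .out)) .out)) (.nr 781 257 (.lg 0 true 5 73 73 19 0 572880) .out)))) .out) .out) .ne))
  (.na 820 32 (.nx 819 2097153 (.nr 818 1048577 (.nr 786 22 .s1 (.nx 789 218 (.nx 788 217 (.nr 787
  334 (.lg 0 true 1 37 37 11 0 2031120) (.l1 .sk)) (.l1 .sk)) (.nx 790 324 (.l1 (.ls 89 41 2212))
  (.nr 817 524289 (.nr 815 370729 (.nx 810 524289 (.nr 806 185365 (.nx 796 52017 (.lg 0 false 6 101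
  103 19 0 2031120) (.nr 805 92683 (.nr 799 960 (.lg 0 true 3 79 79 11 0 406224) (.nx 804 330282
  (.lg 2 false 5 97 101 19 42050 677040) .out)) .out)) (.nx 809 13005 (.lg 0 false 3 101 101 11 0
  2031120) .out)) (.nr 814 129 (.lg 0 true 4 71 71 19 0 135408) .out)) (.nx 816 1292 (.lg 0 true 1
  83 83 11 0 135408) .out)) .out)))) .out) .out) (.na 821 34 .ne (.nx 844 2097153 (.nr 843 881745
  (.nr 822 31 .s1 (.nx 824 217 (.nr 823 397 (.l1 (.ls 37 41 1387)) (.l1 .sk)) (.nx 825 218 (.l1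
  .sk) (.nx 826 324 (.l1 (.ls 83 41 1692)) (.nr 842 623489 (.nr 838 155873 (.nx 829 32769 (.lg 0
  false 3 101 101 13 0 156240) (.nr 837 65537 (.nr 834 397 (.lg 0 true 5 79 79 13 0 52080) (.nx 836
  208065 (.lg 2 true 2 101 101 13 56865 52080) .out)) .out)) (.nx 841 13005 (.lg 0 false 3 101 101
  13 0 156240) .out)) .out))))) .out) .out)))) (.na 911 47 (.na 870 43 (.nx 869 2097153 (.nr 868
  881745 (.nr 846 36 .s1 (.nx 849 218 (.nx 848 217 (.nr 847 449 (.lg 0 false 1 23 23 13 0 10416)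
  (.l1 .sk)) (.l1 .sk)) (.nx 856 26009 (.nx 850 324 (.l1 (.ls 79 41 1514)) (.nr 855 623489 (.lg 0
  false 5 97 101 17 0 52080) .out)) (.nr 867 77937 (.nr 861 449 (.lg 0 true 5 73 73 17 0 52080)
  (.nx 866 208065 (.lg 2 false 5 89 97 17 70750 52080) .out)) .out)))) .out) .out) (.na 891 46 (.nx
  890 2097153 (.nr 889 881745 (.nr 871 41 .s1 (.nx 878 26009 (.nx 872 324 (.l1 (.ls 79 31 2444))
  (.nr 877 623489 (.lg 0 false 5 97 97 16 0 26040) .out)) (.nr 888 77937 (.nr 883 480 (.lg 0 true 5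
  73 73 16 0 26040) (.nx 887 208065 (.lg 2 false 4 89 89 16 70750 10416) .out)) .out))) .out) .out)
  (.nx 910 2097153 (.nr 909 881745 (.nr 892 44 .s1 (.nx 893 324 (.l1 (.ls 83 43 2285)) (.nr 908
  741457 (.nx 899 26009 (.lg 0 false 6 101 103 19 0 156240) (.nr 907 65537 (.nr 904 490 (.lg 0 true
  5 79 79 19 0 52080) (.nx 906 208065 (.lg 2 true 2 97 97 13 59525 10416) .out)) .out)) .out)))
  .out) .out))) (.na 932 49 (.nx 931 2097153 (.nr 930 881745 (.nr 912 45 .s1 (.nx 919 26009 (.nx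
  913 324 (.l1 (.ls 79 29 2236)) (.nr 918 741457 (.lg 0 false 5 97 97 16 0 26040) .out)) (.nr 929
  65537 (.nr 924 511 (.lg 0 true 5 71 71 16 0 26040) (.nx 928 208065 (.lg 2 false 4 89 89 16 59525
  10416) .out)) .out))) .out) .out) (.na 933 59 (.lg 0 false 1 0 0 16 0 24) (.nx 949 2097153 (.nr
  948 881745 (.nr 934 58 .s1 (.nx 935 324 (.l1 (.ls 79 29 1782)) (.nr 947 741457 (.nx 939 32769
  (.lg 0 false 4 101 101 16 0 52080) (.nr 946 46342 (.nr 943 636 (.lg 0 true 4 73 73 16 0 10416)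
  (.nx 945 208065 (.lg 2 true 2 83 83 16 35496 10416) .out)) .out)) .out))) .out) .out)))))) (.na
  1108 113 (.na 1035 89 (.na 986 77 (.na 966 62 (.nx 965 2097153 (.nr 964 881745 (.nr 951 60 .s1
  (.nx 952 324 (.l1 (.ls 79 29 1723)) (.nr 963 741457 (.nx 956 32769 (.lg 0 false 4 101 101 16 0
  52080) (.nr 962 46342 (.nr 960 647 (.lg 0 true 4 73 73 16 0 10416) (.nx 961 208065 (.lg 2 true 1
  83 83 16 34892 5208) .out)) .out)) .out))) .out) .out) (.na 985 64 (.nx 984 2097153 (.nr 983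
  881745 (.nr 967 61 .s1 (.nx 974 32769 (.nx 968 324 (.l1 (.ls 71 41 1696)) (.nr 973 741457 (.lg 0
  true 5 89 89 19 0 156240) .out)) (.nr 982 46342 (.nr 979 668 (.lg 0 true 5 61 61 19 0 52080) (.nx
  981 208065 (.lg 2 true 2 73 73 13 33795 10416) .out)) .out))) .out) .out) .ne)) (.na 1002 79 (.nx
  1001 2097153 (.nr 1000 2097153 (.nr 987 76 .s1 (.nx 994 32769 (.nx 988 324 (.l1 (.ls 79 31 1366))
  (.nr 993 1048577 (.lg 0 false 5 89 89 19 0 286440) .out)) (.nr 999 32769 (.nr 997 513 (.lg 0 true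
  3 67 67 19 0 171864) (.nx 998 131073 (.lg 2 true 1 73 73 17 27723 57288) .out)) .out))) .out)
  .out) (.na 1019 86 (.nx 1018 2097153 (.nr 1017 2097153 (.nr 1003 78 .s1 (.nx 1013 131073 (.nx
  1004 324 (.l1 (.ls 73 29 1331)) (.nr 1012 1048577 (.nr 1007 65537 (.lg 0 true 3 89 89 16 0 78120)
  (.nx 1011 20644 (.lg 0 false 4 97 97 16 0 52080) .out)) .out)) (.nr 1016 513 (.lg 0 true 3 67 67
  16 0 15624) .out))) .out) .out) (.nx 1034 2097153 (.nr 1033 2097153 (.nr 1020 85 .s1 (.nx 1029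
  131073 (.nx 1021 324 (.l1 (.ls 83 37 1223)) (.nr 1028 1048577 (.nr 1024 65537 (.lg 0 true 3 97 97
  19 0 156240) (.nx 1027 20644 (.lg 0 false 3 97 97 19 0 31248) .out)) .out)) (.nr 1032 513 (.lg 0
  true 3 71 71 19 0 31248) .out))) .out) .out)))) (.na 1081 98 (.na 1051 91 (.nx 1050 2097153 (.nr
  1049 2097153 (.nr 1036 88 .s1 (.nx 1045 131073 (.nx 1037 324 (.l1 (.ls 73 29 1182)) (.nr 1044
  1048577 (.nr 1040 65537 (.lg 0 true 3 83 83 16 0 78120) (.nx 1043 20644 (.lg 0 false 3 83 83 16 0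
  15624) .out)) .out)) (.nr 1048 513 (.lg 0 true 3 61 61 16 0 15624) .out))) .out) .out) (.na 1067
  94 (.nx 1066 2097153 (.nr 1065 2097153 (.nr 1052 90 .s1 (.nx 1053 324 (.l1 (.ls 83 31 1156)) (.nr
  1064 1048577 (.nr 1060 65537 (.nx 1056 131073 (.lg 0 true 3 89 89 19 0 203112) (.nr 1059 513 (.lg
  0 true 3 67 67 19 0 203112) .out)) (.nx 1063 20644 (.lg 0 false 3 89 89 19 0 203112) .out))
  .out))) .out) .out) (.nx 1080 2097153 (.nr 1079 2097153 (.nr 1068 93 .s1 (.nx 1069 324 (.l1 (.ls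
  83 37 1119)) (.nr 1078 1048577 (.nr 1074 65537 (.nx 1072 131073 (.lg 0 true 3 89 89 19 0 31248)
  (.nr 1073 513 (.lg 0 false 1 79 79 17 0 52080) .out)) (.nx 1077 20644 (.lg 0 false 3 97 97 19 0
  156240) .out)) .out))) .out) .out))) (.na 1082 103 (.lg 0 false 1 0 0 16 0 24) (.na 1096 109 (.nx
  1095 2097153 (.nr 1094 2097153 (.nr 1083 102 .s1 (.nx 1084 324 (.l1 (.ls 71 23 1022)) (.nr 1093
  1048577 (.nx 1089 32769 (.lg 0 false 5 79 83 17 0 26040) (.nr 1092 32769 (.nr 1090 513 (.lg 0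
  false 1 67 67 16 0 5208) (.nx 1091 131073 (.lg 2 true 1 67 67 16 27723 5208) .out)) .out))
  .out))) .out) .out) (.nx 1107 2097153 (.nr 1106 2097153 (.nr 1097 109 .s1 (.nx 1104 131073 (.nx
  1102 32769 (.nx 1098 324 (.l1 (.ls 79 23 966)) (.nr 1101 1048577 (.lg 0 true 3 89 89 16 0 78120)
  .out)) (.nr 1103 32769 (.lg 0 false 1 83 83 16 0 78120) .out)) (.nr 1105 513 (.lg 0 false 1 73 73
  16 0 78120) .out))) .out) .out))))) (.na 1179 133 (.na 1149 122 (.na 1122 118 (.nx 1121 2097153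
  (.nr 1120 2097153 (.nr 1109 113 .s1 (.nx 1110 324 (.l1 (.ls 71 23 931)) (.nr 1119 1048577 (.nx
  1115 32769 (.lg 0 false 5 79 83 17 0 26040) (.nr 1118 32769 (.nr 1116 513 (.lg 0 false 1 67 67 16
  0 5208) (.nx 1117 131073 (.lg 2 true 1 67 67 16 27723 5208) .out)) .out)) .out))) .out) .out)
  (.na 1137 121 (.nx 1136 2097153 (.nr 1135 2097153 (.nr 1123 118 .s1 (.nx 1130 32769 (.nx 1124 324
  (.l1 (.ls 79 31 892)) (.nr 1129 1048577 (.lg 0 false 5 89 97 23 0 52080) .out)) (.nr 1134 32769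
  (.nr 1132 513 (.lg 0 true 2 67 67 19 0 10416) (.nx 1133 131073 (.lg 2 true 1 73 73 19 27723
  10416) .out)) .out))) .out) .out) (.nx 1148 2097153 (.nr 1147 2097153 (.nr 1138 121 .s1 (.nx 1143
  32769 (.nx 1139 324 (.l1 (.ls 73 29 870)) (.nr 1142 1048577 (.lg 0 false 3 89 89 19 0 859320)
  .out)) (.nr 1146 32769 (.nr 1144 513 (.lg 0 false 1 71 71 17 0 57288) (.nx 1145 131073 (.lg 2
  true 1 71 71 17 27723 57288) .out)) .out))) .out) .out))) (.na 1164 128 (.nx 1163 2097153 (.nr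
  1162 2097153 (.nr 1150 122 .s1 (.nx 1157 32769 (.nx 1151 324 (.l1 (.ls 79 31 863)) (.nr 1156
  1048577 (.lg 0 false 5 89 89 23 0 52080) .out)) (.nr 1161 32769 (.nr 1159 513 (.lg 0 true 2 67 67
  19 0 10416) (.nx 1160 131073 (.lg 2 true 1 73 73 19 27723 10416) .out)) .out))) .out) .out) (.na
  1165 131 .ne (.nx 1178 1048577 (.nr 1177 1482912 (.nr 1166 131 .s1 (.nx 1173 32769 (.nx 1168 217
  (.nr 1167 1387 (.l1 (.ls 19 19 362)) (.l1 .sk)) (.nx 1169 218 (.l1 .sk) (.lg 0 false 4 89 89 17 0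
  52080))) (.nr 1176 16385 (.nr 1174 1025 (.lg 0 false 1 71 71 16 0 26040) (.nx 1175 131073 (.lg 2
  true 1 59 59 16 13875 5208) .out)) .out))) .out) .out)))) (.na 1208 146 (.na 1194 139 (.nx 1193
  1048577 (.nr 1192 1482912 (.nr 1180 133 .s1 (.nx 1188 32769 (.nx 1182 217 (.nr 1181 1450 (.l1
  (.ls 17 29 357)) (.l1 .sk)) (.nx 1183 218 (.l1 .sk) (.lg 0 false 5 89 89 17 0 26040))) (.nr 1191
  16385 (.nr 1189 1025 (.lg 0 false 1 71 71 17 0 5208) (.nx 1190 131073 (.lg 2 true 1 61 61 17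
  13875 5208) .out)) .out))) .out) .out) (.na 1195 143 (.lg 0 false 1 0 0 16 0 24) (.nx 1207
  1048577 (.nr 1206 1482912 (.nr 1196 143 .s1 (.nx 1198 217 (.nr 1197 1523 (.l1 (.ls 29 29 332))
  (.l1 .sk)) (.nx 1199 218 (.l1 .sk) (.nx 1204 131073 (.nx 1202 16385 (.lg 0 false 3 89 89 29 0
  2234232) (.nr 1203 65537 (.lg 0 false 1 89 89 19 0 744744) .out)) (.nr 1205 1025 (.lg 0 true 1 71
  71 19 0 744744) .out))))) .out) .out))) (.na 1221 149 (.nx 1220 1048577 (.nr 1219 1482912 (.nr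
  1209 146 .s1 (.nx 1212 218 (.nx 1211 217 (.nr 1210 1554 (.l1 (.ls 23 29 325)) (.l1 .sk)) (.l1
  .sk)) (.nx 1215 32769 (.lg 0 false 3 97 97 23 0 31248) (.nr 1218 16385 (.nr 1216 1025 (.lg 0
  false 1 73 73 19 0 10416) (.nx 1217 131073 (.lg 2 true 1 61 61 19 13875 10416) .out)) .out))))
  .out) .out) (.na 1235 154 (.nx 1234 1048577 (.nr 1233 1482912 (.nr 1222 149 .s1 (.nx 1225 218
  (.nx 1224 217 (.nr 1223 1606 (.l1 (.ls 19 19 319)) (.l1 .sk)) (.l1 .sk)) (.nx 1229 32769 (.lg 0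
  false 4 89 89 17 0 52080) (.nr 1232 16385 (.nr 1230 1025 (.lg 0 false 1 67 67 16 0 5208) (.nx
  1231 131073 (.lg 2 true 1 59 59 16 13875 5208) .out)) .out)))) .out) .out) (.nx 1247 1048577 (.nr
  1246 1482912 (.nr 1236 154 .s1 (.nx 1242 32769 (.nx 1238 217 (.nr 1237 1638 (.l1 (.ls 23 37 308))
  (.l1 .sk)) (.nx 1239 218 (.l1 .sk) (.lg 0 false 3 89 89 31 0 343728))) (.nr 1245 16385 (.nr 1243
  1025 (.lg 0 false 1 71 71 29 0 114576) (.nx 1244 131073 (.lg 2 false 1 61 61 29 13875 114576)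
  .out)) .out))) .out) .out))))))) (.na 1463 242 (.na 1335 206 (.na 1282 179 (.na 1265 167 (.na
  1249 158 (.lg 0 false 1 0 0 16 0 24) (.na 1264 163 (.nx 1263 1048577 (.nr 1262 1482912 (.nr 1250
  158 .s1 (.nx 1253 218 (.nx 1252 217 (.nr 1251 1700 (.l1 (.ls 17 29 301)) (.l1 .sk)) (.l1 .sk))
  (.nx 1258 32769 (.lg 0 false 5 89 89 29 0 52080) (.nr 1261 16385 (.nr 1259 1025 (.lg 0 false 1 67
  67 19 0 10416) (.nx 1260 131073 (.lg 2 true 1 59 59 19 13875 10416) .out)) .out)))) .out) .out)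
  (.lg 0 false 1 0 0 16 0 24))) (.na 1266 173 (.lg 0 false 1 0 0 16 0 24) (.na 1267 178 (.lg 0
  false 1 0 0 16 0 24) (.nx 1281 1048577 (.nr 1280 1482912 (.nr 1268 178 .s1 (.nx 1276 32769 (.nx
  1270 217 (.nr 1269 1867 (.l1 (.ls 17 29 267)) (.l1 .sk)) (.nx 1271 218 (.l1 .sk) (.lg 0 false 5
  79 83 29 0 52080))) (.nr 1279 16385 (.nr 1277 1025 (.lg 0 false 1 61 61 19 0 10416) (.nx 1278
  131073 (.lg 2 true 1 53 53 19 13875 10416) .out)) .out))) .out) .out)))) (.na 1321 187 (.na 1295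
  181 (.nx 1294 1048577 (.nr 1293 1482912 (.nr 1283 179 .s1 (.nx 1285 217 (.nr 1284 1888 (.l1 (.ls
  19 17 266)) (.l1 .sk)) (.nx 1286 218 (.l1 .sk) (.nx 1289 32769 (.lg 0 false 3 83 83 17 0 15624)
  (.nr 1292 16385 (.nr 1290 1025 (.lg 0 false 1 67 67 16 0 5208) (.nx 1291 131073 (.lg 2 false 1 59
  59 16 13875 5208) .out)) .out))))) .out) .out) (.na 1308 182 (.nx 1307 1048577 (.nr 1306 1482912
  (.nr 1296 181 .s1 (.nx 1298 217 (.nr 1297 1898 (.l1 (.ls 19 17 263)) (.l1 .sk)) (.nx 1299 218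
  (.l1 .sk) (.nx 1302 32769 (.lg 0 false 3 83 83 17 0 78120) (.nr 1305 16385 (.nr 1303 1025 (.lg 0
  false 1 67 67 16 0 78120) (.nx 1304 131073 (.lg 2 false 1 53 53 16 13875 5208) .out)) .out)))))
  .out) .out) (.nx 1320 1048577 (.nr 1319 1048577 (.nr 1309 182 .s1 (.nx 1315 32769 (.nx 1311 217
  (.nr 1310 1951 (.l1 (.ls 19 31 261)) (.l1 .sk)) (.nx 1312 218 (.l1 .sk) (.lg 0 false 3 83 83 31 0
  406224))) (.nr 1318 16385 (.nr 1316 1025 (.lg 0 false 1 67 67 29 0 135408) (.nx 1317 131073 (.lg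
  2 false 1 59 59 29 13875 135408) .out)) .out))) .out) .out))) (.na 1333 197 (.nx 1332 1048577
  (.nr 1331 1048577 (.nr 1322 187 .s1 (.nx 1324 217 (.nr 1323 2055 (.l1 (.ls 16 23 254)) (.l1 .sk))
  (.nx 1325 218 (.l1 .sk) (.nx 1329 131073 (.nr 1326 65537 (.lg 0 false 1 89 89 23 0 57288) (.nx
  1328 16385 (.lg 0 false 2 89 89 29 0 114576) .out)) (.nr 1330 1025 (.lg 0 true 1 67 67 23 0
  57288) .out))))) .out) .out) (.na 1334 199 (.lg 0 false 1 0 0 16 0 24) (.lg 0 false 1 0 0 16 0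
  24))))) (.na 1395 226 (.na 1360 217 (.na 1348 209 (.nx 1347 1048577 (.nr 1346 1048577 (.nr 1336
  206 .s1 (.nx 1338 217 (.nr 1337 2180 (.l1 (.ls 23 29 231)) (.l1 .sk)) (.nx 1339 218 (.l1 .sk)
  (.nx 1342 32769 (.lg 0 false 3 83 83 29 0 31248) (.nr 1345 16385 (.nr 1343 1025 (.lg 0 false 1 67
  67 23 0 10416) (.nx 1344 131073 (.lg 2 false 1 59 59 23 13875 10416) .out)) .out))))) .out) .out)
  (.na 1359 211 (.nx 1358 1048577 (.nr 1357 1048577 (.nr 1349 209 .s1 (.nx 1355 131073 (.nx 1351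
  217 (.nr 1350 2201 (.l1 (.ls 17 23 228)) (.l1 .sk)) (.nx 1352 218 (.l1 .sk) (.nr 1353 65537 (.lg
  0 false 1 89 89 17 0 286440) (.nx 1354 16385 (.lg 0 true 1 89 89 17 0 286440) .out)))) (.nr 1356
  1025 (.lg 0 true 1 67 67 17 0 57288) .out))) .out) .out) (.lg 0 false 1 0 0 16 0 24))) (.na 1373
  218 (.nx 1372 1048577 (.nr 1371 1048577 (.nr 1361 217 .s1 (.nx 1364 218 (.nx 1363 217 (.nr 1362
  2274 (.l1 (.ls 16 19 219)) (.l1 .sk)) (.l1 .sk)) (.nx 1367 32769 (.lg 0 true 3 71 71 19 0 15624)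
  (.nr 1370 16385 (.lg 0 false 3 67 67 19 0 15624) .out)))) .out) .out) (.na 1384 221 (.nx 1383
  1048577 (.nr 1382 1048577 (.nr 1374 218 .s1 (.nx 1377 218 (.nx 1376 217 (.nr 1375 2305 (.l1 (.ls
  17 23 219)) (.l1 .sk)) (.l1 .sk)) (.nx 1380 32769 (.lg 0 false 3 79 79 29 0 31248) (.nr 1381
  16385 (.lg 0 false 1 79 79 23 0 10416) .out)))) .out) .out) (.nx 1394 1048577 (.nr 1393 1048577
  (.nr 1385 221 .s1 (.nx 1388 218 (.nx 1387 217 (.nr 1386 2357 (.l1 (.ls 16 23 216)) (.l1 .sk))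
  (.l1 .sk)) (.nx 1391 131073 (.nr 1389 65537 (.lg 0 false 1 89 89 23 0 338520) (.nx 1390 16385
  (.lg 0 false 1 89 89 23 0 67704) .out)) (.nr 1392 1025 (.lg 0 true 1 71 71 23 0 67704) .out))))
  .out) .out)))) (.na 1430 238 (.na 1406 227 (.nx 1405 1048577 (.nr 1404 1048577 (.nr 1396 226 .s1
  (.nx 1398 217 (.nr 1397 2368 (.l1 (.ls 23 23 211)) (.l1 .sk)) (.nx 1399 218 (.l1 .sk) (.nx 1402
  32769 (.lg 0 false 3 83 83 29 0 156240) (.nr 1403 16385 (.lg 0 false 1 83 83 23 0 10416)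
  .out))))) .out) .out) (.na 1419 229 (.nx 1418 1048577 (.nr 1417 1048577 (.nr 1407 227 .s1 (.nx
  1409 217 (.nr 1408 2389 (.l1 (.ls 16 17 210)) (.l1 .sk)) (.nx 1410 218 (.l1 .sk) (.nx 1413 32769
  (.lg 0 false 3 79 79 19 0 15624) (.nr 1416 16385 (.nr 1414 1025 (.lg 0 false 1 59 59 17 0 5208)
  (.nx 1415 131073 (.lg 2 false 1 47 47 17 13875 5208) .out)) .out))))) .out) .out) (.nx 1429
  1048577 (.nr 1428 1048577 (.nr 1420 229 .s1 (.nx 1423 218 (.nx 1422 217 (.nr 1421 2482 (.l1 (.ls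
  17 17 208)) (.l1 .sk)) (.l1 .sk)) (.nx 1426 32769 (.lg 0 false 3 79 79 19 0 15624) (.nr 1427
  16385 (.lg 0 false 1 79 79 17 0 5208) .out)))) .out) .out))) (.na 1441 239 (.nx 1440 1048577 (.nr
  1439 1048577 (.nr 1431 238 .s1 (.nx 1434 218 (.nx 1433 217 (.nr 1432 2493 (.l1 (.ls 16 31 200))
  (.l1 .sk)) (.l1 .sk)) (.nx 1437 32769 (.lg 0 false 3 83 83 37 0 31248) (.nr 1438 16385 (.lg 0
  false 1 83 83 31 0 10416) .out)))) .out) .out) (.na 1452 241 (.nx 1451 1048577 (.nr 1450 1048577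
  (.nr 1442 239 .s1 (.nx 1445 218 (.nx 1444 217 (.nr 1443 2514 (.l1 (.ls 17 17 200)) (.l1 .sk))
  (.l1 .sk)) (.nx 1448 32769 (.lg 0 false 3 79 79 19 0 15624) (.nr 1449 16385 (.lg 0 false 1 79 79
  17 0 5208) .out)))) .out) .out) (.nx 1462 1048577 (.nr 1461 1048577 (.nr 1453 241 .s1 (.nx 1456
  218 (.nx 1455 217 (.nr 1454 2524 (.l1 (.ls 17 17 198)) (.l1 .sk)) (.l1 .sk)) (.nx 1459 32769 (.lg
  0 false 3 79 79 19 0 78120) (.nr 1460 16385 (.lg 0 false 1 79 79 17 0 26040) .out)))) .out)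
  .out)))))) (.na 5950 2897 (.na 1860 363 (.na 1486 254 (.na 1474 251 (.nx 1473 1048577 (.nr 1472
  1048577 (.nr 1464 242 .s1 (.nx 1466 217 (.nr 1465 2618 (.l1 (.ls 19 29 197)) (.l1 .sk)) (.nx 1467
  218 (.l1 .sk) (.nx 1470 32769 (.lg 0 false 3 83 83 31 0 343728) (.nr 1471 16385 (.lg 0 false 1 83
  83 29 0 343728) .out))))) .out) .out) (.na 1475 253 (.lg 0 false 1 0 0 16 0 24) (.nx 1485 1048577
  (.nr 1484 1048577 (.nr 1476 253 .s1 (.nx 1478 217 (.nr 1477 2649 (.l1 (.ls 19 19 189)) (.l1 .sk))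
  (.nx 1479 218 (.l1 .sk) (.nx 1482 131073 (.nr 1480 65537 (.lg 0 false 1 83 83 19 0 57288) (.nx
  1481 16385 (.lg 0 true 1 89 89 19 0 171864) .out)) (.nr 1483 1025 (.lg 0 true 1 67 67 19 0 57288)
  .out))))) .out) .out))) (.na 1495 256 (.nx 1494 1048577 (.nr 1493 1048577 (.nr 1487 254 .s1 (.nx
  1490 218 (.nx 1489 217 (.nr 1488 2670 (.l1 (.ls 19 23 188)) (.l1 .sk)) (.l1 .sk)) (.nx 1491 32769
  (.lg 0 true 1 89 89 23 0 52080) (.nr 1492 16385 (.lg 0 false 1 83 83 23 0 52080) .out)))) .out)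
  .out) (.na 1496 257 .ne (.nx 1859 1048577 (.nr 1858 1482912 (.nr 1497 257 .s1 (.nx 1605 218 (.nx
  1604 217 (.nr 1603 3786 (.la (.ls 23 19 186)) (.l1 .sk)) (.l1 .sk)) (.nx 1644 257 (.lx (.lp 43 0
  91)) (.nr 1857 1048577 (.nr 1750 32769 (.la (.lg 0 true 2 79 79 23 0)) (.nx 1856 20644 (.la (.lg
  0 true 1 79 79 19 0)) .out)) .out)))) .out) .out)))) (.na 3642 1024 (.na 2353 512 (.nx 2352
  1048577 (.nr 2351 1482912 (.nr 1861 363 .s1 (.nx 2012 218 (.nx 2011 217 (.nr 2010 5340 (.la (.ls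
  41 19 132)) (.l1 .sk)) (.l1 .sk)) (.nx 2051 257 (.lx (.lp 83 17 129)) (.nr 2350 1048577 (.nr 2200
  32769 (.la (.lg 0 false 1 79 79 23 0)) (.nx 2349 20644 (.la (.lg 0 true 1 73 73 23 0)) .out))
  .out)))) .out) .out) (.na 3040 725 (.nx 3039 1048577 (.nr 3038 1482912 (.nr 2354 512 .s1 (.nx
  2610 257 (.lx (.lp 41 19 182)) (.nr 3037 1048577 (.nx 2823 52017 (.la (.lg 0 true 1 73 73 23 0))
  (.nr 3036 32769 (.la (.lg 2 false 1 61 61 23 222209)) .out)) .out))) .out) .out) (.nx 3641 13005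
  (.nr 3640 1048577 (.nr 3041 725 .s1 (.nx 3340 2049 (.la (.ls 61 41 5793)) (.nr 3639 65537 (.la
  (.lg 0 false 1 43 43 29 0)) .out))) .out) .out))) (.na 4496 1449 (.nx 4495 13005 (.nr 4494
  1048577 (.nr 3643 1024 .s1 (.nx 4068 3252 (.la (.ls 61 41 10330)) (.nr 4493 32769 (.la (.lg 0
  false 1 37 37 29 0)) .out))) .out) .out) (.na 5098 2048 (.nx 5097 8193 (.nr 5096 1048577 (.nr
  4497 1449 .s1 (.la (.ls 59 47 46328))) .out) .out) (.nx 5949 8193 (.nr 5948 1048577 (.nr 5099
  2048 .s1 (.la (.ls 59 47 32779))) .out) .out))))) (.na 14248 32768 (.na 10365 8192 (.na 7152 4096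
  (.nx 7151 3252 (.nr 7150 524289 (.nr 5951 2897 .s1 (.la (.ls 61 37 3653))) .out) .out) (.na 9070
  5793 (.nx 9069 3252 (.nr 9068 524289 (.nr 7153 4096 .s1 (.nx 7370 217 (.nr 7369 60412 (.lx (.lp
  43 31 1449)) (.l1 .sk)) (.nx 7371 218 (.l1 .sk) (.la (.ls 59 37 2573))))) .out) .out) (.nx 10364
  1292 (.nr 10363 262145 (.nr 9071 5793 .s1 (.nx 9884 814 (.lx (.lp 53 37 2049)) (.nr 10362 65537
  (.lx (.lp 43 37 2049)) .out))) .out) .out))) (.na 11659 11586 (.nx 11658 1292 (.nr 11657 262145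
  (.nr 10366 8192 .s1 (.lx (.lp 47 37 2897))) .out) .out) (.na 12953 16384 (.nx 12952 1292 (.nr
  12951 131073 (.nr 11660 11586 .s1 (.lx (.lp 43 41 4097))) .out) .out) (.nx 14247 1292 (.nr 14246
  262145 (.nr 12954 16384 .s1 (.nx 13210 257 (.lx (.lp 43 41 8193)) (.nr 14245 131073 (.lx (.lp 41
  43 8193)) .out))) .out) .out)))) (.na 17352 262144 (.na 15542 65536 (.nx 15541 1292 (.nr 15540
  262145 (.nr 14249 32768 .s1 (.lx (.lp 43 47 16385))) .out) .out) (.na 16837 131072 (.nx 16836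
  1292 (.nr 16835 524289 (.nr 15543 65536 .s1 (.nx 15799 257 (.lx (.lp 16 0 32769)) (.nr 16834
  262145 (.lx (.lp 41 53 32769)) .out))) .out) .out) (.nx 17351 513 (.nr 17350 524289 (.nr 16838
  131072 .s1 (.lx (.lp 16 47 65537))) .out) .out))) (.na 17867 524288 (.nx 17866 513 (.nr 17865
  1048577 (.nr 17353 262144 .s1 (.lx (.lp 16 0 131073))) .out) .out) (.na 17869 1048577 (.nx 17868
  257 (.l1 .sk) .out) .out)))))))

def T20_1 : Ph :=
  (.na 1118 102 (.na 759 53 (.na 484 27 (.na 241 17 (.na 66 12 (.na 1 10 (.lg 0 false 1 0 0 7 0 24)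
  (.na 2 11 .ne (.nx 65 2097153 (.nr 64 1048577 (.nx 4 183 (.nr 3 115 (.lg 0 true 1 31 31 9 0
  96624) (.l1 .sk)) (.nx 5 184 (.l1 .sk) (.nx 55 660563 (.nx 6 257 (.l1 (.ls 89 37 2929)) (.nr 54
  623489 (.nx 22 26007 (.nr 16 155873 (.lg 0 false 10 101 107 16 0 43963920) (.nx 21 1292 (.lg 0
  false 5 83 83 16 0 80520) .out)) (.nr 53 220437 (.nr 31 7042 (.nr 27 899 (.lg 0 true 5 83 83 16 0
  80520) (.lg 2 true 4 89 89 16 67232 32208)) (.nx 42 104033 (.nx 37 52015 (.nr 36 185365 (.lg 1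
  false 5 103 107 16 119467 43963920) .out) (.lg 1 false 5 107 107 16 71022 43963920)) (.nr 52
  185365 (.nx 47 208065 (.lg 1 true 5 103 107 16 29865 43963920) (.nr 51 65537 (.lg 2 false 4 97 97
  16 8584 676368) .out)) .out))) .out)) .out)) (.nr 63 65 (.lg 0 true 8 71 71 16 0 32208) .out))))
  .out) .out))) (.na 132 13 (.nx 131 2097153 (.nr 130 1048577 (.nx 122 660563 (.nx 68 183 (.nr 67
  124 (.lg 0 true 1 31 31 13 0 483120) (.l1 .sk)) (.nx 69 184 (.l1 .sk) (.nx 70 257 (.l1 (.ls 89 43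
  2685)) (.nr 121 623489 (.nx 89 32768 (.nr 77 155873 (.lg 0 false 7 103 103 19 0 3381840) (.nx 88
  8193 (.nx 84 1292 (.lg 0 false 7 83 89 19 0 61488) (.nx 85 5160 .out (.nr 87 185365 (.lg 0 false
  2 83 83 13 0 8784) .out))) .out)) (.nr 120 185365 (.nr 98 4038 (.nr 96 1002 (.lg 0 true 7 83 83
  19 0 61488) (.lg 2 true 2 83 83 13 60321 8784)) (.nx 112 104033 (.nx 105 70783 (.lg 1 false 7 103
  107 19 94817 43963920) (.lg 1 false 7 101 103 19 43894 43963920)) (.nr 119 155873 (.lg 2 false 7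
  103 107 19 25118 43963920) .out))) .out)) .out)))) (.nr 129 65 (.lg 0 true 7 73 73 19 0 61488)
  .out)) .out) .out) (.na 185 16 (.nx 184 2097153 (.nr 183 1048577 (.nx 136 257 (.nx 134 183 (.nr
  133 153 (.lg 0 false 1 31 31 9 0 570960) (.l1 .sk)) (.nx 135 184 (.l1 .sk) (.l1 (.ls 89 37
  2479)))) (.nr 182 623489 (.nr 177 185365 (.nx 169 660563 (.nx 143 32768 (.lg 0 false 7 103 103 16
  0 3996720) (.nr 150 2261 (.lg 0 true 7 89 89 16 0 133224) (.nx 157 70783 (.lg 1 false 7 101 103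
  16 94817 3996720) (.nx 161 104033 (.lg 1 false 4 101 101 16 43894 570960) (.nr 168 155873 (.lg 2
  false 7 101 103 16 26733 3996720) .out))))) (.nr 176 65 (.lg 0 true 7 71 71 16 0 133224) .out))
  (.nx 181 1292 (.lg 0 false 4 83 83 16 0 38064) .out)) .out)) .out) .out) (.nx 240 2097153 (.nr
  239 1048577 (.nr 186 9 .s1 (.nx 189 184 (.nx 188 183 (.nr 187 163 (.lg 0 false 1 29 29 11 0 8784)
  (.l1 .sk)) (.l1 .sk)) (.nr 236 623489 (.nx 230 660563 (.nx 200 10323 (.nr 194 262145 (.lg 0 false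
  5 89 97 17 0 43920) (.nx 199 2049 (.lg 0 false 5 83 89 17 0 43920) .out)) (.nr 229 185365 (.nx
  205 26008 (.lg 0 false 5 97 101 17 0 43920) (.nr 210 1203 (.lg 0 true 5 83 83 17 0 14640) (.nr
  211 2342 (.lg 2 true 1 79 79 11 50243 2928) (.nx 216 48160 (.lg 1 false 5 101 107 17 119463
  6280560) (.nx 221 104033 (.lg 1 false 5 101 107 17 64513 6280560) (.nr 228 155873 (.lg 2 false 7
  101 109 19 25808 43963920) .out)))))) .out)) (.nr 235 129 (.lg 0 true 5 73 73 17 0 14640) .out))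
  (.nx 238 324 (.lg 0 false 2 71 71 13 0 2928) .out)))) .out) .out)))) (.na 337 22 (.na 288 18 (.nx
  287 2097153 (.nr 286 1048577 (.nr 242 11 .s1 (.nx 278 416129 (.nx 244 183 (.nr 243 172 (.lg 0
  true 1 31 31 11 0 43920) (.l1 .sk)) (.nx 245 184 (.l1 .sk) (.nx 246 324 (.l1 (.ls 89 37 4186))
  (.nr 277 623489 (.nr 267 185365 (.nx 253 41286 (.lg 0 false 7 101 103 16 0 307440) (.nr 266
  155873 (.nr 257 2200 (.lg 0 true 4 83 83 16 0 2928) (.nx 261 82572 (.lg 1 false 4 101 103 16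
  63293 43920) (.nr 265 131073 (.lg 2 false 4 103 103 16 26618 307440) .out))) .out)) (.nx 276
  10323 (.nr 271 262145 (.lg 0 false 4 97 97 16 0 43920) (.nx 275 2049 (.lg 0 false 4 83 83 16 0
  2928) .out)) .out)) .out)))) (.nr 285 257 (.lg 0 true 7 79 79 16 0 10248) .out))) .out) .out)
  (.na 289 19 (.lg 0 false 1 0 0 7 0 24) (.nx 336 2097153 (.nr 335 1048577 (.nr 290 14 .s1 (.nx 293
  184 (.nx 292 183 (.nr 291 211 (.lg 0 true 1 29 29 11 0 8784) (.l1 .sk)) (.l1 .sk)) (.nx 329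
  416129 (.nx 294 324 (.l1 (.ls 83 37 3746)) (.nr 328 623489 (.nr 322 262145 (.nx 305 41286 (.nr
  299 185365 (.lg 0 false 5 101 103 16 0 43920) (.nx 304 10323 (.lg 0 false 5 89 89 16 0 43920)
  .out)) (.nr 321 155873 (.nr 310 2200 (.lg 0 true 5 83 83 16 0 7320) (.nx 315 82572 (.lg 1 false 5
  97 101 16 63293 43920) (.nr 320 131073 (.lg 2 false 5 97 101 16 26618 43920) .out))) .out)) (.nx
  327 2049 (.lg 0 false 5 83 83 16 0 7320) .out)) .out)) (.nr 334 257 (.lg 0 true 5 73 73 16 0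
  7320) .out)))) .out) .out))) (.na 413 24 (.na 374 23 (.nx 373 2097153 (.nr 372 1048577 (.nr 338
  18 .s1 (.nx 341 184 (.nx 340 183 (.nr 339 220 (.lg 0 true 1 29 29 9 0 483120) (.l1 .sk)) (.l1
  .sk)) (.nx 356 41286 (.nx 342 324 (.l1 (.ls 83 43 3235)) (.nr 355 623489 (.nr 349 262145 (.lg 0
  false 7 101 103 19 0 3381840) (.nx 354 2049 (.lg 0 false 5 83 83 19 0 161040) .out)) .out)) (.nr
  371 155873 (.nr 363 751 (.lg 0 true 7 83 83 19 0 225456) (.nx 370 416129 (.lg 2 false 7 101 103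
  19 63293 3381840) .out)) .out)))) .out) .out) (.nx 412 2097153 (.nr 411 1048577 (.nr 375 19 .s1
  (.nx 377 183 (.nr 376 230 (.lg 0 true 1 29 29 11 0 483120) (.l1 .sk)) (.nx 378 184 (.l1 .sk) (.nx
  379 324 (.l1 (.ls 83 37 3095)) (.nr 410 524289 (.nx 394 41287 (.nr 386 185365 (.lg 0 false 7 101
  103 16 0 3381840) (.nx 393 13005 (.lg 0 false 7 101 103 16 0 3381840) .out)) (.nr 409 110219 (.nr
  401 647 (.lg 0 true 7 79 79 16 0 10248) (.nx 408 330282 (.lg 2 false 7 101 103 16 46710 3381840)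
  .out)) .out)) .out))))) .out) .out)) (.na 451 26 (.nx 450 2097153 (.nr 449 1048577 (.nr 414 20
  .s1 (.nx 443 330282 (.nx 416 183 (.nr 415 249 (.lg 0 false 1 29 29 13 0 8784) (.l1 .sk)) (.nx 417
  184 (.l1 .sk) (.nx 418 324 (.l1 (.ls 89 43 2966)) (.nr 442 524289 (.nx 425 20644 (.nr 423 370729
  (.lg 0 false 5 103 107 23 0 43963920) (.nx 424 1292 (.lg 0 false 1 79 79 13 0 8784) .out)) (.nr
  441 131073 (.nr 430 1629 (.lg 0 true 5 79 83 23 0 43920) (.nx 435 52017 (.lg 1 false 5 101 107 23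
  106466 43963920) (.nr 440 92683 (.lg 2 false 5 101 107 23 29895 43963920) .out))) .out)) .out))))
  (.nr 448 257 (.lg 0 true 5 79 79 23 0 43920) .out))) .out) .out) (.nx 483 2097153 (.nr 482
  1048577 (.nr 452 23 .s1 (.nx 454 183 (.nr 453 259 (.lg 0 false 1 23 23 11 0 114192) (.l1 .sk))
  (.nx 455 184 (.l1 .sk) (.nx 456 324 (.l1 (.ls 83 43 2738)) (.nr 481 524289 (.nx 467 41287 (.nr
  461 185365 (.lg 0 false 5 97 101 19 0 570960) (.nx 466 13005 (.lg 0 false 5 97 97 19 0 570960)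
  .out)) (.nr 480 110219 (.nr 474 651 (.lg 0 true 7 79 79 19 0 266448) (.nx 479 330282 (.lg 2 false
  5 101 101 19 46423 6280560) .out)) .out)) .out))))) .out) .out))))) (.na 607 38 (.na 553 33 (.na
  485 29 (.lg 0 false 1 0 0 7 0 24) (.na 515 32 (.nx 514 2097153 (.nr 513 1048577 (.nr 486 26 .s1
  (.nx 490 324 (.nx 488 183 (.nr 487 307 (.lg 0 false 1 19 19 13 0 8784) (.l1 .sk)) (.nx 489 184
  (.l1 .sk) (.l1 (.ls 79 37 2455)))) (.nr 512 524289 (.nr 506 185365 (.nx 495 52017 (.lg 0 false 5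
  101 101 16 0 43920) (.nr 505 92683 (.nr 500 897 (.lg 0 true 5 79 79 16 0 7320) (.nx 504 330282
  (.lg 2 false 4 89 97 16 33691 8784) .out)) .out)) (.nx 511 13005 (.lg 0 false 5 97 97 16 0 43920)
  .out)) .out))) .out) .out) (.nx 552 2097153 (.nr 551 1048577 (.nr 516 30 .s1 (.nx 519 184 (.nx
  518 183 (.nr 517 316 (.l1 (.ls 29 31 1049)) (.l1 .sk)) (.l1 .sk)) (.nx 528 13005 (.nx 520 324
  (.l1 (.ls 89 41 2225)) (.nr 527 623489 (.lg 0 false 7 101 103 23 0 43963920) .out)) (.nr 550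
  185365 (.nx 530 20644 (.lg 0 false 2 89 89 13 0 2928) (.nr 549 131073 (.nx 545 330282 (.nr 535
  22548 (.nr 533 7758 (.lg 0 true 3 89 89 19 0 8784) (.lg 2 false 2 73 73 13 18438 2928)) (.nx 537
  52017 (.lg 0 false 2 103 107 13 0 43963920) (.nr 544 92683 (.nr 542 77937 (.lg 2 true 5 73 73 19
  25148 14640) (.nx 543 104033 (.lg 0 false 1 101 101 13 0 483120) .out)) .out))) (.nr 548 257 (.lg
  0 true 3 79 79 19 0 8784) .out)) .out)) .out)))) .out) .out))) (.na 581 34 (.nx 580 2097153 (.nr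
  579 881745 (.nr 554 31 .s1 (.nx 556 183 (.nr 555 326 (.lg 0 false 1 23 23 16 0 483120) (.l1 .sk))
  (.nx 557 184 (.l1 .sk) (.nx 558 324 (.l1 (.ls 79 41 2158)) (.nr 578 623489 (.nx 565 26009 (.lg 0
  false 7 101 103 19 0 3381840) (.nr 577 77937 (.nr 572 326 (.lg 0 true 7 73 73 19 0 338184) (.nx
  576 208065 (.lg 2 false 4 97 97 17 58399 483120) .out)) .out)) .out))))) .out) .out) (.na 606 36
  (.nx 605 2097153 (.nr 604 881745 (.nr 582 32 .s1 (.nx 585 184 (.nx 584 183 (.nr 583 345 (.lg 0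
  false 1 23 23 13 0 96624) (.l1 .sk)) (.l1 .sk)) (.nx 586 324 (.l1 (.ls 79 41 2094)) (.nr 603
  623489 (.nx 591 26009 (.lg 0 false 5 101 103 13 0 483120) (.nr 602 77937 (.nr 596 345 (.lg 0 true
  5 73 73 13 0 14640) (.nx 601 208065 (.lg 2 false 5 97 101 13 55183 483120) .out)) .out)) .out))))
  .out) .out) (.lg 0 false 1 0 0 7 0 24)))) (.na 678 46 (.na 631 39 (.nx 630 2097153 (.nr 629
  881745 (.nr 608 36 .s1 (.nx 620 26009 (.nx 612 324 (.nx 610 183 (.nr 609 374 (.lg 0 false 1 23 23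
  13 0 43920) (.l1 .sk)) (.nx 611 184 (.l1 .sk) (.l1 (.ls 83 41 1874)))) (.nr 619 623489 (.lg 0
  false 7 101 103 17 0 307440) .out)) (.nr 628 77937 (.nr 625 374 (.lg 0 true 5 73 73 17 0 14640)
  (.nx 627 208065 (.lg 2 true 2 101 101 13 50904 307440) .out)) .out))) .out) .out) (.na 655 44
  (.nx 654 2097153 (.nr 653 881745 (.nr 632 37 .s1 (.nx 635 184 (.nx 634 183 (.nr 633 422 (.l1 (.ls
  23 31 861)) (.l1 .sk)) (.l1 .sk)) (.nx 636 324 (.l1 (.ls 79 37 1826)) (.nr 652 623489 (.nx 641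
  26009 (.lg 0 false 5 97 97 19 0 285480) (.nr 651 77937 (.nr 646 422 (.lg 0 true 5 71 71 19 0
  285480) (.nx 650 208065 (.lg 2 false 4 89 89 17 50295 114192) .out)) .out)) .out)))) .out) .out)
  (.nx 677 2097153 (.nr 676 881745 (.nr 656 42 .s1 (.nx 673 208065 (.nx 658 183 (.nr 657 441 (.l1
  (.ls 29 37 764)) (.l1 .sk)) (.nx 659 184 (.l1 .sk) (.nx 669 32769 (.nx 666 13005 (.nx 660 324
  (.l1 (.ls 79 41 1619)) (.nr 665 623489 (.lg 0 false 5 89 97 29 0 483120) .out)) (.nr 668 155873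
  (.lg 0 false 2 89 97 23 0 96624) .out)) (.nr 672 65537 (.nr 670 1239 (.lg 0 true 1 73 73 19 0
  32208) (.lg 2 false 2 89 97 23 33583 96624)) .out)))) (.nr 675 257 (.lg 0 true 2 71 71 23 0
  32208) .out))) .out) .out))) (.na 720 51 (.na 697 48 (.nx 696 2097153 (.nr 695 881745 (.nr 679 44
  .s1 (.nx 680 324 (.l1 (.ls 79 43 2285)) (.nr 694 741457 (.nx 685 26009 (.lg 0 false 5 101 101 19
  0 43920) (.nr 693 65537 (.nr 690 460 (.lg 0 true 5 73 73 19 0 14640) (.nx 692 208065 (.lg 2 false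
  2 89 89 13 42312 2928) .out)) .out)) .out))) .out) .out) (.nx 719 2097153 (.nr 718 881745 (.nr
  698 47 .s1 (.nx 701 184 (.nx 700 183 (.nr 699 489 (.l1 (.ls 29 37 700)) (.l1 .sk)) (.l1 .sk))
  (.nx 710 20644 (.nx 702 324 (.l1 (.ls 83 41 1484)) (.nr 709 741457 (.lg 0 false 7 89 101 31 0
  307440) .out)) (.nr 717 110219 (.nr 715 46342 (.nr 713 489 (.lg 0 true 3 79 79 29 0 8784) (.nx
  714 208065 (.lg 2 true 1 97 97 19 38933 43920) .out)) (.nx 716 32769 (.lg 0 false 1 89 89 19 0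
  43920) .out)) .out)))) .out) .out)) (.na 739 52 (.nx 738 2097153 (.nr 737 881745 (.nr 721 50 .s1
  (.nx 722 324 (.l1 (.ls 73 41 2061)) (.nr 736 741457 (.nx 727 26009 (.lg 0 false 5 97 97 16 0
  21960) (.nr 735 65537 (.nr 732 498 (.lg 0 true 5 71 71 16 0 21960) (.nx 734 208065 (.lg 2 true 2
  89 89 16 42312 8784) .out)) .out)) .out))) .out) .out) (.nx 758 2097153 (.nr 757 881745 (.nr 740
  51 .s1 (.nx 744 324 (.nx 742 183 (.nr 741 508 (.l1 (.ls 31 37 647)) (.l1 .sk)) (.nx 743 184 (.l1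
  .sk) (.l1 (.ls 83 41 1370)))) (.nr 756 741457 (.nr 752 155873 (.nx 749 208065 (.nx 746 32769 (.lg
  0 false 2 101 101 23 0 570960) (.nr 748 46342 (.nr 747 1378 (.lg 0 true 1 73 73 19 0 38064) (.lg
  2 true 1 89 89 19 23774 38064)) .out)) (.nr 751 257 (.lg 0 true 2 73 73 23 0 38064) .out)) (.nx
  755 16385 (.lg 0 false 3 97 103 23 0 570960) .out)) .out))) .out) .out)))))) (.na 950 73 (.na 853
  64 (.na 794 58 (.na 776 54 (.nx 775 2097153 (.nr 774 881745 (.nr 760 52 .s1 (.nx 761 324 (.l1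
  (.ls 79 29 1983)) (.nr 773 741457 (.nx 765 26009 (.lg 0 false 4 101 101 16 0 43920) (.nr 772
  65537 (.nr 769 518 (.lg 0 true 4 73 73 16 0 2928) (.nx 771 208065 (.lg 2 false 2 89 89 16 42312
  2928) .out)) .out)) .out))) .out) .out) (.na 777 57 (.lg 0 false 1 0 0 16 0 24) (.nx 793 2097153
  (.nr 792 881745 (.nr 778 56 .s1 (.nx 779 324 (.l1 (.ls 79 37 1844)) (.nr 791 741457 (.nx 783
  26009 (.lg 0 false 4 97 97 17 0 43920) (.nr 790 65537 (.nr 787 556 (.lg 0 true 4 71 71 17 0 8784)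
  (.nx 789 208065 (.lg 2 true 2 89 89 16 42312 43920) .out)) .out)) .out))) .out) .out))) (.na 815
  59 (.nx 814 2097153 (.nr 813 881745 (.nr 795 57 .s1 (.nx 804 26009 (.nx 796 324 (.l1 (.ls 79 41
  1812)) (.nr 803 741457 (.lg 0 false 7 97 101 23 0 307440) .out)) (.nr 812 65537 (.nr 809 565 (.lg
  0 true 5 73 73 19 0 14640) (.nx 811 208065 (.lg 2 false 2 83 83 13 42312 2928) .out)) .out)))
  .out) .out) (.na 834 61 (.nx 833 2097153 (.nr 832 881745 (.nr 816 58 .s1 (.nx 817 324 (.l1 (.ls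
  73 29 1782)) (.nr 831 741457 (.nx 822 26009 (.lg 0 false 5 97 97 16 0 7320) (.nr 830 65537 (.nr
  827 585 (.lg 0 true 5 71 71 16 0 7320) (.nx 829 208065 (.lg 2 false 2 89 89 16 42312 2928) .out))
  .out)) .out))) .out) .out) (.nx 852 2097153 (.nr 851 881745 (.nr 835 60 .s1 (.nx 842 26009 (.nx
  836 324 (.l1 (.ls 67 29 1723)) (.nr 841 741457 (.lg 0 false 5 79 79 16 0 7320) .out)) (.nr 850
  65537 (.nr 847 613 (.lg 0 true 5 53 53 16 0 7320) (.nx 849 208065 (.lg 2 true 2 73 73 16 42312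
  2928) .out)) .out))) .out) .out)))) (.na 891 68 (.na 873 65 (.nx 872 2097153 (.nr 871 2097153
  (.nr 854 63 .s1 (.nx 864 20644 (.nx 856 183 (.nr 855 623 (.l1 (.ls 23 29 526)) (.l1 .sk)) (.nx
  857 184 (.l1 .sk) (.nx 858 324 (.l1 (.ls 79 37 1114)) (.nr 863 1048577 (.lg 0 false 5 89 97 23 0
  43920) .out)))) (.nr 870 110219 (.nr 868 46342 (.nr 866 513 (.lg 0 true 2 71 71 19 0 2928) (.nx
  867 208065 (.lg 2 true 1 83 83 17 37738 2928) .out)) (.nx 869 32769 (.lg 0 false 1 79 79 17 0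
  2928) .out)) .out))) .out) .out) (.na 874 66 .ne (.nx 890 2097153 (.nr 889 2097153 (.nr 875 65
  .s1 (.nx 876 324 (.l1 (.ls 83 43 1593)) (.nr 888 1048577 (.nx 881 20644 (.lg 0 false 5 97 97 31 0
  483120) (.nr 887 65537 (.nr 884 513 (.lg 0 true 3 71 71 29 0 96624) (.nx 886 131073 (.lg 2 false
  2 83 83 29 53308 96624) .out)) .out)) .out))) .out) .out))) (.na 931 71 (.na 913 69 (.nx 912
  2097153 (.nr 911 2097153 (.nr 892 67 .s1 (.nx 904 20644 (.nx 894 183 (.nr 893 661 (.l1 (.ls 29 31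
  495)) (.l1 .sk)) (.nx 895 184 (.l1 .sk) (.nx 896 324 (.l1 (.ls 89 37 1048)) (.nr 903 1048577 (.lg
  0 false 7 89 101 31 0 307440) .out)))) (.nr 910 65537 (.nr 906 513 (.lg 0 true 2 73 73 23 0 2928)
  (.nx 909 131073 (.nr 907 32769 (.lg 2 false 1 83 83 13 26729 2928) (.nx 908 32769 (.lg 0 false 1
  79 79 13 0 2928) .out)) .out)) .out))) .out) .out) (.nx 930 2097153 (.nr 929 2097153 (.nr 914 68
  .s1 (.nx 915 324 (.l1 (.ls 79 37 1524)) (.nr 928 1048577 (.nx 920 20644 (.lg 0 false 5 89 89 19 0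
  21960) (.nr 927 65537 (.nr 924 513 (.lg 0 true 4 67 67 17 0 8784) (.nx 926 131073 (.lg 2 false 2
  83 83 17 53308 8784) .out)) .out)) .out))) .out) .out)) (.na 949 72 (.nx 948 2097153 (.nr 947
  2097153 (.nr 932 70 .s1 (.nx 933 324 (.l1 (.ls 79 29 1481)) (.nr 946 1048577 (.nx 938 20644 (.lg
  0 false 5 89 89 16 0 7320) (.nr 945 65537 (.nr 942 513 (.lg 0 true 4 59 59 16 0 2928) (.nx 944
  131073 (.lg 2 false 2 83 83 16 53308 2928) .out)) .out)) .out))) .out) .out) (.lg 0 false 1 0 0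
  16 0 24))))) (.na 1038 89 (.na 1003 81 (.na 966 76 (.nx 965 2097153 (.nr 964 2097153 (.nr 951 72
  .s1 (.nx 952 324 (.l1 (.ls 71 29 1441)) (.nr 963 1048577 (.nx 956 20644 (.lg 0 false 4 97 97 16 0
  43920) (.nr 962 65537 (.nr 959 513 (.lg 0 true 3 67 67 16 0 4392) (.nx 961 131073 (.lg 2 false 2
  83 83 16 53308 2928) .out)) .out)) .out))) .out) .out) (.na 986 78 (.nx 985 2097153 (.nr 984
  2097153 (.nr 967 75 .s1 (.nx 971 324 (.nx 969 183 (.nr 968 748 (.l1 (.ls 17 31 443)) (.l1 .sk))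
  (.nx 970 184 (.l1 .sk) (.l1 (.ls 83 37 938)))) (.nr 983 1048577 (.nx 976 20644 (.lg 0 false 5 97
  103 31 0 483120) (.nr 982 65537 (.nr 978 513 (.lg 0 true 2 73 73 23 0 2928) (.nx 981 131073 (.nr
  979 32769 (.lg 2 true 1 83 83 17 26729 2928) (.nx 980 32769 (.lg 0 false 1 79 79 17 0 2928)
  .out)) .out)) .out)) .out))) .out) .out) (.nx 1002 2097153 (.nr 1001 2097153 (.nr 987 77 .s1 (.nx
  994 20644 (.nx 988 324 (.l1 (.ls 83 43 1348)) (.nr 993 1048577 (.lg 0 false 5 89 97 31 0 570960)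
  .out)) (.nr 1000 65537 (.nr 997 513 (.lg 0 true 3 71 71 29 0 114192) (.nx 999 131073 (.lg 2 false
  2 83 83 29 53308 114192) .out)) .out))) .out) .out))) (.na 1004 87 (.lg 0 false 1 0 0 16 0 24)
  (.na 1020 88 (.nx 1019 2097153 (.nr 1018 2097153 (.nr 1005 86 .s1 (.nx 1011 20644 (.nx 1006 324
  (.l1 (.ls 83 37 1209)) (.nr 1010 1048577 (.lg 0 false 4 97 97 19 0 8784) .out)) (.nr 1017 65537
  (.nr 1014 513 (.lg 0 true 3 71 71 17 0 4392) (.nx 1016 131073 (.lg 2 false 2 83 83 17 53308 8784)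
  .out)) .out))) .out) .out) (.nx 1037 2097153 (.nr 1036 2097153 (.nr 1021 87 .s1 (.nx 1025 324
  (.nx 1023 183 (.nr 1022 853 (.l1 (.ls 37 31 383)) (.l1 .sk)) (.nx 1024 184 (.l1 .sk) (.l1 (.ls 97
  37 811)))) (.nr 1035 1048577 (.nx 1029 20644 (.nr 1027 741457 (.lg 0 false 2 103 107 29 0
  43963920) (.nx 1028 8192 .out (.lg 0 false 1 101 101 29 0 483120))) (.nr 1034 65537 (.nr 1032
  32769 (.nr 1030 513 (.lg 0 true 1 79 79 29 0 32208) (.nx 1031 131073 (.lg 2 false 1 83 89 29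
  26729 32208) .out)) (.nx 1033 32769 (.lg 0 false 1 83 89 29 0 483120) .out)) .out)) .out))) .out)
  .out)))) (.na 1073 96 (.na 1055 91 (.nx 1054 2097153 (.nr 1053 2097153 (.nr 1039 88 .s1 (.nx 1046
  32769 (.nx 1040 324 (.l1 (.ls 73 29 1182)) (.nr 1045 1048577 (.lg 0 false 5 83 83 17 0 7320)
  .out)) (.nr 1052 32769 (.nr 1050 872 (.lg 0 true 4 59 67 16 0 2928) (.nx 1051 131073 (.lg 2 true
  1 71 71 16 16839 1464) .out)) .out))) .out) .out) (.na 1056 92 .ne (.nx 1072 2097153 (.nr 1071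
  2097153 (.nr 1057 92 .s1 (.nx 1068 131073 (.nx 1064 20644 (.nx 1058 324 (.l1 (.ls 89 41 1144))
  (.nr 1063 1048577 (.lg 0 false 5 89 97 31 0 43920) .out)) (.nr 1067 65537 (.nr 1065 32769 (.lg 0
  false 1 89 89 19 0 2928) (.nx 1066 32769 (.lg 0 false 1 79 79 19 0 2928) .out)) .out)) (.nr 1070
  513 (.lg 0 true 2 73 73 19 0 2928) .out))) .out) .out))) (.na 1102 99 (.na 1088 97 (.nx 1087
  2097153 (.nr 1086 2097153 (.nr 1074 96 .s1 (.nx 1081 20644 (.nx 1075 324 (.l1 (.ls 79 41 1096))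
  (.nr 1080 1048577 (.lg 0 false 5 83 89 31 0 43920) .out)) (.nr 1085 65537 (.nr 1083 513 (.lg 0
  true 2 67 67 29 0 8784) (.nx 1084 131073 (.lg 2 false 1 83 83 23 53308 8784) .out)) .out))) .out)
  .out) (.nx 1101 2097153 (.nr 1100 2097153 (.nr 1089 97 .s1 (.nx 1095 20644 (.nx 1090 324 (.l1
  (.ls 73 23 1085)) (.nr 1094 1048577 (.lg 0 false 4 83 83 17 0 2928) .out)) (.nr 1099 65537 (.nr
  1097 513 (.lg 0 true 2 67 67 16 0 2928) (.nx 1098 131073 (.lg 2 true 1 79 79 16 53308 1464)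
  .out)) .out))) .out) .out)) (.na 1103 101 (.lg 0 false 1 0 0 16 0 24) (.nx 1117 2097153 (.nr 1116
  2097153 (.nr 1104 101 .s1 (.nx 1111 32769 (.nx 1105 324 (.l1 (.ls 71 23 1042)) (.nr 1110 1048577
  (.lg 0 false 5 83 83 17 0 7320) .out)) (.nr 1115 32769 (.nr 1113 513 (.lg 0 true 2 67 67 16 0
  2928) (.nx 1114 131073 (.lg 2 true 1 71 71 16 23379 1464) .out)) .out))) .out) .out))))))) (.na
  1384 151 (.na 1285 128 (.na 1196 114 (.na 1165 106 (.na 1132 103 (.nx 1131 2097153 (.nr 1130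
  2097153 (.nr 1119 102 .s1 (.nx 1124 20644 (.nx 1120 324 (.l1 (.ls 83 43 1032)) (.nr 1123 1048577
  (.lg 0 false 3 97 97 31 0 43920) .out)) (.nr 1129 65537 (.nr 1126 513 (.lg 0 true 2 71 71 29 0
  8784) (.nx 1128 131073 (.lg 2 false 2 83 83 29 53308 8784) .out)) .out))) .out) .out) (.na 1146
  104 (.nx 1145 2097153 (.nr 1144 2097153 (.nr 1133 103 .s1 (.nx 1139 20644 (.nx 1134 324 (.l1 (.ls
  73 23 1022)) (.nr 1138 1048577 (.lg 0 false 4 83 83 17 0 2928) .out)) (.nr 1143 65537 (.nr 1141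
  513 (.lg 0 true 2 67 67 16 0 2928) (.nx 1142 131073 (.lg 2 true 1 79 79 16 53308 1464) .out))
  .out))) .out) .out) (.nx 1164 2097153 (.nr 1163 2097153 (.nr 1147 104 .s1 (.nx 1149 183 (.nr 1148
  1016 (.l1 (.ls 31 31 325)) (.l1 .sk)) (.nx 1150 184 (.l1 .sk) (.nx 1151 324 (.l1 (.ls 89 37 686))
  (.nr 1162 1048577 (.nx 1156 20644 (.lg 0 false 5 89 101 37 0 570960) (.nr 1161 65537 (.nr 1159
  32769 (.nr 1157 513 (.lg 0 true 1 73 73 29 0 38064) (.nx 1158 131073 (.lg 2 false 1 83 83 29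
  26729 114192) .out)) (.nx 1160 32769 (.lg 0 false 1 79 79 29 0 114192) .out)) .out)) .out)))))
  .out) .out))) (.na 1180 108 (.nx 1179 2097153 (.nr 1178 2097153 (.nr 1166 106 .s1 (.nx 1173 32769
  (.nx 1167 324 (.l1 (.ls 79 31 993)) (.nr 1172 1048577 (.lg 0 false 5 89 89 23 0 14640) .out))
  (.nr 1177 32769 (.nr 1175 513 (.lg 0 true 2 67 67 19 0 2928) (.nx 1176 131073 (.lg 2 true 1 73 73
  19 23379 2928) .out)) .out))) .out) .out) (.na 1181 109 (.lg 0 false 1 0 0 16 0 24) (.nx 1195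
  2097153 (.nr 1194 2097153 (.nr 1182 109 .s1 (.nx 1189 32769 (.nx 1183 324 (.l1 (.ls 71 23 966))
  (.nr 1188 1048577 (.lg 0 false 5 83 83 17 0 7320) .out)) (.nr 1193 32769 (.nr 1191 513 (.lg 0
  true 2 67 67 16 0 2928) (.nx 1192 131073 (.lg 2 true 1 71 71 16 23379 1464) .out)) .out))) .out)
  .out)))) (.na 1227 118 (.na 1211 116 (.nx 1210 2097153 (.nr 1209 2097153 (.nr 1197 114 .s1 (.nx
  1204 32769 (.nx 1198 324 (.l1 (.ls 79 41 923)) (.nr 1203 1048577 (.lg 0 false 5 89 89 37 0 43920)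
  .out)) (.nr 1208 32769 (.nr 1206 513 (.lg 0 true 2 67 67 31 0 8784) (.nx 1207 131073 (.lg 2 true
  1 73 73 29 23379 8784) .out)) .out))) .out) .out) (.na 1226 117 (.nx 1225 2097153 (.nr 1224
  2097153 (.nr 1212 116 .s1 (.nx 1219 20644 (.nx 1213 324 (.l1 (.ls 83 37 907)) (.nr 1218 1048577
  (.lg 0 false 5 89 97 23 0 43920) .out)) (.nr 1223 65537 (.nr 1221 513 (.lg 0 true 2 71 71 23 0
  2928) (.nx 1222 131073 (.lg 2 true 1 89 89 19 53308 2928) .out)) .out))) .out) .out) (.lg 0 false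
  1 0 0 16 0 24))) (.na 1255 122 (.na 1240 121 (.nx 1239 2097153 (.nr 1238 2097153 (.nr 1228 118
  .s1 (.nx 1229 324 (.l1 (.ls 79 31 892)) (.nr 1237 1048577 (.nx 1232 20644 (.lg 0 false 3 89 89 23
  0 8784) (.nr 1236 65537 (.nr 1234 513 (.lg 0 true 2 67 67 19 0 2928) (.nx 1235 131073 (.lg 2 true
  1 83 83 19 53308 2928) .out)) .out)) .out))) .out) .out) (.nx 1254 2097153 (.nr 1253 2097153 (.nr
  1241 121 .s1 (.nx 1242 324 (.l1 (.ls 71 29 870)) (.nr 1252 1048577 (.nx 1247 32769 (.lg 0 false 5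
  83 83 19 0 80520) (.nr 1251 32769 (.nr 1249 513 (.lg 0 true 2 67 67 17 0 32208) (.nx 1250 131073
  (.lg 2 true 1 67 67 17 23379 16104) .out)) .out)) .out))) .out) .out)) (.na 1271 127 (.nx 1270
  2097153 (.nr 1269 2097153 (.nr 1256 122 .s1 (.nx 1263 32769 (.nx 1257 324 (.l1 (.ls 89 31 863))
  (.nr 1262 1048577 (.lg 0 false 5 79 79 23 0 14640) .out)) (.nr 1268 32769 (.nr 1265 513 (.lg 0
  false 2 67 67 19 0 483120) (.nx 1267 131073 (.lg 2 true 2 67 67 19 23379 3381840) .out)) .out)))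
  .out) .out) (.nx 1284 2097153 (.nr 1283 2097153 (.nr 1272 127 .s1 (.nx 1278 32769 (.nx 1273 324
  (.l1 (.ls 73 23 829)) (.nr 1277 1048577 (.lg 0 false 4 83 83 17 0 43920) .out)) (.nr 1282 32769
  (.nr 1280 513 (.lg 0 true 2 59 59 16 0 2928) (.nx 1281 131073 (.lg 2 true 1 67 67 16 23379 1464)
  .out)) .out))) .out) .out))))) (.na 1326 138 (.na 1299 132 (.na 1297 129 (.nx 1296 2097153 (.nr
  1295 2097153 (.nr 1286 128 .s1 (.nx 1290 20644 (.nx 1287 324 (.l1 (.ls 79 31 823)) (.nr 1289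
  1482912 (.lg 0 false 2 97 97 23 0 43920) .out)) (.nr 1294 65537 (.nr 1292 1025 (.lg 0 true 2 71
  71 23 0 2928) (.nx 1293 131073 (.lg 2 false 1 83 83 19 53308 2928) .out)) .out))) .out) .out)
  (.na 1298 131 .ne (.lg 0 false 1 0 0 16 0 24))) (.na 1311 136 (.nx 1310 1048577 (.nr 1309 1482912
  (.nr 1300 132 .s1 (.nx 1303 184 (.nx 1302 183 (.nr 1301 1303 (.l1 (.ls 31 37 256)) (.l1 .sk))
  (.l1 .sk)) (.nx 1305 16385 (.lg 0 false 2 97 97 31 0 483120) (.nr 1308 65537 (.nx 1306 131073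
  (.lg 0 false 1 97 97 31 0 483120) (.nr 1307 1025 (.lg 0 true 1 73 73 31 0 96624) .out)) .out))))
  .out) .out) (.na 1325 137 (.nx 1324 1048577 (.nr 1323 1482912 (.nr 1312 136 .s1 (.nx 1315 184
  (.nx 1314 183 (.nr 1313 1313 (.l1 (.ls 31 29 249)) (.l1 .sk)) (.l1 .sk)) (.nx 1321 131073 (.nx
  1317 16385 (.lg 0 false 2 101 107 31 0 8792784) (.nr 1320 65537 (.nr 1318 16385 (.lg 0 true 1 83
  89 29 0 8784) (.nx 1319 32769 (.lg 0 false 1 79 83 29 0 8784) .out)) .out)) (.nr 1322 1025 (.lg 0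
  true 1 79 79 29 0 2928) .out)))) .out) .out) (.lg 0 false 1 0 0 16 0 24)))) (.na 1355 143 (.na
  1340 139 (.nx 1339 1048577 (.nr 1338 1482912 (.nr 1327 138 .s1 (.nx 1336 131073 (.nx 1329 183
  (.nr 1328 1332 (.l1 (.ls 19 37 245)) (.l1 .sk)) (.nx 1330 184 (.l1 .sk) (.nr 1332 65537 (.lg 0
  false 2 83 83 31 0 43920) (.nx 1335 16385 (.lg 0 false 3 83 83 31 0 8784) .out)))) (.nr 1337 1025
  (.lg 0 false 1 71 71 19 0 8784) .out))) .out) .out) (.na 1341 142 (.lg 0 false 1 0 0 16 0 24)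
  (.nx 1354 1048577 (.nr 1353 1482912 (.nr 1342 142 .s1 (.nx 1344 183 (.nr 1343 1370 (.l1 (.ls 19
  23 238)) (.l1 .sk)) (.nx 1345 184 (.l1 .sk) (.nr 1349 65537 (.nx 1347 131073 (.lg 0 true 2 83 83
  23 0 2928) (.nr 1348 1025 (.lg 0 false 1 73 73 19 0 2928) .out)) (.nx 1352 16385 (.lg 0 false 3
  89 89 23 0 8784) .out))))) .out) .out))) (.na 1368 146 (.na 1367 144 (.nx 1366 1048577 (.nr 1365
  1482912 (.nr 1356 143 .s1 (.nx 1358 183 (.nr 1357 1380 (.l1 (.ls 31 23 237)) (.l1 .sk)) (.nx 1359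
  184 (.l1 .sk) (.nr 1362 65537 (.nx 1360 131073 (.lg 0 false 1 101 101 19 0 6280560) (.nr 1361
  1025 (.lg 0 true 1 71 71 19 0 209352) .out)) (.nx 1364 16385 (.lg 0 false 2 101 101 23 0 6280560)
  .out))))) .out) .out) (.lg 0 false 1 0 0 16 0 24)) (.na 1383 149 (.nx 1382 1048577 (.nr 1381
  1482912 (.nr 1369 146 .s1 (.nx 1371 183 (.nr 1370 1428 (.l1 (.ls 16 23 232)) (.l1 .sk)) (.nx 1372
  184 (.l1 .sk) (.nx 1377 32769 (.lg 0 false 5 89 89 29 0 43920) (.nr 1380 16385 (.nr 1378 1025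
  (.lg 0 false 1 67 67 19 0 8784) (.nx 1379 131073 (.lg 2 true 1 53 53 19 11701 8784) .out))
  .out))))) .out) .out) (.lg 0 false 1 0 0 16 0 24)))))) (.na 1487 176 (.na 1426 162 (.na 1398 156
  (.na 1385 152 (.lg 0 false 1 0 0 16 0 24) (.na 1397 153 (.nx 1396 1048577 (.nr 1395 1482912 (.nr
  1386 152 .s1 (.nx 1388 183 (.nr 1387 1466 (.l1 (.ls 17 29 223)) (.l1 .sk)) (.nx 1389 184 (.l1
  .sk) (.nx 1393 131073 (.nr 1390 65537 (.lg 0 true 1 97 101 29 0 43920) (.nx 1392 16385 (.lg 0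
  false 2 97 101 31 0 43920) .out)) (.nr 1394 1025 (.lg 0 true 1 73 73 29 0 2928) .out))))) .out)
  .out) (.lg 0 false 1 0 0 16 0 24))) (.na 1410 157 (.nx 1409 1048577 (.nr 1408 1482912 (.nr 1399
  156 .s1 (.nx 1402 184 (.nx 1401 183 (.nr 1400 1504 (.l1 (.ls 23 37 217)) (.l1 .sk)) (.l1 .sk))
  (.nx 1404 16385 (.lg 0 false 2 89 89 37 0 114192) (.nr 1407 65537 (.nx 1405 131073 (.lg 0 true 1
  83 83 31 0 114192) (.nr 1406 1025 (.lg 0 true 1 67 67 31 0 114192) .out)) .out)))) .out) .out)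
  (.na 1411 159 (.lg 0 false 1 0 0 16 0 24) (.nx 1425 1048577 (.nr 1424 1482912 (.nr 1412 159 .s1
  (.nx 1415 184 (.nx 1414 183 (.nr 1413 1552 (.l1 (.ls 16 19 213)) (.l1 .sk)) (.l1 .sk)) (.nx 1420
  32769 (.lg 0 false 5 83 83 23 0 21960) (.nr 1423 16385 (.nr 1421 1025 (.lg 0 false 1 67 67 17 0
  4392) (.nx 1422 131073 (.lg 2 true 1 53 53 17 11701 8784) .out)) .out)))) .out) .out)))) (.na
  1442 169 (.na 1427 163 (.lg 0 false 1 0 0 16 0 24) (.na 1441 167 (.nx 1440 1048577 (.nr 1439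
  1482912 (.nr 1428 163 .s1 (.nx 1430 183 (.nr 1429 1600 (.l1 (.ls 17 17 208)) (.l1 .sk)) (.nx 1431
  184 (.l1 .sk) (.nx 1435 32769 (.lg 0 false 4 83 83 17 0 43920) (.nr 1438 16385 (.nr 1436 1025
  (.lg 0 false 1 67 67 16 0 1464) (.nx 1437 131073 (.lg 2 true 1 47 47 16 11701 1464) .out))
  .out))))) .out) .out) (.lg 0 false 1 0 0 16 0 24))) (.na 1458 173 (.na 1457 171 (.nx 1456 1048577
  (.nr 1455 1482912 (.nr 1443 169 .s1 (.nx 1445 183 (.nr 1444 1638 (.l1 (.ls 17 19 201)) (.l1 .sk))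
  (.nx 1446 184 (.l1 .sk) (.nx 1451 32769 (.lg 0 false 5 83 83 23 0 95160) (.nr 1454 16385 (.nr
  1452 1025 (.lg 0 false 1 67 67 17 0 19032) (.nx 1453 131073 (.lg 2 false 1 53 53 17 11701 114192)
  .out)) .out))))) .out) .out) (.lg 0 false 1 0 0 16 0 24)) (.na 1472 174 (.nx 1471 1048577 (.nr
  1470 1482912 (.nr 1459 173 .s1 (.nx 1461 183 (.nr 1460 1667 (.l1 (.ls 17 17 196)) (.l1 .sk)) (.nx
  1462 184 (.l1 .sk) (.nx 1466 32769 (.lg 0 false 4 83 83 17 0 43920) (.nr 1469 16385 (.nr 1467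
  1025 (.lg 0 false 1 67 67 16 0 43920) (.nx 1468 131073 (.lg 2 true 1 47 47 16 11701 1464) .out))
  .out))))) .out) .out) (.nx 1486 1048577 (.nr 1485 1482912 (.nr 1473 174 .s1 (.nx 1475 183 (.nr
  1474 1686 (.l1 (.ls 17 37 195)) (.l1 .sk)) (.nx 1476 184 (.l1 .sk) (.nx 1481 32769 (.lg 0 false 5
  83 83 37 0 43920) (.nr 1484 16385 (.nr 1482 1025 (.lg 0 false 1 67 67 23 0 8784) (.nx 1483 131073
  (.lg 2 true 1 53 53 23 11701 8784) .out)) .out))))) .out) .out))))) (.na 1527 183 (.na 1524 179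
  (.na 1498 177 (.nx 1497 1048577 (.nr 1496 1482912 (.nr 1488 176 .s1 (.nx 1491 184 (.nx 1490 183
  (.nr 1489 1696 (.l1 (.ls 31 29 193)) (.l1 .sk)) (.l1 .sk)) (.nr 1494 65537 (.nx 1492 131073 (.lg
  0 true 1 89 97 31 0 96624) (.nr 1493 1025 (.lg 0 true 1 73 73 31 0 32208) .out)) (.nx 1495 16385
  (.lg 0 false 1 97 97 31 0 96624) .out)))) .out) .out) (.na 1512 178 (.nx 1511 1048577 (.nr 1510
  1482912 (.nr 1499 177 .s1 (.nx 1501 183 (.nr 1500 1705 (.l1 (.ls 17 19 192)) (.l1 .sk)) (.nx 1502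
  184 (.l1 .sk) (.nx 1506 32769 (.lg 0 false 4 89 89 23 0 8784) (.nr 1509 16385 (.nr 1507 1025 (.lg
  0 false 1 71 71 17 0 4392) (.nx 1508 131073 (.lg 2 false 1 47 47 17 11701 4392) .out)) .out)))))
  .out) .out) (.nx 1523 1048577 (.nr 1522 1482912 (.nr 1513 178 .s1 (.nx 1520 131073 (.nx 1515 183
  (.nr 1514 1715 (.l1 (.ls 19 23 191)) (.l1 .sk)) (.nx 1516 184 (.l1 .sk) (.nx 1518 16385 (.lg 0
  false 2 79 79 23 0 2928) (.nr 1519 65537 (.lg 0 false 1 79 79 19 0 2928) .out)))) (.nr 1521 1025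
  (.lg 0 false 1 67 67 19 0 43920) .out))) .out) .out))) (.na 1525 181 (.lg 0 false 1 0 0 16 0 24)
  (.na 1526 182 (.lg 0 false 1 0 0 16 0 24) .ne))) (.na 1565 191 (.na 1542 184 (.nx 1541 1048577
  (.nr 1540 1048577 (.nr 1528 183 .s1 (.nx 1531 184 (.nx 1530 183 (.nr 1529 1763 (.l1 (.ls 16 19
  185)) (.l1 .sk)) (.l1 .sk)) (.nx 1535 32769 (.lg 0 false 4 73 73 19 0 8784) (.nr 1539 16385 (.lg
  0 true 4 71 71 19 0 8784) .out)))) .out) .out) (.na 1553 187 (.nx 1552 1048577 (.nr 1551 1048577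
  (.nr 1543 184 .s1 (.nx 1549 131073 (.nx 1545 183 (.nr 1544 1792 (.l1 (.ls 19 19 185)) (.l1 .sk))
  (.nx 1546 184 (.l1 .sk) (.nr 1547 65537 (.lg 0 true 1 89 97 31 0 8784) (.nx 1548 16385 (.lg 0
  false 1 97 97 31 0 8784) .out)))) (.nr 1550 1025 (.lg 0 true 1 73 73 31 0 2928) .out))) .out)
  .out) (.nx 1564 1048577 (.nr 1563 1048577 (.nr 1554 187 .s1 (.nx 1557 184 (.nx 1556 183 (.nr 1555
  1830 (.l1 (.ls 16 23 182)) (.l1 .sk)) (.l1 .sk)) (.nr 1560 65537 (.nx 1558 131073 (.lg 0 false 1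
  89 89 23 0 16104) (.nr 1559 1025 (.lg 0 true 1 67 67 23 0 16104) .out)) (.nx 1562 16385 (.lg 0
  false 2 89 89 29 0 32208) .out)))) .out) .out))) (.na 1589 193 (.na 1577 192 (.nx 1576 1048577
  (.nr 1575 1048577 (.nr 1566 191 .s1 (.nx 1569 184 (.nx 1568 183 (.nr 1567 1840 (.l1 (.ls 16 17
  178)) (.l1 .sk)) (.l1 .sk)) (.nx 1571 32769 (.lg 0 false 2 79 79 17 0 2928) (.nr 1574 16385 (.nr
  1572 1025 (.lg 0 true 1 53 53 16 0 1464) (.nx 1573 131073 (.lg 2 false 1 43 43 16 11701 1464)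
  .out)) .out)))) .out) .out) (.nx 1588 1048577 (.nr 1587 1048577 (.nr 1578 192 .s1 (.nx 1581 184
  (.nx 1580 183 (.nr 1579 1849 (.l1 (.ls 29 29 177)) (.l1 .sk)) (.l1 .sk)) (.nx 1585 131073 (.nr
  1582 65537 (.lg 0 true 1 83 83 29 0 8784) (.nx 1584 16385 (.lg 0 false 2 83 89 31 0 43920) .out))
  (.nr 1586 1025 (.lg 0 true 1 67 67 29 0 8784) .out)))) .out) .out)) (.na 1590 194 (.lg 0 false 1
  0 0 16 0 24) (.nx 1601 1048577 (.nr 1600 1048577 (.nr 1591 194 .s1 (.nx 1596 32769 (.nx 1593 183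
  (.nr 1592 1887 (.l1 (.ls 16 23 175)) (.l1 .sk)) (.nx 1594 184 (.l1 .sk) (.lg 0 false 2 79 79 23 0
  2928))) (.nr 1599 16385 (.nr 1597 1025 (.lg 0 false 1 67 67 19 0 8784) (.nx 1598 131073 (.lg 2
  true 1 47 47 19 11701 8784) .out)) .out))) .out) .out))))))))

theorem c20 :
    OkQ ckI L9 217 1 1099511627776 0 34359738368 1 1099511627776 ∧
    OkQ ckI L9 183 9 197 0 34359738368 1 1099511627776 := by
  refine ⟨?_, ?_⟩
  · refine fin 5208 17870 T20_0 ?_
    refine jn 12 (by decide +kernel) ?_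
    refine jn 20 (by decide +kernel) ?_
    refine jn 27 (by decide +kernel) ?_
    refine jn 37 (by decide +kernel) ?_
    refine jn 46 (by decide +kernel) ?_
    refine jn 54 (by decide +kernel) ?_
    refine jn 62 (by decide +kernel) ?_
    refine jn 69 (by decide +kernel) ?_
    refine jn 81 (by decide +kernel) ?_
    refine jn 94 (by decide +kernel) ?_
    refine jn 107 (by decide +kernel) ?_
    refine jn 114 (by decide +kernel) ?_
    refine jn 133 (by decide +kernel) ?_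
    refine jn 159 (by decide +kernel) ?_
    refine jn 178 (by decide +kernel) ?_
    refine jn 191 (by decide +kernel) ?_
    refine jn 216 (by decide +kernel) ?_
    refine jn 236 (by decide +kernel) ?_
    refine jn 272 (by decide +kernel) ?_
    refine jn 296 (by decide +kernel) ?_
    refine jn 309 (by decide +kernel) ?_
    refine jn 316 (by decide +kernel) ?_
    refine jn 327 (by decide +kernel) ?_
    refine jn 342 (by decide +kernel) ?_
    refine jn 372 (by decide +kernel) ?_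
    refine jn 386 (by decide +kernel) ?_
    refine jn 449 (by decide +kernel) ?_
    refine jn 460 (by decide +kernel) ?_
    refine jn 464 (by decide +kernel) ?_
    refine jn 467 (by decide +kernel) ?_
    refine jn 471 (by decide +kernel) ?_
    refine jn 480 (by decide +kernel) ?_
    refine jn 486 (by decide +kernel) ?_
    refine jn 490 (by decide +kernel) ?_
    refine jn 499 (by decide +kernel) ?_
    refine jn 508 (by decide +kernel) ?_
    refine jn 521 (by decide +kernel) ?_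
    refine jn 533 (by decide +kernel) ?_
    refine jn 538 (by decide +kernel) ?_
    refine jn 543 (by decide +kernel) ?_
    refine jn 545 (by decide +kernel) ?_
    refine jn 550 (by decide +kernel) ?_
    refine jn 555 (by decide +kernel) ?_
    refine jn 564 (by decide +kernel) ?_
    refine jn 576 (by decide +kernel) ?_
    refine jn 597 (by decide +kernel) ?_
    refine jn 619 (by decide +kernel) ?_
    refine jn 633 (by decide +kernel) ?_
    refine jn 638 (by decide +kernel) ?_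
    refine jn 645 (by decide +kernel) ?_
    refine jn 648 (by decide +kernel) ?_
    refine jn 658 (by decide +kernel) ?_
    refine jn 665 (by decide +kernel) ?_
    refine jn 677 (by decide +kernel) ?_
    refine jn 685 (by decide +kernel) ?_
    refine jn 688 (by decide +kernel) ?_
    refine jn 691 (by decide +kernel) ?_
    refine jn 694 (by decide +kernel) ?_
    refine jn 697 (by decide +kernel) ?_
    refine jn 703 (by decide +kernel) ?_
    refine jn 711 (by decide +kernel) ?_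
    refine jn 712 (by decide +kernel) ?_
    refine jn 713 (by decide +kernel) ?_
    refine jn 714 (by decide +kernel) ?_
    refine jn 715 (by decide +kernel) ?_
    refine jn 716 (by decide +kernel) ?_
    refine jn 717 (by decide +kernel) ?_
    refine jn 718 (by decide +kernel) ?_
    refine jn 719 (by decide +kernel) ?_
    refine jn 720 (by decide +kernel) ?_
    refine jn 733 (by decide +kernel) ?_
    refine jn 747 (by decide +kernel) ?_
    refine jn 751 (by decide +kernel) ?_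
    refine jn 757 (by decide +kernel) ?_
    refine jn 768 (by decide +kernel) ?_
    refine jn 781 (by decide +kernel) ?_
    refine jn 790 (by decide +kernel) ?_
    refine jn 796 (by decide +kernel) ?_
    refine jn 804 (by decide +kernel) ?_
    refine jn 814 (by decide +kernel) ?_
    refine jn 829 (by decide +kernel) ?_
    refine jn 836 (by decide +kernel) ?_
    refine jn 855 (by decide +kernel) ?_
    refine jn 861 (by decide +kernel) ?_
    refine jn 872 (by decide +kernel) ?_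
    refine jn 877 (by decide +kernel) ?_
    refine jn 887 (by decide +kernel) ?_
    refine jn 899 (by decide +kernel) ?_
    refine jn 906 (by decide +kernel) ?_
    refine jn 918 (by decide +kernel) ?_
    refine jn 928 (by decide +kernel) ?_
    refine jn 943 (by decide +kernel) ?_
    refine jn 956 (by decide +kernel) ?_
    refine jn 961 (by decide +kernel) ?_
    refine jn 981 (by decide +kernel) ?_
    refine jn 997 (by decide +kernel) ?_
    refine jn 1011 (by decide +kernel) ?_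
    refine jn 1027 (by decide +kernel) ?_
    refine jn 1043 (by decide +kernel) ?_
    refine jn 1059 (by decide +kernel) ?_
    refine jn 1073 (by decide +kernel) ?_
    refine jn 1089 (by decide +kernel) ?_
    refine jn 1098 (by decide +kernel) ?_
    refine jn 1099 (by decide +kernel) ?_
    refine jn 1100 (by decide +kernel) ?_
    refine jn 1101 (by decide +kernel) ?_
    refine jn 1115 (by decide +kernel) ?_
    refine jn 1129 (by decide +kernel) ?_
    refine jn 1142 (by decide +kernel) ?_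
    refine jn 1156 (by decide +kernel) ?_
    refine jn 1173 (by decide +kernel) ?_
    refine jn 1188 (by decide +kernel) ?_
    refine jn 1202 (by decide +kernel) ?_
    refine jn 1215 (by decide +kernel) ?_
    refine jn 1230 (by decide +kernel) ?_
    refine jn 1244 (by decide +kernel) ?_
    refine jn 1260 (by decide +kernel) ?_
    refine jn 1278 (by decide +kernel) ?_
    refine jn 1291 (by decide +kernel) ?_
    refine jn 1304 (by decide +kernel) ?_
    refine jn 1317 (by decide +kernel) ?_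
    refine jn 1328 (by decide +kernel) ?_
    refine jn 1343 (by decide +kernel) ?_
    refine jn 1354 (by decide +kernel) ?_
    refine jn 1372 (by decide +kernel) ?_
    refine jn 1386 (by decide +kernel) ?_
    refine jn 1390 (by decide +kernel) ?_
    refine jn 1403 (by decide +kernel) ?_
    refine jn 1421 (by decide +kernel) ?_
    refine jn 1437 (by decide +kernel) ?_
    refine jn 1449 (by decide +kernel) ?_
    refine jn 1470 (by decide +kernel) ?_
    refine jn 1481 (by decide +kernel) ?_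
    refine jn 1492 (by decide +kernel) ?_
    refine jn 1563 (by decide +kernel) ?_
    refine jn 1650 (by decide +kernel) ?_
    refine jn 1656 (by decide +kernel) ?_
    refine jn 1670 (by decide +kernel) ?_
    refine jn 1673 (by decide +kernel) ?_
    refine jn 1685 (by decide +kernel) ?_
    refine jn 1686 (by decide +kernel) ?_
    refine jn 1688 (by decide +kernel) ?_
    refine jn 1694 (by decide +kernel) ?_
    refine jn 1704 (by decide +kernel) ?_
    refine jn 1710 (by decide +kernel) ?_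
    refine jn 1718 (by decide +kernel) ?_
    refine jn 1728 (by decide +kernel) ?_
    refine jn 1745 (by decide +kernel) ?_
    refine jn 1756 (by decide +kernel) ?_
    refine jn 1774 (by decide +kernel) ?_
    refine jn 1779 (by decide +kernel) ?_
    refine jn 1792 (by decide +kernel) ?_
    refine jn 1795 (by decide +kernel) ?_
    refine jn 1810 (by decide +kernel) ?_
    refine jn 1819 (by decide +kernel) ?_
    refine jn 1840 (by decide +kernel) ?_
    refine jn 1872 (by decide +kernel) ?_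
    refine jn 1946 (by decide +kernel) ?_
    refine jn 2012 (by decide +kernel) ?_
    refine jn 2062 (by decide +kernel) ?_
    refine jn 2079 (by decide +kernel) ?_
    refine jn 2097 (by decide +kernel) ?_
    refine jn 2106 (by decide +kernel) ?_
    refine jn 2109 (by decide +kernel) ?_
    refine jn 2122 (by decide +kernel) ?_
    refine jn 2130 (by decide +kernel) ?_
    refine jn 2146 (by decide +kernel) ?_
    refine jn 2154 (by decide +kernel) ?_
    refine jn 2166 (by decide +kernel) ?_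
    refine jn 2179 (by decide +kernel) ?_
    refine jn 2187 (by decide +kernel) ?_
    refine jn 2197 (by decide +kernel) ?_
    refine jn 2211 (by decide +kernel) ?_
    refine jn 2228 (by decide +kernel) ?_
    refine jn 2246 (by decide +kernel) ?_
    refine jn 2256 (by decide +kernel) ?_
    refine jn 2270 (by decide +kernel) ?_
    refine jn 2279 (by decide +kernel) ?_
    refine jn 2298 (by decide +kernel) ?_
    refine jn 2304 (by decide +kernel) ?_
    refine jn 2319 (by decide +kernel) ?_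
    refine jn 2331 (by decide +kernel) ?_
    refine jn 2343 (by decide +kernel) ?_
    refine jn 2399 (by decide +kernel) ?_
    refine jn 2615 (by decide +kernel) ?_
    refine jn 2625 (by decide +kernel) ?_
    refine jn 2639 (by decide +kernel) ?_
    refine jn 2660 (by decide +kernel) ?_
    refine jn 2669 (by decide +kernel) ?_
    refine jn 2696 (by decide +kernel) ?_
    refine jn 2700 (by decide +kernel) ?_
    refine jn 2712 (by decide +kernel) ?_
    refine jn 2724 (by decide +kernel) ?_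
    refine jn 2744 (by decide +kernel) ?_
    refine jn 2756 (by decide +kernel) ?_
    refine jn 2780 (by decide +kernel) ?_
    refine jn 2799 (by decide +kernel) ?_
    refine jn 2820 (by decide +kernel) ?_
    refine jn 2837 (by decide +kernel) ?_
    refine jn 2849 (by decide +kernel) ?_
    refine jn 2873 (by decide +kernel) ?_
    refine jn 2889 (by decide +kernel) ?_
    refine jn 2909 (by decide +kernel) ?_
    refine jn 2922 (by decide +kernel) ?_
    refine jn 2934 (by decide +kernel) ?_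
    refine jn 2957 (by decide +kernel) ?_
    refine jn 2969 (by decide +kernel) ?_
    refine jn 2994 (by decide +kernel) ?_
    refine jn 3029 (by decide +kernel) ?_
    refine jn 3079 (by decide +kernel) ?_
    refine jn 3142 (by decide +kernel) ?_
    refine jn 3194 (by decide +kernel) ?_
    refine jn 3265 (by decide +kernel) ?_
    refine jn 3329 (by decide +kernel) ?_
    refine jn 3361 (by decide +kernel) ?_
    refine jn 3408 (by decide +kernel) ?_
    refine jn 3432 (by decide +kernel) ?_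
    refine jn 3454 (by decide +kernel) ?_
    refine jn 3489 (by decide +kernel) ?_
    refine jn 3504 (by decide +kernel) ?_
    refine jn 3549 (by decide +kernel) ?_
    refine jn 3573 (by decide +kernel) ?_
    refine jn 3604 (by decide +kernel) ?_
    refine jn 3634 (by decide +kernel) ?_
    refine jn 3668 (by decide +kernel) ?_
    refine jn 3736 (by decide +kernel) ?_
    refine jn 3800 (by decide +kernel) ?_
    refine jn 3862 (by decide +kernel) ?_
    refine jn 3926 (by decide +kernel) ?_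
    refine jn 4001 (by decide +kernel) ?_
    refine jn 4078 (by decide +kernel) ?_
    refine jn 4102 (by decide +kernel) ?_
    refine jn 4153 (by decide +kernel) ?_
    refine jn 4201 (by decide +kernel) ?_
    refine jn 4257 (by decide +kernel) ?_
    refine jn 4287 (by decide +kernel) ?_
    refine jn 4335 (by decide +kernel) ?_
    refine jn 4377 (by decide +kernel) ?_
    refine jn 4426 (by decide +kernel) ?_
    refine jn 4486 (by decide +kernel) ?_
    refine jn 4531 (by decide +kernel) ?_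
    refine jn 4582 (by decide +kernel) ?_
    refine jn 4630 (by decide +kernel) ?_
    refine jn 4654 (by decide +kernel) ?_
    refine jn 4694 (by decide +kernel) ?_
    refine jn 4727 (by decide +kernel) ?_
    refine jn 4781 (by decide +kernel) ?_
    refine jn 4822 (by decide +kernel) ?_
    refine jn 4889 (by decide +kernel) ?_
    refine jn 4939 (by decide +kernel) ?_
    refine jn 4997 (by decide +kernel) ?_
    refine jn 5026 (by decide +kernel) ?_
    refine jn 5059 (by decide +kernel) ?_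
    refine jn 5117 (by decide +kernel) ?_
    refine jn 5174 (by decide +kernel) ?_
    refine jn 5237 (by decide +kernel) ?_
    refine jn 5293 (by decide +kernel) ?_
    refine jn 5360 (by decide +kernel) ?_
    refine jn 5413 (by decide +kernel) ?_
    refine jn 5480 (by decide +kernel) ?_
    refine jn 5540 (by decide +kernel) ?_
    refine jn 5600 (by decide +kernel) ?_
    refine jn 5662 (by decide +kernel) ?_
    refine jn 5728 (by decide +kernel) ?_
    refine jn 5768 (by decide +kernel) ?_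
    refine jn 5825 (by decide +kernel) ?_
    refine jn 5884 (by decide +kernel) ?_
    refine jn 5933 (by decide +kernel) ?_
    refine jn 6011 (by decide +kernel) ?_
    refine jn 6131 (by decide +kernel) ?_
    refine jn 6217 (by decide +kernel) ?_
    refine jn 6332 (by decide +kernel) ?_
    refine jn 6425 (by decide +kernel) ?_
    refine jn 6493 (by decide +kernel) ?_
    refine jn 6596 (by decide +kernel) ?_
    refine jn 6712 (by decide +kernel) ?_
    refine jn 6812 (by decide +kernel) ?_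
    refine jn 6928 (by decide +kernel) ?_
    refine jn 7025 (by decide +kernel) ?_
    refine jn 7133 (by decide +kernel) ?_
    refine jn 7398 (by decide +kernel) ?_
    refine jn 7546 (by decide +kernel) ?_
    refine jn 7657 (by decide +kernel) ?_
    refine jn 7794 (by decide +kernel) ?_
    refine jn 7918 (by decide +kernel) ?_
    refine jn 8053 (by decide +kernel) ?_
    refine jn 8169 (by decide +kernel) ?_
    refine jn 8317 (by decide +kernel) ?_
    refine jn 8424 (by decide +kernel) ?_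
    refine jn 8544 (by decide +kernel) ?_
    refine jn 8671 (by decide +kernel) ?_
    refine jn 8782 (by decide +kernel) ?_
    refine jn 8904 (by decide +kernel) ?_
    refine jn 9021 (by decide +kernel) ?_
    refine jn 9405 (by decide +kernel) ?_
    refine jn 9695 (by decide +kernel) ?_
    refine jn 9849 (by decide +kernel) ?_
    refine jn 9991 (by decide +kernel) ?_
    refine jn 10095 (by decide +kernel) ?_
    refine jn 10187 (by decide +kernel) ?_
    refine jn 10277 (by decide +kernel) ?_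
    refine jn 10349 (by decide +kernel) ?_
    refine jn 10804 (by decide +kernel) ?_
    refine jn 11081 (by decide +kernel) ?_
    refine jn 11250 (by decide +kernel) ?_
    refine jn 11401 (by decide +kernel) ?_
    refine jn 11510 (by decide +kernel) ?_
    refine jn 11608 (by decide +kernel) ?_
    refine jn 11968 (by decide +kernel) ?_
    refine jn 12319 (by decide +kernel) ?_
    refine jn 12531 (by decide +kernel) ?_
    refine jn 12658 (by decide +kernel) ?_
    refine jn 12796 (by decide +kernel) ?_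
    refine jn 12920 (by decide +kernel) ?_
    refine jn 13345 (by decide +kernel) ?_
    refine jn 13620 (by decide +kernel) ?_
    refine jn 13800 (by decide +kernel) ?_
    refine jn 13929 (by decide +kernel) ?_
    refine jn 14046 (by decide +kernel) ?_
    refine jn 14139 (by decide +kernel) ?_
    refine jn 14222 (by decide +kernel) ?_
    refine jn 14658 (by decide +kernel) ?_
    refine jn 14923 (by decide +kernel) ?_
    refine jn 15131 (by decide +kernel) ?_
    refine jn 15327 (by decide +kernel) ?_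
    refine jn 15481 (by decide +kernel) ?_
    refine jn 16005 (by decide +kernel) ?_
    refine jn 16279 (by decide +kernel) ?_
    refine jn 16545 (by decide +kernel) ?_
    refine jn 16739 (by decide +kernel) ?_
    refine jn 17347 (by decide +kernel) ?_
    exact je (by decide +kernel)
  · refine fin 1464 1602 T20_1 ?_
    refine jn 6 (by decide +kernel) ?_
    refine jn 10 (by decide +kernel) ?_
    refine jn 14 (by decide +kernel) ?_
    refine jn 21 (by decide +kernel) ?_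
    refine jn 25 (by decide +kernel) ?_
    refine jn 27 (by decide +kernel) ?_
    refine jn 36 (by decide +kernel) ?_
    refine jn 47 (by decide +kernel) ?_
    refine jn 55 (by decide +kernel) ?_
    refine jn 63 (by decide +kernel) ?_
    refine jn 72 (by decide +kernel) ?_
    refine jn 75 (by decide +kernel) ?_
    refine jn 77 (by decide +kernel) ?_
    refine jn 87 (by decide +kernel) ?_
    refine jn 93 (by decide +kernel) ?_
    refine jn 96 (by decide +kernel) ?_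
    refine jn 105 (by decide +kernel) ?_
    refine jn 112 (by decide +kernel) ?_
    refine jn 119 (by decide +kernel) ?_
    refine jn 129 (by decide +kernel) ?_
    refine jn 136 (by decide +kernel) ?_
    refine jn 139 (by decide +kernel) ?_
    refine jn 142 (by decide +kernel) ?_
    refine jn 143 (by decide +kernel) ?_
    refine jn 148 (by decide +kernel) ?_
    refine jn 150 (by decide +kernel) ?_
    refine jn 161 (by decide +kernel) ?_
    refine jn 168 (by decide +kernel) ?_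
    refine jn 176 (by decide +kernel) ?_
    refine jn 189 (by decide +kernel) ?_
    refine jn 190 (by decide +kernel) ?_
    refine jn 191 (by decide +kernel) ?_
    refine jn 192 (by decide +kernel) ?_
    refine jn 193 (by decide +kernel) ?_
    refine jn 194 (by decide +kernel) ?_
    refine jn 199 (by decide +kernel) ?_
    refine jn 203 (by decide +kernel) ?_
    refine jn 205 (by decide +kernel) ?_
    refine jn 206 (by decide +kernel) ?_
    refine jn 207 (by decide +kernel) ?_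
    refine jn 208 (by decide +kernel) ?_
    refine jn 209 (by decide +kernel) ?_
    refine jn 210 (by decide +kernel) ?_
    refine jn 211 (by decide +kernel) ?_
    refine jn 216 (by decide +kernel) ?_
    refine jn 221 (by decide +kernel) ?_
    refine jn 225 (by decide +kernel) ?_
    refine jn 228 (by decide +kernel) ?_
    refine jn 233 (by decide +kernel) ?_
    refine jn 238 (by decide +kernel) ?_
    refine jn 246 (by decide +kernel) ?_
    refine jn 250 (by decide +kernel) ?_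
    refine jn 253 (by decide +kernel) ?_
    refine jn 257 (by decide +kernel) ?_
    refine jn 265 (by decide +kernel) ?_
    refine jn 275 (by decide +kernel) ?_
    refine jn 285 (by decide +kernel) ?_
    refine jn 294 (by decide +kernel) ?_
    refine jn 298 (by decide +kernel) ?_
    refine jn 304 (by decide +kernel) ?_
    refine jn 310 (by decide +kernel) ?_
    refine jn 320 (by decide +kernel) ?_
    refine jn 334 (by decide +kernel) ?_
    refine jn 346 (by decide +kernel) ?_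
    refine jn 349 (by decide +kernel) ?_
    refine jn 356 (by decide +kernel) ?_
    refine jn 363 (by decide +kernel) ?_
    refine jn 370 (by decide +kernel) ?_
    refine jn 379 (by decide +kernel) ?_
    refine jn 385 (by decide +kernel) ?_
    refine jn 393 (by decide +kernel) ?_
    refine jn 401 (by decide +kernel) ?_
    refine jn 408 (by decide +kernel) ?_
    refine jn 417 (by decide +kernel) ?_
    refine jn 418 (by decide +kernel) ?_
    refine jn 419 (by decide +kernel) ?_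
    refine jn 420 (by decide +kernel) ?_
    refine jn 421 (by decide +kernel) ?_
    refine jn 422 (by decide +kernel) ?_
    refine jn 424 (by decide +kernel) ?_
    refine jn 427 (by decide +kernel) ?_
    refine jn 429 (by decide +kernel) ?_
    refine jn 430 (by decide +kernel) ?_
    refine jn 435 (by decide +kernel) ?_
    refine jn 439 (by decide +kernel) ?_
    refine jn 445 (by decide +kernel) ?_
    refine jn 448 (by decide +kernel) ?_
    refine jn 456 (by decide +kernel) ?_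
    refine jn 461 (by decide +kernel) ?_
    refine jn 467 (by decide +kernel) ?_
    refine jn 474 (by decide +kernel) ?_
    refine jn 487 (by decide +kernel) ?_
    refine jn 495 (by decide +kernel) ?_
    refine jn 500 (by decide +kernel) ?_
    refine jn 511 (by decide +kernel) ?_
    refine jn 520 (by decide +kernel) ?_
    refine jn 521 (by decide +kernel) ?_
    refine jn 522 (by decide +kernel) ?_
    refine jn 523 (by decide +kernel) ?_
    refine jn 524 (by decide +kernel) ?_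
    refine jn 525 (by decide +kernel) ?_
    refine jn 526 (by decide +kernel) ?_
    refine jn 527 (by decide +kernel) ?_
    refine jn 528 (by decide +kernel) ?_
    refine jn 529 (by decide +kernel) ?_
    refine jn 530 (by decide +kernel) ?_
    refine jn 531 (by decide +kernel) ?_
    refine jn 532 (by decide +kernel) ?_
    refine jn 533 (by decide +kernel) ?_
    refine jn 534 (by decide +kernel) ?_
    refine jn 535 (by decide +kernel) ?_
    refine jn 537 (by decide +kernel) ?_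
    refine jn 538 (by decide +kernel) ?_
    refine jn 539 (by decide +kernel) ?_
    refine jn 540 (by decide +kernel) ?_
    refine jn 541 (by decide +kernel) ?_
    refine jn 542 (by decide +kernel) ?_
    refine jn 548 (by decide +kernel) ?_
    refine jn 565 (by decide +kernel) ?_
    refine jn 572 (by decide +kernel) ?_
    refine jn 585 (by decide +kernel) ?_
    refine jn 591 (by decide +kernel) ?_
    refine jn 596 (by decide +kernel) ?_
    refine jn 609 (by decide +kernel) ?_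
    refine jn 619 (by decide +kernel) ?_
    refine jn 627 (by decide +kernel) ?_
    refine jn 641 (by decide +kernel) ?_
    refine jn 646 (by decide +kernel) ?_
    refine jn 659 (by decide +kernel) ?_
    refine jn 660 (by decide +kernel) ?_
    refine jn 663 (by decide +kernel) ?_
    refine jn 665 (by decide +kernel) ?_
    refine jn 669 (by decide +kernel) ?_
    refine jn 670 (by decide +kernel) ?_
    refine jn 672 (by decide +kernel) ?_
    refine jn 675 (by decide +kernel) ?_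
    refine jn 685 (by decide +kernel) ?_
    refine jn 692 (by decide +kernel) ?_
    refine jn 702 (by decide +kernel) ?_
    refine jn 705 (by decide +kernel) ?_
    refine jn 708 (by decide +kernel) ?_
    refine jn 710 (by decide +kernel) ?_
    refine jn 713 (by decide +kernel) ?_
    refine jn 716 (by decide +kernel) ?_
    refine jn 727 (by decide +kernel) ?_
    refine jn 734 (by decide +kernel) ?_
    refine jn 744 (by decide +kernel) ?_
    refine jn 745 (by decide +kernel) ?_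
    refine jn 746 (by decide +kernel) ?_
    refine jn 748 (by decide +kernel) ?_
    refine jn 751 (by decide +kernel) ?_
    refine jn 758 (by decide +kernel) ?_
    refine jn 765 (by decide +kernel) ?_
    refine jn 771 (by decide +kernel) ?_
    refine jn 783 (by decide +kernel) ?_
    refine jn 789 (by decide +kernel) ?_
    refine jn 803 (by decide +kernel) ?_
    refine jn 811 (by decide +kernel) ?_
    refine jn 822 (by decide +kernel) ?_
    refine jn 829 (by decide +kernel) ?_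
    refine jn 849 (by decide +kernel) ?_
    refine jn 861 (by decide +kernel) ?_
    refine jn 863 (by decide +kernel) ?_
    refine jn 866 (by decide +kernel) ?_
    refine jn 869 (by decide +kernel) ?_
    refine jn 884 (by decide +kernel) ?_
    refine jn 896 (by decide +kernel) ?_
    refine jn 900 (by decide +kernel) ?_
    refine jn 903 (by decide +kernel) ?_
    refine jn 906 (by decide +kernel) ?_
    refine jn 908 (by decide +kernel) ?_
    refine jn 924 (by decide +kernel) ?_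
    refine jn 938 (by decide +kernel) ?_
    refine jn 944 (by decide +kernel) ?_
    refine jn 959 (by decide +kernel) ?_
    refine jn 971 (by decide +kernel) ?_
    refine jn 976 (by decide +kernel) ?_
    refine jn 978 (by decide +kernel) ?_
    refine jn 980 (by decide +kernel) ?_
    refine jn 997 (by decide +kernel) ?_
    refine jn 1010 (by decide +kernel) ?_
    refine jn 1021 (by decide +kernel) ?_
    refine jn 1025 (by decide +kernel) ?_
    refine jn 1026 (by decide +kernel) ?_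
    refine jn 1027 (by decide +kernel) ?_
    refine jn 1029 (by decide +kernel) ?_
    refine jn 1030 (by decide +kernel) ?_
    refine jn 1031 (by decide +kernel) ?_
    refine jn 1045 (by decide +kernel) ?_
    refine jn 1057 (by decide +kernel) ?_
    refine jn 1058 (by decide +kernel) ?_
    refine jn 1059 (by decide +kernel) ?_
    refine jn 1060 (by decide +kernel) ?_
    refine jn 1061 (by decide +kernel) ?_
    refine jn 1062 (by decide +kernel) ?_
    refine jn 1063 (by decide +kernel) ?_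
    refine jn 1064 (by decide +kernel) ?_
    refine jn 1065 (by decide +kernel) ?_
    refine jn 1070 (by decide +kernel) ?_
    refine jn 1080 (by decide +kernel) ?_
    refine jn 1084 (by decide +kernel) ?_
    refine jn 1098 (by decide +kernel) ?_
    refine jn 1114 (by decide +kernel) ?_
    refine jn 1128 (by decide +kernel) ?_
    refine jn 1142 (by decide +kernel) ?_
    refine jn 1151 (by decide +kernel) ?_
    refine jn 1152 (by decide +kernel) ?_
    refine jn 1154 (by decide +kernel) ?_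
    refine jn 1155 (by decide +kernel) ?_
    refine jn 1156 (by decide +kernel) ?_
    refine jn 1157 (by decide +kernel) ?_
    refine jn 1158 (by decide +kernel) ?_
    refine jn 1172 (by decide +kernel) ?_
    refine jn 1188 (by decide +kernel) ?_
    refine jn 1203 (by decide +kernel) ?_
    refine jn 1213 (by decide +kernel) ?_
    refine jn 1218 (by decide +kernel) ?_
    refine jn 1222 (by decide +kernel) ?_
    refine jn 1235 (by decide +kernel) ?_
    refine jn 1250 (by decide +kernel) ?_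
    refine jn 1272 (by decide +kernel) ?_
    refine jn 1281 (by decide +kernel) ?_
    refine jn 1289 (by decide +kernel) ?_
    refine jn 1293 (by decide +kernel) ?_
    refine jn 1306 (by decide +kernel) ?_
    refine jn 1315 (by decide +kernel) ?_
    refine jn 1317 (by decide +kernel) ?_
    refine jn 1319 (by decide +kernel) ?_
    refine jn 1332 (by decide +kernel) ?_
    refine jn 1347 (by decide +kernel) ?_
    refine jn 1360 (by decide +kernel) ?_
    refine jn 1364 (by decide +kernel) ?_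
    refine jn 1379 (by decide +kernel) ?_
    refine jn 1389 (by decide +kernel) ?_
    refine jn 1390 (by decide +kernel) ?_
    refine jn 1392 (by decide +kernel) ?_
    refine jn 1404 (by decide +kernel) ?_
    refine jn 1420 (by decide +kernel) ?_
    refine jn 1436 (by decide +kernel) ?_
    refine jn 1452 (by decide +kernel) ?_
    refine jn 1468 (by decide +kernel) ?_
    refine jn 1483 (by decide +kernel) ?_
    refine jn 1492 (by decide +kernel) ?_
    refine jn 1495 (by decide +kernel) ?_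
    refine jn 1508 (by decide +kernel) ?_
    refine jn 1521 (by decide +kernel) ?_
    refine jn 1543 (by decide +kernel) ?_
    refine jn 1547 (by decide +kernel) ?_
    refine jn 1550 (by decide +kernel) ?_
    refine jn 1559 (by decide +kernel) ?_
    refine jn 1572 (by decide +kernel) ?_
    refine jn 1584 (by decide +kernel) ?_
    refine jn 1598 (by decide +kernel) ?_
    exact je (by decide +kernel)

end Pool.Agent.MP_2339ce_nt.NR
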