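import Pool.Agent.MP_2339ce_nt.Q2.NC.L7
import Pool.Agent.MP_2339ce_nt.Q2.NC.L9
import Pool.Agent.MP_2339ce_nt.Q2.CkI

/-! Block NR: runs. -/

set_option autoImplicit false
set_option maxRecDepth 100000

noncomputable section

namespace Pool.Agent.MP_2339ce_nt.NR

open Q2.Top

def T3_0 : Ph :=
  (.na 1157 5 (.na 729 3 (.na 459 2 (.nx 458 2097153 (.nr 457 881745 (.nx 2 183 (.nr 1 14 (.lg 0
  false 1 41 41 5 0 1464) (.l1 .sk)) (.nx 3 184 (.l1 .sk) (.nx 421 1048577 (.nx 201 32769 (.nr 143
  131073 (.lg 0 false 140 101 109 16 0 43963920) (.nx 200 8193 (.nx 179 4096 (.nx 178 324 (.lg 0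
  false 35 83 89 13 0 51240) .out) (.nr 199 155873 (.lg 0 false 20 97 101 11 0 483120) .out))
  .out)) (.nr 420 110219 (.nr 256 1724 (.nr 236 901 (.lg 0 true 35 103 103 13 0 3381840) (.lg 2
  true 20 97 101 11 106488 483120)) (.nx 419 832257 (.nr 276 5794 (.lg 2 true 20 103 107 11 44172
  43963920) (.nx 418 660563 (.nx 346 52017 (.nx 311 41286 (.lg 1 false 35 103 109 13 56415
  43963920) (.lg 1 false 35 103 109 13 44777 43963920)) (.nr 417 77937 (.nr 381 46342 (.lg 2 false
  35 103 109 13 14977 43963920) (.nx 416 262145 (.lg 2 false 35 103 109 13 25148 43963920) .out))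
  .out)) .out)) .out)) .out)) (.nr 456 129 (.lg 0 true 35 83 89 13 0 51240) .out)))) .out) .out)
  (.nx 728 3329023 (.nr 727 623489 (.nx 461 183 (.nr 460 26 (.lg 0 true 1 41 41 5 0 43920) (.l1
  .sk)) (.nx 462 184 (.l1 .sk) (.nx 712 2097153 (.nx 690 1048577 (.nx 554 41287 (.nr 539 220437
  (.lg 0 false 77 103 109 13 0 43963920) (.nx 553 324 (.lg 0 false 14 83 83 9 0 20496) .out)) (.nr
  689 155873 (.nr 589 1025 (.lg 0 true 35 97 101 13 0 307440) (.nx 688 832257 (.nx 624 82572 (.lg 1
  false 35 103 109 13 63292 43963920) (.nr 687 131073 (.nr 631 2049 (.lg 2 true 7 89 89 9 74295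
  20496) (.nx 686 660563 (.nr 638 6051 (.lg 2 true 7 101 101 9 29499 307440) (.nx 685 524289 (.nr
  649 38969 (.lg 2 false 11 101 103 9 7940 6280560) (.nx 684 262145 (.lg 2 false 35 103 109 13
  26618 43963920) .out)) .out)) .out)) .out)) .out)) .out)) (.nr 711 129 (.lg 0 true 21 83 83 11 0
  61488) .out)) (.nr 726 9 (.lg 0 true 14 71 71 9 0 20496) .out)))) .out) .out)) (.na 964 4 (.nx
  963 6658044 (.nr 962 1482912 (.nx 926 1321124 (.nx 731 183 (.nr 730 36 (.lg 0 true 1 37 37 5 0
  4392) (.l1 .sk)) (.nx 732 184 (.l1 .sk) (.nx 912 660563 (.nx 790 32768 (.nr 776 185365 (.lg 0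
  false 44 101 109 16 0 43963920) (.nx 789 324 (.lg 0 false 13 83 83 13 0 57096) .out)) (.nr 911
  220437 (.nr 803 748 (.lg 0 true 13 89 89 13 0 57096) (.nx 910 524289 (.nx 831 52017 (.lg 1 false
  28 101 109 16 112739 43963920) (.nr 909 185365 (.nx 844 70783 (.lg 1 false 13 103 107 13 59730
  43963920) (.nx 872 131073 (.lg 1 true 28 103 109 16 43894 43963920) (.nr 908 155873 (.nr 883 6513
  (.lg 2 true 11 101 101 7 64135 3381840) (.nx 894 165142 (.lg 1 true 11 103 107 7 19937 43963920)
  (.nr 907 92683 (.lg 2 false 13 101 103 13 9417 3996720) .out))) .out))) .out)) .out)) .out)) (.nr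
  925 129 (.lg 0 true 13 79 79 13 0 57096) .out)))) (.nr 961 33 (.lg 0 true 35 79 79 7 0 153720)
  .out)) .out) .out) (.nx 1156 16777217 (.nr 1155 1246976 (.nx 967 184 (.nx 966 183 (.nr 965 46
  (.lg 0 true 1 31 31 9 0 2928) (.l1 .sk)) (.l1 .sk)) (.nx 1013 33127 (.nr 1002 185365 (.lg 0 false
  35 101 109 19 0 43963920) (.nx 1012 324 (.lg 0 false 10 83 83 13 0 14640) .out)) (.nr 1154 220437
  (.nx 1097 524289 (.nr 1028 2909 (.nr 1023 729 (.lg 0 true 10 89 89 13 0 14640) (.lg 2 true 5 89
  97 11 65806 14640)) (.nr 1033 11603 (.lg 2 true 5 97 101 11 16492 307440) (.nx 1074 131073 (.nx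
  1064 92682 (.nx 1054 65536 (.nr 1053 185365 (.nx 1043 46594 (.lg 1 false 10 103 107 13 93790
  43963920) (.lg 1 false 10 103 109 13 66682 43963920)) .out) (.lg 1 false 10 103 109 13 56370
  43963920)) (.lg 1 false 10 103 109 13 39859 43963920)) (.nr 1096 155873 (.nx 1090 208065 (.nx
  1084 165142 (.lg 1 true 10 103 109 13 19937 43963920) (.nr 1089 131073 (.lg 1 true 5 107 107 11
  13309 43963920) .out)) (.nr 1095 55110 (.lg 2 false 5 101 101 11 4450 307440) .out)) .out))))
  (.nr 1153 183 (.nr 1142 31 (.lg 0 true 45 83 83 13 0 43920) (.nx 1152 2097153 (.lg 0 true 10 83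
  83 13 0 14640) .out)) .out)) .out))) .out) .out))) (.na 1328 7 (.na 1158 6 .ne (.nx 1327 16777217
  (.nr 1326 1048577 (.nx 1279 660563 (.nx 1218 52015 (.nx 1160 183 (.nr 1159 66 (.lg 0 true 1 31 31
  7 0 8784) (.l1 .sk)) (.nx 1161 184 (.l1 .sk) (.nr 1207 370729 (.nr 1196 185365 (.lg 0 false 35
  101 107 19 0 43963920) (.nx 1206 2049 (.lg 0 false 10 83 83 13 0 43920) .out)) (.nx 1217 324 (.lg
  0 false 10 73 73 13 0 43920) .out)))) (.nr 1278 220437 (.nr 1228 1026 (.lg 0 true 10 83 83 13 0
  43920) (.nr 1235 8201 (.lg 2 true 7 89 89 13 58910 61488) (.nx 1270 208065 (.lg 1 true 35 101 107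
  19 71022 43963920) (.nr 1277 77937 (.lg 2 false 7 89 89 13 7371 61488) .out)))) .out)) (.nr 1325
  257 (.nx 1294 2097153 (.lg 0 true 15 79 79 13 0 43920) (.nr 1324 28 (.lg 0 true 30 73 73 11 0
  43920) .out)) .out)) .out) .out)) (.na 1329 8 .ne (.nx 1465 16777217 (.nr 1464 1048577 (.nx 1429
  1048577 (.nx 1361 26007 (.nx 1332 184 (.nx 1331 183 (.nr 1330 86 (.lg 0 true 1 41 41 11 0 43920)
  (.l1 .sk)) (.l1 .sk)) (.nr 1353 370729 (.nr 1345 155873 (.lg 0 false 13 97 103 19 0 570960) (.nx
  1352 2049 (.lg 0 false 7 89 101 13 0 307440) .out)) (.nx 1360 814 (.nr 1356 623489 (.lg 0 false 3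
  89 97 13 0 43920) (.nx 1359 324 (.lg 0 false 3 83 83 13 0 8784) .out)) .out))) (.nr 1428 220437
  (.nr 1368 971 (.lg 0 true 7 97 97 13 0 307440) (.nx 1383 52015 (.nr 1382 185365 (.nx 1375 36779
  (.lg 1 false 7 103 109 13 119467 43963920) (.lg 1 false 7 103 109 13 84477 43963920)) .out) (.nr
  1387 3732 (.nr 1385 1904 (.lg 2 true 2 89 89 11 98811 2928) (.lg 2 true 2 89 97 11 50392 43920))
  (.nr 1391 14343 (.nr 1389 7317 (.lg 2 true 2 89 97 11 25709 43920) (.lg 2 true 2 89 97 11 13113
  43920)) (.nx 1398 76448 (.lg 1 false 7 103 109 13 71022 43963920) (.nx 1405 112360 (.lg 1 false 7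
  103 109 13 48323 43963920) (.nx 1420 208065 (.nx 1412 165142 (.lg 1 true 7 103 109 13 32879
  43963920) (.nr 1419 185365 (.lg 1 true 7 101 109 13 18814 43963920) .out)) (.nr 1427 110219 (.lg
  2 false 7 97 107 13 8885 3381840) .out)))))))) .out)) (.nr 1463 129 (.nx 1436 2097153 (.lg 0 true
  7 79 83 13 0 20496) (.nr 1462 55 (.lg 0 true 26 83 89 13 0 38064) .out)) .out)) .out) .out))))

def T3_1 : Ph :=
  (.na 806 6 (.na 476 3 (.na 277 2 (.nx 276 1321124 (.nr 275 881745 (.nx 3 129 (.nx 2 128 (.nr 1 12
  (.lg 0 true 1 41 41 5 0 1584) (.l1 .sk)) (.l1 .sk)) (.nx 239 660563 (.nx 74 13005 (.nr 38 92683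
  (.lg 0 false 35 101 103 13 0 55440) (.nx 73 257 (.lg 0 false 35 83 89 13 0 5040) .out)) (.nr 238
  77937 (.nr 131 2437 (.nr 123 1219 (.nr 109 695 (.lg 0 true 35 89 97 13 0 5040) (.lg 2 true 14 83
  89 9 60829 1008)) (.nx 130 524289 (.lg 2 true 7 89 89 9 27527 1008) .out)) (.nx 237 416129 (.nx
  201 32769 (.nx 166 24081 (.lg 1 false 35 101 107 13 49176 720720) (.lg 1 false 35 97 103 13 26558
  720720)) (.nr 236 55110 (.lg 2 false 35 101 107 13 13810 720720) .out)) .out)) .out)) (.nr 274
  129 (.lg 0 true 35 83 83 13 0 5040) .out))) .out) .out) (.nx 475 3329023 (.nr 474 623489 (.nx 279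
  128 (.nr 278 22 (.lg 0 true 1 37 37 5 0 144) (.l1 .sk)) (.nx 280 129 (.l1 .sk) (.nr 460 131073
  (.nx 441 1664512 (.nx 414 416129 (.nx 319 17696 (.lg 0 false 39 101 103 13 0 720720) (.nr 332 450
  (.lg 0 true 13 83 83 9 0 1872) (.nx 345 26009 (.lg 1 false 13 101 103 9 60739 720720) (.nr 413
  110219 (.nr 358 2437 (.lg 2 true 13 83 89 9 59183 1872) (.nx 412 330282 (.nx 371 32769 (.lg 1
  false 13 89 97 9 34757 9360) (.nr 411 92683 (.nx 384 44591 (.lg 1 false 13 101 103 9 23203
  720720) (.nr 397 55110 (.lg 2 false 13 101 103 9 10149 65520) (.nx 410 131073 (.lg 2 false 13 101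
  103 9 17051 720720) .out))) .out)) .out)) .out)))) (.nr 440 257 (.lg 0 true 26 83 89 11 0 9360)
  .out)) (.nr 459 9 (.lg 0 true 18 67 67 9 0 144) .out)) (.nx 473 257 (.lg 0 false 13 79 79 9 0
  1872) .out)))) .out) .out)) (.na 654 4 (.nx 653 6658044 (.nr 652 1482912 (.nx 629 1664512 (.nx
  615 524289 (.nx 478 128 (.nr 477 31 (.lg 0 true 1 31 31 5 0 144) (.l1 .sk)) (.nx 479 129 (.l1
  .sk) (.nx 506 13003 (.nr 492 110219 (.lg 0 false 13 97 101 16 0 9360) (.nx 505 257 (.lg 0 false
  13 83 83 16 0 1872) .out)) (.nr 614 131073 (.nr 519 364 (.lg 0 true 13 83 83 16 0 1872) (.nx 613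
  262145 (.nr 524 1453 (.lg 2 true 5 83 83 7 46092 720) (.nx 537 18819 (.lg 1 false 13 97 107 16
  82661 720720) (.nr 539 2904 (.lg 2 false 2 83 83 7 11547 720) (.nx 552 27236 (.lg 1 false 13 97
  107 16 57114 720720) (.nx 599 104033 (.nx 591 82572 (.nx 578 57052 (.nx 565 39420 (.lg 1 false 13
  97 107 16 39464 720720) (.lg 1 false 13 97 107 16 27266 720720)) (.lg 1 true 13 97 103 16 18840
  720720)) (.nr 598 110219 (.lg 1 true 7 97 101 13 10948 55440) .out)) (.nr 612 65537 (.lg 2 false
  13 97 103 16 5778 720720) .out)))))) .out)) .out)))) (.nr 628 129 (.lg 0 true 13 83 83 16 0 9360)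
  .out)) (.nr 651 13 (.lg 0 true 22 73 73 7 0 1584) .out)) .out) .out) (.na 805 5 (.nx 804 13316087
  (.nr 803 1246976 (.nx 657 129 (.nx 656 128 (.nr 655 39 (.lg 0 true 1 29 29 9 0 144) (.l1 .sk))
  (.l1 .sk)) (.nx 767 1664512 (.nx 753 416129 (.nx 689 17695 (.nr 672 110219 (.lg 0 false 15 89 97
  13 0 720) (.nx 688 1627 (.nr 677 155873 (.lg 0 false 5 83 83 11 0 720) (.nx 687 257 (.lg 0 false
  10 79 79 13 0 720) .out)) .out)) (.nr 752 131073 (.nr 704 729 (.lg 0 true 15 79 79 13 0 720) (.nr
  714 11603 (.nr 709 2909 (.lg 2 true 5 83 83 11 36533 720) (.lg 2 true 5 83 89 11 9156 720)) (.nx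
  720 26007 (.nr 719 110219 (.lg 1 false 5 101 101 11 51088 55440) .out) (.nx 746 131073 (.nx 725
  36779 (.lg 1 false 5 101 101 11 41329 55440) (.nx 740 104033 (.nx 735 73561 (.nx 730 52015 (.lg 1
  false 5 101 101 11 29224 55440) (.lg 1 true 5 101 101 11 20664 55440)) (.lg 1 true 5 101 101 11
  14612 55440)) (.nr 745 92683 (.lg 1 true 5 89 89 11 7309 720) .out))) (.nr 751 55110 (.lg 2 false
  5 89 89 11 3453 720) .out))))) .out)) (.nr 766 183 (.lg 0 true 13 79 79 13 0 1872) .out)) (.nr
  802 21 (.lg 0 true 35 79 79 11 0 5040) .out))) .out) .out) .ne))) (.na 1009 9 (.na 911 7 (.nx 910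
  13316087 (.nr 909 623489 (.nx 809 129 (.nx 808 128 (.nr 807 55 (.lg 0 true 1 29 29 7 0 144) (.l1
  .sk)) (.l1 .sk)) (.nr 903 220437 (.nx 869 832257 (.nx 825 16384 (.nr 819 92683 (.lg 0 false 10 83
  89 13 0 720) (.nx 824 3252 (.lg 0 false 5 89 89 13 0 720) .out)) (.nr 868 155873 (.nr 835 1026
  (.lg 0 true 10 83 83 13 0 720) (.nx 867 660563 (.nr 840 8201 (.lg 2 true 5 83 89 13 41205 720)
  (.nx 856 73561 (.nx 851 52015 (.nr 850 131073 (.nx 845 28089 (.lg 1 false 5 89 97 13 65603 720)
  (.lg 1 false 5 89 97 13 38265 720)) .out) (.lg 1 false 5 89 89 13 24570 720)) (.nx 861 131073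
  (.lg 1 true 5 89 97 13 17373 720) (.nr 866 65537 (.lg 2 false 5 83 89 13 5155 720) .out))))
  .out)) .out)) (.nr 902 129 (.nx 876 1664512 (.lg 0 true 7 73 73 13 0 1008) (.nr 901 28 (.lg 0
  true 25 73 73 13 0 720) .out)) .out)) (.nx 908 647 (.lg 0 false 5 79 79 13 0 720) .out))) .out)
  .out) (.na 912 8 .ne (.nx 1008 13316087 (.nr 1007 623489 (.nx 978 1664512 (.nx 915 129 (.nx 914
  128 (.nr 913 72 (.lg 0 true 1 29 29 9 0 720) (.l1 .sk)) (.l1 .sk)) (.nx 932 19111 (.nr 922 110219
  (.lg 0 false 7 97 97 13 0 5040) (.nx 931 2582 (.nx 929 1627 (.lg 0 false 7 89 89 13 0 5040) (.nr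
  930 131073 (.lg 0 true 1 79 79 9 0 720) .out)) .out)) (.nr 977 131073 (.nr 947 727 (.nx 939
  832257 (.lg 0 true 7 83 83 13 0 1008) (.nr 946 129 (.lg 0 true 7 73 73 13 0 1008) .out)) (.nx 976
  660563 (.nr 954 5806 (.lg 2 true 7 83 89 13 58152 5040) (.nx 968 82572 (.nx 961 38224 (.lg 1
  false 7 89 97 13 56242 5040) (.lg 1 true 7 89 97 13 28119 5040)) (.nr 975 110219 (.lg 2 false 7
  89 97 13 10948 5040) .out))) .out)) .out))) (.nr 1006 55 (.lg 0 true 28 79 79 13 0 1008) .out))
  .out) .out))) (.na 1096 10 (.nx 1095 13316087 (.nr 1094 623489 (.nx 1012 129 (.nx 1011 128 (.nr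
  1010 80 (.lg 0 false 1 23 23 7 0 144) (.l1 .sk)) (.l1 .sk)) (.nx 1030 20642 (.nr 1022 110219 (.lg
  0 false 10 83 89 16 0 720) (.nx 1029 2582 (.nx 1027 1627 (.lg 0 false 5 83 83 16 0 720) (.nr 1028
  131073 (.lg 0 true 1 73 73 7 0 144) .out)) .out)) (.nr 1093 131073 (.nx 1066 1664512 (.nx 1060
  832257 (.nr 1040 745 (.lg 0 true 10 79 79 16 0 720) (.nx 1059 524289 (.nx 1045 46340 (.lg 1 false
  5 97 101 16 52070 55440) (.nr 1046 1527 (.lg 2 false 1 79 79 7 45040 1008) (.lg 2 false 13 97 103
  16 23195 720720))) .out)) (.nr 1065 129 (.lg 0 true 5 71 71 16 0 720) .out)) (.nr 1092 65 (.lg 0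
  true 26 73 73 16 0 1872) .out)) .out))) .out) .out) (.na 1097 11 .ne (.nx 1142 1664512 (.nr 1141
  623489 (.nx 1099 128 (.nr 1098 96 (.lg 0 false 1 23 23 9 0 1584) (.l1 .sk)) (.nx 1100 129 (.l1
  .sk) (.nx 1113 26007 (.nr 1105 110219 (.lg 0 false 5 97 97 16 0 7920) (.nx 1112 2582 (.nx 1110
  1292 (.lg 0 false 5 83 83 16 0 7920) (.nr 1111 131073 (.lg 0 true 1 73 73 9 0 1584) .out)) .out))
  (.nr 1140 131073 (.nr 1126 829 (.nx 1118 524289 (.lg 0 true 5 79 79 16 0 7920) (.nr 1125 65 (.lg
  0 true 7 67 67 16 0 11088) .out)) (.nx 1139 416129 (.nr 1128 3171 (.lg 2 true 2 79 79 9 32126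
  1584) (.nx 1133 65537 (.lg 1 false 5 89 97 16 41329 7920) (.nr 1138 110219 (.lg 2 false 5 89 97
  16 13794 7920) .out))) .out)) .out)))) .out) .out)))))

theorem c3 :
    OkQ ckI L9 183 1 9 0 34359738368 1 1099511627776 ∧
    OkQ ckI L7 128 1 12 0 34359738368 1 1099511627776 := by
  refine ⟨?_, ?_⟩
  · refine fin 1464 1466 T3_0 ?_
    refine jn 11 (by decide +kernel) ?_
    refine jn 16 (by decide +kernel) ?_
    refine jn 20 (by decide +kernel) ?_
    refine jn 26 (by decide +kernel) ?_
    refine jn 30 (by decide +kernel) ?_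
    refine jn 36 (by decide +kernel) ?_
    refine jn 41 (by decide +kernel) ?_
    refine jn 48 (by decide +kernel) ?_
    refine jn 55 (by decide +kernel) ?_
    refine jn 60 (by decide +kernel) ?_
    refine jn 65 (by decide +kernel) ?_
    refine jn 71 (by decide +kernel) ?_
    refine jn 78 (by decide +kernel) ?_
    refine jn 86 (by decide +kernel) ?_
    refine jn 90 (by decide +kernel) ?_
    refine jn 96 (by decide +kernel) ?_
    refine jn 100 (by decide +kernel) ?_
    refine jn 106 (by decide +kernel) ?_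
    refine jn 111 (by decide +kernel) ?_
    refine jn 118 (by decide +kernel) ?_
    refine jn 125 (by decide +kernel) ?_
    refine jn 130 (by decide +kernel) ?_
    refine jn 135 (by decide +kernel) ?_
    refine jn 141 (by decide +kernel) ?_
    refine jn 178 (by decide +kernel) ?_
    refine jn 199 (by decide +kernel) ?_
    refine jn 201 (by decide +kernel) ?_
    refine jn 210 (by decide +kernel) ?_
    refine jn 221 (by decide +kernel) ?_
    refine jn 231 (by decide +kernel) ?_
    refine jn 236 (by decide +kernel) ?_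
    refine jn 256 (by decide +kernel) ?_
    refine jn 276 (by decide +kernel) ?_
    refine jn 311 (by decide +kernel) ?_
    refine jn 346 (by decide +kernel) ?_
    refine jn 368 (by decide +kernel) ?_
    refine jn 381 (by decide +kernel) ?_
    refine jn 399 (by decide +kernel) ?_
    refine jn 416 (by decide +kernel) ?_
    refine jn 445 (by decide +kernel) ?_
    refine jn 456 (by decide +kernel) ?_
    refine jn 469 (by decide +kernel) ?_
    refine jn 476 (by decide +kernel) ?_
    refine jn 483 (by decide +kernel) ?_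
    refine jn 491 (by decide +kernel) ?_
    refine jn 500 (by decide +kernel) ?_
    refine jn 509 (by decide +kernel) ?_
    refine jn 517 (by decide +kernel) ?_
    refine jn 524 (by decide +kernel) ?_
    refine jn 531 (by decide +kernel) ?_
    refine jn 538 (by decide +kernel) ?_
    refine jn 553 (by decide +kernel) ?_
    refine jn 566 (by decide +kernel) ?_
    refine jn 579 (by decide +kernel) ?_
    refine jn 589 (by decide +kernel) ?_
    refine jn 610 (by decide +kernel) ?_
    refine jn 631 (by decide +kernel) ?_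
    refine jn 649 (by decide +kernel) ?_
    refine jn 672 (by decide +kernel) ?_
    refine jn 684 (by decide +kernel) ?_
    refine jn 711 (by decide +kernel) ?_
    refine jn 732 (by decide +kernel) ?_
    refine jn 741 (by decide +kernel) ?_
    refine jn 750 (by decide +kernel) ?_
    refine jn 759 (by decide +kernel) ?_
    refine jn 768 (by decide +kernel) ?_
    refine jn 789 (by decide +kernel) ?_
    refine jn 798 (by decide +kernel) ?_
    refine jn 803 (by decide +kernel) ?_
    refine jn 831 (by decide +kernel) ?_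
    refine jn 844 (by decide +kernel) ?_
    refine jn 872 (by decide +kernel) ?_
    refine jn 894 (by decide +kernel) ?_
    refine jn 907 (by decide +kernel) ?_
    refine jn 925 (by decide +kernel) ?_
    refine jn 961 (by decide +kernel) ?_
    refine jn 970 (by decide +kernel) ?_
    refine jn 972 (by decide +kernel) ?_
    refine jn 975 (by decide +kernel) ?_
    refine jn 977 (by decide +kernel) ?_
    refine jn 980 (by decide +kernel) ?_
    refine jn 982 (by decide +kernel) ?_
    refine jn 985 (by decide +kernel) ?_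
    refine jn 987 (by decide +kernel) ?_
    refine jn 990 (by decide +kernel) ?_
    refine jn 992 (by decide +kernel) ?_
    refine jn 995 (by decide +kernel) ?_
    refine jn 997 (by decide +kernel) ?_
    refine jn 1000 (by decide +kernel) ?_
    refine jn 1012 (by decide +kernel) ?_
    refine jn 1015 (by decide +kernel) ?_
    refine jn 1017 (by decide +kernel) ?_
    refine jn 1019 (by decide +kernel) ?_
    refine jn 1021 (by decide +kernel) ?_
    refine jn 1023 (by decide +kernel) ?_
    refine jn 1028 (by decide +kernel) ?_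
    refine jn 1033 (by decide +kernel) ?_
    refine jn 1043 (by decide +kernel) ?_
    refine jn 1053 (by decide +kernel) ?_
    refine jn 1063 (by decide +kernel) ?_
    refine jn 1071 (by decide +kernel) ?_
    refine jn 1084 (by decide +kernel) ?_
    refine jn 1095 (by decide +kernel) ?_
    refine jn 1097 (by decide +kernel) ?_
    refine jn 1103 (by decide +kernel) ?_
    refine jn 1142 (by decide +kernel) ?_
    refine jn 1152 (by decide +kernel) ?_
    refine jn 1175 (by decide +kernel) ?_
    refine jn 1190 (by decide +kernel) ?_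
    refine jn 1196 (by decide +kernel) ?_
    refine jn 1217 (by decide +kernel) ?_
    refine jn 1228 (by decide +kernel) ?_
    refine jn 1254 (by decide +kernel) ?_
    refine jn 1277 (by decide +kernel) ?_
    refine jn 1324 (by decide +kernel) ?_
    refine jn 1332 (by decide +kernel) ?_
    refine jn 1333 (by decide +kernel) ?_
    refine jn 1334 (by decide +kernel) ?_
    refine jn 1335 (by decide +kernel) ?_
    refine jn 1336 (by decide +kernel) ?_
    refine jn 1337 (by decide +kernel) ?_
    refine jn 1338 (by decide +kernel) ?_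
    refine jn 1339 (by decide +kernel) ?_
    refine jn 1340 (by decide +kernel) ?_
    refine jn 1341 (by decide +kernel) ?_
    refine jn 1342 (by decide +kernel) ?_
    refine jn 1343 (by decide +kernel) ?_
    refine jn 1344 (by decide +kernel) ?_
    refine jn 1345 (by decide +kernel) ?_
    refine jn 1352 (by decide +kernel) ?_
    refine jn 1359 (by decide +kernel) ?_
    refine jn 1361 (by decide +kernel) ?_
    refine jn 1362 (by decide +kernel) ?_
    refine jn 1363 (by decide +kernel) ?_
    refine jn 1364 (by decide +kernel) ?_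
    refine jn 1365 (by decide +kernel) ?_
    refine jn 1366 (by decide +kernel) ?_
    refine jn 1367 (by decide +kernel) ?_
    refine jn 1368 (by decide +kernel) ?_
    refine jn 1374 (by decide +kernel) ?_
    refine jn 1375 (by decide +kernel) ?_
    refine jn 1380 (by decide +kernel) ?_
    refine jn 1382 (by decide +kernel) ?_
    refine jn 1385 (by decide +kernel) ?_
    refine jn 1387 (by decide +kernel) ?_
    refine jn 1389 (by decide +kernel) ?_
    refine jn 1391 (by decide +kernel) ?_
    refine jn 1396 (by decide +kernel) ?_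
    refine jn 1398 (by decide +kernel) ?_
    refine jn 1403 (by decide +kernel) ?_
    refine jn 1405 (by decide +kernel) ?_
    refine jn 1409 (by decide +kernel) ?_
    refine jn 1412 (by decide +kernel) ?_
    refine jn 1418 (by decide +kernel) ?_
    refine jn 1420 (by decide +kernel) ?_
    refine jn 1424 (by decide +kernel) ?_
    refine jn 1427 (by decide +kernel) ?_
    refine jn 1432 (by decide +kernel) ?_
    refine jn 1436 (by decide +kernel) ?_
    refine jn 1439 (by decide +kernel) ?_
    refine jn 1442 (by decide +kernel) ?_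
    refine jn 1462 (by decide +kernel) ?_
    exact je (by decide +kernel)
  · refine fin 144 1143 T3_1 ?_
    refine jn 5 (by decide +kernel) ?_
    refine jn 7 (by decide +kernel) ?_
    refine jn 11 (by decide +kernel) ?_
    refine jn 15 (by decide +kernel) ?_
    refine jn 16 (by decide +kernel) ?_
    refine jn 20 (by decide +kernel) ?_
    refine jn 25 (by decide +kernel) ?_
    refine jn 26 (by decide +kernel) ?_
    refine jn 29 (by decide +kernel) ?_
    refine jn 31 (by decide +kernel) ?_
    refine jn 35 (by decide +kernel) ?_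
    refine jn 37 (by decide +kernel) ?_
    refine jn 73 (by decide +kernel) ?_
    refine jn 79 (by decide +kernel) ?_
    refine jn 84 (by decide +kernel) ?_
    refine jn 90 (by decide +kernel) ?_
    refine jn 96 (by decide +kernel) ?_
    refine jn 102 (by decide +kernel) ?_
    refine jn 108 (by decide +kernel) ?_
    refine jn 123 (by decide +kernel) ?_
    refine jn 150 (by decide +kernel) ?_
    refine jn 166 (by decide +kernel) ?_
    refine jn 201 (by decide +kernel) ?_
    refine jn 222 (by decide +kernel) ?_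
    refine jn 236 (by decide +kernel) ?_
    refine jn 259 (by decide +kernel) ?_
    refine jn 274 (by decide +kernel) ?_
    refine jn 285 (by decide +kernel) ?_
    refine jn 291 (by decide +kernel) ?_
    refine jn 296 (by decide +kernel) ?_
    refine jn 303 (by decide +kernel) ?_
    refine jn 308 (by decide +kernel) ?_
    refine jn 314 (by decide +kernel) ?_
    refine jn 319 (by decide +kernel) ?_
    refine jn 324 (by decide +kernel) ?_
    refine jn 330 (by decide +kernel) ?_
    refine jn 345 (by decide +kernel) ?_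
    refine jn 358 (by decide +kernel) ?_
    refine jn 384 (by decide +kernel) ?_
    refine jn 397 (by decide +kernel) ?_
    refine jn 414 (by decide +kernel) ?_
    refine jn 436 (by decide +kernel) ?_
    refine jn 459 (by decide +kernel) ?_
    refine jn 479 (by decide +kernel) ?_
    refine jn 480 (by decide +kernel) ?_
    refine jn 481 (by decide +kernel) ?_
    refine jn 482 (by decide +kernel) ?_
    refine jn 483 (by decide +kernel) ?_
    refine jn 484 (by decide +kernel) ?_
    refine jn 485 (by decide +kernel) ?_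
    refine jn 486 (by decide +kernel) ?_
    refine jn 487 (by decide +kernel) ?_
    refine jn 488 (by decide +kernel) ?_
    refine jn 489 (by decide +kernel) ?_
    refine jn 490 (by decide +kernel) ?_
    refine jn 491 (by decide +kernel) ?_
    refine jn 492 (by decide +kernel) ?_
    refine jn 505 (by decide +kernel) ?_
    refine jn 507 (by decide +kernel) ?_
    refine jn 508 (by decide +kernel) ?_
    refine jn 509 (by decide +kernel) ?_
    refine jn 510 (by decide +kernel) ?_
    refine jn 511 (by decide +kernel) ?_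
    refine jn 513 (by decide +kernel) ?_
    refine jn 514 (by decide +kernel) ?_
    refine jn 515 (by decide +kernel) ?_
    refine jn 516 (by decide +kernel) ?_
    refine jn 518 (by decide +kernel) ?_
    refine jn 519 (by decide +kernel) ?_
    refine jn 524 (by decide +kernel) ?_
    refine jn 537 (by decide +kernel) ?_
    refine jn 539 (by decide +kernel) ?_
    refine jn 552 (by decide +kernel) ?_
    refine jn 565 (by decide +kernel) ?_
    refine jn 578 (by decide +kernel) ?_
    refine jn 590 (by decide +kernel) ?_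
    refine jn 598 (by decide +kernel) ?_
    refine jn 608 (by decide +kernel) ?_
    refine jn 612 (by decide +kernel) ?_
    refine jn 621 (by decide +kernel) ?_
    refine jn 628 (by decide +kernel) ?_
    refine jn 651 (by decide +kernel) ?_
    refine jn 657 (by decide +kernel) ?_
    refine jn 659 (by decide +kernel) ?_
    refine jn 660 (by decide +kernel) ?_
    refine jn 661 (by decide +kernel) ?_
    refine jn 662 (by decide +kernel) ?_
    refine jn 663 (by decide +kernel) ?_
    refine jn 665 (by decide +kernel) ?_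
    refine jn 666 (by decide +kernel) ?_
    refine jn 667 (by decide +kernel) ?_
    refine jn 669 (by decide +kernel) ?_
    refine jn 670 (by decide +kernel) ?_
    refine jn 671 (by decide +kernel) ?_
    refine jn 672 (by decide +kernel) ?_
    refine jn 687 (by decide +kernel) ?_
    refine jn 691 (by decide +kernel) ?_
    refine jn 693 (by decide +kernel) ?_
    refine jn 695 (by decide +kernel) ?_
    refine jn 697 (by decide +kernel) ?_
    refine jn 699 (by decide +kernel) ?_
    refine jn 701 (by decide +kernel) ?_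
    refine jn 703 (by decide +kernel) ?_
    refine jn 704 (by decide +kernel) ?_
    refine jn 709 (by decide +kernel) ?_
    refine jn 719 (by decide +kernel) ?_
    refine jn 730 (by decide +kernel) ?_
    refine jn 740 (by decide +kernel) ?_
    refine jn 751 (by decide +kernel) ?_
    refine jn 759 (by decide +kernel) ?_
    refine jn 766 (by decide +kernel) ?_
    refine jn 802 (by decide +kernel) ?_
    refine jn 809 (by decide +kernel) ?_
    refine jn 810 (by decide +kernel) ?_
    refine jn 812 (by decide +kernel) ?_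
    refine jn 813 (by decide +kernel) ?_
    refine jn 814 (by decide +kernel) ?_
    refine jn 815 (by decide +kernel) ?_
    refine jn 817 (by decide +kernel) ?_
    refine jn 818 (by decide +kernel) ?_
    refine jn 824 (by decide +kernel) ?_
    refine jn 828 (by decide +kernel) ?_
    refine jn 831 (by decide +kernel) ?_
    refine jn 833 (by decide +kernel) ?_
    refine jn 835 (by decide +kernel) ?_
    refine jn 845 (by decide +kernel) ?_
    refine jn 856 (by decide +kernel) ?_
    refine jn 866 (by decide +kernel) ?_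
    refine jn 901 (by decide +kernel) ?_
    refine jn 915 (by decide +kernel) ?_
    refine jn 916 (by decide +kernel) ?_
    refine jn 917 (by decide +kernel) ?_
    refine jn 918 (by decide +kernel) ?_
    refine jn 920 (by decide +kernel) ?_
    refine jn 921 (by decide +kernel) ?_
    refine jn 929 (by decide +kernel) ?_
    refine jn 934 (by decide +kernel) ?_
    refine jn 937 (by decide +kernel) ?_
    refine jn 939 (by decide +kernel) ?_
    refine jn 946 (by decide +kernel) ?_
    refine jn 954 (by decide +kernel) ?_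
    refine jn 961 (by decide +kernel) ?_
    refine jn 968 (by decide +kernel) ?_
    refine jn 975 (by decide +kernel) ?_
    refine jn 1006 (by decide +kernel) ?_
    refine jn 1012 (by decide +kernel) ?_
    refine jn 1014 (by decide +kernel) ?_
    refine jn 1016 (by decide +kernel) ?_
    refine jn 1017 (by decide +kernel) ?_
    refine jn 1019 (by decide +kernel) ?_
    refine jn 1021 (by decide +kernel) ?_
    refine jn 1027 (by decide +kernel) ?_
    refine jn 1033 (by decide +kernel) ?_
    refine jn 1037 (by decide +kernel) ?_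
    refine jn 1040 (by decide +kernel) ?_
    refine jn 1046 (by decide +kernel) ?_
    refine jn 1056 (by decide +kernel) ?_
    refine jn 1065 (by decide +kernel) ?_
    refine jn 1092 (by decide +kernel) ?_
    refine jn 1100 (by decide +kernel) ?_
    refine jn 1101 (by decide +kernel) ?_
    refine jn 1103 (by decide +kernel) ?_
    refine jn 1104 (by decide +kernel) ?_
    refine jn 1110 (by decide +kernel) ?_
    refine jn 1116 (by decide +kernel) ?_
    refine jn 1118 (by decide +kernel) ?_
    refine jn 1125 (by decide +kernel) ?_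
    refine jn 1133 (by decide +kernel) ?_
    refine jn 1138 (by decide +kernel) ?_
    exact je (by decide +kernel)

end Pool.Agent.MP_2339ce_nt.NR
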