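import Pool.Agent.MP_2339ce_nt.Q2.NC.L8
import Pool.Agent.MP_2339ce_nt.Q2.NC.L9
import Pool.Agent.MP_2339ce_nt.Q2.CkI

/-! Block NR: runs. -/

set_option autoImplicit false
set_option maxRecDepth 100000

noncomputable section

namespace Pool.Agent.MP_2339ce_nt.NR

open Q2.Top

def T39_0 : Ph :=
  (.na 264 12 (.na 135 9 (.nx 134 16777217 (.nr 133 1048577 (.nx 31 26007 (.nx 3 208 (.nx 2 207
  (.nr 1 91 (.lg 0 true 1 41 41 11 0 3312) (.l1 .sk)) (.l1 .sk)) (.nr 13 155873 (.lg 0 false 10 101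
  107 19 0 1506960) (.nx 30 2049 (.nr 24 623489 (.nr 18 311745 (.lg 0 false 5 89 97 13 0 16560)
  (.nx 23 1025 (.lg 0 false 5 89 97 13 0 16560) .out)) (.nx 29 324 (.lg 0 false 5 73 79 13 0 16560)
  .out)) .out))) (.nr 132 220437 (.nr 66 55 (.lg 0 true 35 83 89 13 0 115920) (.nx 131 2097153 (.nx
  77 52015 (.nr 76 185365 (.nx 71 36779 (.lg 1 false 5 103 107 13 152877 1506960) (.lg 1 false 5
  103 107 13 108101 1506960)) .out) (.nx 125 1048577 (.nr 82 971 (.lg 0 true 5 97 97 13 0 16560)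
  (.nx 87 76448 (.lg 1 false 5 103 107 13 90883 1506960) (.nr 92 3732 (.lg 2 true 5 89 101 13
  111770 115920) (.nx 102 165142 (.nx 97 112360 (.lg 1 false 5 107 109 13 61836 16576560) (.lg 1
  true 5 107 109 13 42072 16576560)) (.nr 124 185365 (.nr 107 14343 (.lg 2 true 5 89 101 13 29081
  115920) (.nx 112 208065 (.lg 1 true 5 103 107 13 24076 16576560) (.nr 123 110219 (.nx 117 262145
  (.lg 1 true 5 101 103 13 11371 1506960) (.nr 122 65537 (.lg 2 false 5 97 101 13 7567 115920)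
  .out)) .out))) .out))))) (.nr 130 129 (.lg 0 true 5 79 79 13 0 16560) .out))) .out)) .out)) .out)
  .out) (.na 263 10 (.nx 262 16777217 (.nr 261 1048577 (.nx 137 207 (.nr 136 101 (.lg 0 true 1 41
  41 13 0 16560) (.l1 .sk)) (.nx 138 208 (.l1 .sk) (.nr 256 623489 (.nx 159 41285 (.nr 154 370729
  (.nr 149 185365 (.lg 0 false 11 103 109 16 0 16576560) (.nx 153 2049 (.lg 0 false 4 89 97 16 0
  16560) .out)) (.nx 158 814 (.lg 0 false 4 83 83 16 0 16560) .out)) (.nr 255 220437 (.nr 207 764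
  (.nx 170 1048577 (.lg 0 true 11 83 89 16 0 18216) (.nr 206 154 (.nx 177 2097153 (.lg 0 true 7 79
  79 16 0 11592) (.nr 205 65 (.lg 0 true 28 83 83 16 0 23184) .out)) .out)) (.nx 254 832257 (.nr
  211 3370 (.lg 2 true 4 89 97 16 112747 16560) (.nx 222 61857 (.lg 1 false 11 101 109 16 114503
  16576560) (.nr 224 7077 (.lg 2 true 2 89 89 16 25561 16560) (.nx 246 208065 (.nx 235 92682 (.lg 1
  false 11 101 109 16 76422 16576560) (.lg 1 true 11 103 109 16 51005 16576560)) (.nr 253 110219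
  (.lg 2 false 7 97 103 16 12172 1506960) .out))))) .out)) .out)) (.nx 260 257 (.lg 0 false 4 71 71
  16 0 3312) .out)))) .out) .out) .ne)) (.na 381 16 (.na 327 13 (.nx 326 2097153 (.nr 325 1048577
  (.nx 267 208 (.nx 266 207 (.nr 265 132 (.lg 0 true 1 29 29 13 0 3312) (.l1 .sk)) (.l1 .sk)) (.nx
  268 257 (.l1 (.ls 83 43 1901)) (.nr 324 623489 (.nr 318 185365 (.nx 310 660563 (.nx 278 48160
  (.lg 0 false 10 97 101 19 0 16560) (.nr 288 8276 (.nr 283 1045 (.lg 0 true 5 83 83 17 0 16560)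
  (.lg 2 true 5 83 89 17 65425 16560)) (.nx 293 70783 (.lg 1 false 5 97 97 17 82555 16560) (.nx 304
  208065 (.nx 298 104033 (.lg 1 false 5 97 97 17 56170 16560) (.nr 303 155873 (.lg 1 true 5 97 101
  17 32144 16560) .out)) (.nr 309 65537 (.lg 2 false 5 83 89 17 8262 16560) .out))))) (.nr 317 65
  (.lg 0 true 7 71 71 19 0 23184) .out)) (.nx 323 1292 (.lg 0 false 5 83 83 17 0 16560) .out))
  .out))) .out) .out) (.nx 380 2097153 (.nr 379 1048577 (.nx 331 257 (.nx 329 207 (.nr 328 163 (.lg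
  0 true 1 31 31 9 0 43056) (.l1 .sk)) (.nx 330 208 (.l1 .sk) (.l1 (.ls 83 31 1755)))) (.nr 378
  623489 (.nr 372 185365 (.nx 342 48160 (.lg 0 false 11 101 103 16 0 3315312) (.nx 364 660563 (.nr
  347 2342 (.lg 0 true 5 89 89 16 0 107640) (.nx 352 104033 (.lg 1 false 5 101 103 16 82555
  1506960) (.nr 363 155873 (.lg 2 false 11 101 107 16 32144 16576560) .out))) (.nr 371 65 (.lg 0
  true 7 71 71 16 0 150696) .out))) (.nx 377 1292 (.lg 0 false 5 83 83 16 0 107640) .out)) .out))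
  .out) .out)) (.na 451 17 (.nx 450 2097153 (.nr 449 1048577 (.nr 382 8 .s1 (.nx 384 207 (.nr 383
  173 (.lg 0 true 1 41 41 11 0 16560) (.l1 .sk)) (.nx 385 208 (.l1 .sk) (.nr 446 623489 (.nx 397
  21425 (.nr 392 262145 (.lg 0 false 7 97 103 19 0 115920) (.nx 396 2049 (.nr 393 311745 (.lg 0
  true 1 89 89 11 0 16560) (.nx 395 1292 (.lg 0 false 2 89 89 13 0 3312) .out)) .out)) (.nr 445
  185365 (.nx 439 660563 (.nr 411 65537 (.nr 404 1251 (.lg 0 true 7 83 89 19 0 115920) (.lg 2 false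
  7 89 89 19 65744 23184)) (.nx 438 262145 (.nr 429 155873 (.nx 426 208065 (.nr 418 131073 (.lg 0
  true 7 103 109 19 0 16576560) (.nx 425 165142 (.lg 0 true 7 101 109 19 0 16576560) .out)) (.nr
  428 77937 (.lg 0 true 2 97 101 13 0 16560) .out)) (.nx 430 32768 .out (.nx 437 104033 (.lg 0 true
  7 101 107 19 0 16576560) .out))) .out)) (.nr 444 129 (.lg 0 true 5 73 79 17 0 16560) .out))
  .out)) (.nx 448 324 (.lg 0 false 2 73 73 13 0 3312) .out))))) .out) .out) .ne)))

def T39_1 : Ph :=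
  (.na 794 148 (.na 464 86 (.na 244 56 (.na 138 45 (.na 64 40 (.na 24 37 (.na 23 36 (.nx 22 1664512
  (.nr 21 881745 (.nr 1 33 .s1 (.nx 4 160 (.nx 3 159 (.nr 2 322 (.l1 (.ls 29 29 725)) (.l1 .sk))
  (.l1 .sk)) (.nx 16 104033 (.nx 5 257 (.l1 (.ls 83 31 1158)) (.nr 15 440873 (.nx 9 10323 (.lg 0
  false 4 97 97 19 0 267120) (.nr 14 110219 (.nx 11 26009 (.lg 0 false 2 97 101 17 0 267120) (.nr
  13 32769 (.nr 12 811 (.lg 0 true 1 71 71 16 0 44520) (.lg 2 true 1 89 89 16 16004 44520)) .out))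
  .out)) .out)) (.nr 20 257 (.lg 0 true 4 73 73 19 0 89040) .out)))) .out) .out) (.lg 0 false 1 0 0
  7 0 24)) (.na 44 39 (.nx 43 1664512 (.nr 42 881745 (.nr 25 35 .s1 (.nx 29 257 (.nx 27 159 (.nr 26
  349 (.lg 0 false 1 19 19 16 0 38160) (.l1 .sk)) (.nx 28 160 (.l1 .sk) (.l1 (.ls 79 23 1096))))
  (.nr 41 440873 (.nx 33 20644 (.lg 0 false 4 101 101 16 0 38160) (.nr 40 46342 (.nr 37 257 (.lg 0
  true 4 71 71 16 0 2544) (.nx 39 104033 (.lg 2 true 2 89 89 16 32182 2544) .out)) .out)) .out)))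
  .out) .out) (.nx 63 1664512 (.nr 62 881745 (.nr 45 37 .s1 (.nx 48 160 (.nx 47 159 (.nr 46 357
  (.l1 (.ls 23 31 651)) (.l1 .sk)) (.l1 .sk)) (.nx 49 257 (.l1 (.ls 79 31 1040)) (.nr 61 440873
  (.nx 53 20644 (.lg 0 false 4 101 101 17 0 3472560) (.nr 60 46342 (.nr 57 257 (.lg 0 true 4 71 71
  17 0 99216) (.nx 59 104033 (.lg 2 true 2 89 89 17 32182 99216) .out)) .out)) .out)))) .out)
  .out))) (.na 103 42 (.na 83 41 (.nx 82 1664512 (.nr 81 881745 (.nr 65 38 .s1 (.nx 78 104033 (.nx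
  75 26009 (.nx 67 159 (.nr 66 366 (.l1 (.ls 31 31 635)) (.l1 .sk)) (.nx 68 160 (.l1 .sk) (.nx 69
  257 (.l1 (.ls 89 37 1014)) (.nr 74 440873 (.nr 71 110219 (.lg 0 false 2 97 97 23 0 38160) (.nx 73
  10323 (.lg 0 false 2 97 101 23 0 38160) .out)) .out)))) (.nr 77 32769 (.nr 76 2209 (.lg 0 true 1
  79 79 19 0 12720) (.lg 2 false 1 89 97 19 16004 38160)) .out)) (.nr 80 257 (.lg 0 true 2 79 79 23
  0 12720) .out))) .out) .out) (.nx 102 1664512 (.nr 101 881745 (.nr 84 40 .s1 (.nx 87 160 (.nx 86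
  159 (.nr 85 375 (.l1 (.ls 19 19 619)) (.l1 .sk)) (.l1 .sk)) (.nx 88 257 (.l1 (.ls 79 23 989))
  (.nr 100 440873 (.nx 92 20644 (.lg 0 false 4 97 97 16 0 2544) (.nr 99 46342 (.nr 96 257 (.lg 0
  true 4 71 71 16 0 2544) (.nx 98 104033 (.lg 2 true 2 89 89 16 32182 2544) .out)) .out)) .out))))
  .out) .out)) (.na 121 43 (.nx 120 1664512 (.nr 119 881745 (.nr 104 41 .s1 (.nx 111 20644 (.nx 105
  257 (.l1 (.ls 79 43 1575)) (.nr 110 440873 (.lg 0 false 5 89 97 29 0 267120) .out)) (.nr 118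
  46342 (.nr 115 257 (.lg 0 true 4 71 71 29 0 53424) (.nx 117 104033 (.lg 2 true 2 89 89 23 32182
  267120) .out)) .out))) .out) .out) (.nx 137 1664512 (.nr 136 881745 (.nr 122 42 .s1 (.nx 128
  20644 (.nx 123 257 (.l1 (.ls 79 29 1539)) (.nr 127 440873 (.lg 0 false 4 101 101 16 0 267120)
  .out)) (.nr 135 46342 (.nr 132 257 (.lg 0 true 4 67 67 16 0 2544) (.nx 134 104033 (.lg 2 false 2
  83 83 16 32182 2544) .out)) .out))) .out) .out)))) (.na 191 50 (.na 156 48 (.na 139 46 (.lg 0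
  false 1 0 0 16 0 24) (.nx 155 1664512 (.nr 154 881745 (.nr 140 45 .s1 (.nx 147 20644 (.nx 141 257
  (.l1 (.ls 79 41 1438)) (.nr 146 623489 (.lg 0 false 5 97 101 19 0 267120) .out)) (.nr 153 46342
  (.nr 150 257 (.lg 0 true 3 71 71 13 0 7632) (.nx 152 104033 (.lg 2 false 2 83 83 13 32182 2544)
  .out)) .out))) .out) .out)) (.na 174 49 (.nx 173 1664512 (.nr 172 881745 (.nr 157 47 .s1 (.nx 160
  160 (.nx 159 159 (.nr 158 438 (.l1 (.ls 29 37 529)) (.l1 .sk)) (.l1 .sk)) (.nx 161 257 (.l1 (.ls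
  83 37 845)) (.nr 171 623489 (.nx 164 13005 (.lg 0 false 3 97 101 29 0 267120) (.nr 170 110219
  (.nr 168 32769 (.nr 166 257 (.lg 0 true 2 71 71 23 0 7632) (.nx 167 104033 (.lg 2 true 1 89 89 19
  32182 7632) .out)) (.nx 169 26009 (.lg 0 false 1 89 89 19 0 7632) .out)) .out)) .out)))) .out)
  .out) (.nx 190 1664512 (.nr 189 881745 (.nr 175 48 .s1 (.nx 176 257 (.l1 (.ls 73 31 1350)) (.nr
  188 623489 (.nx 180 20644 (.lg 0 false 4 97 97 16 0 267120) (.nr 187 46342 (.nr 184 447 (.lg 0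
  true 4 71 71 16 0 17808) (.nx 186 104033 (.lg 2 false 2 83 83 16 28474 17808) .out)) .out))
  .out))) .out) .out))) (.na 228 53 (.na 210 52 (.nx 209 1664512 (.nr 208 881745 (.nr 192 49 .s1
  (.nx 193 257 (.l1 (.ls 79 41 1323)) (.nr 207 623489 (.nx 200 20644 (.lg 0 false 7 89 97 23 0
  267120) (.nr 206 46342 (.nr 203 257 (.lg 0 true 3 67 67 19 0 38160) (.nx 205 104033 (.lg 2 false
  2 83 83 19 32182 12720) .out)) .out)) .out))) .out) .out) (.nx 227 1664512 (.nr 226 881745 (.nr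
  211 51 .s1 (.nx 214 160 (.nx 213 159 (.nr 212 474 (.l1 (.ls 31 31 489)) (.l1 .sk)) (.l1 .sk))
  (.nx 219 13005 (.nx 215 257 (.l1 (.ls 83 37 780)) (.nr 218 623489 (.lg 0 false 3 101 103 23 0
  3472560) .out)) (.nr 225 110219 (.nr 221 257 (.lg 0 true 2 73 73 23 0 33072) (.nx 224 104033 (.nr
  222 32769 (.lg 2 true 1 97 97 19 32182 3472560) (.nx 223 26009 (.lg 0 true 1 97 97 19 0 3472560)
  .out)) .out)) .out)))) .out) .out)) (.na 243 54 (.nx 242 1664512 (.nr 241 881745 (.nr 229 52 .s1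
  (.nx 235 20644 (.nx 230 257 (.l1 (.ls 71 29 1249)) (.nr 234 623489 (.lg 0 true 4 89 89 16 0
  267120) .out)) (.nr 240 46342 (.nr 237 257 (.lg 0 false 2 71 71 16 0 267120) (.nx 239 104033 (.lg
  2 true 2 73 73 16 32182 2544) .out)) .out))) .out) .out) (.lg 0 false 1 0 0 16 0 24))))) (.na 359
  72 (.na 297 65 (.na 279 63 (.na 262 60 (.nx 261 1664512 (.nr 260 881745 (.nr 245 55 .s1 (.nx 249
  257 (.nx 247 159 (.nr 246 536 (.l1 (.ls 31 31 454)) (.l1 .sk)) (.nx 248 160 (.l1 .sk) (.l1 (.ls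
  89 37 725)))) (.nr 259 623489 (.nx 256 104033 (.nx 253 26009 (.nr 250 110219 (.lg 0 false 1 101
  101 23 0 267120) (.nx 252 13005 (.lg 0 false 2 101 103 29 0 3472560) .out)) (.nr 255 32769 (.nr
  254 4190 (.lg 0 true 1 83 83 23 0 17808) (.lg 2 false 1 89 89 23 16004 267120)) .out)) (.nr 258
  257 (.lg 0 true 2 73 73 29 0 17808) .out)) .out))) .out) .out) (.nx 278 1664512 (.nr 277 881745
  (.nr 263 59 .s1 (.nx 265 159 (.nr 264 563 (.l1 (.ls 31 37 424)) (.l1 .sk)) (.nx 266 160 (.l1 .sk)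
  (.nx 267 257 (.l1 (.ls 83 41 677)) (.nr 276 623489 (.nx 269 13005 (.lg 0 false 2 101 101 29 0
  267120) (.nr 275 110219 (.nr 271 257 (.lg 0 true 2 73 73 29 0 38160) (.nx 274 104033 (.nr 272
  32769 (.lg 2 false 1 89 89 23 32182 267120) (.nx 273 26009 (.lg 0 true 1 89 89 23 0 267120)
  .out)) .out)) .out)) .out))))) .out) .out)) (.na 280 64 (.lg 0 false 1 0 0 16 0 24) (.nx 296
  1664512 (.nr 295 881745 (.nr 281 63 .s1 (.nx 284 160 (.nx 283 159 (.nr 282 581 (.l1 (.ls 23 29
  398)) (.l1 .sk)) (.l1 .sk)) (.nx 290 26009 (.nx 285 257 (.l1 (.ls 79 31 635)) (.nr 289 623489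
  (.nr 286 110219 (.lg 0 true 1 97 97 17 0 267120) (.nx 288 13005 (.lg 0 false 2 97 97 19 0 267120)
  .out)) .out)) (.nr 294 32769 (.nr 292 513 (.lg 0 true 2 71 71 19 0 2544) (.nx 293 104033 (.lg 2
  false 1 79 79 17 16123 2544) .out)) .out)))) .out) .out))) (.na 328 70 (.na 312 69 (.nx 311
  1664512 (.nr 310 524289 (.nr 298 64 .s1 (.nx 301 160 (.nx 300 159 (.nr 299 617 (.l1 (.ls 29 29
  391)) (.l1 .sk)) (.l1 .sk)) (.nx 305 20644 (.lg 0 false 4 89 97 23 0 496080) (.nr 309 32769 (.nr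
  307 513 (.lg 0 true 2 73 73 19 0 165360) (.nx 308 104033 (.lg 2 false 1 79 79 17 20163 82680)
  .out)) .out)))) .out) .out) (.nx 327 1664512 (.nr 326 524289 (.nr 313 68 .s1 (.nx 320 20644 (.nx
  315 159 (.nr 314 625 (.l1 (.ls 19 19 369)) (.l1 .sk)) (.nx 316 160 (.l1 .sk) (.lg 0 false 4 89 89
  17 0 7632))) (.nr 325 32769 (.nr 323 513 (.lg 0 true 3 71 71 17 0 3816) (.nx 324 104033 (.lg 2
  true 1 79 79 16 20163 3816) .out)) .out))) .out) .out)) (.na 343 71 (.nx 342 1664512 (.nr 341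
  524289 (.nr 329 69 .s1 (.nx 331 159 (.nr 330 634 (.l1 (.ls 31 37 364)) (.l1 .sk)) (.nx 332 160
  (.l1 .sk) (.nx 334 13005 (.lg 0 false 2 97 97 29 0 89040) (.nr 340 65537 (.nx 335 20644 (.lg 0
  false 1 79 79 23 0 89040) (.nr 339 32769 (.nr 337 513 (.lg 0 true 2 73 73 29 0 89040) (.nx 338
  104033 (.lg 2 true 1 83 83 23 20163 89040) .out)) .out)) .out))))) .out) .out) (.nx 358 1664512
  (.nr 357 524289 (.nr 344 70 .s1 (.nx 347 160 (.nx 346 159 (.nr 345 643 (.l1 (.ls 17 19 359)) (.l1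
  .sk)) (.l1 .sk)) (.nx 351 20644 (.lg 0 false 4 89 89 16 0 2544) (.nr 356 32769 (.nr 354 513 (.lg
  0 true 3 67 67 16 0 3816) (.nx 355 104033 (.lg 2 true 1 79 79 16 20163 1272) .out)) .out))))
  .out) .out)))) (.na 406 80 (.na 375 75 (.na 360 74 (.lg 0 false 1 0 0 16 0 24) (.nx 374 1664512
  (.nr 373 524289 (.nr 361 73 .s1 (.nx 367 20644 (.nx 363 159 (.nr 362 670 (.l1 (.ls 19 29 344))
  (.l1 .sk)) (.nx 364 160 (.l1 .sk) (.lg 0 false 3 97 97 19 0 7632))) (.nr 372 32769 (.nr 370 513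
  (.lg 0 true 3 71 71 19 0 7632) (.nx 371 104033 (.lg 2 true 1 79 79 13 20163 2544) .out)) .out)))
  .out) .out)) (.na 391 78 (.nx 390 1664512 (.nr 389 524289 (.nr 376 74 .s1 (.nx 378 159 (.nr 377
  697 (.l1 (.ls 19 29 340)) (.l1 .sk)) (.nx 379 160 (.l1 .sk) (.nx 383 20644 (.lg 0 false 4 83 83
  19 0 38160) (.nr 388 32769 (.nr 386 513 (.lg 0 true 3 67 67 19 0 19080) (.nx 387 104033 (.lg 2
  true 1 73 73 17 20163 38160) .out)) .out))))) .out) .out) (.nx 405 1664512 (.nr 404 524289 (.nr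
  392 77 .s1 (.nx 398 20644 (.nx 394 159 (.nr 393 715 (.l1 (.ls 23 37 327)) (.l1 .sk)) (.nx 395 160
  (.l1 .sk) (.lg 0 false 3 89 89 29 0 99216))) (.nr 403 32769 (.nr 401 513 (.lg 0 true 3 71 71 29 0
  99216) (.nx 402 104033 (.lg 2 true 1 79 79 23 20163 99216) .out)) .out))) .out) .out))) (.na 420
  82 (.na 419 81 (.nx 418 1664512 (.nr 417 524289 (.nr 407 80 .s1 (.nx 410 160 (.nx 409 159 (.nr
  408 724 (.l1 (.ls 37 31 319)) (.l1 .sk)) (.l1 .sk)) (.nr 413 32769 (.nx 411 104033 (.lg 0 false 1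
  89 89 23 0 12720) (.nr 412 513 (.lg 0 true 1 79 79 23 0 12720) .out)) (.nx 416 20644 (.nx 414
  13005 (.lg 0 false 1 101 103 23 0 267120) (.nr 415 65537 (.lg 0 false 1 83 83 23 0 267120) .out))
  .out)))) .out) .out) (.lg 0 false 1 0 0 16 0 24)) (.na 435 83 (.nx 434 1664512 (.nr 433 524289
  (.nr 421 82 .s1 (.nx 427 20644 (.nx 423 159 (.nr 422 742 (.l1 (.ls 19 29 311)) (.l1 .sk)) (.nx
  424 160 (.l1 .sk) (.lg 0 false 3 89 89 19 0 7632))) (.nr 432 32769 (.nr 430 513 (.lg 0 true 3 71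
  71 19 0 7632) (.nx 431 104033 (.lg 2 true 1 79 79 13 20163 38160) .out)) .out))) .out) .out) (.na
  451 84 (.nx 450 1664512 (.nr 449 524289 (.nr 436 83 .s1 (.nx 438 159 (.nr 437 751 (.l1 (.ls 19 19
  307)) (.l1 .sk)) (.nx 439 160 (.l1 .sk) (.nx 443 20644 (.lg 0 false 4 79 89 16 0 2544) (.nr 448
  32769 (.nr 446 513 (.lg 0 true 3 67 67 16 0 3816) (.nx 447 104033 (.lg 2 true 1 73 73 16 20163
  1272) .out)) .out))))) .out) .out) (.nx 463 1664512 (.nr 462 524289 (.nr 452 84 .s1 (.nx 455 160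
  (.nx 454 159 (.nr 453 768 (.l1 (.ls 29 37 303)) (.l1 .sk)) (.l1 .sk)) (.nx 457 20644 (.lg 0 false
  2 97 97 31 0 267120) (.nr 461 32769 (.nr 459 513 (.lg 0 true 2 73 73 31 0 53424) (.nx 460 104033
  (.lg 2 false 1 79 79 29 20163 53424) .out)) .out)))) .out) .out))))))) (.na 663 117 (.na 563 101
  (.na 507 96 (.na 479 91 (.na 478 90 (.nx 477 1664512 (.nr 476 524289 (.nr 465 86 .s1 (.nx 471
  20644 (.nx 467 159 (.nr 466 804 (.l1 (.ls 19 29 296)) (.l1 .sk)) (.nx 468 160 (.l1 .sk) (.lg 0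
  false 3 89 89 19 0 7632))) (.nr 475 32769 (.nr 473 513 (.lg 0 true 2 67 67 19 0 2544) (.nx 474
  104033 (.lg 2 true 1 73 73 13 20163 2544) .out)) .out))) .out) .out) (.lg 0 false 1 0 0 16 0 24))
  (.na 494 92 (.nx 493 1664512 (.nr 492 1048577 (.nr 480 91 .s1 (.nx 483 160 (.nx 482 159 (.nr 481
  822 (.l1 (.ls 29 23 280)) (.l1 .sk)) (.l1 .sk)) (.nx 487 13005 (.lg 0 false 4 97 101 23 0
  3472560) (.nr 491 65537 (.nx 488 104033 (.lg 0 false 1 101 101 19 0 3472560) (.nr 490 513 (.lg 0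
  true 2 73 73 19 0 231504) .out)) .out)))) .out) .out) (.nx 506 1664512 (.nr 505 1048577 (.nr 495
  92 .s1 (.nx 502 104033 (.nx 497 159 (.nr 496 858 (.l1 (.ls 19 31 277)) (.l1 .sk)) (.nx 498 160
  (.l1 .sk) (.nx 500 13005 (.lg 0 false 2 97 97 19 0 2544) (.nr 501 65537 (.lg 0 false 1 101 101 19
  0 267120) .out)))) (.nr 504 513 (.lg 0 true 2 73 73 19 0 2544) .out))) .out) .out))) (.na 535 98
  (.na 520 97 (.nx 519 1664512 (.nr 518 1048577 (.nr 508 96 .s1 (.nx 511 160 (.nx 510 159 (.nr 509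
  867 (.l1 (.ls 29 31 266)) (.l1 .sk)) (.l1 .sk)) (.nx 513 13005 (.lg 0 false 2 97 97 29 0 38160)
  (.nr 517 65537 (.nx 514 104033 (.lg 0 false 1 97 97 23 0 38160) (.nr 516 513 (.lg 0 true 2 71 71
  29 0 7632) .out)) .out)))) .out) .out) (.nx 534 1664512 (.nr 533 1048577 (.nr 521 97 .s1 (.nx 528
  20644 (.nx 523 159 (.nr 522 876 (.l1 (.ls 17 17 263)) (.l1 .sk)) (.nx 524 160 (.l1 .sk) (.lg 0
  false 4 83 83 17 0 2544))) (.nr 532 32769 (.nr 530 513 (.lg 0 true 2 61 61 16 0 2544) (.nx 531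
  104033 (.lg 2 true 1 71 71 16 20163 1272) .out)) .out))) .out) .out)) (.na 550 100 (.nx 549
  1664512 (.nr 548 1048577 (.nr 536 98 .s1 (.nx 539 160 (.nx 538 159 (.nr 537 893 (.l1 (.ls 19 29
  260)) (.l1 .sk)) (.l1 .sk)) (.nr 544 65537 (.nx 541 104033 (.lg 0 false 2 83 83 23 0 267120) (.nr
  543 513 (.lg 0 true 2 61 61 23 0 17808) .out)) (.nx 547 13005 (.lg 0 false 3 83 83 23 0 53424)
  .out)))) .out) .out) (.nx 562 1664512 (.nr 561 1048577 (.nr 551 100 .s1 (.nx 558 104033 (.nx 553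
  159 (.nr 552 902 (.l1 (.ls 23 29 255)) (.l1 .sk)) (.nx 554 160 (.l1 .sk) (.nx 556 13005 (.lg 0
  false 2 89 89 29 0 12720) (.nr 557 65537 (.lg 0 false 1 89 89 23 0 12720) .out)))) (.nr 560 513
  (.lg 0 true 2 71 71 29 0 12720) .out))) .out) .out)))) (.na 622 108 (.na 592 105 (.na 578 104
  (.nx 577 1664512 (.nr 576 1048577 (.nr 564 101 .s1 (.nx 566 159 (.nr 565 929 (.l1 (.ls 17 17
  253)) (.l1 .sk)) (.nx 567 160 (.l1 .sk) (.nx 571 20644 (.lg 0 false 4 83 83 17 0 2544) (.nr 575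
  32769 (.nr 573 513 (.lg 0 true 2 61 61 16 0 2544) (.nx 574 104033 (.lg 2 true 1 71 71 16 20163
  1272) .out)) .out))))) .out) .out) (.nx 591 1664512 (.nr 590 1048577 (.nr 579 104 .s1 (.nx 582
  160 (.nx 581 159 (.nr 580 938 (.l1 (.ls 37 29 246)) (.l1 .sk)) (.l1 .sk)) (.nx 588 104033 (.nx
  584 13005 (.lg 0 false 2 101 103 31 0 3472560) (.nr 587 65537 (.nr 585 32769 (.lg 0 true 1 97 101
  29 0 3472560) (.nx 586 20644 (.lg 0 false 1 73 79 29 0 33072) .out)) .out)) (.nr 589 513 (.lg 0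
  true 1 79 79 29 0 33072) .out)))) .out) .out)) (.na 605 106 (.nx 604 1664512 (.nr 603 1048577
  (.nr 593 105 .s1 (.nx 596 160 (.nx 595 159 (.nr 594 947 (.l1 (.ls 29 29 243)) (.l1 .sk)) (.l1
  .sk)) (.nx 600 104033 (.nx 598 13005 (.lg 0 false 2 97 97 29 0 267120) (.nr 599 65537 (.lg 0
  false 1 97 97 23 0 267120) .out)) (.nr 602 513 (.lg 0 true 2 73 73 29 0 267120) .out)))) .out)
  .out) (.nx 621 1664512 (.nr 620 1048577 (.nr 606 106 .s1 (.nx 608 159 (.nr 607 965 (.lg 0 false 1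
  0 16 13 0 3472560) (.l1 .sk)) (.nx 609 160 (.l1 .sk) (.nx 614 20644 (.lg 0 false 5 79 79 19 0
  12720) (.nr 619 32769 (.nr 616 513 (.lg 0 false 2 61 61 19 0 2544) (.nx 618 104033 (.lg 2 true 2
  61 61 19 20163 2544) .out)) .out))))) .out) .out))) (.na 638 112 (.na 623 111 (.lg 0 false 1 0 0
  16 0 24) (.nx 637 1664512 (.nr 636 1048577 (.nr 624 111 .s1 (.nx 631 20644 (.nx 626 159 (.nr 625
  1001 (.l1 (.ls 17 19 230)) (.l1 .sk)) (.nx 627 160 (.l1 .sk) (.lg 0 false 4 89 89 19 0 7632)))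
  (.nr 635 32769 (.nr 633 513 (.lg 0 true 2 67 67 17 0 7632) (.nx 634 104033 (.lg 2 true 1 71 71 17
  20163 3816) .out)) .out))) .out) .out)) (.na 650 115 (.nx 649 1664512 (.nr 648 1048577 (.nr 639
  112 .s1 (.nx 646 104033 (.nx 641 159 (.nr 640 1027 (.l1 (.ls 31 29 228)) (.l1 .sk)) (.nx 642 160
  (.l1 .sk) (.nr 643 65537 (.lg 0 true 1 97 101 29 0 267120) (.nx 645 13005 (.lg 0 false 2 97 103
  31 0 3472560) .out)))) (.nr 647 513 (.lg 0 true 1 73 73 29 0 17808) .out))) .out) .out) (.nx 662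
  1664512 (.nr 661 1048577 (.nr 651 115 .s1 (.nx 658 104033 (.nx 653 159 (.nr 652 1045 (.l1 (.ls 19
  19 222)) (.l1 .sk)) (.nx 654 160 (.l1 .sk) (.nr 655 65537 (.lg 0 false 1 101 101 17 0 267120)
  (.nx 657 13005 (.lg 0 false 2 101 101 19 0 267120) .out)))) (.nr 660 513 (.lg 0 true 2 73 73 19 0
  12720) .out))) .out) .out))))) (.na 739 131 (.na 703 126 (.na 675 123 (.na 664 120 (.lg 0 false 1
  0 0 16 0 24) (.nx 674 1664512 (.nr 673 1048577 (.nr 665 120 .s1 (.nx 671 104033 (.nx 667 159 (.nr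
  666 1099 (.l1 (.ls 31 31 213)) (.l1 .sk)) (.nx 668 160 (.l1 .sk) (.nr 669 65537 (.lg 0 true 1 97
  101 31 0 267120) (.nx 670 13005 (.lg 0 false 1 97 97 31 0 38160) .out)))) (.nr 672 513 (.lg 0
  true 1 73 73 31 0 38160) .out))) .out) .out)) (.na 689 125 (.nx 688 1664512 (.nr 687 1048577 (.nr
  676 123 .s1 (.nx 683 20644 (.nx 678 159 (.nr 677 1117 (.l1 (.ls 19 19 208)) (.l1 .sk)) (.nx 679
  160 (.l1 .sk) (.lg 0 false 4 89 89 19 0 267120))) (.nr 686 32769 (.nr 684 513 (.lg 0 false 1 73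
  73 17 0 3816) (.nx 685 104033 (.lg 2 true 1 71 71 17 20163 3816) .out)) .out))) .out) .out) (.nx
  702 1664512 (.nr 701 1048577 (.nr 690 125 .s1 (.nx 693 160 (.nx 692 159 (.nr 691 1126 (.l1 (.ls
  19 19 205)) (.l1 .sk)) (.l1 .sk)) (.nx 697 20644 (.lg 0 false 4 83 83 19 0 12720) (.nr 700 32769
  (.nr 698 513 (.lg 0 false 1 73 73 16 0 267120) (.nx 699 104033 (.lg 2 true 1 67 67 16 20163 6360)
  .out)) .out)))) .out) .out))) (.na 717 129 (.na 704 128 (.lg 0 false 1 0 0 16 0 24) (.nx 716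
  1664512 (.nr 715 1048577 (.nr 705 128 .s1 (.nx 712 104033 (.nx 707 159 (.nr 706 1152 (.l1 (.ls 23
  23 200)) (.l1 .sk)) (.nx 708 160 (.l1 .sk) (.nx 710 13005 (.lg 0 false 2 89 89 23 0 38160) (.nr
  711 65537 (.lg 0 false 1 89 89 19 0 38160) .out)))) (.nr 714 1025 (.lg 0 true 2 71 71 23 0 2544)
  .out))) .out) .out)) (.na 728 130 (.nx 727 832257 (.nr 726 1048577 (.nr 718 129 .s1 (.nx 719 257
  (.l1 (.ls 73 29 515)) (.nr 725 741457 (.nx 721 13005 (.lg 0 false 2 83 83 19 0 7632) (.nr 724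
  16385 (.nr 722 1025 (.lg 0 false 1 73 73 17 0 3816) (.nx 723 104033 (.lg 2 true 1 67 67 17 16081
  3816) .out)) .out)) .out))) .out) .out) (.nx 738 832257 (.nr 737 1048577 (.nr 729 130 .s1 (.nx
  733 13005 (.nx 730 257 (.l1 (.ls 79 37 511)) (.nr 732 741457 (.lg 0 false 2 89 89 31 0 165360)
  .out)) (.nr 736 16385 (.nr 734 1025 (.lg 0 true 1 73 73 29 0 165360) (.nx 735 104033 (.lg 2 true
  1 71 71 29 16081 165360) .out)) .out))) .out) .out)))) (.na 761 139 (.na 741 137 (.na 740 135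
  (.lg 0 false 1 0 0 16 0 24) (.lg 0 false 1 0 0 16 0 24)) (.na 751 138 (.nx 750 832257 (.nr 749
  1048577 (.nr 742 137 .s1 (.nx 745 13005 (.nx 743 257 (.l1 (.ls 97 19 485)) (.nr 744 741457 (.lg 0
  true 1 89 89 16 0 267120) .out)) (.nr 748 16385 (.nr 746 1025 (.lg 0 false 1 67 67 16 0 1272)
  (.nx 747 104033 (.lg 2 true 1 59 59 16 16081 1272) .out)) .out))) .out) .out) (.nx 760 832257
  (.nr 759 1048577 (.nr 752 138 .s1 (.nx 753 257 (.l1 (.ls 73 41 481)) (.nr 758 741457 (.nx 754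
  13005 (.lg 0 true 1 89 89 19 0 7632) (.nr 757 16385 (.nr 755 1025 (.lg 0 false 1 73 73 19 0
  38160) (.nx 756 104033 (.lg 2 true 1 67 67 19 16081 38160) .out)) .out)) .out))) .out) .out)))
  (.na 772 142 (.na 762 140 (.lg 0 false 1 0 0 16 0 24) (.nx 771 832257 (.nr 770 1048577 (.nr 763
  140 .s1 (.nx 766 13005 (.nx 764 257 (.l1 (.ls 83 37 474)) (.nr 765 741457 (.lg 0 false 1 97 97 31
  0 89040) .out)) (.nr 769 16385 (.nx 767 104033 (.lg 0 true 1 83 89 31 0 267120) (.nr 768 1025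
  (.lg 0 true 1 79 79 31 0 89040) .out)) .out))) .out) .out)) (.na 783 144 (.nx 782 832257 (.nr 781
  1048577 (.nr 773 142 .s1 (.nx 774 257 (.l1 (.ls 67 29 468)) (.nr 780 741457 (.nx 776 13005 (.lg 0
  false 2 79 79 23 0 2544) (.nr 779 16385 (.nr 777 1025 (.lg 0 false 1 71 71 19 0 2544) (.nx 778
  104033 (.lg 2 true 1 59 59 19 16081 2544) .out)) .out)) .out))) .out) .out) (.na 784 147 (.lg 0
  false 1 0 0 16 0 24) (.nx 793 832257 (.nr 792 1048577 (.nr 785 147 .s1 (.nx 788 13005 (.nx 786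
  257 (.l1 (.ls 71 29 452)) (.nr 787 741457 (.lg 0 true 1 83 83 19 0 26712) .out)) (.nr 791 16385
  (.nr 789 1025 (.lg 0 false 1 71 71 19 0 267120) (.nx 790 104033 (.lg 2 false 1 61 61 19 16081
  26712) .out)) .out))) .out) .out)))))))) (.na 1035 199 (.na 917 172 (.na 849 161 (.na 817 156
  (.na 806 150 (.na 805 149 (.nx 804 832257 (.nr 803 1048577 (.nr 795 148 .s1 (.nx 796 257 (.l1
  (.ls 79 29 449)) (.nr 802 741457 (.nx 798 13005 (.lg 0 false 2 89 89 23 0 2544) (.nr 801 16385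
  (.nr 799 1025 (.lg 0 true 1 71 71 23 0 2544) (.nx 800 104033 (.lg 2 false 1 71 71 23 16081 2544)
  .out)) .out)) .out))) .out) .out) (.lg 0 false 1 0 0 16 0 24)) (.na 816 151 (.nx 815 832257 (.nr
  814 1048577 (.nr 807 150 .s1 (.nx 808 257 (.l1 (.ls 71 37 443)) (.nr 813 741457 (.nx 809 13005
  (.lg 0 true 1 89 89 29 0 267120) (.nr 812 16385 (.nr 810 1025 (.lg 0 false 1 71 71 29 0 267120)
  (.nx 811 104033 (.lg 2 false 1 61 61 29 16081 267120) .out)) .out)) .out))) .out) .out) (.lg 0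
  false 1 0 0 16 0 24))) (.na 829 159 (.na 828 157 (.nx 827 832257 (.nr 826 1048577 (.nr 818 156
  .s1 (.nx 822 13005 (.nx 819 257 (.l1 (.ls 79 37 426)) (.nr 821 741457 (.lg 0 false 2 89 89 37 0
  496080) .out)) (.nr 825 16385 (.nr 823 1025 (.lg 0 true 1 71 71 31 0 99216) (.nx 824 104033 (.lg
  2 false 1 67 67 31 16081 99216) .out)) .out))) .out) .out) (.lg 0 false 1 0 0 16 0 24)) (.na 839
  160 (.nx 838 832257 (.nr 837 1048577 (.nr 830 159 .s1 (.nx 831 257 (.l1 (.ls 61 23 418)) (.nr 836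
  741457 (.nr 833 16385 (.lg 0 false 2 73 73 17 0 7632) (.nx 835 13005 (.lg 0 true 2 73 73 17 0
  38160) .out)) .out))) .out) .out) (.nx 848 832257 (.nr 847 1048577 (.nr 840 160 .s1 (.nx 841 257
  (.l1 (.ls 79 31 415)) (.nr 846 741457 (.nx 842 13005 (.lg 0 false 1 89 89 29 0 12720) (.nr 845
  16385 (.nx 843 104033 (.lg 0 true 1 79 83 29 0 12720) (.nr 844 1025 (.lg 0 true 1 73 73 29 0
  12720) .out)) .out)) .out))) .out) .out)))) (.na 880 166 (.na 860 163 (.na 859 162 (.nx 858
  832257 (.nr 857 1048577 (.nr 850 161 .s1 (.nx 853 13005 (.nx 851 257 (.l1 (.ls 79 19 413)) (.nr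
  852 741457 (.lg 0 false 1 89 89 17 0 8904) .out)) (.nr 856 16385 (.nr 854 1025 (.lg 0 true 1 71
  71 17 0 8904) (.nx 855 104033 (.lg 2 true 1 67 67 17 16081 8904) .out)) .out))) .out) .out) (.lg
  0 false 1 0 0 16 0 24)) (.na 870 164 (.nx 869 832257 (.nr 868 1048577 (.nr 861 163 .s1 (.nx 862
  257 (.l1 (.ls 67 19 408)) (.nr 867 741457 (.nx 863 13005 (.lg 0 true 1 79 79 16 0 1272) (.nr 866
  16385 (.nr 864 1025 (.lg 0 false 1 61 61 16 0 1272) (.nx 865 104033 (.lg 2 true 1 59 59 16 16081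
  38160) .out)) .out)) .out))) .out) .out) (.nx 879 832257 (.nr 878 1048577 (.nr 871 164 .s1 (.nx
  872 257 (.l1 (.ls 79 29 405)) (.nr 877 741457 (.nx 873 13005 (.lg 0 false 1 89 89 23 0 2544) (.nr
  876 16385 (.nr 874 1025 (.lg 0 true 1 71 71 23 0 2544) (.nx 875 104033 (.lg 2 false 1 67 67 23
  16081 2544) .out)) .out)) .out))) .out) .out))) (.na 899 168 (.na 889 167 (.nx 888 832257 (.nr
  887 1048577 (.nr 881 166 .s1 (.nx 884 13005 (.nx 882 257 (.l1 (.ls 67 29 400)) (.nr 883 741457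
  (.lg 0 true 1 83 83 19 0 2544) .out)) (.nr 886 16385 (.lg 0 true 2 73 73 23 0 2544) .out))) .out)
  .out) (.nx 898 832257 (.nr 897 1048577 (.nr 890 167 .s1 (.nx 891 257 (.l1 (.ls 89 19 398)) (.nr
  896 741457 (.nx 892 13005 (.lg 0 true 1 79 79 16 0 1272) (.nr 895 16385 (.nr 893 1025 (.lg 0
  false 1 67 67 16 0 1272) (.nx 894 104033 (.lg 2 false 1 59 59 16 16081 1272) .out)) .out))
  .out))) .out) .out)) (.na 909 169 (.nx 908 832257 (.nr 907 1048577 (.nr 900 168 .s1 (.nx 905
  104033 (.nx 901 257 (.l1 (.ls 83 37 396)) (.nr 904 741457 (.nx 902 13005 (.lg 0 false 1 97 97 37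
  0 267120) (.nr 903 16385 (.lg 0 true 1 83 83 37 0 267120) .out)) .out)) (.nr 906 1025 (.lg 0 true
  1 73 73 37 0 53424) .out))) .out) .out) (.nx 916 832257 (.nr 915 1048577 (.nr 910 169 .s1 (.nx
  913 13005 (.nx 911 257 (.l1 (.ls 89 23 393)) (.nr 912 741457 (.lg 0 true 1 83 83 17 0 16536)
  .out)) (.nr 914 16385 (.lg 0 false 1 83 83 17 0 16536) .out))) .out) .out))))) (.na 976 185 (.na
  954 180 (.na 936 175 (.na 927 173 (.nx 926 832257 (.nr 925 1048577 (.nr 918 172 .s1 (.nx 921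
  13005 (.nx 919 257 (.l1 (.ls 79 29 387)) (.nr 920 741457 (.lg 0 false 1 89 89 23 0 2544) .out))
  (.nr 924 16385 (.nr 922 1025 (.lg 0 true 1 71 71 23 0 2544) (.nx 923 104033 (.lg 2 true 1 67 67
  23 16081 2544) .out)) .out))) .out) .out) (.nx 935 832257 (.nr 934 1048577 (.nr 928 173 .s1 (.nx
  929 257 (.l1 (.ls 89 19 384)) (.nr 933 741457 (.nr 931 16385 (.lg 0 true 2 73 73 17 0 2544) (.nx
  932 13005 (.lg 0 true 1 79 79 16 0 1272) .out)) .out))) .out) .out)) (.na 946 179 (.nx 945 832257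
  (.nr 944 1048577 (.nr 937 175 .s1 (.nx 940 13005 (.nx 938 257 (.l1 (.ls 73 29 380)) (.nr 939
  741457 (.lg 0 false 1 83 83 19 0 44520) .out)) (.nr 943 16385 (.nr 941 1025 (.lg 0 true 1 67 67
  19 0 44520) (.nx 942 104033 (.lg 2 true 1 61 61 19 16081 44520) .out)) .out))) .out) .out) (.nx
  953 832257 (.nr 952 1048577 (.nr 947 179 .s1 (.nx 948 257 (.l1 (.ls 89 19 371)) (.nr 951 741457
  (.nr 949 16385 (.lg 0 false 1 89 89 16 0 267120) (.nx 950 13005 (.lg 0 true 1 79 79 16 0 1272)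
  .out)) .out))) .out) .out))) (.na 956 182 (.na 955 181 (.lg 0 false 1 0 0 16 0 24) (.lg 0 false 1
  0 0 16 0 24)) (.na 966 184 (.nx 965 832257 (.nr 964 1048577 (.nr 957 182 .s1 (.nx 958 257 (.l1
  (.ls 79 37 365)) (.nr 963 741457 (.nx 959 13005 (.lg 0 true 1 97 97 31 0 3472560) (.nr 962 16385
  (.nr 960 1025 (.lg 0 true 1 71 71 31 0 231504) (.nx 961 104033 (.lg 2 true 1 67 67 31 16081
  231504) .out)) .out)) .out))) .out) .out) (.nx 975 832257 (.nr 974 1048577 (.nr 967 184 .s1 (.nx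
  972 104033 (.nx 968 257 (.l1 (.ls 83 31 361)) (.nr 971 741457 (.nx 969 13005 (.lg 0 false 1 97 97
  31 0 2544) (.nr 970 16385 (.lg 0 true 1 79 83 31 0 2544) .out)) .out)) (.nr 973 1025 (.lg 0 true
  1 73 73 31 0 2544) .out))) .out) .out)))) (.na 1005 193 (.na 987 191 (.na 986 189 (.nx 985 832257
  (.nr 984 1048577 (.nr 977 185 .s1 (.nx 978 257 (.l1 (.ls 79 23 360)) (.nr 983 741457 (.nx 979
  13005 (.lg 0 false 1 83 83 19 0 6360) (.nr 982 16385 (.nr 980 1025 (.lg 0 true 1 67 67 19 0 6360)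
  (.nx 981 104033 (.lg 2 true 1 67 67 19 16081 6360) .out)) .out)) .out))) .out) .out) (.lg 0 false
  1 0 0 16 0 24)) (.na 995 192 (.nx 994 832257 (.nr 993 1048577 (.nr 988 191 .s1 (.nx 989 257 (.l1
  (.ls 83 19 348)) (.nr 992 741457 (.nr 990 16385 (.lg 0 false 1 79 79 16 0 1272) (.nx 991 13005
  (.lg 0 true 1 79 79 16 0 1272) .out)) .out))) .out) .out) (.nx 1004 832257 (.nr 1003 1048577 (.nr
  996 192 .s1 (.nx 999 13005 (.nx 997 257 (.l1 (.ls 73 31 347)) (.nr 998 741457 (.lg 0 false 1 83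
  83 29 0 7632) .out)) (.nr 1002 16385 (.nr 1000 1025 (.lg 0 true 1 67 67 29 0 7632) (.nx 1001
  104033 (.lg 2 true 1 67 67 29 16081 267120) .out)) .out))) .out) .out))) (.na 1014 195 (.na 1006
  194 (.lg 0 false 1 0 0 16 0 24) (.nx 1013 832257 (.nr 1012 1048577 (.nr 1007 194 .s1 (.nx 1008
  257 (.l1 (.ls 67 29 343)) (.nr 1011 741457 (.nr 1009 16385 (.lg 0 false 1 79 79 19 0 2544) (.nx
  1010 13005 (.lg 0 true 1 79 79 19 0 2544) .out)) .out))) .out) .out)) (.na 1024 196 (.nx 1023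
  832257 (.nr 1022 1048577 (.nr 1015 195 .s1 (.nx 1016 257 (.l1 (.ls 79 31 341)) (.nr 1021 741457
  (.nx 1017 13005 (.lg 0 false 1 83 83 29 0 248040) (.nr 1020 16385 (.nr 1018 1025 (.lg 0 true 1 71
  71 29 0 248040) (.nx 1019 104033 (.lg 2 false 1 67 67 29 16081 248040) .out)) .out)) .out)))
  .out) .out) (.na 1034 197 (.nx 1033 832257 (.nr 1032 1048577 (.nr 1025 196 .s1 (.nx 1026 257 (.l1
  (.ls 73 31 339)) (.nr 1031 741457 (.nx 1027 13005 (.lg 0 false 1 83 83 29 0 17808) (.nr 1030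
  16385 (.nr 1028 1025 (.lg 0 true 1 67 67 29 0 17808) (.nx 1029 104033 (.lg 2 false 1 61 61 29
  16081 17808) .out)) .out)) .out))) .out) .out) (.lg 0 false 1 0 0 16 0 24))))))) (.na 1154 227
  (.na 1100 212 (.na 1071 207 (.na 1053 202 (.na 1043 200 (.nx 1042 832257 (.nr 1041 1048577 (.nr
  1036 199 .s1 (.nx 1037 257 (.l1 (.ls 83 19 334)) (.nr 1040 741457 (.nr 1038 16385 (.lg 0 false 1
  79 79 16 0 1272) (.nx 1039 13005 (.lg 0 true 1 83 83 16 0 267120) .out)) .out))) .out) .out) (.nx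
  1052 832257 (.nr 1051 1048577 (.nr 1044 200 .s1 (.nx 1049 104033 (.nx 1045 257 (.l1 (.ls 79 31
  333)) (.nr 1048 741457 (.nx 1046 13005 (.lg 0 false 1 97 97 31 0 267120) (.nr 1047 16385 (.lg 0
  true 1 79 83 31 0 267120) .out)) .out)) (.nr 1050 1025 (.lg 0 true 1 71 73 31 0 12720) .out)))
  .out) .out)) (.na 1061 205 (.nx 1060 832257 (.nr 1059 1048577 (.nr 1054 202 .s1 (.nx 1055 257
  (.l1 (.ls 79 29 329)) (.nr 1058 741457 (.nr 1056 16385 (.lg 0 false 1 79 79 23 0 2544) (.nx 1057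
  13005 (.lg 0 true 1 79 79 23 0 2544) .out)) .out))) .out) .out) (.nx 1070 832257 (.nr 1069
  1048577 (.nr 1062 205 .s1 (.nx 1065 13005 (.nx 1063 257 (.l1 (.ls 73 23 325)) (.nr 1064 741457
  (.lg 0 false 1 83 83 19 0 6360) .out)) (.nr 1068 16385 (.nr 1066 1025 (.lg 0 true 1 67 67 19 0
  6360) (.nx 1067 104033 (.lg 2 false 1 61 61 19 16081 6360) .out)) .out))) .out) .out))) (.na 1082
  210 (.na 1072 208 (.lg 0 false 1 0 0 16 0 24) (.nx 1081 832257 (.nr 1080 1048577 (.nr 1073 208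
  .s1 (.nx 1074 257 (.l1 (.ls 79 31 320)) (.nr 1079 741457 (.nx 1077 104033 (.nx 1075 13005 (.lg 0
  false 1 89 89 31 0 33072) (.nr 1076 16385 (.lg 0 true 1 79 83 31 0 496080) .out)) (.nr 1078 1025
  (.lg 0 true 1 71 71 31 0 33072) .out)) .out))) .out) .out)) (.na 1092 211 (.nx 1091 832257 (.nr
  1090 1048577 (.nr 1083 210 .s1 (.nx 1084 257 (.l1 (.ls 73 41 317)) (.nr 1089 741457 (.nx 1085
  13005 (.lg 0 true 1 89 89 37 0 267120) (.nr 1088 16385 (.nr 1086 1025 (.lg 0 true 1 67 67 37 0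
  267120) (.nx 1087 104033 (.lg 2 true 1 67 67 37 16081 267120) .out)) .out)) .out))) .out) .out)
  (.nx 1099 832257 (.nr 1098 1048577 (.nr 1093 211 .s1 (.nx 1094 257 (.l1 (.ls 83 19 316)) (.nr
  1097 741457 (.nx 1095 13005 (.lg 0 true 1 73 73 16 0 1272) (.nr 1096 16385 (.lg 0 false 1 79 79
  16 0 1272) .out)) .out))) .out) .out)))) (.na 1127 222 (.na 1116 215 (.na 1108 213 (.nx 1107
  832257 (.nr 1106 1048577 (.nr 1101 212 .s1 (.nx 1102 257 (.l1 (.ls 83 29 314)) (.nr 1105 741457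
  (.nr 1103 16385 (.lg 0 false 1 79 79 23 0 2544) (.nx 1104 13005 (.lg 0 true 1 79 79 23 0 2544)
  .out)) .out))) .out) .out) (.nx 1115 832257 (.nr 1114 1048577 (.nr 1109 213 .s1 (.nx 1110 257
  (.l1 (.ls 67 23 313)) (.nr 1113 741457 (.nr 1111 16385 (.lg 0 false 1 89 89 19 0 3816) (.nx 1112
  13005 (.lg 0 true 1 83 83 19 0 3816) .out)) .out))) .out) .out)) (.na 1126 216 (.nx 1125 832257
  (.nr 1124 1048577 (.nr 1117 215 .s1 (.nx 1118 257 (.l1 (.ls 73 23 310)) (.nr 1123 741457 (.nx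
  1119 13005 (.lg 0 false 1 83 83 19 0 6360) (.nr 1122 16385 (.nr 1120 1025 (.lg 0 true 1 67 67 19
  0 6360) (.nx 1121 104033 (.lg 2 true 1 61 61 19 16081 6360) .out)) .out)) .out))) .out) .out)
  (.lg 0 false 1 0 0 16 0 24))) (.na 1143 224 (.na 1135 223 (.nx 1134 832257 (.nr 1133 1048577 (.nr
  1128 222 .s1 (.nx 1129 257 (.l1 (.ls 71 31 300)) (.nr 1132 741457 (.nr 1130 16385 (.lg 0 false 1
  83 83 29 0 7632) (.nx 1131 13005 (.lg 0 true 1 83 83 29 0 38160) .out)) .out))) .out) .out) (.nx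
  1142 832257 (.nr 1141 1048577 (.nr 1136 223 .s1 (.nx 1137 257 (.l1 (.ls 89 19 299)) (.nr 1140
  741457 (.nr 1138 16385 (.lg 0 false 1 79 79 16 0 1272) (.nx 1139 13005 (.lg 0 true 1 79 79 16 0
  1272) .out)) .out))) .out) .out)) (.na 1153 225 (.nx 1152 832257 (.nr 1151 1048577 (.nr 1144 224
  .s1 (.nx 1147 13005 (.nx 1145 257 (.l1 (.ls 79 31 297)) (.nr 1146 741457 (.lg 0 false 1 89 89 31
  0 17808) .out)) (.nr 1150 16385 (.nx 1148 104033 (.lg 0 true 1 73 79 31 0 17808) (.nr 1149 1025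
  (.lg 0 true 1 71 71 31 0 17808) .out)) .out))) .out) .out) (.lg 0 false 1 0 0 16 0 24))))) (.na
  1208 243 (.na 1181 234 (.na 1163 230 (.na 1155 229 (.lg 0 false 1 0 0 16 0 24) (.nx 1162 832257
  (.nr 1161 1048577 (.nr 1156 229 .s1 (.nx 1159 13005 (.nx 1157 257 (.l1 (.ls 83 19 291)) (.nr 1158
  741457 (.lg 0 true 1 73 73 17 0 1272) .out)) (.nr 1160 16385 (.lg 0 false 1 79 79 17 0 1272)
  .out))) .out) .out)) (.na 1173 233 (.nx 1172 832257 (.nr 1171 1048577 (.nr 1164 230 .s1 (.nx 1165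
  257 (.l1 (.ls 73 37 290)) (.nr 1170 741457 (.nx 1166 13005 (.lg 0 false 1 83 83 31 0 12720) (.nr
  1169 16385 (.nr 1167 1025 (.lg 0 true 1 67 67 31 0 12720) (.nx 1168 104033 (.lg 2 true 1 61 61 31
  16081 12720) .out)) .out)) .out))) .out) .out) (.nx 1180 832257 (.nr 1179 1048577 (.nr 1174 233
  .s1 (.nx 1175 257 (.l1 (.ls 79 19 286)) (.nr 1178 741457 (.nr 1176 16385 (.lg 0 false 1 73 73 17
  0 1272) (.nx 1177 13005 (.lg 0 true 1 73 73 17 0 1272) .out)) .out))) .out) .out))) (.na 1190 240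
  (.na 1182 239 (.lg 0 false 1 0 0 16 0 24) (.nx 1189 832257 (.nr 1188 1048577 (.nr 1183 239 .s1
  (.nx 1186 13005 (.nx 1184 257 (.l1 (.ls 83 19 279)) (.nr 1185 741457 (.lg 0 true 1 73 73 17 0
  1272) .out)) (.nr 1187 16385 (.lg 0 false 1 79 79 17 0 1272) .out))) .out) .out)) (.na 1200 241
  (.nx 1199 832257 (.nr 1198 1048577 (.nr 1191 240 .s1 (.nx 1194 13005 (.nx 1192 257 (.l1 (.ls 79
  37 278)) (.nr 1193 741457 (.lg 0 false 1 83 89 37 0 38160) .out)) (.nr 1197 16385 (.nx 1195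
  104033 (.lg 0 true 1 73 79 37 0 38160) (.nr 1196 1025 (.lg 0 true 1 71 71 37 0 38160) .out))
  .out))) .out) .out) (.nx 1207 832257 (.nr 1206 1048577 (.nr 1201 241 .s1 (.nx 1202 257 (.l1 (.ls
  79 19 277)) (.nr 1205 741457 (.nr 1203 16385 (.lg 0 false 1 73 73 17 0 1272) (.nx 1204 13005 (.lg
  0 true 1 73 73 17 0 1272) .out)) .out))) .out) .out)))) (.na 1235 250 (.na 1219 246 (.na 1209 245
  (.lg 0 false 1 0 0 16 0 24) (.nx 1218 832257 (.nr 1217 1048577 (.nr 1210 245 .s1 (.nx 1213 13005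
  (.nx 1211 257 (.l1 (.ls 73 23 272)) (.nr 1212 741457 (.lg 0 false 1 79 79 23 0 44520) .out)) (.nr
  1216 16385 (.nr 1214 1025 (.lg 0 true 1 61 61 23 0 44520) (.nx 1215 104033 (.lg 2 true 1 61 61 23
  16081 44520) .out)) .out))) .out) .out)) (.na 1227 249 (.nx 1226 832257 (.nr 1225 1048577 (.nr
  1220 246 .s1 (.nx 1221 257 (.l1 (.ls 71 31 271)) (.nr 1224 741457 (.nr 1222 16385 (.lg 0 false 1
  83 83 29 0 7632) (.nx 1223 13005 (.lg 0 true 1 83 83 29 0 267120) .out)) .out))) .out) .out) (.nx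
  1234 832257 (.nr 1233 1048577 (.nr 1228 249 .s1 (.nx 1229 257 (.l1 (.ls 79 23 268)) (.nr 1232
  741457 (.nr 1230 16385 (.lg 0 false 1 83 83 19 0 3816) (.nx 1231 13005 (.lg 0 true 1 83 83 19 0
  3816) .out)) .out))) .out) .out))) (.na 1251 252 (.na 1243 251 (.nx 1242 832257 (.nr 1241 1048577
  (.nr 1236 250 .s1 (.nx 1239 13005 (.nx 1237 257 (.l1 (.ls 67 31 267)) (.nr 1238 741457 (.lg 0
  true 1 79 79 29 0 38160) .out)) (.nr 1240 16385 (.lg 0 false 1 79 79 29 0 38160) .out))) .out)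
  .out) (.nx 1250 832257 (.nr 1249 1048577 (.nr 1244 251 .s1 (.nx 1245 257 (.l1 (.ls 79 19 266))
  (.nr 1248 741457 (.nr 1246 16385 (.lg 0 false 1 73 73 17 0 1272) (.nx 1247 13005 (.lg 0 true 1 73
  73 17 0 1272) .out)) .out))) .out) .out)) (.na 1252 256 (.lg 0 false 1 0 0 16 0 24) (.na 1262 257
  (.nx 1261 832257 (.nr 1260 1482912 (.nr 1253 256 .s1 (.nx 1256 13005 (.nx 1254 205 (.l1 (.ls 97
  23 167)) (.nr 1255 1048577 (.lg 0 false 1 79 79 29 0 2544) .out)) (.nr 1259 32769 (.nr 1257 2049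
  (.lg 0 true 1 67 67 29 0 2544) (.nx 1258 104033 (.lg 2 true 1 67 67 29 32007 2544) .out)) .out)))
  .out) .out) (.nx 2078 832257 (.nr 2077 1482912 (.nr 1263 257 .s1 (.nx 1565 205 (.nx 1519 159 (.nr
  1518 4573 (.la (.ls 47 19 129)) (.l1 .sk)) (.nx 1520 160 (.l1 .sk) (.lx (.lp 97 19 129)))) (.nr
  2076 1048577 (.nr 1820 32769 (.la (.lg 0 true 1 83 83 23 0)) (.nx 2075 10323 (.la (.lg 0 false 1
  73 73 23 0)) .out)) .out))) .out) .out)))))))))

theorem c39 :
    OkQ ckI L9 207 8 18 0 34359738368 1 1099511627776 ∧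
    OkQ ckI L8 159 35 512 0 34359738368 1 1099511627776 := by
  refine ⟨?_, ?_⟩
  · refine fin 1656 452 T39_0 ?_
    refine jn 3 (by decide +kernel) ?_
    refine jn 4 (by decide +kernel) ?_
    refine jn 5 (by decide +kernel) ?_
    refine jn 6 (by decide +kernel) ?_
    refine jn 7 (by decide +kernel) ?_
    refine jn 8 (by decide +kernel) ?_
    refine jn 9 (by decide +kernel) ?_
    refine jn 10 (by decide +kernel) ?_
    refine jn 11 (by decide +kernel) ?_
    refine jn 12 (by decide +kernel) ?_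
    refine jn 13 (by decide +kernel) ?_
    refine jn 18 (by decide +kernel) ?_
    refine jn 23 (by decide +kernel) ?_
    refine jn 29 (by decide +kernel) ?_
    refine jn 31 (by decide +kernel) ?_
    refine jn 32 (by decide +kernel) ?_
    refine jn 33 (by decide +kernel) ?_
    refine jn 34 (by decide +kernel) ?_
    refine jn 35 (by decide +kernel) ?_
    refine jn 36 (by decide +kernel) ?_
    refine jn 37 (by decide +kernel) ?_
    refine jn 66 (by decide +kernel) ?_
    refine jn 70 (by decide +kernel) ?_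
    refine jn 71 (by decide +kernel) ?_
    refine jn 75 (by decide +kernel) ?_
    refine jn 77 (by decide +kernel) ?_
    refine jn 79 (by decide +kernel) ?_
    refine jn 81 (by decide +kernel) ?_
    refine jn 82 (by decide +kernel) ?_
    refine jn 85 (by decide +kernel) ?_
    refine jn 87 (by decide +kernel) ?_
    refine jn 91 (by decide +kernel) ?_
    refine jn 92 (by decide +kernel) ?_
    refine jn 95 (by decide +kernel) ?_
    refine jn 97 (by decide +kernel) ?_
    refine jn 100 (by decide +kernel) ?_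
    refine jn 102 (by decide +kernel) ?_
    refine jn 106 (by decide +kernel) ?_
    refine jn 107 (by decide +kernel) ?_
    refine jn 112 (by decide +kernel) ?_
    refine jn 117 (by decide +kernel) ?_
    refine jn 121 (by decide +kernel) ?_
    refine jn 130 (by decide +kernel) ?_
    refine jn 138 (by decide +kernel) ?_
    refine jn 139 (by decide +kernel) ?_
    refine jn 140 (by decide +kernel) ?_
    refine jn 141 (by decide +kernel) ?_
    refine jn 142 (by decide +kernel) ?_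
    refine jn 143 (by decide +kernel) ?_
    refine jn 144 (by decide +kernel) ?_
    refine jn 145 (by decide +kernel) ?_
    refine jn 146 (by decide +kernel) ?_
    refine jn 147 (by decide +kernel) ?_
    refine jn 148 (by decide +kernel) ?_
    refine jn 149 (by decide +kernel) ?_
    refine jn 158 (by decide +kernel) ?_
    refine jn 161 (by decide +kernel) ?_
    refine jn 163 (by decide +kernel) ?_
    refine jn 165 (by decide +kernel) ?_
    refine jn 167 (by decide +kernel) ?_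
    refine jn 169 (by decide +kernel) ?_
    refine jn 172 (by decide +kernel) ?_
    refine jn 177 (by decide +kernel) ?_
    refine jn 182 (by decide +kernel) ?_
    refine jn 205 (by decide +kernel) ?_
    refine jn 211 (by decide +kernel) ?_
    refine jn 220 (by decide +kernel) ?_
    refine jn 224 (by decide +kernel) ?_
    refine jn 232 (by decide +kernel) ?_
    refine jn 235 (by decide +kernel) ?_
    refine jn 241 (by decide +kernel) ?_
    refine jn 246 (by decide +kernel) ?_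
    refine jn 252 (by decide +kernel) ?_
    refine jn 260 (by decide +kernel) ?_
    refine jn 270 (by decide +kernel) ?_
    refine jn 273 (by decide +kernel) ?_
    refine jn 276 (by decide +kernel) ?_
    refine jn 278 (by decide +kernel) ?_
    refine jn 283 (by decide +kernel) ?_
    refine jn 293 (by decide +kernel) ?_
    refine jn 303 (by decide +kernel) ?_
    refine jn 317 (by decide +kernel) ?_
    refine jn 331 (by decide +kernel) ?_
    refine jn 335 (by decide +kernel) ?_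
    refine jn 337 (by decide +kernel) ?_
    refine jn 340 (by decide +kernel) ?_
    refine jn 342 (by decide +kernel) ?_
    refine jn 347 (by decide +kernel) ?_
    refine jn 352 (by decide +kernel) ?_
    refine jn 363 (by decide +kernel) ?_
    refine jn 377 (by decide +kernel) ?_
    refine jn 385 (by decide +kernel) ?_
    refine jn 386 (by decide +kernel) ?_
    refine jn 387 (by decide +kernel) ?_
    refine jn 388 (by decide +kernel) ?_
    refine jn 389 (by decide +kernel) ?_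
    refine jn 390 (by decide +kernel) ?_
    refine jn 391 (by decide +kernel) ?_
    refine jn 392 (by decide +kernel) ?_
    refine jn 395 (by decide +kernel) ?_
    refine jn 397 (by decide +kernel) ?_
    refine jn 398 (by decide +kernel) ?_
    refine jn 399 (by decide +kernel) ?_
    refine jn 400 (by decide +kernel) ?_
    refine jn 401 (by decide +kernel) ?_
    refine jn 402 (by decide +kernel) ?_
    refine jn 403 (by decide +kernel) ?_
    refine jn 404 (by decide +kernel) ?_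
    refine jn 405 (by decide +kernel) ?_
    refine jn 406 (by decide +kernel) ?_
    refine jn 407 (by decide +kernel) ?_
    refine jn 408 (by decide +kernel) ?_
    refine jn 409 (by decide +kernel) ?_
    refine jn 410 (by decide +kernel) ?_
    refine jn 411 (by decide +kernel) ?_
    refine jn 414 (by decide +kernel) ?_
    refine jn 416 (by decide +kernel) ?_
    refine jn 418 (by decide +kernel) ?_
    refine jn 425 (by decide +kernel) ?_
    refine jn 430 (by decide +kernel) ?_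
    refine jn 436 (by decide +kernel) ?_
    refine jn 441 (by decide +kernel) ?_
    refine jn 444 (by decide +kernel) ?_
    exact je (by decide +kernel)
  · refine fin 1272 2079 T39_1 ?_
    refine jn 5 (by decide +kernel) ?_
    refine jn 7 (by decide +kernel) ?_
    refine jn 9 (by decide +kernel) ?_
    refine jn 11 (by decide +kernel) ?_
    refine jn 12 (by decide +kernel) ?_
    refine jn 17 (by decide +kernel) ?_
    refine jn 20 (by decide +kernel) ?_
    refine jn 33 (by decide +kernel) ?_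
    refine jn 39 (by decide +kernel) ?_
    refine jn 53 (by decide +kernel) ?_
    refine jn 59 (by decide +kernel) ?_
    refine jn 68 (by decide +kernel) ?_
    refine jn 69 (by decide +kernel) ?_
    refine jn 70 (by decide +kernel) ?_
    refine jn 71 (by decide +kernel) ?_
    refine jn 73 (by decide +kernel) ?_
    refine jn 75 (by decide +kernel) ?_
    refine jn 76 (by decide +kernel) ?_
    refine jn 77 (by decide +kernel) ?_
    refine jn 78 (by decide +kernel) ?_
    refine jn 79 (by decide +kernel) ?_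
    refine jn 80 (by decide +kernel) ?_
    refine jn 92 (by decide +kernel) ?_
    refine jn 98 (by decide +kernel) ?_
    refine jn 110 (by decide +kernel) ?_
    refine jn 117 (by decide +kernel) ?_
    refine jn 127 (by decide +kernel) ?_
    refine jn 134 (by decide +kernel) ?_
    refine jn 146 (by decide +kernel) ?_
    refine jn 152 (by decide +kernel) ?_
    refine jn 161 (by decide +kernel) ?_
    refine jn 163 (by decide +kernel) ?_
    refine jn 164 (by decide +kernel) ?_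
    refine jn 166 (by decide +kernel) ?_
    refine jn 167 (by decide +kernel) ?_
    refine jn 180 (by decide +kernel) ?_
    refine jn 186 (by decide +kernel) ?_
    refine jn 200 (by decide +kernel) ?_
    refine jn 205 (by decide +kernel) ?_
    refine jn 215 (by decide +kernel) ?_
    refine jn 218 (by decide +kernel) ?_
    refine jn 221 (by decide +kernel) ?_
    refine jn 223 (by decide +kernel) ?_
    refine jn 239 (by decide +kernel) ?_
    refine jn 248 (by decide +kernel) ?_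
    refine jn 249 (by decide +kernel) ?_
    refine jn 250 (by decide +kernel) ?_
    refine jn 252 (by decide +kernel) ?_
    refine jn 253 (by decide +kernel) ?_
    refine jn 254 (by decide +kernel) ?_
    refine jn 255 (by decide +kernel) ?_
    refine jn 256 (by decide +kernel) ?_
    refine jn 257 (by decide +kernel) ?_
    refine jn 258 (by decide +kernel) ?_
    refine jn 269 (by decide +kernel) ?_
    refine jn 271 (by decide +kernel) ?_
    refine jn 273 (by decide +kernel) ?_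
    refine jn 285 (by decide +kernel) ?_
    refine jn 286 (by decide +kernel) ?_
    refine jn 290 (by decide +kernel) ?_
    refine jn 292 (by decide +kernel) ?_
    refine jn 301 (by decide +kernel) ?_
    refine jn 304 (by decide +kernel) ?_
    refine jn 305 (by decide +kernel) ?_
    refine jn 307 (by decide +kernel) ?_
    refine jn 320 (by decide +kernel) ?_
    refine jn 329 (by decide +kernel) ?_
    refine jn 334 (by decide +kernel) ?_
    refine jn 337 (by decide +kernel) ?_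
    refine jn 351 (by decide +kernel) ?_
    refine jn 367 (by decide +kernel) ?_
    refine jn 378 (by decide +kernel) ?_
    refine jn 386 (by decide +kernel) ?_
    refine jn 401 (by decide +kernel) ?_
    refine jn 410 (by decide +kernel) ?_
    refine jn 411 (by decide +kernel) ?_
    refine jn 412 (by decide +kernel) ?_
    refine jn 415 (by decide +kernel) ?_
    refine jn 430 (by decide +kernel) ?_
    refine jn 446 (by decide +kernel) ?_
    refine jn 457 (by decide +kernel) ?_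
    refine jn 460 (by decide +kernel) ?_
    refine jn 474 (by decide +kernel) ?_
    refine jn 487 (by decide +kernel) ?_
    refine jn 490 (by decide +kernel) ?_
    refine jn 500 (by decide +kernel) ?_
    refine jn 504 (by decide +kernel) ?_
    refine jn 513 (by decide +kernel) ?_
    refine jn 516 (by decide +kernel) ?_
    refine jn 531 (by decide +kernel) ?_
    refine jn 547 (by decide +kernel) ?_
    refine jn 556 (by decide +kernel) ?_
    refine jn 560 (by decide +kernel) ?_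
    refine jn 574 (by decide +kernel) ?_
    refine jn 582 (by decide +kernel) ?_
    refine jn 583 (by decide +kernel) ?_
    refine jn 584 (by decide +kernel) ?_
    refine jn 585 (by decide +kernel) ?_
    refine jn 589 (by decide +kernel) ?_
    refine jn 599 (by decide +kernel) ?_
    refine jn 616 (by decide +kernel) ?_
    refine jn 633 (by decide +kernel) ?_
    refine jn 642 (by decide +kernel) ?_
    refine jn 643 (by decide +kernel) ?_
    refine jn 645 (by decide +kernel) ?_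
    refine jn 647 (by decide +kernel) ?_
    refine jn 657 (by decide +kernel) ?_
    refine jn 666 (by decide +kernel) ?_
    refine jn 668 (by decide +kernel) ?_
    refine jn 669 (by decide +kernel) ?_
    refine jn 672 (by decide +kernel) ?_
    refine jn 685 (by decide +kernel) ?_
    refine jn 699 (by decide +kernel) ?_
    refine jn 711 (by decide +kernel) ?_
    refine jn 722 (by decide +kernel) ?_
    refine jn 732 (by decide +kernel) ?_
    refine jn 744 (by decide +kernel) ?_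
    refine jn 755 (by decide +kernel) ?_
    refine jn 765 (by decide +kernel) ?_
    refine jn 768 (by decide +kernel) ?_
    refine jn 784 (by decide +kernel) ?_
    refine jn 795 (by decide +kernel) ?_
    refine jn 799 (by decide +kernel) ?_
    refine jn 810 (by decide +kernel) ?_
    refine jn 821 (by decide +kernel) ?_
    refine jn 835 (by decide +kernel) ?_
    refine jn 842 (by decide +kernel) ?_
    refine jn 844 (by decide +kernel) ?_
    refine jn 854 (by decide +kernel) ?_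
    refine jn 865 (by decide +kernel) ?_
    refine jn 874 (by decide +kernel) ?_
    refine jn 886 (by decide +kernel) ?_
    refine jn 900 (by decide +kernel) ?_
    refine jn 902 (by decide +kernel) ?_
    refine jn 906 (by decide +kernel) ?_
    refine jn 920 (by decide +kernel) ?_
    refine jn 932 (by decide +kernel) ?_
    refine jn 941 (by decide +kernel) ?_
    refine jn 950 (by decide +kernel) ?_
    refine jn 960 (by decide +kernel) ?_
    refine jn 969 (by decide +kernel) ?_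
    refine jn 973 (by decide +kernel) ?_
    refine jn 980 (by decide +kernel) ?_
    refine jn 991 (by decide +kernel) ?_
    refine jn 1001 (by decide +kernel) ?_
    refine jn 1017 (by decide +kernel) ?_
    refine jn 1027 (by decide +kernel) ?_
    refine jn 1039 (by decide +kernel) ?_
    refine jn 1046 (by decide +kernel) ?_
    refine jn 1050 (by decide +kernel) ?_
    refine jn 1064 (by decide +kernel) ?_
    refine jn 1074 (by decide +kernel) ?_
    refine jn 1075 (by decide +kernel) ?_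
    refine jn 1078 (by decide +kernel) ?_
    refine jn 1087 (by decide +kernel) ?_
    refine jn 1104 (by decide +kernel) ?_
    refine jn 1119 (by decide +kernel) ?_
    refine jn 1131 (by decide +kernel) ?_
    refine jn 1145 (by decide +kernel) ?_
    refine jn 1147 (by decide +kernel) ?_
    refine jn 1149 (by decide +kernel) ?_
    refine jn 1166 (by decide +kernel) ?_
    refine jn 1177 (by decide +kernel) ?_
    refine jn 1192 (by decide +kernel) ?_
    refine jn 1195 (by decide +kernel) ?_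
    refine jn 1204 (by decide +kernel) ?_
    refine jn 1215 (by decide +kernel) ?_
    refine jn 1231 (by decide +kernel) ?_
    refine jn 1247 (by decide +kernel) ?_
    refine jn 1258 (by decide +kernel) ?_
    refine jn 1286 (by decide +kernel) ?_
    refine jn 1287 (by decide +kernel) ?_
    refine jn 1307 (by decide +kernel) ?_
    refine jn 1328 (by decide +kernel) ?_
    refine jn 1342 (by decide +kernel) ?_
    refine jn 1356 (by decide +kernel) ?_
    refine jn 1374 (by decide +kernel) ?_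
    refine jn 1396 (by decide +kernel) ?_
    refine jn 1415 (by decide +kernel) ?_
    refine jn 1426 (by decide +kernel) ?_
    refine jn 1454 (by decide +kernel) ?_
    refine jn 1466 (by decide +kernel) ?_
    refine jn 1489 (by decide +kernel) ?_
    refine jn 1511 (by decide +kernel) ?_
    refine jn 1546 (by decide +kernel) ?_
    refine jn 1565 (by decide +kernel) ?_
    refine jn 1567 (by decide +kernel) ?_
    refine jn 1568 (by decide +kernel) ?_
    refine jn 1569 (by decide +kernel) ?_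
    refine jn 1579 (by decide +kernel) ?_
    refine jn 1582 (by decide +kernel) ?_
    refine jn 1588 (by decide +kernel) ?_
    refine jn 1589 (by decide +kernel) ?_
    refine jn 1595 (by decide +kernel) ?_
    refine jn 1602 (by decide +kernel) ?_
    refine jn 1604 (by decide +kernel) ?_
    refine jn 1605 (by decide +kernel) ?_
    refine jn 1608 (by decide +kernel) ?_
    refine jn 1609 (by decide +kernel) ?_
    refine jn 1615 (by decide +kernel) ?_
    refine jn 1620 (by decide +kernel) ?_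
    refine jn 1621 (by decide +kernel) ?_
    refine jn 1628 (by decide +kernel) ?_
    refine jn 1629 (by decide +kernel) ?_
    refine jn 1633 (by decide +kernel) ?_
    refine jn 1636 (by decide +kernel) ?_
    refine jn 1637 (by decide +kernel) ?_
    refine jn 1642 (by decide +kernel) ?_
    refine jn 1644 (by decide +kernel) ?_
    refine jn 1645 (by decide +kernel) ?_
    refine jn 1652 (by decide +kernel) ?_
    refine jn 1653 (by decide +kernel) ?_
    refine jn 1658 (by decide +kernel) ?_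
    refine jn 1663 (by decide +kernel) ?_
    refine jn 1667 (by decide +kernel) ?_
    refine jn 1672 (by decide +kernel) ?_
    refine jn 1673 (by decide +kernel) ?_
    refine jn 1676 (by decide +kernel) ?_
    refine jn 1677 (by decide +kernel) ?_
    refine jn 1683 (by decide +kernel) ?_
    refine jn 1692 (by decide +kernel) ?_
    refine jn 1697 (by decide +kernel) ?_
    refine jn 1700 (by decide +kernel) ?_
    refine jn 1706 (by decide +kernel) ?_
    refine jn 1708 (by decide +kernel) ?_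
    refine jn 1709 (by decide +kernel) ?_
    refine jn 1717 (by decide +kernel) ?_
    refine jn 1719 (by decide +kernel) ?_
    refine jn 1724 (by decide +kernel) ?_
    refine jn 1727 (by decide +kernel) ?_
    refine jn 1728 (by decide +kernel) ?_
    refine jn 1730 (by decide +kernel) ?_
    refine jn 1734 (by decide +kernel) ?_
    refine jn 1741 (by decide +kernel) ?_
    refine jn 1752 (by decide +kernel) ?_
    refine jn 1756 (by decide +kernel) ?_
    refine jn 1763 (by decide +kernel) ?_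
    refine jn 1766 (by decide +kernel) ?_
    refine jn 1768 (by decide +kernel) ?_
    refine jn 1774 (by decide +kernel) ?_
    refine jn 1788 (by decide +kernel) ?_
    refine jn 1789 (by decide +kernel) ?_
    refine jn 1791 (by decide +kernel) ?_
    refine jn 1795 (by decide +kernel) ?_
    refine jn 1798 (by decide +kernel) ?_
    refine jn 1800 (by decide +kernel) ?_
    refine jn 1806 (by decide +kernel) ?_
    refine jn 1810 (by decide +kernel) ?_
    refine jn 1814 (by decide +kernel) ?_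
    refine jn 1821 (by decide +kernel) ?_
    refine jn 1823 (by decide +kernel) ?_
    refine jn 1824 (by decide +kernel) ?_
    refine jn 1836 (by decide +kernel) ?_
    refine jn 1839 (by decide +kernel) ?_
    refine jn 1843 (by decide +kernel) ?_
    refine jn 1844 (by decide +kernel) ?_
    refine jn 1854 (by decide +kernel) ?_
    refine jn 1859 (by decide +kernel) ?_
    refine jn 1862 (by decide +kernel) ?_
    refine jn 1864 (by decide +kernel) ?_
    refine jn 1875 (by decide +kernel) ?_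
    refine jn 1876 (by decide +kernel) ?_
    refine jn 1885 (by decide +kernel) ?_
    refine jn 1889 (by decide +kernel) ?_
    refine jn 1891 (by decide +kernel) ?_
    refine jn 1894 (by decide +kernel) ?_
    refine jn 1899 (by decide +kernel) ?_
    refine jn 1901 (by decide +kernel) ?_
    refine jn 1907 (by decide +kernel) ?_
    refine jn 1908 (by decide +kernel) ?_
    refine jn 1913 (by decide +kernel) ?_
    refine jn 1921 (by decide +kernel) ?_
    refine jn 1927 (by decide +kernel) ?_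
    refine jn 1930 (by decide +kernel) ?_
    refine jn 1931 (by decide +kernel) ?_
    refine jn 1933 (by decide +kernel) ?_
    refine jn 1945 (by decide +kernel) ?_
    refine jn 1951 (by decide +kernel) ?_
    refine jn 1954 (by decide +kernel) ?_
    refine jn 1963 (by decide +kernel) ?_
    refine jn 1967 (by decide +kernel) ?_
    refine jn 1974 (by decide +kernel) ?_
    refine jn 1979 (by decide +kernel) ?_
    refine jn 1983 (by decide +kernel) ?_
    refine jn 1985 (by decide +kernel) ?_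
    refine jn 1993 (by decide +kernel) ?_
    refine jn 2006 (by decide +kernel) ?_
    refine jn 2011 (by decide +kernel) ?_
    refine jn 2018 (by decide +kernel) ?_
    refine jn 2023 (by decide +kernel) ?_
    refine jn 2041 (by decide +kernel) ?_
    refine jn 2043 (by decide +kernel) ?_
    refine jn 2045 (by decide +kernel) ?_
    refine jn 2050 (by decide +kernel) ?_
    refine jn 2054 (by decide +kernel) ?_
    refine jn 2061 (by decide +kernel) ?_
    refine jn 2065 (by decide +kernel) ?_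
    refine jn 2070 (by decide +kernel) ?_
    exact je (by decide +kernel)

end Pool.Agent.MP_2339ce_nt.NR
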