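import Pool.Agent.MP_2339ce_nt.Q2.NC.L9
import Pool.Agent.MP_2339ce_nt.Q2.CkI

/-! Block NR: runs. -/

set_option autoImplicit false
set_option maxRecDepth 100000

noncomputable section

namespace Pool.Agent.MP_2339ce_nt.NR

open Q2.Top

def T43_0 : Ph :=
  (.na 687 3 (.na 393 2 (.nx 392 2097153 (.nr 391 881745 (.nx 362 1048577 (.nx 3 186 (.nx 2 185
  (.nr 1 14 (.lg 0 false 1 47 47 5 0 13320) (.l1 .sk)) (.l1 .sk)) (.nr 315 131073 (.nx 80 32769
  (.lg 0 false 77 101 109 16 0 13333320) (.nr 314 110219 (.nr 140 1724 (.nr 124 901 (.lg 0 true 44
  101 103 16 0 293040) (.lg 2 true 16 89 97 9 107651 26640)) (.nx 313 832257 (.nx 168 41286 (.lg 1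
  false 28 103 107 11 57656 26666640) (.nr 184 3160 (.lg 2 true 16 89 97 9 44655 26640) (.nx 212
  52017 (.lg 1 false 28 103 107 11 45762 26666640) (.nr 312 77937 (.nr 225 5794 (.lg 2 true 13 89
  97 9 24362 173160) (.nx 311 660563 (.nr 282 55110 (.nr 253 38969 (.lg 2 false 28 103 109 11 12881
  26666640) (.nx 281 330282 (.lg 2 true 28 101 109 11 18192 26666640) .out)) (.nx 310 208065 (.lg 2
  true 28 103 109 11 25701 26666640) .out)) .out)) .out)))) .out)) .out)) (.nx 361 8193 (.nx 344
  4096 (.nx 343 324 (.lg 0 false 28 89 97 11 0 186480) .out) (.nr 360 155873 (.lg 0 false 16 89 101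
  9 0 26640) .out)) .out))) (.nr 390 129 (.lg 0 true 28 89 97 11 0 186480) .out)) .out) .out) (.nx
  686 3329023 (.nr 685 623489 (.nx 670 2097153 (.nx 396 186 (.nx 395 185 (.nr 394 26 (.lg 0 false 1
  47 47 5 0 186480) (.l1 .sk)) (.l1 .sk)) (.nx 465 22952 (.nr 429 155873 (.lg 0 false 33 103 109 13
  0 26666640) (.nx 440 324 (.lg 0 false 11 83 83 9 0 293040) (.nx 441 10321 .out (.nr 464 220437
  (.nr 452 185365 (.lg 0 false 11 103 107 9 0 26666640) (.nx 453 16384 .out (.lg 0 false 11 101 103
  9 0 2051280))) .out)))) (.nr 669 220437 (.nr 521 1025 (.nx 498 1048577 (.lg 0 true 33 101 103 13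
  0 2051280) (.nr 520 129 (.lg 0 true 22 89 89 11 0 293040) .out)) (.nx 668 832257 (.nx 599 82572
  (.nx 554 41287 (.lg 1 false 33 103 109 13 164495 26666640) (.nr 598 155873 (.nx 576 58387 (.lg 1
  false 22 103 107 11 64684 26666640) (.lg 1 false 22 103 107 11 45740 26666640)) .out)) (.nr 667
  131073 (.nr 610 3446 (.lg 2 true 11 101 101 9 75107 2051280) (.nx 666 524289 (.nr 632 77937 (.lg
  2 false 22 103 109 11 16191 26666640) (.nx 665 208065 (.lg 2 false 33 101 109 13 27203 26666640)
  .out)) .out)) .out)) .out)) .out))) (.nr 684 9 (.lg 0 true 14 73 73 9 0 186480) .out)) .out)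
  .out)) (.na 903 4 (.nx 902 6658044 (.nr 901 1482912 (.nx 872 1321124 (.nx 860 660563 (.nx 746
  32768 (.nx 689 185 (.nr 688 37 (.lg 0 true 1 41 41 5 0 13320) (.l1 .sk)) (.nx 690 186 (.l1 .sk)
  (.nr 734 185365 (.lg 0 false 44 101 109 16 0 26666640) (.nx 745 324 (.lg 0 false 11 89 89 16 0
  146520) .out)))) (.nr 859 220437 (.nr 757 748 (.lg 0 true 11 97 97 16 0 146520) (.nx 858 524289
  (.nx 768 41285 (.lg 1 false 11 103 107 16 115218 26666640) (.nx 779 52017 (.lg 1 false 11 103 109
  16 91449 26666640) (.nr 857 185365 (.nr 783 1539 (.lg 2 true 4 89 89 7 64836 26640) (.nx 794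
  70783 (.lg 1 false 11 103 109 16 61043 26666640) (.nr 806 13397 (.nr 802 6513 (.nr 798 3167 (.lg
  2 true 4 97 97 7 31512 26640) (.lg 2 true 4 89 97 7 15314 26640)) (.lg 2 true 4 89 97 7 7447
  26640)) (.nx 852 208065 (.nx 817 96321 (.lg 1 false 11 103 109 16 44859 26666640) (.nx 828 131073
  (.lg 1 true 11 103 109 16 32966 26666640) (.nr 851 155873 (.nx 839 165142 (.lg 1 true 11 103 107
  16 20375 26666640) (.nr 850 92683 (.lg 1 true 11 103 109 16 9624 26666640) .out)) .out))) (.nr
  856 38969 (.lg 2 false 4 101 101 7 3620 186480) .out))))) .out))) .out)) .out)) (.nr 871 129 (.lg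
  0 true 11 83 83 16 0 146520) .out)) (.nr 900 33 (.lg 0 true 28 83 83 16 0 186480) .out)) .out)
  .out) (.na 904 5 .ne (.nx 1076 16777217 (.nr 1075 1482912 (.nx 907 186 (.nx 906 185 (.nr 905 57
  (.lg 0 true 1 41 41 9 0 93240) (.l1 .sk)) (.l1 .sk)) (.nx 947 41285 (.nr 929 155873 (.lg 0 false
  22 103 109 16 0 26666640) (.nx 946 2049 (.nr 933 185365 (.lg 0 true 4 83 83 11 0 186480) (.nx 945
  324 (.lg 0 false 12 79 79 16 0 26640) .out)) .out)) (.nr 1074 220437 (.nx 1008 660563 (.nr 963
  4213 (.nr 959 956 (.lg 0 true 12 89 89 16 0 26640) (.lg 2 false 4 97 97 11 63915 186480)) (.nx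
  996 165142 (.nx 974 76448 (.lg 1 false 11 103 107 16 91449 26666640) (.nx 985 112360 (.lg 1 false
  11 103 107 16 49386 26666640) (.lg 1 true 11 103 107 16 33602 26666640))) (.nr 1007 131073 (.lg 2
  false 11 103 107 16 14504 26666640) .out))) (.nr 1073 217 (.nr 1060 57 (.lg 0 true 52 83 83 16 0
  346320) (.nx 1072 2097153 (.lg 0 true 12 79 79 16 0 26640) .out)) .out)) .out))) .out) .out))))

def T43_1 : Ph :=
  (.na 8972 8192 (.na 3346 2048 (.na 1290 1024 (.na 688 725 (.nx 687 1048577 (.nr 686 1482912 (.nr
  1 512 .s1 (.nx 258 257 (.nx 192 191 (.nr 191 7095 (.lx (.lp 43 23 182)) (.l1 .sk)) (.nx 193 192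
  (.l1 .sk) (.lx (.lp 79 23 182)))) (.nr 685 1048577 (.nx 471 20644 (.la (.lg 0 false 1 73 73 29
  0)) (.nr 684 32769 (.la (.lg 2 true 1 67 71 29 195585)) .out)) .out))) .out) .out) (.nx 1289
  13005 (.nr 1288 1048577 (.nr 689 725 .s1 (.nx 988 2049 (.la (.ls 67 41 5793)) (.nr 1287 65537
  (.la (.lg 0 false 1 47 47 31 0)) .out))) .out) .out)) (.na 2144 1449 (.nx 2143 13005 (.nr 2142
  1048577 (.nr 1291 1024 .s1 (.nx 1716 3252 (.la (.ls 67 41 10330)) (.nr 2141 32769 (.la (.lg 0
  false 1 37 41 31 0)) .out))) .out) .out) (.nx 3345 8193 (.nr 3344 1048577 (.nr 2145 1449 .s1 (.nx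
  2744 3252 (.la (.ls 67 41 7301)) (.nr 3343 4097 (.la (.ls 29 47 39029)) .out))) .out) .out)))
  (.na 5784 4096 (.na 4390 2897 (.nx 4389 8193 (.nr 4388 1048577 (.nr 3347 2048 .s1 (.nx 3538 191
  (.nr 3537 28348 (.lx (.lp 43 29 725)) (.l1 .sk)) (.nx 3539 192 (.l1 .sk) (.la (.ls 61 47
  32761))))) .out) .out) (.nx 5783 3252 (.nr 5782 524289 (.nr 4391 2897 .s1 (.nx 4583 192 (.nx 4582
  191 (.nr 4581 40081 (.lx (.lp 43 31 1025)) (.l1 .sk)) (.l1 .sk)) (.la (.ls 59 37 3640)))) .out)
  .out)) (.na 7676 5793 (.nx 7675 3252 (.nr 7674 524289 (.nr 5785 4096 .s1 (.nx 5977 192 (.nx 5976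
  191 (.nr 5975 56686 (.lx (.lp 43 31 1449)) (.l1 .sk)) (.l1 .sk)) (.la (.ls 59 37 2575)))) .out)
  .out) (.nx 8971 1292 (.nr 8970 262145 (.nr 7677 5793 .s1 (.nx 7933 256 (.nr 7932 131073 (.lx (.lp
  47 37 2049)) .out) (.nx 8491 814 (.lx (.lp 53 37 2049)) (.nr 8969 65537 (.lx (.lp 43 37 2049))
  .out)))) .out) .out)))) (.na 14151 65536 (.na 11561 16384 (.na 10267 11586 (.nx 10266 1292 (.nr
  10265 262145 (.nr 8973 8192 .s1 (.nx 9786 814 (.lx (.lp 53 41 2897)) (.nr 10264 131073 (.lx (.lp
  43 41 2897)) .out))) .out) .out) (.nx 11560 1292 (.nr 11559 131073 (.nr 10268 11586 .s1 (.lx (.lp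
  43 41 4097))) .out) .out)) (.na 12856 32768 (.nx 12855 1292 (.nr 12854 262145 (.nr 11562 16384
  .s1 (.nx 11818 257 (.lx (.lp 47 43 8193)) (.nr 12853 131073 (.lx (.lp 41 43 8193)) .out))) .out)
  .out) (.nx 14150 1292 (.nr 14149 262145 (.nr 12857 32768 .s1 (.nx 13113 257 (.lx (.lp 16 43
  16385)) (.nx 13502 645 (.nr 13501 131073 (.lx (.lp 41 47 16385)) .out) (.lx (.lp 43 47 16385)))))
  .out) .out))) (.na 15962 262144 (.na 15447 131072 (.nx 15446 1292 (.nr 15445 524289 (.nr 14152
  65536 .s1 (.nx 14408 257 (.lx (.lp 16 0 32769)) (.nr 15444 262145 (.nx 14664 513 (.lx (.lp 41 53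
  32769)) (.nx 14797 645 (.nr 14796 131073 (.lx (.lp 37 53 32769)) .out) (.lx (.lp 41 53 32769))))
  .out))) .out) .out) (.nx 15961 513 (.nr 15960 524289 (.nr 15448 131072 .s1 (.lx (.lp 41 59
  65537))) .out) .out)) (.na 16477 524288 (.nx 16476 513 (.nr 16475 1048577 (.nr 15963 262144 .s1
  (.lx (.lp 16 0 131073))) .out) .out) (.na 16479 1048577 (.nx 16478 257 (.l1 .sk) .out) .out)))))

theorem c43 :
    OkQ ckI L9 185 1 6 0 34359738368 1 1099511627776 ∧
    OkQ ckI L9 191 512 1099511627776 0 34359738368 1 1099511627776 := by
  refine ⟨?_, ?_⟩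
  · refine fin 13320 1077 T43_0 ?_
    refine jn 7 (by decide +kernel) ?_
    refine jn 13 (by decide +kernel) ?_
    refine jn 17 (by decide +kernel) ?_
    refine jn 23 (by decide +kernel) ?_
    refine jn 27 (by decide +kernel) ?_
    refine jn 31 (by decide +kernel) ?_
    refine jn 35 (by decide +kernel) ?_
    refine jn 40 (by decide +kernel) ?_
    refine jn 45 (by decide +kernel) ?_
    refine jn 49 (by decide +kernel) ?_
    refine jn 54 (by decide +kernel) ?_
    refine jn 58 (by decide +kernel) ?_
    refine jn 63 (by decide +kernel) ?_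
    refine jn 68 (by decide +kernel) ?_
    refine jn 73 (by decide +kernel) ?_
    refine jn 78 (by decide +kernel) ?_
    refine jn 80 (by decide +kernel) ?_
    refine jn 90 (by decide +kernel) ?_
    refine jn 100 (by decide +kernel) ?_
    refine jn 110 (by decide +kernel) ?_
    refine jn 120 (by decide +kernel) ?_
    refine jn 124 (by decide +kernel) ?_
    refine jn 140 (by decide +kernel) ?_
    refine jn 164 (by decide +kernel) ?_
    refine jn 184 (by decide +kernel) ?_
    refine jn 208 (by decide +kernel) ?_
    refine jn 225 (by decide +kernel) ?_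
    refine jn 248 (by decide +kernel) ?_
    refine jn 253 (by decide +kernel) ?_
    refine jn 281 (by decide +kernel) ?_
    refine jn 300 (by decide +kernel) ?_
    refine jn 315 (by decide +kernel) ?_
    refine jn 343 (by decide +kernel) ?_
    refine jn 362 (by decide +kernel) ?_
    refine jn 390 (by decide +kernel) ?_
    refine jn 402 (by decide +kernel) ?_
    refine jn 409 (by decide +kernel) ?_
    refine jn 413 (by decide +kernel) ?_
    refine jn 420 (by decide +kernel) ?_
    refine jn 425 (by decide +kernel) ?_
    refine jn 440 (by decide +kernel) ?_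
    refine jn 464 (by decide +kernel) ?_
    refine jn 477 (by decide +kernel) ?_
    refine jn 490 (by decide +kernel) ?_
    refine jn 498 (by decide +kernel) ?_
    refine jn 520 (by decide +kernel) ?_
    refine jn 538 (by decide +kernel) ?_
    refine jn 554 (by decide +kernel) ?_
    refine jn 576 (by decide +kernel) ?_
    refine jn 598 (by decide +kernel) ?_
    refine jn 610 (by decide +kernel) ?_
    refine jn 632 (by decide +kernel) ?_
    refine jn 659 (by decide +kernel) ?_
    refine jn 684 (by decide +kernel) ?_
    refine jn 690 (by decide +kernel) ?_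
    refine jn 692 (by decide +kernel) ?_
    refine jn 694 (by decide +kernel) ?_
    refine jn 696 (by decide +kernel) ?_
    refine jn 698 (by decide +kernel) ?_
    refine jn 700 (by decide +kernel) ?_
    refine jn 701 (by decide +kernel) ?_
    refine jn 703 (by decide +kernel) ?_
    refine jn 705 (by decide +kernel) ?_
    refine jn 707 (by decide +kernel) ?_
    refine jn 709 (by decide +kernel) ?_
    refine jn 711 (by decide +kernel) ?_
    refine jn 712 (by decide +kernel) ?_
    refine jn 714 (by decide +kernel) ?_
    refine jn 716 (by decide +kernel) ?_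
    refine jn 718 (by decide +kernel) ?_
    refine jn 720 (by decide +kernel) ?_
    refine jn 722 (by decide +kernel) ?_
    refine jn 723 (by decide +kernel) ?_
    refine jn 725 (by decide +kernel) ?_
    refine jn 727 (by decide +kernel) ?_
    refine jn 729 (by decide +kernel) ?_
    refine jn 731 (by decide +kernel) ?_
    refine jn 733 (by decide +kernel) ?_
    refine jn 745 (by decide +kernel) ?_
    refine jn 748 (by decide +kernel) ?_
    refine jn 750 (by decide +kernel) ?_
    refine jn 752 (by decide +kernel) ?_
    refine jn 754 (by decide +kernel) ?_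
    refine jn 756 (by decide +kernel) ?_
    refine jn 757 (by decide +kernel) ?_
    refine jn 765 (by decide +kernel) ?_
    refine jn 772 (by decide +kernel) ?_
    refine jn 779 (by decide +kernel) ?_
    refine jn 783 (by decide +kernel) ?_
    refine jn 789 (by decide +kernel) ?_
    refine jn 794 (by decide +kernel) ?_
    refine jn 802 (by decide +kernel) ?_
    refine jn 806 (by decide +kernel) ?_
    refine jn 812 (by decide +kernel) ?_
    refine jn 817 (by decide +kernel) ?_
    refine jn 824 (by decide +kernel) ?_
    refine jn 828 (by decide +kernel) ?_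
    refine jn 839 (by decide +kernel) ?_
    refine jn 850 (by decide +kernel) ?_
    refine jn 864 (by decide +kernel) ?_
    refine jn 871 (by decide +kernel) ?_
    refine jn 872 (by decide +kernel) ?_
    refine jn 880 (by decide +kernel) ?_
    refine jn 900 (by decide +kernel) ?_
    refine jn 916 (by decide +kernel) ?_
    refine jn 925 (by decide +kernel) ?_
    refine jn 945 (by decide +kernel) ?_
    refine jn 959 (by decide +kernel) ?_
    refine jn 974 (by decide +kernel) ?_
    refine jn 996 (by decide +kernel) ?_
    refine jn 1060 (by decide +kernel) ?_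
    exact je (by decide +kernel)
  · refine fin 72 16480 T43_1 ?_
    refine jn 61 (by decide +kernel) ?_
    refine jn 122 (by decide +kernel) ?_
    refine jn 210 (by decide +kernel) ?_
    refine jn 252 (by decide +kernel) ?_
    refine jn 262 (by decide +kernel) ?_
    refine jn 266 (by decide +kernel) ?_
    refine jn 267 (by decide +kernel) ?_
    refine jn 281 (by decide +kernel) ?_
    refine jn 282 (by decide +kernel) ?_
    refine jn 284 (by decide +kernel) ?_
    refine jn 288 (by decide +kernel) ?_
    refine jn 291 (by decide +kernel) ?_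
    refine jn 298 (by decide +kernel) ?_
    refine jn 299 (by decide +kernel) ?_
    refine jn 312 (by decide +kernel) ?_
    refine jn 322 (by decide +kernel) ?_
    refine jn 324 (by decide +kernel) ?_
    refine jn 331 (by decide +kernel) ?_
    refine jn 336 (by decide +kernel) ?_
    refine jn 342 (by decide +kernel) ?_
    refine jn 344 (by decide +kernel) ?_
    refine jn 346 (by decide +kernel) ?_
    refine jn 347 (by decide +kernel) ?_
    refine jn 358 (by decide +kernel) ?_
    refine jn 364 (by decide +kernel) ?_
    refine jn 368 (by decide +kernel) ?_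
    refine jn 370 (by decide +kernel) ?_
    refine jn 371 (by decide +kernel) ?_
    refine jn 379 (by decide +kernel) ?_
    refine jn 387 (by decide +kernel) ?_
    refine jn 391 (by decide +kernel) ?_
    refine jn 394 (by decide +kernel) ?_
    refine jn 398 (by decide +kernel) ?_
    refine jn 405 (by decide +kernel) ?_
    refine jn 415 (by decide +kernel) ?_
    refine jn 421 (by decide +kernel) ?_
    refine jn 426 (by decide +kernel) ?_
    refine jn 427 (by decide +kernel) ?_
    refine jn 436 (by decide +kernel) ?_
    refine jn 440 (by decide +kernel) ?_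
    refine jn 448 (by decide +kernel) ?_
    refine jn 454 (by decide +kernel) ?_
    refine jn 457 (by decide +kernel) ?_
    refine jn 466 (by decide +kernel) ?_
    refine jn 467 (by decide +kernel) ?_
    refine jn 474 (by decide +kernel) ?_
    refine jn 475 (by decide +kernel) ?_
    refine jn 479 (by decide +kernel) ?_
    refine jn 480 (by decide +kernel) ?_
    refine jn 490 (by decide +kernel) ?_
    refine jn 495 (by decide +kernel) ?_
    refine jn 497 (by decide +kernel) ?_
    refine jn 499 (by decide +kernel) ?_
    refine jn 501 (by decide +kernel) ?_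
    refine jn 503 (by decide +kernel) ?_
    refine jn 504 (by decide +kernel) ?_
    refine jn 511 (by decide +kernel) ?_
    refine jn 512 (by decide +kernel) ?_
    refine jn 521 (by decide +kernel) ?_
    refine jn 532 (by decide +kernel) ?_
    refine jn 535 (by decide +kernel) ?_
    refine jn 536 (by decide +kernel) ?_
    refine jn 538 (by decide +kernel) ?_
    refine jn 544 (by decide +kernel) ?_
    refine jn 545 (by decide +kernel) ?_
    refine jn 550 (by decide +kernel) ?_
    refine jn 555 (by decide +kernel) ?_
    refine jn 557 (by decide +kernel) ?_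
    refine jn 559 (by decide +kernel) ?_
    refine jn 560 (by decide +kernel) ?_
    refine jn 571 (by decide +kernel) ?_
    refine jn 572 (by decide +kernel) ?_
    refine jn 578 (by decide +kernel) ?_
    refine jn 581 (by decide +kernel) ?_
    refine jn 583 (by decide +kernel) ?_
    refine jn 584 (by decide +kernel) ?_
    refine jn 591 (by decide +kernel) ?_
    refine jn 592 (by decide +kernel) ?_
    refine jn 599 (by decide +kernel) ?_
    refine jn 600 (by decide +kernel) ?_
    refine jn 604 (by decide +kernel) ?_
    refine jn 607 (by decide +kernel) ?_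
    refine jn 609 (by decide +kernel) ?_
    refine jn 612 (by decide +kernel) ?_
    refine jn 618 (by decide +kernel) ?_
    refine jn 622 (by decide +kernel) ?_
    refine jn 628 (by decide +kernel) ?_
    refine jn 632 (by decide +kernel) ?_
    refine jn 635 (by decide +kernel) ?_
    refine jn 639 (by decide +kernel) ?_
    refine jn 640 (by decide +kernel) ?_
    refine jn 647 (by decide +kernel) ?_
    refine jn 649 (by decide +kernel) ?_
    refine jn 650 (by decide +kernel) ?_
    refine jn 657 (by decide +kernel) ?_
    refine jn 661 (by decide +kernel) ?_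
    refine jn 667 (by decide +kernel) ?_
    refine jn 668 (by decide +kernel) ?_
    refine jn 676 (by decide +kernel) ?_
    refine jn 679 (by decide +kernel) ?_
    refine jn 680 (by decide +kernel) ?_
    refine jn 700 (by decide +kernel) ?_
    refine jn 729 (by decide +kernel) ?_
    refine jn 738 (by decide +kernel) ?_
    refine jn 746 (by decide +kernel) ?_
    refine jn 764 (by decide +kernel) ?_
    refine jn 779 (by decide +kernel) ?_
    refine jn 788 (by decide +kernel) ?_
    refine jn 806 (by decide +kernel) ?_
    refine jn 824 (by decide +kernel) ?_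
    refine jn 836 (by decide +kernel) ?_
    refine jn 856 (by decide +kernel) ?_
    refine jn 880 (by decide +kernel) ?_
    refine jn 898 (by decide +kernel) ?_
    refine jn 912 (by decide +kernel) ?_
    refine jn 928 (by decide +kernel) ?_
    refine jn 946 (by decide +kernel) ?_
    refine jn 969 (by decide +kernel) ?_
    refine jn 988 (by decide +kernel) ?_
    refine jn 999 (by decide +kernel) ?_
    refine jn 1013 (by decide +kernel) ?_
    refine jn 1028 (by decide +kernel) ?_
    refine jn 1031 (by decide +kernel) ?_
    refine jn 1037 (by decide +kernel) ?_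
    refine jn 1043 (by decide +kernel) ?_
    refine jn 1044 (by decide +kernel) ?_
    refine jn 1057 (by decide +kernel) ?_
    refine jn 1067 (by decide +kernel) ?_
    refine jn 1076 (by decide +kernel) ?_
    refine jn 1079 (by decide +kernel) ?_
    refine jn 1080 (by decide +kernel) ?_
    refine jn 1091 (by decide +kernel) ?_
    refine jn 1095 (by decide +kernel) ?_
    refine jn 1107 (by decide +kernel) ?_
    refine jn 1119 (by decide +kernel) ?_
    refine jn 1127 (by decide +kernel) ?_
    refine jn 1135 (by decide +kernel) ?_
    refine jn 1147 (by decide +kernel) ?_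
    refine jn 1155 (by decide +kernel) ?_
    refine jn 1163 (by decide +kernel) ?_
    refine jn 1181 (by decide +kernel) ?_
    refine jn 1183 (by decide +kernel) ?_
    refine jn 1184 (by decide +kernel) ?_
    refine jn 1199 (by decide +kernel) ?_
    refine jn 1200 (by decide +kernel) ?_
    refine jn 1218 (by decide +kernel) ?_
    refine jn 1223 (by decide +kernel) ?_
    refine jn 1224 (by decide +kernel) ?_
    refine jn 1234 (by decide +kernel) ?_
    refine jn 1244 (by decide +kernel) ?_
    refine jn 1258 (by decide +kernel) ?_
    refine jn 1267 (by decide +kernel) ?_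
    refine jn 1277 (by decide +kernel) ?_
    refine jn 1283 (by decide +kernel) ?_
    refine jn 1284 (by decide +kernel) ?_
    refine jn 1299 (by decide +kernel) ?_
    refine jn 1307 (by decide +kernel) ?_
    refine jn 1319 (by decide +kernel) ?_
    refine jn 1339 (by decide +kernel) ?_
    refine jn 1347 (by decide +kernel) ?_
    refine jn 1357 (by decide +kernel) ?_
    refine jn 1372 (by decide +kernel) ?_
    refine jn 1392 (by decide +kernel) ?_
    refine jn 1419 (by decide +kernel) ?_
    refine jn 1431 (by decide +kernel) ?_
    refine jn 1447 (by decide +kernel) ?_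
    refine jn 1459 (by decide +kernel) ?_
    refine jn 1467 (by decide +kernel) ?_
    refine jn 1482 (by decide +kernel) ?_
    refine jn 1503 (by decide +kernel) ?_
    refine jn 1515 (by decide +kernel) ?_
    refine jn 1530 (by decide +kernel) ?_
    refine jn 1549 (by decide +kernel) ?_
    refine jn 1566 (by decide +kernel) ?_
    refine jn 1585 (by decide +kernel) ?_
    refine jn 1610 (by decide +kernel) ?_
    refine jn 1624 (by decide +kernel) ?_
    refine jn 1640 (by decide +kernel) ?_
    refine jn 1650 (by decide +kernel) ?_
    refine jn 1671 (by decide +kernel) ?_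
    refine jn 1683 (by decide +kernel) ?_
    refine jn 1700 (by decide +kernel) ?_
    refine jn 1713 (by decide +kernel) ?_
    refine jn 1724 (by decide +kernel) ?_
    refine jn 1725 (by decide +kernel) ?_
    refine jn 1732 (by decide +kernel) ?_
    refine jn 1733 (by decide +kernel) ?_
    refine jn 1750 (by decide +kernel) ?_
    refine jn 1764 (by decide +kernel) ?_
    refine jn 1772 (by decide +kernel) ?_
    refine jn 1773 (by decide +kernel) ?_
    refine jn 1796 (by decide +kernel) ?_
    refine jn 1797 (by decide +kernel) ?_
    refine jn 1810 (by decide +kernel) ?_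
    refine jn 1831 (by decide +kernel) ?_
    refine jn 1844 (by decide +kernel) ?_
    refine jn 1855 (by decide +kernel) ?_
    refine jn 1864 (by decide +kernel) ?_
    refine jn 1874 (by decide +kernel) ?_
    refine jn 1884 (by decide +kernel) ?_
    refine jn 1888 (by decide +kernel) ?_
    refine jn 1892 (by decide +kernel) ?_
    refine jn 1897 (by decide +kernel) ?_
    refine jn 1916 (by decide +kernel) ?_
    refine jn 1917 (by decide +kernel) ?_
    refine jn 1934 (by decide +kernel) ?_
    refine jn 1940 (by decide +kernel) ?_
    refine jn 1941 (by decide +kernel) ?_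
    refine jn 1956 (by decide +kernel) ?_
    refine jn 1972 (by decide +kernel) ?_
    refine jn 1982 (by decide +kernel) ?_
    refine jn 1991 (by decide +kernel) ?_
    refine jn 2000 (by decide +kernel) ?_
    refine jn 2018 (by decide +kernel) ?_
    refine jn 2032 (by decide +kernel) ?_
    refine jn 2039 (by decide +kernel) ?_
    refine jn 2049 (by decide +kernel) ?_
    refine jn 2052 (by decide +kernel) ?_
    refine jn 2053 (by decide +kernel) ?_
    refine jn 2068 (by decide +kernel) ?_
    refine jn 2072 (by decide +kernel) ?_
    refine jn 2074 (by decide +kernel) ?_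
    refine jn 2088 (by decide +kernel) ?_
    refine jn 2101 (by decide +kernel) ?_
    refine jn 2108 (by decide +kernel) ?_
    refine jn 2109 (by decide +kernel) ?_
    refine jn 2126 (by decide +kernel) ?_
    refine jn 2132 (by decide +kernel) ?_
    refine jn 2137 (by decide +kernel) ?_
    refine jn 2163 (by decide +kernel) ?_
    refine jn 2191 (by decide +kernel) ?_
    refine jn 2223 (by decide +kernel) ?_
    refine jn 2239 (by decide +kernel) ?_
    refine jn 2251 (by decide +kernel) ?_
    refine jn 2256 (by decide +kernel) ?_
    refine jn 2260 (by decide +kernel) ?_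
    refine jn 2283 (by decide +kernel) ?_
    refine jn 2304 (by decide +kernel) ?_
    refine jn 2322 (by decide +kernel) ?_
    refine jn 2342 (by decide +kernel) ?_
    refine jn 2359 (by decide +kernel) ?_
    refine jn 2385 (by decide +kernel) ?_
    refine jn 2416 (by decide +kernel) ?_
    refine jn 2427 (by decide +kernel) ?_
    refine jn 2447 (by decide +kernel) ?_
    refine jn 2464 (by decide +kernel) ?_
    refine jn 2483 (by decide +kernel) ?_
    refine jn 2496 (by decide +kernel) ?_
    refine jn 2518 (by decide +kernel) ?_
    refine jn 2543 (by decide +kernel) ?_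
    refine jn 2568 (by decide +kernel) ?_
    refine jn 2592 (by decide +kernel) ?_
    refine jn 2616 (by decide +kernel) ?_
    refine jn 2631 (by decide +kernel) ?_
    refine jn 2651 (by decide +kernel) ?_
    refine jn 2675 (by decide +kernel) ?_
    refine jn 2704 (by decide +kernel) ?_
    refine jn 2727 (by decide +kernel) ?_
    refine jn 2739 (by decide +kernel) ?_
    refine jn 2767 (by decide +kernel) ?_
    refine jn 2795 (by decide +kernel) ?_
    refine jn 2829 (by decide +kernel) ?_
    refine jn 2847 (by decide +kernel) ?_
    refine jn 2859 (by decide +kernel) ?_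
    refine jn 2887 (by decide +kernel) ?_
    refine jn 2908 (by decide +kernel) ?_
    refine jn 2930 (by decide +kernel) ?_
    refine jn 2957 (by decide +kernel) ?_
    refine jn 2985 (by decide +kernel) ?_
    refine jn 3019 (by decide +kernel) ?_
    refine jn 3039 (by decide +kernel) ?_
    refine jn 3063 (by decide +kernel) ?_
    refine jn 3084 (by decide +kernel) ?_
    refine jn 3111 (by decide +kernel) ?_
    refine jn 3135 (by decide +kernel) ?_
    refine jn 3163 (by decide +kernel) ?_
    refine jn 3191 (by decide +kernel) ?_
    refine jn 3218 (by decide +kernel) ?_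
    refine jn 3244 (by decide +kernel) ?_
    refine jn 3273 (by decide +kernel) ?_
    refine jn 3303 (by decide +kernel) ?_
    refine jn 3335 (by decide +kernel) ?_
    refine jn 3399 (by decide +kernel) ?_
    refine jn 3539 (by decide +kernel) ?_
    refine jn 3555 (by decide +kernel) ?_
    refine jn 3564 (by decide +kernel) ?_
    refine jn 3585 (by decide +kernel) ?_
    refine jn 3601 (by decide +kernel) ?_
    refine jn 3615 (by decide +kernel) ?_
    refine jn 3631 (by decide +kernel) ?_
    refine jn 3643 (by decide +kernel) ?_
    refine jn 3651 (by decide +kernel) ?_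
    refine jn 3659 (by decide +kernel) ?_
    refine jn 3671 (by decide +kernel) ?_
    refine jn 3688 (by decide +kernel) ?_
    refine jn 3701 (by decide +kernel) ?_
    refine jn 3721 (by decide +kernel) ?_
    refine jn 3730 (by decide +kernel) ?_
    refine jn 3755 (by decide +kernel) ?_
    refine jn 3776 (by decide +kernel) ?_
    refine jn 3791 (by decide +kernel) ?_
    refine jn 3798 (by decide +kernel) ?_
    refine jn 3810 (by decide +kernel) ?_
    refine jn 3826 (by decide +kernel) ?_
    refine jn 3835 (by decide +kernel) ?_
    refine jn 3851 (by decide +kernel) ?_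
    refine jn 3858 (by decide +kernel) ?_
    refine jn 3875 (by decide +kernel) ?_
    refine jn 3883 (by decide +kernel) ?_
    refine jn 3891 (by decide +kernel) ?_
    refine jn 3912 (by decide +kernel) ?_
    refine jn 3936 (by decide +kernel) ?_
    refine jn 3945 (by decide +kernel) ?_
    refine jn 3963 (by decide +kernel) ?_
    refine jn 3978 (by decide +kernel) ?_
    refine jn 3987 (by decide +kernel) ?_
    refine jn 4000 (by decide +kernel) ?_
    refine jn 4019 (by decide +kernel) ?_
    refine jn 4026 (by decide +kernel) ?_
    refine jn 4050 (by decide +kernel) ?_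
    refine jn 4066 (by decide +kernel) ?_
    refine jn 4082 (by decide +kernel) ?_
    refine jn 4092 (by decide +kernel) ?_
    refine jn 4107 (by decide +kernel) ?_
    refine jn 4127 (by decide +kernel) ?_
    refine jn 4143 (by decide +kernel) ?_
    refine jn 4167 (by decide +kernel) ?_
    refine jn 4174 (by decide +kernel) ?_
    refine jn 4190 (by decide +kernel) ?_
    refine jn 4210 (by decide +kernel) ?_
    refine jn 4224 (by decide +kernel) ?_
    refine jn 4245 (by decide +kernel) ?_
    refine jn 4251 (by decide +kernel) ?_
    refine jn 4252 (by decide +kernel) ?_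
    refine jn 4272 (by decide +kernel) ?_
    refine jn 4293 (by decide +kernel) ?_
    refine jn 4314 (by decide +kernel) ?_
    refine jn 4325 (by decide +kernel) ?_
    refine jn 4356 (by decide +kernel) ?_
    refine jn 4371 (by decide +kernel) ?_
    refine jn 4383 (by decide +kernel) ?_
    refine jn 4461 (by decide +kernel) ?_
    refine jn 4603 (by decide +kernel) ?_
    refine jn 4637 (by decide +kernel) ?_
    refine jn 4672 (by decide +kernel) ?_
    refine jn 4701 (by decide +kernel) ?_
    refine jn 4746 (by decide +kernel) ?_
    refine jn 4768 (by decide +kernel) ?_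
    refine jn 4791 (by decide +kernel) ?_
    refine jn 4814 (by decide +kernel) ?_
    refine jn 4845 (by decide +kernel) ?_
    refine jn 4875 (by decide +kernel) ?_
    refine jn 4911 (by decide +kernel) ?_
    refine jn 4945 (by decide +kernel) ?_
    refine jn 4967 (by decide +kernel) ?_
    refine jn 5001 (by decide +kernel) ?_
    refine jn 5036 (by decide +kernel) ?_
    refine jn 5069 (by decide +kernel) ?_
    refine jn 5110 (by decide +kernel) ?_
    refine jn 5142 (by decide +kernel) ?_
    refine jn 5174 (by decide +kernel) ?_
    refine jn 5204 (by decide +kernel) ?_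
    refine jn 5233 (by decide +kernel) ?_
    refine jn 5273 (by decide +kernel) ?_
    refine jn 5304 (by decide +kernel) ?_
    refine jn 5342 (by decide +kernel) ?_
    refine jn 5374 (by decide +kernel) ?_
    refine jn 5412 (by decide +kernel) ?_
    refine jn 5444 (by decide +kernel) ?_
    refine jn 5484 (by decide +kernel) ?_
    refine jn 5526 (by decide +kernel) ?_
    refine jn 5556 (by decide +kernel) ?_
    refine jn 5586 (by decide +kernel) ?_
    refine jn 5619 (by decide +kernel) ?_
    refine jn 5665 (by decide +kernel) ?_
    refine jn 5706 (by decide +kernel) ?_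
    refine jn 5736 (by decide +kernel) ?_
    refine jn 5766 (by decide +kernel) ?_
    refine jn 5814 (by decide +kernel) ?_
    refine jn 5992 (by decide +kernel) ?_
    refine jn 6021 (by decide +kernel) ?_
    refine jn 6054 (by decide +kernel) ?_
    refine jn 6100 (by decide +kernel) ?_
    refine jn 6131 (by decide +kernel) ?_
    refine jn 6167 (by decide +kernel) ?_
    refine jn 6208 (by decide +kernel) ?_
    refine jn 6245 (by decide +kernel) ?_
    refine jn 6297 (by decide +kernel) ?_
    refine jn 6328 (by decide +kernel) ?_
    refine jn 6366 (by decide +kernel) ?_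
    refine jn 6409 (by decide +kernel) ?_
    refine jn 6462 (by decide +kernel) ?_
    refine jn 6488 (by decide +kernel) ?_
    refine jn 6519 (by decide +kernel) ?_
    refine jn 6561 (by decide +kernel) ?_
    refine jn 6586 (by decide +kernel) ?_
    refine jn 6621 (by decide +kernel) ?_
    refine jn 6661 (by decide +kernel) ?_
    refine jn 6696 (by decide +kernel) ?_
    refine jn 6736 (by decide +kernel) ?_
    refine jn 6785 (by decide +kernel) ?_
    refine jn 6825 (by decide +kernel) ?_
    refine jn 6857 (by decide +kernel) ?_
    refine jn 6896 (by decide +kernel) ?_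
    refine jn 6939 (by decide +kernel) ?_
    refine jn 6981 (by decide +kernel) ?_
    refine jn 7023 (by decide +kernel) ?_
    refine jn 7056 (by decide +kernel) ?_
    refine jn 7097 (by decide +kernel) ?_
    refine jn 7140 (by decide +kernel) ?_
    refine jn 7185 (by decide +kernel) ?_
    refine jn 7233 (by decide +kernel) ?_
    refine jn 7263 (by decide +kernel) ?_
    refine jn 7301 (by decide +kernel) ?_
    refine jn 7336 (by decide +kernel) ?_
    refine jn 7385 (by decide +kernel) ?_
    refine jn 7421 (by decide +kernel) ?_
    refine jn 7455 (by decide +kernel) ?_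
    refine jn 7497 (by decide +kernel) ?_
    refine jn 7541 (by decide +kernel) ?_
    refine jn 7576 (by decide +kernel) ?_
    refine jn 7627 (by decide +kernel) ?_
    refine jn 7665 (by decide +kernel) ?_
    refine jn 7917 (by decide +kernel) ?_
    refine jn 7986 (by decide +kernel) ?_
    refine jn 8062 (by decide +kernel) ?_
    refine jn 8138 (by decide +kernel) ?_
    refine jn 8206 (by decide +kernel) ?_
    refine jn 8275 (by decide +kernel) ?_
    refine jn 8336 (by decide +kernel) ?_
    refine jn 8407 (by decide +kernel) ?_
    refine jn 8468 (by decide +kernel) ?_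
    refine jn 8518 (by decide +kernel) ?_
    refine jn 8576 (by decide +kernel) ?_
    refine jn 8636 (by decide +kernel) ?_
    refine jn 8670 (by decide +kernel) ?_
    refine jn 8720 (by decide +kernel) ?_
    refine jn 8768 (by decide +kernel) ?_
    refine jn 8812 (by decide +kernel) ?_
    refine jn 8852 (by decide +kernel) ?_
    refine jn 8903 (by decide +kernel) ?_
    refine jn 8935 (by decide +kernel) ?_
    refine jn 8958 (by decide +kernel) ?_
    refine jn 9216 (by decide +kernel) ?_
    refine jn 9321 (by decide +kernel) ?_
    refine jn 9384 (by decide +kernel) ?_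
    refine jn 9451 (by decide +kernel) ?_
    refine jn 9517 (by decide +kernel) ?_
    refine jn 9591 (by decide +kernel) ?_
    refine jn 9643 (by decide +kernel) ?_
    refine jn 9709 (by decide +kernel) ?_
    refine jn 9793 (by decide +kernel) ?_
    refine jn 9833 (by decide +kernel) ?_
    refine jn 9899 (by decide +kernel) ?_
    refine jn 9951 (by decide +kernel) ?_
    refine jn 10019 (by decide +kernel) ?_
    refine jn 10071 (by decide +kernel) ?_
    refine jn 10111 (by decide +kernel) ?_
    refine jn 10161 (by decide +kernel) ?_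
    refine jn 10211 (by decide +kernel) ?_
    refine jn 10263 (by decide +kernel) ?_
    refine jn 10578 (by decide +kernel) ?_
    refine jn 10666 (by decide +kernel) ?_
    refine jn 10730 (by decide +kernel) ?_
    refine jn 10794 (by decide +kernel) ?_
    refine jn 10904 (by decide +kernel) ?_
    refine jn 10973 (by decide +kernel) ?_
    refine jn 11055 (by decide +kernel) ?_
    refine jn 11111 (by decide +kernel) ?_
    refine jn 11176 (by decide +kernel) ?_
    refine jn 11252 (by decide +kernel) ?_
    refine jn 11318 (by decide +kernel) ?_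
    refine jn 11379 (by decide +kernel) ?_
    refine jn 11436 (by decide +kernel) ?_
    refine jn 11498 (by decide +kernel) ?_
    refine jn 11547 (by decide +kernel) ?_
    refine jn 11803 (by decide +kernel) ?_
    refine jn 11908 (by decide +kernel) ?_
    refine jn 11962 (by decide +kernel) ?_
    refine jn 12010 (by decide +kernel) ?_
    refine jn 12045 (by decide +kernel) ?_
    refine jn 12090 (by decide +kernel) ?_
    refine jn 12127 (by decide +kernel) ?_
    refine jn 12162 (by decide +kernel) ?_
    refine jn 12220 (by decide +kernel) ?_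
    refine jn 12262 (by decide +kernel) ?_
    refine jn 12292 (by decide +kernel) ?_
    refine jn 12330 (by decide +kernel) ?_
    refine jn 12370 (by decide +kernel) ?_
    refine jn 12402 (by decide +kernel) ?_
    refine jn 12442 (by decide +kernel) ?_
    refine jn 12492 (by decide +kernel) ?_
    refine jn 12532 (by decide +kernel) ?_
    refine jn 12568 (by decide +kernel) ?_
    refine jn 12612 (by decide +kernel) ?_
    refine jn 12646 (by decide +kernel) ?_
    refine jn 12680 (by decide +kernel) ?_
    refine jn 12722 (by decide +kernel) ?_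
    refine jn 12749 (by decide +kernel) ?_
    refine jn 12785 (by decide +kernel) ?_
    refine jn 12810 (by decide +kernel) ?_
    refine jn 12832 (by decide +kernel) ?_
    refine jn 12857 (by decide +kernel) ?_
    refine jn 13147 (by decide +kernel) ?_
    refine jn 13227 (by decide +kernel) ?_
    refine jn 13283 (by decide +kernel) ?_
    refine jn 13335 (by decide +kernel) ?_
    refine jn 13401 (by decide +kernel) ?_
    refine jn 13445 (by decide +kernel) ?_
    refine jn 13497 (by decide +kernel) ?_
    refine jn 13535 (by decide +kernel) ?_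
    refine jn 13596 (by decide +kernel) ?_
    refine jn 13654 (by decide +kernel) ?_
    refine jn 13698 (by decide +kernel) ?_
    refine jn 13746 (by decide +kernel) ?_
    refine jn 13798 (by decide +kernel) ?_
    refine jn 13836 (by decide +kernel) ?_
    refine jn 13866 (by decide +kernel) ?_
    refine jn 13908 (by decide +kernel) ?_
    refine jn 13956 (by decide +kernel) ?_
    refine jn 13993 (by decide +kernel) ?_
    refine jn 14046 (by decide +kernel) ?_
    refine jn 14088 (by decide +kernel) ?_
    refine jn 14128 (by decide +kernel) ?_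
    refine jn 14472 (by decide +kernel) ?_
    refine jn 14539 (by decide +kernel) ?_
    refine jn 14648 (by decide +kernel) ?_
    refine jn 14717 (by decide +kernel) ?_
    refine jn 14770 (by decide +kernel) ?_
    refine jn 14817 (by decide +kernel) ?_
    refine jn 14887 (by decide +kernel) ?_
    refine jn 14943 (by decide +kernel) ?_
    refine jn 14993 (by decide +kernel) ?_
    refine jn 15045 (by decide +kernel) ?_
    refine jn 15119 (by decide +kernel) ?_
    refine jn 15161 (by decide +kernel) ?_
    refine jn 15221 (by decide +kernel) ?_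
    refine jn 15261 (by decide +kernel) ?_
    refine jn 15301 (by decide +kernel) ?_
    refine jn 15363 (by decide +kernel) ?_
    refine jn 15401 (by decide +kernel) ?_
    refine jn 15433 (by decide +kernel) ?_
    refine jn 15896 (by decide +kernel) ?_
    refine jn 15952 (by decide +kernel) ?_
    exact je (by decide +kernel)

end Pool.Agent.MP_2339ce_nt.NR
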