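import Pool.Agent.MP_2339ce_nt.Q2.NC.L9
import Pool.Agent.MP_2339ce_nt.Q2.CkI

/-! Block NR: runs. -/

set_option autoImplicit false
set_option maxRecDepth 100000

noncomputable section

namespace Pool.Agent.MP_2339ce_nt.NR

open Q2.Top

def T48_0 : Ph :=
  (.na 841 123 (.na 537 64 (.na 328 39 (.na 203 29 (.na 85 24 (.na 50 23 (.nx 49 2097153 (.nr 48
  1048577 (.nr 1 11 .s1 (.nx 42 416129 (.nx 3 207 (.nr 2 234 (.lg 0 true 1 31 31 13 0 3312) (.l1
  .sk)) (.nx 4 208 (.l1 .sk) (.nx 23 42060 (.nx 5 324 (.l1 (.ls 83 43 3431)) (.nr 22 623489 (.nr 10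
  185365 (.lg 0 false 5 97 101 19 0 16560) (.nx 21 10323 (.nr 15 262145 (.lg 0 false 5 83 89 19 0
  16560) (.nx 20 2049 (.lg 0 false 5 79 83 19 0 16560) .out)) .out)) .out)) (.nr 41 155873 (.nr 28
  2200 (.lg 0 true 5 83 83 19 0 16560) (.nx 33 82572 (.lg 1 false 5 97 101 19 79505 215280) (.nr 40
  131073 (.lg 2 false 7 97 103 23 34063 1506960) .out))) .out)))) (.nr 47 257 (.lg 0 true 5 73 73
  19 0 16560) .out))) .out) .out) (.nx 84 2097153 (.nr 83 1048577 (.nr 51 18 .s1 (.nx 54 208 (.nx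
  53 207 (.nr 52 245 (.l1 (.ls 16 31 1865)) (.l1 .sk)) (.l1 .sk)) (.nx 66 41287 (.nx 55 324 (.l1
  (.ls 73 37 2686)) (.nr 65 524289 (.lg 0 false 10 97 97 16 0 16560) .out)) (.nr 82 110219 (.nr 76
  647 (.lg 0 true 10 71 71 16 0 16560) (.nx 81 330282 (.lg 2 false 5 89 89 16 57303 8280) .out))
  .out)))) .out) .out)) (.na 125 26 (.nx 124 2097153 (.nr 123 1048577 (.nr 86 20 .s1 (.nx 89 208
  (.nx 88 207 (.nr 87 265 (.lg 0 true 1 37 37 13 0 16560) (.l1 .sk)) (.l1 .sk)) (.nx 90 324 (.l1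
  (.ls 83 43 2574)) (.nr 122 524289 (.nr 119 370729 (.nx 97 20644 (.lg 0 false 7 89 101 29 0
  115920) (.nr 118 131073 (.nx 104 52017 (.lg 0 false 7 89 101 29 0 115920) (.nr 117 92683 (.nx 113
  330282 (.nr 106 1663 (.lg 0 true 2 83 83 19 0 16560) (.lg 2 false 7 89 101 29 38260 115920)) (.nr
  116 257 (.lg 0 true 3 79 79 23 0 3312) .out)) .out)) .out)) (.nx 121 1292 (.lg 0 false 2 79 79 19
  0 16560) .out)) .out)))) .out) .out) (.na 162 27 (.nx 161 2097153 (.nr 160 1048577 (.nr 126 22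
  .s1 (.nx 130 324 (.nx 128 207 (.nr 127 275 (.lg 0 true 1 31 31 11 0 215280) (.l1 .sk)) (.nx 129
  208 (.l1 .sk) (.l1 (.ls 83 43 2376)))) (.nr 159 524289 (.nr 151 185365 (.nx 137 52017 (.lg 0
  false 7 97 101 19 0 1506960) (.nr 150 92683 (.nr 144 821 (.lg 0 true 7 83 83 19 0 301392) (.nx
  149 330282 (.lg 2 false 5 89 97 19 41638 215280) .out)) .out)) (.nx 158 13005 (.lg 0 false 7 89
  101 19 0 1506960) .out)) .out))) .out) .out) (.nx 202 2097153 (.nr 201 1048577 (.nr 163 23 .s1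
  (.nx 166 208 (.nx 165 207 (.nr 164 296 (.lg 0 false 1 31 31 16 0 3312) (.l1 .sk)) (.l1 .sk)) (.nx
  167 324 (.l1 (.ls 83 37 2288)) (.nr 200 524289 (.nr 198 370729 (.nr 192 185365 (.nx 172 41287
  (.lg 0 false 5 101 103 17 0 1275120) (.nr 191 110219 (.nr 177 257 (.lg 0 true 5 73 73 19 0 8280)
  (.nx 190 330282 (.nx 182 104033 (.lg 1 true 5 97 101 17 57303 1275120) (.nr 189 77937 (.nr 184
  2566 (.lg 0 true 2 83 83 16 0 3312) (.lg 1 true 5 89 97 17 16094 16560)) .out)) .out)) .out))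
  (.nx 197 13005 (.lg 0 false 5 97 101 17 0 1275120) .out)) (.nx 199 1292 (.lg 0 false 1 73 73 16 0
  1656) .out)) .out)))) .out) .out)))) (.na 266 32 (.na 233 31 (.nx 232 2097153 (.nr 231 1048577
  (.nr 204 26 .s1 (.nx 218 52017 (.nx 208 324 (.nx 206 207 (.nr 205 316 (.lg 0 false 1 31 31 13 0
  16560) (.l1 .sk)) (.nx 207 208 (.l1 .sk) (.l1 (.ls 83 31 2131)))) (.nr 217 524289 (.nr 212 185365
  (.lg 0 false 4 103 107 16 0 1506960) (.nx 216 13005 (.lg 0 false 4 97 97 16 0 16560) .out))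
  .out)) (.nr 230 92683 (.nr 225 918 (.lg 0 true 7 83 83 16 0 11592) (.nx 229 330282 (.lg 2 false 4
  97 101 16 38260 115920) .out)) .out))) .out) .out) (.nx 265 2097153 (.nr 264 1048577 (.nr 234 28
  .s1 (.nx 237 208 (.nx 236 207 (.nr 235 326 (.lg 0 false 1 29 29 13 0 16560) (.l1 .sk)) (.l1 .sk))
  (.nx 238 324 (.l1 (.ls 79 29 1993)) (.nr 263 524289 (.nr 258 185365 (.nx 245 52017 (.lg 0 false 7
  97 101 16 0 115920) (.nr 257 92683 (.nr 252 941 (.lg 0 true 7 79 79 16 0 11592) (.nx 256 330282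
  (.lg 2 false 4 97 97 16 38260 16560) .out)) .out)) (.nx 262 13005 (.lg 0 false 4 97 97 16 0
  16560) .out)) .out)))) .out) .out)) (.na 297 33 (.nx 296 2097153 (.nr 295 1048577 (.nr 267 29 .s1
  (.nx 283 52017 (.nx 271 324 (.nx 269 207 (.nr 268 336 (.lg 0 false 1 19 29 13 0 3312) (.l1 .sk))
  (.nx 270 208 (.l1 .sk) (.l1 (.ls 79 37 1931)))) (.nr 282 623489 (.nr 276 185365 (.lg 0 false 5 89
  97 19 0 16560) (.nx 281 13005 (.lg 0 false 5 89 97 19 0 16560) .out)) .out)) (.nr 294 92683 (.nr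
  288 964 (.lg 0 true 5 79 83 19 0 16560) (.nx 293 330282 (.lg 2 false 5 83 97 19 38260 16560)
  .out)) .out))) .out) .out) (.na 298 36 .ne (.nx 327 2097153 (.nr 326 881745 (.nr 299 34 .s1 (.nx
  302 208 (.nx 301 207 (.nr 300 397 (.l1 (.ls 37 41 1193)) (.l1 .sk)) (.l1 .sk)) (.nx 303 324 (.l1
  (.ls 89 41 1717)) (.nr 325 623489 (.nx 308 13005 (.lg 0 false 5 97 103 29 0 1506960) (.nr 324
  155873 (.nx 321 208065 (.nx 310 26009 (.lg 0 false 2 97 97 23 0 16560) (.nr 320 77937 (.nr 313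
  9546 (.nr 311 3307 (.lg 0 false 1 89 89 19 0 16560) (.nx 312 32769 (.lg 0 true 1 73 73 19 0 3312)
  (.lg 2 true 1 73 73 19 6512 3312))) (.nr 315 27556 (.lg 2 false 2 73 73 23 22870 3312) (.nx 319
  131073 (.nr 317 55110 (.lg 0 false 2 97 97 23 0 16560) (.nx 318 52017 (.lg 0 true 1 97 97 19 0
  16560) .out)) .out))) .out)) (.nr 323 257 (.lg 0 true 2 79 79 23 0 3312) .out)) .out)) .out))))
  .out) .out))))) (.na 440 52 (.na 377 46 (.na 353 41 (.nx 352 2097153 (.nr 351 881745 (.nr 329 37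
  .s1 (.nx 332 208 (.nx 331 207 (.nr 330 418 (.l1 (.ls 29 37 1101)) (.l1 .sk)) (.l1 .sk)) (.nx 333
  324 (.l1 (.ls 79 37 1585)) (.nr 350 623489 (.nx 340 26009 (.lg 0 false 7 97 101 19 0 1506960)
  (.nr 349 77937 (.nr 344 418 (.lg 0 true 4 73 73 17 0 43056) (.nx 348 208065 (.lg 2 false 4 89 97
  17 64372 215280) .out)) .out)) .out)))) .out) .out) (.nx 376 2097153 (.nr 375 881745 (.nr 354 39
  .s1 (.nx 365 32769 (.nx 355 324 (.l1 (.ls 79 31 2563)) (.nr 364 623489 (.nr 359 155873 (.lg 0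
  false 4 97 97 16 0 16560) (.nx 363 13005 (.lg 0 false 4 97 97 16 0 16560) .out)) .out)) (.nr 374
  65537 (.nr 369 469 (.lg 0 true 4 73 73 16 0 3312) (.nx 373 208065 (.lg 2 false 4 89 89 16 45917
  3312) .out)) .out))) .out) .out)) (.na 399 47 (.nx 398 2097153 (.nr 397 881745 (.nr 378 44 .s1
  (.nx 387 26009 (.nx 379 324 (.l1 (.ls 71 43 2285)) (.nr 386 741457 (.lg 0 false 7 83 83 17 0
  23184) .out)) (.nr 396 65537 (.nr 392 479 (.lg 0 true 5 61 61 13 0 16560) (.nx 395 208065 (.lg 2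
  true 3 79 79 13 54157 3312) .out)) .out))) .out) .out) (.na 418 48 (.nx 417 2097153 (.nr 416
  881745 (.nr 400 45 .s1 (.nx 407 26009 (.nx 401 324 (.l1 (.ls 73 29 2236)) (.nr 406 741457 (.lg 0
  false 5 97 97 16 0 8280) .out)) (.nr 415 65537 (.nr 412 489 (.lg 0 true 5 71 71 16 0 8280) (.nx
  414 208065 (.lg 2 true 2 89 89 16 54157 3312) .out)) .out))) .out) .out) (.nx 439 2097153 (.nr
  438 881745 (.nr 419 46 .s1 (.nx 421 207 (.nr 420 530 (.l1 (.ls 31 37 895)) (.l1 .sk)) (.nx 422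
  208 (.l1 .sk) (.nx 423 324 (.l1 (.ls 79 41 1288)) (.nr 437 741457 (.nx 428 16385 (.lg 0 false 5
  89 97 29 0 16560) (.nr 436 155873 (.nx 430 32769 (.lg 0 false 2 83 89 23 0 3312) (.nr 435 46342
  (.nx 432 208065 (.nr 431 1423 (.lg 0 false 1 73 73 19 0 3312) (.lg 2 true 1 89 89 19 30435 3312))
  (.nr 434 257 (.lg 0 true 2 71 71 23 0 3312) .out)) .out)) .out)) .out))))) .out) .out)))) (.na
  479 58 (.na 462 54 (.nx 461 2097153 (.nr 460 881745 (.nr 441 50 .s1 (.nx 444 208 (.nx 443 207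
  (.nr 442 550 (.l1 (.ls 31 37 827)) (.l1 .sk)) (.l1 .sk)) (.nx 457 208065 (.nx 454 32769 (.nx 445
  324 (.l1 (.ls 79 41 1189)) (.nr 453 741457 (.nx 450 16385 (.lg 0 false 5 89 97 29 0 215280) (.nr
  452 155873 (.lg 0 false 2 83 89 23 0 43056) .out)) .out)) (.nr 456 46342 (.nr 455 1463 (.lg 0
  false 1 73 73 19 0 43056) (.lg 2 true 1 89 89 19 30435 43056)) .out)) (.nr 459 257 (.lg 0 true 2
  71 71 23 0 43056) .out)))) .out) .out) (.nx 478 2097153 (.nr 477 881745 (.nr 463 53 .s1 (.nx 464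
  324 (.l1 (.ls 83 43 1946)) (.nr 476 741457 (.nx 473 208065 (.nx 470 32769 (.nr 466 155873 (.lg 0
  false 2 89 97 23 0 16560) (.nx 469 16385 (.lg 0 false 3 89 101 23 0 16560) .out)) (.nr 472 46342
  (.nr 471 1544 (.lg 0 false 1 79 79 19 0 16560) (.lg 2 false 1 89 89 19 30435 3312)) .out)) (.nr
  475 257 (.lg 0 true 2 71 71 29 0 3312) .out)) .out))) .out) .out)) (.na 498 59 (.nx 497 2097153
  (.nr 496 881745 (.nr 480 57 .s1 (.nx 481 324 (.l1 (.ls 73 41 1812)) (.nr 495 741457 (.nx 486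
  32769 (.lg 0 false 5 97 97 19 0 16560) (.nr 494 46342 (.nr 491 601 (.lg 0 true 5 71 71 19 0
  16560) (.nx 493 208065 (.lg 2 true 2 83 83 13 35832 3312) .out)) .out)) .out))) .out) .out) (.na
  518 62 (.nx 517 2097153 (.nr 516 881745 (.nr 499 58 .s1 (.nx 508 32769 (.nx 500 324 (.l1 (.ls 73
  29 1782)) (.nr 507 741457 (.lg 0 false 7 97 101 17 0 115920) .out)) (.nr 515 46342 (.nr 512 632
  (.lg 0 true 4 71 71 16 0 3312) (.nx 514 208065 (.lg 2 true 2 83 83 16 34074 16560) .out)) .out)))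
  .out) .out) (.nx 536 2097153 (.nr 535 881745 (.nr 519 61 .s1 (.nx 520 324 (.l1 (.ls 79 41 1696))
  (.nr 534 741457 (.nx 525 32769 (.lg 0 false 5 97 97 19 0 16560) (.nr 533 46342 (.nr 530 652 (.lg
  0 true 5 73 73 19 0 16560) (.nx 532 208065 (.lg 2 true 2 83 83 17 33029 3312) .out)) .out))
  .out))) .out) .out)))))) (.na 695 91 (.na 612 73 (.na 558 69 (.na 557 65 (.nx 556 2097153 (.nr
  555 2097153 (.nr 538 63 .s1 (.nx 550 32769 (.nx 542 324 (.nx 540 207 (.nr 539 662 (.l1 (.ls 31 31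
  672)) (.l1 .sk)) (.nx 541 208 (.l1 .sk) (.l1 (.ls 83 31 967)))) (.nr 549 1048577 (.nx 547 20644
  (.lg 0 false 5 89 101 23 0 115920) (.nr 548 110219 (.lg 0 true 1 89 89 17 0 16560) .out)) .out))
  (.nr 554 46342 (.nr 552 662 (.lg 0 true 2 73 73 19 0 3312) (.nx 553 208065 (.lg 2 true 1 83 83 17
  32530 3312) .out)) .out))) .out) .out) .ne) (.na 577 71 (.nx 576 2097153 (.nr 575 2097153 (.nr
  559 68 .s1 (.nx 570 131073 (.nx 560 324 (.l1 (.ls 73 37 1524)) (.nr 569 1048577 (.nr 564 65537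
  (.lg 0 false 4 79 79 17 0 16560) (.nx 568 20644 (.lg 0 true 4 83 83 17 0 16560) .out)) .out))
  (.nr 574 513 (.lg 0 true 4 61 61 17 0 3312) .out))) .out) .out) (.na 593 72 (.nx 592 2097153 (.nr
  591 2097153 (.nr 578 70 .s1 (.nx 579 324 (.l1 (.ls 83 29 1481)) (.nr 590 1048577 (.nx 583 20644
  (.lg 0 false 4 97 97 16 0 16560) (.nr 589 65537 (.nx 585 131073 (.lg 0 false 2 97 97 16 0 16560)
  (.nr 588 513 (.lg 0 true 3 67 67 16 0 1656) .out)) .out)) .out))) .out) .out) (.nx 611 2097153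
  (.nr 610 2097153 (.nr 594 71 .s1 (.nx 606 32769 (.nx 597 208 (.nx 596 207 (.nr 595 744 (.l1 (.ls
  37 37 598)) (.l1 .sk)) (.l1 .sk)) (.nx 598 324 (.l1 (.ls 89 37 860)) (.nr 605 1048577 (.nx 603
  20644 (.lg 0 false 5 101 107 37 0 16576560) (.nr 604 65537 (.lg 0 false 1 83 89 29 0 3312) .out))
  .out))) (.nr 609 32769 (.nr 607 513 (.lg 0 true 1 79 79 29 0 3312) (.nx 608 131073 (.lg 2 false 1
  83 89 29 26445 3312) .out)) .out))) .out) .out)))) (.na 644 81 (.na 628 78 (.nx 627 2097153 (.nr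
  626 2097153 (.nr 613 72 .s1 (.nx 620 32769 (.nx 614 324 (.l1 (.ls 71 29 1441)) (.nr 619 1048577
  (.lg 0 false 5 97 97 16 0 16560) .out)) (.nr 625 32769 (.nr 623 513 (.lg 0 true 3 61 61 16 0
  1656) (.nx 624 131073 (.lg 2 true 1 79 79 16 26445 3312) .out)) .out))) .out) .out) (.nx 643
  2097153 (.nr 642 2097153 (.nr 629 77 .s1 (.nx 636 32769 (.nx 630 324 (.l1 (.ls 79 43 1348)) (.nr
  635 1048577 (.lg 0 false 5 97 97 31 0 215280) .out)) (.nr 641 32769 (.nr 639 513 (.lg 0 true 3 67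
  67 29 0 43056) (.nx 640 131073 (.lg 2 true 1 79 79 23 26445 43056) .out)) .out))) .out) .out))
  (.na 663 82 (.nx 662 2097153 (.nr 661 2097153 (.nr 645 80 .s1 (.nx 649 324 (.nx 647 207 (.nr 646
  836 (.l1 (.ls 31 29 531)) (.l1 .sk)) (.nx 648 208 (.l1 .sk) (.l1 (.ls 83 29 764)))) (.nr 660
  1048577 (.nx 653 20644 (.lg 0 false 4 89 101 29 0 215280) (.nr 659 65537 (.nx 654 32769 (.lg 0
  false 1 83 83 19 0 16560) (.nr 658 32769 (.nr 656 513 (.lg 0 true 2 73 73 19 0 3312) (.nx 657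
  131073 (.lg 2 true 1 83 83 17 26445 16560) .out)) .out)) .out)) .out))) .out) .out) (.na 679 87
  (.nx 678 2097153 (.nr 677 2097153 (.nr 664 81 .s1 (.nx 665 324 (.l1 (.ls 79 37 1283)) (.nr 676
  1048577 (.nx 670 32769 (.lg 0 false 5 97 97 23 0 16560) (.nr 675 32769 (.nr 673 513 (.lg 0 true 3
  67 67 19 0 3312) (.nx 674 131073 (.lg 2 true 1 79 79 13 26445 3312) .out)) .out)) .out))) .out)
  .out) (.nx 694 2097153 (.nr 693 2097153 (.nr 680 86 .s1 (.nx 687 32769 (.nx 681 324 (.l1 (.ls 79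
  37 1209)) (.nr 686 1048577 (.lg 0 false 5 89 89 19 0 8280) .out)) (.nr 692 32769 (.nr 690 513
  (.lg 0 true 3 67 67 17 0 1656) (.nx 691 131073 (.lg 2 true 1 73 73 16 26445 1656) .out)) .out)))
  .out) .out))))) (.na 756 101 (.na 712 93 (.na 696 92 .ne (.nx 711 2097153 (.nr 710 2097153 (.nr
  697 91 .s1 (.nx 704 32769 (.nx 698 324 (.l1 (.ls 73 41 1144)) (.nr 703 1048577 (.lg 0 false 5 83
  89 19 0 16560) .out)) (.nr 709 32769 (.nr 707 513 (.lg 0 true 3 61 61 19 0 3312) (.nx 708 131073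
  (.lg 2 true 1 71 71 17 26445 3312) .out)) .out))) .out) .out)) (.na 728 94 (.nx 727 2097153 (.nr
  726 2097153 (.nr 713 92 .s1 (.nx 714 324 (.l1 (.ls 79 29 1131)) (.nr 725 1048577 (.nx 719 32769
  (.lg 0 false 5 89 89 19 0 8280) (.nr 724 32769 (.nr 722 513 (.lg 0 true 3 67 67 17 0 1656) (.nx
  723 131073 (.lg 2 true 1 73 73 16 26445 1656) .out)) .out)) .out))) .out) .out) (.na 744 96 (.nx
  743 2097153 (.nr 742 2097153 (.nr 729 93 .s1 (.nx 738 32769 (.nx 730 324 (.l1 (.ls 83 37 1119))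
  (.nr 737 1048577 (.lg 0 false 7 97 97 23 0 115920) .out)) (.nr 741 32769 (.nr 739 513 (.lg 0
  false 1 79 79 17 0 16560) (.nx 740 131073 (.lg 2 true 1 79 79 17 26445 16560) .out)) .out)))
  .out) .out) (.nx 755 2097153 (.nr 754 2097153 (.nr 745 95 .s1 (.nx 751 131073 (.nx 746 324 (.l1
  (.ls 83 41 1096)) (.nr 750 1048577 (.nx 748 20644 (.lg 0 false 2 97 97 29 0 16560) (.nr 749 65537
  (.lg 0 false 1 97 97 23 0 16560) .out)) .out)) (.nr 753 513 (.lg 0 true 2 71 71 29 0 3312)
  .out))) .out) .out)))) (.na 803 116 (.na 771 104 (.nx 770 2097153 (.nr 769 2097153 (.nr 757 100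
  .s1 (.nx 766 131073 (.nx 758 324 (.l1 (.ls 73 23 1042)) (.nr 765 1048577 (.nx 762 20644 (.lg 0
  false 4 83 83 17 0 16560) (.nr 764 65537 (.lg 0 false 2 83 83 16 0 16560) .out)) .out)) (.nr 768
  513 (.lg 0 true 2 61 61 16 0 3312) .out))) .out) .out) (.na 787 108 (.nx 786 2097153 (.nr 785
  2097153 (.nr 772 104 .s1 (.nx 775 208 (.nx 774 207 (.nr 773 1100 (.l1 (.ls 41 31 415)) (.l1 .sk))
  (.l1 .sk)) (.nx 783 131073 (.nx 776 324 (.l1 (.ls 97 37 596)) (.nr 782 1048577 (.nx 778 20644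
  (.lg 0 false 2 101 101 31 0 215280) (.nr 781 65537 (.nr 779 32769 (.lg 0 false 1 97 97 29 0
  215280) (.nx 780 32769 (.lg 0 false 1 83 83 29 0 215280) .out)) .out)) .out)) (.nr 784 513 (.lg 0
  true 1 79 79 29 0 43056) .out)))) .out) .out) (.nx 802 2097153 (.nr 801 2097153 (.nr 788 108 .s1
  (.nx 791 208 (.nx 790 207 (.nr 789 1182 (.l1 (.ls 37 31 399)) (.l1 .sk)) (.l1 .sk)) (.nx 795
  20644 (.nx 792 324 (.l1 (.ls 83 37 574)) (.nr 794 1048577 (.lg 0 false 2 89 101 31 0 43056)
  .out)) (.nr 800 65537 (.nx 796 32769 (.lg 0 false 1 73 79 29 0 3312) (.nr 799 32769 (.nr 797 513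
  (.lg 0 true 1 71 71 31 0 3312) (.nx 798 131073 (.lg 1 true 1 83 83 29 26445 3312) .out)) .out))
  .out)))) .out) .out))) (.na 815 117 (.nx 814 2097153 (.nr 813 2097153 (.nr 804 116 .s1 (.nx 810
  131073 (.nx 805 324 (.l1 (.ls 83 37 907)) (.nr 809 1048577 (.nx 807 20644 (.lg 0 false 2 97 97 23
  0 16560) (.nr 808 65537 (.lg 0 false 1 97 97 19 0 16560) .out)) .out)) (.nr 812 513 (.lg 0 true 2
  71 71 23 0 3312) .out))) .out) .out) (.na 826 118 (.nx 825 2097153 (.nr 824 2097153 (.nr 816 117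
  .s1 (.nx 817 324 (.l1 (.ls 83 31 900)) (.nr 823 1048577 (.nx 819 20644 (.lg 0 false 2 89 97 29 0
  43056) (.nr 822 65537 (.nx 820 131073 (.lg 0 true 1 89 97 23 0 43056) (.nr 821 513 (.lg 0 true 1
  71 71 23 0 21528) .out)) .out)) .out))) .out) .out) (.nx 840 2097153 (.nr 839 2097153 (.nr 827
  118 .s1 (.nx 834 32769 (.nx 828 324 (.l1 (.ls 79 31 892)) (.nr 833 1048577 (.lg 0 false 5 89 89
  23 0 16560) .out)) (.nr 838 32769 (.nr 836 513 (.lg 0 true 2 61 61 19 0 3312) (.nx 837 131073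
  (.lg 2 true 1 73 73 19 26445 3312) .out)) .out))) .out) .out))))))) (.na 1084 169 (.na 960 142
  (.na 899 131 (.na 868 127 (.na 856 124 (.nx 855 2097153 (.nr 854 2097153 (.nr 842 123 .s1 (.nx
  849 32769 (.nx 843 324 (.l1 (.ls 73 29 856)) (.nr 848 1048577 (.lg 0 false 5 83 83 23 0 8280)
  .out)) (.nr 853 32769 (.nr 851 513 (.lg 0 true 2 61 61 17 0 3312) (.nx 852 131073 (.lg 2 true 1
  71 71 17 26445 3312) .out)) .out))) .out) .out) (.nx 867 2097153 (.nr 866 2097153 (.nr 857 124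
  .s1 (.nx 858 324 (.l1 (.ls 83 29 849)) (.nr 865 1048577 (.nx 862 131073 (.nx 860 20644 (.lg 0
  false 2 97 97 23 0 16560) (.nr 861 65537 (.lg 0 false 1 97 97 19 0 16560) .out)) (.nr 864 513
  (.lg 0 true 2 71 71 23 0 3312) .out)) .out))) .out) .out)) (.na 883 128 (.nx 882 2097153 (.nr 881
  2097153 (.nr 869 127 .s1 (.nx 876 32769 (.nx 870 324 (.l1 (.ls 71 23 829)) (.nr 875 1048577 (.lg
  0 false 5 83 83 17 0 8280) .out)) (.nr 880 32769 (.nr 878 513 (.lg 0 true 2 61 61 16 0 3312) (.nx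
  879 131073 (.lg 2 true 1 71 71 16 26445 23184) .out)) .out))) .out) .out) (.na 898 129 (.nx 897
  2097153 (.nr 896 2097153 (.nr 884 128 .s1 (.nx 885 324 (.l1 (.ls 73 31 823)) (.nr 895 1482912
  (.nx 890 20644 (.lg 0 false 5 79 89 29 0 16560) (.nr 894 65537 (.nx 891 131073 (.lg 0 true 1 83
  83 19 0 3312) (.nr 893 1025 (.lg 0 true 2 71 71 23 0 3312) .out)) .out)) .out))) .out) .out)
  .ne))) (.na 915 138 (.na 914 137 (.nx 913 1048577 (.nr 912 1482912 (.nr 900 131 .s1 (.nx 903 208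
  (.nx 902 207 (.nr 901 1396 (.l1 (.ls 19 19 330)) (.l1 .sk)) (.l1 .sk)) (.nx 907 16385 (.lg 0
  false 4 79 79 17 0 3312) (.nr 911 65537 (.nx 909 131073 (.lg 0 true 2 79 79 16 0 16560) (.nr 910
  1025 (.lg 0 false 1 67 67 16 0 1656) .out)) .out)))) .out) .out) (.lg 0 false 1 0 0 16 0 24))
  (.na 932 139 (.nx 931 1048577 (.nr 930 1482912 (.nr 916 138 .s1 (.nx 919 208 (.nx 918 207 (.nr
  917 1416 (.l1 (.ls 16 37 313)) (.l1 .sk)) (.l1 .sk)) (.nx 924 32769 (.lg 0 false 5 79 79 31 0
  16560) (.nr 929 16385 (.lg 0 true 5 71 71 31 0 16560) .out)))) .out) .out) (.na 946 141 (.nx 945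
  1048577 (.nr 944 1482912 (.nr 933 139 .s1 (.nx 936 208 (.nx 935 207 (.nr 934 1437 (.l1 (.ls 19 19
  311)) (.l1 .sk)) (.l1 .sk)) (.nx 940 32769 (.lg 0 false 4 89 89 17 0 16560) (.nr 943 16385 (.nr
  941 1025 (.lg 0 false 1 71 71 16 0 16560) (.nx 942 131073 (.lg 2 true 1 59 59 16 13236 1656)
  .out)) .out)))) .out) .out) (.nx 959 1048577 (.nr 958 1482912 (.nr 947 141 .s1 (.nx 950 208 (.nx
  949 207 (.nr 948 1447 (.l1 (.ls 17 23 306)) (.l1 .sk)) (.l1 .sk)) (.nx 954 32769 (.lg 0 false 4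
  89 89 19 0 16560) (.nr 957 16385 (.nr 955 1025 (.lg 0 false 1 71 71 17 0 1656) (.nx 956 131073
  (.lg 2 true 1 61 61 17 13236 1656) .out)) .out)))) .out) .out))))) (.na 1018 156 (.na 990 146
  (.na 975 144 (.nx 974 1048577 (.nr 973 1482912 (.nr 961 142 .s1 (.nx 964 208 (.nx 963 207 (.nr
  962 1467 (.l1 (.ls 17 29 304)) (.l1 .sk)) (.l1 .sk)) (.nx 969 32769 (.lg 0 false 5 89 89 29 0
  16560) (.nr 972 16385 (.nr 970 1025 (.lg 0 false 1 71 71 19 0 3312) (.nx 971 131073 (.lg 2 true 1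
  59 59 19 13236 3312) .out)) .out)))) .out) .out) (.nx 989 1048577 (.nr 988 1482912 (.nr 976 144
  .s1 (.nx 986 131073 (.nx 984 32769 (.nx 978 207 (.nr 977 1488 (.l1 (.ls 41 31 300)) (.l1 .sk))
  (.nx 979 208 (.l1 .sk) (.nr 980 65537 (.lg 0 false 1 83 89 31 0 16560) (.nx 983 16385 (.nr 981
  1048577 (.lg 0 false 1 97 97 31 0 16560) (.nx 982 8192 .out (.lg 0 false 1 83 89 31 0 16560)))
  .out)))) (.nr 985 16385 (.lg 0 true 1 79 89 31 0 16560) .out)) (.nr 987 1025 (.lg 0 true 1 73 79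
  31 0 16560) .out))) .out) .out)) (.na 1003 149 (.nx 1002 1048577 (.nr 1001 1482912 (.nr 991 146
  .s1 (.nx 999 131073 (.nx 993 207 (.nr 992 1518 (.l1 (.ls 29 29 296)) (.l1 .sk)) (.nx 994 208 (.l1
  .sk) (.nr 995 65537 (.lg 0 false 1 89 89 19 0 16560) (.nx 998 16385 (.lg 0 false 3 89 89 23 0
  16560) .out)))) (.nr 1000 1025 (.lg 0 false 1 73 73 19 0 16560) .out))) .out) .out) (.na 1004 151
  (.lg 0 false 1 0 0 16 0 24) (.nx 1017 1048577 (.nr 1016 1482912 (.nr 1005 151 .s1 (.nx 1012 32769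
  (.nx 1007 207 (.nr 1006 1589 (.l1 (.ls 17 19 286)) (.l1 .sk)) (.nx 1008 208 (.l1 .sk) (.lg 0
  false 4 83 83 17 0 16560))) (.nr 1015 16385 (.nr 1013 1025 (.lg 0 false 1 67 67 16 0 1656) (.nx
  1014 131073 (.lg 2 true 1 59 59 16 13236 16560) .out)) .out))) .out) .out)))) (.na 1042 163 (.na
  1030 157 (.nx 1029 1048577 (.nr 1028 1482912 (.nr 1019 156 .s1 (.nx 1026 131073 (.nx 1021 207
  (.nr 1020 1600 (.l1 (.ls 31 37 277)) (.l1 .sk)) (.nx 1022 208 (.l1 .sk) (.nx 1024 16385 (.lg 0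
  false 2 89 89 37 0 43056) (.nr 1025 65537 (.lg 0 false 1 89 89 31 0 215280) .out)))) (.nr 1027
  1025 (.lg 0 true 1 71 71 31 0 43056) .out))) .out) .out) (.na 1031 162 (.lg 0 false 1 0 0 16 0
  24) (.nx 1041 1048577 (.nr 1040 1482912 (.nr 1032 162 .s1 (.nx 1038 131073 (.nx 1034 207 (.nr
  1033 1661 (.l1 (.ls 31 31 267)) (.l1 .sk)) (.nx 1035 208 (.l1 .sk) (.nr 1036 65537 (.lg 0 true 1
  83 89 29 0 3312) (.nx 1037 16385 (.lg 0 false 1 89 89 31 0 3312) .out)))) (.nr 1039 1025 (.lg 0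
  true 1 71 71 29 0 3312) .out))) .out) .out))) (.na 1057 164 (.nx 1056 1048577 (.nr 1055 1482912
  (.nr 1043 163 .s1 (.nx 1051 32769 (.nx 1045 207 (.nr 1044 1671 (.l1 (.ls 16 17 265)) (.l1 .sk))
  (.nx 1046 208 (.l1 .sk) (.lg 0 false 5 79 79 19 0 8280))) (.nr 1054 16385 (.nr 1052 1025 (.lg 0
  false 1 61 61 16 0 3312) (.nx 1053 131073 (.lg 2 true 1 53 53 16 13236 1656) .out)) .out))) .out)
  .out) (.na 1069 167 (.nx 1068 1048577 (.nr 1067 1482912 (.nr 1058 164 .s1 (.nx 1065 131073 (.nx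
  1060 207 (.nr 1059 1701 (.l1 (.ls 31 29 264)) (.l1 .sk)) (.nx 1061 208 (.l1 .sk) (.nx 1063 16385
  (.lg 0 false 2 97 97 29 0 16560) (.nr 1064 65537 (.lg 0 false 1 89 89 23 0 16560) .out)))) (.nr
  1066 1025 (.lg 0 true 1 71 71 23 0 3312) .out))) .out) .out) (.nx 1083 1048577 (.nr 1082 1482912
  (.nr 1070 167 .s1 (.nx 1078 32769 (.nx 1072 207 (.nr 1071 1722 (.l1 (.ls 16 17 259)) (.l1 .sk))
  (.nx 1073 208 (.l1 .sk) (.lg 0 false 5 79 79 19 0 8280))) (.nr 1081 16385 (.nr 1079 1025 (.lg 0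
  false 1 61 61 16 0 1656) (.nx 1080 131073 (.lg 2 false 1 53 53 16 13236 1656) .out)) .out)))
  .out) .out)))))) (.na 1193 191 (.na 1155 181 (.na 1113 174 (.na 1098 173 (.nx 1097 1048577 (.nr
  1096 1482912 (.nr 1085 169 .s1 (.nx 1092 32769 (.nx 1087 207 (.nr 1086 1763 (.l1 (.ls 29 19 256))
  (.l1 .sk)) (.nx 1088 208 (.l1 .sk) (.lg 0 false 4 89 89 19 0 215280))) (.nr 1095 16385 (.nr 1093
  1025 (.lg 0 false 1 71 71 17 0 215280) (.nx 1094 131073 (.lg 2 false 1 59 59 17 13236 21528)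
  .out)) .out))) .out) .out) (.nx 1112 1048577 (.nr 1111 1482912 (.nr 1099 173 .s1 (.nx 1102 208
  (.nx 1101 207 (.nr 1100 1773 (.l1 (.ls 16 17 250)) (.l1 .sk)) (.l1 .sk)) (.nx 1107 32769 (.lg 0
  false 5 79 79 19 0 8280) (.nr 1110 16385 (.nr 1108 1025 (.lg 0 false 1 61 61 16 0 3312) (.nx 1109
  131073 (.lg 2 false 1 53 53 16 13236 1656) .out)) .out)))) .out) .out)) (.na 1126 177 (.nx 1125
  1048577 (.nr 1124 1482912 (.nr 1114 174 .s1 (.nx 1116 207 (.nr 1115 1803 (.l1 (.ls 19 37 249))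
  (.l1 .sk)) (.nx 1117 208 (.l1 .sk) (.nx 1120 32769 (.lg 0 false 3 89 89 37 0 16560) (.nr 1123
  16385 (.nr 1121 1025 (.lg 0 false 1 71 71 23 0 16560) (.nx 1122 131073 (.lg 2 true 1 61 61 23
  13236 3312) .out)) .out))))) .out) .out) (.na 1141 179 (.nx 1140 1048577 (.nr 1139 1482912 (.nr
  1127 177 .s1 (.nx 1135 32769 (.nx 1129 207 (.nr 1128 1824 (.l1 (.ls 16 23 245)) (.l1 .sk)) (.nx
  1130 208 (.l1 .sk) (.lg 0 false 5 83 83 23 0 8280))) (.nr 1138 16385 (.nr 1136 1025 (.lg 0 false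
  1 67 67 17 0 3312) (.nx 1137 131073 (.lg 2 true 1 59 59 17 13236 1656) .out)) .out))) .out) .out)
  (.nx 1154 1048577 (.nr 1153 1482912 (.nr 1142 179 .s1 (.nx 1145 208 (.nx 1144 207 (.nr 1143 1844
  (.l1 (.ls 17 17 242)) (.l1 .sk)) (.l1 .sk)) (.nx 1149 32769 (.lg 0 false 4 83 83 19 0 16560) (.nr
  1152 16385 (.nr 1150 1025 (.lg 0 false 1 61 61 16 0 1656) (.nx 1151 131073 (.lg 2 true 1 53 53 16
  13236 1656) .out)) .out)))) .out) .out)))) (.na 1157 184 (.na 1156 182 (.lg 0 false 1 0 0 16 0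
  24) .ne) (.na 1169 186 (.nx 1168 1048577 (.nr 1167 1048577 (.nr 1158 184 .s1 (.nx 1165 131073
  (.nx 1160 207 (.nr 1159 1895 (.l1 (.ls 29 31 235)) (.l1 .sk)) (.nx 1161 208 (.l1 .sk) (.nr 1162
  65537 (.lg 0 false 1 83 83 19 0 16560) (.nx 1164 16385 (.lg 0 false 2 83 83 31 0 16560) .out))))
  (.nr 1166 1025 (.lg 0 true 1 67 67 19 0 3312) .out))) .out) .out) (.na 1181 188 (.nx 1180 1048577
  (.nr 1179 1048577 (.nr 1170 186 .s1 (.nx 1173 208 (.nx 1172 207 (.nr 1171 1915 (.l1 (.ls 19 29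
  233)) (.l1 .sk)) (.l1 .sk)) (.nx 1175 32769 (.lg 0 true 2 89 89 29 0 16560) (.nr 1178 16385 (.nr
  1176 1025 (.lg 0 false 1 71 71 29 0 16560) (.nx 1177 131073 (.lg 2 false 1 61 61 29 13236 16560)
  .out)) .out)))) .out) .out) (.nx 1192 1048577 (.nr 1191 1048577 (.nr 1182 188 .s1 (.nx 1184 207
  (.nr 1183 1946 (.l1 (.ls 29 29 230)) (.l1 .sk)) (.nx 1185 208 (.l1 .sk) (.nx 1189 131073 (.nr
  1186 65537 (.lg 0 false 1 83 83 23 0 3312) (.nx 1188 16385 (.lg 0 false 2 83 89 29 0 3312) .out))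
  (.nr 1190 1025 (.lg 0 true 1 67 67 23 0 3312) .out))))) .out) .out))))) (.na 1231 202 (.na 1206
  193 (.na 1194 192 (.lg 0 false 1 0 0 16 0 24) (.nx 1205 1048577 (.nr 1204 1048577 (.nr 1195 192
  .s1 (.nx 1198 208 (.nx 1197 207 (.nr 1196 1966 (.l1 (.ls 29 31 226)) (.l1 .sk)) (.l1 .sk)) (.nx
  1202 131073 (.nr 1199 65537 (.lg 0 true 1 79 79 29 0 3312) (.nx 1201 16385 (.lg 0 false 2 79 83
  31 0 3312) .out)) (.nr 1203 1025 (.lg 0 true 1 61 61 29 0 3312) .out)))) .out) .out)) (.na 1218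
  197 (.nx 1217 1048577 (.nr 1216 1048577 (.nr 1207 193 .s1 (.nx 1209 207 (.nr 1208 2007 (.l1 (.ls
  16 17 225)) (.l1 .sk)) (.nx 1210 208 (.l1 .sk) (.nx 1212 32769 (.lg 0 false 2 79 79 17 0 3312)
  (.nr 1215 16385 (.nr 1213 1025 (.lg 0 false 1 61 61 16 0 3312) (.nx 1214 131073 (.lg 2 true 1 53
  53 16 13236 3312) .out)) .out))))) .out) .out) (.na 1230 199 (.nx 1229 1048577 (.nr 1228 1048577
  (.nr 1219 197 .s1 (.nx 1222 208 (.nx 1221 207 (.nr 1220 2027 (.l1 (.ls 16 17 220)) (.l1 .sk))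
  (.l1 .sk)) (.nx 1224 32769 (.lg 0 false 2 79 79 17 0 3312) (.nr 1227 16385 (.nr 1225 1025 (.lg 0
  false 1 61 61 16 0 3312) (.nx 1226 131073 (.lg 2 false 1 53 53 16 13236 1656) .out)) .out))))
  .out) .out) (.lg 0 false 1 0 0 16 0 24)))) (.na 1263 211 (.na 1241 207 (.nx 1240 1048577 (.nr
  1239 1048577 (.nr 1232 202 .s1 (.nx 1235 208 (.nx 1234 207 (.nr 1233 2109 (.l1 (.ls 17 23 215))
  (.l1 .sk)) (.l1 .sk)) (.nx 1237 32769 (.lg 0 false 2 79 79 23 0 3312) (.nr 1238 16385 (.lg 0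
  false 1 79 79 23 0 3312) .out)))) .out) .out) (.na 1252 208 (.nx 1251 1048577 (.nr 1250 1048577
  (.nr 1242 207 .s1 (.nx 1245 208 (.nx 1244 207 (.nr 1243 2119 (.l1 (.ls 17 19 209)) (.l1 .sk))
  (.l1 .sk)) (.nr 1248 65537 (.nx 1246 131073 (.lg 0 false 1 73 73 19 0 1656) (.nr 1247 1025 (.lg 0
  true 1 59 59 19 0 1656) .out)) (.nx 1249 16385 (.lg 0 true 1 79 79 19 0 3312) .out)))) .out)
  .out) (.nx 1262 1048577 (.nr 1261 1048577 (.nr 1253 208 .s1 (.nx 1256 208 (.nx 1255 207 (.nr 1254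
  2150 (.l1 (.ls 37 29 209)) (.l1 .sk)) (.l1 .sk)) (.nr 1259 65537 (.nx 1257 131073 (.lg 0 true 1
  83 89 31 0 43056) (.nr 1258 1025 (.lg 0 true 1 71 71 31 0 43056) .out)) (.nx 1260 16385 (.lg 0
  false 1 89 89 31 0 43056) .out)))) .out) .out))) (.na 1273 213 (.nx 1272 1048577 (.nr 1271
  1048577 (.nr 1264 211 .s1 (.nx 1267 208 (.nx 1266 207 (.nr 1265 2170 (.l1 (.ls 17 17 206)) (.l1
  .sk)) (.l1 .sk)) (.nx 1269 32769 (.lg 0 true 2 83 83 17 0 16560) (.nr 1270 16385 (.lg 0 false 1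
  83 83 16 0 16560) .out)))) .out) .out) (.na 1285 216 (.nx 1284 1048577 (.nr 1283 1048577 (.nr
  1274 213 .s1 (.nx 1277 208 (.nx 1276 207 (.nr 1275 2201 (.l1 (.ls 16 23 204)) (.l1 .sk)) (.l1
  .sk)) (.nx 1279 32769 (.lg 0 false 2 79 79 19 0 3312) (.nr 1282 16385 (.nr 1280 1025 (.lg 0 false
  1 59 59 19 0 3312) (.nx 1281 131073 (.lg 2 true 1 47 47 19 13236 1656) .out)) .out)))) .out)
  .out) (.nx 1297 1048577 (.nr 1296 1048577 (.nr 1286 216 .s1 (.nx 1292 32769 (.nx 1288 207 (.nr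
  1287 2231 (.l1 (.ls 43 31 201)) (.l1 .sk)) (.nx 1289 208 (.l1 .sk) (.nx 1290 16385 (.lg 0 false 1
  101 103 37 0 1506960) (.nr 1291 65537 (.lg 0 false 1 73 83 37 0 16560) .out)))) (.nr 1295 16385
  (.nr 1293 1025 (.lg 0 true 1 73 79 41 0 16560) (.nx 1294 131073 (.lg 1 true 1 73 83 37 13236
  16560) .out)) .out))) .out) .out))))))))

def T48_1 : Ph :=
  (.na 470 201 (.na 245 150 (.na 136 127 (.na 71 117 (.na 29 105 (.na 14 102 (.nx 13 2097153 (.nr
  12 2097153 (.nr 1 101 .s1 (.nx 7 20644 (.nx 2 324 (.l1 (.ls 73 23 1042)) (.nr 6 1048577 (.lg 0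
  false 4 83 83 17 0 26640) .out)) (.nr 11 65537 (.nr 9 513 (.lg 0 true 2 67 67 16 0 26640) (.nx 10
  131073 (.lg 2 true 1 83 83 16 54481 93240) .out)) .out))) .out) .out) (.nx 28 2097153 (.nr 27
  2097153 (.nr 15 102 .s1 (.nx 18 186 (.nx 17 185 (.nr 16 1012 (.l1 (.ls 31 37 338)) (.l1 .sk))
  (.l1 .sk)) (.nx 19 324 (.l1 (.ls 89 41 693)) (.nr 26 1048577 (.nx 21 20644 (.lg 0 false 2 101 101
  31 0 26640) (.nr 25 65537 (.nr 23 513 (.lg 0 true 2 73 73 31 0 26640) (.nx 24 131073 (.lg 2 true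
  1 97 97 29 54481 26640) .out)) .out)) .out)))) .out) .out)) (.na 46 107 (.nx 45 2097153 (.nr 44
  2097153 (.nr 30 105 .s1 (.nx 33 186 (.nx 32 185 (.nr 31 1031 (.l1 (.ls 29 31 328)) (.l1 .sk))
  (.l1 .sk)) (.nx 39 20644 (.nx 34 324 (.l1 (.ls 83 37 673)) (.nr 38 1048577 (.lg 0 false 4 89 97
  31 0 186480) .out)) (.nr 43 65537 (.nr 41 513 (.lg 0 true 2 73 73 29 0 186480) (.nx 42 131073
  (.lg 2 true 1 83 83 23 54481 93240) .out)) .out)))) .out) .out) (.na 59 114 (.nx 58 2097153 (.nr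
  57 2097153 (.nr 47 107 .s1 (.nx 53 20644 (.nx 48 324 (.l1 (.ls 79 23 984)) (.nr 52 1048577 (.lg 0
  false 4 89 89 17 0 186480) .out)) (.nr 56 65537 (.nr 54 513 (.lg 0 false 1 73 73 16 0 93240) (.nx
  55 131073 (.lg 2 true 1 83 83 16 54481 93240) .out)) .out))) .out) .out) (.nx 70 2097153 (.nr 69
  2097153 (.nr 60 114 .s1 (.nx 61 324 (.l1 (.ls 89 41 923)) (.nr 68 1048577 (.nx 63 20644 (.lg 0
  false 2 101 101 31 0 186480) (.nr 67 65537 (.nr 65 513 (.lg 0 true 2 73 73 31 0 26640) (.nx 66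
  131073 (.lg 2 true 1 97 97 31 54481 186480) .out)) .out)) .out))) .out) .out)))) (.na 111 123
  (.na 85 118 (.nx 84 2097153 (.nr 83 2097153 (.nr 72 117 .s1 (.nx 73 324 (.l1 (.ls 83 31 900))
  (.nr 82 1048577 (.nx 77 20644 (.lg 0 false 4 89 97 29 0 2424240) (.nr 81 65537 (.nr 79 513 (.lg 0
  true 2 73 73 23 0 346320) (.nx 80 131073 (.lg 2 true 1 89 89 19 54481 1212120) .out)) .out))
  .out))) .out) .out) (.na 98 119 (.nx 97 2097153 (.nr 96 2097153 (.nr 86 118 .s1 (.nx 91 20644
  (.nx 87 324 (.l1 (.ls 83 31 892)) (.nr 90 1048577 (.lg 0 false 3 89 89 23 0 26640) .out)) (.nr 95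
  65537 (.nr 93 513 (.lg 0 true 2 67 67 19 0 26640) (.nx 94 131073 (.lg 2 true 1 89 89 19 54481
  26640) .out)) .out))) .out) .out) (.nx 110 2097153 (.nr 109 2097153 (.nr 99 119 .s1 (.nx 100 324
  (.l1 (.ls 83 31 885)) (.nr 108 1048577 (.nx 103 20644 (.lg 0 false 3 89 97 23 0 93240) (.nr 107
  65537 (.nr 105 513 (.lg 0 true 2 73 73 23 0 186480) (.nx 106 131073 (.lg 2 true 1 89 89 16 54481
  93240) .out)) .out)) .out))) .out) .out))) (.na 123 125 (.nx 122 2097153 (.nr 121 2097153 (.nr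
  112 123 .s1 (.nx 113 324 (.l1 (.ls 83 29 856)) (.nr 120 1048577 (.nx 115 20644 (.lg 0 false 2 97
  97 19 0 26640) (.nr 119 65537 (.nr 117 513 (.lg 0 true 2 73 73 19 0 26640) (.nx 118 131073 (.lg 2
  true 1 89 89 17 54481 13320) .out)) .out)) .out))) .out) .out) (.na 124 126 (.lg 0 false 1 0 0 16
  0 24) (.nx 135 2097153 (.nr 134 2097153 (.nr 125 126 .s1 (.nx 126 324 (.l1 (.ls 89 41 836)) (.nr
  133 1048577 (.nx 128 20644 (.lg 0 false 2 97 97 31 0 186480) (.nr 132 65537 (.nr 130 513 (.lg 0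
  true 2 73 73 31 0 186480) (.nx 131 131073 (.lg 2 true 1 89 89 31 54481 186480) .out)) .out))
  .out))) .out) .out))))) (.na 191 134 (.na 150 130 (.na 149 128 (.nx 148 2097153 (.nr 147 2097153
  (.nr 137 127 .s1 (.nx 138 324 (.l1 (.ls 73 23 829)) (.nr 146 1048577 (.nx 141 20644 (.lg 0 false
  3 79 79 17 0 13320) (.nr 145 65537 (.nr 143 513 (.lg 0 true 2 61 61 16 0 26640) (.nx 144 131073
  (.lg 2 true 1 79 79 16 54481 13320) .out)) .out)) .out))) .out) .out) .ne) (.na 164 131 (.nx 163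
  1048577 (.nr 162 1482912 (.nr 151 130 .s1 (.nx 160 131073 (.nx 153 185 (.nr 152 1262 (.l1 (.ls 23
  31 266)) (.l1 .sk)) (.nx 154 186 (.l1 .sk) (.nr 156 65537 (.lg 0 false 2 83 83 29 0 346320) (.nx
  159 16385 (.lg 0 false 3 89 89 31 0 346320) .out)))) (.nr 161 1025 (.lg 0 false 1 73 73 29 0
  2424240) .out))) .out) .out) (.na 178 133 (.nx 177 1048577 (.nr 176 1482912 (.nr 165 131 .s1 (.nx
  172 32769 (.nx 167 185 (.nr 166 1281 (.l1 (.ls 19 17 264)) (.l1 .sk)) (.nx 168 186 (.l1 .sk) (.lg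
  0 false 4 89 89 17 0 186480))) (.nr 175 16385 (.nr 173 1025 (.lg 0 false 1 71 71 16 0 93240) (.nx
  174 131073 (.lg 2 true 1 61 61 16 11829 93240) .out)) .out))) .out) .out) (.nx 190 1048577 (.nr
  189 1482912 (.nr 179 133 .s1 (.nx 187 131073 (.nx 181 185 (.nr 180 1291 (.l1 (.ls 17 23 260))
  (.l1 .sk)) (.nx 182 186 (.l1 .sk) (.nx 185 16385 (.lg 0 false 3 89 97 23 0 93240) (.nr 186 65537
  (.lg 0 false 1 97 97 17 0 93240) .out)))) (.nr 188 1025 (.lg 0 true 1 73 73 17 0 93240) .out)))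
  .out) .out)))) (.na 207 141 (.na 205 137 (.nx 204 1048577 (.nr 203 1482912 (.nr 192 134 .s1 (.nx
  194 185 (.nr 193 1320 (.l1 (.ls 19 29 258)) (.l1 .sk)) (.nx 195 186 (.l1 .sk) (.nr 199 65537 (.nx
  197 131073 (.lg 0 true 2 83 83 23 0 26640) (.nr 198 1025 (.lg 0 false 1 73 73 19 0 26640) .out))
  (.nx 202 16385 (.lg 0 false 3 89 89 23 0 26640) .out))))) .out) .out) (.na 206 139 (.lg 0 false 1
  0 0 16 0 24) (.lg 0 false 1 0 0 16 0 24))) (.na 219 147 (.nx 218 1048577 (.nr 217 1482912 (.nr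
  208 141 .s1 (.nx 211 186 (.nx 210 185 (.nr 209 1416 (.l1 (.ls 23 23 245)) (.l1 .sk)) (.l1 .sk))
  (.nx 213 16385 (.lg 0 false 2 97 97 19 0 26640) (.nr 216 65537 (.nx 214 131073 (.lg 0 false 1 89
  89 19 0 13320) (.nr 215 1025 (.lg 0 true 1 71 71 19 0 13320) .out)) .out)))) .out) .out) (.na 231
  149 (.nx 230 1048577 (.nr 229 1482912 (.nr 220 147 .s1 (.nx 222 185 (.nr 221 1435 (.l1 (.ls 29 23
  235)) (.l1 .sk)) (.nx 223 186 (.l1 .sk) (.nx 227 131073 (.nr 224 65537 (.lg 0 false 1 89 89 23 0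
  93240) (.nx 226 16385 (.lg 0 false 2 97 97 23 0 186480) .out)) (.nr 228 1025 (.lg 0 true 1 71 71
  23 0 93240) .out))))) .out) .out) (.nx 244 1048577 (.nr 243 1482912 (.nr 232 149 .s1 (.nx 235 186
  (.nx 234 185 (.nr 233 1445 (.l1 (.ls 19 17 232)) (.l1 .sk)) (.l1 .sk)) (.nx 239 32769 (.lg 0
  false 4 89 89 17 0 186480) (.nr 242 16385 (.nr 240 1025 (.lg 0 false 1 71 71 16 0 93240) (.nx 241
  131073 (.lg 2 true 1 59 59 16 11829 93240) .out)) .out)))) .out) .out)))))) (.na 340 173 (.na 275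
  162 (.na 247 155 (.na 246 151 (.lg 0 false 1 0 0 16 0 24) (.lg 0 false 1 0 0 16 0 24)) (.na 261
  157 (.nx 260 1048577 (.nr 259 1482912 (.nr 248 155 .s1 (.nx 251 186 (.nx 250 185 (.nr 249 1512
  (.l1 (.ls 19 19 223)) (.l1 .sk)) (.l1 .sk)) (.nx 255 32769 (.lg 0 false 4 89 89 19 0 26640) (.nr
  258 16385 (.nr 256 1025 (.lg 0 false 1 71 71 17 0 13320) (.nx 257 131073 (.lg 2 true 1 61 61 17
  11829 13320) .out)) .out)))) .out) .out) (.na 262 158 (.lg 0 false 1 0 0 16 0 24) (.nx 274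
  1048577 (.nr 273 1482912 (.nr 263 158 .s1 (.nx 269 32769 (.nx 265 185 (.nr 264 1561 (.l1 (.ls 23
  23 219)) (.l1 .sk)) (.nx 266 186 (.l1 .sk) (.lg 0 false 3 97 97 23 0 26640))) (.nr 272 16385 (.nr
  270 1025 (.lg 0 false 1 71 71 19 0 26640) (.nx 271 131073 (.lg 2 true 1 59 59 19 11829 26640)
  .out)) .out))) .out) .out)))) (.na 302 169 (.na 288 163 (.nx 287 1048577 (.nr 286 1482912 (.nr
  276 162 .s1 (.nx 284 131073 (.nx 278 185 (.nr 277 1570 (.l1 (.ls 19 31 214)) (.l1 .sk)) (.nx 279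
  186 (.l1 .sk) (.nx 282 16385 (.lg 0 false 3 79 79 29 0 26640) (.nr 283 65537 (.lg 0 false 1 83 83
  23 0 26640) .out)))) (.nr 285 1025 (.lg 0 false 1 67 67 23 0 26640) .out))) .out) .out) (.na 289
  166 (.lg 0 false 1 0 0 16 0 24) (.nx 301 1048577 (.nr 300 1482912 (.nr 290 166 .s1 (.nx 293 186
  (.nx 292 185 (.nr 291 1628 (.l1 (.ls 23 23 209)) (.l1 .sk)) (.l1 .sk)) (.nx 296 32769 (.lg 0
  false 3 97 97 23 0 186480) (.nr 299 16385 (.nr 297 1025 (.lg 0 false 1 71 71 19 0 186480) (.nx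
  298 131073 (.lg 2 true 1 61 61 19 11829 186480) .out)) .out)))) .out) .out))) (.na 315 170 (.nx
  314 1048577 (.nr 313 1482912 (.nr 303 169 .s1 (.nx 306 186 (.nx 305 185 (.nr 304 1638 (.l1 (.ls
  19 19 205)) (.l1 .sk)) (.l1 .sk)) (.nx 309 32769 (.lg 0 false 3 83 83 19 0 173160) (.nr 312 16385
  (.nr 310 1025 (.lg 0 false 1 67 67 17 0 173160) (.nx 311 131073 (.lg 2 true 1 59 59 17 11829
  173160) .out)) .out)))) .out) .out) (.na 328 171 (.nx 327 1048577 (.nr 326 1482912 (.nr 316 170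
  .s1 (.nx 318 185 (.nr 317 1647 (.l1 (.ls 16 31 204)) (.l1 .sk)) (.nx 319 186 (.l1 .sk) (.nx 322
  32769 (.lg 0 false 3 97 97 31 0 186480) (.nr 325 16385 (.nr 323 1025 (.lg 0 false 1 73 73 29 0
  186480) (.nx 324 131073 (.lg 2 true 1 61 61 29 11829 26640) .out)) .out))))) .out) .out) (.nx 339
  1048577 (.nr 338 1482912 (.nr 329 171 .s1 (.nx 331 185 (.nr 330 1667 (.l1 (.ls 17 23 203)) (.l1
  .sk)) (.nx 332 186 (.l1 .sk) (.nr 335 65537 (.nx 333 131073 (.lg 0 false 1 89 89 17 0 13320) (.nr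
  334 1025 (.lg 0 true 1 71 71 17 0 13320) .out)) (.nx 337 16385 (.lg 0 false 2 97 97 29 0 26640)
  .out))))) .out) .out))))) (.na 405 190 (.na 369 182 (.na 341 179 (.lg 0 false 1 0 0 16 0 24) (.na
  355 181 (.nx 354 1048577 (.nr 353 1482912 (.nr 342 179 .s1 (.nx 345 186 (.nx 344 185 (.nr 343
  1744 (.l1 (.ls 19 17 194)) (.l1 .sk)) (.l1 .sk)) (.nx 349 32769 (.lg 0 false 4 83 83 19 0 26640)
  (.nr 352 16385 (.nr 350 1025 (.lg 0 false 1 67 67 16 0 13320) (.nx 351 131073 (.lg 2 false 1 53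
  53 16 11829 13320) .out)) .out)))) .out) .out) (.nx 368 1048577 (.nr 367 1482912 (.nr 356 181 .s1
  (.nx 363 32769 (.nx 358 185 (.nr 357 1753 (.l1 (.ls 17 17 192)) (.l1 .sk)) (.nx 359 186 (.l1 .sk)
  (.lg 0 false 4 83 83 19 0 26640))) (.nr 366 16385 (.nr 364 1025 (.lg 0 false 1 67 67 16 0 13320)
  (.nx 365 131073 (.lg 2 false 1 53 53 16 11829 13320) .out)) .out))) .out) .out))) (.na 381 186
  (.nx 380 1048577 (.nr 379 1048577 (.nr 370 182 .s1 (.nx 372 185 (.nr 371 1792 (.l1 (.ls 31 31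
  191)) (.l1 .sk)) (.nx 373 186 (.l1 .sk) (.nr 376 65537 (.nx 374 131073 (.lg 0 false 1 97 97 31 0
  2424240) (.nr 375 1025 (.lg 0 true 1 73 73 31 0 2424240) .out)) (.nx 378 16385 (.lg 0 false 2 97
  97 37 0 2424240) .out))))) .out) .out) (.na 393 189 (.nx 392 1048577 (.nr 391 1048577 (.nr 382
  186 .s1 (.nx 385 186 (.nx 384 185 (.nr 383 1821 (.l1 (.ls 29 29 187)) (.l1 .sk)) (.l1 .sk)) (.nr
  388 65537 (.nx 386 131073 (.lg 0 false 1 89 89 29 0 26640) (.nr 387 1025 (.lg 0 true 1 71 71 29 0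
  26640) .out)) (.nx 390 16385 (.lg 0 false 2 89 97 29 0 26640) .out)))) .out) .out) (.nx 404
  1048577 (.nr 403 1048577 (.nr 394 189 .s1 (.nx 396 185 (.nr 395 1830 (.l1 (.ls 29 23 184)) (.l1
  .sk)) (.nx 397 186 (.l1 .sk) (.nr 400 65537 (.nx 398 131073 (.lg 0 false 1 83 83 23 0 93240) (.nr
  399 1025 (.lg 0 true 1 67 67 23 0 93240) .out)) (.nx 402 16385 (.lg 0 false 2 89 89 29 0 186480)
  .out))))) .out) .out)))) (.na 444 194 (.na 418 191 (.nx 417 1048577 (.nr 416 1048577 (.nr 406 190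
  .s1 (.nx 408 185 (.nr 407 1840 (.l1 (.ls 17 31 183)) (.l1 .sk)) (.nx 409 186 (.l1 .sk) (.nx 412
  32769 (.lg 0 false 3 89 89 31 0 26640) (.nr 415 16385 (.nr 413 1025 (.lg 0 false 1 71 71 29 0
  26640) (.nx 414 131073 (.lg 2 true 1 61 61 29 11829 26640) .out)) .out))))) .out) .out) (.na 431
  193 (.nx 430 1048577 (.nr 429 1048577 (.nr 419 191 .s1 (.nx 425 32769 (.nx 421 185 (.nr 420 1859
  (.l1 (.ls 17 17 182)) (.l1 .sk)) (.nx 422 186 (.l1 .sk) (.lg 0 false 3 79 79 17 0 13320))) (.nr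
  428 16385 (.nr 426 1025 (.lg 0 false 1 67 67 16 0 93240) (.nx 427 131073 (.lg 2 true 1 53 53 16
  11829 93240) .out)) .out))) .out) .out) (.nx 443 1048577 (.nr 442 1048577 (.nr 432 193 .s1 (.nx
  438 32769 (.nx 434 185 (.nr 433 1869 (.l1 (.ls 17 17 180)) (.l1 .sk)) (.nx 435 186 (.l1 .sk) (.lg
  0 false 3 79 79 17 0 13320))) (.nr 441 16385 (.nr 439 1025 (.lg 0 false 1 67 67 16 0 13320) (.nx
  440 131073 (.lg 2 false 1 53 53 16 11829 13320) .out)) .out))) .out) .out))) (.na 457 195 (.nx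
  456 1048577 (.nr 455 1048577 (.nr 445 194 .s1 (.nx 448 186 (.nx 447 185 (.nr 446 1878 (.l1 (.ls
  19 23 179)) (.l1 .sk)) (.l1 .sk)) (.nx 451 32769 (.lg 0 false 3 83 83 29 0 186480) (.nr 454 16385
  (.nr 452 1025 (.lg 0 false 1 67 67 19 0 26640) (.nx 453 131073 (.lg 2 true 1 59 59 19 11829
  186480) .out)) .out)))) .out) .out) (.na 469 197 (.nx 468 1048577 (.nr 467 1048577 (.nr 458 195
  .s1 (.nx 461 186 (.nx 460 185 (.nr 459 1898 (.l1 (.ls 29 29 178)) (.l1 .sk)) (.l1 .sk)) (.nr 464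
  65537 (.nx 462 131073 (.lg 0 false 1 83 83 29 0 173160) (.nr 463 1025 (.lg 0 true 1 67 67 29 0
  173160) .out)) (.nx 466 16385 (.lg 0 false 2 89 89 31 0 346320) .out)))) .out) .out) (.lg 0 false
  1 0 0 16 0 24))))))) (.na 675 251 (.na 579 227 (.na 520 214 (.na 494 205 (.na 481 202 (.nx 480
  1048577 (.nr 479 1048577 (.nr 471 201 .s1 (.nx 477 131073 (.nx 473 185 (.nr 472 1946 (.l1 (.ls 23
  19 173)) (.l1 .sk)) (.nx 474 186 (.l1 .sk) (.nr 475 65537 (.lg 0 false 1 89 89 19 0 93240) (.nx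
  476 16385 (.lg 0 false 1 89 89 19 0 13320) .out)))) (.nr 478 1025 (.lg 0 true 1 67 67 19 0 13320)
  .out))) .out) .out) (.nx 493 1048577 (.nr 492 1048577 (.nr 482 202 .s1 (.nx 488 32769 (.nx 484
  185 (.nr 483 1975 (.l1 (.ls 19 23 172)) (.l1 .sk)) (.nx 485 186 (.l1 .sk) (.lg 0 false 3 79 79 29
  0 26640))) (.nr 491 16385 (.nr 489 1025 (.lg 0 false 1 67 67 23 0 26640) (.nx 490 131073 (.lg 2
  true 1 53 53 23 11829 26640) .out)) .out))) .out) .out)) (.na 507 210 (.nx 506 1048577 (.nr 505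
  1048577 (.nr 495 205 .s1 (.nx 501 32769 (.nx 497 185 (.nr 496 2023 (.l1 (.ls 19 19 169)) (.l1
  .sk)) (.nx 498 186 (.l1 .sk) (.lg 0 false 3 83 83 19 0 13320))) (.nr 504 16385 (.nr 502 1025 (.lg
  0 false 1 71 71 17 0 93240) (.nx 503 131073 (.lg 2 false 1 59 59 17 11829 93240) .out)) .out)))
  .out) .out) (.na 519 211 (.nx 518 1048577 (.nr 517 1048577 (.nr 508 210 .s1 (.nx 510 185 (.nr 509
  2033 (.l1 (.ls 31 37 165)) (.l1 .sk)) (.nx 511 186 (.l1 .sk) (.nr 514 65537 (.nx 512 131073 (.lg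
  0 false 1 89 89 37 0 186480) (.nr 513 1025 (.lg 0 true 1 71 71 37 0 186480) .out)) (.nx 516 16385
  (.lg 0 false 2 89 89 41 0 186480) .out))))) .out) .out) (.lg 0 false 1 0 0 16 0 24)))) (.na 554
  223 (.na 533 221 (.nx 532 1048577 (.nr 531 1048577 (.nr 521 214 .s1 (.nx 527 32769 (.nx 523 185
  (.nr 522 2129 (.l1 (.ls 19 23 162)) (.l1 .sk)) (.nx 524 186 (.l1 .sk) (.lg 0 false 3 83 83 29 0
  26640))) (.nr 530 16385 (.nr 528 1025 (.lg 0 false 1 67 67 23 0 26640) (.nx 529 131073 (.lg 2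
  false 1 53 53 23 11829 26640) .out)) .out))) .out) .out) (.na 544 222 (.nx 543 1048577 (.nr 542
  1048577 (.nr 534 221 .s1 (.nx 540 131073 (.nx 536 185 (.nr 535 2138 (.l1 (.ls 16 23 157)) (.l1
  .sk)) (.nx 537 186 (.l1 .sk) (.nr 538 65537 (.lg 0 false 1 89 89 23 0 173160) (.nx 539 16385 (.lg
  0 true 1 97 97 23 0 173160) .out)))) (.nr 541 1025 (.lg 0 true 1 71 71 23 0 173160) .out))) .out)
  .out) (.nx 553 1048577 (.nr 552 1048577 (.nr 545 222 .s1 (.nx 547 185 (.nr 546 2148 (.l1 (.ls 19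
  29 157)) (.l1 .sk)) (.nx 548 186 (.l1 .sk) (.nx 550 32769 (.lg 0 true 2 83 83 31 0 186480) (.nr
  551 16385 (.lg 0 false 1 83 83 29 0 186480) .out))))) .out) .out))) (.na 567 225 (.nx 566 1048577
  (.nr 565 1048577 (.nr 555 223 .s1 (.nx 561 32769 (.nx 557 185 (.nr 556 2167 (.l1 (.ls 17 17 156))
  (.l1 .sk)) (.nx 558 186 (.l1 .sk) (.lg 0 false 3 79 79 19 0 13320))) (.nr 564 16385 (.nr 562 1025
  (.lg 0 false 1 61 61 16 0 13320) (.nx 563 131073 (.lg 2 false 1 47 47 16 11829 13320) .out))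
  .out))) .out) .out) (.na 568 226 (.lg 0 false 1 0 0 16 0 24) (.nx 578 1048577 (.nr 577 1048577
  (.nr 569 226 .s1 (.nx 571 185 (.nr 570 2187 (.l1 (.ls 23 23 154)) (.l1 .sk)) (.nx 572 186 (.l1
  .sk) (.nx 575 32769 (.lg 0 false 3 83 83 29 0 186480) (.nr 576 16385 (.lg 0 false 1 89 89 23 0
  186480) .out))))) .out) .out))))) (.na 623 238 (.na 590 234 (.na 580 229 (.lg 0 false 1 0 0 16 0
  24) (.na 589 233 (.nx 588 1048577 (.nr 587 1048577 (.nr 581 229 .s1 (.nx 583 185 (.nr 582 2244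
  (.l1 (.ls 19 17 152)) (.l1 .sk)) (.nx 584 186 (.l1 .sk) (.nx 585 32769 (.lg 0 true 1 89 89 17 0
  93240) (.nr 586 16385 (.lg 0 false 1 83 83 17 0 93240) .out))))) .out) .out) (.lg 0 false 1 0 0
  16 0 24))) (.na 601 235 (.nx 600 1048577 (.nr 599 1048577 (.nr 591 234 .s1 (.nx 597 131073 (.nx
  593 185 (.nr 592 2264 (.l1 (.ls 31 31 149)) (.l1 .sk)) (.nx 594 186 (.l1 .sk) (.nr 595 65537 (.lg
  0 false 1 89 89 37 0 346320) (.nx 596 16385 (.lg 0 true 1 89 89 37 0 346320) .out)))) (.nr 598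
  1025 (.lg 0 true 1 67 67 37 0 346320) .out))) .out) .out) (.na 612 237 (.nx 611 1048577 (.nr 610
  1048577 (.nr 602 235 .s1 (.nx 604 185 (.nr 603 2283 (.l1 (.ls 17 19 148)) (.l1 .sk)) (.nx 605 186
  (.l1 .sk) (.nx 606 32769 (.lg 0 true 1 89 89 17 0 13320) (.nr 609 16385 (.nr 607 1025 (.lg 0
  false 1 67 67 17 0 13320) (.nx 608 131073 (.lg 2 false 1 53 53 17 11829 13320) .out)) .out)))))
  .out) .out) (.nx 622 1048577 (.nr 621 1048577 (.nr 613 237 .s1 (.nx 619 131073 (.nx 615 185 (.nr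
  614 2293 (.l1 (.ls 23 19 147)) (.l1 .sk)) (.nx 616 186 (.l1 .sk) (.nr 617 65537 (.lg 0 true 1 83
  83 19 0 13320) (.nx 618 16385 (.lg 0 false 1 83 83 19 0 13320) .out)))) (.nr 620 1025 (.lg 0 true
  1 61 61 19 0 13320) .out))) .out) .out)))) (.na 652 246 (.na 634 243 (.nx 633 1048577 (.nr 632
  1048577 (.nr 624 238 .s1 (.nr 628 65537 (.nx 626 131073 (.nx 625 324 (.l1 (.ls 61 37 444)) (.lg 0
  false 1 89 89 31 0 186480)) (.nr 627 1025 (.lg 0 true 1 71 71 31 0 186480) .out)) (.nx 630 186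
  (.nx 629 185 (.l1 .sk) (.l1 .sk)) (.nx 631 16385 (.lg 0 true 1 97 97 31 0 186480) .out)))) .out)
  .out) (.na 643 245 (.nx 642 1048577 (.nr 641 1048577 (.nr 635 243 .s1 (.nx 638 186 (.nx 637 185
  (.nr 636 2360 (.l1 (.ls 19 19 143)) (.l1 .sk)) (.l1 .sk)) (.nx 639 32769 (.lg 0 true 1 89 89 19 0
  93240) (.nr 640 16385 (.lg 0 false 1 83 83 19 0 93240) .out)))) .out) .out) (.nx 651 1048577 (.nr
  650 1048577 (.nr 644 245 .s1 (.nx 646 185 (.nr 645 2370 (.l1 (.ls 19 23 142)) (.l1 .sk)) (.nx 647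
  186 (.l1 .sk) (.nx 648 32769 (.lg 0 true 1 89 89 19 0 93240) (.nr 649 16385 (.lg 0 false 1 83 83
  19 0 93240) .out))))) .out) .out))) (.na 663 247 (.nx 662 1048577 (.nr 661 1048577 (.nr 653 246
  .s1 (.nx 656 186 (.nx 655 185 (.nr 654 2379 (.l1 (.ls 23 29 142)) (.l1 .sk)) (.l1 .sk)) (.nx 659
  131073 (.nr 657 65537 (.lg 0 false 1 83 83 31 0 26640) (.nx 658 16385 (.lg 0 true 1 89 89 31 0
  26640) .out)) (.nr 660 1025 (.lg 0 true 1 67 67 31 0 26640) .out)))) .out) .out) (.na 674 250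
  (.nx 673 1048577 (.nr 672 1048577 (.nr 664 247 .s1 (.nx 666 185 (.nr 665 2408 (.l1 (.ls 17 17
  141)) (.l1 .sk)) (.nx 667 186 (.l1 .sk) (.nr 670 65537 (.nx 668 131073 (.lg 0 false 1 89 89 17 0
  1212120) (.nr 669 1025 (.lg 0 true 1 71 71 17 0 173160) .out)) (.nx 671 16385 (.lg 0 true 1 97 97
  17 0 1212120) .out))))) .out) .out) (.lg 0 false 1 0 0 16 0 24)))))) (.na 5368 2897 (.na 1210 363
  (.na 695 255 (.na 686 254 (.nx 685 1048577 (.nr 684 1048577 (.nr 676 251 .s1 (.nx 678 185 (.nr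
  677 2447 (.l1 (.ls 17 17 139)) (.l1 .sk)) (.nx 679 186 (.l1 .sk) (.nx 680 32769 (.lg 0 true 1 83
  83 17 0 13320) (.nr 683 16385 (.nr 681 1025 (.lg 0 false 1 61 61 17 0 13320) (.nx 682 131073 (.lg
  2 false 1 47 47 17 11829 13320) .out)) .out))))) .out) .out) (.nx 694 1048577 (.nr 693 1048577
  (.nr 687 254 .s1 (.nx 691 32769 (.nx 689 185 (.nr 688 2456 (.l1 (.ls 19 23 137)) (.l1 .sk)) (.nx
  690 186 (.l1 .sk) (.lg 0 true 1 89 89 23 0 186480))) (.nr 692 16385 (.lg 0 false 1 83 83 23 0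
  186480) .out))) .out) .out)) (.na 706 256 (.nx 705 1048577 (.nr 704 1048577 (.nr 696 255 .s1 (.nx
  699 186 (.nx 698 185 (.nr 697 2466 (.l1 (.ls 16 29 137)) (.l1 .sk)) (.l1 .sk)) (.nx 702 131073
  (.nr 700 65537 (.lg 0 false 1 83 83 29 0 13320) (.nx 701 16385 (.lg 0 false 1 83 83 29 0 13320)
  .out)) (.nr 703 1025 (.lg 0 true 1 61 61 29 0 13320) .out)))) .out) .out) (.na 707 257 .ne (.nx
  1209 1048577 (.nr 1208 1482912 (.nr 708 257 .s1 (.nx 816 186 (.nx 815 185 (.nr 814 3496 (.la (.ls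
  29 19 136)) (.l1 .sk)) (.l1 .sk)) (.nx 887 257 (.lx (.lp 79 17 91)) (.nr 1207 1048577 (.nx 993
  20644 (.la (.lg 0 true 1 83 83 23 0)) (.nr 1206 32769 (.nr 1099 2049 (.la (.lg 0 true 1 67 67 23
  0)) (.nx 1205 131073 (.la (.lg 2 false 1 61 61 23 27318)) .out)) .out)) .out)))) .out) .out))))
  (.na 3060 1024 (.na 1770 512 (.nx 1769 1048577 (.nr 1768 1482912 (.nr 1211 363 .s1 (.nx 1396 185
  (.nr 1395 4931 (.lx (.lp 31 19 129)) (.l1 .sk)) (.nx 1397 186 (.l1 .sk) (.nx 1468 257 (.lx (.lp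
  79 19 129)) (.nr 1767 1048577 (.nx 1617 20644 (.la (.lg 0 true 1 79 79 23 0)) (.nr 1766 32769
  (.la (.lg 2 false 1 73 73 23 267200)) .out)) .out))))) .out) .out) (.na 2458 725 (.nx 2457
  1048577 (.nr 2456 1482912 (.nr 1771 512 .s1 (.nx 2028 257 (.nx 1956 185 (.nr 1955 6983 (.lx (.lp
  31 19 182)) (.l1 .sk)) (.nx 1957 186 (.l1 .sk) (.lx (.lp 73 19 182)))) (.nr 2455 1048577 (.nx
  2241 20644 (.la (.lg 0 false 1 73 73 29 0)) (.nr 2454 32769 (.la (.lg 2 true 1 67 67 29 189441))
  .out)) .out))) .out) .out) (.nx 3059 13005 (.nr 3058 1048577 (.nr 2459 725 .s1 (.nx 2758 2049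
  (.la (.ls 67 41 5793)) (.nr 3057 65537 (.la (.lg 0 false 1 47 47 29 0)) .out))) .out) .out)))
  (.na 3914 1449 (.nx 3913 13005 (.nr 3912 1048577 (.nr 3061 1024 .s1 (.nx 3486 3252 (.la (.ls 67
  41 10330)) (.nr 3911 32769 (.la (.lg 0 false 1 41 41 31 0)) .out))) .out) .out) (.na 4516 2048
  (.nx 4515 8193 (.nr 4514 1048577 (.nr 3915 1449 .s1 (.la (.ls 67 47 46328))) .out) .out) (.nx
  5367 8193 (.nr 5366 1048577 (.nr 4517 2048 .s1 (.la (.ls 61 47 32779))) .out) .out))))) (.na
  13821 32768 (.na 9937 8192 (.na 6756 4096 (.nx 6755 3252 (.nr 6754 524289 (.nr 5369 2897 .s1 (.nx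
  5555 186 (.nx 5554 185 (.nr 5553 39448 (.lx (.lp 41 31 1025)) (.l1 .sk)) (.l1 .sk)) (.la (.ls 53
  37 3641)))) .out) .out) (.na 8642 5793 (.nx 8641 3252 (.nr 8640 524289 (.nr 6757 4096 .s1 (.nx
  6943 186 (.nx 6942 185 (.nr 6941 55791 (.lx (.lp 41 31 1449)) (.l1 .sk)) (.l1 .sk)) (.la (.ls 53
  37 2576)))) .out) .out) (.nx 9936 1292 (.nr 9935 262145 (.nr 8643 5793 .s1 (.nx 9456 814 (.lx
  (.lp 47 37 2049)) (.nr 9934 65537 (.lx (.lp 31 37 2049)) .out))) .out) .out))) (.na 11232 11586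
  (.nx 11231 1292 (.nr 11230 262145 (.nr 9938 8192 .s1 (.nx 10751 814 (.lx (.lp 43 41 2897)) (.nr
  11229 131073 (.lx (.lp 41 41 2897)) .out))) .out) .out) (.na 12526 16384 (.nx 12525 1292 (.nr
  12524 131073 (.nr 11233 11586 .s1 (.lx (.lp 31 41 4097))) .out) .out) (.nx 13820 1292 (.nr 13819
  262145 (.nr 12527 16384 .s1 (.nx 12783 257 (.lx (.lp 43 43 8193)) (.nr 13818 131073 (.lx (.lp 31
  43 8193)) .out))) .out) .out)))) (.na 16925 262144 (.na 15115 65536 (.nx 15114 1292 (.nr 15113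
  262145 (.nr 13822 32768 .s1 (.lx (.lp 31 47 16385))) .out) .out) (.na 16410 131072 (.nx 16409
  1292 (.nr 16408 524289 (.nr 15116 65536 .s1 (.nx 15372 257 (.lx (.lp 16 0 32769)) (.nr 16407
  262145 (.lx (.lp 29 53 32769)) .out))) .out) .out) (.nx 16924 513 (.nr 16923 524289 (.nr 16411
  131072 .s1 (.lx (.lp 16 53 65537))) .out) .out))) (.na 17440 524288 (.nx 17439 513 (.nr 17438
  1048577 (.nr 16926 262144 .s1 (.lx (.lp 16 0 131073))) .out) .out) (.na 17442 1048577 (.nx 17441
  257 (.l1 .sk) .out) .out)))))))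

theorem c48 :
    OkQ ckI L9 207 18 219 0 34359738368 1 1099511627776 ∧
    OkQ ckI L9 185 101 1099511627776 0 34359738368 1 1099511627776 := by
  refine ⟨?_, ?_⟩
  · refine fin 1656 1298 T48_0 ?_
    refine jn 5 (by decide +kernel) ?_
    refine jn 6 (by decide +kernel) ?_
    refine jn 8 (by decide +kernel) ?_
    refine jn 9 (by decide +kernel) ?_
    refine jn 10 (by decide +kernel) ?_
    refine jn 20 (by decide +kernel) ?_
    refine jn 26 (by decide +kernel) ?_
    refine jn 28 (by decide +kernel) ?_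
    refine jn 33 (by decide +kernel) ?_
    refine jn 40 (by decide +kernel) ?_
    refine jn 47 (by decide +kernel) ?_
    refine jn 65 (by decide +kernel) ?_
    refine jn 81 (by decide +kernel) ?_
    refine jn 90 (by decide +kernel) ?_
    refine jn 91 (by decide +kernel) ?_
    refine jn 93 (by decide +kernel) ?_
    refine jn 95 (by decide +kernel) ?_
    refine jn 96 (by decide +kernel) ?_
    refine jn 97 (by decide +kernel) ?_
    refine jn 101 (by decide +kernel) ?_
    refine jn 104 (by decide +kernel) ?_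
    refine jn 105 (by decide +kernel) ?_
    refine jn 106 (by decide +kernel) ?_
    refine jn 110 (by decide +kernel) ?_
    refine jn 113 (by decide +kernel) ?_
    refine jn 116 (by decide +kernel) ?_
    refine jn 130 (by decide +kernel) ?_
    refine jn 136 (by decide +kernel) ?_
    refine jn 144 (by decide +kernel) ?_
    refine jn 158 (by decide +kernel) ?_
    refine jn 167 (by decide +kernel) ?_
    refine jn 168 (by decide +kernel) ?_
    refine jn 169 (by decide +kernel) ?_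
    refine jn 170 (by decide +kernel) ?_
    refine jn 171 (by decide +kernel) ?_
    refine jn 172 (by decide +kernel) ?_
    refine jn 174 (by decide +kernel) ?_
    refine jn 176 (by decide +kernel) ?_
    refine jn 177 (by decide +kernel) ?_
    refine jn 182 (by decide +kernel) ?_
    refine jn 189 (by decide +kernel) ?_
    refine jn 197 (by decide +kernel) ?_
    refine jn 208 (by decide +kernel) ?_
    refine jn 212 (by decide +kernel) ?_
    refine jn 225 (by decide +kernel) ?_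
    refine jn 237 (by decide +kernel) ?_
    refine jn 238 (by decide +kernel) ?_
    refine jn 245 (by decide +kernel) ?_
    refine jn 252 (by decide +kernel) ?_
    refine jn 262 (by decide +kernel) ?_
    refine jn 271 (by decide +kernel) ?_
    refine jn 272 (by decide +kernel) ?_
    refine jn 273 (by decide +kernel) ?_
    refine jn 274 (by decide +kernel) ?_
    refine jn 275 (by decide +kernel) ?_
    refine jn 276 (by decide +kernel) ?_
    refine jn 281 (by decide +kernel) ?_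
    refine jn 286 (by decide +kernel) ?_
    refine jn 288 (by decide +kernel) ?_
    refine jn 292 (by decide +kernel) ?_
    refine jn 300 (by decide +kernel) ?_
    refine jn 303 (by decide +kernel) ?_
    refine jn 304 (by decide +kernel) ?_
    refine jn 305 (by decide +kernel) ?_
    refine jn 306 (by decide +kernel) ?_
    refine jn 307 (by decide +kernel) ?_
    refine jn 308 (by decide +kernel) ?_
    refine jn 309 (by decide +kernel) ?_
    refine jn 310 (by decide +kernel) ?_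
    refine jn 311 (by decide +kernel) ?_
    refine jn 312 (by decide +kernel) ?_
    refine jn 313 (by decide +kernel) ?_
    refine jn 314 (by decide +kernel) ?_
    refine jn 315 (by decide +kernel) ?_
    refine jn 316 (by decide +kernel) ?_
    refine jn 317 (by decide +kernel) ?_
    refine jn 322 (by decide +kernel) ?_
    refine jn 323 (by decide +kernel) ?_
    refine jn 340 (by decide +kernel) ?_
    refine jn 348 (by decide +kernel) ?_
    refine jn 363 (by decide +kernel) ?_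
    refine jn 373 (by decide +kernel) ?_
    refine jn 395 (by decide +kernel) ?_
    refine jn 406 (by decide +kernel) ?_
    refine jn 414 (by decide +kernel) ?_
    refine jn 425 (by decide +kernel) ?_
    refine jn 428 (by decide +kernel) ?_
    refine jn 430 (by decide +kernel) ?_
    refine jn 432 (by decide +kernel) ?_
    refine jn 434 (by decide +kernel) ?_
    refine jn 447 (by decide +kernel) ?_
    refine jn 450 (by decide +kernel) ?_
    refine jn 454 (by decide +kernel) ?_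
    refine jn 456 (by decide +kernel) ?_
    refine jn 459 (by decide +kernel) ?_
    refine jn 464 (by decide +kernel) ?_
    refine jn 465 (by decide +kernel) ?_
    refine jn 466 (by decide +kernel) ?_
    refine jn 470 (by decide +kernel) ?_
    refine jn 472 (by decide +kernel) ?_
    refine jn 475 (by decide +kernel) ?_
    refine jn 486 (by decide +kernel) ?_
    refine jn 493 (by decide +kernel) ?_
    refine jn 507 (by decide +kernel) ?_
    refine jn 514 (by decide +kernel) ?_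
    refine jn 530 (by decide +kernel) ?_
    refine jn 542 (by decide +kernel) ?_
    refine jn 546 (by decide +kernel) ?_
    refine jn 548 (by decide +kernel) ?_
    refine jn 552 (by decide +kernel) ?_
    refine jn 564 (by decide +kernel) ?_
    refine jn 583 (by decide +kernel) ?_
    refine jn 591 (by decide +kernel) ?_
    refine jn 597 (by decide +kernel) ?_
    refine jn 598 (by decide +kernel) ?_
    refine jn 599 (by decide +kernel) ?_
    refine jn 600 (by decide +kernel) ?_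
    refine jn 601 (by decide +kernel) ?_
    refine jn 602 (by decide +kernel) ?_
    refine jn 603 (by decide +kernel) ?_
    refine jn 604 (by decide +kernel) ?_
    refine jn 606 (by decide +kernel) ?_
    refine jn 607 (by decide +kernel) ?_
    refine jn 608 (by decide +kernel) ?_
    refine jn 623 (by decide +kernel) ?_
    refine jn 635 (by decide +kernel) ?_
    refine jn 645 (by decide +kernel) ?_
    refine jn 649 (by decide +kernel) ?_
    refine jn 650 (by decide +kernel) ?_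
    refine jn 651 (by decide +kernel) ?_
    refine jn 652 (by decide +kernel) ?_
    refine jn 653 (by decide +kernel) ?_
    refine jn 654 (by decide +kernel) ?_
    refine jn 655 (by decide +kernel) ?_
    refine jn 656 (by decide +kernel) ?_
    refine jn 657 (by decide +kernel) ?_
    refine jn 673 (by decide +kernel) ?_
    refine jn 686 (by decide +kernel) ?_
    refine jn 703 (by decide +kernel) ?_
    refine jn 719 (by decide +kernel) ?_
    refine jn 737 (by decide +kernel) ?_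
    refine jn 748 (by decide +kernel) ?_
    refine jn 753 (by decide +kernel) ?_
    refine jn 764 (by decide +kernel) ?_
    refine jn 775 (by decide +kernel) ?_
    refine jn 776 (by decide +kernel) ?_
    refine jn 777 (by decide +kernel) ?_
    refine jn 778 (by decide +kernel) ?_
    refine jn 779 (by decide +kernel) ?_
    refine jn 784 (by decide +kernel) ?_
    refine jn 792 (by decide +kernel) ?_
    refine jn 793 (by decide +kernel) ?_
    refine jn 794 (by decide +kernel) ?_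
    refine jn 796 (by decide +kernel) ?_
    refine jn 797 (by decide +kernel) ?_
    refine jn 807 (by decide +kernel) ?_
    refine jn 812 (by decide +kernel) ?_
    refine jn 819 (by decide +kernel) ?_
    refine jn 821 (by decide +kernel) ?_
    refine jn 837 (by decide +kernel) ?_
    refine jn 852 (by decide +kernel) ?_
    refine jn 861 (by decide +kernel) ?_
    refine jn 875 (by decide +kernel) ?_
    refine jn 885 (by decide +kernel) ?_
    refine jn 890 (by decide +kernel) ?_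
    refine jn 893 (by decide +kernel) ?_
    refine jn 910 (by decide +kernel) ?_
    refine jn 940 (by decide +kernel) ?_
    refine jn 955 (by decide +kernel) ?_
    refine jn 970 (by decide +kernel) ?_
    refine jn 979 (by decide +kernel) ?_
    refine jn 980 (by decide +kernel) ?_
    refine jn 981 (by decide +kernel) ?_
    refine jn 984 (by decide +kernel) ?_
    refine jn 985 (by decide +kernel) ?_
    refine jn 987 (by decide +kernel) ?_
    refine jn 1000 (by decide +kernel) ?_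
    refine jn 1014 (by decide +kernel) ?_
    refine jn 1025 (by decide +kernel) ?_
    refine jn 1035 (by decide +kernel) ?_
    refine jn 1037 (by decide +kernel) ?_
    refine jn 1051 (by decide +kernel) ?_
    refine jn 1063 (by decide +kernel) ?_
    refine jn 1078 (by decide +kernel) ?_
    refine jn 1093 (by decide +kernel) ?_
    refine jn 1108 (by decide +kernel) ?_
    refine jn 1122 (by decide +kernel) ?_
    refine jn 1137 (by decide +kernel) ?_
    refine jn 1151 (by decide +kernel) ?_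
    refine jn 1164 (by decide +kernel) ?_
    refine jn 1176 (by decide +kernel) ?_
    refine jn 1188 (by decide +kernel) ?_
    refine jn 1201 (by decide +kernel) ?_
    refine jn 1214 (by decide +kernel) ?_
    refine jn 1233 (by decide +kernel) ?_
    refine jn 1246 (by decide +kernel) ?_
    refine jn 1256 (by decide +kernel) ?_
    refine jn 1257 (by decide +kernel) ?_
    refine jn 1260 (by decide +kernel) ?_
    refine jn 1279 (by decide +kernel) ?_
    refine jn 1286 (by decide +kernel) ?_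
    refine jn 1287 (by decide +kernel) ?_
    refine jn 1289 (by decide +kernel) ?_
    refine jn 1290 (by decide +kernel) ?_
    refine jn 1291 (by decide +kernel) ?_
    refine jn 1292 (by decide +kernel) ?_
    refine jn 1293 (by decide +kernel) ?_
    refine jn 1294 (by decide +kernel) ?_
    exact je (by decide +kernel)
  · refine fin 13320 17443 T48_1 ?_
    refine jn 10 (by decide +kernel) ?_
    refine jn 21 (by decide +kernel) ?_
    refine jn 24 (by decide +kernel) ?_
    refine jn 38 (by decide +kernel) ?_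
    refine jn 42 (by decide +kernel) ?_
    refine jn 55 (by decide +kernel) ?_
    refine jn 63 (by decide +kernel) ?_
    refine jn 66 (by decide +kernel) ?_
    refine jn 77 (by decide +kernel) ?_
    refine jn 80 (by decide +kernel) ?_
    refine jn 94 (by decide +kernel) ?_
    refine jn 103 (by decide +kernel) ?_
    refine jn 106 (by decide +kernel) ?_
    refine jn 117 (by decide +kernel) ?_
    refine jn 128 (by decide +kernel) ?_
    refine jn 131 (by decide +kernel) ?_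
    refine jn 144 (by decide +kernel) ?_
    refine jn 159 (by decide +kernel) ?_
    refine jn 173 (by decide +kernel) ?_
    refine jn 185 (by decide +kernel) ?_
    refine jn 193 (by decide +kernel) ?_
    refine jn 202 (by decide +kernel) ?_
    refine jn 214 (by decide +kernel) ?_
    refine jn 226 (by decide +kernel) ?_
    refine jn 240 (by decide +kernel) ?_
    refine jn 256 (by decide +kernel) ?_
    refine jn 270 (by decide +kernel) ?_
    refine jn 283 (by decide +kernel) ?_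
    refine jn 297 (by decide +kernel) ?_
    refine jn 311 (by decide +kernel) ?_
    refine jn 324 (by decide +kernel) ?_
    refine jn 334 (by decide +kernel) ?_
    refine jn 349 (by decide +kernel) ?_
    refine jn 364 (by decide +kernel) ?_
    refine jn 375 (by decide +kernel) ?_
    refine jn 386 (by decide +kernel) ?_
    refine jn 390 (by decide +kernel) ?_
    refine jn 399 (by decide +kernel) ?_
    refine jn 413 (by decide +kernel) ?_
    refine jn 427 (by decide +kernel) ?_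
    refine jn 440 (by decide +kernel) ?_
    refine jn 453 (by decide +kernel) ?_
    refine jn 463 (by decide +kernel) ?_
    refine jn 476 (by decide +kernel) ?_
    refine jn 489 (by decide +kernel) ?_
    refine jn 503 (by decide +kernel) ?_
    refine jn 513 (by decide +kernel) ?_
    refine jn 528 (by decide +kernel) ?_
    refine jn 539 (by decide +kernel) ?_
    refine jn 551 (by decide +kernel) ?_
    refine jn 570 (by decide +kernel) ?_
    refine jn 585 (by decide +kernel) ?_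
    refine jn 596 (by decide +kernel) ?_
    refine jn 608 (by decide +kernel) ?_
    refine jn 618 (by decide +kernel) ?_
    refine jn 627 (by decide +kernel) ?_
    refine jn 640 (by decide +kernel) ?_
    refine jn 657 (by decide +kernel) ?_
    refine jn 668 (by decide +kernel) ?_
    refine jn 680 (by decide +kernel) ?_
    refine jn 692 (by decide +kernel) ?_
    refine jn 701 (by decide +kernel) ?_
    refine jn 736 (by decide +kernel) ?_
    refine jn 772 (by decide +kernel) ?_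
    refine jn 805 (by decide +kernel) ?_
    refine jn 862 (by decide +kernel) ?_
    refine jn 892 (by decide +kernel) ?_
    refine jn 899 (by decide +kernel) ?_
    refine jn 909 (by decide +kernel) ?_
    refine jn 915 (by decide +kernel) ?_
    refine jn 919 (by decide +kernel) ?_
    refine jn 924 (by decide +kernel) ?_
    refine jn 936 (by decide +kernel) ?_
    refine jn 940 (by decide +kernel) ?_
    refine jn 945 (by decide +kernel) ?_
    refine jn 953 (by decide +kernel) ?_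
    refine jn 961 (by decide +kernel) ?_
    refine jn 969 (by decide +kernel) ?_
    refine jn 973 (by decide +kernel) ?_
    refine jn 981 (by decide +kernel) ?_
    refine jn 984 (by decide +kernel) ?_
    refine jn 987 (by decide +kernel) ?_
    refine jn 988 (by decide +kernel) ?_
    refine jn 993 (by decide +kernel) ?_
    refine jn 1002 (by decide +kernel) ?_
    refine jn 1013 (by decide +kernel) ?_
    refine jn 1021 (by decide +kernel) ?_
    refine jn 1027 (by decide +kernel) ?_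
    refine jn 1042 (by decide +kernel) ?_
    refine jn 1047 (by decide +kernel) ?_
    refine jn 1059 (by decide +kernel) ?_
    refine jn 1069 (by decide +kernel) ?_
    refine jn 1078 (by decide +kernel) ?_
    refine jn 1087 (by decide +kernel) ?_
    refine jn 1093 (by decide +kernel) ?_
    refine jn 1097 (by decide +kernel) ?_
    refine jn 1104 (by decide +kernel) ?_
    refine jn 1112 (by decide +kernel) ?_
    refine jn 1124 (by decide +kernel) ?_
    refine jn 1129 (by decide +kernel) ?_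
    refine jn 1136 (by decide +kernel) ?_
    refine jn 1149 (by decide +kernel) ?_
    refine jn 1163 (by decide +kernel) ?_
    refine jn 1173 (by decide +kernel) ?_
    refine jn 1184 (by decide +kernel) ?_
    refine jn 1193 (by decide +kernel) ?_
    refine jn 1199 (by decide +kernel) ?_
    refine jn 1203 (by decide +kernel) ?_
    refine jn 1271 (by decide +kernel) ?_
    refine jn 1397 (by decide +kernel) ?_
    refine jn 1475 (by decide +kernel) ?_
    refine jn 1486 (by decide +kernel) ?_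
    refine jn 1495 (by decide +kernel) ?_
    refine jn 1500 (by decide +kernel) ?_
    refine jn 1507 (by decide +kernel) ?_
    refine jn 1510 (by decide +kernel) ?_
    refine jn 1518 (by decide +kernel) ?_
    refine jn 1539 (by decide +kernel) ?_
    refine jn 1547 (by decide +kernel) ?_
    refine jn 1551 (by decide +kernel) ?_
    refine jn 1563 (by decide +kernel) ?_
    refine jn 1574 (by decide +kernel) ?_
    refine jn 1579 (by decide +kernel) ?_
    refine jn 1586 (by decide +kernel) ?_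
    refine jn 1595 (by decide +kernel) ?_
    refine jn 1603 (by decide +kernel) ?_
    refine jn 1612 (by decide +kernel) ?_
    refine jn 1615 (by decide +kernel) ?_
    refine jn 1632 (by decide +kernel) ?_
    refine jn 1636 (by decide +kernel) ?_
    refine jn 1644 (by decide +kernel) ?_
    refine jn 1647 (by decide +kernel) ?_
    refine jn 1652 (by decide +kernel) ?_
    refine jn 1657 (by decide +kernel) ?_
    refine jn 1664 (by decide +kernel) ?_
    refine jn 1669 (by decide +kernel) ?_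
    refine jn 1693 (by decide +kernel) ?_
    refine jn 1697 (by decide +kernel) ?_
    refine jn 1701 (by decide +kernel) ?_
    refine jn 1712 (by decide +kernel) ?_
    refine jn 1723 (by decide +kernel) ?_
    refine jn 1728 (by decide +kernel) ?_
    refine jn 1733 (by decide +kernel) ?_
    refine jn 1739 (by decide +kernel) ?_
    refine jn 1744 (by decide +kernel) ?_
    refine jn 1752 (by decide +kernel) ?_
    refine jn 1756 (by decide +kernel) ?_
    refine jn 1763 (by decide +kernel) ?_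
    refine jn 1775 (by decide +kernel) ?_
    refine jn 1891 (by decide +kernel) ?_
    refine jn 2029 (by decide +kernel) ?_
    refine jn 2037 (by decide +kernel) ?_
    refine jn 2049 (by decide +kernel) ?_
    refine jn 2059 (by decide +kernel) ?_
    refine jn 2062 (by decide +kernel) ?_
    refine jn 2063 (by decide +kernel) ?_
    refine jn 2073 (by decide +kernel) ?_
    refine jn 2083 (by decide +kernel) ?_
    refine jn 2089 (by decide +kernel) ?_
    refine jn 2093 (by decide +kernel) ?_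
    refine jn 2097 (by decide +kernel) ?_
    refine jn 2101 (by decide +kernel) ?_
    refine jn 2106 (by decide +kernel) ?_
    refine jn 2119 (by decide +kernel) ?_
    refine jn 2127 (by decide +kernel) ?_
    refine jn 2142 (by decide +kernel) ?_
    refine jn 2147 (by decide +kernel) ?_
    refine jn 2157 (by decide +kernel) ?_
    refine jn 2162 (by decide +kernel) ?_
    refine jn 2167 (by decide +kernel) ?_
    refine jn 2169 (by decide +kernel) ?_
    refine jn 2179 (by decide +kernel) ?_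
    refine jn 2182 (by decide +kernel) ?_
    refine jn 2194 (by decide +kernel) ?_
    refine jn 2218 (by decide +kernel) ?_
    refine jn 2222 (by decide +kernel) ?_
    refine jn 2230 (by decide +kernel) ?_
    refine jn 2233 (by decide +kernel) ?_
    refine jn 2243 (by decide +kernel) ?_
    refine jn 2255 (by decide +kernel) ?_
    refine jn 2262 (by decide +kernel) ?_
    refine jn 2267 (by decide +kernel) ?_
    refine jn 2275 (by decide +kernel) ?_
    refine jn 2276 (by decide +kernel) ?_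
    refine jn 2286 (by decide +kernel) ?_
    refine jn 2294 (by decide +kernel) ?_
    refine jn 2299 (by decide +kernel) ?_
    refine jn 2303 (by decide +kernel) ?_
    refine jn 2307 (by decide +kernel) ?_
    refine jn 2310 (by decide +kernel) ?_
    refine jn 2314 (by decide +kernel) ?_
    refine jn 2319 (by decide +kernel) ?_
    refine jn 2326 (by decide +kernel) ?_
    refine jn 2335 (by decide +kernel) ?_
    refine jn 2343 (by decide +kernel) ?_
    refine jn 2358 (by decide +kernel) ?_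
    refine jn 2364 (by decide +kernel) ?_
    refine jn 2371 (by decide +kernel) ?_
    refine jn 2380 (by decide +kernel) ?_
    refine jn 2382 (by decide +kernel) ?_
    refine jn 2392 (by decide +kernel) ?_
    refine jn 2395 (by decide +kernel) ?_
    refine jn 2407 (by decide +kernel) ?_
    refine jn 2431 (by decide +kernel) ?_
    refine jn 2434 (by decide +kernel) ?_
    refine jn 2443 (by decide +kernel) ?_
    refine jn 2446 (by decide +kernel) ?_
    refine jn 2472 (by decide +kernel) ?_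
    refine jn 2496 (by decide +kernel) ?_
    refine jn 2521 (by decide +kernel) ?_
    refine jn 2540 (by decide +kernel) ?_
    refine jn 2565 (by decide +kernel) ?_
    refine jn 2595 (by decide +kernel) ?_
    refine jn 2619 (by decide +kernel) ?_
    refine jn 2648 (by decide +kernel) ?_
    refine jn 2672 (by decide +kernel) ?_
    refine jn 2703 (by decide +kernel) ?_
    refine jn 2732 (by decide +kernel) ?_
    refine jn 2768 (by decide +kernel) ?_
    refine jn 2774 (by decide +kernel) ?_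
    refine jn 2780 (by decide +kernel) ?_
    refine jn 2798 (by decide +kernel) ?_
    refine jn 2812 (by decide +kernel) ?_
    refine jn 2824 (by decide +kernel) ?_
    refine jn 2831 (by decide +kernel) ?_
    refine jn 2832 (by decide +kernel) ?_
    refine jn 2852 (by decide +kernel) ?_
    refine jn 2859 (by decide +kernel) ?_
    refine jn 2870 (by decide +kernel) ?_
    refine jn 2892 (by decide +kernel) ?_
    refine jn 2900 (by decide +kernel) ?_
    refine jn 2919 (by decide +kernel) ?_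
    refine jn 2940 (by decide +kernel) ?_
    refine jn 2951 (by decide +kernel) ?_
    refine jn 2966 (by decide +kernel) ?_
    refine jn 2991 (by decide +kernel) ?_
    refine jn 3002 (by decide +kernel) ?_
    refine jn 3020 (by decide +kernel) ?_
    refine jn 3030 (by decide +kernel) ?_
    refine jn 3047 (by decide +kernel) ?_
    refine jn 3079 (by decide +kernel) ?_
    refine jn 3098 (by decide +kernel) ?_
    refine jn 3120 (by decide +kernel) ?_
    refine jn 3144 (by decide +kernel) ?_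
    refine jn 3176 (by decide +kernel) ?_
    refine jn 3200 (by decide +kernel) ?_
    refine jn 3223 (by decide +kernel) ?_
    refine jn 3250 (by decide +kernel) ?_
    refine jn 3282 (by decide +kernel) ?_
    refine jn 3308 (by decide +kernel) ?_
    refine jn 3339 (by decide +kernel) ?_
    refine jn 3360 (by decide +kernel) ?_
    refine jn 3382 (by decide +kernel) ?_
    refine jn 3422 (by decide +kernel) ?_
    refine jn 3448 (by decide +kernel) ?_
    refine jn 3482 (by decide +kernel) ?_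
    refine jn 3509 (by decide +kernel) ?_
    refine jn 3524 (by decide +kernel) ?_
    refine jn 3541 (by decide +kernel) ?_
    refine jn 3559 (by decide +kernel) ?_
    refine jn 3577 (by decide +kernel) ?_
    refine jn 3608 (by decide +kernel) ?_
    refine jn 3632 (by decide +kernel) ?_
    refine jn 3645 (by decide +kernel) ?_
    refine jn 3659 (by decide +kernel) ?_
    refine jn 3684 (by decide +kernel) ?_
    refine jn 3707 (by decide +kernel) ?_
    refine jn 3731 (by decide +kernel) ?_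
    refine jn 3747 (by decide +kernel) ?_
    refine jn 3769 (by decide +kernel) ?_
    refine jn 3788 (by decide +kernel) ?_
    refine jn 3803 (by decide +kernel) ?_
    refine jn 3827 (by decide +kernel) ?_
    refine jn 3843 (by decide +kernel) ?_
    refine jn 3869 (by decide +kernel) ?_
    refine jn 3884 (by decide +kernel) ?_
    refine jn 3907 (by decide +kernel) ?_
    refine jn 3947 (by decide +kernel) ?_
    refine jn 3956 (by decide +kernel) ?_
    refine jn 3968 (by decide +kernel) ?_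
    refine jn 3993 (by decide +kernel) ?_
    refine jn 4005 (by decide +kernel) ?_
    refine jn 4020 (by decide +kernel) ?_
    refine jn 4031 (by decide +kernel) ?_
    refine jn 4047 (by decide +kernel) ?_
    refine jn 4064 (by decide +kernel) ?_
    refine jn 4071 (by decide +kernel) ?_
    refine jn 4093 (by decide +kernel) ?_
    refine jn 4111 (by decide +kernel) ?_
    refine jn 4125 (by decide +kernel) ?_
    refine jn 4135 (by decide +kernel) ?_
    refine jn 4164 (by decide +kernel) ?_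
    refine jn 4183 (by decide +kernel) ?_
    refine jn 4189 (by decide +kernel) ?_
    refine jn 4200 (by decide +kernel) ?_
    refine jn 4221 (by decide +kernel) ?_
    refine jn 4240 (by decide +kernel) ?_
    refine jn 4257 (by decide +kernel) ?_
    refine jn 4284 (by decide +kernel) ?_
    refine jn 4299 (by decide +kernel) ?_
    refine jn 4309 (by decide +kernel) ?_
    refine jn 4332 (by decide +kernel) ?_
    refine jn 4356 (by decide +kernel) ?_
    refine jn 4385 (by decide +kernel) ?_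
    refine jn 4404 (by decide +kernel) ?_
    refine jn 4419 (by decide +kernel) ?_
    refine jn 4440 (by decide +kernel) ?_
    refine jn 4455 (by decide +kernel) ?_
    refine jn 4464 (by decide +kernel) ?_
    refine jn 4483 (by decide +kernel) ?_
    refine jn 4514 (by decide +kernel) ?_
    refine jn 4550 (by decide +kernel) ?_
    refine jn 4571 (by decide +kernel) ?_
    refine jn 4590 (by decide +kernel) ?_
    refine jn 4611 (by decide +kernel) ?_
    refine jn 4627 (by decide +kernel) ?_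
    refine jn 4663 (by decide +kernel) ?_
    refine jn 4683 (by decide +kernel) ?_
    refine jn 4706 (by decide +kernel) ?_
    refine jn 4730 (by decide +kernel) ?_
    refine jn 4752 (by decide +kernel) ?_
    refine jn 4770 (by decide +kernel) ?_
    refine jn 4796 (by decide +kernel) ?_
    refine jn 4814 (by decide +kernel) ?_
    refine jn 4842 (by decide +kernel) ?_
    refine jn 4863 (by decide +kernel) ?_
    refine jn 4874 (by decide +kernel) ?_
    refine jn 4895 (by decide +kernel) ?_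
    refine jn 4938 (by decide +kernel) ?_
    refine jn 4959 (by decide +kernel) ?_
    refine jn 4978 (by decide +kernel) ?_
    refine jn 5007 (by decide +kernel) ?_
    refine jn 5034 (by decide +kernel) ?_
    refine jn 5052 (by decide +kernel) ?_
    refine jn 5070 (by decide +kernel) ?_
    refine jn 5102 (by decide +kernel) ?_
    refine jn 5127 (by decide +kernel) ?_
    refine jn 5148 (by decide +kernel) ?_
    refine jn 5168 (by decide +kernel) ?_
    refine jn 5202 (by decide +kernel) ?_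
    refine jn 5223 (by decide +kernel) ?_
    refine jn 5251 (by decide +kernel) ?_
    refine jn 5272 (by decide +kernel) ?_
    refine jn 5295 (by decide +kernel) ?_
    refine jn 5354 (by decide +kernel) ?_
    refine jn 5462 (by decide +kernel) ?_
    refine jn 5596 (by decide +kernel) ?_
    refine jn 5655 (by decide +kernel) ?_
    refine jn 5697 (by decide +kernel) ?_
    refine jn 5739 (by decide +kernel) ?_
    refine jn 5789 (by decide +kernel) ?_
    refine jn 5844 (by decide +kernel) ?_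
    refine jn 5876 (by decide +kernel) ?_
    refine jn 5931 (by decide +kernel) ?_
    refine jn 5976 (by decide +kernel) ?_
    refine jn 6032 (by decide +kernel) ?_
    refine jn 6092 (by decide +kernel) ?_
    refine jn 6144 (by decide +kernel) ?_
    refine jn 6192 (by decide +kernel) ?_
    refine jn 6232 (by decide +kernel) ?_
    refine jn 6295 (by decide +kernel) ?_
    refine jn 6347 (by decide +kernel) ?_
    refine jn 6404 (by decide +kernel) ?_
    refine jn 6468 (by decide +kernel) ?_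
    refine jn 6512 (by decide +kernel) ?_
    refine jn 6564 (by decide +kernel) ?_
    refine jn 6621 (by decide +kernel) ?_
    refine jn 6669 (by decide +kernel) ?_
    refine jn 6711 (by decide +kernel) ?_
    refine jn 6757 (by decide +kernel) ?_
    refine jn 6969 (by decide +kernel) ?_
    refine jn 7020 (by decide +kernel) ?_
    refine jn 7080 (by decide +kernel) ?_
    refine jn 7141 (by decide +kernel) ?_
    refine jn 7212 (by decide +kernel) ?_
    refine jn 7272 (by decide +kernel) ?_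
    refine jn 7318 (by decide +kernel) ?_
    refine jn 7370 (by decide +kernel) ?_
    refine jn 7428 (by decide +kernel) ?_
    refine jn 7481 (by decide +kernel) ?_
    refine jn 7529 (by decide +kernel) ?_
    refine jn 7581 (by decide +kernel) ?_
    refine jn 7644 (by decide +kernel) ?_
    refine jn 7697 (by decide +kernel) ?_
    refine jn 7776 (by decide +kernel) ?_
    refine jn 7840 (by decide +kernel) ?_
    refine jn 7901 (by decide +kernel) ?_
    refine jn 7965 (by decide +kernel) ?_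
    refine jn 8025 (by decide +kernel) ?_
    refine jn 8074 (by decide +kernel) ?_
    refine jn 8140 (by decide +kernel) ?_
    refine jn 8196 (by decide +kernel) ?_
    refine jn 8258 (by decide +kernel) ?_
    refine jn 8332 (by decide +kernel) ?_
    refine jn 8377 (by decide +kernel) ?_
    refine jn 8448 (by decide +kernel) ?_
    refine jn 8516 (by decide +kernel) ?_
    refine jn 8594 (by decide +kernel) ?_
    refine jn 8640 (by decide +kernel) ?_
    refine jn 8951 (by decide +kernel) ?_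
    refine jn 9124 (by decide +kernel) ?_
    refine jn 9261 (by decide +kernel) ?_
    refine jn 9367 (by decide +kernel) ?_
    refine jn 9452 (by decide +kernel) ?_
    refine jn 9549 (by decide +kernel) ?_
    refine jn 9632 (by decide +kernel) ?_
    refine jn 9696 (by decide +kernel) ?_
    refine jn 9765 (by decide +kernel) ?_
    refine jn 9827 (by decide +kernel) ?_
    refine jn 9885 (by decide +kernel) ?_
    refine jn 9956 (by decide +kernel) ?_
    refine jn 10273 (by decide +kernel) ?_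
    refine jn 10480 (by decide +kernel) ?_
    refine jn 10632 (by decide +kernel) ?_
    refine jn 10748 (by decide +kernel) ?_
    refine jn 10837 (by decide +kernel) ?_
    refine jn 10925 (by decide +kernel) ?_
    refine jn 11017 (by decide +kernel) ?_
    refine jn 11091 (by decide +kernel) ?_
    refine jn 11162 (by decide +kernel) ?_
    refine jn 11220 (by decide +kernel) ?_
    refine jn 11644 (by decide +kernel) ?_
    refine jn 11822 (by decide +kernel) ?_
    refine jn 11956 (by decide +kernel) ?_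
    refine jn 12097 (by decide +kernel) ?_
    refine jn 12228 (by decide +kernel) ?_
    refine jn 12314 (by decide +kernel) ?_
    refine jn 12406 (by decide +kernel) ?_
    refine jn 12502 (by decide +kernel) ?_
    refine jn 12644 (by decide +kernel) ?_
    refine jn 12956 (by decide +kernel) ?_
    refine jn 13080 (by decide +kernel) ?_
    refine jn 13197 (by decide +kernel) ?_
    refine jn 13296 (by decide +kernel) ?_
    refine jn 13377 (by decide +kernel) ?_
    refine jn 13448 (by decide +kernel) ?_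
    refine jn 13521 (by decide +kernel) ?_
    refine jn 13609 (by decide +kernel) ?_
    refine jn 13680 (by decide +kernel) ?_
    refine jn 13733 (by decide +kernel) ?_
    refine jn 13785 (by decide +kernel) ?_
    refine jn 14019 (by decide +kernel) ?_
    refine jn 14343 (by decide +kernel) ?_
    refine jn 14482 (by decide +kernel) ?_
    refine jn 14605 (by decide +kernel) ?_
    refine jn 14727 (by decide +kernel) ?_
    refine jn 14817 (by decide +kernel) ?_
    refine jn 14923 (by decide +kernel) ?_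
    refine jn 14998 (by decide +kernel) ?_
    refine jn 15068 (by decide +kernel) ?_
    refine jn 15456 (by decide +kernel) ?_
    refine jn 15776 (by decide +kernel) ?_
    refine jn 15942 (by decide +kernel) ?_
    refine jn 16076 (by decide +kernel) ?_
    refine jn 16200 (by decide +kernel) ?_
    refine jn 16328 (by decide +kernel) ?_
    refine jn 16411 (by decide +kernel) ?_
    refine jn 17245 (by decide +kernel) ?_
    exact je (by decide +kernel)

end Pool.Agent.MP_2339ce_nt.NR
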