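import Pool.Agent.MP_2339ce_nt.Q2.NC.L9
import Pool.Agent.MP_2339ce_nt.Q2.CkI

/-! Block NR: runs. -/

set_option autoImplicit false
set_option maxRecDepth 100000

noncomputable section

namespace Pool.Agent.MP_2339ce_nt.NR

open Q2.Top

def T94_0 : Ph :=
  (.na 1025 15 (.na 739 6 (.na 308 3 (.na 1 2 .ne (.nx 307 3329023 (.nr 306 623489 (.nx 291 2097153
  (.nx 109 41287 (.nx 4 202 (.nx 3 201 (.nr 2 27 (.lg 0 false 1 41 41 5 0 48240) (.l1 .sk)) (.l1
  .sk)) (.nr 95 220437 (.lg 0 false 91 101 109 13 0 48288240) (.nx 108 324 (.lg 0 false 13 79 79 9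
  0 41808) .out))) (.nr 290 155873 (.nr 175 3446 (.nx 148 832257 (.nr 135 1025 (.lg 0 true 26 97
  101 11 0 627120) (.lg 2 true 13 97 101 9 81602 627120)) (.nr 174 257 (.lg 0 true 26 83 89 11 0
  41808) .out)) (.nx 289 524289 (.nr 182 6051 (.lg 2 true 7 89 89 9 15291 337680) (.nx 234 82572
  (.nx 208 58387 (.lg 1 false 26 103 109 11 76364 48288240) (.lg 1 false 26 103 109 11 53999
  48288240)) (.nr 288 131073 (.nr 247 38969 (.lg 2 false 13 103 107 9 9583 48288240) (.nx 287
  262145 (.nr 260 77937 (.lg 2 false 13 107 107 9 19116 48288240) (.nx 286 208065 (.lg 2 false 26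
  103 109 11 32116 48288240) .out)) .out)) .out))) .out)) .out)) (.nr 305 9 (.lg 0 true 14 71 71 9
  0 22512) .out)) .out) .out)) (.na 554 4 (.nx 553 6658044 (.nr 552 1482912 (.nx 311 202 (.nx 310
  201 (.nr 309 38 (.lg 0 false 1 37 37 5 0 4824) (.l1 .sk)) (.l1 .sk)) (.nx 369 32768 (.nr 355
  185365 (.lg 0 false 44 101 109 16 0 48288240) (.nx 368 324 (.lg 0 false 13 79 79 13 0 62712)
  .out)) (.nr 551 220437 (.nx 517 1321124 (.nr 403 748 (.nx 391 660563 (.lg 0 true 22 89 89 16 0
  106128) (.nr 402 129 (.lg 0 true 11 79 79 7 0 53064) .out)) (.nx 516 524289 (.nx 425 52017 (.lg 1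
  false 22 103 107 16 136019 48288240) (.nr 515 185365 (.nx 492 165142 (.nx 480 131073 (.nx 469
  96321 (.lg 1 false 44 101 109 16 72065 48288240) (.lg 1 false 11 107 109 7 38918 48288240)) (.nr
  491 155873 (.lg 1 true 11 103 107 7 24054 48288240) .out)) (.nr 514 92683 (.nr 503 6513 (.lg 2
  true 11 97 101 7 70443 1857240) (.lg 2 false 11 101 103 7 11362 1857240)) .out)) .out)) .out))
  (.nr 550 33 (.lg 0 true 33 79 79 7 0 53064) .out)) .out))) .out) .out) (.na 555 5 .ne (.nx 738
  16777217 (.nr 737 1482912 (.nx 708 2097153 (.nx 696 660563 (.nx 557 201 (.nr 556 59 (.lg 0 false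
  1 31 31 9 0 24120) (.l1 .sk)) (.nx 558 202 (.l1 .sk) (.nx 604 41285 (.nr 586 155873 (.lg 0 false
  28 97 103 16 0 337680) (.nx 603 2049 (.nx 597 324 (.lg 0 false 11 79 79 16 0 88440) (.nx 598 645
  .out (.nr 602 185365 (.lg 0 false 4 83 83 13 0 48240) .out))) .out)) (.nr 695 220437 (.nr 617 956
  (.lg 0 true 13 83 89 16 0 104520) (.nx 629 52015 (.nr 628 185365 (.lg 1 false 11 101 103 16 90798
  3714480) .out) (.nx 655 112360 (.nx 642 76448 (.lg 1 false 13 101 107 16 85688 4389840) (.lg 1
  false 13 101 107 16 58302 4389840)) (.nx 668 165142 (.lg 1 true 13 101 107 16 39668 4389840) (.nr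
  694 131073 (.nr 679 8843 (.nr 675 4213 (.lg 2 true 7 89 97 16 69443 168840) (.lg 2 true 4 83 89
  13 15758 48240)) (.nx 686 208065 (.lg 1 true 7 97 103 16 16058 337680) (.nr 693 77937 (.lg 2
  false 7 101 103 16 7587 3714480) .out))) .out))))) .out)))) (.nr 707 217 (.lg 0 true 11 83 83 16
  0 88440) .out)) (.nr 736 24 (.lg 0 true 28 79 79 16 0 112560) .out)) .out) .out)))) (.na 882 10
  (.na 880 7 (.nx 879 16777217 (.nr 878 1048577 (.nx 742 202 (.nx 741 201 (.nr 740 69 (.lg 0 true 1
  31 31 7 0 9648) (.l1 .sk)) (.l1 .sk)) (.nx 832 1048577 (.nx 743 257 (.l1 (.ls 89 47 4210)) (.nr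
  831 623489 (.nx 744 324 (.l1 (.ls 83 47 6490)) (.nr 830 370729 (.nx 767 41285 (.nr 755 155873
  (.lg 0 false 11 103 107 13 0 3714480) (.nx 766 2049 (.lg 0 false 11 89 89 13 0 106128) .out))
  (.nr 829 220437 (.nr 780 1026 (.lg 0 true 13 89 89 13 0 125424) (.nx 828 660563 (.nx 813 208065
  (.nx 791 76448 (.lg 1 false 11 103 103 13 107959 3714480) (.nx 802 112360 (.lg 1 false 11 101 103
  13 58302 3714480) (.lg 1 true 11 103 103 13 39668 3714480))) (.nr 827 77937 (.nr 820 8201 (.lg 2
  true 7 97 97 13 64705 337680) (.lg 2 false 7 97 97 13 8095 337680)) .out)) .out)) .out)) .out))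
  .out)) (.nr 877 129 (.nr 865 43 (.lg 0 true 33 79 79 13 0 106128) (.nx 876 2097153 (.lg 0 true 11
  73 73 13 0 106128) .out)) .out))) .out) .out) (.na 881 9 .ne (.lg 0 false 1 0 0 7 0 24))) (.na
  960 12 (.nx 959 2097153 (.nr 958 1048577 (.nx 885 202 (.nx 884 201 (.nr 883 120 (.lg 0 true 1 37
  37 11 0 337680) (.l1 .sk)) (.l1 .sk)) (.nx 948 660563 (.nx 886 257 (.l1 (.ls 89 41 2527)) (.nr
  947 623489 (.nx 907 52015 (.nr 899 185365 (.lg 0 false 13 103 109 19 0 48288240) (.nx 906 1292
  (.lg 0 false 7 83 89 13 0 112560) .out)) (.nr 946 220437 (.nr 914 925 (.lg 0 true 7 89 89 13 0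
  112560) (.nx 937 208065 (.nx 925 104033 (.lg 1 false 11 103 109 19 85688 48288240) (.nr 936
  185365 (.lg 1 true 11 101 109 19 36033 48288240) .out)) (.nr 945 65537 (.nr 940 3614 (.lg 2 true
  3 89 89 13 71770 337680) (.nr 942 14114 (.lg 2 false 2 97 97 11 18370 337680) (.lg 2 false 3 97
  97 13 6383 337680))) .out))) .out)) .out)) (.nr 957 65 (.lg 0 true 9 73 73 13 0 48240) .out)))
  .out) .out) (.na 961 14 .ne (.nx 1024 2097153 (.nr 1023 1048577 (.nx 964 202 (.nx 963 201 (.nr
  962 150 (.lg 0 false 1 31 31 11 0 337680) (.l1 .sk)) (.l1 .sk)) (.nx 965 257 (.l1 (.ls 83 41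
  1806)) (.nr 1022 623489 (.nr 1016 185365 (.nx 1010 660563 (.nx 976 48160 (.lg 0 false 11 101 103
  19 0 3714480) (.nr 987 2236 (.lg 0 true 11 89 97 19 0 3714480) (.nx 998 104033 (.lg 1 false 11 97
  103 19 77836 3714480) (.nr 1009 155873 (.lg 2 false 11 97 103 19 30306 3714480) .out)))) (.nr
  1015 65 (.lg 0 true 5 71 71 13 0 112560) .out)) (.nx 1021 1292 (.lg 0 false 5 83 83 13 0 112560)
  .out)) .out))) .out) .out))))) (.na 1165 30 (.na 1087 21 (.na 1085 16 (.nx 1084 2097153 (.nr 1083
  1048577 (.nr 1026 5 .s1 (.nx 1029 202 (.nx 1028 201 (.nr 1027 160 (.lg 0 true 1 23 23 16 0 24120)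
  (.l1 .sk)) (.l1 .sk)) (.nx 1030 257 (.l1 (.ls 83 37 1686)) (.nr 1082 623489 (.nr 1077 185365 (.nx
  1071 660563 (.nx 1041 48160 (.lg 0 false 11 97 101 17 0 1857240) (.nr 1048 2318 (.lg 0 true 7 83
  83 17 0 168840) (.nx 1059 104033 (.lg 1 false 11 89 101 17 77836 1857240) (.nr 1070 155873 (.lg 2
  false 11 89 101 17 30306 1857240) .out)))) (.nr 1076 65 (.lg 0 true 5 61 61 16 0 24120) .out))
  (.nx 1081 1292 (.lg 0 false 4 83 83 16 0 48240) .out)) .out)))) .out) .out) (.na 1086 18 .ne (.lg
  0 false 1 0 0 7 0 24))) (.na 1129 23 (.nx 1128 2097153 (.nr 1127 1048577 (.nr 1088 16 .s1 (.nx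
  1092 324 (.nx 1090 201 (.nr 1089 231 (.lg 0 true 1 29 29 16 0 168840) (.l1 .sk)) (.nx 1091 202
  (.l1 .sk) (.l1 (.ls 83 41 3058)))) (.nr 1126 623489 (.nr 1121 262145 (.nr 1116 185365 (.nx 1110
  416129 (.nx 1096 41286 (.lg 0 false 4 101 103 17 0 337680) (.nr 1109 155873 (.nr 1100 2200 (.lg 0
  true 4 83 83 17 0 67536) (.nx 1104 82572 (.lg 1 false 4 97 101 17 76366 337680) (.nr 1108 131073
  (.lg 2 false 4 97 101 17 32116 337680) .out))) .out)) (.nr 1115 257 (.lg 0 true 5 73 73 17 0
  168840) .out)) (.nx 1120 10323 (.lg 0 false 4 89 89 17 0 337680) .out)) (.nx 1125 2049 (.lg 0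
  false 4 83 83 17 0 67536) .out)) .out))) .out) .out) (.na 1164 27 (.nx 1163 2097153 (.nr 1162
  1048577 (.nr 1130 19 .s1 (.nx 1133 202 (.nx 1132 201 (.nr 1131 271 (.lg 0 false 1 29 29 11 0
  24120) (.l1 .sk)) (.l1 .sk)) (.nx 1134 324 (.l1 (.ls 83 37 2793)) (.nr 1161 524289 (.nx 1148
  52017 (.nr 1141 185365 (.lg 0 false 7 97 101 16 0 168840) (.nx 1147 13005 (.nr 1145 370729 (.lg 0
  false 4 97 97 16 0 48240) (.nx 1146 1292 (.lg 0 true 1 79 79 11 0 1608) .out)) .out)) (.nr 1160
  92683 (.nr 1155 812 (.lg 0 true 7 79 79 16 0 11256) (.nx 1159 330282 (.lg 2 false 4 101 101 16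
  40879 48240) .out)) .out)) .out)))) .out) .out) (.lg 0 false 1 0 0 7 0 24)))) (.na 1229 37 (.na
  1200 32 (.nx 1199 2097153 (.nr 1198 1048577 (.nr 1166 27 .s1 (.nx 1186 52017 (.nx 1168 201 (.nr
  1167 321 (.lg 0 false 1 23 23 19 0 48240) (.l1 .sk)) (.nx 1169 202 (.l1 .sk) (.nx 1170 324 (.l1
  (.ls 83 43 2142)) (.nr 1185 524289 (.nr 1177 185365 (.lg 0 false 7 89 97 29 0 337680) (.nx 1184
  13005 (.lg 0 false 7 83 97 29 0 337680) .out)) .out)))) (.nr 1197 92683 (.nr 1193 930 (.lg 0 true
  7 79 79 29 0 337680) (.nx 1196 330282 (.lg 2 false 3 89 97 23 36072 48240) .out)) .out))) .out)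
  .out) (.na 1201 35 .ne (.nx 1228 2097153 (.nr 1227 881745 (.nr 1202 33 .s1 (.nx 1204 201 (.nr
  1203 372 (.l1 (.ls 29 31 1157)) (.l1 .sk)) (.nx 1205 202 (.l1 .sk) (.nx 1222 208065 (.nx 1206 324
  (.l1 (.ls 83 37 1836)) (.nr 1221 623489 (.nx 1218 131073 (.nr 1210 65537 (.lg 0 false 4 89 89 19
  0 112560) (.nx 1217 32769 (.nx 1214 13005 (.lg 0 false 4 97 101 19 0 337680) (.nr 1216 155873
  (.lg 0 false 2 97 101 17 0 337680) .out)) .out)) (.nr 1220 27556 (.nr 1219 9392 (.lg 0 false 1 89
  89 16 0 56280) (.lg 2 false 1 73 73 16 4278 56280)) .out)) .out)) (.nr 1226 257 (.lg 0 true 4 73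
  73 19 0 112560) .out))))) .out) .out))) (.na 1256 41 (.nx 1255 2097153 (.nr 1254 881745 (.nr 1230
  35 .s1 (.nx 1234 324 (.nx 1232 201 (.nr 1231 412 (.lg 0 false 1 19 19 16 0 24120) (.l1 .sk)) (.nx
  1233 202 (.l1 .sk) (.l1 (.ls 73 29 1737)))) (.nr 1253 623489 (.nr 1248 155873 (.nx 1238 32769
  (.lg 0 false 4 89 97 16 0 48240) (.nr 1247 65537 (.nr 1242 412 (.lg 0 true 4 71 71 16 0 3216)
  (.nx 1246 208065 (.lg 2 false 4 89 89 16 50754 48240) .out)) .out)) (.nx 1252 13005 (.lg 0 false
  4 89 89 16 0 3216) .out)) .out))) .out) .out) (.na 1279 42 (.nx 1278 2097153 (.nr 1277 881745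
  (.nr 1257 39 .s1 (.nx 1261 324 (.nx 1259 201 (.nr 1258 422 (.lg 0 true 1 19 19 16 0 168840) (.l1
  .sk)) (.nx 1260 202 (.l1 .sk) (.l1 (.ls 73 29 1568)))) (.nr 1276 623489 (.nx 1265 26009 (.lg 0
  false 4 101 101 16 0 337680) (.nr 1275 77937 (.nr 1270 422 (.lg 0 true 5 61 71 16 0 8040) (.nx
  1274 208065 (.lg 2 false 4 97 97 16 60689 337680) .out)) .out)) .out))) .out) .out) (.nx 1301
  2097153 (.nr 1300 881745 (.nr 1280 40 .s1 (.nx 1284 324 (.nx 1282 201 (.nr 1281 432 (.l1 (.ls 29
  41 964)) (.l1 .sk)) (.nx 1283 202 (.l1 .sk) (.l1 (.ls 79 43 1530)))) (.nr 1299 623489 (.nx 1289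
  26009 (.lg 0 false 5 97 101 29 0 337680) (.nr 1298 77937 (.nr 1294 432 (.lg 0 true 5 73 73 29 0
  337680) (.nx 1297 208065 (.lg 2 false 3 97 97 23 60689 337680) .out)) .out)) .out))) .out)
  .out))))))

def T94_1 : Ph :=
  (.na 400 10 (.na 265 8 (.na 131 7 (.nx 130 16777217 (.nr 129 1048577 (.nx 3 193 (.nx 2 192 (.nr 1
  68 (.lg 0 true 1 31 31 7 0 144) (.l1 .sk)) (.l1 .sk)) (.nx 6 324 (.nx 4 257 (.l1 (.ls 83 47
  4803)) (.nr 5 623489 (.l1 (.ls 79 47 6490)) .out)) (.nr 128 370729 (.nx 25 41285 (.nr 17 155873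
  (.lg 0 false 11 103 107 13 0 720720) (.nx 24 2049 (.lg 0 false 7 83 83 13 0 5040) .out)) (.nr 127
  220437 (.nx 84 660563 (.nr 43 8201 (.nr 36 1026 (.lg 0 true 11 83 83 13 0 1584) (.lg 2 true 7 89
  89 13 61808 5040)) (.nx 76 208065 (.nx 65 112360 (.nx 54 76448 (.lg 1 false 11 101 103 13 98503
  720720) (.lg 1 false 11 89 97 13 53196 7920)) (.lg 1 true 11 101 103 13 36194 720720)) (.nr 83
  77937 (.lg 2 false 7 89 89 13 7733 5040) .out))) (.nr 126 257 (.nx 97 2097153 (.lg 0 true 13 73
  73 13 0 1872) (.nr 125 28 (.lg 0 true 28 73 73 11 0 1008) .out)) .out)) .out)) .out))) .out)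
  .out) (.nx 264 16777217 (.nr 263 1246976 (.nx 134 193 (.nx 133 192 (.nr 132 78 (.lg 0 true 1 31
  31 9 0 1008) (.l1 .sk)) (.l1 .sk)) (.nr 257 440873 (.nx 210 1048577 (.nx 150 32768 (.nr 144
  155873 (.lg 0 false 10 101 103 16 0 65520) (.nx 149 2049 (.lg 0 false 5 89 89 16 0 1680) .out))
  (.nr 209 220437 (.nr 160 642 (.lg 0 true 10 83 83 16 0 1680) (.nx 208 832257 (.nx 171 65536 (.nr
  170 185365 (.nx 165 46340 (.lg 1 false 5 97 101 16 104378 5040) (.lg 1 false 5 97 101 16 73808
  5040)) .out) (.nx 176 89181 (.lg 1 false 5 97 101 16 62053 5040) (.nx 181 121357 (.lg 1 false 5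
  101 103 16 45601 65520) (.nr 186 2833 (.lg 2 true 5 89 89 16 124450 5040) (.nx 191 165142 (.lg 1
  true 5 101 103 16 33510 65520) (.nr 207 185365 (.nr 196 12496 (.lg 2 true 5 89 89 16 28203 5040)
  (.nx 201 208065 (.lg 1 true 5 97 101 16 20711 65520) (.nr 206 110219 (.lg 2 false 5 97 101 16
  9782 5040) .out))) .out)))))) .out)) .out)) (.nr 256 129 (.nx 220 2097153 (.lg 0 true 10 73 73 16
  0 1680) (.nr 255 47 (.lg 0 true 35 79 79 16 0 1680) .out)) .out)) (.nx 262 257 (.lg 0 false 5 71
  71 16 0 1680) .out))) .out) .out)) (.na 399 9 (.nx 398 16777217 (.nr 397 1048577 (.nx 268 193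
  (.nx 267 192 (.nr 266 88 (.lg 0 true 1 29 29 9 0 144) (.l1 .sk)) (.l1 .sk)) (.nr 391 623489 (.nx
  290 26007 (.nr 278 155873 (.lg 0 false 10 89 97 13 0 720) (.nx 289 2049 (.nr 283 370729 (.lg 0
  false 5 83 83 13 0 240) (.nx 288 814 (.lg 0 false 5 73 73 13 0 240) .out)) .out)) (.nr 390 220437
  (.nr 325 55 (.lg 0 true 35 79 79 13 0 1680) (.nx 389 2097153 (.nx 383 1048577 (.nx 336 52015 (.nr
  335 185365 (.lg 1 false 10 101 107 13 131513 720720) .out) (.nr 346 971 (.lg 0 true 10 79 83 13 0
  240) (.nx 351 76448 (.lg 1 false 5 103 103 13 78183 720720) (.nr 356 3732 (.lg 2 true 5 83 83 13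
  103670 720) (.nx 372 208065 (.nx 361 112360 (.lg 1 false 5 103 103 13 53196 720720) (.nx 366
  165142 (.lg 1 true 5 103 103 13 36194 720720) (.nr 371 185365 (.lg 1 true 5 89 97 13 20711 720)
  .out))) (.nr 382 110219 (.nr 377 14343 (.lg 2 true 5 83 83 13 26974 720) (.lg 2 false 5 89 97 13
  9782 720)) .out)))))) (.nr 388 129 (.lg 0 true 5 67 67 13 0 240) .out)) .out)) .out)) (.nx 396
  324 (.lg 0 false 5 71 71 13 0 240) .out))) .out) .out) (.lg 0 false 1 0 0 7 0 24))) (.na 460 13
  (.na 401 12 .ne (.nx 459 2097153 (.nr 458 1048577 (.nx 450 660563 (.nx 403 192 (.nr 402 127 (.lg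
  0 true 1 29 29 13 0 1008) (.l1 .sk)) (.nx 404 193 (.l1 .sk) (.nx 405 257 (.l1 (.ls 79 43 2403))
  (.nr 449 623489 (.nr 443 185365 (.nx 416 48160 (.lg 0 false 11 97 101 23 0 144144) (.nr 426 8170
  (.nr 421 1018 (.lg 0 true 5 79 79 17 0 720) (.lg 2 true 5 83 89 17 62293 5040)) (.nx 431 104033
  (.lg 1 false 5 101 101 17 71018 65520) (.nr 442 155873 (.nx 436 208065 (.lg 1 true 5 97 101 17
  27651 65520) (.nr 441 65537 (.lg 2 false 5 83 89 17 7762 5040) .out)) .out)))) (.nx 448 1292 (.lg
  0 false 5 79 79 17 0 720) .out)) .out)))) (.nr 457 65 (.lg 0 true 7 67 67 19 0 1008) .out)) .out)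
  .out)) (.na 513 14 (.nx 512 2097153 (.nr 511 1048577 (.nx 503 660563 (.nx 464 257 (.nx 462 192
  (.nr 461 137 (.lg 0 true 1 29 29 9 0 1872) (.l1 .sk)) (.nx 463 193 (.l1 .sk) (.l1 (.ls 79 31
  2218)))) (.nr 502 623489 (.nr 496 185365 (.nx 474 48160 (.lg 0 false 10 97 101 16 0 65520) (.nr
  479 2126 (.lg 0 true 5 83 83 16 0 3120) (.nx 484 104033 (.lg 1 false 5 101 101 16 71018 65520)
  (.nr 495 155873 (.lg 2 false 11 97 103 16 29828 720720) .out)))) (.nx 501 1292 (.lg 0 false 5 79
  79 16 0 3120) .out)) .out)) (.nr 510 65 (.lg 0 true 7 67 67 16 0 4368) .out)) .out) .out) (.na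
  575 16 (.nx 574 2097153 (.nr 573 1048577 (.nr 514 3 .s1 (.nx 517 193 (.nx 516 192 (.nr 515 157
  (.lg 0 true 1 31 31 11 0 5040) (.l1 .sk)) (.l1 .sk)) (.nx 567 660563 (.nx 518 257 (.l1 (.ls 83 41
  2060)) (.nr 566 623489 (.nr 551 155873 (.nr 539 65537 (.nx 523 18433 (.lg 0 false 5 89 89 13 0
  5040) (.nr 528 1173 (.lg 0 true 5 83 83 13 0 1680) (.lg 2 false 11 79 79 19 65728 3696))) (.nx
  550 208065 (.lg 0 true 11 101 107 19 0 720720) .out)) (.nx 565 104033 (.nx 556 1292 (.lg 0 false
  5 83 83 13 0 1680) (.nx 557 5160 .out (.nr 564 185365 (.nx 558 8193 (.lg 0 true 1 83 83 11 0 336)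
  (.nx 559 32768 .out (.lg 0 true 5 101 103 13 0 720720))) .out))) .out)) .out)) (.nr 572 65 (.lg 0
  true 5 67 67 13 0 1680) .out)))) .out) .out) (.nx 639 2097153 (.nr 638 1048577 (.nr 576 9 .s1
  (.nx 578 192 (.nr 577 167 (.lg 0 true 1 37 37 11 0 5040) (.l1 .sk)) (.nx 579 193 (.l1 .sk) (.nr
  635 623489 (.nr 632 311745 (.nx 626 660563 (.nr 624 262145 (.nr 615 155873 (.nr 600 65537 (.nx
  584 20644 (.lg 0 false 5 89 89 17 0 5040) (.nr 589 1222 (.lg 0 true 5 83 83 17 0 240) (.lg 2
  false 11 83 83 23 58688 528))) (.nx 614 262145 (.nx 611 208065 (.lg 0 true 11 101 107 23 0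
  720720) (.nr 613 77937 (.lg 0 true 2 101 103 13 0 720720) .out)) .out)) (.nx 623 104033 (.nr 620
  185365 (.lg 0 true 5 101 107 17 0 720720) (.nx 622 10323 (.lg 0 false 2 97 101 13 0 5040) .out))
  .out)) (.nx 625 2049 (.lg 0 false 1 83 83 11 0 48) .out)) (.nr 631 129 (.lg 0 true 5 71 73 17 0
  240) .out)) (.nx 634 1292 (.lg 0 false 2 89 89 13 0 5040) .out)) (.nx 637 324 (.lg 0 false 2 73
  73 13 0 48) .out))))) .out) .out)))))

theorem c94 :
    OkQ ckI L9 201 1 43 0 34359738368 1 1099511627776 ∧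
    OkQ ckI L9 192 6 17 0 34359738368 1 1099511627776 := by
  refine ⟨?_, ?_⟩
  · refine fin 1608 1302 T94_0 ?_
    refine jn 13 (by decide +kernel) ?_
    refine jn 20 (by decide +kernel) ?_
    refine jn 26 (by decide +kernel) ?_
    refine jn 34 (by decide +kernel) ?_
    refine jn 42 (by decide +kernel) ?_
    refine jn 50 (by decide +kernel) ?_
    refine jn 59 (by decide +kernel) ?_
    refine jn 67 (by decide +kernel) ?_
    refine jn 76 (by decide +kernel) ?_
    refine jn 84 (by decide +kernel) ?_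
    refine jn 91 (by decide +kernel) ?_
    refine jn 108 (by decide +kernel) ?_
    refine jn 120 (by decide +kernel) ?_
    refine jn 131 (by decide +kernel) ?_
    refine jn 135 (by decide +kernel) ?_
    refine jn 148 (by decide +kernel) ?_
    refine jn 174 (by decide +kernel) ?_
    refine jn 182 (by decide +kernel) ?_
    refine jn 208 (by decide +kernel) ?_
    refine jn 234 (by decide +kernel) ?_
    refine jn 260 (by decide +kernel) ?_
    refine jn 281 (by decide +kernel) ?_
    refine jn 305 (by decide +kernel) ?_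
    refine jn 320 (by decide +kernel) ?_
    refine jn 329 (by decide +kernel) ?_
    refine jn 339 (by decide +kernel) ?_
    refine jn 349 (by decide +kernel) ?_
    refine jn 368 (by decide +kernel) ?_
    refine jn 379 (by decide +kernel) ?_
    refine jn 390 (by decide +kernel) ?_
    refine jn 402 (by decide +kernel) ?_
    refine jn 425 (by decide +kernel) ?_
    refine jn 452 (by decide +kernel) ?_
    refine jn 469 (by decide +kernel) ?_
    refine jn 491 (by decide +kernel) ?_
    refine jn 514 (by decide +kernel) ?_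
    refine jn 550 (by decide +kernel) ?_
    refine jn 560 (by decide +kernel) ?_
    refine jn 562 (by decide +kernel) ?_
    refine jn 565 (by decide +kernel) ?_
    refine jn 568 (by decide +kernel) ?_
    refine jn 570 (by decide +kernel) ?_
    refine jn 573 (by decide +kernel) ?_
    refine jn 575 (by decide +kernel) ?_
    refine jn 577 (by decide +kernel) ?_
    refine jn 580 (by decide +kernel) ?_
    refine jn 582 (by decide +kernel) ?_
    refine jn 584 (by decide +kernel) ?_
    refine jn 586 (by decide +kernel) ?_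
    refine jn 597 (by decide +kernel) ?_
    refine jn 606 (by decide +kernel) ?_
    refine jn 609 (by decide +kernel) ?_
    refine jn 612 (by decide +kernel) ?_
    refine jn 615 (by decide +kernel) ?_
    refine jn 617 (by decide +kernel) ?_
    refine jn 628 (by decide +kernel) ?_
    refine jn 642 (by decide +kernel) ?_
    refine jn 655 (by decide +kernel) ?_
    refine jn 668 (by decide +kernel) ?_
    refine jn 675 (by decide +kernel) ?_
    refine jn 686 (by decide +kernel) ?_
    refine jn 693 (by decide +kernel) ?_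
    refine jn 704 (by decide +kernel) ?_
    refine jn 707 (by decide +kernel) ?_
    refine jn 736 (by decide +kernel) ?_
    refine jn 750 (by decide +kernel) ?_
    refine jn 755 (by decide +kernel) ?_
    refine jn 767 (by decide +kernel) ?_
    refine jn 780 (by decide +kernel) ?_
    refine jn 802 (by decide +kernel) ?_
    refine jn 820 (by decide +kernel) ?_
    refine jn 865 (by decide +kernel) ?_
    refine jn 885 (by decide +kernel) ?_
    refine jn 888 (by decide +kernel) ?_
    refine jn 891 (by decide +kernel) ?_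
    refine jn 894 (by decide +kernel) ?_
    refine jn 897 (by decide +kernel) ?_
    refine jn 899 (by decide +kernel) ?_
    refine jn 907 (by decide +kernel) ?_
    refine jn 911 (by decide +kernel) ?_
    refine jn 914 (by decide +kernel) ?_
    refine jn 925 (by decide +kernel) ?_
    refine jn 936 (by decide +kernel) ?_
    refine jn 942 (by decide +kernel) ?_
    refine jn 948 (by decide +kernel) ?_
    refine jn 957 (by decide +kernel) ?_
    refine jn 968 (by decide +kernel) ?_
    refine jn 972 (by decide +kernel) ?_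
    refine jn 976 (by decide +kernel) ?_
    refine jn 984 (by decide +kernel) ?_
    refine jn 987 (by decide +kernel) ?_
    refine jn 998 (by decide +kernel) ?_
    refine jn 1009 (by decide +kernel) ?_
    refine jn 1021 (by decide +kernel) ?_
    refine jn 1033 (by decide +kernel) ?_
    refine jn 1038 (by decide +kernel) ?_
    refine jn 1041 (by decide +kernel) ?_
    refine jn 1047 (by decide +kernel) ?_
    refine jn 1048 (by decide +kernel) ?_
    refine jn 1059 (by decide +kernel) ?_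
    refine jn 1070 (by decide +kernel) ?_
    refine jn 1081 (by decide +kernel) ?_
    refine jn 1092 (by decide +kernel) ?_
    refine jn 1096 (by decide +kernel) ?_
    refine jn 1104 (by decide +kernel) ?_
    refine jn 1115 (by decide +kernel) ?_
    refine jn 1125 (by decide +kernel) ?_
    refine jn 1137 (by decide +kernel) ?_
    refine jn 1141 (by decide +kernel) ?_
    refine jn 1148 (by decide +kernel) ?_
    refine jn 1155 (by decide +kernel) ?_
    refine jn 1169 (by decide +kernel) ?_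
    refine jn 1170 (by decide +kernel) ?_
    refine jn 1177 (by decide +kernel) ?_
    refine jn 1186 (by decide +kernel) ?_
    refine jn 1193 (by decide +kernel) ?_
    refine jn 1205 (by decide +kernel) ?_
    refine jn 1206 (by decide +kernel) ?_
    refine jn 1207 (by decide +kernel) ?_
    refine jn 1208 (by decide +kernel) ?_
    refine jn 1209 (by decide +kernel) ?_
    refine jn 1210 (by decide +kernel) ?_
    refine jn 1214 (by decide +kernel) ?_
    refine jn 1218 (by decide +kernel) ?_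
    refine jn 1219 (by decide +kernel) ?_
    refine jn 1224 (by decide +kernel) ?_
    refine jn 1226 (by decide +kernel) ?_
    refine jn 1238 (by decide +kernel) ?_
    refine jn 1242 (by decide +kernel) ?_
    refine jn 1252 (by decide +kernel) ?_
    refine jn 1265 (by decide +kernel) ?_
    refine jn 1274 (by decide +kernel) ?_
    refine jn 1289 (by decide +kernel) ?_
    refine jn 1297 (by decide +kernel) ?_
    exact je (by decide +kernel)
  · refine fin 48 640 T94_1 ?_
    refine jn 11 (by decide +kernel) ?_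
    refine jn 17 (by decide +kernel) ?_
    refine jn 25 (by decide +kernel) ?_
    refine jn 36 (by decide +kernel) ?_
    refine jn 54 (by decide +kernel) ?_
    refine jn 76 (by decide +kernel) ?_
    refine jn 125 (by decide +kernel) ?_
    refine jn 136 (by decide +kernel) ?_
    refine jn 138 (by decide +kernel) ?_
    refine jn 140 (by decide +kernel) ?_
    refine jn 142 (by decide +kernel) ?_
    refine jn 144 (by decide +kernel) ?_
    refine jn 152 (by decide +kernel) ?_
    refine jn 156 (by decide +kernel) ?_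
    refine jn 160 (by decide +kernel) ?_
    refine jn 170 (by decide +kernel) ?_
    refine jn 181 (by decide +kernel) ?_
    refine jn 191 (by decide +kernel) ?_
    refine jn 201 (by decide +kernel) ?_
    refine jn 210 (by decide +kernel) ?_
    refine jn 220 (by decide +kernel) ?_
    refine jn 255 (by decide +kernel) ?_
    refine jn 268 (by decide +kernel) ?_
    refine jn 270 (by decide +kernel) ?_
    refine jn 272 (by decide +kernel) ?_
    refine jn 274 (by decide +kernel) ?_
    refine jn 276 (by decide +kernel) ?_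
    refine jn 278 (by decide +kernel) ?_
    refine jn 288 (by decide +kernel) ?_
    refine jn 290 (by decide +kernel) ?_
    refine jn 295 (by decide +kernel) ?_
    refine jn 325 (by decide +kernel) ?_
    refine jn 335 (by decide +kernel) ?_
    refine jn 345 (by decide +kernel) ?_
    refine jn 351 (by decide +kernel) ?_
    refine jn 361 (by decide +kernel) ?_
    refine jn 371 (by decide +kernel) ?_
    refine jn 382 (by decide +kernel) ?_
    refine jn 396 (by decide +kernel) ?_
    refine jn 405 (by decide +kernel) ?_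
    refine jn 409 (by decide +kernel) ?_
    refine jn 412 (by decide +kernel) ?_
    refine jn 416 (by decide +kernel) ?_
    refine jn 420 (by decide +kernel) ?_
    refine jn 426 (by decide +kernel) ?_
    refine jn 436 (by decide +kernel) ?_
    refine jn 448 (by decide +kernel) ?_
    refine jn 457 (by decide +kernel) ?_
    refine jn 464 (by decide +kernel) ?_
    refine jn 468 (by decide +kernel) ?_
    refine jn 472 (by decide +kernel) ?_
    refine jn 474 (by decide +kernel) ?_
    refine jn 479 (by decide +kernel) ?_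
    refine jn 484 (by decide +kernel) ?_
    refine jn 495 (by decide +kernel) ?_
    refine jn 510 (by decide +kernel) ?_
    refine jn 518 (by decide +kernel) ?_
    refine jn 519 (by decide +kernel) ?_
    refine jn 520 (by decide +kernel) ?_
    refine jn 521 (by decide +kernel) ?_
    refine jn 522 (by decide +kernel) ?_
    refine jn 523 (by decide +kernel) ?_
    refine jn 527 (by decide +kernel) ?_
    refine jn 528 (by decide +kernel) ?_
    refine jn 529 (by decide +kernel) ?_
    refine jn 530 (by decide +kernel) ?_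
    refine jn 531 (by decide +kernel) ?_
    refine jn 532 (by decide +kernel) ?_
    refine jn 533 (by decide +kernel) ?_
    refine jn 534 (by decide +kernel) ?_
    refine jn 535 (by decide +kernel) ?_
    refine jn 536 (by decide +kernel) ?_
    refine jn 537 (by decide +kernel) ?_
    refine jn 538 (by decide +kernel) ?_
    refine jn 539 (by decide +kernel) ?_
    refine jn 547 (by decide +kernel) ?_
    refine jn 556 (by decide +kernel) ?_
    refine jn 564 (by decide +kernel) ?_
    refine jn 576 (by decide +kernel) ?_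
    refine jn 579 (by decide +kernel) ?_
    refine jn 580 (by decide +kernel) ?_
    refine jn 581 (by decide +kernel) ?_
    refine jn 582 (by decide +kernel) ?_
    refine jn 583 (by decide +kernel) ?_
    refine jn 584 (by decide +kernel) ?_
    refine jn 585 (by decide +kernel) ?_
    refine jn 586 (by decide +kernel) ?_
    refine jn 587 (by decide +kernel) ?_
    refine jn 588 (by decide +kernel) ?_
    refine jn 589 (by decide +kernel) ?_
    refine jn 590 (by decide +kernel) ?_
    refine jn 591 (by decide +kernel) ?_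
    refine jn 592 (by decide +kernel) ?_
    refine jn 593 (by decide +kernel) ?_
    refine jn 594 (by decide +kernel) ?_
    refine jn 595 (by decide +kernel) ?_
    refine jn 596 (by decide +kernel) ?_
    refine jn 597 (by decide +kernel) ?_
    refine jn 598 (by decide +kernel) ?_
    refine jn 599 (by decide +kernel) ?_
    refine jn 600 (by decide +kernel) ?_
    refine jn 603 (by decide +kernel) ?_
    refine jn 606 (by decide +kernel) ?_
    refine jn 608 (by decide +kernel) ?_
    refine jn 611 (by decide +kernel) ?_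
    refine jn 615 (by decide +kernel) ?_
    refine jn 620 (by decide +kernel) ?_
    refine jn 625 (by decide +kernel) ?_
    refine jn 629 (by decide +kernel) ?_
    refine jn 631 (by decide +kernel) ?_
    refine jn 637 (by decide +kernel) ?_
    exact je (by decide +kernel)

end Pool.Agent.MP_2339ce_nt.NR
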