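import Pool.Agent.MP_2339ce_nt.Q2.NC.C1
import Pool.Agent.MP_2339ce_nt.Q2.NC.C2
import Pool.Agent.MP_2339ce_nt.Q2.NC.C3
import Pool.Agent.MP_2339ce_nt.Q2.NC.C4
import Pool.Agent.MP_2339ce_nt.Q2.NC.C8
import Pool.Agent.MP_2339ce_nt.Q2.NC.C11
import Pool.Agent.MP_2339ce_nt.Q2.NC.C14
import Pool.Agent.MP_2339ce_nt.Q2.NC.C18
import Pool.Agent.MP_2339ce_nt.Q2.NC.C19
import Pool.Agent.MP_2339ce_nt.Q2.NC.C20
import Pool.Agent.MP_2339ce_nt.Q2.NC.C22
import Pool.Agent.MP_2339ce_nt.Q2.NC.C23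
import Pool.Agent.MP_2339ce_nt.Q2.NC.C26
import Pool.Agent.MP_2339ce_nt.Q2.NC.C29
import Pool.Agent.MP_2339ce_nt.Q2.NC.C33
import Pool.Agent.MP_2339ce_nt.Q2.NC.C39
import Pool.Agent.MP_2339ce_nt.Q2.NC.C41
import Pool.Agent.MP_2339ce_nt.Q2.NC.C42
import Pool.Agent.MP_2339ce_nt.Q2.NC.C43
import Pool.Agent.MP_2339ce_nt.Q2.NC.C45
import Pool.Agent.MP_2339ce_nt.Q2.NC.C47
import Pool.Agent.MP_2339ce_nt.Q2.NC.C48
import Pool.Agent.MP_2339ce_nt.Q2.NC.C50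
import Pool.Agent.MP_2339ce_nt.Q2.NC.C56
import Pool.Agent.MP_2339ce_nt.Q2.NC.C57
import Pool.Agent.MP_2339ce_nt.Q2.NC.C59
import Pool.Agent.MP_2339ce_nt.Q2.NC.C64
import Pool.Agent.MP_2339ce_nt.Q2.NC.C66
import Pool.Agent.MP_2339ce_nt.Q2.NC.C68
import Pool.Agent.MP_2339ce_nt.Q2.NC.C69
import Pool.Agent.MP_2339ce_nt.Q2.NC.C73
import Pool.Agent.MP_2339ce_nt.Q2.NC.C74
import Pool.Agent.MP_2339ce_nt.Q2.NC.C75
import Pool.Agent.MP_2339ce_nt.Q2.NC.C79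
import Pool.Agent.MP_2339ce_nt.Q2.NC.C82
import Pool.Agent.MP_2339ce_nt.Q2.NC.C86
import Pool.Agent.MP_2339ce_nt.Q2.NC.C88
import Pool.Agent.MP_2339ce_nt.Q2.NC.C89
import Pool.Agent.MP_2339ce_nt.Q2.NC.C90
import Pool.Agent.MP_2339ce_nt.Q2.NC.C91
import Pool.Agent.MP_2339ce_nt.Q2.NC.C92
import Pool.Agent.MP_2339ce_nt.Q2.NC.C93
import Pool.Agent.MP_2339ce_nt.Q2.NC.C94
import Pool.Agent.MP_2339ce_nt.Q2.NC.C96
import Pool.Agent.MP_2339ce_nt.Q2.NC.C97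
import Pool.Agent.MP_2339ce_nt.Q2.NC.C99
import Pool.Agent.MP_2339ce_nt.Q2.NC.C100
import Pool.Agent.MP_2339ce_nt.Q2.NC.C106
import Pool.Agent.MP_2339ce_nt.Q2.NC.C109
import Pool.Agent.MP_2339ce_nt.Q2.NC.C110
import Pool.Agent.MP_2339ce_nt.Q2.NC.C112
import Pool.Agent.MP_2339ce_nt.Q2.NC.C115
import Pool.Agent.MP_2339ce_nt.Q2.NC.C116
import Pool.Agent.MP_2339ce_nt.Q2.NC.C117
import Pool.Agent.MP_2339ce_nt.Q2.NC.C120
import Pool.Agent.MP_2339ce_nt.Q2.NC.C121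
import Pool.Agent.MP_2339ce_nt.Q2.NC.C123
import Pool.Agent.MP_2339ce_nt.Q2.NC.C128
import Pool.Agent.MP_2339ce_nt.Q2.NC.C129
import Pool.Agent.MP_2339ce_nt.Q2.NC.C131
import Pool.Agent.MP_2339ce_nt.Q2.NC.C132
import Pool.Agent.MP_2339ce_nt.Q2.NC.C133
import Pool.Agent.MP_2339ce_nt.Q2.NC.C134
import Pool.Agent.MP_2339ce_nt.Q2.NC.C138
import Pool.Agent.MP_2339ce_nt.Q2.NC.C141
import Pool.Agent.MP_2339ce_nt.Q2.NC.C142

/-! Block NR: the runs for `182 ≤ N ≤ 219`. -/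

set_option autoImplicit false
set_option maxRecDepth 100000

noncomputable section

namespace Pool.Agent.MP_2339ce_nt.NR

open Q2.Top

theorem q183 : OkQ ckI L9 183 1 1099511627776 0 34359738368 1 1099511627776 :=
  qa 9 c3.1 (qa 197 c20.2 (c66.1))

theorem q184 : OkQ ckI L9 184 1 1099511627776 0 34359738368 1 1099511627776 :=
  qa 23 c26.2.1 (c64.1)

theorem q185 : OkQ ckI L9 185 1 1099511627776 0 34359738368 1 1099511627776 :=
  qa 6 c43.1 (qa 101 c59.2.1 (c48.2))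

theorem q187 : OkQ ckI L9 187 1 1099511627776 0 34359738368 1 1099511627776 :=
  c142.2.1

theorem q188 : OkQ ckI L9 188 1 1099511627776 0 34359738368 1 1099511627776 :=
  qa 5 c18.1 (qa 32 c33.1 (qa 363 c22.1 (c88.2.1)))

theorem q189 : OkQ ckI L9 189 1 1099511627776 0 34359738368 1 1099511627776 :=
  qa 12 c117.2.1 (qa 142 c128.1 (c132.2.1))

theorem q191 : OkQ ckI L9 191 1 1099511627776 0 34359738368 1 1099511627776 :=
  qa 5 c8.1 (qa 16 c14.1 (qa 78 c11.2 (qa 512 c57.2 (c43.2))))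

theorem q192 : OkQ ckI L9 192 1 1099511627776 0 34359738368 1 1099511627776 :=
  qa 6 c90.1 (qa 17 c94.2 (qa 244 c91.2 (c106.2.1)))

theorem q193 : OkQ ckI L9 193 1 1099511627776 0 34359738368 1 1099511627776 :=
  c97.2.1

theorem q195 : OkQ ckI L9 195 1 1099511627776 0 34359738368 1 1099511627776 :=
  c23.1

theorem q196 : OkQ ckI L9 196 1 1099511627776 0 34359738368 1 1099511627776 :=
  qa 23 c121.2.2 (c110.2.2)

theorem q197 : OkQ ckI L9 197 1 1099511627776 0 34359738368 1 1099511627776 :=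
  qa 10 c134.1 (c138.2.1)

theorem q199 : OkQ ckI L9 199 1 1099511627776 0 34359738368 1 1099511627776 :=
  qa 5 c100.1 (qa 17 c69.1 (qa 232 c79.1 (c73.2.1)))

theorem q200 : OkQ ckI L9 200 1 1099511627776 0 34359738368 1 1099511627776 :=
  qa 4 c115.2.1 (qa 16 c86.2.1 (qa 200 c92.2 (c69.2.1)))

theorem q201 : OkQ ckI L9 201 1 1099511627776 0 34359738368 1 1099511627776 :=
  qa 43 c94.1 (c89.1)

theorem q203 : OkQ ckI L9 203 1 1099511627776 0 34359738368 1 1099511627776 :=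
  c74.1

theorem q204 : OkQ ckI L9 204 1 1099511627776 0 34359738368 1 1099511627776 :=
  qa 5 c112.2.1 (qa 60 c93.2 (c56.2))

theorem q205 : OkQ ckI L9 205 1 1099511627776 0 34359738368 1 1099511627776 :=
  c45.2

theorem q207 : OkQ ckI L9 207 1 1099511627776 0 34359738368 1 1099511627776 :=
  qa 8 c50.2 (qa 18 c39.1 (qa 219 c48.1 (c66.2.1)))

theorem q208 : OkQ ckI L9 208 1 1099511627776 0 34359738368 1 1099511627776 :=
  qa 9 c99.1 (qa 113 c123.1 (c131.2.2))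

theorem q209 : OkQ ckI L9 209 1 1099511627776 0 34359738368 1 1099511627776 :=
  qa 6 c96.2.1 (qa 16 c68.1 (qa 363 c82.1 (c120.2.1)))

theorem q211 : OkQ ckI L9 211 1 1099511627776 0 34359738368 1 1099511627776 :=
  c141.1

theorem q212 : OkQ ckI L9 212 1 1099511627776 0 34359738368 1 1099511627776 :=
  qa 23 c121.1 (c129.1)

theorem q213 : OkQ ckI L9 213 1 1099511627776 0 34359738368 1 1099511627776 :=
  qa 14 c141.2.1 (c116.2.2)

theorem q215 : OkQ ckI L9 215 1 1099511627776 0 34359738368 1 1099511627776 :=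
  qa 4 c41.2.1 (qa 9 c19.2 (qa 25 c4.1 (qa 157 c42.1 (qa 1024 c2.2 (c133.2.1)))))

theorem q216 : OkQ ckI L9 216 1 1099511627776 0 34359738368 1 1099511627776 :=
  qa 6 c29.1 (qa 28 c47.1 (qa 257 c75.2.1 (c1.2)))

theorem q217 : OkQ ckI L9 217 1 1099511627776 0 34359738368 1 1099511627776 :=
  c20.1

theorem q219 : OkQ ckI L9 219 1 1099511627776 0 34359738368 1 1099511627776 :=
  c109.1

end Pool.Agent.MP_2339ce_nt.NR
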