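import Pool.Agent.MP_2339ce_nt.Q2.NC.L9
import Pool.Agent.MP_2339ce_nt.Q2.NC.L10
import Pool.Agent.MP_2339ce_nt.Q2.CkI

/-! Block NR: runs. -/

set_option autoImplicit false
set_option maxRecDepth 100000

noncomputable section

namespace Pool.Agent.MP_2339ce_nt.NR

open Q2.Top

def T1_0 : Ph :=
  (.na 1008 3 (.na 575 2 (.nx 574 3329023 (.nr 573 881745 (.nx 2 220 (.nr 1 15 (.lg 0 false 1 43 43
  5 0 1320) (.l1 .sk)) (.nx 3 221 (.l1 .sk) (.nr 551 311745 (.nr 492 185365 (.nx 94 32769 (.lg 0
  false 91 101 109 16 0 720720) (.nx 452 1664512 (.nr 133 515 (.lg 0 true 39 97 97 16 0 51480) (.nx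
  172 41287 (.lg 1 false 39 101 107 16 137058 720720) (.nr 451 155873 (.nx 211 52017 (.lg 1 false
  39 101 107 16 91494 720720) (.nr 238 942 (.lg 2 true 27 83 89 11 355527 3960) (.nx 277 65537 (.lg
  1 false 39 101 107 16 72621 720720) (.nr 450 110219 (.nr 295 1724 (.lg 2 true 18 89 97 11 194370
  7920) (.nx 449 1321124 (.nr 308 2898 (.lg 2 true 13 89 97 9 84295 17160) (.nx 448 1048577 (.nr
  384 65537 (.nr 321 4872 (.lg 2 true 13 89 97 9 39802 17160) (.lg 2 false 63 101 109 16 24282
  720720)) (.nx 447 330282 (.lg 2 false 63 101 107 16 40781 720720) .out)) .out)) .out)) .out))))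
  .out))) (.nr 491 154 (.lg 0 true 39 89 89 16 0 51480) .out))) (.nx 550 26009 (.nx 505 408 (.lg 0
  false 13 83 83 9 0 17160) (.nx 506 6501 .out (.nr 549 220437 (.nx 527 10323 (.lg 0 false 21 97
  101 11 0 55440) (.nx 528 13003 .out (.lg 0 false 21 101 103 11 0 55440))) .out))) .out)) (.nx 572
  324 (.lg 0 false 21 83 83 11 0 27720) .out)))) .out) .out) (.nx 1007 3329023 (.nr 1006 1763489
  (.nx 578 221 (.nx 577 220 (.nr 576 28 (.lg 0 false 1 47 47 5 0 55440) (.l1 .sk)) (.l1 .sk)) (.nx
  995 2642247 (.nx 653 26007 (.nr 617 220437 (.lg 0 false 39 103 107 13 0 720720) (.nx 639 13003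
  (.nx 638 408 (.lg 0 false 21 89 89 11 0 55440) .out) (.nr 652 262145 (.lg 0 false 13 101 103 9 0
  720720) .out))) (.nr 994 311745 (.nx 972 1321124 (.nr 692 941 (.lg 0 true 39 97 101 13 0 720720)
  (.nx 971 1048577 (.nx 770 52017 (.nx 731 36780 (.lg 1 false 39 101 103 13 290295 720720) (.lg 1
  false 39 101 107 13 205266 720720)) (.nr 970 262145 (.nx 809 82572 (.lg 1 false 39 101 107 13
  122062 720720) (.nr 969 220437 (.nr 822 3446 (.lg 2 true 13 97 101 9 122576 240240) (.nx 968
  832257 (.nr 835 12637 (.lg 2 true 13 101 103 9 26567 720720) (.nx 874 116773 (.lg 1 false 39 101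
  107 13 64671 720720) (.nx 913 165142 (.lg 1 true 39 101 107 13 45730 720720) (.nr 967 155873 (.nr
  926 55110 (.lg 2 false 13 101 103 9 8109 720720) (.nx 966 330282 (.nr 939 92683 (.lg 2 false 13
  101 103 9 13615 720720) (.nx 965 262145 (.lg 2 false 26 101 107 11 22875 720720) .out)) .out))
  .out)))) .out)) .out)) .out)) .out)) (.nr 993 154 (.lg 0 true 21 89 89 11 0 55440) .out)) .out))
  (.nr 1005 9 (.lg 0 true 10 67 67 9 0 2640) .out))) .out) .out)) (.na 1009 4 .ne (.nx 1340
  21137969 (.nr 1339 1246976 (.nx 1012 221 (.nx 1011 220 (.nr 1010 51 (.lg 0 true 1 41 41 9 0 2640)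
  (.l1 .sk)) (.l1 .sk)) (.nx 1064 32891 (.nr 1054 262145 (.nr 1033 185365 (.lg 0 false 21 101 107
  13 0 720720) (.nx 1036 1292 (.lg 0 false 3 97 97 9 0 7920) (.nx 1037 13003 .out (.nx 1045 20642
  (.nr 1044 220437 (.lg 0 false 7 97 103 11 0 720720) .out) (.lg 0 false 9 101 103 13 0 720720)))))
  (.nx 1063 408 (.lg 0 false 9 89 89 13 0 7920) .out)) (.nr 1338 311745 (.nx 1248 660563 (.nr 1073
  730 (.lg 0 true 9 89 89 13 0 7920) (.nx 1137 82570 (.nr 1136 262145 (.nx 1115 60754 (.nx 1094
  44702 (.lg 1 false 21 97 107 13 193042 720720) (.lg 1 false 21 97 107 13 142037 720720)) (.lg 1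
  false 21 97 107 13 104509 720720)) .out) (.nx 1158 112360 (.lg 1 false 21 101 107 13 91433
  720720) (.nx 1179 152899 (.lg 1 false 21 101 107 13 67192 720720) (.nx 1200 208065 (.lg 1 true 21
  101 107 13 49377 720720) (.nr 1247 185365 (.nr 1209 2912 (.lg 2 true 9 97 101 13 99537 720720)
  (.nr 1218 11616 (.lg 2 true 9 97 101 13 24953 720720) (.nx 1227 262145 (.lg 1 true 9 101 107 13
  21586 720720) (.nr 1246 131073 (.nr 1236 77937 (.lg 2 false 9 101 103 13 7216 720720) (.nx 1245
  330282 (.lg 2 false 9 101 107 13 12121 720720) .out)) .out)))) .out)))))) (.nr 1337 183 (.nx 1261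
  2642247 (.lg 0 true 13 89 89 13 0 34320) (.nr 1336 21 (.nx 1309 14946802 (.nx 1282 7473401 (.lg 0
  true 21 79 79 11 0 55440) (.lg 0 true 27 83 83 11 0 7920)) (.lg 0 true 27 83 83 11 0 7920))
  .out)) .out)) .out))) .out) .out)))

def T1_1 : Ph :=
  (.na 8500 5793 (.na 2256 1024 (.na 966 512 (.na 472 363 (.nx 471 1048577 (.nr 470 1482912 (.nr 1
  257 .s1 (.nx 149 257 (.nx 108 216 (.nr 107 3777 (.la (.ls 41 19 184)) (.l1 .sk)) (.nx 109 217
  (.l1 .sk) (.lx (.lp 83 17 91)))) (.nr 469 1048577 (.nx 255 20644 (.la (.lg 0 false 1 79 79 23 0))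
  (.nr 468 32769 (.nx 361 131073 (.la (.lg 0 true 1 71 71 23 0)) (.nr 467 2049 (.la (.lg 0 true 1
  67 67 23 0)) .out)) .out)) .out))) .out) .out) (.nx 965 1048577 (.nr 964 1482912 (.nr 473 363 .s1
  (.nx 664 257 (.nx 623 216 (.nr 622 5328 (.la (.ls 41 19 131)) (.l1 .sk)) (.nx 624 217 (.l1 .sk)
  (.lx (.lp 79 19 129)))) (.nr 963 1048577 (.nr 813 32769 (.la (.lg 0 true 1 79 79 23 0)) (.nx 962
  20644 (.la (.lg 0 false 1 73 73 23 0)) .out)) .out))) .out) .out)) (.na 1654 725 (.nx 1653
  1048577 (.nr 1652 1482912 (.nr 967 512 .s1 (.nx 1184 217 (.nx 1183 216 (.nr 1182 7544 (.lx (.lp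
  41 19 182)) (.l1 .sk)) (.l1 .sk)) (.nx 1224 257 (.lx (.lp 79 19 182)) (.nr 1651 1048577 (.nr 1437
  32769 (.la (.lg 0 true 1 73 73 29 0)) (.nx 1650 20644 (.la (.lg 0 false 1 71 71 29 0)) .out))
  .out)))) .out) .out) (.nx 2255 13005 (.nr 2254 1048577 (.nr 1655 725 .s1 (.nx 1954 2049 (.la (.ls
  67 41 5793)) (.nr 2253 65537 (.la (.lg 0 false 1 47 47 29 0)) .out))) .out) .out))) (.na 4312
  2048 (.na 3110 1449 (.nx 3109 13005 (.nr 3108 1048577 (.nr 2257 1024 .s1 (.nx 2682 3252 (.la (.ls
  67 41 10330)) (.nr 3107 32769 (.la (.lg 0 false 1 41 41 31 0)) .out))) .out) .out) (.nx 4311 8193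
  (.nr 4310 1048577 (.nr 3111 1449 .s1 (.nx 3710 3252 (.la (.ls 61 41 7301)) (.nr 4309 4097 (.la
  (.ls 23 47 39029)) .out))) .out) .out)) (.na 5164 2897 (.nx 5163 8193 (.nr 5162 1048577 (.nr 4313
  2048 .s1 (.la (.ls 61 47 32779))) .out) .out) (.na 6583 4096 (.nx 6582 3252 (.nr 6581 524289 (.nr
  5165 2897 .s1 (.nx 5382 217 (.nx 5381 216 (.nr 5380 42617 (.lx (.lp 43 31 1025)) (.l1 .sk)) (.l1
  .sk)) (.la (.ls 59 37 3637)))) .out) .out) (.nx 8499 3252 (.nr 8498 524289 (.nr 6584 4096 .s1
  (.nx 6801 217 (.nx 6800 216 (.nr 6799 60273 (.lx (.lp 47 31 1449)) (.l1 .sk)) (.l1 .sk)) (.la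
  (.ls 59 37 2573)))) .out) .out))))) (.na 14974 65536 (.na 11090 11586 (.na 9795 8192 (.nx 9794
  1292 (.nr 9793 262145 (.nr 8501 5793 .s1 (.nx 9314 814 (.lx (.lp 53 37 2049)) (.nr 9792 65537
  (.lx (.lp 43 37 2049)) .out))) .out) .out) (.nx 11089 1292 (.nr 11088 262145 (.nr 9796 8192 .s1
  (.nx 10609 814 (.lx (.lp 53 41 2897)) (.nr 11087 131073 (.lx (.lp 47 41 2897)) .out))) .out)
  .out)) (.na 12384 16384 (.nx 12383 1292 (.nr 12382 131073 (.nr 11091 11586 .s1 (.lx (.lp 43 41
  4097))) .out) .out) (.na 13679 32768 (.nx 13678 1292 (.nr 13677 262145 (.nr 12385 16384 .s1 (.nx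
  12641 257 (.lx (.lp 47 43 8193)) (.nr 13676 131073 (.lx (.lp 43 43 8193)) .out))) .out) .out)
  (.nx 14973 1292 (.nr 14972 262145 (.nr 13680 32768 .s1 (.nx 14325 645 (.nx 13936 257 (.lx (.lp 16
  43 16385)) (.nr 14324 131073 (.lx (.lp 41 47 16385)) .out)) (.lx (.lp 43 47 16385)))) .out)
  .out)))) (.na 16784 262144 (.na 16269 131072 (.nx 16268 1292 (.nr 16267 524289 (.nr 14975 65536
  .s1 (.nx 15231 257 (.lx (.lp 16 0 32769)) (.nr 16266 262145 (.lx (.lp 41 53 32769)) .out))) .out)
  .out) (.nx 16783 513 (.nr 16782 524289 (.nr 16270 131072 .s1 (.lx (.lp 41 59 65537))) .out)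
  .out)) (.na 17299 524288 (.nx 17298 513 (.nr 17297 1048577 (.nr 16785 262144 .s1 (.lx (.lp 16 0
  131073))) .out) .out) (.na 17301 1048577 (.nx 17300 257 (.l1 .sk) .out) .out)))))

theorem c1 :
    OkQ ckI L10 220 1 5 0 34359738368 1 1099511627776 ∧
    OkQ ckI L9 216 257 1099511627776 0 34359738368 1 1099511627776 := by
  refine ⟨?_, ?_⟩
  · refine fin 1320 1341 T1_0 ?_
    refine jn 7 (by decide +kernel) ?_
    refine jn 13 (by decide +kernel) ?_
    refine jn 18 (by decide +kernel) ?_
    refine jn 24 (by decide +kernel) ?_
    refine jn 29 (by decide +kernel) ?_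
    refine jn 35 (by decide +kernel) ?_
    refine jn 41 (by decide +kernel) ?_
    refine jn 45 (by decide +kernel) ?_
    refine jn 51 (by decide +kernel) ?_
    refine jn 56 (by decide +kernel) ?_
    refine jn 61 (by decide +kernel) ?_
    refine jn 67 (by decide +kernel) ?_
    refine jn 71 (by decide +kernel) ?_
    refine jn 77 (by decide +kernel) ?_
    refine jn 82 (by decide +kernel) ?_
    refine jn 88 (by decide +kernel) ?_
    refine jn 93 (by decide +kernel) ?_
    refine jn 94 (by decide +kernel) ?_
    refine jn 104 (by decide +kernel) ?_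
    refine jn 114 (by decide +kernel) ?_
    refine jn 124 (by decide +kernel) ?_
    refine jn 133 (by decide +kernel) ?_
    refine jn 147 (by decide +kernel) ?_
    refine jn 161 (by decide +kernel) ?_
    refine jn 172 (by decide +kernel) ?_
    refine jn 189 (by decide +kernel) ?_
    refine jn 207 (by decide +kernel) ?_
    refine jn 216 (by decide +kernel) ?_
    refine jn 223 (by decide +kernel) ?_
    refine jn 230 (by decide +kernel) ?_
    refine jn 238 (by decide +kernel) ?_
    refine jn 255 (by decide +kernel) ?_
    refine jn 273 (by decide +kernel) ?_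
    refine jn 295 (by decide +kernel) ?_
    refine jn 321 (by decide +kernel) ?_
    refine jn 340 (by decide +kernel) ?_
    refine jn 358 (by decide +kernel) ?_
    refine jn 377 (by decide +kernel) ?_
    refine jn 384 (by decide +kernel) ?_
    refine jn 401 (by decide +kernel) ?_
    refine jn 418 (by decide +kernel) ?_
    refine jn 434 (by decide +kernel) ?_
    refine jn 447 (by decide +kernel) ?_
    refine jn 452 (by decide +kernel) ?_
    refine jn 482 (by decide +kernel) ?_
    refine jn 491 (by decide +kernel) ?_
    refine jn 506 (by decide +kernel) ?_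
    refine jn 527 (by decide +kernel) ?_
    refine jn 545 (by decide +kernel) ?_
    refine jn 572 (by decide +kernel) ?_
    refine jn 585 (by decide +kernel) ?_
    refine jn 591 (by decide +kernel) ?_
    refine jn 597 (by decide +kernel) ?_
    refine jn 603 (by decide +kernel) ?_
    refine jn 610 (by decide +kernel) ?_
    refine jn 616 (by decide +kernel) ?_
    refine jn 638 (by decide +kernel) ?_
    refine jn 653 (by decide +kernel) ?_
    refine jn 665 (by decide +kernel) ?_
    refine jn 678 (by decide +kernel) ?_
    refine jn 691 (by decide +kernel) ?_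
    refine jn 710 (by decide +kernel) ?_
    refine jn 730 (by decide +kernel) ?_
    refine jn 750 (by decide +kernel) ?_
    refine jn 770 (by decide +kernel) ?_
    refine jn 789 (by decide +kernel) ?_
    refine jn 805 (by decide +kernel) ?_
    refine jn 822 (by decide +kernel) ?_
    refine jn 835 (by decide +kernel) ?_
    refine jn 860 (by decide +kernel) ?_
    refine jn 874 (by decide +kernel) ?_
    refine jn 898 (by decide +kernel) ?_
    refine jn 913 (by decide +kernel) ?_
    refine jn 939 (by decide +kernel) ?_
    refine jn 962 (by decide +kernel) ?_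
    refine jn 993 (by decide +kernel) ?_
    refine jn 1012 (by decide +kernel) ?_
    refine jn 1014 (by decide +kernel) ?_
    refine jn 1016 (by decide +kernel) ?_
    refine jn 1018 (by decide +kernel) ?_
    refine jn 1020 (by decide +kernel) ?_
    refine jn 1021 (by decide +kernel) ?_
    refine jn 1023 (by decide +kernel) ?_
    refine jn 1025 (by decide +kernel) ?_
    refine jn 1027 (by decide +kernel) ?_
    refine jn 1029 (by decide +kernel) ?_
    refine jn 1031 (by decide +kernel) ?_
    refine jn 1033 (by decide +kernel) ?_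
    refine jn 1044 (by decide +kernel) ?_
    refine jn 1054 (by decide +kernel) ?_
    refine jn 1063 (by decide +kernel) ?_
    refine jn 1066 (by decide +kernel) ?_
    refine jn 1068 (by decide +kernel) ?_
    refine jn 1070 (by decide +kernel) ?_
    refine jn 1072 (by decide +kernel) ?_
    refine jn 1073 (by decide +kernel) ?_
    refine jn 1084 (by decide +kernel) ?_
    refine jn 1094 (by decide +kernel) ?_
    refine jn 1104 (by decide +kernel) ?_
    refine jn 1114 (by decide +kernel) ?_
    refine jn 1121 (by decide +kernel) ?_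
    refine jn 1131 (by decide +kernel) ?_
    refine jn 1136 (by decide +kernel) ?_
    refine jn 1146 (by decide +kernel) ?_
    refine jn 1156 (by decide +kernel) ?_
    refine jn 1158 (by decide +kernel) ?_
    refine jn 1167 (by decide +kernel) ?_
    refine jn 1176 (by decide +kernel) ?_
    refine jn 1179 (by decide +kernel) ?_
    refine jn 1188 (by decide +kernel) ?_
    refine jn 1197 (by decide +kernel) ?_
    refine jn 1200 (by decide +kernel) ?_
    refine jn 1209 (by decide +kernel) ?_
    refine jn 1218 (by decide +kernel) ?_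
    refine jn 1226 (by decide +kernel) ?_
    refine jn 1227 (by decide +kernel) ?_
    refine jn 1236 (by decide +kernel) ?_
    refine jn 1245 (by decide +kernel) ?_
    refine jn 1257 (by decide +kernel) ?_
    refine jn 1261 (by decide +kernel) ?_
    refine jn 1282 (by decide +kernel) ?_
    refine jn 1309 (by decide +kernel) ?_
    refine jn 1336 (by decide +kernel) ?_
    exact je (by decide +kernel)
  · refine fin 72 17302 T1_1 ?_
    refine jn 24 (by decide +kernel) ?_
    refine jn 44 (by decide +kernel) ?_
    refine jn 59 (by decide +kernel) ?_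
    refine jn 65 (by decide +kernel) ?_
    refine jn 104 (by decide +kernel) ?_
    refine jn 141 (by decide +kernel) ?_
    refine jn 156 (by decide +kernel) ?_
    refine jn 157 (by decide +kernel) ?_
    refine jn 163 (by decide +kernel) ?_
    refine jn 171 (by decide +kernel) ?_
    refine jn 172 (by decide +kernel) ?_
    refine jn 173 (by decide +kernel) ?_
    refine jn 185 (by decide +kernel) ?_
    refine jn 189 (by decide +kernel) ?_
    refine jn 192 (by decide +kernel) ?_
    refine jn 200 (by decide +kernel) ?_
    refine jn 201 (by decide +kernel) ?_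
    refine jn 207 (by decide +kernel) ?_
    refine jn 208 (by decide +kernel) ?_
    refine jn 211 (by decide +kernel) ?_
    refine jn 224 (by decide +kernel) ?_
    refine jn 233 (by decide +kernel) ?_
    refine jn 239 (by decide +kernel) ?_
    refine jn 252 (by decide +kernel) ?_
    refine jn 253 (by decide +kernel) ?_
    refine jn 263 (by decide +kernel) ?_
    refine jn 273 (by decide +kernel) ?_
    refine jn 278 (by decide +kernel) ?_
    refine jn 290 (by decide +kernel) ?_
    refine jn 295 (by decide +kernel) ?_
    refine jn 301 (by decide +kernel) ?_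
    refine jn 307 (by decide +kernel) ?_
    refine jn 313 (by decide +kernel) ?_
    refine jn 314 (by decide +kernel) ?_
    refine jn 319 (by decide +kernel) ?_
    refine jn 339 (by decide +kernel) ?_
    refine jn 346 (by decide +kernel) ?_
    refine jn 358 (by decide +kernel) ?_
    refine jn 359 (by decide +kernel) ?_
    refine jn 369 (by decide +kernel) ?_
    refine jn 379 (by decide +kernel) ?_
    refine jn 384 (by decide +kernel) ?_
    refine jn 396 (by decide +kernel) ?_
    refine jn 401 (by decide +kernel) ?_
    refine jn 412 (by decide +kernel) ?_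
    refine jn 417 (by decide +kernel) ?_
    refine jn 419 (by decide +kernel) ?_
    refine jn 420 (by decide +kernel) ?_
    refine jn 425 (by decide +kernel) ?_
    refine jn 445 (by decide +kernel) ?_
    refine jn 452 (by decide +kernel) ?_
    refine jn 464 (by decide +kernel) ?_
    refine jn 473 (by decide +kernel) ?_
    refine jn 499 (by decide +kernel) ?_
    refine jn 507 (by decide +kernel) ?_
    refine jn 534 (by decide +kernel) ?_
    refine jn 557 (by decide +kernel) ?_
    refine jn 605 (by decide +kernel) ?_
    refine jn 614 (by decide +kernel) ?_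
    refine jn 621 (by decide +kernel) ?_
    refine jn 663 (by decide +kernel) ?_
    refine jn 668 (by decide +kernel) ?_
    refine jn 673 (by decide +kernel) ?_
    refine jn 682 (by decide +kernel) ?_
    refine jn 686 (by decide +kernel) ?_
    refine jn 687 (by decide +kernel) ?_
    refine jn 693 (by decide +kernel) ?_
    refine jn 696 (by decide +kernel) ?_
    refine jn 697 (by decide +kernel) ?_
    refine jn 698 (by decide +kernel) ?_
    refine jn 713 (by decide +kernel) ?_
    refine jn 716 (by decide +kernel) ?_
    refine jn 721 (by decide +kernel) ?_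
    refine jn 725 (by decide +kernel) ?_
    refine jn 734 (by decide +kernel) ?_
    refine jn 740 (by decide +kernel) ?_
    refine jn 741 (by decide +kernel) ?_
    refine jn 742 (by decide +kernel) ?_
    refine jn 748 (by decide +kernel) ?_
    refine jn 762 (by decide +kernel) ?_
    refine jn 768 (by decide +kernel) ?_
    refine jn 778 (by decide +kernel) ?_
    refine jn 785 (by decide +kernel) ?_
    refine jn 788 (by decide +kernel) ?_
    refine jn 796 (by decide +kernel) ?_
    refine jn 797 (by decide +kernel) ?_
    refine jn 805 (by decide +kernel) ?_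
    refine jn 806 (by decide +kernel) ?_
    refine jn 810 (by decide +kernel) ?_
    refine jn 813 (by decide +kernel) ?_
    refine jn 821 (by decide +kernel) ?_
    refine jn 825 (by decide +kernel) ?_
    refine jn 835 (by decide +kernel) ?_
    refine jn 838 (by decide +kernel) ?_
    refine jn 842 (by decide +kernel) ?_
    refine jn 845 (by decide +kernel) ?_
    refine jn 846 (by decide +kernel) ?_
    refine jn 847 (by decide +kernel) ?_
    refine jn 862 (by decide +kernel) ?_
    refine jn 865 (by decide +kernel) ?_
    refine jn 870 (by decide +kernel) ?_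
    refine jn 874 (by decide +kernel) ?_
    refine jn 883 (by decide +kernel) ?_
    refine jn 890 (by decide +kernel) ?_
    refine jn 891 (by decide +kernel) ?_
    refine jn 897 (by decide +kernel) ?_
    refine jn 911 (by decide +kernel) ?_
    refine jn 917 (by decide +kernel) ?_
    refine jn 927 (by decide +kernel) ?_
    refine jn 935 (by decide +kernel) ?_
    refine jn 945 (by decide +kernel) ?_
    refine jn 946 (by decide +kernel) ?_
    refine jn 954 (by decide +kernel) ?_
    refine jn 955 (by decide +kernel) ?_
    refine jn 961 (by decide +kernel) ?_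
    refine jn 1005 (by decide +kernel) ?_
    refine jn 1079 (by decide +kernel) ?_
    refine jn 1184 (by decide +kernel) ?_
    refine jn 1236 (by decide +kernel) ?_
    refine jn 1243 (by decide +kernel) ?_
    refine jn 1249 (by decide +kernel) ?_
    refine jn 1252 (by decide +kernel) ?_
    refine jn 1253 (by decide +kernel) ?_
    refine jn 1289 (by decide +kernel) ?_
    refine jn 1292 (by decide +kernel) ?_
    refine jn 1293 (by decide +kernel) ?_
    refine jn 1296 (by decide +kernel) ?_
    refine jn 1300 (by decide +kernel) ?_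
    refine jn 1308 (by decide +kernel) ?_
    refine jn 1312 (by decide +kernel) ?_
    refine jn 1316 (by decide +kernel) ?_
    refine jn 1321 (by decide +kernel) ?_
    refine jn 1328 (by decide +kernel) ?_
    refine jn 1332 (by decide +kernel) ?_
    refine jn 1337 (by decide +kernel) ?_
    refine jn 1347 (by decide +kernel) ?_
    refine jn 1361 (by decide +kernel) ?_
    refine jn 1365 (by decide +kernel) ?_
    refine jn 1369 (by decide +kernel) ?_
    refine jn 1372 (by decide +kernel) ?_
    refine jn 1376 (by decide +kernel) ?_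
    refine jn 1387 (by decide +kernel) ?_
    refine jn 1391 (by decide +kernel) ?_
    refine jn 1404 (by decide +kernel) ?_
    refine jn 1405 (by decide +kernel) ?_
    refine jn 1406 (by decide +kernel) ?_
    refine jn 1412 (by decide +kernel) ?_
    refine jn 1419 (by decide +kernel) ?_
    refine jn 1423 (by decide +kernel) ?_
    refine jn 1433 (by decide +kernel) ?_
    refine jn 1444 (by decide +kernel) ?_
    refine jn 1456 (by decide +kernel) ?_
    refine jn 1462 (by decide +kernel) ?_
    refine jn 1465 (by decide +kernel) ?_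
    refine jn 1466 (by decide +kernel) ?_
    refine jn 1502 (by decide +kernel) ?_
    refine jn 1505 (by decide +kernel) ?_
    refine jn 1506 (by decide +kernel) ?_
    refine jn 1509 (by decide +kernel) ?_
    refine jn 1516 (by decide +kernel) ?_
    refine jn 1525 (by decide +kernel) ?_
    refine jn 1530 (by decide +kernel) ?_
    refine jn 1541 (by decide +kernel) ?_
    refine jn 1545 (by decide +kernel) ?_
    refine jn 1550 (by decide +kernel) ?_
    refine jn 1560 (by decide +kernel) ?_
    refine jn 1574 (by decide +kernel) ?_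
    refine jn 1580 (by decide +kernel) ?_
    refine jn 1585 (by decide +kernel) ?_
    refine jn 1589 (by decide +kernel) ?_
    refine jn 1600 (by decide +kernel) ?_
    refine jn 1606 (by decide +kernel) ?_
    refine jn 1618 (by decide +kernel) ?_
    refine jn 1619 (by decide +kernel) ?_
    refine jn 1625 (by decide +kernel) ?_
    refine jn 1632 (by decide +kernel) ?_
    refine jn 1636 (by decide +kernel) ?_
    refine jn 1646 (by decide +kernel) ?_
    refine jn 1674 (by decide +kernel) ?_
    refine jn 1686 (by decide +kernel) ?_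
    refine jn 1713 (by decide +kernel) ?_
    refine jn 1726 (by decide +kernel) ?_
    refine jn 1753 (by decide +kernel) ?_
    refine jn 1777 (by decide +kernel) ?_
    refine jn 1805 (by decide +kernel) ?_
    refine jn 1830 (by decide +kernel) ?_
    refine jn 1854 (by decide +kernel) ?_
    refine jn 1877 (by decide +kernel) ?_
    refine jn 1898 (by decide +kernel) ?_
    refine jn 1934 (by decide +kernel) ?_
    refine jn 1954 (by decide +kernel) ?_
    refine jn 1974 (by decide +kernel) ?_
    refine jn 1982 (by decide +kernel) ?_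
    refine jn 1985 (by decide +kernel) ?_
    refine jn 1998 (by decide +kernel) ?_
    refine jn 2012 (by decide +kernel) ?_
    refine jn 2021 (by decide +kernel) ?_
    refine jn 2024 (by decide +kernel) ?_
    refine jn 2037 (by decide +kernel) ?_
    refine jn 2050 (by decide +kernel) ?_
    refine jn 2066 (by decide +kernel) ?_
    refine jn 2076 (by decide +kernel) ?_
    refine jn 2097 (by decide +kernel) ?_
    refine jn 2102 (by decide +kernel) ?_
    refine jn 2114 (by decide +kernel) ?_
    refine jn 2128 (by decide +kernel) ?_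
    refine jn 2137 (by decide +kernel) ?_
    refine jn 2148 (by decide +kernel) ?_
    refine jn 2166 (by decide +kernel) ?_
    refine jn 2174 (by decide +kernel) ?_
    refine jn 2177 (by decide +kernel) ?_
    refine jn 2193 (by decide +kernel) ?_
    refine jn 2209 (by decide +kernel) ?_
    refine jn 2225 (by decide +kernel) ?_
    refine jn 2242 (by decide +kernel) ?_
    refine jn 2252 (by decide +kernel) ?_
    refine jn 2277 (by decide +kernel) ?_
    refine jn 2293 (by decide +kernel) ?_
    refine jn 2313 (by decide +kernel) ?_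
    refine jn 2322 (by decide +kernel) ?_
    refine jn 2344 (by decide +kernel) ?_
    refine jn 2358 (by decide +kernel) ?_
    refine jn 2388 (by decide +kernel) ?_
    refine jn 2409 (by decide +kernel) ?_
    refine jn 2421 (by decide +kernel) ?_
    refine jn 2444 (by decide +kernel) ?_
    refine jn 2473 (by decide +kernel) ?_
    refine jn 2493 (by decide +kernel) ?_
    refine jn 2505 (by decide +kernel) ?_
    refine jn 2536 (by decide +kernel) ?_
    refine jn 2556 (by decide +kernel) ?_
    refine jn 2584 (by decide +kernel) ?_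
    refine jn 2608 (by decide +kernel) ?_
    refine jn 2628 (by decide +kernel) ?_
    refine jn 2654 (by decide +kernel) ?_
    refine jn 2691 (by decide +kernel) ?_
    refine jn 2702 (by decide +kernel) ?_
    refine jn 2706 (by decide +kernel) ?_
    refine jn 2725 (by decide +kernel) ?_
    refine jn 2742 (by decide +kernel) ?_
    refine jn 2749 (by decide +kernel) ?_
    refine jn 2769 (by decide +kernel) ?_
    refine jn 2774 (by decide +kernel) ?_
    refine jn 2787 (by decide +kernel) ?_
    refine jn 2813 (by decide +kernel) ?_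
    refine jn 2822 (by decide +kernel) ?_
    refine jn 2837 (by decide +kernel) ?_
    refine jn 2846 (by decide +kernel) ?_
    refine jn 2863 (by decide +kernel) ?_
    refine jn 2887 (by decide +kernel) ?_
    refine jn 2903 (by decide +kernel) ?_
    refine jn 2917 (by decide +kernel) ?_
    refine jn 2918 (by decide +kernel) ?_
    refine jn 2919 (by decide +kernel) ?_
    refine jn 2941 (by decide +kernel) ?_
    refine jn 2963 (by decide +kernel) ?_
    refine jn 2978 (by decide +kernel) ?_
    refine jn 2987 (by decide +kernel) ?_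
    refine jn 3013 (by decide +kernel) ?_
    refine jn 3030 (by decide +kernel) ?_
    refine jn 3046 (by decide +kernel) ?_
    refine jn 3053 (by decide +kernel) ?_
    refine jn 3058 (by decide +kernel) ?_
    refine jn 3085 (by decide +kernel) ?_
    refine jn 3114 (by decide +kernel) ?_
    refine jn 3143 (by decide +kernel) ?_
    refine jn 3174 (by decide +kernel) ?_
    refine jn 3199 (by decide +kernel) ?_
    refine jn 3219 (by decide +kernel) ?_
    refine jn 3238 (by decide +kernel) ?_
    refine jn 3265 (by decide +kernel) ?_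
    refine jn 3301 (by decide +kernel) ?_
    refine jn 3329 (by decide +kernel) ?_
    refine jn 3377 (by decide +kernel) ?_
    refine jn 3403 (by decide +kernel) ?_
    refine jn 3427 (by decide +kernel) ?_
    refine jn 3462 (by decide +kernel) ?_
    refine jn 3489 (by decide +kernel) ?_
    refine jn 3514 (by decide +kernel) ?_
    refine jn 3555 (by decide +kernel) ?_
    refine jn 3587 (by decide +kernel) ?_
    refine jn 3615 (by decide +kernel) ?_
    refine jn 3637 (by decide +kernel) ?_
    refine jn 3655 (by decide +kernel) ?_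
    refine jn 3698 (by decide +kernel) ?_
    refine jn 3721 (by decide +kernel) ?_
    refine jn 3746 (by decide +kernel) ?_
    refine jn 3780 (by decide +kernel) ?_
    refine jn 3805 (by decide +kernel) ?_
    refine jn 3836 (by decide +kernel) ?_
    refine jn 3856 (by decide +kernel) ?_
    refine jn 3898 (by decide +kernel) ?_
    refine jn 3937 (by decide +kernel) ?_
    refine jn 3996 (by decide +kernel) ?_
    refine jn 4018 (by decide +kernel) ?_
    refine jn 4052 (by decide +kernel) ?_
    refine jn 4088 (by decide +kernel) ?_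
    refine jn 4116 (by decide +kernel) ?_
    refine jn 4164 (by decide +kernel) ?_
    refine jn 4208 (by decide +kernel) ?_
    refine jn 4234 (by decide +kernel) ?_
    refine jn 4258 (by decide +kernel) ?_
    refine jn 4305 (by decide +kernel) ?_
    refine jn 4330 (by decide +kernel) ?_
    refine jn 4344 (by decide +kernel) ?_
    refine jn 4354 (by decide +kernel) ?_
    refine jn 4382 (by decide +kernel) ?_
    refine jn 4389 (by decide +kernel) ?_
    refine jn 4405 (by decide +kernel) ?_
    refine jn 4421 (by decide +kernel) ?_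
    refine jn 4433 (by decide +kernel) ?_
    refine jn 4460 (by decide +kernel) ?_
    refine jn 4477 (by decide +kernel) ?_
    refine jn 4497 (by decide +kernel) ?_
    refine jn 4504 (by decide +kernel) ?_
    refine jn 4524 (by decide +kernel) ?_
    refine jn 4556 (by decide +kernel) ?_
    refine jn 4581 (by decide +kernel) ?_
    refine jn 4597 (by decide +kernel) ?_
    refine jn 4622 (by decide +kernel) ?_
    refine jn 4641 (by decide +kernel) ?_
    refine jn 4650 (by decide +kernel) ?_
    refine jn 4666 (by decide +kernel) ?_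
    refine jn 4686 (by decide +kernel) ?_
    refine jn 4701 (by decide +kernel) ?_
    refine jn 4724 (by decide +kernel) ?_
    refine jn 4746 (by decide +kernel) ?_
    refine jn 4785 (by decide +kernel) ?_
    refine jn 4788 (by decide +kernel) ?_
    refine jn 4810 (by decide +kernel) ?_
    refine jn 4834 (by decide +kernel) ?_
    refine jn 4861 (by decide +kernel) ?_
    refine jn 4882 (by decide +kernel) ?_
    refine jn 4893 (by decide +kernel) ?_
    refine jn 4920 (by decide +kernel) ?_
    refine jn 4950 (by decide +kernel) ?_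
    refine jn 4965 (by decide +kernel) ?_
    refine jn 4988 (by decide +kernel) ?_
    refine jn 5005 (by decide +kernel) ?_
    refine jn 5037 (by decide +kernel) ?_
    refine jn 5044 (by decide +kernel) ?_
    refine jn 5080 (by decide +kernel) ?_
    refine jn 5108 (by decide +kernel) ?_
    refine jn 5136 (by decide +kernel) ?_
    refine jn 5154 (by decide +kernel) ?_
    refine jn 5234 (by decide +kernel) ?_
    refine jn 5390 (by decide +kernel) ?_
    refine jn 5425 (by decide +kernel) ?_
    refine jn 5473 (by decide +kernel) ?_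
    refine jn 5512 (by decide +kernel) ?_
    refine jn 5561 (by decide +kernel) ?_
    refine jn 5602 (by decide +kernel) ?_
    refine jn 5654 (by decide +kernel) ?_
    refine jn 5708 (by decide +kernel) ?_
    refine jn 5756 (by decide +kernel) ?_
    refine jn 5790 (by decide +kernel) ?_
    refine jn 5833 (by decide +kernel) ?_
    refine jn 5880 (by decide +kernel) ?_
    refine jn 5946 (by decide +kernel) ?_
    refine jn 5977 (by decide +kernel) ?_
    refine jn 6016 (by decide +kernel) ?_
    refine jn 6048 (by decide +kernel) ?_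
    refine jn 6110 (by decide +kernel) ?_
    refine jn 6162 (by decide +kernel) ?_
    refine jn 6205 (by decide +kernel) ?_
    refine jn 6249 (by decide +kernel) ?_
    refine jn 6284 (by decide +kernel) ?_
    refine jn 6336 (by decide +kernel) ?_
    refine jn 6382 (by decide +kernel) ?_
    refine jn 6434 (by decide +kernel) ?_
    refine jn 6478 (by decide +kernel) ?_
    refine jn 6542 (by decide +kernel) ?_
    refine jn 6577 (by decide +kernel) ?_
    refine jn 6799 (by decide +kernel) ?_
    refine jn 6854 (by decide +kernel) ?_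
    refine jn 6901 (by decide +kernel) ?_
    refine jn 6953 (by decide +kernel) ?_
    refine jn 7004 (by decide +kernel) ?_
    refine jn 7061 (by decide +kernel) ?_
    refine jn 7114 (by decide +kernel) ?_
    refine jn 7161 (by decide +kernel) ?_
    refine jn 7224 (by decide +kernel) ?_
    refine jn 7277 (by decide +kernel) ?_
    refine jn 7325 (by decide +kernel) ?_
    refine jn 7369 (by decide +kernel) ?_
    refine jn 7421 (by decide +kernel) ?_
    refine jn 7469 (by decide +kernel) ?_
    refine jn 7532 (by decide +kernel) ?_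
    refine jn 7578 (by decide +kernel) ?_
    refine jn 7657 (by decide +kernel) ?_
    refine jn 7717 (by decide +kernel) ?_
    refine jn 7772 (by decide +kernel) ?_
    refine jn 7838 (by decide +kernel) ?_
    refine jn 7909 (by decide +kernel) ?_
    refine jn 7938 (by decide +kernel) ?_
    refine jn 7989 (by decide +kernel) ?_
    refine jn 8042 (by decide +kernel) ?_
    refine jn 8106 (by decide +kernel) ?_
    refine jn 8150 (by decide +kernel) ?_
    refine jn 8201 (by decide +kernel) ?_
    refine jn 8260 (by decide +kernel) ?_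
    refine jn 8302 (by decide +kernel) ?_
    refine jn 8370 (by decide +kernel) ?_
    refine jn 8420 (by decide +kernel) ?_
    refine jn 8476 (by decide +kernel) ?_
    refine jn 8730 (by decide +kernel) ?_
    refine jn 8872 (by decide +kernel) ?_
    refine jn 9010 (by decide +kernel) ?_
    refine jn 9112 (by decide +kernel) ?_
    refine jn 9238 (by decide +kernel) ?_
    refine jn 9299 (by decide +kernel) ?_
    refine jn 9357 (by decide +kernel) ?_
    refine jn 9437 (by decide +kernel) ?_
    refine jn 9491 (by decide +kernel) ?_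
    refine jn 9556 (by decide +kernel) ?_
    refine jn 9607 (by decide +kernel) ?_
    refine jn 9673 (by decide +kernel) ?_
    refine jn 9724 (by decide +kernel) ?_
    refine jn 9766 (by decide +kernel) ?_
    refine jn 9951 (by decide +kernel) ?_
    refine jn 10158 (by decide +kernel) ?_
    refine jn 10275 (by decide +kernel) ?_
    refine jn 10385 (by decide +kernel) ?_
    refine jn 10521 (by decide +kernel) ?_
    refine jn 10615 (by decide +kernel) ?_
    refine jn 10696 (by decide +kernel) ?_
    refine jn 10767 (by decide +kernel) ?_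
    refine jn 10854 (by decide +kernel) ?_
    refine jn 10923 (by decide +kernel) ?_
    refine jn 10989 (by decide +kernel) ?_
    refine jn 11047 (by decide +kernel) ?_
    refine jn 11222 (by decide +kernel) ?_
    refine jn 11478 (by decide +kernel) ?_
    refine jn 11636 (by decide +kernel) ?_
    refine jn 11768 (by decide +kernel) ?_
    refine jn 11864 (by decide +kernel) ?_
    refine jn 11974 (by decide +kernel) ?_
    refine jn 12061 (by decide +kernel) ?_
    refine jn 12157 (by decide +kernel) ?_
    refine jn 12237 (by decide +kernel) ?_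
    refine jn 12302 (by decide +kernel) ?_
    refine jn 12368 (by decide +kernel) ?_
    refine jn 12641 (by decide +kernel) ?_
    refine jn 12802 (by decide +kernel) ?_
    refine jn 12891 (by decide +kernel) ?_
    refine jn 12954 (by decide +kernel) ?_
    refine jn 13038 (by decide +kernel) ?_
    refine jn 13125 (by decide +kernel) ?_
    refine jn 13190 (by decide +kernel) ?_
    refine jn 13257 (by decide +kernel) ?_
    refine jn 13326 (by decide +kernel) ?_
    refine jn 13378 (by decide +kernel) ?_
    refine jn 13443 (by decide +kernel) ?_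
    refine jn 13485 (by decide +kernel) ?_
    refine jn 13563 (by decide +kernel) ?_
    refine jn 13620 (by decide +kernel) ?_
    refine jn 13662 (by decide +kernel) ?_
    refine jn 13985 (by decide +kernel) ?_
    refine jn 14147 (by decide +kernel) ?_
    refine jn 14262 (by decide +kernel) ?_
    refine jn 14358 (by decide +kernel) ?_
    refine jn 14421 (by decide +kernel) ?_
    refine jn 14514 (by decide +kernel) ?_
    refine jn 14623 (by decide +kernel) ?_
    refine jn 14682 (by decide +kernel) ?_
    refine jn 14766 (by decide +kernel) ?_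
    refine jn 14808 (by decide +kernel) ?_
    refine jn 14892 (by decide +kernel) ?_
    refine jn 14946 (by decide +kernel) ?_
    refine jn 15348 (by decide +kernel) ?_
    refine jn 15511 (by decide +kernel) ?_
    refine jn 15652 (by decide +kernel) ?_
    refine jn 15743 (by decide +kernel) ?_
    refine jn 15835 (by decide +kernel) ?_
    refine jn 15920 (by decide +kernel) ?_
    refine jn 15985 (by decide +kernel) ?_
    refine jn 16063 (by decide +kernel) ?_
    refine jn 16155 (by decide +kernel) ?_
    refine jn 16245 (by decide +kernel) ?_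
    refine jn 16727 (by decide +kernel) ?_
    refine jn 17232 (by decide +kernel) ?_
    exact je (by decide +kernel)

end Pool.Agent.MP_2339ce_nt.NR
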