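import Pool.Agent.MP_2339ce_nt.Q2.NC.L8
import Pool.Agent.MP_2339ce_nt.Q2.CkI

/-! Block NR: runs. -/

set_option autoImplicit false
set_option maxRecDepth 100000

noncomputable section

namespace Pool.Agent.MP_2339ce_nt.NR

open Q2.Top

def T108_0 : Ph :=
  (.na 554 55 (.na 358 29 (.na 201 17 (.na 101 12 (.na 1 10 .ne (.na 55 11 (.nx 54 1664512 (.nr 53
  623489 (.nx 45 524289 (.nx 3 175 (.nr 2 103 (.lg 0 true 1 31 31 9 0 1680) (.l1 .sk)) (.nx 4 176
  (.l1 .sk) (.nr 35 131073 (.nx 15 65537 (.lg 0 false 11 97 101 13 0 18480) (.nr 34 110219 (.nr 24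
  1621 (.lg 0 true 9 79 79 13 0 5040) (.nx 33 416129 (.lg 2 false 9 89 89 13 25794 5040) .out))
  .out)) (.nx 44 1292 (.lg 0 false 9 79 79 13 0 5040) .out)))) (.nr 52 65 (.lg 0 true 7 61 61 13 0
  1680) .out)) .out) .out) (.nx 100 1664512 (.nr 99 623489 (.nx 58 176 (.nx 57 175 (.nr 56 112 (.lg
  0 true 1 31 31 9 0 55440) (.l1 .sk)) (.l1 .sk)) (.nx 92 524289 (.nr 87 131073 (.nx 71 48160 (.lg
  0 false 13 97 103 16 0 720720) (.nr 77 1621 (.lg 0 true 6 89 89 16 0 55440) (.nx 86 416129 (.nx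
  81 65537 (.lg 1 false 4 97 97 16 41731 55440) (.nr 85 110219 (.lg 2 false 4 101 103 16 25794
  55440) .out)) .out))) (.nx 91 1292 (.lg 0 false 4 83 83 16 0 18480) .out)) (.nr 98 65 (.lg 0 true
  6 71 71 16 0 55440) .out))) .out) .out))) (.na 102 14 .ne (.na 152 16 (.nx 151 1664512 (.nr 150
  623489 (.nr 103 5 .s1 (.nx 105 175 (.nr 104 150 (.l1 (.ls 19 41 2190)) (.l1 .sk)) (.nx 106 176
  (.l1 .sk) (.nr 143 155873 (.nx 119 31679 (.lg 0 false 13 83 89 17 0 21840) (.nr 142 110219 (.nr
  132 829 (.lg 0 true 13 73 73 17 0 21840) (.nx 141 416129 (.lg 2 false 9 89 89 13 53362 5040)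
  .out)) .out)) (.nx 149 1292 (.lg 0 false 6 73 73 13 0 5040) .out))))) .out) .out) (.nx 200
  1664512 (.nr 199 1048577 (.nr 153 10 .s1 (.nx 155 175 (.nr 154 159 (.lg 0 true 1 37 37 11 0 1680)
  (.l1 .sk)) (.nx 156 176 (.l1 .sk) (.nx 157 257 (.l1 (.ls 89 41 2195)) (.nr 198 623489 (.nr 194
  220437 (.nr 190 131073 (.nx 186 524289 (.nx 160 15313 (.lg 0 false 3 97 97 13 0 5040) (.nr 185
  110219 (.nr 181 77937 (.nr 173 46342 (.nr 163 829 (.lg 0 true 3 83 83 13 0 5040) (.nx 172 416129
  (.nr 164 1621 (.lg 2 false 1 73 73 11 43922 1680) (.nr 168 23702 (.lg 2 false 4 79 79 13 23877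
  1680) (.lg 2 false 4 83 83 13 46517 1680))) .out)) (.nx 180 208065 (.nx 176 131073 (.lg 0 true 3
  103 107 13 0 720720) (.nr 179 55110 (.lg 0 true 3 97 101 13 0 55440) .out)) .out)) (.nx 184 82572
  (.lg 0 true 3 101 103 13 0 55440) .out)) .out)) (.nr 189 129 (.lg 0 true 3 73 73 13 0 5040)
  .out)) (.nx 193 10323 (.lg 0 false 3 97 101 13 0 55440) .out)) (.nx 197 1627 (.lg 0 false 3 89 89
  13 0 5040) .out)) .out))))) .out) .out)))) (.na 276 23 (.na 202 20 .ne (.na 245 22 (.nx 244
  1664512 (.nr 243 1048577 (.nr 203 16 .s1 (.nx 207 257 (.nx 205 175 (.nr 204 206 (.l1 (.ls 29 41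
  1534)) (.l1 .sk)) (.nx 206 176 (.l1 .sk) (.l1 (.ls 83 41 1756)))) (.nr 242 623489 (.nx 217 15313
  (.nr 213 220437 (.lg 0 false 6 89 89 19 0 5040) (.nx 216 1627 (.lg 0 false 3 79 79 13 0 5040)
  .out)) (.nr 241 92683 (.nr 223 634 (.lg 0 true 6 79 79 19 0 5040) (.nx 240 262145 (.nr 232 46342
  (.lg 2 false 9 73 73 19 46517 5040) (.nx 239 165142 (.nx 235 82572 (.lg 0 true 3 97 97 13 0 5040)
  (.nr 238 55110 (.lg 0 true 3 83 83 13 0 5040) .out)) .out)) .out)) .out)) .out))) .out) .out)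
  (.nx 275 1664512 (.nr 274 1048577 (.nr 246 18 .s1 (.nx 250 257 (.nx 248 175 (.nr 247 216 (.lg 0
  true 1 29 29 9 0 18480) (.l1 .sk)) (.nx 249 176 (.l1 .sk) (.l1 (.ls 83 41 1597)))) (.nr 273
  623489 (.nr 269 220437 (.nx 257 41287 (.nr 253 92683 (.lg 0 true 3 101 101 13 0 55440) (.nx 256
  13005 (.lg 0 false 3 97 97 13 0 55440) .out)) (.nr 268 77937 (.nr 263 634 (.lg 0 true 6 79 79 19
  0 55440) (.nx 267 262145 (.lg 2 false 4 89 97 17 36180 18480) .out)) .out)) (.nx 272 1627 (.lg 0
  false 3 83 83 13 0 55440) .out)) .out))) .out) .out))) (.na 305 25 (.nx 304 1664512 (.nr 303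
  1048577 (.nr 277 19 .s1 (.nx 291 41287 (.nx 279 175 (.nr 278 234 (.lg 0 true 1 29 29 11 0 1680)
  (.l1 .sk)) (.nx 280 176 (.l1 .sk) (.nx 281 257 (.l1 (.ls 83 31 1527)) (.nr 290 311745 (.nr 285
  110219 (.lg 0 false 4 97 97 16 0 1680) (.nx 289 8193 (.lg 0 false 4 89 89 16 0 1680) .out))
  .out)))) (.nr 302 65537 (.nr 297 513 (.lg 0 true 6 79 79 16 0 5040) (.nx 301 165142 (.lg 2 false
  4 89 89 16 28168 1680) .out)) .out))) .out) .out) (.na 333 28 (.nx 332 1664512 (.nr 331 1048577
  (.nr 306 22 .s1 (.nx 309 176 (.nx 308 175 (.nr 307 262 (.lg 0 true 1 31 37 16 0 5040) (.l1 .sk))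
  (.l1 .sk)) (.nx 310 257 (.l1 (.ls 83 31 1405)) (.nr 330 311745 (.nx 318 41287 (.nr 314 110219
  (.lg 0 false 4 89 97 17 0 5040) (.nx 317 8193 (.lg 0 false 3 89 97 16 0 5040) .out)) (.nr 329
  65537 (.nr 324 1307 (.nx 320 208065 (.lg 0 true 2 79 79 16 0 1680) (.nr 323 217 (.lg 0 true 3 73
  73 16 0 2520) .out)) (.nx 328 165142 (.lg 2 false 4 79 89 17 24372 1680) .out)) .out)) .out))))
  .out) .out) (.nx 357 1664512 (.nr 356 1048577 (.nr 334 25 .s1 (.nx 338 257 (.nx 336 175 (.nr 335
  272 (.lg 0 false 1 23 23 13 0 18480) (.l1 .sk)) (.nx 337 176 (.l1 .sk) (.l1 (.ls 79 41 1255))))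
  (.nr 355 311745 (.nr 351 110219 (.nx 341 41287 (.lg 0 false 3 97 97 19 0 55440) (.nr 350 65537
  (.nr 347 513 (.lg 0 true 6 73 73 19 0 5040) (.nx 349 165142 (.lg 2 true 2 89 89 13 28168 18480)
  .out)) .out)) (.nx 354 8193 (.lg 0 false 3 83 83 19 0 5040) .out)) .out))) .out) .out))))) (.na
  463 43 (.na 405 35 (.na 380 32 (.nx 379 1664512 (.nr 378 1048577 (.nr 359 26 .s1 (.nx 362 176
  (.nx 361 175 (.nr 360 300 (.l1 (.ls 23 23 1059)) (.l1 .sk)) (.l1 .sk)) (.nx 368 20644 (.nx 363
  257 (.l1 (.ls 79 23 1212)) (.nr 367 311745 (.lg 0 false 4 97 97 16 0 1680) .out)) (.nr 377 77937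
  (.nr 372 300 (.lg 0 true 4 71 71 16 0 1680) (.nx 376 208065 (.lg 2 false 4 89 97 16 60686 1680)
  .out)) .out)))) .out) .out) (.na 404 33 (.nx 403 1664512 (.nr 402 1048577 (.nr 381 30 .s1 (.nx
  383 175 (.nr 382 309 (.l1 (.ls 29 31 960)) (.l1 .sk)) (.nx 384 176 (.l1 .sk) (.nx 385 257 (.l1
  (.ls 83 31 1099)) (.nr 401 440873 (.nx 397 208065 (.nr 393 110219 (.nx 388 41287 (.lg 0 false 3
  89 97 19 0 5040) (.nr 392 65537 (.nr 389 1307 (.lg 0 false 1 79 79 13 0 1680) (.nx 391 165142
  (.lg 2 false 2 83 89 13 24372 1680) .out)) .out)) (.nx 396 10323 (.lg 0 false 3 89 97 19 0 5040)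
  .out)) (.nr 400 217 (.lg 0 true 3 73 73 19 0 5040) .out)) .out))))) .out) .out) .ne)) (.na 425 37
  (.nx 424 1664512 (.nr 423 881745 (.nr 406 33 .s1 (.nx 412 20644 (.nx 407 257 (.l1 (.ls 71 37
  1890)) (.nr 411 440873 (.lg 0 true 4 83 83 16 0 1680) .out)) (.nr 422 46342 (.nr 417 257 (.lg 0
  true 5 59 59 16 0 840) (.nx 421 104033 (.lg 2 true 4 73 73 16 35420 1680) .out)) .out))) .out)
  .out) (.na 442 40 (.nx 441 1664512 (.nr 440 881745 (.nr 426 35 .s1 (.nx 427 257 (.l1 (.ls 79 29
  1788)) (.nr 439 440873 (.nx 431 20644 (.lg 0 false 4 89 89 16 0 1680) (.nr 438 46342 (.nr 435 257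
  (.lg 0 true 4 67 67 16 0 1680) (.nx 437 104033 (.lg 2 true 2 83 83 16 35420 1680) .out)) .out))
  .out))) .out) .out) (.nx 462 1664512 (.nr 461 881745 (.nr 443 38 .s1 (.nx 446 176 (.nx 445 175
  (.nr 444 403 (.l1 (.ls 29 37 768)) (.l1 .sk)) (.l1 .sk)) (.nx 455 26009 (.nx 447 257 (.l1 (.ls 79
  37 879)) (.nr 454 440873 (.nr 450 110219 (.lg 0 false 3 83 89 23 0 5040) (.nx 453 10323 (.lg 0
  false 3 83 89 23 0 5040) .out)) .out)) (.nr 460 32769 (.nr 458 403 (.lg 0 true 3 73 73 23 0 5040)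
  (.nx 459 104033 (.lg 2 true 1 83 83 19 22588 1680) .out)) .out)))) .out) .out)))) (.na 518 49
  (.na 480 44 (.nx 479 1664512 (.nr 478 881745 (.nr 464 41 .s1 (.nx 465 257 (.l1 (.ls 79 29 1539))
  (.nr 477 440873 (.nx 469 20644 (.lg 0 false 4 97 97 16 0 5040) (.nr 476 46342 (.nr 473 257 (.lg 0
  true 4 67 67 16 0 1680) (.nx 475 104033 (.lg 2 true 2 83 83 16 35420 1680) .out)) .out)) .out)))
  .out) .out) (.na 500 46 (.nx 499 1664512 (.nr 498 881745 (.nr 481 42 .s1 (.nx 492 26009 (.nx 483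
  175 (.nr 482 431 (.l1 (.ls 31 37 699)) (.l1 .sk)) (.nx 484 176 (.l1 .sk) (.nx 485 257 (.l1 (.ls
  79 37 800)) (.nr 491 440873 (.nx 488 10323 (.lg 0 false 3 89 97 23 0 55440) (.nr 490 110219 (.lg
  0 false 2 89 89 23 0 18480) .out)) .out)))) (.nr 497 32769 (.nr 495 431 (.lg 0 true 3 79 79 23 0
  55440) (.nx 496 104033 (.lg 2 true 1 83 83 19 21121 18480) .out)) .out))) .out) .out) (.nx 517
  1664512 (.nr 516 881745 (.nr 501 45 .s1 (.nx 502 257 (.l1 (.ls 79 41 1438)) (.nr 515 623489 (.nx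
  508 20644 (.lg 0 false 6 89 97 19 0 5040) (.nr 514 46342 (.nr 511 257 (.lg 0 true 3 71 71 13 0
  5040) (.nx 513 104033 (.lg 2 true 2 83 83 13 35420 1680) .out)) .out)) .out))) .out) .out))) (.na
  519 50 (.lg 0 false 1 0 0 16 0 24) (.na 538 53 (.nx 537 1664512 (.nr 536 881745 (.nr 520 49 .s1
  (.nx 530 26009 (.nx 522 175 (.nr 521 497 (.l1 (.ls 31 31 615)) (.l1 .sk)) (.nx 523 176 (.l1 .sk)
  (.nx 524 257 (.l1 (.ls 79 37 704)) (.nr 529 623489 (.nx 527 13005 (.lg 0 false 3 89 97 23 0 5040)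
  (.nr 528 110219 (.lg 0 false 1 89 89 19 0 1680) .out)) .out)))) (.nr 535 32769 (.nr 533 497 (.lg
  0 true 3 73 73 23 0 5040) (.nx 534 104033 (.lg 2 false 1 83 83 19 19396 1680) .out)) .out)))
  .out) .out) (.nx 553 1664512 (.nr 552 881745 (.nr 539 52 .s1 (.nx 545 20644 (.nx 540 257 (.l1
  (.ls 73 29 1249)) (.nr 544 623489 (.lg 0 false 4 89 89 16 0 1680) .out)) (.nr 551 46342 (.nr 548
  257 (.lg 0 true 3 67 67 16 0 2520) (.nx 550 104033 (.lg 2 false 2 83 83 16 35420 1680) .out))
  .out))) .out) .out)))))) (.na 728 86 (.na 637 70 (.na 604 64 (.na 571 56 (.nx 570 1664512 (.nr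
  569 881745 (.nr 555 54 .s1 (.nx 561 20644 (.nx 556 257 (.l1 (.ls 73 31 1203)) (.nr 560 623489
  (.lg 0 false 4 89 89 17 0 18480) .out)) (.nr 568 46342 (.nr 565 525 (.lg 0 true 4 71 71 17 0
  18480) (.nx 567 104033 (.lg 2 true 2 79 79 17 34505 18480) .out)) .out))) .out) .out) (.na 590 58
  (.nx 589 1664512 (.nr 588 881745 (.nr 572 55 .s1 (.nx 576 257 (.nx 574 175 (.nr 573 544 (.l1 (.ls
  29 31 549)) (.l1 .sk)) (.nx 575 176 (.l1 .sk) (.l1 (.ls 79 37 629)))) (.nr 587 623489 (.nx 579
  13005 (.lg 0 false 3 89 89 23 0 5040) (.nr 586 110219 (.nx 580 26009 (.lg 0 true 1 89 89 19 0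
  5040) (.nr 585 32769 (.nr 583 544 (.lg 0 true 3 73 73 23 0 5040) (.nx 584 104033 (.lg 2 true 1 79
  79 19 19396 1680) .out)) .out)) .out)) .out))) .out) .out) (.nx 603 1664512 (.nr 602 881745 (.nr
  591 57 .s1 (.nx 596 20644 (.nx 592 257 (.l1 (.ls 79 41 1141)) (.nr 595 623489 (.lg 0 false 3 97
  97 19 0 5040) .out)) (.nr 601 46342 (.nr 598 257 (.lg 0 true 2 67 67 13 0 1680) (.nx 600 104033
  (.lg 2 false 2 79 79 13 35420 1680) .out)) .out))) .out) .out))) (.na 620 65 (.nx 619 1664512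
  (.nr 618 881745 (.nr 605 63 .s1 (.nx 610 13005 (.nx 606 257 (.l1 (.ls 79 31 1035)) (.nr 609
  623489 (.lg 0 false 3 89 89 23 0 5040) .out)) (.nr 617 110219 (.nx 611 26009 (.lg 0 true 1 83 83
  17 0 1680) (.nr 616 32769 (.nr 614 513 (.lg 0 true 3 71 73 23 0 5040) (.nx 615 104033 (.lg 2 true
  1 79 79 17 19396 1680) .out)) .out)) .out))) .out) .out) (.na 621 67 .ne (.nx 636 1664512 (.nr
  635 524289 (.nr 622 66 .s1 (.nx 629 20644 (.nx 624 175 (.nr 623 656 (.l1 (.ls 19 19 460)) (.l1
  .sk)) (.nx 625 176 (.l1 .sk) (.lg 0 false 4 83 83 16 0 1680))) (.nr 634 32769 (.nr 632 513 (.lg 0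
  true 3 67 67 16 0 2520) (.nx 633 104033 (.lg 2 true 1 73 73 16 24437 840) .out)) .out))) .out)
  .out)))) (.na 684 77 (.na 653 71 (.nx 652 1664512 (.nr 651 524289 (.nr 638 69 .s1 (.nx 640 175
  (.nr 639 665 (.l1 (.ls 17 37 440)) (.l1 .sk)) (.nx 641 176 (.l1 .sk) (.nx 644 20644 (.lg 0 true 3
  79 79 23 0 5040) (.nr 650 32769 (.nr 647 513 (.lg 0 false 3 67 67 23 0 5040) (.nx 649 104033 (.lg
  2 true 2 67 67 23 24437 1680) .out)) .out))))) .out) .out) (.na 669 74 (.nx 668 1664512 (.nr 667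
  524289 (.nr 654 70 .s1 (.nx 661 20644 (.nx 656 175 (.nr 655 694 (.l1 (.ls 19 19 434)) (.l1 .sk))
  (.nx 657 176 (.l1 .sk) (.lg 0 false 4 89 89 16 0 1680))) (.nr 666 32769 (.nr 664 513 (.lg 0 true
  3 67 67 16 0 2520) (.nx 665 104033 (.lg 2 true 1 79 79 16 24437 840) .out)) .out))) .out) .out)
  (.nx 683 1664512 (.nr 682 524289 (.nr 670 73 .s1 (.nx 676 20644 (.nx 672 175 (.nr 671 722 (.l1
  (.ls 23 29 416)) (.l1 .sk)) (.nx 673 176 (.l1 .sk) (.lg 0 false 3 89 89 19 0 5040))) (.nr 681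
  32769 (.nr 679 513 (.lg 0 true 3 71 71 19 0 5040) (.nx 680 104033 (.lg 2 true 1 79 79 13 24437
  1680) .out)) .out))) .out) .out))) (.na 699 79 (.nx 698 1664512 (.nr 697 524289 (.nr 685 76 .s1
  (.nx 687 175 (.nr 686 740 (.l1 (.ls 23 29 400)) (.l1 .sk)) (.nx 688 176 (.l1 .sk) (.nx 691 20644
  (.lg 0 false 3 83 83 19 0 27720) (.nr 696 32769 (.nr 694 513 (.lg 0 true 3 67 67 19 0 27720) (.nx
  695 104033 (.lg 2 true 1 73 73 17 24437 18480) .out)) .out))))) .out) .out) (.na 714 80 (.nx 713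
  1664512 (.nr 712 524289 (.nr 700 78 .s1 (.nx 703 176 (.nx 702 175 (.nr 701 750 (.l1 (.ls 19 19
  390)) (.l1 .sk)) (.l1 .sk)) (.nx 706 20644 (.lg 0 false 3 83 83 16 0 2520) (.nr 711 32769 (.nr
  709 513 (.lg 0 true 3 61 61 16 0 2520) (.nx 710 104033 (.lg 2 true 1 71 71 16 24437 840) .out))
  .out)))) .out) .out) (.nx 727 1664512 (.nr 726 524289 (.nr 715 79 .s1 (.nx 721 20644 (.nx 717 175
  (.nr 716 806 (.l1 (.ls 29 31 385)) (.l1 .sk)) (.nx 718 176 (.l1 .sk) (.lg 0 false 3 83 89 29 0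
  5040))) (.nr 725 32769 (.nr 723 513 (.lg 0 true 2 71 71 23 0 1680) (.nx 724 104033 (.lg 2 true 1
  73 73 23 24437 1680) .out)) .out))) .out) .out))))) (.na 785 106 (.na 755 92 (.na 741 88 (.nx 740
  1664512 (.nr 739 524289 (.nr 729 85 .s1 (.nx 731 175 (.nr 730 825 (.l1 (.ls 23 29 359)) (.l1
  .sk)) (.nx 732 176 (.l1 .sk) (.nx 735 20644 (.lg 0 false 3 89 89 19 0 5040) (.nr 738 32769 (.nr
  736 513 (.lg 0 false 1 73 73 13 0 1680) (.nx 737 104033 (.lg 2 true 1 73 73 13 24437 1680) .out))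
  .out))))) .out) .out) (.na 754 91 (.nx 753 1664512 (.nr 752 524289 (.nr 742 88 .s1 (.nr 746 32769
  (.nx 744 104033 (.nx 743 1755 (.l1 (.ls 67 59 35003)) (.lg 0 false 1 89 89 29 0 55440)) (.nr 745
  513 (.lg 0 true 1 79 79 29 0 18480) .out)) (.nx 748 176 (.nx 747 175 (.l1 .sk) (.l1 .sk)) (.nx
  751 20644 (.nx 749 13005 (.lg 0 false 1 101 101 29 0 55440) (.nr 750 65537 (.lg 0 false 1 79 83
  29 0 55440) .out)) .out)))) .out) .out) .ne)) (.na 769 98 (.nx 768 1664512 (.nr 767 1048577 (.nr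
  756 92 .s1 (.nx 759 176 (.nx 758 175 (.nr 757 918 (.l1 (.ls 19 31 335)) (.l1 .sk)) (.l1 .sk))
  (.nx 762 13005 (.lg 0 false 3 89 97 19 0 5040) (.nr 766 65537 (.nx 763 104033 (.lg 0 false 1 97
  97 19 0 5040) (.nr 765 513 (.lg 0 true 2 71 71 19 0 1680) .out)) .out)))) .out) .out) (.na 770
  100 (.lg 0 false 1 0 0 16 0 24) (.nx 784 1664512 (.nr 783 1048577 (.nr 771 100 .s1 (.nx 773 175
  (.nr 772 993 (.l1 (.ls 37 29 309)) (.l1 .sk)) (.nx 774 176 (.l1 .sk) (.nx 781 104033 (.nr 775
  32769 (.lg 0 true 1 83 89 29 0 1680) (.nx 780 20644 (.nx 778 13005 (.lg 0 false 3 89 101 31 0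
  55440) (.nr 779 65537 (.lg 0 false 1 71 73 29 0 1680) .out)) .out)) (.nr 782 513 (.lg 0 true 1 73
  73 29 0 1680) .out))))) .out) .out)))) (.na 826 110 (.na 798 107 (.nx 797 1664512 (.nr 796
  1048577 (.nr 786 106 .s1 (.nx 792 20644 (.nx 788 175 (.nr 787 1003 (.l1 (.ls 19 29 291)) (.l1
  .sk)) (.nx 789 176 (.l1 .sk) (.lg 0 false 3 89 89 23 0 5040))) (.nr 795 32769 (.nr 793 513 (.lg 0
  false 1 73 73 19 0 5040) (.nx 794 104033 (.lg 2 true 1 73 73 19 24437 1680) .out)) .out))) .out)
  .out) (.na 812 109 (.nx 811 1664512 (.nr 810 1048577 (.nr 799 107 .s1 (.nx 802 176 (.nx 801 175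
  (.nr 800 1021 (.l1 (.ls 19 17 289)) (.l1 .sk)) (.l1 .sk)) (.nx 806 20644 (.lg 0 false 4 79 79 17
  0 1680) (.nr 809 32769 (.nr 807 513 (.lg 0 false 1 67 67 16 0 840) (.nx 808 104033 (.lg 2 true 1
  67 67 16 24437 840) .out)) .out)))) .out) .out) (.nx 825 1664512 (.nr 824 1048577 (.nr 813 109
  .s1 (.nx 815 175 (.nr 814 1031 (.l1 (.ls 19 17 283)) (.l1 .sk)) (.nx 816 176 (.l1 .sk) (.nx 820
  20644 (.lg 0 false 4 79 79 17 0 1680) (.nr 823 32769 (.nr 821 513 (.lg 0 false 1 67 67 16 0 1680)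
  (.nx 822 104033 (.lg 2 true 1 67 67 16 24437 1680) .out)) .out))))) .out) .out))) (.na 853 113
  (.na 839 112 (.nx 838 1664512 (.nr 837 1048577 (.nr 827 110 .s1 (.nx 833 20644 (.nx 829 175 (.nr
  828 1050 (.l1 (.ls 29 31 281)) (.l1 .sk)) (.nx 830 176 (.l1 .sk) (.lg 0 false 3 89 89 29 0
  55440))) (.nr 836 32769 (.nr 834 513 (.lg 0 false 1 73 73 23 0 55440) (.nx 835 104033 (.lg 2 true
  1 71 71 23 24437 18480) .out)) .out))) .out) .out) (.nx 852 1664512 (.nr 851 1048577 (.nr 840 112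
  .s1 (.nx 843 176 (.nx 842 175 (.nr 841 1059 (.l1 (.ls 29 29 276)) (.l1 .sk)) (.l1 .sk)) (.nx 846
  13005 (.lg 0 false 3 83 89 29 0 5040) (.nr 850 65537 (.nx 847 104033 (.lg 0 true 1 83 83 23 0
  1680) (.nr 849 513 (.lg 0 true 2 67 67 29 0 1680) .out)) .out)))) .out) .out)) (.na 867 115 (.nx
  866 1664512 (.nr 865 1048577 (.nr 854 113 .s1 (.nx 857 176 (.nx 856 175 (.nr 855 1078 (.l1 (.ls
  19 17 274)) (.l1 .sk)) (.l1 .sk)) (.nx 861 20644 (.lg 0 false 4 79 79 17 0 1680) (.nr 864 32769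
  (.nr 862 513 (.lg 0 false 1 67 67 16 0 1680) (.nx 863 104033 (.lg 2 true 1 67 67 16 24437 1680)
  .out)) .out)))) .out) .out) (.nx 879 1664512 (.nr 878 1048577 (.nr 868 115 .s1 (.nx 874 20644
  (.nx 870 175 (.nr 869 1087 (.l1 (.ls 19 19 269)) (.l1 .sk)) (.nx 871 176 (.l1 .sk) (.lg 0 false 3
  83 83 17 0 2520))) (.nr 877 32769 (.nr 875 513 (.lg 0 false 1 73 73 16 0 55440) (.nx 876 104033
  (.lg 2 true 1 71 71 16 24437 840) .out)) .out))) .out) .out)))))))

def T108_1 : Ph :=
  (.na 358 195 (.na 200 145 (.na 131 121 (.na 53 105 (.na 26 99 (.na 13 97 (.nx 12 1664512 (.nr 11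
  1048577 (.nr 1 91 .s1 (.nx 3 140 (.nr 2 813 (.l1 (.ls 23 23 218)) (.l1 .sk)) (.nx 4 141 (.l1 .sk)
  (.nx 7 20644 (.lg 0 false 3 89 89 19 0 32760) (.nr 10 32769 (.nr 8 513 (.lg 0 false 1 73 73 17 0
  32760) (.nx 9 104033 (.lg 2 true 1 71 71 17 15623 32760) .out)) .out))))) .out) .out) (.nx 25
  1664512 (.nr 24 1048577 (.nr 14 97 .s1 (.nx 16 140 (.nr 15 830 (.l1 (.ls 19 17 205)) (.l1 .sk))
  (.nx 17 141 (.l1 .sk) (.nx 20 20644 (.lg 0 false 3 83 83 16 0 2520) (.nr 23 32769 (.nr 21 513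
  (.lg 0 false 1 71 71 16 0 2520) (.nx 22 104033 (.lg 2 true 1 67 67 16 15623 2520) .out))
  .out))))) .out) .out)) (.na 39 100 (.nx 38 1664512 (.nr 37 1048577 (.nr 27 99 .s1 (.nx 34 104033
  (.nx 29 140 (.nr 28 839 (.l1 (.ls 31 23 200)) (.l1 .sk)) (.nx 30 141 (.l1 .sk) (.nx 32 13005 (.lg
  0 false 2 97 97 23 0 55440) (.nr 33 65537 (.lg 0 false 1 89 89 19 0 27720) .out)))) (.nr 36 513
  (.lg 0 true 2 73 73 23 0 55440) .out))) .out) .out) (.na 40 103 (.lg 0 false 1 0 0 16 0 24) (.nx
  52 1664512 (.nr 51 1048577 (.nr 41 103 .s1 (.nx 43 140 (.nr 42 880 (.l1 (.ls 19 17 193)) (.l1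
  .sk)) (.nx 44 141 (.l1 .sk) (.nx 47 20644 (.lg 0 false 3 83 83 16 0 2520) (.nr 50 32769 (.nr 48
  513 (.lg 0 false 1 71 71 16 0 2520) (.nx 49 104033 (.lg 2 true 1 67 67 16 15623 2520) .out))
  .out))))) .out) .out)))) (.na 92 116 (.na 66 108 (.nx 65 1664512 (.nr 64 1048577 (.nr 54 105 .s1
  (.nx 60 20644 (.nx 56 140 (.nr 55 906 (.l1 (.ls 19 29 189)) (.l1 .sk)) (.nx 57 141 (.l1 .sk) (.lg
  0 false 3 83 83 23 0 2520))) (.nr 63 32769 (.nr 61 513 (.lg 0 false 1 71 71 19 0 2520) (.nx 62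
  104033 (.lg 2 true 1 67 67 19 15623 2520) .out)) .out))) .out) .out) (.na 79 109 (.nx 78 1664512
  (.nr 77 1048577 (.nr 67 108 .s1 (.nx 70 141 (.nx 69 140 (.nr 68 914 (.l1 (.ls 29 29 184)) (.l1
  .sk)) (.l1 .sk)) (.nx 72 13005 (.lg 0 false 2 89 89 29 0 5040) (.nr 76 65537 (.nx 73 104033 (.lg
  0 false 1 89 89 23 0 5040) (.nr 75 513 (.lg 0 true 2 71 71 29 0 5040) .out)) .out)))) .out) .out)
  (.nx 91 1664512 (.nr 90 1048577 (.nr 80 109 .s1 (.nx 83 141 (.nx 82 140 (.nr 81 973 (.l1 (.ls 19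
  17 182)) (.l1 .sk)) (.l1 .sk)) (.nx 86 20644 (.lg 0 false 3 83 83 16 0 2520) (.nr 89 32769 (.nr
  87 513 (.lg 0 false 1 71 71 16 0 2520) (.nx 88 104033 (.lg 2 true 1 67 67 16 15623 2520) .out))
  .out)))) .out) .out))) (.na 105 117 (.nx 104 1664512 (.nr 103 1048577 (.nr 93 116 .s1 (.nx 98
  13005 (.nx 95 140 (.nr 94 981 (.l1 (.ls 23 23 171)) (.l1 .sk)) (.nx 96 141 (.l1 .sk) (.lg 0 false
  2 97 97 23 0 5040))) (.nr 102 65537 (.nr 100 513 (.lg 0 true 2 73 73 23 0 5040) (.nx 101 104033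
  (.lg 1 false 1 97 97 19 49494 5040) .out)) .out))) .out) .out) (.na 118 119 (.nx 117 1664512 (.nr
  116 1048577 (.nr 106 117 .s1 (.nx 109 141 (.nx 108 140 (.nr 107 998 (.l1 (.ls 29 23 170)) (.l1
  .sk)) (.l1 .sk)) (.nx 111 13005 (.lg 0 false 2 89 97 23 0 65520) (.nr 115 65537 (.nx 112 104033
  (.lg 0 false 1 89 89 19 0 32760) (.nr 114 513 (.lg 0 true 2 71 71 23 0 65520) .out)) .out))))
  .out) .out) (.nx 130 1664512 (.nr 129 1048577 (.nr 119 119 .s1 (.nx 122 141 (.nx 121 140 (.nr 120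
  1015 (.l1 (.ls 16 23 167)) (.l1 .sk)) (.l1 .sk)) (.nx 125 20644 (.lg 0 false 3 83 83 19 0 2520)
  (.nr 128 32769 (.nr 126 513 (.lg 2 false 1 67 67 16 979125 2520) (.nx 127 104033 (.lg 2 true 1 67
  67 16 15623 2520) .out)) .out)))) .out) .out))))) (.na 157 135 (.na 145 128 (.na 144 125 (.nx 143
  1664512 (.nr 142 1048577 (.nr 132 121 .s1 (.nx 135 141 (.nx 134 140 (.nr 133 1048 (.l1 (.ls 23 19
  164)) (.l1 .sk)) (.l1 .sk)) (.nx 138 20644 (.lg 0 false 3 83 83 19 0 27720) (.nr 141 32769 (.nr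
  139 513 (.lg 0 false 1 71 71 17 0 27720) (.nx 140 104033 (.lg 2 true 1 67 67 17 15623 27720)
  .out)) .out)))) .out) .out) (.lg 0 false 1 0 0 16 0 24)) (.na 146 131 .ne (.na 147 132 (.lg 0
  false 1 0 0 16 0 24) (.nx 156 832257 (.nr 155 1048577 (.nr 148 132 .s1 (.nx 153 104033 (.nx 151
  13005 (.nx 149 257 (.l1 (.ls 83 41 503)) (.nr 150 741457 (.lg 0 false 1 97 97 31 0 55440) .out))
  (.nr 152 16385 (.lg 0 true 1 83 89 31 0 55440) .out)) (.nr 154 1025 (.lg 0 true 1 79 79 31 0
  55440) .out))) .out) .out)))) (.na 169 140 (.na 167 137 (.nx 166 832257 (.nr 165 1048577 (.nr 158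
  135 .s1 (.nx 161 13005 (.nx 159 257 (.l1 (.ls 71 29 492)) (.nr 160 741457 (.lg 0 true 1 83 83 19
  0 27720) .out)) (.nr 164 16385 (.nr 162 1025 (.lg 0 false 1 67 67 19 0 2520) (.nx 163 104033 (.lg
  2 true 1 59 59 19 12453 2520) .out)) .out))) .out) .out) (.na 168 139 (.lg 0 false 1 0 0 16 0 24)
  (.lg 0 false 1 0 0 16 0 24))) (.na 179 141 (.nx 178 832257 (.nr 177 1048577 (.nr 170 140 .s1 (.nx
  171 257 (.l1 (.ls 71 37 474)) (.nr 176 741457 (.nx 172 13005 (.lg 0 true 1 89 89 29 0 55440) (.nr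
  175 16385 (.nr 173 1025 (.lg 0 false 1 71 71 29 0 5040) (.nx 174 104033 (.lg 2 true 1 61 61 29
  12453 5040) .out)) .out)) .out))) .out) .out) (.na 190 143 (.nx 189 832257 (.nr 188 1048577 (.nr
  180 141 .s1 (.nx 181 257 (.l1 (.ls 73 23 471)) (.nr 187 741457 (.nx 183 13005 (.lg 0 false 2 89
  89 19 0 5040) (.nr 186 16385 (.nr 184 1025 (.lg 0 true 1 71 71 19 0 2520) (.nx 185 104033 (.lg 2
  false 1 67 67 19 12453 2520) .out)) .out)) .out))) .out) .out) (.nx 199 832257 (.nr 198 1048577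
  (.nr 191 143 .s1 (.nx 194 13005 (.nx 192 257 (.l1 (.ls 79 29 464)) (.nr 193 741457 (.lg 0 true 1
  89 89 19 0 360360) .out)) (.nr 197 16385 (.nr 195 1025 (.lg 0 true 1 71 71 19 0 360360) (.nx 196
  104033 (.lg 2 false 1 67 67 19 12453 360360) .out)) .out))) .out) .out)))))) (.na 290 173 (.na
  241 156 (.na 211 149 (.na 210 147 (.nx 209 832257 (.nr 208 1048577 (.nr 201 145 .s1 (.nx 204
  13005 (.nx 202 257 (.l1 (.ls 71 23 458)) (.nr 203 741457 (.lg 0 true 1 83 83 17 0 2520) .out))
  (.nr 207 16385 (.nr 205 1025 (.lg 0 false 1 71 71 17 0 2520) (.nx 206 104033 (.lg 2 true 1 59 59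
  17 12453 2520) .out)) .out))) .out) .out) (.lg 0 false 1 0 0 16 0 24)) (.na 221 151 (.nx 220
  832257 (.nr 219 1048577 (.nr 212 149 .s1 (.nx 213 257 (.l1 (.ls 67 19 446)) (.nr 218 741457 (.nx
  214 13005 (.lg 0 true 1 83 83 16 0 2520) (.nr 217 16385 (.nr 215 1025 (.lg 0 false 1 67 67 16 0
  2520) (.nx 216 104033 (.lg 2 true 1 59 59 16 12453 2520) .out)) .out)) .out))) .out) .out) (.na
  231 153 (.nx 230 832257 (.nr 229 1048577 (.nr 222 151 .s1 (.nx 225 13005 (.nx 223 257 (.l1 (.ls
  67 19 440)) (.nr 224 741457 (.lg 0 true 1 83 83 16 0 27720) .out)) (.nr 228 16385 (.nr 226 1025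
  (.lg 0 false 1 67 67 16 0 27720) (.nx 227 104033 (.lg 2 true 1 59 59 16 12453 2520) .out))
  .out))) .out) .out) (.nx 240 832257 (.nr 239 1048577 (.nr 232 153 .s1 (.nx 233 257 (.l1 (.ls 79
  29 434)) (.nr 238 741457 (.nx 234 13005 (.lg 0 true 1 89 89 23 0 2520) (.nr 237 16385 (.nr 235
  1025 (.lg 0 true 1 71 71 23 0 2520) (.nx 236 104033 (.lg 2 false 1 67 67 23 12453 2520) .out))
  .out)) .out))) .out) .out)))) (.na 262 165 (.na 251 157 (.nx 250 832257 (.nr 249 1048577 (.nr 242
  156 .s1 (.nx 243 257 (.l1 (.ls 83 37 426)) (.nr 248 741457 (.nx 244 13005 (.lg 0 false 1 97 97 37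
  0 65520) (.nr 247 16385 (.nx 245 104033 (.lg 0 true 1 83 83 37 0 65520) (.nr 246 1025 (.lg 0 true
  1 79 79 37 0 65520) .out)) .out)) .out))) .out) .out) (.na 261 163 (.nx 260 832257 (.nr 259
  1048577 (.nr 252 157 .s1 (.nx 253 257 (.l1 (.ls 67 19 423)) (.nr 258 741457 (.nx 254 13005 (.lg 0
  true 1 83 83 16 0 27720) (.nr 257 16385 (.nr 255 1025 (.lg 0 false 1 67 67 16 0 27720) (.nx 256
  104033 (.lg 2 true 1 59 59 16 12453 2520) .out)) .out)) .out))) .out) .out) (.lg 0 false 1 0 0 16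
  0 24))) (.na 272 167 (.nx 271 832257 (.nr 270 1048577 (.nr 263 165 .s1 (.nx 266 13005 (.nx 264
  257 (.l1 (.ls 73 31 403)) (.nr 265 741457 (.lg 0 true 1 83 83 29 0 27720) .out)) (.nr 269 16385
  (.nr 267 1025 (.lg 0 true 1 67 67 29 0 27720) (.nx 268 104033 (.lg 2 true 1 61 61 29 12453 27720)
  .out)) .out))) .out) .out) (.na 282 169 (.nx 281 832257 (.nr 280 1048577 (.nr 273 167 .s1 (.nx
  274 257 (.l1 (.ls 67 19 398)) (.nr 279 741457 (.nx 275 13005 (.lg 0 true 1 79 79 16 0 2520) (.nr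
  278 16385 (.nr 276 1025 (.lg 0 false 1 61 61 16 0 2520) (.nx 277 104033 (.lg 2 false 1 53 53 16
  12453 2520) .out)) .out)) .out))) .out) .out) (.nx 289 832257 (.nr 288 1048577 (.nr 283 169 .s1
  (.nx 284 257 (.l1 (.ls 71 23 393)) (.nr 287 741457 (.nr 285 16385 (.lg 0 false 1 83 83 17 0
  32760) (.nx 286 13005 (.lg 0 true 1 83 83 17 0 32760) .out)) .out))) .out) .out))))) (.na 320 182
  (.na 301 179 (.na 300 175 (.nx 299 832257 (.nr 298 1048577 (.nr 291 173 .s1 (.nx 292 257 (.l1
  (.ls 67 19 384)) (.nr 297 741457 (.nx 293 13005 (.lg 0 true 1 79 79 16 0 2520) (.nr 296 16385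
  (.nr 294 1025 (.lg 0 false 1 61 61 16 0 2520) (.nx 295 104033 (.lg 2 true 1 53 53 16 12453 2520)
  .out)) .out)) .out))) .out) .out) (.lg 0 false 1 0 0 16 0 24)) (.na 309 180 (.nx 308 832257 (.nr
  307 1048577 (.nr 302 179 .s1 (.nx 303 257 (.l1 (.ls 67 19 371)) (.nr 306 741457 (.nr 304 16385
  (.lg 0 false 1 83 83 16 0 27720) (.nx 305 13005 (.lg 0 true 1 79 79 16 0 2520) .out)) .out)))
  .out) .out) (.na 319 181 (.nx 318 832257 (.nr 317 1048577 (.nr 310 180 .s1 (.nx 311 257 (.l1 (.ls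
  73 37 369)) (.nr 316 741457 (.nx 312 13005 (.lg 0 true 1 83 83 31 0 5040) (.nr 315 16385 (.nr 313
  1025 (.lg 0 true 1 67 67 31 0 5040) (.nx 314 104033 (.lg 2 false 1 61 61 31 12453 5040) .out))
  .out)) .out))) .out) .out) (.lg 0 false 1 0 0 16 0 24)))) (.na 341 189 (.na 321 187 .ne (.na 331
  188 (.nx 330 832257 (.nr 329 1048577 (.nr 322 187 .s1 (.nx 325 13005 (.nx 323 257 (.l1 (.ls 79 29
  356)) (.nr 324 741457 (.lg 0 true 1 89 89 23 0 27720) .out)) (.nr 328 16385 (.nr 326 1025 (.lg 0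
  true 1 71 71 23 0 27720) (.nx 327 104033 (.lg 2 true 1 67 67 23 12453 27720) .out)) .out))) .out)
  .out) (.nx 340 832257 (.nr 339 1048577 (.nr 332 188 .s1 (.nx 333 257 (.l1 (.ls 79 29 354)) (.nr
  338 741457 (.nx 334 13005 (.lg 0 true 1 89 89 23 0 5040) (.nr 337 16385 (.nr 335 1025 (.lg 0 true
  1 71 71 23 0 5040) (.nx 336 104033 (.lg 2 false 1 67 67 23 12453 5040) .out)) .out)) .out)))
  .out) .out))) (.na 349 191 (.nx 348 832257 (.nr 347 1048577 (.nr 342 189 .s1 (.nx 345 13005 (.nx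
  343 257 (.l1 (.ls 67 29 352)) (.nr 344 741457 (.lg 0 true 1 79 79 19 0 2520) .out)) (.nr 346
  16385 (.lg 0 false 1 79 79 19 0 2520) .out))) .out) .out) (.na 357 193 (.nx 356 832257 (.nr 355
  1048577 (.nr 350 191 .s1 (.nx 353 13005 (.nx 351 257 (.l1 (.ls 67 19 348)) (.nr 352 741457 (.lg 0
  true 1 79 79 16 0 2520) .out)) (.nr 354 16385 (.lg 0 false 1 79 79 16 0 2520) .out))) .out) .out)
  (.lg 0 false 1 0 0 16 0 24))))))) (.na 501 245 (.na 437 223 (.na 379 204 (.na 369 197 (.na 368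
  196 (.nx 367 832257 (.nr 366 1048577 (.nr 359 195 .s1 (.nx 362 13005 (.nx 360 257 (.l1 (.ls 73 31
  341)) (.nr 361 741457 (.lg 0 true 1 83 83 29 0 32760) .out)) (.nr 365 16385 (.nr 363 1025 (.lg 0
  true 1 67 67 29 0 32760) (.nx 364 104033 (.lg 2 false 1 61 61 29 12453 32760) .out)) .out)))
  .out) .out) (.lg 0 false 1 0 0 16 0 24)) (.na 370 199 (.lg 0 false 1 0 0 16 0 24) (.na 371 203
  (.lg 0 false 1 0 0 16 0 24) (.nx 378 832257 (.nr 377 1048577 (.nr 372 203 .s1 (.nx 373 257 (.l1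
  (.ls 67 23 328)) (.nr 376 741457 (.nr 374 16385 (.lg 0 false 1 83 83 17 0 2520) (.nx 375 13005
  (.lg 0 true 1 79 79 17 0 2520) .out)) .out))) .out) .out)))) (.na 407 219 (.na 389 211 (.nx 388
  832257 (.nr 387 1048577 (.nr 380 204 .s1 (.nx 385 104033 (.nx 383 13005 (.nx 381 257 (.l1 (.ls 83
  37 326)) (.nr 382 741457 (.lg 0 false 1 89 97 37 0 5040) .out)) (.nr 384 16385 (.lg 0 true 1 79
  83 37 0 5040) .out)) (.nr 386 1025 (.lg 0 true 1 73 73 37 0 5040) .out))) .out) .out) (.na 397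
  213 (.nx 396 832257 (.nr 395 1048577 (.nr 390 211 .s1 (.nx 391 257 (.l1 (.ls 67 19 316)) (.nr 394
  741457 (.nr 392 16385 (.lg 0 false 1 79 79 16 0 2520) (.nx 393 13005 (.lg 0 true 1 79 79 16 0
  2520) .out)) .out))) .out) .out) (.nx 406 832257 (.nr 405 1048577 (.nr 398 213 .s1 (.nx 401 13005
  (.nx 399 257 (.l1 (.ls 67 23 313)) (.nr 400 741457 (.lg 0 false 1 83 83 19 0 2520) .out)) (.nr
  404 16385 (.nr 402 1025 (.lg 0 true 1 61 61 19 0 2520) (.nx 403 104033 (.lg 2 true 1 59 59 19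
  12453 2520) .out)) .out))) .out) .out))) (.na 417 220 (.nx 416 832257 (.nr 415 1048577 (.nr 408
  219 .s1 (.nx 411 13005 (.nx 409 257 (.l1 (.ls 71 23 304)) (.nr 410 741457 (.lg 0 false 1 83 83 19
  0 2520) .out)) (.nr 414 16385 (.nr 412 1025 (.lg 0 true 1 61 61 19 0 2520) (.nx 413 104033 (.lg 2
  true 1 59 59 19 12453 2520) .out)) .out))) .out) .out) (.na 427 221 (.nx 426 832257 (.nr 425
  1048577 (.nr 418 220 .s1 (.nx 421 13005 (.nx 419 257 (.l1 (.ls 73 37 303)) (.nr 420 741457 (.lg 0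
  true 1 83 83 31 0 55440) .out)) (.nr 424 16385 (.nr 422 1025 (.lg 0 true 1 67 67 31 0 55440) (.nx
  423 104033 (.lg 2 false 1 61 61 31 12453 55440) .out)) .out))) .out) .out) (.nx 436 832257 (.nr
  435 1048577 (.nr 428 221 .s1 (.nx 431 13005 (.nx 429 257 (.l1 (.ls 73 29 301)) (.nr 430 741457
  (.lg 0 true 1 89 89 23 0 32760) .out)) (.nr 434 16385 (.nr 432 1025 (.lg 0 true 1 67 67 23 0
  32760) (.nx 433 104033 (.lg 2 false 1 61 61 23 12453 32760) .out)) .out))) .out) .out))))) (.na
  465 233 (.na 446 227 (.na 445 225 (.nx 444 832257 (.nr 443 1048577 (.nr 438 223 .s1 (.nx 441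
  13005 (.nx 439 257 (.l1 (.ls 67 19 299)) (.nr 440 741457 (.lg 0 true 1 73 73 16 0 2520) .out))
  (.nr 442 16385 (.lg 0 false 1 79 79 16 0 2520) .out))) .out) .out) (.lg 0 false 1 0 0 16 0 24))
  (.na 454 229 (.nx 453 832257 (.nr 452 1048577 (.nr 447 227 .s1 (.nx 448 257 (.l1 (.ls 61 19 293))
  (.nr 451 741457 (.nr 449 16385 (.lg 0 false 1 79 79 17 0 2520) (.nx 450 13005 (.lg 0 true 1 73 73
  17 0 2520) .out)) .out))) .out) .out) (.na 455 231 (.lg 0 false 1 0 0 16 0 24) (.nx 464 832257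
  (.nr 463 1048577 (.nr 456 231 .s1 (.nx 459 13005 (.nx 457 257 (.l1 (.ls 71 31 288)) (.nr 458
  741457 (.lg 0 true 1 83 83 29 0 27720) .out)) (.nr 462 16385 (.nr 460 1025 (.lg 0 true 1 61 61 29
  0 27720) (.nx 461 104033 (.lg 2 true 1 59 59 29 12453 27720) .out)) .out))) .out) .out)))) (.na
  484 239 (.na 466 235 (.lg 0 false 1 0 0 16 0 24) (.na 474 237 (.nx 473 832257 (.nr 472 1048577
  (.nr 467 235 .s1 (.nx 468 257 (.l1 (.ls 67 19 284)) (.nr 471 741457 (.nr 469 16385 (.lg 0 false 1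
  83 83 17 0 2520) (.nx 470 13005 (.lg 0 true 1 79 79 17 0 2520) .out)) .out))) .out) .out) (.nx
  483 832257 (.nr 482 1048577 (.nr 475 237 .s1 (.nx 478 13005 (.nx 476 257 (.l1 (.ls 71 23 281))
  (.nr 477 741457 (.lg 0 false 1 83 83 19 0 2520) .out)) (.nr 481 16385 (.nr 479 1025 (.lg 0 true 1
  61 61 19 0 2520) (.nx 480 104033 (.lg 2 false 1 59 59 19 12453 2520) .out)) .out))) .out) .out)))
  (.na 492 241 (.nx 491 832257 (.nr 490 1048577 (.nr 485 239 .s1 (.nx 488 13005 (.nx 486 257 (.l1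
  (.ls 61 19 279)) (.nr 487 741457 (.lg 0 true 1 73 73 17 0 2520) .out)) (.nr 489 16385 (.lg 0
  false 1 79 79 17 0 27720) .out))) .out) .out) (.na 493 243 (.lg 0 false 1 0 0 16 0 24) (.nx 500
  832257 (.nr 499 1048577 (.nr 494 243 .s1 (.nx 495 257 (.l1 (.ls 61 23 274)) (.nr 498 741457 (.nr
  496 16385 (.lg 0 false 1 79 79 19 0 2520) (.nx 497 13005 (.lg 0 true 1 73 73 19 0 2520) .out))
  .out))) .out) .out)))))) (.na 4230 2048 (.na 533 256 (.na 512 251 (.na 502 249 (.lg 0 false 1 0 0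
  16 0 24) (.nx 511 832257 (.nr 510 1048577 (.nr 503 249 .s1 (.nx 504 257 (.l1 (.ls 67 23 268))
  (.nr 509 741457 (.nx 505 13005 (.lg 0 false 1 73 73 23 0 2520) (.nr 508 16385 (.nr 506 1025 (.lg
  0 true 1 59 59 23 0 2520) (.nx 507 104033 (.lg 2 false 1 53 53 23 12453 2520) .out)) .out))
  .out))) .out) .out)) (.na 513 252 (.lg 0 false 1 0 0 16 0 24) (.na 523 255 (.nx 522 832257 (.nr
  521 1048577 (.nr 514 252 .s1 (.nx 517 13005 (.nx 515 257 (.l1 (.ls 71 37 265)) (.nr 516 741457
  (.lg 0 false 1 79 79 37 0 5040) .out)) (.nr 520 16385 (.nr 518 1025 (.lg 0 true 1 61 61 37 0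
  5040) (.nx 519 104033 (.lg 2 false 1 59 59 37 12453 5040) .out)) .out))) .out) .out) (.nx 532
  832257 (.nr 531 1048577 (.nr 524 255 .s1 (.nx 527 13005 (.nx 525 257 (.l1 (.ls 71 31 262)) (.nr
  526 741457 (.lg 0 false 1 79 79 29 0 2520) .out)) (.nr 530 16385 (.nr 528 1025 (.lg 0 true 1 61
  61 29 0 2520) (.nx 529 104033 (.lg 2 true 1 59 59 29 12453 2520) .out)) .out))) .out) .out))))
  (.na 1890 725 (.na 534 257 .ne (.na 1254 512 (.nx 1253 832257 (.nr 1252 1482912 (.nr 535 257 .s1
  (.nx 675 140 (.nr 674 4292 (.lx (.lp 31 19 129)) (.l1 .sk)) (.nx 676 141 (.l1 .sk) (.nx 740 205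
  (.lx (.lp 71 19 129)) (.nr 1251 1048577 (.nr 995 32769 (.la (.lg 0 false 1 79 79 23 0)) (.nx 1250
  10323 (.la (.lg 0 true 1 73 73 23 0)) .out)) .out))))) .out) .out) (.nx 1889 832257 (.nr 1888
  1482912 (.nr 1255 512 .s1 (.nx 1395 140 (.nr 1394 6077 (.lx (.lp 31 19 182)) (.l1 .sk)) (.nx 1396
  141 (.l1 .sk) (.nx 1460 205 (.lx (.lp 71 19 182)) (.nr 1887 1048577 (.nx 1673 10323 (.la (.lg 0
  false 1 67 67 29 0)) (.nr 1886 32769 (.la (.lg 2 true 1 61 61 29 113786)) .out)) .out))))) .out)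
  .out))) (.na 2492 1024 (.nx 2491 10323 (.nr 2490 1048577 (.nr 1891 725 .s1 (.nx 2190 2049 (.la
  (.ls 67 41 5793)) (.nr 2489 16385 (.la (.lg 0 true 1 41 41 29 0)) .out))) .out) .out) (.na 3487
  1449 (.nx 3486 10323 (.nr 3485 1048577 (.nr 2493 1024 .s1 (.nx 2633 140 (.nr 2632 12145 (.lx (.lp
  31 23 363)) (.l1 .sk)) (.nx 2634 141 (.l1 .sk) (.nx 3059 2582 (.la (.ls 61 41 6494)) (.nr 3484
  16385 (.la (.lg 0 false 1 37 37 31 0)) .out))))) .out) .out) (.nx 4229 2582 (.nr 4228 524289 (.nr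
  3488 1449 .s1 (.nx 3628 140 (.nr 3627 17166 (.lx (.lp 16 23 513)) (.l1 .sk)) (.nx 3629 141 (.l1
  .sk) (.la (.ls 59 37 4590))))) .out) .out))))) (.na 10996 16384 (.na 6566 4096 (.na 5223 2897
  (.nx 5222 3252 (.nr 5221 524289 (.nr 4231 2048 .s1 (.nx 4371 140 (.nr 4370 24282 (.lx (.lp 31 29
  725)) (.l1 .sk)) (.nx 4372 141 (.l1 .sk) (.la (.ls 59 41 5157))))) .out) .out) (.nx 6565 2582
  (.nr 6564 262145 (.nr 5224 2897 .s1 (.nx 5364 140 (.nr 5363 34331 (.lx (.lp 29 31 1025)) (.l1
  .sk)) (.nx 5365 141 (.l1 .sk) (.la (.ls 47 37 2297))))) .out) .out)) (.na 8407 5793 (.nx 8406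
  2582 (.nr 8405 262145 (.nr 6567 4096 .s1 (.nx 6708 141 (.nx 6707 140 (.nr 6706 48555 (.lx (.lp 16
  31 1449)) (.l1 .sk)) (.l1 .sk)) (.la (.ls 43 37 1625)))) .out) .out) (.na 9701 8192 (.nx 9700
  1292 (.nr 9699 65537 (.nr 8408 5793 .s1 (.lx (.lp 31 37 2049))) .out) .out) (.nx 10995 1292 (.nr
  10994 131073 (.nr 9702 8192 .s1 (.nx 9906 205 (.lx (.lp 37 41 4097)) (.nr 10993 65537 (.lx (.lp
  31 41 4097)) .out))) .out) .out)))) (.na 14348 131072 (.na 12292 32768 (.nx 12291 1292 (.nr 12290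
  262145 (.nr 10997 16384 .s1 (.nx 11319 322 (.nx 11201 205 (.lx (.lp 37 41 8193)) (.nr 11318 65537
  (.lx (.lp 29 43 8193)) .out)) (.nr 12289 131073 (.lx (.lp 31 43 8193)) .out))) .out) .out) (.na
  13320 65536 (.nx 13319 1025 (.nr 13318 262145 (.nr 12293 32768 .s1 (.nx 12497 205 (.lx (.lp 16 0
  16385)) (.nr 13317 131073 (.lx (.lp 29 47 16385)) .out))) .out) .out) (.nx 14347 1025 (.nr 14346
  262145 (.nr 13321 65536 .s1 (.nx 13644 324 (.lx (.lp 29 53 32769)) (.nr 14345 131073 (.lx (.lp 23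
  53 32769)) .out))) .out) .out))) (.na 14350 262144 (.nx 14349 324 (.l1 .sk) .out) (.na 14352
  524289 (.nx 14351 205 (.l1 .sk) .out) .out)))))))

def T108_2 : Ph :=
  (.na 665 166 (.na 515 71 (.na 396 19 (.na 286 8 (.na 190 3 (.na 1 2 .ne (.nx 189 3329023 (.nr 188
  623489 (.nx 4 134 (.nx 3 133 (.nr 2 22 (.lg 0 true 1 43 43 5 0 31920) (.l1 .sk)) (.l1 .sk)) (.nr
  172 131073 (.nx 153 1664512 (.nx 37 18154 (.lg 0 false 33 103 107 13 0 13693680) (.nr 70 450 (.lg
  0 true 33 97 101 13 0 1053360) (.nx 152 416129 (.nx 103 32769 (.lg 1 false 33 101 107 13 63925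
  13693680) (.nr 151 92683 (.nr 132 55110 (.nr 112 2437 (.lg 2 true 9 97 97 9 61495 95760) (.nx 131
  330282 (.nr 121 27556 (.lg 2 false 9 101 101 9 9013 95760) (.nx 130 165142 (.lg 2 false 9 107 107
  9 14911 13693680) .out)) .out)) (.nx 150 131073 (.lg 2 false 18 103 107 11 25052 13693680) .out))
  .out)) .out))) (.nr 171 9 (.lg 0 true 18 73 73 9 0 19152) .out)) (.nx 187 257 (.lg 0 false 15 83
  83 9 0 95760) .out))) .out) .out)) (.na 191 7 .ne (.nx 285 13316087 (.nr 284 262145 (.nx 213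
  26007 (.nx 193 133 (.nr 192 65 (.lg 0 true 1 29 29 9 0 15960) (.l1 .sk)) (.nx 194 134 (.l1 .sk)
  (.nr 207 110219 (.lg 0 false 13 89 97 16 0 207480) (.nx 212 1627 (.lg 0 false 5 79 79 11 0 15960)
  .out)))) (.nr 283 131073 (.nx 252 1664512 (.nr 229 626 (.lg 0 true 16 79 79 16 0 6384) (.nx 251
  524289 (.nx 238 52015 (.lg 1 false 9 89 89 16 44622 47880) (.nr 242 2630 (.lg 2 false 4 79 79 11
  55696 31920) (.lg 2 false 9 97 97 16 22311 47880))) .out)) (.nr 282 47 (.lg 0 true 30 79 79 11 0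
  95760) .out)) .out)) .out) .out))) (.na 344 14 (.na 287 13 .ne (.nx 343 1664512 (.nr 342 623489
  (.nr 288 7 .s1 (.nx 291 134 (.nx 290 133 (.nr 289 114 (.l1 (.ls 29 31 1363)) (.l1 .sk)) (.l1
  .sk)) (.nr 337 155873 (.nx 295 10323 (.lg 0 true 4 101 101 16 0 1244880) (.nr 336 110219 (.nr 318
  46342 (.nx 312 524289 (.nr 300 829 (.lg 0 true 5 83 83 16 0 207480) (.nx 311 416129 (.lg 2 true
  11 79 79 16 39821 456456) .out)) (.nr 317 65 (.lg 0 true 5 71 71 16 0 207480) .out)) (.nx 335
  208065 (.nx 330 131073 (.lg 0 true 12 101 107 16 0 13693680) (.nr 334 55110 (.lg 0 true 4 97 101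
  16 0 1244880) .out)) .out)) .out)) (.nx 341 1292 (.lg 0 false 4 89 89 16 0 82992) .out)))) .out)
  .out)) (.na 395 16 (.nx 394 1664512 (.nr 393 623489 (.nr 345 8 .s1 (.nx 347 133 (.nr 346 131 (.l1
  (.ls 16 41 1266)) (.l1 .sk)) (.nx 348 134 (.l1 .sk) (.nr 387 155873 (.nx 359 29192 (.lg 0 false
  11 89 89 13 0 70224) (.nr 386 110219 (.nr 374 829 (.lg 0 true 15 79 79 19 0 95760) (.nx 385
  416129 (.lg 2 false 11 89 89 13 33435 70224) .out)) .out)) (.nx 392 1292 (.lg 0 false 5 73 73 13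
  0 31920) .out))))) .out) .out) .ne))) (.na 459 38 (.na 433 26 (.na 432 23 (.nx 431 1664512 (.nr
  430 1048577 (.nr 397 16 .s1 (.nx 398 257 (.l1 (.ls 73 37 3479)) (.nr 429 623489 (.nx 399 647 (.l1
  (.ls 73 47 18558)) (.nr 428 370729 (.nx 410 23171 (.lg 0 false 11 83 83 16 0 35112) (.nr 427
  92683 (.nr 421 634 (.lg 0 true 11 71 71 16 0 35112) (.nx 426 262145 (.lg 2 false 5 83 83 13 35430
  15960) .out)) .out)) .out)) .out))) .out) .out) .ne) (.na 458 32 (.nx 457 1664512 (.nr 456
  1048577 (.nr 434 24 .s1 (.nx 437 134 (.nx 436 133 (.nr 435 262 (.l1 (.ls 29 37 683)) (.l1 .sk))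
  (.l1 .sk)) (.nx 444 20644 (.nx 438 257 (.l1 (.ls 83 41 1852)) (.nr 443 311745 (.lg 0 false 5 97
  97 19 0 414960) .out)) (.nr 455 77937 (.nr 449 513 (.lg 0 true 5 79 79 19 0 414960) (.nx 454
  165142 (.lg 2 false 5 89 97 19 33449 414960) .out)) .out)))) .out) .out) .ne)) (.na 497 46 (.na
  479 41 (.nx 478 1664512 (.nr 477 881745 (.nr 460 37 .s1 (.nx 461 257 (.l1 (.ls 71 41 1741)) (.nr
  476 440873 (.nx 467 20644 (.lg 0 false 6 83 83 13 0 19152) (.nr 475 46342 (.nr 472 335 (.lg 0
  true 5 61 61 13 0 31920) (.nx 474 104033 (.lg 2 true 2 73 73 13 20652 6384) .out)) .out)) .out)))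
  .out) .out) (.nx 496 1664512 (.nr 495 881745 (.nr 480 40 .s1 (.nx 481 257 (.l1 (.ls 73 29 1613))
  (.nr 494 440873 (.nx 486 20644 (.lg 0 false 5 89 89 16 0 15960) (.nr 493 46342 (.nr 491 376 (.lg
  0 true 5 71 71 16 0 15960) (.nx 492 104033 (.lg 2 true 1 83 83 16 19912 3192) .out)) .out))
  .out))) .out) .out)) (.na 498 67 .ne (.nx 514 1664512 (.nr 513 524289 (.nr 499 67 .s1 (.nr 507
  32769 (.nx 503 104033 (.nx 500 1755 (.l1 (.ls 53 47 45973)) (.lg 0 false 3 79 79 16 0 9576)) (.nr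
  506 513 (.lg 0 true 3 71 71 16 0 9576) .out)) (.nx 509 134 (.nx 508 133 (.l1 .sk) (.l1 .sk)) (.nx
  512 20644 (.lg 0 false 3 97 97 16 0 47880) .out)))) .out) .out))))) (.na 597 131 (.na 577 91 (.na
  547 83 (.na 532 82 (.nx 531 1664512 (.nr 530 524289 (.nr 516 71 .s1 (.nx 519 134 (.nx 518 133
  (.nr 517 670 (.l1 (.ls 16 17 252)) (.l1 .sk)) (.l1 .sk)) (.nx 524 20644 (.lg 0 false 5 83 83 16 0
  15960) (.nr 529 32769 (.nr 527 513 (.lg 0 true 3 61 61 16 0 9576) (.nx 528 104033 (.lg 2 true 1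
  71 71 16 14097 3192) .out)) .out)))) .out) .out) (.nx 546 1664512 (.nr 545 524289 (.nr 533 82 .s1
  (.nx 535 133 (.nr 534 679 (.l1 (.ls 23 23 218)) (.l1 .sk)) (.nx 536 134 (.l1 .sk) (.nx 539 20644
  (.lg 0 false 3 89 89 19 0 19152) (.nr 544 32769 (.nr 542 513 (.lg 0 true 3 71 71 19 0 19152) (.nx
  543 104033 (.lg 2 true 1 73 73 13 14097 6384) .out)) .out))))) .out) .out)) (.na 562 89 (.nx 561
  1664512 (.nr 560 524289 (.nr 548 83 .s1 (.nx 551 134 (.nx 550 133 (.nr 549 728 (.l1 (.ls 17 17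
  216)) (.l1 .sk)) (.l1 .sk)) (.nx 554 20644 (.lg 0 false 3 89 89 16 0 47880) (.nr 559 32769 (.nr
  557 513 (.lg 0 true 3 61 61 16 0 9576) (.nx 558 104033 (.lg 2 true 1 67 67 16 14097 3192) .out))
  .out)))) .out) .out) (.nx 576 1664512 (.nr 575 524289 (.nr 563 89 .s1 (.nx 569 20644 (.nx 565 133
  (.nr 564 744 (.l1 (.ls 16 17 201)) (.l1 .sk)) (.nx 566 134 (.l1 .sk) (.lg 0 false 3 79 79 16 0
  9576))) (.nr 574 32769 (.nr 572 744 (.lg 0 true 3 61 61 16 0 9576) (.nx 573 104033 (.lg 2 true 1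
  67 67 16 14097 3192) .out)) .out))) .out) .out))) (.na 595 98 (.na 578 94 .ne (.nx 594 1664512
  (.nr 593 1048577 (.nr 579 94 .s1 (.nx 587 20644 (.nx 581 133 (.nr 580 801 (.l1 (.ls 17 23 191))
  (.l1 .sk)) (.nx 582 134 (.l1 .sk) (.lg 0 false 5 89 89 23 0 31920))) (.nr 592 32769 (.nr 590 801
  (.lg 0 true 3 71 71 19 0 19152) (.nx 591 104033 (.lg 2 true 1 71 71 17 14097 6384) .out)) .out)))
  .out) .out)) (.na 596 128 (.lg 0 false 1 0 0 16 0 24) .ne))) (.na 643 151 (.na 621 137 (.na 609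
  134 (.nx 608 832257 (.nr 607 1048577 (.nr 598 131 .s1 (.nx 603 13005 (.nx 599 257 (.l1 (.ls 67 19
  507)) (.nr 602 741457 (.lg 0 false 3 73 73 17 0 9576) .out)) (.nr 606 16385 (.nr 604 1025 (.lg 0
  false 1 67 67 16 0 9576) (.nx 605 104033 (.lg 2 true 1 59 59 16 11235 3192) .out)) .out))) .out)
  .out) (.nx 620 832257 (.nr 619 1048577 (.nr 610 134 .s1 (.nx 615 13005 (.nx 611 257 (.l1 (.ls 61
  29 495)) (.nr 614 741457 (.lg 0 false 3 79 79 23 0 19152) .out)) (.nr 618 16385 (.nr 616 1025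
  (.lg 0 false 1 71 71 19 0 6384) (.nx 617 104033 (.lg 2 true 1 59 59 19 11235 6384) .out)) .out)))
  .out) .out)) (.na 633 142 (.nx 632 832257 (.nr 631 1048577 (.nr 622 137 .s1 (.nx 627 13005 (.nx
  623 257 (.l1 (.ls 67 19 485)) (.nr 626 741457 (.lg 0 false 3 73 73 17 0 9576) .out)) (.nr 630
  16385 (.nr 628 1025 (.lg 0 false 1 61 61 16 0 3192) (.nx 629 104033 (.lg 2 true 1 53 53 16 11235
  3192) .out)) .out))) .out) .out) (.nx 642 832257 (.nr 641 1048577 (.nr 634 142 .s1 (.nx 637 13005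
  (.nx 635 257 (.l1 (.ls 67 29 468)) (.nr 636 741457 (.lg 0 true 1 89 89 19 0 31920) .out)) (.nr
  640 16385 (.nr 638 1025 (.lg 0 false 1 71 71 19 0 6384) (.nx 639 104033 (.lg 2 true 1 59 59 19
  11235 6384) .out)) .out))) .out) .out))) (.na 654 158 (.na 653 157 (.nx 652 832257 (.nr 651
  1048577 (.nr 644 151 .s1 (.nx 645 257 (.l1 (.ls 61 19 440)) (.nr 650 741457 (.nx 646 13005 (.lg 0
  true 1 79 79 16 0 3192) (.nr 649 16385 (.nr 647 1025 (.lg 0 false 1 61 61 16 0 3192) (.nx 648
  104033 (.lg 2 true 1 53 53 16 11235 3192) .out)) .out)) .out))) .out) .out) (.lg 0 false 1 0 0 16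
  0 24)) (.na 664 163 (.nx 663 832257 (.nr 662 1048577 (.nr 655 158 .s1 (.nx 656 257 (.l1 (.ls 73
  29 421)) (.nr 661 741457 (.nr 659 16385 (.lg 0 true 3 83 83 23 0 19152) (.nx 660 13005 (.lg 0
  true 1 89 89 19 0 6384) .out)) .out))) .out) .out) (.lg 0 false 1 0 0 16 0 24)))))) (.na 784 257
  (.na 734 199 (.na 696 178 (.na 676 169 (.na 675 167 (.nx 674 832257 (.nr 673 1048577 (.nr 666 166
  .s1 (.nx 667 257 (.l1 (.ls 67 29 400)) (.nr 672 741457 (.nr 670 16385 (.lg 0 true 3 73 73 23 0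
  19152) (.nx 671 13005 (.lg 0 true 1 83 83 19 0 6384) .out)) .out))) .out) .out) (.lg 0 false 1 0
  0 16 0 24)) (.na 686 173 (.nx 685 832257 (.nr 684 1048577 (.nr 677 169 .s1 (.nx 678 257 (.l1 (.ls
  61 23 393)) (.nr 683 741457 (.nx 679 13005 (.lg 0 true 1 79 79 17 0 41496) (.nr 682 16385 (.nr
  680 1025 (.lg 0 false 1 61 61 17 0 41496) (.nx 681 104033 (.lg 2 false 1 53 53 17 11235 41496)
  .out)) .out)) .out))) .out) .out) (.nx 695 832257 (.nr 694 1048577 (.nr 687 173 .s1 (.nx 688 257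
  (.l1 (.ls 67 19 384)) (.nr 693 741457 (.nx 689 13005 (.lg 0 true 1 79 79 16 0 15960) (.nr 692
  16385 (.nr 690 1025 (.lg 0 false 1 61 61 16 0 15960) (.nx 691 104033 (.lg 2 true 1 53 53 16 11235
  15960) .out)) .out)) .out))) .out) .out))) (.na 716 182 (.na 706 179 (.nx 705 832257 (.nr 704
  1048577 (.nr 697 178 .s1 (.nx 700 13005 (.nx 698 257 (.l1 (.ls 71 29 374)) (.nr 699 741457 (.lg 0
  true 1 89 89 19 0 31920) .out)) (.nr 703 16385 (.nr 701 1025 (.lg 0 false 1 67 67 19 0 31920)
  (.nx 702 104033 (.lg 2 false 1 53 53 19 11235 6384) .out)) .out))) .out) .out) (.nx 715 832257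
  (.nr 714 1048577 (.nr 707 179 .s1 (.nx 710 13005 (.nx 708 257 (.l1 (.ls 61 19 371)) (.nr 709
  741457 (.lg 0 true 1 73 73 16 0 3192) .out)) (.nr 713 16385 (.nr 711 1025 (.lg 0 false 1 59 59 16
  0 3192) (.nx 712 104033 (.lg 2 true 1 47 47 16 11235 3192) .out)) .out))) .out) .out)) (.na 726
  194 (.nx 725 832257 (.nr 724 1048577 (.nr 717 182 .s1 (.nx 718 257 (.l1 (.ls 71 37 365)) (.nr 723
  741457 (.nx 719 13005 (.lg 0 true 1 83 83 29 0 414960) (.nr 722 16385 (.nr 720 1025 (.lg 0 false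
  1 67 67 29 0 414960) (.nx 721 104033 (.lg 2 true 1 59 59 29 11235 414960) .out)) .out)) .out)))
  .out) .out) (.nx 733 832257 (.nr 732 1048577 (.nr 727 194 .s1 (.nx 728 257 (.l1 (.ls 67 29 343))
  (.nr 731 741457 (.nr 729 16385 (.lg 0 false 1 79 79 19 0 6384) (.nx 730 13005 (.lg 0 true 1 79 79
  19 0 19152) .out)) .out))) .out) .out)))) (.na 759 233 (.na 750 214 (.na 742 211 (.nx 741 832257
  (.nr 740 1048577 (.nr 735 199 .s1 (.nx 736 257 (.l1 (.ls 59 19 334)) (.nr 739 741457 (.nr 737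
  16385 (.lg 0 false 1 73 73 16 0 3192) (.nx 738 13005 (.lg 0 true 1 73 73 16 0 3192) .out))
  .out))) .out) .out) (.nx 749 832257 (.nr 748 1048577 (.nr 743 211 .s1 (.nx 744 257 (.l1 (.ls 61
  19 316)) (.nr 747 741457 (.nr 745 16385 (.lg 0 false 1 79 79 16 0 9576) (.nx 746 13005 (.lg 0
  true 1 73 73 16 0 3192) .out)) .out))) .out) .out)) (.na 758 227 (.nx 757 832257 (.nr 756 1048577
  (.nr 751 214 .s1 (.nx 752 257 (.l1 (.ls 61 29 311)) (.nr 755 741457 (.nr 753 16385 (.lg 0 false 1
  79 79 23 0 6384) (.nx 754 13005 (.lg 0 true 1 73 73 23 0 6384) .out)) .out))) .out) .out) (.lg 0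
  false 1 0 0 16 0 24))) (.na 775 254 (.na 767 247 (.nx 766 832257 (.nr 765 1048577 (.nr 760 233
  .s1 (.nx 761 257 (.l1 (.ls 61 19 286)) (.nr 764 741457 (.nr 762 16385 (.lg 0 false 1 73 73 17 0
  3192) (.nx 763 13005 (.lg 0 true 1 73 73 17 0 15960) .out)) .out))) .out) .out) (.nx 774 832257
  (.nr 773 1048577 (.nr 768 247 .s1 (.nx 769 257 (.l1 (.ls 67 29 270)) (.nr 772 741457 (.nr 770
  16385 (.lg 0 false 1 79 79 17 0 41496) (.nx 771 13005 (.lg 0 true 1 73 73 17 0 41496) .out))
  .out))) .out) .out)) (.na 783 256 (.nx 782 832257 (.nr 781 1048577 (.nr 776 254 .s1 (.nx 777 257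
  (.l1 (.ls 61 29 263)) (.nr 780 741457 (.nr 778 16385 (.lg 0 false 1 73 73 23 0 6384) (.nx 779
  13005 (.lg 0 true 1 73 73 23 0 6384) .out)) .out))) .out) .out) .ne)))) (.na 7638 5793 (.na 3014
  1449 (.na 1984 725 (.na 1554 512 (.nx 1553 832257 (.nr 1552 1482912 (.nr 785 257 .s1 (.nx 1040
  205 (.la (.ls 79 19 166)) (.nr 1551 1048577 (.nx 1295 10323 (.la (.lg 0 true 1 71 71 19 0)) (.nr
  1550 32769 (.la (.lg 2 false 1 71 71 19 215351)) .out)) .out))) .out) .out) (.nx 1983 832257 (.nr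
  1982 1482912 (.nr 1555 512 .s1 (.nx 1768 10323 (.la (.ls 67 59 208136)) (.nr 1981 32769 (.la (.lg
  2 false 1 59 59 23 108096)) .out))) .out) .out)) (.na 2586 1024 (.nx 2585 10323 (.nr 2584 1048577
  (.nr 1985 725 .s1 (.nx 2284 2049 (.la (.ls 59 37 5793)) (.nr 2583 16385 (.la (.lg 0 true 1 31 31
  29 0)) .out))) .out) .out) (.nx 3013 10323 (.nr 3012 1048577 (.nr 2587 1024 .s1 (.la (.ls 59 53
  104069))) .out) .out))) (.na 4468 2897 (.na 3616 2048 (.nx 3615 2582 (.nr 3614 524289 (.nr 3015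
  1449 .s1 (.la (.ls 59 37 4603))) .out) .out) (.nx 4467 3252 (.nr 4466 524289 (.nr 3617 2048 .s1
  (.la (.ls 47 37 5166))) .out) .out)) (.na 5804 4096 (.nx 5803 2582 (.nr 5802 262145 (.nr 4469
  2897 .s1 (.nx 4602 133 (.nr 4601 33465 (.lx (.lp 16 0 1025)) (.l1 .sk)) (.nx 4603 134 (.l1 .sk)
  (.la (.ls 41 37 2298))))) .out) .out) (.nx 7637 2582 (.nr 7636 262145 (.nr 5805 4096 .s1 (.nx
  5938 133 (.nr 5937 47330 (.lx (.lp 16 0 1449)) (.l1 .sk)) (.nx 5939 134 (.l1 .sk) (.la (.ls 37 37
  1626))))) .out) .out)))) (.na 13789 65536 (.na 11468 16384 (.na 10173 8192 (.nx 10172 1292 (.nr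
  10171 65537 (.nr 7639 5793 .s1 (.nx 7771 133 (.lx (.lp 16 0 2049)) (.nx 7772 134 (.l1 .sk) (.la
  (.ls 29 37 2049))))) .out) .out) (.nx 11467 1292 (.nr 11466 131073 (.nr 10174 8192 .s1 (.nx 10378
  205 (.lx (.lp 16 0 4097)) (.nr 11465 65537 (.lx (.lp 29 41 4097)) .out))) .out) .out)) (.na 12762
  32768 (.nx 12761 1292 (.nr 12760 262145 (.nr 11469 16384 .s1 (.lx (.lp 41 43 8193))) .out) .out)
  (.nx 13788 1025 (.nr 13787 262145 (.nr 12763 32768 .s1 (.lx (.lp 29 47 16385))) .out) .out)))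
  (.na 14818 262144 (.na 14816 131072 (.nx 14815 1025 (.nr 14814 262145 (.nr 13790 65536 .s1 (.lx
  (.lp 17 53 32769))) .out) .out) (.nx 14817 324 (.l1 .sk) .out)) (.na 14820 524289 (.nx 14819 205
  (.l1 .sk) .out) .out))))))

theorem c108 :
    OkQ ckI L8 175 9 116 0 34359738368 1 1099511627776 ∧
    OkQ ckI L8 140 91 1099511627776 0 34359738368 1 1099511627776 ∧
    OkQ ckI L8 133 1 1099511627776 0 34359738368 1 1099511627776 := by
  refine ⟨?_, ?_, ?_⟩
  · refine fin 840 880 T108_0 ?_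
    refine jn 4 (by decide +kernel) ?_
    refine jn 15 (by decide +kernel) ?_
    refine jn 33 (by decide +kernel) ?_
    refine jn 52 (by decide +kernel) ?_
    refine jn 62 (by decide +kernel) ?_
    refine jn 65 (by decide +kernel) ?_
    refine jn 68 (by decide +kernel) ?_
    refine jn 71 (by decide +kernel) ?_
    refine jn 76 (by decide +kernel) ?_
    refine jn 81 (by decide +kernel) ?_
    refine jn 85 (by decide +kernel) ?_
    refine jn 98 (by decide +kernel) ?_
    refine jn 119 (by decide +kernel) ?_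
    refine jn 132 (by decide +kernel) ?_
    refine jn 149 (by decide +kernel) ?_
    refine jn 156 (by decide +kernel) ?_
    refine jn 157 (by decide +kernel) ?_
    refine jn 158 (by decide +kernel) ?_
    refine jn 159 (by decide +kernel) ?_
    refine jn 160 (by decide +kernel) ?_
    refine jn 161 (by decide +kernel) ?_
    refine jn 162 (by decide +kernel) ?_
    refine jn 163 (by decide +kernel) ?_
    refine jn 164 (by decide +kernel) ?_
    refine jn 165 (by decide +kernel) ?_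
    refine jn 166 (by decide +kernel) ?_
    refine jn 167 (by decide +kernel) ?_
    refine jn 168 (by decide +kernel) ?_
    refine jn 169 (by decide +kernel) ?_
    refine jn 170 (by decide +kernel) ?_
    refine jn 171 (by decide +kernel) ?_
    refine jn 172 (by decide +kernel) ?_
    refine jn 176 (by decide +kernel) ?_
    refine jn 184 (by decide +kernel) ?_
    refine jn 188 (by decide +kernel) ?_
    refine jn 193 (by decide +kernel) ?_
    refine jn 203 (by decide +kernel) ?_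
    refine jn 207 (by decide +kernel) ?_
    refine jn 209 (by decide +kernel) ?_
    refine jn 211 (by decide +kernel) ?_
    refine jn 213 (by decide +kernel) ?_
    refine jn 221 (by decide +kernel) ?_
    refine jn 223 (by decide +kernel) ?_
    refine jn 224 (by decide +kernel) ?_
    refine jn 225 (by decide +kernel) ?_
    refine jn 226 (by decide +kernel) ?_
    refine jn 227 (by decide +kernel) ?_
    refine jn 228 (by decide +kernel) ?_
    refine jn 229 (by decide +kernel) ?_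
    refine jn 230 (by decide +kernel) ?_
    refine jn 231 (by decide +kernel) ?_
    refine jn 232 (by decide +kernel) ?_
    refine jn 238 (by decide +kernel) ?_
    refine jn 250 (by decide +kernel) ?_
    refine jn 253 (by decide +kernel) ?_
    refine jn 257 (by decide +kernel) ?_
    refine jn 263 (by decide +kernel) ?_
    refine jn 272 (by decide +kernel) ?_
    refine jn 284 (by decide +kernel) ?_
    refine jn 289 (by decide +kernel) ?_
    refine jn 297 (by decide +kernel) ?_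
    refine jn 307 (by decide +kernel) ?_
    refine jn 310 (by decide +kernel) ?_
    refine jn 311 (by decide +kernel) ?_
    refine jn 312 (by decide +kernel) ?_
    refine jn 313 (by decide +kernel) ?_
    refine jn 314 (by decide +kernel) ?_
    refine jn 317 (by decide +kernel) ?_
    refine jn 318 (by decide +kernel) ?_
    refine jn 319 (by decide +kernel) ?_
    refine jn 320 (by decide +kernel) ?_
    refine jn 322 (by decide +kernel) ?_
    refine jn 323 (by decide +kernel) ?_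
    refine jn 326 (by decide +kernel) ?_
    refine jn 328 (by decide +kernel) ?_
    refine jn 341 (by decide +kernel) ?_
    refine jn 347 (by decide +kernel) ?_
    refine jn 354 (by decide +kernel) ?_
    refine jn 367 (by decide +kernel) ?_
    refine jn 372 (by decide +kernel) ?_
    refine jn 381 (by decide +kernel) ?_
    refine jn 385 (by decide +kernel) ?_
    refine jn 386 (by decide +kernel) ?_
    refine jn 387 (by decide +kernel) ?_
    refine jn 388 (by decide +kernel) ?_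
    refine jn 389 (by decide +kernel) ?_
    refine jn 391 (by decide +kernel) ?_
    refine jn 397 (by decide +kernel) ?_
    refine jn 400 (by decide +kernel) ?_
    refine jn 421 (by decide +kernel) ?_
    refine jn 431 (by decide +kernel) ?_
    refine jn 437 (by decide +kernel) ?_
    refine jn 447 (by decide +kernel) ?_
    refine jn 448 (by decide +kernel) ?_
    refine jn 449 (by decide +kernel) ?_
    refine jn 450 (by decide +kernel) ?_
    refine jn 455 (by decide +kernel) ?_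
    refine jn 457 (by decide +kernel) ?_
    refine jn 458 (by decide +kernel) ?_
    refine jn 464 (by decide +kernel) ?_
    refine jn 469 (by decide +kernel) ?_
    refine jn 475 (by decide +kernel) ?_
    refine jn 485 (by decide +kernel) ?_
    refine jn 487 (by decide +kernel) ?_
    refine jn 488 (by decide +kernel) ?_
    refine jn 492 (by decide +kernel) ?_
    refine jn 495 (by decide +kernel) ?_
    refine jn 501 (by decide +kernel) ?_
    refine jn 508 (by decide +kernel) ?_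
    refine jn 513 (by decide +kernel) ?_
    refine jn 524 (by decide +kernel) ?_
    refine jn 525 (by decide +kernel) ?_
    refine jn 526 (by decide +kernel) ?_
    refine jn 527 (by decide +kernel) ?_
    refine jn 530 (by decide +kernel) ?_
    refine jn 532 (by decide +kernel) ?_
    refine jn 533 (by decide +kernel) ?_
    refine jn 534 (by decide +kernel) ?_
    refine jn 544 (by decide +kernel) ?_
    refine jn 550 (by decide +kernel) ?_
    refine jn 560 (by decide +kernel) ?_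
    refine jn 567 (by decide +kernel) ?_
    refine jn 576 (by decide +kernel) ?_
    refine jn 579 (by decide +kernel) ?_
    refine jn 580 (by decide +kernel) ?_
    refine jn 583 (by decide +kernel) ?_
    refine jn 595 (by decide +kernel) ?_
    refine jn 602 (by decide +kernel) ?_
    refine jn 606 (by decide +kernel) ?_
    refine jn 609 (by decide +kernel) ?_
    refine jn 614 (by decide +kernel) ?_
    refine jn 629 (by decide +kernel) ?_
    refine jn 644 (by decide +kernel) ?_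
    refine jn 661 (by decide +kernel) ?_
    refine jn 676 (by decide +kernel) ?_
    refine jn 691 (by decide +kernel) ?_
    refine jn 706 (by decide +kernel) ?_
    refine jn 718 (by decide +kernel) ?_
    refine jn 721 (by decide +kernel) ?_
    refine jn 724 (by decide +kernel) ?_
    refine jn 737 (by decide +kernel) ?_
    refine jn 742 (by decide +kernel) ?_
    refine jn 743 (by decide +kernel) ?_
    refine jn 744 (by decide +kernel) ?_
    refine jn 745 (by decide +kernel) ?_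
    refine jn 750 (by decide +kernel) ?_
    refine jn 762 (by decide +kernel) ?_
    refine jn 765 (by decide +kernel) ?_
    refine jn 774 (by decide +kernel) ?_
    refine jn 775 (by decide +kernel) ?_
    refine jn 777 (by decide +kernel) ?_
    refine jn 778 (by decide +kernel) ?_
    refine jn 781 (by decide +kernel) ?_
    refine jn 782 (by decide +kernel) ?_
    refine jn 794 (by decide +kernel) ?_
    refine jn 808 (by decide +kernel) ?_
    refine jn 822 (by decide +kernel) ?_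
    refine jn 835 (by decide +kernel) ?_
    refine jn 846 (by decide +kernel) ?_
    refine jn 849 (by decide +kernel) ?_
    refine jn 863 (by decide +kernel) ?_
    refine jn 876 (by decide +kernel) ?_
    exact je (by decide +kernel)
  · refine fin 2520 14353 T108_1 ?_
    refine jn 9 (by decide +kernel) ?_
    refine jn 22 (by decide +kernel) ?_
    refine jn 32 (by decide +kernel) ?_
    refine jn 36 (by decide +kernel) ?_
    refine jn 49 (by decide +kernel) ?_
    refine jn 62 (by decide +kernel) ?_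
    refine jn 73 (by decide +kernel) ?_
    refine jn 87 (by decide +kernel) ?_
    refine jn 98 (by decide +kernel) ?_
    refine jn 101 (by decide +kernel) ?_
    refine jn 112 (by decide +kernel) ?_
    refine jn 125 (by decide +kernel) ?_
    refine jn 138 (by decide +kernel) ?_
    refine jn 149 (by decide +kernel) ?_
    refine jn 150 (by decide +kernel) ?_
    refine jn 154 (by decide +kernel) ?_
    refine jn 168 (by decide +kernel) ?_
    refine jn 174 (by decide +kernel) ?_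
    refine jn 184 (by decide +kernel) ?_
    refine jn 193 (by decide +kernel) ?_
    refine jn 203 (by decide +kernel) ?_
    refine jn 215 (by decide +kernel) ?_
    refine jn 227 (by decide +kernel) ?_
    refine jn 235 (by decide +kernel) ?_
    refine jn 244 (by decide +kernel) ?_
    refine jn 246 (by decide +kernel) ?_
    refine jn 263 (by decide +kernel) ?_
    refine jn 267 (by decide +kernel) ?_
    refine jn 277 (by decide +kernel) ?_
    refine jn 293 (by decide +kernel) ?_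
    refine jn 305 (by decide +kernel) ?_
    refine jn 313 (by decide +kernel) ?_
    refine jn 324 (by decide +kernel) ?_
    refine jn 334 (by decide +kernel) ?_
    refine jn 344 (by decide +kernel) ?_
    refine jn 354 (by decide +kernel) ?_
    refine jn 363 (by decide +kernel) ?_
    refine jn 375 (by decide +kernel) ?_
    refine jn 382 (by decide +kernel) ?_
    refine jn 386 (by decide +kernel) ?_
    refine jn 400 (by decide +kernel) ?_
    refine jn 410 (by decide +kernel) ?_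
    refine jn 420 (by decide +kernel) ?_
    refine jn 430 (by decide +kernel) ?_
    refine jn 440 (by decide +kernel) ?_
    refine jn 450 (by decide +kernel) ?_
    refine jn 461 (by decide +kernel) ?_
    refine jn 477 (by decide +kernel) ?_
    refine jn 487 (by decide +kernel) ?_
    refine jn 497 (by decide +kernel) ?_
    refine jn 507 (by decide +kernel) ?_
    refine jn 519 (by decide +kernel) ?_
    refine jn 529 (by decide +kernel) ?_
    refine jn 590 (by decide +kernel) ?_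
    refine jn 676 (by decide +kernel) ?_
    refine jn 714 (by decide +kernel) ?_
    refine jn 740 (by decide +kernel) ?_
    refine jn 744 (by decide +kernel) ?_
    refine jn 756 (by decide +kernel) ?_
    refine jn 766 (by decide +kernel) ?_
    refine jn 772 (by decide +kernel) ?_
    refine jn 775 (by decide +kernel) ?_
    refine jn 780 (by decide +kernel) ?_
    refine jn 791 (by decide +kernel) ?_
    refine jn 792 (by decide +kernel) ?_
    refine jn 798 (by decide +kernel) ?_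
    refine jn 802 (by decide +kernel) ?_
    refine jn 807 (by decide +kernel) ?_
    refine jn 812 (by decide +kernel) ?_
    refine jn 815 (by decide +kernel) ?_
    refine jn 823 (by decide +kernel) ?_
    refine jn 831 (by decide +kernel) ?_
    refine jn 832 (by decide +kernel) ?_
    refine jn 838 (by decide +kernel) ?_
    refine jn 842 (by decide +kernel) ?_
    refine jn 847 (by decide +kernel) ?_
    refine jn 850 (by decide +kernel) ?_
    refine jn 862 (by decide +kernel) ?_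
    refine jn 871 (by decide +kernel) ?_
    refine jn 878 (by decide +kernel) ?_
    refine jn 879 (by decide +kernel) ?_
    refine jn 880 (by decide +kernel) ?_
    refine jn 895 (by decide +kernel) ?_
    refine jn 903 (by decide +kernel) ?_
    refine jn 906 (by decide +kernel) ?_
    refine jn 912 (by decide +kernel) ?_
    refine jn 913 (by decide +kernel) ?_
    refine jn 919 (by decide +kernel) ?_
    refine jn 932 (by decide +kernel) ?_
    refine jn 942 (by decide +kernel) ?_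
    refine jn 951 (by decide +kernel) ?_
    refine jn 954 (by decide +kernel) ?_
    refine jn 967 (by decide +kernel) ?_
    refine jn 974 (by decide +kernel) ?_
    refine jn 978 (by decide +kernel) ?_
    refine jn 984 (by decide +kernel) ?_
    refine jn 990 (by decide +kernel) ?_
    refine jn 998 (by decide +kernel) ?_
    refine jn 1011 (by decide +kernel) ?_
    refine jn 1022 (by decide +kernel) ?_
    refine jn 1029 (by decide +kernel) ?_
    refine jn 1031 (by decide +kernel) ?_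
    refine jn 1046 (by decide +kernel) ?_
    refine jn 1051 (by decide +kernel) ?_
    refine jn 1057 (by decide +kernel) ?_
    refine jn 1065 (by decide +kernel) ?_
    refine jn 1070 (by decide +kernel) ?_
    refine jn 1086 (by decide +kernel) ?_
    refine jn 1089 (by decide +kernel) ?_
    refine jn 1095 (by decide +kernel) ?_
    refine jn 1102 (by decide +kernel) ?_
    refine jn 1115 (by decide +kernel) ?_
    refine jn 1123 (by decide +kernel) ?_
    refine jn 1133 (by decide +kernel) ?_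
    refine jn 1134 (by decide +kernel) ?_
    refine jn 1135 (by decide +kernel) ?_
    refine jn 1150 (by decide +kernel) ?_
    refine jn 1159 (by decide +kernel) ?_
    refine jn 1167 (by decide +kernel) ?_
    refine jn 1171 (by decide +kernel) ?_
    refine jn 1185 (by decide +kernel) ?_
    refine jn 1193 (by decide +kernel) ?_
    refine jn 1206 (by decide +kernel) ?_
    refine jn 1209 (by decide +kernel) ?_
    refine jn 1222 (by decide +kernel) ?_
    refine jn 1231 (by decide +kernel) ?_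
    refine jn 1237 (by decide +kernel) ?_
    refine jn 1245 (by decide +kernel) ?_
    refine jn 1319 (by decide +kernel) ?_
    refine jn 1460 (by decide +kernel) ?_
    refine jn 1467 (by decide +kernel) ?_
    refine jn 1488 (by decide +kernel) ?_
    refine jn 1501 (by decide +kernel) ?_
    refine jn 1509 (by decide +kernel) ?_
    refine jn 1510 (by decide +kernel) ?_
    refine jn 1512 (by decide +kernel) ?_
    refine jn 1513 (by decide +kernel) ?_
    refine jn 1520 (by decide +kernel) ?_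
    refine jn 1521 (by decide +kernel) ?_
    refine jn 1529 (by decide +kernel) ?_
    refine jn 1541 (by decide +kernel) ?_
    refine jn 1547 (by decide +kernel) ?_
    refine jn 1555 (by decide +kernel) ?_
    refine jn 1560 (by decide +kernel) ?_
    refine jn 1561 (by decide +kernel) ?_
    refine jn 1587 (by decide +kernel) ?_
    refine jn 1605 (by decide +kernel) ?_
    refine jn 1608 (by decide +kernel) ?_
    refine jn 1611 (by decide +kernel) ?_
    refine jn 1616 (by decide +kernel) ?_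
    refine jn 1625 (by decide +kernel) ?_
    refine jn 1640 (by decide +kernel) ?_
    refine jn 1653 (by decide +kernel) ?_
    refine jn 1663 (by decide +kernel) ?_
    refine jn 1669 (by decide +kernel) ?_
    refine jn 1680 (by decide +kernel) ?_
    refine jn 1699 (by decide +kernel) ?_
    refine jn 1714 (by decide +kernel) ?_
    refine jn 1722 (by decide +kernel) ?_
    refine jn 1724 (by decide +kernel) ?_
    refine jn 1725 (by decide +kernel) ?_
    refine jn 1728 (by decide +kernel) ?_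
    refine jn 1733 (by decide +kernel) ?_
    refine jn 1734 (by decide +kernel) ?_
    refine jn 1741 (by decide +kernel) ?_
    refine jn 1746 (by decide +kernel) ?_
    refine jn 1756 (by decide +kernel) ?_
    refine jn 1765 (by decide +kernel) ?_
    refine jn 1770 (by decide +kernel) ?_
    refine jn 1773 (by decide +kernel) ?_
    refine jn 1789 (by decide +kernel) ?_
    refine jn 1800 (by decide +kernel) ?_
    refine jn 1808 (by decide +kernel) ?_
    refine jn 1821 (by decide +kernel) ?_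
    refine jn 1824 (by decide +kernel) ?_
    refine jn 1829 (by decide +kernel) ?_
    refine jn 1837 (by decide +kernel) ?_
    refine jn 1842 (by decide +kernel) ?_
    refine jn 1854 (by decide +kernel) ?_
    refine jn 1870 (by decide +kernel) ?_
    refine jn 1877 (by decide +kernel) ?_
    refine jn 1891 (by decide +kernel) ?_
    refine jn 1921 (by decide +kernel) ?_
    refine jn 1946 (by decide +kernel) ?_
    refine jn 1969 (by decide +kernel) ?_
    refine jn 2010 (by decide +kernel) ?_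
    refine jn 2035 (by decide +kernel) ?_
    refine jn 2057 (by decide +kernel) ?_
    refine jn 2090 (by decide +kernel) ?_
    refine jn 2114 (by decide +kernel) ?_
    refine jn 2147 (by decide +kernel) ?_
    refine jn 2179 (by decide +kernel) ?_
    refine jn 2210 (by decide +kernel) ?_
    refine jn 2220 (by decide +kernel) ?_
    refine jn 2238 (by decide +kernel) ?_
    refine jn 2250 (by decide +kernel) ?_
    refine jn 2277 (by decide +kernel) ?_
    refine jn 2309 (by decide +kernel) ?_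
    refine jn 2318 (by decide +kernel) ?_
    refine jn 2341 (by decide +kernel) ?_
    refine jn 2349 (by decide +kernel) ?_
    refine jn 2360 (by decide +kernel) ?_
    refine jn 2388 (by decide +kernel) ?_
    refine jn 2402 (by decide +kernel) ?_
    refine jn 2414 (by decide +kernel) ?_
    refine jn 2437 (by decide +kernel) ?_
    refine jn 2461 (by decide +kernel) ?_
    refine jn 2484 (by decide +kernel) ?_
    refine jn 2627 (by decide +kernel) ?_
    refine jn 2667 (by decide +kernel) ?_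
    refine jn 2699 (by decide +kernel) ?_
    refine jn 2733 (by decide +kernel) ?_
    refine jn 2759 (by decide +kernel) ?_
    refine jn 2785 (by decide +kernel) ?_
    refine jn 2817 (by decide +kernel) ?_
    refine jn 2855 (by decide +kernel) ?_
    refine jn 2886 (by decide +kernel) ?_
    refine jn 2915 (by decide +kernel) ?_
    refine jn 2951 (by decide +kernel) ?_
    refine jn 3011 (by decide +kernel) ?_
    refine jn 3037 (by decide +kernel) ?_
    refine jn 3063 (by decide +kernel) ?_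
    refine jn 3088 (by decide +kernel) ?_
    refine jn 3106 (by decide +kernel) ?_
    refine jn 3127 (by decide +kernel) ?_
    refine jn 3140 (by decide +kernel) ?_
    refine jn 3166 (by decide +kernel) ?_
    refine jn 3184 (by decide +kernel) ?_
    refine jn 3202 (by decide +kernel) ?_
    refine jn 3223 (by decide +kernel) ?_
    refine jn 3238 (by decide +kernel) ?_
    refine jn 3271 (by decide +kernel) ?_
    refine jn 3295 (by decide +kernel) ?_
    refine jn 3311 (by decide +kernel) ?_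
    refine jn 3324 (by decide +kernel) ?_
    refine jn 3344 (by decide +kernel) ?_
    refine jn 3378 (by decide +kernel) ?_
    refine jn 3416 (by decide +kernel) ?_
    refine jn 3447 (by decide +kernel) ?_
    refine jn 3463 (by decide +kernel) ?_
    refine jn 3484 (by decide +kernel) ?_
    refine jn 3651 (by decide +kernel) ?_
    refine jn 3683 (by decide +kernel) ?_
    refine jn 3723 (by decide +kernel) ?_
    refine jn 3753 (by decide +kernel) ?_
    refine jn 3803 (by decide +kernel) ?_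
    refine jn 3854 (by decide +kernel) ?_
    refine jn 3896 (by decide +kernel) ?_
    refine jn 3920 (by decide +kernel) ?_
    refine jn 3965 (by decide +kernel) ?_
    refine jn 4000 (by decide +kernel) ?_
    refine jn 4033 (by decide +kernel) ?_
    refine jn 4087 (by decide +kernel) ?_
    refine jn 4149 (by decide +kernel) ?_
    refine jn 4169 (by decide +kernel) ?_
    refine jn 4211 (by decide +kernel) ?_
    refine jn 4381 (by decide +kernel) ?_
    refine jn 4425 (by decide +kernel) ?_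
    refine jn 4472 (by decide +kernel) ?_
    refine jn 4515 (by decide +kernel) ?_
    refine jn 4568 (by decide +kernel) ?_
    refine jn 4597 (by decide +kernel) ?_
    refine jn 4643 (by decide +kernel) ?_
    refine jn 4681 (by decide +kernel) ?_
    refine jn 4733 (by decide +kernel) ?_
    refine jn 4779 (by decide +kernel) ?_
    refine jn 4843 (by decide +kernel) ?_
    refine jn 4880 (by decide +kernel) ?_
    refine jn 4925 (by decide +kernel) ?_
    refine jn 4976 (by decide +kernel) ?_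
    refine jn 5009 (by decide +kernel) ?_
    refine jn 5063 (by decide +kernel) ?_
    refine jn 5125 (by decide +kernel) ?_
    refine jn 5163 (by decide +kernel) ?_
    refine jn 5197 (by decide +kernel) ?_
    refine jn 5384 (by decide +kernel) ?_
    refine jn 5448 (by decide +kernel) ?_
    refine jn 5507 (by decide +kernel) ?_
    refine jn 5560 (by decide +kernel) ?_
    refine jn 5629 (by decide +kernel) ?_
    refine jn 5680 (by decide +kernel) ?_
    refine jn 5744 (by decide +kernel) ?_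
    refine jn 5808 (by decide +kernel) ?_
    refine jn 5861 (by decide +kernel) ?_
    refine jn 5925 (by decide +kernel) ?_
    refine jn 5981 (by decide +kernel) ?_
    refine jn 6048 (by decide +kernel) ?_
    refine jn 6112 (by decide +kernel) ?_
    refine jn 6176 (by decide +kernel) ?_
    refine jn 6239 (by decide +kernel) ?_
    refine jn 6296 (by decide +kernel) ?_
    refine jn 6365 (by decide +kernel) ?_
    refine jn 6425 (by decide +kernel) ?_
    refine jn 6487 (by decide +kernel) ?_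
    refine jn 6557 (by decide +kernel) ?_
    refine jn 6751 (by decide +kernel) ?_
    refine jn 6829 (by decide +kernel) ?_
    refine jn 6880 (by decide +kernel) ?_
    refine jn 6935 (by decide +kernel) ?_
    refine jn 7008 (by decide +kernel) ?_
    refine jn 7073 (by decide +kernel) ?_
    refine jn 7139 (by decide +kernel) ?_
    refine jn 7211 (by decide +kernel) ?_
    refine jn 7279 (by decide +kernel) ?_
    refine jn 7351 (by decide +kernel) ?_
    refine jn 7413 (by decide +kernel) ?_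
    refine jn 7489 (by decide +kernel) ?_
    refine jn 7563 (by decide +kernel) ?_
    refine jn 7629 (by decide +kernel) ?_
    refine jn 7707 (by decide +kernel) ?_
    refine jn 7773 (by decide +kernel) ?_
    refine jn 7841 (by decide +kernel) ?_
    refine jn 7933 (by decide +kernel) ?_
    refine jn 8000 (by decide +kernel) ?_
    refine jn 8072 (by decide +kernel) ?_
    refine jn 8123 (by decide +kernel) ?_
    refine jn 8216 (by decide +kernel) ?_
    refine jn 8277 (by decide +kernel) ?_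
    refine jn 8360 (by decide +kernel) ?_
    refine jn 8613 (by decide +kernel) ?_
    refine jn 8795 (by decide +kernel) ?_
    refine jn 8952 (by decide +kernel) ?_
    refine jn 9078 (by decide +kernel) ?_
    refine jn 9179 (by decide +kernel) ?_
    refine jn 9249 (by decide +kernel) ?_
    refine jn 9317 (by decide +kernel) ?_
    refine jn 9402 (by decide +kernel) ?_
    refine jn 9459 (by decide +kernel) ?_
    refine jn 9517 (by decide +kernel) ?_
    refine jn 9573 (by decide +kernel) ?_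
    refine jn 9640 (by decide +kernel) ?_
    refine jn 9693 (by decide +kernel) ?_
    refine jn 9951 (by decide +kernel) ?_
    refine jn 10083 (by decide +kernel) ?_
    refine jn 10165 (by decide +kernel) ?_
    refine jn 10261 (by decide +kernel) ?_
    refine jn 10327 (by decide +kernel) ?_
    refine jn 10399 (by decide +kernel) ?_
    refine jn 10448 (by decide +kernel) ?_
    refine jn 10501 (by decide +kernel) ?_
    refine jn 10555 (by decide +kernel) ?_
    refine jn 10611 (by decide +kernel) ?_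
    refine jn 10660 (by decide +kernel) ?_
    refine jn 10717 (by decide +kernel) ?_
    refine jn 10768 (by decide +kernel) ?_
    refine jn 10817 (by decide +kernel) ?_
    refine jn 10861 (by decide +kernel) ?_
    refine jn 10892 (by decide +kernel) ?_
    refine jn 10937 (by decide +kernel) ?_
    refine jn 10974 (by decide +kernel) ?_
    refine jn 11201 (by decide +kernel) ?_
    refine jn 11310 (by decide +kernel) ?_
    refine jn 11451 (by decide +kernel) ?_
    refine jn 11537 (by decide +kernel) ?_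
    refine jn 11630 (by decide +kernel) ?_
    refine jn 11745 (by decide +kernel) ?_
    refine jn 11839 (by decide +kernel) ?_
    refine jn 11901 (by decide +kernel) ?_
    refine jn 11979 (by decide +kernel) ?_
    refine jn 12045 (by decide +kernel) ?_
    refine jn 12093 (by decide +kernel) ?_
    refine jn 12159 (by decide +kernel) ?_
    refine jn 12215 (by decide +kernel) ?_
    refine jn 12265 (by decide +kernel) ?_
    refine jn 12574 (by decide +kernel) ?_
    refine jn 12718 (by decide +kernel) ?_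
    refine jn 12810 (by decide +kernel) ?_
    refine jn 12957 (by decide +kernel) ?_
    refine jn 13044 (by decide +kernel) ?_
    refine jn 13120 (by decide +kernel) ?_
    refine jn 13205 (by decide +kernel) ?_
    refine jn 13321 (by decide +kernel) ?_
    refine jn 13678 (by decide +kernel) ?_
    refine jn 13853 (by decide +kernel) ?_
    refine jn 13930 (by decide +kernel) ?_
    refine jn 14032 (by decide +kernel) ?_
    refine jn 14214 (by decide +kernel) ?_
    refine jn 14333 (by decide +kernel) ?_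
    exact je (by decide +kernel)
  · refine fin 3192 14821 T108_2 ?_
    refine jn 9 (by decide +kernel) ?_
    refine jn 15 (by decide +kernel) ?_
    refine jn 20 (by decide +kernel) ?_
    refine jn 25 (by decide +kernel) ?_
    refine jn 30 (by decide +kernel) ?_
    refine jn 36 (by decide +kernel) ?_
    refine jn 46 (by decide +kernel) ?_
    refine jn 59 (by decide +kernel) ?_
    refine jn 70 (by decide +kernel) ?_
    refine jn 96 (by decide +kernel) ?_
    refine jn 112 (by decide +kernel) ?_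
    refine jn 130 (by decide +kernel) ?_
    refine jn 150 (by decide +kernel) ?_
    refine jn 187 (by decide +kernel) ?_
    refine jn 202 (by decide +kernel) ?_
    refine jn 212 (by decide +kernel) ?_
    refine jn 229 (by decide +kernel) ?_
    refine jn 251 (by decide +kernel) ?_
    refine jn 282 (by decide +kernel) ?_
    refine jn 291 (by decide +kernel) ?_
    refine jn 292 (by decide +kernel) ?_
    refine jn 293 (by decide +kernel) ?_
    refine jn 294 (by decide +kernel) ?_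
    refine jn 295 (by decide +kernel) ?_
    refine jn 298 (by decide +kernel) ?_
    refine jn 300 (by decide +kernel) ?_
    refine jn 301 (by decide +kernel) ?_
    refine jn 302 (by decide +kernel) ?_
    refine jn 303 (by decide +kernel) ?_
    refine jn 304 (by decide +kernel) ?_
    refine jn 305 (by decide +kernel) ?_
    refine jn 306 (by decide +kernel) ?_
    refine jn 307 (by decide +kernel) ?_
    refine jn 308 (by decide +kernel) ?_
    refine jn 309 (by decide +kernel) ?_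
    refine jn 310 (by decide +kernel) ?_
    refine jn 311 (by decide +kernel) ?_
    refine jn 318 (by decide +kernel) ?_
    refine jn 330 (by decide +kernel) ?_
    refine jn 341 (by decide +kernel) ?_
    refine jn 359 (by decide +kernel) ?_
    refine jn 374 (by decide +kernel) ?_
    refine jn 392 (by decide +kernel) ?_
    refine jn 410 (by decide +kernel) ?_
    refine jn 426 (by decide +kernel) ?_
    refine jn 438 (by decide +kernel) ?_
    refine jn 443 (by decide +kernel) ?_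
    refine jn 449 (by decide +kernel) ?_
    refine jn 467 (by decide +kernel) ?_
    refine jn 481 (by decide +kernel) ?_
    refine jn 486 (by decide +kernel) ?_
    refine jn 492 (by decide +kernel) ?_
    refine jn 500 (by decide +kernel) ?_
    refine jn 501 (by decide +kernel) ?_
    refine jn 502 (by decide +kernel) ?_
    refine jn 503 (by decide +kernel) ?_
    refine jn 516 (by decide +kernel) ?_
    refine jn 527 (by decide +kernel) ?_
    refine jn 542 (by decide +kernel) ?_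
    refine jn 557 (by decide +kernel) ?_
    refine jn 572 (by decide +kernel) ?_
    refine jn 590 (by decide +kernel) ?_
    refine jn 605 (by decide +kernel) ?_
    refine jn 617 (by decide +kernel) ?_
    refine jn 629 (by decide +kernel) ?_
    refine jn 644 (by decide +kernel) ?_
    refine jn 659 (by decide +kernel) ?_
    refine jn 671 (by decide +kernel) ?_
    refine jn 689 (by decide +kernel) ?_
    refine jn 701 (by decide +kernel) ?_
    refine jn 712 (by decide +kernel) ?_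
    refine jn 729 (by decide +kernel) ?_
    refine jn 738 (by decide +kernel) ?_
    refine jn 754 (by decide +kernel) ?_
    refine jn 771 (by decide +kernel) ?_
    refine jn 839 (by decide +kernel) ?_
    refine jn 1045 (by decide +kernel) ?_
    refine jn 1057 (by decide +kernel) ?_
    refine jn 1085 (by decide +kernel) ?_
    refine jn 1121 (by decide +kernel) ?_
    refine jn 1145 (by decide +kernel) ?_
    refine jn 1192 (by decide +kernel) ?_
    refine jn 1240 (by decide +kernel) ?_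
    refine jn 1265 (by decide +kernel) ?_
    refine jn 1285 (by decide +kernel) ?_
    refine jn 1300 (by decide +kernel) ?_
    refine jn 1307 (by decide +kernel) ?_
    refine jn 1316 (by decide +kernel) ?_
    refine jn 1340 (by decide +kernel) ?_
    refine jn 1367 (by decide +kernel) ?_
    refine jn 1384 (by decide +kernel) ?_
    refine jn 1400 (by decide +kernel) ?_
    refine jn 1436 (by decide +kernel) ?_
    refine jn 1457 (by decide +kernel) ?_
    refine jn 1495 (by decide +kernel) ?_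
    refine jn 1505 (by decide +kernel) ?_
    refine jn 1525 (by decide +kernel) ?_
    refine jn 1540 (by decide +kernel) ?_
    refine jn 1547 (by decide +kernel) ?_
    refine jn 1581 (by decide +kernel) ?_
    refine jn 1596 (by decide +kernel) ?_
    refine jn 1617 (by decide +kernel) ?_
    refine jn 1654 (by decide +kernel) ?_
    refine jn 1686 (by decide +kernel) ?_
    refine jn 1702 (by decide +kernel) ?_
    refine jn 1744 (by decide +kernel) ?_
    refine jn 1797 (by decide +kernel) ?_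
    refine jn 1810 (by decide +kernel) ?_
    refine jn 1842 (by decide +kernel) ?_
    refine jn 1873 (by decide +kernel) ?_
    refine jn 1909 (by decide +kernel) ?_
    refine jn 1935 (by decide +kernel) ?_
    refine jn 2009 (by decide +kernel) ?_
    refine jn 2149 (by decide +kernel) ?_
    refine jn 2286 (by decide +kernel) ?_
    refine jn 2388 (by decide +kernel) ?_
    refine jn 2473 (by decide +kernel) ?_
    refine jn 2577 (by decide +kernel) ?_
    refine jn 2629 (by decide +kernel) ?_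
    refine jn 2669 (by decide +kernel) ?_
    refine jn 2761 (by decide +kernel) ?_
    refine jn 2797 (by decide +kernel) ?_
    refine jn 2849 (by decide +kernel) ?_
    refine jn 2921 (by decide +kernel) ?_
    refine jn 2996 (by decide +kernel) ?_
    refine jn 3127 (by decide +kernel) ?_
    refine jn 3292 (by decide +kernel) ?_
    refine jn 3445 (by decide +kernel) ?_
    refine jn 3614 (by decide +kernel) ?_
    refine jn 3790 (by decide +kernel) ?_
    refine jn 3955 (by decide +kernel) ?_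
    refine jn 4115 (by decide +kernel) ?_
    refine jn 4292 (by decide +kernel) ?_
    refine jn 4466 (by decide +kernel) ?_
    refine jn 4791 (by decide +kernel) ?_
    refine jn 5025 (by decide +kernel) ?_
    refine jn 5203 (by decide +kernel) ?_
    refine jn 5440 (by decide +kernel) ?_
    refine jn 5683 (by decide +kernel) ?_
    refine jn 6016 (by decide +kernel) ?_
    refine jn 6269 (by decide +kernel) ?_
    refine jn 6549 (by decide +kernel) ?_
    refine jn 6806 (by decide +kernel) ?_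
    refine jn 7104 (by decide +kernel) ?_
    refine jn 7349 (by decide +kernel) ?_
    refine jn 7636 (by decide +kernel) ?_
    refine jn 8088 (by decide +kernel) ?_
    refine jn 8461 (by decide +kernel) ?_
    refine jn 8802 (by decide +kernel) ?_
    refine jn 9155 (by decide +kernel) ?_
    refine jn 9538 (by decide +kernel) ?_
    refine jn 9928 (by decide +kernel) ?_
    refine jn 10174 (by decide +kernel) ?_
    refine jn 10621 (by decide +kernel) ?_
    refine jn 10815 (by decide +kernel) ?_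
    refine jn 10954 (by decide +kernel) ?_
    refine jn 11067 (by decide +kernel) ?_
    refine jn 11153 (by decide +kernel) ?_
    refine jn 11239 (by decide +kernel) ?_
    refine jn 11313 (by decide +kernel) ?_
    refine jn 11380 (by decide +kernel) ?_
    refine jn 11440 (by decide +kernel) ?_
    refine jn 11809 (by decide +kernel) ?_
    refine jn 12115 (by decide +kernel) ?_
    refine jn 12316 (by decide +kernel) ?_
    refine jn 12472 (by decide +kernel) ?_
    refine jn 12605 (by decide +kernel) ?_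
    refine jn 12711 (by decide +kernel) ?_
    refine jn 13149 (by decide +kernel) ?_
    refine jn 13495 (by decide +kernel) ?_
    refine jn 13736 (by decide +kernel) ?_
    refine jn 14339 (by decide +kernel) ?_
    refine jn 14680 (by decide +kernel) ?_
    exact je (by decide +kernel)

end Pool.Agent.MP_2339ce_nt.NR
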