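import Pool.Agent.MP_2339ce_nt.Q2.NC.L8
import Pool.Agent.MP_2339ce_nt.Q2.NC.L9
import Pool.Agent.MP_2339ce_nt.Q2.CkI

/-! Block NR: runs. -/

set_option autoImplicit false
set_option maxRecDepth 100000

noncomputable section

namespace Pool.Agent.MP_2339ce_nt.NR

open Q2.Top

def T121_0 : Ph :=
  (.na 508 6 (.na 289 3 (.na 1 2 .ne (.nx 288 3329023 (.nr 287 623489 (.nx 4 213 (.nx 3 212 (.nr 2
  28 (.lg 0 false 1 41 41 5 0 7632) (.l1 .sk)) (.l1 .sk)) (.nx 75 41287 (.nr 59 220437 (.lg 0 false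
  55 103 109 13 0 38198160) (.nx 74 324 (.lg 0 false 15 79 79 9 0 38160) .out)) (.nr 286 155873
  (.nx 270 2097153 (.nx 254 1048577 (.nr 110 1025 (.lg 0 true 35 97 97 13 0 267120) (.nx 253 832257
  (.nx 201 131073 (.nx 165 82572 (.lg 1 false 55 101 109 13 84957 38198160) (.nr 200 131073 (.lg 1
  true 35 101 109 13 35730 38198160) .out)) (.nr 252 110219 (.nr 216 3446 (.lg 2 true 15 97 101 9
  86068 267120) (.nx 251 524289 (.lg 2 false 35 103 109 13 18934 38198160) .out)) .out)) .out))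
  (.nr 269 129 (.lg 0 true 15 83 83 9 0 38160) .out)) (.nr 285 9 (.lg 0 true 15 71 71 9 0 38160)
  .out)) .out))) .out) .out)) (.na 290 4 .ne (.na 507 5 (.nx 506 16777217 (.nr 505 1246976 (.nx 293
  213 (.nx 292 212 (.nr 291 50 (.lg 0 true 1 37 37 9 0 38160) (.l1 .sk)) (.l1 .sk)) (.nx 339 32107
  (.nr 315 155873 (.lg 0 false 22 103 109 13 0 38198160) (.nx 326 324 (.lg 0 false 11 83 83 13 0
  83952) (.nx 327 16384 .out (.nr 338 185365 (.lg 0 false 11 101 107 13 0 38198160) .out)))) (.nr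
  504 220437 (.nx 441 524289 (.nr 357 2909 (.nr 350 729 (.lg 0 true 11 89 89 13 0 83952) (.lg 2
  true 7 97 97 11 76235 267120)) (.nx 414 165142 (.nx 402 131073 (.nx 391 92682 (.nx 380 65536 (.nr
  379 185365 (.nx 368 45871 (.lg 1 false 11 103 109 13 129890 38198160) (.lg 1 false 11 103 109 13
  90915 38198160)) .out) (.lg 1 false 11 107 109 13 75661 38198160)) (.lg 1 false 11 107 109 13
  53500 38198160)) (.nr 413 155873 (.lg 1 true 11 103 109 13 26761 38198160) .out)) (.nr 440 131073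
  (.nx 425 208065 (.lg 1 true 11 103 109 13 17865 38198160) (.nr 439 55110 (.nr 432 11603 (.lg 2
  true 7 97 101 11 19105 3472560) (.lg 2 false 7 101 103 11 5976 3472560)) .out)) .out))) (.nr 503
  183 (.nx 452 2097153 (.lg 0 true 11 89 89 13 0 83952) (.nr 502 21 (.nx 474 8388609 (.lg 0 true 22
  79 79 11 0 83952) (.lg 0 true 28 83 83 11 0 53424)) .out)) .out)) .out))) .out) .out) .ne))) (.na
  656 12 (.na 655 7 (.nx 654 16777217 (.nr 653 1048577 (.nx 511 213 (.nx 510 212 (.nr 509 71 (.lg 0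
  false 1 31 31 7 0 38160) (.l1 .sk)) (.l1 .sk)) (.nr 645 370729 (.nx 597 660563 (.nx 533 41285
  (.nr 525 155873 (.lg 0 false 14 103 107 19 0 3472560) (.nx 532 2049 (.lg 0 false 7 97 97 13 0
  267120) .out)) (.nr 596 220437 (.nr 551 8201 (.nr 544 1026 (.lg 0 true 11 89 89 17 0 419760) (.lg
  2 true 7 97 101 13 68246 267120)) (.nx 588 208065 (.nx 559 52015 (.nr 558 185365 (.lg 1 false 7
  101 103 13 101014 3472560) .out) (.nx 580 165142 (.nx 566 76448 (.lg 1 false 7 103 107 13 95328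
  3472560) (.nx 573 112360 (.lg 1 false 7 103 107 13 64861 3472560) (.lg 1 true 7 103 107 13 44130
  3472560))) (.nr 587 185365 (.lg 1 true 7 101 103 13 25253 3472560) .out))) (.nr 595 77937 (.lg 2
  false 7 97 101 13 8538 267120) .out))) .out)) (.nr 644 257 (.nr 632 44 (.lg 0 true 35 83 83 13 0
  267120) (.nx 643 2097153 (.lg 0 true 11 83 83 17 0 83952) .out)) .out)) (.nx 652 324 (.lg 0 false
  7 79 79 13 0 53424) .out))) .out) .out) .ne) (.na 725 16 (.nx 724 2097153 (.nr 723 1048577 (.nx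
  659 213 (.nx 658 212 (.nr 657 165 (.lg 0 false 1 37 37 13 0 7632) (.l1 .sk)) (.l1 .sk)) (.nx 660
  257 (.l1 (.ls 89 41 1726)) (.nr 722 623489 (.nx 674 32768 (.nr 665 155873 (.lg 0 false 5 107 109
  19 0 38198160) (.nx 673 8193 (.nx 670 1292 (.lg 0 false 5 89 97 19 0 38160) (.nx 671 5160 .out
  (.nr 672 185365 (.lg 0 false 1 89 89 13 0 7632) .out))) .out)) (.nr 721 185365 (.nx 715 660563
  (.nr 682 8915 (.nr 681 4585 (.nr 679 1212 (.lg 0 true 5 89 89 19 0 38160) (.lg 2 true 2 97 97 13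
  57773 53424)) (.lg 2 false 1 89 89 13 15272 7632)) (.nx 687 48160 (.lg 1 false 5 103 109 19
  127269 38198160) (.nx 709 208065 (.nx 692 70783 (.lg 1 false 5 103 109 19 86594 38198160) (.nx
  697 104033 (.lg 1 false 5 103 109 19 58917 38198160) (.nr 708 155873 (.nx 702 165142 (.lg 1 true
  5 103 109 19 33716 38198160) (.nr 707 131073 (.lg 1 true 5 101 107 19 17865 38198160) .out))
  .out))) (.nr 714 65537 (.lg 2 false 5 89 101 19 7855 267120) .out)))) (.nr 720 65 (.lg 0 true 5
  73 73 19 0 38160) .out)) .out)) .out))) .out) .out) (.na 726 18 .ne (.nx 773 2097153 (.nr 772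
  1048577 (.nr 727 11 .s1 (.nx 729 212 (.nr 728 237 (.lg 0 true 1 23 23 13 0 7632) (.l1 .sk)) (.nx
  730 213 (.l1 .sk) (.nx 731 324 (.l1 (.ls 79 43 3314)) (.nr 771 623489 (.nx 748 43077 (.nr 736
  185365 (.lg 0 false 5 97 101 19 0 38160) (.nx 747 10323 (.nr 741 262145 (.lg 0 false 5 83 83 19 0
  38160) (.nx 746 2049 (.lg 0 false 5 79 79 19 0 38160) .out)) .out)) (.nr 770 155873 (.nx 764
  416129 (.nr 753 2200 (.lg 0 true 5 79 79 19 0 38160) (.nx 758 82572 (.lg 1 false 5 89 97 19 81426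
  38160) (.nr 763 131073 (.lg 2 false 5 97 101 19 35730 38160) .out))) (.nr 769 257 (.lg 0 true 5
  73 73 19 0 38160) .out)) .out)) .out))))) .out) .out)))))

def T121_1 : Ph :=
  (.na 796 116 (.na 504 47 (.na 311 29 (.na 145 17 (.na 55 11 (.na 1 10 .ne (.nx 54 1664512 (.nr 53
  623489 (.nx 45 524289 (.nx 3 151 (.nr 2 95 (.lg 0 false 1 29 29 11 0 240) (.l1 .sk)) (.nx 4 152
  (.l1 .sk) (.nx 21 26007 (.nr 11 110219 (.lg 0 false 7 89 97 13 0 1680) (.nx 20 2582 (.nx 18 1292
  (.lg 0 false 7 83 83 13 0 1680) (.nr 19 131073 (.lg 0 true 1 73 73 11 0 240) .out)) .out)) (.nr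
  44 131073 (.nr 28 1621 (.lg 0 true 7 83 83 13 0 1680) (.nx 43 416129 (.nx 35 65537 (.lg 1 false 7
  101 103 13 57525 720720) (.nr 42 110219 (.lg 2 false 7 97 101 13 19382 240240) .out)) .out))
  .out)))) (.nr 52 65 (.lg 0 true 7 67 67 13 0 1680) .out)) .out) .out)) (.na 106 12 (.nx 105
  1664512 (.nr 104 623489 (.nx 57 151 (.nr 56 104 (.lg 0 true 1 29 29 9 0 2640) (.l1 .sk)) (.nx 58
  152 (.l1 .sk) (.nr 96 131073 (.nx 88 524289 (.nx 65 26007 (.lg 0 false 7 97 97 16 0 18480) (.nr
  72 1621 (.lg 0 true 7 79 79 16 0 1848) (.nx 87 416129 (.nx 79 65537 (.lg 1 false 7 97 101 16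
  57525 55440) (.nr 86 110219 (.lg 2 false 7 89 97 16 19382 18480) .out)) .out))) (.nr 95 65 (.lg 0
  true 7 67 67 16 0 1848) .out)) (.nx 103 1292 (.lg 0 false 7 83 83 16 0 18480) .out)))) .out)
  .out) (.na 107 16 .ne (.nx 144 1664512 (.nr 143 1048577 (.nr 108 11 .s1 (.nx 139 524289 (.nx 124
  19485 (.nx 112 257 (.nx 110 151 (.nr 109 148 (.lg 0 false 1 29 29 11 0 240) (.l1 .sk)) (.nx 111
  152 (.l1 .sk) (.l1 (.ls 83 41 2687)))) (.nr 123 623489 (.nr 119 220437 (.lg 0 false 7 83 97 19 0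
  1680) (.nx 122 1627 (.lg 0 false 3 83 89 13 0 720) .out)) .out)) (.nr 138 110219 (.nr 127 829
  (.lg 0 true 3 79 79 13 0 144) (.nx 137 416129 (.nr 128 3171 (.lg 2 false 1 79 79 11 37899 240)
  (.nx 134 82572 (.nx 131 43741 (.lg 1 false 3 101 103 13 64579 720720) (.lg 1 true 3 89 97 13
  28767 720)) (.nr 136 77937 (.lg 2 false 2 89 89 13 10782 240) .out))) .out)) .out)) (.nr 142 129
  (.lg 0 true 3 71 71 13 0 144) .out))) .out) .out)))) (.na 249 22 (.na 181 19 (.nx 180 1664512
  (.nr 179 1048577 (.nr 146 12 .s1 (.nx 149 152 (.nx 148 151 (.nr 147 165 (.lg 0 true 1 23 23 11 0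
  240) (.l1 .sk)) (.l1 .sk)) (.nx 163 23171 (.nx 150 257 (.l1 (.ls 79 37 2529)) (.nr 162 623489
  (.nr 157 220437 (.lg 0 false 7 89 97 16 0 1680) (.nx 161 1627 (.lg 0 false 4 73 73 16 0 48)
  .out)) .out)) (.nr 178 92683 (.nr 170 634 (.lg 0 true 7 73 73 16 0 168) (.nx 177 262145 (.lg 2
  false 7 89 97 16 45677 1680) .out)) .out)))) .out) .out) (.na 214 20 (.nx 213 1664512 (.nr 212
  1048577 (.nr 182 15 .s1 (.nx 186 257 (.nx 184 151 (.nr 183 174 (.lg 0 true 1 29 29 11 0 2640)
  (.l1 .sk)) (.nx 185 152 (.l1 .sk) (.l1 (.ls 79 31 2263)))) (.nr 211 623489 (.nr 206 220437 (.nx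
  193 23171 (.lg 0 false 7 97 97 16 0 18480) (.nr 205 92683 (.nr 200 634 (.lg 0 true 7 73 73 16 0
  168) (.nx 204 262145 (.lg 2 false 4 97 101 16 45677 18480) .out)) .out)) (.nx 210 1627 (.lg 0
  false 4 79 79 16 0 48) .out)) .out))) .out) .out) (.nx 248 1664512 (.nr 247 1048577 (.nr 215 16
  .s1 (.nx 218 152 (.nx 217 151 (.nr 216 192 (.lg 0 false 1 29 29 13 0 240) (.l1 .sk)) (.l1 .sk))
  (.nx 219 257 (.l1 (.ls 83 41 2150)) (.nr 246 623489 (.nr 242 220437 (.nr 238 92683 (.nx 222 23171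
  (.lg 0 false 3 89 89 19 0 720) (.nx 234 262145 (.nr 225 1854 (.lg 0 true 3 79 79 19 0 720) (.nx
  228 41287 (.lg 1 false 3 83 89 19 45677 720) (.nr 233 77937 (.nr 230 46342 (.lg 2 false 2 83 89
  17 12839 1680) (.nx 232 165142 (.lg 2 false 2 83 89 17 21563 1680) .out)) .out))) (.nr 237 217
  (.lg 0 true 3 73 73 19 0 720) .out))) (.nx 241 13005 (.lg 0 false 3 97 101 19 0 55440) .out))
  (.nx 245 1627 (.lg 0 false 3 83 83 19 0 720) .out)) .out)))) .out) .out))) (.na 282 23 (.nx 281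
  1664512 (.nr 280 1048577 (.nr 250 19 .s1 (.nx 253 152 (.nx 252 151 (.nr 251 200 (.lg 0 true 1 23
  23 9 0 7920) (.l1 .sk)) (.l1 .sk)) (.nx 266 23171 (.nx 254 257 (.l1 (.ls 79 41 1955)) (.nr 265
  623489 (.nr 261 220437 (.lg 0 false 7 89 97 19 0 55440) (.nx 264 1627 (.lg 0 false 3 79 79 13 0
  1584) .out)) .out)) (.nr 279 92683 (.nr 273 634 (.lg 0 true 7 73 73 19 0 3696) (.nx 278 262145
  (.lg 2 false 5 89 97 19 45677 18480) .out)) .out)))) .out) .out) (.na 283 25 .ne (.nx 310 1664512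
  (.nr 309 1048577 (.nr 284 22 .s1 (.nx 288 257 (.nx 286 151 (.nr 285 253 (.lg 0 false 1 23 23 16 0
  2640) (.l1 .sk)) (.nx 287 152 (.l1 .sk) (.l1 (.ls 73 31 1720)))) (.nr 308 311745 (.nx 295 20644
  (.lg 0 false 7 83 89 16 0 18480) (.nr 307 77937 (.nr 302 513 (.lg 0 true 7 71 71 16 0 840) (.nx
  306 165142 (.lg 2 false 4 83 83 16 43125 2640) .out)) .out)) .out))) .out) .out))))) (.na 407 37
  (.na 361 32 (.na 333 31 (.nx 332 1664512 (.nr 331 1048577 (.nr 312 27 .s1 (.nx 316 257 (.nx 314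
  151 (.nr 313 270 (.lg 0 false 1 19 19 13 0 240) (.l1 .sk)) (.nx 315 152 (.l1 .sk) (.l1 (.ls 73 23
  1483)))) (.nr 330 311745 (.nx 320 20644 (.lg 0 false 4 89 89 16 0 240) (.nr 329 77937 (.nr 324
  513 (.lg 0 true 4 71 71 16 0 48) (.nx 328 165142 (.lg 2 false 4 89 89 16 43125 1680) .out))
  .out)) .out))) .out) .out) (.nx 360 1664512 (.nr 359 1048577 (.nr 334 29 .s1 (.nx 346 20644 (.nx
  336 151 (.nr 335 279 (.lg 0 true 1 19 19 13 0 720) (.l1 .sk)) (.nx 337 152 (.l1 .sk) (.nx 338 257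
  (.l1 (.ls 73 29 1388)) (.nr 345 311745 (.lg 0 false 7 89 97 16 0 5040) .out)))) (.nr 358 77937
  (.nr 353 513 (.lg 0 true 7 71 71 16 0 168) (.nx 357 165142 (.lg 2 false 4 83 89 16 43125 240)
  .out)) .out))) .out) .out)) (.na 385 33 (.nx 384 1664512 (.nr 383 1048577 (.nr 362 30 .s1 (.nx
  366 257 (.nx 364 151 (.nr 363 287 (.l1 (.ls 23 31 715)) (.l1 .sk)) (.nx 365 152 (.l1 .sk) (.l1
  (.ls 79 37 1345)))) (.nr 382 440873 (.nr 378 110219 (.nx 369 41287 (.lg 0 false 3 89 89 19 0 720)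
  (.nr 377 65537 (.nx 373 208065 (.nr 370 1307 (.lg 0 false 1 73 73 13 0 48) (.nx 372 165142 (.lg 2
  false 2 83 83 13 18139 240) .out)) (.nr 376 217 (.lg 0 true 3 67 67 19 0 144) .out)) .out)) (.nx
  381 10323 (.lg 0 false 3 89 97 19 0 7920) .out)) .out))) .out) .out) (.na 386 34 .ne (.nx 406
  1664512 (.nr 405 881745 (.nr 387 32 .s1 (.nx 388 257 (.l1 (.ls 79 41 1945)) (.nr 404 440873 (.nx
  395 20644 (.lg 0 false 7 89 97 23 0 1680) (.nr 403 46342 (.nr 400 322 (.lg 0 true 5 71 71 13 0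
  240) (.nx 402 104033 (.lg 2 true 2 83 83 13 25677 48) .out)) .out)) .out))) .out) .out)))) (.na
  466 43 (.na 424 38 (.nx 423 1664512 (.nr 422 881745 (.nr 408 35 .s1 (.nx 414 20644 (.nx 409 257
  (.l1 (.ls 73 29 1788)) (.nr 413 440873 (.lg 0 false 4 89 89 16 0 240) .out)) (.nr 421 46342 (.nr
  418 331 (.lg 0 true 4 67 67 16 0 48) (.nx 420 104033 (.lg 2 false 2 79 79 16 25677 48) .out))
  .out))) .out) .out) (.na 445 40 (.nx 444 1664512 (.nr 443 881745 (.nr 425 36 .s1 (.nx 426 257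
  (.l1 (.ls 73 41 1741)) (.nr 442 440873 (.nx 433 20644 (.lg 0 false 7 83 89 17 0 1680) (.nr 441
  46342 (.nr 438 348 (.lg 0 true 5 67 67 17 0 240) (.nx 440 104033 (.lg 2 true 2 79 79 13 25677
  240) .out)) .out)) .out))) .out) .out) (.nx 465 1664512 (.nr 464 881745 (.nr 446 39 .s1 (.nx 461
  104033 (.nx 448 151 (.nr 447 375 (.l1 (.ls 31 31 573)) (.l1 .sk)) (.nx 449 152 (.l1 .sk) (.nx 454
  10323 (.nx 450 257 (.l1 (.ls 83 37 1076)) (.nr 453 440873 (.lg 0 false 3 83 89 29 0 720) .out))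
  (.nr 460 110219 (.nx 455 20644 (.lg 0 false 1 89 89 19 0 720) (.nr 459 46342 (.nr 456 2241 (.lg 0
  true 1 73 73 19 0 240) (.nx 457 26009 (.lg 1 false 1 79 79 19 25677 720) (.nr 458 32769 (.lg 2
  false 1 79 83 19 14431 240) .out))) .out)) .out)))) (.nr 463 257 (.lg 0 true 2 73 73 23 0 240)
  .out))) .out) .out))) (.na 483 44 (.nx 482 1664512 (.nr 481 881745 (.nr 467 42 .s1 (.nx 468 257
  (.l1 (.ls 73 29 1539)) (.nr 480 440873 (.nx 472 20644 (.lg 0 false 4 89 89 16 0 240) (.nr 479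
  46342 (.nr 476 257 (.lg 0 true 4 61 61 16 0 48) (.nx 478 104033 (.lg 2 false 2 79 79 16 30563 48)
  .out)) .out)) .out))) .out) .out) (.na 503 46 (.nx 502 1664512 (.nr 501 881745 (.nr 484 43 .s1
  (.nx 487 152 (.nx 486 151 (.nr 485 401 (.l1 (.ls 29 31 521)) (.l1 .sk)) (.l1 .sk)) (.nx 492 10323
  (.nx 488 257 (.l1 (.ls 79 37 979)) (.nr 491 440873 (.lg 0 false 3 89 89 23 0 7920) .out)) (.nr
  500 110219 (.nx 494 26009 (.lg 0 false 2 83 89 23 0 2640) (.nr 499 32769 (.nr 497 401 (.lg 0 true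
  3 73 73 23 0 1584) (.nx 498 104033 (.lg 2 true 1 83 83 19 19588 2640) .out)) .out)) .out))))
  .out) .out) .ne))))) (.na 655 80 (.na 581 62 (.na 536 55 (.na 521 50 (.nx 520 1664512 (.nr 519
  881745 (.nr 505 46 .s1 (.nx 511 20644 (.nx 506 257 (.l1 (.ls 73 29 1408)) (.nr 510 623489 (.lg 0
  false 4 89 89 16 0 48) .out)) (.nr 518 46342 (.nr 515 436 (.lg 0 true 4 67 67 16 0 48) (.nx 517
  104033 (.lg 2 false 2 79 79 16 25677 48) .out)) .out))) .out) .out) (.nx 535 1664512 (.nr 534
  881745 (.nr 522 49 .s1 (.nx 527 20644 (.nx 523 257 (.l1 (.ls 73 41 1323)) (.nr 526 623489 (.lg 0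
  false 3 89 89 19 0 720) .out)) (.nr 533 46342 (.nr 530 257 (.lg 0 true 3 61 61 19 0 720) (.nx 532
  104033 (.lg 2 false 2 73 73 19 30563 240) .out)) .out))) .out) .out)) (.na 552 58 (.nx 551
  1664512 (.nr 550 881745 (.nr 537 54 .s1 (.nx 538 257 (.l1 (.ls 79 31 1203)) (.nr 549 623489 (.nx
  541 13005 (.lg 0 false 3 89 97 19 0 7920) (.nr 548 110219 (.nr 546 32769 (.nr 544 257 (.lg 0 true
  3 67 67 19 0 3960) (.nx 545 104033 (.lg 2 true 1 79 79 17 30563 1320) .out)) (.nx 547 26009 (.lg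
  0 false 1 83 83 17 0 2640) .out)) .out)) .out))) .out) .out) (.na 566 59 (.nx 565 1664512 (.nr
  564 881745 (.nr 553 57 .s1 (.nx 558 20644 (.nx 554 257 (.l1 (.ls 73 41 1141)) (.nr 557 623489
  (.lg 0 false 3 89 89 19 0 144) .out)) (.nr 563 46342 (.nr 560 257 (.lg 0 true 2 61 61 13 0 48)
  (.nx 562 104033 (.lg 2 false 2 73 73 13 30563 48) .out)) .out))) .out) .out) (.nx 580 1664512
  (.nr 579 881745 (.nr 567 58 .s1 (.nx 573 20644 (.nx 568 257 (.l1 (.ls 71 23 1122)) (.nr 572
  623489 (.lg 0 false 4 89 89 16 0 720) .out)) (.nr 578 46342 (.nr 575 257 (.lg 0 true 2 61 61 16 0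
  48) (.nx 577 104033 (.lg 2 false 2 73 73 16 30563 48) .out)) .out))) .out) .out)))) (.na 611 68
  (.na 595 64 (.nx 594 1664512 (.nr 593 881745 (.nr 582 61 .s1 (.nx 587 20644 (.nx 583 257 (.l1
  (.ls 73 37 1068)) (.nr 586 623489 (.lg 0 false 3 89 89 19 0 144) .out)) (.nr 592 46342 (.nr 590
  557 (.lg 0 true 3 67 67 19 0 144) (.nx 591 104033 (.lg 2 true 1 79 79 13 25677 48) .out)) .out)))
  .out) .out) (.na 610 65 (.nx 609 1664512 (.nr 608 881745 (.nr 596 63 .s1 (.nx 603 26009 (.nx 601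
  13005 (.nx 597 257 (.l1 (.ls 73 31 1035)) (.nr 600 623489 (.lg 0 false 3 83 89 23 0 720) .out))
  (.nr 602 110219 (.lg 0 false 1 79 79 17 0 240) .out)) (.nr 607 32769 (.nr 605 513 (.lg 0 true 2
  67 67 19 0 48) (.nx 606 104033 (.lg 2 false 1 71 71 17 15311 48) .out)) .out))) .out) .out) .ne))
  (.na 626 74 (.nx 625 1664512 (.nr 624 524289 (.nr 612 67 .s1 (.nx 618 20644 (.nx 614 151 (.nr 613
  644 (.l1 (.ls 16 31 338)) (.l1 .sk)) (.nx 615 152 (.l1 .sk) (.lg 0 false 3 89 97 29 0 720))) (.nr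
  623 32769 (.nr 621 513 (.lg 0 true 3 71 71 29 0 144) (.nx 622 104033 (.lg 2 false 1 73 73 13
  18181 48) .out)) .out))) .out) .out) (.na 641 76 (.nx 640 1664512 (.nr 639 524289 (.nr 627 73 .s1
  (.nx 629 151 (.nr 628 662 (.l1 (.ls 17 29 311)) (.l1 .sk)) (.nx 630 152 (.l1 .sk) (.nx 633 20644
  (.lg 0 false 3 83 83 19 0 144) (.nr 638 32769 (.nr 636 513 (.lg 0 true 3 67 67 19 0 144) (.nx 637
  104033 (.lg 2 true 1 71 71 13 18181 48) .out)) .out))))) .out) .out) (.nx 654 1664512 (.nr 653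
  524289 (.nr 642 76 .s1 (.nx 645 152 (.nx 644 151 (.nr 643 697 (.l1 (.ls 17 31 303)) (.l1 .sk))
  (.l1 .sk)) (.nx 648 20644 (.lg 0 false 3 83 83 29 0 144) (.nr 652 32769 (.nx 649 104033 (.lg 0
  false 1 83 83 17 0 48) (.nr 651 513 (.lg 0 true 2 71 71 23 0 48) .out)) .out)))) .out) .out)))))
  (.na 710 94 (.na 682 86 (.na 668 85 (.nx 667 1664512 (.nr 666 524289 (.nr 656 80 .s1 (.nx 658 151
  (.nr 657 740 (.l1 (.ls 31 29 288)) (.l1 .sk)) (.nx 659 152 (.l1 .sk) (.nr 664 65537 (.nx 660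
  20644 (.lg 0 false 1 79 79 23 0 240) (.nr 663 32769 (.nr 661 513 (.lg 0 true 1 71 71 23 0 240)
  (.nx 662 104033 (.lg 1 true 1 79 83 23 18181 240) .out)) .out)) (.nx 665 13005 (.lg 0 false 1 89
  97 23 0 2640) .out))))) .out) .out) (.nx 681 1664512 (.nr 680 524289 (.nr 669 85 .s1 (.nx 675
  20644 (.nx 671 151 (.nr 670 749 (.l1 (.ls 16 23 271)) (.l1 .sk)) (.nx 672 152 (.l1 .sk) (.lg 0
  false 3 89 97 23 0 7920))) (.nr 679 32769 (.nr 677 513 (.lg 0 true 2 71 71 16 0 240) (.nx 678
  104033 (.lg 2 false 1 73 73 16 18181 120) .out)) .out))) .out) .out)) (.na 696 88 (.nx 695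
  1664512 (.nr 694 524289 (.nr 683 86 .s1 (.nx 685 151 (.nr 684 766 (.l1 (.ls 17 23 268)) (.l1
  .sk)) (.nx 686 152 (.l1 .sk) (.nx 689 20644 (.lg 0 false 3 83 83 19 0 720) (.nr 693 32769 (.nr
  691 513 (.lg 0 true 2 61 61 19 0 48) (.nx 692 104033 (.lg 2 true 1 71 71 13 18181 240) .out))
  .out))))) .out) .out) (.na 709 91 (.nx 708 1664512 (.nr 707 524289 (.nr 697 88 .s1 (.nx 700 152
  (.nx 699 151 (.nr 698 792 (.l1 (.ls 31 29 262)) (.l1 .sk)) (.l1 .sk)) (.nx 703 20644 (.nr 701
  65537 (.lg 0 false 1 83 83 29 0 2640) (.nx 702 13005 (.lg 0 false 1 89 97 29 0 2640) .out)) (.nr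
  706 32769 (.nr 704 513 (.lg 0 true 1 71 71 29 0 528) (.nx 705 104033 (.lg 1 true 1 83 83 29 18181
  2640) .out)) .out)))) .out) .out) .ne))) (.na 754 100 (.na 725 95 (.nx 724 1664512 (.nr 723
  1048577 (.nr 711 94 .s1 (.nx 717 20644 (.nx 713 151 (.nr 712 827 (.l1 (.ls 17 23 245)) (.l1 .sk))
  (.nx 714 152 (.l1 .sk) (.lg 0 false 3 83 83 19 0 144))) (.nr 722 32769 (.nr 720 827 (.lg 0 true 3
  67 67 19 0 144) (.nx 721 104033 (.lg 2 true 1 71 71 17 18181 240) .out)) .out))) .out) .out) (.na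
  739 97 (.nx 738 1664512 (.nr 737 1048577 (.nr 726 95 .s1 (.nx 728 151 (.nr 727 845 (.l1 (.ls 17
  17 243)) (.l1 .sk)) (.nx 729 152 (.l1 .sk) (.nx 734 104033 (.nx 732 13005 (.lg 0 false 3 83 89 17
  0 720) (.nr 733 65537 (.lg 0 false 1 89 89 17 0 720) .out)) (.nr 736 513 (.lg 0 true 2 67 67 17 0
  240) .out))))) .out) .out) (.nx 753 1664512 (.nr 752 1048577 (.nr 740 97 .s1 (.nx 747 20644 (.nx
  742 151 (.nr 741 871 (.l1 (.ls 16 17 238)) (.l1 .sk)) (.nx 743 152 (.l1 .sk) (.lg 0 false 4 79 79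
  17 0 240))) (.nr 751 32769 (.nr 749 513 (.lg 0 true 2 59 59 16 0 48) (.nx 750 104033 (.lg 2 true
  1 61 61 16 18181 24) .out)) .out))) .out) .out))) (.na 768 103 (.nx 767 1664512 (.nr 766 1048577
  (.nr 755 100 .s1 (.nx 763 104033 (.nx 757 151 (.nr 756 897 (.l1 (.ls 23 29 231)) (.l1 .sk)) (.nx
  758 152 (.l1 .sk) (.nx 761 13005 (.lg 0 false 3 83 83 29 0 720) (.nr 762 65537 (.lg 0 true 1 83
  83 23 0 240) .out)))) (.nr 765 513 (.lg 0 true 2 67 67 29 0 240) .out))) .out) .out) (.na 782 110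
  (.nx 781 1664512 (.nr 780 1048577 (.nr 769 103 .s1 (.nx 775 20644 (.nx 771 151 (.nr 770 958 (.l1
  (.ls 16 17 224)) (.l1 .sk)) (.nx 772 152 (.l1 .sk) (.lg 0 false 3 79 79 16 0 72))) (.nr 779 32769
  (.nr 777 513 (.lg 0 true 2 59 59 16 0 48) (.nx 778 104033 (.lg 2 true 1 61 61 16 18181 24) .out))
  .out))) .out) .out) (.nx 795 1664512 (.nr 794 1048577 (.nr 783 110 .s1 (.nx 785 151 (.nr 784 1010
  (.l1 (.ls 29 31 210)) (.l1 .sk)) (.nx 786 152 (.l1 .sk) (.nx 789 13005 (.lg 0 false 3 83 89 31 0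
  7920) (.nr 793 65537 (.nx 790 104033 (.lg 0 false 1 83 83 29 0 2640) (.nr 792 513 (.lg 0 true 2
  67 67 31 0 2640) .out)) .out))))) .out) .out))))))) (.na 1002 170 (.na 914 139 (.na 863 127 (.na
  824 121 (.na 810 118 (.nx 809 1664512 (.nr 808 1048577 (.nr 797 116 .s1 (.nx 805 104033 (.nx 799
  151 (.nr 798 1027 (.l1 (.ls 19 23 199)) (.l1 .sk)) (.nx 800 152 (.l1 .sk) (.nx 803 13005 (.lg 0
  false 3 83 83 23 0 720) (.nr 804 65537 (.lg 0 false 1 83 83 19 0 240) .out)))) (.nr 807 513 (.lg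
  0 true 2 67 67 23 0 48) .out))) .out) .out) (.nx 823 1664512 (.nr 822 1048577 (.nr 811 118 .s1
  (.nx 814 152 (.nx 813 151 (.nr 812 1054 (.l1 (.ls 17 23 196)) (.l1 .sk)) (.l1 .sk)) (.nx 817
  20644 (.lg 0 false 3 83 83 23 0 144) (.nr 821 32769 (.nr 819 513 (.lg 0 true 2 59 59 19 0 48)
  (.nx 820 104033 (.lg 2 true 1 67 67 19 18181 48) .out)) .out)))) .out) .out)) (.na 837 124 (.nx
  836 1664512 (.nr 835 1048577 (.nr 825 121 .s1 (.nx 828 152 (.nx 827 151 (.nr 826 1080 (.l1 (.ls
  17 19 191)) (.l1 .sk)) (.l1 .sk)) (.nx 831 20644 (.lg 0 false 3 79 79 19 0 792) (.nr 834 32769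
  (.nr 832 513 (.lg 0 false 1 71 71 17 0 7920) (.nx 833 104033 (.lg 2 true 1 61 61 17 18181 264)
  .out)) .out)))) .out) .out) (.na 850 125 (.nx 849 1664512 (.nr 848 1048577 (.nr 838 124 .s1 (.nx
  846 104033 (.nx 840 151 (.nr 839 1088 (.l1 (.ls 23 23 186)) (.l1 .sk)) (.nx 841 152 (.l1 .sk)
  (.nx 844 13005 (.lg 0 false 3 83 89 29 0 7920) (.nr 845 65537 (.lg 0 false 1 89 89 19 0 2640)
  .out)))) (.nr 847 513 (.lg 0 true 1 67 67 19 0 48) .out))) .out) .out) (.nx 862 1664512 (.nr 861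
  1048577 (.nr 851 125 .s1 (.nx 854 152 (.nx 853 151 (.nr 852 1106 (.l1 (.ls 17 19 185)) (.l1 .sk))
  (.l1 .sk)) (.nx 857 20644 (.lg 0 false 3 79 79 17 0 360) (.nr 860 32769 (.nr 858 513 (.lg 0 false
  1 61 61 16 0 120) (.nx 859 104033 (.lg 2 true 1 61 61 16 18181 120) .out)) .out)))) .out)
  .out)))) (.na 891 131 (.na 876 128 (.nx 875 1664512 (.nr 874 1048577 (.nr 864 127 .s1 (.nx 870
  20644 (.nx 866 151 (.nr 865 1114 (.l1 (.ls 16 17 182)) (.l1 .sk)) (.nx 867 152 (.l1 .sk) (.lg 0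
  false 3 73 73 17 0 72))) (.nr 873 32769 (.nr 871 513 (.lg 0 false 1 61 61 16 0 24) (.nx 872
  104033 (.lg 2 true 1 59 59 16 18181 24) .out)) .out))) .out) .out) (.na 890 129 (.nx 889 1664512
  (.nr 888 1048577 (.nr 877 128 .s1 (.nx 880 152 (.nx 879 151 (.nr 878 1123 (.l1 (.ls 19 23 181))
  (.l1 .sk)) (.l1 .sk)) (.nx 885 104033 (.nx 883 13005 (.lg 0 false 3 79 83 29 0 720) (.nr 884
  65537 (.lg 0 true 1 79 79 19 0 48) .out)) (.nr 887 1025 (.lg 0 true 2 67 67 23 0 48) .out))))
  .out) .out) .ne)) (.na 892 136 (.lg 0 false 1 0 0 16 0 24) (.na 902 137 (.nx 901 832257 (.nr 900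
  1048577 (.nr 893 136 .s1 (.nx 896 13005 (.nx 894 257 (.l1 (.ls 73 31 488)) (.nr 895 741457 (.lg 0
  false 1 89 89 29 0 240) .out)) (.nr 899 16385 (.nx 897 104033 (.lg 0 true 1 79 79 29 0 240) (.nr
  898 1025 (.lg 0 true 1 71 71 29 0 48) .out)) .out))) .out) .out) (.nx 913 832257 (.nr 912 1048577
  (.nr 903 137 .s1 (.nx 908 13005 (.nx 904 257 (.l1 (.ls 59 19 485)) (.nr 907 741457 (.lg 0 false 3
  71 71 17 0 72) .out)) (.nr 911 16385 (.nr 909 1025 (.lg 0 false 1 59 59 16 0 24) (.nx 910 104033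
  (.lg 2 true 1 47 47 16 14497 24) .out)) .out))) .out) .out))))) (.na 960 152 (.na 937 148 (.na
  926 145 (.nx 925 832257 (.nr 924 1048577 (.nr 915 139 .s1 (.nx 916 257 (.l1 (.ls 83 19 478)) (.nr
  923 741457 (.nr 919 16385 (.lg 0 true 3 73 73 17 0 72) (.nx 922 13005 (.lg 0 false 3 71 71 17 0
  72) .out)) .out))) .out) .out) (.nx 936 832257 (.nr 935 1048577 (.nr 927 145 .s1 (.nx 931 13005
  (.nx 928 257 (.l1 (.ls 71 23 458)) (.nr 930 741457 (.lg 0 false 2 79 83 19 0 240) .out)) (.nr 934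
  16385 (.nr 932 1025 (.lg 0 true 1 67 67 17 0 120) (.nx 933 104033 (.lg 2 false 1 61 61 17 14497
  120) .out)) .out))) .out) .out)) (.na 948 149 (.nx 947 832257 (.nr 946 1048577 (.nr 938 148 .s1
  (.nx 942 13005 (.nx 939 257 (.l1 (.ls 73 29 449)) (.nr 941 741457 (.lg 0 false 2 83 83 23 0 48)
  .out)) (.nr 945 16385 (.nr 943 1025 (.lg 0 true 1 67 67 23 0 48) (.nx 944 104033 (.lg 2 true 1 61
  61 23 14497 48) .out)) .out))) .out) .out) (.na 949 151 (.lg 0 false 1 0 0 16 0 24) (.nx 959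
  832257 (.nr 958 1048577 (.nr 950 151 .s1 (.nx 951 257 (.l1 (.ls 71 19 440)) (.nr 957 741457 (.nr
  954 16385 (.lg 0 false 3 67 67 16 0 72) (.nx 956 13005 (.lg 0 true 2 71 71 16 0 2640) .out))
  .out))) .out) .out)))) (.na 981 160 (.na 970 155 (.nx 969 832257 (.nr 968 1048577 (.nr 961 152
  .s1 (.nx 964 13005 (.nx 962 257 (.l1 (.ls 73 31 437)) (.nr 963 741457 (.lg 0 false 1 89 89 29 0
  240) .out)) (.nr 967 16385 (.nx 965 104033 (.lg 0 true 1 79 79 29 0 240) (.nr 966 1025 (.lg 0
  true 1 71 71 29 0 48) .out)) .out))) .out) .out) (.na 980 157 (.nx 979 832257 (.nr 978 1048577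
  (.nr 971 155 .s1 (.nx 974 13005 (.nx 972 257 (.l1 (.ls 71 23 429)) (.nr 973 741457 (.lg 0 false 1
  83 83 17 0 120) .out)) (.nr 977 16385 (.nr 975 1025 (.lg 0 true 1 67 67 17 0 120) (.nx 976 104033
  (.lg 2 true 1 61 61 17 14497 120) .out)) .out))) .out) .out) (.lg 0 false 1 0 0 16 0 24))) (.na
  991 163 (.nx 990 832257 (.nr 989 1048577 (.nr 982 160 .s1 (.nx 983 257 (.l1 (.ls 73 31 415)) (.nr
  988 741457 (.nx 986 104033 (.nx 984 13005 (.lg 0 false 1 83 83 29 0 240) (.nr 985 16385 (.lg 0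
  true 1 73 73 29 0 240) .out)) (.nr 987 1025 (.lg 0 true 1 71 71 29 0 240) .out)) .out))) .out)
  .out) (.na 992 167 (.lg 0 false 1 0 0 16 0 24) (.nx 1001 832257 (.nr 1000 1048577 (.nr 993 167
  .s1 (.nx 994 257 (.l1 (.ls 79 19 398)) (.nr 999 741457 (.nr 997 16385 (.lg 0 true 3 71 71 17 0
  72) (.nx 998 13005 (.lg 0 true 1 73 73 16 0 24) .out)) .out))) .out) .out)))))) (.na 1083 191
  (.na 1041 181 (.na 1022 173 (.na 1012 172 (.nx 1011 832257 (.nr 1010 1048577 (.nr 1003 170 .s1
  (.nx 1006 13005 (.nx 1004 257 (.l1 (.ls 71 37 391)) (.nr 1005 741457 (.lg 0 false 1 79 79 31 0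
  240) .out)) (.nr 1009 16385 (.nr 1007 1025 (.lg 0 true 1 61 61 31 0 240) (.nx 1008 104033 (.lg 2
  false 1 61 61 31 14497 240) .out)) .out))) .out) .out) (.nx 1021 832257 (.nr 1020 1048577 (.nr
  1013 172 .s1 (.nx 1016 13005 (.nx 1014 257 (.l1 (.ls 71 29 387)) (.nr 1015 741457 (.lg 0 false 1
  79 79 23 0 48) .out)) (.nr 1019 16385 (.nr 1017 1025 (.lg 0 true 1 61 61 23 0 48) (.nx 1018
  104033 (.lg 2 false 1 59 59 23 14497 48) .out)) .out))) .out) .out)) (.na 1030 176 (.nx 1029
  832257 (.nr 1028 1048577 (.nr 1023 173 .s1 (.nx 1024 257 (.l1 (.ls 61 19 384)) (.nr 1027 741457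
  (.nr 1025 16385 (.lg 0 false 1 73 73 16 0 24) (.nx 1026 13005 (.lg 0 true 1 73 73 16 0 24) .out))
  .out))) .out) .out) (.na 1040 179 (.nx 1039 832257 (.nr 1038 1048577 (.nr 1031 176 .s1 (.nx 1036
  104033 (.nx 1032 257 (.l1 (.ls 73 31 378)) (.nr 1035 741457 (.nx 1033 13005 (.lg 0 false 1 89 89
  31 0 7920) (.nr 1034 16385 (.lg 0 true 1 79 79 31 0 7920) .out)) .out)) (.nr 1037 1025 (.lg 0
  true 1 71 71 31 0 528) .out))) .out) .out) (.lg 0 false 1 0 0 16 0 24)))) (.na 1053 187 (.na 1042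
  182 (.lg 0 false 1 0 0 16 0 24) (.na 1043 185 .ne (.nx 1052 832257 (.nr 1051 1048577 (.nr 1044
  185 .s1 (.nx 1047 13005 (.nx 1045 257 (.l1 (.ls 71 23 360)) (.nr 1046 741457 (.lg 0 false 1 79 79
  19 0 120) .out)) (.nr 1050 16385 (.nr 1048 1025 (.lg 0 true 1 61 61 19 0 120) (.nx 1049 104033
  (.lg 2 true 1 59 59 19 14497 120) .out)) .out))) .out) .out))) (.na 1063 188 (.nx 1062 832257
  (.nr 1061 1048577 (.nr 1054 187 .s1 (.nx 1057 13005 (.nx 1055 257 (.l1 (.ls 71 29 356)) (.nr 1056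
  741457 (.lg 0 false 1 79 79 23 0 264) .out)) (.nr 1060 16385 (.nr 1058 1025 (.lg 0 true 1 61 61
  23 0 264) (.nx 1059 104033 (.lg 2 true 1 59 59 23 14497 264) .out)) .out))) .out) .out) (.na 1073
  190 (.nx 1072 832257 (.nr 1071 1048577 (.nr 1064 188 .s1 (.nx 1065 257 (.l1 (.ls 71 29 354)) (.nr
  1070 741457 (.nx 1066 13005 (.lg 0 false 1 79 79 23 0 48) (.nr 1069 16385 (.nr 1067 1025 (.lg 0
  true 1 61 61 23 0 48) (.nx 1068 104033 (.lg 2 false 1 59 59 23 14497 48) .out)) .out)) .out)))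
  .out) .out) (.nx 1082 832257 (.nr 1081 1048577 (.nr 1074 190 .s1 (.nx 1077 13005 (.nx 1075 257
  (.l1 (.ls 73 37 350)) (.nr 1076 741457 (.lg 0 false 1 83 83 31 0 240) .out)) (.nr 1080 16385 (.nr
  1078 1025 (.lg 0 true 1 67 67 31 0 240) (.nx 1079 104033 (.lg 2 false 1 61 61 31 14497 240)
  .out)) .out))) .out) .out))))) (.na 1109 200 (.na 1099 194 (.na 1091 193 (.nx 1090 832257 (.nr
  1089 1048577 (.nr 1084 191 .s1 (.nx 1085 257 (.l1 (.ls 73 19 348)) (.nr 1088 741457 (.nr 1086
  16385 (.lg 0 false 1 73 73 16 0 240) (.nx 1087 13005 (.lg 0 true 1 71 71 16 0 24) .out)) .out)))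
  .out) .out) (.nx 1098 832257 (.nr 1097 1048577 (.nr 1092 193 .s1 (.nx 1093 257 (.l1 (.ls 73 19
  345)) (.nr 1096 741457 (.nr 1094 16385 (.lg 0 false 1 73 73 16 0 24) (.nx 1095 13005 (.lg 0 true
  1 71 71 16 0 24) .out)) .out))) .out) .out)) (.na 1107 197 (.nx 1106 832257 (.nr 1105 1048577
  (.nr 1100 194 .s1 (.nx 1101 257 (.l1 (.ls 67 29 343)) (.nr 1104 741457 (.nr 1102 16385 (.lg 0
  false 1 73 73 19 0 48) (.nx 1103 13005 (.lg 0 true 1 73 73 19 0 720) .out)) .out))) .out) .out)
  (.na 1108 199 (.lg 0 false 1 0 0 16 0 24) (.lg 0 false 1 0 0 16 0 24)))) (.na 1137 211 (.na 1119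
  206 (.nx 1118 832257 (.nr 1117 1048577 (.nr 1110 200 .s1 (.nx 1115 104033 (.nx 1111 257 (.l1 (.ls
  71 31 333)) (.nr 1114 741457 (.nx 1112 13005 (.lg 0 false 1 79 83 31 0 240) (.nr 1113 16385 (.lg
  0 true 1 71 73 31 0 240) .out)) .out)) (.nr 1116 1025 (.lg 0 true 1 67 67 31 0 240) .out))) .out)
  .out) (.na 1127 209 (.nx 1126 832257 (.nr 1125 1048577 (.nr 1120 206 .s1 (.nx 1121 257 (.l1 (.ls
  61 29 323)) (.nr 1124 741457 (.nr 1122 16385 (.lg 0 false 1 73 73 23 0 48) (.nx 1123 13005 (.lg 0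
  true 1 73 73 23 0 2640) .out)) .out))) .out) .out) (.nx 1136 832257 (.nr 1135 1048577 (.nr 1128
  209 .s1 (.nx 1131 13005 (.nx 1129 257 (.l1 (.ls 71 29 319)) (.nr 1130 741457 (.lg 0 false 1 79 79
  17 0 264) .out)) (.nr 1134 16385 (.nr 1132 1025 (.lg 0 true 1 61 61 17 0 264) (.nx 1133 104033
  (.lg 2 false 1 59 59 17 14497 264) .out)) .out))) .out) .out))) (.na 1138 215 (.lg 0 false 1 0 0
  16 0 24) (.na 1148 220 (.nx 1147 832257 (.nr 1146 1048577 (.nr 1139 215 .s1 (.nx 1142 13005 (.nx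
  1140 257 (.l1 (.ls 67 23 310)) (.nr 1141 741457 (.lg 0 false 1 73 73 19 0 120) .out)) (.nr 1145
  16385 (.nr 1143 1025 (.lg 0 true 1 61 61 19 0 120) (.nx 1144 104033 (.lg 2 false 1 59 59 19 14497
  240) .out)) .out))) .out) .out) (.nx 1157 832257 (.nr 1156 1048577 (.nr 1149 220 .s1 (.nx 1150
  257 (.l1 (.ls 73 37 303)) (.nr 1155 741457 (.nx 1153 104033 (.nx 1151 13005 (.lg 0 false 1 83 83
  37 0 2640) (.nr 1152 16385 (.lg 0 true 1 71 73 37 0 2640) .out)) (.nr 1154 1025 (.lg 0 true 1 67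
  67 37 0 2640) .out)) .out))) .out) .out))))))))

def T121_2 : Ph :=
  (.na 580 10 (.na 361 3 (.na 1 2 .ne (.nx 360 3329023 (.nr 359 623489 (.nx 343 2097153 (.nx 3 196
  (.nr 2 27 (.lg 0 false 1 41 41 5 0 336) (.l1 .sk)) (.nx 4 197 (.l1 .sk) (.nx 61 16384 (.nr 37
  155873 (.lg 0 false 33 101 103 13 0 720720) (.nx 48 324 (.lg 0 false 11 79 79 9 0 3696) (.nx 49
  10321 .out (.nr 60 185365 (.lg 0 false 11 89 97 9 0 18480) .out)))) (.nr 342 220437 (.nx 94 28161
  (.lg 0 false 33 101 107 13 0 720720) (.nr 150 1025 (.nx 127 1048577 (.lg 0 true 33 97 97 13 0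
  55440) (.nr 149 129 (.lg 0 true 22 79 79 11 0 3696) .out)) (.nx 341 832257 (.nx 284 131073 (.nx
  183 41287 (.lg 1 false 33 101 107 13 150492 720720) (.nr 283 155873 (.nx 249 82572 (.nx 216 58387
  (.lg 1 false 33 97 107 13 72610 720720) (.lg 1 false 33 97 107 13 51344 720720)) (.nr 282 131073
  (.lg 1 true 33 97 107 13 30537 720720) .out)) .out)) (.nr 340 110219 (.nr 328 77937 (.nr 295 3446
  (.lg 2 true 11 89 97 9 79572 18480) (.nx 327 524289 (.nr 315 38969 (.nr 304 10626 (.lg 2 true 9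
  97 97 9 14911 65520) (.lg 2 false 11 89 97 9 5740 18480)) (.nx 326 262145 (.lg 2 false 11 101 101
  9 11450 240240) .out)) .out)) (.nx 339 208065 (.lg 2 false 11 101 103 9 16181 240240) .out))
  .out)) .out))) .out)))) (.nr 358 9 (.lg 0 true 15 71 71 9 0 5040) .out)) .out) .out)) (.na 362 4
  .ne (.na 579 5 (.nx 578 16777217 (.nr 577 1246976 (.nx 525 2097153 (.nx 365 197 (.nx 364 196 (.nr
  363 48 (.lg 0 true 1 37 37 9 0 336) (.l1 .sk)) (.l1 .sk)) (.nx 513 524289 (.nx 410 35480 (.nr 398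
  185365 (.lg 0 false 33 101 107 19 0 720720) (.nx 409 324 (.lg 0 false 11 79 83 13 0 3696) .out))
  (.nr 512 220437 (.nr 431 11603 (.nr 421 729 (.lg 0 true 11 89 89 13 0 3696) (.nr 426 2909 (.lg 2
  true 5 83 89 11 70481 1680) (.lg 2 true 5 83 89 11 17663 1680))) (.nx 500 208065 (.nx 488 165142
  (.nx 476 131073 (.nx 454 65536 (.nr 453 185365 (.nx 442 48220 (.lg 1 false 11 101 103 13 100460
  720720) (.lg 1 false 11 101 103 13 73918 720720)) .out) (.nx 465 92682 (.lg 1 false 11 101 107 13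
  64667 720720) (.lg 1 false 11 101 107 13 45726 720720))) (.nr 487 155873 (.lg 1 true 11 101 107
  13 22872 720720) .out)) (.nr 499 131073 (.lg 1 true 11 97 103 13 15269 720720) .out)) (.nr 511
  55110 (.lg 2 false 11 83 97 13 5106 18480) .out))) .out)) (.nr 524 183 (.lg 0 true 11 83 83 13 0
  3696) .out))) (.nr 576 21 (.nx 543 5931643 (.lg 0 true 18 73 73 11 0 1008) (.lg 0 true 33 79 79
  11 0 11088)) .out)) .out) .out) .ne))) (.na 669 14 (.na 668 12 (.nx 667 2097153 (.nr 666 1048577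
  (.nx 584 257 (.nx 582 196 (.nr 581 119 (.lg 0 false 1 31 31 11 0 1680) (.l1 .sk)) (.nx 583 197
  (.l1 .sk) (.l1 (.ls 83 43 2727)))) (.nr 665 623489 (.nx 602 26007 (.nr 595 155873 (.lg 0 false 11
  89 97 19 0 18480) (.nx 601 1292 (.lg 0 false 6 83 83 13 0 5040) .out)) (.nr 664 220437 (.nx 654
  660563 (.nr 611 920 (.lg 0 true 9 79 83 17 0 5040) (.nx 623 52015 (.nr 622 185365 (.lg 1 false 11
  97 103 19 137053 720720) .out) (.nr 625 3601 (.lg 2 false 2 83 83 11 70365 1680) (.nx 636 104033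
  (.lg 1 false 11 97 103 19 81476 720720) (.nr 653 185365 (.nx 647 208065 (.lg 1 true 11 97 103 19
  34261 720720) (.nr 652 65537 (.nr 649 14088 (.lg 2 true 2 83 83 11 17977 1680) (.lg 2 false 3 89
  89 13 6069 5040)) .out)) .out))))) (.nr 663 65 (.lg 0 true 9 71 71 13 0 5040) .out)) .out))
  .out)) .out) .out) .ne) (.na 733 16 (.nx 732 2097153 (.nr 731 1048577 (.nr 670 1 .s1 (.nx 672 196
  (.nr 671 158 (.l1 (.ls 19 43 2746)) (.l1 .sk)) (.nx 673 197 (.l1 .sk) (.nx 724 660563 (.nx 674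
  257 (.l1 (.ls 79 41 1948)) (.nr 723 623489 (.nr 704 65537 (.nx 680 19209 (.lg 0 true 6 83 83 13 0
  5040) (.nr 691 1178 (.lg 0 true 11 73 73 13 0 3696) (.lg 2 false 13 73 73 17 65732 4368))) (.nx
  722 208065 (.nr 715 185365 (.lg 0 true 11 103 103 13 0 720720) (.nx 721 1292 (.lg 0 false 6 73 73
  13 0 1008) .out)) .out)) .out)) (.nr 730 65 (.lg 0 true 6 61 61 13 0 1008) .out))))) .out) .out)
  (.na 734 20 .ne (.nx 779 2097153 (.nr 778 1048577 (.nr 735 15 .s1 (.nx 774 660563 (.nx 738 197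
  (.nx 737 196 (.nr 736 228 (.lg 0 true 1 31 31 13 0 1680) (.l1 .sk)) (.l1 .sk)) (.nx 739 324 (.l1
  (.ls 83 43 3311)) (.nr 773 623489 (.nx 758 41286 (.nr 750 185365 (.lg 0 false 11 97 103 29 0
  720720) (.nx 757 10323 (.nr 753 262145 (.lg 0 false 3 89 97 19 0 65520) (.nx 756 2049 (.lg 0
  false 3 83 89 19 0 5040) .out)) .out)) (.nr 772 155873 (.nr 761 751 (.lg 0 true 3 79 79 19 0
  5040) (.nx 771 416129 (.nx 764 82572 (.lg 1 false 3 97 103 19 72611 65520) (.nr 770 131073 (.nr
  765 2200 (.lg 2 false 1 79 79 13 54302 1680) (.nr 767 77937 (.lg 2 false 2 97 101 17 18537 21840)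
  (.nx 769 208065 (.lg 2 false 2 97 101 17 30537 21840) .out))) .out)) .out)) .out)) .out))) (.nr
  777 129 (.lg 0 true 3 73 73 19 0 5040) .out))) .out) .out)))))

theorem c121 :
    OkQ ckI L9 212 1 23 0 34359738368 1 1099511627776 ∧
    OkQ ckI L8 151 9 223 0 34359738368 1 1099511627776 ∧
    OkQ ckI L9 196 1 23 0 34359738368 1 1099511627776 := by
  refine ⟨?_, ?_, ?_⟩
  · refine fin 3816 774 T121_0 ?_
    refine jn 11 (by decide +kernel) ?_
    refine jn 19 (by decide +kernel) ?_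
    refine jn 28 (by decide +kernel) ?_
    refine jn 33 (by decide +kernel) ?_
    refine jn 40 (by decide +kernel) ?_
    refine jn 48 (by decide +kernel) ?_
    refine jn 55 (by decide +kernel) ?_
    refine jn 59 (by decide +kernel) ?_
    refine jn 83 (by decide +kernel) ?_
    refine jn 94 (by decide +kernel) ?_
    refine jn 106 (by decide +kernel) ?_
    refine jn 110 (by decide +kernel) ?_
    refine jn 136 (by decide +kernel) ?_
    refine jn 160 (by decide +kernel) ?_
    refine jn 165 (by decide +kernel) ?_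
    refine jn 196 (by decide +kernel) ?_
    refine jn 216 (by decide +kernel) ?_
    refine jn 240 (by decide +kernel) ?_
    refine jn 251 (by decide +kernel) ?_
    refine jn 269 (by decide +kernel) ?_
    refine jn 293 (by decide +kernel) ?_
    refine jn 295 (by decide +kernel) ?_
    refine jn 296 (by decide +kernel) ?_
    refine jn 298 (by decide +kernel) ?_
    refine jn 300 (by decide +kernel) ?_
    refine jn 301 (by decide +kernel) ?_
    refine jn 302 (by decide +kernel) ?_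
    refine jn 304 (by decide +kernel) ?_
    refine jn 306 (by decide +kernel) ?_
    refine jn 307 (by decide +kernel) ?_
    refine jn 309 (by decide +kernel) ?_
    refine jn 311 (by decide +kernel) ?_
    refine jn 312 (by decide +kernel) ?_
    refine jn 313 (by decide +kernel) ?_
    refine jn 315 (by decide +kernel) ?_
    refine jn 326 (by decide +kernel) ?_
    refine jn 338 (by decide +kernel) ?_
    refine jn 341 (by decide +kernel) ?_
    refine jn 343 (by decide +kernel) ?_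
    refine jn 345 (by decide +kernel) ?_
    refine jn 347 (by decide +kernel) ?_
    refine jn 349 (by decide +kernel) ?_
    refine jn 350 (by decide +kernel) ?_
    refine jn 357 (by decide +kernel) ?_
    refine jn 366 (by decide +kernel) ?_
    refine jn 374 (by decide +kernel) ?_
    refine jn 380 (by decide +kernel) ?_
    refine jn 387 (by decide +kernel) ?_
    refine jn 391 (by decide +kernel) ?_
    refine jn 398 (by decide +kernel) ?_
    refine jn 402 (by decide +kernel) ?_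
    refine jn 413 (by decide +kernel) ?_
    refine jn 425 (by decide +kernel) ?_
    refine jn 432 (by decide +kernel) ?_
    refine jn 439 (by decide +kernel) ?_
    refine jn 449 (by decide +kernel) ?_
    refine jn 474 (by decide +kernel) ?_
    refine jn 502 (by decide +kernel) ?_
    refine jn 513 (by decide +kernel) ?_
    refine jn 515 (by decide +kernel) ?_
    refine jn 517 (by decide +kernel) ?_
    refine jn 519 (by decide +kernel) ?_
    refine jn 521 (by decide +kernel) ?_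
    refine jn 523 (by decide +kernel) ?_
    refine jn 525 (by decide +kernel) ?_
    refine jn 533 (by decide +kernel) ?_
    refine jn 536 (by decide +kernel) ?_
    refine jn 539 (by decide +kernel) ?_
    refine jn 542 (by decide +kernel) ?_
    refine jn 544 (by decide +kernel) ?_
    refine jn 551 (by decide +kernel) ?_
    refine jn 559 (by decide +kernel) ?_
    refine jn 566 (by decide +kernel) ?_
    refine jn 573 (by decide +kernel) ?_
    refine jn 580 (by decide +kernel) ?_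
    refine jn 588 (by decide +kernel) ?_
    refine jn 595 (by decide +kernel) ?_
    refine jn 632 (by decide +kernel) ?_
    refine jn 643 (by decide +kernel) ?_
    refine jn 657 (by decide +kernel) ?_
    refine jn 660 (by decide +kernel) ?_
    refine jn 661 (by decide +kernel) ?_
    refine jn 662 (by decide +kernel) ?_
    refine jn 663 (by decide +kernel) ?_
    refine jn 664 (by decide +kernel) ?_
    refine jn 665 (by decide +kernel) ?_
    refine jn 670 (by decide +kernel) ?_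
    refine jn 674 (by decide +kernel) ?_
    refine jn 675 (by decide +kernel) ?_
    refine jn 676 (by decide +kernel) ?_
    refine jn 677 (by decide +kernel) ?_
    refine jn 678 (by decide +kernel) ?_
    refine jn 679 (by decide +kernel) ?_
    refine jn 681 (by decide +kernel) ?_
    refine jn 687 (by decide +kernel) ?_
    refine jn 692 (by decide +kernel) ?_
    refine jn 697 (by decide +kernel) ?_
    refine jn 702 (by decide +kernel) ?_
    refine jn 707 (by decide +kernel) ?_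
    refine jn 709 (by decide +kernel) ?_
    refine jn 714 (by decide +kernel) ?_
    refine jn 718 (by decide +kernel) ?_
    refine jn 720 (by decide +kernel) ?_
    refine jn 734 (by decide +kernel) ?_
    refine jn 736 (by decide +kernel) ?_
    refine jn 746 (by decide +kernel) ?_
    refine jn 753 (by decide +kernel) ?_
    refine jn 763 (by decide +kernel) ?_
    refine jn 769 (by decide +kernel) ?_
    exact je (by decide +kernel)
  · refine fin 24 1158 T121_1 ?_
    refine jn 6 (by decide +kernel) ?_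
    refine jn 8 (by decide +kernel) ?_
    refine jn 10 (by decide +kernel) ?_
    refine jn 18 (by decide +kernel) ?_
    refine jn 24 (by decide +kernel) ?_
    refine jn 28 (by decide +kernel) ?_
    refine jn 35 (by decide +kernel) ?_
    refine jn 42 (by decide +kernel) ?_
    refine jn 52 (by decide +kernel) ?_
    refine jn 60 (by decide +kernel) ?_
    refine jn 62 (by decide +kernel) ?_
    refine jn 64 (by decide +kernel) ?_
    refine jn 65 (by decide +kernel) ?_
    refine jn 69 (by decide +kernel) ?_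
    refine jn 72 (by decide +kernel) ?_
    refine jn 79 (by decide +kernel) ?_
    refine jn 86 (by decide +kernel) ?_
    refine jn 95 (by decide +kernel) ?_
    refine jn 109 (by decide +kernel) ?_
    refine jn 111 (by decide +kernel) ?_
    refine jn 112 (by decide +kernel) ?_
    refine jn 113 (by decide +kernel) ?_
    refine jn 114 (by decide +kernel) ?_
    refine jn 115 (by decide +kernel) ?_
    refine jn 116 (by decide +kernel) ?_
    refine jn 117 (by decide +kernel) ?_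
    refine jn 118 (by decide +kernel) ?_
    refine jn 119 (by decide +kernel) ?_
    refine jn 124 (by decide +kernel) ?_
    refine jn 125 (by decide +kernel) ?_
    refine jn 126 (by decide +kernel) ?_
    refine jn 127 (by decide +kernel) ?_
    refine jn 128 (by decide +kernel) ?_
    refine jn 131 (by decide +kernel) ?_
    refine jn 134 (by decide +kernel) ?_
    refine jn 136 (by decide +kernel) ?_
    refine jn 141 (by decide +kernel) ?_
    refine jn 149 (by decide +kernel) ?_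
    refine jn 153 (by decide +kernel) ?_
    refine jn 157 (by decide +kernel) ?_
    refine jn 167 (by decide +kernel) ?_
    refine jn 170 (by decide +kernel) ?_
    refine jn 177 (by decide +kernel) ?_
    refine jn 189 (by decide +kernel) ?_
    refine jn 193 (by decide +kernel) ?_
    refine jn 199 (by decide +kernel) ?_
    refine jn 204 (by decide +kernel) ?_
    refine jn 218 (by decide +kernel) ?_
    refine jn 219 (by decide +kernel) ?_
    refine jn 220 (by decide +kernel) ?_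
    refine jn 221 (by decide +kernel) ?_
    refine jn 222 (by decide +kernel) ?_
    refine jn 223 (by decide +kernel) ?_
    refine jn 224 (by decide +kernel) ?_
    refine jn 225 (by decide +kernel) ?_
    refine jn 228 (by decide +kernel) ?_
    refine jn 230 (by decide +kernel) ?_
    refine jn 235 (by decide +kernel) ?_
    refine jn 237 (by decide +kernel) ?_
    refine jn 245 (by decide +kernel) ?_
    refine jn 258 (by decide +kernel) ?_
    refine jn 264 (by decide +kernel) ?_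
    refine jn 273 (by decide +kernel) ?_
    refine jn 278 (by decide +kernel) ?_
    refine jn 288 (by decide +kernel) ?_
    refine jn 295 (by decide +kernel) ?_
    refine jn 302 (by decide +kernel) ?_
    refine jn 315 (by decide +kernel) ?_
    refine jn 320 (by decide +kernel) ?_
    refine jn 324 (by decide +kernel) ?_
    refine jn 337 (by decide +kernel) ?_
    refine jn 345 (by decide +kernel) ?_
    refine jn 353 (by decide +kernel) ?_
    refine jn 365 (by decide +kernel) ?_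
    refine jn 366 (by decide +kernel) ?_
    refine jn 367 (by decide +kernel) ?_
    refine jn 368 (by decide +kernel) ?_
    refine jn 369 (by decide +kernel) ?_
    refine jn 370 (by decide +kernel) ?_
    refine jn 372 (by decide +kernel) ?_
    refine jn 376 (by decide +kernel) ?_
    refine jn 387 (by decide +kernel) ?_
    refine jn 395 (by decide +kernel) ?_
    refine jn 402 (by decide +kernel) ?_
    refine jn 413 (by decide +kernel) ?_
    refine jn 420 (by decide +kernel) ?_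
    refine jn 433 (by decide +kernel) ?_
    refine jn 440 (by decide +kernel) ?_
    refine jn 449 (by decide +kernel) ?_
    refine jn 450 (by decide +kernel) ?_
    refine jn 451 (by decide +kernel) ?_
    refine jn 452 (by decide +kernel) ?_
    refine jn 453 (by decide +kernel) ?_
    refine jn 454 (by decide +kernel) ?_
    refine jn 455 (by decide +kernel) ?_
    refine jn 456 (by decide +kernel) ?_
    refine jn 457 (by decide +kernel) ?_
    refine jn 458 (by decide +kernel) ?_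
    refine jn 461 (by decide +kernel) ?_
    refine jn 462 (by decide +kernel) ?_
    refine jn 463 (by decide +kernel) ?_
    refine jn 472 (by decide +kernel) ?_
    refine jn 478 (by decide +kernel) ?_
    refine jn 488 (by decide +kernel) ?_
    refine jn 490 (by decide +kernel) ?_
    refine jn 491 (by decide +kernel) ?_
    refine jn 494 (by decide +kernel) ?_
    refine jn 497 (by decide +kernel) ?_
    refine jn 505 (by decide +kernel) ?_
    refine jn 510 (by decide +kernel) ?_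
    refine jn 517 (by decide +kernel) ?_
    refine jn 526 (by decide +kernel) ?_
    refine jn 532 (by decide +kernel) ?_
    refine jn 538 (by decide +kernel) ?_
    refine jn 541 (by decide +kernel) ?_
    refine jn 544 (by decide +kernel) ?_
    refine jn 547 (by decide +kernel) ?_
    refine jn 560 (by decide +kernel) ?_
    refine jn 572 (by decide +kernel) ?_
    refine jn 582 (by decide +kernel) ?_
    refine jn 590 (by decide +kernel) ?_
    refine jn 597 (by decide +kernel) ?_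
    refine jn 600 (by decide +kernel) ?_
    refine jn 605 (by decide +kernel) ?_
    refine jn 615 (by decide +kernel) ?_
    refine jn 618 (by decide +kernel) ?_
    refine jn 621 (by decide +kernel) ?_
    refine jn 633 (by decide +kernel) ?_
    refine jn 645 (by decide +kernel) ?_
    refine jn 646 (by decide +kernel) ?_
    refine jn 647 (by decide +kernel) ?_
    refine jn 648 (by decide +kernel) ?_
    refine jn 649 (by decide +kernel) ?_
    refine jn 656 (by decide +kernel) ?_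
    refine jn 659 (by decide +kernel) ?_
    refine jn 660 (by decide +kernel) ?_
    refine jn 661 (by decide +kernel) ?_
    refine jn 662 (by decide +kernel) ?_
    refine jn 670 (by decide +kernel) ?_
    refine jn 675 (by decide +kernel) ?_
    refine jn 678 (by decide +kernel) ?_
    refine jn 692 (by decide +kernel) ?_
    refine jn 700 (by decide +kernel) ?_
    refine jn 701 (by decide +kernel) ?_
    refine jn 703 (by decide +kernel) ?_
    refine jn 704 (by decide +kernel) ?_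
    refine jn 705 (by decide +kernel) ?_
    refine jn 721 (by decide +kernel) ?_
    refine jn 732 (by decide +kernel) ?_
    refine jn 736 (by decide +kernel) ?_
    refine jn 750 (by decide +kernel) ?_
    refine jn 761 (by decide +kernel) ?_
    refine jn 765 (by decide +kernel) ?_
    refine jn 778 (by decide +kernel) ?_
    refine jn 789 (by decide +kernel) ?_
    refine jn 792 (by decide +kernel) ?_
    refine jn 803 (by decide +kernel) ?_
    refine jn 807 (by decide +kernel) ?_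
    refine jn 820 (by decide +kernel) ?_
    refine jn 833 (by decide +kernel) ?_
    refine jn 845 (by decide +kernel) ?_
    refine jn 858 (by decide +kernel) ?_
    refine jn 872 (by decide +kernel) ?_
    refine jn 884 (by decide +kernel) ?_
    refine jn 894 (by decide +kernel) ?_
    refine jn 895 (by decide +kernel) ?_
    refine jn 898 (by decide +kernel) ?_
    refine jn 915 (by decide +kernel) ?_
    refine jn 927 (by decide +kernel) ?_
    refine jn 932 (by decide +kernel) ?_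
    refine jn 941 (by decide +kernel) ?_
    refine jn 956 (by decide +kernel) ?_
    refine jn 963 (by decide +kernel) ?_
    refine jn 966 (by decide +kernel) ?_
    refine jn 975 (by decide +kernel) ?_
    refine jn 984 (by decide +kernel) ?_
    refine jn 987 (by decide +kernel) ?_
    refine jn 1005 (by decide +kernel) ?_
    refine jn 1015 (by decide +kernel) ?_
    refine jn 1026 (by decide +kernel) ?_
    refine jn 1033 (by decide +kernel) ?_
    refine jn 1037 (by decide +kernel) ?_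
    refine jn 1048 (by decide +kernel) ?_
    refine jn 1058 (by decide +kernel) ?_
    refine jn 1067 (by decide +kernel) ?_
    refine jn 1078 (by decide +kernel) ?_
    refine jn 1087 (by decide +kernel) ?_
    refine jn 1103 (by decide +kernel) ?_
    refine jn 1112 (by decide +kernel) ?_
    refine jn 1116 (by decide +kernel) ?_
    refine jn 1130 (by decide +kernel) ?_
    refine jn 1141 (by decide +kernel) ?_
    refine jn 1150 (by decide +kernel) ?_
    refine jn 1151 (by decide +kernel) ?_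
    refine jn 1154 (by decide +kernel) ?_
    exact je (by decide +kernel)
  · refine fin 168 780 T121_2 ?_
    refine jn 11 (by decide +kernel) ?_
    refine jn 15 (by decide +kernel) ?_
    refine jn 23 (by decide +kernel) ?_
    refine jn 27 (by decide +kernel) ?_
    refine jn 33 (by decide +kernel) ?_
    refine jn 48 (by decide +kernel) ?_
    refine jn 75 (by decide +kernel) ?_
    refine jn 94 (by decide +kernel) ?_
    refine jn 105 (by decide +kernel) ?_
    refine jn 116 (by decide +kernel) ?_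
    refine jn 127 (by decide +kernel) ?_
    refine jn 149 (by decide +kernel) ?_
    refine jn 182 (by decide +kernel) ?_
    refine jn 183 (by decide +kernel) ?_
    refine jn 216 (by decide +kernel) ?_
    refine jn 248 (by decide +kernel) ?_
    refine jn 270 (by decide +kernel) ?_
    refine jn 282 (by decide +kernel) ?_
    refine jn 304 (by decide +kernel) ?_
    refine jn 326 (by decide +kernel) ?_
    refine jn 358 (by decide +kernel) ?_
    refine jn 365 (by decide +kernel) ?_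
    refine jn 367 (by decide +kernel) ?_
    refine jn 370 (by decide +kernel) ?_
    refine jn 372 (by decide +kernel) ?_
    refine jn 375 (by decide +kernel) ?_
    refine jn 377 (by decide +kernel) ?_
    refine jn 380 (by decide +kernel) ?_
    refine jn 382 (by decide +kernel) ?_
    refine jn 384 (by decide +kernel) ?_
    refine jn 386 (by decide +kernel) ?_
    refine jn 388 (by decide +kernel) ?_
    refine jn 391 (by decide +kernel) ?_
    refine jn 393 (by decide +kernel) ?_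
    refine jn 395 (by decide +kernel) ?_
    refine jn 397 (by decide +kernel) ?_
    refine jn 409 (by decide +kernel) ?_
    refine jn 412 (by decide +kernel) ?_
    refine jn 414 (by decide +kernel) ?_
    refine jn 416 (by decide +kernel) ?_
    refine jn 419 (by decide +kernel) ?_
    refine jn 421 (by decide +kernel) ?_
    refine jn 426 (by decide +kernel) ?_
    refine jn 431 (by decide +kernel) ?_
    refine jn 442 (by decide +kernel) ?_
    refine jn 453 (by decide +kernel) ?_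
    refine jn 462 (by decide +kernel) ?_
    refine jn 465 (by decide +kernel) ?_
    refine jn 473 (by decide +kernel) ?_
    refine jn 476 (by decide +kernel) ?_
    refine jn 487 (by decide +kernel) ?_
    refine jn 499 (by decide +kernel) ?_
    refine jn 511 (by decide +kernel) ?_
    refine jn 520 (by decide +kernel) ?_
    refine jn 524 (by decide +kernel) ?_
    refine jn 543 (by decide +kernel) ?_
    refine jn 576 (by decide +kernel) ?_
    refine jn 584 (by decide +kernel) ?_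
    refine jn 587 (by decide +kernel) ?_
    refine jn 590 (by decide +kernel) ?_
    refine jn 593 (by decide +kernel) ?_
    refine jn 601 (by decide +kernel) ?_
    refine jn 606 (by decide +kernel) ?_
    refine jn 610 (by decide +kernel) ?_
    refine jn 611 (by decide +kernel) ?_
    refine jn 622 (by decide +kernel) ?_
    refine jn 625 (by decide +kernel) ?_
    refine jn 636 (by decide +kernel) ?_
    refine jn 647 (by decide +kernel) ?_
    refine jn 652 (by decide +kernel) ?_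
    refine jn 663 (by decide +kernel) ?_
    refine jn 677 (by decide +kernel) ?_
    refine jn 680 (by decide +kernel) ?_
    refine jn 691 (by decide +kernel) ?_
    refine jn 692 (by decide +kernel) ?_
    refine jn 693 (by decide +kernel) ?_
    refine jn 694 (by decide +kernel) ?_
    refine jn 695 (by decide +kernel) ?_
    refine jn 696 (by decide +kernel) ?_
    refine jn 697 (by decide +kernel) ?_
    refine jn 698 (by decide +kernel) ?_
    refine jn 699 (by decide +kernel) ?_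
    refine jn 700 (by decide +kernel) ?_
    refine jn 701 (by decide +kernel) ?_
    refine jn 702 (by decide +kernel) ?_
    refine jn 703 (by decide +kernel) ?_
    refine jn 704 (by decide +kernel) ?_
    refine jn 721 (by decide +kernel) ?_
    refine jn 738 (by decide +kernel) ?_
    refine jn 739 (by decide +kernel) ?_
    refine jn 740 (by decide +kernel) ?_
    refine jn 742 (by decide +kernel) ?_
    refine jn 743 (by decide +kernel) ?_
    refine jn 744 (by decide +kernel) ?_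
    refine jn 745 (by decide +kernel) ?_
    refine jn 746 (by decide +kernel) ?_
    refine jn 748 (by decide +kernel) ?_
    refine jn 749 (by decide +kernel) ?_
    refine jn 750 (by decide +kernel) ?_
    refine jn 756 (by decide +kernel) ?_
    refine jn 758 (by decide +kernel) ?_
    refine jn 759 (by decide +kernel) ?_
    refine jn 760 (by decide +kernel) ?_
    refine jn 761 (by decide +kernel) ?_
    refine jn 764 (by decide +kernel) ?_
    refine jn 765 (by decide +kernel) ?_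
    refine jn 767 (by decide +kernel) ?_
    refine jn 774 (by decide +kernel) ?_
    refine jn 777 (by decide +kernel) ?_
    exact je (by decide +kernel)

end Pool.Agent.MP_2339ce_nt.NR
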