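import Pool.Agent.MP_2339ce_nt.Q2.NC.L6
import Pool.Agent.MP_2339ce_nt.Q2.NC.L8
import Pool.Agent.MP_2339ce_nt.Q2.CkI

/-! Block NR: runs. -/

set_option autoImplicit false
set_option maxRecDepth 100000

noncomputable section

namespace Pool.Agent.MP_2339ce_nt.NR

open Q2.Top

def T6_0 : Ph :=
  (.na 1044 134 (.na 749 51 (.na 524 18 (.na 359 8 (.na 243 4 (.na 1 2 .ne (.na 124 3 (.nx 123
  3329023 (.nr 122 623489 (.nx 3 101 (.nr 2 19 (.lg 0 true 1 37 37 5 0 14544) (.l1 .sk)) (.nx 4 102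
  (.l1 .sk) (.nr 108 77937 (.nr 102 65537 (.nx 83 1321124 (.nx 17 9555 (.lg 0 false 13 103 103 9 0
  6617520) (.nr 50 257 (.lg 0 true 33 83 83 13 0 159984) (.nx 82 165142 (.nr 55 1100 (.lg 2 false 5
  83 83 9 32451 509040) (.nx 68 20644 (.lg 1 false 13 103 107 9 35040 72792720) (.nr 81 46342 (.lg
  2 false 13 103 107 9 11475 6617520) .out))) .out))) (.nr 101 9 (.lg 0 true 18 71 71 9 0 14544)
  .out)) (.nx 107 1292 (.lg 0 false 5 79 79 9 0 72720) .out)) (.nx 121 205 (.lg 0 false 13 79 79 9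
  0 189072) .out)))) .out) .out) (.nx 242 6658044 (.nr 241 881745 (.nx 127 102 (.nx 126 101 (.nr
  125 27 (.lg 0 true 1 31 31 5 0 7272) (.l1 .sk)) (.l1 .sk)) (.nx 214 1321124 (.nx 202 416129 (.nx
  156 13003 (.nr 138 55110 (.lg 0 false 11 97 103 16 0 2799720) (.nx 155 1292 (.nx 149 205 (.lg 0
  false 11 79 79 16 0 79992) (.nx 150 406 .out (.nr 154 110219 (.lg 0 false 4 83 89 7 0 14544)
  .out))) .out)) (.nr 201 65537 (.nr 167 364 (.lg 0 true 11 79 79 16 0 79992) (.nx 200 208065 (.nr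
  173 3220 (.nr 171 1557 (.lg 2 true 4 83 83 7 28867 14544) (.lg 2 false 2 83 83 7 6749 14544))
  (.nx 184 28090 (.lg 1 false 11 97 109 16 25748 72792720) (.nx 195 52017 (.lg 1 true 11 97 107 16
  11919 72792720) (.nr 199 38969 (.lg 2 false 4 101 103 7 3832 509040) .out)))) .out)) .out)) (.nr
  213 109 (.lg 0 true 11 79 79 16 0 79992) .out)) (.nr 240 13 (.lg 0 true 26 79 79 7 0 189072)
  .out))) .out) .out))) (.na 244 6 .ne (.na 290 7 (.nx 289 1321124 (.nr 288 220437 (.nx 246 101
  (.nr 245 49 (.lg 0 true 1 29 29 7 0 72720) (.l1 .sk)) (.nx 247 102 (.l1 .sk) (.nr 280 55110 (.nx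
  254 16932 (.lg 0 false 7 97 97 13 0 509040) (.nr 269 501 (.nx 261 660563 (.lg 0 true 7 83 83 13 0
  101808) (.nr 268 109 (.lg 0 true 7 73 73 13 0 101808) .out)) (.nx 279 416129 (.nr 272 1905 (.lg 2
  true 3 83 83 13 41946 72720) (.lg 2 false 7 103 107 13 16632 72792720)) .out))) (.nx 287 1292
  (.lg 0 false 7 83 89 13 0 509040) .out)))) .out) .out) (.nx 358 10568985 (.nr 357 262145 (.nx 293
  102 (.nx 292 101 (.nr 291 57 (.lg 0 true 1 29 29 9 0 2799720) (.l1 .sk)) (.l1 .sk)) (.nx 303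
  10321 (.nr 298 55110 (.lg 0 false 5 89 89 16 0 254520) (.nx 302 408 (.lg 0 false 4 79 79 13 0
  101808) .out)) (.nr 356 65537 (.nr 343 306 (.nx 316 1321124 (.lg 0 true 13 79 79 16 0 661752)
  (.nr 342 47 (.lg 0 true 26 83 83 16 0 1323504) .out)) (.nx 355 262145 (.nx 347 32769 (.lg 1 false
  4 107 107 13 32439 72792720) (.nr 354 55110 (.nr 350 2267 (.lg 2 true 3 79 79 11 43263 50904)
  (.lg 2 false 4 97 103 13 8594 5599440)) .out)) .out)) .out))) .out) .out)))) (.na 455 12 (.na 360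
  9 .ne (.na 415 10 (.nx 414 10568985 (.nr 413 623489 (.nx 363 102 (.nx 362 101 (.nr 361 71 (.lg 0
  false 1 23 23 7 0 254520) (.l1 .sk)) (.l1 .sk)) (.nr 407 77937 (.nx 367 13005 (.lg 0 true 4 97 97
  16 0 509040) (.nr 406 65537 (.nr 395 364 (.nx 378 1321124 (.lg 0 true 11 73 73 16 0 79992) (.nr
  394 65 (.lg 0 true 16 73 73 16 0 14544) .out)) (.nx 405 165142 (.nr 396 709 (.lg 2 false 1 67 67
  7 22912 7272) (.nx 400 26009 (.lg 1 false 4 89 89 16 25744 509040) (.nr 404 55110 (.lg 2 false 4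
  89 97 16 11763 509040) .out))) .out)) .out)) (.nx 412 814 (.lg 0 false 5 79 79 16 0 36360)
  .out))) .out) .out) (.nx 454 1321124 (.nr 453 623489 (.nx 417 101 (.nr 416 85 (.lg 0 false 1 29
  29 11 0 72720) (.l1 .sk)) (.nx 418 102 (.l1 .sk) (.nr 445 77937 (.nx 425 20644 (.lg 0 false 7 89
  97 13 0 509040) (.nr 444 55110 (.nr 440 766 (.nx 432 330282 (.lg 0 true 7 79 79 13 0 509040) (.nr
  439 65 (.lg 0 true 7 71 71 13 0 509040) .out)) (.nx 443 165142 (.lg 2 false 3 97 97 13 13642
  509040) .out)) .out)) (.nx 452 814 (.lg 0 false 7 83 83 13 0 509040) .out)))) .out) .out))) (.na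
  490 14 (.na 456 13 .ne (.nx 489 1321124 (.nr 488 623489 (.nr 457 9 .s1 (.nx 460 102 (.nx 459 101
  (.nr 458 100 (.lg 0 true 1 23 23 9 0 472680) (.l1 .sk)) (.l1 .sk)) (.nx 472 20644 (.nr 467 92683
  (.lg 0 false 7 89 89 16 0 3308760) (.nx 471 814 (.lg 0 false 4 79 79 16 0 189072) .out)) (.nr 487
  55110 (.nx 481 330282 (.nr 476 766 (.lg 0 true 4 73 73 16 0 189072) (.nx 480 165142 (.lg 2 false
  4 89 89 16 13642 945360) .out)) (.nr 486 65 (.lg 0 true 5 67 67 16 0 472680) .out)) .out))))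
  .out) .out)) (.na 523 16 (.nx 522 1321124 (.nr 521 623489 (.nr 491 10 .s1 (.nx 515 330282 (.nx
  505 20644 (.nx 493 101 (.nr 492 114 (.lg 0 false 1 29 29 11 0 509040) (.l1 .sk)) (.nx 494 102
  (.l1 .sk) (.nr 499 92683 (.lg 0 false 5 89 97 13 0 509040) (.nx 504 814 (.lg 0 false 5 83 83 13 0
  509040) .out)))) (.nr 514 55110 (.nr 510 766 (.lg 0 true 5 79 79 13 0 509040) (.nx 513 165142
  (.lg 2 false 3 89 89 13 13642 509040) .out)) .out)) (.nr 520 65 (.lg 0 true 5 67 67 13 0 509040)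
  .out))) .out) .out) .ne)))) (.na 645 34 (.na 581 25 (.na 553 22 (.nx 552 1321124 (.nr 551 1048577
  (.nr 525 15 .s1 (.nx 528 102 (.nx 527 101 (.nr 526 157 (.lg 0 false 1 29 29 13 0 5599440) (.l1
  .sk)) (.l1 .sk)) (.nx 531 324 (.nx 529 205 (.l1 (.ls 83 41 1759)) (.nr 530 623489 (.l1 (.ls 79 43
  3500)) .out)) (.nr 550 220437 (.nr 548 131073 (.nx 536 16385 (.lg 0 false 5 89 89 19 0 72720)
  (.nr 547 46342 (.nr 543 498 (.lg 0 true 7 73 73 19 0 101808) (.nx 546 165142 (.lg 2 false 3 83 83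
  13 16747 14544) .out)) .out)) (.nx 549 814 (.lg 0 true 1 73 73 13 0 14544) .out)) .out)))) .out)
  .out) (.na 580 23 (.nx 579 1321124 (.nr 578 1048577 (.nr 554 20 .s1 (.nx 557 102 (.nx 556 101
  (.nr 555 164 (.lg 0 false 1 23 23 9 0 799920) (.l1 .sk)) (.l1 .sk)) (.nx 560 324 (.nx 558 205
  (.l1 (.ls 83 41 1440)) (.nr 559 623489 (.l1 (.ls 79 43 2864)) .out)) (.nr 577 220437 (.nx 565
  10323 (.lg 0 false 5 83 89 19 0 799920) (.nr 576 55110 (.nr 572 498 (.lg 0 true 7 73 73 19 0
  1119888) (.nx 575 165142 (.lg 2 false 3 89 89 13 27281 799920) .out)) .out)) .out)))) .out) .out)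
  .ne)) (.na 626 30 (.na 604 26 (.nx 603 1321124 (.nr 602 1048577 (.nr 582 23 .s1 (.nx 591 16385
  (.nx 586 205 (.nx 584 101 (.nr 583 185 (.l1 (.ls 19 23 411)) (.l1 .sk)) (.nx 585 102 (.l1 .sk)
  (.l1 (.ls 79 29 1267)))) (.nr 590 185365 (.lg 0 false 4 89 89 16 0 72720) .out)) (.nr 601 38969
  (.nr 598 513 (.lg 0 true 7 71 71 16 0 254520) (.nx 600 82572 (.lg 2 false 2 79 79 16 12163 72720)
  .out)) .out))) .out) .out) (.nx 625 1321124 (.nr 624 1048577 (.nr 605 24 .s1 (.nx 608 102 (.nx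
  607 101 (.nr 606 214 (.l1 (.ls 29 31 395)) (.l1 .sk)) (.l1 .sk)) (.nx 609 205 (.l1 (.ls 83 41
  1219)) (.nr 623 185365 (.nx 614 16385 (.lg 0 false 5 97 97 19 0 72792720) (.nr 622 38969 (.nr 619
  513 (.lg 0 true 5 79 79 19 0 945360) (.nx 621 82572 (.lg 2 true 2 83 83 11 12163 189072) .out))
  .out)) .out)))) .out) .out)) (.na 644 32 (.nx 643 1321124 (.nr 642 1048577 (.nr 627 29 .s1 (.nx
  630 102 (.nx 629 101 (.nr 628 228 (.l1 (.ls 29 37 343)) (.l1 .sk)) (.l1 .sk)) (.nx 631 205 (.l1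
  (.ls 83 41 1057)) (.nr 641 185365 (.nx 633 10323 (.lg 0 false 2 89 89 23 0 509040) (.nr 640 55110
  (.nr 636 513 (.lg 0 true 3 79 79 29 0 72720) (.nx 639 82572 (.nx 637 26009 (.lg 1 true 1 89 89 19
  27281 509040) (.nr 638 32769 (.lg 1 false 1 89 89 19 8129 509040) .out)) .out)) .out)) .out))))
  .out) .out) .ne))) (.na 701 42 (.na 665 35 (.nx 664 1321124 (.nr 663 370729 (.nr 646 33 .s1 (.nx
  649 102 (.nx 648 101 (.nr 647 250 (.lg 0 true 1 19 19 13 0 72720) (.l1 .sk)) (.l1 .sk)) (.nx 656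
  13005 (.lg 0 false 7 83 89 23 0 509040) (.nr 662 23172 (.nr 659 250 (.lg 0 true 3 67 67 13 0
  14544) (.nx 661 82572 (.lg 2 true 2 79 79 13 16680 72720) .out)) .out)))) .out) .out) (.na 683 39
  (.nx 682 1321124 (.nr 681 370729 (.nr 666 34 .s1 (.nx 669 102 (.nx 668 101 (.nr 667 278 (.l1 (.ls
  29 23 294)) (.l1 .sk)) (.l1 .sk)) (.nx 673 8193 (.lg 0 false 4 83 89 19 0 509040) (.nr 680 55110
  (.nr 676 278 (.lg 0 true 3 71 71 17 0 254520) (.nx 679 82572 (.nr 677 23172 (.lg 2 true 1 79 79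
  16 15000 254520) (.nx 678 13005 (.lg 0 false 1 79 79 16 0 254520) .out)) .out)) .out)))) .out)
  .out) (.nx 700 1321124 (.nr 699 370729 (.nr 684 38 .s1 (.nx 687 102 (.nx 686 101 (.nr 685 300
  (.l1 (.ls 29 23 264)) (.l1 .sk)) (.l1 .sk)) (.nx 691 6503 (.lg 0 false 4 89 89 19 0 6617520) (.nr
  698 77937 (.nr 696 23172 (.nr 694 217 (.lg 0 true 3 67 67 19 0 94536) (.nx 695 82572 (.lg 2 true
  1 79 79 17 19217 94536) .out)) (.nx 697 13005 (.lg 0 false 1 79 79 17 0 94536) .out)) .out))))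
  .out) .out))) (.na 733 46 (.na 717 45 (.nx 716 1321124 (.nr 715 370729 (.nr 702 41 .s1 (.nx 705
  102 (.nx 704 101 (.nr 703 321 (.l1 (.ls 29 31 245)) (.l1 .sk)) (.l1 .sk)) (.nx 707 6503 (.lg 0
  false 2 89 89 29 0 101808) (.nr 714 77937 (.nr 710 217 (.lg 0 true 3 71 71 29 0 101808) (.nx 713
  82572 (.nr 711 23172 (.lg 2 true 1 83 83 23 19217 101808) (.nx 712 13005 (.lg 0 true 1 83 83 23 0
  509040) .out)) .out)) .out)))) .out) .out) (.nx 732 1321124 (.nr 731 370729 (.nr 718 44 .s1 (.nx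
  723 6503 (.nx 720 101 (.nr 719 328 (.l1 (.ls 23 23 229)) (.l1 .sk)) (.nx 721 102 (.l1 .sk) (.lg 0
  false 2 83 83 19 0 72720))) (.nr 730 77937 (.nr 726 217 (.lg 0 true 3 67 67 19 0 36360) (.nx 729
  82572 (.nr 727 23172 (.lg 2 true 1 79 79 17 19217 36360) (.nx 728 13005 (.lg 0 false 1 79 79 17 0
  36360) .out)) .out)) .out))) .out) .out)) (.na 734 50 .ne (.nx 748 1321124 (.nr 747 311745 (.nr
  735 49 .s1 (.nx 741 10323 (.nx 737 101 (.nr 736 364 (.l1 (.ls 19 29 207)) (.l1 .sk)) (.nx 738 102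
  (.l1 .sk) (.lg 0 false 3 79 79 19 0 72720))) (.nr 746 23172 (.nr 744 364 (.lg 0 true 3 67 67 19 0
  72720) (.nx 745 82572 (.lg 2 true 1 73 73 13 11500 72720) .out)) .out))) .out) .out)))))) (.na
  907 98 (.na 824 70 (.na 795 64 (.na 766 54 (.nx 765 1321124 (.nr 764 311745 (.nr 750 51 .s1 (.nx
  752 101 (.nr 751 385 (.l1 (.ls 16 23 203)) (.l1 .sk)) (.nx 753 102 (.l1 .sk) (.nx 757 10323 (.lg
  0 false 4 83 83 23 0 14544) (.nr 763 23172 (.nr 761 13779 (.nx 758 82572 (.lg 0 false 1 83 83 16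
  0 7272) (.nr 760 217 (.lg 0 true 2 71 71 16 0 14544) .out)) (.nx 762 20644 (.lg 0 false 1 71 71
  16 0 7272) .out)) .out))))) .out) .out) (.na 780 55 (.nx 779 1321124 (.nr 778 311745 (.nr 767 54
  .s1 (.nx 772 10323 (.nx 769 101 (.nr 768 392 (.l1 (.ls 19 29 191)) (.l1 .sk)) (.nx 770 102 (.l1
  .sk) (.lg 0 true 2 83 83 19 0 509040))) (.nr 777 23172 (.nr 775 392 (.lg 0 true 3 67 67 23 0
  14544) (.nx 776 82572 (.lg 2 true 1 71 71 19 11500 14544) .out)) .out))) .out) .out) (.nx 794
  1321124 (.nr 793 311745 (.nr 781 55 .s1 (.nx 784 102 (.nx 783 101 (.nr 782 456 (.l1 (.ls 29 23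
  188)) (.l1 .sk)) (.l1 .sk)) (.nx 787 10323 (.lg 0 false 3 79 83 19 0 399960) (.nr 792 23172 (.nr
  790 456 (.lg 0 true 3 71 71 19 0 399960) (.nx 791 82572 (.lg 2 true 1 73 73 17 11500 399960)
  .out)) .out)))) .out) .out))) (.na 796 66 .ne (.na 809 67 (.nx 808 1321124 (.nr 807 524289 (.nr
  797 66 .s1 (.nx 802 8193 (.nx 799 101 (.nr 798 478 (.l1 (.ls 31 31 157)) (.l1 .sk)) (.nx 800 102
  (.l1 .sk) (.lg 0 false 2 89 89 29 0 159984))) (.nr 806 8193 (.nr 804 513 (.lg 0 true 2 73 73 29 0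
  159984) (.nx 805 82572 (.lg 2 false 1 67 67 29 8129 159984) .out)) .out))) .out) .out) (.nx 823
  1321124 (.nr 822 524289 (.nr 810 67 .s1 (.nx 813 102 (.nx 812 101 (.nr 811 499 (.l1 (.ls 17 16
  155)) (.l1 .sk)) (.l1 .sk)) (.nx 816 8193 (.lg 0 false 3 79 79 16 0 7272) (.nr 821 8193 (.nr 819
  513 (.lg 0 true 3 61 61 16 0 7272) (.nx 820 82572 (.lg 2 false 1 59 59 16 8129 7272) .out))
  .out)))) .out) .out)))) (.na 865 78 (.na 837 74 (.nx 836 1321124 (.nr 835 524289 (.nr 825 70 .s1
  (.nx 828 102 (.nx 827 101 (.nr 826 528 (.l1 (.ls 31 29 148)) (.l1 .sk)) (.l1 .sk)) (.nx 830 8193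
  (.lg 0 false 2 89 89 29 0 509040) (.nr 834 8193 (.nr 832 513 (.lg 0 true 2 73 73 29 0 509040)
  (.nx 833 82572 (.lg 2 false 1 67 67 23 8129 509040) .out)) .out)))) .out) .out) (.na 852 77 (.nx
  851 1321124 (.nr 850 524289 (.nr 838 74 .s1 (.nx 844 8193 (.nx 840 101 (.nr 839 549 (.l1 (.ls 19
  23 140)) (.l1 .sk)) (.nx 841 102 (.l1 .sk) (.lg 0 false 3 79 79 19 0 14544))) (.nr 849 8193 (.nr
  847 549 (.lg 0 true 3 67 67 19 0 14544) (.nx 848 82572 (.lg 2 true 1 61 61 13 7596 14544) .out))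
  .out))) .out) .out) (.nx 864 1321124 (.nr 863 524289 (.nr 853 77 .s1 (.nx 855 101 (.nr 854 556
  (.l1 (.ls 29 19 135)) (.l1 .sk)) (.nx 856 102 (.l1 .sk) (.nx 858 8193 (.lg 0 false 2 89 89 19 0
  1119888) (.nr 862 8193 (.nr 860 513 (.lg 0 true 2 73 73 19 0 1119888) (.nx 861 82572 (.lg 2 false
  1 67 67 17 8129 559944) .out)) .out))))) .out) .out))) (.na 893 90 (.na 878 83 (.nx 877 1321124
  (.nr 876 524289 (.nr 866 78 .s1 (.nx 868 101 (.nr 867 592 (.l1 (.ls 29 31 133)) (.l1 .sk)) (.nx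
  869 102 (.l1 .sk) (.nx 871 8193 (.lg 0 false 2 83 83 31 0 189072) (.nr 875 8193 (.nr 873 513 (.lg
  0 true 2 71 71 31 0 189072) (.nx 874 82572 (.lg 2 false 1 61 61 29 8129 189072) .out)) .out)))))
  .out) .out) (.nx 892 1321124 (.nr 891 524289 (.nr 879 83 .s1 (.nx 881 101 (.nr 880 642 (.l1 (.ls
  17 16 125)) (.l1 .sk)) (.nx 882 102 (.l1 .sk) (.nx 885 8193 (.lg 0 false 3 73 73 16 0 7272) (.nr
  890 8193 (.nr 888 642 (.lg 0 true 3 61 61 16 0 7272) (.nx 889 82572 (.lg 2 false 1 47 47 16 6496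
  7272) .out)) .out))))) .out) .out)) (.na 906 91 (.nx 905 1321124 (.nr 904 524289 (.nr 894 90 .s1
  (.nx 899 8193 (.nx 896 101 (.nr 895 649 (.l1 (.ls 29 29 116)) (.l1 .sk)) (.nx 897 102 (.l1 .sk)
  (.lg 0 false 2 83 83 31 0 72720))) (.nr 903 8193 (.nr 901 513 (.lg 0 true 2 67 67 31 0 72720)
  (.nx 902 82572 (.lg 2 true 1 61 61 29 8129 72720) .out)) .out))) .out) .out) .ne)))) (.na 988 119
  (.na 943 103 (.na 918 99 (.nx 917 1321124 (.nr 916 524289 (.nr 908 98 .s1 (.nx 912 8193 (.nx 910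
  101 (.nr 909 706 (.l1 (.ls 19 23 107)) (.l1 .sk)) (.nx 911 102 (.l1 .sk) (.lg 0 true 1 83 83 19 0
  509040))) (.nr 915 8193 (.nr 913 513 (.lg 0 false 1 71 71 19 0 509040) (.nx 914 82572 (.lg 2 true
  1 53 53 19 8129 101808) .out)) .out))) .out) .out) (.na 930 102 (.nx 929 1321124 (.nr 928 524289
  (.nr 919 99 .s1 (.nx 922 102 (.nx 921 101 (.nr 920 727 (.l1 (.ls 23 19 106)) (.l1 .sk)) (.l1
  .sk)) (.nx 923 8193 (.lg 0 true 1 83 83 19 0 399960) (.nr 927 8193 (.nr 925 513 (.lg 0 true 2 67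
  67 23 0 159984) (.nx 926 82572 (.lg 2 false 1 59 59 19 8129 79992) .out)) .out)))) .out) .out)
  (.nx 942 1321124 (.nr 941 524289 (.nr 931 102 .s1 (.nx 933 101 (.nr 932 734 (.l1 (.ls 16 31 103))
  (.l1 .sk)) (.nx 934 102 (.l1 .sk) (.nx 936 8193 (.lg 0 false 2 83 83 31 0 14544) (.nr 940 8193
  (.nr 938 513 (.lg 0 true 2 71 71 31 0 14544) (.nx 939 82572 (.lg 2 true 1 61 61 29 8129 14544)
  .out)) .out))))) .out) .out))) (.na 965 110 (.na 954 105 (.nx 953 1321124 (.nr 952 524289 (.nr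
  944 103 .s1 (.nx 947 102 (.nx 946 101 (.nr 945 748 (.l1 (.ls 17 16 102)) (.l1 .sk)) (.l1 .sk))
  (.nx 948 8193 (.lg 0 true 1 79 79 16 0 7272) (.nr 951 8193 (.nr 949 513 (.lg 0 false 1 67 67 16 0
  7272) (.nx 950 82572 (.lg 2 true 1 53 53 16 8129 7272) .out)) .out)))) .out) .out) (.nx 964
  1321124 (.nr 963 524289 (.nr 955 105 .s1 (.nx 957 101 (.nr 956 784 (.l1 (.ls 31 23 100)) (.l1
  .sk)) (.nx 958 102 (.l1 .sk) (.nx 961 82572 (.nx 959 8193 (.lg 0 false 1 89 89 29 0 254520) (.nr
  960 8193 (.lg 0 true 1 79 79 29 0 254520) .out)) (.nr 962 513 (.lg 0 true 1 71 71 29 0 254520)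
  .out))))) .out) .out)) (.na 977 118 (.nx 976 1321124 (.nr 975 524289 (.nr 966 110 .s1 (.nx 969
  102 (.nx 968 101 (.nr 967 841 (.l1 (.ls 31 29 95)) (.l1 .sk)) (.l1 .sk)) (.nx 970 8193 (.lg 0
  true 1 89 89 29 0 5599440) (.nr 974 8193 (.nr 972 841 (.lg 0 true 2 73 73 31 0 799920) (.nx 973
  82572 (.lg 2 true 1 61 61 29 5164 5599440) .out)) .out)))) .out) .out) (.nx 987 1321124 (.nr 986
  524289 (.nr 978 118 .s1 (.nx 981 102 (.nx 980 101 (.nr 979 848 (.l1 (.ls 17 19 89)) (.l1 .sk))
  (.l1 .sk)) (.nx 982 8193 (.lg 0 true 1 83 83 19 0 72720) (.nr 985 8193 (.nr 983 513 (.lg 2 false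
  1 67 67 19 565397 72720) (.nx 984 82572 (.lg 2 true 1 47 47 19 8129 14544) .out)) .out)))) .out)
  .out)))) (.na 1021 126 (.na 999 121 (.nx 998 1321124 (.nr 997 524289 (.nr 989 119 .s1 (.nx 992
  102 (.nx 991 101 (.nr 990 862 (.l1 (.ls 16 16 88)) (.l1 .sk)) (.l1 .sk)) (.nx 993 8193 (.lg 0
  true 1 83 83 16 0 254520) (.nr 996 8193 (.nr 994 513 (.lg 2 true 1 61 61 16 560646 50904) (.nx
  995 82572 (.lg 2 false 1 59 59 16 8129 50904) .out)) .out)))) .out) .out) (.na 1010 125 (.nx 1009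
  1321124 (.nr 1008 524289 (.nr 1000 121 .s1 (.nx 1003 102 (.nx 1002 101 (.nr 1001 891 (.l1 (.ls 17
  17 87)) (.l1 .sk)) (.l1 .sk)) (.nx 1004 8193 (.lg 0 true 1 79 79 17 0 2799720) (.nr 1007 8193
  (.nr 1005 513 (.lg 2 false 1 61 61 17 551379 2799720) (.nx 1006 82572 (.lg 2 false 1 47 47 17
  8129 79992) .out)) .out)))) .out) .out) (.nx 1020 1321124 (.nr 1019 524289 (.nr 1011 125 .s1 (.nx
  1015 8193 (.nx 1013 101 (.nr 1012 898 (.l1 (.ls 17 17 84)) (.l1 .sk)) (.nx 1014 102 (.l1 .sk)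
  (.lg 0 true 1 79 79 16 0 399960))) (.nr 1018 8193 (.nr 1016 513 (.lg 2 false 1 59 59 16 533735
  36360) (.nx 1017 82572 (.lg 2 false 1 47 47 16 8129 36360) .out)) .out))) .out) .out))) (.na 1033
  130 (.na 1032 128 (.nx 1031 1321124 (.nr 1030 524289 (.nr 1022 126 .s1 (.nx 1025 102 (.nx 1024
  101 (.nr 1023 912 (.l1 (.ls 29 29 83)) (.l1 .sk)) (.l1 .sk)) (.nx 1026 8193 (.lg 0 true 1 83 83
  31 0 509040) (.nr 1029 8193 (.nr 1027 513 (.lg 2 true 1 61 61 31 529499 101808) (.nx 1028 82572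
  (.lg 2 false 1 59 59 31 8129 101808) .out)) .out)))) .out) .out) .ne) (.na 1043 131 (.nx 1042
  660563 (.nr 1041 1048577 (.nr 1034 130 .s1 (.nx 1035 205 (.l1 (.ls 79 37 326)) (.nr 1040 524289
  (.nx 1036 6503 (.lg 0 true 1 83 83 29 0 945360) (.nr 1039 8193 (.nr 1037 1025 (.lg 0 true 1 71 71
  29 0 945360) (.nx 1038 82572 (.lg 2 false 1 59 59 29 6506 945360) .out)) .out)) .out))) .out)
  .out) (.lg 0 false 1 0 0 16 0 24))))))) (.na 1252 210 (.na 1152 169 (.na 1096 153 (.na 1070 147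
  (.na 1052 135 (.nx 1051 660563 (.nr 1050 1048577 (.nr 1045 134 .s1 (.nx 1048 6503 (.nx 1046 205
  (.l1 (.ls 61 29 316)) (.nr 1047 524289 (.lg 0 true 1 79 79 19 0 72720) .out)) (.nr 1049 8193 (.lg
  0 false 1 83 83 19 0 72720) .out))) .out) .out) (.na 1062 137 (.nx 1061 660563 (.nr 1060 1048577
  (.nr 1053 135 .s1 (.nx 1056 6503 (.nx 1054 205 (.l1 (.ls 71 29 314)) (.nr 1055 524289 (.lg 0
  false 1 73 73 19 0 36360) .out)) (.nr 1059 8193 (.nr 1057 1025 (.lg 0 true 1 61 61 19 0 36360)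
  (.nx 1058 82572 (.lg 2 false 1 53 53 19 6506 254520) .out)) .out))) .out) .out) (.nx 1069 660563
  (.nr 1068 1048577 (.nr 1063 137 .s1 (.nx 1064 205 (.l1 (.ls 67 19 309)) (.nr 1067 524289 (.nr
  1065 8193 (.lg 0 false 1 73 73 16 0 7272) (.nx 1066 6503 (.lg 0 true 1 71 71 16 0 7272) .out))
  .out))) .out) .out))) (.na 1080 150 (.nx 1079 660563 (.nr 1078 1048577 (.nr 1071 147 .s1 (.nx
  1074 6503 (.nx 1072 205 (.l1 (.ls 71 29 288)) (.nr 1073 524289 (.lg 0 false 1 73 73 23 0 50904)
  .out)) (.nr 1077 8193 (.nr 1075 1025 (.lg 0 true 1 67 67 23 0 50904) (.nx 1076 82572 (.lg 2 false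
  1 53 53 23 6506 50904) .out)) .out))) .out) .out) (.na 1088 151 (.nx 1087 660563 (.nr 1086
  1048577 (.nr 1081 150 .s1 (.nx 1082 205 (.l1 (.ls 73 37 283)) (.nr 1085 524289 (.nr 1083 8193
  (.lg 0 false 1 83 83 31 0 72720) (.nx 1084 6503 (.lg 0 false 1 79 79 31 0 72720) .out)) .out)))
  .out) .out) (.nx 1095 660563 (.nr 1094 1048577 (.nr 1089 151 .s1 (.nx 1090 205 (.l1 (.ls 61 17
  281)) (.nr 1093 524289 (.nr 1091 8193 (.lg 0 false 1 73 73 16 0 254520) (.nx 1092 6503 (.lg 0
  true 1 71 71 16 0 7272) .out)) .out))) .out) .out)))) (.na 1120 162 (.na 1104 154 (.nx 1103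
  660563 (.nr 1102 1048577 (.nr 1097 153 .s1 (.nx 1098 205 (.l1 (.ls 71 29 277)) (.nr 1101 524289
  (.nr 1099 8193 (.lg 0 true 1 79 79 23 0 7272) (.nx 1100 6503 (.lg 0 false 1 73 73 23 0 7272)
  .out)) .out))) .out) .out) (.na 1112 157 (.nx 1111 660563 (.nr 1110 1048577 (.nr 1105 154 .s1
  (.nx 1106 205 (.l1 (.ls 79 31 275)) (.nr 1109 524289 (.nr 1107 8193 (.lg 0 false 1 83 83 31 0
  5599440) (.nx 1108 6503 (.lg 0 true 1 83 83 31 0 5599440) .out)) .out))) .out) .out) (.nx 1119
  660563 (.nr 1118 1048577 (.nr 1113 157 .s1 (.nx 1114 205 (.l1 (.ls 67 17 270)) (.nr 1117 524289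
  (.nr 1115 8193 (.lg 0 false 1 73 73 16 0 7272) (.nx 1116 6503 (.lg 0 true 1 71 71 16 0 7272)
  .out)) .out))) .out) .out))) (.na 1136 166 (.na 1128 163 (.nx 1127 660563 (.nr 1126 1048577 (.nr
  1121 162 .s1 (.nx 1122 205 (.l1 (.ls 67 31 262)) (.nr 1125 524289 (.nr 1123 8193 (.lg 0 false 1
  73 73 23 0 72720) (.nx 1124 6503 (.lg 0 true 1 71 71 23 0 14544) .out)) .out))) .out) .out) (.nx
  1135 660563 (.nr 1134 1048577 (.nr 1129 163 .s1 (.nx 1130 205 (.l1 (.ls 83 17 260)) (.nr 1133
  524289 (.nr 1131 8193 (.lg 0 false 1 73 73 16 0 7272) (.nx 1132 6503 (.lg 0 true 1 71 71 16 0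
  7272) .out)) .out))) .out) .out)) (.na 1144 167 (.nx 1143 660563 (.nr 1142 1048577 (.nr 1137 166
  .s1 (.nx 1138 205 (.l1 (.ls 79 29 256)) (.nr 1141 524289 (.nr 1139 8193 (.lg 0 false 1 83 83 19 0
  509040) (.nx 1140 6503 (.lg 0 true 1 73 73 19 0 509040) .out)) .out))) .out) .out) (.nx 1151
  660563 (.nr 1150 1048577 (.nr 1145 167 .s1 (.nx 1146 205 (.l1 (.ls 61 17 254)) (.nr 1149 524289
  (.nr 1147 8193 (.lg 0 false 1 71 71 16 0 36360) (.nx 1148 6503 (.lg 0 true 1 67 67 16 0 7272)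
  .out)) .out))) .out) .out))))) (.na 1194 194 (.na 1169 179 (.na 1160 170 (.nx 1159 660563 (.nr
  1158 1048577 (.nr 1153 169 .s1 (.nx 1154 205 (.l1 (.ls 67 19 251)) (.nr 1157 524289 (.nr 1155
  8193 (.lg 0 false 1 73 73 17 0 94536) (.nx 1156 6503 (.lg 0 true 1 71 71 17 0 94536) .out))
  .out))) .out) .out) (.na 1168 173 (.nx 1167 660563 (.nr 1166 1048577 (.nr 1161 170 .s1 (.nx 1162
  205 (.l1 (.ls 79 31 250)) (.nr 1165 524289 (.nr 1163 8193 (.lg 0 false 1 89 89 31 0 509040) (.nx
  1164 6503 (.lg 0 true 1 83 83 31 0 509040) .out)) .out))) .out) .out) (.lg 0 false 1 0 0 16 0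
  24))) (.na 1178 185 (.na 1170 182 (.lg 0 false 1 0 0 16 0 24) (.nx 1177 660563 (.nr 1176 1048577
  (.nr 1171 182 .s1 (.nx 1172 205 (.l1 (.ls 73 31 233)) (.nr 1175 524289 (.nr 1173 8193 (.lg 0
  false 1 83 83 31 0 6617520) (.nx 1174 6503 (.lg 0 false 1 79 79 31 0 1323504) .out)) .out)))
  .out) .out)) (.na 1186 189 (.nx 1185 660563 (.nr 1184 1048577 (.nr 1179 185 .s1 (.nx 1180 205
  (.l1 (.ls 71 19 230)) (.nr 1183 524289 (.nr 1181 8193 (.lg 0 true 1 79 79 19 0 36360) (.nx 1182
  6503 (.lg 0 false 1 73 73 19 0 36360) .out)) .out))) .out) .out) (.nx 1193 660563 (.nr 1192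
  1048577 (.nr 1187 189 .s1 (.nx 1188 205 (.l1 (.ls 71 23 225)) (.nr 1191 524289 (.nr 1189 8193
  (.lg 0 true 1 73 73 23 0 50904) (.nx 1190 6503 (.lg 0 false 1 73 73 23 0 50904) .out)) .out)))
  .out) .out)))) (.na 1218 199 (.na 1202 195 (.nx 1201 660563 (.nr 1200 1048577 (.nr 1195 194 .s1
  (.nx 1196 205 (.l1 (.ls 79 23 219)) (.nr 1199 524289 (.nr 1197 8193 (.lg 0 false 1 73 73 19 0
  14544) (.nx 1198 6503 (.lg 0 true 1 73 73 19 0 14544) .out)) .out))) .out) .out) (.na 1210 198
  (.nx 1209 660563 (.nr 1208 1048577 (.nr 1203 195 .s1 (.nx 1204 205 (.l1 (.ls 73 29 218)) (.nr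
  1207 524289 (.nr 1205 8193 (.lg 0 true 1 83 83 31 0 472680) (.nx 1206 6503 (.lg 0 false 1 79 79
  31 0 472680) .out)) .out))) .out) .out) (.nx 1217 660563 (.nr 1216 1048577 (.nr 1211 198 .s1 (.nx
  1214 6503 (.nx 1212 205 (.l1 (.ls 73 37 215)) (.nr 1213 524289 (.lg 0 false 1 73 73 31 0 159984)
  .out)) (.nr 1215 8193 (.lg 0 true 1 79 79 31 0 159984) .out))) .out) .out))) (.na 1234 202 (.na
  1226 201 (.nx 1225 660563 (.nr 1224 1048577 (.nr 1219 199 .s1 (.nx 1220 205 (.l1 (.ls 61 17 214))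
  (.nr 1223 524289 (.nr 1221 8193 (.lg 0 false 1 71 71 16 0 254520) (.nx 1222 6503 (.lg 0 true 1 67
  67 16 0 7272) .out)) .out))) .out) .out) (.nx 1233 660563 (.nr 1232 1048577 (.nr 1227 201 .s1
  (.nx 1228 205 (.l1 (.ls 61 23 212)) (.nr 1231 524289 (.nr 1229 8193 (.lg 0 true 1 73 73 19 0
  7272) (.nx 1230 6503 (.lg 0 false 1 73 73 19 0 7272) .out)) .out))) .out) .out)) (.na 1244 206
  (.nx 1243 660563 (.nr 1242 1048577 (.nr 1235 202 .s1 (.nx 1236 205 (.l1 (.ls 61 23 211)) (.nr
  1241 524289 (.nr 1238 8193 (.lg 0 false 2 67 67 23 0 799920) (.nx 1240 6503 (.lg 0 true 2 61 61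
  23 0 14544) .out)) .out))) .out) .out) (.nx 1251 660563 (.nr 1250 1048577 (.nr 1245 206 .s1 (.nx
  1248 6503 (.nx 1246 205 (.l1 (.ls 67 23 207)) (.nr 1247 524289 (.lg 0 true 1 71 71 23 0 14544)
  .out)) (.nr 1249 8193 (.lg 0 false 1 73 73 23 0 509040) .out))) .out) .out)))))) (.na 1350 256
  (.na 1294 234 (.na 1269 222 (.na 1260 211 (.nx 1259 660563 (.nr 1258 1048577 (.nr 1253 210 .s1
  (.nx 1254 205 (.l1 (.ls 79 37 203)) (.nr 1257 524289 (.nr 1255 8193 (.lg 0 true 1 83 83 41 0
  509040) (.nx 1256 6503 (.lg 0 false 1 79 83 41 0 509040) .out)) .out))) .out) .out) (.na 1261 221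
  (.lg 0 false 1 0 0 16 0 24) (.nx 1268 660563 (.nr 1267 1048577 (.nr 1262 221 .s1 (.nx 1263 205
  (.l1 (.ls 73 23 193)) (.nr 1266 524289 (.nr 1264 8193 (.lg 0 true 1 79 79 23 0 94536) (.nx 1265
  6503 (.lg 0 false 1 73 73 23 0 94536) .out)) .out))) .out) .out))) (.na 1278 231 (.na 1277 227
  (.nx 1276 660563 (.nr 1275 1048577 (.nr 1270 222 .s1 (.nx 1271 205 (.l1 (.ls 73 31 192)) (.nr
  1274 524289 (.nr 1272 8193 (.lg 0 true 1 79 79 31 0 14544) (.nx 1273 6503 (.lg 0 false 1 73 73 31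
  0 14544) .out)) .out))) .out) .out) (.lg 0 false 1 0 0 16 0 24)) (.na 1286 233 (.nx 1285 660563
  (.nr 1284 1048577 (.nr 1279 231 .s1 (.nx 1280 205 (.l1 (.ls 73 29 184)) (.nr 1283 524289 (.nr
  1281 8193 (.lg 0 true 1 83 83 31 0 2799720) (.nx 1282 6503 (.lg 0 false 1 79 79 31 0 2799720)
  .out)) .out))) .out) .out) (.nx 1293 660563 (.nr 1292 1048577 (.nr 1287 233 .s1 (.nx 1288 205
  (.l1 (.ls 61 17 183)) (.nr 1291 524289 (.nr 1289 8193 (.lg 0 false 1 71 71 17 0 254520) (.nx 1290
  6503 (.lg 0 true 1 67 67 17 0 7272) .out)) .out))) .out) .out)))) (.na 1318 243 (.na 1302 238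
  (.nx 1301 660563 (.nr 1300 1048577 (.nr 1295 234 .s1 (.nx 1296 205 (.l1 (.ls 71 37 182)) (.nr
  1299 524289 (.nr 1297 8193 (.lg 0 true 1 73 73 37 0 189072) (.nx 1298 6503 (.lg 0 false 1 73 73
  37 0 189072) .out)) .out))) .out) .out) (.na 1310 242 (.nx 1309 660563 (.nr 1308 1048577 (.nr
  1303 238 .s1 (.nx 1304 205 (.l1 (.ls 73 31 179)) (.nr 1307 524289 (.nr 1305 8193 (.lg 0 true 1 79
  79 31 0 101808) (.nx 1306 6503 (.lg 0 false 1 73 73 31 0 101808) .out)) .out))) .out) .out) (.nx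
  1317 660563 (.nr 1316 1048577 (.nr 1311 242 .s1 (.nx 1312 205 (.l1 (.ls 67 29 176)) (.nr 1315
  524289 (.nr 1313 8193 (.lg 0 false 1 73 73 29 0 159984) (.nx 1314 6503 (.lg 0 true 1 71 71 29 0
  159984) .out)) .out))) .out) .out))) (.na 1334 250 (.na 1326 249 (.nx 1325 660563 (.nr 1324
  1048577 (.nr 1319 243 .s1 (.nx 1320 205 (.l1 (.ls 73 19 175)) (.nr 1323 524289 (.nr 1321 8193
  (.lg 0 false 1 71 71 19 0 254520) (.nx 1322 6503 (.lg 0 true 1 67 67 19 0 254520) .out)) .out)))
  .out) .out) (.nx 1333 660563 (.nr 1332 1048577 (.nr 1327 249 .s1 (.nx 1328 205 (.l1 (.ls 67 19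
  171)) (.nr 1331 524289 (.nr 1329 8193 (.lg 0 true 1 71 71 23 0 7272) (.nx 1330 6503 (.lg 0 false
  1 67 67 23 0 7272) .out)) .out))) .out) .out)) (.na 1342 254 (.nx 1341 660563 (.nr 1340 1048577
  (.nr 1335 250 .s1 (.nx 1336 205 (.l1 (.ls 67 29 171)) (.nr 1339 524289 (.nr 1337 8193 (.lg 0
  false 1 73 73 29 0 509040) (.nx 1338 6503 (.lg 0 true 1 71 71 29 0 509040) .out)) .out))) .out)
  .out) (.nx 1349 660563 (.nr 1348 1048577 (.nr 1343 254 .s1 (.nx 1344 205 (.l1 (.ls 71 23 168))
  (.nr 1347 524289 (.nr 1345 8193 (.lg 0 false 1 71 71 23 0 14544) (.nx 1346 6503 (.lg 0 true 1 67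
  67 23 0 14544) .out)) .out))) .out) .out))))) (.na 4581 2897 (.na 2295 725 (.na 1351 257 .ne (.na
  1865 512 (.nx 1864 82572 (.nr 1863 1048577 (.nr 1352 257 .s1 (.nx 1607 647 (.la (.ls 73 31 1631))
  (.nr 1862 262145 (.la (.lg 0 false 1 79 79 23 0)) .out))) .out) .out) (.nx 2294 82572 (.nr 2293
  1048577 (.nr 1866 512 .s1 (.nx 2079 647 (.la (.ls 89 29 820)) (.nr 2292 262145 (.la (.lg 0 false
  1 73 73 29 0)) .out))) .out) .out))) (.na 3025 1449 (.na 2597 1024 (.nx 2596 3252 (.nr 2595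
  262145 (.nr 2296 725 .s1 (.la (.ls 59 43 14589))) .out) .out) (.nx 3024 3252 (.nr 3023 262145
  (.nr 2598 1024 .s1 (.la (.ls 59 41 10330))) .out) .out)) (.na 3627 2048 (.nx 3626 1627 (.nr 3625
  131073 (.nr 3026 1449 .s1 (.la (.ls 61 31 1829))) .out) .out) (.nx 4580 1627 (.nr 4579 131073
  (.nr 3628 2048 .s1 (.nx 3729 101 (.nr 3728 20639 (.lx (.lp 43 29 725)) (.l1 .sk)) (.nx 3730 102
  (.l1 .sk) (.la (.ls 59 31 1290))))) .out) .out)))) (.na 6530 16384 (.na 5231 4096 (.nx 5230 647
  (.nr 5229 65537 (.nr 4582 2897 .s1 (.nx 4744 163 (.lx (.lp 47 31 1025)) (.nr 5228 32769 (.lx (.lp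
  43 31 1025)) .out))) .out) .out) (.na 5881 8192 (.nx 5880 647 (.nr 5879 65537 (.nr 5232 4096 .s1
  (.nx 5394 163 (.lx (.lp 47 37 2049)) (.nr 5878 32769 (.lx (.lp 43 37 2049)) .out))) .out) .out)
  (.nx 6529 647 (.nr 6528 65537 (.nr 5882 8192 .s1 (.lx (.lp 43 41 4097))) .out) .out))) (.na 7506
  65536 (.na 7180 32768 (.nx 7179 647 (.nr 7178 131073 (.nr 6531 16384 .s1 (.nx 6693 163 (.lx (.lp
  16 0 8193)) (.nr 7177 65537 (.lx (.lp 41 43 8193)) .out))) .out) .out) (.nx 7505 324 (.nr 7504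
  131073 (.nr 7181 32768 .s1 (.lx (.lp 16 43 16385))) .out) .out)) (.na 7832 131073 (.nx 7831 324
  (.nr 7830 262145 (.nr 7507 65536 .s1 (.lx (.lp 16 47 32769))) .out) .out) .out)))))))

def T6_1 : Ph :=
  (.na 1008 132 (.na 778 54 (.na 613 18 (.na 374 6 (.na 203 3 (.na 1 2 .ne (.nx 202 3329023 (.nr
  201 623489 (.nx 182 1664512 (.nx 4 133 (.nx 3 132 (.nr 2 22 (.lg 0 true 1 37 37 5 0 528) (.l1
  .sk)) (.l1 .sk)) (.nx 83 26009 (.nr 69 131073 (.lg 0 false 65 97 103 13 0 720720) (.nx 82 257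
  (.lg 0 false 13 79 79 9 0 6864) .out)) (.nr 181 110219 (.nr 118 450 (.lg 0 true 35 83 89 13 0
  18480) (.nx 180 416129 (.nx 128 32769 (.lg 1 false 10 97 101 9 36964 55440) (.nr 179 92683 (.nx
  138 44591 (.lg 1 false 10 97 101 9 24677 55440) (.nr 165 55110 (.nr 151 2437 (.lg 2 true 13 83 89
  9 61033 6864) (.nx 164 330282 (.lg 2 false 13 101 103 9 10794 720720) .out)) (.nx 178 131073 (.lg
  2 false 13 103 103 9 18135 720720) .out))) .out)) .out)) .out))) (.nr 200 9 (.lg 0 true 18 67 67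
  9 0 1584) .out)) .out) .out)) (.na 204 4 .ne (.na 373 5 (.nx 372 13316087 (.nr 371 1246976 (.nx
  207 133 (.nx 206 132 (.nr 205 40 (.lg 0 true 1 37 37 9 0 7920) (.l1 .sk)) (.l1 .sk)) (.nx 321
  1664512 (.nx 234 18062 (.nr 220 110219 (.lg 0 false 13 101 103 13 0 102960) (.nx 233 1627 (.nr
  225 155873 (.lg 0 false 5 83 89 11 0 7920) (.nx 232 257 (.lg 0 false 7 83 83 11 0 3696) .out))
  .out)) (.nr 320 131073 (.nx 306 416129 (.nr 247 729 (.lg 0 true 13 89 89 13 0 102960) (.nx 255
  26007 (.nr 254 110219 (.lg 1 false 7 101 103 11 53229 720720) .out) (.nx 269 52015 (.nx 262 36779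
  (.lg 1 false 7 97 103 11 43953 55440) (.lg 1 false 7 97 103 11 31080 55440)) (.nr 276 5810 (.lg 2
  true 7 89 97 11 37675 55440) (.nx 290 104033 (.nx 283 73561 (.lg 1 false 7 101 103 11 21976
  720720) (.lg 1 true 7 97 103 11 15540 55440)) (.nr 305 92683 (.nx 297 131073 (.lg 1 true 7 97 101
  11 7773 55440) (.nr 304 55110 (.lg 2 false 7 97 101 11 4728 55440) .out)) .out)))))) (.nr 319 183
  (.lg 0 true 13 83 83 13 0 6864) .out)) .out)) (.nr 370 21 (.nx 342 6658044 (.lg 0 true 21 79 79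
  11 0 11088) (.lg 0 true 28 79 79 11 0 3696)) .out))) .out) .out) .ne))) (.na 513 12 (.na 512 7
  (.nx 511 13316087 (.nr 510 623489 (.nx 459 832257 (.nx 376 132 (.nr 375 56 (.lg 0 true 1 31 31 7
  0 1584) (.l1 .sk)) (.nx 377 133 (.l1 .sk) (.nx 378 205 (.l1 (.ls 83 47 4059)) (.nr 458 370729
  (.nx 405 20642 (.nr 391 131073 (.lg 0 false 13 101 101 13 0 720720) (.nx 404 1627 (.lg 0 false 13
  89 89 13 0 720720) .out)) (.nr 457 155873 (.nr 418 1026 (.lg 0 true 13 89 89 13 0 20592) (.nx 456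
  660563 (.nx 432 52015 (.nr 431 131073 (.lg 1 false 13 97 101 13 55377 720720) .out) (.nx 445
  131073 (.lg 1 true 13 97 103 13 26130 720720) (.nr 455 65537 (.nr 450 8201 (.lg 2 true 5 89 89 11
  42493 55440) (.lg 2 false 5 89 89 11 5317 55440)) .out))) .out)) .out)) .out)))) (.nr 509 129
  (.nr 498 56 (.lg 0 true 39 79 79 13 0 20592) (.nx 508 1664512 (.lg 0 true 10 71 71 13 0 7920)
  .out)) .out)) .out) .out) .ne) (.na 555 14 (.nx 554 1664512 (.nr 553 623489 (.nr 514 4 .s1 (.nx
  517 133 (.nx 516 132 (.nr 515 114 (.lg 0 true 1 29 29 13 0 1584) (.l1 .sk)) (.l1 .sk)) (.nr 547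
  155873 (.nx 522 19482 (.lg 0 false 5 97 97 17 0 7920) (.nr 546 110219 (.nr 533 829 (.nx 527
  524289 (.lg 0 true 5 79 79 17 0 7920) (.nr 532 65 (.lg 0 true 5 67 67 17 0 7920) .out)) (.nx 545
  416129 (.nx 538 65537 (.lg 1 false 5 97 101 17 49349 55440) (.nr 544 92683 (.nr 539 3171 (.lg 2
  false 1 83 83 13 33130 1584) (.lg 2 false 5 97 97 17 12339 55440)) .out)) .out)) .out)) (.nx 552
  1292 (.lg 0 false 5 83 83 17 0 7920) .out)))) .out) .out) (.na 612 16 (.nx 611 1664512 (.nr 610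
  623489 (.nr 556 9 .s1 (.nx 604 524289 (.nx 558 132 (.nr 557 130 (.lg 0 false 1 31 31 11 0 55440)
  (.l1 .sk)) (.nx 559 133 (.l1 .sk) (.nr 598 155873 (.nx 564 10323 (.lg 0 false 5 89 89 13 0 18480)
  (.nr 597 110219 (.nr 569 829 (.lg 0 true 5 79 79 13 0 18480) (.nx 596 416129 (.nr 578 46342 (.lg
  2 true 9 79 79 19 39224 11088) (.nx 595 208065 (.nx 591 131073 (.lg 0 true 13 97 103 19 0 720720)
  (.nr 594 55110 (.lg 0 true 3 97 97 13 0 55440) .out)) .out)) .out)) .out)) (.nx 603 1292 (.lg 0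
  false 5 83 83 13 0 18480) .out)))) (.nr 609 65 (.lg 0 true 5 71 71 13 0 18480) .out))) .out)
  .out) .ne)))) (.na 676 34 (.na 649 23 (.na 614 22 (.lg 0 false 1 0 0 7 0 24) (.nx 648 1664512
  (.nr 647 1048577 (.nr 615 19 .s1 (.nx 619 257 (.nx 617 132 (.nr 616 187 (.l1 (.ls 17 37 794))
  (.l1 .sk)) (.nx 618 133 (.l1 .sk) (.l1 (.ls 73 41 2201)))) (.nr 646 623489 (.nx 629 13005 (.lg 0
  false 10 89 89 19 0 55440) (.nr 645 92683 (.nr 639 634 (.lg 0 true 10 71 71 19 0 2640) (.nx 644
  262145 (.lg 2 true 5 97 97 13 62179 55440) .out)) .out)) .out))) .out) .out)) (.na 650 28 .ne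
  (.na 675 32 (.nx 674 1664512 (.nr 673 1048577 (.nr 651 26 .s1 (.nx 654 133 (.nx 653 132 (.nr 652
  261 (.l1 (.ls 29 31 625)) (.l1 .sk)) (.l1 .sk)) (.nx 655 257 (.l1 (.ls 83 41 1730)) (.nr 672
  311745 (.nx 660 20644 (.lg 0 false 5 97 101 23 0 55440) (.nr 671 77937 (.nr 665 513 (.lg 0 true 5
  79 79 23 0 18480) (.nx 670 165142 (.lg 2 false 5 83 97 23 32947 55440) .out)) .out)) .out))))
  .out) .out) .ne))) (.na 721 42 (.na 701 36 (.nx 700 1664512 (.nr 699 881745 (.nr 677 33 .s1 (.nx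
  678 257 (.l1 (.ls 83 41 1945)) (.nr 698 440873 (.nx 683 10323 (.lg 0 false 5 89 89 13 0 2640)
  (.nr 697 110219 (.nx 691 104033 (.nr 688 32769 (.lg 0 false 5 83 83 13 0 2640) (.nx 690 26009
  (.lg 0 true 2 97 97 13 0 55440) .out)) (.nr 696 257 (.lg 0 true 5 71 71 13 0 2640) .out)) .out))
  .out))) .out) .out) (.na 702 38 (.lg 0 false 1 0 0 7 0 24) (.nx 720 1664512 (.nr 719 881745 (.nr
  703 37 .s1 (.nx 710 20644 (.nx 704 257 (.l1 (.ls 79 41 1741)) (.nr 709 440873 (.lg 0 false 5 89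
  89 17 0 2640) .out)) (.nr 718 46342 (.nr 715 342 (.lg 0 true 5 71 71 17 0 2640) (.nx 717 104033
  (.lg 2 true 2 83 83 13 20077 1584) .out)) .out))) .out) .out))) (.na 740 44 (.nx 739 1664512 (.nr
  738 881745 (.nr 722 41 .s1 (.nx 729 20644 (.nx 723 257 (.l1 (.ls 73 43 1575)) (.nr 728 440873
  (.lg 0 false 5 89 89 29 0 55440) .out)) (.nr 737 46342 (.nr 734 358 (.lg 0 true 5 71 71 29 0
  55440) (.nx 736 104033 (.lg 2 true 2 79 79 23 19614 11088) .out)) .out))) .out) .out) (.na 759 46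
  (.nx 758 1664512 (.nr 757 881745 (.nr 741 43 .s1 (.nx 742 257 (.l1 (.ls 73 41 1504)) (.nr 756
  440873 (.nx 747 20644 (.lg 0 false 5 83 89 23 0 2640) (.nr 755 46342 (.nr 752 375 (.lg 0 true 5
  67 67 23 0 2640) (.nx 754 104033 (.lg 2 false 2 79 79 19 19614 528) .out)) .out)) .out))) .out)
  .out) (.nx 777 1664512 (.nr 776 881745 (.nr 760 45 .s1 (.nx 769 20644 (.nx 761 257 (.l1 (.ls 79
  41 1438)) (.nr 768 623489 (.lg 0 false 7 89 97 19 0 55440) .out)) (.nr 775 46342 (.nr 772 257
  (.lg 0 true 3 67 67 13 0 1584) (.nx 774 104033 (.lg 2 false 2 79 79 13 26717 528) .out)) .out)))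
  .out) .out)))))) (.na 899 91 (.na 828 74 (.na 794 64 (.na 779 58 (.lg 0 false 1 0 0 16 0 24) (.nx
  793 1664512 (.nr 792 881745 (.nr 780 57 .s1 (.nx 781 257 (.l1 (.ls 73 41 1141)) (.nr 791 623489
  (.nx 786 20644 (.lg 0 false 5 89 89 19 0 2640) (.nr 790 46342 (.nr 788 257 (.lg 0 true 2 61 61 13
  0 528) (.nx 789 104033 (.lg 2 true 1 83 83 13 26717 528) .out)) .out)) .out))) .out) .out)) (.na
  795 66 .ne (.na 812 68 (.nx 811 1664512 (.nr 810 524289 (.nr 796 65 .s1 (.nx 799 133 (.nx 798 132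
  (.nr 797 554 (.l1 (.ls 17 37 266)) (.l1 .sk)) (.l1 .sk)) (.nx 804 20644 (.lg 0 false 5 79 79 29 0
  7920) (.nr 809 32769 (.nr 806 513 (.lg 0 false 2 71 71 23 0 7920) (.nx 808 104033 (.lg 2 true 2
  67 67 23 13885 7920) .out)) .out)))) .out) .out) (.nx 827 1664512 (.nr 826 524289 (.nr 813 68 .s1
  (.nx 821 20644 (.nx 815 132 (.nr 814 603 (.l1 (.ls 16 29 259)) (.l1 .sk)) (.nx 816 133 (.l1 .sk)
  (.lg 0 false 5 89 97 29 0 55440))) (.nr 825 32769 (.nr 823 513 (.lg 0 true 2 71 71 23 0 528) (.nx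
  824 104033 (.lg 2 true 1 79 79 13 13885 528) .out)) .out))) .out) .out)))) (.na 856 82 (.na 843
  76 (.nx 842 1664512 (.nr 841 524289 (.nr 829 74 .s1 (.nx 832 133 (.nx 831 132 (.nr 830 619 (.l1
  (.ls 23 23 238)) (.l1 .sk)) (.l1 .sk)) (.nx 835 20644 (.lg 0 false 3 89 89 19 0 1584) (.nr 840
  32769 (.nr 838 513 (.lg 0 true 3 71 71 19 0 1584) (.nx 839 104033 (.lg 2 true 1 73 73 13 13885
  528) .out)) .out)))) .out) .out) (.nx 855 1664512 (.nr 854 524289 (.nr 844 76 .s1 (.nx 847 133
  (.nx 846 132 (.nr 845 668 (.l1 (.ls 17 29 232)) (.l1 .sk)) (.l1 .sk)) (.nx 849 20644 (.lg 0 false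
  2 101 101 23 0 55440) (.nr 853 32769 (.nr 851 513 (.lg 0 true 2 73 73 23 0 528) (.nx 852 104033
  (.lg 2 true 1 79 79 17 13885 528) .out)) .out)))) .out) .out)) (.na 873 84 (.nx 872 1664512 (.nr
  871 524289 (.nr 857 82 .s1 (.nx 865 20644 (.nx 859 132 (.nr 858 684 (.l1 (.ls 19 23 215)) (.l1
  .sk)) (.nx 860 133 (.l1 .sk) (.lg 0 false 5 83 83 23 0 2640))) (.nr 870 32769 (.nr 868 513 (.lg 0
  true 3 67 67 19 0 1584) (.nx 869 104033 (.lg 2 true 1 73 73 13 13885 528) .out)) .out))) .out)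
  .out) (.na 886 86 (.nx 885 1664512 (.nr 884 524289 (.nr 874 84 .s1 (.nx 879 20644 (.nx 876 132
  (.nr 875 700 (.l1 (.ls 31 31 210)) (.l1 .sk)) (.nx 877 133 (.l1 .sk) (.lg 0 false 2 97 97 31 0
  55440))) (.nr 883 32769 (.nr 881 513 (.lg 0 true 2 71 71 31 0 11088) (.nx 882 104033 (.lg 2 true
  1 73 73 29 13885 11088) .out)) .out))) .out) .out) (.nx 898 1664512 (.nr 897 524289 (.nr 887 86
  .s1 (.nx 889 132 (.nr 888 741 (.l1 (.ls 23 23 205)) (.l1 .sk)) (.nx 890 133 (.l1 .sk) (.nx 893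
  20644 (.lg 0 false 3 89 89 19 0 1584) (.nr 896 32769 (.nr 894 513 (.lg 0 false 1 73 73 13 0 528)
  (.nx 895 104033 (.lg 2 true 1 73 73 13 13885 528) .out)) .out))))) .out) .out))))) (.na 964 108
  (.na 916 94 (.na 900 92 .ne (.nx 915 1664512 (.nr 914 1048577 (.nr 901 92 .s1 (.nx 904 133 (.nx
  903 132 (.nr 902 766 (.l1 (.ls 19 19 192)) (.l1 .sk)) (.l1 .sk)) (.nx 909 20644 (.lg 0 false 5 89
  101 31 0 55440) (.nr 913 32769 (.nr 911 513 (.lg 0 true 2 71 71 19 0 528) (.nx 912 104033 (.lg 2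
  false 1 73 73 19 13885 528) .out)) .out)))) .out) .out)) (.na 932 98 (.nx 931 1664512 (.nr 930
  1048577 (.nr 917 94 .s1 (.nx 925 20644 (.nx 919 132 (.nr 918 798 (.l1 (.ls 19 23 188)) (.l1 .sk))
  (.nx 920 133 (.l1 .sk) (.lg 0 false 5 89 89 23 0 7920))) (.nr 929 32769 (.nr 927 513 (.lg 0 true
  2 67 67 19 0 528) (.nx 928 104033 (.lg 2 true 1 71 71 17 13885 528) .out)) .out))) .out) .out)
  (.na 948 102 (.nx 947 1664512 (.nr 946 1048577 (.nr 933 98 .s1 (.nx 941 20644 (.nx 935 132 (.nr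
  934 831 (.l1 (.ls 19 29 180)) (.l1 .sk)) (.nx 936 133 (.l1 .sk) (.lg 0 false 5 83 83 29 0
  18480))) (.nr 945 32769 (.nr 943 513 (.lg 0 true 2 61 61 23 0 3696) (.nx 944 104033 (.lg 2 true 1
  67 67 19 13885 3696) .out)) .out))) .out) .out) (.nx 963 1664512 (.nr 962 1048577 (.nr 949 102
  .s1 (.nx 952 133 (.nx 951 132 (.nr 950 879 (.l1 (.ls 16 31 173)) (.l1 .sk)) (.l1 .sk)) (.nx 957
  20644 (.lg 0 false 5 83 83 31 0 7920) (.nr 961 32769 (.nr 959 513 (.lg 0 true 2 61 61 29 0 1584)
  (.nx 960 104033 (.lg 2 true 1 71 71 29 13885 1584) .out)) .out)))) .out) .out)))) (.na 991 118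
  (.na 965 114 (.lg 0 false 1 0 0 16 0 24) (.na 978 116 (.nx 977 1664512 (.nr 976 1048577 (.nr 966
  114 .s1 (.nx 972 20644 (.nx 968 132 (.nr 967 945 (.l1 (.ls 17 31 155)) (.l1 .sk)) (.nx 969 133
  (.l1 .sk) (.lg 0 false 3 89 89 31 0 1584))) (.nr 975 32769 (.nr 973 513 (.lg 2 false 1 71 71 29
  963665 1584) (.nx 974 104033 (.lg 2 true 1 71 71 29 13885 1584) .out)) .out))) .out) .out) (.nx
  990 1664512 (.nr 989 1048577 (.nr 979 116 .s1 (.nx 981 132 (.nr 980 961 (.l1 (.ls 23 23 153))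
  (.l1 .sk)) (.nx 982 133 (.l1 .sk) (.nx 984 13005 (.lg 0 false 2 97 97 23 0 7920) (.nr 988 65537
  (.nr 986 513 (.lg 0 true 2 71 71 23 0 528) (.nx 987 104033 (.lg 1 false 1 89 89 19 43994 7920)
  .out)) .out))))) .out) .out))) (.na 1006 126 (.nx 1005 1664512 (.nr 1004 1048577 (.nr 992 118 .s1
  (.nx 995 133 (.nx 994 132 (.nr 993 1026 (.l1 (.ls 19 23 150)) (.l1 .sk)) (.l1 .sk)) (.nx 1000
  20644 (.lg 0 false 5 83 83 23 0 2640) (.nr 1003 32769 (.nr 1001 513 (.lg 2 false 1 71 71 19
  930999 11088) (.nx 1002 104033 (.lg 2 true 1 71 71 19 13885 11088) .out)) .out)))) .out) .out)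
  (.na 1007 128 (.lg 0 false 1 0 0 16 0 24) .ne)))))) (.na 1186 242 (.na 1100 182 (.na 1059 158
  (.na 1028 142 (.na 1018 138 (.nx 1017 832257 (.nr 1016 1048577 (.nr 1009 132 .s1 (.nx 1010 257
  (.l1 (.ls 67 41 503)) (.nr 1015 741457 (.nx 1011 13005 (.lg 0 true 1 83 83 29 0 11088) (.nr 1014
  16385 (.nr 1012 1025 (.lg 0 false 1 67 67 29 0 11088) (.nx 1013 104033 (.lg 2 true 1 59 59 29
  11066 11088) .out)) .out)) .out))) .out) .out) (.nx 1027 832257 (.nr 1026 1048577 (.nr 1019 138
  .s1 (.nx 1020 257 (.l1 (.ls 71 41 481)) (.nr 1025 741457 (.nx 1021 13005 (.lg 0 true 1 89 89 19 0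
  11088) (.nr 1024 16385 (.nr 1022 1025 (.lg 0 false 1 71 71 19 0 1584) (.nx 1023 104033 (.lg 2
  true 1 61 61 19 11066 1584) .out)) .out)) .out))) .out) .out)) (.na 1038 148 (.nx 1037 832257
  (.nr 1036 1048577 (.nr 1029 142 .s1 (.nx 1032 13005 (.nx 1030 257 (.l1 (.ls 67 29 468)) (.nr 1031
  741457 (.lg 0 true 1 83 83 19 0 528) .out)) (.nr 1035 16385 (.nr 1033 1025 (.lg 0 false 1 61 61
  19 0 528) (.nx 1034 104033 (.lg 2 true 1 53 53 19 11066 528) .out)) .out))) .out) .out) (.na 1049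
  154 (.nx 1048 832257 (.nr 1047 1048577 (.nr 1039 148 .s1 (.nx 1043 13005 (.nx 1040 257 (.l1 (.ls
  73 29 449)) (.nr 1042 741457 (.lg 0 false 2 89 89 23 0 11088) .out)) (.nr 1046 16385 (.nr 1044
  1025 (.lg 0 true 1 67 67 23 0 528) (.nx 1045 104033 (.lg 2 false 1 67 67 23 11066 528) .out))
  .out))) .out) .out) (.nx 1058 832257 (.nr 1057 1048577 (.nr 1050 154 .s1 (.nx 1051 257 (.l1 (.ls
  71 37 431)) (.nr 1056 741457 (.nx 1052 13005 (.lg 0 true 1 83 83 29 0 3696) (.nr 1055 16385 (.nr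
  1053 1025 (.lg 0 false 1 67 67 29 0 3696) (.nx 1054 104033 (.lg 2 true 1 59 59 29 11066 3696)
  .out)) .out)) .out))) .out) .out)))) (.na 1070 164 (.na 1069 162 (.nx 1068 832257 (.nr 1067
  1048577 (.nr 1060 158 .s1 (.nx 1063 13005 (.nx 1061 257 (.l1 (.ls 61 29 421)) (.nr 1062 741457
  (.lg 0 true 1 83 83 19 0 1584) .out)) (.nr 1066 16385 (.nr 1064 1025 (.lg 0 false 1 61 61 19 0
  1584) (.nx 1065 104033 (.lg 2 true 1 53 53 19 11066 1584) .out)) .out))) .out) .out) (.lg 0 false
  1 0 0 16 0 24)) (.na 1080 172 (.nx 1079 832257 (.nr 1078 1048577 (.nr 1071 164 .s1 (.nx 1074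
  13005 (.nx 1072 257 (.l1 (.ls 73 29 405)) (.nr 1073 741457 (.lg 0 true 1 89 89 23 0 7920) .out))
  (.nr 1077 16385 (.nr 1075 1025 (.lg 0 true 1 67 67 23 0 528) (.nx 1076 104033 (.lg 2 false 1 61
  61 23 11066 528) .out)) .out))) .out) .out) (.na 1090 174 (.nx 1089 832257 (.nr 1088 1048577 (.nr
  1081 172 .s1 (.nx 1084 13005 (.nx 1082 257 (.l1 (.ls 71 29 387)) (.nr 1083 741457 (.lg 0 false 1
  79 79 23 0 528) .out)) (.nr 1087 16385 (.nr 1085 1025 (.lg 0 true 1 67 67 23 0 528) (.nx 1086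
  104033 (.lg 2 false 1 61 61 23 11066 528) .out)) .out))) .out) .out) (.nx 1099 832257 (.nr 1098
  1048577 (.nr 1091 174 .s1 (.nx 1094 13005 (.nx 1092 257 (.l1 (.ls 73 37 382)) (.nr 1093 741457
  (.lg 0 true 1 89 89 23 0 55440) .out)) (.nr 1097 16385 (.nr 1095 1025 (.lg 0 false 1 71 71 23 0
  55440) (.nx 1096 104033 (.lg 2 true 1 61 61 23 11066 55440) .out)) .out))) .out) .out))))) (.na
  1130 202 (.na 1111 194 (.na 1101 188 .ne (.nx 1110 832257 (.nr 1109 1048577 (.nr 1102 188 .s1
  (.nx 1105 13005 (.nx 1103 257 (.l1 (.ls 73 29 354)) (.nr 1104 741457 (.lg 0 false 1 83 83 23 0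
  528) .out)) (.nr 1108 16385 (.nr 1106 1025 (.lg 0 true 1 67 67 23 0 528) (.nx 1107 104033 (.lg 2
  false 1 61 61 23 11066 528) .out)) .out))) .out) .out)) (.na 1119 196 (.nx 1118 832257 (.nr 1117
  1048577 (.nr 1112 194 .s1 (.nx 1113 257 (.l1 (.ls 79 29 343)) (.nr 1116 741457 (.nr 1114 16385
  (.lg 0 false 1 79 79 19 0 528) (.nx 1115 13005 (.lg 0 true 1 79 79 19 0 528) .out)) .out))) .out)
  .out) (.na 1129 198 (.nx 1128 832257 (.nr 1127 1048577 (.nr 1120 196 .s1 (.nx 1121 257 (.l1 (.ls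
  73 31 339)) (.nr 1126 741457 (.nx 1122 13005 (.lg 0 true 1 89 89 29 0 55440) (.nr 1125 16385 (.nr
  1123 1025 (.lg 0 true 1 67 67 29 0 3696) (.nx 1124 104033 (.lg 2 false 1 61 61 29 11066 3696)
  .out)) .out)) .out))) .out) .out) (.lg 0 false 1 0 0 16 0 24)))) (.na 1156 228 (.na 1138 204 (.nx
  1137 832257 (.nr 1136 1048577 (.nr 1131 202 .s1 (.nx 1132 257 (.l1 (.ls 61 29 329)) (.nr 1135
  741457 (.nr 1133 16385 (.lg 0 false 1 79 79 23 0 11088) (.nx 1134 13005 (.lg 0 true 1 73 73 23 0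
  528) .out)) .out))) .out) .out) (.na 1148 222 (.nx 1147 832257 (.nr 1146 1048577 (.nr 1139 204
  .s1 (.nx 1140 257 (.l1 (.ls 79 37 326)) (.nr 1145 741457 (.nx 1141 13005 (.lg 0 true 1 89 89 31 0
  55440) (.nr 1144 16385 (.nr 1142 1025 (.lg 0 true 1 71 71 31 0 1584) (.nx 1143 104033 (.lg 2
  false 1 61 61 31 11066 1584) .out)) .out)) .out))) .out) .out) (.nx 1155 832257 (.nr 1154 1048577
  (.nr 1149 222 .s1 (.nx 1150 257 (.l1 (.ls 67 31 300)) (.nr 1153 741457 (.nr 1151 16385 (.lg 0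
  false 1 83 83 29 0 11088) (.nx 1152 13005 (.lg 0 true 1 79 79 29 0 1584) .out)) .out))) .out)
  .out))) (.na 1166 236 (.nx 1165 832257 (.nr 1164 1048577 (.nr 1157 228 .s1 (.nx 1160 13005 (.nx
  1158 257 (.l1 (.ls 71 37 292)) (.nr 1159 741457 (.lg 0 false 1 79 79 37 0 1584) .out)) (.nr 1163
  16385 (.nr 1161 1025 (.lg 0 true 1 61 61 37 0 1584) (.nx 1162 104033 (.lg 2 false 1 59 59 37
  11066 1584) .out)) .out))) .out) .out) (.na 1176 238 (.nx 1175 832257 (.nr 1174 1048577 (.nr 1167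
  236 .s1 (.nx 1170 13005 (.nx 1168 257 (.l1 (.ls 53 29 282)) (.nr 1169 741457 (.lg 0 false 1 83 83
  23 0 528) .out)) (.nr 1173 16385 (.nr 1171 1025 (.lg 0 true 1 67 67 23 0 528) (.nx 1172 104033
  (.lg 2 true 1 53 53 23 11066 528) .out)) .out))) .out) .out) (.nx 1185 832257 (.nr 1184 1048577
  (.nr 1177 238 .s1 (.nx 1178 257 (.l1 (.ls 73 37 280)) (.nr 1183 741457 (.nx 1179 13005 (.lg 0
  true 1 83 83 31 0 11088) (.nr 1182 16385 (.nr 1180 1025 (.lg 0 true 1 61 61 31 0 3696) (.nx 1181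
  104033 (.lg 2 false 1 61 61 31 11066 11088) .out)) .out)) .out))) .out) .out)))))) (.na 4669 2048
  (.na 1205 257 (.na 1195 252 (.na 1187 246 (.lg 0 false 1 0 0 16 0 24) (.nx 1194 832257 (.nr 1193
  1048577 (.nr 1188 246 .s1 (.nx 1189 257 (.l1 (.ls 73 31 271)) (.nr 1192 741457 (.nr 1190 16385
  (.lg 0 false 1 83 83 29 0 1584) (.nx 1191 13005 (.lg 0 true 1 83 83 29 0 55440) .out)) .out)))
  .out) .out)) (.na 1196 254 (.lg 0 false 1 0 0 16 0 24) (.na 1204 256 (.nx 1203 832257 (.nr 1202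
  1048577 (.nr 1197 254 .s1 (.nx 1198 257 (.l1 (.ls 71 29 263)) (.nr 1201 741457 (.nx 1199 13005
  (.lg 0 true 1 73 73 23 0 528) (.nr 1200 16385 (.lg 0 false 1 73 73 23 0 528) .out)) .out))) .out)
  .out) .ne))) (.na 2611 725 (.na 1975 512 (.nx 1974 832257 (.nr 1973 1482912 (.nr 1206 257 .s1
  (.nx 1461 205 (.la (.ls 83 19 166)) (.nr 1972 1048577 (.nr 1716 32769 (.la (.lg 0 false 1 79 79
  23 0)) (.nx 1971 10323 (.la (.lg 0 true 1 71 71 23 0)) .out)) .out))) .out) .out) (.nx 2610
  832257 (.nr 2609 1482912 (.nr 1976 512 .s1 (.nx 2181 205 (.nx 2108 132 (.nr 2107 5902 (.lx (.lp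
  41 19 182)) (.l1 .sk)) (.nx 2109 133 (.l1 .sk) (.lx (.lp 79 19 182)))) (.nr 2608 1048577 (.nx
  2394 10323 (.la (.lg 0 false 1 67 67 29 0)) (.nr 2607 32769 (.la (.lg 2 true 1 61 61 29 107284))
  .out)) .out))) .out) .out)) (.na 3213 1024 (.nx 3212 10323 (.nr 3211 1048577 (.nr 2612 725 .s1
  (.nx 2911 2049 (.la (.ls 67 37 5793)) (.nr 3210 16385 (.la (.lg 0 true 1 37 37 29 0)) .out)))
  .out) .out) (.na 4067 1449 (.nx 4066 10323 (.nr 4065 1048577 (.nr 3214 1024 .s1 (.nx 3639 2582
  (.la (.ls 67 41 6513)) (.nr 4064 16385 (.la (.lg 0 false 1 31 31 31 0)) .out))) .out) .out) (.nx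
  4668 2582 (.nr 4667 524289 (.nr 4068 1449 .s1 (.la (.ls 79 37 4603))) .out) .out))))) (.na 11278
  16384 (.na 6856 4096 (.na 5521 2897 (.nx 5520 3252 (.nr 5519 524289 (.nr 4670 2048 .s1 (.la (.ls
  73 37 5166))) .out) .out) (.nx 6855 2582 (.nr 6854 262145 (.nr 5522 2897 .s1 (.nx 5654 132 (.nr
  5653 33340 (.lx (.lp 43 31 1025)) (.l1 .sk)) (.nx 5655 133 (.l1 .sk) (.la (.ls 59 37 2298)))))
  .out) .out)) (.na 8689 5793 (.nx 8688 2582 (.nr 8687 262145 (.nr 6857 4096 .s1 (.nx 6989 132 (.nr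
  6988 47152 (.lx (.lp 16 29 1449)) (.l1 .sk)) (.nx 6990 133 (.l1 .sk) (.la (.ls 53 37 1626)))))
  .out) .out) (.na 9983 8192 (.nx 9982 1292 (.nr 9981 65537 (.nr 8690 5793 .s1 (.lx (.lp 43 37
  2049))) .out) .out) (.nx 11277 1292 (.nr 11276 131073 (.nr 9984 8192 .s1 (.nx 10188 205 (.lx (.lp
  47 37 4097)) (.nr 11275 65537 (.lx (.lp 41 41 4097)) .out))) .out) .out)))) (.na 14629 131072
  (.na 12573 32768 (.nx 12572 1292 (.nr 12571 262145 (.nr 11279 16384 .s1 (.nx 11483 205 (.lx (.lp
  53 41 8193)) (.nr 12570 131073 (.lx (.lp 43 43 8193)) .out))) .out) .out) (.na 13601 65536 (.nx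
  13600 1025 (.nr 13599 262145 (.nr 12574 32768 .s1 (.nx 12778 205 (.lx (.lp 16 0 16385)) (.nr
  13598 131073 (.lx (.lp 41 47 16385)) .out))) .out) .out) (.nx 14628 1025 (.nr 14627 262145 (.nr
  13602 65536 .s1 (.nx 13925 324 (.lx (.lp 16 0 32769)) (.nr 14626 131073 (.lx (.lp 37 53 32769))
  .out))) .out) .out))) (.na 14631 262144 (.nx 14630 324 (.l1 .sk) .out) (.na 14633 524289 (.nx
  14632 205 (.l1 .sk) .out) .out)))))))

theorem c6 :
    OkQ ckI L6 101 1 1099511627776 0 34359738368 1 1099511627776 ∧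
    OkQ ckI L8 132 1 1099511627776 0 34359738368 1 1099511627776 := by
  refine ⟨?_, ?_⟩
  · refine fin 7272 7833 T6_0 ?_
    refine jn 6 (by decide +kernel) ?_
    refine jn 9 (by decide +kernel) ?_
    refine jn 12 (by decide +kernel) ?_
    refine jn 15 (by decide +kernel) ?_
    refine jn 17 (by decide +kernel) ?_
    refine jn 26 (by decide +kernel) ?_
    refine jn 34 (by decide +kernel) ?_
    refine jn 41 (by decide +kernel) ?_
    refine jn 50 (by decide +kernel) ?_
    refine jn 55 (by decide +kernel) ?_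
    refine jn 68 (by decide +kernel) ?_
    refine jn 81 (by decide +kernel) ?_
    refine jn 101 (by decide +kernel) ?_
    refine jn 121 (by decide +kernel) ?_
    refine jn 127 (by decide +kernel) ?_
    refine jn 128 (by decide +kernel) ?_
    refine jn 129 (by decide +kernel) ?_
    refine jn 130 (by decide +kernel) ?_
    refine jn 131 (by decide +kernel) ?_
    refine jn 132 (by decide +kernel) ?_
    refine jn 133 (by decide +kernel) ?_
    refine jn 134 (by decide +kernel) ?_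
    refine jn 135 (by decide +kernel) ?_
    refine jn 136 (by decide +kernel) ?_
    refine jn 137 (by decide +kernel) ?_
    refine jn 138 (by decide +kernel) ?_
    refine jn 149 (by decide +kernel) ?_
    refine jn 156 (by decide +kernel) ?_
    refine jn 157 (by decide +kernel) ?_
    refine jn 158 (by decide +kernel) ?_
    refine jn 159 (by decide +kernel) ?_
    refine jn 160 (by decide +kernel) ?_
    refine jn 161 (by decide +kernel) ?_
    refine jn 162 (by decide +kernel) ?_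
    refine jn 163 (by decide +kernel) ?_
    refine jn 164 (by decide +kernel) ?_
    refine jn 165 (by decide +kernel) ?_
    refine jn 166 (by decide +kernel) ?_
    refine jn 167 (by decide +kernel) ?_
    refine jn 171 (by decide +kernel) ?_
    refine jn 173 (by decide +kernel) ?_
    refine jn 184 (by decide +kernel) ?_
    refine jn 195 (by decide +kernel) ?_
    refine jn 199 (by decide +kernel) ?_
    refine jn 207 (by decide +kernel) ?_
    refine jn 213 (by decide +kernel) ?_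
    refine jn 240 (by decide +kernel) ?_
    refine jn 247 (by decide +kernel) ?_
    refine jn 248 (by decide +kernel) ?_
    refine jn 249 (by decide +kernel) ?_
    refine jn 250 (by decide +kernel) ?_
    refine jn 251 (by decide +kernel) ?_
    refine jn 252 (by decide +kernel) ?_
    refine jn 253 (by decide +kernel) ?_
    refine jn 254 (by decide +kernel) ?_
    refine jn 256 (by decide +kernel) ?_
    refine jn 258 (by decide +kernel) ?_
    refine jn 260 (by decide +kernel) ?_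
    refine jn 261 (by decide +kernel) ?_
    refine jn 268 (by decide +kernel) ?_
    refine jn 272 (by decide +kernel) ?_
    refine jn 279 (by decide +kernel) ?_
    refine jn 293 (by decide +kernel) ?_
    refine jn 294 (by decide +kernel) ?_
    refine jn 295 (by decide +kernel) ?_
    refine jn 296 (by decide +kernel) ?_
    refine jn 297 (by decide +kernel) ?_
    refine jn 298 (by decide +kernel) ?_
    refine jn 305 (by decide +kernel) ?_
    refine jn 308 (by decide +kernel) ?_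
    refine jn 312 (by decide +kernel) ?_
    refine jn 316 (by decide +kernel) ?_
    refine jn 342 (by decide +kernel) ?_
    refine jn 347 (by decide +kernel) ?_
    refine jn 350 (by decide +kernel) ?_
    refine jn 354 (by decide +kernel) ?_
    refine jn 363 (by decide +kernel) ?_
    refine jn 364 (by decide +kernel) ?_
    refine jn 365 (by decide +kernel) ?_
    refine jn 366 (by decide +kernel) ?_
    refine jn 367 (by decide +kernel) ?_
    refine jn 370 (by decide +kernel) ?_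
    refine jn 373 (by decide +kernel) ?_
    refine jn 377 (by decide +kernel) ?_
    refine jn 394 (by decide +kernel) ?_
    refine jn 400 (by decide +kernel) ?_
    refine jn 404 (by decide +kernel) ?_
    refine jn 418 (by decide +kernel) ?_
    refine jn 420 (by decide +kernel) ?_
    refine jn 421 (by decide +kernel) ?_
    refine jn 422 (by decide +kernel) ?_
    refine jn 424 (by decide +kernel) ?_
    refine jn 425 (by decide +kernel) ?_
    refine jn 428 (by decide +kernel) ?_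
    refine jn 431 (by decide +kernel) ?_
    refine jn 432 (by decide +kernel) ?_
    refine jn 439 (by decide +kernel) ?_
    refine jn 443 (by decide +kernel) ?_
    refine jn 458 (by decide +kernel) ?_
    refine jn 462 (by decide +kernel) ?_
    refine jn 465 (by decide +kernel) ?_
    refine jn 471 (by decide +kernel) ?_
    refine jn 475 (by decide +kernel) ?_
    refine jn 480 (by decide +kernel) ?_
    refine jn 492 (by decide +kernel) ?_
    refine jn 496 (by decide +kernel) ?_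
    refine jn 498 (by decide +kernel) ?_
    refine jn 504 (by decide +kernel) ?_
    refine jn 509 (by decide +kernel) ?_
    refine jn 513 (by decide +kernel) ?_
    refine jn 526 (by decide +kernel) ?_
    refine jn 531 (by decide +kernel) ?_
    refine jn 535 (by decide +kernel) ?_
    refine jn 539 (by decide +kernel) ?_
    refine jn 543 (by decide +kernel) ?_
    refine jn 549 (by decide +kernel) ?_
    refine jn 560 (by decide +kernel) ?_
    refine jn 565 (by decide +kernel) ?_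
    refine jn 571 (by decide +kernel) ?_
    refine jn 575 (by decide +kernel) ?_
    refine jn 586 (by decide +kernel) ?_
    refine jn 590 (by decide +kernel) ?_
    refine jn 598 (by decide +kernel) ?_
    refine jn 609 (by decide +kernel) ?_
    refine jn 614 (by decide +kernel) ?_
    refine jn 619 (by decide +kernel) ?_
    refine jn 630 (by decide +kernel) ?_
    refine jn 631 (by decide +kernel) ?_
    refine jn 632 (by decide +kernel) ?_
    refine jn 633 (by decide +kernel) ?_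
    refine jn 634 (by decide +kernel) ?_
    refine jn 635 (by decide +kernel) ?_
    refine jn 636 (by decide +kernel) ?_
    refine jn 638 (by decide +kernel) ?_
    refine jn 656 (by decide +kernel) ?_
    refine jn 661 (by decide +kernel) ?_
    refine jn 669 (by decide +kernel) ?_
    refine jn 670 (by decide +kernel) ?_
    refine jn 671 (by decide +kernel) ?_
    refine jn 672 (by decide +kernel) ?_
    refine jn 673 (by decide +kernel) ?_
    refine jn 674 (by decide +kernel) ?_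
    refine jn 675 (by decide +kernel) ?_
    refine jn 676 (by decide +kernel) ?_
    refine jn 678 (by decide +kernel) ?_
    refine jn 688 (by decide +kernel) ?_
    refine jn 690 (by decide +kernel) ?_
    refine jn 691 (by decide +kernel) ?_
    refine jn 692 (by decide +kernel) ?_
    refine jn 693 (by decide +kernel) ?_
    refine jn 694 (by decide +kernel) ?_
    refine jn 695 (by decide +kernel) ?_
    refine jn 705 (by decide +kernel) ?_
    refine jn 706 (by decide +kernel) ?_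
    refine jn 707 (by decide +kernel) ?_
    refine jn 709 (by decide +kernel) ?_
    refine jn 710 (by decide +kernel) ?_
    refine jn 712 (by decide +kernel) ?_
    refine jn 721 (by decide +kernel) ?_
    refine jn 722 (by decide +kernel) ?_
    refine jn 723 (by decide +kernel) ?_
    refine jn 725 (by decide +kernel) ?_
    refine jn 726 (by decide +kernel) ?_
    refine jn 728 (by decide +kernel) ?_
    refine jn 744 (by decide +kernel) ?_
    refine jn 753 (by decide +kernel) ?_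
    refine jn 754 (by decide +kernel) ?_
    refine jn 755 (by decide +kernel) ?_
    refine jn 756 (by decide +kernel) ?_
    refine jn 757 (by decide +kernel) ?_
    refine jn 758 (by decide +kernel) ?_
    refine jn 760 (by decide +kernel) ?_
    refine jn 761 (by decide +kernel) ?_
    refine jn 762 (by decide +kernel) ?_
    refine jn 775 (by decide +kernel) ?_
    refine jn 784 (by decide +kernel) ?_
    refine jn 786 (by decide +kernel) ?_
    refine jn 787 (by decide +kernel) ?_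
    refine jn 790 (by decide +kernel) ?_
    refine jn 800 (by decide +kernel) ?_
    refine jn 802 (by decide +kernel) ?_
    refine jn 804 (by decide +kernel) ?_
    refine jn 816 (by decide +kernel) ?_
    refine jn 828 (by decide +kernel) ?_
    refine jn 830 (by decide +kernel) ?_
    refine jn 832 (by decide +kernel) ?_
    refine jn 844 (by decide +kernel) ?_
    refine jn 856 (by decide +kernel) ?_
    refine jn 858 (by decide +kernel) ?_
    refine jn 860 (by decide +kernel) ?_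
    refine jn 869 (by decide +kernel) ?_
    refine jn 871 (by decide +kernel) ?_
    refine jn 873 (by decide +kernel) ?_
    refine jn 885 (by decide +kernel) ?_
    refine jn 897 (by decide +kernel) ?_
    refine jn 899 (by decide +kernel) ?_
    refine jn 902 (by decide +kernel) ?_
    refine jn 914 (by decide +kernel) ?_
    refine jn 923 (by decide +kernel) ?_
    refine jn 926 (by decide +kernel) ?_
    refine jn 936 (by decide +kernel) ?_
    refine jn 939 (by decide +kernel) ?_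
    refine jn 950 (by decide +kernel) ?_
    refine jn 958 (by decide +kernel) ?_
    refine jn 959 (by decide +kernel) ?_
    refine jn 960 (by decide +kernel) ?_
    refine jn 962 (by decide +kernel) ?_
    refine jn 972 (by decide +kernel) ?_
    refine jn 983 (by decide +kernel) ?_
    refine jn 993 (by decide +kernel) ?_
    refine jn 995 (by decide +kernel) ?_
    refine jn 1006 (by decide +kernel) ?_
    refine jn 1022 (by decide +kernel) ?_
    refine jn 1027 (by decide +kernel) ?_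
    refine jn 1037 (by decide +kernel) ?_
    refine jn 1049 (by decide +kernel) ?_
    refine jn 1057 (by decide +kernel) ?_
    refine jn 1066 (by decide +kernel) ?_
    refine jn 1075 (by decide +kernel) ?_
    refine jn 1084 (by decide +kernel) ?_
    refine jn 1099 (by decide +kernel) ?_
    refine jn 1108 (by decide +kernel) ?_
    refine jn 1124 (by decide +kernel) ?_
    refine jn 1140 (by decide +kernel) ?_
    refine jn 1156 (by decide +kernel) ?_
    refine jn 1164 (by decide +kernel) ?_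
    refine jn 1174 (by decide +kernel) ?_
    refine jn 1182 (by decide +kernel) ?_
    refine jn 1190 (by decide +kernel) ?_
    refine jn 1204 (by decide +kernel) ?_
    refine jn 1205 (by decide +kernel) ?_
    refine jn 1213 (by decide +kernel) ?_
    refine jn 1222 (by decide +kernel) ?_
    refine jn 1230 (by decide +kernel) ?_
    refine jn 1249 (by decide +kernel) ?_
    refine jn 1255 (by decide +kernel) ?_
    refine jn 1264 (by decide +kernel) ?_
    refine jn 1273 (by decide +kernel) ?_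
    refine jn 1281 (by decide +kernel) ?_
    refine jn 1290 (by decide +kernel) ?_
    refine jn 1298 (by decide +kernel) ?_
    refine jn 1306 (by decide +kernel) ?_
    refine jn 1322 (by decide +kernel) ?_
    refine jn 1337 (by decide +kernel) ?_
    refine jn 1354 (by decide +kernel) ?_
    refine jn 1386 (by decide +kernel) ?_
    refine jn 1409 (by decide +kernel) ?_
    refine jn 1445 (by decide +kernel) ?_
    refine jn 1477 (by decide +kernel) ?_
    refine jn 1514 (by decide +kernel) ?_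
    refine jn 1550 (by decide +kernel) ?_
    refine jn 1585 (by decide +kernel) ?_
    refine jn 1609 (by decide +kernel) ?_
    refine jn 1620 (by decide +kernel) ?_
    refine jn 1625 (by decide +kernel) ?_
    refine jn 1631 (by decide +kernel) ?_
    refine jn 1641 (by decide +kernel) ?_
    refine jn 1645 (by decide +kernel) ?_
    refine jn 1652 (by decide +kernel) ?_
    refine jn 1661 (by decide +kernel) ?_
    refine jn 1676 (by decide +kernel) ?_
    refine jn 1680 (by decide +kernel) ?_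
    refine jn 1681 (by decide +kernel) ?_
    refine jn 1688 (by decide +kernel) ?_
    refine jn 1700 (by decide +kernel) ?_
    refine jn 1712 (by decide +kernel) ?_
    refine jn 1724 (by decide +kernel) ?_
    refine jn 1728 (by decide +kernel) ?_
    refine jn 1732 (by decide +kernel) ?_
    refine jn 1740 (by decide +kernel) ?_
    refine jn 1744 (by decide +kernel) ?_
    refine jn 1752 (by decide +kernel) ?_
    refine jn 1759 (by decide +kernel) ?_
    refine jn 1775 (by decide +kernel) ?_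
    refine jn 1779 (by decide +kernel) ?_
    refine jn 1789 (by decide +kernel) ?_
    refine jn 1792 (by decide +kernel) ?_
    refine jn 1805 (by decide +kernel) ?_
    refine jn 1812 (by decide +kernel) ?_
    refine jn 1816 (by decide +kernel) ?_
    refine jn 1836 (by decide +kernel) ?_
    refine jn 1840 (by decide +kernel) ?_
    refine jn 1853 (by decide +kernel) ?_
    refine jn 1860 (by decide +kernel) ?_
    refine jn 1872 (by decide +kernel) ?_
    refine jn 1904 (by decide +kernel) ?_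
    refine jn 1944 (by decide +kernel) ?_
    refine jn 1984 (by decide +kernel) ?_
    refine jn 2020 (by decide +kernel) ?_
    refine jn 2068 (by decide +kernel) ?_
    refine jn 2088 (by decide +kernel) ?_
    refine jn 2093 (by decide +kernel) ?_
    refine jn 2109 (by decide +kernel) ?_
    refine jn 2113 (by decide +kernel) ?_
    refine jn 2114 (by decide +kernel) ?_
    refine jn 2129 (by decide +kernel) ?_
    refine jn 2140 (by decide +kernel) ?_
    refine jn 2149 (by decide +kernel) ?_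
    refine jn 2153 (by decide +kernel) ?_
    refine jn 2162 (by decide +kernel) ?_
    refine jn 2166 (by decide +kernel) ?_
    refine jn 2173 (by decide +kernel) ?_
    refine jn 2197 (by decide +kernel) ?_
    refine jn 2204 (by decide +kernel) ?_
    refine jn 2217 (by decide +kernel) ?_
    refine jn 2229 (by decide +kernel) ?_
    refine jn 2233 (by decide +kernel) ?_
    refine jn 2242 (by decide +kernel) ?_
    refine jn 2252 (by decide +kernel) ?_
    refine jn 2262 (by decide +kernel) ?_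
    refine jn 2274 (by decide +kernel) ?_
    refine jn 2290 (by decide +kernel) ?_
    refine jn 2332 (by decide +kernel) ?_
    refine jn 2342 (by decide +kernel) ?_
    refine jn 2385 (by decide +kernel) ?_
    refine jn 2396 (by decide +kernel) ?_
    refine jn 2406 (by decide +kernel) ?_
    refine jn 2429 (by decide +kernel) ?_
    refine jn 2449 (by decide +kernel) ?_
    refine jn 2480 (by decide +kernel) ?_
    refine jn 2506 (by decide +kernel) ?_
    refine jn 2533 (by decide +kernel) ?_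
    refine jn 2561 (by decide +kernel) ?_
    refine jn 2576 (by decide +kernel) ?_
    refine jn 2616 (by decide +kernel) ?_
    refine jn 2653 (by decide +kernel) ?_
    refine jn 2691 (by decide +kernel) ?_
    refine jn 2716 (by decide +kernel) ?_
    refine jn 2732 (by decide +kernel) ?_
    refine jn 2760 (by decide +kernel) ?_
    refine jn 2787 (by decide +kernel) ?_
    refine jn 2825 (by decide +kernel) ?_
    refine jn 2861 (by decide +kernel) ?_
    refine jn 2889 (by decide +kernel) ?_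
    refine jn 2925 (by decide +kernel) ?_
    refine jn 2963 (by decide +kernel) ?_
    refine jn 3004 (by decide +kernel) ?_
    refine jn 3047 (by decide +kernel) ?_
    refine jn 3106 (by decide +kernel) ?_
    refine jn 3155 (by decide +kernel) ?_
    refine jn 3219 (by decide +kernel) ?_
    refine jn 3266 (by decide +kernel) ?_
    refine jn 3323 (by decide +kernel) ?_
    refine jn 3362 (by decide +kernel) ?_
    refine jn 3431 (by decide +kernel) ?_
    refine jn 3487 (by decide +kernel) ?_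
    refine jn 3554 (by decide +kernel) ?_
    refine jn 3606 (by decide +kernel) ?_
    refine jn 3743 (by decide +kernel) ?_
    refine jn 3823 (by decide +kernel) ?_
    refine jn 3888 (by decide +kernel) ?_
    refine jn 3957 (by decide +kernel) ?_
    refine jn 4012 (by decide +kernel) ?_
    refine jn 4116 (by decide +kernel) ?_
    refine jn 4165 (by decide +kernel) ?_
    refine jn 4217 (by decide +kernel) ?_
    refine jn 4283 (by decide +kernel) ?_
    refine jn 4356 (by decide +kernel) ?_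
    refine jn 4428 (by decide +kernel) ?_
    refine jn 4496 (by decide +kernel) ?_
    refine jn 4569 (by decide +kernel) ?_
    refine jn 4786 (by decide +kernel) ?_
    refine jn 4984 (by decide +kernel) ?_
    refine jn 5083 (by decide +kernel) ?_
    refine jn 5180 (by decide +kernel) ?_
    refine jn 5232 (by decide +kernel) ?_
    refine jn 5472 (by decide +kernel) ?_
    refine jn 5591 (by decide +kernel) ?_
    refine jn 5640 (by decide +kernel) ?_
    refine jn 5722 (by decide +kernel) ?_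
    refine jn 5787 (by decide +kernel) ?_
    refine jn 5848 (by decide +kernel) ?_
    refine jn 6112 (by decide +kernel) ?_
    refine jn 6248 (by decide +kernel) ?_
    refine jn 6341 (by decide +kernel) ?_
    refine jn 6432 (by decide +kernel) ?_
    refine jn 6515 (by decide +kernel) ?_
    refine jn 6897 (by decide +kernel) ?_
    refine jn 7029 (by decide +kernel) ?_
    refine jn 7144 (by decide +kernel) ?_
    refine jn 7802 (by decide +kernel) ?_
    exact je (by decide +kernel)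
  · refine fin 264 14634 T6_1 ?_
    refine jn 10 (by decide +kernel) ?_
    refine jn 18 (by decide +kernel) ?_
    refine jn 24 (by decide +kernel) ?_
    refine jn 33 (by decide +kernel) ?_
    refine jn 43 (by decide +kernel) ?_
    refine jn 52 (by decide +kernel) ?_
    refine jn 58 (by decide +kernel) ?_
    refine jn 65 (by decide +kernel) ?_
    refine jn 82 (by decide +kernel) ?_
    refine jn 94 (by decide +kernel) ?_
    refine jn 107 (by decide +kernel) ?_
    refine jn 118 (by decide +kernel) ?_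
    refine jn 138 (by decide +kernel) ?_
    refine jn 151 (by decide +kernel) ?_
    refine jn 164 (by decide +kernel) ?_
    refine jn 200 (by decide +kernel) ?_
    refine jn 207 (by decide +kernel) ?_
    refine jn 208 (by decide +kernel) ?_
    refine jn 209 (by decide +kernel) ?_
    refine jn 210 (by decide +kernel) ?_
    refine jn 211 (by decide +kernel) ?_
    refine jn 212 (by decide +kernel) ?_
    refine jn 213 (by decide +kernel) ?_
    refine jn 214 (by decide +kernel) ?_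
    refine jn 215 (by decide +kernel) ?_
    refine jn 216 (by decide +kernel) ?_
    refine jn 217 (by decide +kernel) ?_
    refine jn 218 (by decide +kernel) ?_
    refine jn 219 (by decide +kernel) ?_
    refine jn 220 (by decide +kernel) ?_
    refine jn 232 (by decide +kernel) ?_
    refine jn 236 (by decide +kernel) ?_
    refine jn 238 (by decide +kernel) ?_
    refine jn 240 (by decide +kernel) ?_
    refine jn 242 (by decide +kernel) ?_
    refine jn 244 (by decide +kernel) ?_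
    refine jn 246 (by decide +kernel) ?_
    refine jn 247 (by decide +kernel) ?_
    refine jn 254 (by decide +kernel) ?_
    refine jn 262 (by decide +kernel) ?_
    refine jn 269 (by decide +kernel) ?_
    refine jn 276 (by decide +kernel) ?_
    refine jn 283 (by decide +kernel) ?_
    refine jn 290 (by decide +kernel) ?_
    refine jn 297 (by decide +kernel) ?_
    refine jn 304 (by decide +kernel) ?_
    refine jn 312 (by decide +kernel) ?_
    refine jn 319 (by decide +kernel) ?_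
    refine jn 342 (by decide +kernel) ?_
    refine jn 370 (by decide +kernel) ?_
    refine jn 384 (by decide +kernel) ?_
    refine jn 391 (by decide +kernel) ?_
    refine jn 405 (by decide +kernel) ?_
    refine jn 418 (by decide +kernel) ?_
    refine jn 445 (by decide +kernel) ?_
    refine jn 455 (by decide +kernel) ?_
    refine jn 498 (by decide +kernel) ?_
    refine jn 517 (by decide +kernel) ?_
    refine jn 519 (by decide +kernel) ?_
    refine jn 521 (by decide +kernel) ?_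
    refine jn 522 (by decide +kernel) ?_
    refine jn 525 (by decide +kernel) ?_
    refine jn 527 (by decide +kernel) ?_
    refine jn 538 (by decide +kernel) ?_
    refine jn 544 (by decide +kernel) ?_
    refine jn 559 (by decide +kernel) ?_
    refine jn 560 (by decide +kernel) ?_
    refine jn 561 (by decide +kernel) ?_
    refine jn 562 (by decide +kernel) ?_
    refine jn 563 (by decide +kernel) ?_
    refine jn 564 (by decide +kernel) ?_
    refine jn 567 (by decide +kernel) ?_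
    refine jn 569 (by decide +kernel) ?_
    refine jn 570 (by decide +kernel) ?_
    refine jn 571 (by decide +kernel) ?_
    refine jn 572 (by decide +kernel) ?_
    refine jn 573 (by decide +kernel) ?_
    refine jn 574 (by decide +kernel) ?_
    refine jn 575 (by decide +kernel) ?_
    refine jn 576 (by decide +kernel) ?_
    refine jn 577 (by decide +kernel) ?_
    refine jn 578 (by decide +kernel) ?_
    refine jn 591 (by decide +kernel) ?_
    refine jn 603 (by decide +kernel) ?_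
    refine jn 618 (by decide +kernel) ?_
    refine jn 629 (by decide +kernel) ?_
    refine jn 644 (by decide +kernel) ?_
    refine jn 655 (by decide +kernel) ?_
    refine jn 656 (by decide +kernel) ?_
    refine jn 658 (by decide +kernel) ?_
    refine jn 659 (by decide +kernel) ?_
    refine jn 660 (by decide +kernel) ?_
    refine jn 662 (by decide +kernel) ?_
    refine jn 664 (by decide +kernel) ?_
    refine jn 665 (by decide +kernel) ?_
    refine jn 668 (by decide +kernel) ?_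
    refine jn 670 (by decide +kernel) ?_
    refine jn 680 (by decide +kernel) ?_
    refine jn 682 (by decide +kernel) ?_
    refine jn 683 (by decide +kernel) ?_
    refine jn 684 (by decide +kernel) ?_
    refine jn 685 (by decide +kernel) ?_
    refine jn 686 (by decide +kernel) ?_
    refine jn 687 (by decide +kernel) ?_
    refine jn 688 (by decide +kernel) ?_
    refine jn 696 (by decide +kernel) ?_
    refine jn 709 (by decide +kernel) ?_
    refine jn 717 (by decide +kernel) ?_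
    refine jn 728 (by decide +kernel) ?_
    refine jn 736 (by decide +kernel) ?_
    refine jn 747 (by decide +kernel) ?_
    refine jn 754 (by decide +kernel) ?_
    refine jn 768 (by decide +kernel) ?_
    refine jn 774 (by decide +kernel) ?_
    refine jn 788 (by decide +kernel) ?_
    refine jn 806 (by decide +kernel) ?_
    refine jn 819 (by decide +kernel) ?_
    refine jn 821 (by decide +kernel) ?_
    refine jn 823 (by decide +kernel) ?_
    refine jn 835 (by decide +kernel) ?_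
    refine jn 845 (by decide +kernel) ?_
    refine jn 849 (by decide +kernel) ?_
    refine jn 851 (by decide +kernel) ?_
    refine jn 865 (by decide +kernel) ?_
    refine jn 877 (by decide +kernel) ?_
    refine jn 879 (by decide +kernel) ?_
    refine jn 882 (by decide +kernel) ?_
    refine jn 895 (by decide +kernel) ?_
    refine jn 909 (by decide +kernel) ?_
    refine jn 912 (by decide +kernel) ?_
    refine jn 927 (by decide +kernel) ?_
    refine jn 943 (by decide +kernel) ?_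
    refine jn 959 (by decide +kernel) ?_
    refine jn 973 (by decide +kernel) ?_
    refine jn 984 (by decide +kernel) ?_
    refine jn 987 (by decide +kernel) ?_
    refine jn 1002 (by decide +kernel) ?_
    refine jn 1013 (by decide +kernel) ?_
    refine jn 1023 (by decide +kernel) ?_
    refine jn 1039 (by decide +kernel) ?_
    refine jn 1044 (by decide +kernel) ?_
    refine jn 1054 (by decide +kernel) ?_
    refine jn 1071 (by decide +kernel) ?_
    refine jn 1075 (by decide +kernel) ?_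
    refine jn 1083 (by decide +kernel) ?_
    refine jn 1093 (by decide +kernel) ?_
    refine jn 1104 (by decide +kernel) ?_
    refine jn 1115 (by decide +kernel) ?_
    refine jn 1124 (by decide +kernel) ?_
    refine jn 1141 (by decide +kernel) ?_
    refine jn 1152 (by decide +kernel) ?_
    refine jn 1162 (by decide +kernel) ?_
    refine jn 1172 (by decide +kernel) ?_
    refine jn 1181 (by decide +kernel) ?_
    refine jn 1200 (by decide +kernel) ?_
    refine jn 1297 (by decide +kernel) ?_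
    refine jn 1423 (by decide +kernel) ?_
    refine jn 1470 (by decide +kernel) ?_
    refine jn 1480 (by decide +kernel) ?_
    refine jn 1486 (by decide +kernel) ?_
    refine jn 1498 (by decide +kernel) ?_
    refine jn 1512 (by decide +kernel) ?_
    refine jn 1520 (by decide +kernel) ?_
    refine jn 1526 (by decide +kernel) ?_
    refine jn 1552 (by decide +kernel) ?_
    refine jn 1562 (by decide +kernel) ?_
    refine jn 1586 (by decide +kernel) ?_
    refine jn 1598 (by decide +kernel) ?_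
    refine jn 1610 (by decide +kernel) ?_
    refine jn 1626 (by decide +kernel) ?_
    refine jn 1648 (by decide +kernel) ?_
    refine jn 1666 (by decide +kernel) ?_
    refine jn 1680 (by decide +kernel) ?_
    refine jn 1696 (by decide +kernel) ?_
    refine jn 1712 (by decide +kernel) ?_
    refine jn 1725 (by decide +kernel) ?_
    refine jn 1735 (by decide +kernel) ?_
    refine jn 1741 (by decide +kernel) ?_
    refine jn 1753 (by decide +kernel) ?_
    refine jn 1767 (by decide +kernel) ?_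
    refine jn 1775 (by decide +kernel) ?_
    refine jn 1805 (by decide +kernel) ?_
    refine jn 1817 (by decide +kernel) ?_
    refine jn 1843 (by decide +kernel) ?_
    refine jn 1865 (by decide +kernel) ?_
    refine jn 1885 (by decide +kernel) ?_
    refine jn 1921 (by decide +kernel) ?_
    refine jn 1935 (by decide +kernel) ?_
    refine jn 1951 (by decide +kernel) ?_
    refine jn 1967 (by decide +kernel) ?_
    refine jn 2109 (by decide +kernel) ?_
    refine jn 2185 (by decide +kernel) ?_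
    refine jn 2201 (by decide +kernel) ?_
    refine jn 2211 (by decide +kernel) ?_
    refine jn 2233 (by decide +kernel) ?_
    refine jn 2243 (by decide +kernel) ?_
    refine jn 2255 (by decide +kernel) ?_
    refine jn 2271 (by decide +kernel) ?_
    refine jn 2283 (by decide +kernel) ?_
    refine jn 2307 (by decide +kernel) ?_
    refine jn 2313 (by decide +kernel) ?_
    refine jn 2315 (by decide +kernel) ?_
    refine jn 2355 (by decide +kernel) ?_
    refine jn 2383 (by decide +kernel) ?_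
    refine jn 2393 (by decide +kernel) ?_
    refine jn 2400 (by decide +kernel) ?_
    refine jn 2414 (by decide +kernel) ?_
    refine jn 2424 (by decide +kernel) ?_
    refine jn 2446 (by decide +kernel) ?_
    refine jn 2456 (by decide +kernel) ?_
    refine jn 2468 (by decide +kernel) ?_
    refine jn 2484 (by decide +kernel) ?_
    refine jn 2496 (by decide +kernel) ?_
    refine jn 2510 (by decide +kernel) ?_
    refine jn 2526 (by decide +kernel) ?_
    refine jn 2528 (by decide +kernel) ?_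
    refine jn 2568 (by decide +kernel) ?_
    refine jn 2596 (by decide +kernel) ?_
    refine jn 2606 (by decide +kernel) ?_
    refine jn 2669 (by decide +kernel) ?_
    refine jn 2713 (by decide +kernel) ?_
    refine jn 2761 (by decide +kernel) ?_
    refine jn 2819 (by decide +kernel) ?_
    refine jn 2891 (by decide +kernel) ?_
    refine jn 2968 (by decide +kernel) ?_
    refine jn 2998 (by decide +kernel) ?_
    refine jn 3022 (by decide +kernel) ?_
    refine jn 3060 (by decide +kernel) ?_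
    refine jn 3108 (by decide +kernel) ?_
    refine jn 3152 (by decide +kernel) ?_
    refine jn 3210 (by decide +kernel) ?_
    refine jn 3284 (by decide +kernel) ?_
    refine jn 3338 (by decide +kernel) ?_
    refine jn 3394 (by decide +kernel) ?_
    refine jn 3448 (by decide +kernel) ?_
    refine jn 3524 (by decide +kernel) ?_
    refine jn 3604 (by decide +kernel) ?_
    refine jn 3651 (by decide +kernel) ?_
    refine jn 3699 (by decide +kernel) ?_
    refine jn 3739 (by decide +kernel) ?_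
    refine jn 3771 (by decide +kernel) ?_
    refine jn 3819 (by decide +kernel) ?_
    refine jn 3859 (by decide +kernel) ?_
    refine jn 3907 (by decide +kernel) ?_
    refine jn 3937 (by decide +kernel) ?_
    refine jn 4009 (by decide +kernel) ?_
    refine jn 4043 (by decide +kernel) ?_
    refine jn 4133 (by decide +kernel) ?_
    refine jn 4193 (by decide +kernel) ?_
    refine jn 4271 (by decide +kernel) ?_
    refine jn 4321 (by decide +kernel) ?_
    refine jn 4391 (by decide +kernel) ?_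
    refine jn 4471 (by decide +kernel) ?_
    refine jn 4551 (by decide +kernel) ?_
    refine jn 4607 (by decide +kernel) ?_
    refine jn 4724 (by decide +kernel) ?_
    refine jn 4794 (by decide +kernel) ?_
    refine jn 4856 (by decide +kernel) ?_
    refine jn 4968 (by decide +kernel) ?_
    refine jn 5050 (by decide +kernel) ?_
    refine jn 5130 (by decide +kernel) ?_
    refine jn 5220 (by decide +kernel) ?_
    refine jn 5308 (by decide +kernel) ?_
    refine jn 5370 (by decide +kernel) ?_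
    refine jn 5450 (by decide +kernel) ?_
    refine jn 5653 (by decide +kernel) ?_
    refine jn 5770 (by decide +kernel) ?_
    refine jn 5882 (by decide +kernel) ?_
    refine jn 6002 (by decide +kernel) ?_
    refine jn 6090 (by decide +kernel) ?_
    refine jn 6202 (by decide +kernel) ?_
    refine jn 6300 (by decide +kernel) ?_
    refine jn 6442 (by decide +kernel) ?_
    refine jn 6552 (by decide +kernel) ?_
    refine jn 6666 (by decide +kernel) ?_
    refine jn 6792 (by decide +kernel) ?_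
    refine jn 7026 (by decide +kernel) ?_
    refine jn 7156 (by decide +kernel) ?_
    refine jn 7276 (by decide +kernel) ?_
    refine jn 7402 (by decide +kernel) ?_
    refine jn 7551 (by decide +kernel) ?_
    refine jn 7706 (by decide +kernel) ?_
    refine jn 7828 (by decide +kernel) ?_
    refine jn 7956 (by decide +kernel) ?_
    refine jn 8112 (by decide +kernel) ?_
    refine jn 8232 (by decide +kernel) ?_
    refine jn 8346 (by decide +kernel) ?_
    refine jn 8480 (by decide +kernel) ?_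
    refine jn 8600 (by decide +kernel) ?_
    refine jn 9033 (by decide +kernel) ?_
    refine jn 9271 (by decide +kernel) ?_
    refine jn 9430 (by decide +kernel) ?_
    refine jn 9563 (by decide +kernel) ?_
    refine jn 9667 (by decide +kernel) ?_
    refine jn 9755 (by decide +kernel) ?_
    refine jn 9844 (by decide +kernel) ?_
    refine jn 9922 (by decide +kernel) ?_
    refine jn 9984 (by decide +kernel) ?_
    refine jn 10361 (by decide +kernel) ?_
    refine jn 10500 (by decide +kernel) ?_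
    refine jn 10635 (by decide +kernel) ?_
    refine jn 10723 (by decide +kernel) ?_
    refine jn 10829 (by decide +kernel) ?_
    refine jn 10907 (by decide +kernel) ?_
    refine jn 10983 (by decide +kernel) ?_
    refine jn 11043 (by decide +kernel) ?_
    refine jn 11103 (by decide +kernel) ?_
    refine jn 11153 (by decide +kernel) ?_
    refine jn 11213 (by decide +kernel) ?_
    refine jn 11270 (by decide +kernel) ?_
    refine jn 11657 (by decide +kernel) ?_
    refine jn 11886 (by decide +kernel) ?_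
    refine jn 12003 (by decide +kernel) ?_
    refine jn 12141 (by decide +kernel) ?_
    refine jn 12248 (by decide +kernel) ?_
    refine jn 12328 (by decide +kernel) ?_
    refine jn 12413 (by decide +kernel) ?_
    refine jn 12511 (by decide +kernel) ?_
    refine jn 12850 (by decide +kernel) ?_
    refine jn 13195 (by decide +kernel) ?_
    refine jn 13421 (by decide +kernel) ?_
    refine jn 13558 (by decide +kernel) ?_
    refine jn 14028 (by decide +kernel) ?_
    refine jn 14323 (by decide +kernel) ?_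
    refine jn 14591 (by decide +kernel) ?_
    exact je (by decide +kernel)

end Pool.Agent.MP_2339ce_nt.NR
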