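import Pool.Agent.MP_2339ce_nt.Q2.NC.L10
import Pool.Agent.MP_2339ce_nt.Q2.CkI

/-! Block NR: runs. -/

set_option autoImplicit false
set_option maxRecDepth 100000

noncomputable section

namespace Pool.Agent.MP_2339ce_nt.NR

open Q2.Top

def T65_0 : Ph :=
  (.na 539 2 (.nx 538 3329023 (.nr 537 881745 (.nx 2 232 (.nr 1 16 (.lg 0 false 1 47 47 5 0 6960)
  (.l1 .sk)) (.nx 3 233 (.l1 .sk) (.nx 503 1664512 (.nr 412 185365 (.nx 80 41287 (.lg 0 false 77
  107 109 16 0 20900880) (.nr 411 155873 (.nr 194 2898 (.nr 175 1724 (.nr 157 942 (.lg 0 true 77 97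
  103 16 0 535920) (.lg 2 true 18 97 97 11 204972 20880)) (.nx 193 1321124 (.lg 2 true 18 89 101 11
  88893 20880) .out)) (.nx 410 1048577 (.nx 271 65537 (.lg 1 false 77 101 109 16 101755 20900880)
  (.nr 409 110219 (.nr 345 65537 (.nr 282 4872 (.lg 2 true 11 97 101 9 41973 76560) (.lg 2 false 63
  103 109 16 27008 20900880)) (.nx 408 330282 (.lg 2 true 63 103 109 16 45356 20900880) .out))
  .out)) .out)) .out)) (.nx 502 26009 (.nr 480 311745 (.nx 423 408 (.lg 0 false 11 83 83 9 0 7656)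
  (.nx 424 6501 .out (.nr 479 220437 (.nx 445 10323 (.lg 0 false 21 97 103 11 0 1900080) (.nx 446
  13003 .out (.lg 0 false 33 103 109 13 0 20900880))) .out))) (.nx 501 324 (.lg 0 false 21 83 83 11
  0 14616) .out)) .out)) (.nr 536 154 (.lg 0 true 33 89 89 13 0 22968) .out)))) .out) .out) (.na
  540 4 .ne (.nx 784 21137969 (.nr 783 1246976 (.nx 542 232 (.nr 541 52 (.lg 0 true 1 41 41 9 0
  1392) (.l1 .sk)) (.nx 543 233 (.l1 .sk) (.nx 596 56824 (.nr 582 262145 (.lg 0 false 39 103 109 19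
  0 20900880) (.nx 595 408 (.lg 0 false 13 83 89 13 0 271440) .out)) (.nr 782 311745 (.nx 712
  660563 (.nr 609 730 (.lg 0 true 13 89 89 13 0 18096) (.nr 616 2912 (.lg 2 true 7 89 97 11 104967
  48720) (.nr 623 11616 (.lg 2 true 7 97 103 11 26314 1607760) (.nx 704 330282 (.nx 637 82570 (.nr
  636 262145 (.lg 1 false 13 107 109 13 124264 20900880) .out) (.nx 663 152899 (.nx 650 112360 (.lg
  1 false 13 107 109 13 101684 20900880) (.lg 1 false 13 107 109 13 74724 20900880)) (.nx 676
  208065 (.lg 1 true 13 107 109 13 54912 20900880) (.nr 703 185365 (.nx 689 262145 (.lg 1 true 13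
  103 109 13 24006 20900880) (.nr 702 131073 (.lg 1 true 13 101 109 13 13480 20900880) .out))
  .out)))) (.nr 711 46342 (.lg 2 false 7 97 103 11 6597 1607760) .out))))) (.nr 781 183 (.nr 767 33
  (.lg 0 true 55 79 79 13 0 76560) (.nx 780 2642247 (.lg 0 true 13 83 89 13 0 18096) .out)) .out))
  .out)))) .out) .out)))

def T65_1 : Ph :=
  (.na 544 164 (.na 349 117 (.na 178 91 (.na 84 81 (.na 26 71 (.na 25 64 (.nx 24 2642247 (.nr 23
  881745 (.nr 1 62 .s1 (.nx 19 262145 (.nx 4 249 (.nx 3 248 (.nr 2 714 (.l1 (.ls 37 31 979)) (.l1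
  .sk)) (.l1 .sk)) (.nx 9 20644 (.lg 0 false 5 97 101 23 0 156240) (.nr 18 220437 (.nr 16 92683
  (.nr 14 46342 (.lg 0 true 5 89 89 23 0 78120) (.nx 15 82572 (.lg 0 false 1 101 101 17 0 156240)
  .out)) (.nx 17 32769 (.lg 0 true 1 97 97 17 0 156240) .out)) .out))) (.nr 22 257 (.lg 0 true 3 71
  73 23 0 15624) .out))) .out) .out) .ne) (.na 45 72 (.nx 44 2642247 (.nr 43 2097153 (.nr 27 70 .s1
  (.nx 28 408 (.l1 (.ls 79 31 2347)) (.nr 42 1048577 (.nx 33 32769 (.lg 0 false 5 97 97 16 0 11160)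
  (.nr 41 65537 (.nr 38 803 (.lg 0 true 5 67 73 16 0 11160) (.nx 40 416129 (.lg 2 false 2 89 89 16
  64260 4464) .out)) .out)) .out))) .out) .out) (.na 65 77 (.nx 64 2642247 (.nr 63 2097153 (.nr 46
  71 .s1 (.nx 49 249 (.nx 48 248 (.nr 47 859 (.l1 (.ls 37 37 857)) (.l1 .sk)) (.l1 .sk)) (.nx 50
  408 (.l1 (.ls 89 41 1453)) (.nr 62 1048577 (.nx 56 32769 (.nr 52 262145 (.lg 0 false 2 97 101 29
  0 156240) (.nx 55 20644 (.lg 0 false 3 97 101 29 0 156240) .out)) (.nr 61 65537 (.nr 59 859 (.lg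
  0 true 3 79 79 29 0 4464) (.nx 60 416129 (.lg 2 true 1 101 101 23 61737 156240) .out)) .out))
  .out)))) .out) .out) (.nx 83 2642247 (.nr 82 2097153 (.nr 66 76 .s1 (.nx 68 248 (.nr 67 903 (.l1
  (.ls 37 31 801)) (.l1 .sk)) (.nx 69 249 (.l1 .sk) (.nx 70 408 (.l1 (.ls 89 31 1359)) (.nr 81
  1048577 (.nx 73 20644 (.lg 0 false 3 101 103 23 0 1718640) (.nr 80 262145 (.nx 74 32769 (.lg 0
  true 1 101 101 17 0 1718640) (.nr 79 65537 (.nr 77 903 (.lg 0 true 3 83 83 23 0 171864) (.nx 78
  416129 (.lg 2 true 1 101 101 17 61737 1718640) .out)) .out)) .out)) .out))))) .out) .out)))) (.na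
  122 84 (.na 103 83 (.nx 102 2642247 (.nr 101 2097153 (.nr 85 80 .s1 (.nx 86 408 (.l1 (.ls 73 37
  2058)) (.nr 100 1048577 (.nx 91 32769 (.lg 0 false 5 89 89 19 0 11160) (.nr 99 65537 (.nr 96 926
  (.lg 0 true 5 71 71 19 0 11160) (.nx 98 416129 (.lg 2 false 2 79 79 17 61737 4464) .out)) .out))
  .out))) .out) .out) (.nx 121 2642247 (.nr 120 2097153 (.nr 104 82 .s1 (.nx 113 32769 (.nx 105 408
  (.l1 (.ls 79 29 2008)) (.nr 112 1048577 (.lg 0 false 7 97 101 17 0 156240) .out)) (.nr 119 65537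
  (.nr 116 937 (.lg 0 true 3 67 67 16 0 2232) (.nx 118 416129 (.lg 2 true 2 79 79 16 61737 4464)
  .out)) .out))) .out) .out)) (.na 142 87 (.nx 141 2642247 (.nr 140 2097153 (.nr 123 83 .s1 (.nx
  127 408 (.nx 125 248 (.nr 124 970 (.l1 (.ls 41 41 735)) (.l1 .sk)) (.nx 126 249 (.l1 .sk) (.l1
  (.ls 89 43 1246)))) (.nr 139 1048577 (.nx 134 32769 (.nx 132 20644 (.lg 0 false 5 97 107 41 0
  22342320) (.nr 133 262145 (.lg 0 false 1 97 97 31 0 31248) .out)) (.nr 138 65537 (.nr 136 970
  (.lg 0 true 2 83 83 37 0 31248) (.nx 137 416129 (.lg 2 false 1 97 101 31 61737 31248) .out))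
  .out)) .out))) .out) .out) (.na 161 88 (.nx 160 2642247 (.nr 159 2097153 (.nr 143 86 .s1 (.nx 146
  249 (.nx 145 248 (.nr 144 981 (.l1 (.ls 23 23 709)) (.l1 .sk)) (.l1 .sk)) (.nx 147 408 (.l1 (.ls
  89 37 1203)) (.nr 158 1048577 (.nr 155 262145 (.nx 149 32769 (.lg 0 false 2 101 101 19 0 156240)
  (.nr 154 65537 (.nr 152 981 (.lg 0 true 3 79 79 19 0 2232) (.nx 153 416129 (.lg 2 true 1 97 97 17
  61737 2232) .out)) .out)) (.nx 157 20644 (.lg 0 false 2 101 103 19 0 156240) .out)) .out))))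
  .out) .out) (.nx 177 2642247 (.nr 176 2097153 (.nr 162 87 .s1 (.nx 165 249 (.nx 164 248 (.nr 163
  1015 (.l1 (.ls 37 37 701)) (.l1 .sk)) (.l1 .sk)) (.nx 166 408 (.l1 (.ls 89 41 1190)) (.nr 175
  1048577 (.nx 169 32769 (.lg 0 false 3 101 103 29 0 1718640) (.nr 174 65537 (.nr 172 1015 (.lg 0
  true 3 79 79 29 0 49104) (.nx 173 416129 (.lg 2 true 1 97 97 23 61737 49104) .out)) .out))
  .out)))) .out) .out))))) (.na 268 104 (.na 214 97 (.na 197 93 (.nx 196 2642247 (.nr 195 2097153
  (.nr 179 90 .s1 (.nx 183 408 (.nx 181 248 (.nr 180 1037 (.l1 (.ls 37 29 678)) (.l1 .sk)) (.nx 182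
  249 (.l1 .sk) (.l1 (.ls 83 31 1150)))) (.nr 194 1482912 (.nx 188 30753 (.lg 0 false 5 101 103 29
  0 22342320) (.nr 193 65537 (.nr 191 1037 (.lg 0 true 3 79 79 23 0 203112) (.nx 192 416129 (.lg 2
  false 1 97 97 19 65784 203112) .out)) .out)) .out))) .out) .out) (.nx 213 2642247 (.nr 212
  2097153 (.nr 198 92 .s1 (.nx 199 408 (.l1 (.ls 79 37 1792)) (.nr 211 1482912 (.nx 204 30753 (.lg
  0 false 5 97 97 19 0 156240) (.nr 210 65537 (.nr 207 513 (.lg 0 true 3 67 67 17 0 2232) (.nx 209
  416129 (.lg 2 false 2 89 89 17 100585 156240) .out)) .out)) .out))) .out) .out)) (.na 233 99 (.nx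
  232 2642247 (.nr 231 2097153 (.nr 215 96 .s1 (.nx 224 30753 (.nx 216 408 (.l1 (.ls 79 29 1719))
  (.nr 223 1482912 (.lg 0 false 7 89 101 17 0 1718640) .out)) (.nr 230 65537 (.nr 227 513 (.lg 0
  true 3 67 67 16 0 2232) (.nx 229 416129 (.lg 2 true 2 83 83 16 100585 4464) .out)) .out))) .out)
  .out) (.na 251 103 (.nx 250 2642247 (.nr 249 2097153 (.nr 234 98 .s1 (.nx 244 30753 (.nx 236 248
  (.nr 235 1149 (.l1 (.ls 29 31 624)) (.l1 .sk)) (.nx 237 249 (.l1 .sk) (.nx 238 408 (.l1 (.ls 79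
  37 1058)) (.nr 243 1482912 (.lg 0 false 5 89 101 29 0 245520) .out)))) (.nr 248 65537 (.nr 246
  1149 (.lg 0 true 2 79 79 23 0 49104) (.nx 247 416129 (.lg 2 false 1 89 89 19 65784 49104) .out))
  .out))) .out) .out) (.nx 267 2642247 (.nr 266 2097153 (.nr 252 102 .s1 (.nx 253 408 (.l1 (.ls 79
  29 1619)) (.nr 265 1482912 (.nx 258 30753 (.lg 0 false 5 89 97 17 0 156240) (.nr 264 65537 (.nr
  261 513 (.lg 0 true 3 61 61 16 0 2232) (.nx 263 416129 (.lg 2 false 2 83 83 16 100585 4464)
  .out)) .out)) .out))) .out) .out)))) (.na 302 111 (.na 286 108 (.nx 285 2642247 (.nr 284 2097153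
  (.nr 269 103 .s1 (.nx 279 30753 (.nx 271 248 (.nr 270 1204 (.l1 (.ls 29 37 594)) (.l1 .sk)) (.nx
  272 249 (.l1 .sk) (.nx 273 408 (.l1 (.ls 83 37 1007)) (.nr 278 1482912 (.lg 0 false 5 89 101 31 0
  290160) .out)))) (.nr 283 65537 (.nr 281 1204 (.lg 0 true 2 79 79 29 0 58032) (.nx 282 416129
  (.lg 2 false 1 89 89 23 65784 58032) .out)) .out))) .out) .out) (.nx 301 2642247 (.nr 300 2097153
  (.nr 287 107 .s1 (.nx 295 30753 (.nx 289 248 (.nr 288 1238 (.l1 (.ls 37 37 572)) (.l1 .sk)) (.nx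
  290 249 (.l1 .sk) (.nx 291 408 (.l1 (.ls 83 41 970)) (.nr 294 1482912 (.lg 0 false 3 101 103 31 0
  1718640) .out)))) (.nr 299 65537 (.nr 297 513 (.lg 0 true 2 71 71 29 0 4464) (.nx 298 416129 (.lg
  2 false 1 89 89 23 100585 4464) .out)) .out))) .out) .out)) (.na 320 113 (.nx 319 2642247 (.nr
  318 2097153 (.nr 303 110 .s1 (.nx 313 30753 (.nx 307 408 (.nx 305 248 (.nr 304 1260 (.l1 (.ls 23
  29 557)) (.l1 .sk)) (.nx 306 249 (.l1 .sk) (.l1 (.ls 83 29 944)))) (.nr 312 1482912 (.lg 0 false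
  5 97 101 23 0 22320) .out)) (.nr 317 65537 (.nr 315 513 (.lg 0 true 2 71 71 19 0 4464) (.nx 316
  416129 (.lg 2 false 1 97 97 17 100585 4464) .out)) .out))) .out) .out) (.na 334 116 (.nx 333
  2642247 (.nr 332 2097153 (.nr 321 112 .s1 (.nx 322 408 (.l1 (.ls 73 29 1476)) (.nr 331 1482912
  (.nx 325 30753 (.lg 0 false 3 89 89 16 0 2232) (.nr 330 65537 (.nr 327 513 (.lg 0 true 2 67 67 16
  0 4464) (.nx 329 416129 (.lg 2 true 2 79 79 16 100585 4464) .out)) .out)) .out))) .out) .out)
  (.nx 348 2642247 (.nr 347 2097153 (.nr 335 115 .s1 (.nx 336 408 (.l1 (.ls 83 41 1438)) (.nr 346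
  1482912 (.nx 341 30753 (.lg 0 false 5 97 101 23 0 156240) (.nr 345 65537 (.nr 343 513 (.lg 0 true
  2 71 71 23 0 4464) (.nx 344 416129 (.lg 2 false 1 97 97 19 100585 4464) .out)) .out)) .out)))
  .out) .out)))))) (.na 456 141 (.na 407 129 (.na 377 123 (.na 362 121 (.nx 361 2642247 (.nr 360
  2097153 (.nr 350 116 .s1 (.nx 351 408 (.l1 (.ls 83 37 1425)) (.nr 359 1482912 (.nx 354 30753 (.lg
  0 false 3 101 103 29 0 2031120) (.nr 358 65537 (.nr 356 513 (.lg 0 true 2 73 73 23 0 58032) (.nx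
  357 416129 (.lg 2 false 1 101 101 19 100585 2031120) .out)) .out)) .out))) .out) .out) (.nx 376
  2642247 (.nr 375 2097153 (.nr 363 120 .s1 (.nx 370 30753 (.nx 364 408 (.l1 (.ls 73 31 1378)) (.nr
  369 1482912 (.lg 0 false 5 89 89 19 0 122760) .out)) (.nr 374 65537 (.nr 371 513 (.lg 0 false 1
  73 73 17 0 343728) (.nx 373 416129 (.lg 2 false 2 83 83 17 100585 343728) .out)) .out))) .out)
  .out)) (.na 390 124 (.nx 389 2642247 (.nr 388 2097153 (.nr 378 122 .s1 (.nx 379 408 (.l1 (.ls 89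
  31 1356)) (.nr 387 1482912 (.nx 382 30753 (.lg 0 false 3 103 107 23 0 1718640) (.nr 386 65537
  (.nr 384 513 (.lg 0 true 2 73 73 19 0 4464) (.nx 385 416129 (.lg 2 false 1 97 97 17 100585 2232)
  .out)) .out)) .out))) .out) .out) (.na 406 128 (.nx 405 2642247 (.nr 404 2097153 (.nr 391 123 .s1
  (.nx 398 30753 (.nx 392 408 (.l1 (.ls 73 41 1345)) (.nr 397 1482912 (.lg 0 false 5 89 89 23 0
  156240) .out)) (.nr 403 65537 (.nr 401 1427 (.lg 0 true 3 71 71 23 0 4464) (.nx 402 416129 (.lg 2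
  false 1 83 83 19 65784 31248) .out)) .out))) .out) .out) .ne))) (.na 426 132 (.na 425 131 (.nx
  424 1321124 (.nr 423 2097153 (.nr 408 129 .s1 (.nx 418 41287 (.nx 410 248 (.nr 409 1461 (.l1 (.ls
  23 23 479)) (.l1 .sk)) (.nx 411 249 (.l1 .sk) (.nx 416 26009 (.lg 0 false 5 97 101 29 0 156240)
  (.nr 417 65537 (.lg 0 false 1 73 73 19 0 2232) .out)))) (.nr 422 16385 (.nr 420 1025 (.lg 0 true
  2 73 73 19 0 4464) (.nx 421 165142 (.lg 2 true 1 71 71 19 19979 2232) .out)) .out))) .out) .out)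
  (.lg 0 false 1 0 0 16 0 24)) (.na 440 137 (.nx 439 1321124 (.nr 438 2097153 (.nr 427 132 .s1 (.nx
  430 249 (.nx 429 248 (.nr 428 1528 (.l1 (.ls 41 37 468)) (.l1 .sk)) (.l1 .sk)) (.nx 434 41287
  (.nr 431 262145 (.lg 0 false 1 101 101 31 0 245520) (.nx 433 20644 (.lg 0 false 2 103 107 37 0
  22342320) .out)) (.nr 437 16385 (.nr 435 1025 (.lg 0 true 1 79 79 31 0 49104) (.nx 436 165142
  (.lg 2 true 1 73 79 31 19979 245520) .out)) .out)))) .out) .out) (.na 441 139 (.lg 0 false 1 0 0
  16 0 24) (.nx 455 1321124 (.nr 454 2097153 (.nr 442 139 .s1 (.nx 444 248 (.nr 443 1572 (.l1 (.ls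
  17 19 445)) (.l1 .sk)) (.nx 445 249 (.l1 .sk) (.nx 450 41287 (.lg 0 false 5 89 89 17 0 22320)
  (.nr 453 16385 (.nr 451 1025 (.lg 0 false 1 67 67 16 0 2232) (.nx 452 165142 (.lg 2 false 1 59 59
  16 19979 2232) .out)) .out))))) .out) .out))))) (.na 512 151 (.na 484 147 (.na 471 143 (.nx 470
  1321124 (.nr 469 2097153 (.nr 457 141 .s1 (.nx 467 165142 (.nx 459 248 (.nr 458 1594 (.l1 (.ls 23
  23 439)) (.l1 .sk)) (.nx 460 249 (.l1 .sk) (.nx 465 26009 (.lg 0 false 5 97 101 29 0 245520) (.nr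
  466 65537 (.lg 0 true 1 89 89 19 0 2232) .out)))) (.nr 468 1025 (.lg 0 true 1 71 71 19 0 2232)
  .out))) .out) .out) (.nx 483 1321124 (.nr 482 2097153 (.nr 472 143 .s1 (.nx 475 249 (.nx 474 248
  (.nr 473 1639 (.l1 (.ls 41 29 433)) (.l1 .sk)) (.l1 .sk)) (.nx 480 165142 (.nx 478 26009 (.lg 0
  false 3 101 103 29 0 22342320) (.nr 479 65537 (.lg 0 false 1 101 101 19 0 22342320) .out)) (.nr
  481 1025 (.lg 0 true 1 73 73 19 0 319176) .out)))) .out) .out)) (.na 498 148 (.nx 497 1321124
  (.nr 496 2097153 (.nr 485 147 .s1 (.nx 487 248 (.nr 486 1650 (.l1 (.ls 29 29 421)) (.l1 .sk))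
  (.nx 488 249 (.l1 .sk) (.nx 492 41287 (.nr 489 262145 (.lg 0 true 1 97 97 23 0 156240) (.nx 491
  20644 (.lg 0 false 2 97 97 23 0 156240) .out)) (.nr 495 16385 (.nr 493 1025 (.lg 0 true 1 71 71
  23 0 15624) (.nx 494 165142 (.lg 2 true 1 67 67 23 19979 15624) .out)) .out))))) .out) .out) (.na
  511 149 (.nx 510 1321124 (.nr 509 2097153 (.nr 499 148 .s1 (.nx 507 165142 (.nx 505 26009 (.nx
  501 248 (.nr 500 1661 (.l1 (.ls 29 29 418)) (.l1 .sk)) (.nx 502 249 (.l1 .sk) (.lg 0 false 3 97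
  101 29 0 22320))) (.nr 506 65537 (.lg 0 false 1 97 97 23 0 22320) .out)) (.nr 508 1025 (.lg 0
  true 1 73 73 23 0 4464) .out))) .out) .out) (.lg 0 false 1 0 0 16 0 24)))) (.na 527 157 (.na 513
  156 (.lg 0 false 1 0 0 16 0 24) (.nx 526 1321124 (.nr 525 2097153 (.nr 514 156 .s1 (.nx 517 249
  (.nx 516 248 (.nr 515 1750 (.l1 (.ls 41 37 397)) (.l1 .sk)) (.l1 .sk)) (.nx 523 165142 (.nx 519
  20644 (.lg 0 false 2 101 103 41 0 4468464) (.nr 522 262145 (.nx 520 41287 (.lg 0 false 1 97 101
  37 0 4468464) (.nr 521 16385 (.lg 0 true 1 89 89 37 0 4468464) .out)) .out)) (.nr 524 1025 (.lg 0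
  true 1 79 79 37 0 58032) .out)))) .out) .out)) (.na 528 159 (.lg 0 false 1 0 0 16 0 24) (.na 543
  163 (.nx 542 1321124 (.nr 541 2097153 (.nr 529 159 .s1 (.nx 532 249 (.nx 531 248 (.nr 530 1817
  (.l1 (.ls 23 23 389)) (.l1 .sk)) (.l1 .sk)) (.nx 537 26009 (.lg 0 false 5 89 101 29 0 156240)
  (.nr 540 65537 (.nx 538 165142 (.lg 0 true 1 89 89 19 0 2232) (.nr 539 1025 (.lg 0 true 1 71 71
  19 0 2232) .out)) .out)))) .out) .out) (.lg 0 false 1 0 0 16 0 24))))))) (.na 749 213 (.na 646
  188 (.na 602 173 (.na 560 168 (.na 559 167 (.nx 558 1321124 (.nr 557 2097153 (.nr 545 164 .s1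
  (.nx 548 249 (.nx 547 248 (.nr 546 1862 (.l1 (.ls 23 29 378)) (.l1 .sk)) (.l1 .sk)) (.nx 553
  26009 (.lg 0 false 5 89 97 31 0 22320) (.nr 556 65537 (.nx 554 165142 (.lg 0 false 1 89 89 23 0
  4464) (.nr 555 1025 (.lg 0 true 1 71 71 23 0 4464) .out)) .out)))) .out) .out) (.lg 0 false 1 0 0
  16 0 24)) (.na 574 169 (.nx 573 1321124 (.nr 572 2097153 (.nr 561 168 .s1 (.nx 564 249 (.nx 563
  248 (.nr 562 1884 (.l1 (.ls 41 37 369)) (.l1 .sk)) (.l1 .sk)) (.nx 570 165142 (.nr 567 262145
  (.nx 565 41287 (.lg 0 false 1 97 101 37 0 156240) (.nr 566 16385 (.lg 0 true 1 83 89 37 0 156240)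
  .out)) (.nx 569 20644 (.lg 0 false 2 101 107 41 0 22342320) .out)) (.nr 571 1025 (.lg 0 true 1 79
  79 37 0 31248) .out)))) .out) .out) (.na 589 172 (.nx 588 1321124 (.nr 587 2097153 (.nr 575 169
  .s1 (.nx 578 249 (.nx 577 248 (.nr 576 1918 (.l1 (.ls 19 23 366)) (.l1 .sk)) (.l1 .sk)) (.nx 583
  41287 (.lg 0 false 5 89 89 23 0 145080) (.nr 586 16385 (.nr 584 1025 (.lg 0 false 1 67 67 17 0
  29016) (.nx 585 165142 (.lg 2 false 1 61 61 17 19979 58032) .out)) .out)))) .out) .out) (.nx 601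
  1321124 (.nr 600 2097153 (.nr 590 172 .s1 (.nx 598 165142 (.nx 592 248 (.nr 591 1929 (.l1 (.ls 29
  29 360)) (.l1 .sk)) (.nx 593 249 (.l1 .sk) (.nx 596 26009 (.lg 0 false 3 97 101 29 0 156240) (.nr
  597 65537 (.lg 0 true 1 89 89 23 0 4464) .out)))) (.nr 599 1025 (.lg 0 true 1 71 71 23 0 4464)
  .out))) .out) .out)))) (.na 618 181 (.na 603 179 (.lg 0 false 1 0 0 16 0 24) (.nx 617 1321124
  (.nr 616 2097153 (.nr 604 179 .s1 (.nx 606 248 (.nr 605 2018 (.l1 (.ls 17 19 346)) (.l1 .sk))
  (.nx 607 249 (.l1 .sk) (.nx 612 41287 (.lg 0 false 5 83 83 19 0 11160) (.nr 615 16385 (.nr 613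
  1025 (.lg 0 false 1 67 67 16 0 2232) (.nx 614 165142 (.lg 2 false 1 59 59 16 19979 2232) .out))
  .out))))) .out) .out)) (.na 633 182 (.nx 632 1321124 (.nr 631 2097153 (.nr 619 181 .s1 (.nx 621
  248 (.nr 620 2029 (.l1 (.ls 17 19 342)) (.l1 .sk)) (.nx 622 249 (.l1 .sk) (.nx 627 41287 (.lg 0
  false 5 83 83 19 0 11160) (.nr 630 16385 (.nr 628 1025 (.lg 0 false 1 61 61 16 0 2232) (.nx 629
  165142 (.lg 2 false 1 59 59 16 19979 4464) .out)) .out))))) .out) .out) (.na 634 183 .ne (.nx 645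
  1321124 (.nr 644 1482912 (.nr 635 183 .s1 (.nx 637 248 (.nr 636 2096 (.l1 (.ls 29 23 339)) (.l1
  .sk)) (.nx 638 249 (.l1 .sk) (.nx 640 26009 (.lg 0 false 2 97 97 23 0 22320) (.nr 643 65537 (.nx
  641 165142 (.lg 0 true 1 89 89 19 0 2232) (.nr 642 1025 (.lg 0 true 1 71 71 19 0 2232) .out))
  .out))))) .out) .out))))) (.na 710 197 (.na 670 191 (.na 658 189 (.nx 657 1321124 (.nr 656
  1482912 (.nr 647 188 .s1 (.nx 654 165142 (.nx 649 248 (.nr 648 2107 (.l1 (.ls 29 29 330)) (.l1
  .sk)) (.nx 650 249 (.l1 .sk) (.nx 652 26009 (.lg 0 false 2 97 97 29 0 22320) (.nr 653 65537 (.lg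
  0 true 1 89 89 23 0 4464) .out)))) (.nr 655 1025 (.lg 0 true 1 71 71 23 0 4464) .out))) .out)
  .out) (.nx 669 1321124 (.nr 668 1482912 (.nr 659 189 .s1 (.nx 664 26009 (.nx 661 248 (.nr 660
  2129 (.l1 (.ls 29 29 328)) (.l1 .sk)) (.nx 662 249 (.l1 .sk) (.lg 0 false 2 89 97 29 0 31248)))
  (.nr 667 65537 (.nx 665 165142 (.lg 0 true 1 83 83 23 0 15624) (.nr 666 1025 (.lg 0 true 1 67 67
  23 0 15624) .out)) .out))) .out) .out)) (.na 685 193 (.nx 684 1321124 (.nr 683 1482912 (.nr 671
  191 .s1 (.nx 673 248 (.nr 672 2152 (.l1 (.ls 17 19 325)) (.l1 .sk)) (.nx 674 249 (.l1 .sk) (.nx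
  679 41287 (.lg 0 false 5 83 83 19 0 156240) (.nr 682 16385 (.nr 680 1025 (.lg 0 false 1 67 67 16
  0 31248) (.nx 681 165142 (.lg 2 false 1 59 59 16 19979 2232) .out)) .out))))) .out) .out) (.na
  698 196 (.nx 697 1321124 (.nr 696 1482912 (.nr 686 193 .s1 (.nx 688 248 (.nr 687 2185 (.l1 (.ls
  19 19 321)) (.l1 .sk)) (.nx 689 249 (.l1 .sk) (.nx 692 41287 (.lg 0 false 3 83 83 17 0 2232) (.nr
  695 16385 (.nr 693 1025 (.lg 0 false 1 67 67 16 0 2232) (.nx 694 165142 (.lg 2 false 1 59 59 16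
  19979 2232) .out)) .out))))) .out) .out) (.nx 709 1321124 (.nr 708 1482912 (.nr 699 196 .s1 (.nx
  706 165142 (.nx 701 248 (.nr 700 2196 (.l1 (.ls 29 31 316)) (.l1 .sk)) (.nx 702 249 (.l1 .sk)
  (.nx 704 26009 (.lg 0 false 2 89 89 31 0 31248) (.nr 705 65537 (.lg 0 true 1 83 83 29 0 31248)
  .out)))) (.nr 707 1025 (.lg 0 true 1 67 67 29 0 31248) .out))) .out) .out)))) (.na 724 203 (.na
  723 199 (.nx 722 1321124 (.nr 721 1482912 (.nr 711 197 .s1 (.nx 717 41287 (.nx 713 248 (.nr 712
  2219 (.l1 (.ls 19 19 315)) (.l1 .sk)) (.nx 714 249 (.l1 .sk) (.lg 0 false 3 83 83 17 0 2232)))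
  (.nr 720 16385 (.nr 718 1025 (.lg 0 false 1 67 67 16 0 2232) (.nx 719 165142 (.lg 2 false 1 59 59
  16 19979 2232) .out)) .out))) .out) .out) (.lg 0 false 1 0 0 16 0 24)) (.na 736 211 (.nx 735
  1321124 (.nr 734 1482912 (.nr 725 203 .s1 (.nx 728 249 (.nx 727 248 (.nr 726 2352 (.l1 (.ls 23 23
  305)) (.l1 .sk)) (.l1 .sk)) (.nx 732 165142 (.nx 730 26009 (.lg 0 false 2 97 101 23 0 156240)
  (.nr 731 65537 (.lg 0 false 1 89 89 19 0 15624) .out)) (.nr 733 1025 (.lg 0 true 1 71 71 19 0
  15624) .out)))) .out) .out) (.na 737 212 (.lg 0 false 1 0 0 16 0 24) (.nx 748 1321124 (.nr 747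
  1482912 (.nr 738 212 .s1 (.nx 745 165142 (.nx 740 248 (.nr 739 2375 (.l1 (.ls 37 29 293)) (.l1
  .sk)) (.nx 741 249 (.l1 .sk) (.nx 743 26009 (.lg 0 false 2 101 101 29 0 156240) (.nr 744 65537
  (.lg 0 false 1 97 97 23 0 156240) .out)))) (.nr 746 1025 (.lg 0 true 1 71 71 23 0 4464) .out)))
  .out) .out)))))) (.na 834 241 (.na 788 229 (.na 773 217 (.na 761 216 (.nx 760 1321124 (.nr 759
  1482912 (.nr 750 213 .s1 (.nx 757 165142 (.nx 752 248 (.nr 751 2408 (.l1 (.ls 29 23 291)) (.l1
  .sk)) (.nx 753 249 (.l1 .sk) (.nx 755 26009 (.lg 0 false 2 97 97 23 0 4464) (.nr 756 65537 (.lg 0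
  true 1 83 83 19 0 2232) .out)))) (.nr 758 1025 (.lg 0 true 1 67 67 19 0 2232) .out))) .out) .out)
  (.nx 772 1321124 (.nr 771 1482912 (.nr 762 216 .s1 (.nx 769 165142 (.nx 767 26009 (.nx 764 248
  (.nr 763 2419 (.l1 (.ls 23 31 287)) (.l1 .sk)) (.nx 765 249 (.l1 .sk) (.lg 0 false 2 83 83 31 0
  4464))) (.nr 768 65537 (.lg 0 true 1 79 79 29 0 4464) .out)) (.nr 770 1025 (.lg 0 true 1 61 61 29
  0 4464) .out))) .out) .out)) (.na 786 223 (.nx 785 1321124 (.nr 784 1482912 (.nr 774 217 .s1 (.nx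
  780 41287 (.nx 776 248 (.nr 775 2486 (.l1 (.ls 23 23 286)) (.l1 .sk)) (.nx 777 249 (.l1 .sk) (.lg
  0 false 3 83 83 19 0 15624))) (.nr 783 16385 (.nr 781 1025 (.lg 0 false 1 67 67 17 0 15624) (.nx
  782 165142 (.lg 2 false 1 59 59 17 19979 15624) .out)) .out))) .out) .out) (.na 787 227 (.lg 0
  false 1 0 0 16 0 24) (.lg 0 false 1 0 0 16 0 24)))) (.na 810 232 (.na 799 231 (.nx 798 1321124
  (.nr 797 1482912 (.nr 789 229 .s1 (.nx 795 41287 (.nx 791 248 (.nr 790 2575 (.l1 (.ls 17 19 271))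
  (.l1 .sk)) (.nx 792 249 (.l1 .sk) (.lg 0 false 3 79 79 19 0 2232))) (.nr 796 16385 (.lg 0 false 1
  83 83 17 0 2232) .out))) .out) .out) (.nx 809 1321124 (.nr 808 1482912 (.nr 800 231 .s1 (.nx 802
  248 (.nr 801 2587 (.l1 (.ls 41 31 269)) (.l1 .sk)) (.nx 803 249 (.l1 .sk) (.nx 806 165142 (.nr
  804 65537 (.lg 0 true 1 89 97 31 0 343728) (.nx 805 26009 (.lg 0 false 1 97 101 31 0 343728)
  .out)) (.nr 807 1025 (.lg 0 true 1 73 73 31 0 171864) .out))))) .out) .out)) (.na 822 233 (.nx
  821 1321124 (.nr 820 1482912 (.nr 811 232 .s1 (.nx 813 248 (.nr 812 2598 (.l1 (.ls 23 23 268))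
  (.l1 .sk)) (.nx 814 249 (.l1 .sk) (.nx 816 26009 (.lg 0 false 2 97 97 23 0 22320) (.nr 819 65537
  (.nx 817 165142 (.lg 0 false 1 89 89 23 0 22320) (.nr 818 1025 (.lg 0 true 1 71 71 23 0 4464)
  .out)) .out))))) .out) .out) (.na 833 239 (.nx 832 1321124 (.nr 831 1482912 (.nr 823 233 .s1 (.nx
  826 249 (.nx 825 248 (.nr 824 2665 (.l1 (.ls 43 19 266)) (.l1 .sk)) (.l1 .sk)) (.nx 829 41287
  (.lg 0 false 3 83 83 19 0 2232) (.nr 830 16385 (.lg 0 false 1 83 83 17 0 2232) .out)))) .out)
  .out) (.lg 0 false 1 0 0 16 0 24))))) (.na 884 251 (.na 847 244 (.na 835 243 (.lg 0 false 1 0 0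
  16 0 24) (.nx 846 1321124 (.nr 845 1482912 (.nr 836 243 .s1 (.nx 838 248 (.nr 837 2720 (.l1 (.ls
  37 23 256)) (.l1 .sk)) (.nx 839 249 (.l1 .sk) (.nx 841 41287 (.lg 0 true 2 89 89 23 0 156240)
  (.nr 844 16385 (.nr 842 1025 (.lg 0 false 1 67 67 19 0 2232) (.nx 843 165142 (.lg 2 false 1 53 53
  19 19979 2232) .out)) .out))))) .out) .out)) (.na 859 248 (.nx 858 1321124 (.nr 857 1482912 (.nr
  848 244 .s1 (.nx 855 165142 (.nx 853 26009 (.nx 850 248 (.nr 849 2765 (.l1 (.ls 23 29 255)) (.l1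
  .sk)) (.nx 851 249 (.l1 .sk) (.lg 0 false 2 89 89 29 0 4464))) (.nr 854 65537 (.lg 0 true 1 83 83
  23 0 4464) .out)) (.nr 856 1025 (.lg 0 true 1 67 67 23 0 4464) .out))) .out) .out) (.na 872 249
  (.nx 871 1321124 (.nr 870 1482912 (.nr 860 248 .s1 (.nx 866 41287 (.nx 862 248 (.nr 861 2776 (.l1
  (.ls 23 29 250)) (.l1 .sk)) (.nx 863 249 (.l1 .sk) (.lg 0 false 3 83 83 29 0 4464))) (.nr 869
  16385 (.nr 867 1025 (.lg 0 false 1 67 67 23 0 4464) (.nx 868 165142 (.lg 2 false 1 59 59 23 19979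
  4464) .out)) .out))) .out) .out) (.nx 883 1321124 (.nr 882 1482912 (.nr 873 249 .s1 (.nx 875 248
  (.nr 874 2798 (.l1 (.ls 23 23 250)) (.l1 .sk)) (.nx 876 249 (.l1 .sk) (.nx 878 26009 (.lg 0 false
  2 79 89 23 0 4464) (.nr 881 65537 (.nx 879 165142 (.lg 0 true 1 79 79 23 0 2232) (.nr 880 1025
  (.lg 0 true 1 61 61 23 0 2232) .out)) .out))))) .out) .out)))) (.na 909 257 (.na 897 252 (.nx 896
  1321124 (.nr 895 1482912 (.nr 885 251 .s1 (.nx 888 249 (.nx 887 248 (.nr 886 2809 (.l1 (.ls 17 19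
  248)) (.l1 .sk)) (.l1 .sk)) (.nx 891 41287 (.lg 0 false 3 79 79 19 0 2232) (.nr 894 16385 (.nr
  892 1025 (.lg 0 false 1 61 61 17 0 2232) (.nx 893 165142 (.lg 2 true 1 53 53 17 19979 2232)
  .out)) .out)))) .out) .out) (.na 908 256 (.nx 907 1321124 (.nr 906 1482912 (.nr 898 252 .s1 (.nx
  901 249 (.nx 900 248 (.nr 899 2854 (.l1 (.ls 41 37 247)) (.l1 .sk)) (.l1 .sk)) (.nx 904 165142
  (.nr 902 65537 (.lg 0 true 1 89 97 37 0 156240) (.nx 903 26009 (.lg 0 false 1 101 101 37 0
  156240) .out)) (.nr 905 1025 (.lg 0 true 1 73 73 37 0 156240) .out)))) .out) .out) .ne)) (.na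
  1340 363 (.nx 1339 1321124 (.nr 1338 1482912 (.nr 910 257 .s1 (.nx 1124 26009 (.nx 1018 249 (.nx
  1017 248 (.nr 1016 4047 (.la (.ls 41 23 242)) (.l1 .sk)) (.l1 .sk)) (.la (.lg 0 false 2 83 83 29
  0))) (.nr 1337 32769 (.nx 1230 165142 (.la (.lg 0 true 1 73 73 23 0)) (.nr 1336 2049 (.la (.lg 0
  true 1 67 67 23 0)) .out)) .out))) .out) .out) (.na 1943 512 (.nx 1942 1321124 (.nr 1941 1482912
  (.nr 1341 363 .s1 (.nx 1492 249 (.nx 1491 248 (.nr 1490 5708 (.la (.ls 53 23 172)) (.l1 .sk))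
  (.l1 .sk)) (.nx 1641 26009 (.la (.lg 0 false 1 83 83 23 0)) (.nr 1940 32769 (.nx 1790 165142 (.la
  (.lg 0 true 1 71 71 23 0)) (.nr 1939 2049 (.la (.lg 0 true 1 67 67 23 0)) .out)) .out)))) .out)
  .out) (.nx 2587 1321124 (.nr 2586 1482912 (.nr 1944 512 .s1 (.nx 2159 249 (.nx 2158 248 (.nr 2157
  8082 (.la (.ls 47 23 182)) (.l1 .sk)) (.l1 .sk)) (.nr 2372 32769 (.la (.lg 0 true 1 79 79 29 0))
  (.nx 2585 26009 (.la (.lg 0 false 1 79 79 29 0)) .out)))) .out) .out))))))))

theorem c65 :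
    OkQ ckI L10 232 1 5 0 34359738368 1 1099511627776 ∧
    OkQ ckI L10 248 63 725 0 34359738368 1 1099511627776 := by
  refine ⟨?_, ?_⟩
  · refine fin 696 785 T65_0 ?_
    refine jn 8 (by decide +kernel) ?_
    refine jn 12 (by decide +kernel) ?_
    refine jn 17 (by decide +kernel) ?_
    refine jn 23 (by decide +kernel) ?_
    refine jn 29 (by decide +kernel) ?_
    refine jn 34 (by decide +kernel) ?_
    refine jn 39 (by decide +kernel) ?_
    refine jn 44 (by decide +kernel) ?_
    refine jn 48 (by decide +kernel) ?_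
    refine jn 53 (by decide +kernel) ?_
    refine jn 57 (by decide +kernel) ?_
    refine jn 62 (by decide +kernel) ?_
    refine jn 68 (by decide +kernel) ?_
    refine jn 72 (by decide +kernel) ?_
    refine jn 77 (by decide +kernel) ?_
    refine jn 80 (by decide +kernel) ?_
    refine jn 91 (by decide +kernel) ?_
    refine jn 103 (by decide +kernel) ?_
    refine jn 117 (by decide +kernel) ?_
    refine jn 131 (by decide +kernel) ?_
    refine jn 145 (by decide +kernel) ?_
    refine jn 157 (by decide +kernel) ?_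
    refine jn 175 (by decide +kernel) ?_
    refine jn 193 (by decide +kernel) ?_
    refine jn 210 (by decide +kernel) ?_
    refine jn 228 (by decide +kernel) ?_
    refine jn 244 (by decide +kernel) ?_
    refine jn 262 (by decide +kernel) ?_
    refine jn 271 (by decide +kernel) ?_
    refine jn 282 (by decide +kernel) ?_
    refine jn 299 (by decide +kernel) ?_
    refine jn 316 (by decide +kernel) ?_
    refine jn 333 (by decide +kernel) ?_
    refine jn 345 (by decide +kernel) ?_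
    refine jn 359 (by decide +kernel) ?_
    refine jn 373 (by decide +kernel) ?_
    refine jn 387 (by decide +kernel) ?_
    refine jn 401 (by decide +kernel) ?_
    refine jn 408 (by decide +kernel) ?_
    refine jn 445 (by decide +kernel) ?_
    refine jn 478 (by decide +kernel) ?_
    refine jn 501 (by decide +kernel) ?_
    refine jn 503 (by decide +kernel) ?_
    refine jn 532 (by decide +kernel) ?_
    refine jn 543 (by decide +kernel) ?_
    refine jn 545 (by decide +kernel) ?_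
    refine jn 547 (by decide +kernel) ?_
    refine jn 550 (by decide +kernel) ?_
    refine jn 553 (by decide +kernel) ?_
    refine jn 556 (by decide +kernel) ?_
    refine jn 559 (by decide +kernel) ?_
    refine jn 562 (by decide +kernel) ?_
    refine jn 563 (by decide +kernel) ?_
    refine jn 565 (by decide +kernel) ?_
    refine jn 568 (by decide +kernel) ?_
    refine jn 570 (by decide +kernel) ?_
    refine jn 573 (by decide +kernel) ?_
    refine jn 576 (by decide +kernel) ?_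
    refine jn 579 (by decide +kernel) ?_
    refine jn 581 (by decide +kernel) ?_
    refine jn 582 (by decide +kernel) ?_
    refine jn 595 (by decide +kernel) ?_
    refine jn 599 (by decide +kernel) ?_
    refine jn 602 (by decide +kernel) ?_
    refine jn 605 (by decide +kernel) ?_
    refine jn 608 (by decide +kernel) ?_
    refine jn 609 (by decide +kernel) ?_
    refine jn 616 (by decide +kernel) ?_
    refine jn 623 (by decide +kernel) ?_
    refine jn 629 (by decide +kernel) ?_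
    refine jn 634 (by decide +kernel) ?_
    refine jn 640 (by decide +kernel) ?_
    refine jn 646 (by decide +kernel) ?_
    refine jn 650 (by decide +kernel) ?_
    refine jn 656 (by decide +kernel) ?_
    refine jn 662 (by decide +kernel) ?_
    refine jn 667 (by decide +kernel) ?_
    refine jn 673 (by decide +kernel) ?_
    refine jn 676 (by decide +kernel) ?_
    refine jn 689 (by decide +kernel) ?_
    refine jn 702 (by decide +kernel) ?_
    refine jn 711 (by decide +kernel) ?_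
    refine jn 712 (by decide +kernel) ?_
    refine jn 717 (by decide +kernel) ?_
    refine jn 767 (by decide +kernel) ?_
    refine jn 780 (by decide +kernel) ?_
    exact je (by decide +kernel)
  · refine fin 2232 2588 T65_1 ?_
    refine jn 4 (by decide +kernel) ?_
    refine jn 5 (by decide +kernel) ?_
    refine jn 6 (by decide +kernel) ?_
    refine jn 7 (by decide +kernel) ?_
    refine jn 8 (by decide +kernel) ?_
    refine jn 9 (by decide +kernel) ?_
    refine jn 10 (by decide +kernel) ?_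
    refine jn 11 (by decide +kernel) ?_
    refine jn 12 (by decide +kernel) ?_
    refine jn 13 (by decide +kernel) ?_
    refine jn 14 (by decide +kernel) ?_
    refine jn 19 (by decide +kernel) ?_
    refine jn 22 (by decide +kernel) ?_
    refine jn 38 (by decide +kernel) ?_
    refine jn 50 (by decide +kernel) ?_
    refine jn 52 (by decide +kernel) ?_
    refine jn 56 (by decide +kernel) ?_
    refine jn 59 (by decide +kernel) ?_
    refine jn 69 (by decide +kernel) ?_
    refine jn 73 (by decide +kernel) ?_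
    refine jn 77 (by decide +kernel) ?_
    refine jn 91 (by decide +kernel) ?_
    refine jn 98 (by decide +kernel) ?_
    refine jn 112 (by decide +kernel) ?_
    refine jn 121 (by decide +kernel) ?_
    refine jn 127 (by decide +kernel) ?_
    refine jn 128 (by decide +kernel) ?_
    refine jn 129 (by decide +kernel) ?_
    refine jn 130 (by decide +kernel) ?_
    refine jn 131 (by decide +kernel) ?_
    refine jn 132 (by decide +kernel) ?_
    refine jn 134 (by decide +kernel) ?_
    refine jn 135 (by decide +kernel) ?_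
    refine jn 136 (by decide +kernel) ?_
    refine jn 137 (by decide +kernel) ?_
    refine jn 149 (by decide +kernel) ?_
    refine jn 152 (by decide +kernel) ?_
    refine jn 157 (by decide +kernel) ?_
    refine jn 169 (by decide +kernel) ?_
    refine jn 172 (by decide +kernel) ?_
    refine jn 182 (by decide +kernel) ?_
    refine jn 188 (by decide +kernel) ?_
    refine jn 191 (by decide +kernel) ?_
    refine jn 204 (by decide +kernel) ?_
    refine jn 215 (by decide +kernel) ?_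
    refine jn 223 (by decide +kernel) ?_
    refine jn 234 (by decide +kernel) ?_
    refine jn 243 (by decide +kernel) ?_
    refine jn 247 (by decide +kernel) ?_
    refine jn 261 (by decide +kernel) ?_
    refine jn 273 (by decide +kernel) ?_
    refine jn 278 (by decide +kernel) ?_
    refine jn 282 (by decide +kernel) ?_
    refine jn 294 (by decide +kernel) ?_
    refine jn 298 (by decide +kernel) ?_
    refine jn 312 (by decide +kernel) ?_
    refine jn 316 (by decide +kernel) ?_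
    refine jn 329 (by decide +kernel) ?_
    refine jn 341 (by decide +kernel) ?_
    refine jn 344 (by decide +kernel) ?_
    refine jn 354 (by decide +kernel) ?_
    refine jn 357 (by decide +kernel) ?_
    refine jn 373 (by decide +kernel) ?_
    refine jn 382 (by decide +kernel) ?_
    refine jn 385 (by decide +kernel) ?_
    refine jn 402 (by decide +kernel) ?_
    refine jn 416 (by decide +kernel) ?_
    refine jn 421 (by decide +kernel) ?_
    refine jn 430 (by decide +kernel) ?_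
    refine jn 431 (by decide +kernel) ?_
    refine jn 433 (by decide +kernel) ?_
    refine jn 435 (by decide +kernel) ?_
    refine jn 450 (by decide +kernel) ?_
    refine jn 460 (by decide +kernel) ?_
    refine jn 465 (by decide +kernel) ?_
    refine jn 472 (by decide +kernel) ?_
    refine jn 478 (by decide +kernel) ?_
    refine jn 485 (by decide +kernel) ?_
    refine jn 491 (by decide +kernel) ?_
    refine jn 500 (by decide +kernel) ?_
    refine jn 506 (by decide +kernel) ?_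
    refine jn 517 (by decide +kernel) ?_
    refine jn 519 (by decide +kernel) ?_
    refine jn 521 (by decide +kernel) ?_
    refine jn 532 (by decide +kernel) ?_
    refine jn 537 (by decide +kernel) ?_
    refine jn 546 (by decide +kernel) ?_
    refine jn 553 (by decide +kernel) ?_
    refine jn 561 (by decide +kernel) ?_
    refine jn 565 (by decide +kernel) ?_
    refine jn 569 (by decide +kernel) ?_
    refine jn 583 (by decide +kernel) ?_
    refine jn 596 (by decide +kernel) ?_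
    refine jn 606 (by decide +kernel) ?_
    refine jn 614 (by decide +kernel) ?_
    refine jn 629 (by decide +kernel) ?_
    refine jn 641 (by decide +kernel) ?_
    refine jn 652 (by decide +kernel) ?_
    refine jn 660 (by decide +kernel) ?_
    refine jn 666 (by decide +kernel) ?_
    refine jn 681 (by decide +kernel) ?_
    refine jn 694 (by decide +kernel) ?_
    refine jn 705 (by decide +kernel) ?_
    refine jn 718 (by decide +kernel) ?_
    refine jn 731 (by decide +kernel) ?_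
    refine jn 743 (by decide +kernel) ?_
    refine jn 755 (by decide +kernel) ?_
    refine jn 767 (by decide +kernel) ?_
    refine jn 780 (by decide +kernel) ?_
    refine jn 796 (by decide +kernel) ?_
    refine jn 805 (by decide +kernel) ?_
    refine jn 816 (by decide +kernel) ?_
    refine jn 829 (by decide +kernel) ?_
    refine jn 842 (by decide +kernel) ?_
    refine jn 854 (by decide +kernel) ?_
    refine jn 868 (by decide +kernel) ?_
    refine jn 879 (by decide +kernel) ?_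
    refine jn 893 (by decide +kernel) ?_
    refine jn 903 (by decide +kernel) ?_
    refine jn 917 (by decide +kernel) ?_
    refine jn 937 (by decide +kernel) ?_
    refine jn 961 (by decide +kernel) ?_
    refine jn 977 (by decide +kernel) ?_
    refine jn 1001 (by decide +kernel) ?_
    refine jn 1020 (by decide +kernel) ?_
    refine jn 1022 (by decide +kernel) ?_
    refine jn 1025 (by decide +kernel) ?_
    refine jn 1026 (by decide +kernel) ?_
    refine jn 1034 (by decide +kernel) ?_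
    refine jn 1035 (by decide +kernel) ?_
    refine jn 1042 (by decide +kernel) ?_
    refine jn 1045 (by decide +kernel) ?_
    refine jn 1048 (by decide +kernel) ?_
    refine jn 1052 (by decide +kernel) ?_
    refine jn 1057 (by decide +kernel) ?_
    refine jn 1058 (by decide +kernel) ?_
    refine jn 1062 (by decide +kernel) ?_
    refine jn 1069 (by decide +kernel) ?_
    refine jn 1070 (by decide +kernel) ?_
    refine jn 1073 (by decide +kernel) ?_
    refine jn 1074 (by decide +kernel) ?_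
    refine jn 1085 (by decide +kernel) ?_
    refine jn 1089 (by decide +kernel) ?_
    refine jn 1090 (by decide +kernel) ?_
    refine jn 1093 (by decide +kernel) ?_
    refine jn 1094 (by decide +kernel) ?_
    refine jn 1100 (by decide +kernel) ?_
    refine jn 1104 (by decide +kernel) ?_
    refine jn 1108 (by decide +kernel) ?_
    refine jn 1109 (by decide +kernel) ?_
    refine jn 1110 (by decide +kernel) ?_
    refine jn 1124 (by decide +kernel) ?_
    refine jn 1130 (by decide +kernel) ?_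
    refine jn 1136 (by decide +kernel) ?_
    refine jn 1140 (by decide +kernel) ?_
    refine jn 1144 (by decide +kernel) ?_
    refine jn 1151 (by decide +kernel) ?_
    refine jn 1158 (by decide +kernel) ?_
    refine jn 1164 (by decide +kernel) ?_
    refine jn 1175 (by decide +kernel) ?_
    refine jn 1176 (by decide +kernel) ?_
    refine jn 1179 (by decide +kernel) ?_
    refine jn 1186 (by decide +kernel) ?_
    refine jn 1195 (by decide +kernel) ?_
    refine jn 1199 (by decide +kernel) ?_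
    refine jn 1206 (by decide +kernel) ?_
    refine jn 1211 (by decide +kernel) ?_
    refine jn 1215 (by decide +kernel) ?_
    refine jn 1218 (by decide +kernel) ?_
    refine jn 1232 (by decide +kernel) ?_
    refine jn 1237 (by decide +kernel) ?_
    refine jn 1242 (by decide +kernel) ?_
    refine jn 1246 (by decide +kernel) ?_
    refine jn 1247 (by decide +kernel) ?_
    refine jn 1260 (by decide +kernel) ?_
    refine jn 1269 (by decide +kernel) ?_
    refine jn 1274 (by decide +kernel) ?_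
    refine jn 1281 (by decide +kernel) ?_
    refine jn 1282 (by decide +kernel) ?_
    refine jn 1285 (by decide +kernel) ?_
    refine jn 1292 (by decide +kernel) ?_
    refine jn 1302 (by decide +kernel) ?_
    refine jn 1306 (by decide +kernel) ?_
    refine jn 1316 (by decide +kernel) ?_
    refine jn 1321 (by decide +kernel) ?_
    refine jn 1324 (by decide +kernel) ?_
    refine jn 1347 (by decide +kernel) ?_
    refine jn 1374 (by decide +kernel) ?_
    refine jn 1405 (by decide +kernel) ?_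
    refine jn 1429 (by decide +kernel) ?_
    refine jn 1462 (by decide +kernel) ?_
    refine jn 1482 (by decide +kernel) ?_
    refine jn 1493 (by decide +kernel) ?_
    refine jn 1494 (by decide +kernel) ?_
    refine jn 1501 (by decide +kernel) ?_
    refine jn 1506 (by decide +kernel) ?_
    refine jn 1517 (by decide +kernel) ?_
    refine jn 1521 (by decide +kernel) ?_
    refine jn 1525 (by decide +kernel) ?_
    refine jn 1532 (by decide +kernel) ?_
    refine jn 1541 (by decide +kernel) ?_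
    refine jn 1552 (by decide +kernel) ?_
    refine jn 1556 (by decide +kernel) ?_
    refine jn 1558 (by decide +kernel) ?_
    refine jn 1560 (by decide +kernel) ?_
    refine jn 1570 (by decide +kernel) ?_
    refine jn 1573 (by decide +kernel) ?_
    refine jn 1580 (by decide +kernel) ?_
    refine jn 1590 (by decide +kernel) ?_
    refine jn 1597 (by decide +kernel) ?_
    refine jn 1602 (by decide +kernel) ?_
    refine jn 1608 (by decide +kernel) ?_
    refine jn 1613 (by decide +kernel) ?_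
    refine jn 1620 (by decide +kernel) ?_
    refine jn 1621 (by decide +kernel) ?_
    refine jn 1626 (by decide +kernel) ?_
    refine jn 1632 (by decide +kernel) ?_
    refine jn 1633 (by decide +kernel) ?_
    refine jn 1636 (by decide +kernel) ?_
    refine jn 1641 (by decide +kernel) ?_
    refine jn 1642 (by decide +kernel) ?_
    refine jn 1647 (by decide +kernel) ?_
    refine jn 1654 (by decide +kernel) ?_
    refine jn 1665 (by decide +kernel) ?_
    refine jn 1670 (by decide +kernel) ?_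
    refine jn 1674 (by decide +kernel) ?_
    refine jn 1685 (by decide +kernel) ?_
    refine jn 1701 (by decide +kernel) ?_
    refine jn 1707 (by decide +kernel) ?_
    refine jn 1717 (by decide +kernel) ?_
    refine jn 1722 (by decide +kernel) ?_
    refine jn 1730 (by decide +kernel) ?_
    refine jn 1746 (by decide +kernel) ?_
    refine jn 1755 (by decide +kernel) ?_
    refine jn 1762 (by decide +kernel) ?_
    refine jn 1770 (by decide +kernel) ?_
    refine jn 1775 (by decide +kernel) ?_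
    refine jn 1782 (by decide +kernel) ?_
    refine jn 1787 (by decide +kernel) ?_
    refine jn 1791 (by decide +kernel) ?_
    refine jn 1798 (by decide +kernel) ?_
    refine jn 1804 (by decide +kernel) ?_
    refine jn 1816 (by decide +kernel) ?_
    refine jn 1823 (by decide +kernel) ?_
    refine jn 1834 (by decide +kernel) ?_
    refine jn 1850 (by decide +kernel) ?_
    refine jn 1856 (by decide +kernel) ?_
    refine jn 1866 (by decide +kernel) ?_
    refine jn 1871 (by decide +kernel) ?_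
    refine jn 1879 (by decide +kernel) ?_
    refine jn 1895 (by decide +kernel) ?_
    refine jn 1904 (by decide +kernel) ?_
    refine jn 1911 (by decide +kernel) ?_
    refine jn 1919 (by decide +kernel) ?_
    refine jn 1926 (by decide +kernel) ?_
    refine jn 1934 (by decide +kernel) ?_
    refine jn 1955 (by decide +kernel) ?_
    refine jn 1996 (by decide +kernel) ?_
    refine jn 2005 (by decide +kernel) ?_
    refine jn 2031 (by decide +kernel) ?_
    refine jn 2068 (by decide +kernel) ?_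
    refine jn 2103 (by decide +kernel) ?_
    refine jn 2128 (by decide +kernel) ?_
    refine jn 2163 (by decide +kernel) ?_
    refine jn 2164 (by decide +kernel) ?_
    refine jn 2170 (by decide +kernel) ?_
    refine jn 2184 (by decide +kernel) ?_
    refine jn 2190 (by decide +kernel) ?_
    refine jn 2203 (by decide +kernel) ?_
    refine jn 2206 (by decide +kernel) ?_
    refine jn 2211 (by decide +kernel) ?_
    refine jn 2214 (by decide +kernel) ?_
    refine jn 2218 (by decide +kernel) ?_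
    refine jn 2219 (by decide +kernel) ?_
    refine jn 2220 (by decide +kernel) ?_
    refine jn 2226 (by decide +kernel) ?_
    refine jn 2230 (by decide +kernel) ?_
    refine jn 2235 (by decide +kernel) ?_
    refine jn 2238 (by decide +kernel) ?_
    refine jn 2254 (by decide +kernel) ?_
    refine jn 2256 (by decide +kernel) ?_
    refine jn 2258 (by decide +kernel) ?_
    refine jn 2263 (by decide +kernel) ?_
    refine jn 2264 (by decide +kernel) ?_
    refine jn 2283 (by decide +kernel) ?_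
    refine jn 2284 (by decide +kernel) ?_
    refine jn 2290 (by decide +kernel) ?_
    refine jn 2298 (by decide +kernel) ?_
    refine jn 2318 (by decide +kernel) ?_
    refine jn 2324 (by decide +kernel) ?_
    refine jn 2334 (by decide +kernel) ?_
    refine jn 2340 (by decide +kernel) ?_
    refine jn 2343 (by decide +kernel) ?_
    refine jn 2346 (by decide +kernel) ?_
    refine jn 2364 (by decide +kernel) ?_
    refine jn 2376 (by decide +kernel) ?_
    refine jn 2377 (by decide +kernel) ?_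
    refine jn 2393 (by decide +kernel) ?_
    refine jn 2399 (by decide +kernel) ?_
    refine jn 2409 (by decide +kernel) ?_
    refine jn 2419 (by decide +kernel) ?_
    refine jn 2424 (by decide +kernel) ?_
    refine jn 2427 (by decide +kernel) ?_
    refine jn 2431 (by decide +kernel) ?_
    refine jn 2432 (by decide +kernel) ?_
    refine jn 2433 (by decide +kernel) ?_
    refine jn 2441 (by decide +kernel) ?_
    refine jn 2447 (by decide +kernel) ?_
    refine jn 2448 (by decide +kernel) ?_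
    refine jn 2451 (by decide +kernel) ?_
    refine jn 2467 (by decide +kernel) ?_
    refine jn 2471 (by decide +kernel) ?_
    refine jn 2476 (by decide +kernel) ?_
    refine jn 2479 (by decide +kernel) ?_
    refine jn 2497 (by decide +kernel) ?_
    refine jn 2503 (by decide +kernel) ?_
    refine jn 2513 (by decide +kernel) ?_
    refine jn 2536 (by decide +kernel) ?_
    refine jn 2547 (by decide +kernel) ?_
    refine jn 2553 (by decide +kernel) ?_
    refine jn 2556 (by decide +kernel) ?_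
    refine jn 2559 (by decide +kernel) ?_
    refine jn 2581 (by decide +kernel) ?_
    exact je (by decide +kernel)

end Pool.Agent.MP_2339ce_nt.NR
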