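import Pool.Agent.MP_2339ce_nt.Q2.NC.L6
import Pool.Agent.MP_2339ce_nt.Q2.CkI

/-! Block NR: runs. -/

set_option autoImplicit false
set_option maxRecDepth 100000

noncomputable section

namespace Pool.Agent.MP_2339ce_nt.NR

open Q2.Top

def T83_0 : Ph :=
  (.na 631 6 (.na 296 3 (.na 176 2 (.nx 175 1321124 (.nr 174 311745 (.nx 149 660563 (.nx 44 8848
  (.nx 2 95 (.nr 1 10 (.lg 0 false 1 43 43 5 0 6840) (.l1 .sk)) (.nx 3 96 (.l1 .sk) (.nr 31 46342
  (.lg 0 false 28 101 103 11 0 1053360) (.nx 43 205 (.lg 0 false 12 89 89 9 0 13680) .out)))) (.nr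
  148 38969 (.nx 126 330282 (.nr 72 432 (.lg 0 true 28 97 97 11 0 95760) (.nr 84 1219 (.lg 2 true
  12 89 97 9 36316 13680) (.nx 125 208065 (.nx 96 16385 (.lg 1 false 12 103 107 9 19924 13693680)
  (.nr 124 27556 (.lg 2 false 28 101 107 11 8108 13693680) .out)) .out))) (.nr 147 109 (.lg 0 true
  21 83 89 11 0 47880) .out)) .out)) (.nr 173 13 (.lg 0 true 24 79 79 9 0 13680) .out)) .out) .out)
  (.nx 295 3329023 (.nr 294 623489 (.nx 179 96 (.nx 178 95 (.nr 177 19 (.lg 0 false 1 41 41 5 0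
  13680) (.l1 .sk)) (.l1 .sk)) (.nr 279 77937 (.nr 271 65537 (.nx 200 9555 (.lg 0 false 21 97 101
  11 0 95760) (.nr 240 257 (.nx 221 1321124 (.lg 0 true 21 89 89 11 0 95760) (.nr 239 9 (.lg 0 true
  18 71 71 9 0 13680) .out)) (.nx 270 165142 (.nx 251 20644 (.lg 1 false 11 101 103 9 30998 150480)
  (.nr 269 46342 (.nr 258 1100 (.lg 2 true 7 83 83 9 30523 95760) (.lg 2 false 11 103 107 9 10151
  13693680)) .out)) .out))) (.nx 278 1292 (.lg 0 false 7 83 83 9 0 95760) .out)) (.nx 293 205 (.lg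
  0 false 14 83 83 9 0 95760) .out))) .out) .out)) (.na 420 4 (.nx 419 6658044 (.nr 418 881745 (.nx
  299 96 (.nx 298 95 (.nr 297 26 (.lg 0 true 1 37 37 5 0 13680) (.l1 .sk)) (.l1 .sk)) (.nr 410
  110219 (.nx 381 832257 (.nx 321 9137 (.nr 313 55110 (.lg 0 false 14 97 97 16 0 95760) (.nx 320
  1292 (.lg 0 false 7 89 97 13 0 95760) .out)) (.nr 380 65537 (.nx 372 416129 (.nr 334 364 (.lg 0
  true 13 83 83 16 0 88920) (.nx 371 208065 (.nr 341 3220 (.lg 2 true 7 89 97 13 27152 95760) (.nx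
  356 28090 (.nx 349 13003 (.nr 348 55110 (.lg 1 false 7 89 101 13 27266 95760) .out) (.lg 1 false
  7 101 103 13 22778 95760)) (.nx 363 52017 (.lg 1 true 7 101 103 13 10544 1053360) (.nr 370 38969
  (.lg 2 false 7 97 101 13 3389 95760) .out)))) .out)) (.nr 379 109 (.lg 0 true 7 79 79 13 0 47880)
  .out)) .out)) (.nr 409 33 (.lg 0 true 28 83 83 16 0 95760) .out)) (.nx 417 205 (.lg 0 false 7 83
  83 13 0 47880) .out))) .out) .out) (.na 539 5 (.nx 538 10568985 (.nr 537 1246976 (.nx 423 96 (.nx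
  422 95 (.nr 421 34 (.lg 0 true 1 37 37 9 0 13680) (.l1 .sk)) (.l1 .sk)) (.nx 486 330282 (.nx 446
  10321 (.nr 430 55110 (.lg 0 true 7 101 101 11 0 95760) (.nx 445 1292 (.nr 437 155873 (.lg 0 false
  7 89 97 11 0 95760) (.nx 444 205 (.lg 0 false 7 83 83 11 0 95760) .out)) .out)) (.nr 485 65537
  (.nr 463 2635 (.nr 460 694 (.lg 0 true 14 89 89 13 0 95760) (.lg 2 true 3 89 89 9 22606 13680))
  (.nx 470 20642 (.lg 1 false 7 101 107 11 28697 13693680) (.nx 477 41287 (.lg 1 true 7 101 107 11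
  14349 13693680) (.nr 484 55110 (.lg 2 false 7 103 107 11 6034 13693680) .out)))) .out)) (.nr 536
  183 (.nr 528 34 (.lg 0 true 42 83 89 13 0 95760) (.nx 535 1321124 (.lg 0 true 7 89 89 11 0 95760)
  .out)) .out))) .out) .out) (.nx 630 10568985 (.nr 629 1482912 (.nx 542 96 (.nx 541 95 (.nr 540 41
  (.lg 0 true 1 31 31 9 0 13680) (.l1 .sk)) (.l1 .sk)) (.nr 615 65537 (.nx 553 10321 (.lg 0 false
  11 89 89 16 0 75240) (.nx 586 1321124 (.nr 574 422 (.lg 0 true 21 79 83 16 0 47880) (.nx 585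
  262145 (.lg 2 false 11 101 103 16 29507 150480) .out)) (.nr 614 24 (.lg 0 true 28 73 73 11 0
  95760) .out))) (.nx 628 205 (.lg 0 false 13 73 73 16 0 88920) .out))) .out) .out)))) (.na 748 9
  (.na 679 7 (.nx 678 1321124 (.nr 677 220437 (.nx 634 96 (.nx 633 95 (.nr 632 48 (.lg 0 true 1 31
  31 7 0 13680) (.l1 .sk)) (.l1 .sk)) (.nr 669 55110 (.nx 645 16932 (.lg 0 false 11 97 97 17 0
  150480) (.nr 658 501 (.lg 0 true 13 89 89 19 0 177840) (.nx 668 416129 (.nr 661 1905 (.lg 2 true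
  3 83 83 13 39454 13680) (.lg 2 false 7 97 103 13 14713 95760)) .out))) (.nx 676 1292 (.lg 0 false
  7 89 97 13 0 95760) .out))) .out) .out) (.na 680 8 .ne (.nx 747 10568985 (.nr 746 623489 (.nx 723
  1321124 (.nx 683 96 (.nx 682 95 (.nr 681 62 (.lg 0 true 1 37 37 11 0 13680) (.l1 .sk)) (.l1 .sk))
  (.nr 719 220437 (.nr 715 77937 (.nx 690 9411 (.lg 0 false 7 89 97 13 0 95760) (.nr 714 65537 (.nr
  701 364 (.lg 0 true 11 83 89 19 0 150480) (.nx 713 208065 (.nr 703 2504 (.lg 2 true 2 89 89 11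
  27152 13680) (.nx 709 41287 (.nx 706 19712 (.lg 1 false 3 103 107 13 31472 13693680) (.lg 1 true
  3 103 107 13 15025 13693680)) (.nr 712 46342 (.lg 2 false 3 97 101 13 5076 95760) .out))) .out))
  .out)) (.nx 718 814 (.lg 0 false 3 89 89 13 0 13680) .out)) (.nx 722 408 (.lg 0 false 3 89 89 13
  0 13680) .out))) (.nr 745 55 (.lg 0 true 22 83 89 13 0 150480) .out)) .out) .out))) (.na 811 10
  (.nx 810 10568985 (.nr 809 623489 (.nx 751 96 (.nx 750 95 (.nr 749 69 (.lg 0 false 1 29 29 7 0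
  13680) (.l1 .sk)) (.l1 .sk)) (.nx 766 13005 (.nr 758 77937 (.lg 0 false 7 97 97 16 0 95760) (.nx
  765 814 (.lg 0 false 7 83 89 16 0 47880) .out)) (.nr 808 65537 (.nr 800 364 (.nr 792 65 (.lg 0
  true 26 83 83 16 0 177840) (.nx 799 1321124 (.lg 0 true 7 83 83 16 0 47880) .out)) (.nx 807
  165142 (.lg 2 false 7 101 107 16 22774 13693680) .out)) .out))) .out) .out) (.na 852 11 (.nx 851
  1321124 (.nr 850 623489 (.nr 812 3 .s1 (.nx 815 96 (.nx 814 95 (.nr 813 76 (.l1 (.ls 17 37 905))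
  (.l1 .sk)) (.l1 .sk)) (.nx 828 14046 (.nx 816 324 (.l1 (.ls 83 47 9579)) (.nr 827 220437 (.nr 823
  77937 (.lg 0 false 7 89 89 13 0 95760) (.nx 826 814 (.lg 0 true 3 73 73 11 0 13680) .out)) .out))
  (.nr 849 65537 (.nr 841 374 (.lg 0 true 13 79 79 13 0 177840) (.nx 848 165142 (.lg 2 false 7 97
  97 13 21087 95760) .out)) .out)))) .out) .out) (.nx 892 1321124 (.nr 891 623489 (.nr 853 6 .s1
  (.nx 856 96 (.nx 855 95 (.nr 854 83 (.lg 0 true 1 29 29 9 0 150480) (.l1 .sk)) (.l1 .sk)) (.nx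
  884 330282 (.nx 871 20644 (.nr 863 77937 (.lg 0 false 7 97 101 16 0 1053360) (.nx 870 814 (.lg 0
  false 7 89 89 16 0 526680) .out)) (.nr 883 55110 (.nr 878 766 (.lg 0 true 7 83 83 16 0 526680)
  (.nx 882 165142 (.lg 2 false 4 97 97 16 12068 150480) .out)) .out)) (.nr 890 65 (.lg 0 true 6 73
  73 16 0 150480) .out)))) .out) .out)))))

def T83_1 : Ph :=
  (.na 733 149 (.na 419 84 (.na 249 49 (.na 129 34 (.na 47 28 (.na 24 26 (.na 1 24 .ne (.nx 23
  1321124 (.nr 22 1048577 (.nr 2 23 .s1 (.nx 6 205 (.nx 4 87 (.nr 3 172 (.l1 (.ls 31 31 318)) (.l1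
  .sk)) (.nx 5 88 (.l1 .sk) (.l1 (.ls 89 41 1431)))) (.nr 21 185365 (.nx 9 6503 (.lg 0 false 3 97
  97 23 0 146160) (.nr 20 92683 (.nx 11 16385 (.lg 1 false 2 97 97 19 53993 146160) (.nr 19 38969
  (.nr 16 513 (.nx 12 165142 (.lg 0 false 1 79 79 13 0 4176) (.nr 15 183 (.lg 0 true 3 73 73 23 0
  4176) .out)) (.nx 18 82572 (.lg 1 true 2 97 97 19 9022 146160) .out)) .out)) .out)) .out))) .out)
  .out)) (.na 46 27 (.nx 45 1321124 (.nr 44 1048577 (.nr 25 25 .s1 (.nx 28 88 (.nx 27 87 (.nr 26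
  179 (.l1 (.ls 23 29 294)) (.l1 .sk)) (.l1 .sk)) (.nx 35 16385 (.nx 29 205 (.l1 (.ls 83 41 1321))
  (.nr 34 185365 (.lg 0 false 5 97 97 19 0 1900080) .out)) (.nr 43 38969 (.nr 40 513 (.lg 0 true 5
  79 79 19 0 90480) (.nx 42 82572 (.lg 2 true 2 83 83 11 9022 18096) .out)) .out)))) .out) .out)
  (.lg 0 false 1 0 0 7 0 24))) (.na 88 32 (.na 68 29 (.nx 67 1321124 (.nr 66 1048577 (.nr 48 27 .s1
  (.nx 58 16385 (.nx 50 87 (.nr 49 192 (.l1 (.ls 23 29 273)) (.l1 .sk)) (.nx 51 88 (.l1 .sk) (.nx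
  52 205 (.l1 (.ls 83 37 1227)) (.nr 57 185365 (.lg 0 false 5 97 101 23 0 1607760) .out)))) (.nr 65
  38969 (.nr 63 513 (.lg 0 true 5 79 79 23 0 48720) (.nx 64 82572 (.lg 1 false 1 97 97 13 9022
  321552) .out)) .out))) .out) .out) (.nx 87 1321124 (.nr 86 1048577 (.nr 69 28 .s1 (.nx 75 16385
  (.nx 70 205 (.l1 (.ls 73 23 1452)) (.nr 74 185365 (.lg 0 true 4 83 83 16 0 20880) .out)) (.nr 85
  38969 (.nr 82 513 (.lg 0 true 7 67 67 16 0 4872) (.nx 84 82572 (.lg 2 true 2 73 73 13 9022 20880)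
  .out)) .out))) .out) .out)) (.na 111 33 (.nx 110 1321124 (.nr 109 1048577 (.nr 89 31 .s1 (.nx 91
  87 (.nr 90 219 (.l1 (.ls 23 23 239)) (.l1 .sk)) (.nx 92 88 (.l1 .sk) (.nx 93 205 (.l1 (.ls 83 31
  1074)) (.nr 108 370729 (.nx 98 10323 (.lg 0 false 5 89 97 19 0 146160) (.nr 107 55110 (.nr 103
  513 (.lg 0 true 5 73 73 19 0 6960) (.nx 106 82572 (.nx 104 16385 (.lg 1 false 1 79 79 13 20237
  4176) (.nr 105 38969 (.lg 1 false 1 89 89 13 9022 4176) .out)) .out)) .out)) .out))))) .out)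
  .out) (.nx 128 1321124 (.nr 127 370729 (.nr 112 32 .s1 (.nx 114 87 (.nr 113 225 (.l1 (.ls 19 23
  232)) (.l1 .sk)) (.nx 115 88 (.l1 .sk) (.nx 120 13005 (.lg 0 false 5 97 97 19 0 1607760) (.nr 126
  23172 (.nr 124 225 (.lg 0 true 4 71 71 17 0 45936) (.nx 125 82572 (.lg 2 true 1 83 83 16 15964
  22968) .out)) .out))))) .out) .out)))) (.na 184 42 (.na 150 39 (.na 149 36 (.nx 148 1321124 (.nr
  147 370729 (.nr 130 33 .s1 (.nx 133 88 (.nx 132 87 (.nr 131 238 (.l1 (.ls 16 29 225)) (.l1 .sk))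
  (.l1 .sk)) (.nx 140 13005 (.lg 0 false 7 89 97 23 0 146160) (.nr 146 23172 (.nr 144 238 (.lg 0
  true 4 71 71 13 0 1392) (.nx 145 82572 (.lg 2 true 1 83 83 13 15092 1392) .out)) .out)))) .out)
  .out) (.lg 0 false 1 0 0 7 0 24)) (.na 167 41 (.nx 166 1321124 (.nr 165 370729 (.nr 151 38 .s1
  (.nx 154 88 (.nx 153 87 (.nr 152 272 (.l1 (.ls 23 23 197)) (.l1 .sk)) (.l1 .sk)) (.nx 158 13005
  (.lg 0 false 4 89 89 17 0 54288) (.nr 164 23172 (.nr 162 272 (.lg 0 true 4 71 71 17 0 54288) (.nx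
  163 82572 (.lg 2 true 1 83 83 16 13206 27144) .out)) .out)))) .out) .out) (.nx 183 1321124 (.nr
  182 370729 (.nr 168 40 .s1 (.nx 175 13005 (.nx 170 87 (.nr 169 278 (.l1 (.ls 16 17 187)) (.l1
  .sk)) (.nx 171 88 (.l1 .sk) (.lg 0 false 4 89 89 16 0 1392))) (.nr 181 23172 (.nr 179 278 (.lg 0
  true 4 67 67 16 0 1392) (.nx 180 82572 (.lg 2 true 1 79 79 16 12921 696) .out)) .out))) .out)
  .out))) (.na 218 46 (.na 202 44 (.nx 201 1321124 (.nr 200 370729 (.nr 185 41 .s1 (.nx 193 13005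
  (.nx 187 87 (.nr 186 291 (.l1 (.ls 19 31 183)) (.l1 .sk)) (.nx 188 88 (.l1 .sk) (.lg 0 false 5 89
  89 29 0 146160))) (.nr 199 23172 (.nr 197 291 (.lg 0 true 4 71 71 29 0 29232) (.nx 198 82572 (.lg
  2 true 1 79 79 19 12344 29232) .out)) .out))) .out) .out) (.nx 217 1321124 (.nr 216 370729 (.nr
  203 44 .s1 (.nx 213 82572 (.nx 205 87 (.nr 204 305 (.l1 (.ls 31 29 175)) (.l1 .sk)) (.nx 206 88
  (.l1 .sk) (.nx 211 20644 (.nr 208 77937 (.lg 0 true 2 83 83 23 0 15312) (.nx 210 6503 (.lg 0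
  false 2 101 101 23 0 1607760) .out)) (.nr 212 13779 (.lg 0 false 1 97 97 19 0 1607760) .out))))
  (.nr 215 217 (.lg 0 true 2 73 73 23 0 15312) .out))) .out) .out)) (.na 219 47 .ne (.na 236 48
  (.nx 235 1321124 (.nr 234 311745 (.nr 220 47 .s1 (.nx 228 10323 (.nx 222 87 (.nr 221 318 (.l1
  (.ls 16 17 164)) (.l1 .sk)) (.nx 223 88 (.l1 .sk) (.lg 0 false 5 83 83 16 0 3480))) (.nr 233
  23172 (.nr 231 318 (.lg 0 true 3 67 67 16 0 2088) (.nx 232 82572 (.lg 2 true 1 79 79 16 11296
  696) .out)) .out))) .out) .out) (.nx 248 1321124 (.nr 247 311745 (.nr 237 48 .s1 (.nx 242 10323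
  (.nx 239 87 (.nr 238 324 (.l1 (.ls 19 29 160)) (.l1 .sk)) (.nx 240 88 (.l1 .sk) (.lg 0 false 2 83
  89 23 0 4176))) (.nr 246 23172 (.nr 244 324 (.lg 0 true 2 71 71 23 0 4176) (.nx 245 82572 (.lg 2
  true 1 73 73 19 11087 4176) .out)) .out))) .out) .out)))))) (.na 336 65 (.na 295 56 (.na 281 52
  (.na 265 51 (.nx 264 1321124 (.nr 263 311745 (.nr 250 49 .s1 (.nx 252 87 (.nr 251 338 (.l1 (.ls
  19 17 157)) (.l1 .sk)) (.nx 253 88 (.l1 .sk) (.nx 257 10323 (.lg 0 false 4 83 83 16 0 9744) (.nr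
  262 23172 (.nr 260 338 (.lg 0 true 3 71 71 16 0 14616) (.nx 261 82572 (.lg 2 true 1 73 73 16
  10627 4872) .out)) .out))))) .out) .out) (.nx 280 1321124 (.nr 279 311745 (.nr 266 51 .s1 (.nx
  273 10323 (.nx 268 87 (.nr 267 344 (.l1 (.ls 16 23 151)) (.l1 .sk)) (.nx 269 88 (.l1 .sk) (.lg 0
  false 4 89 89 16 0 146160))) (.nr 278 23172 (.nr 276 344 (.lg 0 true 3 71 71 16 0 2088) (.nx 277
  82572 (.lg 2 true 1 79 79 16 10442 2088) .out)) .out))) .out) .out)) (.na 294 54 (.nx 293 1321124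
  (.nr 292 311745 (.nr 282 52 .s1 (.nx 285 88 (.nx 284 87 (.nr 283 358 (.l1 (.ls 23 29 148)) (.l1
  .sk)) (.l1 .sk)) (.nx 287 10323 (.lg 0 false 2 89 89 23 0 18096) (.nr 291 23172 (.nr 289 358 (.lg
  0 true 2 71 71 23 0 18096) (.nx 290 82572 (.lg 2 true 1 79 79 19 10034 18096) .out)) .out))))
  .out) .out) (.lg 0 false 1 0 0 16 0 24))) (.na 322 63 (.na 308 58 (.nx 307 1321124 (.nr 306
  311745 (.nr 296 56 .s1 (.nx 299 88 (.nx 298 87 (.nr 297 384 (.l1 (.ls 37 23 138)) (.l1 .sk)) (.l1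
  .sk)) (.nx 302 20644 (.nr 300 46342 (.lg 0 false 1 89 89 23 0 9744) (.nx 301 8193 (.lg 0 false 1
  101 101 23 0 146160) .out)) (.nr 305 13779 (.nx 303 82572 (.lg 0 true 1 97 97 23 0 146160) (.nr
  304 217 (.lg 0 true 1 73 73 23 0 9744) .out)) .out)))) .out) .out) (.nx 321 1321124 (.nr 320
  311745 (.nr 309 58 .s1 (.nx 312 88 (.nx 311 87 (.nr 310 417 (.lg 0 false 1 0 16 13 0 4180176)
  (.l1 .sk)) (.l1 .sk)) (.nx 317 82572 (.lg 0 true 5 89 89 17 0 146160) (.nr 319 217 (.lg 0 false 2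
  61 61 13 0 1392) .out)))) .out) .out)) (.na 323 64 (.lg 0 false 1 0 0 16 0 24) (.nx 335 1321124
  (.nr 334 524289 (.nr 324 64 .s1 (.nx 326 87 (.nr 325 430 (.l1 (.ls 23 19 121)) (.l1 .sk)) (.nx
  327 88 (.l1 .sk) (.nx 329 10323 (.lg 0 false 2 89 89 19 0 1392) (.nr 333 23172 (.nr 331 513 (.lg
  0 true 2 71 71 19 0 1392) (.nx 332 82572 (.lg 2 false 1 71 71 17 8528 1392) .out)) .out)))))
  .out) .out)))) (.na 381 72 (.na 352 67 (.na 337 66 .ne (.nx 351 1321124 (.nr 350 524289 (.nr 338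
  66 .s1 (.nx 341 88 (.nx 340 87 (.nr 339 444 (.l1 (.ls 23 31 117)) (.l1 .sk)) (.l1 .sk)) (.nx 344
  8193 (.lg 0 false 3 83 83 29 0 45936) (.nr 349 8193 (.nr 347 513 (.lg 0 true 3 71 71 29 0 45936)
  (.nx 348 82572 (.lg 2 true 1 67 67 23 7002 45936) .out)) .out)))) .out) .out)) (.na 368 68 (.nx
  367 1321124 (.nr 366 524289 (.nr 353 67 .s1 (.nx 360 8193 (.nx 355 87 (.nr 354 450 (.l1 (.ls 16
  16 115)) (.l1 .sk)) (.nx 356 88 (.l1 .sk) (.lg 0 false 4 79 79 16 0 1392))) (.nr 365 8193 (.nr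
  363 513 (.lg 0 true 3 61 61 16 0 2088) (.nx 364 82572 (.lg 2 true 1 59 59 16 7002 696) .out))
  .out))) .out) .out) (.nx 380 1321124 (.nr 379 524289 (.nr 369 68 .s1 (.nx 374 8193 (.nx 371 87
  (.nr 370 477 (.l1 (.ls 16 23 114)) (.l1 .sk)) (.nx 372 88 (.l1 .sk) (.lg 0 false 2 89 89 23 0
  1392))) (.nr 378 8193 (.nr 376 513 (.lg 0 true 2 73 73 23 0 1392) (.nx 377 82572 (.lg 2 false 1
  67 67 13 7002 1392) .out)) .out))) .out) .out))) (.na 395 78 (.na 382 77 (.lg 0 false 1 0 0 16 0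
  24) (.nx 394 1321124 (.nr 393 524289 (.nr 383 77 .s1 (.nx 386 88 (.nx 385 87 (.nr 384 516 (.l1
  (.ls 23 19 101)) (.l1 .sk)) (.l1 .sk)) (.nx 388 8193 (.lg 0 false 2 89 89 19 0 107184) (.nr 392
  8193 (.nr 390 513 (.lg 0 true 2 73 73 19 0 107184) (.nx 391 82572 (.lg 2 true 1 67 67 17 7002
  53592) .out)) .out)))) .out) .out)) (.na 406 81 (.nx 405 1321124 (.nr 404 524289 (.nr 396 78 .s1
  (.nx 400 8193 (.nx 398 87 (.nr 397 536 (.l1 (.ls 17 29 100)) (.l1 .sk)) (.nx 399 88 (.l1 .sk)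
  (.lg 0 true 1 89 89 23 0 54288))) (.nr 403 8193 (.nr 401 536 (.lg 0 false 1 73 73 23 0 54288)
  (.nx 402 82572 (.lg 2 true 1 61 61 23 6702 54288) .out)) .out))) .out) .out) (.na 407 82 (.lg 0
  false 1 0 0 16 0 24) (.nx 418 1321124 (.nr 417 524289 (.nr 408 82 .s1 (.nx 412 8193 (.nx 410 87
  (.nr 409 556 (.l1 (.ls 17 19 95)) (.l1 .sk)) (.nx 411 88 (.l1 .sk) (.lg 0 true 1 89 89 13 0
  1392))) (.nr 416 8193 (.nr 414 513 (.lg 0 true 2 67 67 19 0 1392) (.nx 415 82572 (.lg 2 false 1
  61 61 13 7002 1392) .out)) .out))) .out) .out))))))) (.na 596 116 (.na 517 99 (.na 469 91 (.na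
  446 88 (.na 432 87 (.nx 431 1321124 (.nr 430 524289 (.nr 420 84 .s1 (.nx 423 88 (.nx 422 87 (.nr
  421 576 (.l1 (.ls 31 29 93)) (.l1 .sk)) (.l1 .sk)) (.nx 425 8193 (.lg 0 false 2 89 89 31 0
  146160) (.nr 429 8193 (.nr 427 513 (.lg 0 true 2 73 73 31 0 29232) (.nx 428 82572 (.lg 2 false 1
  67 67 29 7002 29232) .out)) .out)))) .out) .out) (.nx 445 1321124 (.nr 444 524289 (.nr 433 87 .s1
  (.nx 436 88 (.nx 435 87 (.nr 434 583 (.l1 (.ls 16 17 89)) (.l1 .sk)) (.l1 .sk)) (.nr 441 8193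
  (.lg 0 true 5 71 71 17 0 10440) (.nx 443 8193 (.lg 0 true 2 73 73 16 0 4176) .out)))) .out)
  .out)) (.na 457 89 (.nx 456 1321124 (.nr 455 524289 (.nr 447 88 .s1 (.nx 450 88 (.nx 449 87 (.nr
  448 589 (.l1 (.ls 31 23 89)) (.l1 .sk)) (.l1 .sk)) (.nx 453 82572 (.nx 451 8193 (.lg 0 false 1 89
  89 29 0 15312) (.nr 452 8193 (.lg 0 true 1 79 83 29 0 15312) .out)) (.nr 454 513 (.lg 0 true 1 73
  73 29 0 15312) .out)))) .out) .out) (.nx 468 1321124 (.nr 467 524289 (.nr 458 89 .s1 (.nx 460 87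
  (.nr 459 602 (.l1 (.ls 17 16 88)) (.l1 .sk)) (.nx 461 88 (.l1 .sk) (.nx 463 8193 (.lg 0 false 2
  79 79 16 0 1392) (.nr 466 8193 (.nr 464 513 (.lg 2 false 1 71 71 16 645718 146160) (.nx 465 82572
  (.lg 2 true 1 53 53 16 7002 696) .out)) .out))))) .out) .out))) (.na 493 96 (.na 482 94 (.nx 481
  1321124 (.nr 480 524289 (.nr 470 91 .s1 (.nx 475 8193 (.nx 472 87 (.nr 471 622 (.l1 (.ls 31 19
  86)) (.l1 .sk)) (.nx 473 88 (.l1 .sk) (.lg 0 false 2 89 89 19 0 126672))) (.nr 479 8193 (.nr 477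
  513 (.lg 0 true 2 73 73 19 0 126672) (.nx 478 82572 (.lg 2 true 1 61 61 19 7002 63336) .out))
  .out))) .out) .out) (.nx 492 1321124 (.nr 491 524289 (.nr 483 94 .s1 (.nx 486 88 (.nx 485 87 (.nr
  484 635 (.l1 (.ls 37 19 83)) (.l1 .sk)) (.l1 .sk)) (.nx 487 8193 (.lg 0 true 1 89 89 17 0 1392)
  (.nr 490 8193 (.nr 488 513 (.lg 2 false 1 71 71 17 611372 1392) (.nx 489 82572 (.lg 2 false 1 61
  61 17 7002 1392) .out)) .out)))) .out) .out)) (.na 506 98 (.nx 505 1321124 (.nr 504 524289 (.nr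
  494 96 .s1 (.nx 497 88 (.nx 496 87 (.nr 495 649 (.l1 (.ls 31 23 81)) (.l1 .sk)) (.l1 .sk)) (.nx
  499 8193 (.lg 0 false 2 89 89 29 0 146160) (.nr 503 8193 (.nr 501 649 (.lg 0 true 2 73 73 29 0
  4176) (.nx 502 82572 (.lg 2 false 1 61 61 23 5535 4176) .out)) .out)))) .out) .out) (.nx 516
  1321124 (.nr 515 524289 (.nr 507 98 .s1 (.nx 509 87 (.nr 508 655 (.l1 (.ls 17 23 80)) (.l1 .sk))
  (.nx 510 88 (.l1 .sk) (.nx 511 8193 (.lg 0 true 1 83 83 19 0 29232) (.nr 514 8193 (.nr 512 513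
  (.lg 2 false 1 67 67 19 586418 9744) (.nx 513 82572 (.lg 2 true 1 59 59 19 7002 29232) .out))
  .out))))) .out) .out)))) (.na 551 104 (.na 529 102 (.na 518 101 (.lg 0 false 1 0 0 16 0 24) (.nx
  528 1321124 (.nr 527 524289 (.nr 519 101 .s1 (.nx 522 88 (.nx 521 87 (.nr 520 675 (.l1 (.ls 17 16
  77)) (.l1 .sk)) (.l1 .sk)) (.nx 523 8193 (.lg 0 true 1 83 83 16 0 696) (.nr 526 8193 (.nr 524 513
  (.lg 2 false 1 67 67 16 568999 696) (.nx 525 82572 (.lg 2 true 1 53 53 16 7002 696) .out))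
  .out)))) .out) .out)) (.na 540 103 (.nx 539 1321124 (.nr 538 524289 (.nr 530 102 .s1 (.nx 534
  8193 (.nx 532 87 (.nr 531 682 (.l1 (.ls 16 29 77)) (.l1 .sk)) (.nx 533 88 (.l1 .sk) (.lg 0 true 1
  83 83 29 0 4176))) (.nr 537 8193 (.nr 535 513 (.lg 2 false 1 71 71 29 563421 29232) (.nx 536
  82572 (.lg 2 true 1 59 59 29 7002 4176) .out)) .out))) .out) .out) (.nx 550 1321124 (.nr 549
  524289 (.nr 541 103 .s1 (.nx 545 8193 (.nx 543 87 (.nr 542 688 (.l1 (.ls 16 16 76)) (.l1 .sk))
  (.nx 544 88 (.l1 .sk) (.lg 0 true 1 83 83 16 0 29232))) (.nr 548 8193 (.nr 546 513 (.lg 2 false 1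
  61 61 16 557951 696) (.nx 547 82572 (.lg 2 true 1 53 53 16 7002 696) .out)) .out))) .out) .out)))
  (.na 563 109 (.na 562 108 (.nx 561 1321124 (.nr 560 524289 (.nr 552 104 .s1 (.nx 558 82572 (.nx
  554 87 (.nr 553 715 (.l1 (.ls 37 23 75)) (.l1 .sk)) (.nx 555 88 (.l1 .sk) (.nx 556 8193 (.lg 0
  false 1 97 97 29 0 18096) (.nr 557 8193 (.lg 0 true 1 83 83 29 0 18096) .out)))) (.nr 559 513
  (.lg 0 true 1 73 73 29 0 18096) .out))) .out) .out) (.lg 0 false 1 0 0 16 0 24)) (.na 574 112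
  (.nx 573 1321124 (.nr 572 524289 (.nr 564 109 .s1 (.nx 568 8193 (.nx 566 87 (.nr 565 741 (.l1
  (.ls 17 16 72)) (.l1 .sk)) (.nx 567 88 (.l1 .sk) (.lg 0 true 1 79 79 16 0 696))) (.nr 571 8193
  (.nr 569 513 (.lg 2 false 1 61 61 16 527238 696) (.nx 570 82572 (.lg 2 false 1 53 53 16 7002 696)
  .out)) .out))) .out) .out) (.na 585 113 (.nx 584 1321124 (.nr 583 524289 (.nr 575 112 .s1 (.nx
  577 87 (.nr 576 748 (.l1 (.ls 31 23 70)) (.l1 .sk)) (.nx 578 88 (.l1 .sk) (.nx 581 82572 (.nx 579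
  8193 (.lg 0 false 1 89 89 29 0 9744) (.nr 580 8193 (.lg 0 true 1 79 79 29 0 9744) .out)) (.nr 582
  513 (.lg 0 true 1 73 73 29 0 9744) .out))))) .out) .out) (.nx 595 1321124 (.nr 594 524289 (.nr
  586 113 .s1 (.nx 589 88 (.nx 588 87 (.nr 587 768 (.l1 (.ls 16 16 69)) (.l1 .sk)) (.l1 .sk)) (.nx
  590 8193 (.lg 0 true 1 73 73 16 0 696) (.nr 593 8193 (.nr 591 513 (.lg 2 false 1 59 59 16 508575
  696) (.nx 592 82572 (.lg 2 true 1 47 47 16 7002 696) .out)) .out)))) .out) .out)))))) (.na 662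
  132 (.na 630 123 (.na 608 119 (.na 607 117 (.nx 606 1321124 (.nr 605 524289 (.nr 597 116 .s1 (.nx
  600 88 (.nx 599 87 (.nr 598 774 (.l1 (.ls 17 19 68)) (.l1 .sk)) (.l1 .sk)) (.nx 601 8193 (.lg 0
  true 1 83 83 19 0 1392) (.nr 604 8193 (.nr 602 513 (.lg 2 false 1 61 61 19 495422 1392) (.nx 603
  82572 (.lg 2 true 1 53 53 19 7002 1392) .out)) .out)))) .out) .out) (.lg 0 false 1 0 0 16 0 24))
  (.na 619 121 (.nx 618 1321124 (.nr 617 524289 (.nr 609 119 .s1 (.nx 613 8193 (.nx 611 87 (.nr 610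
  801 (.l1 (.ls 16 16 66)) (.l1 .sk)) (.nx 612 88 (.l1 .sk) (.lg 0 true 1 97 97 16 0 146160))) (.nr
  616 8193 (.nr 614 513 (.lg 2 true 1 67 67 16 482932 4872) (.nx 615 82572 (.lg 2 true 1 61 61 16
  7002 4872) .out)) .out))) .out) .out) (.nx 629 1321124 (.nr 628 524289 (.nr 620 121 .s1 (.nx 622
  87 (.nr 621 814 (.l1 (.ls 37 17 65)) (.l1 .sk)) (.nx 623 88 (.l1 .sk) (.nx 624 8193 (.lg 0 true 1
  89 89 17 0 1607760) (.nr 627 8193 (.nr 625 513 (.lg 2 false 1 61 61 17 474950 7656) (.nx 626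
  82572 (.lg 2 true 1 53 53 17 7002 7656) .out)) .out))))) .out) .out))) (.na 642 128 (.na 641 126
  (.nx 640 1321124 (.nr 639 524289 (.nr 631 123 .s1 (.nx 633 87 (.nr 632 834 (.l1 (.ls 16 17 64))
  (.l1 .sk)) (.nx 634 88 (.l1 .sk) (.nx 635 8193 (.lg 0 true 1 83 83 17 0 2088) (.nr 638 8193 (.nr
  636 513 (.lg 2 false 1 67 67 17 467227 2088) (.nx 637 82572 (.lg 2 true 1 59 59 17 7002 2088)
  .out)) .out))))) .out) .out) (.lg 0 false 1 0 0 16 0 24)) (.na 653 129 (.nx 652 1321124 (.nr 651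
  1048577 (.nr 643 128 .s1 (.nx 646 8193 (.nx 644 205 (.l1 (.ls 73 29 331)) (.nr 645 524289 (.lg 0
  false 1 79 79 19 0 1392) .out)) (.nr 650 8193 (.nr 648 1025 (.lg 0 true 2 71 71 23 0 1392) (.nx
  649 82572 (.lg 2 true 1 53 53 19 3825 1392) .out)) .out))) .out) .out) (.na 654 131 .ne (.nx 661
  660563 (.nr 660 1048577 (.nr 655 131 .s1 (.nx 656 205 (.l1 (.ls 97 19 323)) (.nr 659 524289 (.nr
  657 8193 (.lg 0 false 1 79 79 16 0 696) (.nx 658 6503 (.lg 0 true 1 83 83 16 0 146160) .out))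
  .out))) .out) .out))))) (.na 698 139 (.na 680 136 (.na 672 134 (.nx 671 660563 (.nr 670 1048577
  (.nr 663 132 .s1 (.nx 666 6503 (.nx 664 205 (.l1 (.ls 73 37 321)) (.nr 665 524289 (.lg 0 false 1
  79 79 31 0 45936) .out)) (.nr 669 8193 (.nr 667 1025 (.lg 0 true 1 67 67 31 0 45936) (.nx 668
  82572 (.lg 2 false 1 59 59 31 4820 45936) .out)) .out))) .out) .out) (.nx 679 660563 (.nr 678
  1048577 (.nr 673 134 .s1 (.nx 674 205 (.l1 (.ls 61 29 316)) (.nr 677 524289 (.nr 675 8193 (.lg 0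
  false 1 83 83 19 0 1392) (.nx 676 6503 (.lg 0 true 1 83 83 19 0 20880) .out)) .out))) .out)
  .out)) (.na 690 137 (.nx 689 660563 (.nr 688 1048577 (.nr 681 136 .s1 (.nx 682 205 (.l1 (.ls 83
  31 312)) (.nr 687 524289 (.nx 683 6503 (.lg 0 false 1 89 89 29 0 1392) (.nr 686 8193 (.nr 684
  1025 (.lg 0 true 1 79 79 29 0 1392) (.nx 685 82572 (.lg 2 false 1 61 61 29 4820 1392) .out))
  .out)) .out))) .out) .out) (.nx 697 660563 (.nr 696 1048577 (.nr 691 137 .s1 (.nx 692 205 (.l1
  (.ls 67 19 309)) (.nr 695 524289 (.nr 693 8193 (.lg 0 false 1 79 79 16 0 696) (.nx 694 6503 (.lg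
  0 true 1 73 73 16 0 696) .out)) .out))) .out) .out))) (.na 714 143 (.na 706 141 (.nx 705 660563
  (.nr 704 1048577 (.nr 699 139 .s1 (.nx 700 205 (.l1 (.ls 89 19 305)) (.nr 703 524289 (.nr 701
  8193 (.lg 0 false 1 79 79 16 0 696) (.nx 702 6503 (.lg 0 true 1 73 73 16 0 696) .out)) .out)))
  .out) .out) (.nx 713 660563 (.nr 712 1048577 (.nr 707 141 .s1 (.nx 708 205 (.l1 (.ls 89 23 301))
  (.nr 711 524289 (.nr 709 8193 (.lg 0 false 1 83 83 17 0 2088) (.nx 710 6503 (.lg 0 true 1 79 79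
  17 0 2088) .out)) .out))) .out) .out)) (.na 724 144 (.nx 723 660563 (.nr 722 1048577 (.nr 715 143
  .s1 (.nx 718 6503 (.nx 716 205 (.l1 (.ls 73 23 296)) (.nr 717 524289 (.lg 0 false 1 79 79 19 0
  99528) .out)) (.nr 721 8193 (.nr 719 1025 (.lg 0 true 1 67 67 19 0 99528) (.nx 720 82572 (.lg 2
  true 1 59 59 19 4820 99528) .out)) .out))) .out) .out) (.na 725 147 (.lg 0 false 1 0 0 16 0 24)
  (.nx 732 660563 (.nr 731 1048577 (.nr 726 147 .s1 (.nx 727 205 (.l1 (.ls 67 29 288)) (.nr 730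
  524289 (.nr 728 8193 (.lg 0 false 1 79 79 19 0 29232) (.nx 729 6503 (.lg 0 true 1 73 73 19 0
  14616) .out)) .out))) .out) .out)))))))) (.na 931 211 (.na 815 181 (.na 762 164 (.na 751 156 (.na
  742 153 (.na 734 151 (.lg 0 false 1 0 0 16 0 24) (.nx 741 660563 (.nr 740 1048577 (.nr 735 151
  .s1 (.nx 736 205 (.l1 (.ls 89 17 281)) (.nr 739 524289 (.nr 737 8193 (.lg 0 false 1 79 79 16 0
  696) (.nx 738 6503 (.lg 0 true 1 73 73 16 0 696) .out)) .out))) .out) .out)) (.na 743 154 (.lg 0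
  false 1 0 0 16 0 24) (.nx 750 660563 (.nr 749 1048577 (.nr 744 154 .s1 (.nx 745 205 (.l1 (.ls 79
  31 275)) (.nr 748 524289 (.nr 746 8193 (.lg 0 false 1 89 89 31 0 1607760) (.nx 747 6503 (.lg 0
  false 1 83 83 31 0 107184) .out)) .out))) .out) .out))) (.na 760 162 (.na 759 157 (.nx 758 660563
  (.nr 757 1048577 (.nr 752 156 .s1 (.nx 753 205 (.l1 (.ls 83 37 272)) (.nr 756 524289 (.nr 754
  8193 (.lg 0 false 1 89 89 31 0 1900080) (.nx 755 6503 (.lg 0 true 1 89 89 31 0 1900080) .out))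
  .out))) .out) .out) (.lg 0 false 1 0 0 16 0 24)) (.na 761 163 (.lg 0 false 1 0 0 16 0 24) (.lg 0
  false 1 0 0 16 0 24)))) (.na 787 173 (.na 771 168 (.na 770 167 (.nx 769 660563 (.nr 768 1048577
  (.nr 763 164 .s1 (.nx 764 205 (.l1 (.ls 79 29 259)) (.nr 767 524289 (.nr 765 8193 (.lg 0 true 1
  83 83 23 0 1392) (.nx 766 6503 (.lg 0 false 1 83 83 23 0 1392) .out)) .out))) .out) .out) (.lg 0
  false 1 0 0 16 0 24)) (.na 779 169 (.nx 778 660563 (.nr 777 1048577 (.nr 772 168 .s1 (.nx 773 205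
  (.l1 (.ls 79 37 253)) (.nr 776 524289 (.nr 774 8193 (.lg 0 true 1 83 83 37 0 29232) (.nx 775 6503
  (.lg 0 false 1 83 83 37 0 29232) .out)) .out))) .out) .out) (.nx 786 660563 (.nr 785 1048577 (.nr
  780 169 .s1 (.nx 781 205 (.l1 (.ls 83 19 251)) (.nr 784 524289 (.nr 782 8193 (.lg 0 false 1 79 79
  17 0 9048) (.nx 783 6503 (.lg 0 true 1 73 73 17 0 9048) .out)) .out))) .out) .out))) (.na 798 176
  (.na 788 174 (.lg 0 false 1 0 0 16 0 24) (.nx 797 660563 (.nr 796 1048577 (.nr 789 174 .s1 (.nx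
  793 6503 (.nx 790 205 (.l1 (.ls 67 37 244)) (.nr 792 524289 (.lg 0 true 2 67 67 23 0 4176) .out))
  (.nr 795 8193 (.lg 0 false 2 71 71 23 0 20880) .out))) .out) .out)) (.na 806 178 (.nx 805 660563
  (.nr 804 1048577 (.nr 799 176 .s1 (.nx 800 205 (.l1 (.ls 83 29 241)) (.nr 803 524289 (.nr 801
  8193 (.lg 0 true 1 89 89 31 0 15312) (.nx 802 6503 (.lg 0 false 1 89 89 31 0 229680) .out))
  .out))) .out) .out) (.na 814 179 (.nx 813 660563 (.nr 812 1048577 (.nr 807 178 .s1 (.nx 808 205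
  (.l1 (.ls 67 29 239)) (.nr 811 524289 (.nr 809 8193 (.lg 0 false 1 73 73 19 0 1392) (.nx 810 6503
  (.lg 0 true 1 71 71 19 0 1392) .out)) .out))) .out) .out) (.lg 0 false 1 0 0 16 0 24)))))) (.na
  873 197 (.na 847 189 (.na 831 187 (.na 823 182 (.nx 822 660563 (.nr 821 1048577 (.nr 816 181 .s1
  (.nx 817 205 (.l1 (.ls 83 17 235)) (.nr 820 524289 (.nr 818 8193 (.lg 0 false 1 73 73 16 0 696)
  (.nx 819 6503 (.lg 0 true 1 71 71 16 0 696) .out)) .out))) .out) .out) (.nx 830 660563 (.nr 829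
  1048577 (.nr 824 182 .s1 (.nx 825 205 (.l1 (.ls 73 31 233)) (.nr 828 524289 (.nr 826 8193 (.lg 0
  false 1 83 83 31 0 126672) (.nx 827 6503 (.lg 0 false 1 79 79 31 0 126672) .out)) .out))) .out)
  .out)) (.na 839 188 (.nx 838 660563 (.nr 837 1048577 (.nr 832 187 .s1 (.nx 835 6503 (.nx 833 205
  (.l1 (.ls 73 23 227)) (.nr 834 524289 (.lg 0 false 1 79 79 23 0 7656) .out)) (.nr 836 8193 (.lg 0
  true 1 79 79 23 0 7656) .out))) .out) .out) (.nx 846 660563 (.nr 845 1048577 (.nr 840 188 .s1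
  (.nx 841 205 (.l1 (.ls 73 23 226)) (.nr 844 524289 (.nr 842 8193 (.lg 0 true 1 79 79 23 0 1392)
  (.nx 843 6503 (.lg 0 false 1 73 73 23 0 1392) .out)) .out))) .out) .out))) (.na 856 192 (.na 848
  191 (.lg 0 false 1 0 0 16 0 24) (.nx 855 660563 (.nr 854 1048577 (.nr 849 191 .s1 (.nx 850 205
  (.l1 (.ls 83 17 223)) (.nr 853 524289 (.nr 851 8193 (.lg 0 false 1 73 73 16 0 696) (.nx 852 6503
  (.lg 0 true 1 71 71 16 0 696) .out)) .out))) .out) .out)) (.na 864 193 (.nx 863 660563 (.nr 862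
  1048577 (.nr 857 192 .s1 (.nx 860 6503 (.nx 858 205 (.l1 (.ls 71 31 221)) (.nr 859 524289 (.lg 0
  false 1 73 73 29 0 4176) .out)) (.nr 861 8193 (.lg 0 true 1 79 79 29 0 4176) .out))) .out) .out)
  (.na 865 196 (.lg 0 false 1 0 0 16 0 24) (.nx 872 660563 (.nr 871 1048577 (.nr 866 196 .s1 (.nx
  867 205 (.l1 (.ls 73 29 217)) (.nr 870 524289 (.nr 868 8193 (.lg 0 true 1 79 79 29 0 9744) (.nx
  869 6503 (.lg 0 false 1 79 79 29 0 9744) .out)) .out))) .out) .out))))) (.na 891 202 (.na 875 199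
  (.na 874 198 (.lg 0 false 1 0 0 16 0 24) (.lg 0 false 1 0 0 16 0 24)) (.na 883 201 (.nx 882
  660563 (.nr 881 1048577 (.nr 876 199 .s1 (.nx 877 205 (.l1 (.ls 83 17 214)) (.nr 880 524289 (.nr
  878 8193 (.lg 0 false 1 73 73 16 0 696) (.nx 879 6503 (.lg 0 true 1 71 71 16 0 696) .out))
  .out))) .out) .out) (.nx 890 660563 (.nr 889 1048577 (.nr 884 201 .s1 (.nx 885 205 (.l1 (.ls 61
  23 212)) (.nr 888 524289 (.nr 886 8193 (.lg 0 false 1 79 79 19 0 2088) (.nx 887 6503 (.lg 0 true
  1 79 79 19 0 2088) .out)) .out))) .out) .out))) (.na 907 204 (.na 899 203 (.nx 898 660563 (.nr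
  897 1048577 (.nr 892 202 .s1 (.nx 893 205 (.l1 (.ls 61 23 211)) (.nr 896 524289 (.nr 894 8193
  (.lg 0 false 1 73 73 23 0 4176) (.nx 895 6503 (.lg 0 true 1 71 71 23 0 4176) .out)) .out))) .out)
  .out) (.nx 906 660563 (.nr 905 1048577 (.nr 900 203 .s1 (.nx 901 205 (.l1 (.ls 67 19 210)) (.nr
  904 524289 (.nr 902 8193 (.lg 0 false 1 73 73 17 0 4872) (.nx 903 6503 (.lg 0 true 1 71 71 17 0
  4872) .out)) .out))) .out) .out)) (.na 915 206 (.nx 914 660563 (.nr 913 1048577 (.nr 908 204 .s1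
  (.nx 909 205 (.l1 (.ls 79 37 209)) (.nr 912 524289 (.nr 910 8193 (.lg 0 false 1 83 83 31 0 4176)
  (.nx 911 6503 (.lg 0 false 1 79 79 31 0 4176) .out)) .out))) .out) .out) (.na 923 208 (.nx 922
  660563 (.nr 921 1048577 (.nr 916 206 .s1 (.nx 917 205 (.l1 (.ls 79 23 207)) (.nr 920 524289 (.nr
  918 8193 (.lg 0 false 1 73 73 23 0 1392) (.nx 919 6503 (.lg 0 true 1 71 71 23 0 1392) .out))
  .out))) .out) .out) (.nx 930 660563 (.nr 929 1048577 (.nr 924 208 .s1 (.nx 925 205 (.l1 (.ls 79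
  29 205)) (.nr 928 524289 (.nr 926 8193 (.lg 0 true 1 83 83 31 0 18096) (.nx 927 6503 (.lg 0 false
  1 83 83 31 0 18096) .out)) .out))) .out) .out))))))) (.na 1018 243 (.na 974 229 (.na 949 223 (.na
  933 218 (.na 932 216 (.lg 0 false 1 0 0 16 0 24) (.lg 0 false 1 0 0 16 0 24)) (.na 941 221 (.nx
  940 660563 (.nr 939 1048577 (.nr 934 218 .s1 (.nx 935 205 (.l1 (.ls 61 23 195)) (.nr 938 524289
  (.nr 936 8193 (.lg 0 false 1 71 71 23 0 1392) (.nx 937 6503 (.lg 0 true 1 71 71 23 0 4176) .out))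
  .out))) .out) .out) (.nx 948 660563 (.nr 947 1048577 (.nr 942 221 .s1 (.nx 943 205 (.l1 (.ls 101
  23 193)) (.nr 946 524289 (.nr 944 8193 (.lg 0 true 1 79 79 23 0 9048) (.nx 945 6503 (.lg 0 false
  1 79 79 23 0 9048) .out)) .out))) .out) .out))) (.na 965 226 (.na 957 224 (.nx 956 660563 (.nr
  955 1048577 (.nr 950 223 .s1 (.nx 951 205 (.l1 (.ls 59 17 191)) (.nr 954 524289 (.nr 952 8193
  (.lg 0 false 1 71 71 16 0 4176) (.nx 953 6503 (.lg 0 true 1 67 67 16 0 696) .out)) .out))) .out)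
  .out) (.nx 964 660563 (.nr 963 1048577 (.nr 958 224 .s1 (.nx 959 205 (.l1 (.ls 79 29 190)) (.nr
  962 524289 (.nr 960 8193 (.lg 0 true 1 83 83 31 0 9744) (.nx 961 6503 (.lg 0 false 1 83 83 31 0
  9744) .out)) .out))) .out) .out)) (.na 973 227 (.nx 972 660563 (.nr 971 1048577 (.nr 966 226 .s1
  (.nx 967 205 (.l1 (.ls 83 23 188)) (.nr 970 524289 (.nr 968 8193 (.lg 0 false 1 73 73 23 0 1392)
  (.nx 969 6503 (.lg 0 true 1 73 73 23 0 1392) .out)) .out))) .out) .out) (.lg 0 false 1 0 0 16 0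
  24)))) (.na 992 234 (.na 983 232 (.na 975 231 (.lg 0 false 1 0 0 16 0 24) (.nx 982 660563 (.nr
  981 1048577 (.nr 976 231 .s1 (.nx 977 205 (.l1 (.ls 79 29 184)) (.nr 980 524289 (.nr 978 8193
  (.lg 0 false 1 83 83 29 0 1607760) (.nx 979 6503 (.lg 0 false 1 79 79 29 0 160776) .out)) .out)))
  .out) .out)) (.na 991 233 (.nx 990 660563 (.nr 989 1048577 (.nr 984 232 .s1 (.nx 985 205 (.l1
  (.ls 67 23 184)) (.nr 988 524289 (.nr 986 8193 (.lg 0 true 1 71 71 23 0 1392) (.nx 987 6503 (.lg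
  0 false 1 71 71 23 0 1392) .out)) .out))) .out) .out) (.lg 0 false 1 0 0 16 0 24))) (.na 1001 239
  (.na 993 238 (.lg 0 false 1 0 0 16 0 24) (.nx 1000 660563 (.nr 999 1048577 (.nr 994 238 .s1 (.nx
  995 205 (.l1 (.ls 73 31 179)) (.nr 998 524289 (.nr 996 8193 (.lg 0 true 1 79 79 31 0 9744) (.nx
  997 6503 (.lg 0 false 1 73 73 31 0 9744) .out)) .out))) .out) .out)) (.na 1002 241 (.lg 0 false 1
  0 0 16 0 24) (.na 1010 242 (.nx 1009 660563 (.nr 1008 1048577 (.nr 1003 241 .s1 (.nx 1004 205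
  (.l1 (.ls 79 17 177)) (.nr 1007 524289 (.nr 1005 8193 (.lg 0 false 1 71 71 17 0 696) (.nx 1006
  6503 (.lg 0 true 1 71 71 17 0 696) .out)) .out))) .out) .out) (.nx 1017 660563 (.nr 1016 1048577
  (.nr 1011 242 .s1 (.nx 1012 205 (.l1 (.ls 67 29 176)) (.nr 1015 524289 (.nr 1013 8193 (.lg 0
  false 1 73 73 29 0 15312) (.nx 1014 6503 (.lg 0 true 1 71 71 29 0 15312) .out)) .out))) .out)
  .out)))))) (.na 2820 1449 (.na 1036 256 (.na 1027 251 (.na 1019 246 (.lg 0 false 1 0 0 16 0 24)
  (.nx 1026 660563 (.nr 1025 1048577 (.nr 1020 246 .s1 (.nx 1021 205 (.l1 (.ls 71 31 173)) (.nr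
  1024 524289 (.nr 1022 8193 (.lg 0 false 1 79 79 29 0 20880) (.nx 1023 6503 (.lg 0 true 1 73 73 29
  0 20880) .out)) .out))) .out) .out)) (.na 1035 252 (.nx 1034 660563 (.nr 1033 1048577 (.nr 1028
  251 .s1 (.nx 1029 205 (.l1 (.ls 79 17 170)) (.nr 1032 524289 (.nr 1030 8193 (.lg 0 false 1 71 71
  17 0 696) (.nx 1031 6503 (.lg 0 true 1 67 67 17 0 696) .out)) .out))) .out) .out) (.lg 0 false 1
  0 0 16 0 24))) (.na 1558 512 (.na 1044 257 (.nx 1043 660563 (.nr 1042 1048577 (.nr 1037 256 .s1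
  (.nx 1038 1292 (.l1 (.ls 71 43 6523)) (.nr 1041 262145 (.nr 1039 16385 (.lg 0 true 1 79 79 29 0
  1392) (.nx 1040 6503 (.lg 0 false 1 67 67 29 0 1392) .out)) .out))) .out) .out) (.nx 1557 82572
  (.nr 1556 1048577 (.nr 1045 257 .s1 (.nx 1300 647 (.la (.ls 107 31 1631)) (.nr 1555 262145 (.la
  (.lg 0 false 1 79 79 23 0)) .out))) .out) .out)) (.na 1988 725 (.nx 1987 82572 (.nr 1986 1048577
  (.nr 1559 512 .s1 (.nx 1772 647 (.la (.ls 97 29 820)) (.nr 1985 262145 (.la (.lg 0 false 1 73 73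
  29 0)) .out))) .out) .out) (.na 2290 1024 (.nx 2289 3252 (.nr 2288 262145 (.nr 1989 725 .s1 (.la
  (.ls 61 43 14589))) .out) .out) (.nx 2819 3252 (.nr 2818 262145 (.nr 2291 1024 .s1 (.nx 2378 87
  (.nr 2377 9585 (.lx (.lp 53 23 363)) (.l1 .sk)) (.nx 2379 88 (.l1 .sk) (.nx 2393 101 (.nr 2392
  131073 (.lx (.lp 19 0 363)) .out) (.la (.ls 59 41 10320)))))) .out) .out))))) (.na 5750 8192 (.na
  4450 2897 (.na 3510 2048 (.nx 3509 1627 (.nr 3508 131073 (.nr 2821 1449 .s1 (.nx 2908 87 (.nr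
  2907 13547 (.lx (.lp 53 29 513)) (.l1 .sk)) (.nx 2909 88 (.l1 .sk) (.la (.ls 67 31 1824)))))
  .out) .out) (.nx 4449 1627 (.nr 4448 131073 (.nr 3511 2048 .s1 (.nx 3598 87 (.nr 3597 19163 (.lx
  (.lp 47 29 725)) (.l1 .sk)) (.nx 3599 88 (.l1 .sk) (.la (.ls 67 31 1291))))) .out) .out)) (.na
  5100 4096 (.nx 5099 647 (.nr 5098 65537 (.nr 4451 2897 .s1 (.nx 4613 163 (.lx (.lp 59 31 1025))
  (.nr 5097 32769 (.lx (.lp 53 31 1025)) .out))) .out) .out) (.nx 5749 647 (.nr 5748 65537 (.nr
  5101 4096 .s1 (.nx 5263 163 (.lx (.lp 59 31 2049)) (.nr 5747 32769 (.lx (.lp 47 37 2049)) .out)))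
  .out) .out))) (.na 7049 32768 (.na 6399 16384 (.nx 6398 647 (.nr 6397 65537 (.nr 5751 8192 .s1
  (.lx (.lp 53 41 4097))) .out) .out) (.nx 7048 647 (.nr 7047 131073 (.nr 6400 16384 .s1 (.nx 6562
  163 (.lx (.lp 16 0 8193)) (.nr 7046 65537 (.lx (.lp 47 43 8193)) .out))) .out) .out)) (.na 7375
  65536 (.nx 7374 324 (.nr 7373 131073 (.nr 7050 32768 .s1 (.lx (.lp 47 47 16385))) .out) .out)
  (.na 7701 131073 (.nx 7700 324 (.nr 7699 262145 (.nr 7376 65536 .s1 (.lx (.lp 47 53 32769)))
  .out) .out) .out))))))))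

theorem c83 :
    OkQ ckI L6 95 1 12 0 34359738368 1 1099511627776 ∧
    OkQ ckI L6 87 23 1099511627776 0 34359738368 1 1099511627776 := by
  refine ⟨?_, ?_⟩
  · refine fin 6840 893 T83_0 ?_
    refine jn 6 (by decide +kernel) ?_
    refine jn 7 (by decide +kernel) ?_
    refine jn 10 (by decide +kernel) ?_
    refine jn 12 (by decide +kernel) ?_
    refine jn 14 (by decide +kernel) ?_
    refine jn 16 (by decide +kernel) ?_
    refine jn 18 (by decide +kernel) ?_
    refine jn 20 (by decide +kernel) ?_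
    refine jn 21 (by decide +kernel) ?_
    refine jn 24 (by decide +kernel) ?_
    refine jn 26 (by decide +kernel) ?_
    refine jn 28 (by decide +kernel) ?_
    refine jn 30 (by decide +kernel) ?_
    refine jn 43 (by decide +kernel) ?_
    refine jn 49 (by decide +kernel) ?_
    refine jn 53 (by decide +kernel) ?_
    refine jn 56 (by decide +kernel) ?_
    refine jn 61 (by decide +kernel) ?_
    refine jn 65 (by decide +kernel) ?_
    refine jn 69 (by decide +kernel) ?_
    refine jn 72 (by decide +kernel) ?_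
    refine jn 84 (by decide +kernel) ?_
    refine jn 96 (by decide +kernel) ?_
    refine jn 115 (by decide +kernel) ?_
    refine jn 124 (by decide +kernel) ?_
    refine jn 141 (by decide +kernel) ?_
    refine jn 147 (by decide +kernel) ?_
    refine jn 173 (by decide +kernel) ?_
    refine jn 183 (by decide +kernel) ?_
    refine jn 186 (by decide +kernel) ?_
    refine jn 190 (by decide +kernel) ?_
    refine jn 193 (by decide +kernel) ?_
    refine jn 197 (by decide +kernel) ?_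
    refine jn 203 (by decide +kernel) ?_
    refine jn 211 (by decide +kernel) ?_
    refine jn 219 (by decide +kernel) ?_
    refine jn 239 (by decide +kernel) ?_
    refine jn 251 (by decide +kernel) ?_
    refine jn 258 (by decide +kernel) ?_
    refine jn 269 (by decide +kernel) ?_
    refine jn 293 (by decide +kernel) ?_
    refine jn 299 (by decide +kernel) ?_
    refine jn 300 (by decide +kernel) ?_
    refine jn 301 (by decide +kernel) ?_
    refine jn 302 (by decide +kernel) ?_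
    refine jn 303 (by decide +kernel) ?_
    refine jn 304 (by decide +kernel) ?_
    refine jn 305 (by decide +kernel) ?_
    refine jn 306 (by decide +kernel) ?_
    refine jn 307 (by decide +kernel) ?_
    refine jn 308 (by decide +kernel) ?_
    refine jn 309 (by decide +kernel) ?_
    refine jn 310 (by decide +kernel) ?_
    refine jn 311 (by decide +kernel) ?_
    refine jn 312 (by decide +kernel) ?_
    refine jn 313 (by decide +kernel) ?_
    refine jn 321 (by decide +kernel) ?_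
    refine jn 322 (by decide +kernel) ?_
    refine jn 323 (by decide +kernel) ?_
    refine jn 324 (by decide +kernel) ?_
    refine jn 325 (by decide +kernel) ?_
    refine jn 326 (by decide +kernel) ?_
    refine jn 327 (by decide +kernel) ?_
    refine jn 328 (by decide +kernel) ?_
    refine jn 329 (by decide +kernel) ?_
    refine jn 330 (by decide +kernel) ?_
    refine jn 331 (by decide +kernel) ?_
    refine jn 333 (by decide +kernel) ?_
    refine jn 334 (by decide +kernel) ?_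
    refine jn 339 (by decide +kernel) ?_
    refine jn 348 (by decide +kernel) ?_
    refine jn 356 (by decide +kernel) ?_
    refine jn 363 (by decide +kernel) ?_
    refine jn 370 (by decide +kernel) ?_
    refine jn 377 (by decide +kernel) ?_
    refine jn 379 (by decide +kernel) ?_
    refine jn 381 (by decide +kernel) ?_
    refine jn 389 (by decide +kernel) ?_
    refine jn 409 (by decide +kernel) ?_
    refine jn 421 (by decide +kernel) ?_
    refine jn 423 (by decide +kernel) ?_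
    refine jn 424 (by decide +kernel) ?_
    refine jn 425 (by decide +kernel) ?_
    refine jn 426 (by decide +kernel) ?_
    refine jn 427 (by decide +kernel) ?_
    refine jn 428 (by decide +kernel) ?_
    refine jn 429 (by decide +kernel) ?_
    refine jn 430 (by decide +kernel) ?_
    refine jn 444 (by decide +kernel) ?_
    refine jn 448 (by decide +kernel) ?_
    refine jn 450 (by decide +kernel) ?_
    refine jn 452 (by decide +kernel) ?_
    refine jn 454 (by decide +kernel) ?_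
    refine jn 456 (by decide +kernel) ?_
    refine jn 458 (by decide +kernel) ?_
    refine jn 460 (by decide +kernel) ?_
    refine jn 463 (by decide +kernel) ?_
    refine jn 470 (by decide +kernel) ?_
    refine jn 477 (by decide +kernel) ?_
    refine jn 484 (by decide +kernel) ?_
    refine jn 486 (by decide +kernel) ?_
    refine jn 492 (by decide +kernel) ?_
    refine jn 528 (by decide +kernel) ?_
    refine jn 535 (by decide +kernel) ?_
    refine jn 547 (by decide +kernel) ?_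
    refine jn 553 (by decide +kernel) ?_
    refine jn 566 (by decide +kernel) ?_
    refine jn 574 (by decide +kernel) ?_
    refine jn 585 (by decide +kernel) ?_
    refine jn 614 (by decide +kernel) ?_
    refine jn 634 (by decide +kernel) ?_
    refine jn 635 (by decide +kernel) ?_
    refine jn 636 (by decide +kernel) ?_
    refine jn 638 (by decide +kernel) ?_
    refine jn 639 (by decide +kernel) ?_
    refine jn 640 (by decide +kernel) ?_
    refine jn 641 (by decide +kernel) ?_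
    refine jn 643 (by decide +kernel) ?_
    refine jn 644 (by decide +kernel) ?_
    refine jn 647 (by decide +kernel) ?_
    refine jn 650 (by decide +kernel) ?_
    refine jn 654 (by decide +kernel) ?_
    refine jn 658 (by decide +kernel) ?_
    refine jn 661 (by decide +kernel) ?_
    refine jn 668 (by decide +kernel) ?_
    refine jn 681 (by decide +kernel) ?_
    refine jn 683 (by decide +kernel) ?_
    refine jn 684 (by decide +kernel) ?_
    refine jn 685 (by decide +kernel) ?_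
    refine jn 686 (by decide +kernel) ?_
    refine jn 687 (by decide +kernel) ?_
    refine jn 688 (by decide +kernel) ?_
    refine jn 689 (by decide +kernel) ?_
    refine jn 690 (by decide +kernel) ?_
    refine jn 691 (by decide +kernel) ?_
    refine jn 692 (by decide +kernel) ?_
    refine jn 693 (by decide +kernel) ?_
    refine jn 694 (by decide +kernel) ?_
    refine jn 695 (by decide +kernel) ?_
    refine jn 696 (by decide +kernel) ?_
    refine jn 697 (by decide +kernel) ?_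
    refine jn 698 (by decide +kernel) ?_
    refine jn 699 (by decide +kernel) ?_
    refine jn 700 (by decide +kernel) ?_
    refine jn 701 (by decide +kernel) ?_
    refine jn 702 (by decide +kernel) ?_
    refine jn 703 (by decide +kernel) ?_
    refine jn 706 (by decide +kernel) ?_
    refine jn 709 (by decide +kernel) ?_
    refine jn 711 (by decide +kernel) ?_
    refine jn 712 (by decide +kernel) ?_
    refine jn 722 (by decide +kernel) ?_
    refine jn 723 (by decide +kernel) ?_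
    refine jn 726 (by decide +kernel) ?_
    refine jn 729 (by decide +kernel) ?_
    refine jn 745 (by decide +kernel) ?_
    refine jn 751 (by decide +kernel) ?_
    refine jn 753 (by decide +kernel) ?_
    refine jn 754 (by decide +kernel) ?_
    refine jn 755 (by decide +kernel) ?_
    refine jn 757 (by decide +kernel) ?_
    refine jn 765 (by decide +kernel) ?_
    refine jn 770 (by decide +kernel) ?_
    refine jn 792 (by decide +kernel) ?_
    refine jn 799 (by decide +kernel) ?_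
    refine jn 807 (by decide +kernel) ?_
    refine jn 816 (by decide +kernel) ?_
    refine jn 823 (by decide +kernel) ?_
    refine jn 841 (by decide +kernel) ?_
    refine jn 856 (by decide +kernel) ?_
    refine jn 858 (by decide +kernel) ?_
    refine jn 861 (by decide +kernel) ?_
    refine jn 863 (by decide +kernel) ?_
    refine jn 871 (by decide +kernel) ?_
    refine jn 875 (by decide +kernel) ?_
    refine jn 878 (by decide +kernel) ?_
    refine jn 882 (by decide +kernel) ?_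
    refine jn 890 (by decide +kernel) ?_
    exact je (by decide +kernel)
  · refine fin 696 7702 T83_1 ?_
    refine jn 5 (by decide +kernel) ?_
    refine jn 6 (by decide +kernel) ?_
    refine jn 7 (by decide +kernel) ?_
    refine jn 8 (by decide +kernel) ?_
    refine jn 9 (by decide +kernel) ?_
    refine jn 11 (by decide +kernel) ?_
    refine jn 12 (by decide +kernel) ?_
    refine jn 14 (by decide +kernel) ?_
    refine jn 16 (by decide +kernel) ?_
    refine jn 18 (by decide +kernel) ?_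
    refine jn 29 (by decide +kernel) ?_
    refine jn 34 (by decide +kernel) ?_
    refine jn 40 (by decide +kernel) ?_
    refine jn 51 (by decide +kernel) ?_
    refine jn 52 (by decide +kernel) ?_
    refine jn 53 (by decide +kernel) ?_
    refine jn 54 (by decide +kernel) ?_
    refine jn 55 (by decide +kernel) ?_
    refine jn 56 (by decide +kernel) ?_
    refine jn 57 (by decide +kernel) ?_
    refine jn 60 (by decide +kernel) ?_
    refine jn 62 (by decide +kernel) ?_
    refine jn 64 (by decide +kernel) ?_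
    refine jn 82 (by decide +kernel) ?_
    refine jn 92 (by decide +kernel) ?_
    refine jn 93 (by decide +kernel) ?_
    refine jn 95 (by decide +kernel) ?_
    refine jn 97 (by decide +kernel) ?_
    refine jn 98 (by decide +kernel) ?_
    refine jn 100 (by decide +kernel) ?_
    refine jn 102 (by decide +kernel) ?_
    refine jn 104 (by decide +kernel) ?_
    refine jn 115 (by decide +kernel) ?_
    refine jn 120 (by decide +kernel) ?_
    refine jn 125 (by decide +kernel) ?_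
    refine jn 140 (by decide +kernel) ?_
    refine jn 145 (by decide +kernel) ?_
    refine jn 158 (by decide +kernel) ?_
    refine jn 163 (by decide +kernel) ?_
    refine jn 175 (by decide +kernel) ?_
    refine jn 180 (by decide +kernel) ?_
    refine jn 193 (by decide +kernel) ?_
    refine jn 198 (by decide +kernel) ?_
    refine jn 206 (by decide +kernel) ?_
    refine jn 207 (by decide +kernel) ?_
    refine jn 208 (by decide +kernel) ?_
    refine jn 211 (by decide +kernel) ?_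
    refine jn 212 (by decide +kernel) ?_
    refine jn 215 (by decide +kernel) ?_
    refine jn 228 (by decide +kernel) ?_
    refine jn 232 (by decide +kernel) ?_
    refine jn 240 (by decide +kernel) ?_
    refine jn 241 (by decide +kernel) ?_
    refine jn 242 (by decide +kernel) ?_
    refine jn 244 (by decide +kernel) ?_
    refine jn 253 (by decide +kernel) ?_
    refine jn 260 (by decide +kernel) ?_
    refine jn 273 (by decide +kernel) ?_
    refine jn 277 (by decide +kernel) ?_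
    refine jn 285 (by decide +kernel) ?_
    refine jn 286 (by decide +kernel) ?_
    refine jn 287 (by decide +kernel) ?_
    refine jn 289 (by decide +kernel) ?_
    refine jn 296 (by decide +kernel) ?_
    refine jn 299 (by decide +kernel) ?_
    refine jn 300 (by decide +kernel) ?_
    refine jn 302 (by decide +kernel) ?_
    refine jn 303 (by decide +kernel) ?_
    refine jn 304 (by decide +kernel) ?_
    refine jn 325 (by decide +kernel) ?_
    refine jn 329 (by decide +kernel) ?_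
    refine jn 331 (by decide +kernel) ?_
    refine jn 344 (by decide +kernel) ?_
    refine jn 356 (by decide +kernel) ?_
    refine jn 363 (by decide +kernel) ?_
    refine jn 374 (by decide +kernel) ?_
    refine jn 376 (by decide +kernel) ?_
    refine jn 386 (by decide +kernel) ?_
    refine jn 388 (by decide +kernel) ?_
    refine jn 390 (by decide +kernel) ?_
    refine jn 401 (by decide +kernel) ?_
    refine jn 414 (by decide +kernel) ?_
    refine jn 425 (by decide +kernel) ?_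
    refine jn 428 (by decide +kernel) ?_
    refine jn 447 (by decide +kernel) ?_
    refine jn 450 (by decide +kernel) ?_
    refine jn 451 (by decide +kernel) ?_
    refine jn 452 (by decide +kernel) ?_
    refine jn 454 (by decide +kernel) ?_
    refine jn 465 (by decide +kernel) ?_
    refine jn 475 (by decide +kernel) ?_
    refine jn 478 (by decide +kernel) ?_
    refine jn 489 (by decide +kernel) ?_
    refine jn 499 (by decide +kernel) ?_
    refine jn 502 (by decide +kernel) ?_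
    refine jn 513 (by decide +kernel) ?_
    refine jn 525 (by decide +kernel) ?_
    refine jn 536 (by decide +kernel) ?_
    refine jn 547 (by decide +kernel) ?_
    refine jn 555 (by decide +kernel) ?_
    refine jn 556 (by decide +kernel) ?_
    refine jn 557 (by decide +kernel) ?_
    refine jn 559 (by decide +kernel) ?_
    refine jn 570 (by decide +kernel) ?_
    refine jn 578 (by decide +kernel) ?_
    refine jn 579 (by decide +kernel) ?_
    refine jn 580 (by decide +kernel) ?_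
    refine jn 586 (by decide +kernel) ?_
    refine jn 592 (by decide +kernel) ?_
    refine jn 603 (by decide +kernel) ?_
    refine jn 613 (by decide +kernel) ?_
    refine jn 615 (by decide +kernel) ?_
    refine jn 626 (by decide +kernel) ?_
    refine jn 637 (by decide +kernel) ?_
    refine jn 648 (by decide +kernel) ?_
    refine jn 658 (by decide +kernel) ?_
    refine jn 667 (by decide +kernel) ?_
    refine jn 676 (by decide +kernel) ?_
    refine jn 683 (by decide +kernel) ?_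
    refine jn 684 (by decide +kernel) ?_
    refine jn 694 (by decide +kernel) ?_
    refine jn 710 (by decide +kernel) ?_
    refine jn 719 (by decide +kernel) ?_
    refine jn 729 (by decide +kernel) ?_
    refine jn 746 (by decide +kernel) ?_
    refine jn 754 (by decide +kernel) ?_
    refine jn 766 (by decide +kernel) ?_
    refine jn 774 (by decide +kernel) ?_
    refine jn 783 (by decide +kernel) ?_
    refine jn 800 (by decide +kernel) ?_
    refine jn 801 (by decide +kernel) ?_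
    refine jn 810 (by decide +kernel) ?_
    refine jn 826 (by decide +kernel) ?_
    refine jn 834 (by decide +kernel) ?_
    refine jn 843 (by decide +kernel) ?_
    refine jn 859 (by decide +kernel) ?_
    refine jn 869 (by decide +kernel) ?_
    refine jn 887 (by decide +kernel) ?_
    refine jn 903 (by decide +kernel) ?_
    refine jn 911 (by decide +kernel) ?_
    refine jn 925 (by decide +kernel) ?_
    refine jn 926 (by decide +kernel) ?_
    refine jn 937 (by decide +kernel) ?_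
    refine jn 945 (by decide +kernel) ?_
    refine jn 959 (by decide +kernel) ?_
    refine jn 960 (by decide +kernel) ?_
    refine jn 969 (by decide +kernel) ?_
    refine jn 979 (by decide +kernel) ?_
    refine jn 993 (by decide +kernel) ?_
    refine jn 1002 (by decide +kernel) ?_
    refine jn 1014 (by decide +kernel) ?_
    refine jn 1031 (by decide +kernel) ?_
    refine jn 1040 (by decide +kernel) ?_
    refine jn 1060 (by decide +kernel) ?_
    refine jn 1074 (by decide +kernel) ?_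
    refine jn 1096 (by decide +kernel) ?_
    refine jn 1107 (by decide +kernel) ?_
    refine jn 1127 (by decide +kernel) ?_
    refine jn 1150 (by decide +kernel) ?_
    refine jn 1170 (by decide +kernel) ?_
    refine jn 1194 (by decide +kernel) ?_
    refine jn 1224 (by decide +kernel) ?_
    refine jn 1245 (by decide +kernel) ?_
    refine jn 1272 (by decide +kernel) ?_
    refine jn 1305 (by decide +kernel) ?_
    refine jn 1307 (by decide +kernel) ?_
    refine jn 1308 (by decide +kernel) ?_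
    refine jn 1312 (by decide +kernel) ?_
    refine jn 1315 (by decide +kernel) ?_
    refine jn 1316 (by decide +kernel) ?_
    refine jn 1320 (by decide +kernel) ?_
    refine jn 1326 (by decide +kernel) ?_
    refine jn 1330 (by decide +kernel) ?_
    refine jn 1336 (by decide +kernel) ?_
    refine jn 1346 (by decide +kernel) ?_
    refine jn 1351 (by decide +kernel) ?_
    refine jn 1352 (by decide +kernel) ?_
    refine jn 1355 (by decide +kernel) ?_
    refine jn 1356 (by decide +kernel) ?_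
    refine jn 1370 (by decide +kernel) ?_
    refine jn 1371 (by decide +kernel) ?_
    refine jn 1372 (by decide +kernel) ?_
    refine jn 1379 (by decide +kernel) ?_
    refine jn 1380 (by decide +kernel) ?_
    refine jn 1391 (by decide +kernel) ?_
    refine jn 1395 (by decide +kernel) ?_
    refine jn 1399 (by decide +kernel) ?_
    refine jn 1402 (by decide +kernel) ?_
    refine jn 1407 (by decide +kernel) ?_
    refine jn 1408 (by decide +kernel) ?_
    refine jn 1419 (by decide +kernel) ?_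
    refine jn 1420 (by decide +kernel) ?_
    refine jn 1427 (by decide +kernel) ?_
    refine jn 1435 (by decide +kernel) ?_
    refine jn 1436 (by decide +kernel) ?_
    refine jn 1445 (by decide +kernel) ?_
    refine jn 1451 (by decide +kernel) ?_
    refine jn 1454 (by decide +kernel) ?_
    refine jn 1459 (by decide +kernel) ?_
    refine jn 1460 (by decide +kernel) ?_
    refine jn 1479 (by decide +kernel) ?_
    refine jn 1485 (by decide +kernel) ?_
    refine jn 1491 (by decide +kernel) ?_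
    refine jn 1492 (by decide +kernel) ?_
    refine jn 1495 (by decide +kernel) ?_
    refine jn 1504 (by decide +kernel) ?_
    refine jn 1507 (by decide +kernel) ?_
    refine jn 1512 (by decide +kernel) ?_
    refine jn 1519 (by decide +kernel) ?_
    refine jn 1522 (by decide +kernel) ?_
    refine jn 1530 (by decide +kernel) ?_
    refine jn 1536 (by decide +kernel) ?_
    refine jn 1546 (by decide +kernel) ?_
    refine jn 1573 (by decide +kernel) ?_
    refine jn 1591 (by decide +kernel) ?_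
    refine jn 1618 (by decide +kernel) ?_
    refine jn 1656 (by decide +kernel) ?_
    refine jn 1671 (by decide +kernel) ?_
    refine jn 1706 (by decide +kernel) ?_
    refine jn 1745 (by decide +kernel) ?_
    refine jn 1772 (by decide +kernel) ?_
    refine jn 1783 (by decide +kernel) ?_
    refine jn 1788 (by decide +kernel) ?_
    refine jn 1793 (by decide +kernel) ?_
    refine jn 1796 (by decide +kernel) ?_
    refine jn 1798 (by decide +kernel) ?_
    refine jn 1804 (by decide +kernel) ?_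
    refine jn 1806 (by decide +kernel) ?_
    refine jn 1808 (by decide +kernel) ?_
    refine jn 1821 (by decide +kernel) ?_
    refine jn 1824 (by decide +kernel) ?_
    refine jn 1831 (by decide +kernel) ?_
    refine jn 1832 (by decide +kernel) ?_
    refine jn 1833 (by decide +kernel) ?_
    refine jn 1846 (by decide +kernel) ?_
    refine jn 1859 (by decide +kernel) ?_
    refine jn 1869 (by decide +kernel) ?_
    refine jn 1876 (by decide +kernel) ?_
    refine jn 1877 (by decide +kernel) ?_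
    refine jn 1883 (by decide +kernel) ?_
    refine jn 1884 (by decide +kernel) ?_
    refine jn 1886 (by decide +kernel) ?_
    refine jn 1897 (by decide +kernel) ?_
    refine jn 1903 (by decide +kernel) ?_
    refine jn 1916 (by decide +kernel) ?_
    refine jn 1918 (by decide +kernel) ?_
    refine jn 1923 (by decide +kernel) ?_
    refine jn 1932 (by decide +kernel) ?_
    refine jn 1936 (by decide +kernel) ?_
    refine jn 1946 (by decide +kernel) ?_
    refine jn 1957 (by decide +kernel) ?_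
    refine jn 1964 (by decide +kernel) ?_
    refine jn 1967 (by decide +kernel) ?_
    refine jn 1972 (by decide +kernel) ?_
    refine jn 1978 (by decide +kernel) ?_
    refine jn 1984 (by decide +kernel) ?_
    refine jn 1992 (by decide +kernel) ?_
    refine jn 2007 (by decide +kernel) ?_
    refine jn 2018 (by decide +kernel) ?_
    refine jn 2048 (by decide +kernel) ?_
    refine jn 2060 (by decide +kernel) ?_
    refine jn 2073 (by decide +kernel) ?_
    refine jn 2088 (by decide +kernel) ?_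
    refine jn 2098 (by decide +kernel) ?_
    refine jn 2135 (by decide +kernel) ?_
    refine jn 2148 (by decide +kernel) ?_
    refine jn 2166 (by decide +kernel) ?_
    refine jn 2186 (by decide +kernel) ?_
    refine jn 2202 (by decide +kernel) ?_
    refine jn 2221 (by decide +kernel) ?_
    refine jn 2238 (by decide +kernel) ?_
    refine jn 2262 (by decide +kernel) ?_
    refine jn 2291 (by decide +kernel) ?_
    refine jn 2416 (by decide +kernel) ?_
    refine jn 2435 (by decide +kernel) ?_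
    refine jn 2455 (by decide +kernel) ?_
    refine jn 2465 (by decide +kernel) ?_
    refine jn 2495 (by decide +kernel) ?_
    refine jn 2513 (by decide +kernel) ?_
    refine jn 2525 (by decide +kernel) ?_
    refine jn 2556 (by decide +kernel) ?_
    refine jn 2587 (by decide +kernel) ?_
    refine jn 2605 (by decide +kernel) ?_
    refine jn 2636 (by decide +kernel) ?_
    refine jn 2678 (by decide +kernel) ?_
    refine jn 2691 (by decide +kernel) ?_
    refine jn 2716 (by decide +kernel) ?_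
    refine jn 2751 (by decide +kernel) ?_
    refine jn 2777 (by decide +kernel) ?_
    refine jn 2797 (by decide +kernel) ?_
    refine jn 2818 (by decide +kernel) ?_
    refine jn 2938 (by decide +kernel) ?_
    refine jn 2969 (by decide +kernel) ?_
    refine jn 3019 (by decide +kernel) ?_
    refine jn 3058 (by decide +kernel) ?_
    refine jn 3096 (by decide +kernel) ?_
    refine jn 3147 (by decide +kernel) ?_
    refine jn 3201 (by decide +kernel) ?_
    refine jn 3234 (by decide +kernel) ?_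
    refine jn 3282 (by decide +kernel) ?_
    refine jn 3318 (by decide +kernel) ?_
    refine jn 3364 (by decide +kernel) ?_
    refine jn 3399 (by decide +kernel) ?_
    refine jn 3442 (by decide +kernel) ?_
    refine jn 3488 (by decide +kernel) ?_
    refine jn 3629 (by decide +kernel) ?_
    refine jn 3673 (by decide +kernel) ?_
    refine jn 3727 (by decide +kernel) ?_
    refine jn 3765 (by decide +kernel) ?_
    refine jn 3813 (by decide +kernel) ?_
    refine jn 3847 (by decide +kernel) ?_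
    refine jn 3903 (by decide +kernel) ?_
    refine jn 3948 (by decide +kernel) ?_
    refine jn 3998 (by decide +kernel) ?_
    refine jn 4043 (by decide +kernel) ?_
    refine jn 4099 (by decide +kernel) ?_
    refine jn 4165 (by decide +kernel) ?_
    refine jn 4200 (by decide +kernel) ?_
    refine jn 4255 (by decide +kernel) ?_
    refine jn 4302 (by decide +kernel) ?_
    refine jn 4362 (by decide +kernel) ?_
    refine jn 4417 (by decide +kernel) ?_
    refine jn 4451 (by decide +kernel) ?_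
    refine jn 4737 (by decide +kernel) ?_
    refine jn 4843 (by decide +kernel) ?_
    refine jn 4950 (by decide +kernel) ?_
    refine jn 5036 (by decide +kernel) ?_
    refine jn 5096 (by decide +kernel) ?_
    refine jn 5321 (by decide +kernel) ?_
    refine jn 5404 (by decide +kernel) ?_
    refine jn 5476 (by decide +kernel) ?_
    refine jn 5548 (by decide +kernel) ?_
    refine jn 5622 (by decide +kernel) ?_
    refine jn 5688 (by decide +kernel) ?_
    refine jn 5733 (by decide +kernel) ?_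
    refine jn 5953 (by decide +kernel) ?_
    refine jn 6079 (by decide +kernel) ?_
    refine jn 6173 (by decide +kernel) ?_
    refine jn 6241 (by decide +kernel) ?_
    refine jn 6317 (by decide +kernel) ?_
    refine jn 6381 (by decide +kernel) ?_
    refine jn 6675 (by decide +kernel) ?_
    refine jn 6815 (by decide +kernel) ?_
    refine jn 6918 (by decide +kernel) ?_
    refine jn 7030 (by decide +kernel) ?_
    refine jn 7376 (by decide +kernel) ?_
    exact je (by decide +kernel)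

end Pool.Agent.MP_2339ce_nt.NR
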